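import Pool.Agent.ROT.LBot

/-!
# ROT, row A6 (helper22): words with the same part below a double cut row

* `Stn d n` : the states of depth at most n with both feet within n of the top;
* `SimW d n w w'` : `w = w'`, or the same part below a state of `Stn d n`; **`simW_eqv`** : an equivalence;
* `Deep d n w z` : the deepest state of w in `Stn d n`; `cdW d n w` : the radius of the cap there;
* **`simW_norm`** : the normal form (a common deepest state), with the bounds of the caps.
-/

set_option autoImplicit false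

open scoped ENNReal

namespace HexObs

namespace ART

open Pool.Agent.ROT

/-- the states of depth at most n with both feet within n -/
def Stn (d : Pt) (n : ℕ) : Set (Pt × Pt) := {z | dpt d z ≤ n ∧ TIW.hn z.1 ≤ n ∧ TIW.hn z.2 ≤ n}

lemma Stn_mono {d : Pt} {n m : ℕ} (h : n ≤ m) : Stn d n ⊆ Stn d m := by
  rintro z ⟨h1, h2, h3⟩
  have h4 : (n : ℤ) ≤ m := by exact_mod_cast h
  exact ⟨h1.trans h, h2.trans h4, h3.trans h4⟩

lemma fin_Stn (d : Pt) (n : ℕ) : (Stn d n).Finite := (fin_states n).subset fun _ hz => hz.2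

/-- the same word, or the same part below a state of `Stn d n` -/
def SimW (d : Pt) (n : ℕ) (w w' : List Bool) : Prop := w = w' ∨ ∃ z ∈ Stn d n, SameO d z w w'

lemma SameO.symm {d : Pt} {z : Pt × Pt} {w w' : List Bool} (h : SameO d z w w') : SameO d z w' w := by
  obtain ⟨R, O, S, R', S', h1, h2, hC, hC', hO⟩ := h
  exact ⟨R', O, S', R, S, h2, h1, hC', hC, hO⟩

lemma SameO.left {d : Pt} {z : Pt × Pt} {w w' : List Bool} (h : SameO d z w w') : CutA d w z := by
  obtain ⟨R, O, S, R', S', h1, h2, hC, hC', hO⟩ := h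
  exact ⟨R, O, S, h1, hC, hO⟩

lemma SameO.right {d : Pt} {z : Pt × Pt} {w w' : List Bool} (h : SameO d z w w') : CutA d w' z := h.symm.left

lemma sameO_refl {d : Pt} {z : Pt × Pt} {w : List Bool} (h : CutA d w z) : SameO d z w w := by
  obtain ⟨R, O, S, h1, hC, hO⟩ := h
  exact ⟨R, O, S, R, S, h1, h1, hC, hC, hO⟩

lemma SameO.trans {d : Pt} (hd : d ∈ dirs) {z : Pt × Pt} {w w' w'' : List Bool} (h : SameO d z w w')
    (h' : SameO d z w' w'') : SameO d z w w'' := by
  obtain ⟨R, O, S, R', S', h1, h2, hC, hC', hO⟩ := h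
  obtain ⟨R1, O1, S1, R1', S1', g1, g2, gC, gC', gO⟩ := h'
  obtain ⟨e1, e2, e3⟩ := dec_uniq hd hC' hO gC gO (h2.symm.trans g1)
  subst e2
  exact ⟨R, O, S, R1', S1', h1, g2, hC, gC', hO⟩

/-- two states of one word: the deeper one, or the same -/
lemma state_cases {d : Pt} (hd : d ∈ dirs) {w : List Bool} {z y : Pt × Pt} (hz : CutA d w z) (hy : CutA d w y) :
    dpt d z < dpt d y ∨ z = y ∨ dpt d y < dpt d z := by
  rcases lt_trichotomy (dpt d z) (dpt d y) with h | h | h
  · exact Or.inl h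
  · exact Or.inr (Or.inl ((cutS d hd Set.univ).ax4 ⟨trivial, hz⟩ ⟨trivial, hy⟩ h))
  · exact Or.inr (Or.inr h)

/-- **an equivalence** -/
theorem simW_eqv {d : Pt} (hd : d ∈ dirs) (n : ℕ) : Equivalence (SimW d n) := by
  refine ⟨fun w => Or.inl rfl, ?_, ?_⟩
  · rintro w w' (h | ⟨z, hz, h⟩)
    · exact Or.inl h.symm
    · exact Or.inr ⟨z, hz, h.symm⟩
  · rintro w w' w'' (h | ⟨z, hz, h⟩) h'
    · rw [h]
      exact h'
    · rcases h' with h' | ⟨y, hy, h'⟩
      · rw [← h']
        exact Or.inr ⟨z, hz, h⟩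
      · rcases state_cases hd h.right h'.left with h1 | h1 | h1
        · -- y is deeper
          have h2 : SameO d y w' w := same_deeper hd h.symm h'.left (dpt_lt h1)
          exact Or.inr ⟨y, hy, h2.symm.trans hd h'⟩
        · subst h1
          exact Or.inr ⟨z, hz, h.trans hd h'⟩
        · have h2 : SameO d z w' w'' := same_deeper hd h' h.right (dpt_lt h1)
          exact Or.inr ⟨z, hz, h.trans hd h2⟩

lemma simW_mono {d : Pt} {n m : ℕ} (h : n ≤ m) {w w' : List Bool} (hw : SimW d n w w') : SimW d m w w' := by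
  rcases hw with hw | ⟨z, hz, hw⟩
  · exact Or.inl hw
  · exact Or.inr ⟨z, Stn_mono h hz, hw⟩

lemma simW_bot {d : Pt} (hd : d ∈ dirs) {n : ℕ} {w w' : List Bool} (h : SimW d n w w') : bot d w = bot d w' := by
  rcases h with h | ⟨z, -, h⟩
  · rw [h]
  · exact bot_same hd h

lemma simW_mem {d : Pt} (hd : d ∈ dirs) {n : ℕ} {w w' : List Bool} (h : SimW d n w w') (hw : w ∈ WT d) : w' ∈ WT d := by
  rcases h with h | ⟨z, -, h⟩
  · rwa [← h]
  · exact h.right.mem hd

/-- functions which are constant on the classes of `SimW d n` are outer at the states of `Stn d n` -/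
lemma outA_of_sim {α : Type} {d : Pt} {n : ℕ} {f : List Bool → α} (h : ∀ w w', SimW d n w w' → f w = f w') :
    OutA d (Stn d n) f := fun z hz _ _ hw => h _ _ (Or.inr ⟨z, hz, hw⟩)

/-! ### the deepest state -/

/-- z is the deepest state of w in `Stn d n` -/
def Deep (d : Pt) (n : ℕ) (w : List Bool) (z : Pt × Pt) : Prop :=
  z ∈ Stn d n ∧ CutA d w z ∧ ∀ y ∈ Stn d n, CutA d w y → dpt d y ≤ dpt d z

lemma ex_deep {d : Pt} {n : ℕ} {w : List Bool} {z : Pt × Pt} (hz : z ∈ Stn d n) (h : CutA d w z) :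
    ∃ y, Deep d n w y ∧ dpt d z ≤ dpt d y := by
  have hf : {y | y ∈ Stn d n ∧ CutA d w y}.Finite := (fin_Stn d n).subset fun _ hy => hy.1
  obtain ⟨y, hy, hm⟩ := Set.exists_max_image _ (dpt d) hf ⟨z, hz, h⟩
  exact ⟨y, ⟨hy.1, hy.2, fun x hx hxc => hm x ⟨hx, hxc⟩⟩, hm z ⟨hz, h⟩⟩

lemma deep_uniq {d : Pt} (hd : d ∈ dirs) {n : ℕ} {w : List Bool} {z y : Pt × Pt} (hz : Deep d n w z)
    (hy : Deep d n w y) : z = y := by
  have h1 := hz.2.2 y hy.1 hy.2.1
  have h2 := hy.2.2 z hz.1 hz.2.1
  rcases state_cases hd hz.2.1 hy.2.1 with h | h | h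
  · omega
  · exact h
  · omega

/-- the deepest state does not see the cap -/
lemma deep_same {d : Pt} (hd : d ∈ dirs) {n : ℕ} {w w' : List Bool} {z : Pt × Pt} (hz : Deep d n w z)
    (h : SameO d z w w') : Deep d n w' z := by
  refine ⟨hz.1, h.right, fun y hy hyc => ?_⟩
  by_contra hcon
  have h1 : dpt d z < dpt d y := by omega
  have h2 : CutA d w y := (cutA_same hd h.symm (dpt_lt h1)).1 hyc
  have := hz.2.2 y hy h2
  omega

/-- the radius of the part above the row of z -/
noncomputable def capR (d : Pt) (w : List Bool) (z : Pt × Pt) : ℕ :=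
  ((Finset.range (w.length + 1)).filter fun i => ip z.1 d ≤ ip (vx oo up w i) d).sup
    fun i => (TIW.hn (vx oo up w i)).toNat

open Classical in
/-- **the radius of the cap of the deepest state** (0 if there is none) -/
noncomputable def cdW (d : Pt) (n : ℕ) (w : List Bool) : ℕ :=
  if h : ∃ z, Deep d n w z then capR d w h.choose else 0

lemma cdW_eq {d : Pt} (hd : d ∈ dirs) {n : ℕ} {w : List Bool} {z : Pt × Pt} (h : Deep d n w z) :
    cdW d n w = capR d w z := by
  have hex : ∃ z, Deep d n w z := ⟨z, h⟩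
  unfold cdW
  rw [dif_pos hex, deep_uniq hd hex.choose_spec h]

lemma le_capR {d : Pt} {w : List Bool} {z : Pt × Pt} {i : ℕ} (hi : i ≤ w.length) (h : ip z.1 d ≤ ip (vx oo up w i) d) :
    TIW.hn (vx oo up w i) ≤ capR d w z := by
  have h1 : (TIW.hn (vx oo up w i)).toNat ≤ capR d w z :=
    Finset.le_sup (f := fun i => (TIW.hn (vx oo up w i)).toNat)
      (Finset.mem_filter.2 ⟨Finset.mem_range.2 (by omega), h⟩)
  have h2 := Int.self_le_toNat (TIW.hn (vx oo up w i))
  have h3 : (((TIW.hn (vx oo up w i)).toNat : ℕ) : ℤ) ≤ capR d w z := by exact_mod_cast h1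
  omega

lemma capR_le {d : Pt} {w : List Bool} {z : Pt × Pt} {r : ℕ}
    (h : ∀ i, i ≤ w.length → ip z.1 d ≤ ip (vx oo up w i) d → TIW.hn (vx oo up w i) ≤ r) : capR d w z ≤ r := by
  refine Finset.sup_le fun i hi => ?_
  rw [Finset.mem_filter, Finset.mem_range] at hi
  have := h i (by omega) hi.2
  omega

/-- a large cap: a vertex above the row of the deepest state, far from the top -/
lemma lt_cdW {d : Pt} (hd : d ∈ dirs) {n r : ℕ} {w : List Bool} (h : r < cdW d n w) :
    ∃ z i, Deep d n w z ∧ i ≤ w.length ∧ ip z.1 d ≤ ip (vx oo up w i) d ∧ (r : ℤ) < TIW.hn (vx oo up w i) := by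
  classical
  by_cases hex : ∃ z, Deep d n w z
  · obtain ⟨z, hz⟩ := hex
    rw [cdW_eq hd hz] at h
    by_contra hcon
    push Not at hcon
    have := capR_le (r := r) fun i hi hl => hcon z i hz hi hl
    omega
  · unfold cdW at h
    rw [dif_neg hex] at h
    omega

/-- the vertices of the arms are above the row -/
lemma arm_lev {d : Pt} {z : Pt × Pt} {R O S : List Bool} (hC : Cap d z R S) (hO : Out d z O) {i : ℕ}
    (hi : i ≤ (R ++ (O ++ S)).length) (h : i ≤ R.length ∨ R.length + O.length < i) :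
    ip z.1 d ≤ ip (vx oo up (R ++ (O ++ S)) i) d := by
  obtain ⟨e1, e2, e3, -⟩ := dec_vx (S := S) hC.enR hC.hdR hO.en hO.hd
  have hlen : (R ++ (O ++ S)).length = R.length + O.length + S.length := by
    rw [List.length_append, List.length_append, Nat.add_assoc]
  rcases h with h | h
  · rw [e1 i h]
    exact hC.loR i h
  · have h1 := hC.loS (i - (R.length + O.length)) (by omega) (by omega)
    rwa [← e3, show R.length + O.length + (i - (R.length + O.length)) = i by omega] at h1

/-- **the normal form** -/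
theorem simW_norm {d : Pt} (hd : d ∈ dirs) {n : ℕ} {w w' : List Bool} (h : SimW d n w w') (hne : w ≠ w') :
    ∃ z, Deep d n w z ∧ Deep d n w' z ∧ ∃ R O S R' S', w = R ++ (O ++ S) ∧ w' = R' ++ (O ++ S') ∧ Cap d z R S ∧
      Cap d z R' S' ∧ Out d z O ∧
      (∀ i, i ≤ w.length → (i ≤ R.length ∨ R.length + O.length < i) → TIW.hn (vx oo up w i) ≤ cdW d n w) ∧
      (∀ i, i ≤ w'.length → (i ≤ R'.length ∨ R'.length + O.length < i) → TIW.hn (vx oo up w' i) ≤ cdW d n w') := by
  rcases h with h | ⟨y, hy, h⟩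
  · exact absurd h hne
  obtain ⟨z, hz, hyz⟩ := ex_deep hy h.left
  have hS : SameO d z w w' := by
    rcases state_cases hd h.left hz.2.1 with h1 | h1 | h1
    · exact same_deeper hd h hz.2.1 (dpt_lt h1)
    · rw [← h1]
      exact h
    · omega
  have hz' := deep_same hd hz hS
  obtain ⟨R, O, S, R', S', rfl, rfl, hC, hC', hO⟩ := hS
  refine ⟨z, hz, hz', R, O, S, R', S', rfl, rfl, hC, hC', hO, fun i hi hii => ?_, fun i hi hii => ?_⟩
  · rw [cdW_eq hd hz]
    exact le_capR hi (arm_lev hC hO hi hii)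
  · rw [cdW_eq hd hz']
    exact le_capR hi (arm_lev hC' hO hi hii)

/-- the vertices of the part below are at the same places -/
lemma same_O {d : Pt} {z : Pt × Pt} {R O S R' S' : List Bool} (hC : Cap d z R S) (hC' : Cap d z R' S') (hO : Out d z O)
    {i : ℕ} (hi : i ≤ O.length) :
    vx oo up (R ++ (O ++ S)) (R.length + i) = vx oo up (R' ++ (O ++ S')) (R'.length + i) := by
  obtain ⟨-, e2, -, -⟩ := dec_vx (S := S) hC.enR hC.hdR hO.en hO.hd
  obtain ⟨-, f2, -, -⟩ := dec_vx (S := S') hC'.enR hC'.hdR hO.en hO.hd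
  rw [e2 i hi, f2 i hi]

/-- the edges of the part below are the same (with the two edges which cross the row) -/
lemma same_Od {d : Pt} {z : Pt × Pt} {R O S R' S' : List Bool} (hC : Cap d z R S) (hC' : Cap d z R' S') (hO : Out d z O)
    {i : ℕ} (hi : i ≤ O.length) :
    dx up (R ++ (O ++ S)) (R.length + i) = dx up (R' ++ (O ++ S')) (R'.length + i) := by
  rw [dx_apR, dx_apR, hC.hdR, hC'.hdR, dx_apL _ _ hi, dx_apL _ _ hi]

end ART

end HexObs
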