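import Pool.Agent.ROT.LInst

/-!
# ROT, linear response (helper22): the depth of the bottom, and the measure on a window of sizes

* `bot d w` : the depth of the lowest vertex of w; `le_bot_iff`, **`bot_same`** (it depends only on the part below any double
  cut row), `dpt_lt_bot`;
* `gw d a b` : the indicator of `a ≤ bot d w ≤ b`; `gw_out` : `OutA`; `wm_gw`, `real_univ`, **`int_ind`** : masses as `gf`.
-/

set_option autoImplicit false

open MeasureTheory

open scoped ENNReal

namespace HexObs

namespace ART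

open Pool.Agent.ROT

/-- depth of the lowest vertex -/
def bot (d : Pt) (w : List Bool) : ℕ := (Finset.range (w.length + 1)).sup fun s => (-(ip (vx oo up w s) d)).toNat

lemma le_bot {d : Pt} {w : List Bool} {s : ℕ} (hs : s ≤ w.length) : (-(ip (vx oo up w s) d)).toNat ≤ bot d w :=
  Finset.le_sup (f := fun s => (-(ip (vx oo up w s) d)).toNat) (Finset.mem_range.2 (by omega))

lemma neg_le_bot {d : Pt} {w : List Bool} {s : ℕ} (hs : s ≤ w.length) : -(ip (vx oo up w s) d) ≤ bot d w := by
  have h := le_bot (d := d) hs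
  have h2 := Int.self_le_toNat (-(ip (vx oo up w s) d))
  have h3 : (((-(ip (vx oo up w s) d)).toNat : ℕ) : ℤ) ≤ bot d w := by exact_mod_cast h
  omega

lemma bot_le_iff {d : Pt} {w : List Bool} {h : ℕ} : bot d w ≤ h ↔ ∀ s, s ≤ w.length → -(ip (vx oo up w s) d) ≤ h := by
  constructor
  · intro h1 s hs
    have := neg_le_bot (d := d) hs
    have h2 : ((bot d w : ℕ) : ℤ) ≤ h := by exact_mod_cast h1
    omega
  · intro h1
    refine Finset.sup_le fun s hs => ?_
    have := h1 s (by have := Finset.mem_range.1 hs; omega)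
    omega

/-- the height in levels -/
theorem le_bot_iff {d : Pt} {w : List Bool} {h : ℕ} (hh : 1 ≤ h) :
    h ≤ bot d w ↔ ∃ s, s ≤ w.length ∧ (h : ℤ) ≤ -(ip (vx oo up w s) d) := by
  constructor
  · intro h1
    by_contra hcon
    push Not at hcon
    have h2 : bot d w ≤ h - 1 := by
      rw [bot_le_iff]
      intro s hs
      have := hcon s hs
      omega
    omega
  · rintro ⟨s, hs, h1⟩
    have := neg_le_bot (d := d) hs
    omega

lemma bot_attained (d : Pt) (w : List Bool) : ∃ s, s ≤ w.length ∧ bot d w = (-(ip (vx oo up w s) d)).toNat := by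
  obtain ⟨s, hs, h⟩ := Finset.exists_mem_eq_sup (Finset.range (w.length + 1)) ⟨0, Finset.mem_range.2 (by omega)⟩
    fun s => (-(ip (vx oo up w s) d)).toNat
  exact ⟨s, by have := Finset.mem_range.1 hs; omega, h⟩

/-- the bottom is below every double cut row -/
theorem dpt_lt_bot {d : Pt} (hd : d ∈ dirs) {w : List Bool} {z : Pt × Pt} (h : CutA d w z) : dpt d z < bot d w := by
  obtain ⟨R, O, S, rfl, hC, hO⟩ := h
  obtain ⟨e1, e2, e3, -⟩ := dec_vx (S := S) hC.enR hC.hdR hO.en hO.hd
  have hp := hO.pos hd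
  have h1 := hO.lo 1 le_rfl hp
  rw [← e2 1 hp] at h1
  have h2 : R.length + 1 ≤ (R ++ (O ++ S)).length := by
    rw [List.length_append, List.length_append]
    omega
  have h3 := neg_le_bot (d := d) h2
  have h4 := hC.le0
  unfold dpt
  omega

/-- bottom of the part below a double cut row -/
lemma bot_out {d : Pt} (hd : d ∈ dirs) {z : Pt × Pt} {R O S : List Bool} (hC : Cap d z R S) (hO : Out d z O) {h : ℕ} :
    bot d (R ++ (O ++ S)) ≤ h ↔ ∀ i, 1 ≤ i → i ≤ O.length → -(ip (vx z.1 (-d) O i) d) ≤ h := by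
  obtain ⟨e1, e2, e3, -⟩ := dec_vx (S := S) hC.enR hC.hdR hO.en hO.hd
  have hp := hO.pos hd
  have hlen : (R ++ (O ++ S)).length = R.length + O.length + S.length := by
    rw [List.length_append, List.length_append, Nat.add_assoc]
  rw [bot_le_iff]
  constructor
  · intro h1 i hi1 hi
    have := h1 (R.length + i) (by omega)
    rwa [e2 i hi] at this
  · intro h1 s hs
    rw [hlen] at hs
    have hlow := h1 1 le_rfl hp
    have hlow2 := hO.lo 1 le_rfl hp
    rcases Nat.lt_or_ge R.length s with h2 | h2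
    · rcases Nat.lt_or_ge (R.length + O.length) s with h3 | h3
      · have h4 := hC.loS (s - (R.length + O.length)) (by omega) (by omega)
        rw [← e3, show R.length + O.length + (s - (R.length + O.length)) = s by omega] at h4
        omega
      · have h4 := h1 (s - R.length) (by omega) (by omega)
        rw [← e2 _ (by omega), show R.length + (s - R.length) = s by omega] at h4
        exact h4
    · have h4 := hC.loR s h2
      rw [← e1 s h2] at h4
      omega

/-- **the bottom does not see the cap** -/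
theorem bot_same {d : Pt} (hd : d ∈ dirs) {z : Pt × Pt} {w w' : List Bool} (h : SameO d z w w') : bot d w = bot d w' := by
  obtain ⟨R, O, S, R', S', rfl, rfl, hC, hC', hO⟩ := h
  apply le_antisymm
  · rw [bot_out hd hC hO]
    exact (bot_out hd hC' hO).1 le_rfl
  · rw [bot_out hd hC' hO]
    exact (bot_out hd hC hO).1 le_rfl

/-! ### the window of sizes -/

open Classical in
/-- the indicator of the window `[a, b]` of the depth of the bottom -/
noncomputable def gw (d : Pt) (a b : ℕ) (w : List Bool) : ℝ≥0∞ := if a ≤ bot d w ∧ bot d w ≤ b then 1 else 0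

lemma gw_out {d : Pt} (hd : d ∈ dirs) (A : Set (Pt × Pt)) (a b : ℕ) : OutA d A (gw d a b) := by
  intro z _ w w' h
  unfold gw
  rw [bot_same hd h]

/-- the closed words rooted at their top with `a ≤ bot ≤ b` -/
def WTw (d : Pt) (a b : ℕ) : Set (List Bool) := {w | w ∈ WT d ∧ a ≤ bot d w ∧ bot d w ≤ b}

open Classical in
lemma wm_gw (d : Pt) (a b : ℕ) (w : List Bool) : wm d (gw d a b) w = if w ∈ WTw d a b then wE w else 0 := by
  unfold wm gw WTw
  by_cases h1 : w ∈ WT d
  · by_cases h2 : a ≤ bot d w ∧ bot d w ≤ b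
    · rw [if_pos h1, if_pos h2, if_pos ⟨h1, h2⟩, mul_one]
    · rw [if_pos h1, if_neg h2, if_neg fun h => h2 h.2, mul_zero]
  · rw [if_neg h1, if_neg fun h => h1 h.1]

/-- the total mass -/
lemma tsum_wm (d : Pt) (a b : ℕ) : ∑' w, wm d (gw d a b) w = gf (WTw d a b) := by
  classical
  simp only [wm_gw]
  exact (gf_ind _).symm

lemma real_univ (d : Pt) (a b : ℕ) : (muT d (gw d a b)).real Set.univ = (gf (WTw d a b)).toReal := by
  unfold Measure.real
  rw [muT_univ, tsum_wm]

/-- **masses of events** -/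
theorem int_ind {d : Pt} {a b : ℕ} (hf : gf (WTw d a b) ≠ ⊤) (P : List Bool → Prop) :
    ∫ w, LM.ind (P w) ∂(muT d (gw d a b)) = (gf {w | w ∈ WTw d a b ∧ P w}).toReal := by
  classical
  have hf' : ∑' w, wm d (gw d a b) w ≠ ⊤ := by rw [tsum_wm]; exact hf
  rw [int_muT hf' (LM.Bd.ind _), gf_ind, ENNReal.tsum_toReal_eq]
  · refine tsum_congr fun w => ?_
    rw [wm_gw]
    by_cases h1 : w ∈ WTw d a b
    · by_cases h2 : P w
      · rw [if_pos h1, LM.ind_t h2, mul_one, if_pos ⟨h1, h2⟩]
      · rw [if_pos h1, LM.ind_f h2, mul_zero, if_neg fun h => h2 h.2, ENNReal.toReal_zero]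
    · rw [if_neg h1, ENNReal.toReal_zero, zero_mul, if_neg fun h => h1 h.1, ENNReal.toReal_zero]
  · intro w
    split_ifs
    · unfold wE
      exact ENNReal.ofReal_ne_top
    · exact ENNReal.zero_ne_top

/-- **integrals as sums over the window** -/
theorem int_win {d : Pt} {a b : ℕ} (hf : gf (WTw d a b) ≠ ⊤) {f : List Bool → ℝ} (h : LM.Bd f) :
    ∫ w, f w ∂(muT d (gw d a b)) = ∑' w : WTw d a b, xc ^ (w : List Bool).length * f w := by
  classical
  have hf' : ∑' w, wm d (gw d a b) w ≠ ⊤ := by rw [tsum_wm]; exact hf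
  rw [int_muT hf' h]
  have e : ∀ w, (wm d (gw d a b) w).toReal * f w =
      (WTw d a b).indicator (fun w => xc ^ w.length * f w) w := by
    intro w
    rw [wm_gw]
    by_cases h1 : w ∈ WTw d a b
    · rw [if_pos h1, Set.indicator_of_mem h1]
      unfold wE
      rw [ENNReal.toReal_ofReal (by have := xc_pos; positivity)]
    · rw [if_neg h1, Set.indicator_of_notMem h1, ENNReal.toReal_zero, zero_mul]
  rw [tsum_congr e]
  exact (tsum_subtype (WTw d a b) fun w => xc ^ w.length * f w).symm

/-- finite windows of states -/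
lemma fin_states (n : ℕ) : {z : Pt × Pt | TIW.hn z.1 ≤ n ∧ TIW.hn z.2 ≤ n}.Finite := by
  have h1 : {p : Pt | TIW.hn p ≤ n}.Finite := by
    have h2 : Set.InjOn (fun p : Pt => (ip p up, ip p (rotL up))) {p : Pt | TIW.hn p ≤ n} := by
      intro p _ q _ h
      simp only [Prod.mk.injEq] at h
      obtain ⟨e1, e2⟩ := h
      obtain ⟨a, b⟩ := p
      obtain ⟨a', b'⟩ := q
      simp only [ip, up, rotL] at e1 e2
      apply Prod.ext <;> simp only <;> omega
    refine Set.Finite.of_finite_image ((Set.finite_Icc (-(n : ℤ), -(n : ℤ)) ((n : ℤ), (n : ℤ))).subset ?_) h2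
    rintro _ ⟨p, hp, rfl⟩
    have a1 : |ip p up| ≤ TIW.hn p := le_max_left _ _
    have a2 : |ip p (rotL up)| ≤ TIW.hn p := (le_max_left _ _).trans (le_max_right _ _)
    have hp' : TIW.hn p ≤ n := hp
    have b1 := abs_le.1 (a1.trans hp')
    have b2 := abs_le.1 (a2.trans hp')
    exact ⟨⟨b1.1, b2.1⟩, ⟨b1.2, b2.2⟩⟩
  exact (h1.prod h1).subset fun z hz => ⟨hz.1, hz.2⟩

end ART

end HexObs
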