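import Pool.Agent.GLow.Alpha

/-!
# ROT, Ce: the sums of the squares of the bridge weights (helper80)

* `uuq_up`, `uuq_low` : `uu n ^ 2` is `n ^ (-1/2)` up to constants; `nuuq_up`, `nuuq_low` : `n * uu n ^ 2` is `√n`;
* `sum_uuq` : `∑ k ≤ n, uu k ^ 2 ≤ C * (n * uu n ^ 2)`; `sum_uuq_sqrt` : `≤ C * √n` (all `n ≥ 1`);
* `Icc_uuq` : `∑ k ∈ Icc a b, uu k ^ 2 ≥ (b + 1 - a) * uu b ^ 2`; `Icc_uuq_sqrt`: `≥ c √b` when `2 a ≤ b + 1`;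
* `uu_comp` : `uu m ≤ C * uu n` for `n ≤ K * m`.
-/

set_option autoImplicit false

namespace HexObs

namespace SumUU

open Finset

/-- `∑ 1 ≤ k ≤ n, 1 / √k ≤ 2 √n` -/
theorem sum_inv_sqrt (n : ℕ) : ∑ k ∈ range n, 1 / √((k : ℝ) + 1) ≤ 2 * √(n : ℝ) := by
  induction n with
  | zero => simp
  | succ n ih =>
    rw [sum_range_succ]
    have h0 : (0 : ℝ) ≤ n := Nat.cast_nonneg n
    have h1 : 0 < √((n : ℝ) + 1) := Real.sqrt_pos.2 (by linarith)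
    have h2 : 0 ≤ √(n : ℝ) := Real.sqrt_nonneg _
    have h3 : √(n : ℝ) ≤ √((n : ℝ) + 1) := Real.sqrt_le_sqrt (by linarith)
    have h4 : √((n : ℝ) + 1) * √((n : ℝ) + 1) = n + 1 := Real.mul_self_sqrt (by linarith)
    have h5 : √(n : ℝ) * √(n : ℝ) = n := Real.mul_self_sqrt h0
    have h6 : 1 / √((n : ℝ) + 1) ≤ 2 * (√((n : ℝ) + 1) - √(n : ℝ)) := by
      rw [div_le_iff₀ h1]
      nlinarith
    push_cast
    linarith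

private lemma quarter_sq {n : ℕ} (hn : 1 ≤ n) : ((n : ℝ) ^ (-(1 / 4) : ℝ)) ^ 2 = 1 / √(n : ℝ) := by
  have h0 : (0 : ℝ) < n := by exact_mod_cast hn
  have h1 : 1 / √(n : ℝ) = (n : ℝ) ^ (-(1 / 2) : ℝ) := by
    rw [Real.sqrt_eq_rpow, Real.rpow_neg h0.le, inv_eq_one_div]
  rw [h1, ← Real.rpow_natCast, ← Real.rpow_mul h0.le]
  congr 1
  norm_num

theorem uuq_up : ∃ C : ℝ, 0 < C ∧ ∀ n : ℕ, 1 ≤ n → uu n ^ 2 ≤ C / √(n : ℝ) := by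
  obtain ⟨C, hC, h⟩ := GLow.uu_up
  refine ⟨C ^ 2, by positivity, fun n hn => ?_⟩
  calc uu n ^ 2 ≤ (C * (n : ℝ) ^ (-(1 / 4) : ℝ)) ^ 2 := pow_le_pow_left₀ (uu_pos n).le (h n hn) 2
    _ = C ^ 2 / √(n : ℝ) := by rw [mul_pow, quarter_sq hn]; ring

theorem uuq_low : ∃ c : ℝ, 0 < c ∧ ∀ n : ℕ, 1 ≤ n → c / √(n : ℝ) ≤ uu n ^ 2 := by
  obtain ⟨c, hc, h⟩ := GLow.uu_low
  refine ⟨c ^ 2, by positivity, fun n hn => ?_⟩
  calc c ^ 2 / √(n : ℝ) = (c * (n : ℝ) ^ (-(1 / 4) : ℝ)) ^ 2 := by rw [mul_pow, quarter_sq hn]; ring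
    _ ≤ uu n ^ 2 := pow_le_pow_left₀ (by positivity) (h n hn) 2

private lemma div_sqrt' {n : ℕ} (C : ℝ) (hn : 1 ≤ n) : (n : ℝ) * (C / √(n : ℝ)) = C * √(n : ℝ) := by
  have h0 : (0 : ℝ) < n := by exact_mod_cast hn
  have h1 : 0 < √(n : ℝ) := Real.sqrt_pos.2 h0
  have h2 : √(n : ℝ) * √(n : ℝ) = n := Real.mul_self_sqrt h0.le
  calc (n : ℝ) * (C / √(n : ℝ)) = (√(n : ℝ) * √(n : ℝ)) * (C / √(n : ℝ)) := by rw [h2]
    _ = C * √(n : ℝ) * (√(n : ℝ) / √(n : ℝ)) := by ring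
    _ = C * √(n : ℝ) := by rw [div_self h1.ne', mul_one]

theorem nuuq_up : ∃ C : ℝ, 0 < C ∧ ∀ n : ℕ, n * uu n ^ 2 ≤ C * √(n : ℝ) := by
  obtain ⟨C, hC, h⟩ := uuq_up
  refine ⟨C, hC, fun n => ?_⟩
  rcases Nat.eq_zero_or_pos n with rfl | hn
  · simp
  · calc (n : ℝ) * uu n ^ 2 ≤ n * (C / √(n : ℝ)) := mul_le_mul_of_nonneg_left (h n hn) (Nat.cast_nonneg n)
      _ = C * √(n : ℝ) := div_sqrt' C hn

theorem nuuq_low : ∃ c : ℝ, 0 < c ∧ ∀ n : ℕ, c * √(n : ℝ) ≤ n * uu n ^ 2 := by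
  obtain ⟨c, hc, h⟩ := uuq_low
  refine ⟨c, hc, fun n => ?_⟩
  rcases Nat.eq_zero_or_pos n with rfl | hn
  · simp
  · calc c * √(n : ℝ) = n * (c / √(n : ℝ)) := (div_sqrt' c hn).symm
      _ ≤ (n : ℝ) * uu n ^ 2 := mul_le_mul_of_nonneg_left (h n hn) (Nat.cast_nonneg n)

/-- the square root form, upper bound -/
theorem sum_uuq_sqrt : ∃ C : ℝ, 0 < C ∧ ∀ n : ℕ, 1 ≤ n → ∑ k ∈ range (n + 1), uu k ^ 2 ≤ C * √(n : ℝ) := by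
  obtain ⟨C, hC, h⟩ := uuq_up
  refine ⟨1 + 2 * C, by positivity, fun n hn => ?_⟩
  have h0 : (1 : ℝ) ≤ √(n : ℝ) := Real.one_le_sqrt.2 (by exact_mod_cast hn)
  rw [sum_range_succ', uu_zero]
  have h1 : ∑ k ∈ range n, uu (k + 1) ^ 2 ≤ C * (2 * √(n : ℝ)) := by
    calc ∑ k ∈ range n, uu (k + 1) ^ 2 ≤ ∑ k ∈ range n, C * (1 / √((k : ℝ) + 1)) := by
          refine sum_le_sum fun k _ => ?_
          have h2 := h (k + 1) (by omega)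
          push_cast at h2
          rw [mul_one_div]
          exact h2
      _ = C * ∑ k ∈ range n, 1 / √((k : ℝ) + 1) := by rw [mul_sum]
      _ ≤ C * (2 * √(n : ℝ)) := mul_le_mul_of_nonneg_left (sum_inv_sqrt n) hC.le
  nlinarith

/-- **the sum of the squares** -/
theorem sum_uuq : ∃ C : ℝ, 0 < C ∧ ∀ n : ℕ, 1 ≤ n → ∑ k ∈ range (n + 1), uu k ^ 2 ≤ C * (n * uu n ^ 2) := by
  obtain ⟨C, hC, h⟩ := sum_uuq_sqrt
  obtain ⟨c, hc, h'⟩ := nuuq_low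
  refine ⟨C / c, by positivity, fun n hn => (h n hn).trans ?_⟩
  have h1 := h' n
  calc C * √(n : ℝ) = C / c * (c * √(n : ℝ)) := by field_simp
    _ ≤ C / c * (n * uu n ^ 2) := mul_le_mul_of_nonneg_left h1 (by positivity)

/-- lower bound by the last term -/
theorem Icc_uuq (a b : ℕ) : ((b + 1 - a : ℕ) : ℝ) * uu b ^ 2 ≤ ∑ k ∈ Icc a b, uu k ^ 2 := by
  have h : ∑ k ∈ Icc a b, uu b ^ 2 ≤ ∑ k ∈ Icc a b, uu k ^ 2 :=
    sum_le_sum fun k hk => pow_le_pow_left₀ (uu_pos b).le (uu_anti (mem_Icc.1 hk).2) 2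
  rwa [sum_const, Nat.card_Icc, nsmul_eq_mul] at h

/-- lower bound, square root form -/
theorem Icc_uuq_sqrt : ∃ c : ℝ, 0 < c ∧ ∀ a b : ℕ, 1 ≤ b → 2 * a ≤ b + 1 → c * √(b : ℝ) ≤ ∑ k ∈ Icc a b, uu k ^ 2 := by
  obtain ⟨c, hc, h⟩ := nuuq_low
  refine ⟨c / 2, by positivity, fun a b hb hab => le_trans ?_ (Icc_uuq a b)⟩
  have h1 : ((b : ℝ)) / 2 ≤ ((b + 1 - a : ℕ) : ℝ) := by
    rw [Nat.cast_sub (by omega)]
    have : (2 : ℝ) * a ≤ b + 1 := by exact_mod_cast hab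
    push_cast
    linarith
  calc c / 2 * √(b : ℝ) = (c * √(b : ℝ)) / 2 := by ring
    _ ≤ (b * uu b ^ 2) / 2 := by linarith [h b]
    _ = (b : ℝ) / 2 * uu b ^ 2 := by ring
    _ ≤ _ := mul_le_mul_of_nonneg_right h1 (sq_nonneg _)

/-- comparison of the weights at comparable heights -/
theorem uu_comp (K : ℕ) : ∃ C : ℝ, 0 < C ∧ ∀ m n : ℕ, 1 ≤ m → n ≤ K * m → uu m ≤ C * uu n := by
  obtain ⟨C, hC, h⟩ := GLow.uu_up
  obtain ⟨c, hc, h'⟩ := GLow.uu_low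
  refine ⟨max 1 (C / c * ((max K 1 : ℕ) : ℝ) ^ (1 / 4 : ℝ)), lt_max_of_lt_left one_pos, fun m n hm hn => ?_⟩
  have hC1 : (1 : ℝ) ≤ max 1 (C / c * ((max K 1 : ℕ) : ℝ) ^ (1 / 4 : ℝ)) := le_max_left _ _
  rcases le_total n m with hnm | hnm
  · calc uu m ≤ uu n := uu_anti hnm
      _ = 1 * uu n := (one_mul _).symm
      _ ≤ _ := mul_le_mul_of_nonneg_right hC1 (uu_pos n).le
  · have hm0 : (0 : ℝ) < m := by exact_mod_cast hm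
    have hn0 : (0 : ℝ) < n := by exact_mod_cast (lt_of_lt_of_le hm hnm)
    have hK : (0 : ℝ) < ((max K 1 : ℕ) : ℝ) := by
      have : 1 ≤ max K 1 := le_max_right _ _
      exact_mod_cast this
    have h1 : (n : ℝ) ≤ ((max K 1 : ℕ) : ℝ) * m := by
      have h2 : n ≤ max K 1 * m := hn.trans (Nat.mul_le_mul_right m (le_max_left _ _))
      exact_mod_cast h2
    have h3 : (m : ℝ) ^ (-(1 / 4) : ℝ) ≤ ((max K 1 : ℕ) : ℝ) ^ (1 / 4 : ℝ) * (n : ℝ) ^ (-(1 / 4) : ℝ) := by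
      have h4 : (n : ℝ) ^ (1 / 4 : ℝ) ≤ ((max K 1 : ℕ) : ℝ) ^ (1 / 4 : ℝ) * (m : ℝ) ^ (1 / 4 : ℝ) := by
        rw [← Real.mul_rpow hK.le hm0.le]
        exact Real.rpow_le_rpow hn0.le h1 (by norm_num)
      rw [Real.rpow_neg hm0.le, Real.rpow_neg hn0.le]
      have h5 : 0 < (m : ℝ) ^ (1 / 4 : ℝ) := Real.rpow_pos_of_pos hm0 _
      have h6 : 0 < (n : ℝ) ^ (1 / 4 : ℝ) := Real.rpow_pos_of_pos hn0 _
      rw [inv_eq_one_div, inv_eq_one_div, mul_one_div, div_le_div_iff₀ h5 h6, one_mul]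
      exact h4
    calc uu m ≤ C * (m : ℝ) ^ (-(1 / 4) : ℝ) := h m hm
      _ ≤ C * (((max K 1 : ℕ) : ℝ) ^ (1 / 4 : ℝ) * (n : ℝ) ^ (-(1 / 4) : ℝ)) := mul_le_mul_of_nonneg_left h3 hC.le
      _ = C / c * ((max K 1 : ℕ) : ℝ) ^ (1 / 4 : ℝ) * (c * (n : ℝ) ^ (-(1 / 4) : ℝ)) := by field_simp
      _ ≤ C / c * ((max K 1 : ℕ) : ℝ) ^ (1 / 4 : ℝ) * uu n :=
          mul_le_mul_of_nonneg_left (h' n (lt_of_lt_of_le hm hnm)) (by positivity)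
      _ ≤ _ := mul_le_mul_of_nonneg_right (le_max_right _ _) (uu_pos n).le

end SumUU

end HexObs
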