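import Pool.Agent.ROT.A6X
import Pool.Agent.ART.CapW

/-!
# ROT, row A6 (helper22): (CAP) for the sides of `hexP` from the word level `CapD` (91, ART/CapW)
-/

set_option autoImplicit false

namespace Pool.Agent.ROT.A6

open HexObs.ART (WT WTw bot cdW Dic CapD rsum_eq)
open HexObs (gf wE xc)

/-- **(CAP)** -/
theorem cap_X (h : CapD) (u : Fin 4) : (sideX u).CAP := by
  classical
  intro δ K r ε hδ hK hr hε
  have hd : ((1, -1) : HexObs.Pt) ∈ HexObs.dirs := by decide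
  obtain ⟨h0, hh0, H⟩ := h (1, -1) hd (3 * δ) r ε (by positivity) hr hε
  refine ⟨max h0 1, fun N hN => ?_⟩
  have hN0 : h0 ≤ N := (le_max_left _ _).trans hN
  have hN1 : 1 ≤ N := (le_max_right _ _).trans hN
  obtain ⟨F, hF⟩ : ∃ F : List Bool → ℝ, F = fun w =>
      if r * N ≤ (cdW (1, -1) (A.PSys.Side.th N) w : ℝ) then 1 else 0 := ⟨_, rfl⟩
  have e1 : (sideX u).rsum δ K N (fun p => if r * N ≤ ((sideX u).cd (A.PSys.Side.th N) p : ℝ) then 1 else 0) =
      ∑' w : WTw (1, -1) (3 * ⌈δ * N⌉₊ + 1) (3 * ⌊K * N⌋₊ + 1), xc ^ (w : List Bool).length * F w := by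
    refine rsum_eq (dicX u) hδ (hδ.trans hK) hN1 fun p => ?_
    rw [hF]
    rfl
  obtain ⟨x, hx⟩ : ∃ x, x = 3 * ⌈δ * N⌉₊ + 1 := ⟨_, rfl⟩
  obtain ⟨y, hy⟩ : ∃ y, y = 3 * ⌊K * N⌋₊ + 1 := ⟨_, rfl⟩
  rw [e1, ← hx, ← hy]
  obtain ⟨T, hT⟩ : ∃ T : Set (List Bool), T = {w | w ∈ WTw (1, -1) x y ∧ r * N ≤ (cdW (1, -1) (A.PSys.Side.th N) w : ℝ)} :=
    ⟨_, rfl⟩
  have hT' : ∀ w, w ∈ T ↔ w ∈ WTw (1, -1) x y ∧ r * N ≤ (cdW (1, -1) (A.PSys.Side.th N) w : ℝ) := by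
    intro w
    rw [hT]
    exact Iff.rfl
  have e2 : ∑' w : WTw (1, -1) x y, xc ^ (w : List Bool).length * F w = (gf T).toReal := by
    rw [HexObs.gf_ind, ENNReal.tsum_toReal_eq]
    · rw [tsum_subtype (WTw (1, -1) x y) fun w => xc ^ w.length * F w]
      refine tsum_congr fun w => ?_
      by_cases h1 : w ∈ WTw (1, -1) x y
      · rw [Set.indicator_of_mem h1]
        by_cases h2 : r * N ≤ (cdW (1, -1) (A.PSys.Side.th N) w : ℝ)
        · rw [if_pos ((hT' w).2 ⟨h1, h2⟩), hF]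
          simp only [if_pos h2, mul_one]
          unfold wE
          rw [ENNReal.toReal_ofReal (pow_nonneg HexObs.xc_pos.le _)]
        · rw [if_neg fun h => h2 ((hT' w).1 h).2, hF, ENNReal.toReal_zero]
          simp only [if_neg h2, mul_zero]
      · rw [Set.indicator_of_notMem h1, if_neg fun h => h1 ((hT' w).1 h).1, ENNReal.toReal_zero]
    · intro w
      split_ifs
      · unfold wE
        exact ENNReal.ofReal_ne_top
      · exact ENNReal.zero_ne_top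
  rw [e2]
  refine ENNReal.toReal_le_of_le_ofReal (by positivity) (le_trans (HexObs.gf_mono ?_) (H N hN0))
  intro w hw
  obtain ⟨h1, h2⟩ := (hT' w).1 hw
  refine ⟨h1.1, ?_, h2⟩
  have h3 : (x : ℝ) ≤ bot (1, -1) w := by exact_mod_cast h1.2.1
  have h4 := Nat.le_ceil (δ * N)
  rw [hx] at h3
  push_cast at h3
  linarith

end Pool.Agent.ROT.A6
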