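import Pool.Agent.ROT.Group2

/-!
# ROT: one parameter groups in a bounded group (helper58)

If the flow `exp (τ B)` of a real linear map `B ≠ 0` stays in a bounded group which contains the
rotation of order six, then `B` is the multiplication by a purely imaginary number and the group
contains all rotations.
-/

open Complex Set Filter Topology
open scoped ComplexConjugate

namespace Pool.Agent.ROT

noncomputable section

/-- real linear maps of the plane -/
abbrev LB := ℂ →L[ℝ] ℂ

theorem expB_add (B : LB) (σ τ : ℝ) : NormedSpace.exp ((σ + τ) • B) =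
    (NormedSpace.exp (σ • B) * NormedSpace.exp (τ • B) : LB) := by
  let +nondep : NormedAlgebra ℚ LB := .restrictScalars ℚ ℝ LB
  have h : (σ + τ) • B = σ • B + τ • B := ContinuousLinearMap.ext fun z => add_smul σ τ (B z)
  rw [h]
  have hc : Commute (σ • B) (τ • B) := by
    apply ContinuousLinearMap.ext
    intro z
    change σ • B (τ • B z) = τ • B (σ • B z)
    rw [map_smul, map_smul, smul_comm]
  exact NormedSpace.exp_add_of_commute hc

theorem expB_zero (B : LB) : NormedSpace.exp ((0 : ℝ) • B) = (1 : LB) := by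
  have h : (0 : ℝ) • B = 0 := ContinuousLinearMap.ext fun z => zero_smul ℝ (B z)
  rw [h, NormedSpace.exp_zero]

theorem expB_cont : Continuous (NormedSpace.exp : LB → LB) := by
  let +nondep : NormedAlgebra ℚ LB := .restrictScalars ℚ ℝ LB
  exact NormedSpace.exp_continuous

/-- `exp (τ B)` -/
def flow (B : LB) (τ : ℝ) : LG :=
  ContinuousLinearEquiv.equivOfInverse (NormedSpace.exp (τ • B)) (NormedSpace.exp ((-τ) • B))
    (fun z => by
      have h : NormedSpace.exp ((-τ) • B) * NormedSpace.exp (τ • B) = (1 : LB) := by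
        rw [← expB_add, neg_add_cancel, expB_zero]
      have := congrArg (fun f : LB => f z) h
      simpa using this)
    (fun z => by
      have h : NormedSpace.exp (τ • B) * NormedSpace.exp ((-τ) • B) = (1 : LB) := by
        rw [← expB_add, add_neg_cancel, expB_zero]
      have := congrArg (fun f : LB => f z) h
      simpa using this)

theorem flow_apply (B : LB) (τ : ℝ) (z : ℂ) : flow B τ z = NormedSpace.exp (τ • B) z := rfl

theorem flow_coe (B : LB) (τ : ℝ) : ((flow B τ : LG) : LB) = NormedSpace.exp (τ • B) := by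
  rfl

theorem LG_ext {g h : LG} (H : ∀ z, g z = h z) : g = h := ContinuousLinearEquiv.ext (funext H)

theorem flow_add (B : LB) (σ τ : ℝ) : flow B (σ + τ) = flow B σ * flow B τ := by
  apply LG_ext
  intro z
  change NormedSpace.exp ((σ + τ) • B) z = NormedSpace.exp (σ • B) (NormedSpace.exp (τ • B) z)
  rw [expB_add]; rfl

theorem flow_zero (B : LB) : flow B 0 = 1 := by
  apply LG_ext
  intro z
  change NormedSpace.exp ((0 : ℝ) • B) z = z
  rw [expB_zero]; rfl

/-- joint continuity of the flow -/
theorem continuous_flow (z : ℂ) : Continuous fun p : LB × ℝ => flow p.1 p.2 z := by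
  change Continuous fun p : LB × ℝ => NormedSpace.exp (p.2 • p.1) z
  have h1 : Continuous fun p : LB × ℝ => NormedSpace.exp (p.2 • p.1) :=
    expB_cont.comp (continuous_snd.smul continuous_fst)
  exact h1.clm_apply continuous_const

theorem continuous_flow_right (B : LB) (z : ℂ) : Continuous fun τ : ℝ => flow B τ z :=
  (continuous_flow z).comp (continuous_const.prodMk continuous_id)

/-- derivative of the flow -/
theorem hasDerivAt_flow (B : LB) (z : ℂ) : HasDerivAt (fun τ : ℝ => flow B τ z) (B z) 0 := by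
  have h := hasDerivAt_exp_smul_const (𝕂 := ℝ) B (0 : ℝ)
  rw [expB_zero] at h
  have h2 := h.clm_apply (hasDerivAt_const (0 : ℝ) z)
  simpa [flow_apply] using h2

/-- a one parameter group in `G` consists of rotations -/
theorem flow_rot (G : Subgroup LG) (hR : R6 ∈ G) (hB : ∃ C : ℝ, ∀ g ∈ G, nn g ≤ C)
    (g : ℝ → LG) (hg : ∀ τ, g τ ∈ G) (hadd : ∀ σ τ, g (σ + τ) = g σ * g τ) (τ : ℝ) :
    normSq (P (g τ)) = 1 ∧ Q (g τ) = 0 := by
  rcases orth_of_bdd G hR hB (hg τ) with h | ⟨h1, h2⟩
  · exact h
  · exfalso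
    have h3 : dt (g τ) = dt (g (τ / 2)) * dt (g (τ / 2)) := by
      rw [← dt_mul, ← hadd]; congr 2; ring
    rw [dt, h1, h2] at h3
    have := mul_self_nonneg (dt (g (τ / 2)))
    rw [← h3] at this
    norm_num at this

/-- **a non trivial continuous one parameter group gives all rotations** -/
theorem all_rot_group (G : Subgroup LG) (hR : R6 ∈ G) (hB : ∃ C : ℝ, ∀ g ∈ G, nn g ≤ C)
    (g : ℝ → LG) (hg : ∀ τ, g τ ∈ G) (hadd : ∀ σ τ, g (σ + τ) = g σ * g τ)
    (h1 : Continuous fun τ => g τ 1) (hI : Continuous fun τ => g τ I) (hne : ∃ τ, g τ ≠ 1)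
    (t : ℝ) : rot (exp (t * I)) (exp_ne_zero _) ∈ G := by
  have hrot := flow_rot G hR hB g hg hadd
  have h0 : g 0 = 1 := by
    have := hadd 0 0
    rw [add_zero] at this
    exact (mul_eq_left.1 this.symm)
  obtain ⟨τ, hτ⟩ := hne
  have hPc : Continuous fun τ => P (g τ) := by
    unfold P
    exact (h1.sub (continuous_const.mul hI)).div_const _
  have hP0 : P (g 0) = 1 := by rw [h0, P_one]
  have hPτ : P (g τ) ≠ 1 := by
    intro h
    exact hτ (ext_PQ (by rw [h, P_one]) (by rw [(hrot τ).2, Q_one]))
  have key : ∀ x y s : ℝ, exp (s * I) = P (g x) * conj (P (g y)) → s ∈ ang G := by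
    intro x y s hs
    rw [mem_ang]
    have e : rot (exp (s * I)) (exp_ne_zero _) = g (x - y) := by
      apply ext_PQ
      · rw [P_rot, hs]
        have h3 : P (g x) = P (g (x - y)) * P (g y) := by
          have := congrArg P (hadd (x - y) y)
          rw [sub_add_cancel, P_mul, (hrot (x - y)).2, zero_mul, add_zero] at this
          exact this
        rw [h3, mul_assoc, mul_conj, (hrot y).1]; simp
      · rw [Q_rot, (hrot (x - y)).2]
    rw [e]; exact hg _
  rcases le_total 0 τ with hτ0 | hτ0
  · refine mem_ang.1 (all_of_path (ang G) 0 τ hτ0 (fun x => P (g x)) hPc.continuousOn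
      (fun x _ => (hrot x).1) (fun x _ y _ s hs => key x y s hs) ?_ t)
    simp only [hP0]; exact hPτ.symm
  · refine mem_ang.1 (all_of_path (ang G) τ 0 hτ0 (fun x => P (g x)) hPc.continuousOn
      (fun x _ => (hrot x).1) (fun x _ y _ s hs => key x y s hs) ?_ t)
    simp only [hP0]; exact hPτ

/-- the generator of a flow in `G` is the multiplication by `b I` -/
theorem so2_of_flow (G : Subgroup LG) (hR : R6 ∈ G) (hB : ∃ C : ℝ, ∀ g ∈ G, nn g ≤ C)
    (B : LB) (hg : ∀ τ, flow B τ ∈ G) : ∃ b : ℝ, ∀ z, B z = b * I * z := by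
  have hrot := flow_rot G hR hB (flow B) hg (flow_add B)
  have hlin : ∀ τ z, flow B τ z = P (flow B τ) * z := by
    intro τ z
    rw [apply_eq, (hrot τ).2]; ring
  -- derivative of `P (flow B τ) = flow B τ 1` at `0`
  have hB1 : HasDerivAt (fun τ : ℝ => P (flow B τ)) (B 1) 0 := by
    have h := hasDerivAt_flow B 1
    have e : (fun τ : ℝ => flow B τ 1) = fun τ : ℝ => P (flow B τ) := by
      funext τ; rw [hlin]; ring
    rwa [e] at h
  have hBz : ∀ z, B z = B 1 * z := by
    intro z
    have h := hasDerivAt_flow B z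
    have e : (fun τ : ℝ => flow B τ z) = fun τ : ℝ => P (flow B τ) * z := by
      funext τ; rw [hlin]
    rw [e] at h
    exact h.unique (hB1.mul_const z)
  -- real part zero: `normSq` is constant
  have hre : (B 1).re = 0 := by
    have hc : (fun τ : ℝ => P (flow B τ) * conj (P (flow B τ))) = fun _ => 1 := by
      funext τ; rw [mul_conj, (hrot τ).1]; simp
    have h2 : HasDerivAt (fun τ : ℝ => conj (P (flow B τ))) (conj (B 1)) 0 := hB1.star
    have h3 := hB1.mul h2
    have e0 : P (flow B 0) = 1 := by rw [flow_zero, P_one]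
    have h4 : HasDerivAt (fun τ : ℝ => P (flow B τ) * conj (P (flow B τ)))
        (B 1 * conj (P (flow B 0)) + P (flow B 0) * conj (B 1)) 0 := h3
    rw [hc, e0] at h4
    have h5 := h4.unique (hasDerivAt_const (0 : ℝ) (1 : ℂ))
    have h6 := congrArg re h5
    simp at h6
    linarith
  refine ⟨(B 1).im, fun z => ?_⟩
  rw [hBz z]
  congr 1
  conv_lhs => rw [← re_add_im (B 1)]
  rw [hre]; simp

/-- **the flow of `B ≠ 0` in a bounded group with the rotation of order six gives all
rotations** -/
theorem all_rot_flow (G : Subgroup LG) (hR : R6 ∈ G) (hB : ∃ C : ℝ, ∀ g ∈ G, nn g ≤ C)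
    (B : LB) (hB0 : B ≠ 0) (hg : ∀ τ, flow B τ ∈ G) (t : ℝ) :
    rot (exp (t * I)) (exp_ne_zero _) ∈ G := by
  refine all_rot_group G hR hB (flow B) hg (flow_add B) (continuous_flow_right B 1)
    (continuous_flow_right B I) ?_ t
  by_contra hc
  push Not at hc
  apply hB0
  apply ContinuousLinearMap.ext
  intro z
  have h := hasDerivAt_flow B z
  have e : (fun τ : ℝ => flow B τ z) = fun _ => z := by
    funext τ; rw [hc τ]; rfl
  rw [e] at h
  rw [h.unique (hasDerivAt_const (0 : ℝ) z)]; rfl

end

end Pool.Agent.ROT
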