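import Pool.Agent.ROT.Par

/-!
# ROT: the near self touch lemma for perturbed grids (helper11)

`par2`: a closed lazy path `v` of `n` steps, a rectangle with `v 0` inside and `v k` outside, its boundary
cut into segments of length `D`; at every grid point `y` of the boundary a corner `p` at distance `≤ E`; if
`sg` is equal at the points `p` of neighbouring grid points then some step before `k` and some step
after `k` come both within `D + E + 1` of one grid point of the boundary.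
-/

set_option autoImplicit false

namespace Pool.Agent.ROT.Par

open Finset

/-- the step goes through the vertical side of the line `p` at a height in `[y1, y2)` -/
def vc (p y1 y2 : ℤ) (u u' : Pt) : ZMod 2 := if u ≠ u' ∧ (sd u u').1 = false ∧ (sd u u').2.1 = p ∧
  y1 ≤ (sd u u').2.2 ∧ (sd u u').2.2 < y2 then 1 else 0

/-- the step goes through the horizontal side at the height `y`, line in `[x1, x2)` -/
def hc (y x1 x2 : ℤ) (u u' : Pt) : ZMod 2 := if u ≠ u' ∧ (sd u u').1 = true ∧ x1 ≤ (sd u u').2.1 ∧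
  (sd u u').2.1 < x2 ∧ (sd u u').2.2 = y then 1 else 0

/-- the chain of the path from the corner `a` to the corner `b`: first vertical, then horizontal -/
def Lc (a b : Pt) (u u' : Pt) : ZMod 2 :=
  vc a.1 (min a.2 b.2) (max a.2 b.2) u u' + hc b.2 (min a.1 b.1) (max a.1 b.1) u u'

theorem Lc_sum {n : ℕ} {v : ℕ → Pt} (h : Clo n v) (a b : Pt) :
    ∑ i ∈ range n, Lc a b (v i) (v (i + 1)) = sg n v a.1 a.2 + sg n v b.1 b.2 := by
  have e1 : ∑ i ∈ range n, vc a.1 (min a.2 b.2) (max a.2 b.2) (v i) (v (i + 1)) =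
      sg n v a.1 a.2 + sg n v a.1 b.2 := by
    have := seg_v (n := n) (v := v) (p := a.1) (y1 := min a.2 b.2) (y2 := max a.2 b.2) min_le_max
    simp only [vc]
    rw [this]
    rcases le_total a.2 b.2 with l | l
    · rw [min_eq_left l, max_eq_right l]
    · rw [min_eq_right l, max_eq_left l, add_comm]
  have e2 : ∑ i ∈ range n, hc b.2 (min a.1 b.1) (max a.1 b.1) (v i) (v (i + 1)) =
      sg n v a.1 b.2 + sg n v b.1 b.2 := by
    simp only [hc]
    rcases lt_trichotomy a.1 b.1 with l | l | l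
    · rw [min_eq_left l.le, max_eq_right l.le]
      exact (sg_row h l).symm
    · rw [l, min_self, max_self, add_self2]
      refine sum_eq_zero fun i _ => if_neg ?_
      rintro ⟨-, -, h1, h2, -⟩
      omega
    · rw [min_eq_right l.le, max_eq_left l.le, add_comm]
      exact (sg_row h l).symm
  simp only [Lc, sum_add_distrib]
  rw [e1, e2]
  linear_combination add_self2 (sg n v a.1 b.2)

theorem sd_near {u u' : Pt} (h : Stp u u') (ne : u ≠ u') :
    (sd u u').2.1 - 1 ≤ u.1 ∧ u.1 ≤ (sd u u').2.1 ∧ (sd u u').2.2 - 1 ≤ u.2 ∧ u.2 ≤ (sd u u').2.2 := by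
  rcases stp_cases h ne with ⟨p, q, e, ⟨ha, hb⟩ | ⟨ha, hb⟩⟩ | ⟨p, q, e, ⟨ha, hb⟩ | ⟨ha, hb⟩⟩ <;>
  · rw [e, ha]
    simp only
    omega

theorem vc_near {p y1 y2 : ℤ} {u u' : Pt} (h : Stp u u') (c : vc p y1 y2 u u' ≠ 0) :
    p - 1 ≤ u.1 ∧ u.1 ≤ p ∧ y1 - 1 ≤ u.2 ∧ u.2 ≤ y2 := by
  simp only [vc, ne_eq, ite_eq_right_iff, one_ne_zero, imp_false, not_not] at c
  obtain ⟨ne, h1, h2, h3, h4⟩ := c
  have := sd_near h ne
  omega

theorem hc_near {y x1 x2 : ℤ} {u u' : Pt} (h : Stp u u') (c : hc y x1 x2 u u' ≠ 0) :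
    x1 - 1 ≤ u.1 ∧ u.1 ≤ x2 ∧ y - 1 ≤ u.2 ∧ u.2 ≤ y := by
  simp only [hc, ne_eq, ite_eq_right_iff, one_ne_zero, imp_false, not_not] at c
  obtain ⟨ne, h1, h2, h3, h4⟩ := c
  have := sd_near h ne
  omega

/-- sup distance at most `r` -/
def Nr (r : ℤ) (a b : Pt) : Prop := |a.1 - b.1| ≤ r ∧ |a.2 - b.2| ≤ r

theorem Lc_near {a b : Pt} {u u' : Pt} (h : Stp u u') {r : ℤ} (hr : Nr r a b) (c : Lc a b u u' ≠ 0) :
    Nr (r + 1) u a ∧ Nr (r + 1) u b := by
  obtain ⟨r1, r2⟩ := hr
  rw [abs_le] at r1 r2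
  have key : (min a.1 b.1 - 1 ≤ u.1 ∧ u.1 ≤ max a.1 b.1) ∧ (min a.2 b.2 - 1 ≤ u.2 ∧ u.2 ≤ max a.2 b.2) := by
    rw [Lc] at c
    by_cases c1 : vc a.1 (min a.2 b.2) (max a.2 b.2) u u' = 0
    · rw [c1, zero_add] at c
      have := hc_near h c
      have m1 := min_le_right a.2 b.2
      have m2 := le_max_right a.2 b.2
      exact ⟨⟨this.1, this.2.1⟩, by omega, by omega⟩
    · have := vc_near h c1
      have m1 := min_le_left a.1 b.1
      have m2 := le_max_left a.1 b.1
      exact ⟨⟨by omega, by omega⟩, this.2.2.1, this.2.2.2⟩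
  obtain ⟨⟨k1, k2⟩, k3, k4⟩ := key
  have m1 : a.1 - r ≤ min a.1 b.1 ∧ b.1 - r ≤ min a.1 b.1 := ⟨le_min (by omega) (by omega), le_min (by omega) (by omega)⟩
  have m2 : max a.1 b.1 ≤ a.1 + r ∧ max a.1 b.1 ≤ b.1 + r := ⟨max_le (by omega) (by omega), max_le (by omega) (by omega)⟩
  have m3 : a.2 - r ≤ min a.2 b.2 ∧ b.2 - r ≤ min a.2 b.2 := ⟨le_min (by omega) (by omega), le_min (by omega) (by omega)⟩
  have m4 : max a.2 b.2 ≤ a.2 + r ∧ max a.2 b.2 ≤ b.2 + r := ⟨max_le (by omega) (by omega), max_le (by omega) (by omega)⟩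
  simp only [Nr, abs_le]
  omega

/-- the abstract parity argument -/
theorem par0 {n k : ℕ} {v : ℕ → Pt} (hk : k ≤ n) {ι : Type*} (L : Finset ι) (c : ι → Pt → Pt → ZMod 2)
    (A : Set Pt) (ha : ∀ i < n, ind A (v i) + ind A (v (i + 1)) = ∑ l ∈ L, c l (v i) (v (i + 1)))
    (h0 : v 0 ∈ A) (h1 : v k ∉ A) (he : ∀ l ∈ L, ∑ i ∈ range n, c l (v i) (v (i + 1)) = 0) :
    ∃ l ∈ L, ∃ i < k, ∃ j, k ≤ j ∧ j < n ∧ c l (v i) (v (i + 1)) ≠ 0 ∧ c l (v j) (v (j + 1)) ≠ 0 := by
  classical
  have t := tele (fun i => ind A (v i)) k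
  have e0 : ind A (v 0) = 1 := if_pos h0
  have ek : ind A (v k) = 0 := if_neg h1
  simp only [e0, ek, add_zero] at t
  rw [sum_congr rfl fun i hi => ha i (by have := mem_range.1 hi; omega), sum_comm] at t
  obtain ⟨l, hl, hne⟩ := exists_ne_zero_of_sum_ne_zero (by rw [t]; decide)
  have hsp : ∑ i ∈ range k, c l (v i) (v (i + 1)) + ∑ j ∈ Ico k n, c l (v j) (v (j + 1)) = 0 := by
    rw [← he l hl, range_eq_Ico, range_eq_Ico]
    exact sum_Ico_consecutive _ (Nat.zero_le k) hk
  obtain ⟨i, hi, hi'⟩ := exists_ne_zero_of_sum_ne_zero hne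
  have hne2 : ∑ j ∈ Ico k n, c l (v j) (v (j + 1)) ≠ 0 := by
    intro h0'
    rw [h0', add_zero] at hsp
    exact hne hsp
  obtain ⟨j, hj, hj'⟩ := exists_ne_zero_of_sum_ne_zero hne2
  rw [mem_Ico] at hj
  exact ⟨l, hl, i, mem_range.1 hi, j, hj.1, hj.2, hi', hj'⟩

/-- cutting a vertical side into segments -/
theorem vc_cut (p y D : ℤ) (hD : 0 ≤ D) (b : ℕ) (u u' : Pt) :
    ∑ j ∈ range b, vc p (y + j * D) (y + (j + 1 : ℕ) * D) u u' = vc p y (y + b * D) u u' := by
  induction b with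
  | zero => simp only [range_zero, sum_empty, vc]; rw [if_neg]; push_cast; rintro ⟨-, -, -, h1, h2⟩; omega
  | succ b ih =>
    rw [sum_range_succ, ih]
    have h1 : (0 : ℤ) ≤ b * D := by positivity
    have h2 : y + ((b + 1 : ℕ) : ℤ) * D = y + b * D + D := by push_cast; ring
    simp only [vc, h2]
    by_cases hh : u ≠ u' ∧ (sd u u').1 = false
    · obtain ⟨a1, a2⟩ := hh
      simp only [ne_eq] at a1
      simp only [a1, a2, ne_eq, not_false_eq_true, true_and]
      split_ifs <;> first | (exfalso; omega) | decide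
    · rw [if_neg (fun q => hh ⟨q.1, q.2.1⟩), if_neg (fun q => hh ⟨q.1, q.2.1⟩), if_neg (fun q => hh ⟨q.1, q.2.1⟩)]
      rfl

theorem hc_cut (y x D : ℤ) (hD : 0 ≤ D) (a : ℕ) (u u' : Pt) :
    ∑ i ∈ range a, hc y (x + i * D) (x + (i + 1 : ℕ) * D) u u' = hc y x (x + a * D) u u' := by
  induction a with
  | zero => simp only [range_zero, sum_empty, hc]; rw [if_neg]; push_cast; rintro ⟨-, -, h1, h2, -⟩; omega
  | succ b ih =>
    rw [sum_range_succ, ih]
    have h1 : (0 : ℤ) ≤ b * D := by positivity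
    have h2 : x + ((b + 1 : ℕ) : ℤ) * D = x + b * D + D := by push_cast; ring
    simp only [hc, h2]
    by_cases hh : u ≠ u' ∧ (sd u u').1 = true
    · obtain ⟨a1, a2⟩ := hh
      simp only [ne_eq] at a1
      simp only [a1, a2, ne_eq, not_false_eq_true, true_and]
      split_ifs <;> first | (exfalso; omega) | decide
    · rw [if_neg (fun q => hh ⟨q.1, q.2.1⟩), if_neg (fun q => hh ⟨q.1, q.2.1⟩), if_neg (fun q => hh ⟨q.1, q.2.1⟩)]
      rfl

/-- the boundary of a rectangle -/
theorem rect_chain {x x' y y' : ℤ} (hx : x < x') (hy : y < y') {u u' : Pt} (h : Stp u u') :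
    ind (Rc x x' y y') u + ind (Rc x x' y y') u' =
      vc x y y' u u' + vc x' y y' u u' + hc y x x' u u' + hc y' x x' u u' := by
  classical
  have h1 : ind (Rc x x' y y') u + ind (Rc x x' y y') u' = if Cr (Rc x x' y y') u u' then 1 else 0 := by
    simp only [ind, Cr]
    by_cases h1 : u ∈ Rc x x' y y' <;> by_cases h2 : u' ∈ Rc x x' y y' <;> simp [h1, h2, add_self2]
  rw [h1, if_congr (rect_step hx hy h) rfl rfl]
  simp only [vc, hc]
  by_cases ne : u = u'
  · simp [ne]
  · cases (sd u u').1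
    · simp only [ne_eq, ne, not_false_eq_true, true_and, reduceCtorEq, false_and, or_false, if_false, add_zero]
      split_ifs <;> first | (exfalso; omega) | decide
    · simp only [ne_eq, ne, not_false_eq_true, true_and, reduceCtorEq, false_and, false_or, if_false, zero_add]
      split_ifs <;> first | (exfalso; omega) | decide

/-- **THE NEAR SELF TOUCH LEMMA for perturbed grids** -/
theorem par2 {n k : ℕ} {v : ℕ → Pt} (h : Clo n v) (hk : k ≤ n) {D E : ℤ} (hD : 0 < D) {x y : ℤ}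
    {a b : ℕ} (ha : 0 < a) (hb : 0 < b)
    (hin : v 0 ∈ Rc x (x + a * D) y (y + b * D)) (hout : v k ∉ Rc x (x + a * D) y (y + b * D))
    (p : ℕ → ℕ → Pt)
    (hp : ∀ i j : ℕ, i ≤ a → j ≤ b → (i = 0 ∨ i = a ∨ j = 0 ∨ j = b) → Nr E (p i j) (x + i * D, y + j * D))
    (hH : ∀ i j : ℕ, i < a → (j = 0 ∨ j = b) → sg n v (p i j).1 (p i j).2 = sg n v (p (i + 1) j).1 (p (i + 1) j).2)
    (hV : ∀ i j : ℕ, j < b → (i = 0 ∨ i = a) → sg n v (p i j).1 (p i j).2 = sg n v (p i (j + 1)).1 (p i (j + 1)).2) :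
    ∃ i0 j0 : ℕ, i0 ≤ a ∧ j0 ≤ b ∧ (i0 = 0 ∨ i0 = a ∨ j0 = 0 ∨ j0 = b) ∧ ∃ i < k, ∃ j, k ≤ j ∧ j < n ∧
      Nr (D + E + 1) (v i) (x + i0 * D, y + j0 * D) ∧ Nr (D + E + 1) (v j) (x + i0 * D, y + j0 * D) := by
  classical
  have hxa : x < x + a * D := by
    have : 0 < (a : ℤ) * D := by positivity
    omega
  have hyb : y < y + b * D := by
    have : 0 < (b : ℤ) * D := by positivity
    omega
  have hE : 0 ≤ E := le_trans (abs_nonneg _) (hp 0 0 (Nat.zero_le _) (Nat.zero_le _) (Or.inl rfl)).1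
  set sp : ℕ → ℕ → Pt → Pt → ZMod 2 := fun i j => Lc (p i j) (x + i * D, y + j * D) with hsp
  set J : Bool → ℕ := fun e => if e then b else 0 with hJ
  set I : Bool → ℕ := fun e => if e then a else 0 with hI
  have hJ' : ∀ e, J e = 0 ∨ J e = b := by intro e; cases e <;> simp [J]
  have hI' : ∀ e, I e = 0 ∨ I e = a := by intro e; cases e <;> simp [I]
  have hJb : ∀ e, J e ≤ b := by intro e; cases e <;> simp [J]
  have hIa : ∀ e, I e ≤ a := by intro e; cases e <;> simp [I]
  set cH : Bool × ℕ → Pt → Pt → ZMod 2 := fun q u u' => sp q.2 (J q.1) u u' +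
    hc (y + (J q.1 : ℕ) * D) (x + q.2 * D) (x + (q.2 + 1 : ℕ) * D) u u' + sp (q.2 + 1) (J q.1) u u' with hcH
  set cV : Bool × ℕ → Pt → Pt → ZMod 2 := fun q u u' => sp (I q.1) q.2 u u' +
    vc (x + (I q.1 : ℕ) * D) (y + q.2 * D) (y + (q.2 + 1 : ℕ) * D) u u' + sp (I q.1) (q.2 + 1) u u' with hcV
  set L : Finset ((Bool × ℕ) ⊕ (Bool × ℕ)) := ((univ : Finset Bool) ×ˢ range a).disjSum
    ((univ : Finset Bool) ×ˢ range b) with hL
  set c : (Bool × ℕ) ⊕ (Bool × ℕ) → Pt → Pt → ZMod 2 := fun q => Sum.elim cH cV q with hc'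
  have spsum : ∀ i j, ∑ t ∈ range n, sp i j (v t) (v (t + 1)) =
      sg n v (p i j).1 (p i j).2 + sg n v (x + i * D) (y + j * D) := fun i j => Lc_sum h _ _
  have key := par0 hk L c (Rc x (x + a * D) y (y + b * D)) ?_ hin hout ?_
  · obtain ⟨l, hl, i, hi, j, hkj, hj, ci, cj⟩ := key
    -- the location
    have near : ∀ (q : Bool × ℕ), q.2 < a → ∀ t < n, cH q (v t) (v (t + 1)) ≠ 0 →
        Nr (D + E + 1) (v t) (x + (q.2 : ℕ) * D, y + (J q.1 : ℕ) * D) := by
      intro q hq t ht hne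
      have st := h.stp t ht
      by_cases c1 : sp q.2 (J q.1) (v t) (v (t + 1)) = 0
      · by_cases c2 : hc (y + (J q.1 : ℕ) * D) (x + q.2 * D) (x + (q.2 + 1 : ℕ) * D) (v t) (v (t + 1)) = 0
        · have c3 : sp (q.2 + 1) (J q.1) (v t) (v (t + 1)) ≠ 0 := by
            intro c3
            apply hne
            simp only [hcH, c1, c2, c3, add_zero]
          have := (Lc_near st (hp (q.2 + 1) (J q.1) (by omega) (hJb _) (by rcases hJ' q.1 with e | e <;> simp [e])) c3).2
          obtain ⟨g1, g2⟩ := this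
          rw [abs_le] at g1 g2
          simp only [Nr, abs_le]
          push_cast at g1
          constructor <;> constructor <;> linarith [g1.1, g1.2, g2.1, g2.2]
        · have := hc_near st c2
          simp only [Nr, abs_le]
          obtain ⟨g1, g2, g3, g4⟩ := this
          push_cast at g2
          constructor <;> constructor <;> linarith
      · have := (Lc_near st (hp q.2 (J q.1) (by omega) (hJb _) (by rcases hJ' q.1 with e | e <;> simp [e])) c1).2
        obtain ⟨g1, g2⟩ := this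
        rw [abs_le] at g1 g2
        simp only [Nr, abs_le]
        constructor <;> constructor <;> linarith [g1.1, g1.2, g2.1, g2.2]
    have near' : ∀ (q : Bool × ℕ), q.2 < b → ∀ t < n, cV q (v t) (v (t + 1)) ≠ 0 →
        Nr (D + E + 1) (v t) (x + (I q.1 : ℕ) * D, y + (q.2 : ℕ) * D) := by
      intro q hq t ht hne
      have st := h.stp t ht
      by_cases c1 : sp (I q.1) q.2 (v t) (v (t + 1)) = 0
      · by_cases c2 : vc (x + (I q.1 : ℕ) * D) (y + q.2 * D) (y + (q.2 + 1 : ℕ) * D) (v t) (v (t + 1)) = 0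
        · have c3 : sp (I q.1) (q.2 + 1) (v t) (v (t + 1)) ≠ 0 := by
            intro c3
            apply hne
            simp only [hcV, c1, c2, c3, add_zero]
          have := (Lc_near st (hp (I q.1) (q.2 + 1) (hIa _) (by omega) (by rcases hI' q.1 with e | e <;> simp [e])) c3).2
          obtain ⟨g1, g2⟩ := this
          rw [abs_le] at g1 g2
          simp only [Nr, abs_le]
          push_cast at g2
          constructor <;> constructor <;> linarith [g1.1, g1.2, g2.1, g2.2]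
        · have := vc_near st c2
          simp only [Nr, abs_le]
          obtain ⟨g1, g2, g3, g4⟩ := this
          push_cast at g4
          constructor <;> constructor <;> linarith
      · have := (Lc_near st (hp (I q.1) q.2 (hIa _) (by omega) (by rcases hI' q.1 with e | e <;> simp [e])) c1).2
        obtain ⟨g1, g2⟩ := this
        rw [abs_le] at g1 g2
        simp only [Nr, abs_le]
        constructor <;> constructor <;> linarith [g1.1, g1.2, g2.1, g2.2]
    rcases l with q | q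
    · have hq : q.2 < a := by
        have := hl
        rw [hL, inl_mem_disjSum, mem_product, mem_range] at this
        exact this.2
      exact ⟨q.2, J q.1, hq.le, hJb _, by rcases hJ' q.1 with e | e <;> simp [e], i, hi, j, hkj, hj,
        near q hq i (by omega) ci, near q hq j hj cj⟩
    · have hq : q.2 < b := by
        have := hl
        rw [hL, inr_mem_disjSum, mem_product, mem_range] at this
        exact this.2
      exact ⟨I q.1, q.2, hIa _, hq.le, by rcases hI' q.1 with e | e <;> simp [e], i, hi, j, hkj, hj,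
        near' q hq i (by omega) ci, near' q hq j hj cj⟩
  · -- the boundary
    intro t ht
    have st := h.stp t ht
    rw [rect_chain hxa hyb st, hL, sum_disjSum]
    simp only [hc', Sum.elim_inl, Sum.elim_inr, sum_product, Fintype.sum_bool, hcH, hcV]
    have tl : ∀ j, ∑ i ∈ range a, (sp i j (v t) (v (t + 1)) + sp (i + 1) j (v t) (v (t + 1))) =
        sp 0 j (v t) (v (t + 1)) + sp a j (v t) (v (t + 1)) := fun j => tele (fun i => sp i j (v t) (v (t + 1))) a
    have tl' : ∀ i, ∑ j ∈ range b, (sp i j (v t) (v (t + 1)) + sp i (j + 1) (v t) (v (t + 1))) =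
        sp i 0 (v t) (v (t + 1)) + sp i b (v t) (v (t + 1)) := fun i => tele (fun j => sp i j (v t) (v (t + 1))) b
    have cutH : ∀ j : ℕ, ∑ i ∈ range a, (sp i j (v t) (v (t + 1)) +
        hc (y + (j : ℕ) * D) (x + i * D) (x + (i + 1 : ℕ) * D) (v t) (v (t + 1)) + sp (i + 1) j (v t) (v (t + 1))) =
        sp 0 j (v t) (v (t + 1)) + sp a j (v t) (v (t + 1)) + hc (y + j * D) x (x + a * D) (v t) (v (t + 1)) := by
      intro j
      rw [← tl j, ← hc_cut (y + j * D) x D hD.le a, ← sum_add_distrib]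
      exact sum_congr rfl fun i _ => by ring
    have cutV : ∀ i : ℕ, ∑ j ∈ range b, (sp i j (v t) (v (t + 1)) +
        vc (x + (i : ℕ) * D) (y + j * D) (y + (j + 1 : ℕ) * D) (v t) (v (t + 1)) + sp i (j + 1) (v t) (v (t + 1))) =
        sp i 0 (v t) (v (t + 1)) + sp i b (v t) (v (t + 1)) + vc (x + i * D) y (y + b * D) (v t) (v (t + 1)) := by
      intro i
      rw [← tl' i, ← vc_cut (x + i * D) y D hD.le b, ← sum_add_distrib]
      exact sum_congr rfl fun j _ => by ring
    rw [cutH, cutH, cutV, cutV]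
    simp only [hJ, hI, if_true, Bool.false_eq_true, if_false, Nat.cast_zero, zero_mul, add_zero]
    linear_combination -(add_self2 (sp 0 b (v t) (v (t + 1)))) - (add_self2 (sp a b (v t) (v (t + 1)))) -
      (add_self2 (sp 0 0 (v t) (v (t + 1)))) - (add_self2 (sp a 0 (v t) (v (t + 1))))
  · -- the pieces
    rintro (q | q) hl
    · have hq : q.2 < a := by
        have := hl
        rw [hL, inl_mem_disjSum, mem_product, mem_range] at this
        exact this.2
      simp only [hc', Sum.elim_inl, hcH, sum_add_distrib]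
      have e2 : ∑ t ∈ range n, hc (y + (J q.1 : ℕ) * D) (x + q.2 * D) (x + (q.2 + 1 : ℕ) * D) (v t) (v (t + 1)) =
          sg n v (x + q.2 * D) (y + (J q.1 : ℕ) * D) + sg n v (x + (q.2 + 1 : ℕ) * D) (y + (J q.1 : ℕ) * D) := by
        have := sg_row h (x := x + q.2 * D) (x' := x + (q.2 + 1 : ℕ) * D) (y := y + (J q.1 : ℕ) * D)
          (by push_cast; linarith)
        rw [this]
        rfl
      rw [e2, spsum, spsum, hH q.2 (J q.1) hq (hJ' _)]
      linear_combination (add_self2 (sg n v (p (q.2 + 1) (J q.1)).1 (p (q.2 + 1) (J q.1)).2)) +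
        (add_self2 (sg n v (x + q.2 * D) (y + (J q.1 : ℕ) * D))) +
        (add_self2 (sg n v (x + (q.2 + 1 : ℕ) * D) (y + (J q.1 : ℕ) * D)))
    · have hq : q.2 < b := by
        have := hl
        rw [hL, inr_mem_disjSum, mem_product, mem_range] at this
        exact this.2
      simp only [hc', Sum.elim_inr, hcV, sum_add_distrib]
      have e2 : ∑ t ∈ range n, vc (x + (I q.1 : ℕ) * D) (y + q.2 * D) (y + (q.2 + 1 : ℕ) * D) (v t) (v (t + 1)) =
          sg n v (x + (I q.1 : ℕ) * D) (y + q.2 * D) + sg n v (x + (I q.1 : ℕ) * D) (y + (q.2 + 1 : ℕ) * D) :=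
        seg_v (by push_cast; linarith)
      rw [e2, spsum, spsum, hV (I q.1) q.2 hq (hI' _)]
      linear_combination (add_self2 (sg n v (p (I q.1) (q.2 + 1)).1 (p (I q.1) (q.2 + 1)).2)) +
        (add_self2 (sg n v (x + (I q.1 : ℕ) * D) (y + q.2 * D))) +
        (add_self2 (sg n v (x + (I q.1 : ℕ) * D) (y + (q.2 + 1 : ℕ) * D)))
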