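import Pool.Agent.ROT.EGeo
import Pool.Agent.ROT.Group3
import Pool.Agent.ROT.Par2

/-!
# ROT, block I: definitions (helper11)

Loops of the honeycomb in the square lattice coordinates of block E, their measure `mu`, scaled traces, patterns
of lattice points (inside / outside), the functionals `U`, the weak identity `Weak`, the static inputs.
-/

set_option autoImplicit false

namespace Pool.Agent.ROT.I

open MeasureTheory Filter Topology
open Pool.Agent.ROT.E (Cfg Lp)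

noncomputable section

/-- vertices and corners; the corner `(p, y)` is the lower left corner of the vertex `(p, y)` -/
abbrev Pt := ℤ × ℤ

/-- the weight of a configuration, honeycomb point -/
def M1 (γ : Cfg) : ℝ := γ.prod fun _ c => c.wt (Pool.Agent.UNI.wR (Real.pi / 8))

/-- the loops -/
abbrev Lps := {γ : Cfg // Lp γ}

instance : MeasurableSpace Lps := ⊤

/-- **the measure on loops** (all sizes, all translates) -/
def mu : Measure Lps := Measure.sum fun γ : Lps => ENNReal.ofReal (M1 γ.1) • Measure.dirac γ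

/-- column step `√3 e^(iπ/6)` -/
def e1 : ℂ := ⟨3 / 2, √3 / 2⟩

/-- row step `√3 i` -/
def e2 : ℂ := ⟨0, √3⟩

/-- coordinates in the basis `e1`, `e2` -/
def cx (z : ℂ) : ℝ := 2 / 3 * z.re
def cy (z : ℂ) : ℝ := z.im / √3 - z.re / 3

/-- the position of a vertex (corner) at the scale `N` -/
def sc (N : ℕ) (q : Pt) : ℂ := ((q.1 : ℝ) / N) • e1 + ((q.2 : ℝ) / N) • e2

/-- the trace at the scale `N` -/
def trc (N : ℕ) (γ : Cfg) : Set ℂ := sc N '' {v | γ v ≠ 0}

/-- `B (a, b)`: `(x, y) ↦ (- a x + b y, - b x + a y)` in the basis `e1`, `e2` -/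
def BC (a b : ℝ) : LB :=
  LinearMap.toContinuousLinearMap
    { toFun := fun z => (-a * cx z + b * cy z) • e1 + (-b * cx z + a * cy z) • e2
      map_add' := fun z w => by
        apply Complex.ext <;> simp [cx, cy, e1, e2] <;> ring
      map_smul' := fun t z => by
        apply Complex.ext <;> simp [cx, cy, e1, e2] <;> ring }

/-- the pattern of the corners `q`: `1` = inside -/
def pat {m : ℕ} (γ : Cfg) (q : Fin m → Pt) : Fin m → ZMod 2 := fun i => E.sg γ (q i).1 (q i).2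

/-- the mass of the pattern -/
def PP {m : ℕ} (τ : Fin m → ZMod 2) (q : Fin m → Pt) : ℝ := mu.real {γ | pat γ.1 q = τ}

/-- **the functional `U`** -/
def U {m : ℕ} (N : ℕ) (τ : Fin m → ZMod 2) (φ : (Fin m → ℂ) → ℝ) : ℝ :=
  ((N : ℝ) ^ (2 * m))⁻¹ * ∑' q : Fin m → Pt, φ (fun i => sc N (q i)) * PP τ q

/-- **test functions** for the pattern `τ`: smooth, compact support, all points at distance `≥ r` from each other,
two inside points, some outside point -/
structure Tst {m : ℕ} (τ : Fin m → ZMod 2) (φ : (Fin m → ℂ) → ℝ) : Prop where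
  smooth : ContDiff ℝ (↑(⊤ : ℕ∞)) φ
  cpt : HasCompactSupport φ
  sep : ∃ r : ℝ, 0 < r ∧ ∀ x ∈ tsupport φ, ∀ i j, i ≠ j → r ≤ dist (x i) (x j)
  inn : ∃ i j, i ≠ j ∧ τ i = 1 ∧ τ j = 1
  out : ∃ i, τ i = 0

/-- **THE WEAK IDENTITY** (output of LR, input of block I) -/
def Weak (a b : ℕ → ℝ) : Prop := ∀ (m : ℕ) (τ : Fin m → ZMod 2) (φ : (Fin m → ℂ) → ℝ), Tst τ φ →
  Tendsto (fun N : ℕ => U N τ fun x => fderiv ℝ φ x fun i => BC (a N) (b N) (x i)) atTop (𝓝 0)

/-! ### static inputs -/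

/-- the trace meets the disc of radius `R` -/
def Hits (N : ℕ) (R : ℝ) : Set Lps := {γ | ∃ z ∈ trc N γ.1, ‖z‖ ≤ R}

/-- the diameter is at least `r` -/
def Big (N : ℕ) (r : ℝ) : Set Lps := {γ | ∃ z ∈ trc N γ.1, ∃ w ∈ trc N γ.1, r ≤ dist z w}

/-- loops modulo translation: leftmost column 0, lowest row 0 -/
def Z0 : Set Lps := {γ | (∀ v, γ.1 v ≠ 0 → 0 ≤ v.1 ∧ 0 ≤ v.2) ∧ (∃ v, γ.1 v ≠ 0 ∧ v.1 = 0) ∧
  ∃ v, γ.1 v ≠ 0 ∧ v.2 = 0}

/-- masses, upper bound (K1, K2) -/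
def Mass : Prop := ∃ C : ℝ, ∀ r : ℝ, 0 < r → ∀ᶠ N : ℕ in atTop, mu (Z0 ∩ Big N r) ≤ ENNReal.ofReal (C / (r * N) ^ 2)

/-- masses, lower bound (K1) -/
def MassLo : Prop := ∃ c : ℝ, 0 < c ∧ ∀ᶠ N : ℕ in atTop, ENNReal.ofReal (c / (N : ℝ) ^ 2) ≤ mu (Z0 ∩ Big N 1)

/-- large loops rarely come near a given point -/
def Far : Prop := ∀ R ε : ℝ, 0 < ε → ∃ S : ℝ, ∀ᶠ N : ℕ in atTop, mu (Hits N R ∩ Big N S) ≤ ENNReal.ofReal ε

/-- loops of diameter `≥ r` rarely come very near a given point -/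
def Near : Prop := ∀ r ε : ℝ, 0 < r → 0 < ε → ∃ η : ℝ, 0 < η ∧ ∀ᶠ N : ℕ in atTop,
  mu (Hits N η ∩ Big N r) ≤ ENNReal.ofReal ε

/-- a closed lazy path which runs through the loop `γ` (an odd number of times) -/
structure Rep (γ : Cfg) (n : ℕ) (v : ℕ → Pt) : Prop where
  clo : Par.Clo n v
  pos : 0 < n
  supp : ∀ p, γ p ≠ 0 ↔ ∃ i < n, v i = p
  sg : ∀ p y, Par.sg n v p y = E.sg γ p y

/-- near self touch of a path: `i < k < j < l` in cyclic order, `v i` and `v j` at distance `≤ d`, `v k` and `v l`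
at distance `≥ D` from `v i` (distances in units of the lattice) -/
def NTp (n : ℕ) (v : ℕ → Pt) (d D : ℝ) : Prop := ∃ i k j l : ℕ, i ≤ k ∧ k ≤ j ∧ j ≤ l ∧ l ≤ i + n ∧
  dist (sc 1 (v (i % n))) (sc 1 (v (j % n))) ≤ d ∧ D ≤ dist (sc 1 (v (i % n))) (sc 1 (v (k % n))) ∧
  D ≤ dist (sc 1 (v (i % n))) (sc 1 (v (l % n)))

/-- near self touch of a loop (for all representations: a path which runs through the loop three times also is one) -/
def NT (γ : Cfg) (d D : ℝ) : Prop := ∀ n v, Rep γ n v → NTp n v d D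

/-- **NT1**: near self touches are rare -/
def NTS : Prop := ∀ r S ρ ε : ℝ, 0 < r → 0 < ρ → 0 < ε → ∃ δ : ℝ, 0 < δ ∧ ∀ᶠ N : ℕ in atTop,
  mu ((Z0 ∩ Big N r ∩ {γ | NT γ.1 (δ * N) (ρ * N)}) \ Big N S) ≤ ENNReal.ofReal (ε / (N : ℝ) ^ 2)

end

end Pool.Agent.ROT.I
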