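import Pool.Agent.ROT.EHexS
import Pool.Agent.ROT.IDefs

/-!
# ROT, block I: the closed path of a honeycomb loop (helper16)

* `rep_it`: the walk along a honeycomb loop, seen on the square vertices, is a representation (`Rep`) of the loop;
* `rep_lpw`: the same for the loop of a closed word.
-/

set_option autoImplicit false

namespace Pool.Agent.ROT.I

open Pool.Agent.ROT.E (Cfg Lp Cell Mt oc)
open Pool.Agent.ROT.E.Hx
open Pool.Agent.ROT.Par (Stp Clo)

open Finset

/-- a bond is a lazy step -/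
private theorem stp_rev (f : Bo) : Stp f.1 (rev f).1 := by
  obtain ⟨⟨a, b⟩, s⟩ := f
  cases s <;> simp [rev, Stp]

/-- the bonds which cross the line `p` at heights `≥ y` -/
private theorem cross_iff (f : Bo) (p y : ℤ) :
    (f.1 ≠ (rev f).1 ∧ (Par.sd f.1 (rev f).1).1 = false ∧ (Par.sd f.1 (rev f).1).2.1 = p ∧
      y ≤ (Par.sd f.1 (rev f).1).2.2) ↔
    ∃ y', y ≤ y' ∧ (f = ((p, y'), .ww) ∨ rev f = ((p, y'), .ww)) := by
  obtain ⟨⟨a, b⟩, s⟩ := f
  cases s
  · -- ww
    simp only [rev, Par.sd, ne_eq, Prod.mk.injEq, reduceCtorEq, and_false, or_false, if_true, and_true]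
    constructor
    · rintro ⟨-, -, h1, h2⟩
      refine ⟨b, h2, ?_, rfl⟩
      rw [← h1]
      exact (max_eq_left (by omega)).symm
    · rintro ⟨y', h1, h2, h3⟩
      refine ⟨by omega, trivial, ?_, by omega⟩
      rw [← h2]
      exact max_eq_left (by omega)
  · -- ss
    simp only [rev, Par.sd, ne_eq, Prod.mk.injEq, reduceCtorEq, and_false, or_false, exists_false, iff_false]
    rw [if_neg (by omega)]
    simp
  · simp [rev]
  · -- ee
    simp only [rev, Par.sd, ne_eq, Prod.mk.injEq, reduceCtorEq, and_false, false_or, if_true, and_true]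
    constructor
    · rintro ⟨-, -, h1, h2⟩
      refine ⟨b, h2, ?_, rfl⟩
      rw [← h1]
      exact (max_eq_right (by omega)).symm
    · rintro ⟨y', h1, h2, h3⟩
      refine ⟨by omega, trivial, ?_, by omega⟩
      rw [← h2]
      exact max_eq_right (by omega)
  · -- nn
    simp only [rev, Par.sd, ne_eq, Prod.mk.injEq, reduceCtorEq, and_false, or_false, exists_false, iff_false]
    rw [if_neg (by omega)]
    simp
  · simp [rev]

private theorem it_fst (γ : Cfg) (e : Bo) (i : ℕ) : ((nxt γ)^[i + 1] e).1 = (rev ((nxt γ)^[i] e)).1 := by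
  rw [Function.iterate_succ_apply']
  rfl

/-- **the representation of a honeycomb loop** by the walk along its bonds -/
theorem rep_it {γ : Cfg} (l : HL γ) {e : Bo} (he : ub γ e) : Rep γ (pd γ e) fun i => ((nxt γ)^[i] e).1 := by
  classical
  have m := l.lp.mt
  have hp := pd_pos m l.ny he
  refine ⟨⟨?_, ?_⟩, hp, ?_, ?_⟩
  · show ((nxt γ)^[pd γ e] e).1 = _
    rw [it_pd]
    rfl
  · intro i _
    show Stp ((nxt γ)^[i] e).1 ((nxt γ)^[i + 1] e).1
    rw [it_fst]
    exact stp_rev _
  · intro p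
    constructor
    · intro h
      have h1 : γ p ≠ .o := h
      have : ∃ s, us (γ p) s = true := by
        revert h1
        generalize γ p = c
        intro h1
        cases c <;> first
          | exact absurd rfl h1
          | exact ⟨.ww, by decide⟩
          | exact ⟨.ee, by decide⟩
          | exact ⟨.ss, by decide⟩
      obtain ⟨s, hs⟩ := this
      have h2 : ub γ (p, s) := hs
      obtain ⟨k, hk, h3 | h3⟩ := (ub_iff l.lp l.ny he).1 h2
      · exact ⟨k, hk, by rw [← h3]⟩
      · have h4 : p = ((nxt γ)^[k + 1] e).1 := by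
          rw [it_fst, ← h3, rev_rev]
        rcases Nat.lt_or_ge (k + 1) (pd γ e) with h5 | h5
        · exact ⟨k + 1, h5, h4.symm⟩
        · have h6 : k + 1 = pd γ e := by omega
          refine ⟨0, hp, ?_⟩
          rw [h6, it_pd] at h4
          exact h4.symm
    · rintro ⟨i, -, rfl⟩
      exact Finsupp.mem_support_iff.1 (ub_supp (it_ub m l.ny he i))
  · intro p y
    obtain ⟨n, hn⟩ : ∃ n, n = pd γ e := ⟨_, rfl⟩
    have hinj : ∀ i k, i < n → k < n → (nxt γ)^[i] e = (nxt γ)^[k] e → i = k := fun i k h1 h2 h3 =>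
      st_inj m l.ny he (hn ▸ h1) (hn ▸ h2) (by rw [h3])
    have hrev : ∀ i k, (nxt γ)^[i] e ≠ rev ((nxt γ)^[k] e) := by
      intro i k h5
      rcases le_total i k with h6 | h6
      · have h7 : (nxt γ)^[k - i] ((nxt γ)^[i] e) = (nxt γ)^[k] e := by
          rw [← Function.iterate_add_apply, Nat.sub_add_cancel h6]
        apply it_ne_rev m l.ny (k - i) (it_ub m l.ny he i)
        rw [h7, h5, rev_rev]
      · have h7 : (nxt γ)^[i - k] ((nxt γ)^[k] e) = (nxt γ)^[i] e := by
          rw [← Function.iterate_add_apply, Nat.sub_add_cancel h6]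
        apply it_ne_rev m l.ny (i - k) (it_ub m l.ny he k)
        rw [h7, h5]
    unfold Par.sg E.sg
    rw [← hn]
    have hL : ∀ i, (if (fun i => ((nxt γ)^[i] e).1) i ≠ (fun i => ((nxt γ)^[i] e).1) (i + 1) ∧
        (Par.sd ((fun i => ((nxt γ)^[i] e).1) i) ((fun i => ((nxt γ)^[i] e).1) (i + 1))).1 = false ∧
        (Par.sd ((fun i => ((nxt γ)^[i] e).1) i) ((fun i => ((nxt γ)^[i] e).1) (i + 1))).2.1 = p ∧
        y ≤ (Par.sd ((fun i => ((nxt γ)^[i] e).1) i) ((fun i => ((nxt γ)^[i] e).1) (i + 1))).2.2 then (1 : ZMod 2) else 0) =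
        if ∃ y', y ≤ y' ∧ ((nxt γ)^[i] e = ((p, y'), .ww) ∨ rev ((nxt γ)^[i] e) = ((p, y'), .ww)) then (1 : ZMod 2) else 0 := by
      intro i
      have h := cross_iff ((nxt γ)^[i] e) p y
      simp only [it_fst]
      by_cases h1 : ∃ y', y ≤ y' ∧ ((nxt γ)^[i] e = ((p, y'), .ww) ∨ rev ((nxt γ)^[i] e) = ((p, y'), .ww))
      · rw [if_pos h1, if_pos (h.2 h1)]
      · rw [if_neg h1, if_neg fun h2 => h1 (h.1 h2)]
    rw [sum_congr rfl fun i _ => hL i, Finset.sum_boole]
    have hR : ∀ v, (if v.1 = p ∧ y ≤ v.2 then E.io γ v .W else 0) =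
        if v.1 = p ∧ y ≤ v.2 ∧ ub γ (v, .ww) then (1 : ZMod 2) else 0 := by
      intro v
      have hu : ub γ (v, .ww) ↔ oc γ (v, .W) := ub_bd (h := (v, .W))
      unfold E.io
      by_cases h1 : v.1 = p ∧ y ≤ v.2
      · rw [if_pos h1]
        by_cases h2 : oc γ (v, .W)
        · rw [if_pos h2, if_pos ⟨h1.1, h1.2, hu.2 h2⟩]
        · rw [if_neg h2, if_neg fun h3 => h2 (hu.1 h3.2.2)]
      · rw [if_neg h1, if_neg fun h3 => h1 ⟨h3.1, h3.2.1⟩]
    rw [sum_congr rfl fun v _ => hR v, Finset.sum_boole]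
    congr 1
    refine Finset.card_bij (fun i _ => if ((nxt γ)^[i] e).2 = .ww then ((nxt γ)^[i] e).1 else (rev ((nxt γ)^[i] e)).1) ?_ ?_ ?_
    · intro i hi
      rw [mem_filter] at hi
      obtain ⟨-, y', hy, h | h⟩ := hi
      · have h0 := it_ub m l.ny he i
        rw [h] at h0 ⊢
        rw [if_pos rfl, mem_filter]
        exact ⟨ub_supp h0, rfl, hy, h0⟩
      · have h0 := (ub_rev m).2 (it_ub m l.ny he i)
        have h2 : ((nxt γ)^[i] e).2 ≠ .ww := by
          intro h3
          have h4 := congrArg Prod.snd h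
          revert h3 h4
          generalize (nxt γ)^[i] e = f
          obtain ⟨v, s⟩ := f
          rintro rfl
          simp [rev]
        rw [if_neg h2]
        rw [h] at h0 ⊢
        rw [mem_filter]
        exact ⟨ub_supp h0, rfl, hy, h0⟩
    · intro i hi k hk h
      rw [mem_filter, mem_range] at hi hk
      obtain ⟨hi, y1, -, h1⟩ := hi
      obtain ⟨hk, y2, -, h2⟩ := hk
      have key : ∀ f : Bo, ∀ y1, (f = ((p, y1), .ww) ∨ rev f = ((p, y1), .ww)) →
          (if f.2 = .ww then f.1 else (rev f).1) = (p, y1) := by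
        intro f y1 h
        rcases h with rfl | h
        · rfl
        · rw [if_neg, h]
          intro h3
          have h4 := congrArg Prod.snd h
          obtain ⟨v, s⟩ := f
          simp only at h3
          subst h3
          simp [rev] at h4
      rw [key _ _ h1, key _ _ h2] at h
      rw [← h] at h2
      rcases h1 with h1 | h1 <;> rcases h2 with h2 | h2
      · exact hinj i k hi hk (h1.trans h2.symm)
      · exact absurd (h1.trans h2.symm) (hrev i k)
      · exact absurd (h2.trans h1.symm) (hrev k i)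
      · exact hinj i k hi hk (rev_inj (h1.trans h2.symm))
    · intro v hv
      rw [mem_filter] at hv
      obtain ⟨-, h1, h2, h3⟩ := hv
      obtain ⟨k, hk, h4⟩ := (ub_iff l.lp l.ny he).1 h3
      have hv : v = (p, v.2) := Prod.ext h1 rfl
      rcases h4 with h4 | h4
      · refine ⟨k, ?_, ?_⟩
        · rw [mem_filter, mem_range]
          exact ⟨hn ▸ hk, v.2, h2, Or.inl (by rw [← h4, ← hv])⟩
        · rw [← h4, if_pos rfl]
      · have h5 : rev ((nxt γ)^[k] e) = (v, .ww) := by rw [← h4, rev_rev]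
        refine ⟨k, ?_, ?_⟩
        · rw [mem_filter, mem_range]
          exact ⟨hn ▸ hk, v.2, h2, Or.inr (by rw [h5, ← hv])⟩
        · rw [if_neg, h5]
          rw [← h4]
          simp [rev]

/-- the representation of the loop of a closed word -/
theorem rep_lpw {e : Bo} {t : List Bool} (h : t ∈ Wo) : Rep (lpw e t) t.length fun i => (bt e t i).1 := by
  have h1 := (mem_wo e).1 h
  have l : HL (lpw e t) := ⟨lp_lpw h1, ny_lpw e t⟩
  have he : ub (lpw e t) e := (ub_lpw h1 e).2 (os_bt h1 (i := 0) (Nat.zero_le _))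
  have r := rep_it l he
  rw [pd_lpw h1] at r
  have e1 : ∀ i, i ≤ t.length → ((nxt (lpw e t))^[i] e).1 = (bt e t i).1 := fun i hi => by rw [it_lpw h1 hi]
  refine ⟨⟨?_, ?_⟩, r.pos, ?_, ?_⟩
  · have := r.clo.per
    show (bt e t t.length).1 = _
    rw [← e1 _ le_rfl]
    exact this
  · intro i hi
    have := r.clo.stp i hi
    show Stp (bt e t i).1 (bt e t (i + 1)).1
    rw [← e1 i hi.le, ← e1 (i + 1) hi]
    exact this
  · intro p
    rw [r.supp p]
    constructor
    · rintro ⟨i, hi, h2⟩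
      exact ⟨i, hi, (e1 i hi.le).symm.trans h2⟩
    · rintro ⟨i, hi, h2⟩
      exact ⟨i, hi, (e1 i hi.le).trans h2⟩
  · intro p y
    rw [← r.sg p y]
    unfold Par.sg
    refine sum_congr rfl fun i hi => ?_
    rw [mem_range] at hi
    simp only [e1 i hi.le, e1 (i + 1) hi]

end Pool.Agent.ROT.I
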