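import Pool.Agent.ROT.PNtS
import Pool.Agent.ROT.IRepW

/-!
# ROT, block I (helper71): near self touches of the loops are rare

**`nts : NTS`**, from the word level theorem `N.wnt`.
-/

set_option autoImplicit false

namespace Pool.Agent.ROT.I

open MeasureTheory Filter Topology
open Pool.Agent.ROT.E (Cfg Lp Cell)
open Pool.Agent.ROT.E.Hx
open HexObs (wE gf oo up vx emb nrm mulE rotTo)
open HexObs.TIW (hn)
open Pool.Agent.ROT.N (gap NTw)
open scoped ENNReal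

/-- the two norms agree -/
theorem norm_JJ (p : HexObs.Pt) : ‖NTF.JJ p‖ = ‖emb p‖ := by
  have h1 := NTF.JJ_norm p
  have h2 := norm_emb_sq p
  have h3 : ‖NTF.JJ p‖ ^ 2 = ‖emb p‖ ^ 2 := by rw [h2, ← h1]
  exact (pow_left_inj₀ (norm_nonneg _) (norm_nonneg _) two_ne_zero).1 h3

/-- the distances of the square vertices of the loop of a word -/
theorem gap_bt {t : List Bool} (ht : t ∈ Wo) (a : Pt) (s : Sx) (i j : ℕ) :
    |dist (sc 1 (bt (a, s) t (i % t.length)).1) (sc 1 (bt (a, s) t (j % t.length)).1) - gap t i j| ≤ 2 := by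
  have hc : HexObs.POL.Clo t := HexObs.POL.Cy.clo ht.2
  have h0 : 0 < t.length := List.length_pos_iff.2 ht.1
  have e : ∀ k : ℕ, HexObs.POL.pv t k = vx oo up t (k % t.length) := by
    intro k
    have h1 := Nat.mod_lt k h0
    rw [HexObs.POL.pv_mod hc k, HexObs.POL.pv_eq (by omega)]
  have h1 := dist_bt a s t (i % t.length) (j % t.length)
  have h2 : gap t i j = ‖emb (vx oo up t (i % t.length) - vx oo up t (j % t.length))‖ := by
    unfold Pool.Agent.ROT.N.gap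
    rw [← NTF.JJ_sub, norm_JJ, e, e]
  rw [h2, dist_sc, Nat.cast_one, div_one]
  exact h1

/-- a near self touch of the path of a word -/
theorem ntp_word {t : List Bool} (ht : t ∈ Wo) (a : Pt) (s : Sx) {d D : ℝ}
    (h : NTp t.length (fun i => (bt (a, s) t i).1) d D) : NTw t.length t (d + 2) (D - 2) := by
  obtain ⟨i, k, j, l, a1, a2, a3, a4, a5, a6, a7⟩ := h
  refine ⟨i, k, j, l, a1, a2, a3, a4, ?_, ?_, ?_⟩
  · have := (abs_le.1 (gap_bt ht a s i j)).1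
    linarith
  · have := (abs_le.1 (gap_bt ht a s i k)).2
    linarith
  · have := (abs_le.1 (gap_bt ht a s i l)).2
    linarith

theorem trc_trc (a b : Pt) (γ : Cfg) : E.Hx.trc a (E.Hx.trc b γ) = E.Hx.trc (a + b) γ := by
  ext v
  rw [trc_ne, trc_ne, trc_ne]
  congr 1
  abel

theorem trc_zero (γ : Cfg) : E.Hx.trc 0 γ = γ := by
  ext v
  rw [trc_ne, sub_zero]

/-- **near self touches of the loops are rare** -/
theorem nts : NTS := by
  intro r S ρ ε hr hρ hε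
  obtain ⟨δ, hδ, R0, H⟩ := Pool.Agent.ROT.N.wnt (r / 2) (ρ / 2) (ε / 3) (by positivity) (by positivity) (by positivity)
  refine ⟨δ / 2, by positivity, ?_⟩
  have h1 : ∀ᶠ N : ℕ in atTop, 4 / r ≤ (N : ℝ) := tendsto_natCast_atTop_atTop.eventually_ge_atTop _
  have h2 : ∀ᶠ N : ℕ in atTop, 4 / ρ ≤ (N : ℝ) := tendsto_natCast_atTop_atTop.eventually_ge_atTop _
  have h3 : ∀ᶠ N : ℕ in atTop, 4 / δ ≤ (N : ℝ) := tendsto_natCast_atTop_atTop.eventually_ge_atTop _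
  have h4 : ∀ᶠ N : ℕ in atTop, R0 ≤ (N : ℝ) := tendsto_natCast_atTop_atTop.eventually_ge_atTop _
  filter_upwards [h1, h2, h3, h4, eventually_gt_atTop 0] with N b1 b2 b3 b4 b5
  rw [div_le_iff₀ hr] at b1
  rw [div_le_iff₀ hρ] at b2
  rw [div_le_iff₀ hδ] at b3
  have hN' : (0 : ℝ) < N := by exact_mod_cast b5
  let P : Cfg → Prop := fun γ => BigC N r γ ∧ ∃ a : Pt, NT (E.Hx.trc a γ) (δ / 2 * N) (ρ * N)
  have hP : ∀ a γ, HL γ → (P (E.Hx.trc a γ) ↔ P γ) := by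
    intro a γ _
    refine and_congr (bigC_tr N r a γ) ?_
    constructor
    · rintro ⟨b, hb⟩
      rw [trc_trc] at hb
      exact ⟨_, hb⟩
    · rintro ⟨b, hb⟩
      refine ⟨b - a, ?_⟩
      rw [trc_trc, sub_add_cancel]
      exact hb
  have h5 : mu (Z0 ∩ {γ | P γ.1}) ≤ 3 * ∑' n : ℕ, ENNReal.ofReal (1 / n) * gf {t | t ∈ HexObs.POL.Cy n ∧
      ((∃ i j, i ≤ t.length ∧ j ≤ t.length ∧ r / 2 * N ≤ (hn (vx oo up t i - vx oo up t j) : ℝ)) ∧
        NTw t.length t (δ * N) (ρ / 2 * N))} := by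
    refine mu_Z0_le P hP _ fun s t ht hB => ⟨?_, ?_⟩
    · obtain ⟨i, j, hi, hj, hd⟩ := big_le b5 ht hB.1
      exact ⟨i, j, hi.le, hj.le, by linarith⟩
    · obtain ⟨a, ha⟩ := hB.2
      have e1 : E.Hx.trc a (lpw (0, s) t) = lpw (a, s) t := by
        rw [← lpw_trb ht]
        unfold trb
        rw [zero_add]
      rw [e1] at ha
      have h6 := ntp_word ht a s (ha _ _ (rep_lpw ht))
      exact h6.mono (by linarith) (by linarith)
  have h6 : ∀ n : ℕ, {t | t ∈ HexObs.POL.Cy n ∧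
      ((∃ i j, i ≤ t.length ∧ j ≤ t.length ∧ r / 2 * N ≤ (hn (vx oo up t i - vx oo up t j) : ℝ)) ∧
        NTw t.length t (δ * N) (ρ / 2 * N))} = {t | t ∈ HexObs.POL.Cy n ∧
      (∃ i j, i ≤ n ∧ j ≤ n ∧ r / 2 * N ≤ (hn (vx oo up t i - vx oo up t j) : ℝ)) ∧ NTw n t (δ * N) (ρ / 2 * N)} := by
    intro n
    ext t
    simp only [Set.mem_ofPred_eq]
    refine and_congr_right fun ht => ?_
    rw [ht.1]
  simp_rw [h6] at h5
  have h7 : ((Z0 ∩ Big N r ∩ {γ | NT γ.1 (δ / 2 * N) (ρ * N)}) \ Big N S) ⊆ Z0 ∩ {γ | P γ.1} := by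
    rintro γ ⟨⟨⟨g1, g2⟩, g3⟩, -⟩
    exact ⟨g1, g2, 0, by rw [trc_zero]; exact g3⟩
  refine (measure_mono h7).trans (h5.trans ((mul_le_mul_right (H N b4) 3).trans_eq ?_))
  rw [show (3 : ℝ≥0∞) = ENNReal.ofReal 3 by norm_num, ← ENNReal.ofReal_mul (by norm_num)]
  congr 1
  field_simp

end Pool.Agent.ROT.I
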