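import Pool.Agent.ROT.KerB

/-!
# ROT, row R5 (helper55): the two sided kernel between two windows of double cut rows

`H12` of RFin: from the exact products (KerP0) and the bounds of the masses of the legs (KerB).
-/

set_option autoImplicit false

open MeasureTheory

open scoped ENNReal

namespace HexObs

namespace ART

open Finset Pool.Agent.ROT

open Classical in
/-- g and no deeper double cut row in W -/
noncomputable def gD (d : Pt) (W : Finset (Pt × Pt)) (g : List Bool → ℝ≥0∞) (z : Pt × Pt) (w : List Bool) : ℝ≥0∞ :=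
  if ∀ y ∈ W, dpt d z < dpt d y → ¬ (y ∈ SP d ∧ CutA d w y) then g w else 0

lemma gD_out {d : Pt} (hd : d ∈ dirs) (W : Finset (Pt × Pt)) {g : List Bool → ℝ≥0∞} (hg : ∀ A, OutA d A g)
    (z : Pt × Pt) : OutJ d z (gD d W g z) := by
  intro o c c'
  have h0 := jo_same o c c'
  have h1 : g (jo (o, c)) = g (jo (o, c')) := hg {z} z rfl _ _ h0
  unfold gD
  rw [h1]
  have h2 : (∀ y ∈ W, dpt d z < dpt d y → ¬ (y ∈ SP d ∧ CutA d (jo (o, c)) y)) ↔
      (∀ y ∈ W, dpt d z < dpt d y → ¬ (y ∈ SP d ∧ CutA d (jo (o, c')) y)) := by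
    refine forall_congr' fun y => forall_congr' fun _ => forall_congr' fun hy => ?_
    rw [cutA_same hd h0 (dpt_lt hy)]
  by_cases h3 : ∀ y ∈ W, dpt d z < dpt d y → ¬ (y ∈ SP d ∧ CutA d (jo (o, c)) y)
  · rw [if_pos h3, if_pos (h2.1 h3)]
  · rw [if_neg h3, if_neg fun h => h3 (h2.2 h)]

open Classical in
lemma int_eq {d : Pt} {g : List Bool → ℝ≥0∞} (hfin : ∑' w, wm d g w ≠ ⊤) (P : List Bool → Prop) :
    ∫ w, LM.ind (P w) ∂(muT d g) = (∑' w, if P w then wm d g w else 0).toReal := by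
  rw [int_muT hfin (LM.Bd.ind P), ENNReal.tsum_toReal_eq]
  · refine tsum_congr fun w => ?_
    by_cases h : P w
    · rw [LM.ind_t h, if_pos h, mul_one]
    · rw [LM.ind_f h, if_neg h, mul_zero, ENNReal.toReal_zero]
  · intro w
    have h1 : wm d g w ≠ ⊤ := ENNReal.ne_top_of_tsum_ne_top hfin w
    split_ifs
    · exact h1
    · exact ENNReal.zero_ne_top

open Classical in
lemma wm_gD {d : Pt} (W : Finset (Pt × Pt)) (g : List Bool → ℝ≥0∞) (z : Pt × Pt) (w : List Bool) :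
    wm d (gD d W g z) w = if ∀ y ∈ W, dpt d z < dpt d y → ¬ (y ∈ SP d ∧ CutA d w y) then wm d g w else 0 := by
  unfold wm gD
  split_ifs <;> simp

/-- **mass of two double cut rows, the second the deepest** -/
theorem mm_eq {d : Pt} (hd : d ∈ dirs) {g : List Bool → ℝ≥0∞} (hg : ∀ A, OutA d A g) (hfin : ∑' w, wm d g w ≠ ⊤)
    (W : Finset (Pt × Pt)) {z' z : Pt × Pt} (h1 : 1 ≤ dpt d z') (h2 : dpt d z' < dpt d z) :
    LM.mm (cutS d hd (SP d)) (muT d g) W z' z =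
      (capW d z').toReal * (midW d z' z).toReal * (Bw d (gD d W g z) z).toReal := by
  classical
  have e : ∀ w, LM.ind ((cutS d hd (SP d)).cut w z') * LM.dd (cutS d hd (SP d)) W z w =
      LM.ind ((CutA d w z' ∧ CutA d w z) ∧ ∀ y ∈ W, dpt d z < dpt d y → ¬ (y ∈ SP d ∧ CutA d w y)) := by
    intro w
    unfold LM.dd
    rw [← LM.ind_and]
    refine LM.ind_congr ⟨?_, ?_⟩
    · rintro ⟨⟨-, a⟩, ⟨-, b⟩, c⟩
      exact ⟨⟨a, b⟩, c⟩
    · rintro ⟨⟨a, b⟩, c⟩
      exact ⟨⟨h1, a⟩, ⟨h1.trans h2.le, b⟩, c⟩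
  unfold LM.mm
  simp only [e]
  rw [int_eq hfin, ← ENNReal.toReal_mul, ← ENNReal.toReal_mul, ← mass2 hd (dpt_lt h2) (gD_out hd W hg z)]
  congr 1
  refine tsum_congr fun w => ?_
  rw [wm_gD]
  by_cases a : CutA d w z' ∧ CutA d w z
  · by_cases b : ∀ y ∈ W, dpt d z < dpt d y → ¬ (y ∈ SP d ∧ CutA d w y)
    · rw [if_pos ⟨a, b⟩, if_pos a, if_pos b]
    · rw [if_neg (fun h => b h.2), if_pos a, if_neg b]
  · rw [if_neg (fun h => a h.1), if_neg a]

/-- **mass of three double cut rows, the third the deepest** -/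
theorem m3_eq {d : Pt} (hd : d ∈ dirs) {g : List Bool → ℝ≥0∞} (hg : ∀ A, OutA d A g) (hfin : ∑' w, wm d g w ≠ ⊤)
    (W : Finset (Pt × Pt)) {z'' z' z : Pt × Pt} (h0 : 1 ≤ dpt d z'') (h1 : dpt d z'' < dpt d z')
    (h2 : dpt d z' < dpt d z) :
    LM.m3 (cutS d hd (SP d)) (muT d g) W z'' z' z =
      (capW d z'').toReal * (midW d z'' z').toReal * (midW d z' z).toReal * (Bw d (gD d W g z) z).toReal := by
  classical
  have e : ∀ w, LM.ind ((cutS d hd (SP d)).cut w z'') * LM.ind ((cutS d hd (SP d)).cut w z') *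
      LM.dd (cutS d hd (SP d)) W z w =
      LM.ind ((CutA d w z'' ∧ CutA d w z' ∧ CutA d w z) ∧
        ∀ y ∈ W, dpt d z < dpt d y → ¬ (y ∈ SP d ∧ CutA d w y)) := by
    intro w
    unfold LM.dd
    rw [← LM.ind_and, ← LM.ind_and]
    refine LM.ind_congr ⟨?_, ?_⟩
    · rintro ⟨⟨⟨-, a⟩, ⟨-, a'⟩⟩, ⟨-, b⟩, c⟩
      exact ⟨⟨a, a', b⟩, c⟩
    · rintro ⟨⟨a, a', b⟩, c⟩
      exact ⟨⟨⟨h0, a⟩, ⟨h0.trans h1.le, a'⟩⟩, ⟨(h0.trans h1.le).trans h2.le, b⟩, c⟩
  unfold LM.m3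
  simp only [e]
  rw [int_eq hfin, ← ENNReal.toReal_mul, ← ENNReal.toReal_mul, ← ENNReal.toReal_mul,
    ← mass3 hd (dpt_lt h1) (dpt_lt h2) (gD_out hd W hg z)]
  congr 1
  refine tsum_congr fun w => ?_
  rw [wm_gD]
  by_cases a : CutA d w z'' ∧ CutA d w z' ∧ CutA d w z
  · by_cases b : ∀ y ∈ W, dpt d z < dpt d y → ¬ (y ∈ SP d ∧ CutA d w y)
    · rw [if_pos ⟨a, b⟩, if_pos a, if_pos b]
    · rw [if_neg (fun h => b h.2), if_pos a, if_neg b]
  · rw [if_neg (fun h => a h.1), if_neg a]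

lemma kap_nn (l : ℕ) : 0 ≤ kap l := by
  unfold kap
  positivity

/-- **(H1), (H2)** for windows of states with wide gaps -/
theorem h12 {d : Pt} (hd : d ∈ dirs) {V : ℕ → ℕ → Finset (Pt × Pt)} (hV : Wnd d V)
    (hgap : ∀ r l, ∀ z ∈ V r l, (2 : ℤ) ^ l ≤ r * TIW.hn (z.1 - z.2)) : H12 d hd V := by
  intro r J hrJ
  obtain ⟨C1, hC1, hup⟩ := midW_up r J hrJ
  obtain ⟨c, l1, hc, hlo⟩ := midW_low r J hrJ
  obtain ⟨C2, hC2, hks⟩ := midW_ks r
  have hup' := hup d hd V hV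
  have hlo' := hlo d hd V hV hgap
  have hks' := hks d hd V hV
  refine ⟨c, max C1 C2, l1, hc, lt_max_of_lt_left hC1, fun l hl g hg hfin => ?_⟩
  have hd1 : ∀ l, ∀ z ∈ V r l, 1 ≤ dpt d z := fun l z hz => Nat.one_le_two_pow.trans (hV.lo r l z hz)
  have hlt : ∀ z' ∈ V r l, ∀ z ∈ V r (l + J), dpt d z' < dpt d z := by
    intro z' hz' z hz
    have a1 := hV.up r l z' hz'
    have a2 := hV.lo r (l + J) z hz
    rw [pow_add] at a2
    have a3 : r * 2 ^ l < 2 ^ J * 2 ^ l := Nat.mul_lt_mul_of_pos_right hrJ (Nat.pow_pos (by norm_num))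
    rw [Nat.mul_comm (2 ^ l) (2 ^ J)] at a2
    omega
  have hmid : ∀ z' ∈ V r l, ∀ z ∈ V r (l + J), (midW d z' z).toReal ≤ C1 * kap l := by
    intro z' hz' z hz
    have h1 := ENNReal.toReal_mono ENNReal.ofReal_ne_top (hup' l z' hz' z hz)
    rwa [ENNReal.toReal_ofReal (by have := kap_nn l; positivity)] at h1
  have hCC1 : C1 ≤ max C1 C2 := le_max_left _ _
  have hk := kap_nn l
  refine ⟨fun z => (capW d z).toReal, fun z => kap l * (Bw d (gD d (V r (l + J)) g z) z).toReal,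
    fun z'' z' => (midW d z'' z').toReal, ⟨fun z => ENNReal.toReal_nonneg, fun z => by positivity, ?_, ?_, ?_, ?_⟩⟩
  · intro z' hz' z hz
    rw [mm_eq hd hg hfin _ (hd1 l z' hz') (hlt z' hz' z hz)]
    by_cases n1 : Nonempty (CC d z')
    swap
    · rw [capW_none n1]
      simp
    by_cases n2 : Nonempty (CC d z)
    swap
    · rw [Bw_none _ n2]
      simp
    have h1 := hlo' l hl z' hz' z hz n1 n2
    have h2 : midW d z' z ≠ ⊤ := ne_top_of_le_ne_top ENNReal.ofReal_ne_top (hup' l z' hz' z hz)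
    have h3 := ENNReal.toReal_mono h2 h1
    rw [ENNReal.toReal_ofReal (by positivity)] at h3
    obtain ⟨p, hp⟩ : ∃ p, p = (capW d z').toReal := ⟨_, rfl⟩
    obtain ⟨q, hq⟩ : ∃ q, q = (Bw d (gD d (V r (l + J)) g z) z).toReal := ⟨_, rfl⟩
    have hp0 : 0 ≤ p := by rw [hp]; exact ENNReal.toReal_nonneg
    have hq0 : 0 ≤ q := by rw [hq]; exact ENNReal.toReal_nonneg
    simp only [← hp, ← hq]
    calc c * (p * (kap l * q)) = p * (c * kap l) * q := by ring
      _ ≤ p * (midW d z' z).toReal * q := by gcongr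
  · intro z' hz' z hz
    rw [mm_eq hd hg hfin _ (hd1 l z' hz') (hlt z' hz' z hz)]
    have h1 := hmid z' hz' z hz
    obtain ⟨p, hp⟩ : ∃ p, p = (capW d z').toReal := ⟨_, rfl⟩
    obtain ⟨q, hq⟩ : ∃ q, q = (Bw d (gD d (V r (l + J)) g z) z).toReal := ⟨_, rfl⟩
    have hp0 : 0 ≤ p := by rw [hp]; exact ENNReal.toReal_nonneg
    have hq0 : 0 ≤ q := by rw [hq]; exact ENNReal.toReal_nonneg
    simp only [← hp, ← hq]
    calc p * (midW d z' z).toReal * q ≤ p * (max C1 C2 * kap l) * q := by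
          gcongr
          exact h1.trans (by gcongr)
      _ = max C1 C2 * (p * (kap l * q)) := by ring
  · intro z'' hz'' z' hz' h12 z hz
    rw [m3_eq hd hg hfin _ (hd1 l z'' hz'') h12 (hlt z' hz' z hz)]
    have h1 := hmid z' hz' z hz
    obtain ⟨p, hp⟩ : ∃ p, p = (capW d z'').toReal := ⟨_, rfl⟩
    obtain ⟨q, hq⟩ : ∃ q, q = (Bw d (gD d (V r (l + J)) g z) z).toReal := ⟨_, rfl⟩
    obtain ⟨k, hk'⟩ : ∃ k, k = (midW d z'' z').toReal := ⟨_, rfl⟩
    have hp0 : 0 ≤ p := by rw [hp]; exact ENNReal.toReal_nonneg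
    have hq0 : 0 ≤ q := by rw [hq]; exact ENNReal.toReal_nonneg
    have hk0 : 0 ≤ k := by rw [hk']; exact ENNReal.toReal_nonneg
    simp only [← hp, ← hq, ← hk']
    calc p * k * (midW d z' z).toReal * q ≤ p * k * (max C1 C2 * kap l) * q := by
          gcongr
          exact h1.trans (by gcongr)
      _ = max C1 C2 * (p * k * (kap l * q)) := by ring
  · intro z'' hz''
    refine (hks' l z'' hz'').trans ?_
    gcongr
    exact le_max_right _ _

end ART

end HexObs
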