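import Pool.Agent.ROT.ADefs

/-!
# ROT, linear response, row A2: definitions (helper10)

Outer structure at the side `u` of the polygons and the literal of (LR3) for ONE polygon, rooted at an extreme
cell of the side `u`.

Instance (word level / loops): `rt p` = an extreme cell of the side `u` (any choice that commutes with the
translations and is a function of the cells of the extreme line), `Sim n p p'` = `p = p'`, or `p` and `p'` have
the same root and a common double cut line (parallel to the side `u`) of depth `≤ n` with both feet at distance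
`≤ n` of the root, and the same part outside of the cap, `cd n p` = the sup norm radius (about the root) of the
cap of the deepest such line (`0` if there is none).
-/

set_option autoImplicit false

open Finset

namespace Pool.Agent.ROT.A

namespace PSys

variable (S : PSys)

/-- the extent across the side `u` -/
def wd (u : Fin 4) (p : S.P) : ℤ := if u = 0 ∨ u = 1 then S.ht p 1 - S.ht p 0 else S.ht p 3 - S.ht p 2

/-- `w` has a site at (sup norm) distance `≤ r` of `x` -/
def Nz (r : ℤ) (x : Z2) (w : S.P) : Prop := ∃ s ∈ S.st w, |s.1 - x.1| ≤ r ∧ |s.2 - x.2| ≤ r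

/-- **outer structure at the side `u`** -/
structure Side (u : Fin 4) where
  /-- the root -/
  rt : S.P → Z2
  /-- same root, same part outside of the cap of a common double cut line of depth and feet `≤ n` -/
  Sim : ℕ → S.P → S.P → Prop
  /-- the radius of the largest cap -/
  cd : ℕ → S.P → ℕ
  eqv : ∀ n, Equivalence (Sim n)
  rt_tr : ∀ z p, rt (S.tr z p) = rt p + z
  sim_tr : ∀ n z p p', Sim n p p' → Sim n (S.tr z p) (S.tr z p')
  cd_tr : ∀ n z p, cd n (S.tr z p) = cd n p
  sim_rt : ∀ n p p', Sim n p p' → rt p = rt p'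
  rt_in : ∀ p, S.ht p 0 ≤ (rt p).1 ∧ (rt p).1 ≤ S.ht p 1 ∧ S.ht p 2 ≤ (rt p).2 ∧ (rt p).2 ≤ S.ht p 3
  /-- the extent across the side does not see the cap -/
  sim_wd : ∀ n p p', Sim n p p' → S.wd u p = S.wd u p'
  sim_ht : ∀ n p p', Sim n p p' → ∀ k, |S.ht p k - S.ht p' k| ≤ max (cd n p) (cd n p')
  sim_ex : ∀ n p p', Sim n p p' → |S.ex p u - S.ex p' u| ≤ 2 * max (cd n p) (cd n p')
  /-- another polygon which does not come near the root does not see the cap -/
  sim_rel : ∀ n p p' q, Sim n p p' → ¬ S.Nz (max (cd n p) (cd n p') + 2) (rt p) q →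
    (S.Dj p q ↔ S.Dj p' q) ∧ (S.Dj q p ↔ S.Dj q p') ∧
      (S.Dj p q → S.Dj q p → (S.In p q ↔ S.In p' q) ∧ (S.In q p ↔ S.In q p'))
  Q_tr : ∀ z p, S.Qf (S.tr z p) u = S.Qf p u
  C_tr : ∀ z p, S.Cf (S.tr z p) u = S.Cf p u

variable {S} {u : Fin 4}

namespace Side

variable (X : S.Side u)

/-- the polygons with the root `0` and extent across the side in `[δ N, K N]` -/
def win (δ K N : ℝ) (p : S.P) : Prop := X.rt p = 0 ∧ δ * N ≤ (S.wd u p : ℝ) ∧ (S.wd u p : ℝ) ≤ K * N

open Classical in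
/-- the sum over the window of sizes -/
noncomputable def rsum (δ K N : ℝ) (f : S.P → ℝ) : ℝ := ∑' p : S.P, if X.win δ K N p then S.M p * f p else 0

/-- the threshold of the depth and the feet -/
noncomputable def th (N : ℝ) : ℕ := ⌊N ^ ((1 : ℝ) / 2)⌋₊

/-- **(LR3) for one polygon** and the observable `χ`, window `[δ N, K N]`: asymptotic independence of `χ` and the
outer part, with constants `c N` -/
def LR (δ K : ℝ) (χ : S.P → ℝ) (c : ℝ → ℝ) : Prop :=
  ∀ ε : ℝ, 0 < ε → ∃ N0 : ℝ, ∀ N : ℝ, N0 ≤ N → ∀ ψ : S.P → ℝ, (∀ p, |ψ p| ≤ 1) →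
    (∀ p p', X.Sim (th N) p p' → ψ p = ψ p') → |X.rsum δ K N fun p => ψ p * (χ p - c N)| ≤ ε / N ^ 2

/-- the observables of (LR3): the response `Cf` (`k` times the indicator of the minimal cup) and the truncations
of `Qf` -/
def LRall : Prop := ∀ δ K : ℝ, 0 < δ → δ < K → (∃ c, X.LR δ K (fun p => S.Cf p u) c) ∧
  ∀ T : ℝ, 0 < T → ∃ c, X.LR δ K (fun p => min (S.Qf p u) T) c

open Classical in
/-- **(CAP)**: macroscopic caps of microscopic double cut lines are rare -/
def CAP : Prop := ∀ δ K r ε : ℝ, 0 < δ → δ < K → 0 < r → 0 < ε → ∃ N0 : ℝ, ∀ N : ℝ, N0 ≤ N →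
  X.rsum δ K N (fun p => if r * N ≤ X.cd (th N) p then 1 else 0) ≤ ε / N ^ 2

open Classical in
/-- **(UI)**: second moment of `Qf` (and, because `Qf` is bounded below, of the mass) -/
def UI : Prop := ∀ δ K : ℝ, 0 < δ → δ < K → ∃ C N0 : ℝ, ∀ N : ℝ, N0 ≤ N →
  (Summable fun p : S.P => if X.win δ K N p then S.M p * S.Qf p u ^ 2 else 0) ∧
    X.rsum δ K N (fun p => S.Qf p u ^ 2) ≤ C / N ^ 2

end Side

/-- **the symmetries** `-1` and the transposition, up to translation: they identify the four sides -/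
def Sym (S : PSys) : Prop := ∀ u : Fin 4, ∃ e : {p : S.P // S.co p = 0} ≃ {p : S.P // S.co p = 0}, ∀ p,
  S.M (e p) = S.M p ∧ S.wd u (e p) = S.wd 3 p ∧ S.Qf (e p) u = S.Qf p 3 ∧ S.Cf (e p) u = S.Cf p 3

/-- **the inputs of A2**; `qm = 2 - √2` (in `u` units) and `kC = k` in the instance -/
structure A2In (S : PSys) (X : ∀ u, S.Side u) (qm kC : ℝ) : Prop where
  qm_pos : 0 < qm
  Q_ge : ∀ p u, qm ≤ S.Qf p u
  C_le : ∀ p u, S.Cf p u ≤ kC
  lr : ∀ u, (X u).LRall
  cap : ∀ u, (X u).CAP
  ui : ∀ u, (X u).UI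
  sym : S.Sym
  near : S.Near
  mass : S.Mass

/-- **the output of A2**: (LR3) in families with bounded constants, the same for all members and windows -/
def A2Out (S : PSys) (qm : ℝ) : Prop :=
  ∃ (A : ℝ) (a b : ℕ → ℝ), (∀ N, qm ≤ a N ∧ a N ≤ A ∧ 0 ≤ b N ∧ b N ≤ A) ∧ S.LR3F a b

end PSys

end Pool.Agent.ROT.A
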