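import Pool.Agent.ROT.RFin
import Pool.Agent.ROT.A2Defs
import Pool.Agent.ROT.A6W

/-!
# ROT, row A6 (helper22): (LR3) for one polygon from (LR3) for the words rooted at their top

* `LRw d χ c` : the conclusion of `lr3w` (RFin); `lrw_scale` : observables with values in `[0, B]`;
* **`lr_of`** : a side `X` of a polygon system, the polygons with root `0` are the words `WT d` (dictionary `e`),
  weights, `bot = 3 wd + 1`, `SimW → Sim`: then `LRw` gives `Side.LR`;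
* **`lrall_of`** : `Side.LRall` from the inputs of `lr3w`, for the observables `Cf`, `min Qf T` which are functions of
  the cap.
-/

set_option autoImplicit false

open scoped ENNReal

namespace HexObs

namespace ART

open Pool.Agent.ROT

/-- the conclusion of `lr3w` -/
def LRw (d : Pt) (χ : List Bool → ℝ) (c : ℝ → ℝ) : Prop :=
  ∀ a b ε : ℝ, 0 < a → a < b → 0 < ε → ∃ (D0 : ℕ) (h0 : ℝ), ∀ h : ℝ, h0 ≤ h →
    ∀ x y : ℕ, a * h ≤ x → (y : ℝ) ≤ b * h → ∀ ψ : List Bool → ℝ, (∀ w, |ψ w| ≤ 1) → OutA d (SD d D0) ψ →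
      |∑' w : WTw d x y, xc ^ (w : List Bool).length * (ψ w * (χ w - c h))| ≤ ε / h ^ 2

/-- the inputs of `lr3w` -/
structure LRI (d : Pt) (hd : d ∈ dirs) : Prop where
  ex : ∃ V : ℕ → ℕ → Finset (Pt × Pt), Wnd d V ∧ H3 d V ∧ H12 d hd V
  up : Mup d
  lo : Mlo d

/-- **(LR3) for observables with values in `[0, B]`** -/
theorem lrw_scale {d : Pt} {hd : d ∈ dirs} (hI : LRI d hd) {χ : List Bool → ℝ} {B : ℝ} (hB : 0 < B)
    (χ0 : ∀ w, 0 ≤ χ w) (χ1 : ∀ w, χ w ≤ B) (hχ : InA d (SP d) χ) : ∃ c, LRw d χ c := by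
  obtain ⟨V, hV, h3, h12⟩ := hI.ex
  obtain ⟨c, hc⟩ := lr3w hd hV h3 h12 hI.up hI.lo (χ := fun w => χ w / B) (fun w => div_nonneg (χ0 w) hB.le)
    (fun w => (div_le_one hB).2 (χ1 w)) (fun z hz R O O' S hC hO hO' => by
      simp only [hχ z hz R O O' S hC hO hO'])
  refine ⟨fun h => B * c h, fun a b ε ha hab hε => ?_⟩
  obtain ⟨D0, h0, H⟩ := hc a b (ε / B) ha hab (div_pos hε hB)
  refine ⟨D0, h0, fun h hh x y hx hy ψ hψ hψo => ?_⟩
  have h1 := H h hh x y hx hy ψ hψ hψo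
  have e1 : ∀ w : WTw d x y, xc ^ (w : List Bool).length * (ψ w * (χ w - B * c h)) =
      B * (xc ^ (w : List Bool).length * (ψ w * (χ w / B - c h))) := by
    intro w
    field_simp
  rw [tsum_congr e1, tsum_mul_left, abs_mul, abs_of_pos hB]
  calc B * |∑' w : WTw d x y, xc ^ (w : List Bool).length * (ψ w * (χ w / B - c h))|
      ≤ B * (ε / B / h ^ 2) := by gcongr
    _ = ε / h ^ 2 := by field_simp

/-- the states of `SD d D` are in `Stn d n` -/
lemma SD_Stn (d : Pt) {D n : ℕ} (h : D ≤ n) : SD d D ⊆ Stn d n := by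
  rintro z ⟨-, h1, h2, h3⟩
  have h4 : (D : ℤ) ≤ n := by exact_mod_cast h
  exact ⟨h1.trans h, h2.trans h4, h3.trans h4⟩

section dic

variable {S : A.PSys} {u : Fin 4} (X : S.Side u)

/-- the dictionary: the polygons with root `0` of the side `u` are the words rooted at their top -/
structure Dic (d : Pt) where
  /-- the word -/
  e : {p : S.P // X.rt p = 0} ≃ WT d
  M_eq : ∀ p : {p : S.P // X.rt p = 0}, S.M p = xc ^ ((e p : List Bool)).length
  bot_eq : ∀ p : {p : S.P // X.rt p = 0}, (bot d (e p) : ℤ) = 3 * S.wd u p + 1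
  sim : ∀ (n : ℕ) (p p' : {p : S.P // X.rt p = 0}), SimW d n (e p) (e p') → X.Sim n p p'

variable {X}

lemma th_ev (D : ℕ) : ∃ N0 : ℝ, ∀ N : ℝ, N0 ≤ N → D ≤ A.PSys.Side.th N := by
  refine ⟨(D : ℝ) ^ 2, fun N hN => ?_⟩
  unfold A.PSys.Side.th
  apply Nat.le_floor
  have h1 : ((D : ℝ) ^ 2) ^ ((1 : ℝ) / 2) ≤ N ^ ((1 : ℝ) / 2) :=
    Real.rpow_le_rpow (by positivity) hN (by norm_num)
  have h2 : ((D : ℝ) ^ 2) ^ ((1 : ℝ) / 2) = D := by
    rw [← Real.sqrt_eq_rpow, Real.sqrt_sq (Nat.cast_nonneg D)]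
  linarith

open Classical in
/-- the sum over the window as a sum over the words -/
lemma rsum_eq {d : Pt} (D : Dic X d) {δ K N : ℝ} (hδ : 0 < δ) (hK : 0 < K) (hN : 1 ≤ N) {f : S.P → ℝ}
    {F : List Bool → ℝ} (hF : ∀ p, f p.1 = F (D.e p)) :
    X.rsum δ K N f = ∑' w : WTw d (3 * ⌈δ * N⌉₊ + 1) (3 * ⌊K * N⌋₊ + 1), xc ^ (w : List Bool).length * F w := by
  obtain ⟨x, hx⟩ : ∃ x, x = 3 * ⌈δ * N⌉₊ + 1 := ⟨_, rfl⟩
  obtain ⟨y, hy⟩ : ∃ y, y = 3 * ⌊K * N⌋₊ + 1 := ⟨_, rfl⟩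
  rw [← hx, ← hy]
  have hwin : ∀ p : {p : S.P // X.rt p = 0}, X.win δ K N p ↔ (D.e p : List Bool) ∈ WTw d x y := by
    intro p
    have hb := D.bot_eq p
    have h1 : δ * N ≤ (S.wd u p : ℝ) ↔ (⌈δ * N⌉₊ : ℤ) ≤ S.wd u p := by
      constructor
      · intro h
        have h3 : (0 : ℝ) ≤ S.wd u p := le_trans (by positivity) h
        have h4 : 0 ≤ S.wd u p := by exact_mod_cast h3
        obtain ⟨n, hn⟩ := Int.eq_ofNat_of_zero_le h4
        rw [hn] at h ⊢
        have h5 : ⌈δ * N⌉₊ ≤ n := Nat.ceil_le.2 (by exact_mod_cast h)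
        exact_mod_cast h5
      · intro h
        have h5 : ((⌈δ * N⌉₊ : ℤ) : ℝ) ≤ (S.wd u p : ℝ) := by exact_mod_cast h
        have h6 : ((⌈δ * N⌉₊ : ℤ) : ℝ) = ((⌈δ * N⌉₊ : ℕ) : ℝ) := by push_cast; rfl
        rw [h6] at h5
        exact (Nat.le_ceil _).trans h5
    have h2 : (S.wd u p : ℝ) ≤ K * N ↔ S.wd u p ≤ (⌊K * N⌋₊ : ℤ) := by
      have hwd : 0 ≤ S.wd u p := by
        have := Int.natCast_nonneg (bot d (D.e p))
        omega
      obtain ⟨n, hn⟩ := Int.eq_ofNat_of_zero_le hwd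
      rw [hn]
      constructor
      · intro h
        have h5 : n ≤ ⌊K * N⌋₊ := Nat.le_floor (by exact_mod_cast h)
        exact_mod_cast h5
      · intro h
        have h5 : n ≤ ⌊K * N⌋₊ := by exact_mod_cast h
        have h6 : (n : ℝ) ≤ K * N := (Nat.le_floor_iff (by positivity)).1 h5
        exact_mod_cast h6
    have h3 : (D.e p : List Bool) ∈ WTw d x y ↔ x ≤ bot d (D.e p) ∧ bot d (D.e p) ≤ y :=
      ⟨fun h => h.2, fun h => ⟨(D.e p).2, h⟩⟩
    rw [h3]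
    unfold A.PSys.Side.win
    rw [h1, h2]
    constructor
    · rintro ⟨-, g1, g2⟩
      constructor <;> omega
    · rintro ⟨g1, g2⟩
      exact ⟨p.2, by omega, by omega⟩
  unfold A.PSys.Side.rsum
  have s1 : ∑' p : S.P, (if X.win δ K N p then S.M p * f p else 0) =
      ∑' p : {p : S.P | X.rt p = 0}, (if X.win δ K N p then S.M p * f p else 0) := by
    symm
    refine tsum_subtype_eq_of_support_subset (s := {p : S.P | X.rt p = 0})
      (f := fun p => if X.win δ K N p then S.M p * f p else 0) fun p hp => ?_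
    by_contra hcon
    exact hp (if_neg fun h => hcon h.1)
  have s2 : ∑' w : WTw d x y, xc ^ (w : List Bool).length * F w =
      ∑' w : WT d, (WTw d x y).indicator (fun w => xc ^ w.length * F w) w := by
    rw [tsum_subtype (WTw d x y) fun w => xc ^ w.length * F w]
    symm
    refine tsum_subtype_eq_of_support_subset (s := WT d)
      (f := (WTw d x y).indicator fun w => xc ^ w.length * F w) fun w hw => ?_
    exact (Set.mem_of_indicator_ne_zero hw).1
  rw [s1, s2, ← D.e.tsum_eq]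
  refine tsum_congr fun p => ?_
  by_cases h : X.win δ K N p
  · rw [if_pos h, Set.indicator_of_mem ((hwin p).1 h), D.M_eq p, hF p]
  · rw [if_neg h, Set.indicator_of_notMem fun h' => h ((hwin p).2 h')]

/-- **(LR3) for one polygon** -/
theorem lr_of {d : Pt} (hd : d ∈ dirs) (D : Dic X d) {f : S.P → ℝ} {χ : List Bool → ℝ} {c : ℝ → ℝ}
    (hf : ∀ p, f p.1 = χ (D.e p)) (h : LRw d χ c) {δ K : ℝ} (hδ : 0 < δ) (hK : δ < K) : X.LR δ K f c := by
  intro ε hε
  obtain ⟨D0, h0, H⟩ := h (3 * δ) (3 * K + 1) ε (by positivity) (by linarith) hε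
  obtain ⟨N1, hN1⟩ := th_ev D0
  refine ⟨max (max h0 1) N1, fun N hN ψ hψ1 hψs => ?_⟩
  have hN0 : h0 ≤ N := (le_max_left _ _).trans ((le_max_left _ _).trans hN)
  have hN2 : 1 ≤ N := (le_max_right _ _).trans ((le_max_left _ _).trans hN)
  have hN3 : D0 ≤ A.PSys.Side.th N := hN1 N ((le_max_right _ _).trans hN)
  classical
  obtain ⟨ψ', hψ'⟩ : ∃ ψ' : List Bool → ℝ, ψ' = fun w => if h : w ∈ WT d then ψ (D.e.symm ⟨w, h⟩) else 0 := ⟨_, rfl⟩
  have e1 : ∀ p, ψ p.1 = ψ' (D.e p) := by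
    intro p
    rw [hψ']
    simp only [Subtype.coe_eta, Equiv.symm_apply_apply, Subtype.coe_prop, dif_pos]
  have e2 : ∀ w, |ψ' w| ≤ 1 := by
    intro w
    rw [hψ']
    by_cases hw : w ∈ WT d
    · simp only [dif_pos hw]
      exact hψ1 _
    · simp only [dif_neg hw, abs_zero]
      exact zero_le_one
  have e3 : OutA d (SD d D0) ψ' := by
    intro z hz w w' hww
    have hw : w ∈ WT d := hww.left.mem hd
    have hw' : w' ∈ WT d := hww.right.mem hd
    rw [hψ']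
    simp only [dif_pos hw, dif_pos hw']
    refine hψs _ _ (D.sim _ _ _ ?_)
    rw [Equiv.apply_symm_apply, Equiv.apply_symm_apply]
    exact Or.inr ⟨z, SD_Stn d hN3 hz, hww⟩
  have e4 := H N hN0 (3 * ⌈δ * N⌉₊ + 1) (3 * ⌊K * N⌋₊ + 1) (by
    push_cast
    have := Nat.le_ceil (δ * N)
    linarith) (by
    push_cast
    have hK0 : 0 < K := hδ.trans hK
    have h1 : (⌊K * N⌋₊ : ℝ) ≤ K * N := Nat.floor_le (by positivity)
    nlinarith) ψ' e2 e3
  rw [rsum_eq D hδ (hδ.trans hK) hN2 (F := fun w => ψ' w * (χ w - c N)) fun p => by rw [e1 p, hf p]]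
  exact e4

/-- **(LR3) for the observables `Cf`, `min Qf T`** -/
theorem lrall_of {d : Pt} {hd : d ∈ dirs} (hI : LRI d hd) (D : Dic X d) {χC χQ : List Bool → ℝ} {kC : ℝ}
    (hC : ∀ p, S.Cf p.1 u = χC (D.e p)) (hQ : ∀ p, S.Qf p.1 u = χQ (D.e p))
    (hC0 : ∀ w, 0 ≤ χC w) (hC1 : ∀ w, χC w ≤ kC) (hQ0 : ∀ w, 0 ≤ χQ w)
    (hCi : InA d (SP d) χC) (hQi : InA d (SP d) χQ) : X.LRall := by
  intro δ K hδ hK
  refine ⟨?_, fun T hT => ?_⟩
  · have hB : 0 < max kC 1 := lt_of_lt_of_le one_pos (le_max_right _ _)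
    obtain ⟨c, hc⟩ := lrw_scale hI hB hC0 (fun w => (hC1 w).trans (le_max_left _ _)) hCi
    exact ⟨c, lr_of hd D hC hc hδ hK⟩
  · obtain ⟨c, hc⟩ := lrw_scale hI hT (χ := fun w => min (χQ w) T) (fun w => le_min (hQ0 w) hT.le)
      (fun w => min_le_right _ _) (fun z hz R O O' S hC hO hO' => by simp only [hQi z hz R O O' S hC hO hO'])
    exact ⟨c, lr_of hd D (fun p => by simp only [hQ p]) hc hδ hK⟩

end dic

end ART

end HexObs
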