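import Pool.Agent.ROT.NMassU
import Pool.Agent.POL.LowH

/-!
# ROT, row N1 (helper56): the mass of the polygons of a window of sizes, lower bound

* **`massL`** : `c / R ^ 2 ≤ ∑ (1 / n) gf (DL n κ R)`, all `R ≥ R0`.
-/

set_option autoImplicit false

namespace HexObs

namespace NK

open Finset TS SDN NTW NTA SIM JNT POL

open scoped ENNReal

/-! ### 4. The lower bound -/

lemma nrm_le_hn (p : Pt) : nrm p ≤ TIW.hn p ^ 2 := by
  have h1 : |ip p up| ≤ TIW.hn p := le_max_left _ _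
  have h2 : |ip p (rotR up)| ≤ TIW.hn p := (le_max_right _ _).trans (le_max_right _ _)
  have h0 := TIW.hn_nonneg p
  have e : 3 * nrm p = ip p up ^ 2 - ip p up * ip p (rotR up) + ip p (rotR up) ^ 2 := by
    simp only [ip, nrm, rotR, up]
    ring
  have s0 : ip p up ^ 2 ≤ TIW.hn p ^ 2 := sq_le_sq' (by linarith [(abs_le.1 h1).1]) (abs_le.1 h1).2
  have s1 : ip p (rotR up) ^ 2 ≤ TIW.hn p ^ 2 := sq_le_sq' (by linarith [(abs_le.1 h2).1]) (abs_le.1 h2).2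
  nlinarith [sq_nonneg (ip p up + ip p (rotR up))]

/-- a large radius of gyration gives two distant vertices -/
lemma far_of_rg {N : ℕ} (hN : 1 ≤ N) {t : List Bool} {a : ℝ} (ha : 0 < a) (h : a ≤ POLP.RgC N t) :
    ∃ i j, i < N ∧ j < N ∧ a ≤ ((TIW.hn (vx oo up t i - vx oo up t j) : ℤ) : ℝ) ^ 2 := by
  by_contra hc
  push Not at hc
  have hN0 : (0 : ℝ) < N := by exact_mod_cast hN
  have h1 : ∑ i ∈ range N, ∑ j ∈ range N, ((nrm (vx oo up t i - vx oo up t j) : ℤ) : ℝ) ≤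
      ∑ _i ∈ range N, ∑ _j ∈ range N, a := by
    refine sum_le_sum fun i hi => sum_le_sum fun j hj => ?_
    have h2 : ((nrm (vx oo up t i - vx oo up t j) : ℤ) : ℝ) ≤ ((TIW.hn (vx oo up t i - vx oo up t j) : ℤ) : ℝ) ^ 2 := by
      exact_mod_cast nrm_le_hn _
    exact h2.trans (hc i j (mem_range.1 hi) (mem_range.1 hj)).le
  rw [sum_const, sum_const, card_range, nsmul_eq_mul, nsmul_eq_mul] at h1
  unfold POLP.RgC at h
  have h3 : 1 / (2 * (N : ℝ) ^ 2) * ∑ i ∈ range N, ∑ j ∈ range N, ((nrm (vx oo up t i - vx oo up t j) : ℤ) : ℝ) ≤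
      1 / (2 * (N : ℝ) ^ 2) * (N * (N * a)) := mul_le_mul_of_nonneg_left h1 (by positivity)
  have h4 : 1 / (2 * (N : ℝ) ^ 2) * (N * (N * a)) = a / 2 := by
    field_simp
  linarith

/-- **the lower bound** -/
theorem massL : ∃ c κ R0 : ℝ, 0 < c ∧ 0 < κ ∧ ∀ R : ℝ, R0 ≤ R →
    ENNReal.ofReal (c / R ^ 2) ≤ ∑' n : ℕ, ENNReal.ofReal (1 / n) * gf (DL n κ R) := by
  obtain ⟨c0, N0, hc0, hlow⟩ := POL.lowH
  obtain ⟨C2, k0, hC2, h2⟩ := out_box
  -- alpha
  obtain ⟨α, hα⟩ : ∃ α : ℝ, α = (c0 / (2 * C2)) ^ (2 / 5 : ℝ) := ⟨_, rfl⟩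
  have hα0 : 0 < α := by rw [hα]; positivity
  have hα52 : α ^ (5 / 2 : ℝ) = c0 / (2 * C2) := by
    rw [hα, ← Real.rpow_mul (by positivity)]
    norm_num
  -- kappa
  obtain ⟨κ, hκ⟩ : ∃ κ : ℝ, κ = √(c0 * (α / 2) ^ (3 / 2 : ℝ)) / 40 := ⟨_, rfl⟩
  have hκ0 : 0 < κ := by rw [hκ]; positivity
  have hκ2 : κ ^ 2 * 1600 = c0 * (α / 2) ^ (3 / 2 : ℝ) := by
    rw [hκ, div_pow, Real.sq_sqrt (by positivity)]
    ring
  -- X large
  obtain ⟨k1, hk1⟩ : ∃ k1 : ℕ, (2 * (N0 : ℝ) + 16) / α ≤ 2 ^ k1 :=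
    (pow_unbounded_of_one_lt _ one_lt_two).imp fun s h => h.le
  refine ⟨c0 / 16 * α ^ (-(3 / 2) : ℝ), κ, 20 * 2 ^ (k0 + k1 + 1) + 1, by positivity, hκ0, fun R hR => ?_⟩
  have hR0 : 0 < R := lt_of_lt_of_le (by positivity) hR
  obtain ⟨k, hk0, hkR', hkR1⟩ := scale_R (k0 := k0 + k1) (R := R) (by linarith)
  have hkR : 20 * 2 ^ k ≤ R := hkR'.le
  obtain ⟨X, hX⟩ : ∃ X : ℝ, X = 2 ^ (4 / 3 * (k : ℝ)) := ⟨_, rfl⟩
  have hX0 : 0 < X := by rw [hX]; positivity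
  have h2X : (2 : ℝ) ^ k ≤ X := by
    rw [hX, ← Real.rpow_natCast]
    exact Real.rpow_le_rpow_of_exponent_le (by norm_num) (by have : (0 : ℝ) ≤ k := Nat.cast_nonneg _
                                                             linarith)
  have hXbig : 2 * (N0 : ℝ) + 16 ≤ α * X := by
    have h3 : (2 : ℝ) ^ k1 ≤ 2 ^ k := pow_le_pow_right₀ (by norm_num) (by omega)
    rw [div_le_iff₀ hα0] at hk1
    nlinarith
  have hXP : X * 4 ^ k = 2 ^ (10 / 3 * (k : ℝ)) := by rw [hX, p103]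
  have hX52 : X ^ (5 / 2 : ℝ) = X * 4 ^ k := by
    rw [hXP, hX, ← Real.rpow_mul (by norm_num)]
    congr 1
    ring
  have hX32 : X ^ (3 / 2 : ℝ) = 4 ^ k := by
    rw [hX, ← Real.rpow_mul (by norm_num), show (4 : ℝ) ^ k = 2 ^ (2 * (k : ℝ)) by
      rw [Real.rpow_mul (by norm_num), Real.rpow_natCast]
      norm_num]
    congr 1
    ring
  -- one length
  have one : ∀ n : ℕ, Even n → α / 2 * X ≤ n → (n : ℝ) ≤ α * X →
      ENNReal.ofReal (c0 / 2 * (α * X) ^ (-(5 / 2) : ℝ)) ≤ ENNReal.ofReal (1 / n) * gf (DL n κ R) := by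
    intro n he hn1 hn2
    have hnN : N0 ≤ n := by
      have : (N0 : ℝ) ≤ n := by linarith
      exact_mod_cast this
    have hnp : 1 ≤ n := by
      have : (1 : ℝ) ≤ n := by
        have : (0 : ℝ) ≤ N0 := Nat.cast_nonneg _
        linarith
      exact_mod_cast this
    have hn0 : (0 : ℝ) < n := by exact_mod_cast hnp
    obtain ⟨G, hG, b1, hrg⟩ := hlow n hnN he
    have b2 : gf (POL.Cy n \ WC n k) ≤ ENNReal.ofReal (c0 / 2 * (n : ℝ) ^ (-(3 / 2) : ℝ)) := by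
      refine (h2 n k hnp (by omega)).trans (ENNReal.ofReal_le_ofReal ?_)
      rw [← hXP, ← hX52, div_le_iff₀ (by positivity)]
      have e1 : (n : ℝ) = (n : ℝ) ^ (-(3 / 2) : ℝ) * (n : ℝ) ^ (5 / 2 : ℝ) := by
        rw [← Real.rpow_add hn0]
        norm_num
      have e2 : (n : ℝ) ^ (5 / 2 : ℝ) ≤ c0 / (2 * C2) * X ^ (5 / 2 : ℝ) := by
        rw [← hα52, ← Real.mul_rpow hα0.le hX0.le]
        exact Real.rpow_le_rpow hn0.le hn2 (by norm_num)
      calc C2 * (n : ℝ) = C2 * ((n : ℝ) ^ (-(3 / 2) : ℝ) * (n : ℝ) ^ (5 / 2 : ℝ)) := by rw [← e1]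
        _ ≤ C2 * ((n : ℝ) ^ (-(3 / 2) : ℝ) * (c0 / (2 * C2) * X ^ (5 / 2 : ℝ))) := by gcongr
        _ = c0 / 2 * (n : ℝ) ^ (-(3 / 2) : ℝ) * X ^ (5 / 2 : ℝ) := by
            field_simp
    have cov : G ⊆ DL n κ R ∪ (POL.Cy n \ WC n k) := by
      intro t ht
      have htc : t ∈ POL.Cy n := by
        rw [Cy_eq]
        exact hG ht
      by_cases hW : t ∈ WC n k
      · left
        obtain ⟨i, j, hi, hj, h5⟩ := far_of_rg hnp (by positivity) (hrg t ht)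
        refine ⟨htc, ⟨i, j, hi.le, hj.le, ?_⟩, fun i j hi hj => (hn_WC2 hW hi hj).trans hkR⟩
        have h6 : (0 : ℝ) ≤ ((TIW.hn (vx oo up t i - vx oo up t j) : ℤ) : ℝ) := by
          exact_mod_cast TIW.hn_nonneg _
        refine (sq_le_sq₀ (by positivity) h6).1 ?_
        refine le_trans ?_ h5
        have e3 : R ^ 2 ≤ 1600 * 4 ^ k := by
          have h3 : R ^ 2 ≤ (40 * 2 ^ k) ^ 2 := pow_le_pow_left₀ hR0.le hkR1 2
          have h4 : ((40 : ℝ) * 2 ^ k) ^ 2 = 1600 * 4 ^ k := by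
            rw [mul_pow, ← pow_mul, mul_comm k 2, pow_mul]
            norm_num
          linarith
        calc (κ * R) ^ 2 = κ ^ 2 * R ^ 2 := by ring
          _ ≤ κ ^ 2 * (1600 * 4 ^ k) := by gcongr
          _ = c0 * ((α / 2) ^ (3 / 2 : ℝ) * X ^ (3 / 2 : ℝ)) := by
              rw [hX32, ← mul_assoc, hκ2]
              ring
          _ = c0 * (α / 2 * X) ^ (3 / 2 : ℝ) := by rw [Real.mul_rpow (by positivity) hX0.le]
          _ ≤ c0 * (n : ℝ) ^ (3 / 2 : ℝ) := by gcongr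
      · exact Or.inr ⟨htc, hW⟩
    have b4 : ENNReal.ofReal (c0 * (n : ℝ) ^ (-(3 / 2) : ℝ)) ≤ gf (DL n κ R) +
        ENNReal.ofReal (c0 / 2 * (n : ℝ) ^ (-(3 / 2) : ℝ)) :=
      b1.trans ((gf_mono cov).trans ((gf_union_le _ _).trans (add_le_add le_rfl b2)))
    have b5 : ENNReal.ofReal (c0 / 2 * (n : ℝ) ^ (-(3 / 2) : ℝ)) ≤ gf (DL n κ R) := by
      have h6 := tsub_le_iff_right.2 b4
      rw [← ENNReal.ofReal_sub _ (by positivity)] at h6
      refine le_trans (ENNReal.ofReal_le_ofReal (le_of_eq ?_)) h6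
      ring
    refine le_trans ?_ (mul_le_mul_right b5 _)
    rw [← ENNReal.ofReal_mul (by positivity)]
    refine ENNReal.ofReal_le_ofReal ?_
    have e1 : 1 / (n : ℝ) * (c0 / 2 * (n : ℝ) ^ (-(3 / 2) : ℝ)) = c0 / 2 * (n : ℝ) ^ (-(5 / 2) : ℝ) := by
      have : (n : ℝ) ^ (-(5 / 2) : ℝ) = (n : ℝ) ^ (-(3 / 2) : ℝ) / n := by
        rw [← Real.rpow_sub_one hn0.ne']
        congr 1
        norm_num
      rw [this]
      ring
    rw [e1]
    refine mul_le_mul_of_nonneg_left ?_ (by positivity)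
    rw [Real.rpow_neg (by positivity), Real.rpow_neg hn0.le]
    exact inv_anti₀ (by positivity) (Real.rpow_le_rpow hn0.le hn2 (by norm_num))
  -- many lengths
  obtain ⟨a, ha⟩ : ∃ a : ℕ, a = ⌈α * X / 4⌉₊ := ⟨_, rfl⟩
  obtain ⟨b, hb⟩ : ∃ b : ℕ, b = ⌊α * X / 2⌋₊ := ⟨_, rfl⟩
  have ha1 : α * X / 4 ≤ a := by rw [ha]; exact Nat.le_ceil _
  have ha2 : (a : ℝ) < α * X / 4 + 1 := by rw [ha]; exact Nat.ceil_lt_add_one (by positivity)
  have hb1 : (b : ℝ) ≤ α * X / 2 := by rw [hb]; exact Nat.floor_le (by positivity)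
  have hb2 : α * X / 2 < (b : ℝ) + 1 := by rw [hb]; exact Nat.lt_floor_add_one _
  have hN00 : (0 : ℝ) ≤ N0 := Nat.cast_nonneg _
  have hinj : Set.InjOn (fun m : ℕ => 2 * m) (Icc a b : Finset ℕ) := fun x _ y _ h => by simpa using h
  have hsum : ∑ n ∈ ((Icc a b).image (fun m : ℕ => 2 * m) : Finset ℕ), ENNReal.ofReal (1 / n) * gf (DL n κ R) ≤
      ∑' n : ℕ, ENNReal.ofReal (1 / n) * gf (DL n κ R) := ENNReal.sum_le_tsum _
  refine le_trans ?_ hsum
  rw [sum_image hinj]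
  have hcard : α * X / 8 ≤ ((Icc a b).card : ℝ) := by
    rw [Nat.card_Icc]
    have h7 : (a : ℝ) ≤ b + 1 := by linarith
    have h8 : a ≤ b + 1 := by exact_mod_cast h7
    rw [Nat.cast_sub h8]
    push_cast
    linarith
  calc ENNReal.ofReal (c0 / 16 * α ^ (-(3 / 2) : ℝ) / R ^ 2)
      ≤ ENNReal.ofReal (((Icc a b).card : ℝ) * (c0 / 2 * (α * X) ^ (-(5 / 2) : ℝ))) := by
        refine ENNReal.ofReal_le_ofReal ?_
        have h9 : α * X / 8 * (c0 / 2 * (α * X) ^ (-(5 / 2) : ℝ)) = c0 / 16 * (α * X) ^ (-(3 / 2) : ℝ) := by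
          have : (α * X) ^ (-(3 / 2) : ℝ) = (α * X) ^ (-(5 / 2) : ℝ) * (α * X) := by
            rw [← Real.rpow_add_one (by positivity)]
            congr 1
            norm_num
          rw [this]
          ring
        have h10 : X ^ (-(3 / 2) : ℝ) = ((4 : ℝ) ^ k)⁻¹ := by
          rw [Real.rpow_neg hX0.le, hX32]
        have h11 : (4 : ℝ) ^ k ≤ R ^ 2 := by
          have h12 : ((2 : ℝ) ^ k) ^ 2 = 4 ^ k := by
            rw [← pow_mul, mul_comm, pow_mul]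
            norm_num
          rw [← h12]
          refine pow_le_pow_left₀ (by positivity) ?_ 2
          have : (0 : ℝ) ≤ 2 ^ k := by positivity
          linarith
        calc c0 / 16 * α ^ (-(3 / 2) : ℝ) / R ^ 2 ≤ c0 / 16 * α ^ (-(3 / 2) : ℝ) / 4 ^ k :=
              div_le_div_of_nonneg_left (by positivity) (by positivity) h11
          _ = α * X / 8 * (c0 / 2 * (α * X) ^ (-(5 / 2) : ℝ)) := by
              rw [h9, Real.mul_rpow hα0.le hX0.le, h10]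
              ring
          _ ≤ _ := mul_le_mul_of_nonneg_right hcard (by positivity)
    _ = ∑ _m ∈ Icc a b, ENNReal.ofReal (c0 / 2 * (α * X) ^ (-(5 / 2) : ℝ)) := by
        rw [sum_const, nsmul_eq_mul, ENNReal.ofReal_mul (by positivity), ENNReal.ofReal_natCast]
    _ ≤ _ := by
        refine sum_le_sum fun m hm => ?_
        rw [mem_Icc] at hm
        have h13 : (a : ℝ) ≤ m := by exact_mod_cast hm.1
        have h14 : (m : ℝ) ≤ b := by exact_mod_cast hm.2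
        refine one (2 * m) (even_two_mul m) ?_ ?_
        · push_cast
          linarith
        · push_cast
          linarith

end NK

end HexObs
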