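import Pool.Agent.ROT.RMass
import Pool.Agent.ROT.NMass
import Pool.Agent.ROT.A6L
import Pool.Agent.ROT.KerP
import Pool.Agent.ART.DefsC3

/-!
# ROT, linear response, row R6 (helper43): the inputs of `lr3w` from the literals of block C

* `mlo` : the masses, lower bound (with 56's `massL`); the upper bound is `RM.mup`;
* `wnd_wdS`, `h3_of_h3t` : the windows of block C (`WdS`) and (H3) from `H3T`;
* **`lri_of`** : `LRI d hd` from `H3T` and `H12` for the windows of block C, `ip up d = -1`;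
* **`lri_h3t`** : `LRI d hd` from `H3T` alone (with helper55's `h12`), `lri_one` : for `d = (1, -1)`.
-/

set_option autoImplicit false

open scoped ENNReal

namespace HexObs

namespace ART

open Pool.Agent.ROT

/-- **masses, lower bound** -/
theorem mlo {d : Pt} (hd : d ∈ dirs) (hip : ip up d = -1) : Mlo d := RM.mlo_of NK.massL hd hip

/-- the windows of block C -/
lemma wnd_wdS (d : Pt) : Wnd d fun r l => WdS d l r := by
  constructor
  · intro r l z hz
    obtain ⟨-, h1, -⟩ := mem_WdS.1 hz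
    have h2 : ((2 ^ l : ℕ) : ℤ) ≤ -(ip z.1 d) := by
      push_cast
      exact h1
    unfold dpt
    omega
  · intro r l z hz
    obtain ⟨-, -, h1, -⟩ := mem_WdS.1 hz
    have h2 : -(ip z.1 d) ≤ ((r * 2 ^ l : ℕ) : ℤ) := by
      push_cast
      exact h1
    unfold dpt
    omega
  · intro r l z hz
    obtain ⟨-, -, -, h1, -, -⟩ := mem_WdS.1 hz
    push_cast
    exact h1
  · intro r l z hz
    obtain ⟨-, -, -, -, h1, -⟩ := mem_WdS.1 hz
    push_cast
    exact h1

/-- **(H3) for the windows of block C** -/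
theorem h3_of_h3t (h : H3T) {d : Pt} (hd : d ∈ dirs) : H3 d fun r l => WdS d l r := by
  intro ε hε
  obtain ⟨r, κ, l0, hκ, h1⟩ := h d hd ε hε
  refine ⟨r, κ, l0, hκ, fun l hl => ?_⟩
  obtain ⟨h0, h2⟩ := h1 l hl
  refine ⟨h0, fun h hh => (gf_mono ?_).trans (h2 h hh)⟩
  rintro w ⟨a1, a2, a3, a4⟩
  exact ⟨⟨a1, a2, a3.le⟩, fun hc => absurd a4 (not_lt.2 hc)⟩

/-- **the inputs of `lr3w`** -/
theorem lri_of (h : H3T) {d : Pt} (hd : d ∈ dirs) (hip : ip up d = -1) (h12 : H12 d hd fun r l => WdS d l r) :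
    LRI d hd :=
  ⟨⟨_, wnd_wdS d, h3_of_h3t h hd, h12⟩, RM.mup hd, mlo hd hip⟩

/-- the gap clause of the windows of block C -/
lemma gap_wdS (d : Pt) : ∀ r l : ℕ, ∀ z ∈ WdS d l r, (2 : ℤ) ^ l ≤ r * TIW.hn (z.1 - z.2) := fun _ _ _ hz =>
  (mem_WdS.1 hz).2.2.2.2.2

/-- **the inputs of `lr3w` from `H3T`** -/
theorem lri_h3t (h : H3T) {d : Pt} (hd : d ∈ dirs) (hip : ip up d = -1) : LRI d hd :=
  lri_of h hd hip (h12 hd (wnd_wdS d) (gap_wdS d))

/-- **the direction of the sides of the hexagonal polygons** -/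
theorem lri_one (h : H3T) (hd : ((1, -1) : Pt) ∈ dirs) : LRI (1, -1) hd := lri_h3t h hd (by decide)

end ART

end HexObs
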