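import Pool.Agent.ROT.Joint
import Pool.Agent.ROT.A6C
import Pool.Agent.ROT.RInp
import Pool.Agent.ROT.KerP
import Pool.Agent.ROT.INts
import Pool.Agent.ART.OutAll

/-!
# ROT, the joint of the blocks R, C with L, A, N, I (helper24)

* `rotM_h3t` : the literals `H3T` and `T2SX` of ART ⇒ `RotM`;
* **`rotM`** : `RotM`, no hypothesis.
-/

set_option autoImplicit false

namespace Pool.Agent.ROT

open HexObs.ART

theorem hd1 : ((1, -1) : HexObs.Pt) ∈ HexObs.dirs := by decide

/-- (LR3) for one polygon, all sides -/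
theorem lrall_h3t (h3 : H3T) (u : Fin 4) : (A6.sideX u).LRall :=
  A6.lrall_X (hd := hd1) (lri_of h3 hd1 (by decide) (h12 hd1 (wnd_wdS _) fun r l z hz => (mem_WdS.1 hz).2.2.2.2.2)) u

/-- **J1 - J8** -/
theorem rotM_h3t (h3 : H3T) (hS : T2SX) : I.RotM :=
  rotM_hex (lrall_h3t h3) (A6.cap_X (capD_of hS)) I.nts

theorem t2SX : T2SX := by
  obtain ⟨C, b0, hC, h⟩ := t2STx_all (t1T_in3 fastLp joinT) (esTL2_all (loopM_of fastLp))
  exact ⟨C, 1 / 200, b0, hC, by norm_num, h⟩

/-- **asymptotic rotation invariance of the critical polygons, at the lattice level** -/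
theorem rotM : I.RotM := rotM_h3t h3T t2SX

end Pool.Agent.ROT
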