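import Pool.Agent.ROT.FAll
import Pool.Agent.ROT.Joint2

/-!
# ROT: `rotP : RotP`, no hypothesis (helper5, helper24)
-/

set_option autoImplicit false

namespace Pool.Agent.ROT

/-- **rotation invariance of every limit of the critical polygons of the hexagonal lattice** -/
theorem rotP : RotP := F.rotP_of rotM

end Pool.Agent.ROT
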