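import Pool.Agent.ROT.F3Low
import Pool.Agent.GLow.Alpha
import Pool.Agent.TightN.DefsN
import Pool.Agent.NT.Dict

/-!
# ROT, F3 (B), row W7 (helper37): exact ends at the scale `s`

* `lat_dense`, `lat_inj` : the lattice of the even vertices `u (ℤ (1 - ω) + ℤ (1 - ω ^ 2))`;
* `scale_low` : for the mesh `D = ⌊μ s⌋` there is a scale `k` with `18 H 2 ^ k ≤ D ≤ 36 H 2 ^ k`, `2 ^ k` is of the order of `s`
  and `Ub k / 4 ^ k` of the order of `s ^ (3 / 4) / s ^ 2`.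
-/

set_option autoImplicit false

namespace Pool.Agent.ROT.F3

open HexObs HexObs.TS

open Filter Set

open scoped ENNReal Topology MeasureTheory

/-- **the scale of the mesh** -/
theorem scale_low {H k0 : ℕ} (hH : 1 ≤ H) {μ : ℝ} (hμ : 0 < μ) : ∃ (a A : ℝ) (s0 : ℝ), 0 < a ∧ 0 < A ∧ 1 ≤ s0 ∧
    ∀ s : ℝ, s0 ≤ s → ∀ D : ℤ, D = ⌊μ * s⌋ → ∃ k : ℕ, k0 ≤ k ∧ 18 * ((H : ℤ) * 2 ^ k) ≤ D ∧ D ≤ 36 * ((H : ℤ) * 2 ^ k) ∧
      μ * s ≤ 72 * H * 2 ^ k ∧ 18 * H * 2 ^ k ≤ μ * s ∧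
      a * s ^ (3 / 4 : ℝ) ≤ Ub k ∧ Ub k ≤ A * s ^ (3 / 4 : ℝ) ∧ a * (s ^ (3 / 4 : ℝ) / s ^ 2) ≤ Ub k / 4 ^ k := by
  obtain ⟨c, hc, hlow⟩ := GLow.UU_low
  obtain ⟨C, hC, hup⟩ := GLow.UU_up
  have hH' : (1 : ℝ) ≤ H := by exact_mod_cast hH
  have hH0 : (0 : ℝ) < H := by linarith
  obtain ⟨q, hq⟩ : ∃ q : ℝ, q = μ / (72 * H) := ⟨_, rfl⟩
  have hq0 : 0 < q := by rw [hq]; positivity
  obtain ⟨Q, hQ⟩ : ∃ Q : ℝ, Q = μ / (18 * H) := ⟨_, rfl⟩
  have hQ0 : 0 < Q := by rw [hQ]; positivity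
  refine ⟨min (c * q ^ (3 / 4 : ℝ)) (c * q ^ (3 / 4 : ℝ) / Q ^ 2), C * Q ^ (3 / 4 : ℝ),
    max 1 ((18 * H * 2 ^ k0 + 2) / μ), by positivity, by positivity, le_max_left _ _, ?_⟩
  intro s hs D hD
  have hs1 : 1 ≤ s := (le_max_left _ _).trans hs
  have hs0 : 0 < s := by linarith
  have hs2 : 18 * H * 2 ^ k0 + 2 ≤ μ * s := by
    have := (le_max_right _ _).trans hs
    rw [div_le_iff₀ hμ] at this
    linarith
  have hD1 : μ * s < (D : ℝ) + 1 := by
    rw [hD]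
    exact Int.lt_floor_add_one _
  have hD2 : (D : ℝ) ≤ μ * s := by
    rw [hD]
    exact Int.floor_le _
  have hDk : 18 * ((H : ℤ) * 2 ^ k0) ≤ D := by
    have : (18 * ((H : ℤ) * 2 ^ k0) : ℝ) ≤ D := by
      push_cast
      linarith
    exact_mod_cast this
  obtain ⟨k, hk0, hk1, hk2⟩ := exists_k hH hDk
  have hk1' : 18 * (H : ℝ) * 2 ^ k ≤ D := by
    have : ((18 * ((H : ℤ) * 2 ^ k) : ℤ) : ℝ) ≤ D := by exact_mod_cast hk1
    push_cast at this
    linarith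
  have hk2' : (D : ℝ) ≤ 36 * H * 2 ^ k := by
    have : (D : ℝ) ≤ ((36 * ((H : ℤ) * 2 ^ k) : ℤ) : ℝ) := by exact_mod_cast hk2
    push_cast at this
    linarith
  have h2 : (1 : ℝ) ≤ 2 ^ k := one_le_pow₀ (by norm_num)
  have hHk : (1 : ℝ) ≤ H * 2 ^ k := by nlinarith
  have e1 : μ * s ≤ 72 * H * 2 ^ k := by linarith
  have e2 : 18 * H * 2 ^ k ≤ μ * s := by linarith
  have f1 : q * s ≤ 2 ^ k := by
    have : q * s = μ * s / (72 * H) := by rw [hq]; ring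
    rw [this, div_le_iff₀ (by positivity)]
    linarith
  have f2 : (2 : ℝ) ^ k ≤ Q * s := by
    have : Q * s = μ * s / (18 * H) := by rw [hQ]; ring
    rw [this, le_div_iff₀ (by positivity)]
    linarith
  have eU : Ub k = UU (2 ^ k) := rfl
  have g1 : c * q ^ (3 / 4 : ℝ) * s ^ (3 / 4 : ℝ) ≤ Ub k := by
    have h3 := hlow (2 ^ k) Nat.one_le_two_pow
    rw [eU]
    refine le_trans ?_ h3
    rw [mul_assoc, ← Real.mul_rpow hq0.le hs0.le]
    push_cast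
    exact mul_le_mul_of_nonneg_left (Real.rpow_le_rpow (by positivity) f1 (by norm_num)) hc.le
  have g2 : Ub k ≤ C * Q ^ (3 / 4 : ℝ) * s ^ (3 / 4 : ℝ) := by
    have h3 := hup (2 ^ k) Nat.one_le_two_pow
    rw [eU]
    refine le_trans h3 ?_
    rw [mul_assoc, ← Real.mul_rpow hQ0.le hs0.le]
    push_cast
    exact mul_le_mul_of_nonneg_left (Real.rpow_le_rpow (by positivity) f2 (by norm_num)) hC.le
  have hsp : (0 : ℝ) ≤ s ^ (3 / 4 : ℝ) := Real.rpow_nonneg hs0.le _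
  refine ⟨k, hk0, hk1, hk2, e1, e2, ?_, g2, ?_⟩
  · exact le_trans (mul_le_mul_of_nonneg_right (min_le_left _ _) hsp) g1
  · have h4 : (4 : ℝ) ^ k ≤ Q ^ 2 * s ^ 2 := by
      have : (4 : ℝ) ^ k = (2 ^ k) ^ 2 := by
        rw [← pow_mul, mul_comm, pow_mul]
        norm_num
      rw [this, ← mul_pow]
      exact pow_le_pow_left₀ (by positivity) f2 2
    have h5 : c * q ^ (3 / 4 : ℝ) / Q ^ 2 * (s ^ (3 / 4 : ℝ) / s ^ 2) =
        (c * q ^ (3 / 4 : ℝ) * s ^ (3 / 4 : ℝ)) / (Q ^ 2 * s ^ 2) := by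
      field_simp
    calc min (c * q ^ (3 / 4 : ℝ)) (c * q ^ (3 / 4 : ℝ) / Q ^ 2) * (s ^ (3 / 4 : ℝ) / s ^ 2)
        ≤ c * q ^ (3 / 4 : ℝ) / Q ^ 2 * (s ^ (3 / 4 : ℝ) / s ^ 2) :=
          mul_le_mul_of_nonneg_right (min_le_right _ _) (by positivity)
      _ = (c * q ^ (3 / 4 : ℝ) * s ^ (3 / 4 : ℝ)) / (Q ^ 2 * s ^ 2) := h5
      _ ≤ (c * q ^ (3 / 4 : ℝ) * s ^ (3 / 4 : ℝ)) / 4 ^ k :=
          div_le_div_of_nonneg_left (by positivity) (by positivity) h4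
      _ ≤ Ub k / 4 ^ k := div_le_div_of_nonneg_right g1 (by positivity)

/-! ### the lattice of the even vertices -/

/-- the cube root of unity -/
noncomputable def om : ℂ := Complex.exp (2 * (Real.pi : ℂ) * Complex.I / 3)

lemma om_re_im : om = ⟨-(1 / 2), Real.sqrt 3 / 2⟩ := by
  unfold om
  have e : 2 * (Real.pi : ℂ) * Complex.I / 3 = ((2 * Real.pi / 3 : ℝ) : ℂ) * Complex.I := by
    push_cast
    ring
  rw [e, Complex.exp_mul_I, ← Complex.ofReal_cos, ← Complex.ofReal_sin]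
  have hc : Real.cos (2 * Real.pi / 3) = -(1 / 2) := by
    rw [show 2 * Real.pi / 3 = Real.pi - Real.pi / 3 by ring, Real.cos_pi_sub, Real.cos_pi_div_three]
  have hsn : Real.sin (2 * Real.pi / 3) = Real.sqrt 3 / 2 := by
    rw [show 2 * Real.pi / 3 = Real.pi - Real.pi / 3 by ring, Real.sin_pi_sub, Real.sin_pi_div_three]
  rw [hc, hsn]
  apply Complex.ext <;> simp

lemma om_sq : om ^ 2 = ⟨-(1 / 2), -(Real.sqrt 3 / 2)⟩ := by
  rw [om_re_im, sq]
  have h3 : Real.sqrt 3 * Real.sqrt 3 = 3 := Real.mul_self_sqrt (by norm_num)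
  apply Complex.ext
  · simp only [Complex.mul_re]
    nlinarith
  · simp only [Complex.mul_im]
    ring

lemma norm_one_sub : ‖(1 : ℂ) - om‖ = Real.sqrt 3 ∧ ‖(1 : ℂ) - om ^ 2‖ = Real.sqrt 3 := by
  have h3 : Real.sqrt 3 * Real.sqrt 3 = 3 := Real.mul_self_sqrt (by norm_num)
  constructor
  · rw [Complex.norm_def, Complex.normSq_apply, om_re_im]
    congr 1
    simp only [Complex.sub_re, Complex.one_re, Complex.sub_im, Complex.one_im]
    nlinarith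
  · rw [Complex.norm_def, Complex.normSq_apply, om_sq]
    congr 1
    simp only [Complex.sub_re, Complex.one_re, Complex.sub_im, Complex.one_im]
    nlinarith

/-- coordinates -/
lemma lp_re_im (p : ℤ × ℤ) : lp 0 (1 - om) (1 - om ^ 2) p =
    ⟨3 / 2 * (p.1 + p.2), Real.sqrt 3 / 2 * (p.2 - p.1)⟩ := by
  unfold lp
  rw [om_sq, om_re_im]
  apply Complex.ext
  · simp
    ring
  · simp
    ring

theorem lat_dense {u : ℂ} (hu : ‖u‖ = 1) (x : ℂ) : ∃ p : ℤ × ℤ, ‖lp 0 (u * (1 - om)) (u * (1 - om ^ 2)) p - x‖ ≤ 4 := by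
  have hu0 : u ≠ 0 := by
    rintro rfl
    simp at hu
  have h3 : Real.sqrt 3 * Real.sqrt 3 = 3 := Real.mul_self_sqrt (by norm_num)
  have h30 : 0 < Real.sqrt 3 := Real.sqrt_pos.2 (by norm_num)
  have h32 : Real.sqrt 3 ≤ 2 := by nlinarith
  obtain ⟨z, hz⟩ : ∃ z : ℂ, z = x / u := ⟨_, rfl⟩
  obtain ⟨A, hA⟩ : ∃ A : ℝ, A = z.re / 3 - z.im / Real.sqrt 3 := ⟨_, rfl⟩
  obtain ⟨B, hB⟩ : ∃ B : ℝ, B = z.re / 3 + z.im / Real.sqrt 3 := ⟨_, rfl⟩
  have key : ‖lp 0 (1 - om) (1 - om ^ 2) (round A, round B) - z‖ ≤ 4 := by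
    have e : lp 0 (1 - om) (1 - om ^ 2) (round A, round B) - z =
        ⟨3 / 2 * ((round A - A) + (round B - B)), Real.sqrt 3 / 2 * ((round B - B) - (round A - A))⟩ := by
      rw [lp_re_im]
      apply Complex.ext
      · simp only [Complex.sub_re]
        rw [hA, hB]
        ring
      · simp only [Complex.sub_im]
        rw [hA, hB]
        field_simp
        nlinarith
    have a1 := abs_le.1 (abs_sub_round A)
    have b1 := abs_le.1 (abs_sub_round B)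
    rw [e]
    refine (Complex.norm_le_abs_re_add_abs_im _).trans ?_
    simp only
    have c1 : |3 / 2 * ((round A - A) + (round B - B))| ≤ 3 / 2 := abs_le.2 ⟨by linarith [a1.1, b1.1, a1.2, b1.2], by
      linarith [a1.1, b1.1, a1.2, b1.2]⟩
    have c2 : |Real.sqrt 3 / 2 * ((round B - B) - (round A - A))| ≤ 1 := by
      rw [abs_mul, abs_of_pos (by positivity)]
      have : |((round B : ℝ) - B) - (round A - A)| ≤ 1 := abs_le.2 ⟨by linarith [a1.1, b1.1, a1.2, b1.2], by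
        linarith [a1.1, b1.1, a1.2, b1.2]⟩
      nlinarith [abs_nonneg (((round B : ℝ) - B) - (round A - A))]
    linarith
  refine ⟨(round A, round B), ?_⟩
  have e2 : lp 0 (u * (1 - om)) (u * (1 - om ^ 2)) (round A, round B) - x =
      u * (lp 0 (1 - om) (1 - om ^ 2) (round A, round B) - z) := by
    rw [hz]
    unfold lp
    field_simp
    ring
  rw [e2, norm_mul, hu, one_mul]
  exact key

theorem lat_inj {u : ℂ} (hu : ‖u‖ = 1) : Function.Injective (lp 0 (u * (1 - om)) (u * (1 - om ^ 2))) := by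
  have hu0 : u ≠ 0 := by
    rintro rfl
    simp at hu
  have h30 : 0 < Real.sqrt 3 := Real.sqrt_pos.2 (by norm_num)
  intro p q h
  have e : ∀ p : ℤ × ℤ, lp 0 (u * (1 - om)) (u * (1 - om ^ 2)) p = u * lp 0 (1 - om) (1 - om ^ 2) p := by
    intro p
    unfold lp
    ring
  rw [e, e] at h
  have h1 := mul_left_cancel₀ hu0 h
  rw [lp_re_im, lp_re_im] at h1
  have hr := congrArg Complex.re h1
  have hi := congrArg Complex.im h1
  simp only at hr hi
  have hr' : (p.1 : ℝ) + p.2 = q.1 + q.2 := by linarith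
  have hi' : (p.2 : ℝ) - p.1 = q.2 - q.1 := mul_left_cancel₀ (by positivity) hi
  have h1 : (p.1 : ℝ) = q.1 := by linarith
  have h2 : (p.2 : ℝ) = q.2 := by linarith
  exact Prod.ext (by exact_mod_cast h1) (by exact_mod_cast h2)

lemma lat_K {u : ℂ} (hu : ‖u‖ = 1) : ‖u * (1 - om)‖ + ‖u * (1 - om ^ 2)‖ ≤ 4 := by
  rw [norm_mul, norm_mul, hu, norm_one_sub.1, norm_one_sub.2, one_mul]
  have h3 : Real.sqrt 3 * Real.sqrt 3 = 3 := Real.mul_self_sqrt (by norm_num)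
  nlinarith [Real.sqrt_nonneg 3]

/-- the points of the lattice in the frame of the words -/
lemma lp_JJ (p : ℤ × ℤ) : lp 0 (1 - om) (1 - om ^ 2) p = NTF.JJ (p.1 - p.2, p.1 + 2 * p.2) := by
  rw [lp_re_im]
  unfold NTF.JJ
  apply Complex.ext
  · simp only
    push_cast
    ring
  · simp only
    push_cast
    ring

lemma cl_lp (p : ℤ × ℤ) : cl (p.1 - p.2, p.1 + 2 * p.2) = 0 := by
  unfold cl
  simp only
  rw [ZMod.intCast_zmod_eq_zero_iff_dvd]
  exact ⟨-p.2, by push_cast; ring⟩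

/-- **exact ends, honeycomb lattice turned by `u`**: the even vertices are the points `u * JJ y` with `cl y = 0` -/
theorem low_hex {X : Type*} [TopologicalSpace X] [MeasurableSpace X] [OpensMeasurableSpace X] {ι : Type*}
    {l : Filter ι} {b : ι → MeasureTheory.Measure X} {β : MeasureTheory.Measure X} {y : X → ℂ} (hy : Continuous y)
    {F V : Set X} (hF : IsClosed F) (hV : F ⊆ V) [MeasureTheory.IsFiniteMeasure (β.restrict V)]
    (hb : ∀ C : Set X, IsClosed C → C ⊆ F → limsup (fun N => b N C) l ≤ β C) {Δ : Set ℂ} (hΔ : IsOpen Δ) {s : ι → ℝ}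
    (hs : Tendsto s l atTop) {u : ℂ} (hu : ‖u‖ = 1) {c : ℝ} (hc : 0 ≤ c)
    (h : ∃ᶠ N in l, ∀ z : Pt, cl z = 0 → u * NTF.JJ z / s N ∈ Δ →
      ENNReal.ofReal (c / s N ^ 2) ≤ b N (F ∩ y ⁻¹' {u * NTF.JJ z / s N})) :
    ENNReal.ofReal (c / (64 * Real.pi)) • (MeasureTheory.volume : MeasureTheory.Measure ℂ).restrict Δ ≤
      (β.restrict V).map y := by
  have h1 := low_exact (o := fun _ : ι => 0) hy hF hV hb hΔ hs (show (0 : ℝ) < 4 by norm_num) (lat_K hu)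
    (fun _ => lat_inj hu) (fun _ x => lat_dense hu x) hc ?_
  · rw [show (4 : ℝ) * 4 ^ 2 = 64 by norm_num] at h1
    exact h1
  refine h.mono fun N hN p hp => ?_
  have e : lp 0 (u * (1 - om)) (u * (1 - om ^ 2)) p = u * NTF.JJ (p.1 - p.2, p.1 + 2 * p.2) := by
    rw [← lp_JJ]
    unfold lp
    ring
  rw [e] at hp ⊢
  exact hN _ (cl_lp p) hp

/-- **exact ends**: `v.restrict Δ ≪ (β.restrict V).map y` -/
theorem ac_hex {X : Type*} [TopologicalSpace X] [MeasurableSpace X] [OpensMeasurableSpace X] {ι : Type*}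
    {l : Filter ι} {b : ι → MeasureTheory.Measure X} {β : MeasureTheory.Measure X} {y : X → ℂ} (hy : Continuous y)
    {F V : Set X} (hF : IsClosed F) (hV : F ⊆ V) [MeasureTheory.IsFiniteMeasure (β.restrict V)]
    (hb : ∀ C : Set X, IsClosed C → C ⊆ F → limsup (fun N => b N C) l ≤ β C) {Δ : Set ℂ} (hΔ : IsOpen Δ) {s : ι → ℝ}
    (hs : Tendsto s l atTop) {u : ℂ} (hu : ‖u‖ = 1) {c : ℝ} (hc : 0 < c)
    (h : ∃ᶠ N in l, ∀ z : Pt, cl z = 0 → u * NTF.JJ z / s N ∈ Δ →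
      ENNReal.ofReal (c / s N ^ 2) ≤ b N (F ∩ y ⁻¹' {u * NTF.JJ z / s N})) :
    (MeasureTheory.volume : MeasureTheory.Measure ℂ).restrict Δ ≪ (β.restrict V).map y := by
  have h1 := low_hex hy hF hV hb hΔ hs hu hc.le h
  refine MeasureTheory.Measure.AbsolutelyContinuous.trans ?_ h1.absolutelyContinuous
  refine MeasureTheory.Measure.absolutelyContinuous_smul ?_
  rw [ne_eq, ENNReal.ofReal_eq_zero, not_le]
  positivity

end Pool.Agent.ROT.F3
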