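import Pool.Agent.ROT.F3TubeO

/-!
# ROT, F3 (B), row LOW0 (helper76, data: helper55): the three explicit paths

`p = 0`, `q = i Y`; the class `a` leaves `p` in the direction `w ^ a` and arrives at `q` seen from `q` in the direction `w ^ (-a)`.
In the own frame (first step `up`):
* `PA` : directions 0, 60, 120, 180 degrees (class 0, U-turn on the right);
* `PB` : directions 0, 300 (class 1, inner arc on the left);
* `PC` : directions 0, 300, 240, 180, 120, 60 (class 2, outer arc on the left).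
-/

set_option autoImplicit false

namespace HexObs

namespace ROT

namespace Pic

open Finset

/-! ### 1. Paths from their nodes -/

/-- the steps -/
def dif (P : ℕ → Pt) (i : ℕ) : Pt := P (i + 1) - P i

lemma ps_dif {P : ℕ → Pt} (h0 : P 0 = 0) (i : ℕ) : AR.ps (dif P) i = P i := by
  induction i with
  | zero =>
    rw [h0]
    rfl
  | succ i ih =>
    rw [AR.ps_succ, ih]
    unfold dif
    abel

lemma nrm3 {v : Pt} (h : 2 ≤ v.1 ∨ v.1 ≤ -2 ∨ 2 ≤ v.2 ∨ v.2 ≤ -2 ∨ 2 ≤ v.1 + v.2 ∨ v.1 + v.2 ≤ -2) : 3 ≤ nrm v := by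
  unfold nrm
  rcases h with h | h | h | h | h | h
  · nlinarith [sq_nonneg (v.1 + 2 * v.2)]
  · nlinarith [sq_nonneg (v.1 + 2 * v.2)]
  · nlinarith [sq_nonneg (2 * v.1 + v.2)]
  · nlinarith [sq_nonneg (2 * v.1 + v.2)]
  · nlinarith [sq_nonneg (v.1 - v.2)]
  · nlinarith [sq_nonneg (v.1 - v.2)]

/-- the path from its nodes -/
theorem path_of {P : ℕ → Pt} {n : ℕ} (h0 : P 0 = 0) (h1 : 0 < n → dif P 0 = up)
    (hd : ∀ i, i < n → dif P i ∈ dirs)
    (ht : ∀ i, i + 1 < n → dif P (i + 1) = dif P i ∨ dif P (i + 1) = rotL (dif P i) ∨ dif P (i + 1) = rotR (dif P i))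
    (hi : ∀ i j, i + 1 < j → j ≤ n → 2 ≤ (P j - P i).1 ∨ (P j - P i).1 ≤ -2 ∨ 2 ≤ (P j - P i).2 ∨ (P j - P i).2 ≤ -2 ∨
      2 ≤ (P j - P i).1 + (P j - P i).2 ∨ (P j - P i).1 + (P j - P i).2 ≤ -2) : AR.IPath (dif P) n := by
  refine ⟨hd, h1, ht, fun i j hij hj => ?_⟩
  rw [ps_dif h0, ps_dif h0]
  exact nrm3 (hi i j hij hj)

/-! ### 2. The class 0 -/

/-- the nodes of the class 0 -/
def PA (n1 n2 n3 : ℕ) (i : ℕ) : Pt :=
  if i ≤ n1 then (0, (i : ℤ)) else if i ≤ n1 + n2 then ((n1 : ℤ) - i, (i : ℤ))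
  else if i ≤ n1 + n2 + n3 then ((n1 : ℤ) - i, (n1 : ℤ) + n2)
  else (-(n2 : ℤ) - n3, 2 * (n1 : ℤ) + 2 * n2 + n3 - i)

section A

variable {n1 n2 n3 : ℕ}

lemma PA_dir1 {i : ℕ} (h : i < n1) : dif (PA n1 n2 n3) i = (0, 1) := by
  unfold dif PA
  rw [if_pos (by omega), if_pos (by omega)]
  ext <;> simp

lemma PA_dir2 {i : ℕ} (h : n1 ≤ i) (h' : i < n1 + n2) : dif (PA n1 n2 n3) i = (-1, 1) := by
  unfold dif PA
  rw [if_neg (by omega : ¬ i + 1 ≤ n1), if_pos (by omega : i + 1 ≤ n1 + n2)]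
  by_cases h1 : i ≤ n1
  · obtain rfl : i = n1 := by omega
    rw [if_pos le_rfl]
    ext <;> push_cast <;> simp
  · rw [if_neg h1, if_pos (by omega)]
    ext <;> push_cast <;> simp

lemma PA_dir3 {i : ℕ} (h : n1 + n2 ≤ i) (h' : i < n1 + n2 + n3) : dif (PA n1 n2 n3) i = (-1, 0) := by
  unfold dif PA
  rw [if_neg (by omega : ¬ i + 1 ≤ n1), if_neg (by omega : ¬ i + 1 ≤ n1 + n2), if_pos (by omega : i + 1 ≤ n1 + n2 + n3)]
  split_ifs with h1 h2 h3
  · ext <;> push_cast <;> simp <;> omega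
  · ext <;> push_cast <;> simp <;> omega
  · ext <;> push_cast <;> simp
  · omega

lemma PA_dir4 {i : ℕ} (h : n1 + n2 + n3 ≤ i) : dif (PA n1 n2 n3) i = (0, -1) := by
  unfold dif PA
  rw [if_neg (by omega : ¬ i + 1 ≤ n1), if_neg (by omega : ¬ i + 1 ≤ n1 + n2), if_neg (by omega : ¬ i + 1 ≤ n1 + n2 + n3)]
  split_ifs with h1 h2 h3
  · ext <;> push_cast <;> simp <;> omega
  · ext <;> push_cast <;> simp <;> omega
  · ext <;> push_cast <;> simp <;> omega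
  · ext <;> push_cast <;> simp

lemma PA_zero : PA n1 n2 n3 0 = 0 := by
  unfold PA
  rw [if_pos (Nat.zero_le _)]
  rfl

/-- **the path of the class 0** -/
theorem PA_path {n4 : ℕ} (h1 : 1 ≤ n1) (h2 : 2 ≤ n2) (h3 : 2 ≤ n3) : AR.IPath (dif (PA n1 n2 n3)) (n1 + n2 + n3 + n4) := by
  refine path_of PA_zero (fun _ => PA_dir1 (by omega)) (fun i _ => ?_) (fun i _ => ?_) fun i j hij hj => ?_
  · rcases lt_or_ge i n1 with g | g
    · rw [PA_dir1 g]; decide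
    rcases lt_or_ge i (n1 + n2) with g' | g'
    · rw [PA_dir2 g g']; decide
    rcases lt_or_ge i (n1 + n2 + n3) with g3 | g3
    · rw [PA_dir3 g' g3]; decide
    · rw [PA_dir4 g3]; decide
  · rcases lt_or_ge i n1 with g | g
    · rw [PA_dir1 g]
      rcases lt_or_ge (i + 1) n1 with k | k
      · rw [PA_dir1 k]; decide
      · rw [PA_dir2 k (by omega)]; decide
    rcases lt_or_ge i (n1 + n2) with g' | g'
    · rw [PA_dir2 g g']
      rcases lt_or_ge (i + 1) (n1 + n2) with k | k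
      · rw [PA_dir2 (by omega) k]; decide
      · rw [PA_dir3 k (by omega)]; decide
    rcases lt_or_ge i (n1 + n2 + n3) with g3 | g3
    · rw [PA_dir3 g' g3]
      rcases lt_or_ge (i + 1) (n1 + n2 + n3) with k | k
      · rw [PA_dir3 (by omega) k]; decide
      · rw [PA_dir4 k]; decide
    · rw [PA_dir4 g3, PA_dir4 (by omega)]; decide
  · unfold PA
    split_ifs <;> simp only [Prod.fst_sub, Prod.snd_sub] <;> omega

end A

/-! ### 3. The class 1 -/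

/-- the nodes of the class 1 -/
def PB (n1 : ℕ) (i : ℕ) : Pt := if i ≤ n1 then (0, (i : ℤ)) else ((i : ℤ) - n1, (n1 : ℤ))

section B

variable {n1 : ℕ}

lemma PB_dir1 {i : ℕ} (h : i < n1) : dif (PB n1) i = (0, 1) := by
  unfold dif PB
  rw [if_pos (by omega), if_pos (by omega)]
  ext <;> simp

lemma PB_dir2 {i : ℕ} (h : n1 ≤ i) : dif (PB n1) i = (1, 0) := by
  unfold dif PB
  rw [if_neg (by omega : ¬ i + 1 ≤ n1)]
  split_ifs with h1
  · ext <;> push_cast <;> simp <;> omega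
  · ext <;> push_cast <;> simp

lemma PB_zero : PB n1 0 = 0 := by
  unfold PB
  rw [if_pos (Nat.zero_le _)]
  rfl

/-- **the path of the class 1** -/
theorem PB_path {n2 : ℕ} (h1 : 1 ≤ n1) : AR.IPath (dif (PB n1)) (n1 + n2) := by
  refine path_of PB_zero (fun _ => PB_dir1 (by omega)) (fun i _ => ?_) (fun i _ => ?_) fun i j hij hj => ?_
  · rcases lt_or_ge i n1 with g | g
    · rw [PB_dir1 g]; decide
    · rw [PB_dir2 g]; decide
  · rcases lt_or_ge i n1 with g | g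
    · rw [PB_dir1 g]
      rcases lt_or_ge (i + 1) n1 with k | k
      · rw [PB_dir1 k]; decide
      · rw [PB_dir2 k]; decide
    · rw [PB_dir2 g, PB_dir2 (by omega)]; decide
  · unfold PB
    split_ifs <;> simp only [Prod.fst_sub, Prod.snd_sub] <;> omega

end B

/-! ### 4. The class 2 -/

/-- the nodes of the class 2 -/
def PC (n1 n2 n3 n4 n5 : ℕ) (i : ℕ) : Pt :=
  if i ≤ n1 then (0, (i : ℤ)) else if i ≤ n1 + n2 then ((i : ℤ) - n1, (n1 : ℤ))
  else if i ≤ n1 + n2 + n3 then ((i : ℤ) - n1, 2 * (n1 : ℤ) + n2 - i)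
  else if i ≤ n1 + n2 + n3 + n4 then ((n2 : ℤ) + n3, 2 * (n1 : ℤ) + n2 - i)
  else if i ≤ n1 + n2 + n3 + n4 + n5 then ((n1 : ℤ) + 2 * n2 + 2 * n3 + n4 - i, (n1 : ℤ) - n3 - n4)
  else ((n1 : ℤ) + 2 * n2 + 2 * n3 + n4 - i, (i : ℤ) - n2 - 2 * n3 - 2 * n4 - n5)

section C

variable {n1 n2 n3 n4 n5 : ℕ}

lemma PC_dir1 {i : ℕ} (h : i < n1) : dif (PC n1 n2 n3 n4 n5) i = (0, 1) := by
  unfold dif PC
  rw [if_pos (by omega), if_pos (by omega)]
  ext <;> simp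

lemma PC_dir2 {i : ℕ} (h : n1 ≤ i) (h' : i < n1 + n2) : dif (PC n1 n2 n3 n4 n5) i = (1, 0) := by
  unfold dif PC
  rw [if_neg (by omega : ¬ i + 1 ≤ n1), if_pos (by omega : i + 1 ≤ n1 + n2)]
  split_ifs <;> first | omega | (ext <;> push_cast <;> simp <;> omega)

lemma PC_dir3 {i : ℕ} (h : n1 + n2 ≤ i) (h' : i < n1 + n2 + n3) : dif (PC n1 n2 n3 n4 n5) i = (1, -1) := by
  unfold dif PC
  rw [if_neg (by omega : ¬ i + 1 ≤ n1), if_neg (by omega : ¬ i + 1 ≤ n1 + n2), if_pos (by omega : i + 1 ≤ n1 + n2 + n3)]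
  split_ifs <;> first | omega | (ext <;> push_cast <;> simp <;> omega)

lemma PC_dir4 {i : ℕ} (h : n1 + n2 + n3 ≤ i) (h' : i < n1 + n2 + n3 + n4) : dif (PC n1 n2 n3 n4 n5) i = (0, -1) := by
  unfold dif PC
  rw [if_neg (by omega : ¬ i + 1 ≤ n1), if_neg (by omega : ¬ i + 1 ≤ n1 + n2), if_neg (by omega : ¬ i + 1 ≤ n1 + n2 + n3),
    if_pos (by omega : i + 1 ≤ n1 + n2 + n3 + n4)]
  split_ifs <;> first | omega | (ext <;> push_cast <;> simp <;> omega)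

lemma PC_dir5 {i : ℕ} (h : n1 + n2 + n3 + n4 ≤ i) (h' : i < n1 + n2 + n3 + n4 + n5) :
    dif (PC n1 n2 n3 n4 n5) i = (-1, 0) := by
  unfold dif PC
  rw [if_neg (by omega : ¬ i + 1 ≤ n1), if_neg (by omega : ¬ i + 1 ≤ n1 + n2), if_neg (by omega : ¬ i + 1 ≤ n1 + n2 + n3),
    if_neg (by omega : ¬ i + 1 ≤ n1 + n2 + n3 + n4), if_pos (by omega : i + 1 ≤ n1 + n2 + n3 + n4 + n5)]
  split_ifs <;> first | omega | (ext <;> push_cast <;> simp <;> omega)

lemma PC_dir6 {i : ℕ} (h : n1 + n2 + n3 + n4 + n5 ≤ i) : dif (PC n1 n2 n3 n4 n5) i = (-1, 1) := by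
  unfold dif PC
  rw [if_neg (by omega : ¬ i + 1 ≤ n1), if_neg (by omega : ¬ i + 1 ≤ n1 + n2), if_neg (by omega : ¬ i + 1 ≤ n1 + n2 + n3),
    if_neg (by omega : ¬ i + 1 ≤ n1 + n2 + n3 + n4), if_neg (by omega : ¬ i + 1 ≤ n1 + n2 + n3 + n4 + n5)]
  split_ifs <;> first | omega | (ext <;> push_cast <;> simp <;> omega)

lemma PC_zero : PC n1 n2 n3 n4 n5 0 = 0 := by
  unfold PC
  rw [if_pos (Nat.zero_le _)]
  rfl

/-- **the path of the class 2** -/
theorem PC_path {n6 : ℕ} (h1 : 1 ≤ n1) (h2 : 2 ≤ n2) (h3 : 2 ≤ n3) (h4 : 2 ≤ n4) (h5 : 2 ≤ n5)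
    (h6 : n1 + n6 + 2 ≤ n3 + n4) : AR.IPath (dif (PC n1 n2 n3 n4 n5)) (n1 + n2 + n3 + n4 + n5 + n6) := by
  refine path_of PC_zero (fun _ => PC_dir1 (by omega)) (fun i _ => ?_) (fun i _ => ?_) fun i j hij hj => ?_
  · rcases lt_or_ge i n1 with g | g
    · rw [PC_dir1 g]; decide
    rcases lt_or_ge i (n1 + n2) with g2 | g2
    · rw [PC_dir2 g g2]; decide
    rcases lt_or_ge i (n1 + n2 + n3) with g3 | g3
    · rw [PC_dir3 g2 g3]; decide
    rcases lt_or_ge i (n1 + n2 + n3 + n4) with g4 | g4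
    · rw [PC_dir4 g3 g4]; decide
    rcases lt_or_ge i (n1 + n2 + n3 + n4 + n5) with g5 | g5
    · rw [PC_dir5 g4 g5]; decide
    · rw [PC_dir6 g5]; decide
  · rcases lt_or_ge i n1 with g | g
    · rw [PC_dir1 g]
      rcases lt_or_ge (i + 1) n1 with k | k
      · rw [PC_dir1 k]; decide
      · rw [PC_dir2 k (by omega)]; decide
    rcases lt_or_ge i (n1 + n2) with g2 | g2
    · rw [PC_dir2 g g2]
      rcases lt_or_ge (i + 1) (n1 + n2) with k | k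
      · rw [PC_dir2 (by omega) k]; decide
      · rw [PC_dir3 k (by omega)]; decide
    rcases lt_or_ge i (n1 + n2 + n3) with g3 | g3
    · rw [PC_dir3 g2 g3]
      rcases lt_or_ge (i + 1) (n1 + n2 + n3) with k | k
      · rw [PC_dir3 (by omega) k]; decide
      · rw [PC_dir4 k (by omega)]; decide
    rcases lt_or_ge i (n1 + n2 + n3 + n4) with g4 | g4
    · rw [PC_dir4 g3 g4]
      rcases lt_or_ge (i + 1) (n1 + n2 + n3 + n4) with k | k
      · rw [PC_dir4 (by omega) k]; decide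
      · rw [PC_dir5 k (by omega)]; decide
    rcases lt_or_ge i (n1 + n2 + n3 + n4 + n5) with g5 | g5
    · rw [PC_dir5 g4 g5]
      rcases lt_or_ge (i + 1) (n1 + n2 + n3 + n4 + n5) with k | k
      · rw [PC_dir5 (by omega) k]; decide
      · rw [PC_dir6 k]; decide
    · rw [PC_dir6 g5, PC_dir6 (by omega)]; decide
  · unfold PC
    split_ifs <;> simp only [Prod.fst_sub, Prod.snd_sub] <;> omega

end C

/-! ### 5. All data of a path -/

/-- lower bounds of the norm -/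
lemma nK {v : Pt} {K : ℤ} (h0 : 0 ≤ K) (h : 2 * K ≤ v.1 ∨ v.1 ≤ -(2 * K) ∨ 2 * K ≤ v.2 ∨ v.2 ≤ -(2 * K) ∨
    2 * K ≤ v.1 + v.2 ∨ v.1 + v.2 ≤ -(2 * K) ∨ (0 ≤ v.1 ∧ K ≤ v.2) ∨ (v.1 ≤ 0 ∧ K ≤ v.1 + v.2) ∨
    (0 ≤ v.1 + v.2 ∧ 0 ≤ v.1 ∧ v.2 ≤ -K) ∨ (v.1 ≤ -K ∧ v.2 ≤ 0)) : K ^ 2 ≤ nrm v := by
  unfold nrm
  rcases h with h | h | h | h | h | h | ⟨h, h'⟩ | ⟨h, h'⟩ | ⟨h, h', h2⟩ | ⟨h, h'⟩
  · nlinarith [sq_nonneg (v.1 + 2 * v.2)]
  · nlinarith [sq_nonneg (v.1 + 2 * v.2)]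
  · nlinarith [sq_nonneg (2 * v.1 + v.2)]
  · nlinarith [sq_nonneg (2 * v.1 + v.2)]
  · nlinarith [sq_nonneg (v.1 - v.2)]
  · nlinarith [sq_nonneg (v.1 - v.2)]
  · nlinarith [mul_nonneg h (by linarith : 0 ≤ v.2)]
  · have h2 : 0 ≤ (-v.1) * v.2 := mul_nonneg (by linarith) (by linarith)
    nlinarith
  · have h3 : 0 ≤ v.1 * (v.1 + v.2) := mul_nonneg h' h
    nlinarith
  · have h3 : 0 ≤ (-v.1) * (-v.2) := mul_nonneg (by linarith) (by linarith)
    nlinarith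

/-- the region of the class `a`, own integer coordinates; `L1`, `L2` = data of the end, `m` = twice the width of the outer arc -/
def RgI (a : Fin 3) (L1 L2 m : ℤ) (v : Pt) : Prop :=
  match a with
  | 0 => 0 ≤ v.1 + v.2 ∨ L1 ≤ v.2
  | 1 => 0 ≤ v.2 ∧ v.1 ≤ L1 ∧ -L2 ≤ v.1 - v.2 ∧ 0 ≤ v.1 + v.2 ∧ v.1 + v.2 ≤ L1 + L2
  | 2 => 0 ≤ v.2 ∨ v.2 ≤ -(L1 + L2) ∨ m ≤ 2 * v.1 + v.2

/-- the end of the path of the class `a`, own integer coordinates -/
def enI (a : Fin 3) (L1 L2 : ℤ) : Pt :=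
  match a with
  | 0 => (-(L1 + L2), L1)
  | 1 => (L1, L2)
  | 2 => (L2, -(L1 + L2))

/-- **all data of the path of the class `a`**: `K` straight steps at both ends -/
structure PicE (a : Fin 3) (K M L1 L2 n : ℕ) (E : ℕ → Pt) : Prop where
  ip : AR.IPath E n
  le : K + K + 1 ≤ n
  fst : ∀ i, i < K → E i = up
  lst : ∀ i, n - K ≤ i → i < n → E i = E (n - 1)
  cl : cl (E (n - 1)) = 1
  aa : NTF.aa (E (n - 1)) + a = -a
  en : AR.ps E n = enI a L1 L2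
  far0 : ∀ i, K ≤ i → i ≤ n → (K : ℤ) ^ 2 ≤ nrm (AR.ps E i)
  far1 : ∀ i, i + K ≤ n → (K : ℤ) ^ 2 ≤ nrm (AR.ps E i - AR.ps E n)
  reg : ∀ i, i ≤ n → RgI a L1 L2 (2 * M + K) (AR.ps E i)
  mx : n ≤ 4 * K + 2 * M + L1 + L2

theorem picA {K M L1 L2 : ℕ} (hK : 2 ≤ K) (h1 : 2 * K ≤ L1) (h2 : 2 * K ≤ L2) :
    PicE 0 K M L1 L2 (K + L1 + L2 + K) (dif (PA K L1 L2)) := by
  have hl : dif (PA K L1 L2) (K + L1 + L2 + K - 1) = (0, -1) := PA_dir4 (by omega)
  have hn : AR.ps (dif (PA K L1 L2)) (K + L1 + L2 + K) = enI 0 L1 L2 := by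
    rw [ps_dif PA_zero]
    unfold PA enI
    rw [if_neg (by omega), if_neg (by omega), if_neg (by omega)]
    refine Prod.ext ?_ ?_ <;> push_cast <;> ring
  refine ⟨PA_path (by omega) (by omega) (by omega), by omega, fun i hi => PA_dir1 hi, fun i h3 h4 => ?_, ?_, ?_, hn,
    fun i h3 h4 => ?_, fun i h3 => ?_, fun i hi => ?_, by omega⟩
  · rw [hl]
    exact PA_dir4 (by omega)
  · rw [hl]; decide
  · rw [hl]; decide
  · rw [ps_dif PA_zero]
    refine nK (by positivity) ?_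
    unfold PA
    split_ifs <;> omega
  · rw [hn, ps_dif PA_zero]
    refine nK (by positivity) ?_
    unfold PA enI
    split_ifs <;> simp only [Prod.fst_sub, Prod.snd_sub] <;> omega
  · rw [ps_dif PA_zero]
    unfold PA RgI
    split_ifs <;> omega

theorem picB {K M L1 L2 : ℕ} (hK : 2 ≤ K) (h1 : 2 * K ≤ L1) (h2 : 2 * K ≤ L2) :
    PicE 1 K M L1 L2 (L2 + L1) (dif (PB L2)) := by
  have hl : dif (PB L2) (L2 + L1 - 1) = (1, 0) := PB_dir2 (by omega)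
  have hn : AR.ps (dif (PB L2)) (L2 + L1) = enI 1 L1 L2 := by
    rw [ps_dif PB_zero]
    unfold PB enI
    rw [if_neg (by omega)]
    ext <;> push_cast <;> simp
  refine ⟨PB_path (by omega), by omega, fun i hi => PB_dir1 (by omega), fun i h3 h4 => ?_, ?_, ?_, hn,
    fun i h3 h4 => ?_, fun i h3 => ?_, fun i hi => ?_, by omega⟩
  · rw [hl]
    exact PB_dir2 (by omega)
  · rw [hl]; decide
  · rw [hl]; decide
  · rw [ps_dif PB_zero]
    refine nK (by positivity) ?_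
    unfold PB
    split_ifs <;> omega
  · rw [hn, ps_dif PB_zero]
    refine nK (by positivity) ?_
    unfold PB enI
    split_ifs <;> simp only [Prod.fst_sub, Prod.snd_sub] <;> omega
  · rw [ps_dif PB_zero]
    unfold PB RgI
    split_ifs <;> omega

theorem picC {K M L1 L2 : ℕ} (hK : 2 ≤ K) (hM : K ≤ M) (h1 : 2 * K ≤ L1) (h2 : 2 * K ≤ L2) (h3 : L1 ≤ L2 + K) :
    PicE 2 K M L1 L2 (K + M + (K + L2) + (K + L1) + M + K) (dif (PC K M (K + L2) (K + L1) M)) := by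
  have hl : dif (PC K M (K + L2) (K + L1) M) (K + M + (K + L2) + (K + L1) + M + K - 1) = (-1, 1) := PC_dir6 (by omega)
  have hn : AR.ps (dif (PC K M (K + L2) (K + L1) M)) (K + M + (K + L2) + (K + L1) + M + K) = enI 2 L1 L2 := by
    rw [ps_dif PC_zero]
    unfold PC enI
    rw [if_neg (by omega), if_neg (by omega), if_neg (by omega), if_neg (by omega), if_neg (by omega)]
    refine Prod.ext ?_ ?_ <;> push_cast <;> ring
  refine ⟨PC_path (by omega) (by omega) (by omega) (by omega) (by omega) (by omega), by omega, fun i hi => PC_dir1 hi,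
    fun i h4 h5 => ?_, ?_, ?_, hn, fun i h4 h5 => ?_, fun i h4 => ?_, fun i hi => ?_, by omega⟩
  · rw [hl]
    exact PC_dir6 (by omega)
  · rw [hl]; decide
  · rw [hl]; decide
  · rw [ps_dif PC_zero]
    refine nK (by positivity) ?_
    unfold PC
    split_ifs <;> omega
  · rw [hn, ps_dif PC_zero]
    refine nK (by positivity) ?_
    unfold PC enI
    split_ifs <;> simp only [Prod.fst_sub, Prod.snd_sub] <;> omega
  · rw [ps_dif PC_zero]
    unfold PC RgI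
    split_ifs <;> omega

/-- **the three explicit paths** -/
theorem pic (a : Fin 3) {K M L1 L2 : ℕ} (hK : 2 ≤ K) (hM : K ≤ M) (h1 : 2 * K ≤ L1) (h2 : 2 * K ≤ L2)
    (h3 : L1 ≤ L2 + K) : ∃ (n : ℕ) (E : ℕ → Pt), PicE a K M L1 L2 n E := by
  match a with
  | 0 => exact ⟨_, _, picA hK h1 h2⟩
  | 1 => exact ⟨_, _, picB hK h1 h2⟩
  | 2 => exact ⟨_, _, picC hK hM h1 h2 h3⟩

end Pic

end ROT

end HexObs
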