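import Pool.Agent.ROT.F3Tg
import Pool.Agent.ROT.F3Pic
import Pool.Agent.ROT.F3LowT

/-!
# ROT, F3 (B) (helper39): lower bounds of the masses of the classes of rests and of the main arcs

* `blMesh` : the mesh `μ`, the numbers of steps;
* `PicE.pathB` : the explicit paths of helper76 are `PathB` for every mesh;
* **`beta_man`**, **`beta_rst`** : for all data there are `ts, c > 0`: for every window with `W.D0 ≤ D0`, `D1 ≤ W.D1`, `t1 ≤ W.t1`,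
  `W.t0 ≤ ts` and all large real `S`: `c S ^ (3 / 4) ≤ ms (Man (ev a) (ev (-a)) ..) 1`, the same for `Rst`;
* **`beta_A0`, `beta_Ac`, `beta_R0`** : the classes of `Prm`.
-/

set_option autoImplicit false

namespace Pool.Agent.ROT.F3

open Finset
open HexObs (Pt vx dx oo up dirs ip nrm cl rotL rotR wE gf tf mulE conjE)
open HexObs.ART.TO (OrdS TubeO)
open HexObs.ROT.Pic (PicE pic enI)
open HexObs.TS (Ub)
open NTF (sw JJ aa)
open Pool.Agent.ROT.F3.Tb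

open scoped ENNReal

/-! ### 1. The mesh -/

/-- **the mesh and the numbers of steps** -/
lemma blMesh {R D0 D1 m : ℝ} (hR : 0 < R) (h0 : 4 * R ≤ D0) (h1 : D0 < D1) (hm : 0 < m) :
    ∃ (μ : ℝ) (K L : ℕ), 0 < μ ∧ μ ≤ m ∧ 2 ≤ K ∧ 2 * K ≤ L ∧ R + 4 * μ ≤ μ * K ∧ D0 + μ ≤ μ * (Real.sqrt 3 * L) ∧
      μ * (Real.sqrt 3 * L) + μ ≤ D1 := by
  have hs : Real.sqrt 3 ^ 2 = 3 := Real.sq_sqrt (by norm_num)
  have hs1 : 1.7 ≤ Real.sqrt 3 := Real.le_sqrt_of_sq_le (by norm_num)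
  have hs2 : Real.sqrt 3 ≤ 1.74 := Real.sqrt_le_iff.2 ⟨by norm_num, by norm_num⟩
  obtain ⟨μ, hμ⟩ : ∃ μ, μ = min m (min (R / 100) ((D1 - D0) / 10)) := ⟨_, rfl⟩
  have hμ0 : 0 < μ := by
    rw [hμ]
    exact lt_min hm (lt_min (by linarith) (by linarith))
  have hμ1 : μ ≤ m := by rw [hμ]; exact min_le_left _ _
  have hμ2 : μ ≤ R / 100 := by rw [hμ]; exact (min_le_right _ _).trans (min_le_left _ _)
  have hμ3 : μ ≤ (D1 - D0) / 10 := by rw [hμ]; exact (min_le_right _ _).trans (min_le_right _ _)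
  obtain ⟨K, hK⟩ : ∃ K : ℕ, K = ⌈(R + 4 * μ) / μ⌉₊ := ⟨_, rfl⟩
  obtain ⟨L, hL⟩ : ∃ L : ℕ, L = ⌈(D0 + μ) / (μ * Real.sqrt 3)⌉₊ := ⟨_, rfl⟩
  have hK1 : R + 4 * μ ≤ μ * K := by
    have := Nat.le_ceil ((R + 4 * μ) / μ)
    rw [← hK, div_le_iff₀ hμ0] at this
    linarith
  have hK2 : μ * K < R + 5 * μ := by
    have := Nat.ceil_lt_add_one (show 0 ≤ (R + 4 * μ) / μ by positivity)
    rw [← hK, ← sub_lt_iff_lt_add, lt_div_iff₀ hμ0] at this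
    linarith
  have hμs : 0 < μ * Real.sqrt 3 := by positivity
  have hL1 : D0 + μ ≤ μ * (Real.sqrt 3 * L) := by
    have := Nat.le_ceil ((D0 + μ) / (μ * Real.sqrt 3))
    rw [← hL, div_le_iff₀ hμs] at this
    linarith
  have hL2 : μ * (Real.sqrt 3 * L) < D0 + μ + μ * Real.sqrt 3 := by
    have := Nat.ceil_lt_add_one (show 0 ≤ (D0 + μ) / (μ * Real.sqrt 3) from div_nonneg (by linarith) hμs.le)
    rw [← hL, ← sub_lt_iff_lt_add, lt_div_iff₀ hμs] at this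
    linarith
  have hμs2 : μ * Real.sqrt 3 ≤ μ * 1.74 := mul_le_mul_of_nonneg_left hs2 hμ0.le
  refine ⟨μ, K, L, hμ0, hμ1, ?_, ?_, hK1, hL1, by linarith⟩
  · have h3 : (2 : ℝ) < K := by
      by_contra h4
      push Not at h4
      have := mul_le_mul_of_nonneg_left h4 hμ0.le
      linarith
    have : (2 : ℕ) < K := by exact_mod_cast h3
    omega
  · have h3 : (2 : ℝ) * K ≤ L := by
      by_contra h4
      push Not at h4
      have h5 : μ * (Real.sqrt 3 * L) ≤ 1.74 * (μ * (2 * K)) := by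
        have h6 : Real.sqrt 3 * L ≤ 1.74 * (2 * K) :=
          mul_le_mul hs2 h4.le (Nat.cast_nonneg L) (by norm_num)
        have := mul_le_mul_of_nonneg_left h6 hμ0.le
        linarith
      linarith
    exact_mod_cast h3

/-- the number of steps in the strip -/
lemma blStrip {b len μ : ℝ} (hb : 0 < b) (hμ : 0 < μ) (h1 : 3 * μ ≤ b) (h2 : 2 * b ≤ len) :
    ∃ p : ℕ, 1 ≤ p ∧ b + μ ≤ μ * p ∧ μ * (p + 1) ≤ len ∧ μ * p < b + 2 * μ := by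
  obtain ⟨p, hp⟩ : ∃ p : ℕ, p = ⌈(b + μ) / μ⌉₊ := ⟨_, rfl⟩
  have k1 : b + μ ≤ μ * p := by
    have := Nat.le_ceil ((b + μ) / μ)
    rw [← hp, div_le_iff₀ hμ] at this
    linarith
  have k2 : μ * p < b + 2 * μ := by
    have := Nat.ceil_lt_add_one (show 0 ≤ (b + μ) / μ by positivity)
    rw [← hp, ← sub_lt_iff_lt_add, lt_div_iff₀ hμ] at this
    linarith
  refine ⟨p, ?_, k1, by linarith, k2⟩
  by_contra h
  have : p = 0 := by omega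
  rw [this, Nat.cast_zero, mul_zero] at k1
  linarith

/-! ### 2. The explicit paths -/

lemma blNrm_enI (a : Fin 3) (L : ℕ) : nrm (enI a L L) = 3 * (L : ℤ) ^ 2 := by
  unfold enI nrm
  match a with
  | 0 => simp only; ring
  | 1 => simp only; ring
  | 2 => simp only; ring

lemma blNorm_JJ {v : Pt} {K : ℕ} (h : (K : ℤ) ^ 2 ≤ nrm v) : (K : ℝ) ≤ ‖JJ v‖ := by
  have h1 : ((K : ℤ) ^ 2 : ℤ) ≤ nrm v := h
  have h2 : ((K : ℝ)) ^ 2 ≤ ‖JJ v‖ ^ 2 := by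
    rw [NTF.JJ_norm]
    exact_mod_cast h1
  exact le_of_sq_le_sq h2 (norm_nonneg _)

/-- the explicit paths are `PathB` for every mesh -/
lemma picE_pathB {a : Fin 3} {K M L1 L2 n : ℕ} {E : ℕ → Pt} (h : PicE a K M L1 L2 n E) (hK : 2 ≤ K) (D : ℤ) (hD : 0 ≤ D) :
    PathB E D n K K (D * (K : ℝ)) (D * (K : ℝ)) := by
  have hD' : (0 : ℝ) ≤ D := by exact_mod_cast hD
  have key : ∀ v : Pt, ‖JJ (D • v)‖ = D * ‖JJ v‖ := by
    intro v
    rw [JJ_smul, norm_mul, Complex.norm_intCast, abs_of_nonneg hD']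
  have hle := h.le
  refine ⟨h.ip, by omega, by omega, by omega, h.fst, h.lst, fun i h1 h2 => ?_, fun i h1 => ?_⟩
  · unfold HexObs.AR.pv
    rw [key]
    exact mul_le_mul_of_nonneg_left (blNorm_JJ (h.far0 i h1 h2)) hD'
  · unfold HexObs.AR.pv
    rw [← smul_sub, key]
    exact mul_le_mul_of_nonneg_left (blNorm_JJ (h.far1 i h1)) hD'

lemma picE_end {a : Fin 3} {K M L n : ℕ} {E : ℕ → Pt} (h : PicE a K M L L n E) :
    ‖JJ (HexObs.AR.ps E n)‖ = Real.sqrt 3 * L := by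
  have h1 : ‖JJ (HexObs.AR.ps E n)‖ ^ 2 = (Real.sqrt 3 * L) ^ 2 := by
    rw [NTF.JJ_norm, h.en, blNrm_enI, mul_pow, Real.sq_sqrt (by norm_num)]
    push_cast
    ring
  have h2 : 0 ≤ Real.sqrt 3 * (L : ℝ) := by positivity
  exact (sq_eq_sq₀ (norm_nonneg _) h2).1 h1

/-! ### 3. The masses -/

lemma blRsQ_mono {d d' : ℂ} {P Q : Tp} {W W' : Wn} {S T : ℝ} {R : W3} (h : RsQ d d' P Q W S T R) (hS : 0 ≤ S) (hT : 0 ≤ T)
    (h1 : W'.D0 ≤ W.D0) (h2 : W.D1 ≤ W'.D1) (h3 : W'.t0 ≤ W.t0) (h4 : W.t1 ≤ W'.t1) : RsQ d d' P Q W' S T R :=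
  ⟨h.ev, h.sw, h.s, h.e, (mul_le_mul_of_nonneg_right h1 hS).trans h.far, h.near.trans (mul_le_mul_of_nonneg_right h2 hS),
    (mul_le_mul_of_nonneg_right h3 hT).trans h.lo, h.hi.trans (mul_le_mul_of_nonneg_right h4 hT)⟩

/-- **lower bound of the mass of the main arcs** -/
theorem beta_man {P Q : Tp} {sr sr' : Sr} {R D0 D1 t1 : ℝ} (hPc : P.c ≤ 1) (hQc : Q.c ≤ 1) (hP0 : 0 ≤ P.r0) (hQ0 : 0 ≤ Q.r0)
    (hPκ : 0 < P.κ) (hQκ : 0 < Q.κ) (hR : 0 < R) (hPr : P.r0 ≤ R) (hPg : P.rg ≤ R) (hQr : Q.r0 ≤ R) (hQg : Q.rg ≤ R)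
    (he : 0 < sr.e) (hw : 0 < sr.hw) (hb : 0 < sr.bn) (hl : 2 * sr.bn ≤ sr.len) (hbR : sr.bn ≤ R)
    (he' : 0 < sr'.e) (hw' : 0 < sr'.hw) (hb' : 0 < sr'.bn) (hl' : 2 * sr'.bn ≤ sr'.len) (hbR' : sr'.bn ≤ R)
    (h0 : 4 * R ≤ D0) (h1 : D0 < D1) (ht1 : 0 < t1) (a : Fin 3) :
    ∃ ts c S0 : ℝ, 0 < ts ∧ 0 < c ∧ ∀ W : Wn, W.D0 ≤ D0 → D1 ≤ W.D1 → W.t0 ≤ ts → t1 ≤ W.t1 → ∀ S : ℝ, S0 ≤ S →
      ENNReal.ofReal (c * S ^ (3 / 4 : ℝ)) ≤ ms (Man (ev a) (ev (-a)) P Q W sr sr' S (S ^ (4 / 3 : ℝ))) 1 := by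
  obtain ⟨m, hm0, m1, m2, m3, m4, m5, m6, m7, m8, m9, m10⟩ : ∃ m : ℝ, 0 < m ∧ m ≤ P.κ ∧ m ≤ Q.κ ∧ m ≤ 1 ∧ m ≤ t1 ∧ m ≤ sr.e ∧
      m ≤ sr.hw ∧ m ≤ sr'.e ∧ m ≤ sr'.hw ∧ 3 * m ≤ sr.bn ∧ 3 * m ≤ sr'.bn := by
    refine ⟨min (min (min P.κ Q.κ) (min 1 t1)) (min (min (min sr.e sr.hw) (min sr'.e sr'.hw)) (min (sr.bn / 3) (sr'.bn / 3))),
      by positivity, ?_, ?_, ?_, ?_, ?_, ?_, ?_, ?_, ?_, ?_⟩
    · exact (min_le_left _ _).trans ((min_le_left _ _).trans (min_le_left _ _))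
    · exact (min_le_left _ _).trans ((min_le_left _ _).trans (min_le_right _ _))
    · exact (min_le_left _ _).trans ((min_le_right _ _).trans (min_le_left _ _))
    · exact (min_le_left _ _).trans ((min_le_right _ _).trans (min_le_right _ _))
    · exact (min_le_right _ _).trans ((min_le_left _ _).trans ((min_le_left _ _).trans (min_le_left _ _)))
    · exact (min_le_right _ _).trans ((min_le_left _ _).trans ((min_le_left _ _).trans (min_le_right _ _)))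
    · exact (min_le_right _ _).trans ((min_le_left _ _).trans ((min_le_right _ _).trans (min_le_left _ _)))
    · exact (min_le_right _ _).trans ((min_le_left _ _).trans ((min_le_right _ _).trans (min_le_right _ _)))
    · have := (min_le_right (min (min P.κ Q.κ) (min 1 t1)) (min (min (min sr.e sr.hw) (min sr'.e sr'.hw))
        (min (sr.bn / 3) (sr'.bn / 3)))).trans ((min_le_right _ _).trans (min_le_left _ _))
      linarith
    · have := (min_le_right (min (min P.κ Q.κ) (min 1 t1)) (min (min (min sr.e sr.hw) (min sr'.e sr'.hw))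
        (min (sr.bn / 3) (sr'.bn / 3)))).trans ((min_le_right _ _).trans (min_le_right _ _))
      linarith
  obtain ⟨μ, K, L, hμ, hμm, hK, hKL, hRK, hD0, hD1⟩ := blMesh hR h0 h1 hm0
  obtain ⟨p, hp1, hp2, hp3, hp4⟩ := blStrip hb hμ (by linarith) hl
  obtain ⟨q, hq1, hq2, hq3, hq4⟩ := blStrip hb' hμ (by linarith) hl'
  have hpK : p + 1 ≤ K := by
    have h3 : (p : ℝ) + 1 ≤ K := by
      by_contra h4
      push Not at h4
      have := mul_lt_mul_of_pos_left h4 hμ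
      linarith
    exact_mod_cast h3
  have hqK : q + 1 ≤ K := by
    have h3 : (q : ℝ) + 1 ≤ K := by
      by_contra h4
      push Not at h4
      have := mul_lt_mul_of_pos_left h4 hμ
      linarith
    exact_mod_cast h3
  obtain ⟨n, E, hE⟩ := pic a (K := K) (M := K) (L1 := L) (L2 := L) hK le_rfl hKL hKL (by omega)
  obtain ⟨H, hH, hT⟩ := HexObs.ART.TO.tube3d
  obtain ⟨c, k0, hc, hT⟩ := hT H le_rfl n
  have hH1 : 1 ≤ H := le_trans (by norm_num) hH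
  obtain ⟨α, A, s1, hα, -, hs1, hsc⟩ := scale_low (H := H) (k0 := k0) hH1 hμ
  have hle := hE.le
  have hen := picE_end hE
  have hHr : (0 : ℝ) < H := by exact_mod_cast hH1
  obtain ⟨W0, hW0⟩ : ∃ W0 : Wn, W0 = ⟨D0, D1, (μ / (37 * H)) ^ (4 / 3 : ℝ), t1⟩ := ⟨_, rfl⟩
  obtain ⟨S1, hS1⟩ := scale_Man (P := P) (Q := Q) (W := W0) (sr := sr) (sr' := sr') (p := p) (q := q) (n := n) (s := K)
    (s' := K) (ρ0 := K) (ρ1 := K) (H := H) (fun D hD => picE_pathB hE hK D hD) hE.cl hμ hH hPc hQc hP0 hQ0 (by linarith)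
    (by linarith) (by linarith) (by linarith) (by linarith) (by linarith) (by rw [hW0, hen]; exact hD0)
    (by rw [hW0, hen]; exact hD1) (by rw [hW0]) (by linarith) (by rw [hW0]; exact hμm.trans m4) (by omega) (by omega)
    (by linarith) hp3 (by linarith) hp2 (by linarith) (by linarith) hq3 (by linarith) hq2 (by linarith)
  have hxc : 0 < HexObs.xc := HexObs.xc_pos
  refine ⟨(μ / (37 * H)) ^ (4 / 3 : ℝ), HexObs.xc * (c * α), max s1 S1, by positivity, by positivity,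
    fun W g1 g2 g3 g4 S hS => ?_⟩
  have hS1' : S1 ≤ S := (le_max_right _ _).trans hS
  have hs1' : s1 ≤ S := (le_max_left _ _).trans hS
  have hS0 : 0 ≤ S := by linarith
  have hT0 : 0 ≤ S ^ (4 / 3 : ℝ) := Real.rpow_nonneg hS0 _
  obtain ⟨k, hk0, hk1, hk2, -, -, hk5, -, -⟩ := hsc S hs1' _ rfl
  obtain ⟨D, hD⟩ : ∃ D : ℤ, D = ⌊μ * S⌋ := ⟨_, rfl⟩
  rw [← hD] at hk1 hk2
  have hmass := hT k n p q D E hk0 (by exact_mod_cast hk1) (by exact_mod_cast hk2) hp1 hq1 (by omega) le_rfl hE.ip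
    (by rw [hE.fst p (by omega), hE.fst (p - 1) (by omega)])
    (by rw [hE.lst (n - q) (by omega) (by omega), hE.lst (n - q - 1) (by omega) (by omega)])
  have hsub : ∀ X ∈ {Q | TubeO E D (2 ^ (k + 10)) n p q (HexObs.TIW.en Q) Q ∧
      HexObs.TIW.hn (HexObs.TIW.en Q - HexObs.AR.pv E D n) ≤ 2 ^ k ∧ HexObs.ARM.ml k ≤ Q.length ∧
      (Q.length : ℝ) ≤ 9 * HexObs.ARM.ml k},
      wd a X ∈ Man (ev a) (ev (-a)) P Q W sr sr' S (S ^ (4 / 3 : ℝ)) := by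
    rintro X ⟨x1, x2, x3, x4⟩
    have y1 := hS1 S hS1' k D hD hk1 hk2 _ X x1 (x2.trans (pow_le_pow_right₀ (by norm_num) (by omega))) x3 x4 a
    rw [hE.aa] at y1
    refine ⟨blRsQ_mono y1.q hS0 hT0 ?_ ?_ ?_ ?_, y1.np, y1.nq⟩
    · rw [hW0]; exact g1
    · rw [hW0]; exact g2
    · rw [hW0]; exact g3
    · rw [hW0]; exact g4
  refine le_trans ?_ (ms_wd a (f := 1) hsub fun t _ => le_rfl)
  refine le_trans ?_ (mul_le_mul' le_rfl hmass)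
  rw [← ENNReal.ofReal_mul hxc.le]
  refine ENNReal.ofReal_le_ofReal ?_
  have := mul_le_mul_of_nonneg_left hk5 hc.le
  have := mul_le_mul_of_nonneg_left this hxc.le
  linarith

/-- **lower bound of the mass of the rests** -/
theorem beta_rst {P Q : Tp} {R D0 D1 t1 : ℝ} (hPc : P.c ≤ 1) (hQc : Q.c ≤ 1) (hP0 : 0 ≤ P.r0) (hQ0 : 0 ≤ Q.r0)
    (hPκ : 0 < P.κ) (hQκ : 0 < Q.κ) (hR : 0 < R) (hPr : P.r0 ≤ R) (hPg : P.rg ≤ R) (hQr : Q.r0 ≤ R) (hQg : Q.rg ≤ R)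
    (h0 : 4 * R ≤ D0) (h1 : D0 < D1) (ht1 : 0 < t1) (a : Fin 3) :
    ∃ ts c S0 : ℝ, 0 < ts ∧ 0 < c ∧ ∀ W : Wn, W.D0 ≤ D0 → D1 ≤ W.D1 → W.t0 ≤ ts → t1 ≤ W.t1 → ∀ S : ℝ, S0 ≤ S →
      ENNReal.ofReal (c * S ^ (3 / 4 : ℝ)) ≤ ms (Rst (ev a) (ev (-a)) P Q W S (S ^ (4 / 3 : ℝ))) 1 := by
  obtain ⟨ts, c, S0, h3, h4, h5⟩ := beta_man (P := P) (Q := Q) (sr := ⟨1, 1, 2 * R, R⟩) (sr' := ⟨1, 1, 2 * R, R⟩) hPc hQc hP0
    hQ0 hPκ hQκ hR hPr hPg hQr hQg one_pos one_pos hR le_rfl le_rfl one_pos one_pos hR le_rfl le_rfl h0 h1 ht1 a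
  refine ⟨ts, c, S0, h3, h4, fun W g1 g2 g3 g4 S hS => (h5 W g1 g2 g3 g4 S hS).trans ?_⟩
  classical
  unfold ms
  refine ENNReal.tsum_le_tsum fun w => ?_
  by_cases hw : w ∈ Man (ev a) (ev (-a)) P Q W ⟨1, 1, 2 * R, R⟩ ⟨1, 1, 2 * R, R⟩ S (S ^ (4 / 3 : ℝ))
  · rw [if_pos hw, if_pos (show w ∈ Rst (ev a) (ev (-a)) P Q W S (S ^ (4 / 3 : ℝ)) from hw.q)]
  · rw [if_neg hw]
    exact bot_le

/-! ### 4. The classes of `Prm` -/

section prm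

variable {P : Prm}

private lemma pk (h : P.Ok) : P.p.k ≤ P.p.f.r0 ∧ P.q.k ≤ P.q.f.r0 ∧ 0 < P.p.k ∧ 0 < P.q.k := by
  have a1 := h.p.ball
  have a2 := h.q.ball
  have a3 := h.p.f.r0
  have a4 := h.q.f.r0
  have a5 := h.p.f.κ
  have a6 := h.q.f.κ
  have a7 := h.p.n.r
  have a8 := h.q.n.r
  have a9 := h.p.n.r2
  have b1 := h.q.n.r2
  have b2 := h.p.f.r
  have b3 := h.q.f.r
  have b4 := h.p.f.r2
  have b5 := h.q.f.r2
  have b6 := h.p.rk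
  have b7 := h.q.rk
  unfold En.k
  exact ⟨by linarith, by linarith, by linarith, by linarith⟩

private lemma pr (h : P.Ok) : 0 < P.p.f.r0 ∧ 0 < P.q.f.r0 ∧ 4 * P.p.f.r0 ≤ P.p.s.bn ∧ 4 * P.q.f.r0 ≤ P.q.s.bn ∧
    P.p.n.r0 ≤ P.p.f.r0 ∧ P.q.n.r0 ≤ P.q.f.r0 ∧ 0 ≤ P.p.n.r0 ∧ 0 ≤ P.q.n.r0 := by
  obtain ⟨k1, k2, k3, k4⟩ := pk h
  have a1 := h.p.r0
  have a2 := h.q.r0
  have a5 := h.p.f.κ
  have a6 := h.q.f.κ
  have c1 := h.p.n.r0
  have c2 := h.q.n.r0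
  have c3 := h.p.n.r
  have c4 := h.q.n.r
  have c5 := h.p.n.r2
  have c6 := h.q.n.r2
  have c7 := h.p.n.κ
  have c8 := h.q.n.κ
  exact ⟨by linarith, by linarith, h.p.bn, h.q.bn, by linarith, by linarith, by linarith, by linarith⟩

/-- **lower bound, companions**: arcs and rests -/
theorem beta_Ac (h : P.Ok) (i : Fin 3) : ∃ c : ℝ, 0 < c ∧ ∀ᶠ N : ℕ in Filter.atTop,
    ENNReal.ofReal (c * (N : ℝ) ^ (3 / 4 : ℝ)) ≤ ms (P.Ac i N) 1 ∧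
    ENNReal.ofReal (c * (N : ℝ) ^ (3 / 4 : ℝ)) ≤ ms (P.R0 i P.Wc N) 1 := by
  obtain ⟨k1, k2, k3, k4⟩ := pk h
  obtain ⟨r1, r2, r3, r4, r5, r6, r7, r8⟩ := pr h
  have l1 := h.p.len
  have l2 := h.q.len
  have l3 := h.nrc
  have g1 := h.p.f.rr
  have g2 := h.q.f.rr
  have g3 := h.p.n.rr
  have g4 := h.q.n.rr
  have l4 := h.Dc
  have l5 := h.Dc'
  have l6 := h.D
  have e1 := h.p.lk
  have e2 := h.q.lk
  obtain ⟨R, hR⟩ : ∃ R : ℝ, R = P.p.f.r0 + P.q.f.r0 := ⟨_, rfl⟩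
  have c1 := h.p.f.c1
  have c2 := h.q.f.c1
  have c3 := h.p.n.c1
  have c4 := h.q.n.c1
  obtain ⟨ts, c, S0, x1, x2, x3⟩ := beta_rst (P := P.p.f) (Q := P.q.f) (R := R) (D0 := P.Wc.D0) (D1 := P.Wc.D1) (t1 := P.Wc.t1)
    (by linarith) (by linarith) r1.le r2.le h.p.f.κ h.q.f.κ (by linarith) (by linarith) (by linarith) (by linarith)
    (by linarith) (by linarith) (by linarith) h.t1c i
  obtain ⟨ts', c', S0', y1, y2, y3⟩ := beta_rst (P := P.p.n) (Q := P.q.n) (R := R) (D0 := P.Wc.D0 - (P.p.k + P.q.k))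
    (D1 := P.Wc.D1 + (P.p.k + P.q.k)) (t1 := P.Wc.t1)
    (by linarith) (by linarith) r7 r8 h.p.n.κ h.q.n.κ (by linarith) (by linarith) (by linarith) (by linarith)
    (by linarith) (by linarith) (by linarith) h.t1c i
  refine ⟨min c c', lt_min x2 y2, ?_⟩
  filter_upwards [Filter.tendsto_atTop.1 tendsto_natCast_atTop_atTop (max S0 S0')] with N hN
  have hN4 : (0 : ℝ) ≤ (N : ℝ) ^ (3 / 4 : ℝ) := Real.rpow_nonneg (Nat.cast_nonneg N) _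
  refine ⟨?_, ?_⟩
  · refine (ENNReal.ofReal_le_ofReal (mul_le_mul_of_nonneg_right (min_le_left _ _) hN4)).trans ?_
    exact x3 P.Wc le_rfl le_rfl (by rw [h.t0c]; exact x1.le) le_rfl N ((le_max_left _ _).trans hN)
  · refine (ENNReal.ofReal_le_ofReal (mul_le_mul_of_nonneg_right (min_le_right _ _) hN4)).trans ?_
    exact y3 (P.wd P.Wc) le_rfl le_rfl (by show P.Wc.t0 ≤ ts'; rw [h.t0c]; exact y1.le)
      (by show P.Wc.t1 ≤ P.Wc.t1 + (P.p.lk + P.q.lk); linarith) N ((le_max_right _ _).trans hN)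

/-- **lower bound, main arcs and main rests**: `W.t0` below a number which depends on the other data only -/
theorem beta_A0 (p q : En) (D0 D1 t1 : ℝ) : ∃ ts : ℝ, 0 < ts ∧ ∀ P : Prm, P.Ok → P.p = p → P.q = q → P.W.D0 = D0 → P.W.D1 = D1 →
    P.W.t1 = t1 → P.W.t0 ≤ ts → ∃ c : ℝ, 0 < c ∧ ∀ᶠ N : ℕ in Filter.atTop,
    ENNReal.ofReal (c * (N : ℝ) ^ (3 / 4 : ℝ)) ≤ ms (P.A0 N) 1 ∧
    ENNReal.ofReal (c * (N : ℝ) ^ (3 / 4 : ℝ)) ≤ ms (P.R0 0 P.W N) 1 := by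
  by_cases hP : ∃ P : Prm, P.Ok ∧ P.p = p ∧ P.q = q ∧ P.W.D0 = D0 ∧ P.W.D1 = D1 ∧ P.W.t1 = t1
  swap
  · exact ⟨1, one_pos, fun P h1 h2 h3 h4 h5 h6 _ => absurd ⟨P, h1, h2, h3, h4, h5, h6⟩ hP⟩
  obtain ⟨P, h, rfl, rfl, rfl, rfl, rfl⟩ := hP
  obtain ⟨k1, k2, k3, k4⟩ := pk h
  obtain ⟨r1, r2, r3, r4, r5, r6, r7, r8⟩ := pr h
  have l1 := h.p.len
  have l2 := h.q.len
  have l3 := h.nr
  have g1 := h.p.f.rr
  have g2 := h.q.f.rr
  have g3 := h.p.n.rr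
  have g4 := h.q.n.rr
  have l6 := h.D
  have e1 := h.p.lk
  have e2 := h.q.lk
  have e3 := h.t0
  have e4 := h.t1
  obtain ⟨R, hR⟩ : ∃ R : ℝ, R = P.p.s.bn + P.q.s.bn := ⟨_, rfl⟩
  have c1 := h.p.f.c1
  have c2 := h.q.f.c1
  have c3 := h.p.n.c1
  have c4 := h.q.n.c1
  obtain ⟨ts, c, S0, x1, x2, x3⟩ := beta_man (P := P.p.f) (Q := P.q.f) (sr := P.p.s) (sr' := P.q.s) (R := R) (D0 := P.W.D0)
    (D1 := P.W.D1) (t1 := P.W.t1)
    (by linarith) (by linarith) r1.le r2.le h.p.f.κ h.q.f.κ (by linarith) (by linarith) (by linarith) (by linarith)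
    (by linarith) h.p.se h.p.hw (by linarith) l1 (by linarith) h.q.se h.q.hw (by linarith) l2 (by linarith)
    (by linarith) (by linarith) (by linarith) 0
  obtain ⟨ts', c', S0', y1, y2, y3⟩ := beta_rst (P := P.p.n) (Q := P.q.n) (R := R) (D0 := P.W.D0 - (P.p.k + P.q.k))
    (D1 := P.W.D1 + (P.p.k + P.q.k)) (t1 := P.W.t1)
    (by linarith) (by linarith) r7 r8 h.p.n.κ h.q.n.κ (by linarith) (by linarith) (by linarith) (by linarith)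
    (by linarith) (by linarith) (by linarith) (by linarith) 0
  refine ⟨min ts ts', lt_min x1 y1, fun P' _ hp hq hD0 hD1 ht1 ht0 => ⟨min c c', lt_min x2 y2, ?_⟩⟩
  filter_upwards [Filter.tendsto_atTop.1 tendsto_natCast_atTop_atTop (max S0 S0')] with N hN
  have hN4 : (0 : ℝ) ≤ (N : ℝ) ^ (3 / 4 : ℝ) := Real.rpow_nonneg (Nat.cast_nonneg N) _
  refine ⟨?_, ?_⟩
  · refine (ENNReal.ofReal_le_ofReal (mul_le_mul_of_nonneg_right (min_le_left _ _) hN4)).trans ?_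
    have := x3 P'.W hD0.le hD1.ge (ht0.trans (min_le_left _ _)) ht1.ge N ((le_max_left _ _).trans hN)
    rw [neg_zero, ← hp, ← hq] at this
    exact this
  · refine (ENNReal.ofReal_le_ofReal (mul_le_mul_of_nonneg_right (min_le_right _ _) hN4)).trans ?_
    have := y3 (P'.wd P'.W) (by show P'.W.D0 - (P'.p.k + P'.q.k) ≤ _; rw [hp, hq, hD0])
      (by show _ ≤ P'.W.D1 + (P'.p.k + P'.q.k); rw [hp, hq, hD1]) (ht0.trans (min_le_right _ _))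
      (by show _ ≤ P'.W.t1 + (P'.p.lk + P'.q.lk); rw [hp, hq, ht1]; linarith) N ((le_max_right _ _).trans hN)
    rw [← hp, ← hq] at this
    exact this

end prm

end Pool.Agent.ROT.F3
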