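import Pool.Agent.ROT.F3Cls

/-!
# ROT / F3Prm22 (helper22): an explicit family of data for the classes of F3Cls

`Wi b a` : `a` is in the window `[b, 1.01 * b]`. `bN ρ τ`, `bF ρ τ`, `bE ρ τ` : base data at the scale `ρ` (lengths of pieces
in units `τ`). `Tp.Nr`, `En.Nr` : every field is in the window of the base field (all fields are free there;
`kc` is in the window `f.l + f.m + [kr / 4, kr / 2]`).
* **`En.Nr.ok`** : then `En.Ok ε` for `0 ≤ ε ≤ 1 / 100000000`;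
* **`prm_ok`** : `Prm.Ok` for all windows `W`, `Wc` with `W.D0` at least `K * (ρ + ρ')`.
-/

set_option autoImplicit false

namespace Pool.Agent.ROT.F3

/-- `a` is in the window `[b, 1.01 * b]` -/
def Wi (b a : ℝ) : Prop := b ≤ a ∧ a ≤ 101 / 100 * b

/-- base data of the native gate of the lattice 0 -/
noncomputable def bN (ρ τ : ℝ) : Tp where
  l := 1/2 * ρ
  r := 1 * ρ
  m := 81/10 * ρ
  th := 3/4
  r2 := 41/2 * ρ
  κ1 := 1/25 * ρ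
  rg := 1400 * ρ
  r0 := 1415 * ρ
  κ := 1/10 * ρ
  c := 16/25
  cs := 3/5
  e := 3/20 * ρ
  w := 2/5 * ρ
  κs := 3/100 * ρ
  la := 1 * τ
  lb := 1 * τ

/-- base data of the gate of the rotated lattice -/
noncomputable def bF (ρ τ : ℝ) : Tp where
  l := 60 * ρ
  r := 105 * ρ
  m := 11400 * ρ
  th := 3/4
  r2 := 28500 * ρ
  κ1 := 1 * ρ
  rg := 1900000 * ρ
  r0 := 1950000 * ρ
  κ := 9/100 * ρ
  c := 7/10
  cs := 11/20
  e := 6/5 * ρ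
  w := 40 * ρ
  κs := 1 * ρ
  la := 4 * τ
  lb := 2 * τ

/-- base data of the strip -/
noncomputable def bS (ρ : ℝ) : Sr where
  e := 1/20 * ρ
  hw := 1000 * ρ
  len := 60000000 * ρ
  bn := 8000000 * ρ

/-- base data of one end -/
noncomputable def bE (ρ τ : ℝ) : En where
  n := bN ρ τ
  f := bF ρ τ
  rk := 80 * ρ
  κk := 1/20 * ρ
  ek := 1/10 * ρ
  lk := 1 * τ
  kr := 1/100 * ρ
  kc := 11460003/1000 * ρ
  s := bS ρ

/-- every field of `P` is in the window of the field of `B` -/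
structure Tp.Nr (P B : Tp) : Prop where
  l : Wi B.l P.l
  r : Wi B.r P.r
  m : Wi B.m P.m
  th : Wi B.th P.th
  r2 : Wi B.r2 P.r2
  κ1 : Wi B.κ1 P.κ1
  rg : Wi B.rg P.rg
  r0 : Wi B.r0 P.r0
  κ : Wi B.κ P.κ
  c : Wi B.c P.c
  cs : Wi B.cs P.cs
  e : Wi B.e P.e
  w : Wi B.w P.w
  κs : Wi B.κs P.κs
  la : Wi B.la P.la
  lb : Wi B.lb P.lb

/-- every field of `P` is in the window of the field of `B` -/
structure Sr.Nr (P B : Sr) : Prop where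
  e : Wi B.e P.e
  hw : Wi B.hw P.hw
  len : Wi B.len P.len
  bn : Wi B.bn P.bn

/-- every field of `P` is in the window of the field of `B` -/
structure En.Nr (P B : En) : Prop where
  n : P.n.Nr B.n
  f : P.f.Nr B.f
  rk : Wi B.rk P.rk
  κk : Wi B.κk P.κk
  ek : Wi B.ek P.ek
  lk : Wi B.lk P.lk
  kr : Wi B.kr P.kr
  kc : P.f.l + P.f.m + P.kr / 4 ≤ P.kc ∧ P.kc ≤ P.f.l + P.f.m + P.kr / 2
  s : P.s.Nr B.s

/-- bN_ok -/
theorem bN_ok {P : Tp} {ρ τ : ℝ} (hρ : 0 < ρ) (hτ : 0 < τ) (h : P.Nr (bN ρ τ)) : P.Ok := by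
  have hl1 : 1/2 * ρ ≤ P.l := h.l.1
  have hl2 : P.l ≤ 101 / 100 * (1/2 * ρ) := h.l.2
  have hr1 : 1 * ρ ≤ P.r := h.r.1
  have hr2 : P.r ≤ 101 / 100 * (1 * ρ) := h.r.2
  have hm1 : 81/10 * ρ ≤ P.m := h.m.1
  have hm2 : P.m ≤ 101 / 100 * (81/10 * ρ) := h.m.2
  have hth1 : 3/4 ≤ P.th := h.th.1
  have hth2 : P.th ≤ 101 / 100 * (3/4) := h.th.2
  have hr21 : 41/2 * ρ ≤ P.r2 := h.r2.1
  have hr22 : P.r2 ≤ 101 / 100 * (41/2 * ρ) := h.r2.2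
  have hκ11 : 1/25 * ρ ≤ P.κ1 := h.κ1.1
  have hκ12 : P.κ1 ≤ 101 / 100 * (1/25 * ρ) := h.κ1.2
  have hrg1 : 1400 * ρ ≤ P.rg := h.rg.1
  have hrg2 : P.rg ≤ 101 / 100 * (1400 * ρ) := h.rg.2
  have hr01 : 1415 * ρ ≤ P.r0 := h.r0.1
  have hr02 : P.r0 ≤ 101 / 100 * (1415 * ρ) := h.r0.2
  have hκ1 : 1/10 * ρ ≤ P.κ := h.κ.1
  have hκ2 : P.κ ≤ 101 / 100 * (1/10 * ρ) := h.κ.2
  have hc1 : 16/25 ≤ P.c := h.c.1
  have hc2 : P.c ≤ 101 / 100 * (16/25) := h.c.2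
  have hcs1 : 3/5 ≤ P.cs := h.cs.1
  have hcs2 : P.cs ≤ 101 / 100 * (3/5) := h.cs.2
  have he1 : 3/20 * ρ ≤ P.e := h.e.1
  have he2 : P.e ≤ 101 / 100 * (3/20 * ρ) := h.e.2
  have hw1 : 2/5 * ρ ≤ P.w := h.w.1
  have hw2 : P.w ≤ 101 / 100 * (2/5 * ρ) := h.w.2
  have hκs1 : 3/100 * ρ ≤ P.κs := h.κs.1
  have hκs2 : P.κs ≤ 101 / 100 * (3/100 * ρ) := h.κs.2
  have hla1 : 1 * τ ≤ P.la := h.la.1
  have hla2 : P.la ≤ 101 / 100 * (1 * τ) := h.la.2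
  have hlb1 : 1 * τ ≤ P.lb := h.lb.1
  have hlb2 : P.lb ≤ 101 / 100 * (1 * τ) := h.lb.2
  have hp : (3/5 - 1 / 2) * (2/5 * ρ) ≤ (P.cs - 1 / 2) * P.w :=
    mul_le_mul (by linarith) (by linarith) (by positivity) (by linarith)
  have hq : (3/4) * (81/10 * ρ) ≤ P.th * P.m :=
    mul_le_mul (by linarith) (by linarith) (by positivity) (by linarith)
  have hs : (1 - 101 / 100 * (3/5)) * (1/2 * ρ) ≤ (1 - P.cs) * P.l :=
    mul_le_mul (by linarith) (by linarith) (by positivity) (by linarith)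
  constructor <;> linarith

/-- bF_ok -/
theorem bF_ok {P : Tp} {ρ τ : ℝ} (hρ : 0 < ρ) (hτ : 0 < τ) (h : P.Nr (bF ρ τ)) : P.Ok := by
  have hl1 : 60 * ρ ≤ P.l := h.l.1
  have hl2 : P.l ≤ 101 / 100 * (60 * ρ) := h.l.2
  have hr1 : 105 * ρ ≤ P.r := h.r.1
  have hr2 : P.r ≤ 101 / 100 * (105 * ρ) := h.r.2
  have hm1 : 11400 * ρ ≤ P.m := h.m.1
  have hm2 : P.m ≤ 101 / 100 * (11400 * ρ) := h.m.2
  have hth1 : 3/4 ≤ P.th := h.th.1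
  have hth2 : P.th ≤ 101 / 100 * (3/4) := h.th.2
  have hr21 : 28500 * ρ ≤ P.r2 := h.r2.1
  have hr22 : P.r2 ≤ 101 / 100 * (28500 * ρ) := h.r2.2
  have hκ11 : 1 * ρ ≤ P.κ1 := h.κ1.1
  have hκ12 : P.κ1 ≤ 101 / 100 * (1 * ρ) := h.κ1.2
  have hrg1 : 1900000 * ρ ≤ P.rg := h.rg.1
  have hrg2 : P.rg ≤ 101 / 100 * (1900000 * ρ) := h.rg.2
  have hr01 : 1950000 * ρ ≤ P.r0 := h.r0.1
  have hr02 : P.r0 ≤ 101 / 100 * (1950000 * ρ) := h.r0.2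
  have hκ1 : 9/100 * ρ ≤ P.κ := h.κ.1
  have hκ2 : P.κ ≤ 101 / 100 * (9/100 * ρ) := h.κ.2
  have hc1 : 7/10 ≤ P.c := h.c.1
  have hc2 : P.c ≤ 101 / 100 * (7/10) := h.c.2
  have hcs1 : 11/20 ≤ P.cs := h.cs.1
  have hcs2 : P.cs ≤ 101 / 100 * (11/20) := h.cs.2
  have he1 : 6/5 * ρ ≤ P.e := h.e.1
  have he2 : P.e ≤ 101 / 100 * (6/5 * ρ) := h.e.2
  have hw1 : 40 * ρ ≤ P.w := h.w.1
  have hw2 : P.w ≤ 101 / 100 * (40 * ρ) := h.w.2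
  have hκs1 : 1 * ρ ≤ P.κs := h.κs.1
  have hκs2 : P.κs ≤ 101 / 100 * (1 * ρ) := h.κs.2
  have hla1 : 4 * τ ≤ P.la := h.la.1
  have hla2 : P.la ≤ 101 / 100 * (4 * τ) := h.la.2
  have hlb1 : 2 * τ ≤ P.lb := h.lb.1
  have hlb2 : P.lb ≤ 101 / 100 * (2 * τ) := h.lb.2
  have hp : (11/20 - 1 / 2) * (40 * ρ) ≤ (P.cs - 1 / 2) * P.w :=
    mul_le_mul (by linarith) (by linarith) (by positivity) (by linarith)
  have hq : (3/4) * (11400 * ρ) ≤ P.th * P.m :=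
    mul_le_mul (by linarith) (by linarith) (by positivity) (by linarith)
  have hs : (1 - 101 / 100 * (11/20)) * (60 * ρ) ≤ (1 - P.cs) * P.l :=
    mul_le_mul (by linarith) (by linarith) (by positivity) (by linarith)
  constructor <;> linarith

/-- **`En.Ok` in the whole window** -/
theorem En.Nr.ok {E : En} {ρ τ ε : ℝ} (hρ : 0 < ρ) (hτ : 0 < τ) (h0 : 0 ≤ ε) (h1 : ε ≤ 1 / 100000000) (h : E.Nr (bE ρ τ)) :
    E.Ok ε := by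
  have hn := bN_ok hρ hτ h.n
  have hf := bF_ok hρ hτ h.f
  have nl1 : 1/2 * ρ ≤ E.n.l := h.n.l.1
  have nl2 : E.n.l ≤ 101 / 100 * (1/2 * ρ) := h.n.l.2
  have nr1 : 1 * ρ ≤ E.n.r := h.n.r.1
  have nr2 : E.n.r ≤ 101 / 100 * (1 * ρ) := h.n.r.2
  have nm1 : 81/10 * ρ ≤ E.n.m := h.n.m.1
  have nm2 : E.n.m ≤ 101 / 100 * (81/10 * ρ) := h.n.m.2
  have nth1 : 3/4 ≤ E.n.th := h.n.th.1
  have nth2 : E.n.th ≤ 101 / 100 * (3/4) := h.n.th.2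
  have nr21 : 41/2 * ρ ≤ E.n.r2 := h.n.r2.1
  have nr22 : E.n.r2 ≤ 101 / 100 * (41/2 * ρ) := h.n.r2.2
  have nκ11 : 1/25 * ρ ≤ E.n.κ1 := h.n.κ1.1
  have nκ12 : E.n.κ1 ≤ 101 / 100 * (1/25 * ρ) := h.n.κ1.2
  have nrg1 : 1400 * ρ ≤ E.n.rg := h.n.rg.1
  have nrg2 : E.n.rg ≤ 101 / 100 * (1400 * ρ) := h.n.rg.2
  have nr01 : 1415 * ρ ≤ E.n.r0 := h.n.r0.1
  have nr02 : E.n.r0 ≤ 101 / 100 * (1415 * ρ) := h.n.r0.2
  have nκ1 : 1/10 * ρ ≤ E.n.κ := h.n.κ.1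
  have nκ2 : E.n.κ ≤ 101 / 100 * (1/10 * ρ) := h.n.κ.2
  have nc1 : 16/25 ≤ E.n.c := h.n.c.1
  have nc2 : E.n.c ≤ 101 / 100 * (16/25) := h.n.c.2
  have ncs1 : 3/5 ≤ E.n.cs := h.n.cs.1
  have ncs2 : E.n.cs ≤ 101 / 100 * (3/5) := h.n.cs.2
  have ne1 : 3/20 * ρ ≤ E.n.e := h.n.e.1
  have ne2 : E.n.e ≤ 101 / 100 * (3/20 * ρ) := h.n.e.2
  have nw1 : 2/5 * ρ ≤ E.n.w := h.n.w.1
  have nw2 : E.n.w ≤ 101 / 100 * (2/5 * ρ) := h.n.w.2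
  have nκs1 : 3/100 * ρ ≤ E.n.κs := h.n.κs.1
  have nκs2 : E.n.κs ≤ 101 / 100 * (3/100 * ρ) := h.n.κs.2
  have nla1 : 1 * τ ≤ E.n.la := h.n.la.1
  have nla2 : E.n.la ≤ 101 / 100 * (1 * τ) := h.n.la.2
  have nlb1 : 1 * τ ≤ E.n.lb := h.n.lb.1
  have nlb2 : E.n.lb ≤ 101 / 100 * (1 * τ) := h.n.lb.2
  have fl1 : 60 * ρ ≤ E.f.l := h.f.l.1
  have fl2 : E.f.l ≤ 101 / 100 * (60 * ρ) := h.f.l.2
  have fr1 : 105 * ρ ≤ E.f.r := h.f.r.1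
  have fr2 : E.f.r ≤ 101 / 100 * (105 * ρ) := h.f.r.2
  have fm1 : 11400 * ρ ≤ E.f.m := h.f.m.1
  have fm2 : E.f.m ≤ 101 / 100 * (11400 * ρ) := h.f.m.2
  have fth1 : 3/4 ≤ E.f.th := h.f.th.1
  have fth2 : E.f.th ≤ 101 / 100 * (3/4) := h.f.th.2
  have fr21 : 28500 * ρ ≤ E.f.r2 := h.f.r2.1
  have fr22 : E.f.r2 ≤ 101 / 100 * (28500 * ρ) := h.f.r2.2
  have fκ11 : 1 * ρ ≤ E.f.κ1 := h.f.κ1.1
  have fκ12 : E.f.κ1 ≤ 101 / 100 * (1 * ρ) := h.f.κ1.2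
  have frg1 : 1900000 * ρ ≤ E.f.rg := h.f.rg.1
  have frg2 : E.f.rg ≤ 101 / 100 * (1900000 * ρ) := h.f.rg.2
  have fr01 : 1950000 * ρ ≤ E.f.r0 := h.f.r0.1
  have fr02 : E.f.r0 ≤ 101 / 100 * (1950000 * ρ) := h.f.r0.2
  have fκ1 : 9/100 * ρ ≤ E.f.κ := h.f.κ.1
  have fκ2 : E.f.κ ≤ 101 / 100 * (9/100 * ρ) := h.f.κ.2
  have fc1 : 7/10 ≤ E.f.c := h.f.c.1
  have fc2 : E.f.c ≤ 101 / 100 * (7/10) := h.f.c.2
  have fcs1 : 11/20 ≤ E.f.cs := h.f.cs.1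
  have fcs2 : E.f.cs ≤ 101 / 100 * (11/20) := h.f.cs.2
  have fe1 : 6/5 * ρ ≤ E.f.e := h.f.e.1
  have fe2 : E.f.e ≤ 101 / 100 * (6/5 * ρ) := h.f.e.2
  have fw1 : 40 * ρ ≤ E.f.w := h.f.w.1
  have fw2 : E.f.w ≤ 101 / 100 * (40 * ρ) := h.f.w.2
  have fκs1 : 1 * ρ ≤ E.f.κs := h.f.κs.1
  have fκs2 : E.f.κs ≤ 101 / 100 * (1 * ρ) := h.f.κs.2
  have fla1 : 4 * τ ≤ E.f.la := h.f.la.1
  have fla2 : E.f.la ≤ 101 / 100 * (4 * τ) := h.f.la.2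
  have flb1 : 2 * τ ≤ E.f.lb := h.f.lb.1
  have flb2 : E.f.lb ≤ 101 / 100 * (2 * τ) := h.f.lb.2
  have erk1 : 80 * ρ ≤ E.rk := h.rk.1
  have erk2 : E.rk ≤ 101 / 100 * (80 * ρ) := h.rk.2
  have eκk1 : 1/20 * ρ ≤ E.κk := h.κk.1
  have eκk2 : E.κk ≤ 101 / 100 * (1/20 * ρ) := h.κk.2
  have eek1 : 1/10 * ρ ≤ E.ek := h.ek.1
  have eek2 : E.ek ≤ 101 / 100 * (1/10 * ρ) := h.ek.2
  have elk1 : 1 * τ ≤ E.lk := h.lk.1
  have elk2 : E.lk ≤ 101 / 100 * (1 * τ) := h.lk.2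
  have ekr1 : 1/100 * ρ ≤ E.kr := h.kr.1
  have ekr2 : E.kr ≤ 101 / 100 * (1/100 * ρ) := h.kr.2
  have se1 : 1/20 * ρ ≤ E.s.e := h.s.e.1
  have se2 : E.s.e ≤ 101 / 100 * (1/20 * ρ) := h.s.e.2
  have shw1 : 1000 * ρ ≤ E.s.hw := h.s.hw.1
  have shw2 : E.s.hw ≤ 101 / 100 * (1000 * ρ) := h.s.hw.2
  have slen1 : 60000000 * ρ ≤ E.s.len := h.s.len.1
  have slen2 : E.s.len ≤ 101 / 100 * (60000000 * ρ) := h.s.len.2
  have sbn1 : 8000000 * ρ ≤ E.s.bn := h.s.bn.1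
  have sbn2 : E.s.bn ≤ 101 / 100 * (8000000 * ρ) := h.s.bn.2
  have hk : E.k = E.rk + E.f.r2 := rfl
  have kc1 := h.kc.1
  have kc2 := h.kc.2
  have p1 : (2 / 50 - 1 / 1000000000) * (60 * ρ) ≤ (E.n.cs - ε - E.f.cs) * E.f.l :=
    mul_le_mul (by linarith) fl1 (by positivity) (by linarith)
  have p2 : ε * E.k ≤ 1 / 100000000 * (101 / 100 * (80 * ρ + 28500 * ρ)) :=
    mul_le_mul h1 (by rw [hk]; linarith) (by rw [hk]; linarith) (by norm_num)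
  have p3 : ε * (2 * (E.n.r + E.n.r2)) ≤ 1 / 100000000 * (2 * (101 / 100 * (1 * ρ + 41/2 * ρ))) :=
    mul_le_mul h1 (by linarith) (by linarith) (by norm_num)
  have p4 : E.kc * ε ≤ 12000 * ρ * (1 / 100000000) := mul_le_mul (by linarith) h1 h0 (by positivity)
  exact
    { n := hn
      f := hf
      nlr := by linarith
      rk := by linarith
      rkl := by linarith
      kr := by linarith
      kr' := by linarith
      kc := by linarith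
      kc' := by rw [hk]; linarith
      kcε := by linarith
      κk0 := by linarith
      κk := by linarith
      ek := by linarith
      lk := by linarith
      ball := by linarith
      w := by linarith
      c := by linarith
      κ := by linarith
      r0 := by rw [hk]; linarith
      cs := by linarith
      ec := by linarith
      rt := by linarith
      loc := by linarith
      loca := by linarith
      locb := by linarith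
      locc := by linarith
      la := by linarith
      lb := by linarith
      se := by linarith
      se' := by linarith
      se'' := by linarith
      hw := by linarith
      hw' := by linarith
      bn := by linarith
      len := by linarith
    }

/-- **`Prm.Ok`**: two ends at the scales `ρ`, `ρ'`, windows with displacements much larger than the scales -/
theorem prm_ok {P : Prm} {ρ τ ρ' τ' : ℝ} (hρ : 0 < ρ) (hτ : 0 < τ) (hρ' : 0 < ρ') (hτ' : 0 < τ') (hu : ‖P.u‖ = 1)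
    (h1 : ‖P.u - 1‖ ≤ 1 / 100000000) (hp : P.p.Nr (bE ρ τ)) (hq : P.q.Nr (bE ρ' τ')) (hD0 : 2000000000 * (ρ + ρ') ≤ P.W.D0)
    (hD : P.W.D0 < P.W.D1) (hc0 : 1000000000 * (ρ + ρ') ≤ P.Wc.D0) (hc : P.Wc.D0 ≤ P.W.D0 - 20000000 * (ρ + ρ'))
    (hc1 : P.W.D1 + 20000000 * (ρ + ρ') ≤ P.Wc.D1) (ht0 : 0 < P.W.t0) (ht : P.W.t0 < P.W.t1) (hs0 : P.Wc.t0 = 0)
    (hs : 0 < P.Wc.t1) : P.Ok := by
  have e1 : P.p.k = P.p.rk + P.p.f.r2 := rfl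
  have e2 : P.q.k = P.q.rk + P.q.f.r2 := rfl
  have pr1 : 105 * ρ ≤ P.p.f.r := hp.f.r.1
  have pr2 : P.p.f.r ≤ 101 / 100 * (105 * ρ) := hp.f.r.2
  have pr21 : 28500 * ρ ≤ P.p.f.r2 := hp.f.r2.1
  have pr22 : P.p.f.r2 ≤ 101 / 100 * (28500 * ρ) := hp.f.r2.2
  have pr01 : 1950000 * ρ ≤ P.p.f.r0 := hp.f.r0.1
  have pr02 : P.p.f.r0 ≤ 101 / 100 * (1950000 * ρ) := hp.f.r0.2
  have prk1 : 80 * ρ ≤ P.p.rk := hp.rk.1
  have prk2 : P.p.rk ≤ 101 / 100 * (80 * ρ) := hp.rk.2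
  have plen2 : P.p.s.len ≤ 101 / 100 * (60000000 * ρ) := hp.s.len.2
  have qr1 : 105 * ρ' ≤ P.q.f.r := hq.f.r.1
  have qr2 : P.q.f.r ≤ 101 / 100 * (105 * ρ') := hq.f.r.2
  have qr21 : 28500 * ρ' ≤ P.q.f.r2 := hq.f.r2.1
  have qr22 : P.q.f.r2 ≤ 101 / 100 * (28500 * ρ') := hq.f.r2.2
  have qr01 : 1950000 * ρ' ≤ P.q.f.r0 := hq.f.r0.1
  have qr02 : P.q.f.r0 ≤ 101 / 100 * (1950000 * ρ') := hq.f.r0.2
  have qrk1 : 80 * ρ' ≤ P.q.rk := hq.rk.1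
  have qrk2 : P.q.rk ≤ 101 / 100 * (80 * ρ') := hq.rk.2
  have qlen2 : P.q.s.len ≤ 101 / 100 * (60000000 * ρ') := hq.s.len.2
  exact
    { u := hu
      p := hp.ok hρ hτ (norm_nonneg _) h1
      q := hq.ok hρ' hτ' (norm_nonneg _) h1
      far := by rw [e1, e2]; linarith
      farc := by rw [e1, e2]; linarith
      nr := by linarith
      nrc := by linarith
      D := hD
      Dc := by linarith
      Dc' := by linarith
      t0 := ht0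
      t1 := ht
      t0c := hs0
      t1c := hs }

end Pool.Agent.ROT.F3
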