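import Pool.Agent.ROT.F3TopI
import Pool.Agent.ROT.F3BetaL
import Pool.Agent.ROT.F3Prm22

/-!
# ROT, F3 (B) (helper12): `RotW` from the rows, in the order of the constants

Units: the classes of F3Cls at the scale `Nm N` for the walks with about `N` steps; `NearP z ρ τ P` : both ends near the base data of
F3Prm22 at the scale `ρ`, unit `τ` of the numbers of letters.

* `LowRow` : the native gates, both lattices, even numbers of steps: shares at least `p1`;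
* `MixRow` : mixing of the native gates of the rotated lattice;
* `CoreRow L` : for generic data: product form, marks, shares of the foreign gates in the limit, and the locality `L`;
* `AppRow L` : the approximation of the foreign gates from the locality `L`;
* **`rotW_rows`** : the four rows give `RotW`.
-/

set_option autoImplicit false

open MeasureTheory Filter Topology Finset
open scoped ENNReal NNReal BoundedContinuousFunction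

namespace Pool.Agent.ROT.F3E

open Pool.Agent.NTS.Res Pool.Agent.CRT Pool.Agent.ROT.F3 Pool.Agent.ROT.F3.CC Pool.Agent.ROT.F3.Bt
open Pool.Agent.ROT.F (Nm nm_bd nm_ratio nm_top)

/-- both ends are near the base data at the scale `ρ`, unit `τ` of the numbers of letters -/
structure NearP (z : ℂ) (ρ τ : ℝ) (P : Prm) : Prop where
  u : P.u = z
  p : P.p.Nr (bE ρ τ)
  q : P.q.Nr (bE ρ τ)

/-- wide windows -/
structure WinP (k0 K1 : ℝ) (P : Prm) : Prop where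
  D0 : P.W.D0 ≤ k0
  D1 : K1 ≤ P.W.D1
  t0 : P.W.t0 ≤ k0
  t1 : K1 ≤ P.W.t1

lemma WinP.mono {k0 k0' K1 K1' : ℝ} {P : Prm} (h : WinP k0 K1 P) (h0 : k0 ≤ k0') (h1 : K1' ≤ K1) : WinP k0' K1' P :=
  ⟨h.D0.trans h0, h1.trans h.D1, h.t0.trans h0, h1.trans h.t1⟩

/-- the threshold of the rotated class at the end `p` (level of `x` over the tip) -/
noncomputable def yp (P : Prm) : ℝ := P.p.n.l + P.p.n.m

/-- the same at the end `q` -/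
noncomputable def yq (P : Prm) : ℝ := P.q.n.l + P.q.n.m

/-- **row LOW**: the native gates of both lattices, even numbers of steps -/
def LowRow : Prop := ∃ p1 k0 K1 : ℝ, 0 < p1 ∧ 0 < k0 ∧ 0 < K1 ∧ ∀ τ : ℝ, 0 < τ → τ ≤ 1 → ∃ ρ0 : ℝ, 0 < ρ0 ∧ ∀ ρ : ℝ, 0 < ρ → ρ ≤ ρ0 →
  ∀ (z : ℂ) (P : Prm) (h : P.Ok), NearP z ρ τ P → WinP k0 K1 P → ∀ᶠ N : ℕ in atTop, ∀ n : ℕ, Even n → (N : ℝ) / 2 ≤ n →
    (n : ℝ) ≤ 2 * N →
      p1 * (saw n).card ≤ ∑ s ∈ saw n, Gam ((P.W0 h (Nm N)).G N fun _ => 1) (List.ofFn s) ∧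
      p1 * (saw n).card ≤ ∑ s ∈ saw n, Gam ((P.WR h (yp P) (yq P) (Nm N)).G N fun _ => 1) (List.ofFn s)

/-- **row MIX**: the native gates of the rotated lattice and a Lipschitz function of the curve -/
def MixRow : Prop := ∀ F : CI → ℝ, LipschitzWith 1 F → (∀ γ, |F γ| ≤ 1) → ∀ e : ℝ, 0 < e → ∃ τ0 : ℝ, 0 < τ0 ∧
  ∀ τ : ℝ, 0 < τ → τ ≤ τ0 → ∃ ρ0 k0 K1 : ℝ, 0 < ρ0 ∧ 0 < k0 ∧ 0 < K1 ∧ ∀ ρ : ℝ, 0 < ρ → ρ ≤ ρ0 →
    ∀ (z : ℂ) (P : Prm) (h : P.Ok), NearP z ρ τ P → WinP k0 K1 P → ∀ᶠ N : ℕ in atTop, ∀ n : ℕ, (N : ℝ) / 2 ≤ n →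
      (n : ℝ) ≤ 2 * N → |∑ s ∈ saw n, Gam ((P.WR h (yp P) (yq P) (Nm N)).G N fun _ => 1) (List.ofFn s) * F (z • curve s) -
        (∑ s ∈ saw n, Gam ((P.WR h (yp P) (yq P) (Nm N)).G N fun _ => 1) (List.ofFn s)) * ∫ γ, F (z • γ) ∂(law n)| ≤
          e * (saw n).card

/-- the output of the core rows for the data `P` along `U` -/
structure CoreOut (L : Prm → Measure Pie → Set Pie → Prop) (p2 th : ℝ) (z : ℂ) (U : Ultrafilter ℕ) (P : Prm)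
    (m b : Measure Pie) (t t' : Pie → ℝ) (D : Set Pie) : Prop where
  mt : Measurable t
  mt' : Measurable t'
  mD : MeasurableSet D
  core : ∃ ν : Measure (Pie × Pie), IsFiniteMeasure ν ∧ (clsC t t' D).law m = ν.prod (b.map (trn z))
  good : ∀ᵐ r ∂m, r ∈ D → r ∈ GoodT t t'
  short : ∀ᵐ r ∂m, r ∈ D → t r * r.2 ≤ max P.p.lk P.q.lk ∧ (1 - t' r) * r.2 ≤ max P.p.lk P.q.lk
  low2 : ∀ κ : ℝ, 0 < κ → Tendsto (fun n : ℕ => (Nm n : ℝ) ^ (4 / 3 : ℝ) / n) U (𝓝 κ) →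
    p2 * ∫ r, ct th (κ * r.2) ∂m ≤ ∫ r in D, ct th (κ * r.2) ∂m
  loc : L P m D

/-- **row CORE** for the rotation `z` -/
def CoreRow (L : Prm → Measure Pie → Set Pie → Prop) (z : ℂ) : Prop := ∃ p2 th1 : ℝ, 0 < p2 ∧ 0 < th1 ∧
  ∀ th : ℝ, 0 < th → th ≤ th1 → ∃ τ0 : ℝ, 0 < τ0 ∧ ∀ τ : ℝ, 0 < τ → τ ≤ τ0 → ∃ k0 K1 : ℝ, 0 < k0 ∧ 0 < K1 ∧
    ∀ k K : ℝ, 0 < k → k ≤ k0 → K1 ≤ K → ∃ ρ0 : ℝ, 0 < ρ0 ∧ ∀ ρ : ℝ, 0 < ρ → ρ ≤ ρ0 → ∀ U : Ultrafilter ℕ,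
      (U : Filter ℕ) ≤ atTop → ∃ (P : Prm) (_ : P.Ok), NearP z ρ τ P ∧ WinP k K P ∧
      (∃ c : ℝ, 0 < c ∧ ∀ᶠ M : ℕ in atTop, ENNReal.ofReal (c * (M : ℝ) ^ (3 / 4 : ℝ)) ≤ ms (P.R0 0 P.W M) fun _ => 1) ∧
      ∀ m b : Measure Pie, IsFiniteMeasure m → IsFiniteMeasure b → RLim (U.map Nm : Ultrafilter ℕ) (P.R0 0 P.W) m →
        RLim (U.map Nm : Ultrafilter ℕ) P.A0 b → ∃ (t t' : Pie → ℝ) (D : Set Pie), CoreOut L p2 th z U P m b t t' D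

/-- **row APP**: the foreign gates by a continuous functional with mixing -/
def AppRow (L : Prm → Measure Pie → Set Pie → Prop) : Prop := ∀ p1 p2 : ℝ, 0 < p1 → 0 < p2 →
  ∀ F : CI → ℝ, LipschitzWith 1 F → (∀ γ, |F γ| ≤ 1) → ∀ e : ℝ, 0 < e → ∀ th : ℝ, 0 < th → th ≤ 1 / 16 → ∀ ε0 : ℝ, 0 < ε0 →
    ∃ τ0 : ℝ, 0 < τ0 ∧ ∀ τ : ℝ, 0 < τ → τ ≤ τ0 → ∃ ρ0 k0 K1 : ℝ, 0 < ρ0 ∧ 0 < k0 ∧ 0 < K1 ∧ ∀ ρ : ℝ, 0 < ρ → ρ ≤ ρ0 →
      ∀ (z : ℂ) (P : Prm) (h : P.Ok), NearP z ρ τ P → WinP k0 K1 P →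
        ∀ U : Ultrafilter ℕ, (U : Filter ℕ) ≤ atTop → ∀ κ : ℝ, 0 < κ →
          Tendsto (fun n : ℕ => (Nm n : ℝ) ^ (4 / 3 : ℝ) / n) U (𝓝 κ) → ∀ m : Measure Pie, IsFiniteMeasure m →
            RLim (U.map Nm : Ultrafilter ℕ) (P.R0 0 P.W) m → ∀ D : Set Pie, MeasurableSet D → L P m D →
              (∀ᶠ N in (U : Filter ℕ), p1 * ∑ n ∈ Wn N (2 * th), aN n ≤
                SS ((P.W0 h (Nm N)).G N fun _ => 1) N th (fun _ => 1)) →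
              0 < ∫ r, ct th (κ * r.2) ∂m → p2 * ∫ r, ct th (κ * r.2) ∂m ≤ ∫ r in D, ct th (κ * r.2) ∂m →
              ∃ ψs : Pie →ᵇ ℝ, (∀ x, 0 ≤ ψs x) ∧ (∀ x, ψs x ≤ 1) ∧
                ∫ r, |ψs (ut κ r) - D.indicator (fun _ => (1 : ℝ)) r| * ct (4 * th) (κ * r.2) ∂m ≤
                  ε0 * ∫ r in D, ct th (κ * r.2) ∂m ∧
                ∀ᶠ N in (U : Filter ℕ), Gm e th F ((P.W0 h (Nm N)).G N ψs) N

/-- limits of the rests of the two classes along every ultrafilter -/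
lemma lim_ex {P : Prm} (h : P.Ok) {V : Ultrafilter ℕ} (hV : (V : Filter ℕ) ≤ atTop) : ∃ m b : Measure Pie,
    IsFiniteMeasure m ∧ IsFiniteMeasure b ∧ RLim V (P.R0 0 P.W) m ∧ RLim V P.A0 b := by
  have hw : ∀ Rs : ℕ → Set W3, ∀ᶠ N in atTop, ∀ R ∈ Rs N, (fun _ _ => (1 : ℝ)) N R ≤ 1 := fun Rs =>
    Eventually.of_forall fun N R _ => le_rfl
  have k1 : 0 < (P.wd P.W).D0 := by
    have h1 := h.far
    have h2 := h.p.f.r
    have h3 := h.p.f.r2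
    have h4 := h.q.f.r
    have h5 := h.q.f.r2
    show 0 < P.W.D0 - (P.p.k + P.q.k)
    linarith
  have k2 : 0 < (P.wd P.W).t1 := by
    show 0 < P.W.t1 + (P.p.lk + P.q.lk)
    linarith [h.t0, h.t1, h.p.lk, h.q.lk]
  have g1 : ∀ {T : Tp}, T.Ok → 0 < T.rg := fun {T} hT => by linarith [hT.rg, hT.r, hT.r2]
  have k3 : 0 < P.W.D0 := by
    have h1 := h.far
    have h2 := h.p.f.r
    have h3 := h.p.f.r2
    have h4 := h.q.f.r
    have h5 := h.q.f.r2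
    have h6 := h.p.rk
    have h7 := h.q.rk
    have e1 : P.p.k = P.p.rk + P.p.f.r2 := rfl
    have e2 : P.q.k = P.q.rk + P.q.f.r2 := rfl
    linarith
  obtain ⟨m, a1, a2, -⟩ := rst_lim (P := P.p.n) (Q := P.q.n) (W := P.wd P.W) (g1 h.p.n) (g1 h.q.n) k1 k2 (i := 0) (j := 0)
    (Rs := fun N => P.R0 0 P.W N) (w := fun _ _ => 1) (hw _) V hV (Eventually.of_forall fun N R hR => by
      have : R ∈ Rst (ev 0) (ev (-0)) P.p.n P.q.n (P.wd P.W) N (uT N) := hR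
      rwa [neg_zero] at this)
  obtain ⟨b, b1, b2, -⟩ := man_lim (P := P.p.f) (Q := P.q.f) (W := P.W) (g1 h.p.f) (g1 h.q.f) k3 (by linarith [h.t0, h.t1])
    (i := 0) (j := 0) (Rs := fun N => P.A0 N) (w := fun _ _ => 1) (hw _) V hV (s := P.p.s) (s' := P.q.s)
    (Eventually.of_forall fun N R hR => hR)
  exact ⟨m, b, a1.fβ, b1.fβ, a2, b2⟩

lemma lk_le {z : ℂ} {ρ τ : ℝ} {P : Prm} (h : NearP z ρ τ P) : max P.p.lk P.q.lk ≤ 101 / 100 * τ := by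
  have h1 : P.p.lk ≤ 101 / 100 * (1 * τ) := h.p.lk.2
  have h2 : P.q.lk ≤ 101 / 100 * (1 * τ) := h.q.lk.2
  rw [one_mul] at h1 h2
  exact max_le h1 h2

/-- **`RotW` from the rows** -/
theorem rotW_rows {L : Prm → Measure Pie → Set Pie → Prop} (low : LowRow) (mix : MixRow) (app : AppRow L) {φ0 : ℝ}
    (hφ0 : 0 < φ0) (core : ∀ φ : ℝ, 0 < φ → φ ≤ φ0 → CoreRow L (Complex.exp (φ * Complex.I))) : RotW := by
  obtain ⟨p, k1, K1, hp, hk1, hK1, hlow⟩ := low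
  obtain ⟨t3, ht3, ht38, hex⟩ := low_exact
  obtain ⟨c', C', m0, hc', hC', hbd⟩ := nm_bd
  refine rotW_of hφ0 fun φ h1 h2 => ?_
  obtain ⟨z, hz⟩ : ∃ z : ℂ, z = Complex.exp (φ * Complex.I) := ⟨_, rfl⟩
  rw [← hz]
  obtain ⟨p2, th1, hp2, hth1, hcore⟩ := core φ h1 h2
  rw [← hz] at hcore
  obtain ⟨p1, hp1e⟩ : ∃ p1 : ℝ, p1 = p / 1200 := ⟨_, rfl⟩
  have hp1 : 0 < p1 := by
    rw [hp1e]
    positivity
  refine ⟨p1, p2, 1 / 16, min t3 (min th1 (1 / 16)), 1, hp1, hp2, by norm_num, lt_min ht3 (lt_min hth1 (by norm_num)), one_pos,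
    fun F hF hF1 e he hee th hth htt θ hθ _ ε0 hε0 U hU => ?_⟩
  have q1 : th ≤ t3 := htt.trans (min_le_left _ _)
  have q2 : th ≤ th1 := htt.trans ((min_le_right _ _).trans (min_le_left _ _))
  have q3 : th ≤ 1 / 16 := htt.trans ((min_le_right _ _).trans (min_le_right _ _))
  obtain ⟨κ, hκ0, hκ⟩ := kap_ex hU
  -- the constants
  obtain ⟨τ1, hτ1, happ⟩ := app p1 p2 hp1 hp2 F hF hF1 e he th hth q3 ε0 hε0
  obtain ⟨τ2, hτ2, hmix⟩ := mix F hF hF1 e he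
  obtain ⟨τ3, hτ3, hcore'⟩ := hcore th hth q2
  obtain ⟨τ, hτ, j1, j2, j3, j4, j5, j6⟩ : ∃ τ : ℝ, 0 < τ ∧ τ ≤ τ1 ∧ τ ≤ τ2 ∧ κ * (101 / 100 * τ) ≤ θ ∧
      101 / 100 * (6 * τ) * (2 * κ) ≤ e * th ∧ τ ≤ 1 ∧ τ ≤ τ3 := by
    obtain ⟨τ, hτe⟩ : ∃ τ : ℝ, τ = min (min (min τ1 τ2) (min 1 τ3)) (min (θ / (2 * κ)) (e * th / (20 * κ))) := ⟨_, rfl⟩
    have h4 : 0 < τ := by
      rw [hτe]
      positivity
    have h5 : τ ≤ min (min τ1 τ2) (min 1 τ3) := by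
      rw [hτe]
      exact min_le_left _ _
    have h6 : τ ≤ min (θ / (2 * κ)) (e * th / (20 * κ)) := by
      rw [hτe]
      exact min_le_right _ _
    refine ⟨τ, h4, h5.trans ((min_le_left _ _).trans (min_le_left _ _)), h5.trans ((min_le_left _ _).trans (min_le_right _ _)),
      ?_, ?_, h5.trans ((min_le_right _ _).trans (min_le_left _ _)), h5.trans ((min_le_right _ _).trans (min_le_right _ _))⟩
    · have h3 : τ ≤ θ / (2 * κ) := h6.trans (min_le_left _ _)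
      rw [le_div_iff₀ (by positivity)] at h3
      nlinarith [mul_pos h4 hκ0]
    · have h3 : τ ≤ e * th / (20 * κ) := h6.trans (min_le_right _ _)
      rw [le_div_iff₀ (by positivity)] at h3
      nlinarith [mul_pos h4 hκ0]
  obtain ⟨ρ1, hρ1, g1⟩ := hlow τ hτ j5
  obtain ⟨ρ2, k2, K2, hρ2, hk2, hK2, g2⟩ := hmix τ hτ j2
  obtain ⟨ρ3, k3, K3, hρ3, hk3, hK3, g3⟩ := happ τ hτ j1
  obtain ⟨k4, K4, hk4, hK4, g4'⟩ := hcore' τ hτ j6
  obtain ⟨k, hk, s1, s2, s3, s4⟩ : ∃ k : ℝ, 0 < k ∧ k ≤ k1 ∧ k ≤ k2 ∧ k ≤ k3 ∧ k ≤ k4 :=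
    ⟨min (min k1 k2) (min k3 k4), by positivity, (min_le_left _ _).trans (min_le_left _ _),
      (min_le_left _ _).trans (min_le_right _ _), (min_le_right _ _).trans (min_le_left _ _),
      (min_le_right _ _).trans (min_le_right _ _)⟩
  obtain ⟨K, u1, u2, u3, u4⟩ : ∃ K : ℝ, K1 ≤ K ∧ K2 ≤ K ∧ K3 ≤ K ∧ K4 ≤ K :=
    ⟨max (max K1 K2) (max K3 K4), (le_max_left _ _).trans (le_max_left _ _),
      (le_max_right _ _).trans (le_max_left _ _), (le_max_left _ _).trans (le_max_right _ _),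
      (le_max_right _ _).trans (le_max_right _ _)⟩
  obtain ⟨ρ4, hρ4, g4⟩ := g4' k K hk s4 u4
  obtain ⟨ρ, hρ, r1, r2, r3, r4⟩ : ∃ ρ : ℝ, 0 < ρ ∧ ρ ≤ ρ1 ∧ ρ ≤ ρ2 ∧ ρ ≤ ρ3 ∧ ρ ≤ ρ4 :=
    ⟨min (min ρ1 ρ2) (min ρ3 ρ4), by positivity, (min_le_left _ _).trans (min_le_left _ _),
      (min_le_left _ _).trans (min_le_right _ _), (min_le_right _ _).trans (min_le_left _ _),
      (min_le_right _ _).trans (min_le_right _ _)⟩
  obtain ⟨P, h, hnear, hwin, ⟨c, hc, hmass⟩, hout⟩ := g4 ρ hρ r4 U hU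
  obtain ⟨m, b, fm, fb, hm, hb⟩ := lim_ex h (nm_map_top hU)
  obtain ⟨t, t', D, D1⟩ := hout m b fm fb hm hb
  -- the lengths of the tips
  have lp : (P.p.n.la + P.p.n.lb) * (2 * κ) ≤ e * th := by
    have a1 : P.p.n.la ≤ 101 / 100 * (1 * τ) := hnear.p.n.la.2
    have a2 : P.p.n.lb ≤ 101 / 100 * (1 * τ) := hnear.p.n.lb.2
    refine le_trans (mul_le_mul_of_nonneg_right ?_ (by positivity)) j4
    linarith
  have lq : (P.q.n.la + P.q.n.lb) * (2 * κ) ≤ e * th := by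
    have a1 : P.q.n.la ≤ 101 / 100 * (1 * τ) := hnear.q.n.la.2
    have a2 : P.q.n.lb ≤ 101 / 100 * (1 * τ) := hnear.q.n.lb.2
    refine le_trans (mul_le_mul_of_nonneg_right ?_ (by positivity)) j4
    linarith
  have lpf : (P.p.f.la + P.p.f.lb) * (2 * κ) ≤ e * th := by
    have a1 : P.p.f.la ≤ 101 / 100 * (4 * τ) := hnear.p.f.la.2
    have a2 : P.p.f.lb ≤ 101 / 100 * (2 * τ) := hnear.p.f.lb.2
    refine le_trans (mul_le_mul_of_nonneg_right ?_ (by positivity)) j4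
    linarith
  have lqf : (P.q.f.la + P.q.f.lb) * (2 * κ) ≤ e * th := by
    have a1 : P.q.f.la ≤ 101 / 100 * (4 * τ) := hnear.q.f.la.2
    have a2 : P.q.f.lb ≤ 101 / 100 * (2 * τ) := hnear.q.f.lb.2
    refine le_trans (mul_le_mul_of_nonneg_right ?_ (by positivity)) j4
    linarith
  have tip : ∀ {x : ℝ} {N : ℕ}, 0 ≤ x → x * (2 * κ) ≤ e * th → uT (Nm N) ≤ 2 * κ * N → x * uT (Nm N) ≤ e * th * N := by
    intro x N hx h3 h4
    have h5 := mul_le_mul_of_nonneg_left h4 hx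
    have h6 := mul_le_mul_of_nonneg_right h3 (Nat.cast_nonneg N : (0 : ℝ) ≤ N)
    linarith
  have nn : ∀ {T : Tp}, T.Ok → 0 ≤ T.la + T.lb := fun {T} hT => by linarith [hT.la, hT.lb]
  -- the windows
  have hwn : ∀ {N n : ℕ}, 1 ≤ N → n ∈ Wn N (2 * th) → (N : ℝ) / 2 ≤ n ∧ (n : ℝ) ≤ 2 * N := by
    intro N n hN hn
    have hN0 : (0 : ℝ) < N := by exact_mod_cast hN
    rw [Wn_iff hN (by linarith)] at hn
    constructor
    · nlinarith [hn.1]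
    · nlinarith [hn.2]
  have low1 : ∀ᶠ N in (U : Filter ℕ), p1 * ∑ n ∈ Wn N (2 * th), aN n ≤ SS ((P.W0 h (Nm N)).G N fun _ => 1) N th (fun _ => 1) := by
    filter_upwards [hU (hex p hp.le e he.le hee th hth q1), hU (g1 ρ hρ r1 z P h hnear (hwin.mono s1 u1)), uT_le hU hκ0 hκ,
      hU (eventually_ge_atTop 1)] with N a1 a2 a3 a4
    rw [hp1e]
    exact a1 _ (Prm.W0_gb h (fun _ => zero_le_one) (fun _ => le_rfl) (tip (nn h.p.n) lp a3) (tip (nn h.q.n) lq a3))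
      fun n hn he => (a2 n he (hwn a4 hn).1 (hwn a4 hn).2).1
  have gt2 : ∀ᶠ N in (U : Filter ℕ), Gt p1 e th (fun γ => F (z • γ)) ((P.WR h (yp P) (yq P) (Nm N)).G N fun _ => 1) N := by
    filter_upwards [hU (hex p hp.le e he.le hee th hth q1), hU (g1 ρ hρ r1 z P h hnear (hwin.mono s1 u1)), uT_le hU hκ0 hκ,
      hU (eventually_ge_atTop 1), hU (g2 ρ hρ r2 z P h hnear (hwin.mono s2 u2))] with N a1 a2 a3 a4 a5
    have gb := Prm.WR_gb h (yp P) (yq P) (ψ := fun _ => 1) (fun _ => zero_le_one) (fun _ => le_rfl) (e := e) (th := th) (N := Nm N) (M := N)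
      (tip (nn h.p.f) lpf a3) (tip (nn h.q.f) lqf a3)
    refine ⟨⟨gb, fun n hn => a5 n (hwn a4 hn).1 (hwn a4 hn).2⟩, ?_⟩
    rw [hp1e]
    exact a1 _ gb fun n hn he => (a2 n he (hwn a4 hn).1 (hwn a4 hn).2).2
  have low2 := D1.low2 κ hκ0 hκ
  have pos : 0 < ∫ r, ct th (κ * r.2) ∂m := by
    have h3 := pos_cls hU h hp1 hth (by linarith) hκ0 hκ hm hc hmass lp lq low1
    rw [int_ut hκ0.ne'] at h3
    simpa only [ut_apply] using h3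
  exact topD_of hU h (yp P) (yq P) hp1 hth (by linarith) he hκ0 hκ hm hb hc hmass D1.mt D1.mt' D1.mD D1.core D1.good D1.short
    (le_trans (mul_le_mul_of_nonneg_left (lk_le hnear) hκ0.le) j3) lp lq low1 low2
    (g3 ρ hρ r3 z P h hnear (hwin.mono s3 u3) U hU κ hκ0 hκ m fm hm D D1.mD D1.loc low1 pos low2) gt2

end Pool.Agent.ROT.F3E
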