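import Pool.Agent.ROT.F3GenB
import Pool.Agent.ROT.F3Rows

/-!
# ROT / F3GenR (helper22): windows of good data near the base data (`BxEx` of F3Fin1)
-/

set_option autoImplicit false

namespace Pool.Agent.ROT.F3E

open Pool.Agent.ROT.F3 Pool.Agent.ROT.F3.Gn

/-- **in the box the data are good, near the base data, with wide windows** -/
theorem bx22_ok {z : ℂ} {ρ τ k K : ℝ} (hz : ‖z‖ = 1) (h1 : ‖z - 1‖ ≤ 1 / 100000000) (hρ : 0 < ρ) (hτ : 0 < τ) (hk0 : 0 < k)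
    (hk : 16000000000 * ρ ≤ k) (hK : k < K) {P : Prm} (h : (bx22 hρ hτ hk0 hK).In z P) : P.Ok ∧ NearP z ρ τ P ∧ WinP k K P := by
  obtain ⟨a1, ⟨a2, a3, a4⟩, a5, a6, a7, a8⟩ := bx22_w hz h1 hρ hτ hk0 hk hK h
  exact ⟨a1, ⟨a2, a3, a4⟩, ⟨a5, a6, a7, a8⟩⟩

/-- **windows exist** (`BxEx z`) -/
theorem bxEx {z : ℂ} (hz : ‖z‖ = 1) (h1 : ‖z - 1‖ ≤ 1 / 100000000) : ∀ ρ τ k K : ℝ, 0 < ρ → 0 < τ → 16000000000 * ρ ≤ k → k < K →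
    ∃ B : Bx, ∀ P : Prm, B.In z P → P.Ok ∧ NearP z ρ τ P ∧ WinP k K P := fun ρ τ k K hρ hτ hk hK =>
  ⟨bx22 hρ hτ (by linarith) hK, fun _ h => bx22_ok hz h1 hρ hτ (by linarith) hk hK h⟩

/-- the window of the durations of the classes 1, 2 -/
theorem bx22_wc {z : ℂ} {ρ τ k K : ℝ} (hρ : 0 < ρ) (hτ : 0 < τ) (hk0 : 0 < k) (hK : k < K) {P : Prm}
    (h : (bx22 hρ hτ hk0 hK).In z P) : K ≤ P.Wc.t1 ∧ P.Wc.t1 ≤ 2 * K ∧ k / 4 ≤ P.Wc.D0 ∧ 3 * K ≤ P.Wc.D1 ∧ k / 2 ≤ P.W.D0 ∧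
      P.W.D1 ≤ 2 * K ∧ P.W.t1 ≤ 2 * K := by
  have a2 : K ≤ P.W.D1 ∧ P.W.D1 ≤ 2 * K := h.g .D1
  have a1 : k / 2 ≤ P.W.D0 ∧ P.W.D0 ≤ k := h.g .D0
  have a4 : K ≤ P.W.t1 ∧ P.W.t1 ≤ 2 * K := h.g .t1
  have a5 : k / 4 ≤ P.Wc.D0 ∧ P.Wc.D0 ≤ k / 3 := h.g .cD0
  have a6 : 3 * K ≤ P.Wc.D1 ∧ P.Wc.D1 ≤ 4 * K := h.g .cD1
  have a7 : K ≤ P.Wc.t1 ∧ P.Wc.t1 ≤ 2 * K := h.g .ct1
  exact ⟨a7.1, a7.2, a5.1, a6.1, a1.1, a2.2, a4.2⟩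

/-- **windows exist**, with `Wc.t1` -/
theorem bxExc {z : ℂ} (hz : ‖z‖ = 1) (h1 : ‖z - 1‖ ≤ 1 / 100000000) : ∀ ρ τ k K : ℝ, 0 < ρ → 0 < τ → 16000000000 * ρ ≤ k → k < K →
    ∃ B : Bx, ∀ P : Prm, B.In z P → P.Ok ∧ NearP z ρ τ P ∧ WinP k K P ∧ K ≤ P.Wc.t1 := fun ρ τ k K hρ hτ hk hK => by
  have hk0 : 0 < k := by linarith
  refine ⟨bx22 hρ hτ hk0 hK, fun P h => ?_⟩
  obtain ⟨a1, a2, a3⟩ := bx22_ok hz h1 hρ hτ hk0 hk hK h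
  exact ⟨a1, a2, a3, (bx22_wc hρ hτ hk0 hK h).1⟩

end Pool.Agent.ROT.F3E
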