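import Pool.Agent.ROT.F3Dic
import Pool.Agent.TSW.Geo

/-!
# ROT / F3Sym (helper25): the symmetries of the lattice which fix an even vertex, on words, positions, walks, polygons, curves

`LSym` : a permutation `σ` of the letters and a linear isometry `L` of the plane with `step i (σ a) = L (step i a)`; instances
`rS r` (rotation by `120 r` degrees, `σ a = a + r`) and `cS` (complex conjugation, `σ a = -a`); composition, inverse.

* `mp S w` : the word; `ps_mp`, `en_mp`, `SW_mp`, `HI_mp`, `Cl_mp`; sums over all words, `SWn`, `Cln` are invariant; sums over a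
  class of words: `tsum_mp_set`;
* `ev a` : the direction `e_a` (`= step 0 a`); `S.L (ev a) = ev (S.σ a)`; `dt` : the inner product, `dt_map`;
* position functions: `inv_ps`: a predicate of a position function which is invariant under `S.L` can be read on either word;
* `mpn S s` for the walks `Fin n → Fin 3`: `saw`, `pol`, `pos`, `curve` (`curve (mpn S s) = S.act (curve s)`);
* odd reversal: `ps_reverse_odd`.
-/

set_option autoImplicit false

namespace Pool.Agent.ROT.F3

open Finset
open scoped ENNReal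
open Pool.Agent.NTS.Res (step pos saw fug size curve)
open Pool.Agent.PMA.Res (pol)
open NTSF (om)

/-- a symmetry of the lattice which fixes the even vertex `0` -/
structure LSym where
  σ : Equiv.Perm (Fin 3)
  L : ℂ ≃ₗᵢ[ℝ] ℂ
  h : ∀ (i : ℕ) (a : Fin 3), step i (σ a) = L (step i a)

namespace LSym

/-- the identity -/
noncomputable def one : LSym := ⟨Equiv.refl _, LinearIsometryEquiv.refl ℝ ℂ, fun _ _ => rfl⟩

/-- composition: first `T`, then `S` -/
noncomputable def mul (S T : LSym) : LSym := ⟨T.σ.trans S.σ, T.L.trans S.L, fun i a => by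
  show step i (S.σ (T.σ a)) = S.L (T.L (step i a))
  rw [S.h, T.h]⟩

/-- the inverse -/
noncomputable def inv (S : LSym) : LSym := ⟨S.σ.symm, S.L.symm, fun i a => by
  apply S.L.injective
  rw [← S.h, Equiv.apply_symm_apply, LinearIsometryEquiv.apply_symm_apply]⟩

lemma L_inv (S : LSym) (z : ℂ) : S.L (S.inv.L z) = z := S.L.apply_symm_apply z

lemma inv_L (S : LSym) (z : ℂ) : S.inv.L (S.L z) = z := S.L.symm_apply_apply z

lemma σ_inv (S : LSym) (a : Fin 3) : S.σ (S.inv.σ a) = a := S.σ.apply_symm_apply a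

lemma inv_σ (S : LSym) (a : Fin 3) : S.inv.σ (S.σ a) = a := S.σ.symm_apply_apply a

end LSym

/-! ### rotations and the reflection -/

lemma om3 : om ^ 3 = 1 := by
  unfold NTSF.om
  rw [← Complex.exp_nat_mul]
  have : ((3 : ℕ) : ℂ) * (2 * (Real.pi : ℂ) * Complex.I / 3) = 2 * Real.pi * Complex.I := by
    push_cast
    ring
  rw [this, Complex.exp_two_pi_mul_I]

lemma om_mod (k : ℕ) : om ^ k = om ^ (k % 3) := by
  conv_lhs => rw [← Nat.div_add_mod k 3, pow_add, pow_mul, om3, one_pow, one_mul]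

lemma step_rot (r : Fin 3) (i : ℕ) (a : Fin 3) : step i (a + r) = om ^ (r : ℕ) * step i a := by
  rw [Pool.Agent.PMA.LimR.step_om, Pool.Agent.PMA.LimR.step_om, om_mod ((a + r : Fin 3) : ℕ)]
  have h : ((a + r : Fin 3) : ℕ) % 3 = ((a : ℕ) + (r : ℕ)) % 3 := by
    revert a r
    decide
  rw [h, ← om_mod, pow_add]
  ring

/-- the unit number `r` -/
noncomputable def omc (r : Fin 3) : Circle := ⟨om ^ (r : ℕ), by
  show om ^ (r : ℕ) ∈ Metric.sphere (0 : ℂ) 1
  rw [mem_sphere_zero_iff_norm, norm_pow, NTSF.om_norm, one_pow]⟩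

/-- **the rotation by `120 r` degrees**: every letter `a` becomes `a + r` -/
noncomputable def rS (r : Fin 3) : LSym := ⟨Equiv.addRight r, rotation (omc r), fun i a => by
  show step i (a + r) = om ^ (r : ℕ) * step i a
  exact step_rot r i a⟩

/-- **the reflection** (complex conjugation): every letter `a` becomes `-a` -/
noncomputable def cS : LSym := ⟨Equiv.neg _, Complex.conjLIE, fun i a => by
  show step i (-a) = (starRingEnd ℂ) (step i a)
  exact Pool.Agent.TSW.step_cj i a⟩

lemma rS_L (r : Fin 3) (z : ℂ) : (rS r).L z = om ^ (r : ℕ) * z := rfl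

lemma rS_σ (r a : Fin 3) : (rS r).σ a = a + r := rfl

lemma cS_L (z : ℂ) : cS.L z = (starRingEnd ℂ) z := rfl

lemma cS_σ (a : Fin 3) : cS.σ a = -a := rfl

/-! ### words -/

/-- the image of a word -/
def mp (S : LSym) (w : W3) : W3 := w.map S.σ

@[simp] lemma mp_length (S : LSym) (w : W3) : (mp S w).length = w.length := List.length_map _

@[simp] lemma mp_nil (S : LSym) : mp S [] = [] := rfl

lemma mp_append (S : LSym) (u v : W3) : mp S (u ++ v) = mp S u ++ mp S v := List.map_append

lemma mp_take (S : LSym) (w : W3) (k : ℕ) : mp S (w.take k) = (mp S w).take k := List.map_take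

lemma mp_drop (S : LSym) (w : W3) (k : ℕ) : mp S (w.drop k) = (mp S w).drop k := List.map_drop

lemma mp_reverse (S : LSym) (w : W3) : mp S w.reverse = (mp S w).reverse := List.map_reverse

lemma mp_rotate (S : LSym) (w : W3) (k : ℕ) : mp S (w.rotate k) = (mp S w).rotate k := List.map_rotate _ _ _

lemma mp_dropLast (S : LSym) (w : W3) : mp S w.dropLast = (mp S w).dropLast := List.map_dropLast

lemma mp_mp (S T : LSym) (w : W3) : mp S (mp T w) = mp (S.mul T) w := List.map_map

lemma mp_inv_mp (S : LSym) (w : W3) : mp S.inv (mp S w) = w := by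
  show (w.map S.σ).map S.σ.symm = w
  rw [List.map_map, Equiv.symm_comp_self, List.map_id]

lemma mp_mp_inv (S : LSym) (w : W3) : mp S (mp S.inv w) = w := by
  show (w.map S.σ.symm).map S.σ = w
  rw [List.map_map, Equiv.self_comp_symm, List.map_id]

lemma mp_inj {S : LSym} {u v : W3} (h : mp S u = mp S v) : u = v := by
  rw [← mp_inv_mp S u, h, mp_inv_mp]

lemma st_mp (S : LSym) (w : W3) (i : ℕ) : st (mp S w) i = S.L (st w i) := by
  by_cases h : i < w.length
  · rw [st_of_lt h, st_of_lt (by rw [mp_length]; exact h), ← S.h]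
    congr 1
    simp [mp]
  · rw [st_of_le (w := w) (by omega), st_of_le (w := mp S w) (by rw [mp_length]; omega), map_zero]

lemma ps_mp (S : LSym) (w : W3) (k : ℕ) : ps (mp S w) k = S.L (ps w k) := by
  unfold ps
  rw [map_sum]
  exact sum_congr rfl fun i _ => st_mp S w i

lemma en_mp (S : LSym) (w : W3) : en (mp S w) = S.L (en w) := by
  rw [en, mp_length, ps_mp, ← en]

lemma SW_mp {S : LSym} {w : W3} : SW (mp S w) ↔ SW w := by
  unfold SW
  simp only [mp_length, ps_mp, S.L.injective.eq_iff]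

lemma HI_mp {S : LSym} {w : W3} : HI (mp S w) ↔ HI w := by
  unfold HI
  simp only [mp_length, ps_mp, S.L.injective.eq_iff]

lemma Cl_mp {S : LSym} {w : W3} : Cl (mp S w) ↔ Cl w := by
  rw [Cl_iff, Cl_iff, HI_mp, mp_length, en_mp]
  constructor
  · rintro ⟨h1, h2, h3⟩
    exact ⟨h1, S.L.injective (by rw [h2, map_zero]), h3⟩
  · rintro ⟨h1, h2, h3⟩
    exact ⟨h1, by rw [h2, map_zero], h3⟩

/-- the symmetry as a bijection of the words -/
noncomputable def mpe (S : LSym) : W3 ≃ W3 := ⟨mp S, mp S.inv, mp_inv_mp S, mp_mp_inv S⟩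

/-- **all words** -/
theorem tsum_mp {M : Type*} [AddCommMonoid M] [TopologicalSpace M] (S : LSym) (f : W3 → M) :
    ∑' w : W3, f (mp S w) = ∑' w : W3, f w := (mpe S).tsum_eq f

/-- **a class of words**: `A` and its preimage -/
theorem tsum_mp_set {M : Type*} [AddCommMonoid M] [TopologicalSpace M] (S : LSym) {A B : Set W3}
    (h : ∀ w, w ∈ A ↔ mp S w ∈ B) (f : W3 → M) : ∑' w : A, f (mp S w) = ∑' w : B, f w := by
  let e : A ≃ B := ⟨fun w => ⟨mp S w, (h w).1 w.2⟩, fun w => ⟨mp S.inv w, (h _).2 (by rw [mp_mp_inv]; exact w.2)⟩,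
    fun w => Subtype.ext (mp_inv_mp S w), fun w => Subtype.ext (mp_mp_inv S w)⟩
  exact e.tsum_eq fun w : B => f w

theorem tsum_mp_SWn {M : Type*} [AddCommMonoid M] [TopologicalSpace M] (S : LSym) (n : ℕ) (f : W3 → M) :
    ∑' w : SWn n, f (mp S w) = ∑' w : SWn n, f w :=
  tsum_mp_set S (fun w => by
    show SW w ∧ w.length = n ↔ SW (mp S w) ∧ (mp S w).length = n
    rw [SW_mp, mp_length]) f

theorem tsum_mp_Cln {M : Type*} [AddCommMonoid M] [TopologicalSpace M] (S : LSym) (m : ℕ) (f : W3 → M) :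
    ∑' w : Cln m, f (mp S w) = ∑' w : Cln m, f w :=
  tsum_mp_set S (fun w => by
    show Cl w ∧ w.length = m ↔ Cl (mp S w) ∧ (mp S w).length = m
    rw [Cl_mp, mp_length]) f

/-! ### directions and inner products -/

/-- the direction `e_a` of the first step with the letter `a` -/
noncomputable def ev (a : Fin 3) : ℂ := om ^ (a : ℕ)

lemma ev_step (a : Fin 3) : ev a = step 0 a := by
  rw [Pool.Agent.PMA.LimR.step_om, pow_zero, one_mul]
  rfl

lemma ev_norm (a : Fin 3) : ‖ev a‖ = 1 := by
  unfold ev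
  rw [norm_pow, NTSF.om_norm, one_pow]

lemma ev_zero : ev 0 = 1 := pow_zero _

lemma L_ev (S : LSym) (a : Fin 3) : S.L (ev a) = ev (S.σ a) := by
  rw [ev_step, ev_step, S.h]

lemma ev_add (r a : Fin 3) : ev (a + r) = om ^ (r : ℕ) * ev a := by
  rw [← rS_σ, ← L_ev, rS_L]

lemma ev_neg (a : Fin 3) : ev (-a) = (starRingEnd ℂ) (ev a) := by
  rw [← cS_σ, ← L_ev, cS_L]

/-- a step out of an even vertex -/
lemma step_even {i : ℕ} (hi : Even i) (a : Fin 3) : step i a = ev a := by
  rw [Pool.Agent.PMA.LimR.step_om, hi.neg_one_pow, one_mul]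
  rfl

/-- a step out of an odd vertex -/
lemma step_odd {i : ℕ} (hi : Odd i) (a : Fin 3) : step i a = -ev a := by
  rw [Pool.Agent.PMA.LimR.step_om, hi.neg_one_pow, neg_one_mul]
  rfl

/-- the inner product of the plane -/
noncomputable def dt (z u : ℂ) : ℝ := z.re * u.re + z.im * u.im

lemma dt_inner (z u : ℂ) : dt z u = inner ℝ z u := by
  rw [Complex.inner]
  unfold dt
  rw [Complex.mul_re, Complex.conj_re, Complex.conj_im]
  ring

lemma dt_mul_conj (z u : ℂ) : dt z u = (z * (starRingEnd ℂ) u).re := by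
  unfold dt
  rw [Complex.mul_re, Complex.conj_re, Complex.conj_im]
  ring

lemma dt_one (z : ℂ) : dt z 1 = z.re := by
  unfold dt
  simp

lemma dt_map (S : LSym) (z u : ℂ) : dt (S.L z) (S.L u) = dt z u := by
  rw [dt_inner, dt_inner, LinearIsometryEquiv.inner_map_map]

lemma dt_add (z z' u : ℂ) : dt (z + z') u = dt z u + dt z' u := by
  unfold dt
  rw [Complex.add_re, Complex.add_im]
  ring

lemma dt_sub (z z' u : ℂ) : dt (z - z') u = dt z u - dt z' u := by
  unfold dt
  rw [Complex.sub_re, Complex.sub_im]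
  ring

lemma dt_neg (z u : ℂ) : dt (-z) u = -dt z u := by
  unfold dt
  rw [Complex.neg_re, Complex.neg_im]
  ring

lemma dt_comm (z u : ℂ) : dt z u = dt u z := by
  unfold dt
  ring

/-- the level in the direction `e_a` is the real part after the rotation by `-a` -/
lemma dt_ev (z : ℂ) (a : Fin 3) : dt z (ev a) = ((rS (-a)).L z).re := by
  rw [← dt_map (rS (-a)), L_ev, rS_σ, add_neg_cancel, ev_zero, dt_one]

/-! ### predicates of position functions -/

/-- a predicate of a position function which is invariant under all linear isometries (with the parameters) -/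
theorem inv_ps {P : Type*} (S : LSym) {Q Q' : (ℕ → ℂ) → P → Prop} (h : ∀ p x, Q' (fun k => S.L (p k)) x ↔ Q p x) (w : W3) (x : P) :
    Q' (ps (mp S w)) x ↔ Q (ps w) x := by
  rw [show ps (mp S w) = fun k => S.L (ps w k) from funext fun k => ps_mp S w k]
  exact h _ x

/-! ### walks and polygons -/

section Fn

variable {n : ℕ}

/-- the image of a walk -/
def mpn (S : LSym) (s : Fin n → Fin 3) : Fin n → Fin 3 := fun i => S.σ (s i)

lemma ofFn_mpn (S : LSym) (s : Fin n → Fin 3) : List.ofFn (mpn S s) = mp S (List.ofFn s) := by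
  unfold mp
  rw [List.map_ofFn]
  rfl

lemma pos_mpn (S : LSym) (s : Fin n → Fin 3) (k : ℕ) : pos (mpn S s) k = S.L (pos s k) := by
  rw [← ps_ofFn, ofFn_mpn, ps_mp, ps_ofFn]

lemma mpn_inv (S : LSym) (s : Fin n → Fin 3) : mpn S.inv (mpn S s) = s := funext fun i => S.inv_σ (s i)

lemma inv_mpn (S : LSym) (s : Fin n → Fin 3) : mpn S (mpn S.inv s) = s := funext fun i => S.σ_inv (s i)

lemma mpn_saw {S : LSym} {s : Fin n → Fin 3} : mpn S s ∈ saw n ↔ s ∈ saw n := by
  rw [← SW_ofFn, ← SW_ofFn, ofFn_mpn, SW_mp]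

lemma mpn_pol {S : LSym} {s : Fin n → Fin 3} : mpn S s ∈ pol n ↔ s ∈ pol n := by
  rw [Pool.Agent.PMA.LimR.mem_pol, Pool.Agent.PMA.LimR.mem_pol, mpn_saw, pos_mpn, LinearIsometryEquiv.norm_map]

/-- **the walks** -/
theorem sum_mpn {M : Type*} [AddCommMonoid M] (S : LSym) (f : (Fin n → Fin 3) → M) :
    ∑ s ∈ saw n, f (mpn S s) = ∑ s ∈ saw n, f s :=
  sum_nbij' (mpn S) (mpn S.inv) (fun _ hs => mpn_saw.2 hs) (fun _ hs => mpn_saw.2 hs) (fun s _ => mpn_inv S s)
    (fun s _ => inv_mpn S s) fun _ _ => rfl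

/-- **the polygons** -/
theorem sum_mpn_pol {M : Type*} [AddCommMonoid M] (S : LSym) (f : (Fin n → Fin 3) → M) :
    ∑ s ∈ pol n, f (mpn S s) = ∑ s ∈ pol n, f s :=
  sum_nbij' (mpn S) (mpn S.inv) (fun _ hs => mpn_pol.2 hs) (fun _ hs => mpn_pol.2 hs) (fun s _ => mpn_inv S s)
    (fun s _ => inv_mpn S s) fun _ _ => rfl

lemma mpn_rt (r : Fin 3) (s : Fin n → Fin 3) : mpn (rS r) s = fun i => s i + r := rfl

end Fn

/-- a symmetry acting on the curves -/
noncomputable def LSym.act (S : LSym) (γ : C(unitInterval, ℂ)) : C(unitInterval, ℂ) := ⟨fun t => S.L (γ t), by fun_prop⟩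

lemma LSym.act_apply (S : LSym) (γ : C(unitInterval, ℂ)) (t : unitInterval) : S.act γ t = S.L (γ t) := rfl

lemma act_dist (S : LSym) (γ γ' : C(unitInterval, ℂ)) : dist (S.act γ) (S.act γ') = dist γ γ' := by
  apply le_antisymm
  · rw [ContinuousMap.dist_le dist_nonneg]
    intro t
    rw [S.act_apply, S.act_apply, S.L.dist_map]
    exact ContinuousMap.dist_apply_le_dist t
  · rw [ContinuousMap.dist_le dist_nonneg]
    intro t
    rw [← S.L.dist_map, ← S.act_apply, ← S.act_apply]
    exact ContinuousMap.dist_apply_le_dist t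

lemma act_lip (S : LSym) {K : NNReal} {F : C(unitInterval, ℂ) → ℝ} (hF : LipschitzWith K F) :
    LipschitzWith K fun γ => F (S.act γ) := by
  refine LipschitzWith.of_dist_le_mul fun a b => ?_
  rw [← act_dist S a b]
  exact hF.dist_le_mul _ _

lemma act_rS (r : Fin 3) (γ : C(unitInterval, ℂ)) : (rS r).act γ = om ^ (r : ℕ) • γ := by
  ext t
  rfl

theorem poly_act (S : LSym) (z : ℕ → ℂ) (n : ℕ) : Tight.poly (fun k => S.L (z k)) n = S.act (Tight.poly z n) := by
  ext t
  show S.L (z 0) + ∑ i ∈ range n, ((max 0 (min 1 ((t : ℝ) * n - i)) : ℝ) : ℂ) * (S.L (z (i + 1)) - S.L (z i)) =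
    S.L (z 0 + ∑ i ∈ range n, ((max 0 (min 1 ((t : ℝ) * n - i)) : ℝ) : ℂ) * (z (i + 1) - z i))
  rw [map_add, map_sum]
  congr 1
  refine sum_congr rfl fun i _ => ?_
  rw [← Complex.real_smul, ← Complex.real_smul, map_smul, map_sub]

theorem crv_mp (S : LSym) (w : W3) (n : ℕ) (d : ℝ) : crv (mp S w) n d = S.act (crv w n d) := by
  unfold crv
  rw [← poly_act]
  congr 1
  funext k
  rw [ps_mp, div_eq_inv_mul, div_eq_inv_mul, ← Complex.ofReal_inv, ← Complex.real_smul, ← Complex.real_smul, map_smul]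

theorem curve_mpn {n : ℕ} (S : LSym) (s : Fin n → Fin 3) : curve (mpn S s) = S.act (curve s) := by
  rw [curve_ofFn, curve_ofFn, ofFn_mpn, crv_mp]

/-! ### the reversal of words with an odd number of letters -/

lemma st_reverse_odd {u : W3} (hu : Odd u.length) {i : ℕ} (h : i < u.length) : st u.reverse i = st u (u.length - 1 - i) := by
  rw [st_of_lt (by rw [List.length_reverse]; exact h), st_of_lt (w := u) (by omega)]
  have h1 : u.reverse.get ⟨i, by rw [List.length_reverse]; exact h⟩ = u.get ⟨u.length - 1 - i, by omega⟩ := by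
    simp [List.getElem_reverse]
  rw [h1, Pool.Agent.PMA.LimR.step_om, Pool.Agent.PMA.LimR.step_om]
  congr 1
  obtain ⟨m, hm⟩ := hu
  rcases Nat.even_or_odd i with hi | hi
  · have h2 : Even (u.length - 1 - i) := by
      obtain ⟨q, hq⟩ := hi
      exact ⟨m - q, by omega⟩
    rw [hi.neg_one_pow, h2.neg_one_pow]
  · have h2 : Odd (u.length - 1 - i) := by
      obtain ⟨q, hq⟩ := hi
      exact ⟨m - q - 1, by omega⟩
    rw [hi.neg_one_pow, h2.neg_one_pow]

lemma ps_reverse_odd {u : W3} (hu : Odd u.length) {k : ℕ} (h : k ≤ u.length) : ps u.reverse k = en u - ps u (u.length - k) := by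
  induction k with
  | zero => rw [ps_zero, Nat.sub_zero, en, sub_self]
  | succ k ih =>
    rw [ps_succ, ih (by omega), st_reverse_odd hu (by omega)]
    have : ps u (u.length - k) = ps u (u.length - (k + 1)) + st u (u.length - 1 - k) := by
      rw [show u.length - k = (u.length - (k + 1)) + 1 by omega, ps_succ]
      congr 2
      omega
    rw [this]
    ring

lemma SW_reverse_all {u : W3} : SW u.reverse ↔ SW u := by
  rcases Nat.even_or_odd u.length with hu | hu
  · exact SW_reverse hu
  · have key : ∀ v : W3, Odd v.length → SW v → SW v.reverse := by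
      intro v hv h j k hj hk he
      rw [List.length_reverse] at hj hk
      rw [ps_reverse_odd hv hj, ps_reverse_odd hv hk, sub_right_inj] at he
      have := h _ _ (by omega) (by omega) he
      omega
    refine ⟨fun h => ?_, key u hu⟩
    have := key u.reverse (by rw [List.length_reverse]; exact hu) h
    rwa [List.reverse_reverse] at this

theorem tsum_reverse_SWn {M : Type*} [AddCommMonoid M] [TopologicalSpace M] (n : ℕ) (f : W3 → M) :
    ∑' w : SWn n, f (w : W3).reverse = ∑' w : SWn n, f w := by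
  let e : SWn n ≃ SWn n := ⟨fun w => ⟨w.1.reverse, SW_reverse_all.2 w.2.1, by rw [List.length_reverse]; exact w.2.2⟩,
    fun w => ⟨w.1.reverse, SW_reverse_all.2 w.2.1, by rw [List.length_reverse]; exact w.2.2⟩,
    fun w => Subtype.ext w.1.reverse_reverse, fun w => Subtype.ext w.1.reverse_reverse⟩
  exact e.tsum_eq fun w : SWn n => f w

end Pool.Agent.ROT.F3
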