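import Pool.Agent.SCF.P0B
import Pool.Agent.ROT.F3Sym

/-!
# ROT, block F3: functionals at the END of the walk (helper28)

* `rvw_saw`, `sum_rvw` : the reversed walk, both parities; `ofFn_rvw`, `ofFn_cutw` : as lists;
* `rvc γ` : the curve read from its end; `rvc_lip`, `rvc_rvc`, `curve_rvw` (even), `curve_rvw'` (odd);
* `cv S s` : the curve in units `S`; `cv_cutw` : the last step is not seen;
* `endf f` : the functional at the end: `f n (rvw s)` for even `n`, `f (n - 1) (rvw (cutw s))` for odd `n` (the end vertex without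
  the last step is even: no odd vertices and no direction `-e` are needed);
* **`endf_even`, `endf_odd`, `endf_of`** : if `f` is close in the mean to `φ (cv S s)` then `endf f` is close to `φ (rvc (cv S s))`.
-/

set_option autoImplicit false

namespace Pool.Agent.ROT.F3

open Finset
open Pool.Agent.NTS.Res (step pos saw fug size curve)
open Pool.Agent.SCF.Z (rvw rvw_rvw step_par pos_rvw rvw_mem cutw pos_cutw cutw_mem saw_le_succ)
open NTSF (pos_zero pos_succ mem_saw size_pos saw_card_pos)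

/-! ### the reversed walk -/

lemma ofFn_rvw {n : ℕ} (s : Fin n → Fin 3) : List.ofFn (rvw s) = (List.ofFn s).reverse := by
  apply List.ext_getElem
  · simp
  · intro i h1 h2
    rw [List.length_ofFn] at h1
    simp only [List.getElem_ofFn, List.getElem_reverse, List.length_ofFn]
    show s (Fin.rev ⟨i, h1⟩) = _
    congr 1
    ext
    simp only [Fin.val_rev]
    omega

lemma ofFn_cutw {n : ℕ} (s : Fin (n + 1) → Fin 3) : List.ofFn (cutw s) = (List.ofFn s).dropLast := by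
  rw [List.ofFn_succ', List.concat_eq_append, List.dropLast_concat]
  rfl

lemma pos_rvwE {n : ℕ} (hn : Even n) (s : Fin n → Fin 3) {j : ℕ} (hj : j ≤ n) : pos (rvw s) j = pos s (n - j) - pos s n := by
  have h := ps_reverse (u := List.ofFn s) (by rw [List.length_ofFn]; exact hn) (k := j) (by rw [List.length_ofFn]; exact hj)
  rw [← ofFn_rvw, ps_ofFn, List.length_ofFn, ps_ofFn] at h
  rw [h]
  unfold en
  rw [List.length_ofFn, ps_ofFn]

theorem rvw_saw {n : ℕ} {s : Fin n → Fin 3} : rvw s ∈ saw n ↔ s ∈ saw n := by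
  rw [← SW_ofFn, ofFn_rvw, SW_reverse_all, SW_ofFn]

theorem sum_rvw {M : Type*} [AddCommMonoid M] {n : ℕ} (f : (Fin n → Fin 3) → M) : ∑ s ∈ saw n, f (rvw s) = ∑ s ∈ saw n, f s := by
  refine sum_bij (fun s _ => rvw s) (fun s hs => rvw_saw.2 hs) (fun s _ s' _ h => ?_) (fun s hs => ⟨rvw s, rvw_saw.2 hs, rvw_rvw s⟩)
    fun s _ => rfl
  have := congrArg rvw h
  rwa [rvw_rvw, rvw_rvw] at this

/-! ### the curve read from its end -/

/-- the curve read from its end -/
noncomputable def rvc (γ : C(unitInterval, ℂ)) : C(unitInterval, ℂ) :=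
  ⟨fun t => γ (unitInterval.symm t) - γ 1, by fun_prop⟩

lemma rvc_apply (γ : C(unitInterval, ℂ)) (t : unitInterval) : rvc γ t = γ (unitInterval.symm t) - γ 1 := rfl

lemma rvc_dist (γ γ' : C(unitInterval, ℂ)) : dist (rvc γ) (rvc γ') ≤ 2 * dist γ γ' := by
  rw [ContinuousMap.dist_le (by positivity)]
  intro t
  rw [rvc_apply, rvc_apply, dist_eq_norm]
  have e : γ (unitInterval.symm t) - γ 1 - (γ' (unitInterval.symm t) - γ' 1) =
      (γ (unitInterval.symm t) - γ' (unitInterval.symm t)) - (γ 1 - γ' 1) := by ring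
  rw [e]
  refine (norm_sub_le _ _).trans ?_
  rw [← dist_eq_norm, ← dist_eq_norm]
  have h1 := ContinuousMap.dist_apply_le_dist (f := γ) (g := γ') (unitInterval.symm t)
  have h2 := ContinuousMap.dist_apply_le_dist (f := γ) (g := γ') 1
  linarith

lemma rvc_lip {K : NNReal} {F : C(unitInterval, ℂ) → ℝ} (hF : LipschitzWith K F) : LipschitzWith (2 * K) fun γ => F (rvc γ) := by
  refine LipschitzWith.of_dist_le_mul fun a b => ?_
  refine (hF.dist_le_mul _ _).trans ?_
  have h1 := mul_le_mul_of_nonneg_left (rvc_dist a b) K.coe_nonneg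
  push_cast
  linarith

lemma rvc_rvc {γ : C(unitInterval, ℂ)} (h : γ 0 = 0) : rvc (rvc γ) = γ := by
  ext t
  rw [rvc_apply, rvc_apply, rvc_apply, unitInterval.symm_symm, unitInterval.symm_one, h]
  ring

lemma rvc_neg (γ : C(unitInterval, ℂ)) : rvc (-γ) = -rvc γ := by
  ext t
  rw [rvc_apply, ContinuousMap.neg_apply, ContinuousMap.neg_apply, ContinuousMap.neg_apply, rvc_apply]
  ring

lemma rvc_smul (c : ℝ) (γ : C(unitInterval, ℂ)) : rvc (c • γ) = c • rvc γ := by
  ext t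
  rw [rvc_apply, ContinuousMap.smul_apply, ContinuousMap.smul_apply, ContinuousMap.smul_apply, rvc_apply, smul_sub]

lemma rvc_act (S : LSym) (γ : C(unitInterval, ℂ)) : rvc (S.act γ) = S.act (rvc γ) := by
  ext t
  rw [rvc_apply, S.act_apply, S.act_apply, S.act_apply, rvc_apply, map_sub]

/-- piecewise linear curves read from their ends -/
theorem poly_rev {z : ℕ → ℂ} {n : ℕ} (hn : 1 ≤ n) (t : unitInterval) :
    Tight.poly (fun k => z (n - k)) n t = Tight.poly z n (unitInterval.symm t) := by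
  obtain ⟨i, hi, h1, h2⟩ := Tight.th2_idx hn t
  have e1 : (unitInterval.symm t : ℝ) * n = n - t * n := by
    rw [unitInterval.coe_symm_eq]
    ring
  have e2 : ((n - (i + 1) : ℕ) : ℝ) = n - (i + 1) := by
    rw [Nat.cast_sub (by omega)]
    push_cast
    ring
  rw [Tight.poly_apply hi h1 h2, Tight.poly_apply (i := n - (i + 1)) (by omega) (by rw [e1, e2]; linarith) (by rw [e1, e2]; linarith),
    e1, e2]
  have e3 : n - (i + 1) + 1 = n - i := by omega
  rw [e3]
  push_cast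
  ring

theorem curve_rvw {n : ℕ} (hn : Even n) (s : Fin n → Fin 3) : curve (rvw s) = rvc (curve s) := by
  rcases Nat.eq_zero_or_pos n with rfl | h1
  · ext t
    rw [rvc_apply]
    have h0 : ∀ (s' : Fin 0 → Fin 3) (u : unitInterval), curve s' u = 0 := fun s' u => by
      rw [NTSF.curve_eq]
      show pos s' 0 / size 0 + ∑ k ∈ Finset.range 0, ((max 0 (min 1 ((u : ℝ) * (0 : ℕ) - k)) : ℝ) : ℂ) *
        (pos s' (k + 1) / size 0 - pos s' k / size 0) = 0
      rw [Finset.sum_range_zero, pos_zero, zero_div, add_zero]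
    rw [h0, h0, h0, sub_self]
  · ext t
    rw [rvc_apply, NTSF.curve_one, NTSF.curve_eq, NTSF.curve_eq, ← poly_rev h1 t]
    obtain ⟨i, hi, q1, q2⟩ := Tight.th2_idx h1 t
    rw [Tight.poly_apply hi q1 q2, Tight.poly_apply hi q1 q2, pos_rvwE hn s hi.le, pos_rvwE hn s (by omega : i + 1 ≤ n)]
    ring

theorem curve_rvw' {n : ℕ} (hn : Odd n) (s : Fin n → Fin 3) : curve (rvw s) = -rvc (curve s) := by
  have h1 : 1 ≤ n := hn.pos
  ext t
  rw [ContinuousMap.neg_apply, rvc_apply, NTSF.curve_one, NTSF.curve_eq, NTSF.curve_eq, ← poly_rev h1 t]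
  obtain ⟨i, hi, q1, q2⟩ := Tight.th2_idx h1 t
  rw [Tight.poly_apply hi q1 q2, Tight.poly_apply hi q1 q2, pos_rvw hn s hi.le, pos_rvw hn s (by omega : i + 1 ≤ n)]
  ring

/-! ### the curve in units `S` -/

/-- the curve in units `S` -/
noncomputable def cv (S : ℝ) {n : ℕ} (s : Fin n → Fin 3) : C(unitInterval, ℂ) := (size n / S) • curve s

lemma cv_self {n : ℕ} (hn : 1 ≤ n) (s : Fin n → Fin 3) : cv (size n) s = curve s := by
  unfold cv
  rw [div_self (size_pos hn).ne', one_smul]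

lemma cv_poly {n : ℕ} (hn : 1 ≤ n) (S : ℝ) (s : Fin n → Fin 3) {i : ℕ} (hi : i < n) {t : unitInterval} (h1 : (i : ℝ) ≤ t * n)
    (h2 : (t : ℝ) * n ≤ i + 1) :
    cv S s t = (pos s i + ((t * n - i : ℝ) : ℂ) * (pos s (i + 1) - pos s i)) / S := by
  have hs : (size n : ℂ) ≠ 0 := Complex.ofReal_ne_zero.2 (size_pos hn).ne'
  unfold cv
  rw [ContinuousMap.smul_apply, NTSF.curve_eq, Tight.poly_apply hi h1 h2, Complex.real_smul]
  push_cast
  rw [div_mul_eq_mul_div]
  congr 1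
  field_simp

lemma cv_rvw {n : ℕ} (hn : Even n) (S : ℝ) (s : Fin n → Fin 3) : cv S (rvw s) = rvc (cv S s) := by
  unfold cv
  rw [curve_rvw hn, rvc_smul]

lemma cv_rvw' {n : ℕ} (hn : Odd n) (S : ℝ) (s : Fin n → Fin 3) : cv S (rvw s) = -rvc (cv S s) := by
  unfold cv
  rw [curve_rvw' hn, rvc_smul, smul_neg]

lemma cv_mpn (L : LSym) {n : ℕ} (S : ℝ) (s : Fin n → Fin 3) : cv S (mpn L s) = L.act (cv S s) := by
  unfold cv
  rw [curve_mpn]
  ext t
  rw [ContinuousMap.smul_apply, L.act_apply, L.act_apply, ContinuousMap.smul_apply, map_smul]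

lemma pos_sub_le {n : ℕ} (s : Fin n → Fin 3) {i j : ℕ} (hij : i ≤ j) (hj : j ≤ n) : ‖pos s j - pos s i‖ ≤ (j : ℝ) - i := by
  induction j, hij using Nat.le_induction with
  | base => rw [sub_self, norm_zero, sub_self]
  | succ j hij ih =>
    have h1 := ih (by omega)
    have h2 : ‖pos s (j + 1) - pos s j‖ = 1 := by
      rw [pos_succ s j (by omega), add_sub_cancel_left]
      unfold step
      rw [norm_mul, norm_pow, norm_neg, norm_one, one_pow, one_mul]
      have e : 2 * (Real.pi : ℂ) * Complex.I * (((s ⟨j, by omega⟩ : Fin 3) : ℕ) : ℂ) / 3 =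
        ((2 * Real.pi * (((s ⟨j, by omega⟩ : Fin 3) : ℕ) : ℝ) / 3 : ℝ) : ℂ) * Complex.I := by
        push_cast
        ring
      rw [e]
      exact Complex.norm_exp_ofReal_mul_I _
    have h3 := norm_add_le (pos s (j + 1) - pos s j) (pos s j - pos s i)
    rw [sub_add_sub_cancel] at h3
    push_cast
    linarith

/-- the last step is not seen -/
theorem cv_cutw {n : ℕ} (hn : 1 ≤ n) {S : ℝ} (hS : 0 < S) (s : Fin (n + 1) → Fin 3) : dist (cv S (cutw s)) (cv S s) ≤ 4 / S := by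
  rw [ContinuousMap.dist_le (by positivity)]
  intro t
  obtain ⟨i, hi, i1, i2⟩ := Tight.th2_idx (n := n + 1) (by omega) t
  obtain ⟨j, hj, j1, j2⟩ := Tight.th2_idx hn t
  rw [cv_poly hn S (cutw s) hj j1 j2, cv_poly (by omega) S s hi i1 i2, pos_cutw s hj.le, pos_cutw s (by omega : j + 1 ≤ n),
    dist_eq_norm, ← sub_div, norm_div, Complex.norm_of_nonneg hS.le]
  refine div_le_div_of_nonneg_right ?_ hS.le
  have t0 : (0 : ℝ) ≤ t := t.2.1
  have t1 : (t : ℝ) ≤ 1 := t.2.2
  push_cast at i1 i2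
  have g1 : (i : ℝ) ≤ j + 2 := by nlinarith
  have g2 : (j : ℝ) ≤ i + 1 := by nlinarith
  have d1 : ‖pos s j - pos s i‖ ≤ 2 := by
    rcases le_total i j with h | h
    · have := pos_sub_le s h (by omega)
      linarith
    · rw [norm_sub_rev]
      have := pos_sub_le s h (by omega)
      linarith
  have st : ∀ (k : ℕ) (a : ℝ), k < n + 1 → 0 ≤ a → a ≤ 1 → ‖(a : ℂ) * (pos s (k + 1) - pos s k)‖ ≤ 1 := by
    intro k a hk ha0 ha1
    rw [norm_mul, Complex.norm_of_nonneg ha0]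
    have h2 := pos_sub_le s (i := k) (j := k + 1) (by omega) (by omega)
    push_cast at h2
    have h3 := mul_le_mul ha1 (show ‖pos s (k + 1) - pos s k‖ ≤ 1 by linarith) (norm_nonneg _) zero_le_one
    linarith
  have s1 := st j (t * n - j) (by omega) (by linarith) (by linarith)
  have s2 := st i (t * (n + 1) - i) hi (by linarith) (by linarith)
  have e : pos s j + ((t * n - j : ℝ) : ℂ) * (pos s (j + 1) - pos s j) -
      (pos s i + ((t * ((n + 1 : ℕ) : ℝ) - i : ℝ) : ℂ) * (pos s (i + 1) - pos s i)) =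
      (pos s j - pos s i) + ((t * n - j : ℝ) : ℂ) * (pos s (j + 1) - pos s j) -
        ((t * (n + 1) - i : ℝ) : ℂ) * (pos s (i + 1) - pos s i) := by
    push_cast
    ring
  rw [e]
  have h5 := norm_sub_le ((pos s j - pos s i) + ((t * n - j : ℝ) : ℂ) * (pos s (j + 1) - pos s j))
    (((t * (n + 1) - i : ℝ) : ℂ) * (pos s (i + 1) - pos s i))
  have h6 := norm_add_le (pos s j - pos s i) (((t * n - j : ℝ) : ℂ) * (pos s (j + 1) - pos s j))
  linarith

/-- the last step has at most three values -/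
theorem sum_cutw {n : ℕ} (f : (Fin n → Fin 3) → ℝ) (hf : ∀ s, 0 ≤ f s) : ∑ s ∈ saw (n + 1), f (cutw s) ≤ 3 * ∑ s ∈ saw n, f s := by
  classical
  have h1 : ∑ s ∈ saw (n + 1), f (cutw s) ≤ ∑ p ∈ (saw n) ×ˢ (Finset.univ : Finset (Fin 3)), f p.1 := by
    rw [← sum_image (s := saw (n + 1)) (g := fun s => ((cutw s, s (Fin.last n)) : (Fin n → Fin 3) × Fin 3)) (f := fun p => f p.1)]
    · refine sum_le_sum_of_subset_of_nonneg (fun p hp => ?_) fun p _ _ => hf _
      rw [mem_image] at hp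
      obtain ⟨s, hs, rfl⟩ := hp
      exact mem_product.2 ⟨cutw_mem hs, mem_univ _⟩
    · intro s _ s' _ he
      have he1 : cutw s = cutw s' := congrArg Prod.fst he
      have he2 : s (Fin.last n) = s' (Fin.last n) := congrArg Prod.snd he
      funext i
      refine Fin.lastCases he2 (fun i => ?_) i
      exact congrFun he1 i
  refine h1.trans (le_of_eq ?_)
  rw [sum_product, mul_sum]
  refine sum_congr rfl fun s _ => ?_
  show ∑ _y : Fin 3, f s = 3 * f s
  rw [sum_const, Finset.card_univ, Fintype.card_fin, nsmul_eq_mul]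
  norm_num

/-! ### functionals at the end -/

/-- the functional `f` at the end of the walk -/
noncomputable def endf (f : ∀ n : ℕ, (Fin n → Fin 3) → ℝ) : ∀ n : ℕ, (Fin n → Fin 3) → ℝ
  | 0, s => f 0 s
  | (n + 1), s => if Even n then f n (rvw (cutw s)) else f (n + 1) (rvw s)

lemma endf_E (f : ∀ n : ℕ, (Fin n → Fin 3) → ℝ) {n : ℕ} (hn : Even n) (h1 : 1 ≤ n) (s : Fin n → Fin 3) :
    endf f n s = f n (rvw s) := by
  obtain ⟨m, rfl⟩ : ∃ m, n = m + 1 := ⟨n - 1, by omega⟩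
  exact if_neg (Nat.even_add_one.1 hn)

lemma endf_O (f : ∀ n : ℕ, (Fin n → Fin 3) → ℝ) {n : ℕ} (hn : Even n) (s : Fin (n + 1) → Fin 3) :
    endf f (n + 1) s = f n (rvw (cutw s)) := if_pos hn

theorem endf_even {f : ∀ n : ℕ, (Fin n → Fin 3) → ℝ} {n : ℕ} (hn : Even n) (h1 : 1 ≤ n) (S : ℝ) (φ : C(unitInterval, ℂ) → ℝ) :
    ∑ s ∈ saw n, |endf f n s - φ (rvc (cv S s))| = ∑ s ∈ saw n, |f n s - φ (cv S s)| := by
  rw [← sum_rvw fun s => |f n s - φ (cv S s)|]
  refine sum_congr rfl fun s _ => ?_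
  rw [endf_E f hn h1, cv_rvw hn]

theorem endf_odd {f : ∀ n : ℕ, (Fin n → Fin 3) → ℝ} {n : ℕ} (hn : Even n) (h1 : 1 ≤ n) {S : ℝ} (hS : 0 < S)
    {φ : C(unitInterval, ℂ) → ℝ} {K : NNReal} (hφ : LipschitzWith K φ) :
    ∑ s ∈ saw (n + 1), |endf f (n + 1) s - φ (rvc (cv S s))| ≤
      3 * ∑ s ∈ saw n, |f n s - φ (cv S s)| + 8 * K / S * ((saw (n + 1)).card : ℝ) := by
  have h2 : ∀ s ∈ saw (n + 1), |endf f (n + 1) s - φ (rvc (cv S s))| ≤
      |f n (rvw (cutw s)) - φ (cv S (rvw (cutw s)))| + 8 * K / S := by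
    intro s _
    rw [endf_O f hn, cv_rvw hn]
    have h3 := hφ.dist_le_mul (rvc (cv S (cutw s))) (rvc (cv S s))
    have h4 := rvc_dist (cv S (cutw s)) (cv S s)
    have h5 := cv_cutw h1 hS s
    have h6 : (K : ℝ) * dist (rvc (cv S (cutw s))) (rvc (cv S s)) ≤ K * (2 * (4 / S)) :=
      mul_le_mul_of_nonneg_left (h4.trans (by linarith)) K.coe_nonneg
    have h7 : (K : ℝ) * (2 * (4 / S)) = 8 * K / S := by ring
    rw [Real.dist_eq] at h3
    have h8 := abs_sub_le (f n (rvw (cutw s))) (φ (rvc (cv S (cutw s)))) (φ (rvc (cv S s)))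
    linarith
  refine (sum_le_sum h2).trans ?_
  rw [sum_add_distrib, sum_const, nsmul_eq_mul, mul_comm ((saw (n + 1)).card : ℝ)]
  have h3 := sum_cutw (fun s => |f n (rvw s) - φ (cv S (rvw s))|) fun s => abs_nonneg _
  rw [sum_rvw fun s => |f n s - φ (cv S s)|] at h3
  linarith

/-- **functionals at the end of the walk**: `A n S` = the allowed units -/
theorem endf_of {A : ℕ → ℝ → Prop} {K : NNReal} {ε : ℝ} (hε : 0 < ε) {f : ∀ n : ℕ, ℝ → (Fin n → Fin 3) → ℝ}
    {φ : ℕ → ℝ → C(unitInterval, ℂ) → ℝ} (hφ : ∀ n S, A n S → LipschitzWith K (φ n S)) {n0 : ℕ}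
    (h : ∀ (n : ℕ) (S : ℝ), n0 ≤ n → A n S → ∑ s ∈ saw n, |f n S s - φ n S (cv S s)| ≤ ε * ((saw n).card : ℝ)) :
    ∃ (n1 : ℕ) (S0 : ℝ), 0 < S0 ∧ ∀ (n : ℕ) (S : ℝ), n1 ≤ n → S0 ≤ S →
      (Even n → A n S → ∑ s ∈ saw n, |endf (fun m => f m S) n s - φ n S (rvc (cv S s))| ≤ ε * ((saw n).card : ℝ)) ∧
      (Even n → A n S → ∑ s ∈ saw (n + 1), |endf (fun m => f m S) (n + 1) s - φ n S (rvc (cv S s))| ≤
        4 * ε * ((saw (n + 1)).card : ℝ)) := by
  obtain ⟨n2, hn2⟩ := saw_le_succ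
  refine ⟨max (max n0 n2) 1, 8 * K / ε + 1, by positivity, fun n S hn hS => ?_⟩
  have a1 : n0 ≤ n := (le_max_left _ _).trans ((le_max_left _ _).trans hn)
  have a2 : n2 ≤ n := (le_max_right _ _).trans ((le_max_left _ _).trans hn)
  have a3 : 1 ≤ n := (le_max_right _ _).trans hn
  refine ⟨fun he hA => ?_, fun he hA => ?_⟩
  · rw [endf_even he a3]
    exact h n S a1 hA
  · have hS0 : 0 < S := lt_of_lt_of_le (by positivity) hS
    refine (endf_odd he a3 hS0 (hφ n S hA)).trans ?_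
    have h1 := h n S a1 hA
    have h2 := hn2 n a2
    have h3 : 8 * (K : ℝ) / S ≤ ε := by
      rw [div_le_iff₀ hS0]
      have h4 : 8 * (K : ℝ) / ε * ε = 8 * K := div_mul_cancel₀ _ hε.ne'
      nlinarith
    have h4 := mul_le_mul_of_nonneg_right h3 (Nat.cast_nonneg (α := ℝ) (saw (n + 1)).card)
    have h5 := mul_le_mul_of_nonneg_left h2 hε.le
    linarith

end Pool.Agent.ROT.F3
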