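import Pool.Agent.ROT.F3Cut

/-!
# ROT / F3Pos (helper61): the pieces of a closed word as position functions

`w` a closed word, roots `0` and `m` (even). `fw w m j = ps w (m + j) - ps w m`, `bw w m j = ps w (m - j) - ps w m` : the positions
seen from the root number `m`, forwards and backwards (for the root `0` backwards: `bw w |w|`).

* `ps_seg`, `en_seg`, `ps_seg_reverse`, `ps_drop_reverse`, ... : the vertices of the pieces;
* `Cl.seg` : a proper piece of a closed word is self-avoiding; `Cl.ne` : two vertices of a closed word are different;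
* `PC` : local predicates of (length, position function), `PC.S` : the set of words; `mem_seg`, `mem_seg_rev`, ... : membership of
  the pieces.
-/

set_option autoImplicit false

namespace Pool.Agent.ROT.F3

open Finset
open scoped ENNReal Classical

/-- the positions seen from the vertex number `m`, forwards -/
noncomputable def fw (w : W3) (m j : ℕ) : ℂ := ps w (m + j) - ps w m

/-- the positions seen from the vertex number `m`, backwards -/
noncomputable def bw (w : W3) (m j : ℕ) : ℂ := ps w (m - j) - ps w m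

/-! ### the vertices of the pieces -/

lemma length_seg {w : W3} {a b : ℕ} (hb : b ≤ w.length) : (seg w a b).length = b - a := by
  unfold seg
  rw [List.length_take, List.length_drop]
  omega

lemma even_seg {w : W3} {a b : ℕ} (hb : b ≤ w.length) (hab : a ≤ b) (ea : Even a) (eb : Even b) :
    Even (seg w a b).length := by
  rw [length_seg hb]
  exact (Nat.even_sub hab).2 ⟨fun _ => ea, fun _ => eb⟩

lemma ps_seg {w : W3} {a b j : ℕ} (ea : Even a) (hab : a ≤ b) (hb : b ≤ w.length) (hj : j ≤ b - a) :
    ps (seg w a b) j = fw w a j := by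
  unfold seg fw
  rw [ps_take _ hj (by rw [List.length_drop]; omega), ps_append_drop w (by omega) ea]

lemma en_seg {w : W3} {a b : ℕ} (ea : Even a) (hab : a ≤ b) (hb : b ≤ w.length) :
    en (seg w a b) = ps w b - ps w a := by
  rw [en, length_seg hb, ps_seg ea hab hb le_rfl, fw, Nat.add_sub_cancel' hab]

lemma ps_seg_reverse {w : W3} {a b j : ℕ} (ea : Even a) (eb : Even b) (hab : a ≤ b) (hb : b ≤ w.length)
    (hj : j ≤ b - a) : ps (seg w a b).reverse j = bw w b j := by
  rw [ps_reverse (even_seg hb hab ea eb) (by rw [length_seg hb]; exact hj), length_seg hb, ps_seg ea hab hb (by omega),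
    en_seg ea hab hb, fw, bw, show a + (b - a - j) = b - j by omega]
  ring

lemma en_seg_reverse {w : W3} {a b : ℕ} (ea : Even a) (eb : Even b) (hab : a ≤ b) (hb : b ≤ w.length) :
    en (seg w a b).reverse = ps w a - ps w b := by
  rw [en_reverse (even_seg hb hab ea eb), en_seg ea hab hb]
  ring

lemma seg_full (w : W3) (a : ℕ) : seg w a w.length = w.drop a := by
  unfold seg
  exact List.take_of_length_le (by rw [List.length_drop])

lemma ps_drop_reverse {w : W3} {a j : ℕ} (ea : Even a) (ew : Even w.length) (ha : a ≤ w.length) (hj : j ≤ w.length - a) :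
    ps (w.drop a).reverse j = bw w w.length j := by
  rw [← seg_full, ps_seg_reverse ea ew ha le_rfl hj]

lemma en_drop_reverse {w : W3} {a : ℕ} (ea : Even a) (ew : Even w.length) (ha : a ≤ w.length) :
    en (w.drop a).reverse = ps w a - ps w w.length := by
  rw [← seg_full, en_seg_reverse ea ew ha le_rfl]

lemma Cl.last {w : W3} (h : Cl w) : ps w w.length = 0 := h.2.1

lemma bw_last {w : W3} (h : Cl w) (j : ℕ) : bw w w.length j = ps w (w.length - j) := by
  rw [bw, h.last, sub_zero]

lemma fw_zero (w : W3) (j : ℕ) : fw w 0 j = ps w j := by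
  rw [fw, zero_add, ps_zero, sub_zero]

/-! ### self-avoidance of the pieces -/

/-- the vertices of a closed word: numbers `j`, `k <= |w|` give the same vertex only if `j = k` or they are `0`, `|w|` -/
lemma Cl.ne {w : W3} (h : Cl w) {j k : ℕ} (hj : j ≤ w.length) (hk : k ≤ w.length) (he : ps w j = ps w k) :
    j = k ∨ (j = 0 ∧ k = w.length) ∨ (j = w.length ∧ k = 0) := by
  rcases hj.lt_or_eq with hj1 | hj1 <;> rcases hk.lt_or_eq with hk1 | hk1
  · exact Or.inl (h.2.2 j k hj1 hk1 he)
  · subst hk1
    rw [h.last, ← ps_zero w] at he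
    exact Or.inr (Or.inl ⟨h.2.2 j 0 hj1 (by omega) he, rfl⟩)
  · subst hj1
    rw [h.last, ← ps_zero w] at he
    exact Or.inr (Or.inr ⟨rfl, (h.2.2 0 k (by omega) hk1 he).symm⟩)
  · exact Or.inl (by omega)

/-- a proper piece of a closed word is self-avoiding -/
theorem Cl.seg {w : W3} (h : Cl w) {a b : ℕ} (ea : Even a) (hab : a ≤ b) (hb : b ≤ w.length) (hp : 0 < a ∨ b < w.length) :
    SW (seg w a b) := by
  intro j k hj hk he
  rw [length_seg hb] at hj hk
  rw [ps_seg ea hab hb hj, ps_seg ea hab hb hk, fw, fw, sub_left_inj] at he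
  have := h.ne (by omega) (by omega) he
  omega

theorem Cl.seg_reverse {w : W3} (h : Cl w) {a b : ℕ} (ea : Even a) (eb : Even b) (hab : a ≤ b) (hb : b ≤ w.length)
    (hp : 0 < a ∨ b < w.length) : SW (F3.seg w a b).reverse :=
  (SW_reverse (even_seg hb hab ea eb)).2 (h.seg ea hab hb hp)

/-- the connection at the root `0` -/
theorem Cl.cn_zero {w : W3} (h : Cl w) {a b : ℕ} (ea : Even a) (eb : Even b) (hab : a < b) (hb : b ≤ w.length) :
    Cn (F3.seg w 0 a, (w.drop b).reverse) := by
  have e0 : Even (0 : ℕ) := Even.zero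
  have hp1 : ∀ j ≤ a, ps (F3.seg w 0 a) j = ps w j := fun j hj => by
    rw [ps_seg e0 (Nat.zero_le _) (by omega) (by omega), fw_zero]
  have hp2 : ∀ j ≤ w.length - b, ps (w.drop b).reverse j = ps w (w.length - j) := fun j hj => by
    rw [ps_drop_reverse eb h.1 hb hj, bw_last h]
  refine ⟨even_seg (by omega) (Nat.zero_le _) e0 ea, ?_, h.seg e0 (Nat.zero_le _) (by omega) (Or.inr (by omega)), ?_, ?_⟩
  · rw [List.length_reverse, List.length_drop]
    exact (Nat.even_sub hb).2 ⟨fun _ => eb, fun _ => h.1⟩
  · show SW (w.drop b).reverse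
    rw [← seg_full]
    exact h.seg_reverse eb h.1 hb le_rfl (Or.inl (by omega))
  · intro j k hj hk he
    simp only at hj hk he
    rw [length_seg (by omega)] at hj
    rw [List.length_reverse, List.length_drop] at hk
    rw [hp1 j (by omega), hp2 k hk] at he
    have := h.ne (by omega) (by omega) he
    omega

/-- the connection at the root number `m` -/
theorem Cl.cn_mid {w : W3} (h : Cl w) {a m b : ℕ} (ea : Even a) (em : Even m) (eb : Even b) (ham : a ≤ m) (hmb : m ≤ b)
    (hb : b ≤ w.length) (hp : 0 < a ∨ b < w.length) : Cn ((F3.seg w a m).reverse, F3.seg w m b) := by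
  refine ⟨?_, even_seg hb hmb em eb, h.seg_reverse ea em ham (by omega) (by omega), h.seg em hmb hb (by omega), ?_⟩
  · show Even (F3.seg w a m).reverse.length
    rw [List.length_reverse]
    exact even_seg (by omega) ham ea em
  · intro j k hj hk he
    simp only at hj hk he
    rw [List.length_reverse, length_seg (by omega)] at hj
    rw [length_seg hb] at hk
    rw [ps_seg_reverse ea em ham (by omega) hj, ps_seg em hmb hb hk, fw, bw, sub_left_inj] at he
    have := h.ne (by omega) (by omega) he
    omega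

/-! ### local predicates of the position function -/

/-- a predicate of a length and a position function, which depends on the positions up to the length only -/
structure PC where
  /-- the predicate -/
  P : ℕ → (ℕ → ℂ) → Prop
  /-- locality -/
  loc : ∀ (n : ℕ) (p q : ℕ → ℂ), (∀ j ≤ n, p j = q j) → P n p → P n q

/-- the words with the property -/
def PC.S (C : PC) : Set W3 := {u | C.P u.length (ps u)}

lemma PC.iff (C : PC) {n : ℕ} {p q : ℕ → ℂ} (h : ∀ j ≤ n, p j = q j) : C.P n p ↔ C.P n q :=
  ⟨C.loc n p q h, C.loc n q p fun j hj => (h j hj).symm⟩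

lemma PC.mem_of (C : PC) {u : W3} {n : ℕ} {p : ℕ → ℂ} (hn : u.length = n) (h : ∀ j ≤ n, ps u j = p j) :
    u ∈ C.S ↔ C.P n p := by
  subst hn
  exact C.iff h

lemma PC.mem_seg (C : PC) {w : W3} {a b : ℕ} (ea : Even a) (hab : a ≤ b) (hb : b ≤ w.length) :
    seg w a b ∈ C.S ↔ C.P (b - a) (fw w a) :=
  C.mem_of (length_seg hb) fun _ hj => ps_seg ea hab hb hj

lemma PC.mem_seg_reverse (C : PC) {w : W3} {a b : ℕ} (ea : Even a) (eb : Even b) (hab : a ≤ b) (hb : b ≤ w.length) :
    (seg w a b).reverse ∈ C.S ↔ C.P (b - a) (bw w b) :=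
  C.mem_of (by rw [List.length_reverse, length_seg hb]) fun _ hj => ps_seg_reverse ea eb hab hb hj

lemma PC.mem_zero (C : PC) {w : W3} {b : ℕ} (hb : b ≤ w.length) : seg w 0 b ∈ C.S ↔ C.P b (ps w) := by
  refine C.mem_of (by rw [length_seg hb, Nat.sub_zero]) fun j hj => ?_
  rw [ps_seg Even.zero (Nat.zero_le _) hb (by omega), fw_zero]

lemma PC.mem_drop_reverse (C : PC) {w : W3} (h : Cl w) {a : ℕ} (ea : Even a) (ha : a ≤ w.length) :
    (w.drop a).reverse ∈ C.S ↔ C.P (w.length - a) (fun j => ps w (w.length - j)) := by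
  refine C.mem_of (by rw [List.length_reverse, List.length_drop]) fun j hj => ?_
  rw [ps_drop_reverse ea h.1 ha hj, bw_last h]

/-- a predicate of two lengths and two position functions (connections: the two pieces at a root) -/
structure PC2 where
  /-- the predicate -/
  P : ℕ → (ℕ → ℂ) → ℕ → (ℕ → ℂ) → Prop
  /-- locality -/
  loc : ∀ (n : ℕ) (p q : ℕ → ℂ) (n' : ℕ) (p' q' : ℕ → ℂ), (∀ j ≤ n, p j = q j) → (∀ j ≤ n', p' j = q' j) →
    P n p n' p' → P n q n' q'

/-- the pairs of words with the property -/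
def PC2.S (C : PC2) : Set (W3 × W3) := {u | C.P u.1.length (ps u.1) u.2.length (ps u.2)}

lemma PC2.iff (C : PC2) {n n' : ℕ} {p q p' q' : ℕ → ℂ} (h : ∀ j ≤ n, p j = q j) (h' : ∀ j ≤ n', p' j = q' j) :
    C.P n p n' p' ↔ C.P n q n' q' :=
  ⟨C.loc n p q n' p' q' h h', C.loc n q p n' q' p' (fun j hj => (h j hj).symm) fun j hj => (h' j hj).symm⟩

lemma PC2.mem_of (C : PC2) {u v : W3} {n n' : ℕ} {p p' : ℕ → ℂ} (hn : u.length = n) (h : ∀ j ≤ n, ps u j = p j)
    (hn' : v.length = n') (h' : ∀ j ≤ n', ps v j = p' j) : (u, v) ∈ C.S ↔ C.P n p n' p' := by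
  subst hn
  subst hn'
  exact C.iff h h'

/-- the connection at the root `0` -/
lemma PC2.mem_zero (C : PC2) {w : W3} (h : Cl w) {a b : ℕ} (eb : Even b) (ha : a ≤ w.length) (hb : b ≤ w.length) :
    (seg w 0 a, (w.drop b).reverse) ∈ C.S ↔ C.P a (ps w) (w.length - b) (fun j => ps w (w.length - j)) := by
  refine C.mem_of (by rw [length_seg ha, Nat.sub_zero]) (fun j hj => ?_) (by rw [List.length_reverse, List.length_drop])
    fun j hj => ?_
  · rw [ps_seg Even.zero (Nat.zero_le _) ha (by omega), fw_zero]
  · rw [ps_drop_reverse eb h.1 hb hj, bw_last h]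

/-- the connection at the root number `m` -/
lemma PC2.mem_mid (C : PC2) {w : W3} {a m b : ℕ} (ea : Even a) (em : Even m) (ham : a ≤ m) (hmb : m ≤ b)
    (hb : b ≤ w.length) :
    ((seg w a m).reverse, seg w m b) ∈ C.S ↔ C.P (m - a) (bw w m) (b - m) (fw w m) :=
  C.mem_of (by rw [List.length_reverse, length_seg (by omega)])
    (fun _ hj => ps_seg_reverse ea em ham (by omega) hj) (length_seg hb) fun _ hj => ps_seg em hmb hb hj

end Pool.Agent.ROT.F3
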