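import Pool.Agent.ROT.F3Dic
import Pool.Agent.ROT.F3Pos

/-!
# F3, route NL (31): the pieces of a curve between two times

* `cutc g a b` : the piece of the curve `g` between the times `a`, `b`, from the origin; `a > b` gives the reversed piece;
* **`cutc_continuous`** : jointly continuous; `cutc_dist` : Lipschitz in `g`;
* **`crv_seg`**, **`crv_seg_reverse`** : the curve of a piece of a word is the piece of the curve of the word.
-/

set_option autoImplicit false

namespace Pool.Agent.ROT.F3

open Finset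
open scoped unitInterval

/-- the point `(1 - s) a + s b` of the unit interval -/
def cvx (a b s : unitInterval) : unitInterval :=
  ⟨(1 - (s : ℝ)) * a + s * b, by
    have h1 := a.2.1
    have h2 := b.2.1
    have h3 := s.2.1
    have h4 := s.2.2
    exact add_nonneg (mul_nonneg (by linarith) h1) (mul_nonneg h3 h2), by
    have h1 := a.2.2
    have h2 := b.2.2
    have h3 := s.2.1
    have h4 := s.2.2
    nlinarith⟩

lemma cvx_coe (a b s : unitInterval) : ((cvx a b s : unitInterval) : ℝ) = (1 - (s : ℝ)) * a + s * b := rfl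

lemma cvx_zero (a b : unitInterval) : cvx a b 0 = a := by
  apply Subtype.ext
  rw [cvx_coe]
  simp

lemma cvx_one (a b : unitInterval) : cvx a b 1 = b := by
  apply Subtype.ext
  rw [cvx_coe]
  simp

lemma cvx_continuous : Continuous fun p : unitInterval × unitInterval × unitInterval => cvx p.1 p.2.1 p.2.2 := by
  unfold cvx
  refine Continuous.subtype_mk ?_ _
  fun_prop

/-- the piece of the curve between the times `a` and `b`, from the origin -/
noncomputable def cutc (g : C(unitInterval, ℂ)) (a b : unitInterval) : C(unitInterval, ℂ) where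
  toFun s := g (cvx a b s) - g a
  continuous_toFun := by
    have h1 : Continuous fun s => cvx a b s := cvx_continuous.comp (by fun_prop : Continuous fun s => (a, b, s))
    exact (g.continuous.comp h1).sub continuous_const

lemma cutc_apply (g : C(unitInterval, ℂ)) (a b s : unitInterval) : cutc g a b s = g (cvx a b s) - g a := rfl

lemma cutc_zero (g : C(unitInterval, ℂ)) (a b : unitInterval) : cutc g a b 0 = 0 := by
  rw [cutc_apply, cvx_zero, sub_self]

lemma cutc_one (g : C(unitInterval, ℂ)) (a b : unitInterval) : cutc g a b 1 = g b - g a := by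
  rw [cutc_apply, cvx_one]

lemma cutc_self (g : C(unitInterval, ℂ)) (a : unitInterval) : cutc g a a = 0 := by
  ext s
  rw [cutc_apply]
  have : cvx a a s = a := by
    apply Subtype.ext
    rw [cvx_coe]
    ring
  rw [this, sub_self]
  rfl

/-- **the piece depends continuously on the curve and on the times** -/
theorem cutc_continuous :
    Continuous fun p : C(unitInterval, ℂ) × unitInterval × unitInterval => cutc p.1 p.2.1 p.2.2 := by
  refine ContinuousMap.continuous_of_continuous_uncurry _ ?_
  show Continuous fun q : (C(unitInterval, ℂ) × unitInterval × unitInterval) × unitInterval =>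
    q.1.1 (cvx q.1.2.1 q.1.2.2 q.2) - q.1.1 q.1.2.1
  have h1 : Continuous fun q : (C(unitInterval, ℂ) × unitInterval × unitInterval) × unitInterval =>
      cvx q.1.2.1 q.1.2.2 q.2 :=
    cvx_continuous.comp (by fun_prop : Continuous fun q : (C(unitInterval, ℂ) × unitInterval × unitInterval) × unitInterval =>
      (q.1.2.1, q.1.2.2, q.2))
  fun_prop

lemma cutc_dist (g h : C(unitInterval, ℂ)) (a b : unitInterval) : dist (cutc g a b) (cutc h a b) ≤ 2 * dist g h := by
  rw [ContinuousMap.dist_le (by positivity)]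
  intro s
  rw [cutc_apply, cutc_apply, dist_eq_norm]
  have h1 := ContinuousMap.dist_apply_le_dist (f := g) (g := h) (cvx a b s)
  have h2 := ContinuousMap.dist_apply_le_dist (f := g) (g := h) a
  rw [dist_eq_norm] at h1 h2
  calc ‖g (cvx a b s) - g a - (h (cvx a b s) - h a)‖ = ‖(g (cvx a b s) - h (cvx a b s)) - (g a - h a)‖ := by
        congr 1
        ring
    _ ≤ ‖g (cvx a b s) - h (cvx a b s)‖ + ‖g a - h a‖ := norm_sub_le _ _
    _ ≤ 2 * dist g h := by linarith

/-- the piece of the piece -/
lemma cutc_cutc (g : C(unitInterval, ℂ)) (a b c d : unitInterval) :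
    cutc (cutc g a b) c d = cutc g (cvx a b c) (cvx a b d) := by
  ext s
  rw [cutc_apply, cutc_apply, cutc_apply, cutc_apply]
  have : cvx a b (cvx c d s) = cvx (cvx a b c) (cvx a b d) s := by
    apply Subtype.ext
    simp only [cvx_coe]
    ring
  rw [this]
  ring

/-- the time of the vertex number `i` of `n` -/
noncomputable def fr (i n : ℕ) : unitInterval :=
  ⟨min 1 ((i : ℝ) / n), le_min zero_le_one (by positivity), min_le_left _ _⟩

lemma fr_coe {i n : ℕ} (h : i ≤ n) : ((fr i n : unitInterval) : ℝ) = (i : ℝ) / n := by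
  show min 1 ((i : ℝ) / n) = _
  refine min_eq_right ?_
  rcases Nat.eq_zero_or_pos n with rfl | hn
  · simp
  · rw [div_le_one (by exact_mod_cast hn)]
    exact_mod_cast h

lemma fr_mul {i n : ℕ} (h : i ≤ n) (hn : 1 ≤ n) : ((fr i n : unitInterval) : ℝ) * n = i := by
  rw [fr_coe h, div_mul_cancel₀]
  exact_mod_cast (by omega : n ≠ 0)

lemma fr_zero (n : ℕ) : fr 0 n = 0 := by
  apply Subtype.ext
  rw [fr_coe (Nat.zero_le _)]
  simp

lemma fr_self {n : ℕ} (hn : 1 ≤ n) : fr n n = 1 := by
  apply Subtype.ext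
  rw [fr_coe le_rfl, div_self]
  · rfl
  · exact_mod_cast (by omega : n ≠ 0)

/-- a point of the time axis is in an edge -/
lemma edge_of {m : ℕ} (hm : 1 ≤ m) {x : ℝ} (h0 : 0 ≤ x) (h1 : x ≤ m) : ∃ k : ℕ, k < m ∧ (k : ℝ) ≤ x ∧ x ≤ k + 1 := by
  rcases lt_or_ge ⌊x⌋₊ m with h | h
  · exact ⟨⌊x⌋₊, h, Nat.floor_le h0, (Nat.lt_floor_add_one x).le⟩
  · have h2 : (m : ℝ) ≤ x := (Nat.cast_le.2 h).trans (Nat.floor_le h0)
    refine ⟨m - 1, by omega, ?_, ?_⟩
    · rw [Nat.cast_sub hm, Nat.cast_one]
      linarith
    · rw [Nat.cast_sub hm, Nat.cast_one]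
      linarith

lemma crv_nil_steps (w : W3) (d : ℝ) : crv w 0 d = 0 := by
  ext s
  show ps w 0 / d + ∑ i ∈ range 0, _ = 0
  rw [range_zero, sum_empty, ps_zero, zero_div, add_zero]

/-- **the curve of a piece** -/
theorem crv_seg {w : W3} {i j n : ℕ} (ei : Even i) (hij : i ≤ j) (hj : j ≤ n) (hn : n ≤ w.length) (d : ℝ) :
    crv (seg w i j) (j - i) d = cutc (crv w n d) (fr i n) (fr j n) := by
  rcases Nat.eq_or_lt_of_le hij with rfl | hlt
  · rw [Nat.sub_self, crv_nil_steps, cutc_self]
  ext s
  have hn1 : 1 ≤ n := by omega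
  have hm : 1 ≤ j - i := by omega
  have hcast : ((j - i : ℕ) : ℝ) = j - i := by rw [Nat.cast_sub hij]
  have hs0 := s.2.1
  have hs1 := s.2.2
  obtain ⟨k, hk, h1, h2⟩ := edge_of hm (x := (s : ℝ) * ((j - i : ℕ) : ℝ)) (by positivity) (by
    exact mul_le_of_le_one_left (Nat.cast_nonneg _) hs1)
  have ht : ((cvx (fr i n) (fr j n) s : unitInterval) : ℝ) * n = i + (s : ℝ) * ((j - i : ℕ) : ℝ) := by
    rw [cvx_coe, hcast]
    have e1 := fr_mul (i := i) (n := n) (by omega) hn1
    have e2 := fr_mul (i := j) (n := n) hj hn1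
    calc ((1 - (s : ℝ)) * (fr i n : unitInterval) + s * (fr j n : unitInterval)) * n =
        (1 - (s : ℝ)) * ((fr i n : unitInterval) * n) + s * ((fr j n : unitInterval) * n) := by ring
      _ = _ := by
        rw [e1, e2]
        ring
  rw [crv_apply hk h1 h2, cutc_apply, crv_vertex (w := w) (k := i) hn1 (by omega) (fr_mul (by omega) hn1),
    crv_apply (w := w) (i := i + k) (by omega) (by rw [ht]; push_cast; linarith) (by rw [ht]; push_cast; linarith), ht,
    ps_seg ei hij (by omega) (by omega), ps_seg ei hij (by omega) (by omega)]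
  unfold fw
  push_cast
  rw [show i + (k + 1) = i + k + 1 by ring]
  field_simp
  ring

/-- **the curve of a reversed piece** -/
theorem crv_seg_reverse {w : W3} {i j n : ℕ} (ei : Even i) (ej : Even j) (hij : i ≤ j) (hj : j ≤ n) (hn : n ≤ w.length)
    (d : ℝ) : crv (seg w i j).reverse (j - i) d = cutc (crv w n d) (fr j n) (fr i n) := by
  rcases Nat.eq_or_lt_of_le hij with rfl | hlt
  · rw [Nat.sub_self, crv_nil_steps, cutc_self]
  ext s
  have hn1 : 1 ≤ n := by omega
  have hm : 1 ≤ j - i := by omega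
  have hcast : ((j - i : ℕ) : ℝ) = j - i := by rw [Nat.cast_sub hij]
  have hs0 := s.2.1
  have hs1 := s.2.2
  obtain ⟨k, hk, h1, h2⟩ := edge_of hm (x := (s : ℝ) * ((j - i : ℕ) : ℝ)) (by positivity) (by
    exact mul_le_of_le_one_left (Nat.cast_nonneg _) hs1)
  have ht : ((cvx (fr j n) (fr i n) s : unitInterval) : ℝ) * n = j - (s : ℝ) * ((j - i : ℕ) : ℝ) := by
    rw [cvx_coe, hcast]
    have e1 := fr_mul (i := i) (n := n) (by omega) hn1
    have e2 := fr_mul (i := j) (n := n) hj hn1
    calc ((1 - (s : ℝ)) * (fr j n : unitInterval) + s * (fr i n : unitInterval)) * n =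
        (1 - (s : ℝ)) * ((fr j n : unitInterval) * n) + s * ((fr i n : unitInterval) * n) := by ring
      _ = _ := by
        rw [e1, e2]
        ring
  have hq : ((j - (k + 1) : ℕ) : ℝ) = j - (k + 1) := by
    rw [Nat.cast_sub (by omega)]
    push_cast
    ring
  rw [crv_apply hk h1 h2, cutc_apply, crv_vertex (w := w) (k := j) hn1 hj (fr_mul hj hn1),
    crv_apply (w := w) (i := j - (k + 1)) (by omega) (by rw [ht, hq]; linarith) (by rw [ht, hq]; linarith), ht, hq,
    ps_seg_reverse ei ej hij (by omega) (by omega), ps_seg_reverse ei ej hij (by omega) (by omega)]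
  unfold bw
  rw [show j - (k + 1) + 1 = j - k by omega]
  push_cast
  field_simp
  ring

/-- the whole word -/
lemma crv_full {w : W3} {n : ℕ} (d : ℝ) : cutc (crv w n d) 0 1 = crv w n d := by
  ext s
  rw [cutc_apply, crv_zero, sub_zero]
  congr 1
  apply Subtype.ext
  rw [cvx_coe]
  simp

end Pool.Agent.ROT.F3
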