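import Mathlib

/-!
# F3, row C3 (31): functionals which are constant on the fibres of `ρ` are functions of `ρ`

* `fac_real`, **`fac`** : `T g = T g'` for all `g`, `g'` of a set `G` of full measure with `ρ g = ρ g'` ==> `T = T' ∘ ρ` almost
  everywhere, with `T'` measurable;
* **`fac_fam`** : countably many systems at once;
* **`tau_of`** : the set `C` and the map `τ` on the rests, from a locality statement;
* **`sum_glue`** : countably many classes of which at most one contains a given curve, as one class.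
-/

set_option autoImplicit false

open MeasureTheory ProbabilityTheory Set
open scoped ENNReal

namespace Pool.Agent.ROT.F3

variable {Γ Y Z : Type*} [MeasurableSpace Γ] [StandardBorelSpace Γ] [MeasurableSpace Y] [StandardBorelSpace Y]

/-- a real functional -/
theorem fac_real {P : Measure Γ} [IsFiniteMeasure P] {ρ : Γ → Y} (hρ : Measurable ρ) {T : Γ → ℝ} (hT : Measurable T)
    {G : Set Γ} (hG : ∀ᵐ g ∂P, g ∈ G)
    (h : ∀ g ∈ G, ∀ g' ∈ G, ρ g = ρ g' → T g = T g') :
    ∃ T' : Y → ℝ, Measurable T' ∧ ∀ᵐ g ∂P, T g = T' (ρ g) := by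
  rcases isEmpty_or_nonempty Γ with he | hne
  · exact ⟨fun _ => 0, measurable_const, ae_of_all _ fun g => (he.false g).elim⟩
  -- a measurable set of full measure
  obtain ⟨G', hG'G, hG'm, hG'⟩ : ∃ G' ⊆ G, MeasurableSet G' ∧ ∀ᵐ g ∂P, g ∈ G' := by
    obtain ⟨t, ht1, ht2, ht3⟩ := exists_measurable_superset_of_null (show P Gᶜ = 0 from hG)
    refine ⟨tᶜ, compl_subset_comm.1 ht1, ht2.compl, ?_⟩
    show P tᶜᶜ = 0
    rwa [compl_compl]
  have hm : Measurable fun g => (ρ g, g) := hρ.prodMk measurable_id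
  have e1 : (P.map ρ) ⊗ₘ condDistrib id ρ P = P.map fun g => (ρ g, id g) :=
    compProd_map_condDistrib aemeasurable_id
  simp only [id] at e1
  have hS : MeasurableSet {p : Y × Γ | ρ p.2 = p.1 ∧ p.2 ∈ G'} :=
    (measurableSet_eq_fun (hρ.comp measurable_snd) measurable_fst).inter (measurable_snd hG'm)
  have h1 : ∀ᵐ p ∂((P.map ρ) ⊗ₘ condDistrib id ρ P), ρ p.2 = p.1 ∧ p.2 ∈ G' := by
    rw [e1, ae_map_iff hm.aemeasurable hS]
    filter_upwards [hG'] with g hg
    exact ⟨rfl, hg⟩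
  have h2 := Measure.ae_ae_of_ae_compProd h1
  obtain ⟨T', hT'⟩ : ∃ T' : Y → ℝ, T' = fun y => ∫ g, T g ∂(condDistrib id ρ P y) := ⟨_, rfl⟩
  have hT'm : Measurable T' := by
    rw [hT']
    exact (StronglyMeasurable.integral_kernel hT.stronglyMeasurable).measurable
  refine ⟨T', hT'm, ?_⟩
  have h3 : ∀ᵐ y ∂(P.map ρ), ∀ᵐ g ∂(condDistrib id ρ P y), T g = T' y := by
    filter_upwards [h2] with y hy
    obtain ⟨g0, hg0⟩ := hy.exists
    have h4 : ∀ᵐ g ∂(condDistrib id ρ P y), T g = T g0 := by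
      filter_upwards [hy] with g hg
      exact h g (hG'G hg.2) g0 (hG'G hg0.2) (hg.1.trans hg0.1.symm)
    have h5 : T' y = T g0 := by
      rw [hT']
      show ∫ g, T g ∂(condDistrib id ρ P y) = T g0
      rw [integral_congr_ae h4, integral_const, probReal_univ, one_smul]
    filter_upwards [h4] with g hg
    rw [hg, h5]
  have hE : MeasurableSet {p : Y × Γ | T p.2 = T' p.1} :=
    measurableSet_eq_fun (hT.comp measurable_snd) (hT'm.comp measurable_fst)
  have h6 : ∀ᵐ p ∂((P.map ρ) ⊗ₘ condDistrib id ρ P), T p.2 = T' p.1 := (Measure.ae_compProd_iff hE).2 h3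
  rw [e1, ae_map_iff hm.aemeasurable hE] at h6
  exact h6

/-- **a functional which is constant on the fibres of `ρ`, almost everywhere, is a measurable function of `ρ`** -/
theorem fac [MeasurableSpace Z] [StandardBorelSpace Z] [Nonempty Z] {P : Measure Γ} [SFinite P] {ρ : Γ → Y}
    (hρ : Measurable ρ) {T : Γ → Z} (hT : Measurable T) {G : Set Γ} (hG : ∀ᵐ g ∂P, g ∈ G)
    (h : ∀ g ∈ G, ∀ g' ∈ G, ρ g = ρ g' → T g = T g') :
    ∃ T' : Y → Z, Measurable T' ∧ ∀ᵐ g ∂P, T g = T' (ρ g) := by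
  have he := measurableEmbedding_embeddingReal Z
  have ha : MeasurableEmbedding Real.arctan := Real.continuous_arctan.measurableEmbedding Real.arctan_injective
  have hea := ha.comp he
  have hG' : ∀ᵐ g ∂P.toFinite, g ∈ G := by rwa [ae_toFinite]
  obtain ⟨T', h1, h2⟩ := fac_real (P := P.toFinite) hρ (T := fun g => Real.arctan (embeddingReal Z (T g)))
    (hea.measurable.comp hT) hG' (fun g hg g' hg' e => by simp only [h g hg g' hg' e])
  rw [ae_toFinite] at h2
  refine ⟨fun y => hea.invFun (T' y), hea.measurable_invFun.comp h1, ?_⟩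
  filter_upwards [h2] with g hg
  rw [← hg]
  exact (hea.leftInverse_invFun (T g)).symm

/-- **the same for countably many systems at once**, one function `T'` -/
theorem fac_fam {ι : Type*} [Countable ι] [MeasurableSpace Z] [StandardBorelSpace Z] [Nonempty Z]
    {P : ι → Measure Γ} [∀ i, SFinite (P i)] {ρ : ι → Γ → Y} (hρ : ∀ i, Measurable (ρ i)) {T : ι → Γ → Z}
    (hT : ∀ i, Measurable (T i)) {G : ι → Set Γ} (hG : ∀ i, ∀ᵐ g ∂(P i), g ∈ G i)
    (h : ∀ i j, ∀ g ∈ G i, ∀ g' ∈ G j, ρ i g = ρ j g' → T i g = T j g') :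
    ∃ T' : Y → Z, Measurable T' ∧ ∀ i, ∀ᵐ g ∂(P i), T i g = T' (ρ i g) := by
  let _ : MeasurableSpace ι := ⊤
  have hd : DiscreteMeasurableSpace ι := ⟨fun _ => trivial⟩
  obtain ⟨Q, hQ⟩ : ∃ Q : Measure (ι × Γ), Q = Measure.sum fun i => (P i).map (Prod.mk i) := ⟨_, rfl⟩
  have hs : SFinite Q := by
    rw [hQ]
    infer_instance
  have hm : ∀ i, Measurable (Prod.mk i : Γ → ι × Γ) := fun i => measurable_prodMk_left
  have hρ' : Measurable fun p : ι × Γ => ρ p.1 p.2 := measurable_from_prod_countable_right fun i => hρ i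
  have hT' : Measurable fun p : ι × Γ => T p.1 p.2 := measurable_from_prod_countable_right fun i => hT i
  -- measurable sets of full measure
  have ex : ∀ i, ∃ G' ⊆ G i, MeasurableSet G' ∧ ∀ᵐ g ∂(P i), g ∈ G' := fun i => by
    obtain ⟨t, ht1, ht2, ht3⟩ := exists_measurable_superset_of_null (show (P i) (G i)ᶜ = 0 from hG i)
    refine ⟨tᶜ, compl_subset_comm.1 ht1, ht2.compl, ?_⟩
    show (P i) tᶜᶜ = 0
    rwa [compl_compl]
  choose G' g1 g2 g3 using ex
  have hGm : MeasurableSet {p : ι × Γ | p.2 ∈ G' p.1} := by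
    have : {p : ι × Γ | p.2 ∈ G' p.1} = ⋃ i, ({i} ×ˢ G' i) := by
      ext p
      simp only [mem_iUnion, mem_prod, mem_singleton_iff, mem_ofPred_eq]
      exact ⟨fun h => ⟨p.1, rfl, h⟩, fun ⟨i, h1, h2⟩ => by rw [h1]; exact h2⟩
    rw [this]
    exact MeasurableSet.iUnion fun i => (measurableSet_singleton i).prod (g2 i)
  have hGQ : ∀ᵐ p ∂Q, p ∈ {p : ι × Γ | p.2 ∈ G' p.1} := by
    rw [hQ, Measure.ae_sum_eq, Filter.eventually_iSup]
    intro i
    exact (ae_map_iff (hm i).aemeasurable hGm).2 (g3 i)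
  obtain ⟨T', h1, h2⟩ := fac (P := Q) hρ' hT' hGQ fun p hp p' hp' e => h p.1 p'.1 p.2 (g1 _ hp) p'.2 (g1 _ hp') e
  refine ⟨T', h1, fun i => ?_⟩
  rw [hQ, Measure.ae_sum_eq, Filter.eventually_iSup] at h2
  exact (ae_map_iff (hm i).aemeasurable (measurableSet_eq_fun hT' (h1.comp hρ'))).1 (h2 i)

/-- **the functional of the rests.** `r` = the rest, `F` = the curves which have the foreign marks, `q` = the pieces, `G` = a set of
full measure on which `(F, q)` depends only on the rest, `V` = what is known of the pieces of a rest -/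
theorem tau_of {ι : Type*} [Countable ι] {R Q : Type*} [MeasurableSpace R] [StandardBorelSpace R] [MeasurableSpace Q]
    [StandardBorelSpace Q] [Nonempty Q] {P : ι → Measure Γ} [∀ i, SFinite (P i)] {r : ι → Γ → R}
    (hr : ∀ i, Measurable (r i)) {F : ι → Set Γ} (hF : ∀ i, MeasurableSet (F i)) {q : ι → Γ → Q}
    (hq : ∀ i, Measurable (q i)) {V : Set (R × Q)} (hV : MeasurableSet V) {G : ι → Set Γ}
    (hG : ∀ i, ∀ᵐ g ∂(P i), g ∈ G i) (hGV : ∀ i, ∀ g ∈ G i, g ∈ F i → (r i g, q i g) ∈ V)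
    (loc : ∀ i j, ∀ g ∈ G i, ∀ g' ∈ G j, r i g = r j g' → g ∈ F i → g' ∈ F j ∧ q i g = q j g') :
    ∃ (C : Set R) (τ : R → Q), MeasurableSet C ∧ Measurable τ ∧ (∀ x ∈ C, (x, τ x) ∈ V) ∧
      ∀ i, ∀ᵐ g ∂(P i), (r i g ∈ C ↔ g ∈ F i) ∧ (g ∈ F i → τ (r i g) = q i g) := by
  classical
  obtain ⟨q0⟩ := ‹Nonempty Q›
  obtain ⟨T', h1, h2⟩ := fac_fam (P := P) hr (Z := Bool × Q)
    (T := fun i g => if g ∈ F i then (true, q i g) else (false, q0))
    (fun i => Measurable.ite (hF i) (measurable_const.prodMk (hq i)) measurable_const) hG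
    (fun i j g hg g' hg' e => by
      show (if g ∈ F i then (true, q i g) else (false, q0)) = if g' ∈ F j then (true, q j g') else (false, q0)
      by_cases h3 : g ∈ F i
      · obtain ⟨h4, h5⟩ := loc i j g hg g' hg' e h3
        rw [if_pos h3, if_pos h4, h5]
      · by_cases h4 : g' ∈ F j
        · exact absurd (loc j i g' hg' g hg e.symm h4).1 h3
        · rw [if_neg h3, if_neg h4])
  have h3 : Measurable fun x => (x, (T' x).2) := measurable_id.prodMk h1.snd
  refine ⟨{x | (T' x).1 = true} ∩ {x | (x, (T' x).2) ∈ V}, fun x => (T' x).2,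
    (h1.fst (measurableSet_singleton true)).inter (h3 hV), h1.snd, fun x hx => hx.2, fun i => ?_⟩
  filter_upwards [h2 i, hG i] with g hg hg'
  by_cases h4 : g ∈ F i
  · rw [if_pos h4] at hg
    refine ⟨⟨fun _ => h4, fun _ => ⟨?_, ?_⟩⟩, fun _ => ?_⟩
    · show (T' (r i g)).1 = true
      rw [← hg]
    · show (r i g, (T' (r i g)).2) ∈ V
      rw [← hg]
      exact hGV i g hg' h4
    · rw [← hg]
  · rw [if_neg h4] at hg
    refine ⟨⟨fun h => ?_, fun h => absurd h h4⟩, fun h => absurd h h4⟩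
    have h5 : (T' (r i g)).1 = true := h.1
    rw [← hg] at h5
    exact absurd h5 Bool.false_ne_true

omit [StandardBorelSpace Γ] in
/-- **countably many classes as one class** -/
theorem sum_glue {J : Type*} [Countable J] {M : Type*} [MeasurableSpace M] [Nonempty M] {P : Measure Γ}
    {W : J → Γ → ℝ≥0∞} (hW : ∀ j, Measurable (W j)) {m : J → Γ → M} (hm : ∀ j, Measurable (m j))
    (hu : ∀ᵐ g ∂P, ∀ i j, W i g ≠ 0 → W j g ≠ 0 → i = j) :
    ∃ mR : Γ → M, Measurable mR ∧ (∀ᵐ g ∂P, ∀ j, W j g ≠ 0 → mR g = m j g) ∧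
      (P.withDensity fun g => ∑' j, W j g).map mR = Measure.sum fun j => (P.withDensity (W j)).map (m j) := by
  rcases isEmpty_or_nonempty J with he | hne
  · obtain ⟨x0⟩ := ‹Nonempty M›
    refine ⟨fun _ => x0, measurable_const, ae_of_all _ fun g j => (he.false j).elim, ?_⟩
    have e1 : (fun g => ∑' j, W j g) = fun _ => 0 := funext fun g => by rw [tsum_empty]
    rw [e1, withDensity_const, zero_smul, Measure.map_zero]
    ext s hs
    rw [Measure.sum_apply _ hs, tsum_empty]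
    rfl
  have hA : ∀ j, MeasurableSet {g | W j g ≠ 0} := fun j => (hW j) (measurableSet_singleton 0).compl
  obtain ⟨mR, k1, k2⟩ := exists_measurable_piecewise (fun j => {g | W j g ≠ 0} \ ⋃ i ∈ {i | i ≠ j}, {g | W i g ≠ 0})
    (fun j => (hA j).diff (MeasurableSet.biUnion (to_countable _) fun i _ => hA i)) m hm fun i j hij g hg => by
      exfalso
      refine hg.2.2 (mem_iUnion₂.2 ⟨i, hij, hg.1.1⟩)
  have k3 : ∀ᵐ g ∂P, ∀ j, W j g ≠ 0 → mR g = m j g := by
    filter_upwards [hu] with g hg j hj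
    refine k2 j ⟨hj, fun h => ?_⟩
    obtain ⟨i, hi, hi2⟩ := mem_iUnion₂.1 h
    exact hi (hg i j hi2 hj)
  refine ⟨mR, k1, k3, ?_⟩
  ext s hs
  rw [Measure.map_apply k1 hs, withDensity_apply _ (k1 hs), lintegral_tsum fun j => (hW j).aemeasurable,
    Measure.sum_apply _ hs]
  refine tsum_congr fun j => ?_
  rw [Measure.map_apply (hm j) hs, withDensity_apply _ ((hm j) hs), ← lintegral_indicator (k1 hs),
    ← lintegral_indicator ((hm j) hs)]
  refine lintegral_congr_ae ?_
  filter_upwards [k3] with g hg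
  by_cases h4 : W j g = 0
  · simp only [indicator, h4, ite_self]
  · have h6 : g ∈ mR ⁻¹' s ↔ g ∈ m j ⁻¹' s := by rw [mem_preimage, mem_preimage, hg j h4]
    by_cases h7 : g ∈ m j ⁻¹' s
    · rw [indicator_of_mem h7, indicator_of_mem (h6.2 h7)]
    · rw [indicator_of_notMem h7, indicator_of_notMem fun h => h7 (h6.1 h)]

end Pool.Agent.ROT.F3
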