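import Pool.Agent.ROT.F3LipA
import Pool.Agent.ROT.F3Fac

/-!
# ROT, F3, row R11 (1) (helper51): from pointwise locality to local Lipschitz products

* **`loc_one`** : a weight `ψ` which has the same value at two good points outside of `B` with the same local piece `T` is close
  in `L¹` to a Lipschitz function of the local piece (31's `fac_real`, 32's `loc_lip`);
* **`loc_prod`** : two ends.
-/

set_option autoImplicit false

namespace Pool.Agent.ROT.F3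

open MeasureTheory Set Filter Topology
open scoped ENNReal NNReal

variable {A Y Z : Type*} [MeasurableSpace A] [StandardBorelSpace A] [MetricSpace Y] [SecondCountableTopology Y] [CompleteSpace Y]
  [MeasurableSpace Y] [BorelSpace Y] [MetricSpace Z] [SecondCountableTopology Z] [CompleteSpace Z] [MeasurableSpace Z]
  [BorelSpace Z]

/-- the factorisation outside of a bad set -/
lemma fac_out {β : Measure A} [IsFiniteMeasure β] {T : A → Y} (hT : Measurable T) {ψ : A → ℝ} (hψ : Measurable ψ)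
    {Gd B : Set A} (hGd : ∀ᵐ a ∂β, a ∈ Gd) (hB : MeasurableSet B)
    (h : ∀ a ∈ Gd, ∀ a' ∈ Gd, a ∉ B → a' ∉ B → T a = T a' → ψ a = ψ a') :
    ∃ G : Y → ℝ, Measurable G ∧ ∀ᵐ a ∂β, a ∉ B → ψ a = G (T a) := by
  have h1 : ∀ᵐ a ∂(β.restrict Bᶜ), a ∈ Gd ∩ Bᶜ := by
    rw [ae_restrict_iff' hB.compl]
    filter_upwards [hGd] with a ha hb
    exact ⟨ha, hb⟩
  obtain ⟨G, hG, hGa⟩ := fac_real hT hψ h1 fun a ha a' ha' e => h a ha.1 a' ha'.1 ha.2 ha'.2 e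
  refine ⟨G, hG, ?_⟩
  rw [ae_restrict_iff' hB.compl] at hGa
  exact hGa

/-- **one local weight** (a set of full measure `Gd`, late returns `B`) -/
theorem loc_one {β : Measure A} [IsFiniteMeasure β] {T : A → Y} (hT : Measurable T) {ψ : A → ℝ} (hψ : Measurable ψ)
    (h0 : ∀ a, 0 ≤ ψ a ∧ ψ a ≤ 1) {Gd B : Set A} (hGd : ∀ᵐ a ∂β, a ∈ Gd) (hB : MeasurableSet B)
    (h : ∀ a ∈ Gd, ∀ a' ∈ Gd, a ∉ B → a' ∉ B → T a = T a' → ψ a = ψ a') {ε : ℝ} (hε : 0 < ε) :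
    ∃ (K : ℝ≥0) (F : Y → ℝ), LipschitzWith K F ∧ (∀ y, 0 ≤ F y ∧ F y ≤ 1) ∧ ∫ a, |ψ a - F (T a)| ∂β ≤ β.real B + ε := by
  obtain ⟨G, hG, hGa⟩ := fac_out hT hψ hGd hB h
  exact loc_lip hT hψ (fun a => (h0 a).1) (fun a => (h0 a).2) hG hB hGa hε

/-- **two local weights**: the local Lipschitz products of R11 -/
theorem loc_prod {β : Measure A} [IsFiniteMeasure β] {T : A → Y} (hT : Measurable T) {T' : A → Z} (hT' : Measurable T')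
    {ψ ψ' : A → ℝ} (hψ : Measurable ψ) (hψ' : Measurable ψ') (h0 : ∀ a, 0 ≤ ψ a ∧ ψ a ≤ 1) (h0' : ∀ a, 0 ≤ ψ' a ∧ ψ' a ≤ 1)
    {Gd B B' : Set A} (hGd : ∀ᵐ a ∂β, a ∈ Gd) (hB : MeasurableSet B) (hB' : MeasurableSet B')
    (h : ∀ a ∈ Gd, ∀ a' ∈ Gd, a ∉ B → a' ∉ B → T a = T a' → ψ a = ψ a')
    (h' : ∀ a ∈ Gd, ∀ a' ∈ Gd, a ∉ B' → a' ∉ B' → T' a = T' a' → ψ' a = ψ' a') {ε : ℝ} (hε : 0 < ε) :
    ∃ (K : ℝ≥0) (F : Y → ℝ) (F' : Z → ℝ), LipschitzWith K F ∧ LipschitzWith K F' ∧ (∀ y, 0 ≤ F y ∧ F y ≤ 1) ∧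
      (∀ y, 0 ≤ F' y ∧ F' y ≤ 1) ∧ ∫ a, |ψ a - F (T a)| ∂β ≤ β.real B + ε ∧
      ∫ a, |ψ' a - F' (T' a)| ∂β ≤ β.real B' + ε ∧
      ∫ a, |ψ a * ψ' a - F (T a) * F' (T' a)| ∂β ≤ β.real B + β.real B' + 2 * ε := by
  obtain ⟨G, hG, hGa⟩ := fac_out hT hψ hGd hB h
  obtain ⟨G', hG', hGa'⟩ := fac_out hT' hψ' hGd hB' h'
  exact loc_lip2 hT hT' hψ hψ' h0 h0' hG hG' hB hB' hGa hGa' hε

end Pool.Agent.ROT.F3
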