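import Pool.Agent.ROT.F3MidW
import Pool.Agent.ROT.F3LocP
import Pool.Agent.ROT.F3End
import Pool.Agent.ROT.F3LimG

/-!
# ROT, F3, row R11 (helper51): the foreign gates by local Lipschitz functionals

`X = C([0,1], ℂ) × ℝ` : curve and duration of a rest.
* `lp τ t0 r` : the start piece of duration `τ` (all durations are at least `t0`); `lq τ t0 r` : the end piece, backwards;
* `lp_word` : for the rest `R` of a word `lp` depends only on the first `m ≥ τ t` letters; `cr_reverse`, `lq_word`;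
* `psB` : the local product as a bounded continuous function;
* **`app_psi`** : from the pointwise locality of two weights (off late returns) to a local Lipschitz product close in `L¹`.
-/

set_option autoImplicit false

noncomputable section

open MeasureTheory Filter Topology Set
open scoped ENNReal NNReal BoundedContinuousFunction Classical

namespace Pool.Agent.ROT.F3E

open Pool.Agent.NTS.Res Pool.Agent.ROT.F3

/-! ### 1. local pieces -/

/-- the time of the start piece -/
def lt (τ t0 T : ℝ) (u : unitInterval) : unitInterval := Set.projIcc 0 1 zero_le_one (τ * u / max T t0)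

lemma lt_cont {τ t0 : ℝ} (ht : 0 < t0) : Continuous fun p : ℝ × unitInterval => lt τ t0 p.1 p.2 := by
  unfold lt
  refine continuous_projIcc.comp (Continuous.div (by fun_prop) (by fun_prop) fun p => ?_)
  exact (lt_of_lt_of_le ht (le_max_right _ _)).ne'

/-- the start piece of duration `τ`, all pairs -/
def lpF (τ t0 : ℝ) (ht : 0 < t0) : C(CI3 × ℝ, CI3) :=
  ContinuousMap.curry ⟨fun q : (CI3 × ℝ) × unitInterval => q.1.1 (lt τ t0 q.1.2 q.2), by
    have h1 : Continuous fun q : (CI3 × ℝ) × unitInterval => lt τ t0 q.1.2 q.2 :=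
      (lt_cont ht).comp (by fun_prop : Continuous fun q : (CI3 × ℝ) × unitInterval => (q.1.2, q.2))
    exact (continuous_fst.comp continuous_fst).eval h1⟩

/-- the start piece of duration `τ` -/
def lp (τ t0 : ℝ) (ht : 0 < t0) (r : CI3 × ℝ) : CI3 := lpF τ t0 ht r

lemma lp_apply (τ t0 : ℝ) (ht : 0 < t0) (r : CI3 × ℝ) (u : unitInterval) : lp τ t0 ht r u = r.1 (lt τ t0 r.2 u) := rfl

lemma lp_cont (τ t0 : ℝ) (ht : 0 < t0) : Continuous (lp τ t0 ht) := (lpF τ t0 ht).continuous

/-- the rest read backwards -/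
def rvr (r : CI3 × ℝ) : CI3 × ℝ := (rvc r.1, r.2)

lemma rvr_cont : Continuous rvr := by
  refine Continuous.prodMk ?_ continuous_snd
  have h : LipschitzWith 2 rvc := LipschitzWith.of_dist_le_mul fun a b => by
    have := rvc_dist a b
    exact_mod_cast this
  exact h.continuous.comp continuous_fst

/-- the end piece of duration `τ`, backwards -/
def lq (τ t0 : ℝ) (ht : 0 < t0) (r : CI3 × ℝ) : CI3 := lp τ t0 ht (rvr r)

lemma lq_cont (τ t0 : ℝ) (ht : 0 < t0) : Continuous (lq τ t0 ht) := (lp_cont τ t0 ht).comp rvr_cont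

/-! ### 2. words -/

lemma crv_ap (w : W3) (n : ℕ) (d : ℝ) (u : unitInterval) : crv w n d u =
    ps w 0 / d + ∑ i ∈ Finset.range n, ((max 0 (min 1 ((u : ℝ) * n - i)) : ℝ) : ℂ) * (ps w (i + 1) / d - ps w i / d) := rfl

/-- **the start piece of a word depends on the first letters** -/
theorem lp_word {τ t0 s t : ℝ} (ht0 : 0 < t0) (hτ : 0 ≤ τ) (ht : 0 < t) {R R' : W3} {m : ℕ} (hm : τ * t ≤ m)
    (h1 : t0 * t ≤ R.length) (h1' : t0 * t ≤ R'.length) (h2 : m ≤ R.length) (h2' : m ≤ R'.length)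
    (h : ∀ k : ℕ, k ≤ m → ps R k = ps R' k) : lp τ t0 ht0 (cr s t R) = lp τ t0 ht0 (cr s t R') := by
  have key : ∀ {R : W3}, t0 * t ≤ R.length → m ≤ R.length → ∀ u : unitInterval, lp τ t0 ht0 (cr s t R) u =
      ps R 0 / s + ∑ i ∈ Finset.range m, ((max 0 (min 1 (min (τ * u * t) (R.length) - i)) : ℝ) : ℂ) *
        (ps R (i + 1) / s - ps R i / s) := by
    intro R h1 h2 u
    rw [lp_apply]
    show crv R R.length s (lt τ t0 ((R.length : ℝ) / t) u) = _
    have hmax : max ((R.length : ℝ) / t) t0 = (R.length : ℝ) / t := max_eq_left (by rw [le_div_iff₀ ht]; exact h1)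
    have hl : (0 : ℝ) < R.length := lt_of_lt_of_le (by positivity) h1
    have hc : ((lt τ t0 ((R.length : ℝ) / t) u : unitInterval) : ℝ) * R.length = min (τ * u * t) R.length := by
      unfold lt
      rw [hmax, Set.coe_projIcc]
      have h3 : 0 ≤ τ * u / ((R.length : ℝ) / t) := by
        have := u.2.1
        positivity
      rw [max_eq_right (le_min zero_le_one h3), min_mul_of_nonneg _ _ hl.le, one_mul, min_comm]
      congr 1
      field_simp
    rw [crv_ap, hc]
    congr 1
    rw [← Finset.sum_range_add_sum_Ico _ h2]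
    have h0 : ∑ i ∈ Finset.Ico m R.length, ((max 0 (min 1 (min (τ * u * t) (R.length : ℝ) - i)) : ℝ) : ℂ) *
        (ps R (i + 1) / s - ps R i / s) = 0 := by
      refine Finset.sum_eq_zero fun i hi => ?_
      rw [Finset.mem_Ico] at hi
      have h4 : (m : ℝ) ≤ i := by exact_mod_cast hi.1
      have h5 : τ * u * t ≤ τ * t := by
        have := u.2.2
        have h6 : τ * u * t = (τ * t) * u := by ring
        rw [h6]
        exact mul_le_of_le_one_right (by positivity) this
      have h7 : max 0 (min 1 (min (τ * u * t) (R.length : ℝ) - i)) = 0 := by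
        rw [max_eq_left]
        refine (min_le_right _ _).trans ?_
        have := min_le_left (τ * u * t) (R.length : ℝ)
        linarith
      rw [h7]
      simp
    rw [h0, add_zero]
  ext u
  rw [key h1 h2, key h1' h2']
  have hu : τ * u * t ≤ m := by
    have := u.2.2
    have h6 : τ * u * t = (τ * t) * u := by ring
    rw [h6]
    exact (mul_le_of_le_one_right (by positivity) this).trans hm
  have hR : (m : ℝ) ≤ R.length := by exact_mod_cast h2
  have hR' : (m : ℝ) ≤ R'.length := by exact_mod_cast h2'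
  rw [min_eq_left (hu.trans hR), min_eq_left (hu.trans hR'), h 0 (Nat.zero_le _)]
  congr 1
  refine Finset.sum_congr rfl fun i hi => ?_
  rw [Finset.mem_range] at hi
  rw [h (i + 1) hi, h i hi.le]

/-- curve and duration of the word read backwards -/
theorem cr_reverse {s t : ℝ} {R : W3} (hR : Even R.length) : cr s t R.reverse = rvr (cr s t R) := by
  refine Prod.ext ?_ ?_
  · show crv R.reverse R.reverse.length s = rvc (crv R R.length s)
    rcases Nat.eq_zero_or_pos R.length with h0 | h1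
    · ext u
      rw [rvc_apply, List.length_reverse, h0, crv_nil_steps, crv_nil_steps]
      simp
    · rw [List.length_reverse]
      ext u
      rw [rvc_apply]
      have e1 : crv R R.length s 1 = en R / s := by
        rw [crv_ap]
        have h3 : ∀ i ∈ Finset.range R.length, ((max 0 (min 1 (((1 : unitInterval) : ℝ) * R.length - i)) : ℝ) : ℂ) *
            (ps R (i + 1) / s - ps R i / s) = ps R (i + 1) / s - ps R i / s := by
          intro i hi
          have h4 : (i : ℝ) + 1 ≤ R.length := by exact_mod_cast Finset.mem_range.1 hi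
          rw [Set.Icc.coe_one, one_mul, min_eq_left (by linarith), max_eq_right zero_le_one]
          simp
        rw [Finset.sum_congr rfl h3, Finset.sum_range_sub fun i => ps R i / s]
        unfold en
        ring
      rw [e1]
      show Tight.poly (fun k => ps R.reverse k / s) R.length u = Tight.poly (fun k => ps R k / s) R.length (unitInterval.symm u) - _
      rw [← poly_rev h1 u]
      obtain ⟨i, hi, q1, q2⟩ := Tight.th2_idx h1 u
      rw [Tight.poly_apply hi q1 q2, Tight.poly_apply hi q1 q2, ps_reverse hR hi.le, ps_reverse hR (by omega : i + 1 ≤ R.length)]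
      push_cast
      ring
  · show ((R.reverse.length : ℕ) : ℝ) / t = (R.length : ℝ) / t
    rw [List.length_reverse]

/-- the end piece of a word = the start piece of the word read backwards -/
theorem lq_word {τ t0 s t : ℝ} (ht0 : 0 < t0) {R : W3} (hR : Even R.length) :
    lq τ t0 ht0 (cr s t R) = lp τ t0 ht0 (cr s t R.reverse) := by
  rw [cr_reverse hR]
  rfl

/-! ### 3. the local product -/

/-- the local product as a bounded continuous function -/
def psB (τ t0 : ℝ) (ht : 0 < t0) (Fp Fq : CI3 → ℝ) (hp : Continuous Fp) (hq : Continuous Fq)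
    (bp : ∀ y, 0 ≤ Fp y ∧ Fp y ≤ 1) (bq : ∀ y, 0 ≤ Fq y ∧ Fq y ≤ 1) : (CI3 × ℝ) →ᵇ ℝ :=
  BoundedContinuousFunction.ofNormedAddCommGroup (fun r => Fp (lp τ t0 ht r) * Fq (lq τ t0 ht r))
    ((hp.comp (lp_cont τ t0 ht)).mul (hq.comp (lq_cont τ t0 ht))) 1 fun r => by
      rw [Real.norm_eq_abs, abs_of_nonneg (mul_nonneg (bp _).1 (bq _).1)]
      exact mul_le_one₀ (bp _).2 (bq _).1 (bq _).2

lemma psB_apply {τ t0 : ℝ} (ht : 0 < t0) {Fp Fq : CI3 → ℝ} (hp : Continuous Fp) (hq : Continuous Fq)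
    (bp : ∀ y, 0 ≤ Fp y ∧ Fp y ≤ 1) (bq : ∀ y, 0 ≤ Fq y ∧ Fq y ≤ 1) (r : CI3 × ℝ) :
    psB τ t0 ht Fp Fq hp hq bp bq r = Fp (lp τ t0 ht r) * Fq (lq τ t0 ht r) := rfl

/-- **the foreign gates by local Lipschitz products**: `S` = the rests with the foreign gates at both ends, `ψp`, `ψq` = the gates
at the start and at the end, `Gd` = good rests (full mass), `Bp`, `Bq` = late returns, `B0` = the rests where the conditions which
are not local (windows, no return) matter. -/
theorem app_psi {m : Measure (CI3 × ℝ)} [IsFiniteMeasure m] {τ t0 : ℝ} (ht : 0 < t0) {S : Set (CI3 × ℝ)} (hS : MeasurableSet S)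
    {ψp ψq : CI3 × ℝ → ℝ} (hp : Measurable ψp) (hq : Measurable ψq) (bp : ∀ r, 0 ≤ ψp r ∧ ψp r ≤ 1)
    (bq : ∀ r, 0 ≤ ψq r ∧ ψq r ≤ 1) {Gd B0 Bp Bq : Set (CI3 × ℝ)} (hGd : ∀ᵐ r ∂m, r ∈ Gd) (hB0 : MeasurableSet B0)
    (hBp : MeasurableSet Bp) (hBq : MeasurableSet Bq)
    (hprod : ∀ r ∈ Gd, r ∉ B0 → S.indicator (fun _ => (1 : ℝ)) r = ψp r * ψq r)
    (hlp : ∀ r ∈ Gd, ∀ r' ∈ Gd, r ∉ Bp → r' ∉ Bp → lp τ t0 ht r = lp τ t0 ht r' → ψp r = ψp r')
    (hlq : ∀ r ∈ Gd, ∀ r' ∈ Gd, r ∉ Bq → r' ∉ Bq → lq τ t0 ht r = lq τ t0 ht r' → ψq r = ψq r')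
    {δ : ℝ} (hδ : 0 < δ) (hmB : m.real B0 + (m.real Bp + m.real Bq) ≤ δ) :
    ∃ (K : ℝ≥0) (Fp Fq : CI3 → ℝ) (cp : Continuous Fp) (cq : Continuous Fq) (ep : ∀ y, 0 ≤ Fp y ∧ Fp y ≤ 1)
      (eq : ∀ y, 0 ≤ Fq y ∧ Fq y ≤ 1), LipschitzWith K Fp ∧ LipschitzWith K Fq ∧
      ∫ x, |psB τ t0 ht Fp Fq cp cq ep eq x - S.indicator (fun _ => (1 : ℝ)) x| ∂m ≤ 2 * δ := by
  obtain ⟨K, Fp, Fq, h1, h2, h3, h4, -, -, h5⟩ := loc_prod (β := m) (lp_cont τ t0 ht).measurable (lq_cont τ t0 ht).measurable
    hp hq bp bq hGd hBp hBq hlp hlq (ε := δ / 2) (by positivity)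
  refine ⟨K, Fp, Fq, h1.continuous, h2.continuous, h3, h4, h1, h2, ?_⟩
  have mpq : Measurable fun r => ψp r * ψq r := hp.mul hq
  have mF : Measurable fun r => Fp (lp τ t0 ht r) * Fq (lq τ t0 ht r) :=
    ((h1.continuous.comp (lp_cont τ t0 ht)).mul (h2.continuous.comp (lq_cont τ t0 ht))).measurable
  have mS : Measurable (S.indicator fun _ => (1 : ℝ)) := measurable_const.indicator hS
  have b1 : ∀ r, |ψp r * ψq r| ≤ 1 := fun r => by
    rw [abs_of_nonneg (mul_nonneg (bp r).1 (bq r).1)]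
    exact mul_le_one₀ (bp r).2 (bq r).1 (bq r).2
  have b2 : ∀ r, |Fp (lp τ t0 ht r) * Fq (lq τ t0 ht r)| ≤ 1 := fun r => by
    rw [abs_of_nonneg (mul_nonneg (h3 _).1 (h4 _).1)]
    exact mul_le_one₀ (h3 _).2 (h4 _).1 (h4 _).2
  have b3 : ∀ r, 0 ≤ S.indicator (fun _ => (1 : ℝ)) r ∧ S.indicator (fun _ => (1 : ℝ)) r ≤ 1 := fun r => by
    by_cases h : r ∈ S
    · rw [indicator_of_mem h]
      exact ⟨zero_le_one, le_rfl⟩
    · rw [indicator_of_notMem h]
      exact ⟨le_rfl, zero_le_one⟩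
  have ib : ∀ {f g : CI3 × ℝ → ℝ}, Measurable f → Measurable g → (∀ r, |f r| ≤ 1) → (∀ r, |g r| ≤ 1) →
      Integrable (fun r => |f r - g r|) m := by
    intro f g hf hg hf1 hg1
    refine (integrable_const (2 : ℝ)).mono' (continuous_abs.measurable.comp (hf.sub hg)).aestronglyMeasurable
      (Eventually.of_forall fun r => ?_)
    rw [Real.norm_eq_abs, abs_abs]
    refine (abs_sub _ _).trans ?_
    linarith [hf1 r, hg1 r]
  have b3' : ∀ r, |S.indicator (fun _ => (1 : ℝ)) r| ≤ 1 := fun r => by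
    rw [abs_of_nonneg (b3 r).1]
    exact (b3 r).2
  have i1 := ib mF mpq b2 b1
  have i2 := ib mpq mS b1 b3'
  have e1 : ∫ x, |ψp x * ψq x - S.indicator (fun _ => (1 : ℝ)) x| ∂m ≤ m.real B0 := by
    have e : ∫ r, B0.indicator (fun _ => (1 : ℝ)) r ∂m = m.real B0 := integral_indicator_one hB0
    rw [← e]
    refine integral_mono_ae i2 ((integrable_const _).indicator hB0) ?_
    filter_upwards [hGd] with r hr
    by_cases h6 : r ∈ B0
    · rw [indicator_of_mem h6]
      have h8 := b3 r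
      have h9 : 0 ≤ ψp r * ψq r := mul_nonneg (bp r).1 (bq r).1
      have h10 := (abs_le.1 (b1 r)).2
      rw [abs_le]
      constructor <;> linarith
    · rw [hprod r hr h6, sub_self, abs_zero, indicator_of_notMem h6]
  have e2 : ∫ x, |Fp (lp τ t0 ht x) * Fq (lq τ t0 ht x) - ψp x * ψq x| ∂m ≤ m.real Bp + m.real Bq + 2 * (δ / 2) := by
    refine le_trans (le_of_eq ?_) h5
    refine integral_congr_ae (Eventually.of_forall fun r => ?_)
    exact abs_sub_comm _ _
  calc ∫ x, |psB τ t0 ht Fp Fq h1.continuous h2.continuous h3 h4 x - S.indicator (fun _ => (1 : ℝ)) x| ∂m ≤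
        ∫ x, (|Fp (lp τ t0 ht x) * Fq (lq τ t0 ht x) - ψp x * ψq x| + |ψp x * ψq x - S.indicator (fun _ => (1 : ℝ)) x|) ∂m := by
        refine integral_mono (ib mF mS b2 b3') (i1.add i2) fun r => ?_
        rw [psB_apply]
        exact abs_sub_le _ _ _
    _ = _ := integral_add i1 i2
    _ ≤ 2 * δ := by linarith

end Pool.Agent.ROT.F3E

end
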