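import Pool.Agent.ROT.F3Lst
import Pool.Agent.PMA.LimR

/-!
# ROT / F3Dic (helper25): dictionary between the walks / polygons of the public statements and the lists of letters

* `SWn n`, `Cln m` : the self-avoiding words with `n` letters, the closed words with `m` letters; both are finite sets;
* `sum_saw` : `∑ s ∈ saw n, f (ofFn s) = ∑' w : SWn n, f w`;
* `sum_pol` : `n` odd, `∑ s ∈ pol n, f (ofFn s) = ∑' w : Cln (n + 1), f w.dropLast`; `sum_pol'` : the closing letter kept;
* `Cl_swap`, `Cl_rotate`, `ps_rotate`, `tsum_rotate` : the root of a closed word can be moved to every even vertex;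
* `Cl_reverse`, `tsum_reverse` : the reversed words;
* `curve_ofFn`, `crv` : the curve in terms of the vertices of the word.
-/

set_option autoImplicit false

namespace Pool.Agent.ROT.F3

open Finset
open scoped ENNReal
open Pool.Agent.NTS.Res (step pos saw fug size curve)
open Pool.Agent.PMA.Res (pol)

/-! ### the finite sets of words -/

/-- the self-avoiding words with `n` letters -/
def SWn (n : ℕ) : Set W3 := {w | SW w ∧ w.length = n}

/-- the closed words with `m` letters -/
def Cln (m : ℕ) : Set W3 := {w | Cl w ∧ w.length = m}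

lemma ofFn_inj {n : ℕ} {s t : Fin n → Fin 3} (h : List.ofFn s = List.ofFn t) : s = t := List.ofFn_injective h

lemma exists_ofFn {n : ℕ} {w : W3} (h : w.length = n) : ∃ s : Fin n → Fin 3, List.ofFn s = w := by
  subst h
  exact ⟨fun i => w.get i, List.ofFn_get w⟩

/-- the letters of a walk, as an embedding -/
def oe (n : ℕ) : (Fin n → Fin 3) ↪ W3 := ⟨List.ofFn, fun _ _ h => ofFn_inj h⟩

lemma SWn_eq (n : ℕ) : SWn n = ↑((saw n).map (oe n)) := by
  ext w
  rw [mem_coe, mem_map]
  constructor
  · rintro ⟨h1, h2⟩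
    obtain ⟨s, rfl⟩ := exists_ofFn h2
    exact ⟨s, (SW_ofFn s).1 h1, rfl⟩
  · rintro ⟨s, hs, rfl⟩
    exact ⟨(SW_ofFn s).2 hs, List.length_ofFn⟩

lemma SWn_finite (n : ℕ) : (SWn n).Finite := by
  rw [SWn_eq]
  exact finite_toSet _

/-- **the walks with `n` steps**, sums in any monoid with a topology -/
theorem sum_saw {M : Type*} [AddCommMonoid M] [TopologicalSpace M] (n : ℕ) (f : W3 → M) :
    ∑ s ∈ saw n, f (List.ofFn s) = ∑' w : SWn n, f w := by
  have h : ∀ S : Set W3, S = ↑((saw n).map (oe n)) → ∑' w : S, f w = ∑ s ∈ saw n, f (List.ofFn s) := by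
    rintro S rfl
    rw [Finset.tsum_subtype', sum_map]
    rfl
  exact (h _ (SWn_eq n)).symm

/-! ### polygons -/

/-- the closed word of a polygon -/
noncomputable def clw {n : ℕ} (s : Fin n → Fin 3) : W3 := List.ofFn s ++ [Pool.Agent.PMA.LimR.cl s]

lemma length_clw {n : ℕ} (s : Fin n → Fin 3) : (clw s).length = n + 1 := by
  unfold clw
  rw [List.length_append, List.length_ofFn, List.length_singleton]

lemma dropLast_clw {n : ℕ} (s : Fin n → Fin 3) : (clw s).dropLast = List.ofFn s := by
  unfold clw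
  exact List.dropLast_concat

lemma ps_clw {n : ℕ} (s : Fin n → Fin 3) {k : ℕ} (hk : k ≤ n) : ps (clw s) k = pos s k := by
  unfold clw
  rw [ps_append_left (by rw [List.length_ofFn]; exact hk), ps_ofFn]

lemma st_concat (u : W3) (a : Fin 3) : st (u ++ [a]) u.length = step u.length a := by
  rw [st_of_lt (by simp)]
  congr 1
  simp

lemma en_concat (u : W3) (a : Fin 3) : en (u ++ [a]) = ps u u.length + step u.length a := by
  rw [en, List.length_append, List.length_singleton, ps_succ, st_concat, ps_append_left le_rfl]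

lemma clw_mem {n : ℕ} (hn : Odd n) {s : Fin n → Fin 3} (hs : s ∈ pol n) : clw s ∈ Cln (n + 1) := by
  obtain ⟨h1, h2⟩ := Pool.Agent.PMA.LimR.mem_pol.1 hs
  have h3 := NTSF.mem_saw.1 h1
  refine ⟨⟨?_, ?_, ?_⟩, length_clw s⟩
  · rw [length_clw]
    exact hn.add_one
  · unfold clw
    rw [en_concat, List.length_ofFn, ps_ofFn, Pool.Agent.PMA.LimR.cl_spec hn h2, add_neg_cancel]
  · intro j k hj hk he
    rw [length_clw] at hj hk
    rw [ps_clw s (by omega), ps_clw s (by omega)] at he
    exact h3 j k (by omega) (by omega) he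

lemma mem_pol_of {n : ℕ} (hn : Odd n) {w : W3} (hw : w ∈ Cln (n + 1)) :
    ∃ s ∈ pol n, clw s = w := by
  obtain ⟨⟨h1, h2, h3⟩, h4⟩ := hw
  have hne : w ≠ [] := by
    rintro rfl
    simp at h4
  have h5 : w.dropLast ++ [w.getLast hne] = w := List.dropLast_append_getLast hne
  have h6 : w.dropLast.length = n := by rw [List.length_dropLast, h4]; rfl
  obtain ⟨s, hs⟩ := exists_ofFn h6
  have hp : ∀ k ≤ n, ps w k = pos s k := by
    intro k hk
    rw [← h5, ps_append_left (by rw [h6]; exact hk), ← hs, ps_ofFn]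
  have he : pos s n + step n (w.getLast hne) = 0 := by
    have := h2
    rw [← h5, en_concat, h6, ← hs, ps_ofFn] at this
    simpa [h5] using this
  have h7 : s ∈ pol n := by
    refine Pool.Agent.PMA.LimR.mem_pol.2 ⟨NTSF.mem_saw.2 fun j k hj hk e => ?_, ?_⟩
    · rw [← hp j hj, ← hp k hk] at e
      exact h3 j k (by omega) (by omega) e
    · rw [eq_neg_of_add_eq_zero_left he, norm_neg, Pool.Agent.PMA.LimR.norm_step']
  refine ⟨s, h7, ?_⟩
  have h8 := Pool.Agent.PMA.LimR.cl_spec hn (Pool.Agent.PMA.LimR.mem_pol.1 h7).2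
  have h9 : Pool.Agent.PMA.LimR.cl s = w.getLast hne := by
    apply Pool.Agent.PMA.LimR.step_inj (i := n)
    rw [h8, eq_neg_of_add_eq_zero_right he]
  unfold clw
  rw [h9, hs, h5]

lemma clw_inj {n : ℕ} {s t : Fin n → Fin 3} (h : clw s = clw t) : s = t := by
  have := congrArg List.dropLast h
  rw [dropLast_clw, dropLast_clw] at this
  exact ofFn_inj this

/-- the closed word of a polygon, as an embedding -/
noncomputable def ce (n : ℕ) : (Fin n → Fin 3) ↪ W3 := ⟨clw, fun _ _ h => clw_inj h⟩

lemma Cln_eq {n : ℕ} (hn : Odd n) : Cln (n + 1) = ↑((pol n).map (ce n)) := by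
  ext w
  rw [mem_coe, mem_map]
  constructor
  · intro h
    obtain ⟨s, hs, e⟩ := mem_pol_of hn h
    exact ⟨s, hs, e⟩
  · rintro ⟨s, hs, rfl⟩
    exact clw_mem hn hs

lemma Cln_empty {m : ℕ} (hm : ¬ Even m) : Cln m = ∅ := by
  ext w
  simp only [Set.mem_empty_iff_false, iff_false]
  rintro ⟨h1, h2⟩
  exact hm (h2 ▸ h1.1)

lemma Cln_finite (m : ℕ) : (Cln m).Finite := by
  by_cases hm : Even m
  · rcases Nat.eq_zero_or_pos m with rfl | h0
    · refine (Set.finite_singleton ([] : W3)).subset ?_
      rintro w ⟨_, h⟩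
      exact List.length_eq_zero_iff.1 h
    · obtain ⟨n, rfl⟩ : ∃ n, m = n + 1 := ⟨m - 1, by omega⟩
      have hn : Odd n := by
        rcases Nat.even_or_odd n with h | h
        · exact absurd hm (Nat.not_even_iff_odd.2 h.add_one)
        · exact h
      rw [Cln_eq hn]
      exact finite_toSet _
  · rw [Cln_empty hm]
    exact Set.finite_empty

/-- **the polygons**, with the closing letter -/
theorem sum_pol' {M : Type*} [AddCommMonoid M] [TopologicalSpace M] {n : ℕ} (hn : Odd n) (f : W3 → M) :
    ∑ s ∈ pol n, f (clw s) = ∑' w : Cln (n + 1), f w := by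
  have h : ∀ S : Set W3, S = ↑((pol n).map (ce n)) → ∑' w : S, f w = ∑ s ∈ pol n, f (clw s) := by
    rintro S rfl
    rw [Finset.tsum_subtype', sum_map]
    rfl
  exact (h _ (Cln_eq hn)).symm

/-- **the polygons** -/
theorem sum_pol {M : Type*} [AddCommMonoid M] [TopologicalSpace M] {n : ℕ} (hn : Odd n) (f : W3 → M) :
    ∑ s ∈ pol n, f (List.ofFn s) = ∑' w : Cln (n + 1), f (w : W3).dropLast := by
  rw [← sum_pol' hn fun w => f w.dropLast]
  exact sum_congr rfl fun s _ => by rw [dropLast_clw]

/-! ### the root of a closed word -/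

theorem Cl_swap {u v : W3} (hu : Even u.length) (hv : Even v.length) (h : Cl (u ++ v)) : Cl (v ++ u) := by
  obtain ⟨h1, h2, h3⟩ := Cl_iff.1 h
  obtain ⟨a, b, c⟩ := (HI_append hu).1 h3
  rw [en_append hu] at h2
  refine Cl_iff.2 ⟨?_, ?_, (HI_append hv).2 ⟨b, a, fun j k hj hk e => ?_⟩⟩
  · rw [List.length_append]
    exact hv.add hu
  · rw [en_append hv, add_comm]
    exact h2
  · refine c k j hk hj ?_
    rw [e, ← add_assoc, h2, zero_add]

theorem Cl_append_comm {u v : W3} (hu : Even u.length) (hv : Even v.length) : Cl (u ++ v) ↔ Cl (v ++ u) :=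
  ⟨Cl_swap hu hv, Cl_swap hv hu⟩

lemma even_mod {a m : ℕ} (ha : Even a) (hm : Even m) : Even (a % m) := by
  obtain ⟨x, rfl⟩ := ha
  obtain ⟨y, rfl⟩ := hm
  rw [← two_mul, ← two_mul, Nat.mul_mod_mul_left]
  exact even_two_mul _

theorem Cl_rotate' {w : W3} {a : ℕ} (ha : Even a) (h : Cl w) : Cl (w.rotate a) := by
  rw [← List.rotate_mod]
  rcases Nat.eq_zero_or_pos w.length with h0 | h0
  · have : w = [] := List.length_eq_zero_iff.1 h0
    subst this
    simpa using h
  · have h1 : a % w.length ≤ w.length := (Nat.mod_lt _ h0).le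
    have h2 := even_mod ha h.1
    rw [List.rotate_eq_drop_append_take h1]
    refine Cl_swap ?_ ?_ (by rw [List.take_append_drop]; exact h)
    · rw [List.length_take, min_eq_left h1]
      exact h2
    · rw [List.length_drop]
      exact (Nat.even_sub h1).2 ⟨fun _ => h2, fun _ => h.1⟩

lemma rotate_back {m : ℕ} {w : W3} (h : w.length = m) (a : ℕ) : (w.rotate a).rotate (a * (m - 1)) = w := by
  rw [List.rotate_rotate]
  rcases Nat.eq_zero_or_pos m with rfl | h0
  · have : w = [] := List.length_eq_zero_iff.1 h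
    subst this
    simp
  · have e : a + a * (m - 1) = w.length * a := by
      obtain ⟨k, rfl⟩ : ∃ k, m = k + 1 := ⟨m - 1, by omega⟩
      rw [h, Nat.add_sub_cancel]
      ring
    rw [e, List.rotate_length_mul]

theorem Cl_rotate {w : W3} {a : ℕ} (ha : Even a) : Cl (w.rotate a) ↔ Cl w := by
  refine ⟨fun h => ?_, Cl_rotate' ha⟩
  have h1 := Cl_rotate' (ha.mul_right (w.length - 1)) h
  rwa [rotate_back rfl] at h1

/-- the rotation of the root, a bijection of the closed words with `m` letters -/
def roe (m a : ℕ) (ha : Even a) : Cln m ≃ Cln m where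
  toFun w := ⟨w.1.rotate a, (Cl_rotate ha).2 w.2.1, by rw [List.length_rotate]; exact w.2.2⟩
  invFun w := ⟨w.1.rotate (a * (m - 1)), (Cl_rotate (ha.mul_right _)).2 w.2.1, by rw [List.length_rotate]; exact w.2.2⟩
  left_inv w := Subtype.ext (rotate_back w.2.2 a)
  right_inv w := Subtype.ext (by
    show (w.1.rotate (a * (m - 1))).rotate a = w.1
    rw [List.rotate_rotate, add_comm, ← List.rotate_rotate]
    exact rotate_back w.2.2 a)

/-- **the sums over the closed words do not depend on the root** -/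
theorem tsum_rotate {M : Type*} [AddCommMonoid M] [TopologicalSpace M] (m a : ℕ) (ha : Even a) (f : W3 → M) :
    ∑' w : Cln m, f ((w : W3).rotate a) = ∑' w : Cln m, f w :=
  (roe m a ha).tsum_eq fun w : Cln m => f w

/-- the vertices of the closed word with the root at the vertex number `a` -/
theorem ps_rotate {w : W3} {a : ℕ} (ha : Even a) (h : a ≤ w.length) {k : ℕ} (hk : a + k ≤ w.length) :
    ps (w.rotate a) k = ps w (a + k) - ps w a := by
  rw [List.rotate_eq_drop_append_take h, ps_append_left (by rw [List.length_drop]; omega), ps_append_drop w h ha]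

/-- the same, behind the old root -/
theorem ps_rotate_wrap {w : W3} (hw : Cl w) {a : ℕ} (ha : Even a) (h : a ≤ w.length) {k : ℕ} (hk : k ≤ a) :
    ps (w.rotate a) (w.length - a + k) = ps w k - ps w a := by
  have h1 : Even (w.drop a).length := by
    rw [List.length_drop]
    exact (Nat.even_sub h).2 ⟨fun _ => ha, fun _ => hw.1⟩
  have h2 := ps_append_right (u := w.drop a) (v := w.take a) h1 k
  rw [List.length_drop] at h2
  rw [List.rotate_eq_drop_append_take h, h2, ps_take w hk h]
  have h3 : en (w.drop a) = - ps w a := by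
    rw [en, List.length_drop, ps_append_drop w h ha, show a + (w.length - a) = w.length by omega]
    have : ps w w.length = 0 := hw.2.1
    rw [this, zero_sub]
  rw [h3]
  ring

/-! ### the reversed words -/

lemma HI_rev_closed {w : W3} (hw : Even w.length) (he : en w = 0) (h : HI w) : HI w.reverse := by
  intro j k hj hk e
  rw [List.length_reverse] at hj hk
  rw [ps_reverse hw hj.le, ps_reverse hw hk.le, sub_left_inj] at e
  have key : ∀ i, i < w.length → 0 < i → w.length - i < w.length := fun i _ _ => by omega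
  have hl : ps w w.length = ps w 0 := by rw [ps_zero]; exact he
  rcases Nat.eq_zero_or_pos j with rfl | j0 <;> rcases Nat.eq_zero_or_pos k with rfl | k0
  · rfl
  · rw [Nat.sub_zero, hl] at e
    have := h _ _ (by omega) (by omega) e
    omega
  · rw [Nat.sub_zero, hl] at e
    have := h _ _ (by omega) (by omega) e
    omega
  · have := h _ _ (by omega) (by omega) e
    omega

theorem Cl_reverse {w : W3} : Cl w.reverse ↔ Cl w := by
  have key : ∀ v : W3, Cl v → Cl v.reverse := by
    intro v hv
    refine Cl_iff.2 ⟨by rw [List.length_reverse]; exact hv.1, ?_, HI_rev_closed hv.1 hv.2.1 hv.2.2⟩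
    rw [en_reverse hv.1, hv.2.1, neg_zero]
  refine ⟨fun h => ?_, key w⟩
  have := key _ h
  rwa [List.reverse_reverse] at this

/-- the reversal of the closed words -/
def rve (m : ℕ) : Cln m ≃ Cln m where
  toFun w := ⟨w.1.reverse, Cl_reverse.2 w.2.1, by rw [List.length_reverse]; exact w.2.2⟩
  invFun w := ⟨w.1.reverse, Cl_reverse.2 w.2.1, by rw [List.length_reverse]; exact w.2.2⟩
  left_inv w := Subtype.ext w.1.reverse_reverse
  right_inv w := Subtype.ext w.1.reverse_reverse

theorem tsum_reverse {M : Type*} [AddCommMonoid M] [TopologicalSpace M] (m : ℕ) (f : W3 → M) :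
    ∑' w : Cln m, f (w : W3).reverse = ∑' w : Cln m, f w :=
  (rve m).tsum_eq fun w : Cln m => f w

/-- the reversal of the self-avoiding words with an even number of letters -/
def rvs (n : ℕ) (hn : Even n) : SWn n ≃ SWn n where
  toFun w := ⟨w.1.reverse, (SW_reverse (by rw [w.2.2]; exact hn)).2 w.2.1, by rw [List.length_reverse]; exact w.2.2⟩
  invFun w := ⟨w.1.reverse, (SW_reverse (by rw [w.2.2]; exact hn)).2 w.2.1, by rw [List.length_reverse]; exact w.2.2⟩
  left_inv w := Subtype.ext w.1.reverse_reverse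
  right_inv w := Subtype.ext w.1.reverse_reverse

theorem tsum_reverse_SW {M : Type*} [AddCommMonoid M] [TopologicalSpace M] {n : ℕ} (hn : Even n) (f : W3 → M) :
    ∑' w : SWn n, f (w : W3).reverse = ∑' w : SWn n, f w :=
  (rvs n hn).tsum_eq fun w : SWn n => f w

/-! ### the curves -/

/-- the curve through the first `n + 1` vertices of the word, one unit of time for all of it, lengths divided by `d` -/
noncomputable def crv (w : W3) (n : ℕ) (d : ℝ) : C(unitInterval, ℂ) := Tight.poly (fun k => ps w k / d) n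

theorem curve_ofFn {n : ℕ} (s : Fin n → Fin 3) : curve s = crv (List.ofFn s) n (size n) := by
  rw [NTSF.curve_eq]
  unfold crv
  congr 1
  funext k
  rw [ps_ofFn]

/-- the curve of a polygon, from the closed word -/
theorem curve_clw {n : ℕ} (s : Fin n → Fin 3) : curve s = crv (clw s) n (size n) := by
  rw [NTSF.curve_eq]
  unfold crv
  ext u
  show pos s 0 / size n + ∑ i ∈ range n, ((max 0 (min 1 ((u : ℝ) * n - i)) : ℝ) : ℂ) *
      (pos s (i + 1) / size n - pos s i / size n) =
    ps (clw s) 0 / size n + ∑ i ∈ range n, ((max 0 (min 1 ((u : ℝ) * n - i)) : ℝ) : ℂ) *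
      (ps (clw s) (i + 1) / size n - ps (clw s) i / size n)
  rw [ps_clw s (Nat.zero_le _)]
  congr 1
  refine sum_congr rfl fun i hi => ?_
  have := mem_range.1 hi
  rw [ps_clw s (show i + 1 ≤ n by omega), ps_clw s (show i ≤ n by omega)]

theorem crv_zero (w : W3) (n : ℕ) (d : ℝ) : crv w n d 0 = 0 := by
  unfold crv
  rw [Tight.poly_zero, ps_zero, zero_div]

theorem crv_one (w : W3) (n : ℕ) (d : ℝ) : crv w n d 1 = ps w n / d := by
  unfold crv
  rw [Tight.poly_one]

/-- the curve between two vertices -/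
theorem crv_apply {w : W3} {n i : ℕ} {d : ℝ} (hi : i < n) {t : unitInterval} (h1 : (i : ℝ) ≤ t * n) (h2 : (t : ℝ) * n ≤ i + 1) :
    crv w n d t = (((1 - (t * n - i) : ℝ) : ℂ) * ps w i + ((t * n - i : ℝ) : ℂ) * ps w (i + 1)) / d := by
  unfold crv
  rw [Tight.poly_apply hi h1 h2]
  push_cast
  ring

/-- the curve at the vertex number `k` -/
theorem crv_vertex {w : W3} {n k : ℕ} {d : ℝ} (hn : 1 ≤ n) (hk : k ≤ n) {t : unitInterval} (ht : (t : ℝ) * n = k) :
    crv w n d t = ps w k / d := by
  rcases Nat.eq_zero_or_pos k with rfl | k0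
  · rw [crv_apply (i := 0) (by omega) (by rw [ht]) (by rw [ht]; simp), ht]
    simp
  · obtain ⟨i, rfl⟩ : ∃ i, k = i + 1 := ⟨k - 1, by omega⟩
    rw [crv_apply (i := i) (by omega) (by rw [ht]; push_cast; linarith) (by rw [ht]; push_cast; exact le_rfl), ht]
    push_cast
    ring

end Pool.Agent.ROT.F3
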