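import Mathlib

/-!
# ROT / F3Gam (helper81): the two connections of a closed word as one function of the difference of the displacements

`Gam g g' y = ∑' z, g z * g' (z + y)`. `pair_exact` : the sum over the quadruples (connection at `p`, connection at `q`, arc,
arc) which close up; `pair_lo`, `pair_hi`, **`pair_prod`** : it is a product up to a relative error if `Gam` is nearly constant
on the differences of the displacements; `Gam_le`, `Gam_cont` : the modulus of continuity of `Gam`; `Gam_low` : lower bound;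
**`pair_num`** : all together, in real numbers (the hypotheses `h12`, `h13`, `h23` of `tri_num`).
-/

set_option autoImplicit false

namespace Pool.Agent.ROT.F3

open scoped ENNReal Classical

open Finset

/-- the mass function of the values of `z` -/
noncomputable def msum {K V : Type*} (w : K → ℝ≥0∞) (z : K → V) (v : V) : ℝ≥0∞ := ∑' k, if z k = v then w k else 0

/-- the two connections, as a function of the difference of the displacements -/
noncomputable def Gam {V : Type*} [Add V] (g g' : V → ℝ≥0∞) (y : V) : ℝ≥0∞ := ∑' z, g z * g' (z + y)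

section basic

variable {K K' A B V : Type*}

lemma tsum_msum (w : K → ℝ≥0∞) (z : K → V) : ∑' v, msum w z v = ∑' k, w k := by
  unfold msum
  rw [ENNReal.tsum_comm]
  refine tsum_congr fun k => ?_
  rw [tsum_eq_single (z k) fun v hv => if_neg (Ne.symm hv), if_pos rfl]

lemma msum_mul (w : K → ℝ≥0∞) (z : K → V) (f : V → ℝ≥0∞) : ∑' v, msum w z v * f v = ∑' k, w k * f (z k) := by
  unfold msum
  have h1 : ∀ v, (∑' k, if z k = v then w k else 0) * f v = ∑' k, if z k = v then w k * f v else 0 := by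
    intro v
    rw [← ENNReal.tsum_mul_right]
    refine tsum_congr fun k => ?_
    split_ifs <;> simp
  simp only [h1]
  rw [ENNReal.tsum_comm]
  refine tsum_congr fun k => ?_
  rw [tsum_eq_single (z k) fun v hv => if_neg (Ne.symm hv), if_pos rfl]

/-- **the quadruples which close up** -/
theorem pair_exact [AddCommGroup V] (wK : K → ℝ≥0∞) (zK : K → V) (wK' : K' → ℝ≥0∞) (zK' : K' → V) (wA : A → ℝ≥0∞)
    (yA : A → V) (wB : B → ℝ≥0∞) (yB : B → V) :
    ∑' a, ∑' b, ∑' k, ∑' k', (if zK' k' = zK k + (yA a - yB b) then wK k * wK' k' * (wA a * wB b) else 0) =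
      ∑' a, ∑' b, wA a * wB b * Gam (msum wK zK) (msum wK' zK') (yA a - yB b) := by
  refine tsum_congr fun a => tsum_congr fun b => ?_
  unfold Gam
  rw [msum_mul wK zK (fun v => msum wK' zK' (v + (yA a - yB b))), ← ENNReal.tsum_mul_left]
  refine tsum_congr fun k => ?_
  unfold msum
  rw [← ENNReal.tsum_mul_left, ← ENNReal.tsum_mul_left]
  refine tsum_congr fun k' => ?_
  split_ifs
  · ring
  · simp

/-- lower bound by a constant on the supports -/
lemma pair_lo [Sub V] {wA : A → ℝ≥0∞} {yA : A → V} {wB : B → ℝ≥0∞} {yB : B → V} {G : V → ℝ≥0∞} {l : ℝ≥0∞}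
    (h : ∀ a b, wA a ≠ 0 → wB b ≠ 0 → l ≤ G (yA a - yB b)) :
    l * ((∑' a, wA a) * ∑' b, wB b) ≤ ∑' a, ∑' b, wA a * wB b * G (yA a - yB b) := by
  rw [← ENNReal.tsum_mul_right, ← ENNReal.tsum_mul_left]
  refine ENNReal.tsum_le_tsum fun a => ?_
  rw [← ENNReal.tsum_mul_left, ← ENNReal.tsum_mul_left]
  refine ENNReal.tsum_le_tsum fun b => ?_
  by_cases ha : wA a = 0
  · simp [ha]
  by_cases hb : wB b = 0
  · simp [hb]
  rw [mul_comm l]
  exact mul_le_mul_right (h a b ha hb) _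

/-- upper bound by a constant on the supports -/
lemma pair_hi [Sub V] {wA : A → ℝ≥0∞} {yA : A → V} {wB : B → ℝ≥0∞} {yB : B → V} {G : V → ℝ≥0∞} {l : ℝ≥0∞}
    (h : ∀ a b, wA a ≠ 0 → wB b ≠ 0 → G (yA a - yB b) ≤ l) :
    ∑' a, ∑' b, wA a * wB b * G (yA a - yB b) ≤ l * ((∑' a, wA a) * ∑' b, wB b) := by
  rw [← ENNReal.tsum_mul_right, ← ENNReal.tsum_mul_left]
  refine ENNReal.tsum_le_tsum fun a => ?_
  rw [← ENNReal.tsum_mul_left, ← ENNReal.tsum_mul_left]
  refine ENNReal.tsum_le_tsum fun b => ?_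
  by_cases ha : wA a = 0
  · simp [ha]
  by_cases hb : wB b = 0
  · simp [hb]
  rw [mul_comm l]
  exact mul_le_mul_right (h a b ha hb) _

/-- **the pair mass is a product up to a relative error** -/
theorem pair_prod [Sub V] {wA : A → ℝ≥0∞} {yA : A → V} {wB : B → ℝ≥0∞} {yB : B → V} {G : V → ℝ≥0∞} {c δ : ℝ} (hc : 0 ≤ c)
    (hδ : 0 ≤ δ) (h : ∀ a b, wA a ≠ 0 → wB b ≠ 0 → G (yA a - yB b) ≠ ∞ ∧ |(G (yA a - yB b)).toReal - c| ≤ δ * c)
    (hA : ∑' a, wA a ≠ ∞) (hB : ∑' b, wB b ≠ ∞) :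
    |(∑' a, ∑' b, wA a * wB b * G (yA a - yB b)).toReal - c * (∑' a, wA a).toReal * (∑' b, wB b).toReal| ≤
      δ * (c * (∑' a, wA a).toReal * (∑' b, wB b).toReal) := by
  have h1 : ENNReal.ofReal ((1 - δ) * c) * ((∑' a, wA a) * ∑' b, wB b) ≤ ∑' a, ∑' b, wA a * wB b * G (yA a - yB b) := by
    refine pair_lo fun a b ha hb => ?_
    obtain ⟨h2, h3⟩ := h a b ha hb
    refine ENNReal.ofReal_le_of_le_toReal ?_
    have := (abs_le.1 h3).1
    linarith
  have h2 : ∑' a, ∑' b, wA a * wB b * G (yA a - yB b) ≤ ENNReal.ofReal ((1 + δ) * c) * ((∑' a, wA a) * ∑' b, wB b) := by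
    refine pair_hi fun a b ha hb => ?_
    obtain ⟨h2, h3⟩ := h a b ha hb
    rw [← ENNReal.ofReal_toReal h2]
    refine ENNReal.ofReal_le_ofReal ?_
    have := (abs_le.1 h3).2
    linarith
  have hAB : (∑' a, wA a) * ∑' b, wB b ≠ ∞ := ENNReal.mul_ne_top hA hB
  have h3 : ∑' a, ∑' b, wA a * wB b * G (yA a - yB b) ≠ ∞ := ne_top_of_le_ne_top (ENNReal.mul_ne_top ENNReal.ofReal_ne_top hAB) h2
  have h4 := ENNReal.toReal_mono h3 h1
  have h5 := ENNReal.toReal_mono (ENNReal.mul_ne_top ENNReal.ofReal_ne_top hAB) h2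
  rw [ENNReal.toReal_mul, ENNReal.toReal_mul] at h4 h5
  rw [ENNReal.toReal_ofReal (by positivity)] at h5
  have h6 : (1 - δ) * c ≤ (ENNReal.ofReal ((1 - δ) * c)).toReal := by
    rw [ENNReal.toReal_ofReal']
    exact le_max_left _ _
  obtain ⟨x, hx⟩ : ∃ x, x = (∑' a, wA a).toReal := ⟨_, rfl⟩
  obtain ⟨y, hy⟩ : ∃ y, y = (∑' b, wB b).toReal := ⟨_, rfl⟩
  rw [← hx, ← hy] at h4 h5 ⊢
  have hx0 : 0 ≤ x := by rw [hx]; exact ENNReal.toReal_nonneg
  have hy0 : 0 ≤ y := by rw [hy]; exact ENNReal.toReal_nonneg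
  have h7 : (1 - δ) * c * (x * y) ≤ (ENNReal.ofReal ((1 - δ) * c)).toReal * (x * y) :=
    mul_le_mul_of_nonneg_right h6 (by positivity)
  rw [abs_le]
  constructor
  · nlinarith [h4, h7]
  · nlinarith [h5]

end basic

section cont

variable {V : Type*} [AddCommGroup V]

/-- the modulus of `Gam` in the second function -/
lemma Gam_le {g g' : V → ℝ≥0∞} {M : ℝ≥0∞} (hg : ∀ z, g z ≤ M) (y y' : V) :
    Gam g g' y ≤ Gam g g' y' + M * ∑' z, (g' (z + y) - g' (z + y')) := by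
  unfold Gam
  rw [← ENNReal.tsum_mul_left, ← ENNReal.tsum_add]
  refine ENNReal.tsum_le_tsum fun z => ?_
  have h1 : g' (z + y) ≤ g' (z + y') + (g' (z + y) - g' (z + y')) := le_add_tsub
  calc g z * g' (z + y) ≤ g z * (g' (z + y') + (g' (z + y) - g' (z + y'))) := mul_le_mul_right h1 _
    _ = g z * g' (z + y') + g z * (g' (z + y) - g' (z + y')) := mul_add _ _ _
    _ ≤ _ := add_le_add le_rfl (mul_le_mul_left (hg z) _)

lemma Gam_le_sup {g g' : V → ℝ≥0∞} {M : ℝ≥0∞} (hg : ∀ z, g z ≤ M) (y : V) : Gam g g' y ≤ M * ∑' z, g' z := by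
  unfold Gam
  rw [← ENNReal.tsum_mul_left]
  calc ∑' z, g z * g' (z + y) ≤ ∑' z, M * g' (z + y) := ENNReal.tsum_le_tsum fun z => mul_le_mul_left (hg z) _
    _ = ∑' z, M * g' z := (Equiv.addRight y).tsum_eq fun z => M * g' z

/-- **the modulus of continuity of `Gam`, real numbers**: `L` = bound of the one-sided differences -/
theorem Gam_cont {g g' : V → ℝ≥0∞} {M L : ℝ≥0∞} (hM : M ≠ ∞) (hL : L ≠ ∞) (hg : ∀ z, g z ≤ M) (hg' : ∑' z, g' z ≠ ∞) {y y' : V}
    (h1 : ∑' z, (g' (z + y) - g' (z + y')) ≤ L) (h2 : ∑' z, (g' (z + y') - g' (z + y)) ≤ L) :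
    Gam g g' y ≠ ∞ ∧ |(Gam g g' y).toReal - (Gam g g' y').toReal| ≤ M.toReal * L.toReal := by
  have f1 : Gam g g' y ≠ ∞ := ne_top_of_le_ne_top (ENNReal.mul_ne_top hM hg') (Gam_le_sup hg y)
  have f2 : Gam g g' y' ≠ ∞ := ne_top_of_le_ne_top (ENNReal.mul_ne_top hM hg') (Gam_le_sup hg y')
  have hML : M * L ≠ ∞ := ENNReal.mul_ne_top hM hL
  have a1 : Gam g g' y ≤ Gam g g' y' + M * L := (Gam_le hg y y').trans (add_le_add le_rfl (mul_le_mul_right h1 _))
  have a2 : Gam g g' y' ≤ Gam g g' y + M * L := (Gam_le hg y' y).trans (add_le_add le_rfl (mul_le_mul_right h2 _))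
  have b1 := ENNReal.toReal_mono (ENNReal.add_ne_top.2 ⟨f2, hML⟩) a1
  have b2 := ENNReal.toReal_mono (ENNReal.add_ne_top.2 ⟨f1, hML⟩) a2
  rw [ENNReal.toReal_add f2 hML, ENNReal.toReal_mul] at b1
  rw [ENNReal.toReal_add f1 hML, ENNReal.toReal_mul] at b2
  refine ⟨f1, abs_le.2 ⟨by linarith, by linarith⟩⟩

/-- lower bound of `Gam` from lower bounds on a cell -/
lemma Gam_low {g g' : V → ℝ≥0∞} {c c' : ℝ≥0∞} {y : V} (S : Finset V) (h1 : ∀ z ∈ S, c ≤ g z) (h2 : ∀ z ∈ S, c' ≤ g' (z + y)) :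
    (S.card : ℝ≥0∞) * (c * c') ≤ Gam g g' y := by
  unfold Gam
  calc (S.card : ℝ≥0∞) * (c * c') = ∑ _z ∈ S, c * c' := by rw [sum_const, nsmul_eq_mul]
    _ ≤ ∑ z ∈ S, g z * g' (z + y) := sum_le_sum fun z hz => mul_le_mul' (h1 z hz) (h2 z hz)
    _ ≤ _ := ENNReal.sum_le_tsum _

end cont

section num

variable {K K' A B V : Type*} [AddCommGroup V]

/-- **all together**: the pair mass is `Gam y0` times the two masses up to a relative error -/
theorem pair_num {wK : K → ℝ≥0∞} {zK : K → V} {wK' : K' → ℝ≥0∞} {zK' : K' → V} {wA : A → ℝ≥0∞} {yA : A → V} {wB : B → ℝ≥0∞}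
    {yB : B → V} {M L : ℝ≥0∞} {c δ : ℝ} {y0 : V} (hM : M ≠ ∞) (hL : L ≠ ∞) (hδ : 0 ≤ δ) (hK : ∀ v, msum wK zK v ≤ M)
    (hK' : ∑' k, wK' k ≠ ∞) (hA : ∑' a, wA a ≠ ∞) (hB : ∑' b, wB b ≠ ∞)
    (h1 : ∀ a b, wA a ≠ 0 → wB b ≠ 0 →
      ∑' z, (msum wK' zK' (z + (yA a - yB b)) - msum wK' zK' (z + y0)) ≤ L ∧
        ∑' z, (msum wK' zK' (z + y0) - msum wK' zK' (z + (yA a - yB b))) ≤ L)
    (h2 : c = (Gam (msum wK zK) (msum wK' zK') y0).toReal) (h3 : M.toReal * L.toReal ≤ δ * c) :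
    |(∑' a, ∑' b, ∑' k, ∑' k', (if zK' k' = zK k + (yA a - yB b) then wK k * wK' k' * (wA a * wB b) else 0)).toReal -
        c * (∑' a, wA a).toReal * (∑' b, wB b).toReal| ≤ δ * (c * (∑' a, wA a).toReal * (∑' b, wB b).toReal) := by
  rw [pair_exact]
  refine pair_prod (by rw [h2]; exact ENNReal.toReal_nonneg) hδ (fun a b ha hb => ?_) hA hB
  obtain ⟨h4, h5⟩ := h1 a b ha hb
  obtain ⟨h6, h7⟩ := Gam_cont (g := msum wK zK) hM hL hK (by rw [tsum_msum]; exact hK') h4 h5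
  refine ⟨h6, ?_⟩
  rw [h2]
  rw [h2] at h3
  exact h7.trans h3

end num

end Pool.Agent.ROT.F3
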