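import Pool.Agent.ROT.F3Cut
import Pool.Agent.ROT.F3Dic
import Pool.Agent.ROT.F3Gam

/-!
# ROT / F3ExP (helper55): the exact identities (W), (P) as real numbers, sums over `saw n`, `pol n`

* `tsum_len`, `tsum_SW`, `tsum_Cl` : sums over words = sums over the lengths;
* `PhiP` : the sum over the marks of a closed word with the roots 0 and m; **`exP_pol`** : (P) with `pol n`;
* **`exP_num`**, `exP_num'` : the pair mass is `c * ms RA F * ms RB G` up to a relative error;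
* **`exW_saw`** : (W) with `saw n`.
-/

set_option autoImplicit false

namespace Pool.Agent.ROT.F3

open Finset
open Pool.Agent.NTS.Res (step pos saw fug)
open Pool.Agent.PMA.Res (pol)
open scoped ENNReal Classical

/-! ### 1. sums over the words by length -/

/-- all words, by length -/
theorem tsum_len (f : W3 → ℝ≥0∞) : ∑' w : W3, f w = ∑' n : ℕ, ∑ s : Fin n → Fin 3, f (List.ofFn s) := by
  rw [← (List.equivSigmaTuple (α := Fin 3)).symm.tsum_eq f, ENNReal.tsum_sigma']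
  refine tsum_congr fun n => ?_
  rw [tsum_fintype]
  rfl

/-- the self-avoiding words -/
theorem tsum_SW (f : W3 → ℝ≥0∞) : ∑' w : W3, (if SW w then f w else 0) = ∑' n : ℕ, ∑ s ∈ saw n, f (List.ofFn s) := by
  rw [tsum_len]
  refine tsum_congr fun n => ?_
  rw [← sum_filter]
  refine sum_congr ?_ fun _ _ => rfl
  ext s
  rw [mem_filter, SW_ofFn]
  simp

lemma sum_Cl_len (m : ℕ) (f : W3 → ℝ≥0∞) :
    ∑ s : Fin m → Fin 3, (if Cl (List.ofFn s) then f (List.ofFn s) else 0) = ∑' w : Cln m, f w := by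
  have h1 : ∀ S : Set W3, S = ↑(((univ : Finset (Fin m → Fin 3)).filter fun s => Cl (List.ofFn s)).map (oe m)) →
      ∑' w : S, f w = ∑ s : Fin m → Fin 3, (if Cl (List.ofFn s) then f (List.ofFn s) else 0) := by
    rintro S rfl
    rw [Finset.tsum_subtype', sum_map, ← sum_filter]
    rfl
  refine (h1 _ ?_).symm
  ext w
  rw [mem_coe, mem_map]
  constructor
  · rintro ⟨a, b⟩
    obtain ⟨s, rfl⟩ := exists_ofFn b
    exact ⟨s, mem_filter.2 ⟨mem_univ _, a⟩, rfl⟩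
  · rintro ⟨s, hs, rfl⟩
    exact ⟨(mem_filter.1 hs).2, List.length_ofFn⟩

/-- the closed words -/
theorem tsum_Cl (f : W3 → ℝ≥0∞) (h0 : f [] = 0) :
    ∑' w : W3, (if Cl w then f w else 0) = ∑' n : ℕ, (if Odd n then ∑ s ∈ pol n, f (clw s) else 0) := by
  rw [tsum_len, tsum_eq_zero_add' ENNReal.summable]
  have e0 : ∑ s : Fin 0 → Fin 3, (if Cl (List.ofFn s) then f (List.ofFn s) else 0) = 0 := by
    refine sum_eq_zero fun s _ => ?_
    rw [List.ofFn_zero, h0, ite_self]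
  rw [e0, zero_add]
  refine tsum_congr fun n => ?_
  rw [sum_Cl_len]
  by_cases hn : Odd n
  · rw [if_pos hn, sum_pol' hn]
  · rw [if_neg hn]
    have : Cln (n + 1) = ∅ := Cln_empty fun h => hn (by
      rcases Nat.even_or_odd n with h1 | h1
      · exact absurd h (Nat.not_even_iff_odd.2 h1.add_one)
      · exact h1)
    rw [this]
    simp

/-! ### 2. finite sums of real numbers -/

lemma fug_nn : 0 ≤ fug := inv_nonneg.2 (Real.sqrt_nonneg _)

/-- a sum over the natural numbers with finitely many terms -/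
lemma fin1 {n : ℕ} {f : ℕ → ℝ} (h0 : ∀ k, 0 ≤ f k) (hn : ∀ k, n < k → f k = 0) :
    ∑' k, ENNReal.ofReal (f k) = ENNReal.ofReal (∑ k ∈ range (n + 1), f k) := by
  rw [ENNReal.ofReal_sum_of_nonneg fun k _ => h0 k]
  refine tsum_eq_sum fun k hk => ?_
  rw [hn k (by rw [mem_range] at hk; omega), ENNReal.ofReal_zero]

/-- the term with the marks `k1 ≤ k2 ≤ m ≤ k3 ≤ k4` -/
noncomputable def mkP (C C' : Set (W3 × W3)) (RA RB : Set W3) (e e' : W3 × W3 → ℝ) (F G : W3 → ℝ) (w : W3)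
    (k1 k2 m k3 k4 : ℕ) : ℝ :=
  if (k1 ≤ k2 ∧ k2 ≤ m ∧ m ≤ k3 ∧ k3 ≤ k4 ∧ k4 ≤ w.length) ∧ (seg w 0 k1, (w.drop k4).reverse) ∈ C ∧
    seg w k1 k2 ∈ RA ∧ ((seg w k2 m).reverse, seg w m k3) ∈ C' ∧ (seg w k3 k4).reverse ∈ RB then
    e (seg w 0 k1, (w.drop k4).reverse) * e' ((seg w k2 m).reverse, seg w m k3) *
      (F (seg w k1 k2) * G (seg w k3 k4).reverse) else 0

/-- **the sum over the marks** of the closed word `w` with the roots `0` and `m` -/
noncomputable def PhiP (C C' : Set (W3 × W3)) (RA RB : Set W3) (e e' : W3 × W3 → ℝ) (F G : W3 → ℝ) (w : W3)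
    (m : ℕ) : ℝ :=
  ∑ k1 ∈ range (w.length + 1), ∑ k2 ∈ range (w.length + 1), ∑ k3 ∈ range (w.length + 1), ∑ k4 ∈ range (w.length + 1),
    mkP C C' RA RB e e' F G w k1 k2 m k3 k4

section pol

variable {C C' : Set (W3 × W3)} {RA RB : Set W3} {e e' : W3 × W3 → ℝ} {F G : W3 → ℝ}

lemma mkP_nn (he : ∀ a, 0 ≤ e a) (he' : ∀ a, 0 ≤ e' a) (hF : ∀ R, 0 ≤ F R) (hG : ∀ R, 0 ≤ G R) (w : W3)
    (k1 k2 m k3 k4 : ℕ) : 0 ≤ mkP C C' RA RB e e' F G w k1 k2 m k3 k4 := by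
  unfold mkP
  split_ifs
  · exact mul_nonneg (mul_nonneg (he _) (he' _)) (mul_nonneg (hF _) (hG _))
  · exact le_rfl

lemma PhiP_nn (he : ∀ a, 0 ≤ e a) (he' : ∀ a, 0 ≤ e' a) (hF : ∀ R, 0 ≤ F R) (hG : ∀ R, 0 ≤ G R) (w : W3) (m : ℕ) :
    0 ≤ PhiP C C' RA RB e e' F G w m :=
  sum_nonneg fun _ _ => sum_nonneg fun _ _ => sum_nonneg fun _ _ => sum_nonneg fun _ _ => mkP_nn he he' hF hG _ _ _ _ _ _

lemma mkP_out {w : W3} {k1 k2 m k3 k4 : ℕ}
    (h : w.length < k1 ∨ w.length < k2 ∨ w.length < m ∨ w.length < k3 ∨ w.length < k4) :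
    mkP C C' RA RB e e' F G w k1 k2 m k3 k4 = 0 := by
  unfold mkP
  rw [if_neg]
  rintro ⟨h1, -⟩
  omega

/-- the sum over all marks -/
lemma tsum_mkP (he : ∀ a, 0 ≤ e a) (he' : ∀ a, 0 ≤ e' a) (hF : ∀ R, 0 ≤ F R) (hG : ∀ R, 0 ≤ G R) (w : W3) :
    ∑' k1 : ℕ, ∑' k2 : ℕ, ∑' m : ℕ, ∑' k3 : ℕ, ∑' k4 : ℕ, ENNReal.ofReal (mkP C C' RA RB e e' F G w k1 k2 m k3 k4) =
      ENNReal.ofReal (∑ m ∈ range (w.length + 1), PhiP C C' RA RB e e' F G w m) := by
  have n0 := mkP_nn (C := C) (C' := C') (RA := RA) (RB := RB) he he' hF hG w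
  have e5 : ∀ k1 k2 m k3, ∑' k4 : ℕ, ENNReal.ofReal (mkP C C' RA RB e e' F G w k1 k2 m k3 k4) =
      ENNReal.ofReal (∑ k4 ∈ range (w.length + 1), mkP C C' RA RB e e' F G w k1 k2 m k3 k4) := fun k1 k2 m k3 =>
    fin1 (fun k4 => n0 _ _ _ _ _) fun k4 h => mkP_out (by omega)
  have n5 : ∀ k1 k2 m k3, 0 ≤ ∑ k4 ∈ range (w.length + 1), mkP C C' RA RB e e' F G w k1 k2 m k3 k4 := fun _ _ _ _ =>
    sum_nonneg fun _ _ => n0 _ _ _ _ _
  have e4 : ∀ k1 k2 m, ∑' k3 : ℕ, ∑' k4 : ℕ, ENNReal.ofReal (mkP C C' RA RB e e' F G w k1 k2 m k3 k4) =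
      ENNReal.ofReal (∑ k3 ∈ range (w.length + 1), ∑ k4 ∈ range (w.length + 1),
        mkP C C' RA RB e e' F G w k1 k2 m k3 k4) := fun k1 k2 m => by
    simp only [e5]
    exact fin1 (fun k3 => n5 _ _ _ _) fun k3 h => sum_eq_zero fun k4 _ => mkP_out (by omega)
  have n4 : ∀ k1 k2 m, 0 ≤ ∑ k3 ∈ range (w.length + 1), ∑ k4 ∈ range (w.length + 1),
      mkP C C' RA RB e e' F G w k1 k2 m k3 k4 := fun _ _ _ => sum_nonneg fun _ _ => n5 _ _ _ _
  have e3 : ∀ k1 k2, ∑' m : ℕ, ∑' k3 : ℕ, ∑' k4 : ℕ, ENNReal.ofReal (mkP C C' RA RB e e' F G w k1 k2 m k3 k4) =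
      ENNReal.ofReal (∑ m ∈ range (w.length + 1), ∑ k3 ∈ range (w.length + 1), ∑ k4 ∈ range (w.length + 1),
        mkP C C' RA RB e e' F G w k1 k2 m k3 k4) := fun k1 k2 => by
    simp only [e4]
    exact fin1 (fun m => n4 _ _ _) fun m h => sum_eq_zero fun k3 _ => sum_eq_zero fun k4 _ => mkP_out (by omega)
  have n3 : ∀ k1 k2, 0 ≤ ∑ m ∈ range (w.length + 1), ∑ k3 ∈ range (w.length + 1), ∑ k4 ∈ range (w.length + 1),
      mkP C C' RA RB e e' F G w k1 k2 m k3 k4 := fun _ _ => sum_nonneg fun _ _ => n4 _ _ _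
  have e2 : ∀ k1, ∑' k2 : ℕ, ∑' m : ℕ, ∑' k3 : ℕ, ∑' k4 : ℕ,
      ENNReal.ofReal (mkP C C' RA RB e e' F G w k1 k2 m k3 k4) =
      ENNReal.ofReal (∑ k2 ∈ range (w.length + 1), ∑ m ∈ range (w.length + 1), ∑ k3 ∈ range (w.length + 1),
        ∑ k4 ∈ range (w.length + 1), mkP C C' RA RB e e' F G w k1 k2 m k3 k4) := fun k1 => by
    simp only [e3]
    exact fin1 (fun k2 => n3 _ _) fun k2 h => sum_eq_zero fun m _ => sum_eq_zero fun k3 _ => sum_eq_zero fun k4 _ =>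
      mkP_out (by omega)
  have n2 : ∀ k1, 0 ≤ ∑ k2 ∈ range (w.length + 1), ∑ m ∈ range (w.length + 1), ∑ k3 ∈ range (w.length + 1),
      ∑ k4 ∈ range (w.length + 1), mkP C C' RA RB e e' F G w k1 k2 m k3 k4 := fun _ => sum_nonneg fun _ _ => n3 _ _
  simp only [e2]
  rw [fin1 (n := w.length) (fun k1 => n2 _) fun k1 h => sum_eq_zero fun k2 _ => sum_eq_zero fun m _ => sum_eq_zero fun k3 _ =>
    sum_eq_zero fun k4 _ => mkP_out (by omega)]
  congr 1
  unfold PhiP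
  rw [sum_comm (s := range (w.length + 1)) (t := range (w.length + 1)) (f := fun m k1 =>
    ∑ k2 ∈ range (w.length + 1), ∑ k3 ∈ range (w.length + 1), ∑ k4 ∈ range (w.length + 1),
      mkP C C' RA RB e e' F G w k1 k2 m k3 k4)]
  refine sum_congr rfl fun k1 _ => ?_
  rw [sum_comm]

/-- **(P), polygons**, in `ℝ≥0∞` -/
theorem exP_ofReal (H : Hyp C C' RA RB) (hne : [] ∉ RA) (he : ∀ a, 0 ≤ e a) (he' : ∀ a, 0 ≤ e' a)
    (hF : ∀ R, 0 ≤ F R) (hG : ∀ R, 0 ≤ G R) :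
    ∑' n : ℕ, ENNReal.ofReal (if Odd n then fug ^ (n + 1) * ∑ s ∈ pol n, ∑ m ∈ range (n + 2),
      PhiP C C' RA RB e e' F G (clw s) m else 0) =
    ∑' (R : W3) (S : W3), if R ∈ RA ∧ S ∈ RB then wx R * ENNReal.ofReal (F R) * (wx S * ENNReal.ofReal (G S)) *
      ∑' z : ℂ, (if Dj R S z then gam C (fun a => ENNReal.ofReal (e a)) z *
        gam C' (fun a => ENNReal.ofReal (e' a)) (z + en R - en S) else 0) else 0 := by
  have hfug : (0 : ℝ) ≤ fug := fug_nn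
  rw [← exPm H (fun a => ENNReal.ofReal (e a)) (fun a => ENNReal.ofReal (e' a)) (fun R => ENNReal.ofReal (F R))
    (fun R => ENNReal.ofReal (G R))]
  have h1 : ∀ w : W3, ∑' k1 : ℕ, ∑' k2 : ℕ, ∑' m : ℕ, ∑' k3 : ℕ, ∑' k4 : ℕ,
      (if (k1 ≤ k2 ∧ k2 ≤ m ∧ m ≤ k3 ∧ k3 ≤ k4 ∧ k4 ≤ w.length) ∧ Cl w ∧ (seg w 0 k1, (w.drop k4).reverse) ∈ C ∧
          seg w k1 k2 ∈ RA ∧ ((seg w k2 m).reverse, seg w m k3) ∈ C' ∧ (seg w k3 k4).reverse ∈ RB then
        wx w * (ENNReal.ofReal (e (seg w 0 k1, (w.drop k4).reverse)) *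
          ENNReal.ofReal (e' ((seg w k2 m).reverse, seg w m k3)) *
          (ENNReal.ofReal (F (seg w k1 k2)) * ENNReal.ofReal (G (seg w k3 k4).reverse))) else 0) =
      if Cl w then ENNReal.ofReal (fug ^ w.length * ∑ m ∈ range (w.length + 1), PhiP C C' RA RB e e' F G w m) else 0 := by
    intro w
    by_cases hc : Cl w
    · rw [if_pos hc, ENNReal.ofReal_mul (pow_nonneg hfug _), ← tsum_mkP he he' hF hG, ← ENNReal.tsum_mul_left]
      refine tsum_congr fun k1 => ?_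
      rw [← ENNReal.tsum_mul_left]
      refine tsum_congr fun k2 => ?_
      rw [← ENNReal.tsum_mul_left]
      refine tsum_congr fun m => ?_
      rw [← ENNReal.tsum_mul_left]
      refine tsum_congr fun k3 => ?_
      rw [← ENNReal.tsum_mul_left]
      refine tsum_congr fun k4 => ?_
      unfold mkP
      by_cases h : (k1 ≤ k2 ∧ k2 ≤ m ∧ m ≤ k3 ∧ k3 ≤ k4 ∧ k4 ≤ w.length) ∧ (seg w 0 k1, (w.drop k4).reverse) ∈ C ∧
          seg w k1 k2 ∈ RA ∧ ((seg w k2 m).reverse, seg w m k3) ∈ C' ∧ (seg w k3 k4).reverse ∈ RB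
      · rw [if_pos ⟨h.1, hc, h.2⟩, if_pos h, ENNReal.ofReal_mul (mul_nonneg (he _) (he' _)), ENNReal.ofReal_mul (he _),
          ENNReal.ofReal_mul (hF _)]
        unfold wx
        rw [ENNReal.ofReal_pow hfug]
      · rw [if_neg h, if_neg fun h' => h ⟨h'.1, h'.2.2⟩, ENNReal.ofReal_zero, mul_zero]
    · rw [if_neg hc]
      simp only [ENNReal.tsum_eq_zero]
      intro k1 k2 m k3 k4
      exact if_neg fun h => hc h.2.1
  rw [tsum_congr h1, tsum_Cl (fun w => ENNReal.ofReal (fug ^ w.length * ∑ m ∈ range (w.length + 1),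
    PhiP C C' RA RB e e' F G w m))]
  · refine tsum_congr fun n => ?_
    by_cases hn : Odd n
    · rw [if_pos hn, if_pos hn, mul_sum, ENNReal.ofReal_sum_of_nonneg fun s _ =>
        mul_nonneg (pow_nonneg hfug _) (sum_nonneg fun m _ => PhiP_nn he he' hF hG _ _)]
      refine sum_congr rfl fun s _ => ?_
      rw [length_clw]
    · rw [if_neg hn, if_neg hn, ENNReal.ofReal_zero]
  · have : ∑ m ∈ range (([] : W3).length + 1), PhiP C C' RA RB e e' F G [] m = 0 := by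
      refine sum_eq_zero fun m _ => ?_
      unfold PhiP
      refine sum_eq_zero fun k1 _ => sum_eq_zero fun k2 _ => sum_eq_zero fun k3 _ => sum_eq_zero fun k4 _ => ?_
      unfold mkP
      rw [if_neg]
      rintro ⟨-, -, h2, -⟩
      refine hne ?_
      have h3 : seg ([] : W3) k1 k2 = [] := by
        unfold seg
        simp
      rwa [h3] at h2
    rw [this, mul_zero, ENNReal.ofReal_zero]

/-- the mass of the marked polygons -/
noncomputable def IP (C C' : Set (W3 × W3)) (RA RB : Set W3) (e e' : W3 × W3 → ℝ) (F G : W3 → ℝ) : ℝ :=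
  ∑' n : ℕ, (if Odd n then fug ^ (n + 1) * ∑ s ∈ pol n, ∑ m ∈ range (n + 2), PhiP C C' RA RB e e' F G (clw s) m else 0)

/-- **(P), polygons**, real numbers -/
theorem exP_pol (H : Hyp C C' RA RB) (hne : [] ∉ RA) (he : ∀ a, 0 ≤ e a) (he' : ∀ a, 0 ≤ e' a)
    (hF : ∀ R, 0 ≤ F R) (hG : ∀ R, 0 ≤ G R) :
    IP C C' RA RB e e' F G =
    (∑' (R : W3) (S : W3), if R ∈ RA ∧ S ∈ RB then wx R * ENNReal.ofReal (F R) * (wx S * ENNReal.ofReal (G S)) *
      ∑' z : ℂ, (if Dj R S z then gam C (fun a => ENNReal.ofReal (e a)) z *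
        gam C' (fun a => ENNReal.ofReal (e' a)) (z + en R - en S) else 0) else 0).toReal := by
  rw [← exP_ofReal H hne he he' hF hG, ENNReal.tsum_toReal_eq fun n => ENNReal.ofReal_ne_top]
  unfold IP
  refine tsum_congr fun n => ?_
  rw [ENNReal.toReal_ofReal]
  split_ifs
  · exact mul_nonneg (pow_nonneg fug_nn _) (sum_nonneg fun _ _ => sum_nonneg fun _ _ => PhiP_nn he he' hF hG _ _)
  · exact le_rfl

/-- separated supports: the two arcs are disjoint for all connections -/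
def Sep (C : Set (W3 × W3)) (RA RB : Set W3) (e : W3 × W3 → ℝ) (F G : W3 → ℝ) : Prop :=
  ∀ a ∈ C, e a ≠ 0 → ∀ R ∈ RA, F R ≠ 0 → ∀ S ∈ RB, G S ≠ 0 → Dj R S (en a.1 - en a.2)

/-- **(P) for separated supports**: no condition of disjointness is left -/
theorem exP_Gam (H : Hyp C C' RA RB) (hne : [] ∉ RA) (he : ∀ a, 0 ≤ e a) (he' : ∀ a, 0 ≤ e' a)
    (hF : ∀ R, 0 ≤ F R) (hG : ∀ R, 0 ≤ G R) (hs : Sep C RA RB e F G) :
    ∑' n : ℕ, ENNReal.ofReal (if Odd n then fug ^ (n + 1) * ∑ s ∈ pol n, ∑ m ∈ range (n + 2),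
      PhiP C C' RA RB e e' F G (clw s) m else 0) =
    ∑' (R : W3) (S : W3), (if R ∈ RA then wx R * ENNReal.ofReal (F R) else 0) *
      (if S ∈ RB then wx S * ENNReal.ofReal (G S) else 0) *
      Gam (gam C fun a => ENNReal.ofReal (e a)) (gam C' fun a => ENNReal.ofReal (e' a)) (en R - en S) := by
  rw [exP_ofReal H hne he he' hF hG]
  refine tsum_congr fun R => tsum_congr fun S => ?_
  by_cases h : R ∈ RA ∧ S ∈ RB
  swap
  · rw [if_neg h]
    by_cases h1 : R ∈ RA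
    · rw [if_neg (c := S ∈ RB) fun h2 => h ⟨h1, h2⟩, mul_zero, zero_mul]
    · rw [if_neg h1, zero_mul, zero_mul]
  rw [if_pos h, if_pos h.1, if_pos h.2]
  by_cases h1 : F R = 0
  · rw [h1, ENNReal.ofReal_zero]
    simp
  by_cases h2 : G S = 0
  · rw [h2, ENNReal.ofReal_zero]
    simp
  congr 1
  unfold Gam
  refine tsum_congr fun z => ?_
  by_cases h3 : Dj R S z
  · rw [if_pos h3, add_sub_assoc]
  · rw [if_neg h3]
    have h4 : gam C (fun a => ENNReal.ofReal (e a)) z = 0 := by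
      unfold gam
      rw [ENNReal.tsum_eq_zero]
      intro a
      by_cases h5 : a ∈ C ∧ en a.1 - en a.2 = z
      · rw [if_pos h5]
        by_cases h6 : e a = 0
        · simp only [h6, ENNReal.ofReal_zero, mul_zero]
        · exact absurd (h5.2 ▸ hs a h5.1 h6 R h.1 h1 S h.2 h2) h3
      · rw [if_neg h5]
    rw [h4, zero_mul]

/-- **the pair mass is a product up to a relative error** -/
theorem exP_num (H : Hyp C C' RA RB) (hne : [] ∉ RA) (he : ∀ a, 0 ≤ e a) (he' : ∀ a, 0 ≤ e' a)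
    (hF : ∀ R, 0 ≤ F R) (hG : ∀ R, 0 ≤ G R) (hs : Sep C RA RB e F G) {c δ : ℝ} (hc : 0 ≤ c) (hδ : 0 ≤ δ)
    (h : ∀ R ∈ RA, F R ≠ 0 → ∀ S ∈ RB, G S ≠ 0 →
      Gam (gam C fun a => ENNReal.ofReal (e a)) (gam C' fun a => ENNReal.ofReal (e' a)) (en R - en S) ≠ ∞ ∧
      |(Gam (gam C fun a => ENNReal.ofReal (e a)) (gam C' fun a => ENNReal.ofReal (e' a)) (en R - en S)).toReal - c| ≤
        δ * c)
    (hA : ms RA (fun R => ENNReal.ofReal (F R)) ≠ ∞) (hB : ms RB (fun R => ENNReal.ofReal (G R)) ≠ ∞) :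
    |IP C C' RA RB e e' F G - c * (ms RA fun R => ENNReal.ofReal (F R)).toReal *
      (ms RB fun R => ENNReal.ofReal (G R)).toReal| ≤
      δ * (c * (ms RA fun R => ENNReal.ofReal (F R)).toReal * (ms RB fun R => ENNReal.ofReal (G R)).toReal) := by
  rw [exP_pol H hne he he' hF hG, ← exP_ofReal H hne he he' hF hG, exP_Gam H hne he he' hF hG hs]
  unfold ms at hA hB ⊢
  refine pair_prod (yA := en) (yB := en)
    (G := Gam (gam C fun a => ENNReal.ofReal (e a)) (gam C' fun a => ENNReal.ofReal (e' a))) hc hδ ?_ hA hB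
  intro R S hR hS
  have h1 : R ∈ RA := by
    by_contra h1
    exact hR (if_neg h1)
  have h2 : S ∈ RB := by
    by_contra h2
    exact hS (if_neg h2)
  rw [if_pos h1] at hR
  rw [if_pos h2] at hS
  refine h R h1 (fun h3 => hR ?_) S h2 fun h3 => hS ?_
  · rw [h3, ENNReal.ofReal_zero, mul_zero]
  · rw [h3, ENNReal.ofReal_zero, mul_zero]

/-- the same from a sup bound of the first connection and the modulus of the second one -/
theorem exP_num' (H : Hyp C C' RA RB) (hne : [] ∉ RA) (he : ∀ a, 0 ≤ e a) (he' : ∀ a, 0 ≤ e' a)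
    (hF : ∀ R, 0 ≤ F R) (hG : ∀ R, 0 ≤ G R) (hs : Sep C RA RB e F G) {M L : ℝ≥0∞} {c δ : ℝ} {y0 : ℂ} (hM : M ≠ ∞)
    (hL : L ≠ ∞) (hδ : 0 ≤ δ) (hK : ∀ v, gam C (fun a => ENNReal.ofReal (e a)) v ≤ M)
    (hK' : ∑' v, gam C' (fun a => ENNReal.ofReal (e' a)) v ≠ ∞)
    (h1 : ∀ R ∈ RA, F R ≠ 0 → ∀ S ∈ RB, G S ≠ 0 →
      ∑' z, (gam C' (fun a => ENNReal.ofReal (e' a)) (z + (en R - en S)) -
        gam C' (fun a => ENNReal.ofReal (e' a)) (z + y0)) ≤ L ∧
      ∑' z, (gam C' (fun a => ENNReal.ofReal (e' a)) (z + y0) -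
        gam C' (fun a => ENNReal.ofReal (e' a)) (z + (en R - en S))) ≤ L)
    (h2 : c = (Gam (gam C fun a => ENNReal.ofReal (e a)) (gam C' fun a => ENNReal.ofReal (e' a)) y0).toReal)
    (h3 : M.toReal * L.toReal ≤ δ * c)
    (hA : ms RA (fun R => ENNReal.ofReal (F R)) ≠ ∞) (hB : ms RB (fun R => ENNReal.ofReal (G R)) ≠ ∞) :
    |IP C C' RA RB e e' F G - c * (ms RA fun R => ENNReal.ofReal (F R)).toReal *
      (ms RB fun R => ENNReal.ofReal (G R)).toReal| ≤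
      δ * (c * (ms RA fun R => ENNReal.ofReal (F R)).toReal * (ms RB fun R => ENNReal.ofReal (G R)).toReal) := by
  refine exP_num H hne he he' hF hG hs (by rw [h2]; exact ENNReal.toReal_nonneg) hδ (fun R hR hR0 S hS hS0 => ?_) hA hB
  obtain ⟨h4, h5⟩ := h1 R hR hR0 S hS hS0
  obtain ⟨h6, h7⟩ := Gam_cont hM hL hK hK' h4 h5
  refine ⟨h6, ?_⟩
  rw [← h2] at h7
  exact h7.trans h3

end pol

/-! ### 3. walks -/

/-- **the sum over the marks** of a walk: tip piece, rest, tip piece (read from the tip) -/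
noncomputable def PhiW (T Rs T' : Set W3) (f F f' : W3 → ℝ) (w : W3) : ℝ :=
  ∑ k ∈ range (w.length + 1), ∑ l ∈ range (w.length - k + 1),
    (if w.take k ∈ T ∧ (w.drop k).take l ∈ Rs ∧ (w.drop (k + l)).reverse ∈ T' then
      f (w.take k) * (F ((w.drop k).take l) * f' (w.drop (k + l)).reverse) else 0)

/-- the mass of the marked walks -/
noncomputable def IW (T Rs T' : Set W3) (f F f' : W3 → ℝ) : ℝ :=
  ∑' n : ℕ, fug ^ n * ∑ s ∈ saw n, PhiW T Rs T' f F f' (List.ofFn s)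

/-- **(W), walks**, in `ℝ≥0∞` -/
theorem exW_ofReal {T Rs T' : Set W3} (hT : ∀ a ∈ T, Even a.length ∧ SW a) (hR : ∀ R ∈ Rs, Even R.length ∧ SW R)
    (hT' : ∀ b ∈ T', Even b.length ∧ SW b)
    (d1 : ∀ a ∈ T, ∀ R ∈ Rs, ∀ j k : ℕ, j < a.length → k ≤ R.length → ps a j ≠ en a + ps R k)
    (d2 : ∀ b ∈ T', ∀ R ∈ Rs, ∀ j k : ℕ, j < b.length → k ≤ R.length → ps b j ≠ en b + ps R.reverse k)
    (d3 : ∀ a ∈ T, ∀ R ∈ Rs, ∀ b ∈ T', ∀ j k : ℕ, j < a.length → k < b.length → ps a j ≠ en a + en R + (ps b k - en b))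
    {f F f' : W3 → ℝ} (hf : ∀ a, 0 ≤ f a) (hF : ∀ a, 0 ≤ F a) (hf' : ∀ a, 0 ≤ f' a) :
    ∑' n : ℕ, ENNReal.ofReal (fug ^ n * ∑ s ∈ saw n, PhiW T Rs T' f F f' (List.ofFn s)) =
      ms T (fun a => ENNReal.ofReal (f a)) * (ms Rs (fun a => ENNReal.ofReal (F a)) *
        ms T' fun a => ENNReal.ofReal (f' a)) := by
  have t0 : ∀ (w : W3) (k l : ℕ), 0 ≤ (if w.take k ∈ T ∧ (w.drop k).take l ∈ Rs ∧ (w.drop (k + l)).reverse ∈ T' then
      f (w.take k) * (F ((w.drop k).take l) * f' (w.drop (k + l)).reverse) else 0) := by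
    intro w k l
    split_ifs
    · exact mul_nonneg (hf _) (mul_nonneg (hF _) (hf' _))
    · exact le_rfl
  have t1 : ∀ w, 0 ≤ PhiW T Rs T' f F f' w := fun w => sum_nonneg fun k _ => sum_nonneg fun l _ => t0 w k l
  rw [← exW hT hR hT' d1 d2 d3]
  have h1 : ∀ w : W3, ∑ k ∈ range (w.length + 1), ∑ l ∈ range (w.length - k + 1),
      (if SW w ∧ w.take k ∈ T ∧ (w.drop k).take l ∈ Rs ∧ (w.drop (k + l)).reverse ∈ T' then
        wx w * (ENNReal.ofReal (f (w.take k)) * (ENNReal.ofReal (F ((w.drop k).take l)) *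
          ENNReal.ofReal (f' (w.drop (k + l)).reverse))) else 0) =
      if SW w then ENNReal.ofReal (fug ^ w.length * PhiW T Rs T' f F f' w) else 0 := by
    intro w
    by_cases hc : SW w
    · rw [if_pos hc, ENNReal.ofReal_mul (pow_nonneg fug_nn _)]
      unfold PhiW
      rw [ENNReal.ofReal_sum_of_nonneg fun k _ => sum_nonneg fun l _ => t0 w k l, mul_sum]
      refine sum_congr rfl fun k _ => ?_
      rw [ENNReal.ofReal_sum_of_nonneg fun l _ => t0 w k l, mul_sum]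
      refine sum_congr rfl fun l _ => ?_
      by_cases h : w.take k ∈ T ∧ (w.drop k).take l ∈ Rs ∧ (w.drop (k + l)).reverse ∈ T'
      · rw [if_pos ⟨hc, h⟩, if_pos h, ENNReal.ofReal_mul (hf _), ENNReal.ofReal_mul (hF _)]
        unfold wx
        rw [ENNReal.ofReal_pow fug_nn]
      · rw [if_neg fun h' => h h'.2, if_neg h, ENNReal.ofReal_zero, mul_zero]
    · rw [if_neg hc]
      exact sum_eq_zero fun k _ => sum_eq_zero fun l _ => if_neg fun h => hc h.1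
  rw [tsum_congr h1, tsum_SW fun w => ENNReal.ofReal (fug ^ w.length * PhiW T Rs T' f F f' w)]
  refine tsum_congr fun n => ?_
  rw [mul_sum, ENNReal.ofReal_sum_of_nonneg fun s _ => mul_nonneg (pow_nonneg fug_nn _) (t1 _)]
  refine sum_congr rfl fun s _ => ?_
  rw [List.length_ofFn]

/-- **(W), walks**, real numbers: an exact product -/
theorem exW_saw {T Rs T' : Set W3} (hT : ∀ a ∈ T, Even a.length ∧ SW a) (hR : ∀ R ∈ Rs, Even R.length ∧ SW R)
    (hT' : ∀ b ∈ T', Even b.length ∧ SW b)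
    (d1 : ∀ a ∈ T, ∀ R ∈ Rs, ∀ j k : ℕ, j < a.length → k ≤ R.length → ps a j ≠ en a + ps R k)
    (d2 : ∀ b ∈ T', ∀ R ∈ Rs, ∀ j k : ℕ, j < b.length → k ≤ R.length → ps b j ≠ en b + ps R.reverse k)
    (d3 : ∀ a ∈ T, ∀ R ∈ Rs, ∀ b ∈ T', ∀ j k : ℕ, j < a.length → k < b.length → ps a j ≠ en a + en R + (ps b k - en b))
    {f F f' : W3 → ℝ} (hf : ∀ a, 0 ≤ f a) (hF : ∀ a, 0 ≤ F a) (hf' : ∀ a, 0 ≤ f' a) :
    IW T Rs T' f F f' = (ms T fun a => ENNReal.ofReal (f a)).toReal *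
      ((ms Rs fun a => ENNReal.ofReal (F a)).toReal * (ms T' fun a => ENNReal.ofReal (f' a)).toReal) := by
  rw [← ENNReal.toReal_mul, ← ENNReal.toReal_mul, ← exW_ofReal hT hR hT' d1 d2 d3 hf hF hf',
    ENNReal.tsum_toReal_eq fun n => ENNReal.ofReal_ne_top]
  unfold IW
  refine tsum_congr fun n => ?_
  rw [ENNReal.toReal_ofReal]
  refine mul_nonneg (pow_nonneg fug_nn _) (sum_nonneg fun s _ => sum_nonneg fun k _ => sum_nonneg fun l _ => ?_)
  split_ifs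
  · exact mul_nonneg (hf _) (mul_nonneg (hF _) (hf' _))
  · exact le_rfl

end Pool.Agent.ROT.F3
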