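import Mathlib

/-!
# ROT / F3MidU (helper43): row R3, from the product form of the limit to the numbers of the two lattices

`X` = the pieces with their durations, `K` = the pieces before and behind the foreign gates. `mN l → m` (rests of lattice 0),
`bN l → b` (rotated lattice) weakly along the filter `U`; `ψ` = weight of the foreign gates as a function of the rest, limit in
`L1 (m)` of the continuous functions `ψs j`; `β1` = law of (pieces, arc), `rd` = the whole rest.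

* `lim_num` : the limit numbers; **`mid_one`**, **`mid_of`** : `β1 = ν.prod b` ⇒ for `ψs` near `ψ`, eventually along `U`,
  `|mN (ψs H) bN (h) - bN (H) mN (ψs h)| ≤ 3 ε mN (ψs h) bN (h)`;
* `cl_of` : the closeness of the rest and the arc from a modulus `ω`; `cl_lim` : its mass from the masses at finite `N`.
-/

set_option autoImplicit false

open MeasureTheory Filter Topology Set BoundedContinuousFunction

namespace Pool.Agent.ROT.F3

section num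

/-- the limit numbers: `A h`, `A H` = integrals over the rests with the foreign gates, `b h`, `b H` = integrals over the arcs -/
lemma lim_num {Ah AH bh bH n0 ε : ℝ} (hA : 0 < Ah) (hε1 : ε ≤ 1 / 2)
    (hbH : |bH| ≤ bh) (h1 : |Ah - n0 * bh| ≤ ε * Ah) (h2 : |AH - n0 * bH| ≤ ε * Ah) :
    0 < bh ∧ |AH * bh - bH * Ah| ≤ 2 * ε * (Ah * bh) := by
  have h3 : 0 < n0 * bh := by
    have := (abs_le.1 h1).2
    nlinarith
  have hbh0 : 0 ≤ bh := (abs_nonneg _).trans hbH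
  have hbh : 0 < bh := by
    rcases hbh0.lt_or_eq with h | h
    · exact h
    · rw [← h, mul_zero] at h3
      exact absurd h3 (lt_irrefl _)
  refine ⟨hbh, ?_⟩
  have e : AH * bh - bH * Ah = (AH - n0 * bH) * bh - bH * (Ah - n0 * bh) := by ring
  rw [e]
  have a1 : |(AH - n0 * bH) * bh| ≤ ε * Ah * bh := by
    rw [abs_mul, abs_of_pos hbh]
    exact mul_le_mul_of_nonneg_right h2 hbh.le
  have a2 : |bH * (Ah - n0 * bh)| ≤ bh * (ε * Ah) := by
    rw [abs_mul]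
    exact mul_le_mul hbH h1 (abs_nonneg _) hbh.le
  have a3 := abs_sub ((AH - n0 * bH) * bh) (bH * (Ah - n0 * bh))
  linarith

/-- an approximation of the numbers of lattice 0 -/
lemma lim_num' {Ah AH Ph PH bh bH n0 ε t : ℝ} (hA : 0 < Ah) (hε : 0 < ε) (hε1 : ε ≤ 1 / 2)
    (hbH : |bH| ≤ bh) (h1 : |Ah - n0 * bh| ≤ ε * Ah) (h2 : |AH - n0 * bH| ≤ ε * Ah)
    (p1 : |Ph - Ah| ≤ t) (p2 : |PH - AH| ≤ t) (ht : t ≤ ε * Ah / 8) :
    0 < bh ∧ 0 < Ph ∧ |PH * bh - bH * Ph| < 3 * ε * (Ph * bh) := by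
  obtain ⟨hbh, h3⟩ := lim_num hA hε1 hbH h1 h2
  have q1 : 15 / 16 * Ah ≤ Ph := by
    have := (abs_le.1 p1).1
    nlinarith
  have hP : 0 < Ph := by linarith
  refine ⟨hbh, hP, ?_⟩
  have e : PH * bh - bH * Ph = (AH * bh - bH * Ah) + ((PH - AH) * bh - bH * (Ph - Ah)) := by ring
  rw [e]
  have a1 : |(PH - AH) * bh| ≤ t * bh := by
    rw [abs_mul, abs_of_pos hbh]
    exact mul_le_mul_of_nonneg_right p2 hbh.le
  have a2 : |bH * (Ph - Ah)| ≤ bh * t := by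
    rw [abs_mul]
    exact mul_le_mul hbH p1 (abs_nonneg _) hbh.le
  have a3 := abs_sub ((PH - AH) * bh) (bH * (Ph - Ah))
  have a4 := abs_add_le (AH * bh - bH * Ah) ((PH - AH) * bh - bH * (Ph - Ah))
  have a5 : t * bh ≤ ε * Ah / 8 * bh := mul_le_mul_of_nonneg_right ht hbh.le
  have a6 : ε * (Ah * bh) * (15 / 16) ≤ ε * (Ph * bh) := by
    have := mul_le_mul_of_nonneg_left q1 (mul_nonneg hε.le hbh.le)
    linarith
  have a7 : 0 < ε * (Ph * bh) := by positivity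
  have a8 : |AH * bh - bH * Ah + ((PH - AH) * bh - bH * (Ph - Ah))| ≤ 9 / 4 * (ε * (Ah * bh)) := by
    have a9 : ε * Ah / 8 * bh = 1 / 8 * (ε * (Ah * bh)) := by ring
    linarith
  have a10 : 9 / 4 * (ε * (Ah * bh)) ≤ 12 / 5 * (ε * (Ph * bh)) := by linarith
  linarith

end num

section lim

variable {ι X K : Type*} [TopologicalSpace X] [MeasurableSpace X] [BorelSpace X] [MeasurableSpace K]

/-- **from the product form of the limit to the numbers of the two lattices**, one approximation `ψs` of the foreign weight -/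
theorem mid_one {U : Filter ι} {mN bN : ι → Measure X} {m b : Measure X} [IsFiniteMeasure m] [IsFiniteMeasure b]
    (hm : ∀ f : X →ᵇ ℝ, Tendsto (fun l => ∫ x, f x ∂(mN l)) U (𝓝 (∫ x, f x ∂m)))
    (hb : ∀ f : X →ᵇ ℝ, Tendsto (fun l => ∫ x, f x ∂(bN l)) U (𝓝 (∫ x, f x ∂b)))
    {ν : Measure K} [IsFiniteMeasure ν] {β1 : Measure (K × X)} [IsFiniteMeasure β1] (hβ : β1 = ν.prod b)
    {rd : K × X → X} (hrd : Measurable rd) {ψ : X → ℝ} (iψ : Integrable ψ m)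
    (hψ : ∀ f : X →ᵇ ℝ, ∫ x, ψ x * f x ∂m = ∫ p, f (rd p) ∂β1)
    {H h : X →ᵇ ℝ} (hH : ∀ x, |H x| ≤ h x) (h1 : ∀ x, h x ≤ 1) {ε : ℝ} (hε : 0 < ε) (hε1 : ε ≤ 1 / 2)
    (cH : ∫ p, |H (rd p) - H p.2| ∂β1 ≤ ε * ∫ p, h (rd p) ∂β1)
    (ch : ∫ p, |h (rd p) - h p.2| ∂β1 ≤ ε * ∫ p, h (rd p) ∂β1)
    (pos : 0 < ∫ p, h (rd p) ∂β1)
    {ψs : X →ᵇ ℝ} (hs : ∫ x, |ψs x - ψ x| ∂m ≤ ε * (∫ p, h (rd p) ∂β1) / 8) :
    ∀ᶠ l in U, 0 < ∫ x, ψs x * h x ∂(mN l) ∧ 0 < ∫ x, h x ∂(bN l) ∧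
      |(∫ x, ψs x * H x ∂(mN l)) * (∫ x, h x ∂(bN l)) - (∫ x, H x ∂(bN l)) * ∫ x, ψs x * h x ∂(mN l)| ≤
        3 * ε * ((∫ x, ψs x * h x ∂(mN l)) * ∫ x, h x ∂(bN l)) := by
  -- the arcs
  have hbd : ∀ f : X →ᵇ ℝ, (∀ x, |f x| ≤ h x) → |∫ x, f x ∂b| ≤ ∫ x, h x ∂b := fun f hf => by
    rw [← Real.norm_eq_abs]
    refine (norm_integral_le_integral_norm _).trans (integral_mono (f.integrable b).norm (h.integrable b) fun x => ?_)
    rw [Real.norm_eq_abs]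
    exact hf x
  have ir : ∀ f : X →ᵇ ℝ, Integrable (fun p => f (rd p)) β1 := fun f =>
    Integrable.of_bound (f.continuous.measurable.comp hrd).aestronglyMeasurable ‖f‖
      (Eventually.of_forall fun p => f.norm_coe_le_norm _)
  have i2 : ∀ f : X →ᵇ ℝ, Integrable (fun p : K × X => f p.2) β1 := fun f =>
    Integrable.of_bound (f.continuous.measurable.comp measurable_snd).aestronglyMeasurable ‖f‖
      (Eventually.of_forall fun p => f.norm_coe_le_norm _)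
  have hs2 : ∀ f : X →ᵇ ℝ, ∫ p, f p.2 ∂β1 = ν.real univ * ∫ x, f x ∂b := fun f => by
    rw [hβ, integral_fun_snd (fun x => f x), smul_eq_mul]
  have hc : ∀ f : X →ᵇ ℝ, ∫ p, |f (rd p) - f p.2| ∂β1 ≤ ε * ∫ p, h (rd p) ∂β1 →
      |∫ p, f (rd p) ∂β1 - ν.real univ * ∫ x, f x ∂b| ≤ ε * ∫ p, h (rd p) ∂β1 := fun f hf => by
    rw [← hs2 f, ← integral_sub (ir f) (i2 f)]
    refine le_trans ?_ hf
    rw [← Real.norm_eq_abs]
    refine (norm_integral_le_integral_norm _).trans (le_of_eq ?_)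
    simp only [Real.norm_eq_abs]
  have q1 := hc h ch
  have q2 := hc H cH
  -- the approximation
  have ip : ∀ f : X →ᵇ ℝ, (∀ x, |f x| ≤ 1) →
      |∫ x, ψs x * f x ∂m - ∫ p, f (rd p) ∂β1| ≤ ε * (∫ p, h (rd p) ∂β1) / 8 := by
    intro f hf
    rw [← hψ f]
    have i3 : Integrable (fun x => ψs x * f x) m := (ψs * f).integrable m
    have i4 : Integrable (fun x => ψ x * f x) m :=
      iψ.mul_bdd (c := 1) f.continuous.measurable.aestronglyMeasurable (Eventually.of_forall fun x => by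
        rw [Real.norm_eq_abs]; exact hf x)
    rw [← integral_sub i3 i4, ← Real.norm_eq_abs]
    refine (norm_integral_le_integral_norm _).trans (le_trans ?_ hs)
    refine integral_mono (i3.sub i4).norm ((ψs.integrable m).sub iψ).norm fun x => ?_
    simp only [Real.norm_eq_abs]
    rw [← sub_mul, abs_mul]
    exact mul_le_of_le_one_right (abs_nonneg _) (hf x)
  have h0 : ∀ x, 0 ≤ h x := fun x => (abs_nonneg _).trans (hH x)
  have p1 := ip h fun x => by rw [abs_of_nonneg (h0 x)]; exact h1 x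
  have p2 := ip H fun x => (hH x).trans (h1 x)
  obtain ⟨c1, c2, c3⟩ := lim_num' pos hε hε1 (hbd H hH) q1 q2 p1 p2 le_rfl
  have t1 : Tendsto (fun l => ∫ x, ψs x * h x ∂(mN l)) U (𝓝 (∫ x, ψs x * h x ∂m)) := hm (ψs * h)
  have t2 : Tendsto (fun l => ∫ x, ψs x * H x ∂(mN l)) U (𝓝 (∫ x, ψs x * H x ∂m)) := hm (ψs * H)
  have t3 := hb h
  have t4 := hb H
  have t5 := ((t2.mul t3).sub (t4.mul t1)).abs
  have t6 := (t1.mul t3).const_mul (3 * ε)
  filter_upwards [t1.eventually (lt_mem_nhds c2), t3.eventually (lt_mem_nhds c1), t5.eventually_lt t6 c3] with l d1 d2 d3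
  exact ⟨d1, d2, d3.le⟩

/-- **from the product form of the limit to the numbers of the two lattices**, a sequence of approximations -/
theorem mid_of {U : Filter ι} {mN bN : ι → Measure X} {m b : Measure X} [IsFiniteMeasure m] [IsFiniteMeasure b]
    (hm : ∀ f : X →ᵇ ℝ, Tendsto (fun l => ∫ x, f x ∂(mN l)) U (𝓝 (∫ x, f x ∂m)))
    (hb : ∀ f : X →ᵇ ℝ, Tendsto (fun l => ∫ x, f x ∂(bN l)) U (𝓝 (∫ x, f x ∂b)))
    {ν : Measure K} [IsFiniteMeasure ν] {β1 : Measure (K × X)} [IsFiniteMeasure β1] (hβ : β1 = ν.prod b)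
    {rd : K × X → X} (hrd : Measurable rd) {ψ : X → ℝ} (iψ : Integrable ψ m)
    (hψ : ∀ f : X →ᵇ ℝ, ∫ x, ψ x * f x ∂m = ∫ p, f (rd p) ∂β1)
    {ψs : ℕ → X →ᵇ ℝ} (hs : Tendsto (fun j => ∫ x, |ψs j x - ψ x| ∂m) atTop (𝓝 0))
    {H h : X →ᵇ ℝ} (hH : ∀ x, |H x| ≤ h x) (h1 : ∀ x, h x ≤ 1) {ε : ℝ} (hε : 0 < ε) (hε1 : ε ≤ 1 / 2)
    (cH : ∫ p, |H (rd p) - H p.2| ∂β1 ≤ ε * ∫ p, h (rd p) ∂β1)
    (ch : ∫ p, |h (rd p) - h p.2| ∂β1 ≤ ε * ∫ p, h (rd p) ∂β1)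
    (pos : 0 < ∫ p, h (rd p) ∂β1) :
    ∃ j0 : ℕ, ∀ j, j0 ≤ j → ∀ᶠ l in U, 0 < ∫ x, ψs j x * h x ∂(mN l) ∧ 0 < ∫ x, h x ∂(bN l) ∧
      |(∫ x, ψs j x * H x ∂(mN l)) * (∫ x, h x ∂(bN l)) - (∫ x, H x ∂(bN l)) * ∫ x, ψs j x * h x ∂(mN l)| ≤
        3 * ε * ((∫ x, ψs j x * h x ∂(mN l)) * ∫ x, h x ∂(bN l)) := by
  have ht0 : 0 < ε * (∫ p, h (rd p) ∂β1) / 8 := by positivity
  obtain ⟨j0, hj0⟩ := eventually_atTop.1 ((hs.eventually (gt_mem_nhds ht0)))
  exact ⟨j0, fun j hj => mid_one hm hb hβ hrd iψ hψ hH h1 hε hε1 cH ch pos (hj0 j hj).le⟩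

/-- the closeness of the rest and the arc from a modulus `ω` of the rest -/
theorem cl_of {m : Measure X} {β1 : Measure (K × X)} [IsFiniteMeasure β1] {rd : K × X → X} (hrd : Measurable rd) {ψ : X → ℝ}
    (hψ : ∀ f : X →ᵇ ℝ, ∫ x, ψ x * f x ∂m = ∫ p, f (rd p) ∂β1) {H h ω : X →ᵇ ℝ} {ε : ℝ}
    (hω : ∀ᵐ p ∂β1, |H (rd p) - H p.2| ≤ ω (rd p)) (h2 : ∫ x, ψ x * ω x ∂m ≤ ε * ∫ x, ψ x * h x ∂m) :
    ∫ p, |H (rd p) - H p.2| ∂β1 ≤ ε * ∫ p, h (rd p) ∂β1 := by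
  have ir : ∀ f : X →ᵇ ℝ, Integrable (fun p => f (rd p)) β1 := fun f =>
    Integrable.of_bound (f.continuous.measurable.comp hrd).aestronglyMeasurable ‖f‖
      (Eventually.of_forall fun p => f.norm_coe_le_norm _)
  have i2 : Integrable (fun p : K × X => H p.2) β1 :=
    Integrable.of_bound (H.continuous.measurable.comp measurable_snd).aestronglyMeasurable ‖H‖
      (Eventually.of_forall fun p => H.norm_coe_le_norm _)
  rw [← hψ h]
  refine le_trans ?_ h2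
  rw [hψ ω]
  exact integral_mono_ae ((ir H).sub i2).norm (ir ω) hω

/-- the mass of the modulus in the limit, from the masses at finite `N` -/
theorem cl_lim {U : Filter ι} [U.NeBot] {mN : ι → Measure X} {m : Measure X} [IsFiniteMeasure m]
    (hm : ∀ f : X →ᵇ ℝ, Tendsto (fun l => ∫ x, f x ∂(mN l)) U (𝓝 (∫ x, f x ∂m))) {ψ : X → ℝ} (iψ : Integrable ψ m)
    {ψs : ℕ → X →ᵇ ℝ} (hs : Tendsto (fun j => ∫ x, |ψs j x - ψ x| ∂m) atTop (𝓝 0)) {ω h : X →ᵇ ℝ} {ε : ℝ}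
    (hN : ∀ᶠ j in atTop, ∃ᶠ l in U, ∫ x, ψs j x * ω x ∂(mN l) ≤ ε * ∫ x, ψs j x * h x ∂(mN l)) :
    ∫ x, ψ x * ω x ∂m ≤ ε * ∫ x, ψ x * h x ∂m := by
  have t0 : ∀ f : X →ᵇ ℝ, Tendsto (fun j => ∫ x, ψs j x * f x ∂m) atTop (𝓝 (∫ x, ψ x * f x ∂m)) := by
    intro f
    rw [tendsto_iff_dist_tendsto_zero]
    have hf0 := norm_nonneg f
    have hup : Tendsto (fun j => ‖f‖ * ∫ x, |ψs j x - ψ x| ∂m) atTop (𝓝 0) := by
      have := hs.const_mul ‖f‖
      rwa [mul_zero] at this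
    refine squeeze_zero (fun j => dist_nonneg) (fun j => ?_) hup
    have i3 : Integrable (fun x => ψs j x * f x) m := ((ψs j) * f).integrable m
    have i4 : Integrable (fun x => ψ x * f x) m :=
      iψ.mul_bdd (c := ‖f‖) f.continuous.measurable.aestronglyMeasurable (Eventually.of_forall fun x => f.norm_coe_le_norm _)
    rw [dist_eq_norm, ← integral_sub i3 i4, ← integral_const_mul]
    refine (norm_integral_le_integral_norm _).trans ?_
    refine integral_mono (i3.sub i4).norm ((((ψs j).integrable m).sub iψ).norm.const_mul _) fun x => ?_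
    show ‖ψs j x * f x - ψ x * f x‖ ≤ ‖f‖ * |ψs j x - ψ x|
    rw [← sub_mul, norm_mul, Real.norm_eq_abs, mul_comm]
    exact mul_le_mul_of_nonneg_right (f.norm_coe_le_norm _) (abs_nonneg _)
  refine le_of_tendsto_of_tendsto (t0 ω) ((t0 h).const_mul ε) ?_
  filter_upwards [hN] with j hj
  have t1 : Tendsto (fun l => ∫ x, ψs j x * h x ∂(mN l)) U (𝓝 (∫ x, ψs j x * h x ∂m)) := hm ((ψs j) * h)
  have t2 : Tendsto (fun l => ∫ x, ψs j x * ω x ∂(mN l)) U (𝓝 (∫ x, ψs j x * ω x ∂m)) := hm ((ψs j) * ω)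
  by_contra hc
  have hc' := not_le.1 hc
  exact (hj.and_eventually (((t1.const_mul ε).eventually_lt t2 hc'))).exists.elim fun l hl => absurd hl.1 (not_le.2 hl.2)

end lim

end Pool.Agent.ROT.F3
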