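import Pool.Agent.ROT.F3Tip12
import Pool.Agent.ROT.F3ExP
import Pool.Agent.ROT.F3MidU

/-!
# ROT / F3MidW (helper43): row R3, the words: the gated sums of F3Tip12 are products

Class of one lattice at one scale: tip pieces `T`, `T'` with the weights `f`, `f'`, rests `Rs` with the weight `w`.

* `WCl` : the hypotheses of the exact identity for the walks; `gG` : the gates as a function of the word and two indices;
* `SG_prod`, **`SS_prod`** : `SS (gG ..) N th F = α (∫ Ψ F ct) α'`;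
* `rm` : the law of (curve, duration) of the rests as a measure; `rm_int`;
* **`SS_rm`** : `SS` in terms of `rm`, all bounded `F`;
* `WCls` : a class with its weights; `WCls.G` : its gates; `WCls.rm` : its rests;
* **`mid_words`** : the hypothesis `Mid` of `end_pt` from `mid_one`.
-/

set_option autoImplicit false

open MeasureTheory Filter Topology Finset
open scoped ENNReal NNReal Classical BoundedContinuousFunction

namespace Pool.Agent.ROT.F3

open Pool.Agent.NTS.Res (step pos saw fug size)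
open Pool.Agent.ROT.F3E (SG SS ct)

/-- the space of the curves -/
abbrev CI3 := C(unitInterval, ℂ)

/-- the hypotheses of the exact identity for the walks -/
structure WCl (T Rs T' : Set W3) : Prop where
  hT : ∀ a ∈ T, Even a.length ∧ SW a
  hR : ∀ R ∈ Rs, Even R.length ∧ SW R
  hT' : ∀ b ∈ T', Even b.length ∧ SW b
  d1 : ∀ a ∈ T, ∀ R ∈ Rs, ∀ j k : ℕ, j < a.length → k ≤ R.length → ps a j ≠ en a + ps R k
  d2 : ∀ b ∈ T', ∀ R ∈ Rs, ∀ j k : ℕ, j < b.length → k ≤ R.length → ps b j ≠ en b + ps R.reverse k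
  d3 : ∀ a ∈ T, ∀ R ∈ Rs, ∀ b ∈ T', ∀ j k : ℕ, j < a.length → k < b.length → ps a j ≠ en a + en R + (ps b k - en b)

/-- the gates of the class -/
noncomputable def gG (T Rs T' : Set W3) (f Ψ f' : W3 → ℝ) (w : W3) (i j : ℕ) : ℝ :=
  if (i ≤ j ∧ j ≤ w.length) ∧ w.take i ∈ T ∧ seg w i j ∈ Rs ∧ (w.drop j).reverse ∈ T' then
    f (w.take i) * (Ψ (seg w i j) * f' (w.drop j).reverse) else 0

/-- curve and duration of a rest -/
noncomputable def cr (s t : ℝ) (R : W3) : CI3 × ℝ := (crv R R.length s, (R.length : ℝ) / t)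

lemma crv_tk (w : W3) {m : ℕ} (hm : m ≤ w.length) (d : ℝ) : crv (w.take m) m d = crv w m d := by
  unfold crv
  ext u
  show ps (w.take m) 0 / d + ∑ i ∈ range m, ((max 0 (min 1 ((u : ℝ) * m - i)) : ℝ) : ℂ) *
      (ps (w.take m) (i + 1) / d - ps (w.take m) i / d) =
    ps w 0 / d + ∑ i ∈ range m, ((max 0 (min 1 ((u : ℝ) * m - i)) : ℝ) : ℂ) * (ps w (i + 1) / d - ps w i / d)
  rw [ps_zero, ps_zero]
  congr 1
  refine sum_congr rfl fun i hi => ?_
  have := mem_range.1 hi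
  rw [ps_take w (show i + 1 ≤ m by omega) hm, ps_take w (show i ≤ m by omega) hm]

lemma crv_segW (w : W3) {i j : ℕ} (hj : j ≤ w.length) (d : ℝ) : crv (w.drop i) (j - i) d = crv (seg w i j) (j - i) d := by
  unfold seg
  rw [crv_tk]
  rw [List.length_drop]
  omega

lemma seg_lenW (w : W3) {i j : ℕ} (hj : j ≤ w.length) : (seg w i j).length = j - i := by
  unfold seg
  rw [List.length_take, List.length_drop]
  omega

/-- the sum over the two indices -/
lemma sum_gG {T Rs T' : Set W3} {f Ψ f' : W3 → ℝ} (w : W3) (s t : ℝ) (H : CI3 → ℝ → ℝ) :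
    ∑ i ∈ range (w.length + 1), ∑ j ∈ range (w.length + 1),
      gG T Rs T' f Ψ f' w i j * H (crv (w.drop i) (j - i) s) (((j - i : ℕ) : ℝ) / t) =
    PhiW T Rs T' f (fun R => Ψ R * H (cr s t R).1 (cr s t R).2) f' w := by
  unfold PhiW
  refine sum_congr rfl fun i hi => ?_
  have hi' : i ≤ w.length := by
    have := mem_range.1 hi
    omega
  have h1 : ∑ j ∈ range (w.length + 1), gG T Rs T' f Ψ f' w i j * H (crv (w.drop i) (j - i) s) (((j - i : ℕ) : ℝ) / t) =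
      ∑ j ∈ (range (w.length + 1)).filter (fun j => i ≤ j),
        gG T Rs T' f Ψ f' w i j * H (crv (w.drop i) (j - i) s) (((j - i : ℕ) : ℝ) / t) := by
    rw [sum_filter]
    refine sum_congr rfl fun j _ => ?_
    by_cases hj : i ≤ j
    · rw [if_pos hj]
    · rw [if_neg hj]
      unfold gG
      rw [if_neg fun h => hj h.1.1, zero_mul]
  rw [h1]
  symm
  refine sum_bij (fun l _ => i + l) (fun l hl => ?_) (fun l _ l' _ h => by omega) (fun j hj => ?_) (fun l hl => ?_)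
  · rw [mem_filter, mem_range]
    have := mem_range.1 hl
    omega
  · rw [mem_filter, mem_range] at hj
    exact ⟨j - i, by rw [mem_range]; omega, by omega⟩
  · have hl' := mem_range.1 hl
    have hj : i + l ≤ w.length := by omega
    have e1 : (w.drop i).take l = seg w i (i + l) := by
      unfold seg
      rw [Nat.add_sub_cancel_left]
    have e2 : crv (w.drop i) (i + l - i) s = (cr s t (seg w i (i + l))).1 := by
      unfold cr
      rw [seg_lenW w hj, crv_segW w hj]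
    have e3 : ((i + l - i : ℕ) : ℝ) / t = (cr s t (seg w i (i + l))).2 := by
      unfold cr
      rw [seg_lenW w hj]
    rw [e1, e2, e3]
    unfold gG
    by_cases hc : w.take i ∈ T ∧ seg w i (i + l) ∈ Rs ∧ (w.drop (i + l)).reverse ∈ T'
    · rw [if_pos hc, if_pos ⟨⟨Nat.le_add_right _ _, hj⟩, hc⟩]
      ring
    · rw [if_neg hc, if_neg fun h => hc h.2, zero_mul]

/-- the gated sum with `n` letters -/
lemma SG_eq {T Rs T' : Set W3} {f Ψ f' : W3 → ℝ} (N n : ℕ) (H : CI3 → ℝ → ℝ) :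
    SG (gG T Rs T' f Ψ f') N H n = fug ^ n * ∑ s ∈ saw n, PhiW T Rs T' f
      (fun R => Ψ R * H (cr (size N) N R).1 (cr (size N) N R).2) f' (List.ofFn s) := by
  unfold SG
  congr 1
  refine sum_congr rfl fun s _ => ?_
  rw [← sum_gG]
  rw [List.length_ofFn]

section one

variable {T Rs T' : Set W3} (hW : WCl T Rs T') {f w f' : W3 → ℝ} (hf : ∀ a, 0 ≤ f a) (hw : ∀ a, 0 ≤ w a)
  (hf' : ∀ a, 0 ≤ f' a) {ψ : CI3 × ℝ → ℝ} (hψ : ∀ x, 0 ≤ ψ x)

include hW hf hw hf' hψ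

/-- **the gated sum is a product**, all lengths, `H ≥ 0` -/
theorem SG_prod (N : ℕ) {H : CI3 → ℝ → ℝ} (hH : ∀ γ t, 0 ≤ H γ t) :
    ∑' n, ENNReal.ofReal (SG (gG T Rs T' f (fun R => w R * ψ (cr (size N) N R)) f') N H n) =
      ms T (fun a => ENNReal.ofReal (f a)) * (ms Rs (fun R => ENNReal.ofReal (w R * ψ (cr (size N) N R) *
        H (cr (size N) N R).1 (cr (size N) N R).2)) * ms T' fun a => ENNReal.ofReal (f' a)) := by
  simp_rw [SG_eq]
  exact exW_ofReal hW.hT hW.hR hW.hT' hW.d1 hW.d2 hW.d3 hf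
    (fun R => mul_nonneg (mul_nonneg (hw R) (hψ _)) (hH _ _)) hf'

omit hW in
lemma SG_nonneg (N : ℕ) {H : CI3 → ℝ → ℝ} (hH : ∀ γ t, 0 ≤ H γ t) (n : ℕ) :
    0 ≤ SG (gG T Rs T' f (fun R => w R * ψ (cr (size N) N R)) f') N H n := by
  unfold SG
  refine mul_nonneg (pow_nonneg fug_nn _) (sum_nonneg fun s _ => sum_nonneg fun i _ => sum_nonneg fun j _ => ?_)
  refine mul_nonneg ?_ (hH _ _)
  unfold gG
  split_ifs
  · exact mul_nonneg (hf _) (mul_nonneg (mul_nonneg (hw _) (hψ _)) (hf' _))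
  · exact le_rfl

end one

/-! ### the measure of the rests -/

/-- the law of (curve, duration) of the rests `Rs` with the weights `w`, normalised by `c` -/
noncomputable def rm (c : ℝ≥0∞) (s t : ℝ) (Rs : Set W3) (w : W3 → ℝ) : Measure (CI3 × ℝ) :=
  Measure.sum fun R : W3 => (c * if R ∈ Rs then wx R * ENNReal.ofReal (w R) else 0) • Measure.dirac (cr s t R)

lemma rm_lint (c : ℝ≥0∞) (s t : ℝ) (Rs : Set W3) {w : W3 → ℝ} {g : CI3 × ℝ → ℝ≥0∞} (hg : Measurable g) :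
    ∫⁻ x, g x ∂(rm c s t Rs w) = c * ms Rs fun R => ENNReal.ofReal (w R) * g (cr s t R) := by
  unfold rm ms
  rw [lintegral_sum_measure, ← ENNReal.tsum_mul_left]
  refine tsum_congr fun R => ?_
  rw [lintegral_smul_measure, lintegral_dirac' _ hg, smul_eq_mul]
  split_ifs
  · ring
  · ring

lemma rm_univ (c : ℝ≥0∞) (s t : ℝ) (Rs : Set W3) {w : W3 → ℝ} :
    rm c s t Rs w Set.univ = c * ms Rs fun R => ENNReal.ofReal (w R) := by
  have h := rm_lint c s t Rs (w := w) (g := fun _ => 1) measurable_const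
  rw [lintegral_const, one_mul] at h
  rw [h]
  simp only [mul_one]

lemma rm_fin {c : ℝ≥0∞} (hc : c ≠ ∞) (s t : ℝ) {Rs : Set W3} {w : W3 → ℝ} (h : ms Rs (fun R => ENNReal.ofReal (w R)) ≠ ∞) :
    IsFiniteMeasure (rm c s t Rs w) := by
  constructor
  rw [rm_univ]
  exact ENNReal.mul_lt_top hc.lt_top h.lt_top

/-- the integral of a function `g ≥ 0` -/
lemma rm_int {c : ℝ≥0∞} (s t : ℝ) {Rs : Set W3} {w : W3 → ℝ} (hw : ∀ R, 0 ≤ w R) {g : CI3 × ℝ → ℝ} (hg : Measurable g)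
    (hg0 : ∀ x, 0 ≤ g x) :
    ∫ x, g x ∂(rm c s t Rs w) = c.toReal * (ms Rs fun R => ENNReal.ofReal (w R * g (cr s t R))).toReal := by
  rw [integral_eq_lintegral_of_nonneg_ae (Eventually.of_forall hg0) hg.aestronglyMeasurable,
    rm_lint c s t Rs hg.ennreal_ofReal, ENNReal.toReal_mul]
  congr 2
  unfold ms
  refine tsum_congr fun R => ?_
  simp only [ENNReal.ofReal_mul (hw R)]

lemma ms_bd {Rs : Set W3} {w g : W3 → ℝ} (hw : ∀ R, 0 ≤ w R) {C : ℝ} (hg : ∀ R, g R ≤ C)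
    (h : ms Rs (fun R => ENNReal.ofReal (w R)) ≠ ∞) : ms Rs (fun R => ENNReal.ofReal (w R * g R)) ≠ ∞ := by
  refine ne_top_of_le_ne_top (ENNReal.mul_ne_top h (ENNReal.ofReal_ne_top (r := C))) ?_
  unfold ms
  rw [← ENNReal.tsum_mul_right]
  refine ENNReal.tsum_le_tsum fun R => ?_
  split_ifs
  · simp only [ENNReal.ofReal_mul (hw R), mul_assoc]
    exact mul_le_mul_right (mul_le_mul_right (ENNReal.ofReal_le_ofReal (hg R)) _) _
  · simp

lemma ct_cont (th : ℝ) : Continuous (ct th) := by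
  unfold ct
  fun_prop

/-- the test function `F ct` -/
noncomputable def Hb (F : CI3 → ℝ) (hF : Continuous F) (hF1 : ∀ γ, |F γ| ≤ 1) (th : ℝ) : (CI3 × ℝ) →ᵇ ℝ :=
  BoundedContinuousFunction.ofNormedAddCommGroup (fun x : CI3 × ℝ => F x.1 * ct th x.2)
    ((hF.comp continuous_fst).mul ((ct_cont th).comp continuous_snd)) 1 fun x => by
      rw [Real.norm_eq_abs, abs_mul, abs_of_nonneg (F3E.ct_nonneg _ _)]
      calc |F x.1| * ct th x.2 ≤ 1 * 1 := mul_le_mul (hF1 _) (F3E.ct_le_one _ _) (F3E.ct_nonneg _ _) zero_le_one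
        _ = 1 := one_mul 1

@[simp] lemma Hb_apply (F : CI3 → ℝ) (hF : Continuous F) (hF1 : ∀ γ, |F γ| ≤ 1) (th : ℝ) (x : CI3 × ℝ) :
    Hb F hF hF1 th x = F x.1 * ct th x.2 := rfl

/-- the test function `ct` -/
noncomputable def hct (th : ℝ) : (CI3 × ℝ) →ᵇ ℝ := Hb (fun _ => 1) continuous_const (fun _ => by rw [abs_one]) th

@[simp] lemma hct_apply (th : ℝ) (x : CI3 × ℝ) : hct th x = ct th x.2 := by
  unfold hct
  rw [Hb_apply, one_mul]

section two

variable {T Rs T' : Set W3} (hW : WCl T Rs T') {f w f' : W3 → ℝ} (hf : ∀ a, 0 ≤ f a) (hw : ∀ a, 0 ≤ w a)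
  (hf' : ∀ a, 0 ≤ f' a) {ψ : CI3 × ℝ → ℝ} (hψ : ∀ x, 0 ≤ ψ x)

include hW hf hw hf' hψ

/-- the gated sum as an integral, `H ≥ 0` -/
lemma tsum_SG {C : ℝ} (mψ : Measurable ψ) (bψ : ∀ x, ψ x ≤ C) (fT : ms T (fun a => ENNReal.ofReal (f a)) ≠ ∞)
    (fR : ms Rs (fun R => ENNReal.ofReal (w R)) ≠ ∞) (fT' : ms T' (fun a => ENNReal.ofReal (f' a)) ≠ ∞) (N : ℕ)
    {c : ℝ≥0∞} (c0 : c ≠ 0) (c1 : c ≠ ∞) {H : CI3 → ℝ → ℝ} (hH : ∀ γ t, 0 ≤ H γ t) (hH2 : ∀ γ t, H γ t ≤ 2)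
    (mH : Measurable fun x : CI3 × ℝ => H x.1 x.2) :
    Summable (SG (gG T Rs T' f (fun R => w R * ψ (cr (size N) N R)) f') N H) ∧
    ∑' n, SG (gG T Rs T' f (fun R => w R * ψ (cr (size N) N R)) f') N H n =
      (ms T fun a => ENNReal.ofReal (f a)).toReal * (ms T' fun a => ENNReal.ofReal (f' a)).toReal / c.toReal *
        ∫ x, ψ x * H x.1 x.2 ∂(rm c (size N) N Rs w) := by
  have hC : 0 ≤ C := (hψ (0, 0)).trans (bψ _)
  have h1 := SG_prod hW hf hw hf' hψ N hH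
  have hn := SG_nonneg (T := T) (Rs := Rs) (T' := T') hf hw hf' hψ N hH
  have h2 : ms Rs (fun R => ENNReal.ofReal (w R * ψ (cr (size N) N R) * H (cr (size N) N R).1 (cr (size N) N R).2)) ≠ ∞ := by
    have := ms_bd (g := fun R => ψ (cr (size N) N R) * H (cr (size N) N R).1 (cr (size N) N R).2) (C := C * 2) hw
      (fun R => mul_le_mul (bψ _) (hH2 _ _) (hH _ _) hC) fR
    simpa only [mul_assoc] using this
  have h3 : ∑' n, ENNReal.ofReal (SG (gG T Rs T' f (fun R => w R * ψ (cr (size N) N R)) f') N H n) ≠ ∞ := by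
    rw [h1]
    exact ENNReal.mul_ne_top fT (ENNReal.mul_ne_top h2 fT')
  have h4 : Summable (SG (gG T Rs T' f (fun R => w R * ψ (cr (size N) N R)) f') N H) := by
    have h5 := ENNReal.summable_toReal h3
    refine h5.congr fun n => ?_
    rw [ENNReal.toReal_ofReal (hn n)]
  refine ⟨h4, ?_⟩
  have h6 : ∑' n, SG (gG T Rs T' f (fun R => w R * ψ (cr (size N) N R)) f') N H n =
      (∑' n, ENNReal.ofReal (SG (gG T Rs T' f (fun R => w R * ψ (cr (size N) N R)) f') N H n)).toReal := by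
    rw [ENNReal.tsum_toReal_eq fun n => ENNReal.ofReal_ne_top]
    exact tsum_congr fun n => (ENNReal.toReal_ofReal (hn n)).symm
  rw [h6, h1, ENNReal.toReal_mul, ENNReal.toReal_mul, rm_int (c := c) (Rs := Rs) (g := fun x => ψ x * H x.1 x.2)
    (size N) N hw (mψ.mul mH) fun x => mul_nonneg (hψ x) (hH _ _)]
  have h7 : c.toReal ≠ 0 := (ENNReal.toReal_pos c0 c1).ne'
  simp only [mul_assoc]
  field_simp

/-- **the gated sum as an integral** -/
theorem SS_rm {C : ℝ} (mψ : Measurable ψ) (bψ : ∀ x, ψ x ≤ C) (fT : ms T (fun a => ENNReal.ofReal (f a)) ≠ ∞)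
    (fR : ms Rs (fun R => ENNReal.ofReal (w R)) ≠ ∞) (fT' : ms T' (fun a => ENNReal.ofReal (f' a)) ≠ ∞) (N : ℕ)
    {c : ℝ≥0∞} (c0 : c ≠ 0) (c1 : c ≠ ∞) (th : ℝ) {F : CI3 → ℝ} (hF : Continuous F) (hF1 : ∀ γ, |F γ| ≤ 1) :
    SS (gG T Rs T' f (fun R => w R * ψ (cr (size N) N R)) f') N th F =
      (ms T fun a => ENNReal.ofReal (f a)).toReal * (ms T' fun a => ENNReal.ofReal (f' a)).toReal / c.toReal *
        ∫ x, ψ x * Hb F hF hF1 th x ∂(rm c (size N) N Rs w) := by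
  have := rm_fin c1 (size N) N fR
  have mF : Measurable fun x : CI3 × ℝ => F x.1 := hF.measurable.comp measurable_fst
  have mc : Measurable fun x : CI3 × ℝ => ct th x.2 := (ct_cont th).measurable.comp measurable_snd
  obtain ⟨s1, e1⟩ := tsum_SG hW hf hw hf' hψ mψ bψ fT fR fT' N c0 c1 (H := fun γ t => (F γ + 1) * ct th t)
    (fun γ t => mul_nonneg (by have := (abs_le.1 (hF1 γ)).1; linarith) (F3E.ct_nonneg _ _))
    (fun γ t => by
      have h1 := (abs_le.1 (hF1 γ)).2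
      have h2 := F3E.ct_nonneg th t
      have h3 := F3E.ct_le_one th t
      nlinarith) ((mF.add_const 1).mul mc)
  obtain ⟨s2, e2⟩ := tsum_SG hW hf hw hf' hψ mψ bψ fT fR fT' N c0 c1 (H := fun _ t => ct th t)
    (fun γ t => F3E.ct_nonneg _ _) (fun γ t => (F3E.ct_le_one th t).trans one_le_two) mc
  have h1 : ∀ n, SG (gG T Rs T' f (fun R => w R * ψ (cr (size N) N R)) f') N (fun γ t => F γ * ct th t) n =
      SG (gG T Rs T' f (fun R => w R * ψ (cr (size N) N R)) f') N (fun γ t => (F γ + 1) * ct th t) n -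
      SG (gG T Rs T' f (fun R => w R * ψ (cr (size N) N R)) f') N (fun _ t => ct th t) n := by
    intro n
    unfold SG
    rw [← mul_sub, ← sum_sub_distrib]
    congr 1
    refine sum_congr rfl fun s _ => ?_
    rw [← sum_sub_distrib]
    refine sum_congr rfl fun i _ => ?_
    rw [← sum_sub_distrib]
    refine sum_congr rfl fun j _ => ?_
    ring
  unfold SS
  rw [tsum_congr h1, s1.tsum_sub s2, e1, e2, ← mul_sub]
  congr 1
  have hC : 0 ≤ C := (hψ (0, 0)).trans (bψ _)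
  have i0 : ∀ g : CI3 × ℝ → ℝ, Measurable g → (∀ x, |g x| ≤ 2) → Integrable (fun x => ψ x * g x) (rm c (size N) N Rs w) := by
    intro g hg hg2
    refine Integrable.of_bound (mψ.mul hg).aestronglyMeasurable (C * 2) (Eventually.of_forall fun x => ?_)
    rw [Real.norm_eq_abs, abs_mul, abs_of_nonneg (hψ x)]
    exact mul_le_mul (bψ x) (hg2 x) (abs_nonneg _) hC
  have i1 := i0 (fun x => (F x.1 + 1) * ct th x.2) ((mF.add_const 1).mul mc) fun x => by
    rw [abs_mul, abs_of_nonneg (F3E.ct_nonneg _ _)]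
    have h1 := abs_le.1 (hF1 x.1)
    have h2 := F3E.ct_nonneg th x.2
    have h3 := F3E.ct_le_one th x.2
    have h4 : |F x.1 + 1| ≤ 2 := abs_le.2 ⟨by linarith [h1.1], by linarith [h1.2]⟩
    calc |F x.1 + 1| * ct th x.2 ≤ 2 * 1 := mul_le_mul h4 h3 h2 (by norm_num)
      _ = 2 := by norm_num
  have i2 := i0 (fun x => ct th x.2) mc fun x => by
    rw [abs_of_nonneg (F3E.ct_nonneg _ _)]
    exact (F3E.ct_le_one th x.2).trans one_le_two
  rw [← integral_sub i1 i2]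
  refine integral_congr_ae (Eventually.of_forall fun x => ?_)
  simp only [Hb_apply]
  ring

end two

/-! ### the two lattices -/

/-- a class of words of one lattice at one scale with its weights (tips `T`, `T'`, rests `Rs`) -/
structure WCls where
  T : Set W3
  Rs : Set W3
  T' : Set W3
  f : W3 → ℝ
  w : W3 → ℝ
  f' : W3 → ℝ
  cl : WCl T Rs T'
  nf : ∀ a, 0 ≤ f a
  nw : ∀ a, 0 ≤ w a
  nf' : ∀ a, 0 ≤ f' a
  fT : ms T (fun a => ENNReal.ofReal (f a)) ≠ ∞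
  fR : ms Rs (fun a => ENNReal.ofReal (w a)) ≠ ∞
  fT' : ms T' (fun a => ENNReal.ofReal (f' a)) ≠ ∞

/-- the gates of the class with the functional `ψ` of (curve, duration) of the rest -/
noncomputable def WCls.G (C : WCls) (N : ℕ) (ψ : CI3 × ℝ → ℝ) : W3 → ℕ → ℕ → ℝ :=
  gG C.T C.Rs C.T' C.f (fun R => C.w R * ψ (cr (size N) N R)) C.f'

/-- the law of (curve, duration) of the rests of the class, normalised by `c` -/
noncomputable def WCls.rm (C : WCls) (N : ℕ) (c : ℝ≥0∞) : Measure (CI3 × ℝ) := F3.rm c (size N) N C.Rs C.w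

lemma WCls.fin (C : WCls) (N : ℕ) {c : ℝ≥0∞} (hc : c ≠ ∞) : IsFiniteMeasure (C.rm N c) := rm_fin hc _ _ C.fR

/-- **the gated sum as an integral over the rests** -/
theorem WCls.SS_eq (C : WCls) (N : ℕ) {c : ℝ≥0∞} (c0 : c ≠ 0) (c1 : c ≠ ∞) : ∃ A : ℝ, 0 ≤ A ∧
    ∀ (ψ : (CI3 × ℝ) →ᵇ ℝ), (∀ x, 0 ≤ ψ x) → ∀ (th : ℝ) (F : CI3 → ℝ) (hF : Continuous F) (hF1 : ∀ γ, |F γ| ≤ 1),
      SS (C.G N ψ) N th F = A * ∫ x, ψ x * Hb F hF hF1 th x ∂(C.rm N c) := by
  refine ⟨(ms C.T fun a => ENNReal.ofReal (C.f a)).toReal * (ms C.T' fun a => ENNReal.ofReal (C.f' a)).toReal / c.toReal,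
    div_nonneg (mul_nonneg ENNReal.toReal_nonneg ENNReal.toReal_nonneg) ENNReal.toReal_nonneg,
    fun ψ hψ th F hF hF1 => ?_⟩
  exact SS_rm C.cl C.nf C.nw C.nf' hψ (C := ‖ψ‖) ψ.continuous.measurable
    (fun x => (le_abs_self _).trans (ψ.norm_coe_le_norm x)) C.fT C.fR C.fT' N c0 c1 th hF hF1

lemma mid_mul {x y x1 y1 ε A B : ℝ} (hA : 0 ≤ A) (hB : 0 ≤ B) (h : |x * y1 - y * x1| ≤ ε * (x1 * y1)) :
    |A * x * (B * y1) - B * y * (A * x1)| ≤ ε * (A * x1 * (B * y1)) := by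
  have e1 : A * x * (B * y1) - B * y * (A * x1) = A * B * (x * y1 - y * x1) := by ring
  have e2 : ε * (A * x1 * (B * y1)) = A * B * (ε * (x1 * y1)) := by ring
  rw [e1, e2, abs_mul, abs_of_nonneg (mul_nonneg hA hB)]
  exact mul_le_mul_of_nonneg_left h (mul_nonneg hA hB)

/-- **the hypothesis `Mid` of `end_pt`**: `C l` = class of lattice 0, `C2 l` = class of the rotated lattice, read in its own frame -/
theorem mid_words {ι K : Type*} [MeasurableSpace K] {U : Filter ι} {N : ι → ℕ} {C C2 : ι → WCls} {c c2 : ι → ℝ≥0∞}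
    (c0 : ∀ l, c l ≠ 0) (c1 : ∀ l, c l ≠ ∞) (c20 : ∀ l, c2 l ≠ 0) (c21 : ∀ l, c2 l ≠ ∞) {z : ℂ}
    {m b : Measure (CI3 × ℝ)} [IsFiniteMeasure m] [IsFiniteMeasure b]
    (hm : ∀ g : (CI3 × ℝ) →ᵇ ℝ, Tendsto (fun l => ∫ x, g x ∂((C l).rm (N l) (c l))) U (𝓝 (∫ x, g x ∂m)))
    (hb : ∀ g : (CI3 × ℝ) →ᵇ ℝ, Tendsto (fun l => ∫ x, g (z • x.1, x.2) ∂((C2 l).rm (N l) (c2 l))) U (𝓝 (∫ x, g x ∂b)))
    {ν : Measure K} [IsFiniteMeasure ν] {β1 : Measure (K × (CI3 × ℝ))} [IsFiniteMeasure β1] (hβ : β1 = ν.prod b)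
    {rd : K × (CI3 × ℝ) → CI3 × ℝ} (hrd : Measurable rd) {ψ : CI3 × ℝ → ℝ} (iψ : Integrable ψ m)
    (hψ : ∀ g : (CI3 × ℝ) →ᵇ ℝ, ∫ x, ψ x * g x ∂m = ∫ p, g (rd p) ∂β1)
    {F : CI3 → ℝ} (hF : Continuous F) (hF1 : ∀ γ, |F γ| ≤ 1) {th ε : ℝ} (hε : 0 < ε) (hε1 : ε ≤ 1 / 2)
    (cH : ∫ p, |Hb F hF hF1 th (rd p) - Hb F hF hF1 th p.2| ∂β1 ≤ ε * ∫ p, hct th (rd p) ∂β1)
    (ch : ∫ p, |hct th (rd p) - hct th p.2| ∂β1 ≤ ε * ∫ p, hct th (rd p) ∂β1)
    (pos : 0 < ∫ p, hct th (rd p) ∂β1) {ψs : (CI3 × ℝ) →ᵇ ℝ} (ψ0 : ∀ x, 0 ≤ ψs x)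
    (hs : ∫ x, |ψs x - ψ x| ∂m ≤ ε * (∫ p, hct th (rd p) ∂β1) / 8) :
    ∀ᶠ l in U, |SS ((C l).G (N l) ψs) (N l) th F * SS ((C2 l).G (N l) fun _ => 1) (N l) th (fun _ => 1) -
        SS ((C2 l).G (N l) fun _ => 1) (N l) th (fun γ => F (z • γ)) * SS ((C l).G (N l) ψs) (N l) th (fun _ => 1)| ≤
      3 * ε * (SS ((C l).G (N l) ψs) (N l) th (fun _ => 1) * SS ((C2 l).G (N l) fun _ => 1) (N l) th (fun _ => 1)) := by
  have mz : Measurable fun x : CI3 × ℝ => (z • x.1, x.2) := by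
    refine Continuous.measurable ?_
    fun_prop
  have hmap : ∀ (l : ι) (g : (CI3 × ℝ) →ᵇ ℝ), ∫ x, g x ∂(((C2 l).rm (N l) (c2 l)).map fun x => (z • x.1, x.2)) =
      ∫ x, g (z • x.1, x.2) ∂((C2 l).rm (N l) (c2 l)) := fun l g =>
    integral_map mz.aemeasurable g.continuous.measurable.aestronglyMeasurable
  have key := mid_one (U := U) (mN := fun l => (C l).rm (N l) (c l))
    (bN := fun l => ((C2 l).rm (N l) (c2 l)).map fun x => (z • x.1, x.2)) hm (fun g => by simpa only [hmap] using hb g)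
    hβ hrd iψ hψ (H := Hb F hF hF1 th) (h := hct th) (fun x => by
      rw [Hb_apply, hct_apply, abs_mul, abs_of_nonneg (F3E.ct_nonneg _ _)]
      exact mul_le_of_le_one_left (F3E.ct_nonneg _ _) (hF1 _)) (fun x => by
      rw [hct_apply]
      exact F3E.ct_le_one _ _) hε hε1 cH ch pos hs
  have cz : Continuous fun γ : CI3 => F (z • γ) := hF.comp (continuous_const_smul z)
  filter_upwards [key] with l hl
  obtain ⟨-, -, h3⟩ := hl
  obtain ⟨A, hA, eA⟩ := (C l).SS_eq (N l) (c0 l) (c1 l)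
  obtain ⟨B, hB, eB⟩ := (C2 l).SS_eq (N l) (c20 l) (c21 l)
  have one1 : ∀ γ : CI3, |(fun _ : CI3 => (1 : ℝ)) γ| ≤ 1 := fun γ => by simp
  have f1 := eA ψs ψ0 th F hF hF1
  have f2 : SS ((C l).G (N l) ψs) (N l) th (fun _ => 1) = A * ∫ x, ψs x * hct th x ∂((C l).rm (N l) (c l)) :=
    eA ψs ψ0 th (fun _ => 1) continuous_const one1
  have f3 : SS ((C2 l).G (N l) fun _ => 1) (N l) th (fun _ => 1) = B * ∫ x, hct th (z • x.1, x.2) ∂((C2 l).rm (N l) (c2 l)) := by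
    have := eB 1 (fun x => zero_le_one) th (fun _ => 1) continuous_const one1
    simp only [BoundedContinuousFunction.coe_one, Pi.one_apply, one_mul] at this
    exact this
  have f4 : SS ((C2 l).G (N l) fun _ => 1) (N l) th (fun γ => F (z • γ)) =
      B * ∫ x, Hb F hF hF1 th (z • x.1, x.2) ∂((C2 l).rm (N l) (c2 l)) := by
    have := eB 1 (fun x => zero_le_one) th (fun γ => F (z • γ)) cz (fun γ => hF1 _)
    simp only [BoundedContinuousFunction.coe_one, Pi.one_apply, one_mul] at this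
    exact this
  rw [hmap, hmap] at h3
  rw [f1, f2, f3, f4]
  exact mid_mul hA hB h3

end Pool.Agent.ROT.F3
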