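import Pool.Agent.ROT.F3Cls
import Pool.Agent.ROT.F3MidW

/-!
# ROT, F3, row R11 (helper80): the gates of both ends as a product of two local functionals (words)

* `gS T f h w` : the weight of the start gates of the word `w` (prefix in `T`, functional `h` of everything behind the mark);
* `LocW ρ M L h` : `h` sees the first `M` letters and everything up to the last visit of the ball `ρ`; `UnS` : the mark is unique;
* **`gS_loc`** : the start gates see only the first `m` letters, words which do not come back;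
* **`gam_gG`** : the gates of both ends (helper43's `gG`) = start gates * end gates, words whose rests are in the window;
* `tip_one`, **`dbl_one`** : the first mark of a word is unique, without a condition on the displacement;
* `locC_rest`, `locC_cone`, `locC_nr`, **`locW_hEd`, `locW_hNr`, `rst_prod`, `man_prod`, `tpB_pre`, `unS_pre`** : the classes of F3Cls.
-/

set_option autoImplicit false

namespace Pool.Agent.ROT.F3

open Finset
open scoped Classical

/-! ### 1. Start gates -/

/-- the weight of the start gates of a word: prefix in `T`, functional `h` of everything behind the mark -/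
noncomputable def gS (T : Set W3) (f h : W3 → ℝ) (w : W3) : ℝ :=
  ∑ i ∈ range (w.length + 1), if w.take i ∈ T then f (w.take i) * h (w.drop i) else 0

/-- a functional which sees the first `M` letters and everything up to the last visit of the ball `ρ` (words with at least `L`
letters) -/
def LocW (ρ : ℝ) (M L : ℕ) (h : W3 → ℝ) : Prop := ∀ u v v' : W3, M ≤ u.length → L ≤ (u ++ v).length → L ≤ (u ++ v').length →
  (∀ k, u.length ≤ k → k ≤ (u ++ v).length → ρ < ‖ps (u ++ v) k‖) →
  (∀ k, u.length ≤ k → k ≤ (u ++ v').length → ρ < ‖ps (u ++ v') k‖) → h (u ++ v) = h (u ++ v')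

/-- the same for conditions -/
def LocC (ρ : ℝ) (C : W3 → Prop) : Prop := ∀ u v v' : W3,
  (∀ k, u.length ≤ k → k ≤ (u ++ v).length → ρ < ‖ps (u ++ v) k‖) →
  (∀ k, u.length ≤ k → k ≤ (u ++ v').length → ρ < ‖ps (u ++ v') k‖) → C (u ++ v) → C (u ++ v')

/-- the start mark is unique -/
def UnS (T : Set W3) (h : W3 → ℝ) : Prop := ∀ (w : W3) (i i' : ℕ), i ≤ w.length → i' ≤ w.length → w.take i ∈ T →
  h (w.drop i) ≠ 0 → w.take i' ∈ T → h (w.drop i') ≠ 0 → i = i'

/-- tips: even, at most `A` letters, in the ball `r` -/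
def TpB (A : ℕ) (r : ℝ) (T : Set W3) : Prop := ∀ a ∈ T, Even a.length ∧ a.length ≤ A ∧ ∀ k, k ≤ a.length → ‖ps a k‖ ≤ r

lemma gS_nonneg {T : Set W3} {f h : W3 → ℝ} (hf : ∀ a, 0 ≤ f a) (hh : ∀ a, 0 ≤ h a) (w : W3) : 0 ≤ gS T f h w := by
  refine sum_nonneg fun i _ => ?_
  split_ifs
  · exact mul_nonneg (hf _) (hh _)
  · exact le_rfl

lemma gS_le_one {T : Set W3} {f h : W3 → ℝ} (hU : UnS T h) (hh : ∀ a, 0 ≤ h a) (f1 : ∀ a, f a ≤ 1)
    (h1 : ∀ a, h a ≤ 1) (w : W3) : gS T f h w ≤ 1 := by
  unfold gS
  by_cases hex : ∃ i, i ≤ w.length ∧ w.take i ∈ T ∧ h (w.drop i) ≠ 0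
  · obtain ⟨i, hi, hT, hne⟩ := hex
    rw [sum_eq_single_of_mem i (mem_range.2 (by omega)) fun i' hi' hn => ?_]
    · rw [if_pos hT]
      exact mul_le_one₀ (f1 _) (hh _) (h1 _)
    · by_cases hT' : w.take i' ∈ T
      · rw [if_pos hT']
        by_contra hc
        exact hn (hU w i' i (by have := mem_range.1 hi'; omega) hi hT' (fun h0 => hc (by rw [h0, mul_zero])) hT hne)
      · rw [if_neg hT']
  · push Not at hex
    refine (sum_eq_zero fun i hi => ?_).le.trans zero_le_one
    by_cases hT : w.take i ∈ T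
    · rw [if_pos hT, hex i (by have := mem_range.1 hi; omega) hT, mul_zero]
    · rw [if_neg hT]

lemma ps_drop_split {w : W3} {i m : ℕ} (him : i ≤ m) (hm : m ≤ w.length) :
    (w.take m).drop i ++ w.drop m = w.drop i := by
  conv_rhs => rw [← List.take_append_drop m w]
  rw [List.drop_append_of_le_length (by rw [List.length_take, min_eq_left hm]; exact him)]

/-- **locality of the start gates** -/
theorem gS_loc {T : Set W3} {f h : W3 → ℝ} {A M L m : ℕ} {r ρ : ℝ} (hT : TpB A r T) (hl : LocW ρ M L h) {w w' : W3}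
    (hlen : w'.length = w.length) (hm : m ≤ w.length) (hA : A + M ≤ m) (hL : A + L ≤ w.length) (he : w.take m = w'.take m)
    (fw : ∀ k, m ≤ k → k ≤ w.length → ρ + r < ‖ps w k‖) (fw' : ∀ k, m ≤ k → k ≤ w'.length → ρ + r < ‖ps w' k‖) :
    gS T f h w = gS T f h w' := by
  unfold gS
  rw [hlen]
  refine sum_congr rfl fun i hi => ?_
  have hi' := mem_range.1 hi
  rcases lt_or_ge A i with hA' | hA'
  · rw [if_neg, if_neg]
    · intro hc
      have := (hT _ hc).2.1
      rw [List.length_take] at this
      omega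
    · intro hc
      have := (hT _ hc).2.1
      rw [List.length_take] at this
      omega
  · have hmi : i ≤ m := by omega
    have e1 : w.take i = w'.take i := by
      have h1 := congrArg (List.take i) he
      rwa [List.take_take, List.take_take, min_eq_left hmi] at h1
    rw [← e1]
    by_cases hT1 : w.take i ∈ T
    · rw [if_pos hT1, if_pos hT1]
      congr 1
      have hlt : (w.take i).length = i := by rw [List.length_take]; omega
      obtain ⟨ei, -, hb⟩ := hT _ hT1
      rw [hlt] at ei
      have key : ∀ {w : W3}, m ≤ w.length → ‖ps w i‖ ≤ r → (∀ k, m ≤ k → k ≤ w.length → ρ + r < ‖ps w k‖) → ∀ u : W3,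
          u.length = m - i → u ++ w.drop m = w.drop i →
          ∀ k, u.length ≤ k → k ≤ (u ++ w.drop m).length → ρ < ‖ps (u ++ w.drop m) k‖ := by
        intro w hm hr fw u hu hud k hk hk'
        rw [hud] at hk' ⊢
        rw [List.length_drop] at hk'
        rw [ps_append_drop w (by omega) ei]
        have h1 := fw (i + k) (by omega) (by omega)
        have h2 : ‖ps w (i + k)‖ ≤ ‖ps w (i + k) - ps w i‖ + ‖ps w i‖ := by
          calc ‖ps w (i + k)‖ = ‖(ps w (i + k) - ps w i) + ps w i‖ := by rw [sub_add_cancel]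
            _ ≤ _ := norm_add_le _ _
        linarith
      have hr1 : ‖ps w i‖ ≤ r := by
        have := hb i (by omega)
        rwa [ps_take w le_rfl (by omega)] at this
      have hr2 : ‖ps w' i‖ ≤ r := by
        have := hb i (by omega)
        rw [e1] at this
        rwa [ps_take w' le_rfl (by omega)] at this
      have d1 := ps_drop_split hmi hm
      have d2 := ps_drop_split (w := w') hmi (by omega)
      rw [← he] at d2
      have hu : ((w.take m).drop i).length = m - i := by rw [List.length_drop, List.length_take]; omega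
      have l1 : ((w.take m).drop i ++ w.drop m).length = w.length - i := by rw [d1, List.length_drop]
      have l2 : ((w.take m).drop i ++ w'.drop m).length = w'.length - i := by rw [d2, List.length_drop]
      have h3 := hl ((w.take m).drop i) (w.drop m) (w'.drop m) (by omega) (by omega) (by omega)
        (key hm hr1 fw _ hu d1) (key (by omega) hr2 fw' _ hu d2)
      rwa [d1, d2] at h3
    · rw [if_neg hT1, if_neg hT1]

/-! ### 2. Both ends -/

lemma gS_reverse (T : Set W3) (f h : W3 → ℝ) (w : W3) : gS T f h w.reverse = ∑ j ∈ range (w.length + 1),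
    if (w.drop j).reverse ∈ T then f (w.drop j).reverse * h (w.take j).reverse else 0 := by
  unfold gS
  rw [List.length_reverse, ← sum_range_reflect]
  refine sum_congr rfl fun j hj => ?_
  have hj' := mem_range.1 hj
  have e : w.length + 1 - 1 - j = w.length - j := by omega
  have e2 : w.length - (w.length - j) = j := by omega
  rw [e, List.take_reverse, List.drop_reverse, e2]

/-- **the gates of both ends are a product**, words whose rests are in the window -/
theorem gam_gG {T Rs T' : Set W3} {f Ψ f' hs he : W3 → ℝ} {A B M L L0 L1 : ℕ} {r r' ρ D D1 : ℝ} (hT : TpB A r T)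
    (hT' : TpB B r' T') (ls : LocW ρ M L hs) (le : LocW ρ M L he)
    (hR : ∀ R : W3, Even R.length → SW R → D ≤ ‖en R‖ → ‖en R‖ ≤ D1 → L0 ≤ R.length → R.length ≤ L1 →
      (if R ∈ Rs then Ψ R else 0) = hs R * he R.reverse)
    (h1 : ρ + 2 * r < D) (h2 : ρ + 2 * r' < D) {w : W3} (sw : SW w) (ev : Even w.length) (hD : D + r + r' ≤ ‖en w‖)
    (hD1 : ‖en w‖ + r + r' ≤ D1) (hM : A + B + M ≤ w.length) (hL : A + B + L ≤ w.length) (hL0 : A + B + L0 ≤ w.length)
    (hL1 : w.length ≤ L1) : F3E.Gam (gG T Rs T' f Ψ f') w = gS T f hs w * gS T' f' he w.reverse := by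
  rw [gS_reverse]
  unfold gS F3E.Gam
  rw [sum_mul_sum]
  refine sum_congr rfl fun i hi => sum_congr rfl fun j hj => ?_
  have hi' := mem_range.1 hi
  have hj' := mem_range.1 hj
  by_cases hTi : w.take i ∈ T
  swap
  · rw [if_neg hTi, zero_mul]
    exact if_neg fun hc => hTi hc.2.1
  by_cases hTj : (w.drop j).reverse ∈ T'
  swap
  · rw [if_neg hTj, mul_zero]
    exact if_neg fun hc => hTj hc.2.2.2
  rw [if_pos hTi, if_pos hTj]
  obtain ⟨ei, Ai, bi⟩ := hT _ hTi
  obtain ⟨ej, Bj, bj⟩ := hT' _ hTj
  have li : (w.take i).length = i := by rw [List.length_take]; omega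
  have lj : (w.drop j).reverse.length = w.length - j := by rw [List.length_reverse, List.length_drop]
  rw [li] at ei Ai bi
  rw [lj] at ej Bj bj
  have hij : i ≤ j := by omega
  have hjw : j ≤ w.length := by omega
  have evj : Even j := by
    have h3 : w.length = (w.length - j) + j := by omega
    rw [h3, Nat.even_add] at ev
    exact ev.1 ej
  have evR : Even (j - i) := by
    rw [Nat.even_sub hij]
    exact ⟨fun _ => ei, fun _ => evj⟩
  obtain ⟨R, hRd⟩ : ∃ R, R = seg w i j := ⟨_, rfl⟩
  have lR : R.length = j - i := by rw [hRd]; unfold seg; rw [List.length_take, List.length_drop]; omega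
  have psR : ∀ k, k ≤ j - i → ps R k = ps w (i + k) - ps w i := by
    intro k hk
    rw [hRd]
    unfold seg
    rw [ps_take _ hk (by rw [List.length_drop]; omega), ps_append_drop w (by omega) ei]
  have enR : en R = ps w j - ps w i := by
    rw [en, lR, psR _ le_rfl, show i + (j - i) = j by omega]
  have swR : SW R := by
    intro a b ha hb hab
    rw [lR] at ha hb
    rw [psR a ha, psR b hb, sub_left_inj] at hab
    have := sw (i + a) (i + b) (by omega) (by omega) hab
    omega
  have psi : ∀ k, k ≤ i → ‖ps w k‖ ≤ r := by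
    intro k hk
    have := bi k hk
    rwa [ps_take w hk (by omega)] at this
  -- positions behind j
  have psj : ∀ k, j ≤ k → k ≤ w.length → ps w k - ps w j = ps (w.drop j) (k - j) := by
    intro k hk hk'
    rw [ps_append_drop w hjw evj, show j + (k - j) = k by omega]
  have lq : (w.drop j).reverse.length = w.length - j := lj
  have eq' : Even (w.drop j).reverse.length := by rw [lq]; exact ej
  have psq : ∀ k, k ≤ w.length - j → ps (w.drop j) k = ps (w.drop j).reverse (w.length - j - k) - en (w.drop j).reverse := by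
    intro k hk
    have h3 := ps_reverse eq' (k := k) (by omega)
    rw [List.reverse_reverse, lq] at h3
    exact h3
  have nq : ‖en (w.drop j).reverse‖ ≤ r' := by
    have := bj (w.length - j) le_rfl
    rw [en, lq]
    exact this
  have enj : ‖en w - ps w j‖ ≤ r' := by
    have h3 := psj w.length hjw le_rfl
    rw [show ps w w.length = en w from rfl] at h3
    rw [h3, psq _ le_rfl, Nat.sub_self, ps_zero, zero_sub, norm_neg]
    exact nq
  have nR : D ≤ ‖en R‖ := by
    have h3 : en w = en R + ps w i + (en w - ps w j) := by rw [enR]; ring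
    have h4 : ‖en w‖ ≤ ‖en R‖ + ‖ps w i‖ + ‖en w - ps w j‖ := by
      conv_lhs => rw [h3]
      exact (norm_add_le _ _).trans (by linarith [norm_add_le (en R) (ps w i)])
    linarith [psi i le_rfl]
  have nR1 : ‖en R‖ ≤ D1 := by
    have h3 : en R = en w - ps w i - (en w - ps w j) := by rw [enR]; ring
    have h4 : ‖en R‖ ≤ ‖en w‖ + ‖ps w i‖ + ‖en w - ps w j‖ := by
      conv_lhs => rw [h3]
      exact (norm_sub_le _ _).trans (by linarith [norm_sub_le (en w) (ps w i)])
    linarith [psi i le_rfl]
  have hdrop : w.drop i = R ++ w.drop j := by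
    rw [hRd]
    unfold seg
    have h3 : w.drop j = (w.drop i).drop (j - i) := by
      rw [List.drop_drop]
      congr 1
      omega
    rw [h3, List.take_append_drop]
  have htake : (w.take j).reverse = R.reverse ++ (w.take i).reverse := by
    rw [← List.reverse_append, hRd]
    congr 1
    unfold seg
    have h3 : w.take j = (w.take i ++ w.drop i).take j := by rw [List.take_append_drop]
    rw [h3, List.take_append, List.take_take, min_eq_right (by omega), li]
  have hhs : hs R = hs (w.drop i) := by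
    have h3 := ls R [] (w.drop j) (by omega) (by rw [List.append_nil]; omega) (by rw [← hdrop, List.length_drop]; omega) ?_ ?_
    · rwa [List.append_nil, ← hdrop] at h3
    · intro k hk hk'
      rw [List.append_nil] at hk' ⊢
      have h4 : k = R.length := by omega
      rw [h4, show ps R R.length = en R from rfl]
      linarith [norm_nonneg (ps w i), psi i le_rfl]
    · intro k hk hk'
      rw [← hdrop] at hk' ⊢
      rw [List.length_drop] at hk'
      rw [ps_append_drop w (by omega) ei]
      have h4 : ps w (i + k) - ps w i = en R + (ps w (i + k) - ps w j) := by rw [enR]; ring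
      rw [h4, psj (i + k) (by omega) (by omega), psq _ (by omega)]
      have h5 := bj (w.length - j - (i + k - j)) (by omega)
      have h6 : ‖en R‖ ≤ ‖en R + (ps (w.drop j).reverse (w.length - j - (i + k - j)) - en (w.drop j).reverse)‖ +
          ‖ps (w.drop j).reverse (w.length - j - (i + k - j)) - en (w.drop j).reverse‖ := by
        have h7 : en R = (en R + (ps (w.drop j).reverse (w.length - j - (i + k - j)) - en (w.drop j).reverse)) -
          (ps (w.drop j).reverse (w.length - j - (i + k - j)) - en (w.drop j).reverse) := by ring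
        conv_lhs => rw [h7]
        exact norm_sub_le _ _
      have h8 := norm_sub_le (ps (w.drop j).reverse (w.length - j - (i + k - j))) (en (w.drop j).reverse)
      linarith
  have hhe : he R.reverse = he (w.take j).reverse := by
    have h3 := le R.reverse [] (w.take i).reverse (by rw [List.length_reverse]; omega)
      (by rw [List.append_nil, List.length_reverse]; omega)
      (by rw [← htake, List.length_reverse, List.length_take]; omega) ?_ ?_
    · rwa [List.append_nil, ← htake] at h3
    · intro k hk hk'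
      rw [List.append_nil] at hk' ⊢
      rw [List.length_reverse] at hk hk'
      have h4 : k = R.length := by omega
      rw [h4, ps_reverse (by rw [lR]; exact evR) le_rfl, Nat.sub_self, ps_zero, zero_sub, norm_neg]
      linarith [norm_nonneg (ps w i), psi i le_rfl]
    · intro k hk hk'
      rw [← htake] at hk' ⊢
      have ltj : (w.take j).length = j := by rw [List.length_take]; omega
      rw [List.length_reverse, ltj] at hk'
      rw [List.length_reverse] at hk
      rw [ps_reverse (by rw [ltj]; exact evj) (by omega), ltj, ps_take w (by omega) (by omega), en_take w (by omega)]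
      have h4 : en R = -(ps w (j - k) - ps w j) + (ps w (j - k) - ps w i) := by rw [enR]; ring
      have h5 : ‖en R‖ ≤ ‖ps w (j - k) - ps w j‖ + ‖ps w (j - k) - ps w i‖ := by
        conv_lhs => rw [h4]
        exact (norm_add_le _ _).trans (by rw [norm_neg])
      have h6 := norm_sub_le (ps w (j - k)) (ps w i)
      linarith [psi (j - k) (by omega), psi i le_rfl]
  have hg : gG T Rs T' f Ψ f' w i j = f (w.take i) * f' (w.drop j).reverse * (if R ∈ Rs then Ψ R else 0) := by
    unfold gG
    rw [← hRd]
    by_cases hRR : R ∈ Rs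
    · rw [if_pos ⟨⟨hij, hjw⟩, hTi, hRR, hTj⟩, if_pos hRR]
      ring
    · rw [if_neg fun hc => hRR hc.2.2.1, if_neg hRR, mul_zero]
  rw [hg, hR R (by rw [lR]; exact evR) swR nR nR1 (by omega) (by omega), hhs, hhe]
  ring

/-- odd words have no gates -/
lemma gam_odd {T Rs T' : Set W3} {f Ψ f' : W3 → ℝ} (hT : ∀ a ∈ T, Even a.length) (hR : ∀ R ∈ Rs, Even R.length)
    (hT' : ∀ b ∈ T', Even b.length) {w : W3} (hw : ¬ Even w.length) : F3E.Gam (gG T Rs T' f Ψ f') w = 0 := by
  unfold F3E.Gam
  refine sum_eq_zero fun i hi => sum_eq_zero fun j hj => ?_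
  refine if_neg fun hc => hw ?_
  obtain ⟨⟨h1, h2⟩, h3, h4, h5⟩ := hc
  have e1 := hT _ h3
  have e2 := hR _ h4
  have e3 := hT' _ h5
  unfold seg at e2
  rw [List.length_take] at e1 e2
  rw [List.length_reverse, List.length_drop] at e3
  rw [List.length_drop] at e2
  have h6 : w.length = min i w.length + min (j - i) (w.length - i) + (w.length - j) := by omega
  rw [h6]
  exact (e1.add e2).add e3

/-! ### 3. Uniqueness of the start mark -/

/-- **the first mark of a word is unique** (rest = everything behind the mark) -/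
theorem tip_one {d : ℂ} {r r0 l : ℝ} {p p' R R' : W3} (hp : TipC d r p) (hp' : TipC d r p') (f : FstC d l p)
    (f' : FstC d l p') (hR : RestC d r0 R) (hR' : RestC d r0 R') (hr : 2 * r ≤ r0) (h : p ++ R = p' ++ R') : p = p' := by
  have key : ∀ {p p' R R' : W3}, TipC d r p → TipC d r p' → FstC d l p → FstC d l p' → RestC d r0 R →
      p ++ R = p' ++ R' → ¬ p.length < p'.length := by
    intro p p' R R' hp hp' f f' hR h hl
    have hv : ∀ j, j ≤ p'.length → ps p' j = ps (p ++ R) j := fun j hj => by rw [h, ps_append_left hj]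
    have h1 : p'.length ≤ p.length + R.length := by
      have := congrArg List.length h
      rw [List.length_append, List.length_append] at this
      omega
    have h5 : ∀ j, p.length ≤ j → j ≤ p'.length → ps p' j = en p + ps R (j - p.length) := by
      intro j hj hj'
      rw [hv j hj', ps_append_right' hp.ev hj]
    have h6 : ∀ j, j ≤ p.length → ps p' j = ps p j := fun j hj => by rw [hv j (by omega), ps_append_left hj]
    have h7 : ps p' p.length = en p := h6 _ le_rfl
    have hcut : CutC d p' p.length := by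
      refine ⟨fun j hj => ?_, fun j hj hj' => ?_⟩
      · rw [h6 j hj, h7]
        exact hp.left j hj
      · rw [h7, h5 j hj.le hj', lv_add]
        have h8 : ‖ps R (j - p.length)‖ ≤ r0 := by
          have h9 : ps R (j - p.length) = ps p' j - en p := by rw [h5 j hj.le hj']; ring
          rw [h9]
          calc ‖ps p' j - en p‖ ≤ ‖ps p' j‖ + ‖en p‖ := norm_sub_le _ _
            _ ≤ r0 := by linarith [hp'.ball j hj', norm_en_le hp]
        linarith [hR (j - p.length) (by omega) (by omega) h8]
    have h8 := f'.2 p.length hp.ev hl hcut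
    rw [h7] at h8
    linarith [f.1]
  have k1 := key hp hp' f f' hR h
  have k2 := key hp' hp f' f hR' h.symm
  have hl : p.length = p'.length := by omega
  exact (List.append_inj h hl).1

/-- **the first double gate of a word is unique** -/
theorem dbl_one {d : ℂ} {r l r2 m r0 : ℝ} {p p' R R' : W3} {k k' : ℕ} (h : DblC d r l r2 m p k)
    (h' : DblC d r l r2 m p' k') (hR : RestC d r0 R) (hR' : RestC d r0 R') (hr : 2 * (r + r2) ≤ r0)
    (he : p ++ R = p' ++ R') : p = p' := by
  have hr0 : 0 ≤ r := (norm_nonneg _).trans (h.a.ball 0 (Nat.zero_le _))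
  have hr2 : 0 ≤ r2 := (norm_nonneg _).trans (h.b.t.ball 0 (Nat.zero_le _))
  have e1 : ∀ (p : W3) (k : ℕ) (R : W3), p ++ R = p.take k ++ (p.drop k ++ R) := fun p k R => by
    conv_lhs => rw [← List.take_append_drop k p]
    rw [List.append_assoc]
  have e2 : p.take k ++ (p.drop k ++ R) = p'.take k' ++ (p'.drop k' ++ R') := by rw [← e1, ← e1, he]
  have h1 := tip_one h.a h'.a h.fa h'.fa (h.b.rest hR) (h'.b.rest hR') (by linarith) e2
  have e3 : p.drop k ++ R = p'.drop k' ++ R' := by
    rw [h1] at e2
    exact List.append_cancel_left e2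
  have h2 := tip_one h.b.t h'.b.t h.fb h'.fb hR hR' (by linarith) e3
  rw [← List.take_append_drop k p, ← List.take_append_drop k' p', h1, h2]

/-- the start mark is unique, double gates -/
theorem unS_dbl {T : Set W3} {h : W3 → ℝ} {d : ℂ} {r l r2 m r0 : ℝ} (hT : ∀ a ∈ T, ∃ k, DblC d r l r2 m a k)
    (hh : ∀ R, h R ≠ 0 → RestC d r0 R) (hr : 2 * (r + r2) ≤ r0) : UnS T h := by
  intro w i i' hi hi' h1 h2 h3 h4
  obtain ⟨k, hk⟩ := hT _ h1
  obtain ⟨k', hk'⟩ := hT _ h3
  have h5 := dbl_one hk hk' (hh _ h2) (hh _ h4) hr (by rw [List.take_append_drop, List.take_append_drop])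
  have h6 := congrArg List.length h5
  rw [List.length_take, List.length_take] at h6
  omega

/-! ### 4. Local conditions -/

lemma LocC.and {ρ : ℝ} {C C' : W3 → Prop} (h : LocC ρ C) (h' : LocC ρ C') : LocC ρ fun R => C R ∧ C' R :=
  fun u v v' a b hc => ⟨h u v v' a b hc.1, h' u v v' a b hc.2⟩

lemma LocC.mono {ρ ρ' : ℝ} {C : W3 → Prop} (h : LocC ρ C) (hr : ρ ≤ ρ') : LocC ρ' C :=
  fun u v v' a b hc => h u v v' (fun k h1 h2 => hr.trans_lt (a k h1 h2)) (fun k h1 h2 => hr.trans_lt (b k h1 h2)) hc

lemma LocW.mono {ρ ρ' : ℝ} {M M' L L' : ℕ} {h : W3 → ℝ} (H : LocW ρ M L h) (hr : ρ ≤ ρ') (hM : M ≤ M') (hL : L ≤ L') :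
    LocW ρ' M' L' h := fun u v v' h1 h2 h3 a b => H u v v' (hM.trans h1) (hL.trans h2) (hL.trans h3)
  (fun k h1 h2 => hr.trans_lt (a k h1 h2)) fun k h1 h2 => hr.trans_lt (b k h1 h2)

lemma locC_rest (d : ℂ) (r0 : ℝ) : LocC r0 (RestC d r0) := by
  intro u v v' a b h k h0 hk hn
  rcases lt_or_ge k u.length with hku | hku
  · rw [ps_append_left hku.le] at hn ⊢
    have h1 := h k h0 (by rw [List.length_append]; omega) (by rw [ps_append_left hku.le]; exact hn)
    rwa [ps_append_left hku.le] at h1
  · exact absurd hn (not_le.2 (b k hku hk))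

lemma locC_cone (d : ℂ) (c r0 κ : ℝ) : LocC (r0 - κ) (ConeR d c r0 κ) := by
  intro u v v' a b h k hk
  rcases lt_or_ge k u.length with hku | hku
  · have h1 := h k (by rw [List.length_append]; omega)
    rw [ps_append_left hku.le] at h1 ⊢
    exact h1
  · exact Or.inr (b k hku hk).le

lemma locC_nr (d : ℂ) (s : Sr) (S : ℝ) : LocC (s.bn * S) (NRt d s S) := by
  rintro u v v' a b ⟨ke, hke, h1, h2⟩
  refine ⟨min ke u.length, ?_, fun k hk => ?_, fun k hk hk' => ?_⟩
  · rw [List.length_append]
    omega
  · have h3 := h1 k (by omega)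
    rw [ps_append_left (by omega)] at h3 ⊢
    exact h3
  · rcases lt_or_ge k u.length with hku | hku
    · have h3 := h2 k (by omega) (by rw [List.length_append]; omega)
      rw [ps_append_left hku.le] at h3 ⊢
      exact h3
    · exact (b k hku hk').le

lemma locC_ed {d : ℂ} {P : Tp} {S ρ : ℝ} (h1 : P.rg * S ≤ ρ) (h2 : (P.r0 - P.κ) * S ≤ ρ) : LocC ρ (EdQ d P S) := by
  have e : P.r0 * S - P.κ * S = (P.r0 - P.κ) * S := by ring
  intro u v v' a b hc
  exact ⟨(locC_rest d (P.rg * S)).mono h1 u v v' a b hc.right,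
    (locC_cone d P.c (P.r0 * S) (P.κ * S)).mono (by rw [e]; exact h2) u v v' a b hc.cone⟩

/-- a local condition times a functional of the first letters -/
lemma locW_ite {ρ : ℝ} {M L : ℕ} {C : W3 → Prop} {g : W3 → ℝ} (hC : LocC ρ C)
    (hg : ∀ u v v' : W3, M ≤ u.length → L ≤ (u ++ v).length → L ≤ (u ++ v').length → g (u ++ v) = g (u ++ v')) :
    LocW ρ M L fun R => if C R then g R else 0 := by
  intro u v v' h1 h2 h3 a b
  have e : C (u ++ v) ↔ C (u ++ v') := ⟨hC u v v' a b, hC u v' v b a⟩
  simp only [e, hg u v v' h1 h2 h3]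

/-! ### 5. The classes of F3Cls -/

/-- start weight of the rests: the conditions at the start, a functional of the first letters -/
noncomputable def hEd (d : ℂ) (P : Tp) (S : ℝ) (g : W3 → ℝ) (R : W3) : ℝ := if EdQ d P S R then g R else 0

/-- the conditions at the start of a main arc -/
def EdN (d : ℂ) (P : Tp) (s : Sr) (S : ℝ) (R : W3) : Prop := EdQ d P S R ∧ NRt d s S R

/-- start weight of the main arcs -/
noncomputable def hNr (d : ℂ) (P : Tp) (s : Sr) (S : ℝ) (g : W3 → ℝ) (R : W3) : ℝ := if EdN d P s S R then g R else 0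

/-- **the weight of a rest is a product** -/
theorem rst_prod {d d' : ℂ} {P Q : Tp} {W : Wn} {S T : ℝ} {Ψ g g' : W3 → ℝ}
    (hΨ : ∀ R : W3, Even R.length → W.t0 * T ≤ R.length → Ψ R = g R * g' R.reverse) {R : W3} (ev : Even R.length) (sw : SW R)
    (h0 : W.D0 * S ≤ ‖en R‖) (h1 : ‖en R‖ ≤ W.D1 * S) (h2 : W.t0 * T ≤ R.length) (h3 : (R.length : ℝ) ≤ W.t1 * T) :
    (if R ∈ Rst d d' P Q W S T then Ψ R else 0) = hEd d P S g R * hEd d' Q S g' R.reverse := by
  unfold hEd
  by_cases hs : EdQ d P S R
  · by_cases he : EdQ d' Q S R.reverse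
    · rw [if_pos hs, if_pos he, if_pos (show R ∈ Rst d d' P Q W S T from ⟨ev, sw, hs, he, h0, h1, h2, h3⟩), hΨ R ev h2]
    · rw [if_neg he, mul_zero]
      exact if_neg fun hc : R ∈ Rst d d' P Q W S T => he (RsQ.e hc)
  · rw [if_neg hs, zero_mul]
    exact if_neg fun hc : R ∈ Rst d d' P Q W S T => hs (RsQ.s hc)

/-- **the weight of a main arc is a product** -/
theorem man_prod {d d' : ℂ} {P Q : Tp} {W : Wn} {s s' : Sr} {S T : ℝ} {Ψ g g' : W3 → ℝ}
    (hΨ : ∀ R : W3, Even R.length → W.t0 * T ≤ R.length → Ψ R = g R * g' R.reverse) {R : W3} (ev : Even R.length) (sw : SW R)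
    (h0 : W.D0 * S ≤ ‖en R‖) (h1 : ‖en R‖ ≤ W.D1 * S) (h2 : W.t0 * T ≤ R.length) (h3 : (R.length : ℝ) ≤ W.t1 * T) :
    (if R ∈ Man d d' P Q W s s' S T then Ψ R else 0) = hNr d P s S g R * hNr d' Q s' S g' R.reverse := by
  unfold hNr
  by_cases hs : EdN d P s S R
  · by_cases he : EdN d' Q s' S R.reverse
    · rw [if_pos hs, if_pos he, if_pos (show R ∈ Man d d' P Q W s s' S T from
        ⟨⟨ev, sw, hs.1, he.1, h0, h1, h2, h3⟩, hs.2, he.2⟩), hΨ R ev h2]
    · rw [if_neg he, mul_zero]
      exact if_neg fun hc : R ∈ Man d d' P Q W s s' S T => he ⟨(MnQ.q hc).e, MnQ.nq hc⟩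
  · rw [if_neg hs, zero_mul]
    exact if_neg fun hc : R ∈ Man d d' P Q W s s' S T => hs ⟨(MnQ.q hc).s, MnQ.np hc⟩

lemma locW_hEd {d : ℂ} {P : Tp} {S ρ : ℝ} {M L : ℕ} {g : W3 → ℝ} (h1 : P.rg * S ≤ ρ) (h2 : (P.r0 - P.κ) * S ≤ ρ)
    (hg : ∀ u v v' : W3, M ≤ u.length → L ≤ (u ++ v).length → L ≤ (u ++ v').length → g (u ++ v) = g (u ++ v')) :
    LocW ρ M L (hEd d P S g) := locW_ite (locC_ed (d := d) h1 h2) hg

lemma locW_hNr {d : ℂ} {P : Tp} {s : Sr} {S ρ : ℝ} {M L : ℕ} {g : W3 → ℝ} (h1 : P.rg * S ≤ ρ) (h2 : (P.r0 - P.κ) * S ≤ ρ)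
    (h3 : s.bn * S ≤ ρ)
    (hg : ∀ u v v' : W3, M ≤ u.length → L ≤ (u ++ v).length → L ≤ (u ++ v').length → g (u ++ v) = g (u ++ v')) :
    LocW ρ M L (hNr d P s S g) := locW_ite (C := EdN d P s S) ((locC_ed (d := d) h1 h2).and ((locC_nr d s S).mono h3)) hg

/-- the prefixes are tips -/
lemma tpB_pre {d : ℂ} {P : Tp} {S T : ℝ} {A : ℕ} {r : ℝ} (hA : P.la * T + P.lb * T ≤ A) (hr : (P.r + P.r2) * S ≤ r) :
    TpB A r (Pre d P S T) := by
  rintro a ⟨k, hk⟩
  have h1 := hk.g.tip
  refine ⟨h1.ev, ?_, fun j hj => (h1.ball j hj).trans (by linarith)⟩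
  have h2 := hk.la
  have h3 := hk.lb
  have h4 : (a.length : ℝ) = k + ((a.drop k).length : ℕ) := by
    rw [List.length_drop, Nat.cast_sub hk.g.le]
    ring
  have h5 : (a.length : ℝ) ≤ A := by
    rw [h4]
    linarith
  exact_mod_cast h5

/-- the start mark is unique, classes of F3Cls -/
lemma unS_pre {d : ℂ} {P : Tp} {S T : ℝ} (hP : P.Ok) (hS : 0 ≤ S) {h : W3 → ℝ} (hh : ∀ R, h R ≠ 0 → EdQ d P S R) :
    UnS (Pre d P S T) h := by
  refine unS_dbl (d := d) (r := P.r * S) (l := P.l * S) (r2 := P.r2 * S) (m := P.m * S) (r0 := P.rg * S) ?_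
    (fun R hR => (hh R hR).right) ?_
  · rintro a ⟨k, hk⟩
    exact ⟨k, hk.g⟩
  · have := mul_le_mul_of_nonneg_right hP.rg.le hS
    linarith

end Pool.Agent.ROT.F3
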