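import Pool.Agent.ROT.F3Pair
import Pool.Agent.ROT.F3Dic

/-!
# ROT / F3Fin (helper43): finite masses and separated supports (hypotheses of `pair_rhs`, `pair_clsm` of F3Pair)

* `latb_fin`, `SWb_fin` : finitely many lattice points / self-avoiding words stay in a ball;
* `ms_fin`, `gam_fin` : the masses of the classes are finite;
* `Dj_of` : the two arcs are disjoint if they are localised in separated places; `sep_of` : the hypothesis `hD` of `pair_rhs`.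
-/

set_option autoImplicit false

namespace Pool.Agent.ROT.F3

open Finset
open Pool.Agent.NTS.Res (step pos saw fug)
open NTSF (om)
open scoped ENNReal Classical

/-! ### finiteness -/

/-- the lattice points in a ball -/
lemma latb_fin (K : ℝ) : {z : ℂ | (∃ a b : ℤ, z = a + b * om) ∧ ‖z‖ ≤ K}.Finite := by
  rcases lt_or_ge K 0 with hK | hK
  · refine Set.Finite.subset Set.finite_empty fun z hz => ?_
    exact absurd (norm_nonneg z) (not_le.2 (lt_of_le_of_lt hz.2 hK))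
  obtain ⟨M, hM⟩ := exists_nat_ge (2 * K)
  have hf : ((Set.Icc (-(M : ℤ)) M ×ˢ Set.Icc (-(M : ℤ)) M).image fun p : ℤ × ℤ => (p.1 : ℂ) + p.2 * om).Finite :=
    (((Set.finite_Icc _ _).prod (Set.finite_Icc _ _))).image _
  refine hf.subset ?_
  rintro z ⟨⟨a, b, rfl⟩, hz⟩
  have h1 := Pool.Agent.PMA.LimR.normSq_coord a b
  rw [Complex.normSq_eq_norm_sq] at h1
  have h2 : ‖(a : ℂ) + b * om‖ ^ 2 ≤ K ^ 2 := by
    have := norm_nonneg ((a : ℂ) + b * om)
    nlinarith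
  have h3 : ((a * a - a * b + b * b : ℤ) : ℝ) ≤ K ^ 2 := by rw [← h1]; exact h2
  push_cast at h3
  have h4 : (a : ℝ) ^ 2 ≤ (2 * K) ^ 2 := by nlinarith [sq_nonneg ((a : ℝ) - 2 * b), sq_nonneg (a : ℝ), sq_nonneg (b : ℝ)]
  have h5 : (b : ℝ) ^ 2 ≤ (2 * K) ^ 2 := by nlinarith [sq_nonneg ((b : ℝ) - 2 * a), sq_nonneg (a : ℝ), sq_nonneg (b : ℝ)]
  have h6 := abs_le.1 (abs_le_of_sq_le_sq h4 (by linarith))
  have h7 := abs_le.1 (abs_le_of_sq_le_sq h5 (by linarith))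
  refine ⟨(a, b), ⟨⟨?_, ?_⟩, ⟨?_, ?_⟩⟩, rfl⟩
  · have : (-(M : ℝ)) ≤ a := by linarith [h6.1]
    exact_mod_cast this
  · have : (a : ℝ) ≤ M := by linarith [h6.2]
    exact_mod_cast this
  · have : (-(M : ℝ)) ≤ b := by linarith [h7.1]
    exact_mod_cast this
  · have : (b : ℝ) ≤ M := by linarith [h7.2]
    exact_mod_cast this

lemma ps_lat (w : W3) {k : ℕ} (hk : k ≤ w.length) : ∃ a b : ℤ, ps w k = a + b * om := by
  obtain ⟨s, hs⟩ := exists_ofFn (w := w) rfl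
  obtain ⟨a, b, h, -⟩ := Pool.Agent.PMA.LimR.coord s hk
  refine ⟨a, b, ?_⟩
  rw [← h, ← ps_ofFn, hs]

/-- the self-avoiding words which stay in a ball -/
def SWb (K : ℝ) : Set W3 := {w | SW w ∧ ∀ k ≤ w.length, ‖ps w k‖ ≤ K}

lemma SWb_fin (K : ℝ) : (SWb K).Finite := by
  have hf := latb_fin K
  have hl : ∀ w ∈ SWb K, w.length < hf.toFinset.card + 1 := by
    intro w hw
    have h1 : (range (w.length + 1)).card ≤ hf.toFinset.card := by
      refine card_le_card_of_injOn (fun k => ps w k) (fun k hk => ?_) (fun j hj k hk he => ?_)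
      · have hk' : k ≤ w.length := by
          have := mem_range.1 (mem_coe.1 hk)
          omega
        rw [mem_coe, Set.Finite.mem_toFinset]
        exact ⟨ps_lat w hk', hw.2 k hk'⟩
      · exact hw.1 j k (by have := mem_range.1 (mem_coe.1 hj); omega) (by have := mem_range.1 (mem_coe.1 hk); omega) he
    rw [card_range] at h1
    omega
  have h2 : SWb K ⊆ ⋃ n ∈ Set.Iio (hf.toFinset.card + 1), SWn n := fun w hw =>
    Set.mem_biUnion (hl w hw) ⟨hw.1, rfl⟩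
  exact ((Set.finite_Iio _).biUnion fun n _ => SWn_finite n).subset h2

lemma wx_ne_top (w : W3) : wx w ≠ ∞ := ENNReal.pow_ne_top ENNReal.ofReal_ne_top

/-- finite mass -/
lemma ms_fin {T : Set W3} {f : W3 → ℝ≥0∞} {K : ℝ} (h : ∀ w ∈ T, f w ≠ 0 → w ∈ SWb K) (hf : ∀ w, f w ≠ ∞) : ms T f ≠ ∞ := by
  unfold ms
  rw [tsum_eq_sum (s := (SWb_fin K).toFinset)]
  · refine (ENNReal.sum_lt_top.2 fun w _ => ?_).ne
    split_ifs
    · exact ENNReal.mul_lt_top (wx_ne_top w).lt_top (hf w).lt_top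
    · exact ENNReal.zero_lt_top
  · intro w hw
    by_cases hT : w ∈ T
    · rw [if_pos hT]
      by_cases h0 : f w = 0
      · rw [h0, mul_zero]
      · exact absurd ((SWb_fin K).mem_toFinset.2 (h w hT h0)) hw
    · rw [if_neg hT]

lemma gam_fin {C : Set (W3 × W3)} {e : W3 × W3 → ℝ≥0∞} {K : ℝ} (h : ∀ a ∈ C, e a ≠ 0 → a.1 ∈ SWb K ∧ a.2 ∈ SWb K)
    (he : ∀ a, e a ≠ ∞) : ∑' z : ℂ, gam C e z ≠ ∞ := by
  rw [tsum_gam, tsum_eq_sum (s := (SWb_fin K).toFinset ×ˢ (SWb_fin K).toFinset)]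
  · refine (ENNReal.sum_lt_top.2 fun a _ => ?_).ne
    split_ifs
    · exact ENNReal.mul_lt_top (ENNReal.mul_lt_top (wx_ne_top _).lt_top (wx_ne_top _).lt_top) (he a).lt_top
    · exact ENNReal.zero_lt_top
  · intro a ha
    by_cases hC : a ∈ C
    · rw [if_pos hC]
      by_cases h0 : e a = 0
      · rw [h0, mul_zero]
      · obtain ⟨h1, h2⟩ := h a hC h0
        exact absurd (mem_product.2 ⟨(SWb_fin K).mem_toFinset.2 h1, (SWb_fin K).mem_toFinset.2 h2⟩) ha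
    · rw [if_neg hC]

/-! ### the arcs are disjoint -/

/-- two localised arcs are disjoint: the arc `R` from its start stays in `A`, the arc `S` from its start in `B`, the relative
position `z` of the starts is near `z0`, and `A` is far from `B - z0` -/
lemma Dj_of {R S : W3} {z z0 : ℂ} {A B : Set ℂ} {r : ℝ} (hR : ∀ j ≤ R.length, ps R j ∈ A) (hS : ∀ k ≤ S.length, ps S k ∈ B)
    (hz : ‖z - z0‖ ≤ r) (hAB : ∀ a ∈ A, ∀ b ∈ B, r < ‖a - (b - z0)‖) : Dj R S z := by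
  intro j k hj hk he
  have h := hAB _ (hR j hj) _ (hS k hk)
  rw [he, show ps S k - z - (ps S k - z0) = -(z - z0) by ring, norm_neg] at h
  linarith

/-- the hypothesis `hD` of `pair_rhs` from localised supports -/
lemma sep_of {C C' : Set (W3 × W3)} {RA RB : Set W3} {e e' : W3 × W3 → ℝ≥0∞} {F G : W3 → ℝ≥0∞} {z0 : ℂ} {A B : Set ℂ} {r : ℝ}
    (hR : ∀ R ∈ RA, F R ≠ 0 → ∀ j ≤ R.length, ps R j ∈ A) (hS : ∀ S ∈ RB, G S ≠ 0 → ∀ k ≤ S.length, ps S k ∈ B)
    (hz : ∀ a ∈ C, e a ≠ 0 → ‖en a.1 - en a.2 - z0‖ ≤ r) (hAB : ∀ a ∈ A, ∀ b ∈ B, r < ‖a - (b - z0)‖) :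
    ∀ R ∈ RA, ∀ S ∈ RB, F R ≠ 0 → G S ≠ 0 → ∀ z, gam C e z ≠ 0 → gam C' e' (z + en R - en S) ≠ 0 → Dj R S z := by
  intro R hR1 S hS1 h1 h2 z hz1 _
  obtain ⟨a, ha, he, haz⟩ := gam_ne_zero hz1
  have := hz a ha he
  rw [haz] at this
  exact Dj_of (hR R hR1 h1) (hS S hS1 h2) this hAB

end Pool.Agent.ROT.F3
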