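import Pool.Agent.ROT.F3Cls
import Pool.Agent.ROT.F3MidW
import Pool.Agent.ROT.F3Fin

/-!
# ROT / F3ClsW (helper43): the classes of F3Cls as classes `WCls` of the gated sums (walks), finite masses

* `wcl_of` : `WCl` from `TipC`, `RsC`; `Pre.tipC`, `Rst.rsC` : the classes of F3Cls;
* **`Pre_fin`, `Rst_fin`, `Man_fin`, `Pai_fin`** : finite masses, all weights `f` with finite values;
* **`Prm.W0 P h N`** : the class of the lattice 0 = (`T0p N`, `R0 0 P.W N`, `T0q N`), weights 1;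
  **`Prm.WR P h y y' N`** : the class of the rotated lattice = (`TRp y N`, `A0 N`, `TRq y' N`), weights 1;
* **`Prm.W0_gb`, `Prm.WR_gb`** : `Gb e th` for both classes with any functional `0 ≤ ψ ≤ 1` of the rest.
-/

set_option autoImplicit false

open MeasureTheory Filter Topology Finset
open scoped ENNReal NNReal Classical BoundedContinuousFunction

namespace Pool.Agent.ROT.F3

open Pool.Agent.NTS.Res (step pos saw fug size)
open Pool.Agent.ROT.F3E (SG SS ct Gb)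

/-! ### 1. Tips and rests -/

private lemma norm_psW (w : W3) : ∀ k : ℕ, k ≤ w.length → ‖ps w k‖ ≤ k := by
  intro k
  induction k with
  | zero =>
    intro _
    simp
  | succ k ih =>
    intro hk
    have h1 := ih (by omega)
    have hs : ps w (k + 1) = ps w k + step k (w.get ⟨k, hk⟩) := by rw [ps_succ, st_of_lt (by omega)]
    rw [hs]
    refine (norm_add_le _ _).trans ?_
    rw [Pool.Agent.PMA.LimR.norm_step']
    push_cast
    linarith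

private lemma norm_ps_one (w : W3) (h : 0 < w.length) : ‖ps w 1‖ = 1 := by
  have hs : ps w (0 + 1) = ps w 0 + step 0 (w.get ⟨0, h⟩) := by rw [ps_succ, st_of_lt h]
  rw [zero_add, ps_zero, zero_add] at hs
  rw [hs, Pool.Agent.PMA.LimR.norm_step']

lemma TipC.one_le {d : ℂ} {r : ℝ} {p : W3} (h : TipC d r p) : 1 ≤ r := by
  have h1 := h.ball 1 h.pos
  rwa [norm_ps_one p h.pos] at h1

/-- **the hypotheses of the gated sums** -/
theorem wcl_of {T Rs T' : Set W3} {d d' : ℂ} {r r' r0 r0' D : ℝ} (hT : ∀ a ∈ T, TipC d r a) (hT' : ∀ b ∈ T', TipC d' r' b)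
    (hR : ∀ R ∈ Rs, RsC d d' r0 r0' D R) (h0 : 2 * r ≤ r0) (h0' : 2 * r' ≤ r0') (hD : 1 ≤ r → 2 * (r + r') < D) :
    WCl T Rs T' where
  hT a ha := ⟨(hT a ha).ev, (hT a ha).sw⟩
  hR R h := ⟨(hR R h).ev, (hR R h).sw⟩
  hT' b hb := ⟨(hT' b hb).ev, (hT' b hb).sw⟩
  d1 a ha R h := tip_rest (hT a ha) (hR R h).s h0
  d2 b hb R h j k hj hk := tip_rest (hT' b hb) (hR R h).e h0' j k hj (by rw [List.length_reverse]; exact hk)
  d3 a ha R h b hb j k hj hk he := by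
    have h1 := (hT a ha).ball j hj.le
    have h2 := (hT' b hb).ball k hk.le
    have h3 : en R = ps a j - en a + en b - ps b k := by rw [he]; ring
    have h4 : ‖en R‖ ≤ ‖ps a j‖ + ‖en a‖ + ‖en b‖ + ‖ps b k‖ := by
      rw [h3]
      calc ‖ps a j - en a + en b - ps b k‖ ≤ ‖ps a j - en a + en b‖ + ‖ps b k‖ := norm_sub_le _ _
        _ ≤ ‖ps a j - en a‖ + ‖en b‖ + ‖ps b k‖ := by linarith [norm_add_le (ps a j - en a) (en b)]
        _ ≤ _ := by linarith [norm_sub_le (ps a j) (en a)]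
    linarith [norm_en_le (hT a ha), norm_en_le (hT' b hb), (hR R h).far, hD (hT a ha).one_le]

lemma Pre.tipC {d : ℂ} {P : Tp} {S T : ℝ} {p : W3} (h : p ∈ Pre d P S T) : TipC d ((P.r + P.r2) * S) p := by
  obtain ⟨k, hk⟩ := h
  have := hk.g.tip
  rwa [← add_mul] at this

lemma Pre.len {d : ℂ} {P : Tp} {S T : ℝ} {p : W3} (h : p ∈ Pre d P S T) : (p.length : ℝ) ≤ (P.la + P.lb) * T := by
  obtain ⟨k, hk⟩ := h
  have h1 := hk.la
  have h2 := hk.lb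
  rw [List.length_drop, Nat.cast_sub hk.g.le] at h2
  linarith

lemma RsQ.rsC {d d' : ℂ} {P Q : Tp} {W : Wn} {S T : ℝ} {R : W3} (h : RsQ d d' P Q W S T R) :
    RsC d d' (P.rg * S) (Q.rg * S) (W.D0 * S) R :=
  ⟨h.ev, h.sw, h.s.right, h.e.right, h.far⟩

/-! ### 2. Finite masses -/

section fin

variable {d d' : ℂ} {P Q : Tp} {W : Wn} {S T : ℝ}

theorem Pre_fin {f : W3 → ℝ≥0∞} (hf : ∀ w, f w ≠ ∞) : ms (Pre d P S T) f ≠ ∞ :=
  ms_fin (K := (P.r + P.r2) * S) (fun _ hw _ => ⟨(Pre.tipC hw).sw, (Pre.tipC hw).ball⟩) hf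

theorem Rst_fin {f : W3 → ℝ≥0∞} (hf : ∀ w, f w ≠ ∞) : ms (Rst d d' P Q W S T) f ≠ ∞ :=
  ms_fin (K := W.t1 * T) (fun _ hw _ => ⟨hw.sw, fun k hk => (norm_psW _ k hk).trans
    (le_trans (by exact_mod_cast hk) hw.hi)⟩) hf

theorem Man_fin {s s' : Sr} {f : W3 → ℝ≥0∞} (hf : ∀ w, f w ≠ ∞) : ms (Man d d' P Q W s s' S T) f ≠ ∞ :=
  ms_fin (K := W.t1 * T) (fun _ hw _ => ⟨hw.q.sw, fun k hk => (norm_psW _ k hk).trans
    (le_trans (by exact_mod_cast hk) hw.q.hi)⟩) hf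

theorem Pai_fin {e : W3 × W3 → ℝ≥0∞} (he : ∀ a, e a ≠ ∞) : ∑' z : ℂ, gam (Pai d d' P Q S T) e z ≠ ∞ := by
  refine gam_fin (K := max ((P.r + P.r2) * S) ((Q.r + Q.r2) * S)) (fun a ha _ => ?_) he
  obtain ⟨k1, k2, hk⟩ := ha
  have h1 : a.1 ∈ Pre d P S T := ⟨k1, hk.p1⟩
  have h2 : a.2 ∈ Pre d' Q S T := ⟨k2, hk.p2⟩
  exact ⟨⟨(Pre.tipC h1).sw, fun k hk => ((Pre.tipC h1).ball k hk).trans (le_max_left _ _)⟩, (Pre.tipC h2).sw,
    fun k hk => ((Pre.tipC h2).ball k hk).trans (le_max_right _ _)⟩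

end fin

/-! ### 3. The two classes -/

namespace Prm

variable {P : Prm}

lemma Ok.sp (h : P.Ok) : 0 ≤ P.p.n.r + P.p.n.r2 ∧ P.p.n.r + P.p.n.r2 + P.p.rk ≤ P.p.f.r ∧ 0 < P.p.rk ∧ 0 < P.p.f.r2 :=
  ⟨by linarith [h.p.n.r, h.p.n.r2], h.p.ball, h.p.rk, h.p.f.r2⟩

lemma Ok.sq (h : P.Ok) : 0 ≤ P.q.n.r + P.q.n.r2 ∧ P.q.n.r + P.q.n.r2 + P.q.rk ≤ P.q.f.r ∧ 0 < P.q.rk ∧ 0 < P.q.f.r2 :=
  ⟨by linarith [h.q.n.r, h.q.n.r2], h.q.ball, h.q.rk, h.q.f.r2⟩

/-- the two ends of the lattice 0 are far from each other -/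
lemma Ok.far0 (h : P.Ok) : 2 * (P.p.n.r + P.p.n.r2 + (P.q.n.r + P.q.n.r2)) < (P.wd P.W).D0 := by
  have h1 := h.sp
  have h2 := h.sq
  have h3 := h.far
  show _ < P.W.D0 - (P.p.k + P.q.k)
  linarith

/-- the two ends of the rotated lattice are far from each other -/
lemma Ok.farR (h : P.Ok) : 2 * (P.p.f.r + P.p.f.r2 + (P.q.f.r + P.q.f.r2)) < P.W.D0 := by
  have h1 := h.sp
  have h2 := h.sq
  have h3 := h.far
  have h4 : P.p.k = P.p.rk + P.p.f.r2 := rfl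
  have h5 : P.q.k = P.q.rk + P.q.f.r2 := rfl
  linarith

lemma R0.rsC {i : Fin 3} {W : Wn} {N : ℕ} {R : W3} (hR : R ∈ P.R0 i W N) :
    RsC (ev i) (ev (-i)) (P.p.n.rg * N) (P.q.n.rg * N) ((P.wd W).D0 * N) R := RsQ.rsC hR

lemma A0.rsC {N : ℕ} {R : W3} (hR : R ∈ P.A0 N) :
    RsC (ev 0) (ev 0) (P.p.f.rg * N) (P.q.f.rg * N) (P.W.D0 * N) R := hR.q.rsC

lemma pos_of {r : ℝ} {N : ℕ} (h : 1 ≤ r * N) : (0 : ℝ) < N := by
  rcases Nat.eq_zero_or_pos N with h0 | h0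
  · rw [h0, Nat.cast_zero, mul_zero] at h
    linarith
  · exact_mod_cast h0

theorem Ok.wcl0 (h : P.Ok) (N : ℕ) : WCl (P.T0p N) (P.R0 0 P.W N) (P.T0q N) := by
  have hN : (0 : ℝ) ≤ N := Nat.cast_nonneg N
  refine wcl_of (r0 := P.p.n.rg * N) (r0' := P.q.n.rg * N) (D := (P.wd P.W).D0 * N) (d := ev 0) (d' := ev 0)
    (fun a ha => Pre.tipC ha) (fun b hb => Pre.tipC hb) (fun R hR => by simpa using R0.rsC hR) ?_ ?_ fun h1 => ?_
  · nlinarith [h.p.n.rg]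
  · nlinarith [h.q.n.rg]
  · have h2 := pos_of h1
    have h3 := mul_lt_mul_of_pos_right h.far0 h2
    linarith

theorem Ok.wclR (h : P.Ok) (y y' : ℝ) (N : ℕ) : WCl (P.TRp y N) (P.A0 N) (P.TRq y' N) := by
  have hN : (0 : ℝ) ≤ N := Nat.cast_nonneg N
  refine wcl_of (r0 := P.p.f.rg * N) (r0' := P.q.f.rg * N) (D := P.W.D0 * N) (d := ev 0) (d' := ev 0)
    (fun a ha => Pre.tipC (P := P.p.f.up y) ha) (fun b hb => Pre.tipC (P := P.q.f.up y') hb)
    (fun R hR => A0.rsC hR) ?_ ?_ fun h1 => ?_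
  · show 2 * ((P.p.f.r + P.p.f.r2) * N) ≤ P.p.f.rg * N
    nlinarith [h.p.f.rg]
  · show 2 * ((P.q.f.r + P.q.f.r2) * N) ≤ P.q.f.rg * N
    nlinarith [h.q.f.rg]
  · have h2 := pos_of h1
    have h3 := mul_lt_mul_of_pos_right h.farR h2
    show 2 * ((P.p.f.r + P.p.f.r2) * N + (P.q.f.r + P.q.f.r2) * N) < P.W.D0 * N
    linarith

/-- **the class of the lattice 0** -/
noncomputable def W0 (P : Prm) (h : P.Ok) (N : ℕ) : WCls where
  T := P.T0p N
  Rs := P.R0 0 P.W N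
  T' := P.T0q N
  f _ := 1
  w _ := 1
  f' _ := 1
  cl := h.wcl0 N
  nf _ := zero_le_one
  nw _ := zero_le_one
  nf' _ := zero_le_one
  fT := Pre_fin fun _ => ENNReal.ofReal_ne_top
  fR := Rst_fin fun _ => ENNReal.ofReal_ne_top
  fT' := Pre_fin fun _ => ENNReal.ofReal_ne_top

/-- **the class of the rotated lattice**, thresholds `f.l + y`, `f.l + y'` -/
noncomputable def WR (P : Prm) (h : P.Ok) (y y' : ℝ) (N : ℕ) : WCls where
  T := P.TRp y N
  Rs := P.A0 N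
  T' := P.TRq y' N
  f _ := 1
  w _ := 1
  f' _ := 1
  cl := h.wclR y y' N
  nf _ := zero_le_one
  nw _ := zero_le_one
  nf' _ := zero_le_one
  fT := Pre_fin fun _ => ENNReal.ofReal_ne_top
  fR := Man_fin fun _ => ENNReal.ofReal_ne_top
  fT' := Pre_fin fun _ => ENNReal.ofReal_ne_top

end Prm

/-! ### 4. The marks of a walk are unique -/

lemma gG_ne {T Rs T' : Set W3} {f Ψ f' : W3 → ℝ} {w : W3} {i j : ℕ} (h : gG T Rs T' f Ψ f' w i j ≠ 0) :
    (i ≤ j ∧ j ≤ w.length) ∧ w.take i ∈ T ∧ seg w i j ∈ Rs ∧ (w.drop j).reverse ∈ T' := by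
  unfold gG at h
  by_contra hc
  exact h (if_neg hc)

lemma take_seg_drop (w : W3) {i j : ℕ} (hij : i ≤ j) : w.take i ++ (seg w i j ++ (w.drop j).reverse.reverse) = w := by
  unfold seg
  rw [List.reverse_reverse]
  have h1 : w.drop j = (w.drop i).drop (j - i) := by
    rw [List.drop_drop]
    congr 1
    omega
  rw [h1, List.take_append_drop, List.take_append_drop]

/-- **`Gb` from the uniqueness of the marks** -/
theorem gb_of {T Rs T' : Set W3} {f Ψ f' : W3 → ℝ} {e th A B : ℝ} {N : ℕ} (hf : ∀ a, 0 ≤ f a) (hΨ : ∀ a, 0 ≤ Ψ a)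
    (hf' : ∀ a, 0 ≤ f' a) (f1 : ∀ a, f a ≤ 1) (Ψ1 : ∀ a, Ψ a ≤ 1) (f'1 : ∀ a, f' a ≤ 1)
    (hT : ∀ a ∈ T, Even a.length ∧ (a.length : ℝ) ≤ A) (hT' : ∀ b ∈ T', (b.length : ℝ) ≤ B) (hA : A ≤ e * th * N)
    (hB : B ≤ e * th * N)
    (hu : ∀ a ∈ T, ∀ a' ∈ T, ∀ R ∈ Rs, ∀ R' ∈ Rs, ∀ b ∈ T', ∀ b' ∈ T', a ++ (R ++ b.reverse) = a' ++ (R' ++ b'.reverse) →
      a = a' ∧ R = R' ∧ b = b') : Gb e th (gG T Rs T' f Ψ f') N where
  nn w i j := by
    unfold gG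
    split_ifs
    · exact mul_nonneg (hf _) (mul_nonneg (hΨ _) (hf' _))
    · exact le_rfl
  supp w i j _ h := by
    obtain ⟨⟨h1, h2⟩, h3, -, h5⟩ := gG_ne h
    have e1 : (w.take i).length = i := by rw [List.length_take]; omega
    have e2 : (((w.drop j).reverse).length : ℝ) = (w.length : ℝ) - j := by
      rw [List.length_reverse, List.length_drop, Nat.cast_sub h2]
    have h6 := hT _ h3
    have h7 := hT' _ h5
    rw [e1] at h6
    rw [e2] at h7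
    exact ⟨h6.1, h1, h2, h6.2.trans hA, h7.trans hB⟩
  one w _ := by
    unfold F3E.Gam
    have hle : ∀ i j, gG T Rs T' f Ψ f' w i j ≤ 1 := by
      intro i j
      unfold gG
      split_ifs
      · refine mul_le_one₀ (f1 _) (mul_nonneg (hΨ _) (hf' _)) (mul_le_one₀ (Ψ1 _) (hf' _) (f'1 _))
      · exact zero_le_one
    by_cases hex : ∃ i j, gG T Rs T' f Ψ f' w i j ≠ 0
    · obtain ⟨i0, j0, h0⟩ := hex
      have hun : ∀ i j, gG T Rs T' f Ψ f' w i j ≠ 0 → i = i0 ∧ j = j0 := by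
        intro i j h
        obtain ⟨⟨h1, h2⟩, h3, h4, h5⟩ := gG_ne h
        obtain ⟨⟨k1, k2⟩, k3, k4, k5⟩ := gG_ne h0
        obtain ⟨e1, -, e3⟩ := hu _ h3 _ k3 _ h4 _ k4 _ h5 _ k5 (by rw [take_seg_drop w h1, take_seg_drop w k1])
        have e4 := congrArg List.length e1
        have e5 := congrArg List.length e3
        rw [List.length_take, List.length_take] at e4
        rw [List.length_reverse, List.length_reverse, List.length_drop, List.length_drop] at e5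
        constructor <;> omega
      have h1 : ∀ i ∈ range (w.length + 1), ∑ j ∈ range (w.length + 1), gG T Rs T' f Ψ f' w i j ≤ if i = i0 then 1 else 0 := by
        intro i _
        by_cases hi : i = i0
        · rw [if_pos hi]
          calc ∑ j ∈ range (w.length + 1), gG T Rs T' f Ψ f' w i j ≤ ∑ j ∈ range (w.length + 1), if j = j0 then 1 else 0 := by
                refine sum_le_sum fun j _ => ?_
                by_cases hj : j = j0
                · rw [if_pos hj]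
                  exact hle _ _
                · rw [if_neg hj]
                  by_contra hc
                  exact hj (hun i j fun h => hc (by rw [h])).2
            _ ≤ 1 := by
                rw [sum_ite_eq']
                split_ifs <;> norm_num
        · rw [if_neg hi]
          refine (sum_eq_zero fun j _ => ?_).le
          by_contra hc
          exact hi (hun i j hc).1
      refine (sum_le_sum h1).trans ?_
      rw [sum_ite_eq']
      split_ifs <;> norm_num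
    · push Not at hex
      rw [sum_eq_zero fun i _ => sum_eq_zero fun j _ => hex i j]
      exact zero_le_one

/-- the marks of a walk, classes of F3Cls -/
theorem pre_uniq {d d' : ℂ} {P Q : Tp} {S T D r0 r0' : ℝ} {p p' R R' q q' : W3} (hp : p ∈ Pre d P S T) (hp' : p' ∈ Pre d P S T)
    (hq : q ∈ Pre d' Q S T) (hq' : q' ∈ Pre d' Q S T) (hR : RsC d d' r0 r0' D R) (hR' : RsC d d' r0 r0' D R')
    (h0 : 2 * ((P.r + P.r2) * S) ≤ r0) (h0' : 2 * ((Q.r + Q.r2) * S) ≤ r0') (hD : 2 * ((P.r + P.r2) * S) < D)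
    (hD' : 2 * ((Q.r + Q.r2) * S) < D) (h : p ++ (R ++ q.reverse) = p' ++ (R' ++ q'.reverse)) : p = p' ∧ R = R' ∧ q = q' := by
  obtain ⟨k, hk⟩ := hp
  obtain ⟨k', hk'⟩ := hp'
  obtain ⟨j, hj⟩ := hq
  obtain ⟨j', hj'⟩ := hq'
  obtain ⟨⟨e1, -⟩, e2, e3, -⟩ := dmarks_walk hk.g hk'.g hj.g hj'.g hR hR' (by linarith) (by linarith) (by linarith)
    (by linarith) h
  exact ⟨e1, e2, e3⟩

namespace Prm

variable {P : Prm}

theorem Ok.uniq0 (h : P.Ok) (N : ℕ) : ∀ a ∈ P.T0p N, ∀ a' ∈ P.T0p N, ∀ R ∈ P.R0 0 P.W N, ∀ R' ∈ P.R0 0 P.W N, ∀ b ∈ P.T0q N,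
    ∀ b' ∈ P.T0q N, a ++ (R ++ b.reverse) = a' ++ (R' ++ b'.reverse) → a = a' ∧ R = R' ∧ b = b' := by
  intro a ha a' ha' R hR R' hR' b hb b' hb' he
  have hN : (0 : ℝ) < N := pos_of (Pre.tipC ha).one_le
  have h3 := mul_lt_mul_of_pos_right h.far0 hN
  have h4 := mul_le_mul_of_nonneg_right h.sp.1 hN.le
  have h5 := mul_le_mul_of_nonneg_right h.sq.1 hN.le
  refine pre_uniq (S := N) (d := ev 0) (d' := ev 0) ha ha' hb hb' (by simpa using R0.rsC hR) (by simpa using R0.rsC hR') ?_ ?_ ?_ ?_ he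
  · nlinarith [h.p.n.rg]
  · nlinarith [h.q.n.rg]
  · linarith
  · linarith

theorem Ok.uniqR (h : P.Ok) (y y' : ℝ) (N : ℕ) : ∀ a ∈ P.TRp y N, ∀ a' ∈ P.TRp y N, ∀ R ∈ P.A0 N, ∀ R' ∈ P.A0 N,
    ∀ b ∈ P.TRq y' N, ∀ b' ∈ P.TRq y' N, a ++ (R ++ b.reverse) = a' ++ (R' ++ b'.reverse) → a = a' ∧ R = R' ∧ b = b' := by
  intro a ha a' ha' R hR R' hR' b hb b' hb' he
  have hN : (0 : ℝ) < N := pos_of (Pre.tipC (P := P.p.f.up y) ha).one_le
  have h3 := mul_lt_mul_of_pos_right h.farR hN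
  have h4 : 0 < (P.p.f.r + P.p.f.r2) * N := mul_pos (by linarith [h.p.f.r, h.p.f.r2]) hN
  have h5 : 0 < (P.q.f.r + P.q.f.r2) * N := mul_pos (by linarith [h.q.f.r, h.q.f.r2]) hN
  refine pre_uniq (S := N) (d := ev 0) (d' := ev 0) (P := P.p.f.up y) (Q := P.q.f.up y') ha ha' hb hb' (A0.rsC hR) (A0.rsC hR')
    ?_ ?_ ?_ ?_ he
  · show 2 * ((P.p.f.r + P.p.f.r2) * N) ≤ P.p.f.rg * N
    nlinarith [h.p.f.rg]
  · show 2 * ((P.q.f.r + P.q.f.r2) * N) ≤ P.q.f.rg * N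
    nlinarith [h.q.f.rg]
  · show 2 * ((P.p.f.r + P.p.f.r2) * N) < P.W.D0 * N
    linarith
  · show 2 * ((P.q.f.r + P.q.f.r2) * N) < P.W.D0 * N
    linarith

/-- **`Gb` for the lattice 0**, `M` = number of letters of the middle piece -/
theorem W0_gb (h : P.Ok) {ψ : CI3 × ℝ → ℝ} (ψ0 : ∀ x, 0 ≤ ψ x) (ψ1 : ∀ x, ψ x ≤ 1) {e th : ℝ} {N M : ℕ}
    (hp : (P.p.n.la + P.p.n.lb) * uT N ≤ e * th * M) (hq : (P.q.n.la + P.q.n.lb) * uT N ≤ e * th * M) :
    Gb e th ((P.W0 h N).G M ψ) M :=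
  gb_of (fun _ => zero_le_one) (fun _ => mul_nonneg zero_le_one (ψ0 _)) (fun _ => zero_le_one) (fun _ => le_rfl)
    (fun _ => by show 1 * ψ _ ≤ 1; rw [one_mul]; exact ψ1 _) (fun _ => le_rfl)
    (fun a ha => ⟨(Pre.tipC ha).ev, Pre.len ha⟩) (fun b hb => Pre.len hb) hp hq (h.uniq0 N)

/-- **`Gb` for the rotated lattice**, `M` = number of letters of the middle piece -/
theorem WR_gb (h : P.Ok) (y y' : ℝ) {ψ : CI3 × ℝ → ℝ} (ψ0 : ∀ x, 0 ≤ ψ x) (ψ1 : ∀ x, ψ x ≤ 1) {e th : ℝ} {N M : ℕ}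
    (hp : (P.p.f.la + P.p.f.lb) * uT N ≤ e * th * M) (hq : (P.q.f.la + P.q.f.lb) * uT N ≤ e * th * M) :
    Gb e th ((P.WR h y y' N).G M ψ) M :=
  gb_of (fun _ => zero_le_one) (fun _ => mul_nonneg zero_le_one (ψ0 _)) (fun _ => zero_le_one) (fun _ => le_rfl)
    (fun _ => by show 1 * ψ _ ≤ 1; rw [one_mul]; exact ψ1 _) (fun _ => le_rfl)
    (fun a ha => ⟨(Pre.tipC (P := P.p.f.up y) ha).ev, Pre.len (P := P.p.f.up y) ha⟩)
    (fun b hb => Pre.len (P := P.q.f.up y') hb) hp hq (h.uniqR y y' N)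

end Prm

end Pool.Agent.ROT.F3
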