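import Pool.Agent.ROT.FLam
import Pool.Agent.NPR.FinPub

/-!
# ROT, block F1, assembly (helper5): the rows of the assembly

* `IsL r M0 φ P` : `P` is the limit of the measures `Pme` along the odd numbers `φ`, lattice scale `Nm (φ k)`;
* `Tk` : the trace up to translations; `Fbar` : the mean over the roots and the directions;
* **`A1`** : existence; **`A2`** : the law of the trace is rotation invariant; **`A3`** : simple loops, positive times;
  **`A4`** : the clock; **`A5`** : invariance of the curves; **`A6`** : localisation at the time 1.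
-/

set_option autoImplicit false

open MeasureTheory Filter Topology Set

open scoped Classical

namespace Pool.Agent.ROT.F

open Pool.Agent.NTS.Res Pool.Agent.PMA Pool.Agent.PMA.Res

open Pool.Agent.NPR (tr nb vb)

/-- the lattice scale of the polygons with `m` steps -/
noncomputable def Nm (m : ℕ) : ℕ := ⌊size m⌋₊

/-- the limits -/
structure IsL (r M0 : ℝ) (φ : ℕ → ℕ) (P : Measure XX) : Prop where
  rp : 0 < r
  Mp : 0 < M0
  mss : ∀ᶠ N in atTop, Mss N r ≤ M0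
  top : Tendsto φ atTop atTop
  odd : ∀ k, Odd (φ k)
  prob : IsProbabilityMeasure P
  lim : ∀ f : BoundedContinuousFunction XX ℝ,
    Tendsto (fun k => ∫ x, f x ∂(Pme M0 (Nm (φ k)) (φ k) r)) atTop (𝓝 (∫ x, f x ∂P))

/-- the lower left corner -/
noncomputable def cnr (K : TopologicalSpace.NonemptyCompacts ℂ) : ℂ :=
  ⟨sInf (Complex.re '' (K : Set ℂ)), sInf (Complex.im '' (K : Set ℂ))⟩

/-- the trace up to translations -/
noncomputable def Tk (γ : C(unitInterval, ℂ)) : TopologicalSpace.NonemptyCompacts ℂ :=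
  tr (γ - ContinuousMap.const _ (cnr (tr γ)))

/-- the mean over the roots and the directions -/
noncomputable def Fbar (F : C(unitInterval, ℂ) → ℝ) (γ : C(unitInterval, ℂ)) : ℝ :=
  ∫ s in (0 : ℝ)..1, (F (PMA.rot s γ) + F (PMA.rot s (rv γ))) / 2

/-- **(A1)** existence of the limits -/
def A1 : Prop := ∀ (r : ℝ) (φ : ℕ → ℕ), 0 < r → Tendsto φ atTop atTop → (∀ k, Odd (φ k)) →
  ∃ (M0 : ℝ) (ψ : ℕ → ℕ) (P : Measure XX), StrictMono ψ ∧ IsL r M0 (fun k => φ (ψ k)) P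

/-- **(A2)** the law of the trace up to translations is rotation invariant -/
def A2 : Prop := ∀ (r M0 : ℝ) (φ : ℕ → ℕ) (P : Measure XX), IsL r M0 φ P → ∀ z : ℂ, ‖z‖ = 1 →
  P.map (fun x : XX => Tk (z • x.2)) = P.map fun x : XX => Tk x.2

/-- **(A3)** simple loops, positive times -/
def A3 : Prop := ∀ (r M0 : ℝ) (φ : ℕ → ℕ) (P : Measure XX), IsL r M0 φ P → ∀ᵐ x ∂P, x = at0 ∨ (0 < x.1 ∧ SL x.2)

/-- **(A4)** the clock -/
def A4 : Prop := ∀ (r M0 : ℝ) (φ : ℕ → ℕ) (P : Measure XX), IsL r M0 φ P →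
  ∃ h : ℕ → ℝ, ∀ᵐ x ∂P, 0 < x.1 → ClkG h x.1 x.2

/-- **(A5)** invariance of the curves up to root and direction -/
def A5 : Prop := ∀ (P : Measure XX), IsProbabilityMeasure P →
  (∀ z : ℂ, ‖z‖ = 1 → P.map (fun x : XX => Tk (z • x.2)) = P.map fun x : XX => Tk x.2) →
  (∀ᵐ x ∂P, x = at0 ∨ (0 < x.1 ∧ SL x.2)) → (∃ h : ℕ → ℝ, ∀ᵐ x ∂P, 0 < x.1 → ClkG h x.1 x.2) →
  ∀ G : ℝ → ℝ, Continuous G → (∀ t, 0 ≤ G t ∧ G t ≤ 1) → (∀ t, t ≤ 0 → G t = 0) →
  ∀ F : C(unitInterval, ℂ) → ℝ, (∀ γ, |F γ| ≤ 1) → LipschitzWith 1 F → ∀ z : ℂ, ‖z‖ = 1 →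
    ∫ x, G x.1 * Fbar F (z • x.2) ∂P = ∫ x, G x.1 * Fbar F x.2 ∂P

/-- **(A6)** localisation at the time 1 -/
def A6 : Prop := ∀ (r M0 : ℝ) (φ : ℕ → ℕ) (P : Measure XX), IsL r M0 φ P → ∀ π : ProbabilityMeasure C(unitInterval, ℂ),
  PolTo φ (π : Measure C(unitInterval, ℂ)) → ∀ ε : ℝ, 0 < ε → ∃ (G : ℝ → ℝ) (A : ℝ), Continuous G ∧
    (∀ t, 0 ≤ G t ∧ G t ≤ 1) ∧ (∀ t, t ≤ 0 → G t = 0) ∧ 0 < A ∧
    ∀ F : C(unitInterval, ℂ) → ℝ, (∀ γ, |F γ| ≤ 1) → LipschitzWith 4 F →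
      |∫ x, G x.1 * F x.2 ∂P - A * ∫ γ, chi r (dm γ) * ((F γ + F (-γ)) / 2) ∂(π : Measure C(unitInterval, ℂ))| ≤ ε * A

end Pool.Agent.ROT.F
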