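import Pool.Agent.ROT.F3AppZ
import Pool.Agent.ROT.F3ClsW
import Pool.Agent.ROT.FSt

/-!
# ROT, F3, row R11 (helper51): the field `app` for the class of the lattice 0

* `tipB_W0` : the marks of the class `Prm.W0` are in small balls;
* **`app_W0`** : the field `app` of `TopD` for `C N = P.W0 h (Nm N)`, all data `P` with small tips at once.
-/

set_option autoImplicit false

noncomputable section

open MeasureTheory Filter Topology Set
open scoped ENNReal NNReal BoundedContinuousFunction Classical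

namespace Pool.Agent.ROT.F3E

open Pool.Agent.NTS.Res Pool.Agent.CRT Pool.Agent.ROT.F3 Pool.Agent.ROT.F3.CC
open Pool.Agent.ROT.F (Nm)

/-- the marks of the class of the lattice 0 -/
theorem tipB_W0 {P : Prm} (h : P.Ok) {ψ : CI3 × ℝ → ℝ} {κ : ℝ} {N M : ℕ} (hp : (P.p.n.r + P.p.n.r2) * N ≤ κ * size M)
    (hq : (P.q.n.r + P.q.n.r2) * N ≤ κ * size M) : TipB κ ((P.W0 h N).G M ψ) M := by
  intro w i j _ hne
  obtain ⟨⟨h1, h2⟩, h3, h4, h5⟩ := gG_ne hne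
  have t3 := Pre.tipC h3
  have t5 := Pre.tipC h5
  have e1 : (w.take i).length = i := by
    rw [List.length_take]
    omega
  have e2 : (w.drop j).length = w.length - j := by rw [List.length_drop]
  have ev : Even i := by
    have := t3.ev
    rwa [e1] at this
  have ev' : Even (w.drop j).length := by
    have := t5.ev
    rwa [List.length_reverse] at this
  refine ⟨ev, h1, h2, ?_, ?_⟩
  · have := t3.ball i (by rw [e1])
    rw [ps_take w le_rfl (h1.trans h2)] at this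
    exact this.trans hp
  · have hs := ((h.wcl0 N).hR _ h4).1
    rw [seg_lenW w h2] at hs
    have ej : Even j := by
      have := ev.add hs
      rwa [Nat.add_sub_cancel' h1] at this
    have e3 : en (w.drop j) = en w - ps w j := by
      rw [en, ps_append_drop w h2 ej, e2, Nat.add_sub_cancel' h2, en]
    have := t5.ball _ le_rfl
    rw [← en, en_reverse ev', norm_neg, e3, norm_sub_rev] at this
    exact this.trans hq

/-- **the field `app` for the class of the lattice 0**: `κ`, `D` first, then all data with small tips -/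
theorem app_W0 {th p1 p2 τ ε0 : ℝ} (hth : 0 < th) (h16 : th ≤ 1 / 16) (hp1 : 0 < p1) (hp2 : 0 < p2) (hτ : 0 < τ)
    (hτ2 : τ < 1 / 2) (hε0 : 0 < ε0) : ∃ κ D : ℝ, 0 < κ ∧ 0 < D ∧ ∀ (e : ℝ), e ≤ 1 → ∀ (U : Filter ℕ) [U.NeBot], U ≤ atTop →
      ∀ (P : Prm) (h : P.Ok), P.p.n.r + P.p.n.r2 ≤ κ → P.q.n.r + P.q.n.r2 ≤ κ →
      ∀ (c : ℕ → ℝ≥0∞) (m : Measure (CI3 × ℝ)) [IsFiniteMeasure m], LimC p1 e th U (fun N => P.W0 h (Nm N)) c m →
      0 < ∫ x, ct th x.2 ∂m → ∀ S : Set (CI3 × ℝ), p2 * ∫ x, ct th x.2 ∂m ≤ ∫ x in S, ct th x.2 ∂m →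
      ∀ (F : CI3 → ℝ), (∀ (K : ℝ≥0) (Fp Fq : CI3 → ℝ) (cp : Continuous Fp) (cq : Continuous Fq)
        (ep : ∀ y, 0 ≤ Fp y ∧ Fp y ≤ 1) (eq : ∀ y, 0 ≤ Fq y ∧ Fq y ≤ 1), LipschitzWith K Fp → LipschitzWith K Fq →
        ∀ᶠ N in U, Gm e th F ((P.W0 h (Nm N)).G N (psB τ (1 / 2) one_half_pos Fp Fq cp cq ep eq)) N) →
      ∀ (Y : Type) [MeasurableSpace Y] [StandardBorelSpace Y] (Q : Measure Y) (w : Y → ℝ≥0∞) (r : Y → CI3 × ℝ)
        (T : Set (CI3 × ℝ)) (Fp Fq G : Set Y) (R0 bn bn' : ℝ) (A A' : Set ℂ),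
        AppI Q w r m S T Fp Fq G R0 κ D bn bn' A A' →
      ∃ ψs : (CI3 × ℝ) →ᵇ ℝ, (∀ x, 0 ≤ ψs x) ∧ (∀ x, ψs x ≤ 1) ∧
        ∫ x, |ψs x - S.indicator (fun _ => (1 : ℝ)) x| * ct (4 * th) x.2 ∂m ≤ ε0 * ∫ x in S, ct th x.2 ∂m ∧
        ∀ᶠ N in U, Gm e th F ((P.W0 h (Nm N)).G N ψs) N := by
  obtain ⟨κ, D, hκ, hD, H⟩ := bad_lim hth h16 hp1 hp2 hτ (show 0 < ε0 / 8 by positivity)
  refine ⟨κ, D, hκ, hD, fun e he U _ hU P h hp hq c m _ hL hpos S hS F gm Y _ _ Q w r T Fp Fq G R0 bn bn' A A' I => ?_⟩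
  have hB : ∀ᶠ N in U, TipB κ ((P.W0 h (Nm N)).G N fun _ => 1) N := by
    filter_upwards [hU (size_ev 1)] with N hN
    have h1 : ((Nm N : ℕ) : ℝ) ≤ size N := Nat.floor_le (by linarith)
    have h2 : (0 : ℝ) ≤ (Nm N : ℕ) := Nat.cast_nonneg _
    exact tipB_W0 h (mul_le_mul hp h1 h2 hκ.le) (mul_le_mul hq h1 h2 hκ.le)
  obtain ⟨b1, b2, b3⟩ := H e he U hU _ c m hL hB S hS
  exact app_top I hth h16 hτ hτ2 hε0 ((mul_pos hp2 hpos).trans_le hS) b1 b2 b3 gm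

end Pool.Agent.ROT.F3E

end
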