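import Pool.Agent.ROT.F3Rows
import Pool.Agent.ROT.F3AppI

/-!
# ROT, F3 (B) (helper12): the locality `LocD` of the foreign gates in natural units, and the row APP from it

* `LocI` : helper51's `AppI` in natural units, windows of displacements `[κ, Dm]` and of durations `[a, b]`; **`LocI.app`** : `AppI`;
* **`LocN`**, **`LocD P m D`** : the locality of the foreign gates (helper51's literal), windows `WinR P`;
* `GmRow` : mixing of the native gates of the lattice 0 with local Lipschitz functionals;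
* **`appRow_of : GmRow → AppRow LocD`**.
-/

set_option autoImplicit false

open MeasureTheory Filter Topology Finset
open scoped ENNReal NNReal BoundedContinuousFunction

namespace Pool.Agent.ROT.F3E

open Pool.Agent.NTS.Res Pool.Agent.CRT Pool.Agent.ROT.F3 Pool.Agent.ROT.F3.CC Pool.Agent.ROT.F3.Bt
open Pool.Agent.ROT.F (Nm nm_bd nm_ratio nm_top)

/-- **what the limit objects have to give**, natural units. `Pm`, `G` : law of the closed curves and a set of full measure; `w` :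
weight of the native class of the pair; `r` : the rest of the strand 0; `Fp`, `Fq` : the foreign gates of this rest at the start (at
the end) exist with all the conditions at this end; `S` : the class `D` of the rests; `T` : rests with companions; `R0` : radius of
locality; windows: displacement in `[κ, Dm]`, durations in `[a, b]`. -/
structure LocI {Y : Type} [MeasurableSpace Y] (Pm : Measure Y) (w : Y → ℝ≥0∞) (r : Y → Pie) (m : Measure Pie)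
    (S T : Set Pie) (Fp Fq G : Set Y) (R0 κ Dm a b bn bn' : ℝ) (A A' : Set ℂ) : Prop where
  fP : IsFiniteMeasure (Pm.withDensity w)
  sP : SFinite Pm
  mw : Measurable w
  mr : Measurable r
  mFp : MeasurableSet Fp
  mFq : MeasurableSet Fq
  mS : MeasurableSet S
  mT : MeasurableSet T
  hG : ∀ᵐ g ∂Pm, g ∈ G
  ac : m.restrict T ≪ (Pm.withDensity w).map r
  ST : ∀ᵐ x ∂m, x ∈ S → x ∈ T
  z0 : ∀ g ∈ G, w g ≠ 0 → (r g).1 0 = 0
  R0κ : R0 ≤ κ
  far : ∀ g ∈ G, w g ≠ 0 → R0 ≤ ‖(r g).1 1‖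
  s1 : ∀ᵐ g ∂Pm, w g ≠ 0 → r g ∈ S → g ∈ Fp ∧ g ∈ Fq
  s2 : ∀ᵐ g ∂Pm, w g ≠ 0 → g ∈ Fp → g ∈ Fq → a ≤ (r g).2 → (r g).2 ≤ b → κ ≤ ‖(r g).1 1‖ → ‖(r g).1 1‖ ≤ Dm → r g ∈ S
  lp : ∀ g ∈ G, ∀ g' ∈ G, w g ≠ 0 → w g' ≠ 0 → ∀ e e' : unitInterval, pcut (r g) 0 e = pcut (r g') 0 e' →
    (∀ t : unitInterval, e ≤ t → R0 ≤ ‖(r g).1 t‖) → (∀ t : unitInterval, e' ≤ t → R0 ≤ ‖(r g').1 t‖) → g ∈ Fp → g' ∈ Fp
  lq : ∀ g ∈ G, ∀ g' ∈ G, w g ≠ 0 → w g' ≠ 0 → ∀ e e' : unitInterval, pcut (r g) 1 e = pcut (r g') 1 e' →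
    (∀ t : unitInterval, t ≤ e → R0 ≤ ‖(r g).1 t - (r g).1 1‖) → (∀ t : unitInterval, t ≤ e' → R0 ≤ ‖(r g').1 t - (r g').1 1‖) →
      g ∈ Fq → g' ∈ Fq
  hb : bn ≤ κ
  hb' : bn' ≤ κ
  hp : ∀ g ∈ G, w g ≠ 0 → g ∈ Fp → (r g).1 ∈ HPc A bn
  hq : ∀ g ∈ G, w g ≠ 0 → g ∈ Fq → rvc (r g).1 ∈ HPc A' bn'
  comp : ∀ᵐ x ∂m, x.1 ∈ HPc A bn → rvc x.1 ∈ HPc A' bn' → a ≤ x.2 → x.2 ≤ b → κ ≤ ‖x.1 1‖ → ‖x.1 1‖ ≤ Dm → x ∈ T

section

variable {Y : Type} [MeasurableSpace Y] {Pm : Measure Y} {w : Y → ℝ≥0∞} {r : Y → Pie} {m : Measure Pie} {S T : Set Pie}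
  {Fp Fq G : Set Y} {R0 κ Dm a b bn bn' : ℝ} {A A' : Set ℂ}

lemma ut_fst (k : ℝ) (x : Pie) : (ut k x).1 = x.1 := by rw [ut_apply]

lemma ut_snd (k : ℝ) (x : Pie) : (ut k x).2 = k * x.2 := by rw [ut_apply]

lemma ut_pre {k : ℝ} (hk : k ≠ 0) (T : Set Pie) (x : Pie) : ut k x ∈ ut k⁻¹ ⁻¹' T ↔ x ∈ T := by
  rw [Set.mem_preimage, ut_inv hk]

lemma pcut_ut_eq {k : ℝ} (hk : k ≠ 0) {x y : Pie} {s t s' t' : ℝ} :
    pcut (ut k x) s t = pcut (ut k y) s' t' ↔ pcut x s t = pcut y s' t' := by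
  rw [pcut_ut, pcut_ut]
  constructor
  · intro h
    have := congrArg (ut k⁻¹) h
    rwa [ut_inv hk, ut_inv hk] at this
  · intro h
    rw [h]

/-- the unit of time `k` : durations in `[1 / 2, 2]` of the new unit -/
theorem LocI.app {k : ℝ} (hk : 0 < k) (ha : k * a ≤ 1 / 2) (hb : 2 ≤ k * b)
    (I : LocI Pm w r m S T Fp Fq G R0 κ Dm a b bn bn' A A') :
    AppI Pm w (fun g => ut k (r g)) (m.map (ut k)) (ut k⁻¹ ⁻¹' S) (ut k⁻¹ ⁻¹' T) Fp Fq G R0 κ Dm bn bn' A A' where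
  fP := I.fP
  sP := I.sP
  mw := I.mw
  mr := (ut_cont k).measurable.comp I.mr
  mFp := I.mFp
  mFq := I.mFq
  mS := (ut_cont k⁻¹).measurable I.mS
  mT := (ut_cont k⁻¹).measurable I.mT
  hG := I.hG
  ac := by
    have e1 : (m.map (ut k)).restrict (ut k⁻¹ ⁻¹' T) = (m.restrict T).map (ut k) := by
      rw [Measure.restrict_map (ut_cont k).measurable ((ut_cont k⁻¹).measurable I.mT)]
      congr 2
      ext x
      rw [Set.mem_preimage, ut_pre hk.ne']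
    have e2 : (Pm.withDensity w).map (fun g => ut k (r g)) = ((Pm.withDensity w).map r).map (ut k) := by
      rw [Measure.map_map (ut_cont k).measurable I.mr]
      rfl
    rw [e1, e2]
    exact I.ac.map (ut_cont k).measurable
  ST := ae_ut hk.ne' (I.ST.mono fun x hx => by
    rw [ut_pre hk.ne', ut_pre hk.ne']
    exact hx)
  z0 g hg hw := by
    rw [ut_fst]
    exact I.z0 g hg hw
  R0κ := I.R0κ
  far g hg hw := by
    rw [ut_fst]
    exact I.far g hg hw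
  s1 := I.s1.mono fun g h hw hS => h hw ((ut_pre hk.ne' S _).1 hS)
  s2 := I.s2.mono fun g h hw h1 h2 h3 h4 h5 h6 => by
    rw [ut_snd] at h3 h4
    rw [ut_fst] at h5 h6
    refine (ut_pre hk.ne' S _).2 (h hw h1 h2 ?_ ?_ h5 h6)
    · exact le_of_mul_le_mul_left (ha.trans h3) hk
    · exact le_of_mul_le_mul_left (h4.trans hb) hk
  lp g hg g' hg' hw hw' e e' he h1 h2 := by
    simp only [ut_fst] at h1 h2
    exact I.lp g hg g' hg' hw hw' e e' ((pcut_ut_eq hk.ne').1 he) h1 h2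
  lq g hg g' hg' hw hw' e e' he h1 h2 := by
    simp only [ut_fst] at h1 h2
    exact I.lq g hg g' hg' hw hw' e e' ((pcut_ut_eq hk.ne').1 he) h1 h2
  hb := I.hb
  hb' := I.hb'
  hp g hg hw hF := by
    rw [ut_fst]
    exact I.hp g hg hw hF
  hq g hg hw hF := by
    rw [ut_fst]
    exact I.hq g hg hw hF
  comp := ae_ut hk.ne' (I.comp.mono fun x h h1 h2 h3 h4 h5 h6 => by
    rw [ut_snd] at h3 h4
    rw [ut_fst] at h1 h2 h5 h6
    refine (ut_pre hk.ne' T _).2 (h h1 h2 ?_ ?_ h5 h6)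
    · exact le_of_mul_le_mul_left (ha.trans h3) hk
    · exact le_of_mul_le_mul_left (h4.trans hb) hk)

end

/-- the windows: displacement and duration of a rest whose arc is in the windows of `P` -/
def WinR (P : Prm) (x : Pie) : Prop := P.W.D0 + (P.p.k + P.q.k) ≤ ‖x.1 1‖ ∧ ‖x.1 1‖ ≤ P.W.D1 - (P.p.k + P.q.k) ∧
  P.W.t0 + (P.p.lk + P.q.lk) ≤ x.2 ∧ x.2 ≤ P.W.t1

/-- **what the limit objects have to give**, natural units. `Q`, `G` : law of the closed curves and a set of full measure; `w` :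
weight of the native class of the pair; `r` : the rest of the strand 0; `Fp`, `Fq` : the foreign gates of this rest at the start (at
the end) exist with all the conditions at this end; `D` : the class of the rests with the foreign gates; `T` : rests with companions;
`R0` : radius of locality. -/
structure LocN (P : Prm) {Y : Type} [MeasurableSpace Y] (Q : Measure Y) (w : Y → ℝ≥0∞) (r : Y → Pie) (m : Measure Pie)
    (D T : Set Pie) (Fp Fq G : Set Y) (R0 bn bn' : ℝ) (A A' : Set ℂ) : Prop where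
  fP : IsFiniteMeasure (Q.withDensity w)
  sP : SFinite Q
  mw : Measurable w
  mr : Measurable r
  mFp : MeasurableSet Fp
  mFq : MeasurableSet Fq
  mT : MeasurableSet T
  hG : ∀ᵐ g ∂Q, g ∈ G
  /-- every rest with companions comes from a closed curve -/
  ac : m.restrict T ≪ (Q.withDensity w).map r
  ST : ∀ᵐ x ∂m, x ∈ D → x ∈ T
  z0 : ∀ g ∈ G, w g ≠ 0 → (r g).1 0 = 0
  R0D : R0 ≤ P.W.D0
  hb : bn ≤ P.W.D0
  hb' : bn' ≤ P.W.D0
  far : ∀ g ∈ G, w g ≠ 0 → R0 ≤ ‖(r g).1 1‖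
  s1 : ∀ᵐ g ∂Q, w g ≠ 0 → r g ∈ D → g ∈ Fp ∧ g ∈ Fq
  s2 : ∀ᵐ g ∂Q, w g ≠ 0 → g ∈ Fp → g ∈ Fq → WinR P (r g) → r g ∈ D
  /-- **locality of the foreign gates at the start** -/
  lp : ∀ g ∈ G, ∀ g' ∈ G, w g ≠ 0 → w g' ≠ 0 → ∀ e e' : unitInterval, pcut (r g) 0 e = pcut (r g') 0 e' →
    (∀ t : unitInterval, e ≤ t → R0 ≤ ‖(r g).1 t‖) → (∀ t : unitInterval, e' ≤ t → R0 ≤ ‖(r g').1 t‖) → g ∈ Fp → g' ∈ Fp
  /-- locality at the end -/
  lq : ∀ g ∈ G, ∀ g' ∈ G, w g ≠ 0 → w g' ≠ 0 → ∀ e e' : unitInterval, pcut (r g) 1 e = pcut (r g') 1 e' →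
    (∀ t : unitInterval, t ≤ e → R0 ≤ ‖(r g).1 t - (r g).1 1‖) → (∀ t : unitInterval, t ≤ e' → R0 ≤ ‖(r g').1 t - (r g').1 1‖) →
      g ∈ Fq → g' ∈ Fq
  hp : ∀ g ∈ G, w g ≠ 0 → g ∈ Fp → (r g).1 ∈ HPc A bn
  hq : ∀ g ∈ G, w g ≠ 0 → g ∈ Fq → rvc (r g).1 ∈ HPc A' bn'
  /-- **existence of companions** -/
  comp : ∀ᵐ x ∂m, x.1 ∈ HPc A bn → rvc x.1 ∈ HPc A' bn' → WinR P x → x ∈ T

/-- **the locality of the foreign gates** -/
def LocD (P : Prm) (m : Measure Pie) (D : Set Pie) : Prop :=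
  ∃ (Y : Type) (_ : MeasurableSpace Y) (_ : StandardBorelSpace Y) (Q : Measure Y) (w : Y → ℝ≥0∞) (r : Y → Pie) (T : Set Pie)
    (Fp Fq G : Set Y) (R0 bn bn' : ℝ) (A A' : Set ℂ), LocN P Q w r m D T Fp Fq G R0 bn bn' A A'

/-- the connections are short against the displacements -/
lemma k_le {P : Prm} (h : P.Ok) : 2 * (P.p.k + P.q.k) ≤ P.W.D0 ∧ 0 < P.p.k ∧ 0 < P.q.k := by
  have key : ∀ {E : En} {ε : ℝ}, E.Ok ε → 0 < E.k ∧ 8 * E.k ≤ E.s.len := by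
    intro E ε hE
    have h1 := hE.r0
    have h2 := hE.bn
    have h3 := hE.len
    have h4 : E.k = E.rk + E.f.r2 := rfl
    have h5 := hE.rk
    have h6 := hE.f.r2
    have h7 := hE.n.r0
    have h8 := hE.n.r
    have h9 := hE.n.r2
    have h10 := hE.n.κ
    have h11 := hE.f.κ
    constructor <;> linarith
  have h1 := key h.p
  have h2 := key h.q
  have h3 := h.nr
  refine ⟨by linarith, h1.1, h2.1⟩

/-- windows inside of the windows of `P` -/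
lemma LocN.loc {P : Prm} (h : P.Ok) {Y : Type} [MeasurableSpace Y] {Q : Measure Y} {w : Y → ℝ≥0∞} {r : Y → Pie} {m : Measure Pie}
    {D T : Set Pie} {Fp Fq G : Set Y} {R0 bn bn' : ℝ} {A A' : Set ℂ} (I : LocN P Q w r m D T Fp Fq G R0 bn bn' A A')
    (mD : MeasurableSet D) {κ Dm a b : ℝ} (h1 : 2 * P.W.D0 ≤ κ) (h2 : 2 * Dm ≤ P.W.D1)
    (h3 : P.W.t0 + (P.p.lk + P.q.lk) ≤ a) (h4 : b ≤ P.W.t1) : LocI Q w r m D T Fp Fq G R0 κ Dm a b bn bn' A A' := by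
  obtain ⟨k1, k2, k3⟩ := k_le h
  have hD := h.D
  have win : ∀ x : Pie, a ≤ x.2 → x.2 ≤ b → κ ≤ ‖x.1 1‖ → ‖x.1 1‖ ≤ Dm → WinR P x := fun x g1 g2 g3 g4 =>
    ⟨by linarith, by linarith, h3.trans g1, g2.trans h4⟩
  have hD0 : 0 < P.W.D0 := by linarith
  exact { fP := I.fP, sP := I.sP, mw := I.mw, mr := I.mr, mFp := I.mFp, mFq := I.mFq, mS := mD, mT := I.mT, hG := I.hG,
          ac := I.ac, ST := I.ST, z0 := I.z0, R0κ := by linarith [I.R0D], far := I.far, s1 := I.s1,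
          s2 := I.s2.mono fun g hg hw a1 a2 a3 a4 a5 a6 => hg hw a1 a2 (win _ a3 a4 a5 a6)
          lp := I.lp, lq := I.lq, hb := by linarith [I.hb], hb' := by linarith [I.hb'], hp := I.hp, hq := I.hq,
          comp := I.comp.mono fun x hx a1 a2 a3 a4 a5 a6 => hx a1 a2 (win _ a3 a4 a5 a6) }

/-- **row GM**: mixing of the native gates of the lattice 0 with local Lipschitz functionals -/
def GmRow : Prop := ∀ F : CI → ℝ, LipschitzWith 1 F → (∀ γ, |F γ| ≤ 1) → ∀ e : ℝ, 0 < e → ∃ τ' : ℝ, 0 < τ' ∧ τ' < 1 / 2 ∧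
  ∃ τ0 : ℝ, 0 < τ0 ∧ ∀ τ : ℝ, 0 < τ → τ ≤ τ0 → ∃ ρ0 k0 K1 : ℝ, 0 < ρ0 ∧ 0 < k0 ∧ 0 < K1 ∧ ∀ ρ : ℝ, 0 < ρ → ρ ≤ ρ0 →
    ∀ (z : ℂ) (P : Prm) (h : P.Ok), NearP z ρ τ P → WinP k0 K1 P →
      ∀ (K : ℝ≥0) (fp fq : CI3 → ℝ) (cp : Continuous fp) (cq : Continuous fq) (ep : ∀ y, 0 ≤ fp y ∧ fp y ≤ 1)
        (eq : ∀ y, 0 ≤ fq y ∧ fq y ≤ 1), LipschitzWith K fp → LipschitzWith K fq → ∀ᶠ N : ℕ in atTop, ∀ n ∈ Wn N (1 / 8),
          |∑ s ∈ saw n, Gam ((P.W0 h (Nm N)).G N (psB τ' (1 / 2) one_half_pos fp fq cp cq ep eq)) (List.ofFn s) * F (curve s) -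
            (∑ s ∈ saw n, Gam ((P.W0 h (Nm N)).G N (psB τ' (1 / 2) one_half_pos fp fq cp cq ep eq)) (List.ofFn s)) *
              ∫ γ, F γ ∂(law n)| ≤ e * (saw n).card

/-- the ratio of the units is bounded -/
lemma kap_bd : ∃ c C : ℝ, 0 < c ∧ 0 < C ∧ ∀ U : Ultrafilter ℕ, (U : Filter ℕ) ≤ atTop → ∀ κ : ℝ,
    Tendsto (fun n : ℕ => (Nm n : ℝ) ^ (4 / 3 : ℝ) / n) U (𝓝 κ) → c ≤ κ ∧ κ ≤ C := by
  obtain ⟨c, C, m0, hc, hC, h⟩ := nm_bd
  refine ⟨c, C, hc, hC, fun U hU κ hκ => ?_⟩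
  have h1 : ∀ᶠ n : ℕ in (U : Filter ℕ), c ≤ (Nm n : ℝ) ^ (4 / 3 : ℝ) / n ∧ (Nm n : ℝ) ^ (4 / 3 : ℝ) / n ≤ C := by
    refine hU ?_
    filter_upwards [eventually_ge_atTop (max m0 1)] with n hn
    have hn0 : (0 : ℝ) < n := by exact_mod_cast (le_max_right m0 1).trans hn
    obtain ⟨-, -, -, h2, h3⟩ := h n ((le_max_left _ _).trans hn)
    exact ⟨(le_div_iff₀ hn0).2 h2, (div_le_iff₀ hn0).2 h3⟩
  exact ⟨ge_of_tendsto hκ (h1.mono fun n h => h.1), le_of_tendsto hκ (h1.mono fun n h => h.2)⟩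

/-- **the row APP from the locality** -/
theorem appRow_of (gm : GmRow) : AppRow LocD := by
  intro p1 p2 hp1 hp2 F hF hF1 e he th hth h16 ε0 hε0
  obtain ⟨τ', hτ', hτ'2, τ1, hτ1, hgm⟩ := gm F hF hF1 e he
  obtain ⟨κb, Db, hκb, hDb, hbad⟩ := bad_lim hth h16 hp1 hp2 hτ' (show 0 < ε0 / 8 by positivity)
  obtain ⟨c, C, hc, hC, hkap⟩ := kap_bd
  refine ⟨min (min τ1 (e * th / (32 * C))) (min (1 / (16 * C)) (th / (32 * C))), by positivity, fun τ hτ hττ => ?_⟩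
  have q1 : τ ≤ τ1 := hττ.trans ((min_le_left _ _).trans (min_le_left _ _))
  have q4 : τ ≤ e * th / (32 * C) := hττ.trans ((min_le_left _ _).trans (min_le_right _ _))
  have q2 : τ ≤ 1 / (16 * C) := hττ.trans ((min_le_right _ _).trans (min_le_left _ _))
  have q3 : τ ≤ th / (32 * C) := hττ.trans ((min_le_right _ _).trans (min_le_right _ _))
  rw [le_div_iff₀ (by positivity)] at q2 q3 q4
  obtain ⟨ρ1, k1, K1, hρ1, hk1, hK1, h1⟩ := hgm τ hτ q1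
  refine ⟨min ρ1 (κb / 30), min k1 (min (κb / 2) (1 / (8 * C))), max K1 (max (2 * Db) (2 / c)), by positivity, by positivity,
    by positivity, fun ρ hρ hρρ z P h hnear hwin U hU κ hκ0 hκ m fm hm D mD hloc low1 pos low2 => ?_⟩
  obtain ⟨c1, c2⟩ := hkap U hU κ hκ
  have r1 : ρ ≤ ρ1 := hρρ.trans (min_le_left _ _)
  have r2 : ρ ≤ κb / 30 := hρρ.trans (min_le_right _ _)
  have w1 : P.W.D0 ≤ κb / 2 := hwin.D0.trans ((min_le_right _ _).trans (min_le_left _ _))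
  have w2 : P.W.t0 ≤ 1 / (8 * C) := hwin.t0.trans ((min_le_right _ _).trans (min_le_right _ _))
  have w3 : 2 * Db ≤ P.W.D1 := ((le_max_left _ _).trans (le_max_right _ _)).trans hwin.D1
  have w4 : 2 / c ≤ P.W.t1 := ((le_max_right _ _).trans (le_max_right _ _)).trans hwin.t1
  rw [le_div_iff₀ (by positivity)] at w2
  rw [div_le_iff₀ hc] at w4
  -- the local data
  obtain ⟨Y, mY, sY, Pm, w, r, T, Fp, Fq, G, R0, bn, bn', A, A', hI⟩ := hloc
  have t0' : 0 < P.W.t0 := h.t0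
  have lkp : P.p.lk ≤ 101 / 100 * (1 * τ) := hnear.p.lk.2
  have lkq : P.q.lk ≤ 101 / 100 * (1 * τ) := hnear.q.lk.2
  have I := (hI.loc h mD (κ := κb) (Dm := Db) (a := P.W.t0 + (P.p.lk + P.q.lk)) (b := P.W.t1) (by linarith) w3 le_rfl
    le_rfl).app hκ0 (by
    have g1 : κ * (P.W.t0 + (P.p.lk + P.q.lk)) ≤ C * (P.W.t0 + (P.p.lk + P.q.lk)) :=
      mul_le_mul_of_nonneg_right c2 (by linarith [h.p.lk, h.q.lk])
    nlinarith) (by
    have g1 : c * P.W.t1 ≤ κ * P.W.t1 := mul_le_mul_of_nonneg_right c1 (by linarith [h.t1])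
    linarith)
  -- the classes
  have lp' : (P.p.n.la + P.p.n.lb) * (2 * κ) ≤ 101 / 50 * (τ * (2 * C)) := by
    have a1 : P.p.n.la ≤ 101 / 100 * (1 * τ) := hnear.p.n.la.2
    have a2 : P.p.n.lb ≤ 101 / 100 * (1 * τ) := hnear.p.n.lb.2
    have a3 : (P.p.n.la + P.p.n.lb) * (2 * κ) ≤ (P.p.n.la + P.p.n.lb) * (2 * C) :=
      mul_le_mul_of_nonneg_left (by linarith) (by linarith [h.p.n.la, h.p.n.lb])
    have a4 : (P.p.n.la + P.p.n.lb) * (2 * C) ≤ 101 / 50 * τ * (2 * C) := mul_le_mul_of_nonneg_right (by linarith) (by positivity)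
    linarith
  have lq' : (P.q.n.la + P.q.n.lb) * (2 * κ) ≤ 101 / 50 * (τ * (2 * C)) := by
    have a1 : P.q.n.la ≤ 101 / 100 * (1 * τ) := hnear.q.n.la.2
    have a2 : P.q.n.lb ≤ 101 / 100 * (1 * τ) := hnear.q.n.lb.2
    have a3 : (P.q.n.la + P.q.n.lb) * (2 * κ) ≤ (P.q.n.la + P.q.n.lb) * (2 * C) :=
      mul_le_mul_of_nonneg_left (by linarith) (by linarith [h.q.n.la, h.q.n.lb])
    have a4 : (P.q.n.la + P.q.n.lb) * (2 * C) ≤ 101 / 50 * τ * (2 * C) := mul_le_mul_of_nonneg_right (by linarith) (by positivity)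
    linarith
  have hτC : 0 < τ * C := by positivity
  have lp : (P.p.n.la + P.p.n.lb) * (2 * κ) ≤ 1 * th := by linarith
  have lq : (P.q.n.la + P.q.n.lb) * (2 * κ) ≤ 1 * th := by linarith
  have lpe : (P.p.n.la + P.p.n.lb) * (2 * κ) ≤ e * th := by linarith
  have lqe : (P.q.n.la + P.q.n.lb) * (2 * κ) ≤ e * th := by linarith
  have tip : ∀ {x E : ℝ} {N : ℕ}, 0 ≤ x → x * (2 * κ) ≤ E → uT (Nm N) ≤ 2 * κ * N → x * uT (Nm N) ≤ E * N := by
    intro x E N hx h3 h4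
    have h5 := mul_le_mul_of_nonneg_left h4 hx
    have h6 := mul_le_mul_of_nonneg_right h3 (Nat.cast_nonneg N : (0 : ℝ) ≤ N)
    linarith
  have nn : ∀ {T : Tp}, T.Ok → 0 ≤ T.la + T.lb := fun {T} hT => by linarith [hT.la, hT.lb]
  have hLim : LimC p1 1 th U (fun N => P.W0 h (Nm N)) (fun N => F3E.cc (Nm N)) (m.map (ut κ)) :=
    { c0 := fun N => cc_ne _
      c1 := fun N => cc_top _
      hm := by
        intro g
        simp only [W0_rm]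
        exact hm.unit hU hκ (W0_fin h) g
      hG := by
        filter_upwards [uT_le hU hκ0 hκ] with N a3
        exact Prm.W0_gb h (ψ := fun _ => 1) (fun _ => zero_le_one) (fun _ => le_rfl) (tip (nn h.p.n) lp a3) (tip (nn h.q.n) lq a3)
      low := low1 }
  have hTip : ∀ᶠ N in (U : Filter ℕ), TipB κb ((P.W0 h (Nm N)).G N fun _ => 1) N := by
    have a1 : P.p.n.r ≤ 101 / 100 * (1 * ρ) := hnear.p.n.r.2
    have a2 : P.p.n.r2 ≤ 101 / 100 * (41 / 2 * ρ) := hnear.p.n.r2.2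
    have a3 : P.q.n.r ≤ 101 / 100 * (1 * ρ) := hnear.q.n.r.2
    have a4 : P.q.n.r2 ≤ 101 / 100 * (41 / 2 * ρ) := hnear.q.n.r2.2
    exact Eventually.of_forall fun N => tipB_W0 h (mul_le_mul (by linarith) (Pool.Agent.ROT.F.nm_le N) (Nat.cast_nonneg _) hκb.le)
      (mul_le_mul (by linarith) (Pool.Agent.ROT.F.nm_le N) (Nat.cast_nonneg _) hκb.le)
  have hct : ∀ f : Pie → ℝ, ∫ r, f r ∂(m.map (ut κ)) = ∫ r, f (ut κ r) ∂m := int_ut hκ0.ne'
  have hctD : ∀ f : Pie → ℝ, ∫ r in ut κ⁻¹ ⁻¹' D, f r ∂(m.map (ut κ)) = ∫ r in D, f (ut κ r) ∂m := fun f => by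
    have := int_utC (t := fun _ => 0) (t' := fun _ => 0) (D := D) (m := m) hκ0.ne' f
    exact this
  have low2' : p2 * ∫ r, ct th r.2 ∂(m.map (ut κ)) ≤ ∫ r in ut κ⁻¹ ⁻¹' D, ct th r.2 ∂(m.map (ut κ)) := by
    rw [hct, hctD]
    simpa only [ut_snd] using low2
  obtain ⟨b1, b2, b3⟩ := hbad 1 le_rfl U hU _ _ (m.map (ut κ)) hLim hTip (ut κ⁻¹ ⁻¹' D) low2'
  have hM : 0 < ∫ x in ut κ⁻¹ ⁻¹' D, ct th x.2 ∂(m.map (ut κ)) := by
    refine lt_of_lt_of_le (mul_pos hp2 ?_) low2'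
    rw [hct]
    simpa only [ut_snd] using pos
  obtain ⟨ψs, s1, s2, s3, s4⟩ := app_top (e := e) (F := F) (U := (U : Filter ℕ)) (C := fun N => P.W0 h (Nm N)) I hth h16 hτ' hτ'2
    hε0 hM b1 b2 b3 (fun K fp fq cp cq ep eq l1 l2 => by
    filter_upwards [hU (h1 ρ hρ r1 z P h hnear (hwin.mono (min_le_left _ _) (le_max_left _ _)) K fp fq cp cq ep eq l1 l2),
      uT_le hU hκ0 hκ, hU (eventually_ge_atTop 1)] with N g1 g2 g3
    refine ⟨Prm.W0_gb h (fun x => ?_) (fun x => ?_) (tip (nn h.p.n) lpe g2) (tip (nn h.q.n) lqe g2), fun n hn => ?_⟩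
    · rw [psB_apply]
      exact mul_nonneg (ep _).1 (eq _).1
    · rw [psB_apply]
      exact mul_le_one₀ (ep _).2 (eq _).1 (eq _).2
    · have hN0 : (0 : ℝ) < N := by exact_mod_cast g3
      refine g1 n ?_
      rw [Wn_iff g3 (by linarith)] at hn
      rw [Wn_iff g3 (by norm_num)]
      constructor
      · nlinarith [hn.1]
      · nlinarith [hn.2])
  refine ⟨ψs, s1, s2, ?_, s4⟩
  rw [hct, hctD] at s3
  have e1 : ∀ x : Pie, (ut κ⁻¹ ⁻¹' D).indicator (fun _ => (1 : ℝ)) (ut κ x) = D.indicator (fun _ => (1 : ℝ)) x := fun x => by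
    have := ind_utC (t := fun _ => 0) (t' := fun _ => 0) (D := D) hκ0.ne' x
    exact this
  simp only [e1, ut_snd] at s3
  exact s3


end Pool.Agent.ROT.F3E
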