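import Pool.Agent.ROT.F3GmN
import Pool.Agent.ROT.F3Gt80
import Pool.Agent.ROT.F3App
import Pool.Agent.ROT.F3LocD

/-!
# ROT / F3GmI (helper79): mixing of the native gates, instances

* `Prm.Gmn P δ κ K` : the inequalities of the data (tips short, radii small, windows wide);
* **`gm_W0`** : lattice 0 with a local product `psB τ (1 / 2) Fp Fq` of the rest, exact numbers of steps;
* **`gm_WR`** : the rotated lattice, thresholds `f.l + y`;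
* **`gm_row : GmRow`** (F3LocD), **`mix_row : MixRow`** (F3Rows); **`app_row : AppRow LocD`**.
-/

set_option autoImplicit false

namespace Pool.Agent.ROT.F3

open Finset MeasureTheory Filter Topology
open Pool.Agent.NTS.Res (step pos saw fug size curve law)
open Pool.Agent.ROT.F (Nm nm_bd nm_top nm_lt size_bd)
open Pool.Agent.ROT.F3E (lp_word lq_word psB psB_apply gm_n)
open scoped Classical

/-- **the inequalities of the data** -/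
structure Prm.Gmn (P : Prm) (δ κ K : ℝ) : Prop where
  p : P.p.f.la + P.p.f.lb ≤ δ
  q : P.q.f.la + P.q.f.lb ≤ δ
  D0 : P.W.D0 ≤ κ
  D1 : K ≤ P.W.D1
  t0 : P.W.t0 ≤ κ
  t1 : K ≤ P.W.t1

/-- the inequalities for words with `n` letters at the scale `Nm N`: `a`, `b` = lengths of the tips -/
structure NumN (δ κ K τ a b r r' D0 D1 t0 t1 : ℝ) (N n A B M L L0 L1 : ℕ) : Prop where
  hS : 0 < (Nm N : ℝ)
  ha : a * uT (Nm N) ≤ A
  hb : b * uT (Nm N) ≤ B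
  hM : τ * N ≤ M
  hL : (1 / 2 : ℝ) * N ≤ L
  hML : M ≤ L
  hL0 : t0 * uT (Nm N) ≤ L0
  hL1 : (L1 : ℝ) ≤ t1 * uT (Nm N)
  hAM : (A : ℝ) + M ≤ δ * n
  hBM : (B : ℝ) + M ≤ δ * n
  hD : D0 * Nm N + r * Nm N + r' * Nm N ≤ κ * size n
  hD1 : K * size n + r * Nm N + r' * Nm N ≤ D1 * Nm N
  l1 : A + B + M ≤ n
  l2 : 7 / 8 * (N : ℝ) ≤ n → A + B + L ≤ n
  l3 : A + B + L0 ≤ n
  l4 : n ≤ L1

/-- **the inequalities hold in the end** -/
theorem num_ev {δ κ K : ℝ} (hδ : 0 < δ) (hδ1 : δ ≤ 1 / 16) (hκ : 0 < κ) (hK : 0 < K) : ∃ δ' κ' K' : ℝ, 0 < δ' ∧ δ' ≤ 1 / 4 ∧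
    0 < κ' ∧ 0 < K' ∧ ∀ τ a b r r' D0 D1 t0 t1 : ℝ, 0 ≤ τ → τ ≤ δ' → 0 ≤ a → a ≤ δ' →
      0 ≤ b → b ≤ δ' → D0 + r + r' ≤ κ' → 0 ≤ t0 → t0 ≤ κ' → K' + r + r' ≤ D1 → K' ≤ t1 →
      ∀ᶠ N : ℕ in atTop, ∀ n : ℕ, (N : ℝ) / 2 ≤ n → (n : ℝ) ≤ 2 * N →
        ∃ A B M L L0 L1 : ℕ, NumN δ κ K τ a b r r' D0 D1 t0 t1 N n A B M L L0 L1 := by
  obtain ⟨c, C, m0, hc, hC, hb⟩ := nm_bd
  obtain ⟨c2, C2, hc2, hC2, hs⟩ := size_bd
  refine ⟨min (δ / (8 * C)) (δ / 8), min (κ * c2 / (2 * C)) (1 / (8 * C)), max (2 * K * C2 / c) (3 / c), by positivity, ?_,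
    by positivity, by positivity, ?_⟩
  · have := min_le_right (δ / (8 * C)) (δ / 8)
    linarith
  intro τ a b r r' D0 D1 t0 t1 τ0 τ1 a0 a1 b0 b1 hD t00 t01 hD1 ht1
  filter_upwards [eventually_ge_atTop m0, eventually_ge_atTop 32, eventually_ge_atTop ⌈8 / δ⌉₊,
    eventually_ge_atTop ⌈1 / c⌉₊] with N hN N8 Nδ Nc n hn1 hn2
  obtain ⟨h1, h2, h3, h4, h5⟩ := hb N hN
  have hN0 : (32 : ℝ) ≤ N := by exact_mod_cast N8
  have hn0 : (16 : ℝ) ≤ n := by linarith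
  have hn1' : 1 ≤ n := by
    have : (1 : ℝ) ≤ n := by linarith
    exact_mod_cast this
  have hNδ : 8 / δ ≤ N := Nat.ceil_le.1 Nδ
  have hNc : 1 / c ≤ N := Nat.ceil_le.1 Nc
  have hS1 : (1 : ℝ) ≤ Nm N := by exact_mod_cast h1
  have hT0 : 0 ≤ uT (Nm N) := by
    unfold uT
    positivity
  have hT1 : c * N ≤ uT (Nm N) := h4
  have hT2 : uT (Nm N) ≤ C * N := h5
  have hT3 : uT (Nm N) ≤ C * (2 * n) := hT2.trans (mul_le_mul_of_nonneg_left (by linarith) hC.le)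
  -- sizes
  have p2 : (2 : ℝ) ^ (3 / 4 : ℝ) ≤ 2 := by
    have := Real.rpow_le_rpow_of_exponent_le (x := 2) one_le_two (show (3 / 4 : ℝ) ≤ 1 by norm_num)
    rwa [Real.rpow_one] at this
  have np : (0 : ℝ) ≤ (n : ℝ) ^ (3 / 4 : ℝ) := by positivity
  have Np : (0 : ℝ) ≤ (N : ℝ) ^ (3 / 4 : ℝ) := by positivity
  have z1 : (N : ℝ) ^ (3 / 4 : ℝ) ≤ 2 * (n : ℝ) ^ (3 / 4 : ℝ) := by
    have g1 : (N : ℝ) ^ (3 / 4 : ℝ) ≤ (2 * (n : ℝ)) ^ (3 / 4 : ℝ) :=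
      Real.rpow_le_rpow (by linarith) (by linarith) (by norm_num)
    rw [Real.mul_rpow zero_le_two (by linarith)] at g1
    exact g1.trans (mul_le_mul_of_nonneg_right p2 np)
  have z2 : (n : ℝ) ^ (3 / 4 : ℝ) ≤ 2 * (N : ℝ) ^ (3 / 4 : ℝ) := by
    have g1 : (n : ℝ) ^ (3 / 4 : ℝ) ≤ (2 * (N : ℝ)) ^ (3 / 4 : ℝ) :=
      Real.rpow_le_rpow (by linarith) (by linarith) (by norm_num)
    rw [Real.mul_rpow zero_le_two (by linarith)] at g1
    exact g1.trans (mul_le_mul_of_nonneg_right p2 Np)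
  obtain ⟨s1, s2⟩ := hs n hn1'
  have e4 : 8 ≤ δ * N := by
    rw [div_le_iff₀ hδ] at hNδ
    linarith
  have e5 : 4 ≤ δ * n := by
    have : δ * (N / 2) ≤ δ * n := mul_le_mul_of_nonneg_left hn1 hδ.le
    linarith
  have e1 : 1 ≤ c * N := by
    rw [div_le_iff₀ hc] at hNc
    linarith
  have e6 : δ * n ≤ 1 / 16 * n := mul_le_mul_of_nonneg_right hδ1 (by linarith)
  have hmul : ∀ x : ℝ, 0 ≤ x → x ≤ δ / (8 * C) → x * uT (Nm N) ≤ δ / 4 * n := by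
    intro x x0 x1
    calc x * uT (Nm N) ≤ δ / (8 * C) * (C * (2 * n)) := mul_le_mul x1 hT3 hT0 (by positivity)
      _ = δ / 4 * n := by
        field_simp
        ring
  have ha := hmul a a0 (a1.trans (min_le_left _ _))
  have hb' := hmul b b0 (b1.trans (min_le_left _ _))
  have hτ : τ * N ≤ δ / 4 * n := by
    calc τ * N ≤ δ / 8 * (2 * n) := mul_le_mul (τ1.trans (min_le_right _ _)) (by linarith) (by linarith) (by positivity)
      _ = δ / 4 * n := by ring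
  have cA := Nat.ceil_lt_add_one (mul_nonneg a0 hT0)
  have cB := Nat.ceil_lt_add_one (mul_nonneg b0 hT0)
  have cM := Nat.ceil_lt_add_one (show 0 ≤ τ * N by positivity)
  have cL := Nat.ceil_lt_add_one (show (0 : ℝ) ≤ 1 / 2 * N by positivity)
  have ht0T : t0 * uT (Nm N) ≤ 1 / 4 * n := by
    calc t0 * uT (Nm N) ≤ 1 / (8 * C) * (C * (2 * n)) := mul_le_mul (t01.trans (min_le_right _ _)) hT3 hT0 (by positivity)
      _ = 1 / 4 * n := by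
        field_simp
        ring
  have cL0 := Nat.ceil_lt_add_one (mul_nonneg t00 hT0)
  have ht1T : 3 * N ≤ t1 * uT (Nm N) := by
    calc (3 : ℝ) * N = 3 / c * (c * N) := by field_simp
      _ ≤ t1 * uT (Nm N) := mul_le_mul ((le_max_right _ _).trans ht1) hT1 (by positivity)
        ((by positivity : (0 : ℝ) ≤ 3 / c).trans ((le_max_right _ _).trans ht1))
  refine ⟨⌈a * uT (Nm N)⌉₊, ⌈b * uT (Nm N)⌉₊, ⌈τ * N⌉₊, ⌈(1 / 2 : ℝ) * N⌉₊, ⌈t0 * uT (Nm N)⌉₊, ⌊t1 * uT (Nm N)⌋₊, ?_⟩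
  refine ⟨by linarith, Nat.le_ceil _, Nat.le_ceil _, Nat.le_ceil _, Nat.le_ceil _, ?_, Nat.le_ceil _,
    Nat.floor_le (by linarith), by linarith, by linarith, ?_, ?_, ?_, fun h78 => ?_, ?_, ?_⟩
  · exact Nat.ceil_mono (mul_le_mul_of_nonneg_right (by
      have := τ1.trans (min_le_right _ _)
      linarith) (by linarith))
  · have g1 : D0 + r + r' ≤ κ * c2 / (2 * C) := hD.trans (min_le_left _ _)
    have g2 : (Nm N : ℝ) ≤ C * (2 * (n : ℝ) ^ (3 / 4 : ℝ)) := h3.trans (mul_le_mul_of_nonneg_left z1 hC.le)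
    calc D0 * Nm N + r * Nm N + r' * Nm N = (D0 + r + r') * Nm N := by ring
      _ ≤ κ * c2 / (2 * C) * (C * (2 * (n : ℝ) ^ (3 / 4 : ℝ))) := mul_le_mul g1 g2 (by linarith) (by positivity)
      _ = κ * (c2 * (n : ℝ) ^ (3 / 4 : ℝ)) := by field_simp
      _ ≤ κ * size n := mul_le_mul_of_nonneg_left s1 hκ.le
  · have g1 : 2 * K * C2 / c + r + r' ≤ D1 := by
      have := le_max_left (2 * K * C2 / c) (3 / c)
      linarith
    have g2 : K * size n ≤ 2 * K * C2 / c * Nm N := by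
      calc K * size n ≤ K * (C2 * (2 * (N : ℝ) ^ (3 / 4 : ℝ))) :=
            mul_le_mul_of_nonneg_left (s2.trans (mul_le_mul_of_nonneg_left z2 hC2.le)) hK.le
        _ = 2 * K * C2 / c * (c * (N : ℝ) ^ (3 / 4 : ℝ)) := by
          field_simp
        _ ≤ 2 * K * C2 / c * Nm N := mul_le_mul_of_nonneg_left h2 (by positivity)
    have g3 := mul_le_mul_of_nonneg_right g1 (show (0 : ℝ) ≤ Nm N by linarith)
    linarith
  · have g1 : ((⌈a * uT (Nm N)⌉₊ + ⌈b * uT (Nm N)⌉₊ + ⌈τ * N⌉₊ : ℕ) : ℝ) ≤ (n : ℝ) := by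
      push_cast
      linarith
    exact_mod_cast g1
  · have g1 : ((⌈a * uT (Nm N)⌉₊ + ⌈b * uT (Nm N)⌉₊ + ⌈(1 / 2 : ℝ) * N⌉₊ : ℕ) : ℝ) ≤ (n : ℝ) := by
      push_cast
      linarith
    exact_mod_cast g1
  · have g1 : ((⌈a * uT (Nm N)⌉₊ + ⌈b * uT (Nm N)⌉₊ + ⌈t0 * uT (Nm N)⌉₊ : ℕ) : ℝ) ≤ (n : ℝ) := by
      push_cast
      linarith
    exact_mod_cast g1
  · refine Nat.le_floor ?_
    linarith

/-! ### 2. The functionals of the start piece -/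

/-- the functional of the start piece of duration `τ` -/
noncomputable def gF (τ : ℝ) (F : CI3 → ℝ) (N : ℕ) (R : W3) : ℝ := F (F3E.lp τ (1 / 2) one_half_pos (cr (size N) N R))

lemma gF_loc {τ : ℝ} {F : CI3 → ℝ} {N M L : ℕ} (hτ : 0 ≤ τ) (hN : 0 < N) (hM : τ * N ≤ M) (hL : (1 / 2 : ℝ) * N ≤ L)
    (hML : M ≤ L) (u v v' : W3) (h1 : M ≤ u.length) (h2 : L ≤ (u ++ v).length) (h3 : L ≤ (u ++ v').length) :
    gF τ F N (u ++ v) = gF τ F N (u ++ v') := by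
  unfold gF
  have hN' : (0 : ℝ) < N := by exact_mod_cast hN
  have q2 : (L : ℝ) ≤ ((u ++ v).length : ℝ) := by exact_mod_cast h2
  have q3 : (L : ℝ) ≤ ((u ++ v').length : ℝ) := by exact_mod_cast h3
  rw [lp_word one_half_pos hτ hN' hM (hL.trans q2) (hL.trans q3) (hML.trans h2) (hML.trans h3) fun k hk => by
    rw [ps_append_left (hk.trans h1), ps_append_left (hk.trans h1)]]

lemma psB_gF {τ : ℝ} {Fp Fq : CI3 → ℝ} (hp : Continuous Fp) (hq : Continuous Fq) (bp : ∀ y, 0 ≤ Fp y ∧ Fp y ≤ 1)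
    (bq : ∀ y, 0 ≤ Fq y ∧ Fq y ≤ 1) (N : ℕ) {R : W3} (hR : Even R.length) :
    psB τ (1 / 2) one_half_pos Fp Fq hp hq bp bq (cr (size N) N R) = gF τ Fp N R * gF τ Fq N R.reverse := by
  rw [psB_apply, lq_word one_half_pos hR]
  rfl

/-! ### 3. Radii -/

/-- the radii of one end are at most `bn` -/
structure En.Rad (E : En) : Prop where
  n1 : E.n.rg ≤ E.s.bn
  n2 : E.n.r0 - E.n.κ ≤ E.s.bn
  n3 : 0 ≤ E.n.r + E.n.r2
  n4 : 2 * (E.n.r + E.n.r2) ≤ E.s.bn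
  f1 : E.f.rg ≤ E.s.bn
  f2 : E.f.r0 - E.f.κ ≤ E.s.bn
  f3 : 0 ≤ E.f.r + E.f.r2
  f4 : 2 * (E.f.r + E.f.r2) ≤ E.s.bn
  k : E.k ≤ E.s.bn
  k0 : 0 ≤ E.k
  b0 : 0 ≤ E.s.bn
  b1 : 2 * E.s.bn ≤ E.s.len
  a : E.n.la + E.n.lb ≤ E.f.la + E.f.lb
  a0 : 0 ≤ E.n.la + E.n.lb
  a1 : 0 ≤ E.f.la + E.f.lb

lemma En.Ok.rad {E : En} {ε : ℝ} (h : E.Ok ε) : E.Rad := by
  have n1 := h.n.rg
  have n2 := h.n.rr
  have n3 := h.n.κ
  have n4 := h.n.r
  have n5 := h.n.r2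
  have n6 := h.n.la
  have n7 := h.n.lb
  have f1 := h.f.rg
  have f2 := h.f.rr
  have f3 := h.f.κ
  have f4 := h.f.r
  have f5 := h.f.r2
  have f6 := h.f.la
  have f7 := h.f.lb
  have e1 := h.r0
  have e2 := h.bn
  have e3 := h.len
  have e4 := h.rk
  have e5 := h.la
  have e6 := h.lk
  have e7 : E.k = E.rk + E.f.r2 := rfl
  constructor <;> linarith

/-! ### 4. The instances -/

section

variable {e : ℝ}

/-- a word with a middle piece in a class of F3Cls: the pieces are even -/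
private lemma evR {d d' : ℂ} {P Q : Tp} {W : Wn} {S T : ℝ} : ∀ R ∈ Rst d d' P Q W S T, Even R.length := fun _ h => h.ev

/-- **lattice 0, words with `n` letters** -/
theorem gm_W0 (he : 0 < e) : ∃ δ κ K : ℝ, 0 < δ ∧ δ ≤ 1 / 4 ∧ 0 < κ ∧ 0 < K ∧ ∀ (P : Prm) (h : P.Ok), P.Gmn δ κ K →
    ∀ {τ : ℝ}, 0 ≤ τ → τ ≤ δ → ∀ F : CI3 → ℝ, LipschitzWith 1 F → (∀ γ, |F γ| ≤ 1) →
    ∀ (Fp Fq : CI3 → ℝ) (hp : Continuous Fp) (hq : Continuous Fq) (bp : ∀ y, 0 ≤ Fp y ∧ Fp y ≤ 1)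
      (bq : ∀ y, 0 ≤ Fq y ∧ Fq y ≤ 1), ∀ᶠ N : ℕ in atTop, ∀ n : ℕ, 7 / 8 * (N : ℝ) ≤ n → (n : ℝ) ≤ 2 * N →
    |∑ s ∈ saw n, F3E.Gam ((P.W0 h (Nm N)).G N (psB τ (1 / 2) one_half_pos Fp Fq hp hq bp bq)) (List.ofFn s) * F (curve s) -
      (∑ s ∈ saw n, F3E.Gam ((P.W0 h (Nm N)).G N (psB τ (1 / 2) one_half_pos Fp Fq hp hq bp bq)) (List.ofFn s)) *
        ∫ γ, F γ ∂(law n)| ≤ e * (saw n).card := by
  obtain ⟨δ, κ, K, hδ, hδ1, hκ, hK, n0, hn0⟩ := gm_n he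
  obtain ⟨δ', κ', K', hδ', hδ'1, hκ', hK', hev⟩ := num_ev hδ hδ1 hκ hK
  refine ⟨δ', κ' / 2, K' + κ', hδ', hδ'1, by positivity, by positivity, ?_⟩
  intro P h hG τ τ0 τ1 F hF hF1 Fp Fq hp hq bp bq
  have rp := h.p.rad
  have rq := h.q.rad
  have D0 := h.nr
  have t0 := h.t0
  have hlk := h.p.lk
  have hlk' := h.q.lk
  have gp := hG.p
  have gq := hG.q
  have gD0 := hG.D0
  have gD1 := hG.D1
  have gt0 := hG.t0
  have gt1 := hG.t1
  have wD0 : (P.wd P.W).D0 = P.W.D0 - (P.p.k + P.q.k) := rfl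
  have wD1 : (P.wd P.W).D1 = P.W.D1 + (P.p.k + P.q.k) := rfl
  have wt0 : (P.wd P.W).t0 = P.W.t0 := rfl
  have wt1 : (P.wd P.W).t1 = P.W.t1 + (P.p.lk + P.q.lk) := rfl
  have hnum := hev τ (P.p.n.la + P.p.n.lb) (P.q.n.la + P.q.n.lb) (P.p.n.r + P.p.n.r2) (P.q.n.r + P.q.n.r2) (P.wd P.W).D0
    (P.wd P.W).D1 (P.wd P.W).t0 (P.wd P.W).t1 τ0 τ1 rp.a0 (by linarith [rp.a]) rq.a0 (by linarith [rq.a])
    (by rw [wD0]; linarith [rp.n4, rq.n4, rp.b1, rq.b1, rp.k0, rq.k0, rp.b0, rq.b0, rp.n3, rq.n3])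
    (by rw [wt0]; exact t0.le) (by rw [wt0]; linarith)
    (by rw [wD1]; linarith [rp.n4, rq.n4, rp.b1, rq.b1, rp.k0, rq.k0, rp.b0, rq.b0, rp.n3, rq.n3])
    (by rw [wt1]; linarith)
  filter_upwards [hnum, eventually_ge_atTop (2 * n0), eventually_gt_atTop 0] with N hh' hNN0 hN1 n hn1 hn2
  obtain ⟨A, B, M, L, L0, L1, hh⟩ := hh' n (by linarith) hn2
  have hN1' : (0 : ℝ) < N := by exact_mod_cast hN1
  have hS := hh.hS
  have hnn : n0 ≤ n := by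
    have g1 : ((2 * n0 : ℕ) : ℝ) ≤ N := by exact_mod_cast hNN0
    have g2 : (n0 : ℝ) ≤ n := by
      push_cast at g1
      linarith
    exact_mod_cast g2
  have hT0 : 0 ≤ uT (Nm N) := F3E.uT_nonneg _
  have k1 : 0 ≤ (P.p.n.la + P.p.n.lb) * uT (Nm N) := mul_nonneg rp.a0 hT0
  have k2 : 0 ≤ (P.q.n.la + P.q.n.lb) * uT (Nm N) := mul_nonneg rq.a0 hT0
  have k3 : (1 : ℝ) ≤ N := by exact_mod_cast hN1
  have gb : F3E.Gb ((P.p.n.la + P.p.n.lb) * uT (Nm N) + (P.q.n.la + P.q.n.lb) * uT (Nm N)) 1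
      ((P.W0 h (Nm N)).G N (psB τ (1 / 2) one_half_pos Fp Fq hp hq bp bq)) N := by
    refine Prm.W0_gb h (fun x => ?_) (fun x => ?_) ?_ ?_
    · rw [psB_apply]
      exact mul_nonneg (bp _).1 (bq _).1
    · rw [psB_apply]
      exact mul_le_one₀ (bp _).2 (bq _).1 (bq _).2
    · nlinarith
    · nlinarith
  have hprod : ∀ R : W3, Even R.length → SW R → (P.wd P.W).D0 * Nm N ≤ ‖en R‖ → ‖en R‖ ≤ (P.wd P.W).D1 * Nm N →
      L0 ≤ R.length → R.length ≤ L1 →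
      (if R ∈ P.R0 0 P.W (Nm N) then 1 * psB τ (1 / 2) one_half_pos Fp Fq hp hq bp bq (cr (size N) N R) else 0) =
        hEd (ev 0) P.p.n (Nm N) (gF τ Fp N) R * hEd (ev (-0)) P.q.n (Nm N) (gF τ Fq N) R.reverse := by
    intro R eR sR d0 d1 l0 l1
    have l0' : (L0 : ℝ) ≤ R.length := by exact_mod_cast l0
    have l1' : (R.length : ℝ) ≤ L1 := by exact_mod_cast l1
    exact rst_prod (d := ev 0) (d' := ev (-0)) (P := P.p.n) (Q := P.q.n) (W := P.wd P.W) (S := Nm N) (T := uT (Nm N))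
      (Ψ := fun R => 1 * psB τ (1 / 2) one_half_pos Fp Fq hp hq bp bq (cr (size N) N R)) (g := gF τ Fp N) (g' := gF τ Fq N)
      (fun R eR _ => by rw [one_mul]; exact psB_gF hp hq bp bq N eR) eR sR d0 d1 (hh.hL0.trans l0') (l1'.trans hh.hL1)
  have key := hn0 n hnn F hF hF1 (P.T0p (Nm N)) (P.R0 0 P.W (Nm N)) (P.T0q (Nm N)) (fun _ => 1)
    (fun R => 1 * psB τ (1 / 2) one_half_pos Fp Fq hp hq bp bq (cr (size N) N R)) (fun _ => 1)
    (hEd (ev 0) P.p.n (Nm N) (gF τ Fp N)) (hEd (ev (-0)) P.q.n (Nm N) (gF τ Fq N)) A B M L L0 L1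
    ((P.p.n.r + P.p.n.r2) * Nm N) ((P.q.n.r + P.q.n.r2) * Nm N) ((P.p.s.bn + P.q.s.bn) * Nm N) ((P.wd P.W).D0 * Nm N)
    ((P.wd P.W).D1 * Nm N)
    (tpB_pre (by rw [← add_mul]; exact hh.ha) le_rfl) (tpB_pre (by rw [← add_mul]; exact hh.hb) le_rfl) evR
    (locW_hEd (mul_le_mul_of_nonneg_right (by linarith [rp.n1, rq.b0]) hS.le)
      (mul_le_mul_of_nonneg_right (by linarith [rp.n2, rq.b0]) hS.le) (gF_loc τ0 hN1 hh.hM hh.hL hh.hML))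
    (locW_hEd (mul_le_mul_of_nonneg_right (by linarith [rq.n1, rp.b0]) hS.le)
      (mul_le_mul_of_nonneg_right (by linarith [rq.n2, rp.b0]) hS.le) (gF_loc τ0 hN1 hh.hM hh.hL hh.hML))
    hprod
    (unS_pre h.p.n hS.le fun R hR => by
      by_contra hc
      exact hR (if_neg hc))
    (unS_pre h.q.n hS.le fun R hR => by
      by_contra hc
      exact hR (if_neg hc))
    (fun _ => zero_le_one) (fun _ => le_rfl) (fun _ => zero_le_one) (fun _ => le_rfl)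
    (fun R => by
      unfold hEd gF
      split_ifs
      · exact (bp _).1
      · exact le_rfl)
    (fun R => by
      unfold hEd gF
      split_ifs
      · exact (bp _).2
      · exact zero_le_one)
    (fun R => by
      unfold hEd gF
      split_ifs
      · exact (bq _).1
      · exact le_rfl)
    (fun R => by
      unfold hEd gF
      split_ifs
      · exact (bq _).2
      · exact zero_le_one)
    (mul_nonneg rp.n3 hS.le) (mul_nonneg rq.n3 hS.le) (mul_nonneg (by linarith [rp.b0, rq.b0]) hS.le)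
    (by
      have : (P.p.s.bn + P.q.s.bn + 2 * (P.p.n.r + P.p.n.r2)) * Nm N < (P.wd P.W).D0 * Nm N :=
        mul_lt_mul_of_pos_right (by rw [wD0]; linarith [rp.n4, rq.n4, rp.b1, rq.b1, rp.k, rq.k, rp.b0, rq.b0]) hS
      linarith)
    (by
      have : (P.p.s.bn + P.q.s.bn + 2 * (P.q.n.r + P.q.n.r2)) * Nm N < (P.wd P.W).D0 * Nm N :=
        mul_lt_mul_of_pos_right (by rw [wD0]; linarith [rp.n4, rq.n4, rp.b1, rq.b1, rp.k, rq.k, rp.b0, rq.b0]) hS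
      linarith)
    hh.hAM hh.hBM hh.hD hh.hD1 hh.l1 (hh.l2 hn1) hh.l3 hh.l4 gb.nn gb.one
  exact key

private lemma evM {d d' : ℂ} {P Q : Tp} {W : Wn} {s s' : Sr} {S T : ℝ} : ∀ R ∈ Man d d' P Q W s s' S T, Even R.length :=
  fun _ h => h.q.ev

/-- **the rotated lattice, words with `n` letters**, thresholds `f.l + y`, `f.l + y'` -/
theorem gm_WR (he : 0 < e) : ∃ δ κ K : ℝ, 0 < δ ∧ 0 < κ ∧ 0 < K ∧ ∀ (P : Prm) (h : P.Ok), P.Gmn δ κ K →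
    ∀ {y y' : ℝ}, 0 ≤ y → 0 ≤ y' → ∀ F : CI3 → ℝ, LipschitzWith 1 F → (∀ γ, |F γ| ≤ 1) →
    ∀ᶠ N : ℕ in atTop, ∀ n : ℕ, (N : ℝ) / 2 ≤ n → (n : ℝ) ≤ 2 * N →
    |∑ s ∈ saw n, F3E.Gam ((P.WR h y y' (Nm N)).G N fun _ => 1) (List.ofFn s) * F (curve s) -
      (∑ s ∈ saw n, F3E.Gam ((P.WR h y y' (Nm N)).G N fun _ => 1) (List.ofFn s)) * ∫ γ, F γ ∂(law n)| ≤ e * (saw n).card := by
  obtain ⟨δ, κ, K, hδ, hδ1, hκ, hK, n0, hn0⟩ := gm_n he
  obtain ⟨δ', κ', K', hδ', hδ'1, hκ', hK', hev⟩ := num_ev hδ hδ1 hκ hK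
  refine ⟨δ', κ' / 2, K' + κ', hδ', by positivity, by positivity, ?_⟩
  intro P h hG y y' hy hy' F hF hF1
  have rp := h.p.rad
  have rq := h.q.rad
  have D0 := h.nr
  have t0 := h.t0
  have gp := hG.p
  have gq := hG.q
  have gD0 := hG.D0
  have gD1 := hG.D1
  have gt0 := hG.t0
  have gt1 := hG.t1
  have hnum := hev 0 (P.p.f.la + P.p.f.lb) (P.q.f.la + P.q.f.lb) (P.p.f.r + P.p.f.r2) (P.q.f.r + P.q.f.r2) P.W.D0
    P.W.D1 P.W.t0 P.W.t1 le_rfl hδ'.le rp.a1 (by linarith) rq.a1 (by linarith)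
    (by linarith [rp.f4, rq.f4, rp.b1, rq.b1, rp.b0, rq.b0, rp.f3, rq.f3])
    t0.le (by linarith)
    (by linarith [rp.f4, rq.f4, rp.b1, rq.b1, rp.b0, rq.b0, rp.f3, rq.f3])
    (by linarith)
  filter_upwards [hnum, eventually_ge_atTop (2 * n0), eventually_gt_atTop 0] with N hh' hNN0 hN1 n hn1 hn2
  obtain ⟨A, B, M, L, L0, L1, hh⟩ := hh' n hn1 hn2
  have hN1' : (0 : ℝ) < N := by exact_mod_cast hN1
  have hS := hh.hS
  have hnn : n0 ≤ n := by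
    have g1 : ((2 * n0 : ℕ) : ℝ) ≤ N := by exact_mod_cast hNN0
    have g2 : (n0 : ℝ) ≤ n := by
      push_cast at g1
      linarith
    exact_mod_cast g2
  have hT0 : 0 ≤ uT (Nm N) := F3E.uT_nonneg _
  have k1 : 0 ≤ (P.p.f.la + P.p.f.lb) * uT (Nm N) := mul_nonneg rp.a1 hT0
  have k2 : 0 ≤ (P.q.f.la + P.q.f.lb) * uT (Nm N) := mul_nonneg rq.a1 hT0
  have k3 : (1 : ℝ) ≤ N := by exact_mod_cast hN1
  have gb : F3E.Gb ((P.p.f.la + P.p.f.lb) * uT (Nm N) + (P.q.f.la + P.q.f.lb) * uT (Nm N)) 1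
      ((P.WR h y y' (Nm N)).G N fun _ => 1) N :=
    Prm.WR_gb h y y' (fun _ => zero_le_one) (fun _ => le_rfl) (by nlinarith) (by nlinarith)
  have hprod : ∀ R : W3, Even R.length → SW R → P.W.D0 * Nm N ≤ ‖en R‖ → ‖en R‖ ≤ P.W.D1 * Nm N →
      L0 ≤ R.length → R.length ≤ L1 → (if R ∈ P.A0 (Nm N) then (1 : ℝ) * 1 else 0) =
        hNr (ev 0) P.p.f P.p.s (Nm N) (fun _ => 1) R * hNr (ev 0) P.q.f P.q.s (Nm N) (fun _ => 1) R.reverse := by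
    intro R eR sR d0 d1 l0 l1
    have l0' : (L0 : ℝ) ≤ R.length := by exact_mod_cast l0
    have l1' : (R.length : ℝ) ≤ L1 := by exact_mod_cast l1
    exact man_prod (d := ev 0) (d' := ev 0) (P := P.p.f) (Q := P.q.f) (W := P.W) (s := P.p.s) (s' := P.q.s) (S := Nm N)
      (T := uT (Nm N)) (Ψ := fun _ => (1 : ℝ) * 1) (g := fun _ => 1) (g' := fun _ => 1) (fun _ _ _ => rfl) eR sR d0 d1
      (hh.hL0.trans l0') (l1'.trans hh.hL1)
  have AB : A + B + 0 ≤ n := by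
    have := hh.l1
    omega
  have hAM : (A : ℝ) + (0 : ℕ) ≤ δ * n := by
    have := hh.hAM
    have : (0 : ℝ) ≤ M := Nat.cast_nonneg _
    push_cast
    linarith
  have hBM : (B : ℝ) + (0 : ℕ) ≤ δ * n := by
    have := hh.hBM
    have : (0 : ℝ) ≤ M := Nat.cast_nonneg _
    push_cast
    linarith
  have key := hn0 n hnn F hF hF1 (P.TRp y (Nm N)) (P.A0 (Nm N)) (P.TRq y' (Nm N)) (fun _ => 1)
    (fun _ => (1 : ℝ) * 1) (fun _ => 1)
    (hNr (ev 0) P.p.f P.p.s (Nm N) fun _ => 1) (hNr (ev 0) P.q.f P.q.s (Nm N) fun _ => 1) A B 0 0 L0 L1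
    ((P.p.f.r + P.p.f.r2) * Nm N) ((P.q.f.r + P.q.f.r2) * Nm N) ((P.p.s.bn + P.q.s.bn) * Nm N) (P.W.D0 * Nm N)
    (P.W.D1 * Nm N)
    (tpB_pre (P := P.p.f.up y) (by rw [← add_mul]; exact hh.ha) le_rfl)
    (tpB_pre (P := P.q.f.up y') (by rw [← add_mul]; exact hh.hb) le_rfl) evM
    (locW_hNr (mul_le_mul_of_nonneg_right (by linarith [rp.f1, rq.b0]) hS.le)
      (mul_le_mul_of_nonneg_right (by linarith [rp.f2, rq.b0]) hS.le)
      (mul_le_mul_of_nonneg_right (by linarith [rq.b0]) hS.le) (fun _ _ _ _ _ _ => rfl))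
    (locW_hNr (mul_le_mul_of_nonneg_right (by linarith [rq.f1, rp.b0]) hS.le)
      (mul_le_mul_of_nonneg_right (by linarith [rq.f2, rp.b0]) hS.le)
      (mul_le_mul_of_nonneg_right (by linarith [rp.b0]) hS.le) (fun _ _ _ _ _ _ => rfl))
    hprod
    (unS_pre (h.p.f.up hy) hS.le fun R hR => by
      by_contra hc
      exact hR (if_neg fun hc' => hc ⟨hc'.1.right, hc'.1.cone⟩))
    (unS_pre (h.q.f.up hy') hS.le fun R hR => by
      by_contra hc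
      exact hR (if_neg fun hc' => hc ⟨hc'.1.right, hc'.1.cone⟩))
    (fun _ => zero_le_one) (fun _ => le_rfl) (fun _ => zero_le_one) (fun _ => le_rfl)
    (fun R => by
      unfold hNr
      split_ifs
      · exact zero_le_one
      · exact le_rfl)
    (fun R => by
      unfold hNr
      split_ifs
      · exact le_rfl
      · exact zero_le_one)
    (fun R => by
      unfold hNr
      split_ifs
      · exact zero_le_one
      · exact le_rfl)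
    (fun R => by
      unfold hNr
      split_ifs
      · exact le_rfl
      · exact zero_le_one)
    (mul_nonneg rp.f3 hS.le) (mul_nonneg rq.f3 hS.le) (mul_nonneg (by linarith [rp.b0, rq.b0]) hS.le)
    (by
      have : (P.p.s.bn + P.q.s.bn + 2 * (P.p.f.r + P.p.f.r2)) * Nm N < P.W.D0 * Nm N :=
        mul_lt_mul_of_pos_right (by linarith [rp.f4, rq.f4, rp.b1, rq.b1, rp.b0, rq.b0]) hS
      linarith)
    (by
      have : (P.p.s.bn + P.q.s.bn + 2 * (P.q.f.r + P.q.f.r2)) * Nm N < P.W.D0 * Nm N :=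
        mul_lt_mul_of_pos_right (by linarith [rp.f4, rq.f4, rp.b1, rq.b1, rp.b0, rq.b0]) hS
      linarith)
    hAM hBM hh.hD hh.hD1 AB AB hh.l3 hh.l4 gb.nn gb.one
  exact key

/-! ### 5. The rows -/

/-- the data near the base satisfy the inequalities -/
lemma gmn_of {z : ℂ} {ρ τ δ κ K : ℝ} {P : Prm} (hn : F3E.NearP z ρ τ P) (hw : F3E.WinP κ K P) (hδ : 7 * τ ≤ δ) (hτ : 0 ≤ τ) :
    P.Gmn δ κ K := by
  have a1 : P.p.f.la ≤ 101 / 100 * (4 * τ) := hn.p.f.la.2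
  have a2 : P.p.f.lb ≤ 101 / 100 * (2 * τ) := hn.p.f.lb.2
  have b1 : P.q.f.la ≤ 101 / 100 * (4 * τ) := hn.q.f.la.2
  have b2 : P.q.f.lb ≤ 101 / 100 * (2 * τ) := hn.q.f.lb.2
  exact ⟨by linarith, by linarith, hw.D0, hw.D1, hw.t0, hw.t1⟩

end

/-- the row of the lattice 0, written out -/
theorem gm_row' (F : CI3 → ℝ) (hF : LipschitzWith 1 F) (hF1 : ∀ γ, |F γ| ≤ 1) (e : ℝ) (he : 0 < e) : ∃ τ1 : ℝ, 0 < τ1 ∧ τ1 < 1 / 2 ∧
    ∃ τ0 : ℝ, 0 < τ0 ∧ ∀ τ : ℝ, 0 < τ → τ ≤ τ0 → ∃ ρ0 k0 K1 : ℝ, 0 < ρ0 ∧ 0 < k0 ∧ 0 < K1 ∧ ∀ ρ : ℝ, 0 < ρ → ρ ≤ ρ0 →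
      ∀ (z : ℂ) (P : Prm) (h : P.Ok), F3E.NearP z ρ τ P → F3E.WinP k0 K1 P →
        ∀ (fp fq : CI3 → ℝ) (cp : Continuous fp) (cq : Continuous fq) (ep : ∀ y, 0 ≤ fp y ∧ fp y ≤ 1)
          (eq : ∀ y, 0 ≤ fq y ∧ fq y ≤ 1), ∀ᶠ N : ℕ in atTop, ∀ n ∈ F3E.Wn N (1 / 8),
          |∑ s ∈ saw n, F3E.Gam ((P.W0 h (Nm N)).G N (psB τ1 (1 / 2) one_half_pos fp fq cp cq ep eq)) (List.ofFn s) *
              F (curve s) -
            (∑ s ∈ saw n, F3E.Gam ((P.W0 h (Nm N)).G N (psB τ1 (1 / 2) one_half_pos fp fq cp cq ep eq)) (List.ofFn s)) *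
              ∫ γ, F γ ∂(law n)| ≤ e * (saw n).card := by
  obtain ⟨δ, κ, K, hδ, hδ1, hκ, hK, H⟩ := gm_W0 he
  refine ⟨δ, hδ, by linarith, δ / 7, by positivity, fun τ hτ hτ1 => ⟨1, κ, K, one_pos, hκ, hK, fun ρ _ _ z P h hn hw fp fq cp cq
    ep eq => ?_⟩⟩
  filter_upwards [H P h (gmn_of hn hw (by linarith) hτ.le) hδ.le le_rfl F hF hF1 fp fq cp cq ep eq,
    eventually_ge_atTop 1] with N hN N1 n hn'
  have N1' : (1 : ℝ) ≤ N := by exact_mod_cast N1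
  rw [F3E.Wn_iff N1 (by norm_num)] at hn'
  exact hN n (by linarith [hn'.1]) (by linarith [hn'.2])

/-- **the row of the lattice 0** -/
theorem gm_row : F3E.GmRow := by
  intro F hF hF1 e he
  obtain ⟨τ1, a1, a2, τ0, a3, H⟩ := gm_row' F hF hF1 e he
  refine ⟨τ1, a1, a2, τ0, a3, fun τ hτ hτ1 => ?_⟩
  obtain ⟨ρ0, k0, K1, b1, b2, b3, H1⟩ := H τ hτ hτ1
  exact ⟨ρ0, k0, K1, b1, b2, b3, fun ρ hρ hρ1 z P h hn hw _ fp fq cp cq ep eq _ _ => H1 ρ hρ hρ1 z P h hn hw fp fq cp cq ep eq⟩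

/-- **the row `AppRow` with the locality `LocD`** -/
theorem app_row : F3E.AppRow F3E.LocD := F3E.appRow_of gm_row

/-- **the row of the rotated lattice** -/
theorem mix_row : F3E.MixRow := by
  intro F hF hF1 e he
  obtain ⟨δ, κ, K, hδ, hκ, hK, H⟩ := gm_WR he
  refine ⟨δ / 7, by positivity, fun τ hτ hτ1 => ⟨1, κ, K, one_pos, hκ, hK, fun ρ _ _ z P h hn hw => ?_⟩⟩
  have hz : ‖z‖ = 1 := by
    rw [← hn.u]
    exact h.u
  have hL : LipschitzWith 1 fun γ : CI3 => F (z • γ) := by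
    refine LipschitzWith.of_dist_le_mul fun γ γ' => ?_
    have h3 := hF.dist_le_mul (z • γ) (z • γ')
    have h4 : dist (z • γ) (z • γ') ≤ dist γ γ' := by
      rw [ContinuousMap.dist_le dist_nonneg]
      intro t
      have h5 := ContinuousMap.dist_apply_le_dist (f := γ) (g := γ') t
      rw [dist_eq_norm] at h5 ⊢
      calc ‖(z • γ) t - (z • γ') t‖ = ‖z * (γ t - γ' t)‖ := by
            congr 1
            show z * γ t - z * γ' t = _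
            ring
        _ = ‖γ t - γ' t‖ := by rw [norm_mul, hz, one_mul]
        _ ≤ _ := h5
    refine h3.trans (mul_le_mul_of_nonneg_left h4 (by norm_num))
  have y0 : 0 ≤ F3E.yp P := by
    have h1 := h.p.n.l
    have h2 := h.p.n.m
    show 0 ≤ P.p.n.l + P.p.n.m
    linarith
  have y1 : 0 ≤ F3E.yq P := by
    have h1 := h.q.n.l
    have h2 := h.q.n.m
    show 0 ≤ P.q.n.l + P.q.n.m
    linarith
  exact H P h (gmn_of hn hw (by linarith) hτ.le) y0 y1 (fun γ => F (z • γ)) hL fun γ => hF1 _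

end Pool.Agent.ROT.F3
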