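import Pool.Agent.ROT.W8Row
import Pool.Agent.ROT.F3GmI

/-!
# ROT, F3 (helper12): `RotW` from the row CORE

The rows LOW (helper84, helper94), MIX and GM (helper79, helper37), APP are theorems; `rotW_core` : **`RotW` from `CoreRow LocD`**.
-/

set_option autoImplicit false

namespace Pool.Agent.ROT.F3E

open Pool.Agent.ROT.F3

/-- **`RotW` from the row CORE** -/
theorem rotW_core {φ0 : ℝ} (hφ0 : 0 < φ0) (core : ∀ φ : ℝ, 0 < φ → φ ≤ φ0 → CoreRow LocD (Complex.exp (φ * Complex.I))) : RotW :=
  rotW_rows lowRow mix_row app_row hφ0 core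

end Pool.Agent.ROT.F3E
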