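import Pool.Agent.ROT.F3Fin1
import Pool.Agent.ROT.F3GenR
import Pool.Agent.ROT.F3Last

/-!
# ROT, F3 (helper31): the last assembly

* **`core_z`** : the row CORE for a rotation `z` near `1` from the four rows for one output `MO` of the marks;
* **`rotW_rowsMO`** : `RotW` from the four rows for all `z` near `1`.
-/

set_option autoImplicit false

open MeasureTheory Filter Topology

namespace Pool.Agent.ROT.F3E

open Pool.Agent.ROT.F3

/-- **the row CORE** -/
theorem core_z {z : ℂ} (hz : ‖z‖ = 1) (h1 : ‖z - 1‖ ≤ 1 / 100000000) {MO : MoT} (mk : MkRow z MO) (cr : CrRow z MO)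
    (low2 : Low2Row z MO) (loc : LocRow z MO) : CoreRow LocD z := coreRow_of (bxExc hz h1) mk cr low2 loc

/-- **the input of T2** from the four rows -/
theorem rotW_rowsMO {MO : MoT} {φ1 : ℝ} (h0 : 0 < φ1) (rows : ∀ z : ℂ, ‖z‖ = 1 → ‖z - 1‖ ≤ φ1 → ‖z - 1‖ ≤ 1 / 100000000 →
    MkRow z MO ∧ CrRow z MO ∧ Low2Row z MO ∧ LocRow z MO) : RotW := by
  refine rotW_core (φ0 := min φ1 (1 / 100000000)) (lt_min h0 (by norm_num)) fun phi hp hp' => ?_
  have e1 : ‖Complex.exp (phi * Complex.I)‖ = 1 := Complex.norm_exp_ofReal_mul_I phi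
  have e2 : ‖Complex.exp (phi * Complex.I) - 1‖ ≤ phi := by
    have h := Real.norm_exp_I_mul_ofReal_sub_one_le (x := phi)
    rw [mul_comm] at h
    rwa [Real.norm_of_nonneg hp.le] at h
  obtain ⟨a1, a2, a3, a4⟩ := rows _ e1 (e2.trans (hp'.trans (min_le_left _ _))) (e2.trans (hp'.trans (min_le_right _ _)))
  exact core_z e1 (e2.trans (hp'.trans (min_le_right _ _))) a1 a2 a3 a4

end Pool.Agent.ROT.F3E
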