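import Pool.Agent.ROT.F3SysV

/-!
# ROT, F3 (helper58): the limit law of the curves is unique

* `LF.Cv.uniq` : two limits along the same filter are equal; **`cv_unique`** : for `mwE b`, `cN`, `V : Ultrafilter ℕ`;
* `LF.Cv.uniq_ev` : also if the systems agree eventually;
* **`PGl V b`** : the limit law as a function of `(V, b)`; `PGl_cv`, `PGl_eq`, `PGl_iff`.
-/

set_option autoImplicit false

open MeasureTheory Filter Topology Set BoundedContinuousFunction
open scoped Classical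
open Pool.Agent.ROT.F

namespace Pool.Agent.ROT.F3

namespace LF

variable {ι : Type*} {l : Filter ι} {Ω : ι → Type*} [∀ i, MeasurableSpace (Ω i)] {P Q : ∀ i, Measure (Ω i)}
  {X : Type*} [PseudoMetricSpace X] [MeasurableSpace X] [BorelSpace X] {c d : ∀ i, Ω i → X} {ν ν' : Measure X}

/-- the limit is unique; the systems need only agree eventually -/
theorem Cv.uniq_ev [l.NeBot] (h : Cv l P c ν) (h' : Cv l Q d ν') (he : ∀ᶠ i in l, P i = Q i ∧ c i = d i) : ν = ν' := by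
  have := h.fin'
  have := h'.fin'
  refine ext_of_forall_integral_eq_of_IsFiniteMeasure fun G => tendsto_nhds_unique (h.lim G) ((h'.lim G).congr' ?_)
  filter_upwards [he] with i hi
  rw [hi.1, hi.2]

/-- the limit is unique -/
theorem Cv.uniq [l.NeBot] (h : Cv l P c ν) (h' : Cv l P c ν') : ν = ν' :=
  h.uniq_ev h' (Eventually.of_forall fun _ => ⟨rfl, rfl⟩)

end LF

/-- **the limit law of the curves is unique** -/
theorem cv_unique {V : Ultrafilter ℕ} {b : ℝ} {P P' : Measure (ℝ × ℝ × C(unitInterval, ℂ))}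
    (h : LF.Cv (V : Filter ℕ) (fun N => mwE N b) cN P) (h' : LF.Cv (V : Filter ℕ) (fun N => mwE N b) cN P') : P = P' :=
  h.uniq h'

/-- **the limit law, as a function of `(V, b)`** -/
noncomputable def PGl (V : Ultrafilter ℕ) (b : ℝ) : Measure (ℝ × ℝ × C(unitInterval, ℂ)) :=
  if h : ∃ P : Measure (ℝ × ℝ × C(unitInterval, ℂ)), LF.Cv (V : Filter ℕ) (fun N => mwE N b) cN P then h.choose else 0

theorem PGl_eq {V : Ultrafilter ℕ} {b : ℝ} {P : Measure (ℝ × ℝ × C(unitInterval, ℂ))}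
    (h : LF.Cv (V : Filter ℕ) (fun N => mwE N b) cN P) : P = PGl V b := by
  have h1 : ∃ P : Measure (ℝ × ℝ × C(unitInterval, ℂ)), LF.Cv (V : Filter ℕ) (fun N => mwE N b) cN P := ⟨P, h⟩
  refine h.uniq ?_
  unfold PGl
  rw [dif_pos h1]
  exact h1.choose_spec

theorem PGl_cv (hQ : QB) {V : Ultrafilter ℕ} (hV : (V : Filter ℕ) ≤ atTop) {b : ℝ} (hb : 0 ≤ b) :
    LF.Cv (V : Filter ℕ) (fun N => mwE N b) cN (PGl V b) := by
  obtain ⟨P, hP⟩ := mwE_cv hQ hb V hV
  rw [← PGl_eq hP]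
  exact hP

theorem PGl_nat (hQ : QB) {V : Ultrafilter ℕ} (hV : (V : Filter ℕ) ≤ atTop) (b : ℕ) :
    LF.Cv (V : Filter ℕ) (fun N => mwE N (b : ℝ)) cN (PGl V b) := PGl_cv hQ hV b.cast_nonneg

theorem PGl_iff (hQ : QB) {V : Ultrafilter ℕ} (hV : (V : Filter ℕ) ≤ atTop) {b : ℝ} (hb : 0 ≤ b)
    {P : Measure (ℝ × ℝ × C(unitInterval, ℂ))} : LF.Cv (V : Filter ℕ) (fun N => mwE N b) cN P ↔ P = PGl V b :=
  ⟨PGl_eq, fun h => h ▸ PGl_cv hQ hV hb⟩

end Pool.Agent.ROT.F3
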