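import Pool.Agent.ROT.F3ForB

/-!
# ROT / F3PosK (helper61): classes with cones and double gates as predicates of position functions; all pieces at once

* `CCl Cc cc`, `RCl Rc rc` : the class `Cc` of pairs (`Rc` of rests) is given by the predicate `cc` (`rc`) of position functions;
  `.and` : intersections with local predicates;
* instances: `CCl.conC`, `CCl.conK`, **`CCl.conD`** (double gates), `RCl.rsC`, `RCl.rsK`, **`RCl.three`** (rests with marks inside);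
* **`pieces_gen`** : the four pieces of a closed word, for all such classes.
-/

set_option autoImplicit false

namespace Pool.Agent.ROT.F3

open Finset ComplexConjugate
open scoped ENNReal Classical

/-! ### predicates of position functions -/

/-- `EndK` -/
def endKP (d : ℂ) (κ : ℝ) (n : ℕ) (p : ℕ → ℂ) : Prop := ‖p n‖ / 2 + κ ≤ lv d (p n)

/-- `RestK` -/
def restKP (d : ℂ) (r0 κ : ℝ) (n : ℕ) (p : ℕ → ℂ) : Prop :=
  ∀ k : ℕ, 0 < k → k ≤ n → ‖p k‖ ≤ r0 → 0 < lv d (p k) ∧ ‖p k‖ / 2 - κ < lv d (p k)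

/-- `ConeK` -/
def coneKP (d : ℂ) (κ : ℝ) (n : ℕ) (p : ℕ → ℂ) : Prop := ∀ k : ℕ, 0 < k → k ≤ n → ‖p k‖ / 2 - κ < lv d (p k)

/-- `ConK` -/
def conKP (d d' : ℂ) (r κ : ℝ) (n : ℕ) (p : ℕ → ℂ) (n' : ℕ) (p' : ℕ → ℂ) : Prop :=
  tipP d r n p ∧ tipP d' r n' p' ∧ endKP d κ n p ∧ endKP d' κ n' p' ∧
    (∀ k ≤ n', lv d (p' k) ≤ lv d (p n) ∨ Sec d' (p' k)) ∧ ∀ k ≤ n, lv d' (p k) ≤ lv d' (p' n') ∨ Sec d (p k)

/-- `BlkC` -/
def blkP (d : ℂ) (r : ℝ) (n : ℕ) (p : ℕ → ℂ) : Prop := tipP d r n p ∧ ∀ k : ℕ, 0 < k → k ≤ n → 0 < lv d (p k)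

/-- the positions behind the number `k` -/
def psh (p : ℕ → ℂ) (k j : ℕ) : ℂ := p (k + j) - p k

/-- the positions before the number `k`, backwards -/
def pshb (p : ℕ → ℂ) (k j : ℕ) : ℂ := p (k - j) - p k

/-- `DblC` -/
def dblP (d : ℂ) (r l r2 m : ℝ) (n : ℕ) (p : ℕ → ℂ) (k : ℕ) : Prop :=
  k ≤ n ∧ Even k ∧ tipP d r k p ∧ fstP d l k p ∧ blkP d r2 (n - k) (psh p k) ∧ fstP d m (n - k) (psh p k)

/-- `ConD` -/
def conDP (d d' : ℂ) (r l r2 m κ1 κ : ℝ) (n : ℕ) (p : ℕ → ℂ) (n' : ℕ) (p' : ℕ → ℂ) (k1 k2 : ℕ) : Prop :=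
  dblP d r l r2 m n p k1 ∧ dblP d' r l r2 m n' p' k2 ∧ (∀ k ≤ k2, lv d (p' k) ≤ lv d (p k1)) ∧
    (∀ k ≤ k1, lv d' (p k) ≤ lv d' (p' k2)) ∧ endKP d (κ1 + κ) k1 p ∧ endKP d' (κ1 + κ) k2 p' ∧
    coneKP d κ1 (n - k1) (psh p k1) ∧ coneKP d' κ1 (n' - k2) (psh p' k2)

section Pc

variable {u v : W3} {n n' : ℕ} {p p' : ℕ → ℂ}

lemma Pc.ofPs (u : W3) : Pc u u.length (ps u) := ⟨rfl, fun _ _ => rfl⟩

lemma Pc.congr (h : Pc u n p) {q : ℕ → ℂ} (hq : ∀ j ≤ n, p j = q j) : Pc u n q :=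
  ⟨h.len, fun j hj => (h.pos j hj).trans (hq j hj)⟩

lemma Pc.take (h : Pc u n p) {k : ℕ} (hk : k ≤ n) : Pc (u.take k) k p :=
  ⟨by rw [List.length_take, h.len, min_eq_left hk], fun j hj => by
    rw [ps_take u hj (by rw [h.len]; exact hk), h.pos j (by omega)]⟩

lemma Pc.drop (h : Pc u n p) {k : ℕ} (hk : k ≤ n) (ek : Even k) : Pc (u.drop k) (n - k) (psh p k) :=
  ⟨by rw [List.length_drop, h.len], fun j hj => by
    rw [ps_append_drop u (by rw [h.len]; exact hk) ek, h.pos _ (by omega), h.pos _ (by omega), psh]⟩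

lemma Pc.endK (h : Pc u n p) (d : ℂ) (κ : ℝ) : EndK d κ u ↔ endKP d κ n p := by
  rw [EndK, endKP, h.en]

lemma Pc.restK (h : Pc u n p) (d : ℂ) (r0 κ : ℝ) : RestK d r0 κ u ↔ restKP d r0 κ n p := by
  unfold RestK restKP
  rw [h.len]
  exact forall₃_congr fun k _ hk => by rw [h.pos k hk]

lemma Pc.coneK (h : Pc u n p) (d : ℂ) (κ : ℝ) : ConeK d κ u ↔ coneKP d κ n p := by
  unfold ConeK coneKP
  rw [h.len]
  exact forall₃_congr fun k _ hk => by rw [h.pos k hk]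

lemma Pc.conK (h : Pc u n p) (h' : Pc v n' p') (hc : Cn (u, v)) (d d' : ℂ) (r κ : ℝ) :
    ConK d d' r κ (u, v) ↔ conKP d d' r κ n p n' p' := by
  have en1 : Even n := by
    have := hc.e1
    simp only [h.len] at this
    exact this
  have en2 : Even n' := by
    have := hc.e2
    simp only [h'.len] at this
    exact this
  have k1 : (∀ k : ℕ, k ≤ v.length → lv d (ps v k) ≤ lv d (F3.en u) ∨ Sec d' (ps v k)) ↔
      ∀ k ≤ n', lv d (p' k) ≤ lv d (p n) ∨ Sec d' (p' k) := by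
    rw [h'.len, h.en]
    exact forall₂_congr fun k hk => by rw [h'.pos k hk]
  have k2 : (∀ k : ℕ, k ≤ u.length → lv d' (ps u k) ≤ lv d' (F3.en v) ∨ Sec d (ps u k)) ↔
      ∀ k ≤ n, lv d' (p k) ≤ lv d' (p' n') ∨ Sec d (p k) := by
    rw [h.len, h'.en]
    exact forall₂_congr fun k hk => by rw [h.pos k hk]
  rw [conKP, ← h.tip en1 hc.s1, ← h'.tip en2 hc.s2, ← h.endK, ← h'.endK, ← k1, ← k2]
  constructor
  · intro t
    exact ⟨t.t1, t.t2, t.e1, t.e2, t.l2, t.l1⟩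
  · rintro ⟨a, b, c, e, f, g⟩
    exact ⟨a, b, c, e, f, g, hc.dj⟩

lemma Pc.rsK {q : ℕ → ℂ} (h : Pc u n p) (hr : Pc u.reverse n q) (he : Even n) (hs : SW u) (d d' : ℂ) (r0 r0' κ κ' D : ℝ) :
    RsK d d' r0 r0' κ κ' D u ↔ restKP d r0 κ n p ∧ restKP d' r0' κ' n q ∧ D ≤ ‖p n‖ := by
  rw [← h.restK, ← hr.restK, ← h.en]
  constructor
  · intro t
    exact ⟨t.s, t.e, t.far⟩
  · rintro ⟨a, b, c⟩
    exact ⟨by rw [h.len]; exact he, hs, a, b, c⟩

lemma SW.take' {u : W3} (h : SW u) (k : ℕ) : SW (u.take k) := by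
  rcases le_or_gt k u.length with hk | hk
  · intro i j hi hj he
    rw [List.length_take, min_eq_left hk] at hi hj
    rw [ps_take u hi hk, ps_take u hj hk] at he
    exact h i j (by omega) (by omega) he
  · rwa [List.take_of_length_le hk.le]

lemma SW.drop' {u : W3} (h : SW u) {k : ℕ} (hk : k ≤ u.length) (ek : Even k) : SW (u.drop k) := by
  intro i j hi hj he
  rw [List.length_drop] at hi hj
  rw [ps_append_drop u hk ek, ps_append_drop u hk ek, sub_left_inj] at he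
  have := h _ _ (by omega) (by omega) he
  omega

lemma Pc.blk (h : Pc u n p) (he : Even n) (hs : SW u) (d : ℂ) (r : ℝ) : BlkC d r u ↔ blkP d r n p := by
  have k1 : (∀ k : ℕ, 0 < k → k ≤ u.length → 0 < lv d (ps u k)) ↔ ∀ k : ℕ, 0 < k → k ≤ n → 0 < lv d (p k) := by
    rw [h.len]
    exact forall₃_congr fun k _ hk => by rw [h.pos k hk]
  rw [blkP, ← h.tip he hs, ← k1]
  exact ⟨fun t => ⟨t.t, t.right⟩, fun t => ⟨t.1, t.2⟩⟩

/-- **double gates** -/
lemma Pc.dbl (h : Pc u n p) (he : Even n) (hs : SW u) (d : ℂ) (r l r2 m : ℝ) (k : ℕ) :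
    DblC d r l r2 m u k ↔ dblP d r l r2 m n p k := by
  have key : k ≤ n → Even k → ((TipC d r (u.take k) ↔ tipP d r k p) ∧ (FstC d l (u.take k) ↔ fstP d l k p) ∧
      (BlkC d r2 (u.drop k) ↔ blkP d r2 (n - k) (psh p k)) ∧ (FstC d m (u.drop k) ↔ fstP d m (n - k) (psh p k))) := by
    intro hk ek
    have hk' : k ≤ u.length := by rw [h.len]; exact hk
    exact ⟨(h.take hk).tip ek (SW.take' hs k) d r, (h.take hk).fst d l,
      (h.drop hk ek).blk ((Nat.even_sub hk).2 ⟨fun _ => ek, fun _ => he⟩) (SW.drop' hs hk' ek) d r2, (h.drop hk ek).fst d m⟩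
  constructor
  · intro t
    have hk : k ≤ n := by rw [← h.len]; exact t.le
    have ek : Even k := by
      have := t.a.ev
      rwa [List.length_take, min_eq_left t.le] at this
    obtain ⟨k1, k2, k3, k4⟩ := key hk ek
    exact ⟨hk, ek, k1.1 t.a, k2.1 t.fa, k3.1 t.b, k4.1 t.fb⟩
  · rintro ⟨hk, ek, a, b, c, e⟩
    obtain ⟨k1, k2, k3, k4⟩ := key hk ek
    exact ⟨by rw [h.len]; exact hk, k1.2 a, k2.2 b, k3.2 c, k4.2 e⟩

/-- **two strands with double gates** -/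
lemma Pc.conD (h : Pc u n p) (h' : Pc v n' p') (hc : Cn (u, v)) (d d' : ℂ) (r l r2 m κ1 κ : ℝ) (k1 k2 : ℕ) :
    ConD d d' r l r2 m κ1 κ (u, v) k1 k2 ↔ conDP d d' r l r2 m κ1 κ n p n' p' k1 k2 := by
  have en1 : Even n := by
    have := hc.e1
    simp only [h.len] at this
    exact this
  have en2 : Even n' := by
    have := hc.e2
    simp only [h'.len] at this
    exact this
  have key : k1 ≤ n → Even k1 → k2 ≤ n' → Even k2 →
      ((∀ k ≤ k2, lv d (ps v k) ≤ lv d (ps u k1)) ↔ ∀ k ≤ k2, lv d (p' k) ≤ lv d (p k1)) ∧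
      ((∀ k ≤ k1, lv d' (ps u k) ≤ lv d' (ps v k2)) ↔ ∀ k ≤ k1, lv d' (p k) ≤ lv d' (p' k2)) := by
    intro a1 _ a2 _
    rw [h.pos k1 a1, h'.pos k2 a2]
    exact ⟨forall₂_congr fun k hk => by rw [h'.pos k (by omega)], forall₂_congr fun k hk => by rw [h.pos k (by omega)]⟩
  unfold conDP
  rw [← h.dbl en1 hc.s1, ← h'.dbl en2 hc.s2]
  constructor
  · intro t
    have a1 : k1 ≤ n := by rw [← h.len]; exact t.g1.le
    have a2 : k2 ≤ n' := by rw [← h'.len]; exact t.g2.le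
    have b1 := ((h.dbl en1 hc.s1 d r l r2 m k1).1 t.g1).2.1
    have b2 := ((h'.dbl en2 hc.s2 d' r l r2 m k2).1 t.g2).2.1
    obtain ⟨c1, c2⟩ := key a1 b1 a2 b2
    exact ⟨t.g1, t.g2, c1.1 t.l2, c2.1 t.l1, ((h.take a1).endK d _).1 t.e1, ((h'.take a2).endK d' _).1 t.e2,
      ((h.drop a1 b1).coneK d κ1).1 t.s1, ((h'.drop a2 b2).coneK d' κ1).1 t.s2⟩
  · rintro ⟨g1, g2, l2, l1, e1, e2, s1, s2⟩
    have a1 : k1 ≤ n := by rw [← h.len]; exact g1.le
    have a2 : k2 ≤ n' := by rw [← h'.len]; exact g2.le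
    have b1 := ((h.dbl en1 hc.s1 d r l r2 m k1).1 g1).2.1
    have b2 := ((h'.dbl en2 hc.s2 d' r l r2 m k2).1 g2).2.1
    obtain ⟨c1, c2⟩ := key a1 b1 a2 b2
    refine ⟨g1, g2, c1.2 l2, c2.2 l1, fun j k hj hk he => ?_, ((h.take a1).endK d _).2 e1, ((h'.take a2).endK d' _).2 e2,
      ((h.drop a1 b1).coneK d κ1).2 s1, ((h'.drop a2 b2).coneK d' κ1).2 s2⟩
    exact hc.dj j k (by simp only [h.len]; omega) (by simp only [h'.len]; omega) he

end Pc

/-! ### classes which are given by position functions -/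

/-- the class `Cc` of pairs is given by `cc` -/
structure CCl (Cc : Set (W3 × W3)) (cc : ℕ → (ℕ → ℂ) → ℕ → (ℕ → ℂ) → Prop) : Prop where
  iff : ∀ {u v : W3} {n n' : ℕ} {p p' : ℕ → ℂ}, Pc u n p → Pc v n' p' → Cn (u, v) → ((u, v) ∈ Cc ↔ cc n p n' p')
  cn : ∀ a ∈ Cc, Cn a
  pos : ∀ a ∈ Cc, 0 < a.1.length ∧ 0 < a.2.length
  pos' : ∀ {n n' : ℕ} {p p' : ℕ → ℂ}, cc n p n' p' → 0 < n ∧ 0 < n'

/-- the class `Rc` of rests is given by `rc` (positions seen from the start, from the end) -/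
structure RCl (Rc : Set W3) (rc : ℕ → (ℕ → ℂ) → (ℕ → ℂ) → Prop) : Prop where
  iff : ∀ {u : W3} {n : ℕ} {p q : ℕ → ℂ}, Pc u n p → Pc u.reverse n q → Even n → SW u → (u ∈ Rc ↔ rc n p q)
  ev : ∀ R ∈ Rc, Even R.length

lemma CCl.and {Cc : Set (W3 × W3)} {cc : ℕ → (ℕ → ℂ) → ℕ → (ℕ → ℂ) → Prop} (h : CCl Cc cc) (X : PC2) :
    CCl {a | a ∈ Cc ∧ a ∈ X.S} fun n p n' p' => cc n p n' p' ∧ X.P n p n' p' where
  iff h1 h2 hc := and_congr (h.iff h1 h2 hc) (h1.mem2 h2 X)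
  cn a ha := h.cn a ha.1
  pos a ha := h.pos a ha.1
  pos' hc := h.pos' hc.1

lemma RCl.and {Rc : Set W3} {rc : ℕ → (ℕ → ℂ) → (ℕ → ℂ) → Prop} (h : RCl Rc rc) (Y Y' : PC) :
    RCl {R | R ∈ Rc ∧ R ∈ Y.S ∧ R.reverse ∈ Y'.S} fun n p q => rc n p q ∧ Y.P n p ∧ Y'.P n q where
  iff h1 h2 he hs := and_congr (h.iff h1 h2 he hs) (and_congr (h1.mem Y) (h2.mem Y'))
  ev R hR := h.ev R hR.1

theorem CCl.conC (d d' : ℂ) (r : ℝ) : CCl {a | ConC d d' r a} (conP d d' r) where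
  iff h1 h2 hc := h1.con h2 hc d d' r
  cn _ ha := ha.cn
  pos _ ha := ⟨ha.t1.pos, ha.t2.pos⟩
  pos' h := ⟨h.1.1, h.2.1.1⟩

theorem CCl.conK (d d' : ℂ) (r κ : ℝ) : CCl {a | ConK d d' r κ a} (conKP d d' r κ) where
  iff h1 h2 hc := h1.conK h2 hc d d' r κ
  cn _ ha := ha.cn
  pos _ ha := ⟨ha.t1.pos, ha.t2.pos⟩
  pos' h := ⟨h.1.1, h.2.1.1⟩

/-- **double gates** -/
theorem CCl.conD {d d' : ℂ} (r l r2 m κ1 : ℝ) {κ : ℝ} (hd : ‖d + d'‖ ≤ 1) (hκ : 0 ≤ κ) :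
    CCl {a | ∃ k1 k2, ConD d d' r l r2 m κ1 κ a k1 k2}
      fun n p n' p' => ∃ k1 k2, conDP d d' r l r2 m κ1 κ n p n' p' k1 k2 where
  iff h1 h2 hc := exists₂_congr fun k1 k2 => h1.conD h2 hc d d' r l r2 m κ1 κ k1 k2
  cn := by
    rintro a ⟨k1, k2, h⟩
    exact (h.k hd hκ).cn
  pos := by
    rintro a ⟨k1, k2, h⟩
    exact ⟨(h.k hd hκ).t1.pos, (h.k hd hκ).t2.pos⟩
  pos' := by
    rintro n n' p p' ⟨k1, k2, h⟩
    have h1 := h.1.2.2.2.2.1.1.1
    have h2 := h.2.1.2.2.2.2.1.1.1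
    omega

theorem RCl.rsC (d d' : ℂ) (r0 r0' D : ℝ) : RCl {R | RsC d d' r0 r0' D R}
    fun n p q => restP d r0 n p ∧ restP d' r0' n q ∧ D ≤ ‖p n‖ where
  iff h1 h2 he hs := h1.rs h2 he hs d d' r0 r0' D
  ev _ h := h.ev

theorem RCl.rsK (d d' : ℂ) (r0 r0' κ κ' D : ℝ) : RCl {R | RsK d d' r0 r0' κ κ' D R}
    fun n p q => restKP d r0 κ n p ∧ restKP d' r0' κ' n q ∧ D ≤ ‖p n‖ where
  iff h1 h2 he hs := h1.rsK h2 he hs d d' r0 r0' κ κ' D
  ev _ h := h.ev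

/-- **rests with two marks inside** -/
theorem RCl.three {K As K' : Set W3} {kc kc' : ℕ → (ℕ → ℂ) → Prop} {ac : ℕ → (ℕ → ℂ) → (ℕ → ℂ) → Prop}
    (hK : ∀ {u : W3} {n : ℕ} {p : ℕ → ℂ}, Pc u n p → SW u → (u ∈ K ↔ Even n ∧ kc n p))
    (hK' : ∀ {u : W3} {n : ℕ} {p : ℕ → ℂ}, Pc u n p → SW u → (u ∈ K' ↔ Even n ∧ kc' n p))
    (hA : RCl As ac) : RCl {R | Even R.length ∧ ∃ i j : ℕ, i ≤ j ∧ j ≤ R.length ∧ R.take i ∈ K ∧ seg R i j ∈ As ∧
        (R.drop j).reverse ∈ K'}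
      fun n p q => ∃ i j : ℕ, i ≤ j ∧ j ≤ n ∧ (Even i ∧ kc i p) ∧ (Even j ∧ ac (j - i) (psh p i) (pshb p j)) ∧ kc' (n - j) q where
  iff := by
    intro u n p q h hr he hs
    have hl := h.len
    constructor
    · rintro ⟨-, i, j, hij, hj, h1, h2, h3⟩
      have hjn : j ≤ n := hl ▸ hj
      have a1 := (hK (h.take (hij.trans hjn)) (SW.take' hs i)).1 h1
      have ej : Even j := by
        have := hA.ev _ h2
        rw [length_seg hj, Nat.even_sub hij] at this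
        exact this.2 a1.1
      have hsr : SW u.reverse := (SW_reverse (by rw [hl]; exact he)).2 hs
      have e3 : (u.drop j).reverse = u.reverse.take (n - j) := by
        rw [List.take_reverse, hl, show n - (n - j) = j by omega]
      rw [e3] at h3
      have a3 := (hK' (hr.take (Nat.sub_le _ _)) (SW.take' hsr _)).1 h3
      have e4 : SW (seg u i j) := by
        have := SW.take' (SW.drop' hs (by omega : i ≤ u.length) a1.1) (j - i)
        exact this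
      have hp : Pc (seg u i j) (j - i) (psh p i) :=
        (pc_seg a1.1 hij hj).congr fun l hl' => by rw [fw, h.pos _ (by omega), h.pos _ (by omega), psh]
      have hq : Pc (seg u i j).reverse (j - i) (pshb p j) :=
        (pc_seg_rev a1.1 ej hij hj).congr fun l hl' => by rw [bw, h.pos _ (by omega), h.pos _ (by omega), pshb]
      exact ⟨i, j, hij, hjn, a1, ⟨ej, (hA.iff hp hq ((Nat.even_sub hij).2 ⟨fun _ => a1.1, fun _ => ej⟩) e4).1 h2⟩, a3.2⟩
    · rintro ⟨i, j, hij, hjn, a1, ⟨ej, a2⟩, a3⟩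
      have hj : j ≤ u.length := by rw [hl]; exact hjn
      have hsr : SW u.reverse := (SW_reverse (by rw [hl]; exact he)).2 hs
      have e3 : (u.drop j).reverse = u.reverse.take (n - j) := by
        rw [List.take_reverse, hl, show n - (n - j) = j by omega]
      have e4 : SW (seg u i j) := by
        have := SW.take' (SW.drop' hs (by omega : i ≤ u.length) a1.1) (j - i)
        exact this
      have hp : Pc (seg u i j) (j - i) (psh p i) :=
        (pc_seg a1.1 hij hj).congr fun l hl' => by rw [fw, h.pos _ (by omega), h.pos _ (by omega), psh]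
      have hq : Pc (seg u i j).reverse (j - i) (pshb p j) :=
        (pc_seg_rev a1.1 ej hij hj).congr fun l hl' => by rw [bw, h.pos _ (by omega), h.pos _ (by omega), pshb]
      refine ⟨by rw [hl]; exact he, i, j, hij, hj, (hK (h.take (hij.trans hjn)) (SW.take' hs i)).2 a1,
        (hA.iff hp hq ((Nat.even_sub hij).2 ⟨fun _ => a1.1, fun _ => ej⟩) e4).2 a2, ?_⟩
      rw [e3]
      exact (hK' (hr.take (Nat.sub_le _ _)) (SW.take' hsr _)).2 ⟨(Nat.even_sub hjn).2 ⟨fun _ => ej, fun _ => he⟩, a3⟩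
  ev R h := h.1

/-- **all the pieces of a closed word** -/
theorem pieces_gen {w : W3} (h : Cl w) {k1 k2 m k3 k4 : ℕ} (h1 : k1 ≤ k2) (h2 : k2 ≤ m) (h3 : m ≤ k3) (h4 : k3 ≤ k4)
    (h5 : k4 ≤ w.length) {C C' : Set (W3 × W3)} {RA RB : Set W3} {c c' : ℕ → (ℕ → ℂ) → ℕ → (ℕ → ℂ) → Prop}
    {ra rb : ℕ → (ℕ → ℂ) → (ℕ → ℂ) → Prop} (hC : CCl C c) (hC' : CCl C' c') (hA : RCl RA ra) (hB : RCl RB rb) :
    ((seg w 0 k1, (w.drop k4).reverse) ∈ C ∧ seg w k1 k2 ∈ RA ∧ ((seg w k2 m).reverse, seg w m k3) ∈ C' ∧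
        (seg w k3 k4).reverse ∈ RB) ↔
      (Even k1 ∧ Even k2 ∧ Even m ∧ Even k3 ∧ Even k4) ∧
      c k1 (ps w) (w.length - k4) (fun j => ps w (w.length - j)) ∧ ra (k2 - k1) (fw w k1) (bw w k2) ∧
      c' (m - k2) (bw w m) (k3 - m) (fw w m) ∧ rb (k4 - k3) (bw w k4) (fw w k3) := by
  have ev : ∀ {a b : ℕ}, a ≤ b → Even a → Even b → Even (b - a) := fun hab ea eb =>
    (Nat.even_sub hab).2 ⟨fun _ => ea, fun _ => eb⟩
  have key : 0 < k1 → k4 < w.length → k2 < m → (Even k1 ∧ Even k2 ∧ Even m ∧ Even k3 ∧ Even k4) →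
      ((seg w 0 k1, (w.drop k4).reverse) ∈ C ↔ c k1 (ps w) (w.length - k4) (fun j => ps w (w.length - j))) ∧
      (seg w k1 k2 ∈ RA ↔ ra (k2 - k1) (fw w k1) (bw w k2)) ∧
      (((seg w k2 m).reverse, seg w m k3) ∈ C' ↔ c' (m - k2) (bw w m) (k3 - m) (fw w m)) ∧
      ((seg w k3 k4).reverse ∈ RB ↔ rb (k4 - k3) (bw w k4) (fw w k3)) := by
    rintro q1 q4 q2 ⟨e1, e2, e3, e4, e5⟩
    exact ⟨hC.iff (pc_zero (by omega)) (pc_last h e5 h5) (h.cn_zero e1 e5 (by omega) h5),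
      hA.iff (pc_seg e1 h1 (by omega)) (pc_seg_rev e1 e2 h1 (by omega)) (ev h1 e1 e2) (h.seg e1 h1 (by omega) (Or.inl q1)),
      hC'.iff (pc_seg_rev e2 e3 h2 (by omega)) (pc_seg e3 h3 (by omega))
        (h.cn_mid e2 e3 e4 h2 h3 (by omega) (Or.inl (by omega))),
      hB.iff (pc_seg_rev e4 e5 h4 h5) (pc_seg_rev_rev e4 h4 h5) (ev h4 e4 e5) (h.seg_reverse e4 e5 h4 h5 (Or.inr q4))⟩
  constructor
  · rintro ⟨c1, r1, c2, r2⟩
    have l1 : (seg w 0 k1).length = k1 := by rw [length_seg (by omega), Nat.sub_zero]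
    have l2 : (seg w k1 k2).length = k2 - k1 := length_seg (by omega)
    have l3 : (seg w k2 m).length = m - k2 := length_seg (by omega)
    have l4 : (seg w m k3).length = k3 - m := length_seg (by omega)
    have l5 : (seg w k3 k4).length = k4 - k3 := length_seg (by omega)
    have e1 : Even k1 := by have := (hC.cn _ c1).e1; simp only [l1] at this; exact this
    have q1 : 0 < k1 := by have := (hC.pos _ c1).1; simp only [l1] at this; exact this
    have q4 : k4 < w.length := by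
      have := (hC.pos _ c1).2
      simp only [List.length_reverse, List.length_drop] at this
      omega
    have e2 : Even k2 := by
      have := hA.ev _ r1
      rw [l2, Nat.even_sub h1] at this
      exact this.2 e1
    have e3 : Even m := by
      have := (hC'.cn _ c2).e1
      simp only [List.length_reverse, l3] at this
      rw [Nat.even_sub h2] at this
      exact this.2 e2
    have e4 : Even k3 := by
      have := (hC'.cn _ c2).e2
      simp only [l4] at this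
      rw [Nat.even_sub h3] at this
      exact this.2 e3
    have e5 : Even k4 := by
      have := hB.ev _ r2
      rw [List.length_reverse, l5, Nat.even_sub h4] at this
      exact this.2 e4
    have q2 : k2 < m := by
      have := (hC'.pos _ c2).1
      simp only [List.length_reverse, l3] at this
      omega
    obtain ⟨a1, a2, a3, a4⟩ := key q1 q4 q2 ⟨e1, e2, e3, e4, e5⟩
    exact ⟨⟨e1, e2, e3, e4, e5⟩, a1.1 c1, a2.1 r1, a3.1 c2, a4.1 r2⟩
  · rintro ⟨e, c1, r1, c2, r2⟩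
    have q := hC.pos' c1
    have q' := hC'.pos' c2
    obtain ⟨a1, a2, a3, a4⟩ := key q.1 (by omega) (by omega) e
    exact ⟨a1.2 c1, a2.2 r1, a3.2 c2, a4.2 r2⟩

end Pool.Agent.ROT.F3
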