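import Pool.Agent.ROT.F3ClsT
import Pool.Agent.ROT.F3PosK

/-!
# ROT / F3ClsP (helper61): the classes of F3Cls as predicates of position functions

`n` = number of letters, `p` = position function (`q` = the positions seen from the end, backwards). For every predicate of F3Cls:
`endQP`, `coneQP`, `coneRP`, `thP`, `preP`, `paiP`, `edP`, `rsqP`, `nrtP`, `mnqP`, `kcmP`, and `Pc.xxx` : `Pc u n p` ==> the class of
`u` is the predicate of `(n, p)`.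
* **`CCl.pai`** (thresholds `l + y`, `l + y'`), **`RCl.rst`**, **`RCl.man`** : the classes `Pai`, `Rst`, `Man` are given by position
  functions; `ev_dir` : two different native directions;
* **`Prm.pieces0`**, **`Prm.piecesR`** : the four pieces of a closed word with the roots `0`, `m`, in one equivalence, for the two
  lattices (arcs in any classes with `RCl`);
* `pieces_walk` : the three pieces of a walk.
-/

set_option autoImplicit false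

namespace Pool.Agent.ROT.F3

open Finset ComplexConjugate
open scoped ENNReal Classical

/-! ### the predicates -/

/-- `EndQ` -/
def endQP (d : ℂ) (c e : ℝ) (n : ℕ) (p : ℕ → ℂ) : Prop := c * ‖p n‖ + e ≤ lv d (p n)

/-- `ConeQ` -/
def coneQP (d : ℂ) (c κ : ℝ) (n : ℕ) (p : ℕ → ℂ) : Prop := ∀ k : ℕ, k ≤ n → Kn d c κ (p k)

/-- `ConeR` -/
def coneRP (d : ℂ) (c r0 κ : ℝ) (n : ℕ) (p : ℕ → ℂ) : Prop := ∀ k : ℕ, k ≤ n → Kn d c κ (p k) ∨ r0 - κ ≤ ‖p k‖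

/-- `ThC` -/
def thP (d : ℂ) (h : ℝ) (n : ℕ) (p : ℕ → ℂ) : Prop := ∃ k : ℕ, Even k ∧ 0 < k ∧ k < n ∧ cutP d n p k ∧ h ≤ lv d (p k)

/-- `PreM` -/
def preP (d : ℂ) (P : Tp) (S T : ℝ) (n : ℕ) (p : ℕ → ℂ) (k : ℕ) : Prop :=
  dblP d (P.r * S) (P.l * S) (P.r2 * S) (P.m * S) n p k ∧ thP d (P.th * P.m * S) (n - k) (psh p k) ∧
    endQP d P.cs (P.e * S) k p ∧ coneQP d P.c (P.κ1 * S) (n - k) (psh p k) ∧ (k : ℝ) ≤ P.la * T ∧
    ((n - k : ℕ) : ℝ) ≤ P.lb * T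

/-- `PaiM`, without disjointness -/
def paiP (d d' : ℂ) (P P' : Tp) (S T : ℝ) (n : ℕ) (p : ℕ → ℂ) (n' : ℕ) (p' : ℕ → ℂ) (k1 k2 : ℕ) : Prop :=
  preP d P S T n p k1 ∧ preP d' P' S T n' p' k2 ∧
    (∀ k : ℕ, k ≤ k2 → lv d (p' k) ≤ P.w * S ∨ Kn d' P'.cs (P'.κs * S) (p' k)) ∧
    ∀ k : ℕ, k ≤ k1 → lv d' (p k) ≤ P'.w * S ∨ Kn d P.cs (P.κs * S) (p k)

/-- `EdQ` -/
def edP (d : ℂ) (P : Tp) (S : ℝ) (n : ℕ) (p : ℕ → ℂ) : Prop :=
  restP d (P.rg * S) n p ∧ coneRP d P.c (P.r0 * S) (P.κ * S) n p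

/-- `RsQ` -/
def rsqP (d d' : ℂ) (P Q : Tp) (W : Wn) (S T : ℝ) (n : ℕ) (p q : ℕ → ℂ) : Prop :=
  edP d P S n p ∧ edP d' Q S n q ∧ (W.D0 * S ≤ ‖p n‖ ∧ ‖p n‖ ≤ W.D1 * S) ∧ W.t0 * T ≤ (n : ℝ) ∧ (n : ℝ) ≤ W.t1 * T

/-- `NRt` -/
def nrtP (d : ℂ) (s : Sr) (S : ℝ) (n : ℕ) (p : ℕ → ℂ) : Prop := ∃ ke : ℕ, ke ≤ n ∧
  (∀ k : ℕ, k ≤ ke → -(s.e * S) ≤ lv d (p k) ∧ lv d (p k) ≤ s.len * S ∧ |ltl d (p k)| ≤ s.hw * S) ∧
  ∀ k : ℕ, ke ≤ k → k ≤ n → s.bn * S ≤ ‖p k‖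

/-- `MnQ` -/
def mnqP (d d' : ℂ) (P Q : Tp) (W : Wn) (s s' : Sr) (S T : ℝ) (n : ℕ) (p q : ℕ → ℂ) : Prop :=
  rsqP d d' P Q W S T n p q ∧ nrtP d s S n p ∧ nrtP d' s' S n q

/-- `KcM` -/
def kcmP (d t : ℂ) (E : En) (S T : ℝ) (n : ℕ) (p : ℕ → ℂ) (j : ℕ) : Prop :=
  j ≤ n ∧ (∀ i : ℕ, i ≤ j → ‖p i‖ ≤ E.rk * S) ∧ (∀ i : ℕ, j ≤ i → i ≤ n → ‖p i - p j‖ ≤ E.f.r2 * S) ∧
    coneQP d E.n.c (E.κk * S) n p ∧ (∀ i : ℕ, j ≤ i → i ≤ n → Kn t E.f.c (E.f.κ1 * S) (p i - p j)) ∧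
    E.n.c * ‖p n‖ + E.ek * S ≤ lv d (p n) ∧ (∀ i : ℕ, 0 < i → i ≤ n → 0 < lv d (p i)) ∧ (n : ℝ) ≤ E.lk * T ∧
    ‖p n - ((E.kc * S : ℝ) : ℂ) * d‖ ≤ E.kr * S

/-! ### the equivalences -/

section Pc

variable {u v : W3} {n n' : ℕ} {p p' q : ℕ → ℂ}

lemma Pc.endQ (h : Pc u n p) (d : ℂ) (c e : ℝ) : EndQ d c e u ↔ endQP d c e n p := by
  rw [EndQ, endQP, h.en]

lemma Pc.coneQ (h : Pc u n p) (d : ℂ) (c κ : ℝ) : ConeQ d c κ u ↔ coneQP d c κ n p := by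
  unfold ConeQ coneQP
  rw [h.len]
  exact forall₂_congr fun k hk => by rw [h.pos k hk]

lemma Pc.coneR (h : Pc u n p) (d : ℂ) (c r0 κ : ℝ) : ConeR d c r0 κ u ↔ coneRP d c r0 κ n p := by
  unfold ConeR coneRP
  rw [h.len]
  exact forall₂_congr fun k hk => by rw [h.pos k hk]

lemma Pc.thc (h : Pc u n p) (d : ℂ) (x : ℝ) : ThC d x u ↔ thP d x n p := by
  unfold ThC thP
  rw [h.len]
  refine exists_congr fun k => and_congr_right fun _ => and_congr_right fun _ => and_congr_right fun hk => ?_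
  rw [h.cut d hk.le, h.pos k hk.le]

/-- **prefixes** -/
lemma Pc.pre (h : Pc u n p) (he : Even n) (hs : SW u) (d : ℂ) (P : Tp) (S T : ℝ) (k : ℕ) :
    PreM d P S T u k ↔ preP d P S T n p k := by
  have hl := h.len
  have key : dblP d (P.r * S) (P.l * S) (P.r2 * S) (P.m * S) n p k →
      ((ThC d (P.th * P.m * S) (u.drop k) ↔ thP d (P.th * P.m * S) (n - k) (psh p k)) ∧
      (EndQ d P.cs (P.e * S) (u.take k) ↔ endQP d P.cs (P.e * S) k p) ∧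
      (ConeQ d P.c (P.κ1 * S) (u.drop k) ↔ coneQP d P.c (P.κ1 * S) (n - k) (psh p k)) ∧ (u.drop k).length = n - k) := by
    rintro ⟨hk, ek, -⟩
    exact ⟨(h.drop hk ek).thc d _, (h.take hk).endQ d _ _, (h.drop hk ek).coneQ d _ _, (h.drop hk ek).len⟩
  constructor
  · intro t
    have g := (h.dbl he hs d _ _ _ _ k).1 t.g
    obtain ⟨a1, a2, a3, a4⟩ := key g
    exact ⟨g, a1.1 t.th, a2.1 t.e, a3.1 t.s, t.la, by rw [← a4]; exact t.lb⟩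
  · rintro ⟨g, b1, b2, b3, b4, b5⟩
    obtain ⟨a1, a2, a3, a4⟩ := key g
    exact ⟨(h.dbl he hs d _ _ _ _ k).2 g, a1.2 b1, a2.2 b2, a3.2 b3, b4, by rw [a4]; exact b5⟩

/-- **pairs** -/
lemma Pc.pai (h : Pc u n p) (h' : Pc v n' p') (hc : Cn (u, v)) (d d' : ℂ) (P P' : Tp) (S T : ℝ) (k1 k2 : ℕ) :
    PaiM d d' P P' S T (u, v) k1 k2 ↔ paiP d d' P P' S T n p n' p' k1 k2 := by
  have en1 : Even n := by
    have := hc.e1
    simp only [h.len] at this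
    exact this
  have en2 : Even n' := by
    have := hc.e2
    simp only [h'.len] at this
    exact this
  have key : k1 ≤ n → k2 ≤ n' →
      ((∀ k : ℕ, k ≤ k2 → lv d (ps v k) ≤ P.w * S ∨ Kn d' P'.cs (P'.κs * S) (ps v k)) ↔
        ∀ k : ℕ, k ≤ k2 → lv d (p' k) ≤ P.w * S ∨ Kn d' P'.cs (P'.κs * S) (p' k)) ∧
      ((∀ k : ℕ, k ≤ k1 → lv d' (ps u k) ≤ P'.w * S ∨ Kn d P.cs (P.κs * S) (ps u k)) ↔
        ∀ k : ℕ, k ≤ k1 → lv d' (p k) ≤ P'.w * S ∨ Kn d P.cs (P.κs * S) (p k)) := fun a1 a2 =>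
    ⟨forall₂_congr fun k hk => by rw [h'.pos k (by omega)], forall₂_congr fun k hk => by rw [h.pos k (by omega)]⟩
  unfold paiP
  rw [← h.pre en1 hc.s1, ← h'.pre en2 hc.s2]
  constructor
  · intro t
    obtain ⟨c1, c2⟩ := key (by rw [← h.len]; exact t.p1.g.le) (by rw [← h'.len]; exact t.p2.g.le)
    exact ⟨t.p1, t.p2, c1.1 t.w2, c2.1 t.w1⟩
  · rintro ⟨p1, p2, w2, w1⟩
    have a1 : k1 ≤ n := by rw [← h.len]; exact p1.g.le
    have a2 : k2 ≤ n' := by rw [← h'.len]; exact p2.g.le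
    obtain ⟨c1, c2⟩ := key a1 a2
    exact ⟨p1, p2, c1.2 w2, c2.2 w1, fun j k hj hk he =>
      hc.dj j k (by simp only [h.len]; omega) (by simp only [h'.len]; omega) he⟩

lemma Pc.ed (h : Pc u n p) (d : ℂ) (P : Tp) (S : ℝ) : EdQ d P S u ↔ edP d P S n p := by
  rw [edP, ← h.rest, ← h.coneR]
  exact ⟨fun t => ⟨t.right, t.cone⟩, fun t => ⟨t.1, t.2⟩⟩

/-- **rests** -/
lemma Pc.rsq (h : Pc u n p) (hr : Pc u.reverse n q) (he : Even n) (hs : SW u) (d d' : ℂ) (P Q : Tp) (W : Wn) (S T : ℝ) :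
    RsQ d d' P Q W S T u ↔ rsqP d d' P Q W S T n p q := by
  rw [rsqP, ← h.ed, ← hr.ed, ← h.en]
  constructor
  · intro t
    exact ⟨t.s, t.e, ⟨t.far, t.near⟩, by rw [← h.len]; exact t.lo, by rw [← h.len]; exact t.hi⟩
  · rintro ⟨a, b, ⟨c, e⟩, f, g⟩
    exact ⟨by rw [h.len]; exact he, hs, a, b, c, e, by rw [h.len]; exact f, by rw [h.len]; exact g⟩

lemma Pc.nrt (h : Pc u n p) (d : ℂ) (s : Sr) (S : ℝ) : NRt d s S u ↔ nrtP d s S n p := by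
  unfold NRt nrtP
  rw [h.len]
  refine exists_congr fun ke => and_congr_right fun hk => and_congr ?_ ?_
  · exact forall₂_congr fun k hk' => by rw [h.pos k (by omega)]
  · exact forall₃_congr fun k _ hk' => by rw [h.pos k hk']

/-- **main arcs** -/
lemma Pc.mnq (h : Pc u n p) (hr : Pc u.reverse n q) (he : Even n) (hs : SW u) (d d' : ℂ) (P Q : Tp) (W : Wn) (s s' : Sr)
    (S T : ℝ) : MnQ d d' P Q W s s' S T u ↔ mnqP d d' P Q W s s' S T n p q := by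
  rw [mnqP, ← h.rsq hr he hs, ← h.nrt, ← hr.nrt]
  exact ⟨fun t => ⟨t.q, t.np, t.nq⟩, fun t => ⟨t.1, t.2.1, t.2.2⟩⟩

/-- **the pieces `k`** -/
lemma Pc.kcm (h : Pc u n p) (d t : ℂ) (E : En) (S T : ℝ) (j : ℕ) : KcM d t E S T u j ↔ kcmP d t E S T n p j := by
  have hl := h.len
  have key : j ≤ n → ((∀ i : ℕ, i ≤ j → ‖ps u i‖ ≤ E.rk * S) ↔ ∀ i : ℕ, i ≤ j → ‖p i‖ ≤ E.rk * S) ∧
      ((∀ i : ℕ, j ≤ i → i ≤ u.length → ‖ps u i - ps u j‖ ≤ E.f.r2 * S) ↔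
        ∀ i : ℕ, j ≤ i → i ≤ n → ‖p i - p j‖ ≤ E.f.r2 * S) ∧
      ((∀ i : ℕ, j ≤ i → i ≤ u.length → Kn t E.f.c (E.f.κ1 * S) (ps u i - ps u j)) ↔
        ∀ i : ℕ, j ≤ i → i ≤ n → Kn t E.f.c (E.f.κ1 * S) (p i - p j)) := by
    intro hj
    rw [hl]
    exact ⟨forall₂_congr fun i hi => by rw [h.pos i (by omega)],
      forall₃_congr fun i _ hi => by rw [h.pos i hi, h.pos j hj],
      forall₃_congr fun i _ hi => by rw [h.pos i hi, h.pos j hj]⟩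
  have k4 : (∀ i : ℕ, 0 < i → i ≤ u.length → 0 < lv d (ps u i)) ↔ ∀ i : ℕ, 0 < i → i ≤ n → 0 < lv d (p i) := by
    rw [hl]
    exact forall₃_congr fun i _ hi => by rw [h.pos i hi]
  unfold kcmP
  rw [← h.coneQ, ← h.en, ← k4]
  constructor
  · intro t
    have hj : j ≤ n := by rw [← hl]; exact t.le
    obtain ⟨c1, c2, c3⟩ := key hj
    exact ⟨hj, c1.1 t.b1, c2.1 t.b2, t.s, c3.1 t.s2, t.e, t.right, by rw [← hl]; exact t.lk, t.cell⟩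
  · rintro ⟨hj, b1, b2, s, s2, e, r, lk, ce⟩
    obtain ⟨c1, c2, c3⟩ := key hj
    exact ⟨by rw [hl]; exact hj, c1.2 b1, c2.2 b2, s, c3.2 s2, e, ce, r, by rw [hl]; exact lk⟩

end Pc

/-! ### the classes -/

/-- two different native directions -/
lemma ev_dir {i j : Fin 3} (h : i ≠ j) : ‖ev i + ev j‖ ≤ 1 := by
  have h1 : ‖ev i + ev j‖ ^ 2 = 1 := by
    have h2 : ‖ev i + ev j‖ ^ 2 = ‖ev i‖ ^ 2 + ‖ev j‖ ^ 2 + 2 * lv (ev i) (ev j) := by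
      rw [← Complex.normSq_eq_norm_sq, ← Complex.normSq_eq_norm_sq, ← Complex.normSq_eq_norm_sq, Complex.normSq_add, lv]
      congr 2
      rw [← Complex.conj_re, map_mul, Complex.conj_conj, mul_comm]
    rw [h2, ev_norm, ev_norm, lv_ev_ev, if_neg h]
    norm_num
  nlinarith [norm_nonneg (ev i + ev j)]

/-- **pairs**, thresholds `l + y`, `l + y'` -/
theorem CCl.pai {d d' : ℂ} {P : Tp} {y y' S T : ℝ} (hP : P.Ok) (hy : 0 ≤ y) (hy' : 0 ≤ y') (hS : 0 < S)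
    (hd : ‖d + d'‖ ≤ 1) (n1 : ‖d‖ = 1) (n2 : ‖d'‖ = 1) :
    CCl (Pai d d' (P.up y) (P.up y') S T) fun n p n' p' => ∃ k1 k2, paiP d d' (P.up y) (P.up y') S T n p n' p' k1 k2 where
  iff h1 h2 hc := exists₂_congr fun k1 k2 => h1.pai h2 hc d d' _ _ S T k1 k2
  cn := by
    rintro a ⟨k1, k2, h⟩
    exact (h.k hP hy hy' hS hd n1 n2).cn
  pos := by
    rintro a ⟨k1, k2, h⟩
    exact ⟨h.p1.g.tip.pos, h.p2.g.tip.pos⟩
  pos' := by
    rintro n n' p p' ⟨k1, k2, h⟩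
    have h1 := h.1.1.2.2.2.2.1.1.1
    have h2 := h.2.1.1.2.2.2.2.1.1.1
    omega

/-- the same on the lattice 0 -/
theorem CCl.pai0 {d d' : ℂ} {P : Tp} {S T : ℝ} (hP : P.Ok) (hS : 0 < S) (hd : ‖d + d'‖ ≤ 1) (n1 : ‖d‖ = 1) (n2 : ‖d'‖ = 1) :
    CCl (Pai d d' P P S T) fun n p n' p' => ∃ k1 k2, paiP d d' P P S T n p n' p' k1 k2 := by
  have := CCl.pai (T := T) hP le_rfl le_rfl hS hd n1 n2
  simpa only [Tp.up_zero] using this

/-- **rests, companions** -/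
theorem RCl.rst (d d' : ℂ) (P Q : Tp) (W : Wn) (S T : ℝ) : RCl (Rst d d' P Q W S T) (rsqP d d' P Q W S T) where
  iff h1 h2 he hs := h1.rsq h2 he hs d d' P Q W S T
  ev _ h := h.ev

/-- **main arcs** -/
theorem RCl.man (d d' : ℂ) (P Q : Tp) (W : Wn) (s s' : Sr) (S T : ℝ) :
    RCl (Man d d' P Q W s s' S T) (mnqP d d' P Q W s s' S T) where
  iff h1 h2 he hs := h1.mnq h2 he hs d d' P Q W s s' S T
  ev _ h := h.q.ev

/-- **the pieces of a closed word, lattice 0**: strands of the classes `i ≠ j` at the roots `0`, `m`; the arcs in any classes with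
`RCl` (`RCl.rst`, `RCl.man`, `.and`) -/
theorem Prm.pieces0 {P : Prm} (hP : P.p.n.Ok) (hQ : P.q.n.Ok) {N : ℕ} (hN : 0 < N) {i j : Fin 3} (hij : i ≠ j) {w : W3}
    (h : Cl w) {k1 k2 m k3 k4 : ℕ} (h1 : k1 ≤ k2) (h2 : k2 ≤ m) (h3 : m ≤ k3) (h4 : k3 ≤ k4) (h5 : k4 ≤ w.length)
    {RA RB : Set W3} {ra rb : ℕ → (ℕ → ℂ) → (ℕ → ℂ) → Prop} (hA : RCl RA ra) (hB : RCl RB rb) :
    ((seg w 0 k1, (w.drop k4).reverse) ∈ P.C0p i j N ∧ seg w k1 k2 ∈ RA ∧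
        ((seg w k2 m).reverse, seg w m k3) ∈ P.C0q i j N ∧ (seg w k3 k4).reverse ∈ RB) ↔
      (Even k1 ∧ Even k2 ∧ Even m ∧ Even k3 ∧ Even k4) ∧
      (∃ j1 j2, paiP (ev i) (ev j) P.p.n P.p.n N (uT N) k1 (ps w) (w.length - k4) (fun j => ps w (w.length - j)) j1 j2) ∧
      ra (k2 - k1) (fw w k1) (bw w k2) ∧
      (∃ j1 j2, paiP (ev (-i)) (ev (-j)) P.q.n P.q.n N (uT N) (m - k2) (bw w m) (k3 - m) (fw w m) j1 j2) ∧
      rb (k4 - k3) (bw w k4) (fw w k3) := by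
  have hS : (0 : ℝ) < N := Nat.cast_pos.2 hN
  exact pieces_gen h h1 h2 h3 h4 h5 (CCl.pai0 hP hS (ev_dir hij) (ev_norm _) (ev_norm _))
    (CCl.pai0 hQ hS (ev_dir fun e => hij (neg_injective e)) (ev_norm _) (ev_norm _)) hA hB

/-- **the pieces of a closed word, rotated lattice**, thresholds `f.l + y` .. -/
theorem Prm.piecesR {P : Prm} (hP : P.p.f.Ok) (hQ : P.q.f.Ok) {N : ℕ} (hN : 0 < N) {i j : Fin 3} (hij : i ≠ j)
    {y y' z z' : ℝ} (hy : 0 ≤ y) (hy' : 0 ≤ y') (hz : 0 ≤ z) (hz' : 0 ≤ z') {w : W3}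
    (h : Cl w) {k1 k2 m k3 k4 : ℕ} (h1 : k1 ≤ k2) (h2 : k2 ≤ m) (h3 : m ≤ k3) (h4 : k3 ≤ k4) (h5 : k4 ≤ w.length)
    {RA RB : Set W3} {ra rb : ℕ → (ℕ → ℂ) → (ℕ → ℂ) → Prop} (hA : RCl RA ra) (hB : RCl RB rb) :
    ((seg w 0 k1, (w.drop k4).reverse) ∈ P.CRp i j y y' N ∧ seg w k1 k2 ∈ RA ∧
        ((seg w k2 m).reverse, seg w m k3) ∈ P.CRq i j z z' N ∧ (seg w k3 k4).reverse ∈ RB) ↔
      (Even k1 ∧ Even k2 ∧ Even m ∧ Even k3 ∧ Even k4) ∧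
      (∃ j1 j2, paiP (ev i) (ev j) (P.p.f.up y) (P.p.f.up y') N (uT N) k1 (ps w) (w.length - k4)
        (fun j => ps w (w.length - j)) j1 j2) ∧
      ra (k2 - k1) (fw w k1) (bw w k2) ∧
      (∃ j1 j2, paiP (ev (-i)) (ev (-j)) (P.q.f.up z) (P.q.f.up z') N (uT N) (m - k2) (bw w m) (k3 - m) (fw w m) j1 j2) ∧
      rb (k4 - k3) (bw w k4) (fw w k3) := by
  have hS : (0 : ℝ) < N := Nat.cast_pos.2 hN
  exact pieces_gen h h1 h2 h3 h4 h5 (CCl.pai hP hy hy' hS (ev_dir hij) (ev_norm _) (ev_norm _))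
    (CCl.pai hQ hz hz' hS (ev_dir fun e => hij (neg_injective e)) (ev_norm _) (ev_norm _)) hA hB

/-- the pieces of a walk (self-avoiding word): tip .. `x` = the first `i` letters, tip .. `x` of the other end = the last letters,
backwards -/
theorem pieces_walk {w : W3} (hw : SW w) (ew : Even w.length) {i j : ℕ} (hij : i ≤ j) (hj : j ≤ w.length) {d d' : ℂ} {P Q : Tp}
    {S T : ℝ} {RA : Set W3} {ra : ℕ → (ℕ → ℂ) → (ℕ → ℂ) → Prop} (hA : RCl RA ra) :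
    (w.take i ∈ Pre d P S T ∧ seg w i j ∈ RA ∧ (w.drop j).reverse ∈ Pre d' Q S T) ↔
      (Even i ∧ Even j) ∧ (∃ k, preP d P S T i (ps w) k) ∧ ra (j - i) (fw w i) (bw w j) ∧
        ∃ k, preP d' Q S T (w.length - j) (bw w w.length) k := by
  have hsr : SW w.reverse := (SW_reverse ew).2 hw
  have e3 : (w.drop j).reverse = w.reverse.take (w.length - j) := by
    rw [List.take_reverse, show w.length - (w.length - j) = j by omega]
  have ev' : ∀ {a b : ℕ}, a ≤ b → Even a → Even b → Even (b - a) := fun hab ea eb =>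
    (Nat.even_sub hab).2 ⟨fun _ => ea, fun _ => eb⟩
  have key : Even i → Even j →
      ((w.take i ∈ Pre d P S T ↔ ∃ k, preP d P S T i (ps w) k) ∧ (seg w i j ∈ RA ↔ ra (j - i) (fw w i) (bw w j)) ∧
        ((w.drop j).reverse ∈ Pre d' Q S T ↔ ∃ k, preP d' Q S T (w.length - j) (bw w w.length) k)) := by
    intro ei ej
    have p1 : Pc (w.take i) i (ps w) := (Pc.ofPs w).take (by omega)
    have p3 : Pc (w.drop j).reverse (w.length - j) (bw w w.length) := by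
      rw [← seg_full]
      exact pc_seg_rev ej ew hj le_rfl
    have s2 : SW (seg w i j) := SW.take' (SW.drop' hw (by omega) ei) (j - i)
    exact ⟨exists_congr fun k => p1.pre ei (SW.take' hw i) d P S T k,
      hA.iff (pc_seg ei hij hj) (pc_seg_rev ei ej hij hj) (ev' hij ei ej) s2,
      exists_congr fun k => p3.pre (ev' hj ej ew) (by rw [e3]; exact SW.take' hsr _) d' Q S T k⟩
  constructor
  · rintro ⟨a, b, c⟩
    have ei : Even i := by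
      obtain ⟨k, hk⟩ := a
      have := hk.g.tip.ev
      rwa [List.length_take, min_eq_left (by omega)] at this
    have ej : Even j := by
      have := hA.ev _ b
      rw [length_seg hj, Nat.even_sub hij] at this
      exact this.2 ei
    obtain ⟨k1, k2, k3⟩ := key ei ej
    exact ⟨⟨ei, ej⟩, k1.1 a, k2.1 b, k3.1 c⟩
  · rintro ⟨⟨ei, ej⟩, a, b, c⟩
    obtain ⟨k1, k2, k3⟩ := key ei ej
    exact ⟨k1.2 a, k2.2 b, k3.2 c⟩

end Pool.Agent.ROT.F3
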