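import Pool.Agent.ROT.F3CoreP
import Pool.Agent.ROT.F3ClsP

/-!
# ROT, F3, row Core (helper31): the marks of the three classes, from the three pairs

The pairs `k = 0, 1, 2` are `(0, 1)`, `(0, 2)`, `(1, 2)`; `j = (k, e) : J3` = pair and place (`e = false`: strand A, `e = true`:
strand B), `cl3 j` = the class at this place.

* `aJ`, `aJ'`, `cJ`, `cJ'` : the ends of the rest and the foreign marks at the place `j`; `rJ`, `qJ`, `FJ`;
* `q_dur`, `q_dur'` : equal durations give equal relative times;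
* **`cls3`** : sets `C a` and times `t a`, `t' a` of the three classes; outputs `h1`, `h2`, `o1`, `o2` of `Jm` for the three pairs;
* `AcV`, `V3`, `V3T` : the closed classes of (rest, relative times), `V3T` with the companions; **`hsub3`** : the field `hsub`.
-/

set_option autoImplicit false
set_option linter.unusedSectionVars false

open MeasureTheory Topology Set ProbabilityTheory Filter

open scoped ENNReal

namespace Pool.Agent.ROT.F3.CC

open Pool.Agent.ROT.F3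

/-! ### 1. Places -/

/-- the class at the first place of the pair `k` -/
def fA : Fin 3 → Fin 3 := ![0, 0, 1]

/-- the class at the second place of the pair `k` -/
def fB : Fin 3 → Fin 3 := ![1, 2, 2]

lemma fA_ne (k : Fin 3) : fA k ≠ fB k := by fin_cases k <;> decide

/-- pair and place -/
abbrev J3 : Type := Fin 3 × Bool

/-- the class at a place -/
def cl3 (j : J3) : Fin 3 := cond j.2 (fB j.1) (fA j.1)

/-- start of the rest at the place `j` -/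
def aJ (T : Fin 3 → Gm → Fin 8 → ℝ) (j : J3) (g : Gm) : ℝ := T j.1 g (cond j.2 6 1)

/-- end of the rest at the place `j` -/
def aJ' (T : Fin 3 → Gm → Fin 8 → ℝ) (j : J3) (g : Gm) : ℝ := T j.1 g (cond j.2 5 2)

/-- the foreign mark near the start -/
def cJ (SF : Fin 3 → Gm → M4) (j : J3) (g : Gm) : ℝ := cond j.2 (SF j.1 g).2.2.2 (SF j.1 g).1

/-- the foreign mark near the end -/
def cJ' (SF : Fin 3 → Gm → M4) (j : J3) (g : Gm) : ℝ := cond j.2 (SF j.1 g).2.2.1 (SF j.1 g).2.1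

/-- the rest -/
noncomputable def rJ (T : Fin 3 → Gm → Fin 8 → ℝ) (j : J3) (g : Gm) : Pie := pcut (cl g) (aJ T j g) (aJ' T j g)

/-- the foreign gates exist -/
def FJ (F1 F2 : Fin 3 → Set Gm) (j : J3) : Set Gm := cond j.2 (F2 j.1) (F1 j.1)

/-- relative times of the foreign marks -/
noncomputable def qJ (T : Fin 3 → Gm → Fin 8 → ℝ) (SF : Fin 3 → Gm → M4) (j : J3) (g : Gm) : ℝ × ℝ :=
  ((cJ SF j g - aJ T j g) / (aJ' T j g - aJ T j g), (cJ' SF j g - aJ T j g) / (aJ' T j g - aJ T j g))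

section

variable {T : Fin 3 → Gm → Fin 8 → ℝ} {SF : Fin 3 → Gm → M4} {F1 F2 : Fin 3 → Set Gm}

lemma aJ_meas (hT : ∀ k, Measurable (T k)) (j : J3) : Measurable (aJ T j) := (measurable_pi_apply _).comp (hT j.1)

lemma aJ'_meas (hT : ∀ k, Measurable (T k)) (j : J3) : Measurable (aJ' T j) := (measurable_pi_apply _).comp (hT j.1)

lemma cJ_meas (hS : ∀ k, Measurable (SF k)) (j : J3) : Measurable (cJ SF j) := by
  obtain ⟨k, e⟩ := j
  cases e
  · exact (hS k).fst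
  · exact (hS k).snd.snd.snd

lemma cJ'_meas (hS : ∀ k, Measurable (SF k)) (j : J3) : Measurable (cJ' SF j) := by
  obtain ⟨k, e⟩ := j
  cases e
  · exact (hS k).snd.fst
  · exact (hS k).snd.snd.fst

lemma rJ_meas (hT : ∀ k, Measurable (T k)) (j : J3) : Measurable (rJ T j) := by
  have h : Continuous fun q : Gm × ℝ × ℝ => pcut (cl q.1) q.2.1 q.2.2 :=
    pcut_cont' (cl_cont.comp continuous_fst) (by fun_prop) (by fun_prop)
  exact h.measurable.comp (measurable_id.prodMk ((aJ_meas hT j).prodMk (aJ'_meas hT j)))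

lemma qJ_meas (hT : ∀ k, Measurable (T k)) (hS : ∀ k, Measurable (SF k)) (j : J3) : Measurable (qJ T SF j) :=
  (((cJ_meas hS j).sub (aJ_meas hT j)).div ((aJ'_meas hT j).sub (aJ_meas hT j))).prodMk
    (((cJ'_meas hS j).sub (aJ_meas hT j)).div ((aJ'_meas hT j).sub (aJ_meas hT j)))

lemma FJ_meas (h1 : ∀ k, MeasurableSet (F1 k)) (h2 : ∀ k, MeasurableSet (F2 k)) (j : J3) : MeasurableSet (FJ F1 F2 j) := by
  obtain ⟨k, e⟩ := j
  cases e
  · exact h1 k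
  · exact h2 k

end

/-! ### 2. Durations and relative times -/

lemma rel_abs {a b x : ℝ} (hx : x ∈ uIcc a b) : (x - a) / (b - a) = |x - a| / |b - a| := by
  rcases le_total a b with h | h
  · rw [uIcc_of_le h] at hx
    rw [abs_of_nonneg (by linarith [hx.1]), abs_of_nonneg (by linarith)]
  · rw [uIcc_of_ge h] at hx
    rw [abs_of_nonpos (by linarith [hx.2]), abs_of_nonpos (by linarith), neg_div_neg_eq]

/-- equal durations from the start give equal relative times -/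
theorem q_dur {L L' a a' c b b' d : ℝ} (hL : 0 < L) (hL' : 0 < L') (hc : c ∈ uIcc a a') (hd : d ∈ uIcc b b')
    (hR : L * |a' - a| = L' * |b' - b|) (hu : L * |c - a| = L' * |d - b|) : (c - a) / (a' - a) = (d - b) / (b' - b) := by
  rw [rel_abs hc, rel_abs hd, ← mul_div_mul_left _ _ hL.ne', ← mul_div_mul_left |d - b| _ hL'.ne', hR, hu]

/-- equal durations to the end give equal relative times -/
theorem q_dur' {L L' a a' c b b' d : ℝ} (hL : 0 < L) (hL' : 0 < L') (ha : a ≠ a') (hb : b ≠ b') (hc : c ∈ uIcc a a')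
    (hd : d ∈ uIcc b b') (hR : L * |a' - a| = L' * |b' - b|) (hu : L * |a' - c| = L' * |b' - d|) :
    (c - a) / (a' - a) = (d - b) / (b' - b) := by
  have e1 : (c - a) / (a' - a) = 1 - (c - a') / (a - a') := by
    have h1 : a' - a ≠ 0 := fun h => ha (by linarith)
    have h2 : a - a' ≠ 0 := fun h => ha (by linarith)
    have h3 : (c - a') / (a - a') = -((c - a') / (a' - a)) := by rw [← neg_sub a' a, div_neg]
    rw [h3]
    field_simp
    ring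
  have e2 : (d - b) / (b' - b) = 1 - (d - b') / (b - b') := by
    have h1 : b' - b ≠ 0 := fun h => hb (by linarith)
    have h3 : (d - b') / (b - b') = -((d - b') / (b' - b)) := by rw [← neg_sub b' b, div_neg]
    rw [h3]
    field_simp
    ring
  rw [e1, e2, q_dur hL hL' (uIcc_comm a a' ▸ hc) (uIcc_comm b b' ▸ hd) (by rw [abs_sub_comm a a', abs_sub_comm b b']; exact hR)
    (by rw [abs_sub_comm c a', abs_sub_comm d b']; exact hu)]

/-! ### 3. The three classes -/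

/-- the outputs `h1`, `h2`, `o1`, `o2` of `Jm` for the pair `k` -/
structure Mk3 (μ : Measure Gm) (w0 : Gm → ℝ≥0∞) (T : Gm → Fin 8 → ℝ) (F1 F2 : Set Gm) (SF : Gm → M4) (C1 C2 : Set Pie)
    (t1 t1' t2 t2' : Pie → ℝ) : Prop where
  h1 : ∀ᵐ g ∂μ, w0 g ≠ 0 → ((rst g (m4 (T g))).1 ∈ C1 ↔ g ∈ F1) ∧
    (g ∈ F1 → t1 (rst g (m4 (T g))).1 = (rA (m4 (T g)) (SF g)).1 ∧ t1' (rst g (m4 (T g))).1 = (rA (m4 (T g)) (SF g)).2)
  h2 : ∀ᵐ g ∂μ, w0 g ≠ 0 → ((rst g (m4 (T g))).2.1 ∈ C2 ↔ g ∈ F2) ∧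
    (g ∈ F2 → t2 (rst g (m4 (T g))).2.1 = (rB (m4 (T g)) (SF g)).1 ∧ t2' (rst g (m4 (T g))).2.1 = (rB (m4 (T g)) (SF g)).2)
  o1 : ∀ᵐ g ∂μ, w0 g ≠ 0 → g ∈ F1 → T g 1 ≠ T g 2 ∧ (SF g).1 ∈ uIcc (T g 1) (T g 2) ∧ (SF g).2.1 ∈ uIcc (T g 1) (T g 2)
  o2 : ∀ᵐ g ∂μ, w0 g ≠ 0 → g ∈ F2 → T g 6 ≠ T g 5 ∧ (SF g).2.2.2 ∈ uIcc (T g 6) (T g 5) ∧
    (SF g).2.2.1 ∈ uIcc (T g 6) (T g 5)

/-- the joint marks from the marks of the rests, the marks of the connections and the two comparisons -/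
theorem Mk3.jm {μ : Measure Gm} {w0 wR : Gm → ℝ≥0∞} {T S : Gm → Fin 8 → ℝ} {F1 F2 Ep Eq : Set Gm} {SF TF : Gm → M4}
    {C1 C2 : Set Pie} {t1 t1' t2 t2' : Pie → ℝ} {Cp Cq : Set K4} {fp fq : K4 → Pie × Pie} {Z W : Set ℂ}
    (H : Mk3 μ w0 T F1 F2 SF C1 C2 t1 t1' t2 t2')
    (h3 : ∀ᵐ g ∂μ, wR g ≠ 0 → ((kap8 g (S g)).1 ∈ Cp ↔ g ∈ Ep) ∧ (g ∈ Ep → fp (kap8 g (S g)).1 = qpAt g (TF g) (m4 (S g))))
    (h4 : ∀ᵐ g ∂μ, wR g ≠ 0 → ((kap8 g (S g)).2 ∈ Cq ↔ g ∈ Eq) ∧ (g ∈ Eq → fq (kap8 g (S g)).2 = qqAt g (TF g) (m4 (S g))))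
    (h5 : ∀ᵐ g ∂μ, w0 g ≠ 0 → g ∈ F1 → g ∈ F2 → rst g (SF g) ∈ DD Prod.fst Prod.fst yP yP Z W →
      w0 g = wR g ∧ g ∈ Ep ∧ g ∈ Eq ∧ m4 (S g) = SF g ∧ TF g = m4 (T g))
    (h6 : ∀ᵐ g ∂μ, wR g ≠ 0 → g ∈ Ep → g ∈ Eq → rst g (m4 (S g)) ∈ DD Prod.fst Prod.fst yP yP Z W →
      w0 g ≠ 0 ∧ g ∈ F1 ∧ g ∈ F2 ∧ SF g = m4 (S g)) :
    Jm μ w0 wR T S F1 F2 Ep Eq SF TF C1 C2 t1 t1' t2 t2' Cp Cq fp fq Z W :=
  ⟨H.h1, H.h2, H.o1, H.o2, h3, h4, h5, h6⟩

/-- **the marks of the three classes.** `μ k`, `w k`, `T k` = law, weight and marks of the native class of the pair `k`; `F1 k`, `F2 k`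
= the strands A, B have the foreign gates, `SF k` = these marks; `G j` = the good curves for the place `j`. Inputs: order of the marks
(`ord`), membership in the closed class `V a` (`hGV`), locality of the gates: two good curves with the same rest (of the same class,
at any two places) have the foreign gates at the same durations from the ends of the rest (`loc`). -/
theorem cls3 {μ : Fin 3 → Measure Gm} [∀ k, SFinite (μ k)] {w : Fin 3 → Gm → ℝ≥0∞} (hw : ∀ k, Measurable (w k))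
    {T : Fin 3 → Gm → Fin 8 → ℝ} (hT : ∀ k, Measurable (T k)) {F1 F2 : Fin 3 → Set Gm} (hF1 : ∀ k, MeasurableSet (F1 k))
    (hF2 : ∀ k, MeasurableSet (F2 k)) {SF : Fin 3 → Gm → M4} (hS : ∀ k, Measurable (SF k)) {V : Fin 3 → Set (Pie × (ℝ × ℝ))}
    (hV : ∀ a, MeasurableSet (V a)) {G : J3 → Set Gm} (hG : ∀ j, ∀ᵐ g ∂(μ j.1), w j.1 g ≠ 0 → g ∈ G j)
    (ord : ∀ j, ∀ g ∈ G j, w j.1 g ≠ 0 → g ∈ FJ F1 F2 j →
      0 < g.1 ∧ aJ T j g ≠ aJ' T j g ∧ cJ SF j g ∈ uIcc (aJ T j g) (aJ' T j g) ∧ cJ' SF j g ∈ uIcc (aJ T j g) (aJ' T j g))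
    (hGV : ∀ j, ∀ g ∈ G j, w j.1 g ≠ 0 → g ∈ FJ F1 F2 j → (rJ T j g, qJ T SF j g) ∈ V (cl3 j))
    (loc : ∀ j j', cl3 j = cl3 j' → ∀ g ∈ G j, ∀ g' ∈ G j', w j.1 g ≠ 0 → w j'.1 g' ≠ 0 → rJ T j g = rJ T j' g' →
      g ∈ FJ F1 F2 j → g' ∈ FJ F1 F2 j' ∧ g.1 * |cJ SF j g - aJ T j g| = g'.1 * |cJ SF j' g' - aJ T j' g'| ∧
        g.1 * |aJ' T j g - cJ' SF j g| = g'.1 * |aJ' T j' g' - cJ' SF j' g'|) :
    ∃ (C : Fin 3 → Set Pie) (t t' : Fin 3 → Pie → ℝ), (∀ a, MeasurableSet (C a)) ∧ (∀ a, Measurable (t a)) ∧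
      (∀ a, Measurable (t' a)) ∧ (∀ a, ∀ x ∈ C a, (x, (t a x, t' a x)) ∈ V a) ∧
      ∀ k, Mk3 (μ k) (w k) (T k) (F1 k) (F2 k) (SF k) (C (fA k)) (C (fB k)) (t (fA k)) (t' (fA k)) (t (fB k)) (t' (fB k)) := by
  -- equal relative times
  have loc' : ∀ j j', cl3 j = cl3 j' → ∀ g ∈ G j, ∀ g' ∈ G j', w j.1 g ≠ 0 → w j'.1 g' ≠ 0 → rJ T j g = rJ T j' g' →
      g ∈ FJ F1 F2 j → g' ∈ FJ F1 F2 j' ∧ qJ T SF j g = qJ T SF j' g' := by
    intro j j' hj g hg g' hg' h1 h2 hr hF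
    obtain ⟨a1, a2, a3⟩ := loc j j' hj g hg g' hg' h1 h2 hr hF
    obtain ⟨b1, b2, b3, b4⟩ := ord j g hg h1 hF
    obtain ⟨c1, c2, c3, c4⟩ := ord j' g' hg' h2 a1
    have hR : g.1 * |aJ' T j g - aJ T j g| = g'.1 * |aJ' T j' g' - aJ T j' g'| := congrArg Prod.snd hr
    exact ⟨a1, Prod.ext (q_dur b1 c1 b3 c3 hR a2) (q_dur' b1 c1 b2 c2 b4 c4 hR a3)⟩
  have key : ∀ a : Fin 3, ∃ (C : Set Pie) (t t' : Pie → ℝ), MeasurableSet C ∧ Measurable t ∧ Measurable t' ∧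
      (∀ x ∈ C, (x, (t x, t' x)) ∈ V a) ∧
      ∀ i : {j : J3 // cl3 j = a}, ∀ᵐ g ∂(μ i.1.1), w i.1.1 g ≠ 0 → (rJ T i.1 g ∈ C ↔ g ∈ FJ F1 F2 i.1) ∧
        (g ∈ FJ F1 F2 i.1 → t (rJ T i.1 g) = (qJ T SF i.1 g).1 ∧ t' (rJ T i.1 g) = (qJ T SF i.1 g).2) := by
    intro a
    have hSF : ∀ i : {j : J3 // cl3 j = a}, SFinite (μ i.1.1) := fun i => inferInstance
    exact cls_marks (ι := {j : J3 // cl3 j = a}) (P := fun i => μ i.1.1) (w := fun i => w i.1.1) (fun i => hw _)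
      (r := fun i => rJ T i.1) (fun i => rJ_meas hT _) (F := fun i => FJ F1 F2 i.1) (fun i => FJ_meas hF1 hF2 _)
      (q := fun i => qJ T SF i.1) (fun i => qJ_meas hT hS _) (V := V a) (hV a) (G := fun i => G i.1) (fun i => hG i.1)
      (fun i g hg h1 hF => by
        have := hGV i.1 g hg h1 hF
        rwa [i.2] at this)
      (fun i j g hg g' hg' h1 h2 hr hF => loc' i.1 j.1 (i.2.trans j.2.symm) g hg g' hg' h1 h2 hr hF)
  choose C t t' m1 m2 m3 m4' m5 using key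
  refine ⟨C, t, t', m1, m2, m3, m4', fun k => ⟨?_, ?_, ?_, ?_⟩⟩
  · exact m5 (fA k) ⟨(k, false), rfl⟩
  · exact m5 (fB k) ⟨(k, true), rfl⟩
  · filter_upwards [hG (k, false)] with g hg h1 hF
    exact (ord (k, false) g (hg h1) h1 hF).2
  · filter_upwards [hG (k, true)] with g hg h1 hF
    exact (ord (k, true) g (hg h1) h1 hF).2

/-! ### 4. The closed classes -/

/-- the windows of the class `a` -/
def Wcl (P : Prm) (a : Fin 3) : Wn := if a = 0 then P.W else P.Wc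

/-- the closed class of the arcs of the class `a` (rotated lattice) -/
noncomputable def AcV (P : Prm) (a : Fin 3) : Set Pie :=
  if a = 0 then AmV (P.u * ev 0) (P.u * ev 0) P.p P.q P.W else ArV (P.u * ev a) (P.u * ev (-a)) P.p P.q P.Wc

/-- the closed class of (rest, relative times of the foreign marks) of the class `a` -/
noncomputable def V3 (P : Prm) (a : Fin 3) : Set (Pie × (ℝ × ℝ)) := VT (ev a) (ev (-a)) P.p P.q (AcV P a)

lemma acV_closed (P : Prm) (a : Fin 3) : IsClosed (AcV P a) := by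
  unfold AcV
  split_ifs
  · exact amV_closed _ _ _ _ _
  · exact arV_closed _ _ _ _ _

lemma v3_meas (P : Prm) (a : Fin 3) : MeasurableSet (V3 P a) := (vt_closed _ _ _ _ (acV_closed P a)).measurableSet

lemma v3_zero (P : Prm) : V3 P 0 = VT (ev 0) (ev 0) P.p P.q (AmV (P.u * ev 0) (P.u * ev 0) P.p P.q P.W) := by
  unfold V3 AcV
  rw [if_pos rfl, neg_zero]

lemma acV_sub (P : Prm) (a : Fin 3) : AcV P a ⊆ ArV (P.u * ev a) (P.u * ev (-a)) P.p P.q (Wcl P a) := by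
  unfold AcV Wcl
  by_cases h : a = 0
  · rw [if_pos h, if_pos h, h, neg_zero]
    exact amV_sub _ _ _ _ _
  · rw [if_neg h, if_neg h]

/-- the closed class with the companions `T0` of the rests of the class 0 -/
noncomputable def V3T (P : Prm) (T0 : Set Pie) (a : Fin 3) : Set (Pie × (ℝ × ℝ)) :=
  if a = 0 then V3 P a ∩ (T0 ×ˢ univ) else V3 P a

lemma v3T_meas (P : Prm) {T0 : Set Pie} (hT : MeasurableSet T0) (a : Fin 3) : MeasurableSet (V3T P T0 a) := by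
  unfold V3T
  split_ifs
  · exact (v3_meas P a).inter (hT.prod MeasurableSet.univ)
  · exact v3_meas P a

lemma v3T_sub (P : Prm) (T0 : Set Pie) (a : Fin 3) : V3T P T0 a ⊆ V3 P a := by
  unfold V3T
  split_ifs
  · exact inter_subset_left
  · exact subset_rfl

lemma v3T_zero {P : Prm} {T0 : Set Pie} {x : Pie × (ℝ × ℝ)} (h : x ∈ V3T P T0 0) : x.1 ∈ T0 := by
  unfold V3T at h
  rw [if_pos rfl] at h
  exact h.2.1

lemma v3T_mem {P : Prm} {T0 : Set Pie} {a : Fin 3} {x : Pie × (ℝ × ℝ)} (h : x ∈ V3 P a) (h0 : a = 0 → x.1 ∈ T0) :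
    x ∈ V3T P T0 a := by
  unfold V3T
  split_ifs with ha
  · exact ⟨h, h0 ha, mem_univ _⟩
  · exact h

/-- the turned cell is in the cell of the directions of the lattice 0 -/
lemma cell_turn {u a b : ℂ} {h r : ℝ} (ha : ‖a‖ = 1) (hb : ‖b‖ = 1) (hh : 0 ≤ h) :
    Metric.ball ((h : ℂ) * (u * b - u * a)) r ⊆ Metric.closedBall ((h : ℂ) * (b - a)) (r + 2 * h * ‖u - 1‖) := by
  intro z hz
  rw [Metric.mem_ball] at hz
  rw [Metric.mem_closedBall]
  have h1 : dist ((h : ℂ) * (u * b - u * a)) ((h : ℂ) * (b - a)) ≤ 2 * h * ‖u - 1‖ := by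
    rw [dist_eq_norm, show (h : ℂ) * (u * b - u * a) - (h : ℂ) * (b - a) = (h : ℂ) * ((u - 1) * (b - a)) by ring, norm_mul,
      norm_mul, Complex.norm_real, Real.norm_of_nonneg hh]
    have h2 : ‖b - a‖ ≤ 2 := by
      have := norm_sub_le b a
      linarith
    have h3 := mul_le_mul_of_nonneg_left h2 (norm_nonneg (u - 1))
    have h4 := mul_le_mul_of_nonneg_left h3 hh
    linarith
  have := dist_triangle z ((h : ℂ) * (u * b - u * a)) ((h : ℂ) * (b - a))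
  linarith

/-- **the field `hsub`** for the classes `i`, `j`; cells of radius `r`, `r'` about `h (u ev j - u ev i)`, `h' (u ev (-j) - u ev (-i))` -/
theorem hsub3 {P : Prm} (hP : P.Ok) {i j : Fin 3} (hij : i ≠ j) {s s' u u' : Pie → ℝ} {C1 C2 : Set Pie}
    (v1 : ∀ x ∈ C1, (x, (s x, s' x)) ∈ V3 P i) (v2 : ∀ x ∈ C2, (x, (u x, u' x)) ∈ V3 P j)
    {h r ρ h' r' ρ' : ℝ} (hh : 0 ≤ h) (hh' : 0 ≤ h') (hr : 0 ≤ ρ) (hr' : 0 ≤ ρ')
    (H0 : r + 2 * h * ‖P.u - 1‖ + 2 * P.p.kr < ρ) (H0' : r' + 2 * h' * ‖P.u - 1‖ + 2 * P.q.kr < ρ')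
    (H1 : 2 * ρ + 4 * P.p.n.κ < 3 * (h - P.p.kc)) (H2 : 2 * (h - P.p.kc) + ρ < 62 * P.p.k)
    (H1' : 2 * ρ' + 4 * P.q.n.κ < 3 * (h' - P.q.kc)) (H2' : 2 * (h' - P.q.kc) + ρ' < 62 * P.q.k)
    (p : Pie × (Pie × ℂ)) (k1 : p.1 ∈ (clsC s s' C1).C) (k2 : p.2.1 ∈ (clsC u u' C2).C)
    (k3 : pi3 (tht (clsC s s' C1).τ (clsC u u' C2).τ (clsC s s' C1).s (clsC u u' C2).s p) ∈
      DD (clsC s s' C1).g (clsC u u' C2).g (clsC s s' C1).y (clsC u u' C2).y
        (Metric.ball ((h : ℂ) * (P.u * ev j - P.u * ev i)) r)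
        (Metric.ball ((h' : ℂ) * (P.u * ev (-j) - P.u * ev (-i))) r')) :
    p ∈ DD Prod.fst Prod.fst yP yP (Z0E (ev i) (ev j) P.p h ρ) (Z0E (ev (-i)) (ev (-j)) P.q h' ρ') := by
  have hij' : -i ≠ -j := fun h => hij (neg_injective h)
  have hw : ∀ a : Fin 3, 2 * (P.p.f.r0 + P.q.f.r0) ≤ (Wcl P a).D0 := by
    intro a
    have h1 := hP.nr
    have h2 := hP.nrc
    have h3 := hP.p.bn
    have h4 := hP.q.bn
    have h5 := hP.p.len
    have h6 := hP.q.len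
    have f1 : 0 ≤ P.p.f.r0 := by
      have := hP.p.f
      linarith [this.r, this.r2, this.g64, this.rr]
    have f2 : 0 ≤ P.q.f.r0 := by
      have := hP.q.f
      linarith [this.r, this.r2, this.g64, this.rr]
    unfold Wcl
    split_ifs <;> linarith
  have tn : ∀ a : Fin 3, ‖P.u * ev a - ev a‖ ≤ ‖P.u - 1‖ := by
    intro a
    rw [show P.u * ev a - ev a = (P.u - 1) * ev a by ring, norm_mul, ev_norm, mul_one]
  exact hsub_prm (ev_norm i) (ev_norm j) (ev_norm (-i)) (ev_norm (-j)) (ev_dir hij) (ev_dir hij') hP.p hP.q (tn i) (tn j)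
    (tn (-i)) (tn (-j)) (hw i) (hw j) (acV_sub P i) (acV_sub P j) v1 v2 hr hr' H0 H0' H1 H2 H1' H2'
    (cell_turn (ev_norm i) (ev_norm j) hh) (cell_turn (ev_norm (-i)) (ev_norm (-j)) hh') p k1 k2 k3

end Pool.Agent.ROT.F3.CC
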