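import Pool.Agent.ROT.F3Good
import Pool.Agent.ROT.F3Dic

/-!
# ROT / F3Stage (helper62): closed conditions in two stages (strip, then no return) pass to the limit

* `Stg K₁ K₂` : the curves with a time `τ` such that `(c t, c 1) ∈ K₁` for `t ≤ τ` and `(c t, c 1) ∈ K₂` for `t ≥ τ`;
  `stg_closed`, `stg_inter` (limit of thickenings);
* **`crv_stg`** : from the vertices of a word to its curve;
* **`stg_lim`** : the limit measures.
-/

set_option autoImplicit false

open MeasureTheory Filter Topology Set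
open scoped ENNReal NNReal

namespace Pool.Agent.ROT.F3

/-- conditions in two stages -/
def Stg (K₁ K₂ : Set (ℂ × ℂ)) : Set C(unitInterval, ℂ) :=
  {c | ∃ τ : unitInterval, (∀ t, t ≤ τ → (c t, c 1) ∈ K₁) ∧ ∀ t, τ ≤ t → (c t, c 1) ∈ K₂}

theorem stg_closed {K₁ K₂ : Set (ℂ × ℂ)} (h₁ : IsClosed K₁) (h₂ : IsClosed K₂) : IsClosed (Stg K₁ K₂) := by
  have hev : ∀ t : unitInterval, Continuous fun p : C(unitInterval, ℂ) × unitInterval => (p.1 t, p.1 1) := fun t =>
    ((continuous_eval_const t).comp continuous_fst).prodMk ((continuous_eval_const 1).comp continuous_fst)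
  have h : IsClosed {p : C(unitInterval, ℂ) × unitInterval | (∀ t, t ≤ p.2 → (p.1 t, p.1 1) ∈ K₁) ∧
      ∀ t, p.2 ≤ t → (p.1 t, p.1 1) ∈ K₂} := by
    -- reparametrise: the times `min t τ` and `max t τ`
    have e : {p : C(unitInterval, ℂ) × unitInterval | (∀ t, t ≤ p.2 → (p.1 t, p.1 1) ∈ K₁) ∧
        ∀ t, p.2 ≤ t → (p.1 t, p.1 1) ∈ K₂} =
        (⋂ t : unitInterval, {p | (p.1 (min t p.2), p.1 1) ∈ K₁}) ∩ ⋂ t : unitInterval, {p | (p.1 (max t p.2), p.1 1) ∈ K₂} := by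
      ext p
      simp only [mem_inter_iff, mem_iInter, mem_ofPred_eq]
      constructor
      · rintro ⟨a, b⟩
        exact ⟨fun t => a _ (min_le_right _ _), fun t => b _ (le_max_right _ _)⟩
      · rintro ⟨a, b⟩
        refine ⟨fun t ht => ?_, fun t ht => ?_⟩
        · have := a t
          rwa [min_eq_left ht] at this
        · have := b t
          rwa [max_eq_left ht] at this
    rw [e]
    refine (isClosed_iInter fun t => ?_).inter (isClosed_iInter fun t => ?_)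
    · refine h₁.preimage (Continuous.prodMk ?_ ((continuous_eval_const 1).comp continuous_fst))
      exact continuous_eval.comp (continuous_fst.prodMk (continuous_const.min continuous_snd))
    · refine h₂.preimage (Continuous.prodMk ?_ ((continuous_eval_const 1).comp continuous_fst))
      exact continuous_eval.comp (continuous_fst.prodMk (continuous_const.max continuous_snd))
  have h2 := isClosedMap_fst_of_compactSpace (X := C(unitInterval, ℂ)) (Y := unitInterval) _ h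
  convert h2 using 1
  ext c
  constructor
  · rintro ⟨τ, h3⟩
    exact ⟨(c, τ), h3, rfl⟩
  · rintro ⟨⟨c', τ⟩, h3, rfl⟩
    exact ⟨τ, h3⟩

theorem stg_mono {K₁ K₂ L₁ L₂ : Set (ℂ × ℂ)} (h₁ : K₁ ⊆ L₁) (h₂ : K₂ ⊆ L₂) : Stg K₁ K₂ ⊆ Stg L₁ L₂ := by
  rintro c ⟨τ, a, b⟩
  exact ⟨τ, fun t ht => h₁ (a t ht), fun t ht => h₂ (b t ht)⟩

/-- a point in all thickenings, along a sequence -/
lemma mem_of_thick {K : Set (ℂ × ℂ)} (hK : IsClosed K) {p : ℕ → ℂ × ℂ} {q : ℂ × ℂ} (hp : Tendsto p atTop (𝓝 q)) {δ : ℕ → ℝ}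
    (hδ : Tendsto δ atTop (𝓝 0)) (h : ∃ᶠ k in atTop, p k ∈ Metric.cthickening (δ k) K) : q ∈ K := by
  by_contra hq
  have h0 : Metric.infEDist q K ≠ 0 := fun h0 => hq ((Metric.mem_iff_infEDist_zero_of_closed hK).2 h0)
  obtain ⟨r, hr0, hr⟩ : ∃ r : ℝ, 0 < r ∧ ENNReal.ofReal r < Metric.infEDist q K := by
    obtain ⟨r, hr⟩ := ENNReal.exists_nat_pos_inv_mul_lt (a := 1) (b := Metric.infEDist q K) ENNReal.one_ne_top h0
    refine ⟨(r : ℝ)⁻¹, by have := hr.1; positivity, ?_⟩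
    have hr1 : (0 : ℝ) < r := by exact_mod_cast hr.1
    rw [ENNReal.ofReal_inv_of_pos hr1, ENNReal.ofReal_natCast]
    simpa using hr.2
  have h1 : ∀ᶠ k in atTop, edist q (p k) < ENNReal.ofReal (r / 2) := by
    have : Tendsto (fun k => edist q (p k)) atTop (𝓝 0) := by
      have := (tendsto_const_nhds (x := q)).edist hp
      rwa [edist_self] at this
    exact this.eventually_lt_const (ENNReal.ofReal_pos.2 (by positivity))
  have h2 : ∀ᶠ k in atTop, δ k < r / 2 := hδ.eventually_lt_const (by positivity)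
  obtain ⟨k, hk, h3, h4⟩ := (h.and_eventually (h1.and h2)).exists
  have h5 : Metric.infEDist (p k) K ≤ ENNReal.ofReal (δ k) := Metric.mem_cthickening_iff.1 hk
  have h6 : Metric.infEDist q K ≤ edist q (p k) + Metric.infEDist (p k) K := Metric.infEDist_le_edist_add_infEDist
  have h7 : edist q (p k) + Metric.infEDist (p k) K ≤ ENNReal.ofReal (r / 2) + ENNReal.ofReal (r / 2) :=
    add_le_add h3.le (h5.trans (ENNReal.ofReal_le_ofReal h4.le))
  rw [← ENNReal.ofReal_add (by positivity) (by positivity), add_halves] at h7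
  exact absurd (h6.trans h7) (not_le.2 hr)

/-- **the limit of the thickened conditions** -/
theorem stg_inter {K₁ K₂ : Set (ℂ × ℂ)} (h₁ : IsClosed K₁) (h₂ : IsClosed K₂) {c : C(unitInterval, ℂ)}
    (h : ∀ m : ℕ, c ∈ Stg (Metric.cthickening (1 / ((m : ℝ) + 1)) K₁) (Metric.cthickening (1 / ((m : ℝ) + 1)) K₂)) :
    c ∈ Stg K₁ K₂ := by
  choose τ a b using h
  obtain ⟨τ0, -, φ, hφ, hτ⟩ := isCompact_univ.tendsto_subseq (x := τ) (fun m => mem_univ _)
  have hδ : Tendsto (fun k => 1 / ((φ k : ℝ) + 1)) atTop (𝓝 0) :=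
    (tendsto_one_div_add_atTop_nhds_zero_nat (𝕜 := ℝ)).comp hφ.tendsto_atTop
  have hc : Tendsto (fun k => (c (τ (φ k)), c 1)) atTop (𝓝 (c τ0, c 1)) :=
    ((c.continuous.tendsto _).comp hτ).prodMk_nhds tendsto_const_nhds
  refine ⟨τ0, fun t ht => ?_, fun t ht => ?_⟩
  · rcases ht.lt_or_eq with h1 | h1
    · refine mem_of_thick h₁ (tendsto_const_nhds (x := (c t, c 1))) hδ ?_
      have h2 : ∀ᶠ k in atTop, t < τ (φ k) := hτ.eventually_const_lt h1
      exact (h2.mono fun k hk => a _ t hk.le).frequently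
    · subst h1
      exact mem_of_thick h₁ hc hδ (Eventually.of_forall fun k => a _ _ le_rfl).frequently
  · rcases ht.lt_or_eq with h1 | h1
    · refine mem_of_thick h₂ (tendsto_const_nhds (x := (c t, c 1))) hδ ?_
      have h2 : ∀ᶠ k in atTop, τ (φ k) < t := hτ.eventually_lt_const h1
      exact (h2.mono fun k hk => b _ t hk.le).frequently
    · subst h1
      exact mem_of_thick h₂ hc hδ (Eventually.of_forall fun k => b _ _ le_rfl).frequently

/-- **two stages in the limit** -/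
theorem stg_lim {X ι : Type*} [PseudoMetricSpace X] [MeasurableSpace X] [OpensMeasurableSpace X] {l : Filter ι} [l.NeBot]
    {b : ι → Measure X} {β : Measure X} {g : X → C(unitInterval, ℂ)} {K0 K1 : ℝ≥0} (hg : LipschitzWith K0 g)
    {χ : X → ℝ} (hχ : LipschitzWith K1 χ) (h0 : ∀ x, 0 ≤ χ x ∧ χ x ≤ 1) (hβ : Integrable χ β)
    (hb : ∀ᶠ N in l, Integrable χ (b N))
    (hw : ∀ f : X → ℝ, (∀ x, 0 ≤ f x ∧ f x ≤ χ x) → (∃ K : ℝ≥0, LipschitzWith K f) →
      Tendsto (fun N => ∫ x, f x ∂(b N)) l (𝓝 (∫ x, f x ∂β)))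
    {K₁ K₂ : Set (ℂ × ℂ)} (h₁ : IsClosed K₁) (h₂ : IsClosed K₂)
    (hN : ∀ δ : ℝ, 0 < δ → ∀ᶠ N in l, b N {x | χ x ≠ 0 ∧ g x ∉ Stg (Metric.cthickening δ K₁) (Metric.cthickening δ K₂)} = 0) :
    ∀ᵐ x ∂β, χ x ≠ 0 → g x ∈ Stg K₁ K₂ := by
  have h1 : ∀ m : ℕ, ∀ᵐ x ∂β, χ x ≠ 0 →
      g x ∈ Stg (Metric.cthickening (1 / ((m : ℝ) + 1)) K₁) (Metric.cthickening (1 / ((m : ℝ) + 1)) K₂) := by
    intro m
    refine good_closed hg hχ h0 hβ hb hw (stg_closed Metric.isClosed_cthickening Metric.isClosed_cthickening) ?_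
    intro η ε hη _
    filter_upwards [hN (1 / ((m : ℝ) + 1)) (by positivity)] with N hN'
    refine le_trans (measure_mono ?_) (hN'.le.trans zero_le)
    rintro x ⟨hx, hfar⟩
    refine ⟨hx, fun hin => ?_⟩
    have := hfar _ hin
    rw [dist_self] at this
    linarith
  rw [← ae_all_iff] at h1
  filter_upwards [h1] with x hx hx0
  exact stg_inter h₁ h₂ fun m => hx m hx0

/-! ### from the vertices to the curve -/

lemma norm_st_le (w : W3) (i : ℕ) : ‖st w i‖ ≤ 1 := by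
  unfold st
  split_ifs with h
  · exact le_of_eq (Pool.Agent.PMA.LimR.norm_step' _ _)
  · rw [norm_zero]
    norm_num

/-- the vertex before the time `t` -/
lemma near_floor {w : W3} {n : ℕ} {d : ℝ} (hn : 1 ≤ n) (hd : 0 < d) (t : unitInterval) :
    dist (crv w n d t) (ps w ⌊(t : ℝ) * n⌋₊ / d) ≤ 1 / d := by
  have hn0 : (0 : ℝ) < n := by exact_mod_cast hn
  have ht0 : 0 ≤ (t : ℝ) * n := mul_nonneg t.2.1 hn0.le
  have htn : (t : ℝ) * n ≤ n := mul_le_of_le_one_left hn0.le t.2.2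
  obtain ⟨i, hi⟩ : ∃ i : ℕ, i = ⌊(t : ℝ) * n⌋₊ := ⟨_, rfl⟩
  rw [← hi]
  have h1 : (i : ℝ) ≤ t * n := by
    rw [hi]
    exact Nat.floor_le ht0
  have h2 : (t : ℝ) * n < i + 1 := by
    rw [hi]
    exact Nat.lt_floor_add_one _
  have hin : i ≤ n := by
    have : (i : ℝ) ≤ n := h1.trans htn
    exact_mod_cast this
  rcases hin.lt_or_eq with h3 | h3
  · rw [crv_apply h3 h1 h2.le, dist_eq_norm, ← sub_div, norm_div, Complex.norm_real, Real.norm_eq_abs, abs_of_pos hd]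
    refine div_le_div_of_nonneg_right ?_ hd.le
    have e : ((1 - ((t : ℝ) * n - i) : ℝ) : ℂ) * ps w i + (((t : ℝ) * n - i : ℝ) : ℂ) * ps w (i + 1) - ps w i =
        (((t : ℝ) * n - i : ℝ) : ℂ) * st w i := by
      rw [ps_succ]
      push_cast
      ring
    rw [e, norm_mul, Complex.norm_real, Real.norm_eq_abs, abs_of_nonneg (by linarith)]
    have := norm_st_le w i
    calc ((t : ℝ) * n - i) * ‖st w i‖ ≤ 1 * 1 := mul_le_mul (by linarith) this (norm_nonneg _) zero_le_one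
      _ = 1 := one_mul 1
  · subst h3
    rw [crv_vertex hn le_rfl (le_antisymm htn h1), dist_self]
    positivity

lemma near_vertex {w : W3} {n : ℕ} {d : ℝ} (hn : 1 ≤ n) (hd : 0 < d) (t : unitInterval) (k : ℕ) :
    ((t : ℝ) * n ≤ k → ∃ i ≤ k, dist (crv w n d t) (ps w i / d) ≤ 1 / d) ∧
    ((k : ℝ) ≤ t * n → ∃ i, k ≤ i ∧ i ≤ n ∧ dist (crv w n d t) (ps w i / d) ≤ 1 / d) := by
  have hn0 : (0 : ℝ) < n := by exact_mod_cast hn
  have ht0 : 0 ≤ (t : ℝ) * n := mul_nonneg t.2.1 hn0.le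
  have htn : (t : ℝ) * n ≤ n := mul_le_of_le_one_left hn0.le t.2.2
  refine ⟨fun h => ⟨_, ?_, near_floor hn hd t⟩, fun h => ⟨_, Nat.le_floor h, ?_, near_floor hn hd t⟩⟩
  · exact Nat.floor_le_of_le h
  · exact Nat.floor_le_of_le htn

/-- **the two stages of a word** -/
theorem crv_stg {w : W3} {n : ℕ} {d : ℝ} (hn : 1 ≤ n) (hd : 0 < d) {K₁ K₂ : Set (ℂ × ℂ)} {k : ℕ} (hk : k ≤ n)
    (h₁ : ∀ i ≤ k, (ps w i / d, ps w n / d) ∈ K₁) (h₂ : ∀ i, k ≤ i → i ≤ n → (ps w i / d, ps w n / d) ∈ K₂) :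
    crv w n d ∈ Stg (Metric.cthickening (1 / d) K₁) (Metric.cthickening (1 / d) K₂) := by
  have hn0 : (0 : ℝ) < n := by exact_mod_cast hn
  obtain ⟨τ, hτ⟩ : ∃ τ : unitInterval, (τ : ℝ) = (k : ℝ) / n :=
    ⟨⟨(k : ℝ) / n, by positivity, by rw [div_le_one hn0]; exact_mod_cast hk⟩, rfl⟩
  have e1 : crv w n d 1 = ps w n / d := crv_one w n d
  refine ⟨τ, fun t ht => ?_, fun t ht => ?_⟩
  · have h3 : (t : ℝ) * n ≤ k := by
      have : (t : ℝ) ≤ k / n := by
        rw [← hτ]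
        exact ht
      rwa [le_div_iff₀ hn0] at this
    obtain ⟨i, hi, h4⟩ := (near_vertex (w := w) hn hd t k).1 h3
    refine Metric.mem_cthickening_of_dist_le _ (ps w i / d, ps w n / d) _ _ (h₁ i hi) ?_
    rw [Prod.dist_eq, e1, dist_self]
    exact max_le h4 (by positivity)
  · have h3 : (k : ℝ) ≤ t * n := by
      have : (k : ℝ) / n ≤ t := by
        rw [← hτ]
        exact ht
      rwa [div_le_iff₀ hn0] at this
    obtain ⟨i, hi, hin, h4⟩ := (near_vertex (w := w) hn hd t k).2 h3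
    refine Metric.mem_cthickening_of_dist_le _ (ps w i / d, ps w n / d) _ _ (h₂ i hi hin) ?_
    rw [Prod.dist_eq, e1, dist_self]
    exact max_le h4 (by positivity)

end Pool.Agent.ROT.F3
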