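import Pool.Agent.ROT.F3Cls
import Pool.Agent.ROT.F3Stage
import Pool.Agent.ROT.F3MidW

/-!
# ROT / F3ClsG (helper62): the closed classes of curves of the lattice classes of F3Cls

* `ClR` : the curves of the rests (`Rst`), `ClM` : the curves of the main arcs (`Man`), both closed;
* `WLim` : weak limits along a filter (Lipschitz functions); `WLim.closed`, `WLim.stg`, `WLim.map`;
* **`rst_ae`**, **`man_ae`** : the limit of the laws of the rests (main arcs) is carried by `ClR` (`ClM`) and by the durations in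
  `[t0, t1]`; `clM_p`, `clM_q` : the form used for the channels.
-/

set_option autoImplicit false

open MeasureTheory Filter Topology Set ComplexConjugate
open scoped ENNReal NNReal BoundedContinuousFunction

namespace Pool.Agent.ROT.F3

/-! ### 1. The closed classes -/

/-- the strip -/
def StK (d : ℂ) (s : Sr) : Set ℂ := {v | -s.e ≤ lv d v ∧ lv d v ≤ s.len ∧ |ltl d v| ≤ s.hw}

/-- outside of the ball of no return -/
def OuK (s : Sr) : Set ℂ := {v | s.bn ≤ ‖v‖}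

/-- one end of a rest -/
def EdK (d : ℂ) (P : Tp) : Set ℂ := {v | (0 ≤ lv d v ∨ P.rg ≤ ‖v‖) ∧ (Kn d P.c P.κ v ∨ P.r0 - P.κ ≤ ‖v‖)}

/-- the closed class of the rests -/
def ClR (d d' : ℂ) (P Q : Tp) (W : Wn) : Set C(unitInterval, ℂ) :=
  {c | c 0 = 0 ∧ (W.D0 ≤ ‖c 1‖ ∧ ‖c 1‖ ≤ W.D1) ∧ ∀ t, c t ∈ EdK d P ∧ c t - c 1 ∈ EdK d' Q}

/-- the closed class of the main arcs -/
def ClM (d d' : ℂ) (P Q : Tp) (W : Wn) (s s' : Sr) : Set C(unitInterval, ℂ) :=
  {c | c ∈ ClR d d' P Q W ∧ (∃ τ : unitInterval, (∀ t, t ≤ τ → c t ∈ StK d s) ∧ ∀ t, τ ≤ t → c t ∈ OuK s) ∧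
    ∃ τ : unitInterval, (∀ t, t ≤ τ → c t - c 1 ∈ OuK s') ∧ ∀ t, τ ≤ t → c t - c 1 ∈ StK d' s'}

lemma lv_cont' (d : ℂ) : Continuous (lv d) := by
  unfold lv
  fun_prop

lemma ltl_cont' (d : ℂ) : Continuous (ltl d) := by
  unfold ltl
  fun_prop

lemma stK_closed (d : ℂ) (s : Sr) : IsClosed (StK d s) :=
  (isClosed_le continuous_const (lv_cont' d)).inter ((isClosed_le (lv_cont' d) continuous_const).inter
    (isClosed_le (ltl_cont' d).abs continuous_const))

lemma ouK_closed (s : Sr) : IsClosed (OuK s) := isClosed_le continuous_const continuous_norm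

lemma edK_closed (d : ℂ) (P : Tp) : IsClosed (EdK d P) := by
  refine IsClosed.inter (IsClosed.union ?_ ?_) (IsClosed.union ?_ ?_)
  · exact isClosed_le continuous_const (lv_cont' d)
  · exact isClosed_le continuous_const continuous_norm
  · exact isClosed_le (by fun_prop) (lv_cont' d)
  · exact isClosed_le continuous_const continuous_norm

/-- the two points form of the conditions of the rests -/
def KR (d d' : ℂ) (P Q : Tp) (W : Wn) : Set (ℂ × ℂ) :=
  {p | (W.D0 ≤ ‖p.2‖ ∧ ‖p.2‖ ≤ W.D1) ∧ p.1 ∈ EdK d P ∧ p.1 - p.2 ∈ EdK d' Q}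

lemma kR_closed (d d' : ℂ) (P Q : Tp) (W : Wn) : IsClosed (KR d d' P Q W) := by
  refine IsClosed.inter (IsClosed.inter ?_ ?_) (IsClosed.inter ?_ ?_)
  · exact isClosed_le continuous_const continuous_snd.norm
  · exact isClosed_le continuous_snd.norm continuous_const
  · exact (edK_closed d P).preimage continuous_fst
  · exact (edK_closed d' Q).preimage (continuous_fst.sub continuous_snd)

lemma mem_stg_self {K : Set (ℂ × ℂ)} {c : C(unitInterval, ℂ)} : c ∈ Stg K K ↔ ∀ t, (c t, c 1) ∈ K := by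
  constructor
  · rintro ⟨τ, a, b⟩ t
    rcases le_total t τ with h | h
    · exact a t h
    · exact b t h
  · exact fun h => ⟨0, fun t _ => h t, fun t _ => h t⟩

lemma mem_clR {d d' : ℂ} {P Q : Tp} {W : Wn} {c : C(unitInterval, ℂ)} :
    c ∈ ClR d d' P Q W ↔ c 0 = 0 ∧ c ∈ Stg (KR d d' P Q W) (KR d d' P Q W) := by
  rw [mem_stg_self]
  constructor
  · rintro ⟨h0, h1, h2⟩
    exact ⟨h0, fun t => ⟨h1, h2 t⟩⟩
  · rintro ⟨h0, h⟩
    exact ⟨h0, (h 0).1, fun t => (h t).2⟩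

lemma mem_clM {d d' : ℂ} {P Q : Tp} {W : Wn} {s s' : Sr} {c : C(unitInterval, ℂ)} :
    c ∈ ClM d d' P Q W s s' ↔ c ∈ ClR d d' P Q W ∧ c ∈ Stg {p | p.1 ∈ StK d s} {p | p.1 ∈ OuK s} ∧
      c ∈ Stg {p | p.1 - p.2 ∈ OuK s'} {p | p.1 - p.2 ∈ StK d' s'} := Iff.rfl

lemma isClosed_eval0 : IsClosed {c : C(unitInterval, ℂ) | c 0 = 0} :=
  isClosed_eq (continuous_eval_const 0) continuous_const

theorem clR_closed (d d' : ℂ) (P Q : Tp) (W : Wn) : IsClosed (ClR d d' P Q W) := by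
  have e : ClR d d' P Q W = {c | c 0 = 0} ∩ Stg (KR d d' P Q W) (KR d d' P Q W) := by
    ext c
    exact mem_clR
  rw [e]
  exact isClosed_eval0.inter (stg_closed (kR_closed _ _ _ _ _) (kR_closed _ _ _ _ _))

lemma kS_closed (d : ℂ) (s : Sr) : IsClosed {p : ℂ × ℂ | p.1 ∈ StK d s} := (stK_closed d s).preimage continuous_fst
lemma kO_closed (s : Sr) : IsClosed {p : ℂ × ℂ | p.1 ∈ OuK s} := (ouK_closed s).preimage continuous_fst
lemma kS_closed' (d : ℂ) (s : Sr) : IsClosed {p : ℂ × ℂ | p.1 - p.2 ∈ StK d s} :=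
  (stK_closed d s).preimage (continuous_fst.sub continuous_snd)
lemma kO_closed' (s : Sr) : IsClosed {p : ℂ × ℂ | p.1 - p.2 ∈ OuK s} :=
  (ouK_closed s).preimage (continuous_fst.sub continuous_snd)

theorem clM_closed (d d' : ℂ) (P Q : Tp) (W : Wn) (s s' : Sr) : IsClosed (ClM d d' P Q W s s') :=
  (clR_closed d d' P Q W).inter ((stg_closed (kS_closed d s) (kO_closed s)).inter (stg_closed (kO_closed' s') (kS_closed' d' s')))

/-- the form at `p` -/
theorem clM_p {d d' : ℂ} {P Q : Tp} {W : Wn} {s s' : Sr} {c : C(unitInterval, ℂ)} (h : c ∈ ClM d d' P Q W s s') :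
    ∃ τ : unitInterval, (∀ t ≤ τ, -s.e ≤ lv d (c t) ∧ lv d (c t) ≤ s.len ∧ |ltl d (c t)| ≤ s.hw) ∧
      ∀ t, τ ≤ t → s.bn ≤ ‖c t‖ := h.2.1

/-- the form at `q` -/
theorem clM_q {d d' : ℂ} {P Q : Tp} {W : Wn} {s s' : Sr} {c : C(unitInterval, ℂ)} (h : c ∈ ClM d d' P Q W s s') :
    ∃ τ : unitInterval, (∀ t, τ ≤ t → -s'.e ≤ lv d' (c t - c 1) ∧ lv d' (c t - c 1) ≤ s'.len ∧ |ltl d' (c t - c 1)| ≤ s'.hw) ∧
      ∀ t ≤ τ, s'.bn ≤ ‖c t - c 1‖ := by
  obtain ⟨τ, h1, h2⟩ := h.2.2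
  exact ⟨τ, h2, h1⟩

/-! ### 2. From the words to the curves -/

lemma lv_div (d v : ℂ) (S : ℝ) : lv d (v / S) = lv d v / S := by
  unfold lv
  rw [← mul_div_assoc, Complex.div_ofReal_re]

lemma ltl_div (d v : ℂ) (S : ℝ) : ltl d (v / S) = ltl d v / S := by
  unfold ltl
  rw [← mul_div_assoc, Complex.div_ofReal_im]

lemma norm_div_S (v : ℂ) {S : ℝ} (hS : 0 < S) : ‖v / S‖ = ‖v‖ / S := by
  rw [norm_div, Complex.norm_real, Real.norm_eq_abs, abs_of_pos hS]

lemma stK_of {d v : ℂ} {s : Sr} {S : ℝ} (hS : 0 < S) (h : -(s.e * S) ≤ lv d v ∧ lv d v ≤ s.len * S ∧ |ltl d v| ≤ s.hw * S) :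
    v / S ∈ StK d s := by
  refine ⟨?_, ?_, ?_⟩
  · rw [lv_div, le_div_iff₀ hS]
    linarith [h.1]
  · rw [lv_div, div_le_iff₀ hS]
    exact h.2.1
  · rw [ltl_div, abs_div, abs_of_pos hS, div_le_iff₀ hS]
    exact h.2.2

lemma ouK_of {v : ℂ} {s : Sr} {S : ℝ} (hS : 0 < S) (h : s.bn * S ≤ ‖v‖) : v / S ∈ OuK s := by
  show s.bn ≤ ‖v / S‖
  rwa [norm_div_S v hS, le_div_iff₀ hS]

lemma edK_of {d : ℂ} {P : Tp} {S : ℝ} {R : W3} (hS : 0 < S) (h : EdQ d P S R) {k : ℕ} (hk : k ≤ R.length) :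
    ps R k / S ∈ EdK d P := by
  constructor
  · rcases Nat.eq_zero_or_pos k with h0 | h0
    · left
      rw [h0, ps_zero, zero_div, lv_zero]
    · by_cases h1 : ‖ps R k‖ ≤ P.rg * S
      · left
        rw [lv_div]
        exact div_nonneg (h.right k h0 hk h1).le hS.le
      · right
        rw [norm_div_S _ hS, le_div_iff₀ hS]
        exact (not_le.1 h1).le
  · rcases h.cone k hk with h1 | h1
    · left
      unfold Kn at h1 ⊢
      rw [lv_div, norm_div_S _ hS, le_div_iff₀ hS]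
      calc (P.c * (‖ps R k‖ / S) - P.κ) * S = P.c * ‖ps R k‖ - P.κ * S := by
            field_simp
        _ ≤ lv d (ps R k) := h1
    · right
      rw [norm_div_S _ hS, le_div_iff₀ hS]
      linarith

lemma ps_rev {R : W3} (ev : Even R.length) {i : ℕ} (hi : i ≤ R.length) (S : ℝ) :
    ps R i / S - ps R R.length / S = ps R.reverse (R.length - i) / S := by
  rw [ps_reverse ev (Nat.sub_le _ _), Nat.sub_sub_self hi, en]
  ring

lemma one_le_of_far {R : W3} {D : ℝ} (hD : 0 < D) (h : D ≤ ‖en R‖) : 1 ≤ R.length := by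
  rcases Nat.eq_zero_or_pos R.length with h0 | h0
  · exfalso
    rw [en, h0, ps_zero, norm_zero] at h
    linarith
  · exact h0

/-- **the curve of a rest** -/
theorem rsq_stg {d d' : ℂ} {P Q : Tp} {W : Wn} {S T : ℝ} {R : W3} (h : RsQ d d' P Q W S T R) (hS : 0 < S) (hW : 0 < W.D0) :
    crv R R.length S ∈ Stg (Metric.cthickening (1 / S) (KR d d' P Q W)) (Metric.cthickening (1 / S) (KR d d' P Q W)) := by
  have hn : 1 ≤ R.length := one_le_of_far (mul_pos hW hS) h.far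
  have key : ∀ i, i ≤ R.length → (ps R i / S, ps R R.length / S) ∈ KR d d' P Q W := by
    intro i hi
    refine ⟨⟨?_, ?_⟩, edK_of hS h.s hi, ?_⟩
    · show W.D0 ≤ ‖ps R R.length / S‖
      rw [norm_div_S _ hS, le_div_iff₀ hS]
      exact h.far
    · show ‖ps R R.length / S‖ ≤ W.D1
      rw [norm_div_S _ hS, div_le_iff₀ hS]
      exact h.near
    · show ps R i / S - ps R R.length / S ∈ EdK d' Q
      rw [ps_rev h.ev hi]
      exact edK_of hS h.e (by rw [List.length_reverse]; exact Nat.sub_le _ _)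
  exact crv_stg hn hS le_rfl (fun i hi => key i hi) fun i _ hi => key i hi

/-- **the curve of a main arc at `p`** -/
theorem nrt_stg {d : ℂ} {s : Sr} {S : ℝ} {R : W3} (h : NRt d s S R) (hS : 0 < S) (hn : 1 ≤ R.length) :
    crv R R.length S ∈ Stg (Metric.cthickening (1 / S) {p | p.1 ∈ StK d s}) (Metric.cthickening (1 / S) {p | p.1 ∈ OuK s}) := by
  obtain ⟨ke, h0, h1, h2⟩ := h
  exact crv_stg hn hS h0 (fun i hi => stK_of hS (h1 i hi)) fun i hi hin => ouK_of hS (h2 i hi hin)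

/-- **the curve of a main arc at `q`** -/
theorem nrt_stg' {d : ℂ} {s : Sr} {S : ℝ} {R : W3} (ev : Even R.length) (h : NRt d s S R.reverse) (hS : 0 < S)
    (hn : 1 ≤ R.length) : crv R R.length S ∈ Stg (Metric.cthickening (1 / S) {p | p.1 - p.2 ∈ OuK s})
      (Metric.cthickening (1 / S) {p | p.1 - p.2 ∈ StK d s}) := by
  obtain ⟨ke, h0, h1, h2⟩ := h
  rw [List.length_reverse] at h0 h2
  refine crv_stg hn hS (Nat.sub_le R.length ke) (fun i hi => ?_) fun i hi hin => ?_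
  · show ps R i / S - ps R R.length / S ∈ OuK s
    rw [ps_rev ev (by omega)]
    exact ouK_of hS (h2 _ (by omega) (by omega))
  · show ps R i / S - ps R R.length / S ∈ StK d s
    rw [ps_rev ev hin]
    exact stK_of hS (h1 _ (by omega))

/-! ### 3. Weak limits -/

/-- weak limits along a filter -/
structure WLim {X ι : Type*} [PseudoMetricSpace X] [MeasurableSpace X] (l : Filter ι) (b : ι → Measure X) (β : Measure X) :
    Prop where
  fβ : IsFiniteMeasure β
  fb : ∀ᶠ N in l, IsFiniteMeasure (b N)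
  lim : ∀ f : X → ℝ, (∀ x, 0 ≤ f x ∧ f x ≤ 1) → (∃ K : ℝ≥0, LipschitzWith K f) →
    Tendsto (fun N => ∫ x, f x ∂(b N)) l (𝓝 (∫ x, f x ∂β))

section

variable {X Y ι : Type*} [PseudoMetricSpace X] [MeasurableSpace X] [OpensMeasurableSpace X] {l : Filter ι}

/-- weak convergence of finite measures -/
theorem WLim.of_tendsto {m : ι → FiniteMeasure X} {m0 : FiniteMeasure X} (h : Tendsto m l (𝓝 m0)) :
    WLim l (fun N => (m N : Measure X)) m0 := by
  refine ⟨inferInstance, Eventually.of_forall fun N => inferInstance, fun f hf ⟨K, hK⟩ => ?_⟩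
  exact (FiniteMeasure.tendsto_iff_forall_integral_tendsto.1 h)
    (BoundedContinuousFunction.mkOfBound ⟨f, hK.continuous⟩ 1 fun x y => by
      have := hf x
      have := hf y
      rw [Real.dist_eq, abs_le]
      constructor <;> · show _ ≤ _; simp only [ContinuousMap.coe_mk]; linarith [(hf x).1, (hf x).2, (hf y).1, (hf y).2])

omit [OpensMeasurableSpace X] in
/-- images -/
theorem WLim.map [PseudoMetricSpace Y] [MeasurableSpace Y] [OpensMeasurableSpace Y] {b : ι → Measure X} {β : Measure X}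
    (h : WLim l b β) {φ : X → Y} {K : ℝ≥0} (hφ : LipschitzWith K φ) (hm : Measurable φ) :
    WLim l (fun N => (b N).map φ) (β.map φ) := by
  refine ⟨?_, ?_, fun f hf ⟨K', hK'⟩ => ?_⟩
  · have := h.fβ
    infer_instance
  · filter_upwards [h.fb] with N hN
    infer_instance
  · have e : ∀ m : Measure X, ∫ y, f y ∂(m.map φ) = ∫ x, f (φ x) ∂m := fun m =>
      integral_map hm.aemeasurable hK'.continuous.stronglyMeasurable.aestronglyMeasurable
    simp only [e]
    exact h.lim (fun x => f (φ x)) (fun x => hf _) ⟨K' * K, hK'.comp hφ⟩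

/-- closed sets -/
theorem WLim.closed [l.NeBot] {b : ι → Measure X} {β : Measure X} (h : WLim l b β) {C : Set X} (hC : IsClosed C)
    (hN : ∀ᶠ N in l, b N Cᶜ = 0) : ∀ᵐ x ∂β, x ∈ C := by
  have := h.fβ
  have h1 := good_closed (l := l) (b := b) (β := β) (g := id) (K0 := 1) LipschitzWith.id (χ := fun _ => 1) (K1 := 0)
    (LipschitzWith.const 1) (fun x => ⟨zero_le_one, le_rfl⟩) (integrable_const 1)
    (h.fb.mono fun N hN => by have := hN; exact integrable_const 1)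
    (fun f hf hK => h.lim f hf hK) hC fun η ε hη _ => by
      filter_upwards [hN] with N hN
      refine le_trans (measure_mono ?_) (hN.le.trans zero_le)
      rintro x ⟨-, hx⟩ hxC
      have := hx x hxC
      rw [id, dist_self] at this
      linarith
  filter_upwards [h1] with x hx
  exact hx one_ne_zero

/-- conditions in two stages -/
theorem WLim.stg [l.NeBot] {b : ι → Measure X} {β : Measure X} (h : WLim l b β) {g : X → C(unitInterval, ℂ)} {K0 : ℝ≥0}
    (hg : LipschitzWith K0 g) {K₁ K₂ : Set (ℂ × ℂ)} (h₁ : IsClosed K₁) (h₂ : IsClosed K₂)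
    (hN : ∀ δ : ℝ, 0 < δ → ∀ᶠ N in l, b N {x | g x ∉ Stg (Metric.cthickening δ K₁) (Metric.cthickening δ K₂)} = 0) :
    ∀ᵐ x ∂β, g x ∈ Stg K₁ K₂ := by
  have := h.fβ
  have h1 := stg_lim (l := l) (b := b) (β := β) hg (χ := fun _ => 1) (K1 := 0)
    (LipschitzWith.const 1) (fun x => ⟨zero_le_one, le_rfl⟩) (integrable_const 1)
    (h.fb.mono fun N hN => by have := hN; exact integrable_const 1)
    (fun f hf hK => h.lim f hf hK) h₁ h₂ fun δ hδ => by
      filter_upwards [hN δ hδ] with N hN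
      exact le_antisymm ((measure_mono fun x hx => hx.2).trans hN.le) zero_le
  filter_upwards [h1] with x hx
  exact hx one_ne_zero

end

/-! ### 4. The laws of the rests -/

lemma rm_null {c : ℝ≥0∞} {s t : ℝ} {Rs : Set W3} {w : W3 → ℝ} {A : Set (CI3 × ℝ)} (h : ∀ R ∈ Rs, cr s t R ∉ A) :
    rm c s t Rs w A = 0 := by
  unfold rm
  rw [Measure.sum_apply_of_countable, ENNReal.tsum_eq_zero]
  intro R
  rw [Measure.smul_apply, smul_eq_mul, Measure.dirac_apply]
  by_cases hR : R ∈ Rs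
  · rw [indicator_of_notMem (h R hR), mul_zero]
  · rw [if_neg hR, mul_zero, zero_mul]

section

variable {ι : Type*} {l : Filter ι} [l.NeBot] {c : ι → ℝ≥0∞} {S T : ι → ℝ} {Rs : ι → Set W3} {w : ι → W3 → ℝ}
  {β : Measure (CI3 × ℝ)}

theorem rm_ae_closed (h : WLim l (fun N => rm (c N) (S N) (T N) (Rs N) (w N)) β) {C : Set (CI3 × ℝ)} (hC : IsClosed C)
    (hN : ∀ᶠ N in l, ∀ R ∈ Rs N, cr (S N) (T N) R ∈ C) : ∀ᵐ x ∂β, x ∈ C :=
  h.closed hC (hN.mono fun _ hN => rm_null fun R hR hc => hc (hN R hR))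

theorem rm_ae_stg (h : WLim l (fun N => rm (c N) (S N) (T N) (Rs N) (w N)) β) (hS : Tendsto S l atTop) {K₁ K₂ : Set (ℂ × ℂ)}
    (h₁ : IsClosed K₁) (h₂ : IsClosed K₂) (hN : ∀ᶠ N in l, ∀ R ∈ Rs N,
      crv R R.length (S N) ∈ Stg (Metric.cthickening (1 / S N) K₁) (Metric.cthickening (1 / S N) K₂)) :
    ∀ᵐ x ∂β, x.1 ∈ Stg K₁ K₂ := by
  refine h.stg LipschitzWith.prod_fst h₁ h₂ fun δ hδ => ?_
  filter_upwards [hN, hS.eventually_ge_atTop (1 / δ)] with N hN hSN
  refine rm_null fun R hR hc => hc ?_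
  have h3 : 1 / S N ≤ δ := by
    have h4 : 0 < S N := lt_of_lt_of_le (by positivity) hSN
    rw [div_le_iff₀ h4]
    rw [div_le_iff₀ hδ] at hSN
    linarith
  exact stg_mono (Metric.cthickening_mono h3 _) (Metric.cthickening_mono h3 _) (hN R hR)

/-- **the laws of the rests in the limit** -/
theorem rst_ae {d d' : ℂ} {P Q : Tp} {W : Wn} (hW : 0 < W.D0) (hS : Tendsto S l atTop) (hT : ∀ᶠ N in l, 0 < T N)
    (hR : ∀ᶠ N in l, Rs N ⊆ Rst d d' P Q W (S N) (T N)) (h : WLim l (fun N => rm (c N) (S N) (T N) (Rs N) (w N)) β) :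
    ∀ᵐ x ∂β, x.1 ∈ ClR d d' P Q W ∧ W.t0 ≤ x.2 ∧ x.2 ≤ W.t1 := by
  have h1 : ∀ᵐ x ∂β, x.1 ∈ Stg (KR d d' P Q W) (KR d d' P Q W) := by
    refine rm_ae_stg h hS (kR_closed _ _ _ _ _) (kR_closed _ _ _ _ _) ?_
    filter_upwards [hR, hS.eventually_gt_atTop 0] with N hN hS0 R hRN
    exact rsq_stg (hN hRN) hS0 hW
  have h2 : ∀ᵐ x ∂β, x ∈ {x : CI3 × ℝ | x.1 0 = 0} := by
    refine rm_ae_closed h (isClosed_eval0.preimage continuous_fst) ?_
    exact Eventually.of_forall fun N R _ => crv_zero R R.length (S N)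
  have h3 : ∀ᵐ x ∂β, x ∈ {x : CI3 × ℝ | W.t0 ≤ x.2 ∧ x.2 ≤ W.t1} := by
    refine rm_ae_closed h ((isClosed_le continuous_const continuous_snd).inter
      (isClosed_le continuous_snd continuous_const)) ?_
    filter_upwards [hR, hT] with N hN hTN R hRN
    have h4 := hN hRN
    constructor
    · show W.t0 ≤ (R.length : ℝ) / T N
      rw [le_div_iff₀ hTN]
      exact h4.lo
    · show (R.length : ℝ) / T N ≤ W.t1
      rw [div_le_iff₀ hTN]
      exact h4.hi
  filter_upwards [h1, h2, h3] with x a1 a2 a3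
  exact ⟨mem_clR.2 ⟨a2, a1⟩, a3⟩

/-- **the laws of the main arcs in the limit** -/
theorem man_ae {d d' : ℂ} {P Q : Tp} {W : Wn} {s s' : Sr} (hW : 0 < W.D0) (hS : Tendsto S l atTop)
    (hT : ∀ᶠ N in l, 0 < T N) (hR : ∀ᶠ N in l, Rs N ⊆ Man d d' P Q W s s' (S N) (T N))
    (h : WLim l (fun N => rm (c N) (S N) (T N) (Rs N) (w N)) β) :
    ∀ᵐ x ∂β, x.1 ∈ ClM d d' P Q W s s' ∧ W.t0 ≤ x.2 ∧ x.2 ≤ W.t1 := by
  have h1 := rst_ae hW hS hT (hR.mono fun N hN => hN.trans fun R hR => MnQ.q hR) h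
  have h2 : ∀ᵐ x ∂β, x.1 ∈ Stg {p | p.1 ∈ StK d s} {p | p.1 ∈ OuK s} := by
    refine rm_ae_stg h hS (kS_closed _ _) (kO_closed _) ?_
    filter_upwards [hR, hS.eventually_gt_atTop 0] with N hN hS0 R hRN
    have h4 := hN hRN
    exact nrt_stg h4.np hS0 (one_le_of_far (mul_pos hW hS0) h4.q.far)
  have h3 : ∀ᵐ x ∂β, x.1 ∈ Stg {p | p.1 - p.2 ∈ OuK s'} {p | p.1 - p.2 ∈ StK d' s'} := by
    refine rm_ae_stg h hS (kO_closed' _) (kS_closed' _ _) ?_
    filter_upwards [hR, hS.eventually_gt_atTop 0] with N hN hS0 R hRN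
    have h4 := hN hRN
    exact nrt_stg' h4.q.ev h4.nq hS0 (one_le_of_far (mul_pos hW hS0) h4.q.far)
  filter_upwards [h1, h2, h3] with x a1 a2 a3
  exact ⟨mem_clM.2 ⟨a1.1, a2, a3⟩, a1.2⟩

end

end Pool.Agent.ROT.F3
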