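import Pool.Agent.ROT.F3ClsT

/-!
# ROT / F3ClsU (helper82): rests of the lattice 0 from their pieces

* `EdV d P S v` : the condition of one end of a rest at a vertex `v ≠ start`; `edQ_iff`, `edQ_app`, `edQ_three`;
* `KcM.bd` : `k` is in the ball `E.k`; `KcM.edV` : a piece `k`; `edV_arc` : an arc behind `x~`;
* **`rst_kAk`** : `k`, `k'` in the classes `KcM`, `A` in the class of the rotated lattice ⟹ `k ++ (A ++ k'.reverse)` in the class of
  the rests of the lattice 0 (window wider by `k`, `k'`);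
* **`rst_bTb`** : the same for blocks `OtM` up to outer native gates.
-/

set_option autoImplicit false

namespace Pool.Agent.ROT.F3

open Finset ComplexConjugate
open scoped ENNReal Classical

variable {d d' t t' : ℂ} {P Q : Tp} {E E' : En} {S T ε : ℝ}

/-! ### 1. One end -/

/-- the condition at a vertex `v` (seen from the gate) of a rest -/
def EdV (d : ℂ) (P : Tp) (S : ℝ) (v : ℂ) : Prop :=
  (‖v‖ ≤ P.rg * S → 0 < lv d v) ∧ (Kn d P.c (P.κ * S) v ∨ P.r0 * S - P.κ * S ≤ ‖v‖)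

lemma edQ_iff {R : W3} (hP : P.Ok) (hS : 0 ≤ S) : EdQ d P S R ↔ ∀ k : ℕ, 0 < k → k ≤ R.length → EdV d P S (ps R k) := by
  constructor
  · intro h k h0 hk
    exact ⟨fun hn => h.right k h0 hk hn, h.cone k hk⟩
  · intro h
    refine ⟨fun k h0 hk hn => (h k h0 hk).1 hn, fun k hk => ?_⟩
    rcases Nat.eq_zero_or_pos k with h0 | h0
    · subst h0
      left
      unfold Kn
      rw [ps_zero, norm_zero, lv_zero, mul_zero]
      have := mul_nonneg hP.κ.le hS
      linarith
    · exact (h k h0 hk).2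

/-- far vertices are harmless -/
lemma edV_far {v : ℂ} (h : P.rg * S < ‖v‖) (h' : P.r0 * S - P.κ * S ≤ ‖v‖) : EdV d P S v :=
  ⟨fun hn => absurd hn (not_le.2 h), Or.inr h'⟩

lemma edQ_app {b U : W3} (hP : P.Ok) (hS : 0 ≤ S) (eb : Even b.length)
    (hb : ∀ k : ℕ, 0 < k → k ≤ b.length → EdV d P S (ps b k))
    (hU : ∀ k : ℕ, 0 < k → k ≤ U.length → EdV d P S (en b + ps U k)) : EdQ d P S (b ++ U) := by
  rw [edQ_iff hP hS]
  intro k h0 hk
  rw [List.length_append] at hk
  rcases le_or_gt k b.length with h1 | h1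
  · rw [ps_append_left h1]
    exact hb k h0 h1
  · rw [ps_app eb h1.le]
    exact hU _ (by omega) (by omega)

lemma edQ_three {b U c : W3} {rb rc : ℝ} (hP : P.Ok) (hS : 0 ≤ S) (eb : Even b.length) (eU : Even U.length)
    (ec : Even c.length) (hb : ∀ k : ℕ, 0 < k → k ≤ b.length → EdV d P S (ps b k))
    (hU : ∀ k : ℕ, 0 < k → k ≤ U.length → EdV d P S (en b + ps U k)) (nb : ‖en b‖ ≤ rb)
    (nc : ∀ k : ℕ, k ≤ c.length → ‖ps c k‖ ≤ rc) (h : P.r0 * S + rb + 2 * rc < ‖en U‖) :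
    EdQ d P S (b ++ (U ++ c.reverse)) := by
  have hk0 : 0 ≤ P.κ * S := mul_nonneg hP.κ.le hS
  have hrr : P.rg * S ≤ P.r0 * S := mul_le_mul_of_nonneg_right hP.rr hS
  refine edQ_app hP hS eb hb fun k h0 hk => ?_
  rw [List.length_append, List.length_reverse] at hk
  rcases le_or_gt k U.length with h1 | h1
  · rw [ps_append_left h1]
    exact hU k h0 h1
  · rw [ps_app eU h1.le, ps_reverse ec (by omega)]
    have e1 : en U = (en b + (en U + (ps c (c.length - (k - U.length)) - en c))) - en b -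
        ps c (c.length - (k - U.length)) + en c := by ring
    have h2 : ‖en U‖ ≤ ‖en b + (en U + (ps c (c.length - (k - U.length)) - en c))‖ + ‖en b‖ +
        ‖ps c (c.length - (k - U.length))‖ + ‖en c‖ := by
      conv_lhs => rw [e1]
      refine (norm_add_le _ _).trans ?_
      refine add_le_add ?_ le_rfl
      refine (norm_sub_le _ _).trans ?_
      exact add_le_add (norm_sub_le _ _) le_rfl
    have h3 := nc (c.length - (k - U.length)) (by omega)
    have h4 : ‖en c‖ ≤ rc := nc c.length le_rfl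
    exact edV_far (by linarith) (by linarith)

/-! ### 2. The pieces `k` -/

/-- the whole piece is in the ball `E.k` -/
lemma KcM.bd {k : W3} {j : ℕ} (h : KcM d t E S T k j) (hE : E.Ok ε) (hS : 0 ≤ S) {i : ℕ} (hi : i ≤ k.length) :
    ‖ps k i‖ ≤ E.k * S := by
  have hr2 : 0 ≤ E.f.r2 * S := mul_nonneg hE.f.r2.le hS
  unfold En.k
  rcases le_or_gt i j with h1 | h1
  · have := h.b1 i h1
    linarith
  · have h2 := h.b2 i h1.le hi
    have h3 := h.b1 j le_rfl
    have h4 : ps k i = (ps k i - ps k j) + ps k j := by ring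
    rw [h4]
    refine (norm_add_le _ _).trans ?_
    linarith

lemma KcM.edV {k : W3} {j : ℕ} (h : KcM d t E S T k j) (hE : E.Ok ε) (hS : 0 ≤ S) {i : ℕ} (h0 : 0 < i)
    (hi : i ≤ k.length) : EdV d E.n S (ps k i) :=
  ⟨fun _ => h.right i h0 hi, Or.inl ((h.s i hi).mono le_rfl (mul_le_mul_of_nonneg_right hE.κk hS))⟩

/-- **an arc behind `x~`**: `v` = position of `x~`, `w` = a vertex of the arc seen from `x~` -/
lemma edV_arc (hE : E.Ok ε) (hS : 0 < S) (ht : ‖t - d‖ ≤ ε) {v w : ℂ} (hv : E.n.c * ‖v‖ + E.ek * S ≤ lv d v)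
    (hl : (E.f.l + E.f.m) * S ≤ lv t v) (hb : ‖v‖ ≤ E.k * S)
    (hw : Kn t E.f.c (E.f.κ * S) w ∨ E.f.r0 * S - E.f.κ * S ≤ ‖w‖) : EdV d E.n S (v + w) := by
  rcases hw with hw | hw
  · exact ⟨fun _ => right_shift hE hS ht hl hb hw, Or.inl (cone_shift hE hS.le ht hv hw)⟩
  · have h1 := mul_lt_mul_of_pos_right hE.r0 hS
    have h2 : ‖w‖ ≤ ‖v + w‖ + ‖v‖ := by
      have : w = (v + w) - v := by ring
      conv_lhs => rw [this]
      exact norm_sub_le _ _
    have h3 := mul_le_mul_of_nonneg_right hE.n.rr hS.le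
    have h4 := mul_nonneg hE.n.κ.le hS.le
    exact edV_far (by linarith) (by linarith)

/-- **rests of the lattice 0 from the pieces `k`, `A`, `k'`** -/
theorem rst_kAk {W : Wn} {k A k' : W3} {j j' : ℕ} (hE : E.Ok ε) (hE' : E'.Ok ε) (hS : 0 < S) (hd : ‖t - d‖ ≤ ε)
    (hd' : ‖t' - d'‖ ≤ ε) (hk : KcM d t E S T k j) (hk' : KcM d' t' E' S T k' j') (ek : Even k.length) (ek' : Even k'.length)
    (hl : (E.f.l + E.f.m) * S ≤ lv t (en k)) (hl' : (E'.f.l + E'.f.m) * S ≤ lv t' (en k'))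
    (hA : RsQ t t' E.f E'.f W S T A) (hsw : SW (k ++ (A ++ k'.reverse)))
    (hD : 2 * (E.f.r0 + E'.f.r0) ≤ W.D0) :
    RsQ d d' E.n E'.n ⟨W.D0 - (E.k + E'.k), W.D1 + (E.k + E'.k), W.t0, W.t1 + (E.lk + E'.lk)⟩ S T
      (k ++ (A ++ k'.reverse)) := by
  have b1 : ∀ i : ℕ, i ≤ k.length → ‖ps k i‖ ≤ E.k * S := fun i hi => hk.bd hE hS.le hi
  have b2 : ∀ i : ℕ, i ≤ k'.length → ‖ps k' i‖ ≤ E'.k * S := fun i hi => hk'.bd hE' hS.le hi
  have n1 : ‖en k‖ ≤ E.k * S := b1 _ le_rfl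
  have n2 : ‖en k'‖ ≤ E'.k * S := b2 _ le_rfl
  have er : ‖en A.reverse‖ = ‖en A‖ := by rw [en_reverse hA.ev, norm_neg]
  have eAr : Even A.reverse.length := by rw [List.length_reverse]; exact hA.ev
  have g1 : E.n.r0 * S + E.k * S + 2 * (E'.k * S) < W.D0 * S := by
    have h1 := mul_lt_mul_of_pos_right hE.r0 hS
    have h2 := mul_lt_mul_of_pos_right hE'.r0 hS
    have h3 := mul_nonneg hE.f.κ.le hS.le
    have h4 := mul_nonneg hE'.f.κ.le hS.le
    have h5 := mul_le_mul_of_nonneg_right hD hS.le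
    have h6 : 0 ≤ E.n.r0 * S := (mul_nonneg ((mul_nonneg (by norm_num) (by linarith [hE.n.r, hE.n.r2])).trans hE.n.g64) hS.le).trans
      (mul_le_mul_of_nonneg_right hE.n.rr hS.le)
    have h7 : 0 ≤ E'.n.r0 * S := (mul_nonneg ((mul_nonneg (by norm_num) (by linarith [hE'.n.r, hE'.n.r2])).trans hE'.n.g64) hS.le).trans
      (mul_le_mul_of_nonneg_right hE'.n.rr hS.le)
    have h8 : 0 ≤ E.k * S := (norm_nonneg _).trans n1
    nlinarith
  have g2 : E'.n.r0 * S + E'.k * S + 2 * (E.k * S) < W.D0 * S := by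
    have h1 := mul_lt_mul_of_pos_right hE.r0 hS
    have h2 := mul_lt_mul_of_pos_right hE'.r0 hS
    have h3 := mul_nonneg hE.f.κ.le hS.le
    have h4 := mul_nonneg hE'.f.κ.le hS.le
    have h5 := mul_le_mul_of_nonneg_right hD hS.le
    have h6 : 0 ≤ E.n.r0 * S := (mul_nonneg ((mul_nonneg (by norm_num) (by linarith [hE.n.r, hE.n.r2])).trans hE.n.g64) hS.le).trans
      (mul_le_mul_of_nonneg_right hE.n.rr hS.le)
    have h7 : 0 ≤ E'.n.r0 * S := (mul_nonneg ((mul_nonneg (by norm_num) (by linarith [hE'.n.r, hE'.n.r2])).trans hE'.n.g64) hS.le).trans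
      (mul_le_mul_of_nonneg_right hE'.n.rr hS.le)
    have h8 : 0 ≤ E'.k * S := (norm_nonneg _).trans n2
    nlinarith
  have hen : en (k ++ (A ++ k'.reverse)) = en k + en A - en k' := by
    rw [en_append ek, en_append hA.ev, en_reverse ek']
    ring
  refine ⟨?_, hsw, ?_, ?_, ?_, ?_, ?_, ?_⟩
  · rw [List.length_append, List.length_append, List.length_reverse]
    exact ek.add (hA.ev.add ek')
  · exact edQ_three hE.n hS.le ek hA.ev ek' (fun i h0 hi => hk.edV hE hS.le h0 hi)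
      (fun i h0 hi => edV_arc hE hS hd hk.e hl n1 (hA.s.cone i hi)) n1 b2 (by linarith [hA.far])
  · have e1 : (k ++ (A ++ k'.reverse)).reverse = k' ++ (A.reverse ++ k.reverse) := by
      simp [List.reverse_append]
    rw [e1]
    refine edQ_three hE'.n hS.le ek' eAr ek (fun i h0 hi => hk'.edV hE' hS.le h0 hi)
      (fun i h0 hi => edV_arc hE' hS hd' hk'.e hl' n2 (hA.e.cone i hi)) n2 b1 ?_
    rw [er]
    linarith [hA.far]
  · rw [hen]
    have h1 : ‖en A‖ ≤ ‖en k + en A - en k'‖ + ‖en k‖ + ‖en k'‖ := by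
      have e : en A = (en k + en A - en k') - en k + en k' := by ring
      conv_lhs => rw [e]
      exact (norm_add_le _ _).trans (add_le_add (norm_sub_le _ _) le_rfl)
    have h2 := hA.far
    show (W.D0 - (E.k + E'.k)) * S ≤ _
    linarith
  · rw [hen]
    have h1 : ‖en k + en A - en k'‖ ≤ ‖en k‖ + ‖en A‖ + ‖en k'‖ :=
      (norm_sub_le _ _).trans (add_le_add (norm_add_le _ _) le_rfl)
    have h2 := hA.near
    show _ ≤ (W.D1 + (E.k + E'.k)) * S
    linarith
  · rw [List.length_append, List.length_append, List.length_reverse]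
    push_cast
    have h1 := hA.lo
    have h2 : (0 : ℝ) ≤ (k.length : ℝ) := Nat.cast_nonneg _
    have h3 : (0 : ℝ) ≤ (k'.length : ℝ) := Nat.cast_nonneg _
    show W.t0 * T ≤ _
    linarith
  · rw [List.length_append, List.length_append, List.length_reverse]
    push_cast
    have h1 := hA.hi
    have h2 := hk.lk
    have h3 := hk'.lk
    show _ ≤ (W.t1 + (E.lk + E'.lk)) * T
    linarith

/-! ### 3. Blocks up to outer native gates -/

/-- a rest behind an outer gate: `w` seen from `y`, `v` = position of `y` -/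
lemma edV_out {O : Ot} {b : W3} (hb : OtM d O S T b) (hP : P.Ok) (hS : 0 < S) (hc : P.c ≤ O.c) {κ : ℝ} (hκ : κ < O.m)
    (hκ' : κ ≤ O.e + P.κ) {w : ℂ} (hw : Kn d O.c (κ * S) w ∨ (P.r0 + O.r) * S < ‖w‖) : EdV d P S (en b + w) := by
  have hn : ‖en b‖ ≤ O.r * S := norm_en_le hb.k.t
  have hP0 : 0 ≤ P.c := by linarith [hP.c, hP.cs]
  rcases hw with hw | hw
  · have h1 := hb.f.1
    have h2 := hb.e
    unfold EndQ at h2
    have h3 : Kn d P.c (κ * S) w := hw.mono hc le_rfl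
    have h4 : Kn d P.c (-(O.e * S)) (en b) := by
      unfold Kn
      have := mul_le_mul_of_nonneg_right hc (norm_nonneg (en b))
      linarith
    refine ⟨fun _ => ?_, Or.inl ((h4.add hP0 h3).mono le_rfl ?_)⟩
    · unfold Kn at h3
      rw [lv_add]
      have := mul_nonneg hP0 (norm_nonneg w)
      have := mul_lt_mul_of_pos_right hκ hS
      linarith
    · have := mul_le_mul_of_nonneg_right hκ' hS.le
      linarith
  · have h2 : ‖w‖ ≤ ‖en b + w‖ + ‖en b‖ := by
      have : w = (en b + w) - en b := by ring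
      conv_lhs => rw [this]
      exact norm_sub_le _ _
    have h3 := mul_le_mul_of_nonneg_right hP.rr hS.le
    have h4 := mul_nonneg hP.κ.le hS.le
    exact edV_far (by linarith) (by linarith)

lemma OtM.edV {O : Ot} {b : W3} (hb : OtM d O S T b) (hS : 0 ≤ S) (hc : P.c ≤ O.c) (hκ : O.κ ≤ P.κ) {i : ℕ} (h0 : 0 < i)
    (hi : i ≤ b.length) : EdV d P S (ps b i) :=
  ⟨fun _ => hb.k.right i h0 hi, Or.inl ((hb.s i hi).mono hc (mul_le_mul_of_nonneg_right hκ hS))⟩

/-- **rests from two blocks up to outer native gates and a middle piece `U`** (a tube word) -/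
theorem rst_bTb {W : Wn} {O O' : Ot} {κ κ' : ℝ} {b U b' : W3} (hP : P.Ok) (hQ : Q.Ok) (hS : 0 < S)
    (hb : OtM d O S T b) (hb' : OtM d' O' S T b') (hc : P.c ≤ O.c) (hc' : Q.c ≤ O'.c) (hκo : O.κ ≤ P.κ) (hκo' : O'.κ ≤ Q.κ)
    (h1 : κ < O.m) (h2 : κ ≤ O.e + P.κ) (h1' : κ' < O'.m) (h2' : κ' ≤ O'.e + Q.κ) (eU : Even U.length) (sU : SW U)
    (r1 : RestC d (2 * O.r * S) U) (r2 : RestC d' (2 * O'.r * S) U.reverse)
    (c1 : ∀ i : ℕ, 0 < i → i ≤ U.length → Kn d O.c (κ * S) (ps U i) ∨ (P.r0 + O.r) * S < ‖ps U i‖)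
    (c2 : ∀ i : ℕ, 0 < i → i ≤ U.length → Kn d' O'.c (κ' * S) (ps U.reverse i) ∨ (Q.r0 + O'.r) * S < ‖ps U.reverse i‖)
    (f1 : (P.r0 + Q.r0 + 2 * (O.r + O'.r)) * S < ‖en U‖) (f2 : (W.D0 + (O.r + O'.r)) * S ≤ ‖en U‖)
    (f3 : ‖en U‖ ≤ (W.D1 - (O.r + O'.r)) * S) (l1 : W.t0 * T ≤ (U.length : ℝ))
    (l2 : (U.length : ℝ) ≤ (W.t1 - (O.lb + O'.lb)) * T) : RsQ d d' P Q W S T (b ++ (U ++ b'.reverse)) := by
  have eb := hb.k.t.ev
  have eb' := hb'.k.t.ev
  have n1 : ‖en b‖ ≤ O.r * S := norm_en_le hb.k.t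
  have n2 : ‖en b'‖ ≤ O'.r * S := norm_en_le hb'.k.t
  have er : ‖en U.reverse‖ = ‖en U‖ := by rw [en_reverse eU, norm_neg]
  have eUr : Even U.reverse.length := by rw [List.length_reverse]; exact eU
  have p1 : 0 ≤ O.r * S := (norm_nonneg _).trans n1
  have p2 : 0 ≤ O'.r * S := (norm_nonneg _).trans n2
  have q1 : 0 ≤ P.r0 * S := (mul_nonneg ((mul_nonneg (by norm_num) (by linarith [hP.r, hP.r2])).trans hP.g64) hS.le).trans
      (mul_le_mul_of_nonneg_right hP.rr hS.le)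
  have q2 : 0 ≤ Q.r0 * S := (mul_nonneg ((mul_nonneg (by norm_num) (by linarith [hQ.r, hQ.r2])).trans hQ.g64) hS.le).trans
      (mul_le_mul_of_nonneg_right hQ.rr hS.le)
  have hen : en (b ++ (U ++ b'.reverse)) = en b + en U - en b' := by
    rw [en_append eb, en_append eU, en_reverse eb']
    ring
  have hsw : SW (b ++ (U ++ b'.reverse)) := by
    refine (SW_three eb eU eb').2 ⟨hb.k.t.sw, sU, hb'.k.t.sw, tip_rest hb.k.t r1 (by linarith), fun j l hj hl => ?_,
      fun j l hj hl he => ?_⟩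
    · exact tip_rest hb'.k.t r2 (by linarith) j l hj (by rw [List.length_reverse]; exact hl)
    · have h1 := hb.k.t.ball j hj.le
      have h2 := hb'.k.t.ball l hl.le
      have h3 : en U = ps b j - en b + en b' - ps b' l := by rw [he]; ring
      have h4 : ‖en U‖ ≤ ‖ps b j‖ + ‖en b‖ + ‖en b'‖ + ‖ps b' l‖ := by
        rw [h3]
        calc ‖ps b j - en b + en b' - ps b' l‖ ≤ ‖ps b j - en b + en b'‖ + ‖ps b' l‖ := norm_sub_le _ _
          _ ≤ ‖ps b j - en b‖ + ‖en b'‖ + ‖ps b' l‖ := by linarith [norm_add_le (ps b j - en b) (en b')]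
          _ ≤ _ := by linarith [norm_sub_le (ps b j) (en b)]
      linarith
  refine ⟨?_, hsw, ?_, ?_, ?_, ?_, ?_, ?_⟩
  · rw [List.length_append, List.length_append, List.length_reverse]
    exact eb.add (eU.add eb')
  · exact edQ_three hP hS.le eb eU eb' (fun i h0 hi => hb.edV hS.le hc hκo h0 hi)
      (fun i h0 hi => edV_out hb hP hS hc h1 h2 (c1 i h0 hi)) n1 (fun i hi => hb'.k.t.ball i hi) (by linarith)
  · have e1 : (b ++ (U ++ b'.reverse)).reverse = b' ++ (U.reverse ++ b.reverse) := by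
      simp [List.reverse_append]
    rw [e1]
    refine edQ_three hQ hS.le eb' eUr eb (fun i h0 hi => hb'.edV hS.le hc' hκo' h0 hi)
      (fun i h0 hi => edV_out hb' hQ hS hc' h1' h2' (c2 i h0 (by rwa [List.length_reverse] at hi))) n2
      (fun i hi => hb.k.t.ball i hi) ?_
    rw [er]
    linarith
  · rw [hen]
    have h1 : ‖en U‖ ≤ ‖en b + en U - en b'‖ + ‖en b‖ + ‖en b'‖ := by
      have e : en U = (en b + en U - en b') - en b + en b' := by ring
      conv_lhs => rw [e]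
      exact (norm_add_le _ _).trans (add_le_add (norm_sub_le _ _) le_rfl)
    linarith
  · rw [hen]
    have h1 : ‖en b + en U - en b'‖ ≤ ‖en b‖ + ‖en U‖ + ‖en b'‖ :=
      (norm_sub_le _ _).trans (add_le_add (norm_add_le _ _) le_rfl)
    linarith
  · rw [List.length_append, List.length_append, List.length_reverse]
    push_cast
    have h2 : (0 : ℝ) ≤ (b.length : ℝ) := Nat.cast_nonneg _
    have h3 : (0 : ℝ) ≤ (b'.length : ℝ) := Nat.cast_nonneg _
    linarith
  · rw [List.length_append, List.length_append, List.length_reverse]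
    push_cast
    have h2 := hb.lb
    have h3 := hb'.lb
    linarith

end Pool.Agent.ROT.F3
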