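import Pool.Agent.ROT.F3GW

/-!
# ROT / F3Cls (helper82): the lattice classes of F3 (both lattices; one structure)

All lengths are in units of `S` (lattice units: `x * S`), all numbers of letters in units of `T` (`S = N`, `T = N ^ (4 / 3)`).
Frame W3; `d`, `d'` unit vectors, native directions; class `i`: `ev i` at `p`, `ev (-i)` at `q`.
Every end: tip - `c` - `x` - rest. THE SAME classes are used on the rotated lattice (read in its own frame), with `c~`, `x~`.
Every condition which is not the prefix rule of a cut is `statistic ≤ parameter` with its own parameter (closed for curves).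

* `Tp` : data of a native double gate; `Tp.Ok`;
* `PreM d P S T p k` : `p` = tip .. `x`, `k` = number of `c`; `Pre` the set of prefixes;
* `PaiM d d' P P' S T a k1 k2` : the two strands at a root up to their gates `x`; `Pai` the set of pairs;
* `Wn` : window of a rest or arc; `RsQ d d' P Q W S T R`, `Rst` : rests / arcs between two gates `x` (companions);
* `Sr`, `NRt` : strip and no return; `MnQ`, `Man` : the main arcs;
* `En`, `Prm` : all the data, `En.f.l` = level of `c~` over `x`; `Tp.up` : the same gate with the level of `c~` over the tip;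
* `KcM` : the pieces `k` = `x` .. `x~` (directions `d` = own lattice, `t` = the other lattice);
* `Ot`, `OtM`, `OtB` : blocks `x` .. `y` up to an outer native gate (lower bounds only).
-/

set_option autoImplicit false

namespace Pool.Agent.ROT.F3

open Finset ComplexConjugate
open scoped ENNReal Classical

/-! ### 1. Conditions on pieces -/

/-- lateral coordinate in the direction `d` -/
noncomputable def ltl (d z : ℂ) : ℝ := (conj d * z).im

/-- the closed cone of cosine `c` about `d`, offset `κ` -/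
def Kn (d : ℂ) (c κ : ℝ) (v : ℂ) : Prop := c * ‖v‖ - κ ≤ lv d v

/-- the end of `p` is in the cone, with margin `e` -/
def EndQ (d : ℂ) (c e : ℝ) (p : W3) : Prop := c * ‖en p‖ + e ≤ lv d (en p)

/-- all vertices are in the cone of cosine `c`, offset `κ` -/
def ConeQ (d : ℂ) (c κ : ℝ) (b : W3) : Prop := ∀ k : ℕ, k ≤ b.length → Kn d c κ (ps b k)

/-- two radii form of `in the ball r0: in the cone`: `min (c ‖v‖ - lv d v) (r0 - ‖v‖) ≤ κ` for all vertices `v` -/
def ConeR (d : ℂ) (c r0 κ : ℝ) (R : W3) : Prop := ∀ k : ℕ, k ≤ R.length → Kn d c κ (ps R k) ∨ r0 - κ ≤ ‖ps R k‖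

/-- a cut with level at least `h` strictly inside of the block -/
def ThC (d : ℂ) (h : ℝ) (b : W3) : Prop := ∃ k : ℕ, Even k ∧ 0 < k ∧ k < b.length ∧ CutC d b k ∧ h ≤ lv d (ps b k)

/-! ### 2. Data and classes -/

/-- **data of a native double gate** tip - `c` - `x` (lengths in units of `S`; `la`, `lb` in units of `T`) -/
structure Tp where
  /-- `c` = first cut (own prefix) with level at least `l` over the tip -/
  l : ℝ
  /-- tip .. `c` is in the ball of radius `r` around the tip -/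
  r : ℝ
  /-- `x` = first cut behind `c` with level at least `m` over `c` -/
  m : ℝ
  /-- the block `c` .. `x` has a cut with level in `[th * m, m)` over `c` -/
  th : ℝ
  /-- `c` .. `x` is in the ball of radius `r2` around `c` -/
  r2 : ℝ
  /-- offset of the cone of the block `c` .. `x` (apex `c`) -/
  κ1 : ℝ
  /-- in the ball of radius `rg` around `x` the rest is strictly right of `x` -/
  rg : ℝ
  /-- ball of the cone of the rest (apex `x`), two radii form -/
  r0 : ℝ
  /-- offset of the cone of the rest -/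
  κ : ℝ
  /-- cosine of the half angle of the cones of the block and of the rest -/
  c : ℝ
  /-- cosine for the position of `c` seen from the tip and for the sector of the first piece -/
  cs : ℝ
  /-- margin of the position of `c`: `cs ‖c‖ + e ≤ lv d c` -/
  e : ℝ
  /-- wedge: every vertex `v` of tip .. `c` of one strand has level at most `w` in the direction `d` of the other strand, or it is in
  its own sector: `Kn d' cs κs v` -/
  w : ℝ
  /-- offset of the sector in the wedge condition -/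
  κs : ℝ
  /-- at most `la * T` letters up to `c` -/
  la : ℝ
  /-- at most `lb * T` letters between `c` and `x` -/
  lb : ℝ

/-- the inequalities of the data -/
structure Tp.Ok (P : Tp) : Prop where
  l : 0 < P.l
  r : 0 < P.r
  m : 0 < P.m
  th : 0 < P.th
  th1 : P.th < 1
  r2 : 0 < P.r2
  κ1 : 0 < P.κ1
  κ : 0 < P.κ
  cs : 1 / 2 < P.cs
  c : P.cs ≤ P.c
  c1 : P.c ≤ 4 / 5
  e : P.κ1 + P.κ ≤ P.e
  w0 : 0 < P.w
  w : P.w ≤ P.l
  κs0 : 0 ≤ P.κs
  κs : P.κs ≤ (P.cs - 1 / 2) * P.w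
  rg : 2 * (P.r + P.r2) < P.rg
  r0 : 2 * (P.r + P.r2) < P.r0 - P.κ
  la : 0 < P.la
  lb : 0 < P.lb
  /-- relations for the start gates to be macroscopic (`MacTS`: box `R` with `R / 4 ≤` level, prefix in the ball `R`,
  `64 R ≤` ball of the gate `≤ 128 R`) -/
  gl : P.r < 4 * P.l
  gt : P.r2 < 4 * (P.th * P.m)
  gm : P.r + P.r2 < 4 * P.m
  g64 : 64 * (P.r + P.r2) ≤ P.rg
  g512 : P.rg < 512 * P.m
  rr : P.rg ≤ P.r0
  /-- relations for the lower bound of `gam` -/
  m8 : 8 * P.r ≤ P.m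
  m22 : 11 / 5 * P.m ≤ P.r2
  /-- the gates `c` exist -/
  e1 : P.e < (1 - P.cs) * P.l
  rr' : P.rg ≤ P.r0 - P.κ

/-- the same gate with the threshold `l + y` (rotated lattice: `y` = level of `x` over the tip) -/
def Tp.up (P : Tp) (y : ℝ) : Tp := { P with l := P.l + y }

@[simp] lemma Tp.up_zero (P : Tp) : P.up 0 = P := by
  unfold Tp.up
  rw [add_zero]

lemma Tp.Ok.up {P : Tp} (h : P.Ok) {y : ℝ} (hy : 0 ≤ y) : (P.up y).Ok :=
  ⟨by have := h.l; show 0 < P.l + y; linarith, h.r, h.m, h.th, h.th1, h.r2, h.κ1, h.κ, h.cs, h.c, h.c1, h.e, h.w0,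
    by have := h.w; show P.w ≤ P.l + y; linarith, h.κs0, h.κs, h.rg, h.r0, h.la, h.lb,
    by have := h.gl; show P.r < 4 * (P.l + y); linarith, h.gt, h.gm, h.g64, h.g512, h.rr, h.m8, h.m22,
    by
      have h1 := h.e1
      have h2 : 0 ≤ (1 - P.cs) * y := mul_nonneg (by linarith [h.c, h.c1]) hy
      show P.e < (1 - P.cs) * (P.l + y)
      linarith, h.rr'⟩

/-- **prefixes** tip .. `x`, `k` = number of the gate `c` -/
structure PreM (d : ℂ) (P : Tp) (S T : ℝ) (p : W3) (k : ℕ) : Prop where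
  g : DblC d (P.r * S) (P.l * S) (P.r2 * S) (P.m * S) p k
  th : ThC d (P.th * P.m * S) (p.drop k)
  e : EndQ d P.cs (P.e * S) (p.take k)
  s : ConeQ d P.c (P.κ1 * S) (p.drop k)
  la : (k : ℝ) ≤ P.la * T
  lb : ((p.drop k).length : ℝ) ≤ P.lb * T

/-- the set of prefixes -/
def Pre (d : ℂ) (P : Tp) (S T : ℝ) : Set W3 := {p | ∃ k : ℕ, PreM d P S T p k}

/-- **the two strands at a root**, `k1`, `k2` = numbers of their gates `c`; `P`, `P'` = the data of the two strands (on the lattice 0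
they are equal, on the rotated lattice they differ in the threshold `l` only) -/
structure PaiM (d d' : ℂ) (P P' : Tp) (S T : ℝ) (a : W3 × W3) (k1 k2 : ℕ) : Prop where
  p1 : PreM d P S T a.1 k1
  p2 : PreM d' P' S T a.2 k2
  w2 : ∀ k : ℕ, k ≤ k2 → lv d (ps a.2 k) ≤ P.w * S ∨ Kn d' P'.cs (P'.κs * S) (ps a.2 k)
  w1 : ∀ k : ℕ, k ≤ k1 → lv d' (ps a.1 k) ≤ P'.w * S ∨ Kn d P.cs (P.κs * S) (ps a.1 k)
  dj : ∀ j k : ℕ, j ≤ k1 → k ≤ k2 → ps a.1 j = ps a.2 k → j = 0 ∧ k = 0

/-- the set of pairs -/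
def Pai (d d' : ℂ) (P P' : Tp) (S T : ℝ) : Set (W3 × W3) := {a | ∃ k1 k2 : ℕ, PaiM d d' P P' S T a k1 k2}

/-- window of a rest: displacement in `[D0 * S, D1 * S]`, letters in `[t0 * T, t1 * T]` (`t0 = 0` allowed) -/
structure Wn where
  D0 : ℝ
  D1 : ℝ
  t0 : ℝ
  t1 : ℝ

/-- one end of a rest -/
structure EdQ (d : ℂ) (P : Tp) (S : ℝ) (R : W3) : Prop where
  right : RestC d (P.rg * S) R
  cone : ConeR d P.c (P.r0 * S) (P.κ * S) R

/-- **rests between two gates** -/
structure RsQ (d d' : ℂ) (P Q : Tp) (W : Wn) (S T : ℝ) (R : W3) : Prop where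
  ev : Even R.length
  sw : SW R
  s : EdQ d P S R
  e : EdQ d' Q S R.reverse
  far : W.D0 * S ≤ ‖en R‖
  near : ‖en R‖ ≤ W.D1 * S
  lo : W.t0 * T ≤ (R.length : ℝ)
  hi : (R.length : ℝ) ≤ W.t1 * T

/-- the set of rests -/
def Rst (d d' : ℂ) (P Q : Tp) (W : Wn) (S T : ℝ) : Set W3 := {R | RsQ d d' P Q W S T R}

/-- strip: level in `[-e, len]`, lateral coordinate at most `hw`; ball of no return of radius `bn` -/
structure Sr where
  e : ℝ
  hw : ℝ
  len : ℝ
  bn : ℝ

/-- first in the strip, then never again in the ball of radius `bn` -/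
def NRt (d : ℂ) (s : Sr) (S : ℝ) (R : W3) : Prop := ∃ ke : ℕ, ke ≤ R.length ∧
  (∀ k : ℕ, k ≤ ke → -(s.e * S) ≤ lv d (ps R k) ∧ lv d (ps R k) ≤ s.len * S ∧ |ltl d (ps R k)| ≤ s.hw * S) ∧
  ∀ k : ℕ, ke ≤ k → k ≤ R.length → s.bn * S ≤ ‖ps R k‖

/-- **the main arcs** -/
structure MnQ (d d' : ℂ) (P Q : Tp) (W : Wn) (s s' : Sr) (S T : ℝ) (R : W3) : Prop where
  q : RsQ d d' P Q W S T R
  np : NRt d s S R
  nq : NRt d' s' S R.reverse

/-- the set of the main arcs -/
def Man (d d' : ℂ) (P Q : Tp) (W : Wn) (s s' : Sr) (S T : ℝ) : Set W3 := {R | MnQ d d' P Q W s s' S T R}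

/-- **all the data of one end** -/
structure En where
  /-- native gate of the lattice 0: tip - `c` - `x` -/
  n : Tp
  /-- native gate of the rotated lattice: `f.l` = level of `c~` over `x`, `f.m` = level of `x~` over `c~`, `f.r` = ball of
  tip .. `c~`, `f.r2` = ball of `c~` .. `x~`; the class at the level `y` of `x` over the tip is `f.up y` -/
  f : Tp
  /-- `x` .. `c~` is in the ball of radius `rk` around `x` -/
  rk : ℝ
  /-- offset of the cone (lattice 0, apex `x`) of `k` = `x` .. `x~` -/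
  κk : ℝ
  /-- margin of the position of `x~` seen from `x`: `n.c ‖v‖ + ek ≤ lv d v` -/
  ek : ℝ
  /-- `k` has at most `lk * T` letters -/
  lk : ℝ
  /-- centre of the cell of `x~ - x`: `kc * d`, `d` = direction of the lattice 0 -/
  kc : ℝ
  /-- radius of the cell of `x~ - x` -/
  kr : ℝ
  /-- strip and no return of the main arcs `A` (behind `x~`) -/
  s : Sr

/-- radius of `k` = `x` .. `x~` around `x` -/
def En.k (E : En) : ℝ := E.rk + E.f.r2

/-- **the pieces** `k` = `x` .. `x~` of the rests of the lattice 0, `j` = number of `c~`; `d` = direction of the lattice 0, `t` =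
direction of the other lattice; no rule of first cuts -/
structure KcM (d t : ℂ) (E : En) (S T : ℝ) (k : W3) (j : ℕ) : Prop where
  le : j ≤ k.length
  /-- ball of `x` .. `c~` -/
  b1 : ∀ i : ℕ, i ≤ j → ‖ps k i‖ ≤ E.rk * S
  /-- ball of `c~` .. `x~` -/
  b2 : ∀ i : ℕ, j ≤ i → i ≤ k.length → ‖ps k i - ps k j‖ ≤ E.f.r2 * S
  /-- the cone of the lattice 0 -/
  s : ConeQ d E.n.c (E.κk * S) k
  /-- the cone of the block `c~` .. `x~` -/
  s2 : ∀ i : ℕ, j ≤ i → i ≤ k.length → Kn t E.f.c (E.f.κ1 * S) (ps k i - ps k j)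
  /-- position of `x~` -/
  e : E.n.c * ‖en k‖ + E.ek * S ≤ lv d (en k)
  /-- cell of `x~` -/
  cell : ‖en k - ((E.kc * S : ℝ) : ℂ) * d‖ ≤ E.kr * S
  /-- strictly right of `x` -/
  right : ∀ i : ℕ, 0 < i → i ≤ k.length → 0 < lv d (ps k i)
  lk : (k.length : ℝ) ≤ E.lk * T

/-- data of an outer native gate `y` (only for lower bounds): `y` = first cut behind `x` with level at least `m` over `x`, the block
`x` .. `y` in the ball `r`, in the strip of half width `hw`, in the cone (`c`, `κ`), margin `e` of `y`, at most `lb * T` letters -/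
structure Ot where
  m : ℝ
  r : ℝ
  hw : ℝ
  c : ℝ
  κ : ℝ
  e : ℝ
  lb : ℝ

/-- **the blocks** `b` = `x` .. `y` of the lower bounds -/
structure OtM (d : ℂ) (O : Ot) (S T : ℝ) (b : W3) : Prop where
  k : BlkC d (O.r * S) b
  f : FstC d (O.m * S) b
  hw : ∀ k : ℕ, k ≤ b.length → |ltl d (ps b k)| ≤ O.hw * S
  s : ConeQ d O.c (O.κ * S) b
  e : EndQ d O.c (O.e * S) b
  lb : (b.length : ℝ) ≤ O.lb * T

/-- the set of these blocks -/
def OtB (d : ℂ) (O : Ot) (S T : ℝ) : Set W3 := {b | OtM d O S T b}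

/-- **all the data**: the two ends, the windows of the main arcs and of the companions, the rotation `u` -/
structure Prm where
  p : En
  q : En
  W : Wn
  Wc : Wn
  u : ℂ

/-- the window of the rests `R = k A k'` of the lattice 0, if `W` is the window of the arcs `A` -/
def Prm.wd (P : Prm) (W : Wn) : Wn :=
  ⟨W.D0 - (P.p.k + P.q.k), W.D1 + (P.p.k + P.q.k), W.t0, W.t1 + (P.p.lk + P.q.lk)⟩

/-- the inequalities of one end, `ε` = bound of `‖u - 1‖` -/
structure En.Ok (E : En) (ε : ℝ) : Prop where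
  n : E.n.Ok
  f : E.f.Ok
  nlr : E.n.l < E.n.r
  rk : 0 < E.rk
  rkl : E.f.l < E.rk
  κk0 : 0 ≤ E.κk
  κk : E.κk ≤ E.n.κ
  ek : 0 ≤ E.ek
  lk : 0 < E.lk
  kr : 0 < E.kr
  kr' : 20 * E.kr ≤ E.n.m
  kc : E.f.l + E.f.m ≤ E.kc
  kc' : E.kc < E.k
  kcε : 40 * (E.kc * ε) ≤ E.n.m
  /-- tip .. `c~` is in the ball `f.r` -/
  ball : E.n.r + E.n.r2 + E.rk ≤ E.f.r
  /-- the first pieces tip .. `c` are in the wedge of the rotated class -/
  w : E.n.r ≤ E.f.w
  /-- the cone of the arcs `A` is inside of the cone of the rests -/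
  c : E.n.c + ε ≤ E.f.c
  κ : E.f.κ ≤ E.n.κ
  r0 : E.n.r0 + E.k < E.f.r0 - E.f.κ
  /-- the sectors of the lattice 0 are inside of the sectors of the rotated lattice -/
  cs : E.f.cs + ε < E.n.cs
  /-- the gate `c~` is in the cone of the rotated class -/
  ec : E.f.e ≤ (E.n.cs - ε - E.f.cs) * E.f.l
  /-- the rests are strictly right of `x` -/
  rt : E.f.κ + ε * E.k < E.f.l + E.f.m
  /-- the levels (rotated) up to `x` are at most the level of `x` plus `f.l / 2` -/
  loc : ε * (2 * (E.n.r + E.n.r2)) ≤ E.f.l / 2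
  /-- locality of the gates (97): radius of SCF at `c~` = `f.r`, at `x` = `n.rg / 64` -/
  loca : E.n.r + E.n.r2 + E.f.r / 16 ≤ E.f.l
  locb : 8 * E.n.rg ≤ E.f.l + E.f.m - E.f.κ
  locc : 8 * E.n.rg + (E.f.r + E.f.r2) < E.f.r0 - E.f.κ
  la : E.n.la + E.n.lb + E.lk ≤ E.f.la
  lb : E.lk ≤ E.f.lb
  /-- strip and no return (main arcs) -/
  se : 0 < E.s.e
  se' : E.s.e ≤ E.f.κ
  se'' : 10 * E.s.e ≤ E.f.m
  hw : 0 < E.s.hw
  hw' : 10 * E.s.hw ≤ E.f.m
  bn : 4 * E.f.r0 ≤ E.s.bn
  len : 2 * E.s.bn ≤ E.s.len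

/-- **the inequalities of the data** -/
structure Prm.Ok (P : Prm) : Prop where
  u : ‖P.u‖ = 1
  p : P.p.Ok ‖P.u - 1‖
  q : P.q.Ok ‖P.u - 1‖
  /-- the two ends are far from each other -/
  far : 2 * (P.p.f.r + P.p.f.r2 + (P.q.f.r + P.q.f.r2)) + (P.p.k + P.q.k) < P.W.D0
  farc : 2 * (P.p.f.r + P.p.f.r2 + (P.q.f.r + P.q.f.r2)) + (P.p.k + P.q.k) < P.Wc.D0
  nr : 20 * (P.p.s.len + P.q.s.len) < P.W.D0
  nrc : 16 * (P.p.s.len + P.q.s.len) < P.Wc.D0
  D : P.W.D0 < P.W.D1
  Dc : P.Wc.D0 ≤ P.W.D0 - 4 * (P.p.f.r0 + P.q.f.r0)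
  Dc' : P.W.D1 + 4 * (P.p.f.r0 + P.q.f.r0) ≤ P.Wc.D1
  t0 : 0 < P.W.t0
  t1 : P.W.t0 < P.W.t1
  t0c : P.Wc.t0 = 0
  t1c : 0 < P.Wc.t1

/-! ### 3. The classes at the scale `N` -/

/-- unit of the numbers of letters -/
noncomputable def uT (N : ℕ) : ℝ := (N : ℝ) ^ (4 / 3 : ℝ)

/-- lattice 0, start of a walk (class 0), tip .. `x` -/
def Prm.T0p (P : Prm) (N : ℕ) : Set W3 := Pre (ev 0) P.p.n N (uT N)
/-- lattice 0, end of a walk (read backwards) -/
def Prm.T0q (P : Prm) (N : ℕ) : Set W3 := Pre (ev 0) P.q.n N (uT N)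
/-- lattice 0, the root `p`, strands of the classes `i`, `j` -/
def Prm.C0p (P : Prm) (i j : Fin 3) (N : ℕ) : Set (W3 × W3) := Pai (ev i) (ev j) P.p.n P.p.n N (uT N)
/-- lattice 0, the root `q` (strands read from `q`) -/
def Prm.C0q (P : Prm) (i j : Fin 3) (N : ℕ) : Set (W3 × W3) := Pai (ev (-i)) (ev (-j)) P.q.n P.q.n N (uT N)
/-- lattice 0, rests of the class `i`, window `W` -/
def Prm.R0 (P : Prm) (i : Fin 3) (W : Wn) (N : ℕ) : Set W3 := Rst (ev i) (ev (-i)) P.p.n P.q.n (P.wd W) N (uT N)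
/-- rotated lattice, start of a walk, threshold `f.l + y` -/
def Prm.TRp (P : Prm) (y : ℝ) (N : ℕ) : Set W3 := Pre (ev 0) (P.p.f.up y) N (uT N)
/-- rotated lattice, end of a walk -/
def Prm.TRq (P : Prm) (y : ℝ) (N : ℕ) : Set W3 := Pre (ev 0) (P.q.f.up y) N (uT N)
/-- rotated lattice, the root `p`; `y`, `y'` = the levels of the gates `x` of the two strands -/
def Prm.CRp (P : Prm) (i j : Fin 3) (y y' : ℝ) (N : ℕ) : Set (W3 × W3) :=
  Pai (ev i) (ev j) (P.p.f.up y) (P.p.f.up y') N (uT N)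
/-- rotated lattice, the root `q` -/
def Prm.CRq (P : Prm) (i j : Fin 3) (y y' : ℝ) (N : ℕ) : Set (W3 × W3) :=
  Pai (ev (-i)) (ev (-j)) (P.q.f.up y) (P.q.f.up y') N (uT N)
/-- rotated lattice, the main arcs (class 0) -/
def Prm.A0 (P : Prm) (N : ℕ) : Set W3 := Man (ev 0) (ev 0) P.p.f P.q.f P.W P.p.s P.q.s N (uT N)
/-- rotated lattice, the arcs of the companions (classes 1, 2) -/
def Prm.Ac (P : Prm) (i : Fin 3) (N : ℕ) : Set W3 := Rst (ev i) (ev (-i)) P.p.f P.q.f P.Wc N (uT N)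

end Pool.Agent.ROT.F3
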