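import Pool.Agent.ROT.F3CoreW
import Pool.Agent.ROT.F3Cls

/-!
# ROT, F3, row Core, part (C1), `hsub` (helper42)

* `Rel` : the triples (rest, (pieces, arc)), `isClosed_rel`, `rel_k` (displacements);
* `EdP` : the closed conditions at one end of a rest (cone in the ball, two radii form; ball and displacement of the piece next to the
  end); **`VV p q AC`** : (rest, (pieces, arc)) with these conditions at both ends, arc in `AC`; `isClosed_vv`;
* `Sep2`, **`sep2_of`** : cones at an angle of at least 120 degrees, relative position `z0` with `lv (d1 - d2) z0 < - 2 (κ1 + κ2)`;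
* **`hsub_of`** : the field `hsub` of `PairIn`, with `D0 = DD fst fst yP yP Z0 W0`;
* words: `rel_word`, `cone_word`, `ball_word`, **`vv_word`** (slack `2 / S`); `vv_inter`, `vv_mono` : slack tending to zero.
-/

set_option autoImplicit false

open MeasureTheory Topology Set

namespace Pool.Agent.ROT.F3.CC

open Pool.Agent.ROT.F3

/-! ### 1. The relation -/

/-- (rest, (pieces, arc)) -/
abbrev QQ : Type := Pie × ((Pie × Pie) × Pie)

/-- the pieces of a rest between two marks -/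
def Rel : Set QQ := {x | ∃ s s' : unitInterval, x.2 = ((pcut x.1 0 s, pcut x.1 1 s'), pcut x.1 s s')}

lemma isClosed_rel : IsClosed Rel := by
  have h1 : IsClosed {q : QQ × (unitInterval × unitInterval) |
      q.1.2 = ((pcut q.1.1 0 q.2.1, pcut q.1.1 1 q.2.2), pcut q.1.1 q.2.1 q.2.2)} := by
    refine isClosed_eq (by fun_prop) ?_
    have c1 : Continuous fun q : QQ × (unitInterval × unitInterval) => q.1.1 := by fun_prop
    have c2 : Continuous fun q : QQ × (unitInterval × unitInterval) => (q.2.1 : ℝ) := by fun_prop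
    have c3 : Continuous fun q : QQ × (unitInterval × unitInterval) => (q.2.2 : ℝ) := by fun_prop
    exact ((pcut_cont' c1 continuous_const c2).prodMk (pcut_cont' c1 continuous_const c3)).prodMk (pcut_cont' c1 c2 c3)
  have h2 : Rel = Prod.fst '' {q : QQ × (unitInterval × unitInterval) |
      q.1.2 = ((pcut q.1.1 0 q.2.1, pcut q.1.1 1 q.2.2), pcut q.1.1 q.2.1 q.2.2)} := by
    ext x
    constructor
    · rintro ⟨s, s', h⟩
      exact ⟨(x, (s, s')), h, rfl⟩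
    · rintro ⟨⟨x', s, s'⟩, h, rfl⟩
      exact ⟨s, s', h⟩
  rw [h2]
  exact isClosedMap_fst_of_compactSpace _ h1

/-- the displacements -/
lemma rel_k {x : QQ} (h : x ∈ Rel) : yP x.1 = sK x.2.1 + yP x.2.2 + eK x.2.1 := by
  obtain ⟨s, s', h⟩ := h
  rw [h]
  show -dsp x.1 = -dsp (pcut x.1 0 s) + -dsp (pcut x.1 s s') + dsp (pcut x.1 1 s')
  rw [dsp_pcut, dsp_pcut, dsp_pcut, ex_zero, ex_one]
  unfold dsp
  ring

/-! ### 2. The conditions at one end -/

/-- the data of one end: direction, cosine, ball, offset of the cone; ball and displacements of the piece next to the end -/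
structure EdP where
  d : ℂ
  c : ℝ
  r0 : ℝ
  κ : ℝ
  rk : ℝ
  E : Set ℂ

/-- a point seen from the end: in the cone, or far -/
def EdP.pt (e : EdP) (v : ℂ) : Prop := Kn e.d e.c e.κ v ∨ e.r0 - e.κ ≤ ‖v‖

lemma lv_cont (d : ℂ) : Continuous (lv d) := by
  unfold lv
  fun_prop

lemma isClosed_pt (e : EdP) : IsClosed {v : ℂ | e.pt v} := by
  have h1 : IsClosed {v : ℂ | Kn e.d e.c e.κ v} := by
    unfold Kn
    exact isClosed_le (by fun_prop) (lv_cont _)
  have h2 : IsClosed {v : ℂ | e.r0 - e.κ ≤ ‖v‖} := isClosed_le continuous_const continuous_norm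
  exact h1.union h2

/-- **(rest, (pieces, arc))** with the conditions at both ends -/
structure Vc (p q : EdP) (AC : Set Pie) (x : QQ) : Prop where
  rel : x ∈ Rel
  z : x.1.1 0 = 0
  cp : ∀ u : unitInterval, p.pt (x.1.1 u)
  cq : ∀ u : unitInterval, q.pt (x.1.1 u - x.1.1 1)
  kp : ∀ u : unitInterval, ‖x.2.1.1.1 u‖ ≤ p.rk
  kq : ∀ u : unitInterval, ‖x.2.1.2.1 u‖ ≤ q.rk
  dp : dsp x.2.1.1 ∈ p.E
  dq : dsp x.2.1.2 ∈ q.E
  a : x.2.2 ∈ AC

/-- the set -/
def VV (p q : EdP) (AC : Set Pie) : Set QQ := {x | Vc p q AC x}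

theorem isClosed_vv {p q : EdP} {AC : Set Pie} (hp : IsClosed p.E) (hq : IsClosed q.E) (hA : IsClosed AC) :
    IsClosed (VV p q AC) := by
  have ev : ∀ u : unitInterval, Continuous fun x : QQ => x.1.1 u := fun u =>
    (continuous_eval_const u).comp (continuous_fst.comp continuous_fst)
  have evk : ∀ u : unitInterval, Continuous fun x : QQ => x.2.1.1.1 u := fun u =>
    (continuous_eval_const u).comp (by fun_prop)
  have evk' : ∀ u : unitInterval, Continuous fun x : QQ => x.2.1.2.1 u := fun u =>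
    (continuous_eval_const u).comp (by fun_prop)
  have e : VV p q AC = Rel ∩ {x | x.1.1 0 = 0} ∩ (⋂ u : unitInterval, {x | p.pt (x.1.1 u)}) ∩
      (⋂ u : unitInterval, {x | q.pt (x.1.1 u - x.1.1 1)}) ∩ (⋂ u : unitInterval, {x | ‖x.2.1.1.1 u‖ ≤ p.rk}) ∩
      (⋂ u : unitInterval, {x | ‖x.2.1.2.1 u‖ ≤ q.rk}) ∩ {x | dsp x.2.1.1 ∈ p.E} ∩ {x | dsp x.2.1.2 ∈ q.E} ∩
      {x | x.2.2 ∈ AC} := by
    ext x
    simp only [mem_inter_iff, mem_iInter, mem_ofPred_eq]
    constructor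
    · intro h
      exact ⟨⟨⟨⟨⟨⟨⟨⟨h.rel, h.z⟩, h.cp⟩, h.cq⟩, h.kp⟩, h.kq⟩, h.dp⟩, h.dq⟩, h.a⟩
    · rintro ⟨⟨⟨⟨⟨⟨⟨⟨h1, h2⟩, h3⟩, h4⟩, h5⟩, h6⟩, h7⟩, h8⟩, h9⟩
      exact ⟨h1, h2, h3, h4, h5, h6, h7, h8, h9⟩
  rw [e]
  refine ((((((((isClosed_rel.inter ?_).inter ?_).inter ?_).inter ?_).inter ?_).inter ?_).inter ?_).inter ?_)
  · exact isClosed_eq (ev 0) continuous_const
  · exact isClosed_iInter fun u => (isClosed_pt p).preimage (ev u)
  · exact isClosed_iInter fun u => (isClosed_pt q).preimage ((ev u).sub (ev 1))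
  · exact isClosed_iInter fun u => isClosed_le (evk u).norm continuous_const
  · exact isClosed_iInter fun u => isClosed_le (evk' u).norm continuous_const
  · exact hp.preimage (dsp_cont.comp (by fun_prop))
  · exact hq.preimage (dsp_cont.comp (by fun_prop))
  · exact hA.preimage (by fun_prop)

/-! ### 3. Two rests -/

/-- the ends `p1`, `p2` at the relative position `z0` -/
structure Sep2 (p1 p2 : EdP) (z0 : ℂ) : Prop where
  cone : ∀ v1 v2 : ℂ, Kn p1.d p1.c p1.κ v1 → Kn p2.d p2.c p2.κ v2 → v1 ≠ v2 + z0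
  b1 : ‖z0‖ + p1.rk < p2.r0 - p2.κ
  b2 : ‖z0‖ + p2.rk < p1.r0 - p1.κ
  k1 : p1.rk < p1.r0 - p1.κ
  k2 : p2.rk < p2.r0 - p2.κ

lemma lv_add_le {d d' : ℂ} (h : ‖d + d'‖ ≤ 1) (v : ℂ) : lv d v + lv d' v ≤ ‖v‖ := by
  have e : lv d v + lv d' v = (starRingEnd ℂ (d + d') * v).re := by
    unfold lv
    rw [map_add, add_mul, Complex.add_re]
  rw [e]
  refine (Complex.re_le_norm _).trans ?_
  rw [norm_mul, Complex.norm_conj]
  exact mul_le_of_le_one_left (norm_nonneg v) h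

/-- **cones at an angle of at least 120 degrees** -/
theorem sep2_of {p1 p2 : EdP} {z0 : ℂ} (hd : ‖p1.d + p2.d‖ ≤ 1) (h1 : 1 / 2 ≤ p1.c) (h2 : 1 / 2 ≤ p2.c)
    (hz : lv p1.d z0 - lv p2.d z0 < -(2 * (p1.κ + p2.κ))) (b1 : ‖z0‖ + p1.rk < p2.r0 - p2.κ)
    (b2 : ‖z0‖ + p2.rk < p1.r0 - p1.κ) (k1 : p1.rk < p1.r0 - p1.κ) (k2 : p2.rk < p2.r0 - p2.κ) : Sep2 p1 p2 z0 where
  cone := by
    intro v1 v2 c1 c2 e
    unfold Kn at c1 c2
    have a1 := lv_add_le hd v1
    have a2 := lv_add_le hd v2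
    have n1 := norm_nonneg v1
    have n2 := norm_nonneg v2
    have m1 : 1 / 2 * ‖v1‖ ≤ p1.c * ‖v1‖ := mul_le_mul_of_nonneg_right h1 n1
    have m2 : 1 / 2 * ‖v2‖ ≤ p2.c * ‖v2‖ := mul_le_mul_of_nonneg_right h2 n2
    have e1 : lv p1.d v1 = lv p1.d v2 + lv p1.d z0 := by
      rw [e]
      unfold lv
      rw [mul_add, Complex.add_re]
    have e2 : lv p2.d v1 = lv p2.d v2 + lv p2.d z0 := by
      rw [e]
      unfold lv
      rw [mul_add, Complex.add_re]
    linarith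
  b1 := b1
  b2 := b2
  k1 := k1
  k2 := k2

/-- a point of the first strand in the piece next to the end is not on the second strand -/
lemma sep2_left {p1 p2 : EdP} {z0 : ℂ} (h : Sep2 p1 p2 z0) {v1 v2 : ℂ} (a : ‖v1‖ ≤ p1.rk) (c1 : p1.pt v1)
    (c2 : p2.pt v2) : v1 ≠ v2 + z0 := by
  intro e
  have k1 : Kn p1.d p1.c p1.κ v1 := by
    rcases c1 with h1 | h1
    · exact h1
    · exfalso
      linarith [h.k1]
  rcases c2 with h2 | h2
  · exact h.cone v1 v2 k1 h2 e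
  · have e2 : v2 = v1 - z0 := by
      rw [e]
      ring
    have := norm_sub_le v1 z0
    rw [← e2] at this
    linarith [h.b1]

/-- the same for the second strand -/
lemma sep2_right {p1 p2 : EdP} {z0 : ℂ} (h : Sep2 p1 p2 z0) {v1 v2 : ℂ} (a : ‖v2‖ ≤ p2.rk) (c1 : p1.pt v1)
    (c2 : p2.pt v2) : v1 ≠ v2 + z0 := by
  intro e
  have k2 : Kn p2.d p2.c p2.κ v2 := by
    rcases c2 with h1 | h1
    · exact h1
    · exfalso
      linarith [h.k2]
  rcases c1 with h2 | h2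
  · exact h.cone v1 v2 h2 k2 e
  · have := norm_add_le v2 z0
    rw [← e] at this
    linarith [h.b2]

/-- the points of a rest are in the pieces or in the arc -/
lemma rel_cases {x : QQ} (h : x ∈ Rel) (u : unitInterval) :
    (∃ v : unitInterval, x.1.1 u - x.1.1 0 = x.2.1.1.1 v) ∨ (∃ v : unitInterval, x.1.1 u - x.1.1 1 = x.2.1.2.1 v) ∨
      ∃ v : unitInterval, x.1.1 u - x.1.1 0 = x.2.2.1 v + dsp x.2.1.1 := by
  obtain ⟨s, s', h⟩ := h
  have hs0 : (0 : ℝ) ≤ s := s.2.1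
  have hs1 : (s : ℝ) ≤ 1 := s.2.2
  have hs0' : (0 : ℝ) ≤ s' := s'.2.1
  have hs1' : (s' : ℝ) ≤ 1 := s'.2.2
  have hu0 : (0 : ℝ) ≤ u := u.2.1
  have hu1 : (u : ℝ) ≤ 1 := u.2.2
  rcases le_or_gt (u : ℝ) s with h1 | h1
  · left
    obtain ⟨v, hv⟩ : ∃ v : unitInterval, (v : ℝ) * s = u := by
      rcases eq_or_lt_of_le hs0 with h0 | h0
      · refine ⟨0, ?_⟩
        rw [← h0] at h1 ⊢
        rw [mul_zero]
        linarith
      · exact ⟨⟨(u : ℝ) / s, div_nonneg hu0 hs0, (div_le_one h0).2 h1⟩, div_mul_cancel₀ _ h0.ne'⟩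
    refine ⟨v, ?_⟩
    rw [h]
    show _ = cutp x.1.1 0 s v
    rw [cutp_apply, sub_zero, zero_add, hv, ex_coe, ex_zero]
  · rcases le_or_gt (s' : ℝ) u with h2 | h2
    · right; left
      obtain ⟨v, hv⟩ : ∃ v : unitInterval, 1 + (v : ℝ) * (s' - 1) = u := by
        rcases eq_or_lt_of_le hs1' with h0 | h0
        · refine ⟨0, ?_⟩
          rw [h0] at h2 ⊢
          rw [sub_self, mul_zero]
          linarith
        · have h3 : (0 : ℝ) < 1 - s' := by linarith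
          refine ⟨⟨(1 - u) / (1 - s'), div_nonneg (by linarith) h3.le, (div_le_one h3).2 (by linarith)⟩, ?_⟩
          show 1 + (1 - (u : ℝ)) / (1 - s') * (s' - 1) = u
          field_simp
          ring
      refine ⟨v, ?_⟩
      rw [h]
      show _ = cutp x.1.1 1 s' v
      rw [cutp_apply, hv, ex_coe, ex_one]
    · right; right
      have h3 : (0 : ℝ) < s' - s := by linarith
      obtain ⟨v, hv⟩ : ∃ v : unitInterval, (s : ℝ) + (v : ℝ) * (s' - s) = u := by
        refine ⟨⟨(u - s) / (s' - s), div_nonneg (by linarith) h3.le, (div_le_one h3).2 (by linarith)⟩, ?_⟩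
        show (s : ℝ) + ((u : ℝ) - s) / (s' - s) * (s' - s) = u
        rw [div_mul_cancel₀ _ h3.ne']
        ring
      refine ⟨v, ?_⟩
      rw [h]
      show _ = cutp x.1.1 s s' v + dsp (pcut x.1 0 s)
      rw [cutp_apply, hv, ex_coe, dsp_pcut, ex_zero]
      ring

/-- **two rests**: disjoint arcs ==> disjoint rests -/
theorem rests_disjoint {p1 q1 p2 q2 : EdP} {A1 A2 : Set Pie} {x y : QQ} (hx : Vc p1 q1 A1 x) (hy : Vc p2 q2 A2 y)
    {z0 : ℂ} (sp : Sep2 p1 p2 z0) (sq : Sep2 q1 q2 (z0 + yP x.1 - yP y.1))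
    (hA : ∀ s t : unitInterval, x.2.2.1 s ≠ y.2.2.1 t + (z0 + sK x.2.1 - sK y.2.1)) (s t : unitInterval) :
    x.1.1 s ≠ y.1.1 t + z0 := by
  intro e
  have ex1 : yP x.1 = -x.1.1 1 := by
    unfold yP dsp
    rw [hx.z, sub_zero]
  have ey1 : yP y.1 = -y.1.1 1 := by
    unfold yP dsp
    rw [hy.z, sub_zero]
  have eq1 : x.1.1 s - x.1.1 1 = y.1.1 t - y.1.1 1 + (z0 + yP x.1 - yP y.1) := by
    rw [e, ex1, ey1]
    ring
  rcases rel_cases hx.rel s with ⟨v, hv⟩ | ⟨v, hv⟩ | ⟨v, hv⟩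
  · rw [hx.z, sub_zero] at hv
    refine sep2_left sp ?_ (hx.cp s) (hy.cp t) e
    rw [hv]
    exact hx.kp v
  · refine sep2_left sq ?_ (hx.cq s) (hy.cq t) eq1
    rw [hv]
    exact hx.kq v
  · rcases rel_cases hy.rel t with ⟨v', hv'⟩ | ⟨v', hv'⟩ | ⟨v', hv'⟩
    · rw [hy.z, sub_zero] at hv'
      refine sep2_right sp ?_ (hx.cp s) (hy.cp t) e
      rw [hv']
      exact hy.kp v'
    · refine sep2_right sq ?_ (hx.cq s) (hy.cq t) eq1
      rw [hv']
      exact hy.kq v'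
    · rw [hx.z, sub_zero] at hv
      rw [hy.z, sub_zero] at hv'
      refine hA v v' ?_
      show x.2.2.1 v = y.2.2.1 v' + (z0 + -dsp x.2.1.1 - -dsp y.2.1.1)
      have e2 : x.2.2.1 v = y.2.2.1 v' + dsp y.2.1.1 + z0 - dsp x.2.1.1 := by
        rw [← hv', ← e, hv]
        ring
      rw [e2]
      ring

/-- **the field `hsub`**, `D0 = DD fst fst yP yP Z0 W0` -/
theorem hsub_of {p1 q1 p2 q2 : EdP} {A1 A2 : Set Pie} {c1 c2 : Cls Pie (Pie × Pie) Pie} (s1 : c1.s = sK) (s2 : c2.s = sK)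
    (y1 : c1.y = yP) (y2 : c2.y = yP) (g1 : c1.g = Prod.fst) (g2 : c2.g = Prod.fst)
    (v1 : ∀ r ∈ c1.C, (r, c1.τ r) ∈ VV p1 q1 A1) (v2 : ∀ r ∈ c2.C, (r, c2.τ r) ∈ VV p2 q2 A2)
    {Z W Z0 W0 : Set ℂ} (hZ : ∀ z ∈ Z, ∀ a ∈ p1.E, ∀ b ∈ p2.E, z + a - b ∈ Z0)
    (hW : ∀ w ∈ W, ∀ a ∈ q1.E, ∀ b ∈ q2.E, w + a - b ∈ W0) (sp : ∀ z ∈ Z0, Sep2 p1 p2 z)
    (sq : ∀ w ∈ W0, Sep2 q1 q2 w) (p : Pie × (Pie × ℂ)) (h1 : p.1 ∈ c1.C) (h2 : p.2.1 ∈ c2.C)
    (h3 : pi3 (tht c1.τ c2.τ c1.s c2.s p) ∈ DD c1.g c2.g c1.y c2.y Z W) :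
    p ∈ DD Prod.fst Prod.fst yP yP Z0 W0 := by
  obtain ⟨r1, r2, z0⟩ := p
  have hx : Vc p1 q1 A1 (r1, c1.τ r1) := v1 r1 h1
  have hy : Vc p2 q2 A2 (r2, c2.τ r2) := v2 r2 h2
  rw [s1, s2, y1, y2, g1, g2] at h3
  obtain ⟨k1, k2, k3⟩ := h3
  have kx := rel_k hx.rel
  have ky := rel_k hy.rel
  have z1 : z0 ∈ Z0 := by
    have := hZ _ k2 _ hx.dp _ hy.dp
    have e : (pi3 (tht c1.τ c2.τ sK sK (r1, r2, z0))).2.2 + dsp (c1.τ r1).1.1 - dsp (c2.τ r2).1.1 = z0 := by
      show z0 + -dsp (c1.τ r1).1.1 - -dsp (c2.τ r2).1.1 + dsp (c1.τ r1).1.1 - dsp (c2.τ r2).1.1 = z0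
      ring
    rwa [e] at this
  have w1 : z0 + yP r1 - yP r2 ∈ W0 := by
    have := hW _ k3 _ hx.dq _ hy.dq
    have e : (pi3 (tht c1.τ c2.τ sK sK (r1, r2, z0))).2.2 + yP (pi3 (tht c1.τ c2.τ sK sK (r1, r2, z0))).1 -
        yP (pi3 (tht c1.τ c2.τ sK sK (r1, r2, z0))).2.1 + dsp (c1.τ r1).1.2 - dsp (c2.τ r2).1.2 =
        z0 + yP r1 - yP r2 := by
      have e1 : yP r1 = -dsp (c1.τ r1).1.1 + yP (c1.τ r1).2 + dsp (c1.τ r1).1.2 := kx
      have e2 : yP r2 = -dsp (c2.τ r2).1.1 + yP (c2.τ r2).2 + dsp (c2.τ r2).1.2 := ky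
      rw [e1, e2]
      show z0 + -dsp (c1.τ r1).1.1 - -dsp (c2.τ r2).1.1 + yP (c1.τ r1).2 - yP (c2.τ r2).2 + dsp (c1.τ r1).1.2 -
        dsp (c2.τ r2).1.2 = _
      ring
    rwa [e] at this
  refine ⟨?_, z1, w1⟩
  intro s t
  exact rests_disjoint hx hy (sp _ z1) (sq _ w1) (fun s t => k1 s t) s t

/-! ### 4. Words -/

/-- **the pieces of a word** -/
theorem rel_word {d τ : ℝ} {k A k' : W3} (ek : Even k.length) (eA : Even A.length) (ek' : Even k'.length)
    (h : 1 ≤ (k ++ (A ++ k'.reverse)).length) :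
    (wp d τ (k ++ (A ++ k'.reverse)), ((wp d τ k, wp d τ k'), wp d τ A)) ∈ Rel := by
  obtain ⟨R, hR⟩ : ∃ R : W3, R = k ++ (A ++ k'.reverse) := ⟨_, rfl⟩
  have hl : R.length = k.length + (A.length + k'.length) := by
    rw [hR]
    simp only [List.length_append, List.length_reverse]
  rw [← hR] at h ⊢
  have hn : (R.length : ℝ) ≠ 0 := by exact_mod_cast (by omega : R.length ≠ 0)
  have g1 : seg R 0 k.length = k := by
    rw [hR, seg_app_left le_rfl, seg_full]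
  have g2 : seg R k.length (k.length + A.length) = A := by
    rw [hR]
    exact seg_mid _ _ _
  have g3 : seg R (k.length + A.length) R.length = k'.reverse := by
    have e : R.length = k.length + A.length + k'.length := by omega
    have h2 := seg_app_right (u := k ++ A) (v := k'.reverse) (i := 0) (j := k'.length)
    rw [List.length_append, add_zero] at h2
    rw [e, hR, ← List.append_assoc, h2]
    have := seg_full k'.reverse
    rwa [List.length_reverse] at this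
  have i1 : (k.length : ℝ) / R.length ∈ Icc (0 : ℝ) 1 := by
    refine ⟨by positivity, ?_⟩
    rw [div_le_one (by positivity)]
    exact_mod_cast (by omega : k.length ≤ R.length)
  have i2 : ((k.length + A.length : ℕ) : ℝ) / R.length ∈ Icc (0 : ℝ) 1 := by
    refine ⟨by positivity, ?_⟩
    rw [div_le_one (by positivity)]
    exact_mod_cast (by omega : k.length + A.length ≤ R.length)
  have eR : Even R.length := by
    rw [hl]
    exact ek.add (eA.add ek')
  refine ⟨⟨_, i1⟩, ⟨_, i2⟩, ?_⟩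
  have e0 : (0 : ℝ) = ((0 : ℕ) : ℝ) / R.length := by simp
  have e1 : (1 : ℝ) = (R.length : ℝ) / R.length := (div_self hn).symm
  refine Prod.ext (Prod.ext ?_ ?_) ?_
  · show wp d τ k = pcut (wp d τ R) 0 ((k.length : ℝ) / R.length)
    conv_rhs => rw [e0]
    rw [wp_seg (by simp) (Nat.zero_le _) (by omega) h, g1]
  · show wp d τ k' = pcut (wp d τ R) 1 (((k.length + A.length : ℕ) : ℝ) / R.length)
    conv_rhs => rw [e1]
    rw [wp_rev (ek.add eA) eR (by omega) le_rfl h, g3, List.reverse_reverse]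
  · show wp d τ A = pcut (wp d τ R) ((k.length : ℝ) / R.length) (((k.length + A.length : ℕ) : ℝ) / R.length)
    rw [wp_seg ek (by omega) (by omega) h, g2]

/-- every point of the curve of a word is close to a vertex -/
lemma near_vertex {w : W3} {d : ℝ} (hd : 0 < d) (u : unitInterval) :
    ∃ k : ℕ, k ≤ w.length ∧ ‖crv w w.length d u - ps w k / d‖ ≤ 1 / d := by
  rcases Nat.eq_zero_or_pos w.length with h0 | h0
  · refine ⟨0, le_of_eq h0.symm, ?_⟩
    have e : crv w w.length d u = 0 := by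
      rw [h0, crv_nil_steps]
      rfl
    rw [e, ps_zero, zero_div, sub_zero, norm_zero]
    positivity
  obtain ⟨k, hk, h1, h2⟩ := edge_of (m := w.length) h0 (x := (u : ℝ) * w.length) (mul_nonneg u.2.1 (Nat.cast_nonneg _))
    (mul_le_of_le_one_left (Nat.cast_nonneg _) u.2.2)
  refine ⟨k, hk.le, ?_⟩
  rw [crv_apply hk h1 h2]
  have hd' : (d : ℂ) ≠ 0 := by exact_mod_cast hd.ne'
  have e : (((1 - ((u : ℝ) * w.length - k) : ℝ) : ℂ) * ps w k + (((u : ℝ) * w.length - k : ℝ) : ℂ) * ps w (k + 1)) / d -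
      ps w k / d = (((u : ℝ) * w.length - k : ℝ) : ℂ) * st w k / d := by
    rw [ps_succ]
    push_cast
    field_simp
    ring
  rw [e, norm_div, norm_mul, Complex.norm_real, Complex.norm_real, Real.norm_of_nonneg hd.le, Real.norm_eq_abs,
    abs_of_nonneg (by linarith)]
  refine div_le_div_of_nonneg_right ?_ hd.le
  have h3 : ‖st w k‖ ≤ 1 := F.norm_st w k
  exact mul_le_one₀ (by linarith) (norm_nonneg _) h3

/-- balls -/
lemma ball_word {w : W3} {d r : ℝ} (hd : 0 < d) (h : ∀ k : ℕ, k ≤ w.length → ‖ps w k‖ ≤ r * d) (u : unitInterval) :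
    ‖crv w w.length d u‖ ≤ r + 1 / d := by
  obtain ⟨k, hk, h1⟩ := near_vertex (w := w) hd u
  have h2 : ‖ps w k / d‖ ≤ r := by
    rw [norm_div, Complex.norm_real, Real.norm_of_nonneg hd.le, div_le_iff₀ hd]
    exact h k hk
  have h3 : crv w w.length d u = ps w k / d + (crv w w.length d u - ps w k / d) := by ring
  rw [h3]
  exact (norm_add_le _ _).trans (add_le_add h2 h1)

/-- slack -/
def EdP.up (e : EdP) (ε : ℝ) : EdP := { e with κ := e.κ + ε, rk := e.rk + ε }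

lemma lv_le_norm {d : ℂ} (hd : ‖d‖ = 1) (v : ℂ) : |lv d v| ≤ ‖v‖ := by
  unfold lv
  refine (Complex.abs_re_le_norm _).trans ?_
  rw [norm_mul, Complex.norm_conj, hd, one_mul]

/-- a point next to a point of the cone -/
lemma pt_near {e : EdP} (hd : ‖e.d‖ = 1) (hc : |e.c| ≤ 1) {v v' : ℂ} {ε : ℝ} (h : e.pt v) (hv : ‖v' - v‖ ≤ ε) :
    (e.up (2 * ε)).pt v' := by
  have h1 : v' = v + (v' - v) := by ring
  have h2 : lv e.d v' = lv e.d v + lv e.d (v' - v) := by
    conv_lhs => rw [h1]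
    unfold lv
    rw [mul_add, Complex.add_re]
  have h3 := lv_le_norm hd (v' - v)
  have h4 := (abs_le.1 h3).1
  have h5 : |‖v'‖ - ‖v‖| ≤ ‖v' - v‖ := abs_norm_sub_norm_le v' v
  have h6 := abs_le.1 h5
  rcases h with h | h
  · left
    show e.c * ‖v'‖ - (e.κ + 2 * ε) ≤ lv e.d v'
    unfold Kn at h
    have h7 : |e.c * (‖v'‖ - ‖v‖)| ≤ ε := by
      rw [abs_mul]
      calc |e.c| * |‖v'‖ - ‖v‖| ≤ 1 * |‖v'‖ - ‖v‖| := mul_le_mul_of_nonneg_right hc (abs_nonneg _)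
        _ ≤ ε := by
          rw [one_mul]
          exact h5.trans hv
    have h8 := (abs_le.1 h7).2
    have h9 : e.c * (‖v'‖ - ‖v‖) = e.c * ‖v'‖ - e.c * ‖v‖ := by ring
    linarith
  · right
    show e.r0 - (e.κ + 2 * ε) ≤ ‖v'‖
    have : 0 ≤ ε := (norm_nonneg _).trans hv
    linarith [h6.1]

/-- the vertices in the cone (82's `ConeR`), scale `d` -/
lemma pt_vertex {e : EdP} {w : W3} {S : ℝ} (hS : 0 < S) (h : ConeR e.d e.c (e.r0 * S) (e.κ * S) w) {k : ℕ}
    (hk : k ≤ w.length) : e.pt (ps w k / S) := by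
  have hn : ‖ps w k / (S : ℂ)‖ = ‖ps w k‖ / S := by
    rw [norm_div, Complex.norm_real, Real.norm_of_nonneg hS.le]
  have hl : lv e.d (ps w k / (S : ℂ)) = lv e.d (ps w k) / S := by
    unfold lv
    rw [mul_div_assoc', Complex.div_ofReal_re]
  rcases h k hk with h1 | h1
  · left
    unfold Kn at h1 ⊢
    rw [hn, hl, le_div_iff₀ hS]
    have : (e.c * (‖ps w k‖ / S) - e.κ) * S = e.c * ‖ps w k‖ - e.κ * S := by
      field_simp
    rw [this]
    exact h1
  · right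
    rw [hn, le_div_iff₀ hS, sub_mul]
    exact h1

/-- **the curve of a word in the cone** -/
theorem cone_word {e : EdP} (hd : ‖e.d‖ = 1) (hc : |e.c| ≤ 1) {w : W3} {S : ℝ} (hS : 0 < S)
    (h : ConeR e.d e.c (e.r0 * S) (e.κ * S) w) (u : unitInterval) : (e.up (2 / S)).pt (crv w w.length S u) := by
  obtain ⟨k, hk, h1⟩ := near_vertex (w := w) hS u
  have h2 := pt_near hd hc (pt_vertex hS h hk) h1
  rwa [mul_one_div] at h2

/-- the same for the other end -/
theorem cone_word_rev {e : EdP} (hd : ‖e.d‖ = 1) (hc : |e.c| ≤ 1) {w : W3} (hw : Even w.length) {S : ℝ} (hS : 0 < S)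
    (h : ConeR e.d e.c (e.r0 * S) (e.κ * S) w.reverse) (u : unitInterval) :
    (e.up (2 / S)).pt (crv w w.length S u - crv w w.length S 1) := by
  obtain ⟨k, hk, h1⟩ := near_vertex (w := w) hS u
  have h2 : e.pt (ps w.reverse (w.length - k) / S) :=
    pt_vertex hS h (by rw [List.length_reverse]; omega)
  rw [ps_reverse hw (by omega), Nat.sub_sub_self hk] at h2
  have h3 : crv w w.length S 1 = en w / S := by
    rw [crv_one]
    rfl
  have h4 := pt_near hd hc h2 (v' := crv w w.length S u - crv w w.length S 1) (ε := 1 / S) (by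
    rw [h3]
    have : crv w w.length S u - en w / (S : ℂ) - (ps w k - en w) / (S : ℂ) = crv w w.length S u - ps w k / (S : ℂ) := by
      ring
    rw [this]
    exact h1)
  rwa [mul_one_div] at h4

/-- **slack tending to zero** -/
theorem vv_inter {p q : EdP} {AC : Set Pie} {x : QQ} (h : ∀ ε : ℝ, 0 < ε → x ∈ VV (p.up ε) (q.up ε) AC) :
    x ∈ VV p q AC := by
  have key : ∀ (e : EdP) (v : ℂ), (∀ ε : ℝ, 0 < ε → (e.up ε).pt v) → e.pt v := by
    intro e v hv
    by_contra hc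
    unfold EdP.pt Kn at hc
    push Not at hc
    obtain ⟨c1, c2⟩ := hc
    obtain ⟨ε, hε⟩ : ∃ ε : ℝ, ε = min (e.c * ‖v‖ - e.κ - lv e.d v) (e.r0 - e.κ - ‖v‖) / 2 := ⟨_, rfl⟩
    have m1 := min_le_left (e.c * ‖v‖ - e.κ - lv e.d v) (e.r0 - e.κ - ‖v‖)
    have m2 := min_le_right (e.c * ‖v‖ - e.κ - lv e.d v) (e.r0 - e.κ - ‖v‖)
    have m3 : 0 < min (e.c * ‖v‖ - e.κ - lv e.d v) (e.r0 - e.κ - ‖v‖) := lt_min (by linarith) (by linarith)
    have hε0 : 0 < ε := by
      rw [hε]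
      linarith
    rcases hv ε hε0 with h1 | h1
    · have : e.c * ‖v‖ - (e.κ + ε) ≤ lv e.d v := h1
      linarith
    · have : e.r0 - (e.κ + ε) ≤ ‖v‖ := h1
      linarith
  have key2 : ∀ a b : ℝ, (∀ ε : ℝ, 0 < ε → a ≤ b + ε) → a ≤ b := fun a b hab => le_of_forall_pos_le_add hab
  have h1 := h 1 one_pos
  exact ⟨h1.rel, h1.z, fun u => key _ _ fun ε hε => (h ε hε).cp u, fun u => key _ _ fun ε hε => (h ε hε).cq u,
    fun u => key2 _ _ fun ε hε => (h ε hε).kp u, fun u => key2 _ _ fun ε hε => (h ε hε).kq u, h1.dp, h1.dq, h1.a⟩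

lemma dsp_wp (d τ : ℝ) (w : W3) : dsp (wp d τ w) = en w / d := by
  show crv w w.length d 1 - crv w w.length d 0 = _
  rw [crv_one, crv_zero, sub_zero]
  rfl

/-- **the word level**: `R = k A k'` (the last piece read from the other end) with the conditions of 82's classes, units `S` -/
theorem vv_word {p q : EdP} {AC : Set Pie} (hdp : ‖p.d‖ = 1) (hdq : ‖q.d‖ = 1) (hcp : |p.c| ≤ 1) (hcq : |q.c| ≤ 1)
    {S τ : ℝ} (hS : 0 < S) {k A k' : W3} (ek : Even k.length) (eA : Even A.length) (ek' : Even k'.length)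
    (h : 1 ≤ (k ++ (A ++ k'.reverse)).length)
    (h1 : ConeR p.d p.c (p.r0 * S) (p.κ * S) (k ++ (A ++ k'.reverse)))
    (h2 : ConeR q.d q.c (q.r0 * S) (q.κ * S) (k ++ (A ++ k'.reverse)).reverse)
    (b1 : ∀ i : ℕ, i ≤ k.length → ‖ps k i‖ ≤ p.rk * S) (b2 : ∀ i : ℕ, i ≤ k'.length → ‖ps k' i‖ ≤ q.rk * S)
    (e1 : en k / (S : ℂ) ∈ p.E) (e2 : en k' / (S : ℂ) ∈ q.E) (hA : wp S τ A ∈ AC) :
    (wp S τ (k ++ (A ++ k'.reverse)), ((wp S τ k, wp S τ k'), wp S τ A)) ∈ VV (p.up (2 / S)) (q.up (2 / S)) AC := by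
  have eR : Even (k ++ (A ++ k'.reverse)).length := by
    simp only [List.length_append, List.length_reverse]
    exact ek.add (eA.add ek')
  have hs : 1 / S ≤ 2 / S := by
    have : (0 : ℝ) < 1 / S := by positivity
    have e : 2 / S = 1 / S + 1 / S := by ring
    linarith
  refine ⟨rel_word ek eA ek' h, crv_zero _ _ _, fun u => cone_word hdp hcp hS h1 u, fun u => cone_word_rev hdq hcq eR hS h2 u,
    fun u => ?_, fun u => ?_, ?_, ?_, hA⟩
  · exact (ball_word hS b1 u).trans (by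
      show p.rk + 1 / S ≤ p.rk + 2 / S
      linarith)
  · exact (ball_word hS b2 u).trans (by
      show q.rk + 1 / S ≤ q.rk + 2 / S
      linarith)
  · show dsp (wp S τ k) ∈ p.E
    rw [dsp_wp]
    exact e1
  · show dsp (wp S τ k') ∈ q.E
    rw [dsp_wp]
    exact e2

/-- the slack can be enlarged -/
lemma vv_mono {p q : EdP} {AC : Set Pie} {ε ε' : ℝ} (h : ε ≤ ε') : VV (p.up ε) (q.up ε) AC ⊆ VV (p.up ε') (q.up ε') AC := by
  have key : ∀ (e : EdP) (v : ℂ), (e.up ε).pt v → (e.up ε').pt v := by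
    intro e v hv
    rcases hv with h1 | h1
    · left
      have h2 : e.c * ‖v‖ - (e.κ + ε) ≤ lv e.d v := h1
      show e.c * ‖v‖ - (e.κ + ε') ≤ lv e.d v
      linarith
    · right
      have h2 : e.r0 - (e.κ + ε) ≤ ‖v‖ := h1
      show e.r0 - (e.κ + ε') ≤ ‖v‖
      linarith
  intro x hx
  refine ⟨hx.rel, hx.z, fun u => key _ _ (hx.cp u), fun u => key _ _ (hx.cq u), fun u => (hx.kp u).trans ?_,
    fun u => (hx.kq u).trans ?_, hx.dp, hx.dq, hx.a⟩
  · show p.rk + ε ≤ p.rk + ε'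
    linarith
  · show q.rk + ε ≤ q.rk + ε'
    linarith

end Pool.Agent.ROT.F3.CC
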