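import Pool.Agent.ROT.F3C4c
import Pool.Agent.Tight.Inst

/-!
# ROT, F3, row W7, route L (helper63): the support hypothesis from channels

* `Dsj g1 g2` : the pairs of arcs which are disjoint at the relative position `z` (measurable: `dsj_meas`);
* `DD g1 g2 y1 y2 Z W` : the same, with the relative positions of the starts in `Z` and of the ends in `W`;
* `Inn g z K` : the arcs which, started at `z`, stay in `K` (`inn_meas` for closed `K`);
* **`sup_geo`** : the hypothesis of `sup_of` at one arc `a`, from two closed channels `K`, `K'` at positive distance of the arc and of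
  each other; **`sup_chan`** : `Sup` from the channels of almost every arc; **`sup_loc`** : the same with a clearance which depends on
  the arc, and channels for all positions of the ends.
-/

set_option autoImplicit false

namespace Pool.Agent.ROT.F3

open MeasureTheory Set Topology
open scoped ENNReal

variable {A B C : Type*} [MeasurableSpace A] [MeasurableSpace B] [MeasurableSpace C]

/-- the arcs are disjoint at the relative position `z` -/
def Dsj (g1 : A → C(unitInterval, ℂ)) (g2 : B → C(unitInterval, ℂ)) : Set (A × B × ℂ) :=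
  {p | ∀ s t : unitInterval, g1 p.1 s ≠ g2 p.2.1 t + p.2.2}

/-- disjoint arcs, starts at the relative position in `Z`, ends at the relative position in `W` -/
def DD (g1 : A → C(unitInterval, ℂ)) (g2 : B → C(unitInterval, ℂ)) (y1 : A → ℂ) (y2 : B → ℂ) (Z W : Set ℂ) :
    Set (A × B × ℂ) := Dsj g1 g2 ∩ {p | p.2.2 ∈ Z ∧ p.2.2 + y1 p.1 - y2 p.2.1 ∈ W}

/-- the arcs which stay in `K` when they are started at `z` -/
def Inn (g : B → C(unitInterval, ℂ)) (z : ℂ) (K : Set ℂ) : Set B := {x | ∀ t : unitInterval, g x t + z ∈ K}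

lemma touch_closed : IsClosed {p : C(unitInterval, ℂ) × C(unitInterval, ℂ) × ℂ | ∃ s t : unitInterval, p.1 s = p.2.1 t + p.2.2} := by
  have h1 : IsClosed {q : (C(unitInterval, ℂ) × C(unitInterval, ℂ) × ℂ) × (unitInterval × unitInterval) |
      q.1.1 q.2.1 = q.1.2.1 q.2.2 + q.1.2.2} := by
    refine isClosed_eq ?_ ?_
    · fun_prop
    · fun_prop
  have h2 : {p : C(unitInterval, ℂ) × C(unitInterval, ℂ) × ℂ | ∃ s t : unitInterval, p.1 s = p.2.1 t + p.2.2} =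
      Prod.fst '' {q : (C(unitInterval, ℂ) × C(unitInterval, ℂ) × ℂ) × (unitInterval × unitInterval) |
        q.1.1 q.2.1 = q.1.2.1 q.2.2 + q.1.2.2} := by
    ext p
    constructor
    · rintro ⟨s, t, h⟩
      exact ⟨(p, (s, t)), h, rfl⟩
    · rintro ⟨⟨p', s, t⟩, h, rfl⟩
      exact ⟨s, t, h⟩
  rw [h2]
  exact isClosedMap_fst_of_compactSpace _ h1

lemma dsj_meas {g1 : A → C(unitInterval, ℂ)} {g2 : B → C(unitInterval, ℂ)} (h1 : Measurable g1) (h2 : Measurable g2) :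
    MeasurableSet (Dsj g1 g2) := by
  have e : Dsj g1 g2 = ((fun p : A × B × ℂ => (g1 p.1, g2 p.2.1, p.2.2)) ⁻¹'
      {p : C(unitInterval, ℂ) × C(unitInterval, ℂ) × ℂ | ∃ s t : unitInterval, p.1 s = p.2.1 t + p.2.2})ᶜ := by
    ext p
    simp only [Dsj, mem_ofPred_eq, mem_compl_iff, mem_preimage, not_exists, ne_eq]
  rw [e]
  refine MeasurableSet.compl ?_
  have hm : Measurable fun p : A × B × ℂ => (g1 p.1, g2 p.2.1, p.2.2) := by fun_prop
  exact hm touch_closed.measurableSet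

lemma dd_meas {g1 : A → C(unitInterval, ℂ)} {g2 : B → C(unitInterval, ℂ)} (h1 : Measurable g1) (h2 : Measurable g2)
    {y1 : A → ℂ} {y2 : B → ℂ} (m1 : Measurable y1) (m2 : Measurable y2) {Z W : Set ℂ} (hZ : MeasurableSet Z)
    (hW : MeasurableSet W) : MeasurableSet (DD g1 g2 y1 y2 Z W) := by
  refine (dsj_meas h1 h2).inter ?_
  have e1 : Measurable fun p : A × B × ℂ => p.2.2 := by fun_prop
  have e2 : Measurable fun p : A × B × ℂ => p.2.2 + y1 p.1 - y2 p.2.1 := by fun_prop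
  exact (e1 hZ).inter (e2 hW)

lemma inn_meas {g : B → C(unitInterval, ℂ)} (h : Measurable g) (z : ℂ) {K : Set ℂ} (hK : IsClosed K) :
    MeasurableSet (Inn g z K) := by
  have e : IsClosed {γ : C(unitInterval, ℂ) | ∀ t : unitInterval, γ t + z ∈ K} := by
    have : {γ : C(unitInterval, ℂ) | ∀ t : unitInterval, γ t + z ∈ K} = ⋂ t : unitInterval, {γ | γ t + z ∈ K} := by
      ext γ
      simp
    rw [this]
    refine isClosed_iInter fun t => ?_
    exact hK.preimage ((continuous_eval_const t).add continuous_const)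
  exact h e.measurableSet

/-- **one arc**: two closed channels -/
theorem sup_geo {g1 : A → C(unitInterval, ℂ)} {g2 : B → C(unitInterval, ℂ)} {g3 : C → C(unitInterval, ℂ)} {a : A} {K K' : Set ℂ}
    {z0 z0' : ℂ} {η : ℝ} (h1 : ∀ s, ∀ k ∈ K, η < dist (g1 a s) k) (h2 : ∀ s, ∀ k ∈ K', η < dist (g1 a s) k)
    (h3 : ∀ k ∈ K, ∀ k' ∈ K', 2 * η < dist k k') {x : B} (hx : x ∈ Inn g2 z0 K) {x' : C} (hx' : x' ∈ Inn g3 z0' K') {z z' : ℂ}
    (hz : dist z z0 ≤ η) (hz' : dist z' z0' ≤ η) :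
    (a, x, z) ∈ Dsj g1 g2 ∧ (a, x', z') ∈ Dsj g1 g3 ∧ (x, x', z' - z) ∈ Dsj g2 g3 := by
  have key : ∀ (g y y0 : ℂ), dist y y0 ≤ η → dist (g + y) (g + y0) ≤ η := by
    intro g y y0 h
    rwa [dist_add_left]
  refine ⟨fun s t e => ?_, fun s t e => ?_, fun s t e => ?_⟩
  · have e1 := h1 s _ (hx t)
    have e2 := key (g2 x t) z z0 hz
    simp only at e
    rw [e] at e1
    linarith
  · have e1 := h2 s _ (hx' t)
    have e2 := key (g3 x' t) z' z0' hz'
    simp only at e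
    rw [e] at e1
    linarith
  · have e1 := h3 _ (hx s) _ (hx' t)
    have e2 := key (g2 x s) z z0 hz
    have e3 := key (g3 x' t) z' z0' hz'
    simp only at e
    have e4 : g2 x s + z = g3 x' t + z' := by
      rw [e]
      ring
    rw [e4] at e2
    have e5 := dist_triangle (g2 x s + z0) (g3 x' t + z') (g3 x' t + z0')
    rw [dist_comm (g2 x s + z0) (g3 x' t + z')] at e5
    linarith

lemma ac_rst {D : Type*} [MeasurableSpace D] {v : Measure ℂ} {b : Measure D} {V : Set D} {y : D → ℂ} {T : Set ℂ}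
    (hV : MeasurableSet V) (hy : Measurable y) (hT : MeasurableSet T) (hl : v.restrict T ≪ (b.restrict V).map y) :
    v.restrict T ≪ (b.restrict (V ∩ y ⁻¹' T)).map y := by
  have e1 : (b.restrict (V ∩ y ⁻¹' T)).map y = ((b.restrict V).map y).restrict T := by
    rw [Measure.restrict_map hy hT, Measure.restrict_restrict (hy hT), inter_comm]
  rw [e1]
  have e2 := hl.restrict T
  rwa [Measure.restrict_restrict hT, inter_self] at e2

/-- **the support hypothesis from the channels of almost every arc**: `Zc`, `Wc` the cells of the relative positions -/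
theorem sup_chan {b1 : Measure A} {b2 : Measure B} {b3 : Measure C} {v : Measure ℂ} [SFinite b2] [SFinite b3] [SFinite v]
    [v.IsAddLeftInvariant] {g1 : A → C(unitInterval, ℂ)} {g2 : B → C(unitInterval, ℂ)} {g3 : C → C(unitInterval, ℂ)}
    (m2 : Measurable g2) (m3 : Measurable g3) {y1 : A → ℂ} {y2 : B → ℂ} {y3 : C → ℂ} (n2 : Measurable y2) (n3 : Measurable y3)
    {z0 z0' w0 w0' : ℂ} {η : ℝ} {Z12 Z13 Z23 W12 W13 W23 : Set ℂ}
    (hZ12 : Metric.closedBall z0 η ⊆ Z12) (hZ13 : Metric.closedBall z0' η ⊆ Z13)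
    (hZ23 : Metric.closedBall (z0' - z0) (2 * η) ⊆ Z23) (hW12 : Metric.closedBall w0 (3 * η) ⊆ W12)
    (hW13 : Metric.closedBall w0' (3 * η) ⊆ W13) (hW23 : Metric.closedBall (w0' - w0) (6 * η) ⊆ W23)
    (h : ∀ᵐ a ∂b1, ∃ K K' : Set ℂ, IsClosed K ∧ IsClosed K' ∧ (∀ s, ∀ k ∈ K, η < dist (g1 a s) k) ∧
      (∀ s, ∀ k ∈ K', η < dist (g1 a s) k) ∧ (∀ k ∈ K, ∀ k' ∈ K', 2 * η < dist k k') ∧
      v.restrict (Metric.closedBall (z0 + y1 a - w0) (2 * η)) ≪ (b2.restrict (Inn g2 z0 K)).map y2 ∧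
      v.restrict (Metric.closedBall (z0' + y1 a - w0') (2 * η)) ≪ (b3.restrict (Inn g3 z0' K')).map y3) :
    Sup b1 b2 b3 v (DD g1 g2 y1 y2 Z12 W12) (DD g1 g3 y1 y3 Z13 W13) (DD g2 g3 y2 y3 Z23 W23) y1 y2 y3
      (Metric.closedBall z0 η ×ˢ Metric.closedBall z0' η ×ˢ Metric.closedBall w0 η ×ˢ Metric.closedBall w0' η) := by
  refine sup_of n2 n3 Metric.isClosed_closedBall.measurableSet Metric.isClosed_closedBall.measurableSet
    Metric.isClosed_closedBall.measurableSet Metric.isClosed_closedBall.measurableSet ?_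
  filter_upwards [h] with a ha
  obtain ⟨K, K', cK, cK', d1, d2, d3, l2, l3⟩ := ha
  have mT : ∀ c : ℂ, MeasurableSet (Metric.closedBall c (2 * η)) := fun c => Metric.isClosed_closedBall.measurableSet
  have tri : ∀ {z w y c d : ℂ}, dist z c ≤ η → dist w d ≤ η → dist (z + y - w) (c + y - d) ≤ 2 * η := by
    intro z w y c d h1 h2
    have e : z + y - w - (c + y - d) = (z - c) - (w - d) := by ring
    rw [dist_eq_norm] at h1 h2 ⊢
    rw [e]
    refine (norm_sub_le _ _).trans ?_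
    linarith
  refine ⟨Inn g2 z0 K ∩ y2 ⁻¹' Metric.closedBall (z0 + y1 a - w0) (2 * η),
    Inn g3 z0' K' ∩ y3 ⁻¹' Metric.closedBall (z0' + y1 a - w0') (2 * η),
    Metric.closedBall (z0 + y1 a - w0) (2 * η), Metric.closedBall (z0' + y1 a - w0') (2 * η),
    (inn_meas m2 z0 cK).inter (n2 (mT _)), (inn_meas m3 z0' cK').inter (n3 (mT _)), mT _, mT _, ?_, ?_, ?_,
    ac_rst (inn_meas m2 z0 cK) n2 (mT _) l2, ac_rst (inn_meas m3 z0' cK') n3 (mT _) l3⟩
  · rintro x ⟨hx, tx⟩ x' ⟨hx', tx'⟩ z hz z' hz'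
    have hz1 : dist z z0 ≤ η := hz
    have hz2 : dist z' z0' ≤ η := hz'
    have tx1 : dist (y2 x) (z0 + y1 a - w0) ≤ 2 * η := tx
    have tx2 : dist (y3 x') (z0' + y1 a - w0') ≤ 2 * η := tx'
    obtain ⟨g1', g2', g3'⟩ := sup_geo d1 d2 d3 hx hx' hz1 hz2
    have w1 : dist (z + y1 a - y2 x) w0 ≤ 3 * η := by
      have e : z + y1 a - y2 x - w0 = (z - z0) - (y2 x - (z0 + y1 a - w0)) := by ring
      rw [dist_eq_norm] at hz1 tx1 ⊢
      rw [e]
      refine (norm_sub_le _ _).trans ?_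
      linarith
    have w2 : dist (z' + y1 a - y3 x') w0' ≤ 3 * η := by
      have e : z' + y1 a - y3 x' - w0' = (z' - z0') - (y3 x' - (z0' + y1 a - w0')) := by ring
      rw [dist_eq_norm] at hz2 tx2 ⊢
      rw [e]
      refine (norm_sub_le _ _).trans ?_
      linarith
    refine ⟨⟨g1', hZ12 hz1, hW12 w1⟩, ⟨g2', hZ13 hz2, hW13 w2⟩, ⟨g3', hZ23 ?_, hW23 ?_⟩⟩
    · show dist (z' - z) (z0' - z0) ≤ 2 * η
      have e : z' - z - (z0' - z0) = (z' - z0') - (z - z0) := by ring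
      rw [dist_eq_norm] at hz1 hz2 ⊢
      rw [e]
      refine (norm_sub_le _ _).trans ?_
      linarith
    · show dist (z' - z + y2 x - y3 x') (w0' - w0) ≤ 6 * η
      have e : z' - z + y2 x - y3 x' - (w0' - w0) = (z' + y1 a - y3 x' - w0') - (z + y1 a - y2 x - w0) := by ring
      rw [dist_eq_norm] at w1 w2 ⊢
      rw [e]
      refine (norm_sub_le _ _).trans ?_
      linarith
  · intro z hz w hw
    exact tri hz hw
  · intro z hz w hw
    exact tri hz hw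

/-- the cell of `sup_cell` at one arc, from two channels -/
theorem cell_chan {b2 : Measure B} {b3 : Measure C} {v : Measure ℂ} [SFinite b2] [SFinite b3] [SFinite v]
    [v.IsAddLeftInvariant] {g1 : A → C(unitInterval, ℂ)} {g2 : B → C(unitInterval, ℂ)} {g3 : C → C(unitInterval, ℂ)}
    (m2 : Measurable g2) (m3 : Measurable g3) {y1 : A → ℂ} {y2 : B → ℂ} {y3 : C → ℂ} (n2 : Measurable y2) (n3 : Measurable y3)
    {z0 z0' w0 w0' : ℂ} {η : ℝ} {Z12 Z13 Z23 W12 W13 W23 : Set ℂ}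
    (hZ12 : Metric.closedBall z0 η ⊆ Z12) (hZ13 : Metric.closedBall z0' η ⊆ Z13)
    (hZ23 : Metric.closedBall (z0' - z0) (2 * η) ⊆ Z23) (hW12 : Metric.closedBall w0 (3 * η) ⊆ W12)
    (hW13 : Metric.closedBall w0' (3 * η) ⊆ W13) (hW23 : Metric.closedBall (w0' - w0) (6 * η) ⊆ W23) {a : A} {K K' : Set ℂ}
    (cK : IsClosed K) (cK' : IsClosed K') (d1 : ∀ s, ∀ k ∈ K, η < dist (g1 a s) k)
    (d2 : ∀ s, ∀ k ∈ K', η < dist (g1 a s) k) (d3 : ∀ k ∈ K, ∀ k' ∈ K', 2 * η < dist k k')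
    (l2 : v.restrict (Metric.closedBall (z0 + y1 a - w0) (2 * η)) ≪ (b2.restrict (Inn g2 z0 K)).map y2)
    (l3 : v.restrict (Metric.closedBall (z0' + y1 a - w0') (2 * η)) ≪ (b3.restrict (Inn g3 z0' K')).map y3)
    {N : Set (ℂ × ℂ × ℂ × ℂ)} (hN : MeasurableSet N)
    (h0 : (b2.prod (b3.prod (v.prod v))) (Cp (DD g1 g2 y1 y2 Z12 W12) (DD g1 g3 y1 y3 Z13 W13) (DD g2 g3 y2 y3 Z23 W23) a ∩
      cor y1 y2 y3 a ⁻¹' N) = 0) :
    (v.prod (v.prod (v.prod v))) (N ∩ (Metric.closedBall z0 η ×ˢ Metric.closedBall z0' η ×ˢ Metric.closedBall w0 η ×ˢ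
      Metric.closedBall w0' η)) = 0 := by
  have mT : ∀ c : ℂ, MeasurableSet (Metric.closedBall c (2 * η)) := fun c => Metric.isClosed_closedBall.measurableSet
  have mB : ∀ c : ℂ, MeasurableSet (Metric.closedBall c η) := fun c => Metric.isClosed_closedBall.measurableSet
  have tri : ∀ {z w y c d : ℂ}, dist z c ≤ η → dist w d ≤ η → dist (z + y - w) (c + y - d) ≤ 2 * η := by
    intro z w y c d h1 h2
    have e : z + y - w - (c + y - d) = (z - c) - (w - d) := by ring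
    rw [dist_eq_norm] at h1 h2 ⊢
    rw [e]
    refine (norm_sub_le _ _).trans ?_
    linarith
  refine sup_cell (a := a) (y1 := y1) (V := Inn g2 z0 K ∩ y2 ⁻¹' Metric.closedBall (z0 + y1 a - w0) (2 * η))
    (V' := Inn g3 z0' K' ∩ y3 ⁻¹' Metric.closedBall (z0' + y1 a - w0') (2 * η))
    (T := Metric.closedBall (z0 + y1 a - w0) (2 * η)) (T' := Metric.closedBall (z0' + y1 a - w0') (2 * η)) n2 n3
    ((inn_meas m2 z0 cK).inter (n2 (mT _))) ((inn_meas m3 z0' cK').inter (n3 (mT _))) (mB _) (mB _) (mB _) (mB _) (mT _) (mT _)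
    ?_ (fun z hz w hw => tri hz hw) (fun z hz w hw => tri hz hw) (ac_rst (inn_meas m2 z0 cK) n2 (mT _) l2)
    (ac_rst (inn_meas m3 z0' cK') n3 (mT _) l3) hN h0
  rintro x ⟨hx, tx⟩ x' ⟨hx', tx'⟩ z hz z' hz'
  have hz1 : dist z z0 ≤ η := hz
  have hz2 : dist z' z0' ≤ η := hz'
  have tx1 : dist (y2 x) (z0 + y1 a - w0) ≤ 2 * η := tx
  have tx2 : dist (y3 x') (z0' + y1 a - w0') ≤ 2 * η := tx'
  obtain ⟨g1', g2', g3'⟩ := sup_geo d1 d2 d3 hx hx' hz1 hz2
  have w1 : dist (z + y1 a - y2 x) w0 ≤ 3 * η := by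
    have e : z + y1 a - y2 x - w0 = (z - z0) - (y2 x - (z0 + y1 a - w0)) := by ring
    rw [dist_eq_norm] at hz1 tx1 ⊢
    rw [e]
    refine (norm_sub_le _ _).trans ?_
    linarith
  have w2 : dist (z' + y1 a - y3 x') w0' ≤ 3 * η := by
    have e : z' + y1 a - y3 x' - w0' = (z' - z0') - (y3 x' - (z0' + y1 a - w0')) := by ring
    rw [dist_eq_norm] at hz2 tx2 ⊢
    rw [e]
    refine (norm_sub_le _ _).trans ?_
    linarith
  refine ⟨⟨g1', hZ12 hz1, hW12 w1⟩, ⟨g2', hZ13 hz2, hW13 w2⟩, ⟨g3', hZ23 ?_, hW23 ?_⟩⟩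
  · show dist (z' - z) (z0' - z0) ≤ 2 * η
    have e : z' - z - (z0' - z0) = (z' - z0') - (z - z0) := by ring
    rw [dist_eq_norm] at hz1 hz2 ⊢
    rw [e]
    refine (norm_sub_le _ _).trans ?_
    linarith
  · show dist (z' - z + y2 x - y3 x') (w0' - w0) ≤ 6 * η
    have e : z' - z + y2 x - y3 x' - (w0' - w0) = (z' + y1 a - y3 x' - w0') - (z + y1 a - y2 x - w0) := by ring
    rw [dist_eq_norm] at w1 w2 ⊢
    rw [e]
    refine (norm_sub_le _ _).trans ?_
    linarith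

/-- **the support hypothesis, local form**: the clearance `η` and the channels depend on the arc and on the positions of the ends;
`m0` = the margin of the cells -/
theorem sup_loc {b1 : Measure A} {b2 : Measure B} {b3 : Measure C} {v : Measure ℂ} [SFinite b2] [SFinite b3] [SFinite v]
    [v.IsAddLeftInvariant] {g1 : A → C(unitInterval, ℂ)} {g2 : B → C(unitInterval, ℂ)} {g3 : C → C(unitInterval, ℂ)}
    (m2 : Measurable g2) (m3 : Measurable g3) {y1 : A → ℂ} {y2 : B → ℂ} {y3 : C → ℂ} (n2 : Measurable y2) (n3 : Measurable y3)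
    {Z Z' W W' Z12 Z13 Z23 W12 W13 W23 : Set ℂ} {m0 : ℝ} (hm : 0 < m0)
    (hZ12 : ∀ z ∈ Z, Metric.closedBall z m0 ⊆ Z12) (hZ13 : ∀ z ∈ Z', Metric.closedBall z m0 ⊆ Z13)
    (hZ23 : ∀ z ∈ Z, ∀ z' ∈ Z', Metric.closedBall (z' - z) m0 ⊆ Z23) (hW12 : ∀ w ∈ W, Metric.closedBall w m0 ⊆ W12)
    (hW13 : ∀ w ∈ W', Metric.closedBall w m0 ⊆ W13) (hW23 : ∀ w ∈ W, ∀ w' ∈ W', Metric.closedBall (w' - w) m0 ⊆ W23)
    (h : ∀ᵐ a ∂b1, ∀ z ∈ Z, ∀ z' ∈ Z', ∀ w ∈ W, ∀ w' ∈ W', ∃ η : ℝ, 0 < η ∧ ∃ K K' : Set ℂ, IsClosed K ∧ IsClosed K' ∧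
      (∀ s, ∀ k ∈ K, η < dist (g1 a s) k) ∧ (∀ s, ∀ k ∈ K', η < dist (g1 a s) k) ∧ (∀ k ∈ K, ∀ k' ∈ K', 2 * η < dist k k') ∧
      v.restrict (Metric.closedBall (z + y1 a - w) (2 * η)) ≪ (b2.restrict (Inn g2 z K)).map y2 ∧
      v.restrict (Metric.closedBall (z' + y1 a - w') (2 * η)) ≪ (b3.restrict (Inn g3 z' K')).map y3) :
    Sup b1 b2 b3 v (DD g1 g2 y1 y2 Z12 W12) (DD g1 g3 y1 y3 Z13 W13) (DD g2 g3 y2 y3 Z23 W23) y1 y2 y3
      (Z ×ˢ Z' ×ˢ W ×ˢ W') := by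
  filter_upwards [h] with a ha N hN h0
  obtain ⟨O, hO⟩ : ∃ O : Set (ℂ × ℂ × ℂ × ℂ), O = Z ×ˢ Z' ×ˢ W ×ˢ W' := ⟨_, rfl⟩
  have key : ∀ o : O, ∃ η : ℝ, 0 < η ∧ (v.prod (v.prod (v.prod v))) (N ∩ (Metric.closedBall o.1.1 η ×ˢ Metric.closedBall o.1.2.1 η ×ˢ
      Metric.closedBall o.1.2.2.1 η ×ˢ Metric.closedBall o.1.2.2.2 η)) = 0 := by
    rintro ⟨⟨z, z', w, w'⟩, ho⟩
    rw [hO] at ho
    obtain ⟨hz, hz', hw, hw'⟩ := ho
    obtain ⟨η0, hη0, K, K', cK, cK', d1, d2, d3, l2, l3⟩ := ha z hz z' hz' w hw w' hw'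
    obtain ⟨η, hη, hηη, hηm⟩ : ∃ η : ℝ, 0 < η ∧ η ≤ η0 ∧ 6 * η ≤ m0 :=
      ⟨min η0 (m0 / 6), lt_min hη0 (by linarith), min_le_left _ _, by
        have := min_le_right η0 (m0 / 6)
        linarith⟩
    have hb : ∀ (c : ℂ) {r s : ℝ} {X : Set ℂ}, r ≤ s → Metric.closedBall c s ⊆ X → Metric.closedBall c r ⊆ X :=
      fun c r s X h1 h2 => (Metric.closedBall_subset_closedBall h1).trans h2
    have hl : ∀ (c : ℂ), v.restrict (Metric.closedBall c (2 * η)) ≪ v.restrict (Metric.closedBall c (2 * η0)) := fun c =>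
      Measure.absolutelyContinuous_of_le (Measure.restrict_mono_set v (Metric.closedBall_subset_closedBall (by linarith)))
    exact ⟨η, hη, cell_chan (a := a) m2 m3 n2 n3 (hb z (by linarith) (hZ12 z hz)) (hb z' (by linarith) (hZ13 z' hz'))
      (hb (z' - z) (by linarith) (hZ23 z hz z' hz')) (hb w (by linarith) (hW12 w hw)) (hb w' (by linarith) (hW13 w' hw'))
      (hb (w' - w) hηm (hW23 w hw w' hw')) cK cK' (fun s k hk => lt_of_le_of_lt hηη (d1 s k hk))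
      (fun s k hk => lt_of_le_of_lt hηη (d2 s k hk)) (fun k hk k' hk' => lt_of_le_of_lt (by linarith) (d3 k hk k' hk'))
      ((hl _).trans l2) ((hl _).trans l3) hN h0⟩
  choose η hη hnull using key
  obtain ⟨S, hS, hSU⟩ := TopologicalSpace.isOpen_iUnion_countable
    (fun o : O => (Metric.ball o.1.1 (η o) ×ˢ Metric.ball o.1.2.1 (η o) ×ˢ Metric.ball o.1.2.2.1 (η o) ×ˢ
      Metric.ball o.1.2.2.2 (η o) : Set (ℂ × ℂ × ℂ × ℂ)))
    (fun o => Metric.isOpen_ball.prod (Metric.isOpen_ball.prod (Metric.isOpen_ball.prod Metric.isOpen_ball)))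
  have e1 : N ∩ (Z ×ˢ Z' ×ˢ W ×ˢ W') ⊆ ⋃ o ∈ S, N ∩ (Metric.closedBall o.1.1 (η o) ×ˢ Metric.closedBall o.1.2.1 (η o) ×ˢ
      Metric.closedBall o.1.2.2.1 (η o) ×ˢ Metric.closedBall o.1.2.2.2 (η o) : Set (ℂ × ℂ × ℂ × ℂ)) := by
    rintro o ⟨hoN, hoO⟩
    rw [← hO] at hoO
    have h1 : o ∈ ⋃ o : O, (Metric.ball o.1.1 (η o) ×ˢ Metric.ball o.1.2.1 (η o) ×ˢ Metric.ball o.1.2.2.1 (η o) ×ˢ
        Metric.ball o.1.2.2.2 (η o) : Set (ℂ × ℂ × ℂ × ℂ)) :=
      mem_iUnion.2 ⟨⟨o, hoO⟩, Metric.mem_ball_self (hη _), Metric.mem_ball_self (hη _), Metric.mem_ball_self (hη _),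
        Metric.mem_ball_self (hη _)⟩
    rw [← hSU] at h1
    obtain ⟨o', ho'S, h2⟩ := mem_iUnion₂.1 h1
    exact mem_iUnion₂.2 ⟨o', ho'S, hoN, Metric.ball_subset_closedBall h2.1, Metric.ball_subset_closedBall h2.2.1,
      Metric.ball_subset_closedBall h2.2.2.1, Metric.ball_subset_closedBall h2.2.2.2⟩
  exact measure_mono_null e1 ((measure_biUnion_null_iff hS).2 fun o _ => hnull o)

end Pool.Agent.ROT.F3
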