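import Pool.Agent.ROT.F3LimE
import Pool.Agent.ROT.F3Sup

/-!
# F3, row L3: instances for the spaces of curves, and the open set `DD` (helper15)

* instances `StandardBorelSpace`, `SecondCountableTopology` for `C([0, 1], ℂ)` (so that products of pieces are found);
* `dd_open` : `DD` is open;
* **`mar_sep`** : test functions with a margin in `DD`: the arcs are `δ` apart, the positions are `δ` inside of the cells.
-/

set_option autoImplicit false

namespace Pool.Agent.ROT.F3

open MeasureTheory Set Topology TopologicalSpace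

instance instStandardBorelCurves : StandardBorelSpace C(unitInterval, ℂ) := inferInstance

instance instSecondCountableCurves : SecondCountableTopology C(unitInterval, ℂ) := inferInstance

section dd

variable {A B : Type*} [TopologicalSpace A] [TopologicalSpace B]

/-- `DD` is open -/
theorem dd_open {g1 : A → C(unitInterval, ℂ)} {g2 : B → C(unitInterval, ℂ)} (h1 : Continuous g1) (h2 : Continuous g2)
    {y1 : A → ℂ} {y2 : B → ℂ} (m1 : Continuous y1) (m2 : Continuous y2) {Z W : Set ℂ} (hZ : IsOpen Z)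
    (hW : IsOpen W) : IsOpen (DD g1 g2 y1 y2 Z W) := by
  have e : Dsj g1 g2 = ((fun p : A × B × ℂ => (g1 p.1, g2 p.2.1, p.2.2)) ⁻¹'
      {p : C(unitInterval, ℂ) × C(unitInterval, ℂ) × ℂ | ∃ s t : unitInterval, p.1 s = p.2.1 t + p.2.2})ᶜ := by
    ext p
    simp only [Dsj, mem_ofPred_eq, mem_compl_iff, mem_preimage, not_exists, ne_eq]
  have hc : Continuous fun p : A × B × ℂ => (g1 p.1, g2 p.2.1, p.2.2) := by fun_prop
  refine IsOpen.inter ?_ ?_
  · rw [e]
    exact (touch_closed.preimage hc).isOpen_compl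
  · have e1 : Continuous fun p : A × B × ℂ => p.2.2 := by fun_prop
    have e2 : Continuous fun p : A × B × ℂ => p.2.2 + y1 p.1 - y2 p.2.1 := by fun_prop
    exact (hZ.preimage e1).inter (hW.preimage e2)

end dd

section mar

variable {A B : Type*} [PseudoMetricSpace A] [PseudoMetricSpace B]

/-- **the margin of the test functions in `DD`** -/
theorem mar_sep {g1 : A → C(unitInterval, ℂ)} {g2 : B → C(unitInterval, ℂ)} {y1 : A → ℂ} {y2 : B → ℂ} {Z W : Set ℂ}
    {u : A → ℝ} {v : B → ℝ} {w : ℂ → ℝ} (h : Mar (DD g1 g2 y1 y2 Z W) u v w) :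
    ∃ δ : ℝ, 0 < δ ∧ ∀ a b z, u a ≠ 0 → v b ≠ 0 → w z ≠ 0 →
      (∀ s t : unitInterval, δ ≤ ‖g1 a s - (g2 b t + z)‖) ∧ (∀ z' : ℂ, ‖z' - z‖ < δ → z' ∈ Z) ∧
        ∀ z' : ℂ, ‖z' - (z + y1 a - y2 b)‖ < δ → z' ∈ W := by
  obtain ⟨δ, hδ, hm⟩ := h
  have key : ∀ a b z, u a ≠ 0 → v b ≠ 0 → w z ≠ 0 → ∀ z' : ℂ, ‖z' - z‖ < δ → (a, (b, z')) ∈ DD g1 g2 y1 y2 Z W := by
    intro a b z ha hb hz z' hz'
    refine hm a b z ha hb hz (a, (b, z')) ?_
    rw [Prod.dist_eq, dist_self, Prod.dist_eq, dist_self, dist_comm, dist_eq_norm]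
    exact max_lt hδ (max_lt hδ hz')
  refine ⟨δ, hδ, fun a b z ha hb hz => ⟨fun s t => ?_, fun z' hz' => (key a b z ha hb hz z' hz').2.1, fun z' hz' => ?_⟩⟩
  · by_contra hn
    rw [not_le] at hn
    have h1 := (key a b z ha hb hz (g1 a s - g2 b t) (by
      rw [show g1 a s - g2 b t - z = g1 a s - (g2 b t + z) by ring]
      exact hn)).1 s t
    exact h1 (by
      show g1 a s = g2 b t + (g1 a s - g2 b t)
      ring)
  · have h1 := (key a b z ha hb hz (z' - y1 a + y2 b) (by
      rw [show z' - y1 a + y2 b - z = z' - (z + y1 a - y2 b) by ring]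
      exact hz')).2.2
    have h2 : z' - y1 a + y2 b + y1 a - y2 b = z' := by ring
    have h3 : z' - y1 a + y2 b + y1 a - y2 b ∈ W := h1
    rwa [h2] at h3

end mar

end Pool.Agent.ROT.F3
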