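import Pool.Agent.ROT.F3Ex

/-!
# ROT / F3Cut (helper82): sums over words with marks = sums over the pieces; `exP` in the form with marks

`seg w a b` = the letters number `a, .., b - 1`. `tsum_cut6` : all words with five marks `k1 <= k2 <= m <= k3 <= k4`.
-/

set_option autoImplicit false

namespace Pool.Agent.ROT.F3

open Finset
open scoped ENNReal Classical

/-- the letters number `a, .., b - 1` -/
def seg (w : W3) (a b : ℕ) : W3 := (w.drop a).take (b - a)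

lemma tsum_ge (a : ℕ) (g : ℕ → ℝ≥0∞) : ∑' k, (if a ≤ k then g k else 0) = ∑' l, g (a + l) := by
  rw [← (add_right_injective a).tsum_eq (f := fun k => if a ≤ k then g k else 0)]
  · refine tsum_congr fun l => ?_
    show (if a ≤ a + l then g (a + l) else 0) = _
    rw [if_pos (Nat.le_add_right a l)]
  · intro k hk
    have : a ≤ k := by
      by_contra h
      exact hk (if_neg h)
    exact ⟨k - a, by show a + (k - a) = k; omega⟩

lemma tsum_cutA (Φ : W3 → W3 → ℝ≥0∞) :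
    ∑' w : W3, ∑' k : ℕ, (if k ≤ w.length then Φ (w.take k) (w.drop k) else 0) = ∑' (u : W3) (v : W3), Φ u v := by
  have h := tsum_cut fun w k => Φ (w.take k) (w.drop k)
  have h2 : ∀ u v : W3, Φ ((u ++ v).take u.length) ((u ++ v).drop u.length) = Φ u v := fun u v => by
    rw [List.take_left, List.drop_left]
  simp only [h2] at h
  rw [← h]
  refine tsum_congr fun w => ?_
  rw [tsum_eq_sum (s := range (w.length + 1)) (fun k hk => if_neg (by simp at hk; omega))]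
  exact sum_congr rfl fun k hk => if_pos (by have := mem_range.1 hk; omega)

/-- one more mark: from the rest to the word -/
lemma tsum_step (w : W3) (k : ℕ) (hk : k ≤ w.length) (Ψ : W3 → W3 → ℝ≥0∞) :
    ∑' l : ℕ, (if l ≤ (w.drop k).length then Ψ ((w.drop k).take l) ((w.drop k).drop l) else 0) =
      ∑' l : ℕ, (if k ≤ l ∧ l ≤ w.length then Ψ (seg w k l) (w.drop l) else 0) := by
  have h := tsum_ge k fun l => if l ≤ w.length then Ψ (seg w k l) (w.drop l) else 0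
  have h2 : ∀ l : ℕ, (if k ≤ l ∧ l ≤ w.length then Ψ (seg w k l) (w.drop l) else 0) =
      if k ≤ l then (if l ≤ w.length then Ψ (seg w k l) (w.drop l) else 0) else 0 := fun l => by
    by_cases h1 : k ≤ l <;> by_cases h3 : l ≤ w.length <;> simp [h1, h3]
  simp_rw [h2]
  rw [h]
  refine tsum_congr fun l => ?_
  unfold seg
  rw [List.length_drop, List.drop_drop, Nat.add_sub_cancel_left]
  by_cases h1 : l ≤ w.length - k
  · rw [if_pos h1, if_pos (by omega)]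
  · rw [if_neg h1, if_neg (by omega)]

lemma tsum_cut3' (Φ : W3 → W3 → W3 → ℝ≥0∞) :
    ∑' w : W3, ∑' k1 : ℕ, ∑' k2 : ℕ, (if k1 ≤ k2 ∧ k2 ≤ w.length then Φ (seg w 0 k1) (seg w k1 k2) (w.drop k2) else 0) =
      ∑' (u1 : W3) (u2 : W3) (u3 : W3), Φ u1 u2 u3 := by
  have h : ∀ u1 : W3, ∑' (u2 : W3) (u3 : W3), Φ u1 u2 u3 =
      ∑' w : W3, ∑' k : ℕ, (if k ≤ w.length then Φ u1 (w.take k) (w.drop k) else 0) := fun u1 => (tsum_cutA (Φ u1)).symm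
  simp_rw [h]
  rw [← tsum_cutA fun u1 w => ∑' k : ℕ, (if k ≤ w.length then Φ u1 (w.take k) (w.drop k) else 0)]
  refine tsum_congr fun w => tsum_congr fun k1 => ?_
  by_cases h1 : k1 ≤ w.length
  · rw [if_pos h1, tsum_step w k1 h1 fun u v => Φ (w.take k1) u v]
    rfl
  · rw [if_neg h1]
    rw [ENNReal.tsum_eq_zero]
    intro k2
    rw [if_neg (by omega)]

/-- the sum over the first cut of a word -/
noncomputable def Qs (Ψ : W3 → W3 → ℝ≥0∞) (v : W3) : ℝ≥0∞ := ∑' l : ℕ, (if l ≤ v.length then Ψ (v.take l) (v.drop l) else 0)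

lemma tsum_Qs (Ψ : W3 → W3 → ℝ≥0∞) : ∑' v, Qs Ψ v = ∑' (u : W3) (v : W3), Ψ u v := tsum_cutA Ψ

lemma Qs_drop (w : W3) (k : ℕ) (h : k ≤ w.length) (Ψ : W3 → W3 → ℝ≥0∞) :
    Qs Ψ (w.drop k) = ∑' l : ℕ, (if k ≤ l ∧ l ≤ w.length then Ψ (seg w k l) (w.drop l) else 0) := tsum_step w k h Ψ

/-- **six pieces** -/
theorem tsum_cut6 (Φ : W3 → W3 → W3 → W3 → W3 → W3 → ℝ≥0∞) :
    ∑' w : W3, ∑' k1 : ℕ, ∑' k2 : ℕ, ∑' m : ℕ, ∑' k3 : ℕ, ∑' k4 : ℕ,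
      (if k1 ≤ k2 ∧ k2 ≤ m ∧ m ≤ k3 ∧ k3 ≤ k4 ∧ k4 ≤ w.length then
        Φ (seg w 0 k1) (seg w k1 k2) (seg w k2 m) (seg w m k3) (seg w k3 k4) (w.drop k4) else 0) =
      ∑' (u1 : W3) (u2 : W3) (u3 : W3) (u4 : W3) (u5 : W3) (u6 : W3), Φ u1 u2 u3 u4 u5 u6 := by
  have hR : ∑' (u1 : W3) (u2 : W3) (u3 : W3) (u4 : W3) (u5 : W3) (u6 : W3), Φ u1 u2 u3 u4 u5 u6 =
      ∑' w, Qs (fun u1 => Qs fun u2 => Qs fun u3 => Qs fun u4 => Qs fun u5 u6 => Φ u1 u2 u3 u4 u5 u6) w := by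
    rw [tsum_Qs]
    refine tsum_congr fun u1 => ?_
    rw [tsum_Qs]
    refine tsum_congr fun u2 => ?_
    rw [tsum_Qs]
    refine tsum_congr fun u3 => ?_
    rw [tsum_Qs]
    refine tsum_congr fun u4 => ?_
    rw [tsum_Qs]
  rw [hR]
  refine tsum_congr fun w => ?_
  have h0 := Qs_drop w 0 (Nat.zero_le _) (fun u1 => Qs fun u2 => Qs fun u3 => Qs fun u4 => Qs fun u5 u6 => Φ u1 u2 u3 u4 u5 u6)
  rw [List.drop_zero] at h0
  rw [h0]
  refine tsum_congr fun k1 => ?_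
  by_cases h1 : k1 ≤ w.length
  swap
  · rw [if_neg (by omega)]
    simp only [ENNReal.tsum_eq_zero]
    intro k2 m k3 k4
    rw [if_neg (by omega)]
  rw [if_pos ⟨Nat.zero_le _, h1⟩, Qs_drop w k1 h1]
  refine tsum_congr fun k2 => ?_
  by_cases h2 : k1 ≤ k2 ∧ k2 ≤ w.length
  swap
  · rw [if_neg h2]
    simp only [ENNReal.tsum_eq_zero]
    intro m k3 k4
    rw [if_neg (by omega)]
  rw [if_pos h2, Qs_drop w k2 h2.2]
  refine tsum_congr fun m => ?_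
  by_cases h3 : k2 ≤ m ∧ m ≤ w.length
  swap
  · rw [if_neg h3]
    simp only [ENNReal.tsum_eq_zero]
    intro k3 k4
    rw [if_neg (by omega)]
  rw [if_pos h3, Qs_drop w m h3.2]
  refine tsum_congr fun k3 => ?_
  by_cases h4 : m ≤ k3 ∧ k3 ≤ w.length
  swap
  · rw [if_neg h4]
    simp only [ENNReal.tsum_eq_zero]
    intro k4
    rw [if_neg (by omega)]
  rw [if_pos h4, Qs_drop w k3 h4.2]
  refine tsum_congr fun k4 => ?_
  by_cases h5 : k3 ≤ k4 ∧ k4 ≤ w.length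
  · rw [if_pos h5, if_pos ⟨h2.1, h3.1, h4.1, h5⟩]
  · rw [if_neg h5, if_neg (by omega)]

/-! ### pieces of a word -/

lemma seg_append (w : W3) {a b : ℕ} (hab : a ≤ b) : seg w a b ++ w.drop b = w.drop a := by
  unfold seg
  rw [show w.drop b = (w.drop a).drop (b - a) by rw [List.drop_drop]; congr 1; omega, List.take_append_drop]

/-- **(P) with marks**: `w` a closed word, roots `0` and `m`, arcs `seg w k1 k2` and `(seg w k3 k4).reverse` -/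
theorem exPm {C C' : Set (W3 × W3)} {RA RB : Set W3} (H : Hyp C C' RA RB) (e e' : W3 × W3 → ℝ≥0∞) (F G : W3 → ℝ≥0∞) :
    ∑' w : W3, ∑' k1 : ℕ, ∑' k2 : ℕ, ∑' m : ℕ, ∑' k3 : ℕ, ∑' k4 : ℕ,
      (if (k1 ≤ k2 ∧ k2 ≤ m ∧ m ≤ k3 ∧ k3 ≤ k4 ∧ k4 ≤ w.length) ∧ Cl w ∧ (seg w 0 k1, (w.drop k4).reverse) ∈ C ∧
          seg w k1 k2 ∈ RA ∧ ((seg w k2 m).reverse, seg w m k3) ∈ C' ∧ (seg w k3 k4).reverse ∈ RB then
        wx w * (e (seg w 0 k1, (w.drop k4).reverse) * e' ((seg w k2 m).reverse, seg w m k3) *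
          (F (seg w k1 k2) * G (seg w k3 k4).reverse)) else 0) =
    ∑' (R : W3) (S : W3), if R ∈ RA ∧ S ∈ RB then wx R * F R * (wx S * G S) *
      ∑' z : ℂ, (if Dj R S z then gam C e z * gam C' e' (z + en R - en S) else 0) else 0 := by
  rw [← exP H]
  have h := tsum_cut6 fun u1 u2 u3 u4 u5 u6 => if Cl (u1 ++ (u2 ++ (u3 ++ (u4 ++ (u5 ++ u6))))) ∧ (u1, u6.reverse) ∈ C ∧
    u2 ∈ RA ∧ (u3.reverse, u4) ∈ C' ∧ u5.reverse ∈ RB then wx (u1 ++ (u2 ++ (u3 ++ (u4 ++ (u5 ++ u6))))) *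
      (e (u1, u6.reverse) * e' (u3.reverse, u4) * (F u2 * G u5.reverse)) else 0
  have hL : ∀ (w : W3) (k1 k2 m k3 k4 : ℕ), (if (k1 ≤ k2 ∧ k2 ≤ m ∧ m ≤ k3 ∧ k3 ≤ k4 ∧ k4 ≤ w.length) ∧ Cl w ∧
      (seg w 0 k1, (w.drop k4).reverse) ∈ C ∧
          seg w k1 k2 ∈ RA ∧ ((seg w k2 m).reverse, seg w m k3) ∈ C' ∧ (seg w k3 k4).reverse ∈ RB then
        wx w * (e (seg w 0 k1, (w.drop k4).reverse) * e' ((seg w k2 m).reverse, seg w m k3) *
          (F (seg w k1 k2) * G (seg w k3 k4).reverse)) else 0) =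
      (if k1 ≤ k2 ∧ k2 ≤ m ∧ m ≤ k3 ∧ k3 ≤ k4 ∧ k4 ≤ w.length then
        (if Cl (seg w 0 k1 ++ (seg w k1 k2 ++ (seg w k2 m ++ (seg w m k3 ++ (seg w k3 k4 ++ w.drop k4))))) ∧
          (seg w 0 k1, (w.drop k4).reverse) ∈ C ∧
          seg w k1 k2 ∈ RA ∧ ((seg w k2 m).reverse, seg w m k3) ∈ C' ∧ (seg w k3 k4).reverse ∈ RB then
          wx (seg w 0 k1 ++ (seg w k1 k2 ++ (seg w k2 m ++ (seg w m k3 ++ (seg w k3 k4 ++ w.drop k4))))) *
          (e (seg w 0 k1, (w.drop k4).reverse) * e' ((seg w k2 m).reverse, seg w m k3) *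
          (F (seg w k1 k2) * G (seg w k3 k4).reverse)) else 0) else 0) := by
    intro w k1 k2 m k3 k4
    by_cases hk : k1 ≤ k2 ∧ k2 ≤ m ∧ m ≤ k3 ∧ k3 ≤ k4 ∧ k4 ≤ w.length
    · rw [if_pos hk, seg_append w hk.2.2.2.1, seg_append w hk.2.2.1, seg_append w hk.2.1, seg_append w hk.1,
        seg_append w (Nat.zero_le k1), List.drop_zero]
      by_cases hc : Cl w ∧ (seg w 0 k1, (w.drop k4).reverse) ∈ C ∧
          seg w k1 k2 ∈ RA ∧ ((seg w k2 m).reverse, seg w m k3) ∈ C' ∧ (seg w k3 k4).reverse ∈ RB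
      · rw [if_pos hc, if_pos ⟨hk, hc⟩]
      · rw [if_neg hc, if_neg fun h => hc h.2]
    · rw [if_neg hk, if_neg fun h => hk h.1]
  simp_rw [hL]
  rw [h]
  -- the six sums
  have e1 : ∀ f : W3 → ℝ≥0∞, ∑' u, f u = ∑' u : W3, f u.reverse := fun f => (rvE.tsum_eq f).symm
  have e2 : ∀ f : W3 → W3 → ℝ≥0∞, ∑' a : W3 × W3, f a.1 a.2 = ∑' (u : W3) (v : W3), f u v := fun f =>
    ENNReal.tsum_prod (f := f)
  have e3 : ∀ f : W3 × W3 → ℝ≥0∞, ∑' a : W3 × W3, f a = ∑' (u : W3) (v : W3), f (u, v) := fun f =>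
    ENNReal.tsum_prod (f := fun u v => f (u, v))
  rw [e3]
  refine tsum_congr fun u1 => ?_
  -- left: u2 u3 u4 u5 u6; right: a2 R b S
  have hl : ∀ f : W3 → W3 → W3 → W3 → W3 → ℝ≥0∞, ∑' (u2 : W3) (u3 : W3) (u4 : W3) (u5 : W3) (u6 : W3), f u2 u3 u4 u5 u6 =
      ∑' (u6 : W3) (u2 : W3) (u3 : W3) (u4 : W3) (u5 : W3), f u2 u3 u4 u5 u6 := by
    intro f
    have g5 : ∀ u2 u3 u4, ∑' (u5 : W3) (u6 : W3), f u2 u3 u4 u5 u6 = ∑' (u6 : W3) (u5 : W3), f u2 u3 u4 u5 u6 :=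
      fun u2 u3 u4 => ENNReal.tsum_comm
    simp_rw [g5]
    have g4 : ∀ u2 u3, ∑' (u4 : W3) (u6 : W3) (u5 : W3), f u2 u3 u4 u5 u6 = ∑' (u6 : W3) (u4 : W3) (u5 : W3), f u2 u3 u4 u5 u6 :=
      fun u2 u3 => ENNReal.tsum_comm
    simp_rw [g4]
    have g3 : ∀ u2, ∑' (u3 : W3) (u6 : W3) (u4 : W3) (u5 : W3), f u2 u3 u4 u5 u6 =
      ∑' (u6 : W3) (u3 : W3) (u4 : W3) (u5 : W3), f u2 u3 u4 u5 u6 := fun u2 => ENNReal.tsum_comm
    simp_rw [g3]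
    exact ENNReal.tsum_comm
  rw [hl, e1]
  refine tsum_congr fun v6 => tsum_congr fun R => ?_
  rw [e1, e3]
  refine tsum_congr fun v3 => tsum_congr fun v4 => ?_
  rw [e1]
  refine tsum_congr fun v5 => ?_
  simp only [List.reverse_reverse]
  have hG : G6 (u1, v6) R (v3, v4) v5 = u1 ++ (R ++ (v3.reverse ++ (v4 ++ (v5.reverse ++ v6.reverse)))) := rfl
  rw [hG]
  by_cases hc : Cl (u1 ++ (R ++ (v3.reverse ++ (v4 ++ (v5.reverse ++ v6.reverse))))) ∧ (u1, v6) ∈ C ∧ R ∈ RA ∧ (v3, v4) ∈ C' ∧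
      v5 ∈ RB
  · rw [if_pos hc, if_pos ⟨hc.2.1, hc.2.2.1, hc.2.2.2.1, hc.2.2.2.2, hc.1⟩]
  · rw [if_neg hc, if_neg fun h => hc ⟨h.2.2.2.2, h.1, h.2.1, h.2.2.1, h.2.2.2.1⟩]

end Pool.Agent.ROT.F3
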