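import Pool.Agent.ROT.F3Dic
import Pool.Agent.TSW.Sym

/-!
# ROT / F3Piece (helper88): the curve of a long piece of a walk is close to the curve of the walk

* `crv_drop` : the curve of the piece from the vertex `i` (even) to the vertex `j`;
* **`piece_close`** (literal of helper12), `piece_close_rot`, `T_close`.
-/

set_option autoImplicit false

namespace Pool.Agent.ROT.F3

open Finset
open Pool.Agent.TSW.Sym (Wf WK WK_eq Wf_shift cl)

/-- the curve as a function of the time -/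
lemma crv_Wf (w : W3) (n : ℕ) (d : ℝ) (t : unitInterval) : crv w n d t = Wf (ps w) (t * n) / d := by
  have ht : (t : ℝ) * n ≤ n := mul_le_of_le_one_left (Nat.cast_nonneg n) t.2.2
  rw [← WK_eq (ps w) ht]
  unfold WK crv
  show ps w 0 / d + ∑ i ∈ range n, ((max 0 (min 1 ((t : ℝ) * n - i)) : ℝ) : ℂ) * (ps w (i + 1) / d - ps w i / d) = _
  rw [ps_zero, zero_div, zero_add, sum_div]
  refine sum_congr rfl fun i _ => ?_
  unfold cl
  ring

lemma Wf_drop {w : W3} {i : ℕ} (hi : Even i) (hw : i ≤ w.length) {x : ℝ} (hx : 0 ≤ x) :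
    Wf (ps (w.drop i)) x = Wf (ps w) (i + x) - Wf (ps w) i := by
  rw [Wf_shift (ps w) i hx]
  refine Pool.Agent.TSW.Sym.Wf_congr (fun j => ?_) x
  rw [ps_append_drop w hw hi, ps_append_drop w hw hi]
  ring

/-- the curve of the piece from the vertex `i` to the vertex `j` -/
theorem crv_drop {w : W3} {i j n : ℕ} (hi : Even i) (hij : i ≤ j) (hjn : j ≤ n) (hw : n ≤ w.length) {d s : ℝ}
    (hd : 0 < d) (hs : 0 < s) (t a b : unitInterval) (ha : (a : ℝ) * n = i + t * ((j - i : ℕ) : ℝ)) (hb : (b : ℝ) * n = i) :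
    crv (w.drop i) (j - i) d t = ((s / d : ℝ) : ℂ) * (crv w n s a - crv w n s b) := by
  have ht : 0 ≤ (t : ℝ) * ((j - i : ℕ) : ℝ) := mul_nonneg t.2.1 (Nat.cast_nonneg _)
  rw [crv_Wf, crv_Wf, crv_Wf, Wf_drop hi (by omega) ht, ha, hb]
  have hd1 : (d : ℂ) ≠ 0 := by exact_mod_cast hd.ne'
  have hs1 : (s : ℂ) ≠ 0 := by exact_mod_cast hs.ne'
  push_cast
  field_simp

/-- **the curve of a long piece** -/
theorem piece_close {w : W3} {i j n : ℕ} (hi : Even i) (hij : i ≤ j) (hjn : j ≤ n) (hw : n ≤ w.length) {d s th om eta : ℝ}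
    (hd : 0 < d) (hs : 0 < s) (hth : 0 ≤ th) (h1 : (i : ℝ) ≤ th * n) (h2 : (n : ℝ) - j ≤ th * n) (hr : |s / d - 1| ≤ eta)
    (hom : ∀ a b : unitInterval, |(a : ℝ) - b| ≤ 2 * th → ‖crv w n s a - crv w n s b‖ ≤ om) :
    ‖crv (w.drop i) (j - i) d - crv w n s‖ ≤ eta * ‖crv w n s‖ + 2 * (1 + eta) * om := by
  have heta : 0 ≤ eta := (abs_nonneg _).trans hr
  have hom0 : 0 ≤ om := by
    refine (norm_nonneg _).trans (hom 0 0 ?_)
    rw [sub_self, abs_zero]
    linarith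
  refine (ContinuousMap.norm_le _ (by positivity)).2 fun t => ?_
  rw [ContinuousMap.sub_apply]
  rcases Nat.eq_zero_or_pos n with hn | hn
  · subst hn
    have hj : j = 0 := by omega
    subst hj
    have hi0 : i = 0 := by omega
    subst hi0
    have e1 : crv (w.drop 0) (0 - 0) d t = 0 := by
      rw [crv_Wf, Nat.sub_zero, Nat.cast_zero, mul_zero, Pool.Agent.TSW.Sym.Wf_zero, zero_div]
    have e2 : crv w 0 s t = 0 := by
      rw [crv_Wf, Nat.cast_zero, mul_zero, Pool.Agent.TSW.Sym.Wf_zero, zero_div]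
    rw [e1, e2, sub_self, norm_zero]
    positivity
  have hn0 : (0 : ℝ) < n := by exact_mod_cast hn
  have ht0 : (0 : ℝ) ≤ t := t.2.1
  have ht1 : (t : ℝ) ≤ 1 := t.2.2
  have hi0 : (0 : ℝ) ≤ i := Nat.cast_nonneg i
  have hjr : (j : ℝ) ≤ n := by exact_mod_cast hjn
  have hijr : (i : ℝ) ≤ j := by exact_mod_cast hij
  have hsub : ((j - i : ℕ) : ℝ) = j - i := by rw [Nat.cast_sub hij]
  have hm0 : 0 ≤ (t : ℝ) * ((j - i : ℕ) : ℝ) := mul_nonneg ht0 (Nat.cast_nonneg _)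
  have hm1 : (t : ℝ) * ((j - i : ℕ) : ℝ) ≤ j - i := by
    rw [hsub]
    exact mul_le_of_le_one_left (by linarith) ht1
  obtain ⟨a, ha⟩ : ∃ a : unitInterval, (a : ℝ) = (i + t * ((j - i : ℕ) : ℝ)) / n :=
    ⟨⟨(i + t * ((j - i : ℕ) : ℝ)) / n, by positivity, by rw [div_le_one hn0]; linarith⟩, rfl⟩
  obtain ⟨b, hb⟩ : ∃ b : unitInterval, (b : ℝ) = (i : ℝ) / n :=
    ⟨⟨(i : ℝ) / n, by positivity, by rw [div_le_one hn0]; linarith⟩, rfl⟩
  rw [crv_drop hi hij hjn hw hd hs t a b (by rw [ha, div_mul_cancel₀ _ hn0.ne']) (by rw [hb, div_mul_cancel₀ _ hn0.ne'])]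
  -- the three points
  have c1 : ‖crv w n s a - crv w n s t‖ ≤ om := by
    refine hom a t ?_
    have e : (a : ℝ) - t = (i * (1 - t) - t * (n - j)) / n := by
      rw [ha, hsub]
      field_simp
      ring
    have k1 : (i : ℝ) * (1 - t) ≤ th * n := (mul_le_of_le_one_right hi0 (by linarith)).trans h1
    have k2 : 0 ≤ (i : ℝ) * (1 - t) := mul_nonneg hi0 (by linarith)
    have k3 : (t : ℝ) * (n - j) ≤ th * n := (mul_le_of_le_one_left (by linarith) ht1).trans h2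
    have k4 : 0 ≤ (t : ℝ) * (n - j) := mul_nonneg ht0 (by linarith)
    rw [e, abs_div, abs_of_pos hn0, div_le_iff₀ hn0, abs_le]
    constructor <;> nlinarith
  have c2 : ‖crv w n s b‖ ≤ om := by
    have h3 := hom b 0 (by
      show |(b : ℝ) - ((0 : unitInterval) : ℝ)| ≤ 2 * th
      rw [Set.Icc.coe_zero, sub_zero, hb, abs_of_nonneg (by positivity), div_le_iff₀ hn0]
      nlinarith)
    rwa [crv_zero, sub_zero] at h3
  have c3 : ‖crv w n s a‖ ≤ ‖crv w n s‖ := (crv w n s).norm_coe_le_norm a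
  have e : ((s / d : ℝ) : ℂ) * (crv w n s a - crv w n s b) - crv w n s t =
      (((s / d - 1 : ℝ) : ℂ) * (crv w n s a - crv w n s b) + (crv w n s a - crv w n s t)) - crv w n s b := by
    push_cast
    ring
  rw [e]
  refine (norm_sub_le _ _).trans ((add_le_add (norm_add_le _ _) le_rfl).trans ?_)
  rw [norm_mul, Complex.norm_real, Real.norm_eq_abs]
  have c4 : ‖crv w n s a - crv w n s b‖ ≤ ‖crv w n s‖ + om := (norm_sub_le _ _).trans (add_le_add c3 c2)
  have c5 := mul_le_mul hr c4 (norm_nonneg _) heta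
  nlinarith

/-- the same with a rotation in front -/
theorem piece_close_rot {w : W3} {i j n : ℕ} (hi : Even i) (hij : i ≤ j) (hjn : j ≤ n) (hw : n ≤ w.length)
    {d s th om eta : ℝ} (hd : 0 < d) (hs : 0 < s) (hth : 0 ≤ th) (h1 : (i : ℝ) ≤ th * n) (h2 : (n : ℝ) - j ≤ th * n)
    (hr : |s / d - 1| ≤ eta) (hom : ∀ a b : unitInterval, |(a : ℝ) - b| ≤ 2 * th → ‖crv w n s a - crv w n s b‖ ≤ om)
    {z : ℂ} (hz : ‖z‖ = 1) :
    ‖z • crv (w.drop i) (j - i) d - z • crv w n s‖ ≤ eta * ‖crv w n s‖ + 2 * (1 + eta) * om := by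
  have e : z • crv (w.drop i) (j - i) d - z • crv w n s = z • (crv (w.drop i) (j - i) d - crv w n s) := (smul_sub _ _ _).symm
  rw [e, norm_smul, hz, one_mul]
  exact piece_close hi hij hjn hw hd hs hth h1 h2 hr hom

/-- the duration of the piece -/
theorem T_close {i j n : ℕ} (hij : i ≤ j) (hjn : j ≤ n) {th N0 : ℝ} (hN : 0 < N0) (h1 : (i : ℝ) ≤ th * n)
    (h2 : (n : ℝ) - j ≤ th * n) : |((j - i : ℕ) : ℝ) / N0 - n / N0| ≤ 2 * th * n / N0 := by
  have hijr : (i : ℝ) ≤ j := by exact_mod_cast hij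
  have hjr : (j : ℝ) ≤ n := by exact_mod_cast hjn
  have hi0 : (0 : ℝ) ≤ i := Nat.cast_nonneg i
  rw [← sub_div, abs_div, abs_of_pos hN, Nat.cast_sub hij]
  refine div_le_div_of_nonneg_right ?_ hN.le
  rw [abs_le]
  constructor <;> linarith

end Pool.Agent.ROT.F3
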