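import Pool.Agent.ROT.F3CoreA
import Pool.Agent.ROT.F3Piece
import Pool.Agent.ROT.F3Cut

/-!
# ROT, F3, row Core, part (C1) (helper42): the pieces of a curve between marks

* `ex g x` : the curve at the time `x` (constant outside of `[0, 1]`); `cutp g s t` : the piece from the time `s` to the time `t`, from 0
  (backwards for `t < s`); `Pie` = (curve, duration), `pcut p s t` : the piece; all jointly continuous; `pcut_pcut` : piece of a piece;
* `dsp` : displacement; `tau t t'` : a rest with the marks `t r`, `t' r` -> (pieces next to the two ends, arc); `clsC`, **`clsC_ok`**;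
* closed curves with two roots `Gm` = (length, second root, closed curve) and four marks: `rst` = (rest A, (rest B, relative position)),
  `kap` = the connections at the two roots, `fK` = pieces of the connections between their marks and their ends;
* **`tht_marks`** : cut of the rests at the foreign marks = cut of the closed curve at the foreign marks;
* words: **`wp_seg`**, `wp_rev` : the pieces of the curve of a word between even vertices are the curves of the segments.
-/

set_option autoImplicit false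

open MeasureTheory Topology Set

open scoped ENNReal

namespace Pool.Agent.ROT.F3.CC

open Pool.Agent.ROT.F3

/-! ### 1. pieces of curves -/

/-- the curve at the time `x` -/
noncomputable def ex (g : C(unitInterval, ℂ)) (x : ℝ) : ℂ := g (projIcc 0 1 zero_le_one x)

lemma ex_of (g : C(unitInterval, ℂ)) {x : ℝ} (h : x ∈ Icc (0 : ℝ) 1) : ex g x = g ⟨x, h⟩ := by
  unfold ex
  rw [projIcc_of_mem zero_le_one h]

lemma ex_coe (g : C(unitInterval, ℂ)) (u : unitInterval) : ex g u = g u := ex_of g u.2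

@[simp] lemma ex_zero (g : C(unitInterval, ℂ)) : ex g 0 = g 0 := ex_of g ⟨le_rfl, zero_le_one⟩

@[simp] lemma ex_one (g : C(unitInterval, ℂ)) : ex g 1 = g 1 := ex_of g ⟨zero_le_one, le_rfl⟩

lemma ex_cont : Continuous fun p : C(unitInterval, ℂ) × ℝ => ex p.1 p.2 := by
  have h : Continuous fun p : C(unitInterval, ℂ) × ℝ => (p.1, projIcc (0 : ℝ) 1 zero_le_one p.2) :=
    continuous_fst.prodMk ((continuous_projIcc (h := zero_le_one)).comp continuous_snd)
  exact (continuous_eval (F := C(unitInterval, ℂ)) (X := unitInterval) (Y := ℂ)).comp h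

lemma ex_cont' {X : Type*} [TopologicalSpace X] {f : X → C(unitInterval, ℂ)} {x : X → ℝ} (hf : Continuous f)
    (hx : Continuous x) : Continuous fun p => ex (f p) (x p) := ex_cont.comp (hf.prodMk hx)

/-- the piece from the time `s` to the time `t`, starting at 0 -/
noncomputable def cutp (g : C(unitInterval, ℂ)) (s t : ℝ) : C(unitInterval, ℂ) :=
  ⟨fun u => ex g (s + u * (t - s)) - ex g s, by
    refine (ex_cont' continuous_const (by fun_prop)).sub continuous_const⟩

lemma cutp_apply (g : C(unitInterval, ℂ)) (s t : ℝ) (u : unitInterval) :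
    cutp g s t u = ex g (s + u * (t - s)) - ex g s := rfl

lemma cutp_cont : Continuous fun p : C(unitInterval, ℂ) × ℝ × ℝ => cutp p.1 p.2.1 p.2.2 := by
  refine ContinuousMap.continuous_of_continuous_uncurry _ ?_
  show Continuous fun q : (C(unitInterval, ℂ) × ℝ × ℝ) × unitInterval =>
    ex q.1.1 (q.1.2.1 + q.2 * (q.1.2.2 - q.1.2.1)) - ex q.1.1 q.1.2.1
  exact (ex_cont' (by fun_prop) (by fun_prop)).sub (ex_cont' (by fun_prop) (by fun_prop))

lemma cutp_zero (g : C(unitInterval, ℂ)) (s t : ℝ) : cutp g s t 0 = 0 := by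
  rw [cutp_apply, Icc.coe_zero, zero_mul, add_zero, sub_self]

lemma cutp_one (g : C(unitInterval, ℂ)) (s t : ℝ) : cutp g s t 1 = ex g t - ex g s := by
  rw [cutp_apply, Icc.coe_one, one_mul, add_sub_cancel]

/-- the convex combination is in the interval -/
lemma mid_mem {s t a : ℝ} (hs : s ∈ Icc (0 : ℝ) 1) (ht : t ∈ Icc (0 : ℝ) 1) (ha : a ∈ Icc (0 : ℝ) 1) :
    s + a * (t - s) ∈ Icc (0 : ℝ) 1 := by
  have h : s + a * (t - s) = (1 - a) * s + a * t := by ring
  rw [h]
  have h1 : 0 ≤ 1 - a := by linarith [ha.2]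
  constructor
  · have := mul_nonneg h1 hs.1
    have := mul_nonneg ha.1 ht.1
    linarith
  · have := mul_le_mul_of_nonneg_left hs.2 h1
    have := mul_le_mul_of_nonneg_left ht.2 ha.1
    linarith

lemma ex_cutp {g : C(unitInterval, ℂ)} {s t a : ℝ} (ha : a ∈ Icc (0 : ℝ) 1) :
    ex (cutp g s t) a = ex g (s + a * (t - s)) - ex g s := by
  rw [ex_of _ ha, cutp_apply]

lemma cutp_cutp {g : C(unitInterval, ℂ)} {s t a b : ℝ} (ha : a ∈ Icc (0 : ℝ) 1) (hb : b ∈ Icc (0 : ℝ) 1) :
    cutp (cutp g s t) a b = cutp g (s + a * (t - s)) (s + b * (t - s)) := by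
  ext u
  rw [cutp_apply, cutp_apply, ex_cutp ha, ex_cutp (mid_mem ha hb u.2)]
  have e : s + (a + u * (b - a)) * (t - s) = s + a * (t - s) + u * (s + b * (t - s) - (s + a * (t - s))) := by ring
  rw [e]
  ring

/-! ### 2. pieces with durations -/

/-- pieces: (curve, duration) -/
abbrev Pie : Type := C(unitInterval, ℂ) × ℝ

/-- the piece from the relative time `s` to the relative time `t` -/
noncomputable def pcut (p : Pie) (s t : ℝ) : Pie := (cutp p.1 s t, p.2 * |t - s|)

lemma pcut_cont : Continuous fun q : Pie × ℝ × ℝ => pcut q.1 q.2.1 q.2.2 := by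
  unfold pcut
  refine Continuous.prodMk ?_ (by fun_prop)
  exact cutp_cont.comp (by fun_prop : Continuous fun q : Pie × ℝ × ℝ => (q.1.1, q.2.1, q.2.2))

lemma pcut_meas {X : Type*} [MeasurableSpace X] {p : X → Pie} {s t : X → ℝ} (hp : Measurable p) (hs : Measurable s)
    (ht : Measurable t) : Measurable fun x => pcut (p x) (s x) (t x) :=
  pcut_cont.measurable.comp (hp.prodMk (hs.prodMk ht))

lemma pcut_cont' {X : Type*} [TopologicalSpace X] {p : X → Pie} {s t : X → ℝ} (hp : Continuous p) (hs : Continuous s)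
    (ht : Continuous t) : Continuous fun x => pcut (p x) (s x) (t x) := pcut_cont.comp (hp.prodMk (hs.prodMk ht))

/-- **piece of a piece** -/
theorem pcut_pcut {p : Pie} {s t a b : ℝ} (ha : a ∈ Icc (0 : ℝ) 1) (hb : b ∈ Icc (0 : ℝ) 1) :
    pcut (pcut p s t) a b = pcut p (s + a * (t - s)) (s + b * (t - s)) := by
  unfold pcut
  rw [cutp_cutp ha hb]
  refine Prod.ext rfl ?_
  show p.2 * |t - s| * |b - a| = p.2 * |s + b * (t - s) - (s + a * (t - s))|
  rw [show s + b * (t - s) - (s + a * (t - s)) = (t - s) * (b - a) by ring, abs_mul]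
  ring

/-- the displacement -/
noncomputable def dsp (p : Pie) : ℂ := p.1 1 - p.1 0

lemma dsp_cont : Continuous dsp := by
  unfold dsp
  exact ((continuous_eval_const (1 : unitInterval)).comp continuous_fst).sub
    ((continuous_eval_const (0 : unitInterval)).comp continuous_fst)

lemma dsp_pcut (p : Pie) (s t : ℝ) : dsp (pcut p s t) = ex p.1 t - ex p.1 s := by
  show cutp p.1 s t 1 - cutp p.1 s t 0 = _
  rw [cutp_one, cutp_zero, sub_zero]

/-! ### 3. rests with two marks -/

/-- a rest with the marks `t r`, `t' r`: the piece up to the first mark, the piece behind the second mark (read from the other end), the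
arc between the marks -/
noncomputable def tau (t t' : Pie → ℝ) (r : Pie) : (Pie × Pie) × Pie :=
  ((pcut r 0 (t r), pcut r 1 (t' r)), pcut r (t r) (t' r))

lemma tau_meas {t t' : Pie → ℝ} (h : Measurable t) (h' : Measurable t') : Measurable (tau t t') := by
  unfold tau
  exact ((pcut_meas measurable_id measurable_const h).prodMk (pcut_meas measurable_id measurable_const h')).prodMk
    (pcut_meas measurable_id h h')

/-- minus the displacement of the piece at the start -/
noncomputable def sK (k : Pie × Pie) : ℂ := -dsp k.1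

/-- minus the displacement of the piece at the end -/
noncomputable def eK (k : Pie × Pie) : ℂ := dsp k.2

/-- minus the displacement -/
noncomputable def yP (r : Pie) : ℂ := -dsp r

/-- the class of the rests in `C` with the marks `t`, `t'` -/
noncomputable def clsC (t t' : Pie → ℝ) (C : Set Pie) : Cls Pie (Pie × Pie) Pie := ⟨tau t t', sK, eK, C, yP, yP, Prod.fst⟩

theorem clsC_ok {t t' : Pie → ℝ} {C : Set Pie} (h : Measurable t) (h' : Measurable t') (hC : MeasurableSet C) :
    (clsC t t' C).Ok where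
  mτ := tau_meas h h'
  ms := (dsp_cont.measurable.comp measurable_fst).neg
  me := dsp_cont.measurable.comp measurable_snd
  mC := hC
  my := dsp_cont.measurable.neg
  mg := measurable_fst
  k := by
    intro r _
    show -dsp r = -dsp (pcut r 0 (t r)) + -dsp (pcut r (t r) (t' r)) + dsp (pcut r 1 (t' r))
    rw [dsp_pcut, dsp_pcut, dsp_pcut, ex_zero, ex_one]
    unfold dsp
    ring

/-! ### 4. closed curves with two roots and four marks -/

/-- closed curves with two roots: (length, second root, curve) -/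
abbrev Gm : Type := ℝ × ℝ × C(unitInterval, ℂ)

/-- the closed curve with its duration -/
noncomputable def cl (g : Gm) : Pie := (g.2.2, g.1)

/-- the relative time of the second root -/
noncomputable def mu (g : Gm) : ℝ := g.2.1 / g.1

/-- four marks -/
abbrev M4 : Type := ℝ × ℝ × ℝ × ℝ

/-- rest A (from the first root to the second root), rest B (read from the first root, backwards), start of B minus start of A -/
noncomputable def rst (g : Gm) (T : M4) : Pie × (Pie × ℂ) :=
  (pcut (cl g) T.1 T.2.1, (pcut (cl g) T.2.2.2 T.2.2.1, ex g.2.2 T.2.2.2 - ex g.2.2 T.1))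

/-- the connections at the first root and at the second root: the two strands, read from the root -/
noncomputable def kap (g : Gm) (T : M4) : (Pie × Pie) × (Pie × Pie) :=
  ((pcut (cl g) 0 T.1, pcut (cl g) 1 T.2.2.2), (pcut (cl g) (mu g) T.2.1, pcut (cl g) (mu g) T.2.2.1))

lemma cl_cont : Continuous cl := by
  unfold cl
  fun_prop

lemma mu_meas : Measurable mu := by
  unfold mu
  fun_prop

lemma rst_cont : Continuous fun q : Gm × M4 => rst q.1 q.2 := by
  unfold rst
  refine Continuous.prodMk ?_ (Continuous.prodMk ?_ ?_)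
  · exact pcut_cont' (cl_cont.comp continuous_fst) (by fun_prop) (by fun_prop)
  · exact pcut_cont' (cl_cont.comp continuous_fst) (by fun_prop) (by fun_prop)
  · exact (ex_cont' (by fun_prop) (by fun_prop)).sub (ex_cont' (by fun_prop) (by fun_prop))

lemma kap_meas : Measurable fun q : Gm × M4 => kap q.1 q.2 := by
  have h1 : Measurable fun q : Gm × M4 => cl q.1 := cl_cont.measurable.comp measurable_fst
  have h2 : Measurable fun q : Gm × M4 => mu q.1 := mu_meas.comp measurable_fst
  unfold kap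
  refine Measurable.prodMk (Measurable.prodMk ?_ ?_) (Measurable.prodMk ?_ ?_)
  · exact pcut_meas h1 measurable_const (by fun_prop)
  · exact pcut_meas h1 measurable_const (by fun_prop)
  · exact pcut_meas h1 h2 (by fun_prop)
  · exact pcut_meas h1 h2 (by fun_prop)

/-- away from curves of length zero the connections are continuous -/
lemma kap_cont : ContinuousOn (fun q : Gm × M4 => kap q.1 q.2) {q | q.1.1 ≠ 0} := by
  have h2 : ContinuousOn (fun q : Gm × M4 => mu q.1) {q | q.1.1 ≠ 0} := by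
    unfold mu
    refine ContinuousOn.div (by fun_prop) (by fun_prop) fun q hq => hq
  have h1 : Continuous fun q : Gm × M4 => cl q.1 := cl_cont.comp continuous_fst
  have h3 : ∀ a b : Gm × M4 → ℝ, ContinuousOn a {q | q.1.1 ≠ 0} → ContinuousOn b {q | q.1.1 ≠ 0} →
      ContinuousOn (fun q => pcut (cl q.1) (a q) (b q)) {q | q.1.1 ≠ 0} := fun a b ha hb =>
    pcut_cont.comp_continuousOn (h1.continuousOn.prodMk (ha.prodMk hb))
  unfold kap
  refine ContinuousOn.prodMk (ContinuousOn.prodMk ?_ ?_) (ContinuousOn.prodMk ?_ ?_)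
  · exact h3 _ _ continuousOn_const (by fun_prop)
  · exact h3 _ _ continuousOn_const (by fun_prop)
  · exact h3 _ _ h2 (by fun_prop)
  · exact h3 _ _ h2 (by fun_prop)

/-- the pieces of the connections between the marks `c` (first root), `d` (second root) and their ends:
((piece of A at the first root, piece of A at the second root), (the same for B)) -/
noncomputable def fK (c d : Pie × Pie → ℝ × ℝ) (q : (Pie × Pie) × (Pie × Pie)) : (Pie × Pie) × (Pie × Pie) :=
  ((pcut q.1.1 (c q.1).1 1, pcut q.2.1 (d q.2).1 1), (pcut q.1.2 (c q.1).2 1, pcut q.2.2 (d q.2).2 1))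

lemma fK_meas {c d : Pie × Pie → ℝ × ℝ} (hc : Measurable c) (hd : Measurable d) : Measurable (fK c d) := by
  unfold fK
  refine Measurable.prodMk (Measurable.prodMk ?_ ?_) (Measurable.prodMk ?_ ?_)
  · exact pcut_meas (by fun_prop) (by fun_prop) measurable_const
  · exact pcut_meas (by fun_prop) (by fun_prop) measurable_const
  · exact pcut_meas (by fun_prop) (by fun_prop) measurable_const
  · exact pcut_meas (by fun_prop) (by fun_prop) measurable_const

/-- **the joint marks**: `T` = native marks, `S` = foreign marks on the same closed curve, `t`, `t'` (`u`, `u'`) = foreign marks of the rests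
as relative times, `c`, `d` = native marks of the foreign connections as relative times -/
theorem tht_marks {g : Gm} {T S : M4} {t t' u u' : Pie → ℝ} {c d : Pie × Pie → ℝ × ℝ}
    (a1 : t (rst g T).1 ∈ Icc (0 : ℝ) 1) (a2 : t' (rst g T).1 ∈ Icc (0 : ℝ) 1)
    (b1 : u (rst g T).2.1 ∈ Icc (0 : ℝ) 1) (b2 : u' (rst g T).2.1 ∈ Icc (0 : ℝ) 1)
    (c1 : (c (kap g S).1).1 ∈ Icc (0 : ℝ) 1) (c2 : (c (kap g S).1).2 ∈ Icc (0 : ℝ) 1)
    (d1 : (d (kap g S).2).1 ∈ Icc (0 : ℝ) 1) (d2 : (d (kap g S).2).2 ∈ Icc (0 : ℝ) 1)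
    (h1 : T.1 + t (rst g T).1 * (T.2.1 - T.1) = S.1) (h2 : T.1 + t' (rst g T).1 * (T.2.1 - T.1) = S.2.1)
    (h3 : T.2.2.2 + u (rst g T).2.1 * (T.2.2.1 - T.2.2.2) = S.2.2.2)
    (h4 : T.2.2.2 + u' (rst g T).2.1 * (T.2.2.1 - T.2.2.2) = S.2.2.1)
    (k1 : 0 + (c (kap g S).1).1 * (S.1 - 0) = T.1) (k2 : 1 + (c (kap g S).1).2 * (S.2.2.2 - 1) = T.2.2.2)
    (k3 : mu g + (d (kap g S).2).1 * (S.2.1 - mu g) = T.2.1) (k4 : mu g + (d (kap g S).2).2 * (S.2.2.1 - mu g) = T.2.2.1) :
    sh (tht (tau t t') (tau u u') sK sK (rst g T)) = (fK c d (kap g S), rst g S) := by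
  have i0 : (0 : ℝ) ∈ Icc (0 : ℝ) 1 := ⟨le_rfl, zero_le_one⟩
  have i1 : (1 : ℝ) ∈ Icc (0 : ℝ) 1 := ⟨zero_le_one, le_rfl⟩
  have r1 : (rst g T).1 = pcut (cl g) T.1 T.2.1 := rfl
  have r2 : (rst g T).2.1 = pcut (cl g) T.2.2.2 T.2.2.1 := rfl
  -- the pieces of the rests
  have A1 : pcut (rst g T).1 0 (t (rst g T).1) = pcut (cl g) T.1 S.1 := by
    conv_lhs => rw [r1]
    rw [pcut_pcut i0 (by rw [← r1]; exact a1), ← r1, h1, zero_mul, add_zero]
  have A2 : pcut (rst g T).1 1 (t' (rst g T).1) = pcut (cl g) T.2.1 S.2.1 := by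
    conv_lhs => rw [r1]
    rw [pcut_pcut i1 (by rw [← r1]; exact a2), ← r1, h2, one_mul, add_sub_cancel]
  have A3 : pcut (rst g T).1 (t (rst g T).1) (t' (rst g T).1) = pcut (cl g) S.1 S.2.1 := by
    conv_lhs => rw [r1]
    rw [pcut_pcut (by rw [← r1]; exact a1) (by rw [← r1]; exact a2), ← r1, h1, h2]
  have B1 : pcut (rst g T).2.1 0 (u (rst g T).2.1) = pcut (cl g) T.2.2.2 S.2.2.2 := by
    conv_lhs => rw [r2]
    rw [pcut_pcut i0 (by rw [← r2]; exact b1), ← r2, h3, zero_mul, add_zero]
  have B2 : pcut (rst g T).2.1 1 (u' (rst g T).2.1) = pcut (cl g) T.2.2.1 S.2.2.1 := by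
    conv_lhs => rw [r2]
    rw [pcut_pcut i1 (by rw [← r2]; exact b2), ← r2, h4, one_mul, add_sub_cancel]
  have B3 : pcut (rst g T).2.1 (u (rst g T).2.1) (u' (rst g T).2.1) = pcut (cl g) S.2.2.2 S.2.2.1 := by
    conv_lhs => rw [r2]
    rw [pcut_pcut (by rw [← r2]; exact b1) (by rw [← r2]; exact b2), ← r2, h3, h4]
  -- the pieces of the connections
  have C1 : pcut (kap g S).1.1 (c (kap g S).1).1 1 = pcut (cl g) T.1 S.1 := by
    show pcut (pcut (cl g) 0 S.1) (c (kap g S).1).1 1 = _
    rw [pcut_pcut c1 i1, k1, one_mul, sub_zero, zero_add]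
  have C2 : pcut (kap g S).1.2 (c (kap g S).1).2 1 = pcut (cl g) T.2.2.2 S.2.2.2 := by
    show pcut (pcut (cl g) 1 S.2.2.2) (c (kap g S).1).2 1 = _
    rw [pcut_pcut c2 i1, k2, one_mul, add_sub_cancel]
  have D1 : pcut (kap g S).2.1 (d (kap g S).2).1 1 = pcut (cl g) T.2.1 S.2.1 := by
    show pcut (pcut (cl g) (mu g) S.2.1) (d (kap g S).2).1 1 = _
    rw [pcut_pcut d1 i1, k3, one_mul, add_sub_cancel]
  have D2 : pcut (kap g S).2.2 (d (kap g S).2).2 1 = pcut (cl g) T.2.2.1 S.2.2.1 := by
    show pcut (pcut (cl g) (mu g) S.2.2.1) (d (kap g S).2).2 1 = _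
    rw [pcut_pcut d2 i1, k4, one_mul, add_sub_cancel]
  -- the relative position
  have Z : (rst g T).2.2 + sK (tau t t' (rst g T).1).1 - sK (tau u u' (rst g T).2.1).1 = ex g.2.2 S.2.2.2 - ex g.2.2 S.1 := by
    show ex g.2.2 T.2.2.2 - ex g.2.2 T.1 + -dsp (pcut (rst g T).1 0 (t (rst g T).1)) -
      -dsp (pcut (rst g T).2.1 0 (u (rst g T).2.1)) = _
    rw [A1, B1, dsp_pcut, dsp_pcut]
    show ex g.2.2 T.2.2.2 - ex g.2.2 T.1 + -(ex g.2.2 S.1 - ex g.2.2 T.1) - -(ex g.2.2 S.2.2.2 - ex g.2.2 T.2.2.2) = _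
    ring
  refine Prod.ext (Prod.ext (Prod.ext ?_ ?_) (Prod.ext ?_ ?_)) (Prod.ext ?_ (Prod.ext ?_ ?_))
  · exact A1.trans C1.symm
  · exact A2.trans D1.symm
  · exact B1.trans C2.symm
  · exact B2.trans D2.symm
  · exact A3
  · exact B3
  · exact Z

/-! ### 5. the second relative position -/

/-- start of B minus start of A plus (minus displacements): end of B minus end of A -/
lemma zw_rst (g : Gm) (T : M4) : zw yP yP (rst g T) =
    (ex g.2.2 T.2.2.2 - ex g.2.2 T.1, ex g.2.2 T.2.2.1 - ex g.2.2 T.2.1) := by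
  refine Prod.ext rfl ?_
  show ex g.2.2 T.2.2.2 - ex g.2.2 T.1 + -dsp (pcut (cl g) T.1 T.2.1) - -dsp (pcut (cl g) T.2.2.2 T.2.2.1) = _
  rw [dsp_pcut, dsp_pcut]
  show ex g.2.2 T.2.2.2 - ex g.2.2 T.1 + -(ex g.2.2 T.2.1 - ex g.2.2 T.1) - -(ex g.2.2 T.2.2.1 - ex g.2.2 T.2.2.2) = _
  ring

end Pool.Agent.ROT.F3.CC
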