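import Pool.Agent.ROT.F3Unit
import Pool.Agent.ROT.F3CoreC

/-!
# ROT / F3UnitC (helper72): change of the unit of time for rests with marks

* `ut κ` : `(g, T) ↦ (g, κ T)`; `pcut_ut`, `tau_ut`;
* `clsU κ t t' D` : the class `clsC t t' D` in the new unit; **`law_ut`**, **`core_ut`**;
* **`rd_ex`** : measurable inverse of a measurable map which is injective on a measurable set; **`tau_inj`**, **`tau_rd`**.
-/

set_option autoImplicit false

open MeasureTheory Filter Topology Set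
open scoped ENNReal NNReal BoundedContinuousFunction

namespace Pool.Agent.ROT.F3

open CC

/-! ### 1. The unit of time -/

/-- change of the unit of time -/
noncomputable def ut (κ : ℝ) : Pie → Pie := um 1 κ

lemma ut_apply (κ : ℝ) (r : Pie) : ut κ r = (r.1, κ * r.2) := by
  unfold ut um
  rw [one_smul]

lemma ut_cont (κ : ℝ) : Continuous (ut κ) := um_cont 1 κ

lemma ut_ut (κ κ' : ℝ) (r : Pie) : ut κ (ut κ' r) = ut (κ * κ') r := by
  simp only [ut_apply, mul_assoc]

lemma ut_one (r : Pie) : ut 1 r = r := by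
  rw [ut_apply, one_mul]

lemma ut_inv {κ : ℝ} (hκ : κ ≠ 0) (r : Pie) : ut κ⁻¹ (ut κ r) = r := by
  rw [ut_ut, inv_mul_cancel₀ hκ, ut_one]

lemma ut_inv' {κ : ℝ} (hκ : κ ≠ 0) (r : Pie) : ut κ (ut κ⁻¹ r) = r := by
  rw [ut_ut, mul_inv_cancel₀ hκ, ut_one]

lemma pcut_ut (κ : ℝ) (p : Pie) (s t : ℝ) : pcut (ut κ p) s t = ut κ (pcut p s t) := by
  simp only [ut_apply, pcut, mul_assoc]

lemma dsp_ut (κ : ℝ) (p : Pie) : dsp (ut κ p) = dsp p := by
  simp only [ut_apply, dsp]

/-- change of the unit for the pieces -/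
noncomputable def utK (κ : ℝ) : Pie × Pie → Pie × Pie := Prod.map (ut κ) (ut κ)

lemma utK_meas (κ : ℝ) : Measurable (utK κ) := (ut_cont κ).measurable.prodMap (ut_cont κ).measurable

lemma tau_ut {κ : ℝ} (hκ : κ ≠ 0) (t t' : Pie → ℝ) (r : Pie) :
    tau (fun r => t (ut κ⁻¹ r)) (fun r => t' (ut κ⁻¹ r)) (ut κ r) = Prod.map (utK κ) (ut κ) (tau t t' r) := by
  unfold tau utK
  simp only [ut_inv hκ, pcut_ut, Prod.map]

/-- the class of the rests in `D` with the marks `t`, `t'` in the new unit -/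
noncomputable def clsU (κ : ℝ) (t t' : Pie → ℝ) (D : Set Pie) : Cls Pie (Pie × Pie) Pie :=
  clsC (fun r => t (ut κ⁻¹ r)) (fun r => t' (ut κ⁻¹ r)) (ut κ⁻¹ ⁻¹' D)

lemma clsU_ok (κ : ℝ) {t t' : Pie → ℝ} {D : Set Pie} (ht : Measurable t) (ht' : Measurable t') (hD : MeasurableSet D) :
    (clsU κ t t' D).Ok :=
  clsC_ok (ht.comp (ut_cont _).measurable) (ht'.comp (ut_cont _).measurable) ((ut_cont _).measurable hD)

/-- **the law in the new unit** -/
theorem law_ut {κ : ℝ} (hκ : κ ≠ 0) {t t' : Pie → ℝ} {D : Set Pie} (ht : Measurable t) (ht' : Measurable t')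
    (hD : MeasurableSet D) (m : Measure Pie) :
    (clsU κ t t' D).law (m.map (ut κ)) = ((clsC t t' D).law m).map (Prod.map (utK κ) (ut κ)) := by
  have hu := (ut_cont κ).measurable
  have hu' := (ut_cont κ⁻¹).measurable
  unfold Cls.law clsU clsC
  show (((m.map (ut κ)).restrict (ut κ⁻¹ ⁻¹' D)).map (tau (fun r => t (ut κ⁻¹ r)) (fun r => t' (ut κ⁻¹ r)))) =
    ((m.restrict D).map (tau t t')).map (Prod.map (utK κ) (ut κ))
  have e1 : ut κ ⁻¹' (ut κ⁻¹ ⁻¹' D) = D := by
    ext r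
    simp only [mem_preimage, ut_inv hκ]
  have e2 : (tau (fun r => t (ut κ⁻¹ r)) (fun r => t' (ut κ⁻¹ r))) ∘ ut κ = Prod.map (utK κ) (ut κ) ∘ tau t t' := by
    funext r
    exact tau_ut hκ t t' r
  have m1 : Measurable (tau (fun r => t (ut κ⁻¹ r)) (fun r => t' (ut κ⁻¹ r))) := tau_meas (ht.comp hu') (ht'.comp hu')
  rw [Measure.restrict_map hu (hu' hD), e1, Measure.map_map m1 hu, e2,
    Measure.map_map ((utK_meas κ).prodMap hu) (tau_meas ht ht')]

/-- **the product form in the new unit** -/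
theorem core_ut {κ : ℝ} (hκ : κ ≠ 0) {t t' : Pie → ℝ} {D : Set Pie} (ht : Measurable t) (ht' : Measurable t')
    (hD : MeasurableSet D) {m b : Measure Pie} [SFinite b]
    (h : ∃ ν : Measure (Pie × Pie), IsFiniteMeasure ν ∧ (clsC t t' D).law m = ν.prod b) :
    ∃ ν : Measure (Pie × Pie), IsFiniteMeasure ν ∧ (clsU κ t t' D).law (m.map (ut κ)) = ν.prod (b.map (ut κ)) := by
  obtain ⟨ν, hν, h⟩ := h
  have hν' : SFinite ν := inferInstance
  refine ⟨ν.map (utK κ), inferInstance, ?_⟩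
  rw [law_ut hκ ht ht' hD, h, Measure.map_prod_map _ _ (utK_meas κ) (ut_cont κ).measurable]

/-! ### 2. The inverse of the decomposition -/

/-- **measurable inverse** on a set where the map is injective -/
theorem rd_ex {X Y : Type*} [MeasurableSpace X] [StandardBorelSpace X] [MeasurableSpace Y] [StandardBorelSpace Y]
    [Nonempty X] {τ : X → Y} (hτ : Measurable τ) {S : Set X} (hS : MeasurableSet S) (inj : InjOn τ S) :
    ∃ rd : Y → X, Measurable rd ∧ ∀ r ∈ S, rd (τ r) = r := by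
  have : StandardBorelSpace S := hS.standardBorel
  have h1 : Measurable fun r : S => τ r := hτ.comp measurable_subtype_coe
  have h2 : Function.Injective fun r : S => τ r := fun a b h => Subtype.ext (inj a.2 b.2 h)
  have h3 := h1.measurableEmbedding h2
  obtain ⟨rd, h4, h5⟩ := h3.exists_measurable_extend (g := fun r : S => (r : X)) measurable_subtype_coe fun _ => inferInstance
  exact ⟨rd, h4, fun r hr => congrFun h5 ⟨r, hr⟩⟩

/-- rests with good marks -/
def GoodT (t t' : Pie → ℝ) : Set Pie := {r | r.1 0 = 0 ∧ 0 < r.2 ∧ 0 ≤ t r ∧ t r ≤ t' r ∧ t' r ≤ 1}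

lemma goodT_meas {t t' : Pie → ℝ} (ht : Measurable t) (ht' : Measurable t') : MeasurableSet (GoodT t t') := by
  have h0 : Measurable fun r : Pie => r.1 0 := ((continuous_eval_const (0 : unitInterval)).comp continuous_fst).measurable
  have h1 : MeasurableSet {r : Pie | r.1 0 = 0} := h0 (measurableSet_singleton 0)
  have h2 : MeasurableSet {r : Pie | 0 < r.2} := measurableSet_lt measurable_const measurable_snd
  have h3 : MeasurableSet {r : Pie | 0 ≤ t r} := measurableSet_le measurable_const ht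
  have h4 : MeasurableSet {r : Pie | t r ≤ t' r} := measurableSet_le ht ht'
  have h5 : MeasurableSet {r : Pie | t' r ≤ 1} := measurableSet_le ht' measurable_const
  have e : GoodT t t' = {r : Pie | r.1 0 = 0} ∩ ({r | 0 < r.2} ∩ ({r | 0 ≤ t r} ∩ ({r | t r ≤ t' r} ∩ {r | t' r ≤ 1}))) := by
    ext r
    simp only [GoodT, mem_inter_iff]
    rfl
  rw [e]
  exact h1.inter (h2.inter (h3.inter (h4.inter h5)))

/-- equal pieces, equal curves -/
lemma cutp_eq {g g' : C(unitInterval, ℂ)} {a b : ℝ} (h : cutp g a b = cutp g' a b) {x : ℝ} (hx : x ∈ uIcc a b) :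
    ex g x - ex g a = ex g' x - ex g' a := by
  by_cases hab : a = b
  · subst hab
    rw [uIcc_self] at hx
    have hx' : x = a := hx
    rw [hx', sub_self, sub_self]
  · have hne : b - a ≠ 0 := sub_ne_zero.2 fun h => hab h.symm
    have hu : (x - a) / (b - a) ∈ Icc (0 : ℝ) 1 := by
      rcases le_total a b with h1 | h1
      · rw [uIcc_of_le h1] at hx
        have h2 : 0 < b - a := lt_of_le_of_ne (by linarith) (Ne.symm hne)
        exact ⟨div_nonneg (by linarith [hx.1]) h2.le, (div_le_one h2).2 (by linarith [hx.2])⟩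
      · rw [uIcc_of_ge h1] at hx
        have h2 : b - a < 0 := lt_of_le_of_ne (by linarith) hne
        exact ⟨div_nonneg_of_nonpos (by linarith [hx.2]) h2.le, (div_le_one_of_neg h2).2 (by linarith [hx.1])⟩
    have h3 := DFunLike.congr_fun h ⟨(x - a) / (b - a), hu⟩
    rw [cutp_apply, cutp_apply] at h3
    have e : a + (x - a) / (b - a) * (b - a) = x := by
      rw [div_mul_cancel₀ _ hne]
      ring
    simpa only [e] using h3

/-- **the decomposition is injective** -/
theorem tau_inj (t t' : Pie → ℝ) : InjOn (tau t t') (GoodT t t') := by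
  rintro ⟨g, T⟩ ⟨a1, a2, a3, a4, a5⟩ ⟨g', T'⟩ ⟨b1, b2, b3, b4, b5⟩ h
  simp only at a1 a2 b1 b2
  obtain ⟨s, hs⟩ : ∃ s, s = t (g, T) := ⟨_, rfl⟩
  obtain ⟨s', hs'⟩ : ∃ s', s' = t' (g, T) := ⟨_, rfl⟩
  obtain ⟨q, hq⟩ : ∃ q, q = t (g', T') := ⟨_, rfl⟩
  obtain ⟨q', hq'⟩ : ∃ q', q' = t' (g', T') := ⟨_, rfl⟩
  rw [← hs] at a3 a4
  rw [← hs'] at a4 a5
  rw [← hq] at b3 b4
  rw [← hq'] at b4 b5
  unfold tau at h
  rw [← hs, ← hs', ← hq, ← hq'] at h
  unfold pcut at h
  simp only [Prod.mk.injEq] at h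
  obtain ⟨⟨⟨c1, d1⟩, c2, d2⟩, c3, d3⟩ := h
  rw [sub_zero, sub_zero, abs_of_nonneg a3, abs_of_nonneg b3] at d1
  rw [abs_sub_comm, abs_of_nonneg (by linarith : (0 : ℝ) ≤ 1 - s'), abs_sub_comm, abs_of_nonneg (by linarith : (0 : ℝ) ≤ 1 - q')]
    at d2
  rw [abs_of_nonneg (by linarith : (0 : ℝ) ≤ s' - s), abs_of_nonneg (by linarith : (0 : ℝ) ≤ q' - q)] at d3
  have hT : T = T' := by nlinarith
  subst hT
  have e1 : s = q := by
    have : T * (s - q) = 0 := by linarith
    rcases mul_eq_zero.1 this with h0 | h0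
    · exact absurd h0 a2.ne'
    · linarith
  have e2 : s' = q' := by
    have : T * (s' - q') = 0 := by linarith
    rcases mul_eq_zero.1 this with h0 | h0
    · exact absurd h0 a2.ne'
    · linarith
  subst e1
  subst e2
  have f1 : ∀ x ∈ Icc (0 : ℝ) s, ex g x = ex g' x := by
    intro x hx
    have h1 := cutp_eq c1 (x := x) (by rw [uIcc_of_le a3]; exact hx)
    rw [ex_zero, ex_zero, a1, b1, sub_zero, sub_zero] at h1
    exact h1
  have f2 : ∀ x ∈ Icc s s', ex g x = ex g' x := by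
    intro x hx
    have h1 := cutp_eq c3 (x := x) (by rw [uIcc_of_le a4]; exact hx)
    have h2 := f1 s ⟨a3, le_rfl⟩
    rw [h2] at h1
    exact sub_left_inj.1 h1
  have f3 : ∀ x ∈ Icc s' 1, ex g x = ex g' x := by
    intro x hx
    have h1 := cutp_eq c2 (x := x) (by rw [uIcc_of_ge a5]; exact hx)
    have h2 := cutp_eq c2 (x := s') (by rw [uIcc_of_ge a5]; exact ⟨le_rfl, a5⟩)
    have h3 := f2 s' ⟨a4, le_rfl⟩
    rw [h3] at h2
    have h4 : ex g 1 = ex g' 1 := by
      have : ex g' s' - ex g 1 = ex g' s' - ex g' 1 := h2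
      exact (sub_right_inj.1 this)
    rw [h4] at h1
    exact sub_left_inj.1 h1
  refine Prod.ext ?_ rfl
  ext u
  show g u = g' u
  rw [← ex_coe, ← ex_coe]
  rcases le_total (u : ℝ) s with h1 | h1
  · exact f1 _ ⟨u.2.1, h1⟩
  · rcases le_total (u : ℝ) s' with h2 | h2
    · exact f2 _ ⟨h1, h2⟩
    · exact f3 _ ⟨h2, u.2.2⟩

/-- **the rest from its pieces** -/
theorem tau_rd {t t' : Pie → ℝ} (ht : Measurable t) (ht' : Measurable t') :
    ∃ rd : (Pie × Pie) × Pie → Pie, Measurable rd ∧ ∀ r ∈ GoodT t t', rd (tau t t' r) = r := by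
  have i1 : StandardBorelSpace Pie := inferInstance
  have i2 : StandardBorelSpace (Pie × Pie) := StandardBorelSpace.prod
  have i3 : StandardBorelSpace ((Pie × Pie) × Pie) := StandardBorelSpace.prod
  exact rd_ex (tau_meas ht ht') (goodT_meas ht ht') (tau_inj t t')

end Pool.Agent.ROT.F3
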