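import Pool.Agent.ROT.F3CorMid
import Pool.Agent.ROT.F3CoreH
import Pool.Agent.ROT.F3ClsU
import Pool.Agent.ROT.F3ClsG
import Pool.Agent.ROT.F3UnitC
import Pool.Agent.ROT.F3Ins

/-!
# ROT, F3, row Core, part (C1) over the classes F3Cls (helper42): the closed sets `V`, `hsub`, the marks as functions of the rest

* `KV d E` : the closed class of the pieces `k` = `x` .. `x~` (ball, cone, position and cell of `x~`, duration), `kv_closed`, `kv_of`;
* **`VT d d' E E' AC`** : (rest, relative times of the two foreign marks), closed (`vt_closed`); `En.ep` : the end data `EdP`;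
  **`vt_vc`** : `VT` gives `Vc` (cone of the whole rest in the ball `f.r0 - f.κ - E.k`);
* **`hsub_prm`** : the field `hsub`, `D0 = DD fst fst yP yP Z0 W0`, `Z0` = open ball of radius `ρ > rz + 2 kr` about
  `(h - kc) (d2 - d1)`;
* `vt_good`, **`vt_dur`** : `GoodT` and the durations of the pieces (fields `cut`, `rd`);
* **`cls_marks`** : `cls_of` for the marks: class `clsC t t' C` of one class of rests; `cls_h1`, `cls_h2` : inputs h1, h2 of `hj_of`.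
-/

set_option autoImplicit false

open MeasureTheory Topology Set

open scoped ENNReal

namespace Pool.Agent.ROT.F3.CC

open Pool.Agent.ROT.F3

/-! ### 1. the pieces `k` -/

/-- **the closed class of the pieces** `x` .. `x~`; `d` = direction of the lattice 0 -/
structure KV (d : ℂ) (E : En) (k : Pie) : Prop where
  b : ∀ u : unitInterval, ‖k.1 u‖ ≤ E.k
  s : ∀ u : unitInterval, Kn d E.n.c E.κk (k.1 u)
  e : E.n.c * ‖k.1 1‖ + E.ek ≤ lv d (k.1 1)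
  cell : ‖k.1 1 - (E.kc : ℂ) * d‖ ≤ E.kr
  lk : k.2 ≤ E.lk

lemma kn_closed (d : ℂ) (c κ : ℝ) : IsClosed {v : ℂ | Kn d c κ v} := by
  unfold Kn
  exact isClosed_le (by fun_prop) (lv_cont _)

theorem kv_closed (d : ℂ) (E : En) : IsClosed {k : Pie | KV d E k} := by
  have ev : ∀ u : unitInterval, Continuous fun k : Pie => k.1 u := fun u => (continuous_eval_const u).comp continuous_fst
  have e : {k : Pie | KV d E k} = (⋂ u : unitInterval, {k : Pie | ‖k.1 u‖ ≤ E.k}) ∩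
      (⋂ u : unitInterval, {k : Pie | Kn d E.n.c E.κk (k.1 u)}) ∩ {k : Pie | E.n.c * ‖k.1 1‖ + E.ek ≤ lv d (k.1 1)} ∩
      {k : Pie | ‖k.1 1 - (E.kc : ℂ) * d‖ ≤ E.kr} ∩ {k : Pie | k.2 ≤ E.lk} := by
    ext k
    simp only [mem_inter_iff, mem_iInter, mem_ofPred_eq]
    constructor
    · intro h
      exact ⟨⟨⟨⟨h.b, h.s⟩, h.e⟩, h.cell⟩, h.lk⟩
    · rintro ⟨⟨⟨⟨h1, h2⟩, h3⟩, h4⟩, h5⟩
      exact ⟨h1, h2, h3, h4, h5⟩
  rw [e]
  refine (((IsClosed.inter ?_ ?_).inter ?_).inter ?_).inter ?_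
  · exact isClosed_iInter fun u => isClosed_le (ev u).norm continuous_const
  · exact isClosed_iInter fun u => (kn_closed _ _ _).preimage (ev u)
  · exact isClosed_le ((continuous_const.mul (ev 1).norm).add continuous_const) ((lv_cont d).comp (ev 1))
  · exact isClosed_le ((ev 1).sub continuous_const).norm continuous_const
  · exact isClosed_le continuous_snd continuous_const

/-- from the conditions between the marks `a` = `x`, `b` = `c~`, `c` = `x~` -/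
theorem kv_of {d : ℂ} {E : En} {p : Pie} {a b c : ℝ} (hb : b ∈ uIcc a c)
    (b1 : ∀ u : unitInterval, ‖cutp p.1 a b u‖ ≤ E.rk) (b2 : ∀ u : unitInterval, ‖cutp p.1 b c u‖ ≤ E.f.r2)
    (hr2 : 0 ≤ E.f.r2) (s : ∀ u : unitInterval, Kn d E.n.c E.κk (cutp p.1 a c u))
    (e : E.n.c * ‖cutp p.1 a c 1‖ + E.ek ≤ lv d (cutp p.1 a c 1))
    (cell : ‖cutp p.1 a c 1 - (E.kc : ℂ) * d‖ ≤ E.kr) (lk : p.2 * |c - a| ≤ E.lk) : KV d E (pcut p a c) := by
  refine ⟨fun u => ?_, s, e, cell, lk⟩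
  show ‖cutp p.1 a c u‖ ≤ E.rk + E.f.r2
  -- the point is in one of the two halves
  have key : (∃ v : unitInterval, cutp p.1 a c u = cutp p.1 a b v) ∨
      ∃ v : unitInterval, cutp p.1 a c u = cutp p.1 a b 1 + cutp p.1 b c v := by
    by_cases hac : a = c
    · left
      refine ⟨0, ?_⟩
      rw [cutp_zero, hac, cutp_apply, sub_self, mul_zero, add_zero, sub_self]
    have hne : c - a ≠ 0 := fun h => hac (by linarith)
    obtain ⟨t, ht, hbt⟩ : ∃ t : ℝ, t ∈ Icc (0 : ℝ) 1 ∧ b = a + t * (c - a) := by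
      refine ⟨(b - a) / (c - a), ?_, by field_simp; ring⟩
      rcases lt_or_gt_of_ne hac with h | h
      · rw [uIcc_of_le h.le] at hb
        have h1 : 0 < c - a := by linarith
        exact ⟨div_nonneg (by linarith [hb.1]) h1.le, (div_le_one h1).2 (by linarith [hb.2])⟩
      · rw [uIcc_of_ge h.le] at hb
        have h1 : c - a < 0 := by linarith
        refine ⟨div_nonneg_of_nonpos (by linarith [hb.2]) h1.le, ?_⟩
        rw [div_le_one_of_neg h1]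
        linarith [hb.1]
    rcases le_or_gt (u : ℝ) t with h | h
    · left
      rcases eq_or_lt_of_le ht.1 with h0 | h0
      · refine ⟨0, ?_⟩
        have hu : (u : ℝ) = 0 := le_antisymm (by rw [h0]; exact h) u.2.1
        rw [cutp_zero, cutp_apply, hu, zero_mul, add_zero, sub_self]
      · refine ⟨⟨(u : ℝ) / t, div_nonneg u.2.1 h0.le, (div_le_one h0).2 h⟩, ?_⟩
        rw [cutp_apply, cutp_apply]
        have : a + (u : ℝ) / t * (b - a) = a + u * (c - a) := by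
          rw [hbt]
          field_simp
          ring
        show _ = ex p.1 (a + (u : ℝ) / t * (b - a)) - ex p.1 a
        rw [this]
    · right
      have h0 : 0 < 1 - t := by linarith [u.2.2]
      refine ⟨⟨((u : ℝ) - t) / (1 - t), div_nonneg (by linarith) h0.le, (div_le_one h0).2 (by linarith [u.2.2])⟩, ?_⟩
      rw [cutp_apply, cutp_one, cutp_apply]
      have : b + ((u : ℝ) - t) / (1 - t) * (c - b) = a + u * (c - a) := by
        rw [hbt]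
        field_simp
        ring
      show _ = ex p.1 b - ex p.1 a + (ex p.1 (b + ((u : ℝ) - t) / (1 - t) * (c - b)) - ex p.1 b)
      rw [this]
      ring
  rcases key with ⟨v, hv⟩ | ⟨v, hv⟩
  · rw [hv]
    linarith [b1 v]
  · rw [hv]
    exact (norm_add_le _ _).trans (add_le_add (b1 1) (b2 v))

/-! ### 2. rests with the two foreign marks -/

/-- **rests with the relative times of the two foreign marks**; `AC` = class of the arcs -/
structure VtC (d d' : ℂ) (E E' : En) (AC : Set Pie) (x : Pie × (ℝ × ℝ)) : Prop where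
  h0 : 0 ≤ x.2.1
  h1 : x.2.1 ≤ x.2.2
  h2 : x.2.2 ≤ 1
  z : x.1.1 0 = 0
  kp : KV d E (pcut x.1 0 x.2.1)
  kq : KV d' E' (pcut x.1 1 x.2.2)
  a : pcut x.1 x.2.1 x.2.2 ∈ AC

/-- the set -/
def VT (d d' : ℂ) (E E' : En) (AC : Set Pie) : Set (Pie × (ℝ × ℝ)) := {x | VtC d d' E E' AC x}

theorem vt_closed (d d' : ℂ) (E E' : En) {AC : Set Pie} (hA : IsClosed AC) : IsClosed (VT d d' E E' AC) := by
  have c1 : Continuous fun x : Pie × (ℝ × ℝ) => x.2.1 := by fun_prop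
  have c2 : Continuous fun x : Pie × (ℝ × ℝ) => x.2.2 := by fun_prop
  have e : VT d d' E E' AC = {x | 0 ≤ x.2.1} ∩ {x | x.2.1 ≤ x.2.2} ∩ {x | x.2.2 ≤ 1} ∩ {x | x.1.1 0 = 0} ∩
      {x | pcut x.1 0 x.2.1 ∈ {k : Pie | KV d E k}} ∩ {x | pcut x.1 1 x.2.2 ∈ {k : Pie | KV d' E' k}} ∩
      {x | pcut x.1 x.2.1 x.2.2 ∈ AC} := by
    ext x
    simp only [mem_inter_iff, mem_ofPred_eq]
    constructor
    · intro h
      exact ⟨⟨⟨⟨⟨⟨h.h0, h.h1⟩, h.h2⟩, h.z⟩, h.kp⟩, h.kq⟩, h.a⟩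
    · rintro ⟨⟨⟨⟨⟨⟨h1, h2⟩, h3⟩, h4⟩, h5⟩, h6⟩, h7⟩
      exact ⟨h1, h2, h3, h4, h5, h6, h7⟩
  rw [e]
  refine (((((IsClosed.inter ?_ ?_).inter ?_).inter ?_).inter ?_).inter ?_).inter ?_
  · exact isClosed_le continuous_const c1
  · exact isClosed_le c1 c2
  · exact isClosed_le c2 continuous_const
  · exact isClosed_eq ((continuous_eval_const (0 : unitInterval)).comp (by fun_prop)) continuous_const
  · exact (kv_closed d E).preimage (pcut_cont' continuous_fst continuous_const c1)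
  · exact (kv_closed d' E').preimage (pcut_cont' continuous_fst continuous_const c2)
  · exact hA.preimage (pcut_cont' continuous_fst c1 c2)

/-- the data of one end for `Vc` -/
noncomputable def epE (d : ℂ) (E : En) : EdP :=
  ⟨d, E.n.c, E.f.r0 - E.f.κ - E.k + E.n.κ, E.n.κ, E.k, Metric.closedBall ((E.kc : ℂ) * d) E.kr⟩

/-- the arcs of a class of rests of the rotated lattice -/
def ArV (t t' : ℂ) (E E' : En) (W : Wn) : Set Pie := {p | p.1 ∈ ClR t t' E.f E'.f W ∧ W.t0 ≤ p.2 ∧ p.2 ≤ W.t1}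

lemma arV_closed (t t' : ℂ) (E E' : En) (W : Wn) : IsClosed (ArV t t' E E' W) :=
  ((clR_closed t t' E.f E'.f W).preimage continuous_fst).inter
    ((isClosed_le continuous_const continuous_snd).inter (isClosed_le continuous_snd continuous_const))

/-- the main arcs -/
def AmV (t t' : ℂ) (E E' : En) (W : Wn) : Set Pie :=
  {p | p.1 ∈ ClM t t' E.f E'.f W E.s E'.s ∧ W.t0 ≤ p.2 ∧ p.2 ≤ W.t1}

lemma amV_closed (t t' : ℂ) (E E' : En) (W : Wn) : IsClosed (AmV t t' E E' W) :=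
  ((clM_closed t t' E.f E'.f W E.s E'.s).preimage continuous_fst).inter
    ((isClosed_le continuous_const continuous_snd).inter (isClosed_le continuous_snd continuous_const))

lemma amV_sub (t t' : ℂ) (E E' : En) (W : Wn) : AmV t t' E E' W ⊆ ArV t t' E E' W := fun _ h => ⟨h.1.1, h.2⟩

lemma rel_of {r : Pie} {s s' : ℝ} (h0 : 0 ≤ s) (h1 : s ≤ s') (h2 : s' ≤ 1) :
    (r, ((pcut r 0 s, pcut r 1 s'), pcut r s s')) ∈ Rel :=
  ⟨⟨s, h0, h1.trans h2⟩, ⟨s', h0.trans h1, h2⟩, rfl⟩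

lemma pt_arc {d t : ℂ} {E : En} {ε : ℝ} (hE : E.Ok ε) (ht : ‖t - d‖ ≤ ε) {v w : ℂ} (hv : E.n.c * ‖v‖ + E.ek ≤ lv d v)
    (hb : ‖v‖ ≤ E.k) (hw : w ∈ EdK t E.f) : (epE d E).pt (v + w) := by
  rcases hw.2 with h | h
  · left
    have := cone_shift (S := 1) hE zero_le_one ht (v := v) (w := w) (by rw [mul_one]; exact hv) (by rw [mul_one]; exact h)
    rw [mul_one] at this
    exact this
  · right
    show E.f.r0 - E.f.κ - E.k + E.n.κ - E.n.κ ≤ ‖v + w‖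
    have h2 : ‖w‖ ≤ ‖v + w‖ + ‖v‖ := by
      have : w = (v + w) - v := by ring
      conv_lhs => rw [this]
      exact norm_sub_le _ _
    linarith

/-- **the conditions of `Vc`** -/
theorem vt_vc {d d' t t' : ℂ} {E E' : En} {ε : ℝ} (hE : E.Ok ε) (hE' : E'.Ok ε) (ht : ‖t - d‖ ≤ ε) (ht' : ‖t' - d'‖ ≤ ε)
    {W : Wn} (hW : 2 * (E.f.r0 + E'.f.r0) ≤ W.D0) {AC : Set Pie} (hA : AC ⊆ ArV t t' E E' W) {x : Pie × (ℝ × ℝ)}
    (h : x ∈ VT d d' E E' AC) :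
    Vc (epE d E) (epE d' E') AC (x.1, ((pcut x.1 0 x.2.1, pcut x.1 1 x.2.2), pcut x.1 x.2.1 x.2.2)) := by
  obtain ⟨⟨r, s, s'⟩, hr⟩ : ∃ y, y = x := ⟨_, rfl⟩
  subst hr
  have h0 : 0 ≤ s := h.h0
  have h1 : s ≤ s' := h.h1
  have h2 : s' ≤ 1 := h.h2
  have hz : r.1 0 = 0 := h.z
  have kp : KV d E (pcut r 0 s) := h.kp
  have kq : KV d' E' (pcut r 1 s') := h.kq
  have ha : pcut r s s' ∈ AC := h.a
  obtain ⟨⟨a0, ⟨a1, a2⟩, a3⟩, -⟩ := hA ha
  have rel := rel_of (r := r) h0 h1 h2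
  -- the displacements
  have dp : dsp (pcut r 0 s) = (pcut r 0 s).1 1 := by
    unfold dsp
    show cutp r.1 0 s 1 - cutp r.1 0 s 0 = cutp r.1 0 s 1
    rw [cutp_zero, sub_zero]
  have dq : dsp (pcut r 1 s') = (pcut r 1 s').1 1 := by
    unfold dsp
    show cutp r.1 1 s' 1 - cutp r.1 1 s' 0 = cutp r.1 1 s' 1
    rw [cutp_zero, sub_zero]
  have dA : dsp (pcut r s s') = (pcut r s s').1 1 := by
    unfold dsp
    rw [a0, sub_zero]
  have tot : r.1 1 = dsp (pcut r 0 s) + dsp (pcut r s s') - dsp (pcut r 1 s') := by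
    rw [dsp_pcut, dsp_pcut, dsp_pcut, ex_zero, ex_one, hz]
    ring
  have nk : ‖dsp (pcut r 0 s)‖ ≤ E.k := by rw [dp]; exact kp.b 1
  have nk' : ‖dsp (pcut r 1 s')‖ ≤ E'.k := by rw [dq]; exact kq.b 1
  have nA : W.D0 ≤ ‖dsp (pcut r s s')‖ := by rw [dA]; exact a1
  have far : W.D0 - E.k - E'.k ≤ ‖r.1 1‖ := by
    have : dsp (pcut r s s') = r.1 1 - dsp (pcut r 0 s) + dsp (pcut r 1 s') := by
      rw [tot]
      ring
    have n1 := norm_add_le (r.1 1 - dsp (pcut r 0 s)) (dsp (pcut r 1 s'))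
    rw [← this] at n1
    have n2 := norm_sub_le (r.1 1) (dsp (pcut r 0 s))
    linarith
  -- numbers
  have r1 : 64 * E.k ≤ E.f.r0 - E.f.κ := by
    have g1 := hE.f.g64
    have g2 := hE.f.rr'
    have g3 := hE.ball
    have g4 := hE.n.r
    have g5 := hE.n.r2
    unfold En.k
    linarith
  have r2 : 64 * E'.k ≤ E'.f.r0 - E'.f.κ := by
    have g1 := hE'.f.g64
    have g2 := hE'.f.rr'
    have g3 := hE'.ball
    have g4 := hE'.n.r
    have g5 := hE'.n.r2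
    unfold En.k
    linarith
  have k0 : 0 ≤ E.k := (norm_nonneg _).trans nk
  have k0' : 0 ≤ E'.k := (norm_nonneg _).trans nk'
  have κ0 := hE.f.κ
  have κ0' := hE'.f.κ
  refine ⟨rel, hz, fun u => ?_, fun u => ?_, kp.b, kq.b, ?_, ?_, ha⟩
  · show (epE d E).pt (r.1 u)
    rcases rel_cases rel u with ⟨v, hv⟩ | ⟨v, hv⟩ | ⟨v, hv⟩
    · have e1 : r.1 u = (pcut r 0 s).1 v := by
        rw [← hv]
        show r.1 u = r.1 u - r.1 0
        rw [hz, sub_zero]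
      left
      rw [e1]
      exact (kp.s v).mono le_rfl hE.κk
    · right
      show E.f.r0 - E.f.κ - E.k + E.n.κ - E.n.κ ≤ ‖r.1 u‖
      have e1 : r.1 1 = r.1 u - (pcut r 1 s').1 v := by
        rw [← hv]
        show r.1 1 = r.1 u - (r.1 u - r.1 1)
        ring
      have n1 := norm_sub_le (r.1 u) ((pcut r 1 s').1 v)
      rw [← e1] at n1
      have n2 := kq.b v
      linarith
    · have e1 : r.1 u = (pcut r 0 s).1 1 + (pcut r s s').1 v := by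
        have : r.1 u = r.1 u - r.1 0 := by rw [hz, sub_zero]
        rw [this, ← dp, add_comm]
        exact hv
      rw [e1]
      exact pt_arc hE ht kp.e (kp.b 1) (a3 v).1
  · show (epE d' E').pt (r.1 u - r.1 1)
    rcases rel_cases rel u with ⟨v, hv⟩ | ⟨v, hv⟩ | ⟨v, hv⟩
    · right
      show E'.f.r0 - E'.f.κ - E'.k + E'.n.κ - E'.n.κ ≤ ‖r.1 u - r.1 1‖
      have e1 : r.1 u = (pcut r 0 s).1 v := by
        rw [← hv]
        show r.1 u = r.1 u - r.1 0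
        rw [hz, sub_zero]
      have n1 := norm_sub_le (r.1 u) (r.1 u - r.1 1)
      have e2 : r.1 u - (r.1 u - r.1 1) = r.1 1 := by ring
      rw [e2] at n1
      have n2 := kp.b v
      rw [← e1] at n2
      linarith
    · have e1 : r.1 u - r.1 1 = (pcut r 1 s').1 v := hv
      left
      rw [e1]
      exact (kq.s v).mono le_rfl hE'.κk
    · have e1 : r.1 u - r.1 1 = (pcut r 1 s').1 1 + ((pcut r s s').1 v - (pcut r s s').1 1) := by
        rw [← dq, ← dA, tot]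
        have : r.1 u = r.1 u - r.1 0 := by rw [hz, sub_zero]
        have e2 : r.1 u = (pcut r s s').1 v + dsp (pcut r 0 s) := by
          rw [this]
          exact hv
        rw [e2]
        ring
      rw [e1]
      exact pt_arc hE' ht' kq.e (kq.b 1) (a3 v).2
  · show dsp (pcut r 0 s) ∈ Metric.closedBall ((E.kc : ℂ) * d) E.kr
    rw [mem_closedBall_iff_norm, dp]
    exact kp.cell
  · show dsp (pcut r 1 s') ∈ Metric.closedBall ((E'.kc : ℂ) * d') E'.kr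
    rw [mem_closedBall_iff_norm, dq]
    exact kq.cell

/-! ### 3. the relative positions -/

/-- the (open) cell of the relative positions at the native gates -/
noncomputable def Z0E (d1 d2 : ℂ) (E : En) (h ρ : ℝ) : Set ℂ := Metric.ball (((h - E.kc : ℝ) : ℂ) * (d2 - d1)) ρ

lemma z0E_open (d1 d2 : ℂ) (E : En) (h ρ : ℝ) : IsOpen (Z0E d1 d2 E h ρ) := Metric.isOpen_ball

lemma z0E_mem {d1 d2 : ℂ} {E : En} {h rz ρ : ℝ} (hρ : rz + 2 * E.kr < ρ) {z a b : ℂ}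
    (hz : z ∈ Metric.closedBall ((h : ℂ) * (d2 - d1)) rz)
    (ha : a ∈ (epE d1 E).E) (hb : b ∈ (epE d2 E).E) : z + a - b ∈ Z0E d1 d2 E h ρ := by
  unfold Z0E
  have ha' : ‖a - (E.kc : ℂ) * d1‖ ≤ E.kr := by
    have : a ∈ Metric.closedBall ((E.kc : ℂ) * d1) E.kr := ha
    rwa [mem_closedBall_iff_norm] at this
  have hb' : ‖b - (E.kc : ℂ) * d2‖ ≤ E.kr := by
    have : b ∈ Metric.closedBall ((E.kc : ℂ) * d2) E.kr := hb
    rwa [mem_closedBall_iff_norm] at this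
  rw [mem_closedBall_iff_norm] at hz
  rw [mem_ball_iff_norm]
  have e : z + a - b - ((h - E.kc : ℝ) : ℂ) * (d2 - d1) =
      (z - (h : ℂ) * (d2 - d1)) + (a - (E.kc : ℂ) * d1) - (b - (E.kc : ℂ) * d2) := by
    push_cast
    ring
  rw [e]
  have n1 := norm_sub_le ((z - (h : ℂ) * (d2 - d1)) + (a - (E.kc : ℂ) * d1)) (b - (E.kc : ℂ) * d2)
  have n2 := norm_add_le (z - (h : ℂ) * (d2 - d1)) (a - (E.kc : ℂ) * d1)
  linarith

lemma lv_self {d : ℂ} (hd : ‖d‖ = 1) : lv d d = 1 := by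
  unfold lv
  rw [← Complex.normSq_eq_conj_mul_self, Complex.ofReal_re, Complex.normSq_eq_norm_sq, hd, one_pow]

lemma lv_comm (d e : ℂ) : lv d e = lv e d := by
  unfold lv
  simp only [Complex.mul_re, Complex.conj_re, Complex.conj_im]
  ring

/-- directions at an angle of at least 120 degrees -/
lemma lv_le_half {d1 d2 : ℂ} (h1 : ‖d1‖ = 1) (h2 : ‖d2‖ = 1) (h : ‖d1 + d2‖ ≤ 1) : lv d1 d2 ≤ -(1 / 2) := by
  have e : ‖d1 + d2‖ ^ 2 = 1 + 1 + 2 * lv d1 d2 := by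
    have a1 : Complex.normSq (d1 + d2) = Complex.normSq d1 + Complex.normSq d2 + 2 * lv d1 d2 := by
      unfold lv
      rw [Complex.normSq_apply, Complex.normSq_apply, Complex.normSq_apply]
      simp only [Complex.add_re, Complex.add_im, Complex.mul_re, Complex.conj_re, Complex.conj_im]
      ring
    rw [← Complex.normSq_eq_norm_sq, a1, Complex.normSq_eq_norm_sq, Complex.normSq_eq_norm_sq, h1, h2]
    norm_num
  have h3 : ‖d1 + d2‖ ^ 2 ≤ 1 := pow_le_one₀ (norm_nonneg _) h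
  linarith

lemma lv_sub' (d v w : ℂ) : lv d (v - w) = lv d v - lv d w := by
  unfold lv
  rw [mul_sub, Complex.sub_re]

lemma lv_smul' (d : ℂ) (c : ℝ) (v : ℂ) : lv d ((c : ℂ) * v) = c * lv d v := by
  unfold lv
  rw [show (starRingEnd ℂ) d * ((c : ℂ) * v) = (c : ℂ) * ((starRingEnd ℂ) d * v) by ring, Complex.re_ofReal_mul]

/-- **the ends are separated at the relative positions of the cell** -/
theorem sep_z0E {d1 d2 : ℂ} (n1 : ‖d1‖ = 1) (n2 : ‖d2‖ = 1) (hd : ‖d1 + d2‖ ≤ 1) {E : En} {ε : ℝ} (hE : E.Ok ε) {h ρ : ℝ}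
    (hr : 0 ≤ ρ) (H1 : 2 * ρ + 4 * E.n.κ < 3 * (h - E.kc)) (H2 : 2 * (h - E.kc) + ρ < 62 * E.k) {z : ℂ}
    (hz : z ∈ Z0E d1 d2 E h ρ) : Sep2 (epE d1 E) (epE d2 E) z := by
  unfold Z0E at hz
  rw [mem_ball_iff_norm] at hz
  obtain ⟨v, hv⟩ : ∃ v : ℂ, v = z - ((h - E.kc : ℝ) : ℂ) * (d2 - d1) := ⟨_, rfl⟩
  rw [← hv] at hz
  have ez : z = ((h - E.kc : ℝ) : ℂ) * (d2 - d1) + v := by
    rw [hv]
    ring
  have c0 : 0 < h - E.kc := by
    have := hE.kr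
    have := hE.n.κ
    linarith
  have r1 : 64 * E.k ≤ E.f.r0 - E.f.κ := by
    have g1 := hE.f.g64
    have g2 := hE.f.rr'
    have g3 := hE.ball
    have g4 := hE.n.r
    have g5 := hE.n.r2
    unfold En.k
    linarith
  have k0 : 0 < E.k := by
    have g1 := hE.rk
    have g2 := hE.f.r2
    unfold En.k
    linarith
  have nz : ‖z‖ ≤ 2 * (h - E.kc) + ρ := by
    rw [ez]
    refine (norm_add_le _ _).trans (add_le_add ?_ hz.le)
    rw [norm_mul, Complex.norm_real, Real.norm_of_nonneg c0.le, mul_comm]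
    refine mul_le_mul_of_nonneg_right ?_ c0.le
    have := norm_sub_le d2 d1
    rw [n1, n2] at this
    linarith
  have l12 := lv_le_half n1 n2 hd
  have l21 : lv d2 d1 ≤ -(1 / 2) := by rw [lv_comm]; exact l12
  have lz1 : lv d1 z = (h - E.kc) * (lv d1 d2 - 1) + lv d1 v := by
    rw [ez, lv_add, lv_smul', lv_sub', lv_self n1]
  have lz2 : lv d2 z = (h - E.kc) * (1 - lv d2 d1) + lv d2 v := by
    rw [ez, lv_add, lv_smul', lv_sub', lv_self n2]
  have v1 := (abs_le.1 ((lv_le_norm n1 v).trans hz.le)).2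
  have v2 := (abs_le.1 ((lv_le_norm n2 v).trans hz.le)).1
  have b0 : E.f.r0 - E.f.κ - E.k + E.n.κ - E.n.κ = E.f.r0 - E.f.κ - E.k := by ring
  refine sep2_of hd ?_ ?_ ?_ ?_ ?_ ?_ ?_
  · show 1 / 2 ≤ E.n.c
    linarith [hE.n.c, hE.n.cs]
  · show 1 / 2 ≤ E.n.c
    linarith [hE.n.c, hE.n.cs]
  · show lv d1 z - lv d2 z < -(2 * (E.n.κ + E.n.κ))
    rw [lz1, lz2]
    have m1 : (h - E.kc) * (lv d1 d2 - 1) ≤ (h - E.kc) * (-(3 / 2)) := mul_le_mul_of_nonneg_left (by linarith) c0.le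
    have m2 : (h - E.kc) * (3 / 2) ≤ (h - E.kc) * (1 - lv d2 d1) := mul_le_mul_of_nonneg_left (by linarith) c0.le
    linarith
  · show ‖z‖ + E.k < E.f.r0 - E.f.κ - E.k + E.n.κ - E.n.κ
    rw [b0]
    linarith
  · show ‖z‖ + E.k < E.f.r0 - E.f.κ - E.k + E.n.κ - E.n.κ
    rw [b0]
    linarith
  · show E.k < E.f.r0 - E.f.κ - E.k + E.n.κ - E.n.κ
    rw [b0]
    linarith
  · show E.k < E.f.r0 - E.f.κ - E.k + E.n.κ - E.n.κ
    rw [b0]
    linarith

/-- **the field `hsub`** of `PairIn` for two classes of rests with foreign marks (`clsC`), `E` = data at `p`, `E'` = data at `q` -/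
theorem hsub_prm {d1 d2 d1' d2' t1 t2 t1' t2' : ℂ} (n1 : ‖d1‖ = 1) (n2 : ‖d2‖ = 1) (n1' : ‖d1'‖ = 1) (n2' : ‖d2'‖ = 1)
    (hd : ‖d1 + d2‖ ≤ 1) (hd' : ‖d1' + d2'‖ ≤ 1) {E E' : En} {ε : ℝ} (hE : E.Ok ε) (hE' : E'.Ok ε) (e1 : ‖t1 - d1‖ ≤ ε)
    (e2 : ‖t2 - d2‖ ≤ ε) (e1' : ‖t1' - d1'‖ ≤ ε) (e2' : ‖t2' - d2'‖ ≤ ε) {W1 W2 : Wn}
    (hW1 : 2 * (E.f.r0 + E'.f.r0) ≤ W1.D0) (hW2 : 2 * (E.f.r0 + E'.f.r0) ≤ W2.D0) {A1 A2 : Set Pie}
    (hA1 : A1 ⊆ ArV t1 t1' E E' W1) (hA2 : A2 ⊆ ArV t2 t2' E E' W2) {s s' u u' : Pie → ℝ} {C1 C2 : Set Pie}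
    (v1 : ∀ r ∈ C1, (r, (s r, s' r)) ∈ VT d1 d1' E E' A1) (v2 : ∀ r ∈ C2, (r, (u r, u' r)) ∈ VT d2 d2' E E' A2)
    {h rz ρ h' rz' ρ' : ℝ} (hr : 0 ≤ ρ) (hr' : 0 ≤ ρ') (H0 : rz + 2 * E.kr < ρ) (H0' : rz' + 2 * E'.kr < ρ')
    (H1 : 2 * ρ + 4 * E.n.κ < 3 * (h - E.kc)) (H2 : 2 * (h - E.kc) + ρ < 62 * E.k)
    (H1' : 2 * ρ' + 4 * E'.n.κ < 3 * (h' - E'.kc)) (H2' : 2 * (h' - E'.kc) + ρ' < 62 * E'.k) {Z W : Set ℂ}
    (hZ : Z ⊆ Metric.closedBall ((h : ℂ) * (d2 - d1)) rz) (hW : W ⊆ Metric.closedBall ((h' : ℂ) * (d2' - d1')) rz')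
    (p : Pie × (Pie × ℂ)) (k1 : p.1 ∈ (clsC s s' C1).C) (k2 : p.2.1 ∈ (clsC u u' C2).C)
    (k3 : pi3 (tht (clsC s s' C1).τ (clsC u u' C2).τ (clsC s s' C1).s (clsC u u' C2).s p) ∈
      DD (clsC s s' C1).g (clsC u u' C2).g (clsC s s' C1).y (clsC u u' C2).y Z W) :
    p ∈ DD Prod.fst Prod.fst yP yP (Z0E d1 d2 E h ρ) (Z0E d1' d2' E' h' ρ') := by
  refine hsub_of (p1 := epE d1 E) (q1 := epE d1' E') (p2 := epE d2 E) (q2 := epE d2' E') (A1 := A1) (A2 := A2)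
    rfl rfl rfl rfl rfl rfl (fun r hr => ?_) (fun r hr => ?_) (Z := Z) (W := W) (fun z hz a ha b hb => z0E_mem H0 (hZ hz) ha hb)
    (fun z hz a ha b hb => z0E_mem H0' (hW hz) ha hb) (fun z hz => sep_z0E n1 n2 hd hE hr H1 H2 hz)
    (fun z hz => sep_z0E n1' n2' hd' hE' hr' H1' H2' hz) p k1 k2 k3
  · exact vt_vc hE hE' e1 e1' hW1 hA1 (v1 r hr)
  · exact vt_vc hE hE' e2 e2' hW2 hA2 (v2 r hr)

/-! ### 4. durations -/

/-- the durations of the pieces -/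
theorem vt_dur {d d' : ℂ} {E E' : En} {AC : Set Pie} {x : Pie × (ℝ × ℝ)} (h : x ∈ VT d d' E E' AC) :
    x.2.1 * x.1.2 ≤ E.lk ∧ (1 - x.2.2) * x.1.2 ≤ E'.lk := by
  have h1 : x.1.2 * |x.2.1 - 0| ≤ E.lk := h.kp.lk
  have h2 : x.1.2 * |x.2.2 - 1| ≤ E'.lk := h.kq.lk
  rw [sub_zero, abs_of_nonneg h.h0] at h1
  rw [abs_sub_comm, abs_of_nonneg (by linarith [h.h2])] at h2
  exact ⟨by rw [mul_comm]; exact h1, by rw [mul_comm]; exact h2⟩

/-- positive duration -/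
theorem vt_pos {d d' t t' : ℂ} {E E' : En} {W : Wn} (hW : 0 < W.t0) {AC : Set Pie} (hA : AC ⊆ ArV t t' E E' W)
    {x : Pie × (ℝ × ℝ)} (h : x ∈ VT d d' E E' AC) : 0 < x.1.2 := by
  have h1 : W.t0 ≤ x.1.2 * |x.2.2 - x.2.1| := (hA h.a).2.1
  by_contra hc
  push Not at hc
  have := mul_nonpos_of_nonpos_of_nonneg hc (abs_nonneg (x.2.2 - x.2.1))
  linarith

/-- **good marks** (72's `GoodT`) -/
theorem vt_good {d d' t t' : ℂ} {E E' : En} {W : Wn} (hW : 0 < W.t0) {AC : Set Pie} (hA : AC ⊆ ArV t t' E E' W)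
    {s s' : Pie → ℝ} {r : Pie} (h : (r, (s r, s' r)) ∈ VT d d' E E' AC) : r ∈ GoodT s s' :=
  ⟨h.z, vt_pos hW hA h, h.h0, h.h1, h.h2⟩

/-! ### 5. the marks as functions of the rest -/

/-- **one class of rests, in countably many pairs**: `P i`, `w i` = law and weight of the native class, `T i` = native marks, `S i` =
foreign marks, `B i` = the class is class B of the pair, `F i` = the foreign marks exist and the arc is in the class -/
theorem cls_marks {Γ : Type*} [MeasurableSpace Γ] [StandardBorelSpace Γ] {ι : Type*} [Countable ι]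
    {P : ι → Measure Γ} [∀ i, SFinite (P i)] {w : ι → Γ → ℝ≥0∞} (hw : ∀ i, Measurable (w i)) {r : ι → Γ → Pie}
    (hr : ∀ i, Measurable (r i)) {F : ι → Set Γ} (hF : ∀ i, MeasurableSet (F i)) {q : ι → Γ → ℝ × ℝ}
    (hq : ∀ i, Measurable (q i)) {V : Set (Pie × (ℝ × ℝ))} (hV : MeasurableSet V) {G : ι → Set Γ}
    (hG : ∀ i, ∀ᵐ g ∂(P i), w i g ≠ 0 → g ∈ G i)
    (hGV : ∀ i, ∀ g ∈ G i, w i g ≠ 0 → g ∈ F i → (r i g, q i g) ∈ V)
    (loc : ∀ i j, ∀ g ∈ G i, ∀ g' ∈ G j, w i g ≠ 0 → w j g' ≠ 0 → r i g = r j g' → g ∈ F i →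
      g' ∈ F j ∧ q i g = q j g') :
    ∃ (C : Set Pie) (t t' : Pie → ℝ), MeasurableSet C ∧ Measurable t ∧ Measurable t' ∧ (∀ x ∈ C, (x, (t x, t' x)) ∈ V) ∧
      ∀ i, ∀ᵐ g ∂(P i), w i g ≠ 0 → (r i g ∈ C ↔ g ∈ F i) ∧ (g ∈ F i → t (r i g) = (q i g).1 ∧ t' (r i g) = (q i g).2) := by
  obtain ⟨C, τ, h1, h2, h3, h4⟩ := cls_of hw hr hF hq hV hG hGV loc
  refine ⟨C, fun x => (τ x).1, fun x => (τ x).2, h1, h2.fst, h2.snd, h3, fun i => ?_⟩
  filter_upwards [h4 i] with g hg h0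
  refine ⟨(hg h0).1, fun hF' => ?_⟩
  rw [(hg h0).2 hF']
  exact ⟨rfl, rfl⟩

/-- the relative times of the foreign marks on the rest A -/
noncomputable def rA (T S : M4) : ℝ × ℝ := ((S.1 - T.1) / (T.2.1 - T.1), (S.2.1 - T.1) / (T.2.1 - T.1))

/-- on the rest B -/
noncomputable def rB (T S : M4) : ℝ × ℝ :=
  ((S.2.2.2 - T.2.2.2) / (T.2.2.1 - T.2.2.2), (S.2.2.1 - T.2.2.2) / (T.2.2.1 - T.2.2.2))

lemma rA_meas : Measurable fun q : M4 × M4 => rA q.1 q.2 := by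
  unfold rA
  fun_prop

lemma rB_meas : Measurable fun q : M4 × M4 => rB q.1 q.2 := by
  unfold rB
  fun_prop

lemma div_mem {a b x : ℝ} (hab : a ≠ b) (hx : x ∈ uIcc a b) : (x - a) / (b - a) ∈ Icc (0 : ℝ) 1 := by
  rcases lt_or_gt_of_ne hab with h | h
  · rw [uIcc_of_le h.le] at hx
    have h1 : 0 < b - a := by linarith
    exact ⟨div_nonneg (by linarith [hx.1]) h1.le, (div_le_one h1).2 (by linarith [hx.2])⟩
  · rw [uIcc_of_ge h.le] at hx
    have h1 : b - a < 0 := by linarith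
    refine ⟨div_nonneg_of_nonpos (by linarith [hx.2]) h1.le, ?_⟩
    rw [div_le_one_of_neg h1]
    linarith [hx.1]

/-- **input h1 of `hj_of`**: the class `clsC t t' C` at one curve -/
theorem cls_h1 {g : Gm} {T S : M4} {t t' : Pie → ℝ} {C F : Prop} (hT : T.1 ≠ T.2.1) (s1 : S.1 ∈ uIcc T.1 T.2.1)
    (s2 : S.2.1 ∈ uIcc T.1 T.2.1)
    (h : (C ↔ F) ∧ (F → t (rst g T).1 = (rA T S).1 ∧ t' (rst g T).1 = (rA T S).2)) :
    (C ↔ F) ∧ (F → tau t t' (rst g T).1 = q1At g T S) := by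
  refine ⟨h.1, fun hF => ?_⟩
  obtain ⟨h1, h2⟩ := h.2 hF
  have hne : T.2.1 - T.1 ≠ 0 := fun h => hT (by linarith)
  unfold tau
  rw [h1, h2, q1At_rel (s := (rA T S).1) (s' := (rA T S).2) (div_mem hT s1) (div_mem hT s2)]
  · show S.1 = T.1 + (S.1 - T.1) / (T.2.1 - T.1) * (T.2.1 - T.1)
    rw [div_mul_cancel₀ _ hne]
    ring
  · show S.2.1 = T.1 + (S.2.1 - T.1) / (T.2.1 - T.1) * (T.2.1 - T.1)
    rw [div_mul_cancel₀ _ hne]
    ring

/-- **input h2 of `hj_of`** -/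
theorem cls_h2 {g : Gm} {T S : M4} {t t' : Pie → ℝ} {C F : Prop} (hT : T.2.2.2 ≠ T.2.2.1)
    (s1 : S.2.2.2 ∈ uIcc T.2.2.2 T.2.2.1) (s2 : S.2.2.1 ∈ uIcc T.2.2.2 T.2.2.1)
    (h : (C ↔ F) ∧ (F → t (rst g T).2.1 = (rB T S).1 ∧ t' (rst g T).2.1 = (rB T S).2)) :
    (C ↔ F) ∧ (F → tau t t' (rst g T).2.1 = q2At g T S) := by
  refine ⟨h.1, fun hF => ?_⟩
  obtain ⟨h1, h2⟩ := h.2 hF
  have hne : T.2.2.1 - T.2.2.2 ≠ 0 := fun h => hT (by linarith)
  unfold tau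
  rw [h1, h2, q2At_rel (s := (rB T S).1) (s' := (rB T S).2) (div_mem hT s1) (div_mem hT s2)]
  · show S.2.2.2 = T.2.2.2 + (S.2.2.2 - T.2.2.2) / (T.2.2.1 - T.2.2.2) * (T.2.2.1 - T.2.2.2)
    rw [div_mul_cancel₀ _ hne]
    ring
  · show S.2.2.1 = T.2.2.2 + (S.2.2.1 - T.2.2.2) / (T.2.2.1 - T.2.2.2) * (T.2.2.1 - T.2.2.2)
    rw [div_mul_cancel₀ _ hne]
    ring

/-- equal pieces of a rest of positive duration: equal marks (the locality of the marks from the locality of the pieces) -/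
theorem marks_of_pieces {r : Pie} (hr : 0 < r.2) {s s' u u' : ℝ} (h0 : 0 ≤ s) (h0' : 0 ≤ u) (h1 : s' ≤ 1) (h1' : u' ≤ 1)
    (h : ((pcut r 0 s, pcut r 1 s'), pcut r s s') = ((pcut r 0 u, pcut r 1 u'), pcut r u u')) : s = u ∧ s' = u' := by
  have e1 : r.2 * |s - 0| = r.2 * |u - 0| := congrArg (fun x : QQ => x.2.1.1.2) (congrArg (fun y => (r, y)) h)
  have e2 : r.2 * |s' - 1| = r.2 * |u' - 1| := congrArg (fun x : QQ => x.2.1.2.2) (congrArg (fun y => (r, y)) h)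
  have f1 := mul_left_cancel₀ hr.ne' e1
  have f2 := mul_left_cancel₀ hr.ne' e2
  rw [sub_zero, sub_zero, abs_of_nonneg h0, abs_of_nonneg h0'] at f1
  rw [abs_sub_comm, abs_sub_comm u', abs_of_nonneg (by linarith), abs_of_nonneg (by linarith)] at f2
  exact ⟨f1, by linarith⟩

end Pool.Agent.ROT.F3.CC
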