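import Pool.Agent.ROT.F3CoreB
import Pool.Agent.ROT.F3CoreV

/-!
# ROT, F3, row Core (helper17): one pair of classes from the limit objects

* `dat T g` : (connections, rests, relative position) of the closed curve `g` with the eight marks `T g`;
* **`Jm`** : the joint marks of one pair (statements about times only); **`Jm.hj`** : the field `hj` of `PairIn`;
* **`pair_of`** : `PairIn` for one pair of classes.
-/

set_option autoImplicit false
set_option linter.unusedSectionVars false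

open MeasureTheory Topology Set ProbabilityTheory Filter

open scoped ENNReal

namespace Pool.Agent.ROT.F3.CC

open Pool.Agent.ROT.F3

/-! ### 1. The data -/

/-- (connections, rests, relative position) of a closed curve with eight marks -/
noncomputable def dat (T : Gm → Fin 8 → ℝ) (g : Gm) : (K4 × K4) × (Pie × (Pie × ℂ)) := (kap8 g (T g), rst g (m4 (T g)))

lemma dat_meas {T : Gm → Fin 8 → ℝ} (hT : Measurable T) : Measurable (dat T) :=
  (kap8_meas.comp (measurable_id.prodMk hT)).prodMk (rst_cont.measurable.comp (measurable_id.prodMk (m4_cont.measurable.comp hT)))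

/-! ### 2. The joint marks -/

/-- **the joint marks of one pair of classes** (times only). `μ` = law of the closed curves with two roots; `w0`, `T` = weight and marks
of the native class of the first lattice; `wR`, `S` = weight and marks of the native class of the second lattice (thresholds over the
marks of the first lattice); `F1`, `F2` = the strand A, the strand B has the foreign gates over the marks of the first lattice, `SF` =
these marks; `Ep`, `Eq` = the connections of the second lattice have the native gates of the first lattice, `TF` = these marks;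
`C1`, `t1`, `t1'`, `C2`, `t2`, `t2'` = the same, read off from the rests (`cls_marks`); `Cp`, `fp`, `Cq`, `fq` = the same, read off from
the connections (`cls_of`; `fp`, `fq` = the pieces between the marks) -/
structure Jm (μ : Measure Gm) (w0 wR : Gm → ℝ≥0∞) (T S : Gm → Fin 8 → ℝ) (F1 F2 Ep Eq : Set Gm) (SF TF : Gm → M4)
    (C1 C2 : Set Pie) (t1 t1' t2 t2' : Pie → ℝ) (Cp Cq : Set K4) (fp fq : K4 → Pie × Pie) (Z W : Set ℂ) : Prop where
  h1 : ∀ᵐ g ∂μ, w0 g ≠ 0 → ((rst g (m4 (T g))).1 ∈ C1 ↔ g ∈ F1) ∧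
    (g ∈ F1 → t1 (rst g (m4 (T g))).1 = (rA (m4 (T g)) (SF g)).1 ∧ t1' (rst g (m4 (T g))).1 = (rA (m4 (T g)) (SF g)).2)
  h2 : ∀ᵐ g ∂μ, w0 g ≠ 0 → ((rst g (m4 (T g))).2.1 ∈ C2 ↔ g ∈ F2) ∧
    (g ∈ F2 → t2 (rst g (m4 (T g))).2.1 = (rB (m4 (T g)) (SF g)).1 ∧ t2' (rst g (m4 (T g))).2.1 = (rB (m4 (T g)) (SF g)).2)
  /-- the foreign marks are on the rests -/
  o1 : ∀ᵐ g ∂μ, w0 g ≠ 0 → g ∈ F1 → T g 1 ≠ T g 2 ∧ (SF g).1 ∈ uIcc (T g 1) (T g 2) ∧ (SF g).2.1 ∈ uIcc (T g 1) (T g 2)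
  o2 : ∀ᵐ g ∂μ, w0 g ≠ 0 → g ∈ F2 → T g 6 ≠ T g 5 ∧ (SF g).2.2.2 ∈ uIcc (T g 6) (T g 5) ∧
    (SF g).2.2.1 ∈ uIcc (T g 6) (T g 5)
  h3 : ∀ᵐ g ∂μ, wR g ≠ 0 → ((kap8 g (S g)).1 ∈ Cp ↔ g ∈ Ep) ∧ (g ∈ Ep → fp (kap8 g (S g)).1 = qpAt g (TF g) (m4 (S g)))
  h4 : ∀ᵐ g ∂μ, wR g ≠ 0 → ((kap8 g (S g)).2 ∈ Cq ↔ g ∈ Eq) ∧ (g ∈ Eq → fq (kap8 g (S g)).2 = qqAt g (TF g) (m4 (S g)))
  /-- from the first lattice to the second one -/
  h5 : ∀ᵐ g ∂μ, w0 g ≠ 0 → g ∈ F1 → g ∈ F2 → rst g (SF g) ∈ DD Prod.fst Prod.fst yP yP Z W →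
    w0 g = wR g ∧ g ∈ Ep ∧ g ∈ Eq ∧ m4 (S g) = SF g ∧ TF g = m4 (T g)
  /-- from the second lattice to the first one -/
  h6 : ∀ᵐ g ∂μ, wR g ≠ 0 → g ∈ Ep → g ∈ Eq → rst g (m4 (S g)) ∈ DD Prod.fst Prod.fst yP yP Z W →
    w0 g ≠ 0 ∧ g ∈ F1 ∧ g ∈ F2 ∧ SF g = m4 (S g)

section

variable {μ : Measure Gm} {w0 wR : Gm → ℝ≥0∞} {T S : Gm → Fin 8 → ℝ} {F1 F2 Ep Eq : Set Gm} {SF TF : Gm → M4}
  {C1 C2 : Set Pie} {t1 t1' t2 t2' : Pie → ℝ} {Cp Cq : Set K4} {fp fq : K4 → Pie × Pie} {Z W : Set ℂ}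

/-- **the field `hj` of `PairIn`** -/
theorem Jm.hj (H : Jm μ w0 wR T S F1 F2 Ep Eq SF TF C1 C2 t1 t1' t2 t2' Cp Cq fp fq Z W) :
    ∀ᵐ g ∂μ,
      {g | (dat T g).2 ∈ (clsC t1 t1' C1).C ×ˢ ((clsC t2 t2' C2).C ×ˢ univ) ∧
          pi3 (tht (clsC t1 t1' C1).τ (clsC t2 t2' C2).τ (clsC t1 t1' C1).s (clsC t2 t2' C2).s (dat T g).2) ∈
            DD (clsC t1 t1' C1).g (clsC t2 t2' C2).g (clsC t1 t1' C1).y (clsC t2 t2' C2).y Z W}.indicator w0 g =
        {g | dat S g ∈ (Cp ×ˢ Cq) ×ˢ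
          DD (clsC t1 t1' C1).g (clsC t2 t2' C2).g (clsC t1 t1' C1).y (clsC t2 t2' C2).y Z W}.indicator wR g ∧
      ({g | (dat T g).2 ∈ (clsC t1 t1' C1).C ×ˢ ((clsC t2 t2' C2).C ×ˢ univ) ∧
          pi3 (tht (clsC t1 t1' C1).τ (clsC t2 t2' C2).τ (clsC t1 t1' C1).s (clsC t2 t2' C2).s (dat T g).2) ∈
            DD (clsC t1 t1' C1).g (clsC t2 t2' C2).g (clsC t1 t1' C1).y (clsC t2 t2' C2).y Z W}.indicator w0 g ≠ 0 →
        sh (tht (clsC t1 t1' C1).τ (clsC t2 t2' C2).τ (clsC t1 t1' C1).s (clsC t2 t2' C2).s (dat T g).2) =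
          (phi4 (fp (dat S g).1.1, fq (dat S g).1.2), (dat S g).2)) := by
  refine hj_of (m0 := dat T) (mR := dat S) (q1 := fun g => q1At g (m4 (T g)) (SF g)) (q2 := fun g => q2At g (m4 (T g)) (SF g))
    (qp := fun g => qpAt g (TF g) (m4 (S g))) (qq := fun g => qqAt g (TF g) (m4 (S g))) (F1 := F1) (F2 := F2) (Ep := Ep)
    (Eq := Eq) (fp := fp) (fq := fq) (φ := phi4) ?_ ?_ H.h3 H.h4 ?_ ?_
  · filter_upwards [H.h1, H.o1] with g hg ho hne
    refine ⟨(hg hne).1, fun hF => ?_⟩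
    obtain ⟨a1, a2, a3⟩ := ho hne hF
    exact (cls_h1 (g := g) (T := m4 (T g)) (S := SF g) (t := t1) (t' := t1') a1 a2 a3 (hg hne)).2 hF
  · filter_upwards [H.h2, H.o2] with g hg ho hne
    refine ⟨(hg hne).1, fun hF => ?_⟩
    obtain ⟨a1, a2, a3⟩ := ho hne hF
    exact (cls_h2 (g := g) (T := m4 (T g)) (S := SF g) (t := t2) (t' := t2') a1 a2 a3 (hg hne)).2 hF
  · filter_upwards [H.h5] with g hg hne h1 h2 hD
    have e1 : arcsOf sK sK (q1At g (m4 (T g)) (SF g)) (q2At g (m4 (T g)) (SF g)) (rst g (m4 (T g))).2.2 = rst g (SF g) :=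
      arcs_at g _ _
    have hD' : rst g (SF g) ∈ DD Prod.fst Prod.fst yP yP Z W := by
      rw [← e1]
      exact hD
    obtain ⟨a1, a2, a3, a4, a5⟩ := hg hne h1 h2 hD'
    refine ⟨a1, a2, a3, ?_, ?_⟩
    · show rst g (m4 (S g)) = arcsOf sK sK (q1At g (m4 (T g)) (SF g)) (q2At g (m4 (T g)) (SF g)) (rst g (m4 (T g))).2.2
      rw [e1, a4]
    · show phi4 (qpAt g (TF g) (m4 (S g)), qqAt g (TF g) (m4 (S g))) = _
      rw [a4, a5]
      exact phi_at g _ _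
  · filter_upwards [H.h6] with g hg hne h1 h2 hD
    obtain ⟨a1, a2, a3, a4⟩ := hg hne h1 h2 hD
    refine ⟨a1, a2, a3, ?_⟩
    show arcsOf sK sK (q1At g (m4 (T g)) (SF g)) (q2At g (m4 (T g)) (SF g)) (rst g (m4 (T g))).2.2 = rst g (m4 (S g))
    rw [arcs_at g, a4]

end

/-! ### 3. The pair -/

section pair

variable {μ : Measure Gm} {w0 wR : Gm → ℝ≥0∞} {T S : Gm → Fin 8 → ℝ} {F1 F2 Ep Eq : Set Gm} {SF TF : Gm → M4}
  {C1 C2 : Set Pie} {t1 t1' t2 t2' : Pie → ℝ} {Cp Cq : Set K4} {fp fq : K4 → Pie × Pie} {Z W : Set ℂ}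

/-- **one pair of classes** : densities of the second lattice (`dR`, `dP`: `LevIn.den`, `LevIn.denP` or their monotone versions), limit of
the first lattice (`d0`, `hp0`), the geometry of the rests (`hsub`, from `hsub_prm`), the joint marks (`J`) -/
noncomputable def pair_of {b1 b2 β1 β2 : Measure Pie} (mT : Measurable T) (mS : Measurable S) (mCp : MeasurableSet Cp)
    (mCq : MeasurableSet Cq) (mfp : Measurable fp) (mfq : Measurable fq)
    (fin0 : IsFiniteMeasure ((μ.withDensity w0).map (dat T))) {Z0 W0 : Set ℂ}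
    (d0 : Den ((μ.withDensity w0).map (dat T)) (β1.prod (β2.prod volume)) (DD Prod.fst Prod.fst yP yP Z0 W0) (zw yP yP)
      fun _ => 1)
    (hp0 : (β1.prod (β2.prod volume)).restrict (DD Prod.fst Prod.fst yP yP Z0 W0) ≪
      ((μ.withDensity w0).map (dat T)).map Prod.snd)
    (dR : ∀ Φ : K4 × K4 → ℝ≥0∞, Measurable Φ → Den ((μ.withDensity wR).map (dat S)) (b1.prod (b2.prod volume))
      (DD Prod.fst Prod.fst yP yP Z W) (zw yP yP) Φ)
    (dP : DenP ((μ.withDensity wR).map (dat S)) (b1.prod (b2.prod volume)) (DD Prod.fst Prod.fst yP yP Z W) (zw yP yP)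
      (Cp.indicator fun _ => 1) (Cq.indicator fun _ => 1))
    (hsub : ∀ p : Pie × (Pie × ℂ), p.1 ∈ (clsC t1 t1' C1).C → p.2.1 ∈ (clsC t2 t2' C2).C →
      pi3 (tht (clsC t1 t1' C1).τ (clsC t2 t2' C2).τ (clsC t1 t1' C1).s (clsC t2 t2' C2).s p) ∈
        DD (clsC t1 t1' C1).g (clsC t2 t2' C2).g (clsC t1 t1' C1).y (clsC t2 t2' C2).y Z W →
      p ∈ DD Prod.fst Prod.fst yP yP Z0 W0)
    (J : Jm μ w0 wR T S F1 F2 Ep Eq SF TF C1 C2 t1 t1' t2 t2' Cp Cq fp fq Z W) :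
    PairIn (clsC t1 t1' C1) (clsC t2 t2' C2) β1 β2 b1 b2 volume Z W Gm (K4 × K4) K4 K4 where
  P := μ
  w0 := w0
  wR := wR
  m0 := dat T
  mR := dat S
  D0 := DD Prod.fst Prod.fst yP yP Z0 W0
  Cp := Cp
  Cq := Cq
  f := fun k => phi4 (fp k.1, fq k.2)
  k0 := dat_meas mT
  kR := dat_meas mS
  mCp := mCp
  mCq := mCq
  mf := phi4_meas.comp ((mfp.comp measurable_fst).prodMk (mfq.comp measurable_snd))
  fin := fin0
  hsub := hsub
  d0 := d0
  hp := hp0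
  dR := dR
  dP := dP
  hj := J.hj

end pair

end Pool.Agent.ROT.F3.CC
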