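import Pool.Agent.ROT.F3KRelC

/-!
# ROT / F3JmE (helper82): the conditions at one end of a rest, read to another end point

`a` = `x~`, `b` = `x~'` (the gate of the other end), `c` = `x'` (the end of the rest), `b` between `a` and `c`:
* `stS_shor`, `reK_sub`, **`nrF_sub`** : from the piece `a .. c` to the piece `a .. b`;
* `stS_ext`, **`ra_ext`**, `reK_ext`, **`nrF_ext`** : from `a .. b` to `a .. c`, if the piece `b .. c` is far from `a`;
* `kcF_ball`, **`far_end`** : the piece `x' .. x~'` is in the ball `E.k`, so `b .. c` is at distance at least `D0 - 2 E.k` from `a`.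
-/

set_option autoImplicit false

namespace Pool.Agent.ROT.F3

open ComplexConjugate unitInterval

section

variable {g : C(I, ℂ)} {L : ℝ} {a b c u : I}

lemma BtI.trans_left {a u b c : I} (h : BtI a b c) (hu : BtI a u b) : BtI a u c := by
  rcases h with h | h
  · have h1 := hu.of_le h.1
    exact Or.inl ⟨h1.1, h1.2.trans h.2⟩
  · have h1 := hu.comm.of_le h.2
    exact Or.inr ⟨h.1.trans h1.1, h1.2⟩

lemma BtI.trans_right {a u b c : I} (h : BtI a b c) (hu : BtI b u c) : BtI a u c := by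
  have h1 : BtI c b a := h.comm
  exact (h1.trans_left hu.comm).comm

/-- a point of `a .. c` is before or behind `b` -/
lemma BtI.split {a u b c : I} (h : BtI a b c) (hu : BtI a u c) : BtI a u b ∨ BtI b u c := by
  rcases h with h | h
  · have h1 := hu.of_le (h.1.trans h.2)
    rcases le_total u b with h2 | h2
    · exact Or.inl (Or.inl ⟨h1.1, h2⟩)
    · exact Or.inr (Or.inl ⟨h2, h1.2⟩)
  · have h1 := hu.comm.of_le (h.1.trans h.2)
    rcases le_total u b with h2 | h2
    · exact Or.inr (Or.inr ⟨h1.1, h2⟩)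
    · exact Or.inl (Or.inr ⟨h2, h1.2⟩)

lemma BtI.left (a b : I) : BtI a a b := by
  rcases le_total a b with h | h
  · exact Or.inl ⟨le_rfl, h⟩
  · exact Or.inr ⟨h, le_rfl⟩

lemma BtI.right (a b : I) : BtI a b b := (BtI.left b a).comm

/-! ### 1. Maxima -/

lemma stS_shor {f : ℂ → ℝ} (hf : Continuous f) {x : ℝ} (h : BtI a b c) (hc : stS f (cutc g a c) ≤ x) :
    stS f (cutc g a b) ≤ x := by
  have h1 := stS_bt (g := g) (a := a) (b := c) (x := x) hf
  have h2 := stS_bt (g := g) (a := a) (b := b) (x := x) hf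
  rw [sub_nonpos] at h1 h2
  rw [h2]
  rw [h1] at hc
  exact fun u hu => hc u (h.trans_left hu)

lemma stS_ext {f : ℂ → ℝ} (hf : Continuous f) {x : ℝ} (h : BtI a b c) (hb : stS f (cutc g a b) ≤ x)
    (he : ∀ u, BtI b u c → f (g u - g a) ≤ x) : stS f (cutc g a c) ≤ x := by
  have h1 := stS_bt (g := g) (a := a) (b := c) (x := x) hf
  have h2 := stS_bt (g := g) (a := a) (b := b) (x := x) hf
  rw [sub_nonpos] at h1 h2
  rw [h1]
  rw [h2] at hb
  intro u hu
  rcases h.split hu with h3 | h3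
  · exact hb u h3
  · exact he u h3

lemma reK_sub {d : ℂ} {ρ : ℝ} (hd : ‖d‖ = 1) (h : BtI a b c) (hc : reK d ρ g a c ≤ 0) : reK d ρ g a b ≤ 0 := by
  rw [reK_iff hd] at hc ⊢
  exact fun u hu => hc u (h.trans_left hu)

lemma reK_ext {d : ℂ} {ρ : ℝ} (hd : ‖d‖ = 1) (h : BtI a b c) (hb : reK d ρ g a b ≤ 0)
    (he : ∀ u, BtI b u c → ρ ≤ ‖g u - g a‖) : reK d ρ g a c ≤ 0 := by
  rw [reK_iff hd] at hb ⊢
  intro u hu
  rcases h.split hu with h3 | h3
  · exact hb u h3
  · exact Or.inr (he u h3)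

/-- the cone in the two radii form -/
lemma ra_ext {d : ℂ} {co r0 κ : ℝ} (hd : ‖d‖ = 1) (h0 : 0 ≤ co) (h1 : co ≤ 1) (h : BtI a b c)
    (hb : stS (fRa d co r0) (cutc g a b) ≤ κ) (he : ∀ u, BtI b u c → r0 - κ ≤ ‖g u - g a‖) :
    stS (fRa d co r0) (cutc g a c) ≤ κ := by
  refine stS_ext (fRa_lip hd h0 h1).continuous h hb fun u hu => ?_
  have h3 := he u hu
  unfold fRa
  exact (min_le_right _ _).trans (by linarith)

/-! ### 2. No return -/

lemma cvx_ex (h : BtI a u c) : ∃ s : I, cvx a c s = u := by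
  rcases eq_or_ne a c with e | e
  · subst e
    have h1 := h.of_le le_rfl
    obtain rfl : u = a := le_antisymm h1.2 h1.1
    exact ⟨0, cvx_zero _ _⟩
  · have e0 : (c : ℝ) - a ≠ 0 := fun h => e (Subtype.ext (by linarith))
    have hm : 0 ≤ ((u : ℝ) - a) / (c - a) ∧ ((u : ℝ) - a) / (c - a) ≤ 1 := by
      rcases h with ⟨h1, h2⟩ | ⟨h1, h2⟩
      · have q1 : (a : ℝ) ≤ u := h1
        have q2 : (u : ℝ) ≤ c := h2
        have q3 : 0 < (c : ℝ) - a := lt_of_le_of_ne (by linarith) e0.symm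
        exact ⟨div_nonneg (by linarith) q3.le, (div_le_one q3).2 (by linarith)⟩
      · have q1 : (c : ℝ) ≤ u := h1
        have q2 : (u : ℝ) ≤ a := h2
        have q3 : (c : ℝ) - a < 0 := lt_of_le_of_ne (by linarith) e0
        exact ⟨div_nonneg_of_nonpos (by linarith) q3.le, (div_le_one_of_neg q3).2 (by linarith)⟩
    refine ⟨⟨((u : ℝ) - a) / (c - a), hm⟩, Subtype.ext ?_⟩
    rw [cvx_coe]
    show (1 - ((u : ℝ) - a) / (c - a)) * a + ((u : ℝ) - a) / (c - a) * c = u
    field_simp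
    ring

lemma cvx_btE (a c s : I) : BtI a (cvx a c s) c := by
  have s0 := s.2.1
  have s1 := s.2.2
  rcases le_total a c with h | h
  · have q : (a : ℝ) ≤ c := h
    left
    constructor
    · show (a : ℝ) ≤ (cvx a c s : I)
      rw [cvx_coe]
      nlinarith
    · show ((cvx a c s : I) : ℝ) ≤ c
      rw [cvx_coe]
      nlinarith
  · have q : (c : ℝ) ≤ a := h
    right
    constructor
    · show (c : ℝ) ≤ (cvx a c s : I)
      rw [cvx_coe]
      nlinarith
    · show ((cvx a c s : I) : ℝ) ≤ a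
      rw [cvx_coe]
      nlinarith

/-- **no return in terms of the points** (strict) -/
lemma stN_lt_bt {f k : ℂ → ℝ} (hf : Continuous f) (hk : Continuous k) {x : ℝ} (h : stN f k (cutc g a c) < x) :
    ∃ w, BtI a w c ∧ (∀ u, BtI a u w → f (g u - g a) < x) ∧ ∀ u, BtI w u c → k (g u - g a) < x := by
  obtain ⟨τ, h1, h2⟩ := of_stN hf hk _ h
  have t0 := τ.2.1
  have t1 := τ.2.2
  refine ⟨cvx a c τ, cvx_btE a c τ, fun u hu => ?_, fun u hu => ?_⟩
  · obtain ⟨s, hs⟩ := cvx_ex hu
    have s0 := s.2.1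
    have s1 := s.2.2
    have hm : (s : ℝ) * τ ∈ Set.Icc (0 : ℝ) 1 := ⟨mul_nonneg s0 t0, mul_le_one₀ s1 t0 t1⟩
    have h3 := h1 ⟨(s : ℝ) * τ, hm⟩ (show (s : ℝ) * τ ≤ τ from mul_le_of_le_one_left t0 s1)
    rw [cutc_apply] at h3
    have e : cvx a c ⟨(s : ℝ) * τ, hm⟩ = u := by
      rw [← hs]
      apply Subtype.ext
      rw [cvx_coe, cvx_coe, cvx_coe]
      show (1 - (s : ℝ) * τ) * a + (s : ℝ) * τ * c = _
      ring
    rwa [e] at h3
  · obtain ⟨s, hs⟩ := cvx_ex hu
    have s0 := s.2.1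
    have s1 := s.2.2
    have hm : (τ : ℝ) + s * (1 - τ) ∈ Set.Icc (0 : ℝ) 1 := by
      constructor
      · have := mul_nonneg s0 (sub_nonneg.2 t1)
        linarith
      · nlinarith
    have h3 := h2 ⟨(τ : ℝ) + s * (1 - τ), hm⟩ (show (τ : ℝ) ≤ τ + s * (1 - τ) by
      have := mul_nonneg s0 (sub_nonneg.2 t1)
      linarith)
    rw [cutc_apply] at h3
    have e : cvx a c ⟨(τ : ℝ) + s * (1 - τ), hm⟩ = u := by
      rw [← hs]
      apply Subtype.ext
      rw [cvx_coe, cvx_coe, cvx_coe]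
      show (1 - ((τ : ℝ) + s * (1 - τ))) * a + ((τ : ℝ) + s * (1 - τ)) * c = _
      ring
    rwa [e] at h3

lemma stN_le_bt {f k : ℂ → ℝ} (hf : Continuous f) (hk : Continuous k) {x : ℝ} {w : I} (hw : BtI a w c)
    (h1 : ∀ u, BtI a u w → f (g u - g a) ≤ x) (h2 : ∀ u, BtI w u c → k (g u - g a) ≤ x) : stN f k (cutc g a c) ≤ x := by
  obtain ⟨τ, hτ⟩ := cvx_ex hw
  have t0 := τ.2.1
  have t1 := τ.2.2
  refine stN_le hf hk _ τ (fun s hs => ?_) fun s hs => ?_
  · rw [cutc_apply]
    refine h1 _ ?_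
    rw [← hτ]
    have q : (s : ℝ) ≤ τ := hs
    have s0 := s.2.1
    rcases le_total a c with h | h
    · have q2 : (a : ℝ) ≤ c := h
      left
      constructor
      · show (a : ℝ) ≤ (cvx a c s : I)
        rw [cvx_coe]
        nlinarith
      · show ((cvx a c s : I) : ℝ) ≤ (cvx a c τ : I)
        rw [cvx_coe, cvx_coe]
        nlinarith
    · have q2 : (c : ℝ) ≤ a := h
      right
      constructor
      · show ((cvx a c τ : I) : ℝ) ≤ (cvx a c s : I)
        rw [cvx_coe, cvx_coe]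
        nlinarith
      · show ((cvx a c s : I) : ℝ) ≤ a
        rw [cvx_coe]
        nlinarith
  · rw [cutc_apply]
    refine h2 _ ?_
    rw [← hτ]
    have q : (τ : ℝ) ≤ s := hs
    have s1 := s.2.2
    rcases le_total a c with h | h
    · have q2 : (a : ℝ) ≤ c := h
      left
      constructor
      · show ((cvx a c τ : I) : ℝ) ≤ (cvx a c s : I)
        rw [cvx_coe, cvx_coe]
        nlinarith
      · show ((cvx a c s : I) : ℝ) ≤ c
        rw [cvx_coe]
        nlinarith
    · have q2 : (c : ℝ) ≤ a := h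
      right
      constructor
      · show (c : ℝ) ≤ (cvx a c s : I)
        rw [cvx_coe]
        nlinarith
      · show ((cvx a c s : I) : ℝ) ≤ (cvx a c τ : I)
        rw [cvx_coe, cvx_coe]
        nlinarith

/-- **no return on a shorter piece** whose end is far -/
theorem nrF_sub {d : ℂ} {s : Sr} (hd : ‖d‖ = 1) (h : BtI a b c) (hb : s.bn ≤ ‖g b - g a‖) (hc : nrF d s g a c ≤ 0) :
    nrF d s g a b ≤ 0 := by
  have cf := (fSt_lip (e := s.e) (len := s.len) (hw := s.hw) hd).continuous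
  have ck := (fBn_lip (bn := s.bn)).continuous
  refine le_of_forall_pos_lt_add fun ε hε => ?_
  unfold nrF at hc ⊢
  have h1 : stN (fSt d s.e s.len s.hw) (fBn s.bn) (cutc g a c) < ε / 2 := by linarith
  obtain ⟨w, w1, w2, w3⟩ := stN_lt_bt cf ck h1
  have key : stN (fSt d s.e s.len s.hw) (fBn s.bn) (cutc g a b) ≤ ε / 2 := by
    rcases h.split w1 with h2 | h2
    · exact stN_le_bt cf ck h2 (fun u hu => (w2 u hu).le) fun u hu => (w3 u (by
        rcases h.split w1 with _ | _
        all_goals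
          have h3 : BtI w b c := by
            rcases h with h | h
            · exact Or.inl ⟨(h2.of_le h.1).2, h.2⟩
            · exact Or.inr ⟨h.1, (h2.comm.of_le h.2).1⟩
          exact h3.trans_left hu)).le
    · refine stN_le_bt cf ck (BtI.right a b) (fun u hu => (w2 u ?_).le) fun u hu => ?_
      · have h3 : BtI a b w := by
          rcases h with h | h
          · exact Or.inl ⟨h.1, (h2.of_le h.2).1⟩
          · exact Or.inr ⟨(h2.comm.of_le h.1).2, h.2⟩
        exact h3.trans_left hu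
      · have e : u = b := le_antisymm (hu.of_le le_rfl).2 (hu.of_le le_rfl).1
        subst e
        unfold fBn
        linarith
  linarith

/-- **no return on a longer piece** -/
theorem nrF_ext {d : ℂ} {s : Sr} (hd : ‖d‖ = 1) (h : BtI a b c) (hb : nrF d s g a b ≤ 0)
    (he : ∀ u, BtI b u c → s.bn ≤ ‖g u - g a‖) : nrF d s g a c ≤ 0 := by
  have cf := (fSt_lip (e := s.e) (len := s.len) (hw := s.hw) hd).continuous
  have ck := (fBn_lip (bn := s.bn)).continuous
  refine le_of_forall_pos_lt_add fun ε hε => ?_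
  unfold nrF at hb ⊢
  have h1 : stN (fSt d s.e s.len s.hw) (fBn s.bn) (cutc g a b) < ε / 2 := by linarith
  obtain ⟨w, w1, w2, w3⟩ := stN_lt_bt cf ck h1
  have hw : BtI a w c := h.trans_left w1
  have hwb : BtI w b c := by
    rcases h with h | h
    · exact Or.inl ⟨(w1.of_le h.1).2, h.2⟩
    · exact Or.inr ⟨h.1, (w1.comm.of_le h.2).1⟩
  have key : stN (fSt d s.e s.len s.hw) (fBn s.bn) (cutc g a c) ≤ ε / 2 := by
    refine stN_le_bt cf ck hw (fun u hu => (w2 u hu).le) fun u hu => ?_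
    rcases hwb.split hu with h3 | h3
    · exact (w3 u h3).le
    · have := he u h3
      unfold fBn
      linarith
  linarith

/-! ### 3. The pieces `k` -/

/-- the piece `x .. x~` is in the ball of radius `E.k` around `x` -/
lemma kcF_ball {d t : ℂ} {E : En} {x w z : I} (ho : BtI x w z) (h : kcF d t E g L x w z ≤ 0) (hr2 : 0 ≤ E.f.r2) :
    ∀ u, BtI x u z → ‖g u - g x‖ ≤ E.k := by
  unfold kcF at h
  simp only [max_le_iff] at h
  obtain ⟨⟨⟨h1, h2⟩, -, -⟩, -, -⟩ := h
  rw [stS_bt continuous_norm] at h1 h2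
  intro u hu
  show ‖g u - g x‖ ≤ E.rk + E.f.r2
  rcases ho.split hu with h3 | h3
  · have := h1 u h3
    linarith
  · have n1 := h2 u h3
    have n2 := h1 w (BtI.right x w)
    have e : g u - g x = (g w - g x) + (g u - g w) := by ring
    rw [e]
    exact (norm_add_le _ _).trans (add_le_add n2 n1)

/-- **the piece `x~' .. x'` is far from `x~`** -/
theorem far_end {d t : ℂ} {E : En} {D : ℝ} {w : I} (ho : BtI c w b) (h : kcF d t E g L c w b ≤ 0) (hr2 : 0 ≤ E.f.r2)
    (hD : D ≤ ‖g b - g a‖) : ∀ u, BtI b u c → D - 2 * E.k ≤ ‖g u - g a‖ := by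
  intro u hu
  have k1 := kcF_ball ho h hr2 u hu.comm
  have k2 := kcF_ball ho h hr2 b (BtI.right c b)
  have e : g b - g a = (g u - g a) - (g u - g c) + (g b - g c) := by ring
  have n1 := norm_add_le ((g u - g a) - (g u - g c)) (g b - g c)
  rw [← e] at n1
  have n2 := norm_sub_le (g u - g a) (g u - g c)
  linarith

end

end Pool.Agent.ROT.F3
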