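import Mathlib

/-!
# F3, limit side (helper90): functionals of words which are in the limit functions of the curve

A system: finite measures `P i` on `Ω i`, curves `c i : Ω i → X` (`X` Polish), `law (c i) → ν` along the filter `l` (`Cv`).
* `L1A p` : the functional `p` is, up to `ε` in `L¹(P i)`, a bounded continuous function of the curve;
* `Lm p Φ` : strong convergence: `‖Φ - φ‖_{L¹(ν)} ≤ ε` and eventually `‖p - φ ∘ c‖_{L¹(P i)} ≤ ε` for some bounded continuous `φ`;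
* **`L1A.lim`** : every `L1A` functional has a limit; `Lm.unique`, `Lm.tendsto`;
* **`Lm.comp`** : `F (c, p₁, .., pₘ) → F (g, Φ₁, .., Φₘ)` for `F` continuous; sums, products; `Lm.closed`;
* **`Lm.bdry`** : indicators of Borel sets with `ν`-null boundary; `Lm.level` : `1[a ≤ p] → 1[a ≤ Φ]` for `ν {Φ = a} = 0`;
* `Cv.push`, `Lm.pull` : another curve `c' = F (c, p)`; `Cv.wt`, `Lm.wt` : another weight; `Lm.of_le` : smaller measures;
* **`Lm.fub`** : over a product law a functional of the second factor is a function of the second curve.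
-/

set_option autoImplicit false
set_option linter.unusedSectionVars false

open MeasureTheory Filter Topology Set BoundedContinuousFunction
open scoped ENNReal NNReal

namespace Pool.Agent.ROT.F3.LF

variable {ι : Type*} {l : Filter ι} {Ω : ι → Type*} [∀ i, MeasurableSpace (Ω i)] {P : ∀ i, Measure (Ω i)}
  {X : Type*} [PseudoMetricSpace X] [MeasurableSpace X] [BorelSpace X] {c : ∀ i, Ω i → X} {ν : Measure X}

lemma itg {α : Type*} [MeasurableSpace α] {μ : Measure α} [IsFiniteMeasure μ] {f : α → ℝ} (hf : Measurable f) {C : ℝ}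
    (h : ∀ x, |f x| ≤ C) : Integrable f μ :=
  Integrable.of_bound hf.aestronglyMeasurable C (Eventually.of_forall fun x => by rw [Real.norm_eq_abs]; exact h x)

lemma int3 {α : Type*} [MeasurableSpace α] {μ : Measure α} {f g h : α → ℝ} (hf : Integrable f μ) (hg : Integrable g μ)
    (hh : Integrable h μ) : ∫ x, (f x + g x + h x) ∂μ = ∫ x, f x ∂μ + ∫ x, g x ∂μ + ∫ x, h x ∂μ := by
  rw [← integral_add hf hg]
  exact integral_add (hf.add hg) hh

/-- the laws of the curves converge -/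
structure Cv (l : Filter ι) (P : ∀ i, Measure (Ω i)) (c : ∀ i, Ω i → X) (ν : Measure X) : Prop where
  fin : ∀ i, IsFiniteMeasure (P i)
  fin' : IsFiniteMeasure ν
  ms : ∀ i, Measurable (c i)
  lim : ∀ G : X →ᵇ ℝ, Tendsto (fun i => ∫ ω, G (c i ω) ∂P i) l (𝓝 (∫ x, G x ∂ν))

/-- the functional is, up to small errors in `L¹`, a function of the curve -/
def L1A (l : Filter ι) (P : ∀ i, Measure (Ω i)) (c : ∀ i, Ω i → X) (p : ∀ i, Ω i → ℝ) : Prop :=
  (∀ i, Measurable (p i)) ∧ (∃ C : ℝ, ∀ i ω, |p i ω| ≤ C) ∧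
    ∀ ε : ℝ, 0 < ε → ∃ φ : X →ᵇ ℝ, ∀ᶠ i in l, ∫ ω, |p i ω - φ (c i ω)| ∂P i ≤ ε

/-- strong convergence to a function of the limit curve -/
structure Lm (l : Filter ι) (P : ∀ i, Measure (Ω i)) (c : ∀ i, Ω i → X) (ν : Measure X) (p : ∀ i, Ω i → ℝ)
    (Φ : X → ℝ) : Prop where
  ms : ∀ i, Measurable (p i)
  bd : ∃ C : ℝ, ∀ i ω, |p i ω| ≤ C
  ms' : Measurable Φ
  bd' : ∃ C : ℝ, ∀ x, |Φ x| ≤ C
  ap : ∀ ε : ℝ, 0 < ε → ∃ φ : X →ᵇ ℝ, ∫ x, |Φ x - φ x| ∂ν ≤ ε ∧ ∀ᶠ i in l, ∫ ω, |p i ω - φ (c i ω)| ∂P i ≤ ε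

lemma Lm.l1a {p : ∀ i, Ω i → ℝ} {Φ : X → ℝ} (h : Lm l P c ν p Φ) : L1A l P c p :=
  ⟨h.ms, h.bd, fun ε hε => by
    obtain ⟨φ, -, h2⟩ := h.ap ε hε
    exact ⟨φ, h2⟩⟩

section basic

lemma Cv.mass (h : Cv l P c ν) : Tendsto (fun i => (P i).real univ) l (𝓝 (ν.real univ)) := by
  have h1 := h.lim (BoundedContinuousFunction.const X 1)
  simpa using h1

lemma Cv.bd (h : Cv l P c ν) : ∃ B : ℝ, 0 < B ∧ ν.real univ ≤ B ∧ ∀ᶠ i in l, (P i).real univ ≤ B := by
  refine ⟨ν.real univ + 1, by positivity, by linarith, ?_⟩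
  filter_upwards [h.mass.eventually (gt_mem_nhds (lt_add_one (ν.real univ)))] with i hi
  exact hi.le

lemma bcf_bd (φ : X →ᵇ ℝ) : ∀ x, |φ x| ≤ ‖φ‖ := fun x => φ.norm_coe_le_norm x

lemma int_bcf (hf : IsFiniteMeasure ν) (φ : X →ᵇ ℝ) : Integrable (fun x => φ x) ν :=
  itg φ.continuous.measurable (bcf_bd φ)

lemma Cv.int_c (h : Cv l P c ν) (φ : X →ᵇ ℝ) (i : ι) : Integrable (fun ω => φ (c i ω)) (P i) := by
  have := h.fin i
  exact itg (φ.continuous.measurable.comp (h.ms i)) fun ω => bcf_bd φ _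

/-- a compact set which carries almost everything -/
lemma Cv.tight [CompleteSpace X] [SecondCountableTopology X] (h : Cv l P c ν) {ε : ℝ} (hε : 0 < ε) :
    ∃ K : Set X, IsCompact K ∧ ∀ δ : ℝ, 0 < δ → ∃ G : X →ᵇ ℝ, (∀ x, 0 ≤ G x ∧ G x ≤ 1) ∧
      (∀ x, x ∉ Metric.thickening δ K → G x = 1) ∧ ∫ x, G x ∂ν ≤ ε ∧ ∀ᶠ i in l, ∫ ω, G (c i ω) ∂P i ≤ ε := by
  have := h.fin'
  obtain ⟨K, hK, h1⟩ := (isTightMeasureSet_iff_exists_isCompact_measure_compl_le.1 (isTightMeasureSet_singleton (μ := ν)))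
    (ENNReal.ofReal (ε / 2)) (ENNReal.ofReal_pos.2 (by positivity))
  have h2 := h1 ν rfl
  refine ⟨closure K, hK.closure, fun δ hδ => ?_⟩
  have hc : Continuous fun x => (1 : ℝ) - (thickenedIndicator hδ (closure K) x : ℝ) :=
    continuous_const.sub (NNReal.continuous_coe.comp (thickenedIndicator hδ (closure K)).continuous)
  have hb : ∀ x, (0 : ℝ) ≤ 1 - (thickenedIndicator hδ (closure K) x : ℝ) ∧ 1 - (thickenedIndicator hδ (closure K) x : ℝ) ≤ 1 := by
    intro x
    have h3 : (thickenedIndicator hδ (closure K) x : ℝ) ≤ 1 := by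
      exact_mod_cast thickenedIndicator_le_one hδ (closure K) x
    have h4 : (0 : ℝ) ≤ (thickenedIndicator hδ (closure K) x : ℝ) := NNReal.coe_nonneg _
    constructor <;> linarith
  refine ⟨BoundedContinuousFunction.ofNormedAddCommGroup _ hc 1 fun x => ?_, hb, fun x hx => ?_, ?_, ?_⟩
  · rw [Real.norm_eq_abs, abs_le]
    constructor <;> linarith [(hb x).1, (hb x).2]
  · show (1 : ℝ) - (thickenedIndicator hδ (closure K) x : ℝ) = 1
    rw [thickenedIndicator_zero hδ _ hx]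
    simp
  all_goals
    have hν : ∫ x, (BoundedContinuousFunction.ofNormedAddCommGroup _ hc 1 fun x => by
        rw [Real.norm_eq_abs, abs_le]
        constructor <;> linarith [(hb x).1, (hb x).2]) x ∂ν ≤ ε / 2 := by
      have h5 : ∀ x, (1 : ℝ) - (thickenedIndicator hδ (closure K) x : ℝ) ≤ ((closure K)ᶜ).indicator (fun _ => (1 : ℝ)) x := by
        intro x
        by_cases hx : x ∈ closure K
        · rw [indicator_of_notMem (by simpa using hx), thickenedIndicator_one hδ _ hx]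
          simp
        · rw [indicator_of_mem (by simpa using hx)]
          exact (hb x).2
      have hm : MeasurableSet (closure K)ᶜ := isClosed_closure.measurableSet.compl
      calc ∫ x, (1 : ℝ) - (thickenedIndicator hδ (closure K) x : ℝ) ∂ν
          ≤ ∫ x, ((closure K)ᶜ).indicator (fun _ => (1 : ℝ)) x ∂ν :=
            integral_mono (itg (C := 1) hc.measurable fun x => by
              rw [abs_le]
              constructor <;> linarith [(hb x).1, (hb x).2]) ((integrable_const 1).indicator hm) h5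
        _ = ν.real (closure K)ᶜ := by rw [integral_indicator_const _ hm, smul_eq_mul, mul_one]
        _ ≤ ε / 2 := by
            refine ENNReal.toReal_le_of_le_ofReal (by positivity) ((measure_mono ?_).trans h2)
            exact compl_subset_compl.2 subset_closure
  · linarith
  · have h6 := h.lim (BoundedContinuousFunction.ofNormedAddCommGroup _ hc 1 fun x => by
        rw [Real.norm_eq_abs, abs_le]
        constructor <;> linarith [(hb x).1, (hb x).2])
    filter_upwards [h6.eventually (gt_mem_nhds (lt_of_le_of_lt hν (by linarith : ε / 2 < ε)))] with i hi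
    exact hi.le

end basic

/-! ### uniqueness, convergence -/

section conv

variable {p p' : ∀ i, Ω i → ℝ} {Φ Φ' : X → ℝ}

lemma Lm.int (h : Lm l P c ν p Φ) (hC : Cv l P c ν) (i : ι) : Integrable (p i) (P i) := by
  have := hC.fin i
  obtain ⟨C, hb⟩ := h.bd
  exact itg (h.ms i) (hb i)

lemma Lm.int' (h : Lm l P c ν p Φ) (hC : Cv l P c ν) : Integrable Φ ν := by
  have := hC.fin'
  obtain ⟨C, hb⟩ := h.bd'
  exact itg h.ms' hb

/-- distance of two limits -/
theorem Lm.dist_le [l.NeBot] (hC : Cv l P c ν) (h : Lm l P c ν p Φ) (h' : Lm l P c ν p' Φ') {e : ℝ}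
    (he : ∀ᶠ i in l, ∫ ω, |p i ω - p' i ω| ∂P i ≤ e) : ∫ x, |Φ x - Φ' x| ∂ν ≤ e := by
  have := hC.fin'
  refine le_of_forall_pos_le_add fun ε hε => ?_
  obtain ⟨φ, a1, a2⟩ := h.ap (ε / 4) (by positivity)
  obtain ⟨φ', b1, b2⟩ := h'.ap (ε / 4) (by positivity)
  have hψ : Continuous fun x => |φ x - φ' x| := (φ.continuous.sub φ'.continuous).abs
  have hψb : ∀ x, ‖|φ x - φ' x|‖ ≤ ‖φ‖ + ‖φ'‖ := fun x => by
    rw [Real.norm_eq_abs, abs_abs]
    exact (abs_sub _ _).trans (add_le_add (bcf_bd φ x) (bcf_bd φ' x))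
  have h1 := hC.lim (BoundedContinuousFunction.ofNormedAddCommGroup _ hψ _ hψb)
  have h2 : ∫ x, |φ x - φ' x| ∂ν ≤ e + ε / 2 := by
    refine le_of_tendsto h1 ?_
    filter_upwards [a2, b2, he] with i i1 i2 i3
    have := hC.fin i
    have j1 : Integrable (fun ω => |p i ω - φ (c i ω)|) (P i) := ((h.int hC i).sub (hC.int_c φ i)).abs
    have j2 : Integrable (fun ω => |p' i ω - φ' (c i ω)|) (P i) := ((h'.int hC i).sub (hC.int_c φ' i)).abs
    have j3 : Integrable (fun ω => |p i ω - p' i ω|) (P i) := ((h.int hC i).sub (h'.int hC i)).abs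
    have j4 : Integrable (fun ω => |φ (c i ω) - φ' (c i ω)|) (P i) := ((hC.int_c φ i).sub (hC.int_c φ' i)).abs
    calc ∫ ω, |φ (c i ω) - φ' (c i ω)| ∂P i
        ≤ ∫ ω, (|p i ω - φ (c i ω)| + |p i ω - p' i ω| + |p' i ω - φ' (c i ω)|) ∂P i := by
          refine integral_mono j4 ((j1.add j3).add j2) fun ω => ?_
          have k1 := abs_sub_le (φ (c i ω)) (p i ω) (φ' (c i ω))
          have k2 := abs_sub_le (p i ω) (p' i ω) (φ' (c i ω))
          rw [abs_sub_comm (φ (c i ω)) (p i ω)] at k1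
          show |φ (c i ω) - φ' (c i ω)| ≤ |p i ω - φ (c i ω)| + |p i ω - p' i ω| + |p' i ω - φ' (c i ω)|
          linarith
      _ = ∫ ω, |p i ω - φ (c i ω)| ∂P i + ∫ ω, |p i ω - p' i ω| ∂P i + ∫ ω, |p' i ω - φ' (c i ω)| ∂P i := by
          exact int3 j1 j3 j2
      _ ≤ _ := by linarith
  have k1 : Integrable (fun x => |Φ x - φ x|) ν := ((h.int' hC).sub (int_bcf hC.fin' φ)).abs
  have k2 : Integrable (fun x => |Φ' x - φ' x|) ν := ((h'.int' hC).sub (int_bcf hC.fin' φ')).abs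
  have k3 : Integrable (fun x => |φ x - φ' x|) ν := ((int_bcf hC.fin' φ).sub (int_bcf hC.fin' φ')).abs
  calc ∫ x, |Φ x - Φ' x| ∂ν ≤ ∫ x, (|Φ x - φ x| + |φ x - φ' x| + |Φ' x - φ' x|) ∂ν := by
        refine integral_mono ((h.int' hC).sub (h'.int' hC)).abs ((k1.add k3).add k2) fun x => ?_
        have g1 := abs_sub_le (Φ x) (φ x) (Φ' x)
        have g2 := abs_sub_le (φ x) (φ' x) (Φ' x)
        rw [abs_sub_comm (φ' x) (Φ' x)] at g2
        show |Φ x - Φ' x| ≤ |Φ x - φ x| + |φ x - φ' x| + |Φ' x - φ' x|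
        linarith
    _ = ∫ x, |Φ x - φ x| ∂ν + ∫ x, |φ x - φ' x| ∂ν + ∫ x, |Φ' x - φ' x| ∂ν := by
        exact int3 k1 k3 k2
    _ ≤ _ := by linarith

/-- **the limit is unique** -/
theorem Lm.unique [l.NeBot] (hC : Cv l P c ν) (h : Lm l P c ν p Φ) (h' : Lm l P c ν p Φ') : Φ =ᵐ[ν] Φ' := by
  have h1 := h.dist_le hC h' (e := 0) (Eventually.of_forall fun i => by simp)
  have h2 : ∫ x, |Φ x - Φ' x| ∂ν = 0 := le_antisymm h1 (integral_nonneg fun x => abs_nonneg _)
  have h3 := (integral_eq_zero_iff_of_nonneg (fun x => abs_nonneg _) ((h.int' hC).sub (h'.int' hC)).abs).1 h2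
  filter_upwards [h3] with x hx
  have : |Φ x - Φ' x| = 0 := hx
  linarith [abs_eq_zero.1 this]

/-- **convergence of the integrals** -/
theorem Lm.tendsto (hC : Cv l P c ν) (h : Lm l P c ν p Φ) : Tendsto (fun i => ∫ ω, p i ω ∂P i) l (𝓝 (∫ x, Φ x ∂ν)) := by
  have := hC.fin'
  rw [Metric.tendsto_nhds]
  intro ε hε
  obtain ⟨φ, a1, a2⟩ := h.ap (ε / 4) (by positivity)
  filter_upwards [a2, (Metric.tendsto_nhds.1 (hC.lim φ)) (ε / 4) (by positivity)] with i i1 i2
  have := hC.fin i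
  have j1 : |∫ ω, p i ω ∂P i - ∫ ω, φ (c i ω) ∂P i| ≤ ε / 4 := by
    rw [← integral_sub (h.int hC i) (hC.int_c φ i)]
    exact (abs_integral_le_integral_abs).trans i1
  have j2 : |∫ x, Φ x ∂ν - ∫ x, φ x ∂ν| ≤ ε / 4 := by
    rw [← integral_sub (h.int' hC) (int_bcf hC.fin' φ)]
    exact (abs_integral_le_integral_abs).trans a1
  rw [Real.dist_eq] at i2 ⊢
  have j3 := abs_lt.1 i2
  have j4 := abs_le.1 j1
  have j5 := abs_le.1 j2
  rw [abs_lt]
  constructor <;> linarith

/-- **closed under `L¹` limits** -/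
theorem Lm.closed (hC : Cv l P c ν) (m : ∀ i, Measurable (p i)) (b : ∃ C : ℝ, ∀ i ω, |p i ω| ≤ C) (m' : Measurable Φ)
    (b' : ∃ C : ℝ, ∀ x, |Φ x| ≤ C) (h : ∀ ε : ℝ, 0 < ε → ∃ (q : ∀ i, Ω i → ℝ) (Ψ : X → ℝ), Lm l P c ν q Ψ ∧
      ∫ x, |Φ x - Ψ x| ∂ν ≤ ε ∧ ∀ᶠ i in l, ∫ ω, |p i ω - q i ω| ∂P i ≤ ε) : Lm l P c ν p Φ := by
  refine ⟨m, b, m', b', fun ε hε => ?_⟩
  have := hC.fin'
  obtain ⟨q, Ψ, h1, h2, h3⟩ := h (ε / 2) (by positivity)
  obtain ⟨φ, h4, h5⟩ := h1.ap (ε / 2) (by positivity)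
  have hi' : Integrable Φ ν := by
    obtain ⟨C, hb⟩ := b'
    exact itg m' hb
  refine ⟨φ, ?_, ?_⟩
  · have k1 : Integrable (fun x => |Φ x - Ψ x|) ν := (hi'.sub (h1.int' hC)).abs
    have k2 : Integrable (fun x => |Ψ x - φ x|) ν := ((h1.int' hC).sub (int_bcf hC.fin' φ)).abs
    calc ∫ x, |Φ x - φ x| ∂ν ≤ ∫ x, (|Φ x - Ψ x| + |Ψ x - φ x|) ∂ν :=
          integral_mono (hi'.sub (int_bcf hC.fin' φ)).abs (k1.add k2) fun x => abs_sub_le _ _ _
      _ = _ := integral_add k1 k2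
      _ ≤ ε := by linarith
  · filter_upwards [h3, h5] with i i3 i5
    have := hC.fin i
    have hi : Integrable (p i) (P i) := by
      obtain ⟨C, hb⟩ := b
      exact itg (m i) (hb i)
    have k1 : Integrable (fun ω => |p i ω - q i ω|) (P i) := (hi.sub (h1.int hC i)).abs
    have k2 : Integrable (fun ω => |q i ω - φ (c i ω)|) (P i) := ((h1.int hC i).sub (hC.int_c φ i)).abs
    calc ∫ ω, |p i ω - φ (c i ω)| ∂P i ≤ ∫ ω, (|p i ω - q i ω| + |q i ω - φ (c i ω)|) ∂P i :=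
          integral_mono (hi.sub (hC.int_c φ i)).abs (k1.add k2) fun ω => abs_sub_le _ _ _
      _ = _ := integral_add k1 k2
      _ ≤ ε := by linarith

/-- a continuous function of the curve -/
lemma Lm.cont (hC : Cv l P c ν) (G : X →ᵇ ℝ) : Lm l P c ν (fun i ω => G (c i ω)) G :=
  ⟨fun i => G.continuous.measurable.comp (hC.ms i), ⟨‖G‖, fun i ω => bcf_bd G _⟩, G.continuous.measurable,
    ⟨‖G‖, bcf_bd G⟩, fun ε hε => ⟨G, by simpa using hε.le, Eventually.of_forall fun i => by simpa using hε.le⟩⟩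

lemma Lm.const (hC : Cv l P c ν) (a : ℝ) : Lm l P c ν (fun _ _ => a) fun _ => a :=
  Lm.cont hC (BoundedContinuousFunction.const X a)

end conv

/-! ### continuous functions of the curve and of the functionals -/

section comp

variable [CompleteSpace X] [SecondCountableTopology X] {κ : Type*} [Fintype κ]

/-- the estimate for a continuous function near a compact set -/
lemma ctl {F : X × (κ → ℝ) → ℝ} (hF : Continuous F) {B : ℝ} (hB : ∀ z, |F z| ≤ B) {K : Set X} (hK : IsCompact K)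
    {ε : ℝ} (hε : 0 < ε) (C : ℝ) : ∃ δ : ℝ, 0 < δ ∧ ∀ G : X → ℝ, (∀ x, 0 ≤ G x) →
      (∀ x, x ∉ Metric.thickening δ K → G x = 1) → ∀ (x : X) (y y' : κ → ℝ), (∀ k, |y k| ≤ C) →
        |F (x, y) - F (x, y')| ≤ 2 * ε + 2 * B * G x + 2 * B / δ * ∑ k, |y k - y' k| := by
  have hJ : IsCompact (K ×ˢ Set.pi (univ : Set κ) fun _ => Icc (-C) C) := hK.prod (isCompact_univ_pi fun _ => isCompact_Icc)
  have hu := hJ.uniformContinuousAt_of_continuousAt F (fun a _ => hF.continuousAt) (Metric.dist_mem_uniformity hε)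
  obtain ⟨δ, hδ, h1⟩ := Metric.mem_uniformity_dist.1 hu
  refine ⟨δ, hδ, fun G hG0 hG1 x y y' hy => ?_⟩
  have hB0 : 0 ≤ B := (abs_nonneg _).trans (hB (x, y))
  have hS : 0 ≤ ∑ k, |y k - y' k| := Finset.sum_nonneg fun k _ => abs_nonneg _
  have hbig : |F (x, y) - F (x, y')| ≤ 2 * B := (abs_sub _ _).trans (by linarith [hB (x, y), hB (x, y')])
  have t1 : 0 ≤ 2 * B * G x := mul_nonneg (by linarith) (hG0 x)
  have t2 : 0 ≤ 2 * B / δ * ∑ k, |y k - y' k| := mul_nonneg (by positivity) hS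
  by_cases hx : x ∈ Metric.thickening δ K
  · by_cases hk : ∀ k, |y k - y' k| < δ
    · obtain ⟨x0, hx0, hd⟩ := Metric.mem_thickening_iff.1 hx
      have hz : (x0, y) ∈ K ×ˢ Set.pi (univ : Set κ) fun _ => Icc (-C) C :=
        ⟨hx0, fun k _ => ⟨(abs_le.1 (hy k)).1, (abs_le.1 (hy k)).2⟩⟩
      have d1 : dist (x0, y) (x, y) < δ := by
        rw [Prod.dist_eq]
        refine max_lt (by rw [dist_comm]; exact hd) ?_
        rw [dist_self]
        exact hδ
      have d2 : dist (x0, y) (x, y') < δ := by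
        rw [Prod.dist_eq]
        refine max_lt (by rw [dist_comm]; exact hd) ?_
        exact (dist_pi_lt_iff hδ).2 fun k => by rw [Real.dist_eq]; exact hk k
      have e1 := h1 d1 hz
      have e2 := h1 d2 hz
      simp only [mem_ofPred_eq, Real.dist_eq] at e1 e2
      have e3 := abs_sub_le (F (x, y)) (F (x0, y)) (F (x, y'))
      rw [abs_sub_comm (F (x, y)) (F (x0, y))] at e3
      linarith
    · push Not at hk
      obtain ⟨k, hk⟩ := hk
      have h2 : δ ≤ ∑ k, |y k - y' k| := hk.trans (Finset.single_le_sum (f := fun k => |y k - y' k|) (fun _ _ => abs_nonneg _)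
        (Finset.mem_univ k))
      have h3 : 2 * B ≤ 2 * B / δ * ∑ k, |y k - y' k| := by
        rw [div_mul_eq_mul_div, le_div_iff₀ hδ]
        exact mul_le_mul_of_nonneg_left h2 (by linarith)
      linarith
  · rw [hG1 x hx]
    linarith

omit [CompleteSpace X] [SecondCountableTopology X] in
/-- integral form of the estimate -/
lemma int_ctl {α : Type*} [MeasurableSpace α] {μ : Measure α} [IsFiniteMeasure μ] {f g : α → ℝ} {q q' : α → κ → ℝ}
    {ε m0 B δ e : ℝ} (hε : 0 < ε) (hm0 : 0 < m0) (hB : 0 ≤ B) (hδ : 0 < δ)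
    (hed : e = min (ε / (6 * (B + 1))) (ε * δ / (6 * (B + 1) * (Fintype.card κ + 1))))
    (hf : Integrable f μ) (hg : Integrable g μ) (hq : ∀ k, Integrable (fun ω => |q ω k - q' ω k|) μ)
    (h1 : ∀ ω, |f ω| ≤ 2 * (ε / (6 * m0)) + 2 * B * g ω + 2 * B / δ * ∑ k, |q ω k - q' ω k|) (h2 : μ.real univ ≤ m0)
    (h3 : ∫ ω, g ω ∂μ ≤ ε / (6 * (B + 1))) (h4 : ∀ k, ∫ ω, |q ω k - q' ω k| ∂μ ≤ e) : ∫ ω, |f ω| ∂μ ≤ ε := by
  have hfin : 2 * (ε / (6 * m0)) * m0 + 2 * B * (ε / (6 * (B + 1))) +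
      2 * B / δ * (Fintype.card κ * (ε * δ / (6 * (B + 1) * (Fintype.card κ + 1)))) ≤ ε := by
    have f1 : 2 * (ε / (6 * m0)) * m0 = ε / 3 := by field_simp; ring
    have f2 : 2 * B * (ε / (6 * (B + 1))) ≤ ε / 3 := by
      have : 2 * B * (ε / (6 * (B + 1))) = ε / 3 * (B / (B + 1)) := by field_simp; ring
      rw [this]
      exact mul_le_of_le_one_right (by positivity) ((div_le_one (by positivity)).2 (by linarith))
    have f3 : 2 * B / δ * (Fintype.card κ * (ε * δ / (6 * (B + 1) * (Fintype.card κ + 1)))) ≤ ε / 3 := by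
      have : 2 * B / δ * (Fintype.card κ * (ε * δ / (6 * (B + 1) * (Fintype.card κ + 1)))) =
          ε / 3 * ((B / (B + 1)) * (Fintype.card κ / (Fintype.card κ + 1))) := by field_simp; ring
      rw [this]
      refine mul_le_of_le_one_right (by positivity) (mul_le_one₀ ((div_le_one (by positivity)).2 (by linarith))
        (by positivity) ((div_le_one (by positivity)).2 (by linarith)))
    linarith
  have i3 : Integrable (fun ω => ∑ k, |q ω k - q' ω k|) μ := integrable_finsetSum _ fun k _ => hq k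
  have h5 : ∑ k, ∫ ω, |q ω k - q' ω k| ∂μ ≤ Fintype.card κ * (ε * δ / (6 * (B + 1) * (Fintype.card κ + 1))) := by
    calc ∑ k, ∫ ω, |q ω k - q' ω k| ∂μ ≤ ∑ _k : κ, (ε * δ / (6 * (B + 1) * (Fintype.card κ + 1))) :=
          Finset.sum_le_sum fun k _ => (h4 k).trans (by rw [hed]; exact min_le_right _ _)
      _ = _ := by rw [Finset.sum_const, Finset.card_univ, nsmul_eq_mul]
  calc ∫ ω, |f ω| ∂μ ≤ ∫ ω, (2 * (ε / (6 * m0)) + 2 * B * g ω + 2 * B / δ * ∑ k, |q ω k - q' ω k|) ∂μ :=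
        integral_mono hf.abs (((integrable_const _).add (hg.const_mul _)).add (i3.const_mul _)) h1
    _ = 2 * (ε / (6 * m0)) * μ.real univ + 2 * B * ∫ ω, g ω ∂μ + 2 * B / δ * ∑ k, ∫ ω, |q ω k - q' ω k| ∂μ := by
        rw [int3 (integrable_const _) (hg.const_mul _) (i3.const_mul _), integral_const, integral_const_mul,
          integral_const_mul, integral_finsetSum _ fun k _ => hq k, smul_eq_mul]
        ring
    _ ≤ 2 * (ε / (6 * m0)) * m0 + 2 * B * (ε / (6 * (B + 1))) +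
          2 * B / δ * (Fintype.card κ * (ε * δ / (6 * (B + 1) * (Fintype.card κ + 1)))) := by
        have g1 := mul_le_mul_of_nonneg_left h2 (by positivity : 0 ≤ 2 * (ε / (6 * m0)))
        have g2 := mul_le_mul_of_nonneg_left h3 (by linarith : 0 ≤ 2 * B)
        have g3 := mul_le_mul_of_nonneg_left h5 (by positivity : 0 ≤ 2 * B / δ)
        linarith
    _ ≤ ε := hfin

/-- **`F (c, p₁, .., pₘ) → F (g, Φ₁, .., Φₘ)`**, `F` bounded and continuous -/
theorem Lm.comp (hC : Cv l P c ν) {p : ∀ i, Ω i → κ → ℝ} {Φ : X → κ → ℝ}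
    (h : ∀ k, Lm l P c ν (fun i ω => p i ω k) fun x => Φ x k) {F : X × (κ → ℝ) → ℝ} (hF : Continuous F) {B : ℝ}
    (hB : ∀ z, |F z| ≤ B) : Lm l P c ν (fun i ω => F (c i ω, p i ω)) fun x => F (x, Φ x) := by
  have := hC.fin'
  have hpm : ∀ i, Measurable (p i) := fun i => measurable_pi_iff.2 fun k => (h k).ms i
  have hΦm : Measurable Φ := measurable_pi_iff.2 fun k => (h k).ms'
  have hm1 : ∀ i, Measurable fun ω => F (c i ω, p i ω) := fun i => hF.measurable.comp ((hC.ms i).prodMk (hpm i))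
  have hm2 : Measurable fun x => F (x, Φ x) := hF.measurable.comp (measurable_id.prodMk hΦm)
  refine ⟨hm1, ⟨B, fun i ω => hB _⟩, hm2, ⟨B, fun x => hB _⟩, fun ε hε => ?_⟩
  -- constants
  choose Cp hCp using fun k => (h k).bd
  choose Cq hCq using fun k => (h k).bd'
  obtain ⟨C, hCd⟩ : ∃ C : ℝ, C = ∑ k, (|Cp k| + |Cq k|) := ⟨_, rfl⟩
  have hle : ∀ k, |Cp k| + |Cq k| ≤ C := fun k => by
    rw [hCd]
    exact Finset.single_le_sum (f := fun k => |Cp k| + |Cq k|) (fun _ _ => by positivity) (Finset.mem_univ k)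
  have c1 : ∀ i ω k, |p i ω k| ≤ C := fun i ω k =>
    (hCp k i ω).trans ((le_abs_self _).trans (by linarith [hle k, abs_nonneg (Cq k)]))
  have c2 : ∀ x k, |Φ x k| ≤ C := fun x k =>
    (hCq k x).trans ((le_abs_self _).trans (by linarith [hle k, abs_nonneg (Cp k)]))
  obtain ⟨B', hB'd⟩ : ∃ B' : ℝ, B' = |B| := ⟨_, rfl⟩
  have hB'0 : 0 ≤ B' := by rw [hB'd]; exact abs_nonneg B
  have hB' : ∀ z, |F z| ≤ B' := fun z => (hB z).trans (by rw [hB'd]; exact le_abs_self B)
  obtain ⟨m0, hm0, hm1', hm2'⟩ := hC.bd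
  obtain ⟨K, hK, hKG⟩ := hC.tight (ε := ε / (6 * (B' + 1))) (by positivity)
  obtain ⟨δ, hδ, hctl⟩ := ctl hF hB' hK (ε := ε / (6 * m0)) (by positivity) C
  obtain ⟨G, hG1, hG2, hG3, hG4⟩ := hKG δ hδ
  obtain ⟨e, hed⟩ : ∃ e : ℝ, e = min (ε / (6 * (B' + 1))) (ε * δ / (6 * (B' + 1) * (Fintype.card κ + 1))) := ⟨_, rfl⟩
  have he : 0 < e := by
    rw [hed]
    exact lt_min (by positivity) (by positivity)
  choose φ hφ1 hφ2 using fun k => (h k).ap e he
  have hφc : Continuous fun x => F (x, fun k => φ k x) :=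
    hF.comp (continuous_id.prodMk (continuous_pi fun k => (φ k).continuous))
  refine ⟨BoundedContinuousFunction.ofNormedAddCommGroup _ hφc B' fun x => by rw [Real.norm_eq_abs]; exact hB' _, ?_, ?_⟩
  · refine int_ctl hε hm0 hB'0 hδ hed (f := fun x => F (x, Φ x) - F (x, fun k => φ k x)) (g := G) (q := Φ) (q' := fun x k => φ k x)
      ((itg hm2 fun x => hB _).sub (itg hφc.measurable fun x => hB _)) (int_bcf hC.fin' G)
      (fun k => (((h k).int' hC).sub (int_bcf hC.fin' (φ k))).abs)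
      (fun x => hctl G (fun x => (hG1 x).1) hG2 x (Φ x) _ (c2 x)) hm1' hG3 fun k => hφ1 k
  · filter_upwards [hm2', hG4, eventually_all.2 hφ2] with i i1 i2 i3
    have := hC.fin i
    refine int_ctl hε hm0 hB'0 hδ hed (f := fun ω => F (c i ω, p i ω) - F (c i ω, fun k => φ k (c i ω))) (g := fun ω => G (c i ω)) (q := p i)
      (q' := fun ω k => φ k (c i ω))
      ((itg (hm1 i) fun x => hB _).sub (itg (hφc.measurable.comp (hC.ms i)) fun x => hB _)) (hC.int_c G i)
      (fun k => (((h k).int hC i).sub (hC.int_c (φ k) i)).abs)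
      (fun ω => hctl G (fun x => (hG1 x).1) hG2 (c i ω) (p i ω) _ (c1 i ω)) i1 i2 fun k => i3 k

/-- the same for a continuous function of the functionals alone -/
theorem Lm.compR (hC : Cv l P c ν) {p : ∀ i, Ω i → κ → ℝ} {Φ : X → κ → ℝ}
    (h : ∀ k, Lm l P c ν (fun i ω => p i ω k) fun x => Φ x k) {f : (κ → ℝ) → ℝ} (hf : Continuous f) :
    Lm l P c ν (fun i ω => f (p i ω)) fun x => f (Φ x) := by
  choose Cp hCp using fun k => (h k).bd
  choose Cq hCq using fun k => (h k).bd'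
  obtain ⟨C, hCd⟩ : ∃ C : ℝ, C = ∑ k, (|Cp k| + |Cq k|) := ⟨_, rfl⟩
  have hle : ∀ k, |Cp k| + |Cq k| ≤ C := fun k => by
    rw [hCd]
    exact Finset.single_le_sum (f := fun k => |Cp k| + |Cq k|) (fun _ _ => by positivity) (Finset.mem_univ k)
  have hC0 : 0 ≤ C := by
    rw [hCd]
    exact Finset.sum_nonneg fun k _ => by positivity
  have c1 : ∀ i ω k, |p i ω k| ≤ C := fun i ω k =>
    (hCp k i ω).trans ((le_abs_self _).trans (by linarith [hle k, abs_nonneg (Cq k)]))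
  have c2 : ∀ x k, |Φ x k| ≤ C := fun x k =>
    (hCq k x).trans ((le_abs_self _).trans (by linarith [hle k, abs_nonneg (Cp k)]))
  have hcl : ∀ y : κ → ℝ, (∀ k, |y k| ≤ C) → (fun k => max (-C) (min C (y k))) = y := fun y hy => by
    funext k
    rw [min_eq_right (abs_le.1 (hy k)).2, max_eq_right (abs_le.1 (hy k)).1]
  have hcc : Continuous fun y : κ → ℝ => fun k => max (-C) (min C (y k)) :=
    continuous_pi fun k => continuous_const.max (continuous_const.min (continuous_apply k))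
  have hJ : IsCompact (Set.pi (univ : Set κ) fun _ => Icc (-C) C) := isCompact_univ_pi fun _ => isCompact_Icc
  obtain ⟨B, hB⟩ := hJ.exists_bound_of_continuousOn hf.continuousOn
  have hF : Continuous fun z : X × (κ → ℝ) => f (fun k => max (-C) (min C (z.2 k))) := hf.comp (hcc.comp continuous_snd)
  have key := Lm.comp hC h hF (B := B) fun z => by
    rw [← Real.norm_eq_abs]
    refine hB _ fun k _ => ⟨le_max_left _ _, max_le (by linarith) (min_le_left _ _)⟩
  have e1 : (fun i ω => f (fun k => max (-C) (min C (p i ω k)))) = fun i ω => f (p i ω) := by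
    funext i ω
    rw [hcl _ (c1 i ω)]
  have e2 : (fun x => f (fun k => max (-C) (min C (Φ x k)))) = fun x => f (Φ x) := by
    funext x
    rw [hcl _ (c2 x)]
  simp only [e2] at key
  have e3 : (fun i ω => (fun z : X × (κ → ℝ) => f (fun k => max (-C) (min C (z.2 k)))) (c i ω, p i ω)) =
      fun i ω => f (p i ω) := e1
  rw [← e3]
  exact key

end comp

section alg

variable [CompleteSpace X] [SecondCountableTopology X] {p p' : ∀ i, Ω i → ℝ} {Φ Φ' : X → ℝ}

/-- a continuous function of two functionals -/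
theorem Lm.comp2 (hC : Cv l P c ν) (h : Lm l P c ν p Φ) (h' : Lm l P c ν p' Φ') {f : ℝ → ℝ → ℝ}
    (hf : Continuous fun z : ℝ × ℝ => f z.1 z.2) : Lm l P c ν (fun i ω => f (p i ω) (p' i ω)) fun x => f (Φ x) (Φ' x) := by
  have h0 : Continuous fun y : Fin 2 → ℝ => ((y 0, y 1) : ℝ × ℝ) := (continuous_apply 0).prodMk (continuous_apply 1)
  have h1 : Continuous fun y : Fin 2 → ℝ => f (y 0) (y 1) := hf.comp h0
  exact Lm.compR (κ := Fin 2) hC (p := fun i ω => ![p i ω, p' i ω]) (Φ := fun x => ![Φ x, Φ' x])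
    (Fin.forall_fin_two.2 ⟨h, h'⟩) h1

/-- a continuous function of a functional -/
theorem Lm.comp1 (hC : Cv l P c ν) (h : Lm l P c ν p Φ) {f : ℝ → ℝ} (hf : Continuous f) :
    Lm l P c ν (fun i ω => f (p i ω)) fun x => f (Φ x) :=
  Lm.comp2 hC h h (f := fun a _ => f a) (hf.comp continuous_fst)

theorem Lm.add (hC : Cv l P c ν) (h : Lm l P c ν p Φ) (h' : Lm l P c ν p' Φ') :
    Lm l P c ν (fun i ω => p i ω + p' i ω) fun x => Φ x + Φ' x :=
  Lm.comp2 hC h h' (f := fun a b => a + b) (continuous_fst.add continuous_snd)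

theorem Lm.sub (hC : Cv l P c ν) (h : Lm l P c ν p Φ) (h' : Lm l P c ν p' Φ') :
    Lm l P c ν (fun i ω => p i ω - p' i ω) fun x => Φ x - Φ' x :=
  Lm.comp2 hC h h' (f := fun a b => a - b) (continuous_fst.sub continuous_snd)

/-- **products** -/
theorem Lm.mul (hC : Cv l P c ν) (h : Lm l P c ν p Φ) (h' : Lm l P c ν p' Φ') :
    Lm l P c ν (fun i ω => p i ω * p' i ω) fun x => Φ x * Φ' x :=
  Lm.comp2 hC h h' (f := fun a b => a * b) (continuous_fst.mul continuous_snd)

theorem Lm.smul (hC : Cv l P c ν) (h : Lm l P c ν p Φ) (a : ℝ) : Lm l P c ν (fun i ω => a * p i ω) fun x => a * Φ x :=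
  Lm.comp1 hC h (continuous_const.mul continuous_id)

theorem Lm.sum (hC : Cv l P c ν) {κ : Type*} (s : Finset κ) {q : κ → ∀ i, Ω i → ℝ} {Ψ : κ → X → ℝ}
    (h : ∀ k ∈ s, Lm l P c ν (q k) (Ψ k)) : Lm l P c ν (fun i ω => ∑ k ∈ s, q k i ω) fun x => ∑ k ∈ s, Ψ k x := by
  classical
  induction s using Finset.induction_on with
  | empty => simpa using Lm.const hC 0
  | insert a s ha ih =>
    have h1 := Lm.add hC (h a (Finset.mem_insert_self a s)) (ih fun k hk => h k (Finset.mem_insert_of_mem hk))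
    simpa only [Finset.sum_insert ha] using h1

theorem Lm.prod (hC : Cv l P c ν) {κ : Type*} (s : Finset κ) {q : κ → ∀ i, Ω i → ℝ} {Ψ : κ → X → ℝ}
    (h : ∀ k ∈ s, Lm l P c ν (q k) (Ψ k)) : Lm l P c ν (fun i ω => ∏ k ∈ s, q k i ω) fun x => ∏ k ∈ s, Ψ k x := by
  classical
  induction s using Finset.induction_on with
  | empty => simpa using Lm.const hC 1
  | insert a s ha ih =>
    have h1 := Lm.mul hC (h a (Finset.mem_insert_self a s)) (ih fun k hk => h k (Finset.mem_insert_of_mem hk))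
    simpa only [Finset.prod_insert ha] using h1

/-- the limit does not matter on a null set -/
theorem Lm.congr (h : Lm l P c ν p Φ) (m : Measurable Φ') (b : ∃ C : ℝ, ∀ x, |Φ' x| ≤ C) (e : Φ =ᵐ[ν] Φ') :
    Lm l P c ν p Φ' := by
  refine ⟨h.ms, h.bd, m, b, fun ε hε => ?_⟩
  obtain ⟨φ, h1, h2⟩ := h.ap ε hε
  refine ⟨φ, ?_, h2⟩
  rw [← integral_congr_ae (f := fun x => |Φ x - φ x|)]
  · exact h1
  · filter_upwards [e] with x hx
    rw [hx]

/-! ### existence of the limit -/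

lemma clamp_le {C a b : ℝ} (h : |a| ≤ C) : |a - max (-C) (min C b)| ≤ |a - b| := by
  have h1 := abs_le.1 h
  rcases le_total b C with h2 | h2
  · rw [min_eq_right h2]
    rcases le_total (-C) b with h3 | h3
    · rw [max_eq_right h3]
    · rw [max_eq_left h3, abs_of_nonneg (by linarith), abs_of_nonneg (by linarith)]
      linarith
  · rw [min_eq_left h2, max_eq_right (by linarith), abs_of_nonpos (by linarith), abs_of_nonpos (by linarith)]
    linarith

lemma clamp_bd {C : ℝ} (hC : 0 ≤ C) (b : ℝ) : |max (-C) (min C b)| ≤ C :=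
  abs_le.2 ⟨le_max_left _ _, max_le (by linarith) (min_le_left _ _)⟩

omit [CompleteSpace X] [SecondCountableTopology X] in
/-- the approximating functions may be taken with the same bound -/
lemma L1A.clamp (hC : Cv l P c ν) (h : L1A l P c p) {C : ℝ} (hb : ∀ i ω, |p i ω| ≤ C) (hC0 : 0 ≤ C) {ε : ℝ} (hε : 0 < ε) :
    ∃ φ : X →ᵇ ℝ, (∀ x, |φ x| ≤ C) ∧ ∀ᶠ i in l, ∫ ω, |p i ω - φ (c i ω)| ∂P i ≤ ε := by
  obtain ⟨φ, h1⟩ := h.2.2 ε hε
  have hc : Continuous fun x => max (-C) (min C (φ x)) := continuous_const.max (continuous_const.min φ.continuous)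
  refine ⟨BoundedContinuousFunction.ofNormedAddCommGroup _ hc C fun x => ?_, fun x => clamp_bd hC0 _, ?_⟩
  · rw [Real.norm_eq_abs]
    exact clamp_bd hC0 _
  · filter_upwards [h1] with i hi
    have := hC.fin i
    refine le_trans (integral_mono ?_ ?_ fun ω => clamp_le (hb i ω)) hi
    · exact ((itg (h.1 i) (hb i)).sub (itg (hc.measurable.comp (hC.ms i)) fun ω => clamp_bd hC0 _)).abs
    · exact ((itg (h.1 i) (hb i)).sub (hC.int_c φ i)).abs

omit [CompleteSpace X] [SecondCountableTopology X] in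
/-- **existence of the limit** -/
theorem L1A.lim [l.NeBot] (hC : Cv l P c ν) (h : L1A l P c p) : ∃ Φ, Lm l P c ν p Φ := by
  have := hC.fin'
  obtain ⟨C0, hb0⟩ := h.2.1
  obtain ⟨C, hCd⟩ : ∃ C : ℝ, C = |C0| := ⟨_, rfl⟩
  have hC0 : 0 ≤ C := by rw [hCd]; exact abs_nonneg _
  have hb : ∀ i ω, |p i ω| ≤ C := fun i ω => (hb0 i ω).trans (by rw [hCd]; exact le_abs_self _)
  choose φ hφ1 hφ2 using fun k : ℕ => h.clamp hC hb hC0 (ε := (1 / 2 : ℝ) ^ k) (by positivity)
  have hd : ∀ k : ℕ, ∫ x, |φ k x - φ (k + 1) x| ∂ν ≤ 2 * (1 / 2 : ℝ) ^ k := by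
    intro k
    have hψ : Continuous fun x => |φ k x - φ (k + 1) x| := ((φ k).continuous.sub (φ (k + 1)).continuous).abs
    have hψb : ∀ x, ‖|φ k x - φ (k + 1) x|‖ ≤ C + C := fun x => by
      rw [Real.norm_eq_abs, abs_abs]
      exact (abs_sub _ _).trans (add_le_add (hφ1 k x) (hφ1 (k + 1) x))
    refine le_of_tendsto (hC.lim (BoundedContinuousFunction.ofNormedAddCommGroup _ hψ _ hψb)) ?_
    filter_upwards [hφ2 k, hφ2 (k + 1)] with i i1 i2
    have := hC.fin i
    have j0 : Integrable (p i) (P i) := itg (h.1 i) (hb i)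
    have j1 : Integrable (fun ω => |p i ω - φ k (c i ω)|) (P i) := (j0.sub (hC.int_c (φ k) i)).abs
    have j2 : Integrable (fun ω => |p i ω - φ (k + 1) (c i ω)|) (P i) := (j0.sub (hC.int_c (φ (k + 1)) i)).abs
    calc ∫ ω, |φ k (c i ω) - φ (k + 1) (c i ω)| ∂P i
        ≤ ∫ ω, (|p i ω - φ k (c i ω)| + |p i ω - φ (k + 1) (c i ω)|) ∂P i := by
          refine integral_mono ((hC.int_c (φ k) i).sub (hC.int_c (φ (k + 1)) i)).abs (j1.add j2) fun ω => ?_
          have k1 := abs_sub_le (φ k (c i ω)) (p i ω) (φ (k + 1) (c i ω))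
          rw [abs_sub_comm (φ k (c i ω)) (p i ω)] at k1
          exact k1
      _ = _ := integral_add j1 j2
      _ ≤ (1 / 2 : ℝ) ^ k + (1 / 2) ^ (k + 1) := add_le_add i1 i2
      _ ≤ 2 * (1 / 2 : ℝ) ^ k := by
          rw [pow_succ]
          have : (0 : ℝ) < (1 / 2) ^ k := by positivity
          linarith
  obtain ⟨f, hf⟩ : ∃ f : ℕ → (X →₁[ν] ℝ), ∀ k, f k = (int_bcf hC.fin' (φ k)).toL1 (φ k) := ⟨_, fun _ => rfl⟩
  have hdist : ∀ k : ℕ, dist (f k) (f (k + 1)) ≤ 2 * (1 / 2 : ℝ) ^ k := by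
    intro k
    rw [dist_eq_norm, hf, hf, ← Integrable.toL1_sub, L1.norm_of_fun_eq_integral_norm]
    exact hd k
  obtain ⟨g, hg⟩ := cauchySeq_tendsto_of_complete (cauchySeq_of_le_geometric (1 / 2) 2 (by norm_num) hdist)
  have hg' := fun k => dist_le_of_le_geometric_of_tendsto (1 / 2) 2 (by norm_num) hdist hg k
  have hgm : Measurable (g : X → ℝ) := (Lp.stronglyMeasurable g).measurable
  refine ⟨fun x => max (-C) (min C (g x)), h.1, ⟨C, hb⟩, measurable_const.max (measurable_const.min hgm),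
    ⟨C, fun x => clamp_bd hC0 _⟩, fun ε hε => ?_⟩
  obtain ⟨k, hk⟩ : ∃ k : ℕ, 4 * (1 / 2 : ℝ) ^ k < ε := by
    obtain ⟨k, hk⟩ := exists_pow_lt_of_lt_one (by positivity : 0 < ε / 4) (by norm_num : (1 / 2 : ℝ) < 1)
    exact ⟨k, by linarith⟩
  refine ⟨φ k, ?_, ?_⟩
  · have e1 : ‖g - f k‖ = ∫ x, |g x - φ k x| ∂ν := by
      rw [L1.norm_eq_integral_norm]
      refine integral_congr_ae ?_
      filter_upwards [Lp.coeFn_sub g (f k), (int_bcf hC.fin' (φ k)).coeFn_toL1] with x h1 h2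
      rw [h1, Pi.sub_apply, hf, h2, Real.norm_eq_abs]
    have e2 := hg' k
    rw [dist_comm, dist_eq_norm, e1] at e2
    have i1 : Integrable (g : X → ℝ) ν := L1.integrable_coeFn g
    calc ∫ x, |max (-C) (min C (g x)) - φ k x| ∂ν ≤ ∫ x, |g x - φ k x| ∂ν := by
          refine integral_mono ((itg (measurable_const.max (measurable_const.min hgm)) fun x => clamp_bd hC0 _).sub
            (int_bcf hC.fin' (φ k))).abs (i1.sub (int_bcf hC.fin' (φ k))).abs fun x => ?_
          show |max (-C) (min C (g x)) - φ k x| ≤ |g x - φ k x|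
          rw [abs_sub_comm, abs_sub_comm (g x)]
          exact clamp_le (hφ1 k x)
      _ ≤ 2 * (1 / 2) ^ k / (1 - 1 / 2) := e2
      _ = 4 * (1 / 2) ^ k := by ring
      _ ≤ ε := hk.le
  · filter_upwards [hφ2 k] with i hi
    have : (0 : ℝ) < (1 / 2) ^ k := by positivity
    linarith

end alg

/-! ### laws, indicators -/

lemma ti_tendsto {Z : Type*} [PseudoMetricSpace Z] {δ : ℕ → ℝ} (hδ : ∀ n, 0 < δ n) (hδ0 : Tendsto δ atTop (𝓝 0)) (A : Set Z)
    (z : Z) : Tendsto (fun n => (thickenedIndicator (hδ n) A z : ℝ)) atTop (𝓝 ((closure A).indicator (fun _ => (1 : ℝ)) z)) := by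
  have h1 := (tendsto_pi_nhds.1 (thickenedIndicator_tendsto_indicator_closure hδ hδ0 A)) z
  have h2 := (NNReal.continuous_coe.tendsto _).comp h1
  have e : (((closure A).indicator (fun _ => (1 : ℝ≥0)) z : ℝ≥0) : ℝ) = (closure A).indicator (fun _ => (1 : ℝ)) z := by
    by_cases hz : z ∈ closure A
    · rw [indicator_of_mem hz, indicator_of_mem hz]; simp
    · rw [indicator_of_notMem hz, indicator_of_notMem hz]; simp
  rw [← e]
  exact h2

section law

variable [CompleteSpace X] [SecondCountableTopology X] {κ : Type*} [Fintype κ] {p : ∀ i, Ω i → κ → ℝ} {Φ : X → κ → ℝ}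

/-- **the joint law** with a weight (shape of helper31): `∫ e · G (F (c, p)) dP → ∫ E · G (F (g, Φ g)) dν` -/
theorem Lm.law (hC : Cv l P c ν) {e : ∀ i, Ω i → ℝ} {E : X → ℝ} (he : Lm l P c ν e E)
    (h : ∀ k, Lm l P c ν (fun i ω => p i ω k) fun x => Φ x k) {Y : Type*} [TopologicalSpace Y] {F : X × (κ → ℝ) → Y}
    (hF : Continuous F) (G : Y →ᵇ ℝ) :
    Tendsto (fun i => ∫ ω, e i ω * G (F (c i ω, p i ω)) ∂P i) l (𝓝 (∫ x, E x * G (F (x, Φ x)) ∂ν)) := by
  have hb : ∀ z, |G (F z)| ≤ ‖G‖ := fun z => G.norm_coe_le_norm _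
  exact (Lm.mul hC he (Lm.comp hC h (G.continuous.comp hF) hb)).tendsto hC

/-- **indicators of sets with null boundary** -/
theorem Lm.bdry (hC : Cv l P c ν) (h : ∀ k, Lm l P c ν (fun i ω => p i ω k) fun x => Φ x k) {A : Set (X × (κ → ℝ))}
    (hA : MeasurableSet A) (h0 : ν {x | (x, Φ x) ∈ frontier A} = 0) :
    Lm l P c ν (fun i ω => A.indicator (fun _ => (1 : ℝ)) (c i ω, p i ω)) fun x => A.indicator (fun _ => (1 : ℝ)) (x, Φ x) := by
  have := hC.fin'
  have hpm : ∀ i, Measurable (p i) := fun i => measurable_pi_iff.2 fun k => (h k).ms i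
  have hΦm : Measurable Φ := measurable_pi_iff.2 fun k => (h k).ms'
  have hAm : Measurable (A.indicator fun _ => (1 : ℝ)) := measurable_const.indicator hA
  have h01 : ∀ z, 0 ≤ A.indicator (fun _ => (1 : ℝ)) z ∧ A.indicator (fun _ => (1 : ℝ)) z ≤ 1 := fun z => by
    by_cases hz : z ∈ A
    · rw [indicator_of_mem hz]; simp
    · rw [indicator_of_notMem hz]; simp
  have hb : ∀ z, |A.indicator (fun _ => (1 : ℝ)) z| ≤ 1 := fun z => abs_le.2 ⟨by linarith [(h01 z).1], (h01 z).2⟩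
  -- the neighbourhoods
  obtain ⟨δ, hδd⟩ : ∃ δ : ℕ → ℝ, δ = fun n : ℕ => 1 / ((n : ℝ) + 1) := ⟨_, rfl⟩
  have hδ : ∀ n, 0 < δ n := fun n => by rw [hδd]; positivity
  have hδ0 : Tendsto δ atTop (𝓝 0) := by rw [hδd]; exact tendsto_one_div_add_atTop_nhds_zero_nat
  obtain ⟨f, hfd⟩ : ∃ f : ℕ → X × (κ → ℝ) → ℝ, f = fun n z => (thickenedIndicator (hδ n) A z : ℝ) := ⟨_, rfl⟩
  obtain ⟨g, hgd⟩ : ∃ g : ℕ → X × (κ → ℝ) → ℝ, g = fun n z => (thickenedIndicator (hδ n) Aᶜ z : ℝ) := ⟨_, rfl⟩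
  have hfc : ∀ n, Continuous (f n) := fun n => by
    rw [hfd]; exact NNReal.continuous_coe.comp (thickenedIndicator (hδ n) A).continuous
  have hgc : ∀ n, Continuous (g n) := fun n => by
    rw [hgd]; exact NNReal.continuous_coe.comp (thickenedIndicator (hδ n) Aᶜ).continuous
  have hf0 : ∀ n z, 0 ≤ f n z ∧ f n z ≤ 1 := fun n z => by
    rw [hfd]; exact ⟨NNReal.coe_nonneg _, by exact_mod_cast thickenedIndicator_le_one (hδ n) A z⟩
  have hg0 : ∀ n z, 0 ≤ g n z ∧ g n z ≤ 1 := fun n z => by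
    rw [hgd]; exact ⟨NNReal.coe_nonneg _, by exact_mod_cast thickenedIndicator_le_one (hδ n) Aᶜ z⟩
  have hfA : ∀ n z, z ∈ A → f n z = 1 := fun n z hz => by
    rw [hfd]; show (thickenedIndicator (hδ n) A z : ℝ) = 1
    rw [thickenedIndicator_one (hδ n) A hz]; rfl
  have hgA : ∀ n z, z ∉ A → g n z = 1 := fun n z hz => by
    rw [hgd]; show (thickenedIndicator (hδ n) Aᶜ z : ℝ) = 1
    rw [thickenedIndicator_one (hδ n) Aᶜ hz]; rfl
  -- the difference
  have hdf : ∀ n z, |A.indicator (fun _ => (1 : ℝ)) z - f n z| ≤ f n z + g n z - 1 := by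
    intro n z
    by_cases hz : z ∈ A
    · rw [indicator_of_mem hz, hfA n z hz]
      simp only [sub_self, abs_zero]
      linarith [(hg0 n z).1]
    · rw [indicator_of_notMem hz, hgA n z hz, zero_sub, abs_neg, abs_of_nonneg (hf0 n z).1]
      linarith
  have hlim : Tendsto (fun n => ∫ x, (f n (x, Φ x) + g n (x, Φ x) - 1) ∂ν) atTop (𝓝 0) := by
    have e0 : ∫ x, ((frontier A).indicator (fun _ => (1 : ℝ)) (x, Φ x)) ∂ν = 0 := by
      refine integral_eq_zero_of_ae ?_
      have : ∀ᵐ x ∂ν, (x, Φ x) ∉ frontier A := measure_eq_zero_iff_ae_notMem.1 h0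
      filter_upwards [this] with x hx
      rw [indicator_of_notMem hx]; rfl
    rw [← e0]
    refine tendsto_integral_of_dominated_convergence (fun _ => (1 : ℝ)) (fun n => ?_) (integrable_const _) (fun n => ?_) ?_
    · exact ((((hfc n).measurable.comp (measurable_id.prodMk hΦm)).add
        ((hgc n).measurable.comp (measurable_id.prodMk hΦm))).sub measurable_const).aestronglyMeasurable
    · refine Eventually.of_forall fun x => ?_
      rw [Real.norm_eq_abs, abs_le]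
      have k1 := hf0 n (x, Φ x)
      have k2 := hg0 n (x, Φ x)
      constructor <;> linarith
    · refine Eventually.of_forall fun x => ?_
      have t1 : Tendsto (fun n => f n (x, Φ x)) atTop (𝓝 ((closure A).indicator (fun _ => (1 : ℝ)) (x, Φ x))) := by
        rw [hfd]
        exact ti_tendsto hδ hδ0 A (x, Φ x)
      have t2 : Tendsto (fun n => g n (x, Φ x)) atTop (𝓝 ((closure Aᶜ).indicator (fun _ => (1 : ℝ)) (x, Φ x))) := by
        rw [hgd]
        exact ti_tendsto hδ hδ0 Aᶜ (x, Φ x)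
      have e1 : (frontier A).indicator (fun _ => (1 : ℝ)) (x, Φ x) = (closure A).indicator (fun _ => (1 : ℝ)) (x, Φ x) +
          (closure Aᶜ).indicator (fun _ => (1 : ℝ)) (x, Φ x) - 1 := by
        rw [frontier_eq_closure_inter_closure]
        by_cases z1 : (x, Φ x) ∈ closure A
        · by_cases z2 : (x, Φ x) ∈ closure Aᶜ
          · rw [indicator_of_mem z1, indicator_of_mem z2, indicator_of_mem (show (x, Φ x) ∈ closure A ∩ closure Aᶜ from ⟨z1, z2⟩)]; ring
          · rw [indicator_of_mem z1, indicator_of_notMem z2, indicator_of_notMem (show (x, Φ x) ∉ closure A ∩ closure Aᶜ from fun h => z2 h.2)]; ring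
        · have z2 : (x, Φ x) ∈ closure Aᶜ := subset_closure fun h => z1 (subset_closure h)
          rw [indicator_of_notMem z1, indicator_of_mem z2, indicator_of_notMem (show (x, Φ x) ∉ closure A ∩ closure Aᶜ from fun h => z1 h.1)]; ring
      rw [e1]
      exact (t1.add t2).sub_const 1
  have lf : ∀ n, Lm l P c ν (fun i ω => f n (c i ω, p i ω)) fun x => f n (x, Φ x) := fun n =>
    Lm.comp hC h (hfc n) (B := 1) fun z => abs_le.2 ⟨by linarith [(hf0 n z).1], (hf0 n z).2⟩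
  have lg : ∀ n, Lm l P c ν (fun i ω => g n (c i ω, p i ω)) fun x => g n (x, Φ x) := fun n =>
    Lm.comp hC h (hgc n) (B := 1) fun z => abs_le.2 ⟨by linarith [(hg0 n z).1], (hg0 n z).2⟩
  have lfg : ∀ n, Lm l P c ν (fun i ω => f n (c i ω, p i ω) + g n (c i ω, p i ω) - 1) fun x => f n (x, Φ x) + g n (x, Φ x) - 1 :=
    fun n => Lm.sub hC (Lm.add hC (lf n) (lg n)) (Lm.const hC 1)
  refine Lm.closed hC (fun i => hAm.comp ((hC.ms i).prodMk (hpm i))) ⟨1, fun i ω => hb _⟩
    (hAm.comp (measurable_id.prodMk hΦm)) ⟨1, fun x => hb _⟩ fun ε hε => ?_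
  obtain ⟨n, hn⟩ := ((hlim.eventually (gt_mem_nhds hε)).exists)
  refine ⟨_, _, lf n, ?_, ?_⟩
  · refine le_trans (integral_mono ?_ ((lfg n).int' hC) fun x => hdf n (x, Φ x)) hn.le
    exact ((itg (hAm.comp (measurable_id.prodMk hΦm)) fun x => hb _).sub ((lf n).int' hC)).abs
  · filter_upwards [((lfg n).tendsto hC).eventually (gt_mem_nhds hn)] with i hi
    have := hC.fin i
    refine le_trans (integral_mono ?_ ((lfg n).int hC i) fun ω => hdf n (c i ω, p i ω)) hi.le
    exact ((itg (hAm.comp ((hC.ms i).prodMk (hpm i))) fun x => hb _).sub ((lf n).int hC i)).abs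

open Classical in
/-- **thresholds**: all `a` with `ν {Φ = a} = 0` -/
theorem Lm.level (hC : Cv l P c ν) {q : ∀ i, Ω i → ℝ} {Ψ : X → ℝ} (h : Lm l P c ν q Ψ) {a : ℝ} (h0 : ν {x | Ψ x = a} = 0) :
    Lm l P c ν (fun i ω => if a ≤ q i ω then 1 else 0) fun x => if a ≤ Ψ x then 1 else 0 := by
  have hcl : IsClosed {z : X × (Unit → ℝ) | a ≤ z.2 ()} := isClosed_le continuous_const ((continuous_apply ()).comp continuous_snd)
  have key := Lm.bdry (κ := Unit) hC (p := fun i ω _ => q i ω) (Φ := fun x _ => Ψ x) (fun _ => h)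
    (A := {z : X × (Unit → ℝ) | a ≤ z.2 ()}) hcl.measurableSet ?_
  · have e1 : (fun i ω => if a ≤ q i ω then (1 : ℝ) else 0) = fun i ω =>
        {z : X × (Unit → ℝ) | a ≤ z.2 ()}.indicator (fun _ => (1 : ℝ)) (c i ω, fun _ => q i ω) := rfl
    have e2 : (fun x => if a ≤ Ψ x then (1 : ℝ) else 0) = fun x =>
        {z : X × (Unit → ℝ) | a ≤ z.2 ()}.indicator (fun _ => (1 : ℝ)) (x, fun _ => Ψ x) := rfl
    rw [e1, e2]
    exact key
  · refine measure_mono_null (fun x hx => ?_) h0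
    have := frontier_le_subset_eq (f := fun _ : X × (Unit → ℝ) => a) (g := fun z : X × (Unit → ℝ) => z.2 ())
      continuous_const ((continuous_apply ()).comp continuous_snd) hx
    exact this.symm

/-- all but countably many thresholds are allowed -/
lemma countable_levels (hf : IsFiniteMeasure ν) {Ψ : X → ℝ} (hΨ : Measurable Ψ) : {a : ℝ | ν {x | Ψ x = a} ≠ 0}.Countable := by
  have := Measure.countable_meas_level_set_pos (μ := ν) hΨ
  refine this.mono fun a ha => ?_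
  exact pos_iff_ne_zero.2 ha

end law

end Pool.Agent.ROT.F3.LF
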