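import Pool.Agent.ROT.F3SysR
import Pool.Agent.ROT.F3LimF

/-!
# ROT, block F3, row R5 (helper58): the limits of the closed words with two roots, null sets

* `LF.Cv.open_le`, `LF.Cv.null_of` : open sets, null sets;
* **`mw_cv`** : the limits in the form `LF.Cv` of F3LimF; **`mw_cvrot`** : their rotation invariance;
* `mw_dbl` : near double points; **`mw_ae`** : the limit is carried by `0 < m < l ≤ b` and the simple closed curves from `0`.
-/

set_option autoImplicit false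

open MeasureTheory Filter Topology Set

open scoped Classical NNReal ENNReal BoundedContinuousFunction

namespace Pool.Agent.ROT.F3

open Pool.Agent.NTS.Res Pool.Agent.PMA Pool.Agent.PMA.Res Pool.Agent.ROT.F

/-! ### 1. Open sets -/

namespace LF

variable {ι : Type*} {l : Filter ι} {Ω : ι → Type*} [∀ i, MeasurableSpace (Ω i)] {P : ∀ i, Measure (Ω i)}
  {X : Type*} [PseudoMetricSpace X] [MeasurableSpace X] [BorelSpace X] {c : ∀ i, Ω i → X} {ν : Measure X}

/-- **open sets** -/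
theorem Cv.open_le [l.NeBot] (h : Cv l P c ν) {V : Set X} (hV : IsOpen V) {a : ℝ}
    (ha : ∀ᶠ i in l, (P i).real (c i ⁻¹' V) ≤ a) : ν.real V ≤ a := by
  have := h.fin'
  have hF : IsClosed Vᶜ := hV.isClosed_compl
  obtain ⟨f, hf⟩ : ∃ f : ℕ → X → ℝ, f = fun k x => (hF.apprSeq k x : ℝ) := ⟨_, rfl⟩
  have hf0 : ∀ k x, 0 ≤ f k x := fun k x => by
    rw [hf]
    exact NNReal.coe_nonneg _
  have hf1 : ∀ k x, f k x ≤ 1 := fun k x => by
    rw [hf]
    exact_mod_cast HasOuterApproxClosed.apprSeq_apply_le_one hF k x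
  have hfn : ∀ k x, ‖f k x‖ ≤ 1 := fun k x => by
    rw [Real.norm_eq_abs, abs_of_nonneg (hf0 k x)]
    exact hf1 k x
  have hfc : ∀ k, Continuous (f k) := fun k => by
    rw [hf]
    exact NNReal.continuous_coe.comp (hF.apprSeq k).continuous
  have hfF : ∀ k x, x ∈ Vᶜ → f k x = 1 := fun k x hx => by
    rw [hf]
    show ((hF.apprSeq k x : ℝ≥0) : ℝ) = 1
    rw [HasOuterApproxClosed.apprSeq_apply_eq_one hF k hx, NNReal.coe_one]
  have h1 : ∀ k, ν.real univ - a ≤ ∫ x, f k x ∂ν := by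
    intro k
    have t1 := h.lim (BoundedContinuousFunction.ofNormedAddCommGroup (f k) (hfc k) 1 (hfn k))
    have t2 : Tendsto (fun i => (P i).real univ - a) l (𝓝 (ν.real univ - a)) := h.mass.sub_const a
    refine le_of_tendsto_of_tendsto t2 t1 ?_
    filter_upwards [ha] with i hi
    have := h.fin i
    have hm : MeasurableSet (c i ⁻¹' V) := h.ms i hV.measurableSet
    have h2 : (P i).real (c i ⁻¹' V)ᶜ = (P i).real univ - (P i).real (c i ⁻¹' V) := by
      rw [measureReal_compl hm]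
    have h3 : (P i).real (c i ⁻¹' V)ᶜ ≤ ∫ ω, f k (c i ω) ∂(P i) := by
      rw [← mul_one ((P i).real (c i ⁻¹' V)ᶜ), ← smul_eq_mul, ← integral_indicator_const (1 : ℝ) hm.compl]
      refine integral_mono ((integrable_const _).indicator hm.compl)
        (itg ((hfc k).measurable.comp (h.ms i)) (C := 1) fun ω => hfn k _) fun ω => ?_
      by_cases hω : c i ω ∈ V
      · rw [indicator_of_notMem (show ω ∉ (c i ⁻¹' V)ᶜ from fun h => h hω)]
        exact hf0 k _
      · rw [indicator_of_mem (show ω ∈ (c i ⁻¹' V)ᶜ from hω), hfF k _ hω]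
    show (P i).real univ - a ≤ ∫ ω, f k (c i ω) ∂(P i)
    linarith
  have h2 : Tendsto (fun k => ∫ x, f k x ∂ν) atTop (𝓝 (∫ x, (Vᶜ).indicator (fun _ => (1 : ℝ)) x ∂ν)) := by
    refine tendsto_integral_of_dominated_convergence (fun _ => 1) (fun k => (hfc k).aestronglyMeasurable) (integrable_const _)
      (fun k => Eventually.of_forall (hfn k)) (Eventually.of_forall fun x => ?_)
    have h3 := (tendsto_pi_nhds.1 (HasOuterApproxClosed.tendsto_apprSeq hF)) x
    have h4 := (NNReal.continuous_coe.tendsto _).comp h3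
    rw [hf]
    refine (h4.congr fun k => rfl).trans (le_of_eq ?_)
    congr 1
    by_cases hx : x ∈ Vᶜ
    · rw [indicator_of_mem hx, indicator_of_mem hx, NNReal.coe_one]
    · rw [indicator_of_notMem hx, indicator_of_notMem hx, NNReal.coe_zero]
  have h3 := ge_of_tendsto' h2 h1
  rw [integral_indicator_const _ hF.measurableSet, smul_eq_mul, mul_one, measureReal_compl hV.measurableSet] at h3
  linarith

/-- **null sets** -/
theorem Cv.null_of [l.NeBot] (h : Cv l P c ν) {S : Set X} (hS : ∀ ε : ℝ, 0 < ε → ∃ V : Set X, IsOpen V ∧ S ⊆ V ∧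
    ∀ᶠ i in l, (P i).real (c i ⁻¹' V) ≤ ε) : ν S = 0 := by
  have := h.fin'
  refine le_antisymm (ENNReal.le_of_forall_pos_le_add fun ε hε _ => ?_) bot_le
  obtain ⟨V, hV, hSV, h1⟩ := hS ε hε
  have h2 := h.open_le hV h1
  rw [zero_add]
  calc ν S ≤ ν V := measure_mono hSV
    _ = ENNReal.ofReal (ν.real V) := (ofReal_measureReal).symm
    _ ≤ ENNReal.ofReal ε := ENNReal.ofReal_le_ofReal h2
    _ = ε := ENNReal.ofReal_coe_nnreal

end LF

/-! ### 2. The closed words with two roots -/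

/-- **the limits** -/
theorem mw_cv (hQ : QB) {b : ℝ} (hb : 0 ≤ b) (U : Ultrafilter ℕ) (hU : (U : Filter ℕ) ≤ atTop) :
    ∃ P : Measure (ℝ × ℝ × C(unitInterval, ℂ)), LF.Cv (U : Filter ℕ) (fun N => mw N b) cN P := by
  obtain ⟨P, hP, h⟩ := mw_lim hQ hb U hU
  exact ⟨P, fun N => inferInstance, hP, fun N => Measurable.of_discrete, h⟩

/-- **the rotation invariance** -/
theorem mw_cvrot (hR : RotP) (hF : Fast) (hQ : QB) (hL : LDp) {b : ℝ} (hb : 0 ≤ b) {U : Ultrafilter ℕ} (hU : (U : Filter ℕ) ≤ atTop)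
    {P : Measure (ℝ × ℝ × C(unitInterval, ℂ))} (hP : LF.Cv (U : Filter ℕ) (fun N => mw N b) cN P) {z : ℂ} (hz : ‖z‖ = 1) :
    P.map (rotX z) = P := by
  have := hP.fin'
  exact mw_rot hR hF hQ hL hb hU hP.lim hz

/-- near double points of a closed curve -/
def DbS (κ δ : ℝ) : Set C(unitInterval, ℂ) :=
  {γ | ∃ p q : unitInterval, (p : ℝ) + κ ≤ q ∧ (q : ℝ) + κ ≤ p + 1 ∧ dist (γ q) (γ p) < δ}

lemma DbS_open (κ δ : ℝ) : IsOpen (DbS κ δ) := by
  have h1 : DbS κ δ = ⋃ (p : unitInterval) (q : unitInterval) (_ : (p : ℝ) + κ ≤ q) (_ : (q : ℝ) + κ ≤ p + 1),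
      {γ : C(unitInterval, ℂ) | dist (γ q) (γ p) < δ} := by
    ext γ
    unfold DbS
    simp only [mem_ofPred_eq, mem_iUnion, exists_prop]
  rw [h1]
  refine isOpen_iUnion fun p => isOpen_iUnion fun q => isOpen_iUnion fun _ => isOpen_iUnion fun _ => ?_
  exact isOpen_lt ((continuous_eval_const q).dist (continuous_eval_const p)) continuous_const

/-- **near double points** -/
theorem mw_dbl (hQ : QB) (hL : LDp) {b κ ε : ℝ} (hb : 0 ≤ b) (hκ : 0 < κ) (hε : 0 < ε) : ∃ r : ℝ, 0 < r ∧ ∃ N0 : ℕ, ∀ N : ℕ, N0 ≤ N →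
    (mw N b).real {x | crv x.1 x.1.length N ∈ DbS κ r} ≤ ε := by
  obtain ⟨δ, K0, ε', hδ, hK0, hε', h⟩ := mw_sum hQ hb hε
  obtain ⟨c1, C1, hc1, -, hsz⟩ := F.size_bd
  obtain ⟨ρ, n0, hρ, hLn⟩ := hL ε' κ hε' hκ
  obtain ⟨N0, hN0⟩ := h (max n0 1)
  obtain ⟨r, hr⟩ : ∃ r : ℝ, r = c1 * ρ / (2 * K0) := ⟨_, rfl⟩
  have hr0 : 0 < r := by
    rw [hr]
    positivity
  have hrK : K0 / c1 * r = ρ / 2 := by
    rw [hr]
    field_simp
  obtain ⟨N1, hN1⟩ := exists_nat_gt (10 / r)
  refine ⟨r, hr0, max N0 (max N1 1), fun N hN => ?_⟩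
  have hNN := (le_max_left _ _).trans hN
  have hNN1 := ((le_max_left _ _).trans (le_max_right _ _)).trans hN
  have hNN2 := ((le_max_right _ _).trans (le_max_right _ _)).trans hN
  have hNp : (0 : ℝ) < N := by exact_mod_cast hNN2
  have h10 : 10 / (N : ℝ) ≤ r := by
    rw [div_le_iff₀ hNp]
    rw [div_lt_iff₀ hr0] at hN1
    have : (N1 : ℝ) ≤ N := by exact_mod_cast hNN1
    nlinarith
  rw [mw_real]
  refine hN0 N hNN _ (fun x => ?_) ?_
  · split_ifs <;> norm_num
  · intro n hn ho h1 h2 m _ _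
    have hn1 : 1 ≤ n := (le_max_right _ _).trans hn
    have hsn := NTSF.size_pos hn1
    have h3 := hLn n ((le_max_left _ _).trans hn) ho
    rw [LT.plaw_apply] at h3
    obtain ⟨S, hS⟩ : ∃ S : Set C(unitInterval, ℂ), S = {γ : C(unitInterval, ℂ) | ∃ p q : unitInterval,
        (p : ℝ) + κ ≤ q ∧ (q : ℝ) + κ ≤ p + 1 ∧ dist (γ q) (γ p) < ρ} := ⟨_, rfl⟩
    rw [← hS] at h3
    have h4 := (ENNReal.ofReal_le_ofReal_iff hε'.le).1 h3
    unfold pmean at h4
    have hNs : (N : ℝ) ≤ K0 / c1 * size n := by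
      rw [div_mul_eq_mul_div, le_div_iff₀ hc1]
      have h5 := (hsz n hn1).1
      nlinarith
    have h5 : ∑ s ∈ pol n, (if (clw s, m) ∈ {x : W3 × ℕ | crv x.1 x.1.length N ∈ DbS κ r} then (1 : ℝ) else 0) ≤
        ∑ s ∈ pol n, (fun γ => if γ ∈ S then (1 : ℝ) else 0) (curve s) := by
      refine Finset.sum_le_sum fun s _ => ?_
      have h9 : (0 : ℝ) ≤ (fun γ => if γ ∈ S then (1 : ℝ) else 0) (curve s) := by
        beta_reduce
        split_ifs <;> norm_num
      by_cases h6 : (clw s, m) ∈ {x : W3 × ℕ | crv x.1 x.1.length N ∈ DbS κ r}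
      · rw [if_pos h6]
        have h7 : curve s ∈ S := by
          have h8 : crv (clw s) (clw s).length N ∈ DbS κ r := h6
          rw [length_clw] at h8
          obtain ⟨p, q, hpq, hqp, h8⟩ := h8
          rw [hS]
          refine ⟨p, q, hpq, hqp, ?_⟩
          have d2 := crv_dist (w := clw s) (N := N) hn1
          have d3 := (ContinuousMap.dist_apply_le_dist (f := crv (clw s) n N) (g := crv (clw s) (n + 1) N) q).trans d2
          have d4 := (ContinuousMap.dist_apply_le_dist (f := crv (clw s) n N) (g := crv (clw s) (n + 1) N) p).trans d2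
          have d1 : dist ((crv (clw s) n N) q) ((crv (clw s) n N) p) < 5 / N + r + 5 / N := by
            refine (dist_triangle4 _ ((crv (clw s) (n + 1) N) q) ((crv (clw s) (n + 1) N) p) _).trans_lt ?_
            rw [dist_comm ((crv (clw s) (n + 1) N) p)]
            linarith
          rw [← sN_curve hn1] at d1
          have d4 : dist ((sN N n (curve s)) q) ((sN N n (curve s)) p) = size n / N * dist (curve s q) (curve s p) := by
            unfold sN
            rw [ContinuousMap.smul_apply, ContinuousMap.smul_apply, dist_smul₀, Real.norm_of_nonneg (by positivity)]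
          rw [d4] at d1
          have d5 : size n / N * dist (curve s q) (curve s p) < 2 * r := by
            have : 2 * (5 / (N : ℝ)) = 10 / N := by ring
            linarith
          rw [div_mul_eq_mul_div, div_lt_iff₀ hNp] at d5
          have d6 : dist (curve s q) (curve s p) * size n < ρ * size n := by
            calc _ = size n * dist (curve s q) (curve s p) := mul_comm _ _
              _ < 2 * r * N := d5
              _ ≤ 2 * r * (K0 / c1 * size n) := mul_le_mul_of_nonneg_left hNs (by positivity)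
              _ = 2 * (K0 / c1 * r) * size n := by ring
              _ = ρ * size n := by
                  rw [hrK]
                  ring
          exact lt_of_mul_lt_mul_right d6 hsn.le
        beta_reduce
        rw [if_pos h7]
      · rw [if_neg h6]
        exact h9
    refine h5.trans ?_
    rcases (Nat.cast_nonneg (α := ℝ) (pol n).card).lt_or_eq with h6 | h6
    · exact (div_le_iff₀ h6).1 h4
    · have h7 : (pol n).card = 0 := by exact_mod_cast h6.symm
      rw [Finset.card_eq_zero.1 h7]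
      simp

/-- places near the roots -/
theorem mw_place (hQ : QB) {b ε : ℝ} (hb : 0 ≤ b) (hε : 0 < ε) : ∃ a : ℝ, 0 < a ∧ ∃ N0 : ℕ, ∀ N : ℕ, N0 ≤ N →
    (mw N b).real {x | (x.2 : ℝ) < a * (N : ℝ) ^ (4 / 3 : ℝ) ∨ (x.1.length : ℝ) - x.2 < a * (N : ℝ) ^ (4 / 3 : ℝ)} ≤ ε := by
  obtain ⟨δ, K0, ε', hδ, hK0, hε', h⟩ := mw_sum hQ hb hε
  obtain ⟨N0, hN0⟩ := h 1
  obtain ⟨a, ha⟩ : ∃ a : ℝ, a = δ / K0 ^ (4 / 3 : ℝ) := ⟨_, rfl⟩
  have ha0 : 0 < a := by
    rw [ha]
    positivity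
  refine ⟨a, ha0, N0, fun N hN => ?_⟩
  rw [mw_real]
  refine hN0 N hN _ (fun x => ?_) ?_
  · split_ifs <;> norm_num
  · intro n hn ho h1 _ m h3 h4
    have hn0 : (0 : ℝ) < n := by exact_mod_cast (by omega : 0 < n)
    have h5 : a * (N : ℝ) ^ (4 / 3 : ℝ) ≤ δ * n := by
      have h6 := Real.rpow_le_rpow (Nat.cast_nonneg N) h1 (show (0 : ℝ) ≤ 4 / 3 by norm_num)
      rw [Real.mul_rpow hK0.le (by positivity), ← Real.rpow_mul hn0.le] at h6
      norm_num at h6
      rw [ha, div_mul_eq_mul_div, div_le_iff₀ (by positivity)]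
      calc δ * (N : ℝ) ^ (4 / 3 : ℝ) ≤ δ * (K0 ^ (4 / 3 : ℝ) * n) := mul_le_mul_of_nonneg_left h6 hδ.le
        _ = _ := by ring
    refine le_trans (le_of_eq (Finset.sum_eq_zero fun s _ => if_neg ?_)) (by positivity)
    intro h6
    rcases h6 with h6 | h6
    · linarith
    · have h7 : ((clw s, m) : W3 × ℕ).1.length = n + 1 := length_clw s
      rw [h7] at h6
      push_cast at h6
      nlinarith

/-- **the limit is carried by the simple closed curves with two different roots** -/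
theorem mw_ae (hQ : QB) (hL : LDp) {b : ℝ} (hb : 0 ≤ b) {U : Ultrafilter ℕ} (hU : (U : Filter ℕ) ≤ atTop)
    {P : Measure (ℝ × ℝ × C(unitInterval, ℂ))} (hP : LF.Cv (U : Filter ℕ) (fun N => mw N b) cN P) :
    ∀ᵐ y ∂P, (0 < y.2.1 ∧ y.2.1 < y.1 ∧ y.1 ≤ b) ∧ (y.2.2 0 = 0 ∧ y.2.2 1 = 0) ∧
      (∀ p q : unitInterval, p < q → y.2.2 p = y.2.2 q → p = 0 ∧ q = 1) ∧ 0 < dm y.2.2 := by
  have hX : ∀ᶠ N : ℕ in (U : Filter ℕ), 1 ≤ N := hU (eventually_ge_atTop 1)
  -- small measures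
  have hz : ∀ (N : ℕ) (S : Set (W3 × ℕ)), (∀ x ∈ TN N b, x ∉ S) → (mw N b).real S = 0 := by
    intro N S h
    rw [mw_real, mw_int]
    exact Finset.sum_eq_zero fun x hx => by rw [if_neg (h x hx), mul_zero]
  -- places
  have h1 : P {y | ¬ (0 < y.2.1 ∧ y.2.1 < y.1)} = 0 := by
    refine hP.null_of fun ε hε => ?_
    obtain ⟨a, ha, N0, h⟩ := mw_place hQ hb hε
    have o1 : IsOpen {y : ℝ × ℝ × C(unitInterval, ℂ) | y.2.1 < a} := isOpen_lt (by fun_prop) continuous_const
    have o2 : IsOpen {y : ℝ × ℝ × C(unitInterval, ℂ) | y.1 - y.2.1 < a} := isOpen_lt (by fun_prop) continuous_const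
    refine ⟨{y | y.2.1 < a ∨ y.1 - y.2.1 < a}, o1.union o2, fun y hy => ?_, ?_⟩
    · rw [mem_ofPred_eq, not_and_or, not_lt, not_lt] at hy
      rcases hy with hy | hy
      · exact Or.inl (by linarith)
      · exact Or.inr (by linarith)
    · filter_upwards [hX, hU (eventually_ge_atTop N0)] with N hN hN0
      refine le_trans (le_of_eq ?_) (h N hN0)
      congr 1
      ext x
      have hX0 : (0 : ℝ) < (N : ℝ) ^ (4 / 3 : ℝ) := by
        have : (0 : ℝ) < N := by exact_mod_cast hN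
        positivity
      show ((x.2 : ℝ) / (N : ℝ) ^ (4 / 3 : ℝ) < a ∨ (x.1.length : ℝ) / (N : ℝ) ^ (4 / 3 : ℝ) - (x.2 : ℝ) / (N : ℝ) ^ (4 / 3 : ℝ) < a) ↔ _
      rw [div_lt_iff₀ hX0, ← sub_div, div_lt_iff₀ hX0]
      rfl
  have h2 : P {y | ¬ y.1 ≤ b} = 0 := by
    refine hP.null_of fun ε hε => ⟨{y | b < y.1}, isOpen_lt continuous_const (by fun_prop), fun y hy => not_le.1 hy, ?_⟩
    refine Eventually.of_forall fun N => ?_
    rw [hz]
    · exact hε.le
    · intro x hx h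
      obtain ⟨-, -, h3⟩ := mem_TN.1 hx
      have hN := (length_TN hx).2
      have hX0 : (0 : ℝ) < (N : ℝ) ^ (4 / 3 : ℝ) := by
        have : (0 : ℝ) < N := by exact_mod_cast hN
        positivity
      have h4 : b < (x.1.length : ℝ) / (N : ℝ) ^ (4 / 3 : ℝ) := h
      rw [lt_div_iff₀ hX0] at h4
      linarith
  have h3 : P {y | ¬ (y.2.2 0 = 0 ∧ y.2.2 1 = 0)} = 0 := by
    refine hP.null_of fun ε hε => ⟨{y | y.2.2 0 ≠ 0 ∨ y.2.2 1 ≠ 0}, ?_, fun y hy => not_and_or.1 hy, ?_⟩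
    · have e0 : Continuous fun y : ℝ × ℝ × C(unitInterval, ℂ) => y.2.2 0 := (continuous_eval_const 0).comp (by fun_prop)
      have e1 : Continuous fun y : ℝ × ℝ × C(unitInterval, ℂ) => y.2.2 1 := (continuous_eval_const 1).comp (by fun_prop)
      exact (isOpen_ne_fun e0 continuous_const).union (isOpen_ne_fun e1 continuous_const)
    · refine Eventually.of_forall fun N => ?_
      rw [hz]
      · exact hε.le
      · intro x hx h
        obtain ⟨h4, -, -⟩ := mem_TN.1 hx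
        rcases h with h | h
        · exact h (crv_zero _ _ _)
        · refine h ?_
          show crv x.1 x.1.length N 1 = 0
          rw [crv_one]
          have : ps x.1 x.1.length = 0 := h4.2.1
          rw [this, zero_div]
  have h4 : P {y | ¬ 0 < dm y.2.2} = 0 := by
    refine hP.null_of fun ε hε => ?_
    obtain ⟨r, hr, N0, h⟩ := mw_diam hQ hL hb hε
    refine ⟨{y | dm y.2.2 < r}, isOpen_lt (dm_cont.comp (by fun_prop)) continuous_const, fun y hy => ?_, ?_⟩
    · exact (not_lt.1 hy).trans_lt hr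
    · filter_upwards [hU (eventually_ge_atTop N0)] with N hN0
      refine le_trans (measureReal_mono (fun x hx => ?_) (measure_ne_top _ _)) (h N hN0)
      have hx' : dm (cN N x).2.2 < r := hx
      exact le_of_lt hx'
  have h5 : ∀ k : ℕ, P {y | ∃ p q : unitInterval, (p : ℝ) + 1 / ((k : ℝ) + 1) ≤ q ∧ (q : ℝ) + 1 / ((k : ℝ) + 1) ≤ p + 1 ∧
      y.2.2 q = y.2.2 p} = 0 := by
    intro k
    refine hP.null_of fun ε hε => ?_
    obtain ⟨r, hr, N0, h⟩ := mw_dbl hQ hL (κ := 1 / ((k : ℝ) + 1)) hb (by positivity) hε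
    refine ⟨{y | y.2.2 ∈ DbS (1 / ((k : ℝ) + 1)) r}, (DbS_open _ _).preimage (by fun_prop), fun y hy => ?_, ?_⟩
    · obtain ⟨p, q, hpq, hqp, h6⟩ := hy
      exact ⟨p, q, hpq, hqp, by rw [h6, dist_self]; exact hr⟩
    · filter_upwards [hU (eventually_ge_atTop N0)] with N hN0
      exact h N hN0
  have h6 : ∀ᵐ y ∂P, ∀ k : ℕ, ¬ ∃ p q : unitInterval, (p : ℝ) + 1 / ((k : ℝ) + 1) ≤ q ∧ (q : ℝ) + 1 / ((k : ℝ) + 1) ≤ p + 1 ∧
      y.2.2 q = y.2.2 p := by
    rw [ae_all_iff]
    intro k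
    rw [ae_iff]
    simp only [not_not]
    exact h5 k
  have a1 : ∀ᵐ y ∂P, 0 < y.2.1 ∧ y.2.1 < y.1 := ae_iff.2 h1
  have a2 : ∀ᵐ y ∂P, y.1 ≤ b := ae_iff.2 h2
  have a3 : ∀ᵐ y ∂P, y.2.2 0 = 0 ∧ y.2.2 1 = 0 := ae_iff.2 h3
  have a4 : ∀ᵐ y ∂P, 0 < dm y.2.2 := ae_iff.2 h4
  filter_upwards [a1, a2, a3, a4, h6] with y b1 b2 b3 b4 b5
  refine ⟨⟨b1.1, b1.2, b2⟩, b3, fun p q hpq hγ => ?_, b4⟩
  by_contra hcon
  have hpq' : (p : ℝ) < q := hpq
  have hp0 : (0 : ℝ) ≤ p := p.2.1
  have hq1 : (q : ℝ) ≤ 1 := q.2.2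
  have hd : 0 < 1 - ((q : ℝ) - p) := by
    have h7 : ¬ (1 - ((q : ℝ) - p) ≤ 0) := by
      intro h8
      refine hcon ⟨Subtype.ext ?_, Subtype.ext ?_⟩
      · show (p : ℝ) = 0
        linarith
      · show (q : ℝ) = 1
        linarith
    exact not_le.1 h7
  obtain ⟨k, hk⟩ := exists_nat_one_div_lt (lt_min (sub_pos.2 hpq') hd)
  exact b5 k ⟨p, q, by linarith [hk.le.trans (min_le_left _ _)], by linarith [hk.le.trans (min_le_right _ _)], hγ.symm⟩

end Pool.Agent.ROT.F3
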