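import Pool.Agent.ROT.F3K4
import Pool.Agent.ROT.F3SysN

/-!
# ROT, F3, row K4, second part (helper58): closed conditions on the marked words pass to the limit

* **`mk_closed`** : `(c, p) ∈ F` on `e ≠ 0` along the filter, `F` closed ==> a.e. `(y, Φ y) ∈ F` on `E ≠ 0`;
* `mk_le` : the same for `G (c, p) ≤ δ` eventually for all `δ > 0`, `G` continuous; `mk_eq`; `mk_le_mu` : with the place of the second root;
* `mk_01` : weights with values 0, 1 have limits with values 0, 1.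
-/

set_option autoImplicit false

open MeasureTheory Filter Topology Set BoundedContinuousFunction

open scoped NNReal ENNReal Classical

namespace Pool.Agent.ROT.F3.CK

open Pool.Agent.ROT.F3 Pool.Agent.ROT.F3.CC Pool.Agent.ROT.F3.LF

section mk

variable {ι : Type*} {l : Filter ι} {Ω : ι → Type*} [∀ i, MeasurableSpace (Ω i)] {P : ∀ i, Measure (Ω i)}
  {X : Type*} [PseudoMetricSpace X] [MeasurableSpace X] [BorelSpace X] [CompleteSpace X] [SecondCountableTopology X]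
  {c : ∀ i, Ω i → X} {ν : Measure X} {κ : Type*} [Fintype κ] {p : ∀ i, Ω i → κ → ℝ} {Φ : X → κ → ℝ}
  {e : ∀ i, Ω i → ℝ} {E : X → ℝ}

/-- **closed conditions** -/
theorem mk_closed [l.NeBot] (hC : Cv l P c ν) (he : Lm l P c ν e E) (h0 : ∀ i ω, 0 ≤ e i ω) (h0' : ∀ x, 0 ≤ E x)
    (h : ∀ k, Lm l P c ν (fun i ω => p i ω k) fun x => Φ x k) {F : ℕ → Set (X × (κ → ℝ))} (hF : ∀ j, IsClosed (F j))
    (hi : ∀ j, ∀ᶠ i in l, ∀ᵐ ω ∂(P i), e i ω ≠ 0 → (c i ω, p i ω) ∈ F j) :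
    ∀ᵐ x ∂ν, E x ≠ 0 → ∀ j, (x, Φ x) ∈ F j := by
  have hc := cv_mk hC he h0 h0' h (Θ := fun q : X × (κ → ℝ) => q) continuous_id
  have key : ∀ j, ∀ᵐ x ∂(ν.withDensity fun x => ENNReal.ofReal (E x)), (x, Φ x) ∈ F j := by
    intro j
    have := hc.fin'
    have h1 := hc.open_le (V := (F j)ᶜ) (hF j).isOpen_compl (a := 0) (by
      filter_upwards [hi j] with i hij
      refine le_of_eq ?_
      rw [measureReal_def, ENNReal.toReal_eq_zero_iff]
      left
      have h2 : ∀ᵐ ω ∂((P i).withDensity fun ω => ENNReal.ofReal (e i ω)), (c i ω, p i ω) ∈ F j := by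
        rw [ae_withDensity_iff ((he.ms i).ennreal_ofReal)]
        filter_upwards [hij] with ω hω hne
        refine hω fun h3 => hne ?_
        rw [h3, ENNReal.ofReal_zero]
      exact h2)
    have h3 : ((ν.withDensity fun x => ENNReal.ofReal (E x)).map fun x => (x, Φ x)) (F j)ᶜ = 0 := by
      have h4 := le_antisymm h1 measureReal_nonneg
      rwa [measureReal_eq_zero_iff] at h4
    have hm : Measurable fun x => (x, Φ x) := measurable_id.prodMk (measurable_pi_iff.2 fun k => (h k).ms')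
    rw [Measure.map_apply hm (hF j).measurableSet.compl] at h3
    exact h3
  have h5 := ae_all_iff.2 key
  rw [ae_withDensity_iff he.ms'.ennreal_ofReal] at h5
  filter_upwards [h5] with x hx hne
  refine hx fun h6 => hne ?_
  exact le_antisymm (ENNReal.ofReal_eq_zero.1 h6) (h0' x)

/-- **inequalities** -/
theorem mk_le [l.NeBot] (hC : Cv l P c ν) (he : Lm l P c ν e E) (h0 : ∀ i ω, 0 ≤ e i ω) (h0' : ∀ x, 0 ≤ E x)
    (h : ∀ k, Lm l P c ν (fun i ω => p i ω k) fun x => Φ x k) {G : X × (κ → ℝ) → ℝ} (hG : Continuous G)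
    (hi : ∀ δ : ℝ, 0 < δ → ∀ᶠ i in l, ∀ᵐ ω ∂(P i), e i ω ≠ 0 → G (c i ω, p i ω) ≤ δ) :
    ∀ᵐ x ∂ν, E x ≠ 0 → G (x, Φ x) ≤ 0 := by
  have h1 := mk_closed hC he h0 h0' h (F := fun j : ℕ => {q | G q ≤ 1 / ((j : ℝ) + 1)})
    (fun j => isClosed_le hG continuous_const) fun j => hi _ (by positivity)
  filter_upwards [h1] with x hx hne
  refine ge_of_tendsto' tendsto_one_div_add_atTop_nhds_zero_nat fun j => hx hne j

/-- equalities -/
theorem mk_eq [l.NeBot] (hC : Cv l P c ν) (he : Lm l P c ν e E) (h0 : ∀ i ω, 0 ≤ e i ω) (h0' : ∀ x, 0 ≤ E x)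
    (h : ∀ k, Lm l P c ν (fun i ω => p i ω k) fun x => Φ x k) {G : X × (κ → ℝ) → ℝ} (hG : Continuous G)
    (hi : ∀ δ : ℝ, 0 < δ → ∀ᶠ i in l, ∀ᵐ ω ∂(P i), e i ω ≠ 0 → |G (c i ω, p i ω)| ≤ δ) :
    ∀ᵐ x ∂ν, E x ≠ 0 → G (x, Φ x) = 0 := by
  filter_upwards [mk_le hC he h0 h0' h (G := fun q => |G q|) hG.abs hi] with x hx hne
  exact abs_nonpos_iff.1 (hx hne)

/-- the limit of a weight with the values 0, 1 -/
theorem mk_01 [l.NeBot] (hC : Cv l P c ν) (he : Lm l P c ν e E) (h0 : ∀ i ω, e i ω = 0 ∨ e i ω = 1) :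
    ∀ᵐ x ∂ν, E x = 0 ∨ E x = 1 := by
  have h1 := mk_eq (κ := Unit) (p := fun i ω _ => e i ω) (Φ := fun x _ => E x) (e := fun _ _ => 1) (E := fun _ => 1) hC
    (Lm.const hC 1) (fun _ _ => zero_le_one) (fun _ => zero_le_one) (fun _ => he)
    (G := fun q : X × (Unit → ℝ) => q.2 () * (q.2 () - 1)) (by fun_prop) (fun δ hδ => Eventually.of_forall fun i =>
      ae_of_all _ fun ω _ => by
        rcases h0 i ω with h | h
        · rw [h, zero_mul, abs_zero]
          exact hδ.le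
        · rw [h, sub_self, mul_zero, abs_zero]
          exact hδ.le)
  filter_upwards [h1] with x hx
  rcases mul_eq_zero.1 (hx one_ne_zero) with h | h
  · exact Or.inl h
  · exact Or.inr (by linarith)

end mk

/-- inequalities with the place of the second root -/
theorem mk_le_mu {U : Filter ℕ} [U.NeBot] {μ : ℕ → Measure (W3 × ℕ)} {P : Measure CC.Gm} (hC : Cv U μ cN P)
    (hP : ∀ᵐ y ∂P, 0 < y.2.1 ∧ y.2.1 < y.1) (hμ : ∀ N, ∀ᵐ x ∂(μ N), x.2 < x.1.length) {e : ℕ → W3 × ℕ → ℝ}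
    {E : CC.Gm → ℝ} (he : Lm U μ cN P e E) (h0 : ∀ i ω, 0 ≤ e i ω) (h0' : ∀ x, 0 ≤ E x)
    {κ : Type*} [Fintype κ] {p : ℕ → W3 × ℕ → κ → ℝ} {Φ : CC.Gm → κ → ℝ}
    (h : ∀ k, Lm U μ cN P (fun i ω => p i ω k) fun x => Φ x k) {G : CC.Gm × ℝ × (κ → ℝ) → ℝ} (hG : Continuous G)
    (hi : ∀ δ : ℝ, 0 < δ → ∀ᶠ N in U, ∀ᵐ x ∂(μ N), e N x ≠ 0 → G (cN N x, (x.2 : ℝ) / x.1.length, p N x) ≤ δ) :
    ∀ᵐ y ∂P, E y ≠ 0 → G (y, mu y, Φ y) ≤ 0 := by
  have hmu := lm_mu hC (hP.mono fun y hy => hy.1.trans hy.2)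
  have h1 := mk_le hC he h0 h0' (κ := Option κ) (p := fun N x k => k.elim (muN x) fun j => p N x j)
    (Φ := fun y k => k.elim (muG y) fun j => Φ y j) (fun k => by
      cases k with
      | none => exact hmu
      | some j => exact h j)
    (G := fun q => G (q.1, q.2 none, fun j => q.2 (some j))) (hG.comp (by fun_prop)) (fun δ hδ => by
      filter_upwards [hi δ hδ] with N hN
      filter_upwards [hN, hμ N] with x hx hx2 hne
      show G (cN N x, muN x, p N x) ≤ δ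
      rw [muN_eq hx2]
      exact hx hne)
  filter_upwards [h1, hP] with y hy hy2 hne
  rw [← muG_eq hy2.1 hy2.2]
  exact hy hne

end Pool.Agent.ROT.F3.CK
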