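import Pool.Agent.ROT.F3K1R
import Pool.Agent.ROT.F3K4B

/-!
# ROT / F3LevD (helper62): K8 (d), the class with the functional thresholds and the classes with fixed thresholds

* `Dt.th D y` : the same data with the additional thresholds `y : Fin 4 → ℝ` (A, B at the first root, A, B at the second root);
  `Lv D RA RB S T y` : the words of the class; `glv` : the levels of the four gates `c` read at the marks;
* **`lv_up`** : a word of the class `y` whose gates have the levels `≥ l + u`, `y ≤ u`, is in the class `u`, with the same marks;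
  **`lv_mix`** : two classes mixed strand by strand;
* `mk_open` : a closed relation under an open condition passes to the limit;
* `LvO` : the limit of a class; **`lev_fun`** (functional thresholds), **`lev_up`**, **`lev_mix`** : the same relations in the limit, for
  any system.
-/

set_option autoImplicit false

open MeasureTheory Filter Topology Set BoundedContinuousFunction

open scoped NNReal ENNReal Classical

namespace Pool.Agent.ROT.F3.CK

open Pool.Agent.ROT.F3 Pool.Agent.ROT.F3.CC Pool.Agent.ROT.F3.LF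

/-! ### 1. Words -/

/-- other additional thresholds: A, B at the first root, A, B at the second root -/
def Dt.th (D : Dt) (y : Fin 4 → ℝ) : Dt := { D with y := y 0, y' := y 1, z := y 2, z' := y 3 }

/-- the thresholds of the data -/
def Dt.l (D : Dt) : Fin 4 → ℝ := ![D.P.l, D.P.l, D.Q.l, D.Q.l]

lemma Dt.Ok.th {D : Dt} (h : D.Ok) {y : Fin 4 → ℝ} (hy : ∀ s, 0 ≤ y s) : (D.th y).Ok :=
  ⟨h.P, h.Q, hy 0, hy 1, hy 2, hy 3, h.dd, h.tt, h.d, h.d', h.t, h.t', h.V, h.V'⟩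

lemma fst_up {d : ℂ} {l l' : ℝ} {p : W3} (h : FstC d l p) (h1 : l ≤ l') (h2 : l' ≤ lv d (en p)) : FstC d l' p :=
  ⟨h2, fun k hk hkl hc => (h.2 k hk hkl hc).trans_le h1⟩

/-- a higher threshold -/
lemma preM_up {d : ℂ} {P : Tp} {S T y u : ℝ} {p : W3} {k : ℕ} (h : PreM d (P.up y) S T p k) (hS : 0 < S) (hy : y ≤ u)
    (hl : (P.l + u) * S ≤ lv d (ps p k)) : PreM d (P.up u) S T p k := by
  have hk := h.g.le
  have e : en (p.take k) = ps p k := by
    rw [en, List.length_take, min_eq_left hk, ps_take _ le_rfl hk]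
  refine ⟨⟨hk, h.g.a, fst_up h.g.fa ?_ ?_, h.g.b, h.g.fb⟩, h.th, h.e, h.s, h.la, h.lb⟩
  · show (P.l + y) * S ≤ (P.l + u) * S
    exact mul_le_mul_of_nonneg_right (by linarith) hS.le
  · rw [e]
    exact hl

lemma paiM_up {d d' : ℂ} {P : Tp} {S T y y' u u' : ℝ} {a : W3 × W3} {k k' : ℕ}
    (h : PaiM d d' (P.up y) (P.up y') S T a k k') (hS : 0 < S) (hy : y ≤ u) (hy' : y' ≤ u')
    (hl : (P.l + u) * S ≤ lv d (ps a.1 k)) (hl' : (P.l + u') * S ≤ lv d' (ps a.2 k')) :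
    PaiM d d' (P.up u) (P.up u') S T a k k' :=
  ⟨preM_up h.p1 hS hy hl, preM_up h.p2 hS hy' hl', h.w2, h.w1, h.dj⟩

lemma paiM_mix {d d' : ℂ} {P : Tp} {S T y y' u u' : ℝ} {a : W3 × W3} {k k' : ℕ}
    (h : PaiM d d' (P.up y) (P.up y') S T a k k') (h1 : PreM d (P.up u) S T a.1 k) (h2 : PreM d' (P.up u') S T a.2 k') :
    PaiM d d' (P.up u) (P.up u') S T a k k' :=
  ⟨h1, h2, h.w2, h.w1, h.dj⟩

section words

variable {D : Dt} {S T : ℝ} {x : W3 × ℕ} {RA RB : Set W3} {y u y' v : Fin 4 → ℝ}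

/-- **the words of the class with the thresholds `y`** -/
def Lv (D : Dt) (RA RB : Set W3) (S T : ℝ) (y : Fin 4 → ℝ) : Set (W3 × ℕ) :=
  InC ((D.th y).C S T) ((D.th y).C' S T) RA RB

/-- the levels of the gates `c` of a decomposition -/
noncomputable def glD (D : Dt) (a c : W3 × W3) (k1 k2 j1 j2 : ℕ) : Fin 4 → ℝ :=
  ![lv D.d (ps a.1 k1), lv D.d' (ps a.2 k2), lv D.t (ps c.1 j1), lv D.t' (ps c.2 j2)]

/-- **the levels of the gates `c`, read at the marks** -/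
noncomputable def glv (D : Dt) (S T : ℝ) (x : W3 × ℕ) : Fin 4 → ℝ :=
  ![lv D.d (ps x.1 (mkc D S T x 0)), lv D.d' (ps x.1 (mkc D S T x 7) - ps x.1 x.1.length),
    lv D.t (ps x.1 (mkc D S T x 3) - ps x.1 x.2), lv D.t' (ps x.1 (mkc D S T x 4) - ps x.1 x.2)]

theorem glv_dec (hD : D.Ok) (hS : 0 < S) {a : W3 × W3} {R : W3} {c : W3 × W3} {U : W3} {k1 k2 j1 j2 : ℕ}
    (h : Dec D S T x a R c U k1 k2 j1 j2) : glv D S T x = glD D a c k1 k2 j1 j2 := by
  obtain ⟨⟨a1, a2, a3⟩, ⟨b1, b2, b3⟩, ⟨c1, c2, c3⟩, ⟨d1, d2, d3⟩, e1, e2⟩ := h.even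
  obtain ⟨s1, s2, s3, s4⟩ := h.segs
  have hl := h.len
  have hm := h.m
  obtain ⟨ev1, ev2⟩ := inC_even h.inC
  have f1 : ps a.1 k1 = ps x.1 k1 := by
    have e : ps a.1 k1 = ps (seg x.1 0 a.1.length) k1 := by
      conv_lhs => rw [show a.1 = seg x.1 0 a.1.length from congrArg Prod.fst s1]
    rw [e, ps_seg Even.zero (Nat.zero_le _) (by omega) (by omega), fw_zero]
  have f2 : ps a.2 k2 = ps x.1 (x.1.length - k2) - ps x.1 x.1.length := by
    have e : ps a.2 k2 = ps (x.1.drop (x.2 + c.2.length + U.length)).reverse k2 := by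
      conv_lhs => rw [show a.2 = (x.1.drop (x.2 + c.2.length + U.length)).reverse from congrArg Prod.snd s1]
    rw [e, ps_drop_reverse ((ev1.add d3).add e2) ev2 (by omega) (by omega), bw]
  have f3 : ps c.1 j1 = ps x.1 (x.2 - j1) - ps x.1 x.2 := by
    have e : ps c.1 j1 = ps (seg x.1 (a.1.length + R.length) x.2).reverse j1 := by
      conv_lhs => rw [show c.1 = (seg x.1 (a.1.length + R.length) x.2).reverse from congrArg Prod.fst s3]
    rw [e, ps_seg_reverse (a3.add e1) ev1 (by omega) (by omega) (by omega), bw]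
  have f4 : ps c.2 j2 = ps x.1 (x.2 + j2) - ps x.1 x.2 := by
    have e : ps c.2 j2 = ps (seg x.1 x.2 (x.2 + c.2.length)) j2 := by
      conv_lhs => rw [show c.2 = seg x.1 x.2 (x.2 + c.2.length) from congrArg Prod.snd s3]
    rw [e, ps_seg ev1 (by omega) (by omega) (by omega), fw]
  have g0 : mkc D S T x 0 = k1 := mkc_dec hD hS h 0
  have g7 : mkc D S T x 7 = x.1.length - k2 := by
    rw [mkc_dec hD hS h 7]
    show a.1.length + R.length + c.1.length + c.2.length + U.length + a.2.length - k2 = _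
    omega
  have g3 : mkc D S T x 3 = x.2 - j1 := by
    rw [mkc_dec hD hS h 3]
    show a.1.length + R.length + c.1.length - j1 = _
    omega
  have g4 : mkc D S T x 4 = x.2 + j2 := by
    rw [mkc_dec hD hS h 4]
    show a.1.length + R.length + c.1.length + j2 = _
    omega
  unfold glv glD
  rw [g0, g7, g3, g4, f1, f2, f3, f4]

/-- the levels only see the marks -/
lemma glv_congr (h : mkc (D.th y) S T x = mkc (D.th u) S T x) : glv (D.th y) S T x = glv (D.th u) S T x := by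
  unfold glv
  rw [h]
  rfl

/-- a decomposition for higher thresholds -/
theorem dec_up {a : W3 × W3} {R : W3} {c : W3 × W3} {U : W3} {k1 k2 j1 j2 : ℕ} (hS : 0 < S)
    (h : Dec (D.th y) S T x a R c U k1 k2 j1 j2) (hy : ∀ s, y s ≤ u s)
    (hl : ∀ s, (D.l s + u s) * S ≤ glD D a c k1 k2 j1 j2 s) : Dec (D.th u) S T x a R c U k1 k2 j1 j2 :=
  ⟨paiM_up h.ga hS (hy 0) (hy 1) (hl 0) (hl 1), h.gR, paiM_up h.gc hS (hy 2) (hy 3) (hl 2) (hl 3), h.gU, h.w, h.m⟩

/-- a decomposition of a word of a subclass -/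
lemma lv_dec (hA : RA ⊆ D.A S T) (hB : RB ⊆ D.B S T) (hx : x ∈ Lv D RA RB S T y) :
    ∃ a R c U k1 k2 j1 j2, Dec (D.th y) S T x a R c U k1 k2 j1 j2 ∧ R ∈ RA ∧ U ∈ RB := by
  obtain ⟨a, ⟨k1, k2, ha⟩, R, hR, c, ⟨j1, j2, hc⟩, U, hU, h1, h2⟩ := hx
  exact ⟨a, R, c, U, k1, k2, j1, j2, ⟨ha, hA hR, hc, hB hU, h1, h2⟩, hR, hU⟩

lemma lv_of_dec {a : W3 × W3} {R : W3} {c : W3 × W3} {U : W3} {k1 k2 j1 j2 : ℕ}
    (h : Dec (D.th y) S T x a R c U k1 k2 j1 j2) (hR : R ∈ RA) (hU : U ∈ RB) : x ∈ Lv D RA RB S T y :=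
  ⟨a, ⟨k1, k2, h.ga⟩, R, hR, c, ⟨j1, j2, h.gc⟩, U, hU, h.w, h.m⟩

/-- **higher thresholds** : the same word, the same marks -/
theorem lv_up (hD : D.Ok) (hS : 0 < S) (hA : RA ⊆ D.A S T) (hB : RB ⊆ D.B S T) (h0 : ∀ s, 0 ≤ y s) (hy : ∀ s, y s ≤ u s)
    (hx : x ∈ Lv D RA RB S T y) (hl : ∀ s, (D.l s + u s) * S ≤ glv (D.th y) S T x s) :
    x ∈ Lv D RA RB S T u ∧ mkc (D.th u) S T x = mkc (D.th y) S T x := by
  obtain ⟨a, R, c, U, k1, k2, j1, j2, h, hR, hU⟩ := lv_dec hA hB hx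
  rw [glv_dec (hD.th h0) hS h] at hl
  have h' := dec_up (u := u) hS h hy hl
  refine ⟨lv_of_dec h' hR hU, ?_⟩
  funext i
  rw [mkc_dec (hD.th h0) hS h, mkc_dec (hD.th fun s => (h0 s).trans (hy s)) hS h']

/-- **two classes mixed strand by strand** -/
theorem lv_mix (hD : D.Ok) (hS : 0 < S) (hA : RA ⊆ D.A S T) (hB : RB ⊆ D.B S T) (h0 : ∀ s, 0 ≤ y s) (h0' : ∀ s, 0 ≤ y' s)
    (hy : ∀ s, y s ≤ u s) (hy' : ∀ s, y' s ≤ u s) (hv : ∀ s, v s = y s ∨ v s = y' s) (hx : x ∈ Lv D RA RB S T y)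
    (hx' : x ∈ Lv D RA RB S T y') (hl : ∀ s, (D.l s + u s) * S ≤ glv (D.th y) S T x s)
    (hl' : ∀ s, (D.l s + u s) * S ≤ glv (D.th y') S T x s) :
    x ∈ Lv D RA RB S T v ∧ mkc (D.th v) S T x = mkc (D.th y) S T x := by
  obtain ⟨a, R, c, U, k1, k2, j1, j2, h, hR, hU⟩ := lv_dec hA hB hx
  obtain ⟨a', R', c', U', k1', k2', j1', j2', h', hR', hU'⟩ := lv_dec hA hB hx'
  rw [glv_dec (hD.th h0) hS h] at hl
  rw [glv_dec (hD.th h0') hS h'] at hl'
  have g := dec_up (u := u) hS h hy hl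
  have g' := dec_up (u := u) hS h' hy' hl'
  obtain ⟨⟨e1, e2, e3, e4⟩, e5, e6, e7, e8⟩ := dec_uniq (hD.th fun s => (h0 s).trans (hy s)) hS g.ga g'.ga g.gc g'.gc
    g.gR g'.gR g.gU g'.gU (by rw [len3, len3, g.m, g'.m]) (g.w.trans g'.w.symm)
  subst e1 e2 e3 e4 e5 e6 e7 e8
  have p0 : PreM D.d (D.P.up (v 0)) S T a.1 k1 := by
    rcases hv 0 with e | e
    · rw [e]; exact h.ga.p1
    · rw [e]; exact h'.ga.p1
  have p1 : PreM D.d' (D.P.up (v 1)) S T a.2 k2 := by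
    rcases hv 1 with e | e
    · rw [e]; exact h.ga.p2
    · rw [e]; exact h'.ga.p2
  have p2 : PreM D.t (D.Q.up (v 2)) S T c.1 j1 := by
    rcases hv 2 with e | e
    · rw [e]; exact h.gc.p1
    · rw [e]; exact h'.gc.p1
  have p3 : PreM D.t' (D.Q.up (v 3)) S T c.2 j2 := by
    rcases hv 3 with e | e
    · rw [e]; exact h.gc.p2
    · rw [e]; exact h'.gc.p2
  have hv0 : ∀ s, 0 ≤ v s := fun s => by
    rcases hv s with e | e
    · rw [e]; exact h0 s
    · rw [e]; exact h0' s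
  have k : Dec (D.th v) S T x a R c U k1 k2 j1 j2 :=
    ⟨paiM_mix h.ga p0 p1, h.gR, paiM_mix h.gc p2 p3, h.gU, h.w, h.m⟩
  refine ⟨lv_of_dec k hR hU, ?_⟩
  funext i
  rw [mkc_dec (hD.th h0) hS h, mkc_dec (hD.th hv0) hS k]

end words

/-! ### 2. A closed relation under an open condition -/

section gen

variable {ι : Type*} {l : Filter ι} {Ω : ι → Type*} [∀ i, MeasurableSpace (Ω i)] {P : ∀ i, Measure (Ω i)}
  {X : Type*} [PseudoMetricSpace X] [MeasurableSpace X] [BorelSpace X] [CompleteSpace X] [SecondCountableTopology X]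
  {c : ∀ i, Ω i → X} {ν : Measure X} {e : ∀ i, Ω i → ℝ} {E : X → ℝ}

/-- a closed relation under an open condition -/
theorem mk_open [l.NeBot] {κ : Type*} [Fintype κ] {p : ∀ i, Ω i → κ → ℝ} {Φ : X → κ → ℝ} (hC : Cv l P c ν)
    (he : Lm l P c ν e E) (h0 : ∀ i ω, 0 ≤ e i ω) (h0' : ∀ x, 0 ≤ E x)
    (h : ∀ k, Lm l P c ν (fun i ω => p i ω k) fun x => Φ x k) {ψ F : (κ → ℝ) → ℝ} (hψ : Continuous ψ) (hF : Continuous F)
    (hi : ∀ᶠ i in l, ∀ᵐ ω ∂(P i), e i ω ≠ 0 → ψ (p i ω) ≠ 0 → F (p i ω) = 0) :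
    ∀ᵐ x ∂ν, E x ≠ 0 → ψ (Φ x) ≠ 0 → F (Φ x) = 0 := by
  have h1 := mk_eq hC he h0 h0' h (G := fun q : X × (κ → ℝ) => ψ q.2 * F q.2)
    ((hψ.comp continuous_snd).mul (hF.comp continuous_snd)) (fun δ hδ => by
      filter_upwards [hi] with i hi
      filter_upwards [hi] with ω hω hne
      by_cases h2 : ψ (p i ω) = 0
      · show |ψ (p i ω) * F (p i ω)| ≤ δ
        rw [h2, zero_mul, abs_zero]
        exact hδ.le
      · show |ψ (p i ω) * F (p i ω)| ≤ δ
        rw [hω hne h2, mul_zero, abs_zero]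
        exact hδ.le)
  filter_upwards [h1] with x hx hne h3
  exact (mul_eq_zero.1 (hx hne)).resolve_left h3

/-- **strict inequalities ==> equalities** -/
theorem mk_strict [l.NeBot] {σ τ : Type*} [Fintype σ] [Fintype τ] {q : ∀ i, Ω i → σ → ℝ} {Q : X → σ → ℝ}
    {r r' : ∀ i, Ω i → τ → ℝ} {R R' : X → τ → ℝ} (hC : Cv l P c ν)
    (he : Lm l P c ν e E) (h0 : ∀ i ω, 0 ≤ e i ω) (h0' : ∀ x, 0 ≤ E x)
    (hq : ∀ s, Lm l P c ν (fun i ω => q i ω s) fun x => Q x s) (hr : ∀ k, Lm l P c ν (fun i ω => r i ω k) fun x => R x k)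
    (hr' : ∀ k, Lm l P c ν (fun i ω => r' i ω k) fun x => R' x k)
    (hi : ∀ᶠ i in l, ∀ᵐ ω ∂(P i), e i ω ≠ 0 → (∀ s, 0 < q i ω s) → ∀ k, r i ω k = r' i ω k) :
    ∀ᵐ x ∂ν, E x ≠ 0 → (∀ s, 0 < Q x s) → ∀ k, R x k = R' x k := by
  have h1 := mk_open (κ := σ ⊕ (τ ⊕ τ)) (p := fun i ω => Sum.elim (q i ω) (Sum.elim (r i ω) (r' i ω)))
    (Φ := fun x => Sum.elim (Q x) (Sum.elim (R x) (R' x))) hC he h0 h0' (fun k => by
      rcases k with s | k | k
      · exact hq s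
      · exact hr k
      · exact hr' k)
    (ψ := fun z => ∏ s : σ, max 0 (z (Sum.inl s))) (F := fun z => ∑ k : τ, |z (Sum.inr (Sum.inl k)) - z (Sum.inr (Sum.inr k))|)
    (by fun_prop) (by fun_prop) (by
      filter_upwards [hi] with i hi
      filter_upwards [hi] with ω hω hne hψ
      have h2 : ∀ s, 0 < q i ω s := fun s => by
        by_contra h3
        refine hψ (Finset.prod_eq_zero (Finset.mem_univ s) ?_)
        exact max_eq_left (not_lt.1 h3)
      refine Finset.sum_eq_zero fun k _ => ?_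
      show |r i ω k - r' i ω k| = 0
      rw [hω hne h2 k, sub_self, abs_zero])
  filter_upwards [h1] with x hx hne h2 k
  have h3 := hx hne (by
    refine Finset.prod_ne_zero_iff.2 fun s _ => ?_
    show max 0 (Q x s) ≠ 0
    rw [max_eq_right (h2 s).le]
    exact (h2 s).ne')
  have h4 : |R x k - R' x k| = 0 := (Finset.sum_eq_zero_iff_of_nonneg fun k _ => abs_nonneg _).1 h3 k (Finset.mem_univ k)
  exact sub_eq_zero.1 (abs_eq_zero.1 h4)

end gen

/-! ### 3. The classes in the limit -/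

section lim

variable {U : Filter ℕ} {μ : ℕ → Measure (W3 × ℕ)} {X : Type*} [PseudoMetricSpace X] [MeasurableSpace X] [BorelSpace X]
  [CompleteSpace X] [SecondCountableTopology X] {cc : ℕ → W3 × ℕ → X} {ν : Measure X} {D : Dt} {RA RB : ℕ → Set W3}

/-- the indicator of the class with the thresholds `y` (which may depend on the word) -/
noncomputable def iL (D : Dt) (RA RB : ℕ → Set W3) (y : ℕ → W3 × ℕ → Fin 4 → ℝ) (N : ℕ) (x : W3 × ℕ) : ℝ :=
  if x ∈ Lv D (RA N) (RB N) N (uT N) (y N x) then 1 else 0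

lemma iL_nonneg (y : ℕ → W3 × ℕ → Fin 4 → ℝ) (N : ℕ) (x : W3 × ℕ) : 0 ≤ iL D RA RB y N x := by
  unfold iL
  split_ifs
  · exact zero_le_one
  · exact le_rfl

lemma iL_01 (y : ℕ → W3 × ℕ → Fin 4 → ℝ) (N : ℕ) (x : W3 × ℕ) : iL D RA RB y N x = 0 ∨ iL D RA RB y N x = 1 := by
  unfold iL
  split_ifs
  · exact Or.inr rfl
  · exact Or.inl rfl

lemma iL_ne {y : ℕ → W3 × ℕ → Fin 4 → ℝ} {N : ℕ} {x : W3 × ℕ} (h : iL D RA RB y N x ≠ 0) :
    x ∈ Lv D (RA N) (RB N) N (uT N) (y N x) := by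
  by_contra h2
  exact h (if_neg h2)

/-- **the limit of a class**: `E` = limit of the indicator, `Φ` = limit of the eight times, `Λ` = limit of the four levels -/
structure LvO (U : Filter ℕ) (μ : ℕ → Measure (W3 × ℕ)) (cc : ℕ → W3 × ℕ → X) (ν : Measure X) (D : Dt) (RA RB : ℕ → Set W3)
    (y : ℕ → W3 × ℕ → Fin 4 → ℝ) (E : X → ℝ) (Φ : X → Fin 8 → ℝ) (Λ : X → Fin 4 → ℝ) : Prop where
  e : Lm U μ cc ν (iL D RA RB y) E
  e0 : ∀ g, 0 ≤ E g
  T : ∃ t : ℕ → W3 × ℕ → Fin 8 → ℝ, (∀ k, Lm U μ cc ν (fun N x => t N x k) fun g => Φ g k) ∧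
    ∀ᶠ N in U, ∀ᵐ x ∂(μ N), x ∈ Lv D (RA N) (RB N) N (uT N) (y N x) → ∀ k, t N x k = mkt (D.th (y N x)) N (uT N) x k
  Λ : ∃ t : ℕ → W3 × ℕ → Fin 4 → ℝ, (∀ s, Lm U μ cc ν (fun N x => t N x s) fun g => Λ g s) ∧
    ∀ᶠ N in U, ∀ᵐ x ∂(μ N), x ∈ Lv D (RA N) (RB N) N (uT N) (y N x) → ∀ s, t N x s * N = glv (D.th (y N x)) N (uT N) x s

variable {y u y' v : ℕ → W3 × ℕ → Fin 4 → ℝ} {E E' E'' : X → ℝ} {Φ Φ' Φ'' : X → Fin 8 → ℝ} {Λ Λ' Λ'' : X → Fin 4 → ℝ}

/-- the weight has the values 0, 1 -/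
theorem LvO.one [U.NeBot] (hC : Cv U μ cc ν) (H : LvO U μ cc ν D RA RB y E Φ Λ) : ∀ᵐ g ∂ν, E g = 0 ∨ E g = 1 :=
  mk_01 hC H.e fun N x => iL_01 y N x

/-- the general form -/
theorem lev_gen [U.NeBot] {σ : Type*} [Fintype σ] {q : ℕ → W3 × ℕ → σ → ℝ} {Q : X → σ → ℝ} (hC : Cv U μ cc ν)
    (H : LvO U μ cc ν D RA RB y E Φ Λ) (H' : LvO U μ cc ν D RA RB u E' Φ' Λ')
    (hq : ∀ s, Lm U μ cc ν (fun N x => q N x s) fun g => Q g s)
    (hi : ∀ᶠ N in U, ∀ᵐ x ∂(μ N), x ∈ Lv D (RA N) (RB N) N (uT N) (y N x) → (∀ s, 0 < q N x s) →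
      x ∈ Lv D (RA N) (RB N) N (uT N) (u N x) ∧ mkc (D.th (u N x)) N (uT N) x = mkc (D.th (y N x)) N (uT N) x)
    (hN : ∀ᶠ N : ℕ in U, 0 < N) :
    ∀ᵐ g ∂ν, E g ≠ 0 → (∀ s, 0 < Q g s) → E' g = E g ∧ Φ' g = Φ g ∧ Λ' g = Λ g := by
  obtain ⟨t, t1, t2⟩ := H.T
  obtain ⟨t', t1', t2'⟩ := H'.T
  obtain ⟨b, b1, b2⟩ := H.Λ
  obtain ⟨b', b1', b2'⟩ := H'.Λ
  have h1 := mk_strict (σ := σ) (τ := Unit ⊕ (Fin 8 ⊕ Fin 4)) hC H.e (fun N x => iL_nonneg y N x) H.e0 hq
    (r := fun N x => Sum.elim (fun _ => iL D RA RB u N x) (Sum.elim (t' N x) (b' N x)))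
    (R := fun g => Sum.elim (fun _ => E' g) (Sum.elim (Φ' g) (Λ' g)))
    (r' := fun N x => Sum.elim (fun _ => iL D RA RB y N x) (Sum.elim (t N x) (b N x)))
    (R' := fun g => Sum.elim (fun _ => E g) (Sum.elim (Φ g) (Λ g))) (fun k => by
      rcases k with k | k | k
      · exact H'.e
      · exact t1' k
      · exact b1' k) (fun k => by
      rcases k with k | k | k
      · exact H.e
      · exact t1 k
      · exact b1 k) (by
      filter_upwards [hi, t2, t2', b2, b2', hN] with N g1 g2 g3 g4 g5 g6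
      filter_upwards [g1, g2, g3, g4, g5] with x a1 a2 a3 a4 a5 hne hs k
      have hx := iL_ne hne
      obtain ⟨hx', hm⟩ := a1 hx hs
      rcases k with k | k | k
      · show iL D RA RB u N x = iL D RA RB y N x
        unfold iL
        rw [if_pos hx, if_pos hx']
      · show t' N x k = t N x k
        rw [a3 hx' k, a2 hx k]
        unfold mkt
        rw [hm]
      · show b' N x k = b N x k
        have hN' : (N : ℝ) ≠ 0 := by exact_mod_cast g6.ne'
        refine mul_right_cancel₀ hN' ?_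
        rw [a5 hx' k, a4 hx k, glv_congr hm])
  filter_upwards [h1] with g hg hne hs
  exact ⟨hg hne hs (Sum.inl ()), funext fun k => hg hne hs (Sum.inr (Sum.inl k)), funext fun s => hg hne hs (Sum.inr (Sum.inr s))⟩

/-- **functional thresholds** : `y ≤` (strictly) the functional thresholds `A`, the levels of the gates of the class `y` are
(strictly) above `l + A` ==> the functional class is the class `y`, with the same times and levels -/
theorem lev_fun [U.NeBot] (hC : Cv U μ cc ν) (hU : ∀ᶠ N : ℕ in U, 0 < N) (hD : D.Ok) (hA : ∀ᶠ N in U, RA N ⊆ D.A N (uT N))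
    (hB : ∀ᶠ N in U, RB N ⊆ D.B N (uT N)) {y : Fin 4 → ℝ} (hy : ∀ s, 0 ≤ y s) {A : X → Fin 4 → ℝ}
    (H : LvO U μ cc ν D RA RB (fun _ _ => y) E Φ Λ) (H' : LvO U μ cc ν D RA RB u E' Φ' Λ')
    (hu : ∀ s, Lm U μ cc ν (fun N x => u N x s) fun g => A g s) :
    ∀ᵐ g ∂ν, E g ≠ 0 → (∀ s, y s < A g s) → (∀ s, D.l s + A g s < Λ g s) → E' g = E g ∧ Φ' g = Φ g ∧ Λ' g = Λ g := by
  obtain ⟨b, b1, b2⟩ := H.Λ
  have h1 := lev_gen (σ := Fin 4 ⊕ Fin 4) hC H H' (q := fun N x => Sum.elim (fun s => u N x s - y s)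
    (fun s => b N x s - (D.l s + u N x s))) (Q := fun g => Sum.elim (fun s => A g s - y s) (fun s => Λ g s - (D.l s + A g s)))
    (fun k => by
      rcases k with s | s
      · exact Lm.sub hC (hu s) (Lm.const hC _)
      · exact Lm.sub hC (b1 s) (Lm.add hC (Lm.const hC _) (hu s))) (by
      filter_upwards [b2, hU, hA, hB] with N g1 g2 g3 g4
      filter_upwards [g1] with x a1 hx hs
      have hN : (0 : ℝ) < N := by exact_mod_cast g2
      refine lv_up hD hN g3 g4 hy (fun s => ?_) hx fun s => ?_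
      · have := hs (Sum.inl s)
        simp only [Sum.elim_inl] at this
        linarith
      · have := hs (Sum.inr s)
        simp only [Sum.elim_inr] at this
        rw [← a1 hx s]
        exact mul_le_mul_of_nonneg_right (by linarith) hN.le) hU
  filter_upwards [h1] with g hg hne h2 h3
  refine hg hne fun k => ?_
  rcases k with s | s
  · exact sub_pos.2 (h2 s)
  · exact sub_pos.2 (h3 s)

/-- **higher fixed thresholds** -/
theorem lev_up [U.NeBot] (hC : Cv U μ cc ν) (hU : ∀ᶠ N : ℕ in U, 0 < N) (hD : D.Ok) (hA : ∀ᶠ N in U, RA N ⊆ D.A N (uT N))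
    (hB : ∀ᶠ N in U, RB N ⊆ D.B N (uT N)) {y u : Fin 4 → ℝ} (hy : ∀ s, 0 ≤ y s) (hyu : ∀ s, y s ≤ u s)
    (H : LvO U μ cc ν D RA RB (fun _ _ => y) E Φ Λ) (H' : LvO U μ cc ν D RA RB (fun _ _ => u) E' Φ' Λ') :
    ∀ᵐ g ∂ν, E g ≠ 0 → (∀ s, D.l s + u s < Λ g s) → E' g = E g ∧ Φ' g = Φ g ∧ Λ' g = Λ g := by
  obtain ⟨b, b1, b2⟩ := H.Λ
  have h1 := lev_gen (σ := Fin 4) hC H H' (q := fun N x s => b N x s - (D.l s + u s))
    (Q := fun g s => Λ g s - (D.l s + u s))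
    (fun s => Lm.sub hC (b1 s) (Lm.const hC _)) (by
      filter_upwards [b2, hU, hA, hB] with N g1 g2 g3 g4
      filter_upwards [g1] with x a1 hx hs
      have hN : (0 : ℝ) < N := by exact_mod_cast g2
      refine lv_up hD hN g3 g4 hy hyu hx fun s => ?_
      have := hs s
      rw [← a1 hx s]
      exact mul_le_mul_of_nonneg_right (by linarith) hN.le) hU
  filter_upwards [h1] with g hg hne h2
  exact hg hne fun s => sub_pos.2 (h2 s)

/-- **two classes mixed strand by strand** -/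
theorem lev_mix [U.NeBot] (hC : Cv U μ cc ν) (hU : ∀ᶠ N : ℕ in U, 0 < N) (hD : D.Ok) (hA : ∀ᶠ N in U, RA N ⊆ D.A N (uT N))
    (hB : ∀ᶠ N in U, RB N ⊆ D.B N (uT N)) {y y' u v : Fin 4 → ℝ} (hy : ∀ s, 0 ≤ y s) (hy' : ∀ s, 0 ≤ y' s)
    (hyu : ∀ s, y s ≤ u s) (hyu' : ∀ s, y' s ≤ u s) (hv : ∀ s, v s = y s ∨ v s = y' s)
    (H : LvO U μ cc ν D RA RB (fun _ _ => y) E Φ Λ) (H' : LvO U μ cc ν D RA RB (fun _ _ => y') E' Φ' Λ')
    (H'' : LvO U μ cc ν D RA RB (fun _ _ => v) E'' Φ'' Λ'') :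
    ∀ᵐ g ∂ν, E g ≠ 0 → E' g ≠ 0 → (∀ s, D.l s + u s < Λ g s) → (∀ s, D.l s + u s < Λ' g s) →
      E'' g = E g ∧ Φ'' g = Φ g ∧ Λ'' g = Λ g := by
  obtain ⟨t, t1, t2⟩ := H.T
  obtain ⟨t', t1', t2'⟩ := H''.T
  obtain ⟨b, b1, b2⟩ := H.Λ
  obtain ⟨b', b1', b2'⟩ := H''.Λ
  obtain ⟨f, f1, f2⟩ := H'.Λ
  have h1 := mk_strict (σ := Fin 4 ⊕ Fin 4) (τ := Unit ⊕ (Fin 8 ⊕ Fin 4)) hC
    (e := fun N x => iL D RA RB (fun _ _ => y) N x * iL D RA RB (fun _ _ => y') N x) (E := fun g => E g * E' g)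
    (Lm.mul hC H.e H'.e) (fun N x => mul_nonneg (iL_nonneg _ N x) (iL_nonneg _ N x))
    (fun g => mul_nonneg (H.e0 g) (H'.e0 g))
    (q := fun N x => Sum.elim (fun s => b N x s - (D.l s + u s)) (fun s => f N x s - (D.l s + u s)))
    (Q := fun g => Sum.elim (fun s => Λ g s - (D.l s + u s)) (fun s => Λ' g s - (D.l s + u s)))
    (fun k => by
      rcases k with s | s
      · exact Lm.sub hC (b1 s) (Lm.const hC _)
      · exact Lm.sub hC (f1 s) (Lm.const hC _))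
    (r := fun N x => Sum.elim (fun _ => iL D RA RB (fun _ _ => v) N x) (Sum.elim (t' N x) (b' N x)))
    (R := fun g => Sum.elim (fun _ => E'' g) (Sum.elim (Φ'' g) (Λ'' g)))
    (r' := fun N x => Sum.elim (fun _ => iL D RA RB (fun _ _ => y) N x) (Sum.elim (t N x) (b N x)))
    (R' := fun g => Sum.elim (fun _ => E g) (Sum.elim (Φ g) (Λ g))) (fun k => by
      rcases k with k | k | k
      · exact H''.e
      · exact t1' k
      · exact b1' k) (fun k => by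
      rcases k with k | k | k
      · exact H.e
      · exact t1 k
      · exact b1 k) (by
      filter_upwards [t2, t2', b2, b2', f2, hU, hA, hB] with N g2 g3 g4 g5 g6 g7 g8 g9
      filter_upwards [g2, g3, g4, g5, g6] with x a2 a3 a4 a5 a6 hne hs k
      have hx := iL_ne (left_ne_zero_of_mul hne)
      have hx' := iL_ne (right_ne_zero_of_mul hne)
      have hN : (0 : ℝ) < N := by exact_mod_cast g7
      obtain ⟨hx'', hm⟩ := lv_mix hD hN g8 g9 hy hy' hyu hyu' hv hx hx' (fun s => by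
          have := hs (Sum.inl s)
          simp only [Sum.elim_inl] at this
          rw [← a4 hx s]
          exact mul_le_mul_of_nonneg_right (by linarith) hN.le) (fun s => by
          have := hs (Sum.inr s)
          simp only [Sum.elim_inr] at this
          rw [← a6 hx' s]
          exact mul_le_mul_of_nonneg_right (by linarith) hN.le)
      rcases k with k | k | k
      · show iL D RA RB (fun _ _ => v) N x = iL D RA RB (fun _ _ => y) N x
        unfold iL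
        rw [if_pos hx, if_pos hx'']
      · show t' N x k = t N x k
        rw [a3 hx'' k, a2 hx k]
        unfold mkt
        rw [hm]
      · show b' N x k = b N x k
        refine mul_right_cancel₀ hN.ne' ?_
        rw [a5 hx'' k, a4 hx k, glv_congr hm])
  filter_upwards [h1] with g hg hne hne' h2 h3
  have h4 := hg (mul_ne_zero hne hne') fun k => by
    rcases k with s | s
    · exact sub_pos.2 (h2 s)
    · exact sub_pos.2 (h3 s)
  exact ⟨h4 (Sum.inl ()), funext fun k => h4 (Sum.inr (Sum.inl k)), funext fun s => h4 (Sum.inr (Sum.inr s))⟩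

end lim

end Pool.Agent.ROT.F3.CK
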