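import Pool.Agent.ROT.F3JmB
import Pool.Agent.ROT.F3JmE
import Pool.Agent.ROT.F3CoreP
import Pool.Agent.ROT.F3LevD

/-!
# ROT / F3JmH (helper82): h5, h6 of the joint marks `Jm` of one pair of classes, literals of F3JmD

* `fgs_short`, `fgs_long` : the conditions of one end on the rest and on the arc; `frE_of`; `cev0_arm`, `cev0_wd`; `jKR_iff`;
* **`h5_at`**, **`h6_at`** : one curve;
* `fg_over` : the foreign gates over `x` from the gates over the root at the functional level;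
* **`JhIn`** : the inputs (almost every curve); **`jm_h5`**, **`jm_h6`** : the fields of `Jm`; **`Jm.congr`** : other marks and weights off
  the classes; `cev0_ae`, `reR_of` : inputs of `JhIn` from `clsK`, `clsF` of helper2.
-/

set_option autoImplicit false

namespace Pool.Agent.ROT.F3.CK

open MeasureTheory Set unitInterval

open scoped ENNReal Classical

open Pool.Agent.ROT.F3 Pool.Agent.ROT.F3.LF

/-! ### 1. Times -/

/-- the eight times as points of the curve -/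
noncomputable def Ga.i8 (G : Ga) (g : CC.Gm) : Fin 8 → I :=
  ![G.ic .fp g, G.ix .fp g, G.ix .bq g, G.ic .bq g, G.ic .fq g, G.ix .fq g, G.ix .bp g, G.ic .bp g]

lemma pji_t8 (G : Ga) (g : CC.Gm) : (fun k => pji (G.t8 g k)) = G.i8 g := by
  funext k
  fin_cases k <;> rfl

lemma phi8_on {G : Ga} {g : CC.Gm} (h : ∀ k, g ∈ G.B k) : phi8 G.B G.c G.x g = G.t8 g := by
  funext k
  rw [phi8_t8, bi_pos (mem_iInter.2 h), one_mul]

lemma pji_phi8 {G : Ga} {g : CC.Gm} (h : ∀ k, g ∈ G.B k) : (fun k => pji (phi8 G.B G.c G.x g k)) = G.i8 g := by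
  rw [phi8_on h]
  exact pji_t8 G g

/-- the times of the turned gates -/
lemma rot_i8 (G : Ga) (z : ℂ) (g : CC.Gm) : (G.rot z).i8 g = G.i8 (rotX z⁻¹ g) := by
  funext k
  fin_cases k <;> rfl

lemma jS_on {P : Prm} {H : Ga} {g : CC.Gm} (h : ∀ k, g ∈ (H.rot P.u).B k) : jS P H g = (H.rot P.u).t8 g := by
  have e : jS P H g = phi8 H.B H.c H.x (rotX P.u⁻¹ g) := rfl
  rw [e, rot_t8]
  exact phi8_on fun k => h k

lemma jT_on {G0 : Ga} {g : CC.Gm} (h : ∀ k, g ∈ G0.B k) : jT G0 g = G0.t8 g := by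
  have e : jT G0 g = phi8 G0.B G0.c G0.x g := rfl
  rw [e]
  exact phi8_on h

/-! ### 2. Windows and ends -/

/-- the block `c~ .. x~` is in the ball `f.r2` of `c~` -/
lemma kcF_blk {d t : ℂ} {E : En} {g : C(I, ℂ)} {L : ℝ} {x w z : I} (h : kcF d t E g L x w z ≤ 0) :
    ∀ u, BtI w u z → ‖g u - g w‖ ≤ E.f.r2 := by
  unfold kcF at h
  simp only [max_le_iff] at h
  exact (stS_bt continuous_norm).1 h.1.1.2

section

variable {P : Prm} {i j : Fin 3} {G0 H GR : Ga} {g : CC.Gm} {k : Arm}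

lemma dirA_nmH (i j : Fin 3) (k : Arm) : ‖dirA i j k‖ = 1 := by
  cases k <;> exact ev_norm _

lemma endA_okH (hP : P.Ok) (k : Arm) : (endA P k).Ok ‖P.u - 1‖ := by
  cases k
  · exact hP.p
  · exact hP.q
  · exact hP.q
  · exact hP.p

lemma oppA_opp (k : Arm) : oppA (oppA k) = k := by cases k <;> rfl

/-- sum of the two ends of a strand -/
lemma endA_add {f : En → ℝ} (k : Arm) : f (endA P k) + f (endA P (oppA k)) = f P.p + f P.q := by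
  cases k
  · rfl
  · exact add_comm _ _
  · exact add_comm _ _
  · rfl

lemma wnA_ok (hP : P.Ok) (a : Fin 3) : 16 * (P.p.s.len + P.q.s.len) < (wnA P a).D0 := by
  unfold wnA
  have h1 := hP.nr
  have h2 := hP.nrc
  have h3 := hP.p.bn
  have h4 := hP.q.bn
  have h5 := hP.p.len
  have h6 := hP.q.len
  have f1 : 0 ≤ P.p.f.r0 := by
    have := hP.p.f
    linarith [this.r, this.r2, this.g64, this.rr]
  have f2 : 0 ≤ P.q.f.r0 := by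
    have := hP.q.f
    linarith [this.r, this.r2, this.g64, this.rr]
  split_ifs
  · linarith
  · exact hP.nrc

/-- numbers of one end -/
lemma end_nm {E : En} {ε : ℝ} (h : E.Ok ε) : E.f.rg ≤ E.f.r0 ∧ 0 ≤ E.f.κ ∧ E.f.r0 ≤ E.s.bn ∧ 0 ≤ E.f.r0 ∧ 2 * E.s.bn ≤ E.s.len ∧
    64 * E.k ≤ E.f.r0 ∧ 0 ≤ E.k := by
  have h1 := h.f
  have h2 := h.bn
  have h3 : 0 ≤ E.f.r0 := by linarith [h1.r, h1.r2, h1.g64, h1.rr]
  have h4 := h.ball
  have h5 := h.n.r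
  have h6 := h.n.r2
  have h7 := h.rk
  have h8 : E.k = E.rk + E.f.r2 := rfl
  refine ⟨h1.rr, h1.κ.le, by linarith, h3, h.len, ?_, ?_⟩
  · rw [h8]
    linarith [h1.g64, h1.rr]
  · rw [h8]
    linarith [h1.r2]

/-! ### 3. Orders -/

lemma leA_oppH {a b : I} : leA (oppA k) a b ↔ leA k b a := by cases k <;> exact Iff.rfl

/-- `rsF ≤ 0` -/
lemma rsF_wi {d d' : ℂ} {T Q : Tp} {W : Wn} {g : C(I, ℂ)} {L : ℝ} {a b : I} : rsF d d' T Q W g L a b ≤ 0 ↔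
    stS (fRa d T.c T.r0) (cutc g a b) ≤ T.κ ∧ stS (fRa d' Q.c Q.r0) (cutc g b a) ≤ Q.κ ∧ wiF W g L a b ≤ 0 := by
  unfold rsF wiF
  simp only [max_le_iff, sub_nonpos]
  tauto

lemma wiF_farH {W : Wn} {g : C(I, ℂ)} {L : ℝ} {a b : I} (h : wiF W g L a b ≤ 0) : W.D0 ≤ ‖g b - g a‖ := by
  unfold wiF at h
  have h1 := (le_max_left _ _).trans ((le_max_left _ _).trans h)
  rw [cutc_one] at h1
  linarith

lemma cls_bnH (hP : P.Ok) (a : Fin 3) (k : Arm) : (endA P k).s.bn + 2 * (endA P (oppA k)).k < (wnA P a).D0 := by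
  have h1 := wnA_ok hP a
  have h2 := endA_add (P := P) (f := fun E => E.s.len) k
  obtain ⟨-, -, a3, a4, a5, a6, a7⟩ := end_nm (endA_okH hP k)
  obtain ⟨-, -, b3, b4, b5, b6, b7⟩ := end_nm (endA_okH hP (oppA k))
  linarith

/-! ### 4. One end -/

/-- the conditions of one end on the arc -/
theorem fgs_short (hP : P.Ok) (h1 : FgS P i j G0 GR k g) (h2 : FgS P i j G0 GR (oppA k) g)
    (ho : leA k (GR.ix k g) (GR.ix (oppA k) g)) {a : Fin 3}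
    (hD : (wnA P a).D0 ≤ ‖g.2.2 (GR.ix (oppA k) g) - g.2.2 (GR.ix k g)‖) :
    stS (fRa (P.u * dirA i j k) (endA P k).f.c (endA P k).f.r0) (cutc g.2.2 (GR.ix k g) (GR.ix (oppA k) g)) ≤ (endA P k).f.κ ∧
      reK (P.u * dirA i j k) (endA P k).f.rg g.2.2 (GR.ix k g) (GR.ix (oppA k) g) ≤ 0 ∧
      (clA i j k = 0 → nrF (P.u * dirA i j k) (endA P k).s g.2.2 (GR.ix k g) (GR.ix (oppA k) g) ≤ 0) := by
  have hd : ‖P.u * dirA i j k‖ = 1 := by rw [norm_mul, hP.u, dirA_nmH, one_mul]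
  have e1 : leA k (GR.ix (oppA k) g) (GR.ic (oppA k) g) := leA_oppH.1 h2.o2
  have e2 : leA k (GR.ic (oppA k) g) (G0.ix (oppA k) g) := leA_oppH.1 h2.o1
  have hb : BtI (GR.ix k g) (GR.ix (oppA k) g) (G0.ix (oppA k) g) := ho.bt (e1.trans e2)
  have co := (endA_okH hP k).f.co
  obtain ⟨-, -, -, b4, b5, b6, b7⟩ := end_nm (endA_okH hP (oppA k))
  have h3 := cls_bnH hP a k
  exact ⟨stS_shor (fRa_lip hd co.c0 co.c1).continuous hb h1.ra, reK_sub hd hb h1.re,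
    fun h => nrF_sub hd hb (by linarith) (h1.nr h)⟩

/-- the conditions of one end on the rest -/
theorem fgs_long (hP : P.Ok) (n1 : NgS P i j G0 GR k g) (n2 : NgS P i j G0 GR (oppA k) g) (e : g ∈ GR.B k)
    (ho : leA k (GR.ix k g) (GR.ix (oppA k) g)) {a : Fin 3}
    (hD : (wnA P a).D0 ≤ ‖g.2.2 (GR.ix (oppA k) g) - g.2.2 (GR.ix k g)‖)
    (ra : stS (fRa (P.u * dirA i j k) (endA P k).f.c (endA P k).f.r0) (cutc g.2.2 (GR.ix k g) (GR.ix (oppA k) g)) ≤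
      (endA P k).f.κ)
    (re : reK (P.u * dirA i j k) (endA P k).f.rg g.2.2 (GR.ix k g) (GR.ix (oppA k) g) ≤ 0)
    (nr : clA i j k = 0 → nrF (P.u * dirA i j k) (endA P k).s g.2.2 (GR.ix k g) (GR.ix (oppA k) g) ≤ 0) :
    FgS P i j G0 GR k g := by
  have hd : ‖P.u * dirA i j k‖ = 1 := by rw [norm_mul, hP.u, dirA_nmH, one_mul]
  have e1 : leA k (GR.ix (oppA k) g) (GR.ic (oppA k) g) := leA_oppH.1 n2.o4
  have e2 : leA k (GR.ic (oppA k) g) (G0.ix (oppA k) g) := leA_oppH.1 n2.o3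
  have hb : BtI (GR.ix k g) (GR.ix (oppA k) g) (G0.ix (oppA k) g) := ho.bt (e1.trans e2)
  have co := (endA_okH hP k).f.co
  have h3 := cls_bnH hP a k
  obtain ⟨c1, c2, c3, c4, c5, c6, c7⟩ := end_nm (endA_okH hP k)
  have far := far_end (g := g.2.2) (L := g.1) (a := GR.ix k g) (b := GR.ix (oppA k) g) (c := G0.ix (oppA k) g)
    (w := GR.ic (oppA k) g) (n2.o3.bt n2.o4) n2.kc ((endA_okH hP (oppA k)).f.r2).le hD
  exact ⟨e, n1.o3, n1.o4, ho.trans (e1.trans e2), n1.ri, n1.kc,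
    reK_ext hd hb re fun u hu => by linarith [far u hu],
    ra_ext hd co.c0 co.c1 hb ra fun u hu => by linarith [far u hu],
    fun h => nrF_ext hd hb (nr h) fun u hu => by linarith [far u hu]⟩

/-! ### 5. From the lattice 0 to the rotated lattice -/

lemma clsF_DR {W W' : Wn} {y y' z z' : ℝ} (g : C(I, ℂ)) (L : ℝ) (m : I) (u : Fin 8 → I) :
    clsF (DR P i j W W' y y' z z') g L m u = clsF (DR P i j W W' 0 0 0 0) g L m u := rfl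

/-- the pieces between the native and the foreign times -/
theorem frE_of (hfg : ∀ k, FgI (P.u * dirA i j k) (endA P k).f g.2.2 (G0.ix k g) (GR.ic k g) (GR.ix k g))
    (o1 : ∀ k, leA k (G0.ix k g) (GR.ic k g)) (o2 : ∀ k, leA k (GR.ic k g) (GR.ix k g))
    (oA : leA .fp (GR.ix .fp g) (GR.ix .bq g)) (oB : leA .bp (GR.ix .bp g) (GR.ix .fq g))
    (ri : ∀ k, riK (dirA i j k) g.2.2 (G0.ix k g) (GR.ix k g) ≤ 0)
    (kc : ∀ k, kcF (dirA i j k) (P.u * dirA i j k) (endA P k) g.2.2 g.1 (G0.ix k g) (GR.ic k g) (GR.ix k g) ≤ 0) :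
    FrE P i j g.2.2 g.1 (G0.i8 g) (GR.i8 g) where
  o1 := o1 .fp
  o2 := o2 .fp
  o3 := oA
  o4 := o2 .bq
  o5 := o1 .bq
  o6 := o1 .fq
  o7 := o2 .fq
  o8 := oB
  o9 := o2 .bp
  o10 := o1 .bp
  A := ⟨hfg .fp, ri .fp, kc .fp⟩
  B := ⟨hfg .bp, ri .bp, kc .bp⟩
  A' := ⟨hfg .bq, ri .bq, kc .bq⟩
  B' := ⟨hfg .fq, ri .fq, kc .fq⟩

/-- the native gates of one arm -/
theorem cev0_arm (h : CEv (jD0 P i j) g.2.2 g.1 (pji (muG g)) (G0.i8 g)) (k : Arm) :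
    leA k (rtA k g) (G0.ic k g) ∧ leA k (G0.ic k g) (G0.ix k g) ∧
      preF (dirA i j k) (endA P k).n g.2.2 g.1 (rtA k g) (G0.ic k g) (G0.ix k g) ≤ 0 ∧
      preK (dirA i j k) (endA P k).n g.2.2 (rtA k g) (G0.ic k g) (G0.ix k g) ≤ 0 := by
  have p0 : paiF (ev i) (ev j) (P.p.n.up 0) (P.p.n.up 0) g.2.2 g.1 0 (G0.ic .fp g) (G0.ix .fp g) 1 (G0.ic .bp g) (G0.ix .bp g) ≤ 0 :=
    h.p
  have q0 : paiF (ev (-i)) (ev (-j)) (P.q.n.up 0) (P.q.n.up 0) g.2.2 g.1 (pji (muG g)) (G0.ic .bq g) (G0.ix .bq g)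
    (pji (muG g)) (G0.ic .fq g) (G0.ix .fq g) ≤ 0 := h.q
  have kA : preK (ev i) (P.p.n.up 0) g.2.2 0 (G0.ic .fp g) (G0.ix .fp g) ≤ 0 := h.kA
  have kB : preK (ev j) (P.p.n.up 0) g.2.2 1 (G0.ic .bp g) (G0.ix .bp g) ≤ 0 := h.kB
  have kA' : preK (ev (-i)) (P.q.n.up 0) g.2.2 (pji (muG g)) (G0.ic .bq g) (G0.ix .bq g) ≤ 0 := h.kA'
  have kB' : preK (ev (-j)) (P.q.n.up 0) g.2.2 (pji (muG g)) (G0.ic .fq g) (G0.ix .fq g) ≤ 0 := h.kB'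
  rw [Tp.up_zero] at p0 q0 kA kB kA' kB'
  unfold paiF at p0 q0
  simp only [max_le_iff] at p0 q0
  cases k
  · exact ⟨nonneg', h.o1, p0.1.1, kA⟩
  · exact ⟨h.o4, h.o3, q0.1.1, kA'⟩
  · exact ⟨h.o5, h.o6, q0.1.2, kB'⟩
  · exact ⟨le_one', h.o8, p0.1.2, kB⟩

/-- the wedges -/
theorem cev0_wd (h : CEv (jD0 P i j) g.2.2 g.1 (pji (muG g)) (G0.i8 g)) :
    (WdS P i j G0 .fp .bp g ∧ WdS P i j G0 .bp .fp g) ∧ WdS P i j G0 .bq .fq g ∧ WdS P i j G0 .fq .bq g := by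
  have p0 : paiF (ev i) (ev j) (P.p.n.up 0) (P.p.n.up 0) g.2.2 g.1 0 (G0.ic .fp g) (G0.ix .fp g) 1 (G0.ic .bp g) (G0.ix .bp g) ≤ 0 :=
    h.p
  have q0 : paiF (ev (-i)) (ev (-j)) (P.q.n.up 0) (P.q.n.up 0) g.2.2 g.1 (pji (muG g)) (G0.ic .bq g) (G0.ix .bq g)
    (pji (muG g)) (G0.ic .fq g) (G0.ix .fq g) ≤ 0 := h.q
  rw [Tp.up_zero] at p0 q0
  unfold paiF at p0 q0
  simp only [max_le_iff] at p0 q0
  exact ⟨⟨p0.2.2, p0.2.1⟩, q0.2.2, q0.2.1⟩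

/-- **h5 at one curve** -/
theorem h5_at (hP : P.Ok) (hL : 0 ≤ g.1) (hB : ∀ k, g ∈ G0.B k)
    (hc : CEv (jD0 P i j) g.2.2 g.1 (pji (muG g)) (G0.i8 g))
    (hfg : ∀ k, FgI (P.u * dirA i j k) (endA P k).f g.2.2 (G0.ix k g) ((H.rot P.u).ic k g) ((H.rot P.u).ix k g))
    (h1 : g ∈ jF1 P i j G0 H) (h2 : g ∈ jF2 P i j G0 H) :
    rotX P.u⁻¹ g ∈ jKR P i j H ∧ g ∈ jEp P i j G0 H ∧ g ∈ jEq P i j G0 H := by
  obtain ⟨fp, bq, wA⟩ := h1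
  obtain ⟨bp, fq, wB⟩ := h2
  have F : ∀ k, FgS P i j G0 (H.rot P.u) k g := fun k => by
    cases k
    · exact fp
    · exact bq
    · exact fq
    · exact bp
  obtain ⟨GR, hGR⟩ : ∃ GR, GR = H.rot P.u := ⟨_, rfl⟩
  rw [← hGR] at F wA wB hfg
  have fr : FrE P i j g.2.2 g.1 (G0.i8 g) (GR.i8 g) := frE_of hfg (fun k => (F k).o1) (fun k => (F k).o2) wA.o wB.o
    (fun k => (F k).ri) fun k => (F k).kc
  have dA := wiF_farH wA.w
  have dB := wiF_farH wB.w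
  have dA' : (wnA P i).D0 ≤ ‖g.2.2 (GR.ix .fp g) - g.2.2 (GR.ix .bq g)‖ := by
    rw [norm_sub_rev]
    exact dA
  have dB' : (wnA P j).D0 ≤ ‖g.2.2 (GR.ix .bp g) - g.2.2 (GR.ix .fq g)‖ := by
    rw [norm_sub_rev]
    exact dB
  obtain ⟨a1, a2, a3⟩ := fgs_short (k := .fp) hP (F .fp) (F .bq) wA.o dA
  obtain ⟨a1', a2', a3'⟩ := fgs_short (k := .bq) hP (F .bq) (F .fp) wA.o dA'
  obtain ⟨b1, b2, b3⟩ := fgs_short (k := .bp) hP (F .bp) (F .fq) wB.o dB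
  obtain ⟨b1', b2', b3'⟩ := fgs_short (k := .fq) hP (F .fq) (F .bp) wB.o dB'
  have cR := clsF_up (y := lv (P.u * ev i) (g.2.2 (GR.i8 g 0) - g.2.2 0) - P.p.f.l)
    (y' := lv (P.u * ev j) (g.2.2 (GR.i8 g 7) - g.2.2 1) - P.p.f.l)
    (z := lv (P.u * ev (-i)) (g.2.2 (GR.i8 g 3) - g.2.2 (pji (muG g))) - P.q.f.l)
    (z' := lv (P.u * ev (-j)) (g.2.2 (GR.i8 g 4) - g.2.2 (pji (muG g))) - P.q.f.l)
    hP hL hc fr (by linarith) (by linarith) (by linarith) (by linarith) (rsF_wi.2 ⟨a1, a1', wA.w⟩)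
    (rsF_wi.2 ⟨b1, b1', wB.w⟩) a2 a2' b2 b2'
  have hBR : ∀ k, rotX P.u⁻¹ g ∈ H.B k := fun k => by
    have := (F k).e
    rw [hGR] at this
    exact this
  have e8 : GR.i8 g = H.i8 (rotX P.u⁻¹ g) := by rw [hGR, rot_i8]
  have hk3 : rotX P.u⁻¹ g ∈ k3S (jDR P i j) (⋂ k, H.B k) (phi8 H.B H.c H.x) := by
    refine ⟨mem_iInter.2 hBR, ?_⟩
    show max (clsF (jDR P i j) (P.u⁻¹ • g.2.2) g.1 (pji (muG g)) fun k => pji (phi8 H.B H.c H.x (rotX P.u⁻¹ g) k))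
      (ordF fun k => pji (phi8 H.B H.c H.x (rotX P.u⁻¹ g) k)) ≤ 0
    rw [pji_phi8 hBR, ← e8]
    exact max_le cR.F cR.ord
  have N : ∀ k, NgS P i j G0 GR k g := fun k => by
    obtain ⟨n1, n2, n3, n4⟩ := cev0_arm hc k
    exact ⟨hB k, n1, n2, (F k).o1, (F k).o2, n3, n4, (F k).ri, (F k).kc⟩
  obtain ⟨⟨w1, w2⟩, w3, w4⟩ := cev0_wd hc
  refine ⟨?_, ?_, ?_⟩
  · unfold jKR
    split_ifs with h0
    · refine ⟨hk3, ?_⟩
      show max (nrF (ev i) P.p.s (P.u⁻¹ • g.2.2) (pji (phi8 H.B H.c H.x (rotX P.u⁻¹ g) 1)) (pji (phi8 H.B H.c H.x (rotX P.u⁻¹ g) 2)))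
        (nrF (ev (-i)) P.q.s (P.u⁻¹ • g.2.2) (pji (phi8 H.B H.c H.x (rotX P.u⁻¹ g) 2))
          (pji (phi8 H.B H.c H.x (rotX P.u⁻¹ g) 1))) ≤ 0
      have q1 := congrFun (pji_phi8 hBR) 1
      have q2 := congrFun (pji_phi8 hBR) 2
      rw [← e8] at q1 q2
      rw [q1, q2]
      have hu : ‖(P.u)⁻¹‖ = 1 := by rw [norm_inv, hP.u, inv_one]
      have hcj : (starRingEnd ℂ) (P.u)⁻¹ = P.u := by
        rw [Complex.inv_def, map_mul, Complex.conj_conj, Complex.conj_ofReal, Complex.normSq_eq_norm_sq, hP.u]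
        norm_num
      rw [nrF_rot hu, nrF_rot hu, hcj]
      exact max_le (a3 h0) (a3' h0)
    · exact hk3
  · show NgS P i j G0 (H.rot P.u) .fp g ∧ NgS P i j G0 (H.rot P.u) .bp g ∧ WdS P i j G0 .fp .bp g ∧ WdS P i j G0 .bp .fp g
    rw [← hGR]
    exact ⟨N _, N _, w1, w2⟩
  · show NgS P i j G0 (H.rot P.u) .bq g ∧ NgS P i j G0 (H.rot P.u) .fq g ∧ WdS P i j G0 .bq .fq g ∧ WdS P i j G0 .fq .bq g
    rw [← hGR]
    exact ⟨N _, N _, w3, w4⟩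

/-! ### 6. From the rotated lattice to the lattice 0 -/

/-- the class of the lattice 0 (closed conditions), from the arcs of the rotated lattice and the native gates -/
theorem cev0_of (hP : P.Ok) {W W' : Wn} (hL : 0 ≤ g.1) (hW : W = P.W ∨ W = P.Wc) (hW' : W' = P.W ∨ W' = P.Wc)
    (hf : FrE P i j g.2.2 g.1 (G0.i8 g) (GR.i8 g)) (N : ∀ k, NgS P i j G0 GR k g) (w1 : WdS P i j G0 .fp .bp g)
    (w2 : WdS P i j G0 .bp .fp g) (w3 : WdS P i j G0 .bq .fq g) (w4 : WdS P i j G0 .fq .bq g)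
    (A : rsF (P.u * ev i) (P.u * ev (-i)) P.p.f P.q.f W g.2.2 g.1 (GR.ix .fp g) (GR.ix .bq g) ≤ 0)
    (B : rsF (P.u * ev j) (P.u * ev (-j)) P.p.f P.q.f W' g.2.2 g.1 (GR.ix .bp g) (GR.ix .fq g) ≤ 0)
    (rA : reK (P.u * ev i) P.p.f.rg g.2.2 (GR.ix .fp g) (GR.ix .bq g) ≤ 0)
    (rA' : reK (P.u * ev (-i)) P.q.f.rg g.2.2 (GR.ix .bq g) (GR.ix .fp g) ≤ 0)
    (rB : reK (P.u * ev j) P.p.f.rg g.2.2 (GR.ix .bp g) (GR.ix .fq g) ≤ 0)
    (rB' : reK (P.u * ev (-j)) P.q.f.rg g.2.2 (GR.ix .fq g) (GR.ix .bp g) ≤ 0) :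
    CEv (D0 P i j W W') g.2.2 g.1 (pji (muG g)) (G0.i8 g) := by
  have t1 := ev_turn hP.u i
  have t2 := ev_turn hP.u j
  have t3 := ev_turn hP.u (-i)
  have t4 := ev_turn hP.u (-j)
  have n := ev_norm
  have hD : 2 * (P.p.f.r0 + P.q.f.r0) ≤ W.D0 := by
    rcases hW with rfl | rfl
    · exact (prm_hD hP).1
    · exact (prm_hD hP).2
  have hD' : 2 * (P.p.f.r0 + P.q.f.r0) ≤ W'.D0 := by
    rcases hW' with rfl | rfl
    · exact (prm_hD hP).1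
    · exact (prm_hD hP).2
  have lev : ∀ {d t : ℂ} {E : En} {x c w : I}, FrK d t E g.2.2 g.1 x c w → E.f.l + E.f.m ≤ lv t (g.2.2 w - g.2.2 x) := by
    intro d t E x c w hk
    have e : g.2.2 w - g.2.2 x = (g.2.2 c - g.2.2 x) + (g.2.2 w - g.2.2 c) := by ring
    rw [e, lv_add]
    linarith [hk.f.l, hk.f.m]
  obtain ⟨⟨a1, a2⟩, a3⟩ := kak_F hP.p hP.q (n i) (n (-i)) t1.2 t3.2 t1.1 t3.1 hL
    (Or.inl ⟨hf.o1, hf.o2, hf.o3, hf.o4, hf.o5⟩) hf.A.r hf.A'.r hf.A.k hf.A'.k (lev hf.A) (lev hf.A') rA rA' A hD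
  obtain ⟨⟨b1, b2⟩, b3⟩ := kak_F hP.p hP.q (n j) (n (-j)) t2.2 t4.2 t2.1 t4.1 hL
    (Or.inr ⟨hf.o6, hf.o7, hf.o8, hf.o9, hf.o10⟩) hf.B.r hf.B'.r hf.B.k hf.B'.k (lev hf.B) (lev hf.B') rB rB' B hD'
  refine ⟨(N .fp).o2, hf.o1.trans (hf.o2.trans (hf.o3.trans (hf.o4.trans hf.o5))), (N .bq).o2, (N .bq).o1, (N .fq).o1,
    (N .fq).o2, hf.o6.trans (hf.o7.trans (hf.o8.trans (hf.o9.trans hf.o10))), (N .bp).o2, ?_, ?_, ?_, ?_, ?_, ?_, a3, b3,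
    a1, a2, b1, b2⟩
  · show paiF (ev i) (ev j) (P.p.n.up 0) (P.p.n.up 0) g.2.2 g.1 0 (G0.ic .fp g) (G0.ix .fp g) 1 (G0.ic .bp g) (G0.ix .bp g) ≤ 0
    rw [Tp.up_zero]
    exact max_le (max_le (N .fp).pf (N .bp).pf) (max_le w2 w1)
  · show paiF (ev (-i)) (ev (-j)) (P.q.n.up 0) (P.q.n.up 0) g.2.2 g.1 (pji (muG g)) (G0.ic .bq g) (G0.ix .bq g)
      (pji (muG g)) (G0.ic .fq g) (G0.ix .fq g) ≤ 0
    rw [Tp.up_zero]
    exact max_le (max_le (N .bq).pf (N .fq).pf) (max_le w4 w3)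
  · show preK (ev i) (P.p.n.up 0) g.2.2 0 (G0.ic .fp g) (G0.ix .fp g) ≤ 0
    rw [Tp.up_zero]
    exact (N .fp).pk
  · show preK (ev j) (P.p.n.up 0) g.2.2 1 (G0.ic .bp g) (G0.ix .bp g) ≤ 0
    rw [Tp.up_zero]
    exact (N .bp).pk
  · show preK (ev (-i)) (P.q.n.up 0) g.2.2 (pji (muG g)) (G0.ic .bq g) (G0.ix .bq g) ≤ 0
    rw [Tp.up_zero]
    exact (N .bq).pk
  · show preK (ev (-j)) (P.q.n.up 0) g.2.2 (pji (muG g)) (G0.ic .fq g) (G0.ix .fq g) ≤ 0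
    rw [Tp.up_zero]
    exact (N .fq).pk

lemma wnA_orH (P : Prm) (a : Fin 3) : wnA P a = P.W ∨ wnA P a = P.Wc := by
  unfold wnA
  split_ifs
  · exact Or.inl rfl
  · exact Or.inr rfl

/-- the closed conditions at the gates of the arcs of the rotated lattice, on the curve of the lattice 0 -/
structure ReR (P : Prm) (i j : Fin 3) (GR : Ga) (g : CC.Gm) : Prop where
  A : reK (P.u * ev i) P.p.f.rg g.2.2 (GR.ix .fp g) (GR.ix .bq g) ≤ 0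
  A' : reK (P.u * ev (-i)) P.q.f.rg g.2.2 (GR.ix .bq g) (GR.ix .fp g) ≤ 0
  B : reK (P.u * ev j) P.p.f.rg g.2.2 (GR.ix .bp g) (GR.ix .fq g) ≤ 0
  B' : reK (P.u * ev (-j)) P.q.f.rg g.2.2 (GR.ix .fq g) (GR.ix .bp g) ≤ 0

/-- what the limit class of the rotated lattice says on the curve of the lattice 0 -/
theorem jKR_iff (hP : P.Ok) (hR : rotX P.u⁻¹ g ∈ jKR P i j H) : (∀ k, g ∈ (H.rot P.u).B k) ∧
    clsF (jDR P i j) (P.u⁻¹ • g.2.2) g.1 (pji (muG g)) ((H.rot P.u).i8 g) ≤ 0 ∧ ordF ((H.rot P.u).i8 g) ≤ 0 ∧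
    rsF (P.u * ev i) (P.u * ev (-i)) P.p.f P.q.f (wnA P i) g.2.2 g.1 ((H.rot P.u).ix .fp g) ((H.rot P.u).ix .bq g) ≤ 0 ∧
    rsF (P.u * ev j) (P.u * ev (-j)) P.p.f P.q.f (wnA P j) g.2.2 g.1 ((H.rot P.u).ix .bp g) ((H.rot P.u).ix .fq g) ≤ 0 ∧
    (i = 0 → nrF (P.u * ev i) P.p.s g.2.2 ((H.rot P.u).ix .fp g) ((H.rot P.u).ix .bq g) ≤ 0 ∧
      nrF (P.u * ev (-i)) P.q.s g.2.2 ((H.rot P.u).ix .bq g) ((H.rot P.u).ix .fp g) ≤ 0) := by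
  have hu : ‖(P.u)⁻¹‖ = 1 := by rw [norm_inv, hP.u, inv_one]
  have hcj : (starRingEnd ℂ) (P.u)⁻¹ = P.u := by
    rw [Complex.inv_def, map_mul, Complex.conj_conj, Complex.conj_ofReal, Complex.normSq_eq_norm_sq, hP.u]
    norm_num
  have hk3 : rotX P.u⁻¹ g ∈ k3S (jDR P i j) (⋂ k, H.B k) (phi8 H.B H.c H.x) := by
    unfold jKR at hR
    split_ifs at hR with h0
    · exact hR.1
    · exact hR
  have hB : ∀ k, rotX P.u⁻¹ g ∈ H.B k := mem_iInter.1 hk3.1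
  have h2 : max (clsF (jDR P i j) (P.u⁻¹ • g.2.2) g.1 (pji (muG g)) fun k => pji (phi8 H.B H.c H.x (rotX P.u⁻¹ g) k))
      (ordF fun k => pji (phi8 H.B H.c H.x (rotX P.u⁻¹ g) k)) ≤ 0 := hk3.2
  rw [pji_phi8 hB, ← rot_i8] at h2
  have h3 := (le_max_left _ _).trans h2
  refine ⟨hB, h3, (le_max_right _ _).trans h2, ?_, ?_, fun h0 => ?_⟩
  · unfold clsF at h3
    simp only [max_le_iff] at h3
    have h4 : rsF (ev i) (ev (-i)) P.p.f P.q.f (wnA P i) (P.u⁻¹ • g.2.2) g.1 ((H.rot P.u).ix .fp g) ((H.rot P.u).ix .bq g) ≤ 0 :=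
      h3.1.2.1
    rwa [rsF_rot hu, hcj] at h4
  · unfold clsF at h3
    simp only [max_le_iff] at h3
    have h4 : rsF (ev j) (ev (-j)) P.p.f P.q.f (wnA P j) (P.u⁻¹ • g.2.2) g.1 ((H.rot P.u).ix .bp g) ((H.rot P.u).ix .fq g) ≤ 0 :=
      h3.1.2.2
    rwa [rsF_rot hu, hcj] at h4
  · unfold jKR at hR
    rw [if_pos h0] at hR
    have h4 : max (nrF (ev i) P.p.s (P.u⁻¹ • g.2.2) (pji (phi8 H.B H.c H.x (rotX P.u⁻¹ g) 1))
        (pji (phi8 H.B H.c H.x (rotX P.u⁻¹ g) 2)))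
      (nrF (ev (-i)) P.q.s (P.u⁻¹ • g.2.2) (pji (phi8 H.B H.c H.x (rotX P.u⁻¹ g) 2))
        (pji (phi8 H.B H.c H.x (rotX P.u⁻¹ g) 1))) ≤ 0 := hR.2
    have q1 := congrFun (pji_phi8 hB) 1
    have q2 := congrFun (pji_phi8 hB) 2
    rw [← rot_i8] at q1 q2
    rw [q1, q2, nrF_rot hu, nrF_rot hu, hcj] at h4
    exact ⟨(le_max_left _ _).trans h4, (le_max_right _ _).trans h4⟩

/-- **h6 at one curve** -/
theorem h6_at (hP : P.Ok) (hj : j ≠ 0) (hL : 0 ≤ g.1) (hR : rotX P.u⁻¹ g ∈ jKR P i j H) (hre : ReR P i j (H.rot P.u) g)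
    (hfg : ∀ k, g ∈ G0.B k → g ∈ (H.rot P.u).B k → leA k (rtA k g) (G0.ix k g) → leA k (G0.ix k g) ((H.rot P.u).ic k g) →
      (∀ u, BtI ((H.rot P.u).ic k g) u ((H.rot P.u).ix k g) → ‖g.2.2 u - g.2.2 ((H.rot P.u).ic k g)‖ ≤ (endA P k).f.r2) →
      FgI (P.u * dirA i j k) (endA P k).f g.2.2 (G0.ix k g) ((H.rot P.u).ic k g) ((H.rot P.u).ix k g))
    (hp : g ∈ jEp P i j G0 H) (hq : g ∈ jEq P i j G0 H) : g ∈ jK0 P i j G0 ∧ g ∈ jF1 P i j G0 H ∧ g ∈ jF2 P i j G0 H := by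
  obtain ⟨nfp, nbp, w1, w2⟩ := hp
  obtain ⟨nbq, nfq, w3, w4⟩ := hq
  obtain ⟨GR, hGR⟩ : ∃ GR, GR = H.rot P.u := ⟨_, rfl⟩
  obtain ⟨hB, hF, hO, rsA, rsB, hn⟩ := jKR_iff hP hR
  rw [← hGR] at nfp nbp nbq nfq hB hF hO rsA rsB hn hre hfg
  have N : ∀ k, NgS P i j G0 GR k g := fun k => by
    cases k
    · exact nfp
    · exact nbq
    · exact nfq
    · exact nbp
  have oA : leA .fp (GR.ix .fp g) (GR.ix .bq g) := by
    have h1 : ((GR.ix .fp g : I) : ℝ) - (GR.ix .bq g : I) ≤ 0 := (le_max_left _ _).trans hO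
    exact Subtype.coe_le_coe.1 (sub_nonpos.1 h1)
  have oB : leA .bp (GR.ix .bp g) (GR.ix .fq g) := by
    have h1 : ((GR.ix .fq g : I) : ℝ) - (GR.ix .bp g : I) ≤ 0 := (le_max_right _ _).trans hO
    exact Subtype.coe_le_coe.1 (sub_nonpos.1 h1)
  have fr : FrE P i j g.2.2 g.1 (G0.i8 g) (GR.i8 g) := frE_of
    (fun k => hfg k (N k).e (hB k) ((N k).o1.trans (N k).o2) (N k).o3 (kcF_blk (N k).kc)) (fun k => (N k).o3) (fun k => (N k).o4) oA oB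
    (fun k => (N k).ri) fun k => (N k).kc
  have c0 := cev0_of hP hL (wnA_orH P i) (wnA_orH P j) fr N w1 w2 w3 w4 rsA rsB hre.A hre.A' hre.B hre.B'
  have hB0 : ∀ k, g ∈ G0.B k := fun k => (N k).e
  obtain ⟨a1, a1', wA⟩ := rsF_wi.1 rsA
  obtain ⟨b1, b1', wB⟩ := rsF_wi.1 rsB
  have dA := wiF_farH wA
  have dB := wiF_farH wB
  have dA' : (wnA P i).D0 ≤ ‖g.2.2 (GR.ix .fp g) - g.2.2 (GR.ix .bq g)‖ := by
    rw [norm_sub_rev]
    exact dA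
  have dB' : (wnA P j).D0 ≤ ‖g.2.2 (GR.ix .bp g) - g.2.2 (GR.ix .fq g)‖ := by
    rw [norm_sub_rev]
    exact dB
  have F1 := fgs_long (k := .fp) hP (N .fp) (N .bq) (hB _) oA dA a1 hre.A fun h => (hn h).1
  have F2 := fgs_long (k := .bq) hP (N .bq) (N .fp) (hB _) oA dA' a1' hre.A' fun h => (hn h).2
  have F3 := fgs_long (k := .bp) hP (N .bp) (N .fq) (hB _) oB dB b1 hre.B fun h => absurd h hj
  have F4 := fgs_long (k := .fq) hP (N .fq) (N .bp) (hB _) oB dB' b1' hre.B' fun h => absurd h hj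
  refine ⟨⟨mem_iInter.2 hB0, ?_⟩, ?_, ?_⟩
  · show max (clsF (jD0 P i j) g.2.2 g.1 (pji (muG g)) fun k => pji (phi8 G0.B G0.c G0.x g k))
      (ordF fun k => pji (phi8 G0.B G0.c G0.x g k)) ≤ 0
    rw [pji_phi8 hB0]
    exact max_le c0.F c0.ord
  · show FgS P i j G0 (H.rot P.u) .fp g ∧ FgS P i j G0 (H.rot P.u) .bq g ∧ ArW P i j (H.rot P.u) .fp g
    rw [← hGR]
    exact ⟨F1, F2, oA, wA⟩
  · show FgS P i j G0 (H.rot P.u) .bp g ∧ FgS P i j G0 (H.rot P.u) .fq g ∧ ArW P i j (H.rot P.u) .bp g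
    rw [← hGR]
    exact ⟨F3, F4, oB, wB⟩

/-! ### 7. Almost every curve -/

/-- **the foreign gates over `x`** from the gates of the functional level over the root -/
theorem fg_over {t : ℂ} {T : Tp} {A : ℝ} {g : C(I, ℂ)} {o x c z : I} (h : FgI t (T.up A) g o c z) (ho : BtI o x c)
    (hA : lv t (g x - g o) ≤ A) : FgI t T g x c z := by
  refine ⟨?_, h.m, fun u hu => h.t1 u (ho.trans_right hu), h.r, h.t2⟩
  have h1 : T.l + A ≤ lv t (g c - g o) := h.l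
  rw [lv_sub] at h1 hA ⊢
  linarith

/-- **the inputs of h5, h6** at the curve `g`; `A k g` = the functional level of the arm `k` (over the root) -/
structure JhIn (P : Prm) (i j : Fin 3) (G0 H : Ga) (A : Arm → CC.Gm → ℝ) (g : CC.Gm) : Prop where
  L : 0 ≤ g.1
  /-- closed conditions of the lattice 0 (`clsF_mem`, `clsK_mem`, order) -/
  c0 : g ∈ jK0 P i j G0 → CEv (jD0 P i j) g.2.2 g.1 (pji (muG g)) (G0.i8 g)
  /-- closed levels of the functional gates of one arm, if the block is in its ball -/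
  fg : ∀ k, g ∈ (H.rot P.u).B k →
    (∀ u, BtI ((H.rot P.u).ic k g) u ((H.rot P.u).ix k g) → ‖g.2.2 u - g.2.2 ((H.rot P.u).ic k g)‖ ≤ (endA P k).f.r2) →
    FgI (P.u * dirA i j k) ((endA P k).f.up (A k g)) g.2.2 (rtA k g) ((H.rot P.u).ic k g) ((H.rot P.u).ix k g)
  /-- the functional level is the level of `x` over the root -/
  lv : ∀ k, g ∈ G0.B k → lv (P.u * dirA i j k) (g.2.2 (G0.ix k g) - g.2.2 (rtA k g)) ≤ A k g
  /-- closed conditions of the rests of the rotated lattice -/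
  re : rotX P.u⁻¹ g ∈ jKR P i j H → ReR P i j (H.rot P.u) g

lemma ofReal_bi {p : Prop} : ENNReal.ofReal (bi p) ≠ 0 ↔ p := by
  by_cases h : p
  · rw [bi_pos h, ENNReal.ofReal_one]
    exact ⟨fun _ => h, fun _ => one_ne_zero⟩
  · rw [bi_neg h, ENNReal.ofReal_zero]
    exact ⟨fun h1 => absurd rfl h1, fun h1 => absurd h1 h⟩

/-- **h5 of `Jm`** -/
theorem jm_h5 {μ : Measure CC.Gm} (hP : P.Ok) {A : Arm → CC.Gm → ℝ} (hI : ∀ᵐ g ∂μ, JhIn P i j G0 H A g) :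
    ∀ᵐ g ∂μ, jw0 P i j G0 g ≠ 0 → g ∈ jF1 P i j G0 H → g ∈ jF2 P i j G0 H →
      jw0 P i j G0 g = jwR P i j H g ∧ g ∈ jEp P i j G0 H ∧ g ∈ jEq P i j G0 H ∧ CC.m4 (jS P H g) = jSF P H g ∧
        jTF G0 g = CC.m4 (jT G0 g) := by
  filter_upwards [hI] with g hg h0 h1 h2
  have k0 : g ∈ jK0 P i j G0 := ofReal_bi.1 h0
  have hB : ∀ k, g ∈ G0.B k := mem_iInter.1 k0.1
  have hc := hg.c0 k0
  have F : ∀ k, FgS P i j G0 (H.rot P.u) k g := fun k => by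
    cases k
    · exact h1.1
    · exact h1.2.1
    · exact h2.2.1
    · exact h2.1
  have hBR : ∀ k, g ∈ (H.rot P.u).B k := fun k => (F k).e
  have hfg : ∀ k, FgI (P.u * dirA i j k) (endA P k).f g.2.2 (G0.ix k g) ((H.rot P.u).ic k g) ((H.rot P.u).ix k g) := fun k =>
    fg_over (hg.fg k (hBR k) (kcF_blk (F k).kc)) (((cev0_arm hc k).1.trans (cev0_arm hc k).2.1).bt (F k).o1) (hg.lv k (hB k))
  obtain ⟨a1, a2, a3⟩ := h5_at hP hg.L hB hc hfg h1 h2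
  refine ⟨?_, a2, a3, ?_, ?_⟩
  · unfold jw0 jwR
    rw [bi_pos k0, bi_pos a1]
  · rw [jS_on hBR]
    rfl
  · rw [jT_on hB]
    rfl

/-- **h6 of `Jm`** -/
theorem jm_h6 {μ : Measure CC.Gm} (hP : P.Ok) (hj : j ≠ 0) {A : Arm → CC.Gm → ℝ} (hI : ∀ᵐ g ∂μ, JhIn P i j G0 H A g) :
    ∀ᵐ g ∂μ, jwR P i j H g ≠ 0 → g ∈ jEp P i j G0 H → g ∈ jEq P i j G0 H →
      jw0 P i j G0 g ≠ 0 ∧ g ∈ jF1 P i j G0 H ∧ g ∈ jF2 P i j G0 H ∧ jSF P H g = CC.m4 (jS P H g) := by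
  filter_upwards [hI] with g hg h0 hp hq
  have hR : rotX P.u⁻¹ g ∈ jKR P i j H := ofReal_bi.1 h0
  obtain ⟨a1, a2, a3⟩ := h6_at hP hj hg.L hR (hg.re hR) (fun k e e' o o' hb => fg_over (hg.fg k e' hb) (o.bt o') (hg.lv k e)) hp hq
  refine ⟨ofReal_bi.2 a1, a2, a3, ?_⟩
  rw [jS_on (jKR_iff hP hR).1]
  rfl

/-- **other marks off the classes** -/
theorem _root_.Pool.Agent.ROT.F3.CC.Jm.congr {μ : Measure CC.Gm} {w0 wR w0' wR' : CC.Gm → ℝ≥0∞} {T S T' S' : CC.Gm → Fin 8 → ℝ}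
    {F1 F2 Ep Eq : Set CC.Gm} {SF TF : CC.Gm → CC.M4} {C1 C2 : Set CC.Pie} {t1 t1' t2 t2' : CC.Pie → ℝ} {Cp Cq : Set CC.K4}
    {fp fq : CC.K4 → CC.Pie × CC.Pie} {Z W : Set ℂ}
    (J : CC.Jm μ w0 wR T S F1 F2 Ep Eq SF TF C1 C2 t1 t1' t2 t2' Cp Cq fp fq Z W) (e0 : ∀ᵐ g ∂μ, w0' g = w0 g)
    (eR : ∀ᵐ g ∂μ, wR' g = wR g) (eT : ∀ᵐ g ∂μ, w0 g ≠ 0 → T' g = T g) (eS : ∀ᵐ g ∂μ, wR g ≠ 0 → S' g = S g) :
    CC.Jm μ w0' wR' T' S' F1 F2 Ep Eq SF TF C1 C2 t1 t1' t2 t2' Cp Cq fp fq Z W where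
  h1 := by
    filter_upwards [J.h1, e0, eT] with g a1 a2 a3 h
    rw [a2] at h
    rw [a3 h]
    exact a1 h
  h2 := by
    filter_upwards [J.h2, e0, eT] with g a1 a2 a3 h
    rw [a2] at h
    rw [a3 h]
    exact a1 h
  o1 := by
    filter_upwards [J.o1, e0, eT] with g a1 a2 a3 h
    rw [a2] at h
    rw [a3 h]
    exact a1 h
  o2 := by
    filter_upwards [J.o2, e0, eT] with g a1 a2 a3 h
    rw [a2] at h
    rw [a3 h]
    exact a1 h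
  h3 := by
    filter_upwards [J.h3, eR, eS] with g a1 a2 a3 h
    rw [a2] at h
    rw [a3 h]
    exact a1 h
  h4 := by
    filter_upwards [J.h4, eR, eS] with g a1 a2 a3 h
    rw [a2] at h
    rw [a3 h]
    exact a1 h
  h5 := by
    filter_upwards [J.h5, e0, eR, eT, eS] with g a1 a2 a3 a4 a5 h b1 b2 b3
    rw [a2] at h
    obtain ⟨c1, c2, c3, c4, c5⟩ := a1 h b1 b2 b3
    have hR : wR g ≠ 0 := by
      rw [← c1]
      exact h
    rw [a2, a3, a4 h, a5 hR]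
    exact ⟨c1, c2, c3, c4, c5⟩
  h6 := by
    filter_upwards [J.h6, e0, eR, eT, eS] with g a1 a2 a3 a4 a5 h b1 b2 b3
    rw [a3] at h
    rw [a5 h] at b3 ⊢
    rw [a2]
    exact a1 h b1 b2 b3

/-! ### 8. The inputs from the statistics of helper2 -/

/-- the closed conditions of the lattice 0 from `clsK` and the times in their arms -/
theorem cev0_of_K (h0 : g ∈ jK0 P i j G0) (hu : G0.Un g)
    (hK : clsK (jD0 P i j) g.2.2 (pji (muG g)) (fun k => pji (jT G0 g k)) ≤ 0) :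
    CEv (jD0 P i j) g.2.2 g.1 (pji (muG g)) (G0.i8 g) := by
  have hB : ∀ k, g ∈ G0.B k := mem_iInter.1 h0.1
  have h1 : max (clsF (jD0 P i j) g.2.2 g.1 (pji (muG g)) fun k => pji (phi8 G0.B G0.c G0.x g k))
      (ordF fun k => pji (phi8 G0.B G0.c G0.x g k)) ≤ 0 := h0.2
  have e1 : (fun k => pji (jT G0 g k)) = G0.i8 g := pji_phi8 hB
  rw [e1] at hK
  rw [pji_phi8 hB] at h1
  have h2 := (le_max_right _ _).trans h1
  have oA : G0.ix .fp g ≤ G0.ix .bq g := by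
    have h3 : ((G0.ix .fp g : I) : ℝ) - (G0.ix .bq g : I) ≤ 0 := (le_max_left _ _).trans h2
    exact Subtype.coe_le_coe.1 (sub_nonpos.1 h3)
  have oB : G0.ix .fq g ≤ G0.ix .bp g := by
    have h3 : ((G0.ix .fq g : I) : ℝ) - (G0.ix .bp g : I) ≤ 0 := (le_max_right _ _).trans h2
    exact Subtype.coe_le_coe.1 (sub_nonpos.1 h3)
  exact cev_of (hu.o2 (hB .fp)) oA (hu.o2 (hB .bq)) (hu.o1 (hB .bq)) (hu.o1 (hB .fq)) (hu.o2 (hB .fq)) oB (hu.o2 (hB .bp))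
    ((le_max_left _ _).trans h1) hK

/-- the rests of the rotated lattice from `clsK` at any levels -/
theorem reR_of_K (hP : P.Ok) {y : Fin 4 → ℝ} (hR : rotX P.u⁻¹ g ∈ jKR P i j H)
    (hK : clsK ((jDR P i j).th y) (rotX P.u⁻¹ g).2.2 (pji (muG (rotX P.u⁻¹ g)))
      (fun k => pji (phi8 H.B H.c H.x (rotX P.u⁻¹ g) k)) ≤ 0) : ReR P i j (H.rot P.u) g := by
  have hu : ‖(P.u)⁻¹‖ = 1 := by rw [norm_inv, hP.u, inv_one]
  have hcj : (starRingEnd ℂ) (P.u)⁻¹ = P.u := by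
    rw [Complex.inv_def, map_mul, Complex.conj_conj, Complex.conj_ofReal, Complex.normSq_eq_norm_sq, hP.u]
    norm_num
  have hB : ∀ k, rotX P.u⁻¹ g ∈ H.B k := (jKR_iff hP hR).1
  rw [pji_phi8 hB, ← rot_i8] at hK
  unfold clsK at hK
  simp only [max_le_iff] at hK
  obtain ⟨-, ⟨a1, a2⟩, a3, a4⟩ := hK
  have b1 : reK (ev i) P.p.f.rg (P.u⁻¹ • g.2.2) ((H.rot P.u).ix .fp g) ((H.rot P.u).ix .bq g) ≤ 0 := a1
  have b2 : reK (ev (-i)) P.q.f.rg (P.u⁻¹ • g.2.2) ((H.rot P.u).ix .bq g) ((H.rot P.u).ix .fp g) ≤ 0 := a2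
  have b3 : reK (ev j) P.p.f.rg (P.u⁻¹ • g.2.2) ((H.rot P.u).ix .bp g) ((H.rot P.u).ix .fq g) ≤ 0 := a3
  have b4 : reK (ev (-j)) P.q.f.rg (P.u⁻¹ • g.2.2) ((H.rot P.u).ix .fq g) ((H.rot P.u).ix .bp g) ≤ 0 := a4
  rw [reK_rot hu, hcj] at b1 b2 b3 b4
  exact ⟨b1, b2, b3, b4⟩

end

end Pool.Agent.ROT.F3.CK
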