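import Pool.Agent.ROT.F3JmD

/-!
# ROT, F3, row JmB (helper81 for helper41): the sets and the marks of F3JmD are measurable

* `Measurable.preF` .. : the statistics of a measurable curve at measurable times;
* `Ga.Ms.rot`, `Ga.Ms.ic`, `Ga.Ms.ix`, `Ga.Ms.t8`; `leA_ms`, `rtA_ms`, **`fgS_ms`**, **`arW_ms`**, **`ngS_ms`**, **`wdS_ms`**;
* **`jF1_ms`, `jF2_ms`, `jEp_ms`, `jEq_ms`**, `jSF_ms`, `jTF_ms`, `jT_ms`, `jS_ms`, `jK0_ms`, `jKR_ms`, `jw0_ms`, `jwR_ms`.
-/

set_option autoImplicit false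

open MeasureTheory Topology Set

open scoped unitInterval ENNReal Classical

namespace Pool.Agent.ROT.F3

/-! ### 1. The statistics -/

section ms

variable {Z : Type*} [MeasurableSpace Z] {g : Z → C(I, ℂ)} {L : Z → ℝ} {a b c : Z → I} {d d' t : ℂ}

lemma Measurable.cutc' (hg : Measurable g) (ha : Measurable a) (hb : Measurable b) :
    Measurable fun z => cutc (g z) (a z) (b z) := cutc_continuous.measurable.comp (hg.prodMk (ha.prodMk hb))

lemma Measurable.stS' {f : ℂ → ℝ} {K : NNReal} (hf : LipschitzWith K f) (hg : Measurable g) :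
    Measurable fun z => stS f (g z) := (stS_lip hf).continuous.measurable.comp hg

lemma Measurable.cutc1 (hg : Measurable g) (ha : Measurable a) (hb : Measurable b) :
    Measurable fun z => cutc (g z) (a z) (b z) 1 :=
  (continuous_eval_const (1 : I)).measurable.comp (Measurable.cutc' hg ha hb)

lemma Measurable.duU (la : ℝ) (hL : Measurable L) (ha : Measurable a) (hb : Measurable b) :
    Measurable fun z => duU la (L z) (a z) (b z) := by
  have h : Continuous fun z : ℝ × I × I => F3.duU la z.1 z.2.1 z.2.2 :=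
    Continuous.duU la continuous_fst (by fun_prop) (by fun_prop)
  have h2 := h.measurable.comp (hL.prodMk (ha.prodMk hb))
  exact h2

lemma Measurable.duL (t0 : ℝ) (hL : Measurable L) (ha : Measurable a) (hb : Measurable b) :
    Measurable fun z => duL t0 (L z) (a z) (b z) := by
  have h : Continuous fun z : ℝ × I × I => F3.duL t0 z.1 z.2.1 z.2.2 :=
    Continuous.duL t0 continuous_fst (by fun_prop) (by fun_prop)
  have h2 := h.measurable.comp (hL.prodMk (ha.prodMk hb))
  exact h2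

lemma Measurable.preF {P : Tp} (hP : P.Co) (hd : ‖d‖ = 1) (hg : Measurable g) (hL : Measurable L) (ha : Measurable a)
    (hb : Measurable b) (hc : Measurable c) : Measurable fun z => preF d P (g z) (L z) (a z) (b z) (c z) := by
  have h : Continuous fun z : C(I, ℂ) × ℝ × I × I × I => F3.preF d P z.1 z.2.1 z.2.2.1 z.2.2.2.1 z.2.2.2.2 :=
    Continuous.preF hP hd continuous_fst (by fun_prop) (by fun_prop) (by fun_prop) (by fun_prop)
  have h2 := h.measurable.comp (hg.prodMk (hL.prodMk (ha.prodMk (hb.prodMk hc))))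
  exact h2

lemma Measurable.kcF {E : En} (hn : E.n.Co) (hf : E.f.Co) (hd : ‖d‖ = 1) (hd' : ‖d'‖ = 1) (hg : Measurable g)
    (hL : Measurable L) (ha : Measurable a) (hb : Measurable b) (hc : Measurable c) :
    Measurable fun z => kcF d d' E (g z) (L z) (a z) (b z) (c z) := by
  have h : Continuous fun z : C(I, ℂ) × ℝ × I × I × I => F3.kcF d d' E z.1 z.2.1 z.2.2.1 z.2.2.2.1 z.2.2.2.2 :=
    Continuous.kcF hn hf hd hd' continuous_fst (by fun_prop) (by fun_prop) (by fun_prop) (by fun_prop)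
  have h2 := h.measurable.comp (hg.prodMk (hL.prodMk (ha.prodMk (hb.prodMk hc))))
  exact h2

lemma Measurable.preK (P : Tp) (hd : ‖d‖ = 1) (hg : Measurable g) (ha : Measurable a) (hb : Measurable b)
    (hc : Measurable c) : Measurable fun z => preK d P (g z) (a z) (b z) (c z) := by
  have h : Continuous fun z : C(I, ℂ) × I × I × I => F3.preK d P z.1 z.2.1 z.2.2.1 z.2.2.2 :=
    Continuous.preK P hd continuous_fst (by fun_prop) (by fun_prop) (by fun_prop)
  have h2 := h.measurable.comp (hg.prodMk (ha.prodMk (hb.prodMk hc)))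
  exact h2

lemma Measurable.wdF {w cs κs : ℝ} (h0 : 0 ≤ cs) (h1 : cs ≤ 1) (hd : ‖d‖ = 1) (hd' : ‖d'‖ = 1) (hg : Measurable g)
    (ha : Measurable a) (hb : Measurable b) : Measurable fun z => wdF d d' w cs κs (g z) (a z) (b z) :=
  Measurable.stS' (fWe_lip hd hd' h0 h1) (Measurable.cutc' hg ha hb)

lemma Measurable.reK (hd : ‖d‖ = 1) (rg : ℝ) (hg : Measurable g) (ha : Measurable a) (hb : Measurable b) :
    Measurable fun z => reK d rg (g z) (a z) (b z) := Measurable.stS' (reK_lip hd rg) (Measurable.cutc' hg ha hb)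

lemma Measurable.riK (hd : ‖d‖ = 1) (hg : Measurable g) (ha : Measurable a) (hb : Measurable b) :
    Measurable fun z => riK d (g z) (a z) (b z) := Measurable.stS' (lvN_lip hd) (Measurable.cutc' hg ha hb)

lemma Measurable.nrF (s : Sr) (hd : ‖d‖ = 1) (hg : Measurable g) (ha : Measurable a) (hb : Measurable b) :
    Measurable fun z => nrF d s (g z) (a z) (b z) := by
  have h : Continuous fun z : C(I, ℂ) × I × I => F3.nrF d s z.1 z.2.1 z.2.2 :=
    Continuous.nrF s hd continuous_fst (by fun_prop) (by fun_prop)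
  have h2 := h.measurable.comp (hg.prodMk (ha.prodMk hb))
  exact h2

lemma Measurable.rsF {P Q : Tp} (hP : P.Co) (hQ : Q.Co) (W : Wn) (hd : ‖d‖ = 1) (hd' : ‖d'‖ = 1) (hg : Measurable g)
    (hL : Measurable L) (ha : Measurable a) (hb : Measurable b) : Measurable fun z => rsF d d' P Q W (g z) (L z) (a z) (b z) := by
  have h : Continuous fun z : C(I, ℂ) × ℝ × I × I => F3.rsF d d' P Q W z.1 z.2.1 z.2.2.1 z.2.2.2 :=
    Continuous.rsF hP hQ W hd hd' continuous_fst (by fun_prop) (by fun_prop) (by fun_prop)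
  have h2 := h.measurable.comp (hg.prodMk (hL.prodMk (ha.prodMk hb)))
  exact h2

lemma Measurable.stRa {κ r0 : ℝ} (h0 : 0 ≤ κ) (h1 : κ ≤ 1) (hd : ‖d‖ = 1) (hg : Measurable g) (ha : Measurable a)
    (hb : Measurable b) : Measurable fun z => stS (fRa d κ r0) (cutc (g z) (a z) (b z)) :=
  Measurable.stS' (fRa_lip hd h0 h1) (Measurable.cutc' hg ha hb)

end ms

end Pool.Agent.ROT.F3

namespace Pool.Agent.ROT.F3.CK

open Pool.Agent.ROT.F3 Pool.Agent.ROT.F3.LF

/-! ### 2. The gates -/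

lemma tAt_ms (k : Arm) : Measurable fun p : CC.Gm × ℝ => tAt k p.1 p.2 := by
  have h : Measurable fun p : CC.Gm × ℝ => muG p.1 := muG_meas.comp measurable_fst
  cases k <;> unfold tAt <;> fun_prop

lemma tAt_ms' (k : Arm) {s : CC.Gm → ℝ} (hs : Measurable s) : Measurable fun g => tAt k g (s g) :=
  (tAt_ms k).comp (measurable_id.prodMk hs)

section gates

variable {G : Ga} (hG : G.Ms)

include hG

lemma Ga.Ms.tc (k : Arm) : Measurable (G.tc k) := tAt_ms' k (hG.c k)

lemma Ga.Ms.tx (k : Arm) : Measurable (G.tx k) := tAt_ms' k (hG.x k)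

lemma Ga.Ms.ic (k : Arm) : Measurable (G.ic k) := pji_cont.measurable.comp (hG.tc k)

lemma Ga.Ms.ix (k : Arm) : Measurable (G.ix k) := pji_cont.measurable.comp (hG.tx k)

lemma Ga.Ms.t8 : Measurable G.t8 := by
  rw [measurable_pi_iff]
  intro k
  fin_cases k
  · exact hG.tc .fp
  · exact hG.tx .fp
  · exact hG.tx .bq
  · exact hG.tc .bq
  · exact hG.tc .fq
  · exact hG.tx .fq
  · exact hG.tx .bp
  · exact hG.tc .bp

/-- **the gates of the turned curve are measurable** -/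
lemma Ga.Ms.rot (z : ℂ) : (G.rot z).Ms := by
  have h : Measurable (rotX z⁻¹) := (rotX_cont z⁻¹).measurable
  exact ⟨fun k => h (hG.B k), fun k => (hG.c k).comp h, fun k => (hG.x k).comp h⟩

lemma Ga.Ms.all : MeasurableSet (⋂ k, G.B k) := by
  have e : (⋂ k, G.B k) = G.B .fp ∩ (G.B .bq ∩ (G.B .fq ∩ G.B .bp)) := by
    ext y
    simp only [mem_inter_iff, mem_iInter]
    constructor
    · exact fun h => ⟨h _, h _, h _, h _⟩
    · rintro ⟨a1, a2, a3, a4⟩ k
      cases k
      · exact a1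
      · exact a2
      · exact a3
      · exact a4
  rw [e]
  exact (hG.B _).inter ((hG.B _).inter ((hG.B _).inter (hG.B _)))

lemma Ga.Ms.phi8 : Measurable fun g => CK.phi8 G.B G.c G.x g := by
  rw [measurable_pi_iff]
  intro k
  simp only [phi8_t8]
  exact (bi_ms hG.all).mul ((measurable_pi_iff.1 hG.t8) k)

end gates

lemma rtA_ms (k : Arm) : Measurable (rtA k) := by
  have h : Measurable fun g => pji (muG g) := pji_cont.measurable.comp muG_meas
  cases k
  · exact measurable_const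
  all_goals first | exact h | exact measurable_const

lemma leA_ms (k : Arm) {a b : CC.Gm → I} (ha : Measurable a) (hb : Measurable b) : MeasurableSet {g | leA k (a g) (b g)} := by
  cases k
  · exact measurableSet_le ha hb
  all_goals first | exact measurableSet_le ha hb | exact measurableSet_le hb ha

lemma dirA_norm (i j : Fin 3) (k : Arm) : ‖dirA i j k‖ = 1 := by
  cases k <;> exact ev_norm _

lemma dirU_norm {P : Prm} (hP : P.Ok) (i j : Fin 3) (k : Arm) : ‖P.u * dirA i j k‖ = 1 := by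
  rw [norm_mul, hP.u, dirA_norm, one_mul]

lemma endA_ok {P : Prm} (hP : P.Ok) (k : Arm) : (endA P k).Ok ‖P.u - 1‖ := by
  cases k
  · exact hP.p
  all_goals first | exact hP.q | exact hP.p

/-! ### 3. The sets -/

section sets

variable {P : Prm} {i j : Fin 3} {G0 GR H : Ga} (hP : P.Ok)

lemma gm2_ms : Measurable fun g : CC.Gm => g.2.2 := measurable_snd.comp measurable_snd

lemma gm1_ms : Measurable fun g : CC.Gm => g.1 := measurable_fst

include hP

/-- **the foreign gates of one arm** -/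
theorem fgS_ms (h0 : G0.Ms) (hR : GR.Ms) (k : Arm) : MeasurableSet {g | FgS P i j G0 GR k g} := by
  have hE := endA_ok hP k
  have e : {g | FgS P i j G0 GR k g} =
      GR.B k ∩ ({g | leA k (G0.ix k g) (GR.ic k g)} ∩ ({g | leA k (GR.ic k g) (GR.ix k g)} ∩
        ({g | leA k (GR.ix k g) (G0.ix (oppA k) g)} ∩
        ({g | riK (dirA i j k) g.2.2 (G0.ix k g) (GR.ix k g) ≤ 0} ∩
        ({g | kcF (dirA i j k) (P.u * dirA i j k) (endA P k) g.2.2 g.1 (G0.ix k g) (GR.ic k g) (GR.ix k g) ≤ 0} ∩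
        ({g | reK (P.u * dirA i j k) (endA P k).f.rg g.2.2 (GR.ix k g) (G0.ix (oppA k) g) ≤ 0} ∩
        ({g | stS (fRa (P.u * dirA i j k) (endA P k).f.c (endA P k).f.r0)
            (cutc g.2.2 (GR.ix k g) (G0.ix (oppA k) g)) ≤ (endA P k).f.κ} ∩
        {g | clA i j k = 0 → nrF (P.u * dirA i j k) (endA P k).s g.2.2 (GR.ix k g) (G0.ix (oppA k) g) ≤ 0}))))))) := by
    ext g
    constructor
    · exact fun h => ⟨h.e, h.o1, h.o2, h.o3, h.ri, h.kc, h.re, h.ra, h.nr⟩
    · rintro ⟨a1, a2, a3, a4, a5, a6, a7, a8, a9⟩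
      exact ⟨a1, a2, a3, a4, a5, a6, a7, a8, a9⟩
  rw [e]
  refine (hR.B k).inter ((leA_ms k (h0.ix k) (hR.ic k)).inter ((leA_ms k (hR.ic k) (hR.ix k)).inter
    ((leA_ms k (hR.ix k) (h0.ix _)).inter ((measurableSet_le ?_ measurable_const).inter
    ((measurableSet_le ?_ measurable_const).inter ((measurableSet_le ?_ measurable_const).inter
    ((measurableSet_le ?_ measurable_const).inter ?_)))))))
  · exact Measurable.riK (dirA_norm i j k) gm2_ms (h0.ix k) (hR.ix k)
  · exact Measurable.kcF hE.n.co hE.f.co (dirA_norm i j k) (dirU_norm hP i j k) gm2_ms gm1_ms (h0.ix k) (hR.ic k) (hR.ix k)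
  · exact Measurable.reK (dirU_norm hP i j k) _ gm2_ms (hR.ix k) (h0.ix _)
  · exact Measurable.stRa hE.f.co.c0 hE.f.co.c1 (dirU_norm hP i j k) gm2_ms (hR.ix k) (h0.ix _)
  · by_cases hc : clA i j k = 0
    · simp only [hc, true_imp_iff]
      exact measurableSet_le (Measurable.nrF _ (dirU_norm hP i j k) gm2_ms (hR.ix k) (h0.ix _)) measurable_const
    · simp only [hc, false_imp_iff]
      exact MeasurableSet.univ

omit hP in
/-- **the arc** -/
theorem arW_ms (hR : GR.Ms) (k : Arm) : MeasurableSet {g | ArW P i j GR k g} := by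
  have e : {g | ArW P i j GR k g} = {g | leA k (GR.ix k g) (GR.ix (oppA k) g)} ∩
      {g | wiF (wnA P (clA i j k)) g.2.2 g.1 (GR.ix k g) (GR.ix (oppA k) g) ≤ 0} := by
    ext g
    exact ⟨fun h => ⟨h.o, h.w⟩, fun h => ⟨h.1, h.2⟩⟩
  rw [e]
  refine (leA_ms k (hR.ix k) (hR.ix _)).inter (measurableSet_le ?_ measurable_const)
  have h1 : Measurable fun g : CC.Gm => ‖cutc g.2.2 (GR.ix k g) (GR.ix (oppA k) g) 1‖ :=
    (Measurable.cutc1 gm2_ms (hR.ix k) (hR.ix _)).norm
  unfold wiF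
  exact ((measurable_const.sub h1).max (h1.sub measurable_const)).max
    ((Measurable.duL _ gm1_ms (hR.ix k) (hR.ix _)).max (Measurable.duU _ gm1_ms (hR.ix k) (hR.ix _)))

/-- **the native gates of one arm** -/
theorem ngS_ms (h0 : G0.Ms) (hR : GR.Ms) (k : Arm) : MeasurableSet {g | NgS P i j G0 GR k g} := by
  have hE := endA_ok hP k
  have e : {g | NgS P i j G0 GR k g} =
      G0.B k ∩ ({g | leA k (rtA k g) (G0.ic k g)} ∩ ({g | leA k (G0.ic k g) (G0.ix k g)} ∩
        ({g | leA k (G0.ix k g) (GR.ic k g)} ∩ ({g | leA k (GR.ic k g) (GR.ix k g)} ∩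
        ({g | preF (dirA i j k) (endA P k).n g.2.2 g.1 (rtA k g) (G0.ic k g) (G0.ix k g) ≤ 0} ∩
        ({g | preK (dirA i j k) (endA P k).n g.2.2 (rtA k g) (G0.ic k g) (G0.ix k g) ≤ 0} ∩
        ({g | riK (dirA i j k) g.2.2 (G0.ix k g) (GR.ix k g) ≤ 0} ∩
        {g | kcF (dirA i j k) (P.u * dirA i j k) (endA P k) g.2.2 g.1 (G0.ix k g) (GR.ic k g) (GR.ix k g) ≤ 0}))))))) := by
    ext g
    constructor
    · exact fun h => ⟨h.e, h.o1, h.o2, h.o3, h.o4, h.pf, h.pk, h.ri, h.kc⟩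
    · rintro ⟨a1, a2, a3, a4, a5, a6, a7, a8, a9⟩
      exact ⟨a1, a2, a3, a4, a5, a6, a7, a8, a9⟩
  rw [e]
  refine (h0.B k).inter ((leA_ms k (rtA_ms k) (h0.ic k)).inter ((leA_ms k (h0.ic k) (h0.ix k)).inter
    ((leA_ms k (h0.ix k) (hR.ic k)).inter ((leA_ms k (hR.ic k) (hR.ix k)).inter
    ((measurableSet_le ?_ measurable_const).inter ((measurableSet_le ?_ measurable_const).inter
    ((measurableSet_le ?_ measurable_const).inter (measurableSet_le ?_ measurable_const))))))))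
  · exact Measurable.preF hE.n.co (dirA_norm i j k) gm2_ms gm1_ms (rtA_ms k) (h0.ic k) (h0.ix k)
  · exact Measurable.preK _ (dirA_norm i j k) gm2_ms (rtA_ms k) (h0.ic k) (h0.ix k)
  · exact Measurable.riK (dirA_norm i j k) gm2_ms (h0.ix k) (hR.ix k)
  · exact Measurable.kcF hE.n.co hE.f.co (dirA_norm i j k) (dirU_norm hP i j k) gm2_ms gm1_ms (h0.ix k) (hR.ic k) (hR.ix k)

/-- **the wedges** -/
theorem wdS_ms (h0 : G0.Ms) (k k' : Arm) : MeasurableSet {g | WdS P i j G0 k k' g} := by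
  have hE := endA_ok hP k
  exact measurableSet_le (Measurable.wdF hE.n.co.s0 hE.n.co.s1 (dirA_norm i j k') (dirA_norm i j k) gm2_ms (rtA_ms k)
    (h0.ic k)) measurable_const

theorem jF1_ms (h0 : G0.Ms) (hH : H.Ms) : MeasurableSet (jF1 P i j G0 H) :=
  (fgS_ms hP h0 (hH.rot P.u) .fp).inter ((fgS_ms hP h0 (hH.rot P.u) .bq).inter (arW_ms (hH.rot P.u) .fp))

theorem jF2_ms (h0 : G0.Ms) (hH : H.Ms) : MeasurableSet (jF2 P i j G0 H) :=
  (fgS_ms hP h0 (hH.rot P.u) .bp).inter ((fgS_ms hP h0 (hH.rot P.u) .fq).inter (arW_ms (hH.rot P.u) .bp))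

theorem jEp_ms (h0 : G0.Ms) (hH : H.Ms) : MeasurableSet (jEp P i j G0 H) :=
  (ngS_ms hP h0 (hH.rot P.u) .fp).inter ((ngS_ms hP h0 (hH.rot P.u) .bp).inter ((wdS_ms hP h0 .fp .bp).inter
    (wdS_ms hP h0 .bp .fp)))

theorem jEq_ms (h0 : G0.Ms) (hH : H.Ms) : MeasurableSet (jEq P i j G0 H) :=
  (ngS_ms hP h0 (hH.rot P.u) .bq).inter ((ngS_ms hP h0 (hH.rot P.u) .fq).inter ((wdS_ms hP h0 .bq .fq).inter
    (wdS_ms hP h0 .fq .bq)))

end sets

/-! ### 4. Weights and marks -/

section marks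

variable {P : Prm} {i j : Fin 3} {G0 H : Ga}

lemma jTF_ms (h0 : G0.Ms) : Measurable (jTF G0) := CC.m4_cont.measurable.comp h0.t8

lemma jSF_ms (hH : H.Ms) : Measurable (jSF P H) := CC.m4_cont.measurable.comp (hH.rot P.u).t8

lemma jT_ms (h0 : G0.Ms) : Measurable (jT G0) := h0.phi8

lemma jS_ms (hH : H.Ms) : Measurable (jS P H) := hH.phi8.comp (rotX_cont P.u⁻¹).measurable

lemma k3S_ms {D : Dt} (hD : D.Ok) {B : Set CC.Gm} (hB : MeasurableSet B) {Φ : CC.Gm → Fin 8 → ℝ} (hΦ : Measurable Φ) :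
    MeasurableSet (k3S D B Φ) := by
  refine hB.inter (measurableSet_le ?_ measurable_const)
  have h0 : Continuous fun z : C(I, ℂ) × ℝ × I × (Fin 8 → I) => clsF D z.1 z.2.1 z.2.2.1 z.2.2.2 :=
    clsF_cont hD continuous_fst (by fun_prop) (by fun_prop) fun k => by fun_prop
  have h0' : Continuous fun z : C(I, ℂ) × ℝ × I × (Fin 8 → I) => ordF z.2.2.2 := by
    unfold ordF
    fun_prop
  have h1 := h0.max h0'
  have h2 : Measurable fun y : CC.Gm => fun k => pji (Φ y k) :=
    measurable_pi_iff.2 fun k => pji_cont.measurable.comp ((measurable_pi_iff.1 hΦ) k)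
  have h3 := h1.measurable.comp (gm2_ms.prodMk (gm1_ms.prodMk ((pji_cont.measurable.comp muG_meas).prodMk h2)))
  exact h3

private lemma wnA_or (P : Prm) (a : Fin 3) : wnA P a = P.W ∨ wnA P a = P.Wc := by
  unfold wnA
  split_ifs
  · exact Or.inl rfl
  · exact Or.inr rfl

lemma jD0_ok (hP : P.Ok) (hij : i ≠ j) : (jD0 P i j).Ok := D0_ok hP hij (wnA_or P i) (wnA_or P j)

lemma jDR_ok (hP : P.Ok) (hij : i ≠ j) : (jDR P i j).Ok :=
  DR_ok hP hij (wnA_or P i) (wnA_or P j) le_rfl le_rfl le_rfl le_rfl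

theorem jK0_ms (hP : P.Ok) (hij : i ≠ j) (h0 : G0.Ms) : MeasurableSet (jK0 P i j G0) :=
  k3S_ms (jD0_ok hP hij) h0.all h0.phi8

theorem jw0_ms (hP : P.Ok) (hij : i ≠ j) (h0 : G0.Ms) : Measurable (jw0 P i j G0) :=
  ENNReal.measurable_ofReal.comp (bi_ms (jK0_ms hP hij h0))

theorem jKR_ms (hP : P.Ok) (hij : i ≠ j) (hH : H.Ms) : MeasurableSet (jKR P i j H) := by
  have hD := jDR_ok hP hij
  have h1 : MeasurableSet (k3S (jDR P i j) (⋂ k, H.B k) (phi8 H.B H.c H.x)) := k3S_ms hD hH.all hH.phi8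
  have hk : ∀ k, Measurable fun y : CC.Gm => pji (phi8 H.B H.c H.x y k) :=
    fun k => pji_cont.measurable.comp ((measurable_pi_iff.1 hH.phi8) k)
  unfold jKR
  split_ifs
  · exact h1.inter (measurableSet_le ((Measurable.nrF _ hD.d gm2_ms (hk 1) (hk 2)).max
      (Measurable.nrF _ hD.t gm2_ms (hk 2) (hk 1))) measurable_const)
  · exact h1

theorem jwR_ms (hP : P.Ok) (hij : i ≠ j) (hH : H.Ms) : Measurable (jwR P i j H) :=
  ENNReal.measurable_ofReal.comp (bi_ms ((rotX_cont P.u⁻¹).measurable (jKR_ms hP hij hH)))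

end marks

end Pool.Agent.ROT.F3.CK
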