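import Pool.Agent.ROT.F3CoreA
import Pool.Agent.ROT.F3Fac

/-!
# F3, row C3 (31): the joint marks (`PairIn.hj`) from locality

* **`cls_of`** : the set `C` and the map `τ` of one class, for all pairs in which the class occurs (`tau_of` on `w ≠ 0`);
* `arcsOf` : the arcs and the relative position at the second gates, read off from the curve;
* **`hj_of`** : the field `hj` of `PairIn` from: `(C, τ)` describes the foreign marks (class 1, class 2), `(Cp, fp)`, `(Cq, fq)` describe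
  the marks of the first lattice seen from the second one, and the two events agree.
-/

set_option autoImplicit false
set_option linter.unusedSectionVars false

open MeasureTheory ProbabilityTheory Set
open scoped ENNReal

namespace Pool.Agent.ROT.F3

/-- **the set and the map of one class**, in countably many pairs: `P i`, `w i` = law and weight of the native class, `r i` = the rest,
`F i` = the foreign marks exist (and the arc is in the class), `q i` = the pieces and the arc -/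
theorem cls_of {Γ : Type*} [MeasurableSpace Γ] [StandardBorelSpace Γ] {ι : Type*} [Countable ι] {R Q : Type*}
    [MeasurableSpace R] [StandardBorelSpace R] [MeasurableSpace Q] [StandardBorelSpace Q] [Nonempty Q]
    {P : ι → Measure Γ} [∀ i, SFinite (P i)] {w : ι → Γ → ℝ≥0∞} (hw : ∀ i, Measurable (w i)) {r : ι → Γ → R}
    (hr : ∀ i, Measurable (r i)) {F : ι → Set Γ} (hF : ∀ i, MeasurableSet (F i)) {q : ι → Γ → Q}
    (hq : ∀ i, Measurable (q i)) {V : Set (R × Q)} (hV : MeasurableSet V) {G : ι → Set Γ}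
    (hG : ∀ i, ∀ᵐ g ∂(P i), w i g ≠ 0 → g ∈ G i)
    (hGV : ∀ i, ∀ g ∈ G i, w i g ≠ 0 → g ∈ F i → (r i g, q i g) ∈ V)
    (loc : ∀ i j, ∀ g ∈ G i, ∀ g' ∈ G j, w i g ≠ 0 → w j g' ≠ 0 → r i g = r j g' → g ∈ F i →
      g' ∈ F j ∧ q i g = q j g') :
    ∃ (C : Set R) (τ : R → Q), MeasurableSet C ∧ Measurable τ ∧ (∀ x ∈ C, (x, τ x) ∈ V) ∧
      ∀ i, ∀ᵐ g ∂(P i), w i g ≠ 0 → (r i g ∈ C ↔ g ∈ F i) ∧ (g ∈ F i → τ (r i g) = q i g) := by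
  have hA : ∀ i, MeasurableSet {g | w i g ≠ 0} := fun i => (hw i) (measurableSet_singleton 0).compl
  obtain ⟨C, τ, h1, h2, h3, h4⟩ := tau_of (P := fun i => (P i).restrict {g | w i g ≠ 0}) hr hF hq hV
    (G := fun i => {g | g ∈ G i ∧ w i g ≠ 0})
    (fun i => by
      rw [ae_restrict_iff' (hA i)]
      filter_upwards [hG i] with g hg hg2
      exact ⟨hg hg2, hg2⟩)
    (fun i g hg hF' => hGV i g hg.1 hg.2 hF')
    (fun i j g hg g' hg' e hF' => loc i j g hg.1 g' hg'.1 hg.2 hg'.2 e hF')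
  refine ⟨C, τ, h1, h2, h3, fun i => ?_⟩
  have := h4 i
  rwa [ae_restrict_iff' (hA i)] at this

section

variable {R1 R2 K1 K2 A B Γ K0 Kp Kq Qp Qw : Type*} [MeasurableSpace R1] [MeasurableSpace R2] [MeasurableSpace K1]
  [MeasurableSpace K2] [MeasurableSpace A] [MeasurableSpace B] [MeasurableSpace Γ] [MeasurableSpace K0]
  [MeasurableSpace Kp] [MeasurableSpace Kq]

omit [MeasurableSpace Γ] in
lemma jnd_eq {S T : Set Γ} {w w' : Γ → ℝ≥0∞} {g : Γ} {Q : Prop} (k1 : w g ≠ 0 → g ∈ S → w g = w' g ∧ g ∈ T ∧ Q)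
    (k2 : w' g ≠ 0 → g ∈ T → w g ≠ 0 ∧ g ∈ S) :
    S.indicator w g = T.indicator w' g ∧ (S.indicator w g ≠ 0 → Q) := by
  classical
  have e3 : g ∉ S → S.indicator w g = 0 := fun h => indicator_of_notMem h w
  by_cases h : w g = 0
  · have e1 : S.indicator w g = 0 := by
      by_cases hS : g ∈ S
      · rw [indicator_of_mem hS, h]
      · exact e3 hS
    have e2 : T.indicator w' g = 0 := by
      by_cases hT : g ∈ T
      · rw [indicator_of_mem hT]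
        by_contra h'
        exact (k2 h' hT).1 h
      · exact indicator_of_notMem hT w'
    exact ⟨e1.trans e2.symm, fun h' => absurd e1 h'⟩
  · by_cases hS : g ∈ S
    · obtain ⟨b1, b2, b3⟩ := k1 h hS
      exact ⟨by rw [indicator_of_mem hS, indicator_of_mem b2, b1], fun _ => b3⟩
    · have e2 : T.indicator w' g = 0 := by
        by_cases hT : g ∈ T
        · rw [indicator_of_mem hT]
          by_contra h'
          exact hS (k2 h' hT).2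
        · exact indicator_of_notMem hT w'
      exact ⟨(e3 hS).trans e2.symm, fun h' => absurd (e3 hS) h'⟩

/-- the arcs and the relative position at the second gates, from the pieces `q1`, `q2` and the relative position `z0` -/
def arcsOf (s1 : K1 → ℂ) (s2 : K2 → ℂ) (q1 : K1 × A) (q2 : K2 × B) (z0 : ℂ) : A × (B × ℂ) :=
  (q1.2, (q2.2, z0 + s1 q1.1 - s2 q2.1))

/-- **the joint marks** -/
theorem hj_of {c1 : Cls R1 K1 A} {c2 : Cls R2 K2 B} {P : Measure Γ} {w0 wR : Γ → ℝ≥0∞}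
    {m0 : Γ → K0 × (R1 × (R2 × ℂ))} {mR : Γ → (Kp × Kq) × (A × (B × ℂ))} {Z W : Set ℂ} {F1 F2 Ep Eq : Set Γ}
    {q1 : Γ → K1 × A} {q2 : Γ → K2 × B} {qp : Γ → Qp} {qq : Γ → Qw} {Cp : Set Kp} {Cq : Set Kq} {fp : Kp → Qp}
    {fq : Kq → Qw} {φ : Qp × Qw → K1 × K2}
    (h1 : ∀ᵐ g ∂P, w0 g ≠ 0 → ((m0 g).2.1 ∈ c1.C ↔ g ∈ F1) ∧ (g ∈ F1 → c1.τ (m0 g).2.1 = q1 g))
    (h2 : ∀ᵐ g ∂P, w0 g ≠ 0 → ((m0 g).2.2.1 ∈ c2.C ↔ g ∈ F2) ∧ (g ∈ F2 → c2.τ (m0 g).2.2.1 = q2 g))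
    (h3 : ∀ᵐ g ∂P, wR g ≠ 0 → ((mR g).1.1 ∈ Cp ↔ g ∈ Ep) ∧ (g ∈ Ep → fp (mR g).1.1 = qp g))
    (h4 : ∀ᵐ g ∂P, wR g ≠ 0 → ((mR g).1.2 ∈ Cq ↔ g ∈ Eq) ∧ (g ∈ Eq → fq (mR g).1.2 = qq g))
    (h5 : ∀ᵐ g ∂P, w0 g ≠ 0 → g ∈ F1 → g ∈ F2 →
      arcsOf c1.s c2.s (q1 g) (q2 g) (m0 g).2.2.2 ∈ DD c1.g c2.g c1.y c2.y Z W →
      w0 g = wR g ∧ g ∈ Ep ∧ g ∈ Eq ∧ (mR g).2 = arcsOf c1.s c2.s (q1 g) (q2 g) (m0 g).2.2.2 ∧
        φ (qp g, qq g) = ((q1 g).1, (q2 g).1))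
    (h6 : ∀ᵐ g ∂P, wR g ≠ 0 → g ∈ Ep → g ∈ Eq → (mR g).2 ∈ DD c1.g c2.g c1.y c2.y Z W →
      w0 g ≠ 0 ∧ g ∈ F1 ∧ g ∈ F2 ∧ arcsOf c1.s c2.s (q1 g) (q2 g) (m0 g).2.2.2 = (mR g).2) :
    ∀ᵐ g ∂P,
      {g | (m0 g).2 ∈ c1.C ×ˢ (c2.C ×ˢ univ) ∧
          pi3 (tht c1.τ c2.τ c1.s c2.s (m0 g).2) ∈ DD c1.g c2.g c1.y c2.y Z W}.indicator w0 g =
        {g | mR g ∈ (Cp ×ˢ Cq) ×ˢ DD c1.g c2.g c1.y c2.y Z W}.indicator wR g ∧
      ({g | (m0 g).2 ∈ c1.C ×ˢ (c2.C ×ˢ univ) ∧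
          pi3 (tht c1.τ c2.τ c1.s c2.s (m0 g).2) ∈ DD c1.g c2.g c1.y c2.y Z W}.indicator w0 g ≠ 0 →
        sh (tht c1.τ c2.τ c1.s c2.s (m0 g).2) = (φ (fp (mR g).1.1, fq (mR g).1.2), (mR g).2)) := by
  classical
  filter_upwards [h1, h2, h3, h4, h5, h6] with g g1 g2 g3 g4 g5 g6
  -- the rests and the marks
  have e1 : w0 g ≠ 0 → (m0 g).2.1 ∈ c1.C → (m0 g).2.2.1 ∈ c2.C →
      tht c1.τ c2.τ c1.s c2.s (m0 g).2 = (q1 g, (q2 g, (m0 g).2.2.2 + c1.s (q1 g).1 - c2.s (q2 g).1)) := by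
    intro a1 a2 a3
    simp only [tht]
    rw [(g1 a1).2 ((g1 a1).1.1 a2), (g2 a1).2 ((g2 a1).1.1 a3)]
  have e2 : w0 g ≠ 0 → (m0 g).2.1 ∈ c1.C → (m0 g).2.2.1 ∈ c2.C →
      pi3 (tht c1.τ c2.τ c1.s c2.s (m0 g).2) = arcsOf c1.s c2.s (q1 g) (q2 g) (m0 g).2.2.2 := by
    intro a1 a2 a3
    rw [e1 a1 a2 a3]
    rfl
  -- what the first event gives
  have k1 : w0 g ≠ 0 → ((m0 g).2 ∈ c1.C ×ˢ (c2.C ×ˢ univ) ∧
      pi3 (tht c1.τ c2.τ c1.s c2.s (m0 g).2) ∈ DD c1.g c2.g c1.y c2.y Z W) →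
      w0 g = wR g ∧ mR g ∈ (Cp ×ˢ Cq) ×ˢ DD c1.g c2.g c1.y c2.y Z W ∧
        sh (tht c1.τ c2.τ c1.s c2.s (m0 g).2) = (φ (fp (mR g).1.1, fq (mR g).1.2), (mR g).2) := by
    rintro a1 ⟨⟨a2, a3, -⟩, a4⟩
    rw [e2 a1 a2 a3] at a4
    obtain ⟨b1, b2, b3, b4, b5⟩ := g5 a1 ((g1 a1).1.1 a2) ((g2 a1).1.1 a3) a4
    have a5 : wR g ≠ 0 := b1 ▸ a1
    refine ⟨b1, ⟨⟨(g3 a5).1.2 b2, (g4 a5).1.2 b3⟩, ?_⟩, ?_⟩
    · rw [b4]
      exact a4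
    · rw [e1 a1 a2 a3, (g3 a5).2 b2, (g4 a5).2 b3, b5, b4]
      rfl
  -- and the second one
  have k2 : wR g ≠ 0 → mR g ∈ (Cp ×ˢ Cq) ×ˢ DD c1.g c2.g c1.y c2.y Z W → w0 g ≠ 0 ∧
      ((m0 g).2 ∈ c1.C ×ˢ (c2.C ×ˢ univ) ∧
        pi3 (tht c1.τ c2.τ c1.s c2.s (m0 g).2) ∈ DD c1.g c2.g c1.y c2.y Z W) := by
    rintro a1 ⟨⟨a2, a3⟩, a4⟩
    obtain ⟨b1, b2, b3, b4⟩ := g6 a1 ((g3 a1).1.1 a2) ((g4 a1).1.1 a3) a4
    have b5 := (g1 b1).1.2 b2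
    have b6 := (g2 b1).1.2 b3
    refine ⟨b1, ⟨b5, b6, mem_univ _⟩, ?_⟩
    rw [e2 b1 b5 b6, b4]
    exact a4
  exact jnd_eq k1 k2

end

end Pool.Agent.ROT.F3
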