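import Pool.Agent.ROT.F3SumW
import Pool.Agent.NTS.MergeTop

/-!
# ROT, block F3, row R5 (helper58): the closed words with two roots as finite measures

* `TN`, `wN`, `mw N b` : the critical measure on the pairs (closed word `w`, second root `m < |w|`), `|w| ≤ b N ^ (4 / 3)`, in natural units;
  `cN N` : lengths and the closed curve in natural units;
* `mw_int`, `mw_sw2`, `mw_pol` : the integrals are the sums of F3SumW, over the numbers of steps and the polygons;
* `mw_le` : the masses; **`mw_sum`** : from every number of steps and every second root to the integral.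
-/

set_option autoImplicit false

open MeasureTheory Filter Topology Set

open scoped Classical NNReal ENNReal

namespace Pool.Agent.ROT.F3

open Pool.Agent.NTS.Res Pool.Agent.PMA Pool.Agent.PMA.Res Pool.Agent.ROT.F

instance instMSW3 : MeasurableSpace W3 := ⊤

instance instDMSW3 : DiscreteMeasurableSpace W3 := ⟨fun _ => trivial⟩

/-! ### 1. The measures -/

/-- the pairs (closed word, second root) with at most `b N ^ (4 / 3)` letters -/
noncomputable def TN (N : ℕ) (b : ℝ) : Finset (W3 × ℕ) :=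
  (Finset.range (⌊b * (N : ℝ) ^ (4 / 3 : ℝ)⌋₊ + 1)).biUnion fun l => (Cln_finite l).toFinset ×ˢ Finset.range l

lemma mem_TN {N : ℕ} {b : ℝ} {x : W3 × ℕ} :
    x ∈ TN N b ↔ Cl x.1 ∧ x.2 < x.1.length ∧ (x.1.length : ℝ) ≤ b * (N : ℝ) ^ (4 / 3 : ℝ) := by
  unfold TN
  rw [Finset.mem_biUnion]
  constructor
  · rintro ⟨l, hl, hx⟩
    rw [Finset.mem_product, Set.Finite.mem_toFinset, Finset.mem_range] at hx
    obtain ⟨⟨h1, h2⟩, h3⟩ := hx
    rw [Finset.mem_range] at hl
    refine ⟨h1, by omega, ?_⟩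
    have h4 : l ≤ ⌊b * (N : ℝ) ^ (4 / 3 : ℝ)⌋₊ := by omega
    have h5 : l ≠ 0 := by omega
    rw [h2]
    exact (Nat.le_floor_iff' h5).1 h4
  · rintro ⟨h1, h2, h3⟩
    refine ⟨x.1.length, ?_, ?_⟩
    · rw [Finset.mem_range]
      have := (Nat.le_floor_iff' (by omega : x.1.length ≠ 0)).2 h3
      omega
    · rw [Finset.mem_product, Set.Finite.mem_toFinset, Finset.mem_range]
      exact ⟨⟨h1, rfl⟩, h2⟩

/-- the weight of a closed word -/
noncomputable def wN (N : ℕ) (w : W3) : ℝ := (N : ℝ) ^ (-(2 / 3) : ℝ) * fug ^ w.length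

lemma wN_nonneg (N : ℕ) (w : W3) : 0 ≤ wN N w := by
  unfold wN
  have : (0 : ℝ) ≤ fug := inv_nonneg.2 (Real.sqrt_nonneg _)
  positivity

/-- **the closed words with two roots** -/
noncomputable def mw (N : ℕ) (b : ℝ) : Measure (W3 × ℕ) :=
  ∑ x ∈ TN N b, ENNReal.ofReal (wN N x.1) • Measure.dirac x

/-- lengths and the closed curve, in natural units -/
noncomputable def cN (N : ℕ) (x : W3 × ℕ) : ℝ × ℝ × C(unitInterval, ℂ) :=
  ((x.1.length : ℝ) / (N : ℝ) ^ (4 / 3 : ℝ), (x.2 : ℝ) / (N : ℝ) ^ (4 / 3 : ℝ), crv x.1 x.1.length N)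

instance mw_finite (N : ℕ) (b : ℝ) : IsFiniteMeasure (mw N b) := by
  refine ⟨?_⟩
  unfold mw
  rw [Measure.finsetSum_apply]
  refine ENNReal.sum_lt_top.2 fun x _ => ?_
  rw [Measure.smul_apply, measure_univ, smul_eq_mul, mul_one]
  exact ENNReal.ofReal_lt_top

lemma mw_integrable {N : ℕ} {b : ℝ} (f : W3 × ℕ → ℝ) : Integrable f (mw N b) := by
  unfold mw
  rw [integrable_finsetSum_measure]
  intro x _
  exact (integrable_dirac (by simp)).smul_measure ENNReal.ofReal_ne_top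

lemma mw_int {N : ℕ} {b : ℝ} (f : W3 × ℕ → ℝ) : ∫ x, f x ∂(mw N b) = ∑ x ∈ TN N b, wN N x.1 * f x := by
  unfold mw
  rw [integral_finsetSum_measure]
  · refine Finset.sum_congr rfl fun x _ => ?_
    rw [integral_smul_measure, integral_dirac, ENNReal.toReal_ofReal (wN_nonneg _ _), smul_eq_mul]
  · intro x _
    exact (integrable_dirac (by simp)).smul_measure ENNReal.ofReal_ne_top

/-- **over the numbers of steps** -/
theorem mw_pol {N : ℕ} {b : ℝ} (f : W3 × ℕ → ℝ) : ∫ x, f x ∂(mw N b) = (N : ℝ) ^ (-(2 / 3) : ℝ) *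
    ∑ n ∈ (Finset.range ⌊b * (N : ℝ) ^ (4 / 3 : ℝ)⌋₊).filter Odd, fug ^ (n + 1) *
      ∑ s ∈ pol n, ∑ m ∈ Finset.range (n + 1), f (clw s, m) := by
  rw [mw_int]
  unfold TN
  rw [Finset.sum_biUnion]
  · rw [Finset.sum_range_succ', Finset.range_zero, Finset.product_empty, Finset.sum_empty, add_zero, Finset.sum_filter,
      Finset.mul_sum]
    refine Finset.sum_congr rfl fun n _ => ?_
    by_cases hn : Odd n
    · have e : (Cln_finite (n + 1)).toFinset = (pol n).map (ce n) := by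
        rw [← Finset.coe_inj, Set.Finite.coe_toFinset, Cln_eq hn]
      rw [if_pos hn, Finset.sum_product, e, Finset.sum_map, Finset.mul_sum, Finset.mul_sum]
      refine Finset.sum_congr rfl fun s _ => ?_
      rw [Finset.mul_sum, Finset.mul_sum]
      refine Finset.sum_congr rfl fun m _ => ?_
      show wN N (clw s) * f (clw s, m) = _
      unfold wN
      rw [length_clw, mul_assoc]
    · have e : (Cln_finite (n + 1)).toFinset = ∅ := by
        rw [← Finset.coe_inj, Set.Finite.coe_toFinset, Finset.coe_empty, Cln_empty]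
        intro h
        rcases Nat.even_or_odd n with h8 | h8
        · exact absurd h (Nat.not_even_iff_odd.2 h8.add_one)
        · exact hn h8
      rw [if_neg hn, e, Finset.empty_product, Finset.sum_empty, mul_zero]
  · intro l _ l' _ hl
    rw [Function.onFun, Finset.disjoint_left]
    intro x hx hx'
    rw [Finset.mem_product, Set.Finite.mem_toFinset] at hx hx'
    exact hl (hx.1.2.symm.trans hx'.1.2)

/-- the sums `SW2` as integrals -/
lemma mw_sw2 {N : ℕ} {b : ℝ} (Φ : ℕ → ℕ → C(unitInterval, ℂ) → ℝ) : ∫ x, Φ x.1.length x.2 (crv x.1 x.1.length N) ∂(mw N b) =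
    SW2 N fun l m γ => if (l : ℝ) ≤ b * (N : ℝ) ^ (4 / 3 : ℝ) then Φ l m γ else 0 := by
  obtain ⟨B, hB⟩ : ∃ B : ℕ, B = ⌊b * (N : ℝ) ^ (4 / 3 : ℝ)⌋₊ := ⟨_, rfl⟩
  rw [mw_pol, sw2_pol (M := B), ← hB]
  · congr 1
    rw [tsum_eq_sum (s := (Finset.range B).filter Odd)]
    · refine Finset.sum_congr rfl fun n hn => ?_
      rw [Finset.mem_filter, Finset.mem_range] at hn
      rw [if_pos hn.2]
      congr 1
      refine Finset.sum_congr rfl fun s _ => Finset.sum_congr rfl fun m _ => ?_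
      show Φ (clw s).length m (crv (clw s) (clw s).length N) = _
      rw [length_clw, if_pos]
      have h1 : n + 1 ≤ B := by omega
      rw [hB] at h1
      exact (Nat.le_floor_iff' (by omega)).1 h1
    · intro n hn
      by_cases ho : Odd n
      · rw [if_pos ho, Finset.sum_eq_zero, mul_zero]
        intro s _
        refine Finset.sum_eq_zero fun m _ => if_neg fun h => ?_
        have h1 := (Nat.le_floor_iff' (by omega : n + 1 ≠ 0)).2 h
        rw [← hB] at h1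
        exact hn (Finset.mem_filter.2 ⟨Finset.mem_range.2 (by omega), ho⟩)
      · rw [if_neg ho]
  · intro l m γ hl
    refine if_neg fun h => ?_
    have h1 := (Nat.le_floor_iff' (by omega : l ≠ 0)).2 h
    omega

/-! ### 2. Masses -/

lemma sum_half (M : ℕ) : ∑ n ∈ Finset.range M, ((n : ℝ) + 1) ^ (-(1 / 2) : ℝ) ≤ 2 * √(M : ℝ) := by
  induction M with
  | zero => simp
  | succ M ih =>
    rw [Finset.sum_range_succ]
    have hM : (0 : ℝ) ≤ M := Nat.cast_nonneg M
    obtain ⟨x, hx⟩ : ∃ x : ℝ, x = √(M : ℝ) := ⟨_, rfl⟩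
    obtain ⟨y, hy⟩ : ∃ y : ℝ, y = √((M : ℝ) + 1) := ⟨_, rfl⟩
    have hx0 : 0 ≤ x := by
      rw [hx]
      positivity
    have hy0 : 0 < y := by
      rw [hy]
      positivity
    have hxx : x * x = M := by
      rw [hx]
      exact Real.mul_self_sqrt hM
    have hyy : y * y = M + 1 := by
      rw [hy]
      exact Real.mul_self_sqrt (by positivity)
    have h1 : ((M : ℝ) + 1) ^ (-(1 / 2) : ℝ) = y⁻¹ := by
      rw [Real.rpow_neg (by positivity), hy, Real.sqrt_eq_rpow]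
    rw [h1]
    push_cast
    rw [← hx] at ih
    rw [← hy]
    have h2 : y⁻¹ ≤ 2 * (y - x) := by
      rw [inv_le_iff_one_le_mul₀ hy0]
      nlinarith [sq_nonneg (y - x)]
    linarith

/-- the weights of the numbers of steps -/
lemma wt_le (hQ : QB) : ∃ C : ℝ, 0 < C ∧ ∀ n : ℕ, Odd n →
    fug ^ (n + 1) * ((pol n).card : ℝ) * (n + 1) ≤ C * ((n : ℝ) + 1) ^ (-(1 / 2) : ℝ) := by
  obtain ⟨-, C, -, -, -, hQ⟩ := hQ
  have hf0 : (0 : ℝ) ≤ fug := inv_nonneg.2 (Real.sqrt_nonneg _)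
  obtain ⟨D, hD⟩ : ∃ D : ℝ, D = fug ^ 2 * ((pol 1).card : ℝ) * 2 * 2 ^ (1 / 2 : ℝ) := ⟨_, rfl⟩
  have hD0 : 0 ≤ D := by
    rw [hD]
    positivity
  refine ⟨|C| * 2 ^ (5 / 2 : ℝ) + D + 1, by positivity, fun n hn => ?_⟩
  have hp : (0 : ℝ) < ((n : ℝ) + 1) ^ (-(1 / 2) : ℝ) := by positivity
  by_cases h3 : 3 ≤ n
  · have hn0 : (0 : ℝ) < n := by exact_mod_cast (by omega : 0 < n)
    have h1 := hQ n (by omega)
    have e1 : qn n = fug ^ (n + 1) * ((pol n).card : ℝ) / (n + 1) := by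
      unfold qn
      rw [if_pos ⟨hn, h3⟩, NTSF.fug_eq]
    rw [e1, div_le_iff₀ (by positivity)] at h1
    have h2 : (n : ℝ) ^ (-(5 / 2) : ℝ) ≤ 2 ^ (5 / 2 : ℝ) * ((n : ℝ) + 1) ^ (-(5 / 2) : ℝ) := by
      have h4 : ((n : ℝ) + 1) / 2 ≤ n := by
        have : (3 : ℝ) ≤ n := by exact_mod_cast h3
        linarith
      have h5 := Real.rpow_le_rpow_of_nonpos (show (0 : ℝ) < ((n : ℝ) + 1) / 2 by positivity) h4 (show (-(5 / 2) : ℝ) ≤ 0 by norm_num)
      refine h5.trans (le_of_eq ?_)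
      rw [Real.div_rpow (by positivity) (by norm_num), Real.rpow_neg (by norm_num : (0 : ℝ) ≤ 2), div_inv_eq_mul, mul_comm]
    have h3 : ((n : ℝ) + 1) ^ (-(5 / 2) : ℝ) * (n + 1) * (n + 1) = ((n : ℝ) + 1) ^ (-(1 / 2) : ℝ) := by
      have h0 : ((n : ℝ) + 1) ≠ 0 := by positivity
      rw [← Real.rpow_add_one h0, ← Real.rpow_add_one h0]
      norm_num
    calc fug ^ (n + 1) * ((pol n).card : ℝ) * (n + 1) ≤ C * (n : ℝ) ^ (-(5 / 2) : ℝ) * (n + 1) * (n + 1) :=
          mul_le_mul_of_nonneg_right h1 (by positivity)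
      _ ≤ |C| * (2 ^ (5 / 2 : ℝ) * ((n : ℝ) + 1) ^ (-(5 / 2) : ℝ)) * (n + 1) * (n + 1) := by
          have h6 : C * (n : ℝ) ^ (-(5 / 2) : ℝ) ≤ |C| * (2 ^ (5 / 2 : ℝ) * ((n : ℝ) + 1) ^ (-(5 / 2) : ℝ)) :=
            mul_le_mul (le_abs_self C) h2 (by positivity) (abs_nonneg C)
          gcongr
      _ = |C| * 2 ^ (5 / 2 : ℝ) * (((n : ℝ) + 1) ^ (-(5 / 2) : ℝ) * (n + 1) * (n + 1)) := by ring
      _ = |C| * 2 ^ (5 / 2 : ℝ) * ((n : ℝ) + 1) ^ (-(1 / 2) : ℝ) := by rw [h3]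
      _ ≤ _ := by
          refine mul_le_mul_of_nonneg_right ?_ hp.le
          linarith
  · have hn1 : n = 1 := by
      obtain ⟨k, hk⟩ := hn
      omega
    subst hn1
    have h4 : fug ^ (1 + 1) * ((pol 1).card : ℝ) * ((1 : ℕ) + 1) = D * (((1 : ℕ) : ℝ) + 1) ^ (-(1 / 2) : ℝ) := by
      rw [hD, mul_assoc (fug ^ 2 * ((pol 1).card : ℝ) * 2)]
      have h5 : (2 : ℝ) ^ (1 / 2 : ℝ) * (((1 : ℕ) : ℝ) + 1) ^ (-(1 / 2) : ℝ) = 1 := by
        norm_num
        rw [← Real.rpow_add (by norm_num)]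
        norm_num
      rw [h5]
      norm_num
    rw [h4]
    refine mul_le_mul_of_nonneg_right ?_ hp.le
    have : 0 ≤ |C| * 2 ^ (5 / 2 : ℝ) := by positivity
    linarith

/-- **the general bound**: from the numbers of steps to the integral -/
lemma mw_le (hQ : QB) : ∃ C : ℝ, 0 < C ∧ ∀ (N : ℕ) (a b e : ℝ) (f : W3 × ℕ → ℝ), 1 ≤ N → 0 ≤ a → 0 ≤ b → 0 ≤ e →
    (∀ n : ℕ, Odd n → ((n : ℝ) + 1) ≤ b * (N : ℝ) ^ (4 / 3 : ℝ) → ∑ s ∈ pol n, ∑ m ∈ Finset.range (n + 1), f (clw s, m) ≤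
      (if ((n : ℝ) + 1) ≤ a * (N : ℝ) ^ (4 / 3 : ℝ) then 1 else e) * ((pol n).card * (n + 1))) →
    ∫ x, f x ∂(mw N b) ≤ C * (√a + e * √b) := by
  obtain ⟨C, hC, h⟩ := wt_le hQ
  refine ⟨2 * C, by positivity, fun N a b e f hN ha hb he hf => ?_⟩
  have hN0 : (0 : ℝ) < N := by exact_mod_cast hN
  obtain ⟨X, hX⟩ : ∃ X : ℝ, X = (N : ℝ) ^ (4 / 3 : ℝ) := ⟨_, rfl⟩
  have hX0 : 0 < X := by
    rw [hX]
    positivity
  have hf0 : (0 : ℝ) ≤ fug := inv_nonneg.2 (Real.sqrt_nonneg _)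
  have hsq : ∀ c : ℝ, 0 ≤ c → (N : ℝ) ^ (-(2 / 3) : ℝ) * √((⌊c * X⌋₊ : ℕ) : ℝ) ≤ √c := by
    intro c hc
    have h1 : √((⌊c * X⌋₊ : ℕ) : ℝ) ≤ √c * √X := by
      rw [← Real.sqrt_mul hc]
      exact Real.sqrt_le_sqrt (Nat.floor_le (by positivity))
    have h2 : (N : ℝ) ^ (-(2 / 3) : ℝ) * √X = 1 := by
      rw [Real.sqrt_eq_rpow, hX, ← Real.rpow_mul hN0.le, ← Real.rpow_add hN0]
      norm_num
    calc _ ≤ (N : ℝ) ^ (-(2 / 3) : ℝ) * (√c * √X) := mul_le_mul_of_nonneg_left h1 (by positivity)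
      _ = √c * ((N : ℝ) ^ (-(2 / 3) : ℝ) * √X) := by ring
      _ = √c := by rw [h2, mul_one]
  rw [← hX] at hf
  rw [mw_pol, ← hX]
  have h1 : ∀ n ∈ (Finset.range ⌊b * X⌋₊).filter Odd, fug ^ (n + 1) * ∑ s ∈ pol n, ∑ m ∈ Finset.range (n + 1), f (clw s, m) ≤
      (if n < ⌊a * X⌋₊ then C * ((n : ℝ) + 1) ^ (-(1 / 2) : ℝ) else 0) + e * (C * ((n : ℝ) + 1) ^ (-(1 / 2) : ℝ)) := by
    intro n hn
    rw [Finset.mem_filter, Finset.mem_range] at hn
    have h2 : ((n : ℝ) + 1) ≤ b * X := by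
      have := (Nat.le_floor_iff' (by omega : n + 1 ≠ 0)).1 (show n + 1 ≤ ⌊b * X⌋₊ by omega)
      push_cast at this
      exact this
    have h3 := mul_le_mul_of_nonneg_left (hf n hn.2 h2) (pow_nonneg hf0 (n + 1))
    have h4 := h n hn.2
    have h5 : (0 : ℝ) ≤ C * ((n : ℝ) + 1) ^ (-(1 / 2) : ℝ) := by positivity
    have h6 : (n < ⌊a * X⌋₊) ↔ ((n : ℝ) + 1) ≤ a * X := by
      have := Nat.le_floor_iff' (a := a * X) (by omega : n + 1 ≠ 0)
      push_cast at this
      rw [← this]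
      omega
    refine h3.trans ?_
    by_cases h7 : ((n : ℝ) + 1) ≤ a * X
    · rw [if_pos h7, if_pos (h6.2 h7)]
      have h8 : 0 ≤ e * (C * ((n : ℝ) + 1) ^ (-(1 / 2) : ℝ)) := mul_nonneg he h5
      linarith
    · rw [if_neg h7, if_neg fun h8 => h7 (h6.1 h8)]
      have h8 := mul_le_mul_of_nonneg_left h4 he
      linarith
  have h2 : ∑ n ∈ (Finset.range ⌊b * X⌋₊).filter Odd, ((if n < ⌊a * X⌋₊ then C * ((n : ℝ) + 1) ^ (-(1 / 2) : ℝ) else 0) +
      e * (C * ((n : ℝ) + 1) ^ (-(1 / 2) : ℝ))) ≤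
      C * (2 * √((⌊a * X⌋₊ : ℕ) : ℝ)) + e * (C * (2 * √((⌊b * X⌋₊ : ℕ) : ℝ))) := by
    rw [Finset.sum_add_distrib]
    refine add_le_add ?_ ?_
    · rw [← Finset.sum_filter]
      refine le_trans (Finset.sum_le_sum_of_subset_of_nonneg (t := Finset.range ⌊a * X⌋₊) ?_ fun n _ _ => by positivity) ?_
      · intro n hn
        rw [Finset.mem_filter] at hn
        exact Finset.mem_range.2 hn.2
      · rw [← Finset.mul_sum]
        exact mul_le_mul_of_nonneg_left (sum_half _) hC.le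
    · rw [← Finset.mul_sum, ← Finset.mul_sum]
      refine mul_le_mul_of_nonneg_left (mul_le_mul_of_nonneg_left ?_ hC.le) he
      exact (Finset.sum_le_sum_of_subset_of_nonneg (Finset.filter_subset _ _) fun n _ _ => by positivity).trans (sum_half _)
  have h3 := mul_le_mul_of_nonneg_left ((Finset.sum_le_sum h1).trans h2) (show (0 : ℝ) ≤ (N : ℝ) ^ (-(2 / 3) : ℝ) by positivity)
  refine h3.trans ?_
  have h4 := mul_le_mul_of_nonneg_left (hsq a ha) (show (0 : ℝ) ≤ 2 * C by positivity)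
  have h5 := mul_le_mul_of_nonneg_left (hsq b hb) (show (0 : ℝ) ≤ 2 * C * e by positivity)
  calc _ = 2 * C * ((N : ℝ) ^ (-(2 / 3) : ℝ) * √((⌊a * X⌋₊ : ℕ) : ℝ)) +
        2 * C * e * ((N : ℝ) ^ (-(2 / 3) : ℝ) * √((⌊b * X⌋₊ : ℕ) : ℝ)) := by ring
    _ ≤ 2 * C * √a + 2 * C * e * √b := add_le_add h4 h5
    _ = _ := by ring

/-- **from every number of steps and every second root to the integral** -/
theorem mw_sum (hQ : QB) {b ε : ℝ} (hb : 0 ≤ b) (hε : 0 < ε) : ∃ δ K0 ε' : ℝ, 0 < δ ∧ 0 < K0 ∧ 0 < ε' ∧ ∀ n0 : ℕ, ∃ N0 : ℕ,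
    ∀ N : ℕ, N0 ≤ N → ∀ f : W3 × ℕ → ℝ, (∀ x, f x ≤ 1) →
      (∀ n : ℕ, n0 ≤ n → Odd n → (N : ℝ) ≤ K0 * (n : ℝ) ^ (3 / 4 : ℝ) → (n : ℝ) ^ (3 / 4 : ℝ) ≤ K0 * N →
        ∀ m : ℕ, δ * n ≤ m → (m : ℝ) ≤ (1 - δ) * n → ∑ s ∈ pol n, f (clw s, m) ≤ ε' * (pol n).card) →
      ∫ x, f x ∂(mw N b) ≤ ε := by
  obtain ⟨C, hC, hmw⟩ := mw_le hQ
  -- the constants
  obtain ⟨a, ha⟩ : ∃ a : ℝ, a = (ε / (2 * C)) ^ 2 := ⟨_, rfl⟩
  have ha0 : 0 < a := by
    rw [ha]
    positivity
  have hsa : √a = ε / (2 * C) := by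
    rw [ha]
    exact Real.sqrt_sq (by positivity)
  obtain ⟨e, he⟩ : ∃ e : ℝ, e = ε / (2 * C * (√b + 1)) := ⟨_, rfl⟩
  have hb1 : 0 < √b + 1 := by positivity
  have he0 : 0 < e := by
    rw [he]
    positivity
  have heb : C * (e * √b) ≤ ε / 2 := by
    have h1 : C * (e * (√b + 1)) = ε / 2 := by
      rw [he]
      field_simp
    have h2 : C * (e * √b) ≤ C * (e * (√b + 1)) := by gcongr; linarith
    linarith
  obtain ⟨K0, hK0⟩ : ∃ K0 : ℝ, K0 = (2 / a) ^ (3 / 4 : ℝ) + b ^ (3 / 4 : ℝ) + 1 := ⟨_, rfl⟩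
  have hK : 0 < K0 := by
    rw [hK0]
    positivity
  refine ⟨e / 8, K0, e / 2, by positivity, hK, by positivity, fun n0 => ?_⟩
  have hN43 : Tendsto (fun N : ℕ => (N : ℝ) ^ (4 / 3 : ℝ)) atTop atTop :=
    (tendsto_rpow_atTop (by norm_num : (0 : ℝ) < 4 / 3)).comp tendsto_natCast_atTop_atTop
  obtain ⟨N1, hN1⟩ := (hN43.eventually_ge_atTop ((n0 + 2 + 8 / e) / a)).exists_forall_of_atTop
  refine ⟨max N1 1, fun N hN f hf1 hf => ?_⟩
  have hN1' : 1 ≤ N := (le_max_right _ _).trans hN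
  have hN0 : (0 : ℝ) < N := by exact_mod_cast hN1'
  have hX := hN1 N ((le_max_left _ _).trans hN)
  obtain ⟨X, hXe⟩ : ∃ X : ℝ, X = (N : ℝ) ^ (4 / 3 : ℝ) := ⟨_, rfl⟩
  rw [← hXe, div_le_iff₀ ha0] at hX
  have hX0 : 0 < X := by
    rw [hXe]
    positivity
  have h8e : 0 < 8 / e := by positivity
  have hX34 : X ^ (3 / 4 : ℝ) = N := by
    rw [hXe, ← Real.rpow_mul hN0.le]
    norm_num
  refine (hmw N a b e f hN1' ha0.le hb he0.le ?_).trans ?_
  · rw [← hXe]
    intro n ho hnb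
    have hc0 : (0 : ℝ) ≤ (pol n).card := Nat.cast_nonneg _
    by_cases hna : (n : ℝ) + 1 ≤ a * X
    · rw [if_pos hna, one_mul]
      calc ∑ s ∈ pol n, ∑ m ∈ Finset.range (n + 1), f (clw s, m) ≤ ∑ s ∈ pol n, ∑ m ∈ Finset.range (n + 1), (1 : ℝ) :=
            Finset.sum_le_sum fun s _ => Finset.sum_le_sum fun m _ => hf1 _
        _ = _ := by
            rw [Finset.sum_const, Finset.sum_const, Finset.card_range, nsmul_eq_mul, nsmul_eq_mul, mul_one]
            push_cast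
            ring
    · rw [if_neg hna]
      rw [not_le] at hna
      have hn0 : n0 ≤ n := by
        have : (n0 : ℝ) ≤ n := by linarith
        exact_mod_cast this
      have hnp : (0 : ℝ) < n := by
        have : (0 : ℝ) ≤ n0 := Nat.cast_nonneg _
        linarith
      have hna2 : a / 2 * X ≤ n := by linarith
      have hK1 : (N : ℝ) ≤ K0 * (n : ℝ) ^ (3 / 4 : ℝ) := by
        have h1 : X ≤ 2 / a * n := by
          rw [div_mul_eq_mul_div, le_div_iff₀ ha0]
          linarith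
        have h2 := Real.rpow_le_rpow hX0.le h1 (show (0 : ℝ) ≤ 3 / 4 by norm_num)
        rw [hX34, Real.mul_rpow (by positivity) hnp.le] at h2
        refine h2.trans (mul_le_mul_of_nonneg_right ?_ (by positivity))
        rw [hK0]
        have : 0 ≤ b ^ (3 / 4 : ℝ) := by positivity
        linarith
      have hK2 : (n : ℝ) ^ (3 / 4 : ℝ) ≤ K0 * N := by
        have h2 := Real.rpow_le_rpow hnp.le (show (n : ℝ) ≤ b * X by linarith) (show (0 : ℝ) ≤ 3 / 4 by norm_num)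
        rw [Real.mul_rpow hb hX0.le, hX34] at h2
        refine h2.trans (mul_le_mul_of_nonneg_right ?_ hN0.le)
        rw [hK0]
        have : 0 ≤ (2 / a) ^ (3 / 4 : ℝ) := by positivity
        linarith
      rw [Finset.sum_comm]
      -- the good roots and the other ones
      have h1 : ∀ m ∈ Finset.range (n + 1), ∑ s ∈ pol n, f (clw s, m) ≤ e / 2 * (pol n).card +
          (if (m : ℝ) < e / 8 * n then ((pol n).card : ℝ) else 0) + (if (1 - e / 8) * n < m then ((pol n).card : ℝ) else 0) := by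
        intro m _
        have h2 : ∑ s ∈ pol n, f (clw s, m) ≤ (pol n).card := by
          calc ∑ s ∈ pol n, f (clw s, m) ≤ ∑ _s ∈ pol n, (1 : ℝ) := Finset.sum_le_sum fun s _ => hf1 _
            _ = _ := by rw [Finset.sum_const, nsmul_eq_mul, mul_one]
        by_cases h3 : (m : ℝ) < e / 8 * n
        · rw [if_pos h3]
          have : (0 : ℝ) ≤ if (1 - e / 8) * n < m then ((pol n).card : ℝ) else 0 := by split_ifs <;> linarith
          nlinarith
        · by_cases h4 : (1 - e / 8) * n < (m : ℝ)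
          · rw [if_neg h3, if_pos h4]
            nlinarith
          · rw [if_neg h3, if_neg h4, add_zero, add_zero]
            exact hf n hn0 ho hK1 hK2 m (not_lt.1 h3) (not_lt.1 h4)
      have h5 : ((Finset.range (n + 1)).filter fun m : ℕ => (m : ℝ) < e / 8 * n).card ≤ (e / 8 * n + 1 : ℝ) := by
        have h6 : ((Finset.range (n + 1)).filter fun m : ℕ => (m : ℝ) < e / 8 * n) ⊆ Finset.range ⌈e / 8 * n⌉₊ := by
          intro m hm
          rw [Finset.mem_filter] at hm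
          exact Finset.mem_range.2 (Nat.lt_ceil.2 hm.2)
        have h7 := Finset.card_le_card h6
        rw [Finset.card_range] at h7
        have h8 := Nat.ceil_lt_add_one (show 0 ≤ e / 8 * n by positivity)
        have h9 : (((Finset.range (n + 1)).filter fun m : ℕ => (m : ℝ) < e / 8 * n).card : ℝ) ≤ (⌈e / 8 * n⌉₊ : ℝ) := by
          exact_mod_cast h7
        linarith
      have h6 : ((Finset.range (n + 1)).filter fun m : ℕ => (1 - e / 8) * n < (m : ℝ)).card ≤ (e / 8 * n + 1 : ℝ) := by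
        have h7 : ((Finset.range (n + 1)).filter fun m : ℕ => (1 - e / 8) * n < (m : ℝ)).card ≤ ⌈e / 8 * n⌉₊ := by
          refine (Finset.card_le_card_of_injOn (t := Finset.range ⌈e / 8 * n⌉₊) (fun m => n - m) ?_ ?_).trans
            (le_of_eq (Finset.card_range _))
          · intro m hm
            have hm' := Finset.mem_filter.1 (Finset.mem_coe.1 hm)
            have hm1 := Finset.mem_range.1 hm'.1
            rw [Finset.mem_coe, Finset.mem_range]
            refine Nat.lt_ceil.2 ?_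
            rw [Nat.cast_sub (by omega)]
            linarith [hm'.2]
          · intro m hm m' hm' h
            have hm1 := Finset.mem_range.1 (Finset.mem_filter.1 (Finset.mem_coe.1 hm)).1
            have hm2 := Finset.mem_range.1 (Finset.mem_filter.1 (Finset.mem_coe.1 hm')).1
            simp only at h
            omega
        have h8 := Nat.ceil_lt_add_one (show 0 ≤ e / 8 * n by positivity)
        have h9 : (((Finset.range (n + 1)).filter fun m : ℕ => (1 - e / 8) * n < (m : ℝ)).card : ℝ) ≤ (⌈e / 8 * n⌉₊ : ℝ) := by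
          exact_mod_cast h7
        linarith
      refine (Finset.sum_le_sum h1).trans ?_
      rw [Finset.sum_add_distrib, Finset.sum_add_distrib, Finset.sum_const, Finset.card_range, nsmul_eq_mul, ← Finset.sum_filter,
        ← Finset.sum_filter, Finset.sum_const, Finset.sum_const, nsmul_eq_mul, nsmul_eq_mul]
      have h7 := mul_le_mul_of_nonneg_right h5 hc0
      have h8 := mul_le_mul_of_nonneg_right h6 hc0
      have h9 : 1 ≤ e / 8 * ((n : ℝ) + 1) := by
        have h10 : 8 / e ≤ (n : ℝ) + 1 := by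
          have : (0 : ℝ) ≤ n0 := Nat.cast_nonneg _
          linarith
        rw [div_le_iff₀ he0] at h10
        linarith
      have h10 := mul_le_mul_of_nonneg_right h9 hc0
      push_cast
      have h11 : e / 8 * ((n : ℝ) + 1) * (pol n).card = e / 8 * n * (pol n).card + e / 8 * (pol n).card := by ring
      have h12 : 0 ≤ e / 8 * (pol n).card := by positivity
      nlinarith
  · rw [mul_add, hsa]
    have : C * (ε / (2 * C)) = ε / 2 := by field_simp
    linarith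

end Pool.Agent.ROT.F3
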