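import Pool.Agent.ROT.F3CoreC
import Pool.Agent.ROT.F3LimG
import Pool.Agent.ROT.F3Sys

/-!
# ROT, F3, row Core, part (C1), words (helper42)

* `wp d τ w` : the curve of the word `w` (lengths divided by `d`) with its duration (letters divided by `τ`);
* **`wp_seg`**, **`wp_rev`** : pieces of the curve of a word between even vertices;
* closed words with marks (`cN` of F3Sys): **`rst_word`**, **`kap_word`**; with the pieces as data: **`rst_G6`**, **`kap_G6`**.
-/

set_option autoImplicit false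

open MeasureTheory Topology Set

namespace Pool.Agent.ROT.F3.CC

open Pool.Agent.ROT.F3

lemma cutp_eq (g : C(unitInterval, ℂ)) (a b : unitInterval) : cutp g a b = cutc g a b := by
  ext u
  rw [cutp_apply, cutc_apply, ex_coe]
  congr 1
  have e : (a : ℝ) + u * (b - a) = (cvx a b u : unitInterval) := by
    rw [cvx_coe]
    ring
  rw [e, ex_coe]

/-- the curve of a word with its duration -/
noncomputable def wp (d τ : ℝ) (w : W3) : Pie := (crv w w.length d, (w.length : ℝ) / τ)

lemma seg_len {w : W3} {i j : ℕ} (hj : j ≤ w.length) : (seg w i j).length = j - i := by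
  unfold seg
  rw [List.length_take, List.length_drop]
  omega

/-- the piece between two vertices -/
theorem wp_seg {d τ : ℝ} {w : W3} {i j : ℕ} (ei : Even i) (hij : i ≤ j) (hj : j ≤ w.length) (hw : 1 ≤ w.length) :
    pcut (wp d τ w) ((i : ℝ) / w.length) ((j : ℝ) / w.length) = wp d τ (seg w i j) := by
  have hn : (0 : ℝ) < w.length := by exact_mod_cast hw
  have h1 := crv_seg ei hij hj le_rfl d
  unfold pcut wp
  rw [seg_len hj, h1, ← cutp_eq, fr_coe (hij.trans hj), fr_coe hj]
  refine Prod.ext rfl ?_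
  show (w.length : ℝ) / τ * |(j : ℝ) / w.length - (i : ℝ) / w.length| = ((j - i : ℕ) : ℝ) / τ
  have h2 : (j : ℝ) / w.length - (i : ℝ) / w.length = ((j - i : ℕ) : ℝ) / w.length := by
    rw [Nat.cast_sub hij]
    ring
  rw [h2, abs_of_nonneg (by positivity)]
  field_simp

/-- the reversed piece -/
theorem wp_rev {d τ : ℝ} {w : W3} {i j : ℕ} (ei : Even i) (ej : Even j) (hij : i ≤ j) (hj : j ≤ w.length)
    (hw : 1 ≤ w.length) : pcut (wp d τ w) ((j : ℝ) / w.length) ((i : ℝ) / w.length) = wp d τ (seg w i j).reverse := by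
  have hn : (0 : ℝ) < w.length := by exact_mod_cast hw
  have h1 := crv_seg_reverse ei ej hij hj le_rfl d
  unfold pcut wp
  rw [List.length_reverse, seg_len hj, h1, ← cutp_eq, fr_coe (hij.trans hj), fr_coe hj]
  refine Prod.ext rfl ?_
  show (w.length : ℝ) / τ * |(i : ℝ) / w.length - (j : ℝ) / w.length| = ((j - i : ℕ) : ℝ) / τ
  have h2 : (i : ℝ) / w.length - (j : ℝ) / w.length = -(((j - i : ℕ) : ℝ) / w.length) := by
    rw [Nat.cast_sub hij]
    ring
  rw [h2, abs_neg, abs_of_nonneg (by positivity)]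
  field_simp

/-- the curve at a vertex -/
lemma ex_vertex {d : ℝ} {w : W3} {k : ℕ} (hk : k ≤ w.length) (hw : 1 ≤ w.length) :
    ex (crv w w.length d) ((k : ℝ) / w.length) = ps w k / d := by
  rw [← fr_coe hk, ex_coe, crv_vertex hw hk (fr_mul hk hw)]

/-! ### closed words with marks -/

/-- the marks of a closed word as relative times -/
noncomputable def mT (w : W3) (k1 k2 k3 k4 : ℕ) : M4 :=
  ((k1 : ℝ) / w.length, (k2 : ℝ) / w.length, (k3 : ℝ) / w.length, (k4 : ℝ) / w.length)

lemma cl_cN (N : ℕ) (w : W3) (m : ℕ) : cl (cN N (w, m)) = wp N ((N : ℝ) ^ (4 / 3 : ℝ)) w := rfl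

lemma mu_cN {N : ℕ} (hN : 1 ≤ N) (w : W3) (m : ℕ) : mu (cN N (w, m)) = (m : ℝ) / w.length := by
  unfold mu cN
  have h : (0 : ℝ) < (N : ℝ) ^ (4 / 3 : ℝ) := by
    have : (0 : ℝ) < N := by exact_mod_cast hN
    positivity
  show (m : ℝ) / (N : ℝ) ^ (4 / 3 : ℝ) / ((w.length : ℝ) / (N : ℝ) ^ (4 / 3 : ℝ)) = _
  rcases Nat.eq_zero_or_pos w.length with h0 | h0
  · rw [h0]
    simp
  · have : (0 : ℝ) < w.length := by exact_mod_cast h0
    field_simp

/-- **the rests of a closed word with marks** -/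
theorem rst_word {N : ℕ} {w : W3} {m k1 k2 k3 k4 : ℕ} (e1 : Even k1) (e3 : Even k3) (e4 : Even k4) (h12 : k1 ≤ k2)
    (h23 : k2 ≤ k3) (h34 : k3 ≤ k4) (h4 : k4 ≤ w.length) (hw : 1 ≤ w.length) : rst (cN N (w, m)) (mT w k1 k2 k3 k4) =
      (wp N ((N : ℝ) ^ (4 / 3 : ℝ)) (seg w k1 k2), (wp N ((N : ℝ) ^ (4 / 3 : ℝ)) (seg w k3 k4).reverse,
        (ps w k4 - ps w k1) / N)) := by
  refine Prod.ext ?_ (Prod.ext ?_ ?_)
  · show pcut (cl (cN N (w, m))) _ _ = _
    rw [cl_cN]
    exact wp_seg e1 h12 (by omega) hw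
  · show pcut (cl (cN N (w, m))) _ _ = _
    rw [cl_cN]
    exact wp_rev e3 e4 h34 h4 hw
  · show ex (crv w w.length N) ((k4 : ℝ) / w.length) - ex (crv w w.length N) ((k1 : ℝ) / w.length) = (ps w k4 - ps w k1) / N
    rw [ex_vertex h4 hw, ex_vertex (by omega) hw]
    push_cast
    ring

/-- **the connections of a closed word with marks** -/
theorem kap_word {N : ℕ} (hN : 1 ≤ N) {w : W3} {m k1 k2 k3 k4 : ℕ} (em : Even m) (e2 : Even k2) (e4 : Even k4)
    (ew : Even w.length) (h12 : k1 ≤ k2) (h2m : k2 ≤ m) (hm3 : m ≤ k3) (h34 : k3 ≤ k4) (h4 : k4 ≤ w.length)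
    (hw : 1 ≤ w.length) : kap (cN N (w, m)) (mT w k1 k2 k3 k4) =
      ((wp N ((N : ℝ) ^ (4 / 3 : ℝ)) (seg w 0 k1), wp N ((N : ℝ) ^ (4 / 3 : ℝ)) (w.drop k4).reverse),
        (wp N ((N : ℝ) ^ (4 / 3 : ℝ)) (seg w k2 m).reverse, wp N ((N : ℝ) ^ (4 / 3 : ℝ)) (seg w m k3))) := by
  have hn : (w.length : ℝ) ≠ 0 := by exact_mod_cast (by omega : w.length ≠ 0)
  have e0 : (0 : ℝ) = ((0 : ℕ) : ℝ) / w.length := by simp
  have e1' : (1 : ℝ) = (w.length : ℝ) / w.length := (div_self hn).symm
  refine Prod.ext (Prod.ext ?_ ?_) (Prod.ext ?_ ?_)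
  · show pcut (cl (cN N (w, m))) 0 ((k1 : ℝ) / w.length) = _
    rw [cl_cN]
    conv_lhs => rw [e0]
    exact wp_seg (by simp) (Nat.zero_le _) (by omega) hw
  · show pcut (cl (cN N (w, m))) 1 ((k4 : ℝ) / w.length) = _
    rw [cl_cN]
    conv_lhs => rw [e1']
    rw [wp_rev e4 ew h4 le_rfl hw]
    congr 2
    unfold seg
    rw [List.take_of_length_le]
    rw [List.length_drop]
  · show pcut (cl (cN N (w, m))) (mu (cN N (w, m))) ((k2 : ℝ) / w.length) = _
    rw [cl_cN, mu_cN hN]
    exact wp_rev e2 em h2m (by omega) hw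
  · show pcut (cl (cN N (w, m))) (mu (cN N (w, m))) ((k3 : ℝ) / w.length) = _
    rw [cl_cN, mu_cN hN]
    exact wp_seg em hm3 (by omega) hw

/-! ### from the pieces -/

section

variable {a b : W3 × W3} {R S : W3}

lemma G6_len : (G6 a R b S).length = a.1.length + (R.length + (b.1.length + (b.2.length + (S.length + a.2.length)))) := by
  unfold G6
  simp only [List.length_append, List.length_reverse]

lemma seg_app_left {u v : W3} {i j : ℕ} (hj : j ≤ u.length) : seg (u ++ v) i j = seg u i j := by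
  unfold seg
  rcases le_or_gt i u.length with h | h
  · rw [List.drop_append_of_le_length h, List.take_append_of_le_length]
    rw [List.length_drop]
    omega
  · rw [show j - i = 0 by omega, List.take_zero, List.take_zero]

lemma seg_app_right {u v : W3} {i j : ℕ} : seg (u ++ v) (u.length + i) (u.length + j) = seg v i j := by
  unfold seg
  rw [List.drop_append, Nat.add_sub_add_left, List.drop_eq_nil_of_le (by omega), List.nil_append, Nat.add_sub_cancel_left]

lemma seg_full (u : W3) : seg u 0 u.length = u := by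
  unfold seg
  rw [List.drop_zero, Nat.sub_zero, List.take_length]

lemma seg_mid (u v w : W3) : seg (u ++ (v ++ w)) u.length (u.length + v.length) = v := by
  have h := seg_app_right (u := u) (v := v ++ w) (i := 0) (j := v.length)
  rw [add_zero] at h
  rw [h, seg_app_left le_rfl, seg_full]

/-- the marks of `G6` -/
def g1 (a : W3 × W3) : ℕ := a.1.length
def g2 (a : W3 × W3) (R : W3) : ℕ := a.1.length + R.length
def gm (a : W3 × W3) (R : W3) (b : W3 × W3) : ℕ := a.1.length + R.length + b.1.length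
def g3 (a : W3 × W3) (R : W3) (b : W3 × W3) : ℕ := a.1.length + R.length + b.1.length + b.2.length
def g4 (a : W3 × W3) (R : W3) (b : W3 × W3) (S : W3) : ℕ := a.1.length + R.length + b.1.length + b.2.length + S.length

lemma G6_seg1 : seg (G6 a R b S) 0 (g1 a) = a.1 := by
  unfold G6 g1
  rw [seg_app_left le_rfl, seg_full]

lemma G6_seg2 : seg (G6 a R b S) (g1 a) (g2 a R) = R := by
  unfold G6 g1 g2
  exact seg_mid _ _ _

lemma G6_seg3 : seg (G6 a R b S) (g2 a R) (gm a R b) = b.1.reverse := by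
  unfold G6 g2 gm
  have e : a.1 ++ (R ++ (b.1.reverse ++ (b.2 ++ (S.reverse ++ a.2.reverse)))) =
      (a.1 ++ R) ++ (b.1.reverse ++ (b.2 ++ (S.reverse ++ a.2.reverse))) := by simp only [List.append_assoc]
  have h := seg_mid (a.1 ++ R) b.1.reverse (b.2 ++ (S.reverse ++ a.2.reverse))
  rw [List.length_append, List.length_reverse] at h
  rw [e, h]

lemma G6_seg4 : seg (G6 a R b S) (gm a R b) (g3 a R b) = b.2 := by
  unfold G6 g3 gm
  have e : a.1 ++ (R ++ (b.1.reverse ++ (b.2 ++ (S.reverse ++ a.2.reverse)))) =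
      (a.1 ++ R ++ b.1.reverse) ++ (b.2 ++ (S.reverse ++ a.2.reverse)) := by simp only [List.append_assoc]
  have h := seg_mid (a.1 ++ R ++ b.1.reverse) b.2 (S.reverse ++ a.2.reverse)
  rw [List.length_append, List.length_append, List.length_reverse] at h
  rw [e, h]

lemma G6_seg5 : seg (G6 a R b S) (g3 a R b) (g4 a R b S) = S.reverse := by
  unfold G6 g3 g4
  have e : a.1 ++ (R ++ (b.1.reverse ++ (b.2 ++ (S.reverse ++ a.2.reverse)))) =
      (a.1 ++ R ++ b.1.reverse ++ b.2) ++ (S.reverse ++ a.2.reverse) := by simp only [List.append_assoc]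
  have h := seg_mid (a.1 ++ R ++ b.1.reverse ++ b.2) S.reverse a.2.reverse
  rw [List.length_append, List.length_append, List.length_append, List.length_reverse, List.length_reverse] at h
  rw [e, h]

lemma G6_seg6 : (G6 a R b S).drop (g4 a R b S) = a.2.reverse := by
  unfold G6 g4
  have e : a.1 ++ (R ++ (b.1.reverse ++ (b.2 ++ (S.reverse ++ a.2.reverse)))) =
      (a.1 ++ R ++ b.1.reverse ++ b.2 ++ S.reverse) ++ a.2.reverse := by simp only [List.append_assoc]
  have h := List.drop_left (l₁ := a.1 ++ R ++ b.1.reverse ++ b.2 ++ S.reverse) (l₂ := a.2.reverse)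
  rw [List.length_append, List.length_append, List.length_append, List.length_append, List.length_reverse,
    List.length_reverse] at h
  rw [e, h]

/-- the marks of `G6 a R b S` as relative times -/
noncomputable def gT (a : W3 × W3) (R : W3) (b : W3 × W3) (S : W3) : M4 :=
  mT (G6 a R b S) (g1 a) (g2 a R) (g3 a R b) (g4 a R b S)

/-- **the rests of `G6 a R b S`** : `z0` = start of `S` minus start of `R` -/
theorem rst_G6 {N : ℕ} (a1 : Even a.1.length) (a2 : Even a.2.length) (eR : Even R.length) (b1 : Even b.1.length)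
    (b2 : Even b.2.length) (eS : Even S.length) (h0 : en (G6 a R b S) = 0) (hw : 1 ≤ (G6 a R b S).length) :
    rst (cN N (G6 a R b S, gm a R b)) (gT a R b S) = (wp N ((N : ℝ) ^ (4 / 3 : ℝ)) R,
      (wp N ((N : ℝ) ^ (4 / 3 : ℝ)) S, (en a.2 - en a.1) / N)) := by
  have hl := G6_len (a := a) (b := b) (R := R) (S := S)
  have e1 : Even (g1 a) := a1
  have e3 : Even (g3 a R b) := ((a1.add eR).add b1).add b2
  have e4 : Even (g4 a R b S) := (((a1.add eR).add b1).add b2).add eS
  unfold gT
  rw [rst_word e1 e3 e4 (by unfold g1 g2; omega) (by unfold g2 g3; omega) (by unfold g3 g4; omega)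
    (by rw [hl]; unfold g4; omega) hw, G6_seg2, G6_seg5, List.reverse_reverse]
  congr 3
  have h4 : g4 a R b S ≤ (G6 a R b S).length := by
    rw [hl]
    unfold g4
    omega
  have p4 : ps (G6 a R b S) (g4 a R b S) = en a.2 := by
    have h := ps_append_drop (G6 a R b S) h4 e4 a.2.length
    have e : g4 a R b S + a.2.length = (G6 a R b S).length := by
      rw [hl]
      unfold g4
      omega
    rw [G6_seg6, e] at h
    have h2 : ps a.2.reverse a.2.length = en a.2.reverse := by rw [en, List.length_reverse]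
    rw [h2, en_reverse a2] at h
    have h3 : ps (G6 a R b S) (G6 a R b S).length = 0 := h0
    rw [h3, zero_sub] at h
    exact (neg_injective h).symm
  have p1 : ps (G6 a R b S) (g1 a) = en a.1 := by
    unfold G6 g1 en
    exact ps_append_left le_rfl
  rw [p4, p1]

/-- **the connections of `G6 a R b S`** -/
theorem kap_G6 {N : ℕ} (hN : 1 ≤ N) (a1 : Even a.1.length) (a2 : Even a.2.length) (eR : Even R.length)
    (b1 : Even b.1.length) (b2 : Even b.2.length) (eS : Even S.length) (hw : 1 ≤ (G6 a R b S).length) :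
    kap (cN N (G6 a R b S, gm a R b)) (gT a R b S) =
      ((wp N ((N : ℝ) ^ (4 / 3 : ℝ)) a.1, wp N ((N : ℝ) ^ (4 / 3 : ℝ)) a.2),
        (wp N ((N : ℝ) ^ (4 / 3 : ℝ)) b.1, wp N ((N : ℝ) ^ (4 / 3 : ℝ)) b.2)) := by
  have hl := G6_len (a := a) (b := b) (R := R) (S := S)
  have em : Even (gm a R b) := (a1.add eR).add b1
  have e2 : Even (g2 a R) := a1.add eR
  have e4 : Even (g4 a R b S) := (((a1.add eR).add b1).add b2).add eS
  have ew : Even (G6 a R b S).length := by
    rw [hl]
    exact a1.add (eR.add (b1.add (b2.add (eS.add a2))))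
  unfold gT
  rw [kap_word hN em e2 e4 ew (by unfold g1 g2; omega) (by unfold g2 gm; omega) (by unfold gm g3; omega)
    (by unfold g3 g4; omega) (by rw [hl]; unfold g4; omega) hw, G6_seg1, G6_seg3, G6_seg4, G6_seg6,
    List.reverse_reverse, List.reverse_reverse]

end

end Pool.Agent.ROT.F3.CC
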