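import Pool.Agent.ROT.F3KRelC
import Pool.Agent.ROT.F3CoreW

/-!
# ROT, F3, row JmB (helper81 for helper41): the statistics of a piece of the curve (restriction)

`R = pcut (g, L) a b` = (`cutc g a b`, `L |b - a|`), `a`, `b : I` in any order; every time between `a` and `b` is `cvx a b s`.
* **`pcut_cvx`** : `pcut (g, L) (cvx a b s) (cvx a b t) = pcut R s t`; `btI_cvx`, `all_cvx` : times; `rlt a b u` : the relative time of `u`;
* every statistic of F3ClsL, F3ClsM, F3KRelF at the times `cvx a b s` is the statistic of `R` at the times `s`: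
  `duU`, `duL`, `preF`, `wdF`, `rsF`, `nrF`, `mnF`, `kcF`, `otF`, `preK`, `reK`, `riK`, `balF`, `GtI`, `FgI`, `RtI`, `RgI`, `FrK`.
-/

set_option autoImplicit false

open MeasureTheory Topology Set

namespace Pool.Agent.ROT.F3

open CC
open scoped unitInterval

/-! ### 1. Times -/

section times

variable {a b s t u v : I}

lemma cvx_sub (a b s t : I) : ((cvx a b t : I) : ℝ) - (cvx a b s : I) = ((t : ℝ) - s) * ((b : ℝ) - a) := by
  rw [cvx_coe, cvx_coe]
  ring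

lemma cvx_dur (a b s t : I) (L : ℝ) :
    |((cvx a b t : I) : ℝ) - (cvx a b s : I)| * L = |(t : ℝ) - s| * (L * |(b : ℝ) - a|) := by
  rw [cvx_sub, abs_mul]
  ring

lemma cvx_mono (h : a ≤ b) (hs : s ≤ t) : cvx a b s ≤ cvx a b t := by
  have h1 : (a : ℝ) ≤ b := h
  have h2 : (s : ℝ) ≤ t := hs
  show ((cvx a b s : I) : ℝ) ≤ (cvx a b t : I)
  have := cvx_sub a b s t
  have h3 : 0 ≤ ((t : ℝ) - s) * ((b : ℝ) - a) := mul_nonneg (by linarith) (by linarith)
  linarith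

lemma cvx_anti (h : b ≤ a) (hs : s ≤ t) : cvx a b t ≤ cvx a b s := by
  have h1 : (b : ℝ) ≤ a := h
  have h2 : (s : ℝ) ≤ t := hs
  show ((cvx a b t : I) : ℝ) ≤ (cvx a b s : I)
  have := cvx_sub a b s t
  have h3 : 0 ≤ ((t : ℝ) - s) * ((a : ℝ) - b) := mul_nonneg (by linarith) (by linarith)
  linarith

lemma cvx_le_iff (h : a < b) : cvx a b s ≤ cvx a b t ↔ s ≤ t := by
  refine ⟨fun k => ?_, cvx_mono h.le⟩
  by_contra hc
  rw [not_le] at hc
  have h1 : (a : ℝ) < b := h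
  have h2 : (t : ℝ) < s := hc
  have h3 : ((cvx a b s : I) : ℝ) ≤ (cvx a b t : I) := k
  have := cvx_sub a b s t
  have h4 : 0 < ((s : ℝ) - t) * ((b : ℝ) - a) := mul_pos (by linarith) (by linarith)
  linarith

lemma cvx_le_iff' (h : b < a) : cvx a b s ≤ cvx a b t ↔ t ≤ s := by
  refine ⟨fun k => ?_, cvx_anti h.le⟩
  by_contra hc
  rw [not_le] at hc
  have h1 : (b : ℝ) < a := h
  have h2 : (s : ℝ) < t := hc
  have h3 : ((cvx a b s : I) : ℝ) ≤ (cvx a b t : I) := k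
  have := cvx_sub a b s t
  have h4 : 0 < ((t : ℝ) - s) * ((a : ℝ) - b) := mul_pos (by linarith) (by linarith)
  linarith

lemma cvx_inj (h : a ≠ b) : cvx a b s = cvx a b t ↔ s = t := by
  refine ⟨fun k => ?_, fun k => by rw [k]⟩
  have h0 := cvx_sub a b s t
  rw [k, sub_self] at h0
  rcases mul_eq_zero.1 h0.symm with h1 | h1
  · exact Subtype.ext (by linarith)
  · exact absurd (Subtype.ext (by linarith)) h

lemma BtI.cvx (a b : I) (h : BtI s v t) : BtI (cvx a b s) (cvx a b v) (cvx a b t) := by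
  rcases le_total a b with h1 | h1
  · rcases h with ⟨k1, k2⟩ | ⟨k1, k2⟩
    · exact Or.inl ⟨cvx_mono h1 k1, cvx_mono h1 k2⟩
    · exact Or.inr ⟨cvx_mono h1 k1, cvx_mono h1 k2⟩
  · rcases h with ⟨k1, k2⟩ | ⟨k1, k2⟩
    · exact Or.inr ⟨cvx_anti h1 k2, cvx_anti h1 k1⟩
    · exact Or.inl ⟨cvx_anti h1 k2, cvx_anti h1 k1⟩

lemma btI_cvx_iff (h : a ≠ b) : BtI (cvx a b s) (cvx a b v) (cvx a b t) ↔ BtI s v t := by
  refine ⟨fun k => ?_, BtI.cvx a b⟩
  unfold BtI at k ⊢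
  rcases lt_or_gt_of_ne h with h1 | h1
  · simpa only [cvx_le_iff h1] using k
  · simp only [cvx_le_iff' h1] at k
    exact k.symm.imp And.symm And.symm

lemma btI_cvx (a b s : I) : BtI a (cvx a b s) b := by
  have := BtI.cvx a b (s := 0) (v := s) (t := 1) (Or.inl ⟨s.2.1, s.2.2⟩)
  rwa [cvx_zero, cvx_one] at this

/-- the relative time of `u` between `a` and `b` -/
noncomputable def rlt (a b u : I) : I := projIcc (0 : ℝ) 1 zero_le_one (((u : ℝ) - a) / (b - a))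

lemma cvx_rlt (h : BtI a u b) : cvx a b (rlt a b u) = u := by
  apply Subtype.ext
  rw [cvx_coe]
  by_cases hab : (b : ℝ) - a = 0
  · have e : (a : ℝ) = u := by
      rcases h with ⟨h1, h2⟩ | ⟨h1, h2⟩
      · have h1 : (a : ℝ) ≤ u := h1
        have h2 : (u : ℝ) ≤ b := h2
        linarith
      · have h1 : (b : ℝ) ≤ u := h1
        have h2 : (u : ℝ) ≤ a := h2
        linarith
    rw [show (b : ℝ) = a by linarith, e]
    ring
  · have hm : ((u : ℝ) - a) / (b - a) ∈ Icc (0 : ℝ) 1 := by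
      rcases h with ⟨h1, h2⟩ | ⟨h1, h2⟩
      · have h1 : (a : ℝ) ≤ u := h1
        have h2 : (u : ℝ) ≤ b := h2
        have h3 : 0 < (b : ℝ) - a := lt_of_le_of_ne (by linarith) (Ne.symm hab)
        exact ⟨div_nonneg (by linarith) h3.le, (div_le_one h3).2 (by linarith)⟩
      · have h1 : (b : ℝ) ≤ u := h1
        have h2 : (u : ℝ) ≤ a := h2
        have h3 : (b : ℝ) - a < 0 := lt_of_le_of_ne (by linarith) hab
        exact ⟨div_nonneg_of_nonpos (by linarith) h3.le, (div_le_one_of_neg h3).2 (by linarith)⟩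
    have e : ((rlt a b u : I) : ℝ) = ((u : ℝ) - a) / (b - a) := by
      unfold rlt
      rw [projIcc_of_mem zero_le_one hm]
    rw [e]
    field_simp
    ring

lemma rlt_cvx (h : a ≠ b) (s : I) : rlt a b (cvx a b s) = s := by
  rw [← cvx_inj h]
  exact cvx_rlt (btI_cvx a b s)

lemma exists_cvx : BtI a u b ↔ ∃ s, cvx a b s = u := by
  constructor
  · exact fun h => ⟨_, cvx_rlt h⟩
  · rintro ⟨s, rfl⟩
    exact btI_cvx a b s

lemma rlt_measurable : Measurable fun p : I × I × I => rlt p.1 p.2.1 p.2.2 := by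
  unfold rlt
  exact continuous_projIcc.measurable.comp (by fun_prop)

lemma rlt_meas {Z : Type*} [MeasurableSpace Z] {a b u : Z → I} (ha : Measurable a) (hb : Measurable b) (hu : Measurable u) :
    Measurable fun z => rlt (a z) (b z) (u z) := rlt_measurable.comp (ha.prodMk (hb.prodMk hu))

lemma cvx_cvx (a b c d s : I) : cvx a b (cvx c d s) = cvx (cvx a b c) (cvx a b d) s := by
  apply Subtype.ext
  simp only [cvx_coe]
  ring

/-- every time between two times of the piece is a time of the piece -/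
lemma all_cvx {p : I → Prop} : (∀ u, BtI (cvx a b s) u (cvx a b t) → p u) ↔ ∀ v, BtI s v t → p (cvx a b v) := by
  constructor
  · exact fun h v hv => h _ (hv.cvx a b)
  · intro h u hu
    obtain ⟨r, rfl⟩ := exists_cvx.1 hu
    rw [← cvx_cvx]
    exact h _ (btI_cvx s t r)

end times

/-! ### 2. The piece -/

section piece

variable (g : C(I, ℂ)) (L : ℝ) (a b s t u : I)

/-- the piece of a curve with its duration -/
lemma pcut_I : pcut (g, L) a b = (cutc g a b, L * |(b : ℝ) - a|) := by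
  unfold pcut
  rw [cutp_eq]

lemma pcut_I1 : (pcut (g, L) a b).1 = cutc g a b := by rw [pcut_I]

lemma pcut_I2 : (pcut (g, L) a b).2 = L * |(b : ℝ) - a| := rfl

lemma pcut_I' (p : Pie) : pcut p a b = (cutc p.1 a b, p.2 * |(b : ℝ) - a|) := pcut_I p.1 p.2 a b

/-- **a piece of the piece** -/
theorem pcut_cvx (p : Pie) : pcut p (cvx a b s : I) (cvx a b t : I) = pcut (pcut p a b) s t := by
  rw [pcut_I', pcut_I', pcut_I', cutc_cutc]
  refine Prod.ext rfl ?_
  show p.2 * |((cvx a b t : I) : ℝ) - (cvx a b s : I)| = p.2 * |(b : ℝ) - a| * |(t : ℝ) - s|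
  rw [cvx_sub, abs_mul]
  ring

lemma pcut_full (p : Pie) (h0 : p.1 0 = 0) : pcut p (0 : I) (1 : I) = p := by
  rw [pcut_I']
  refine Prod.ext ?_ ?_
  · ext s
    show cutc p.1 0 1 s = p.1 s
    rw [cutc_apply, h0, sub_zero]
    congr 1
    apply Subtype.ext
    rw [cvx_coe]
    simp
  · simp

lemma cutc_ap0 : cutc g a b s = g (cvx a b s) - g a := rfl

lemma cutc_dif : cutc g a b t - cutc g a b s = g (cvx a b t) - g (cvx a b s) := by
  rw [cutc_apply, cutc_apply]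
  ring

end piece

/-! ### 3. The statistics of the piece -/

section stat

variable {d d' t' : ℂ} {P Q : Tp} {W : Wn} {E : En} {O : Ot} {S S' : Sr} {g : C(I, ℂ)} {L : ℝ} {a b s t u : I}

lemma duU_cvx (la : ℝ) : duU la L (cvx a b s) (cvx a b t) = duU la (pcut (g, L) a b).2 s t := by
  unfold duU
  rw [cvx_dur, pcut_I2]

lemma duL_cvx (t0 : ℝ) : duL t0 L (cvx a b s) (cvx a b t) = duL t0 (pcut (g, L) a b).2 s t := by
  unfold duL
  rw [cvx_dur, pcut_I2]

lemma cutc_cvx : cutc g (cvx a b s) (cvx a b t) = cutc (pcut (g, L) a b).1 s t := by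
  rw [pcut_I1, cutc_cutc]

lemma preF_cvx : preF d P g L (cvx a b s) (cvx a b t) (cvx a b u) = preF d P (pcut (g, L) a b).1 (pcut (g, L) a b).2 s t u := by
  unfold preF
  rw [cutc_cvx (L := L), cutc_cvx (L := L), duU_cvx (g := g), duU_cvx (g := g)]

lemma wdF_cvx (w cs κs : ℝ) : wdF d d' w cs κs g (cvx a b s) (cvx a b t) = wdF d d' w cs κs (pcut (g, L) a b).1 s t := by
  unfold wdF
  rw [cutc_cvx (L := L)]

lemma rsF_cvx : rsF d d' P Q W g L (cvx a b s) (cvx a b t) = rsF d d' P Q W (pcut (g, L) a b).1 (pcut (g, L) a b).2 s t := by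
  unfold rsF
  rw [cutc_cvx (L := L), cutc_cvx (L := L), duU_cvx (g := g), duL_cvx (g := g)]

lemma nrF_cvx : nrF d S g (cvx a b s) (cvx a b t) = nrF d S (pcut (g, L) a b).1 s t := by
  unfold nrF
  rw [cutc_cvx (L := L)]

lemma mnF_cvx : mnF d d' P Q W S S' g L (cvx a b s) (cvx a b t) =
    mnF d d' P Q W S S' (pcut (g, L) a b).1 (pcut (g, L) a b).2 s t := by
  unfold mnF
  rw [rsF_cvx, nrF_cvx (L := L), nrF_cvx (L := L)]

lemma kcF_cvx : kcF d t' E g L (cvx a b s) (cvx a b t) (cvx a b u) =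
    kcF d t' E (pcut (g, L) a b).1 (pcut (g, L) a b).2 s t u := by
  unfold kcF
  rw [cutc_cvx (L := L), cutc_cvx (L := L), cutc_cvx (L := L), duU_cvx (g := g)]

lemma otF_cvx : otF d O g L (cvx a b s) (cvx a b t) = otF d O (pcut (g, L) a b).1 (pcut (g, L) a b).2 s t := by
  unfold otF
  rw [cutc_cvx (L := L), duU_cvx (g := g)]

lemma preK_cvx : preK d P g (cvx a b s) (cvx a b t) (cvx a b u) = preK d P (pcut (g, L) a b).1 s t u := by
  unfold preK
  rw [cutc_cvx (L := L), cutc_cvx (L := L)]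

lemma reK_cvx (rg : ℝ) : reK d rg g (cvx a b s) (cvx a b t) = reK d rg (pcut (g, L) a b).1 s t := by
  unfold reK
  rw [cutc_cvx (L := L)]

lemma riK_cvx : riK d g (cvx a b s) (cvx a b t) = riK d (pcut (g, L) a b).1 s t := by
  unfold riK
  rw [cutc_cvx (L := L)]

lemma balF_cvx (r r2 : ℝ) : balF r r2 g (cvx a b s) (cvx a b t) (cvx a b u) = balF r r2 (pcut (g, L) a b).1 s t u := by
  unfold balF
  rw [cutc_cvx (L := L), cutc_cvx (L := L)]

lemma lv_cvx : lv d (g (cvx a b t)) - lv d (g (cvx a b s)) = lv d ((pcut (g, L) a b).1 t) - lv d ((pcut (g, L) a b).1 s) := by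
  rw [pcut_I1, ← lv_sub, ← lv_sub, cutc_dif]

lemma lvd_cvx : lv d (g (cvx a b t) - g (cvx a b s)) = lv d ((pcut (g, L) a b).1 t - (pcut (g, L) a b).1 s) := by
  rw [pcut_I1, cutc_dif]

lemma dif_cvx : g (cvx a b t) - g (cvx a b s) = (pcut (g, L) a b).1 t - (pcut (g, L) a b).1 s := by
  rw [pcut_I1, cutc_dif]

lemma lvle_cvx : lv d (g (cvx a b s)) ≤ lv d (g (cvx a b t)) ↔
    lv d ((pcut (g, L) a b).1 s) ≤ lv d ((pcut (g, L) a b).1 t) := by
  have := lv_cvx (d := d) (g := g) (L := L) (a := a) (b := b) (s := s) (t := t)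
  constructor <;> intro h <;> linarith

theorem gtI_cvx : GtI d P g (cvx a b s) (cvx a b t) (cvx a b u) ↔ GtI d P (pcut (g, L) a b).1 s t u := by
  have e1 : (∀ v, BtI (cvx a b s) v (cvx a b t) → ‖g v - g (cvx a b s)‖ ≤ P.r) ↔
      ∀ v, BtI s v t → ‖(pcut (g, L) a b).1 v - (pcut (g, L) a b).1 s‖ ≤ P.r := by
    rw [all_cvx]
    simp only [dif_cvx (L := L)]
  have e2 : (∀ v, BtI (cvx a b t) v (cvx a b u) → ‖g v - g (cvx a b t)‖ ≤ P.r2) ↔
      ∀ v, BtI t v u → ‖(pcut (g, L) a b).1 v - (pcut (g, L) a b).1 t‖ ≤ P.r2 := by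
    rw [all_cvx]
    simp only [dif_cvx (L := L)]
  have e3 : (∀ v, BtI (cvx a b t) v (cvx a b u) → lv d (g (cvx a b t)) ≤ lv d (g v)) ↔
      ∀ v, BtI t v u → lv d ((pcut (g, L) a b).1 t) ≤ lv d ((pcut (g, L) a b).1 v) := by
    rw [all_cvx]
    simp only [lvle_cvx (L := L)]
  have e4 : (∀ v, BtI (cvx a b s) v (cvx a b t) → lv d (g v) ≤ lv d (g (cvx a b t))) ↔
      ∀ v, BtI s v t → lv d ((pcut (g, L) a b).1 v) ≤ lv d ((pcut (g, L) a b).1 t) := by
    rw [all_cvx]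
    simp only [lvle_cvx (L := L)]
  have e5 : (∀ v, BtI (cvx a b t) v (cvx a b u) → lv d (g v) ≤ lv d (g (cvx a b u))) ↔
      ∀ v, BtI t v u → lv d ((pcut (g, L) a b).1 v) ≤ lv d ((pcut (g, L) a b).1 u) := by
    rw [all_cvx]
    simp only [lvle_cvx (L := L)]
  constructor
  · intro h
    exact ⟨e1.1 h.b1, e2.1 h.b2, by rw [← lvd_cvx]; exact h.l, by rw [← lvd_cvx]; exact h.m, e3.1 h.r, e4.1 h.t1, e5.1 h.t2⟩
  · intro h
    exact ⟨e1.2 h.b1, e2.2 h.b2, by rw [lvd_cvx (L := L)]; exact h.l, by rw [lvd_cvx (L := L)]; exact h.m, e3.2 h.r,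
      e4.2 h.t1, e5.2 h.t2⟩

theorem fgI_cvx : FgI d P g (cvx a b s) (cvx a b t) (cvx a b u) ↔ FgI d P (pcut (g, L) a b).1 s t u := by
  have e3 : (∀ v, BtI (cvx a b t) v (cvx a b u) → lv d (g (cvx a b t)) ≤ lv d (g v)) ↔
      ∀ v, BtI t v u → lv d ((pcut (g, L) a b).1 t) ≤ lv d ((pcut (g, L) a b).1 v) := by
    rw [all_cvx]
    simp only [lvle_cvx (L := L)]
  have e4 : (∀ v, BtI (cvx a b s) v (cvx a b t) → lv d (g v) ≤ lv d (g (cvx a b t))) ↔
      ∀ v, BtI s v t → lv d ((pcut (g, L) a b).1 v) ≤ lv d ((pcut (g, L) a b).1 t) := by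
    rw [all_cvx]
    simp only [lvle_cvx (L := L)]
  have e5 : (∀ v, BtI (cvx a b t) v (cvx a b u) → lv d (g v) ≤ lv d (g (cvx a b u))) ↔
      ∀ v, BtI t v u → lv d ((pcut (g, L) a b).1 v) ≤ lv d ((pcut (g, L) a b).1 u) := by
    rw [all_cvx]
    simp only [lvle_cvx (L := L)]
  constructor
  · intro h
    exact ⟨by rw [← lvd_cvx]; exact h.l, by rw [← lvd_cvx]; exact h.m, e4.1 h.t1, e3.1 h.r, e5.1 h.t2⟩
  · intro h
    exact ⟨by rw [lvd_cvx (L := L)]; exact h.l, by rw [lvd_cvx (L := L)]; exact h.m, e4.2 h.t1, e3.2 h.r, e5.2 h.t2⟩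

theorem rtI_cvx {ρ : ℝ} : RtI d ρ g (cvx a b s) (cvx a b t) ↔ RtI d ρ (pcut (g, L) a b).1 s t := by
  unfold RtI
  rw [all_cvx]
  simp only [dif_cvx (L := L)]

theorem rgI_cvx : RgI d g (cvx a b s) (cvx a b t) ↔ RgI d (pcut (g, L) a b).1 s t := by
  unfold RgI
  rw [all_cvx]
  simp only [dif_cvx (L := L)]

theorem frK_cvx : FrK d t' E g L (cvx a b s) (cvx a b t) (cvx a b u) ↔
    FrK d t' E (pcut (g, L) a b).1 (pcut (g, L) a b).2 s t u := by
  constructor
  · intro h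
    exact ⟨fgI_cvx.1 h.f, by rw [← riK_cvx]; exact h.r, by rw [← kcF_cvx]; exact h.k⟩
  · intro h
    exact ⟨fgI_cvx.2 h.f, by rw [riK_cvx (L := L)]; exact h.r, by rw [kcF_cvx]; exact h.k⟩

end stat

end Pool.Agent.ROT.F3
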