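import Pool.Agent.ROT.F3JmD
import Pool.Agent.ROT.F3JmR
import Pool.Agent.ROT.F3CoreJ
import Pool.Agent.ROT.F3Ins

/-!
# ROT, F3, row JmB (helper41, helper81): the connections carry the native marks (`h3`, `h4` of `Jm`)

* `sgA`, `leA` : the reading direction of an arm; `Ga.Un` : the times of the gates are in their arms;
* `conA` : the strand of an arm up to `x~`, in two pieces; **`kap8_conA`** : the connections of a closed curve;
* **`arm_loc`** : two curves with the same strand up to `x~` and native gates at the same durations have the same conditions `NgS` and the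
  same pieces;
* `ConIn` : a countable family of classes (functional class and all levels) with locality of the native gates (`LocB`);
* **`con_marks`** : one measurable set and one measurable map of connections for all the classes (`h3`, `h4`).
-/

set_option autoImplicit false

noncomputable section

namespace Pool.Agent.ROT.F3.CK

open MeasureTheory Set unitInterval

open scoped ENNReal Classical

open Pool.Agent.ROT.F3 Pool.Agent.ROT.F3.CC Pool.Agent.ROT.F3.LF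

/-! ### 1. Arms and times -/

/-- sign of the reading direction -/
def sgA (k : Arm) : ℝ :=
  match k with
  | .fp => 1
  | .bq => -1
  | .fq => 1
  | .bp => -1

lemma leA_sg {k : Arm} {a b : I} : leA k a b ↔ sgA k * a ≤ sgA k * b := by
  cases k
  · show a ≤ b ↔ (1 : ℝ) * a ≤ 1 * b
    rw [one_mul, one_mul]
    rfl
  · show b ≤ a ↔ (-1 : ℝ) * a ≤ -1 * b
    rw [neg_one_mul, neg_one_mul, neg_le_neg_iff]
    rfl
  · show a ≤ b ↔ (1 : ℝ) * a ≤ 1 * b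
    rw [one_mul, one_mul]
    rfl
  · show b ≤ a ↔ (-1 : ℝ) * a ≤ -1 * b
    rw [neg_one_mul, neg_one_mul, neg_le_neg_iff]
    rfl

lemma sgA_sq (k : Arm) : sgA k * sgA k = 1 := by
  cases k <;> norm_num [sgA]

lemma sgA_ne (k : Arm) : sgA k ≠ 0 := by
  cases k <;> norm_num [sgA]

lemma sgA_abs (k : Arm) : |sgA k| = 1 := by
  cases k <;> norm_num [sgA]

lemma leA.trans {k : Arm} {a b c : I} (h : leA k a b) (h' : leA k b c) : leA k a c := by
  rw [leA_sg] at *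
  exact h.trans h'

lemma leA.bt {k : Arm} {a b c : I} (h : leA k a b) (h' : leA k b c) : BtI a b c := by
  cases k
  · exact Or.inl ⟨h, h'⟩
  · exact Or.inr ⟨h', h⟩
  · exact Or.inl ⟨h, h'⟩
  · exact Or.inr ⟨h', h⟩

lemma leA.anti {k : Arm} {a b : I} (h : leA k a b) (h' : leA k b a) : a = b := by
  cases k
  · exact le_antisymm h h'
  · exact le_antisymm h' h
  · exact le_antisymm h h'
  · exact le_antisymm h' h

/-- the distance in time -/
lemma leA.abs {k : Arm} {a b : I} (h : leA k a b) : |(b : ℝ) - a| = sgA k * (b - a) := by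
  rw [leA_sg] at h
  have h1 : |sgA k * ((b : ℝ) - a)| = sgA k * (b - a) := abs_of_nonneg (by linarith)
  rw [← h1, abs_mul, sgA_abs, one_mul]

lemma pji_mem {t : ℝ} (h : t ∈ Icc (0 : ℝ) 1) : ((pji t : I) : ℝ) = t := by
  unfold pji
  rw [projIcc_of_mem zero_le_one h]

lemma pji_mono {s t : ℝ} (h : s ≤ t) : pji s ≤ pji t := monotone_projIcc _ h

lemma muG_01 (g : CC.Gm) : muG g ∈ Icc (0 : ℝ) 1 := ⟨le_max_left _ _, max_le zero_le_one (min_le_left _ _)⟩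

lemma muG_rot (z : ℂ) (g : CC.Gm) : muG (rotX z g) = muG g := rfl

lemma tAt_mem {k : Arm} {g : CC.Gm} {s : ℝ} (h : s ∈ Icc (0 : ℝ) 1) : tAt k g s ∈ Icc (0 : ℝ) 1 := by
  obtain ⟨m0, m1⟩ := muG_01 g
  obtain ⟨h0, h1⟩ := h
  have a1 : 0 ≤ s * muG g := mul_nonneg h0 m0
  have a2 : s * muG g ≤ muG g := mul_le_of_le_one_left m0 h1
  have a3 : 0 ≤ s * (1 - muG g) := mul_nonneg h0 (by linarith)
  have a4 : s * (1 - muG g) ≤ 1 - muG g := mul_le_of_le_one_left (by linarith) h1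
  cases k
  · exact ⟨a1, a2.trans m1⟩
  · show muG g - s * muG g ∈ Icc (0 : ℝ) 1
    exact ⟨by linarith, by linarith⟩
  · show muG g + s * (1 - muG g) ∈ Icc (0 : ℝ) 1
    exact ⟨by linarith, by linarith⟩
  · show 1 - s * (1 - muG g) ∈ Icc (0 : ℝ) 1
    exact ⟨by linarith, by linarith⟩

lemma tAt_le {k : Arm} {g : CC.Gm} {s t : ℝ} (h : s ≤ t) : leA k (pji (tAt k g s)) (pji (tAt k g t)) := by
  obtain ⟨m0, m1⟩ := muG_01 g
  have a1 : s * muG g ≤ t * muG g := mul_le_mul_of_nonneg_right h m0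
  have a2 : s * (1 - muG g) ≤ t * (1 - muG g) := mul_le_mul_of_nonneg_right h (by linarith)
  cases k
  · exact pji_mono a1
  · exact pji_mono (show muG g - t * muG g ≤ muG g - s * muG g by linarith)
  · exact pji_mono (show muG g + s * (1 - muG g) ≤ muG g + t * (1 - muG g) by linarith)
  · exact pji_mono (show 1 - t * (1 - muG g) ≤ 1 - s * (1 - muG g) by linarith)

lemma rtA_eq (k : Arm) (g : CC.Gm) : rtA k g = pji (tAt k g 0) := by
  cases k
  · show (0 : I) = pji (0 * muG g)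
    rw [zero_mul]
    exact (pji_coe 0).symm
  · show pji (muG g) = pji (muG g - 0 * muG g)
    rw [zero_mul, sub_zero]
  · show pji (muG g) = pji (muG g + 0 * (1 - muG g))
    rw [zero_mul, add_zero]
  · show (1 : I) = pji (1 - 0 * (1 - muG g))
    rw [zero_mul, sub_zero]
    exact (pji_coe 1).symm

/-- **the times of the gates are in their arms** -/
structure Ga.Un (G : Ga) (g : CC.Gm) : Prop where
  h : ∀ k, g ∈ G.B k → 0 ≤ G.c k g ∧ G.c k g ≤ G.x k g ∧ G.x k g ≤ 1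

section un

variable {G : Ga} {g : CC.Gm} {k : Arm}

lemma Ga.Un.ic (h : G.Un g) (hk : g ∈ G.B k) : ((G.ic k g : I) : ℝ) = G.tc k g :=
  pji_mem (tAt_mem ⟨(h.h k hk).1, (h.h k hk).2.1.trans (h.h k hk).2.2⟩)

lemma Ga.Un.ix (h : G.Un g) (hk : g ∈ G.B k) : ((G.ix k g : I) : ℝ) = G.tx k g :=
  pji_mem (tAt_mem ⟨(h.h k hk).1.trans (h.h k hk).2.1, (h.h k hk).2.2⟩)

lemma Ga.Un.o1 (h : G.Un g) (hk : g ∈ G.B k) : leA k (rtA k g) (G.ic k g) := by
  rw [rtA_eq]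
  exact tAt_le (h.h k hk).1

lemma Ga.Un.o2 (h : G.Un g) (hk : g ∈ G.B k) : leA k (G.ic k g) (G.ix k g) := tAt_le (h.h k hk).2.1

lemma Ga.Un.rot {z : ℂ} (h : G.Un (rotX z⁻¹ g)) : (G.rot z).Un g := ⟨fun k hk => h.h k hk⟩

lemma rot_t8 (z : ℂ) : (G.rot z).t8 g = G.t8 (rotX z⁻¹ g) := rfl

/-- the marks of the turned curve -/
lemma phi8_rot {z : ℂ} (h : ∀ k, g ∈ (G.rot z).B k) (j : Fin 8) : phi8 G.B G.c G.x (rotX z⁻¹ g) j = (G.rot z).t8 g j := by
  have h1 : rotX z⁻¹ g ∈ ⋂ k, G.B k := mem_iInter.2 fun k => h k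
  rw [phi8_t8, bi_pos h1, one_mul]
  rfl

end un

/-! ### 2. The strand of an arm -/

/-- the strand of the arm up to `x~`, in two pieces -/
def conA (G : Ga) (k : Arm) (g : CC.Gm) : Pie × Pie := con g (rtA k g) (G.ic k g) (G.ix k g)

/-- **the connections of a closed curve** -/
theorem kap8_conA {G : Ga} {g : CC.Gm} {S : Fin 8 → ℝ} (hg : 0 < g.2.1) (hg' : g.2.1 < g.1) (hu : G.Un g) (hB : ∀ k, g ∈ G.B k)
    (hS : ∀ j, S j = G.t8 g j) : kap8 g S = ((conA G .fp g, conA G .bp g), (conA G .bq g, conA G .fq g)) := by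
  have hL : 0 < g.1 := hg.trans hg'
  have hm : mu g = muG g := by
    unfold muG mu
    rw [min_eq_right ((div_le_one hL).2 hg'.le), max_eq_right (div_nonneg hg.le hL.le)]
  have hr : ((pji (muG g) : I) : ℝ) = mu g := by
    rw [pji_mem (muG_01 g), hm]
  have e0 : S 0 = (G.ic .fp g : I) := (hS 0).trans (hu.ic (hB .fp)).symm
  have e1 : S 1 = (G.ix .fp g : I) := (hS 1).trans (hu.ix (hB .fp)).symm
  have e2 : S 2 = (G.ix .bq g : I) := (hS 2).trans (hu.ix (hB .bq)).symm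
  have e3 : S 3 = (G.ic .bq g : I) := (hS 3).trans (hu.ic (hB .bq)).symm
  have e4 : S 4 = (G.ic .fq g : I) := (hS 4).trans (hu.ic (hB .fq)).symm
  have e5 : S 5 = (G.ix .fq g : I) := (hS 5).trans (hu.ix (hB .fq)).symm
  have e6 : S 6 = (G.ix .bp g : I) := (hS 6).trans (hu.ix (hB .bp)).symm
  have e7 : S 7 = (G.ic .bp g : I) := (hS 7).trans (hu.ic (hB .bp)).symm
  show ((con g 0 (S 0) (S 1), con g 1 (S 7) (S 6)), (con g (mu g) (S 3) (S 2), con g (mu g) (S 4) (S 5))) = _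
  rw [e0, e1, e2, e3, e4, e5, e6, e7, ← hr]
  rfl

/-- order of the gates of one arm; the first gate is not at the root -/
structure OrA (G : Ga) (k : Arm) (g : CC.Gm) : Prop where
  e : g ∈ G.B k
  o1 : leA k (rtA k g) (G.ic k g)
  o2 : leA k (G.ic k g) (G.ix k g)
  ne : rtA k g ≠ G.ic k g

section

variable {G G' G0 : Ga} {k : Arm} {g g' : CC.Gm}

lemma OrA.nx (h : OrA G k g) : rtA k g ≠ G.ix k g := fun he => h.ne (h.o1.anti (by rw [he]; exact h.o2))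

/-- the duration of the strand from the root -/
def duRt (k : Arm) (g : CC.Gm) (a : I) : ℝ := g.1 * |(a : ℝ) - rtA k g|

/-- **equal strands** -/
theorem conA_inj (hL : 0 < g.1) (hL' : 0 < g'.1) (h : OrA G k g) (h' : OrA G' k g') (he : conA G k g = conA G' k g') :
    pcut (cl g) (rtA k g) (G.ix k g) = pcut (cl g') (rtA k g') (G'.ix k g') ∧ duRt k g (G.ic k g) = duRt k g' (G'.ic k g') ∧
      duRt k g (G.ix k g) = duRt k g' (G'.ix k g') := by
  have key : ∀ {G : Ga} {g : CC.Gm}, OrA G k g → ((G.ic k g : I) : ℝ) ∈ uIcc ((rtA k g : I) : ℝ) (G.ix k g : I) := by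
    intro G g h
    rcases h.o1.bt h.o2 with ⟨a, b⟩ | ⟨a, b⟩
    · have hab := a.trans b
      have a' : ((rtA k g : I) : ℝ) ≤ (G.ic k g : I) := a
      have b' : ((G.ic k g : I) : ℝ) ≤ (G.ix k g : I) := b
      rw [uIcc_of_le (a'.trans b')]
      exact ⟨a', b'⟩
    · have a' : ((G.ix k g : I) : ℝ) ≤ (G.ic k g : I) := a
      have b' : ((G.ic k g : I) : ℝ) ≤ (rtA k g : I) := b
      rw [uIcc_of_ge (a'.trans b')]
      exact ⟨a', b'⟩
  have hne : ((G.ix k g : I) : ℝ) ≠ (rtA k g : I) := fun hc => h.nx (Subtype.ext hc).symm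
  have hne' : ((G'.ix k g' : I) : ℝ) ≠ (rtA k g' : I) := fun hc => h'.nx (Subtype.ext hc).symm
  have e1 := con_inj hL hL' hne hne' (key h) (key h') he
  refine ⟨e1, ?_, ?_⟩
  · have e2 : pcut (cl g) (rtA k g) (G.ic k g) = pcut (cl g') (rtA k g') (G'.ic k g') := congrArg Prod.fst he
    exact congrArg Prod.snd e2
  · exact congrArg Prod.snd e1

/-- **relative times** -/
theorem rlt_dur {r x a r' x' a' : I} {L L' : ℝ} (hL : 0 < L) (hL' : 0 < L') (hx : r ≠ x) (hx' : r' ≠ x') (h1 : leA k r a)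
    (h2 : leA k a x) (h1' : leA k r' a') (h2' : leA k r' x') (ea : L * |(a : ℝ) - r| = L' * |(a' : ℝ) - r'|)
    (ex : L * |(x : ℝ) - r| = L' * |(x' : ℝ) - r'|) : leA k a' x' ∧ rlt r x a = rlt r' x' a' := by
  have hrx := h1.trans h2
  rw [h1.abs, h1'.abs] at ea
  rw [hrx.abs, h2'.abs] at ex
  have hne : (x : ℝ) - r ≠ 0 := fun hc => hx (Subtype.ext (by linarith))
  have hne' : (x' : ℝ) - r' ≠ 0 := fun hc => hx' (Subtype.ext (by linarith))
  have hs := sgA_ne k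
  constructor
  · rw [leA_sg] at h2 ⊢
    have h3 : L * (sgA k * ((a : ℝ) - r)) ≤ L * (sgA k * (x - r)) := mul_le_mul_of_nonneg_left (by linarith) hL.le
    rw [ea, ex] at h3
    have h4 := le_of_mul_le_mul_left h3 hL'
    linarith
  · unfold rlt
    congr 1
    have e1 : ((a : ℝ) - r) / (x - r) = (L * (sgA k * (a - r))) / (L * (sgA k * (x - r))) := by
      field_simp
    have e2 : ((a' : ℝ) - r') / (x' - r') = (L' * (sgA k * (a' - r'))) / (L' * (sgA k * (x' - r'))) := by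
      field_simp
    rw [e1, e2, ea, ex]

/-! ### 3. One arm -/

/-- the conditions `NgS` as conditions on the strand `R` with the relative times `a`, `b`, `c` -/
structure NgR (d t : ℂ) (E : En) (R : Pie) (a b c : I) : Prop where
  pf : preF d E.n R.1 R.2 0 a b ≤ 0
  pk : preK d E.n R.1 0 a b ≤ 0
  ri : riK d R.1 b 1 ≤ 0
  kc : kcF d t E R.1 R.2 b c 1 ≤ 0

lemma ngR_iff {d t : ℂ} {E : En} {r x a b c : I} : NgR d t E (pcut (cl g) r x) a b c ↔
    preF d E.n g.2.2 g.1 r (cvx r x a) (cvx r x b) ≤ 0 ∧ preK d E.n g.2.2 r (cvx r x a) (cvx r x b) ≤ 0 ∧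
      riK d g.2.2 (cvx r x b) x ≤ 0 ∧ kcF d t E g.2.2 g.1 (cvx r x b) (cvx r x c) x ≤ 0 := by
  have e1 := preF_cvx (d := d) (P := E.n) (g := g.2.2) (L := g.1) (a := r) (b := x) (s := 0) (t := a) (u := b)
  have e2 := preK_cvx (d := d) (P := E.n) (g := g.2.2) (L := g.1) (a := r) (b := x) (s := 0) (t := a) (u := b)
  have e3 := riK_cvx (d := d) (g := g.2.2) (L := g.1) (a := r) (b := x) (s := b) (t := 1)
  have e4 := kcF_cvx (d := d) (t' := t) (E := E) (g := g.2.2) (L := g.1) (a := r) (b := x) (s := b) (t := c) (u := 1)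
  rw [cvx_zero] at e1 e2
  rw [cvx_one] at e3 e4
  rw [e1, e2, e3, e4]
  exact ⟨fun h => ⟨h.pf, h.pk, h.ri, h.kc⟩, fun h => ⟨h.1, h.2.1, h.2.2.1, h.2.2.2⟩⟩

/-- **transfer of the conditions of one arm** : equal strands up to `x~`, native gates at the same durations -/
theorem arm_loc {P : Prm} {i j : Fin 3} (hL : 0 < g.1) (hL' : 0 < g'.1) (h : OrA G k g) (h' : OrA G' k g')
    (he : pcut (cl g) (rtA k g) (G.ix k g) = pcut (cl g') (rtA k g') (G'.ix k g'))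
    (hc : duRt k g (G.ic k g) = duRt k g' (G'.ic k g')) (N : NgS P i j G0 G k g) (B' : g' ∈ G0.B k)
    (p1 : leA k (rtA k g') (G0.ic k g')) (p2 : leA k (G0.ic k g') (G0.ix k g'))
    (dc : duRt k g (G0.ic k g) = duRt k g' (G0.ic k g')) (dx : duRt k g (G0.ix k g) = duRt k g' (G0.ix k g')) :
    NgS P i j G0 G' k g' ∧
    (∀ (d : ℂ) (E : Tp), wdF d (dirA i j k) E.w E.cs E.κs g.2.2 (rtA k g) (G0.ic k g) =
      wdF d (dirA i j k) E.w E.cs E.κs g'.2.2 (rtA k g') (G0.ic k g')) ∧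
    pcut (cl g) (G0.ix k g) (G.ix k g) = pcut (cl g') (G0.ix k g') (G'.ix k g') := by
  have ex : duRt k g (G.ix k g) = duRt k g' (G'.ix k g') := congrArg Prod.snd he
  have r1 := N.o1
  have r2 := N.o2
  have r3 := N.o3
  have r4 := N.o4
  have x1 : leA k (G0.ix k g) (G.ix k g) := r3.trans r4
  have c1 : leA k (G0.ic k g) (G.ix k g) := r2.trans x1
  have q2 : leA k (rtA k g') (G'.ix k g') := h'.o1.trans h'.o2
  obtain ⟨s1, t1⟩ := rlt_dur hL hL' h.nx h'.nx r1 c1 p1 q2 dc ex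
  obtain ⟨s2, t2⟩ := rlt_dur hL hL' h.nx h'.nx (r1.trans r2) x1 (p1.trans p2) q2 dx ex
  obtain ⟨s3, t3⟩ := rlt_dur hL hL' h.nx h'.nx h.o1 h.o2 h'.o1 q2 hc ex
  -- times of the strand
  obtain ⟨a, ha⟩ : ∃ a, a = rlt (rtA k g) (G.ix k g) (G0.ic k g) := ⟨_, rfl⟩
  obtain ⟨b, hb⟩ : ∃ b, b = rlt (rtA k g) (G.ix k g) (G0.ix k g) := ⟨_, rfl⟩
  obtain ⟨c, hcc⟩ : ∃ c, c = rlt (rtA k g) (G.ix k g) (G.ic k g) := ⟨_, rfl⟩
  have ea : cvx (rtA k g) (G.ix k g) a = G0.ic k g := by rw [ha]; exact cvx_rlt (r1.bt c1)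
  have eb : cvx (rtA k g) (G.ix k g) b = G0.ix k g := by rw [hb]; exact cvx_rlt ((r1.trans r2).bt x1)
  have ec : cvx (rtA k g) (G.ix k g) c = G.ic k g := by rw [hcc]; exact cvx_rlt (h.o1.bt h.o2)
  have ea' : cvx (rtA k g') (G'.ix k g') a = G0.ic k g' := by rw [ha, t1]; exact cvx_rlt (p1.bt s1)
  have eb' : cvx (rtA k g') (G'.ix k g') b = G0.ix k g' := by rw [hb, t2]; exact cvx_rlt ((p1.trans p2).bt s2)
  have ec' : cvx (rtA k g') (G'.ix k g') c = G'.ic k g' := by rw [hcc, t3]; exact cvx_rlt (h'.o1.bt h'.o2)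
  -- the statistics
  have hR : NgR (dirA i j k) (P.u * dirA i j k) (endA P k) (pcut (cl g) (rtA k g) (G.ix k g)) a b c := by
    rw [ngR_iff, ea, eb, ec]
    exact ⟨N.pf, N.pk, N.ri, N.kc⟩
  rw [he, ngR_iff, ea', eb', ec'] at hR
  obtain ⟨j1, j2, j3, j4⟩ := hR
  -- order of the native and the foreign gates
  have o3' : leA k (G0.ix k g') (G'.ic k g') := by
    have hd : g'.1 * |((G0.ix k g' : I) : ℝ) - rtA k g'| ≤ g'.1 * |((G'.ic k g' : I) : ℝ) - rtA k g'| := by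
      have e1 : g.1 * |((G0.ix k g : I) : ℝ) - rtA k g| ≤ g.1 * |((G.ic k g : I) : ℝ) - rtA k g| := by
        refine mul_le_mul_of_nonneg_left ?_ hL.le
        rw [(r1.trans r2).abs, h.o1.abs]
        rw [leA_sg] at r3
        linarith
      have e2 : g.1 * |((G0.ix k g : I) : ℝ) - rtA k g| = g'.1 * |((G0.ix k g' : I) : ℝ) - rtA k g'| := dx
      have e3 : g.1 * |((G.ic k g : I) : ℝ) - rtA k g| = g'.1 * |((G'.ic k g' : I) : ℝ) - rtA k g'| := hc
      rw [← e2, ← e3]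
      exact e1
    have hd' := le_of_mul_le_mul_left hd hL'
    rw [(p1.trans p2).abs, h'.o1.abs] at hd'
    rw [leA_sg]
    linarith
  refine ⟨⟨B', p1, p2, o3', h'.o2, j1, j2, j3, j4⟩, fun d E => ?_, ?_⟩
  · have w1 := wdF_cvx (d := d) (d' := dirA i j k) (g := g.2.2) (L := g.1) (a := rtA k g) (b := G.ix k g) (s := 0) (t := a)
      E.w E.cs E.κs
    have w2 := wdF_cvx (d := d) (d' := dirA i j k) (g := g'.2.2) (L := g'.1) (a := rtA k g') (b := G'.ix k g') (s := 0) (t := a)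
      E.w E.cs E.κs
    rw [cvx_zero, ea] at w1
    rw [cvx_zero, ea'] at w2
    rw [w1, w2]
    exact congrArg (fun R : Pie => wdF d (dirA i j k) E.w E.cs E.κs R.1 0 a) he
  · have w1 := pcut_cvx (a := rtA k g) (b := G.ix k g) (s := b) (t := 1) (cl g)
    have w2 := pcut_cvx (a := rtA k g') (b := G'.ix k g') (s := b) (t := 1) (cl g')
    rw [eb, cvx_one] at w1
    rw [eb', cvx_one] at w2
    rw [w1, w2, he]

end

/-! ### 4. The family of classes -/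

/-- **locality of the native gates of an arm** (helper28, K7): `GR` = gates of the rotated lattice at the levels of the class -/
def LocB (P : Prm) (i j : Fin 3) (G0 : Ga) {ι : Type*} (H : ι → Ga) (w : ι → CC.Gm → ℝ≥0∞) (Gd : ι → Set CC.Gm) (k : Arm) : Prop :=
  ∀ n n', ∀ g ∈ Gd n, ∀ g' ∈ Gd n', w n g ≠ 0 → w n' g' ≠ 0 →
    pcut (cl g) (rtA k g) (((H n).rot P.u).ix k g) = pcut (cl g') (rtA k g') (((H n').rot P.u).ix k g') →
    duRt k g (((H n).rot P.u).ic k g) = duRt k g' (((H n').rot P.u).ic k g') → NgS P i j G0 ((H n).rot P.u) k g →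
    g' ∈ G0.B k ∧ duRt k g (G0.ic k g) = duRt k g' (G0.ic k g') ∧ duRt k g (G0.ix k g) = duRt k g' (G0.ix k g')

/-- **a countable family of classes of the rotated lattice on the curves of the lattice 0** -/
structure ConIn (P : Prm) (i j : Fin 3) {ι : Type*} (μ : Measure CC.Gm) (G0 : Ga) (H : ι → Ga) (w : ι → CC.Gm → ℝ≥0∞)
    (S : ι → CC.Gm → Fin 8 → ℝ) (Gd : ι → Set CC.Gm) : Prop where
  mw : ∀ n, Measurable (w n)
  mS : ∀ n, Measurable (S n)
  mp : ∀ n, MeasurableSet (jEp P i j G0 (H n))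
  mq : ∀ n, MeasurableSet (jEq P i j G0 (H n))
  mT : Measurable (jTF G0)
  ae : ∀ n, ∀ᵐ g ∂μ, w n g ≠ 0 → g ∈ Gd n
  L : ∀ n, ∀ g ∈ Gd n, 0 < g.2.1 ∧ g.2.1 < g.1
  un : ∀ n, ∀ g ∈ Gd n, G0.Un g
  uR : ∀ n, ∀ g ∈ Gd n, w n g ≠ 0 → ((H n).rot P.u).Un g
  S : ∀ n, ∀ g ∈ Gd n, w n g ≠ 0 → ∀ a, S n g a = ((H n).rot P.u).t8 g a
  o : ∀ n, ∀ g ∈ Gd n, w n g ≠ 0 → ∀ k, OrA ((H n).rot P.u) k g
  loc : ∀ k, LocB P i j G0 H w Gd k

section fam

variable {P : Prm} {i j : Fin 3} {ι : Type*} {μ : Measure CC.Gm} {G0 : Ga} {H : ι → Ga} {w : ι → CC.Gm → ℝ≥0∞}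
  {S : ι → CC.Gm → Fin 8 → ℝ} {Gd : ι → Set CC.Gm}

/-- one arm of two curves with the same strand -/
theorem ConIn.arm (h : ConIn P i j μ G0 H w S Gd) {n n' : ι} {g g' : CC.Gm} (hg : g ∈ Gd n) (hg' : g' ∈ Gd n') (hw : w n g ≠ 0)
    (hw' : w n' g' ≠ 0) {k : Arm} (he : conA ((H n).rot P.u) k g = conA ((H n').rot P.u) k g')
    (N : NgS P i j G0 ((H n).rot P.u) k g) :
    NgS P i j G0 ((H n').rot P.u) k g' ∧
    (∀ (d : ℂ) (E : Tp), wdF d (dirA i j k) E.w E.cs E.κs g.2.2 (rtA k g) (G0.ic k g) =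
      wdF d (dirA i j k) E.w E.cs E.κs g'.2.2 (rtA k g') (G0.ic k g')) ∧
    pcut (cl g) (G0.ix k g) (((H n).rot P.u).ix k g) = pcut (cl g') (G0.ix k g') (((H n').rot P.u).ix k g') := by
  have hL : 0 < g.1 := (h.L n g hg).1.trans (h.L n g hg).2
  have hL' : 0 < g'.1 := (h.L n' g' hg').1.trans (h.L n' g' hg').2
  obtain ⟨e1, e2, -⟩ := conA_inj hL hL' (h.o n g hg hw k) (h.o n' g' hg' hw' k) he
  obtain ⟨l1, l2, l3⟩ := h.loc k n n' g hg g' hg' hw hw' e1 e2 N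
  have hu := h.un n' g' hg'
  exact arm_loc hL hL' (h.o n g hg hw k) (h.o n' g' hg' hw' k) e1 e2 N l1 (hu.o1 l1) (hu.o2 l1) l2 l3

/-- **locality of the connection at `p`** -/
theorem ConIn.locp (h : ConIn P i j μ G0 H w S Gd) {n n' : ι} {g g' : CC.Gm} (hg : g ∈ Gd n) (hg' : g' ∈ Gd n') (hw : w n g ≠ 0)
    (hw' : w n' g' ≠ 0) (he : (kap8 g (S n g)).1 = (kap8 g' (S n' g')).1) (hE : g ∈ jEp P i j G0 (H n)) :
    g' ∈ jEp P i j G0 (H n') ∧ qpAt g (jTF G0 g) (m4 (S n g)) = qpAt g' (jTF G0 g') (m4 (S n' g')) := by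
  rw [kap8_conA (h.L n g hg).1 (h.L n g hg).2 (h.uR n g hg hw) (fun k => (h.o n g hg hw k).e) (h.S n g hg hw),
    kap8_conA (h.L n' g' hg').1 (h.L n' g' hg').2 (h.uR n' g' hg' hw') (fun k => (h.o n' g' hg' hw' k).e) (h.S n' g' hg' hw')]
    at he
  obtain ⟨N1, N2, W1, W2⟩ := hE
  obtain ⟨a1, a2, a3⟩ := h.arm hg hg' hw hw' (k := .fp) (congrArg Prod.fst he) N1
  obtain ⟨b1, b2, b3⟩ := h.arm hg hg' hw hw' (k := .bp) (congrArg Prod.snd he) N2
  refine ⟨⟨a1, b1, ?_, ?_⟩, ?_⟩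
  · exact (a2 (dirA i j .bp) P.p.n).symm.trans_le W1
  · exact (b2 (dirA i j .fp) P.p.n).symm.trans_le W2
  · have hu := h.un n g hg
    have hu' := h.un n' g' hg'
    have hR := h.uR n g hg hw
    have hR' := h.uR n' g' hg' hw'
    rw [hu.ix N1.e, hR.ix (h.o n g hg hw .fp).e, hu'.ix a1.e, hR'.ix (h.o n' g' hg' hw' .fp).e] at a3
    rw [hu.ix N2.e, hR.ix (h.o n g hg hw .bp).e, hu'.ix b1.e, hR'.ix (h.o n' g' hg' hw' .bp).e] at b3
    refine Prod.ext ?_ ?_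
    · show pcut (cl g) (G0.tx .fp g) (S n g 1) = pcut (cl g') (G0.tx .fp g') (S n' g' 1)
      rw [h.S n g hg hw 1, h.S n' g' hg' hw' 1]
      exact a3
    · show pcut (cl g) (G0.tx .bp g) (S n g 6) = pcut (cl g') (G0.tx .bp g') (S n' g' 6)
      rw [h.S n g hg hw 6, h.S n' g' hg' hw' 6]
      exact b3

/-- **locality of the connection at `q`** -/
theorem ConIn.locq (h : ConIn P i j μ G0 H w S Gd) {n n' : ι} {g g' : CC.Gm} (hg : g ∈ Gd n) (hg' : g' ∈ Gd n') (hw : w n g ≠ 0)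
    (hw' : w n' g' ≠ 0) (he : (kap8 g (S n g)).2 = (kap8 g' (S n' g')).2) (hE : g ∈ jEq P i j G0 (H n)) :
    g' ∈ jEq P i j G0 (H n') ∧ qqAt g (jTF G0 g) (m4 (S n g)) = qqAt g' (jTF G0 g') (m4 (S n' g')) := by
  rw [kap8_conA (h.L n g hg).1 (h.L n g hg).2 (h.uR n g hg hw) (fun k => (h.o n g hg hw k).e) (h.S n g hg hw),
    kap8_conA (h.L n' g' hg').1 (h.L n' g' hg').2 (h.uR n' g' hg' hw') (fun k => (h.o n' g' hg' hw' k).e) (h.S n' g' hg' hw')]
    at he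
  obtain ⟨N1, N2, W1, W2⟩ := hE
  obtain ⟨a1, a2, a3⟩ := h.arm hg hg' hw hw' (k := .bq) (congrArg Prod.fst he) N1
  obtain ⟨b1, b2, b3⟩ := h.arm hg hg' hw hw' (k := .fq) (congrArg Prod.snd he) N2
  refine ⟨⟨a1, b1, ?_, ?_⟩, ?_⟩
  · exact (a2 (dirA i j .fq) P.q.n).symm.trans_le W1
  · exact (b2 (dirA i j .bq) P.q.n).symm.trans_le W2
  · have hu := h.un n g hg
    have hu' := h.un n' g' hg'
    have hR := h.uR n g hg hw
    have hR' := h.uR n' g' hg' hw'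
    rw [hu.ix N1.e, hR.ix (h.o n g hg hw .bq).e, hu'.ix a1.e, hR'.ix (h.o n' g' hg' hw' .bq).e] at a3
    rw [hu.ix N2.e, hR.ix (h.o n g hg hw .fq).e, hu'.ix b1.e, hR'.ix (h.o n' g' hg' hw' .fq).e] at b3
    refine Prod.ext ?_ ?_
    · show pcut (cl g) (G0.tx .bq g) (S n g 2) = pcut (cl g') (G0.tx .bq g') (S n' g' 2)
      rw [h.S n g hg hw 2, h.S n' g' hg' hw' 2]
      exact a3
    · show pcut (cl g) (G0.tx .fq g) (S n g 5) = pcut (cl g') (G0.tx .fq g') (S n' g' 5)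
      rw [h.S n g hg hw 5, h.S n' g' hg' hw' 5]
      exact b3

/-- **the connections carry the native marks**: one set and one map for all the classes of the family (`h3`, `h4` of `Jm`); `V`, `V'` =
measurable relations which hold on the classes -/
theorem con_marks [Countable ι] [SFinite μ] (h : ConIn P i j μ G0 H w S Gd) {V V' : Set (K4 × (Pie × Pie))} (mV : MeasurableSet V)
    (mV' : MeasurableSet V')
    (hV : ∀ n, ∀ g ∈ Gd n, w n g ≠ 0 → g ∈ jEp P i j G0 (H n) → ((kap8 g (S n g)).1, qpAt g (jTF G0 g) (m4 (S n g))) ∈ V)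
    (hV' : ∀ n, ∀ g ∈ Gd n, w n g ≠ 0 → g ∈ jEq P i j G0 (H n) → ((kap8 g (S n g)).2, qqAt g (jTF G0 g) (m4 (S n g))) ∈ V') :
    ∃ (Cp Cq : Set K4) (fp fq : K4 → Pie × Pie), MeasurableSet Cp ∧ MeasurableSet Cq ∧ Measurable fp ∧ Measurable fq ∧
      (∀ κ ∈ Cp, (κ, fp κ) ∈ V) ∧ (∀ κ ∈ Cq, (κ, fq κ) ∈ V') ∧
      (∀ n, ∀ᵐ g ∂μ, w n g ≠ 0 → ((kap8 g (S n g)).1 ∈ Cp ↔ g ∈ jEp P i j G0 (H n)) ∧
        (g ∈ jEp P i j G0 (H n) → fp (kap8 g (S n g)).1 = qpAt g (jTF G0 g) (m4 (S n g)))) ∧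
      ∀ n, ∀ᵐ g ∂μ, w n g ≠ 0 → ((kap8 g (S n g)).2 ∈ Cq ↔ g ∈ jEq P i j G0 (H n)) ∧
        (g ∈ jEq P i j G0 (H n) → fq (kap8 g (S n g)).2 = qqAt g (jTF G0 g) (m4 (S n g))) := by
  have k8 : ∀ n, Measurable fun g => kap8 g (S n g) := fun n => kap8_meas.comp (measurable_id.prodMk (h.mS n))
  have m4S : ∀ n, Measurable fun g => m4 (S n g) := fun n => m4_cont.measurable.comp (h.mS n)
  obtain ⟨Cp, fp, p1, p2, p3, p4⟩ := cls_of (P := fun _ : ι => μ) h.mw (fun n => measurable_fst.comp (k8 n)) h.mp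
    (fun n => qpAt_cont.measurable.comp (measurable_id.prodMk (h.mT.prodMk (m4S n)))) mV h.ae hV
    fun n n' g hg g' hg' hw hw' he hE => h.locp hg hg' hw hw' he hE
  obtain ⟨Cq, fq, q1, q2, q3, q4⟩ := cls_of (P := fun _ : ι => μ) h.mw (fun n => measurable_snd.comp (k8 n)) h.mq
    (fun n => qqAt_cont.measurable.comp (measurable_id.prodMk (h.mT.prodMk (m4S n)))) mV' h.ae hV'
    fun n n' g hg g' hg' hw hw' he hE => h.locq hg hg' hw hw' he hE
  exact ⟨Cp, Cq, fp, fq, p1, q1, p2, q2, p3, q3, p4, q4⟩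

end fam

/-! ### 5. The family from statements almost everywhere -/

section inst

variable {G : Ga} {g : CC.Gm} {k : Arm}

lemma orA_of_pre {d : ℂ} {P : Tp} (hl : 0 < P.l) (hu : G.Un g) (e : g ∈ G.B k)
    (h : preK d P g.2.2 (rtA k g) (G.ic k g) (G.ix k g) ≤ 0) : OrA G k g := by
  refine ⟨e, hu.o1 e, hu.o2 e, fun hc => ?_⟩
  unfold preK at h
  simp only [max_le_iff] at h
  have h1 := h.1.1.1
  rw [← hc, show cutc g.2.2 (rtA k g) (rtA k g) 1 = 0 by rw [cutc_apply, cvx_one, sub_self]] at h1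
  have h2 : lv d 0 = 0 := by
    unfold lv
    simp
  rw [h2] at h1
  linarith

/-- **order of the gates of a class** (in its own frame) -/
theorem orA_of_cev {D : Dt} {L : ℝ} (hu : G.Un g) (hB : ∀ k, g ∈ G.B k) (p1 : 0 < (D.P.up D.y).l) (p2 : 0 < (D.P.up D.y').l)
    (p3 : 0 < (D.Q.up D.z).l) (p4 : 0 < (D.Q.up D.z').l)
    (h : CEv D g.2.2 L (pji (muG g)) fun a => pji (phi8 G.B G.c G.x g a)) (k : Arm) : OrA G k g := by
  have e : ∀ a, phi8 G.B G.c G.x g a = G.t8 g a := fun a => by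
    rw [phi8_t8, bi_pos (mem_iInter.2 hB), one_mul]
  obtain ⟨-, -, -, -, -, -, -, -, -, -, kA, kB, kA', kB', -⟩ := h
  simp only [e] at kA kB kA' kB'
  cases k
  · exact orA_of_pre p1 hu (hB _) kA
  · exact orA_of_pre p3 hu (hB _) kA'
  · exact orA_of_pre p4 hu (hB _) kB'
  · exact orA_of_pre p2 hu (hB _) kB

lemma OrA.rot {z : ℂ} (h : OrA G k (rotX z⁻¹ g)) : OrA (G.rot z) k g := ⟨h.e, h.o1, h.o2, h.ne⟩

end inst

section ae

variable {P : Prm} {i j : Fin 3} {ι : Type*} {μ : Measure CC.Gm} {G0 : Ga} {H : ι → Ga} {w : ι → CC.Gm → ℝ≥0∞}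
  {S : ι → CC.Gm → Fin 8 → ℝ} {Gd : ι → Set CC.Gm}

/-- **`ConIn` from statements almost everywhere**; `Gd` = the sets on which the native gates are local -/
theorem conIn_of (mw : ∀ n, Measurable (w n)) (mS : ∀ n, Measurable (S n)) (mp : ∀ n, MeasurableSet (jEp P i j G0 (H n)))
    (mq : ∀ n, MeasurableSet (jEq P i j G0 (H n))) (mT : Measurable (jTF G0)) (ae : ∀ n, ∀ᵐ g ∂μ, w n g ≠ 0 → g ∈ Gd n)
    (hL : ∀ᵐ g ∂μ, 0 < g.2.1 ∧ g.2.1 < g.1) (hu : ∀ᵐ g ∂μ, G0.Un g)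
    (hR : ∀ n, ∀ᵐ g ∂μ, w n g ≠ 0 → (H n).Un (rotX P.u⁻¹ g) ∧ (∀ k, OrA (H n) k (rotX P.u⁻¹ g)) ∧
      ∀ a, S n g a = (H n).t8 (rotX P.u⁻¹ g) a)
    (loc : ∀ k, LocB P i j G0 H w Gd k) : ∃ Gd' : ι → Set CC.Gm, (∀ n, Gd' n ⊆ Gd n) ∧ ConIn P i j μ G0 H w S Gd' := by
  refine ⟨fun n => {g | g ∈ Gd n ∧ (0 < g.2.1 ∧ g.2.1 < g.1) ∧ G0.Un g ∧ (w n g ≠ 0 → (H n).Un (rotX P.u⁻¹ g) ∧
    (∀ k, OrA (H n) k (rotX P.u⁻¹ g)) ∧ ∀ a, S n g a = (H n).t8 (rotX P.u⁻¹ g) a)}, fun n g hg => hg.1, ?_⟩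
  refine ⟨mw, mS, mp, mq, mT, fun n => ?_, fun n g hg => hg.2.1, fun n g hg => hg.2.2.1, fun n g hg hw => (hg.2.2.2 hw).1.rot,
    fun n g hg hw a => (hg.2.2.2 hw).2.2 a, fun n g hg hw k => ((hg.2.2.2 hw).2.1 k).rot,
    fun k n n' g hg g' hg' => loc k n n' g hg.1 g' hg'.1⟩
  filter_upwards [ae n, hL, hu, hR n] with g h1 h2 h3 h4 hw
  exact ⟨h1 hw, h2, h3, h4⟩

end ae

end Pool.Agent.ROT.F3.CK
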