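import Pool.Agent.ROT.F3JmA
import Pool.Agent.ROT.F3JmB

/-!
# ROT / F3JmU (helper42): the times of the gates are in their arms

* `le_spt` : order of limits from the words of the system;
* `tm_ae`, **`un_ae`** : `AIn` (helper4) gives `Ga.Un` (helper41) almost everywhere; `tm01_ae` : the times in the closed curve;
* `ae_rotX`, `un_rot`, `tm01_rot` : on the turned curves, `PG` invariant;
* **`tmS_of`**, `tmS_all`, `tmS_jF1`, `tmS_jF2` : `TmS` (input of `jF1_vt`, `jF1_o1`, ..) from `Ga.Un`; `jF1_vt'`, `jF2_vt'`,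
  `jF1_o1'`, `jF2_o2'` : the same statements with `Ga.Un`.
-/

set_option autoImplicit false

namespace Pool.Agent.ROT.F3.CK

open MeasureTheory Filter Topology Set unitInterval

open scoped NNReal ENNReal Classical

open Pool.Agent.ROT.F3 Pool.Agent.ROT.F3.LF Pool.Agent.ROT.F3.CC

section lim

variable {U : Filter ℕ} {b : ℝ} {PG : Measure CC.Gm} {A : Arm → ℕ → W3 × ℕ → Prop} {c g : Arm → ℕ → W3 × ℕ → ℕ}
  {B : Arm → Set CC.Gm} {Pc Pg : Arm → CC.Gm → ℝ}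

/-- order of limits from the words of the system -/
lemma le_spt [U.NeBot] {p p' : ℕ → W3 × ℕ → ℝ} {Φ Φ' : CC.Gm → ℝ} (hC : Cv U (fun N => mwE N b) cN PG)
    (h : Lm U (fun N => mwE N b) cN PG p Φ) (h' : Lm U (fun N => mwE N b) cN PG p' Φ')
    (hle : ∀ᶠ N in U, ∀ x, Spt x → p N x ≤ p' N x) : ∀ᵐ y ∂PG, Φ y ≤ Φ' y := by
  obtain ⟨C, hCb⟩ := h.bd
  obtain ⟨C', hCb'⟩ := h'.bd
  have h2 : Lm U (fun N => mwE N b) cN PG (fun N x => max (p N x) (p' N x)) Φ' := by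
    refine lm_spt hC h' ⟨max C C', fun i ω => ?_⟩ ?_
    · exact (abs_max_le_max_abs_abs).trans (max_le_max (hCb i ω) (hCb' i ω))
    · filter_upwards [hle] with N hN x hx
      exact max_eq_right (hN x hx)
  exact Lm.le hC h h2 (Eventually.of_forall fun N x => le_max_left _ _)

/-- the times of the gates, without their existence -/
theorem tm_ae [U.NeBot] (hC : Cv U (fun N => mwE N b) cN PG) (H : AIn U b PG A c g B Pc Pg) :
    ∀ᵐ y ∂PG, ∀ k, 0 ≤ Pc k y ∧ Pc k y ≤ Pg k y ∧ Pg k y ≤ 1 := by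
  have h0 : ∀ k, ∀ᵐ y ∂PG, 0 ≤ Pc k y := fun k => by
    refine Lm.nonneg hC (H.tc k) (Eventually.of_forall fun N x => ?_)
    refine mul_nonneg ?_ (by positivity)
    by_cases h : A k N x
    · rw [bi_pos h]
      exact zero_le_one
    · rw [bi_neg h]
  have h1 : ∀ k, ∀ᵐ y ∂PG, Pc k y ≤ Pg k y := fun k => by
    refine le_spt hC (H.tc k) (H.tg k) ?_
    filter_upwards [H.pos] with N hN x hx
    by_cases h : A k N x
    · rw [bi_pos h, one_mul, one_mul]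
      have h3 : (c k N x : ℝ) ≤ g k N x := by exact_mod_cast (hN x hx k h).2.2.1
      exact div_le_div_of_nonneg_right h3 (Nat.cast_nonneg _)
    · rw [bi_neg h, zero_mul, zero_mul]
  have h2 : ∀ k, ∀ᵐ y ∂PG, Pg k y ≤ 1 := fun k => by
    refine le_spt hC (H.tg k) (Lm.const hC 1) ?_
    filter_upwards [H.pos] with N hN x hx
    by_cases h : A k N x
    · rw [bi_pos h, one_mul]
      have h3 : (g k N x : ℝ) ≤ (arcw x.2 k x.1).length := by exact_mod_cast (hN x hx k h).2.2.2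
      exact div_le_one_of_le₀ h3 (Nat.cast_nonneg _)
    · rw [bi_neg h, zero_mul]
      exact zero_le_one
  have h3 : ∀ k, ∀ᵐ y ∂PG, 0 ≤ Pc k y ∧ Pc k y ≤ Pg k y ∧ Pg k y ≤ 1 := fun k => by
    filter_upwards [h0 k, h1 k, h2 k] with y a0 a1 a2
    exact ⟨a0, a1, a2⟩
  filter_upwards [h3 .fp, h3 .bq, h3 .fq, h3 .bp] with y a0 a1 a2 a3 k
  cases k
  · exact a0
  · exact a1
  · exact a2
  · exact a3

/-- **the times of the gates are in their arms** -/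
theorem un_ae [U.NeBot] (hC : Cv U (fun N => mwE N b) cN PG) (H : AIn U b PG A c g B Pc Pg) :
    ∀ᵐ y ∂PG, (⟨B, Pc, Pg⟩ : Ga).Un y := by
  filter_upwards [tm_ae hC H] with y hy
  exact ⟨fun k _ => hy k⟩

/-- the times in the closed curve -/
theorem tm01_ae [U.NeBot] (hC : Cv U (fun N => mwE N b) cN PG) (H : AIn U b PG A c g B Pc Pg) :
    ∀ᵐ y ∂PG, ∀ k, (⟨B, Pc, Pg⟩ : Ga).tc k y ∈ Icc (0 : ℝ) 1 ∧ (⟨B, Pc, Pg⟩ : Ga).tx k y ∈ Icc (0 : ℝ) 1 := by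
  filter_upwards [tm_ae hC H] with y hy k
  obtain ⟨h1, h2, h3⟩ := hy k
  exact ⟨tAt_mem ⟨h1, h2.trans h3⟩, tAt_mem ⟨h1.trans h2, h3⟩⟩

end lim

section rot

variable {PG : Measure CC.Gm} {u : ℂ}

lemma map_rotX_inv (hu : ‖u‖ = 1) (hP : PG.map (rotX u) = PG) : PG.map (rotX u⁻¹) = PG := by
  have hu0 : u ≠ 0 := by
    rintro rfl
    rw [norm_zero] at hu
    exact zero_ne_one hu
  calc PG.map (rotX u⁻¹) = (PG.map (rotX u)).map (rotX u⁻¹) := by rw [hP]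
    _ = PG.map (rotX u⁻¹ ∘ rotX u) := Measure.map_map (rotX_cont _).measurable (rotX_cont _).measurable
    _ = PG.map id := by
      congr 1
      funext y
      show ((y.1, y.2.1, u⁻¹ • (u • y.2.2)) : CC.Gm) = y
      rw [smul_smul, inv_mul_cancel₀ hu0, one_smul]
    _ = PG := Measure.map_id

/-- statements almost everywhere on the turned curves -/
lemma ae_rotX (hu : ‖u‖ = 1) (hP : PG.map (rotX u) = PG) {p : CC.Gm → Prop} (h : ∀ᵐ y ∂PG, p y) : ∀ᵐ y ∂PG, p (rotX u⁻¹ y) := by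
  refine ae_of_ae_map (rotX_cont _).measurable.aemeasurable ?_
  rw [map_rotX_inv hu hP]
  exact h

/-- **the times of the gates of the rotated lattice**, on the curves of the lattice 0 -/
lemma un_rot (hu : ‖u‖ = 1) (hP : PG.map (rotX u) = PG) {H : Ga} (h : ∀ᵐ y ∂PG, H.Un y) :
    ∀ᵐ g ∂PG, H.Un (rotX u⁻¹ g) ∧ (H.rot u).Un g := by
  filter_upwards [ae_rotX hu hP h] with g hg
  exact ⟨hg, hg.rot⟩

/-- the times in the turned curve -/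
lemma tm01_rot (hu : ‖u‖ = 1) (hP : PG.map (rotX u) = PG) {H : Ga}
    (h : ∀ᵐ y ∂PG, ∀ k, H.tc k y ∈ Icc (0 : ℝ) 1 ∧ H.tx k y ∈ Icc (0 : ℝ) 1) :
    ∀ᵐ g ∂PG, ∀ k, (H.rot u).tc k g ∈ Icc (0 : ℝ) 1 ∧ (H.rot u).tx k g ∈ Icc (0 : ℝ) 1 := by
  filter_upwards [ae_rotX hu hP h] with g hg k
  have e1 : (H.rot u).tc k g = H.tc k (rotX u⁻¹ g) := by
    cases k <;> rfl
  have e2 : (H.rot u).tx k g = H.tx k (rotX u⁻¹ g) := by
    cases k <;> rfl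
  rw [e1, e2]
  exact hg k

end rot

section tms

variable {P : Prm} {i j : Fin 3} {G G0 H : Ga} {k : Arm} {g : CC.Gm}

/-- the times in the closed curve -/
lemma un_tm (h : G.Un g) (e : g ∈ G.B k) : G.tc k g ∈ Icc (0 : ℝ) 1 ∧ G.tx k g ∈ Icc (0 : ℝ) 1 :=
  ⟨tAt_mem ⟨(h.h k e).1, (h.h k e).2.1.trans (h.h k e).2.2⟩, tAt_mem ⟨(h.h k e).1.trans (h.h k e).2.1, (h.h k e).2.2⟩⟩

/-- **`TmS` from `Ga.Un`** -/
lemma tmS_of (h : G.Un g) (e : g ∈ G.B k) (e' : g ∈ G.B (oppA k)) : TmS G k g :=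
  ⟨tAt_mem ⟨(h.h k e).1.trans (h.h k e).2.1, (h.h k e).2.2⟩,
    tAt_mem ⟨(h.h _ e').1.trans (h.h _ e').2.1, (h.h _ e').2.2⟩⟩

lemma tmS_all (h : G.Un g) (e : g ∈ ⋂ k, G.B k) : TmS G k g := tmS_of h (mem_iInter.1 e _) (mem_iInter.1 e _)

lemma tmS_jF1 (h : (H.rot P.u).Un g) (e : g ∈ jF1 P i j G0 H) : TmS (H.rot P.u) .fp g := tmS_of h e.1.e e.2.1.e

lemma tmS_jF2 (h : (H.rot P.u).Un g) (e : g ∈ jF2 P i j G0 H) : TmS (H.rot P.u) .bp g := tmS_of h e.1.e e.2.1.e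

/-- **the relation of the marks of the strand A** (`jF1_vt` without times) -/
theorem jF1_vt' (hP : P.Ok) (hL : 0 ≤ g.1) (hw : g ∈ ⋂ k, G0.B k) (u0 : G0.Un g) (uR : (H.rot P.u).Un g)
    (h : g ∈ jF1 P i j G0 H) : ((rst g (CC.m4 (jT G0 g))).1, rA (CC.m4 (jT G0 g)) (jSF P H g)) ∈ jV P i :=
  jF1_vt hP hL hw (tmS_all u0 hw) (tmS_jF1 uR h) h

/-- **the relation of the marks of the strand B** -/
theorem jF2_vt' (hP : P.Ok) (hL : 0 ≤ g.1) (hw : g ∈ ⋂ k, G0.B k) (u0 : G0.Un g) (uR : (H.rot P.u).Un g)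
    (h : g ∈ jF2 P i j G0 H) : ((rst g (CC.m4 (jT G0 g))).2.1, rB (CC.m4 (jT G0 g)) (jSF P H g)) ∈ jV P j :=
  jF2_vt hP hL hw (tmS_all u0 hw) (tmS_jF2 uR h) h

/-- **`o1`** without times -/
theorem jF1_o1' (hP : P.Ok) (hw : g ∈ ⋂ k, G0.B k) (u0 : G0.Un g) (uR : (H.rot P.u).Un g) (h : g ∈ jF1 P i j G0 H) :
    jT G0 g 1 ≠ jT G0 g 2 ∧ (jSF P H g).1 ∈ uIcc (jT G0 g 1) (jT G0 g 2) ∧ (jSF P H g).2.1 ∈ uIcc (jT G0 g 1) (jT G0 g 2) :=
  jF1_o1 hP hw (tmS_all u0 hw) (tmS_jF1 uR h) h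

/-- **`o2`** without times -/
theorem jF2_o2' (hP : P.Ok) (hw : g ∈ ⋂ k, G0.B k) (u0 : G0.Un g) (uR : (H.rot P.u).Un g) (h : g ∈ jF2 P i j G0 H) :
    jT G0 g 6 ≠ jT G0 g 5 ∧ (jSF P H g).2.2.2 ∈ uIcc (jT G0 g 6) (jT G0 g 5) ∧
      (jSF P H g).2.2.1 ∈ uIcc (jT G0 g 6) (jT G0 g 5) :=
  jF2_o2 hP hw (tmS_all u0 hw) (tmS_jF2 uR h) h

end tms

end Pool.Agent.ROT.F3.CK
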