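import Pool.Agent.ROT.F3LimV

/-!
# F3, row L3: mollification with respect to lattice measures (helper15)

`mol k c m g z = c⁻¹ ∫ k (z - v) g v dm v`. For measures `m N → c · Lebesgue` (compactly supported continuous functions), locally
uniformly bounded, and `0 ≤ g N ≤ C` with support in a fixed ball: `mol` is bounded, asymptotically equicontinuous, converges to
the convolution with the vague limit, and is close to `g N` in `L¹(m N)` if `g N` has a modulus of continuity in `L¹(m N)`.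
-/

set_option autoImplicit false

open MeasureTheory Set Filter Topology Metric

open scoped ENNReal NNReal

namespace Pool.Agent.ROT.F3

/-- a mollifier -/
structure Mk (k : ℂ → ℝ) (ρ κ : ℝ) : Prop where
  cont : Continuous k
  nn : ∀ z, 0 ≤ k z
  le : ∀ z, k z ≤ κ
  supp : ∀ z, ρ ≤ ‖z‖ → k z = 0
  int : ∫ z, k z = 1
  pos : 0 < ρ

lemma Mk.cs {k : ℂ → ℝ} {ρ κ : ℝ} (h : Mk k ρ κ) : HasCompactSupport k := by
  refine HasCompactSupport.intro (isCompact_closedBall (0 : ℂ) ρ) fun z hz => h.supp z ?_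
  rw [mem_closedBall_zero_iff, not_le] at hz
  exact hz.le

/-- the mollified function -/
noncomputable def mol (k : ℂ → ℝ) (c : ℝ) (m : Measure ℂ) (g : ℂ → ℝ) (z : ℂ) : ℝ := c⁻¹ * ∫ v, k (z - v) * g v ∂m

/-- the lattice measures -/
structure LM (l : Filter ℕ) (m : ℕ → Measure ℂ) (c : ℝ) : Prop where
  fin : ∀ N, IsFiniteMeasureOnCompacts (m N)
  pos : 0 < c
  vag : ∀ Ψ : ℂ → ℝ, Continuous Ψ → HasCompactSupport Ψ → Tendsto (fun N => ∫ z, Ψ z ∂(m N)) l (𝓝 (c * ∫ z, Ψ z))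
  loc : ∀ R : ℝ, ∃ K : ℝ, ∀ᶠ N in l, ∀ w : ℂ, (m N).real (closedBall w R) ≤ K

/-- bounded functions with support in a fixed ball -/
structure BF (l : Filter ℕ) (g : ℕ → ℂ → ℝ) (C R : ℝ) : Prop where
  meas : ∀ N, Measurable (g N)
  bd : ∀ᶠ N in l, ∀ z, 0 ≤ g N z ∧ g N z ≤ C
  supp : ∀ᶠ N in l, ∀ z, R ≤ ‖z‖ → g N z = 0
  C0 : 0 ≤ C
  R0 : 0 ≤ R

section

variable {m : Measure ℂ} [IsFiniteMeasureOnCompacts m]

lemma int_ball {f : ℂ → ℝ} (hf : Measurable f) {C : ℝ} (hb : ∀ z, |f z| ≤ C) {w : ℂ} {R : ℝ}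
    (hs : ∀ z, R ≤ ‖z - w‖ → f z = 0) : Integrable f m := by
  have h1 : IntegrableOn f (closedBall w R) m := by
    refine Measure.integrableOn_of_bounded (s_finite := (isCompact_closedBall w R).measure_lt_top.ne)
      hf.aestronglyMeasurable (M := C) ?_
    exact ae_of_all _ fun z => by rw [Real.norm_eq_abs]; exact hb z
  refine (integrableOn_iff_integrable_of_support_subset ?_).1 h1
  intro z hz
  by_contra hn
  apply hz
  apply hs
  rw [mem_closedBall, dist_eq_norm, not_le] at hn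
  exact hn.le

lemma int_ball_le {f : ℂ → ℝ} (hf : Measurable f) {C : ℝ} (hb : ∀ z, |f z| ≤ C) {w : ℂ} {R : ℝ}
    (hs : ∀ z, R ≤ ‖z - w‖ → f z = 0) : ∫ z, |f z| ∂m ≤ C * m.real (closedBall w R) := by
  have h1 : ∫ z, |f z| ∂m = ∫ z in closedBall w R, |f z| ∂m := by
    symm
    refine setIntegral_eq_integral_of_forall_compl_eq_zero fun z hz => ?_
    rw [hs z, abs_zero]
    rw [mem_closedBall, dist_eq_norm, not_le] at hz
    exact hz.le
  rw [h1]
  have h2 : ∫ z in closedBall w R, |f z| ∂m ≤ ∫ _ in closedBall w R, C ∂m := by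
    refine setIntegral_mono_on ?_ ?_ isClosed_closedBall.measurableSet fun z _ => hb z
    · exact (int_ball hf hb hs).abs.integrableOn
    · exact integrableOn_const (isCompact_closedBall w R).measure_lt_top.ne
  refine h2.trans (le_of_eq ?_)
  rw [setIntegral_const, smul_eq_mul, mul_comm]

end

variable {l : Filter ℕ} {m : ℕ → Measure ℂ} {c : ℝ} {g : ℕ → ℂ → ℝ} {C R : ℝ} {k : ℂ → ℝ} {ρ κ : ℝ}

lemma kg_bd (hk : Mk k ρ κ) {f : ℂ → ℝ} (hf : ∀ z, 0 ≤ f z ∧ f z ≤ C) (z v : ℂ) : |k (z - v) * f v| ≤ κ * C := by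
  rw [abs_mul, abs_of_nonneg (hk.nn _), abs_of_nonneg (hf v).1]
  exact mul_le_mul (hk.le _) (hf v).2 (hf v).1 ((hk.nn 0).trans (hk.le 0))

lemma k_meas (hk : Mk k ρ κ) (z : ℂ) : Measurable fun v => k (z - v) := (hk.cont.comp (by fun_prop)).measurable

lemma mol_nn (hm : LM l m c) (hk : Mk k ρ κ) {N : ℕ} (hb : ∀ z, 0 ≤ g N z ∧ g N z ≤ C) (z : ℂ) :
    0 ≤ mol k c (m N) (g N) z :=
  mul_nonneg (inv_nonneg.2 hm.pos.le) (integral_nonneg fun v => mul_nonneg (hk.nn _) (hb v).1)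

/-- **bounded** -/
lemma mol_bd (hm : LM l m c) (hg : BF l g C R) (hk : Mk k ρ κ) :
    ∃ C' : ℝ, 0 ≤ C' ∧ ∀ᶠ N in l, ∀ z, 0 ≤ mol k c (m N) (g N) z ∧ mol k c (m N) (g N) z ≤ C' := by
  obtain ⟨K, hK⟩ := hm.loc ρ
  refine ⟨c⁻¹ * (κ * C * |K|), by
    have := hm.pos
    have h1 := hg.C0
    have h2 := (hk.nn 0).trans (hk.le 0)
    positivity, ?_⟩
  filter_upwards [hK, hg.bd] with N hK' hb z
  have := hm.fin N
  refine ⟨mol_nn hm hk hb z, ?_⟩
  refine mul_le_mul_of_nonneg_left ?_ (inv_nonneg.2 hm.pos.le)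
  have h1 : ∫ v, k (z - v) * g N v ∂(m N) ≤ ∫ v, |k (z - v) * g N v| ∂(m N) :=
    (le_abs_self _).trans abs_integral_le_integral_abs
  refine h1.trans ((int_ball_le (w := z) (R := ρ) ((k_meas hk z).mul (hg.meas N)) (kg_bd hk hb z) ?_).trans ?_)
  · intro v hv
    show k (z - v) * g N v = 0
    rw [hk.supp _ (by rwa [norm_sub_rev]), zero_mul]
  · have h3 : (0 : ℝ) ≤ κ * C := mul_nonneg ((hk.nn 0).trans (hk.le 0)) hg.C0
    exact mul_le_mul_of_nonneg_left ((hK' z).trans (le_abs_self K)) h3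

/-- **support** -/
lemma mol_supp (hg : BF l g C R) (hk : Mk k ρ κ) : ∀ᶠ N in l, ∀ z, R + ρ ≤ ‖z‖ → mol k c (m N) (g N) z = 0 := by
  filter_upwards [hg.supp] with N hs z hz
  unfold mol
  have h1 : (fun v => k (z - v) * g N v) = fun _ => 0 := by
    funext v
    by_cases hv : R ≤ ‖v‖
    · rw [hs v hv, mul_zero]
    · rw [hk.supp, zero_mul]
      have := norm_sub_norm_le z v
      rw [not_le] at hv
      linarith
  rw [h1, integral_zero, mul_zero]

/-- **asymptotic equicontinuity** -/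
lemma mol_equi (hm : LM l m c) (hg : BF l g C R) (hk : Mk k ρ κ) {ε : ℝ} (hε : 0 < ε) :
    ∃ η : ℝ, 0 < η ∧ ∀ᶠ N in l, ∀ z w : ℂ, ‖z - w‖ ≤ η → |mol k c (m N) (g N) z - mol k c (m N) (g N) w| ≤ ε := by
  obtain ⟨K, hK⟩ := hm.loc (ρ + 1)
  have hc := hm.pos
  have hC := hg.C0
  obtain ⟨e, he⟩ : ∃ e : ℝ, e = ε * c / ((C + 1) * (|K| + 1)) := ⟨_, rfl⟩
  have he0 : 0 < e := by rw [he]; positivity
  obtain ⟨η, hη, hu⟩ := Metric.uniformContinuous_iff.1 (hk.cs.uniformContinuous_of_continuous hk.cont) e he0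
  refine ⟨min (η / 2) 1, by positivity, ?_⟩
  filter_upwards [hK, hg.bd] with N hK' hb z w hzw
  have := hm.fin N
  have i1 : Integrable (fun v => k (z - v) * g N v) (m N) :=
    int_ball (w := z) (R := ρ) ((k_meas hk z).mul (hg.meas N)) (kg_bd hk hb z) fun v hv => by
      show k (z - v) * g N v = 0
      rw [hk.supp _ (by rwa [norm_sub_rev]), zero_mul]
  have i2 : Integrable (fun v => k (w - v) * g N v) (m N) :=
    int_ball (w := w) (R := ρ) ((k_meas hk w).mul (hg.meas N)) (kg_bd hk hb w) fun v hv => by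
      show k (w - v) * g N v = 0
      rw [hk.supp _ (by rwa [norm_sub_rev]), zero_mul]
  unfold mol
  rw [← mul_sub, ← integral_sub i1 i2, abs_mul, abs_of_pos (inv_pos.2 hc)]
  have h1 : |∫ v, (k (z - v) * g N v - k (w - v) * g N v) ∂(m N)| ≤ e * C * (m N).real (closedBall z (ρ + 1)) := by
    refine abs_integral_le_integral_abs.trans ?_
    refine int_ball_le (w := z) (R := ρ + 1) (((k_meas hk z).mul (hg.meas N)).sub ((k_meas hk w).mul (hg.meas N))) ?_ ?_
    · intro v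
      show |k (z - v) * g N v - k (w - v) * g N v| ≤ e * C
      rw [← sub_mul, abs_mul, abs_of_nonneg (hb v).1]
      refine mul_le_mul ?_ (hb v).2 (hb v).1 he0.le
      have h2 := hu (a := z - v) (b := w - v) (by
        rw [dist_eq_norm, sub_sub_sub_cancel_right]
        exact (hzw.trans (min_le_left _ _)).trans_lt (by linarith))
      rw [Real.dist_eq] at h2
      exact h2.le
    · intro v hv
      show k (z - v) * g N v - k (w - v) * g N v = 0
      have h3 : ρ ≤ ‖z - v‖ := by rw [norm_sub_rev]; linarith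
      have h4 : ρ ≤ ‖w - v‖ := by
        have h5 : ‖z - v‖ ≤ ‖z - w‖ + ‖w - v‖ := by
          calc ‖z - v‖ = ‖(z - w) + (w - v)‖ := by congr 1; ring
            _ ≤ _ := norm_add_le _ _
        have h6 : ‖z - w‖ ≤ 1 := hzw.trans (min_le_right _ _)
        rw [norm_sub_rev] at hv
        linarith
      rw [hk.supp _ h3, hk.supp _ h4, zero_mul, sub_self]
  calc c⁻¹ * |∫ v, (k (z - v) * g N v - k (w - v) * g N v) ∂(m N)| ≤ c⁻¹ * (e * (C + 1) * (|K| + 1)) := by
        refine mul_le_mul_of_nonneg_left (h1.trans ?_) (inv_pos.2 hc).le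
        have h2 : (m N).real (closedBall z (ρ + 1)) ≤ |K| + 1 := (hK' z).trans ((le_abs_self K).trans (by linarith))
        have h3 : e * C ≤ e * (C + 1) := mul_le_mul_of_nonneg_left (by linarith) he0.le
        exact mul_le_mul h3 h2 measureReal_nonneg (by positivity)
    _ = ε := by
        rw [he]
        field_simp

/-- **pointwise limit** -/
lemma mol_lim (hm : LM l m c) (hk : Mk k ρ κ) {g0 : ℂ → ℝ}
    (h0 : ∀ Ψ : ℂ → ℝ, Continuous Ψ → HasCompactSupport Ψ →
      Tendsto (fun N => ∫ z, g N z * Ψ z ∂(m N)) l (𝓝 (c * ∫ z, g0 z * Ψ z))) (z : ℂ) :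
    Tendsto (fun N => mol k c (m N) (g N) z) l (𝓝 (∫ v, k (z - v) * g0 v)) := by
  have h1 := (h0 (fun v => k (z - v)) (hk.cont.comp (by fun_prop)) (by
    have := hk.cs.comp_homeomorph (Homeomorph.subLeft z)
    exact this)).const_mul c⁻¹
  have e1 : c⁻¹ * (c * ∫ v, g0 v * k (z - v)) = ∫ v, k (z - v) * g0 v := by
    rw [← mul_assoc, inv_mul_cancel₀ hm.pos.ne', one_mul]
    exact integral_congr_ae (ae_of_all _ fun v => mul_comm _ _)
  rw [e1] at h1
  refine h1.congr fun N => ?_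
  unfold mol
  congr 1
  exact integral_congr_ae (ae_of_all _ fun v => mul_comm _ _)

/-- the mass of the mollifier -/
lemma mol_one (hm : LM l m c) (hk : Mk k ρ κ) (R : ℝ) {ε : ℝ} (hε : 0 < ε) :
    ∀ᶠ N in l, ∀ z : ℂ, ‖z‖ ≤ R → |c⁻¹ * ∫ v, k (z - v) ∂(m N) - 1| ≤ ε := by
  have hc := hm.pos
  obtain ⟨K, hK⟩ := hm.loc (ρ + 1)
  obtain ⟨e, he⟩ : ∃ e : ℝ, e = ε * c / (2 * (|K| + 1)) := ⟨_, rfl⟩
  have he0 : 0 < e := by rw [he]; positivity
  obtain ⟨η, hη, hu⟩ := Metric.uniformContinuous_iff.1 (hk.cs.uniformContinuous_of_continuous hk.cont) e he0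
  obtain ⟨η', hη'⟩ : ∃ η' : ℝ, η' = min (η / 2) 1 := ⟨_, rfl⟩
  have hη0 : 0 < η' := by rw [hη']; positivity
  obtain ⟨t, _, htf, ht⟩ := (isCompact_closedBall (0 : ℂ) R).finite_cover_balls hη0
  have h1 : ∀ w : ℂ, ∀ᶠ N in l, |c⁻¹ * ∫ v, k (w - v) ∂(m N) - 1| ≤ ε / 2 := by
    intro w
    have h2 := (hm.vag (fun v => k (w - v)) (hk.cont.comp (by fun_prop))
      (hk.cs.comp_homeomorph (Homeomorph.subLeft w))).const_mul c⁻¹
    have e1 : c⁻¹ * (c * ∫ v, k (w - v)) = 1 := by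
      rw [← mul_assoc, inv_mul_cancel₀ hc.ne', one_mul, integral_sub_left_eq_self k volume w, hk.int]
    rw [e1] at h2
    have h3 := h2.eventually (Metric.closedBall_mem_nhds (1 : ℝ) (half_pos hε))
    filter_upwards [h3] with N hN
    have hN' : dist (c⁻¹ * ∫ v, k (w - v) ∂(m N)) 1 ≤ ε / 2 := hN
    rwa [Real.dist_eq] at hN'
  have h2 : ∀ᶠ N in l, ∀ w ∈ t, |c⁻¹ * ∫ v, k (w - v) ∂(m N) - 1| ≤ ε / 2 := (eventually_all_finite htf).2 fun w _ => h1 w
  filter_upwards [h2, hK] with N hN hK' z hz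
  have := hm.fin N
  obtain ⟨w, hw, hzw⟩ := mem_iUnion₂.1 (ht (mem_closedBall_zero_iff.2 hz))
  have hzw' : ‖z - w‖ < η' := by rwa [mem_ball, dist_eq_norm] at hzw
  have i1 : ∀ z : ℂ, Integrable (fun v => k (z - v)) (m N) := fun z =>
    int_ball (w := z) (R := ρ) (C := κ) (k_meas hk z) (fun v => by rw [abs_of_nonneg (hk.nn _)]; exact hk.le _) fun v hv =>
      hk.supp _ (by rwa [norm_sub_rev])
  have h5 : |∫ v, k (z - v) ∂(m N) - ∫ v, k (w - v) ∂(m N)| ≤ e * (m N).real (closedBall z (ρ + 1)) := by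
    rw [← integral_sub (i1 z) (i1 w)]
    refine abs_integral_le_integral_abs.trans ?_
    refine int_ball_le (w := z) (R := ρ + 1) ((k_meas hk z).sub (k_meas hk w)) ?_ ?_
    · intro v
      have h2 := hu (a := z - v) (b := w - v) (by
        rw [dist_eq_norm, sub_sub_sub_cancel_right]
        have h9 : η' ≤ η / 2 := by rw [hη']; exact min_le_left _ _
        linarith)
      rw [Real.dist_eq] at h2
      exact h2.le
    · intro v hv
      show k (z - v) - k (w - v) = 0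
      have h3 : ρ ≤ ‖z - v‖ := by rw [norm_sub_rev]; linarith
      have h4 : ρ ≤ ‖w - v‖ := by
        have h5 : ‖z - v‖ ≤ ‖z - w‖ + ‖w - v‖ := by
          calc ‖z - v‖ = ‖(z - w) + (w - v)‖ := by congr 1; ring
            _ ≤ _ := norm_add_le _ _
        have h6 : ‖z - w‖ ≤ 1 := hzw'.le.trans (by rw [hη']; exact min_le_right _ _)
        rw [norm_sub_rev] at hv
        linarith
      rw [hk.supp _ h3, hk.supp _ h4, sub_self]
  have h6 : |c⁻¹ * ∫ v, k (z - v) ∂(m N) - c⁻¹ * ∫ v, k (w - v) ∂(m N)| ≤ ε / 2 := by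
    rw [← mul_sub, abs_mul, abs_of_pos (inv_pos.2 hc)]
    calc c⁻¹ * |∫ v, k (z - v) ∂(m N) - ∫ v, k (w - v) ∂(m N)| ≤ c⁻¹ * (e * (|K| + 1)) := by
          refine mul_le_mul_of_nonneg_left (h5.trans ?_) (inv_pos.2 hc).le
          exact mul_le_mul_of_nonneg_left ((hK' z).trans ((le_abs_self K).trans (by linarith))) he0.le
      _ = ε / 2 := by
          rw [he]
          field_simp
  calc |c⁻¹ * ∫ v, k (z - v) ∂(m N) - 1|
      = |(c⁻¹ * ∫ v, k (z - v) ∂(m N) - c⁻¹ * ∫ v, k (w - v) ∂(m N)) + (c⁻¹ * ∫ v, k (w - v) ∂(m N) - 1)| := by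
        congr 1
        ring
    _ ≤ _ := abs_add_le _ _
    _ ≤ ε / 2 + ε / 2 := add_le_add h6 (hN w hw)
    _ = ε := by ring

/-! ### the error in `L¹` -/

/-- **modulus of continuity in `L¹` of the lattice measures** -/
def AL1 (l : Filter ℕ) (m : ℕ → Measure ℂ) (g : ℕ → ℂ → ℝ) : Prop :=
  ∀ ε : ℝ, 0 < ε → ∃ δ₀ : ℝ, 0 < δ₀ ∧ ∀ δ : ℝ, 0 < δ → δ ≤ δ₀ →
    ∀ᶠ N in l, ∫ z, ∫ v in closedBall z δ, |g N v - g N z| ∂(m N) ∂(m N) ≤ ε * δ ^ 2

section dbl

variable {μ : Measure ℂ} [IsFiniteMeasureOnCompacts μ] {f : ℂ → ℝ}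

lemma sf_of : SFinite μ := by
  have : IsLocallyFiniteMeasure μ := inferInstance
  infer_instance

lemma dbl_meas (hf : Measurable f) (δ : ℝ) : Measurable fun z => ∫ v in closedBall z δ, |f v - f z| ∂μ := by
  have := sf_of (μ := μ)
  have h1 : ∀ z : ℂ, ∫ v in closedBall z δ, |f v - f z| ∂μ =
      ∫ v, ({p : ℂ × ℂ | ‖p.2 - p.1‖ ≤ δ}.indicator (fun p : ℂ × ℂ => |f p.2 - f p.1|)) (z, v) ∂μ := by
    intro z
    rw [← integral_indicator isClosed_closedBall.measurableSet]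
    refine integral_congr_ae (ae_of_all _ fun v => ?_)
    by_cases hv : ‖v - z‖ ≤ δ
    · have h2 : v ∈ closedBall z δ := by rwa [mem_closedBall, dist_eq_norm]
      have h3 : (z, v) ∈ {p : ℂ × ℂ | ‖p.2 - p.1‖ ≤ δ} := hv
      simp only [indicator_of_mem h2, indicator_of_mem h3]
    · have h2 : v ∉ closedBall z δ := by rwa [mem_closedBall, dist_eq_norm]
      have h3 : (z, v) ∉ {p : ℂ × ℂ | ‖p.2 - p.1‖ ≤ δ} := hv
      simp only [indicator_of_notMem h2, indicator_of_notMem h3]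
  simp_rw [h1]
  have h2 : Measurable ({p : ℂ × ℂ | ‖p.2 - p.1‖ ≤ δ}.indicator (fun p : ℂ × ℂ => |f p.2 - f p.1|)) := by
    refine Measurable.indicator ?_ ?_
    · exact ((hf.comp measurable_snd).sub (hf.comp measurable_fst)).abs
    · exact (isClosed_le (by fun_prop) continuous_const).measurableSet
  exact (h2.stronglyMeasurable.integral_prod_right' (ν := μ)).measurable

end dbl

/-- **the error of the mollification** -/
lemma mol_L1 (hm : LM l m c) (hg : BF l g C R) (ha : AL1 l m g) {M ε : ℝ} (hM : 0 ≤ M) (hε : 0 < ε) :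
    ∃ ρ₀ : ℝ, 0 < ρ₀ ∧ ∀ (k : ℂ → ℝ) (ρ κ : ℝ), Mk k ρ κ → ρ ≤ ρ₀ → κ * ρ ^ 2 ≤ M →
      ∀ᶠ N in l, ∫ z, |mol k c (m N) (g N) z - g N z| ∂(m N) ≤ ε := by
  have hc := hm.pos
  have hC := hg.C0
  obtain ⟨δ₀, hδ0, ha'⟩ := ha (ε * c / (2 * (M + 1))) (by positivity)
  refine ⟨δ₀, hδ0, fun k ρ κ hk hρ hκ => ?_⟩
  obtain ⟨K, hK⟩ := hm.loc R
  obtain ⟨K2, hK2⟩ := hm.loc ρ
  obtain ⟨e, he⟩ : ∃ e : ℝ, e = ε / (2 * ((C + 1) * (|K| + 1))) := ⟨_, rfl⟩
  have he0 : 0 < e := by rw [he]; positivity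
  have h1 := mol_one hm hk R he0
  filter_upwards [h1, hK, hK2, hg.bd, hg.supp, ha' ρ hk.pos hρ] with N hN hK' hK2' hb hs hal
  have := hm.fin N
  have := sf_of (μ := m N)
  have hκ0 : 0 ≤ κ := (hk.nn 0).trans (hk.le 0)
  -- the double integral
  obtain ⟨F, hF⟩ : ∃ F : ℂ → ℝ, F = fun z => ∫ v in closedBall z ρ, |g N v - g N z| ∂(m N) := ⟨_, rfl⟩
  have hFm : Measurable F := by rw [hF]; exact dbl_meas (hg.meas N) ρ
  have hgd : ∀ v z, |g N v - g N z| ≤ C := fun v z => by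
    have a := hb v
    have b := hb z
    rw [abs_le]
    constructor <;> linarith [a.1, a.2, b.1, b.2]
  have hF0 : ∀ z, 0 ≤ F z := fun z => by rw [hF]; exact integral_nonneg fun _ => abs_nonneg _
  have hFb : ∀ z, |F z| ≤ C * |K2| := fun z => by
    rw [abs_of_nonneg (hF0 z), hF]
    have h2 : ∫ v in closedBall z ρ, |g N v - g N z| ∂(m N) ≤ ∫ _ in closedBall z ρ, C ∂(m N) := by
      refine setIntegral_mono_on ?_ (integrableOn_const (isCompact_closedBall z ρ).measure_lt_top.ne)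
        isClosed_closedBall.measurableSet fun v _ => hgd v z
      refine Measure.integrableOn_of_bounded (isCompact_closedBall z ρ).measure_lt_top.ne
        (((hg.meas N).sub measurable_const).abs.aestronglyMeasurable) (M := C) (ae_of_all _ fun v => ?_)
      rw [Real.norm_eq_abs, abs_abs]
      exact hgd v z
    refine h2.trans ?_
    rw [setIntegral_const, smul_eq_mul, mul_comm]
    exact mul_le_mul_of_nonneg_left ((hK2' z).trans (le_abs_self _)) hC
  have hFs : ∀ z, R + ρ ≤ ‖z - 0‖ → F z = 0 := by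
    intro z hz
    rw [sub_zero] at hz
    rw [hF]
    refine setIntegral_eq_zero_of_forall_eq_zero fun v hv => ?_
    have h2 : ‖v - z‖ ≤ ρ := by rwa [mem_closedBall, dist_eq_norm] at hv
    have h3 : R ≤ ‖v‖ := by
      have h4 : ‖z‖ ≤ ‖v‖ + ‖v - z‖ := by
        calc ‖z‖ = ‖v - (v - z)‖ := by congr 1; ring
          _ ≤ _ := norm_sub_le _ _
      linarith
    rw [hs v h3, hs z (by linarith [hk.pos]), sub_self, abs_zero]
  have hFi : Integrable F (m N) := int_ball hFm hFb hFs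
  -- the pointwise bound
  have key : ∀ z, |mol k c (m N) (g N) z - g N z| ≤ c⁻¹ * κ * F z + e * g N z := by
    intro z
    have hkz : ∀ v, ρ ≤ ‖v - z‖ → k (z - v) = 0 := fun v hv => hk.supp _ (by rwa [norm_sub_rev])
    have i0 : Integrable (fun v => k (z - v)) (m N) := int_ball (w := z) (R := ρ) (C := κ) (k_meas hk z)
      (fun v => by rw [abs_of_nonneg (hk.nn _)]; exact hk.le _) hkz
    have i1 : Integrable (fun v => k (z - v) * g N v) (m N) :=
      int_ball (w := z) (R := ρ) ((k_meas hk z).mul (hg.meas N)) (kg_bd hk hb z) fun v hv => by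
        show k (z - v) * g N v = 0
        rw [hkz v hv, zero_mul]
    have e1 : mol k c (m N) (g N) z - g N z = c⁻¹ * ∫ v, k (z - v) * (g N v - g N z) ∂(m N) +
        g N z * (c⁻¹ * ∫ v, k (z - v) ∂(m N) - 1) := by
      have e2 : ∫ v, k (z - v) * (g N v - g N z) ∂(m N) = ∫ v, k (z - v) * g N v ∂(m N) - g N z * ∫ v, k (z - v) ∂(m N) := by
        rw [← integral_const_mul, ← integral_sub i1 (i0.const_mul _)]
        refine integral_congr_ae (ae_of_all _ fun v => ?_)
        show k (z - v) * (g N v - g N z) = k (z - v) * g N v - g N z * k (z - v)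
        ring
      rw [e2]
      unfold mol
      ring
    rw [e1]
    refine (abs_add_le _ _).trans (add_le_add ?_ ?_)
    · rw [abs_mul, abs_of_pos (inv_pos.2 hc), mul_assoc]
      refine mul_le_mul_of_nonneg_left ?_ (inv_pos.2 hc).le
      refine abs_integral_le_integral_abs.trans ?_
      have e3 : ∫ v, |k (z - v) * (g N v - g N z)| ∂(m N) = ∫ v in closedBall z ρ, |k (z - v) * (g N v - g N z)| ∂(m N) := by
        symm
        refine setIntegral_eq_integral_of_forall_compl_eq_zero fun v hv => ?_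
        rw [mem_closedBall, dist_eq_norm, not_le] at hv
        rw [hkz v hv.le, zero_mul, abs_zero]
      rw [e3, hF]
      simp only
      rw [← integral_const_mul]
      refine setIntegral_mono_on ?_ ?_ isClosed_closedBall.measurableSet fun v _ => ?_
      · refine Measure.integrableOn_of_bounded (isCompact_closedBall z ρ).measure_lt_top.ne
          (((k_meas hk z).mul ((hg.meas N).sub measurable_const)).abs.aestronglyMeasurable) (M := κ * C) (ae_of_all _ fun v => ?_)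
        rw [Real.norm_eq_abs, abs_abs, abs_mul, abs_of_nonneg (hk.nn _)]
        exact mul_le_mul (hk.le _) (hgd v z) (abs_nonneg _) hκ0
      · refine (Measure.integrableOn_of_bounded (isCompact_closedBall z ρ).measure_lt_top.ne
          (((hg.meas N).sub measurable_const).abs.aestronglyMeasurable) (M := C) (ae_of_all _ fun v => ?_)).const_mul κ
        rw [Real.norm_eq_abs, abs_abs]
        exact hgd v z
      · rw [abs_mul, abs_of_nonneg (hk.nn _)]
        exact mul_le_mul_of_nonneg_right (hk.le _) (abs_nonneg _)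
    · rw [abs_mul, abs_of_nonneg (hb z).1]
      by_cases hz : ‖z‖ ≤ R
      · rw [mul_comm]
        exact mul_le_mul_of_nonneg_right (hN z hz) (hb z).1
      · rw [not_le] at hz
        rw [hs z hz.le, zero_mul, mul_zero]
  have ig : Integrable (g N) (m N) := int_ball (w := 0) (R := R) (C := C) (hg.meas N)
    (fun v => by rw [abs_of_nonneg (hb v).1]; exact (hb v).2) fun v hv => hs v (by rwa [sub_zero] at hv)
  have h2 : ∫ z, |mol k c (m N) (g N) z - g N z| ∂(m N) ≤ ∫ z, (c⁻¹ * κ * F z + e * g N z) ∂(m N) := by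
    refine integral_mono_of_nonneg (ae_of_all _ fun _ => abs_nonneg _) ((hFi.const_mul _).add (ig.const_mul _)) (ae_of_all _ key)
  refine h2.trans ?_
  rw [integral_add (hFi.const_mul _) (ig.const_mul _), integral_const_mul, integral_const_mul]
  have h3 : ∫ z, g N z ∂(m N) ≤ C * (|K| + 1) := by
    have h4 := int_ball_le (m := m N) (w := 0) (R := R) (C := C) (hg.meas N)
      (fun v => by rw [abs_of_nonneg (hb v).1]; exact (hb v).2) fun v hv => hs v (by rwa [sub_zero] at hv)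
    have h5 : ∫ z, g N z ∂(m N) ≤ ∫ z, |g N z| ∂(m N) := (le_abs_self _).trans abs_integral_le_integral_abs
    refine h5.trans (h4.trans (mul_le_mul_of_nonneg_left ?_ hC))
    exact (hK' 0).trans ((le_abs_self K).trans (by linarith))
  have h4 : c⁻¹ * κ * ∫ z, F z ∂(m N) ≤ ε / 2 := by
    have h5 : ∫ z, F z ∂(m N) ≤ ε * c / (2 * (M + 1)) * ρ ^ 2 := by rw [hF]; exact hal
    calc c⁻¹ * κ * ∫ z, F z ∂(m N) ≤ c⁻¹ * κ * (ε * c / (2 * (M + 1)) * ρ ^ 2) :=
          mul_le_mul_of_nonneg_left h5 (mul_nonneg (inv_pos.2 hc).le hκ0)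
      _ = (κ * ρ ^ 2) * (ε / (2 * (M + 1))) := by
          field_simp
      _ ≤ (M + 1) * (ε / (2 * (M + 1))) := mul_le_mul_of_nonneg_right (by linarith) (by positivity)
      _ = ε / 2 := by
          field_simp
  have h5 : e * ∫ z, g N z ∂(m N) ≤ ε / 2 := by
    calc e * ∫ z, g N z ∂(m N) ≤ e * (C * (|K| + 1)) := mul_le_mul_of_nonneg_left h3 he0.le
      _ ≤ e * ((C + 1) * (|K| + 1)) := by
          refine mul_le_mul_of_nonneg_left ?_ he0.le
          exact mul_le_mul_of_nonneg_right (by linarith) (by positivity)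
      _ = ε / 2 := by
          rw [he]
          field_simp
  linarith

end Pool.Agent.ROT.F3
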