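import Mathlib

/-!
ROT/F3LimS: limits of lattice sums with asymptotically equicontinuous weights.
-/

set_option autoImplicit false

open Filter Topology MeasureTheory Set TopologicalSpace

namespace Pool.Agent.ROT.F3L

/-- asymptotic equicontinuity. -/
def AEq (f : ℕ → ℂ → ℝ) : Prop := ∀ ε : ℝ, 0 < ε → ∃ η : ℝ, 0 < η ∧ ∃ N0 : ℕ, ∀ N, N0 ≤ N → ∀ z w : ℂ, ‖z - w‖ ≤ η →
  |f N z - f N w| ≤ ε

/-- convergence along a filter, uniformly on every ball. -/
def LU (l : Filter ℕ) (f : ℕ → ℂ → ℝ) (g : ℂ → ℝ) : Prop := ∀ R ε : ℝ, 0 < ε → ∀ᶠ N in l, ∀ z : ℂ, ‖z‖ ≤ R →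
  |f N z - g z| ≤ ε

lemma AEq.comp {f : ℕ → ℂ → ℝ} (h : AEq f) {φ : ℕ → ℕ} (hφ : StrictMono φ) : AEq (fun N => f (φ N)) := by
  intro ε hε
  obtain ⟨η, hη, N0, h1⟩ := h ε hε
  exact ⟨η, hη, N0, fun N hN => h1 (φ N) (hN.trans (hφ.id_le N))⟩

lemma LU.tendsto {l : Filter ℕ} {f : ℕ → ℂ → ℝ} {g : ℂ → ℝ} (h : LU l f g) (z : ℂ) :
    Tendsto (fun N => f N z) l (𝓝 (g z)) := by
  rw [Metric.tendsto_nhds]
  intro ε hε
  filter_upwards [h ‖z‖ (ε / 2) (by positivity)] with N hN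
  rw [Real.dist_eq]
  linarith [hN z le_rfl]

lemma LU.comp {l l' : Filter ℕ} {f : ℕ → ℂ → ℝ} {g : ℂ → ℝ} (h : LU l f g) {φ : ℕ → ℕ} (hφ : Tendsto φ l' l) :
    LU l' (fun N => f (φ N)) g := fun R ε hε => hφ.eventually (h R ε hε)

lemma LU.mono {l l' : Filter ℕ} {f : ℕ → ℂ → ℝ} {g : ℂ → ℝ} (h : LU l f g) (hl : l' ≤ l) : LU l' f g :=
  fun R ε hε => hl (h R ε hε)

/-- the limit of an asymptotically equicontinuous sequence that converges at every point. -/
lemma lu_pt {l : Filter ℕ} [NeBot l] (hl : l ≤ atTop) {f : ℕ → ℂ → ℝ} (he : AEq f) {g : ℂ → ℝ}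
    (hg : ∀ z, Tendsto (fun N => f N z) l (𝓝 (g z))) : UniformContinuous g ∧ LU l f g := by
  have hu : ∀ ε : ℝ, 0 < ε → ∃ η : ℝ, 0 < η ∧ ∀ z w : ℂ, ‖z - w‖ ≤ η → |g z - g w| ≤ ε := by
    intro ε hε
    obtain ⟨η, hη, N0, h1⟩ := he ε hε
    refine ⟨η, hη, fun z w hzw => ?_⟩
    have h2 : Tendsto (fun N => |f N z - f N w|) l (𝓝 |g z - g w|) := ((hg z).sub (hg w)).abs
    exact le_of_tendsto h2 (hl (eventually_atTop.2 ⟨N0, fun N hN => h1 N hN z w hzw⟩))
  refine ⟨?_, ?_⟩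
  · rw [Metric.uniformContinuous_iff]
    intro ε hε
    obtain ⟨η, hη, h1⟩ := hu (ε / 2) (by positivity)
    refine ⟨η, hη, fun z w hzw => ?_⟩
    rw [Real.dist_eq]
    rw [dist_eq_norm] at hzw
    linarith [h1 z w hzw.le]
  · intro R ε hε
    obtain ⟨η1, hη1, N1, h1⟩ := he (ε / 3) (by positivity)
    obtain ⟨η2, hη2, h2⟩ := hu (ε / 3) (by positivity)
    have hK : IsCompact (Metric.closedBall (0 : ℂ) R) := isCompact_closedBall 0 R
    obtain ⟨t, -, ht, hcov⟩ := hK.finite_cover_balls (lt_min hη1 hη2)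
    have h3 : ∀ x ∈ t, ∀ᶠ N in l, |f N x - g x| ≤ ε / 3 := by
      intro x _
      filter_upwards [Metric.tendsto_nhds.1 (hg x) (ε / 3) (by positivity)] with N hN
      rw [Real.dist_eq] at hN
      exact hN.le
    filter_upwards [(eventually_all_finite ht).2 h3, hl (eventually_ge_atTop N1)] with N h4 hN z hz
    have hz' : z ∈ Metric.closedBall (0 : ℂ) R := by simpa using hz
    obtain ⟨x, hx, hzx⟩ := Set.mem_iUnion₂.1 (hcov hz')
    rw [Metric.mem_ball, dist_eq_norm] at hzx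
    have h5 := h1 N hN z x (hzx.le.trans (min_le_left _ _))
    have h6 := h2 z x (hzx.le.trans (min_le_right _ _))
    have h7 := h4 x hx
    rw [abs_le] at *
    constructor <;> linarith [h5.1, h5.2, h6.1, h6.2, h7.1, h7.2]

/-- the limit along an ultrafilter. -/
theorem uf_lim {U : Ultrafilter ℕ} (hU : (U : Filter ℕ) ≤ atTop) {f : ℕ → ℂ → ℝ} {C : ℝ} (hC : ∀ N z, |f N z| ≤ C)
    (he : AEq f) : ∃ g : ℂ → ℝ, UniformContinuous g ∧ (∀ z, |g z| ≤ C) ∧ LU U f g := by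
  have h1 : ∀ z, ∃ a, Tendsto (fun N => f N z) U (𝓝 a) := by
    intro z
    obtain ⟨a, -, ha⟩ := (isCompact_Icc (a := -C) (b := C)).ultrafilter_le_nhds (U.map fun N => f N z) (by
      rw [le_principal_iff, Ultrafilter.mem_coe, Ultrafilter.mem_map]
      exact Filter.univ_mem' fun N => abs_le.1 (hC N z))
    exact ⟨a, ha⟩
  choose g hg using h1
  obtain ⟨h2, h3⟩ := lu_pt hU he hg
  exact ⟨g, h2, fun z => le_of_tendsto (hg z).abs (Eventually.of_forall fun N => hC N z), h3⟩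

/-- the limit of an asymptotically equicontinuous sequence that converges at the points of a dense set. -/
lemma lu_of {f : ℕ → ℂ → ℝ} (he : AEq f) (D : ℕ → ℂ) (hD : DenseRange D) {a : ℕ → ℝ}
    (ha : ∀ j, Tendsto (fun N => f N (D j)) atTop (𝓝 (a j))) : ∃ g : ℂ → ℝ, UniformContinuous g ∧ LU atTop f g := by
  have hc : ∀ z, CauchySeq fun N => f N z := by
    intro z
    rw [Metric.cauchySeq_iff']
    intro ε hε
    obtain ⟨η, hη, N0, h1⟩ := he (ε / 4) (by positivity)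
    obtain ⟨j, hj⟩ := hD.exists_dist_lt z hη
    obtain ⟨N1, h2⟩ := Metric.cauchySeq_iff'.1 (ha j).cauchySeq (ε / 4) (by positivity)
    refine ⟨max N0 N1, fun N hN => ?_⟩
    have h3 := h1 N (le_of_max_le_left hN) z (D j) (by rw [← dist_eq_norm]; exact hj.le)
    have h4 := h1 (max N0 N1) (le_max_left _ _) z (D j) (by rw [← dist_eq_norm]; exact hj.le)
    have h5 := h2 N (le_of_max_le_right hN)
    have h6 := h2 (max N0 N1) (le_max_right _ _)
    rw [Real.dist_eq] at *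
    rw [abs_le] at h3 h4
    rw [abs_lt] at *
    constructor <;> linarith [h3.1, h3.2, h4.1, h4.2, h5.1, h5.2, h6.1, h6.2]
  choose g hg using fun z => cauchySeq_tendsto_of_complete (hc z)
  exact ⟨g, lu_pt le_rfl he hg⟩

/-- Arzela-Ascoli for countably many asymptotically equicontinuous bounded sequences. -/
theorem asc (f : ℕ → ℕ → ℂ → ℝ) (C : ℕ → ℝ) (hb : ∀ k N z, |f k N z| ≤ C k) (he : ∀ k, AEq (f k)) :
    ∃ φ : ℕ → ℕ, StrictMono φ ∧ ∃ g : ℕ → ℂ → ℝ, (∀ k, UniformContinuous (g k)) ∧ (∀ k z, |g k z| ≤ C k) ∧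
      ∀ k, LU atTop (fun N => f k (φ N)) (g k) := by
  obtain ⟨D, hD⟩ : ∃ D : ℕ → ℂ, DenseRange D := TopologicalSpace.exists_dense_seq ℂ
  have hK : IsCompact (Set.pi Set.univ fun p : ℕ × ℕ => Set.Icc (-(C p.1)) (C p.1)) :=
    isCompact_univ_pi fun p => isCompact_Icc
  obtain ⟨a, -, φ, hφ, ha⟩ := hK.tendsto_subseq (x := fun N => fun p : ℕ × ℕ => f p.1 N (D p.2))
    (fun N p _ => abs_le.1 (hb p.1 N (D p.2)))
  have h1 : ∀ k, ∃ g : ℂ → ℝ, UniformContinuous g ∧ LU atTop (fun N => f k (φ N)) g := by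
    intro k
    refine lu_of ((he k).comp hφ) D hD (a := fun j => a (k, j)) fun j => ?_
    exact (tendsto_pi_nhds.1 ha) (k, j)
  choose g hg1 hg2 using h1
  refine ⟨φ, hφ, g, hg1, fun k z => ?_, hg2⟩
  have h2 : Tendsto (fun N => |f k (φ N) z|) atTop (𝓝 |g k z|) := ((hg2 k).tendsto z).abs
  exact le_of_tendsto h2 (Eventually.of_forall fun N => hb k (φ N) z)

/-- vague convergence along a filter. -/
def Vag (l : Filter ℕ) (m : ℕ → Measure ℂ) (μ : Measure ℂ) : Prop := ∀ χ : ℂ → ℝ, Continuous χ → HasCompactSupport χ →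
  Tendsto (fun N => ∫ z, χ z ∂(m N)) l (𝓝 (∫ z, χ z ∂μ))

lemma Vag.mono {l l' : Filter ℕ} {m : ℕ → Measure ℂ} {μ : Measure ℂ} (h : Vag l m μ) (hl : l' ≤ l) : Vag l' m μ :=
  fun χ h1 h2 => (h χ h1 h2).mono_left hl

/-- the normalised measure. -/
noncomputable def nrm (ψ : ℂ → ℝ) (z0 : ℂ) (ν : Measure ℂ) : Measure ℂ :=
  (ENNReal.ofReal ((∫ z, ψ z ∂ν) + 1))⁻¹ • (ν.withDensity (fun z => ENNReal.ofReal (ψ z)) + Measure.dirac z0)

lemma nrm_mass {ψ : ℂ → ℝ} (hψ : Continuous ψ) (hψc : HasCompactSupport ψ) (hψ0 : ∀ z, 0 ≤ ψ z) (z0 : ℂ)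
    (ν : Measure ℂ) [IsFiniteMeasureOnCompacts ν] : IsProbabilityMeasure (nrm ψ z0 ν) := by
  constructor
  unfold nrm
  rw [Measure.smul_apply, Measure.add_apply, withDensity_apply _ MeasurableSet.univ, Measure.restrict_univ,
    ← ofReal_integral_eq_lintegral_ofReal (hψ.integrable_of_hasCompactSupport hψc) (Eventually.of_forall hψ0),
    measure_univ, ← ENNReal.ofReal_one, ← ENNReal.ofReal_add (integral_nonneg hψ0) zero_le_one, smul_eq_mul]
  have h0 : 0 ≤ ∫ z, ψ z ∂ν := integral_nonneg hψ0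
  have h1 : (0 : ℝ) < (∫ z, ψ z ∂ν) + 1 := by linarith
  exact (ENNReal.inv_mul_cancel (ENNReal.ofReal_pos.2 h1).ne' ENNReal.ofReal_ne_top).trans ENNReal.ofReal_one.symm

lemma int_nrm {ψ : ℂ → ℝ} (hψ : Continuous ψ) (hψc : HasCompactSupport ψ) (hψ0 : ∀ z, 0 ≤ ψ z) (z0 : ℂ)
    (ν : Measure ℂ) [IsFiniteMeasureOnCompacts ν] {f : ℂ → ℝ} (hf : Continuous f) :
    ∫ z, f z ∂(nrm ψ z0 ν) = ((∫ z, ψ z ∂ν) + 1)⁻¹ * ((∫ z, ψ z * f z ∂ν) + f z0) := by
  have h0 : 0 ≤ ∫ z, ψ z ∂ν := integral_nonneg hψ0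
  have hm : Measurable (fun z => ENNReal.ofReal (ψ z)) := hψ.measurable.ennreal_ofReal
  have hcs : HasCompactSupport fun z => ψ z * f z := hψc.mul_right
  have hi : Integrable (fun z => ψ z * f z) ν := (hψ.mul hf).integrable_of_hasCompactSupport hcs
  have hi1 : Integrable f (ν.withDensity fun z => ENNReal.ofReal (ψ z)) := by
    rw [integrable_withDensity_iff_integrable_smul₀' hm.aemeasurable (Eventually.of_forall fun z => ENNReal.ofReal_lt_top)]
    refine hi.congr (Eventually.of_forall fun z => ?_)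
    simp only [smul_eq_mul, ENNReal.toReal_ofReal (hψ0 z)]
  unfold nrm
  rw [integral_smul_measure, integral_add_measure hi1 (integrable_dirac (by simp)), integral_dirac,
    integral_withDensity_eq_integral_toReal_smul hm (Eventually.of_forall fun z => ENNReal.ofReal_lt_top),
    ENNReal.toReal_inv, ENNReal.toReal_ofReal (by linarith), smul_eq_mul]
  congr 2
  refine integral_congr_ae (Eventually.of_forall fun z => ?_)
  simp only [smul_eq_mul, ENNReal.toReal_ofReal (hψ0 z)]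

section three

variable {A B : Type*} [TopologicalSpace A] [SecondCountableTopology A] [PseudoMetrizableSpace A] [MeasurableSpace A]
  [OpensMeasurableSpace A] [TopologicalSpace B] [SecondCountableTopology B] [PseudoMetrizableSpace B]
  [MeasurableSpace B] [OpensMeasurableSpace B]

/-- a cut-off. -/
lemma bump (R : ℝ) : ∃ ψ : ℂ → ℝ, Continuous ψ ∧ HasCompactSupport ψ ∧ (∀ z, 0 ≤ ψ z) ∧ (∀ z, ψ z ≤ 1) ∧
    (∀ z, ‖z‖ ≤ R → ψ z = 1) ∧ ∀ z, R + 1 ≤ ‖z‖ → ψ z = 0 := by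
  refine ⟨fun z => max 0 (min 1 (R + 1 - ‖z‖)), by fun_prop, ?_, fun z => le_max_left _ _, fun z => ?_, fun z hz => ?_,
    fun z hz => ?_⟩
  · refine HasCompactSupport.intro (isCompact_closedBall (0 : ℂ) (R + 1)) fun z hz => ?_
    rw [Metric.mem_closedBall, dist_zero_right, not_le] at hz
    exact max_eq_left ((min_le_right _ _).trans (by linarith))
  · exact max_le zero_le_one (min_le_left _ _)
  · dsimp only
    rw [min_eq_left (by linarith), max_eq_right zero_le_one]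
  · exact max_eq_left ((min_le_right _ _).trans (by linarith))

/-- integrability of bounded functions with bounded support in the third variable. -/
lemma int3 (μA : Measure A) [IsProbabilityMeasure μA] (μB : Measure B) [IsProbabilityMeasure μB] (ν : Measure ℂ)
    [IsFiniteMeasureOnCompacts ν] [SFinite ν] {G : A × B × ℂ → ℝ} (hG : AEStronglyMeasurable G (μA.prod (μB.prod ν)))
    {K R : ℝ} (hK : ∀ p, |G p| ≤ K) (hR : ∀ p : A × B × ℂ, R < ‖p.2.2‖ → G p = 0) :
    Integrable G (μA.prod (μB.prod ν)) := by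
  have hs : MeasurableSet {p : A × B × ℂ | ‖p.2.2‖ ≤ R} :=
    measurableSet_le (by fun_prop) measurable_const
  have hfin : (μA.prod (μB.prod ν)) {p : A × B × ℂ | ‖p.2.2‖ ≤ R} < ⊤ := by
    have h1 : {p : A × B × ℂ | ‖p.2.2‖ ≤ R} = Set.univ ×ˢ (Set.univ ×ˢ Metric.closedBall (0 : ℂ) R) := by
      ext p
      simp
    rw [h1, Measure.prod_prod, Measure.prod_prod, measure_univ, measure_univ, one_mul, one_mul]
    exact (isCompact_closedBall (0 : ℂ) R).measure_lt_top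
  have h2 : Integrable (Set.indicator {p : A × B × ℂ | ‖p.2.2‖ ≤ R} fun _ => K) (μA.prod (μB.prod ν)) := by
    rw [integrable_indicator_iff hs]
    exact integrableOn_const hfin.ne
  refine h2.mono' hG (Eventually.of_forall fun p => ?_)
  rw [Real.norm_eq_abs]
  by_cases hp : ‖p.2.2‖ ≤ R
  · rw [Set.indicator_of_mem (show p ∈ {p : A × B × ℂ | ‖p.2.2‖ ≤ R} from hp)]
    exact hK p
  · rw [Set.indicator_of_notMem (show p ∉ {p : A × B × ℂ | ‖p.2.2‖ ≤ R} from hp), hR p (not_le.1 hp), abs_zero]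

/-- convergence for continuous functions with bounded support in the third variable. -/
theorem lim3 {l : Filter ℕ} {bA : ℕ → ProbabilityMeasure A} {a0 : ProbabilityMeasure A} (hA : Tendsto bA l (𝓝 a0))
    {bB : ℕ → ProbabilityMeasure B} {b0 : ProbabilityMeasure B} (hB : Tendsto bB l (𝓝 b0))
    {m : ℕ → Measure ℂ} [∀ N, IsFiniteMeasureOnCompacts (m N)] {μ : Measure ℂ} [IsFiniteMeasureOnCompacts μ]
    (hm : Vag l m μ) {G : A × B × ℂ → ℝ} (hG : Continuous G) {K R : ℝ} (hK : ∀ p, |G p| ≤ K)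
    (hR : ∀ p : A × B × ℂ, R < ‖p.2.2‖ → G p = 0) :
    Tendsto (fun N => ∫ p, G p ∂((bA N : Measure A).prod ((bB N : Measure B).prod (m N)))) l
      (𝓝 (∫ p, G p ∂((a0 : Measure A).prod ((b0 : Measure B).prod μ)))) := by
  obtain ⟨ψ, hψ, hψc, hψ0, hψ1, hψR, hψR1⟩ := bump R
  obtain ⟨z0, hz0⟩ : ∃ z0 : ℂ, R + 1 ≤ ‖z0‖ := ⟨((|R| + 1 : ℝ) : ℂ), by
    rw [Complex.norm_real, Real.norm_eq_abs, abs_of_nonneg (by positivity)]
    linarith [le_abs_self R]⟩
  -- the identity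
  have hid : ∀ (μA : Measure A) [IsProbabilityMeasure μA] (μB : Measure B) [IsProbabilityMeasure μB] (ν : Measure ℂ)
      [IsFiniteMeasureOnCompacts ν], ∫ p, G p ∂(μA.prod (μB.prod (nrm ψ z0 ν))) =
        ((∫ z, ψ z ∂ν) + 1)⁻¹ * ∫ p, G p ∂(μA.prod (μB.prod ν)) := by
    intro μA _ μB _ ν _
    have : IsProbabilityMeasure (nrm ψ z0 ν) := nrm_mass hψ hψc hψ0 z0 ν
    have hi1 : Integrable G (μA.prod (μB.prod (nrm ψ z0 ν))) := int3 μA μB _ hG.aestronglyMeasurable hK hR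
    have hi2 : Integrable G (μA.prod (μB.prod ν)) := int3 μA μB _ hG.aestronglyMeasurable hK hR
    rw [integral_prod _ hi1, integral_prod _ hi2, ← integral_const_mul]
    refine integral_congr_ae ?_
    filter_upwards [hi1.prod_right_ae, hi2.prod_right_ae] with a h1 h2
    rw [integral_prod _ h1, integral_prod _ h2, ← integral_const_mul]
    refine integral_congr_ae (Eventually.of_forall fun b => ?_)
    have hc : Continuous fun z => G (a, b, z) := by fun_prop
    have h3 := int_nrm hψ hψc hψ0 z0 ν hc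
    have h4 : G (a, b, z0) = 0 := hR (a, b, z0) (by simpa using by linarith)
    have h5 : ∀ z, ψ z * G (a, b, z) = G (a, b, z) := by
      intro z
      by_cases hz : ‖z‖ ≤ R
      · rw [hψR z hz, one_mul]
      · rw [hR (a, b, z) (not_le.1 hz), mul_zero]
    simp only [h4, h5, add_zero] at h3
    exact h3
  have : ∀ N, IsProbabilityMeasure (nrm ψ z0 (m N)) := fun N => nrm_mass hψ hψc hψ0 z0 (m N)
  have : IsProbabilityMeasure (nrm ψ z0 μ) := nrm_mass hψ hψc hψ0 z0 μ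
  obtain ⟨p, hp⟩ : ∃ p : ℕ → ProbabilityMeasure ℂ, ∀ N, (p N : Measure ℂ) = nrm ψ z0 (m N) :=
    ⟨fun N => ⟨nrm ψ z0 (m N), inferInstance⟩, fun N => rfl⟩
  obtain ⟨q, hq⟩ : ∃ q : ProbabilityMeasure ℂ, (q : Measure ℂ) = nrm ψ z0 μ := ⟨⟨nrm ψ z0 μ, inferInstance⟩, rfl⟩
  have hM : Tendsto (fun N => ∫ z, ψ z ∂(m N)) l (𝓝 (∫ z, ψ z ∂μ)) := hm ψ hψ hψc
  have h0 : 0 ≤ ∫ z, ψ z ∂μ := integral_nonneg hψ0
  have hpq : Tendsto p l (𝓝 q) := by
    rw [ProbabilityMeasure.tendsto_iff_forall_integral_tendsto]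
    intro f
    rw [hq]
    simp only [hp]
    rw [int_nrm hψ hψc hψ0 z0 μ f.continuous]
    have h1 : ∀ N, ∫ z, f z ∂(nrm ψ z0 (m N)) = ((∫ z, ψ z ∂(m N)) + 1)⁻¹ * ((∫ z, ψ z * f z ∂(m N)) + f z0) :=
      fun N => int_nrm hψ hψc hψ0 z0 (m N) f.continuous
    simp only [h1]
    refine Tendsto.mul (Tendsto.inv₀ (hM.add_const 1) (by linarith)) (Tendsto.add_const _ ?_)
    exact hm _ (hψ.mul f.continuous) hψc.mul_right
  have hprod : Tendsto (fun N => (bA N).prod ((bB N).prod (p N))) l (𝓝 (a0.prod (b0.prod q))) := by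
    have h1 : Tendsto (fun N => (bB N).prod (p N)) l (𝓝 (b0.prod q)) :=
      (ProbabilityMeasure.continuous_prod.tendsto (b0, q)).comp (hB.prodMk_nhds hpq)
    exact (ProbabilityMeasure.continuous_prod.tendsto (a0, b0.prod q)).comp (hA.prodMk_nhds h1)
  have h1 : Tendsto (fun N => ∫ x, G x ∂((bA N : Measure A).prod ((bB N : Measure B).prod (nrm ψ z0 (m N))))) l
      (𝓝 (∫ x, G x ∂((a0 : Measure A).prod ((b0 : Measure B).prod (nrm ψ z0 μ))))) := by
    have h2 := (ProbabilityMeasure.tendsto_iff_forall_integral_tendsto.1 hprod)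
      (BoundedContinuousFunction.ofNormedAddCommGroup G hG K hK)
    simp only [ProbabilityMeasure.toMeasure_prod, hp, hq, BoundedContinuousFunction.coe_ofNormedAddCommGroup] at h2
    exact h2
  rw [hid] at h1
  have h2 : Tendsto (fun N => ((∫ z, ψ z ∂(m N)) + 1) *
      ∫ x, G x ∂((bA N : Measure A).prod ((bB N : Measure B).prod (nrm ψ z0 (m N))))) l
      (𝓝 (((∫ z, ψ z ∂μ) + 1) * (((∫ z, ψ z ∂μ) + 1)⁻¹ *
        ∫ x, G x ∂((a0 : Measure A).prod ((b0 : Measure B).prod μ))))) := (hM.add_const 1).mul h1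
  rw [mul_inv_cancel_left₀ (by linarith)] at h2
  refine h2.congr fun N => ?_
  rw [hid, mul_inv_cancel_left₀]
  have := integral_nonneg (μ := m N) (f := ψ) hψ0
  linarith

/-- the tail of the displacement. -/
lemma tail3 (a0 : ProbabilityMeasure A) (b0 : ProbabilityMeasure B) (μ : Measure ℂ) [IsFiniteMeasureOnCompacts μ]
    {yA : A → ℂ} (hyA : Continuous yA) {yB : B → ℂ} (hyB : Continuous yB) {ψ : ℂ → ℝ} (hψ : Continuous ψ)
    (hψ0 : ∀ z, 0 ≤ ψ z) (hψ1 : ∀ z, ψ z ≤ 1) {R : ℝ} (hψR : ∀ z, R < ‖z‖ → ψ z = 0) (ε : ℝ) (hε : 0 < ε) :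
    ∃ ξ : ℂ → ℝ, Continuous ξ ∧ (∀ w, 0 ≤ ξ w) ∧ (∀ w, ξ w ≤ 1) ∧ (∃ R1 : ℝ, ∀ w, R1 ≤ ‖w‖ → ξ w = 1) ∧
      ∫ p, ξ (p.2.2 + yA p.1 - yB p.2.1) * ψ p.2.2 ∂((a0 : Measure A).prod ((b0 : Measure B).prod μ)) < ε := by
  choose χ hχ hχc hχ0 hχ1 hχR hχR1 using fun n : ℕ => bump (n : ℝ)
  have hlim : Tendsto (fun n : ℕ => ∫ p, (1 - χ n (p.2.2 + yA p.1 - yB p.2.1)) * ψ p.2.2
      ∂((a0 : Measure A).prod ((b0 : Measure B).prod μ))) atTop (𝓝 (∫ p : A × B × ℂ, (0 : ℝ)
      ∂((a0 : Measure A).prod ((b0 : Measure B).prod μ)))) := by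
    refine tendsto_integral_of_dominated_convergence (fun p => ψ p.2.2) (fun n => ?_) ?_ (fun n => ?_) ?_
    · have : Continuous fun p : A × B × ℂ => (1 - χ n (p.2.2 + yA p.1 - yB p.2.1)) * ψ p.2.2 := by
        have := hχ n
        fun_prop
      exact this.aestronglyMeasurable
    · refine int3 _ _ _ (Continuous.aestronglyMeasurable (by fun_prop)) (K := 1) (R := R) (fun p => ?_)
        (fun p hp => hψR _ hp)
      rw [abs_of_nonneg (hψ0 _)]
      exact hψ1 _
    · refine Eventually.of_forall fun p => ?_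
      rw [Real.norm_eq_abs, abs_mul, abs_of_nonneg (hψ0 _), abs_of_nonneg (by linarith [hχ1 n (p.2.2 + yA p.1 - yB p.2.1)])]
      exact mul_le_of_le_one_left (hψ0 _) (by linarith [hχ0 n (p.2.2 + yA p.1 - yB p.2.1)])
    · refine Eventually.of_forall fun p => ?_
      obtain ⟨n0, hn0⟩ := exists_nat_ge ‖p.2.2 + yA p.1 - yB p.2.1‖
      refine tendsto_const_nhds.congr' ?_
      filter_upwards [eventually_ge_atTop n0] with n hn
      rw [hχR n _ (hn0.trans (by exact_mod_cast hn)), sub_self, zero_mul]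
  rw [integral_zero] at hlim
  obtain ⟨n, hn⟩ := (hlim.eventually (gt_mem_nhds hε)).exists
  refine ⟨fun w => 1 - χ n w, continuous_const.sub (hχ n), fun w => by linarith [hχ1 n w], fun w => by linarith [hχ0 n w],
    ⟨n + 1, fun w hw => ?_⟩, hn⟩
  dsimp only
  rw [hχR1 n w hw, sub_zero]

/-- **the limit of lattice sums.** -/
theorem sum_lim {l : Filter ℕ} [NeBot l] {bA : ℕ → ProbabilityMeasure A} {a0 : ProbabilityMeasure A} (hA : Tendsto bA l (𝓝 a0))
    {bB : ℕ → ProbabilityMeasure B} {b0 : ProbabilityMeasure B} (hB : Tendsto bB l (𝓝 b0))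
    {m : ℕ → Measure ℂ} [∀ N, IsFiniteMeasureOnCompacts (m N)] {μ : Measure ℂ} [IsFiniteMeasureOnCompacts μ]
    (hm : Vag l m μ) {yA : A → ℂ} (hyA : Continuous yA) {yB : B → ℂ} (hyB : Continuous yB)
    {g h : ℂ → ℝ} (hg : Continuous g) (hh : Continuous h) {gs hs : ℕ → ℂ → ℝ} {C : ℝ}
    (hgC : ∀ N z, |gs N z| ≤ C) (hhC : ∀ N z, |hs N z| ≤ C) (hLg : LU l gs g) (hLh : LU l hs h)
    {X : A × B × ℂ → ℝ} (hX : Continuous X) {K R : ℝ} (hK : ∀ p, |X p| ≤ K)
    (hR : ∀ p : A × B × ℂ, R < ‖p.2.2‖ → X p = 0)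
    (hmeas : ∀ N, AEStronglyMeasurable (fun p : A × B × ℂ => X p * (gs N p.2.2 * hs N (p.2.2 + yA p.1 - yB p.2.1)))
      ((bA N : Measure A).prod ((bB N : Measure B).prod (m N)))) :
    Tendsto (fun N => ∫ p, X p * (gs N p.2.2 * hs N (p.2.2 + yA p.1 - yB p.2.1))
      ∂((bA N : Measure A).prod ((bB N : Measure B).prod (m N)))) l
      (𝓝 (∫ p, X p * (g p.2.2 * h (p.2.2 + yA p.1 - yB p.2.1))
        ∂((a0 : Measure A).prod ((b0 : Measure B).prod μ)))) := by
  have hg1 : ∀ z, |g z| ≤ C := fun z => le_of_tendsto (hLg.tendsto z).abs (Eventually.of_forall fun N => hgC N z)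
  have hh1 : ∀ z, |h z| ≤ C := fun z => le_of_tendsto (hLh.tendsto z).abs (Eventually.of_forall fun N => hhC N z)
  have hC0 : 0 ≤ C := (abs_nonneg _).trans (hg1 0)
  have hcG : Continuous fun p : A × B × ℂ => X p * (g p.2.2 * h (p.2.2 + yA p.1 - yB p.2.1)) := by fun_prop
  have hK1 : 0 ≤ |K| := abs_nonneg K
  have hK2 : ∀ p, |X p| ≤ |K| := fun p => (hK p).trans (le_abs_self K)
  have hGK : ∀ p : A × B × ℂ, |X p * (g p.2.2 * h (p.2.2 + yA p.1 - yB p.2.1))| ≤ |K| * (C * C) := by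
    intro p
    rw [abs_mul, abs_mul]
    have h1 := hg1 p.2.2
    have h2 := hh1 (p.2.2 + yA p.1 - yB p.2.1)
    exact mul_le_mul (hK2 p) (mul_le_mul h1 h2 (abs_nonneg _) hC0) (by positivity) hK1
  have hFK : ∀ N, ∀ p : A × B × ℂ, |X p * (gs N p.2.2 * hs N (p.2.2 + yA p.1 - yB p.2.1))| ≤ |K| * (C * C) := by
    intro N p
    rw [abs_mul, abs_mul]
    have h1 := hgC N p.2.2
    have h2 := hhC N (p.2.2 + yA p.1 - yB p.2.1)
    exact mul_le_mul (hK2 p) (mul_le_mul h1 h2 (abs_nonneg _) hC0) (by positivity) hK1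
  have hmain := lim3 hA hB hm hcG hGK (R := R) fun p hp => by rw [hR p hp, zero_mul]
  obtain ⟨ψ, hψ, hψc, hψ0, hψ1, hψR, hψR1⟩ := bump R
  have hψR2 : ∀ z : ℂ, R + 1 < ‖z‖ → ψ z = 0 := fun z hz => hψR1 z hz.le
  -- the difference
  have hdiff : Tendsto (fun N => ∫ p, (X p * (gs N p.2.2 * hs N (p.2.2 + yA p.1 - yB p.2.1)) -
      X p * (g p.2.2 * h (p.2.2 + yA p.1 - yB p.2.1)))
      ∂((bA N : Measure A).prod ((bB N : Measure B).prod (m N)))) l (𝓝 0) := by
    have hψm : Tendsto (fun N => ∫ p : A × B × ℂ, ψ p.2.2 ∂((bA N : Measure A).prod ((bB N : Measure B).prod (m N))))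
        l (𝓝 (∫ p : A × B × ℂ, ψ p.2.2 ∂((a0 : Measure A).prod ((b0 : Measure B).prod μ)))) :=
      lim3 hA hB hm (by fun_prop) (K := 1) (R := R + 1) (fun p => by rw [abs_of_nonneg (hψ0 _)]; exact hψ1 _)
        fun p hp => hψR2 _ hp
    obtain ⟨M, hM⟩ : ∃ M : ℝ, M = (∫ p : A × B × ℂ, ψ p.2.2 ∂((a0 : Measure A).prod ((b0 : Measure B).prod μ))) + 1 :=
      ⟨_, rfl⟩
    have hM0 : 0 < M := by
      rw [hM]
      have : 0 ≤ ∫ p : A × B × ℂ, ψ p.2.2 ∂((a0 : Measure A).prod ((b0 : Measure B).prod μ)) :=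
        integral_nonneg fun p => hψ0 _
      linarith
    rw [Metric.tendsto_nhds]
    intro ε hε
    obtain ⟨ξ, hξ, hξ0, hξ1, ⟨R1, hξR⟩, hξi⟩ := tail3 a0 b0 μ hyA hyB hψ hψ0 hψ1 hψR2
      (ε / (4 * (|K| * (2 * (C * C)) + 1))) (by positivity)
    have hξm := lim3 hA hB hm (G := fun p : A × B × ℂ => ξ (p.2.2 + yA p.1 - yB p.2.1) * ψ p.2.2) (by fun_prop)
      (K := 1) (R := R + 1) (fun p => by
        rw [abs_of_nonneg (mul_nonneg (hξ0 _) (hψ0 _))]
        exact mul_le_one₀ (hξ1 _) (hψ0 _) (hψ1 _)) fun p hp => by rw [hψR2 _ hp, mul_zero]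
    obtain ⟨ε1, hε1⟩ : ∃ ε1 : ℝ, ε1 = ε / (4 * (|K| * C + 1) * M) := ⟨_, rfl⟩
    have hε10 : 0 < ε1 := by rw [hε1]; positivity
    filter_upwards [hξm.eventually (gt_mem_nhds hξi), hψm.eventually (gt_mem_nhds (show _ < M by rw [hM]; linarith)),
      hLg R ε1 hε10, hLh R1 ε1 hε10] with N hNa hNb hNc hNd
    have hpt : ∀ p : A × B × ℂ, |X p * (gs N p.2.2 * hs N (p.2.2 + yA p.1 - yB p.2.1)) -
        X p * (g p.2.2 * h (p.2.2 + yA p.1 - yB p.2.1))| ≤
        |K| * C * (2 * ε1) * ψ p.2.2 + |K| * (2 * (C * C)) * (ξ (p.2.2 + yA p.1 - yB p.2.1) * ψ p.2.2) := by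
      intro p
      obtain ⟨w, hw⟩ : ∃ w, w = p.2.2 + yA p.1 - yB p.2.1 := ⟨_, rfl⟩
      rw [← hw]
      have hr0 : 0 ≤ |K| * C * (2 * ε1) * ψ p.2.2 + |K| * (2 * (C * C)) * (ξ w * ψ p.2.2) := by
        have := hψ0 p.2.2
        have := hξ0 w
        positivity
      by_cases hp : ‖p.2.2‖ ≤ R
      · rw [hψR _ hp, mul_one, mul_one]
        have h1 := hNc p.2.2 hp
        have h2 := hgC N p.2.2
        have h3 := hhC N w
        have h4 := hg1 p.2.2
        have h5 := hh1 w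
        have h6 : X p * (gs N p.2.2 * hs N w) - X p * (g p.2.2 * h w) =
            X p * ((gs N p.2.2 - g p.2.2) * hs N w + g p.2.2 * (hs N w - h w)) := by ring
        rw [h6, abs_mul]
        by_cases hw1 : ‖w‖ ≤ R1
        · have h7 := hNd w hw1
          have h8 : |(gs N p.2.2 - g p.2.2) * hs N w + g p.2.2 * (hs N w - h w)| ≤ ε1 * C + C * ε1 := by
            refine (abs_add_le _ _).trans ?_
            rw [abs_mul, abs_mul]
            exact add_le_add (mul_le_mul h1 h3 (abs_nonneg _) hε10.le) (mul_le_mul h4 h7 (abs_nonneg _) hC0)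
          have h9 : |X p| * |(gs N p.2.2 - g p.2.2) * hs N w + g p.2.2 * (hs N w - h w)| ≤
              |K| * (ε1 * C + C * ε1) := mul_le_mul (hK2 p) h8 (abs_nonneg _) hK1
          have h10 : 0 ≤ |K| * (2 * (C * C)) * ξ w := by
            have := hξ0 w
            positivity
          linarith
        · have h7 : ξ w = 1 := hξR w (not_le.1 hw1).le
          rw [h7, mul_one]
          have h8 : |(gs N p.2.2 - g p.2.2) * hs N w + g p.2.2 * (hs N w - h w)| ≤ ε1 * C + C * (C + C) := by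
            refine (abs_add_le _ _).trans ?_
            rw [abs_mul, abs_mul]
            exact add_le_add (mul_le_mul h1 h3 (abs_nonneg _) hε10.le)
              (mul_le_mul h4 ((abs_sub _ _).trans (add_le_add h3 h5)) (abs_nonneg _) hC0)
          have h9 : |X p| * |(gs N p.2.2 - g p.2.2) * hs N w + g p.2.2 * (hs N w - h w)| ≤
              |K| * (ε1 * C + C * (C + C)) := mul_le_mul (hK2 p) h8 (abs_nonneg _) hK1
          have h10 : 0 ≤ |K| * C * ε1 := by positivity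
          linarith
      · rw [hR p (not_le.1 hp)]
        simpa using hr0
    rw [Real.dist_eq, sub_zero]
    have hi1 : Integrable (fun p : A × B × ℂ => ψ p.2.2) ((bA N : Measure A).prod ((bB N : Measure B).prod (m N))) :=
      int3 _ _ _ (Continuous.aestronglyMeasurable (by fun_prop)) (K := 1) (R := R + 1)
        (fun p => by rw [abs_of_nonneg (hψ0 _)]; exact hψ1 _) fun p hp => hψR2 _ hp
    have hi2 : Integrable (fun p : A × B × ℂ => ξ (p.2.2 + yA p.1 - yB p.2.1) * ψ p.2.2)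
        ((bA N : Measure A).prod ((bB N : Measure B).prod (m N))) :=
      int3 _ _ _ (Continuous.aestronglyMeasurable (by fun_prop)) (K := 1) (R := R + 1)
        (fun p => by
          rw [abs_of_nonneg (mul_nonneg (hξ0 _) (hψ0 _))]
          exact mul_le_one₀ (hξ1 _) (hψ0 _) (hψ1 _)) fun p hp => by rw [hψR2 _ hp, mul_zero]
    have hbd : |∫ p, (X p * (gs N p.2.2 * hs N (p.2.2 + yA p.1 - yB p.2.1)) -
        X p * (g p.2.2 * h (p.2.2 + yA p.1 - yB p.2.1)))
        ∂((bA N : Measure A).prod ((bB N : Measure B).prod (m N)))| ≤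
        ∫ p, (|K| * C * (2 * ε1) * ψ p.2.2 + |K| * (2 * (C * C)) * (ξ (p.2.2 + yA p.1 - yB p.2.1) * ψ p.2.2))
        ∂((bA N : Measure A).prod ((bB N : Measure B).prod (m N))) := by
      rw [← Real.norm_eq_abs]
      refine norm_integral_le_of_norm_le ((hi1.const_mul _).add (hi2.const_mul _)) (Eventually.of_forall fun p => ?_)
      rw [Real.norm_eq_abs]
      exact hpt p
    rw [integral_add (hi1.const_mul _) (hi2.const_mul _), integral_const_mul, integral_const_mul] at hbd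
    refine hbd.trans_lt ?_
    have e1 : |K| * C * (2 * ε1) * ∫ p : A × B × ℂ, ψ p.2.2 ∂((bA N : Measure A).prod ((bB N : Measure B).prod (m N))) ≤
        ε / 2 := by
      have h1 : |K| * C * (2 * ε1) * ∫ p : A × B × ℂ, ψ p.2.2 ∂((bA N : Measure A).prod ((bB N : Measure B).prod (m N))) ≤
          |K| * C * (2 * ε1) * M := mul_le_mul_of_nonneg_left hNb.le (by positivity)
      refine h1.trans ?_
      have h2 : |K| * C * (2 * ε1) * M ≤ (|K| * C + 1) * (2 * ε1) * M := by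
        have : 0 ≤ (2 * ε1) * M := by positivity
        nlinarith
      refine h2.trans (le_of_eq ?_)
      rw [hε1]
      have h3 : |K| * C + 1 ≠ 0 := by positivity
      have h4 : M ≠ 0 := hM0.ne'
      field_simp
      norm_num
    have e2 : |K| * (2 * (C * C)) * ∫ p : A × B × ℂ, ξ (p.2.2 + yA p.1 - yB p.2.1) * ψ p.2.2
        ∂((bA N : Measure A).prod ((bB N : Measure B).prod (m N))) ≤ ε / 4 := by
      have h1 : |K| * (2 * (C * C)) * ∫ p : A × B × ℂ, ξ (p.2.2 + yA p.1 - yB p.2.1) * ψ p.2.2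
          ∂((bA N : Measure A).prod ((bB N : Measure B).prod (m N))) ≤
          |K| * (2 * (C * C)) * (ε / (4 * (|K| * (2 * (C * C)) + 1))) :=
        mul_le_mul_of_nonneg_left hNa.le (by positivity)
      refine h1.trans ?_
      have h2 : |K| * (2 * (C * C)) * (ε / (4 * (|K| * (2 * (C * C)) + 1))) ≤
          (|K| * (2 * (C * C)) + 1) * (ε / (4 * (|K| * (2 * (C * C)) + 1))) := by
        have : 0 ≤ (ε / (4 * (|K| * (2 * (C * C)) + 1))) := by positivity
        nlinarith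
      refine h2.trans (le_of_eq ?_)
      have h3 : |K| * (2 * (C * C)) + 1 ≠ 0 := by positivity
      field_simp
    linarith
  have hsum := hdiff.add hmain
  rw [zero_add] at hsum
  refine hsum.congr fun N => ?_
  have hi1 := int3 _ _ _ (hmeas N) (hFK N) (R := R) fun p hp => by rw [hR p hp, zero_mul]
  have hi2 : Integrable (fun p : A × B × ℂ => X p * (g p.2.2 * h (p.2.2 + yA p.1 - yB p.2.1)))
      ((bA N : Measure A).prod ((bB N : Measure B).prod (m N))) :=
    int3 _ _ _ hcG.aestronglyMeasurable hGK (R := R) fun p hp => by rw [hR p hp, zero_mul]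
  rw [integral_sub hi1 hi2, sub_add_cancel]

omit [SecondCountableTopology A] [PseudoMetrizableSpace A] [PseudoMetrizableSpace B] in
/-- the mass of a function with bounded support in `w - yA + yB`. -/
lemma mass_w [SecondCountableTopology A] (μA : Measure A) [IsProbabilityMeasure μA] (μB : Measure B)
    [IsProbabilityMeasure μB] (ν : Measure ℂ) [SFinite ν] {yA : A → ℂ} (hyA : Continuous yA) {yB : B → ℂ} (hyB : Continuous yB)
    {R L : ℝ} (hloc : ∀ w : ℂ, ν (Metric.closedBall w R) ≤ ENNReal.ofReal L) {σ : A × B → ℝ} (hσ : Continuous σ) :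
    ∫⁻ p : A × B × ℂ, Set.indicator {p : A × B × ℂ | ‖p.2.2 - yA p.1 + yB p.2.1‖ ≤ R}
      (fun p => ENNReal.ofReal (σ (p.1, p.2.1))) p ∂(μA.prod (μB.prod ν)) ≤
      ENNReal.ofReal L * ∫⁻ q, ENNReal.ofReal (σ q) ∂(μA.prod μB) := by
  have hs : MeasurableSet {p : A × B × ℂ | ‖p.2.2 - yA p.1 + yB p.2.1‖ ≤ R} := by
    have : Continuous fun p : A × B × ℂ => ‖p.2.2 - yA p.1 + yB p.2.1‖ := by fun_prop
    exact measurableSet_le this.measurable measurable_const
  have hσm : Measurable fun p : A × B × ℂ => ENNReal.ofReal (σ (p.1, p.2.1)) := by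
    have : Continuous fun p : A × B × ℂ => σ (p.1, p.2.1) := by fun_prop
    exact this.measurable.ennreal_ofReal
  rw [lintegral_prod _ (hσm.indicator hs).aemeasurable, lintegral_prod _ hσ.measurable.ennreal_ofReal.aemeasurable,
    ← lintegral_const_mul' _ _ ENNReal.ofReal_ne_top]
  refine lintegral_mono fun a => ?_
  have hσa : Measurable fun p : B × ℂ => Set.indicator {p : A × B × ℂ | ‖p.2.2 - yA p.1 + yB p.2.1‖ ≤ R}
      (fun p => ENNReal.ofReal (σ (p.1, p.2.1))) (a, p) := (hσm.indicator hs).comp measurable_prodMk_left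
  dsimp only
  rw [lintegral_prod _ hσa.aemeasurable, ← lintegral_const_mul' _ _ ENNReal.ofReal_ne_top]
  refine lintegral_mono fun b => ?_
  dsimp only
  have h1 : ∀ w : ℂ, Set.indicator {p : A × B × ℂ | ‖p.2.2 - yA p.1 + yB p.2.1‖ ≤ R}
      (fun p => ENNReal.ofReal (σ (p.1, p.2.1))) (a, b, w) =
      Set.indicator (Metric.closedBall (yA a - yB b) R) (fun _ => ENNReal.ofReal (σ (a, b))) w := by
    intro w
    by_cases hw : w ∈ Metric.closedBall (yA a - yB b) R
    · rw [Set.indicator_of_mem hw, Set.indicator_of_mem]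
      rw [Metric.mem_closedBall, dist_eq_norm] at hw
      show ‖w - yA a + yB b‖ ≤ R
      rw [show w - yA a + yB b = w - (yA a - yB b) by ring]
      exact hw
    · rw [Set.indicator_of_notMem hw, Set.indicator_of_notMem]
      intro hc
      apply hw
      rw [Metric.mem_closedBall, dist_eq_norm, show w - (yA a - yB b) = w - yA a + yB b by ring]
      exact hc
  simp only [h1]
  rw [lintegral_indicator Metric.isClosed_closedBall.measurableSet, lintegral_const, Measure.restrict_apply MeasurableSet.univ,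
    Set.univ_inter, mul_comm]
  exact mul_le_mul_left (hloc _) _

/-- the local bound of a vague limit. -/
lemma vag_loc {l : Filter ℕ} [NeBot l] {m : ℕ → Measure ℂ} [∀ N, IsFiniteMeasureOnCompacts (m N)] {μ : Measure ℂ}
    [IsFiniteMeasureOnCompacts μ] (hm : Vag l m μ) {R L : ℝ} (hL : 0 ≤ L)
    (hloc : ∀ᶠ N in l, ∀ w : ℂ, m N (Metric.closedBall w (R + 1)) ≤ ENNReal.ofReal L) (w : ℂ) :
    μ (Metric.closedBall w R) ≤ ENNReal.ofReal L := by
  obtain ⟨ψ, hψ, hψc, hψ0, hψ1, hψR, hψR1⟩ := bump R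
  obtain ⟨χ, hχe⟩ : ∃ χ : ℂ → ℝ, χ = fun z => ψ (z - w) := ⟨_, rfl⟩
  have hχ : Continuous χ := by rw [hχe]; fun_prop
  have hχc : HasCompactSupport χ := by
    refine HasCompactSupport.intro (isCompact_closedBall w (R + 1)) fun z hz => ?_
    rw [Metric.mem_closedBall, dist_eq_norm, not_le] at hz
    rw [hχe]
    exact hψR1 _ hz.le
  have hχ0 : ∀ z, 0 ≤ χ z := fun z => by rw [hχe]; exact hψ0 _
  have h1 := hm χ hχ hχc
  have h2 : ∀ᶠ N in l, ∫ z, χ z ∂(m N) ≤ L := by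
    filter_upwards [hloc] with N hN
    have h3 : ∫ z, χ z ∂(m N) ≤ ∫ z, Set.indicator (Metric.closedBall w (R + 1)) (fun _ => (1 : ℝ)) z ∂(m N) := by
      refine integral_mono (hχ.integrable_of_hasCompactSupport hχc) ?_ fun z => ?_
      · rw [integrable_indicator_iff Metric.isClosed_closedBall.measurableSet]
        exact integrableOn_const (isCompact_closedBall w _).measure_lt_top.ne
      · by_cases hz : z ∈ Metric.closedBall w (R + 1)
        · rw [Set.indicator_of_mem hz, hχe]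
          exact hψ1 _
        · rw [Set.indicator_of_notMem hz, hχe]
          rw [Metric.mem_closedBall, dist_eq_norm, not_le] at hz
          exact (hψR1 _ hz.le).le
    refine h3.trans ?_
    rw [integral_indicator Metric.isClosed_closedBall.measurableSet, setIntegral_const, smul_eq_mul, mul_one,
      Measure.real]
    exact ENNReal.toReal_le_of_le_ofReal hL (hN w)
  have h4 : ∫ z, χ z ∂μ ≤ L := le_of_tendsto h1 h2
  calc μ (Metric.closedBall w R) = ∫⁻ z, Set.indicator (Metric.closedBall w R) (fun _ => (1 : ENNReal)) z ∂μ := by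
        rw [lintegral_indicator Metric.isClosed_closedBall.measurableSet, lintegral_const, one_mul,
          Measure.restrict_apply MeasurableSet.univ, Set.univ_inter]
    _ ≤ ∫⁻ z, ENNReal.ofReal (χ z) ∂μ := by
        refine lintegral_mono fun z => ?_
        by_cases hz : z ∈ Metric.closedBall w R
        · rw [Set.indicator_of_mem hz, hχe]
          rw [Metric.mem_closedBall, dist_eq_norm] at hz
          dsimp only
          rw [hψR _ hz, ENNReal.ofReal_one]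
        · rw [Set.indicator_of_notMem hz]
          exact zero_le
    _ = ENNReal.ofReal (∫ z, χ z ∂μ) := (ofReal_integral_eq_lintegral_ofReal
        (hχ.integrable_of_hasCompactSupport hχc) (Eventually.of_forall hχ0)).symm
    _ ≤ ENNReal.ofReal L := ENNReal.ofReal_le_ofReal h4

/-- **the limit of lattice sums**, the second variable is the free one. -/
theorem sum_lim_w {l : Filter ℕ} [NeBot l] {bA : ℕ → ProbabilityMeasure A} {a0 : ProbabilityMeasure A}
    (hA : Tendsto bA l (𝓝 a0)) {bB : ℕ → ProbabilityMeasure B} {b0 : ProbabilityMeasure B} (hB : Tendsto bB l (𝓝 b0))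
    {m : ℕ → Measure ℂ} [∀ N, IsFiniteMeasureOnCompacts (m N)] {μ : Measure ℂ} [IsFiniteMeasureOnCompacts μ]
    (hm : Vag l m μ) {yA : A → ℂ} (hyA : Continuous yA) {yB : B → ℂ} (hyB : Continuous yB)
    {g : ℂ → ℝ} (hg : Continuous g) {gs : ℕ → ℂ → ℝ} {C : ℝ} (hgC : ∀ N z, |gs N z| ≤ C) (hLg : LU l gs g)
    {X : A × B × ℂ → ℝ} (hX : Continuous X) {K R : ℝ} (hK : ∀ p, |X p| ≤ K)
    (hR : ∀ p : A × B × ℂ, R < ‖p.2.2‖ → X p = 0)
    {L : ℝ} (hL : 0 ≤ L) (hloc : ∀ᶠ N in l, ∀ w : ℂ, m N (Metric.closedBall w (R + 1)) ≤ ENNReal.ofReal L)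
    (hmeas : ∀ N, AEStronglyMeasurable (fun p : A × B × ℂ => X (p.1, p.2.1, p.2.2 - yA p.1 + yB p.2.1) *
      gs N (p.2.2 - yA p.1 + yB p.2.1)) ((bA N : Measure A).prod ((bB N : Measure B).prod (m N)))) :
    Tendsto (fun N => ∫ p, X (p.1, p.2.1, p.2.2 - yA p.1 + yB p.2.1) * gs N (p.2.2 - yA p.1 + yB p.2.1)
      ∂((bA N : Measure A).prod ((bB N : Measure B).prod (m N)))) l
      (𝓝 (∫ p, X (p.1, p.2.1, p.2.2 - yA p.1 + yB p.2.1) * g (p.2.2 - yA p.1 + yB p.2.1)
        ∂((a0 : Measure A).prod ((b0 : Measure B).prod μ)))) := by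
  have hg1 : ∀ z, |g z| ≤ C := fun z => le_of_tendsto (hLg.tendsto z).abs (Eventually.of_forall fun N => hgC N z)
  have hC0 : 0 ≤ C := (abs_nonneg _).trans (hg1 0)
  have hK1 : 0 ≤ |K| := abs_nonneg K
  have hK2 : ∀ p, |X p| ≤ |K| := fun p => (hK p).trans (le_abs_self K)
  have hloc0 : ∀ w, μ (Metric.closedBall w R) ≤ ENNReal.ofReal L := vag_loc hm hL hloc
  have hloc1 : ∀ᶠ N in l, ∀ w : ℂ, m N (Metric.closedBall w R) ≤ ENNReal.ofReal L := by
    filter_upwards [hloc] with N hN w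
    exact (measure_mono (Metric.closedBall_subset_closedBall (by linarith))).trans (hN w)
  choose κ hκ hκc hκ0 hκ1 hκR hκR1 using fun n : ℕ => bump (n : ℝ)
  -- integrability and tails
  have htail : ∀ (μA : Measure A) [IsProbabilityMeasure μA] (μB : Measure B) [IsProbabilityMeasure μB] (ν : Measure ℂ)
      [IsFiniteMeasureOnCompacts ν], (∀ w : ℂ, ν (Metric.closedBall w R) ≤ ENNReal.ofReal L) →
      ∀ G : A × B × ℂ → ℝ, AEStronglyMeasurable G (μA.prod (μB.prod ν)) → (∀ p, |G p| ≤ |K| * C) →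
      (∀ p : A × B × ℂ, R < ‖p.2.2 - yA p.1 + yB p.2.1‖ → G p = 0) →
      Integrable G (μA.prod (μB.prod ν)) ∧ ∀ n : ℕ,
        |∫ p, (1 - κ n (yA p.1 - yB p.2.1)) * G p ∂(μA.prod (μB.prod ν))| ≤
          |K| * C * (L * ∫ q : A × B, (1 - κ n (yA q.1 - yB q.2)) ∂(μA.prod μB)) := by
    intro μA _ μB _ ν _ hν G hG hGK hGR
    have hs : MeasurableSet {p : A × B × ℂ | ‖p.2.2 - yA p.1 + yB p.2.1‖ ≤ R} := by
      have : Continuous fun p : A × B × ℂ => ‖p.2.2 - yA p.1 + yB p.2.1‖ := by fun_prop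
      exact measurableSet_le this.measurable measurable_const
    have hbd : ∀ σ : A × B → ℝ, Continuous σ → (∀ q, 0 ≤ σ q) → (∀ q, σ q ≤ 1) →
        ∫⁻ p, ‖σ (p.1, p.2.1) * G p‖ₑ ∂(μA.prod (μB.prod ν)) ≤
          ENNReal.ofReal (|K| * C) * (ENNReal.ofReal L * ∫⁻ q, ENNReal.ofReal (σ q) ∂(μA.prod μB)) := by
      intro σ hσ hσ0 hσ1
      refine le_trans ?_ (mul_le_mul_right (mass_w μA μB ν hyA hyB hν hσ) _)
      rw [← lintegral_const_mul' _ _ ENNReal.ofReal_ne_top]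
      refine lintegral_mono fun p => ?_
      dsimp only
      by_cases hp : ‖p.2.2 - yA p.1 + yB p.2.1‖ ≤ R
      · rw [Set.indicator_of_mem (show p ∈ {p : A × B × ℂ | ‖p.2.2 - yA p.1 + yB p.2.1‖ ≤ R} from hp),
          ← ENNReal.ofReal_mul (by positivity), Real.enorm_eq_ofReal_abs]
        apply ENNReal.ofReal_le_ofReal
        rw [abs_mul, abs_of_nonneg (hσ0 _), mul_comm]
        exact mul_le_mul_of_nonneg_right (hGK p) (hσ0 _)
      · rw [hGR p (not_le.1 hp), mul_zero, enorm_zero]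
        exact zero_le
    constructor
    · refine ⟨hG, ?_⟩
      have h1 := hbd (fun _ => 1) continuous_const (fun _ => zero_le_one) (fun _ => le_rfl)
      simp only [one_mul, ENNReal.ofReal_one, lintegral_one, measure_univ, mul_one] at h1
      exact h1.trans_lt (ENNReal.mul_lt_top ENNReal.ofReal_lt_top ENNReal.ofReal_lt_top)
    · intro n
      have hσ : Continuous fun q : A × B => 1 - κ n (yA q.1 - yB q.2) := by
        have := hκ n
        fun_prop
      have hσ0 : ∀ q : A × B, 0 ≤ 1 - κ n (yA q.1 - yB q.2) := fun q => by linarith [hκ1 n (yA q.1 - yB q.2)]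
      have hσ1 : ∀ q : A × B, 1 - κ n (yA q.1 - yB q.2) ≤ 1 := fun q => by linarith [hκ0 n (yA q.1 - yB q.2)]
      have h1 := hbd _ hσ hσ0 hσ1
      have hσi : Integrable (fun q : A × B => 1 - κ n (yA q.1 - yB q.2)) (μA.prod μB) := by
        refine Integrable.of_bound hσ.aestronglyMeasurable 1 (Eventually.of_forall fun q => ?_)
        rw [Real.norm_eq_abs, abs_of_nonneg (hσ0 q)]
        exact hσ1 q
      rw [← ofReal_integral_eq_lintegral_ofReal hσi (Eventually.of_forall hσ0), ← ENNReal.ofReal_mul hL,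
        ← ENNReal.ofReal_mul (by positivity)] at h1
      have h2 : 0 ≤ |K| * C * (L * ∫ q : A × B, (1 - κ n (yA q.1 - yB q.2)) ∂(μA.prod μB)) := by
        have : 0 ≤ ∫ q : A × B, (1 - κ n (yA q.1 - yB q.2)) ∂(μA.prod μB) := integral_nonneg hσ0
        positivity
      rw [← Real.norm_eq_abs]
      refine (norm_integral_le_lintegral_norm _).trans ?_
      refine ENNReal.toReal_le_of_le_ofReal h2 (le_trans (le_of_eq ?_) h1)
      refine lintegral_congr fun p => ?_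
      rw [ofReal_norm]
  have hcX : Continuous fun p : A × B × ℂ => X (p.1, p.2.1, p.2.2 - yA p.1 + yB p.2.1) := by fun_prop
  have hcF : Continuous fun p : A × B × ℂ => X (p.1, p.2.1, p.2.2 - yA p.1 + yB p.2.1) *
      g (p.2.2 - yA p.1 + yB p.2.1) := by fun_prop
  have hFK : ∀ p : A × B × ℂ, |X (p.1, p.2.1, p.2.2 - yA p.1 + yB p.2.1) * g (p.2.2 - yA p.1 + yB p.2.1)| ≤ |K| * C := by
    intro p
    rw [abs_mul]
    exact mul_le_mul (hK2 _) (hg1 _) (abs_nonneg _) hK1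
  have hFNK : ∀ N, ∀ p : A × B × ℂ, |X (p.1, p.2.1, p.2.2 - yA p.1 + yB p.2.1) *
      gs N (p.2.2 - yA p.1 + yB p.2.1)| ≤ |K| * C := by
    intro N p
    rw [abs_mul]
    exact mul_le_mul (hK2 _) (hgC N _) (abs_nonneg _) hK1
  have hFR : ∀ p : A × B × ℂ, R < ‖p.2.2 - yA p.1 + yB p.2.1‖ →
      X (p.1, p.2.1, p.2.2 - yA p.1 + yB p.2.1) * g (p.2.2 - yA p.1 + yB p.2.1) = 0 := by
    intro p hp
    rw [hR _ hp, zero_mul]
  have hFNR : ∀ N, ∀ p : A × B × ℂ, R < ‖p.2.2 - yA p.1 + yB p.2.1‖ →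
      X (p.1, p.2.1, p.2.2 - yA p.1 + yB p.2.1) * gs N (p.2.2 - yA p.1 + yB p.2.1) = 0 := by
    intro N p hp
    rw [hR _ hp, zero_mul]
  obtain ⟨hi0, ht0⟩ := htail (a0 : Measure A) (b0 : Measure B) μ hloc0 _ hcF.aestronglyMeasurable hFK hFR
  -- the tail of the limit
  have hlim0 : Tendsto (fun n : ℕ => ∫ q : A × B, (1 - κ n (yA q.1 - yB q.2)) ∂((a0 : Measure A).prod (b0 : Measure B)))
      atTop (𝓝 (∫ q : A × B, (0 : ℝ) ∂((a0 : Measure A).prod (b0 : Measure B)))) := by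
    refine tendsto_integral_of_dominated_convergence (fun _ => 1) (fun n => ?_) (integrable_const 1) (fun n => ?_) ?_
    · have : Continuous fun q : A × B => 1 - κ n (yA q.1 - yB q.2) := by
        have := hκ n
        fun_prop
      exact this.aestronglyMeasurable
    · refine Eventually.of_forall fun q => ?_
      rw [Real.norm_eq_abs, abs_of_nonneg (by linarith [hκ1 n (yA q.1 - yB q.2)])]
      linarith [hκ0 n (yA q.1 - yB q.2)]
    · refine Eventually.of_forall fun q => ?_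
      obtain ⟨n0, hn0⟩ := exists_nat_ge ‖yA q.1 - yB q.2‖
      refine tendsto_const_nhds.congr' ?_
      filter_upwards [eventually_ge_atTop n0] with n hn
      rw [hκR n _ (hn0.trans (by exact_mod_cast hn)), sub_self]
  rw [integral_zero] at hlim0
  rw [Metric.tendsto_nhds]
  intro ε hε
  have hc1 : 0 < |K| * C * L + 1 := by positivity
  obtain ⟨n, hn⟩ := (hlim0.eventually (gt_mem_nhds (show (0 : ℝ) < ε / (4 * (|K| * C * L + 1)) by positivity))).exists
  -- the tail at N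
  have hprod : Tendsto (fun N => ∫ q : A × B, (1 - κ n (yA q.1 - yB q.2)) ∂((bA N : Measure A).prod (bB N : Measure B)))
      l (𝓝 (∫ q : A × B, (1 - κ n (yA q.1 - yB q.2)) ∂((a0 : Measure A).prod (b0 : Measure B)))) := by
    have h1 : Tendsto (fun N => (bA N).prod (bB N)) l (𝓝 (a0.prod b0)) :=
      (ProbabilityMeasure.continuous_prod.tendsto (a0, b0)).comp (hA.prodMk_nhds hB)
    have hσ : Continuous fun q : A × B => 1 - κ n (yA q.1 - yB q.2) := by
      have := hκ n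
      fun_prop
    have h2 := (ProbabilityMeasure.tendsto_iff_forall_integral_tendsto.1 h1)
      (BoundedContinuousFunction.ofNormedAddCommGroup _ hσ 1 (fun q => by
        rw [Real.norm_eq_abs, abs_of_nonneg (by linarith [hκ1 n (yA q.1 - yB q.2)])]
        linarith [hκ0 n (yA q.1 - yB q.2)]))
    simpa only [ProbabilityMeasure.toMeasure_prod, BoundedContinuousFunction.coe_ofNormedAddCommGroup] using h2
  -- the part with bounded displacement
  have hsupp : ∀ p : A × B × ℂ, R + n + 1 < ‖p.2.2‖ → κ n (yA p.1 - yB p.2.1) *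
      X (p.1, p.2.1, p.2.2 - yA p.1 + yB p.2.1) = 0 := by
    intro p hp
    by_cases h1 : (n : ℝ) + 1 ≤ ‖yA p.1 - yB p.2.1‖
    · rw [hκR1 n _ h1, zero_mul]
    · rw [hR, mul_zero]
      rw [not_le] at h1
      have h2 : ‖p.2.2‖ ≤ ‖p.2.2 - yA p.1 + yB p.2.1‖ + ‖yA p.1 - yB p.2.1‖ := by
        calc ‖p.2.2‖ = ‖(p.2.2 - yA p.1 + yB p.2.1) + (yA p.1 - yB p.2.1)‖ := by congr 1; ring
          _ ≤ _ := norm_add_le _ _
      show R < ‖p.2.2 - yA p.1 + yB p.2.1‖
      linarith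
  have hcG : Continuous fun p : A × B × ℂ => κ n (yA p.1 - yB p.2.1) *
      (X (p.1, p.2.1, p.2.2 - yA p.1 + yB p.2.1) * g (p.2.2 - yA p.1 + yB p.2.1)) := by
    have := hκ n
    fun_prop
  have hJ1 := lim3 hA hB hm hcG (K := |K| * C) (R := R + n + 1) (fun p => by
    rw [abs_mul, abs_of_nonneg (hκ0 n _)]
    exact (mul_le_of_le_one_left (abs_nonneg _) (hκ1 n _)).trans (hFK p)) fun p hp => by
      rw [← mul_assoc, hsupp p hp, zero_mul]
  obtain ⟨ψ, hψ, hψc, hψ0, hψ1, hψR, hψR1⟩ := bump (R + n + 1)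
  have hψm : Tendsto (fun N => ∫ p : A × B × ℂ, ψ p.2.2 ∂((bA N : Measure A).prod ((bB N : Measure B).prod (m N))))
      l (𝓝 (∫ p : A × B × ℂ, ψ p.2.2 ∂((a0 : Measure A).prod ((b0 : Measure B).prod μ)))) :=
    lim3 hA hB hm (by fun_prop) (K := 1) (R := R + n + 1 + 1) (fun p => by rw [abs_of_nonneg (hψ0 _)]; exact hψ1 _)
      fun p hp => hψR1 _ hp.le
  obtain ⟨M, hM⟩ : ∃ M : ℝ, M = (∫ p : A × B × ℂ, ψ p.2.2 ∂((a0 : Measure A).prod ((b0 : Measure B).prod μ))) + 1 :=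
    ⟨_, rfl⟩
  have hM0 : 0 < M := by
    rw [hM]
    have : 0 ≤ ∫ p : A × B × ℂ, ψ p.2.2 ∂((a0 : Measure A).prod ((b0 : Measure B).prod μ)) :=
      integral_nonneg fun p => hψ0 _
    linarith
  obtain ⟨ε1, hε1⟩ : ∃ ε1 : ℝ, ε1 = ε / (8 * (|K| + 1) * M) := ⟨_, rfl⟩
  have hε10 : 0 < ε1 := by rw [hε1]; positivity
  filter_upwards [hprod.eventually (gt_mem_nhds hn), (Metric.tendsto_nhds.1 hJ1) (ε / 8) (by positivity),
    hψm.eventually (gt_mem_nhds (show _ < M by rw [hM]; linarith)), hLg R ε1 hε10, hloc1] with N hN1 hN2 hN3 hN4 hN5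
  obtain ⟨hiN, htN⟩ := htail (bA N : Measure A) (bB N : Measure B) (m N) hN5 _ (hmeas N) (hFNK N) (hFNR N)
  obtain ⟨hiN', -⟩ := htail (bA N : Measure A) (bB N : Measure B) (m N) hN5 _ hcF.aestronglyMeasurable hFK hFR
  have hsplit : ∀ (Q : Measure (A × B × ℂ)) (G : A × B × ℂ → ℝ), Integrable G Q →
      Integrable (fun p => κ n (yA p.1 - yB p.2.1) * G p) Q ∧
      ∫ p, G p ∂Q = (∫ p, κ n (yA p.1 - yB p.2.1) * G p ∂Q) + ∫ p, (1 - κ n (yA p.1 - yB p.2.1)) * G p ∂Q := by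
    intro Q G hG
    have hcκ : Continuous fun p : A × B × ℂ => κ n (yA p.1 - yB p.2.1) := by
      have := hκ n
      fun_prop
    have h1 : Integrable (fun p => κ n (yA p.1 - yB p.2.1) * G p) Q :=
      hG.bdd_mul (c := 1) hcκ.aestronglyMeasurable (Eventually.of_forall fun p => by
        rw [Real.norm_eq_abs, abs_of_nonneg (hκ0 n _)]
        exact hκ1 n _)
    have h2 : Integrable (fun p => (1 - κ n (yA p.1 - yB p.2.1)) * G p) Q := by
      refine (hG.sub h1).congr (Eventually.of_forall fun p => ?_)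
      simp only [Pi.sub_apply]
      ring
    refine ⟨h1, ?_⟩
    rw [← integral_add h1 h2]
    refine integral_congr_ae (Eventually.of_forall fun p => ?_)
    dsimp only
    ring
  obtain ⟨hκN, hsN⟩ := hsplit _ _ hiN
  obtain ⟨hκN', -⟩ := hsplit _ _ hiN'
  obtain ⟨-, hs0⟩ := hsplit _ _ hi0
  rw [hsN, hs0, Real.dist_eq]
  have e1 : |K| * C * (L * ∫ q : A × B, (1 - κ n (yA q.1 - yB q.2)) ∂((bA N : Measure A).prod (bB N : Measure B))) <
      ε / 4 := by
    have h1 : |K| * C * (L * ∫ q : A × B, (1 - κ n (yA q.1 - yB q.2)) ∂((bA N : Measure A).prod (bB N : Measure B))) ≤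
        (|K| * C * L) * (ε / (4 * (|K| * C * L + 1))) := by
      rw [← mul_assoc]
      exact mul_le_mul_of_nonneg_left hN1.le (by positivity)
    refine h1.trans_lt ?_
    have h2 : (|K| * C * L) * (ε / (4 * (|K| * C * L + 1))) < (|K| * C * L + 1) * (ε / (4 * (|K| * C * L + 1))) :=
      mul_lt_mul_of_pos_right (by linarith) (by positivity)
    refine h2.trans_le (le_of_eq ?_)
    have h3 : |K| * C * L + 1 ≠ 0 := hc1.ne'
    field_simp
  have e2 : |K| * C * (L * ∫ q : A × B, (1 - κ n (yA q.1 - yB q.2)) ∂((a0 : Measure A).prod (b0 : Measure B))) <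
      ε / 4 := by
    have h1 : |K| * C * (L * ∫ q : A × B, (1 - κ n (yA q.1 - yB q.2)) ∂((a0 : Measure A).prod (b0 : Measure B))) ≤
        (|K| * C * L) * (ε / (4 * (|K| * C * L + 1))) := by
      rw [← mul_assoc]
      exact mul_le_mul_of_nonneg_left hn.le (by positivity)
    refine h1.trans_lt ?_
    have h2 : (|K| * C * L) * (ε / (4 * (|K| * C * L + 1))) < (|K| * C * L + 1) * (ε / (4 * (|K| * C * L + 1))) :=
      mul_lt_mul_of_pos_right (by linarith) (by positivity)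
    refine h2.trans_le (le_of_eq ?_)
    have h3 : |K| * C * L + 1 ≠ 0 := hc1.ne'
    field_simp
  have e3 := (htN n).trans_lt e1
  have e4 := (ht0 n).trans_lt e2
  have e5 : |(∫ p, κ n (yA p.1 - yB p.2.1) * (X (p.1, p.2.1, p.2.2 - yA p.1 + yB p.2.1) *
      gs N (p.2.2 - yA p.1 + yB p.2.1)) ∂((bA N : Measure A).prod ((bB N : Measure B).prod (m N)))) -
      ∫ p, κ n (yA p.1 - yB p.2.1) * (X (p.1, p.2.1, p.2.2 - yA p.1 + yB p.2.1) *
      g (p.2.2 - yA p.1 + yB p.2.1)) ∂((bA N : Measure A).prod ((bB N : Measure B).prod (m N)))| ≤ ε / 8 := by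
    rw [← integral_sub hκN hκN', ← Real.norm_eq_abs]
    have hψi : Integrable (fun p : A × B × ℂ => ψ p.2.2) ((bA N : Measure A).prod ((bB N : Measure B).prod (m N))) :=
      int3 _ _ _ (Continuous.aestronglyMeasurable (by fun_prop)) (K := 1) (R := R + n + 1 + 1)
        (fun p => by rw [abs_of_nonneg (hψ0 _)]; exact hψ1 _) fun p hp => hψR1 _ hp.le
    refine (norm_integral_le_of_norm_le (hψi.const_mul (|K| * ε1)) (Eventually.of_forall fun p => ?_)).trans ?_
    · rw [Real.norm_eq_abs, ← mul_sub, ← mul_sub, ← mul_assoc]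
      by_cases hp : R + n + 1 < ‖p.2.2‖
      · rw [hsupp p hp, zero_mul, abs_zero]
        exact mul_nonneg (by positivity) (hψ0 _)
      · rw [hψR _ (not_lt.1 hp), mul_one]
        by_cases hD : ‖p.2.2 - yA p.1 + yB p.2.1‖ ≤ R
        · have h1 := hN4 _ hD
          rw [abs_mul]
          refine mul_le_mul ?_ h1 (abs_nonneg _) hK1
          rw [abs_mul, abs_of_nonneg (hκ0 n _)]
          exact (mul_le_of_le_one_left (abs_nonneg _) (hκ1 n _)).trans (hK2 _)
        · rw [hR _ (show R < ‖p.2.2 - yA p.1 + yB p.2.1‖ from not_le.1 hD), mul_zero, zero_mul, abs_zero]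
          positivity
    · rw [integral_const_mul]
      have h1 : |K| * ε1 * ∫ p : A × B × ℂ, ψ p.2.2 ∂((bA N : Measure A).prod ((bB N : Measure B).prod (m N))) ≤
          |K| * ε1 * M := mul_le_mul_of_nonneg_left hN3.le (by positivity)
      refine h1.trans ?_
      have h2 : |K| * ε1 * M ≤ (|K| + 1) * ε1 * M := by
        have : 0 ≤ ε1 * M := by positivity
        nlinarith
      refine h2.trans (le_of_eq ?_)
      rw [hε1]
      have h3 : |K| + 1 ≠ 0 := by positivity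
      have h4 : M ≠ 0 := hM0.ne'
      field_simp
  rw [Real.dist_eq] at hN2
  rw [abs_lt] at e3 e4 hN2 ⊢
  rw [abs_le] at e5
  constructor <;> linarith [e3.1, e3.2, e4.1, e4.2, hN2.1, hN2.2, e5.1, e5.2]

end three

/-- a measure carried by a countable set: everything is measurable. -/
lemma aesm_of_countable {α : Type*} [MeasurableSpace α] [MeasurableSingletonClass α] {ν : Measure α} {S : Set α}
    (hS : S.Countable) (h0 : ν Sᶜ = 0) (f : α → ℝ) : AEStronglyMeasurable f ν := by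
  refine ⟨S.indicator f, Measurable.stronglyMeasurable ?_, ?_⟩
  · refine fun t ht => ?_
    have h1 : S.indicator f ⁻¹' t = (S ∩ f ⁻¹' t) ∪ (Sᶜ ∩ (fun _ : α => (0 : ℝ)) ⁻¹' t) := by
      ext x
      by_cases hx : x ∈ S <;> simp [hx, Set.indicator_of_mem, Set.indicator_of_notMem]
    rw [h1]
    refine MeasurableSet.union (hS.mono Set.inter_subset_left).measurableSet ?_
    exact hS.measurableSet.compl.inter (measurable_const ht)
  · filter_upwards [compl_mem_ae_iff.2 h0] with x hx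
    rw [compl_compl] at hx
    rw [Set.indicator_of_mem hx]

/-- the product of three measures carried by countable sets. -/
lemma prod_countable {α β γ : Type*} [MeasurableSpace α] [MeasurableSpace β] [MeasurableSpace γ]
    {a : Measure α} {b : Measure β} {c : Measure γ} [SFinite a] [SFinite b] [SFinite c] {S : Set α} {T : Set β} {U : Set γ}
    (hS : a Sᶜ = 0) (hT : b Tᶜ = 0) (hU : c Uᶜ = 0) : (a.prod (b.prod c)) (S ×ˢ (T ×ˢ U))ᶜ = 0 := by
  have h1 : (S ×ˢ (T ×ˢ U))ᶜ ⊆ (Sᶜ ×ˢ (Set.univ : Set (β × γ))) ∪ ((Set.univ : Set α) ×ˢ ((Tᶜ ×ˢ Set.univ) ∪ (Set.univ ×ˢ Uᶜ))) := by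
    rintro ⟨x, y, z⟩ hx
    simp only [Set.mem_compl_iff, Set.mem_prod, Set.mem_union, Set.mem_univ, and_true, true_and] at hx ⊢
    tauto
  refine measure_mono_null h1 ?_
  have h2 : (a.prod (b.prod c)) (Sᶜ ×ˢ (Set.univ : Set (β × γ))) = 0 := by
    rw [Measure.prod_prod, hS, zero_mul]
  have h3 : (b.prod c) ((Tᶜ ×ˢ Set.univ) ∪ (Set.univ ×ˢ Uᶜ)) = 0 := by
    refine measure_union_null ?_ ?_
    · rw [Measure.prod_prod, hT, zero_mul]
    · rw [Measure.prod_prod, hU, mul_zero]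
  have h4 : (a.prod (b.prod c)) ((Set.univ : Set α) ×ˢ ((Tᶜ ×ˢ Set.univ) ∪ (Set.univ ×ˢ Uᶜ))) = 0 := by
    rw [Measure.prod_prod, h3, mul_zero]
  exact measure_union_null h2 h4

/-- pushing Lebesgue measure to nearby points gives vague convergence. -/
theorem vag_of_map {q : ℕ → ℂ → ℂ} (hq : ∀ N, Measurable (q N)) {r : ℕ → ℝ} (hr : Tendsto r atTop (𝓝 0))
    (hqr : ∀ N z, ‖q N z - z‖ ≤ r N) (c : ℝ) (hc : 0 ≤ c) {m : ℕ → Measure ℂ}
    (hm : ∀ N, m N = ENNReal.ofReal c • Measure.map (q N) volume) :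
    (∀ N, IsFiniteMeasureOnCompacts (m N)) ∧ Vag atTop m (ENNReal.ofReal c • volume) := by
  constructor
  · intro N
    constructor
    intro K hK
    rw [hm, Measure.smul_apply, Measure.map_apply (hq N) hK.measurableSet, smul_eq_mul]
    refine ENNReal.mul_lt_top ENNReal.ofReal_lt_top ?_
    obtain ⟨R, hR⟩ := hK.isBounded.subset_closedBall 0
    have h1 : q N ⁻¹' K ⊆ Metric.closedBall (0 : ℂ) (R + r N) := by
      intro z hz
      have h2 : ‖q N z‖ ≤ R := by simpa using hR hz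
      have h3 : ‖z‖ ≤ R + r N := by
        calc ‖z‖ = ‖q N z - (q N z - z)‖ := by congr 1; ring
          _ ≤ ‖q N z‖ + ‖q N z - z‖ := norm_sub_le _ _
          _ ≤ R + r N := add_le_add h2 (hqr N z)
      simpa using h3
    exact (measure_mono h1).trans_lt (isCompact_closedBall (0 : ℂ) _).measure_lt_top
  · intro χ hχ hχc
    have h1 : ∀ N, ∫ z, χ z ∂(m N) = c * ∫ z, χ (q N z) := by
      intro N
      rw [hm, integral_smul_measure, integral_map (hq N).aemeasurable hχ.aestronglyMeasurable,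
        ENNReal.toReal_ofReal hc, smul_eq_mul]
    simp only [h1]
    rw [integral_smul_measure, ENNReal.toReal_ofReal hc, smul_eq_mul]
    refine Tendsto.const_mul _ ?_
    obtain ⟨R, hR⟩ := hχc.isCompact.isBounded.subset_closedBall 0
    obtain ⟨K, hK⟩ := hχ.bounded_above_of_compact_support hχc
    obtain ⟨N0, hN0⟩ := eventually_atTop.1 (hr.eventually (gt_mem_nhds (zero_lt_one (α := ℝ))))
    refine tendsto_integral_filter_of_dominated_convergence
      (Set.indicator (Metric.closedBall (0 : ℂ) (R + 1)) fun _ => K) ?_ ?_ ?_ ?_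
    · exact Eventually.of_forall fun N => (hχ.measurable.comp (hq N)).aestronglyMeasurable
    · filter_upwards [eventually_ge_atTop N0] with N hN
      refine Eventually.of_forall fun z => ?_
      by_cases hz : z ∈ Metric.closedBall (0 : ℂ) (R + 1)
      · rw [Set.indicator_of_mem hz]
        exact hK _
      · rw [Set.indicator_of_notMem hz]
        have h2 : χ (q N z) = 0 := by
          by_contra hne
          have h3 : q N z ∈ Metric.closedBall (0 : ℂ) R := hR (subset_tsupport _ hne)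
          apply hz
          rw [Metric.mem_closedBall, dist_zero_right] at h3 ⊢
          calc ‖z‖ = ‖q N z - (q N z - z)‖ := by congr 1; ring
            _ ≤ ‖q N z‖ + ‖q N z - z‖ := norm_sub_le _ _
            _ ≤ R + 1 := add_le_add h3 ((hqr N z).trans (hN0 N hN).le)
        rw [h2, norm_zero]
    · rw [integrable_indicator_iff Metric.isClosed_closedBall.measurableSet]
      exact integrableOn_const (isCompact_closedBall (0 : ℂ) _).measure_lt_top.ne
    · refine Eventually.of_forall fun z => ?_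
      refine (hχ.tendsto z).comp ?_
      rw [tendsto_iff_norm_sub_tendsto_zero]
      exact squeeze_zero (fun N => norm_nonneg _) (fun N => hqr N z) hr

/-- the points of a lattice. -/
noncomputable def lpt (f : ℂ ≃ₗ[ℝ] ℂ) (s : ℝ) (t : ℂ) (p : ℤ × ℤ) : ℂ := ((s⁻¹ : ℝ) : ℂ) * f ⟨p.1, p.2⟩ + t

/-- the counting measure of a lattice, with weight `s⁻²`. -/
noncomputable def lms (f : ℂ ≃ₗ[ℝ] ℂ) (s : ℝ) (t : ℂ) : Measure ℂ :=
  Measure.sum fun p : ℤ × ℤ => ENNReal.ofReal ((s ^ 2)⁻¹) • Measure.dirac (lpt f s t p)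

/-- the cell of a point. -/
noncomputable def lfl (f : ℂ ≃ₗ[ℝ] ℂ) (s : ℝ) (t : ℂ) (z : ℂ) : ℤ × ℤ :=
  (⌊(f.symm ((s : ℂ) * (z - t))).re⌋, ⌊(f.symm ((s : ℂ) * (z - t))).im⌋)

lemma continuous_lin (f : ℂ ≃ₗ[ℝ] ℂ) : Continuous f := f.toLinearMap.continuous_of_finiteDimensional

lemma measurable_lfl (f : ℂ ≃ₗ[ℝ] ℂ) (s : ℝ) (t : ℂ) : Measurable (lfl f s t) := by
  have h1 : Continuous fun z : ℂ => f.symm ((s : ℂ) * (z - t)) := (continuous_lin f.symm).comp (by fun_prop)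
  exact (Int.measurable_floor.comp (Complex.continuous_re.comp h1).measurable).prodMk
    (Int.measurable_floor.comp (Complex.continuous_im.comp h1).measurable)

lemma unit_cell (p : ℤ × ℤ) : volume {z : ℂ | ⌊z.re⌋ = p.1 ∧ ⌊z.im⌋ = p.2} = 1 := by
  have h1 : {z : ℂ | ⌊z.re⌋ = p.1 ∧ ⌊z.im⌋ = p.2} =
      Complex.measurableEquivRealProd ⁻¹' (Set.Ico (p.1 : ℝ) (p.1 + 1) ×ˢ Set.Ico (p.2 : ℝ) (p.2 + 1)) := by
    ext z
    simp only [Set.mem_ofPred_eq, Set.mem_preimage, Set.mem_prod, Complex.measurableEquivRealProd_apply, Set.mem_Ico,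
      Int.floor_eq_iff]
  rw [h1, Complex.volume_preserving_equiv_real_prod.measure_preimage
    (measurableSet_Ico.prod measurableSet_Ico).nullMeasurableSet, Measure.volume_eq_prod, Measure.prod_prod,
    Real.volume_Ico, Real.volume_Ico]
  simp

lemma cell_vol (f : ℂ ≃ₗ[ℝ] ℂ) {s : ℝ} (hs : 0 < s) (t : ℂ) (p : ℤ × ℤ) :
    volume (lfl f s t ⁻¹' {p}) = ENNReal.ofReal (|LinearMap.det (f : ℂ →ₗ[ℝ] ℂ)| * (s ^ 2)⁻¹) := by
  have h1 : lfl f s t ⁻¹' {p} = (fun z => z + -t) ⁻¹' ((fun z : ℂ => s • z) ⁻¹'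
      ((f.symm : ℂ →ₗ[ℝ] ℂ) ⁻¹' {z : ℂ | ⌊z.re⌋ = p.1 ∧ ⌊z.im⌋ = p.2})) := by
    ext z
    simp only [lfl, Set.mem_preimage, Set.mem_singleton_iff, Set.mem_ofPred_eq, Prod.ext_iff, ← sub_eq_add_neg,
      Complex.real_smul, LinearEquiv.coe_coe]
  have hdet : LinearMap.det (f.symm : ℂ →ₗ[ℝ] ℂ) ≠ 0 := (LinearEquiv.isUnit_det' f.symm).ne_zero
  have hdi : LinearMap.det (f.symm : ℂ →ₗ[ℝ] ℂ) * LinearMap.det (f : ℂ →ₗ[ℝ] ℂ) = 1 := LinearEquiv.det_symm_mul_det f
  rw [h1, measure_preimage_add_right, Measure.addHaar_preimage_smul _ hs.ne', Measure.addHaar_preimage_linearMap _ hdet,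
    unit_cell, mul_one, Complex.finrank_real_complex, ← ENNReal.ofReal_mul (abs_nonneg _)]
  congr 1
  rw [abs_of_nonneg (by positivity : (0 : ℝ) ≤ (s ^ 2)⁻¹), mul_comm]
  congr 1
  have h2 : (LinearMap.det (f.symm : ℂ →ₗ[ℝ] ℂ))⁻¹ = LinearMap.det (f : ℂ →ₗ[ℝ] ℂ) := by
    rw [inv_eq_iff_eq_inv]
    exact eq_inv_of_mul_eq_one_left hdi
  rw [h2]

open Classical in
/-- the counting measure of a lattice as a push-forward of Lebesgue measure. -/
lemma lms_eq (f : ℂ ≃ₗ[ℝ] ℂ) {s : ℝ} (hs : 0 < s) (t : ℂ) :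
    lms f s t = ENNReal.ofReal |LinearMap.det (f : ℂ →ₗ[ℝ] ℂ)|⁻¹ •
      Measure.map (fun z => lpt f s t (lfl f s t z)) volume := by
  have hmf := measurable_lfl f s t
  have hmq : Measurable fun z => lpt f s t (lfl f s t z) := (measurable_of_countable (lpt f s t)).comp hmf
  have hdet : LinearMap.det (f : ℂ →ₗ[ℝ] ℂ) ≠ 0 := (LinearEquiv.isUnit_det' f).ne_zero
  have hd0 : 0 < |LinearMap.det (f : ℂ →ₗ[ℝ] ℂ)| := abs_pos.2 hdet
  ext S hS
  rw [Measure.smul_apply, Measure.map_apply hmq hS, lms, Measure.sum_apply _ hS]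
  have h1 : (fun z => lpt f s t (lfl f s t z)) ⁻¹' S = ⋃ p : ℤ × ℤ, (if lpt f s t p ∈ S then lfl f s t ⁻¹' {p} else ∅) := by
    ext z
    simp only [Set.mem_preimage, Set.mem_iUnion]
    constructor
    · intro h
      refine ⟨lfl f s t z, ?_⟩
      rw [if_pos h]
      rfl
    · rintro ⟨p, hp⟩
      by_cases h : lpt f s t p ∈ S
      · rw [if_pos h] at hp
        rw [show lfl f s t z = p from hp]
        exact h
      · rw [if_neg h] at hp
        exact absurd hp (Set.notMem_empty _)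
  rw [h1, measure_iUnion, smul_eq_mul, ← ENNReal.tsum_mul_left]
  · refine tsum_congr fun p => ?_
    rw [Measure.smul_apply, Measure.dirac_apply' _ hS, smul_eq_mul]
    by_cases h : lpt f s t p ∈ S
    · rw [Set.indicator_of_mem h, if_pos h, cell_vol f hs t p, Pi.one_apply, mul_one,
        ← ENNReal.ofReal_mul (by positivity)]
      congr 1
      rw [inv_mul_cancel_left₀ hd0.ne']
    · rw [Set.indicator_of_notMem h, if_neg h, measure_empty, mul_zero, mul_zero]
  · intro p p' hpp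
    rw [Function.onFun, Set.disjoint_left]
    intro z hz hz'
    split_ifs at hz hz' with h h'
    · exact hpp ((show lfl f s t z = p from hz).symm.trans (show lfl f s t z = p' from hz'))
    · exact hz'
    · exact hz
    · exact hz
  · intro p
    split_ifs
    · exact hmf (measurableSet_singleton p)
    · exact MeasurableSet.empty

lemma lpt_near (f : ℂ ≃ₗ[ℝ] ℂ) {s : ℝ} (hs : 0 < s) (t : ℂ) {C : ℝ} (hC : 0 ≤ C) (hCz : ∀ z : ℂ, ‖f z‖ ≤ C * ‖z‖)
    (z : ℂ) : ‖lpt f s t (lfl f s t z) - z‖ ≤ s⁻¹ * (C * 2) := by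
  obtain ⟨w, hw⟩ : ∃ w, w = f.symm ((s : ℂ) * (z - t)) := ⟨_, rfl⟩
  have hz : z = ((s⁻¹ : ℝ) : ℂ) * f w + t := by
    have h0 : (s : ℂ) ≠ 0 := by exact_mod_cast hs.ne'
    rw [hw, LinearEquiv.apply_symm_apply]
    push_cast
    rw [inv_mul_cancel_left₀ h0, sub_add_cancel]
  have h1 : lpt f s t (lfl f s t z) - z =
      ((s⁻¹ : ℝ) : ℂ) * f ((⟨(⌊w.re⌋ : ℤ), (⌊w.im⌋ : ℤ)⟩ : ℂ) - w) := by
    rw [map_sub, mul_sub]
    have h2 : lpt f s t (lfl f s t z) =
        ((s⁻¹ : ℝ) : ℂ) * f (⟨(⌊w.re⌋ : ℤ), (⌊w.im⌋ : ℤ)⟩ : ℂ) + t := by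
      simp only [lpt, lfl, ← hw]
    rw [h2]
    linear_combination -hz
  rw [h1, norm_mul, Complex.norm_real, Real.norm_eq_abs, abs_of_pos (inv_pos.2 hs)]
  refine mul_le_mul_of_nonneg_left ?_ (inv_pos.2 hs).le
  refine (hCz _).trans (mul_le_mul_of_nonneg_left ?_ hC)
  refine (Complex.norm_le_abs_re_add_abs_im _).trans ?_
  have h3 : |((⟨(⌊w.re⌋ : ℤ), (⌊w.im⌋ : ℤ)⟩ : ℂ) - w).re| ≤ 1 := by
    rw [Complex.sub_re, abs_le]
    dsimp only
    constructor <;> linarith [Int.floor_le w.re, Int.lt_floor_add_one w.re]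
  have h4 : |((⟨(⌊w.re⌋ : ℤ), (⌊w.im⌋ : ℤ)⟩ : ℂ) - w).im| ≤ 1 := by
    rw [Complex.sub_im, abs_le]
    dsimp only
    constructor <;> linarith [Int.floor_le w.im, Int.lt_floor_add_one w.im]
  linarith

/-- the lattice sums converge to the Lebesgue integral. -/
theorem lat_vag (f : ℂ ≃ₗ[ℝ] ℂ) {s : ℕ → ℝ} (hs0 : ∀ N, 0 < s N) (hs : Tendsto s atTop atTop) (t : ℕ → ℂ) :
    (∀ N, IsFiniteMeasureOnCompacts (lms f (s N) (t N))) ∧
      Vag atTop (fun N => lms f (s N) (t N)) (ENNReal.ofReal |LinearMap.det (f : ℂ →ₗ[ℝ] ℂ)|⁻¹ • volume) := by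
  have hb : ∃ C : ℝ, 0 ≤ C ∧ ∀ z : ℂ, ‖f z‖ ≤ C * ‖z‖ := by
    obtain ⟨C, hC, h⟩ := (LinearMap.toContinuousLinearMap (f : ℂ →ₗ[ℝ] ℂ)).bound
    exact ⟨C, hC.le, h⟩
  obtain ⟨C, hC, hCz⟩ := hb
  refine vag_of_map (q := fun N z => lpt f (s N) (t N) (lfl f (s N) (t N) z)) (r := fun N => (s N)⁻¹ * (C * 2)) ?_ ?_ ?_
    _ (by positivity) fun N => lms_eq f (hs0 N) (t N)
  · intro N
    exact (measurable_of_countable (lpt f (s N) (t N))).comp (measurable_lfl f (s N) (t N))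
  · have := (tendsto_inv_atTop_zero.comp hs).mul_const (C * 2)
    rw [zero_mul] at this
    exact this
  · intro N z
    exact lpt_near f (hs0 N) (t N) hC hCz z

/-- the local bound for lattices. -/
theorem lms_loc (f : ℂ ≃ₗ[ℝ] ℂ) {s : ℕ → ℝ} (hs0 : ∀ N, 0 < s N) (hs : Tendsto s atTop atTop) (t : ℕ → ℂ) (R : ℝ) :
    ∃ L : ℝ, 0 ≤ L ∧ ∀ᶠ N in atTop, ∀ w : ℂ, lms f (s N) (t N) (Metric.closedBall w R) ≤ ENNReal.ofReal L := by
  obtain ⟨C, hC, hCz⟩ : ∃ C : ℝ, 0 ≤ C ∧ ∀ z : ℂ, ‖f z‖ ≤ C * ‖z‖ := by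
    obtain ⟨C, hC, h⟩ := (LinearMap.toContinuousLinearMap (f : ℂ →ₗ[ℝ] ℂ)).bound
    exact ⟨C, hC.le, h⟩
  have hv : volume (Metric.closedBall (0 : ℂ) (R + 1)) ≠ ⊤ := (isCompact_closedBall (0 : ℂ) _).measure_lt_top.ne
  refine ⟨|LinearMap.det (f : ℂ →ₗ[ℝ] ℂ)|⁻¹ * (volume (Metric.closedBall (0 : ℂ) (R + 1))).toReal, by positivity, ?_⟩
  filter_upwards [hs.eventually (eventually_ge_atTop (C * 2))] with N hN w
  rw [lms_eq f (hs0 N) (t N), Measure.smul_apply, smul_eq_mul, ENNReal.ofReal_mul (by positivity),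
    ENNReal.ofReal_toReal hv]
  refine mul_le_mul_right ?_ _
  have hmq : Measurable fun z => lpt f (s N) (t N) (lfl f (s N) (t N) z) :=
    (measurable_of_countable (lpt f (s N) (t N))).comp (measurable_lfl f (s N) (t N))
  rw [Measure.map_apply hmq Metric.isClosed_closedBall.measurableSet]
  have h1 : (fun z => lpt f (s N) (t N) (lfl f (s N) (t N) z)) ⁻¹' Metric.closedBall w R ⊆ Metric.closedBall w (R + 1) := by
    intro z hz
    rw [Set.mem_preimage, Metric.mem_closedBall, dist_eq_norm] at hz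
    rw [Metric.mem_closedBall, dist_eq_norm]
    have h2 := lpt_near f (hs0 N) (t N) hC hCz z
    have h3 : (s N)⁻¹ * (C * 2) ≤ 1 := by
      rw [inv_mul_le_iff₀ (hs0 N), mul_one]
      exact hN
    calc ‖z - w‖ = ‖(lpt f (s N) (t N) (lfl f (s N) (t N) z) - w) - (lpt f (s N) (t N) (lfl f (s N) (t N) z) - z)‖ := by
          congr 1; ring
      _ ≤ ‖lpt f (s N) (t N) (lfl f (s N) (t N) z) - w‖ + ‖lpt f (s N) (t N) (lfl f (s N) (t N) z) - z‖ := norm_sub_le _ _
      _ ≤ R + 1 := add_le_add hz (h2.trans h3)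
  refine (measure_mono h1).trans (le_of_eq ?_)
  rw [Measure.addHaar_closedBall_center]

/-- the local bound for bounded densities. -/
lemma dens_loc {m : Measure ℂ} {h : ℂ → ℝ} {C L R : ℝ} (hC : 0 ≤ C) (hh : ∀ z, h z ≤ C)
    (hm : ∀ w : ℂ, m (Metric.closedBall w R) ≤ ENNReal.ofReal L) (w : ℂ) :
    (m.withDensity fun z => ENNReal.ofReal (h z)) (Metric.closedBall w R) ≤ ENNReal.ofReal (C * L) := by
  rw [withDensity_apply _ Metric.isClosed_closedBall.measurableSet]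
  calc ∫⁻ z in Metric.closedBall w R, ENNReal.ofReal (h z) ∂m ≤ ∫⁻ z in Metric.closedBall w R, ENNReal.ofReal C ∂m :=
        lintegral_mono fun z => ENNReal.ofReal_le_ofReal (hh z)
    _ = ENNReal.ofReal C * m (Metric.closedBall w R) := by
        rw [lintegral_const, Measure.restrict_apply MeasurableSet.univ, Set.univ_inter]
    _ ≤ ENNReal.ofReal C * ENNReal.ofReal L := mul_le_mul_right (hm w) _
    _ = ENNReal.ofReal (C * L) := (ENNReal.ofReal_mul hC).symm

lemma lms_fin (f : ℂ ≃ₗ[ℝ] ℂ) {s : ℝ} (hs : 0 < s) (t : ℂ) (R : ℝ) : {p : ℤ × ℤ | ‖lpt f s t p‖ ≤ R}.Finite := by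
  have h1 := (lat_vag f (s := fun N => s * (N + 1)) (fun N => by positivity)
    (Tendsto.const_mul_atTop hs (tendsto_atTop_add_const_right _ _ tendsto_natCast_atTop_atTop)) (fun _ => t)).1 0
  simp only [Nat.cast_zero, zero_add, mul_one] at h1
  have h2 := (isCompact_closedBall (0 : ℂ) R).measure_lt_top (μ := lms f s t)
  rw [lms, Measure.sum_apply _ Metric.isClosed_closedBall.measurableSet] at h2
  have hc : ENNReal.ofReal ((s ^ 2)⁻¹) ≠ 0 := by
    rw [Ne, ENNReal.ofReal_eq_zero, not_le]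
    positivity
  refine (ENNReal.finite_const_le_of_tsum_ne_top h2.ne hc).subset fun p hp => ?_
  have hp' : lpt f s t p ∈ Metric.closedBall (0 : ℂ) R := by simpa using hp
  simp [Measure.smul_apply, Measure.dirac_apply' _ Metric.isClosed_closedBall.measurableSet, hp']

/-- the integral with respect to the counting measure of a lattice is a sum. -/
lemma lms_int (f : ℂ ≃ₗ[ℝ] ℂ) {s : ℝ} (hs : 0 < s) (t : ℂ) {F : ℂ → ℝ} {R : ℝ} (hF : ∀ z, R < ‖z‖ → F z = 0) :
    Integrable F (lms f s t) ∧ ∫ z, F z ∂(lms f s t) = (s ^ 2)⁻¹ * ∑' p : ℤ × ℤ, F (lpt f s t p) := by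
  have hfin := lms_fin f hs t R
  have hcar : (lms f s t) (Set.range (lpt f s t))ᶜ = 0 := by
    have hm : MeasurableSet (Set.range (lpt f s t)) := (Set.countable_range _).measurableSet
    rw [lms, Measure.sum_apply _ hm.compl, ENNReal.tsum_eq_zero]
    intro p
    rw [Measure.smul_apply, Measure.dirac_apply' _ hm.compl, Set.indicator_of_notMem (by simp), smul_zero]
  have hi : Integrable F (lms f s t) := by
    refine ⟨aesm_of_countable (Set.countable_range _) hcar F, ?_⟩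
    rw [HasFiniteIntegral, lms, lintegral_sum_measure]
    have h1 : ∀ p : ℤ × ℤ, ∫⁻ z, ‖F z‖ₑ ∂(ENNReal.ofReal ((s ^ 2)⁻¹) • Measure.dirac (lpt f s t p)) =
        ENNReal.ofReal ((s ^ 2)⁻¹) * ‖F (lpt f s t p)‖ₑ := by
      intro p
      rw [lintegral_smul_measure, lintegral_dirac, smul_eq_mul]
    simp only [h1]
    rw [tsum_eq_sum (s := hfin.toFinset)]
    · exact ENNReal.sum_lt_top.2 fun p _ => ENNReal.mul_lt_top ENNReal.ofReal_lt_top enorm_lt_top
    · intro p hp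
      rw [Set.Finite.mem_toFinset, Set.mem_ofPred_eq, not_le] at hp
      rw [hF _ hp, enorm_zero, mul_zero]
  refine ⟨hi, ?_⟩
  rw [lms] at hi ⊢
  rw [integral_sum_measure hi, ← tsum_mul_left]
  refine tsum_congr fun p => ?_
  rw [integral_smul_measure, integral_dirac, ENNReal.toReal_ofReal (by positivity), smul_eq_mul]

end Pool.Agent.ROT.F3L
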