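import Mathlib
import Pool.Agent.ROT.F3LimS
import Pool.Agent.ROT.F3LimM

/-!
# F3, route NL (31): from shifts to cells, for lattice measures

* `lms_double` : the double integral over the pairs at distance `≤ d` is a sum over the lattice vectors of length `≤ d`;
* `lms_ball` : the mass of a ball;
* **`al1_of_shift`** : if the weights `g N` are equicontinuous in `L1` along the lattice vectors, then they are close to their means
  over small balls, in `L1`;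
* `lms_LM` : the lattice measures are `LM`;
* `lms_tsum` : the integral of a function carried by the lattice is a sum over `ℂ`;
* **`al1_gam`**, `bf_gam` : the same for `g N z = a N * Γ N (s N * z)` with functions `Γ N` carried by the lattice `Λ` (not scaled).
-/

set_option autoImplicit false

open Filter Topology MeasureTheory Set
open Pool.Agent.ROT.F3L

namespace Pool.Agent.ROT.F3

/-- a vector of the lattice -/
noncomputable def lvec (f : ℂ ≃ₗ[ℝ] ℂ) (s : ℝ) (u : ℤ × ℤ) : ℂ := ((s⁻¹ : ℝ) : ℂ) * f ⟨u.1, u.2⟩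

lemma lpt_zero (f : ℂ ≃ₗ[ℝ] ℂ) (s : ℝ) (u : ℤ × ℤ) : lpt f s 0 u = lvec f s u := add_zero _

lemma lpt_add (f : ℂ ≃ₗ[ℝ] ℂ) (s : ℝ) (t : ℂ) (u p : ℤ × ℤ) : lpt f s t (u + p) = lpt f s t p + lvec f s u := by
  have h1 : (⟨((u + p).1 : ℤ), ((u + p).2 : ℤ)⟩ : ℂ) = ⟨(u.1 : ℤ), (u.2 : ℤ)⟩ + ⟨(p.1 : ℤ), (p.2 : ℤ)⟩ := by
    apply Complex.ext <;> simp
  rw [lpt, lpt, lvec, h1, map_add]
  ring

/-- the lattice vectors of length at most `d` -/
noncomputable def lball (f : ℂ ≃ₗ[ℝ] ℂ) {s : ℝ} (hs : 0 < s) (d : ℝ) : Finset (ℤ × ℤ) := (lms_fin f hs 0 d).toFinset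

lemma mem_lball (f : ℂ ≃ₗ[ℝ] ℂ) {s : ℝ} (hs : 0 < s) (d : ℝ) (u : ℤ × ℤ) : u ∈ lball f hs d ↔ ‖lvec f s u‖ ≤ d := by
  rw [lball, Set.Finite.mem_toFinset, Set.mem_ofPred_eq, lpt_zero]

/-- the number of the lattice vectors -/
lemma lball_card (f : ℂ ≃ₗ[ℝ] ℂ) {s : ℝ} (hs : 0 < s) (d : ℝ) :
    (s ^ 2)⁻¹ * ((lball f hs d).card : ℝ) = (lms f s 0).real (Metric.closedBall 0 d) := by
  have h1 := lms_int f hs 0 (F := (Metric.closedBall (0 : ℂ) d).indicator fun _ => (1 : ℝ)) (R := d) fun z hz => by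
    rw [indicator_of_notMem]
    rw [mem_closedBall_zero_iff, not_le]
    exact hz
  have h2 := h1.2
  rw [integral_indicator_const _ Metric.isClosed_closedBall.measurableSet, smul_eq_mul, mul_one] at h2
  rw [h2]
  congr 1
  rw [tsum_eq_sum (s := lball f hs d)]
  · rw [Finset.card_eq_sum_ones, Nat.cast_sum]
    refine Finset.sum_congr rfl fun u hu => ?_
    rw [mem_lball] at hu
    rw [indicator_of_mem, Nat.cast_one]
    rw [mem_closedBall_zero_iff, lpt_zero]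
    exact hu
  · intro u hu
    rw [indicator_of_notMem]
    rw [mem_closedBall_zero_iff, lpt_zero]
    exact fun h => hu ((mem_lball f hs d u).2 h)

/-- **the double integral over close pairs** -/
lemma lms_double (f : ℂ ≃ₗ[ℝ] ℂ) {s : ℝ} (hs : 0 < s) (t : ℂ) {g : ℂ → ℝ} {R : ℝ} (hR : ∀ z, R < ‖z‖ → g z = 0) (d : ℝ) :
    ∫ z, ∫ v in Metric.closedBall z d, |g v - g z| ∂(lms f s t) ∂(lms f s t) =
      (s ^ 2)⁻¹ * ∑ u ∈ lball f hs d, ∫ z, |g (z + lvec f s u) - g z| ∂(lms f s t) := by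
  -- the inner integral at a point of the lattice
  have e1 : ∀ p : ℤ × ℤ, ∫ v in Metric.closedBall (lpt f s t p) d, |g v - g (lpt f s t p)| ∂(lms f s t) =
      (s ^ 2)⁻¹ * ∑ u ∈ lball f hs d, |g (lpt f s t p + lvec f s u) - g (lpt f s t p)| := by
    intro p
    rw [← integral_indicator Metric.isClosed_closedBall.measurableSet]
    have h1 := (lms_int f hs t (F := (Metric.closedBall (lpt f s t p) d).indicator fun v => |g v - g (lpt f s t p)|)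
      (R := ‖lpt f s t p‖ + d) fun z hz => by
        rw [indicator_of_notMem]
        intro h2
        rw [Metric.mem_closedBall, dist_eq_norm] at h2
        have h3 : ‖z‖ ≤ ‖lpt f s t p‖ + ‖z - lpt f s t p‖ := by
          calc ‖z‖ = ‖lpt f s t p + (z - lpt f s t p)‖ := by congr 1; ring
            _ ≤ _ := norm_add_le _ _
        linarith).2
    rw [h1]
    congr 1
    rw [← (Equiv.addRight p).tsum_eq, tsum_eq_sum (s := lball f hs d)]
    · refine Finset.sum_congr rfl fun u hu => ?_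
      rw [mem_lball] at hu
      rw [Equiv.coe_addRight, lpt_add, indicator_of_mem]
      rw [Metric.mem_closedBall, dist_eq_norm, add_sub_cancel_left]
      exact hu
    · intro u hu
      rw [mem_lball] at hu
      rw [Equiv.coe_addRight, lpt_add, indicator_of_notMem]
      rw [Metric.mem_closedBall, dist_eq_norm, add_sub_cancel_left]
      exact hu
  have e2 := (lms_int f hs t (F := fun z => ∫ v in Metric.closedBall z d, |g v - g z| ∂(lms f s t)) (R := |R| + |d|)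
    fun z hz => by
      have h1 : g z = 0 := hR z (by linarith [le_abs_self R, abs_nonneg d])
      show ∫ v in Metric.closedBall z d, |g v - g z| ∂(lms f s t) = 0
      rw [setIntegral_eq_zero_of_forall_eq_zero]
      intro v hv
      rw [Metric.mem_closedBall, dist_eq_norm] at hv
      have h3 : ‖z‖ ≤ ‖v‖ + ‖v - z‖ := by
        calc ‖z‖ = ‖v - (v - z)‖ := by congr 1; ring
          _ ≤ _ := norm_sub_le _ _
      rw [h1, hR v (by linarith [le_abs_self R, le_abs_self d]), sub_zero, abs_zero]).2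
  rw [e2]
  congr 1
  simp only [e1]
  rw [tsum_mul_left, Summable.tsum_finsetSum, Finset.mul_sum]
  · refine Finset.sum_congr rfl fun u _ => ?_
    rw [(lms_int f hs t (F := fun z => |g (z + lvec f s u) - g z|) (R := |R| + ‖lvec f s u‖) fun z hz => ?_).2]
    have h1 : g z = 0 := hR z (by linarith [le_abs_self R, norm_nonneg (lvec f s u)])
    have h3 : ‖z‖ ≤ ‖z + lvec f s u‖ + ‖lvec f s u‖ := by
      calc ‖z‖ = ‖(z + lvec f s u) - lvec f s u‖ := by congr 1; ring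
        _ ≤ _ := norm_sub_le _ _
    show |g (z + lvec f s u) - g z| = 0
    rw [h1, hR (z + lvec f s u) (by linarith [le_abs_self R]), sub_zero, abs_zero]
  · intro u _
    refine summable_of_hasFiniteSupport ((lms_fin f hs t (|R| + ‖lvec f s u‖)).subset fun p hp => ?_)
    rw [Function.mem_support] at hp
    rw [Set.mem_ofPred_eq]
    by_contra hz
    rw [not_le] at hz
    apply hp
    have h1 : g (lpt f s t p) = 0 := hR _ (by linarith [le_abs_self R, norm_nonneg (lvec f s u)])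
    have h3 : ‖lpt f s t p‖ ≤ ‖lpt f s t p + lvec f s u‖ + ‖lvec f s u‖ := by
      calc ‖lpt f s t p‖ = ‖(lpt f s t p + lvec f s u) - lvec f s u‖ := by congr 1; ring
        _ ≤ _ := norm_sub_le _ _
    rw [h1, hR (lpt f s t p + lvec f s u) (by linarith [le_abs_self R]), sub_zero, abs_zero]

/-- the mass of a ball -/
lemma lms_ball (f : ℂ ≃ₗ[ℝ] ℂ) : ∃ K C : ℝ, 0 < K ∧ 0 ≤ C ∧ ∀ (s : ℝ) (_ : 0 < s) (t w : ℂ) (d : ℝ), 0 < d → C ≤ s * d →
    (lms f s t).real (Metric.closedBall w d) ≤ K * d ^ 2 := by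
  obtain ⟨C, hC, hCz⟩ : ∃ C : ℝ, 0 ≤ C ∧ ∀ z : ℂ, ‖f z‖ ≤ C * ‖z‖ := by
    obtain ⟨C, hC, h⟩ := (LinearMap.toContinuousLinearMap (f : ℂ →ₗ[ℝ] ℂ)).bound
    exact ⟨C, hC.le, h⟩
  refine ⟨|LinearMap.det (f : ℂ →ₗ[ℝ] ℂ)|⁻¹ * (4 * Real.pi) + 1, C * 2, by positivity, by positivity, fun s hs t w d hd hsd => ?_⟩
  have hmq : Measurable fun z => lpt f s t (lfl f s t z) :=
    (measurable_of_countable (lpt f s t)).comp (measurable_lfl f s t)
  have h1 : (fun z => lpt f s t (lfl f s t z)) ⁻¹' Metric.closedBall w d ⊆ Metric.closedBall w (2 * d) := by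
    intro z hz
    rw [Set.mem_preimage, Metric.mem_closedBall, dist_eq_norm] at hz
    rw [Metric.mem_closedBall, dist_eq_norm]
    have h2 := lpt_near f hs t hC hCz z
    have h3 : s⁻¹ * (C * 2) ≤ d := by
      rw [inv_mul_le_iff₀ hs]
      exact hsd
    calc ‖z - w‖ = ‖(lpt f s t (lfl f s t z) - w) - (lpt f s t (lfl f s t z) - z)‖ := by
          congr 1; ring
      _ ≤ ‖lpt f s t (lfl f s t z) - w‖ + ‖lpt f s t (lfl f s t z) - z‖ := norm_sub_le _ _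
      _ ≤ 2 * d := by linarith
  have h2 : lms f s t (Metric.closedBall w d) ≤ ENNReal.ofReal (|LinearMap.det (f : ℂ →ₗ[ℝ] ℂ)|⁻¹ * (4 * Real.pi) * d ^ 2) := by
    rw [lms_eq f hs t, Measure.smul_apply, smul_eq_mul, Measure.map_apply hmq Metric.isClosed_closedBall.measurableSet,
      mul_assoc, ENNReal.ofReal_mul (by positivity)]
    refine mul_le_mul_right ((measure_mono h1).trans (le_of_eq ?_)) _
    rw [Complex.volume_closedBall, ← ENNReal.ofReal_pow (by positivity), ← ENNReal.ofReal_coe_nnreal,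
      ← ENNReal.ofReal_mul (by positivity), NNReal.coe_real_pi]
    congr 1
    ring
  have h3 : (lms f s t).real (Metric.closedBall w d) ≤ |LinearMap.det (f : ℂ →ₗ[ℝ] ℂ)|⁻¹ * (4 * Real.pi) * d ^ 2 :=
    ENNReal.toReal_le_of_le_ofReal (by positivity) h2
  nlinarith [sq_nonneg d]

/-- **from shifts to means over small balls** -/
theorem al1_of_shift {l : Filter ℕ} (f : ℂ ≃ₗ[ℝ] ℂ) {s : ℕ → ℝ} (hs0 : ∀ N, 0 < s N)
    (hs : Tendsto s l atTop) (t : ℕ → ℂ) {g : ℕ → ℂ → ℝ} {R : ℝ} (hR : ∀ᶠ N in l, ∀ z, R ≤ ‖z‖ → g N z = 0)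
    (h : ∀ ε : ℝ, 0 < ε → ∃ η : ℝ, 0 < η ∧ ∀ᶠ N in l, ∀ u : ℤ × ℤ, ‖lvec f (s N) u‖ ≤ η →
      ∫ z, |g N (z + lvec f (s N) u) - g N z| ∂(lms f (s N) (t N)) ≤ ε) :
    AL1 l (fun N => lms f (s N) (t N)) g := by
  obtain ⟨K, C, hK, hC, hb⟩ := lms_ball f
  intro ε hε
  obtain ⟨η, hη, h1⟩ := h (ε / K) (by positivity)
  refine ⟨η, hη, fun d hd hdη => ?_⟩
  filter_upwards [h1, hs.eventually (eventually_ge_atTop (C / d)), hR] with N hN hN2 hRN
  rw [lms_double f (hs0 N) (t N) (R := R) (fun z hz => hRN z hz.le) d]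
  have h2 : ∑ u ∈ lball f (hs0 N) d, ∫ z, |g N (z + lvec f (s N) u) - g N z| ∂(lms f (s N) (t N)) ≤
      ((lball f (hs0 N) d).card : ℝ) * (ε / K) := by
    rw [← nsmul_eq_mul]
    refine Finset.sum_le_card_nsmul _ _ _ fun u hu => ?_
    rw [mem_lball] at hu
    exact hN u (hu.trans hdη)
  have h3 : (s N ^ 2)⁻¹ * ((lball f (hs0 N) d).card : ℝ) ≤ K * d ^ 2 := by
    rw [lball_card]
    refine hb (s N) (hs0 N) 0 0 d hd ?_
    rwa [div_le_iff₀ hd] at hN2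
  have h4 : 0 < (s N ^ 2)⁻¹ := by have := hs0 N; positivity
  calc (s N ^ 2)⁻¹ * ∑ u ∈ lball f (hs0 N) d, ∫ z, |g N (z + lvec f (s N) u) - g N z| ∂(lms f (s N) (t N))
      ≤ (s N ^ 2)⁻¹ * (((lball f (hs0 N) d).card : ℝ) * (ε / K)) := mul_le_mul_of_nonneg_left h2 h4.le
    _ = ((s N ^ 2)⁻¹ * ((lball f (hs0 N) d).card : ℝ)) * (ε / K) := by ring
    _ ≤ (K * d ^ 2) * (ε / K) := mul_le_mul_of_nonneg_right h3 (by positivity)
    _ = ε * d ^ 2 := by field_simp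

lemma lms_fmc (f : ℂ ≃ₗ[ℝ] ℂ) {s : ℝ} (hs : 0 < s) (t : ℂ) : IsFiniteMeasureOnCompacts (lms f s t) := by
  have h2 := (lat_vag f (s := fun M => s * (M + 1)) (fun M => by positivity)
    (Tendsto.const_mul_atTop hs (tendsto_atTop_add_const_right _ _ tendsto_natCast_atTop_atTop)) (fun _ => t)).1 0
  simp only [Nat.cast_zero, zero_add, mul_one] at h2
  exact h2

/-- the local bound of the lattice measures -/
lemma lms_locr {l : Filter ℕ} (f : ℂ ≃ₗ[ℝ] ℂ) {s : ℕ → ℝ} (hs0 : ∀ N, 0 < s N) (hs : Tendsto s l atTop) (t : ℕ → ℂ) (R : ℝ) :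
    ∃ K : ℝ, ∀ᶠ N in l, ∀ w : ℂ, (lms f (s N) (t N)).real (Metric.closedBall w R) ≤ K := by
  obtain ⟨K, C, hK, hC, hb⟩ := lms_ball f
  refine ⟨K * (|R| + 1) ^ 2, ?_⟩
  filter_upwards [hs.eventually (eventually_ge_atTop C)] with N hN w
  have h1 := hb (s N) (hs0 N) (t N) w (|R| + 1) (by positivity) (by nlinarith [abs_nonneg R, hs0 N])
  refine le_trans ?_ h1
  have := lms_fmc f (hs0 N) (t N)
  exact measureReal_mono (Metric.closedBall_subset_closedBall (by linarith [le_abs_self R]))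
    (isCompact_closedBall w (|R| + 1)).measure_lt_top.ne

/-- the lattice measures are `LM` -/
theorem lms_LM {l : Filter ℕ} (hl : l ≤ atTop) (f : ℂ ≃ₗ[ℝ] ℂ) {s : ℕ → ℝ} (hs0 : ∀ N, 0 < s N)
    (hs : Tendsto s atTop atTop) (t : ℕ → ℂ) :
    LM l (fun N => lms f (s N) (t N)) |LinearMap.det (f : ℂ →ₗ[ℝ] ℂ)|⁻¹ := by
  have hdet : LinearMap.det (f : ℂ →ₗ[ℝ] ℂ) ≠ 0 := (LinearEquiv.isUnit_det' f).ne_zero
  refine ⟨fun N => lms_fmc f (hs0 N) (t N), inv_pos.2 (abs_pos.2 hdet), fun Ψ h1 h2 => ?_, fun R => ?_⟩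
  · have h3 := ((lat_vag f hs0 hs t).2 Ψ h1 h2).mono_left hl
    rw [integral_smul_measure, ENNReal.toReal_ofReal (by positivity), smul_eq_mul] at h3
    exact h3
  · exact lms_locr f hs0 (hs.mono_left hl) t R

lemma lpt_inj (f : ℂ ≃ₗ[ℝ] ℂ) {s : ℝ} (hs : 0 < s) (t : ℂ) : Function.Injective (lpt f s t) := by
  intro p q h
  have h0 : ((s⁻¹ : ℝ) : ℂ) ≠ 0 := by exact_mod_cast (inv_pos.2 hs).ne'
  have h1 := mul_left_cancel₀ h0 (add_right_cancel h)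
  have h2 := f.injective h1
  have h3 := congrArg Complex.re h2
  have h4 := congrArg Complex.im h2
  simp only [Int.cast_inj] at h3 h4
  exact Prod.ext h3 h4

/-- the integral of a function carried by the lattice -/
lemma lms_tsum (f : ℂ ≃ₗ[ℝ] ℂ) {s : ℝ} (hs : 0 < s) (t : ℂ) {F : ℂ → ℝ} {R : ℝ} (hF : ∀ z, R < ‖z‖ → F z = 0)
    (hc : ∀ z, F z ≠ 0 → z ∈ Set.range (lpt f s t)) :
    ∫ z, F z ∂(lms f s t) = (s ^ 2)⁻¹ * ∑' z : ℂ, F z := by
  rw [(lms_int f hs t hF).2]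
  congr 1
  exact (lpt_inj f hs t).tsum_eq fun z hz => hc z hz

/-- the lattice -/
def Lat (f : ℂ ≃ₗ[ℝ] ℂ) : Set ℂ := Set.range fun u : ℤ × ℤ => f ⟨u.1, u.2⟩

lemma lat_add (f : ℂ ≃ₗ[ℝ] ℂ) {z w : ℂ} (hz : z ∈ Lat f) (hw : w ∈ Lat f) : z + w ∈ Lat f := by
  obtain ⟨p, rfl⟩ := hz
  obtain ⟨q, rfl⟩ := hw
  refine ⟨p + q, ?_⟩
  have h1 : (⟨((p + q).1 : ℤ), ((p + q).2 : ℤ)⟩ : ℂ) = ⟨(p.1 : ℤ), (p.2 : ℤ)⟩ + ⟨(q.1 : ℤ), (q.2 : ℤ)⟩ := by
    apply Complex.ext <;> simp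
  simp only [h1, map_add]

lemma lat_neg (f : ℂ ≃ₗ[ℝ] ℂ) {z : ℂ} (hz : z ∈ Lat f) : -z ∈ Lat f := by
  obtain ⟨p, rfl⟩ := hz
  refine ⟨-p, ?_⟩
  have h1 : (⟨((-p).1 : ℤ), ((-p).2 : ℤ)⟩ : ℂ) = -⟨(p.1 : ℤ), (p.2 : ℤ)⟩ := by
    apply Complex.ext <;> simp
  simp only [h1, map_neg]

lemma mem_range_lpt (f : ℂ ≃ₗ[ℝ] ℂ) {s : ℝ} (hs : 0 < s) {z : ℂ} (h : (s : ℂ) * z ∈ Lat f) :
    z ∈ Set.range (lpt f s 0) := by
  obtain ⟨u, hu⟩ := h
  refine ⟨u, ?_⟩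
  have h0 : (s : ℂ) ≠ 0 := by exact_mod_cast hs.ne'
  rw [lpt_zero, lvec]
  simp only at hu
  rw [hu]
  push_cast
  rw [inv_mul_cancel_left₀ h0]

lemma meas_carried {Γ : ℂ → ℝ} {Λ : Set ℂ} (hΛ : Λ.Countable) (h : ∀ z, Γ z ≠ 0 → z ∈ Λ) : Measurable Γ := by
  intro S _
  by_cases h0 : (0 : ℝ) ∈ S
  · have h1 : (Γ ⁻¹' S)ᶜ ⊆ Λ := fun z hz => h z fun h2 => hz (by rw [mem_preimage, h2]; exact h0)
    exact (hΛ.mono h1).measurableSet.of_compl
  · have h1 : Γ ⁻¹' S ⊆ Λ := fun z hz => h z fun h2 => h0 (by rw [← h2]; exact hz)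
    exact (hΛ.mono h1).measurableSet

lemma lat_countable (f : ℂ ≃ₗ[ℝ] ℂ) : (Lat f).Countable := Set.countable_range _

/-- the scaled function -/
noncomputable def scl (a s : ℝ) (Γ : ℂ → ℝ) (z : ℂ) : ℝ := a * Γ ((s : ℂ) * z)

lemma scl_meas (f : ℂ ≃ₗ[ℝ] ℂ) (a s : ℝ) {Γ : ℂ → ℝ} (h : ∀ z, Γ z ≠ 0 → z ∈ Lat f) : Measurable (scl a s Γ) :=
  ((meas_carried (lat_countable f) h).comp (measurable_const_mul _)).const_mul a

/-- **`BF` for the scaled weights** -/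
lemma bf_gam {l : Filter ℕ} (f : ℂ ≃ₗ[ℝ] ℂ) {s a : ℕ → ℝ} (hs0 : ∀ N, 0 < s N) {Γ : ℕ → ℂ → ℝ}
    (hΛ : ∀ N z, Γ N z ≠ 0 → z ∈ Lat f) {C R : ℝ} (hC : 0 ≤ C) (hR : 0 ≤ R)
    (hb : ∀ᶠ N in l, ∀ z, 0 ≤ a N * Γ N z ∧ a N * Γ N z ≤ C) (hsupp : ∀ᶠ N in l, ∀ z, R * s N ≤ ‖z‖ → Γ N z = 0) :
    BF l (fun N => scl (a N) (s N) (Γ N)) C R := by
  refine ⟨fun N => scl_meas f _ _ (hΛ N), ?_, ?_, hC, hR⟩
  · filter_upwards [hb] with N hN z
    exact hN _
  · filter_upwards [hsupp] with N hN z hz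
    show a N * Γ N ((s N : ℂ) * z) = 0
    rw [hN, mul_zero]
    rw [norm_mul, Complex.norm_real, Real.norm_eq_abs, abs_of_pos (hs0 N), mul_comm]
    exact mul_le_mul_of_nonneg_left hz (hs0 N).le

/-- **`AL1` for the scaled weights**: `∑_z |Γ N (z + v) - Γ N z| ≤ ε s² / a` for the lattice vectors `‖v‖ ≤ η s` -/
theorem al1_gam {l : Filter ℕ} (f : ℂ ≃ₗ[ℝ] ℂ) {s a : ℕ → ℝ} (hs0 : ∀ N, 0 < s N) (hs : Tendsto s l atTop)
    (ha : ∀ᶠ N in l, 0 ≤ a N) {Γ : ℕ → ℂ → ℝ} (hΛ : ∀ N z, Γ N z ≠ 0 → z ∈ Lat f) {R : ℝ}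
    (hsupp : ∀ᶠ N in l, ∀ z, R * s N ≤ ‖z‖ → Γ N z = 0)
    (h : ∀ ε : ℝ, 0 < ε → ∃ η : ℝ, 0 < η ∧ ∀ᶠ N in l, ∀ v ∈ Lat f, ‖v‖ ≤ η * s N →
      a N * ∑' z : ℂ, |Γ N (z + v) - Γ N z| ≤ ε * s N ^ 2) :
    AL1 l (fun N => lms f (s N) 0) (fun N => scl (a N) (s N) (Γ N)) := by
  have hsupp2 : ∀ᶠ N in l, ∀ z, R ≤ ‖z‖ → scl (a N) (s N) (Γ N) z = 0 := by
    filter_upwards [hsupp] with N hN z hz
    show a N * Γ N ((s N : ℂ) * z) = 0
    rw [hN, mul_zero]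
    rw [norm_mul, Complex.norm_real, Real.norm_eq_abs, abs_of_pos (hs0 N), mul_comm]
    exact mul_le_mul_of_nonneg_left hz (hs0 N).le
  refine al1_of_shift f hs0 hs (fun _ => 0) hsupp2 fun ε hε => ?_
  obtain ⟨η, hη, h1⟩ := h ε hε
  refine ⟨η, hη, ?_⟩
  filter_upwards [h1, ha, hsupp2] with N hN haN hRN u hu
  have h0 : (s N : ℂ) ≠ 0 := by exact_mod_cast (hs0 N).ne'
  obtain ⟨v, hv⟩ : ∃ v : ℂ, v = f ⟨u.1, u.2⟩ := ⟨_, rfl⟩
  have hvL : v ∈ Lat f := ⟨u, hv.symm⟩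
  have hlv : lvec f (s N) u = ((s N)⁻¹ : ℝ) * v := by rw [lvec, hv]
  have hsv : (s N : ℂ) * lvec f (s N) u = v := by
    rw [hlv]
    push_cast
    rw [mul_inv_cancel_left₀ h0]
  have hvn : ‖v‖ ≤ η * s N := by
    rw [← hsv, norm_mul, Complex.norm_real, Real.norm_eq_abs, abs_of_pos (hs0 N), mul_comm]
    exact mul_le_mul_of_nonneg_right hu (hs0 N).le
  have h2 := lms_tsum f (hs0 N) 0 (F := fun z => |scl (a N) (s N) (Γ N) (z + lvec f (s N) u) - scl (a N) (s N) (Γ N) z|)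
    (R := |R| + ‖lvec f (s N) u‖) (fun z hz => by
      have e1 : scl (a N) (s N) (Γ N) z = 0 := hRN z (by linarith [le_abs_self R, norm_nonneg (lvec f (s N) u)])
      have e3 : ‖z‖ ≤ ‖z + lvec f (s N) u‖ + ‖lvec f (s N) u‖ := by
        calc ‖z‖ = ‖(z + lvec f (s N) u) - lvec f (s N) u‖ := by congr 1; ring
          _ ≤ _ := norm_sub_le _ _
      show |scl (a N) (s N) (Γ N) (z + lvec f (s N) u) - scl (a N) (s N) (Γ N) z| = 0
      rw [e1, hRN (z + lvec f (s N) u) (by linarith [le_abs_self R]), sub_zero, abs_zero]) (fun z hz => by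
      refine mem_range_lpt f (hs0 N) ?_
      by_contra hn
      apply hz
      have e1 : Γ N ((s N : ℂ) * z) = 0 := by
        by_contra h5
        exact hn (hΛ N _ h5)
      have e2 : Γ N ((s N : ℂ) * (z + lvec f (s N) u)) = 0 := by
        by_contra h5
        refine hn ?_
        have h6 := lat_add f (hΛ N _ h5) (lat_neg f hvL)
        rw [mul_add, hsv, add_neg_cancel_right] at h6
        exact h6
      show |a N * Γ N ((s N : ℂ) * (z + lvec f (s N) u)) - a N * Γ N ((s N : ℂ) * z)| = 0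
      rw [e1, e2]
      simp)
  rw [h2]
  have h3 : ∑' z : ℂ, |scl (a N) (s N) (Γ N) (z + lvec f (s N) u) - scl (a N) (s N) (Γ N) z| =
      a N * ∑' z : ℂ, |Γ N (z + v) - Γ N z| := by
    rw [← tsum_mul_left, ← (Equiv.mulLeft₀ (s N : ℂ) h0).tsum_eq fun z => a N * |Γ N (z + v) - Γ N z|]
    refine tsum_congr fun z => ?_
    rw [Equiv.mulLeft₀_apply]
    show |a N * Γ N ((s N : ℂ) * (z + lvec f (s N) u)) - a N * Γ N ((s N : ℂ) * z)| = _
    rw [← mul_sub, abs_mul, abs_of_nonneg haN, mul_add, hsv]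
  rw [h3, inv_mul_le_iff₀ (by have := hs0 N; positivity), mul_comm _ ε]
  exact hN v hvL hvn

end Pool.Agent.ROT.F3
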