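import Pool.Agent.ROT.F3Lim

/-!
# F3, row L3: the product form for all measurable functions of the two connection pieces (helper15)

* `pair_eq` : measures on `K1 × K2` which agree on products of test functions;
* `ker1` : densities `g e (pz x) * h x` for all test functions `e` come from a kernel;
* **`c3_ker`** : if the measures `e e' P` have on `D` the densities `g e (pz x) * h e' (pw x)`, then on `D` the measure `P` is
  `g 1 (pz x) * h 1 (pw x) μ(dx) κ (pz x) (dk) κ' (pw x) (dk')`.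
-/

set_option autoImplicit false

open MeasureTheory Set Filter Topology TopologicalSpace ProbabilityTheory

open scoped ENNReal NNReal

namespace Pool.Agent.ROT.F3

section pair

variable {K1 K2 : Type*} [PseudoEMetricSpace K1] [PseudoEMetricSpace K2] [MeasurableSpace K1] [BorelSpace K1]
  [MeasurableSpace K2] [BorelSpace K2]

lemma rect_mass (m : Measure (K1 × K2)) {O1 : Set K1} {O2 : Set K2} (h1 : IsOpen O1) (h2 : IsOpen O2) {u : ℕ → K1 → ℝ}
    {v : ℕ → K2 → ℝ} (u1 : ∀ n, TF (u n)) (u3 : ∀ n x, u n x ≤ u (n + 1) x)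
    (u4 : ∀ x, ⨆ n, ENNReal.ofReal (u n x) = O1.indicator (fun _ => (1 : ℝ≥0∞)) x)
    (v1 : ∀ n, TF (v n)) (v3 : ∀ n x, v n x ≤ v (n + 1) x)
    (v4 : ∀ x, ⨆ n, ENNReal.ofReal (v n x) = O2.indicator (fun _ => (1 : ℝ≥0∞)) x) :
    m (O1 ×ˢ O2) = ⨆ n, ∫⁻ k, ENNReal.ofReal (u n k.1 * v n k.2) ∂m := by
  have hmono : Monotone fun (n : ℕ) (k : K1 × K2) => ENNReal.ofReal (u n k.1 * v n k.2) := by
    apply monotone_nat_of_le_succ
    intro n k
    exact ENNReal.ofReal_le_ofReal (mul_le_mul (u3 n _) (v3 n _) ((v1 n).2 _).1 ((u1 _).2 _).1)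
  have hmm : ∀ n, Measurable fun k : K1 × K2 => ENNReal.ofReal (u n k.1 * v n k.2) := fun n =>
    (((u1 n).meas.comp measurable_fst).mul ((v1 n).meas.comp measurable_snd)).ennreal_ofReal
  rw [← lintegral_iSup hmm hmono]
  have e1 : (fun k : K1 × K2 => ⨆ n, ENNReal.ofReal (u n k.1 * v n k.2)) = (O1 ×ˢ O2).indicator (fun _ => (1 : ℝ≥0∞)) := by
    funext k
    refine iSup_eq_of_tendsto (fun n n' hn => hmono hn k) ?_
    have tu : Tendsto (fun n => ENNReal.ofReal (u n k.1)) atTop (𝓝 (O1.indicator (fun _ => (1 : ℝ≥0∞)) k.1)) := by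
      rw [← u4 k.1]
      exact tendsto_atTop_iSup (monotone_nat_of_le_succ fun n => ENNReal.ofReal_le_ofReal (u3 n _))
    have tv : Tendsto (fun n => ENNReal.ofReal (v n k.2)) atTop (𝓝 (O2.indicator (fun _ => (1 : ℝ≥0∞)) k.2)) := by
      rw [← v4 k.2]
      exact tendsto_atTop_iSup (monotone_nat_of_le_succ fun n => ENNReal.ofReal_le_ofReal (v3 n _))
    have tt := ENNReal.Tendsto.mul tu (Or.inr (ind_ne_top O2 k.2)) tv (Or.inr (ind_ne_top O1 k.1))
    have e2 : O1.indicator (fun _ => (1 : ℝ≥0∞)) k.1 * O2.indicator (fun _ => (1 : ℝ≥0∞)) k.2 =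
        (O1 ×ˢ O2).indicator (fun _ => (1 : ℝ≥0∞)) k := by
      by_cases c1 : k.1 ∈ O1 <;> by_cases c2 : k.2 ∈ O2 <;> simp [indicator, c1, c2]
    rw [e2] at tt
    refine tt.congr fun n => ?_
    rw [ENNReal.ofReal_mul ((u1 n).2 _).1]
  rw [e1, lintegral_indicator (h1.measurableSet.prod h2.measurableSet)]
  simp

/-- measures which agree on products of test functions are equal -/
theorem pair_eq {m1 m2 : Measure (K1 × K2)} [IsFiniteMeasure m1]
    (h : ∀ (e : K1 → ℝ) (e' : K2 → ℝ), TF e → TF e' →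
      ∫⁻ k, ENNReal.ofReal (e k.1 * e' k.2) ∂m1 = ∫⁻ k, ENNReal.ofReal (e k.1 * e' k.2) ∂m2) : m1 = m2 := by
  have hrect : ∀ (O1 : Set K1) (O2 : Set K2), IsOpen O1 → IsOpen O2 → m1 (O1 ×ˢ O2) = m2 (O1 ×ˢ O2) := by
    intro O1 O2 h1 h2
    obtain ⟨u, u1, u2, u3, u4⟩ := TF.up O1 h1
    obtain ⟨v, v1, v2, v3, v4⟩ := TF.up O2 h2
    rw [rect_mass m1 h1 h2 u1 u3 u4 v1 v3 v4, rect_mass m2 h1 h2 u1 u3 u4 v1 v3 v4]
    exact iSup_congr fun n => h _ _ (u1 n) (v1 n)
  refine ext_of_generate_finite _ rect_gen rect_pi ?_ ?_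
  · rintro _ ⟨O1, h1, O2, h2, rfl⟩
    exact hrect O1 O2 h1 h2
  · have := hrect univ univ isOpen_univ isOpen_univ
    rwa [univ_prod_univ] at this

end pair

section ker

variable {K X Z : Type*} [PseudoEMetricSpace K] [MeasurableSpace K] [BorelSpace K] [StandardBorelSpace K] [Nonempty K]
  [MeasurableSpace X] [MeasurableSpace Z] {P : Measure (K × X)} [IsFiniteMeasure P] {μ : Measure X} {D : Set X}
  {pz : X → Z} {h : X → ℝ≥0∞} {g : (K → ℝ) → Z → ℝ≥0∞}

/-- **the kernel of one connection piece** -/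
theorem ker1 (hD : MeasurableSet D) (hz : Measurable pz) (hh : Measurable h) (hg : ∀ e, TF e → Measurable (g e))
    (hyp : ∀ e : K → ℝ, TF e → ∀ S : Set X, MeasurableSet S → S ⊆ D →
      ∫⁻ x in Prod.snd ⁻¹' S, ENNReal.ofReal (e x.1) ∂P = ∫⁻ x in S, g e (pz x) * h x ∂μ) :
    ∃ κ : Kernel Z K, IsMarkovKernel κ ∧ ∀ e : K → ℝ, TF e → ∀ᵐ x ∂(μ.restrict D), h x ≠ 0 →
      (∫⁻ k, ENNReal.ofReal (e k) ∂(κ (pz x))) * g (fun _ => 1) (pz x) = g e (pz x) := by
  have hq : Measurable fun p : K × X => (pz p.2, p.1) := (hz.comp measurable_snd).prodMk measurable_fst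
  obtain ⟨P1, hP1⟩ : ∃ P1 : Measure (Z × K), P1 = (P.restrict (Prod.snd ⁻¹' D)).map fun p => (pz p.2, p.1) := ⟨_, rfl⟩
  have hfin : IsFiniteMeasure P1 := by rw [hP1]; infer_instance
  refine ⟨P1.condKernel, inferInstance, fun e he => ?_⟩
  -- the image measure
  obtain ⟨M, hM⟩ : ∃ M : Measure Z, M = ((μ.restrict D).withDensity h).map pz := ⟨_, rfl⟩
  have hMi : ∀ (F : Z → ℝ≥0∞), Measurable F → ∀ ζ : Set Z, MeasurableSet ζ →
      ∫⁻ z in ζ, F z ∂M = ∫⁻ x in D ∩ pz ⁻¹' ζ, F (pz x) * h x ∂μ := by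
    intro F hF ζ hζ
    have hFz : Measurable fun x => ζ.indicator F (pz x) := (hF.indicator hζ).comp hz
    rw [hM, ← lintegral_indicator hζ, lintegral_map (hF.indicator hζ) hz,
      lintegral_withDensity_eq_lintegral_mul _ hh hFz, inter_comm,
      ← Measure.restrict_restrict (hz hζ), ← lintegral_indicator (hz hζ)]
    refine lintegral_congr fun x => ?_
    show h x * ζ.indicator F (pz x) = (pz ⁻¹' ζ).indicator (fun x => F (pz x) * h x) x
    by_cases hx : pz x ∈ ζ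
    · rw [indicator_of_mem hx, indicator_of_mem (show x ∈ pz ⁻¹' ζ from hx), mul_comm]
    · rw [indicator_of_notMem hx, indicator_of_notMem (show x ∉ pz ⁻¹' ζ from hx), mul_zero]
  have hE : Measurable fun k => ENNReal.ofReal (e k) := he.meas.ennreal_ofReal
  have hκ : Measurable fun z => ∫⁻ k, ENNReal.ofReal (e k) ∂(P1.condKernel z) := hE.lintegral_kernel
  have h1m := hg _ (TF.one (α := K))
  have hκf : Measurable fun p : Z × K => ∫⁻ k, ENNReal.ofReal (e k) ∂(P1.condKernel p.1) := hκ.comp measurable_fst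
  have hEs : Measurable fun p : Z × K => ENNReal.ofReal (e p.2) := hE.comp measurable_snd
  have hP1i : ∀ F : Z × K → ℝ≥0∞, Measurable F → ∀ ζ : Set Z, MeasurableSet ζ →
      ∫⁻ p in ζ ×ˢ (univ : Set K), F p ∂P1 = ∫⁻ x in Prod.snd ⁻¹' (D ∩ pz ⁻¹' ζ), F (pz x.2, x.1) ∂P := by
    intro F hF ζ hζ
    have hu : MeasurableSet (ζ ×ˢ (univ : Set K)) := hζ.prod MeasurableSet.univ
    rw [← lintegral_indicator hu, hP1, lintegral_map (hF.indicator hu) hq, preimage_inter, inter_comm,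
      ← Measure.restrict_restrict (measurable_snd (hz hζ)), ← lintegral_indicator (measurable_snd (hz hζ))]
    refine lintegral_congr fun p => ?_
    by_cases hp : pz p.2 ∈ ζ
    · rw [indicator_of_mem (show p ∈ Prod.snd ⁻¹' (pz ⁻¹' ζ) from hp),
        indicator_of_mem (show (pz p.2, p.1) ∈ ζ ×ˢ (univ : Set K) from ⟨hp, mem_univ _⟩)]
    · rw [indicator_of_notMem (show p ∉ Prod.snd ⁻¹' (pz ⁻¹' ζ) from hp),
        indicator_of_notMem (show (pz p.2, p.1) ∉ ζ ×ˢ (univ : Set K) from fun hh => hp hh.1)]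
  -- the two sides
  have hF2 : ∀ ζ : Set Z, MeasurableSet ζ → ∫⁻ z in ζ, g e z ∂M = ∫⁻ x in Prod.snd ⁻¹' (D ∩ pz ⁻¹' ζ), ENNReal.ofReal (e x.1) ∂P := by
    intro ζ hζ
    rw [hMi _ (hg e he) ζ hζ, hyp e he _ (hD.inter (hz hζ)) inter_subset_left]
  -- the law of `x`
  have hPX : ∀ (F : X → ℝ≥0∞), Measurable F → ∀ S : Set X, MeasurableSet S → S ⊆ D →
      ∫⁻ x in Prod.snd ⁻¹' S, F x.2 ∂P = ∫⁻ x in S, F x * (g (fun _ => 1) (pz x) * h x) ∂μ := by
    intro F hF S hS hSD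
    have hgh : Measurable fun x => g (fun _ => 1) (pz x) * h x := (h1m.comp hz).mul hh
    have e1 : (P.restrict (Prod.snd ⁻¹' S)).map Prod.snd = (μ.restrict S).withDensity fun x => g (fun _ => 1) (pz x) * h x := by
      refine Measure.ext fun T hT => ?_
      rw [Measure.map_apply measurable_snd hT, Measure.restrict_apply (measurable_snd hT), withDensity_apply _ hT,
        Measure.restrict_restrict hT]
      have h2 := hyp _ TF.one (T ∩ S) (hT.inter hS) (inter_subset_right.trans hSD)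
      rw [← h2]
      simp only [ENNReal.ofReal_one, lintegral_const, one_mul, Measure.restrict_apply MeasurableSet.univ, univ_inter,
        preimage_inter]
    rw [← lintegral_map hF measurable_snd, e1, lintegral_withDensity_eq_lintegral_mul _ hgh hF]
    exact lintegral_congr fun x => mul_comm _ _
  have hF1 : ∀ ζ : Set Z, MeasurableSet ζ →
      ∫⁻ z in ζ, (∫⁻ k, ENNReal.ofReal (e k) ∂(P1.condKernel z)) * g (fun _ => 1) z ∂M =
        ∫⁻ x in Prod.snd ⁻¹' (D ∩ pz ⁻¹' ζ), ENNReal.ofReal (e x.1) ∂P := by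
    intro ζ hζ
    have hSm : MeasurableSet (D ∩ pz ⁻¹' ζ) := hD.inter (hz hζ)
    have hκ1 : Measurable fun z => (∫⁻ k, ENNReal.ofReal (e k) ∂(P1.condKernel z)) * g (fun _ => 1) z := hκ.mul h1m
    rw [hMi _ hκ1 ζ hζ]
    have e1 : ∫⁻ x in D ∩ pz ⁻¹' ζ, (∫⁻ k, ENNReal.ofReal (e k) ∂(P1.condKernel (pz x))) * g (fun _ => 1) (pz x) * h x ∂μ =
        ∫⁻ x in Prod.snd ⁻¹' (D ∩ pz ⁻¹' ζ), (∫⁻ k, ENNReal.ofReal (e k) ∂(P1.condKernel (pz x.2))) ∂P := by
      have hκz : Measurable fun x => ∫⁻ k, ENNReal.ofReal (e k) ∂(P1.condKernel (pz x)) := hκ.comp hz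
      rw [hPX _ hκz _ hSm inter_subset_left]
      exact lintegral_congr fun x => mul_assoc _ _ _
    rw [e1]
    have e2 : ∫⁻ x in Prod.snd ⁻¹' (D ∩ pz ⁻¹' ζ), (∫⁻ k, ENNReal.ofReal (e k) ∂(P1.condKernel (pz x.2))) ∂P =
        ∫⁻ p in ζ ×ˢ (univ : Set K), (∫⁻ k, ENNReal.ofReal (e k) ∂(P1.condKernel p.1)) ∂P1 := (hP1i _ hκf ζ hζ).symm
    have e3 : ∫⁻ x in Prod.snd ⁻¹' (D ∩ pz ⁻¹' ζ), ENNReal.ofReal (e x.1) ∂P =
        ∫⁻ p in ζ ×ˢ (univ : Set K), ENNReal.ofReal (e p.2) ∂P1 := (hP1i _ hEs ζ hζ).symm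
    have e4 := Measure.setLIntegral_condKernel_univ_right (ρ := P1) hEs hζ
    have e5 := Measure.setLIntegral_condKernel_univ_right (ρ := P1) hκf hζ
    rw [e2, e3, ← e4, ← e5]
    refine lintegral_congr fun z => ?_
    simp
  have hf2 : ∫⁻ z, g e z ∂M ≠ ∞ := by
    have h2 := hF2 univ MeasurableSet.univ
    rw [Measure.restrict_univ] at h2
    rw [h2]
    refine ne_top_of_le_ne_top (measure_ne_top P univ) ?_
    calc ∫⁻ x in Prod.snd ⁻¹' (D ∩ pz ⁻¹' univ), ENNReal.ofReal (e x.1) ∂P ≤ ∫⁻ x, ENNReal.ofReal (e x.1) ∂P :=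
          setLIntegral_le_lintegral _ _
      _ ≤ ∫⁻ _, 1 ∂P := by
          refine lintegral_mono fun x => ?_
          rw [← ENNReal.ofReal_one]
          exact ENNReal.ofReal_le_ofReal (he.2 _).2
      _ = P univ := by simp
  have hf1 : ∫⁻ z, (∫⁻ k, ENNReal.ofReal (e k) ∂(P1.condKernel z)) * g (fun _ => 1) z ∂M ≠ ∞ := by
    have h2 := hF1 univ MeasurableSet.univ
    have h3 := hF2 univ MeasurableSet.univ
    rw [Measure.restrict_univ] at h2 h3
    rw [h2, ← h3]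
    exact hf2
  have hae : (fun z => (∫⁻ k, ENNReal.ofReal (e k) ∂(P1.condKernel z)) * g (fun _ => 1) z) =ᵐ[M] g e :=
    AEMeasurable.ae_eq_of_forall_setLIntegral_eq (hκ.mul h1m).aemeasurable (hg e he).aemeasurable hf1 hf2
      fun ζ hζ _ => by rw [hF1 ζ hζ, hF2 ζ hζ]
  have hae2 : ∀ᵐ x ∂((μ.restrict D).withDensity h),
      (∫⁻ k, ENNReal.ofReal (e k) ∂(P1.condKernel (pz x))) * g (fun _ => 1) (pz x) = g e (pz x) := by
    rw [hM] at hae
    exact ae_of_ae_map hz.aemeasurable hae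
  exact (ae_withDensity_iff hh).1 hae2

end ker

section c3

variable {K1 K2 X Z W : Type*} [PseudoEMetricSpace K1] [MeasurableSpace K1] [BorelSpace K1] [StandardBorelSpace K1] [Nonempty K1]
  [PseudoEMetricSpace K2] [MeasurableSpace K2] [BorelSpace K2] [StandardBorelSpace K2] [Nonempty K2]
  [MeasurableSpace X] [MeasurableSpace Z] [MeasurableSpace W] {P : Measure ((K1 × K2) × X)} [IsFiniteMeasure P]
  {μ : Measure X} [SigmaFinite μ] {D : Set X} {pz : X → Z} {pw : X → W}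
  {g : (K1 → ℝ) → Z → ℝ≥0∞} {h : (K2 → ℝ) → W → ℝ≥0∞}

/-- **the product form** -/
theorem c3_ker (hD : MeasurableSet D) (hz : Measurable pz) (hw : Measurable pw) (hg : ∀ e, TF e → Measurable (g e))
    (hh : ∀ e, TF e → Measurable (h e))
    (hyp : ∀ (e : K1 → ℝ) (e' : K2 → ℝ), TF e → TF e' → ∀ S : Set X, MeasurableSet S → S ⊆ D →
      ∫⁻ x in Prod.snd ⁻¹' S, ENNReal.ofReal (e x.1.1 * e' x.1.2) ∂P = ∫⁻ x in S, g e (pz x) * h e' (pw x) ∂μ) :
    ∃ (κ : Kernel Z K1) (κ' : Kernel W K2), IsMarkovKernel κ ∧ IsMarkovKernel κ' ∧ ∀ S : Set X, MeasurableSet S → S ⊆ D →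
      ∀ Φ : K1 × K2 → ℝ≥0∞, Measurable Φ → ∫⁻ x in Prod.snd ⁻¹' S, Φ x.1 ∂P =
        ∫⁻ x in S, (g (fun _ => 1) (pz x) * h (fun _ => 1) (pw x)) * ∫⁻ k, Φ k ∂((κ (pz x)).prod (κ' (pw x))) ∂μ := by
  have g1m := hg _ (TF.one (α := K1))
  have h1m := hh _ (TF.one (α := K2))
  -- the two kernels
  have q1 : Measurable fun p : (K1 × K2) × X => (p.1.1, p.2) := (measurable_fst.comp measurable_fst).prodMk measurable_snd
  have q2 : Measurable fun p : (K1 × K2) × X => (p.1.2, p.2) := (measurable_snd.comp measurable_fst).prodMk measurable_snd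
  obtain ⟨κ, hκ, k1⟩ := ker1 (P := P.map fun p => (p.1.1, p.2)) (μ := μ) (D := D) (pz := pz) (h := fun x => h (fun _ => 1) (pw x))
    (g := g) hD hz (h1m.comp hw) hg (by
      intro e he S hS hSD
      have hem : Measurable fun x : K1 × X => ENNReal.ofReal (e x.1) := (he.meas.comp measurable_fst).ennreal_ofReal
      rw [← lintegral_indicator (measurable_snd hS), lintegral_map (hem.indicator (measurable_snd hS)) q1, ← hyp e (fun _ => 1) he TF.one S hS hSD, ← lintegral_indicator (measurable_snd hS)]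
      refine lintegral_congr fun p => ?_
      by_cases hp : p.2 ∈ S
      · rw [indicator_of_mem (show (p.1.1, p.2) ∈ Prod.snd ⁻¹' S from hp), indicator_of_mem (show p ∈ Prod.snd ⁻¹' S from hp)]
        simp
      · rw [indicator_of_notMem (show (p.1.1, p.2) ∉ Prod.snd ⁻¹' S from hp),
          indicator_of_notMem (show p ∉ Prod.snd ⁻¹' S from hp)])
  obtain ⟨κ', hκ', k2⟩ := ker1 (P := P.map fun p => (p.1.2, p.2)) (μ := μ) (D := D) (pz := pw) (h := fun x => g (fun _ => 1) (pz x))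
    (g := h) hD hw (g1m.comp hz) hh (by
      intro e he S hS hSD
      have hem : Measurable fun x : K2 × X => ENNReal.ofReal (e x.1) := (he.meas.comp measurable_fst).ennreal_ofReal
      rw [← lintegral_indicator (measurable_snd hS), lintegral_map (hem.indicator (measurable_snd hS)) q2]
      have h2 := hyp (fun _ => 1) e TF.one he S hS hSD
      have e2 : ∫⁻ x in S, h e (pw x) * g (fun _ => 1) (pz x) ∂μ = ∫⁻ x in S, g (fun _ => 1) (pz x) * h e (pw x) ∂μ :=
        lintegral_congr fun x => mul_comm _ _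
      rw [e2, ← h2, ← lintegral_indicator (measurable_snd hS)]
      refine lintegral_congr fun p => ?_
      by_cases hp : p.2 ∈ S
      · rw [indicator_of_mem (show (p.1.2, p.2) ∈ Prod.snd ⁻¹' S from hp), indicator_of_mem (show p ∈ Prod.snd ⁻¹' S from hp)]
        simp
      · rw [indicator_of_notMem (show (p.1.2, p.2) ∉ Prod.snd ⁻¹' S from hp),
          indicator_of_notMem (show p ∉ Prod.snd ⁻¹' S from hp)])
  refine ⟨κ, κ', hκ, hκ', fun S hS hSD Φ hΦ => ?_⟩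
  -- comparison
  have cmp : ∀ (e f : K1 → ℝ) (e' f' : K2 → ℝ), TF e → TF f → TF e' → TF f' → (∀ k, e k ≤ f k) → (∀ k, e' k ≤ f' k) →
      ∀ᵐ x ∂(μ.restrict D), g e (pz x) * h e' (pw x) ≤ g f (pz x) * h f' (pw x) := by
    intro e f e' f' he hf he' hf' h1 h2
    refine ae_le_of_forall_setLIntegral_le_of_sigmaFinite (((hg e he).comp hz).mul ((hh e' he').comp hw)) fun T hT _ => ?_
    rw [Measure.restrict_restrict hT, ← hyp e e' he he' (T ∩ D) (hT.inter hD) inter_subset_right,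
      ← hyp f f' hf hf' (T ∩ D) (hT.inter hD) inter_subset_right]
    exact lintegral_mono fun x => ENNReal.ofReal_le_ofReal (mul_le_mul (h1 _) (h2 _) (he'.2 _).1 (hf.2 _).1)
  -- the densities
  have key : ∀ (e : K1 → ℝ) (e' : K2 → ℝ), TF e → TF e' → ∀ᵐ x ∂(μ.restrict D), g e (pz x) * h e' (pw x) =
      (g (fun _ => 1) (pz x) * h (fun _ => 1) (pw x)) *
        ((∫⁻ k, ENNReal.ofReal (e k) ∂(κ (pz x))) * ∫⁻ k, ENNReal.ofReal (e' k) ∂(κ' (pw x))) := by
    intro e e' he he'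
    filter_upwards [k1 e he, k2 e' he', cmp e e e' (fun _ => 1) he he he' TF.one (fun _ => le_rfl) fun k => (he'.2 k).2,
      cmp e (fun _ => 1) e' e' he TF.one he' he' (fun k => (he.2 k).2) fun _ => le_rfl] with x a1 a2 a3 a4
    by_cases c1 : h (fun _ => 1) (pw x) = 0
    · rw [c1, mul_zero] at a3
      rw [c1, mul_zero, zero_mul]
      exact le_antisymm a3 bot_le
    · by_cases c2 : g (fun _ => 1) (pz x) = 0
      · rw [c2, zero_mul] at a4
        rw [c2, zero_mul, zero_mul]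
        exact le_antisymm a4 bot_le
      · rw [← a1 c1, ← a2 c2]
        ring
  -- the two measures
  obtain ⟨Q, hQ⟩ : ∃ Q : Kernel X (K1 × K2), Q = (κ.comap pz hz) ×ₖ (κ'.comap pw hw) := ⟨_, rfl⟩
  have hQx : ∀ x, Q x = (κ (pz x)).prod (κ' (pw x)) := fun x => by
    rw [hQ, Kernel.prod_apply, Kernel.comap_apply, Kernel.comap_apply]
  have hdm : Measurable fun x => g (fun _ => 1) (pz x) * h (fun _ => 1) (pw x) := (g1m.comp hz).mul (h1m.comp hw)
  obtain ⟨m1, hm1⟩ : ∃ m1 : Measure (K1 × K2), m1 = (P.restrict (Prod.snd ⁻¹' S)).map Prod.fst := ⟨_, rfl⟩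
  obtain ⟨m2, hm2⟩ : ∃ m2 : Measure (K1 × K2), m2 =
      ((μ.restrict S).withDensity fun x => g (fun _ => 1) (pz x) * h (fun _ => 1) (pw x)).bind Q := ⟨_, rfl⟩
  have i1 : ∀ F : K1 × K2 → ℝ≥0∞, Measurable F → ∫⁻ k, F k ∂m1 = ∫⁻ x in Prod.snd ⁻¹' S, F x.1 ∂P := fun F hF => by
    rw [hm1, lintegral_map hF measurable_fst]
  have i2 : ∀ F : K1 × K2 → ℝ≥0∞, Measurable F → ∫⁻ k, F k ∂m2 =
      ∫⁻ x in S, (g (fun _ => 1) (pz x) * h (fun _ => 1) (pw x)) * ∫⁻ k, F k ∂((κ (pz x)).prod (κ' (pw x))) ∂μ := fun F hF => by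
    rw [hm2, Measure.lintegral_bind Q.aemeasurable hF.aemeasurable,
      lintegral_withDensity_eq_lintegral_mul _ hdm hF.lintegral_kernel]
    refine lintegral_congr fun x => ?_
    show (g (fun _ => 1) (pz x) * h (fun _ => 1) (pw x)) * ∫⁻ k, F k ∂(Q x) = _
    rw [hQx]
  have hfm : IsFiniteMeasure m1 := by rw [hm1]; infer_instance
  have hmm : m1 = m2 := by
    refine pair_eq fun e e' he he' => ?_
    have hm : Measurable fun k : K1 × K2 => ENNReal.ofReal (e k.1 * e' k.2) :=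
      ((he.meas.comp measurable_fst).mul (he'.meas.comp measurable_snd)).ennreal_ofReal
    rw [i1 _ hm, i2 _ hm, hyp e e' he he' S hS hSD]
    refine lintegral_congr_ae ?_
    filter_upwards [ae_mono (Measure.restrict_mono hSD le_rfl) (key e e' he he')] with x hx
    rw [hx]
    congr 1
    have e1 : ∀ k : K1 × K2, ENNReal.ofReal (e k.1 * e' k.2) = ENNReal.ofReal (e k.1) * ENNReal.ofReal (e' k.2) := fun k =>
      ENNReal.ofReal_mul (he.2 _).1
    simp_rw [e1]
    exact (lintegral_prod_mul he.meas.ennreal_ofReal.aemeasurable he'.meas.ennreal_ofReal.aemeasurable).symm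
  rw [← i1 Φ hΦ, ← i2 Φ hΦ, hmm]

end c3

end Pool.Agent.ROT.F3
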