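import Pool.Agent.ROT.F3LimA
import Pool.Agent.ROT.F3LimP

/-!
# F3, row L3, final form (helper15): the limit of the lattice formula

The lattice measures `ρN` (pairs of arcs `a`, `b`, relative position `z`, and the data `k`, `k'` of the two connections, with
weights) satisfy for products of test functions, up to `o(1)` along the ultrafilter,
`∫ e e' u v w dρN = ∫ u v w (g e N)(z) (h e' N)(z + yA a - yB b) d(bA N × bB N × m N)`,
where `m N` are the normalised lattice measures, `bA N → a0`, `bB N → b0`, the functions `g e N`, `h e' N` are bounded, and the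
functions `g e N` have bounded support and a modulus of continuity in `L¹(m N)`.
(All normalisations are inside of `g e N`: its bound `C` contains the normalisation of `ρN` and the masses of `bA N`, `bB N`.)
Then every limit `ρ` of `ρN` has on `D` the form `g₁(z) h₁(w) κ_z(dk) κ'_w(dk') a0(da) b0(db) dz`, `w = z + yA a - yB b`.

* `Mar D u v w` : the product of the supports is in `D`, with a margin;
* `prod_eq_m`, `c3_one_m` : equality on `D` from the test functions with a margin;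
* `VL` : vague limits; `side_g`, `side_h` : they exist, for all test functions at once;
* **`l3_one`** : one function of the connections, any vague limits;
* **`L3Out`** : the form of the limit; **`l3_abs`** : the theorem; `L3Out.prod` : the product form.
-/

set_option autoImplicit false
set_option linter.unusedSectionVars false

open MeasureTheory Set Filter Topology TopologicalSpace ProbabilityTheory

open scoped ENNReal NNReal

namespace Pool.Agent.ROT.F3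

section mar

variable {A B C : Type*} [PseudoMetricSpace A] [PseudoMetricSpace B] [PseudoMetricSpace C]

/-- the product of the supports is in `D`, with a margin -/
def Mar (D : Set (A × (B × C))) (u : A → ℝ) (v : B → ℝ) (w : C → ℝ) : Prop :=
  ∃ δ : ℝ, 0 < δ ∧ ∀ a b c, u a ≠ 0 → v b ≠ 0 → w c ≠ 0 → ∀ x : A × (B × C), dist (a, (b, c)) x < δ → x ∈ D

/-- the points of `D` with a margin -/
def inr (D : Set (A × (B × C))) (n : ℕ) : Set (A × (B × C)) :=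
  {x | ENNReal.ofReal (1 / ((n : ℝ) + 1)) < Metric.infEDist x Dᶜ}

lemma inr_open (D : Set (A × (B × C))) (n : ℕ) : IsOpen (inr D n) :=
  isOpen_lt continuous_const Metric.continuous_infEDist

lemma inr_sub {D : Set (A × (B × C))} {n : ℕ} {x y : A × (B × C)} (hx : x ∈ inr D n) (h : dist x y < 1 / ((n : ℝ) + 1)) :
    y ∈ D := by
  by_contra hy
  have h1 : Metric.infEDist x Dᶜ ≤ edist x y := Metric.infEDist_le_edist_of_mem hy
  have h2 : edist x y < ENNReal.ofReal (1 / ((n : ℝ) + 1)) := by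
    rw [edist_dist]
    exact (ENNReal.ofReal_lt_ofReal_iff (by positivity)).2 h
  exact absurd (hx.trans_le h1) (not_lt.2 h2.le)

lemma inr_union {D : Set (A × (B × C))} (hD : IsOpen D) : ⋃ n, inr D n = D := by
  refine Subset.antisymm (iUnion_subset fun n x hx => ?_) fun x hx => ?_
  · exact inr_sub hx (by rw [dist_self]; positivity)
  · have h1 : 0 < Metric.infEDist x Dᶜ := by
      rw [pos_iff_ne_zero]
      intro h0
      exact (Metric.mem_iff_infEDist_zero_of_closed hD.isClosed_compl).2 h0 hx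
    have h2 : Tendsto (fun n : ℕ => ENNReal.ofReal (1 / ((n : ℝ) + 1))) atTop (𝓝 0) := by
      rw [← ENNReal.ofReal_zero]
      exact (ENNReal.continuous_ofReal.tendsto 0).comp tendsto_one_div_add_atTop_nhds_zero_nat
    obtain ⟨n, hn⟩ := (h2.eventually (gt_mem_nhds h1)).exists
    exact mem_iUnion.2 ⟨n, hn⟩

variable [MeasurableSpace A] [BorelSpace A] [MeasurableSpace B] [BorelSpace B] [MeasurableSpace C] [BorelSpace C]
  [SecondCountableTopology A] [SecondCountableTopology B] [SecondCountableTopology C]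

/-- equality on `D` from the test functions with a margin -/
theorem prod_eq_m {m1 m2 : Measure (A × (B × C))} [IsFiniteMeasure m1] {D : Set (A × (B × C))} (hDo : IsOpen D)
    (h : ∀ (u : A → ℝ) (v : B → ℝ) (w : C → ℝ), TF u → TF v → TF w → Mar D u v w →
      ∫⁻ x, ENNReal.ofReal (u x.1 * (v x.2.1 * w x.2.2)) ∂m1 = ∫⁻ x, ENNReal.ofReal (u x.1 * (v x.2.1 * w x.2.2)) ∂m2) :
    m1.restrict D = m2.restrict D := by
  have h1 : ∀ n, m1.restrict (inr D n) = m2.restrict (inr D n) := fun n =>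
    prod_eq (inr_open D n) fun u v w hu hv hw hs => h u v w hu hv hw
      ⟨1 / ((n : ℝ) + 1), by positivity, fun a b c ha hb hc x hx => inr_sub (hs a b c ha hb hc) hx⟩
  rw [← inr_union hDo]
  exact Measure.restrict_iUnion_congr.2 h1

/-- one function of the connection pieces, test functions with a margin -/
theorem c3_one_m {K : Type*} [MeasurableSpace K] {P : Measure (K × (A × (B × C)))} {μ : Measure (A × (B × C))}
    {D : Set (A × (B × C))} (hDo : IsOpen D) {Φ : K → ℝ≥0∞} (hΦ : Measurable Φ)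
    (hfin : ∫⁻ x, Φ x.1 ∂P ≠ ∞) {t : A × (B × C) → ℝ≥0∞} (ht : Measurable t)
    (h : ∀ (u : A → ℝ) (v : B → ℝ) (w : C → ℝ), TF u → TF v → TF w → Mar D u v w →
      ∫⁻ x, Φ x.1 * ENNReal.ofReal (u x.2.1 * (v x.2.2.1 * w x.2.2.2)) ∂P =
        ∫⁻ x, t x * ENNReal.ofReal (u x.1 * (v x.2.1 * w x.2.2)) ∂μ) :
    ∀ S : Set (A × (B × C)), MeasurableSet S → S ⊆ D → ∫⁻ x in Prod.snd ⁻¹' S, Φ x.1 ∂P = ∫⁻ x in S, t x ∂μ := by
  set m1 : Measure (A × (B × C)) := (P.withDensity fun x => Φ x.1).map Prod.snd with hm1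
  set m2 : Measure (A × (B × C)) := μ.withDensity t with hm2
  have hΦm : Measurable fun x : K × (A × (B × C)) => Φ x.1 := hΦ.comp measurable_fst
  have : IsFiniteMeasure m1 := by
    refine ⟨?_⟩
    rw [hm1, Measure.map_apply measurable_snd MeasurableSet.univ, preimage_univ, withDensity_apply _ MeasurableSet.univ,
      Measure.restrict_univ]
    exact lt_top_iff_ne_top.2 hfin
  have hf : ∀ (u : A → ℝ) (v : B → ℝ) (w : C → ℝ), TF u → TF v → TF w →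
      Measurable fun x : A × (B × C) => ENNReal.ofReal (u x.1 * (v x.2.1 * w x.2.2)) := fun u v w hu hv hw =>
    ((hu.meas.comp measurable_fst).mul ((hv.meas.comp (measurable_fst.comp measurable_snd)).mul
      (hw.meas.comp (measurable_snd.comp measurable_snd)))).ennreal_ofReal
  have key : m1.restrict D = m2.restrict D := by
    refine prod_eq_m hDo fun u v w hu hv hw hs => ?_
    have e1 : ∫⁻ x, ENNReal.ofReal (u x.1 * (v x.2.1 * w x.2.2)) ∂m1 =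
        ∫⁻ x, Φ x.1 * ENNReal.ofReal (u x.2.1 * (v x.2.2.1 * w x.2.2.2)) ∂P := by
      rw [hm1, lintegral_map (hf u v w hu hv hw) measurable_snd]
      exact lintegral_withDensity_eq_lintegral_mul _ hΦm ((hf u v w hu hv hw).comp measurable_snd)
    have e2 : ∫⁻ x, ENNReal.ofReal (u x.1 * (v x.2.1 * w x.2.2)) ∂m2 =
        ∫⁻ x, t x * ENNReal.ofReal (u x.1 * (v x.2.1 * w x.2.2)) ∂μ := by
      exact lintegral_withDensity_eq_lintegral_mul _ ht (hf u v w hu hv hw)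
    rw [e1, e2, h u v w hu hv hw hs]
  intro S hS hSD
  have h3 : m1 S = m2 S := by
    have h4 : m1.restrict D S = m2.restrict D S := by rw [key]
    rwa [Measure.restrict_apply hS, Measure.restrict_apply hS, inter_eq_left.2 hSD] at h4
  rw [hm1, Measure.map_apply measurable_snd hS, withDensity_apply _ (measurable_snd hS), hm2, withDensity_apply _ hS] at h3
  exact h3

end mar

section one

variable {K A B : Type*} [MeasurableSpace K]
  [PseudoMetricSpace A] [MeasurableSpace A] [BorelSpace A] [SecondCountableTopology A]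
  [PseudoMetricSpace B] [MeasurableSpace B] [BorelSpace B] [SecondCountableTopology B]

/-- vague limit of the functions `gN` with respect to the lattice measures -/
def VL (l : Filter ℕ) (m : ℕ → Measure ℂ) (c : ℝ) (gN : ℕ → ℂ → ℝ) (g0 : ℂ → ℝ) : Prop :=
  ∀ Ψ : ℂ → ℝ, Continuous Ψ → HasCompactSupport Ψ →
    Tendsto (fun N => ∫ z, gN N z * Ψ z ∂(m N)) l (𝓝 (c * ∫ z, g0 z * Ψ z))

/-- the vague limits of the functions of the first end, for all test functions -/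
theorem side_g {K1 : Type*} [PseudoEMetricSpace K1] {U : Ultrafilter ℕ} {m : ℕ → Measure ℂ} {c C R : ℝ}
    (hm : LM (U : Filter ℕ) m c) {g : (K1 → ℝ) → ℕ → ℂ → ℝ} (hg : ∀ e, TF e → BF (U : Filter ℕ) (g e) C R) :
    ∃ g0 : (K1 → ℝ) → ℂ → ℝ, ∀ e, TF e → Measurable (g0 e) ∧ (∀ z, 0 ≤ g0 e z ∧ g0 e z ≤ C) ∧
      (∀ z, R + 1 ≤ ‖z‖ → g0 e z = 0) ∧ VL (U : Filter ℕ) m c (g e) (g0 e) := by
  have G0 : ∀ e : K1 → ℝ, TF e → ∃ g0 : ℂ → ℝ, Measurable g0 ∧ (∀ z, 0 ≤ g0 z ∧ g0 z ≤ C) ∧ (∀ z, R + 1 ≤ ‖z‖ → g0 z = 0) ∧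
      VL (U : Filter ℕ) m c (g e) g0 := fun e he => vlim_supp U hm (hg e he)
  choose! g0 hg0 using G0
  exact ⟨g0, hg0⟩

/-- the vague limits of the functions of the second end, for all test functions -/
theorem side_h {K2 : Type*} [PseudoEMetricSpace K2] {U : Ultrafilter ℕ} {m : ℕ → Measure ℂ} {c C' : ℝ}
    (hm : LM (U : Filter ℕ) m c) {h : (K2 → ℝ) → ℕ → ℂ → ℝ} (hh : ∀ e, TF e → ∀ N, Measurable (h e N)) (hC' : 0 ≤ C')
    (hhb : ∀ e, TF e → ∀ᶠ N in (U : Filter ℕ), ∀ z, 0 ≤ h e N z ∧ h e N z ≤ C') :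
    ∃ h0 : (K2 → ℝ) → ℂ → ℝ, ∀ e, TF e → Measurable (h0 e) ∧ (∀ z, 0 ≤ h0 e z ∧ h0 e z ≤ C') ∧
      VL (U : Filter ℕ) m c (h e) (h0 e) := by
  have hfin := hm.fin
  have H0 : ∀ e : K2 → ℝ, TF e → ∃ h0 : ℂ → ℝ, Measurable h0 ∧ (∀ z, 0 ≤ h0 z ∧ h0 z ≤ C') ∧
      VL (U : Filter ℕ) m c (h e) h0 := fun e he => vlim U hm.pos hC' hm.vag (hh e he) (hhb e he)
  choose! h0 hh0 using H0
  exact ⟨h0, hh0⟩

variable {l : Filter ℕ} [NeBot l] {bA : ℕ → ProbabilityMeasure A} {a0 : ProbabilityMeasure A} {bB : ℕ → ProbabilityMeasure B}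
  {b0 : ProbabilityMeasure B} {m : ℕ → Measure ℂ} {c : ℝ} {yA : A → ℂ} {yB : B → ℂ} {C R R0 C' : ℝ}
  {g : ℕ → ℂ → ℝ} {g0 : ℂ → ℝ} {h : ℕ → ℂ → ℝ} {h0 : ℂ → ℝ} {ρN : ℕ → Measure (K × (A × (B × ℂ)))}
  {ρ : Measure (K × (A × (B × ℂ)))} [IsFiniteMeasure ρ] {D : Set (A × (B × ℂ))} {E : K → ℝ}

/-- **the limit of the lattice formula for one function `E` of the connections** (`g N`, `h N` = the lattice functions which belong to
`E`, `g0`, `h0` = any vague limits) -/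
theorem l3_one (hA : Tendsto bA l (𝓝 a0)) (hB : Tendsto bB l (𝓝 b0)) (hm : LM l m c) (hyA : Continuous yA)
    (hyB : Continuous yB)
    (hinv : ∀ᶠ N in l, ∀ᵐ a ∂(bA N : Measure A), ∀ᵐ b ∂(bB N : Measure B), (m N).map (fun z => z + (yA a - yB b)) = m N)
    (hg : BF l g C R) (hg1 : AL1 l m g) (g0m : Measurable g0) (g0b : ∀ z, 0 ≤ g0 z ∧ g0 z ≤ C)
    (g0s : ∀ z, R0 ≤ ‖z‖ → g0 z = 0) (g0l : VL l m c g g0) (hh : ∀ N, Measurable (h N)) (hC' : 0 ≤ C')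
    (hhb : ∀ᶠ N in l, ∀ z, 0 ≤ h N z ∧ h N z ≤ C') (h0m : Measurable h0) (h0b : ∀ z, 0 ≤ h0 z ∧ h0 z ≤ C')
    (h0l : VL l m c h h0) (hD : IsOpen D) (hE : Measurable E) (hE0 : ∀ k, 0 ≤ E k ∧ E k ≤ 1)
    (hlim : ∀ (u : A → ℝ) (v : B → ℝ) (w : ℂ → ℝ), TF u → TF v → TF w → Mar D u v w →
      Tendsto (fun N => ∫ x, E x.1 * (u x.2.1 * (v x.2.2.1 * w x.2.2.2)) ∂(ρN N)) l
        (𝓝 (∫ x, E x.1 * (u x.2.1 * (v x.2.2.1 * w x.2.2.2)) ∂ρ)))
    (hex : ∀ (u : A → ℝ) (v : B → ℝ) (w : ℂ → ℝ), TF u → TF v → TF w → Mar D u v w →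
      Tendsto (fun N => (∫ x, E x.1 * (u x.2.1 * (v x.2.2.1 * w x.2.2.2)) ∂(ρN N)) -
        ∫ p, u p.1 * (v p.2.1 * w p.2.2) * g N p.2.2 * h N (p.2.2 + (yA p.1 - yB p.2.1))
          ∂((bA N : Measure A).prod ((bB N : Measure B).prod (m N)))) l (𝓝 0)) :
    ∀ S : Set (A × (B × ℂ)), MeasurableSet S → S ⊆ D → ∫⁻ x in Prod.snd ⁻¹' S, ENNReal.ofReal (E x.1) ∂ρ =
      ∫⁻ x in S, ENNReal.ofReal (c * g0 x.2.2) * ENNReal.ofReal (h0 (x.2.2 + (yA x.1 - yB x.2.1)))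
        ∂((a0 : Measure A).prod ((b0 : Measure B).prod volume)) := by
  have hfin := hm.fin
  have hc := hm.pos
  have hwm : Measurable fun x : A × (B × ℂ) => x.2.2 + (yA x.1 - yB x.2.1) :=
    (measurable_snd.comp measurable_snd).add
      ((hyA.measurable.comp measurable_fst).sub (hyB.measurable.comp (measurable_fst.comp measurable_snd)))
  have hzm : Measurable fun x : A × (B × ℂ) => x.2.2 := measurable_snd.comp measurable_snd
  refine c3_one_m (P := ρ) (Φ := fun k : K => ENNReal.ofReal (E k))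
    (t := fun x => ENNReal.ofReal (c * g0 x.2.2) * ENNReal.ofReal (h0 (x.2.2 + (yA x.1 - yB x.2.1)))) hD
    hE.ennreal_ofReal ?_ ?_ ?_
  · refine ne_top_of_le_ne_top (measure_ne_top ρ univ) ?_
    calc ∫⁻ x, ENNReal.ofReal (E x.1) ∂ρ ≤ ∫⁻ _, 1 ∂ρ := by
          refine lintegral_mono fun x => ?_
          rw [← ENNReal.ofReal_one]
          exact ENNReal.ofReal_le_ofReal (hE0 _).2
      _ = ρ univ := by simp
  · exact ((g0m.comp hzm).const_mul c).ennreal_ofReal.mul ((h0m.comp hwm).ennreal_ofReal)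
  · intro u v w hu hv hw hs
    have hX : Continuous fun p : A × B × ℂ => u p.1 * (v p.2.1 * w p.2.2) :=
      (hu.cont.comp continuous_fst).mul ((hv.cont.comp (continuous_fst.comp continuous_snd)).mul
        (hw.cont.comp (continuous_snd.comp continuous_snd)))
    have hX0 : ∀ p : A × B × ℂ, 0 ≤ u p.1 * (v p.2.1 * w p.2.2) := fun p =>
      mul_nonneg (hu.2 _).1 (mul_nonneg (hv.2 _).1 (hw.2 _).1)
    have hX1 : ∀ p : A × B × ℂ, u p.1 * (v p.2.1 * w p.2.2) ≤ 1 := fun p =>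
      mul_le_one₀ (hu.2 _).2 (mul_nonneg (hv.2 _).1 (hw.2 _).1) (mul_le_one₀ (hv.2 _).2 (hw.2 _).1 (hw.2 _).2)
    have hXK : ∀ p : A × B × ℂ, |u p.1 * (v p.2.1 * w p.2.2)| ≤ 1 := fun p => by
      rw [abs_of_nonneg (hX0 p)]
      exact hX1 p
    have t1 := sum_lim1 hA hB hm hyA hyB hinv hg hg1 g0m g0b g0s g0l hh hC' hhb h0m h0b h0l hX hXK
    have t2 := hlim u v w hu hv hw hs
    have t3 := hex u v w hu hv hw hs
    have e1 : ∫ x, E x.1 * (u x.2.1 * (v x.2.2.1 * w x.2.2.2)) ∂ρ =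
        c * TI (fun p : A × B × ℂ => u p.1 * (v p.2.1 * w p.2.2)) yA yB g0 h0 a0 b0 volume := by
      have t4 := t2.sub t1
      have t5 : ∫ x, E x.1 * (u x.2.1 * (v x.2.2.1 * w x.2.2.2)) ∂ρ -
          c * TI (fun p : A × B × ℂ => u p.1 * (v p.2.1 * w p.2.2)) yA yB g0 h0 a0 b0 volume = 0 :=
        tendsto_nhds_unique t4 t3
      linarith
    -- integrability
    have b1 : ∀ x : K × (A × (B × ℂ)), 0 ≤ E x.1 * (u x.2.1 * (v x.2.2.1 * w x.2.2.2)) := fun x =>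
      mul_nonneg (hE0 _).1 (hX0 x.2)
    have b2 : ∀ x : K × (A × (B × ℂ)), E x.1 * (u x.2.1 * (v x.2.2.1 * w x.2.2.2)) ≤ 1 := fun x =>
      mul_le_one₀ (hE0 _).2 (hX0 x.2) (hX1 x.2)
    have m1 : Measurable fun x : K × (A × (B × ℂ)) => E x.1 * (u x.2.1 * (v x.2.2.1 * w x.2.2.2)) :=
      (hE.comp measurable_fst).mul (hX.measurable.comp measurable_snd)
    have i1 : Integrable (fun x : K × (A × (B × ℂ)) => E x.1 * (u x.2.1 * (v x.2.2.1 * w x.2.2.2))) ρ := by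
      refine Integrable.of_bound m1.aestronglyMeasurable 1 (ae_of_all _ fun x => ?_)
      rw [Real.norm_eq_abs, abs_of_nonneg (b1 x)]
      exact b2 x
    have i2 := TI_int (α := (a0 : Measure A)) (β := (b0 : Measure B)) (m := (volume : Measure ℂ)) (C' := C') hX hXK hyA hyB
      h0m (fun z => by
        rw [abs_of_nonneg (h0b z).1]
        exact (h0b z).2) g0m (M := C) (R := R0) (fun z => by
        rw [abs_of_nonneg (g0b z).1]
        exact (g0b z).2) g0s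
    have e2 : ∫⁻ x, ENNReal.ofReal (E x.1) * ENNReal.ofReal (u x.2.1 * (v x.2.2.1 * w x.2.2.2)) ∂ρ =
        ENNReal.ofReal (∫ x, E x.1 * (u x.2.1 * (v x.2.2.1 * w x.2.2.2)) ∂ρ) := by
      rw [ofReal_integral_eq_lintegral_ofReal i1 (ae_of_all _ b1)]
      exact lintegral_congr fun x => (ENNReal.ofReal_mul (hE0 _).1).symm
    have e3 : ∫⁻ x, ENNReal.ofReal (c * g0 x.2.2) * ENNReal.ofReal (h0 (x.2.2 + (yA x.1 - yB x.2.1))) *
        ENNReal.ofReal (u x.1 * (v x.2.1 * w x.2.2)) ∂((a0 : Measure A).prod ((b0 : Measure B).prod volume)) =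
        ENNReal.ofReal (c * TI (fun p : A × B × ℂ => u p.1 * (v p.2.1 * w p.2.2)) yA yB g0 h0 a0 b0 volume) := by
      unfold TI
      rw [← integral_const_mul, ofReal_integral_eq_lintegral_ofReal (i2.const_mul c) (ae_of_all _ fun p =>
        mul_nonneg hc.le (mul_nonneg (mul_nonneg (hX0 p) (g0b _).1) (h0b _).1))]
      refine lintegral_congr fun x => ?_
      rw [← ENNReal.ofReal_mul (mul_nonneg hc.le (g0b _).1),
        ← ENNReal.ofReal_mul (mul_nonneg (mul_nonneg hc.le (g0b _).1) (h0b _).1)]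
      congr 1
      ring
    rw [e2, e1, ← e3]

end one

section l3

variable {K1 K2 A B : Type*} [PseudoEMetricSpace K1] [MeasurableSpace K1] [BorelSpace K1] [StandardBorelSpace K1] [Nonempty K1]
  [PseudoEMetricSpace K2] [MeasurableSpace K2] [BorelSpace K2] [StandardBorelSpace K2] [Nonempty K2]
  [PseudoMetricSpace A] [MeasurableSpace A] [BorelSpace A] [SecondCountableTopology A]
  [PseudoMetricSpace B] [MeasurableSpace B] [BorelSpace B] [SecondCountableTopology B]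
  {U : Ultrafilter ℕ} {bA : ℕ → ProbabilityMeasure A} {a0 : ProbabilityMeasure A} {bB : ℕ → ProbabilityMeasure B}
  {b0 : ProbabilityMeasure B} {m : ℕ → Measure ℂ} {c : ℝ} {yA : A → ℂ} {yB : B → ℂ} {C R C' : ℝ}
  {g : (K1 → ℝ) → ℕ → ℂ → ℝ} {h : (K2 → ℝ) → ℕ → ℂ → ℝ} {ρN : ℕ → Measure ((K1 × K2) × (A × (B × ℂ)))}
  {ρ : Measure ((K1 × K2) × (A × (B × ℂ)))} [IsFiniteMeasure ρ] {D : Set (A × (B × ℂ))}

/-- **the form of the limit**: `μ` = (law of `a`) × (law of `b`) × `dz`; `gN`, `hN` = the lattice functions for `e = 1` -/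
structure L3Out (l : Filter ℕ) (m : ℕ → Measure ℂ) (c : ℝ) (gN hN : ℕ → ℂ → ℝ) (C R C' : ℝ)
    (ρ : Measure ((K1 × K2) × (A × (B × ℂ)))) (μ : Measure (A × (B × ℂ))) (D : Set (A × (B × ℂ))) (yA : A → ℂ) (yB : B → ℂ)
    (g1 h1 : ℂ → ℝ) (κ : Kernel ℂ K1) (κ' : Kernel ℂ K2) : Prop where
  gm : Measurable g1
  hm : Measurable h1
  gb : ∀ z, 0 ≤ g1 z ∧ g1 z ≤ C
  gs : ∀ z, R + 1 ≤ ‖z‖ → g1 z = 0
  hb : ∀ z, 0 ≤ h1 z ∧ h1 z ≤ C'
  mar : IsMarkovKernel κ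
  mar' : IsMarkovKernel κ'
  gv : VL l m c gN g1
  hv : VL l m c hN h1
  den : ∀ S : Set (A × (B × ℂ)), MeasurableSet S → S ⊆ D → ∀ Φ : K1 × K2 → ℝ≥0∞, Measurable Φ →
    ∫⁻ x in Prod.snd ⁻¹' S, Φ x.1 ∂ρ = ∫⁻ x in S, (ENNReal.ofReal (c * g1 x.2.2) *
      ENNReal.ofReal (h1 (x.2.2 + (yA x.1 - yB x.2.1)))) *
        ∫⁻ k, Φ k ∂((κ x.2.2).prod (κ' (x.2.2 + (yA x.1 - yB x.2.1)))) ∂μ

/-- from the densities for the test functions to the form of the limit -/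
theorem l3_ker {l : Filter ℕ} {μ : Measure (A × (B × ℂ))} [SigmaFinite μ] {g0 : (K1 → ℝ) → ℂ → ℝ} {h0 : (K2 → ℝ) → ℂ → ℝ}
    (hyA : Measurable yA) (hyB : Measurable yB) (hD : MeasurableSet D)
    (hg0 : ∀ e, TF e → Measurable (g0 e) ∧ (∀ z, 0 ≤ g0 e z ∧ g0 e z ≤ C) ∧
      (∀ z, R + 1 ≤ ‖z‖ → g0 e z = 0) ∧ VL l m c (g e) (g0 e))
    (hh0 : ∀ e, TF e → Measurable (h0 e) ∧ (∀ z, 0 ≤ h0 e z ∧ h0 e z ≤ C') ∧ VL l m c (h e) (h0 e))
    (hyp : ∀ (e : K1 → ℝ) (e' : K2 → ℝ), TF e → TF e' → ∀ S : Set (A × (B × ℂ)), MeasurableSet S → S ⊆ D →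
      ∫⁻ x in Prod.snd ⁻¹' S, ENNReal.ofReal (e x.1.1 * e' x.1.2) ∂ρ = ∫⁻ x in S, ENNReal.ofReal (c * g0 e x.2.2) *
        ENNReal.ofReal (h0 e' (x.2.2 + (yA x.1 - yB x.2.1))) ∂μ) :
    ∃ (g1 h1 : ℂ → ℝ) (κ : Kernel ℂ K1) (κ' : Kernel ℂ K2), L3Out l m c (g fun _ => 1) (h fun _ => 1) C R C' ρ
      μ D yA yB g1 h1 κ κ' := by
  have hwm : Measurable fun x : A × (B × ℂ) => x.2.2 + (yA x.1 - yB x.2.1) :=
    (measurable_snd.comp measurable_snd).add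
      ((hyA.comp measurable_fst).sub (hyB.comp (measurable_fst.comp measurable_snd)))
  have hzm : Measurable fun x : A × (B × ℂ) => x.2.2 := measurable_snd.comp measurable_snd
  obtain ⟨κ, κ', hκ, hκ', hfin'⟩ := c3_ker (P := ρ) (μ := μ) (D := D)
    (pz := fun x : A × (B × ℂ) => x.2.2) (pw := fun x : A × (B × ℂ) => x.2.2 + (yA x.1 - yB x.2.1))
    (g := fun e z => ENNReal.ofReal (c * g0 e z)) (h := fun e z => ENNReal.ofReal (h0 e z)) hD hzm hwm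
    (fun e he => ((hg0 e he).1.const_mul c).ennreal_ofReal) (fun e he => (hh0 e he).1.ennreal_ofReal) hyp
  exact ⟨g0 fun _ => 1, h0 fun _ => 1, κ, κ', ⟨(hg0 _ TF.one).1, (hh0 _ TF.one).1, (hg0 _ TF.one).2.1, (hg0 _ TF.one).2.2.1,
    (hh0 _ TF.one).2.1, hκ, hκ', (hg0 _ TF.one).2.2.2, (hh0 _ TF.one).2.2, hfin'⟩⟩

/-- the product of two test functions as one function of the pair -/
lemma TF.pair {e : K1 → ℝ} {e' : K2 → ℝ} (he : TF e) (he' : TF e') :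
    (Measurable fun k : K1 × K2 => e k.1 * e' k.2) ∧ ∀ k : K1 × K2, 0 ≤ e k.1 * e' k.2 ∧ e k.1 * e' k.2 ≤ 1 :=
  ⟨(he.meas.comp measurable_fst).mul (he'.meas.comp measurable_snd), fun _ =>
    ⟨mul_nonneg (he.2 _).1 (he'.2 _).1, mul_le_one₀ (he.2 _).2 (he'.2 _).1 (he'.2 _).2⟩⟩

/-- **the limit of the lattice formula** -/
theorem l3_abs (hA : Tendsto bA U (𝓝 a0)) (hB : Tendsto bB U (𝓝 b0)) (hm : LM (U : Filter ℕ) m c) (hyA : Continuous yA)
    (hyB : Continuous yB)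
    (hinv : ∀ᶠ N in (U : Filter ℕ), ∀ᵐ a ∂(bA N : Measure A), ∀ᵐ b ∂(bB N : Measure B),
      (m N).map (fun z => z + (yA a - yB b)) = m N)
    (hg : ∀ e, TF e → BF (U : Filter ℕ) (g e) C R) (hg1 : ∀ e, TF e → AL1 (U : Filter ℕ) m (g e))
    (hh : ∀ e, TF e → ∀ N, Measurable (h e N)) (hC' : 0 ≤ C')
    (hhb : ∀ e, TF e → ∀ᶠ N in (U : Filter ℕ), ∀ z, 0 ≤ h e N z ∧ h e N z ≤ C') (hD : IsOpen D)
    (hlim : ∀ (e : K1 → ℝ) (e' : K2 → ℝ) (u : A → ℝ) (v : B → ℝ) (w : ℂ → ℝ), TF e → TF e' → TF u → TF v → TF w →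
      Mar D u v w → Tendsto (fun N => ∫ x, e x.1.1 * e' x.1.2 * (u x.2.1 * (v x.2.2.1 * w x.2.2.2)) ∂(ρN N)) U
        (𝓝 (∫ x, e x.1.1 * e' x.1.2 * (u x.2.1 * (v x.2.2.1 * w x.2.2.2)) ∂ρ)))
    (hex : ∀ (e : K1 → ℝ) (e' : K2 → ℝ) (u : A → ℝ) (v : B → ℝ) (w : ℂ → ℝ), TF e → TF e' → TF u → TF v → TF w →
      Mar D u v w → Tendsto (fun N => (∫ x, e x.1.1 * e' x.1.2 * (u x.2.1 * (v x.2.2.1 * w x.2.2.2)) ∂(ρN N)) -
        ∫ p, u p.1 * (v p.2.1 * w p.2.2) * g e N p.2.2 * h e' N (p.2.2 + (yA p.1 - yB p.2.1))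
          ∂((bA N : Measure A).prod ((bB N : Measure B).prod (m N)))) U (𝓝 0)) :
    ∃ (g1 h1 : ℂ → ℝ) (κ : Kernel ℂ K1) (κ' : Kernel ℂ K2), L3Out (U : Filter ℕ) m c (g fun _ => 1) (h fun _ => 1) C R C' ρ
      ((a0 : Measure A).prod ((b0 : Measure B).prod volume)) D yA yB g1 h1 κ κ' := by
  obtain ⟨g0, hg0⟩ := side_g hm hg
  obtain ⟨h0, hh0⟩ := side_h hm hh hC' hhb
  refine l3_ker hyA.measurable hyB.measurable hD.measurableSet hg0 hh0 fun e e' he he' => ?_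
  exact l3_one (E := fun k : K1 × K2 => e k.1 * e' k.2) hA hB hm hyA hyB hinv (hg e he) (hg1 e he) (hg0 e he).1 (hg0 e he).2.1
    (hg0 e he).2.2.1 (hg0 e he).2.2.2 (hh e' he') hC' (hhb e' he') (hh0 e' he').1 (hh0 e' he').2.1 (hh0 e' he').2.2 hD
    (he.pair he').1 (he.pair he').2 (fun u v w hu hv hw hs => hlim e e' u v w he he' hu hv hw hs)
    fun u v w hu hv hw hs => hex e e' u v w he he' hu hv hw hs

end l3

section prd

variable {K1 K2 A B : Type*} [MeasurableSpace K1] [MeasurableSpace K2] [MeasurableSpace A] [MeasurableSpace B]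
  {l : Filter ℕ} {m : ℕ → Measure ℂ} {c : ℝ} {yA : A → ℂ} {yB : B → ℂ} {C R C' : ℝ}
  {ρ : Measure ((K1 × K2) × (A × (B × ℂ)))} {D : Set (A × (B × ℂ))} {gN hN : ℕ → ℂ → ℝ} {μ : Measure (A × (B × ℂ))}
  {g1 h1 : ℂ → ℝ} {κ : Kernel ℂ K1} {κ' : Kernel ℂ K2}

/-- **product form** -/
theorem L3Out.prod (hc : 0 ≤ c) (o : L3Out l m c gN hN C R C' ρ μ D yA yB g1 h1 κ κ') :
    ∃ (G : (K1 → ℝ≥0∞) → ℂ → ℝ≥0∞) (H : (K2 → ℝ≥0∞) → ℂ → ℝ≥0∞), (∀ Φ, Measurable Φ → Measurable (G Φ)) ∧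
      (∀ Ψ, Measurable Ψ → Measurable (H Ψ)) ∧ (∀ Φ, (∀ k, Φ k ≤ 1) → ∀ z, G Φ z ≤ ENNReal.ofReal (c * C)) ∧
      (∀ Φ z, R + 1 ≤ ‖z‖ → G Φ z = 0) ∧ (∀ Ψ, (∀ k, Ψ k ≤ 1) → ∀ z, H Ψ z ≤ ENNReal.ofReal C') ∧
      (∀ Φ Φ', (∀ k, Φ k ≤ Φ' k) → ∀ z, G Φ z ≤ G Φ' z) ∧ (∀ Ψ Ψ', (∀ k, Ψ k ≤ Ψ' k) → ∀ z, H Ψ z ≤ H Ψ' z) ∧
      ∀ S : Set (A × (B × ℂ)), MeasurableSet S → S ⊆ D → ∀ (Φ : K1 → ℝ≥0∞) (Ψ : K2 → ℝ≥0∞), Measurable Φ → Measurable Ψ →
        ∫⁻ x in Prod.snd ⁻¹' S, Φ x.1.1 * Ψ x.1.2 ∂ρ = ∫⁻ x in S, G Φ x.2.2 * H Ψ (x.2.2 + (yA x.1 - yB x.2.1)) ∂μ := by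
  have := o.mar
  have := o.mar'
  refine ⟨fun Φ z => ENNReal.ofReal (c * g1 z) * ∫⁻ k, Φ k ∂(κ z), fun Ψ z => ENNReal.ofReal (h1 z) * ∫⁻ k, Ψ k ∂(κ' z),
    fun Φ hΦ => (o.gm.const_mul c).ennreal_ofReal.mul hΦ.lintegral_kernel,
    fun Ψ hΨ => o.hm.ennreal_ofReal.mul hΨ.lintegral_kernel, fun Φ hΦ z => ?_, fun Φ z hz => ?_, fun Ψ hΨ z => ?_,
    fun Φ Φ' h z => ?_, fun Ψ Ψ' h z => ?_, fun S hS hSD Φ Ψ hΦ hΨ => ?_⟩
  · calc ENNReal.ofReal (c * g1 z) * ∫⁻ k, Φ k ∂(κ z) ≤ ENNReal.ofReal (c * C) * ∫⁻ _, 1 ∂(κ z) := by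
          gcongr
          · exact (o.gb z).2
          · exact hΦ _
      _ = ENNReal.ofReal (c * C) := by simp
  · show ENNReal.ofReal (c * g1 z) * ∫⁻ k, Φ k ∂(κ z) = 0
    rw [o.gs z hz, mul_zero, ENNReal.ofReal_zero, zero_mul]
  · calc ENNReal.ofReal (h1 z) * ∫⁻ k, Ψ k ∂(κ' z) ≤ ENNReal.ofReal C' * ∫⁻ _, 1 ∂(κ' z) := by
          gcongr
          · exact (o.hb z).2
          · exact hΨ _
      _ = ENNReal.ofReal C' := by simp
  · exact mul_le_mul_right (lintegral_mono h) _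
  · exact mul_le_mul_right (lintegral_mono h) _
  · have h2 := o.den S hS hSD (fun k => Φ k.1 * Ψ k.2) ((hΦ.comp measurable_fst).mul (hΨ.comp measurable_snd))
    have h3 : ∫⁻ x in Prod.snd ⁻¹' S, Φ x.1.1 * Ψ x.1.2 ∂ρ = ∫⁻ x in Prod.snd ⁻¹' S, (fun k : K1 × K2 => Φ k.1 * Ψ k.2) x.1 ∂ρ := rfl
    rw [h3, h2]
    refine lintegral_congr fun x => ?_
    rw [lintegral_prod_mul hΦ.aemeasurable hΨ.aemeasurable]
    ring

end prd

end Pool.Agent.ROT.F3
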