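import Pool.Agent.ROT.F3SysE
import Pool.Agent.ROT.F3LimK
import Pool.Agent.ROT.F3LimL

/-!
# F3, route NL, row (P0), word half (helper55): the exact lattice identity as an identity of integrals

`bW Rs F β arc` : the law of the rests of the class `Rs` with the weight `β x^|R| F R`, read through `arc`;
`rhoN N b w m` : the law of the data `m` of the closed words with two roots (`mw N b`, helper58), weight `w`;
`gN` : the scaled weight of the connections, as a function of the relative position.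
* **`hexW`** : `∫ e e' u v w dρN = ∫ u v w (g e)(z) (h e')(z + (yA a - yB b)) d(bA × bB × m)`, an equality for every `N`.
-/

set_option autoImplicit false

open MeasureTheory Set Filter Topology

open scoped ENNReal Classical

namespace Pool.Agent.ROT.F3

open Pool.Agent.ROT.F3L

/-! ### 1. The law of the rests -/

instance cntW3 : Countable W3 := inferInstanceAs (Countable (List (Fin 3)))

section rests

variable {A : Type*} [MeasurableSpace A]

/-- **the law of the rests** -/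
noncomputable def bW (Rs : Set W3) (F : W3 → ℝ≥0∞) (β : ℝ≥0∞) (arc : W3 → A) : Measure A :=
  Measure.sum fun R : W3 => (if R ∈ Rs then β * (wx R * F R) else 0) • Measure.dirac (arc R)

variable {Rs : Set W3} {F : W3 → ℝ≥0∞} {β : ℝ≥0∞} {arc : W3 → A}

lemma bW_lint {φ : A → ℝ≥0∞} (hφ : Measurable φ) :
    ∫⁻ x, φ x ∂(bW Rs F β arc) = β * ∑' R : W3, if R ∈ Rs then wx R * F R * φ (arc R) else 0 := by
  unfold bW
  rw [lintegral_sum_measure, ← ENNReal.tsum_mul_left]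
  refine tsum_congr fun R => ?_
  rw [lintegral_smul_measure, lintegral_dirac' _ hφ, smul_eq_mul]
  by_cases hR : R ∈ Rs
  · rw [if_pos hR, if_pos hR]
    ring
  · rw [if_neg hR, if_neg hR, zero_mul, mul_zero]

lemma bW_univ : bW Rs F β arc univ = β * ms Rs F := by
  rw [← lintegral_one, bW_lint measurable_const]
  unfold ms
  simp only [mul_one]

lemma bW_fin (hβ : β ≠ ∞) (hF : ms Rs F ≠ ∞) : IsFiniteMeasure (bW Rs F β arc) :=
  ⟨by rw [bW_univ]; exact ENNReal.mul_lt_top hβ.lt_top hF.lt_top⟩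

end rests

/-! ### 2. The law of the pieces of the closed words -/

section law

variable {X : Type*} [MeasurableSpace X]

/-- **the law of the data** of the closed words with two roots -/
noncomputable def rhoN (N : ℕ) (b : ℝ) (w : W3 × ℕ → ℝ≥0∞) (m : W3 × ℕ → X) : Measure X :=
  ((mw N b).withDensity w).map m

lemma rhoN_lint {N : ℕ} {b : ℝ} {w : W3 × ℕ → ℝ≥0∞} {m : W3 × ℕ → X} {φ : X → ℝ≥0∞} (hφ : Measurable φ) :
    ∫⁻ x, φ x ∂(rhoN N b w m) = ∫⁻ x, w x * φ (m x) ∂(mw N b) := by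
  unfold rhoN
  have hm : Measurable m := measurable_of_countable m
  have hw : Measurable w := measurable_of_countable w
  rw [lintegral_map hφ hm]
  exact lintegral_withDensity_eq_lintegral_mul _ hw (hφ.comp hm)

variable {C C' : Set (W3 × W3)} {RA RB : Set W3}

/-- **the weight and the data of a class**: `w` and `m` have the given values at the words of the class, `w = 0` elsewhere -/
structure Rd (C C' : Set (W3 × W3)) (RA RB : Set W3) (w : W3 × ℕ → ℝ≥0∞) (m : W3 × ℕ → X)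
    (W : W3 × W3 → W3 → W3 × W3 → W3 → ℝ≥0∞) (M : W3 × W3 → W3 → W3 × W3 → W3 → X) : Prop where
  uq : Uq C C' RA RB
  wt : ∀ a ∈ C, ∀ R ∈ RA, ∀ c ∈ C', ∀ S ∈ RB, Cl (G6 a R c S) →
    w (G6 a R c S, a.1.length + R.length + c.1.length) = W a R c S
  dt : ∀ a ∈ C, ∀ R ∈ RA, ∀ c ∈ C', ∀ S ∈ RB, Cl (G6 a R c S) →
    w (G6 a R c S, a.1.length + R.length + c.1.length) ≠ 0 → m (G6 a R c S, a.1.length + R.length + c.1.length) = M a R c S
  out : ∀ x : W3 × ℕ, Cl x.1 → w x ≠ 0 → ∃ a ∈ C, ∃ R ∈ RA, ∃ c ∈ C', ∃ S ∈ RB, G6 a R c S = x.1 ∧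
    a.1.length + R.length + c.1.length = x.2

/-- **from the closed words to the pieces** -/
theorem rhoN_MkS {N : ℕ} {b : ℝ} {w : W3 × ℕ → ℝ≥0∞} {m : W3 × ℕ → X} {W : W3 × W3 → W3 → W3 × W3 → W3 → ℝ≥0∞}
    {M : W3 × W3 → W3 → W3 × W3 → W3 → X} (h : Rd C C' RA RB w m W M) {φ : X → ℝ≥0∞} (hφ : Measurable φ) :
    ∫⁻ x, φ x ∂(rhoN N b w m) = ∫⁻ x, MkS (fun a R c S => if a ∈ C ∧ R ∈ RA ∧ c ∈ C' ∧ S ∈ RB then
      W a R c S * φ (M a R c S) else 0) x.1 x.2 ∂(mw N b) := by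
  rw [rhoN_lint hφ, mw_lint, mw_lint]
  congr 1
  refine tsum_congr fun v => ?_
  by_cases hv : Cl v ∧ (v.length : ℝ) ≤ b * (N : ℝ) ^ (4 / 3 : ℝ)
  swap
  · rw [if_neg hv, if_neg hv]
  rw [if_pos hv, if_pos hv]
  congr 1
  refine Finset.sum_congr rfl fun k _ => ?_
  obtain ⟨H, hH⟩ : ∃ H : W3 × W3 → W3 → W3 × W3 → W3 → ℝ≥0∞, H = fun a R c S =>
    if a ∈ C ∧ R ∈ RA ∧ c ∈ C' ∧ S ∈ RB then W a R c S * φ (M a R c S) else 0 := ⟨_, rfl⟩
  rw [← hH]
  show w (v, k) * φ (m (v, k)) = MkS H v k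
  have hH1 : ∀ a R c S, H a R c S ≠ 0 → a ∈ C ∧ R ∈ RA ∧ c ∈ C' ∧ S ∈ RB := by
    intro a R c S h1
    rw [hH] at h1
    by_contra h2
    exact h1 (if_neg h2)
  have hlen : ∀ (a : W3 × W3) (R : W3) (c : W3 × W3), (a.1 ++ (R ++ c.1.reverse)).length =
      a.1.length + R.length + c.1.length := by
    intro a R c
    simp only [List.length_append, List.length_reverse]
    ring
  have hval : ∀ a ∈ C, ∀ R ∈ RA, ∀ c ∈ C', ∀ S ∈ RB, G6 a R c S = v → a.1.length + R.length + c.1.length = k →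
      w (v, k) * φ (m (v, k)) = MkS H v k := by
    intro a ha R hR c hc S hS h1 h2
    have h3 := MkS_uniq h.uq hH1 ha hR hc hS
    have h4 : Cl (G6 a R c S) := by rw [h1]; exact hv.1
    rw [← h1, ← h2, h3, hH]
    show _ = if a ∈ C ∧ R ∈ RA ∧ c ∈ C' ∧ S ∈ RB then W a R c S * φ (M a R c S) else 0
    rw [if_pos ⟨ha, hR, hc, hS⟩]
    by_cases h0 : w (G6 a R c S, a.1.length + R.length + c.1.length) = 0
    · rw [← h.wt a ha R hR c hc S hS h4, h0, zero_mul, zero_mul]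
    · rw [h.dt a ha R hR c hc S hS h4 h0, h.wt a ha R hR c hc S hS h4]
  by_cases h0 : w (v, k) = 0
  · by_cases h1 : MkS H v k = 0
    · rw [h0, h1, zero_mul]
    · obtain ⟨a, R, c, S, g1, g2, g3⟩ := MkS_ne h1
      obtain ⟨ha, hR, hc, hS⟩ := hH1 _ _ _ _ g3
      exact hval a ha R hR c hc S hS g1 (by rw [← hlen]; exact g2)
  · obtain ⟨a, ha, R, hR, c, hc, S, hS, g1, g2⟩ := h.out (v, k) hv.1 h0
    exact hval a ha R hR c hc S hS g1 g2

end law

/-! ### 2b. The second root is even -/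

section even

variable {X : Type*} [MeasurableSpace X]

lemma mw_aeTN (N : ℕ) (b : ℝ) : ∀ᵐ x ∂(mw N b), x ∈ TN N b := by
  rw [ae_iff]
  unfold mw
  rw [Measure.finsetSum_apply]
  refine Finset.sum_eq_zero fun x hx => ?_
  rw [Measure.smul_apply, Measure.dirac_apply]
  have : x ∉ {a | a ∉ TN N b} := fun h => h hx
  rw [indicator_of_notMem this, smul_zero]

/-- the words of a class of even pieces have an even second root: `mwE` (helper58) instead of `mw` gives the same law -/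
theorem rhoN_even {N : ℕ} {b : ℝ} {w : W3 × ℕ → ℝ≥0∞} {m : W3 × ℕ → X} {C C' : Set (W3 × W3)} {RA RB : Set W3}
    {W : W3 × W3 → W3 → W3 × W3 → W3 → ℝ≥0∞} {M : W3 × W3 → W3 → W3 × W3 → W3 → X} (h : Rd C C' RA RB w m W M)
    (hy : Hyp C C' RA RB) : (((mw N b).restrict {x | Even x.2}).withDensity w).map m = rhoN N b w m := by
  unfold rhoN
  congr 1
  rw [← withDensity_indicator ((Set.to_countable _).measurableSet)]
  refine withDensity_congr_ae ?_
  filter_upwards [mw_aeTN N b] with x hx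
  by_cases hx2 : Even x.2
  · rw [indicator_of_mem (show x ∈ {x : W3 × ℕ | Even x.2} from hx2)]
  · rw [indicator_of_notMem (show x ∉ {x : W3 × ℕ | Even x.2} from hx2)]
    by_contra h0
    obtain ⟨a, ha, R, hR, c, hc, S, hS, g1, g2⟩ := h.out x (mem_TN.1 hx).1 (Ne.symm h0)
    refine hx2 ?_
    rw [← g2]
    exact ((hy.cn a ha).e1.add (hy.rA R hR).1).add (hy.cn' c hc).e1

end even

/-! ### 3. The lattice sum -/

/-- the integral with respect to the lattice measure as a sum over the displacements `z` of the words: relative position `-(v z) / s` -/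
lemma lms_lint {f : ℂ ≃ₗ[ℝ] ℂ} {s : ℝ} {v : ℂ} (hv : v ≠ 0) {φ : ℂ → ℝ≥0∞} (hφ : Measurable φ)
    (hΛ : ∀ z : ℂ, φ (((s⁻¹ : ℝ) : ℂ) * -(v * z)) ≠ 0 → -(v * z) ∈ Lat f) :
    ∫⁻ z, φ z ∂(lms f s 0) = ENNReal.ofReal ((s ^ 2)⁻¹) * ∑' z : ℂ, φ (((s⁻¹ : ℝ) : ℂ) * -(v * z)) := by
  have h1 : ∑' z : ℂ, φ (((s⁻¹ : ℝ) : ℂ) * -(v * z)) = ∑' p : ℤ × ℤ, φ (lpt f s 0 p) := by
    have hinj : Function.Injective fun p : ℤ × ℤ => -(v⁻¹ * f ⟨p.1, p.2⟩) := by
      intro p q h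
      simp only [neg_inj] at h
      have h2 := f.injective (mul_left_cancel₀ (inv_ne_zero hv) h)
      have h3 := congrArg Complex.re h2
      have h4 := congrArg Complex.im h2
      simp only [Int.cast_inj] at h3 h4
      exact Prod.ext h3 h4
    have h3 : ∀ p : ℤ × ℤ, φ (((s⁻¹ : ℝ) : ℂ) * -(v * -(v⁻¹ * f ⟨p.1, p.2⟩))) = φ (lpt f s 0 p) := by
      intro p
      congr 1
      unfold lpt
      field_simp
      ring
    simp_rw [← h3]
    refine (hinj.tsum_eq (f := fun z => φ (((s⁻¹ : ℝ) : ℂ) * -(v * z))) fun z hz => ?_).symm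
    obtain ⟨p, hp⟩ := hΛ z hz
    refine ⟨p, ?_⟩
    simp only at hp ⊢
    rw [hp, mul_neg, neg_neg, inv_mul_cancel_left₀ hv]
  rw [h1, lms, lintegral_sum_measure, ← ENNReal.tsum_mul_left]
  refine tsum_congr fun p => ?_
  rw [lintegral_smul_measure, lintegral_dirac' _ hφ, smul_eq_mul]

/-! ### 4. The identity -/

/-- the weight of the connections at the relative position `z` (not scaled) -/
noncomputable def Gm (C : Set (W3 × W3)) (E : W3 × W3 → ℝ≥0∞) (v z : ℂ) : ℝ := (gam C E (-(v⁻¹ * z))).toReal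

lemma Gm_at {C : Set (W3 × W3)} {E : W3 × W3 → ℝ≥0∞} {v : ℂ} (hv : v ≠ 0) {s : ℝ} (hs : 0 < s) (z : ℂ) (α : ℝ) :
    scl α s (Gm C E v) (((s⁻¹ : ℝ) : ℂ) * -(v * z)) = α * (gam C E z).toReal := by
  unfold scl Gm
  congr 3
  have h0 : (s : ℂ) ≠ 0 := by exact_mod_cast hs.ne'
  push_cast
  rw [mul_inv_cancel_left₀ h0, mul_neg, neg_neg, inv_mul_cancel_left₀ hv]

/-- a factor which depends on the displacement goes out -/
lemma gam_disp (C : Set (W3 × W3)) (E : W3 × W3 → ℝ≥0∞) (ω : ℂ → ℝ≥0∞) (z : ℂ) :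
    gam C (fun a => E a * ω (en a.1 - en a.2)) z = gam C E z * ω z := by
  unfold gam
  rw [← ENNReal.tsum_mul_right]
  refine tsum_congr fun a => ?_
  by_cases h : a ∈ C ∧ en a.1 - en a.2 = z
  · rw [if_pos h, if_pos h]
    show wx a.1 * wx a.2 * (E a * ω (en a.1 - en a.2)) = _
    rw [h.2]
    ring
  · rw [if_neg h, if_neg h, zero_mul]

lemma gm_mono {C : Set (W3 × W3)} {E E' : W3 × W3 → ℝ≥0∞} (h : ∀ a, E a ≤ E' a) (z : ℂ) : gam C E z ≤ gam C E' z := by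
  refine ENNReal.tsum_le_tsum fun a => ?_
  split_ifs
  · exact mul_le_mul_right (h a) _
  · exact le_rfl

lemma mul_e_le {K : Type*} {E : W3 × W3 → ℝ≥0∞} {q : K → ℝ} {κ : W3 × W3 → K} (hq : ∀ x, q x ≤ 1) (a : W3 × W3) :
    E a * ENNReal.ofReal (q (κ a)) ≤ E a := by
  calc E a * ENNReal.ofReal (q (κ a)) ≤ E a * 1 := mul_le_mul_right (by
        rw [← ENNReal.ofReal_one]; exact ENNReal.ofReal_le_ofReal (hq _)) _
    _ = E a := mul_one _

section main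

variable {K1 K2 A B : Type*} [MeasurableSpace K1] [MeasurableSpace K2] [MeasurableSpace A] [MeasurableSpace B]
  {C C' : Set (W3 × W3)} {RA RB : Set W3}

/-- the data of the pieces: connections, arcs, relative position (minus the displacement of the words, scaled and turned) -/
noncomputable def MM (κ : W3 × W3 → K1) (κ' : W3 × W3 → K2) (arcA : W3 → A) (arcB : W3 → B) (v : ℂ) (s : ℝ) (a : W3 × W3)
    (R : W3) (c : W3 × W3) (S : W3) : (K1 × K2) × (A × (B × ℂ)) :=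
  ((κ a, κ' c), (arcA R, (arcB S, ((s⁻¹ : ℝ) : ℂ) * -(v * (en a.1 - en a.2)))))

/-- the inputs of the identity, fixed `N` -/
structure HexIn (N : ℕ) (b : ℝ) (C C' : Set (W3 × W3)) (RA RB : Set W3) (E E' : W3 × W3 → ℝ≥0∞) (F G : W3 → ℝ≥0∞)
    (w : W3 × ℕ → ℝ≥0∞) (m : W3 × ℕ → (K1 × K2) × (A × (B × ℂ))) (κ : W3 × W3 → K1) (κ' : W3 × W3 → K2)
    (arcA : W3 → A) (arcB : W3 → B) (yA : A → ℂ) (yB : B → ℂ) (v : ℂ) (s : ℝ) (f : ℂ ≃ₗ[ℝ] ℂ) (βA βB : ℝ≥0∞) (α α' : ℝ) :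
    Prop where
  hyp : Hyp C C' RA RB
  sp : SpH (PrH C C' RA RB E E' F G) N b
  rd : Rd C C' RA RB w m (fun a R c S => E a * E' c * (F R * G S)) (MM κ κ' arcA arcB v s)
  v0 : v ≠ 0
  s0 : 0 < s
  bA : βA ≠ ∞
  bB : βB ≠ ∞
  mA : ms RA F ≠ ∞
  mB : ms RB G ≠ ∞
  a0 : 0 ≤ α
  a0' : 0 ≤ α'
  nrm : ENNReal.ofReal ((N : ℝ) ^ (-(2 / 3) : ℝ)) =
    βA * βB * (ENNReal.ofReal ((s ^ 2)⁻¹) * (ENNReal.ofReal α * ENNReal.ofReal α'))
  gf : ∀ z, gam C E z ≠ ∞
  gf' : ∀ z, gam C' E' z ≠ ∞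
  lat : ∀ z, gam C E z ≠ 0 → -(v * z) ∈ Lat f
  yA : ∀ R ∈ RA, yA (arcA R) = ((s⁻¹ : ℝ) : ℂ) * -(v * en R)
  yB : ∀ R ∈ RB, yB (arcB R) = ((s⁻¹ : ℝ) : ℂ) * -(v * en R)

variable {N : ℕ} {b : ℝ} {E E' : W3 × W3 → ℝ≥0∞} {F G : W3 → ℝ≥0∞} {w : W3 × ℕ → ℝ≥0∞}
  {m : W3 × ℕ → (K1 × K2) × (A × (B × ℂ))} {κ : W3 × W3 → K1} {κ' : W3 × W3 → K2} {arcA : W3 → A} {arcB : W3 → B} {yA : A → ℂ}
  {yB : B → ℂ} {v : ℂ} {s : ℝ} {f : ℂ ≃ₗ[ℝ] ℂ} {βA βB : ℝ≥0∞} {α α' : ℝ}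

/-- the left side: a sum over the rests and the relative positions -/
theorem hex_left (h : HexIn N b C C' RA RB E E' F G w m κ κ' arcA arcB yA yB v s f βA βB α α') {e : K1 → ℝ} {e' : K2 → ℝ}
    {u : A → ℝ} {t : B → ℝ} {ω : ℂ → ℝ} (me : Measurable e) (me' : Measurable e') (mu : Measurable u) (mt : Measurable t)
    (mω : Measurable ω) (he : ∀ x, 0 ≤ e x) (he' : ∀ x, 0 ≤ e' x) (hu : ∀ x, 0 ≤ u x) (ht : ∀ x, 0 ≤ t x) :
    ∫⁻ x, ENNReal.ofReal (e x.1.1 * e' x.1.2 * (u x.2.1 * (t x.2.2.1 * ω x.2.2.2))) ∂(rhoN N b w m) =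
      ENNReal.ofReal ((N : ℝ) ^ (-(2 / 3) : ℝ)) * ∑' (R : W3) (S : W3), if R ∈ RA ∧ S ∈ RB then
        wx R * (F R * ENNReal.ofReal (u (arcA R))) * (wx S * (G S * ENNReal.ofReal (t (arcB S)))) *
        ∑' z : ℂ, (if Dj R S z then gam C (fun a => E a * ENNReal.ofReal (e (κ a))) z *
          ENNReal.ofReal (ω (((s⁻¹ : ℝ) : ℂ) * -(v * z))) *
          gam C' (fun a => E' a * ENNReal.ofReal (e' (κ' a))) (z + en R - en S) else 0) else 0 := by
  have hφ : Measurable fun x : (K1 × K2) × (A × (B × ℂ)) =>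
      ENNReal.ofReal (e x.1.1 * e' x.1.2 * (u x.2.1 * (t x.2.2.1 * ω x.2.2.2))) := by fun_prop
  have key : (fun a R c S => if a ∈ C ∧ R ∈ RA ∧ c ∈ C' ∧ S ∈ RB then
      (E a * E' c * (F R * G S)) * ENNReal.ofReal (e (MM κ κ' arcA arcB v s a R c S).1.1 *
        e' (MM κ κ' arcA arcB v s a R c S).1.2 * (u (MM κ κ' arcA arcB v s a R c S).2.1 *
        (t (MM κ κ' arcA arcB v s a R c S).2.2.1 * ω (MM κ κ' arcA arcB v s a R c S).2.2.2))) else 0) =
      PrH C C' RA RB (fun a => (E a * ENNReal.ofReal (e (κ a))) *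
        (fun z => ENNReal.ofReal (ω (((s⁻¹ : ℝ) : ℂ) * -(v * z)))) (en a.1 - en a.2))
        (fun a => E' a * ENNReal.ofReal (e' (κ' a))) (fun R => F R * ENNReal.ofReal (u (arcA R)))
        (fun S => G S * ENNReal.ofReal (t (arcB S))) := by
    funext a R c S
    unfold PrH MM
    by_cases hc : a ∈ C ∧ R ∈ RA ∧ c ∈ C' ∧ S ∈ RB
    swap
    · rw [if_neg hc, if_neg hc]
    rw [if_pos hc, if_pos hc]
    simp only
    rw [ENNReal.ofReal_mul (mul_nonneg (he _) (he' _)), ENNReal.ofReal_mul (he _), ENNReal.ofReal_mul (hu _),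
      ENNReal.ofReal_mul (ht _)]
    ring
  rw [rhoN_MkS h.rd hφ]
  have key2 := congrArg (fun H => ∫⁻ x, MkS H x.1 x.2 ∂(mw N b)) key
  simp only at key2
  rw [key2, mw_prod h.hyp]
  · congr 1
    refine tsum_congr fun R => tsum_congr fun S => ?_
    simp only [gam_disp C (fun a => E a * ENNReal.ofReal (e (κ a))) (fun z => ENNReal.ofReal (ω (((s⁻¹ : ℝ) : ℂ) * -(v * z))))]
  · intro a R c S h1 h2
    refine h.sp a R c S (fun h3 => h1 ?_) h2
    unfold PrH at h3 ⊢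
    by_cases hc : a ∈ C ∧ R ∈ RA ∧ c ∈ C' ∧ S ∈ RB
    · rw [if_pos hc] at h3 ⊢
      have h4 : (E a * ENNReal.ofReal (e (κ a)) * ENNReal.ofReal (ω (((s⁻¹ : ℝ) : ℂ) * -(v * (en a.1 - en a.2))))) *
          (E' c * ENNReal.ofReal (e' (κ' c))) * (F R * ENNReal.ofReal (u (arcA R)) * (G S * ENNReal.ofReal (t (arcB S)))) =
          E a * E' c * (F R * G S) * (ENNReal.ofReal (e (κ a)) * ENNReal.ofReal (ω (((s⁻¹ : ℝ) : ℂ) * -(v * (en a.1 - en a.2)))) *
            ENNReal.ofReal (e' (κ' c)) * ENNReal.ofReal (u (arcA R)) * ENNReal.ofReal (t (arcB S))) := by ring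
      rw [h4, h3, zero_mul]
    · rw [if_neg hc]

/-- the right side: the same sum -/
theorem hex_right {K1 K2 : Type*} {m : W3 × ℕ → (K1 × K2) × (A × (B × ℂ))} {κ : W3 × W3 → K1} {κ' : W3 × W3 → K2}
    [MeasurableSpace K1] [MeasurableSpace K2] (h : HexIn N b C C' RA RB E E' F G w m κ κ' arcA arcB yA yB v s f βA βB α α') {e : K1 → ℝ} {e' : K2 → ℝ}
    {u : A → ℝ} {t : B → ℝ} {ω : ℂ → ℝ} (mu : Measurable u) (mt : Measurable t) (mω : Measurable ω) (myA : Measurable yA)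
    (myB : Measurable yB) (he : ∀ x, 0 ≤ e x ∧ e x ≤ 1) (he' : ∀ x, 0 ≤ e' x ∧ e' x ≤ 1) (hu : ∀ x, 0 ≤ u x)
    (ht : ∀ x, 0 ≤ t x) (hω : ∀ x, 0 ≤ ω x)
    (hmg : Measurable (scl α s (Gm C (fun a => E a * ENNReal.ofReal (e (κ a))) v)))
    (hmh : Measurable (scl α' s (Gm C' (fun a => E' a * ENNReal.ofReal (e' (κ' a))) v))) :
    ∫⁻ p, ENNReal.ofReal (u p.1 * (t p.2.1 * ω p.2.2) * scl α s (Gm C (fun a => E a * ENNReal.ofReal (e (κ a))) v) p.2.2 *
      scl α' s (Gm C' (fun a => E' a * ENNReal.ofReal (e' (κ' a))) v) (p.2.2 + (yA p.1 - yB p.2.1)))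
      ∂((bW RA F βA arcA).prod ((bW RB G βB arcB).prod (lms f s 0))) =
      βA * βB * (ENNReal.ofReal ((s ^ 2)⁻¹) * (ENNReal.ofReal α * ENNReal.ofReal α')) *
        ∑' (R : W3) (S : W3), if R ∈ RA ∧ S ∈ RB then
        wx R * (F R * ENNReal.ofReal (u (arcA R))) * (wx S * (G S * ENNReal.ofReal (t (arcB S)))) *
        ∑' z : ℂ, (gam C (fun a => E a * ENNReal.ofReal (e (κ a))) z *
          ENNReal.ofReal (ω (((s⁻¹ : ℝ) : ℂ) * -(v * z))) *
          gam C' (fun a => E' a * ENNReal.ofReal (e' (κ' a))) (z + en R - en S)) else 0 := by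
  obtain ⟨g, hg⟩ : ∃ g, g = scl α s (Gm C (fun a => E a * ENNReal.ofReal (e (κ a))) v) := ⟨_, rfl⟩
  obtain ⟨k, hk⟩ : ∃ k, k = scl α' s (Gm C' (fun a => E' a * ENNReal.ofReal (e' (κ' a))) v) := ⟨_, rfl⟩
  rw [← hg] at hmg
  rw [← hk] at hmh
  rw [← hg, ← hk]
  have fA : IsFiniteMeasure (bW RA F βA arcA) := bW_fin h.bA h.mA
  have fB : IsFiniteMeasure (bW RB G βB arcB) := bW_fin h.bB h.mB
  have fz := lms_fmc f h.s0 0
  have g0 : ∀ z, 0 ≤ g z := fun z => by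
    rw [hg]
    exact mul_nonneg h.a0 ENNReal.toReal_nonneg
  have k0 : ∀ z, 0 ≤ k z := fun z => by
    rw [hk]
    exact mul_nonneg h.a0' ENNReal.toReal_nonneg
  have hmeas : Measurable fun p : A × (B × ℂ) => ENNReal.ofReal (u p.1 * (t p.2.1 * ω p.2.2) * g p.2.2 *
      k (p.2.2 + (yA p.1 - yB p.2.1))) := by fun_prop
  -- the weights of the connections
  have gE : ∀ z, gam C (fun a => E a * ENNReal.ofReal (e (κ a))) z ≤ gam C E z := fun z => gm_mono (fun a => by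
    calc E a * ENNReal.ofReal (e (κ a)) ≤ E a * 1 := mul_le_mul_right (by
          rw [← ENNReal.ofReal_one]; exact ENNReal.ofReal_le_ofReal (he _).2) _
      _ = E a := mul_one _) z
  have gE' : ∀ z, gam C' (fun a => E' a * ENNReal.ofReal (e' (κ' a))) z ≤ gam C' E' z := fun z => gm_mono (fun a => by
    calc E' a * ENNReal.ofReal (e' (κ' a)) ≤ E' a * 1 := mul_le_mul_right (by
          rw [← ENNReal.ofReal_one]; exact ENNReal.ofReal_le_ofReal (he' _).2) _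
      _ = E' a := mul_one _) z
  have gt : ∀ z, ENNReal.ofReal (g (((s⁻¹ : ℝ) : ℂ) * -(v * z))) =
      ENNReal.ofReal α * gam C (fun a => E a * ENNReal.ofReal (e (κ a))) z := fun z => by
    rw [hg, Gm_at h.v0 h.s0, ENNReal.ofReal_mul h.a0, ENNReal.ofReal_toReal (ne_top_of_le_ne_top (h.gf z) (gE z))]
  have kt : ∀ z, ENNReal.ofReal (k (((s⁻¹ : ℝ) : ℂ) * -(v * z))) =
      ENNReal.ofReal α' * gam C' (fun a => E' a * ENNReal.ofReal (e' (κ' a))) z := fun z => by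
    rw [hk, Gm_at h.v0 h.s0, ENNReal.ofReal_mul h.a0', ENNReal.ofReal_toReal (ne_top_of_le_ne_top (h.gf' z) (gE' z))]
  rw [lintegral_prod _ hmeas.aemeasurable, bW_lint (by
    exact hmeas.lintegral_prod_right'), ← ENNReal.tsum_mul_left, ← ENNReal.tsum_mul_left]
  refine tsum_congr fun R => ?_
  by_cases hR : R ∈ RA
  swap
  · rw [if_neg hR, mul_zero, ENNReal.tsum_eq_zero.2 fun S => if_neg fun h1 => hR h1.1, mul_zero]
  rw [if_pos hR]
  have hmB : Measurable fun q : B × ℂ => ENNReal.ofReal (u (arcA R) * (t q.1 * ω q.2) * g q.2 *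
      k (q.2 + (yA (arcA R) - yB q.1))) := by fun_prop
  have e1 : ∫⁻ q, ENNReal.ofReal (u (arcA R) * (t q.1 * ω q.2) * g q.2 * k (q.2 + (yA (arcA R) - yB q.1)))
      ∂((bW RB G βB arcB).prod (lms f s 0)) = βB * ∑' S : W3, if S ∈ RB then wx S * G S *
        ∫⁻ z, ENNReal.ofReal (u (arcA R) * (t (arcB S) * ω z) * g z * k (z + (yA (arcA R) - yB (arcB S)))) ∂(lms f s 0)
        else 0 := by
    rw [lintegral_prod _ hmB.aemeasurable, bW_lint (by exact hmB.lintegral_prod_right')]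
  rw [e1]
  have e2 : ∀ S ∈ RB, ∫⁻ z, ENNReal.ofReal (u (arcA R) * (t (arcB S) * ω z) * g z * k (z + (yA (arcA R) - yB (arcB S))))
      ∂(lms f s 0) = ENNReal.ofReal ((s ^ 2)⁻¹) * (ENNReal.ofReal α * ENNReal.ofReal α') *
        (ENNReal.ofReal (u (arcA R)) * ENNReal.ofReal (t (arcB S))) *
        ∑' z : ℂ, (gam C (fun a => E a * ENNReal.ofReal (e (κ a))) z * ENNReal.ofReal (ω (((s⁻¹ : ℝ) : ℂ) * -(v * z))) *
          gam C' (fun a => E' a * ENNReal.ofReal (e' (κ' a))) (z + en R - en S)) := by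
    intro S hS
    have e3 : ∀ z : ℂ, ENNReal.ofReal (u (arcA R) * (t (arcB S) * ω (((s⁻¹ : ℝ) : ℂ) * -(v * z))) *
        g (((s⁻¹ : ℝ) : ℂ) * -(v * z)) * k (((s⁻¹ : ℝ) : ℂ) * -(v * z) + (yA (arcA R) - yB (arcB S)))) =
        (ENNReal.ofReal α * ENNReal.ofReal α') * (ENNReal.ofReal (u (arcA R)) * ENNReal.ofReal (t (arcB S))) *
        (gam C (fun a => E a * ENNReal.ofReal (e (κ a))) z * ENNReal.ofReal (ω (((s⁻¹ : ℝ) : ℂ) * -(v * z))) *
          gam C' (fun a => E' a * ENNReal.ofReal (e' (κ' a))) (z + en R - en S)) := by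
      intro z
      have e4 : ((s⁻¹ : ℝ) : ℂ) * -(v * z) + (yA (arcA R) - yB (arcB S)) = ((s⁻¹ : ℝ) : ℂ) * -(v * (z + en R - en S)) := by
        rw [h.yA R hR, h.yB S hS]
        ring
      rw [e4, ENNReal.ofReal_mul (mul_nonneg (mul_nonneg (hu _) (mul_nonneg (ht _) (hω _))) (g0 _)),
        ENNReal.ofReal_mul (mul_nonneg (hu _) (mul_nonneg (ht _) (hω _))), ENNReal.ofReal_mul (hu _), ENNReal.ofReal_mul (ht _),
        gt, kt]
      ring
    rw [lms_lint h.v0 (by fun_prop) (v := v)]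
    · simp_rw [e3]
      rw [ENNReal.tsum_mul_left]
      ring
    · intro z hz
      rw [e3] at hz
      refine h.lat z fun h0 => hz ?_
      have h1 : gam C (fun a => E a * ENNReal.ofReal (e (κ a))) z = 0 := le_antisymm ((gE z).trans h0.le) zero_le
      rw [h1]
      ring
  have e5 : (∑' S : W3, if S ∈ RB then wx S * G S * ∫⁻ z, ENNReal.ofReal (u (arcA R) * (t (arcB S) * ω z) * g z *
      k (z + (yA (arcA R) - yB (arcB S)))) ∂(lms f s 0) else 0) = ∑' S : W3, if S ∈ RB then wx S * G S *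
      (ENNReal.ofReal ((s ^ 2)⁻¹) * (ENNReal.ofReal α * ENNReal.ofReal α') *
        (ENNReal.ofReal (u (arcA R)) * ENNReal.ofReal (t (arcB S))) *
        ∑' z : ℂ, (gam C (fun a => E a * ENNReal.ofReal (e (κ a))) z * ENNReal.ofReal (ω (((s⁻¹ : ℝ) : ℂ) * -(v * z))) *
          gam C' (fun a => E' a * ENNReal.ofReal (e' (κ' a))) (z + en R - en S))) else 0 := by
    refine tsum_congr fun S => ?_
    by_cases hS : S ∈ RB
    · rw [if_pos hS, if_pos hS, e2 S hS]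
    · rw [if_neg hS, if_neg hS]
  rw [e5, ← ENNReal.tsum_mul_left, ← ENNReal.tsum_mul_left, ← ENNReal.tsum_mul_left, ← ENNReal.tsum_mul_left]
  refine tsum_congr fun S => ?_
  by_cases hS : S ∈ RB
  · rw [if_pos hS, if_pos ⟨hR, hS⟩]
    ring
  · rw [if_neg hS, if_neg fun h1 => hS h1.2]
    simp only [mul_zero]

/-- **the exact lattice identity, nonnegative form** -/
theorem hexL (h : HexIn N b C C' RA RB E E' F G w m κ κ' arcA arcB yA yB v s f βA βB α α') {e : K1 → ℝ} {e' : K2 → ℝ}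
    {u : A → ℝ} {t : B → ℝ} {ω : ℂ → ℝ} (me : Measurable e) (me' : Measurable e') (mu : Measurable u) (mt : Measurable t)
    (mω : Measurable ω) (myA : Measurable yA) (myB : Measurable yB) (he : ∀ x, 0 ≤ e x ∧ e x ≤ 1)
    (he' : ∀ x, 0 ≤ e' x ∧ e' x ≤ 1) (hu : ∀ x, 0 ≤ u x) (ht : ∀ x, 0 ≤ t x) (hω : ∀ x, 0 ≤ ω x)
    (hmg : Measurable (scl α s (Gm C (fun a => E a * ENNReal.ofReal (e (κ a))) v)))
    (hmh : Measurable (scl α' s (Gm C' (fun a => E' a * ENNReal.ofReal (e' (κ' a))) v)))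
    (hdj : ∀ R ∈ RA, ∀ S ∈ RB, ∀ z : ℂ, F R ≠ 0 → G S ≠ 0 → u (arcA R) ≠ 0 → t (arcB S) ≠ 0 →
      ω (((s⁻¹ : ℝ) : ℂ) * -(v * z)) ≠ 0 → gam C E z ≠ 0 → Dj R S z) :
    ∫⁻ x, ENNReal.ofReal (e x.1.1 * e' x.1.2 * (u x.2.1 * (t x.2.2.1 * ω x.2.2.2))) ∂(rhoN N b w m) =
      ∫⁻ p, ENNReal.ofReal (u p.1 * (t p.2.1 * ω p.2.2) * scl α s (Gm C (fun a => E a * ENNReal.ofReal (e (κ a))) v) p.2.2 *
        scl α' s (Gm C' (fun a => E' a * ENNReal.ofReal (e' (κ' a))) v) (p.2.2 + (yA p.1 - yB p.2.1)))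
        ∂((bW RA F βA arcA).prod ((bW RB G βB arcB).prod (lms f s 0))) := by
  rw [hex_left h me me' mu mt mω (fun x => (he x).1) (fun x => (he' x).1) hu ht,
    hex_right h mu mt mω myA myB he he' hu ht hω hmg hmh, h.nrm]
  congr 1
  refine tsum_congr fun R => tsum_congr fun S => ?_
  by_cases hc : R ∈ RA ∧ S ∈ RB
  swap
  · rw [if_neg hc, if_neg hc]
  rw [if_pos hc, if_pos hc]
  by_cases f1 : F R = 0
  · rw [f1]; ring
  by_cases f2 : G S = 0
  · rw [f2]; ring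
  by_cases f3 : u (arcA R) = 0
  · rw [f3, ENNReal.ofReal_zero]; ring
  by_cases f4 : t (arcB S) = 0
  · rw [f4, ENNReal.ofReal_zero]; ring
  congr 1
  refine tsum_congr fun z => ?_
  by_cases f5 : ω (((s⁻¹ : ℝ) : ℂ) * -(v * z)) = 0
  · rw [f5, ENNReal.ofReal_zero, mul_zero, zero_mul]
    split_ifs <;> rfl
  by_cases f6 : gam C E z = 0
  · have h1 : gam C (fun a => E a * ENNReal.ofReal (e (κ a))) z = 0 := by
      refine le_antisymm ((gm_mono (fun a => ?_) z).trans f6.le) zero_le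
      calc E a * ENNReal.ofReal (e (κ a)) ≤ E a * 1 := mul_le_mul_right (by
            rw [← ENNReal.ofReal_one]; exact ENNReal.ofReal_le_ofReal (he _).2) _
        _ = E a := mul_one _
    rw [h1, zero_mul, zero_mul]
    split_ifs <;> rfl
  rw [if_pos (hdj R hc.1 S hc.2 z f1 f2 f3 f4 f5 f6)]

/-- **the exact lattice identity** -/
theorem hexW (h : HexIn N b C C' RA RB E E' F G w m κ κ' arcA arcB yA yB v s f βA βB α α') {e : K1 → ℝ} {e' : K2 → ℝ}
    {u : A → ℝ} {t : B → ℝ} {ω : ℂ → ℝ} (me : Measurable e) (me' : Measurable e') (mu : Measurable u) (mt : Measurable t)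
    (mω : Measurable ω) (myA : Measurable yA) (myB : Measurable yB) (he : ∀ x, 0 ≤ e x ∧ e x ≤ 1)
    (he' : ∀ x, 0 ≤ e' x ∧ e' x ≤ 1) (hu : ∀ x, 0 ≤ u x) (ht : ∀ x, 0 ≤ t x) (hω : ∀ x, 0 ≤ ω x)
    (hmg : Measurable (scl α s (Gm C (fun a => E a * ENNReal.ofReal (e (κ a))) v)))
    (hmh : Measurable (scl α' s (Gm C' (fun a => E' a * ENNReal.ofReal (e' (κ' a))) v)))
    (hdj : ∀ R ∈ RA, ∀ S ∈ RB, ∀ z : ℂ, F R ≠ 0 → G S ≠ 0 → u (arcA R) ≠ 0 → t (arcB S) ≠ 0 →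
      ω (((s⁻¹ : ℝ) : ℂ) * -(v * z)) ≠ 0 → gam C E z ≠ 0 → Dj R S z) :
    ∫ x, e x.1.1 * e' x.1.2 * (u x.2.1 * (t x.2.2.1 * ω x.2.2.2)) ∂(rhoN N b w m) =
      ∫ p, u p.1 * (t p.2.1 * ω p.2.2) * scl α s (Gm C (fun a => E a * ENNReal.ofReal (e (κ a))) v) p.2.2 *
        scl α' s (Gm C' (fun a => E' a * ENNReal.ofReal (e' (κ' a))) v) (p.2.2 + (yA p.1 - yB p.2.1))
        ∂((bW RA F βA arcA).prod ((bW RB G βB arcB).prod (lms f s 0))) := by
  have hL := hexL h me me' mu mt mω myA myB he he' hu ht hω hmg hmh hdj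
  rw [integral_eq_lintegral_of_nonneg_ae, integral_eq_lintegral_of_nonneg_ae, hL]
  · exact ae_of_all _ fun p => mul_nonneg (mul_nonneg (mul_nonneg (hu _) (mul_nonneg (ht _) (hω _)))
      (mul_nonneg h.a0 ENNReal.toReal_nonneg)) (mul_nonneg h.a0' ENNReal.toReal_nonneg)
  · obtain ⟨g, hg⟩ : ∃ g, g = scl α s (Gm C (fun a => E a * ENNReal.ofReal (e (κ a))) v) := ⟨_, rfl⟩
    obtain ⟨k, hk⟩ : ∃ k, k = scl α' s (Gm C' (fun a => E' a * ENNReal.ofReal (e' (κ' a))) v) := ⟨_, rfl⟩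
    rw [← hg] at hmg
    rw [← hk] at hmh
    rw [← hg, ← hk]
    exact Measurable.aestronglyMeasurable (by fun_prop)
  · exact ae_of_all _ fun x => mul_nonneg (mul_nonneg (he _).1 (he' _).1) (mul_nonneg (hu _) (mul_nonneg (ht _) (hω _)))
  · exact Measurable.aestronglyMeasurable (by fun_prop)

/-- the weights of the connections are measurable: they are carried by the lattice -/
lemma gm_meas {C : Set (W3 × W3)} {E : W3 × W3 → ℝ≥0∞} {v : ℂ} {f : ℂ ≃ₗ[ℝ] ℂ} (hv : v ≠ 0)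
    (hΛ : ∀ z, gam C E z ≠ 0 → -(v * z) ∈ Lat f) (α s : ℝ) : Measurable (scl α s (Gm C E v)) := by
  refine scl_meas f α s fun z hz => ?_
  unfold Gm at hz
  have h1 := hΛ (-(v⁻¹ * z)) fun h0 => hz (by rw [h0, ENNReal.toReal_zero])
  rwa [mul_neg, neg_neg, mul_inv_cancel_left₀ hv] at h1

/-- the even words end in the lattice of the even displacements, so do the connections -/
lemma gam_lat {C : Set (W3 × W3)} {E : W3 × W3 → ℝ≥0∞} {v : ℂ} {f : ℂ ≃ₗ[ℝ] ℂ}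
    (hC : ∀ a ∈ C, -(v * (en a.1 - en a.2)) ∈ Lat f) (z : ℂ) (hz : gam C E z ≠ 0) : -(v * z) ∈ Lat f := by
  unfold gam at hz
  obtain ⟨a, ha⟩ : ∃ a : W3 × W3, (if a ∈ C ∧ en a.1 - en a.2 = z then wx a.1 * wx a.2 * E a else 0) ≠ 0 := by
    by_contra hc
    push Not at hc
    exact hz (ENNReal.tsum_eq_zero.2 hc)
  by_cases h : a ∈ C ∧ en a.1 - en a.2 = z
  · rw [← h.2]
    exact hC a h.1
  · exact absurd (if_neg h) ha

end main

/-! ### 5. Disjoint curves are disjoint words -/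

/-- the vertices are on the curve -/
lemma crv_vtx (w : W3) {n k : ℕ} (hk : k ≤ n) (d : ℝ) : ∃ x : unitInterval, crv w n d x = ps w k / d := by
  rcases Nat.eq_zero_or_pos n with hn | hn
  · have : k = 0 := by omega
    rw [this, ps_zero, zero_div]
    exact ⟨0, crv_zero w n d⟩
  · have hn0 : (0 : ℝ) < n := by exact_mod_cast hn
    refine ⟨⟨(k : ℝ) / n, by positivity, by rw [div_le_one hn0]; exact_mod_cast hk⟩, crv_vertex hn hk ?_⟩
    show (k : ℝ) / n * n = k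
    field_simp

/-- the curve of a word, turned by `v`, lengths divided by `s`, and its duration in the unit `T` -/
noncomputable def arW (v : ℂ) (s T : ℝ) (R : W3) : C(unitInterval, ℂ) × ℝ := (v • crv R R.length s, (R.length : ℝ) / T)

lemma arW_vtx (v : ℂ) (s T : ℝ) (R : W3) {k : ℕ} (hk : k ≤ R.length) : ∃ x : unitInterval,
    (arW v s T R).1 x = ((s⁻¹ : ℝ) : ℂ) * (v * ps R k) := by
  obtain ⟨x, hx⟩ := crv_vtx R hk s
  refine ⟨x, ?_⟩
  show v • crv R R.length s x = _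
  rw [hx, smul_eq_mul]
  push_cast
  ring

/-- minus the displacement of the curve -/
lemma arW_dsp (v : ℂ) (s T : ℝ) (R : W3) : -((arW v s T R).1 1 - (arW v s T R).1 0) = ((s⁻¹ : ℝ) : ℂ) * -(v * en R) := by
  show -(v • crv R R.length s 1 - v • crv R R.length s 0) = _
  rw [crv_one, crv_zero, smul_eq_mul, smul_eq_mul]
  unfold en
  push_cast
  ring

/-- **disjoint curves are disjoint words** -/
lemma dj_of_arW {v : ℂ} {s T : ℝ} {R S : W3} {z : ℂ}
    (h : ∀ x y : unitInterval, (arW v s T R).1 x ≠ (arW v s T S).1 y + ((s⁻¹ : ℝ) : ℂ) * -(v * z)) : Dj R S z := by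
  intro j k hj hk he
  obtain ⟨x, hx⟩ := arW_vtx v s T R hj
  obtain ⟨y, hy⟩ := arW_vtx v s T S hk
  refine h x y ?_
  rw [hx, hy, he]
  ring

/-! ### 6. Differences of the weights -/

/-- the `L1` modulus of the weights of the connections, from truncated differences -/
lemma gm_shift {C : Set (W3 × W3)} {E : W3 × W3 → ℝ≥0∞} {v : ℂ} (hv : v ≠ 0) (hf : ∀ z, gam C E z ≠ ∞) {L : ℝ≥0∞} (hL : L ≠ ∞)
    (u : ℂ) (h1 : ∑' z, (gam C E (z - v⁻¹ * u) - gam C E z) ≤ L) (h2 : ∑' z, (gam C E z - gam C E (z - v⁻¹ * u)) ≤ L) :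
    ∑' z : ℂ, |Gm C E v (z + u) - Gm C E v z| ≤ 2 * L.toReal := by
  obtain ⟨x, hx⟩ : ∃ x : ℂ → ℝ≥0∞, x = fun z => gam C E (z - v⁻¹ * u) := ⟨_, rfl⟩
  obtain ⟨y, hy⟩ : ∃ y : ℂ → ℝ≥0∞, y = fun z => gam C E z := ⟨_, rfl⟩
  have e1 : ∑' z : ℂ, |Gm C E v (z + u) - Gm C E v z| = ∑' z : ℂ, |(x z).toReal - (y z).toReal| := by
    have hinj : Function.Bijective fun z : ℂ => -(v * z) := by
      constructor
      · intro a b hab
        simp only [neg_inj] at hab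
        exact mul_left_cancel₀ hv hab
      · intro b
        refine ⟨-(v⁻¹ * b), ?_⟩
        simp only
        rw [mul_neg, neg_neg, mul_inv_cancel_left₀ hv]
    rw [← (Equiv.ofBijective _ hinj).tsum_eq]
    refine tsum_congr fun z => ?_
    show |Gm C E v (-(v * z) + u) - Gm C E v (-(v * z))| = _
    have e2 : -(v⁻¹ * (-(v * z) + u)) = z - v⁻¹ * u := by
      field_simp
      ring
    have e3 : -(v⁻¹ * -(v * z)) = z := by
      rw [mul_neg, neg_neg, inv_mul_cancel_left₀ hv]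
    unfold Gm
    rw [e2, e3, hx, hy]
  have f1 : ∀ z, x z ≠ ∞ := fun z => by rw [hx]; exact hf _
  have f2 : ∀ z, y z ≠ ∞ := fun z => by rw [hy]; exact hf _
  have e4 : ∀ z, |(x z).toReal - (y z).toReal| = (x z - y z + (y z - x z)).toReal := by
    intro z
    rcases le_total (x z) (y z) with h3 | h3
    · have h4 := ENNReal.toReal_mono (f2 z) h3
      rw [tsub_eq_zero_of_le h3, zero_add, ENNReal.toReal_sub_of_le h3 (f2 z), abs_of_nonpos (by linarith)]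
      ring
    · have h4 := ENNReal.toReal_mono (f1 z) h3
      rw [tsub_eq_zero_of_le h3, add_zero, ENNReal.toReal_sub_of_le h3 (f1 z), abs_of_nonneg (by linarith)]
  have h3 : ∑' z, (x z - y z + (y z - x z)) ≤ 2 * L := by
    rw [ENNReal.tsum_add, two_mul, hx, hy]
    exact add_le_add h1 h2
  have h4 : ∑' z, (x z - y z + (y z - x z)) ≠ ∞ := ne_top_of_le_ne_top (ENNReal.mul_ne_top (by norm_num) hL) h3
  rw [e1]
  simp_rw [e4]
  rw [← ENNReal.tsum_toReal_eq fun z => ne_top_of_le_ne_top h4 (ENNReal.le_tsum z)]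
  calc (∑' z, (x z - y z + (y z - x z))).toReal ≤ (2 * L).toReal := ENNReal.toReal_mono (ENNReal.mul_ne_top (by norm_num) hL) h3
    _ = 2 * L.toReal := by rw [ENNReal.toReal_mul, ENNReal.toReal_ofNat]

/-! ### 7. Sequences: the hypothesis `hex` of the limit theorems -/

section fam

variable {K1 K2 : Type*} [PseudoEMetricSpace K1] [MeasurableSpace K1] [BorelSpace K1] [PseudoEMetricSpace K2]
  [MeasurableSpace K2] [BorelSpace K2]

/-- the weight of the connections, scaled, with a test function of the connection -/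
noncomputable def gN {K : Type*} (C : ℕ → Set (W3 × W3)) (E : ℕ → W3 × W3 → ℝ≥0∞) (κ : ℕ → W3 × W3 → K) (α s : ℕ → ℝ) (v : ℂ)
    (e : K → ℝ) (N : ℕ) (z : ℂ) : ℝ := scl (α N) (s N) (Gm (C N) (fun a => E N a * ENNReal.ofReal (e (κ N a))) v) z

/-- **`hex`** of `l3_base`, `l3_fin` (helper15) for the words: the law `ρN` of the pieces of the closed words with two roots, the laws
`bA`, `bB` of the rests, the weights `g`, `h` of the connections at the two roots -/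
theorem hex_fam {l : Filter ℕ} {b : ℕ → ℝ} {C C' : ℕ → Set (W3 × W3)} {RA RB : ℕ → Set W3} {E E' : ℕ → W3 × W3 → ℝ≥0∞}
    {F G : ℕ → W3 → ℝ≥0∞} {w : ℕ → W3 × ℕ → ℝ≥0∞}
    {m : ℕ → W3 × ℕ → (K1 × K2) × ((C(unitInterval, ℂ) × ℝ) × ((C(unitInterval, ℂ) × ℝ) × ℂ))} {κ : ℕ → W3 × W3 → K1}
    {κ' : ℕ → W3 × W3 → K2} {v : ℂ} {s T : ℕ → ℝ} {f : ℂ ≃ₗ[ℝ] ℂ} {βA βB : ℕ → ℝ≥0∞} {α α' : ℕ → ℝ}
    {bA bB : ℕ → FiniteMeasure (C(unitInterval, ℂ) × ℝ)}
    {D : Set ((C(unitInterval, ℂ) × ℝ) × ((C(unitInterval, ℂ) × ℝ) × ℂ))}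
    (h : ∀ᶠ N in l, HexIn N (b N) (C N) (C' N) (RA N) (RB N) (E N) (E' N) (F N) (G N) (w N) (m N) (κ N) (κ' N)
      (arW v (s N) (T N)) (arW v (s N) (T N)) (fun r => -(r.1 1 - r.1 0)) (fun r => -(r.1 1 - r.1 0)) v (s N) f (βA N) (βB N)
      (α N) (α' N))
    (hΛ' : ∀ᶠ N in l, ∀ z, gam (C' N) (E' N) z ≠ 0 → -(v * z) ∈ Lat f)
    (hbA : ∀ᶠ N in l, (bA N : Measure (C(unitInterval, ℂ) × ℝ)) = bW (RA N) (F N) (βA N) (arW v (s N) (T N)))
    (hbB : ∀ᶠ N in l, (bB N : Measure (C(unitInterval, ℂ) × ℝ)) = bW (RB N) (G N) (βB N) (arW v (s N) (T N)))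
    (hD : ∀ p ∈ D, ∀ x y : unitInterval, p.1.1 x ≠ p.2.1.1 y + p.2.2)
    (e : K1 → ℝ) (e' : K2 → ℝ) (u t : C(unitInterval, ℂ) × ℝ → ℝ) (ω : ℂ → ℝ) (he : TF e) (he' : TF e') (hu : TF u) (ht : TF t)
    (hω : TF ω) (hM : Mar D u t ω) :
    Tendsto (fun N => (∫ x, e x.1.1 * e' x.1.2 * (u x.2.1 * (t x.2.2.1 * ω x.2.2.2)) ∂(rhoN N (b N) (w N) (m N))) -
        ∫ p, u p.1 * (t p.2.1 * ω p.2.2) * gN C E κ α s v e N p.2.2 *
          gN C' E' κ' α' s v e' N (p.2.2 + ((fun r : C(unitInterval, ℂ) × ℝ => -(r.1 1 - r.1 0)) p.1 -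
            (fun r : C(unitInterval, ℂ) × ℝ => -(r.1 1 - r.1 0)) p.2.1))
          ∂((bA N : Measure (C(unitInterval, ℂ) × ℝ)).prod ((bB N : Measure (C(unitInterval, ℂ) × ℝ)).prod (lms f (s N) 0))))
      l (𝓝 0) := by
  refine (tendsto_congr' ?_).2 tendsto_const_nhds
  filter_upwards [h, hΛ', hbA, hbB] with N hN hN' h1 h2
  rw [sub_eq_zero, h1, h2]
  have myc : Continuous fun r : C(unitInterval, ℂ) × ℝ => -(r.1 1 - r.1 0) := by fun_prop
  refine hexW hN he.meas he'.meas hu.meas ht.meas hω.meas myc.measurable myc.measurable he.2 he'.2 (fun x => (hu.2 x).1)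
    (fun x => (ht.2 x).1) (fun x => (hω.2 x).1) (gm_meas hN.v0 (fun z hz => hN.lat z fun h0 => hz ?_) _ _)
    (gm_meas hN.v0 (fun z hz => hN' z fun h0 => hz ?_) _ _) ?_
  · exact le_antisymm ((gm_mono (mul_e_le (fun x => (he.2 x).2)) z).trans h0.le) zero_le
  · exact le_antisymm ((gm_mono (mul_e_le (fun x => (he'.2 x).2)) z).trans h0.le) zero_le
  · intro R _ S _ z _ _ k1 k2 k3 _
    obtain ⟨δ, hδ, hM⟩ := hM
    exact dj_of_arW (hD _ (hM _ _ _ k1 k2 k3 _ (by rw [dist_self]; exact hδ)))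

end fam

end Pool.Agent.ROT.F3
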