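import Pool.Agent.ROT.F3ClsP
import Pool.Agent.ROT.F3HexW

/-!
# ROT / F3K1R (helper71): K1 of the concrete half of Core, the discrete marks of the classes of F3Cls

`Dt` : the data of a class of closed words with two roots (gates, windows, directions, additional thresholds), `Dt.Ok`;
`Dt.C`, `Dt.C'`, `Dt.A`, `Dt.B` : the pairs at the two roots, the rests; `Prm.D0`, `Prm.DR` : the data of the two lattices.
* **`uq_cls`** : `Uq`; `hy_cls` : `Hyp`; **`sp_cls`** : `SpH`, for all subclasses;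
* `InC` : the pairs (word, second root) of a class, **`inC_iff`** : the four pieces as segments; `w1` : the weight `0 / 1`;
* `Dec` : a decomposition with its gates; **`mkc D S T x i`** : the eight marks of `x = (w, m)` (all `0` outside of the class):
  `cA(p) ≤ xA(p) ≤ xA(q) ≤ cA(q) ≤ m ≤ cB(q) ≤ xB(q) ≤ xB(p) ≤ cB(p)`;
  **`mkc_eq`**, `mkc_dec` : their values; `mkc_even`, `mkc_le`, **`inC_sub`** : subclasses; `mkt` : relative times;
* **`rd_gen`**, **`rd_one`** : `Rd` of helper55 from the equation of the data (`dt`) alone; `w1_MkS`.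
-/

set_option autoImplicit false

namespace Pool.Agent.ROT.F3.CK

open MeasureTheory Finset

open scoped ENNReal Classical

open Pool.Agent.ROT.F3

/-! ### 1. The data -/

/-- **the data of a class of closed words with two roots** -/
structure Dt where
  /-- gates at the first root -/
  P : Tp
  /-- gates at the second root -/
  Q : Tp
  /-- window of the rests A -/
  V : Wn
  /-- window of the rests B -/
  V' : Wn
  /-- direction of A at the first root -/
  d : ℂ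
  /-- direction of B at the first root -/
  d' : ℂ
  /-- direction of A at the second root -/
  t : ℂ
  /-- direction of B at the second root -/
  t' : ℂ
  /-- additional threshold of A at the first root -/
  y : ℝ
  /-- additional threshold of B at the first root -/
  y' : ℝ
  /-- additional threshold of A at the second root -/
  z : ℝ
  /-- additional threshold of B at the second root -/
  z' : ℝ

/-- the inequalities of the data -/
structure Dt.Ok (D : Dt) : Prop where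
  P : D.P.Ok
  Q : D.Q.Ok
  y : 0 ≤ D.y
  y' : 0 ≤ D.y'
  z : 0 ≤ D.z
  z' : 0 ≤ D.z'
  dd : ‖D.d + D.d'‖ ≤ 1
  tt : ‖D.t + D.t'‖ ≤ 1
  d : ‖D.d‖ = 1
  d' : ‖D.d'‖ = 1
  t : ‖D.t‖ = 1
  t' : ‖D.t'‖ = 1
  V : 2 * (D.P.rad + D.Q.rad) < D.V.D0
  V' : 2 * (D.P.rad + D.Q.rad) < D.V'.D0

/-- the pairs at the first root -/
def Dt.C (D : Dt) (S T : ℝ) : Set (W3 × W3) := Pai D.d D.d' (D.P.up D.y) (D.P.up D.y') S T
/-- the pairs at the second root -/
def Dt.C' (D : Dt) (S T : ℝ) : Set (W3 × W3) := Pai D.t D.t' (D.Q.up D.z) (D.Q.up D.z') S T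
/-- the rests A -/
def Dt.A (D : Dt) (S T : ℝ) : Set W3 := Rst D.d D.t D.P D.Q D.V S T
/-- the rests B -/
def Dt.B (D : Dt) (S T : ℝ) : Set W3 := Rst D.d' D.t' D.P D.Q D.V' S T

/-- a pair at the first root with its gates `c` -/
def Dt.PC (D : Dt) (S T : ℝ) (a : W3 × W3) (k k' : ℕ) : Prop := PaiM D.d D.d' (D.P.up D.y) (D.P.up D.y') S T a k k'
/-- a pair at the second root with its gates `c` -/
def Dt.PC' (D : Dt) (S T : ℝ) (c : W3 × W3) (j j' : ℕ) : Prop := PaiM D.t D.t' (D.Q.up D.z) (D.Q.up D.z') S T c j j'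

/-! ### 2. The two lattices -/

/-- lattice 0: strands of the classes `i`, `j`, windows `W`, `W'` of the arcs -/
noncomputable def D0 (P : Prm) (i j : Fin 3) (W W' : Wn) : Dt :=
  ⟨P.p.n, P.q.n, P.wd W, P.wd W', ev i, ev j, ev (-i), ev (-j), 0, 0, 0, 0⟩

/-- rotated lattice: thresholds `f.l + y`, `f.l + y'` at the first root, `f.l + z`, `f.l + z'` at the second root -/
noncomputable def DR (P : Prm) (i j : Fin 3) (W W' : Wn) (y y' z z' : ℝ) : Dt :=
  ⟨P.p.f, P.q.f, W, W', ev i, ev j, ev (-i), ev (-j), y, y', z, z'⟩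

section lattices

variable {P : Prm} {i j : Fin 3} {W W' : Wn} {N : ℕ} {y y' z z' : ℝ}

lemma D0_C : (D0 P i j W W').C N (uT N) = P.C0p i j N := by
  show Pai (ev i) (ev j) (P.p.n.up 0) (P.p.n.up 0) N (uT N) = _
  rw [Tp.up_zero]
  rfl

lemma D0_C' : (D0 P i j W W').C' N (uT N) = P.C0q i j N := by
  show Pai (ev (-i)) (ev (-j)) (P.q.n.up 0) (P.q.n.up 0) N (uT N) = _
  rw [Tp.up_zero]
  rfl

lemma D0_A : (D0 P i j W W').A N (uT N) = P.R0 i W N := rfl

lemma D0_B : (D0 P i j W W').B N (uT N) = P.R0 j W' N := rfl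

lemma DR_C : (DR P i j W W' y y' z z').C N (uT N) = P.CRp i j y y' N := rfl

lemma DR_C' : (DR P i j W W' y y' z z').C' N (uT N) = P.CRq i j z z' N := rfl

lemma DR_A0 {j : Fin 3} {W' : Wn} : P.A0 N ⊆ (DR P 0 j P.W W' y y' z z').A N (uT N) := by
  intro R hR
  have h := hR.q
  show RsQ (ev 0) (ev (-0)) P.p.f P.q.f P.W N (uT N) R
  rwa [neg_zero]

lemma DR_Ac {W' : Wn} : P.Ac i N = (DR P i j P.Wc W' y y' z z').A N (uT N) := rfl

lemma DR_Bc {W : Wn} : P.Ac j N = (DR P i j W P.Wc y y' z z').B N (uT N) := rfl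

lemma wf_rad {E : En} {ε : ℝ} (h : E.Ok ε) : E.n.rad ≤ E.f.rad ∧ 0 < E.f.rad := by
  have h1 := h.ball
  have h2 := h.f.r2
  have h3 := h.rk
  have h4 := h.f.r
  unfold Tp.rad
  constructor <;> linarith

/-- **lattice 0: the data are fine** -/
lemma D0_ok (hP : P.Ok) (hij : i ≠ j) (hW : W = P.W ∨ W = P.Wc) (hW' : W' = P.W ∨ W' = P.Wc) : (D0 P i j W W').Ok := by
  have hp := wf_rad hP.p
  have hq := wf_rad hP.q
  have h1 := hP.far
  have h2 := hP.farc
  have key : ∀ V : Wn, V = P.W ∨ V = P.Wc → 2 * (P.p.n.rad + P.q.n.rad) < (P.wd V).D0 := by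
    intro V hV
    unfold Tp.rad at hp hq
    show 2 * (P.p.n.rad + P.q.n.rad) < V.D0 - (P.p.k + P.q.k)
    unfold Tp.rad
    rcases hV with rfl | rfl
    · linarith [hp.1, hq.1]
    · linarith [hp.1, hq.1]
  have h0 : -i ≠ -j := fun e => hij (neg_injective e)
  exact ⟨hP.p.n, hP.q.n, le_rfl, le_rfl, le_rfl, le_rfl, ev_dir hij, ev_dir h0, ev_norm _, ev_norm _, ev_norm _, ev_norm _,
    key W hW, key W' hW'⟩

/-- **rotated lattice: the data are fine** -/
lemma DR_ok (hP : P.Ok) (hij : i ≠ j) (hW : W = P.W ∨ W = P.Wc) (hW' : W' = P.W ∨ W' = P.Wc) (hy : 0 ≤ y) (hy' : 0 ≤ y')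
    (hz : 0 ≤ z) (hz' : 0 ≤ z') : (DR P i j W W' y y' z z').Ok := by
  have h1 := hP.far
  have h2 := hP.farc
  have k1 : 0 < P.p.k := by
    have := hP.p.rk
    have := hP.p.f.r2
    unfold En.k
    linarith
  have k2 : 0 < P.q.k := by
    have := hP.q.rk
    have := hP.q.f.r2
    unfold En.k
    linarith
  have key : ∀ V : Wn, V = P.W ∨ V = P.Wc → 2 * (P.p.f.rad + P.q.f.rad) < V.D0 := by
    intro V hV
    unfold Tp.rad
    rcases hV with rfl | rfl
    · linarith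
    · linarith
  have h0 : -i ≠ -j := fun e => hij (neg_injective e)
  exact ⟨hP.p.f, hP.q.f, hy, hy', hz, hz', ev_dir hij, ev_dir h0, ev_norm _, ev_norm _, ev_norm _, ev_norm _, key W hW,
    key W' hW'⟩

end lattices

/-! ### 3. The pieces are unique -/

section

variable {D : Dt} {S T : ℝ} {C C' : Set (W3 × W3)} {RA RB : Set W3}

lemma EdQ.upd {d : ℂ} {P : Tp} {R : W3} (h : EdQ d P S R) (y : ℝ) : EdQ d (P.up y) S R := ⟨h.right, h.cone⟩

/-- the rests do not see the thresholds -/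
lemma RsQ.upd {d d' : ℂ} {P Q : Tp} {W : Wn} {R : W3} (h : RsQ d d' P Q W S T R) (y z : ℝ) :
    RsQ d d' (P.up y) (Q.up z) W S T R := ⟨h.ev, h.sw, EdQ.upd h.s y, EdQ.upd h.e z, h.far, h.near, h.lo, h.hi⟩

/-- **the pieces and the gates `c` are unique** -/
theorem dec_uniq (hD : D.Ok) (hS : 0 < S) {a a' c c' : W3 × W3} {R R' U U' : W3} {k1 k1' k2 k2' j1 j1' j2 j2' : ℕ}
    (ha : D.PC S T a k1 k2) (ha' : D.PC S T a' k1' k2') (hc : D.PC' S T c j1 j2) (hc' : D.PC' S T c' j1' j2')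
    (hR : R ∈ D.A S T) (hR' : R' ∈ D.A S T) (hU : U ∈ D.B S T) (hU' : U' ∈ D.B S T)
    (hm : (a.1 ++ (R ++ c.1.reverse)).length = (a'.1 ++ (R' ++ c'.1.reverse)).length) (h : G6 a R c U = G6 a' R' c' U') :
    (a = a' ∧ R = R' ∧ c = c' ∧ U = U') ∧ (k1 = k1' ∧ k2 = k2' ∧ j1 = j1' ∧ j2 = j2') := by
  have r1 : 0 < D.P.rad := by
    have := hD.P.r
    have := hD.P.r2
    unfold Tp.rad
    linarith
  have r2 : 0 < D.Q.rad := by
    have := hD.Q.r
    have := hD.Q.r2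
    unfold Tp.rad
    linarith
  have hV := hD.V
  have hV' := hD.V'
  exact marks_cls (W := D.V) (W' := D.V') (hD.P.up hD.y) (hD.Q.up hD.z) (hD.P.up hD.y') (hD.Q.up hD.z') hS
    (by show 2 * D.P.rad < _; linarith) (by show 2 * D.Q.rad < _; linarith) (by show 2 * D.P.rad < _; linarith)
    (by show 2 * D.Q.rad < _; linarith) ha ha' hc hc' (RsQ.upd hR _ _) (RsQ.upd hR' _ _) (RsQ.upd hU _ _)
    (RsQ.upd hU' _ _) hm h

/-- **`Uq`** -/
theorem uq_cls (hD : D.Ok) (hS : 0 < S) (hC : C ⊆ D.C S T) (hC' : C' ⊆ D.C' S T) (hA : RA ⊆ D.A S T) (hB : RB ⊆ D.B S T) :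
    Uq C C' RA RB := by
  intro a ha a' ha' R hR R' hR' c hc c' hc' U hU U' hU' hm h
  obtain ⟨k1, k2, q1⟩ := hC ha
  obtain ⟨k1', k2', q1'⟩ := hC ha'
  obtain ⟨j1, j2, q2⟩ := hC' hc
  obtain ⟨j1', j2', q2'⟩ := hC' hc'
  exact (dec_uniq hD hS q1 q1' q2 q2' (hA hR) (hA hR') (hB hU) (hB hU') hm h).1

/-- **`Hyp`** -/
theorem hy_cls (hD : D.Ok) (hS : 0 < S) (hC : C ⊆ D.C S T) (hC' : C' ⊆ D.C' S T) (hA : RA ⊆ D.A S T) (hB : RB ⊆ D.B S T) :
    Hyp C C' RA RB :=
  hyp_cls hD.P hD.Q hS hD.y hD.y' hD.z hD.z' hD.dd hD.tt hD.d hD.d' hD.t hD.t' hC hC' hA hB hD.V hD.V'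

/-- the number of letters of a prefix -/
lemma pre_len {d : ℂ} {P : Tp} {p : W3} {k : ℕ} (h : PreM d P S T p k) : (p.length : ℝ) ≤ (P.la + P.lb) * T := by
  have h1 := h.la
  have h2 := h.lb
  have h3 := h.g.le
  have h4 : (p.length : ℝ) = k + ((p.drop k).length : ℝ) := by
    rw [List.length_drop]
    push_cast [Nat.cast_sub h3]
    ring
  rw [h4]
  linarith

/-- a rest is not empty -/
lemma rst_ne {d d' : ℂ} {P Q : Tp} {W : Wn} {R : W3} (h : RsQ d d' P Q W S T R) (hS : 0 < S) (hW : 0 < W.D0) : R ≠ [] := by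
  intro e
  have h1 := h.far
  rw [e] at h1
  have h2 : ‖en []‖ = 0 := by
    unfold en
    rw [List.length_nil, ps_zero, norm_zero]
  rw [h2] at h1
  have := mul_pos hW hS
  linarith

/-- bound of the number of letters of the words of the class, in the unit `T` -/
noncomputable def Dt.len (D : Dt) : ℝ := 2 * (D.P.la + D.P.lb) + D.V.t1 + 2 * (D.Q.la + D.Q.lb) + D.V'.t1

lemma rad_pos {P : Tp} (h : P.Ok) : 0 < P.rad := by
  have := h.r
  have := h.r2
  unfold Tp.rad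
  linarith

/-- **`SpH`** : the words of the class have at most `b N ^ (4 / 3)` letters -/
theorem sp_cls {N : ℕ} {b : ℝ} (hD : D.Ok) (hN : 0 < N) (hb : D.len ≤ b) (hC : C ⊆ D.C N (uT N)) (hC' : C' ⊆ D.C' N (uT N))
    (hA : RA ⊆ D.A N (uT N)) (hB : RB ⊆ D.B N (uT N)) {H : W3 × W3 → W3 → W3 × W3 → W3 → ℝ≥0∞}
    (hH : ∀ a R c U, H a R c U ≠ 0 → a ∈ C ∧ R ∈ RA ∧ c ∈ C' ∧ U ∈ RB) : SpH H N b := by
  have hS : (0 : ℝ) < N := by exact_mod_cast hN
  have r1 := rad_pos hD.P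
  have r2 := rad_pos hD.Q
  refine SpH_of (b1 := 2 * (D.P.la + D.P.lb)) (b2 := D.V.t1) (b3 := 2 * (D.Q.la + D.Q.lb)) (b4 := D.V'.t1) hb ?_
  intro a R c U h
  obtain ⟨h1, h2, h3, h4⟩ := hH a R c U h
  obtain ⟨k1, k2, q1⟩ := hC h1
  obtain ⟨j1, j2, q2⟩ := hC' h3
  have l1 := pre_len q1.p1
  have l2 := pre_len q1.p2
  have l3 := pre_len q2.p1
  have l4 := pre_len q2.p2
  have l5 : (R.length : ℝ) ≤ D.V.t1 * uT N := (hA h2).hi
  have l6 : (U.length : ℝ) ≤ D.V'.t1 * uT N := (hB h4).hi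
  refine ⟨rst_ne (hB h4) hS (by linarith [hD.V']), ?_, l5, ?_, l6⟩
  · show (a.1.length : ℝ) + a.2.length ≤ 2 * (D.P.la + D.P.lb) * uT N
    have e1 : (D.P.up D.y).la = D.P.la := rfl
    have e2 : (D.P.up D.y).lb = D.P.lb := rfl
    have e3 : (D.P.up D.y').la = D.P.la := rfl
    have e4 : (D.P.up D.y').lb = D.P.lb := rfl
    rw [e1, e2] at l1
    rw [e3, e4] at l2
    linarith
  · show (c.1.length : ℝ) + c.2.length ≤ 2 * (D.Q.la + D.Q.lb) * uT N
    have e1 : (D.Q.up D.z).la = D.Q.la := rfl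
    have e2 : (D.Q.up D.z).lb = D.Q.lb := rfl
    have e3 : (D.Q.up D.z').la = D.Q.la := rfl
    have e4 : (D.Q.up D.z').lb = D.Q.lb := rfl
    rw [e1, e2] at l3
    rw [e3, e4] at l4
    linarith

/-- **`SpH`** of products -/
theorem sp_PrH {N : ℕ} {b : ℝ} (hD : D.Ok) (hN : 0 < N) (hb : D.len ≤ b) (hC : C ⊆ D.C N (uT N)) (hC' : C' ⊆ D.C' N (uT N))
    (hA : RA ⊆ D.A N (uT N)) (hB : RB ⊆ D.B N (uT N)) (E E' : W3 × W3 → ℝ≥0∞) (F G : W3 → ℝ≥0∞) :
    SpH (PrH C C' RA RB E E' F G) N b :=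
  sp_cls hD hN hb hC hC' hA hB fun a R c U h => by
    unfold PrH at h
    by_contra h2
    exact h (if_neg h2)

end

/-! ### 4. The pairs (word, second root) of a class -/

section cls

variable {C C' : Set (W3 × W3)} {RA RB : Set W3}

/-- **the pairs (word, second root) of a class** -/
def InC (C C' : Set (W3 × W3)) (RA RB : Set W3) : Set (W3 × ℕ) := {x | ∃ a ∈ C, ∃ R ∈ RA, ∃ c ∈ C', ∃ U ∈ RB,
  G6 a R c U = x.1 ∧ a.1.length + R.length + c.1.length = x.2}

lemma len3 (a : W3 × W3) (R : W3) (c : W3 × W3) :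
    (a.1 ++ (R ++ c.1.reverse)).length = a.1.length + R.length + c.1.length := by
  simp only [List.length_append, List.length_reverse]
  ring

lemma len6 (a : W3 × W3) (R : W3) (c : W3 × W3) (U : W3) :
    (G6 a R c U).length = a.1.length + R.length + c.1.length + c.2.length + U.length + a.2.length := by
  unfold G6
  simp only [List.length_append, List.length_reverse]
  ring

lemma G6_cuts {w : W3} {k1 k2 m k3 k4 : ℕ} (h1 : k1 ≤ k2) (h2 : k2 ≤ m) (h3 : m ≤ k3) (h4 : k3 ≤ k4) :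
    G6 (seg w 0 k1, (w.drop k4).reverse) (seg w k1 k2) ((seg w k2 m).reverse, seg w m k3) (seg w k3 k4).reverse = w := by
  unfold G6
  simp only [List.reverse_reverse]
  rw [seg_append w h4, seg_append w h3, seg_append w h2, seg_append w h1, seg_append w (Nat.zero_le k1), List.drop_zero]

/-- the segments of `G6` -/
lemma G6_segs (a : W3 × W3) (R : W3) (c : W3 × W3) (U : W3) :
    seg (G6 a R c U) 0 a.1.length = a.1 ∧ seg (G6 a R c U) a.1.length (a.1.length + R.length) = R ∧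
      seg (G6 a R c U) (a.1.length + R.length) (a.1.length + R.length + c.1.length) = c.1.reverse ∧
      seg (G6 a R c U) (a.1.length + R.length + c.1.length) (a.1.length + R.length + c.1.length + c.2.length) = c.2 ∧
      seg (G6 a R c U) (a.1.length + R.length + c.1.length + c.2.length)
        (a.1.length + R.length + c.1.length + c.2.length + U.length) = U.reverse ∧
      (G6 a R c U).drop (a.1.length + R.length + c.1.length + c.2.length + U.length) = a.2.reverse := by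
  have d1 : (G6 a R c U).drop a.1.length = R ++ (c.1.reverse ++ (c.2 ++ (U.reverse ++ a.2.reverse))) := by
    unfold G6
    exact List.drop_left
  have d2 : (G6 a R c U).drop (a.1.length + R.length) = c.1.reverse ++ (c.2 ++ (U.reverse ++ a.2.reverse)) := by
    rw [← List.drop_drop, d1]
    exact List.drop_left
  have d3 : (G6 a R c U).drop (a.1.length + R.length + c.1.length) = c.2 ++ (U.reverse ++ a.2.reverse) := by
    rw [← List.drop_drop, d2]
    exact List.drop_left' List.length_reverse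
  have d4 : (G6 a R c U).drop (a.1.length + R.length + c.1.length + c.2.length) = U.reverse ++ a.2.reverse := by
    rw [← List.drop_drop, d3]
    exact List.drop_left
  have d5 : (G6 a R c U).drop (a.1.length + R.length + c.1.length + c.2.length + U.length) = a.2.reverse := by
    rw [← List.drop_drop, d4]
    exact List.drop_left' List.length_reverse
  refine ⟨?_, ?_, ?_, ?_, ?_, d5⟩
  · unfold seg
    rw [List.drop_zero, Nat.sub_zero]
    unfold G6
    exact List.take_left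
  · unfold seg
    rw [d1, Nat.add_sub_cancel_left]
    exact List.take_left
  · unfold seg
    rw [d2, Nat.add_sub_cancel_left]
    exact List.take_left' List.length_reverse
  · unfold seg
    rw [d3, Nat.add_sub_cancel_left]
    exact List.take_left
  · unfold seg
    rw [d4, Nat.add_sub_cancel_left]
    exact List.take_left' List.length_reverse

/-- **the class by the four marks `x`** -/
theorem inC_iff {x : W3 × ℕ} : x ∈ InC C C' RA RB ↔ ∃ k1 k2 k3 k4 : ℕ, k1 ≤ k2 ∧ k2 ≤ x.2 ∧ x.2 ≤ k3 ∧ k3 ≤ k4 ∧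
    k4 ≤ x.1.length ∧ (seg x.1 0 k1, (x.1.drop k4).reverse) ∈ C ∧ seg x.1 k1 k2 ∈ RA ∧
    ((seg x.1 k2 x.2).reverse, seg x.1 x.2 k3) ∈ C' ∧ (seg x.1 k3 k4).reverse ∈ RB := by
  constructor
  · rintro ⟨a, ha, R, hR, c, hc, U, hU, h1, h2⟩
    obtain ⟨s1, s2, s3, s4, s5, s6⟩ := G6_segs a R c U
    have hl := len6 a R c U
    rw [h1] at s1 s2 s3 s4 s5 s6 hl
    rw [h2] at s3 s4 s5 s6 hl
    refine ⟨a.1.length, a.1.length + R.length, x.2 + c.2.length, x.2 + c.2.length + U.length, by omega, by omega, by omega,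
      by omega, by omega, ?_, ?_, ?_, ?_⟩
    · rw [s1, s6, List.reverse_reverse]
      exact ha
    · rw [s2]
      exact hR
    · rw [s3, s4, List.reverse_reverse]
      exact hc
    · rw [s5, List.reverse_reverse]
      exact hU
  · rintro ⟨k1, k2, k3, k4, h1, h2, h3, h4, h5, ha, hR, hc, hU⟩
    refine ⟨_, ha, _, hR, _, hc, _, hU, G6_cuts h1 h2 h3 h4, ?_⟩
    simp only [List.length_reverse]
    rw [seg_len (by omega), seg_len (by omega), seg_len (by omega)]
    omega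

lemma InC.mono {D D' : Set (W3 × W3)} {RC RD : Set W3} (h1 : C ⊆ D) (h2 : C' ⊆ D') (h3 : RA ⊆ RC) (h4 : RB ⊆ RD) :
    InC C C' RA RB ⊆ InC D D' RC RD := by
  rintro x ⟨a, ha, R, hR, c, hc, U, hU, h⟩
  exact ⟨a, h1 ha, R, h3 hR, c, h2 hc, U, h4 hU, h⟩

/-- **the weight of a class** -/
noncomputable def w1 (C C' : Set (W3 × W3)) (RA RB : Set W3) (x : W3 × ℕ) : ℝ≥0∞ := if x ∈ InC C C' RA RB then 1 else 0

lemma w1_le (x : W3 × ℕ) : w1 C C' RA RB x ≤ 1 := by
  unfold w1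
  split_ifs
  · exact le_rfl
  · exact zero_le

lemma w1_one {x : W3 × ℕ} (h : x ∈ InC C C' RA RB) : w1 C C' RA RB x = 1 := if_pos h

lemma w1_ne {x : W3 × ℕ} : w1 C C' RA RB x ≠ 0 ↔ x ∈ InC C C' RA RB := by
  unfold w1
  by_cases h : x ∈ InC C C' RA RB
  · rw [if_pos h]
    exact ⟨fun _ => h, fun _ => one_ne_zero⟩
  · rw [if_neg h]
    exact ⟨fun h1 => absurd rfl h1, fun h1 => absurd h1 h⟩

/-- the weight with weights of the connections and of the rests -/
noncomputable def wE (C C' : Set (W3 × W3)) (RA RB : Set W3) (E E' : W3 × W3 → ℝ≥0∞) (F G : W3 → ℝ≥0∞) (x : W3 × ℕ) :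
    ℝ≥0∞ := MkS (PrH C C' RA RB E E' F G) x.1 x.2

/-- the value of the weight at the words of the class -/
lemma wE_eq (hU : Uq C C' RA RB) (E E' : W3 × W3 → ℝ≥0∞) (F G : W3 → ℝ≥0∞) {a : W3 × W3} {R : W3} {c : W3 × W3} {U : W3}
    (ha : a ∈ C) (hR : R ∈ RA) (hc : c ∈ C') (hS : U ∈ RB) :
    wE C C' RA RB E E' F G (G6 a R c U, a.1.length + R.length + c.1.length) = E a * E' c * (F R * G U) := by
  unfold wE
  rw [MkS_uniq hU (fun a R c S h => by
    unfold PrH at h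
    by_contra h2
    exact h (if_neg h2)) ha hR hc hS]
  unfold PrH
  rw [if_pos ⟨ha, hR, hc, hS⟩]

/-- the weight is carried by the class -/
lemma wE_ne {E E' : W3 × W3 → ℝ≥0∞} {F G : W3 → ℝ≥0∞} {x : W3 × ℕ} (h : wE C C' RA RB E E' F G x ≠ 0) :
    x ∈ InC C C' RA RB := by
  obtain ⟨a, R, c, S, g1, g2, g3⟩ := MkS_ne h
  have hm : a ∈ C ∧ R ∈ RA ∧ c ∈ C' ∧ S ∈ RB := by
    unfold PrH at g3
    by_contra h2
    exact g3 (if_neg h2)
  exact ⟨a, hm.1, R, hm.2.1, c, hm.2.2.1, S, hm.2.2.2, g1, by rw [← len3]; exact g2⟩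

/-- **the weight `0 / 1` is a sum over the marks** -/
theorem w1_MkS (hU : Uq C C' RA RB) (x : W3 × ℕ) :
    w1 C C' RA RB x = wE C C' RA RB (fun _ => 1) (fun _ => 1) (fun _ => 1) (fun _ => 1) x := by
  by_cases h : x ∈ InC C C' RA RB
  · rw [w1_one h]
    obtain ⟨a, ha, R, hR, c, hc, U, hS, h1, h2⟩ := h
    have h3 := wE_eq hU (fun _ => 1) (fun _ => 1) (fun _ => 1) (fun _ => 1) ha hR hc hS
    rw [h1, h2] at h3
    show 1 = wE C C' RA RB (fun _ => 1) (fun _ => 1) (fun _ => 1) (fun _ => 1) (x.1, x.2)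
    rw [h3]
    simp
  · have h2 : w1 C C' RA RB x = 0 := if_neg h
    rw [h2]
    by_contra h3
    exact h (wE_ne fun h4 => h3 h4.symm)

/-- **`Rd`** (helper55) from the equation of the data -/
theorem rd_gen {X : Type*} [MeasurableSpace X] (hU : Uq C C' RA RB) {E E' : W3 × W3 → ℝ≥0∞} {F G : W3 → ℝ≥0∞}
    {m : W3 × ℕ → X} {M : W3 × W3 → W3 → W3 × W3 → W3 → X}
    (h : ∀ a ∈ C, ∀ R ∈ RA, ∀ c ∈ C', ∀ U ∈ RB, Cl (G6 a R c U) →
      m (G6 a R c U, a.1.length + R.length + c.1.length) = M a R c U) :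
    Rd C C' RA RB (wE C C' RA RB E E' F G) m (fun a R c U => E a * E' c * (F R * G U)) M where
  uq := hU
  wt := fun a ha R hR c hc U hS _ => wE_eq hU E E' F G ha hR hc hS
  dt := fun a ha R hR c hc U hS hcl _ => h a ha R hR c hc U hS hcl
  out := fun x _ hx => by
    obtain ⟨a, ha, R, hR, c, hc, U, hS, h1, h2⟩ := wE_ne hx
    exact ⟨a, ha, R, hR, c, hc, U, hS, h1, h2⟩

/-- **`Rd`** for the weight `0 / 1` -/
theorem rd_one {X : Type*} [MeasurableSpace X] (hU : Uq C C' RA RB) {m : W3 × ℕ → X}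
    {M : W3 × W3 → W3 → W3 × W3 → W3 → X}
    (h : ∀ a ∈ C, ∀ R ∈ RA, ∀ c ∈ C', ∀ U ∈ RB, Cl (G6 a R c U) →
      m (G6 a R c U, a.1.length + R.length + c.1.length) = M a R c U) :
    Rd C C' RA RB (w1 C C' RA RB) m (fun _ _ _ _ => 1 * 1 * (1 * 1)) M := by
  have h1 : w1 C C' RA RB = wE C C' RA RB (fun _ => 1) (fun _ => 1) (fun _ => 1) (fun _ => 1) :=
    funext fun x => w1_MkS hU x
  rw [h1]
  exact rd_gen hU h

end cls

/-! ### 5. The eight marks -/

section marks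

variable {D : Dt} {S T : ℝ}

/-- a decomposition of `x = (word, second root)` with its gates `c` -/
structure Dec (D : Dt) (S T : ℝ) (x : W3 × ℕ) (a : W3 × W3) (R : W3) (c : W3 × W3) (U : W3) (k1 k2 j1 j2 : ℕ) : Prop where
  ga : D.PC S T a k1 k2
  gR : R ∈ D.A S T
  gc : D.PC' S T c j1 j2
  gU : U ∈ D.B S T
  w : G6 a R c U = x.1
  m : a.1.length + R.length + c.1.length = x.2

/-- the eight marks of a decomposition, in the order of the word -/
def mk8 (a : W3 × W3) (R : W3) (c : W3 × W3) (U : W3) (k1 k2 j1 j2 : ℕ) (i : Fin 8) : ℕ :=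
  ![k1, a.1.length, a.1.length + R.length, a.1.length + R.length + c.1.length - j1, a.1.length + R.length + c.1.length + j2,
    a.1.length + R.length + c.1.length + c.2.length, a.1.length + R.length + c.1.length + c.2.length + U.length,
    a.1.length + R.length + c.1.length + c.2.length + U.length + a.2.length - k2] i

/-- **the eight marks** `cA(p), xA(p), xA(q), cA(q), cB(q), xB(q), xB(p), cB(p)` of a word of the class (`0` for other words) -/
noncomputable def mkc (D : Dt) (S T : ℝ) (x : W3 × ℕ) (i : Fin 8) : ℕ :=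
  if h : ∃ v : Fin 8 → ℕ, ∃ a R c U k1 k2 j1 j2, Dec D S T x a R c U k1 k2 j1 j2 ∧ v = mk8 a R c U k1 k2 j1 j2 then
    h.choose i else 0

/-- **the values of the marks** -/
theorem mkc_dec (hD : D.Ok) (hS : 0 < S) {x : W3 × ℕ} {a : W3 × W3} {R : W3} {c : W3 × W3} {U : W3} {k1 k2 j1 j2 : ℕ}
    (h : Dec D S T x a R c U k1 k2 j1 j2) (i : Fin 8) : mkc D S T x i = mk8 a R c U k1 k2 j1 j2 i := by
  have h0 : ∃ v : Fin 8 → ℕ, ∃ a R c U k1 k2 j1 j2, Dec D S T x a R c U k1 k2 j1 j2 ∧ v = mk8 a R c U k1 k2 j1 j2 :=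
    ⟨_, a, R, c, U, k1, k2, j1, j2, h, rfl⟩
  unfold mkc
  rw [dif_pos h0]
  obtain ⟨a', R', c', U', k1', k2', j1', j2', h', hv⟩ := h0.choose_spec
  obtain ⟨⟨e1, e2, e3, e4⟩, e5, e6, e7, e8⟩ := dec_uniq hD hS h.ga h'.ga h.gc h'.gc h.gR h'.gR h.gU h'.gU
    (by rw [len3, len3, h.m, h'.m]) (h.w.trans h'.w.symm)
  rw [hv, e1, e2, e3, e4, e5, e6, e7, e8]

/-- **the values of the marks at the words of the class** -/
theorem mkc_eq (hD : D.Ok) (hS : 0 < S) {a : W3 × W3} {R : W3} {c : W3 × W3} {U : W3} {k1 k2 j1 j2 : ℕ}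
    (ha : D.PC S T a k1 k2) (hR : R ∈ D.A S T) (hc : D.PC' S T c j1 j2) (hU : U ∈ D.B S T) (i : Fin 8) :
    mkc D S T (G6 a R c U, a.1.length + R.length + c.1.length) i = mk8 a R c U k1 k2 j1 j2 i :=
  mkc_dec hD hS ⟨ha, hR, hc, hU, rfl, rfl⟩ i

lemma mkc_out {x : W3 × ℕ} (h : x ∉ InC (D.C S T) (D.C' S T) (D.A S T) (D.B S T)) (i : Fin 8) : mkc D S T x i = 0 := by
  unfold mkc
  refine dif_neg ?_
  rintro ⟨v, a, R, c, U, k1, k2, j1, j2, h1, -⟩
  exact h ⟨a, ⟨k1, k2, h1.ga⟩, R, h1.gR, c, ⟨j1, j2, h1.gc⟩, U, h1.gU, h1.w, h1.m⟩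

/-- every word of the class has a decomposition -/
lemma dec_of {x : W3 × ℕ} (h : x ∈ InC (D.C S T) (D.C' S T) (D.A S T) (D.B S T)) :
    ∃ a R c U k1 k2 j1 j2, Dec D S T x a R c U k1 k2 j1 j2 := by
  obtain ⟨a, ⟨k1, k2, ha⟩, R, hR, c, ⟨j1, j2, hc⟩, U, hU, h1, h2⟩ := h
  exact ⟨a, R, c, U, k1, k2, j1, j2, ha, hR, hc, hU, h1, h2⟩

section dec

variable {x : W3 × ℕ} {a : W3 × W3} {R : W3} {c : W3 × W3} {U : W3} {k1 k2 j1 j2 : ℕ}

lemma Dec.inC (h : Dec D S T x a R c U k1 k2 j1 j2) : x ∈ InC (D.C S T) (D.C' S T) (D.A S T) (D.B S T) :=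
  ⟨a, ⟨k1, k2, h.ga⟩, R, h.gR, c, ⟨j1, j2, h.gc⟩, U, h.gU, h.w, h.m⟩

/-- the gates `c` and the pieces are even -/
lemma Dec.even (h : Dec D S T x a R c U k1 k2 j1 j2) : (Even k1 ∧ k1 ≤ a.1.length ∧ Even a.1.length) ∧
    (Even k2 ∧ k2 ≤ a.2.length ∧ Even a.2.length) ∧ (Even j1 ∧ j1 ≤ c.1.length ∧ Even c.1.length) ∧
    (Even j2 ∧ j2 ≤ c.2.length ∧ Even c.2.length) ∧ Even R.length ∧ Even U.length := by
  have key : ∀ {d : ℂ} {P : Tp} {p : W3} {k : ℕ}, PreM d P S T p k → Even k ∧ k ≤ p.length ∧ Even p.length := by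
    intro d P p k hp
    have h1 := hp.g.a.ev
    have h2 := hp.g.le
    rw [List.length_take, min_eq_left h2] at h1
    exact ⟨h1, h2, hp.tip.ev⟩
  exact ⟨key h.ga.p1, key h.ga.p2, key h.gc.p1, key h.gc.p2, h.gR.ev, h.gU.ev⟩

/-- the number of letters -/
lemma Dec.len (h : Dec D S T x a R c U k1 k2 j1 j2) : x.1.length = x.2 + c.2.length + U.length + a.2.length := by
  rw [← h.w, ← h.m, len6]

/-- the pieces are the segments between the marks -/
lemma Dec.segs (h : Dec D S T x a R c U k1 k2 j1 j2) :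
    a = (seg x.1 0 a.1.length, (x.1.drop (x.2 + c.2.length + U.length)).reverse) ∧
    R = seg x.1 a.1.length (a.1.length + R.length) ∧
    c = ((seg x.1 (a.1.length + R.length) x.2).reverse, seg x.1 x.2 (x.2 + c.2.length)) ∧
    U = (seg x.1 (x.2 + c.2.length) (x.2 + c.2.length + U.length)).reverse := by
  obtain ⟨s1, s2, s3, s4, s5, s6⟩ := G6_segs a R c U
  rw [h.w] at s1 s2 s3 s4 s5 s6
  rw [h.m] at s3 s4 s5 s6
  rw [s1, s2, s3, s4, s5, s6, List.reverse_reverse, List.reverse_reverse, List.reverse_reverse]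
  exact ⟨rfl, rfl, rfl, rfl⟩

end dec

/-- **the marks are in order** -/
theorem mkc_le (hD : D.Ok) (hS : 0 < S) {x : W3 × ℕ} (hx : x ∈ InC (D.C S T) (D.C' S T) (D.A S T) (D.B S T)) :
    mkc D S T x 0 ≤ mkc D S T x 1 ∧ mkc D S T x 1 ≤ mkc D S T x 2 ∧ mkc D S T x 2 ≤ mkc D S T x 3 ∧
    mkc D S T x 3 ≤ x.2 ∧ x.2 ≤ mkc D S T x 4 ∧ mkc D S T x 4 ≤ mkc D S T x 5 ∧ mkc D S T x 5 ≤ mkc D S T x 6 ∧
    mkc D S T x 6 ≤ mkc D S T x 7 ∧ mkc D S T x 7 ≤ x.1.length := by
  obtain ⟨a, R, c, U, k1, k2, j1, j2, h⟩ := dec_of hx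
  obtain ⟨h1, h2, h3, h4, h5, h6⟩ := h.even
  have hl := h.len
  have hm := h.m
  rw [mkc_dec hD hS h, mkc_dec hD hS h, mkc_dec hD hS h, mkc_dec hD hS h, mkc_dec hD hS h, mkc_dec hD hS h, mkc_dec hD hS h,
    mkc_dec hD hS h]
  show k1 ≤ a.1.length ∧ a.1.length ≤ a.1.length + R.length ∧
    a.1.length + R.length ≤ a.1.length + R.length + c.1.length - j1 ∧ a.1.length + R.length + c.1.length - j1 ≤ x.2 ∧
    x.2 ≤ a.1.length + R.length + c.1.length + j2 ∧
    a.1.length + R.length + c.1.length + j2 ≤ a.1.length + R.length + c.1.length + c.2.length ∧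
    a.1.length + R.length + c.1.length + c.2.length ≤ a.1.length + R.length + c.1.length + c.2.length + U.length ∧
    a.1.length + R.length + c.1.length + c.2.length + U.length ≤
      a.1.length + R.length + c.1.length + c.2.length + U.length + a.2.length - k2 ∧
    a.1.length + R.length + c.1.length + c.2.length + U.length + a.2.length - k2 ≤ x.1.length
  omega

lemma mkc_le_len (hD : D.Ok) (hS : 0 < S) (x : W3 × ℕ) (i : Fin 8) : mkc D S T x i ≤ x.1.length := by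
  by_cases hx : x ∈ InC (D.C S T) (D.C' S T) (D.A S T) (D.B S T)
  swap
  · rw [mkc_out hx]
    exact Nat.zero_le _
  obtain ⟨h0, h1, h2, h3, h4, h5, h6, h7, h8⟩ := mkc_le hD hS hx
  fin_cases i
  all_goals (simp only [Fin.zero_eta, Fin.mk_one, Fin.reduceFinMk]; omega)

/-- **the marks are even** -/
theorem mkc_even (hD : D.Ok) (hS : 0 < S) (x : W3 × ℕ) (i : Fin 8) : Even (mkc D S T x i) := by
  by_cases hx : x ∈ InC (D.C S T) (D.C' S T) (D.A S T) (D.B S T)
  swap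
  · rw [mkc_out hx]
    exact Even.zero
  obtain ⟨a, R, c, U, k1, k2, j1, j2, h⟩ := dec_of hx
  obtain ⟨⟨a1, a2, a3⟩, ⟨b1, b2, b3⟩, ⟨c1, c2, c3⟩, ⟨d1, d2, d3⟩, e1, e2⟩ := h.even
  rw [mkc_dec hD hS h]
  have s1 : Even (a.1.length + R.length) := a3.add e1
  have s2 : Even (a.1.length + R.length + c.1.length) := s1.add c3
  have s3 : Even (a.1.length + R.length + c.1.length + c.2.length) := s2.add d3
  have s4 : Even (a.1.length + R.length + c.1.length + c.2.length + U.length) := s3.add e2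
  have s5 : Even (a.1.length + R.length + c.1.length + c.2.length + U.length + a.2.length) := s4.add b3
  fin_cases i
  · exact a1
  · exact a3
  · exact s1
  · exact s2.tsub c1
  · exact s2.add d1
  · exact s3
  · exact s4
  · exact s5.tsub b1

/-- the second root is even -/
lemma inC_even {x : W3 × ℕ} (hx : x ∈ InC (D.C S T) (D.C' S T) (D.A S T) (D.B S T)) : Even x.2 ∧ Even x.1.length := by
  obtain ⟨a, R, c, U, k1, k2, j1, j2, h⟩ := dec_of hx
  obtain ⟨⟨a1, a2, a3⟩, ⟨b1, b2, b3⟩, ⟨c1, c2, c3⟩, ⟨d1, d2, d3⟩, e1, e2⟩ := h.even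
  have hm : Even x.2 := by
    rw [← h.m]
    exact (a3.add e1).add c3
  refine ⟨hm, ?_⟩
  rw [h.len]
  exact ((hm.add d3).add e2).add b3

/-- **a subclass**: the pieces between the marks are in the subclasses -/
theorem inC_sub (hD : D.Ok) (hS : 0 < S) {C C' : Set (W3 × W3)} {RA RB : Set W3} (hC : C ⊆ D.C S T) (hC' : C' ⊆ D.C' S T)
    (hA : RA ⊆ D.A S T) (hB : RB ⊆ D.B S T) {x : W3 × ℕ} : x ∈ InC C C' RA RB ↔
      x ∈ InC (D.C S T) (D.C' S T) (D.A S T) (D.B S T) ∧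
      (seg x.1 0 (mkc D S T x 1), (x.1.drop (mkc D S T x 6)).reverse) ∈ C ∧
      seg x.1 (mkc D S T x 1) (mkc D S T x 2) ∈ RA ∧
      ((seg x.1 (mkc D S T x 2) x.2).reverse, seg x.1 x.2 (mkc D S T x 5)) ∈ C' ∧
      (seg x.1 (mkc D S T x 5) (mkc D S T x 6)).reverse ∈ RB := by
  constructor
  · rintro ⟨a, ha, R, hR, c, hc, U, hU, h1, h2⟩
    obtain ⟨k1, k2, qa⟩ := hC ha
    obtain ⟨j1, j2, qc⟩ := hC' hc
    have h : Dec D S T x a R c U k1 k2 j1 j2 := ⟨qa, hA hR, qc, hB hU, h1, h2⟩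
    refine ⟨h.inC, ?_⟩
    rw [mkc_dec hD hS h, mkc_dec hD hS h, mkc_dec hD hS h, mkc_dec hD hS h]
    show (seg x.1 0 a.1.length, (x.1.drop (a.1.length + R.length + c.1.length + c.2.length + U.length)).reverse) ∈ C ∧
      seg x.1 a.1.length (a.1.length + R.length) ∈ RA ∧
      ((seg x.1 (a.1.length + R.length) x.2).reverse, seg x.1 x.2 (a.1.length + R.length + c.1.length + c.2.length)) ∈ C' ∧
      (seg x.1 (a.1.length + R.length + c.1.length + c.2.length)
        (a.1.length + R.length + c.1.length + c.2.length + U.length)).reverse ∈ RB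
    rw [h.m]
    obtain ⟨s1, s2, s3, s4⟩ := h.segs
    rw [← s1, ← s2, ← s3, ← s4]
    exact ⟨ha, hR, hc, hU⟩
  · rintro ⟨hx, ha, hR, hc, hU⟩
    obtain ⟨h0, h1, h2, h3, h4, h5, h6, h7, h8⟩ := mkc_le hD hS hx
    exact inC_iff.2 ⟨mkc D S T x 1, mkc D S T x 2, mkc D S T x 5, mkc D S T x 6, h1, by omega, by omega, h6, by omega, ha, hR,
      hc, hU⟩

/-! ### 6. The marks as relative times -/

/-- **the marks as relative times** -/
noncomputable def mkt (D : Dt) (S T : ℝ) (x : W3 × ℕ) (i : Fin 8) : ℝ := (mkc D S T x i : ℝ) / x.1.length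

lemma mkt_mem (hD : D.Ok) (hS : 0 < S) (x : W3 × ℕ) (i : Fin 8) : mkt D S T x i ∈ Set.Icc (0 : ℝ) 1 := by
  unfold mkt
  constructor
  · positivity
  · rcases Nat.eq_zero_or_pos x.1.length with h | h
    · rw [h, Nat.cast_zero, div_zero]
      exact zero_le_one
    · rw [div_le_one (by exact_mod_cast h)]
      exact_mod_cast mkc_le_len hD hS x i

end marks

end Pool.Agent.ROT.F3.CK
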