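import Pool.Agent.ROT.F3SysL

/-!
# ROT, block F3, row R5 (helper58): the limits of the closed words with two roots are rotation invariant

* `ext_lip` : finite measures with the same integrals of the Lipschitz functions; `mw_diam` : small diameters;
* `rotX z` : the rotation of the curve; **`mw_rot`** : `P.map (rotX z) = P`.
-/

set_option autoImplicit false

open MeasureTheory Filter Topology Set

open scoped Classical NNReal ENNReal BoundedContinuousFunction

namespace Pool.Agent.ROT.F3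

open Pool.Agent.NTS.Res Pool.Agent.PMA Pool.Agent.PMA.Res Pool.Agent.ROT.F

/-- **the Lipschitz functions determine a finite measure** -/
theorem ext_lip {E : Type*} [NormedAddCommGroup E] [NormedSpace ℝ E] [MeasurableSpace E] [BorelSpace E] [SecondCountableTopology E]
    {P Q : Measure E} [IsFiniteMeasure P] [IsFiniteMeasure Q]
    (h : ∀ f : E → ℝ, (∀ x, 0 ≤ f x ∧ f x ≤ 1) → (∃ L, LipschitzWith L f) → ∫ z, f z ∂P = ∫ z, f z ∂Q) : P = Q := by
  have hm : P univ = Q univ := by
    have h1 := h (fun _ => 1) (fun _ => ⟨zero_le_one, le_rfl⟩) ⟨0, LipschitzWith.const 1⟩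
    rw [integral_const, integral_const, smul_eq_mul, smul_eq_mul, mul_one, mul_one] at h1
    rw [← ofReal_measureReal (μ := P), ← ofReal_measureReal (μ := Q), h1]
  by_cases h0 : P univ = 0
  · have h0' : Q univ = 0 := by rw [← hm, h0]
    rw [Measure.measure_univ_eq_zero.1 h0, Measure.measure_univ_eq_zero.1 h0']
  · obtain ⟨c, hc⟩ : ∃ c : ℝ≥0∞, c = (P univ)⁻¹ := ⟨_, rfl⟩
    have hc1 : c * P univ = 1 := by
      rw [hc]
      exact ENNReal.inv_mul_cancel h0 (measure_ne_top _ _)
    have hP : IsProbabilityMeasure (c • P) := ⟨by rw [Measure.smul_apply, smul_eq_mul, hc1]⟩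
    have hQ : IsProbabilityMeasure (c • Q) := ⟨by rw [Measure.smul_apply, smul_eq_mul, ← hm, hc1]⟩
    have h1 : (⟨c • P, hP⟩ : ProbabilityMeasure E) = ⟨c • Q, hQ⟩ := by
      refine NTSF.eq_of_lip fun f h1 h2 => ?_
      show ∫ z, f z ∂(c • P) = ∫ z, f z ∂(c • Q)
      rw [integral_smul_measure, integral_smul_measure, h f h1 h2]
    have h2 : c • P = c • Q := congrArg Subtype.val h1
    have hcP : P univ * c = 1 := by rw [mul_comm, hc1]
    calc P = (P univ * c) • P := by rw [hcP, one_smul]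
      _ = P univ • (c • Q) := by rw [← smul_smul, h2]
      _ = Q := by rw [smul_smul, hcP, one_smul]

/-- **small diameters** -/
theorem mw_diam (hQ : QB) (hL : LDp) {b ε : ℝ} (hb : 0 ≤ b) (hε : 0 < ε) : ∃ r : ℝ, 0 < r ∧ ∃ N0 : ℕ, ∀ N : ℕ, N0 ≤ N →
    (mw N b).real {x | dm (crv x.1 x.1.length N) ≤ r} ≤ ε := by
  obtain ⟨δ, K0, ε', hδ, hK0, hε', h⟩ := mw_sum hQ hb hε
  obtain ⟨c1, C1, hc1, -, hsz⟩ := F.size_bd
  obtain ⟨ρ, n0, hρ, hLn⟩ := hL ε' (1 / 4) hε' (by norm_num)
  obtain ⟨N0, hN0⟩ := h (max n0 1)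
  obtain ⟨r, hr⟩ : ∃ r : ℝ, r = c1 * ρ / (4 * K0) := ⟨_, rfl⟩
  have hr0 : 0 < r := by
    rw [hr]
    positivity
  have hrK : K0 / c1 * r = ρ / 4 := by
    rw [hr]
    field_simp
  obtain ⟨N1, hN1⟩ := exists_nat_gt (10 / r)
  refine ⟨r, hr0, max N0 (max N1 1), fun N hN => ?_⟩
  have hNN := (le_max_left _ _).trans hN
  have hNN1 := ((le_max_left _ _).trans (le_max_right _ _)).trans hN
  have hNN2 := ((le_max_right _ _).trans (le_max_right _ _)).trans hN
  have hNp : (0 : ℝ) < N := by exact_mod_cast hNN2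
  have h10 : 10 / (N : ℝ) ≤ r := by
    rw [div_le_iff₀ hNp]
    rw [div_lt_iff₀ hr0] at hN1
    have : (N1 : ℝ) ≤ N := by exact_mod_cast hNN1
    nlinarith
  rw [mw_real]
  refine hN0 N hNN _ (fun x => ?_) ?_
  · split_ifs <;> norm_num
  · intro n hn ho h1 h2 m _ _
    have hn1 : 1 ≤ n := (le_max_right _ _).trans hn
    have hsn := NTSF.size_pos hn1
    have h3 := hLn n ((le_max_left _ _).trans hn) ho
    rw [LT.plaw_apply] at h3
    obtain ⟨S, hS⟩ : ∃ S : Set C(unitInterval, ℂ), S = {γ : C(unitInterval, ℂ) | ∃ p q : unitInterval,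
        (p : ℝ) + 1 / 4 ≤ q ∧ (q : ℝ) + 1 / 4 ≤ p + 1 ∧ dist (γ q) (γ p) < ρ} := ⟨_, rfl⟩
    rw [← hS] at h3
    have h4 := (ENNReal.ofReal_le_ofReal_iff hε'.le).1 h3
    unfold pmean at h4
    have hNs : (N : ℝ) ≤ K0 / c1 * size n := by
      rw [div_mul_eq_mul_div, le_div_iff₀ hc1]
      have h5 := (hsz n hn1).1
      nlinarith
    have h5 : ∑ s ∈ pol n, (if (clw s, m) ∈ {x : W3 × ℕ | dm (crv x.1 x.1.length N) ≤ r} then (1 : ℝ) else 0) ≤
        ∑ s ∈ pol n, (fun γ => if γ ∈ S then (1 : ℝ) else 0) (curve s) := by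
      refine Finset.sum_le_sum fun s _ => ?_
      have h9 : (0 : ℝ) ≤ (fun γ => if γ ∈ S then (1 : ℝ) else 0) (curve s) := by
        beta_reduce
        split_ifs <;> norm_num
      by_cases h6 : (clw s, m) ∈ {x : W3 × ℕ | dm (crv x.1 x.1.length N) ≤ r}
      · rw [if_pos h6]
        have h7 : curve s ∈ S := by
          rw [hS]
          refine ⟨0, ⟨1 / 2, by norm_num, by norm_num⟩, by norm_num, by norm_num, ?_⟩
          have h8 : dm (crv (clw s) (clw s).length N) ≤ r := h6
          rw [length_clw] at h8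
          have d1 := dm_le_add (crv (clw s) n N) (crv (clw s) (n + 1) N)
          have d2 := crv_dist (w := clw s) (N := N) hn1
          have d3 := dist_le_dm (crv (clw s) n N) ⟨1 / 2, by norm_num, by norm_num⟩ 0
          rw [← sN_curve hn1] at d1 d2 d3
          have d4 : dist ((sN N n (curve s)) ⟨1 / 2, by norm_num, by norm_num⟩) ((sN N n (curve s)) 0) =
              size n / N * dist (curve s ⟨1 / 2, by norm_num, by norm_num⟩) (curve s 0) := by
            unfold sN
            rw [ContinuousMap.smul_apply, ContinuousMap.smul_apply, dist_smul₀, Real.norm_of_nonneg (by positivity)]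
          rw [d4] at d3
          have d5 : size n / N * dist (curve s ⟨1 / 2, by norm_num, by norm_num⟩) (curve s 0) ≤ 2 * r := by
            have : 2 * (5 / (N : ℝ)) = 10 / N := by ring
            linarith
          rw [div_mul_eq_mul_div, div_le_iff₀ hNp] at d5
          have d6 : dist (curve s ⟨1 / 2, by norm_num, by norm_num⟩) (curve s 0) * size n ≤ ρ / 2 * size n := by
            calc _ = size n * dist (curve s ⟨1 / 2, by norm_num, by norm_num⟩) (curve s 0) := mul_comm _ _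
              _ ≤ 2 * r * N := d5
              _ ≤ 2 * r * (K0 / c1 * size n) := mul_le_mul_of_nonneg_left hNs (by positivity)
              _ = 2 * (K0 / c1 * r) * size n := by ring
              _ = ρ / 2 * size n := by
                  rw [hrK]
                  ring
          have d7 := le_of_mul_le_mul_right d6 hsn
          linarith
        beta_reduce
        rw [if_pos h7]
      · rw [if_neg h6]
        exact h9
    refine h5.trans ?_
    rcases (Nat.cast_nonneg (α := ℝ) (pol n).card).lt_or_eq with h6 | h6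
    · exact (div_le_iff₀ h6).1 h4
    · have h7 : (pol n).card = 0 := by exact_mod_cast h6.symm
      rw [Finset.card_eq_zero.1 h7]
      simp

/-- the rotation of the curve -/
noncomputable def rotX (z : ℂ) (y : ℝ × ℝ × C(unitInterval, ℂ)) : ℝ × ℝ × C(unitInterval, ℂ) := (y.1, y.2.1, z • y.2.2)

lemma rotX_cont (z : ℂ) : Continuous (rotX z) := by
  unfold rotX
  fun_prop

lemma dist_rot {z : ℂ} (hz : ‖z‖ = 1) (γ γ' : C(unitInterval, ℂ)) : dist (z • γ) (z • γ') = dist γ γ' := by
  rw [ContinuousMap.dist_eq_iSup, ContinuousMap.dist_eq_iSup]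
  congr 1
  funext x
  rw [ContinuousMap.smul_apply, ContinuousMap.smul_apply, dist_smul₀, hz, one_mul]

lemma dist_rotX {z : ℂ} (hz : ‖z‖ = 1) (y y' : ℝ × ℝ × C(unitInterval, ℂ)) : dist (rotX z y) (rotX z y') = dist y y' := by
  unfold rotX
  rw [Prod.dist_eq, Prod.dist_eq, Prod.dist_eq, Prod.dist_eq, dist_rot hz]

/-- **the limits are rotation invariant** -/
theorem mw_rot (hR : RotP) (hF : Fast) (hQ : QB) (hL : LDp) {b : ℝ} (hb : 0 ≤ b) {U : Ultrafilter ℕ} (hU : (U : Filter ℕ) ≤ atTop)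
    {P : Measure (ℝ × ℝ × C(unitInterval, ℂ))} [IsFiniteMeasure P] (hP : ∀ G : (ℝ × ℝ × C(unitInterval, ℂ)) →ᵇ ℝ,
      Tendsto (fun N => ∫ x, G (cN N x) ∂(mw N b)) U (𝓝 (∫ y, G y ∂P))) {z : ℂ} (hz : ‖z‖ = 1) : P.map (rotX z) = P := by
  have hm : Measurable (rotX z) := (rotX_cont z).measurable
  have : IsFiniteMeasure (P.map (rotX z)) := Measure.isFiniteMeasure_map P _
  refine ext_lip fun f hf hfL => ?_
  obtain ⟨L, hfL⟩ := hfL
  have hfc := hfL.continuous
  rw [integral_map hm.aemeasurable hfc.aestronglyMeasurable]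
  -- bounded continuous functions
  have hbd : ∀ y, ‖f y‖ ≤ 1 := fun y => by
    rw [Real.norm_eq_abs, abs_of_nonneg (hf y).1]
    exact (hf y).2
  have t1 : Tendsto (fun N => ∫ x, f (cN N x) ∂(mw N b)) U (𝓝 (∫ y, f y ∂P)) :=
    hP (BoundedContinuousFunction.ofNormedAddCommGroup f hfc 1 hbd)
  have t2 : Tendsto (fun N => ∫ x, f (rotX z (cN N x)) ∂(mw N b)) U (𝓝 (∫ y, f (rotX z y) ∂P)) :=
    hP (BoundedContinuousFunction.ofNormedAddCommGroup (fun y => f (rotX z y)) (hfc.comp (rotX_cont z)) 1 fun y => hbd _)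
  refine tendsto_nhds_unique t2 ?_
  have key : Tendsto (fun N => ∫ x, f (rotX z (cN N x)) ∂(mw N b) - ∫ x, f (cN N x) ∂(mw N b)) atTop (𝓝 0) := by
    rw [Metric.tendsto_atTop]
    intro ε hε
    obtain ⟨r', hr', N1, h1⟩ := mw_diam hQ hL hb (show 0 < ε / 4 by positivity)
    obtain ⟨r, hr⟩ : ∃ r : ℝ, r = r' / 2 := ⟨_, rfl⟩
    have hr0 : 0 < r := by
      rw [hr]
      positivity
    obtain ⟨N2, h2⟩ := sw2_rot hR hF hQ (Real.toNNReal (2 / r) + L) hr0 hb (show 0 < ε / 4 by positivity)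
    refine ⟨max N1 (max N2 1), fun N hN => ?_⟩
    have hNN1 := (le_max_left _ _).trans hN
    have hNN2 := ((le_max_left _ _).trans (le_max_right _ _)).trans hN
    have hNN3 := ((le_max_right _ _).trans (le_max_right _ _)).trans hN
    obtain ⟨X, hX⟩ : ∃ X : ℝ, X = (N : ℝ) ^ (4 / 3 : ℝ) := ⟨_, rfl⟩
    -- the cutoff
    have hcut : ∀ g : ℝ × ℝ × C(unitInterval, ℂ) → ℝ, (∀ y, 0 ≤ g y ∧ g y ≤ 1) →
        |∫ x, g (cN N x) ∂(mw N b) - ∫ x, F.chi r (dm (crv x.1 x.1.length N)) * g (cN N x) ∂(mw N b)| ≤ ε / 4 := by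
      intro g hg
      rw [← integral_sub (mw_integrable _) (mw_integrable _)]
      refine (abs_integral_le_integral_abs).trans ((mw_mono (g := indicator {x | dm (crv x.1 x.1.length N) ≤ r'} fun _ => (1 : ℝ))
        fun x _ => ?_).trans (by rw [mw_ind]; exact h1 N hNN1))
      by_cases h3 : dm (crv x.1 x.1.length N) ≤ r'
      · rw [indicator_of_mem (show x ∈ {x : W3 × ℕ | dm (crv x.1 x.1.length N) ≤ r'} from h3)]
        have a1 := F.chi_nonneg r (dm (crv x.1 x.1.length N))
        have a2 := F.chi_le_one r (dm (crv x.1 x.1.length N))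
        have a3 := hg (cN N x)
        rw [abs_le]
        constructor <;> nlinarith
      · rw [indicator_of_notMem (show x ∉ {x : W3 × ℕ | dm (crv x.1 x.1.length N) ≤ r'} from h3), F.chi_one hr0, one_mul, sub_self, abs_zero]
        rw [hr]
        linarith [not_le.1 h3]
    have c1 := hcut f hf
    have c2 := hcut (fun y => f (rotX z y)) fun y => hf _
    -- the sums
    obtain ⟨Φ, hΦ⟩ : ∃ Φ : ℕ → ℕ → C(unitInterval, ℂ) → ℝ, Φ = fun (l m : ℕ) (γ : C(unitInterval, ℂ)) => if (l : ℝ) ≤ b * X then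
        F.chi r (dm γ) * f ((l : ℝ) / X, (m : ℝ) / X, γ) else 0 := ⟨_, rfl⟩
    have e1 : ∫ x, F.chi r (dm (crv x.1 x.1.length N)) * f (cN N x) ∂(mw N b) = SW2 N Φ := by
      rw [hΦ, hX]
      exact mw_sw2 (fun l m γ => F.chi r (dm γ) * f ((l : ℝ) / (N : ℝ) ^ (4 / 3 : ℝ), (m : ℝ) / (N : ℝ) ^ (4 / 3 : ℝ), γ))
    have e2 : ∫ x, F.chi r (dm (crv x.1 x.1.length N)) * f (rotX z (cN N x)) ∂(mw N b) = SW2 N fun l m γ => Φ l m (z • γ) := by
      rw [hΦ, hX]
      simp only [dm_smul hz]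
      exact mw_sw2 (fun l m γ => F.chi r (dm γ) * f ((l : ℝ) / (N : ℝ) ^ (4 / 3 : ℝ), (m : ℝ) / (N : ℝ) ^ (4 / 3 : ℝ), z • γ))
    have h3 := h2 N hNN2 z hz Φ (fun l m γ => by
        rw [hΦ]
        beta_reduce
        split_ifs
        · have a1 := F.chi_nonneg r (dm γ)
          have a2 := F.chi_le_one r (dm γ)
          have a3 := hf ((l : ℝ) / X, (m : ℝ) / X, γ)
          rw [abs_le]
          constructor <;> nlinarith
        · norm_num) (fun l m γ γ' => by
        rw [hΦ]
        beta_reduce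
        split_ifs
        · have a1 := F.chi_nonneg r (dm γ)
          have a2 := F.chi_le_one r (dm γ)
          have a3 := hf ((l : ℝ) / X, (m : ℝ) / X, γ')
          have a4 := F.chi_lip hr0 (dm γ) (dm γ')
          have a5 := dm_lip γ γ'
          have a6 := hfL.dist_le_mul ((l : ℝ) / X, (m : ℝ) / X, γ) ((l : ℝ) / X, (m : ℝ) / X, γ')
          have a7 : dist ((l : ℝ) / X, (m : ℝ) / X, γ) ((l : ℝ) / X, (m : ℝ) / X, γ') = dist γ γ' := by
            rw [Prod.dist_eq, Prod.dist_eq, dist_self, dist_self, max_eq_right, max_eq_right]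
            · exact dist_nonneg
            · exact le_max_of_le_right dist_nonneg
          rw [a7, Real.dist_eq] at a6
          have a8 : |dm γ - dm γ'| / r ≤ 2 / r * dist γ γ' := by
            rw [div_le_iff₀ hr0]
            calc _ ≤ 2 * dist γ γ' := a5
              _ = _ := by field_simp
          rw [NNReal.coe_add, Real.coe_toNNReal _ (by positivity)]
          have a9 : F.chi r (dm γ) * f ((l : ℝ) / X, (m : ℝ) / X, γ) - F.chi r (dm γ') * f ((l : ℝ) / X, (m : ℝ) / X, γ') =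
              F.chi r (dm γ) * (f ((l : ℝ) / X, (m : ℝ) / X, γ) - f ((l : ℝ) / X, (m : ℝ) / X, γ')) +
                (F.chi r (dm γ) - F.chi r (dm γ')) * f ((l : ℝ) / X, (m : ℝ) / X, γ') := by ring
          rw [a9]
          refine (abs_add_le _ _).trans ?_
          rw [abs_mul, abs_mul, abs_of_nonneg a1, abs_of_nonneg a3.1]
          have b1 : F.chi r (dm γ) * |f ((l : ℝ) / X, (m : ℝ) / X, γ) - f ((l : ℝ) / X, (m : ℝ) / X, γ')| ≤ 1 * (L * dist γ γ') :=
            mul_le_mul a2 a6 (abs_nonneg _) zero_le_one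
          have b2 : |F.chi r (dm γ) - F.chi r (dm γ')| * f ((l : ℝ) / X, (m : ℝ) / X, γ') ≤ 2 / r * dist γ γ' * 1 :=
            mul_le_mul (a4.trans a8) a3.2 a3.1 (by positivity)
          linarith
        · rw [sub_zero, abs_zero]
          positivity) (fun l m γ hγ => by
        rw [hΦ]
        beta_reduce
        rw [F.chi_zero hr0 hγ.le, zero_mul, ite_self]) (fun l m γ hl => by
        rw [hΦ]
        beta_reduce
        rw [if_neg]
        rw [hX]
        exact not_le.2 hl)
    rw [← e1, ← e2] at h3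
    rw [Real.dist_eq, sub_zero]
    rw [abs_le] at c1 c2 h3
    have h4 : |∫ x, f (rotX z (cN N x)) ∂(mw N b) - ∫ x, f (cN N x) ∂(mw N b)| ≤ 3 * (ε / 4) := by
      rw [abs_le]
      constructor <;> linarith [c1.1, c1.2, c2.1, c2.2, h3.1, h3.2]
    linarith
  have t3 := (key.mono_left hU).add t1
  rw [zero_add] at t3
  refine t3.congr fun N => ?_
  ring

end Pool.Agent.ROT.F3
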