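import Pool.Agent.ROT.F3CorMid
import Pool.Agent.ROT.F3SysR
import Pool.Agent.ROT.F3K1R

/-!
# ROT / F3K1 (helper4): row Core, (K1), the data of the closed words with eight marks

* `rotP v`, `rot2 v`, `rotK v` : turned pieces, strands, connections; `th8 (g, μ, T)` = (connections, rests) of the curve `g` with the
  marks `T` (continuous); `th8_rotX` : the data of a turned curve;
* `cW d τ p k` : the two pieces of the strand `p` with the gate number `k` (tip .. `c`; `x` .. `c` read backwards);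
* `gk` : the gate of a prefix, `gk_eq`; `kP`, `kQ` : the data of the connections of a class, turned by `v`;
* `mdt v D N` : the data of the words at the marks `mkt`; **`dt_cls`**, **`rd_cls`** : `Rd` of helper55 with the data `MM`.
-/

set_option autoImplicit false

open MeasureTheory Topology Set

open scoped ENNReal

namespace Pool.Agent.ROT.F3.CK

open Pool.Agent.ROT.F3 Pool.Agent.ROT.F3.CC

/-! ### 1. Turned curves -/

/-- a turned piece -/
noncomputable def rotP (v : ℂ) (p : Pie) : Pie := (v • p.1, p.2)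

/-- a turned strand -/
noncomputable def rot2 (v : ℂ) (k : Pie × Pie) : Pie × Pie := (rotP v k.1, rotP v k.2)

/-- a turned connection -/
noncomputable def rotK (v : ℂ) (k : K4) : K4 := (rot2 v k.1, rot2 v k.2)

lemma rotP_cont (v : ℂ) : Continuous (rotP v) := by
  unfold rotP
  fun_prop

lemma rot2_cont (v : ℂ) : Continuous (rot2 v) :=
  ((rotP_cont v).comp continuous_fst).prodMk ((rotP_cont v).comp continuous_snd)

lemma rotK_cont (v : ℂ) : Continuous (rotK v) :=
  ((rot2_cont v).comp continuous_fst).prodMk ((rot2_cont v).comp continuous_snd)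

lemma ex_smul (v : ℂ) (g : C(unitInterval, ℂ)) (x : ℝ) : ex (v • g) x = v * ex g x := rfl

lemma cutp_smul (v : ℂ) (g : C(unitInterval, ℂ)) (s t : ℝ) : cutp (v • g) s t = v • cutp g s t := by
  ext u
  rw [cutp_apply, ex_smul, ex_smul, ContinuousMap.smul_apply, cutp_apply, smul_eq_mul]
  ring

lemma pcut_rotP (v : ℂ) (p : Pie) (s t : ℝ) : pcut (rotP v p) s t = rotP v (pcut p s t) := by
  unfold pcut rotP
  rw [cutp_smul]

lemma cl_rotX (v : ℂ) (g : CC.Gm) : cl (rotX v g) = rotP v (cl g) := rfl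

lemma mu_rotX (v : ℂ) (g : CC.Gm) : mu (rotX v g) = mu g := rfl

lemma dsp_rotP (v : ℂ) (p : Pie) : dsp (rotP v p) = v * dsp p := by
  show v * p.1 1 - v * p.1 0 = v * (p.1 1 - p.1 0)
  ring

lemma arW_eq (v : ℂ) (s τ : ℝ) (R : W3) : arW v s τ R = rotP v (wp s τ R) := rfl

/-- the rests of a turned curve -/
lemma rst_rotX (v : ℂ) (g : CC.Gm) (T : M4) :
    rst (rotX v g) T = (rotP v (rst g T).1, (rotP v (rst g T).2.1, v * (rst g T).2.2)) := by
  unfold rst
  rw [cl_rotX, pcut_rotP, pcut_rotP]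
  refine Prod.ext rfl (Prod.ext rfl ?_)
  show ex (v • g.2.2) T.2.2.2 - ex (v • g.2.2) T.1 = v * (ex g.2.2 T.2.2.2 - ex g.2.2 T.1)
  rw [ex_smul, ex_smul]
  ring

lemma con_rotX (v : ℂ) (g : CC.Gm) (r c x : ℝ) : con (rotX v g) r c x = rot2 v (con g r c x) := by
  unfold con rot2
  rw [cl_rotX, pcut_rotP, pcut_rotP]

/-- the connections of a turned curve -/
lemma kapM_rotX (v : ℂ) (g : CC.Gm) (μ : ℝ) (T : Fin 8 → ℝ) :
    kapM (rotX v g) μ T = (rotK v (kapM g μ T).1, rotK v (kapM g μ T).2) := by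
  unfold kapM rotK
  simp only [con_rotX]

lemma kap8_rotX (v : ℂ) (g : CC.Gm) (T : Fin 8 → ℝ) :
    kap8 (rotX v g) T = (rotK v (kap8 g T).1, rotK v (kap8 g T).2) := kapM_rotX v g (mu g) T

/-- **(connections, (rest A, (rest B, relative position)))** of a curve with the second root `μ` and the marks `T` -/
noncomputable def th8 (q : CC.Gm × ℝ × (Fin 8 → ℝ)) : (K4 × K4) × (Pie × (Pie × ℂ)) :=
  (kapM q.1 q.2.1 q.2.2, rst q.1 (m4 q.2.2))

/-- **the data are continuous** -/
theorem th8_cont : Continuous th8 := by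
  unfold th8
  exact kapM_cont.prodMk (rst_cont.comp (continuous_fst.prodMk (m4_cont.comp (continuous_snd.comp continuous_snd))))

/-- **the data of a turned curve** -/
theorem th8_rotX (v : ℂ) (g : CC.Gm) (μ : ℝ) (T : Fin 8 → ℝ) :
    th8 (rotX v g, μ, T) = ((rotK v (kapM g μ T).1, rotK v (kapM g μ T).2),
      (rotP v (rst g (m4 T)).1, (rotP v (rst g (m4 T)).2.1, v * (rst g (m4 T)).2.2))) := by
  show (kapM (rotX v g) μ T, rst (rotX v g) (m4 T)) = _
  rw [kapM_rotX, rst_rotX]

/-! ### 2. The gates of the prefixes -/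

/-- the two pieces of the strand `p` with the gate `k` -/
noncomputable def cW (d τ : ℝ) (p : W3) (k : ℕ) : Pie × Pie := (wp d τ (p.take k), wp d τ (p.drop k).reverse)

/-- the gate `c` is determined by the piece tip .. `x` -/
lemma dbl_inj {d : ℂ} {r l r2 m : ℝ} {p : W3} {k k' : ℕ} (h : DblC d r l r2 m p k) (h' : DblC d r l r2 m p k') : k = k' := by
  have key : ∀ {k k' : ℕ}, DblC d r l r2 m p k → DblC d r l r2 m p k' → ¬ k < k' := by
    intro k k' h h' hlt
    have hk : (p.take k).length = k := by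
      rw [List.length_take]
      exact min_eq_left h.le
    have hk' : (p.take k').length = k' := by
      rw [List.length_take]
      exact min_eq_left h'.le
    have ek : Even k := by
      have := h.a.ev
      rwa [hk] at this
    have v1 : ∀ j : ℕ, j ≤ k → ps (p.take k) j = ps p j := fun j hj => by
      conv_rhs => rw [← List.take_append_drop k p]
      rw [ps_append_left (by rw [hk]; exact hj)]
    have v2 : ∀ j : ℕ, j ≤ k' → ps (p.take k') j = ps p j := fun j hj => by
      conv_rhs => rw [← List.take_append_drop k' p]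
      rw [ps_append_left (by rw [hk']; exact hj)]
    have v3 : ∀ j : ℕ, k ≤ j → ps p j = ps p k + ps (p.drop k) (j - k) := fun j hj => by
      have h1 := ps_append_right' (u := p.take k) (v := p.drop k) (by rw [hk]; exact ek)
        (show (p.take k).length ≤ j by rw [hk]; exact hj)
      rw [List.take_append_drop, hk] at h1
      rw [h1]
      congr 1
      unfold en
      rw [hk, v1 k le_rfl]
    have lvadd : ∀ x y : ℂ, lv d (x + y) = lv d x + lv d y := fun x y => by
      unfold lv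
      rw [mul_add, Complex.add_re]
    have c1 : CutC d (p.take k') k := by
      refine ⟨fun j hj => ?_, fun j hj hj' => ?_⟩
      · rw [v2 j (hj.trans hlt.le), v2 k hlt.le, ← v1 j hj, ← v1 k le_rfl]
        have h1 := h.a.left j (by rw [hk]; exact hj)
        unfold en at h1
        rwa [hk] at h1
      · rw [hk'] at hj'
        rw [v2 j hj', v2 k hlt.le, v3 j hj.le, lvadd]
        have h1 := h.b.right (j - k) (by omega) (by
          rw [List.length_drop]
          have := h'.le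
          omega)
        linarith
    have h2 := h'.fa.2 k ek (by rw [hk']; exact hlt) c1
    have h3 := h.fa.1
    unfold en at h3
    rw [hk, v1 k le_rfl] at h3
    rw [v2 k hlt.le] at h2
    linarith
  rcases lt_trichotomy k k' with h1 | h1 | h1
  · exact absurd h1 (key h h')
  · exact h1
  · exact absurd h1 (key h' h)

/-- **the gate of a prefix** -/
noncomputable def gk (d : ℂ) (P : Tp) (S T : ℝ) (p : W3) : ℕ := sInf {k | PreM d P S T p k}

lemma gk_eq {d : ℂ} {P : Tp} {S T : ℝ} {p : W3} {k : ℕ} (h : PreM d P S T p k) : gk d P S T p = k := by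
  have h1 : PreM d P S T p (gk d P S T p) := Nat.sInf_mem (s := {k | PreM d P S T p k}) ⟨k, h⟩
  exact dbl_inj h1.g h.g

lemma evk_of {d : ℂ} {P : Tp} {S T : ℝ} {p : W3} {k : ℕ} (h : PreM d P S T p k) : Even k := by
  have h1 := h.g.a.ev
  rwa [List.length_take, min_eq_left h.g.le] at h1

lemma evp_of {d : ℂ} {P : Tp} {S T : ℝ} {p : W3} {k : ℕ} (h : PreM d P S T p k) : Even p.length := h.g.tip.ev

/-- **the data of a connection** of the class `Pai d d' P P'`, turned by `v` -/
noncomputable def kW (d d' : ℂ) (P P' : Tp) (v : ℂ) (N : ℕ) (a : W3 × W3) : K4 :=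
  rotK v (cW N (uT N) a.1 (gk d P N (uT N) a.1), cW N (uT N) a.2 (gk d' P' N (uT N) a.2))

/-- the data of the connections at `p` -/
noncomputable def kP (D : Dt) (v : ℂ) (N : ℕ) : W3 × W3 → K4 := kW D.d D.d' (D.P.up D.y) (D.P.up D.y') v N

/-- the data of the connections at `q` -/
noncomputable def kQ (D : Dt) (v : ℂ) (N : ℕ) : W3 × W3 → K4 := kW D.t D.t' (D.Q.up D.z) (D.Q.up D.z') v N

/-! ### 3. The equation of the data -/

/-- **the data of a word**: (connections, rests) of the turned curve at the marks -/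
noncomputable def mdt (v : ℂ) (D : Dt) (N : ℕ) (x : W3 × ℕ) : (K4 × K4) × (Pie × (Pie × ℂ)) :=
  th8 (rotX v (cN N x), (x.2 : ℝ) / x.1.length, mkt D N (uT N) x)

lemma mdt_len (a : W3 × W3) (R : W3) (c : W3 × W3) (U : W3) :
    a.1.length + R.length + c.1.length + c.2.length + U.length + a.2.length = (G6 a R c U).length := by
  rw [G6_len]
  ring

lemma g8_eq {a c : W3 × W3} {R U : W3} (k1 k2 j1 j2 : ℕ) : mk8 a R c U k1 k2 j1 j2 = g8 a R c U k1 k2 j1 j2 := by
  funext i
  unfold mk8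
  rw [mdt_len]
  rfl

/-- **the equation `dt`** -/
theorem dt_cls {D : Dt} (hD : D.Ok) {N : ℕ} (hN : 0 < N) (v : ℂ) {a c : W3 × W3} {R U : W3}
    (ha : a ∈ D.C N (uT N)) (hR : R ∈ D.A N (uT N)) (hc : c ∈ D.C' N (uT N)) (hU : U ∈ D.B N (uT N))
    (hcl : Cl (G6 a R c U)) : mdt v D N (G6 a R c U, a.1.length + R.length + c.1.length) =
      MM (kP D v N) (kQ D v N) (arW v N (uT N)) (arW v N (uT N)) v N a R c U := by
  obtain ⟨k1, k2, hk⟩ := ha
  obtain ⟨j1, j2, hj⟩ := hc
  have hN' : (0 : ℝ) < N := by exact_mod_cast hN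
  have pos1 : 0 < a.1.length := hk.p1.g.tip.pos
  have hw : 1 ≤ (G6 a R c U).length := by
    rw [G6_len]
    omega
  have hK := kap8_G6 (N := N) (R := R) (S := U) hN (evp_of hk.p1) (evp_of hk.p2) hR.ev (evp_of hj.p1) (evp_of hj.p2) hU.ev hw
    (evk_of hk.p1) (evk_of hk.p2) (evk_of hj.p1) (evk_of hj.p2) hk.p1.g.le hk.p2.g.le hj.p1.g.le hj.p2.g.le
  have hRs := rst_G6 (N := N) (evp_of hk.p1) (evp_of hk.p2) hR.ev (evp_of hj.p1) (evp_of hj.p2) hU.ev hcl.2.1 hw
  have hm : mkt D N (uT N) (G6 a R c U, gm a R c) = mT8 (G6 a R c U) (g8 a R c U k1 k2 j1 j2) := by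
    funext i
    show (mkc D N (uT N) (G6 a R c U, a.1.length + R.length + c.1.length) i : ℝ) / (G6 a R c U).length = _
    rw [mkc_eq hD hN' hk hR hj hU i, g8_eq]
    rfl
  have hmu : mu (cN N (G6 a R c U, gm a R c)) = (gm a R c : ℝ) / (G6 a R c U).length := mu_cN hN _ _
  have hK' : kapM (cN N (G6 a R c U, gm a R c)) ((gm a R c : ℝ) / (G6 a R c U).length)
      (mT8 (G6 a R c U) (g8 a R c U k1 k2 j1 j2)) =
      ((cW N (uT N) a.1 k1, cW N (uT N) a.2 k2), (cW N (uT N) c.1 j1, cW N (uT N) c.2 j2)) := by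
    rw [← hmu]
    exact hK
  have hm4 : m4 (mT8 (G6 a R c U) (g8 a R c U k1 k2 j1 j2)) = gT a R c U := rfl
  have e0 : mdt v D N (G6 a R c U, a.1.length + R.length + c.1.length) = th8 (rotX v (cN N (G6 a R c U, gm a R c)),
      (gm a R c : ℝ) / (G6 a R c U).length, mkt D N (uT N) (G6 a R c U, gm a R c)) := rfl
  rw [e0, hm, th8_rotX, hK', hm4, hRs]
  have g1' := gk_eq hk.p1
  have g2' := gk_eq hk.p2
  have g3' := gk_eq hj.p1
  have g4' := gk_eq hj.p2
  unfold MM kP kQ kW
  rw [g1', g2', g3', g4']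
  refine Prod.ext rfl (Prod.ext rfl (Prod.ext rfl ?_))
  show v * ((en a.2 - en a.1) / N) = (((N : ℝ)⁻¹ : ℝ) : ℂ) * -(v * (en a.1 - en a.2))
  push_cast
  ring

/-- **`Rd` for all subclasses**, both lattices (`v = 1`; `v = e^(i φ)`) -/
theorem rd_cls {D : Dt} (hD : D.Ok) {N : ℕ} (hN : 0 < N) (v : ℂ) {C C' : Set (W3 × W3)} {RA RB : Set W3}
    (hC : C ⊆ D.C N (uT N)) (hC' : C' ⊆ D.C' N (uT N)) (hA : RA ⊆ D.A N (uT N)) (hB : RB ⊆ D.B N (uT N))
    (E E' : W3 × W3 → ℝ≥0∞) (F G : W3 → ℝ≥0∞) :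
    Rd C C' RA RB (wE C C' RA RB E E' F G) (mdt v D N) (fun a R c U => E a * E' c * (F R * G U))
      (MM (kP D v N) (kQ D v N) (arW v N (uT N)) (arW v N (uT N)) v N) :=
  rd_gen (uq_cls hD (by exact_mod_cast hN) hC hC' hA hB) fun _ ha _ hR _ hc _ hU hcl =>
    dt_cls hD hN v (hC ha) (hA hR) (hC' hc) (hB hU) hcl

/-- the same for the weight `0 / 1` -/
theorem rd1_cls {D : Dt} (hD : D.Ok) {N : ℕ} (hN : 0 < N) (v : ℂ) {C C' : Set (W3 × W3)} {RA RB : Set W3}
    (hC : C ⊆ D.C N (uT N)) (hC' : C' ⊆ D.C' N (uT N)) (hA : RA ⊆ D.A N (uT N)) (hB : RB ⊆ D.B N (uT N)) :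
    Rd C C' RA RB (w1 C C' RA RB) (mdt v D N) (fun _ _ _ _ => 1 * 1 * (1 * 1))
      (MM (kP D v N) (kQ D v N) (arW v N (uT N)) (arW v N (uT N)) v N) :=
  rd_one (uq_cls hD (by exact_mod_cast hN) hC hC' hA hB) fun _ ha _ hR _ hc _ hU hcl =>
    dt_cls hD hN v (hC ha) (hA hR) (hC' hc) (hB hU) hcl

end Pool.Agent.ROT.F3.CK
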