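import Pool.Agent.ROT.F3K4B
import Pool.Agent.ROT.F3K1R

/-!
# ROT, F3, row K4, third part (helper58): the laws of the classes of marked closed words converge

* `eW w` : the weight `0 / 1` of a class as a real functional; `eW_wt`;
* **`ord_cls`** : the order of the marks in the limit;
* **`hlim_cls`** : `hlim` of F3LimE for the classes of F3K1R on both lattices (`z` = 1: lattice 0; `z = e ^ (i φ)`: rotated lattice), from
  the limits of the indicator of the class and of the times of the eight marks.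
-/

set_option autoImplicit false

open MeasureTheory Filter Topology Set BoundedContinuousFunction

open scoped NNReal ENNReal Classical

namespace Pool.Agent.ROT.F3.CK

open Pool.Agent.ROT.F3 Pool.Agent.ROT.F3.CC Pool.Agent.ROT.F3.LF

/-- the indicator of a class of words with marks -/
noncomputable def eW (C C' : Set (W3 × W3)) (RA RB : Set W3) (x : W3 × ℕ) : ℝ := if x ∈ InC C C' RA RB then 1 else 0

lemma eW_mem (C C' : Set (W3 × W3)) (RA RB : Set W3) (x : W3 × ℕ) : eW C C' RA RB x = 0 ∨ eW C C' RA RB x = 1 := by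
  unfold eW
  split_ifs
  · exact Or.inr rfl
  · exact Or.inl rfl

lemma eW_nn (C C' : Set (W3 × W3)) (RA RB : Set W3) (x : W3 × ℕ) : 0 ≤ eW C C' RA RB x := by
  rcases eW_mem C C' RA RB x with h | h
  · rw [h]
  · rw [h]
    exact zero_le_one

lemma w1_eW (C C' : Set (W3 × W3)) (RA RB : Set W3) (x : W3 × ℕ) : w1 C C' RA RB x = ENNReal.ofReal (eW C C' RA RB x) := by
  unfold w1 eW
  split_ifs
  · exact ENNReal.ofReal_one.symm
  · exact ENNReal.ofReal_zero.symm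

lemma eW_ne {C C' : Set (W3 × W3)} {RA RB : Set W3} {x : W3 × ℕ} : eW C C' RA RB x ≠ 0 ↔ x ∈ InC C C' RA RB := by
  unfold eW
  by_cases h : x ∈ InC C C' RA RB
  · rw [if_pos h]
    exact ⟨fun _ => h, fun _ => one_ne_zero⟩
  · rw [if_neg h]
    exact ⟨fun h1 => absurd rfl h1, fun h1 => absurd h1 h⟩

/-- the words of a class have even second roots -/
lemma w1_wt {D : Dt} {S T : ℝ} {C C' : Set (W3 × W3)} {RA RB : Set W3} (hC : C ⊆ D.C S T) (hC' : C' ⊆ D.C' S T)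
    (hA : RA ⊆ D.A S T) (hB : RB ⊆ D.B S T) (x : W3 × ℕ) :
    w1 C C' RA RB x = if Even x.2 then ENNReal.ofReal (eW C C' RA RB x) else 0 := by
  by_cases hx : Even x.2
  · rw [if_pos hx, w1_eW]
  · rw [if_neg hx]
    by_contra h
    exact hx (inC_even (InC.mono hC hC' hA hB (w1_ne.1 h))).1

lemma mkt_le {D : Dt} (hD : D.Ok) {S T : ℝ} (hS : 0 < S) {x : W3 × ℕ} (hx : x ∈ InC (D.C S T) (D.C' S T) (D.A S T) (D.B S T)) :
    mkt D S T x 0 ≤ mkt D S T x 1 ∧ mkt D S T x 1 ≤ mkt D S T x 2 ∧ mkt D S T x 2 ≤ mkt D S T x 3 ∧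
    mkt D S T x 3 ≤ (x.2 : ℝ) / x.1.length ∧ (x.2 : ℝ) / x.1.length ≤ mkt D S T x 4 ∧ mkt D S T x 4 ≤ mkt D S T x 5 ∧
    mkt D S T x 5 ≤ mkt D S T x 6 ∧ mkt D S T x 6 ≤ mkt D S T x 7 := by
  obtain ⟨h1, h2, h3, h4, h5, h6, h7, h8, -⟩ := mkc_le hD hS hx
  have key : ∀ {i j : ℕ}, i ≤ j → (i : ℝ) / x.1.length ≤ (j : ℝ) / x.1.length := fun h =>
    div_le_div_of_nonneg_right (by exact_mod_cast h) (Nat.cast_nonneg _)
  exact ⟨key h1, key h2, key h3, key h4, key h5, key h6, key h7, key h8⟩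

/-- **the order of the marks in the limit** -/
theorem ord_cls {U : Filter ℕ} [U.NeBot] {b : ℝ} {P : Measure CC.Gm} (hU : U ≤ atTop) (hC : Cv U (fun N => mwE N b) cN P)
    (hP : ∀ᵐ y ∂P, 0 < y.2.1 ∧ y.2.1 < y.1) {D : Dt} (hD : D.Ok) {E0 : CC.Gm → ℝ} (h0 : ∀ y, 0 ≤ E0 y)
    (he : Lm U (fun N => mwE N b) cN P (fun N x => eW (D.C N (uT N)) (D.C' N (uT N)) (D.A N (uT N)) (D.B N (uT N)) x) E0)
    {Φ0 : CC.Gm → Fin 8 → ℝ}
    (h : ∀ k, Lm U (fun N => mwE N b) cN P (fun N x => mkt D N (uT N) x k) fun y => Φ0 y k) :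
    ∀ᵐ y ∂P, E0 y ≠ 0 → (∀ k, Φ0 y k ∈ Icc (0 : ℝ) 1) ∧ Φ0 y 0 ≤ Φ0 y 1 ∧ Φ0 y 1 ≤ Φ0 y 2 ∧ Φ0 y 2 ≤ Φ0 y 3 ∧
      Φ0 y 3 ≤ mu y ∧ mu y ≤ Φ0 y 4 ∧ Φ0 y 4 ≤ Φ0 y 5 ∧ Φ0 y 5 ≤ Φ0 y 6 ∧ Φ0 y 6 ≤ Φ0 y 7 := by
  have hμ : ∀ N : ℕ, ∀ᵐ x ∂(mwE N b), x.2 < x.1.length := fun N => by
    refine ae_restrict_of_ae ?_
    filter_upwards [mw_aeTN N b] with x hx
    exact (mem_TN.1 hx).2.1
  -- one inequality
  have key : ∀ G : ℝ × (Fin 8 → ℝ) → ℝ, Continuous G → (∀ N : ℕ, 1 ≤ N → ∀ x : W3 × ℕ,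
      x ∈ InC (D.C N (uT N)) (D.C' N (uT N)) (D.A N (uT N)) (D.B N (uT N)) →
      G ((x.2 : ℝ) / x.1.length, fun k => mkt D N (uT N) x k) ≤ 0) → ∀ᵐ y ∂P, E0 y ≠ 0 → G (mu y, Φ0 y) ≤ 0 := by
    intro G hG hx
    refine mk_le_mu hC hP hμ he (fun N x => eW_nn _ _ _ _ x) h0 h (G := fun q => G q.2) (hG.comp (by fun_prop))
      fun δ hδ => ?_
    filter_upwards [hU (eventually_ge_atTop 1)] with N hN
    refine ae_of_all _ fun x hne => ?_
    exact (hx N hN x (eW_ne.1 hne)).trans hδ.le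
  have hS : ∀ N : ℕ, 1 ≤ N → (0 : ℝ) < N := fun N hN => by exact_mod_cast hN
  have m1 : ∀ k : Fin 8, ∀ᵐ y ∂P, E0 y ≠ 0 → -(Φ0 y k) ≤ 0 := fun k =>
    key (fun q => -(q.2 k)) (by fun_prop) fun N hN x hx => by
      have := (mkt_mem hD (hS N hN) (T := uT N) x k).1
      show -(mkt D N (uT N) x k) ≤ 0
      linarith
  have m2 : ∀ k : Fin 8, ∀ᵐ y ∂P, E0 y ≠ 0 → Φ0 y k - 1 ≤ 0 := fun k =>
    key (fun q => q.2 k - 1) (by fun_prop) fun N hN x hx => by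
      have := (mkt_mem hD (hS N hN) (T := uT N) x k).2
      show mkt D N (uT N) x k - 1 ≤ 0
      linarith
  have k1 := key (fun q => q.2 0 - q.2 1) (by fun_prop) fun N hN x hx => by
    have := (mkt_le hD (hS N hN) hx).1
    show mkt D N (uT N) x 0 - mkt D N (uT N) x 1 ≤ 0
    linarith
  have k2 := key (fun q => q.2 1 - q.2 2) (by fun_prop) fun N hN x hx => by
    have := (mkt_le hD (hS N hN) hx).2.1
    show mkt D N (uT N) x 1 - mkt D N (uT N) x 2 ≤ 0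
    linarith
  have k3 := key (fun q => q.2 2 - q.2 3) (by fun_prop) fun N hN x hx => by
    have := (mkt_le hD (hS N hN) hx).2.2.1
    show mkt D N (uT N) x 2 - mkt D N (uT N) x 3 ≤ 0
    linarith
  have k4 := key (fun q => q.2 3 - q.1) (by fun_prop) fun N hN x hx => by
    have := (mkt_le hD (hS N hN) hx).2.2.2.1
    show mkt D N (uT N) x 3 - (x.2 : ℝ) / x.1.length ≤ 0
    linarith
  have k5 := key (fun q => q.1 - q.2 4) (by fun_prop) fun N hN x hx => by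
    have := (mkt_le hD (hS N hN) hx).2.2.2.2.1
    show (x.2 : ℝ) / x.1.length - mkt D N (uT N) x 4 ≤ 0
    linarith
  have k6 := key (fun q => q.2 4 - q.2 5) (by fun_prop) fun N hN x hx => by
    have := (mkt_le hD (hS N hN) hx).2.2.2.2.2.1
    show mkt D N (uT N) x 4 - mkt D N (uT N) x 5 ≤ 0
    linarith
  have k7 := key (fun q => q.2 5 - q.2 6) (by fun_prop) fun N hN x hx => by
    have := (mkt_le hD (hS N hN) hx).2.2.2.2.2.2.1
    show mkt D N (uT N) x 5 - mkt D N (uT N) x 6 ≤ 0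
    linarith
  have k8 := key (fun q => q.2 6 - q.2 7) (by fun_prop) fun N hN x hx => by
    have := (mkt_le hD (hS N hN) hx).2.2.2.2.2.2.2
    show mkt D N (uT N) x 6 - mkt D N (uT N) x 7 ≤ 0
    linarith
  filter_upwards [ae_all_iff.2 m1, ae_all_iff.2 m2, k1, k2, k3, k4, k5, k6, k7, k8] with y a1 a2 b1 b2 b3 b4 b5 b6 b7 b8 hne
  have c1 := b1 hne
  have c2 := b2 hne
  have c3 := b3 hne
  have c4 := b4 hne
  have c5 := b5 hne
  have c6 := b6 hne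
  have c7 := b7 hne
  have c8 := b8 hne
  refine ⟨fun k => ⟨by have := a1 k hne; linarith, by have := a2 k hne; linarith⟩, ?_, ?_, ?_, ?_, ?_, ?_, ?_, ?_⟩ <;> linarith

/-- **`hlim` for the classes of marked words** : `E0`, `Φ0` = limits of the indicator and of the marks on the lattice 0 (curve `cN`) -/
theorem hlim_cls {U : Ultrafilter ℕ} {b : ℝ} {P : Measure CC.Gm} (hC : Cv (U : Filter ℕ) (fun N => mwE N b) cN P)
    (hP : ∀ᵐ y ∂P, 0 < y.2.1 ∧ y.2.1 < y.1) {z : ℂ} (hz : ‖z‖ = 1) (hPz : P.map (rotX z) = P) {D : Dt}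
    {C C' : ℕ → Set (W3 × W3)} {RA RB : ℕ → Set W3} (kC : ∀ N, C N ⊆ D.C N (uT N)) (kC' : ∀ N, C' N ⊆ D.C' N (uT N))
    (kA : ∀ N, RA N ⊆ D.A N (uT N)) (kB : ∀ N, RB N ⊆ D.B N (uT N)) {E0 : CC.Gm → ℝ} (h0 : ∀ y, 0 ≤ E0 y)
    (he : Lm (U : Filter ℕ) (fun N => mwE N b) cN P (fun N x => eW (C N) (C' N) (RA N) (RB N) x) E0)
    {Φ0 : CC.Gm → Fin 8 → ℝ}
    (h : ∀ k, Lm (U : Filter ℕ) (fun N => mwE N b) cN P (fun N x => mkt D N (uT N) x k) fun y => Φ0 y k)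
    {K1 K2 A B : Type*} [PseudoMetricSpace K1] [MeasurableSpace K1] [BorelSpace K1]
    [PseudoMetricSpace K2] [MeasurableSpace K2] [BorelSpace K2] [PseudoMetricSpace A] [MeasurableSpace A] [BorelSpace A]
    [PseudoMetricSpace B] [MeasurableSpace B] [BorelSpace B] [SecondCountableTopology K1] [SecondCountableTopology K2]
    [SecondCountableTopology A] [SecondCountableTopology B] {Θ : CC.Gm × ℝ × (Fin 8 → ℝ) → (K1 × K2) × (A × (B × ℂ))}
    (hΘ : Continuous Θ) {m : ℕ → W3 × ℕ → (K1 × K2) × (A × (B × ℂ))}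
    (hm : ∀ N x, x ∈ InC (C N) (C' N) (RA N) (RB N) → x.2 < x.1.length →
      m N x = Θ (rotX z (cN N x), (x.2 : ℝ) / x.1.length, fun k => mkt D N (uT N) x k)) :
    ∀ (f : K1 → ℝ) (f' : K2 → ℝ) (u : A → ℝ) (v : B → ℝ) (t : ℂ → ℝ), TF f → TF f' → TF u → TF v → TF t →
      Tendsto (fun N => ∫ x, f x.1.1 * f' x.1.2 * (u x.2.1 * (v x.2.2.1 * t x.2.2.2))
        ∂(rhoN N b (w1 (C N) (C' N) (RA N) (RB N)) (m N))) U
        (𝓝 (∫ x, f x.1.1 * f' x.1.2 * (u x.2.1 * (v x.2.2.1 * t x.2.2.2))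
          ∂((P.withDensity fun y => ENNReal.ofReal (E0 (rotX z⁻¹ y))).map fun y => Θ (y, mu y, Φ0 (rotX z⁻¹ y))))) :=
  mk_hlim_mu hC hP hz hPz (e := fun N x => eW (C N) (C' N) (RA N) (RB N) x) (lm_rot hz hPz he) (fun N x => eW_nn _ _ _ _ x)
    (fun y => h0 _) (p := fun N x k => mkt D N (uT N) x k) (fun k => lm_rot hz hPz (h k)) hΘ
    (fun N x => w1_wt (kC N) (kC' N) (kA N) (kB N) x) fun N x hx hx2 => hm N x (w1_ne.1 hx) hx2

end Pool.Agent.ROT.F3.CK
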