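import Pool.Agent.ROT.F3CoreI
import Pool.Agent.ROT.F3CoreP
import Pool.Agent.ROT.F3K1
import Pool.Agent.ROT.F3K4C

/-!
# ROT, F3, row Core (helper17): the lattice data of the classes of F3Cls in the form of the final assembly

* `wZ z E`, `tZ z Φ` : the limit weight and the limit marks of a class on the lattice turned by `z`;
* **`lev_prm`** : `LevIn` for the classes at all pairs of levels, data `dat (tZ z Φ)`;
* **`zero_prm`** : the fields `fin`, `d0`, `hp` of `PairIn` for the class of the first lattice.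
-/

set_option autoImplicit false
set_option linter.unusedSectionVars false

open MeasureTheory Filter Topology Set

open scoped NNReal ENNReal Classical

namespace Pool.Agent.ROT.F3.CK

open Pool.Agent.ROT.F3 Pool.Agent.ROT.F3.CC Pool.Agent.ROT.F3.LF Pool.Agent.ROT.F3L

/-- the limit weight of a class on the lattice turned by `z` -/
noncomputable def wZ (z : ℂ) (E : CC.Gm → ℝ) (y : CC.Gm) : ℝ≥0∞ := ENNReal.ofReal (E (rotX z⁻¹ y))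

/-- the limit marks of a class on the lattice turned by `z` -/
noncomputable def tZ (z : ℂ) (Φ : CC.Gm → Fin 8 → ℝ) (y : CC.Gm) : Fin 8 → ℝ := Φ (rotX z⁻¹ y)

lemma wZ_meas (z : ℂ) {E : CC.Gm → ℝ} (hE : Measurable E) : Measurable (wZ z E) :=
  (hE.comp (rotX_cont z⁻¹).measurable).ennreal_ofReal

lemma tZ_meas (z : ℂ) {Φ : CC.Gm → Fin 8 → ℝ} (hΦ : ∀ k, Measurable fun y => Φ y k) : Measurable (tZ z Φ) :=
  (measurable_pi_iff.2 hΦ).comp (rotX_cont z⁻¹).measurable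

lemma rotX_one_inv (y : CC.Gm) : rotX (1 : ℂ)⁻¹ y = y := by
  unfold rotX
  rw [inv_one, one_smul]

lemma wZ_one (E : CC.Gm → ℝ) (y : CC.Gm) : wZ 1 E y = ENNReal.ofReal (E y) := by
  unfold wZ
  rw [rotX_one_inv]

lemma tZ_one (Φ : CC.Gm → Fin 8 → ℝ) (y : CC.Gm) : tZ 1 Φ y = Φ y := by
  unfold tZ
  rw [rotX_one_inv]

section lims

variable {V : Ultrafilter ℕ} {b : ℝ} {PG : Measure CC.Gm} (hC : Cv (V : Filter ℕ) (fun N => mwE N b) cN PG)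
  (hP : ∀ᵐ y ∂PG, 0 < y.2.1 ∧ y.2.1 < y.1) {z : ℂ} (hz : ‖z‖ = 1) (hPz : PG.map (rotX z) = PG)

include hC hz hPz

/-- the limit law of the data is finite -/
lemma fin_prm {e : ℕ → W3 × ℕ → ℝ} {E : CC.Gm → ℝ} (he : Lm (V : Filter ℕ) (fun N => mwE N b) cN PG e E) {Y : Type*}
    [MeasurableSpace Y] (f : CC.Gm → Y) : IsFiniteMeasure ((PG.withDensity (wZ z E)).map f) := by
  have := hC.fin'
  obtain ⟨C, hb⟩ := (lm_rot hz hPz he).bd'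
  have : IsFiniteMeasure (PG.withDensity (wZ z E)) := fin_wt (μ := PG) (lm_rot hz hPz he).ms' hb
  exact Measure.isFiniteMeasure_map _ f

include hP

/-- the limits of the laws of the data -/
theorem hlim_prm {D : Dt} {C C' : ℕ → Set (W3 × W3)} {RA RB : ℕ → Set W3} (kC : ∀ N, C N ⊆ D.C N (uT N))
    (kC' : ∀ N, C' N ⊆ D.C' N (uT N)) (kA : ∀ N, RA N ⊆ D.A N (uT N)) (kB : ∀ N, RB N ⊆ D.B N (uT N)) {E : CC.Gm → ℝ}
    (h0 : ∀ y, 0 ≤ E y) (he : Lm (V : Filter ℕ) (fun N => mwE N b) cN PG (fun N x => eW (C N) (C' N) (RA N) (RB N) x) E)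
    {Φ : CC.Gm → Fin 8 → ℝ}
    (h : ∀ k, Lm (V : Filter ℕ) (fun N => mwE N b) cN PG (fun N x => mkt D N (uT N) x k) fun y => Φ y k) :
    ∀ (f f' : K4 → ℝ) (u v : Pie → ℝ) (t : ℂ → ℝ), TF f → TF f' → TF u → TF v → TF t →
      Tendsto (fun N => ∫ x, f x.1.1 * f' x.1.2 * (u x.2.1 * (v x.2.2.1 * t x.2.2.2))
        ∂(rhoN N b (w1 (C N) (C' N) (RA N) (RB N)) (mdt z D N))) V
        (𝓝 (∫ x, f x.1.1 * f' x.1.2 * (u x.2.1 * (v x.2.2.1 * t x.2.2.2)) ∂((PG.withDensity (wZ z E)).map (dat (tZ z Φ))))) :=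
  hlim_cls hC hP hz hPz kC kC' kA kB h0 he h th8_cont (m := fun N => mdt z D N) fun _ _ _ _ => rfl

/-- **the lattice data of the classes at all pairs of levels** -/
theorem lev_prm (hV : (V : Filter ℕ) ≤ atTop) {D : ℕ → ℕ → Dt} {C C' : ℕ → ℕ → Set (W3 × W3)} {RA RB : ℕ → Set W3}
    {E E' : ℕ → ℕ → W3 × W3 → ℝ≥0∞} {F G : ℕ → W3 → ℝ≥0∞} {κ κ' : ℕ → ℕ → W3 × W3 → K4} {t : ℕ → ℝ}
    {tot tot' : ℕ → ℕ → ℝ≥0∞} {c B R c' B' : ℕ → ℝ} {bA bB : ℕ → FiniteMeasure Pie}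
    (H : ∀ i j, L3In (V : Filter ℕ) (D i j) b (C i) (C' j) RA RB (E i) (E' j) F G
      (fun N => w1 (C i N) (C' j N) (RA N) (RB N)) (fun N => mdt z (D i j) N) (κ i) (κ' j) z t (tot i) (tot' j) (c i) (B i) (R i)
      (c' j) (B' j) bA bB)
    {b1 b2 : FiniteMeasure Pie} (tA : Tendsto bA V (𝓝 b1)) (tB : Tendsto bB V (𝓝 b2)) (n1 : b1 ≠ 0) (n2 : b2 ≠ 0)
    {Ei : ℕ → ℕ → CC.Gm → ℝ} (h0 : ∀ i j y, 0 ≤ Ei i j y)
    (he : ∀ i j, Lm (V : Filter ℕ) (fun N => mwE N b) cN PG (fun N x => eW (C i N) (C' j N) (RA N) (RB N) x) (Ei i j))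
    {Φ : ℕ → ℕ → CC.Gm → Fin 8 → ℝ}
    (h : ∀ i j k, Lm (V : Filter ℕ) (fun N => mwE N b) cN PG (fun N x => mkt (D i j) N (uT N) x k) fun y => Φ i j y k)
    {X : Set (Pie × (Pie × ℂ))} (hX : IsOpen X) (hXs : ∀ p ∈ X, ∀ x y : unitInterval, p.1.1 x ≠ p.2.1.1 y + p.2.2) :
    LevIn V bA b1 bB b2 (fun N => lms (fv z (ne_of_norm hz)) (N : ℝ) 0)
      |LinearMap.det (fv z (ne_of_norm hz) : ℂ →ₗ[ℝ] ℂ)|⁻¹ yP yP (fun i => c i * B i) R (fun j => c' j * B' j)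
      (fun i => gN (C i) (E i) (κ i) (aP t) (fun N => (N : ℝ)) z)
      (fun j => gN (C' j) (E' j) (κ' j) (aQ t) (fun N => (N : ℝ)) z)
      (fun i j N => rhoN N b (w1 (C i N) (C' j N) (RA N) (RB N)) (mdt z (D i j) N))
      (fun i j => (PG.withDensity (wZ z (Ei i j))).map (dat (tZ z (Φ i j)))) X :=
  lev_of hV hz H tA tB n1 n2 (fun i j => fin_prm hC hz hPz (he i j) _) hX hXs fun i j e e' u s ω he1 he2 hu hs hω _ =>
    hlim_prm hC hP hz hPz (H i j).hC (H i j).hC' (H i j).hA (H i j).hB (h0 i j) (he i j) (h i j) e e' u s ω he1 he2 hu hs hω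

/-- **the first lattice** : the fields `fin`, `d0`, `hp` of `PairIn` -/
theorem zero_prm (hV : (V : Filter ℕ) ≤ atTop) {D : Dt} {C C' : ℕ → Set (W3 × W3)} {RA RB : ℕ → Set W3}
    {E E' : ℕ → W3 × W3 → ℝ≥0∞} {F G : ℕ → W3 → ℝ≥0∞} {κ κ' : ℕ → W3 × W3 → K4} {t : ℕ → ℝ}
    {tot tot' : ℕ → ℝ≥0∞} {c B R c' B' : ℝ} {bA bB : ℕ → FiniteMeasure Pie}
    (H : L3In (V : Filter ℕ) D b C C' RA RB E E' F G
      (fun N => w1 (C N) (C' N) (RA N) (RB N)) (fun N => mdt z D N) κ κ' z t tot tot' c B R c' B' bA bB)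
    {b1 b2 : FiniteMeasure Pie} (tA : Tendsto bA V (𝓝 b1)) (tB : Tendsto bB V (𝓝 b2)) (n1 : b1 ≠ 0) (n2 : b2 ≠ 0)
    {Ei : CC.Gm → ℝ} (h0 : ∀ y, 0 ≤ Ei y)
    (he : Lm (V : Filter ℕ) (fun N => mwE N b) cN PG (fun N x => eW (C N) (C' N) (RA N) (RB N) x) Ei)
    {Φ : CC.Gm → Fin 8 → ℝ}
    (h : ∀ k, Lm (V : Filter ℕ) (fun N => mwE N b) cN PG (fun N x => mkt D N (uT N) x k) fun y => Φ y k)
    {Z0 W0 : Set ℂ} (oZ : IsOpen Z0) (oW : IsOpen W0) {x0 c0 x1 c1 : ℝ} (hx0 : 0 < x0) (hc0 : 0 < c0) (hx1 : 0 < x1) (hc1 : 0 < c1)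
    (ht : ∀ᶠ N : ℕ in (V : Filter ℕ), c0 * t N ≤ (tot N).toReal)
    (hp : ∀ᶠ N : ℕ in (V : Filter ℕ), ∀ y ∈ EL, (((N : ℝ)⁻¹ : ℝ) : ℂ) * -(z * y) ∈ Z0 →
      ENNReal.ofReal (x0 / (N : ℝ) ^ 2) * tot N ≤ gam (C N) (E N) y)
    (ht' : ∀ᶠ N : ℕ in (V : Filter ℕ), c1 * (N : ℝ) ^ (7 / 6 : ℝ) ≤ t N * (tot' N).toReal)
    (hq : ∀ᶠ N : ℕ in (V : Filter ℕ), ∀ y ∈ EL, (((N : ℝ)⁻¹ : ℝ) : ℂ) * -(z * y) ∈ W0 →
      ENNReal.ofReal (x1 / (N : ℝ) ^ 2) * tot' N ≤ gam (C' N) (E' N) y) :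
    IsFiniteMeasure ((PG.withDensity (wZ z Ei)).map (dat (tZ z Φ))) ∧
    Den ((PG.withDensity (wZ z Ei)).map (dat (tZ z Φ))) ((b1 : Measure Pie).prod ((b2 : Measure Pie).prod volume))
      (DD Prod.fst Prod.fst yP yP Z0 W0) (zw yP yP) (fun _ => 1) ∧
    ((b1 : Measure Pie).prod ((b2 : Measure Pie).prod volume)).restrict (DD Prod.fst Prod.fst yP yP Z0 W0) ≪
      ((PG.withDensity (wZ z Ei)).map (dat (tZ z Φ))).map Prod.snd := by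
  have hf := fin_prm hC hz hPz he (dat (tZ z Φ))
  refine ⟨hf, ?_⟩
  exact zero_of hV H tA tB n1 n2 oZ oW (fun e e' u s ω he1 he2 hu hs hω _ =>
    hlim_prm hC hP hz hPz H.hC H.hC' H.hA H.hB h0 he h e e' u s ω he1 he2 hu hs hω) hx0 hc0 hx1 hc1 ht hp ht' hq

end lims

end Pool.Agent.ROT.F3.CK
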