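import Pool.Agent.ROT.F3K3B
import Pool.Agent.ROT.F3LevD

/-!
# ROT, F3, row K3, third part (helper2): constant and functional levels

The thresholds `y N x` of the rotated lattice may depend on the word. Neither the statistic `clsF` nor the balls see `y`.
* `GInF` : the input from the gates;
* **`lvf_ev`** : the indicator of the class `Lv D .. (y N x)` has the limit `k3S D B Φ`;
* **`lvo_all`** : the structure `LvO` of F3LevD (indicator, eight times, four levels);
* `lvo_and` : a further condition with a statistic; **`lvo_man`** : main arcs;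
* **`lvo_mem`** : closed consequences, with the limits of the thresholds; **`lvo_K`** : the gates, `lvo_F` : the soft conditions.
-/

set_option autoImplicit false

namespace Pool.Agent.ROT.F3.CK

open MeasureTheory Filter Topology Set unitInterval

open scoped NNReal ENNReal Classical

open Pool.Agent.ROT.F3 Pool.Agent.ROT.F3.LF

/-! ### 1. Words -/

section word

variable {D : Dt} {S T : ℝ} {x : W3 × ℕ} {v : Fin 8 → ℕ} {y : Fin 4 → ℝ}

/-- the soft part does not see the thresholds -/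
lemma decS_th : DecS (D.th y) S T x v ↔ DecS D S T x v := by
  have key : ∀ {d : ℂ} {P : Tp} {a b : ℝ} {p : W3} {k : ℕ}, PreS d (P.up a) S T p k → PreS d (P.up b) S T p k :=
    fun h => ⟨h.e, h.s, h.la, h.lb⟩
  constructor
  · intro h
    exact ⟨⟨key h.p.p1, key h.p.p2, h.p.w2, h.p.w1⟩, ⟨key h.q.p1, key h.q.p2, h.q.w2, h.q.w1⟩, h.A, h.B⟩
  · intro h
    exact ⟨⟨key h.p.p1, key h.p.p2, h.p.w2, h.p.w1⟩, ⟨key h.q.p1, key h.q.p2, h.q.w2, h.q.w1⟩, h.A, h.B⟩

/-- **the class from the gates** -/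
theorem lv_gate (hD : D.Ok) (hS : 0 < S) (hy : ∀ s, 0 ≤ y s) {A : Prop}
    (dic : ∀ v', Far D S x v' → (DecG (D.th y) S x v' ↔ A ∧ v' = v ∧ BaG D S x v')) :
    (x ∈ Lv D (D.A S T) (D.B S T) S T y ↔ A ∧ BaG D S x v ∧ DecS D S T x v) ∧
      (x ∈ Lv D (D.A S T) (D.B S T) S T y → mkc (D.th y) S T x = v) := by
  have ok := hD.th hy
  have key : x ∈ Lv D (D.A S T) (D.B S T) S T y → A ∧ mkc (D.th y) S T x = v ∧ BaG D S x v ∧ DecS D S T x v := by
    intro h
    obtain ⟨g1, g2⟩ := dec_mkc (T := T) ok hS h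
    have g3 := decS_th.1 g2
    obtain ⟨q1, q2, q3⟩ := (dic _ ⟨g3.A.far, g3.B.far⟩).1 g1
    rw [q2] at q3 g3
    exact ⟨q1, q2, q3, g3⟩
  refine ⟨⟨fun h => ⟨(key h).1, (key h).2.2.1, (key h).2.2.2⟩, ?_⟩, fun h => (key h).2.1⟩
  rintro ⟨q1, q3, q4⟩
  have g1 := (dic v ⟨q4.A.far, q4.B.far⟩).2 ⟨q1, rfl, q3⟩
  exact (g1.dec (decS_th.2 q4)).inC

end word

/-! ### 2. The limits -/

/-- **the input from the gates, functional thresholds** -/
structure GInF (U : Filter ℕ) (b : ℝ) (PG : Measure CC.Gm) (D : Dt) (y : ℕ → W3 × ℕ → Fin 4 → ℝ) (A : ℕ → W3 × ℕ → Prop)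
    (v : ℕ → W3 × ℕ → Fin 8 → ℕ) (B : Set CC.Gm) (Φ : CC.Gm → Fin 8 → ℝ) : Prop where
  /-- the event `all gates exist` has a limit -/
  ev : Ev U (fun N => mwE N b) cN PG A B
  /-- the relative times of the gates have limits -/
  tm : ∀ k, Lm U (fun N => mwE N b) cN PG (fun N x => bi (A N x) * ((v N x k : ℝ) / x.1.length)) fun y => Φ y k
  /-- the gates are in their strands -/
  pos : ∀ᶠ N in U, ∀ x, Spt x → A N x → PosG x (v N x)
  /-- the thresholds -/
  y0 : ∀ᶠ N in U, ∀ x, Spt x → ∀ s, 0 ≤ y N x s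
  /-- the dictionary -/
  dic : ∀ᶠ N : ℕ in U, ∀ x, Spt x → ∀ v', Far D N x v' →
    (DecG (D.th (y N x)) N x v' ↔ A N x ∧ v' = v N x ∧ BaG D N x v')

/-- constant thresholds -/
lemma GIn.f {U : Filter ℕ} {b : ℝ} {PG : Measure CC.Gm} {D : Dt} {y : Fin 4 → ℝ} {A : ℕ → W3 × ℕ → Prop}
    {v : ℕ → W3 × ℕ → Fin 8 → ℕ} {B : Set CC.Gm} {Φ : CC.Gm → Fin 8 → ℝ} (hy : ∀ s, 0 ≤ y s)
    (G : GIn U b PG (D.th y) A v B Φ) : GInF U b PG D (fun _ _ => y) A v B Φ := by
  refine ⟨G.ev, G.tm, G.pos, Eventually.of_forall fun _ _ _ => hy, ?_⟩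
  filter_upwards [G.dic] with N hN x hx v' hv
  rw [hN x hx v' hv]
  constructor
  · rintro ⟨h1, h2, h3⟩
    exact ⟨h1, h2, ⟨h3.o1, h3.o2, h3.b1, h3.b2, h3.b3, h3.b4⟩⟩
  · rintro ⟨h1, h2, h3⟩
    exact ⟨h1, h2, ⟨h3.o1, h3.o2, h3.b1, h3.b2, h3.b3, h3.b4⟩⟩

/-- the levels of the gates `c` over the roots, read from the curve -/
noncomputable def levF (D : Dt) (g : C(I, ℂ)) (m : I) (u : Fin 8 → I) : Fin 4 → ℝ :=
  ![lv D.d (cutc g 0 (u 0) 1), lv D.d' (cutc g 1 (u 7) 1), lv D.t (cutc g m (u 3) 1), lv D.t' (cutc g m (u 4) 1)]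

/-- the same, cut off at the radii of the balls -/
noncomputable def levT (D : Dt) (g : C(I, ℂ)) (m : I) (u : Fin 8 → I) (s : Fin 4) : ℝ :=
  max (-(D.P.r + D.Q.r)) (min (D.P.r + D.Q.r) (levF D g m u s))

/-- **the limit levels of the gates `c`** -/
noncomputable def lamF (D : Dt) (Φ : CC.Gm → Fin 8 → ℝ) (y : CC.Gm) (s : Fin 4) : ℝ :=
  levT D y.2.2 (pji (muG y)) (fun k => pji (Φ y k)) s

section lim

variable {U : Filter ℕ} {b : ℝ} {PG : Measure CC.Gm} {D : Dt} {y : ℕ → W3 × ℕ → Fin 4 → ℝ} {A : ℕ → W3 × ℕ → Prop}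
  {v : ℕ → W3 × ℕ → Fin 8 → ℕ} {B : Set CC.Gm} {Φ : CC.Gm → Fin 8 → ℝ}

lemma levT_cont (hD : D.Ok) (s : Fin 4) : Continuous fun z : C(I, ℂ) × I × (Fin 8 → I) => levT D z.1 z.2.1 z.2.2 s := by
  have hu : ∀ k : Fin 8, Continuous fun z : C(I, ℂ) × I × (Fin 8 → I) => z.2.2 k := fun k => by fun_prop
  have hm : Continuous fun z : C(I, ℂ) × I × (Fin 8 → I) => z.2.1 := by fun_prop
  have hg : Continuous fun z : C(I, ℂ) × I × (Fin 8 → I) => z.1 := by fun_prop
  have key : Continuous fun z : C(I, ℂ) × I × (Fin 8 → I) => levF D z.1 z.2.1 z.2.2 s := by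
    fin_cases s
    · exact (lv_continuous hD.d).comp (Continuous.cutc1 hg continuous_const (hu 0))
    · exact (lv_continuous hD.d').comp (Continuous.cutc1 hg continuous_const (hu 7))
    · exact (lv_continuous hD.t).comp (Continuous.cutc1 hg hm (hu 3))
    · exact (lv_continuous hD.t').comp (Continuous.cutc1 hg hm (hu 4))
  exact continuous_const.max (continuous_const.min key)

/-- the levels on the words -/
lemma levT_word (hD : D.Ok) {S : ℝ} (hS : 0 < S) {x : W3 × ℕ} {v : Fin 8 → ℕ} (hp : PosG x v) (hn : 1 ≤ x.1.length)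
    (hB : BaG D S x v) (s : Fin 4) :
    levT D (crv x.1 x.1.length S) (fr x.2 x.1.length) (fun k => fr (v k) x.1.length) s * S =
      (![lv D.d (ps x.1 (v 0)), lv D.d' (ps x.1 (v 7) - ps x.1 x.1.length), lv D.t (ps x.1 (v 3) - ps x.1 x.2),
        lv D.t' (ps x.1 (v 4) - ps x.1 x.2)] : Fin 4 → ℝ) s := by
  have h01 := hp.h01
  have h1 := hp.h1
  have h23 := hp.h23
  have h3 := hp.h3
  have h4 := hp.h4
  have h45 := hp.h45
  have h5 := hp.h5
  have h67 := hp.h67
  have h7 := hp.h7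
  have ml := hp.ml
  have hPr := hD.P.r
  have hQr := hD.Q.r
  -- one strand
  have key : ∀ {d : ℂ} {i j : ℕ} {r : ℝ}, ‖d‖ = 1 → Even i → Even j → i ≤ x.1.length → j ≤ x.1.length → r ≤ D.P.r + D.Q.r →
      (∀ k : ℕ, k ≤ (pcw x.1 i j).length → ‖ps (pcw x.1 i j) k‖ ≤ r * S) →
      max (-(D.P.r + D.Q.r)) (min (D.P.r + D.Q.r)
        (lv d (cutc (crv x.1 x.1.length S) (fr i x.1.length) (fr j x.1.length) 1))) * S =
        lv d (ps x.1 j - ps x.1 i) := by
    intro d i j r hd ei ej hi hj hr hb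
    have e1 : cutc (crv x.1 x.1.length S) (fr i x.1.length) (fr j x.1.length) 1 = (ps x.1 j - ps x.1 i) / S := by
      rw [cutc_one, crv_fr x.1 hi, crv_fr x.1 hj, sub_div]
    have e2 := en_pcw (S := S) ei ej hi hj (le_refl x.1.length)
    rw [e1] at e2
    have hS' : (S : ℂ) ≠ 0 := by exact_mod_cast hS.ne'
    have e3 : en (pcw x.1 i j) = ps x.1 j - ps x.1 i := by
      have := congrArg (· * (S : ℂ)) e2
      simp only [div_mul_cancel₀ _ hS'] at this
      exact this.symm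
    have e4 : ‖ps x.1 j - ps x.1 i‖ ≤ r * S := by
      rw [← e3]
      exact hb _ le_rfl
    rw [e1, stlv_div]
    have e5 : |lv d (ps x.1 j - ps x.1 i)| ≤ r * S := by
      refine le_trans ?_ e4
      have := (lv_lip hd).dist_le_mul (ps x.1 j - ps x.1 i) 0
      rw [NNReal.coe_one, one_mul, Real.dist_eq, dist_zero_right] at this
      have h0 : lv d 0 = 0 := by simp [lv]
      rwa [h0, sub_zero] at this
    obtain ⟨a1, a2⟩ := abs_le.1 e5
    have a3 : lv d (ps x.1 j - ps x.1 i) / S ≤ D.P.r + D.Q.r := by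
      rw [div_le_iff₀ hS]
      exact a2.trans (mul_le_mul_of_nonneg_right hr hS.le)
    have a4 : -(D.P.r + D.Q.r) ≤ lv d (ps x.1 j - ps x.1 i) / S := by
      rw [le_div_iff₀ hS]
      have := mul_le_mul_of_nonneg_right hr hS.le
      linarith
    rw [min_eq_right a3, max_eq_right a4, div_mul_cancel₀ _ hS.ne']
  unfold levT levF
  fin_cases s
  · have := key hD.d Even.zero (hp.ev 0) (Nat.zero_le _) (by omega) (by linarith) hB.b1.1
    rw [fr_zero, ps_zero, sub_zero] at this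
    exact this
  · have := key hD.d' hp.el (hp.ev 7) le_rfl h7 (by linarith) hB.b2.1
    rw [fr_self hn] at this
    exact this
  · exact key hD.t hp.em (hp.ev 3) ml (by omega) (by linarith) hB.b3.1
  · exact key hD.t' hp.em (hp.ev 4) ml (by omega) (by linarith) hB.b4.1

/-- the marks of the gates as points of the curve -/
private lemma mkA_fr {N : ℕ} {x : W3 × ℕ} (hA : A N x) (hp : PosG x (v N x)) (k : Option (Fin 8)) :
    mkA A v N x k = ((fr (k.elim x.2 fun j => v N x j) x.1.length : I) : ℝ) := by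
  cases k with
  | none => rfl
  | some j =>
    show bi (A N x) * ((v N x j : ℝ) / x.1.length) = ((fr (v N x j) x.1.length : I) : ℝ)
    have hle : v N x j ≤ x.1.length := by
      have a1 := hp.h1
      have a01 := hp.h01
      have a3 := hp.h3
      have a23 := hp.h23
      have a45 := hp.h45
      have a5 := hp.h5
      have a67 := hp.h67
      have a7 := hp.h7
      have al := hp.ml
      fin_cases j
      all_goals (simp only [Fin.zero_eta, Fin.mk_one, Fin.reduceFinMk]; omega)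
    rw [bi_pos hA, one_mul, fr_coe hle]

private lemma mkA_lmF (hC : Cv U (fun N => mwE N b) cN PG) (hP : ∀ᵐ y ∂PG, 0 < y.1) (G : GInF U b PG D y A v B Φ)
    (k : Option (Fin 8)) : Lm U (fun N => mwE N b) cN PG (fun N x => mkA A v N x k) fun y => mkL Φ y k := by
  cases k with
  | none => exact lm_mu hC hP
  | some j => exact G.tm j

/-- **the indicator of the class with functional thresholds** -/
theorem lvf_ev (hU : U ≤ atTop) (hC : Cv U (fun N => mwE N b) cN PG) (hP : ∀ᵐ y ∂PG, 0 < y.1) (hD : D.Ok)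
    (G : GInF U b PG D y A v B Φ)
    (h0 : PG {y | y ∈ B ∧ clsF D y.2.2 y.1 (pji (muG y)) (fun k => pji (Φ y k)) = 0} = 0) :
    Ev U (fun N => mwE N b) cN PG (fun N x => x ∈ Lv D (D.A N (uT N)) (D.B N (uT N)) N (uT N) (y N x)) (k3S D B Φ) := by
  obtain ⟨E, hE⟩ : ∃ E : ℕ → W3 × ℕ → Prop, E = fun N x => A N x ∧ Spt x ∧ PosG x (v N x) := ⟨_, rfl⟩
  have e1 : Ev U (fun N => mwE N b) cN PG E B := by
    refine ev_spt hC G.ev ?_
    filter_upwards [G.pos] with N hN x hx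
    rw [hE]
    exact ⟨fun h => h.1, fun h => ⟨h, hx, hN x hx h⟩⟩
  have e2 := soft_ev (κ := Option (Fin 8)) (p := mkA A v) (Φ := mkL Φ) (E := E) (A := fun N x => BaG D N x (v N x) ∧
    DecS D N (uT N) x (v N x)) (K := fun k N x => k.elim x.2 fun j => v N x j)
    (F := fun g L u => max (clsF D g L (u none) fun k => u (some k)) (ordF fun k => u (some k))) hC (wsy hU) (mkA_lmF hC hP G) e1
    (fun N x hx k => by
      rw [hE] at hx
      exact mkA_fr hx.1 hx.2.2 k)
    (by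
      have c1 : Continuous fun z : C(I, ℂ) × ℝ × (Option (Fin 8) → I) =>
          clsF D z.1 z.2.1 (z.2.2 none) fun k => z.2.2 (some k) := clsF_cont hD (by fun_prop) (by fun_prop) (by fun_prop)
        fun k => by fun_prop
      have c2 : Continuous fun z : C(I, ℂ) × ℝ × (Option (Fin 8) → I) => ordF fun k => z.2.2 (some k) := by
        unfold ordF
        have key : ∀ k : Option (Fin 8), Continuous fun z : C(I, ℂ) × ℝ × (Option (Fin 8) → I) => ((z.2.2 k : I) : ℝ) :=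
          fun k => continuous_subtype_val.comp ((continuous_apply k).comp (continuous_snd.comp continuous_snd))
        exact ((key _).sub (key _)).max ((key _).sub (key _))
      exact c1.max c2)
    (by
      filter_upwards [(wsy hU).hT, hU (eventually_ge_atTop 1)] with N hT hN x hx
      rw [hE] at hx
      obtain ⟨h1, ⟨_, _, h2⟩, h3⟩ := hx
      have hN' : (0 : ℝ) < N := by exact_mod_cast hN
      exact cls_sq hD hN' hT h3 (by omega))
    (by
      refine measure_mono_null (fun y hy => ?_) h0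
      obtain ⟨h1, h2⟩ := hy
      refine ⟨h1, ?_⟩
      rcases max_choice (clsF D y.2.2 y.1 (pji (muG y)) fun k => pji (Φ y k)) (ordF fun k => pji (Φ y k)) with h3 | h3
      · rw [← h3]
        exact h2
      · exfalso
        have h4 : clsF D y.2.2 y.1 (pji (muG y)) (fun k => pji (Φ y k)) ≤ 0 := (le_max_left _ _).trans_eq h2
        exact ord_ne hD h4 (by rw [← h3]; exact h2))
  refine ev_spt hC (B := k3S D B Φ) e2 ?_
  filter_upwards [G.dic, G.pos, G.y0, hU (eventually_ge_atTop 1)] with N hd hp hy hN x hx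
  have hN' : (0 : ℝ) < N := by exact_mod_cast hN
  rw [(lv_gate (T := uT N) hD hN' (hy x hx) (hd x hx)).1, hE]
  exact ⟨fun h => ⟨⟨h.1, hx, hp x hx h.1⟩, h.2⟩, fun h => ⟨h.1.1, h.2⟩⟩

/-- **the limit of the class: indicator, times, levels** -/
theorem lvo_all (hU : U ≤ atTop) (hC : Cv U (fun N => mwE N b) cN PG) (hP : ∀ᵐ y ∂PG, 0 < y.1) (hD : D.Ok)
    (G : GInF U b PG D y A v B Φ)
    (h0 : PG {y | y ∈ B ∧ clsF D y.2.2 y.1 (pji (muG y)) (fun k => pji (Φ y k)) = 0} = 0) :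
    LvO U (fun N => mwE N b) cN PG D (fun N => D.A N (uT N)) (fun N => D.B N (uT N)) y (fun g => bi (g ∈ k3S D B Φ)) Φ
      (lamF D Φ) := by
  have hmk : ∀ᶠ N : ℕ in U, ∀ x, Spt x → x ∈ Lv D (D.A N (uT N)) (D.B N (uT N)) N (uT N) (y N x) →
      A N x ∧ PosG x (v N x) ∧ BaG D N x (v N x) ∧ mkc (D.th (y N x)) N (uT N) x = v N x := by
    filter_upwards [G.dic, G.pos, G.y0, hU (eventually_ge_atTop 1)] with N hd hp hy hN x hx h
    have hN' : (0 : ℝ) < N := by exact_mod_cast hN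
    have h1 := lv_gate (T := uT N) hD hN' (hy x hx) (hd x hx)
    obtain ⟨a1, a2, -⟩ := h1.1.1 h
    exact ⟨a1, hp x hx a1, a2, h1.2 h⟩
  refine ⟨lvf_ev hU hC hP hD G h0, fun g => bi_nonneg _, ⟨fun N x k => bi (A N x) * ((v N x k : ℝ) / x.1.length), G.tm, ?_⟩,
    ⟨fun N x s => levT D (crv x.1 x.1.length N) (pji (mkA A v N x none)) (fun k => pji (mkA A v N x (some k))) s, fun s => ?_, ?_⟩⟩
  · filter_upwards [hmk] with N hN
    filter_upwards [spt_ae N b] with x hx h k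
    obtain ⟨a1, a2, a3, a4⟩ := hN x hx h
    rw [bi_pos a1, one_mul]
    unfold mkt
    rw [a4]
  · -- the levels as a functional
    have hc : Continuous fun z : CC.Gm × (Option (Fin 8) → ℝ) =>
        levT D z.1.2.2 (pji (z.2 none)) (fun k => pji (z.2 (some k))) s := by
      have h1 : Continuous fun z : CC.Gm × (Option (Fin 8) → ℝ) => (z.1.2.2, pji (z.2 none), fun k : Fin 8 => pji (z.2 (some k))) :=
        (by fun_prop : Continuous fun z : CC.Gm × (Option (Fin 8) → ℝ) => z.1.2.2).prodMk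
          ((pji_cont.comp ((continuous_apply none).comp continuous_snd)).prodMk
            (continuous_pi fun k => pji_cont.comp ((continuous_apply (some k)).comp continuous_snd)))
      exact (levT_cont hD s).comp h1
    have hPr := hD.P.r
    have hQr := hD.Q.r
    refine Lm.comp hC (mkA_lmF hC hP G) (F := fun z : CC.Gm × (Option (Fin 8) → ℝ) =>
      levT D z.1.2.2 (pji (z.2 none)) (fun k => pji (z.2 (some k))) s) hc (B := D.P.r + D.Q.r) fun z => ?_
    unfold levT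
    rw [abs_le]
    exact ⟨le_max_left _ _, max_le (by linarith) (min_le_left _ _)⟩
  · filter_upwards [hmk, hU (eventually_ge_atTop 1)] with N hN hN1
    have hN' : (0 : ℝ) < N := by exact_mod_cast hN1
    filter_upwards [spt_ae N b] with x hx h s
    obtain ⟨a1, a2, a3, a4⟩ := hN x hx h
    have hn : 1 ≤ x.1.length := by
      have := hx.2.2
      omega
    have e1 : ∀ k : Option (Fin 8), pji (mkA A v N x k) = fr (k.elim x.2 fun j => v N x j) x.1.length := fun k => by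
      rw [mkA_fr a1 a2 k, pji_coe]
    have e2 := levT_word hD hN' a2 hn a3 s
    show levT D (crv x.1 x.1.length N) (pji (mkA A v N x none)) (fun k => pji (mkA A v N x (some k))) s * N = _
    rw [e1 none]
    have e3 : (fun k : Fin 8 => pji (mkA A v N x (some k))) = fun k => fr (v N x k) x.1.length := funext fun k => e1 (some k)
    rw [e3]
    refine e2.trans ?_
    unfold glv
    rw [a4]
    rfl

end lim

/-! ### 3. Further conditions and closed consequences -/

section cons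

variable {U : Filter ℕ} {b : ℝ} {PG : Measure CC.Gm} {D : Dt} {y : ℕ → W3 × ℕ → Fin 4 → ℝ} {RA RB : ℕ → Set W3}
  {S0 : Set CC.Gm} {Φ : CC.Gm → Fin 8 → ℝ} {Λ : CC.Gm → Fin 4 → ℝ}

lemma iL_bi (D : Dt) (RA RB : ℕ → Set W3) (y : ℕ → W3 × ℕ → Fin 4 → ℝ) (N : ℕ) (x : W3 × ℕ) :
    iL D RA RB y N x = bi (x ∈ Lv D (RA N) (RB N) N (uT N) (y N x)) := by
  unfold iL
  exact (bi_eq _).symm

/-- events which agree almost everywhere -/
lemma ev_ae {A A' : ℕ → W3 × ℕ → Prop} {B : Set CC.Gm} (hC : Cv U (fun N => mwE N b) cN PG)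
    (h : Ev U (fun N => mwE N b) cN PG A B) (he : ∀ᶠ N in U, ∀ᵐ x ∂(mwE N b), (A' N x ↔ A N x)) :
    Ev U (fun N => mwE N b) cN PG A' B := by
  refine h.close hC (fun i => MeasurableSet.of_discrete) fun δ hδ => ?_
  filter_upwards [he] with N hN
  refine ⟨{x | ¬ (A' N x ↔ A N x)}, MeasurableSet.of_discrete, ?_, fun x hx => not_not.1 hx⟩
  have h1 : mwE N b {x | ¬ (A' N x ↔ A N x)} = 0 := hN
  rw [measureReal_def, h1]
  exact hδ.le

/-- the event of the class -/
lemma LvO.ev (H : LvO U (fun N => mwE N b) cN PG D RA RB y (fun g => bi (g ∈ S0)) Φ Λ) :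
    Ev U (fun N => mwE N b) cN PG (fun N x => x ∈ Lv D (RA N) (RB N) N (uT N) (y N x)) S0 := by
  have h := H.e
  have e : (iL D RA RB y) = fun N x => bi (x ∈ Lv D (RA N) (RB N) N (uT N) (y N x)) := by
    funext N x
    exact iL_bi D RA RB y N x
  rw [e] at h
  exact h

/-- the marks with the second root -/
private lemma tk_lm {t : ℕ → W3 × ℕ → Fin 8 → ℝ} (hC : Cv U (fun N => mwE N b) cN PG) (hP : ∀ᵐ y ∂PG, 0 < y.1)
    (ht : ∀ k, Lm U (fun N => mwE N b) cN PG (fun N x => t N x k) fun g => Φ g k) (k : Option (Fin 8)) :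
    Lm U (fun N => mwE N b) cN PG (fun N x => k.elim (muN x) fun j => t N x j) fun g => mkL Φ g k := by
  cases k with
  | none => exact lm_mu hC hP
  | some j => exact ht j

/-- the marks are points of the curve -/
private lemma tk_fr {N : ℕ} {x : W3 × ℕ} {t : Fin 8 → ℝ} {D' : Dt} (ht : ∀ k, t k = mkt D' N (uT N) x k) (k : Option (Fin 8)) :
    (k.elim (muN x) fun j => t j) = ((fr (k.elim x.2 fun j => mkc D' N (uT N) x j) x.1.length : I) : ℝ) := by
  cases k with
  | none => rfl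
  | some j =>
    show t j = ((fr (mkc D' N (uT N) x j) x.1.length : I) : ℝ)
    rw [ht j, fr_coe (mkc_len D' N (uT N) x j)]
    rfl

/-- **a further condition with a statistic** -/
theorem lvo_and (hU : U ≤ atTop) (hC : Cv U (fun N => mwE N b) cN PG) (hP : ∀ᵐ y ∂PG, 0 < y.1)
    (H : LvO U (fun N => mwE N b) cN PG D RA RB y (fun g => bi (g ∈ S0)) Φ Λ) {C : ℕ → W3 × ℕ → Prop}
    {F : C(I, ℂ) → ℝ → I → (Fin 8 → I) → ℝ}
    (hF : Continuous fun z : C(I, ℂ) × ℝ × (Option (Fin 8) → I) => F z.1 z.2.1 (z.2.2 none) fun k => z.2.2 (some k))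
    (hA : ∀ᶠ N : ℕ in U, ∀ x, Spt x → x ∈ Lv D (RA N) (RB N) N (uT N) (y N x) →
      Sqz (C N x) (F (crv x.1 x.1.length N) (x.1.length / uT N) (fr x.2 x.1.length)
        fun k => fr (mkc (D.th (y N x)) N (uT N) x k) x.1.length) (3 / N))
    (h0 : PG {y | y ∈ S0 ∧ F y.2.2 y.1 (pji (muG y)) (fun k => pji (Φ y k)) = 0} = 0) :
    Ev U (fun N => mwE N b) cN PG (fun N x => x ∈ Lv D (RA N) (RB N) N (uT N) (y N x) ∧ C N x)
      (S0 ∩ {y | F y.2.2 y.1 (pji (muG y)) (fun k => pji (Φ y k)) ≤ 0}) := by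
  obtain ⟨t, t1, t2⟩ := H.T
  obtain ⟨E, hE⟩ : ∃ E : ℕ → W3 × ℕ → Prop, E = fun N x => x ∈ Lv D (RA N) (RB N) N (uT N) (y N x) ∧ Spt x ∧
    ∀ k, t N x k = mkt (D.th (y N x)) N (uT N) x k := ⟨_, rfl⟩
  have hae : ∀ᶠ N in U, ∀ᵐ x ∂(mwE N b), (E N x ↔ x ∈ Lv D (RA N) (RB N) N (uT N) (y N x)) := by
    filter_upwards [t2] with N hN
    filter_upwards [hN, spt_ae N b] with x h1 h2
    rw [hE]
    exact ⟨fun h => h.1, fun h => ⟨h, h2, h1 h⟩⟩
  have e1 : Ev U (fun N => mwE N b) cN PG E S0 := ev_ae hC H.ev hae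
  have e2 := soft_ev (κ := Option (Fin 8)) (p := fun N x k => k.elim (muN x) fun j => t N x j) (Φ := mkL Φ) (E := E) (A := C)
    (K := fun k N x => k.elim x.2 fun j => mkc (D.th (y N x)) N (uT N) x j)
    (F := fun g L u => F g L (u none) fun k => u (some k)) hC (wsy hU) (tk_lm hC hP t1) e1
    (fun N x hx k => by
      rw [hE] at hx
      exact tk_fr hx.2.2 k) hF (by
      filter_upwards [hA] with N hN x hx
      rw [hE] at hx
      exact hN x hx.2.1 hx.1) h0
  refine ev_ae hC e2 ?_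
  filter_upwards [hae] with N hN
  filter_upwards [hN] with x hx
  rw [hx]

/-- **closed consequences** -/
theorem lvo_mem0 [U.NeBot] (hU : U ≤ atTop) (hC : Cv U (fun N => mwE N b) cN PG) (hP : ∀ᵐ y ∂PG, 0 < y.1)
    (H : LvO U (fun N => mwE N b) cN PG D RA RB y (fun g => bi (g ∈ S0)) Φ Λ) {F : C(I, ℂ) → ℝ → I → (Fin 8 → I) → ℝ}
    (hF : Continuous fun z : C(I, ℂ) × ℝ × (Option (Fin 8) → I) => F z.1 z.2.1 (z.2.2 none) fun k => z.2.2 (some k))
    (hA : ∀ᶠ N : ℕ in U, ∀ x, Spt x → x ∈ Lv D (RA N) (RB N) N (uT N) (y N x) →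
      F (crv x.1 x.1.length N) (x.1.length / uT N) (fr x.2 x.1.length)
        (fun k => fr (mkc (D.th (y N x)) N (uT N) x k) x.1.length) ≤ 3 / N) :
    ∀ᵐ g ∂PG, g ∈ S0 → F g.2.2 g.1 (pji (muG g)) (fun k => pji (Φ g k)) ≤ 0 := by
  obtain ⟨t, t1, t2⟩ := H.T
  obtain ⟨E, hE⟩ : ∃ E : ℕ → W3 × ℕ → Prop, E = fun N x => x ∈ Lv D (RA N) (RB N) N (uT N) (y N x) ∧ Spt x ∧
    ∀ k, t N x k = mkt (D.th (y N x)) N (uT N) x k := ⟨_, rfl⟩
  have hae : ∀ᶠ N in U, ∀ᵐ x ∂(mwE N b), (E N x ↔ x ∈ Lv D (RA N) (RB N) N (uT N) (y N x)) := by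
    filter_upwards [t2] with N hN
    filter_upwards [hN, spt_ae N b] with x h1 h2
    rw [hE]
    exact ⟨fun h => h.1, fun h => ⟨h, h2, h1 h⟩⟩
  exact soft_mem (κ := Option (Fin 8)) (p := fun N x k => k.elim (muN x) fun j => t N x j) (Φ := mkL Φ) (E := E)
    (K := fun k N x => k.elim x.2 fun j => mkc (D.th (y N x)) N (uT N) x j)
    (F := fun g L u => F g L (u none) fun k => u (some k)) hC (wsy hU) (tk_lm hC hP t1) (ev_ae hC H.ev hae)
    (fun N x hx k => by
      rw [hE] at hx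
      exact tk_fr hx.2.2 k) hF (by
      filter_upwards [hA] with N hN x hx
      rw [hE] at hx
      exact hN x hx.2.1 hx.1)

/-- **closed consequences, with the thresholds** -/
theorem lvo_mem [U.NeBot] (hU : U ≤ atTop) (hC : Cv U (fun N => mwE N b) cN PG) (hP : ∀ᵐ y ∂PG, 0 < y.1)
    (H : LvO U (fun N => mwE N b) cN PG D RA RB y (fun g => bi (g ∈ S0)) Φ Λ) {Y : CC.Gm → Fin 4 → ℝ}
    (hy : ∀ s, Lm U (fun N => mwE N b) cN PG (fun N x => y N x s) fun g => Y g s)
    {F : C(I, ℂ) → ℝ → I → (Fin 8 → I) → (Fin 4 → ℝ) → ℝ}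
    (hF : Continuous fun z : (C(I, ℂ) × ℝ × (Option (Fin 8) → I)) × (Fin 4 → ℝ) =>
      F z.1.1 z.1.2.1 (z.1.2.2 none) (fun k => z.1.2.2 (some k)) z.2)
    (hA : ∀ᶠ N : ℕ in U, ∀ x, Spt x → x ∈ Lv D (RA N) (RB N) N (uT N) (y N x) →
      F (crv x.1 x.1.length N) (x.1.length / uT N) (fr x.2 x.1.length)
        (fun k => fr (mkc (D.th (y N x)) N (uT N) x k) x.1.length) (y N x) ≤ 3 / N) :
    ∀ᵐ g ∂PG, g ∈ S0 → F g.2.2 g.1 (pji (muG g)) (fun k => pji (Φ g k)) (Y g) ≤ 0 := by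
  obtain ⟨t, t1, t2⟩ := H.T
  have h1 := Ev.mem (κ := Option (Fin 8) ⊕ Fin 4) (p := fun N x k => Sum.elim (fun k => k.elim (muN x) fun j => t N x j)
    (fun s => y N x s) k) (Φ := fun g k => Sum.elim (fun k => mkL Φ g k) (fun s => Y g s) k) hC (fun k => by
      cases k with
      | inl k => exact tk_lm hC hP t1 k
      | inr s => exact hy s) H.ev
    (F := fun z => F z.1.2.2 z.1.1 (pji (z.2 (Sum.inl none))) (fun k => pji (z.2 (Sum.inl (some k)))) fun s => z.2 (Sum.inr s))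
    (by
      have h2 : Continuous fun z : CC.Gm × (Option (Fin 8) ⊕ Fin 4 → ℝ) =>
          ((z.1.2.2, z.1.1, fun k : Option (Fin 8) => pji (z.2 (Sum.inl k))), fun s : Fin 4 => z.2 (Sum.inr s)) :=
        ((by fun_prop : Continuous fun z : CC.Gm × (Option (Fin 8) ⊕ Fin 4 → ℝ) => z.1.2.2).prodMk
          ((by fun_prop : Continuous fun z : CC.Gm × (Option (Fin 8) ⊕ Fin 4 → ℝ) => z.1.1).prodMk
            (continuous_pi fun k => pji_cont.comp ((continuous_apply (Sum.inl k)).comp continuous_snd)))).prodMk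
          (continuous_pi fun s => (continuous_apply (Sum.inr s)).comp continuous_snd)
      exact hF.comp h2)
    (fun δ hδ => by
      filter_upwards [t2, hA, (wsy hU).small hδ] with N g1 g2 g3
      refine ⟨{x | ¬ (Spt x ∧ (x ∈ Lv D (RA N) (RB N) N (uT N) (y N x) → ∀ k, t N x k = mkt (D.th (y N x)) N (uT N) x k))},
        MeasurableSet.of_discrete, ?_, fun x hx hL => ?_⟩
      · have h3 : ∀ᵐ x ∂(mwE N b), Spt x ∧ (x ∈ Lv D (RA N) (RB N) N (uT N) (y N x) →
            ∀ k, t N x k = mkt (D.th (y N x)) N (uT N) x k) := by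
          filter_upwards [g1, spt_ae N b] with x a1 a2
          exact ⟨a2, a1⟩
        have h4 : mwE N b {x | ¬ (Spt x ∧ (x ∈ Lv D (RA N) (RB N) N (uT N) (y N x) →
            ∀ k, t N x k = mkt (D.th (y N x)) N (uT N) x k))} = 0 := h3
        rw [measureReal_def, h4]
        exact hδ.le
      · obtain ⟨a1, a2⟩ := not_not.1 hx
        have a3 := a2 hL
        have e1 : ∀ k : Option (Fin 8), pji (k.elim (muN x) fun j => t N x j) =
            fr (k.elim x.2 fun j => mkc (D.th (y N x)) N (uT N) x j) x.1.length := fun k => by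
          rw [tk_fr a3 k, pji_coe]
        have e3 : (fun k : Fin 8 => pji (t N x k)) = fun k => fr (mkc (D.th (y N x)) N (uT N) x k) x.1.length :=
          funext fun k => e1 (some k)
        refine le_trans (le_of_eq ?_) ((g2 x a1 hL).trans g3.2)
        show F (crv x.1 x.1.length N) (x.1.length / uT N) (pji (muN x)) (fun k : Fin 8 => pji (t N x k)) (fun s => y N x s) = _
        rw [e3]
        have e4 : pji (muN x) = fr x.2 x.1.length := e1 none
        rw [e4])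
  exact h1

lemma preK_contU {Z : Type*} [TopologicalSpace Z] {d : ℂ} {P : Tp} {g : Z → C(I, ℂ)} {a b c : Z → I} {y : Z → ℝ} (hd : ‖d‖ = 1)
    (hg : Continuous g) (ha : Continuous a) (hb : Continuous b) (hc : Continuous c) (hy : Continuous y) :
    Continuous fun z => preK d (P.up (y z)) (g z) (a z) (b z) (c z) := by
  unfold preK
  have h1 := (lv_continuous hd).comp (Continuous.cutc1 hg ha hb)
  have h2 := (lv_continuous hd).comp (Continuous.cutc1 hg hb hc)
  exact ((((continuous_const.add hy).sub h1).max ((Continuous.stS' (lv_lip hd) (Continuous.cutc' hg ha hb)).sub h1)).max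
    ((Continuous.stS' lip_norm (Continuous.cutc' hg ha hb)).sub continuous_const)).max
    (((continuous_const.sub h2).max ((Continuous.stS' (lv_lip hd) (Continuous.cutc' hg hb hc)).sub h2)).max
      ((Continuous.stS' (lvN_lip hd) (Continuous.cutc' hg hb hc)).max
        ((Continuous.stS' lip_norm (Continuous.cutc' hg hb hc)).sub continuous_const)))

/-- words of a class with thresholds are in the full class -/
lemma lv_full {D : Dt} {S T : ℝ} {A B : Set W3} {y : Fin 4 → ℝ} {x : W3 × ℕ} (hA : A ⊆ D.A S T) (hB : B ⊆ D.B S T)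
    (h : x ∈ Lv D A B S T y) :
    x ∈ InC ((D.th y).C S T) ((D.th y).C' S T) ((D.th y).A S T) ((D.th y).B S T) :=
  InC.mono (Subset.refl _) (Subset.refl _) hA hB h

/-- **the gates of the limit class** -/
theorem lvo_K [U.NeBot] (hU : U ≤ atTop) (hC : Cv U (fun N => mwE N b) cN PG) (hP : ∀ᵐ y ∂PG, 0 < y.1) (hD : D.Ok)
    (hA : ∀ᶠ N : ℕ in U, RA N ⊆ D.A N (uT N)) (hB : ∀ᶠ N : ℕ in U, RB N ⊆ D.B N (uT N))
    (H : LvO U (fun N => mwE N b) cN PG D RA RB y (fun g => bi (g ∈ S0)) Φ Λ) {Y : CC.Gm → Fin 4 → ℝ}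
    (y0 : ∀ᶠ N in U, ∀ x, Spt x → ∀ s, 0 ≤ y N x s)
    (hy : ∀ s, Lm U (fun N => mwE N b) cN PG (fun N x => y N x s) fun g => Y g s) :
    ∀ᵐ g ∂PG, g ∈ S0 → clsK (D.th (Y g)) g.2.2 (pji (muG g)) (fun k => pji (Φ g k)) ≤ 0 := by
  refine lvo_mem hU hC hP H hy (F := fun g _ m u y => clsK (D.th y) g m u) ?_ ?_
  · have hg : Continuous fun z : (C(I, ℂ) × ℝ × (Option (Fin 8) → I)) × (Fin 4 → ℝ) => z.1.1 := by fun_prop
    have hm : Continuous fun z : (C(I, ℂ) × ℝ × (Option (Fin 8) → I)) × (Fin 4 → ℝ) => z.1.2.2 none := by fun_prop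
    have hu : ∀ k : Fin 8, Continuous fun z : (C(I, ℂ) × ℝ × (Option (Fin 8) → I)) × (Fin 4 → ℝ) => z.1.2.2 (some k) :=
      fun k => by fun_prop
    have hs : ∀ s : Fin 4, Continuous fun z : (C(I, ℂ) × ℝ × (Option (Fin 8) → I)) × (Fin 4 → ℝ) => z.2 s :=
      fun s => by fun_prop
    exact (((preK_contU hD.d hg continuous_const (hu 0) (hu 1) (hs 0)).max
      (preK_contU hD.d' hg continuous_const (hu 7) (hu 6) (hs 1))).max
      ((preK_contU hD.t hg hm (hu 3) (hu 2) (hs 2)).max (preK_contU hD.t' hg hm (hu 4) (hu 5) (hs 3)))).max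
      (((Continuous.reK hD.d D.P.rg hg (hu 1) (hu 2)).max (Continuous.reK hD.t D.Q.rg hg (hu 2) (hu 1))).max
        ((Continuous.reK hD.d' D.P.rg hg (hu 6) (hu 5)).max (Continuous.reK hD.t' D.Q.rg hg (hu 5) (hu 6))))
  · filter_upwards [hU (eventually_ge_atTop 1), y0, hA, hB] with N hN h0 h1 h2 x hx hL
    have hN' : (0 : ℝ) < N := by exact_mod_cast hN
    have ok := hD.th (h0 x hx)
    have hn : 1 ≤ x.1.length := by
      have := hx.2.2
      omega
    refine (clsK_le ok hN' (dec_mkc ok hN' (lv_full h1 h2 hL)).1 hn).trans ?_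
    exact div_le_div_of_nonneg_right (by norm_num) hN'.le

/-- **the soft conditions of the limit class** -/
theorem lvo_F [U.NeBot] (hU : U ≤ atTop) (hC : Cv U (fun N => mwE N b) cN PG) (hP : ∀ᵐ y ∂PG, 0 < y.1) (hD : D.Ok)
    (hA : ∀ᶠ N : ℕ in U, RA N ⊆ D.A N (uT N)) (hB : ∀ᶠ N : ℕ in U, RB N ⊆ D.B N (uT N))
    (H : LvO U (fun N => mwE N b) cN PG D RA RB y (fun g => bi (g ∈ S0)) Φ Λ)
    (y0 : ∀ᶠ N in U, ∀ x, Spt x → ∀ s, 0 ≤ y N x s) :
    ∀ᵐ g ∂PG, g ∈ S0 → clsF D g.2.2 g.1 (pji (muG g)) (fun k => pji (Φ g k)) ≤ 0 := by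
  refine lvo_mem0 hU hC hP H (F := fun g L m u => clsF D g L m u) ?_ ?_
  · exact clsF_cont hD (by fun_prop) (by fun_prop) (by fun_prop) fun k => by fun_prop
  · filter_upwards [hU (eventually_ge_atTop 1), y0, hA, hB, (wsy hU).hT] with N hN h0 h1 h2 hT x hx hL
    have hN' : (0 : ℝ) < N := by exact_mod_cast hN
    have ok := hD.th (h0 x hx)
    have hn : 1 ≤ x.1.length := by
      have := hx.2.2
      omega
    obtain ⟨g1, g2⟩ := dec_mkc ok hN' (lv_full h1 h2 hL)
    exact (le_max_left _ _).trans ((cls_sq ok hN' hT g1.pos hn).dn ⟨g1.ba, g2⟩)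

/-- the event of a subclass with the same marks -/
theorem LvO.sub (H : LvO U (fun N => mwE N b) cN PG D RA RB y (fun g => bi (g ∈ S0)) Φ Λ) {RA' RB' : ℕ → Set W3}
    (hA : ∀ N, RA' N ⊆ RA N) (hB : ∀ N, RB' N ⊆ RB N) {S1 : Set CC.Gm}
    (h : Ev U (fun N => mwE N b) cN PG (fun N x => x ∈ Lv D (RA' N) (RB' N) N (uT N) (y N x)) S1) :
    LvO U (fun N => mwE N b) cN PG D RA' RB' y (fun g => bi (g ∈ S1)) Φ Λ := by
  have hs : ∀ N (x : W3 × ℕ), x ∈ Lv D (RA' N) (RB' N) N (uT N) (y N x) → x ∈ Lv D (RA N) (RB N) N (uT N) (y N x) :=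
    fun N x hx => InC.mono (Subset.refl _) (Subset.refl _) (hA N) (hB N) hx
  obtain ⟨t, t1, t2⟩ := H.T
  obtain ⟨Λ', l1, l2⟩ := H.Λ
  refine ⟨?_, fun g => bi_nonneg _, ⟨t, t1, ?_⟩, ⟨Λ', l1, ?_⟩⟩
  · have e : (iL D RA' RB' y) = fun N x => bi (x ∈ Lv D (RA' N) (RB' N) N (uT N) (y N x)) := by
      funext N x
      exact iL_bi D RA' RB' y N x
    rw [e]
    exact h
  · filter_upwards [t2] with N hN
    filter_upwards [hN] with x hx hL
    exact hx (hs N x hL)
  · filter_upwards [l2] with N hN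
    filter_upwards [hN] with x hx hL
    exact hx (hs N x hL)

/-- **the subclass with main arcs** -/
theorem lvo_man (hU : U ≤ atTop) (hC : Cv U (fun N => mwE N b) cN PG) (hP : ∀ᵐ y ∂PG, 0 < y.1) (hD : D.Ok)
    (H : LvO U (fun N => mwE N b) cN PG D (fun N => D.A N (uT N)) (fun N => D.B N (uT N)) y (fun g => bi (g ∈ S0)) Φ Λ)
    (y0 : ∀ᶠ N in U, ∀ x, Spt x → ∀ s, 0 ≤ y N x s) (s s' : Sr)
    (h0 : PG {y | y ∈ S0 ∧ max (nrF D.d s y.2.2 (pji (Φ y 1)) (pji (Φ y 2)))
      (nrF D.t s' y.2.2 (pji (Φ y 2)) (pji (Φ y 1))) = 0} = 0) :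
    LvO U (fun N => mwE N b) cN PG D (fun N => Man D.d D.t D.P D.Q D.V s s' N (uT N)) (fun N => D.B N (uT N)) y
      (fun g => bi (g ∈ S0 ∩ {y | max (nrF D.d s y.2.2 (pji (Φ y 1)) (pji (Φ y 2)))
        (nrF D.t s' y.2.2 (pji (Φ y 2)) (pji (Φ y 1))) ≤ 0})) Φ Λ := by
  refine H.sub (fun N R hR => hR.q) (fun N => Subset.refl _) ?_
  have e := lvo_and hU hC hP H (C := fun N x => NRt D.d s N (pcw x.1 (mkc (D.th (y N x)) N (uT N) x 1)
      (mkc (D.th (y N x)) N (uT N) x 2)) ∧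
    NRt D.t s' N (pcw x.1 (mkc (D.th (y N x)) N (uT N) x 2) (mkc (D.th (y N x)) N (uT N) x 1)))
    (F := fun g _ _ u => max (nrF D.d s g (u 1) (u 2)) (nrF D.t s' g (u 2) (u 1))) ?_ ?_ h0
  · refine ev_spt hC e ?_
    filter_upwards [hU (eventually_ge_atTop 1), y0] with N hN hy x hx
    exact man_iff (hD.th (hy x hx)) (show (0 : ℝ) < N by exact_mod_cast hN)
  · exact (Continuous.nrF s hD.d (by fun_prop) (by fun_prop) (by fun_prop)).max
      (Continuous.nrF s' hD.t (by fun_prop) (by fun_prop) (by fun_prop))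
  · filter_upwards [hU (eventually_ge_atTop 1), y0] with N hN hy x hs hx
    have hN' : (0 : ℝ) < N := by exact_mod_cast hN
    have ok := hD.th (hy x hs)
    have g := (dec_mkc ok hN' (lv_full (Subset.refl _) (Subset.refl _) hx)).1
    have k1 := g.h12
    have k2 := g.h23
    have k3 := g.h3m
    have k4 := hs.2.2
    have h2 : 2 / (N : ℝ) ≤ 3 / N := div_le_div_of_nonneg_right (by norm_num) hN'.le
    exact (nr_sq (w := x.1) (n := x.1.length) s hD.d (g.ev 1) (g.ev 2) (by omega) (by omega) le_rfl hN' h2).and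
      (nr_sq (w := x.1) (n := x.1.length) s' hD.t (g.ev 2) (g.ev 1) (by omega) (by omega) le_rfl hN' h2)

end cons

end Pool.Agent.ROT.F3.CK
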