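import Pool.Agent.ROT.F3K3S
import Pool.Agent.ROT.F3LevD

/-!
# ROT, F3, rows K3, K8 (helper4): the limits of the classes on the rotated lattice

* **`LvO.rot`** : the limit of a class (helper62) read in the frame turned by `z`;
* `lm_ae` : functionals which agree almost everywhere;
* **`LvO.he`**, **`LvO.hmk`** : the hypotheses `he`, `h` of `hlim_cls` (helper58) from `LvO` at constant thresholds;
* `DR_th` : the data of the rotated lattice at the level `y`.
-/

set_option autoImplicit false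
set_option linter.unusedSectionVars false

namespace Pool.Agent.ROT.F3.CK

open MeasureTheory Filter Topology Set

open scoped NNReal ENNReal Classical

open Pool.Agent.ROT.F3 Pool.Agent.ROT.F3.LF

/-- **the limit of a class in the frame turned by `z`** -/
theorem LvO.rot {U : Ultrafilter ℕ} {μ : ℕ → Measure (W3 × ℕ)} {P : Measure CC.Gm} {z : ℂ} (hz : ‖z‖ = 1)
    (hPz : P.map (rotX z) = P) {D : Dt} {RA RB : ℕ → Set W3} {y : ℕ → W3 × ℕ → Fin 4 → ℝ} {E : CC.Gm → ℝ}
    {Φ : CC.Gm → Fin 8 → ℝ} {Λ : CC.Gm → Fin 4 → ℝ} (H : LvO (U : Filter ℕ) μ cN P D RA RB y E Φ Λ) :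
    LvO (U : Filter ℕ) μ (fun N x => rotX z (cN N x)) P D RA RB y (fun g => E (rotX z⁻¹ g)) (fun g => Φ (rotX z⁻¹ g))
      fun g => Λ (rotX z⁻¹ g) where
  e := lm_rot hz hPz H.e
  e0 := fun g => H.e0 _
  T := by
    obtain ⟨t, h1, h2⟩ := H.T
    exact ⟨t, fun k => lm_rot hz hPz (h1 k), h2⟩
  Λ := by
    obtain ⟨t, h1, h2⟩ := H.Λ
    exact ⟨t, fun s => lm_rot hz hPz (h1 s), h2⟩

section gen

variable {U : Filter ℕ} {μ : ℕ → Measure (W3 × ℕ)} {X : Type*} [PseudoMetricSpace X] [MeasurableSpace X] [BorelSpace X]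
  [CompleteSpace X] [SecondCountableTopology X] {cc : ℕ → W3 × ℕ → X} {ν : Measure X}

/-- functionals which agree almost everywhere -/
lemma lm_ae {p p' : ℕ → W3 × ℕ → ℝ} {Ψ : X → ℝ} (hC : Cv U μ cc ν) (h : Lm U μ cc ν p Ψ)
    (hb : ∃ C : ℝ, ∀ i ω, |p' i ω| ≤ C) (he : ∀ᶠ N in U, ∀ᵐ x ∂(μ N), p' N x = p N x) : Lm U μ cc ν p' Ψ := by
  refine h.close hC (fun i => Measurable.of_discrete) hb fun δ hδ => ?_
  filter_upwards [he] with N hN
  refine ⟨{x | ¬ p' N x = p N x}, MeasurableSet.of_discrete, ?_, fun x hx => ?_⟩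
  · have h1 : μ N {x | ¬ p' N x = p N x} = 0 := hN
    rw [measureReal_def, h1]
    exact hδ.le
  · rw [not_not.1 hx, sub_self, abs_zero]
    exact hδ.le

variable {D : Dt} {RA RB : ℕ → Set W3} {y : Fin 4 → ℝ} {E : X → ℝ} {Φ : X → Fin 8 → ℝ} {Λ : X → Fin 4 → ℝ}

/-- **the hypothesis `he`** of `hlim_cls` -/
theorem LvO.he (H : LvO U μ cc ν D RA RB (fun _ _ => y) E Φ Λ) :
    Lm U μ cc ν (fun N x => eW ((D.th y).C N (uT N)) ((D.th y).C' N (uT N)) (RA N) (RB N) x) E := H.e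

/-- **the hypothesis `h`** of `hlim_cls`: the marks of the full class (`0` outside) -/
theorem LvO.hmk (hC : Cv U μ cc ν)
    (H : LvO U μ cc ν D (fun N => D.A N (uT N)) (fun N => D.B N (uT N)) (fun _ _ => y) E Φ Λ) (k : Fin 8) :
    Lm U μ cc ν (fun N x => mkt (D.th y) N (uT N) x k) fun g => E g * Φ g k := by
  obtain ⟨t, h1, h2⟩ := H.T
  refine lm_ae hC (Lm.mul hC H.e (h1 k)) ⟨1, fun N x => ?_⟩ ?_
  · unfold mkt
    rw [abs_of_nonneg (by positivity)]
    rcases Nat.eq_zero_or_pos x.1.length with h3 | h3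
    · rw [h3, Nat.cast_zero, div_zero]
      exact zero_le_one
    · rw [div_le_one (by exact_mod_cast h3)]
      exact_mod_cast mkc_len (D.th y) N (uT N) x k
  · filter_upwards [h2] with N hN
    filter_upwards [hN] with x hx
    show mkt (D.th y) N (uT N) x k = iL D (fun N => D.A N (uT N)) (fun N => D.B N (uT N)) (fun _ _ => y) N x * t N x k
    unfold iL
    by_cases h : x ∈ Lv D (D.A N (uT N)) (D.B N (uT N)) N (uT N) y
    · rw [if_pos h, one_mul, hx h k]
    · rw [if_neg h, zero_mul]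
      unfold mkt
      have h3 : x ∉ InC ((D.th y).C N (uT N)) ((D.th y).C' N (uT N)) ((D.th y).A N (uT N)) ((D.th y).B N (uT N)) := h
      rw [mkc_out h3, Nat.cast_zero, zero_div]

end gen

/-- the data of the rotated lattice at the level `y` -/
lemma DR_th (P : Prm) (i j : Fin 3) (W W' : Wn) (a : Fin 4 → ℝ) (y : Fin 4 → ℝ) :
    (DR P i j W W' (a 0) (a 1) (a 2) (a 3)).th y = DR P i j W W' (y 0) (y 1) (y 2) (y 3) := rfl

end Pool.Agent.ROT.F3.CK
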