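import Pool.Agent.ROT.F3NulE

/-!
# ROT, block F3, row NUL (helper68): free cells when the functional threshold is chosen before later parameters

The threshold (shift) of a strand is chosen before other parameters of the class.  `q : J` = a countable family of values of these
parameters, chosen BEFORE the threshold (for fixed thresholds); the true parameters are chosen after the threshold.

* **`nulq_det`** : deterministic: if a family `q` close to the true parameters has no bad cells, the true cells are free;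
* **`nulq_act`** : almost surely;
* `lft_ne` : almost every shift: the functional thresholds are not ends of cells.
-/

set_option autoImplicit false

open MeasureTheory Filter Topology Set
open scoped ENNReal

namespace Pool.Agent.ROT.F3.Nul

/-- **deterministic part** : `E q`, `Λ q` = classes with the parameters `q` (least thresholds `ll q`), `E'`, `Λ'` = classes with the true
parameters (least thresholds `l'`) -/
theorem nulq_det {σ J : Type*} [Finite σ] {t0 : ℝ} {a : σ → ℝ} {E : J → ℕ → (σ → ℤ) → Prop} {Λ : J → ℕ → (σ → ℤ) → σ → ℝ}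
    {E' : ℕ → (σ → ℤ) → Prop} {Λ' : ℕ → (σ → ℤ) → σ → ℝ} {pr : J → ℝ} {mm ll : J → σ → ℝ} {l' : σ → ℝ} (hmm : ∀ q s, 0 < mm q s)
    (hd : ∀ μ : ℝ, 0 < μ → ∃ q, pr q < μ) (hll : ∀ q s, ll q s ≤ l' s + pr q) (hl : ∀ s, l' s < a s)
    (hU : ∃ μ : ℝ, 0 < μ ∧ ∀ n k, (∀ s, |lft t0 n (k s) - a s| < μ) → E' n k ∧ ∀ q, pr q < μ → E q n k)
    (hL : ∀ q n k s, E q n k → lft t0 n (k s) ≤ Λ q n k s)
    (hM : ∀ q n n' k k' s, E q n k → E q n' k' → lft t0 n (k s) ≤ lft t0 n' (k' s) → Λ q n k s ≤ Λ q n' k' s)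
    (hM' : ∀ q n k s, (∀ s, ll q s ≤ lft t0 n (k s)) → (∀ s, l' s ≤ lft t0 n (k s)) → E q n k → E' n k → Λ q n k s = Λ' n k s)
    (hne : ∀ q n k s, E q n k → Λ q n k s ≠ a s)
    (hB : ∀ q n1 k1 s, E q n1 k1 → ∃ᶠ n in atTop, ¬ BdE t0 (mm q) (E q) (Λ q) n1 k1 s n (kn t0 n (a s))) :
    ∀ᶠ n in atTop, (E' n fun s => kn t0 n (a s)) ∧ ∀ s, lft t0 n (kn t0 n (a s) + 1) < Λ' n (fun s => kn t0 n (a s)) s := by
  classical
  obtain ⟨μ1, h0, h1⟩ := hU
  have hμ2 : ∃ μ2 : ℝ, 0 < μ2 ∧ ∀ s, 2 * μ2 ≤ a s - l' s := by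
    rcases isEmpty_or_nonempty σ with hσ | hσ
    · exact ⟨1, one_pos, fun s => (hσ.false s).elim⟩
    · obtain ⟨s0, hs0⟩ := Finite.exists_min fun s => a s - l' s
      exact ⟨(a s0 - l' s0) / 2, by linarith [hl s0], fun s => by linarith [hs0 s]⟩
  obtain ⟨μ2, k0, k1⟩ := hμ2
  obtain ⟨μ, hμ⟩ : ∃ μ, μ = min μ1 μ2 := ⟨_, rfl⟩
  have m0 : 0 < μ := by rw [hμ]; exact lt_min h0 k0
  have m1 : μ ≤ μ1 := by rw [hμ]; exact min_le_left _ _
  have m2 : μ ≤ μ2 := by rw [hμ]; exact min_le_right _ _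
  obtain ⟨q, hq⟩ := hd μ m0
  have near : ∀ᶠ n in atTop, ∀ s, |lft t0 n (kn t0 n (a s)) - a s| < μ := by
    refine (eventually_all (α := ℕ) (l := atTop)).2 fun s => ?_
    filter_upwards [kn_small (t0 := t0) (a := a s) (x := a s - μ) (y := a s + μ) (by linarith) (by linarith)] with n hn
    have h2 := kn_le t0 n (a s)
    rw [abs_lt]
    constructor <;> linarith [hn.1]
  have h2 := nul_det (t0 := t0) (mm := mm q) (a := a) (E := E q) (Λ := Λ q) (hmm q)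
    (near.mono fun n hn => (h1 n _ fun s => (hn s).trans_le m1).2 q (hq.trans_le m1)) (hL q) (hM q) (hne q) (hB q)
  filter_upwards [h2, near] with n g1 g2
  obtain ⟨g3, -⟩ := h1 n _ fun s => (g2 s).trans_le m1
  have g4 : ∀ s, l' s + μ ≤ lft t0 n (kn t0 n (a s)) := fun s => by
    have := (abs_lt.1 (g2 s)).1
    linarith [k1 s]
  refine ⟨g3, fun s => ?_⟩
  rw [← hM' q n _ s (fun s => by linarith [hll q s, g4 s]) (fun s => by linarith [g4 s]) g1.1 g3]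
  exact g1.2 s

section ae

variable {Γ : Type*} [MeasurableSpace Γ] {P : Measure Γ}

/-- for almost every shift the functional thresholds are not ends of cells -/
theorem lft_ne [SFinite P] (t0 : ℝ) {Af : Γ → ℝ} (hA : Measurable Af) : ∀ᵐ m : ℝ, ∀ᵐ g ∂P, ∀ (n : ℕ) (k : ℤ), Af g + m ≠ lft t0 n k := by
  have h1 : ∀ᵐ m : ℝ, ∀ (n : ℕ) (k : ℤ), ∀ᵐ g ∂P, lft t0 n k - Af g ≠ m := by
    rw [ae_all_iff]
    intro n
    rw [ae_all_iff]
    intro k
    exact lvl_ne (measurable_const.sub hA)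
  filter_upwards [h1] with m hm
  rw [ae_all_iff]
  intro n
  rw [ae_all_iff]
  intro k
  filter_upwards [hm n k] with g hg h
  exact hg (by rw [← h]; ring)

/-- **all cells of small side are free** -/
theorem nulq_act {σ J : Type*} [Finite σ] [Countable J] {t0 : ℝ} {a : Γ → σ → ℝ} {E : J → ℕ → (σ → ℤ) → Set Γ}
    {Λ : J → ℕ → (σ → ℤ) → Γ → σ → ℝ} {E' : ℕ → (σ → ℤ) → Set Γ} {Λ' : ℕ → (σ → ℤ) → Γ → σ → ℝ} {F : Set Γ} {pr : J → ℝ}
    {mm ll : J → σ → ℝ} {l' : σ → ℝ} (hmm : ∀ q s, 0 < mm q s) (hd : ∀ μ : ℝ, 0 < μ → ∃ q, pr q < μ)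
    (hll : ∀ q s, ll q s ≤ l' s + pr q) (hl : ∀ᵐ g ∂P, g ∈ F → ∀ s, l' s < a g s)
    (hU : ∀ᵐ g ∂P, g ∈ F → ∃ μ : ℝ, 0 < μ ∧ ∀ n k, (∀ s, |lft t0 n (k s) - a g s| < μ) → g ∈ E' n k ∧ ∀ q, pr q < μ → g ∈ E q n k)
    (hL : ∀ q n k s, ∀ᵐ g ∂P, g ∈ E q n k → lft t0 n (k s) ≤ Λ q n k g s)
    (hM : ∀ q n n' k k' s, lft t0 n (k s) ≤ lft t0 n' (k' s) → ∀ᵐ g ∂P, g ∈ E q n k → g ∈ E q n' k' → Λ q n k g s ≤ Λ q n' k' g s)
    (hM' : ∀ q n k s, (∀ s, ll q s ≤ lft t0 n (k s)) → (∀ s, l' s ≤ lft t0 n (k s)) →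
      ∀ᵐ g ∂P, g ∈ E q n k → g ∈ E' n k → Λ q n k g s = Λ' n k g s)
    (hg : ∀ q s, ∀ᵐ g ∂P, ∀ n1 k1, Λ q n1 k1 g s ≠ a g s ∧
      ∃ᶠ n in atTop, ¬ BdE t0 (mm q) (fun n k => g ∈ E q n k) (fun n k => Λ q n k g) n1 k1 s n (kn t0 n (a g s))) :
    ∀ᵐ g ∂P, g ∈ F → ∀ᶠ n in atTop, (g ∈ E' n fun s => kn t0 n (a g s)) ∧
      ∀ s, lft t0 n (kn t0 n (a g s) + 1) < Λ' n (fun s => kn t0 n (a g s)) g s := by
  have : Countable (σ → ℤ) := by
    have := Fintype.ofFinite σ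
    infer_instance
  have : Countable σ := Finite.to_countable
  have hM2 : ∀ᵐ g ∂P, ∀ q n n' k k' s, lft t0 n (k s) ≤ lft t0 n' (k' s) → g ∈ E q n k → g ∈ E q n' k' →
      Λ q n k g s ≤ Λ q n' k' g s := by
    rw [ae_all_iff]
    intro q
    rw [ae_all_iff]
    intro n
    rw [ae_all_iff]
    intro n'
    rw [ae_all_iff]
    intro k
    rw [ae_all_iff]
    intro k'
    rw [ae_all_iff]
    intro s
    by_cases hl : lft t0 n (k s) ≤ lft t0 n' (k' s)
    · filter_upwards [hM q n n' k k' s hl] with g hg _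
      exact hg
    · exact Eventually.of_forall fun g h => absurd h hl
  have hM3 : ∀ᵐ g ∂P, ∀ q n k s, (∀ s, ll q s ≤ lft t0 n (k s)) → (∀ s, l' s ≤ lft t0 n (k s)) → g ∈ E q n k → g ∈ E' n k →
      Λ q n k g s = Λ' n k g s := by
    rw [ae_all_iff]
    intro q
    rw [ae_all_iff]
    intro n
    rw [ae_all_iff]
    intro k
    rw [ae_all_iff]
    intro s
    by_cases h1 : ∀ s, ll q s ≤ lft t0 n (k s)
    · by_cases h2 : ∀ s, l' s ≤ lft t0 n (k s)
      · filter_upwards [hM' q n k s h1 h2] with g hg _ _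
        exact hg
      · exact Eventually.of_forall fun g _ h => absurd h h2
    · exact Eventually.of_forall fun g h => absurd h h1
  have hL2 : ∀ᵐ g ∂P, ∀ q n k s, g ∈ E q n k → lft t0 n (k s) ≤ Λ q n k g s :=
    ae_all_iff.2 fun q => ae_all_iff.2 fun n => ae_all_iff.2 fun k => ae_all_iff.2 fun s => hL q n k s
  filter_upwards [hU, hM2, hM3, ae_all_iff.2 fun q => ae_all_iff.2 fun s => hg q s, hL2, hl] with g g1 g2 g3 g4 g5 g6 hF
  exact nulq_det (t0 := t0) (a := a g) (E := fun q n k => g ∈ E q n k) (Λ := fun q n k => Λ q n k g) (E' := fun n k => g ∈ E' n k)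
    (Λ' := fun n k => Λ' n k g) (mm := mm) hmm hd hll (g6 hF) (g1 hF) g5 (fun q n n' k k' s h1 h2 h3 => g2 q n n' k k' s h3 h1 h2)
    (fun q n k s h1 h2 h3 h4 => g3 q n k s h1 h2 h3 h4) (fun q n k s _ => (g4 q s n k).1) fun q n1 k1 s _ => (g4 q s n1 k1).2

end ae

end Pool.Agent.ROT.F3.Nul
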