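import Pool.Agent.ROT.F3LevM
import Pool.Agent.ROT.F3NulQ

/-!
# ROT, block F3, rows NUL, K8 (helper68): the hypotheses `hex`, `hne` of `cells_glue` (F3LevM) from the free cells

* `cel` : the two cell numbers of the four cells `k` of side `2 ^ (-n)`;
* **`cell_hex`**, **`cell_hne`** : from (1) the functional levels are not ends of cells, (2) the conclusion of `nul_act` / `nulq_act`.
-/

set_option autoImplicit false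
set_option linter.unusedSectionVars false

open MeasureTheory Filter Topology Set

open scoped NNReal ENNReal Classical

namespace Pool.Agent.ROT.F3.CK

open Pool.Agent.ROT.F3 Pool.Agent.ROT.F3.CC Pool.Agent.ROT.F3.LF Pool.Agent.ROT.F3.Nul

/-- the number of the cells at the first root -/
noncomputable def ci (n : ℕ) (k : Fin 4 → ℤ) : ℕ := cix.symm (n, (k 0, k 1))

/-- the number of the cells at the second root -/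
noncomputable def cj (n : ℕ) (k : Fin 4 → ℤ) : ℕ := cix.symm (n, (k 2, k 3))

lemma ci_n (n : ℕ) (k : Fin 4 → ℤ) : (cix (ci n k)).1 = n := by
  unfold ci
  rw [Equiv.apply_symm_apply]

lemma cj_n (n : ℕ) (k : Fin 4 → ℤ) : (cix (cj n k)).1 = n := by
  unfold cj
  rw [Equiv.apply_symm_apply]

lemma cL_ci (t0 : ℝ) (n : ℕ) (k : Fin 4 → ℤ) : cL t0 (ci n k) 0 = lft t0 n (k 0) ∧ cL t0 (ci n k) 1 = lft t0 n (k 1) := by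
  unfold cL ck ci
  rw [Equiv.apply_symm_apply]
  exact ⟨rfl, rfl⟩

lemma cR_ci (t0 : ℝ) (n : ℕ) (k : Fin 4 → ℤ) :
    cR t0 (ci n k) 0 = lft t0 n (k 0 + 1) ∧ cR t0 (ci n k) 1 = lft t0 n (k 1 + 1) := by
  unfold cR ck ci
  rw [Equiv.apply_symm_apply]
  exact ⟨rfl, rfl⟩

lemma cL_cj (t0 : ℝ) (n : ℕ) (k : Fin 4 → ℤ) : cL t0 (cj n k) 0 = lft t0 n (k 2) ∧ cL t0 (cj n k) 1 = lft t0 n (k 3) := by
  unfold cL ck cj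
  rw [Equiv.apply_symm_apply]
  exact ⟨rfl, rfl⟩

lemma cR_cj (t0 : ℝ) (n : ℕ) (k : Fin 4 → ℤ) :
    cR t0 (cj n k) 0 = lft t0 n (k 2 + 1) ∧ cR t0 (cj n k) 1 = lft t0 n (k 3 + 1) := by
  unfold cR ck cj
  rw [Equiv.apply_symm_apply]
  exact ⟨rfl, rfl⟩

section cells

variable {U : Filter ℕ} [U.NeBot] {μ : ℕ → Measure (W3 × ℕ)} {X : Type*} [PseudoMetricSpace X] [MeasurableSpace X]
  [BorelSpace X] [CompleteSpace X] [SecondCountableTopology X] {cc : ℕ → W3 × ℕ → X} {ν : Measure X} {D : Dt}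
  {RA RB : ℕ → Set W3} {t0 : ℝ} {E : ℕ → ℕ → X → ℝ} {Φ : ℕ → ℕ → X → Fin 8 → ℝ} {Λ : ℕ → ℕ → X → Fin 4 → ℝ}
  {u : ℕ → W3 × ℕ → Fin 4 → ℝ} {EF : X → ℝ} {ΦF : X → Fin 8 → ℝ} {ΛF : X → Fin 4 → ℝ} {A : X → Fin 4 → ℝ}
  {Kp Kq Y : Type*} {F : X → (Fin 8 → ℝ) → (Kp × Kq) × Y} {Cp : Set Kp} {Cq : Set Kq} {aP lP : Kp → Fin 2 → ℝ}
  {aQ lQ : Kq → Fin 2 → ℝ}

/-- **`hne`** of `cells_glue` -/
theorem cell_hne {i j : ℕ} (h1 : ∀ᵐ g ∂ν, ∀ s (n : ℕ) (k : ℤ), D.l s + A g s ≠ lft t0 n k)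
    (hr : ∀ᵐ g ∂ν, ENNReal.ofReal (E i j g) ≠ 0 → (F g (Φ i j g)).1.1 ∈ Cp → (F g (Φ i j g)).1.2 ∈ Cq →
      Rdg D A (Λ i j) aP lP aQ lQ g (F g (Φ i j g)).1) :
    ∀ᵐ g ∂ν, ENNReal.ofReal (E i j g) ≠ 0 → (F g (Φ i j g)).1.1 ∈ Cp → (F g (Φ i j g)).1.2 ∈ Cq →
      (∀ s (n : ℕ) (k : ℤ), aP (F g (Φ i j g)).1.1 s ≠ lft t0 n k) ∧ ∀ s (n : ℕ) (k : ℤ), aQ (F g (Φ i j g)).1.2 s ≠ lft t0 n k := by
  filter_upwards [h1, hr] with g h1 hr h0 hp hq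
  obtain ⟨-, ⟨r1, r2, r3, r4⟩, -⟩ := hr h0 hp hq
  refine ⟨fun s n k => ?_, fun s n k => ?_⟩
  · fin_cases s
    · show aP (F g (Φ i j g)).1.1 0 ≠ _
      rw [r1]
      exact h1 0 n k
    · show aP (F g (Φ i j g)).1.1 1 ≠ _
      rw [r2]
      exact h1 1 n k
  · fin_cases s
    · show aQ (F g (Φ i j g)).1.2 0 ≠ _
      rw [r3]
      exact h1 2 n k
    · show aQ (F g (Φ i j g)).1.2 1 ≠ _
      rw [r4]
      exact h1 3 n k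

/-- **`hex`** of `cells_glue` : `hf` = the conclusion of `nul_act` (`nulq_act`) for the functional class -/
theorem cell_hex (hC : Cv U μ cc ν) (hU : ∀ᶠ N : ℕ in U, 0 < N) (hD : D.Ok) (hA : ∀ᶠ N in U, RA N ⊆ D.A N (uT N))
    (hB : ∀ᶠ N in U, RB N ⊆ D.B N (uT N))
    (H : ∀ i j, LvO U μ cc ν D RA RB (fun _ _ => yv D t0 i j) (E i j) (Φ i j) (Λ i j)) (HF : LvO U μ cc ν D RA RB u EF ΦF ΛF)
    (hu : ∀ s, Lm U μ cc ν (fun N x => u N x s) fun g => A g s)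
    (h1 : ∀ᵐ g ∂ν, ∀ s (n : ℕ) (k : ℤ), D.l s + A g s ≠ lft t0 n k)
    (hA0 : ∀ᵐ g ∂ν, EF g ≠ 0 → ∀ s, 0 < A g s)
    (hr : ∀ i j, ∀ᵐ g ∂ν, ENNReal.ofReal (E i j g) ≠ 0 → (F g (Φ i j g)).1.1 ∈ Cp → (F g (Φ i j g)).1.2 ∈ Cq →
      Rdg D A (Λ i j) aP lP aQ lQ g (F g (Φ i j g)).1)
    (hf : ∀ᵐ g ∂ν, EF g ≠ 0 → ∀ᶠ n in atTop, ∀ k : Fin 4 → ℤ, (k = fun s => kn t0 n (D.l s + A g s)) →
      E (ci n k) (cj n k) g ≠ 0 ∧ ∀ s, lft t0 n (k s + 1) < Λ (ci n k) (cj n k) g s) :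
    ∀ᵐ g ∂ν, ENNReal.ofReal (EF g) ≠ 0 → (F g (ΦF g)).1.1 ∈ Cp → (F g (ΦF g)).1.2 ∈ Cq → ∃ n i j, ENNReal.ofReal (E i j g) ≠ 0 ∧
      (F g (Φ i j g)).1.1 ∈ FrC t0 Cp aP lP n i ∧ (F g (Φ i j g)).1.2 ∈ FrC t0 Cq aQ lQ n j := by
  have h2 : ∀ᵐ g ∂ν, ∀ i j, E i j g ≠ 0 → (∀ s, yv D t0 i j s < A g s) → (∀ s, D.l s + A g s < Λ i j g s) →
      EF g = E i j g ∧ ΦF g = Φ i j g ∧ ΛF g = Λ i j g :=
    ae_all_iff.2 fun i => ae_all_iff.2 fun j => lev_fun hC hU hD hA hB (yv_nonneg D t0 i j) (H i j) HF hu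
  have h3 := ae_all_iff.2 fun i => ae_all_iff.2 fun j => hr i j
  filter_upwards [h1, hA0, h2, h3, hf] with g h1 hA0 h2 h3 hf h0 hp hq
  have hE : EF g ≠ 0 := fun h => h0 (by rw [h, ENNReal.ofReal_zero])
  obtain ⟨n, hn⟩ := (hf hE).exists
  obtain ⟨k, hk⟩ : ∃ k : Fin 4 → ℤ, k = fun s => kn t0 n (D.l s + A g s) := ⟨_, rfl⟩
  obtain ⟨f1, f2⟩ := hn k hk
  obtain ⟨i, hi⟩ : ∃ i, i = ci n k := ⟨_, rfl⟩
  obtain ⟨j, hj⟩ : ∃ j, j = cj n k := ⟨_, rfl⟩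
  rw [← hi, ← hj] at f1 f2
  have hk' : ∀ s, k s = kn t0 n (D.l s + A g s) := fun s => by rw [hk]
  have kl : ∀ s, lft t0 n (k s) < D.l s + A g s := fun s => by
    refine lt_of_le_of_ne ?_ (h1 s n (k s)).symm
    rw [hk']
    exact kn_le t0 n _
  have kr : ∀ s, D.l s + A g s < lft t0 n (k s + 1) := fun s => by
    rw [hk']
    exact lt_kn t0 n _
  obtain ⟨l0, l1⟩ := cL_ci t0 n k
  obtain ⟨l2, l3⟩ := cL_cj t0 n k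
  obtain ⟨r0, r1⟩ := cR_ci t0 n k
  obtain ⟨r2, r3⟩ := cR_cj t0 n k
  rw [← hi] at l0 l1 r0 r1
  rw [← hj] at l2 l3 r2 r3
  have hA1 := hA0 hE
  have y0 : D.l 0 = D.P.l := rfl
  have y1 : D.l 1 = D.P.l := rfl
  have y2 : D.l 2 = D.Q.l := rfl
  have y3 : D.l 3 = D.Q.l := rfl
  have g0 := kl 0
  have g1 := kl 1
  have g2 := kl 2
  have g3 := kl 3
  rw [y0, ← l0] at g0
  rw [y1, ← l1] at g1
  rw [y2, ← l2] at g2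
  rw [y3, ← l3] at g3
  obtain ⟨e1, e2, -⟩ := h2 i j f1 (fun s => by
    fin_cases s
    · exact thr_lt g0 (hA1 0)
    · exact thr_lt g1 (hA1 1)
    · exact thr_lt g2 (hA1 2)
    · exact thr_lt g3 (hA1 3)) fun s => (kr s).trans (f2 s)
  have hE' : ENNReal.ofReal (E i j g) ≠ 0 := by rw [← e1]; exact h0
  rw [e2] at hp hq
  obtain ⟨-, ⟨p0, p1, p2, p3⟩, q0, q1, q2, q3⟩ := h3 i j hE' hp hq
  refine ⟨n, i, j, hE', ⟨hp, by rw [hi]; exact ci_n n k, fun s => ?_⟩, ⟨hq, by rw [hj]; exact cj_n n k, fun s => ?_⟩⟩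
  · fin_cases s
    · show cL t0 i 0 < aP _ 0 ∧ aP _ 0 < cR t0 i 0 ∧ cR t0 i 0 < lP _ 0
      rw [p0, q0, r0]
      exact ⟨g0, kr 0, f2 0⟩
    · show cL t0 i 1 < aP _ 1 ∧ aP _ 1 < cR t0 i 1 ∧ cR t0 i 1 < lP _ 1
      rw [p1, q1, r1]
      exact ⟨g1, kr 1, f2 1⟩
  · fin_cases s
    · show cL t0 j 0 < aQ _ 0 ∧ aQ _ 0 < cR t0 j 0 ∧ cR t0 j 0 < lQ _ 0
      rw [p2, q2, r2]
      exact ⟨g2, kr 2, f2 2⟩
    · show cL t0 j 1 < aQ _ 1 ∧ aQ _ 1 < cR t0 j 1 ∧ cR t0 j 1 < lQ _ 1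
      rw [p3, q3, r3]
      exact ⟨g3, kr 3, f2 3⟩

end cells

end Pool.Agent.ROT.F3.CK
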