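import Pool.Agent.ROT.F3LevR
import Pool.Agent.ROT.F3NulH
import Pool.Agent.ROT.F3K3F
import Pool.Agent.ROT.F3K3P
import Pool.Agent.ROT.F3CoreS

/-!
# ROT / F3LevN (helper62): the glued classes of the rotated lattice, on the curves of the first lattice

* **`lamF_eq`**, **`levF_rot`** : the levels of the gates `c` of a limit class, without the cut-off, in the turned frame;
* **`levF_prm`** : `LevF` (F3LevP) in the frame turned by `z` from the limits `LvO` in the frame of the rotated lattice, the readings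
  of the connections (marks of the first lattice from the connection of the second one) and the free cells;
* **`hg_prm`** : the argument `HG` of `pair_fin` (F3CoreZ, helper17).
-/

set_option autoImplicit false
set_option linter.unusedSectionVars false

open MeasureTheory Filter Topology Set unitInterval

open scoped NNReal ENNReal Classical

namespace Pool.Agent.ROT.F3.CK

open Pool.Agent.ROT.F3 Pool.Agent.ROT.F3.CC Pool.Agent.ROT.F3.LF Pool.Agent.ROT.F3.Nul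

/-! ### 1. The turned frame -/

/-- almost all turned curves -/
lemma ae_rot {z : ℂ} (hz : ‖z‖ = 1) {PG : Measure CC.Gm} (hPz : PG.map (rotX z) = PG) {p : CC.Gm → Prop}
    (h : ∀ᵐ g ∂PG, p g) : ∀ᵐ g ∂PG, p (rotX z⁻¹ g) := by
  have hz0 : z ≠ 0 := fun h0 => by
    rw [h0, norm_zero] at hz
    exact zero_ne_one hz
  have e : PG.map (rotX z⁻¹) = PG := by
    conv_lhs => rw [← hPz]
    rw [Measure.map_map (rotX_cont z⁻¹).measurable (rotX_cont z).measurable]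
    have e2 : rotX z⁻¹ ∘ rotX z = id := by
      funext y
      show rotX z⁻¹ (rotX z y) = y
      unfold rotX
      rw [smul_smul, inv_mul_cancel₀ hz0, one_smul]
    rw [e2, Measure.map_id]
  refine ae_of_ae_map (rotX_cont z⁻¹).measurable.aemeasurable ?_
  rw [e]
  exact h

lemma rotX_inv' {z : ℂ} (hz : ‖z‖ = 1) (g : CC.Gm) : rotX z (rotX z⁻¹ g) = g := by
  have hz0 : z ≠ 0 := fun h0 => by
    rw [h0, norm_zero] at hz
    exact zero_ne_one hz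
  unfold rotX
  rw [smul_smul, mul_inv_cancel₀ hz0, one_smul]

/-! ### 2. The levels -/

/-- inside the balls the cut-off is not active -/
lemma levT_ball {D : Dt} (hD : D.Ok) {g : C(I, ℂ)} {L : ℝ} {m : I} {u : Fin 8 → I} (h : clsF D g L m u ≤ 0) (s : Fin 4) :
    levT D g m u s = levF D g m u s := by
  have hPr := hD.P.r
  have hQr := hD.Q.r
  have h1 : max (max (balF D.P.r D.P.r2 g 0 (u 0) (u 1)) (balF D.P.r D.P.r2 g 1 (u 7) (u 6)))
      (max (balF D.Q.r D.Q.r2 g m (u 3) (u 2)) (balF D.Q.r D.Q.r2 g m (u 4) (u 5))) ≤ 0 := (le_max_right _ _).trans h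
  obtain ⟨hp, hq⟩ := max_le_iff.1 h1
  obtain ⟨b0, b1⟩ := max_le_iff.1 hp
  obtain ⟨b2, b3⟩ := max_le_iff.1 hq
  have key : ∀ {r r2 : ℝ} {a b c : I} {d : ℂ}, ‖d‖ = 1 → balF r r2 g a b c ≤ 0 → |lv d (cutc g a b 1)| ≤ r := by
    intro r r2 a b c d hd hb
    have h2 : stS (fun v => ‖v‖) (cutc g a b) ≤ r := by
      have := (le_max_left _ _).trans hb
      linarith
    exact (lv_abs_le hd _).trans ((le_stS continuous_norm (cutc g a b) 1).trans h2)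
  have fin : ∀ {x r : ℝ}, |x| ≤ r → r ≤ D.P.r + D.Q.r → max (-(D.P.r + D.Q.r)) (min (D.P.r + D.Q.r) x) = x := by
    intro x r h2 h3
    obtain ⟨h4, h5⟩ := abs_le.1 h2
    rw [min_eq_right (by linarith), max_eq_right (by linarith)]
  fin_cases s
  · exact fin (key hD.d b0) (by linarith)
  · exact fin (key hD.d' b1) (by linarith)
  · exact fin (key hD.t b2) (by linarith)
  · exact fin (key hD.t' b3) (by linarith)

/-- **the limit levels of a limit class** -/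
theorem lamF_eq {D : Dt} (hD : D.Ok) {B : Set CC.Gm} {Φ : CC.Gm → Fin 8 → ℝ} {g : CC.Gm} (h : g ∈ k3S D B Φ) :
    lamF D Φ g = levF D g.2.2 (pji (muG g)) fun k => pji (Φ g k) := by
  funext s
  exact levT_ball hD ((le_max_left _ _).trans h.2) s

/-- **the levels in the turned frame** -/
theorem levF_rot {D : Dt} {z : ℂ} {g : CC.Gm} (hm : muG (rotX z⁻¹ g) = mu g) (T : Fin 8 → ℝ) :
    levF D (rotX z⁻¹ g).2.2 (pji (muG (rotX z⁻¹ g))) (fun k => pji (T k)) = lvM z D g (c4 T) := by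
  have key : ∀ (d : ℂ) (a b : ℝ) (i j : I), pji a = i → pji b = j →
      lv d (cutc (z⁻¹ • g.2.2) i j 1) = lv d (z⁻¹ * (ex g.2.2 b - ex g.2.2 a)) := by
    intro d a b i j hi hj
    rw [cutc_one, ← hi, ← hj, mul_sub]
    rfl
  have e0 : pji 0 = 0 := projIcc_left zero_le_one
  have e1 : pji 1 = 1 := projIcc_right zero_le_one
  rw [hm]
  funext s
  fin_cases s
  · exact key D.d 0 (T 0) 0 (pji (T 0)) e0 rfl
  · exact key D.d' 1 (T 7) 1 (pji (T 7)) e1 rfl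
  · exact key D.t (mu g) (T 3) (pji (mu g)) (pji (T 3)) rfl rfl
  · exact key D.t' (mu g) (T 4) (pji (mu g)) (pji (T 4)) rfl rfl

/-! ### 3. The functional class and the classes with fixed thresholds -/

section prm

variable {V : Ultrafilter ℕ} {b : ℝ} {PG : Measure CC.Gm} {z : ℂ} {D : Dt} {RA RB : ℕ → Set W3} {t0 : ℝ}
  {y : ℕ → W3 × ℕ → Fin 4 → ℝ} {EF : CC.Gm → ℝ} {ΦF : CC.Gm → Fin 8 → ℝ} {ΛF : CC.Gm → Fin 4 → ℝ} {E : ℕ → ℕ → CC.Gm → ℝ}
  {Φ : ℕ → ℕ → CC.Gm → Fin 8 → ℝ} {Λ : ℕ → ℕ → CC.Gm → Fin 4 → ℝ} {AF : CC.Gm → Fin 4 → ℝ} {Cp Cq : Set K4}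
  {fp fq : K4 → Pie × Pie} {TF : CC.Gm → M4}

/-- **the functional class and the classes with fixed thresholds, on the curves of the first lattice**; `AF` = the functional
thresholds, `TF` = the gates of the first lattice -/
structure LevH (V : Ultrafilter ℕ) (b : ℝ) (PG : Measure CC.Gm) (z : ℂ) (D : Dt) (RA RB : ℕ → Set W3) (t0 : ℝ)
    (y : ℕ → W3 × ℕ → Fin 4 → ℝ) (EF : CC.Gm → ℝ) (ΦF : CC.Gm → Fin 8 → ℝ) (ΛF : CC.Gm → Fin 4 → ℝ) (E : ℕ → ℕ → CC.Gm → ℝ)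
    (Φ : ℕ → ℕ → CC.Gm → Fin 8 → ℝ) (Λ : ℕ → ℕ → CC.Gm → Fin 4 → ℝ) (AF : CC.Gm → Fin 4 → ℝ) (Cp Cq : Set K4)
    (fp fq : K4 → Pie × Pie) (TF : CC.Gm → M4) : Prop where
  cv : Cv (V : Filter ℕ) (fun N => mwE N b) cN PG
  hV : (V : Filter ℕ) ≤ atTop
  hP : ∀ᵐ g ∂PG, 0 < g.2.1 ∧ g.2.1 < g.1
  hz : ‖z‖ = 1
  hPz : PG.map (rotX z) = PG
  ok : D.Ok
  hA : ∀ᶠ N in (V : Filter ℕ), RA N ⊆ D.A N (uT N)
  hB : ∀ᶠ N in (V : Filter ℕ), RB N ⊆ D.B N (uT N)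
  /-- the functional class, in the frame of the rotated lattice -/
  fn : LvO (V : Filter ℕ) (fun N => mwE N b) cN PG D RA RB y EF ΦF ΛF
  lu : ∀ s, Lm (V : Filter ℕ) (fun N => mwE N b) cN PG (fun N x => y N x s) fun g => AF (rotX z g) s
  /-- the classes with fixed thresholds, in the frame of the rotated lattice -/
  fix : ∀ m n, LvO (V : Filter ℕ) (fun N => mwE N b) cN PG D RA RB (fun _ _ => yv D t0 m n) (E m n) (Φ m n) (Λ m n)
  lam : ∀ m n, ∀ᵐ g ∂PG, E m n g ≠ 0 → Λ m n g = levF D g.2.2 (pji (muG g)) fun k => pji (Φ m n g k)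
  mCp : MeasurableSet Cp
  mCq : MeasurableSet Cq
  mfp : Measurable fp
  mfq : Measurable fq
  /-- the readings at the first root -/
  rp : ∀ m n, ∀ᵐ g ∂PG, wZ z (E m n) g ≠ 0 → (kap8 g (tZ z (Φ m n) g)).1 ∈ Cp →
    fp (kap8 g (tZ z (Φ m n) g)).1 = qpAt g (TF g) (m4 (tZ z (Φ m n) g)) ∧
      (AF g 0 = lvM z D g (TF g) 0 ∧ AF g 1 = lvM z D g (TF g) 1) ∧ 0 < AF g 0 ∧ 0 < AF g 1
  /-- the readings at the second root -/
  rq : ∀ m n, ∀ᵐ g ∂PG, wZ z (E m n) g ≠ 0 → (kap8 g (tZ z (Φ m n) g)).2 ∈ Cq →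
    fq (kap8 g (tZ z (Φ m n) g)).2 = qqAt g (TF g) (m4 (tZ z (Φ m n) g)) ∧
      (AF g 2 = lvM z D g (TF g) 2 ∧ AF g 3 = lvM z D g (TF g) 3) ∧ 0 < AF g 2 ∧ 0 < AF g 3
  /-- the functional levels are no ends of cells -/
  ne : ∀ᵐ g ∂PG, ∀ (s : Fin 4) (n : ℕ) (k : ℤ), D.l s + AF g s ≠ lft t0 n k
  /-- free cells (F3NulE, F3NulQ) -/
  fr : ∀ᵐ g ∂PG, wZ z EF g ≠ 0 → (kap8 g (tZ z ΦF g)).1 ∈ Cp → (kap8 g (tZ z ΦF g)).2 ∈ Cq → (∀ s, 0 < AF g s) ∧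
    ∀ᶠ n in atTop, ∀ k : Fin 4 → ℤ, (k = fun s => kn t0 n (D.l s + AF g s)) → E (ci n k) (cj n k) (rotX z⁻¹ g) ≠ 0 ∧
      ∀ s, lft t0 n (k s + 1) < Λ (ci n k) (cj n k) (rotX z⁻¹ g) s

lemma ck_ci (n : ℕ) (k : Fin 4 → ℤ) : ck (ci n k) 0 = k 0 ∧ ck (ci n k) 1 = k 1 := by
  unfold ck ci
  rw [Equiv.apply_symm_apply]
  exact ⟨rfl, rfl⟩

lemma ck_cj (n : ℕ) (k : Fin 4 → ℤ) : ck (cj n k) 0 = k 2 ∧ ck (cj n k) 1 = k 3 := by
  unfold ck cj
  rw [Equiv.apply_symm_apply]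
  exact ⟨rfl, rfl⟩

/-- **`LevF` in the turned frame** -/
theorem levF_prm (H : LevH V b PG z D RA RB t0 y EF ΦF ΛF E Φ Λ AF Cp Cq fp fq TF) :
    LevF V (fun N => mwE N b) (fun N x => rotX z (cN N x)) PG D RA RB t0 (fun m n g => E m n (rotX z⁻¹ g))
      (fun m n => tZ z (Φ m n)) (fun m n g => Λ m n (rotX z⁻¹ g)) y (fun g => EF (rotX z⁻¹ g)) (tZ z ΦF)
      (fun g => ΛF (rotX z⁻¹ g)) AF datT Cp Cq (aP4 z D.d D.d' D.P.l fp) (lP4 z D.d D.d') (aP4 z D.t D.t' D.Q.l fq)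
      (lP4 z D.t D.t') := by
  have hU : ∀ᶠ N : ℕ in (V : Filter ℕ), 0 < N := H.hV (eventually_gt_atTop 0)
  have cv := cv_rot H.cv H.hPz
  have fix : ∀ m n, LvO (V : Filter ℕ) (fun N => mwE N b) (fun N x => rotX z (cN N x)) PG D RA RB (fun _ _ => yv D t0 m n)
      (fun g => E m n (rotX z⁻¹ g)) (tZ z (Φ m n)) (fun g => Λ m n (rotX z⁻¹ g)) := fun m n => (H.fix m n).rot H.hz H.hPz
  have fn : LvO (V : Filter ℕ) (fun N => mwE N b) (fun N x => rotX z (cN N x)) PG D RA RB y (fun g => EF (rotX z⁻¹ g))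
      (tZ z ΦF) (fun g => ΛF (rotX z⁻¹ g)) := H.fn.rot H.hz H.hPz
  have lu : ∀ s, Lm (V : Filter ℕ) (fun N => mwE N b) (fun N x => rotX z (cN N x)) PG (fun N x => y N x s) fun g => AF g s :=
    fun s => by
      have h1 := lm_rot H.hz H.hPz (H.lu s)
      have e : (fun g => AF (rotX z (rotX z⁻¹ g)) s) = fun g => AF g s := by
        funext g
        rw [rotX_inv' H.hz]
      rw [e] at h1
      exact h1
  have hmu : ∀ᵐ g ∂PG, muG (rotX z⁻¹ g) = mu g := by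
    filter_upwards [H.hP] with g hg
    show max 0 (min 1 (g.2.1 / g.1)) = mu g
    exact muG_eq hg.1 hg.2
  have rd : ∀ m n, ∀ᵐ g ∂PG, ENNReal.ofReal (E m n (rotX z⁻¹ g)) ≠ 0 → (datT g (tZ z (Φ m n) g)).1.1 ∈ Cp →
      (datT g (tZ z (Φ m n) g)).1.2 ∈ Cq →
      Rdg D AF (fun g => Λ m n (rotX z⁻¹ g)) (aP4 z D.d D.d' D.P.l fp) (lP4 z D.d D.d') (aP4 z D.t D.t' D.Q.l fq)
        (lP4 z D.t D.t') g (datT g (tZ z (Φ m n) g)).1 := by
    intro m n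
    filter_upwards [H.rp m n, H.rq m n, ae_rot H.hz H.hPz (H.lam m n), hmu] with g g1 g2 g3 g4 h0 hp hq
    have hE : E m n (rotX z⁻¹ g) ≠ 0 := fun h => h0 (by rw [h, ENNReal.ofReal_zero])
    obtain ⟨p1, ⟨p2, p3⟩, p4, p5⟩ := g1 h0 hp
    obtain ⟨q1, ⟨q2, q3⟩, q4, q5⟩ := g2 h0 hq
    refine rdg_of (T := tZ z (Φ m n) g) (Q := TF g) p1 q1 ?_ ?_ ?_
    · funext s
      fin_cases s
      · exact p2
      · exact p3
      · exact q2
      · exact q3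
    · show Λ m n (rotX z⁻¹ g) = _
      rw [g3 hE]
      exact levF_rot g4 (Φ m n (rotX z⁻¹ g))
    · intro s
      fin_cases s
      · exact p4
      · exact p5
      · exact q4
      · exact q5
  refine ⟨cv, hU, H.ok, H.hA, H.hB, fix, fn, lu, datT_meas, H.mCp, H.mCq, aP4_meas _ _ _ _ H.mfp, lP4_meas _ _ _,
    aP4_meas _ _ _ _ H.mfq, lP4_meas _ _ _, rd, H.ne, ?_⟩
  refine ex_of cv hU H.ok H.hA H.hB fix fn lu rd H.ne ?_ ?_
  · filter_upwards [H.fr] with g hg h0 hp hq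
    by_cases h1 : wZ z EF g = 0
    · -- the weight is not negative
      have h2 := H.fn.e0 (rotX z⁻¹ g)
      have h3 : EF (rotX z⁻¹ g) ≤ 0 := by
        unfold wZ at h1
        exact ENNReal.ofReal_eq_zero.1 h1
      exact absurd (le_antisymm h3 h2) h0
    · exact (hg h1 hp hq).1
  · filter_upwards [H.fr] with g hg h0 hp hq
    have h1 : wZ z EF g ≠ 0 := fun h1 => by
      have h2 := H.fn.e0 (rotX z⁻¹ g)
      have h3 : EF (rotX z⁻¹ g) ≤ 0 := by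
        unfold wZ at h1
        exact ENNReal.ofReal_eq_zero.1 h1
      exact absurd (le_antisymm h3 h2) h0
    obtain ⟨n, hn⟩ := (hg h1 hp hq).2.exists
    obtain ⟨k, hk⟩ : ∃ k : Fin 4 → ℤ, k = fun s => kn t0 n (D.l s + AF g s) := ⟨_, rfl⟩
    obtain ⟨h2, h3⟩ := hn k hk
    refine ⟨n, ci n k, cj n k, ci_n n k, cj_n n k, ⟨?_, ?_, ?_, ?_⟩, h2, fun s => ?_⟩
    · rw [(ck_ci n k).1, hk]
      rfl
    · rw [(ck_ci n k).2, hk]
      rfl
    · rw [(ck_cj n k).1, hk]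
      rfl
    · rw [(ck_cj n k).2, hk]
      rfl
    · have h4 := h3 s
      rw [show k s = kn t0 n (D.l s + AF g s) from congrFun hk s] at h4
      exact h4

/-- **the argument `HG` of `pair_fin`** -/
theorem hg_prm (H : LevH V b PG z D RA RB t0 y EF ΦF ΛF E Φ Λ AF Cp Cq fp fq TF) :
    ∃ wR : ℕ → ℕ → CC.Gm → ℝ≥0∞, (∀ n n', Measurable (wR n n')) ∧
      (∀ n n', MarkOf PG (fun m n => wZ z (E m n)) (fun m n => dat (tZ z (Φ m n)))
        (FrC t0 Cp (aP4 z D.d D.d' D.P.l fp) (lP4 z D.d D.d') n) (FrC t0 Cq (aP4 z D.t D.t' D.Q.l fq) (lP4 z D.t D.t') n')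
        (wR n n') (dat (tZ z ΦF))) ∧
      (∀ n n', ∀ᵐ g ∂PG, wR n n' g ≤ wR (n + 1) n' g) ∧ (∀ n n', ∀ᵐ g ∂PG, wR n n' g ≤ wR n (n' + 1) g) ∧
      ∀ᵐ g ∂PG, (dat (tZ z ΦF) ⁻¹' ((Cp ×ˢ Cq) ×ˢ univ)).indicator (wZ z EF) g = ⨆ n, wR n n g :=
  (levF_prm H).glue

/-- the sets of connections of the cells are measurable -/
lemma hg_meas {d d' : ℂ} {l : ℝ} {C : Set K4} {f : K4 → Pie × Pie} (hC : MeasurableSet C) (hf : Measurable f) (n i : ℕ) :
    MeasurableSet (FrC t0 C (aP4 z d d' l f) (lP4 z d d') n i) :=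
  frC_meas hC (aP4_meas _ _ _ _ hf) (lP4_meas _ _ _) n i

end prm

end Pool.Agent.ROT.F3.CK
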