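import Pool.Agent.ROT.F3Fin5
import Pool.Agent.ROT.F3LevN
import Pool.Agent.ROT.F3JmH
import Pool.Agent.ROT.F3JmS
import Pool.Agent.ROT.F3JmU
import Pool.Agent.ROT.F3CoreX

/-!
# ROT, F3, row Core (helper17): one pair of classes from the limits of the gates

* `sA k` = the number of the strand of the arm `k` in the levels; `Hx` : the gates of the functional class (`none`) and of the classes
  with fixed thresholds (`some (m, n)`);
* **`PkC`** : the limit objects of one pair of classes (row K3, NUL, K7);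
* `PkC.or`, `PkC.jh`, `PkC.con`, **`PkC.levH`**; **`prAll_pk`** : `PrAll` from `PkC` and the marks of the rests `Mk3`.
-/

set_option autoImplicit false
set_option linter.unusedSectionVars false

noncomputable section

open MeasureTheory Topology Set Filter unitInterval

open scoped ENNReal Classical

namespace Pool.Agent.ROT.F3.CK

open Pool.Agent.ROT.F3 Pool.Agent.ROT.F3.CC Pool.Agent.ROT.F3.LF Pool.Agent.ROT.F3.Nul Pool.Agent.ROT.F3.Bt Pool.Agent.ROT.F3E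

/-- the number of the strand of the arm in the levels `glv`, `levF` -/
def sA : Arm → Fin 4
  | .fp => 0
  | .bp => 1
  | .bq => 2
  | .fq => 3

/-- the gates of the functional class (`none`) and of the classes with fixed thresholds (`some (m, n)`) -/
def Hx (H : Ga) (Hl : ℕ → ℕ → Ga) (n : Option (ℕ × ℕ)) : Ga := n.elim H fun q => Hl q.1 q.2

/-- the full limit class of the rotated lattice -/
def jKf (P : Prm) (i j : Fin 3) (H : Ga) : Set CC.Gm := k3S (jDR P i j) (⋂ k, H.B k) (phi8 H.B H.c H.x)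

lemma jKR_sub (P : Prm) (i j : Fin 3) (H : Ga) : jKR P i j H ⊆ jKf P i j H := by
  unfold jKR jKf
  split_ifs
  · exact inter_subset_left
  · exact subset_rfl

/-- **the limit objects of one pair of classes** : `G0` = native gates of the lattice 0; `H`, `Hl m n` = gates of the rotated lattice in
its own frame at the functional thresholds `u` (limit `AF` on the curves of the lattice 0) and at the thresholds of the cells `m`, `n`;
`Gd` = the sets on which the native gates are local -/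
structure PkC (V : Ultrafilter ℕ) (L : ℝ) (PG : Measure CC.Gm) (P : Prm) (i j : Fin 3) (t0 : ℝ) (G0 H : Ga) (Hl : ℕ → ℕ → Ga)
    (u : ℕ → W3 × ℕ → Fin 4 → ℝ) (AF : CC.Gm → Fin 4 → ℝ) (Gd : Option (ℕ × ℕ) → Set CC.Gm) : Prop where
  m0 : G0.Ms
  mH : ∀ n, (Hx H Hl n).Ms
  u0 : ∀ᵐ g ∂PG, G0.Un g
  uH : ∀ n, ∀ᵐ g ∂PG, (Hx H Hl n).Un g
  /-- the lattice 0 -/
  z0 : LvO (V : Filter ℕ) (fun N => mwE N L) cN PG (jD0 P i j) (fun N => (jD0 P i j).A N (uT N))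
    (fun N => (jD0 P i j).B N (uT N)) (fun _ _ _ => 0) (fun g => bi (g ∈ jK0 P i j G0)) (jT G0) (lamF (jD0 P i j) (jT G0))
  /-- the rotated lattice, fixed thresholds, full class -/
  full : ∀ m n, LvO (V : Filter ℕ) (fun N => mwE N L) cN PG (jDR P i j) (fun N => (jDR P i j).A N (uT N))
    (fun N => (jDR P i j).B N (uT N)) (fun _ _ => yv (jDR P i j) t0 m n) (fun g => bi (g ∈ jKf P i j (Hl m n)))
    (phi8 (Hl m n).B (Hl m n).c (Hl m n).x) (lamF (jDR P i j) (phi8 (Hl m n).B (Hl m n).c (Hl m n).x))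
  /-- main arcs, companions -/
  sub : ∀ m n, LvO (V : Filter ℕ) (fun N => mwE N L) cN PG (jDR P i j) (acl P i) (acl P j)
    (fun _ _ => yv (jDR P i j) t0 m n) (fun g => bi (g ∈ jKR P i j (Hl m n)))
    (phi8 (Hl m n).B (Hl m n).c (Hl m n).x) (lamF (jDR P i j) (phi8 (Hl m n).B (Hl m n).c (Hl m n).x))
  /-- the functional class -/
  fn : LvO (V : Filter ℕ) (fun N => mwE N L) cN PG (jDR P i j) (acl P i) (acl P j) u (fun g => bi (g ∈ jKR P i j H))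
    (phi8 H.B H.c H.x) (lamF (jDR P i j) (phi8 H.B H.c H.x))
  lu : ∀ s, Lm (V : Filter ℕ) (fun N => mwE N L) cN PG (fun N x => u N x s) fun g => AF (rotX P.u g) s
  /-- closed conditions of the gates (some thresholds) -/
  cl : ∀ n, ∃ y : CC.Gm → Fin 4 → ℝ, (∀ g s, 0 ≤ y g s) ∧ ∀ᵐ g ∂PG, g ∈ jKR P i j (Hx H Hl n) →
    clsK ((jDR P i j).th (y g)) g.2.2 (pji (muG g)) (fun k => pji (phi8 (Hx H Hl n).B (Hx H Hl n).c (Hx H Hl n).x g k)) ≤ 0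
  /-- the inputs of h5, h6 -/
  jh : ∀ᵐ g ∂PG, JhIn P i j G0 H (fun k g => AF g (sA k)) g
  /-- E4: the functional level -/
  e4 : ∀ᵐ g ∂PG, ∀ k, g ∈ G0.B k → 0 < AF g (sA k) ∧
    AF g (sA k) = lv (P.u * dirA i j k) (g.2.2 (G0.ix k g) - g.2.2 (rtA k g))
  /-- locality of the native gates -/
  ae : ∀ n, ∀ᵐ g ∂PG, jwR P i j (Hx H Hl n) g ≠ 0 → g ∈ Gd n
  loc : ∀ k, LocB P i j G0 (Hx H Hl) (fun n => jwR P i j (Hx H Hl n)) Gd k
  /-- the functional levels are no ends of cells -/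
  ne : ∀ᵐ g ∂PG, ∀ (s : Fin 4) (n : ℕ) (k : ℤ), (jDR P i j).l s + AF g s ≠ lft t0 n k
  /-- free cells -/
  fr : ∀ᵐ g ∂PG, jwR P i j H g ≠ 0 → g ∈ jEp P i j G0 H → g ∈ jEq P i j G0 H → ∀ᶠ n in atTop, ∀ k : Fin 4 → ℤ,
    (k = fun s => kn t0 n ((jDR P i j).l s + AF g s)) → rotX P.u⁻¹ g ∈ jKR P i j (Hl (ci n k) (cj n k)) ∧
      ∀ s, lft t0 n (k s + 1) < lamF (jDR P i j) (phi8 (Hl (ci n k) (cj n k)).B (Hl (ci n k) (cj n k)).c
        (Hl (ci n k) (cj n k)).x) (rotX P.u⁻¹ g) s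

/-- the marks of the classes on the curves of the lattice 0 -/
def Sx (P : Prm) (i j : Fin 3) (H : Ga) (Hl : ℕ → ℕ → Ga) (n : Option (ℕ × ℕ)) : CC.Gm → Fin 8 → ℝ :=
  n.elim (jS P H) fun q g k => bi (rotX P.u⁻¹ g ∈ jKf P i j (Hl q.1 q.2)) *
    phi8 (Hl q.1 q.2).B (Hl q.1 q.2).c (Hl q.1 q.2).x (rotX P.u⁻¹ g) k

section

variable {V : Ultrafilter ℕ} {L : ℝ} {PG : Measure CC.Gm} {P : Prm} {i j : Fin 3} {t0 : ℝ} {G0 H : Ga} {Hl : ℕ → ℕ → Ga}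
  {u : ℕ → W3 × ℕ → Fin 4 → ℝ} {AF : CC.Gm → Fin 4 → ℝ} {Gd : Option (ℕ × ℕ) → Set CC.Gm}

lemma jKR_B {H : Ga} {g : CC.Gm} (h : g ∈ jKR P i j H) (k : Arm) : g ∈ H.B k := mem_iInter.1 (jKR_sub P i j H h).1 k

/-- the marks on the class -/
lemma sx_t8 {n : Option (ℕ × ℕ)} {g : CC.Gm} (h : rotX P.u⁻¹ g ∈ jKR P i j (Hx H Hl n)) (a : Fin 8) :
    Sx P i j H Hl n g a = (Hx H Hl n).t8 (rotX P.u⁻¹ g) a := by
  cases n with
  | none =>
    have h' : rotX P.u⁻¹ g ∈ jKR P i j H := h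
    show phi8 H.B H.c H.x (rotX P.u⁻¹ g) a = H.t8 (rotX P.u⁻¹ g) a
    rw [phi8_on fun k => jKR_B h' k]
  | some q =>
    have h' : rotX P.u⁻¹ g ∈ jKR P i j (Hl q.1 q.2) := h
    show bi (rotX P.u⁻¹ g ∈ jKf P i j (Hl q.1 q.2)) * phi8 (Hl q.1 q.2).B (Hl q.1 q.2).c (Hl q.1 q.2).x (rotX P.u⁻¹ g) a =
      (Hl q.1 q.2).t8 (rotX P.u⁻¹ g) a
    rw [bi_pos (jKR_sub _ _ _ _ h'), one_mul, phi8_on fun k => jKR_B h' k]

lemma ofReal_bi' {p : Prop} (h : ENNReal.ofReal (bi p) ≠ 0) : p := by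
  by_contra h1
  rw [bi_neg h1, ENNReal.ofReal_zero] at h
  exact h rfl

/-- **order of the gates** -/
theorem PkC.or (h : P.Ok) (K : PkC V L PG P i j t0 G0 H Hl u AF Gd) (n : Option (ℕ × ℕ)) : ∀ᵐ g ∂PG,
    g ∈ jKR P i j (Hx H Hl n) → ∀ k, OrA (Hx H Hl n) k g := by
  obtain ⟨y, y0, hK⟩ := K.cl n
  filter_upwards [K.uH n, hK] with g hu hg hR
  have hB : ∀ k, g ∈ (Hx H Hl n).B k := fun k => jKR_B hR k
  have h1 := hg hR
  rw [pji_phi8 hB] at h1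
  unfold clsK at h1
  simp only [max_le_iff] at h1
  obtain ⟨⟨⟨a1, a2⟩, a3, a4⟩, -⟩ := h1
  have lp := h.p.f.l
  have lq := h.q.f.l
  intro k
  cases k
  · exact orA_of_pre (P := P.p.f.up (y g 0)) (by show 0 < P.p.f.l + y g 0; linarith [y0 g 0]) hu (hB _) a1
  · exact orA_of_pre (P := P.q.f.up (y g 2)) (by show 0 < P.q.f.l + y g 2; linarith [y0 g 2]) hu (hB _) a3
  · exact orA_of_pre (P := P.q.f.up (y g 3)) (by show 0 < P.q.f.l + y g 3; linarith [y0 g 3]) hu (hB _) a4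
  · exact orA_of_pre (P := P.p.f.up (y g 1)) (by show 0 < P.p.f.l + y g 1; linarith [y0 g 1]) hu (hB _) a2

lemma jKf_ms (h : P.Ok) (hij : i ≠ j) {H : Ga} (hH : H.Ms) : MeasurableSet (jKf P i j H) :=
  k3S_ms (jDR_ok h hij) hH.all hH.phi8

lemma PkC.sx_ms (h : P.Ok) (hij : i ≠ j) (K : PkC V L PG P i j t0 G0 H Hl u AF Gd) (n : Option (ℕ × ℕ)) :
    Measurable (Sx P i j H Hl n) := by
  cases n with
  | none => exact jS_ms (K.mH none)
  | some q =>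
    have hm : (Hl q.1 q.2).Ms := K.mH (some q)
    have h1 : Measurable fun g => bi (g ∈ jKf P i j (Hl q.1 q.2)) := bi_ms (jKf_ms h hij hm)
    have h2 : Measurable fun g k => bi (g ∈ jKf P i j (Hl q.1 q.2)) * phi8 (Hl q.1 q.2).B (Hl q.1 q.2).c (Hl q.1 q.2).x g k :=
      measurable_pi_iff.2 fun k => h1.mul ((measurable_pi_apply k).comp hm.phi8)
    exact h2.comp (rotX_cont P.u⁻¹).measurable

/-- **the connections** -/
theorem PkC.con (h : P.Ok) (hij : i ≠ j) (hae : ∀ᵐ y ∂PG, 0 < y.2.1 ∧ y.2.1 < y.1) (hPz : PG.map (rotX P.u) = PG)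
    (K : PkC V L PG P i j t0 G0 H Hl u AF Gd) : ∃ Gd' : Option (ℕ × ℕ) → Set CC.Gm,
    ConIn P i j PG G0 (Hx H Hl) (fun n => jwR P i j (Hx H Hl n)) (Sx P i j H Hl) Gd' := by
  have hR : ∀ n, ∀ᵐ g ∂PG, jwR P i j (Hx H Hl n) g ≠ 0 → (Hx H Hl n).Un (rotX P.u⁻¹ g) ∧
      (∀ k, OrA (Hx H Hl n) k (rotX P.u⁻¹ g)) ∧ ∀ a, Sx P i j H Hl n g a = (Hx H Hl n).t8 (rotX P.u⁻¹ g) a := by
    intro n
    filter_upwards [ae_rotX h.u hPz (K.uH n), ae_rotX h.u hPz (K.or h n)] with g g1 g2 h0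
    have h1 : rotX P.u⁻¹ g ∈ jKR P i j (Hx H Hl n) := ofReal_bi' h0
    exact ⟨g1, g2 h1, fun a => sx_t8 h1 a⟩
  obtain ⟨Gd', -, hc⟩ := conIn_of (P := P) (i := i) (j := j) (μ := PG) (G0 := G0) (H := Hx H Hl)
    (w := fun n => jwR P i j (Hx H Hl n)) (S := Sx P i j H Hl) (Gd := Gd)
    (fun n => jwR_ms h hij (K.mH n)) (fun n => K.sx_ms h hij n) (fun n => jEp_ms h K.m0 (K.mH n))
    (fun n => jEq_ms h K.m0 (K.mH n)) (jTF_ms K.m0) K.ae hae K.u0 hR K.loc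
  exact ⟨Gd', hc⟩

/-- the levels of the gates of the lattice 0 -/
lemma lvM_sA {D : Dt} {z : ℂ} {g : CC.Gm} (hD : D.d = dirA i j .fp ∧ D.d' = dirA i j .bp ∧ D.t = dirA i j .bq ∧ D.t' = dirA i j .fq)
    (hz : ‖z‖ = 1) (hL : 0 < g.2.1 ∧ g.2.1 < g.1) (k : Arm) :
    lvM z D g (jTF G0 g) (sA k) = lv (z * dirA i j k) (g.2.2 (G0.ix k g) - g.2.2 (rtA k g)) := by
  obtain ⟨d1, d2, d3, d4⟩ := hD
  have hm : mu g = muG g := (muG_eq hL.1 hL.2).symm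
  have key : ∀ (d v : ℂ), lv d (z⁻¹ * v) = lv (z * d) v := by
    intro d v
    have e : z⁻¹ = (starRingEnd ℂ) z := by
      rw [Complex.inv_def, Complex.normSq_eq_norm_sq, hz]
      norm_num
    unfold lv
    rw [e, map_mul]
    congr 1
    ring
  have e0 : ex g.2.2 0 = g.2.2 0 := by
    rw [CC.ex_of g.2.2 ⟨le_rfl, zero_le_one⟩]
    rfl
  have e1 : ex g.2.2 1 = g.2.2 1 := by
    rw [CC.ex_of g.2.2 ⟨zero_le_one, le_rfl⟩]
    rfl
  cases k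
  · show lv D.d (z⁻¹ * (ex g.2.2 (G0.tx .fp g) - ex g.2.2 0)) = _
    rw [key, d1, e0]
    rfl
  · show lv D.t (z⁻¹ * (ex g.2.2 (G0.tx .bq g) - ex g.2.2 (mu g))) = _
    rw [key, d3, hm]
    rfl
  · show lv D.t' (z⁻¹ * (ex g.2.2 (G0.tx .fq g) - ex g.2.2 (mu g))) = _
    rw [key, d4, hm]
    rfl
  · show lv D.d' (z⁻¹ * (ex g.2.2 (G0.tx .bp g) - ex g.2.2 1)) = _
    rw [key, d2, e1]
    rfl

/-- the readings of the functional levels at an arm where the native gates exist -/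
lemma PkC.rd (h : P.Ok) (hae : ∀ᵐ y ∂PG, 0 < y.2.1 ∧ y.2.1 < y.1) (K : PkC V L PG P i j t0 G0 H Hl u AF Gd) : ∀ᵐ g ∂PG, ∀ k,
    g ∈ G0.B k → AF g (sA k) = lvM P.u (jDR P i j) g (jTF G0 g) (sA k) ∧ 0 < AF g (sA k) := by
  filter_upwards [hae, K.e4] with g g1 g2 k hk
  rw [lvM_sA (D := jDR P i j) ⟨rfl, rfl, rfl, rfl⟩ h.u g1 k]
  exact ⟨(g2 k hk).2, (g2 k hk).1⟩

/-- **the functional class and the classes with fixed thresholds** (helper62) -/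
theorem PkC.levH (h : P.Ok) (hij : i ≠ j) (hV : (V : Filter ℕ) ≤ atTop) (hC : Cv (V : Filter ℕ) (fun N => mwE N L) cN PG)
    (hae : ∀ᵐ y ∂PG, 0 < y.2.1 ∧ y.2.1 < y.1) (hPz : PG.map (rotX P.u) = PG) (K : PkC V L PG P i j t0 G0 H Hl u AF Gd)
    {Cp Cq : Set K4} {fp fq : K4 → Pie × Pie} (mCp : MeasurableSet Cp) (mCq : MeasurableSet Cq) (mfp : Measurable fp)
    (mfq : Measurable fq)
    (h3 : ∀ n, ∀ᵐ g ∂PG, jwR P i j (Hx H Hl n) g ≠ 0 → ((kap8 g (Sx P i j H Hl n g)).1 ∈ Cp ↔ g ∈ jEp P i j G0 (Hx H Hl n)) ∧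
      (g ∈ jEp P i j G0 (Hx H Hl n) → fp (kap8 g (Sx P i j H Hl n g)).1 = qpAt g (jTF G0 g) (m4 (Sx P i j H Hl n g))))
    (h4 : ∀ n, ∀ᵐ g ∂PG, jwR P i j (Hx H Hl n) g ≠ 0 → ((kap8 g (Sx P i j H Hl n g)).2 ∈ Cq ↔ g ∈ jEq P i j G0 (Hx H Hl n)) ∧
      (g ∈ jEq P i j G0 (Hx H Hl n) → fq (kap8 g (Sx P i j H Hl n g)).2 = qqAt g (jTF G0 g) (m4 (Sx P i j H Hl n g)))) :
    LevH V L PG P.u (jDR P i j) (acl P i) (acl P j) t0 u (fun g => bi (g ∈ jKR P i j H)) (phi8 H.B H.c H.x)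
      (lamF (jDR P i j) (phi8 H.B H.c H.x)) (fun m n g => bi (g ∈ jKR P i j (Hl m n)))
      (fun m n g k => bi (g ∈ jKf P i j (Hl m n)) * phi8 (Hl m n).B (Hl m n).c (Hl m n).x g k)
      (fun m n => lamF (jDR P i j) (phi8 (Hl m n).B (Hl m n).c (Hl m n).x)) AF Cp Cq fp fq (jTF G0) where
  cv := hC
  hV := hV
  hP := hae
  hz := h.u
  hPz := hPz
  ok := jDR_ok h hij
  hA := Eventually.of_forall fun N => acl_sub P i N
  hB := Eventually.of_forall fun N => acl_sub P j N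
  fn := K.fn
  lu := K.lu
  fix := fun m n => (K.full m n).full hC (K.sub m n) (fun N => acl_sub P i N) fun N => acl_sub P j N
  lam := by
    intro m n
    refine Eventually.of_forall fun g hg => ?_
    have h1 : g ∈ jKR P i j (Hl m n) := by
      by_contra h2
      exact hg (bi_neg h2)
    have h2 : g ∈ jKf P i j (Hl m n) := jKR_sub _ _ _ _ h1
    show lamF (jDR P i j) (phi8 (Hl m n).B (Hl m n).c (Hl m n).x) g = _
    rw [lamF_eq (jDR_ok h hij) h2]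
    congr 1
    funext k
    show pji (phi8 (Hl m n).B (Hl m n).c (Hl m n).x g k) =
      pji (bi (g ∈ jKf P i j (Hl m n)) * phi8 (Hl m n).B (Hl m n).c (Hl m n).x g k)
    rw [bi_pos h2, one_mul]
  mCp := mCp
  mCq := mCq
  mfp := mfp
  mfq := mfq
  rp := by
    intro m n
    filter_upwards [h3 (some (m, n)), K.rd h hae] with g g1 g2 h0 hk
    obtain ⟨a1, a2⟩ := g1 h0
    have hE : g ∈ jEp P i j G0 (Hl m n) := a1.1 hk
    exact ⟨a2 hE, ⟨(g2 .fp hE.1.e).1, (g2 .bp hE.2.1.e).1⟩, (g2 .fp hE.1.e).2, (g2 .bp hE.2.1.e).2⟩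
  rq := by
    intro m n
    filter_upwards [h4 (some (m, n)), K.rd h hae] with g g1 g2 h0 hk
    obtain ⟨a1, a2⟩ := g1 h0
    have hE : g ∈ jEq P i j G0 (Hl m n) := a1.1 hk
    exact ⟨a2 hE, ⟨(g2 .bq hE.1.e).1, (g2 .fq hE.2.1.e).1⟩, (g2 .bq hE.1.e).2, (g2 .fq hE.2.1.e).2⟩
  ne := K.ne
  fr := by
    filter_upwards [h3 none, h4 none, K.rd h hae, K.fr] with g g1 g2 g3 g4 h0 hp hq
    have hEp : g ∈ jEp P i j G0 H := (g1 h0).1.1 hp
    have hEq : g ∈ jEq P i j G0 H := (g2 h0).1.1 hq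
    refine ⟨fun s => ?_, ?_⟩
    · fin_cases s
      · exact (g3 .fp hEp.1.e).2
      · exact (g3 .bp hEp.2.1.e).2
      · exact (g3 .bq hEq.1.e).2
      · exact (g3 .fq hEq.2.1.e).2
    · filter_upwards [g4 h0 hEp hEq] with n hn k hk
      obtain ⟨b1, b2⟩ := hn k hk
      refine ⟨?_, b2⟩
      show bi (rotX P.u⁻¹ g ∈ jKR P i j (Hl (ci n k) (cj n k))) ≠ 0
      rw [bi_pos b1]
      exact one_ne_zero

end

/-! ### The pair -/

section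

variable {V : Ultrafilter ℕ} (hV : (V : Filter ℕ) ≤ atTop) {P : Prm} (h : P.Ok) {ρ τ : ℝ} (hρ : 0 < ρ)
  (hp1 : P.p.Nr (bE ρ τ)) (hq1 : P.q.Nr (bE ρ τ)) (hu : ‖P.u - 1‖ ≤ 1 / 100000000)
  {β b : Fin 3 → Measure Pie} (H : ClsL V P β b) {i j : Fin 3} (hij : i ≠ j) (hj : j ≠ 0) {L : ℝ} {PG : Measure CC.Gm}
  [SFinite PG] (hC : Cv (V : Filter ℕ) (fun N => mwE N L) cN PG) (hae : ∀ᵐ y ∂PG, 0 < y.2.1 ∧ y.2.1 < y.1)
  (hPz : PG.map (rotX P.u) = PG)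
  {ζ x0 A : ℝ} (T : AllT ζ x0 A) (hx0 : 0 < x0) (n1 : NumT ζ A P.p.n) (n2 : NumT ζ A P.q.n) (n3 : NumT ζ A P.p.f)
  (n4 : NumT ζ A P.q.f) (g1 : GnQ V P.p.n) (g2 : GnQ V P.p.f) (l1 : (jD0 P i j).len ≤ L) (l2 : (jDR P i j).len ≤ L)
  (low0 : LowT (V : Filter ℕ) (jD0 P i j)) (lowR : LowT (V : Filter ℕ) (jDR P i j))

include hV h hρ hp1 hq1 hu H hij hj hC hae hPz T hx0 n1 n2 n3 n4 g1 g2 l1 l2 low0 lowR

/-- **one pair of classes, all cells** -/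
theorem prAll_pk {t0 : ℝ} {G0 HH : Ga} {Hl : ℕ → ℕ → Ga} {u : ℕ → W3 × ℕ → Fin 4 → ℝ} {AF : CC.Gm → Fin 4 → ℝ}
    {Gd : Option (ℕ × ℕ) → Set CC.Gm} (K : PkC V L PG P i j t0 G0 HH Hl u AF Gd) {C : Fin 3 → Set Pie}
    {t t' : Fin 3 → Pie → ℝ} (v1 : ∀ r ∈ C i, (r, (t i r, t' i r)) ∈ VC P i) (v2 : ∀ r ∈ C j, (r, (t j r, t' j r)) ∈ VC P j)
    (M : Mk3 PG (jw0 P i j G0) (jT G0) (jF1 P i j G0 HH) (jF2 P i j G0 HH) (jSF P HH) (C i) (C j) (t i) (t' i) (t j) (t' j)) :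
    PrAll P ρ β b t t' C i j := by
  obtain ⟨Gd', hc⟩ := K.con h hij hae hPz
  obtain ⟨Cp, Cq, fp, fq, mCp, mCq, mfp, mfq, -, -, h3, h4⟩ := con_marks hc (V := univ) (V' := univ) MeasurableSet.univ
    MeasurableSet.univ (fun _ _ _ _ _ => mem_univ _) fun _ _ _ _ _ => mem_univ _
  have hL := K.levH h hij hV hC hae hPz mCp mCq mfp mfq h3 h4
  have h5 := jm_h5 h K.jh
  have h6 := jm_h6 h hj K.jh
  exact prAll_lv hV h hρ hp1 hq1 hu H hij hC hae hPz T hx0 n1 n2 n3 n4 g1 g2 l1 l2 low0 lowR t0 K.z0 K.full K.sub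
    (levF_prm hL) mfp mfq v1 v2 fun R R' _ _ _ _ => M.jm (h3 none) (h4 none)
      (by
        filter_upwards [h5] with g hg a1 a2 a3 _
        exact hg a1 a2 a3)
      (by
        filter_upwards [h6] with g hg a1 a2 a3 _
        exact hg a1 a2 a3)

end

end Pool.Agent.ROT.F3.CK
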