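import Pool.Agent.ROT.F3GenQ

/-!
# ROT, block F3, row GEN (helper11): objects chosen from the earlier coordinates

* `pick R P` : one object `a` with `R a P`; **`pick_agr`** : it depends on the coordinates before `f` only, if `R a` does; `Rp R` : the
  relation `a = pick R P ∧ R a P` (use it as `R0` in the rows: then all rows, and all the members of a family `QF`, have the same object);
* **`gP_c1`, `gP_c2`, `gP_c3`** : one / two / three coordinates off countable sets, with objects;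
* **`qq_pick`** : dense families of later coordinates with the same object.
-/

set_option autoImplicit false

open MeasureTheory Filter Set

namespace Pool.Agent.ROT.F3.Gn

section pick

variable {A : Type*} [Nonempty A] {R : A → Prm → Prop} {f : Fd} {P P' : Prm} {z : ℂ} {B : Bx}

open Classical in
/-- one object -/
noncomputable def pick (R : A → Prm → Prop) (P : Prm) : A := if h : ∃ a, R a P then h.choose else Classical.arbitrary A

lemma pick_spec (h : ∃ a, R a P) : R (pick R P) P := by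
  unfold pick
  rw [dif_pos h]
  exact h.choose_spec

open Classical in
/-- the object depends on the coordinates before `f` only -/
lemma pick_agr (hRe : ∀ a (P P' : Prm), Agr f P P' → R a P → R a P') (h : Agr f P P') : pick R P = pick R P' := by
  have e : (fun a => R a P) = fun a => R a P' := by
    funext a
    exact propext ⟨hRe a P P' h, hRe a P' P h.symm⟩
  have key : ∀ p p' : A → Prop, p = p' → (if h : ∃ a, p a then h.choose else Classical.arbitrary A) =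
      if h : ∃ a, p' a then h.choose else Classical.arbitrary A := by
    rintro p _ rfl
    rfl
  exact key _ _ e

/-- the relation `a = pick R P ∧ R a P` -/
def Rp (R : A → Prm → Prop) (a : A) (P : Prm) : Prop := a = pick R P ∧ R a P

lemma Rp.agr (hRe : ∀ a (P P' : Prm), Agr f P P' → R a P → R a P') : ∀ a (P P' : Prm), Agr f P P' → Rp R a P → Rp R a P' :=
  fun a P P' h h1 => ⟨h1.1.trans (pick_agr hRe h), hRe a P P' h h1.2⟩

lemma Rp.ex (h : ∃ a, R a P) : ∃ a, Rp R a P := ⟨_, rfl, pick_spec h⟩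

lemma Rp.ev {l : Filter Prm} (h : ∀ᶠ P in l, ∃ a, R a P) : ∀ᶠ P in l, ∃ a, Rp R a P := h.mono fun _ h1 => Rp.ex h1

/-- from a row with `Rp R` -/
lemma Rp.out {l : Filter Prm} {S : A → Prm → Prop} (h : ∀ᶠ P in l, ∃ a, Rp R a P ∧ S a P) :
    ∀ᶠ P in l, R (pick R P) P ∧ S (pick R P) P := h.mono fun P ⟨a, ⟨h1, h2⟩, h3⟩ => by
  subst h1
  exact ⟨h2, h3⟩

/-- **dense families of later coordinates with the same object** -/
theorem qq_pick {f0 : Fd} (hRe : ∀ a (P P' : Prm), Agr f0 P P' → R a P → R a P') {S : A → Prm → Prop}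
    (h : ∀ B' : Bx, B'.Le B z → ∀ᶠ P in gP z B', ∃ a, Rp R a P ∧ S a P) :
    ∀ᶠ P in gP z B, R (pick R P) P ∧ QFx f0 z B (fun P' => S (pick R P) P') P := by
  have h1 := qq_ex (Q := fun P => S (pick R P) P) f0 fun B' hB' => (Rp.out (h B' hB')).mono fun P hP => hP.2
  have h2 : ∀ᶠ P in gP z B, R (pick R P) P ∧ S (pick R P) P := Rp.out (h B fun _ h => h)
  filter_upwards [h1, h2] with P ⟨QQ, h3⟩ h4
  refine ⟨h4.1, QQ, h3.win, h3.agr, fun m => ?_, h3.dense⟩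
  have h5 := h3.q m
  rwa [← pick_agr hRe (h3.agr m)] at h5

end pick

section cnt

variable {A : Type*} {R : A → Prm → Prop} {z : ℂ} {B : Bx} {f1 f2 f3 : Fd}

/-- **one coordinate off a countable set** -/
theorem gP_c1 (hR : ∀ᶠ P in gP z B, ∃ a, R a P) (hRe : ∀ a (P P' : Prm), Agr f1 P P' → R a P → R a P') {W1 : ℝ → Prop}
    {Q : A → ℝ → Prop} (hw : ∀ P : Prm, B.In z P → W1 (f1.get P))
    (h : ∀ a P, B.In z P → R a P → ∃ F : Set ℝ, F.Countable ∧ ∀ m : ℝ, m ∉ F → W1 m → Q a m) :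
    ∀ᶠ P in gP z B, ∃ a, R a P ∧ Q a (f1.get P) := by
  refine gP_f_of f1 (R := fun P => ∃ a, R a P) hR (fun P P' hA ⟨a, ha⟩ => ⟨a, hRe a P' P hA.symm ha⟩) fun P hP ⟨a, ha⟩ => ?_
  obtain ⟨F, hF, h1⟩ := h a P hP ha
  exact ⟨F, hF.measure_zero _, fun P' hP' hA hm => ⟨a, hRe a P P' hA ha, h1 _ hm (hw P' hP')⟩⟩

/-- **two coordinates off countable sets, one after the other** -/
theorem gP_c2 (h12 : f1.rk < f2.rk) (hR : ∀ᶠ P in gP z B, ∃ a, R a P) (hRe : ∀ a (P P' : Prm), Agr f1 P P' → R a P → R a P')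
    {W1 W2 : ℝ → Prop} {Q : A → ℝ → ℝ → Prop} (hw1 : ∀ P : Prm, B.In z P → W1 (f1.get P)) (hw2 : ∀ P : Prm, B.In z P → W2 (f2.get P))
    (h : ∀ a P, B.In z P → R a P → ∃ F : Set ℝ, F.Countable ∧ ∀ m : ℝ, m ∉ F → W1 m → ∃ F' : Set ℝ, F'.Countable ∧
      ∀ m' : ℝ, m' ∉ F' → W2 m' → Q a m m') :
    ∀ᶠ P in gP z B, ∃ a, R a P ∧ Q a (f1.get P) (f2.get P) := by
  have s1 := gP_c1 (Q := fun a m => ∃ F' : Set ℝ, F'.Countable ∧ ∀ m' : ℝ, m' ∉ F' → W2 m' → Q a m m') hR hRe hw1 h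
  have e : ∀ {P P' : Prm}, Agr f2 P P' → f1.get P' = f1.get P := fun hA => hA.g f1 h12
  have s2 := gP_c1 (f1 := f2) (W1 := W2) (R := fun (x : A × ℝ) (P : Prm) => R x.1 P ∧ x.2 = f1.get P ∧ ∃ F' : Set ℝ, F'.Countable ∧
    ∀ m' : ℝ, m' ∉ F' → W2 m' → Q x.1 x.2 m') (Q := fun x m' => Q x.1 x.2 m')
    (s1.mono fun P ⟨a, h1, h2⟩ => ⟨(a, f1.get P), h1, rfl, h2⟩)
    (fun x P P' hA hx => ⟨hRe x.1 P P' (hA.mono h12.le) hx.1, hx.2.1.trans (e hA).symm, hx.2.2⟩) hw2 fun x P _ hx => hx.2.2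
  refine s2.mono fun P ⟨x, hx, hQ⟩ => ⟨x.1, hx.1, ?_⟩
  rw [← hx.2.1]
  exact hQ

/-- **three coordinates off countable sets, one after the other** -/
theorem gP_c3 (h12 : f1.rk < f2.rk) (h23 : f2.rk < f3.rk) (hR : ∀ᶠ P in gP z B, ∃ a, R a P)
    (hRe : ∀ a (P P' : Prm), Agr f1 P P' → R a P → R a P')
    {W1 W2 W3 : ℝ → Prop} {Q : A → ℝ → ℝ → ℝ → Prop} (hw1 : ∀ P : Prm, B.In z P → W1 (f1.get P))
    (hw2 : ∀ P : Prm, B.In z P → W2 (f2.get P)) (hw3 : ∀ P : Prm, B.In z P → W3 (f3.get P))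
    (h : ∀ a P, B.In z P → R a P → ∃ F : Set ℝ, F.Countable ∧ ∀ m : ℝ, m ∉ F → W1 m → ∃ F' : Set ℝ, F'.Countable ∧
      ∀ m' : ℝ, m' ∉ F' → W2 m' → ∃ F'' : Set ℝ, F''.Countable ∧ ∀ m'' : ℝ, m'' ∉ F'' → W3 m'' → Q a m m' m'') :
    ∀ᶠ P in gP z B, ∃ a, R a P ∧ Q a (f1.get P) (f2.get P) (f3.get P) := by
  have s1 := gP_c2 (Q := fun a m m' => ∃ F'' : Set ℝ, F''.Countable ∧ ∀ m'' : ℝ, m'' ∉ F'' → W3 m'' → Q a m m' m'') h12 hR hRe hw1 hw2 h
  have e1 : ∀ {P P' : Prm}, Agr f3 P P' → f1.get P' = f1.get P := fun hA => hA.g f1 (h12.trans h23)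
  have e2 : ∀ {P P' : Prm}, Agr f3 P P' → f2.get P' = f2.get P := fun hA => hA.g f2 h23
  have s2 := gP_c1 (f1 := f3) (W1 := W3) (R := fun (x : A × ℝ × ℝ) (P : Prm) => R x.1 P ∧ (x.2.1 = f1.get P ∧ x.2.2 = f2.get P) ∧
    ∃ F'' : Set ℝ, F''.Countable ∧ ∀ m'' : ℝ, m'' ∉ F'' → W3 m'' → Q x.1 x.2.1 x.2.2 m'') (Q := fun x m'' => Q x.1 x.2.1 x.2.2 m'')
    (s1.mono fun P ⟨a, h1, h2⟩ => ⟨(a, f1.get P, f2.get P), h1, ⟨rfl, rfl⟩, h2⟩)
    (fun x P P' hA hx => ⟨hRe x.1 P P' (hA.mono (h12.trans h23).le) hx.1,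
      ⟨hx.2.1.1.trans (e1 hA).symm, hx.2.1.2.trans (e2 hA).symm⟩, hx.2.2⟩) hw3 fun x P _ hx => hx.2.2
  refine s2.mono fun P ⟨x, hx, hQ⟩ => ⟨x.1, hx.1, ?_⟩
  rw [← hx.2.1.1, ← hx.2.1.2]
  exact hQ

end cnt

end Pool.Agent.ROT.F3.Gn
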