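import Pool.Agent.ROT.F3Sym

/-!
# ROT, row W4 (helper16): the four arcs of a closed word with two roots, products of functionals of the arcs

`w` = closed word with `n + 1` letters, roots at the vertices `0` and `m` (`m` even). Four arcs, read from a root:
`fp` = `w.take m` (from `p`), `bq` = the same arc read from `q`, `fq` = `w.drop m` (from `q`), `bp` = the same arc read from `p`.

* `arcw_eq`, `tsum_mv` : every arc is the first part of the image of `w` under a bijection of the closed words;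
* `crv_arc` : the curve of the arc is, up to `1 / size l`, the image of the curve of `w` under the Lipschitz map `subc`;
* `ArcE G ε K n l` : in the mean over the closed words `G` of the first `l` letters is, up to `ε`, a `K`-Lipschitz functional of
  the curve of these `l` letters; `arcE_sym` : the six directions; **`arc_one`** : the same for every arc, functional of the closed
  curve; **`arc_prod`** : for a finite product over arcs.
-/

set_option autoImplicit false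

open Filter

namespace Pool.Agent.ROT.F3

open Finset
open Pool.Agent.NTS.Res (step pos saw fug size curve)
open Pool.Agent.PMA.Res (pol)

/-! ### interpolated vertices -/

/-- the interpolated vertices -/
noncomputable def pr (w : W3) (x : ℝ) : ℂ := ps w ⌊x⌋₊ + ((x - ⌊x⌋₊ : ℝ) : ℂ) * (ps w (⌊x⌋₊ + 1) - ps w ⌊x⌋₊)

lemma pr_apply {w : W3} {i : ℕ} {x : ℝ} (h1 : (i : ℝ) ≤ x) (h2 : x ≤ i + 1) :
    pr w x = ps w i + ((x - i : ℝ) : ℂ) * (ps w (i + 1) - ps w i) := by
  unfold pr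
  rcases h2.lt_or_eq with h | h
  · have : ⌊x⌋₊ = i := (Nat.floor_eq_iff ((Nat.cast_nonneg i).trans h1)).2 ⟨h1, h⟩
    rw [this]
  · have : ⌊x⌋₊ = i + 1 := (Nat.floor_eq_iff ((Nat.cast_nonneg i).trans h1)).2 ⟨by rw [h]; push_cast; exact le_rfl, by rw [h]; push_cast; linarith⟩
    rw [this, h]
    push_cast
    ring

lemma pr_nat (w : W3) (i : ℕ) : pr w i = ps w i := by
  rw [pr_apply (i := i) le_rfl (by linarith)]
  simp

lemma pr_zero (w : W3) : pr w 0 = 0 := by
  have := pr_nat w 0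
  rwa [Nat.cast_zero, ps_zero] at this

/-- an index of the step at the time `x` -/
lemma ex_idx {m : ℕ} (hm : 1 ≤ m) {x : ℝ} (h0 : 0 ≤ x) (hx : x ≤ m) : ∃ i : ℕ, i + 1 ≤ m ∧ (i : ℝ) ≤ x ∧ x ≤ i + 1 := by
  rcases hx.lt_or_eq with h | h
  · refine ⟨⌊x⌋₊, ?_, Nat.floor_le h0, (Nat.lt_floor_add_one x).le⟩
    have := (Nat.floor_lt h0).2 h
    omega
  · refine ⟨m - 1, by omega, ?_, ?_⟩
    · rw [h]
      exact_mod_cast Nat.sub_le _ _
    · rw [h]
      have : ((m - 1 : ℕ) : ℝ) + 1 = m := by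
        have : m - 1 + 1 = m := by omega
        exact_mod_cast this
      rw [this]

lemma pr_take (w : W3) {m : ℕ} (hm : m ≤ w.length) {x : ℝ} (h0 : 0 ≤ x) (hx : x ≤ m) : pr (w.take m) x = pr w x := by
  rcases Nat.eq_zero_or_pos m with rfl | h
  · have : x = 0 := le_antisymm (by simpa using hx) h0
    rw [this, pr_zero, pr_zero]
  · obtain ⟨i, hi, h1, h2⟩ := ex_idx h h0 hx
    rw [pr_apply h1 h2, pr_apply h1 h2, ps_take w (by omega) hm, ps_take w hi hm]

lemma pr_drop (w : W3) {m : ℕ} (hm : m ≤ w.length) (he : Even m) {x : ℝ} (h0 : 0 ≤ x) :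
    pr (w.drop m) x = pr w (m + x) - ps w m := by
  have h1 : (⌊x⌋₊ : ℝ) ≤ x := Nat.floor_le h0
  have h2 : x ≤ ⌊x⌋₊ + 1 := (Nat.lt_floor_add_one x).le
  rw [pr_apply h1 h2, pr_apply (w := w) (i := m + ⌊x⌋₊) (x := m + x) (by push_cast; linarith) (by push_cast; linarith),
    ps_append_drop w hm he, ps_append_drop w hm he]
  push_cast
  rw [← add_assoc]
  ring

lemma pr_reverse {u : W3} (hu : Even u.length) {x : ℝ} (h0 : 0 ≤ x) (hx : x ≤ u.length) :
    pr u.reverse x = pr u (u.length - x) - en u := by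
  rcases Nat.eq_zero_or_pos u.length with h | h
  · have : u = [] := List.length_eq_zero_iff.1 h
    subst this
    have : x = 0 := le_antisymm (by simpa using hx) h0
    subst this
    simp [pr_zero]
  · obtain ⟨i, hi, h1, h2⟩ := ex_idx h h0 hx
    have e : ((u.length - (i + 1) : ℕ) : ℝ) = u.length - (i + 1) := by
      rw [Nat.cast_sub hi]
      push_cast
      ring
    rw [pr_apply h1 h2, pr_apply (w := u) (i := u.length - (i + 1)) (x := u.length - x) (by rw [e]; linarith)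
      (by rw [e]; linarith), ps_reverse hu (by omega), ps_reverse hu hi, e, show u.length - (i + 1) + 1 = u.length - i by omega]
    push_cast
    ring

lemma w4_norm_st (w : W3) (i : ℕ) : ‖st w i‖ ≤ 1 := by
  by_cases h : i < w.length
  · rw [st_of_lt h, Pool.Agent.PMA.LimR.norm_step']
  · rw [st_of_le (by omega), norm_zero]
    exact zero_le_one

lemma pr_near (w : W3) {n : ℕ} {x : ℝ} (h1 : (n : ℝ) ≤ x) (h2 : x ≤ n + 1) : ‖pr w x - pr w n‖ ≤ 1 := by
  rw [pr_apply h1 h2, pr_nat, ps_succ]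
  have e : ps w n + ((x - n : ℝ) : ℂ) * (ps w n + st w n - ps w n) - ps w n = ((x - n : ℝ) : ℂ) * st w n := by ring
  rw [e, norm_mul, Complex.norm_real, Real.norm_of_nonneg (by linarith)]
  have := w4_norm_st w n
  have h3 : x - n ≤ 1 := by linarith
  calc (x - n) * ‖st w n‖ ≤ 1 * 1 := mul_le_mul h3 this (norm_nonneg _) zero_le_one
    _ = 1 := one_mul 1

/-- the curve -/
lemma crv_eq {w : W3} {n : ℕ} {d : ℝ} (hn : 1 ≤ n) (t : unitInterval) : crv w n d t = pr w (t * n) / d := by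
  have h0 : (0 : ℝ) ≤ t * n := mul_nonneg t.2.1 (Nat.cast_nonneg n)
  have h1 : (t : ℝ) * n ≤ n := mul_le_of_le_one_left (Nat.cast_nonneg n) t.2.2
  obtain ⟨i, hi, h2, h3⟩ := ex_idx hn h0 h1
  rw [crv_apply (i := i) (by omega) h2 h3, pr_apply h2 h3]
  congr 1
  push_cast
  ring

/-! ### the four arcs -/

/-- the arcs: from `p` forwards, the same from `q`, from `q` forwards, the same from `p` -/
inductive Arm | fp | bq | fq | bp
  deriving DecidableEq

/-- the number of the letters of the arc -/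
def Arm.len (n m : ℕ) : Arm → ℕ
  | .fp => m
  | .bq => m
  | .fq => n + 1 - m
  | .bp => n + 1 - m

/-- the arc -/
def arcw (m : ℕ) : Arm → W3 → W3
  | .fp, w => w.take m
  | .bq, w => (w.take m).reverse
  | .fq, w => w.drop m
  | .bp, w => (w.drop m).reverse

/-- the closed word which begins with the arc -/
def Arm.mv (m : ℕ) : Arm → W3 → W3
  | .fp, w => w
  | .bq, w => (w.rotate m).reverse
  | .fq, w => w.rotate m
  | .bp, w => w.reverse

lemma arcw_eq (k : Arm) {n m : ℕ} {w : W3} (hw : w.length = n + 1) (hm : m ≤ n + 1) :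
    arcw m k w = (k.mv m w).take (k.len n m) := by
  have h1 : m ≤ w.length := by omega
  cases k with
  | fp => rfl
  | bq =>
    show (w.take m).reverse = (w.rotate m).reverse.take m
    rw [List.rotate_eq_drop_append_take h1, List.reverse_append]
    exact (List.take_left' (by simp; omega)).symm
  | fq =>
    show w.drop m = (w.rotate m).take (n + 1 - m)
    rw [List.rotate_eq_drop_append_take h1]
    exact (List.take_left' (by simp; omega)).symm
  | bp =>
    show (w.drop m).reverse = w.reverse.take (n + 1 - m)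
    conv_rhs => rw [← List.take_append_drop m w]
    rw [List.reverse_append]
    exact (List.take_left' (by simp; omega)).symm

lemma length_arcw (k : Arm) {n m : ℕ} {w : W3} (hw : w.length = n + 1) (hm : m ≤ n + 1) :
    (arcw m k w).length = k.len n m := by
  cases k <;> simp [arcw, Arm.len, hw] <;> omega

lemma tsum_mv {M : Type*} [AddCommMonoid M] [TopologicalSpace M] (k : Arm) {n m : ℕ} (he : Even m) (f : W3 → M) :
    ∑' w : Cln n, f (k.mv m w) = ∑' w : Cln n, f w := by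
  cases k with
  | fp => rfl
  | bq =>
    show ∑' w : Cln n, (fun w => f w.reverse) ((w : W3).rotate m) = _
    rw [tsum_rotate n m he fun w => f w.reverse, tsum_reverse]
  | fq => exact tsum_rotate n m he f
  | bp => exact tsum_reverse n f

/-- the times of the arc in the closed curve -/
noncomputable def Arm.tm (n m : ℕ) : Arm → ℝ → ℝ
  | .fp, t => t * m
  | .bq, t => m - t * m
  | .fq, t => m + t * (n + 1 - m : ℕ)
  | .bp, t => n + 1 - t * (n + 1 - m : ℕ)

/-- the time of the root of the arc -/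
noncomputable def Arm.rt (m : ℕ) : Arm → ℕ
  | .fp => 0
  | .bq => m
  | .fq => m
  | .bp => 0

lemma Arm.tm_nonneg (k : Arm) {n m : ℕ} (hm : m ≤ n) {t : ℝ} (h0 : 0 ≤ t) (h1 : t ≤ 1) : 0 ≤ k.tm n m t := by
  have hm0 : (0 : ℝ) ≤ m := Nat.cast_nonneg m
  have hn0 : (0 : ℝ) ≤ ((n + 1 - m : ℕ) : ℝ) := Nat.cast_nonneg _
  have e : ((n + 1 - m : ℕ) : ℝ) = n + 1 - m := by
    rw [Nat.cast_sub (by omega)]
    push_cast
    ring
  cases k with
  | fp => exact mul_nonneg h0 hm0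
  | bq =>
    show (0 : ℝ) ≤ m - t * m
    nlinarith
  | fq =>
    show (0 : ℝ) ≤ m + t * (n + 1 - m : ℕ)
    positivity
  | bp =>
    show (0 : ℝ) ≤ n + 1 - t * (n + 1 - m : ℕ)
    have : t * ((n + 1 - m : ℕ) : ℝ) ≤ 1 * ((n + 1 - m : ℕ) : ℝ) := mul_le_mul_of_nonneg_right h1 hn0
    linarith

lemma Arm.tm_le (k : Arm) {n m : ℕ} (hm : m ≤ n) {t : ℝ} (h0 : 0 ≤ t) (h1 : t ≤ 1) : k.tm n m t ≤ n + 1 := by
  have hm0 : (0 : ℝ) ≤ m := Nat.cast_nonneg m
  have hmn : (m : ℝ) ≤ n := by exact_mod_cast hm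
  have hn0 : (0 : ℝ) ≤ ((n + 1 - m : ℕ) : ℝ) := Nat.cast_nonneg _
  have e : ((n + 1 - m : ℕ) : ℝ) = n + 1 - m := by
    rw [Nat.cast_sub (by omega)]
    push_cast
    ring
  cases k with
  | fp =>
    show t * m ≤ n + 1
    nlinarith
  | bq =>
    show (m : ℝ) - t * m ≤ n + 1
    nlinarith
  | fq =>
    show (m : ℝ) + t * (n + 1 - m : ℕ) ≤ n + 1
    have : t * ((n + 1 - m : ℕ) : ℝ) ≤ 1 * ((n + 1 - m : ℕ) : ℝ) := mul_le_mul_of_nonneg_right h1 hn0
    linarith
  | bp =>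
    show (n : ℝ) + 1 - t * (n + 1 - m : ℕ) ≤ n + 1
    have : 0 ≤ t * ((n + 1 - m : ℕ) : ℝ) := mul_nonneg h0 hn0
    linarith

/-- **the interpolated vertices of the arc** -/
lemma pr_arcw (k : Arm) {n m : ℕ} {w : W3} (hw : Cl w) (hl : w.length = n + 1) (he : Even m) (hm : m ≤ n) {t : ℝ}
    (h0 : 0 ≤ t) (h1 : t ≤ 1) : pr (arcw m k w) (t * k.len n m) = pr w (k.tm n m t) - pr w (k.rt m) := by
  have hml : m ≤ w.length := by omega
  have hm0 : (0 : ℝ) ≤ m := Nat.cast_nonneg m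
  have hn0 : (0 : ℝ) ≤ ((n + 1 - m : ℕ) : ℝ) := Nat.cast_nonneg _
  have e : ((n + 1 - m : ℕ) : ℝ) = n + 1 - m := by
    rw [Nat.cast_sub (by omega)]
    push_cast
    ring
  have ht : t * m ≤ m := by nlinarith
  have ht2 : t * ((n + 1 - m : ℕ) : ℝ) ≤ ((n + 1 - m : ℕ) : ℝ) := by nlinarith
  have hlt : (w.take m).length = m := by
    rw [List.length_take]
    omega
  have hld : (w.drop m).length = n + 1 - m := by
    rw [List.length_drop]
    omega
  have hed : Even (w.drop m).length := by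
    rw [List.length_drop]
    exact (Nat.even_sub hml).2 ⟨fun _ => he, fun _ => hw.1⟩
  have h00 : pr w ((0 : ℕ) : ℝ) = 0 := by
    rw [pr_nat, ps_zero]
  cases k with
  | fp =>
    show pr (w.take m) (t * m) = pr w (t * m) - pr w ((0 : ℕ) : ℝ)
    rw [pr_take w hml (by positivity) ht, h00, sub_zero]
  | bq =>
    show pr (w.take m).reverse (t * m) = pr w (m - t * m) - pr w m
    rw [pr_reverse (by rw [hlt]; exact he) (by positivity) (by rw [hlt]; exact ht), hlt,
      pr_take w hml (by linarith) (by linarith [mul_nonneg h0 hm0]), en_take w hml, pr_nat]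
  | fq =>
    show pr (w.drop m) (t * (n + 1 - m : ℕ)) = pr w (m + t * (n + 1 - m : ℕ)) - pr w m
    rw [pr_drop w hml he (by positivity), pr_nat]
  | bp =>
    show pr (w.drop m).reverse (t * (n + 1 - m : ℕ)) = pr w (n + 1 - t * (n + 1 - m : ℕ)) - pr w ((0 : ℕ) : ℝ)
    rw [pr_reverse hed (by positivity) (by rw [hld]; exact ht2), hld, pr_drop w hml he (by linarith), h00, sub_zero]
    have h3 : en (w.drop m) = -ps w m := by
      rw [en, hld, ps_append_drop w hml he, show m + (n + 1 - m) = w.length by omega]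
      have : ps w w.length = 0 := hw.2.1
      rw [this, zero_sub]
    rw [h3, e]
    rw [show (m : ℝ) + (n + 1 - m - t * (n + 1 - m)) = n + 1 - t * (n + 1 - m) by ring]
    ring

/-! ### sub-curves -/

/-- the sub-curve: times `a`, seen from the point at the time `b`, multiplied by `c` -/
noncomputable def subc (c : ℝ) (a : C(unitInterval, unitInterval)) (b : unitInterval) (γ : C(unitInterval, ℂ)) : C(unitInterval, ℂ) :=
  ⟨fun t => (c : ℂ) * (γ (a t) - γ b), by fun_prop⟩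

lemma subc_dist {c : ℝ} (hc : 0 ≤ c) (a : C(unitInterval, unitInterval)) (b : unitInterval) (γ γ' : C(unitInterval, ℂ)) :
    dist (subc c a b γ) (subc c a b γ') ≤ 2 * c * dist γ γ' := by
  refine (ContinuousMap.dist_le (mul_nonneg (by positivity) dist_nonneg)).2 fun t => ?_
  show dist ((c : ℂ) * (γ (a t) - γ b)) ((c : ℂ) * (γ' (a t) - γ' b)) ≤ _
  rw [dist_eq_norm, ← mul_sub, norm_mul, Complex.norm_real, Real.norm_of_nonneg hc]
  have h1 : ‖γ (a t) - γ' (a t)‖ ≤ dist γ γ' := by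
    rw [← dist_eq_norm]
    exact ContinuousMap.dist_apply_le_dist _
  have h2 : ‖γ b - γ' b‖ ≤ dist γ γ' := by
    rw [← dist_eq_norm]
    exact ContinuousMap.dist_apply_le_dist _
  have h3 : ‖γ (a t) - γ b - (γ' (a t) - γ' b)‖ ≤ 2 * dist γ γ' := by
    rw [show γ (a t) - γ b - (γ' (a t) - γ' b) = (γ (a t) - γ' (a t)) - (γ b - γ' b) by ring]
    exact (norm_sub_le _ _).trans (by linarith)
  calc c * ‖γ (a t) - γ b - (γ' (a t) - γ' b)‖ ≤ c * (2 * dist γ γ') := mul_le_mul_of_nonneg_left h3 hc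
    _ = _ := by ring

/-- the times of the arc, in `[0, 1]` -/
noncomputable def Arm.ta (k : Arm) (n m : ℕ) : C(unitInterval, unitInterval) :=
  ⟨fun t => Set.projIcc (0 : ℝ) 1 zero_le_one (k.tm n m t / n), by
    refine continuous_projIcc.comp ?_
    cases k <;> unfold Arm.tm <;> fun_prop⟩

/-- the root of the arc, in `[0, 1]` -/
noncomputable def Arm.tb (k : Arm) (n m : ℕ) : unitInterval := Set.projIcc (0 : ℝ) 1 zero_le_one ((k.rt m : ℝ) / n)

/-- **the curve of the arc from the curve of the closed word** -/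
theorem crv_arc (k : Arm) {n m : ℕ} {w : W3} (hw : Cl w) (hl : w.length = n + 1) (he : Even m) (hm1 : 1 ≤ m) (hm : m ≤ n)
    (hs : 0 < size n) (hs2 : 0 < size (k.len n m)) :
    dist (crv (arcw m k w) (k.len n m) (size (k.len n m)))
      (subc (size n / size (k.len n m)) (k.ta n m) (k.tb n m) (crv w n (size n))) ≤ 1 / size (k.len n m) := by
  have hn1 : 1 ≤ n := by omega
  have hn0 : (0 : ℝ) < n := by exact_mod_cast hn1
  have hl1 : 1 ≤ k.len n m := by cases k <;> simp [Arm.len] <;> omega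
  refine (ContinuousMap.dist_le (by positivity)).2 fun t => ?_
  rw [crv_eq hl1, pr_arcw k hw hl he hm t.2.1 t.2.2]
  show dist _ (((size n / size (k.len n m) : ℝ) : ℂ) * (crv w n (size n) (k.ta n m t) - crv w n (size n) (k.tb n m))) ≤ _
  rw [crv_eq hn1, crv_eq hn1]
  have hrt : (k.rt m : ℝ) ≤ n := by
    cases k <;> simp [Arm.rt] <;> exact_mod_cast hm
  have e1 : (k.tb n m : ℝ) * n = k.rt m := by
    unfold Arm.tb
    rw [Set.projIcc_of_mem zero_le_one (x := (k.rt m : ℝ) / n) ⟨by positivity, (div_le_one hn0).2 hrt⟩]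
    show (k.rt m : ℝ) / n * n = k.rt m
    field_simp
  have e2 : ((k.ta n m t : unitInterval) : ℝ) * n = min (k.tm n m t) n := by
    have h0 := k.tm_nonneg hm t.2.1 t.2.2
    show ((Set.projIcc (0 : ℝ) 1 zero_le_one (k.tm n m t / n) : unitInterval) : ℝ) * n = _
    rcases le_total (k.tm n m t) n with h | h
    · rw [Set.projIcc_of_mem zero_le_one (x := k.tm n m t / n) ⟨by positivity, (div_le_one hn0).2 h⟩, min_eq_left h]
      show k.tm n m t / n * n = k.tm n m t
      field_simp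
    · rw [Set.projIcc_of_right_le zero_le_one ((one_le_div hn0).2 h), min_eq_right h]
      show (1 : ℝ) * n = n
      rw [one_mul]
  rw [e1, e2]
  have h3 : ‖pr w (k.tm n m t) - pr w (min (k.tm n m t) n)‖ ≤ 1 := by
    rcases le_total (k.tm n m t) n with h | h
    · rw [min_eq_left h, sub_self, norm_zero]
      exact zero_le_one
    · rw [min_eq_right h]
      exact pr_near w h (k.tm_le hm t.2.1 t.2.2)
  have hsc : (size n : ℂ) ≠ 0 := by exact_mod_cast hs.ne'
  have hsc2 : (size (k.len n m) : ℂ) ≠ 0 := by exact_mod_cast hs2.ne'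
  have e3 : (pr w (k.tm n m t) - pr w (k.rt m)) / (size (k.len n m) : ℂ) - ((size n / size (k.len n m) : ℝ) : ℂ) *
      (pr w (min (k.tm n m t) n) / (size n : ℂ) - pr w (k.rt m) / (size n : ℂ)) =
      (pr w (k.tm n m t) - pr w (min (k.tm n m t) n)) / (size (k.len n m) : ℂ) := by
    push_cast
    field_simp
    ring
  rw [dist_eq_norm, e3, norm_div, Complex.norm_real, Real.norm_of_nonneg hs2.le]
  exact div_le_div_of_nonneg_right h3 hs2.le

/-! ### functionals of the arcs -/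

/-- in the mean over the closed words with `n + 1` letters, `G` of the first `l` letters is up to `ε` a `K`-Lipschitz functional of
the curve of these `l` letters -/
def ArcE (G : W3 → ℝ) (ε K : ℝ) (n l : ℕ) : Prop := ∃ φ : C(unitInterval, ℂ) → ℝ, (∀ γ γ', |φ γ - φ γ'| ≤ K * dist γ γ') ∧
  (∀ γ, |φ γ| ≤ 1) ∧ ∑ s ∈ pol n, |G ((clw s).take l) - φ (crv ((clw s).take l) l (size l))| ≤ ε * ((pol n).card : ℝ)

/-- the six directions -/
theorem arcE_sym (T : LSym) {G : W3 → ℝ} {ε K : ℝ} {n l : ℕ} (hn : Odd n) (h : ArcE G ε K n l) :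
    ArcE (fun w => G (mp T w)) ε K n l := by
  obtain ⟨φ, h1, h2, h3⟩ := h
  refine ⟨fun γ => φ (T.act γ), fun γ γ' => ?_, fun γ => h2 _, ?_⟩
  · have := h1 (T.act γ) (T.act γ')
    rwa [act_dist] at this
  · refine le_trans (le_of_eq ?_) h3
    rw [sum_pol' hn fun w => |G (mp T (w.take l)) - φ (T.act (crv (w.take l) l (size l)))|,
      sum_pol' hn fun w => |G (w.take l) - φ (crv (w.take l) l (size l))|,
      ← tsum_mp_Cln T (n + 1) fun w => |G (w.take l) - φ (crv (w.take l) l (size l))|]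
    refine tsum_congr fun w => ?_
    rw [← mp_take, crv_mp]

/-- **one arc**: a functional of the closed curve -/
theorem arc_one (k : Arm) {G : W3 → ℝ} {ε K : ℝ} {n m : ℕ} (hn : Odd n) (he : Even m) (hm1 : 1 ≤ m) (hm : m ≤ n) (hK : 0 ≤ K)
    (hs : 0 < size n) (hs2 : 0 < size (k.len n m)) (h : ArcE G ε K n (k.len n m)) :
    ∃ Φ : C(unitInterval, ℂ) → ℝ, (∀ γ γ', |Φ γ - Φ γ'| ≤ 2 * K * (size n / size (k.len n m)) * dist γ γ') ∧ (∀ γ, |Φ γ| ≤ 1) ∧
      ∑ s ∈ pol n, |G (arcw m k (clw s)) - Φ (curve s)| ≤ (ε + K / size (k.len n m)) * ((pol n).card : ℝ) := by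
  obtain ⟨φ, h1, h2, h3⟩ := h
  obtain ⟨l, hl⟩ : ∃ l : ℕ, l = k.len n m := ⟨_, rfl⟩
  rw [← hl] at hs2 h3 ⊢
  refine ⟨fun γ => φ (subc (size n / size l) (k.ta n m) (k.tb n m) γ), fun γ γ' => ?_, fun γ => h2 _, ?_⟩
  · refine (h1 _ _).trans ?_
    have := subc_dist (c := size n / size l) (by positivity) (k.ta n m) (k.tb n m) γ γ'
    calc K * dist (subc (size n / size l) (k.ta n m) (k.tb n m) γ) (subc (size n / size l) (k.ta n m) (k.tb n m) γ') ≤
        K * (2 * (size n / size l) * dist γ γ') := mul_le_mul_of_nonneg_left this hK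
      _ = _ := by ring
  · have e1 : ∑ s ∈ pol n, |G ((clw s).take l) - φ (crv ((clw s).take l) l (size l))| =
        ∑ s ∈ pol n, |G (arcw m k (clw s)) - φ (crv (arcw m k (clw s)) l (size l))| := by
      rw [sum_pol' hn fun w => |G (w.take l) - φ (crv (w.take l) l (size l))|,
        sum_pol' hn fun w => |G (arcw m k w) - φ (crv (arcw m k w) l (size l))|,
        ← tsum_mv k he fun w => |G (w.take l) - φ (crv (w.take l) l (size l))|]
      refine tsum_congr fun w => ?_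
      rw [arcw_eq k w.2.2 (by omega), ← hl]
    rw [e1] at h3
    have e2 : ∀ s ∈ pol n, |G (arcw m k (clw s)) - φ (subc (size n / size l) (k.ta n m) (k.tb n m) (curve s))| ≤
        |G (arcw m k (clw s)) - φ (crv (arcw m k (clw s)) l (size l))| + K / size l := by
      intro s hs'
      obtain ⟨hc, hlen⟩ := clw_mem hn hs'
      have h5 := crv_arc k hc hlen he hm1 hm hs (by rw [← hl]; exact hs2)
      rw [← hl, ← curve_clw s] at h5
      have h6 := h1 (crv (arcw m k (clw s)) l (size l)) (subc (size n / size l) (k.ta n m) (k.tb n m) (curve s))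
      have h7 : K * dist (crv (arcw m k (clw s)) l (size l)) (subc (size n / size l) (k.ta n m) (k.tb n m) (curve s)) ≤
          K / size l :=
        (mul_le_mul_of_nonneg_left h5 hK).trans (le_of_eq (by ring))
      have h8 := abs_sub_le (G (arcw m k (clw s))) (φ (crv (arcw m k (clw s)) l (size l)))
        (φ (subc (size n / size l) (k.ta n m) (k.tb n m) (curve s)))
      linarith
    refine (sum_le_sum e2).trans ?_
    rw [sum_add_distrib, sum_const, nsmul_eq_mul, add_mul]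
    linarith [mul_comm ((pol n).card : ℝ) (K / size l)]

/-! ### products -/

lemma prod_sub {ι : Type*} (J : Finset ι) (a b : ι → ℝ) (ha : ∀ i ∈ J, |a i| ≤ 1) (hb : ∀ i ∈ J, |b i| ≤ 1) :
    |∏ i ∈ J, a i - ∏ i ∈ J, b i| ≤ ∑ i ∈ J, |a i - b i| := by
  classical
  induction J using Finset.induction_on with
  | empty => simp
  | @insert i J hi ih =>
    rw [prod_insert hi, prod_insert hi, sum_insert hi]
    have h1 := ih (fun j hj => ha j (mem_insert_of_mem hj)) fun j hj => hb j (mem_insert_of_mem hj)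
    have h2 : |∏ j ∈ J, a j| ≤ 1 := by
      rw [abs_prod]
      exact prod_le_one (fun j _ => abs_nonneg _) fun j hj => ha j (mem_insert_of_mem hj)
    have h3 := hb i (mem_insert_self i J)
    have e : a i * ∏ j ∈ J, a j - b i * ∏ j ∈ J, b j = (a i - b i) * ∏ j ∈ J, a j + b i * (∏ j ∈ J, a j - ∏ j ∈ J, b j) := by
      ring
    rw [e]
    refine (abs_add_le _ _).trans (add_le_add ?_ ?_)
    · rw [abs_mul]
      exact mul_le_of_le_one_right (abs_nonneg _) h2
    · rw [abs_mul]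
      calc |b i| * |∏ j ∈ J, a j - ∏ j ∈ J, b j| ≤ 1 * |∏ j ∈ J, a j - ∏ j ∈ J, b j| :=
            mul_le_mul_of_nonneg_right h3 (abs_nonneg _)
        _ ≤ _ := by rw [one_mul]; exact h1

/-- **a finite product of functionals of the arcs** is a functional of the closed curve -/
theorem arc_prod {ι : Type*} (J : Finset ι) (k : ι → Arm) {G : ι → W3 → ℝ} (hG : ∀ i ∈ J, ∀ w, |G i w| ≤ 1) {ε K q r : ℝ}
    {n m : ℕ} (hn : Odd n) (he : Even m) (hm1 : 1 ≤ m) (hm : m ≤ n) (hK : 0 ≤ K) (hs : 0 < size n) (hq : 0 < q)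
    (hs2 : ∀ i ∈ J, q ≤ size ((k i).len n m)) (hr : ∀ i ∈ J, size n / size ((k i).len n m) ≤ r)
    (h : ∀ i ∈ J, ArcE (G i) ε K n ((k i).len n m)) :
    ∃ Φ : C(unitInterval, ℂ) → ℝ, (∀ γ γ', |Φ γ - Φ γ'| ≤ J.card * (2 * K * r) * dist γ γ') ∧ (∀ γ, |Φ γ| ≤ 1) ∧
      ∑ s ∈ pol n, |∏ i ∈ J, G i (arcw m (k i) (clw s)) - Φ (curve s)| ≤ J.card * (ε + K / q) * ((pol n).card : ℝ) := by
  classical
  have h1 : ∀ i : ι, ∃ Φ : C(unitInterval, ℂ) → ℝ, i ∈ J → (∀ γ γ', |Φ γ - Φ γ'| ≤ 2 * K * r * dist γ γ') ∧ (∀ γ, |Φ γ| ≤ 1) ∧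
      ∑ s ∈ pol n, |G i (arcw m (k i) (clw s)) - Φ (curve s)| ≤ (ε + K / q) * ((pol n).card : ℝ) := by
    intro i
    by_cases hi : i ∈ J
    · obtain ⟨Φ, a, b, c⟩ := arc_one (k i) hn he hm1 hm hK hs (hq.trans_le (hs2 i hi)) (h i hi)
      refine ⟨Φ, fun _ => ⟨fun γ γ' => (a γ γ').trans ?_, b, c.trans ?_⟩⟩
      · exact mul_le_mul_of_nonneg_right (mul_le_mul_of_nonneg_left (hr i hi) (by positivity)) dist_nonneg
      · refine mul_le_mul_of_nonneg_right ?_ (Nat.cast_nonneg _)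
        have := div_le_div_of_nonneg_left hK hq (hs2 i hi)
        linarith
    · exact ⟨fun _ => 0, fun hi' => absurd hi' hi⟩
  choose Φ hΦ using h1
  refine ⟨fun γ => ∏ i ∈ J, Φ i γ, fun γ γ' => ?_, fun γ => ?_, ?_⟩
  · refine (prod_sub J _ _ (fun i hi => (hΦ i hi).2.1 γ) fun i hi => (hΦ i hi).2.1 γ').trans ?_
    refine (sum_le_sum fun i hi => (hΦ i hi).1 γ γ').trans ?_
    rw [sum_const, nsmul_eq_mul]
    exact le_of_eq (by ring)
  · rw [abs_prod]
    exact prod_le_one (fun i _ => abs_nonneg _) fun i hi => (hΦ i hi).2.1 γ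
  · refine (sum_le_sum fun s _ => prod_sub J _ _ (fun i hi => hG i hi _) fun i hi => (hΦ i hi).2.1 _).trans ?_
    rw [sum_comm]
    refine (sum_le_sum fun i hi => (hΦ i hi).2.2).trans ?_
    rw [sum_const, nsmul_eq_mul]
    exact le_of_eq (by ring)

/-! ### all large polygons -/

lemma size34 : ∃ c C : ℝ, 0 < c ∧ 0 < C ∧ ∀ n : ℕ, 1 ≤ n → c * (n : ℝ) ^ (3 / 4 : ℝ) ≤ size n ∧
    size n ≤ C * (n : ℝ) ^ (3 / 4 : ℝ) := by
  obtain ⟨c0, C0, hc0, hsz⟩ := (NTSF.Mg.oneFacts NTSF.finE).sz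
  refine ⟨c0, C0, hc0, ?_, hsz⟩
  have h1 := hsz 1 le_rfl
  rw [Nat.cast_one, Real.one_rpow, mul_one, mul_one] at h1
  exact hc0.trans_le (h1.1.trans h1.2)

/-- the ratio of two sizes -/
lemma size_ratio {δ : ℝ} (hδ : 0 < δ) : ∃ r : ℝ, 0 < r ∧ ∀ n l : ℕ, 1 ≤ n → 1 ≤ l → δ * n ≤ l → size n / size l ≤ r := by
  obtain ⟨c, C, hc, hC, hsz⟩ := size34
  refine ⟨C / c * (1 / δ) ^ (3 / 4 : ℝ), by positivity, fun n l hn hl h => ?_⟩
  have hl0 : (0 : ℝ) < l := by exact_mod_cast hl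
  have h1 := (hsz l hl).1
  have h2 := (hsz n hn).2
  have hp : 0 < c * (l : ℝ) ^ (3 / 4 : ℝ) := by positivity
  have h3 : (n : ℝ) ^ (3 / 4 : ℝ) ≤ (1 / δ) ^ (3 / 4 : ℝ) * (l : ℝ) ^ (3 / 4 : ℝ) := by
    rw [← Real.mul_rpow (by positivity) hl0.le]
    refine Real.rpow_le_rpow (Nat.cast_nonneg n) ?_ (by norm_num)
    rw [one_div, ← div_eq_inv_mul, le_div_iff₀ hδ]
    linarith
  rw [div_le_iff₀ (hp.trans_le h1)]
  have h4 : C / c * (1 / δ) ^ (3 / 4 : ℝ) * (c * (l : ℝ) ^ (3 / 4 : ℝ)) ≤ C / c * (1 / δ) ^ (3 / 4 : ℝ) * size l :=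
    mul_le_mul_of_nonneg_left h1 (by positivity)
  refine le_trans (h2.trans ?_) h4
  calc C * (n : ℝ) ^ (3 / 4 : ℝ) ≤ C * ((1 / δ) ^ (3 / 4 : ℝ) * (l : ℝ) ^ (3 / 4 : ℝ)) := mul_le_mul_of_nonneg_left h3 hC.le
    _ = _ := by field_simp

/-- the sizes of the arcs are large -/
lemma size_large {δ : ℝ} (hδ : 0 < δ) (A : ℝ) : ∃ n0 : ℕ, ∀ n l : ℕ, n0 ≤ n → δ * n ≤ l → A ≤ size l := by
  obtain ⟨c, C, hc, hC, hsz⟩ := size34
  have h1 : Tendsto (fun n : ℕ => c * (δ * (n : ℝ)) ^ (3 / 4 : ℝ)) atTop atTop :=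
    ((tendsto_rpow_atTop (by norm_num)).comp (tendsto_natCast_atTop_atTop.const_mul_atTop hδ)).const_mul_atTop hc
  obtain ⟨n1, hn1⟩ := eventually_atTop.1 (h1.eventually_ge_atTop A)
  refine ⟨n1 + 1, fun n l hn h => ?_⟩
  have hn0 : (0 : ℝ) < n := by exact_mod_cast (by omega : 0 < n)
  have hl : 1 ≤ l := by
    have : (0 : ℝ) < l := (mul_pos hδ hn0).trans_le h
    exact_mod_cast this
  refine (hn1 n (by omega)).trans (le_trans ?_ (hsz l hl).1)
  exact mul_le_mul_of_nonneg_left (Real.rpow_le_rpow (by positivity) h (by norm_num)) hc.le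

variable {α : Type*}

/-- **the hypothesis for one arc**: family `G a S` (`S` = unit of length), `a` along the filter `l` -/
def ArcF (l : Filter α) (G : α → ℝ → W3 → ℝ) : Prop := ∀ ε δ K0 : ℝ, 0 < ε → 0 < δ → 0 < K0 → ∃ (K : ℝ) (n0 : ℕ), 0 ≤ K ∧
  ∀ᶠ a in l, ∀ n j : ℕ, n0 ≤ n → Odd n → Even j → δ * n ≤ j → (j : ℝ) ≤ (1 - δ) * n → ∀ S : ℝ, size j / K0 ≤ S → S ≤ size j →
    ArcE (G a S) ε K n j

/-- the six directions -/
theorem arcF_sym (T : LSym) {l : Filter α} {G : α → ℝ → W3 → ℝ} (h : ArcF l G) : ArcF l fun a S w => G a S (mp T w) := by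
  intro ε δ K0 hε hδ hK0
  obtain ⟨K, n0, hK, h1⟩ := h ε δ K0 hε hδ hK0
  refine ⟨K, n0, hK, h1.mono fun a ha n j hn ho he h2 h3 S h4 h5 => ?_⟩
  exact arcE_sym T ho (ha n j hn ho he h2 h3 S h4 h5)

/-- **the products over the arcs**: for all large `n`, all second roots, all units `S` -/
theorem macP {ι : Type*} (J : Finset ι) (k : ι → Arm) {l : Filter α} {G : ι → α → ℝ → W3 → ℝ}
    (hG : ∀ᶠ a in l, ∀ i ∈ J, ∀ S : ℝ, 0 ≤ S → ∀ w, |G i a S w| ≤ 1) (h : ∀ i ∈ J, ArcF l (G i)) :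
    ∀ ε δ K0 : ℝ, 0 < ε → 0 < δ → 0 < K0 → ∃ (K : ℝ) (n0 : ℕ), 0 ≤ K ∧ ∀ᶠ a in l, ∀ n m : ℕ, n0 ≤ n → Odd n → Even m →
      δ * n ≤ m → (m : ℝ) ≤ (1 - δ) * n → ∀ S : ℝ, size n / K0 ≤ S → S ≤ size m → S ≤ size (n + 1 - m) →
        ∃ Φ : C(unitInterval, ℂ) → ℝ, (∀ γ γ', |Φ γ - Φ γ'| ≤ K * dist γ γ') ∧ (∀ γ, |Φ γ| ≤ 1) ∧
          ∑ s ∈ pol n, |∏ i ∈ J, G i a S (arcw m (k i) (clw s)) - Φ (curve s)| ≤ ε * ((pol n).card : ℝ) := by
  classical
  intro ε δ K0 hε hδ hK0
  rcases J.eq_empty_or_nonempty with rfl | hJ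
  · refine ⟨0, 0, le_rfl, Eventually.of_forall fun a n m _ _ _ _ _ S _ _ _ => ⟨fun _ => 1, fun _ _ => by simp, fun _ => by simp, ?_⟩⟩
    simp only [prod_empty, sub_self, abs_zero, sum_const_zero]
    positivity
  have hJ0 : (0 : ℝ) < J.card := by exact_mod_cast hJ.card_pos
  obtain ⟨c, C, hc, hC, hsz⟩ := size34
  obtain ⟨r1, hr1, hrat⟩ := size_ratio (δ := δ) hδ
  obtain ⟨r2, hr2, hrat2⟩ := size_ratio (δ := (1 / 2 : ℝ)) (by norm_num)
  have hε2 : 0 < ε / (2 * J.card) := by positivity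
  -- the constants of the arcs
  have hex : ∀ i : ι, ∃ (K : ℝ) (n0 : ℕ), 0 ≤ K ∧ (i ∈ J → ∀ᶠ a in l, ∀ n j : ℕ, n0 ≤ n → Odd n → Even j → δ / 2 * n ≤ j →
      (j : ℝ) ≤ (1 - δ / 2) * n → ∀ S : ℝ, size j / (K0 * r2) ≤ S → S ≤ size j → ArcE (G i a S) (ε / (2 * J.card)) K n j) := by
    intro i
    by_cases hi : i ∈ J
    · obtain ⟨K, n0, h1, h2⟩ := h i hi (ε / (2 * J.card)) (δ / 2) (K0 * r2) hε2 (by positivity) (by positivity)
      exact ⟨K, n0, h1, fun _ => h2⟩
    · exact ⟨0, 0, le_rfl, fun hi' => absurd hi' hi⟩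
  choose Kf nf hK0' hKf using hex
  obtain ⟨K, hK⟩ : ∃ K : ℝ, K = ∑ i ∈ J, Kf i := ⟨_, rfl⟩
  have hK1 : 0 ≤ K := by
    rw [hK]
    exact sum_nonneg fun i _ => hK0' i
  have hKi : ∀ i ∈ J, Kf i ≤ K := fun i hi => by
    rw [hK]
    exact single_le_sum (f := Kf) (fun j _ => hK0' j) hi
  obtain ⟨q, hq⟩ : ∃ q : ℝ, q = max 1 (K / (ε / (2 * J.card))) := ⟨_, rfl⟩
  have hq0 : 0 < q := by
    rw [hq]
    exact zero_lt_one.trans_le (le_max_left _ _)
  have hKq : K / q ≤ ε / (2 * J.card) := by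
    rw [div_le_iff₀ hq0]
    have : K / (ε / (2 * J.card)) ≤ q := by
      rw [hq]
      exact le_max_right _ _
    rw [div_le_iff₀ hε2] at this
    linarith
  obtain ⟨n1, hn1⟩ := size_large hδ q
  obtain ⟨n2, hn2⟩ := exists_nat_ge (2 / δ)
  refine ⟨J.card * (2 * K * r1), ∑ i ∈ J, nf i + n1 + n2 + 2, by positivity, ?_⟩
  have hall : ∀ᶠ a in l, ∀ i ∈ J, ∀ n j : ℕ, nf i ≤ n → Odd n → Even j → δ / 2 * n ≤ j →
      (j : ℝ) ≤ (1 - δ / 2) * n → ∀ S : ℝ, size j / (K0 * r2) ≤ S → S ≤ size j → ArcE (G i a S) (ε / (2 * J.card)) (Kf i) n j :=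
    (eventually_all_finset J).2 fun i hi => hKf i hi
  filter_upwards [hG, hall] with a haG haA n m hn ho he hm1 hm2 S hS1 hS2 hS3
  have hnr : (2 / δ : ℝ) ≤ n := hn2.trans (by exact_mod_cast (by omega : n2 ≤ n))
  rw [div_le_iff₀ hδ] at hnr
  have hn0 : (0 : ℝ) < n := by exact_mod_cast (by omega : 0 < n)
  have hm0 : 1 ≤ m := by
    have : (0 : ℝ) < m := (mul_pos hδ hn0).trans_le hm1
    exact_mod_cast this
  have hmn : m ≤ n := by
    have : (m : ℝ) ≤ n := by nlinarith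
    exact_mod_cast this
  have e : ((n + 1 - m : ℕ) : ℝ) = n + 1 - m := by
    rw [Nat.cast_sub (by omega)]
    push_cast
    ring
  have hspos : ∀ j : ℕ, 1 ≤ j → 0 < size j := fun j hj => by
    have hj0 : (0 : ℝ) < j := by exact_mod_cast hj
    exact (by positivity : 0 < c * (j : ℝ) ^ (3 / 4 : ℝ)).trans_le (hsz j hj).1
  -- the numbers of the letters of the arcs
  have hlen : ∀ κ : Arm, δ * n ≤ (κ.len n m : ℝ) ∧ (κ.len n m : ℝ) ≤ (1 - δ / 2) * n ∧ Even (κ.len n m) ∧ S ≤ size (κ.len n m) := by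
    have h1 : δ * n ≤ (m : ℝ) ∧ (m : ℝ) ≤ (1 - δ / 2) * n ∧ Even m ∧ S ≤ size m := ⟨hm1, by nlinarith, he, hS2⟩
    have h2 : δ * n ≤ ((n + 1 - m : ℕ) : ℝ) ∧ ((n + 1 - m : ℕ) : ℝ) ≤ (1 - δ / 2) * n ∧ Even (n + 1 - m) ∧ S ≤ size (n + 1 - m) := by
      refine ⟨by rw [e]; nlinarith, by rw [e]; nlinarith, ?_, hS3⟩
      exact (Nat.even_sub (by omega)).2 ⟨fun _ => he, fun _ => ho.add_one⟩
    intro κ
    cases κ
    · exact h1
    · exact h1
    · exact h2
    · exact h2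
  have hS0 : 0 ≤ S := le_trans (by have := hspos n (by omega); positivity) hS1
  have hlen1 : ∀ κ : Arm, 1 ≤ κ.len n m := fun κ => by
    have : (0 : ℝ) < (κ.len n m : ℝ) := (mul_pos hδ hn0).trans_le (hlen κ).1
    exact_mod_cast this
  obtain ⟨Φ, h1, h2, h3⟩ := arc_prod J k (G := fun i => G i a S) (fun i hi w => haG i hi S hS0 w) (ε := ε / (2 * J.card)) (K := K)
    (q := q) (r := r1) ho he hm0 hmn hK1 (hspos n (by omega)) hq0
    (fun i _ => hn1 n _ (by omega) (hlen (k i)).1)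
    (fun i _ => hrat n _ (by omega) (hlen1 (k i)) (hlen (k i)).1) (by
      intro i hi
      obtain ⟨a1, a2, a3, a4⟩ := hlen (k i)
      have hni : nf i ≤ n := by
        have := single_le_sum (f := nf) (fun j _ => Nat.zero_le _) hi
        omega
      obtain ⟨φ, b1, b2, b3⟩ := haA i hi n ((k i).len n m) hni ho a3 (by nlinarith) a2 S (by
        have h5 : size ((k i).len n m) / size n ≤ r2 := by
          refine hrat2 _ _ (hlen1 (k i)) (by omega) ?_
          have : ((k i).len n m : ℝ) ≤ n := by nlinarith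
          linarith
        rw [div_le_iff₀ (hspos n (by omega))] at h5
        refine le_trans ?_ hS1
        rw [div_le_div_iff₀ (by positivity) hK0]
        nlinarith) a4
      exact ⟨φ, fun γ γ' => (b1 γ γ').trans (mul_le_mul_of_nonneg_right (hKi i hi) dist_nonneg), b2, b3⟩)
  refine ⟨Φ, h1, h2, h3.trans (mul_le_mul_of_nonneg_right ?_ (Nat.cast_nonneg _))⟩
  calc (J.card : ℝ) * (ε / (2 * J.card) + K / q) ≤ J.card * (ε / (2 * J.card) + ε / (2 * J.card)) :=
        mul_le_mul_of_nonneg_left (by linarith) hJ0.le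
    _ = ε := by field_simp; ring

/-! ### functionals of `Fin n → Fin 3` -/

/-- a functional of the walks as a functional of the lists -/
def ofg (g : (n : ℕ) → (Fin n → Fin 3) → ℝ) (w : W3) : ℝ := g w.length w.get

lemma ofg_ofFn (g : (n : ℕ) → (Fin n → Fin 3) → ℝ) {n : ℕ} (s : Fin n → Fin 3) : ofg g (List.ofFn s) = g n s := by
  unfold ofg
  have h : ∀ (m : ℕ) (h : m = n) (t : Fin m → Fin 3), (∀ i, t i = s (Fin.cast h i)) → g m t = g n s := by
    rintro m rfl t ht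
    congr 1
    funext i
    exact ht i
  refine h _ (List.length_ofFn) _ fun i => ?_
  simp only [List.get_ofFn]

end Pool.Agent.ROT.F3
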