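import Pool.Agent.ROT.F3K3A
import Pool.Agent.ROT.W4M

/-!
# ROT, F3, row K3 (helper4 for helper2): from the gates of the four strands to the eight positions in the closed word

* `v8 c g N x` : the eight positions from the gates `c k`, `g k` (= `x`) of the four arms (positions in `arcw x.2 k x.1`);
* `okA` : even, in order, in the strand; `allA` : the event that the gates of all strands exist; `v8_pos` : `PosG`;
* `AIn` : the input per strand (events and times in units of the length of the arm);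
* **`k3_strands`** : the fields `ev`, `tm`, `pos` of `GIn` (helper2), with explicit limits `phi8`; **`gin_of`** : `GIn` from `AIn` and the
  dictionary.
-/

set_option autoImplicit false

namespace Pool.Agent.ROT.F3.CK

open MeasureTheory Filter Topology Set unitInterval

open scoped NNReal ENNReal Classical

open Pool.Agent.ROT.F3 Pool.Agent.ROT.F3.LF

/-! ### 1. Positions -/

/-- **the eight positions**, `c k`, `g k` = positions of the two gates of the arm `k` -/
def v8 (c g : Arm → ℕ → W3 × ℕ → ℕ) (N : ℕ) (x : W3 × ℕ) : Fin 8 → ℕ :=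
  ![c .fp N x, g .fp N x, x.2 - g .bq N x, x.2 - c .bq N x, x.2 + c .fq N x, x.2 + g .fq N x, x.1.length - g .bp N x,
    x.1.length - c .bp N x]

/-- the gates are even vertices of their strands, in order -/
def okA (c g : Arm → ℕ → W3 × ℕ → ℕ) (N : ℕ) (x : W3 × ℕ) : Prop :=
  ∀ k : Arm, Even (c k N x) ∧ Even (g k N x) ∧ c k N x ≤ g k N x ∧ g k N x ≤ (arcw x.2 k x.1).length

/-- **all gates exist** -/
def allA (A : Arm → ℕ → W3 × ℕ → Prop) (c g : Arm → ℕ → W3 × ℕ → ℕ) (N : ℕ) (x : W3 × ℕ) : Prop :=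
  Spt x ∧ (∀ k, A k N x) ∧ okA c g N x

section pos

variable {x : W3 × ℕ}

lemma al_fp (h : x.2 ≤ x.1.length) : (arcw x.2 .fp x.1).length = x.2 := by
  show (x.1.take x.2).length = x.2
  rw [List.length_take]
  exact min_eq_left h

lemma al_bq (h : x.2 ≤ x.1.length) : (arcw x.2 .bq x.1).length = x.2 := by
  show (x.1.take x.2).reverse.length = x.2
  rw [List.length_reverse, List.length_take]
  exact min_eq_left h

lemma al_fq (x : W3 × ℕ) : (arcw x.2 .fq x.1).length = x.1.length - x.2 := by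
  show (x.1.drop x.2).length = _
  rw [List.length_drop]

lemma al_bp (x : W3 × ℕ) : (arcw x.2 .bp x.1).length = x.1.length - x.2 := by
  show (x.1.drop x.2).reverse.length = _
  rw [List.length_reverse, List.length_drop]

/-- **the positions are in their strands** -/
theorem v8_pos {c g : Arm → ℕ → W3 × ℕ → ℕ} {N : ℕ} (hx : Spt x) (h : okA c g N x) : PosG x (v8 c g N x) := by
  obtain ⟨hcl, em, hm⟩ := hx
  have el : Even x.1.length := hcl.1
  obtain ⟨a1, a2, a3, a4⟩ := h .fp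
  obtain ⟨b1, b2, b3, b4⟩ := h .bq
  obtain ⟨c1, c2, c3, c4⟩ := h .fq
  obtain ⟨d1, d2, d3, d4⟩ := h .bp
  rw [al_fp hm.le] at a4
  rw [al_bq hm.le] at b4
  rw [al_fq] at c4
  rw [al_bp] at d4
  have v0 : v8 c g N x 0 = c .fp N x := rfl
  have v1 : v8 c g N x 1 = g .fp N x := rfl
  have v2 : v8 c g N x 2 = x.2 - g .bq N x := rfl
  have v3 : v8 c g N x 3 = x.2 - c .bq N x := rfl
  have v4 : v8 c g N x 4 = x.2 + c .fq N x := rfl
  have v5 : v8 c g N x 5 = x.2 + g .fq N x := rfl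
  have v6 : v8 c g N x 6 = x.1.length - g .bp N x := rfl
  have v7 : v8 c g N x 7 = x.1.length - c .bp N x := rfl
  refine ⟨fun i => ?_, em, el, hm.le, ?_, ?_, ?_, ?_, ?_, ?_, ?_, ?_, ?_, ?_⟩
  · fin_cases i
    · exact a1
    · exact a2
    · exact em.tsub b2
    · exact em.tsub b1
    · exact em.add c1
    · exact em.add c2
    · exact el.tsub d2
    · exact el.tsub d1
  · rw [v0, v1]; exact a3
  · rw [v1]; exact a4
  · rw [v2, v3]; omega
  · rw [v3]; omega
  · rw [v4]; omega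
  · rw [v4, v5]; omega
  · rw [v5]; omega
  · rw [v6]; omega
  · rw [v6, v7]; omega
  · rw [v7]; omega

lemma PosG.le {v : Fin 8 → ℕ} (h : PosG x v) (k : Fin 8) : v k ≤ x.1.length := by
  have h01 := h.h01
  have h1 := h.h1
  have h23 := h.h23
  have h3 := h.h3
  have h4 := h.h4
  have h45 := h.h45
  have h5 := h.h5
  have h6 := h.h6
  have h67 := h.h67
  have h7 := h.h7
  have ml := h.ml
  fin_cases k
  all_goals (simp only [Fin.zero_eta, Fin.mk_one, Fin.reduceFinMk]; omega)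

end pos

/-! ### 2. Times -/

/-- **the limits of the times**, `Pc k`, `Pg k` = limits of the times of the gates in units of the length of the arm -/
noncomputable def phi8 (B : Arm → Set CC.Gm) (Pc Pg : Arm → CC.Gm → ℝ) (y : CC.Gm) (j : Fin 8) : ℝ :=
  bi (y ∈ ⋂ k, B k) * (![Pc .fp y * muG y, Pg .fp y * muG y, muG y - Pg .bq y * muG y, muG y - Pc .bq y * muG y,
    muG y + Pc .fq y * (1 - muG y), muG y + Pg .fq y * (1 - muG y), 1 - Pg .bp y * (1 - muG y),
    1 - Pc .bp y * (1 - muG y)] : Fin 8 → ℝ) j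

/-- **the input from the strands** -/
structure AIn (U : Filter ℕ) (b : ℝ) (PG : Measure CC.Gm) (A : Arm → ℕ → W3 × ℕ → Prop) (c g : Arm → ℕ → W3 × ℕ → ℕ)
    (B : Arm → Set CC.Gm) (Pc Pg : Arm → CC.Gm → ℝ) : Prop where
  /-- the gates of the strand exist -/
  ev : ∀ k, Ev U (fun N => mwE N b) cN PG (A k) (B k)
  /-- time of the gate `c` in units of the strand -/
  tc : ∀ k, Lm U (fun N => mwE N b) cN PG (fun N x => bi (A k N x) * ((c k N x : ℝ) / (arcw x.2 k x.1).length)) (Pc k)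
  /-- time of the gate `x` in units of the strand -/
  tg : ∀ k, Lm U (fun N => mwE N b) cN PG (fun N x => bi (A k N x) * ((g k N x : ℝ) / (arcw x.2 k x.1).length)) (Pg k)
  /-- the gates are in their strands -/
  pos : ∀ᶠ N in U, ∀ x, Spt x → ∀ k, A k N x → Even (c k N x) ∧ Even (g k N x) ∧ c k N x ≤ g k N x ∧
    g k N x ≤ (arcw x.2 k x.1).length

section lim

variable {U : Filter ℕ} {b : ℝ} {PG : Measure CC.Gm} {A : Arm → ℕ → W3 × ℕ → Prop} {c g : Arm → ℕ → W3 × ℕ → ℕ}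
  {B : Arm → Set CC.Gm} {Pc Pg : Arm → CC.Gm → ℝ}

lemma allA_iff (H : AIn U b PG A c g B Pc Pg) : ∀ᶠ N in U, ∀ x, Spt x → (allA A c g N x ↔ ∀ k, A k N x) := by
  filter_upwards [H.pos] with N hN x hx
  exact ⟨fun h => h.2.1, fun h => ⟨hx, h, fun k => hN x hx k (h k)⟩⟩

/-- **the event `all gates exist`** -/
theorem allA_ev (hC : Cv U (fun N => mwE N b) cN PG) (H : AIn U b PG A c g B Pc Pg) :
    Ev U (fun N => mwE N b) cN PG (allA A c g) (⋂ k, B k) := by
  have h1 := (H.ev .fp).and hC ((H.ev .bq).and hC ((H.ev .fq).and hC (H.ev .bp)))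
  have e : B .fp ∩ (B .bq ∩ (B .fq ∩ B .bp)) = ⋂ k, B k := by
    ext y
    simp only [mem_inter_iff, mem_iInter]
    constructor
    · rintro ⟨a1, a2, a3, a4⟩ k
      cases k
      · exact a1
      · exact a2
      · exact a3
      · exact a4
    · intro h
      exact ⟨h _, h _, h _, h _⟩
  rw [e] at h1
  refine ev_spt hC h1 ?_
  filter_upwards [allA_iff H] with N hN x hx
  rw [hN x hx]
  constructor
  · intro h
    exact ⟨h _, h _, h _, h _⟩
  · rintro ⟨a1, a2, a3, a4⟩ k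
    cases k
    · exact a1
    · exact a2
    · exact a3
    · exact a4

/-- one of the times -/
lemma tm_step (hC : Cv U (fun N => mwE N b) cN PG) (hP : ∀ᵐ y ∂PG, 0 < y.1) (H : AIn U b PG A c g B Pc Pg) {t : ℕ → W3 × ℕ → ℝ}
    {Ψ : CC.Gm → ℝ} (ht : Lm U (fun N => mwE N b) cN PG t Ψ) {G : ℝ → ℝ → ℝ} (hG : Continuous fun z : ℝ × ℝ => G z.1 z.2)
    (j : Fin 8) (he : ∀ N x, allA A c g N x → (v8 c g N x j : ℝ) / x.1.length = G (t N x) ((x.2 : ℝ) / x.1.length)) :
    Lm U (fun N => mwE N b) cN PG (fun N x => bi (allA A c g N x) * ((v8 c g N x j : ℝ) / x.1.length))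
      fun y => bi (y ∈ ⋂ k, B k) * G (Ψ y) (muG y) := by
  have h1 := (allA_ev hC H).mul hC (Lm.comp2 hC ht (lm_mu hC hP) hG)
  refine lm_spt hC h1 ⟨1, fun N x => ?_⟩ (Eventually.of_forall fun N x hx => ?_)
  · by_cases h : allA A c g N x
    · rw [bi_pos h, one_mul, abs_of_nonneg (by positivity)]
      have h2 := (v8_pos h.1 h.2.2).le j
      have h3 : (0 : ℝ) < x.1.length := by
        have := h.1.2.2
        exact_mod_cast (by omega : 0 < x.1.length)
      rw [div_le_one h3]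
      exact_mod_cast h2
    · rw [bi_neg h, zero_mul, abs_zero]
      exact zero_le_one
  · show bi (allA A c g N x) * ((v8 c g N x j : ℝ) / x.1.length) = bi (allA A c g N x) * G (t N x) (muN x)
    by_cases h : allA A c g N x
    · rw [he N x h, muN_eq hx.2.2]
    · rw [bi_neg h, zero_mul, zero_mul]

private lemma fr1 {c m n : ℝ} (h : m = 0 → c = 0) : c / m * (m / n) = c / n := by
  by_cases hm : m = 0
  · rw [hm, h hm]
    simp
  · rw [div_mul_div_comm, mul_comm c m, mul_div_mul_left _ _ hm]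

/-- **the times of the eight gates** -/
theorem allA_tm (hC : Cv U (fun N => mwE N b) cN PG) (hP : ∀ᵐ y ∂PG, 0 < y.1) (H : AIn U b PG A c g B Pc Pg) (j : Fin 8) :
    Lm U (fun N => mwE N b) cN PG (fun N x => bi (allA A c g N x) * ((v8 c g N x j : ℝ) / x.1.length))
      fun y => phi8 B Pc Pg y j := by
  -- the facts for one word
  have key : ∀ N x, allA A c g N x → (x.2 < x.1.length ∧ (c .fp N x ≤ x.2 ∧ g .fp N x ≤ x.2) ∧ (c .bq N x ≤ x.2 ∧ g .bq N x ≤ x.2) ∧
      (c .fq N x ≤ x.1.length - x.2 ∧ g .fq N x ≤ x.1.length - x.2) ∧ c .bp N x ≤ x.1.length - x.2 ∧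
      g .bp N x ≤ x.1.length - x.2) := by
    intro N x h
    have hm := h.1.2.2
    obtain ⟨-, -, a3, a4⟩ := h.2.2 .fp
    obtain ⟨-, -, b3, b4⟩ := h.2.2 .bq
    obtain ⟨-, -, c3, c4⟩ := h.2.2 .fq
    obtain ⟨-, -, d3, d4⟩ := h.2.2 .bp
    rw [al_fp hm.le] at a4
    rw [al_bq hm.le] at b4
    rw [al_fq] at c4
    rw [al_bp] at d4
    exact ⟨hm, ⟨a3.trans a4, a4⟩, ⟨b3.trans b4, b4⟩, ⟨c3.trans c4, c4⟩, d3.trans d4, d4⟩
  -- arms of length x.2, read forwards and backwards
  have fA : ∀ {k m n : ℕ}, k ≤ m → (k : ℝ) / n = (k : ℝ) / m * ((m : ℝ) / n) := fun {k m n} h => by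
    rw [fr1]
    intro h0
    have h1 : m = 0 := by exact_mod_cast h0
    have : k = 0 := by omega
    exact_mod_cast this
  have fB : ∀ {k m n : ℕ}, k ≤ m → ((m - k : ℕ) : ℝ) / n = (m : ℝ) / n - (k : ℝ) / m * ((m : ℝ) / n) := fun {k m n} h => by
    rw [← fA h, Nat.cast_sub h, sub_div]
  have fC : ∀ {k m n : ℕ}, m < n → k ≤ n - m → ((m + k : ℕ) : ℝ) / n = (m : ℝ) / n + (k : ℝ) / ((n - m : ℕ) : ℝ) * (1 - (m : ℝ) / n) :=
    fun {k m n} hm h => by
    have hn : (n : ℝ) ≠ 0 := by exact_mod_cast (by omega : n ≠ 0)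
    have e : 1 - (m : ℝ) / n = ((n - m : ℕ) : ℝ) / n := by
      rw [Nat.cast_sub hm.le, sub_div, div_self hn]
    rw [e, ← fA h, Nat.cast_add, add_div]
  have fD : ∀ {k m n : ℕ}, m < n → k ≤ n - m → ((n - k : ℕ) : ℝ) / n = 1 - (k : ℝ) / ((n - m : ℕ) : ℝ) * (1 - (m : ℝ) / n) :=
    fun {k m n} hm h => by
    have hn : (n : ℝ) ≠ 0 := by exact_mod_cast (by omega : n ≠ 0)
    have e : 1 - (m : ℝ) / n = ((n - m : ℕ) : ℝ) / n := by
      rw [Nat.cast_sub hm.le, sub_div, div_self hn]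
    rw [e, ← fA h, Nat.cast_sub (by omega), sub_div, div_self hn]
  have hb : ∀ (k : Arm) N x, allA A c g N x → bi (A k N x) = 1 := fun k N x h => bi_pos (h.2.1 k)
  unfold phi8
  fin_cases j
  · refine tm_step hC hP H (H.tc .fp) (G := fun s μ => s * μ) (by fun_prop) 0 fun N x h => ?_
    obtain ⟨k0, k1, k2, k3, k4⟩ := key N x h
    show (c .fp N x : ℝ) / x.1.length = _
    simp only [hb _ N x h, one_mul, al_fp k0.le]
    exact fA k1.1
  · refine tm_step hC hP H (H.tg .fp) (G := fun s μ => s * μ) (by fun_prop) 1 fun N x h => ?_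
    obtain ⟨k0, k1, k2, k3, k4⟩ := key N x h
    show (g .fp N x : ℝ) / x.1.length = _
    simp only [hb _ N x h, one_mul, al_fp k0.le]
    exact fA k1.2
  · refine tm_step hC hP H (H.tg .bq) (G := fun s μ => μ - s * μ) (by fun_prop) 2 fun N x h => ?_
    obtain ⟨k0, k1, k2, k3, k4⟩ := key N x h
    show ((x.2 - g .bq N x : ℕ) : ℝ) / x.1.length = _
    simp only [hb _ N x h, one_mul, al_bq k0.le]
    exact fB k2.2
  · refine tm_step hC hP H (H.tc .bq) (G := fun s μ => μ - s * μ) (by fun_prop) 3 fun N x h => ?_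
    obtain ⟨k0, k1, k2, k3, k4⟩ := key N x h
    show ((x.2 - c .bq N x : ℕ) : ℝ) / x.1.length = _
    simp only [hb _ N x h, one_mul, al_bq k0.le]
    exact fB k2.1
  · refine tm_step hC hP H (H.tc .fq) (G := fun s μ => μ + s * (1 - μ)) (by fun_prop) 4 fun N x h => ?_
    obtain ⟨k0, k1, k2, k3, k4⟩ := key N x h
    show ((x.2 + c .fq N x : ℕ) : ℝ) / x.1.length = _
    simp only [hb _ N x h, one_mul, al_fq]
    exact fC k0 k3.1
  · refine tm_step hC hP H (H.tg .fq) (G := fun s μ => μ + s * (1 - μ)) (by fun_prop) 5 fun N x h => ?_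
    obtain ⟨k0, k1, k2, k3, k4⟩ := key N x h
    show ((x.2 + g .fq N x : ℕ) : ℝ) / x.1.length = _
    simp only [hb _ N x h, one_mul, al_fq]
    exact fC k0 k3.2
  · refine tm_step hC hP H (H.tg .bp) (G := fun s μ => 1 - s * (1 - μ)) (by fun_prop) 6 fun N x h => ?_
    obtain ⟨k0, k1, k2, k3, k4, k5⟩ := key N x h
    show ((x.1.length - g .bp N x : ℕ) : ℝ) / x.1.length = _
    simp only [hb _ N x h, one_mul, al_bp]
    exact fD k0 k5
  · refine tm_step hC hP H (H.tc .bp) (G := fun s μ => 1 - s * (1 - μ)) (by fun_prop) 7 fun N x h => ?_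
    obtain ⟨k0, k1, k2, k3, k4, k5⟩ := key N x h
    show ((x.1.length - c .bp N x : ℕ) : ℝ) / x.1.length = _
    simp only [hb _ N x h, one_mul, al_bp]
    exact fD k0 k4

/-- **the fields `ev`, `tm`, `pos` of `GIn`** -/
theorem k3_strands (hC : Cv U (fun N => mwE N b) cN PG) (hP : ∀ᵐ y ∂PG, 0 < y.1) (H : AIn U b PG A c g B Pc Pg) :
    Ev U (fun N => mwE N b) cN PG (allA A c g) (⋂ k, B k) ∧
    (∀ j, Lm U (fun N => mwE N b) cN PG (fun N x => bi (allA A c g N x) * ((v8 c g N x j : ℝ) / x.1.length))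
      fun y => phi8 B Pc Pg y j) ∧
    ∀ᶠ N in U, ∀ x, Spt x → allA A c g N x → PosG x (v8 c g N x) :=
  ⟨allA_ev hC H, allA_tm hC hP H, Eventually.of_forall fun _ _ hx h => v8_pos hx h.2.2⟩

/-- **`GIn` from the strands and the dictionary** -/
theorem gin_of (hC : Cv U (fun N => mwE N b) cN PG) (hP : ∀ᵐ y ∂PG, 0 < y.1) (H : AIn U b PG A c g B Pc Pg) {D : Dt}
    (dic : ∀ᶠ N : ℕ in U, ∀ x, Spt x → ∀ v', Far D N x v' →
      (DecG D N x v' ↔ (∀ k, A k N x) ∧ v' = v8 c g N x ∧ BaG D N x v')) :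
    GIn U b PG D (allA A c g) (v8 c g) (⋂ k, B k) (phi8 B Pc Pg) where
  ev := allA_ev hC H
  tm := allA_tm hC hP H
  pos := Eventually.of_forall fun _ _ hx h => v8_pos hx h.2.2
  dic := by
    filter_upwards [dic, allA_iff H] with N hN hA x hx v' hv
    rw [hN x hx v' hv, hA x hx]

end lim

end Pool.Agent.ROT.F3.CK
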