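import Pool.Agent.ROT.F3GtC
import Pool.Agent.ROT.F3K3S
import Pool.Agent.ROT.F3LevD

/-!
# ROT / F3GtK (helper61): the gate part of the classes of closed words = the gates of the four strands

* `Dt.gtp`, `Dt.gdr`, `Dt.gba` : data, direction, base (additional threshold) of an arm; `Dt.lv` : the data with other bases;
* **`decG_iff`** : the gate part `DecG` of a decomposition = `BaG` and the gate parts `StG` of the four strands;
* **`g3`** : `DecG` = the gates of the four turned strands exist, the positions are theirs, `BaG`;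
* `gA`, `gC`, `gX` : the gates of the arm `k` exist, their numbers (functional bases); **`gt_dic`**, **`gt_pos`** : the dictionary and
  the field `pos` of `AIn`; `D0_gf`, `DR_gf` : the two lattices.
-/

set_option autoImplicit false

namespace Pool.Agent.ROT.F3.CK

open Finset ComplexConjugate Filter

open scoped ENNReal Classical

open Pool.Agent.ROT.F3

/-! ### 1. Arms -/

/-- the data of the arm -/
def Dt.gtp (D : Dt) : Arm → Tp
  | .fp => D.P
  | .bq => D.Q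
  | .fq => D.Q
  | .bp => D.P

/-- the direction of the arm -/
def Dt.gdr (D : Dt) : Arm → ℂ
  | .fp => D.d
  | .bq => D.t
  | .fq => D.t'
  | .bp => D.d'

/-- the additional threshold of the arm -/
def Dt.gba (D : Dt) : Arm → ℝ
  | .fp => D.y
  | .bq => D.z
  | .fq => D.z'
  | .bp => D.y'

/-- the data with other additional thresholds -/
def Dt.lv (D : Dt) (y : Arm → ℝ) : Dt := { D with y := y .fp, y' := y .bp, z := y .bq, z' := y .fq }

lemma Dt.lv_ba (D : Dt) : D.lv D.gba = D := rfl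

lemma Dt.ba_lv (D : Dt) (y : Arm → ℝ) (k : Arm) : (D.lv y).gba k = y k := by cases k <;> rfl

lemma Dt.lv_ok {D : Dt} (h : D.Ok) {y : Arm → ℝ} (hy : ∀ k, 0 ≤ y k) : (D.lv y).Ok :=
  ⟨h.P, h.Q, hy _, hy _, hy _, hy _, h.dd, h.tt, h.d, h.d', h.t, h.t', h.V, h.V'⟩

/-- the balls of the gates do not reach the other end -/
structure Dt.Gf (D : Dt) : Prop where
  a : D.P.rg + 2 * D.Q.r2 < D.V.D0
  b : D.Q.rg + 2 * D.P.r2 < D.V.D0
  a' : D.P.rg + 2 * D.Q.r2 < D.V'.D0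
  b' : D.Q.rg + 2 * D.P.r2 < D.V'.D0

/-- thresholds, radii and turns of the four strands -/
structure GOk (D : Dt) (G : Arm → GP) (T : Arm → LSym) : Prop where
  g : ∀ k, (G k).Ok (D.gtp k)
  t : ∀ k, (T k).L (D.gdr k) = 1

/-- the gate part of a strand of the class -/
def StP (d : ℂ) (P : Tp) (p S : ℝ) (u : W3) (c x : ℕ) : Prop :=
  StG d (P.r * S) ((P.l + p) * S) (P.r2 * S) (P.m * S) (P.th * P.m * S) (P.rg * S) u c x

/-- order of the eight positions -/
structure Od8 (x : W3 × ℕ) (v : Fin 8 → ℕ) : Prop where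
  h01 : v 0 ≤ v 1
  h1m : v 1 < x.2
  h23 : v 2 ≤ v 3
  h3m : v 3 ≤ x.2
  h2 : 0 < v 2
  hm4 : x.2 ≤ v 4
  h45 : v 4 ≤ v 5
  h5 : v 5 < x.1.length
  h67 : v 6 ≤ v 7
  h7 : v 7 ≤ x.1.length
  h6 : x.2 < v 6

/-- the gate parts of the four strands -/
structure St4 (D : Dt) (S : ℝ) (x : W3 × ℕ) (v : Fin 8 → ℕ) : Prop where
  fp : StP D.d D.P D.y S (arcw x.2 .fp x.1) (v 0) (v 1)
  bq : StP D.t D.Q D.z S (arcw x.2 .bq x.1) (x.2 - v 3) (x.2 - v 2)
  fq : StP D.t' D.Q D.z' S (arcw x.2 .fq x.1) (v 4 - x.2) (v 5 - x.2)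
  bp : StP D.d' D.P D.y' S (arcw x.2 .bp x.1) (x.1.length - v 7) (x.1.length - v 6)

lemma arcw_pcw {w : W3} {m : ℕ} (hm : m ≤ w.length) : arcw m Arm.fp w = pcw w 0 m ∧ arcw m Arm.bq w = pcw w m 0 ∧
    arcw m Arm.fq w = pcw w m w.length ∧ arcw m Arm.bp w = pcw w w.length m := by
  have e1 : seg w 0 m = w.take m := by
    unfold seg
    rw [List.drop_zero, Nat.sub_zero]
  refine ⟨?_, ?_, ?_, ?_⟩
  · rw [pcw_of_le (Nat.zero_le _), e1]
    rfl
  · rw [pcw_of_ge (Nat.zero_le _), e1]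
    rfl
  · rw [pcw_of_le hm, seg_full]
    rfl
  · rw [pcw_of_ge hm, seg_full]
    rfl

lemma rad2 {P : Tp} (hP : P.Ok) : 2 * P.r ≤ P.r2 := by linarith [hP.m8, hP.m22, hP.m, hP.r]

lemma en_nil_pcw (w : W3) (i : ℕ) : en (pcw w i i) = 0 := by
  rw [pcw_of_le le_rfl]
  unfold seg
  simp [en, ps_zero]

/-! ### 2. The gate part of a decomposition -/

section

variable {D : Dt} {S : ℝ} {w : W3} {m : ℕ} {v : Fin 8 → ℕ}

/-- the gate parts of the strands and of the pieces -/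
lemma st4_iff (hD : D.Ok) (hG : D.Gf) (hS : 0 < S) (hw : Cl w) (em : Even m) (hm : m < w.length) (hF : Far D S (w, m) v)
    (ev : ∀ i, Even (v i)) (hB : BaG D S (w, m) v) (h01 : v 0 ≤ v 1) (h23 : v 2 ≤ v 3) (h3m : v 3 ≤ m) (hm4 : m ≤ v 4)
    (h45 : v 4 ≤ v 5) (h67 : v 6 ≤ v 7) (h7 : v 7 ≤ w.length) (v12 : v 1 ≠ v 2) (v56 : v 6 ≠ v 5) : St4 D S (w, m) v ↔
      (PreG D.d (D.P.up D.y) S (pcw w 0 (v 1)) (v 0) ∧ RestC D.d (D.P.rg * S) (pcw w (v 1) (v 2))) ∧
      (PreG D.t (D.Q.up D.z) S (pcw w m (v 2)) (m - v 3) ∧ RestC D.t (D.Q.rg * S) (pcw w (v 2) (v 1))) ∧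
      (PreG D.t' (D.Q.up D.z') S (pcw w m (v 5)) (v 4 - m) ∧ RestC D.t' (D.Q.rg * S) (pcw w (v 5) (v 6))) ∧
      (PreG D.d' (D.P.up D.y') S (pcw w w.length (v 6)) (w.length - v 7) ∧
        RestC D.d' (D.P.rg * S) (pcw w (v 6) (v 5))) := by
  obtain ⟨f1, f2⟩ := hF
  simp only at f1 f2
  have h12 := hB.o1
  have h56 := hB.o2
  obtain ⟨a1, a2, a3, a4⟩ := arcw_pcw (w := w) hm.le
  have fr : ∀ {i j : ℕ}, Even i → Even j → i ≤ w.length → j ≤ w.length → ‖en (pcw w i j)‖ = ‖en (pcw w j i)‖ := by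
    intro i j ei ej hi hj
    rw [← pcw_reverse w i j, en_reverse (by rw [length_pcw hi hj le_rfl]; unfold ndi; exact (ej.tsub ei).add (ei.tsub ej)),
      norm_neg]
  have s1 := strand_seg (w := w) (d := D.d) (P := D.P.up D.y) (Q := D.Q.up D.z) (S := S) (D0 := D.V.D0) (i := 0) (a := v 0)
    (b := v 1) (b' := v 2) (a' := v 3) (k := m) (by unfold Ch6; omega) (ev 1) (ev 2) (ev 3) em v12 hS
    (rad2 (hD.Q.up hD.z)) hG.a f1 hB.b3
  have s2 := strand_seg (w := w) (d := D.t) (P := D.Q.up D.z) (Q := D.P.up D.y) (S := S) (D0 := D.V.D0) (i := m) (a := v 3)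
    (b := v 2) (b' := v 1) (a' := v 0) (k := 0) (by unfold Ch6; omega) (ev 2) (ev 1) (ev 0) Even.zero (Ne.symm v12) hS
    (rad2 (hD.P.up hD.y)) hG.b (by rw [fr (ev 2) (ev 1) (by omega) (by omega)]; exact f1) hB.b1
  have s3 := strand_seg (w := w) (d := D.t') (P := D.Q.up D.z') (Q := D.P.up D.y') (S := S) (D0 := D.V'.D0) (i := m)
    (a := v 4) (b := v 5) (b' := v 6) (a' := v 7) (k := w.length) (by unfold Ch6; omega) (ev 5) (ev 6) (ev 7) hw.1
    (Ne.symm v56) hS (rad2 (hD.P.up hD.y')) hG.b' (by rw [fr (ev 5) (ev 6) (by omega) (by omega)]; exact f2) hB.b2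
  have s4 := strand_seg (w := w) (d := D.d') (P := D.P.up D.y') (Q := D.Q.up D.z') (S := S) (D0 := D.V'.D0)
    (i := w.length) (a := v 7) (b := v 6) (b' := v 5) (a' := v 4) (k := m) (by unfold Ch6; omega) (ev 6) (ev 5) (ev 4)
    em v56 hS (rad2 (hD.Q.up hD.z')) hG.a' f2 hB.b4
  have n1 : ndi 0 (v 0) = v 0 := by unfold ndi; omega
  have n2 : ndi 0 (v 1) = v 1 := by unfold ndi; omega
  have n3 : ndi m (v 3) = m - v 3 := by unfold ndi; omega
  have n4 : ndi m (v 2) = m - v 2 := by unfold ndi; omega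
  have n5 : ndi m (v 4) = v 4 - m := by unfold ndi; omega
  have n6 : ndi m (v 5) = v 5 - m := by unfold ndi; omega
  have n7 : ndi w.length (v 7) = w.length - v 7 := by unfold ndi; omega
  have n8 : ndi w.length (v 6) = w.length - v 6 := by unfold ndi; omega
  rw [n1, n2, ← a1] at s1
  rw [n3, n4, ← a2] at s2
  rw [n5, n6, ← a3] at s3
  rw [n7, n8, ← a4] at s4
  constructor
  · rintro ⟨g1, g2, g3, g4⟩
    exact ⟨s1.1 g1, s2.1 g2, s3.1 g3, s4.1 g4⟩
  · rintro ⟨g1, g2, g3, g4⟩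
    exact ⟨s1.2 g1, s2.2 g2, s3.2 g3, s4.2 g4⟩

/-- **the gate part of a decomposition = the gate parts of the four strands** -/
theorem decG_iff (hD : D.Ok) (hG : D.Gf) (hS : 0 < S) (hw : Cl w) (em : Even m) (hm : m < w.length) (hF : Far D S (w, m) v) :
    DecG D S (w, m) v ↔ BaG D S (w, m) v ∧ Od8 (w, m) v ∧ St4 D S (w, m) v := by
  have P0 := hD.P.r2
  have Q0 := hD.Q.r2
  have Pg : 0 < D.P.rg := by linarith [hD.P.rg, hD.P.r]
  have v12 : v 1 ≠ v 2 := by
    intro h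
    have f1 := hF.1
    simp only at f1
    rw [← h, en_nil_pcw, norm_zero] at f1
    have : 0 < D.V.D0 * S := mul_pos (by linarith [hG.a]) hS
    linarith
  have v56 : v 6 ≠ v 5 := by
    intro h
    have f2 := hF.2
    simp only at f2
    rw [← h, en_nil_pcw, norm_zero] at f2
    have : 0 < D.V'.D0 * S := mul_pos (by linarith [hG.a']) hS
    linarith
  constructor
  · intro h
    have h01 := h.h01
    have h12 := h.h12
    have h23 := h.h23
    have h3m := h.h3m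
    have hm4 := h.hm4
    have h45 := h.h45
    have h56 := h.h56
    have h67 := h.h67
    have h7 := h.h7
    simp only at h3m hm4 h7
    have n1 : ndi 0 (v 0) = v 0 := by unfold ndi; omega
    have n3 : ndi m (v 3) = m - v 3 := by unfold ndi; omega
    have n5 : ndi m (v 4) = v 4 - m := by unfold ndi; omega
    have n7 : ndi w.length (v 7) = w.length - v 7 := by unfold ndi; omega
    have q1 : PreG D.d (D.P.up D.y) S (pcw w 0 (v 1)) (ndi 0 (v 0)) := by rw [n1]; exact h.p.p1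
    have q2 : PreG D.t (D.Q.up D.z) S (pcw w m (v 2)) (ndi m (v 3)) := by rw [n3]; exact h.q.p1
    have q3 : PreG D.t' (D.Q.up D.z') S (pcw w m (v 5)) (ndi m (v 4)) := by rw [n5]; exact h.q.p2
    have q4 : PreG D.d' (D.P.up D.y') S (pcw w w.length (v 6)) (ndi w.length (v 7)) := by rw [n7]; exact h.p.p2
    have t1 : BaP (D.P.up D.y).r (D.P.up D.y).r2 S w 0 (v 0) (v 1) := q1.bap (by unfold Ch4; omega)
    have t4 : BaP (D.P.up D.y').r (D.P.up D.y').r2 S w w.length (v 7) (v 6) := q4.bap (by unfold Ch4; omega)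
    have t2 : BaP (D.Q.up D.z).r (D.Q.up D.z).r2 S w m (v 3) (v 2) := q2.bap (by unfold Ch4; omega)
    have t3 : BaP (D.Q.up D.z').r (D.Q.up D.z').r2 S w m (v 4) (v 5) := q3.bap (by unfold Ch4; omega)
    have hB : BaG D S (w, m) v := ⟨h12, h56, t1, t4, t2, t3⟩
    rw [n1] at q1
    rw [n3] at q2
    rw [n5] at q3
    rw [n7] at q4
    have r1 : RestC D.t (D.Q.rg * S) (pcw w (v 2) (v 1)) := by
      rw [← pcw_reverse]
      exact h.A.e
    have r2 : RestC D.t' (D.Q.rg * S) (pcw w (v 5) (v 6)) := by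
      rw [← pcw_reverse]
      exact h.B.e
    refine ⟨hB, ⟨h01, ?_, h23, h3m, ?_, hm4, h45, ?_, h67, h7, ?_⟩,
      (st4_iff hD hG hS hw em hm hF h.ev hB h01 h23 h3m hm4 h45 h67 h7 v12 v56).2
        ⟨⟨q1, h.A.s⟩, ⟨q2, r1⟩, ⟨q3, r2⟩, ⟨q4, h.B.s⟩⟩⟩
    · show v 1 < m
      omega
    · omega
    · show v 5 < w.length
      omega
    · show m < v 6
      omega
  · rintro ⟨hB, ⟨h01, h1m, h23, h3m, h2, hm4, h45, h5, h67, h7, h6⟩, hg⟩
    simp only at h1m h3m hm4 h5 h7 h6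
    have h12 := hB.o1
    have h56 := hB.o2
    have ev : ∀ i, Even (v i) := by
      have e0 := hg.fp.evc
      have e1 := hg.fp.evx
      have e3 := hg.bq.evc
      have e2 := hg.bq.evx
      have e4 := hg.fq.evc
      have e5 := hg.fq.evx
      have e7 := hg.bp.evc
      have e6 := hg.bp.evx
      simp only at e0 e1 e2 e3 e4 e5 e6 e7
      have k2 := (Nat.even_sub (show v 2 ≤ m by omega)).1 e2
      have k3 := (Nat.even_sub (show v 3 ≤ m by omega)).1 e3
      have k4 := (Nat.even_sub (show m ≤ v 4 by omega)).1 e4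
      have k5 := (Nat.even_sub (show m ≤ v 5 by omega)).1 e5
      have k6 := (Nat.even_sub (show v 6 ≤ w.length by omega)).1 e6
      have k7 := (Nat.even_sub (show v 7 ≤ w.length by omega)).1 e7
      intro i
      fin_cases i
      · exact e0
      · exact e1
      · exact k2.1 em
      · exact k3.1 em
      · exact k4.2 em
      · exact k5.2 em
      · exact k6.1 hw.1
      · exact k7.1 hw.1
    obtain ⟨⟨q1, r1⟩, ⟨q2, r2⟩, ⟨q3, r3⟩, ⟨q4, r4⟩⟩ :=
      (st4_iff hD hG hS hw em hm hF ev hB h01 h23 h3m hm4 h45 h67 h7 v12 v56).1 hg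
    refine ⟨h01, h12, h23, h3m, hm4, h45, h56, h67, h7, ev, em, hw.1, ⟨q1, q4, fun j k hj hk he => ?_⟩,
      ⟨q2, q3, fun j k hj hk he => ?_⟩, ⟨?_, ?_, r1, ?_⟩, ⟨?_, ?_, r4, ?_⟩⟩
    · simp only at he hk
      rw [ps_pcw Even.zero (ev 1) (Nat.zero_le _) (by omega) (by unfold ndi; omega),
        ps_pcw hw.1 (ev 6) le_rfl (by omega) (by unfold ndi; omega), hw.last, ps_zero, sub_zero, sub_zero] at he
      have e1 : stpw 0 (v 1) j = j := by unfold stpw; split_ifs <;> omega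
      have e2 : stpw w.length (v 6) k = w.length - k := by unfold stpw; split_ifs <;> omega
      rw [e1, e2] at he
      have := hw.ne (by omega) (by omega) he
      omega
    · simp only at he hj hk
      rw [ps_pcw em (ev 2) hm.le (by omega) (by unfold ndi; omega),
        ps_pcw em (ev 5) hm.le (by omega) (by unfold ndi; omega), sub_left_inj] at he
      have e1 : stpw m (v 2) j = m - j := by unfold stpw; split_ifs <;> omega
      have e2 : stpw m (v 5) k = m + k := by unfold stpw; split_ifs <;> omega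
      rw [e1, e2] at he
      have := hw.ne (by omega) (by omega) he
      omega
    · rw [length_pcw (n := w.length) (by omega) (by omega) le_rfl, ndi_of_le h12]
      exact (ev 2).tsub (ev 1)
    · rw [pcw_of_le h12]
      exact hw.seg (ev 1) h12 (by omega) (by omega)
    · rw [pcw_reverse]
      exact r2
    · rw [length_pcw (n := w.length) (by omega) (by omega) le_rfl, ndi_of_ge h56]
      exact (ev 6).tsub (ev 5)
    · rw [pcw_of_ge h56]
      exact hw.seg_reverse (ev 5) (ev 6) h56 (by omega) (by omega)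
    · rw [pcw_reverse]
      exact r3

end

/-! ### 3. The gates of the four turned strands -/

/-- the gates of the arm exist, the roots are not close; `y` = bases -/
def gA (c0 : ℝ) (G : Arm → GP) (T : Arm → LSym) (y : Arm → ℕ → W3 × ℕ → ℝ) (k : Arm) (N : ℕ) (x : W3 × ℕ) : Prop :=
  c0 < ‖ps x.1 x.2‖ / N ∧ sgE (G k) (T k) (y k N x) N k x

/-- the gate `c` of the arm -/
noncomputable def gC (G : Arm → GP) (T : Arm → LSym) (y : Arm → ℕ → W3 × ℕ → ℝ) (k : Arm) (N : ℕ) (x : W3 × ℕ) : ℕ :=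
  sgc (G k) (T k) (y k N x) N k x

/-- the gate `x` of the arm -/
noncomputable def gX (G : Arm → GP) (T : Arm → LSym) (y : Arm → ℕ → W3 × ℕ → ℝ) (k : Arm) (N : ℕ) (x : W3 × ℕ) : ℕ :=
  sgx (G k) (T k) (y k N x) N k x

section

variable {D : Dt} {G : Arm → GP} {T : Arm → LSym} {S : ℝ} {w : W3} {m : ℕ} {v : Fin 8 → ℕ}

/-- the gates of an arm: even, in order, in the strand -/
lemma arm_pos (hD : D.Ok) (hG : GOk D G T) (hS : 0 < S) {p : ℝ} {k : Arm} {x : W3 × ℕ} (h : sgE (G k) (T k) p S k x) :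
    Even (sgc (G k) (T k) p S k x) ∧ Even (sgx (G k) (T k) p S k x) ∧ sgc (G k) (T k) p S k x < sgx (G k) (T k) p S k x ∧
      sgx (G k) (T k) p S k x < (arcw x.2 k x.1).length := by
  obtain ⟨y, t⟩ := sg_spec h
  have hm : 0 < (G k).m * S := by
    rw [(hG.g k).m]
    refine mul_pos ?_ hS
    cases k
    exacts [hD.P.m, hD.Q.m, hD.Q.m, hD.P.m]
  obtain ⟨o1, o2⟩ := t.order hm
  rw [arcw_mp, mp_length] at o2
  exact ⟨t.gx.1.1.1, t.gx.2.1.1, o1, o2⟩

/-- **the dictionary of the gates of closed words with two roots** -/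
theorem g3 (hD : D.Ok) (hf : D.Gf) (hG : GOk D G T) (hS : 0 < S) (h1 : ∀ k, 1 ≤ (G k).ρ1 * S) (h2 : ∀ k, 1 ≤ (G k).ρ'' * S)
    (hw : Cl w) (em : Even m) (hm : m < w.length) (hF : Far D S (w, m) v) :
    DecG D S (w, m) v ↔ (∀ k, sgE (G k) (T k) (D.gba k) S k (w, m)) ∧
      v = ![sgc (G .fp) (T .fp) (D.gba .fp) S .fp (w, m), sgx (G .fp) (T .fp) (D.gba .fp) S .fp (w, m),
        m - sgx (G .bq) (T .bq) (D.gba .bq) S .bq (w, m), m - sgc (G .bq) (T .bq) (D.gba .bq) S .bq (w, m),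
        m + sgc (G .fq) (T .fq) (D.gba .fq) S .fq (w, m), m + sgx (G .fq) (T .fq) (D.gba .fq) S .fq (w, m),
        w.length - sgx (G .bp) (T .bp) (D.gba .bp) S .bp (w, m), w.length - sgc (G .bp) (T .bp) (D.gba .bp) S .bp (w, m)] ∧
      BaG D S (w, m) v := by
  rw [decG_iff hD hf hS hw em hm hF]
  obtain ⟨a1, a2, a3, a4⟩ := arcw_pcw (w := w) hm.le
  have l1 : (arcw m .fp w).length = m := al_fp (x := (w, m)) hm.le
  have l2 : (arcw m .bq w).length = m := al_bq (x := (w, m)) hm.le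
  have l3 : (arcw m .fq w).length = w.length - m := al_fq (w, m)
  have l4 : (arcw m .bp w).length = w.length - m := al_bp (w, m)
  have sw : 0 < m → SW (arcw m .fp w) ∧ SW (arcw m .bq w) ∧ SW (arcw m .fq w) ∧ SW (arcw m .bp w) := fun m0 => by
    rw [a1, a2, a3, a4, pcw_of_le (Nat.zero_le _), pcw_of_ge (Nat.zero_le _), pcw_of_le hm.le, pcw_of_ge hm.le]
    exact ⟨hw.seg Even.zero (Nat.zero_le _) hm.le (Or.inr hm), hw.seg_reverse Even.zero em (Nat.zero_le _) hm.le (Or.inr hm),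
      hw.seg em hm.le le_rfl (Or.inl m0), hw.seg_reverse em hw.1 hm.le le_rfl (Or.inl m0)⟩
  constructor
  · rintro ⟨hB, ⟨h01, h1m, h23, h3m, h2', hm4, h45, h5, h67, h7, h6⟩, g⟩
    simp only at h1m h3m hm4 h5 h7 h6
    obtain ⟨s1, s2, s3, s4⟩ := sw (by omega)
    obtain ⟨⟨e1, c1, x1⟩, -⟩ := (arm_iff (P := D.P) (p := D.y) (hG.t .fp) s1 hD.P (hG.g .fp) hD.y hS (h1 _) (h2 _) h01
      (by omega)).1 g.fp
    obtain ⟨⟨e2, c2, x2⟩, -⟩ := (arm_iff (P := D.Q) (p := D.z) (hG.t .bq) s2 hD.Q (hG.g .bq) hD.z hS (h1 _) (h2 _)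
      (by simp only; omega) (by simp only; omega)).1 g.bq
    obtain ⟨⟨e3, c3, x3⟩, -⟩ := (arm_iff (P := D.Q) (p := D.z') (hG.t .fq) s3 hD.Q (hG.g .fq) hD.z' hS (h1 _) (h2 _)
      (by simp only; omega) (by simp only; omega)).1 g.fq
    obtain ⟨⟨e4, c4, x4⟩, -⟩ := (arm_iff (P := D.P) (p := D.y') (hG.t .bp) s4 hD.P (hG.g .bp) hD.y' hS (h1 _) (h2 _)
      (by simp only; omega) (by simp only; omega)).1 g.bp
    simp only at c2 x2 c3 x3 c4 x4
    refine ⟨fun k => by cases k <;> assumption, ?_, hB⟩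
    funext i
    fin_cases i
    · exact c1
    · exact x1
    · show v 2 = m - sgx (G .bq) (T .bq) D.z S .bq (w, m)
      omega
    · show v 3 = m - sgc (G .bq) (T .bq) D.z S .bq (w, m)
      omega
    · show v 4 = m + sgc (G .fq) (T .fq) D.z' S .fq (w, m)
      omega
    · show v 5 = m + sgx (G .fq) (T .fq) D.z' S .fq (w, m)
      omega
    · show v 6 = w.length - sgx (G .bp) (T .bp) D.y' S .bp (w, m)
      omega
    · show v 7 = w.length - sgc (G .bp) (T .bp) D.y' S .bp (w, m)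
      omega
  · rintro ⟨hA, hv, hB⟩
    obtain ⟨ec1, ex1, o1, o1'⟩ := arm_pos hD hG hS (hA .fp)
    obtain ⟨ec2, ex2, o2, o2'⟩ := arm_pos hD hG hS (hA .bq)
    obtain ⟨ec3, ex3, o3, o3'⟩ := arm_pos hD hG hS (hA .fq)
    obtain ⟨ec4, ex4, o4, o4'⟩ := arm_pos hD hG hS (hA .bp)
    simp only at o1' o2' o3' o4'
    rw [l1] at o1'
    rw [l2] at o2'
    rw [l3] at o3'
    rw [l4] at o4'
    have v0 : v 0 = sgc (G .fp) (T .fp) (D.gba .fp) S .fp (w, m) := by rw [hv]; rfl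
    have v1 : v 1 = sgx (G .fp) (T .fp) (D.gba .fp) S .fp (w, m) := by rw [hv]; rfl
    have v2 : v 2 = m - sgx (G .bq) (T .bq) (D.gba .bq) S .bq (w, m) := by rw [hv]; rfl
    have v3 : v 3 = m - sgc (G .bq) (T .bq) (D.gba .bq) S .bq (w, m) := by rw [hv]; rfl
    have v4 : v 4 = m + sgc (G .fq) (T .fq) (D.gba .fq) S .fq (w, m) := by rw [hv]; rfl
    have v5 : v 5 = m + sgx (G .fq) (T .fq) (D.gba .fq) S .fq (w, m) := by rw [hv]; rfl
    have v6 : v 6 = w.length - sgx (G .bp) (T .bp) (D.gba .bp) S .bp (w, m) := by rw [hv]; rfl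
    have v7 : v 7 = w.length - sgc (G .bp) (T .bp) (D.gba .bp) S .bp (w, m) := by rw [hv]; rfl
    obtain ⟨s1, s2, s3, s4⟩ := sw (by omega)
    have e0 : Even (v 0) := by rw [v0]; exact ec1
    have e1 : Even (v 1) := by rw [v1]; exact ex1
    have e2 : Even (v 2) := by rw [v2]; exact em.tsub ex2
    have e3 : Even (v 3) := by rw [v3]; exact em.tsub ec2
    have e4 : Even (v 4) := by rw [v4]; exact em.add ec3
    have e5 : Even (v 5) := by rw [v5]; exact em.add ex3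
    have e6 : Even (v 6) := by rw [v6]; exact hw.1.tsub ex4
    have e7 : Even (v 7) := by rw [v7]; exact hw.1.tsub ec4
    have b0 := (bap_iff (w := w) (S := S) (i := 0) (a := v 0) (b := v 1) (k := m) (by unfold Ch4; omega) Even.zero e0 e1 em).1 hB.b1
    have b3 := (bap_iff (w := w) (S := S) (i := m) (a := v 3) (b := v 2) (k := 0) (by unfold Ch4; omega) em e3 e2 Even.zero).1 hB.b3
    have b4 := (bap_iff (w := w) (S := S) (i := m) (a := v 4) (b := v 5) (k := w.length) (by unfold Ch4; omega) em e4 e5 hw.1).1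
      hB.b4
    have b7 := (bap_iff (w := w) (S := S) (i := w.length) (a := v 7) (b := v 6) (k := m) (by unfold Ch4; omega) hw.1 e7 e6 em).1
      hB.b2
    have n1 : ndi 0 (v 0) = v 0 := by unfold ndi; omega
    have n2 : ndi 0 (v 1) = v 1 := by unfold ndi; omega
    have n3 : ndi m (v 3) = m - v 3 := by unfold ndi; omega
    have n4 : ndi m (v 2) = m - v 2 := by unfold ndi; omega
    have n5 : ndi m (v 4) = v 4 - m := by unfold ndi; omega
    have n6 : ndi m (v 5) = v 5 - m := by unfold ndi; omega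
    have n7 : ndi w.length (v 7) = w.length - v 7 := by unfold ndi; omega
    have n8 : ndi w.length (v 6) = w.length - v 6 := by unfold ndi; omega
    rw [n1, n2, ← a1] at b0
    rw [n3, n4, ← a2] at b3
    rw [n5, n6, ← a3] at b4
    rw [n7, n8, ← a4] at b7
    refine ⟨hB, ⟨by omega, by simp only; omega, by omega, by simp only; omega, by omega, by simp only; omega, by omega,
      by simp only; omega, by omega, by simp only; omega, by simp only; omega⟩, ⟨?_, ?_, ?_, ?_⟩⟩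
    · exact (arm_iff (P := D.P) (p := D.y) (hG.t .fp) s1 hD.P (hG.g .fp) hD.y hS (h1 _) (h2 _) (by omega) (by omega)).2
        ⟨⟨hA .fp, v0, v1⟩, b0⟩
    · have k1 : m - v 3 = sgc (G .bq) (T .bq) (D.gba .bq) S .bq (w, m) := by omega
      have k2 : m - v 2 = sgx (G .bq) (T .bq) (D.gba .bq) S .bq (w, m) := by omega
      exact (arm_iff (P := D.Q) (p := D.z) (hG.t .bq) s2 hD.Q (hG.g .bq) hD.z hS (h1 _) (h2 _) (by simp only; omega)
        (by simp only; omega)).2 ⟨⟨hA .bq, k1, k2⟩, b3⟩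
    · have k1 : v 4 - m = sgc (G .fq) (T .fq) (D.gba .fq) S .fq (w, m) := by omega
      have k2 : v 5 - m = sgx (G .fq) (T .fq) (D.gba .fq) S .fq (w, m) := by omega
      exact (arm_iff (P := D.Q) (p := D.z') (hG.t .fq) s3 hD.Q (hG.g .fq) hD.z' hS (h1 _) (h2 _) (by simp only; omega)
        (by simp only; omega)).2 ⟨⟨hA .fq, k1, k2⟩, b4⟩
    · have k1 : w.length - v 7 = sgc (G .bp) (T .bp) (D.gba .bp) S .bp (w, m) := by omega
      have k2 : w.length - v 6 = sgx (G .bp) (T .bp) (D.gba .bp) S .bp (w, m) := by omega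
      exact (arm_iff (P := D.P) (p := D.y') (hG.t .bp) s4 hD.P (hG.g .bp) hD.y' hS (h1 _) (h2 _) (by simp only; omega)
        (by simp only; omega)).2 ⟨⟨hA .bp, k1, k2⟩, b7⟩

/-- the roots of a word of the class are far from each other -/
lemma far_dst (em : Even m) (hm : m < w.length) (hF : Far D S (w, m) v)
    (h : DecG D S (w, m) v) : (D.V.D0 - (D.P.rad + D.Q.rad)) * S ≤ ‖ps w m‖ := by
  have f1 := hF.1
  have h01 := h.h01
  have h12 := h.h12
  have h23 := h.h23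
  have h3m := h.h3m
  simp only at h3m f1
  have q1 : PreG D.d (D.P.up D.y) S (pcw w 0 (v 1)) (v 0) := h.p.p1
  have q2 : PreG D.t (D.Q.up D.z) S (pcw w m (v 2)) (m - v 3) := h.q.p1
  have b1 := q1.g.tip.ball (v 1) (by rw [length_pcw (n := w.length) (by omega) (by omega) le_rfl]; unfold ndi; omega)
  have b2 := q2.g.tip.ball (m - v 2) (by rw [length_pcw (n := w.length) (by omega) (by omega) le_rfl]; unfold ndi; omega)
  have e1 : stpw 0 (v 1) (v 1) = v 1 := by unfold stpw; split_ifs <;> omega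
  have e2 : stpw m (v 2) (m - v 2) = v 2 := by unfold stpw; split_ifs <;> omega
  rw [ps_pcw Even.zero (h.ev 1) (Nat.zero_le _) (by omega) (by unfold ndi; omega), ps_zero, sub_zero, e1] at b1
  rw [ps_pcw em (h.ev 2) hm.le (by omega) (by unfold ndi; omega), e2] at b2
  have e3 : en (pcw w (v 1) (v 2)) = ps w (v 2) - ps w (v 1) := by
    rw [pcw_of_le h12, en_seg (h.ev 1) h12 (by omega)]
  rw [e3] at f1
  have h5 : ‖ps w (v 2) - ps w (v 1)‖ ≤ ‖ps w m‖ + ‖ps w (v 2) - ps w m‖ + ‖ps w (v 1)‖ := by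
    calc ‖ps w (v 2) - ps w (v 1)‖ = ‖(ps w m + (ps w (v 2) - ps w m)) - ps w (v 1)‖ := by congr 1; ring
      _ ≤ _ := (norm_sub_le _ _).trans (add_le_add_left (norm_add_le _ _) _)
  have h6 : D.P.r * S + D.P.r2 * S + (D.Q.r * S + D.Q.r2 * S) = (D.P.rad + D.Q.rad) * S := by
    unfold Tp.rad
    ring
  have h7 : (D.V.D0 - (D.P.rad + D.Q.rad)) * S = D.V.D0 * S - (D.P.rad + D.Q.rad) * S := by ring
  have b1' : ‖ps w (v 1)‖ ≤ D.P.r * S + D.P.r2 * S := b1
  have b2' : ‖ps w (v 2) - ps w m‖ ≤ D.Q.r * S + D.Q.r2 * S := b2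
  linarith

/-- **the dictionary** (hypothesis `dic` of `gin_of`; functional bases `y`) -/
theorem gt_dic (hD : D.Ok) (hf : D.Gf) (hG : GOk D G T) {c0 : ℝ} (hc : c0 < D.V.D0 - (D.P.rad + D.Q.rad))
    {U : Filter ℕ} (hU : U ≤ atTop) {y : Arm → ℕ → W3 × ℕ → ℝ} (y0 : ∀ᶠ N in U, ∀ x, Spt x → ∀ k, 0 ≤ y k N x) :
    ∀ᶠ N : ℕ in U, ∀ x, Spt x → ∀ v', Far D N x v' → (DecG (D.lv fun k => y k N x) N x v' ↔
      (∀ k, gA c0 G T y k N x) ∧ v' = v8 (gC G T y) (gX G T y) N x ∧ BaG D N x v') := by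
  have tP : ∀ k, 0 < (D.gtp k).r2 := by
    intro k
    cases k
    exacts [hD.P.r2, hD.Q.r2, hD.Q.r2, hD.P.r2]
  have r1 : ∀ k, 0 < (G k).ρ1 := fun k => (tP k).trans_le (hG.g k).ρ1
  have r2 : ∀ k, 0 < (G k).ρ'' := fun k => lt_of_lt_of_le (by linarith [tP k]) ((hG.g k).r1''.trans (hG.g k).u3)
  have ev1 : ∀ k, ∀ᶠ N : ℕ in U, 1 ≤ (G k).ρ1 * N ∧ 1 ≤ (G k).ρ'' * N := fun k => by
    have t1 : Tendsto (fun N : ℕ => (G k).ρ1 * (N : ℝ)) U atTop :=
      (tendsto_natCast_atTop_atTop.const_mul_atTop (r1 k)).mono_left hU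
    have t2 : Tendsto (fun N : ℕ => (G k).ρ'' * (N : ℝ)) U atTop :=
      (tendsto_natCast_atTop_atTop.const_mul_atTop (r2 k)).mono_left hU
    exact (t1.eventually_ge_atTop 1).and (t2.eventually_ge_atTop 1)
  filter_upwards [ev1 .fp, ev1 .bq, ev1 .fq, ev1 .bp, hU (eventually_ge_atTop 1), y0] with N n1 n2 n3 n4 hN y0
  rintro ⟨w, m⟩ hx v' hF
  obtain ⟨hw, em, hm⟩ := hx
  simp only at hw em hm
  have hN0 : (0 : ℝ) < N := by exact_mod_cast hN
  have hD' : (D.lv fun k => y k N (w, m)).Ok := Dt.lv_ok hD fun k => y0 _ ⟨hw, em, hm⟩ k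
  have hf' : (D.lv fun k => y k N (w, m)).Gf := ⟨hf.a, hf.b, hf.a', hf.b'⟩
  have hG' : GOk (D.lv fun k => y k N (w, m)) G T := ⟨fun k => by cases k <;> exact hG.g _, fun k => by cases k <;> exact hG.t _⟩
  have hF' : Far (D.lv fun k => y k N (w, m)) N (w, m) v' := hF
  have key := g3 (v := v') hD' hf' hG' hN0 (fun k => by cases k; exacts [n1.1, n2.1, n3.1, n4.1])
    (fun k => by cases k; exacts [n1.2, n2.2, n3.2, n4.2]) hw em hm hF'
  constructor
  · intro h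
    obtain ⟨k1, k2, k3⟩ := key.1 h
    have h3 : c0 < ‖ps w m‖ / N := by
      have h4 := far_dst (D := D.lv fun k => y k N (w, m)) em hm hF' h
      rw [lt_div_iff₀ hN0]
      exact lt_of_lt_of_le (mul_lt_mul_of_pos_right hc hN0) h4
    refine ⟨fun k => ⟨h3, ?_⟩, k2, ⟨k3.o1, k3.o2, k3.b1, k3.b2, k3.b3, k3.b4⟩⟩
    have := k1 k
    rwa [Dt.ba_lv] at this
  · rintro ⟨k1, k2, k3⟩
    refine key.2 ⟨fun k => ?_, k2, ⟨k3.o1, k3.o2, k3.b1, k3.b2, k3.b3, k3.b4⟩⟩
    rw [Dt.ba_lv]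
    exact (k1 k).2

/-- the number of the arm in `Dt.th`: A, B at the first root, A, B at the second root -/
def aix : Arm → Fin 4
  | .fp => 0
  | .bq => 2
  | .fq => 3
  | .bp => 1

/-- **the dictionary in the form of `GInF`** -/
theorem gt_dicF (hD : D.Ok) (hf : D.Gf) (hG : GOk D G T) {c0 : ℝ} (hc : c0 < D.V.D0 - (D.P.rad + D.Q.rad))
    {U : Filter ℕ} (hU : U ≤ atTop) {Y : ℕ → W3 × ℕ → Fin 4 → ℝ} (y0 : ∀ᶠ N in U, ∀ x, Spt x → ∀ s, 0 ≤ Y N x s) :
    ∀ᶠ N : ℕ in U, ∀ x, Spt x → ∀ v', Far D N x v' → (DecG (D.th (Y N x)) N x v' ↔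
      (∀ k, gA c0 G T (fun k N x => Y N x (aix k)) k N x) ∧
        v' = v8 (gC G T fun k N x => Y N x (aix k)) (gX G T fun k N x => Y N x (aix k)) N x ∧ BaG D N x v') :=
  gt_dic (y := fun k N x => Y N x (aix k)) hD hf hG hc hU (by filter_upwards [y0] with N h x hx k using h x hx _)

/-- **the gates are even, in order, in their strands** (field `pos` of `AIn`) -/
theorem gt_pos8 (hD : D.Ok) (hG : GOk D G T) (c0 : ℝ) {U : Filter ℕ} (hU : U ≤ atTop) (y : Arm → ℕ → W3 × ℕ → ℝ) :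
    ∀ᶠ N : ℕ in U, ∀ x, Spt x → ∀ k, gA c0 G T y k N x → Even (gC G T y k N x) ∧ Even (gX G T y k N x) ∧
      gC G T y k N x ≤ gX G T y k N x ∧ gX G T y k N x ≤ (arcw x.2 k x.1).length := by
  filter_upwards [hU (eventually_ge_atTop 1)] with N hN x _ k h
  have hN0 : (0 : ℝ) < N := by exact_mod_cast hN
  obtain ⟨h1, h2, h3, h4⟩ := arm_pos hD hG hN0 h.2
  exact ⟨h1, h2, h3.le, h4.le⟩

end

/-! ### 4. The two lattices -/

section lattices

variable {P : Prm} {i j : Fin 3} {W W' : Wn} {y y' z z' : ℝ}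

/-- the inequalities of an end -/
lemma end_gf {E : En} {ε : ℝ} (h : E.Ok ε) : 0 < E.k ∧ 0 < E.n.r2 ∧ E.n.rg + E.k ≤ E.f.r0 ∧ 2 * E.n.r2 + 2 * E.k ≤ 2 * E.f.r0 ∧
    E.f.rg + E.k ≤ 2 * E.f.r0 ∧ 2 * E.f.r2 ≤ E.f.r0 ∧ 8 * E.f.r0 ≤ E.s.len := by
  have h1 := h.n.rr
  have h2 := h.r0
  have h3 := h.f.κ
  have h4 := h.f.r0
  have h5 := h.f.rr
  have h6 := h.bn
  have h7 := h.len
  have h8 := h.f.r
  have h9 := h.f.r2
  have h10 := h.rk
  have h11 := h.ball
  have h12 := h.n.r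
  have h13 := h.n.r2
  have h14 := h.n.rg
  have h15 := h.f.rg
  have h16 := h.n.κ
  have hk : E.k = E.rk + E.f.r2 := rfl
  refine ⟨by linarith, h13, by linarith, ?_, ?_, by linarith, by linarith⟩
  · linarith
  · linarith

/-- **lattice 0** -/
lemma D0_gf (hP : P.Ok) (hW : W = P.W ∨ W = P.Wc) (hW' : W' = P.W ∨ W' = P.Wc) : (D0 P i j W W').Gf := by
  obtain ⟨p1, p2, p3, p4, p5, p6, p7⟩ := end_gf hP.p
  obtain ⟨q1, q2, q3, q4, q5, q6, q7⟩ := end_gf hP.q
  have h1 := hP.nr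
  have h2 := hP.nrc
  have key : ∀ V : Wn, V = P.W ∨ V = P.Wc → 4 * (P.p.f.r0 + P.q.f.r0) < (P.wd V).D0 := by
    intro V hV
    show 4 * (P.p.f.r0 + P.q.f.r0) < V.D0 - (P.p.k + P.q.k)
    rcases hV with rfl | rfl <;> linarith
  have k1 := key W hW
  have k2 := key W' hW'
  refine ⟨?_, ?_, ?_, ?_⟩
  · show P.p.n.rg + 2 * P.q.n.r2 < (P.wd W).D0
    linarith
  · show P.q.n.rg + 2 * P.p.n.r2 < (P.wd W).D0
    linarith
  · show P.p.n.rg + 2 * P.q.n.r2 < (P.wd W').D0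
    linarith
  · show P.q.n.rg + 2 * P.p.n.r2 < (P.wd W').D0
    linarith

/-- **rotated lattice** -/
lemma DR_gf (hP : P.Ok) (hW : W = P.W ∨ W = P.Wc) (hW' : W' = P.W ∨ W' = P.Wc) : (DR P i j W W' y y' z z').Gf := by
  obtain ⟨p1, p2, p3, p4, p5, p6, p7⟩ := end_gf hP.p
  obtain ⟨q1, q2, q3, q4, q5, q6, q7⟩ := end_gf hP.q
  have h1 := hP.nr
  have h2 := hP.nrc
  have key : ∀ V : Wn, V = P.W ∨ V = P.Wc → 4 * (P.p.f.r0 + P.q.f.r0) < V.D0 := by
    intro V hV
    rcases hV with rfl | rfl <;> linarith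
  have k1 := key W hW
  have k2 := key W' hW'
  refine ⟨?_, ?_, ?_, ?_⟩
  · show P.p.f.rg + 2 * P.q.f.r2 < W.D0
    linarith
  · show P.q.f.rg + 2 * P.p.f.r2 < W.D0
    linarith
  · show P.p.f.rg + 2 * P.q.f.r2 < W'.D0
    linarith
  · show P.q.f.rg + 2 * P.p.f.r2 < W'.D0
    linarith

/-- the turn of the direction `e_a` -/
lemma trn_ev (a : Fin 3) : (rS (-a)).L (ev a) = 1 := by
  rw [L_ev, rS_σ, add_neg_cancel, ev_zero]

/-- the turns of the arms for strands of the classes `i`, `j` -/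
noncomputable def trnA (i j : Fin 3) : Arm → LSym
  | .fp => rS (-i)
  | .bq => rS (- -i)
  | .fq => rS (- -j)
  | .bp => rS (-j)

lemma trn_D0 (k : Arm) : (trnA i j k).L ((D0 P i j W W').gdr k) = 1 := by
  cases k <;> exact trn_ev _

lemma trn_DR (k : Arm) : (trnA i j k).L ((DR P i j W W' y y' z z').gdr k) = 1 := by
  cases k <;> exact trn_ev _

end lattices

end Pool.Agent.ROT.F3.CK
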