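import Pool.Agent.ROT.F3K3F

/-!
# ROT, F3, row K3 (helper2): every bounded Borel functional of the limit curve is a limit of functionals of the words

* **`lm_ex`** : for a Borel `Y` with `0 ≤ Y ≤ C` there are functionals `y` of the words with `0 ≤ y ≤ C` and `Lm y Y`; in particular the
  functional thresholds of the rotated lattice.
-/

set_option autoImplicit false

namespace Pool.Agent.ROT.F3.LF

open MeasureTheory Filter Topology Set BoundedContinuousFunction

open scoped NNReal ENNReal Classical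

variable {Ω : ℕ → Type*} [∀ i, MeasurableSpace (Ω i)] {l : Filter ℕ} {P : ∀ i, Measure (Ω i)} {X : Type*} [PseudoMetricSpace X]
  [MeasurableSpace X] [BorelSpace X] {c : ∀ i, Ω i → X} {ν : Measure X}

/-- approximation by bounded continuous functions with the same bounds -/
lemma bcf_ex (hf : IsFiniteMeasure ν) {Y : X → ℝ} (hY : Measurable Y) {C : ℝ} (y0 : ∀ x, 0 ≤ Y x) (yC : ∀ x, Y x ≤ C) {ε : ℝ}
    (hε : 0 < ε) : ∃ φ : X →ᵇ ℝ, (∀ x, 0 ≤ φ x) ∧ (∀ x, φ x ≤ C) ∧ ∫ x, |Y x - φ x| ∂ν ≤ ε := by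
  rcases isEmpty_or_nonempty X with hX | ⟨⟨x0⟩⟩
  · refine ⟨0, fun x => (hX.false x).elim, fun x => (hX.false x).elim, ?_⟩
    have : ν = 0 := Measure.eq_zero_of_isEmpty ν
    rw [this, integral_zero_measure]
    exact hε.le
  have hC : 0 ≤ C := (y0 x0).trans (yC x0)
  have hi : Integrable Y ν := itg (C := C) hY fun x => by
    rw [abs_of_nonneg (y0 x)]
    exact yC x
  obtain ⟨g, hg, hgi⟩ := hi.exists_boundedContinuous_integral_sub_le hε
  have hc : Continuous fun x => max 0 (min C (g x)) := continuous_const.max (continuous_const.min g.continuous)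
  have hb : ∀ x, 0 ≤ max 0 (min C (g x)) ∧ max 0 (min C (g x)) ≤ C := fun x => ⟨le_max_left _ _, max_le hC (min_le_left _ _)⟩
  refine ⟨BoundedContinuousFunction.ofNormedAddCommGroup _ hc C fun x => ?_, fun x => (hb x).1, fun x => (hb x).2, ?_⟩
  · rw [Real.norm_eq_abs, abs_of_nonneg (hb x).1]
    exact (hb x).2
  · refine le_trans (integral_mono ?_ ?_ fun x => ?_) hg
    · refine itg (C := C) (hY.sub hc.measurable).abs fun x => ?_
      have h1 := hb x
      have h2 := y0 x
      have h3 := yC x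
      show |(|Y x - max 0 (min C (g x))|)| ≤ C
      rw [abs_abs, abs_le]
      constructor <;> linarith
    · exact (hi.sub hgi).norm
    · show |Y x - max 0 (min C (g x))| ≤ ‖Y x - g x‖
      rw [Real.norm_eq_abs]
      have h1 := y0 x
      have h2 := yC x
      rcases le_total (g x) 0 with h3 | h3
      · have e : max 0 (min C (g x)) = 0 := max_eq_left ((min_le_right _ _).trans h3)
        rw [e, sub_zero, abs_of_nonneg h1, abs_of_nonneg (by linarith)]
        linarith
      · rcases le_total (g x) C with h4 | h4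
        · have e : max 0 (min C (g x)) = g x := by rw [min_eq_right h4, max_eq_right h3]
          rw [e]
        · have e : max 0 (min C (g x)) = C := by rw [min_eq_left h4, max_eq_right hC]
          rw [e, abs_of_nonpos (by linarith), abs_of_nonpos (by linarith)]
          linarith

/-- **every bounded Borel functional of the limit curve is a limit** -/
theorem lm_ex (hl : l ≤ atTop) (hC : Cv l P c ν) {Y : X → ℝ} (hY : Measurable Y) {C : ℝ} (y0 : ∀ x, 0 ≤ Y x)
    (yC : ∀ x, Y x ≤ C) : ∃ y : ∀ i, Ω i → ℝ, (∀ i ω, 0 ≤ y i ω ∧ y i ω ≤ C) ∧ Lm l P c ν y Y := by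
  have hf := hC.fin'
  have h1 : ∀ n : ℕ, ∃ φ : X →ᵇ ℝ, (∀ x, 0 ≤ φ x) ∧ (∀ x, φ x ≤ C) ∧ ∫ x, |Y x - φ x| ∂ν ≤ 1 / ((n : ℝ) + 1) :=
    fun n => bcf_ex hf hY y0 yC (by positivity)
  choose φ p0 pC hφ using h1
  obtain ⟨G, hG⟩ : ∃ G : ℕ → ℕ → Prop, G = fun n i => ∀ m ≤ n, ∫ ω, |φ n (c i ω) - φ m (c i ω)| ∂P i ≤
    2 * (1 / ((n : ℝ) + 1) + 1 / ((m : ℝ) + 1)) := ⟨_, rfl⟩
  have hab : ∀ n m : ℕ, ∃ ψ : X →ᵇ ℝ, ∀ x, ψ x = |φ n x - φ m x| := fun n m =>
    ⟨BoundedContinuousFunction.ofNormedAddCommGroup (fun x => |φ n x - φ m x|) (((φ n).continuous.sub (φ m).continuous).abs)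
      C fun x => by
        rw [Real.norm_eq_abs, abs_abs, abs_le]
        constructor <;> linarith [p0 n x, p0 m x, pC n x, pC m x], fun x => rfl⟩
  have hGe : ∀ n : ℕ, ∀ᶠ i in l, G n i := by
    intro n
    have h2 : ∀ m : ℕ, m ≤ n → ∀ᶠ i in l, ∫ ω, |φ n (c i ω) - φ m (c i ω)| ∂P i ≤ 2 * (1 / ((n : ℝ) + 1) + 1 / ((m : ℝ) + 1)) := by
      intro m _
      obtain ⟨ψ, hψ⟩ := hab n m
      have h3 := hC.lim ψ
      have h4 : ∫ x, ψ x ∂ν ≤ 1 / ((n : ℝ) + 1) + 1 / ((m : ℝ) + 1) := by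
        have e1 := int_bcf hf ψ
        have e2 : ∀ k : ℕ, Integrable (fun x => |Y x - φ k x|) ν := fun k =>
          itg (C := C) (hY.sub (φ k).continuous.measurable).abs fun x => by
            rw [abs_abs, abs_le]
            constructor <;> linarith [p0 k x, pC k x, y0 x, yC x]
        refine le_trans (integral_mono e1 ((e2 n).add (e2 m)) fun x => ?_) ?_
        · show ψ x ≤ |Y x - φ n x| + |Y x - φ m x|
          rw [hψ]
          have : φ n x - φ m x = -(Y x - φ n x) + (Y x - φ m x) := by ring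
          rw [this]
          refine (abs_add_le _ _).trans (le_of_eq ?_)
          rw [abs_neg]
        · rw [show (∫ x, ((fun x => |Y x - φ n x|) + fun x => |Y x - φ m x|) x ∂ν) =
            ∫ x, |Y x - φ n x| ∂ν + ∫ x, |Y x - φ m x| ∂ν from integral_add (e2 n) (e2 m)]
          exact add_le_add (hφ n) (hφ m)
      have h5 : ∫ x, ψ x ∂ν < 2 * (1 / ((n : ℝ) + 1) + 1 / ((m : ℝ) + 1)) := by
        have : 0 < 1 / ((n : ℝ) + 1) + 1 / ((m : ℝ) + 1) := by positivity
        linarith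
      filter_upwards [h3.eventually (gt_mem_nhds h5)] with i hi
      refine le_trans (le_of_eq ?_) hi.le
      exact integral_congr_ae (Eventually.of_forall fun ω => (hψ _).symm)
    have h6 := (Filter.eventually_all_finset (l := l) (Finset.range (n + 1))
      (p := fun m i => ∫ ω, |φ n (c i ω) - φ m (c i ω)| ∂P i ≤ 2 * (1 / ((n : ℝ) + 1) + 1 / ((m : ℝ) + 1)))).2
      fun m hm => h2 m (Nat.lt_succ_iff.1 (Finset.mem_range.1 hm))
    filter_upwards [h6] with i hi
    rw [hG]
    exact fun m hm => hi m (Finset.mem_range.2 (Nat.lt_succ_of_le hm))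
  have hG0 : ∀ i, G 0 i := by
    intro i
    rw [hG]
    intro m hm
    have : m = 0 := by omega
    subst this
    have e : ∫ ω, |φ 0 (c i ω) - φ 0 (c i ω)| ∂P i = 0 := by simp
    rw [e]
    positivity
  obtain ⟨M, hM⟩ : ∃ M : ℕ → ℕ, M = fun i => Nat.findGreatest (fun n => G n i) i := ⟨_, rfl⟩
  have hGM : ∀ i, G (M i) i := by
    intro i
    rw [hM]
    exact Nat.findGreatest_spec (P := fun n => G n i) (Nat.zero_le i) (hG0 i)
  have hMn : ∀ n : ℕ, ∀ᶠ i in l, n ≤ M i := by
    intro n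
    filter_upwards [hGe n, hl (eventually_ge_atTop n)] with i h2 h3
    rw [hM]
    exact Nat.le_findGreatest h3 h2
  refine ⟨fun i ω => φ (M i) (c i ω), fun i ω => ⟨p0 _ _, pC _ _⟩, ?_, ⟨C, fun i ω => ?_⟩, hY, ⟨C, fun x => ?_⟩, fun ε hε => ?_⟩
  · exact fun i => (φ (M i)).continuous.measurable.comp (hC.ms i)
  · rw [abs_of_nonneg (p0 _ _)]
    exact pC _ _
  · rw [abs_of_nonneg (y0 x)]
    exact yC x
  · obtain ⟨m, hm⟩ := exists_nat_one_div_lt (show (0 : ℝ) < ε / 4 by positivity)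
    refine ⟨φ m, (hφ m).trans (by linarith), ?_⟩
    filter_upwards [hMn m] with i hi
    have h2 := hGM i
    rw [hG] at h2
    have h3 := h2 m hi
    have h4 : 1 / ((M i : ℝ) + 1) ≤ 1 / ((m : ℝ) + 1) :=
      one_div_le_one_div_of_le (by positivity) (by
        have : (m : ℝ) ≤ M i := by exact_mod_cast hi
        linarith)
    linarith

end Pool.Agent.ROT.F3.LF
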