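import Pool.Agent.ROT.F3Cls

/-!
# ROT / F3ClsT (helper82): the classes of F3Cls satisfy the hypotheses of the exact products; the marks are unique

* `PreM.tip`, `PreM.endK`, `PreM.sec` : prefixes are tip pieces, their ends and blocks are in the sector;
* **`PaiM.k`** : pairs are connections `ConK`; **`RsQ.k`** : rests are `RsK`;
* **`hyp_cls`** : `Hyp` for closed words; **`exW_cls`** : the exact product for walks;
* **`pre_unique`**, **`marks_walk_cls`**, **`marks_cls`** : uniqueness;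
* `Kn.add`, `Kn.turn`, `KcM.rest` .. : cones of the two lattices.
-/

set_option autoImplicit false

namespace Pool.Agent.ROT.F3

open Finset ComplexConjugate
open scoped ENNReal Classical

/-! ### 1. Cones -/

lemma lv_sub_le (d t z : ℂ) : lv t z - ‖t - d‖ * ‖z‖ ≤ lv d z := by
  have h1 : lv t z = lv (t - d) z + lv d z := by
    rw [← lv_add_dir, sub_add_cancel]
  have h2 := lv_le (t - d) z
  linarith

lemma Kn.mono {d v : ℂ} {c c' κ κ' : ℝ} (h : Kn d c κ v) (hc : c' ≤ c) (hκ : κ ≤ κ') : Kn d c' κ' v := by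
  unfold Kn at h ⊢
  have := mul_le_mul_of_nonneg_right hc (norm_nonneg v)
  linarith

/-- sums of vectors of a cone -/
lemma Kn.add {d v v' : ℂ} {c κ κ' : ℝ} (hc : 0 ≤ c) (h : Kn d c κ v) (h' : Kn d c κ' v') : Kn d c (κ + κ') (v + v') := by
  unfold Kn at h h' ⊢
  rw [lv_add]
  have := mul_le_mul_of_nonneg_left (norm_add_le v v') hc
  linarith

/-- another direction -/
lemma Kn.turn {d t v : ℂ} {c c' κ : ℝ} (h : Kn t c κ v) (hc : c' + ‖t - d‖ ≤ c) : Kn d c' κ v := by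
  unfold Kn at h ⊢
  have h1 := lv_sub_le d t v
  have h2 := mul_le_mul_of_nonneg_right hc (norm_nonneg v)
  linarith

/-- a vector in a cone of cosine `> 1 / 2` without offset is in the open sector -/
lemma Kn.sec {d v : ℂ} {c κ : ℝ} (hc : 1 / 2 ≤ c) (h : Kn d c (-κ) v) (hκ : 0 < κ) : Sec d v := by
  unfold Kn at h
  unfold Sec
  have := mul_le_mul_of_nonneg_right hc (norm_nonneg v)
  linarith

lemma Kn.sec' {d v : ℂ} {c : ℝ} (hc : 1 / 2 < c) (h : Kn d c 0 v) (hv : v ≠ 0) : Sec d v := by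
  unfold Kn at h
  unfold Sec
  have := mul_lt_mul_of_pos_right hc (norm_pos_iff.2 hv)
  linarith

lemma ConeQ.add {d : ℂ} {c κ : ℝ} {b : W3} (h : ConeQ d c κ b) {v : ℂ} {e : ℝ} {cs : ℝ} (hs : 0 ≤ cs) (hc : cs ≤ c)
    (hv : Kn d cs (-e) v) {k : ℕ} (hk : k ≤ b.length) : Kn d cs (κ - e) (v + ps b k) := by
  have := hv.add hs ((h k hk).mono hc le_rfl)
  rwa [show -e + κ = κ - e by ring] at this

/-! ### 2. Prefixes -/

section

variable {d d' : ℂ} {P Q : Tp} {S T : ℝ}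

/-- radius of the prefixes -/
def Tp.rad (P : Tp) : ℝ := P.r + P.r2

lemma PreM.tip {p : W3} {k : ℕ} (h : PreM d P S T p k) : TipC d (P.rad * S) p := by
  have := h.g.tip
  rwa [show P.r * S + P.r2 * S = P.rad * S by unfold Tp.rad; ring] at this

/-- the blocks are in the sector of the tip -/
lemma PreM.kn {p : W3} {k : ℕ} (h : PreM d P S T p k) (hP : P.Ok) (hS : 0 ≤ S) {j : ℕ} (hj : j ≤ (p.drop k).length) :
    Kn d P.cs (-(P.κ * S)) (en (p.take k) + ps (p.drop k) j) := by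
  have h1 : Kn d P.cs (-(P.e * S)) (en (p.take k)) := by
    have := h.e
    unfold EndQ at this
    unfold Kn
    linarith
  refine (h.s.add (by linarith [hP.cs]) hP.c h1 hj).mono le_rfl ?_
  have := mul_le_mul_of_nonneg_right hP.e hS
  linarith

lemma PreM.en_eq {p : W3} {k : ℕ} (h : PreM d P S T p k) : en p = en (p.take k) + ps (p.drop k) (p.drop k).length := by
  conv_lhs => rw [← List.take_append_drop k p, en_append h.g.a.ev]
  rfl

lemma PreM.endQ {p : W3} {k : ℕ} (h : PreM d P S T p k) (hP : P.Ok) (hS : 0 ≤ S) : EndQ d P.cs (P.κ * S) p := by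
  have := h.kn hP hS le_rfl
  rw [← h.en_eq] at this
  unfold Kn at this
  unfold EndQ
  linarith

lemma EndQ.k {d : ℂ} {c e : ℝ} {p : W3} (h : EndQ d c e p) (hc : 1 / 2 ≤ c) : EndK d e p := by
  unfold EndQ at h
  unfold EndK
  have := mul_le_mul_of_nonneg_right hc (norm_nonneg (en p))
  linarith

/-! ### 3. Connections -/

/-- two double gates with the same root: the first pieces are left of the gates `c` or in their own sectors -/
theorem conK_of2 {r r2 κ : ℝ} {a a' b b' : W3} (hd : ‖d + d'‖ ≤ 1) (t1 : TipC d r a) (t2 : TipC d' r a')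
    (l2 : ∀ k : ℕ, k ≤ a'.length → lv d (ps a' k) ≤ lv d (en a) ∨ Sec d' (ps a' k))
    (l1 : ∀ k : ℕ, k ≤ a.length → lv d' (ps a k) ≤ lv d' (en a') ∨ Sec d (ps a k))
    (dj : ∀ j k : ℕ, j ≤ a.length → k ≤ a'.length → ps a j = ps a' k → j = 0 ∧ k = 0)
    (hb : BlkC d r2 b) (hb' : BlkC d' r2 b') (s : ∀ k : ℕ, 0 < k → k ≤ b.length → Sec d (en a + ps b k))
    (s' : ∀ k : ℕ, 0 < k → k ≤ b'.length → Sec d' (en a' + ps b' k)) (e : EndK d κ (a ++ b)) (e' : EndK d' κ (a' ++ b')) :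
    ConK d d' (r + r2) κ (a ++ b, a' ++ b') where
  t1 := t1.app hb
  t2 := t2.app hb'
  e1 := e
  e2 := e'
  l2 := by
    intro k hk
    simp only [List.length_append] at hk ⊢
    rcases le_or_gt k a'.length with h1 | h1
    · rw [ps_append_left h1, en_append t1.ev, lv_add]
      rcases l2 k h1 with h2 | h2
      · left
        linarith [hb.lv_pos]
      · exact Or.inr h2
    · right
      rw [ps_app t2.ev h1.le]
      exact s' _ (by omega) (by omega)
  l1 := by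
    intro k hk
    simp only [List.length_append] at hk ⊢
    rcases le_or_gt k a.length with h1 | h1
    · rw [ps_append_left h1, en_append t2.ev, lv_add]
      rcases l1 k h1 with h2 | h2
      · left
        linarith [hb'.lv_pos]
      · exact Or.inr h2
    · right
      rw [ps_app t1.ev h1.le]
      exact s _ (by omega) (by omega)
  dj := by
    intro j k hj hk he
    simp only [List.length_append] at hj hk he
    rcases le_or_gt j a.length with h1 | h1 <;> rcases le_or_gt k a'.length with h2 | h2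
    · rw [ps_append_left h1, ps_append_left h2] at he
      exact dj j k h1 h2 he
    · exfalso
      rw [ps_append_left h1, ps_app t2.ev h2.le] at he
      rcases l1 j h1 with h3 | h3
      · rw [he, lv_add] at h3
        linarith [hb'.right (k - a'.length) (by omega) (by omega)]
      · rw [he] at h3
        exact not_sec hd h3 (s' _ (by omega) (by omega))
    · exfalso
      rw [ps_app t1.ev h1.le, ps_append_left h2] at he
      rcases l2 k h2 with h3 | h3
      · rw [← he, lv_add] at h3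
        linarith [hb.right (j - a.length) (by omega) (by omega)]
      · rw [← he] at h3
        exact not_sec hd (s _ (by omega) (by omega)) h3
    · exfalso
      rw [ps_app t1.ev h1.le, ps_app t2.ev h2.le] at he
      have h3 := s (j - a.length) (by omega) (by omega)
      have h4 := s' (k - a'.length) (by omega) (by omega)
      rw [he] at h3
      exact not_sec hd h3 h4

/-- the wedge condition -/
lemma wedge {v : ℂ} (hP : P.Ok) (hS : 0 < S) (hd : ‖d‖ = 1) {y : ℝ} (hy : P.l * S ≤ y)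
    (h : lv d v ≤ P.w * S ∨ Kn d' P.cs (P.κs * S) v) : lv d v ≤ y ∨ Sec d' v := by
  rcases le_or_gt (lv d v) (P.w * S) with h1 | h1
  · left
    have := mul_le_mul_of_nonneg_right hP.w hS.le
    linarith
  · right
    rcases h with h | h
    · linarith
    · unfold Kn at h
      unfold Sec
      have h2 : P.w * S < ‖v‖ := by
        have := lv_le d v
        rw [hd, one_mul] at this
        linarith
      have h3 := mul_le_mul_of_nonneg_right hP.κs hS.le
      have h4 : (P.cs - 1 / 2) * (P.w * S) < (P.cs - 1 / 2) * ‖v‖ := mul_lt_mul_of_pos_left h2 (by linarith [hP.cs])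
      nlinarith

/-- **pairs are connections**, thresholds `l + y`, `l + y'` -/
theorem PaiM.k {y y' : ℝ} {a : W3 × W3} {k1 k2 : ℕ} (h : PaiM d d' (P.up y) (P.up y') S T a k1 k2) (hP : P.Ok)
    (hy : 0 ≤ y) (hy' : 0 ≤ y') (hS : 0 < S) (hd : ‖d + d'‖ ≤ 1) (n1 : ‖d‖ = 1) (n2 : ‖d'‖ = 1) :
    ConK d d' (P.rad * S) (P.κ * S) a := by
  have o1 := hP.up hy
  have o2 := hP.up hy'
  have l1 := h.p1.g.le
  have l2 := h.p2.g.le
  have t1 : ∀ j, j ≤ k1 → ps (a.1.take k1) j = ps a.1 j := fun j hj => ps_take _ hj l1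
  have t2 : ∀ j, j ≤ k2 → ps (a.2.take k2) j = ps a.2 j := fun j hj => ps_take _ hj l2
  have m1 : (a.1.take k1).length = k1 := by rw [List.length_take, min_eq_left l1]
  have m2 : (a.2.take k2).length = k2 := by rw [List.length_take, min_eq_left l2]
  have κS : 0 < P.κ * S := mul_pos hP.κ hS
  have c2 : (1 : ℝ) / 2 ≤ P.cs := hP.cs.le
  have g1 := h.p1.g.a
  have g2 := h.p2.g.a
  have b1 := h.p1.g.b
  have b2 := h.p2.g.b
  have := conK_of2 (r := P.r * S) (r2 := P.r2 * S) (κ := P.κ * S) hd g1 g2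
    (fun k hk => by
      rw [m2] at hk
      rw [t2 k hk]
      exact wedge o1 hS n1 h.p1.g.fa.1 (h.w2 k hk))
    (fun k hk => by
      rw [m1] at hk
      rw [t1 k hk]
      exact wedge o2 hS n2 h.p2.g.fa.1 (h.w1 k hk))
    (fun j k hj hk he => by
      rw [m1] at hj
      rw [m2] at hk
      rw [t1 j hj, t2 k hk] at he
      exact h.dj j k hj hk he)
    b1 b2 (fun k _ hk => (h.p1.kn o1 hS.le hk).sec c2 κS) (fun k _ hk => (h.p2.kn o2 hS.le hk).sec c2 κS)
    (by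
      rw [List.take_append_drop]
      exact (h.p1.endQ o1 hS.le).k c2)
    (by
      rw [List.take_append_drop]
      exact (h.p2.endQ o2 hS.le).k c2)
  rwa [List.take_append_drop, List.take_append_drop, show P.r * S + P.r2 * S = P.rad * S by unfold Tp.rad; ring] at this

/-- the same on the lattice 0 -/
theorem PaiM.k0 {a : W3 × W3} {k1 k2 : ℕ} (h : PaiM d d' P P S T a k1 k2) (hP : P.Ok)
    (hS : 0 < S) (hd : ‖d + d'‖ ≤ 1) (n1 : ‖d‖ = 1) (n2 : ‖d'‖ = 1) : ConK d d' (P.rad * S) (P.κ * S) a := by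
  have h' : PaiM d d' (P.up 0) (P.up 0) S T a k1 k2 := by rwa [Tp.up_zero]
  exact h'.k hP le_rfl le_rfl hS hd n1 n2

/-! ### 4. Rests -/

lemma EdQ.k {R : W3} (h : EdQ d P S R) (hP : P.Ok) (hS : 0 < S) : RestK d (2 * (P.rad * S)) (P.κ * S) R := by
  intro k h0 hk hn
  have r1 : 2 * (P.rad * S) < P.rg * S := by
    have := mul_lt_mul_of_pos_right hP.rg hS
    unfold Tp.rad
    linarith
  have r2 : 2 * (P.rad * S) < P.r0 * S - P.κ * S := by
    have := mul_lt_mul_of_pos_right hP.r0 hS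
    unfold Tp.rad
    linarith
  have h1 := h.right k h0 hk (by linarith)
  refine ⟨h1, ?_⟩
  rcases h.cone k hk with h2 | h2
  · unfold Kn at h2
    have h3 : 0 < ‖ps R k‖ := by
      rw [norm_pos_iff]
      intro h4
      rw [h4, lv_zero] at h1
      exact lt_irrefl _ h1
    have h4 : 1 / 2 < P.c := by linarith [hP.c, hP.cs]
    nlinarith
  · linarith

/-- **rests are rests of F3Dbl** -/
theorem RsQ.k {W : Wn} {R : W3} (h : RsQ d d' P Q W S T R) (hP : P.Ok) (hQ : Q.Ok) (hS : 0 < S) :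
    RsK d d' (2 * (P.rad * S)) (2 * (Q.rad * S)) (P.κ * S) (Q.κ * S) (W.D0 * S) R :=
  ⟨h.ev, h.sw, h.s.k hP hS, h.e.k hQ hS, h.far⟩

/-- the rests with the ball of the gate -/
lemma RsQ.c {W : Wn} {R : W3} (h : RsQ d d' P Q W S T R) : RsC d d' (P.rg * S) (Q.rg * S) (W.D0 * S) R :=
  ⟨h.ev, h.sw, h.s.right, h.e.right, h.far⟩

lemma Rst.s_sub {W : Wn} {s s' : Sr} : Man d d' P Q W s s' S T ⊆ Rst d d' P Q W S T := fun _ h => h.q

/-! ### 5. The exact products -/

/-- **`Hyp` for the classes of F3Cls (closed words)**; `y`, `y'`, `z`, `z'` = the additional thresholds (0 on the lattice 0) -/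
theorem hyp_cls {d1 d2 d1' d2' : ℂ} {W W' : Wn} {y y' z z' : ℝ} {C C' : Set (W3 × W3)} {RA RB : Set W3} (hP : P.Ok)
    (hQ : Q.Ok) (hS : 0 < S) (hy : 0 ≤ y) (hy' : 0 ≤ y') (hz : 0 ≤ z) (hz' : 0 ≤ z')
    (hd : ‖d1 + d2‖ ≤ 1) (hd' : ‖d1' + d2'‖ ≤ 1) (n1 : ‖d1‖ = 1) (n2 : ‖d2‖ = 1) (n1' : ‖d1'‖ = 1) (n2' : ‖d2'‖ = 1)
    (hC : C ⊆ Pai d1 d2 (P.up y) (P.up y') S T) (hC' : C' ⊆ Pai d1' d2' (Q.up z) (Q.up z') S T)
    (hA : RA ⊆ Rst d1 d1' P Q W S T) (hB : RB ⊆ Rst d2 d2' P Q W' S T) (hD : 2 * (P.rad + Q.rad) < W.D0)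
    (hD' : 2 * (P.rad + Q.rad) < W'.D0) : Hyp C C' RA RB := by
  have e1 : 2 * (P.rad * S + Q.rad * S) < min (W.D0 * S) (W'.D0 * S) := by
    have h1 := mul_lt_mul_of_pos_right hD hS
    have h2 := mul_lt_mul_of_pos_right hD' hS
    exact lt_min (by linarith) (by linarith)
  refine hyp_ofK (κ := P.κ * S) (κ' := Q.κ * S) (D := min (W.D0 * S) (W'.D0 * S)) hd hd' (fun a ha => ?_) (fun b hb => ?_)
    (fun R hR => ?_) (fun R hR => ?_) le_rfl le_rfl e1
  · obtain ⟨k1, k2, h⟩ := hC ha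
    exact h.k hP hy hy' hS hd n1 n2
  · obtain ⟨k1, k2, h⟩ := hC' hb
    exact h.k hQ hz hz' hS hd' n1' n2'
  · have := (hA hR).k hP hQ hS
    exact ⟨this.ev, this.sw, this.s, this.e, (min_le_left _ _).trans this.far⟩
  · have := (hB hR).k hP hQ hS
    exact ⟨this.ev, this.sw, this.s, this.e, (min_le_right _ _).trans this.far⟩

/-- **the exact product for walks, classes of F3Cls** -/
theorem exW_cls {W : Wn} {A B : Set W3} {Rs : Set W3} (hP : P.Ok) (hQ : Q.Ok) (hS : 0 < S) (hA : A ⊆ Pre d P S T)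
    (hB : B ⊆ Pre d' Q S T) (hR : Rs ⊆ Rst d d' P Q W S T) (hD : 2 * (P.rad + Q.rad) < W.D0) (f F f' : W3 → ℝ≥0∞) :
    ∑' w : W3, ∑ k ∈ range (w.length + 1), ∑ l ∈ range (w.length - k + 1),
      (if SW w ∧ w.take k ∈ A ∧ (w.drop k).take l ∈ Rs ∧ (w.drop (k + l)).reverse ∈ B then
        wx w * (f (w.take k) * (F ((w.drop k).take l) * f' (w.drop (k + l)).reverse)) else 0) =
      ms A f * (ms Rs F * ms B f') := by
  have e1 : 2 * (P.rad * S + Q.rad * S) < W.D0 * S := by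
    have h1 := mul_lt_mul_of_pos_right hD hS
    linarith
  have g1 : 2 * (P.rad * S) ≤ P.rg * S := by
    have := mul_lt_mul_of_pos_right hP.rg hS
    unfold Tp.rad
    linarith
  have g2 : 2 * (Q.rad * S) ≤ Q.rg * S := by
    have := mul_lt_mul_of_pos_right hQ.rg hS
    unfold Tp.rad
    linarith
  refine exW_of (d := d) (d' := d') (fun a ha => ?_) (fun b hb => ?_) (fun R h => (hR h).c) g1 g2 e1 f F f'
  · obtain ⟨k, h⟩ := hA ha
    exact h.tip
  · obtain ⟨k, h⟩ := hB hb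
    exact h.tip

/-! ### 6. Uniqueness -/

/-- **the first two marks are unique** -/
theorem pre_unique {W W' : Wn} {d2 d2' : ℂ} {Q' : Tp} {p p' R R' t t' : W3} {k k' : ℕ} (hP : P.Ok) (hS : 0 < S)
    (h : PreM d P S T p k) (h' : PreM d P S T p' k') (hR : RsQ d d2 P Q W S T R) (hR' : RsQ d d2' P Q' W' S T R')
    (hD : 2 * P.rad < W.D0) (hD' : 2 * P.rad < W'.D0) (he : p ++ (R ++ t) = p' ++ (R' ++ t')) : p = p' ∧ k = k' := by
  have g1 : 2 * (P.r * S + P.r2 * S) ≤ P.rg * S := by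
    have := mul_lt_mul_of_pos_right hP.rg hS
    linarith
  have e1 : 2 * (P.r * S + P.r2 * S) < min (W.D0 * S) (W'.D0 * S) := by
    have h1 := mul_lt_mul_of_pos_right hD hS
    have h2 := mul_lt_mul_of_pos_right hD' hS
    unfold Tp.rad at h1 h2
    exact lt_min (by linarith) (by linarith)
  exact dbl_unique h.g h'.g hR.s.right hR'.s.right hR.ev hR'.ev g1 e1 ((min_le_left _ _).trans hR.far)
    ((min_le_right _ _).trans hR'.far) he

/-- **the marks of a walk are unique** -/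
theorem marks_walk_cls {W : Wn} {p p' R R' q q' : W3} {k k' j j' : ℕ} (hP : P.Ok) (hQ : Q.Ok) (hS : 0 < S)
    (hp : PreM d P S T p k) (hp' : PreM d P S T p' k') (hq : PreM d' Q S T q j) (hq' : PreM d' Q S T q' j')
    (hR : RsQ d d' P Q W S T R) (hR' : RsQ d d' P Q W S T R') (hD : 2 * P.rad < W.D0) (hD' : 2 * Q.rad < W.D0)
    (h : p ++ (R ++ q.reverse) = p' ++ (R' ++ q'.reverse)) : (p = p' ∧ k = k') ∧ R = R' ∧ (q = q' ∧ j = j') := by
  have g1 : 2 * (P.r * S + P.r2 * S) ≤ P.rg * S := by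
    have := mul_lt_mul_of_pos_right hP.rg hS
    linarith
  have g2 : 2 * (Q.r * S + Q.r2 * S) ≤ Q.rg * S := by
    have := mul_lt_mul_of_pos_right hQ.rg hS
    linarith
  have h1 := mul_lt_mul_of_pos_right hD hS
  have h2 := mul_lt_mul_of_pos_right hD' hS
  unfold Tp.rad at h1 h2
  exact dmarks_walk hp.g hp'.g hq.g hq'.g hR.c hR'.c g1 g2 (by linarith) (by linarith) h

/-- **the marks of a closed word with the roots `0` and `m` are unique** (any data of the four ends) -/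
theorem marks_cls {d1 d2 d1' d2' : ℂ} {P' Q' : Tp} {W W' : Wn} (hP : P.Ok) (hQ : Q.Ok) (hP' : P'.Ok) (hQ' : Q'.Ok) (hS : 0 < S)
    (hD : 2 * P.rad < W.D0) (hD' : 2 * Q.rad < W.D0) (hE : 2 * P'.rad < W'.D0) (hE' : 2 * Q'.rad < W'.D0)
    {a a' b b' : W3 × W3} {R R' U U' : W3} {k1 k1' k2 k2' j1 j1' j2 j2' : ℕ}
    (ha : PaiM d1 d2 P P' S T a k1 k2) (ha' : PaiM d1 d2 P P' S T a' k1' k2') (hb : PaiM d1' d2' Q Q' S T b j1 j2)
    (hb' : PaiM d1' d2' Q Q' S T b' j1' j2') (hR : RsQ d1 d1' P Q W S T R) (hR' : RsQ d1 d1' P Q W S T R')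
    (hU : RsQ d2 d2' P' Q' W' S T U) (hU' : RsQ d2 d2' P' Q' W' S T U')
    (hm : (a.1 ++ (R ++ b.1.reverse)).length = (a'.1 ++ (R' ++ b'.1.reverse)).length) (h : G6 a R b U = G6 a' R' b' U') :
    (a = a' ∧ R = R' ∧ b = b' ∧ U = U') ∧ (k1 = k1' ∧ k2 = k2' ∧ j1 = j1' ∧ j2 = j2') := by
  have e : ∀ (a : W3 × W3) (R : W3) (b : W3 × W3) (S : W3),
      G6 a R b S = (a.1 ++ (R ++ b.1.reverse)) ++ (b.2 ++ (S.reverse ++ a.2.reverse)) := fun a R b S => by
    simp [G6, List.append_assoc]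
  rw [e, e] at h
  obtain ⟨h1, h2⟩ := List.append_inj h hm
  obtain ⟨⟨k1, m1⟩, k2, ⟨k3, m3⟩⟩ := marks_walk_cls hP hQ hS ha.p1 ha'.p1 hb.p1 hb'.p1 hR hR' hD hD' h1
  have h3 : a.2 ++ (U ++ b.2.reverse) = a'.2 ++ (U' ++ b'.2.reverse) := by
    have := congrArg List.reverse h2
    simpa [List.reverse_append] using this
  obtain ⟨⟨k4, m4⟩, k5, ⟨k6, m6⟩⟩ := marks_walk_cls hP' hQ' hS ha.p2 ha'.p2 hb.p2 hb'.p2 hU hU' hE hE' h3
  exact ⟨⟨Prod.ext k1 k4, k2, Prod.ext k3 k6, k5⟩, m1, m4, m3, m6⟩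

end

/-! ### 7. The two lattices -/

section

variable {d t : ℂ} {E : En} {ε S : ℝ}

/-- **the cone of the lattice 0 behind `x~`**: `v` = `x~ - x`, `w` = a point of the arc seen from `x~` -/
lemma cone_shift (hE : E.Ok ε) (hS : 0 ≤ S) (ht : ‖t - d‖ ≤ ε) {v w : ℂ} (hv : E.n.c * ‖v‖ + E.ek * S ≤ lv d v)
    (hw : Kn t E.f.c (E.f.κ * S) w) : Kn d E.n.c (E.n.κ * S) (v + w) := by
  have h1 : Kn d E.n.c (E.f.κ * S) w := hw.turn (by linarith [hE.c])
  have h2 : Kn d E.n.c (-(E.ek * S)) v := by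
    unfold Kn
    linarith
  have h3 := h2.add (by linarith [hE.n.c, hE.n.cs]) h1
  refine h3.mono le_rfl ?_
  have := mul_le_mul_of_nonneg_right hE.κ hS
  have := mul_nonneg hE.ek hS
  linarith

/-- **strictly right of `x`** -/
lemma right_shift (hE : E.Ok ε) (hS : 0 < S) (ht : ‖t - d‖ ≤ ε) {v w : ℂ} (hv : (E.f.l + E.f.m) * S ≤ lv t v)
    (hb : ‖v‖ ≤ E.k * S) (hw : Kn t E.f.c (E.f.κ * S) w) : 0 < lv d (v + w) := by
  have h1 : Kn d E.n.c (E.f.κ * S) w := hw.turn (by linarith [hE.c])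
  unfold Kn at h1
  have hc : 0 < E.n.c := by linarith [hE.n.c, hE.n.cs]
  have h2 := mul_nonneg hc.le (norm_nonneg w)
  have h3 := lv_sub_le d t v
  have h4 : ‖t - d‖ * ‖v‖ ≤ ε * (E.k * S) := by
    calc ‖t - d‖ * ‖v‖ ≤ ε * ‖v‖ := mul_le_mul_of_nonneg_right ht (norm_nonneg _)
      _ ≤ ε * (E.k * S) := mul_le_mul_of_nonneg_left hb ((norm_nonneg _).trans ht)
  rw [lv_add]
  have h5 := mul_lt_mul_of_pos_right hE.rt hS
  nlinarith

/-- **the sector of the rotated lattice** -/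
lemma sec_turn (hE : E.Ok ε) (ht : ‖t - d‖ ≤ ε) {v : ℂ} {κ : ℝ} (hv : Kn d E.n.cs κ v) : Kn t E.f.cs κ v := by
  refine hv.turn ?_
  rw [norm_sub_rev]
  linarith [hE.cs]

/-- **the gate `c~` is in the cone of the rotated class** -/
lemma endQ_shift (hE : E.Ok ε) (hS : 0 ≤ S) (ht : ‖t - d‖ ≤ ε) {v : ℂ} (hv : Kn d E.n.cs 0 v) (hl : E.f.l * S ≤ lv t v)
    (h1 : ‖t‖ = 1) : E.f.cs * ‖v‖ + E.f.e * S ≤ lv t v := by
  have h2 := lv_sub_le t d v
  rw [norm_sub_rev] at h2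
  unfold Kn at hv
  have h3 : ‖t - d‖ * ‖v‖ ≤ ε * ‖v‖ := mul_le_mul_of_nonneg_right ht (norm_nonneg _)
  have h4 : E.f.l * S ≤ ‖v‖ := by
    have := lv_le t v
    rw [h1, one_mul] at this
    linarith
  have h5 := mul_le_mul_of_nonneg_right hE.ec hS
  have h6 : (E.n.cs - ε - E.f.cs) * (E.f.l * S) ≤ (E.n.cs - ε - E.f.cs) * ‖v‖ :=
    mul_le_mul_of_nonneg_left h4 (by linarith [hE.cs])
  nlinarith

/-- the levels (rotated) of the prefix tip .. `x` are at most the level of `x` plus `f.l / 2` -/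
lemma lev_shift (hE : E.Ok ε) (hS : 0 ≤ S) (ht : ‖t - d‖ ≤ ε) {v x : ℂ} (hv : lv d v ≤ lv d x)
    (b1 : ‖v‖ ≤ (E.n.r + E.n.r2) * S) (b2 : ‖x‖ ≤ (E.n.r + E.n.r2) * S) : lv t v ≤ lv t x + E.f.l / 2 * S := by
  have h1 := lv_sub_le d t (v - x)
  rw [lv_sub, lv_sub] at h1
  have h2 : ‖t - d‖ * ‖v - x‖ ≤ ε * (2 * (E.n.r + E.n.r2) * S) := by
    have h3 : ‖v - x‖ ≤ 2 * (E.n.r + E.n.r2) * S := by
      have := norm_sub_le v x
      linarith
    calc ‖t - d‖ * ‖v - x‖ ≤ ε * ‖v - x‖ := mul_le_mul_of_nonneg_right ht (norm_nonneg _)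
      _ ≤ ε * (2 * (E.n.r + E.n.r2) * S) := mul_le_mul_of_nonneg_left h3 ((norm_nonneg _).trans ht)
  have h4 := mul_le_mul_of_nonneg_right hE.loc hS
  linarith

end

end Pool.Agent.ROT.F3
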