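import Pool.Agent.ROT.F3Stat
import Pool.Agent.ROT.F3ClsT

/-!
# F3, the limit classes (helper90): statistics of the classes of `F3Cls`

Every class of `F3Cls` = gate part (prefix rules of cuts, `RestC`, evenness, self-avoidance) and soft part (`PreS`, `PaiS`, `RsS`,
`NRt`, `KcS`, `OtS`); `preM_iff`, `paiM_iff`, `rsQ_iff`, `mnQ_iff`, `kcM_iff`, `otM_iff`.
The soft part of a class is, up to `3 / S`, the condition `F ≤ 0` (`Sqz`) with a continuous statistic `F` of (curve, duration `n / T`,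
times of the marks): `preF`, `paiF`, `rsF`, `mnF`, `kcF`, `otF`; the limit class is `{F ≤ 0}`.
* `pcw w i j` : the piece of the word `w` from the vertex `i` to the vertex `j` (`j < i`: read backwards); `crv_pcw`;
* **`preS_sq`, `paiS_sq`, `rsS_sq`, `mnS_sq`, `kcS_sq`, `otS_sq`** : words and statistics;
* `Continuous.preF` ..: continuity.
-/

set_option autoImplicit false

namespace Pool.Agent.ROT.F3

open Finset ComplexConjugate unitInterval
open scoped NNReal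

/-! ### 1. Squeezed conditions -/

/-- `A` is, up to `η`, the condition `F ≤ 0` -/
structure Sqz (A : Prop) (F η : ℝ) : Prop where
  up : F ≤ -η → A
  dn : A → F ≤ η

section Sqz

variable {A B : Prop} {F G η : ℝ}

lemma Sqz.and (h : Sqz A F η) (h' : Sqz B G η) : Sqz (A ∧ B) (max F G) η :=
  ⟨fun hm => ⟨h.up ((le_max_left _ _).trans hm), h'.up ((le_max_right _ _).trans hm)⟩, fun hm => max_le (h.dn hm.1) (h'.dn hm.2)⟩

lemma Sqz.mono (h : Sqz A F η) {η' : ℝ} (hη : η ≤ η') : Sqz A F η' :=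
  ⟨fun hm => h.up (hm.trans (by linarith)), fun hm => (h.dn hm).trans hη⟩

lemma Sqz.iff (h : Sqz A F η) (e : B ↔ A) : Sqz B F η := ⟨fun hm => e.2 (h.up hm), fun hm => h.dn (e.1 hm)⟩

lemma Sqz.of_iff (h : A ↔ F ≤ 0) (hη : 0 ≤ η) : Sqz A F η :=
  ⟨fun hm => h.2 (hm.trans (by linarith)), fun hm => (h.1 hm).trans hη⟩

lemma Sqz.of_true (h : A) (hF : F ≤ η) : Sqz A F η := ⟨fun _ => h, fun _ => hF⟩

end Sqz

/-- maximum of a Lipschitz function over the vertices and over the curve -/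
lemma sq_stS {f : ℂ → ℝ} {K : ℝ≥0} (hf : LipschitzWith K f) {p : W3} {n : ℕ} {S a η : ℝ} (hS : 0 < S) (hη : K / S ≤ η) :
    Sqz (∀ k : ℕ, k ≤ n → f (ps p k / S) ≤ a) (stS f (crv p n S) - a) η := by
  have h0 : 0 ≤ (K : ℝ) / S := div_nonneg K.2 hS.le
  refine ⟨fun h k hk => of_stS_le hf.continuous (by linarith) hk, fun h => ?_⟩
  have := stS_le_of hf hS h
  linarith

/-- no return -/
lemma sq_stN {f g : ℂ → ℝ} {K : ℝ≥0} (hf : LipschitzWith K f) (hg : LipschitzWith K g) {p : W3} {n : ℕ} {S a η : ℝ} (hS : 0 < S)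
    (hη : K / S < η) : Sqz (∃ ke : ℕ, ke ≤ n ∧ (∀ k : ℕ, k ≤ ke → f (ps p k / S) ≤ a) ∧
      ∀ k : ℕ, ke ≤ k → k ≤ n → g (ps p k / S) ≤ a) (stN f g (crv p n S) - a) η := by
  refine ⟨fun h => of_stN_lt hf hg hS (by linarith), fun h => ?_⟩
  have := stN_le_of hf hg hS h
  linarith

/-! ### 2. Pieces -/

/-- the piece from the vertex `i` to the vertex `j` -/
def pcw (w : W3) (i j : ℕ) : W3 := if i ≤ j then seg w i j else (seg w j i).reverse

/-- the number of letters between `i` and `j` -/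
def ndi (i j : ℕ) : ℕ := (j - i) + (i - j)

/-- `j` is between `i` and `k` -/
def Btw (i j k : ℕ) : Prop := (i ≤ j ∧ j ≤ k) ∨ (k ≤ j ∧ j ≤ i)

lemma pcw_of_le {w : W3} {i j : ℕ} (h : i ≤ j) : pcw w i j = seg w i j := if_pos h

lemma pcw_of_ge {w : W3} {i j : ℕ} (h : j ≤ i) : pcw w i j = (seg w j i).reverse := by
  rcases Nat.eq_or_lt_of_le h with rfl | h
  · rw [pcw_of_le le_rfl]
    unfold seg
    simp
  · exact if_neg (by omega)

lemma ndi_of_le {i j : ℕ} (h : i ≤ j) : ndi i j = j - i := by unfold ndi; omega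

lemma ndi_of_ge {i j : ℕ} (h : j ≤ i) : ndi i j = i - j := by unfold ndi; omega

lemma ndi_comm (i j : ℕ) : ndi i j = ndi j i := by unfold ndi; omega

lemma pcw_reverse (w : W3) (i j : ℕ) : (pcw w i j).reverse = pcw w j i := by
  rcases le_total i j with h | h
  · rw [pcw_of_le h, pcw_of_ge h]
  · rw [pcw_of_ge h, pcw_of_le h, List.reverse_reverse]

lemma length_pcw {w : W3} {i j n : ℕ} (hi : i ≤ n) (hj : j ≤ n) (hn : n ≤ w.length) : (pcw w i j).length = ndi i j := by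
  rcases le_total i j with h | h
  · rw [pcw_of_le h, ndi_of_le h, length_seg (by omega)]
  · rw [pcw_of_ge h, ndi_of_ge h, List.length_reverse, length_seg (by omega)]

/-- **the curve of a piece** -/
theorem crv_pcw {w : W3} {i j n : ℕ} (ei : Even i) (ej : Even j) (hi : i ≤ n) (hj : j ≤ n) (hn : n ≤ w.length) (d : ℝ) :
    crv (pcw w i j) (ndi i j) d = cutc (crv w n d) (fr i n) (fr j n) := by
  rcases le_total i j with h | h
  · rw [pcw_of_le h, ndi_of_le h, crv_seg ei h hj hn]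
  · rw [pcw_of_ge h, ndi_of_ge h, crv_seg_reverse ej ei h hi hn]

lemma sg_take {w : W3} {i j k : ℕ} (h1 : i ≤ j) (h2 : j ≤ k) : (seg w i k).take (j - i) = seg w i j := by
  unfold seg
  rw [List.take_take]
  congr 1
  omega

lemma sg_drop {w : W3} {i j k : ℕ} (h1 : i ≤ j) (h2 : j ≤ k) : (seg w i k).drop (j - i) = seg w j k := by
  unfold seg
  rw [List.drop_take, List.drop_drop]
  congr 1
  · omega
  · congr 1
    omega

lemma pcw_take {w : W3} {i j k n : ℕ} (h : Btw i j k) (hi : i ≤ n) (hn : n ≤ w.length) :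
    (pcw w i k).take (ndi i j) = pcw w i j := by
  rcases h with ⟨h1, h2⟩ | ⟨h1, h2⟩
  · rw [pcw_of_le (h1.trans h2), pcw_of_le h1, ndi_of_le h1, sg_take h1 h2]
  · rw [pcw_of_ge (h1.trans h2), pcw_of_ge h2, ndi_of_ge h2, List.take_reverse, length_seg (by omega)]
    congr 1
    have e : i - k - (i - j) = j - k := by omega
    rw [e, sg_drop h1 h2]

lemma pcw_drop {w : W3} {i j k n : ℕ} (h : Btw i j k) (hi : i ≤ n) (hn : n ≤ w.length) :
    (pcw w i k).drop (ndi i j) = pcw w j k := by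
  rcases h with ⟨h1, h2⟩ | ⟨h1, h2⟩
  · rw [pcw_of_le (h1.trans h2), pcw_of_le h2, ndi_of_le h1, sg_drop h1 h2]
  · rw [pcw_of_ge (h1.trans h2), pcw_of_ge h1, ndi_of_ge h2, List.drop_reverse, length_seg (by omega)]
    congr 1
    have e : i - k - (i - j) = j - k := by omega
    rw [e, sg_take h1 h2]

/-- duration -/
lemma dur_eq {i j n : ℕ} (hi : i ≤ n) (hj : j ≤ n) {T : ℝ} :
    |((fr j n : I) : ℝ) - (fr i n : I)| * (n / T) = (ndi i j : ℝ) / T := by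
  rcases Nat.eq_zero_or_pos n with rfl | hn
  · obtain rfl : i = 0 := by omega
    obtain rfl : j = 0 := by omega
    simp [ndi]
  have hn0 : (0 : ℝ) < n := by exact_mod_cast hn
  have e : |((fr j n : I) : ℝ) - (fr i n : I)| * n = ndi i j := by
    have e1 : |((fr j n : I) : ℝ) - (fr i n : I)| * n = |((fr j n : I) : ℝ) * n - (fr i n : I) * n| := by
      rw [← sub_mul, abs_mul, abs_of_pos hn0]
    rw [e1, fr_mul hj hn, fr_mul hi hn]
    rcases le_total i j with h | h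
    · have h2 : (i : ℝ) ≤ j := by exact_mod_cast h
      rw [ndi_of_le h, abs_of_nonneg (by linarith), Nat.cast_sub h]
    · have h2 : (j : ℝ) ≤ i := by exact_mod_cast h
      rw [ndi_of_ge h, abs_of_nonpos (by linarith), Nat.cast_sub h]
      ring
  rw [← mul_div_assoc, e]

/-! ### 3. The statistics -/

/-- upper bound of a number of letters -/
def duU (la : ℝ) (L : ℝ) (a b : I) : ℝ := |(b : ℝ) - a| * L - la

/-- lower bound of a number of letters (no condition for `t0 ≤ 0`) -/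
noncomputable def duL (t0 : ℝ) (L : ℝ) (a b : I) : ℝ := if t0 ≤ 0 then -1 else t0 - |(b : ℝ) - a| * L

/-- prefixes; `g` = curve, `L` = duration of the curve, `a`, `b`, `c` = times of the tip, of the gates `c` and `x` -/
noncomputable def preF (d : ℂ) (P : Tp) (g : C(I, ℂ)) (L : ℝ) (a b c : I) : ℝ :=
  max (max (fCo d P.cs (cutc g a b 1) + P.e) (stS (fCo d P.c) (cutc g b c) - P.κ1)) (max (duU P.la L a b) (duU P.lb L b c))

/-- wedge condition of the piece from `a` to `b`; `d` = direction of the other strand, `w` = its datum -/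
noncomputable def wdF (d d' : ℂ) (w cs κs : ℝ) (g : C(I, ℂ)) (a b : I) : ℝ := stS (fWe d d' w cs κs) (cutc g a b)

/-- pairs -/
noncomputable def paiF (d d' : ℂ) (P P' : Tp) (g : C(I, ℂ)) (L : ℝ) (a b c a' b' c' : I) : ℝ :=
  max (max (preF d P g L a b c) (preF d' P' g L a' b' c'))
    (max (wdF d d' P.w P'.cs P'.κs g a' b') (wdF d' d P'.w P.cs P.κs g a b))

/-- rests from the time `a` to the time `b` -/
noncomputable def rsF (d d' : ℂ) (P Q : Tp) (W : Wn) (g : C(I, ℂ)) (L : ℝ) (a b : I) : ℝ :=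
  max (max (max (stS (fRa d P.c P.r0) (cutc g a b) - P.κ) (stS (fRa d' Q.c Q.r0) (cutc g b a) - Q.κ))
    (max (W.D0 - ‖cutc g a b 1‖) (‖cutc g a b 1‖ - W.D1))) (max (duL W.t0 L a b) (duU W.t1 L a b))

/-- strip and no return -/
noncomputable def nrF (d : ℂ) (s : Sr) (g : C(I, ℂ)) (a b : I) : ℝ := stN (fSt d s.e s.len s.hw) (fBn s.bn) (cutc g a b)

/-- main arcs -/
noncomputable def mnF (d d' : ℂ) (P Q : Tp) (W : Wn) (s s' : Sr) (g : C(I, ℂ)) (L : ℝ) (a b : I) : ℝ :=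
  max (rsF d d' P Q W g L a b) (max (nrF d s g a b) (nrF d' s' g b a))

/-- pieces `k`, times of `x`, `c~`, `x~` -/
noncomputable def kcF (d t : ℂ) (E : En) (g : C(I, ℂ)) (L : ℝ) (a b c : I) : ℝ :=
  max (max (max (stS (fun v => ‖v‖) (cutc g a b) - E.rk) (stS (fun v => ‖v‖) (cutc g b c) - E.f.r2))
    (max (stS (fCo d E.n.c) (cutc g a c) - E.κk) (stS (fCo t E.f.c) (cutc g b c) - E.f.κ1)))
    (max (max (fCo d E.n.c (cutc g a c 1) + E.ek) (‖cutc g a c 1 - (E.kc : ℂ) * d‖ - E.kr)) (duU E.lk L a c))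

/-- outer blocks -/
noncomputable def otF (d : ℂ) (O : Ot) (g : C(I, ℂ)) (L : ℝ) (a b : I) : ℝ :=
  max (max (stS (fun v => |ltl d v|) (cutc g a b) - O.hw) (stS (fCo d O.c) (cutc g a b) - O.κ))
    (max (fCo d O.c (cutc g a b 1) + O.e) (duU O.lb L a b))

/-! ### 4. Continuity -/

section cont

variable {Z : Type*} [TopologicalSpace Z] {g : Z → C(I, ℂ)} {L : Z → ℝ} {a b c a' b' c' : Z → I} {d d' : ℂ}

lemma Continuous.cutc' (hg : Continuous g) (ha : Continuous a) (hb : Continuous b) :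
    Continuous fun z => cutc (g z) (a z) (b z) := cutc_continuous.comp (hg.prodMk (ha.prodMk hb))

lemma Continuous.stS' {f : ℂ → ℝ} {K : ℝ≥0} (hf : LipschitzWith K f) (hg : Continuous g) : Continuous fun z => stS f (g z) :=
  (stS_lip hf).continuous.comp hg

lemma Continuous.stN' {f f' : ℂ → ℝ} {K : ℝ≥0} (hf : LipschitzWith K f) (hf' : LipschitzWith K f') (hg : Continuous g) :
    Continuous fun z => stN f f' (g z) := (stN_lip hf hf').continuous.comp hg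

lemma Continuous.cutc1 (hg : Continuous g) (ha : Continuous a) (hb : Continuous b) :
    Continuous fun z => cutc (g z) (a z) (b z) 1 :=
  (continuous_eval_const (1 : I)).comp (Continuous.cutc' hg ha hb)

lemma Continuous.duU (la : ℝ) (hL : Continuous L) (ha : Continuous a) (hb : Continuous b) :
    Continuous fun z => duU la (L z) (a z) (b z) := by
  unfold F3.duU
  fun_prop

lemma Continuous.duL (t0 : ℝ) (hL : Continuous L) (ha : Continuous a) (hb : Continuous b) :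
    Continuous fun z => duL t0 (L z) (a z) (b z) := by
  unfold F3.duL
  by_cases h : t0 ≤ 0
  · simp only [if_pos h]
    fun_prop
  · simp only [if_neg h]
    fun_prop

/-- the inequalities for the cosines -/
structure Tp.Co (P : Tp) : Prop where
  c0 : 0 ≤ P.c
  c1 : P.c ≤ 1
  s0 : 0 ≤ P.cs
  s1 : P.cs ≤ 1

lemma Tp.Ok.co {P : Tp} (h : P.Ok) : P.Co := by
  have h1 := h.cs
  have h2 := h.c
  have h3 := h.c1
  exact ⟨by linarith, by linarith, by linarith, by linarith⟩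

lemma Tp.Co.up {P : Tp} (h : P.Co) (y : ℝ) : (P.up y).Co := ⟨h.c0, h.c1, h.s0, h.s1⟩

lemma Continuous.preF {P : Tp} (hP : P.Co) (hd : ‖d‖ = 1) (hg : Continuous g) (hL : Continuous L) (ha : Continuous a)
    (hb : Continuous b) (hc : Continuous c) : Continuous fun z => preF d P (g z) (L z) (a z) (b z) (c z) := by
  unfold F3.preF
  exact ((((fCo_lip hd hP.s0 hP.s1).continuous.comp (Continuous.cutc1 hg ha hb)).add continuous_const).max
    ((Continuous.stS' (fCo_lip hd hP.c0 hP.c1) (Continuous.cutc' hg hb hc)).sub continuous_const)).max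
    ((Continuous.duU _ hL ha hb).max (Continuous.duU _ hL hb hc))

lemma Continuous.wdF {w cs κs : ℝ} (h0 : 0 ≤ cs) (h1 : cs ≤ 1) (hd : ‖d‖ = 1) (hd' : ‖d'‖ = 1) (hg : Continuous g)
    (ha : Continuous a) (hb : Continuous b) : Continuous fun z => wdF d d' w cs κs (g z) (a z) (b z) :=
  Continuous.stS' (fWe_lip hd hd' h0 h1) (Continuous.cutc' hg ha hb)

lemma Continuous.paiF {P P' : Tp} (hP : P.Co) (hP' : P'.Co) (hd : ‖d‖ = 1) (hd' : ‖d'‖ = 1) (hg : Continuous g)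
    (hL : Continuous L) (ha : Continuous a) (hb : Continuous b) (hc : Continuous c) (ha' : Continuous a') (hb' : Continuous b')
    (hc' : Continuous c') : Continuous fun z => paiF d d' P P' (g z) (L z) (a z) (b z) (c z) (a' z) (b' z) (c' z) :=
  ((Continuous.preF hP hd hg hL ha hb hc).max (Continuous.preF hP' hd' hg hL ha' hb' hc')).max
    ((Continuous.wdF hP'.s0 hP'.s1 hd hd' hg ha' hb').max (Continuous.wdF hP.s0 hP.s1 hd' hd hg ha hb))

lemma Continuous.rsF {P Q : Tp} (hP : P.Co) (hQ : Q.Co) (W : Wn) (hd : ‖d‖ = 1) (hd' : ‖d'‖ = 1) (hg : Continuous g)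
    (hL : Continuous L) (ha : Continuous a) (hb : Continuous b) : Continuous fun z => rsF d d' P Q W (g z) (L z) (a z) (b z) := by
  unfold F3.rsF
  have h1 := (Continuous.cutc1 hg ha hb).norm
  exact ((((Continuous.stS' (fRa_lip hd hP.c0 hP.c1) (Continuous.cutc' hg ha hb)).sub continuous_const).max
    ((Continuous.stS' (fRa_lip hd' hQ.c0 hQ.c1) (Continuous.cutc' hg hb ha)).sub continuous_const)).max
    ((continuous_const.sub h1).max (h1.sub continuous_const))).max ((Continuous.duL _ hL ha hb).max (Continuous.duU _ hL ha hb))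

lemma Continuous.nrF (s : Sr) (hd : ‖d‖ = 1) (hg : Continuous g) (ha : Continuous a) (hb : Continuous b) :
    Continuous fun z => nrF d s (g z) (a z) (b z) := Continuous.stN' (fSt_lip hd) fBn_lip (Continuous.cutc' hg ha hb)

lemma Continuous.mnF {P Q : Tp} (hP : P.Co) (hQ : Q.Co) (W : Wn) (s s' : Sr) (hd : ‖d‖ = 1) (hd' : ‖d'‖ = 1) (hg : Continuous g)
    (hL : Continuous L) (ha : Continuous a) (hb : Continuous b) :
    Continuous fun z => mnF d d' P Q W s s' (g z) (L z) (a z) (b z) :=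
  (Continuous.rsF hP hQ W hd hd' hg hL ha hb).max ((Continuous.nrF s hd hg ha hb).max (Continuous.nrF s' hd' hg hb ha))

lemma Continuous.kcF {E : En} (hn : E.n.Co) (hf : E.f.Co) (hd : ‖d‖ = 1) (hd' : ‖d'‖ = 1) (hg : Continuous g)
    (hL : Continuous L) (ha : Continuous a) (hb : Continuous b) (hc : Continuous c) :
    Continuous fun z => kcF d d' E (g z) (L z) (a z) (b z) (c z) := by
  unfold F3.kcF
  exact ((((Continuous.stS' lip_norm (Continuous.cutc' hg ha hb)).sub continuous_const).max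
    ((Continuous.stS' lip_norm (Continuous.cutc' hg hb hc)).sub continuous_const)).max
    (((Continuous.stS' (fCo_lip hd hn.c0 hn.c1) (Continuous.cutc' hg ha hc)).sub continuous_const).max
      ((Continuous.stS' (fCo_lip hd' hf.c0 hf.c1) (Continuous.cutc' hg hb hc)).sub continuous_const))).max
    (((((fCo_lip hd hn.c0 hn.c1).continuous.comp (Continuous.cutc1 hg ha hc)).add continuous_const).max
      (((Continuous.cutc1 hg ha hc).sub continuous_const).norm.sub continuous_const)).max (Continuous.duU _ hL ha hc))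

lemma ltlA_lip (hd : ‖d‖ = 1) : LipschitzWith 1 (fun v : ℂ => |ltl d v|) := LipschitzWith.of_dist_le_mul fun x y => by
  have := (ltl_lip hd).dist_le_mul x y
  rw [Real.dist_eq] at this ⊢
  exact (abs_abs_sub_abs_le _ _).trans this

lemma Continuous.otF {O : Ot} (h0 : 0 ≤ O.c) (h1 : O.c ≤ 1) (hd : ‖d‖ = 1) (hg : Continuous g)
    (hL : Continuous L) (ha : Continuous a) (hb : Continuous b) : Continuous fun z => otF d O (g z) (L z) (a z) (b z) := by
  unfold F3.otF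
  exact (((Continuous.stS' (ltlA_lip hd) (Continuous.cutc' hg ha hb)).sub continuous_const).max
    ((Continuous.stS' (fCo_lip hd h0 h1) (Continuous.cutc' hg ha hb)).sub continuous_const)).max
    ((((fCo_lip hd h0 h1).continuous.comp (Continuous.cutc1 hg ha hb)).add continuous_const).max (Continuous.duU _ hL ha hb))

end cont

/-! ### 5. The soft parts of the classes -/

/-- soft part of `PreM` -/
structure PreS (d : ℂ) (P : Tp) (S T : ℝ) (p : W3) (k : ℕ) : Prop where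
  e : EndQ d P.cs (P.e * S) (p.take k)
  s : ConeQ d P.c (P.κ1 * S) (p.drop k)
  la : (k : ℝ) ≤ P.la * T
  lb : ((p.drop k).length : ℝ) ≤ P.lb * T

/-- gate part of `PreM` -/
structure PreG (d : ℂ) (P : Tp) (S : ℝ) (p : W3) (k : ℕ) : Prop where
  g : DblC d (P.r * S) (P.l * S) (P.r2 * S) (P.m * S) p k
  th : ThC d (P.th * P.m * S) (p.drop k)

lemma preM_iff {d : ℂ} {P : Tp} {S T : ℝ} {p : W3} {k : ℕ} : PreM d P S T p k ↔ PreG d P S p k ∧ PreS d P S T p k :=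
  ⟨fun h => ⟨⟨h.g, h.th⟩, ⟨h.e, h.s, h.la, h.lb⟩⟩, fun h => ⟨h.1.g, h.1.th, h.2.e, h.2.s, h.2.la, h.2.lb⟩⟩

/-- soft part of `PaiM` -/
structure PaiS (d d' : ℂ) (P P' : Tp) (S T : ℝ) (a : W3 × W3) (k1 k2 : ℕ) : Prop where
  p1 : PreS d P S T a.1 k1
  p2 : PreS d' P' S T a.2 k2
  w2 : ∀ k : ℕ, k ≤ k2 → lv d (ps a.2 k) ≤ P.w * S ∨ Kn d' P'.cs (P'.κs * S) (ps a.2 k)
  w1 : ∀ k : ℕ, k ≤ k1 → lv d' (ps a.1 k) ≤ P'.w * S ∨ Kn d P.cs (P.κs * S) (ps a.1 k)

/-- gate part of `PaiM` -/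
structure PaiG (d d' : ℂ) (P P' : Tp) (S : ℝ) (a : W3 × W3) (k1 k2 : ℕ) : Prop where
  p1 : PreG d P S a.1 k1
  p2 : PreG d' P' S a.2 k2
  dj : ∀ j k : ℕ, j ≤ k1 → k ≤ k2 → ps a.1 j = ps a.2 k → j = 0 ∧ k = 0

lemma paiM_iff {d d' : ℂ} {P P' : Tp} {S T : ℝ} {a : W3 × W3} {k1 k2 : ℕ} :
    PaiM d d' P P' S T a k1 k2 ↔ PaiG d d' P P' S a k1 k2 ∧ PaiS d d' P P' S T a k1 k2 :=
  ⟨fun h => ⟨⟨(preM_iff.1 h.p1).1, (preM_iff.1 h.p2).1, h.dj⟩, ⟨(preM_iff.1 h.p1).2, (preM_iff.1 h.p2).2, h.w2, h.w1⟩⟩,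
    fun h => ⟨preM_iff.2 ⟨h.1.p1, h.2.p1⟩, preM_iff.2 ⟨h.1.p2, h.2.p2⟩, h.2.w2, h.2.w1, h.1.dj⟩⟩

/-- soft part of `RsQ` -/
structure RsS (d d' : ℂ) (P Q : Tp) (W : Wn) (S T : ℝ) (R : W3) : Prop where
  s : ConeR d P.c (P.r0 * S) (P.κ * S) R
  e : ConeR d' Q.c (Q.r0 * S) (Q.κ * S) R.reverse
  far : W.D0 * S ≤ ‖en R‖
  near : ‖en R‖ ≤ W.D1 * S
  lo : W.t0 * T ≤ (R.length : ℝ)
  hi : (R.length : ℝ) ≤ W.t1 * T

/-- gate part of `RsQ` -/
structure RsG (d d' : ℂ) (P Q : Tp) (S : ℝ) (R : W3) : Prop where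
  ev : Even R.length
  sw : SW R
  s : RestC d (P.rg * S) R
  e : RestC d' (Q.rg * S) R.reverse

lemma rsQ_iff {d d' : ℂ} {P Q : Tp} {W : Wn} {S T : ℝ} {R : W3} :
    RsQ d d' P Q W S T R ↔ RsG d d' P Q S R ∧ RsS d d' P Q W S T R :=
  ⟨fun h => ⟨⟨h.ev, h.sw, h.s.right, h.e.right⟩, ⟨h.s.cone, h.e.cone, h.far, h.near, h.lo, h.hi⟩⟩,
    fun h => ⟨h.1.ev, h.1.sw, ⟨h.1.s, h.2.s⟩, ⟨h.1.e, h.2.e⟩, h.2.far, h.2.near, h.2.lo, h.2.hi⟩⟩

/-- soft part of `MnQ` -/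
structure MnS (d d' : ℂ) (P Q : Tp) (W : Wn) (s s' : Sr) (S T : ℝ) (R : W3) : Prop where
  q : RsS d d' P Q W S T R
  np : NRt d s S R
  nq : NRt d' s' S R.reverse

lemma mnQ_iff {d d' : ℂ} {P Q : Tp} {W : Wn} {s s' : Sr} {S T : ℝ} {R : W3} :
    MnQ d d' P Q W s s' S T R ↔ RsG d d' P Q S R ∧ MnS d d' P Q W s s' S T R :=
  ⟨fun h => ⟨(rsQ_iff.1 h.q).1, ⟨(rsQ_iff.1 h.q).2, h.np, h.nq⟩⟩, fun h => ⟨rsQ_iff.2 ⟨h.1, h.2.q⟩, h.2.np, h.2.nq⟩⟩

/-- soft part of `KcM` -/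
structure KcS (d t : ℂ) (E : En) (S T : ℝ) (k : W3) (j : ℕ) : Prop where
  b1 : ∀ i : ℕ, i ≤ j → ‖ps k i‖ ≤ E.rk * S
  b2 : ∀ i : ℕ, j ≤ i → i ≤ k.length → ‖ps k i - ps k j‖ ≤ E.f.r2 * S
  s : ConeQ d E.n.c (E.κk * S) k
  s2 : ∀ i : ℕ, j ≤ i → i ≤ k.length → Kn t E.f.c (E.f.κ1 * S) (ps k i - ps k j)
  e : E.n.c * ‖en k‖ + E.ek * S ≤ lv d (en k)
  cell : ‖en k - ((E.kc * S : ℝ) : ℂ) * d‖ ≤ E.kr * S
  lk : (k.length : ℝ) ≤ E.lk * T

lemma kcM_iff {d t : ℂ} {E : En} {S T : ℝ} {k : W3} {j : ℕ} :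
    KcM d t E S T k j ↔ (j ≤ k.length ∧ ∀ i : ℕ, 0 < i → i ≤ k.length → 0 < lv d (ps k i)) ∧ KcS d t E S T k j :=
  ⟨fun h => ⟨⟨h.le, h.right⟩, ⟨h.b1, h.b2, h.s, h.s2, h.e, h.cell, h.lk⟩⟩,
    fun h => { le := h.1.1, b1 := h.2.b1, b2 := h.2.b2, s := h.2.s, s2 := h.2.s2, e := h.2.e, cell := h.2.cell, right := h.1.2,
               lk := h.2.lk }⟩

/-- soft part of `OtM` -/
structure OtS (d : ℂ) (O : Ot) (S T : ℝ) (b : W3) : Prop where
  hw : ∀ k : ℕ, k ≤ b.length → |ltl d (ps b k)| ≤ O.hw * S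
  s : ConeQ d O.c (O.κ * S) b
  e : EndQ d O.c (O.e * S) b
  lb : (b.length : ℝ) ≤ O.lb * T

lemma otM_iff {d : ℂ} {O : Ot} {S T : ℝ} {b : W3} :
    OtM d O S T b ↔ (BlkC d (O.r * S) b ∧ FstC d (O.m * S) b) ∧ OtS d O S T b :=
  ⟨fun h => ⟨⟨h.k, h.f⟩, ⟨h.hw, h.s, h.e, h.lb⟩⟩, fun h => ⟨h.1.1, h.1.2, h.2.hw, h.2.s, h.2.e, h.2.lb⟩⟩

/-! ### 6. Words and statistics -/

section words

variable {w : W3} {n : ℕ} {S T : ℝ} {d d' : ℂ}

lemma en_pcw {i j : ℕ} (ei : Even i) (ej : Even j) (hi : i ≤ n) (hj : j ≤ n) (hn : n ≤ w.length) :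
    cutc (crv w n S) (fr i n) (fr j n) 1 = en (pcw w i j) / S := by
  rw [← crv_pcw ei ej hi hj hn]
  have hl := length_pcw (w := w) hi hj hn
  unfold en
  rw [hl]
  rcases Nat.eq_zero_or_pos (ndi i j) with h | h
  · rw [h, crv_nil_steps, ps_zero, zero_div]
    rfl
  · have := crv_fr (pcw w i j) (le_refl (ndi i j)) S
    rwa [fr_self h] at this

lemma sq_duU {i j : ℕ} (hi : i ≤ n) (hj : j ≤ n) {la η : ℝ} (hT : 0 < T) (hη : 0 ≤ η) :
    Sqz ((ndi i j : ℝ) ≤ la * T) (duU la (n / T) (fr i n) (fr j n)) η := by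
  refine Sqz.of_iff ?_ hη
  unfold duU
  rw [dur_eq hi hj, sub_nonpos, div_le_iff₀ hT]

lemma sq_duL {i j : ℕ} (hi : i ≤ n) (hj : j ≤ n) {t0 η : ℝ} (hT : 0 < T) (hη : 0 ≤ η) :
    Sqz (t0 * T ≤ (ndi i j : ℝ)) (duL t0 (n / T) (fr i n) (fr j n)) η := by
  unfold duL
  by_cases h : t0 ≤ 0
  · rw [if_pos h]
    refine Sqz.of_true ?_ (by linarith)
    have h1 : t0 * T ≤ 0 := mul_nonpos_of_nonpos_of_nonneg h hT.le
    exact h1.trans (Nat.cast_nonneg _)
  · rw [if_neg h]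
    refine Sqz.of_iff ?_ hη
    rw [dur_eq hi hj, sub_nonpos, le_div_iff₀ hT]

/-- a condition on all vertices of a piece -/
lemma sq_pcw {f : ℂ → ℝ} {K : ℝ≥0} (hf : LipschitzWith K f) {i j : ℕ} (ei : Even i) (ej : Even j) (hi : i ≤ n) (hj : j ≤ n)
    (hn : n ≤ w.length) {a η : ℝ} (hS : 0 < S) (hη : K / S ≤ η) :
    Sqz (∀ k : ℕ, k ≤ (pcw w i j).length → f (ps (pcw w i j) k / S) ≤ a) (stS f (cutc (crv w n S) (fr i n) (fr j n)) - a) η := by
  rw [← crv_pcw ei ej hi hj hn, length_pcw hi hj hn]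
  exact sq_stS hf hS hη

/-- **prefixes** -/
theorem preS_sq {P : Tp} (hP : P.Co) (hd : ‖d‖ = 1) {i j k : ℕ} (h : Btw i j k) (ei : Even i) (ej : Even j) (ek : Even k)
    (hi : i ≤ n) (hk : k ≤ n) (hn : n ≤ w.length) {η : ℝ} (hS : 0 < S) (hT : 0 < T) (hη : 3 / S ≤ η) :
    Sqz (PreS d P S T (pcw w i k) (ndi i j)) (preF d P (crv w n S) (n / T) (fr i n) (fr j n) (fr k n)) η := by
  have hj : j ≤ n := by rcases h with h | h <;> omega
  have hη0 : 0 ≤ η := le_trans (by positivity) hη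
  have h2 : 2 / S ≤ η := (div_le_div_of_nonneg_right (by norm_num) hS.le).trans hη
  have e1 : Sqz (EndQ d P.cs (P.e * S) (pcw w i j)) (fCo d P.cs (cutc (crv w n S) (fr i n) (fr j n) 1) + P.e) η := by
    refine Sqz.of_iff ?_ hη0
    rw [endQ_iff hS, en_pcw ei ej hi hj hn]
    constructor <;> intro h <;> linarith
  have e2 : Sqz (ConeQ d P.c (P.κ1 * S) (pcw w j k)) (stS (fCo d P.c) (cutc (crv w n S) (fr j n) (fr k n)) - P.κ1) η :=
    (sq_pcw (fCo_lip hd hP.c0 hP.c1) ej ek hj hk hn hS h2).iff (coneQ_iff hS)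
  have e3 := sq_duU (T := T) hi hj (la := P.la) hT hη0
  have e4 := sq_duU (T := T) hj hk (la := P.lb) hT hη0
  refine ((e1.and e2).and (e3.and e4)).iff ?_
  have t1 := pcw_take (w := w) h hi hn
  have t2 := pcw_drop (w := w) h hi hn
  have t3 := length_pcw (w := w) hj hk hn
  constructor
  · rintro ⟨a1, a2, a3, a4⟩
    rw [t1] at a1
    rw [t2] at a2 a4
    rw [t3] at a4
    exact ⟨⟨a1, a2⟩, a3, a4⟩
  · rintro ⟨⟨a1, a2⟩, a3, a4⟩
    refine ⟨?_, ?_, a3, ?_⟩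
    · rw [t1]
      exact a1
    · rw [t2]
      exact a2
    · rw [t2, t3]
      exact a4

lemma ps_pcw_take {i j k : ℕ} (h : Btw i j k) (hi : i ≤ n) (hk : k ≤ n) (hn : n ≤ w.length) {m : ℕ} (hm : m ≤ ndi i j) :
    ps (pcw w i k) m = ps (pcw w i j) m := by
  rw [← pcw_take h hi hn, ps_take _ hm]
  rw [length_pcw hi hk hn]
  unfold ndi
  rcases h with h | h <;> omega

/-- wedge -/
lemma wd_sq {i j k : ℕ} (h : Btw i j k) (ei : Even i) (ej : Even j) (hi : i ≤ n) (hk : k ≤ n) (hn : n ≤ w.length)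
    (hd : ‖d‖ = 1) (hd' : ‖d'‖ = 1) {lw cs κs η : ℝ} (h0 : 0 ≤ cs) (h1 : cs ≤ 1) (hS : 0 < S) (hη : 2 / S ≤ η) :
    Sqz (∀ m : ℕ, m ≤ ndi i j → lv d (ps (pcw w i k) m) ≤ lw * S ∨ Kn d' cs (κs * S) (ps (pcw w i k) m))
      (wdF d d' lw cs κs (crv w n S) (fr i n) (fr j n)) η := by
  have hj : j ≤ n := by rcases h with h | h <;> omega
  have e := sq_pcw (w := w) (a := 0) (fWe_lip (w := lw) (κs := κs) hd hd' h0 h1) ei ej hi hj hn hS hη
  rw [sub_zero] at e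
  refine e.iff ?_
  rw [length_pcw hi hj hn]
  refine forall₂_congr fun m hm => ?_
  rw [ps_pcw_take h hi hk hn hm, wedge_iff hS]

/-- **pairs**: the two strands from the vertices `i`, `i'` -/
theorem paiS_sq {P P' : Tp} (hP : P.Co) (hP' : P'.Co) (hd : ‖d‖ = 1) (hd' : ‖d'‖ = 1) {i j k i' j' k' : ℕ} (h : Btw i j k)
    (h' : Btw i' j' k') (ei : Even i) (ej : Even j) (ek : Even k) (ei' : Even i') (ej' : Even j') (ek' : Even k')
    (hi : i ≤ n) (hk : k ≤ n) (hi' : i' ≤ n) (hk' : k' ≤ n) (hn : n ≤ w.length) {η : ℝ} (hS : 0 < S) (hT : 0 < T)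
    (hη : 3 / S ≤ η) : Sqz (PaiS d d' P P' S T (pcw w i k, pcw w i' k') (ndi i j) (ndi i' j'))
      (paiF d d' P P' (crv w n S) (n / T) (fr i n) (fr j n) (fr k n) (fr i' n) (fr j' n) (fr k' n)) η := by
  have h2 : 2 / S ≤ η := (div_le_div_of_nonneg_right (by norm_num) hS.le).trans hη
  have e1 := preS_sq (T := T) hP hd h ei ej ek hi hk hn hS hT hη
  have e2 := preS_sq (T := T) hP' hd' h' ei' ej' ek' hi' hk' hn hS hT hη
  have e3 := wd_sq (lw := P.w) (κs := P'.κs) h' ei' ej' hi' hk' hn hd hd' hP'.s0 hP'.s1 hS h2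
  have e4 := wd_sq (lw := P'.w) (κs := P.κs) h ei ej hi hk hn hd' hd hP.s0 hP.s1 hS h2
  exact ((e1.and e2).and (e3.and e4)).iff ⟨fun a => ⟨⟨a.p1, a.p2⟩, a.w2, a.w1⟩, fun a => ⟨a.1.1, a.1.2, a.2.1, a.2.2⟩⟩

/-- **rests** -/
theorem rsS_sq {P Q : Tp} (hP : P.Co) (hQ : Q.Co) (W : Wn) (hd : ‖d‖ = 1) (hd' : ‖d'‖ = 1) {i j : ℕ} (ei : Even i) (ej : Even j)
    (hi : i ≤ n) (hj : j ≤ n) (hn : n ≤ w.length) {η : ℝ} (hS : 0 < S) (hT : 0 < T) (hη : 3 / S ≤ η) :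
    Sqz (RsS d d' P Q W S T (pcw w i j)) (rsF d d' P Q W (crv w n S) (n / T) (fr i n) (fr j n)) η := by
  have hη0 : 0 ≤ η := le_trans (by positivity) hη
  have h2 : 2 / S ≤ η := (div_le_div_of_nonneg_right (by norm_num) hS.le).trans hη
  have e1 : Sqz (ConeR d P.c (P.r0 * S) (P.κ * S) (pcw w i j))
      (stS (fRa d P.c P.r0) (cutc (crv w n S) (fr i n) (fr j n)) - P.κ) η :=
    (sq_pcw (fRa_lip hd hP.c0 hP.c1) ei ej hi hj hn hS h2).iff (coneR_iff hS)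
  have e2 : Sqz (ConeR d' Q.c (Q.r0 * S) (Q.κ * S) (pcw w j i))
      (stS (fRa d' Q.c Q.r0) (cutc (crv w n S) (fr j n) (fr i n)) - Q.κ) η :=
    (sq_pcw (fRa_lip hd' hQ.c0 hQ.c1) ej ei hj hi hn hS h2).iff (coneR_iff hS)
  have e3 : Sqz (W.D0 * S ≤ ‖en (pcw w i j)‖) (W.D0 - ‖cutc (crv w n S) (fr i n) (fr j n) 1‖) η := by
    refine Sqz.of_iff ?_ hη0
    rw [en_pcw ei ej hi hj hn, stnorm_div _ hS, sub_nonpos, le_div_iff₀ hS]
  have e4 : Sqz (‖en (pcw w i j)‖ ≤ W.D1 * S) (‖cutc (crv w n S) (fr i n) (fr j n) 1‖ - W.D1) η := by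
    refine Sqz.of_iff ?_ hη0
    rw [en_pcw ei ej hi hj hn, stnorm_div _ hS, sub_nonpos, div_le_iff₀ hS]
  have e5 := sq_duL (T := T) hi hj (t0 := W.t0) hT hη0
  have e6 := sq_duU (T := T) hi hj (la := W.t1) hT hη0
  refine (((e1.and e2).and (e3.and e4)).and (e5.and e6)).iff ?_
  have t3 := length_pcw (w := w) hi hj hn
  constructor
  · rintro ⟨a1, a2, a3, a4, a5, a6⟩
    rw [pcw_reverse] at a2
    rw [t3] at a5 a6
    exact ⟨⟨⟨a1, a2⟩, a3, a4⟩, a5, a6⟩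
  · rintro ⟨⟨⟨a1, a2⟩, a3, a4⟩, a5, a6⟩
    refine ⟨a1, ?_, a3, a4, ?_, ?_⟩
    · rw [pcw_reverse]
      exact a2
    · rw [t3]
      exact a5
    · rw [t3]
      exact a6

/-- no return -/
lemma nr_sq (s : Sr) (hd : ‖d‖ = 1) {i j : ℕ} (ei : Even i) (ej : Even j) (hi : i ≤ n) (hj : j ≤ n) (hn : n ≤ w.length) {η : ℝ}
    (hS : 0 < S) (hη : 2 / S ≤ η) : Sqz (NRt d s S (pcw w i j)) (nrF d s (crv w n S) (fr i n) (fr j n)) η := by
  have h1 : ((1 : ℝ≥0) : ℝ) / S < η := by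
    have : ((1 : ℝ≥0) : ℝ) / S < 2 / S := by
      rw [NNReal.coe_one]
      exact div_lt_div_of_pos_right (by norm_num) hS
    exact this.trans_le hη
  have e := sq_stN (f := fSt d s.e s.len s.hw) (g := fBn s.bn) (p := pcw w i j) (n := ndi i j) (a := 0) (fSt_lip hd) fBn_lip hS h1
  rw [sub_zero, crv_pcw ei ej hi hj hn] at e
  refine e.iff ?_
  rw [nrt_iff hS, length_pcw hi hj hn]

/-- **main arcs** -/
theorem mnS_sq {P Q : Tp} (hP : P.Co) (hQ : Q.Co) (W : Wn) (s s' : Sr) (hd : ‖d‖ = 1) (hd' : ‖d'‖ = 1) {i j : ℕ} (ei : Even i)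
    (ej : Even j) (hi : i ≤ n) (hj : j ≤ n) (hn : n ≤ w.length) {η : ℝ} (hS : 0 < S) (hT : 0 < T) (hη : 3 / S ≤ η) :
    Sqz (MnS d d' P Q W s s' S T (pcw w i j)) (mnF d d' P Q W s s' (crv w n S) (n / T) (fr i n) (fr j n)) η := by
  have h2 : 2 / S ≤ η := (div_le_div_of_nonneg_right (by norm_num) hS.le).trans hη
  have e1 := rsS_sq (T := T) hP hQ W hd hd' ei ej hi hj hn hS hT hη
  have e2 := nr_sq s hd ei ej hi hj hn hS h2
  have e3 := nr_sq s' hd' ej ei hj hi hn hS h2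
  refine (e1.and (e2.and e3)).iff ⟨fun a => ⟨a.q, a.np, ?_⟩, fun a => ⟨a.1, a.2.1, ?_⟩⟩
  · have := a.nq
    rwa [pcw_reverse] at this
  · rw [pcw_reverse]
    exact a.2.2

/-- **pieces `k`** = `x` .. `c~` .. `x~` -/
theorem kcS_sq {E : En} (hE : E.n.Co) (hF : E.f.Co) (hd : ‖d‖ = 1) (hd' : ‖d'‖ = 1) {i j k : ℕ} (h : Btw i j k) (ei : Even i)
    (ej : Even j) (ek : Even k) (hi : i ≤ n) (hk : k ≤ n) (hn : n ≤ w.length) {η : ℝ} (hS : 0 < S) (hT : 0 < T)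
    (hη : 3 / S ≤ η) :
    Sqz (KcS d d' E S T (pcw w i k) (ndi i j)) (kcF d d' E (crv w n S) (n / T) (fr i n) (fr j n) (fr k n)) η := by
  have hj : j ≤ n := by rcases h with h | h <;> omega
  have hη0 : 0 ≤ η := le_trans (by positivity) hη
  have h2 : 2 / S ≤ η := (div_le_div_of_nonneg_right (by norm_num) hS.le).trans hη
  have h1 : ((1 : ℝ≥0) : ℝ) / S ≤ η := by
    refine le_trans ?_ hη
    rw [NNReal.coe_one]
    exact div_le_div_of_nonneg_right (by norm_num) hS.le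
  have l1 := length_pcw (w := w) hi hj hn
  have l2 := length_pcw (w := w) hj hk hn
  have l3 := length_pcw (w := w) hi hk hn
  have enj : Even (ndi i j) := by
    unfold ndi
    rcases h with h | h
    · rw [Nat.sub_eq_zero_of_le h.1, add_zero]
      exact ej.tsub ei
    · rw [Nat.sub_eq_zero_of_le h.2, zero_add]
      exact ei.tsub ej
  have en3 : ndi i k = ndi i j + ndi j k := by
    unfold ndi
    rcases h with h | h <;> omega
  have hdr : ∀ m : ℕ, m ≤ ndi j k → ps (pcw w i k) (ndi i j + m) - ps (pcw w i k) (ndi i j) = ps (pcw w j k) m := fun m hm => by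
    rw [← pcw_drop h hi hn, ps_append_drop _ (by rw [l3]; omega) enj m]
  have e1 : Sqz (∀ m : ℕ, m ≤ ndi i j → ‖ps (pcw w i k) m‖ ≤ E.rk * S)
      (stS (fun v => ‖v‖) (cutc (crv w n S) (fr i n) (fr j n)) - E.rk) η := by
    refine (sq_pcw lip_norm ei ej hi hj hn hS h1).iff ?_
    rw [l1]
    refine forall₂_congr fun m hm => ?_
    rw [ps_pcw_take h hi hk hn hm, ball_iff hS]
  have e2 : Sqz (∀ m : ℕ, ndi i j ≤ m → m ≤ (pcw w i k).length → ‖ps (pcw w i k) m - ps (pcw w i k) (ndi i j)‖ ≤ E.f.r2 * S)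
      (stS (fun v => ‖v‖) (cutc (crv w n S) (fr j n) (fr k n)) - E.f.r2) η := by
    refine (sq_pcw lip_norm ej ek hj hk hn hS h1).iff ?_
    rw [l2, l3]
    constructor
    · intro a m hm
      rw [← ball_iff hS, ← hdr m hm]
      exact a _ (by omega) (by omega)
    · intro a m hm1 hm2
      obtain ⟨m', rfl⟩ := Nat.exists_eq_add_of_le hm1
      rw [hdr m' (by omega), ball_iff hS]
      exact a m' (by omega)
  have e3 : Sqz (ConeQ d E.n.c (E.κk * S) (pcw w i k)) (stS (fCo d E.n.c) (cutc (crv w n S) (fr i n) (fr k n)) - E.κk) η :=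
    (sq_pcw (fCo_lip hd hE.c0 hE.c1) ei ek hi hk hn hS h2).iff (coneQ_iff hS)
  have e4 : Sqz (∀ m : ℕ, ndi i j ≤ m → m ≤ (pcw w i k).length → Kn d' E.f.c (E.f.κ1 * S) (ps (pcw w i k) m - ps (pcw w i k) (ndi i j)))
      (stS (fCo d' E.f.c) (cutc (crv w n S) (fr j n) (fr k n)) - E.f.κ1) η := by
    refine (sq_pcw (fCo_lip hd' hF.c0 hF.c1) ej ek hj hk hn hS h2).iff ?_
    rw [l2, l3]
    constructor
    · intro a m hm
      rw [← kn_iff hS, ← hdr m hm]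
      exact a _ (by omega) (by omega)
    · intro a m hm1 hm2
      obtain ⟨m', rfl⟩ := Nat.exists_eq_add_of_le hm1
      rw [hdr m' (by omega), kn_iff hS]
      exact a m' (by omega)
  have e5 : Sqz (E.n.c * ‖en (pcw w i k)‖ + E.ek * S ≤ lv d (en (pcw w i k)))
      (fCo d E.n.c (cutc (crv w n S) (fr i n) (fr k n) 1) + E.ek) η := by
    refine Sqz.of_iff ?_ hη0
    have e := endQ_iff (p := pcw w i k) (d := d) (c := E.n.c) (e := E.ek) hS
    unfold EndQ at e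
    rw [e, en_pcw ei ek hi hk hn]
    constructor <;> intro h <;> linarith
  have e6 := sq_duU (T := T) hi hk (la := E.lk) hT hη0
  have e7 : Sqz (‖en (pcw w i k) - ((E.kc * S : ℝ) : ℂ) * d‖ ≤ E.kr * S)
      (‖cutc (crv w n S) (fr i n) (fr k n) 1 - (E.kc : ℂ) * d‖ - E.kr) η := by
    refine Sqz.of_iff ?_ hη0
    have hS' : (S : ℂ) ≠ 0 := by exact_mod_cast hS.ne'
    have e : en (pcw w i k) / S - (E.kc : ℂ) * d = (en (pcw w i k) - ((E.kc * S : ℝ) : ℂ) * d) / S := by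
      push_cast
      field_simp
    rw [en_pcw ei ek hi hk hn, e, stnorm_div _ hS, sub_nonpos, div_le_iff₀ hS]
  refine (((e1.and e2).and (e3.and e4)).and ((e5.and e7).and e6)).iff ?_
  constructor
  · rintro ⟨a1, a2, a3, a4, a5, a7, a6⟩
    rw [l3] at a6
    exact ⟨⟨⟨a1, a2⟩, a3, a4⟩, ⟨a5, a7⟩, a6⟩
  · rintro ⟨⟨⟨a1, a2⟩, a3, a4⟩, ⟨a5, a7⟩, a6⟩
    refine ⟨a1, a2, a3, a4, a5, a7, ?_⟩
    rw [l3]
    exact a6

/-- **outer blocks** -/
theorem otS_sq {O : Ot} (h0 : 0 ≤ O.c) (h1 : O.c ≤ 1) (hd : ‖d‖ = 1) {i j : ℕ} (ei : Even i) (ej : Even j)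
    (hi : i ≤ n) (hj : j ≤ n) (hn : n ≤ w.length) {η : ℝ} (hS : 0 < S) (hT : 0 < T) (hη : 3 / S ≤ η) :
    Sqz (OtS d O S T (pcw w i j)) (otF d O (crv w n S) (n / T) (fr i n) (fr j n)) η := by
  have hη0 : 0 ≤ η := le_trans (by positivity) hη
  have h2 : 2 / S ≤ η := (div_le_div_of_nonneg_right (by norm_num) hS.le).trans hη
  have h3 : ((1 : ℝ≥0) : ℝ) / S ≤ η := by
    refine le_trans ?_ hη
    rw [NNReal.coe_one]
    exact div_le_div_of_nonneg_right (by norm_num) hS.le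
  have l1 := length_pcw (w := w) hi hj hn
  have e1 : Sqz (∀ m : ℕ, m ≤ (pcw w i j).length → |ltl d (ps (pcw w i j) m)| ≤ O.hw * S)
      (stS (fun v => |ltl d v|) (cutc (crv w n S) (fr i n) (fr j n)) - O.hw) η := by
    refine (sq_pcw (ltlA_lip hd) ei ej hi hj hn hS h3).iff ?_
    refine forall₂_congr fun m _ => ?_
    rw [stltl_div, abs_div, abs_of_pos hS, div_le_iff₀ hS]
  have e2 : Sqz (ConeQ d O.c (O.κ * S) (pcw w i j)) (stS (fCo d O.c) (cutc (crv w n S) (fr i n) (fr j n)) - O.κ) η :=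
    (sq_pcw (fCo_lip hd h0 h1) ei ej hi hj hn hS h2).iff (coneQ_iff hS)
  have e3 : Sqz (EndQ d O.c (O.e * S) (pcw w i j)) (fCo d O.c (cutc (crv w n S) (fr i n) (fr j n) 1) + O.e) η := by
    refine Sqz.of_iff ?_ hη0
    rw [endQ_iff hS, en_pcw ei ej hi hj hn]
    constructor <;> intro h <;> linarith
  have e4 := sq_duU (T := T) hi hj (la := O.lb) hT hη0
  refine ((e1.and e2).and (e3.and e4)).iff ⟨fun a => ⟨⟨a.hw, a.s⟩, a.e, ?_⟩, fun a => ⟨a.1.1, a.1.2, a.2.1, ?_⟩⟩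
  · have := a.lb
    rwa [l1] at this
  · rw [l1]
    exact a.2.2

end words

end Pool.Agent.ROT.F3
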