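import Pool.Agent.ROT.F3KRel
import Pool.Agent.ROT.F3ClsL

/-!
# ROT / F3KRelF (helper82): the two lattices (K8), in the statistics of F3ClsL

`g` curve, `L` duration, times in `I`, any reading direction: `BtI a u b` = `u` between `a` and `b`; `ChI l` = the times are monotone.
* `GtI d P g a b c` : closed form of the gate part (tip `a`, gates `b`, `c`): balls, levels, cuts; `FgI t P g x c z` : the foreign
  gates over `x`; `RtI d ρ g a b` : closed form of `RestC`;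
* **`preF_up`, `paiF_up`** : lattice 0 ⟹ rotated lattice (threshold `f.l + y`); **`rsF_kak`** : `k`, `A`, `k'` ⟹ rests of the lattice 0.
-/

set_option autoImplicit false

namespace Pool.Agent.ROT.F3

open ComplexConjugate unitInterval

/-! ### 1. Times -/

/-- `u` is between `a` and `b` -/
def BtI (a u b : I) : Prop := (a ≤ u ∧ u ≤ b) ∨ (b ≤ u ∧ u ≤ a)

lemma BtI.of_le {a u b : I} (h : a ≤ b) (hu : BtI a u b) : a ≤ u ∧ u ≤ b := by
  rcases hu with h1 | h1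
  · exact h1
  · have e1 : a = b := le_antisymm h (h1.1.trans h1.2)
    subst e1
    exact ⟨h1.1, h1.2⟩

lemma btI_symm {a u b : I} : BtI (σ a) (σ u) (σ b) ↔ BtI a u b := by
  unfold BtI
  rw [symm_le_symm, symm_le_symm, symm_le_symm, symm_le_symm]
  exact ⟨fun h => h.symm.imp And.symm And.symm, fun h => h.symm.imp And.symm And.symm⟩

lemma BtI.comm {a u b : I} (h : BtI a u b) : BtI b u a := h.symm

/-- the curve read backwards -/
noncomputable def rvg (g : C(I, ℂ)) : C(I, ℂ) := g.comp ⟨σ, continuous_symm⟩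

lemma rvg_apply (g : C(I, ℂ)) (u : I) : rvg g u = g (σ u) := rfl

lemma rvg_rvg (g : C(I, ℂ)) : rvg (rvg g) = g := by
  ext u
  rw [rvg_apply, rvg_apply, symm_symm]

lemma cvx_symm (a b s : I) : cvx (σ a) (σ b) s = σ (cvx a b s) := by
  apply Subtype.ext
  rw [cvx_coe, coe_symm_eq, coe_symm_eq, coe_symm_eq, cvx_coe]
  ring

lemma cutc_rvg (g : C(I, ℂ)) (a b : I) : cutc (rvg g) (σ a) (σ b) = cutc g a b := by
  ext s
  rw [cutc_apply, cutc_apply, rvg_apply, rvg_apply, cvx_symm, symm_symm, symm_symm]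

lemma duU_rvg (la L : ℝ) (a b : I) : duU la L (σ a) (σ b) = duU la L a b := by
  unfold duU
  rw [coe_symm_eq, coe_symm_eq, show (1 - (b : ℝ)) - (1 - a) = -((b : ℝ) - a) by ring, abs_neg]

lemma duL_rvg (la L : ℝ) (a b : I) : duL la L (σ a) (σ b) = duL la L a b := by
  unfold duL
  rw [coe_symm_eq, coe_symm_eq, show (1 - (b : ℝ)) - (1 - a) = -((b : ℝ) - a) by ring, abs_neg]

section rv

variable (d d' t : ℂ) (P Q : Tp) (E : En) (W : Wn) (g : C(I, ℂ)) (L : ℝ) (a b c : I)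

lemma preF_rvg : preF d P (rvg g) L (σ a) (σ b) (σ c) = preF d P g L a b c := by
  unfold preF
  rw [cutc_rvg, cutc_rvg, duU_rvg, duU_rvg]

lemma wdF_rvg (w cs κs : ℝ) : wdF d d' w cs κs (rvg g) (σ a) (σ b) = wdF d d' w cs κs g a b := by
  unfold wdF
  rw [cutc_rvg]

lemma rsF_rvg : rsF d d' P Q W (rvg g) L (σ a) (σ b) = rsF d d' P Q W g L a b := by
  unfold rsF
  rw [cutc_rvg, cutc_rvg, duU_rvg, duL_rvg]

lemma kcF_rvg : kcF d t E (rvg g) L (σ a) (σ b) (σ c) = kcF d t E g L a b c := by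
  unfold kcF
  rw [cutc_rvg, cutc_rvg, cutc_rvg, duU_rvg]

end rv

/-- every point of the piece -/
lemma cutc_all {g : C(I, ℂ)} {a b : I} (h : a ≤ b) {p : ℂ → Prop} :
    (∀ s : I, p (cutc g a b s)) ↔ ∀ u, a ≤ u → u ≤ b → p (g u - g a) := by
  constructor
  · intro k u h1 h2
    rcases eq_or_lt_of_le h with e | e
    · subst e
      obtain rfl : u = a := le_antisymm h2 h1
      have := k 0
      rwa [cutc_zero, ← sub_self (g u)] at this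
    · have e0 : 0 < (b : ℝ) - a := sub_pos.2 e
      have e1 : (a : ℝ) ≤ u := h1
      have e2 : (u : ℝ) ≤ b := h2
      have := k ⟨((u : ℝ) - a) / (b - a), div_nonneg (by linarith) e0.le, (div_le_one e0).2 (by linarith)⟩
      rw [cutc_apply] at this
      have e3 : cvx a b ⟨((u : ℝ) - a) / (b - a), div_nonneg (by linarith) e0.le, (div_le_one e0).2 (by linarith)⟩ = u := by
        apply Subtype.ext
        rw [cvx_coe]
        show (1 - ((u : ℝ) - a) / (b - a)) * a + ((u : ℝ) - a) / (b - a) * b = u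
        field_simp
        ring
      rwa [e3] at this
  · intro k s
    rw [cutc_apply]
    have e1 : (a : ℝ) ≤ b := h
    have s0 := s.2.1
    have s1 := s.2.2
    refine k _ ?_ ?_
    · show (a : ℝ) ≤ (cvx a b s : I)
      rw [cvx_coe]
      nlinarith
    · show ((cvx a b s : I) : ℝ) ≤ b
      rw [cvx_coe]
      nlinarith

lemma cutc_all' {g : C(I, ℂ)} {a b : I} (h : b ≤ a) {p : ℂ → Prop} :
    (∀ s : I, p (cutc g a b s)) ↔ ∀ u, b ≤ u → u ≤ a → p (g u - g a) := by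
  have h' : σ a ≤ σ b := symm_le_symm.2 h
  have k := cutc_all (g := rvg g) h' (p := p)
  rw [cutc_rvg] at k
  rw [k]
  constructor
  · intro q u h1 h2
    have := q (σ u) (symm_le_symm.2 h2) (symm_le_symm.2 h1)
    rwa [rvg_apply, rvg_apply, symm_symm, symm_symm] at this
  · intro q u h1 h2
    have := q (σ u) (by
      have := symm_le_symm.2 h2
      rwa [symm_symm] at this) (by
      have := symm_le_symm.2 h1
      rwa [symm_symm] at this)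
    rwa [rvg_apply, rvg_apply, symm_symm]

/-! ### 2. The gates -/

/-- closed form of the gate part of a prefix: tip `a`, gates `b`, `c` -/
structure GtI (d : ℂ) (P : Tp) (g : C(I, ℂ)) (a b c : I) : Prop where
  b1 : ∀ u, BtI a u b → ‖g u - g a‖ ≤ P.r
  b2 : ∀ u, BtI b u c → ‖g u - g b‖ ≤ P.r2
  l : P.l ≤ lv d (g b - g a)
  m : P.m ≤ lv d (g c - g b)
  r : ∀ u, BtI b u c → lv d (g b) ≤ lv d (g u)
  t1 : ∀ u, BtI a u b → lv d (g u) ≤ lv d (g b)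
  t2 : ∀ u, BtI b u c → lv d (g u) ≤ lv d (g c)

/-- closed form of the foreign gates `c`, `z` over `x` -/
structure FgI (t : ℂ) (P : Tp) (g : C(I, ℂ)) (x c z : I) : Prop where
  l : P.l ≤ lv t (g c - g x)
  m : P.m ≤ lv t (g z - g c)
  t1 : ∀ u, BtI x u c → lv t (g u) ≤ lv t (g c)
  r : ∀ u, BtI c u z → lv t (g c) ≤ lv t (g u)
  t2 : ∀ u, BtI c u z → lv t (g u) ≤ lv t (g z)

/-- closed form of `RestC` -/
def RtI (d : ℂ) (ρ : ℝ) (g : C(I, ℂ)) (a b : I) : Prop := ∀ u, BtI a u b → 0 ≤ lv d (g u - g a) ∨ ρ ≤ ‖g u - g a‖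

/-- strictly right, closed form (pieces `k`) -/
def RgI (d : ℂ) (g : C(I, ℂ)) (a b : I) : Prop := ∀ u, BtI a u b → 0 ≤ lv d (g u - g a)

section rv

variable {d t : ℂ} {P : Tp} {g : C(I, ℂ)} {a b c : I}

lemma rv_all {p : I → Prop} {a b : I} : (∀ u, BtI (σ a) u (σ b) → p u) ↔ ∀ u, BtI a u b → p (σ u) := by
  constructor
  · exact fun h u hu => h _ (btI_symm.2 hu)
  · intro h u hu
    have h1 : BtI a (σ u) b := by
      rw [← btI_symm, symm_symm]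
      exact hu
    have := h _ h1
    rwa [symm_symm] at this

lemma gtI_rvg : GtI d P (rvg g) (σ a) (σ b) (σ c) ↔ GtI d P g a b c := by
  constructor
  · intro h
    have h1 := rv_all.1 h.b1
    have h2 := rv_all.1 h.b2
    have h3 := h.l
    have h4 := h.m
    have h5 := rv_all.1 h.r
    have h6 := rv_all.1 h.t1
    have h7 := rv_all.1 h.t2
    simp only [rvg_apply, symm_symm] at h1 h2 h3 h4 h5 h6 h7
    exact ⟨h1, h2, h3, h4, h5, h6, h7⟩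
  · intro h
    refine ⟨rv_all.2 ?_, rv_all.2 ?_, ?_, ?_, rv_all.2 ?_, rv_all.2 ?_, rv_all.2 ?_⟩ <;> simp only [rvg_apply, symm_symm]
    exacts [h.b1, h.b2, h.l, h.m, h.r, h.t1, h.t2]

lemma fgI_rvg : FgI t P (rvg g) (σ a) (σ b) (σ c) ↔ FgI t P g a b c := by
  constructor
  · intro h
    have h1 := rv_all.1 h.t1
    have h2 := rv_all.1 h.r
    have h3 := h.l
    have h4 := h.m
    have h5 := rv_all.1 h.t2
    simp only [rvg_apply, symm_symm] at h1 h2 h3 h4 h5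
    exact ⟨h3, h4, h1, h2, h5⟩
  · intro h
    refine ⟨?_, ?_, rv_all.2 ?_, rv_all.2 ?_, rv_all.2 ?_⟩ <;> simp only [rvg_apply, symm_symm]
    exacts [h.l, h.m, h.t1, h.r, h.t2]

lemma rtI_rvg {ρ : ℝ} : RtI d ρ (rvg g) (σ a) (σ b) ↔ RtI d ρ g a b := by
  unfold RtI
  rw [rv_all]
  simp only [rvg_apply, symm_symm]

lemma rgI_rvg : RgI d (rvg g) (σ a) (σ b) ↔ RgI d g a b := by
  unfold RgI
  rw [rv_all]
  simp only [rvg_apply, symm_symm]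

end rv

/-! ### 3. Forward reading: the conditions of F3KRel -/

section fwd

variable {d d' t t' : ℂ} {P Q : Tp} {E E' : En} {W : Wn} {g : C(I, ℂ)} {L : ℝ} {a b c : I} {ε : ℝ}

/-- clock -/
def thI (L : ℝ) (u : I) : ℝ := (u : ℝ) * L

lemma duU_iff {la : ℝ} (h : a ≤ b) : duU la L a b ≤ 0 ↔ thI L b - thI L a ≤ la := by
  unfold duU thI
  have e : (a : ℝ) ≤ b := h
  rw [abs_of_nonneg (by linarith)]
  constructor <;> intro h1 <;> linarith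

lemma duL_iff {t0 : ℝ} (hL : 0 ≤ L) (h : a ≤ b) : duL t0 L a b ≤ 0 ↔ t0 ≤ thI L b - thI L a := by
  unfold duL thI
  have e : (a : ℝ) ≤ b := h
  have e0 : 0 ≤ ((b : ℝ) - a) * L := mul_nonneg (by linarith) hL
  rw [abs_of_nonneg (by linarith)]
  split_ifs with h1
  · constructor <;> intro h2 <;> linarith
  · constructor <;> intro h2 <;> linarith

lemma fCo_iff {c κ : ℝ} {v : ℂ} : fCo d c v ≤ κ ↔ Kn d c κ v := by
  unfold fCo Kn
  constructor <;> intro h <;> linarith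

lemma stS_fCo (hd : ‖d‖ = 1) {c κ : ℝ} (h0 : 0 ≤ c) (h1 : c ≤ 1) (h : a ≤ b) :
    stS (fCo d c) (cutc g a b) - κ ≤ 0 ↔ ∀ u, a ≤ u → u ≤ b → Kn d c κ (g u - g a) := by
  rw [sub_nonpos, stS_le_iff (fCo_lip hd h0 h1).continuous, cutc_all h (p := fun v => fCo d c v ≤ κ)]
  simp only [fCo_iff]

lemma stS_nm {r : ℝ} (h : a ≤ b) : stS (fun v => ‖v‖) (cutc g a b) - r ≤ 0 ↔ ∀ u, a ≤ u → u ≤ b → ‖g u - g a‖ ≤ r := by
  rw [sub_nonpos, stS_le_iff continuous_norm, cutc_all h (p := fun v => ‖v‖ ≤ r)]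

/-- prefixes -/
theorem cpre_iff (hd : ‖d‖ = 1) (hP : P.Co) (h1 : a ≤ b) (h2 : b ≤ c) :
    CPre d P g (thI L) a b c ↔ GtI d P g a b c ∧ preF d P g L a b c ≤ 0 := by
  have q1 : ∀ u, BtI a u b ↔ a ≤ u ∧ u ≤ b := fun u => ⟨fun h => h.of_le h1, Or.inl⟩
  have q2 : ∀ u, BtI b u c ↔ b ≤ u ∧ u ≤ c := fun u => ⟨fun h => h.of_le h2, Or.inl⟩
  unfold preF
  rw [max_le_iff, max_le_iff, max_le_iff, duU_iff h1, duU_iff h2, stS_fCo hd hP.c0 hP.c1 h2, cutc_one]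
  constructor
  · intro h
    refine ⟨⟨fun u hu => ?_, fun u hu => ?_, h.l, h.m, fun u hu => ?_, fun u hu => ?_, fun u hu => ?_⟩, ⟨?_, h.s⟩, h.la, h.lb⟩
    · exact h.b1 u ((q1 u).1 hu).1 ((q1 u).1 hu).2
    · exact h.b2 u ((q2 u).1 hu).1 ((q2 u).1 hu).2
    · exact h.r u ((q2 u).1 hu).1 ((q2 u).1 hu).2
    · exact h.t1 u ((q1 u).1 hu).1 ((q1 u).1 hu).2
    · exact h.t2 u ((q2 u).1 hu).1 ((q2 u).1 hu).2
    · have := h.e
      unfold fCo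
      linarith
  · rintro ⟨h, ⟨k1, k2⟩, k3, k4⟩
    unfold fCo at k1
    exact ⟨h1, h2, fun u x y => h.b1 u (Or.inl ⟨x, y⟩), fun u x y => h.b2 u (Or.inl ⟨x, y⟩), h.l, h.m, by linarith, k2,
      fun u x y => h.r u (Or.inl ⟨x, y⟩), fun u x y => h.t1 u (Or.inl ⟨x, y⟩), fun u x y => h.t2 u (Or.inl ⟨x, y⟩), k3, k4⟩

/-- foreign gates -/
lemma cfg_of (h : FgI t P g a b c) : CFg t P g a b c :=
  ⟨h.l, h.m, fun u x y => h.t1 u (Or.inl ⟨x, y⟩), fun u x y => h.r u (Or.inl ⟨x, y⟩), fun u x y => h.t2 u (Or.inl ⟨x, y⟩)⟩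

/-- wedge -/
lemma cwd_iff (hd : ‖d‖ = 1) (hd' : ‖d'‖ = 1) (hP : Q.Co) (h : a ≤ b) :
    CWd d d' P Q g a b ↔ wdF d d' P.w Q.cs Q.κs g a b ≤ 0 := by
  unfold wdF CWd
  rw [stS_le_iff (fWe_lip hd hd' hP.s0 hP.s1).continuous, cutc_all h (p := fun v => fWe d d' P.w Q.cs Q.κs v ≤ 0)]
  refine forall₃_congr fun u _ _ => ?_
  unfold fWe Kn
  rw [min_le_iff, sub_nonpos]
  refine or_congr Iff.rfl ?_
  constructor <;> intro h <;> linarith

/-- pieces `k` -/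
theorem ckc_iff (hd : ‖d‖ = 1) (ht : ‖t‖ = 1) (hn : E.n.Co) (hf : E.f.Co) (h1 : a ≤ b) (h2 : b ≤ c) :
    CKc d t E g (thI L) a b c ↔ RgI d g a c ∧ kcF d t E g L a b c ≤ 0 := by
  unfold kcF
  rw [max_le_iff, max_le_iff, max_le_iff, max_le_iff, max_le_iff, max_le_iff, duU_iff (h1.trans h2),
    stS_fCo hd hn.c0 hn.c1 (h1.trans h2), stS_fCo ht hf.c0 hf.c1 h2, stS_nm h1, stS_nm h2, cutc_one]
  constructor
  · intro h
    refine ⟨fun u hu => ?_, ⟨⟨h.b1, h.b2⟩, h.s, h.s2⟩, ⟨?_, ?_⟩, h.lk⟩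
    · exact h.right u (hu.of_le (h1.trans h2)).1 (hu.of_le (h1.trans h2)).2
    · have := h.e
      unfold fCo
      linarith
    · linarith [h.cell]
  · rintro ⟨h, ⟨⟨k1, k2⟩, k3, k4⟩, ⟨k5, k6⟩, k7⟩
    unfold fCo at k5
    exact ⟨h1, h2, k1, k2, k3, k4, by linarith, by linarith, fun u x y => h u (Or.inl ⟨x, y⟩), k7⟩

/-- rests, arcs -/
theorem crs_iff (hd : ‖d‖ = 1) (hd' : ‖d'‖ = 1) (hP : P.Co) (hQ : Q.Co) (hL : 0 ≤ L) (h : a ≤ b) :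
    CRs d d' P Q W g (thI L) a b ↔ (RtI d P.rg g a b ∧ RtI d' Q.rg g b a) ∧ rsF d d' P Q W g L a b ≤ 0 := by
  have e1 : stS (fRa d P.c P.r0) (cutc g a b) - P.κ ≤ 0 ↔
      ∀ u, a ≤ u → u ≤ b → Kn d P.c P.κ (g u - g a) ∨ P.r0 - P.κ ≤ ‖g u - g a‖ := by
    rw [sub_nonpos, stS_le_iff (fRa_lip hd hP.c0 hP.c1).continuous, cutc_all h (p := fun v => fRa d P.c P.r0 v ≤ P.κ)]
    refine forall₃_congr fun u _ _ => ?_
    unfold fRa Kn
    rw [min_le_iff]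
    constructor
    · rintro (h | h)
      · left; linarith
      · right; linarith
    · rintro (h | h)
      · left; linarith
      · right; linarith
  have e2 : stS (fRa d' Q.c Q.r0) (cutc g b a) - Q.κ ≤ 0 ↔
      ∀ u, a ≤ u → u ≤ b → Kn d' Q.c Q.κ (g u - g b) ∨ Q.r0 - Q.κ ≤ ‖g u - g b‖ := by
    rw [sub_nonpos, stS_le_iff (fRa_lip hd' hQ.c0 hQ.c1).continuous, cutc_all' h (p := fun v => fRa d' Q.c Q.r0 v ≤ Q.κ)]
    refine forall₃_congr fun u _ _ => ?_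
    unfold fRa Kn
    rw [min_le_iff]
    constructor
    · rintro (h | h)
      · left; linarith
      · right; linarith
    · rintro (h | h)
      · left; linarith
      · right; linarith
  unfold rsF
  rw [max_le_iff, max_le_iff, max_le_iff, max_le_iff, max_le_iff, duU_iff h, duL_iff hL h, e1, e2, cutc_one]
  constructor
  · intro k
    refine ⟨⟨fun u hu => ?_, fun u hu => ?_⟩, ⟨⟨fun u x y => ?_, fun u x y => ?_⟩, ?_, ?_⟩, k.lo, k.hi⟩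
    · exact (k.s u (hu.of_le h).1 (hu.of_le h).2).1
    · exact (k.e u (hu.comm.of_le h).1 (hu.comm.of_le h).2).1
    · exact (k.s u x y).2
    · exact (k.e u x y).2
    · linarith [k.far]
    · linarith [k.near]
  · rintro ⟨⟨k1, k2⟩, ⟨⟨k3, k4⟩, k5, k6⟩, k7, k8⟩
    exact ⟨h, fun u x y => ⟨k1 u (Or.inl ⟨x, y⟩), k3 u x y⟩, fun u x y => ⟨k2 u (Or.inr ⟨x, y⟩), k4 u x y⟩, by linarith,
      by linarith, k7, k8⟩

/-- pieces `k` read backwards, at the end of a rest -/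
lemma ckc_dual (hd : ‖d‖ = 1) (ht : ‖t‖ = 1) (hn : E.n.Co) (hf : E.f.Co) (h1 : a ≤ b) (h2 : b ≤ c) (hr : RgI d g c a)
    (hk : kcF d t E g L c b a ≤ 0) :
    CKc d t E (g ∘ OrderDual.ofDual) (fun u => -thI L (OrderDual.ofDual u)) (OrderDual.toDual c) (OrderDual.toDual b)
      (OrderDual.toDual a) := by
  have k1 := (ckc_iff (g := rvg g) (L := L) hd ht hn hf (symm_le_symm.2 h2) (symm_le_symm.2 h1)).2
    ⟨rgI_rvg.2 hr, by rwa [kcF_rvg]⟩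
  have k2 : TCh (rvg g) (thI L) (g ∘ OrderDual.ofDual) (fun u => -thI L (OrderDual.ofDual u))
      (fun u => OrderDual.toDual (σ u)) (σ c) (σ a) 0 (-L) := by
    refine ⟨fun u w _ h _ => ?_, fun y h3 h4 => ?_, fun u _ _ => ?_, fun u _ _ => ?_⟩
    · exact symm_le_symm.2 h
    · have h3' : OrderDual.ofDual y ≤ σ (σ c) := h3
      have h4' : σ (σ a) ≤ OrderDual.ofDual y := h4
      rw [symm_symm] at h3' h4'
      refine ⟨σ (OrderDual.ofDual y), symm_le_symm.2 h3', symm_le_symm.2 h4', ?_⟩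
      show OrderDual.toDual (σ (σ (OrderDual.ofDual y))) = y
      rw [symm_symm]
      rfl
    · show g (σ u) = rvg g u + 0
      rw [rvg_apply, add_zero]
    · show -thI L (σ u) = thI L u + -L
      unfold thI
      rw [coe_symm_eq]
      ring
  have k3 := (k2.kc (d := d) (t := t) (E := E) (le_refl (σ c)) (symm_le_symm.2 h2) (symm_le_symm.2 h1) le_rfl).2 k1
  simp only [symm_symm] at k3
  exact k3

end fwd

/-! ### 4. The two lattices -/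

section

variable {d d' d1 d2 t t' t1 t2 : ℂ} {E E' : En} {W : Wn} {g : C(I, ℂ)} {L : ℝ} {a b c b' c' : I} {ε : ℝ}

/-- the order of the times tip, `c`, `x`, `c~`, `x~` -/
def ChI (a b c b' c' : I) : Prop := (a ≤ b ∧ b ≤ c ∧ c ≤ b' ∧ b' ≤ c') ∨ (c' ≤ b' ∧ b' ≤ c ∧ c ≤ b ∧ b ≤ a)

/-- **from the lattice 0 to the rotated lattice**, one strand: tip `a`, native gates `b`, `c`, foreign gates `b'`, `c'` -/
theorem preF_up (hE : E.Ok ε) (hd : ‖d‖ = 1) (ht : ‖t‖ = 1) (htd : ‖t - d‖ ≤ ε) (hL : 0 ≤ L) (ho : ChI a b c b' c')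
    (hG : GtI d E.n g a b c) (hF : preF d E.n g L a b c ≤ 0) (hg : FgI t E.f g c b' c') (hr : RgI d g c c')
    (hk : kcF d t E g L c b' c' ≤ 0) {y : ℝ} (hy : E.f.l + y ≤ lv t (g b' - g a)) :
    GtI t (E.f.up y) g a b' c' ∧ preF t (E.f.up y) g L a b' c' ≤ 0 ∧ ∀ s : ℂ, ‖s‖ = 1 → ∀ w cs κs : ℝ, w = E.f.w →
      cs = E.f.cs → κs = E.f.κs → wdF s t w cs κs g a b' ≤ 0 := by
  have key : ∀ (g : C(I, ℂ)) (a b c b' c' : I), a ≤ b → b ≤ c → c ≤ b' → b' ≤ c' → GtI d E.n g a b c →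
      preF d E.n g L a b c ≤ 0 → FgI t E.f g c b' c' → RgI d g c c' → kcF d t E g L c b' c' ≤ 0 →
      E.f.l + y ≤ lv t (g b' - g a) → GtI t (E.f.up y) g a b' c' ∧ preF t (E.f.up y) g L a b' c' ≤ 0 ∧
        ∀ s : ℂ, ‖s‖ = 1 → ∀ w cs κs : ℝ, w = E.f.w → cs = E.f.cs → κs = E.f.κs → wdF s t w cs κs g a b' ≤ 0 := by
    intro g a b c b' c' h1 h2 h3 h4 hG hF hg hr hk hy
    have k1 := (cpre_iff (L := L) hd hE.n.co h1 h2).2 ⟨hG, hF⟩
    have k2 := (ckc_iff (L := L) hd ht hE.n.co hE.f.co h3 h4).2 ⟨hr, hk⟩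
    have mono : ∀ u v : I, u ≤ v → thI L u ≤ thI L v := fun u v h => mul_le_mul_of_nonneg_right h hL
    have k3 := pre_up hE htd k1 k2 (cfg_of hg) (mono _ _ h4) (mono _ _ h3) hy
    refine ⟨((cpre_iff ht (hE.f.co.up y) k3.oc h4).1 k3).1, ((cpre_iff ht (hE.f.co.up y) k3.oc h4).1 k3).2, ?_⟩
    rintro s hs w cs κs rfl rfl rfl
    have k4 := wdg_up (θ := thI L) (t' := s) (y := y) (y' := y) hE htd k1 k2 hs
    exact (cwd_iff (P := E.f.up y) (Q := E.f.up y) hs ht (hE.f.co.up y) k3.oc).1 k4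
  rcases ho with ⟨h1, h2, h3, h4⟩ | ⟨h4, h3, h2, h1⟩
  · exact key g a b c b' c' h1 h2 h3 h4 hG hF hg hr hk hy
  · obtain ⟨k1, k2, k3⟩ := key (rvg g) (σ a) (σ b) (σ c) (σ b') (σ c') (symm_le_symm.2 h1) (symm_le_symm.2 h2)
      (symm_le_symm.2 h3) (symm_le_symm.2 h4) (gtI_rvg.2 hG) (by rwa [preF_rvg]) (fgI_rvg.2 hg) (rgI_rvg.2 hr)
      (by rwa [kcF_rvg]) (by rwa [rvg_apply, rvg_apply, symm_symm, symm_symm])
    rw [preF_rvg] at k2
    refine ⟨gtI_rvg.1 k1, k2, fun s hs w cs κs e1 e2 e3 => ?_⟩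
    have := k3 s hs w cs κs e1 e2 e3
    rwa [wdF_rvg] at this

/-- **from the lattice 0 to the rotated lattice**, the two strands at a root; thresholds `f.l + y1`, `f.l + y2` -/
theorem paiF_up (hE : E.Ok ε) (n1 : ‖d1‖ = 1) (n2 : ‖d2‖ = 1) (m1 : ‖t1‖ = 1) (m2 : ‖t2‖ = 1) (h1 : ‖t1 - d1‖ ≤ ε)
    (h2 : ‖t2 - d2‖ ≤ ε) (hL : 0 ≤ L) {a1 b1 c1 b1' c1' a2 b2 c2 b2' c2' : I} (o1 : ChI a1 b1 c1 b1' c1')
    (o2 : ChI a2 b2 c2 b2' c2') (G1 : GtI d1 E.n g a1 b1 c1) (G2 : GtI d2 E.n g a2 b2 c2)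
    (hF : paiF d1 d2 E.n E.n g L a1 b1 c1 a2 b2 c2 ≤ 0) (g1 : FgI t1 E.f g c1 b1' c1') (g2 : FgI t2 E.f g c2 b2' c2')
    (r1 : RgI d1 g c1 c1') (r2 : RgI d2 g c2 c2') (k1 : kcF d1 t1 E g L c1 b1' c1' ≤ 0) (k2 : kcF d2 t2 E g L c2 b2' c2' ≤ 0)
    {y1 y2 : ℝ} (e1 : E.f.l + y1 ≤ lv t1 (g b1' - g a1)) (e2 : E.f.l + y2 ≤ lv t2 (g b2' - g a2)) :
    (GtI t1 (E.f.up y1) g a1 b1' c1' ∧ GtI t2 (E.f.up y2) g a2 b2' c2') ∧
      paiF t1 t2 (E.f.up y1) (E.f.up y2) g L a1 b1' c1' a2 b2' c2' ≤ 0 := by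
  unfold paiF at hF
  rw [max_le_iff, max_le_iff] at hF
  obtain ⟨A1, A2, A3⟩ := preF_up hE n1 m1 h1 hL o1 G1 hF.1.1 g1 r1 k1 e1
  obtain ⟨B1, B2, B3⟩ := preF_up hE n2 m2 h2 hL o2 G2 hF.1.2 g2 r2 k2 e2
  refine ⟨⟨A1, B1⟩, ?_⟩
  unfold paiF
  rw [max_le_iff, max_le_iff, max_le_iff]
  exact ⟨⟨A2, B2⟩, B3 t1 m1 _ _ _ rfl rfl rfl, A3 t2 m2 _ _ _ rfl rfl rfl⟩

/-- **the rests of the lattice 0**: `x` (time `a`), `c~` (`b`), `x~` (`c`), then the arc up to `x~` (`c'`), `c~` (`b'`), `x` (`a'`) -/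
theorem rsF_kak {a' : I} (hE : E.Ok ε) (hE' : E'.Ok ε) (hd : ‖d‖ = 1) (hd' : ‖d'‖ = 1) (ht : ‖t‖ = 1) (ht' : ‖t'‖ = 1)
    (h1 : ‖t - d‖ ≤ ε) (h2 : ‖t' - d'‖ ≤ ε) (hL : 0 ≤ L)
    (ho : (a ≤ b ∧ b ≤ c ∧ c ≤ c' ∧ c' ≤ b' ∧ b' ≤ a') ∨ (a' ≤ b' ∧ b' ≤ c' ∧ c' ≤ c ∧ c ≤ b ∧ b ≤ a))
    (r1 : RgI d g a c) (r2 : RgI d' g a' c') (k1 : kcF d t E g L a b c ≤ 0) (k2 : kcF d' t' E' g L a' b' c' ≤ 0)
    (l1 : E.f.l + E.f.m ≤ lv t (g c - g a)) (l2 : E'.f.l + E'.f.m ≤ lv t' (g c' - g a'))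
    (R1 : RtI t E.f.rg g c c') (R2 : RtI t' E'.f.rg g c' c) (hA : rsF t t' E.f E'.f W g L c c' ≤ 0)
    (hD : 2 * (E.f.r0 + E'.f.r0) ≤ W.D0) :
    (RtI d E.n.rg g a a' ∧ RtI d' E'.n.rg g a' a) ∧
      rsF d d' E.n E'.n ⟨W.D0 - (E.k + E'.k), W.D1 + (E.k + E'.k), W.t0, W.t1 + (E.lk + E'.lk)⟩ g L a a' ≤ 0 := by
  have key : ∀ (g : C(I, ℂ)) (a b c c' b' a' : I), a ≤ b → b ≤ c → c ≤ c' → c' ≤ b' → b' ≤ a' → RgI d g a c → RgI d' g a' c' →
      kcF d t E g L a b c ≤ 0 → kcF d' t' E' g L a' b' c' ≤ 0 → E.f.l + E.f.m ≤ lv t (g c - g a) →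
      E'.f.l + E'.f.m ≤ lv t' (g c' - g a') → RtI t E.f.rg g c c' → RtI t' E'.f.rg g c' c →
      rsF t t' E.f E'.f W g L c c' ≤ 0 → (RtI d E.n.rg g a a' ∧ RtI d' E'.n.rg g a' a) ∧
        rsF d d' E.n E'.n ⟨W.D0 - (E.k + E'.k), W.D1 + (E.k + E'.k), W.t0, W.t1 + (E.lk + E'.lk)⟩ g L a a' ≤ 0 := by
    intro g a b c c' b' a' o1 o2 o3 o4 o5 r1 r2 k1 k2 l1 l2 R1 R2 hA
    have m1 := (ckc_iff (L := L) hd ht hE.n.co hE.f.co o1 o2).2 ⟨r1, k1⟩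
    have m2 := ckc_dual (L := L) hd' ht' hE'.n.co hE'.f.co o4 o5 r2 k2
    have m3 := (crs_iff ht ht' hE.f.co hE'.f.co hL o3).2 ⟨⟨R1, R2⟩, hA⟩
    have mono : ∀ u v : I, u ≤ v → thI L u ≤ thI L v := fun u v h => mul_le_mul_of_nonneg_right h hL
    have m4 := kak hE hE' h1 h2 m1 m2 l1 l2 m3 hD (mono _ _ (o1.trans o2)) (mono _ _ (o4.trans o5))
    exact (crs_iff hd hd' hE.n.co hE'.n.co hL (o1.trans (o2.trans (o3.trans (o4.trans o5))))).1 m4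
  rcases ho with ⟨o1, o2, o3, o4, o5⟩ | ⟨o5, o4, o3, o2, o1⟩
  · exact key g a b c c' b' a' o1 o2 o3 o4 o5 r1 r2 k1 k2 l1 l2 R1 R2 hA
  · have := key (rvg g) (σ a) (σ b) (σ c) (σ c') (σ b') (σ a') (symm_le_symm.2 o1) (symm_le_symm.2 o2) (symm_le_symm.2 o3)
      (symm_le_symm.2 o4) (symm_le_symm.2 o5) (rgI_rvg.2 r1) (rgI_rvg.2 r2) (by rwa [kcF_rvg]) (by rwa [kcF_rvg])
      (by rwa [rvg_apply, rvg_apply, symm_symm, symm_symm]) (by rwa [rvg_apply, rvg_apply, symm_symm, symm_symm])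
      (rtI_rvg.2 R1) (rtI_rvg.2 R2) (by rwa [rsF_rvg])
    rwa [rtI_rvg, rtI_rvg, rsF_rvg] at this

end

end Pool.Agent.ROT.F3
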