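import Pool.Agent.ROT.F3K3S
import Pool.Agent.ROT.F3K3Y
import Pool.Agent.ROT.F3GtK
import Pool.Agent.ROT.F3KRelF

/-!
# ROT, F3, row K3 (helper2): closed conditions of one arm

* `poA`, `tmA`, `rtI` : position, time, root of one arm in the closed word and curve;
* `AIn.lc`, `AIn.lg` : the times in the closed curve; **`arm_mem`** : closed conditions of the gates of one arm, with a base.
-/

set_option autoImplicit false

namespace Pool.Agent.ROT.F3.CK

open MeasureTheory Filter Topology Set unitInterval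

open scoped NNReal ENNReal Classical

open Pool.Agent.ROT.F3 Pool.Agent.ROT.F3.LF

/-! ### 1. One arm -/

/-- position in the closed word of the vertex `c` of the arm `k` -/
def poA (k : Arm) (x : W3 × ℕ) (c : ℕ) : ℕ :=
  match k with
  | .fp => c
  | .bq => x.2 - c
  | .fq => x.2 + c
  | .bp => x.1.length - c

/-- time in the closed curve of the time `s` of the arm `k`, `μ` = time of the second root -/
def tmA (k : Arm) (μ s : ℝ) : ℝ :=
  match k with
  | .fp => s * μ
  | .bq => μ - s * μ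
  | .fq => μ + s * (1 - μ)
  | .bp => 1 - s * (1 - μ)

/-- the root of the arm, `m` = the second root -/
def rtI (k : Arm) (m : I) : I :=
  match k with
  | .fp => 0
  | .bq => m
  | .fq => m
  | .bp => 1

/-- the root of the arm in the closed word -/
def rpA (k : Arm) (x : W3 × ℕ) : ℕ :=
  match k with
  | .fp => 0
  | .bq => x.2
  | .fq => x.2
  | .bp => x.1.length

lemma tmA_cont (k : Arm) : Continuous fun z : ℝ × ℝ => tmA k z.2 z.1 := by
  cases k <;> unfold tmA <;> fun_prop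

lemma rtI_cont (k : Arm) : Continuous (rtI k) := by
  cases k
  · exact continuous_const
  · exact continuous_id
  · exact continuous_id
  · exact continuous_const

lemma rtI_fr (k : Arm) {x : W3 × ℕ} (hx : 1 ≤ x.1.length) : rtI k (fr x.2 x.1.length) = fr (rpA k x) x.1.length := by
  cases k
  · exact (fr_zero _).symm
  · rfl
  · rfl
  · exact (fr_self hx).symm

private lemma fr2 {c m n : ℝ} (h : m = 0 → c = 0) : c / m * (m / n) = c / n := by
  by_cases hm : m = 0
  · rw [hm, h hm]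
    simp
  · rw [div_mul_div_comm, mul_comm c m, mul_div_mul_left _ _ hm]

/-- **the times of the arm in the closed word** -/
theorem tmA_po {x : W3 × ℕ} (hx : Spt x) (k : Arm) {c : ℕ} (hc : c ≤ (arcw x.2 k x.1).length) :
    tmA k (muN x) ((c : ℝ) / (arcw x.2 k x.1).length) = ((fr (poA k x c) x.1.length : I) : ℝ) := by
  have hm := hx.2.2
  rw [muN_eq hm]
  have fA : ∀ {k m n : ℕ}, k ≤ m → (k : ℝ) / n = (k : ℝ) / m * ((m : ℝ) / n) := fun {k m n} h => by
    rw [fr2]
    intro h0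
    have h1 : m = 0 := by exact_mod_cast h0
    have : k = 0 := by omega
    exact_mod_cast this
  have hn : (x.1.length : ℝ) ≠ 0 := by exact_mod_cast (by omega : x.1.length ≠ 0)
  have e1 : 1 - (x.2 : ℝ) / x.1.length = ((x.1.length - x.2 : ℕ) : ℝ) / x.1.length := by
    rw [Nat.cast_sub hm.le, sub_div, div_self hn]
  cases k
  · rw [al_fp hm.le] at hc ⊢
    rw [fr_coe (show poA .fp x c ≤ x.1.length by show c ≤ _; omega)]
    exact (fA hc).symm
  · rw [al_bq hm.le] at hc ⊢
    rw [fr_coe (show poA .bq x c ≤ x.1.length by show x.2 - c ≤ _; omega)]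
    show (x.2 : ℝ) / x.1.length - (c : ℝ) / x.2 * ((x.2 : ℝ) / x.1.length) = ((x.2 - c : ℕ) : ℝ) / x.1.length
    rw [← fA hc, Nat.cast_sub hc, sub_div]
  · rw [al_fq] at hc ⊢
    rw [fr_coe (show poA .fq x c ≤ x.1.length by show x.2 + c ≤ _; omega)]
    show (x.2 : ℝ) / x.1.length + (c : ℝ) / ((x.1.length - x.2 : ℕ) : ℝ) * (1 - (x.2 : ℝ) / x.1.length) =
      ((x.2 + c : ℕ) : ℝ) / x.1.length
    rw [e1, ← fA hc, Nat.cast_add, add_div]
  · rw [al_bp] at hc ⊢
    rw [fr_coe (show poA .bp x c ≤ x.1.length by show x.1.length - c ≤ _; omega)]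
    show 1 - (c : ℝ) / ((x.1.length - x.2 : ℕ) : ℝ) * (1 - (x.2 : ℝ) / x.1.length) = ((x.1.length - c : ℕ) : ℝ) / x.1.length
    rw [e1, ← fA hc, Nat.cast_sub (by omega), sub_div, div_self hn]

lemma poA_le {x : W3 × ℕ} (hx : Spt x) (k : Arm) {c : ℕ} (hc : c ≤ (arcw x.2 k x.1).length) : poA k x c ≤ x.1.length := by
  have hm := hx.2.2
  cases k
  · rw [al_fp hm.le] at hc
    show c ≤ _
    omega
  · rw [al_bq hm.le] at hc
    show x.2 - c ≤ _
    omega
  · rw [al_fq] at hc
    show x.2 + c ≤ _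
    omega
  · rw [al_bp] at hc
    show x.1.length - c ≤ _
    omega

lemma poA_ev {x : W3 × ℕ} (hx : Spt x) (k : Arm) {c : ℕ} (hc : Even c) : Even (poA k x c) := by
  obtain ⟨hcl, em, hm⟩ := hx
  cases k
  · exact hc
  · exact em.tsub hc
  · exact em.add hc
  · exact hcl.1.tsub hc

private lemma sg_take {w : W3} {m a c : ℕ} (hc : c ≤ m) : seg (w.take m) a c = seg w a c := by
  unfold seg
  rw [List.drop_take, List.take_take, min_eq_left (by omega)]

private lemma sg_drop {w : W3} {m a c : ℕ} : seg (w.drop m) a c = seg w (m + a) (m + c) := by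
  unfold seg
  rw [List.drop_drop]
  congr 1
  omega

private lemma sg_rev {w : W3} {a c : ℕ} (hac : a ≤ c) (hc : c ≤ w.length) :
    seg w.reverse a c = (seg w (w.length - c) (w.length - a)).reverse := by
  unfold seg
  rw [List.drop_reverse, List.take_reverse, List.length_take, List.drop_take]
  have e1 : min (w.length - a) w.length - (c - a) = w.length - c := by omega
  rw [e1]

/-- **the arms are pieces of the closed word** -/
theorem pcw_arm {x : W3 × ℕ} (hx : Spt x) (k : Arm) {a c : ℕ} (hac : a ≤ c) (hc : c ≤ (arcw x.2 k x.1).length) :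
    pcw x.1 (poA k x a) (poA k x c) = seg (arcw x.2 k x.1) a c := by
  have hm := hx.2.2
  have lt : (x.1.take x.2).length = x.2 := by rw [List.length_take, min_eq_left hm.le]
  have ld : (x.1.drop x.2).length = x.1.length - x.2 := List.length_drop
  cases k
  · rw [al_fp hm.le] at hc
    show pcw x.1 a c = seg (x.1.take x.2) a c
    rw [pcw_of_le hac, sg_take hc]
  · rw [al_bq hm.le] at hc
    show pcw x.1 (x.2 - a) (x.2 - c) = seg (x.1.take x.2).reverse a c
    rw [pcw_of_ge (by omega), sg_rev hac (by rw [lt]; exact hc), lt, sg_take (by omega)]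
  · show pcw x.1 (x.2 + a) (x.2 + c) = seg (x.1.drop x.2) a c
    rw [pcw_of_le (by omega), sg_drop]
  · rw [al_bp] at hc
    show pcw x.1 (x.1.length - a) (x.1.length - c) = seg (x.1.drop x.2).reverse a c
    rw [pcw_of_ge (by omega), sg_rev hac (by rw [ld]; exact hc), ld, sg_drop]
    have e1 : x.2 + (x.1.length - x.2 - c) = x.1.length - c := by omega
    have e2 : x.2 + (x.1.length - x.2 - a) = x.1.length - a := by omega
    rw [e1, e2]

/-! ### 2. The limits -/

section lim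

variable {U : Filter ℕ} {b : ℝ} {PG : Measure CC.Gm} {A : Arm → ℕ → W3 × ℕ → Prop} {c g : Arm → ℕ → W3 × ℕ → ℕ}
  {B : Arm → Set CC.Gm} {Pc Pg : Arm → CC.Gm → ℝ}

/-- **closed conditions of the gates of one arm**, with a further functional -/
theorem arm_mem [U.NeBot] (hU : U ≤ atTop) (hC : Cv U (fun N => mwE N b) cN PG) (hP : ∀ᵐ y ∂PG, 0 < y.1)
    (H : AIn U b PG A c g B Pc Pg) (k : Arm) {y : ℕ → W3 × ℕ → ℝ} {Y : CC.Gm → ℝ} (hy : Lm U (fun N => mwE N b) cN PG y Y)
    {F : C(I, ℂ) → ℝ → I → I → I → ℝ → ℝ}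
    (hF : Continuous fun z : C(I, ℂ) × ℝ × I × I × I × ℝ => F z.1 z.2.1 z.2.2.1 z.2.2.2.1 z.2.2.2.2.1 z.2.2.2.2.2)
    (hA : ∀ᶠ N : ℕ in U, ∀ x, Spt x → A k N x → F (crv x.1 x.1.length N) (x.1.length / uT N) (fr x.2 x.1.length)
      (fr (poA k x (c k N x)) x.1.length) (fr (poA k x (g k N x)) x.1.length) (y N x) ≤ 3 / N) :
    ∀ᵐ γ ∂PG, γ ∈ B k → F γ.2.2 γ.1 (pji (muG γ)) (pji (tmA k (muG γ) (Pc k γ))) (pji (tmA k (muG γ) (Pg k γ))) (Y γ) ≤ 0 := by
  have hW := wsy hU
  have hk1 : Lm U (fun N => mwE N b) cN PG (fun N x => tmA k (muN x) (bi (A k N x) * ((c k N x : ℝ) / (arcw x.2 k x.1).length)))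
      fun γ => tmA k (muG γ) (Pc k γ) := Lm.comp2 (f := fun s μ => tmA k μ s) hC (H.tc k) (lm_mu hC hP) (tmA_cont k)
  have hk2 : Lm U (fun N => mwE N b) cN PG (fun N x => tmA k (muN x) (bi (A k N x) * ((g k N x : ℝ) / (arcw x.2 k x.1).length)))
      fun γ => tmA k (muG γ) (Pg k γ) := Lm.comp2 (f := fun s μ => tmA k μ s) hC (H.tg k) (lm_mu hC hP) (tmA_cont k)
  have h1 := Ev.mem (κ := Fin 4) (p := fun N x j => (![muN x, tmA k (muN x) (bi (A k N x) * ((c k N x : ℝ) / (arcw x.2 k x.1).length)),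
      tmA k (muN x) (bi (A k N x) * ((g k N x : ℝ) / (arcw x.2 k x.1).length)), y N x] : Fin 4 → ℝ) j)
    (Φ := fun γ j => (![muG γ, tmA k (muG γ) (Pc k γ), tmA k (muG γ) (Pg k γ), Y γ] : Fin 4 → ℝ) j) hC (fun j => by
      fin_cases j
      · exact lm_mu hC hP
      · exact hk1
      · exact hk2
      · exact hy) (H.ev k)
    (F := fun z => F z.1.2.2 z.1.1 (pji (z.2 0)) (pji (z.2 1)) (pji (z.2 2)) (z.2 3))
    (by
      have h2 : Continuous fun z : CC.Gm × (Fin 4 → ℝ) =>
          (z.1.2.2, z.1.1, pji (z.2 0), pji (z.2 1), pji (z.2 2), z.2 3) := by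
        have q : ∀ j : Fin 4, Continuous fun z : CC.Gm × (Fin 4 → ℝ) => z.2 j := fun j => by fun_prop
        exact (by fun_prop : Continuous fun z : CC.Gm × (Fin 4 → ℝ) => z.1.2.2).prodMk
          ((by fun_prop : Continuous fun z : CC.Gm × (Fin 4 → ℝ) => z.1.1).prodMk
            ((pji_cont.comp (q 0)).prodMk ((pji_cont.comp (q 1)).prodMk ((pji_cont.comp (q 2)).prodMk (q 3)))))
      exact hF.comp h2)
    (fun δ hδ => by
      filter_upwards [hA, H.pos, hW.small hδ] with N g2 g3 g4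
      refine ⟨{x | ¬ Spt x}, MeasurableSet.of_discrete, ?_, fun x hx hL => ?_⟩
      · have h4 : mwE N b {x | ¬ Spt x} = 0 := spt_ae N b
        rw [measureReal_def, h4]
        exact hδ.le
      · have hs : Spt x := not_not.1 hx
        obtain ⟨-, -, a3, a4⟩ := g3 x hs k hL
        have e0 : pji (muN x) = fr x.2 x.1.length := by
          have : muN x = ((fr x.2 x.1.length : I) : ℝ) := by
            rw [fr_coe hs.2.2.le, muN_eq hs.2.2]
          rw [this, pji_coe]
        have e1 : pji (tmA k (muN x) (bi (A k N x) * ((c k N x : ℝ) / (arcw x.2 k x.1).length))) =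
            fr (poA k x (c k N x)) x.1.length := by
          rw [bi_pos hL, one_mul, tmA_po hs k (a3.trans a4), pji_coe]
        have e2 : pji (tmA k (muN x) (bi (A k N x) * ((g k N x : ℝ) / (arcw x.2 k x.1).length))) =
            fr (poA k x (g k N x)) x.1.length := by
          rw [bi_pos hL, one_mul, tmA_po hs k a4, pji_coe]
        refine le_trans (le_of_eq ?_) ((g2 x hs hL).trans g4.2)
        show F (crv x.1 x.1.length N) (x.1.length / uT N) (pji (muN x))
          (pji (tmA k (muN x) (bi (A k N x) * ((c k N x : ℝ) / (arcw x.2 k x.1).length))))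
          (pji (tmA k (muN x) (bi (A k N x) * ((g k N x : ℝ) / (arcw x.2 k x.1).length)))) (y N x) = _
        rw [e0, e1, e2])
  exact h1

end lim

/-! ### 3. The gates of one arm -/

/-- the other root = the end of the strand of the arm -/
def endI (k : Arm) (m : I) : I :=
  match k with
  | .fp => m
  | .bq => 0
  | .fq => 1
  | .bp => m

lemma endI_cont (k : Arm) : Continuous (endI k) := by
  cases k
  · exact continuous_id
  · exact continuous_const
  · exact continuous_const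
  · exact continuous_id

/-- closed conditions of the two gates of an arm: `r` = root, `c`, `x` = gates, `e` = end of the strand; thresholds `l`, `m`, ball `r1`
of root .. `c`, ball `r1'` of root .. `x`, balls `ρ1`, `ρ'` of the rest conditions -/
noncomputable def faF (d : ℂ) (l m r1 r1' ρ1 ρ' : ℝ) (g : C(I, ℂ)) (r c x e : I) : ℝ :=
  max (max (max (l - lv d (cutc g r c 1)) (stS (fun v => lv d v) (cutc g r c) - lv d (cutc g r c 1)))
    (max (m - lv d (cutc g c x 1)) (stS (fun v => lv d v) (cutc g r x) - lv d (cutc g r x 1))))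
    (max (max (reK d ρ1 g c e) (reK d ρ' g x e))
      (max (stS (fun v => ‖v‖) (cutc g r c) - r1) (stS (fun v => ‖v‖) (cutc g r x) - r1')))

lemma faF_cont {Z : Type*} [TopologicalSpace Z] {d : ℂ} (hd : ‖d‖ = 1) (m r1 r1' ρ1 ρ' : ℝ) {l : Z → ℝ} {g : Z → C(I, ℂ)}
    {r c x e : Z → I} (hl : Continuous l) (hg : Continuous g) (hr : Continuous r) (hc : Continuous c) (hx : Continuous x)
    (he : Continuous e) : Continuous fun z => faF d (l z) m r1 r1' ρ1 ρ' (g z) (r z) (c z) (x z) (e z) := by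
  unfold faF
  have h1 := (lv_continuous hd).comp (Continuous.cutc1 hg hr hc)
  have h2 := (lv_continuous hd).comp (Continuous.cutc1 hg hc hx)
  have h3 := (lv_continuous hd).comp (Continuous.cutc1 hg hr hx)
  exact (((hl.sub h1).max ((Continuous.stS' (lv_lip hd) (Continuous.cutc' hg hr hc)).sub h1)).max
    ((continuous_const.sub h2).max ((Continuous.stS' (lv_lip hd) (Continuous.cutc' hg hr hx)).sub h3))).max
    (((Continuous.reK hd ρ1 hg hc he).max (Continuous.reK hd ρ' hg hx he)).max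
      (((Continuous.stS' lip_norm (Continuous.cutc' hg hr hc)).sub continuous_const).max
        ((Continuous.stS' lip_norm (Continuous.cutc' hg hr hx)).sub continuous_const)))

/-- every point of a piece, any reading direction -/
lemma bt_all {g : C(I, ℂ)} {a b : I} {p : ℂ → Prop} (h : ∀ s : I, p (cutc g a b s)) : ∀ u, BtI a u b → p (g u - g a) := by
  rcases le_total a b with hab | hab
  · have h1 := (cutc_all hab).1 h
    intro u hu
    obtain ⟨h2, h3⟩ := hu.of_le hab
    exact h1 u h2 h3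
  · have h1 := (cutc_all' hab).1 h
    intro u hu
    obtain ⟨h2, h3⟩ := hu.comm.of_le hab
    exact h1 u h2 h3

/-- **closed conditions of the gates of one arm** -/
structure FaI (d : ℂ) (l m r1 r1' ρ1 ρ' : ℝ) (g : C(I, ℂ)) (r c x e : I) : Prop where
  l : l ≤ lv d (g c - g r)
  m : m ≤ lv d (g x - g c)
  t0 : ∀ u, BtI r u c → lv d (g u) ≤ lv d (g c)
  t1 : ∀ u, BtI r u x → lv d (g u) ≤ lv d (g x)
  rc : RtI d ρ1 g c e
  rx : RtI d ρ' g x e
  b0 : ∀ u, BtI r u c → ‖g u - g r‖ ≤ r1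
  b1 : ∀ u, BtI r u x → ‖g u - g r‖ ≤ r1'

lemma faI_of {d : ℂ} (hd : ‖d‖ = 1) {l m r1 r1' ρ1 ρ' : ℝ} {g : C(I, ℂ)} {r c x e : I} (h : faF d l m r1 r1' ρ1 ρ' g r c x e ≤ 0) :
    FaI d l m r1 r1' ρ1 ρ' g r c x e := by
  unfold faF at h
  obtain ⟨⟨⟨h1, h2⟩, ⟨h3, h4⟩⟩, ⟨⟨h5, h6⟩, ⟨h7, h8⟩⟩⟩ : ((_ ≤ (0 : ℝ) ∧ _ ≤ (0 : ℝ)) ∧ (_ ≤ (0 : ℝ) ∧ _ ≤ (0 : ℝ))) ∧
      ((_ ≤ (0 : ℝ) ∧ _ ≤ (0 : ℝ)) ∧ (_ ≤ (0 : ℝ) ∧ _ ≤ (0 : ℝ))) := by
    simpa only [max_le_iff] using h
  rw [cutc_one, sub_nonpos] at h1 h3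
  rw [cutc_one, sub_nonpos, stS_le_iff (lv_continuous hd)] at h2 h4
  rw [sub_nonpos, stS_le_iff continuous_norm] at h7 h8
  unfold reK at h5 h6
  rw [stS_le_iff (reK_lip hd ρ1).continuous] at h5
  rw [stS_le_iff (reK_lip hd ρ').continuous] at h6
  refine ⟨h1, h3, fun u hu => ?_, fun u hu => ?_, fun u hu => ?_, fun u hu => ?_, bt_all (p := fun v => ‖v‖ ≤ r1) h7,
    bt_all (p := fun v => ‖v‖ ≤ r1') h8⟩
  · have := bt_all (p := fun v => lv d v ≤ lv d (g c - g r)) h2 u hu
    rw [lv_sub, lv_sub] at this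
    linarith
  · have := bt_all (p := fun v => lv d v ≤ lv d (g x - g r)) h4 u hu
    rw [lv_sub, lv_sub] at this
    linarith
  · have := bt_all (p := fun v => min (-lv d v) (ρ1 - ‖v‖) ≤ 0) h5 u hu
    rcases min_le_iff.1 this with h | h
    · exact Or.inl (by linarith)
    · exact Or.inr (by linarith)
  · have := bt_all (p := fun v => min (-lv d v) (ρ' - ‖v‖) ≤ 0) h6 u hu
    rcases min_le_iff.1 this with h | h
    · exact Or.inl (by linarith)
    · exact Or.inr (by linarith)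

/-- **the foreign gates**: the ball of `c` .. `x` gives `FgI` -/
lemma FaI.fg {d : ℂ} {E : Tp} {r1 r1' ρ1 ρ' : ℝ} {g : C(I, ℂ)} {r c x e : I} (h : FaI d E.l E.m r1 r1' ρ1 ρ' g r c x e)
    (ho : BtI r c x) (hx : BtI c x e) (hb : ∀ u, BtI c u x → ‖g u - g c‖ < ρ1) : FgI d E g r c x := by
  refine ⟨h.l, h.m, h.t0, fun u hu => ?_, fun u hu => h.t1 u ?_⟩
  · have hu' : BtI c u e := by
      rcases hu with hu | hu <;> rcases hx with hx | hx
      · exact Or.inl ⟨hu.1, hu.2.trans hx.2⟩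
      · have e1 : c = x := le_antisymm (hu.1.trans hu.2) hx.2
        subst e1
        have e2 : u = c := le_antisymm hu.2 hu.1
        subst e2
        exact Or.inr ⟨hx.1, le_rfl⟩
      · have e1 : c = x := le_antisymm hx.1 (hu.1.trans hu.2)
        subst e1
        have e2 : u = c := le_antisymm hu.2 hu.1
        subst e2
        exact Or.inl ⟨le_rfl, hx.2⟩
      · exact Or.inr ⟨hx.1.trans hu.1, hu.2⟩
    rcases h.rc u hu' with h1 | h1
    · rw [lv_sub] at h1
      linarith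
    · exact absurd (hb u hu) (not_lt.2 h1)
  · rcases ho with ho | ho
    · obtain ⟨h1, h2⟩ := hu.of_le ho.2
      exact Or.inl ⟨ho.1.trans h1, h2⟩
    · obtain ⟨h1, h2⟩ := hu.comm.of_le ho.1
      exact Or.inr ⟨h1, h2.trans ho.2⟩

/-! ### 4. Words -/

lemma endI_fr (k : Arm) {x : W3 × ℕ} (hx : Spt x) :
    endI k (fr x.2 x.1.length) = fr (poA k x (arcw x.2 k x.1).length) x.1.length := by
  have hm := hx.2.2
  cases k
  · show fr x.2 x.1.length = fr (arcw x.2 .fp x.1).length x.1.length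
    rw [al_fp hm.le]
  · show (0 : I) = fr (x.2 - (arcw x.2 .bq x.1).length) x.1.length
    rw [al_bq hm.le, Nat.sub_self, fr_zero]
  · show (1 : I) = fr (x.2 + (arcw x.2 .fq x.1).length) x.1.length
    rw [al_fq, show x.2 + (x.1.length - x.2) = x.1.length by omega, fr_self (by omega)]
  · show fr x.2 x.1.length = fr (x.1.length - (arcw x.2 .bp x.1).length) x.1.length
    rw [al_bp, show x.1.length - (x.1.length - x.2) = x.2 by omega]

lemma rpA_po (k : Arm) (x : W3 × ℕ) : rpA k x = poA k x 0 := by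
  cases k <;> rfl

lemma arcw_even {x : W3 × ℕ} (hx : Spt x) (k : Arm) : Even (arcw x.2 k x.1).length := by
  obtain ⟨hcl, em, hm⟩ := hx
  cases k
  · rw [al_fp hm.le]
    exact em
  · rw [al_bq hm.le]
    exact em
  · rw [al_fq]
    exact hcl.1.tsub em
  · rw [al_bp]
    exact hcl.1.tsub em

/-- **the closed conditions on the words** -/
theorem fa_word {x : W3 × ℕ} (hx : Spt x) (k : Arm) {d : ℂ} (hd : ‖d‖ = 1) {l m r1 r1' ρ1 ρ' S : ℝ} (hS : 0 < S) {c b : ℕ}
    (hcb : c ≤ b) (g1 : GW d (l * S) (r1 * S) (ρ1 * S) (arcw x.2 k x.1) c)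
    (g2 : GW d (lv d (ps (arcw x.2 k x.1) c) + m * S) (r1' * S) (ρ' * S) (arcw x.2 k x.1) b) :
    faF d l m r1 r1' ρ1 ρ' (crv x.1 x.1.length S) (rtI k (fr x.2 x.1.length)) (fr (poA k x c) x.1.length)
      (fr (poA k x b) x.1.length) (endI k (fr x.2 x.1.length)) ≤ 1 / S := by
  obtain ⟨u, hu⟩ : ∃ u, u = arcw x.2 k x.1 := ⟨_, rfl⟩
  have hm := hx.2.2
  have hn1 : 1 ≤ x.1.length := by omega
  rw [rtI_fr k hn1, rpA_po, endI_fr k hx]
  have el := arcw_even hx k
  have po := fun {a : ℕ} (ha : a ≤ (arcw x.2 k x.1).length) => poA_le hx k ha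
  have pe := fun {a : ℕ} (ha : Even a) => poA_ev hx k ha
  have pa := fun {a c : ℕ} (hac : a ≤ c) (hc : c ≤ (arcw x.2 k x.1).length) => pcw_arm hx k hac hc
  rw [← hu] at g1 g2 el po pa ⊢
  have ec := g1.g.ev
  have eb := g2.g.ev
  have hc := g1.g.le
  have hb := g2.g.le
  have lp : ∀ {a c : ℕ}, a ≤ c → c ≤ u.length → (seg u a c).length = c - a := fun {a c} hac hc => by
    unfold seg
    rw [List.length_take, List.length_drop]
    omega
  have vp : ∀ {a c : ℕ}, Even a → a ≤ c → c ≤ u.length → ∀ j, j ≤ c - a → ps (seg u a c) j = ps u (a + j) - ps u a :=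
    fun {a c} ea hac hc j hj => ps_seg ea hac hc hj
  have ep : ∀ {a c : ℕ}, Even a → a ≤ c → c ≤ u.length → en (seg u a c) = ps u c - ps u a := fun {a c} ea hac hc => by
    rw [en, lp hac hc, vp ea hac hc _ le_rfl, Nat.add_sub_cancel' hac]
  have h1 : ((1 : ℝ≥0) : ℝ) / S ≤ 1 / S := by rw [NNReal.coe_one]
  have hη : 0 ≤ 1 / S := by positivity
  have v1 : ∀ {a c : ℕ}, Even a → Even c → a ≤ c → c ≤ u.length →
      lv d (cutc (crv x.1 x.1.length S) (fr (poA k x a) x.1.length) (fr (poA k x c) x.1.length) 1) =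
        (lv d (ps u c) - lv d (ps u a)) / S := fun {a c} ea ec hac hc => by
    rw [lv_cut1 (pe ea) (pe ec) (po (hac.trans hc)) (po hc) le_rfl, pa hac hc, ep ea hac hc, lv_sub]
  have ps0 : ps u 0 = 0 := ps_zero u
  have lv0 : lv d (ps u 0) = 0 := by rw [ps0]; simp [lv]
  unfold faF
  rw [v1 Even.zero ec (Nat.zero_le _) hc, v1 ec eb hcb hb, v1 Even.zero eb (Nat.zero_le _) hb, lv0, sub_zero, sub_zero]
  refine max_le (max_le (max_le ?_ ?_) (max_le ?_ ?_)) (max_le (max_le ?_ ?_) (max_le ?_ ?_))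
  · have : l ≤ lv d (ps u c) / S := by
      rw [le_div_iff₀ hS]
      exact g1.g.lev
    linarith
  · have := sq_dn (w := x.1) (n := x.1.length) (lv_lip hd) (a := lv d (ps u c) / S) (pe Even.zero) (pe ec) (po (Nat.zero_le _))
      (po hc) le_rfl hS h1 fun j hj => by
        rw [pa (Nat.zero_le _) hc] at hj ⊢
        rw [lp (Nat.zero_le _) hc] at hj
        rw [stlv_div, vp Even.zero (Nat.zero_le _) hc j hj, ps0, sub_zero, Nat.zero_add]
        exact div_le_div_of_nonneg_right (g1.g.left j (by omega)) hS.le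
    linarith
  · have : m ≤ (lv d (ps u b) - lv d (ps u c)) / S := by
      rw [le_div_iff₀ hS]
      have := g2.g.lev
      linarith
    linarith
  · have := sq_dn (w := x.1) (n := x.1.length) (lv_lip hd) (a := lv d (ps u b) / S) (pe Even.zero) (pe eb) (po (Nat.zero_le _))
      (po hb) le_rfl hS h1 fun j hj => by
        rw [pa (Nat.zero_le _) hb] at hj ⊢
        rw [lp (Nat.zero_le _) hb] at hj
        rw [stlv_div, vp Even.zero (Nat.zero_le _) hb j hj, ps0, sub_zero, Nat.zero_add]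
        exact div_le_div_of_nonneg_right (g2.g.left j (by omega)) hS.le
    linarith
  · refine restC_le (w := x.1) (n := x.1.length) hd (pe ec) (pe el) (po hc) (po le_rfl) le_rfl hS ?_
    rw [pa hc le_rfl]
    have e1 : seg u c u.length = u.drop c := by
      unfold seg
      exact List.take_of_length_le (by rw [List.length_drop])
    rw [e1]
    exact g1.rest
  · refine restC_le (w := x.1) (n := x.1.length) hd (pe eb) (pe el) (po hb) (po le_rfl) le_rfl hS ?_
    rw [pa hb le_rfl]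
    have e1 : seg u b u.length = u.drop b := by
      unfold seg
      exact List.take_of_length_le (by rw [List.length_drop])
    rw [e1]
    exact g2.rest
  · have := sq_dn (w := x.1) (n := x.1.length) lip_norm (a := r1) (pe Even.zero) (pe ec) (po (Nat.zero_le _))
      (po hc) le_rfl hS h1 fun j hj => by
        rw [pa (Nat.zero_le _) hc] at hj ⊢
        rw [lp (Nat.zero_le _) hc] at hj
        rw [← ball_iff hS, vp Even.zero (Nat.zero_le _) hc j hj, Nat.zero_add]
        exact g1.dm j 0 (by omega) (Nat.zero_le _)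
    linarith
  · have := sq_dn (w := x.1) (n := x.1.length) lip_norm (a := r1') (pe Even.zero) (pe eb) (po (Nat.zero_le _))
      (po hb) le_rfl hS h1 fun j hj => by
        rw [pa (Nat.zero_le _) hb] at hj ⊢
        rw [lp (Nat.zero_le _) hb] at hj
        rw [← ball_iff hS, vp Even.zero (Nat.zero_le _) hb j hj, Nat.zero_add]
        exact g2.dm j 0 (by omega) (Nat.zero_le _)
    linarith

/-- **the gates of the strand on the words** -/
theorem sg_gw {D : Dt} {K : Arm → GP} {T : Arm → LSym} (hG : GOk D K T) {k : Arm} {p S : ℝ}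
    (h1 : 1 ≤ (K k).ρ1 * S) (h2 : 1 ≤ (K k).ρ' * S) {x : W3 × ℕ} (h : sgE (K k) (T k) p S k x) :
    GW (D.gdr k) (((D.gtp k).l + p) * S) ((K k).r1 * S) ((K k).ρ1 * S) (arcw x.2 k x.1) (sgc (K k) (T k) p S k x) ∧
      GW (D.gdr k) (lv (D.gdr k) (ps (arcw x.2 k x.1) (sgc (K k) (T k) p S k x)) + (D.gtp k).m * S) ((K k).r1' * S)
        ((D.gtp k).rg * S) (arcw x.2 k x.1) (sgx (K k) (T k) p S k x) := by
  obtain ⟨y, t⟩ := sg_spec h
  have hv : arcw x.2 k (mp (T k) x.1) = mp (T k) (arcw x.2 k x.1) := arcw_mp _ _ _ _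
  have hT := hG.t k
  have g1 := (tp_gwb (u := arcw x.2 k x.1) hT hv h1).1 t.gx.1
  have g2 := (tp_gwb (u := arcw x.2 k x.1) hT hv h2).1 t.gx.2
  rw [gt_re hT hv, add_comm, (hG.g k).m, (hG.g k).ρ'] at g2
  rw [← add_mul, (hG.g k).l] at g1
  exact ⟨g1, g2⟩

/-! ### 5. The limits of the gates of one arm -/

section fin

variable {U : Filter ℕ} {b : ℝ} {PG : Measure CC.Gm} {A : Arm → ℕ → W3 × ℕ → Prop} {c g : Arm → ℕ → W3 × ℕ → ℕ}
  {B : Arm → Set CC.Gm} {Pc Pg : Arm → CC.Gm → ℝ}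

/-- **the times of the gates are in the arm, in order** -/
theorem arm_un [U.NeBot] (hC : Cv U (fun N => mwE N b) cN PG) (H : AIn U b PG A c g B Pc Pg) (k : Arm) :
    ∀ᵐ γ ∂PG, γ ∈ B k → 0 ≤ Pc k γ ∧ Pc k γ ≤ Pg k γ ∧ Pg k γ ≤ 1 := by
  have h1 := Ev.mem (κ := Fin 2) (p := fun N x j => (![bi (A k N x) * ((c k N x : ℝ) / (arcw x.2 k x.1).length),
      bi (A k N x) * ((g k N x : ℝ) / (arcw x.2 k x.1).length)] : Fin 2 → ℝ) j)
    (Φ := fun γ j => (![Pc k γ, Pg k γ] : Fin 2 → ℝ) j) hC (fun j => by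
      fin_cases j
      · exact H.tc k
      · exact H.tg k) (H.ev k)
    (F := fun z => max (-z.2 0) (max (z.2 0 - z.2 1) (z.2 1 - 1))) (by fun_prop) (fun δ hδ => by
      filter_upwards [H.pos] with N g3
      refine ⟨{x | ¬ Spt x}, MeasurableSet.of_discrete, ?_, fun x hx hL => ?_⟩
      · have h4 : mwE N b {x | ¬ Spt x} = 0 := spt_ae N b
        rw [measureReal_def, h4]
        exact hδ.le
      · obtain ⟨-, -, a3, a4⟩ := g3 x (not_not.1 hx) k hL
        show max (-(bi (A k N x) * ((c k N x : ℝ) / (arcw x.2 k x.1).length)))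
          (max (bi (A k N x) * ((c k N x : ℝ) / (arcw x.2 k x.1).length) -
            bi (A k N x) * ((g k N x : ℝ) / (arcw x.2 k x.1).length))
            (bi (A k N x) * ((g k N x : ℝ) / (arcw x.2 k x.1).length) - 1)) ≤ δ
        rw [bi_pos hL, one_mul, one_mul]
        have e1 : (0 : ℝ) ≤ (c k N x : ℝ) / (arcw x.2 k x.1).length := by positivity
        have e2 : (c k N x : ℝ) / (arcw x.2 k x.1).length ≤ (g k N x : ℝ) / (arcw x.2 k x.1).length :=
          div_le_div_of_nonneg_right (by exact_mod_cast a3) (Nat.cast_nonneg _)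
        have e3 : (g k N x : ℝ) / (arcw x.2 k x.1).length ≤ 1 := by
          rcases Nat.eq_zero_or_pos (arcw x.2 k x.1).length with h0 | h0
          · rw [h0, Nat.cast_zero, div_zero]
            exact zero_le_one
          · rw [div_le_one (by exact_mod_cast h0)]
            exact_mod_cast a4
        exact max_le (by linarith) (max_le (by linarith) (by linarith)))
  filter_upwards [h1] with γ hγ hB
  obtain ⟨q1, q2, q3⟩ : -Pc k γ ≤ 0 ∧ Pc k γ - Pg k γ ≤ 0 ∧ Pg k γ - 1 ≤ 0 := by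
    have : max (-Pc k γ) (max (Pc k γ - Pg k γ) (Pg k γ - 1)) ≤ 0 := hγ hB
    simpa only [max_le_iff] using this
  exact ⟨by linarith, by linarith, by linarith⟩

/-- **(E3)** closed conditions of the gates of one arm -/
theorem arm_fa [U.NeBot] (hU : U ≤ atTop) (hC : Cv U (fun N => mwE N b) cN PG) (hP : ∀ᵐ y ∂PG, 0 < y.1) {D : Dt} {K : Arm → GP}
    {T : Arm → LSym} (ok : GOk D K T) {c0 : ℝ} {y : Arm → ℕ → W3 × ℕ → ℝ}
    (H : AIn U b PG (gA c0 K T y) (gC K T y) (gX K T y) B Pc Pg) (k : Arm) (hd : ‖D.gdr k‖ = 1) (h1 : 0 < (K k).ρ1)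
    (h2 : 0 < (K k).ρ') {Y : CC.Gm → ℝ} (hy : Lm U (fun N => mwE N b) cN PG (y k) Y) :
    ∀ᵐ γ ∂PG, γ ∈ B k → FaI (D.gdr k) ((D.gtp k).l + Y γ) (D.gtp k).m (K k).r1 (K k).r1' (K k).ρ1 (D.gtp k).rg γ.2.2
      (rtI k (pji (muG γ))) (pji (tmA k (muG γ) (Pc k γ))) (pji (tmA k (muG γ) (Pg k γ))) (endI k (pji (muG γ))) := by
  have key := arm_mem hU hC hP H k hy (F := fun g _ m a b y => faF (D.gdr k) ((D.gtp k).l + y) (D.gtp k).m (K k).r1 (K k).r1'
    (K k).ρ1 (D.gtp k).rg g (rtI k m) a b (endI k m)) ?_ ?_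
  · filter_upwards [key] with γ hγ hB
    exact faI_of hd (hγ hB)
  · exact faF_cont hd _ _ _ _ _ (by fun_prop) (by fun_prop) ((rtI_cont k).comp (by fun_prop)) (by fun_prop) (by fun_prop)
      ((endI_cont k).comp (by fun_prop))
  · have e1 : ∀ᶠ N : ℕ in U, 1 ≤ (K k).ρ1 * N := by
      have : Tendsto (fun N : ℕ => (K k).ρ1 * (N : ℝ)) atTop atTop := tendsto_natCast_atTop_atTop.const_mul_atTop h1
      exact hU (this.eventually_ge_atTop 1)
    have e2 : ∀ᶠ N : ℕ in U, 1 ≤ (K k).ρ' * N := by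
      have : Tendsto (fun N : ℕ => (K k).ρ' * (N : ℝ)) atTop atTop := tendsto_natCast_atTop_atTop.const_mul_atTop h2
      exact hU (this.eventually_ge_atTop 1)
    filter_upwards [e1, e2, hU (eventually_ge_atTop 1), H.pos] with N g1 g2 hN g3 x hx hA
    have hN' : (0 : ℝ) < N := by exact_mod_cast hN
    obtain ⟨w1, w2⟩ := sg_gw (p := y k N x) (S := N) ok g1 g2 hA.2
    obtain ⟨-, -, a3, -⟩ := g3 x hx k hA
    refine (fa_word hx k hd hN' a3 w1 w2).trans ?_
    exact div_le_div_of_nonneg_right (by norm_num) hN'.le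

end fin

end Pool.Agent.ROT.F3.CK
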