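import Pool.Agent.ROT.F3CoreL

/-!
# ROT, F3, row Core / NUL (helper68): marks with variable threshold as a monotone limit

For all sides `n` of the cells at the first root and `n'` at the second root the part of the marks whose thresholds are in free cells is an
exact sum over the cells (`MarkOf`); these parts increase to the marks with variable threshold.

* `lev_prods` : `lev_prod` for many test functions, the same for all pairs;
* **`mark_denM`**, **`mark_denPM`** : `Den` and `DenP` for the monotone limit.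
-/

set_option autoImplicit false
set_option linter.unusedSectionVars false

open MeasureTheory Set Filter Topology TopologicalSpace ProbabilityTheory

open scoped ENNReal NNReal

namespace Pool.Agent.ROT.F3

section ker

variable {K1 K2 X Z W : Type*} [PseudoEMetricSpace K1] [MeasurableSpace K1] [BorelSpace K1] [StandardBorelSpace K1] [Nonempty K1]
  [PseudoEMetricSpace K2] [MeasurableSpace K2] [BorelSpace K2] [StandardBorelSpace K2] [Nonempty K2]
  [SecondCountableTopology K1] [SecondCountableTopology K2]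
  [MeasurableSpace X] [MeasurableSpace Z] [MeasurableSpace W] {ρ : ℕ → ℕ → Measure ((K1 × K2) × X)}
  [∀ i j, IsFiniteMeasure (ρ i j)] {μ : Measure X} [SigmaFinite μ] {D : Set X} {pz : X → Z} {pw : X → W}
  {g : ℕ → (K1 → ℝ) → Z → ℝ≥0∞} {h : ℕ → (K2 → ℝ) → W → ℝ≥0∞}

/-- **product form, for many test functions at once** -/
theorem lev_prods (hD : MeasurableSet D) (hz : Measurable pz) (hw : Measurable pw) (hg : ∀ i e, TF e → Measurable (g i e))
    (hh : ∀ j e, TF e → Measurable (h j e))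
    (hyp : ∀ i j, ∀ (e : K1 → ℝ) (e' : K2 → ℝ), TF e → TF e' → ∀ S : Set X, MeasurableSet S → S ⊆ D →
      ∫⁻ x in Prod.snd ⁻¹' S, ENNReal.ofReal (e x.1.1 * e' x.1.2) ∂(ρ i j) = ∫⁻ x in S, g i e (pz x) * h j e' (pw x) ∂μ)
    {Φ : ℕ → ℕ → K1 → ℝ≥0∞} (hΦ : ∀ n i, Measurable (Φ n i)) {Ψ : ℕ → ℕ → K2 → ℝ≥0∞} (hΨ : ∀ n i, Measurable (Ψ n i)) :
    ∃ (G : ℕ → Z → ℝ≥0∞) (H : ℕ → W → ℝ≥0∞), (∀ n, Measurable (G n)) ∧ (∀ n, Measurable (H n)) ∧
      ∀ n n', ∀ S : Set X, MeasurableSet S → S ⊆ D →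
      ∑' i, ∑' j, ∫⁻ x in Prod.snd ⁻¹' S, Φ n i x.1.1 * Ψ n' j x.1.2 ∂(ρ i j) = ∫⁻ x in S, G n (pz x) * H n' (pw x) ∂μ := by
  obtain ⟨a, g1, h1, κ, κ', a0, at', mg, mh, k1, k2, key⟩ := lev_ker hD hz hw hg hh hyp
  obtain ⟨F, hF⟩ : ∃ F : ℕ → ℕ × K1 → ℝ≥0∞, F = fun n k => (a k.1)⁻¹ * Φ n k.1 k.2 := ⟨_, rfl⟩
  obtain ⟨F', hF'⟩ : ∃ F' : ℕ → ℕ × K2 → ℝ≥0∞, F' = fun n k => (a k.1)⁻¹ * Ψ n k.1 k.2 := ⟨_, rfl⟩
  have mF : ∀ n, Measurable (F n) := fun n => by
    rw [hF]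
    refine measurable_from_prod_countable_right fun p => ?_
    exact (hΦ n p).const_mul (a p)⁻¹
  have mF' : ∀ n, Measurable (F' n) := fun n => by
    rw [hF']
    refine measurable_from_prod_countable_right fun p => ?_
    exact (hΨ n p).const_mul (a p)⁻¹
  refine ⟨fun n z => g1 z * ∫⁻ k, F n k ∂(κ z), fun n w => h1 w * ∫⁻ k, F' n k ∂(κ' w),
    fun n => mg.mul (mF n).lintegral_kernel, fun n => mh.mul (mF' n).lintegral_kernel, fun n n' S hS hSD => ?_⟩
  have h2 := key S hS hSD (fun k => F n k.1 * F' n' k.2) (((mF n).comp measurable_fst).mul ((mF' n').comp measurable_snd))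
  have h3 : ∀ x, (g1 (pz x) * h1 (pw x)) * ∫⁻ k, F n k.1 * F' n' k.2 ∂((κ (pz x)).prod (κ' (pw x))) =
      g1 (pz x) * (∫⁻ k, F n k ∂(κ (pz x))) * (h1 (pw x) * ∫⁻ k, F' n' k ∂(κ' (pw x))) := fun x => by
    rw [lintegral_prod_mul (mF n).aemeasurable (mF' n').aemeasurable]
    ring
  simp only [h3] at h2
  rw [← h2]
  refine tsum_congr fun i => tsum_congr fun j => ?_
  have m1 : Measurable fun x : (K1 × K2) × X => Φ n i x.1.1 * Ψ n' j x.1.2 :=
    ((hΦ n i).comp (measurable_fst.comp measurable_fst)).mul ((hΨ n' j).comp (measurable_snd.comp measurable_fst))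
  have c2 : ∫⁻ x in Prod.snd ⁻¹' S, F n (i, x.1.1) * F' n' (j, x.1.2) ∂(ρ i j) =
      ((a i)⁻¹ * (a j)⁻¹) * ∫⁻ x in Prod.snd ⁻¹' S, Φ n i x.1.1 * Ψ n' j x.1.2 ∂(ρ i j) := by
    rw [hF, hF', ← lintegral_const_mul _ m1]
    refine lintegral_congr fun x => ?_
    ring
  show _ = a i * a j * ∫⁻ x in Prod.snd ⁻¹' S, F n (i, x.1.1) * F' n' (j, x.1.2) ∂(ρ i j)
  rw [c2, ← mul_assoc]
  have c3 : a i * a j * ((a i)⁻¹ * (a j)⁻¹) = 1 := by
    calc a i * a j * ((a i)⁻¹ * (a j)⁻¹) = (a i * (a i)⁻¹) * (a j * (a j)⁻¹) := by ring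
      _ = 1 := by rw [ENNReal.mul_inv_cancel (a0 i) (at' i), ENNReal.mul_inv_cancel (a0 j) (at' j), one_mul]
  rw [c3, one_mul]

end ker

/-! ### monotone limits of densities -/

section mono

variable {X : Type*} [MeasurableSpace X] {μ : Measure X} [SigmaFinite μ] {D : Set X}

/-- order of densities on `D` -/
lemma den_ae_le (hD : MeasurableSet D) {f f' : X → ℝ≥0∞} (hf : Measurable f)
    (h : ∀ S : Set X, MeasurableSet S → S ⊆ D → ∫⁻ x in S, f x ∂μ ≤ ∫⁻ x in S, f' x ∂μ) : ∀ᵐ x ∂(μ.restrict D), f x ≤ f' x := by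
  refine ae_le_of_forall_setLIntegral_le_of_sigmaFinite hf fun S hS _ => ?_
  rw [Measure.restrict_restrict hS]
  exact h _ (hS.inter hD) inter_subset_right

/-- supremum of increasing densities on `D` -/
lemma denM_iSup {f : ℕ → X → ℝ≥0∞} (hf : ∀ n, Measurable (f n)) (h : ∀ n, ∀ᵐ x ∂(μ.restrict D), f n x ≤ f (n + 1) x)
    {S : Set X} (hSD : S ⊆ D) : ∫⁻ x in S, ⨆ n, f n x ∂μ = ⨆ n, ∫⁻ x in S, f n x ∂μ :=
  lintegral_iSup_ae hf fun n => ae_restrict_of_ae_restrict_of_subset hSD (h n)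

end mono

/-! ### marks with a variable threshold -/

section mark

variable {Γ Kp Kq A B E : Type*} [MeasurableSpace Γ] [PseudoEMetricSpace Kp] [MeasurableSpace Kp] [BorelSpace Kp]
  [StandardBorelSpace Kp] [Nonempty Kp] [SecondCountableTopology Kp] [PseudoEMetricSpace Kq] [MeasurableSpace Kq] [BorelSpace Kq]
  [StandardBorelSpace Kq] [Nonempty Kq] [SecondCountableTopology Kq] [MeasurableSpace A] [MeasurableSpace B]
  [MeasurableSpace E] {P : Measure Γ} {w : ℕ → ℕ → Γ → ℝ≥0∞}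
  {m : ℕ → ℕ → Γ → (Kp × Kq) × (A × (B × E))} {wR : ℕ → ℕ → Γ → ℝ≥0∞} {wF : Γ → ℝ≥0∞}
  {mR : Γ → (Kp × Kq) × (A × (B × E))} {Ep : ℕ → ℕ → Set Kp} {Eq' : ℕ → ℕ → Set Kq} {μ : Measure (A × (B × E))}

/-- integrals over the monotone limit -/
lemma mark_iSup (kw : ∀ n n', Measurable (wR n n')) (kF : Measurable wF) (km : Measurable mR)
    (hi : ∀ n n', ∀ᵐ g ∂P, wR n n' g ≤ wR (n + 1) n' g) (hi' : ∀ n n', ∀ᵐ g ∂P, wR n n' g ≤ wR n (n' + 1) g)
    (hs : ∀ᵐ g ∂P, wF g = ⨆ n, wR n n g) {F : (Kp × Kq) × (A × (B × E)) → ℝ≥0∞} (hF : Measurable F)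
    {S : Set (A × (B × E))} (hS : MeasurableSet S) :
    ∫⁻ x in Prod.snd ⁻¹' S, F x ∂((P.withDensity wF).map mR) =
      ⨆ n, ∫⁻ x in Prod.snd ⁻¹' S, F x ∂((P.withDensity (wR n n)).map mR) := by
  have hS' : MeasurableSet (Prod.snd ⁻¹' S : Set ((Kp × Kq) × (A × (B × E)))) := measurable_snd hS
  have mf : Measurable fun g => (Prod.snd ⁻¹' S).indicator F (mR g) := (hF.indicator hS').comp km
  have l1 : ∀ {v : Γ → ℝ≥0∞}, Measurable v → ∫⁻ x in Prod.snd ⁻¹' S, F x ∂((P.withDensity v).map mR) =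
      ∫⁻ g, v g * (Prod.snd ⁻¹' S).indicator F (mR g) ∂P := fun hv => by
    rw [← lintegral_indicator hS', wd_map hv km (hF.indicator hS')]
  rw [l1 kF]
  simp only [fun n => l1 (kw n n)]
  have e := lintegral_iSup_ae (μ := P) (f := fun n g => wR n n g * (Prod.snd ⁻¹' S).indicator F (mR g))
    (fun n => (kw n n).mul mf) fun n => by
      filter_upwards [hi n n, hi' (n + 1) n] with g g1 g2
      exact mul_le_mul' (g1.trans g2) le_rfl
  rw [← e]
  refine lintegral_congr_ae ?_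
  filter_upwards [hs] with g hg
  rw [hg, ENNReal.iSup_mul]

/-- integrals increase -/
lemma mark_le {v v' : Γ → ℝ≥0∞} (kv : Measurable v) (kv' : Measurable v') (km : Measurable mR) (h : ∀ᵐ g ∂P, v g ≤ v' g)
    {F : (Kp × Kq) × (A × (B × E)) → ℝ≥0∞} (hF : Measurable F) {S : Set (A × (B × E))} (hS : MeasurableSet S) :
    ∫⁻ x in Prod.snd ⁻¹' S, F x ∂((P.withDensity v).map mR) ≤ ∫⁻ x in Prod.snd ⁻¹' S, F x ∂((P.withDensity v').map mR) := by
  have hS' : MeasurableSet (Prod.snd ⁻¹' S : Set ((Kp × Kq) × (A × (B × E)))) := measurable_snd hS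
  rw [← lintegral_indicator hS', wd_map kv km (hF.indicator hS'), ← lintegral_indicator hS', wd_map kv' km (hF.indicator hS')]
  refine lintegral_mono_ae ?_
  filter_upwards [h] with g hg
  exact mul_le_mul' hg le_rfl

variable [AddCommGroup E] [MeasurableAdd₂ E] [MeasurableNeg E] [∀ i j, IsFiniteMeasure ((P.withDensity (w i j)).map (m i j))]
  [SigmaFinite μ] {D : Set (A × (B × E))} {y1 : A → E} {y2 : B → E} {g : ℕ → (Kp → ℝ) → E → ℝ≥0∞}
  {h : ℕ → (Kq → ℝ) → E → ℝ≥0∞}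

/-- **`Den` for the monotone limit** -/
theorem mark_denM (hw : ∀ i j, Measurable (w i j)) (hm : ∀ i j, Measurable (m i j)) (kw : ∀ n n', Measurable (wR n n'))
    (kF : Measurable wF) (km : Measurable mR) (hEp : ∀ n i, MeasurableSet (Ep n i)) (hEq : ∀ n i, MeasurableSet (Eq' n i))
    (hmk : ∀ n n', MarkOf P w m (Ep n) (Eq' n') (wR n n') mR)
    (hi : ∀ n n', ∀ᵐ g ∂P, wR n n' g ≤ wR (n + 1) n' g) (hi' : ∀ n n', ∀ᵐ g ∂P, wR n n' g ≤ wR n (n' + 1) g)
    (hs : ∀ᵐ g ∂P, wF g = ⨆ n, wR n n g)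
    (hD : MeasurableSet D) (h1 : Measurable y1) (h2 : Measurable y2) (hg : ∀ i e, TF e → Measurable (g i e))
    (hh : ∀ j e, TF e → Measurable (h j e))
    (hyp : ∀ i j, ∀ (e : Kp → ℝ) (e' : Kq → ℝ), TF e → TF e' → ∀ S : Set (A × (B × E)), MeasurableSet S → S ⊆ D →
      ∫⁻ x in Prod.snd ⁻¹' S, ENNReal.ofReal (e x.1.1 * e' x.1.2) ∂((P.withDensity (w i j)).map (m i j)) =
        ∫⁻ x in S, g i e (zw y1 y2 x).1 * h j e' (zw y1 y2 x).2 ∂μ) {Φ : Kp × Kq → ℝ≥0∞} (hΦ : Measurable Φ) :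
    Den ((P.withDensity wF).map mR) μ D (zw y1 y2) Φ := by
  have mz := zw_meas (A := A) (B := B) h1 h2
  have hden := fun n => mark_den hw hm (kw n n) km (hEp n) (hEq n) (hmk n n) hD h1 h2 hg hh hyp hΦ
  choose t mt ht using hden
  have mt' : ∀ n, Measurable fun x => t n (zw y1 y2 x) := fun n => (mt n).comp mz
  have hmono : ∀ n, ∀ᵐ x ∂(μ.restrict D), t n (zw y1 y2 x) ≤ t (n + 1) (zw y1 y2 x) := fun n =>
    den_ae_le hD (mt' n) fun S hS hSD => by
      rw [← ht n S hS hSD, ← ht (n + 1) S hS hSD]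
      refine mark_le (kw n n) (kw (n + 1) (n + 1)) km ?_ (F := fun x => Φ x.1) (hΦ.comp measurable_fst) hS
      filter_upwards [hi n n, hi' (n + 1) n] with g g1 g2
      exact g1.trans g2
  refine ⟨fun z => ⨆ n, t n z, Measurable.iSup mt, fun S hS hSD => ?_⟩
  have e1 := mark_iSup kw kF km hi hi' hs (F := fun x => Φ x.1) (hΦ.comp measurable_fst) hS
  rw [e1]
  refine (iSup_congr fun n => ht n S hS hSD).trans ?_
  exact (denM_iSup mt' hmono hSD).symm

/-- **`DenP` for the monotone limit** -/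
theorem mark_denPM (hw : ∀ i j, Measurable (w i j)) (hm : ∀ i j, Measurable (m i j)) (kw : ∀ n n', Measurable (wR n n'))
    (kF : Measurable wF) (km : Measurable mR) (hEp : ∀ n i, MeasurableSet (Ep n i)) (hEq : ∀ n i, MeasurableSet (Eq' n i))
    (hmk : ∀ n n', MarkOf P w m (Ep n) (Eq' n') (wR n n') mR)
    (hi : ∀ n n', ∀ᵐ g ∂P, wR n n' g ≤ wR (n + 1) n' g) (hi' : ∀ n n', ∀ᵐ g ∂P, wR n n' g ≤ wR n (n' + 1) g)
    (hs : ∀ᵐ g ∂P, wF g = ⨆ n, wR n n g)
    (hD : MeasurableSet D) (h1 : Measurable y1) (h2 : Measurable y2) (hg : ∀ i e, TF e → Measurable (g i e))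
    (hh : ∀ j e, TF e → Measurable (h j e))
    (hyp : ∀ i j, ∀ (e : Kp → ℝ) (e' : Kq → ℝ), TF e → TF e' → ∀ S : Set (A × (B × E)), MeasurableSet S → S ⊆ D →
      ∫⁻ x in Prod.snd ⁻¹' S, ENNReal.ofReal (e x.1.1 * e' x.1.2) ∂((P.withDensity (w i j)).map (m i j)) =
        ∫⁻ x in S, g i e (zw y1 y2 x).1 * h j e' (zw y1 y2 x).2 ∂μ) {Φp : Kp → ℝ≥0∞} (hΦp : Measurable Φp)
    {Φq : Kq → ℝ≥0∞} (hΦq : Measurable Φq) :
    DenP ((P.withDensity wF).map mR) μ D (zw y1 y2) Φp Φq := by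
  have mz := zw_meas (A := A) (B := B) h1 h2
  obtain ⟨G, H, mG, mH, ht⟩ := lev_prods (ρ := fun i j => (P.withDensity (w i j)).map (m i j)) (μ := μ) (D := D)
    (pz := fun x => (zw y1 y2 x).1) (pw := fun x => (zw y1 y2 x).2) hD (measurable_fst.comp mz) (measurable_snd.comp mz) hg hh
    hyp (Φ := fun n i k => (Ep n i).indicator (fun _ => 1) k * Φp k) (fun n i => (measurable_const.indicator (hEp n i)).mul hΦp)
    (Ψ := fun n j k => (Eq' n j).indicator (fun _ => 1) k * Φq k) (fun n j => (measurable_const.indicator (hEq n j)).mul hΦq)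
  have mF : Measurable fun x : (Kp × Kq) × (A × (B × E)) => Φp x.1.1 * Φq x.1.2 :=
    (hΦp.comp (measurable_fst.comp measurable_fst)).mul (hΦq.comp (measurable_snd.comp measurable_fst))
  -- every pair of sides
  have key : ∀ n n', ∀ S : Set (A × (B × E)), MeasurableSet S → S ⊆ D →
      ∫⁻ x in Prod.snd ⁻¹' S, Φp x.1.1 * Φq x.1.2 ∂((P.withDensity (wR n n')).map mR) =
        ∫⁻ x in S, G n (zw y1 y2 x).1 * H n' (zw y1 y2 x).2 ∂μ := by
    intro n n' S hS hSD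
    rw [mark_sum hw hm (kw n n') km (hEp n) (hEq n') (hmk n n') mF hS, ← ht n n' S hS hSD]
    refine tsum_congr fun i => tsum_congr fun j => lintegral_congr fun x => ?_
    ring
  have mGH : ∀ n n', Measurable fun x => G n (zw y1 y2 x).1 * H n' (zw y1 y2 x).2 := fun n n' =>
    ((mG n).comp (measurable_fst.comp mz)).mul ((mH n').comp (measurable_snd.comp mz))
  have m1 : ∀ n n', ∀ᵐ x ∂(μ.restrict D), G n (zw y1 y2 x).1 * H n' (zw y1 y2 x).2 ≤ G (n + 1) (zw y1 y2 x).1 * H n' (zw y1 y2 x).2 :=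
    fun n n' => den_ae_le hD (mGH n n') fun S hS hSD => by
      rw [← key n n' S hS hSD, ← key (n + 1) n' S hS hSD]
      exact mark_le (kw _ _) (kw _ _) km (hi n n') mF hS
  have m2 : ∀ n n', ∀ᵐ x ∂(μ.restrict D), G n (zw y1 y2 x).1 * H n' (zw y1 y2 x).2 ≤ G n (zw y1 y2 x).1 * H (n' + 1) (zw y1 y2 x).2 :=
    fun n n' => den_ae_le hD (mGH n n') fun S hS hSD => by
      rw [← key n n' S hS hSD, ← key n (n' + 1) S hS hSD]
      exact mark_le (kw _ _) (kw _ _) km (hi' n n') mF hS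
  refine ⟨fun z => ⨆ n, G n z, fun z => ⨆ n, H n z, Measurable.iSup mG, Measurable.iSup mH, fun S hS hSD => ?_⟩
  have e0 : ∀ᵐ x ∂(μ.restrict D), (⨆ n, G n (zw y1 y2 x).1) * (⨆ n, H n (zw y1 y2 x).2) =
      ⨆ n, G n (zw y1 y2 x).1 * H n (zw y1 y2 x).2 := by
    filter_upwards [ae_all_iff.2 fun n => ae_all_iff.2 (m1 n), ae_all_iff.2 fun n => ae_all_iff.2 (m2 n)] with x x1 x2
    have a1 : ∀ n', Monotone fun n => G n (zw y1 y2 x).1 * H n' (zw y1 y2 x).2 := fun n' => monotone_nat_of_le_succ fun n => x1 n n'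
    have a2 : ∀ n, Monotone fun n' => G n (zw y1 y2 x).1 * H n' (zw y1 y2 x).2 := fun n => monotone_nat_of_le_succ fun n' => x2 n n'
    rw [ENNReal.iSup_mul]
    simp only [ENNReal.mul_iSup]
    refine le_antisymm (iSup_le fun n => iSup_le fun n' => ?_) (iSup_le fun n => ?_)
    · exact ((a1 n' (le_max_left n n')).trans (a2 _ (le_max_right n n'))).trans
        (le_iSup (fun k => G k (zw y1 y2 x).1 * H k (zw y1 y2 x).2) (max n n'))
    · exact le_iSup_of_le n (le_iSup (fun n' => G n (zw y1 y2 x).1 * H n' (zw y1 y2 x).2) n)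
  have e1 : ∫⁻ x in S, ghd (fun z => ⨆ n, G n z) (fun z => ⨆ n, H n z) (zw y1 y2 x) ∂μ =
      ∫⁻ x in S, ⨆ n, G n (zw y1 y2 x).1 * H n (zw y1 y2 x).2 ∂μ := by
    refine lintegral_congr_ae ?_
    filter_upwards [ae_restrict_of_ae_restrict_of_subset hSD e0] with x hx
    exact hx
  rw [e1, mark_iSup kw kF km hi hi' hs mF hS, denM_iSup (fun n => mGH n n) (fun n => by
    filter_upwards [m1 n n, m2 (n + 1) n] with x x1 x2
    exact x1.trans x2) hSD]
  exact iSup_congr fun n => key n n S hS hSD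

end mark

end Pool.Agent.ROT.F3
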