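import Mathlib

/-!
# ROT, block F3, row NUL, limit side (helper68): a variable threshold is almost surely not a cut level

Cells `[lft t0 n k, lft t0 n (k + 1))` of side `2 ^ (-n)`; `kn t0 n a` = number of the cell of `a`. `lam n k` : level of the first cut
with level at least `lft t0 n k`.

* **`dy_one`** : if some cell of `a` contains no cut level above its left end, exactly one of them is maximal with this property;
* **`nul_ae`** : bad sets `Bd n k` with `2 ^ (-n) ∑ k, P (Bd n k) → 0`: for almost every `m`, almost surely, the point is for infinitely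
  many `n` not in the bad set of the cell of `ell g + m`;
* **`nul_ex`** : for almost every `m`: the cells of `ell g + m` of small side contain no cut level.
-/

set_option autoImplicit false

open MeasureTheory Filter Topology Set
open scoped ENNReal

namespace Pool.Agent.ROT.F3.Nul

/-- the left end of the cell number `k` of side `2 ^ (-n)` -/
noncomputable def lft (t0 : ℝ) (n : ℕ) (k : ℤ) : ℝ := t0 + (k : ℝ) / 2 ^ n

/-- the number of the cell of `a` -/
noncomputable def kn (t0 : ℝ) (n : ℕ) (a : ℝ) : ℤ := ⌊(a - t0) * 2 ^ n⌋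

lemma p2 (n : ℕ) : (0 : ℝ) < 2 ^ n := by positivity

lemma lft_add (t0 : ℝ) (n : ℕ) (k : ℤ) : lft t0 n (k + 1) = lft t0 n k + 1 / 2 ^ n := by
  unfold lft
  push_cast
  ring

lemma kn_iff {t0 : ℝ} {n : ℕ} {a : ℝ} {k : ℤ} : kn t0 n a = k ↔ lft t0 n k ≤ a ∧ a < lft t0 n (k + 1) := by
  unfold kn lft
  rw [Int.floor_eq_iff]
  have h := p2 n
  constructor
  · rintro ⟨h1, h2⟩
    constructor
    · rw [← le_sub_iff_add_le', div_le_iff₀ h]
      exact h1
    · rw [← sub_lt_iff_lt_add', lt_div_iff₀ h]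
      push_cast
      exact h2
  · rintro ⟨h1, h2⟩
    constructor
    · rw [← le_sub_iff_add_le', div_le_iff₀ h] at h1
      exact h1
    · rw [← sub_lt_iff_lt_add', lt_div_iff₀ h] at h2
      push_cast at h2
      exact h2

lemma kn_le (t0 : ℝ) (n : ℕ) (a : ℝ) : lft t0 n (kn t0 n a) ≤ a := (kn_iff.1 rfl).1

lemma lt_kn (t0 : ℝ) (n : ℕ) (a : ℝ) : a < lft t0 n (kn t0 n a + 1) := (kn_iff.1 rfl).2

/-- the cells are nested -/
lemma kn_step (t0 : ℝ) (n : ℕ) (a : ℝ) :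
    lft t0 n (kn t0 n a) ≤ lft t0 (n + 1) (kn t0 (n + 1) a) ∧ lft t0 (n + 1) (kn t0 (n + 1) a + 1) ≤ lft t0 n (kn t0 n a + 1) := by
  obtain ⟨x, hx⟩ : ∃ x : ℝ, x = (a - t0) * 2 ^ n := ⟨_, rfl⟩
  have h1 : kn t0 n a = ⌊x⌋ := by rw [hx]; rfl
  have h2 : kn t0 (n + 1) a = ⌊2 * x⌋ := by
    unfold kn
    rw [hx, pow_succ]
    congr 1
    ring
  have h3 : 2 * ⌊x⌋ ≤ ⌊2 * x⌋ := by
    rw [Int.le_floor]
    push_cast
    linarith [Int.floor_le x]
  have h4 : ⌊2 * x⌋ < 2 * ⌊x⌋ + 2 := by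
    rw [Int.floor_lt]
    push_cast
    linarith [Int.lt_floor_add_one x]
  rw [h1, h2]
  have h3' : 2 * ((⌊x⌋ : ℤ) : ℝ) ≤ ((⌊2 * x⌋ : ℤ) : ℝ) := by exact_mod_cast h3
  have h4' : ((⌊2 * x⌋ : ℤ) : ℝ) + 1 ≤ 2 * ((⌊x⌋ : ℤ) : ℝ) + 2 := by
    have : ⌊2 * x⌋ + 1 ≤ 2 * ⌊x⌋ + 2 := by omega
    exact_mod_cast this
  have hp := p2 n
  have e : ∀ y : ℝ, y / (2 ^ n : ℝ) = 2 * y / 2 ^ (n + 1) := fun y => by
    rw [pow_succ]
    field_simp
  unfold lft
  push_cast
  constructor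
  · rw [e]
    gcongr
  · rw [e ((⌊x⌋ : ℤ) + 1 : ℝ)]
    gcongr
    linarith

lemma kn_mono_l (t0 : ℝ) (a : ℝ) : Monotone fun n => lft t0 n (kn t0 n a) := monotone_nat_of_le_succ fun n => (kn_step t0 n a).1

lemma kn_anti_r (t0 : ℝ) (a : ℝ) : Antitone fun n => lft t0 n (kn t0 n a + 1) := antitone_nat_of_succ_le fun n => (kn_step t0 n a).2

/-- the cell of `a` is contained in every neighbourhood of `a` -/
lemma kn_small {t0 a x y : ℝ} (hx : x < a) (hy : a < y) : ∀ᶠ n in atTop, x < lft t0 n (kn t0 n a) ∧ lft t0 n (kn t0 n a + 1) < y := by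
  have h1 : Tendsto (fun n : ℕ => (1 : ℝ) / 2 ^ n) atTop (𝓝 0) := by
    have := tendsto_pow_atTop_nhds_zero_of_lt_one (r := (1 / 2 : ℝ)) (by norm_num) (by norm_num)
    refine this.congr fun n => ?_
    rw [div_pow, one_pow]
  have h2 := h1.eventually (gt_mem_nhds (show (0 : ℝ) < min (a - x) (y - a) from lt_min (by linarith) (by linarith)))
  filter_upwards [h2] with n hn
  have h3 := kn_le t0 n a
  have h4 := lt_kn t0 n a
  have h5 := lft_add t0 n (kn t0 n a)
  have h6 := (lt_min_iff.1 hn).1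
  have h7 := (lt_min_iff.1 hn).2
  constructor <;> linarith

/-! ### exactly one cell -/

/-- no cut level in the cell of `a` -/
def Fr (t0 : ℝ) (lam : ℕ → ℤ → ℝ) (a : ℝ) (n : ℕ) : Prop := lft t0 n (kn t0 n a + 1) ≤ lam n (kn t0 n a)

lemma fr_succ {t0 : ℝ} {lam : ℕ → ℤ → ℝ} {a : ℝ} (hm : ∀ n, lam n (kn t0 n a) ≤ lam (n + 1) (kn t0 (n + 1) a)) {n : ℕ}
    (h : Fr t0 lam a n) : Fr t0 lam a (n + 1) := ((kn_step t0 n a).2.trans h).trans (hm n)

lemma fr_le {t0 : ℝ} {lam : ℕ → ℤ → ℝ} {a : ℝ} (hm : ∀ n, lam n (kn t0 n a) ≤ lam (n + 1) (kn t0 (n + 1) a)) {n m : ℕ}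
    (hnm : n ≤ m) (h : Fr t0 lam a n) : Fr t0 lam a m := by
  induction m, hnm using Nat.le_induction with
  | base => exact h
  | succ m _ ih => exact fr_succ hm ih

/-- **exactly one cell is maximal** -/
theorem dy_one {t0 : ℝ} {lam : ℕ → ℤ → ℝ} {a : ℝ} (hm : ∀ n, lam n (kn t0 n a) ≤ lam (n + 1) (kn t0 (n + 1) a))
    (h : ∃ n, Fr t0 lam a n) : ∃! n, Fr t0 lam a n ∧ (n = 0 ∨ ¬ Fr t0 lam a (n - 1)) := by
  classical
  refine ⟨Nat.find h, ⟨Nat.find_spec h, ?_⟩, fun n hn => ?_⟩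
  · rcases Nat.eq_zero_or_pos (Nat.find h) with h0 | h0
    · exact Or.inl h0
    · exact Or.inr (Nat.find_min h (by omega))
  · refine le_antisymm ?_ (Nat.find_min' h hn.1)
    by_contra hc
    rcases hn.2 with h0 | h0
    · omega
    · exact h0 (fr_le hm (by omega) (Nat.find_spec h))

/-! ### almost surely -/

section

variable {Γ : Type*} [MeasurableSpace Γ] {P : Measure Γ} [SFinite P] {t0 : ℝ} {ell : Γ → ℝ}

lemma meas_kn (t0 : ℝ) (n : ℕ) : Measurable (kn t0 n) := by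
  unfold kn
  exact Int.measurable_floor.comp ((measurable_id.sub_const t0).mul_const _)

/-- **off the bad sets, for almost every shift, almost surely, infinitely often** -/
theorem nul_ae (hell : Measurable ell) {Bd : ℕ → ℤ → Set Γ} (hBd : ∀ n k, MeasurableSet (Bd n k))
    (h : Tendsto (fun n : ℕ => ENNReal.ofReal (1 / 2 ^ n) * ∑' k : ℤ, P (Bd n k)) atTop (𝓝 0)) :
    ∀ᵐ m : ℝ, ∀ᵐ g ∂P, ∃ᶠ n in atTop, g ∉ Bd n (kn t0 n (ell g + m)) := by
  obtain ⟨E, hE⟩ : ∃ E : ℕ → Set (ℝ × Γ), E = fun n => {x | x.2 ∈ Bd n (kn t0 n (ell x.2 + x.1))} := ⟨_, rfl⟩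
  have mk : ∀ n, Measurable fun x : ℝ × Γ => kn t0 n (ell x.2 + x.1) := fun n =>
    (meas_kn t0 n).comp ((hell.comp measurable_snd).add measurable_fst)
  have hEm : ∀ n, MeasurableSet (E n) := by
    intro n
    have e : E n = ⋃ k : ℤ, ((fun x : ℝ × Γ => kn t0 n (ell x.2 + x.1)) ⁻¹' {k}) ∩ Prod.snd ⁻¹' (Bd n k) := by
      rw [hE]
      ext x
      simp only [mem_ofPred_eq, mem_iUnion, mem_inter_iff, mem_preimage, mem_singleton_iff, exists_eq_left']
    rw [e]
    exact MeasurableSet.iUnion fun k => (mk n (measurableSet_singleton k)).inter (measurable_snd (hBd n k))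
  have hEle : ∀ n, ((volume : Measure ℝ).prod P) (E n) ≤ ENNReal.ofReal (1 / 2 ^ n) * ∑' k : ℤ, P (Bd n k) := by
    intro n
    rw [Measure.prod_apply_symm (hEm n)]
    have h1 : ∀ g, volume ((fun m : ℝ => (m, g)) ⁻¹' (E n)) ≤
        ∑' k : ℤ, (Bd n k).indicator (fun _ => ENNReal.ofReal (1 / 2 ^ n)) g := by
      intro g
      classical
      have e : (fun m : ℝ => (m, g)) ⁻¹' (E n) ⊆ ⋃ k : ℤ, {m : ℝ | g ∈ Bd n k ∧ kn t0 n (ell g + m) = k} := by
        intro m hm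
        rw [hE] at hm
        exact mem_iUnion.2 ⟨kn t0 n (ell g + m), hm, rfl⟩
      refine (measure_mono e).trans ((measure_iUnion_le _).trans (ENNReal.tsum_le_tsum fun k => ?_))
      by_cases hg : g ∈ Bd n k
      · rw [indicator_of_mem hg]
        have e2 : {m : ℝ | g ∈ Bd n k ∧ kn t0 n (ell g + m) = k} ⊆ Ico (lft t0 n k - ell g) (lft t0 n (k + 1) - ell g) := by
          rintro m ⟨-, hm⟩
          have := kn_iff.1 hm
          constructor <;> linarith
        refine (measure_mono e2).trans ?_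
        rw [Real.volume_Ico, lft_add]
        refine ENNReal.ofReal_le_ofReal (le_of_eq ?_)
        ring
      · rw [indicator_of_notMem hg]
        have e2 : {m : ℝ | g ∈ Bd n k ∧ kn t0 n (ell g + m) = k} = ∅ := by
          ext m
          simp [hg]
        rw [e2, measure_empty]
    refine (lintegral_mono h1).trans (le_of_eq ?_)
    rw [lintegral_tsum fun k => (measurable_const.indicator (hBd n k)).aemeasurable, ← ENNReal.tsum_mul_left]
    refine tsum_congr fun k => ?_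
    rw [lintegral_indicator_const (hBd n k)]
  have h0 : ((volume : Measure ℝ).prod P) {x : ℝ × Γ | ∀ᶠ n in atTop, x ∈ E n} = 0 := by
    have e : {x : ℝ × Γ | ∀ᶠ n in atTop, x ∈ E n} = ⋃ N : ℕ, ⋂ n : ℕ, ⋂ _ : N ≤ n, E n := by
      ext x
      simp only [mem_ofPred_eq, eventually_atTop, mem_iUnion, mem_iInter]
    rw [e, measure_iUnion_null_iff]
    intro N
    refine le_antisymm (ge_of_tendsto h ?_) zero_le
    filter_upwards [eventually_ge_atTop N] with n hn
    exact (measure_mono (iInter₂_subset n hn)).trans (hEle n)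
  have h2 : ∀ᵐ x ∂((volume : Measure ℝ).prod P), ∃ᶠ n in atTop, x ∉ E n := by
    rw [ae_iff]
    refine measure_mono_null (fun x hx => ?_) h0
    simpa only [mem_ofPred_eq, not_frequently, not_not] using hx
  have h3 := Measure.ae_ae_of_ae_prod h2
  rw [hE] at h3
  exact h3

/-- **the variable threshold is not in the closure of the cut levels** : `W y n k g` : the class at the level `lft t0 n k` (the other
levels: `y`), `lam n k g` : level of its first cut -/
theorem nul_ex {Y : Type*} [Countable Y] (hell : Measurable ell) {W : Y → ℕ → ℤ → Γ → Prop} {lam : ℕ → ℤ → Γ → ℝ}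
    (hm : ∀ y n k, MeasurableSet {g | W y n k g ∧ lam n k g < lft t0 n (k + 1)})
    (h : ∀ y, Tendsto (fun n : ℕ => ENNReal.ofReal (1 / 2 ^ n) * ∑' k : ℤ, P {g | W y n k g ∧ lam n k g < lft t0 n (k + 1)}) atTop (𝓝 0))
    {F : ℝ → Γ → Prop} (hW : ∀ᵐ m : ℝ, ∀ᵐ g ∂P, F m g → ∃ y : Y, ∀ᶠ n in atTop, W y n (kn t0 n (ell g + m)) g) :
    ∀ᵐ m : ℝ, ∀ᵐ g ∂P, F m g → ∃ᶠ n in atTop, Fr t0 (fun n k => lam n k g) (ell g + m) n := by
  have h1 : ∀ᵐ m : ℝ, ∀ y : Y, ∀ᵐ g ∂P, ∃ᶠ n in atTop,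
      g ∉ {g | W y n (kn t0 n (ell g + m)) g ∧ lam n (kn t0 n (ell g + m)) g < lft t0 n (kn t0 n (ell g + m) + 1)} := by
    rw [ae_all_iff]
    intro y
    filter_upwards [nul_ae (t0 := t0) hell (hm y) (h y)] with m hm'
    filter_upwards [hm'] with g hg
    exact hg
  filter_upwards [h1, hW] with m g1 g2
  have g3 : ∀ᵐ g ∂P, ∀ y : Y, ∃ᶠ n in atTop,
      g ∉ {g | W y n (kn t0 n (ell g + m)) g ∧ lam n (kn t0 n (ell g + m)) g < lft t0 n (kn t0 n (ell g + m) + 1)} :=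
    ae_all_iff.2 g1
  filter_upwards [g3, g2] with g g4 g5 hF
  obtain ⟨y, hy⟩ := g5 hF
  refine ((g4 y).and_eventually hy).mono fun n hn => ?_
  by_contra hc
  exact hn.1 ⟨hn.2, not_le.1 hc⟩

end

end Pool.Agent.ROT.F3.Nul
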