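import Pool.Agent.ROT.F3LevD
import Pool.Agent.ROT.F3CoreN
import Pool.Agent.ROT.F3Nul

/-!
# ROT / F3LevM (helper62): K8 (d), the marks with variable threshold as the exact sum over the free cells of one side

Cells of side `2 ^ (-n)` (`lft`, `kn` of F3Nul): `cix i = (n, k₀, k₁)` = the number of the cells of the two strands at one root,
`cL t0 i s`, `cR t0 i s` their ends, `thr t0 l i s` = the additional threshold of the class (threshold `max l (left end)`).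

* `FrC t0 C a b n i` : the connections in `C` with `cL < a < cR < b` for both strands (`a` = the functional level, `b` = the level of
  the gate `c`, both read from the connection);
* **`cells_glue`** : from (a) equality of the marks on free cells, (b) the halving step, (c) no level at a dyadic point,
  (d) existence: all the hypotheses on `wR`, `mR` of `mark_denM`, `mark_denPM` (F3CoreN);
* **`cell_fun`**, **`cell_up`** : (a) and (b) from the limits of the classes (F3LevD).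
-/

set_option autoImplicit false

open MeasureTheory Filter Topology Set

open scoped NNReal ENNReal Classical

namespace Pool.Agent.ROT.F3.CK

open Pool.Agent.ROT.F3 Pool.Agent.ROT.F3.CC Pool.Agent.ROT.F3.LF Pool.Agent.ROT.F3.Nul

/-! ### 1. Cells -/

/-- the numbers of the cells of the two strands at one root -/
noncomputable def cix : ℕ ≃ ℕ × (ℤ × ℤ) := (Denumerable.eqv (ℕ × (ℤ × ℤ))).symm

/-- the number of the cell of the strand `s` -/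
noncomputable def ck (i : ℕ) (s : Fin 2) : ℤ := ![(cix i).2.1, (cix i).2.2] s

/-- left end -/
noncomputable def cL (t0 : ℝ) (i : ℕ) (s : Fin 2) : ℝ := lft t0 (cix i).1 (ck i s)

/-- right end -/
noncomputable def cR (t0 : ℝ) (i : ℕ) (s : Fin 2) : ℝ := lft t0 (cix i).1 (ck i s + 1)

/-- the additional threshold of the class -/
noncomputable def thr (t0 l : ℝ) (i : ℕ) (s : Fin 2) : ℝ := max 0 (cL t0 i s - l)

lemma thr_nonneg (t0 l : ℝ) (i : ℕ) (s : Fin 2) : 0 ≤ thr t0 l i s := le_max_left _ _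

/-- the number of the cells with given numbers -/
lemma exists_ck (n : ℕ) (k : Fin 2 → ℤ) : ∃ i, (cix i).1 = n ∧ ck i = k := by
  refine ⟨cix.symm (n, (k 0, k 1)), by rw [Equiv.apply_symm_apply], ?_⟩
  funext s
  unfold ck
  rw [Equiv.apply_symm_apply]
  fin_cases s
  · rfl
  · rfl

lemma ck_inj {i i' : ℕ} (h1 : (cix i).1 = (cix i').1) (h2 : ck i = ck i') : i = i' := by
  refine cix.injective (Prod.ext h1 (Prod.ext ?_ ?_))
  · exact congrFun h2 0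
  · exact congrFun h2 1

lemma ck_of {t0 a : ℝ} {i : ℕ} {s : Fin 2} (h1 : cL t0 i s < a) (h2 : a < cR t0 i s) : ck i s = kn t0 (cix i).1 a :=
  (kn_iff.2 ⟨h1.le, h2⟩).symm

section sets

variable {K : Type*} [MeasurableSpace K] {t0 : ℝ} {C : Set K} {a b : K → Fin 2 → ℝ} {n : ℕ}

/-- **the connections with free cells** -/
def FrC (t0 : ℝ) (C : Set K) (a b : K → Fin 2 → ℝ) (n i : ℕ) : Set K :=
  {κ | κ ∈ C ∧ (cix i).1 = n ∧ ∀ s, cL t0 i s < a κ s ∧ a κ s < cR t0 i s ∧ cR t0 i s < b κ s}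

lemma frC_meas (hC : MeasurableSet C) (ha : Measurable a) (hb : Measurable b) (n i : ℕ) : MeasurableSet (FrC t0 C a b n i) := by
  by_cases h : (cix i).1 = n
  · have e : FrC t0 C a b n i = C ∩ ⋂ s, {κ | cL t0 i s < a κ s ∧ a κ s < cR t0 i s ∧ cR t0 i s < b κ s} := by
      ext κ
      simp only [FrC, mem_ofPred_eq, mem_inter_iff, mem_iInter]
      exact ⟨fun h2 => ⟨h2.1, h2.2.2⟩, fun h2 => ⟨h2.1, h, h2.2⟩⟩
    rw [e]
    refine hC.inter (MeasurableSet.iInter fun s => ?_)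
    have ms : Measurable fun κ => a κ s := (measurable_pi_apply s).comp ha
    have mb : Measurable fun κ => b κ s := (measurable_pi_apply s).comp hb
    exact (measurableSet_lt measurable_const ms).inter ((measurableSet_lt ms measurable_const).inter
      (measurableSet_lt measurable_const mb))
  · have e : FrC t0 C a b n i = ∅ := by
      ext κ
      simp only [FrC, mem_ofPred_eq, mem_empty_iff_false, iff_false]
      exact fun h2 => h h2.2.1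
    rw [e]
    exact MeasurableSet.empty

omit [MeasurableSpace K] in
/-- cells of one side are disjoint -/
lemma frC_uniq {κ : K} {i i' : ℕ} (h : κ ∈ FrC t0 C a b n i) (h' : κ ∈ FrC t0 C a b n i') : i = i' := by
  have e : (cix i).1 = (cix i').1 := h.2.1.trans h'.2.1.symm
  refine ck_inj e (funext fun s => ?_)
  rw [ck_of (h.2.2 s).1 (h.2.2 s).2.1, ck_of (h'.2.2 s).1 (h'.2.2 s).2.1, e]

omit [MeasurableSpace K] in
/-- the next cell is free -/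
lemma frC_succ {κ : K} {i : ℕ} (h : κ ∈ FrC t0 C a b n i) (hne : ∀ s (m : ℕ) (k : ℤ), a κ s ≠ lft t0 m k) :
    ∃ i', κ ∈ FrC t0 C a b (n + 1) i' ∧ ∀ s, cL t0 i s ≤ cL t0 i' s := by
  obtain ⟨i', h1, h2⟩ := exists_ck (n + 1) fun s => kn t0 (n + 1) (a κ s)
  have k1 : ∀ s, cL t0 i s = lft t0 n (kn t0 n (a κ s)) := fun s => by
    unfold cL
    rw [ck_of (h.2.2 s).1 (h.2.2 s).2.1, h.2.1]
  have k2 : ∀ s, cR t0 i s = lft t0 n (kn t0 n (a κ s) + 1) := fun s => by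
    unfold cR
    rw [ck_of (h.2.2 s).1 (h.2.2 s).2.1, h.2.1]
  have k3 : ∀ s, cL t0 i' s = lft t0 (n + 1) (kn t0 (n + 1) (a κ s)) := fun s => by
    unfold cL
    rw [h1, h2]
  have k4 : ∀ s, cR t0 i' s = lft t0 (n + 1) (kn t0 (n + 1) (a κ s) + 1) := fun s => by
    unfold cR
    rw [h1, h2]
  refine ⟨i', ⟨h.1, h1, fun s => ⟨?_, ?_, ?_⟩⟩, fun s => ?_⟩
  · rw [k3]
    exact lt_of_le_of_ne (kn_le t0 (n + 1) _) (hne s _ _).symm
  · rw [k4]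
    exact lt_kn t0 (n + 1) _
  · rw [k4]
    exact ((kn_step t0 n (a κ s)).2.trans (k2 s).symm.le).trans_lt (h.2.2 s).2.2
  · rw [k1, k3]
    exact (kn_step t0 n (a κ s)).1

end sets

/-! ### 2. The glued marks -/

section glue

variable {Γ Kp Kq A B E : Type*} [MeasurableSpace Γ] [MeasurableSpace Kp] [MeasurableSpace Kq] [MeasurableSpace A]
  [MeasurableSpace B] [MeasurableSpace E] {P : Measure Γ} {w : ℕ → ℕ → Γ → ℝ≥0∞} {m : ℕ → ℕ → Γ → (Kp × Kq) × (A × (B × E))}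
  {wF : Γ → ℝ≥0∞} {mR : Γ → (Kp × Kq) × (A × (B × E))} {t0 : ℝ} {Cp : Set Kp} {Cq : Set Kq} {aP lP : Kp → Fin 2 → ℝ}
  {aQ lQ : Kq → Fin 2 → ℝ}

/-- **the marks with variable threshold** : the hypotheses of `mark_denM`, `mark_denPM` -/
theorem cells_glue (hw : ∀ i j, Measurable (w i j)) (hm : ∀ i j, Measurable (m i j)) (kF : Measurable wF)
    (hCp : MeasurableSet Cp) (hCq : MeasurableSet Cq) (haP : Measurable aP) (hlP : Measurable lP) (haQ : Measurable aQ)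
    (hlQ : Measurable lQ)
    (fn : ∀ i j, ∀ᵐ g ∂P, w i j g ≠ 0 → (m i j g).1.1 ∈ Cp → (m i j g).1.2 ∈ Cq →
      (∀ s, cL t0 i s < aP (m i j g).1.1 s ∧ aP (m i j g).1.1 s < lP (m i j g).1.1 s) →
      (∀ s, cL t0 j s < aQ (m i j g).1.2 s ∧ aQ (m i j g).1.2 s < lQ (m i j g).1.2 s) → wF g = w i j g ∧ mR g = m i j g)
    (up : ∀ i j i' j', (∀ s, cL t0 i s ≤ cL t0 i' s) → (∀ s, cL t0 j s ≤ cL t0 j' s) → ∀ᵐ g ∂P, w i j g ≠ 0 →
      (m i j g).1.1 ∈ Cp → (m i j g).1.2 ∈ Cq → (∀ s, cL t0 i' s < lP (m i j g).1.1 s) →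
      (∀ s, cL t0 j' s < lQ (m i j g).1.2 s) → (∀ s, aP (m i j g).1.1 s < lP (m i j g).1.1 s) →
      (∀ s, aQ (m i j g).1.2 s < lQ (m i j g).1.2 s) → w i' j' g ≠ 0 ∧ m i' j' g = m i j g)
    (hne : ∀ i j, ∀ᵐ g ∂P, w i j g ≠ 0 → (m i j g).1.1 ∈ Cp → (m i j g).1.2 ∈ Cq →
      (∀ s (n : ℕ) (k : ℤ), aP (m i j g).1.1 s ≠ lft t0 n k) ∧ ∀ s (n : ℕ) (k : ℤ), aQ (m i j g).1.2 s ≠ lft t0 n k)
    (hex : ∀ᵐ g ∂P, wF g ≠ 0 → (mR g).1.1 ∈ Cp → (mR g).1.2 ∈ Cq → ∃ n i j, w i j g ≠ 0 ∧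
      (m i j g).1.1 ∈ FrC t0 Cp aP lP n i ∧ (m i j g).1.2 ∈ FrC t0 Cq aQ lQ n j) :
    ∃ wR : ℕ → ℕ → Γ → ℝ≥0∞, (∀ n n', Measurable (wR n n')) ∧
      (∀ n n', MarkOf P w m (FrC t0 Cp aP lP n) (FrC t0 Cq aQ lQ n') (wR n n') mR) ∧
      (∀ n n', ∀ᵐ g ∂P, wR n n' g ≤ wR (n + 1) n' g) ∧ (∀ n n', ∀ᵐ g ∂P, wR n n' g ≤ wR n (n' + 1) g) ∧
      ∀ᵐ g ∂P, (mR ⁻¹' ((Cp ×ˢ Cq) ×ˢ univ)).indicator wF g = ⨆ n, wR n n g := by
  obtain ⟨Ac, hAc⟩ : ∃ Ac : ℕ → ℕ → ℕ → ℕ → Set Γ, Ac = fun n n' i j => {g | w i j g ≠ 0 ∧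
    (m i j g).1.1 ∈ FrC t0 Cp aP lP n i ∧ (m i j g).1.2 ∈ FrC t0 Cq aQ lQ n' j} := ⟨_, rfl⟩
  have mAc : ∀ n n' i j, MeasurableSet (Ac n n' i j) := fun n n' i j => by
    rw [hAc]
    refine MeasurableSet.inter ?_ (MeasurableSet.inter ?_ ?_)
    · exact (hw i j) (measurableSet_singleton 0).compl
    · exact (measurable_fst.comp (measurable_fst.comp (hm i j))) (frC_meas hCp haP hlP n i)
    · exact (measurable_snd.comp (measurable_fst.comp (hm i j))) (frC_meas hCq haQ hlQ n' j)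
  obtain ⟨wR, hwR⟩ : ∃ wR : ℕ → ℕ → Γ → ℝ≥0∞, wR = fun n n' => (⋃ i, ⋃ j, Ac n n' i j).indicator wF := ⟨_, rfl⟩
  have in1 : ∀ {n n' g i j}, g ∈ Ac n n' i j → wR n n' g = wF g := fun {n n' g i j} h => by
    rw [hwR]
    exact indicator_of_mem (mem_iUnion.2 ⟨i, mem_iUnion.2 ⟨j, h⟩⟩) _
  have out1 : ∀ {n n' g}, (∀ i j, g ∉ Ac n n' i j) → wR n n' g = 0 := fun {n n' g} h => by
    rw [hwR]
    refine indicator_of_notMem ?_ _
    intro h2
    obtain ⟨i, h3⟩ := mem_iUnion.1 h2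
    obtain ⟨j, h4⟩ := mem_iUnion.1 h3
    exact h i j h4
  have ex1 : ∀ {n n' g}, wR n n' g ≠ 0 → ∃ i j, g ∈ Ac n n' i j := fun {n n' g} h => by
    by_contra hc
    push Not at hc
    exact h (out1 hc)
  have le1 : ∀ n n' g, wR n n' g ≤ wF g := fun n n' g => by
    by_cases h : wR n n' g = 0
    · rw [h]
      exact zero_le
    · obtain ⟨i, j, h2⟩ := ex1 h
      exact (in1 h2).le
  have fn' : ∀ᵐ g ∂P, ∀ i j n n', g ∈ Ac n n' i j → wF g = w i j g ∧ mR g = m i j g := by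
    have h1 := ae_all_iff.2 fun i => ae_all_iff.2 fun j => fn i j
    filter_upwards [h1] with g hg i j n n' h
    rw [hAc] at h
    obtain ⟨h2, h3, h4⟩ := h
    exact hg i j h2 h3.1 h4.1 (fun s => ⟨(h3.2.2 s).1, (h3.2.2 s).2.1.trans (h3.2.2 s).2.2⟩)
      fun s => ⟨(h4.2.2 s).1, (h4.2.2 s).2.1.trans (h4.2.2 s).2.2⟩
  have step : ∀ᵐ g ∂P, ∀ i j i' j' n n' ñ ñ', g ∈ Ac n n' i j → (∀ s, cL t0 i s ≤ cL t0 i' s) → (∀ s, cL t0 j s ≤ cL t0 j' s) →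
      (m i j g).1.1 ∈ FrC t0 Cp aP lP ñ i' → (m i j g).1.2 ∈ FrC t0 Cq aQ lQ ñ' j' → g ∈ Ac ñ ñ' i' j' := by
    have h1 : ∀ᵐ g ∂P, ∀ i j i' j', (∀ s, cL t0 i s ≤ cL t0 i' s) → (∀ s, cL t0 j s ≤ cL t0 j' s) → w i j g ≠ 0 →
      (m i j g).1.1 ∈ Cp → (m i j g).1.2 ∈ Cq → (∀ s, cL t0 i' s < lP (m i j g).1.1 s) →
      (∀ s, cL t0 j' s < lQ (m i j g).1.2 s) → (∀ s, aP (m i j g).1.1 s < lP (m i j g).1.1 s) →
      (∀ s, aQ (m i j g).1.2 s < lQ (m i j g).1.2 s) → w i' j' g ≠ 0 ∧ m i' j' g = m i j g := by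
      refine ae_all_iff.2 fun i => ae_all_iff.2 fun j => ae_all_iff.2 fun i' => ae_all_iff.2 fun j' => ?_
      by_cases c1 : ∀ s, cL t0 i s ≤ cL t0 i' s
      · by_cases c2 : ∀ s, cL t0 j s ≤ cL t0 j' s
        · filter_upwards [up i j i' j' c1 c2] with g hg _ _
          exact hg
        · exact Eventually.of_forall fun g _ h => absurd h c2
      · exact Eventually.of_forall fun g h => absurd h c1
    filter_upwards [h1] with g hg i j i' j' n n' ñ ñ' h c1 c2 h3 h4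
    rw [hAc] at h
    obtain ⟨k1, k2, k3⟩ := h
    obtain ⟨e1, e2⟩ := hg i j i' j' c1 c2 k1 k2.1 k3.1 (fun s => ((h3.2.2 s).1.trans (h3.2.2 s).2.1).trans (h3.2.2 s).2.2)
      (fun s => ((h4.2.2 s).1.trans (h4.2.2 s).2.1).trans (h4.2.2 s).2.2)
      (fun s => (k2.2.2 s).2.1.trans (k2.2.2 s).2.2) fun s => (k3.2.2 s).2.1.trans (k3.2.2 s).2.2
    rw [hAc]
    exact ⟨e1, by rw [e2]; exact h3, by rw [e2]; exact h4⟩
  have hne' : ∀ᵐ g ∂P, ∀ i j n n', g ∈ Ac n n' i j → (∀ s (n : ℕ) (k : ℤ), aP (m i j g).1.1 s ≠ lft t0 n k) ∧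
      ∀ s (n : ℕ) (k : ℤ), aQ (m i j g).1.2 s ≠ lft t0 n k := by
    have h1 := ae_all_iff.2 fun i => ae_all_iff.2 fun j => hne i j
    filter_upwards [h1] with g hg i j n n' h
    rw [hAc] at h
    exact hg i j h.1 h.2.1.1 h.2.2.1
  refine ⟨wR, fun n n' => ?_, fun n n' => ?_, fun n n' => ?_, fun n n' => ?_, ?_⟩
  · rw [hwR]
    exact kF.indicator (MeasurableSet.iUnion fun i => MeasurableSet.iUnion fun j => mAc n n' i j)
  · filter_upwards [fn'] with g hg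
    have inA : ∀ {i j}, (m i j g).1.1 ∈ FrC t0 Cp aP lP n i → (m i j g).1.2 ∈ FrC t0 Cq aQ lQ n' j → w i j g ≠ 0 →
        g ∈ Ac n n' i j := fun h1 h2 h3 => by
      rw [hAc]
      exact ⟨h3, h1, h2⟩
    refine ⟨fun i j h1 h2 h3 => ?_, fun i j i' j' h1 h2 h3 h1' h2' h3' => ?_, fun h => ?_⟩
    · obtain ⟨e1, e2⟩ := hg i j n n' (inA h1 h2 h3)
      exact ⟨by rw [in1 (inA h1 h2 h3), e1], e2.symm⟩
    · have e1 := (hg i j n n' (inA h1 h2 h3)).2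
      have e2 := (hg i' j' n n' (inA h1' h2' h3')).2
      have e3 : m i' j' g = m i j g := e2.symm.trans e1
      rw [e3] at h1' h2'
      exact ⟨frC_uniq h1 h1', frC_uniq h2 h2'⟩
    · obtain ⟨i, j, h2⟩ := ex1 h
      rw [hAc] at h2
      exact ⟨i, j, h2.2.1, h2.2.2, h2.1⟩
  · filter_upwards [step, hne'] with g hg hg2
    by_cases h : wR n n' g = 0
    · rw [h]
      exact zero_le
    · obtain ⟨i, j, h2⟩ := ex1 h
      have h3 := h2
      rw [hAc] at h3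
      obtain ⟨i', c1, c2⟩ := frC_succ h3.2.1 (hg2 i j n n' h2).1
      have h4 := hg i j i' j n n' (n + 1) n' h2 c2 (fun s => le_rfl) c1 h3.2.2
      rw [in1 h2, in1 h4]
  · filter_upwards [step, hne'] with g hg hg2
    by_cases h : wR n n' g = 0
    · rw [h]
      exact zero_le
    · obtain ⟨i, j, h2⟩ := ex1 h
      have h3 := h2
      rw [hAc] at h3
      obtain ⟨j', c1, c2⟩ := frC_succ h3.2.2 (hg2 i j n n' h2).2
      have h4 := hg i j i j' n n' n (n' + 1) h2 (fun s => le_rfl) c2 h3.2.1 c1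
      rw [in1 h2, in1 h4]
  · filter_upwards [fn', hex] with g hg hg2
    by_cases hK : (mR g).1.1 ∈ Cp ∧ (mR g).1.2 ∈ Cq
    · rw [indicator_of_mem (show g ∈ mR ⁻¹' ((Cp ×ˢ Cq) ×ˢ univ) from ⟨hK, trivial⟩)]
      by_cases h0 : wF g = 0
      · rw [h0]
        symm
        rw [ENNReal.iSup_eq_zero]
        intro n
        exact le_antisymm ((le1 n n g).trans h0.le) zero_le
      · obtain ⟨n, i, j, h1, h2, h3⟩ := hg2 h0 hK.1 hK.2
        have hA : g ∈ Ac n n i j := by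
          rw [hAc]
          exact ⟨h1, h2, h3⟩
        refine le_antisymm ?_ (iSup_le fun n => le1 n n g)
        rw [← in1 hA]
        exact le_iSup (fun n => wR n n g) n
    · rw [indicator_of_notMem (show g ∉ mR ⁻¹' ((Cp ×ˢ Cq) ×ˢ univ) from fun h => hK h.1)]
      symm
      rw [ENNReal.iSup_eq_zero]
      intro n
      refine out1 fun i j h => hK ?_
      have e := (hg i j n n h).2
      rw [hAc] at h
      rw [e]
      exact ⟨h.2.1.1, h.2.2.1⟩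

end glue

/-! ### 3. The limits of the classes -/

/-- the additional thresholds of the class with the cells `i` at the first root and `j` at the second root -/
noncomputable def yv (D : Dt) (t0 : ℝ) (i j : ℕ) : Fin 4 → ℝ :=
  ![thr t0 D.P.l i 0, thr t0 D.P.l i 1, thr t0 D.Q.l j 0, thr t0 D.Q.l j 1]

lemma yv_nonneg (D : Dt) (t0 : ℝ) (i j : ℕ) (s : Fin 4) : 0 ≤ yv D t0 i j s := by
  fin_cases s
  · exact thr_nonneg _ _ _ _
  · exact thr_nonneg _ _ _ _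
  · exact thr_nonneg _ _ _ _
  · exact thr_nonneg _ _ _ _

lemma thr_mono {t0 l : ℝ} {i i' : ℕ} {s : Fin 2} (h : cL t0 i s ≤ cL t0 i' s) : thr t0 l i s ≤ thr t0 l i' s :=
  max_le_max_left 0 (sub_le_sub_right h l)

lemma thr_lt {t0 l a : ℝ} {i : ℕ} {s : Fin 2} (h : cL t0 i s < l + a) (ha : 0 < a) : thr t0 l i s < a :=
  max_lt ha (by linarith)

lemma thr_lt' {t0 l b : ℝ} {i : ℕ} {s : Fin 2} (h : cL t0 i s < b) (hl : l < b) : l + thr t0 l i s < b := by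
  have : thr t0 l i s < b - l := max_lt (by linarith) (by linarith)
  linarith

section cells

variable {U : Filter ℕ} [U.NeBot] {μ : ℕ → Measure (W3 × ℕ)} {X : Type*} [PseudoMetricSpace X] [MeasurableSpace X]
  [BorelSpace X] [CompleteSpace X] [SecondCountableTopology X] {cc : ℕ → W3 × ℕ → X} {ν : Measure X} {D : Dt}
  {RA RB : ℕ → Set W3} {t0 : ℝ} {E : ℕ → ℕ → X → ℝ} {Φ : ℕ → ℕ → X → Fin 8 → ℝ} {Λ : ℕ → ℕ → X → Fin 4 → ℝ}
  {u : ℕ → W3 × ℕ → Fin 4 → ℝ} {EF : X → ℝ} {ΦF : X → Fin 8 → ℝ} {ΛF : X → Fin 4 → ℝ} {A : X → Fin 4 → ℝ}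
  {Kp Kq Y : Type*} {F : X → (Fin 8 → ℝ) → (Kp × Kq) × Y} {Cp : Set Kp} {Cq : Set Kq} {aP lP : Kp → Fin 2 → ℝ}
  {aQ lQ : Kq → Fin 2 → ℝ}

/-- **the readings of the functional levels and of the levels of the gates from the connections** -/
def Rdg (D : Dt) (A : X → Fin 4 → ℝ) (Λ : X → Fin 4 → ℝ) (aP lP : Kp → Fin 2 → ℝ) (aQ lQ : Kq → Fin 2 → ℝ) (g : X)
    (κ : Kp × Kq) : Prop :=
  (∀ s, 0 < A g s) ∧ (aP κ.1 0 = D.P.l + A g 0 ∧ aP κ.1 1 = D.P.l + A g 1 ∧ aQ κ.2 0 = D.Q.l + A g 2 ∧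
    aQ κ.2 1 = D.Q.l + A g 3) ∧ lP κ.1 0 = Λ g 0 ∧ lP κ.1 1 = Λ g 1 ∧ lQ κ.2 0 = Λ g 2 ∧ lQ κ.2 1 = Λ g 3

/-- **(a)** of `cells_glue` -/
theorem cell_fun (hC : Cv U μ cc ν) (hU : ∀ᶠ N : ℕ in U, 0 < N) (hD : D.Ok) (hA : ∀ᶠ N in U, RA N ⊆ D.A N (uT N))
    (hB : ∀ᶠ N in U, RB N ⊆ D.B N (uT N)) {i j : ℕ}
    (H : LvO U μ cc ν D RA RB (fun _ _ => yv D t0 i j) (E i j) (Φ i j) (Λ i j)) (HF : LvO U μ cc ν D RA RB u EF ΦF ΛF)
    (hu : ∀ s, Lm U μ cc ν (fun N x => u N x s) fun g => A g s)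
    (hr : ∀ᵐ g ∂ν, ENNReal.ofReal (E i j g) ≠ 0 → (F g (Φ i j g)).1.1 ∈ Cp → (F g (Φ i j g)).1.2 ∈ Cq →
      Rdg D A (Λ i j) aP lP aQ lQ g (F g (Φ i j g)).1) :
    ∀ᵐ g ∂ν, ENNReal.ofReal (E i j g) ≠ 0 → (F g (Φ i j g)).1.1 ∈ Cp → (F g (Φ i j g)).1.2 ∈ Cq →
      (∀ s, cL t0 i s < aP (F g (Φ i j g)).1.1 s ∧ aP (F g (Φ i j g)).1.1 s < lP (F g (Φ i j g)).1.1 s) →
      (∀ s, cL t0 j s < aQ (F g (Φ i j g)).1.2 s ∧ aQ (F g (Φ i j g)).1.2 s < lQ (F g (Φ i j g)).1.2 s) →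
      ENNReal.ofReal (EF g) = ENNReal.ofReal (E i j g) ∧ F g (ΦF g) = F g (Φ i j g) := by
  filter_upwards [lev_fun hC hU hD hA hB (yv_nonneg D t0 i j) H HF hu, hr] with g hg hr h0 hp hq h1 h2
  obtain ⟨hA0, ⟨r1, r2, r3, r4⟩, r5, r6, r7, r8⟩ := hr h0 hp hq
  have hE : E i j g ≠ 0 := fun h => h0 (by rw [h, ENNReal.ofReal_zero])
  have k0 := h1 0
  have k1 := h1 1
  have k2 := h2 0
  have k3 := h2 1
  rw [r1, r5] at k0
  rw [r2, r6] at k1
  rw [r3, r7] at k2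
  rw [r4, r8] at k3
  obtain ⟨e1, e2, -⟩ := hg hE (fun s => by
    fin_cases s
    · exact thr_lt k0.1 (hA0 0)
    · exact thr_lt k1.1 (hA0 1)
    · exact thr_lt k2.1 (hA0 2)
    · exact thr_lt k3.1 (hA0 3)) (fun s => by
    fin_cases s
    · exact k0.2
    · exact k1.2
    · exact k2.2
    · exact k3.2)
  exact ⟨by rw [e1], by rw [e2]⟩

/-- **(b)** of `cells_glue` -/
theorem cell_up (hC : Cv U μ cc ν) (hU : ∀ᶠ N : ℕ in U, 0 < N) (hD : D.Ok) (hA : ∀ᶠ N in U, RA N ⊆ D.A N (uT N))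
    (hB : ∀ᶠ N in U, RB N ⊆ D.B N (uT N)) {i j i' j' : ℕ}
    (H : LvO U μ cc ν D RA RB (fun _ _ => yv D t0 i j) (E i j) (Φ i j) (Λ i j))
    (H' : LvO U μ cc ν D RA RB (fun _ _ => yv D t0 i' j') (E i' j') (Φ i' j') (Λ i' j'))
    (hr : ∀ᵐ g ∂ν, ENNReal.ofReal (E i j g) ≠ 0 → (F g (Φ i j g)).1.1 ∈ Cp → (F g (Φ i j g)).1.2 ∈ Cq →
      Rdg D A (Λ i j) aP lP aQ lQ g (F g (Φ i j g)).1)
    (c1 : ∀ s, cL t0 i s ≤ cL t0 i' s) (c2 : ∀ s, cL t0 j s ≤ cL t0 j' s) :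
    ∀ᵐ g ∂ν, ENNReal.ofReal (E i j g) ≠ 0 → (F g (Φ i j g)).1.1 ∈ Cp → (F g (Φ i j g)).1.2 ∈ Cq →
      (∀ s, cL t0 i' s < lP (F g (Φ i j g)).1.1 s) → (∀ s, cL t0 j' s < lQ (F g (Φ i j g)).1.2 s) →
      (∀ s, aP (F g (Φ i j g)).1.1 s < lP (F g (Φ i j g)).1.1 s) →
      (∀ s, aQ (F g (Φ i j g)).1.2 s < lQ (F g (Φ i j g)).1.2 s) →
      ENNReal.ofReal (E i' j' g) ≠ 0 ∧ F g (Φ i' j' g) = F g (Φ i j g) := by
  have hy : ∀ s, yv D t0 i j s ≤ yv D t0 i' j' s := fun s => by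
    fin_cases s
    · exact thr_mono (c1 0)
    · exact thr_mono (c1 1)
    · exact thr_mono (c2 0)
    · exact thr_mono (c2 1)
  filter_upwards [lev_up hC hU hD hA hB (yv_nonneg D t0 i j) hy H H', hr] with g hg hr h0 hp hq h1 h2 h3 h4
  obtain ⟨hA0, ⟨r1, r2, r3, r4⟩, r5, r6, r7, r8⟩ := hr h0 hp hq
  have hE : E i j g ≠ 0 := fun h => h0 (by rw [h, ENNReal.ofReal_zero])
  have k0 := h3 0
  have k1 := h3 1
  have k2 := h4 0
  have k3 := h4 1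
  rw [r1, r5] at k0
  rw [r2, r6] at k1
  rw [r3, r7] at k2
  rw [r4, r8] at k3
  have l0 := h1 0
  have l1 := h1 1
  have l2 := h2 0
  have l3 := h2 1
  rw [r5] at l0
  rw [r6] at l1
  rw [r7] at l2
  rw [r8] at l3
  have q0 : D.P.l < Λ i j g 0 := by linarith [hA0 0]
  have q1 : D.P.l < Λ i j g 1 := by linarith [hA0 1]
  have q2 : D.Q.l < Λ i j g 2 := by linarith [hA0 2]
  have q3 : D.Q.l < Λ i j g 3 := by linarith [hA0 3]
  obtain ⟨e1, e2, -⟩ := hg hE fun s => by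
    fin_cases s
    · exact thr_lt' l0 q0
    · exact thr_lt' l1 q1
    · exact thr_lt' l2 q2
    · exact thr_lt' l3 q3
  exact ⟨by rw [e1]; exact h0, by rw [e2]⟩

end cells

end Pool.Agent.ROT.F3.CK
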