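import Pool.Agent.ROT.F3K3T
import Pool.Agent.ROT.F3K3P
import Pool.Agent.ROT.F3K3X
import Pool.Agent.ROT.F3JmU
import Pool.Agent.ROT.F3LevM

/-!
# ROT, F3, row K3 (helper2): assembly, in the words of F3JmD

* `GaIn` : the gates `G : Ga` of the closed curves are the limits of the gates of the words, for the data `D` at the thresholds `y N x`;
* `ClN`, `MnN` : generic soft parameters; **`lvo_ga`** : `LvO` of the full class; **`lvo_jR`** : rotated lattice, arcs of the class `i`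
  (main arcs for `i = 0`) and of the class `j`, `E = bi (g ∈ jKR P i j H)`; `lvo_j0` : lattice 0;
* `axF` : the functional thresholds; `GaL`, `GaE`, `ClC`, **`Pk`** : the package of a pair of classes for one `P`;
* `PkI` : its input; **`pk_of`**.
-/

set_option autoImplicit false

namespace Pool.Agent.ROT.F3.CK

open MeasureTheory Filter Topology Set unitInterval

open scoped NNReal ENNReal Classical

open Pool.Agent.ROT.F3 Pool.Agent.ROT.F3.LF

/-! ### 1. The classes -/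

/-- **gates from the words**: `G` = limits of the gates of the data `D` at the thresholds `y N x` -/
structure GaIn (U : Filter ℕ) (b : ℝ) (PG : Measure CC.Gm) (D : Dt) (y : ℕ → W3 × ℕ → Fin 4 → ℝ) (A : Arm → ℕ → W3 × ℕ → Prop)
    (c g : Arm → ℕ → W3 × ℕ → ℕ) (G : Ga) : Prop where
  arms : AIn U b PG A c g G.B G.c G.x
  y0 : ∀ᶠ N in U, ∀ x, Spt x → ∀ s, 0 ≤ y N x s
  dic : ∀ᶠ N : ℕ in U, ∀ x, Spt x → ∀ v', Far D N x v' →
    (DecG (D.th (y N x)) N x v' ↔ (∀ k, A k N x) ∧ v' = v8 c g N x ∧ BaG D N x v')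

/-- the soft parameters of the class are generic -/
def ClN (PG : Measure CC.Gm) (D : Dt) (G : Ga) : Prop :=
  PG {y | y ∈ (⋂ k, G.B k) ∧ clsF D y.2.2 y.1 (pji (muG y)) (fun k => pji (phi8 G.B G.c G.x y k)) = 0} = 0

/-- the parameters of the main arcs are generic -/
def MnN (PG : Measure CC.Gm) (D : Dt) (s s' : Sr) (G : Ga) : Prop :=
  PG {y | y ∈ (⋂ k, G.B k) ∧ max (nrF D.d s y.2.2 (pji (phi8 G.B G.c G.x y 1)) (pji (phi8 G.B G.c G.x y 2)))
    (nrF D.t s' y.2.2 (pji (phi8 G.B G.c G.x y 2)) (pji (phi8 G.B G.c G.x y 1))) = 0} = 0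

section

variable {U : Filter ℕ} {b : ℝ} {PG : Measure CC.Gm} {D : Dt} {y : ℕ → W3 × ℕ → Fin 4 → ℝ} {A : Arm → ℕ → W3 × ℕ → Prop}
  {c g : Arm → ℕ → W3 × ℕ → ℕ} {G : Ga}

lemma GaIn.gin (hC : Cv U (fun N => mwE N b) cN PG) (hP : ∀ᵐ y ∂PG, 0 < y.1) (H : GaIn U b PG D y A c g G) :
    GInF U b PG D y (allA A c g) (v8 c g) (⋂ k, G.B k) (phi8 G.B G.c G.x) := ginf_of hC hP H.arms H.y0 H.dic

/-- **the full class** -/
theorem lvo_ga (hU : U ≤ atTop) (hC : Cv U (fun N => mwE N b) cN PG) (hP : ∀ᵐ y ∂PG, 0 < y.1) (hD : D.Ok)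
    (H : GaIn U b PG D y A c g G) (h0 : ClN PG D G) :
    LvO U (fun N => mwE N b) cN PG D (fun N => D.A N (uT N)) (fun N => D.B N (uT N)) y
      (fun g => bi (g ∈ k3S D (⋂ k, G.B k) (phi8 G.B G.c G.x))) (phi8 G.B G.c G.x) (lamF D (phi8 G.B G.c G.x)) :=
  lvo_all hU hC hP hD (H.gin hC hP) h0

/-- **lattice 0** -/
theorem lvo_j0 {P : Prm} {i j : Fin 3} (hU : U ≤ atTop) (hC : Cv U (fun N => mwE N b) cN PG) (hP : ∀ᵐ y ∂PG, 0 < y.1)
    (hD : (jD0 P i j).Ok) (H : GaIn U b PG (jD0 P i j) (fun _ _ _ => 0) A c g G) (h0 : ClN PG (jD0 P i j) G) :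
    LvO U (fun N => mwE N b) cN PG (jD0 P i j) (fun N => (jD0 P i j).A N (uT N)) (fun N => (jD0 P i j).B N (uT N)) (fun _ _ _ => 0)
      (fun g => bi (g ∈ jK0 P i j G)) (jT G) (lamF (jD0 P i j) (jT G)) :=
  lvo_ga hU hC hP hD H h0

/-- **rotated lattice**, in its frame, thresholds `y N x` -/
theorem lvo_jR {P : Prm} {i j : Fin 3} (hj : j ≠ 0) (hU : U ≤ atTop) (hC : Cv U (fun N => mwE N b) cN PG)
    (hP : ∀ᵐ y ∂PG, 0 < y.1) (hD : (jDR P i j).Ok) (H : GaIn U b PG (jDR P i j) y A c g G) (h0 : ClN PG (jDR P i j) G)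
    (hM : i = 0 → MnN PG (jDR P i j) P.p.s P.q.s G) :
    LvO U (fun N => mwE N b) cN PG (jDR P i j) (if i = 0 then P.A0 else P.Ac i) (if j = 0 then P.A0 else P.Ac j) y
      (fun g => bi (g ∈ jKR P i j G)) (phi8 G.B G.c G.x) (lamF (jDR P i j) (phi8 G.B G.c G.x)) := by
  have h1 := lvo_ga hU hC hP hD H h0
  have eB : (if j = 0 then P.A0 else P.Ac j) = fun N : ℕ => (jDR P i j).B N (uT N) := by
    rw [if_neg hj]
    funext N
    show Rst (ev j) (ev (-j)) P.p.f P.q.f P.Wc (N : ℝ) (uT N) = Rst (ev j) (ev (-j)) P.p.f P.q.f (wnA P j) (N : ℝ) (uT N)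
    rw [show wnA P j = P.Wc from if_neg hj]
  rw [eB]
  by_cases hi : i = 0
  · rw [if_pos hi]
    have h2 : PG {y | y ∈ k3S (jDR P i j) (⋂ k, G.B k) (phi8 G.B G.c G.x) ∧
        max (nrF (jDR P i j).d P.p.s y.2.2 (pji (phi8 G.B G.c G.x y 1)) (pji (phi8 G.B G.c G.x y 2)))
          (nrF (jDR P i j).t P.q.s y.2.2 (pji (phi8 G.B G.c G.x y 2)) (pji (phi8 G.B G.c G.x y 1))) = 0} = 0 :=
      measure_mono_null (fun y hy => And.intro hy.1.1 hy.2) (hM hi)
    have h3 := lvo_man hU hC hP hD h1 H.y0 P.p.s P.q.s h2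
    have eA : (fun N : ℕ => Man (jDR P i j).d (jDR P i j).t (jDR P i j).P (jDR P i j).Q (jDR P i j).V P.p.s P.q.s N (uT N)) =
        P.A0 := by
      funext N
      subst hi
      have e1 : (jDR P 0 j).t = ev 0 := by
        show ev (-0) = ev 0
        rw [neg_zero]
      rw [e1]
      show Man (ev 0) (ev 0) P.p.f P.q.f (wnA P 0) P.p.s P.q.s (N : ℝ) (uT N) =
        Man (ev 0) (ev 0) P.p.f P.q.f P.W P.p.s P.q.s (N : ℝ) (uT N)
      rw [show wnA P 0 = P.W from if_pos rfl]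
    rw [eA] at h3
    have eK : jKR P i j G = k3S (jDR P i j) (⋂ k, G.B k) (phi8 G.B G.c G.x) ∩
        {y | max (nrF (jDR P i j).d P.p.s y.2.2 (pji (phi8 G.B G.c G.x y 1)) (pji (phi8 G.B G.c G.x y 2)))
          (nrF (jDR P i j).t P.q.s y.2.2 (pji (phi8 G.B G.c G.x y 2)) (pji (phi8 G.B G.c G.x y 1))) ≤ 0} := if_pos hi
    rw [eK]
    exact h3
  · rw [if_neg hi]
    have eA : P.Ac i = fun N : ℕ => (jDR P i j).A N (uT N) := by
      funext N
      show Rst (ev i) (ev (-i)) P.p.f P.q.f P.Wc (N : ℝ) (uT N) = Rst (ev i) (ev (-i)) P.p.f P.q.f (wnA P i) (N : ℝ) (uT N)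
      rw [show wnA P i = P.Wc from if_neg hi]
    have eK : jKR P i j G = k3S (jDR P i j) (⋂ k, G.B k) (phi8 G.B G.c G.x) := if_neg hi
    rw [eA, eK]
    exact h1

end

/-! ### 2. The functional thresholds -/

/-- the arm of the threshold `s` -/
def xai : Fin 4 → Arm := ![.fp, .bp, .bq, .fq]

lemma xai_aix (k : Arm) : xai (aix k) = k := by cases k <;> rfl

/-- **the functional thresholds**: the levels of the native gates `x` over the roots in the turned directions, cut off at `Rm` -/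
noncomputable def axF (P : Prm) (i j : Fin 3) (G0 : Ga) (Rm : ℝ) (g : CC.Gm) (s : Fin 4) : ℝ :=
  bi (g ∈ G0.B (xai s)) *
    max 0 (min Rm (lv (P.u * dirA i j (xai s)) (g.2.2 (G0.ix (xai s) g) - g.2.2 (rtA (xai s) g))))

lemma axF_nn {P : Prm} {i j : Fin 3} {G0 : Ga} {Rm : ℝ} (g : CC.Gm) (s : Fin 4) : 0 ≤ axF P i j G0 Rm g s :=
  mul_nonneg (bi_nonneg _) (le_max_left _ _)

lemma axF_le {P : Prm} {i j : Fin 3} {G0 : Ga} {Rm : ℝ} (hR : 0 ≤ Rm) (g : CC.Gm) (s : Fin 4) : axF P i j G0 Rm g s ≤ Rm := by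
  unfold axF
  calc _ ≤ 1 * max 0 (min Rm _) := mul_le_mul_of_nonneg_right (bi_le _) (le_max_left _ _)
    _ ≤ Rm := by
      rw [one_mul]
      exact max_le hR (min_le_left _ _)

/-- position of a measurable curve at a measurable time -/
lemma meas_at {g : CC.Gm → C(I, ℂ)} {a : CC.Gm → I} (hg : Measurable g) (ha : Measurable a) : Measurable fun z => g z (a z) := by
  have h : Continuous fun z : C(I, ℂ) × I => z.1 z.2 := continuous_eval
  exact h.measurable.comp (hg.prodMk ha)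

lemma rtA_meas (k : Arm) : Measurable (rtA k) := by
  cases k
  · exact measurable_const
  · exact pji_cont.measurable.comp muG_meas
  · exact pji_cont.measurable.comp muG_meas
  · exact measurable_const

lemma tAt_tm (k : Arm) (g : CC.Gm) (s : ℝ) : tAt k g s = tmA k (muG g) s := by cases k <;> rfl

lemma tAt_meas (k : Arm) {s : CC.Gm → ℝ} (hs : Measurable s) : Measurable fun g => pji (tAt k g (s g)) := by
  have e : (fun g => pji (tAt k g (s g))) = fun g => pji (tmA k (muG g) (s g)) := by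
    funext g
    rw [tAt_tm]
  rw [e]
  exact pji_cont.measurable.comp ((tmA_cont k).measurable.comp (hs.prodMk muG_meas))

lemma rtA_rtI (k : Arm) (g : CC.Gm) : rtA k g = rtI k (pji (muG g)) := by cases k <;> rfl

lemma rtA_endI (k : Arm) (g : CC.Gm) : rtA (oppA k) g = endI k (pji (muG g)) := by cases k <;> rfl

lemma axF_meas {P : Prm} {i j : Fin 3} {G0 : Ga} (h : G0.Ms) {Rm : ℝ} (s : Fin 4) : Measurable fun g => axF P i j G0 Rm g s := by
  unfold axF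
  have h1 : Measurable fun g : CC.Gm => g.2.2 := measurable_snd.snd
  have h2 := meas_at h1 (tAt_meas (xai s) (h.x (xai s)))
  have h3 := meas_at h1 (rtA_meas (xai s))
  have h4 : Measurable fun v : ℂ => lv (P.u * dirA i j (xai s)) v := by
    unfold lv
    fun_prop
  exact (bi_ms (h.B (xai s))).mul (measurable_const.max (measurable_const.min (h4.comp (h2.sub h3))))

/-! ### 3. The package of a pair -/

/-- **gates of the arms** (records `K`, turns `T`, bases `y N x s`, arm `k` reads `s = aix k`), `G` = their limits -/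
structure GaL (U : Filter ℕ) (bb : ℝ) (PG : Measure CC.Gm) (D : Dt) (c0 : ℝ) (K : Arm → GP) (T : Arm → LSym)
    (y : ℕ → W3 × ℕ → Fin 4 → ℝ) (G : Ga) : Prop where
  ok : GOk D K T
  y0 : ∀ᶠ N in U, ∀ x, Spt x → ∀ s, 0 ≤ y N x s
  arms : AIn U bb PG (gA c0 K T fun k N x => y N x (aix k)) (gC K T fun k N x => y N x (aix k))
    (gX K T fun k N x => y N x (aix k)) G.B G.c G.x

/-- **closed conditions of the gates of the arms**, `d k` = directions, `E k` = record with the whole threshold -/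
def GaE (PG : Measure CC.Gm) (d : Arm → ℂ) (E : Arm → CC.Gm → Tp) (K : Arm → GP) (G : Ga) : Prop :=
  ∀ k, ∀ᵐ g ∂PG, g ∈ G.B k → FaI (d k) (E k g).l (E k g).m (K k).r1 (K k).r1' (K k).ρ1 (E k g).rg g.2.2 (rtA k g) (G.ic k g)
    (G.ix k g) (rtA (oppA k) g)

/-- **closed consequences of a class** with the thresholds `Y` (gates, soft part) -/
def ClC (PG : Measure CC.Gm) (D : Dt) (Y : CC.Gm → Fin 4 → ℝ) (S : Set CC.Gm) (Φ : CC.Gm → Fin 8 → ℝ) : Prop :=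
  ∀ᵐ g ∂PG, g ∈ S → clsK (D.th (Y g)) g.2.2 (pji (muG g)) (fun k => pji (Φ g k)) ≤ 0 ∧
    clsF D g.2.2 g.1 (pji (muG g)) (fun k => pji (Φ g k)) ≤ 0

/-- **the data of the pair `(i, j)` for one `P`**: `G0` = gates of the lattice 0, `H` = gates of the rotated lattice at the functional
thresholds, `Hl m n` = at the levels `yv`, all in the frame of the words (`cN`); `A` = the functional thresholds on the curves of the
lattice 0, `y` = functionals of the words -/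
structure Pk (U : Filter ℕ) (bb : ℝ) (PG : Measure CC.Gm) (P : Prm) (i j : Fin 3) (t0 c0 : ℝ) (K0 KR : Arm → GP)
    (G0 H : Ga) (Hl : ℕ → ℕ → Ga) (y : ℕ → W3 × ℕ → Fin 4 → ℝ) (A : CC.Gm → Fin 4 → ℝ) : Prop where
  g0 : GaL U bb PG (jD0 P i j) c0 K0 (trnA i j) (fun _ _ _ => 0) G0
  gR : GaL U bb PG (jDR P i j) c0 KR (trnA i j) y H
  gl : ∀ m n, GaL U bb PG (jDR P i j) c0 KR (trnA i j) (fun _ _ => yv (jDR P i j) t0 m n) (Hl m n)
  r0 : ∀ k, (endA P k).n.r2 < (K0 k).ρ1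
  rR : ∀ k, (endA P k).f.r2 < (KR k).ρ1
  ms0 : G0.Ms
  msR : H.Ms
  msl : ∀ m n, (Hl m n).Ms
  un0 : ∀ᵐ g ∂PG, G0.Un g
  unR : ∀ᵐ g ∂PG, H.Un g
  unl : ∀ m n, ∀ᵐ g ∂PG, (Hl m n).Un g
  -- the functional thresholds
  yb : ∃ R, ∀ N x s, 0 ≤ y N x s ∧ y N x s ≤ R
  Am : ∀ s, Measurable fun g => A g s
  A0 : ∀ g s, 0 ≤ A g s
  yA : ∀ s, Lm U (fun N => mwE N bb) cN PG (fun N x => y N x s) fun g => A (rotX P.u g) s
  Ax : ∀ k, ∀ᵐ g ∂PG, g ∈ G0.B k → 0 < A g (aix k) ∧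
    lv (P.u * dirA i j k) (g.2.2 (G0.ix k g) - g.2.2 (rtA k g)) = A g (aix k)
  -- the limits of the classes
  l0 : LvO U (fun N => mwE N bb) cN PG (jD0 P i j) (fun N => (jD0 P i j).A N (uT N)) (fun N => (jD0 P i j).B N (uT N))
    (fun _ _ _ => 0) (fun g => bi (g ∈ jK0 P i j G0)) (jT G0) (lamF (jD0 P i j) (jT G0))
  lRf : LvO U (fun N => mwE N bb) cN PG (jDR P i j) (fun N => (jDR P i j).A N (uT N)) (fun N => (jDR P i j).B N (uT N))
    y (fun g => bi (g ∈ k3S (jDR P i j) (⋂ k, H.B k) (jT H))) (jT H) (lamF (jDR P i j) (jT H))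
  lR : LvO U (fun N => mwE N bb) cN PG (jDR P i j) (if i = 0 then P.A0 else P.Ac i) (if j = 0 then P.A0 else P.Ac j)
    y (fun g => bi (g ∈ jKR P i j H)) (jT H) (lamF (jDR P i j) (jT H))
  llf : ∀ m n, LvO U (fun N => mwE N bb) cN PG (jDR P i j) (fun N => (jDR P i j).A N (uT N)) (fun N => (jDR P i j).B N (uT N))
    (fun _ _ => yv (jDR P i j) t0 m n) (fun g => bi (g ∈ k3S (jDR P i j) (⋂ k, (Hl m n).B k) (jT (Hl m n)))) (jT (Hl m n))
    (lamF (jDR P i j) (jT (Hl m n)))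
  ll : ∀ m n, LvO U (fun N => mwE N bb) cN PG (jDR P i j) (if i = 0 then P.A0 else P.Ac i) (if j = 0 then P.A0 else P.Ac j)
    (fun _ _ => yv (jDR P i j) t0 m n) (fun g => bi (g ∈ jKR P i j (Hl m n))) (jT (Hl m n)) (lamF (jDR P i j) (jT (Hl m n)))
  -- closed consequences, in the frame of the words
  k0 : ClC PG (jD0 P i j) (fun _ _ => 0) (jK0 P i j G0) (jT G0)
  kR : ClC PG (jDR P i j) (fun g => A (rotX P.u g)) (k3S (jDR P i j) (⋂ k, H.B k) (jT H)) (jT H)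
  kl : ∀ m n, ClC PG (jDR P i j) (fun _ => yv (jDR P i j) t0 m n) (k3S (jDR P i j) (⋂ k, (Hl m n).B k) (jT (Hl m n))) (jT (Hl m n))
  e0 : GaE PG (dirA i j) (fun k _ => (endA P k).n) K0 G0
  eR : GaE PG (dirA i j) (fun k g => (endA P k).f.up (A (rotX P.u g) (aix k))) KR H
  el : ∀ m n, GaE PG (dirA i j) (fun k _ => (endA P k).f.up (yv (jDR P i j) t0 m n (aix k))) KR (Hl m n)
  -- closed consequences, the rotated lattice on the curves of the lattice 0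
  eR' : GaE PG (fun k => P.u * dirA i j k) (fun k g => (endA P k).f.up (A g (aix k))) KR (H.rot P.u)
  el' : ∀ m n, GaE PG (fun k => P.u * dirA i j k) (fun k _ => (endA P k).f.up (yv (jDR P i j) t0 m n (aix k))) KR ((Hl m n).rot P.u)

/-! ### 4. The input -/

/-- **the input of the package** -/
structure PkI (U : Filter ℕ) (bb : ℝ) (PG : Measure CC.Gm) (P : Prm) (i j : Fin 3) (t0 c0 Rm : ℝ) (K0 KR : Arm → GP)
    (G0 H : Ga) (Hl : ℕ → ℕ → Ga) (y : ℕ → W3 × ℕ → Fin 4 → ℝ) : Prop where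
  g0 : GaL U bb PG (jD0 P i j) c0 K0 (trnA i j) (fun _ _ _ => 0) G0
  gR : GaL U bb PG (jDR P i j) c0 KR (trnA i j) y H
  gl : ∀ m n, GaL U bb PG (jDR P i j) c0 KR (trnA i j) (fun _ _ => yv (jDR P i j) t0 m n) (Hl m n)
  r0 : ∀ k, (endA P k).n.r2 < (K0 k).ρ1
  rR : ∀ k, (endA P k).f.r2 < (KR k).ρ1
  -- numbers
  cn : c0 < (jD0 P i j).V.D0 - ((jD0 P i j).P.rad + (jD0 P i j).Q.rad)
  cf : c0 < (jDR P i j).V.D0 - ((jDR P i j).P.rad + (jDR P i j).Q.rad)
  tu : ∀ k, ‖P.u - 1‖ * (K0 k).r1' < (endA P k).n.l + (endA P k).n.m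
  tR : ∀ k, (K0 k).r1' ≤ Rm
  -- thresholds
  yb : ∀ N x s, 0 ≤ y N x s ∧ y N x s ≤ Rm
  yA : ∀ s, Lm U (fun N => mwE N bb) cN PG (fun N x => y N x s) fun g => axF P i j G0 Rm (rotX P.u g) s
  -- generic soft parameters
  n0 : ClN PG (jD0 P i j) G0
  nR : ClN PG (jDR P i j) H
  nl : ∀ m n, ClN PG (jDR P i j) (Hl m n)
  mR : i = 0 → MnN PG (jDR P i j) P.p.s P.q.s H
  ml : i = 0 → ∀ m n, MnN PG (jDR P i j) P.p.s P.q.s (Hl m n)

/-! ### 5. The package -/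

/-- turned curves -/
lemma faI_rot {u d : ℂ} (hu : ‖u‖ = 1) {l m r1 r1' ρ1 ρ' : ℝ} {g : C(I, ℂ)} {r c x e : I}
    (h : FaI d l m r1 r1' ρ1 ρ' (u⁻¹ • g) r c x e) : FaI (u * d) l m r1 r1' ρ1 ρ' g r c x e := by
  have e1 : ∀ v : ℂ, lv d (u⁻¹ * v) = lv (u * d) v := fun v => by
    rw [lv_rot]
    congr 1
    rw [map_inv₀]
    have : (starRingEnd ℂ u)⁻¹ = u := by
      rw [inv_eq_iff_eq_inv, Complex.inv_def, Complex.normSq_eq_norm_sq, hu]
      simp
    rw [this]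
  have e2 : ∀ v : ℂ, ‖u⁻¹ * v‖ = ‖v‖ := fun v => by rw [norm_mul, norm_inv, hu, inv_one, one_mul]
  have e3 : ∀ t, (u⁻¹ • g) t = u⁻¹ * g t := fun t => rfl
  have e4 : ∀ s t, (u⁻¹ • g) s - (u⁻¹ • g) t = u⁻¹ * (g s - g t) := fun s t => by rw [e3, e3, mul_sub]
  obtain ⟨h1, h2, h3, h4, h5, h6, h7, h8⟩ := h
  refine ⟨?_, ?_, fun t ht => ?_, fun t ht => ?_, fun t ht => ?_, fun t ht => ?_, fun t ht => ?_, fun t ht => ?_⟩
  · rwa [e4, e1] at h1
  · rwa [e4, e1] at h2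
  · have := h3 t ht
    rwa [e3, e3, e1, e1] at this
  · have := h4 t ht
    rwa [e3, e3, e1, e1] at this
  · have := h5 t ht
    rwa [e4, e1, e2] at this
  · have := h6 t ht
    rwa [e4, e1, e2] at this
  · have := h7 t ht
    rwa [e4, e2] at this
  · have := h8 t ht
    rwa [e4, e2] at this

/-- the level in the turned direction -/
lemma lv_turn {u d v : ℂ} (hd : ‖d‖ = 1) : lv d v - ‖u - 1‖ * ‖v‖ ≤ lv (u * d) v := by
  have e : lv (u * d) v = lv d v + lv ((u - 1) * d) v := by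
    unfold lv
    rw [← Complex.add_re]
    congr 1
    rw [map_mul, map_mul, map_sub, map_one]
    ring
  have h : |lv ((u - 1) * d) v| ≤ ‖u - 1‖ * ‖v‖ := by
    unfold lv
    refine (Complex.abs_re_le_norm _).trans ?_
    rw [norm_mul, Complex.norm_conj, norm_mul, hd, mul_one]
  rw [e]
  have := neg_le_of_abs_le h
  linarith

section pk

variable {U : Filter ℕ} {bb : ℝ} {PG : Measure CC.Gm} {P : Prm} {i j : Fin 3} {t0 c0 Rm : ℝ} {K0 KR : Arm → GP}
  {G0 H : Ga} {Hl : ℕ → ℕ → Ga} {y : ℕ → W3 × ℕ → Fin 4 → ℝ}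

/-- the gates are measurable -/
lemma GaL.ms {D : Dt} {K : Arm → GP} {T : Arm → LSym} {G : Ga} (h : GaL U bb PG D c0 K T y G) : G.Ms :=
  ⟨fun k => (h.arms.ev k).ms', fun k => (h.arms.tc k).ms', fun k => (h.arms.tg k).ms'⟩

/-- the times of the gates -/
lemma GaL.un [U.NeBot] (hC : Cv U (fun N => mwE N bb) cN PG) {D : Dt} {K : Arm → GP} {T : Arm → LSym} {G : Ga}
    (h : GaL U bb PG D c0 K T y G) : ∀ᵐ g ∂PG, G.Un g := un_ae hC h.arms

/-- the dictionary -/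
lemma GaL.inn (hU : U ≤ atTop) {D : Dt} {K : Arm → GP} {T : Arm → LSym} {G : Ga} (h : GaL U bb PG D c0 K T y G) (hD : D.Ok)
    (hf : D.Gf) (hc : c0 < D.V.D0 - (D.P.rad + D.Q.rad)) :
    GaIn U bb PG D y (gA c0 K T fun k N x => y N x (aix k)) (gC K T fun k N x => y N x (aix k))
      (gX K T fun k N x => y N x (aix k)) G :=
  ⟨h.arms, h.y0, gt_dicF hD hf h.ok hc hU h.y0⟩

/-- **the closed conditions of the gates** -/
theorem GaL.fa [U.NeBot] (hU : U ≤ atTop) (hC : Cv U (fun N => mwE N bb) cN PG) (hP : ∀ᵐ y ∂PG, 0 < y.1) {D : Dt}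
    {K : Arm → GP} {T : Arm → LSym} {G : Ga} (h : GaL U bb PG D c0 K T y G) (hD : D.Ok) {Y : CC.Gm → Fin 4 → ℝ}
    (hy : ∀ s, Lm U (fun N => mwE N bb) cN PG (fun N x => y N x s) fun g => Y g s) (k : Arm) (h1 : 0 < (K k).ρ1)
    (h2 : 0 < (K k).ρ') : ∀ᵐ g ∂PG, g ∈ G.B k → FaI (D.gdr k) ((D.gtp k).l + Y g (aix k)) (D.gtp k).m (K k).r1 (K k).r1' (K k).ρ1
      (D.gtp k).rg g.2.2 (rtA k g) (G.ic k g) (G.ix k g) (rtA (oppA k) g) := by
  have hd : ‖D.gdr k‖ = 1 := by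
    cases k
    exacts [hD.d, hD.t, hD.t', hD.d']
  filter_upwards [arm_fa hU hC hP h.ok h.arms k hd h1 h2 (hy (aix k))] with g hg hB
  have h3 := hg hB
  have e1 : G.ic k g = pji (tmA k (muG g) (G.c k g)) := by
    show pji (tAt k g (G.c k g)) = _
    rw [tAt_tm]
  have e2 : G.ix k g = pji (tmA k (muG g) (G.x k g)) := by
    show pji (tAt k g (G.x k g)) = _
    rw [tAt_tm]
  rw [e1, e2, rtA_rtI, rtA_endI]
  exact h3

/-- closed consequences from the limit of the class -/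
theorem clC_of [U.NeBot] (hU : U ≤ atTop) (hC : Cv U (fun N => mwE N bb) cN PG) (hP : ∀ᵐ y ∂PG, 0 < y.1) {D : Dt} (hD : D.Ok)
    {S0 : Set CC.Gm} {Φ : CC.Gm → Fin 8 → ℝ} {Λ Y : CC.Gm → Fin 4 → ℝ}
    (H : LvO U (fun N => mwE N bb) cN PG D (fun N => D.A N (uT N)) (fun N => D.B N (uT N)) y (fun g => bi (g ∈ S0)) Φ Λ)
    (y0 : ∀ᶠ N in U, ∀ x, Spt x → ∀ s, 0 ≤ y N x s)
    (hy : ∀ s, Lm U (fun N => mwE N bb) cN PG (fun N x => y N x s) fun g => Y g s) : ClC PG D Y S0 Φ := by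
  have hA : ∀ᶠ N : ℕ in U, D.A N (uT N) ⊆ D.A N (uT N) := Eventually.of_forall fun _ => Subset.refl _
  have hB : ∀ᶠ N : ℕ in U, D.B N (uT N) ⊆ D.B N (uT N) := Eventually.of_forall fun _ => Subset.refl _
  filter_upwards [lvo_K hU hC hP hD hA hB H y0 hy, lvo_F hU hC hP hD hA hB H y0] with g h1 h2 hg
  exact ⟨h1 hg, h2 hg⟩

private lemma rotX_rinv {z : ℂ} (hz : ‖z‖ = 1) (g : CC.Gm) : rotX z (rotX z⁻¹ g) = g := by
  have hz0 : z ≠ 0 := by
    rintro rfl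
    rw [norm_zero] at hz
    exact zero_ne_one hz
  show ((g.1, g.2.1, z • (z⁻¹ • g.2.2)) : CC.Gm) = g
  rw [smul_smul, mul_inv_cancel₀ hz0, one_smul]

/-- the closed conditions on the curves of the lattice 0 -/
theorem GaE.turn (hz : ‖P.u‖ = 1) (hPz : PG.map (rotX P.u) = PG) {d : Arm → ℂ} {E : Arm → CC.Gm → Tp} {K : Arm → GP} {G : Ga}
    (h : GaE PG d E K G) : GaE PG (fun k => P.u * d k) (fun k g => E k (rotX P.u⁻¹ g)) K (G.rot P.u) := by
  intro k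
  filter_upwards [ae_rotX hz hPz (h k)] with g hg hB
  have h1 := hg hB
  have e1 : G.ic k (rotX P.u⁻¹ g) = (G.rot P.u).ic k g := by cases k <;> rfl
  have e2 : G.ix k (rotX P.u⁻¹ g) = (G.rot P.u).ix k g := by cases k <;> rfl
  have e3 : rtA k (rotX P.u⁻¹ g) = rtA k g := by cases k <;> rfl
  have e4 : rtA (oppA k) (rotX P.u⁻¹ g) = rtA (oppA k) g := by cases k <;> rfl
  rw [e1, e2, e3, e4] at h1
  exact faI_rot hz h1

/-- records of the ends -/
lemma gtp_D0 (P : Prm) (i j : Fin 3) (k : Arm) : (jD0 P i j).gtp k = (endA P k).n ∧ (jD0 P i j).gdr k = dirA i j k := by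
  cases k <;> exact ⟨rfl, rfl⟩

lemma gtp_DR (P : Prm) (i j : Fin 3) (k : Arm) : (jDR P i j).gtp k = (endA P k).f ∧ (jDR P i j).gdr k = dirA i j k := by
  cases k <;> exact ⟨rfl, rfl⟩

/-- **the package of a pair** -/
theorem pk_of [U.NeBot] (hU : U ≤ atTop) (hC : Cv U (fun N => mwE N bb) cN PG) (hP : ∀ᵐ y ∂PG, 0 < y.1) (ok : P.Ok)
    (hij : i ≠ j) (hj : j ≠ 0) (hz : ‖P.u‖ = 1) (hPz : PG.map (rotX P.u) = PG)
    (h0 : PkI U bb PG P i j t0 c0 Rm K0 KR G0 H Hl y) :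
    Pk U bb PG P i j t0 c0 K0 KR G0 H Hl y (axF P i j G0 Rm) := by
  have D0k : (jD0 P i j).Ok := D0_ok ok hij (wnA_or P i) (wnA_or P j)
  have DRk : (jDR P i j).Ok := DR_ok ok hij (wnA_or P i) (wnA_or P j) le_rfl le_rfl le_rfl le_rfl
  have f0 : (jD0 P i j).Gf := D0_gf ok (wnA_or P i) (wnA_or P j)
  have fR : (jDR P i j).Gf := DR_gf ok (wnA_or P i) (wnA_or P j)
  have i0 := h0.g0.inn hU D0k f0 h0.cn
  have iR := h0.gR.inn hU DRk fR h0.cf
  have il := fun m n => (h0.gl m n).inn hU DRk fR h0.cf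
  have l0 := lvo_j0 hU hC hP D0k i0 h0.n0
  have lRf := lvo_ga hU hC hP DRk iR h0.nR
  have llf := fun m n => lvo_ga hU hC hP DRk (il m n) (h0.nl m n)
  have c0' : ∀ s : Fin 4, Lm U (fun N => mwE N bb) cN PG (fun _ _ => (0 : Fin 4 → ℝ) s) fun _ => (0 : Fin 4 → ℝ) s :=
    fun s => Lm.const hC _
  have cl : ∀ m n, ∀ s : Fin 4, Lm U (fun N => mwE N bb) cN PG (fun _ _ => yv (jDR P i j) t0 m n s)
      fun _ => yv (jDR P i j) t0 m n s := fun m n s => Lm.const hC _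
  have okE : ∀ k, (endA P k).n.Ok ∧ (endA P k).f.Ok := fun k => by
    cases k
    exacts [⟨ok.p.n, ok.p.f⟩, ⟨ok.q.n, ok.q.f⟩, ⟨ok.q.n, ok.q.f⟩, ⟨ok.p.n, ok.p.f⟩]
  have r0 : ∀ k, 0 < (K0 k).ρ1 ∧ 0 < (K0 k).ρ' := fun k => by
    have h1 := (h0.g0.ok.g k).ρ'
    rw [(gtp_D0 P i j k).1] at h1
    have h2 := (okE k).1
    rw [h1]
    exact ⟨h2.r2.trans (h0.r0 k), by linarith [h2.rg, h2.r, h2.r2]⟩
  have rR : ∀ k, 0 < (KR k).ρ1 ∧ 0 < (KR k).ρ' := fun k => by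
    have h1 := (h0.gR.ok.g k).ρ'
    rw [(gtp_DR P i j k).1] at h1
    have h2 := (okE k).2
    rw [h1]
    exact ⟨h2.r2.trans (h0.rR k), by linarith [h2.rg, h2.r, h2.r2]⟩
  have e0 : GaE PG (dirA i j) (fun k _ => (endA P k).n) K0 G0 := fun k => by
    filter_upwards [h0.g0.fa hU hC hP D0k c0' k (r0 k).1 (r0 k).2] with g hg hB
    have h1 := hg hB
    rw [(gtp_D0 P i j k).1, (gtp_D0 P i j k).2] at h1
    have e1 : (endA P k).n.l + (0 : Fin 4 → ℝ) (aix k) = (endA P k).n.l := add_zero _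
    rw [e1] at h1
    exact h1
  have eR : GaE PG (dirA i j) (fun k g => (endA P k).f.up (axF P i j G0 Rm (rotX P.u g) (aix k))) KR H := fun k => by
    filter_upwards [h0.gR.fa hU hC hP DRk h0.yA k (rR k).1 (rR k).2] with g hg hB
    have h1 := hg hB
    rw [(gtp_DR P i j k).1, (gtp_DR P i j k).2] at h1
    exact h1
  have el : ∀ m n, GaE PG (dirA i j) (fun k _ => (endA P k).f.up (yv (jDR P i j) t0 m n (aix k))) KR (Hl m n) := fun m n k => by
    filter_upwards [(h0.gl m n).fa hU hC hP DRk (cl m n) k (rR k).1 (rR k).2] with g hg hB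
    have h1 := hg hB
    rw [(gtp_DR P i j k).1, (gtp_DR P i j k).2] at h1
    exact h1
  refine ⟨h0.g0, h0.gR, h0.gl, h0.r0, h0.rR, h0.g0.ms, h0.gR.ms, fun m n => (h0.gl m n).ms, h0.g0.un hC, h0.gR.un hC, fun m n => (h0.gl m n).un hC,
    ⟨Rm, h0.yb⟩, fun s => axF_meas h0.g0.ms s, fun g s => axF_nn g s, h0.yA, fun k => ?_, l0, lRf,
    lvo_jR hj hU hC hP DRk iR h0.nR h0.mR, llf, fun m n => lvo_jR hj hU hC hP DRk (il m n) (h0.nl m n) fun h => h0.ml h m n,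
    clC_of hU hC hP D0k l0 h0.g0.y0 c0', clC_of hU hC hP DRk lRf h0.gR.y0 h0.yA,
    fun m n => clC_of hU hC hP DRk (llf m n) (h0.gl m n).y0 (cl m n), e0, eR, el, ?_, fun m n => (el m n).turn hz hPz⟩
  · filter_upwards [e0 k] with g hg hB
    have h := hg hB
    have hd : ‖dirA i j k‖ = 1 := by cases k <;> exact ev_norm _
    have hx : BtI (rtA k g) (G0.ix k g) (G0.ix k g) := by
      rcases le_total (rtA k g) (G0.ix k g) with h1 | h1
      · exact Or.inl ⟨h1, le_rfl⟩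
      · exact Or.inr ⟨le_rfl, h1⟩
    have n1 := h.b1 _ hx
    obtain ⟨v, hv⟩ : ∃ v, v = g.2.2 (G0.ix k g) - g.2.2 (rtA k g) := ⟨_, rfl⟩
    have l1 := h.l
    have l2 := h.m
    have l3 : (endA P k).n.l + (endA P k).n.m ≤ lv (dirA i j k) v := by
      have e : v = (g.2.2 (G0.ix k g) - g.2.2 (G0.ic k g)) + (g.2.2 (G0.ic k g) - g.2.2 (rtA k g)) := by
        rw [hv]
        ring
      rw [e, lv_add]
      linarith
    have l4 := lv_turn (u := P.u) (v := v) hd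
    have l5 := h0.tu k
    have l6 : ‖P.u - 1‖ * ‖v‖ ≤ ‖P.u - 1‖ * (K0 k).r1' := mul_le_mul_of_nonneg_left (by rw [hv]; exact n1) (norm_nonneg _)
    have l7 : 0 < lv (P.u * dirA i j k) v := by linarith
    have l8 : lv (P.u * dirA i j k) v ≤ Rm := by
      have h1 : lv (P.u * dirA i j k) v ≤ ‖v‖ := by
        unfold lv
        refine (Complex.re_le_norm _).trans ?_
        rw [norm_mul, Complex.norm_conj, norm_mul, hz, hd, one_mul, one_mul]
      rw [← hv] at n1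
      exact h1.trans (n1.trans (h0.tR k))
    have e : axF P i j G0 Rm g (aix k) = lv (P.u * dirA i j k) v := by
      unfold axF
      rw [xai_aix, bi_pos hB, one_mul, ← hv, min_eq_right l8, max_eq_right l7.le]
    rw [← hv, e]
    exact ⟨l7, rfl⟩
  · have h := eR.turn hz hPz
    intro k
    filter_upwards [h k] with g hg hB
    have h1 := hg hB
    rw [rotX_rinv hz] at h1
    exact h1

end pk

end Pool.Agent.ROT.F3.CK
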