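import Pool.Agent.ROT.F3GenG3
import Pool.Agent.ROT.F3K3Z
import Pool.Agent.ROT.F3GenX0

/-!
# ROT, block F3, row GEN (helper11): the gates of all members, the interface of the lemmas for one `P`

* members (text of helper31): end `E : Bool` (false = p, true = q), class `a : Fin 3`, arm `κ`; `eA`, `enB`, `dxB`, `prG F i j` (gates of
  the pair `(i, j)`), `prY`, `axM` (functional threshold of a member); `trnA_eA`, `dirA_eA`, `endA_eA`, `axM_eq`;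
* **`FamN`** : native gates of all members; **`FamF`** : foreign gates over the bases `y E a κ`; `Thr` : the functional thresholds;
  `FamN.ok`, `FamF.ok` (ranges), `FamN.agr`, `FamF.agr` (coordinates); **`FamN.gal`**, **`FamF.gal`** : helper2's `GaL` of the pairs;
* `lvB` : the thresholds of the cells; `ObN`, `ObF` : the objects chosen at `.p (.f .l)` and at `.p (.n .r)`, **`RN`**, **`RF`** : what they
  satisfy; `RN.agr`, `RF.agr`.
-/

set_option autoImplicit false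

open MeasureTheory Filter Topology Set unitInterval

namespace Pool.Agent.ROT.F3E

open Pool.Agent.ROT.F3 Pool.Agent.ROT.F3.CK
open Pool.Agent.ROT.F3.LF (Cv Lm Ev bi)

/-! ### 1. Members -/

/-- the end of the arm -/
def eA : Arm → Bool
  | .fp => false
  | .bp => false
  | .bq => true
  | .fq => true

/-- the data of the end -/
def enB (P : Prm) (E : Bool) : En := cond E P.q P.p

/-- the index of the direction of the class `a` at the end `E` -/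
def dxB (E : Bool) (a : Fin 3) : Fin 3 := cond E (-a) a

/-- the gates of the pair `(i, j)` -/
def prG (F : Bool → Fin 3 → Ga) (i j : Fin 3) : Ga :=
  ⟨fun κ => (F (eA κ) (clA i j κ)).B κ, fun κ => (F (eA κ) (clA i j κ)).c κ, fun κ => (F (eA κ) (clA i j κ)).x κ⟩

/-- the thresholds of the pair on the words -/
def prY (y : Bool → Fin 3 → Arm → ℕ → W3 × ℕ → ℝ) (i j : Fin 3) : ℕ → W3 × ℕ → Fin 4 → ℝ := fun N x s =>
  y (eA (xai s)) (clA i j (xai s)) (xai s) N x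

/-- the functional threshold of a member, on the curves of the lattice 0 -/
noncomputable def axM (P : Prm) (F0 : Bool → Fin 3 → Ga) (Rm : ℝ) (E : Bool) (a : Fin 3) (κ : Arm) (g : CC.Gm) : ℝ :=
  bi (g ∈ (F0 E a).B κ) * max 0 (min Rm (lv (P.u * ev (dxB E a)) (g.2.2 ((F0 E a).ix κ g) - g.2.2 (rtA κ g))))

lemma endA_eA (P : Prm) (κ : Arm) : endA P κ = enB P (eA κ) := by cases κ <;> rfl

lemma dirA_eA (i j : Fin 3) (κ : Arm) : dirA i j κ = ev (dxB (eA κ) (clA i j κ)) := by cases κ <;> rfl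

lemma trnA_eA (i j : Fin 3) (κ : Arm) : trnA i j κ = rS (-dxB (eA κ) (clA i j κ)) := by cases κ <;> rfl

/-- helper2's functional thresholds -/
lemma axM_eq (P : Prm) (F0 : Bool → Fin 3 → Ga) (Rm : ℝ) (i j : Fin 3) (g : CC.Gm) (s : Fin 4) :
    axF P i j (prG F0 i j) Rm g s = axM P F0 Rm (eA (xai s)) (clA i j (xai s)) (xai s) g := by
  unfold axF axM
  rw [dirA_eA]
  rfl

lemma axM_nn (P : Prm) (F0 : Bool → Fin 3 → Ga) (Rm : ℝ) (E : Bool) (a : Fin 3) (κ : Arm) (g : CC.Gm) : 0 ≤ axM P F0 Rm E a κ g :=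
  mul_nonneg (LF.bi_nonneg _) (le_max_left _ _)

lemma axM_le (P : Prm) (F0 : Bool → Fin 3 → Ga) {Rm : ℝ} (hR : 0 ≤ Rm) (E : Bool) (a : Fin 3) (κ : Arm) (g : CC.Gm) :
    axM P F0 Rm E a κ g ≤ Rm := by
  unfold axM
  calc _ ≤ 1 * max 0 (min Rm _) := mul_le_mul_of_nonneg_right (LF.bi_le _) (le_max_left _ _)
    _ ≤ Rm := by
      rw [one_mul]
      exact max_le hR (min_le_left _ _)

lemma prG_ms {F : Bool → Fin 3 → Ga} (h : ∀ E a, (F E a).Ms) (i j : Fin 3) : (prG F i j).Ms :=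
  ⟨fun κ => (h (eA κ) (clA i j κ)).B κ, fun κ => (h (eA κ) (clA i j κ)).c κ, fun κ => (h (eA κ) (clA i j κ)).x κ⟩

/-! ### 2. The families -/

/-- **native gates of all members** (scales `scN i * ρ`), one choice of the auxiliary radii per end -/
structure FamN (V : Ultrafilter ℕ) (bb : ℝ) (PG : Measure CC.Gm) (S : ℕ → ℝ) (c0 ρ : ℝ) (P : Prm) (K0 : Bool → F3.GP)
    (F0 : Bool → Fin 3 → Ga) : Prop where
  gr : ∀ E, ∃ r : AR, K0 E = grN ρ (enB P E).n r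
  sg : ∀ E κ x, SGN V bb PG S c0 ρ κ (rS x) (fun _ _ => 0) (K0 E)
  ai : ∀ E a κ, AI1 (V : Filter ℕ) bb PG κ (fun N x => c0 < dst N x ∧ sgE (K0 E) (rS (-dxB E a)) 0 N κ x)
    (fun N x => sgc (K0 E) (rS (-dxB E a)) 0 N κ x) (fun N x => sgx (K0 E) (rS (-dxB E a)) 0 N κ x)
    ((F0 E a).B κ) ((F0 E a).c κ) ((F0 E a).x κ)

/-- **foreign gates of all members** (scales `scF i * ρ`) over the bases `y E a κ`, one choice of the auxiliary radii per end -/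
structure FamF (V : Ultrafilter ℕ) (bb : ℝ) (PG : Measure CC.Gm) (S : ℕ → ℝ) (c0 ρ : ℝ) (P : Prm) (K1 : Bool → F3.GP)
    (y : Bool → Fin 3 → Arm → ℕ → W3 × ℕ → ℝ) (F1 : Bool → Fin 3 → Ga) : Prop where
  gr : ∀ E, ∃ r : AR, K1 E = grF ρ (enB P E).f r
  sg : ∀ E a κ, SGF V bb PG S c0 ρ κ (rS (-dxB E a)) (y E a κ) (K1 E)
  ai : ∀ E a κ, AI1 (V : Filter ℕ) bb PG κ (fun N x => c0 < dst N x ∧ sgE (K1 E) (rS (-dxB E a)) (y E a κ N x) N κ x)
    (fun N x => sgc (K1 E) (rS (-dxB E a)) (y E a κ N x) N κ x) (fun N x => sgx (K1 E) (rS (-dxB E a)) (y E a κ N x) N κ x)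
    ((F1 E a).B κ) ((F1 E a).c κ) ((F1 E a).x κ)

/-- **the functional thresholds** -/
structure Thr (V : Ultrafilter ℕ) (bb : ℝ) (PG : Measure CC.Gm) (P : Prm) (F0 : Bool → Fin 3 → Ga) (Rm : ℝ)
    (y : Bool → Fin 3 → Arm → ℕ → W3 × ℕ → ℝ) : Prop where
  yb : ∀ E a κ N x, 0 ≤ y E a κ N x ∧ y E a κ N x ≤ Rm
  lm : ∀ E a κ, Lm (V : Filter ℕ) (fun N => mwE N bb) cN PG (y E a κ) fun g => axM P F0 Rm E a κ (rotX P.u g)
  /-- the value on the curves with gates -/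
  ax : ∀ E a κ, ∀ᵐ g ∂PG, g ∈ (F0 E a).B κ → 0 < axM P F0 Rm E a κ g ∧
    lv (P.u * ev (dxB E a)) (g.2.2 ((F0 E a).ix κ g) - g.2.2 (rtA κ g)) = axM P F0 Rm E a κ g

section

variable {V : Ultrafilter ℕ} {bb : ℝ} {PG : Measure CC.Gm} {S : ℕ → ℝ} {c0 ρ τ : ℝ} {P P' : Prm} {K0 K1 : Bool → F3.GP}
  {F0 F1 : Bool → Fin 3 → Ga} {y : Bool → Fin 3 → Arm → ℕ → W3 × ℕ → ℝ} {Rm : ℝ}

lemma enB_nr (hp : P.p.Nr (bE ρ τ)) (hq : P.q.Nr (bE ρ τ)) (E : Bool) : (enB P E).Nr (bE ρ τ) := by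
  cases E
  exacts [hp, hq]

/-- the ranges -/
lemma FamN.ok (h : FamN V bb PG S c0 ρ P K0 F0) (hρ : 0 < ρ) (hp : P.p.Nr (bE ρ τ)) (hq : P.q.Nr (bE ρ τ)) (E : Bool) :
    (K0 E).Ok (enB P E).n := by
  obtain ⟨r, hr⟩ := h.gr E
  rw [hr]
  exact grN_ok hρ (enB_nr hp hq E).n r

/-- the ranges -/
lemma FamF.ok (h : FamF V bb PG S c0 ρ P K1 y F1) (hρ : 0 < ρ) (hp : P.p.Nr (bE ρ τ)) (hq : P.q.Nr (bE ρ τ)) (E : Bool) :
    (K1 E).Ok (enB P E).f := by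
  obtain ⟨r, hr⟩ := h.gr E
  rw [hr]
  exact grF_ok hρ (enB_nr hp hq E).f r

/-- the native gates depend on the coordinates before `.p (.f .l)` -/
lemma FamN.agr (hAg : Gn.Agr (.p (.f .l)) P P') (h : FamN V bb PG S c0 ρ P K0 F0) : FamN V bb PG S c0 ρ P' K0 F0 := by
  refine ⟨fun E => ?_, h.sg, h.ai⟩
  obtain ⟨r, hr⟩ := h.gr E
  refine ⟨r, ?_⟩
  rw [hr]
  cases E
  · exact (gates_n_agr hAg r).1.symm
  · exact (gates_n_agr hAg r).2.symm

/-- the foreign gates depend on the coordinates before `.p (.n .r)` -/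
lemma FamF.agr (hAg : Gn.Agr (.p (.n .r)) P P') (h : FamF V bb PG S c0 ρ P K1 y F1) : FamF V bb PG S c0 ρ P' K1 y F1 := by
  refine ⟨fun E => ?_, h.sg, h.ai⟩
  obtain ⟨r, hr⟩ := h.gr E
  refine ⟨r, ?_⟩
  rw [hr]
  cases E
  · exact (grF_congr (hAg.g (.p (.f .l)) (Gn.rk_lt (by decide +kernel))) (hAg.g (.p (.f .m)) (Gn.rk_lt (by decide +kernel)))
      (hAg.g (.p (.f .rg)) (Gn.rk_lt (by decide +kernel))) (hAg.g (.p (.f .th)) (Gn.rk_lt (by decide +kernel))) r).symm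
  · exact (grF_congr (hAg.g (.q (.f .l)) (Gn.rk_lt (by decide +kernel))) (hAg.g (.q (.f .m)) (Gn.rk_lt (by decide +kernel)))
      (hAg.g (.q (.f .rg)) (Gn.rk_lt (by decide +kernel))) (hAg.g (.q (.f .th)) (Gn.rk_lt (by decide +kernel))) r).symm

/-- gates of a pair from gates of its members, any directions and thresholds -/
lemma gal_of {D : Dt} {K : Bool → F3.GP} {F : Bool → Fin 3 → Ga} {i j : Fin 3} {w : ℕ → W3 × ℕ → Fin 4 → ℝ}
    (hok : ∀ κ, (K (eA κ)).Ok (D.gtp κ)) (hT : ∀ κ, (trnA i j κ).L (D.gdr κ) = 1)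
    (h0 : ∀ᶠ N in (V : Filter ℕ), ∀ x, Spt x → ∀ s, 0 ≤ w N x s)
    (h : ∀ κ, AI1 (V : Filter ℕ) bb PG κ
      (fun N x => c0 < dst N x ∧ sgE (K (eA κ)) (rS (-dxB (eA κ) (clA i j κ))) (w N x (aix κ)) N κ x)
      (fun N x => sgc (K (eA κ)) (rS (-dxB (eA κ) (clA i j κ))) (w N x (aix κ)) N κ x)
      (fun N x => sgx (K (eA κ)) (rS (-dxB (eA κ) (clA i j κ))) (w N x (aix κ)) N κ x)
      ((F (eA κ) (clA i j κ)).B κ) ((F (eA κ) (clA i j κ)).c κ) ((F (eA κ) (clA i j κ)).x κ)) :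
    GaL (V : Filter ℕ) bb PG D c0 (fun κ => K (eA κ)) (trnA i j) w (prG F i j) := by
  refine ⟨⟨hok, hT⟩, h0, ain_iff.2 fun κ => ?_⟩
  have := h κ
  rw [← trnA_eA i j κ] at this
  exact this

/-- **the native gates of a pair** -/
theorem FamN.gal (h : FamN V bb PG S c0 ρ P K0 F0) (hρ : 0 < ρ) (hp : P.p.Nr (bE ρ τ)) (hq : P.q.Nr (bE ρ τ)) (i j : Fin 3) :
    GaL (V : Filter ℕ) bb PG (jD0 P i j) c0 (fun κ => K0 (eA κ)) (trnA i j) (fun _ _ _ => 0) (prG F0 i j) := by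
  have ok := h.ok hρ hp hq
  refine gal_of (fun κ => ?_) (fun κ => ?_) (Eventually.of_forall fun _ _ _ _ => le_rfl) fun κ => h.ai _ _ κ
  · cases κ
    exacts [ok false, ok true, ok true, ok false]
  · cases κ <;> exact trn_ev _

/-- **the foreign gates of a pair**, bases of the members; `w` = the bases of the pair -/
theorem FamF.gal' (h : FamF V bb PG S c0 ρ P K1 y F1) (hρ : 0 < ρ) (hp : P.p.Nr (bE ρ τ)) (hq : P.q.Nr (bE ρ τ)) (i j : Fin 3)
    {w : ℕ → W3 × ℕ → Fin 4 → ℝ} (hw : ∀ N x κ, w N x (aix κ) = y (eA κ) (clA i j κ) κ N x) (hw0 : ∀ N x s, 0 ≤ w N x s) :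
    GaL (V : Filter ℕ) bb PG (jDR P i j) c0 (fun κ => K1 (eA κ)) (trnA i j) w (prG F1 i j) := by
  have ok := h.ok hρ hp hq
  refine gal_of (fun κ => ?_) (fun κ => ?_) (Eventually.of_forall fun _ _ _ _ => hw0 _ _ _) fun κ => ?_
  · cases κ
    exacts [ok false, ok true, ok true, ok false]
  · cases κ <;> exact trn_ev _
  · simp only [hw]
    exact h.ai _ _ κ

/-- **the foreign gates of a pair**, functional bases -/
theorem FamF.gal (h : FamF V bb PG S c0 ρ P K1 y F1) (hρ : 0 < ρ) (hp : P.p.Nr (bE ρ τ)) (hq : P.q.Nr (bE ρ τ)) (i j : Fin 3)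
    (hy : ∀ E a κ N x, 0 ≤ y E a κ N x) :
    GaL (V : Filter ℕ) bb PG (jDR P i j) c0 (fun κ => K1 (eA κ)) (trnA i j) (prY y i j) (prG F1 i j) :=
  h.gal' hρ hp hq i j (fun N x κ => by
    unfold prY
    rw [xai_aix]) fun _ _ _ => hy _ _ _ _ _

lemma Thr.f (h : Thr V bb PG P F0 Rm y) (i j : Fin 3) (s : Fin 4) :
    Lm (V : Filter ℕ) (fun N => mwE N bb) cN PG (fun N x => prY y i j N x s) fun g => axF P i j (prG F0 i j) Rm (rotX P.u g) s := by
  have e : (fun g => axF P i j (prG F0 i j) Rm (rotX P.u g) s) =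
      fun g => axM P F0 Rm (eA (xai s)) (clA i j (xai s)) (xai s) (rotX P.u g) := by
    funext g
    exact axM_eq P F0 Rm i j _ s
  rw [e]
  exact h.lm _ _ _

end

/-! ### 3. The objects -/

/-- the side of the threshold of the arm -/
def sxA : Arm → Fin 2
  | .fp => 0
  | .bq => 0
  | .fq => 1
  | .bp => 1

/-- the thresholds of the cells `m` (at p), `n` (at q), for the member `(E, κ)` -/
noncomputable def lvB (P : Prm) (t0 : ℝ) (m n : ℕ) (E : Bool) (κ : Arm) : ℝ := thr t0 (enB P E).f.l (cond E n m) (sxA κ)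

lemma lvB_eq (P : Prm) (t0 : ℝ) (m n : ℕ) (i j : Fin 3) (κ : Arm) : yv (jDR P i j) t0 m n (aix κ) = lvB P t0 m n (eA κ) κ := by
  cases κ <;> rfl

lemma lvB_nn (P : Prm) (t0 : ℝ) (m n : ℕ) (E : Bool) (κ : Arm) : 0 ≤ lvB P t0 m n E κ := thr_nonneg _ _ _ _

/-- the objects before the coordinate `.p (.f .l)` : native records and gates, functional thresholds on the words -/
structure ObN where
  K0 : Bool → F3.GP
  F0 : Bool → Fin 3 → Ga
  y : Bool → Fin 3 → Arm → ℕ → W3 × ℕ → ℝ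
  yn : ∀ E a κ N x, 0 ≤ y E a κ N x

/-- the objects before the coordinate `.p (.n .r)` : foreign records, gates at the functional thresholds, gates of the cells -/
structure ObF where
  K1 : Bool → F3.GP
  F1 : Bool → Fin 3 → Ga
  Fl : ℕ → ℕ → Bool → Fin 3 → Ga

instance : Nonempty ObN := ⟨⟨fun _ => ⟨0, 0, 0, 0, 0, 0, 0, 0, 0⟩, fun _ _ => ⟨fun _ => ∅, fun _ _ => 0, fun _ _ => 0⟩, fun _ _ _ _ _ => 0,
  fun _ _ _ _ _ => le_rfl⟩⟩

instance : Nonempty ObF := ⟨⟨fun _ => ⟨0, 0, 0, 0, 0, 0, 0, 0, 0⟩, fun _ _ => ⟨fun _ => ∅, fun _ _ => 0, fun _ _ => 0⟩,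
  fun _ _ _ _ => ⟨fun _ => ∅, fun _ _ => 0, fun _ _ => 0⟩⟩⟩

/-- the relation of the first objects -/
structure RN (V : Ultrafilter ℕ) (bb : ℝ) (PG : Measure CC.Gm) (S : ℕ → ℝ) (c0 ρ Rm : ℝ) (a : ObN) (P : Prm) : Prop where
  fam : FamN V bb PG S c0 ρ P a.K0 a.F0
  thr : Thr V bb PG P a.F0 Rm a.y

/-- the relation of the second objects -/
structure RF (V : Ultrafilter ℕ) (bb : ℝ) (PG : Measure CC.Gm) (S : ℕ → ℝ) (c0 ρ t0 : ℝ) (a : ObN) (b : ObF) (P : Prm) : Prop where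
  fam : FamF V bb PG S c0 ρ P b.K1 a.y b.F1
  cel : ∀ m n, FamF V bb PG S c0 ρ P b.K1 (fun E _ κ _ _ => lvB P t0 m n E κ) (b.Fl m n)

section

variable {V : Ultrafilter ℕ} {bb : ℝ} {PG : Measure CC.Gm} {S : ℕ → ℝ} {c0 ρ τ t0 Rm : ℝ} {P P' : Prm} {a : ObN} {b : ObF}

lemma axM_congr (h : P'.u = P.u) (F0 : Bool → Fin 3 → Ga) (Rm : ℝ) (E : Bool) (x : Fin 3) (κ : Arm) (g : CC.Gm) :
    axM P' F0 Rm E x κ g = axM P F0 Rm E x κ g := by
  unfold axM
  rw [h]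

lemma Thr.agr {F0 : Bool → Fin 3 → Ga} {y : Bool → Fin 3 → Arm → ℕ → W3 × ℕ → ℝ} (hu : P'.u = P.u) (h : Thr V bb PG P F0 Rm y) :
    Thr V bb PG P' F0 Rm y := by
  refine ⟨h.yb, fun E x κ => ?_, fun E x κ => ?_⟩
  · simp only [axM_congr hu]
    rw [hu]
    exact h.lm E x κ
  · simp only [axM_congr hu]
    rw [hu]
    exact h.ax E x κ

lemma RN.agr (hAg : Gn.Agr (.p (.f .l)) P P') (h : RN V bb PG S c0 ρ Rm a P) : RN V bb PG S c0 ρ Rm a P' :=
  ⟨h.fam.agr hAg, h.thr.agr hAg.u⟩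

lemma lvB_agr (hAg : Gn.Agr (.p (.n .r)) P P') (m n : ℕ) (E : Bool) (κ : Arm) : lvB P' t0 m n E κ = lvB P t0 m n E κ := by
  have e : (enB P' E).f.l = (enB P E).f.l := by
    cases E
    · exact hAg.g (.p (.f .l)) (Gn.rk_lt (by decide +kernel))
    · exact hAg.g (.q (.f .l)) (Gn.rk_lt (by decide +kernel))
  unfold lvB
  rw [e]

lemma RF.agr (hAg : Gn.Agr (.p (.n .r)) P P') (h : RF V bb PG S c0 ρ t0 a b P) : RF V bb PG S c0 ρ t0 a b P' := by
  refine ⟨h.fam.agr hAg, fun m n => ?_⟩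
  have := (h.cel m n).agr hAg
  simp only [lvB_agr hAg]
  exact this

end

end Pool.Agent.ROT.F3E
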