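import Pool.Agent.ROT.F3LimEv

/-!
# F3, limit side (helper90): closed consequences of events, quotients

* **`Ev.mem`** : if `F (c, p) ≤ δ` on the event `A` for every `δ > 0` (eventually, up to words of small mass), then `F (g, Φ g) ≤ 0`
  a.e. on the limit of `A` (no condition on the parameters);
* **`Lm.div`** : quotients `q / r` with `|q| ≤ C r`, `r → Ψ ≠ 0` a.e.
-/

set_option autoImplicit false
set_option linter.unusedSectionVars false

open MeasureTheory Filter Topology Set BoundedContinuousFunction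
open scoped ENNReal NNReal Classical

namespace Pool.Agent.ROT.F3.LF

variable {ι : Type*} {l : Filter ι} {Ω : ι → Type*} [∀ i, MeasurableSpace (Ω i)] {P : ∀ i, Measure (Ω i)}
  {X : Type*} [PseudoMetricSpace X] [MeasurableSpace X] [BorelSpace X] {c : ∀ i, Ω i → X} {ν : Measure X}

section mem

variable [CompleteSpace X] [SecondCountableTopology X] {κ : Type*} [Fintype κ] {p : ∀ i, Ω i → κ → ℝ} {Φ : X → κ → ℝ}
  {A : ∀ i, Ω i → Prop} {𝒜 : Set X}

/-- **closed consequences of an event** -/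
theorem Ev.mem [l.NeBot] (hC : Cv l P c ν) (hp : ∀ k, Lm l P c ν (fun i ω => p i ω k) fun x => Φ x k) (hA : Ev l P c ν A 𝒜)
    {F : X × (κ → ℝ) → ℝ} (hF : Continuous F)
    (sq : ∀ δ : ℝ, 0 < δ → ∀ᶠ i in l, ∃ B : Set (Ω i), MeasurableSet B ∧ (P i).real B ≤ δ ∧ ∀ ω, ω ∉ B → A i ω →
      F (c i ω, p i ω) ≤ δ) : ∀ᵐ x ∂ν, x ∈ 𝒜 → F (x, Φ x) ≤ 0 := by
  have hfin := hC.fin'
  have key : ∀ m : ℕ, ∀ᵐ x ∂ν, x ∈ 𝒜 → F (x, Φ x) ≤ 1 / ((m : ℝ) + 1) := by
    intro m
    obtain ⟨δ, hδd⟩ : ∃ δ : ℝ, δ = 1 / ((m : ℝ) + 1) := ⟨_, rfl⟩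
    have hδ : 0 < δ := by
      rw [hδd]
      positivity
    rw [← hδd]
    have hf : Continuous fun t : ℝ => rmp ((t - δ) / δ) := rmp_cont.comp (by fun_prop)
    have h1 := Ev.mul hC hA (Lm.ramp hC hp hF hf (fun _ => rmp_nonneg _) fun _ => rmp_le _)
    have h2 := h1.tendsto hC
    have h3 : ∫ x, bi (x ∈ 𝒜) * rmp ((F (x, Φ x) - δ) / δ) ∂ν ≤ 0 := by
      refine le_of_forall_pos_le_add fun ε hε => ?_
      rw [zero_add]
      have hε' : 0 < min δ ε := lt_min hδ hε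
      refine le_of_tendsto h2 ?_
      filter_upwards [sq _ hε'] with i hi
      obtain ⟨B, mB, hB, hω⟩ := hi
      have := hC.fin i
      have hle : ∀ ω, bi (A i ω) * rmp ((F (c i ω, p i ω) - δ) / δ) ≤ B.indicator (fun _ => (1 : ℝ)) ω := fun ω => by
        by_cases h4 : ω ∈ B
        · rw [indicator_of_mem h4]
          calc bi (A i ω) * rmp ((F (c i ω, p i ω) - δ) / δ) ≤ 1 * 1 :=
                mul_le_mul (bi_le _) (rmp_le _) (rmp_nonneg _) zero_le_one
            _ = 1 := one_mul 1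
        · rw [indicator_of_notMem h4]
          by_cases h5 : A i ω
          · have h6 := (hω ω h4 h5).trans (min_le_left _ _)
            rw [rmp_of (div_nonpos_of_nonpos_of_nonneg (by linarith) hδ.le), mul_zero]
          · rw [bi_neg h5, zero_mul]
      calc ∫ ω, bi (A i ω) * rmp ((F (c i ω, p i ω) - δ) / δ) ∂P i ≤ ∫ ω, B.indicator (fun _ => (1 : ℝ)) ω ∂P i :=
            integral_mono (h1.int hC i) ((integrable_const _).indicator mB) hle
        _ = (P i).real B := by rw [integral_indicator_const _ mB, smul_eq_mul, mul_one]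
        _ ≤ ε := hB.trans (min_le_right _ _)
    have h4 : ∀ x, 0 ≤ bi (x ∈ 𝒜) * rmp ((F (x, Φ x) - δ) / δ) := fun x => mul_nonneg (bi_nonneg _) (rmp_nonneg _)
    have h5 : ∫ x, bi (x ∈ 𝒜) * rmp ((F (x, Φ x) - δ) / δ) ∂ν = 0 := le_antisymm h3 (integral_nonneg h4)
    rw [integral_eq_zero_iff_of_nonneg h4 (h1.int' hC)] at h5
    filter_upwards [h5] with x hx hx2
    have hx' : bi (x ∈ 𝒜) * rmp ((F (x, Φ x) - δ) / δ) = 0 := hx
    rw [bi_pos hx2, one_mul] at hx'
    by_contra h6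
    push Not at h6
    have h7 : 0 < (F (x, Φ x) - δ) / δ := div_pos (by linarith) hδ
    have h8 : 0 < rmp ((F (x, Φ x) - δ) / δ) := by
      unfold rmp
      exact lt_max_of_lt_right (lt_min one_pos h7)
    linarith
  have hall : ∀ᵐ x ∂ν, ∀ m : ℕ, x ∈ 𝒜 → F (x, Φ x) ≤ 1 / ((m : ℝ) + 1) := ae_all_iff.2 key
  filter_upwards [hall] with x hx h1
  refine ge_of_tendsto' (tendsto_one_div_add_atTop_nhds_zero_nat (𝕜 := ℝ)) fun m => hx m h1

end mem

section div

variable [CompleteSpace X] [SecondCountableTopology X] {q r : ∀ i, Ω i → ℝ} {Φ Ψ : X → ℝ}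

lemma div_bd {C a b : ℝ} (hC : 0 ≤ C) (hb : 0 ≤ b) (h : |a| ≤ C * b) : |a / b| ≤ C := by
  rcases hb.eq_or_lt with h0 | h0
  · rw [← h0, div_zero, abs_zero]
    exact hC
  · rw [abs_div, abs_of_pos h0, div_le_iff₀ h0]
    exact h

lemma div_sub_div_max {C δ a b : ℝ} (hC : 0 ≤ C) (hδ : 0 < δ) (hb : 0 ≤ b) (h : |a| ≤ C * b) :
    |a / b - a / max b δ| ≤ C * (1 - rmp (b / δ)) * 2 := by
  rcases le_total δ b with h1 | h1
  · have h2 : (1 : ℝ) ≤ b / δ := by rwa [le_div_iff₀ hδ, one_mul]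
    rw [max_eq_left h1, sub_self, abs_zero, rmp_of' h2]
    simp
  · rw [max_eq_right h1]
    rcases hb.eq_or_lt with h0 | h0
    · have ha : a = 0 := by
        rw [← h0, mul_zero] at h
        exact abs_nonpos_iff.1 h
      rw [ha, zero_div, zero_div, sub_zero, abs_zero]
      have := rmp_le (b / δ)
      have h3 : 0 ≤ C * (1 - rmp (b / δ)) * 2 := by
        have : 0 ≤ 1 - rmp (b / δ) := by linarith
        positivity
      exact h3
    · have h2 : a / b - a / δ = a / b * (1 - b / δ) := by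
        field_simp
      have h3 : 0 ≤ 1 - b / δ := by
        have : b / δ ≤ 1 := by rwa [div_le_one hδ]
        linarith
      have h4 : rmp (b / δ) = b / δ := by
        unfold rmp
        rw [min_eq_right (by linarith), max_eq_right (by positivity)]
      have h5 := div_bd hC hb h
      rw [h2, abs_mul, abs_of_nonneg h3, h4]
      have h6 : |a / b| * (1 - b / δ) ≤ C * (1 - b / δ) := mul_le_mul_of_nonneg_right h5 h3
      have h7 : 0 ≤ C * (1 - b / δ) := mul_nonneg hC h3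
      linarith

/-- **quotients** -/
theorem Lm.div (hC : Cv l P c ν) (hq : Lm l P c ν q Φ) (hr : Lm l P c ν r Ψ) {C : ℝ} (hC0 : 0 ≤ C) (r0 : ∀ i ω, 0 ≤ r i ω)
    (qr : ∀ i ω, |q i ω| ≤ C * r i ω) (r0' : ∀ x, 0 ≤ Ψ x) (qr' : ∀ x, |Φ x| ≤ C * Ψ x) (hne : ∀ᵐ x ∂ν, Ψ x ≠ 0) :
    Lm l P c ν (fun i ω => q i ω / r i ω) fun x => Φ x / Ψ x := by
  have hfin := hC.fin'
  refine Lm.closed hC (fun i => (hq.ms i).div (hr.ms i)) ⟨C, fun i ω => div_bd hC0 (r0 i ω) (qr i ω)⟩ (hq.ms'.div hr.ms')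
    ⟨C, fun x => div_bd hC0 (r0' x) (qr' x)⟩ fun ε hε => ?_
  -- the gap
  have hgap : Tendsto (fun m : ℕ => ∫ x, C * (1 - rmp (Ψ x / (1 / ((m : ℝ) + 1)))) * 2 ∂ν) atTop (𝓝 0) := by
    have h1 : Tendsto (fun m : ℕ => ∫ x, C * (1 - rmp (Ψ x / (1 / ((m : ℝ) + 1)))) * 2 ∂ν) atTop (𝓝 (∫ _, (0 : ℝ) ∂ν)) := by
      refine tendsto_integral_of_dominated_convergence (fun _ => C * 2) (fun m => ?_) (integrable_const _) (fun m => ?_) ?_
      · have := rmp_cont.measurable.comp (hr.ms'.div_const (1 / ((m : ℝ) + 1)))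
        exact (((measurable_const.sub this).const_mul C).mul_const 2).aestronglyMeasurable
      · refine Eventually.of_forall fun x => ?_
        have g0 := rmp_nonneg (Ψ x / (1 / ((m : ℝ) + 1)))
        have g1 := rmp_le (Ψ x / (1 / ((m : ℝ) + 1)))
        have g2 : 0 ≤ C * (1 - rmp (Ψ x / (1 / ((m : ℝ) + 1)))) := mul_nonneg hC0 (by linarith)
        rw [Real.norm_eq_abs, abs_of_nonneg (by linarith)]
        nlinarith
      · filter_upwards [hne] with x hx
        have hpos : 0 < Ψ x := lt_of_le_of_ne (r0' x) (Ne.symm hx)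
        refine tendsto_const_nhds.congr' ?_
        have h2 : Tendsto (fun n : ℕ => 1 / ((n : ℝ) + 1)) atTop (𝓝 0) := tendsto_one_div_add_atTop_nhds_zero_nat
        filter_upwards [h2.eventually (gt_mem_nhds hpos)] with m hm
        have hd : (0 : ℝ) < 1 / ((m : ℝ) + 1) := by positivity
        have h3 : (1 : ℝ) ≤ Ψ x / (1 / ((m : ℝ) + 1)) := by
          rw [le_div_iff₀ hd, one_mul]
          exact hm.le
        rw [rmp_of' h3]
        simp
    simpa using h1
  obtain ⟨m, hm⟩ := (hgap.eventually (gt_mem_nhds (show (0 : ℝ) < ε by positivity))).exists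
  obtain ⟨δ, hδd⟩ : ∃ δ : ℝ, δ = 1 / ((m : ℝ) + 1) := ⟨_, rfl⟩
  have hδ : 0 < δ := by
    rw [hδd]
    positivity
  rw [← hδd] at hm
  have lg : Lm l P c ν (fun i ω => C * (1 - rmp (r i ω / δ)) * 2) fun x => C * (1 - rmp (Ψ x / δ)) * 2 :=
    Lm.comp1 hC hr (f := fun t => C * (1 - rmp (t / δ)) * 2) (by
      have := rmp_cont
      fun_prop)
  have hne' : ∀ t : ℝ, max t δ ≠ 0 := fun t => (lt_of_lt_of_le hδ (le_max_right _ _)).ne'
  have lq : Lm l P c ν (fun i ω => q i ω / max (r i ω) δ) fun x => Φ x / max (Ψ x) δ :=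
    Lm.comp2 hC hq hr (f := fun a b => a / max b δ)
      (continuous_fst.div (continuous_snd.max continuous_const) fun z => hne' z.2)
  refine ⟨_, _, lq, ?_, ?_⟩
  · have hle : ∀ x, |Φ x / Ψ x - Φ x / max (Ψ x) δ| ≤ C * (1 - rmp (Ψ x / δ)) * 2 := fun x =>
      div_sub_div_max hC0 hδ (r0' x) (qr' x)
    refine le_trans (integral_mono ?_ (lg.int' hC) hle) hm.le
    exact ((itg (hq.ms'.div hr.ms') fun x => div_bd hC0 (r0' x) (qr' x)).sub (lq.int' hC)).abs
  · filter_upwards [(lg.tendsto hC).eventually (gt_mem_nhds hm)] with i hi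
    have := hC.fin i
    have hle : ∀ ω, |q i ω / r i ω - q i ω / max (r i ω) δ| ≤ C * (1 - rmp (r i ω / δ)) * 2 := fun ω =>
      div_sub_div_max hC0 hδ (r0 i ω) (qr i ω)
    refine le_trans (integral_mono ?_ (lg.int hC i) hle) hi.le
    exact ((itg ((hq.ms i).div (hr.ms i)) fun ω => div_bd hC0 (r0 i ω) (qr i ω)).sub (lq.int hC i)).abs

end div

end Pool.Agent.ROT.F3.LF
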