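import Pool.Agent.ROT.F3ClsL
import Pool.Agent.ROT.F3LimEw
import Pool.Agent.ROT.F3ClsG

/-!
# F3, the limit classes (helper90): systems of words

* `WSy` : systems of words with their curves (`g`), durations (`L`) and units `S`, `T`;
* **`soft_ev`** : gates `E` (an event with marks), a condition `A` with a statistic `F` (`Sqz`): `Ev (E ∧ A) (ℰ ∩ {F ≤ 0})` if
  `ν {ℰ, F = 0} = 0`; **`soft_mem`** : closed consequences;
* closed consequences of the gates: `preK`, `rsK`, `kcK` with `preG_le`, `rsG_le`, `kcG_le`; balls as statistics: `ball_sqz`;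
* shifts: `preF_sh` ..: all the soft parameters moved by one `t`: the statistic minus `t`; `null_sh` : null off a countable set of `t`.
-/

set_option autoImplicit false
set_option linter.unusedSectionVars false

namespace Pool.Agent.ROT.F3

open MeasureTheory Filter Topology Set ComplexConjugate unitInterval
open scoped NNReal ENNReal Classical

/-! ### 1. Systems of words -/

/-- the point of the unit interval -/
noncomputable def pji (t : ℝ) : I := projIcc 0 1 zero_le_one t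

lemma pji_cont : Continuous pji := continuous_projIcc (h := zero_le_one)

lemma pji_coe (t : I) : pji t = t := by
  unfold pji
  rw [projIcc_of_mem zero_le_one t.2]

section sys

variable {ι : Type*} {l : Filter ι} {Ω : ι → Type*} [∀ i, MeasurableSpace (Ω i)] {P : ∀ i, Measure (Ω i)}
  {X : Type*} [PseudoMetricSpace X] [MeasurableSpace X] [BorelSpace X] {c : ∀ i, Ω i → X} {ν : Measure X}

/-- **a system of words**: word, number of steps, units -/
structure WSy (l : Filter ι) (c : ∀ i, Ω i → X) (w : ∀ i, Ω i → W3) (n : ∀ i, Ω i → ℕ) (S T : ι → ℝ) (g : X → C(I, ℂ))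
    (L : X → ℝ) : Prop where
  hg : Continuous g
  hL : Continuous L
  eg : ∀ i ω, g (c i ω) = crv (w i ω) (n i ω) (S i)
  eL : ∀ i ω, L (c i ω) = n i ω / T i
  hn : ∀ i ω, n i ω ≤ (w i ω).length
  hS : Tendsto S l atTop
  hT : ∀ᶠ i in l, 0 < T i

variable [CompleteSpace X] [SecondCountableTopology X] {κ : Type*} [Fintype κ] {p : ∀ i, Ω i → κ → ℝ} {Φ : X → κ → ℝ}
  {w : ∀ i, Ω i → W3} {n : ∀ i, Ω i → ℕ} {S T : ι → ℝ} {g : X → C(I, ℂ)} {L : X → ℝ} {E A : ∀ i, Ω i → Prop} {ℰ : Set X}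
  {K : κ → ∀ i, Ω i → ℕ} {F : C(I, ℂ) → ℝ → (κ → I) → ℝ}

lemma WSy.small (hW : WSy l c w n S T g L) {δ : ℝ} (hδ : 0 < δ) : ∀ᶠ i in l, 0 < S i ∧ 3 / S i ≤ δ := by
  filter_upwards [hW.hS.eventually_ge_atTop (3 / δ), hW.hS.eventually_gt_atTop 0] with i h1 h2
  refine ⟨h2, ?_⟩
  rw [div_le_iff₀ h2]
  rw [div_le_iff₀ hδ] at h1
  linarith

/-- the statistic as a function of the point of `X` and of the real marks -/
lemma F_cont (hW : WSy l c w n S T g L) (hF : Continuous fun z : C(I, ℂ) × ℝ × (κ → I) => F z.1 z.2.1 z.2.2) :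
    Continuous fun z : X × (κ → ℝ) => F (g z.1) (L z.1) fun k => pji (z.2 k) := by
  have h1 : Continuous fun z : X × (κ → ℝ) => (g z.1, L z.1, fun k => pji (z.2 k)) :=
    (hW.hg.comp continuous_fst).prodMk ((hW.hL.comp continuous_fst).prodMk
      (continuous_pi fun k => pji_cont.comp ((continuous_apply k).comp continuous_snd)))
  exact hF.comp h1

lemma F_at (hW : WSy l c w n S T g L) {i : ι} {ω : Ω i} (h : ∀ k, p i ω k = ((fr (K k i ω) (n i ω) : I) : ℝ)) :
    F (g (c i ω)) (L (c i ω)) (fun k => pji (p i ω k)) =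
      F (crv (w i ω) (n i ω) (S i)) (n i ω / T i) fun k => fr (K k i ω) (n i ω) := by
  rw [hW.eg, hW.eL]
  congr 1
  funext k
  rw [h k, pji_coe]

/-- **conditions with a statistic, on the event `E` where the marks exist** -/
theorem soft_ev (hC : LF.Cv l P c ν) [∀ i, DiscreteMeasurableSpace (Ω i)] (hW : WSy l c w n S T g L)
    (hp : ∀ k, LF.Lm l P c ν (fun i ω => p i ω k) fun x => Φ x k) (hE : LF.Ev l P c ν E ℰ)
    (hK : ∀ i ω, E i ω → ∀ k, p i ω k = ((fr (K k i ω) (n i ω) : I) : ℝ))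
    (hF : Continuous fun z : C(I, ℂ) × ℝ × (κ → I) => F z.1 z.2.1 z.2.2)
    (hA : ∀ᶠ i in l, ∀ ω, E i ω → Sqz (A i ω)
      (F (crv (w i ω) (n i ω) (S i)) (n i ω / T i) fun k => fr (K k i ω) (n i ω)) (3 / S i))
    (h0 : ν {x | x ∈ ℰ ∧ F (g x) (L x) (fun k => pji (Φ x k)) = 0} = 0) :
    LF.Ev l P c ν (fun i ω => E i ω ∧ A i ω) (ℰ ∩ {x | F (g x) (L x) (fun k => pji (Φ x k)) ≤ 0}) := by
  refine LF.Ev.sand hC hp hE (F_cont hW hF) (fun i => MeasurableSet.of_discrete) (fun δ hδ => ?_) h0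
  filter_upwards [hA, hW.small hδ] with i hi hs
  refine ⟨∅, MeasurableSet.empty, by simpa using hδ.le, fun ω _ hω => ?_⟩
  have h1 := (hi ω hω).mono hs.2
  have h2 := F_at (F := F) (T := T) hW (hK i ω hω)
  rw [h2]
  exact ⟨h1.up, h1.dn⟩

/-- **closed consequences of the event `E`** -/
theorem soft_mem [l.NeBot] (hC : LF.Cv l P c ν) (hW : WSy l c w n S T g L)
    (hp : ∀ k, LF.Lm l P c ν (fun i ω => p i ω k) fun x => Φ x k) (hE : LF.Ev l P c ν E ℰ)
    (hK : ∀ i ω, E i ω → ∀ k, p i ω k = ((fr (K k i ω) (n i ω) : I) : ℝ))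
    (hF : Continuous fun z : C(I, ℂ) × ℝ × (κ → I) => F z.1 z.2.1 z.2.2)
    (hA : ∀ᶠ i in l, ∀ ω, E i ω → F (crv (w i ω) (n i ω) (S i)) (n i ω / T i) (fun k => fr (K k i ω) (n i ω)) ≤ 3 / S i) :
    ∀ᵐ x ∂ν, x ∈ ℰ → F (g x) (L x) (fun k => pji (Φ x k)) ≤ 0 := by
  refine LF.Ev.mem hC hp hE (F_cont hW hF) fun δ hδ => ?_
  filter_upwards [hA, hW.small hδ] with i hi hs
  refine ⟨∅, MeasurableSet.empty, by simpa using hδ.le, fun ω _ hω => ?_⟩
  have h2 := F_at (F := F) (T := T) hW (hK i ω hω)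
  rw [h2]
  exact (hi ω hω).trans hs.2

/-- the limit marks are in the unit interval -/
theorem mark_mem [l.NeBot] (hC : LF.Cv l P c ν) {q : ∀ i, Ω i → ℝ} {Ψ : X → ℝ} (h : LF.Lm l P c ν q Ψ)
    (h0 : ∀ᶠ i in l, ∀ ω, 0 ≤ q i ω) (h1 : ∀ᶠ i in l, ∀ ω, q i ω ≤ 1) : ∀ᵐ x ∂ν, Ψ x ∈ Icc (0 : ℝ) 1 := by
  filter_upwards [LF.Lm.nonneg hC h h0, LF.Lm.le hC h (LF.Lm.const hC 1) h1] with x a b
  exact ⟨a, b⟩

/-- maxima of two statistics -/
lemma null_max {F G : X → ℝ} (h : ν {x | x ∈ ℰ ∧ F x = 0} = 0) (h' : ν {x | x ∈ ℰ ∧ G x = 0} = 0) :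
    ν {x | x ∈ ℰ ∧ max (F x) (G x) = 0} = 0 := by
  refine measure_mono_null (fun x hx => ?_) (measure_union_null h h')
  obtain ⟨h1, h2⟩ := hx
  rcases max_choice (F x) (G x) with h3 | h3
  · exact Or.inl ⟨h1, by rw [← h3]; exact h2⟩
  · exact Or.inr ⟨h1, by rw [← h3]; exact h2⟩

/-- **all but countably many shifts are allowed** -/
theorem null_sh (hC : LF.Cv l P c ν) (hW : WSy l c w n S T g L) (hp : ∀ k, LF.Lm l P c ν (fun i ω => p i ω k) fun x => Φ x k)
    (ℰ : Set X) (hF : Continuous fun z : C(I, ℂ) × ℝ × (κ → I) => F z.1 z.2.1 z.2.2) :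
    ∃ Z : Set ℝ, Z.Countable ∧ ∀ t : ℝ, t ∉ Z → ν {x | x ∈ ℰ ∧ F (g x) (L x) (fun k => pji (Φ x k)) - t = 0} = 0 := by
  have hΦm : Measurable Φ := measurable_pi_iff.2 fun k => (hp k).ms'
  refine ⟨_, LF.gen hC.fin' hΦm (F_cont hW hF), fun t ht => ?_⟩
  simp only [ne_eq, mem_ofPred_eq, not_not] at ht
  refine measure_mono_null (fun x hx => ?_) ht
  have := hx.2
  show _ = t
  linarith

end sys

/-! ### 2. Closed consequences of the gates -/

/-- closed conditions of a double gate: levels, left and right, balls -/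
noncomputable def preK (d : ℂ) (P : Tp) (g : C(I, ℂ)) (a b c : I) : ℝ :=
  max (max (max (P.l - lv d (cutc g a b 1)) (stS (fun v => lv d v) (cutc g a b) - lv d (cutc g a b 1)))
    (stS (fun v => ‖v‖) (cutc g a b) - P.r))
    (max (max (P.m - lv d (cutc g b c 1)) (stS (fun v => lv d v) (cutc g b c) - lv d (cutc g b c 1)))
      (max (stS (fun v => -lv d v) (cutc g b c)) (stS (fun v => ‖v‖) (cutc g b c) - P.r2)))

/-- closed form of `RestC` -/
noncomputable def reK (d : ℂ) (rg : ℝ) (g : C(I, ℂ)) (a b : I) : ℝ := stS (fun v => min (-lv d v) (rg - ‖v‖)) (cutc g a b)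

/-- balls of a double gate -/
noncomputable def balF (r r2 : ℝ) (g : C(I, ℂ)) (a b c : I) : ℝ :=
  max (stS (fun v => ‖v‖) (cutc g a b) - r) (stS (fun v => ‖v‖) (cutc g b c) - r2)

/-- closed form of `right` of `KcM` -/
noncomputable def riK (d : ℂ) (g : C(I, ℂ)) (a b : I) : ℝ := stS (fun v => -lv d v) (cutc g a b)

section lipK

variable {d : ℂ}

lemma lvN_lip (hd : ‖d‖ = 1) : LipschitzWith 1 (fun v : ℂ => -lv d v) := (lv_lip hd).neg

lemma reK_lip (hd : ‖d‖ = 1) (rg : ℝ) : LipschitzWith 1 (fun v : ℂ => min (-lv d v) (rg - ‖v‖)) := by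
  have := (lvN_lip hd).min (fBn_lip (bn := rg))
  rw [max_self] at this
  exact this

variable {Z : Type*} [TopologicalSpace Z] {g : Z → C(I, ℂ)} {a b c : Z → I}

lemma lv_continuous (hd : ‖d‖ = 1) : Continuous (lv d) := (lv_lip hd).continuous

lemma Continuous.preK (P : Tp) (hd : ‖d‖ = 1) (hg : Continuous g) (ha : Continuous a) (hb : Continuous b)
    (hc : Continuous c) : Continuous fun z => preK d P (g z) (a z) (b z) (c z) := by
  unfold F3.preK
  have h1 := (lv_continuous hd).comp (Continuous.cutc1 hg ha hb)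
  have h2 := (lv_continuous hd).comp (Continuous.cutc1 hg hb hc)
  exact (((continuous_const.sub h1).max ((Continuous.stS' (lv_lip hd) (Continuous.cutc' hg ha hb)).sub h1)).max
    ((Continuous.stS' lip_norm (Continuous.cutc' hg ha hb)).sub continuous_const)).max
    (((continuous_const.sub h2).max ((Continuous.stS' (lv_lip hd) (Continuous.cutc' hg hb hc)).sub h2)).max
      ((Continuous.stS' (lvN_lip hd) (Continuous.cutc' hg hb hc)).max
        ((Continuous.stS' lip_norm (Continuous.cutc' hg hb hc)).sub continuous_const)))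

lemma Continuous.reK (hd : ‖d‖ = 1) (rg : ℝ) (hg : Continuous g) (ha : Continuous a) (hb : Continuous b) :
    Continuous fun z => reK d rg (g z) (a z) (b z) := Continuous.stS' (reK_lip hd rg) (Continuous.cutc' hg ha hb)

lemma Continuous.riK (hd : ‖d‖ = 1) (hg : Continuous g) (ha : Continuous a) (hb : Continuous b) :
    Continuous fun z => riK d (g z) (a z) (b z) := Continuous.stS' (lvN_lip hd) (Continuous.cutc' hg ha hb)

lemma Continuous.balF (r r2 : ℝ) (hg : Continuous g) (ha : Continuous a) (hb : Continuous b) (hc : Continuous c) :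
    Continuous fun z => balF r r2 (g z) (a z) (b z) (c z) :=
  ((Continuous.stS' lip_norm (Continuous.cutc' hg ha hb)).sub continuous_const).max
    ((Continuous.stS' lip_norm (Continuous.cutc' hg hb hc)).sub continuous_const)

end lipK

section words

variable {w : W3} {n : ℕ} {S T : ℝ} {d d' : ℂ}

/-- the condition on all vertices of a piece, as a bound -/
lemma sq_dn {f : ℂ → ℝ} {K : ℝ≥0} (hf : LipschitzWith K f) {i j : ℕ} (ei : Even i) (ej : Even j) (hi : i ≤ n) (hj : j ≤ n)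
    (hn : n ≤ w.length) {a η : ℝ} (hS : 0 < S) (hη : K / S ≤ η) (h : ∀ k : ℕ, k ≤ (pcw w i j).length → f (ps (pcw w i j) k / S) ≤ a) :
    stS f (cutc (crv w n S) (fr i n) (fr j n)) ≤ a + η := by
  have := (sq_pcw hf ei ej hi hj hn hS hη).dn h
  linarith

lemma lv_cut1 {i j : ℕ} (ei : Even i) (ej : Even j) (hi : i ≤ n) (hj : j ≤ n) (hn : n ≤ w.length) :
    lv d (cutc (crv w n S) (fr i n) (fr j n) 1) = lv d (en (pcw w i j)) / S := by
  rw [en_pcw ei ej hi hj hn, stlv_div]

/-- **the closed consequences of a double gate** -/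
theorem preG_le {P : Tp} (hd : ‖d‖ = 1) {i j k : ℕ} (h : Btw i j k) (ei : Even i) (ej : Even j) (ek : Even k)
    (hi : i ≤ n) (hk : k ≤ n) (hn : n ≤ w.length) (hS : 0 < S) (hG : PreG d P S (pcw w i k) (ndi i j)) :
    preK d P (crv w n S) (fr i n) (fr j n) (fr k n) ≤ 1 / S := by
  have hj : j ≤ n := by rcases h with h | h <;> omega
  have hη0 : 0 ≤ 1 / S := by positivity
  have h1 : ((1 : ℝ≥0) : ℝ) / S ≤ 1 / S := by rw [NNReal.coe_one]
  have t1 := pcw_take (w := w) h hi hn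
  have t2 := pcw_drop (w := w) h hi hn
  obtain ⟨_, hA, fA, hB, fB⟩ := hG.g
  rw [t1] at hA fA
  rw [t2] at hB fB
  have v1 := lv_cut1 (w := w) (S := S) (d := d) ei ej hi hj hn
  have v2 := lv_cut1 (w := w) (S := S) (d := d) ej ek hj hk hn
  unfold preK
  rw [v1, v2]
  refine max_le (max_le (max_le ?_ ?_) ?_) (max_le (max_le ?_ ?_) (max_le ?_ ?_))
  · have : P.l ≤ lv d (en (pcw w i j)) / S := by
      rw [le_div_iff₀ hS]
      exact fA.1
    linarith
  · have := sq_dn (lv_lip hd) (a := lv d (en (pcw w i j)) / S) ei ej hi hj hn hS h1 fun m hm => by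
      rw [stlv_div]
      exact div_le_div_of_nonneg_right (hA.left m hm) hS.le
    linarith
  · have := sq_dn lip_norm (a := P.r) ei ej hi hj hn hS h1 fun m hm => (ball_iff hS).1 (hA.ball m hm)
    linarith
  · have : P.m ≤ lv d (en (pcw w j k)) / S := by
      rw [le_div_iff₀ hS]
      exact fB.1
    linarith
  · have := sq_dn (lv_lip hd) (a := lv d (en (pcw w j k)) / S) ej ek hj hk hn hS h1 fun m hm => by
      rw [stlv_div]
      exact div_le_div_of_nonneg_right (hB.t.left m hm) hS.le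
    linarith
  · have := sq_dn (lvN_lip hd) (a := 0) ej ek hj hk hn hS h1 fun m hm => by
      rw [stlv_div, neg_nonpos]
      rcases Nat.eq_zero_or_pos m with rfl | hm0
      · rw [ps_zero]
        simp [lv]
      · exact div_nonneg (hB.right m hm0 hm).le hS.le
    linarith
  · have := sq_dn lip_norm (a := P.r2) ej ek hj hk hn hS h1 fun m hm => (ball_iff hS).1 (hB.t.ball m hm)
    linarith

/-- **the closed consequence of `RestC`** -/
theorem restC_le {rg : ℝ} (hd : ‖d‖ = 1) {i j : ℕ} (ei : Even i) (ej : Even j) (hi : i ≤ n) (hj : j ≤ n)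
    (hn : n ≤ w.length) (hS : 0 < S) (hG : RestC d (rg * S) (pcw w i j)) :
    reK d rg (crv w n S) (fr i n) (fr j n) ≤ 1 / S := by
  have h1 : ((1 : ℝ≥0) : ℝ) / S ≤ 1 / S := by rw [NNReal.coe_one]
  have := sq_dn (reK_lip hd rg) (a := 0) ei ej hi hj hn hS h1 fun m hm => by
    rcases Nat.eq_zero_or_pos m with rfl | hm0
    · rw [ps_zero]
      refine (min_le_left _ _).trans ?_
      simp [lv]
    · by_cases hb : ‖ps (pcw w i j) m‖ ≤ rg * S
      · refine (min_le_left _ _).trans ?_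
        rw [stlv_div, neg_nonpos]
        exact div_nonneg (hG m hm0 hm hb).le hS.le
      · refine (min_le_right _ _).trans ?_
        push Not at hb
        rw [stnorm_div _ hS, sub_nonpos, le_div_iff₀ hS]
        exact hb.le
  unfold reK
  linarith

/-- strictly right -/
theorem right_le (hd : ‖d‖ = 1) {i j : ℕ} (ei : Even i) (ej : Even j) (hi : i ≤ n) (hj : j ≤ n)
    (hn : n ≤ w.length) (hS : 0 < S) (hG : ∀ m : ℕ, 0 < m → m ≤ (pcw w i j).length → 0 < lv d (ps (pcw w i j) m)) :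
    riK d (crv w n S) (fr i n) (fr j n) ≤ 1 / S := by
  have h1 : ((1 : ℝ≥0) : ℝ) / S ≤ 1 / S := by rw [NNReal.coe_one]
  have := sq_dn (lvN_lip hd) (a := 0) ei ej hi hj hn hS h1 fun m hm => by
    rw [stlv_div, neg_nonpos]
    rcases Nat.eq_zero_or_pos m with rfl | hm0
    · rw [ps_zero]
      simp [lv]
    · exact div_nonneg (hG m hm0 hm).le hS.le
  unfold riK
  linarith

/-- **the balls of a double gate as statistics** -/
theorem bal_sq {r r2 : ℝ} {i j k : ℕ} (h : Btw i j k) (ei : Even i) (ej : Even j) (ek : Even k)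
    (hi : i ≤ n) (hk : k ≤ n) (hn : n ≤ w.length) {η : ℝ} (hS : 0 < S) (hη : 3 / S ≤ η) :
    Sqz ((∀ m : ℕ, m ≤ (pcw w i j).length → ‖ps (pcw w i j) m‖ ≤ r * S) ∧
      ∀ m : ℕ, m ≤ (pcw w j k).length → ‖ps (pcw w j k) m‖ ≤ r2 * S)
      (balF r r2 (crv w n S) (fr i n) (fr j n) (fr k n)) η := by
  have hj : j ≤ n := by rcases h with h | h <;> omega
  have h1 : ((1 : ℝ≥0) : ℝ) / S ≤ η := by
    refine le_trans ?_ hη
    rw [NNReal.coe_one]
    exact div_le_div_of_nonneg_right (by norm_num) hS.le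
  refine ((sq_pcw lip_norm ei ej hi hj hn hS h1).and (sq_pcw lip_norm ej ek hj hk hn hS h1)).iff ?_
  exact and_congr (forall₂_congr fun m _ => ball_iff hS) (forall₂_congr fun m _ => ball_iff hS)

end words

/-! ### 3. Shifts of the soft parameters -/

/-- the soft parameters of a gate moved by `t` -/
def Tp.sh (P : Tp) (t : ℝ) : Tp :=
  { P with κ1 := P.κ1 + t, κ := P.κ + t, e := P.e - t, w := P.w + t, κs := P.κs + t, la := P.la + t, lb := P.lb + t }

/-- the windows moved by `t` -/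
noncomputable def Wn.sh (W : Wn) (t : ℝ) : Wn := ⟨W.D0 - t, W.D1 + t, if W.t0 ≤ 0 then W.t0 else W.t0 - t, W.t1 + t⟩

/-- strip and no return moved by `t` -/
def Sr.sh (s : Sr) (t : ℝ) : Sr := ⟨s.e + t, s.hw + t, s.len + t, s.bn - t⟩

section sh

variable {d d' : ℂ} {g : C(I, ℂ)} {L : ℝ} {a b c a' b' c' : I} (t : ℝ)

lemma duU_sh (la : ℝ) : duU (la + t) L a b = duU la L a b - t := by
  unfold duU
  ring

lemma preF_sh (P : Tp) : preF d (P.sh t) g L a b c = preF d P g L a b c - t := by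
  unfold preF Tp.sh
  dsimp only
  rw [duU_sh, duU_sh, ← max_sub_sub_right, ← max_sub_sub_right, ← max_sub_sub_right]
  have a1 : fCo d P.cs (cutc g a b 1) + (P.e - t) = fCo d P.cs (cutc g a b 1) + P.e - t := by ring
  have a2 : stS (fCo d P.c) (cutc g b c) - (P.κ1 + t) = stS (fCo d P.c) (cutc g b c) - P.κ1 - t := by ring
  rw [a1, a2]

lemma stS_sub (f : ℂ → ℝ) (hf : Continuous f) (h : C(I, ℂ)) : stS (fun v => f v - t) h = stS f h - t := by
  have hf' : Continuous fun v => f v - t := hf.sub continuous_const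
  refine le_antisymm ?_ ?_
  · rw [stS_le_iff hf']
    intro s
    linarith [le_stS hf h s]
  · rw [sub_le_iff_le_add, stS_le_iff hf]
    intro s
    have := le_stS hf' h s
    linarith

lemma fWe_sh (w cs κs : ℝ) (v : ℂ) : fWe d d' (w + t) cs (κs + t) v = fWe d d' w cs κs v - t := by
  unfold fWe
  rw [← min_sub_sub_right]
  have a1 : lv d v - (w + t) = lv d v - w - t := by ring
  have a2 : cs * ‖v‖ - (κs + t) - lv d' v = cs * ‖v‖ - κs - lv d' v - t := by ring
  rw [a1, a2]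

lemma wdF_sh {w cs κs : ℝ} (h0 : 0 ≤ cs) (h1 : cs ≤ 1) (hd : ‖d‖ = 1) (hd' : ‖d'‖ = 1) :
    wdF d d' (w + t) cs (κs + t) g a b = wdF d d' w cs κs g a b - t := by
  unfold wdF
  rw [← stS_sub t _ (fWe_lip hd hd' h0 h1).continuous]
  congr 1
  funext v
  exact fWe_sh t w cs κs v

lemma paiF_sh {P P' : Tp} (hP : P.Co) (hP' : P'.Co) (hd : ‖d‖ = 1) (hd' : ‖d'‖ = 1) :
    paiF d d' (P.sh t) (P'.sh t) g L a b c a' b' c' = paiF d d' P P' g L a b c a' b' c' - t := by
  unfold paiF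
  rw [preF_sh, preF_sh]
  have h1 : wdF d d' (P.sh t).w (P'.sh t).cs (P'.sh t).κs g a' b' = wdF d d' P.w P'.cs P'.κs g a' b' - t :=
    wdF_sh t hP'.s0 hP'.s1 hd hd'
  have h2 : wdF d' d (P'.sh t).w (P.sh t).cs (P.sh t).κs g a b = wdF d' d P'.w P.cs P.κs g a b - t :=
    wdF_sh t hP.s0 hP.s1 hd' hd
  rw [h1, h2, max_sub_sub_right, max_sub_sub_right, max_sub_sub_right]

lemma nrF_sh (s : Sr) (hd : ‖d‖ = 1) : nrF d (s.sh t) g a b = nrF d s g a b - t := by
  have hf : Continuous (fSt d s.e s.len s.hw) := (fSt_lip hd).continuous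
  have hg : Continuous (fBn s.bn) := fBn_lip.continuous
  have e1 : fSt d (s.sh t).e (s.sh t).len (s.sh t).hw = fun v => fSt d s.e s.len s.hw v - t := by
    funext v
    unfold fSt Sr.sh
    dsimp only
    rw [← max_sub_sub_right, ← max_sub_sub_right]
    have a1 : -(s.e + t) - lv d v = -s.e - lv d v - t := by ring
    have a2 : lv d v - (s.len + t) = lv d v - s.len - t := by ring
    have a3 : |ltl d v| - (s.hw + t) = |ltl d v| - s.hw - t := by ring
    rw [a1, a2, a3]
  have e2 : fBn (s.sh t).bn = fun v => fBn s.bn v - t := by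
    funext v
    unfold fBn Sr.sh
    dsimp only
    ring
  unfold nrF
  rw [e1, e2]
  have hf' : Continuous fun v => fSt d s.e s.len s.hw v - t := hf.sub continuous_const
  have hg' : Continuous fun v => fBn s.bn v - t := hg.sub continuous_const
  refine le_antisymm (le_of_forall_pos_le_add fun ε hε => ?_) (le_of_forall_pos_le_add fun ε hε => ?_)
  · obtain ⟨τ, t1, t2⟩ := of_stN hf hg (cutc g a b) (a := stN (fSt d s.e s.len s.hw) (fBn s.bn) (cutc g a b) + ε) (by linarith)
    refine stN_le hf' hg' _ τ (fun s hs => ?_) fun s hs => ?_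
    · linarith [t1 s hs]
    · linarith [t2 s hs]
  · obtain ⟨τ, t1, t2⟩ := of_stN hf' hg' (cutc g a b)
      (a := stN (fun v => fSt d s.e s.len s.hw v - t) (fun v => fBn s.bn v - t) (cutc g a b) + ε) (by linarith)
    rw [sub_le_iff_le_add]
    refine stN_le hf hg _ τ (fun s hs => ?_) fun s hs => ?_
    · linarith [t1 s hs]
    · linarith [t2 s hs]

/-- the statistic of the rests without the lower duration for `t0 ≤ 0` -/
noncomputable def rsB (d d' : ℂ) (P Q : Tp) (W : Wn) (g : C(I, ℂ)) (L : ℝ) (a b : I) : ℝ :=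
  max (max (max (stS (fRa d P.c P.r0) (cutc g a b) - P.κ) (stS (fRa d' Q.c Q.r0) (cutc g b a) - Q.κ))
    (max (W.D0 - ‖cutc g a b 1‖) (‖cutc g a b 1‖ - W.D1)))
    (max (if W.t0 ≤ 0 then duU W.t1 L a b else W.t0 - |(b : ℝ) - a| * L) (duU W.t1 L a b))

lemma rsB_of_rsF {P Q : Tp} {W : Wn} (h : rsF d d' P Q W g L a b = 0) : rsB d d' P Q W g L a b = 0 := by
  unfold rsF duL at h
  unfold rsB
  by_cases h0 : W.t0 ≤ 0
  · rw [if_pos h0] at h ⊢
    rw [max_self]
    obtain ⟨A, hA⟩ : ∃ A : ℝ, A = max (max (stS (fRa d P.c P.r0) (cutc g a b) - P.κ) (stS (fRa d' Q.c Q.r0) (cutc g b a) - Q.κ))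
      (max (W.D0 - ‖cutc g a b 1‖) (‖cutc g a b 1‖ - W.D1)) := ⟨_, rfl⟩
    rw [← hA] at h ⊢
    have e : max A (max (-1) (duU W.t1 L a b)) = max (-1) (max A (duU W.t1 L a b)) := by
      rw [max_left_comm]
    rw [e] at h
    rcases max_choice (-1) (max A (duU W.t1 L a b)) with h1 | h1
    · rw [h1] at h
      norm_num at h
    · rw [← h1]
      exact h
  · rw [if_neg h0] at h ⊢
    exact h

lemma rsB_sh (P Q : Tp) {W : Wn} (ht : W.t0 ≤ 0 ∨ t < W.t0) :
    rsB d d' (P.sh t) (Q.sh t) (W.sh t) g L a b = rsB d d' P Q W g L a b - t := by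
  unfold rsB Tp.sh Wn.sh
  dsimp only
  rw [duU_sh]
  have a1 : stS (fRa d P.c P.r0) (cutc g a b) - (P.κ + t) = stS (fRa d P.c P.r0) (cutc g a b) - P.κ - t := by ring
  have a2 : stS (fRa d' Q.c Q.r0) (cutc g b a) - (Q.κ + t) = stS (fRa d' Q.c Q.r0) (cutc g b a) - Q.κ - t := by ring
  have a3 : W.D0 - t - ‖cutc g a b 1‖ = W.D0 - ‖cutc g a b 1‖ - t := by ring
  have a4 : ‖cutc g a b 1‖ - (W.D1 + t) = ‖cutc g a b 1‖ - W.D1 - t := by ring
  rw [a1, a2, a3, a4]
  have a5 : (if (if W.t0 ≤ 0 then W.t0 else W.t0 - t) ≤ 0 then duU W.t1 L a b - t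
      else (if W.t0 ≤ 0 then W.t0 else W.t0 - t) - |(b : ℝ) - a| * L) =
      (if W.t0 ≤ 0 then duU W.t1 L a b else W.t0 - |(b : ℝ) - a| * L) - t := by
    by_cases h0 : W.t0 ≤ 0
    · simp [h0]
    · have h1 : ¬ W.t0 - t ≤ 0 := by
        rcases ht with h | h
        · exact absurd h h0
        · linarith
      rw [if_neg h0, if_neg h1, if_neg h0]
      ring
  rw [a5, max_sub_sub_right, max_sub_sub_right, max_sub_sub_right, max_sub_sub_right, max_sub_sub_right]

/-- **shifts of the rests**: a null set is enough for `rsB` -/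
lemma rsF_sh (P Q : Tp) {W : Wn} (ht : W.t0 ≤ 0 ∨ t < W.t0)
    (h : rsF d d' (P.sh t) (Q.sh t) (W.sh t) g L a b = 0) : rsB d d' P Q W g L a b - t = 0 := by
  rw [← rsB_sh t P Q ht]
  exact rsB_of_rsF h

/-- the statistic of the main arcs without the lower duration for `t0 ≤ 0` -/
noncomputable def mnB (d d' : ℂ) (P Q : Tp) (W : Wn) (s s' : Sr) (g : C(I, ℂ)) (L : ℝ) (a b : I) : ℝ :=
  max (rsB d d' P Q W g L a b) (max (nrF d s g a b) (nrF d' s' g b a))

/-- **shifts of the main arcs** -/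
lemma mnF_sh (P Q : Tp) {W : Wn} (s s' : Sr) (hd : ‖d‖ = 1) (hd' : ‖d'‖ = 1) (ht : W.t0 ≤ 0 ∨ t < W.t0)
    (h : mnF d d' (P.sh t) (Q.sh t) (W.sh t) (s.sh t) (s'.sh t) g L a b = 0) : mnB d d' P Q W s s' g L a b - t = 0 := by
  unfold mnF at h
  unfold mnB
  rw [nrF_sh t s hd, nrF_sh t s' hd'] at h
  have h1 : max (rsB d d' P Q W g L a b - t) (max (nrF d s g a b - t) (nrF d' s' g b a - t)) = 0 := by
    have h3 : rsB d d' P Q W g L a b - t = rsB d d' (P.sh t) (Q.sh t) (W.sh t) g L a b := (rsB_sh t P Q ht).symm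
    rw [h3]
    have hle : rsF d d' (P.sh t) (Q.sh t) (W.sh t) g L a b ≤ 0 := by
      rw [← h]
      exact le_max_left _ _
    have hle2 : max (nrF d s g a b - t) (nrF d' s' g b a - t) ≤ 0 := by
      rw [← h]
      exact le_max_right _ _
    have hB : rsB d d' (P.sh t) (Q.sh t) (W.sh t) g L a b ≤ 0 := by
      unfold rsF duL at hle
      unfold rsB
      by_cases h0 : (W.sh t).t0 ≤ 0
      · rw [if_pos h0] at hle ⊢
        rw [max_le_iff] at hle
        rw [max_self]
        exact max_le hle.1 ((le_max_right _ _).trans hle.2)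
      · rw [if_neg h0] at hle ⊢
        exact hle
    refine le_antisymm (max_le hB hle2) ?_
    rcases max_choice (rsF d d' (P.sh t) (Q.sh t) (W.sh t) g L a b) (max (nrF d s g a b - t) (nrF d' s' g b a - t)) with h4 | h4
    · rw [h4] at h
      rw [rsB_of_rsF h]
      exact le_max_left _ _
    · rw [h4] at h
      rw [h]
      exact le_max_right _ _
  rw [← max_sub_sub_right, ← max_sub_sub_right]
  exact h1

end sh

section contB

variable {d d' : ℂ} {Z : Type*} [TopologicalSpace Z] {g : Z → C(I, ℂ)} {L : Z → ℝ} {a b : Z → I}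

lemma Continuous.rsB {P Q : Tp} (hP : P.Co) (hQ : Q.Co) (W : Wn) (hd : ‖d‖ = 1) (hd' : ‖d'‖ = 1) (hg : Continuous g)
    (hL : Continuous L) (ha : Continuous a) (hb : Continuous b) : Continuous fun z => rsB d d' P Q W (g z) (L z) (a z) (b z) := by
  unfold F3.rsB
  have h1 := (Continuous.cutc1 hg ha hb).norm
  have h2 : Continuous fun z => if W.t0 ≤ 0 then F3.duU W.t1 (L z) (a z) (b z) else W.t0 - |(b z : ℝ) - a z| * L z := by
    by_cases h : W.t0 ≤ 0
    · simp only [if_pos h]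
      exact Continuous.duU _ hL ha hb
    · simp only [if_neg h]
      fun_prop
  exact ((((Continuous.stS' (fRa_lip hd hP.c0 hP.c1) (Continuous.cutc' hg ha hb)).sub continuous_const).max
    ((Continuous.stS' (fRa_lip hd' hQ.c0 hQ.c1) (Continuous.cutc' hg hb ha)).sub continuous_const)).max
    ((continuous_const.sub h1).max (h1.sub continuous_const))).max (h2.max (Continuous.duU _ hL ha hb))

lemma Continuous.mnB {P Q : Tp} (hP : P.Co) (hQ : Q.Co) (W : Wn) (s s' : Sr) (hd : ‖d‖ = 1) (hd' : ‖d'‖ = 1) (hg : Continuous g)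
    (hL : Continuous L) (ha : Continuous a) (hb : Continuous b) :
    Continuous fun z => mnB d d' P Q W s s' (g z) (L z) (a z) (b z) :=
  (Continuous.rsB hP hQ W hd hd' hg hL ha hb).max ((Continuous.nrF s hd hg ha hb).max (Continuous.nrF s' hd' hg hb ha))

end contB

end Pool.Agent.ROT.F3
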