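import Pool.Agent.ROT.F3CoreC
import Pool.Agent.ROT.F3ClsM

/-!
# ROT, F3 (B) (helper51): the foreign gates of one end as a condition on the rest

* `stS_cutp`, `stN_cutp` : the statistics of a piece in absolute times;
* **`FgR d t E mn ρ a b`** : `ρ` = rest (read from this end), `a`, `b` = relative times of `c~`, `x~`: all the conditions of this end;
* **`FgR.loc`** : equal pieces `pcut ρ 0 e = pcut ρ' 0 e'`, both rests outside of the ball `R0` behind them: the conditions pass from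
  `ρ` to `ρ'` (relative times `a e' / e`, `b e' / e`).
-/

set_option autoImplicit false

noncomputable section

open Set Topology

namespace Pool.Agent.ROT.F3

open Pool.Agent.ROT.F3.CC (Pie ex ex_of ex_coe ex_zero ex_one cutp cutp_apply cutp_zero cutp_one cutp_cutp pcut mid_mem)

/-! ### 1. Statistics of a piece in absolute times -/

section

variable {f g : ℂ → ℝ} {r : C(unitInterval, ℂ)} {s t : ℝ}

/-- a point of a piece, forward -/
lemma cut_at (h1 : s ≤ t) {u : ℝ} (hu : s ≤ u) (hu' : u ≤ t) :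
    ∃ v : unitInterval, s + v * (t - s) = u ∧ cutp r s t v = ex r u - ex r s := by
  rcases eq_or_lt_of_le h1 with rfl | h
  · have e : u = s := le_antisymm hu' hu
    refine ⟨0, ?_, ?_⟩
    · rw [Icc.coe_zero, e]
      ring
    · rw [cutp_zero, e, sub_self]
  · have h3 : 0 < t - s := by linarith
    have e : s + (u - s) / (t - s) * (t - s) = u := by
      rw [div_mul_cancel₀ _ h3.ne']
      ring
    refine ⟨⟨(u - s) / (t - s), div_nonneg (by linarith) h3.le, (div_le_one h3).2 (by linarith)⟩, e, ?_⟩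
    rw [cutp_apply]
    simp only
    rw [e]

lemma stS_cutp (hf : Continuous f) (h1 : s ≤ t) {x : ℝ} :
    stS f (cutp r s t) ≤ x ↔ ∀ u : ℝ, s ≤ u → u ≤ t → f (ex r u - ex r s) ≤ x := by
  rw [stS_le_iff hf]
  constructor
  · intro h u hu hu'
    obtain ⟨v, -, hv⟩ := cut_at (r := r) h1 hu hu'
    rw [← hv]
    exact h v
  · intro h v
    rw [cutp_apply]
    have h3 : 0 ≤ (v : ℝ) * (t - s) := mul_nonneg v.2.1 (by linarith)
    have h4 : (v : ℝ) * (t - s) ≤ 1 * (t - s) := mul_le_mul_of_nonneg_right v.2.2 (by linarith)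
    exact h _ (by linarith) (by linarith)

/-- no return, in absolute times -/
lemma stN_cutp (hf : Continuous f) (hg : Continuous g) (h1 : s ≤ t) :
    stN f g (cutp r s t) ≤ 0 ↔ ∀ ε : ℝ, 0 < ε → ∃ θ : ℝ, s ≤ θ ∧ θ ≤ t ∧ (∀ u : ℝ, s ≤ u → u ≤ θ → f (ex r u - ex r s) < ε) ∧
      ∀ u : ℝ, θ ≤ u → u ≤ t → g (ex r u - ex r s) < ε := by
  constructor
  · intro h ε hε
    obtain ⟨τ, g1, g2⟩ := of_stN hf hg _ (h.trans_lt hε)
    have h3 : 0 ≤ (τ : ℝ) * (t - s) := mul_nonneg τ.2.1 (by linarith)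
    have h4 : (τ : ℝ) * (t - s) ≤ 1 * (t - s) := mul_le_mul_of_nonneg_right τ.2.2 (by linarith)
    rcases eq_or_lt_of_le h1 with rfl | hst
    · refine ⟨s, le_rfl, le_rfl, fun u hu hu' => ?_, fun u hu hu' => ?_⟩
      · have h5 := g1 0 (unitInterval.nonneg τ)
        rw [cutp_zero] at h5
        have e : u = s := le_antisymm hu' hu
        rw [e, sub_self]
        exact h5
      · have h5 := g2 1 (unitInterval.le_one τ)
        rw [cutp_one, sub_self] at h5
        have e : u = s := le_antisymm hu' hu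
        rw [e, sub_self]
        exact h5
    have h6 : 0 < t - s := by linarith
    refine ⟨s + τ * (t - s), by linarith, by linarith, fun u hu hu' => ?_, fun u hu hu' => ?_⟩
    · obtain ⟨v, hv1, hv⟩ := cut_at (r := r) h1 hu (hu'.trans (by linarith))
      rw [← hv]
      refine g1 v ?_
      have h7 : (v : ℝ) * (t - s) ≤ τ * (t - s) := by linarith
      have h8 : (v : ℝ) ≤ τ := le_of_mul_le_mul_right h7 h6
      exact h8
    · obtain ⟨v, hv1, hv⟩ := cut_at (r := r) h1 (by linarith) hu'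
      rw [← hv]
      refine g2 v ?_
      have h7 : (τ : ℝ) * (t - s) ≤ v * (t - s) := by linarith
      have h8 : (τ : ℝ) ≤ v := le_of_mul_le_mul_right h7 h6
      exact h8
  · intro h
    refine le_of_forall_pos_le_add fun ε hε => ?_
    obtain ⟨θ, h2, h3, g1, g2⟩ := h ε hε
    obtain ⟨τ, hτ, -⟩ := cut_at (r := r) h1 h2 h3
    rw [zero_add]
    refine stN_le hf hg _ τ (fun v hv => ?_) fun v hv => ?_
    · rw [cutp_apply]
      have h5 : (v : ℝ) * (t - s) ≤ τ * (t - s) := mul_le_mul_of_nonneg_right hv (by linarith)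
      have h6 : 0 ≤ (v : ℝ) * (t - s) := mul_nonneg v.2.1 (by linarith)
      exact (g1 _ (by linarith) (by linarith)).le
    · rw [cutp_apply]
      have h5 : (τ : ℝ) * (t - s) ≤ v * (t - s) := mul_le_mul_of_nonneg_right hv (by linarith)
      have h6 : (v : ℝ) * (t - s) ≤ 1 * (t - s) := mul_le_mul_of_nonneg_right v.2.2 (by linarith)
      exact (g2 _ (by linarith) (by linarith)).le

end

/-! ### 2. Rests with a common piece -/

/-- the rests `r`, `r'` are equal up to the relative times `e`, `e'`, and then outside of the ball `R0` -/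
structure CmP (R0 : ℝ) (r r' : C(unitInterval, ℂ)) (e e' : ℝ) : Prop where
  e0 : 0 < e
  e1 : e ≤ 1
  e0' : 0 < e'
  e1' : e' ≤ 1
  z' : r' 0 = 0
  eq : ∀ x : ℝ, 0 ≤ x → x ≤ 1 → ex r' (x * e') = ex r (x * e)
  far' : ∀ t : ℝ, e' ≤ t → t ≤ 1 → R0 ≤ ‖ex r' t‖

section cm

variable {R0 : ℝ} {r r' : C(unitInterval, ℂ)} {e e' : ℝ}

/-- the same point -/
lemma CmP.pt (h : CmP R0 r r' e e') {t : ℝ} (h0 : 0 ≤ t) (h1 : t ≤ e') : ex r' t = ex r (t * e / e') ∧ 0 ≤ t * e / e' ∧ t * e / e' ≤ e := by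
  have e0 := h.e0
  have e0' := h.e0'
  have k1 : 0 ≤ t / e' := by positivity
  have k2 : t / e' ≤ 1 := (div_le_one e0').2 h1
  have k3 := h.eq (t / e') k1 k2
  rw [div_mul_cancel₀ _ e0'.ne'] at k3
  have k4 : t / e' * e = t * e / e' := by ring
  rw [k4] at k3
  refine ⟨k3, by positivity, ?_⟩
  rw [← k4]
  calc t / e' * e ≤ 1 * e := mul_le_mul_of_nonneg_right k2 e0.le
    _ = e := one_mul e

/-- the same pieces -/
lemma CmP.cut (h : CmP R0 r r' e e') {a b : ℝ} (ha : 0 ≤ a) (hab : a ≤ b) (hb : b ≤ e) :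
    cutp r' (a * e' / e) (b * e' / e) = cutp r a b := by
  have e0 := h.e0
  have e0' := h.e0'
  have key : ∀ x : ℝ, 0 ≤ x → x ≤ e → ex r' (x * e' / e) = ex r x := by
    intro x hx hx'
    have k3 := h.eq (x / e) (by positivity) ((div_le_one e0).2 hx')
    rw [div_mul_cancel₀ _ e0.ne'] at k3
    rw [← k3]
    congr 1
    ring
  ext u
  rw [cutp_apply, cutp_apply, key a ha (hab.trans hb)]
  have k1 : a * e' / e + u * (b * e' / e - a * e' / e) = (a + u * (b - a)) * e' / e := by ring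
  have k2 : 0 ≤ (u : ℝ) * (b - a) := mul_nonneg u.2.1 (by linarith)
  have k3 : (u : ℝ) * (b - a) ≤ 1 * (b - a) := mul_le_mul_of_nonneg_right u.2.2 (by linarith)
  rw [k1, key _ (by linarith) (by linarith)]

/-- statistics of what is behind the time `b` -/
lemma CmP.stS (h : CmP R0 r r' e e') {b : ℝ} (hb0 : 0 ≤ b) (hb : b ≤ e) {K : ℝ} (hK : ‖ex r b‖ ≤ K) {f : ℂ → ℝ}
    (hf : Continuous f) {x : ℝ} (hx : ∀ v, R0 - K ≤ ‖v‖ → f v ≤ x) (H : stS f (cutp r b 1) ≤ x) :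
    stS f (cutp r' (b * e' / e) 1) ≤ x := by
  have e0 := h.e0
  have e0' := h.e0'
  have e1 := h.e1
  have e1' := h.e1'
  have hb' : b * e' / e ≤ e' := by
    rw [div_le_iff₀ e0, mul_comm e' e]
    exact mul_le_mul_of_nonneg_right hb e0'.le
  have hb0' : 0 ≤ b * e' / e := by positivity
  obtain ⟨k1, k2, k3⟩ := h.pt hb0' hb'
  have k4 : b * e' / e * e / e' = b := by field_simp
  rw [k4] at k1
  rw [stS_cutp hf (hb'.trans e1')]
  rw [stS_cutp hf (hb.trans e1)] at H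
  intro u hu hu'
  rcases le_total u e' with h3 | h3
  · obtain ⟨q1, q2, q3⟩ := h.pt (hb0'.trans hu) h3
    rw [q1, k1]
    refine H _ ?_ (q3.trans e1)
    rw [le_div_iff₀ e0']
    rw [div_le_iff₀ e0] at hu
    exact hu
  · refine hx _ ?_
    rw [k1]
    have h4 := h.far' u h3 hu'
    have h5 := norm_sub_norm_le (ex r' u) (ex r b)
    linarith

/-- no return behind the time `b` -/
lemma CmP.stN (h : CmP R0 r r' e e') {b : ℝ} (hb0 : 0 ≤ b) (hb : b ≤ e) {K : ℝ} (hK : ‖ex r b‖ ≤ K) {f g : ℂ → ℝ}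
    (hf : Continuous f) (hg : Continuous g) (hx : ∀ v, R0 - K ≤ ‖v‖ → g v ≤ 0) (H : stN f g (cutp r b 1) ≤ 0) :
    stN f g (cutp r' (b * e' / e) 1) ≤ 0 := by
  have e0 := h.e0
  have e0' := h.e0'
  have e1 := h.e1
  have e1' := h.e1'
  have hb' : b * e' / e ≤ e' := by
    rw [div_le_iff₀ e0, mul_comm e' e]
    exact mul_le_mul_of_nonneg_right hb e0'.le
  have hb0' : 0 ≤ b * e' / e := by positivity
  obtain ⟨k1, k2, k3⟩ := h.pt hb0' hb'
  have k4 : b * e' / e * e / e' = b := by field_simp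
  rw [k4] at k1
  rw [stN_cutp hf hg (hb'.trans e1')]
  rw [stN_cutp hf hg (hb.trans e1)] at H
  intro ε hε
  obtain ⟨θ, h2, h3, g1, g2⟩ := H ε hε
  have m1 : min θ e ≤ θ := min_le_left _ _
  have m2 : min θ e ≤ e := min_le_right _ _
  have m0 : b ≤ min θ e := le_min h2 hb
  have hθ' : min θ e * e' / e ≤ e' := by
    rw [div_le_iff₀ e0, mul_comm e' e]
    exact mul_le_mul_of_nonneg_right m2 e0'.le
  refine ⟨min θ e * e' / e, ?_, hθ'.trans e1', fun u hu hu' => ?_, fun u hu hu' => ?_⟩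
  · exact div_le_div_of_nonneg_right (mul_le_mul_of_nonneg_right m0 e0'.le) e0.le
  · obtain ⟨q1, q2, q3⟩ := h.pt (hb0'.trans hu) (hu'.trans hθ')
    rw [q1, k1]
    refine g1 _ ?_ ?_
    · rw [le_div_iff₀ e0']
      rw [div_le_iff₀ e0] at hu
      exact hu
    · refine le_trans ?_ m1
      rw [div_le_iff₀ e0']
      rw [le_div_iff₀ e0] at hu'
      exact hu'
  · rcases lt_or_ge u e' with h5 | h5
    · have hu0 : 0 ≤ u := hb0'.trans (le_trans (div_le_div_of_nonneg_right (mul_le_mul_of_nonneg_right m0 e0'.le) e0.le) hu)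
      obtain ⟨q1, q2, q3⟩ := h.pt hu0 h5.le
      rw [q1, k1]
      have h6 : min θ e ≤ u * e / e' := by
        rw [le_div_iff₀ e0']
        rw [div_le_iff₀ e0] at hu
        exact hu
      have h7 : u * e / e' < e := by
        rw [div_lt_iff₀ e0', mul_comm e e']
        exact mul_lt_mul_of_pos_right h5 e0
      refine g2 _ ?_ (q3.trans e1)
      rcases min_le_iff.1 h6 with h8 | h8
      · exact h8
      · exact absurd (h8.trans_lt h7) (lt_irrefl _)
    · refine lt_of_le_of_lt (hx _ ?_) hε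
      rw [k1]
      have h6 := h.far' u h5 hu'
      have h7 := norm_sub_norm_le (ex r' u) (ex r b)
      linarith

end cm

/-- equal pieces of two rests -/
lemma CmP.of {R0 : ℝ} {ρ ρ' : Pie} {e e' : unitInterval} (z : ρ.1 0 = 0) (z' : ρ'.1 0 = 0) (he : (0 : ℝ) < e) (he' : (0 : ℝ) < e')
    (h : pcut ρ 0 e = pcut ρ' 0 e') (far' : ∀ t : unitInterval, e' ≤ t → R0 ≤ ‖ρ'.1 t‖) : CmP R0 ρ.1 ρ'.1 e e' := by
  refine ⟨he, e.2.2, he', e'.2.2, z', fun x hx hx' => ?_, fun t ht ht' => ?_⟩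
  · have h1 : cutp ρ.1 0 e = cutp ρ'.1 0 e' := congrArg Prod.fst h
    have h2 := DFunLike.congr_fun h1 (⟨x, hx, hx'⟩ : unitInterval)
    rw [cutp_apply, cutp_apply, ex_zero, ex_zero, z, z', sub_zero, sub_zero, sub_zero, sub_zero, zero_add, zero_add] at h2
    exact h2.symm
  · have h0 : 0 ≤ t := he'.le.trans ht
    rw [ex_of _ ⟨h0, ht'⟩]
    exact far' ⟨t, h0, ht'⟩ ht

/-! ### 3. The foreign gates on the rest -/

/-- **the foreign gates of one end as a condition on the rest** `ρ`, read from this end; `a`, `b` = relative times of `c~`, `x~` -/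
structure FgR (d t : ℂ) (E : En) (mn : Prop) (ρ : Pie) (a b : ℝ) : Prop where
  h0 : 0 ≤ a
  h1 : a ≤ b
  h2 : b ≤ 1
  ri : stS (fun v => -lv d v) (cutp ρ.1 0 b) ≤ 0
  rk : stS (fun v => ‖v‖) (cutp ρ.1 0 a) ≤ E.rk
  r2 : stS (fun v => ‖v‖) (cutp ρ.1 a b) ≤ E.f.r2
  κk : stS (fCo d E.n.c) (cutp ρ.1 0 b) ≤ E.κk
  κ1 : stS (fCo t E.f.c) (cutp ρ.1 a b) ≤ E.f.κ1
  ek : fCo d E.n.c (cutp ρ.1 0 b 1) + E.ek ≤ 0
  kr : ‖cutp ρ.1 0 b 1 - (E.kc : ℂ) * d‖ ≤ E.kr
  lk : ρ.2 * b ≤ E.lk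
  re : stS (fun v => min (-lv t v) (E.f.rg - ‖v‖)) (cutp ρ.1 b 1) ≤ 0
  ra : stS (fRa t E.f.c E.f.r0) (cutp ρ.1 b 1) ≤ E.f.κ
  nr : mn → stN (fSt t E.s.e E.s.len E.s.hw) (fBn E.s.bn) (cutp ρ.1 b 1) ≤ 0

section fg

variable {d t : ℂ} {E : En} {mn : Prop} {ρ ρ' : Pie} {a b : ℝ}

/-- the piece up to `x~` is in the ball `E.k` -/
lemma FgR.ball (H : FgR d t E mn ρ a b) (z : ρ.1 0 = 0) : ∀ u : ℝ, 0 ≤ u → u ≤ b → ‖ex ρ.1 u‖ ≤ E.k := by
  have k1 := (stS_cutp continuous_norm H.h0).1 H.rk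
  have k2 := (stS_cutp continuous_norm H.h1).1 H.r2
  have e0 : ex ρ.1 0 = 0 := by rw [ex_zero, z]
  have hr2 : 0 ≤ E.f.r2 := (norm_nonneg _).trans (k2 a le_rfl H.h1)
  have ek : E.k = E.rk + E.f.r2 := rfl
  intro u hu hu'
  rcases le_total u a with h | h
  · have := k1 u hu h
    rw [e0, sub_zero] at this
    rw [ek]
    linarith
  · have h3 := k2 u h hu'
    have h4 := k1 a H.h0 le_rfl
    rw [e0, sub_zero] at h4
    have h5 := norm_sub_norm_le (ex ρ.1 u) (ex ρ.1 a)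
    rw [ek]
    linarith

/-- **locality** of the conditions on the rest -/
theorem FgR.loc (ht : ‖t‖ = 1) (q0 : 0 ≤ E.f.c) (q1 : E.f.c ≤ 1) (H : FgR d t E mn ρ a b) (z : ρ.1 0 = 0) (z' : ρ'.1 0 = 0) {R0 : ℝ} (k1 : E.k < R0)
    (k2 : E.f.rg + E.k ≤ R0) (k3 : E.f.r0 + E.k ≤ R0 + E.f.κ) (k4 : E.s.bn + E.k ≤ R0) {e e' : unitInterval}
    (h : pcut ρ 0 e = pcut ρ' 0 e') (far : ∀ t : unitInterval, e ≤ t → R0 ≤ ‖ρ.1 t‖)
    (far' : ∀ t : unitInterval, e' ≤ t → R0 ≤ ‖ρ'.1 t‖) :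
    (0 : ℝ) < e ∧ (0 : ℝ) < e' ∧ b < e ∧ FgR d t E mn ρ' (a * e' / e) (b * e' / e) := by
  have ek : E.k = E.rk + E.f.r2 := rfl
  have kb := H.ball z b (H.h0.trans H.h1) le_rfl
  have hk0 : 0 ≤ E.k := (norm_nonneg _).trans kb
  have hbe : b < e := by
    by_contra hc
    rw [not_lt] at hc
    have h4 := far ⟨b, H.h0.trans H.h1, H.h2⟩ hc
    rw [ex_of _ ⟨H.h0.trans H.h1, H.h2⟩] at kb
    linarith
  have he : (0 : ℝ) < e := lt_of_le_of_lt (H.h0.trans H.h1) hbe
  have he' : (0 : ℝ) < e' := by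
    by_contra hc
    have h5 : e' = 0 := by
      apply Subtype.ext
      exact le_antisymm (not_lt.1 hc) e'.2.1
    have h4 := far' 0 (by rw [h5])
    rw [z', norm_zero] at h4
    linarith
  have C := CmP.of (R0 := R0) z z' he he' h far'
  have hd : ρ.2 * e = ρ'.2 * e' := by
    have h6 : ρ.2 * |(e : ℝ) - 0| = ρ'.2 * |(e' : ℝ) - 0| := congrArg Prod.snd h
    rwa [sub_zero, sub_zero, abs_of_pos he, abs_of_pos he'] at h6
  have c0 : cutp ρ'.1 0 (a * e' / e) = cutp ρ.1 0 a := by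
    have := C.cut (a := 0) (b := a) le_rfl H.h0 (H.h1.trans hbe.le)
    rwa [zero_mul, zero_div] at this
  have c1 : cutp ρ'.1 (a * e' / e) (b * e' / e) = cutp ρ.1 a b := C.cut H.h0 H.h1 hbe.le
  have c2 : cutp ρ'.1 0 (b * e' / e) = cutp ρ.1 0 b := by
    have := C.cut (a := 0) (b := b) le_rfl (H.h0.trans H.h1) hbe.le
    rwa [zero_mul, zero_div] at this
  refine ⟨he, he', hbe, ?_⟩
  refine { h0 := ?_, h1 := ?_, h2 := ?_, ri := by rw [c2]; exact H.ri, rk := by rw [c0]; exact H.rk, r2 := by rw [c1]; exact H.r2,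
           κk := by rw [c2]; exact H.κk, κ1 := by rw [c1]; exact H.κ1, ek := by rw [c2]; exact H.ek, kr := by rw [c2]; exact H.kr,
           lk := ?_, re := ?_, ra := ?_, nr := fun hm => ?_ }
  · have := H.h0
    positivity
  · exact div_le_div_of_nonneg_right (mul_le_mul_of_nonneg_right H.h1 he'.le) he.le
  · rw [div_le_one he]
    calc b * (e' : ℝ) ≤ b * 1 := mul_le_mul_of_nonneg_left e'.2.2 (H.h0.trans H.h1)
      _ ≤ e := by linarith
  · have h7 : ρ'.2 * (b * e' / e) = ρ.2 * b := by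
      have : ρ'.2 * (b * e' / e) = ρ'.2 * e' * b / e := by ring
      rw [this, ← hd]
      field_simp
    rw [h7]
    exact H.lk
  · refine C.stS (H.h0.trans H.h1) hbe.le kb ((reK_lip ht E.f.rg).continuous) (fun v hv => ?_) H.re
    exact (min_le_right _ _).trans (by linarith)
  · refine C.stS (H.h0.trans H.h1) hbe.le kb ((fRa_lip ht q0 q1).continuous) (fun v hv => ?_) H.ra
    exact (min_le_right _ _).trans (by linarith)
  · refine C.stN (H.h0.trans H.h1) hbe.le kb ((fSt_lip ht).continuous) (fBn_lip.continuous) (fun v hv => ?_) (H.nr hm)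
    show E.s.bn - ‖v‖ ≤ 0
    linarith

end fg

end Pool.Agent.ROT.F3
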