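import Pool.Agent.ROT.F3JmD
import Pool.Agent.ROT.F3LocE

/-!
# ROT, F3 (B) (helper51): the foreign gates of helper82 (`FgS`) as a condition on the rest; their locality

* `ltA`, `duA` : order, duration in the reading direction of an arm; **`fgZ_iff`** : `FgZ` as `FgR` of the rest;
* **`fgZ_loc`** : two strands (any curves, arms, ends) with a common piece and the same times of the functional gates: `FgZ` passes;
* `resA` : rest of one arm; `GaLoc` : locality of the gates at the functional levels (existence and times only; row D39, helper28);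
* **`loc_arm`** : locality of `FgS`.
-/

set_option autoImplicit false

noncomputable section

namespace Pool.Agent.ROT.F3.CK

open MeasureTheory Set unitInterval Filter Topology

open scoped ENNReal Classical

open Pool.Agent.ROT.F3 Pool.Agent.ROT.F3.LF
open Pool.Agent.ROT.F3.CC (Pie ex ex_of ex_coe ex_zero ex_one cutp cutp_apply cutp_zero cutp_one cutp_cutp cutp_eq pcut cl)

/-! ### 1. The rest of one arm -/

/-- strict order in the reading direction -/
def ltA (k : Arm) (a b : I) : Prop :=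
  match k with
  | .fp => a < b
  | .bq => b < a
  | .fq => a < b
  | .bp => b < a

/-- duration from `a` to `b` in the reading direction, `L` = duration of the curve -/
def duA (k : Arm) (L : ℝ) (a b : I) : ℝ :=
  match k with
  | .fp => ((b : ℝ) - a) * L
  | .bq => ((a : ℝ) - b) * L
  | .fq => ((b : ℝ) - a) * L
  | .bp => ((a : ℝ) - b) * L

lemma cutc_eq (g : C(I, ℂ)) (a b : I) : cutc g a b = cutp g a b := (cutp_eq g a b).symm

/-- the orientation -/
lemma ltA_ne {k : Arm} {a z : I} (h : ltA k a z) : (z : ℝ) - a ≠ 0 := by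
  have h1 : ∀ {x y : I}, x < y → (y : ℝ) - x ≠ 0 := fun {x y} hxy => (sub_pos.2 (show (x : ℝ) < y from hxy)).ne'
  have h2 : ∀ {x y : I}, y < x → (y : ℝ) - x ≠ 0 := fun {x y} hxy => (sub_neg.2 (show (y : ℝ) < x from hxy)).ne
  cases k
  · exact h1 h
  · exact h2 h
  · exact h1 h
  · exact h2 h

lemma leA_iff {k : Arm} {a z b c : I} (h : ltA k a z) : leA k b c ↔ ((b : ℝ) - a) / (z - a) ≤ ((c : ℝ) - a) / (z - a) := by
  have h1 : ∀ {a z b c : I}, a < z → (b ≤ c ↔ ((b : ℝ) - a) / (z - a) ≤ ((c : ℝ) - a) / (z - a)) := by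
    intro a z b c h
    have h1 : (0 : ℝ) < z - a := sub_pos.2 h
    rw [div_le_div_iff_of_pos_right h1, sub_le_sub_iff_right]
    exact Iff.rfl
  have h2 : ∀ {a z b c : I}, z < a → (c ≤ b ↔ ((b : ℝ) - a) / (z - a) ≤ ((c : ℝ) - a) / (z - a)) := by
    intro a z b c h
    have h1 : (z : ℝ) - a < 0 := sub_neg.2 h
    rw [div_le_div_right_of_neg h1, sub_le_sub_iff_right]
    exact Iff.rfl
  cases k
  · exact h1 h
  · exact h2 h
  · exact h1 h
  · exact h2 h

/-- relative times from durations -/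
lemma duA_div {k : Arm} {a z : I} (b : I) (h : ltA k a z) {L : ℝ} (hL : 0 < L) :
    ((b : ℝ) - a) / (z - a) = duA k L a b / (L * |(z : ℝ) - a|) := by
  have h1 : ∀ {a z : I}, a < z → ((b : ℝ) - a) / (z - a) = (((b : ℝ) - a) * L) / (L * |(z : ℝ) - a|) := by
    intro a z h
    have h1 : (0 : ℝ) < z - a := sub_pos.2 h
    rw [abs_of_pos h1]
    field_simp
  have h2 : ∀ {a z : I}, z < a → ((b : ℝ) - a) / (z - a) = (((a : ℝ) - b) * L) / (L * |(z : ℝ) - a|) := by
    intro a z h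
    have h1 : (z : ℝ) - a < 0 := sub_neg.2 h
    rw [abs_of_neg h1, neg_sub, mul_comm L, mul_div_mul_right _ _ hL.ne', ← neg_sub (b : ℝ) a, ← neg_sub (z : ℝ) a, neg_div_neg_eq]
  cases k
  · exact h1 h
  · exact h2 h
  · exact h1 h
  · exact h2 h

/-! ### 2. `FgS` as a condition on the rest -/

/-- the foreign gates at the times `a` = `x`, `b` = `c~`, `c` = `x~`, `z` = end of the rest -/
theorem fg_iff {k : Arm} {d t : ℂ} {E : En} {mn : Prop} {g : C(I, ℂ)} {L : ℝ} {a b c z : I} (h : ltA k a z) :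
    (leA k a b ∧ leA k b c ∧ leA k c z ∧ riK d g a c ≤ 0 ∧ kcF d t E g L a b c ≤ 0 ∧ reK t E.f.rg g c z ≤ 0 ∧
      stS (fRa t E.f.c E.f.r0) (cutc g c z) ≤ E.f.κ ∧ (mn → nrF t E.s g c z ≤ 0)) ↔
    FgR d t E mn (pcut ((g, L) : Pie) a z) (((b : ℝ) - a) / (z - a)) (((c : ℝ) - a) / (z - a)) := by
  obtain ⟨s, hs⟩ : ∃ s, s = ((b : ℝ) - a) / (z - a) := ⟨_, rfl⟩
  obtain ⟨t', ht⟩ : ∃ t', t' = ((c : ℝ) - a) / (z - a) := ⟨_, rfl⟩
  have hz := ltA_ne h
  have hb : a + s * ((z : ℝ) - a) = b := by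
    rw [hs, div_mul_cancel₀ _ hz]
    ring
  have hc : a + t' * ((z : ℝ) - a) = c := by
    rw [ht, div_mul_cancel₀ _ hz]
    ring
  have o1 : leA k a b ↔ 0 ≤ s := by
    rw [leA_iff h, ← hs, sub_self, zero_div]
  have o2 : leA k b c ↔ s ≤ t' := by
    rw [leA_iff h, ← hs, ← ht]
  have o3 : leA k c z ↔ t' ≤ 1 := by
    rw [leA_iff h, ← ht, div_self hz]
  rw [o1, o2, o3, ← hs, ← ht]
  have key : 0 ≤ s → s ≤ t' → t' ≤ 1 → ((riK d g a c ≤ 0 ∧ kcF d t E g L a b c ≤ 0 ∧ reK t E.f.rg g c z ≤ 0 ∧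
      stS (fRa t E.f.c E.f.r0) (cutc g c z) ≤ E.f.κ ∧ (mn → nrF t E.s g c z ≤ 0)) ↔
      FgR d t E mn (pcut ((g, L) : Pie) a z) s t') := by
    intro h0 h1 h2
    have i0 : (0 : ℝ) ∈ Icc (0 : ℝ) 1 := ⟨le_rfl, zero_le_one⟩
    have i1 : (1 : ℝ) ∈ Icc (0 : ℝ) 1 := ⟨zero_le_one, le_rfl⟩
    have is : s ∈ Icc (0 : ℝ) 1 := ⟨h0, h1.trans h2⟩
    have it : t' ∈ Icc (0 : ℝ) 1 := ⟨h0.trans h1, h2⟩
    have e1 : cutp (cutp g a z) 0 s = cutc g a b := by
      rw [cutp_cutp i0 is, hb, zero_mul, add_zero, cutc_eq]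
    have e2 : cutp (cutp g a z) s t' = cutc g b c := by
      rw [cutp_cutp is it, hb, hc, cutc_eq]
    have e3 : cutp (cutp g a z) 0 t' = cutc g a c := by
      rw [cutp_cutp i0 it, hc, zero_mul, add_zero, cutc_eq]
    have e4 : cutp (cutp g a z) t' 1 = cutc g c z := by
      rw [cutp_cutp it i1, hc, cutc_eq]
      congr 1
      ring
    have e5 : L * |(z : ℝ) - a| * t' = |(c : ℝ) - a| * L := by
      have : (c : ℝ) - a = t' * (z - a) := by linarith
      rw [this, abs_mul, abs_of_nonneg it.1]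
      ring
    constructor
    · rintro ⟨g1, g2, g3, g4, g5⟩
      unfold kcF at g2
      simp only [max_le_iff, sub_nonpos] at g2
      obtain ⟨⟨⟨k1, k2⟩, k3, k4⟩, ⟨k5, k6⟩, k7⟩ := g2
      exact { h0 := h0, h1 := h1, h2 := h2
              ri := by
                show stS _ (cutp (cutp g a z) 0 t') ≤ 0
                rw [e3]
                exact g1
              rk := by
                show stS _ (cutp (cutp g a z) 0 s) ≤ _
                rw [e1]
                exact k1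
              r2 := by
                show stS _ (cutp (cutp g a z) s t') ≤ _
                rw [e2]
                exact k2
              κk := by
                show stS _ (cutp (cutp g a z) 0 t') ≤ _
                rw [e3]
                exact k3
              κ1 := by
                show stS _ (cutp (cutp g a z) s t') ≤ _
                rw [e2]
                exact k4
              ek := by
                show fCo d E.n.c (cutp (cutp g a z) 0 t' 1) + _ ≤ 0
                rw [e3]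
                exact k5
              kr := by
                show ‖cutp (cutp g a z) 0 t' 1 - _‖ ≤ _
                rw [e3]
                exact k6
              lk := by
                show L * |(z : ℝ) - a| * t' ≤ _
                rw [e5]
                exact sub_nonpos.1 k7
              re := by
                show stS _ (cutp (cutp g a z) t' 1) ≤ 0
                rw [e4]
                exact g3
              ra := by
                show stS _ (cutp (cutp g a z) t' 1) ≤ _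
                rw [e4]
                exact g4
              nr := fun hm => by
                show stN _ _ (cutp (cutp g a z) t' 1) ≤ 0
                rw [e4]
                exact g5 hm }
    · intro H
      have q1 := H.ri
      have q2 := H.rk
      have q3 := H.r2
      have q4 := H.κk
      have q5 := H.κ1
      have q6 := H.ek
      have q7 := H.kr
      have q8 := H.lk
      have q9 := H.re
      have q10 := H.ra
      have q11 := H.nr
      change stS _ (cutp (cutp g a z) 0 t') ≤ 0 at q1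
      change stS _ (cutp (cutp g a z) 0 s) ≤ _ at q2
      change stS _ (cutp (cutp g a z) s t') ≤ _ at q3
      change stS _ (cutp (cutp g a z) 0 t') ≤ _ at q4
      change stS _ (cutp (cutp g a z) s t') ≤ _ at q5
      change fCo d E.n.c (cutp (cutp g a z) 0 t' 1) + _ ≤ 0 at q6
      change ‖cutp (cutp g a z) 0 t' 1 - _‖ ≤ _ at q7
      change L * |(z : ℝ) - a| * t' ≤ _ at q8
      change stS _ (cutp (cutp g a z) t' 1) ≤ 0 at q9
      change stS _ (cutp (cutp g a z) t' 1) ≤ _ at q10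
      change mn → stN _ _ (cutp (cutp g a z) t' 1) ≤ 0 at q11
      rw [e3] at q1 q4 q6 q7
      rw [e1] at q2
      rw [e2] at q3 q5
      rw [e4] at q9 q10 q11
      rw [e5] at q8
      refine ⟨q1, ?_, q9, q10, q11⟩
      unfold kcF
      simp only [max_le_iff, sub_nonpos]
      exact ⟨⟨⟨q2, q3⟩, q4, q5⟩, ⟨q6, q7⟩, sub_nonpos.2 q8⟩
  constructor
  · rintro ⟨h0, h1, h2, h3⟩
    exact (key h0 h1 h2).1 h3
  · intro H
    exact ⟨H.h0, H.h1, H.h2, (key H.h0 H.h1 H.h2).2 H⟩

variable {P : Prm} {i j : Fin 3} {G0 GR : Ga} {k : Arm} {g g' : CC.Gm} {z : I}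

/-- **`FgZ` as a condition on the rest** -/
theorem fgZ_iff (h : ltA k (G0.ix k g) z) : FgZ P i j G0 GR k g z ↔ g ∈ GR.B k ∧
    FgR (dirA i j k) (P.u * dirA i j k) (endA P k) (clA i j k = 0) (pcut (cl g) (G0.ix k g) z)
      (((GR.ic k g : ℝ) - G0.ix k g) / (z - G0.ix k g)) (((GR.ix k g : ℝ) - G0.ix k g) / (z - G0.ix k g)) := by
  have key := fg_iff (d := dirA i j k) (t := P.u * dirA i j k) (E := endA P k) (mn := clA i j k = 0) (g := g.2.2) (L := g.1)
    (b := GR.ic k g) (c := GR.ix k g) h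
  constructor
  · intro H
    exact ⟨H.e, key.1 ⟨H.o1, H.o2, H.o3, H.ri, H.kc, H.re, H.ra, H.nr⟩⟩
  · rintro ⟨h1, h2⟩
    obtain ⟨o1, o2, o3, q1, q2, q3, q4, q5⟩ := key.2 h2
    exact ⟨h1, o1, o2, o3, q1, q2, q3, q4, q5⟩

/-! ### 3. Locality -/

/-- **two strands with a common piece**: curves `g`, `g'`, arms `k`, `k'` of the same direction, data and class, rests read to the ends
`z`, `z'`, pieces of the relative lengths `e`, `e'` equal and then outside of the ball `R0`; the functional gates exist for `g'` at the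
same durations: all the other conditions pass -/
theorem fgZ_loc {P : Prm} {i j i' j' : Fin 3} {G0 GR G0' GR' : Ga} {k k' : Arm} {g g' : CC.Gm} {z z' : I} {R0 ε : ℝ}
    (hE : (endA P k).Ok ε) (ht : ‖P.u * dirA i j k‖ = 1) (hR : 2 * (endA P k).s.bn ≤ R0) (d1 : dirA i' j' k' = dirA i j k)
    (d2 : endA P k' = endA P k) (d3 : clA i' j' k' = 0 → clA i j k = 0) (hL : 0 < g.1) (hL' : 0 < g'.1)
    (o : ltA k (G0.ix k g) z) (o' : ltA k' (G0'.ix k' g') z') {e e' : I}
    (he : pcut (pcut (cl g) (G0.ix k g) z) 0 e = pcut (pcut (cl g') (G0'.ix k' g') z') 0 e')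
    (far : ∀ t : I, e ≤ t → R0 ≤ ‖(pcut (cl g) (G0.ix k g) z).1 t‖)
    (far' : ∀ t : I, e' ≤ t → R0 ≤ ‖(pcut (cl g') (G0'.ix k' g') z').1 t‖) (F : FgZ P i j G0 GR k g z) (hB : g' ∈ GR'.B k')
    (tc : duA k' g'.1 (G0'.ix k' g') (GR'.ic k' g') = duA k g.1 (G0.ix k g) (GR.ic k g))
    (tx : duA k' g'.1 (G0'.ix k' g') (GR'.ix k' g') = duA k g.1 (G0.ix k g) (GR.ix k g)) :
    ((GR.ix k g : ℝ) - G0.ix k g) / (z - G0.ix k g) < e ∧ FgZ P i' j' G0' GR' k' g' z' := by
  obtain ⟨-, hF⟩ := (fgZ_iff o).1 F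
  have b1 := hE.bn
  have b2 := hE.r0
  have b3 := hE.f.rr
  have b4 := hE.f.r
  have b5 := hE.f.r2
  have b6 := hE.f.g64
  have b7 := hE.n.r
  have b8 := hE.n.r2
  have b9 := hE.ball
  have b11 := hE.f.κ
  have ek : (endA P k).k = (endA P k).rk + (endA P k).f.r2 := rfl
  have b12 := hE.rk
  obtain ⟨p1, p2, p3, p4⟩ := hF.loc ht hE.f.co.c0 hE.f.co.c1 (cutp_zero _ _ _) (cutp_zero _ _ _) (R0 := R0) (by linarith)
    (by linarith) (by linarith) (by linarith) he far far'
  have hd : g.1 * |(z : ℝ) - G0.ix k g| * e = g'.1 * |(z' : ℝ) - G0'.ix k' g'| * e' := by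
    have h6 : g.1 * |(z : ℝ) - G0.ix k g| * |(e : ℝ) - 0| = g'.1 * |(z' : ℝ) - G0'.ix k' g'| * |(e' : ℝ) - 0| :=
      congrArg Prod.snd he
    rwa [sub_zero, sub_zero, abs_of_pos p1, abs_of_pos p2] at h6
  have q1 : 0 < g.1 * |(z : ℝ) - G0.ix k g| := mul_pos hL (abs_pos.2 (ltA_ne o))
  have q2 : 0 < g'.1 * |(z' : ℝ) - G0'.ix k' g'| := mul_pos hL' (abs_pos.2 (ltA_ne o'))
  have key : ∀ x : ℝ, x / (g'.1 * |(z' : ℝ) - G0'.ix k' g'|) = x / (g.1 * |(z : ℝ) - G0.ix k g|) * e' / e := by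
    intro x
    rw [div_mul_eq_mul_div, div_div, hd, mul_div_mul_right _ _ p2.ne']
  refine ⟨p3, (fgZ_iff o').2 ⟨hB, ?_⟩⟩
  rw [duA_div _ o' hL', duA_div _ o' hL', tc, tx, key, key, ← duA_div _ o hL, ← duA_div _ o hL, d1, d2]
  exact { p4 with nr := fun hm => p4.nr (d3 hm) }

/-- **the rest of the arm `k`**, read from this arm -/
def resA (G0 : Ga) (k : Arm) (g : CC.Gm) : Pie := pcut (cl g) (G0.ix k g) (G0.ix (oppA k) g)

lemma resA_zero (G0 : Ga) (k : Arm) (g : CC.Gm) : (resA G0 k g).1 0 = 0 := cutp_zero _ _ _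

/-- **locality of the gates at the functional levels** on the arm `k` : existence and times -/
def GaLoc (P : Prm) (i j : Fin 3) (G0 GR : Ga) (k : Arm) (R0 : ℝ) (X : Set CC.Gm) : Prop :=
  ∀ g ∈ X, ∀ g' ∈ X, ∀ e e' : I, pcut (resA G0 k g) 0 e = pcut (resA G0 k g') 0 e' →
    (∀ t : I, e ≤ t → R0 ≤ ‖(resA G0 k g).1 t‖) → (∀ t : I, e' ≤ t → R0 ≤ ‖(resA G0 k g').1 t‖) → FgS P i j G0 GR k g →
      g' ∈ GR.B k ∧ duA k g'.1 (G0.ix k g') (GR.ic k g') = duA k g.1 (G0.ix k g) (GR.ic k g) ∧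
        duA k g'.1 (G0.ix k g') (GR.ix k g') = duA k g.1 (G0.ix k g) (GR.ix k g)

/-- **locality of the foreign gates of one arm** -/
theorem loc_arm {R0 ε : ℝ} {X : Set CC.Gm} (hE : (endA P k).Ok ε) (ht : ‖P.u * dirA i j k‖ = 1) (hR : 2 * (endA P k).s.bn ≤ R0)
    (hX : ∀ g ∈ X, 0 < g.1 ∧ ltA k (G0.ix k g) (G0.ix (oppA k) g)) (H : GaLoc P i j G0 GR k R0 X) (hg : g ∈ X) (hg' : g' ∈ X)
    {e e' : I} (he : pcut (resA G0 k g) 0 e = pcut (resA G0 k g') 0 e') (far : ∀ t : I, e ≤ t → R0 ≤ ‖(resA G0 k g).1 t‖)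
    (far' : ∀ t : I, e' ≤ t → R0 ≤ ‖(resA G0 k g').1 t‖) (F : FgS P i j G0 GR k g) : FgS P i j G0 GR k g' := by
  obtain ⟨q1, q2, q3⟩ := H g hg g' hg' e e' he far far' F
  exact (fgZ_loc hE ht hR rfl rfl id (hX g hg).1 (hX g' hg').1 (hX g hg).2 (hX g' hg').2 he far far' F q1 q2 q3).2

end Pool.Agent.ROT.F3.CK
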