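import Pool.Agent.ROT.F3LrK
import Pool.Agent.ROT.F3LocG
import Pool.Agent.ROT.F3JmH
import Pool.Agent.ROT.F3JmU
import Pool.Agent.ROT.F3K1

/-!
# ROT, F3, row D39 / D49 (helper37): locality of the gates at the functional levels (deterministic half)

* `StrC` : a strand between its native marks; `StrC.pcl` gives helper66's `PcL`;
* `TwoR`, `pt` : curves with two roots, the point of the curve at an absolute time of an arm; `pa_pt`;
* `NatA` : the native statistics of one arm; `NatA.str`;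
* `PlD` : one place (pair of classes, arm, gates, functional marks); `PlD.gd` : its good curves;
* `GtLoc` : locality of the gates of two places; **`gtLoc_of`**; `GtLoc.ga` : helper51's `GaLoc`.
-/

set_option autoImplicit false

noncomputable section

namespace Pool.Agent.ROT.F3.CK

open MeasureTheory Set unitInterval Filter Topology

open scoped ENNReal Classical

open Pool.Agent.ROT.F3 Pool.Agent.ROT.F3.LF
open Pool.Agent.ROT.F3.CC (Pie ex ex_of ex_coe cutp pcut cl mu)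
open Pool.Agent.ROT.F3.K7 (lsd pa pa_cont ctp ctp_apply PcL tcL tcL_of)
open Pool.Agent.ROT.F3.LR (nt ta la nt_ta ta_nt nt_aff nt_abs la_eq pa_lsd ctp_lsd GMk LocS DmP DmL)

/-! ### 1. Strands between their native marks -/

/-- a strand between its native marks at the absolute times `a`, `b`: tips in the ball `z` resp. outside of the ball `Z`, level of the
first tip at most `y` over the mark -/
structure StrC (z Z y : ℝ) (p : ℝ × Pool.Agent.CRT.CI) (a b : ℝ) : Prop where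
  a0 : 0 ≤ a
  ab : a < b
  b1 : b ≤ p.1
  ball : ∀ u ∈ Icc 0 a, ‖pa p u‖ ≤ z
  cut : ∀ u ∈ Icc 0 a, (pa p u).re ≤ (pa p a).re + y
  far : ∀ u ∈ Icc b p.1, Z ≤ ‖pa p u‖

/-- **the piece behind the native mark** at the scale `R` -/
theorem StrC.pcl {z Z y R F : ℝ} {p : ℝ × Pool.Agent.CRT.CI} {a b e : ℝ} (h : StrC z Z y p a b) (hR : 0 ≤ R) (hz : z ≤ R / 8)
    (hy : y ≤ R / 64) (hZ : 1004 * R ≤ Z) (hae : a < e) (heb : e ≤ b) (hF : 510 * R + z ≤ F)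
    (hf : ∀ u ∈ Icc e b, F ≤ ‖pa p u - pa p a‖) : PcL R p a e where
  t0 := h.a0
  te := hae
  e1 := heb.trans h.b1
  ball u hu := ⟨(h.ball u hu).trans hz, (h.cut u hu).trans (by linarith)⟩
  far u hu := by
    rcases le_total u b with h1 | h1
    · have h2 := hf u ⟨hu.1, h1⟩
      have h3 := norm_sub_le (pa p u) (pa p a)
      have h4 := h.ball a ⟨h.a0, le_rfl⟩
      linarith
    · have h2 := h.far u ⟨h1, hu.2⟩
      linarith
  fin := hZ.trans (h.far _ ⟨h.b1, le_rfl⟩)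

/-- small diameters from the distances of two points -/
lemma dmP_pair {pl : ℝ → ℂ} (hc : Continuous pl) {T d r : ℝ} (hT : 0 ≤ T) (h : ∀ u ∈ Icc 0 T, ∀ v ∈ Icc 0 T, ‖pl u - pl v‖ ≤ d)
    (hr : d < r) : DmP pl T r := by
  obtain ⟨δ, hδ, hcont⟩ := Metric.continuousAt_iff.1 (hc.continuousAt (x := T)) ((r - d) / 4) (by linarith)
  refine ⟨δ / 2, half_pos hδ, fun x y hx hx' hy hy' => ?_⟩
  have key : ∀ u, 0 ≤ u → u ≤ T + δ / 2 → ∃ u' ∈ Icc 0 T, ‖pl u - pl u'‖ ≤ (r - d) / 4 := by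
    intro u h0 h1
    rcases le_total u T with h2 | h2
    · refine ⟨u, ⟨h0, h2⟩, ?_⟩
      rw [sub_self, norm_zero]
      linarith
    · have h3 := hcont (x := u) (by
        rw [Real.dist_eq, abs_of_nonneg (by linarith)]
        linarith)
      rw [dist_eq_norm] at h3
      exact ⟨T, ⟨hT, le_rfl⟩, h3.le⟩
  obtain ⟨x', hx1, hx2⟩ := key x hx hx'
  obtain ⟨y', hy1, hy2⟩ := key y hy hy'
  have h1 := norm_add_le (pl x - pl x') (pl x' - pl y')
  have h2 := norm_add_le (pl x - pl y') (pl y' - pl y)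
  rw [sub_add_sub_cancel] at h1 h2
  rw [norm_sub_rev (pl y') (pl y)] at h2
  linarith [h x' hx1 y' hy1]

/-- small diameters from a ball -/
lemma dmP_of {pl : ℝ → ℂ} (hc : Continuous pl) {T ρ0 r : ℝ} {a : ℂ} (hT : 0 ≤ T) (h : ∀ u ∈ Icc 0 T, ‖pl u - a‖ ≤ ρ0)
    (hr : 2 * ρ0 < r) : DmP pl T r :=
  dmP_pair hc hT (fun u hu v hv => by
    have h1 := norm_sub_le (pl u - a) (pl v - a)
    rw [sub_sub_sub_cancel_right] at h1
    linarith [h u hu, h v hv]) hr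

/-! ### 2. The points of an arm -/

/-- two different roots of a closed curve -/
structure TwoR (g : CC.Gm) : Prop where
  L : 0 < g.1
  m0 : 0 < g.2.1
  m1 : g.2.1 < g.1
  cl : g.2.2 0 = g.2.2 1

/-- the point of the closed curve at the absolute time `u` of the arm -/
def pt (k : Arm) (g : CC.Gm) (u : ℝ) : I := pji (nt k g u)

section pts

variable {k : Arm} {g : CC.Gm}

lemma TwoR.mu (h : TwoR g) : muG g = g.2.1 / g.1 := by
  unfold muG
  rw [min_eq_right ((div_le_one h.L).2 h.m1.le), max_eq_right (div_nonneg h.m0.le h.L.le)]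

lemma TwoR.mu0 (h : TwoR g) : 0 < muG g := by
  rw [h.mu]
  exact div_pos h.m0 h.L

lemma TwoR.mu1 (h : TwoR g) : muG g < 1 := by
  rw [h.mu]
  exact (div_lt_one h.L).2 h.m1

lemma TwoR.la (h : TwoR g) : 0 < la k g := by
  cases k
  · exact h.m0
  · exact h.m0
  · exact sub_pos.2 h.m1
  · exact sub_pos.2 h.m1

lemma la_opp : la (oppA k) g = la k g := by cases k <;> rfl

lemma nt_tAt (h : TwoR g) (s : ℝ) : nt k g (s * la k g) = tAt k g s := by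
  have hL := h.L.ne'
  cases k
  · show s * g.2.1 / g.1 = s * muG g
    rw [h.mu]
    ring
  · show g.2.1 / g.1 - s * g.2.1 / g.1 = muG g - s * muG g
    rw [h.mu]
    ring
  · show g.2.1 / g.1 + s * (g.1 - g.2.1) / g.1 = muG g + s * (1 - muG g)
    rw [h.mu]
    field_simp
  · show 1 - s * (g.1 - g.2.1) / g.1 = 1 - s * (1 - muG g)
    rw [h.mu]
    field_simp

lemma tAt_opp (s : ℝ) : tAt (oppA k) g s = tAt k g (1 - s) := by
  cases k
  · show muG g - s * muG g = (1 - s) * muG g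
    ring
  · show s * muG g = muG g - (1 - s) * muG g
    ring
  · show 1 - s * (1 - muG g) = muG g + (1 - s) * (1 - muG g)
    ring
  · show muG g + s * (1 - muG g) = 1 - (1 - s) * (1 - muG g)
    ring

lemma rel_mem (h : TwoR g) {u : ℝ} (hu : u ∈ Icc 0 (la k g)) : u / la k g ∈ Icc (0 : ℝ) 1 :=
  ⟨div_nonneg hu.1 h.la.le, (div_le_one h.la).2 hu.2⟩

lemma nt_mem (h : TwoR g) {u : ℝ} (hu : u ∈ Icc 0 (la k g)) : nt k g u ∈ Icc (0 : ℝ) 1 := by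
  have h1 := nt_tAt (k := k) h (u / la k g)
  rw [div_mul_cancel₀ _ h.la.ne'] at h1
  rw [h1]
  exact tAt_mem (rel_mem h hu)

lemma pt_coe (h : TwoR g) {u : ℝ} (hu : u ∈ Icc 0 (la k g)) : ((pt k g u : I) : ℝ) = nt k g u := pji_mem (nt_mem h hu)

lemma pt_tAt (h : TwoR g) (s : ℝ) : pt k g (s * la k g) = pji (tAt k g s) := by
  unfold pt
  rw [nt_tAt h]

lemma pt_zero (h : TwoR g) : pt k g 0 = rtA k g := by
  have h1 := pt_tAt (k := k) h 0
  rwa [zero_mul, ← rtA_eq] at h1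

lemma pt_la (h : TwoR g) : pt k g (la k g) = rtA (oppA k) g := by
  have h1 := pt_tAt (k := k) h 1
  rw [one_mul] at h1
  rw [h1, rtA_eq, tAt_opp, sub_zero]

lemma pt_le (h : TwoR g) {u u' : ℝ} (huu : u ≤ u') : leA k (pt k g u) (pt k g u') := by
  have h1 : u / g.1 ≤ u' / g.1 := div_le_div_of_nonneg_right huu h.L.le
  cases k
  · exact pji_mono h1
  · exact pji_mono (show mu g - u' / g.1 ≤ mu g - u / g.1 by linarith)
  · exact pji_mono (show mu g + u / g.1 ≤ mu g + u' / g.1 by linarith)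
  · exact pji_mono (show 1 - u' / g.1 ≤ 1 - u / g.1 by linarith)

lemma ltA_not {a b : I} (h : ltA k a b) : ¬ leA k b a := by
  cases k <;> exact not_le.2 h

lemma pt_lt (h : TwoR g) {u u' : ℝ} (huu : ltA k (pt k g u) (pt k g u')) : u < u' := by
  by_contra hc
  exact ltA_not huu (pt_le h (not_lt.1 hc))

/-- the order of two points of the arm -/
lemma pt_le_iff (h : TwoR g) {u u' : ℝ} (hu : u ∈ Icc 0 (la k g)) (hu' : u' ∈ Icc 0 (la k g)) :
    leA k (pt k g u) (pt k g u') ↔ u ≤ u' := by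
  refine ⟨fun h1 => ?_, pt_le h⟩
  by_contra hc
  push Not at hc
  have h2 : pt k g u = pt k g u' := h1.anti (pt_le h hc.le)
  have h3 : nt k g u = nt k g u' := by rw [← pt_coe h hu, ← pt_coe h hu', h2]
  have h4 := congrArg (ta k g) h3
  rw [ta_nt h.L, ta_nt h.L] at h4
  linarith

/-- the durations between two points of the arm -/
lemma duA_pt (h : TwoR g) {u u' : ℝ} (hu : u ∈ Icc 0 (la k g)) (hu' : u' ∈ Icc 0 (la k g)) :
    duA k g.1 (pt k g u) (pt k g u') = u' - u := by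
  have h1 := pt_coe h hu
  have h2 := pt_coe h hu'
  have hL := h.L.ne'
  cases k
  · show (((pt .fp g u' : I) : ℝ) - (pt .fp g u : I)) * g.1 = _
    rw [h1, h2]
    show (u' / g.1 - u / g.1) * g.1 = _
    field_simp
  · show (((pt .bq g u : I) : ℝ) - (pt .bq g u' : I)) * g.1 = _
    rw [h1, h2]
    show (mu g - u / g.1 - (mu g - u' / g.1)) * g.1 = _
    field_simp
    ring
  · show (((pt .fq g u' : I) : ℝ) - (pt .fq g u : I)) * g.1 = _
    rw [h1, h2]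
    show (mu g + u' / g.1 - (mu g + u / g.1)) * g.1 = _
    field_simp
    ring
  · show (((pt .bp g u : I) : ℝ) - (pt .bp g u' : I)) * g.1 = _
    rw [h1, h2]
    show (1 - u / g.1 - (1 - u' / g.1)) * g.1 = _
    field_simp
    ring

/-- the points of the strand of the turned curve -/
lemma pa_pt (h : TwoR g) (T : LSym) (v : ℂ) {u : ℝ} (hu : u ∈ Icc 0 (la k g)) :
    pa (lsd T k (rotX v g)) u = T.L (v * (g.2.2 (pt k g u) - g.2.2 (rtA k g))) := by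
  have h1 := pa_lsd (k := k) (g := rotX v g) T h.L h.la hu.1 hu.2
  rw [h1]
  congr 1
  show v * g.2.2 (pt k g u) - v * ex g.2.2 (k.tr (mu g)) = _
  have h2 : ex g.2.2 (k.tr (mu g)) = g.2.2 (rtA k g) := by
    have h3 : ex g.2.2 0 = g.2.2 0 := CC.ex_zero _
    have h4 : ex g.2.2 (mu g) = g.2.2 (pji (muG g)) := by
      rw [h.mu]
      rfl
    cases k
    · exact h3
    · exact h4
    · exact h4
    · exact h3.trans h.cl
  rw [h2, mul_sub]

end pts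

/-! ### 3. The native statistics of one arm -/

/-- **the native statistics of the arm `k`**: the tips of the two ends are in the balls of radius `z`, the level of the tip is at most
the level of `x`, the two gates `x` are at the distance `D` -/
structure NatA (i j : Fin 3) (G0 : Ga) (k : Arm) (z D : ℝ) (g : CC.Gm) : Prop where
  two : TwoR g
  t0 : G0.x k g ∈ Icc (0 : ℝ) 1
  t1 : G0.x (oppA k) g ∈ Icc (0 : ℝ) 1
  o : ltA k (G0.ix k g) (G0.ix (oppA k) g)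
  b0 : ∀ u, BtI (rtA k g) u (G0.ix k g) → ‖g.2.2 u - g.2.2 (rtA k g)‖ ≤ z
  b1 : ∀ u, BtI (rtA (oppA k) g) u (G0.ix (oppA k) g) → ‖g.2.2 u - g.2.2 (rtA (oppA k) g)‖ ≤ z
  cut : ∀ u, BtI (rtA k g) u (G0.ix k g) → lv (dirA i j k) (g.2.2 u) ≤ lv (dirA i j k) (g.2.2 (G0.ix k g))
  D : D ≤ ‖g.2.2 (G0.ix (oppA k) g) - g.2.2 (G0.ix k g)‖

/-- absolute time of the native mark of the arm -/
def aT (G0 : Ga) (k : Arm) (g : CC.Gm) : ℝ := G0.x k g * la k g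

/-- absolute time of the native mark of the other end -/
def bT (G0 : Ga) (k : Arm) (g : CC.Gm) : ℝ := la k g - G0.x (oppA k) g * la k g

section nat

variable {P : Prm} {i j : Fin 3} {G0 H : Ga} {k : Arm} {z D : ℝ} {g : CC.Gm} {T : LSym}

lemma aT_mem (h : TwoR g) (t : G0.x k g ∈ Icc (0 : ℝ) 1) : aT G0 k g ∈ Icc 0 (la k g) :=
  ⟨mul_nonneg t.1 h.la.le, mul_le_of_le_one_left h.la.le t.2⟩

lemma bT_mem (h : TwoR g) (t : G0.x (oppA k) g ∈ Icc (0 : ℝ) 1) : bT G0 k g ∈ Icc 0 (la k g) := by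
  have h1 := mul_le_of_le_one_left (h.la (k := k)).le t.2
  have h2 := mul_nonneg t.1 (h.la (k := k)).le
  exact ⟨by unfold bT; linarith, by unfold bT; linarith⟩

lemma pt_aT (h : TwoR g) : pt k g (aT G0 k g) = G0.ix k g := pt_tAt h _

lemma pt_bT (h : TwoR g) : pt k g (bT G0 k g) = G0.ix (oppA k) g := by
  have h1 : bT G0 k g = (1 - G0.x (oppA k) g) * la k g := by
    unfold bT
    ring
  rw [h1, pt_tAt h, ← tAt_opp]
  rfl

lemma inv_one_norm (hP : ‖P.u‖ = 1) : ‖P.u⁻¹‖ = 1 := by rw [norm_inv, hP, inv_one]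

lemma conj_inv (hP : ‖P.u‖ = 1) : (starRingEnd ℂ) (P.u)⁻¹ = P.u := by
  rw [Complex.inv_def, map_mul, Complex.conj_conj, Complex.conj_ofReal, Complex.normSq_eq_norm_sq, hP]
  norm_num

/-- norms of the points of the strand -/
lemma pa_nm (h : TwoR g) (hP : ‖P.u‖ = 1) {u u' : ℝ} (hu : u ∈ Icc 0 (la k g)) (hu' : u' ∈ Icc 0 (la k g)) :
    ‖pa (lsd T k (rotX P.u⁻¹ g)) u - pa (lsd T k (rotX P.u⁻¹ g)) u'‖ = ‖g.2.2 (pt k g u) - g.2.2 (pt k g u')‖ := by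
  rw [pa_pt h T _ hu, pa_pt h T _ hu', ← map_sub, ← mul_sub, sub_sub_sub_cancel_right, LinearIsometryEquiv.norm_map, norm_mul,
    inv_one_norm hP, one_mul]

lemma pa_nm0 (h : TwoR g) (hP : ‖P.u‖ = 1) {u : ℝ} (hu : u ∈ Icc 0 (la k g)) :
    ‖pa (lsd T k (rotX P.u⁻¹ g)) u‖ = ‖g.2.2 (pt k g u) - g.2.2 (rtA k g)‖ := by
  rw [pa_pt h T _ hu, LinearIsometryEquiv.norm_map, norm_mul, inv_one_norm hP, one_mul]

/-- levels of the points of the strand -/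
lemma pa_lv (h : TwoR g) (hP : ‖P.u‖ = 1) {d : ℂ} (hT : ∀ w, (T.L w).re = lv d w) {u : ℝ} (hu : u ∈ Icc 0 (la k g)) :
    (pa (lsd T k (rotX P.u⁻¹ g)) u).re = lv (P.u * d) (g.2.2 (pt k g u) - g.2.2 (rtA k g)) := by
  rw [pa_pt h T _ hu, hT, lv_rot, conj_inv hP]

/-- **the strand between its native marks** -/
theorem NatA.str (h : NatA i j G0 k z D g) (hP : ‖P.u‖ = 1) (hT : ∀ w, (T.L w).re = lv (dirA i j k) w) :
    StrC z (D - 3 * z) (‖P.u - 1‖ * (2 * z)) (lsd T k (rotX P.u⁻¹ g)) (aT G0 k g) (bT G0 k g) := by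
  have hw := h.two
  have ha := aT_mem (k := k) hw h.t0
  have hb := bT_mem (k := k) hw h.t1
  have hab : aT G0 k g < bT G0 k g := by
    refine pt_lt (k := k) hw ?_
    rw [pt_aT hw, pt_bT hw]
    exact h.o
  have hbt : ∀ u ∈ Icc 0 (aT G0 k g), BtI (rtA k g) (pt k g u) (G0.ix k g) := by
    intro u hu
    rw [← pt_zero (k := k) hw, ← pt_aT (k := k) (G0 := G0) hw]
    exact (pt_le hw hu.1).bt (pt_le hw hu.2)
  have hball : ∀ u ∈ Icc 0 (aT G0 k g), ‖g.2.2 (pt k g u) - g.2.2 (rtA k g)‖ ≤ z := fun u hu => h.b0 _ (hbt u hu)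
  refine ⟨ha.1, hab, hb.2, fun u hu => ?_, fun u hu => ?_, fun u hu => ?_⟩
  · rw [pa_nm0 hw hP ⟨hu.1, hu.2.trans ha.2⟩]
    exact hball u hu
  · rw [pa_lv hw hP hT ⟨hu.1, hu.2.trans ha.2⟩, pa_lv hw hP hT ha, lv_sub, lv_sub, pt_aT hw]
    have h1 := lv_sub_le (dirA i j k) (P.u * dirA i j k) (g.2.2 (pt k g u) - g.2.2 (G0.ix k g))
    have h2 := h.cut _ (hbt u hu)
    rw [lv_sub, lv_sub] at h1
    have h3 : ‖P.u * dirA i j k - dirA i j k‖ = ‖P.u - 1‖ := by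
      rw [show P.u * dirA i j k - dirA i j k = (P.u - 1) * dirA i j k by ring, norm_mul, dirA_nmH, mul_one]
    have h4 : ‖g.2.2 (pt k g u) - g.2.2 (G0.ix k g)‖ ≤ 2 * z := by
      have h5 := hball u hu
      have h6 := hball (aT G0 k g) ⟨ha.1, le_rfl⟩
      rw [pt_aT hw] at h6
      have h7 := norm_sub_le (g.2.2 (pt k g u) - g.2.2 (rtA k g)) (g.2.2 (G0.ix k g) - g.2.2 (rtA k g))
      rw [sub_sub_sub_cancel_right] at h7
      linarith
    rw [h3] at h1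
    have h5 := mul_le_mul_of_nonneg_left h4 (norm_nonneg (P.u - 1))
    linarith
  · have hu' : u ∈ Icc 0 (la k g) := ⟨hb.1.trans hu.1, hu.2⟩
    rw [pa_nm0 hw hP hu']
    have h1 : BtI (rtA (oppA k) g) (pt k g u) (G0.ix (oppA k) g) := by
      rw [← pt_la (k := k) hw, ← pt_bT (k := k) (G0 := G0) hw]
      exact ((pt_le hw hu.1).bt (pt_le hw hu'.2)).comm
    have h2 := h.b1 _ h1
    have h3 := h.b1 (G0.ix (oppA k) g) (by
      rw [← pt_la (k := k) hw, ← pt_bT (k := k) (G0 := G0) hw]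
      exact ((pt_le hw le_rfl).bt (pt_le hw hb.2)).comm)
    have h4 := hball (aT G0 k g) ⟨ha.1, le_rfl⟩
    rw [pt_aT hw] at h4
    have h5 := h.D
    have e1 : g.2.2 (G0.ix (oppA k) g) - g.2.2 (G0.ix k g) = (g.2.2 (pt k g u) - g.2.2 (rtA k g)) -
        (g.2.2 (G0.ix k g) - g.2.2 (rtA k g)) - ((g.2.2 (pt k g u) - g.2.2 (rtA (oppA k) g)) -
          (g.2.2 (G0.ix (oppA k) g) - g.2.2 (rtA (oppA k) g))) := by ring
    have h6 := norm_sub_le ((g.2.2 (pt k g u) - g.2.2 (rtA k g)) - (g.2.2 (G0.ix k g) - g.2.2 (rtA k g)))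
      ((g.2.2 (pt k g u) - g.2.2 (rtA (oppA k) g)) - (g.2.2 (G0.ix (oppA k) g) - g.2.2 (rtA (oppA k) g)))
    have h7 := norm_sub_le (g.2.2 (pt k g u) - g.2.2 (rtA k g)) (g.2.2 (G0.ix k g) - g.2.2 (rtA k g))
    have h8 := norm_sub_le (g.2.2 (pt k g u) - g.2.2 (rtA (oppA k) g)) (g.2.2 (G0.ix (oppA k) g) - g.2.2 (rtA (oppA k) g))
    rw [e1] at h5
    linarith

lemma ta_rot (v : ℂ) (x : ℝ) : ta k (rotX v g) x = ta k g x := by cases k <;> rfl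

lemma ta_ix (h : TwoR g) (t : G0.x k g ∈ Icc (0 : ℝ) 1) : ta k g (G0.ix k g : I) = aT G0 k g := by
  rw [← pt_aT h, pt_coe h (aT_mem h t), ta_nt h.L]

lemma ta_ix' (h : TwoR g) (t : G0.x (oppA k) g ∈ Icc (0 : ℝ) 1) : ta k g (G0.ix (oppA k) g : I) = bT G0 k g := by
  rw [← pt_bT h, pt_coe h (bT_mem h t), ta_nt h.L]

/-- **the pieces of the rest are pieces of the strand** -/
theorem NatA.piece (h : NatA i j G0 k z D g) (hP : ‖P.u‖ = 1) (hT : ∀ w, (T.L w).re = lv (dirA i j k) w) (v : ℂ) (e : I) :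
    ctp (lsd T k (rotX v g)) (aT G0 k g) (aT G0 k g + e * (bT G0 k g - aT G0 k g)) =
      ((pcut (resA G0 k g) 0 e).2, T.act (v • (pcut (resA G0 k g) 0 e).1)) := by
  have hs := h.str hP hT
  have h1 := LR.ctp_rest (k := k) (g := rotX v g) T h.two.L (x := (G0.ix k g : I)) (y := (G0.ix (oppA k) g : I)) (e := e)
    (by rw [ta_rot, ta_ix h.two h.t0]; exact hs.a0)
    (by rw [ta_rot, ta_rot, ta_ix h.two h.t0, ta_ix' h.two h.t1]; exact hs.ab)
    (by rw [ta_rot, ta_ix' h.two h.t1]; exact hs.b1) e.2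
  rw [ta_rot, ta_rot, ta_ix h.two h.t0, ta_ix' h.two h.t1, cl_rotX, pcut_rotP, pcut_rotP] at h1
  exact h1

/-- **the far part of the rest** -/
theorem NatA.far (h : NatA i j G0 k z D g) (hP : ‖P.u‖ = 1) (hT : ∀ w, (T.L w).re = lv (dirA i j k) w) {R0 : ℝ} {e : I}
    (hf : ∀ t : I, e ≤ t → R0 ≤ ‖(resA G0 k g).1 t‖) : ∀ u ∈ Icc (aT G0 k g + e * (bT G0 k g - aT G0 k g)) (bT G0 k g),
      R0 ≤ ‖pa (lsd T k (rotX P.u⁻¹ g)) u - pa (lsd T k (rotX P.u⁻¹ g)) (aT G0 k g)‖ := by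
  intro u hu
  have hs := h.str hP hT
  have hd : 0 < bT G0 k g - aT G0 k g := sub_pos.2 hs.ab
  obtain ⟨s, hs'⟩ : ∃ s, s = (u - aT G0 k g) / (bT G0 k g - aT G0 k g) := ⟨_, rfl⟩
  have es : s * (bT G0 k g - aT G0 k g) = u - aT G0 k g := by
    rw [hs', div_mul_cancel₀ _ hd.ne']
  have hes : (e : ℝ) ≤ s := by
    rw [hs', le_div_iff₀ hd]
    linarith [hu.1]
  have hs1 : s ≤ 1 := by
    rw [hs', div_le_one hd]
    linarith [hu.2]
  have hsm : s ∈ Icc (0 : ℝ) 1 := ⟨(unitInterval.nonneg e).trans hes, hs1⟩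
  have h1 := LR.pa_rest (k := k) (g := rotX P.u⁻¹ g) T h.two.L (x := (G0.ix k g : I)) (y := (G0.ix (oppA k) g : I)) (s := s)
    (by rw [ta_rot, ta_ix h.two h.t0]; exact hs.a0)
    (by rw [ta_rot, ta_rot, ta_ix h.two h.t0, ta_ix' h.two h.t1]; exact hs.ab)
    (by rw [ta_rot, ta_ix' h.two h.t1]; exact hs.b1) hsm
  rw [ta_rot, ta_rot, ta_ix h.two h.t0, ta_ix' h.two h.t1, es, add_sub_cancel, cl_rotX, pcut_rotP] at h1
  rw [h1, LinearIsometryEquiv.norm_map]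
  show R0 ≤ ‖P.u⁻¹ * (resA G0 k g).1 ⟨s, hsm⟩‖
  rw [norm_mul, inv_one_norm hP, one_mul]
  exact hf ⟨s, hsm⟩ hes

end nat

/-! ### 4. Places -/

/-- **one place**: pair of classes `(i, j)`, arm `k`, native gates `G0`, gates `H` of the rotated lattice at the functional levels (in its
frame), good curves `X` (in its frame), functional base `β` and functional marks of `c~`, `x~`, block mark -/
structure PlD where
  i : Fin 3
  j : Fin 3
  k : Arm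
  G0 : Ga
  H : Ga
  X : Set CC.Gm
  β : CC.Gm → ℝ
  Xc : CC.Gm → ℝ
  Xx : CC.Gm → ℝ
  Xy : CC.Gm → ℝ

/-- **the good curves of a place** -/
structure PlD.Gd (P : Prm) (T : LSym) (z D : ℝ) (A : PlD) (g : CC.Gm) : Prop where
  nat : NatA A.i A.j A.G0 A.k z D g
  un : (A.H.rot P.u).Un g
  X : rotX P.u⁻¹ g ∈ A.X
  /-- the functional base is the level of the native mark over the root -/
  β : A.β (rotX P.u⁻¹ g) = lv (P.u * dirA A.i A.j A.k) (g.2.2 (A.G0.ix A.k g) - g.2.2 (rtA A.k g))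
  β0 : 0 ≤ A.β (rotX P.u⁻¹ g)
  gm : GMk (A.H.B A.k) (A.H.c A.k) (A.H.x A.k) A.β T A.k (endA P A.k).f.l (endA P A.k).f.m A.Xc A.Xx A.Xy (rotX P.u⁻¹ g)

/-- **the numbers**: `z` = tips, `D` = distance of the native marks, `R0` = radius behind the piece, `R`, `R2`, `R3` = scales of `c~`, `x~`,
block mark, `lo .. hi` = range of the levels, `rl`, `sl` = diameters (root .. `c~`, `x~`), `rr`, `sr` = radii of the piece (up to `c~`, `x~`) -/
structure GNum (E : En) (ε z D R0 R R2 R3 lo hi rl sl rr sr : ℝ) : Prop where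
  pz : 0 ≤ z
  pR : 0 ≤ R
  zR : z ≤ R / 8
  y : ε * (2 * z) ≤ R / 64
  R12 : R ≤ R2
  R13 : R ≤ R3
  Z2 : 1004 * R2 ≤ D - 3 * z
  Z3 : 1004 * R3 ≤ D - 3 * z
  f2 : 510 * R2 + z ≤ R0
  f3 : 510 * R3 + z ≤ R0
  plo : lo < E.f.l
  phi : E.f.l + z < hi
  prl : 2 * (z + E.rk) < rl
  psl : 2 * E.f.r2 < sl
  ps2 : 2 * (z + E.rk) + E.f.r2 < sl
  prr : E.rk ≤ rr
  psr : E.k ≤ sr
  pk : E.k < R0

section main

variable {P : Prm} {A A' : PlD} {T : LSym} {z D R0 R R2 R3 lo hi rl sl rr sr : ℝ} {g g' : CC.Gm}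

theorem PlD.Gd.fac (hP : P.Ok) (hT : ∀ w, (T.L w).re = lv (dirA A.i A.j A.k) w)
    (N : GNum (endA P A.k) ‖P.u - 1‖ z D R0 R R2 R3 lo hi rl sl rr sr) (h : A.Gd P T z D g) {e : I}
    (hf : ∀ t : I, e ≤ t → R0 ≤ ‖(resA A.G0 A.k g).1 t‖) : LR.StP R R2 R3 z (endA P A.k).f.l lo hi (lsd T A.k (rotX P.u⁻¹ g))
      (A.β (rotX P.u⁻¹ g)) (aT A.G0 A.k g) (aT A.G0 A.k g + e * (bT A.G0 A.k g - aT A.G0 A.k g)) := by
  have hs := h.nat.str hP.u hT
  have hfar := h.nat.far hP.u hT hf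
  have hw := h.nat.two
  have n1 := N.pz
  have n2 := N.f2
  have n3 := N.R12
  have n4 := N.pR
  have n5 := N.R13
  have n6 := N.f3
  have hk : 0 ≤ (endA P A.k).k := (end_nm (endA_okH hP A.k)).2.2.2.2.2.2
  have hR0 : 0 < R0 := by linarith [N.pk]
  have he : 0 < (e : ℝ) := by
    by_contra hc
    have h1 := hf 0 (show (e : ℝ) ≤ ((0 : I) : ℝ) by rw [Icc.coe_zero]; exact not_lt.1 hc)
    rw [resA_zero, norm_zero] at h1
    linarith
  have hd : 0 < bT A.G0 A.k g - aT A.G0 A.k g := sub_pos.2 hs.ab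
  have h1 : 0 < (e : ℝ) * (bT A.G0 A.k g - aT A.G0 A.k g) := mul_pos he hd
  have h2 : (e : ℝ) * (bT A.G0 A.k g - aT A.G0 A.k g) ≤ bT A.G0 A.k g - aT A.G0 A.k g := mul_le_of_le_one_left hd.le e.2.2
  have ha := aT_mem (k := A.k) hw h.nat.t0
  have hβ : A.β (rotX P.u⁻¹ g) = (pa (lsd T A.k (rotX P.u⁻¹ g)) (aT A.G0 A.k g)).re := by
    rw [h.β, pa_lv hw hP.u hT ha, pt_aT hw]
  have hβz : |A.β (rotX P.u⁻¹ g)| ≤ z := by
    rw [hβ]
    exact (Complex.abs_re_le_norm _).trans (hs.ball _ ⟨hs.a0, le_rfl⟩)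
  have hβz' := abs_le.1 hβz
  refine ⟨?_, ?_, ?_, hs.ball, hβ, by linarith [N.plo, h.β0], by linarith [N.phi]⟩
  · exact hs.pcl n4 N.zR N.y (by linarith [N.Z2]) (by linarith) (by linarith) (by linarith) hfar
  · exact hs.pcl (by linarith) (by linarith [N.zR]) (by linarith [N.y]) N.Z2 (by linarith) (by linarith) n2 hfar
  · exact hs.pcl (by linarith) (by linarith [N.zR]) (by linarith [N.y]) N.Z3 (by linarith) (by linarith) n6 hfar

/-- **the marks of the good curve with the foreign gates** -/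
structure MFac (P : Prm) (A : PlD) (T : LSym) (rl sl rr sr : ℝ) (g : CC.Gm) (e : I) : Prop where
  hB : rotX P.u⁻¹ g ∈ A.H.B A.k
  cm : tcL (lsd T A.k (rotX P.u⁻¹ g)) (A.H.c A.k (rotX P.u⁻¹ g)) ∈ Icc 0 (la A.k g)
  xm : tcL (lsd T A.k (rotX P.u⁻¹ g)) (A.H.x A.k (rotX P.u⁻¹ g)) ∈ Icc 0 (la A.k g)
  ac : aT A.G0 A.k g < tcL (lsd T A.k (rotX P.u⁻¹ g)) (A.H.c A.k (rotX P.u⁻¹ g))
  xe : tcL (lsd T A.k (rotX P.u⁻¹ g)) (A.H.x A.k (rotX P.u⁻¹ g)) < aT A.G0 A.k g + e * (bT A.G0 A.k g - aT A.G0 A.k g)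
  dc : DmP (pa (lsd T A.k (rotX P.u⁻¹ g))) (tcL (lsd T A.k (rotX P.u⁻¹ g)) (A.H.c A.k (rotX P.u⁻¹ g))) rl
  dx : DmP (pa (lsd T A.k (rotX P.u⁻¹ g))) (tcL (lsd T A.k (rotX P.u⁻¹ g)) (A.H.x A.k (rotX P.u⁻¹ g))) sl
  rc : ∀ u ∈ Icc (aT A.G0 A.k g) (tcL (lsd T A.k (rotX P.u⁻¹ g)) (A.H.c A.k (rotX P.u⁻¹ g))),
    ‖pa (lsd T A.k (rotX P.u⁻¹ g)) u - pa (lsd T A.k (rotX P.u⁻¹ g)) (aT A.G0 A.k g)‖ ≤ rr
  rx : ∀ u ∈ Icc (aT A.G0 A.k g) (tcL (lsd T A.k (rotX P.u⁻¹ g)) (A.H.x A.k (rotX P.u⁻¹ g))),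
    ‖pa (lsd T A.k (rotX P.u⁻¹ g)) u - pa (lsd T A.k (rotX P.u⁻¹ g)) (aT A.G0 A.k g)‖ ≤ sr
  ic : pt A.k g (tcL (lsd T A.k (rotX P.u⁻¹ g)) (A.H.c A.k (rotX P.u⁻¹ g))) = (A.H.rot P.u).ic A.k g
  ix : pt A.k g (tcL (lsd T A.k (rotX P.u⁻¹ g)) (A.H.x A.k (rotX P.u⁻¹ g))) = (A.H.rot P.u).ix A.k g

theorem PlD.Gd.mfac (hP : P.Ok) (hT : ∀ w, (T.L w).re = lv (dirA A.i A.j A.k) w)
    (N : GNum (endA P A.k) ‖P.u - 1‖ z D R0 R R2 R3 lo hi rl sl rr sr) (h : A.Gd P T z D g) {e : I}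
    (hf : ∀ t : I, e ≤ t → R0 ≤ ‖(resA A.G0 A.k g).1 t‖) (F : FgS P A.i A.j A.G0 (A.H.rot P.u) A.k g) :
    MFac P A T rl sl rr sr g e := by
  have hs := h.nat.str hP.u hT
  have hfar := h.nat.far hP.u hT hf
  have fac := h.fac hP hT N hf
  have hw := h.nat.two
  have hE := endA_okH hP A.k
  have hB : rotX P.u⁻¹ g ∈ A.H.B A.k := F.e
  have lv0 := h.gm.lv hB
  rw [← h.gm.c hB] at lv0
  obtain ⟨u0, u1, u2⟩ := h.un.h A.k hB
  have u0' : 0 ≤ A.H.c A.k (rotX P.u⁻¹ g) := u0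
  have u1' : A.H.c A.k (rotX P.u⁻¹ g) ≤ A.H.x A.k (rotX P.u⁻¹ g) := u1
  have u2' : A.H.x A.k (rotX P.u⁻¹ g) ≤ 1 := u2
  obtain ⟨l, hl⟩ : ∃ l, l = la A.k g := ⟨_, rfl⟩
  have l0 : 0 < l := by
    rw [hl]
    exact hw.la
  have tc : ∀ φ : ℝ, 0 ≤ φ → tcL (lsd T A.k (rotX P.u⁻¹ g)) φ = φ * la A.k g := fun φ hφ => tcL_of hφ
  have eC := tc _ u0'
  have eX := tc _ (u0'.trans u1')
  have mem : ∀ φ : ℝ, 0 ≤ φ → φ ≤ 1 → φ * la A.k g ∈ Icc 0 (la A.k g) := fun φ h0 h1 => by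
    rw [← hl]
    exact ⟨mul_nonneg h0 l0.le, mul_le_of_le_one_left l0.le h1⟩
  have cm := mem _ u0' (u1'.trans u2')
  have xm := mem _ (u0'.trans u1') u2'
  rw [← eC] at cm
  rw [← eX] at xm
  have ha := aT_mem (k := A.k) hw h.nat.t0
  have hb := bT_mem (k := A.k) hw h.nat.t1
  have ic : pt A.k g (tcL (lsd T A.k (rotX P.u⁻¹ g)) (A.H.c A.k (rotX P.u⁻¹ g))) = (A.H.rot P.u).ic A.k g := by
    rw [eC, pt_tAt hw]
    rfl
  have ix : pt A.k g (tcL (lsd T A.k (rotX P.u⁻¹ g)) (A.H.x A.k (rotX P.u⁻¹ g))) = (A.H.rot P.u).ix A.k g := by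
    rw [eX, pt_tAt hw]
    rfl
  obtain ⟨C, hC⟩ : ∃ C, C = tcL (lsd T A.k (rotX P.u⁻¹ g)) (A.H.c A.k (rotX P.u⁻¹ g)) := ⟨_, rfl⟩
  obtain ⟨X, hX⟩ : ∃ X, X = tcL (lsd T A.k (rotX P.u⁻¹ g)) (A.H.x A.k (rotX P.u⁻¹ g)) := ⟨_, rfl⟩
  have cx : C ≤ X := by
    rw [hC, hX, eC, eX]
    exact mul_le_mul_of_nonneg_right u1' (by rw [← hl]; exact l0.le)
  rw [← hC] at ic cm lv0
  rw [← hX] at ix xm
  have aC : aT A.G0 A.k g ≤ C := by
    rw [← pt_le_iff hw ha cm, pt_aT hw, ic]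
    exact F.o1
  have hflt : aT A.G0 A.k g < C := by
    rcases eq_or_lt_of_le aC with h1 | h1
    · exfalso
      rw [← h1, fac.β] at lv0
      linarith [hE.f.l]
    · exact h1
  have Xb : X ≤ bT A.G0 A.k g := by
    rw [← pt_le_iff hw xm hb, pt_bT hw, ix]
    exact F.o3
  have bt1 : BtI (A.G0.ix A.k g) ((A.H.rot P.u).ic A.k g) ((A.H.rot P.u).ix A.k g) := F.o1.bt F.o2
  have k1 : ∀ u, aT A.G0 A.k g ≤ u → u ≤ X → ‖g.2.2 (pt A.k g u) - g.2.2 (A.G0.ix A.k g)‖ ≤ (endA P A.k).k := by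
    intro u h1 h2
    refine kc_ball F.kc bt1 ?_ hE.f.r2.le
    rw [← ix, ← pt_aT (k := A.k) hw]
    exact (pt_le hw h1).bt (pt_le hw h2)
  have k2 : ∀ u, aT A.G0 A.k g ≤ u → u ≤ C → ‖g.2.2 (pt A.k g u) - g.2.2 (A.G0.ix A.k g)‖ ≤ (endA P A.k).rk := by
    intro u h1 h2
    have h3 := F.kc
    unfold kcF at h3
    simp only [max_le_iff] at h3
    have h4 := h3.1.1.1
    rw [stS_bt continuous_norm] at h4
    refine h4 _ ?_
    rw [← ic, ← pt_aT (k := A.k) hw]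
    exact (pt_le hw h1).bt (pt_le hw h2)
  have k3 : ∀ u, C ≤ u → u ≤ X → ‖g.2.2 (pt A.k g u) - g.2.2 (pt A.k g C)‖ ≤ (endA P A.k).f.r2 := by
    intro u h1 h2
    have h3 := F.kc
    unfold kcF at h3
    simp only [max_le_iff] at h3
    have h4 := h3.1.1.2
    rw [stS_bt continuous_norm] at h4
    have h5 := h4 (pt A.k g u) (by
      rw [← ic, ← ix]
      exact (pt_le hw h1).bt (pt_le hw h2))
    rw [← ic] at h5
    exact h5
  have pz := N.pz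
  have n1 := hE.rk
  have n2 : (endA P A.k).k = (endA P A.k).rk + (endA P A.k).f.r2 := rfl
  have n3 := hE.f.r2
  have ra := hs.ball (aT A.G0 A.k g) ⟨hs.a0, le_rfl⟩
  have rC : ∀ u, aT A.G0 A.k g ≤ u → u ≤ C →
      ‖pa (lsd T A.k (rotX P.u⁻¹ g)) u - pa (lsd T A.k (rotX P.u⁻¹ g)) (aT A.G0 A.k g)‖ ≤ (endA P A.k).rk := by
    intro u h1 h2
    rw [pa_nm hw hP.u ⟨hs.a0.trans h1, h2.trans cm.2⟩ ha, pt_aT hw]
    exact k2 u h1 h2
  have rX : ∀ u, aT A.G0 A.k g ≤ u → u ≤ X →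
      ‖pa (lsd T A.k (rotX P.u⁻¹ g)) u - pa (lsd T A.k (rotX P.u⁻¹ g)) (aT A.G0 A.k g)‖ ≤ (endA P A.k).k := by
    intro u h1 h2
    rw [pa_nm hw hP.u ⟨hs.a0.trans h1, h2.trans xm.2⟩ ha, pt_aT hw]
    exact k1 u h1 h2
  have rCX : ∀ u, C ≤ u → u ≤ X → ‖pa (lsd T A.k (rotX P.u⁻¹ g)) u - pa (lsd T A.k (rotX P.u⁻¹ g)) C‖ ≤ (endA P A.k).f.r2 := by
    intro u h1 h2
    rw [pa_nm hw hP.u ⟨cm.1.trans h1, h2.trans xm.2⟩ cm]
    exact k3 u h1 h2
  have diaC : ∀ u ∈ Icc 0 C, ‖pa (lsd T A.k (rotX P.u⁻¹ g)) u - 0‖ ≤ z + (endA P A.k).rk := by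
    intro u hu
    rw [sub_zero]
    rcases le_total u (aT A.G0 A.k g) with h1 | h1
    · linarith [hs.ball u ⟨hu.1, h1⟩]
    · have h3 := norm_add_le (pa (lsd T A.k (rotX P.u⁻¹ g)) u - pa (lsd T A.k (rotX P.u⁻¹ g)) (aT A.G0 A.k g))
        (pa (lsd T A.k (rotX P.u⁻¹ g)) (aT A.G0 A.k g))
      rw [sub_add_cancel] at h3
      linarith [rC u h1 hu.2]
  have diaCC : ∀ u ∈ Icc 0 C, ∀ v ∈ Icc 0 C, ‖pa (lsd T A.k (rotX P.u⁻¹ g)) u - pa (lsd T A.k (rotX P.u⁻¹ g)) v‖ ≤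
      2 * (z + (endA P A.k).rk) := by
    intro u hu v hv
    have h1 := norm_sub_le (pa (lsd T A.k (rotX P.u⁻¹ g)) u - 0) (pa (lsd T A.k (rotX P.u⁻¹ g)) v - 0)
    rw [sub_sub_sub_cancel_right] at h1
    linarith [diaC u hu, diaC v hv]
  have diaX : ∀ u ∈ Icc 0 X, ∀ v ∈ Icc 0 X, ‖pa (lsd T A.k (rotX P.u⁻¹ g)) u - pa (lsd T A.k (rotX P.u⁻¹ g)) v‖ ≤
      max (2 * (endA P A.k).f.r2) (2 * (z + (endA P A.k).rk) + (endA P A.k).f.r2) := by
    have c0 : 0 ≤ C := cm.1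
    have one : ∀ u ∈ Icc 0 C, ∀ v ∈ Icc C X, ‖pa (lsd T A.k (rotX P.u⁻¹ g)) u - pa (lsd T A.k (rotX P.u⁻¹ g)) v‖ ≤
        2 * (z + (endA P A.k).rk) + (endA P A.k).f.r2 := by
      intro u hu v hv
      have h1 := norm_sub_le (pa (lsd T A.k (rotX P.u⁻¹ g)) u - pa (lsd T A.k (rotX P.u⁻¹ g)) C)
        (pa (lsd T A.k (rotX P.u⁻¹ g)) v - pa (lsd T A.k (rotX P.u⁻¹ g)) C)
      rw [sub_sub_sub_cancel_right] at h1
      linarith [diaCC u hu C ⟨c0, le_rfl⟩, rCX v hv.1 hv.2]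
    intro u hu v hv
    rcases le_total u C with h1 | h1 <;> rcases le_total v C with h2 | h2
    · refine ((diaCC u ⟨hu.1, h1⟩ v ⟨hv.1, h2⟩).trans ?_).trans (le_max_right _ _)
      linarith
    · exact (one u ⟨hu.1, h1⟩ v ⟨h2, hv.2⟩).trans (le_max_right _ _)
    · rw [norm_sub_rev]
      exact (one v ⟨hv.1, h2⟩ u ⟨h1, hu.2⟩).trans (le_max_right _ _)
    · refine le_trans ?_ (le_max_left _ _)
      have h3 := norm_sub_le (pa (lsd T A.k (rotX P.u⁻¹ g)) u - pa (lsd T A.k (rotX P.u⁻¹ g)) C)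
        (pa (lsd T A.k (rotX P.u⁻¹ g)) v - pa (lsd T A.k (rotX P.u⁻¹ g)) C)
      rw [sub_sub_sub_cancel_right] at h3
      linarith [rCX u h1 hu.2, rCX v h2 hv.2]
  have xe : X < aT A.G0 A.k g + e * (bT A.G0 A.k g - aT A.G0 A.k g) := by
    by_contra hc
    have h1 := hfar X ⟨not_lt.1 hc, Xb⟩
    rw [pa_nm hw hP.u xm ha, pt_aT hw] at h1
    have h2 := k1 X (aC.trans cx) le_rfl
    linarith [N.pk]
  exact { hB := hB
          cm := by rw [← hC]; exact cm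
          xm := by rw [← hX]; exact xm
          ac := by rw [← hC]; exact hflt
          xe := by rw [← hX]; exact xe
          dc := by
            rw [← hC]
            exact dmP_of (pa_cont _) cm.1 diaC N.prl
          dx := by
            rw [← hX]
            exact dmP_pair (pa_cont _) xm.1 diaX (max_lt N.psl N.ps2)
          rc := by
            rw [← hC]
            exact fun u hu => (rC u hu.1 hu.2).trans N.prr
          rx := by
            rw [← hX]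
            exact fun u hu => (rX u hu.1 hu.2).trans N.psr
          ic := by rw [← hC]; exact ic
          ix := by rw [← hX]; exact ix }

/-- **two curves**: locality of the gates at the functional levels -/
theorem gt_pt (hP : P.Ok) (hd : dirA A'.i A'.j A'.k = dirA A.i A.j A.k) (hE : endA P A'.k = endA P A.k)
    (hT : ∀ w, (T.L w).re = lv (dirA A.i A.j A.k) w) (N : GNum (endA P A.k) ‖P.u - 1‖ z D R0 R R2 R3 lo hi rl sl rr sr)
    (S : LocS R R2 z (endA P A.k).f.l lo hi rl sl rr sr T A.k A.X A.β A.Xc A.Xx T A'.k A'.X A'.β A'.Xc A'.Xx)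
    (Sy : LocS R R3 z (endA P A.k).f.l lo hi rl sl rr sr T A.k A.X A.β A.Xc A.Xy T A'.k A'.X A'.β A'.Xc A'.Xy)
    (hg : A.Gd P T z D g) (hg' : A'.Gd P T z D g') {e e' : I}
    (he : pcut (resA A.G0 A.k g) 0 e = pcut (resA A'.G0 A'.k g') 0 e')
    (far : ∀ t : I, e ≤ t → R0 ≤ ‖(resA A.G0 A.k g).1 t‖) (far' : ∀ t : I, e' ≤ t → R0 ≤ ‖(resA A'.G0 A'.k g').1 t‖)
    (F : FgS P A.i A.j A.G0 (A.H.rot P.u) A.k g) :
    g' ∈ (A'.H.rot P.u).B A'.k ∧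
      duA A'.k g'.1 (A'.G0.ix A'.k g') ((A'.H.rot P.u).ic A'.k g') = duA A.k g.1 (A.G0.ix A.k g) ((A.H.rot P.u).ic A.k g) ∧
      duA A'.k g'.1 (A'.G0.ix A'.k g') ((A'.H.rot P.u).ix A'.k g') = duA A.k g.1 (A.G0.ix A.k g) ((A.H.rot P.u).ix A.k g) := by
  have hT' : ∀ w, (T.L w).re = lv (dirA A'.i A'.j A'.k) w := fun w => by rw [hT, hd]
  have N' : GNum (endA P A'.k) ‖P.u - 1‖ z D R0 R R2 R3 lo hi rl sl rr sr := by
    rw [hE]
    exact N
  have f := hg.fac hP hT N far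
  have f' := hg'.fac hP hT' N' far'
  have m := hg.mfac hP hT N far F
  have q1 := hg.nat.piece hP.u hT P.u⁻¹ e
  have q2 := hg'.nat.piece hP.u hT' P.u⁻¹ e'
  have q : ctp (lsd T A.k (rotX P.u⁻¹ g)) (aT A.G0 A.k g) (aT A.G0 A.k g + e * (bT A.G0 A.k g - aT A.G0 A.k g)) =
      ctp (lsd T A'.k (rotX P.u⁻¹ g')) (aT A'.G0 A'.k g') (aT A'.G0 A'.k g' + e' * (bT A'.G0 A'.k g' - aT A'.G0 A'.k g')) := by
    rw [q1, q2, he]
  have gm' := hg'.gm
  rw [hE] at f' gm'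
  obtain ⟨r1, r2, r3⟩ := LR.gate_core S Sy hg.X hg'.X hg.gm gm' f f' q m.hB m.ac m.xe m.dc m.dx m.dx m.rc
    m.rx
  have hw := hg.nat.two
  have hw' := hg'.nat.two
  obtain ⟨u0, u1, u2⟩ := hg'.un.h A'.k (show g' ∈ (A'.H.rot P.u).B A'.k from r1)
  have u0' : 0 ≤ A'.H.c A'.k (rotX P.u⁻¹ g') := u0
  have u1' : A'.H.c A'.k (rotX P.u⁻¹ g') ≤ A'.H.x A'.k (rotX P.u⁻¹ g') := u1
  have u2' : A'.H.x A'.k (rotX P.u⁻¹ g') ≤ 1 := u2
  have l0 : 0 < la A'.k g' := hw'.la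
  have tc : ∀ φ : ℝ, 0 ≤ φ → tcL (lsd T A'.k (rotX P.u⁻¹ g')) φ = φ * la A'.k g' := fun φ hφ => tcL_of hφ
  have eC := tc _ u0'
  have eX := tc _ (u0'.trans u1')
  have mem : ∀ φ : ℝ, 0 ≤ φ → φ ≤ 1 → φ * la A'.k g' ∈ Icc 0 (la A'.k g') := fun φ h0 h1 =>
    ⟨mul_nonneg h0 l0.le, mul_le_of_le_one_left l0.le h1⟩
  have cm := mem _ u0' (u1'.trans u2')
  have xm := mem _ (u0'.trans u1') u2'
  have ic : pt A'.k g' (A'.H.c A'.k (rotX P.u⁻¹ g') * la A'.k g') = (A'.H.rot P.u).ic A'.k g' := by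
    rw [pt_tAt hw']
    rfl
  have ix : pt A'.k g' (A'.H.x A'.k (rotX P.u⁻¹ g') * la A'.k g') = (A'.H.rot P.u).ix A'.k g' := by
    rw [pt_tAt hw']
    rfl
  have ha := aT_mem (k := A.k) hw hg.nat.t0
  have ha' := aT_mem (k := A'.k) hw' hg'.nat.t0
  rw [eC] at r2
  rw [eX] at r3
  refine ⟨r1, ?_, ?_⟩
  · rw [← ic, ← m.ic, ← pt_aT hw, ← pt_aT hw', duA_pt hw ha m.cm, duA_pt hw' ha' cm]
    exact r2
  · rw [← ix, ← m.ix, ← pt_aT hw, ← pt_aT hw', duA_pt hw ha m.xm, duA_pt hw' ha' xm]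
    exact r3

/-- **locality of the gates at the functional levels** of two places (helper51's `GaLoc` for two systems) -/
def GtLoc (P : Prm) (i j : Fin 3) (G0 GR : Ga) (k : Arm) (_ _ : Fin 3) (G0' GR' : Ga) (k' : Arm) (R0 : ℝ) (X X' : Set CC.Gm) : Prop :=
  ∀ g ∈ X, ∀ g' ∈ X', ∀ e e' : I, pcut (resA G0 k g) 0 e = pcut (resA G0' k' g') 0 e' →
    (∀ t : I, e ≤ t → R0 ≤ ‖(resA G0 k g).1 t‖) → (∀ t : I, e' ≤ t → R0 ≤ ‖(resA G0' k' g').1 t‖) → FgS P i j G0 GR k g →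
      g' ∈ GR'.B k' ∧ duA k' g'.1 (G0'.ix k' g') (GR'.ic k' g') = duA k g.1 (G0.ix k g) (GR.ic k g) ∧
        duA k' g'.1 (G0'.ix k' g') (GR'.ix k' g') = duA k g.1 (G0.ix k g) (GR.ix k g)

/-- helper51's literal -/
lemma GtLoc.ga {i j : Fin 3} {G0 GR : Ga} {k : Arm} {X : Set CC.Gm} (h : GtLoc P i j G0 GR k i j G0 GR k R0 X X) :
    GaLoc P i j G0 GR k R0 X := h

/-- **locality of the gates of two places**: `A`, `A'` = the same direction and the same data of the end -/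
theorem gtLoc_of (hP : P.Ok) (hd : dirA A'.i A'.j A'.k = dirA A.i A.j A.k) (hE : endA P A'.k = endA P A.k)
    (hT : ∀ w, (T.L w).re = lv (dirA A.i A.j A.k) w) (N : GNum (endA P A.k) ‖P.u - 1‖ z D R0 R R2 R3 lo hi rl sl rr sr)
    (S : LocS R R2 z (endA P A.k).f.l lo hi rl sl rr sr T A.k A.X A.β A.Xc A.Xx T A'.k A'.X A'.β A'.Xc A'.Xx)
    (Sy : LocS R R3 z (endA P A.k).f.l lo hi rl sl rr sr T A.k A.X A.β A.Xc A.Xy T A'.k A'.X A'.β A'.Xc A'.Xy) :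
    GtLoc P A.i A.j A.G0 (A.H.rot P.u) A.k A'.i A'.j A'.G0 (A'.H.rot P.u) A'.k R0 {g | A.Gd P T z D g} {g | A'.Gd P T z D g} :=
  fun _ hg _ hg' _ _ he far far' F => gt_pt hP hd hE hT N S Sy hg hg' he far far' F

end main

/-! ### 5. The native statistics from the class of the lattice 0 -/

/-- the index of the direction of the arm -/
def ixA (i j : Fin 3) : Arm → Fin 3
  | .fp => i
  | .bq => -i
  | .fq => -j
  | .bp => j

lemma dirA_ev (i j : Fin 3) (k : Arm) : dirA i j k = ev (ixA i j k) := by cases k <;> rfl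

/-- the symmetry of the lattice which turns the direction of the arm to `1` -/
def TA (i j : Fin 3) (k : Arm) : LSym := rS (-ixA i j k)

lemma TA_lv (i j : Fin 3) (k : Arm) (w : ℂ) : ((TA i j k).L w).re = lv (dirA i j k) w := by
  rw [dirA_ev, lv_ev]
  rfl

lemma TA_eq {i j i' j' : Fin 3} {k k' : Arm} (h : ixA i' j' k' = ixA i j k) : TA i' j' k' = TA i j k := by
  unfold TA
  rw [h]

section cev

variable {P : Prm} {i j : Fin 3} {G0 : Ga} {g : CC.Gm} {z D : ℝ}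

/-- the distance of the native marks -/
lemma cev_far (h : CEv (jD0 P i j) g.2.2 g.1 (pji (muG g)) (G0.i8 g)) (k : Arm) :
    (P.wd (wnA P (clA i j k))).D0 ≤ ‖g.2.2 (G0.ix (oppA k) g) - g.2.2 (G0.ix k g)‖ := by
  have hA : (P.wd (wnA P i)).D0 ≤ ‖g.2.2 (G0.ix .bq g) - g.2.2 (G0.ix .fp g)‖ := wiF_farH (rsF_wi.1 h.A).2.2
  have hB : (P.wd (wnA P j)).D0 ≤ ‖g.2.2 (G0.ix .fq g) - g.2.2 (G0.ix .bp g)‖ := wiF_farH (rsF_wi.1 h.B).2.2
  cases k
  · exact hA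
  · rw [norm_sub_rev]
    exact hA
  · rw [norm_sub_rev]
    exact hB
  · exact hB

/-- the order of the native marks -/
lemma cev_ord (h : CEv (jD0 P i j) g.2.2 g.1 (pji (muG g)) (G0.i8 g)) (k : Arm) : leA k (G0.ix k g) (G0.ix (oppA k) g) := by
  have hA : G0.ix .fp g ≤ G0.ix .bq g := h.o2
  have hB : G0.ix .fq g ≤ G0.ix .bp g := h.o7
  cases k
  · exact hA
  · exact hA
  · exact hB
  · exact hB

lemma ltA_of {k : Arm} {a b : I} (h : leA k a b) (hne : a ≠ b) : ltA k a b := by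
  cases k
  · exact lt_of_le_of_ne h hne
  · exact lt_of_le_of_ne h (Ne.symm hne)
  · exact lt_of_le_of_ne h hne
  · exact lt_of_le_of_ne h (Ne.symm hne)

lemma gtI_ball {d : ℂ} {E : Tp} {f : C(I, ℂ)} {a b c : I} (h : GtI d E f a b c) (hb : BtI a b c) :
    ∀ u, BtI a u c → ‖f u - f a‖ ≤ E.r + E.r2 := by
  intro u hu
  have hbb : BtI a b b := by
    rcases hb with ⟨x1, x2⟩ | ⟨x1, x2⟩
    · exact Or.inl ⟨x1, le_rfl⟩
    · exact Or.inr ⟨le_rfl, x2⟩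
  have h4 := h.b1 b hbb
  have hr2 : 0 ≤ E.r2 := by
    have h5 := h.b2 b (by
      rcases hb with ⟨x1, x2⟩ | ⟨x1, x2⟩
      · exact Or.inl ⟨le_rfl, x2⟩
      · exact Or.inr ⟨x1, le_rfl⟩)
    rw [sub_self, norm_zero] at h5
    exact h5
  rcases hb with ⟨x1, x2⟩ | ⟨x1, x2⟩
  · have hh := hu.of_le (x1.trans x2)
    rcases le_total u b with h' | h'
    · linarith [h.b1 u (Or.inl ⟨hh.1, h'⟩)]
    · have h3 := h.b2 u (Or.inl ⟨h', hh.2⟩)
      have h5 := norm_add_le (f u - f b) (f b - f a)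
      rw [sub_add_sub_cancel] at h5
      linarith
  · have hh := hu.comm.of_le (x1.trans x2)
    rcases le_total b u with h' | h'
    · linarith [h.b1 u (Or.inr ⟨h', hh.2⟩)]
    · have h3 := h.b2 u (Or.inr ⟨hh.1, h'⟩)
      have h5 := norm_add_le (f u - f b) (f b - f a)
      rw [sub_add_sub_cancel] at h5
      linarith

lemma gtI_cut {d : ℂ} {E : Tp} {f : C(I, ℂ)} {a b c : I} (h : GtI d E f a b c) (hb : BtI a b c) :
    ∀ u, BtI a u c → lv d (f u) ≤ lv d (f c) := by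
  intro u hu
  have hbc : lv d (f b) ≤ lv d (f c) := h.t2 b (by
    rcases hb with ⟨x1, x2⟩ | ⟨x1, x2⟩
    · exact Or.inl ⟨le_rfl, x2⟩
    · exact Or.inr ⟨x1, le_rfl⟩)
  rcases hb with ⟨x1, x2⟩ | ⟨x1, x2⟩
  · have hh := hu.of_le (x1.trans x2)
    rcases le_total u b with h' | h'
    · exact (h.t1 u (Or.inl ⟨hh.1, h'⟩)).trans hbc
    · exact h.t2 u (Or.inl ⟨h', hh.2⟩)
  · have hh := hu.comm.of_le (x1.trans x2)
    rcases le_total b u with h' | h'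
    · exact (h.t1 u (Or.inr ⟨h', hh.2⟩)).trans hbc
    · exact h.t2 u (Or.inr ⟨hh.1, h'⟩)

/-- **the native statistics of one arm** from the class of the lattice 0 -/
theorem natA_of (hw : TwoR g) (hu : G0.Un g) (hB : ∀ k, g ∈ G0.B k)
    (h : CEv (jD0 P i j) g.2.2 g.1 (pji (muG g)) (G0.i8 g)) (k : Arm)
    (hz : ∀ k : Arm, (endA P k).n.r + (endA P k).n.r2 ≤ z) (hD : D ≤ (P.wd (wnA P (clA i j k))).D0)
    (hD0 : 0 < (P.wd (wnA P (clA i j k))).D0) : NatA i j G0 k z D g := by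
  have ht : ∀ k : Arm, G0.x k g ∈ Icc (0 : ℝ) 1 := fun k => ⟨(hu.h k (hB k)).1.trans (hu.h k (hB k)).2.1, (hu.h k (hB k)).2.2⟩
  have hgt : ∀ k : Arm, GtI (dirA i j k) (endA P k).n g.2.2 (rtA k g) (G0.ic k g) (G0.ix k g) := fun k =>
    (preK_iff (dirA_nmH i j k)).1 (cev0_arm h k).2.2.2
  have hbt : ∀ k : Arm, BtI (rtA k g) (G0.ic k g) (G0.ix k g) := fun k => (cev0_arm h k).1.bt (cev0_arm h k).2.1
  have hfar := cev_far h k
  refine ⟨hw, ht k, ht _, ltA_of (cev_ord h k) fun he => ?_, fun u hu => (gtI_ball (hgt k) (hbt k) u hu).trans (hz k),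
    fun u hu => (gtI_ball (hgt _) (hbt _) u hu).trans (hz _), gtI_cut (hgt k) (hbt k), hD.trans hfar⟩
  rw [← he, sub_self, norm_zero] at hfar
  linarith

end cev

end Pool.Agent.ROT.F3.CK
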