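import Pool.Agent.ROT.F3CoreW
import Pool.Agent.ROT.F3CoreJ

/-!
# ROT, F3, row Core, part (C1), connections with the gates `c` (helper42)

* `rp f m b` : the curve `u ↦ f (m u + b)` (clamped), jointly continuous;
* `con g r c x` : strand of a connection, root `r`, gates `c`, `x`: (the piece from `r` to `c`, the piece from `x` BACKWARDS to `c`);
* `jn` : joins two such pieces, measurable, continuous for positive durations; **`jn_con`** : `jn (con g r c x)` = the piece from `r`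
  to `x`; **`con_inj`**;
* eight marks `Fin 8 → ℝ` (0 = c A p, 1 = x A p, 2 = x A q, 3 = c A q, 4 = c B q, 5 = x B q, 6 = x B p, 7 = c B p): `kapM`, `kap8`, `m4`;
* `q1At`, `q2At`, `qpAt`, `qqAt` : the pieces between two systems of marks; **`arcs_at`**, `phi_at` (inputs of `hj_of`);
* words: **`con_p`**, **`con_q`** .., `kap8_word`, **`kap8_G6`**.
-/

set_option autoImplicit false

open MeasureTheory Topology Set

namespace Pool.Agent.ROT.F3.CC

open Pool.Agent.ROT.F3

/-! ### 1. reparametrizations -/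

/-- the curve `u ↦ f (m u + b)`, `f` constant outside of `[0, 1]` -/
noncomputable def rp (f : C(unitInterval, ℂ)) (m b : ℝ) : C(unitInterval, ℂ) :=
  ⟨fun u => ex f (m * u + b), ex_cont' continuous_const (by fun_prop)⟩

lemma rp_apply (f : C(unitInterval, ℂ)) (m b : ℝ) (u : unitInterval) : rp f m b u = ex f (m * u + b) := rfl

lemma rp_cont : Continuous fun p : C(unitInterval, ℂ) × ℝ × ℝ => rp p.1 p.2.1 p.2.2 := by
  refine ContinuousMap.continuous_of_continuous_uncurry _ ?_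
  show Continuous fun q : (C(unitInterval, ℂ) × ℝ × ℝ) × unitInterval => ex q.1.1 (q.1.2.1 * q.2 + q.1.2.2)
  exact ex_cont' (by fun_prop) (by fun_prop)

lemma ex_lo {f : C(unitInterval, ℂ)} {x : ℝ} (h : x ≤ 0) : ex f x = f 0 := by
  unfold ex
  rw [projIcc_of_le_left zero_le_one h]
  rfl

lemma ex_hi {f : C(unitInterval, ℂ)} {x : ℝ} (h : 1 ≤ x) : ex f x = f 1 := by
  unfold ex
  rw [projIcc_of_right_le zero_le_one h]
  rfl

/-! ### 2. strands with the gate `c` -/

/-- **the strand from the root `r` with the gates `c`, `x`** : from `r` to `c`, and from `x` backwards to `c` -/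
noncomputable def con (g : Gm) (r c x : ℝ) : Pie × Pie := (pcut (cl g) r c, pcut (cl g) x c)

lemma con_cont : Continuous fun q : Gm × (ℝ × ℝ × ℝ) => con q.1 q.2.1 q.2.2.1 q.2.2.2 := by
  unfold con
  exact (pcut_cont' (cl_cont.comp continuous_fst) (by fun_prop) (by fun_prop)).prodMk
    (pcut_cont' (cl_cont.comp continuous_fst) (by fun_prop) (by fun_prop))

lemma con_cont' {X : Type*} [TopologicalSpace X] {g : X → Gm} {r c x : X → ℝ} (hg : Continuous g) (hr : Continuous r)
    (hc : Continuous c) (hx : Continuous x) : Continuous fun p => con (g p) (r p) (c p) (x p) :=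
  con_cont.comp (hg.prodMk (hr.prodMk (hc.prodMk hx)))

lemma con_meas {X : Type*} [MeasurableSpace X] {g : X → Gm} {r c x : X → ℝ} (hg : Measurable g) (hr : Measurable r)
    (hc : Measurable c) (hx : Measurable x) : Measurable fun p => con (g p) (r p) (c p) (x p) :=
  con_cont.measurable.comp (hg.prodMk (hr.prodMk (hc.prodMk hx)))

/-- the two pieces joined, as a function of the slopes -/
noncomputable def jn0 (q : Pie × Pie) (m m' : ℝ) : Pie :=
  (rp q.1.1 m 0 + rp q.2.1 (-m') m' - rp q.2.1 0 1, q.1.2 + q.2.2)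

lemma jn0_cont : Continuous fun q : (Pie × Pie) × ℝ × ℝ => jn0 q.1 q.2.1 q.2.2 := by
  unfold jn0
  refine Continuous.prodMk ?_ (by fun_prop)
  refine ((rp_cont.comp (by fun_prop : Continuous fun q : (Pie × Pie) × ℝ × ℝ => (q.1.1.1, q.2.1, (0 : ℝ)))).add
    (rp_cont.comp (by fun_prop : Continuous fun q : (Pie × Pie) × ℝ × ℝ => (q.1.2.1, -q.2.2, q.2.2)))).sub
    (rp_cont.comp (by fun_prop : Continuous fun q : (Pie × Pie) × ℝ × ℝ => (q.1.2.1, (0 : ℝ), (1 : ℝ))))

/-- **the two pieces joined** -/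
noncomputable def jn (q : Pie × Pie) : Pie := jn0 q ((q.1.2 + q.2.2) / q.1.2) ((q.1.2 + q.2.2) / q.2.2)

lemma jn_meas : Measurable jn := by
  have h : Measurable fun q : Pie × Pie => (q, (q.1.2 + q.2.2) / q.1.2, (q.1.2 + q.2.2) / q.2.2) := by fun_prop
  exact jn0_cont.measurable.comp h

lemma jn_cont : ContinuousOn jn {q | 0 < q.1.2 ∧ 0 < q.2.2} := by
  have h : ContinuousOn (fun q : Pie × Pie => (q, (q.1.2 + q.2.2) / q.1.2, (q.1.2 + q.2.2) / q.2.2))
      {q | 0 < q.1.2 ∧ 0 < q.2.2} := by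
    refine continuousOn_id.prodMk ((ContinuousOn.div (by fun_prop) (by fun_prop) fun q hq => hq.1.ne').prodMk
      (ContinuousOn.div (by fun_prop) (by fun_prop) fun q hq => hq.2.ne'))
  exact jn0_cont.comp_continuousOn h

/-- **the strand is recovered**, general form -/
theorem jn_pcut {p : Pie} {r x s : ℝ} (hs : s ∈ Icc (0 : ℝ) 1) (hp : 0 < p.2) (hx : x ≠ r) :
    jn (pcut p r (r + s * (x - r)), pcut p x (r + s * (x - r))) = pcut p r x := by
  obtain ⟨c, hc⟩ : ∃ c : ℝ, c = r + s * (x - r) := ⟨_, rfl⟩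
  rw [← hc]
  have hx0 : 0 < |x - r| := abs_pos.2 (sub_ne_zero.2 hx)
  have h1 : 0 ≤ 1 - s := by linarith [hs.2]
  have c1 : c - r = s * (x - r) := by rw [hc]; ring
  have c2 : c - x = -((1 - s) * (x - r)) := by rw [hc]; ring
  have a1 : p.2 * |c - r| = s * (p.2 * |x - r|) := by
    rw [c1, abs_mul, abs_of_nonneg hs.1]
    ring
  have a2 : p.2 * |c - x| = (1 - s) * (p.2 * |x - r|) := by
    rw [c2, abs_neg, abs_mul, abs_of_nonneg h1]
    ring
  have hD : 0 < p.2 * |x - r| := mul_pos hp hx0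
  have a3 : p.2 * |c - r| + p.2 * |c - x| = p.2 * |x - r| := by
    rw [a1, a2]
    ring
  obtain ⟨D, hDe⟩ : ∃ D : ℝ, D = p.2 * |x - r| := ⟨_, rfl⟩
  rw [← hDe] at a1 a2 a3 hD
  refine Prod.ext ?_ ?_
  swap
  · show p.2 * |c - r| + p.2 * |c - x| = p.2 * |x - r|
    rw [a3, hDe]
  ext u
  show ex (cutp p.1 r c) ((p.2 * |c - r| + p.2 * |c - x|) / (p.2 * |c - r|) * u + 0) +
      ex (cutp p.1 x c) (-((p.2 * |c - r| + p.2 * |c - x|) / (p.2 * |c - x|)) * u +
        (p.2 * |c - r| + p.2 * |c - x|) / (p.2 * |c - x|)) - ex (cutp p.1 x c) (0 * u + 1) = cutp p.1 r x u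
  rw [a3, a1, a2, zero_mul, zero_add, ex_one, cutp_one, cutp_apply, add_zero]
  have u0 : (0 : ℝ) ≤ u := u.2.1
  have u1 : (u : ℝ) ≤ 1 := u.2.2
  have hDn : D ≠ 0 := hD.ne'
  -- the first piece
  have A : ∀ y : ℝ, y = min s u → ex (cutp p.1 r c) (D / (s * D) * u) = ex p.1 (r + y * (x - r)) - ex p.1 r := by
    intro y hy
    rcases eq_or_lt_of_le hs.1 with h0 | h0
    · rw [← h0, zero_mul, div_zero, zero_mul, ex_zero, cutp_zero, hy, ← h0, min_eq_left u0, zero_mul, add_zero, sub_self]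
    · have e1 : D / (s * D) * u = u / s := by field_simp
      rw [e1]
      rcases le_total (u : ℝ) s with h2 | h2
      · have h3 : (u : ℝ) / s ∈ Icc (0 : ℝ) 1 := ⟨by positivity, (div_le_one h0).2 h2⟩
        rw [ex_cutp h3, c1, hy, min_eq_right h2]
        have e2 : (u : ℝ) / s * (s * (x - r)) = u * (x - r) := by field_simp
        rw [e2]
      · rw [ex_hi ((one_le_div h0).2 h2), cutp_one, hy, min_eq_left h2, hc]
  have B : ∀ y : ℝ, y = max s u → ex (cutp p.1 x c) (-(D / ((1 - s) * D)) * u + D / ((1 - s) * D)) =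
      ex p.1 (r + y * (x - r)) - ex p.1 x := by
    intro y hy
    rcases eq_or_lt_of_le h1 with h0 | h0
    · rw [← h0, zero_mul, div_zero, neg_zero, zero_mul, add_zero, ex_zero, cutp_zero, hy]
      have : s = 1 := by linarith
      rw [this, max_eq_left u1, one_mul, add_sub_cancel, sub_self]
    · have e1 : -(D / ((1 - s) * D)) * u + D / ((1 - s) * D) = (1 - u) / (1 - s) := by
        field_simp
        ring
      rw [e1]
      rcases le_total s (u : ℝ) with h2 | h2
      · have h3 : (1 - (u : ℝ)) / (1 - s) ∈ Icc (0 : ℝ) 1 := ⟨by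
          have : (0 : ℝ) ≤ 1 - u := by linarith
          positivity, (div_le_one h0).2 (by linarith)⟩
        rw [ex_cutp h3, c2, hy, max_eq_right h2]
        have e2 : x + (1 - (u : ℝ)) / (1 - s) * -((1 - s) * (x - r)) = r + u * (x - r) := by
          field_simp
          ring
        rw [e2]
      · rw [ex_hi ((one_le_div h0).2 (by linarith)), cutp_one, hy, max_eq_left h2, hc]
  rw [A _ rfl, B _ rfl]
  rcases le_total (u : ℝ) s with h2 | h2
  · rw [min_eq_right h2, max_eq_left h2, hc]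
    ring
  · rw [min_eq_left h2, max_eq_right h2, hc]
    ring

/-- `c` is between `r` and `x` -/
theorem jn_con {g : Gm} {r c x : ℝ} (hg : 0 < g.1) (hx : x ≠ r) (hc : c ∈ uIcc r x) :
    jn (con g r c x) = pcut (cl g) r x := by
  have hx' : x - r ≠ 0 := sub_ne_zero.2 hx
  have hs : (c - r) / (x - r) ∈ Icc (0 : ℝ) 1 := by
    rcases lt_or_gt_of_ne hx with h | h
    · rw [uIcc_of_ge h.le] at hc
      have h1 : x - r < 0 := by linarith
      refine ⟨div_nonneg_of_nonpos (by linarith [hc.2]) h1.le, ?_⟩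
      rw [div_le_one_of_neg h1]
      linarith [hc.1]
    · rw [uIcc_of_le h.le] at hc
      have h1 : 0 < x - r := by linarith
      exact ⟨div_nonneg (by linarith [hc.1]) h1.le, (div_le_one h1).2 (by linarith [hc.2])⟩
  have e : c = r + (c - r) / (x - r) * (x - r) := by
    rw [div_mul_cancel₀ _ hx']
    ring
  have := jn_pcut (p := cl g) hs hg hx
  rw [← e] at this
  exact this

/-- **the strand is a function of its two pieces** -/
theorem con_inj {g g' : Gm} {r c x r' c' x' : ℝ} (hg : 0 < g.1) (hg' : 0 < g'.1) (hx : x ≠ r) (hx' : x' ≠ r')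
    (hc : c ∈ uIcc r x) (hc' : c' ∈ uIcc r' x') (h : con g r c x = con g' r' c' x') :
    pcut (cl g) r x = pcut (cl g') r' x' := by
  rw [← jn_con hg hx hc, ← jn_con hg' hx' hc', h]

/-! ### 3. eight marks -/

/-- a connection: the two strands, each as (root to `c`, `x` backwards to `c`) -/
abbrev K4 : Type := (Pie × Pie) × (Pie × Pie)

/-- the marks of the ends of the rests -/
def m4 (T : Fin 8 → ℝ) : M4 := (T 1, T 2, T 5, T 6)

lemma m4_cont : Continuous m4 := by
  unfold m4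
  fun_prop

/-- the connections at the two roots, `μ` = relative time of the second root -/
noncomputable def kapM (g : Gm) (μ : ℝ) (T : Fin 8 → ℝ) : K4 × K4 :=
  ((con g 0 (T 0) (T 1), con g 1 (T 7) (T 6)), (con g μ (T 3) (T 2), con g μ (T 4) (T 5)))

/-- **the connections at the two roots** -/
noncomputable def kap8 (g : Gm) (T : Fin 8 → ℝ) : K4 × K4 := kapM g (mu g) T

lemma kapM_cont : Continuous fun q : Gm × ℝ × (Fin 8 → ℝ) => kapM q.1 q.2.1 q.2.2 := by
  unfold kapM
  refine Continuous.prodMk (Continuous.prodMk ?_ ?_) (Continuous.prodMk ?_ ?_)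
  all_goals exact con_cont' (by fun_prop) (by fun_prop) (by fun_prop) (by fun_prop)

lemma kap8_meas : Measurable fun q : Gm × (Fin 8 → ℝ) => kap8 q.1 q.2 := by
  have h : Measurable fun q : Gm × (Fin 8 → ℝ) => mu q.1 := mu_meas.comp measurable_fst
  have e : ∀ i : Fin 8, Measurable fun q : Gm × (Fin 8 → ℝ) => q.2 i := fun i => (measurable_pi_apply i).comp measurable_snd
  unfold kap8 kapM
  refine Measurable.prodMk (Measurable.prodMk ?_ ?_) (Measurable.prodMk ?_ ?_)
  · exact con_meas measurable_fst measurable_const (e 0) (e 1)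
  · exact con_meas measurable_fst measurable_const (e 7) (e 6)
  · exact con_meas measurable_fst h (e 3) (e 2)
  · exact con_meas measurable_fst h (e 4) (e 5)

/-- the old form of the connections -/
noncomputable def jn4 (k : K4) : Pie × Pie := (jn k.1, jn k.2)

lemma jn4_meas : Measurable jn4 := (jn_meas.comp measurable_fst).prodMk (jn_meas.comp measurable_snd)

theorem kap_of_kap8 {g : Gm} {T : Fin 8 → ℝ} (hg : 0 < g.1) (h0 : 0 ≤ T 0) (h1 : T 0 ≤ T 1) (h01 : 0 < T 1)
    (h2 : T 2 ≤ T 3) (h3 : T 3 ≤ mu g) (h23 : T 2 < mu g) (h4 : mu g ≤ T 4) (h5 : T 4 ≤ T 5) (h45 : mu g < T 5)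
    (h6 : T 6 ≤ T 7) (h7 : T 7 ≤ 1) (h67 : T 6 < 1) :
    Prod.map jn4 jn4 (kap8 g T) = kap g (m4 T) := by
  refine Prod.ext (Prod.ext ?_ ?_) (Prod.ext ?_ ?_)
  · exact jn_con hg h01.ne' (by rw [uIcc_of_le h01.le]; exact ⟨h0, h1⟩)
  · exact jn_con hg h67.ne (by rw [uIcc_of_ge h67.le]; exact ⟨h6, h7⟩)
  · exact jn_con hg h23.ne (by rw [uIcc_of_ge h23.le]; exact ⟨h2, h3⟩)
  · exact jn_con hg h45.ne' (by rw [uIcc_of_le h45.le]; exact ⟨h4, h5⟩)

/-! ### 4. two systems of marks on one curve -/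

/-- class A: the pieces between the marks `T` (outer) and `S` (inner), the arc -/
noncomputable def q1At (g : Gm) (T S : M4) : (Pie × Pie) × Pie :=
  ((pcut (cl g) T.1 S.1, pcut (cl g) T.2.1 S.2.1), pcut (cl g) S.1 S.2.1)

/-- class B -/
noncomputable def q2At (g : Gm) (T S : M4) : (Pie × Pie) × Pie :=
  ((pcut (cl g) T.2.2.2 S.2.2.2, pcut (cl g) T.2.2.1 S.2.2.1), pcut (cl g) S.2.2.2 S.2.2.1)

/-- the first root: the two pieces -/
noncomputable def qpAt (g : Gm) (T S : M4) : Pie × Pie := (pcut (cl g) T.1 S.1, pcut (cl g) T.2.2.2 S.2.2.2)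

/-- the second root -/
noncomputable def qqAt (g : Gm) (T S : M4) : Pie × Pie := (pcut (cl g) T.2.1 S.2.1, pcut (cl g) T.2.2.1 S.2.2.1)

/-- pieces at the two roots -> pieces of the two classes -/
def phi4 (q : (Pie × Pie) × (Pie × Pie)) : (Pie × Pie) × (Pie × Pie) := ((q.1.1, q.2.1), (q.1.2, q.2.2))

lemma phi4_meas : Measurable phi4 := by
  unfold phi4
  fun_prop

lemma q1At_cont : Continuous fun q : Gm × M4 × M4 => q1At q.1 q.2.1 q.2.2 := by
  unfold q1At
  refine ((Continuous.prodMk ?_ ?_).prodMk ?_)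
  all_goals exact pcut_cont' (cl_cont.comp continuous_fst) (by fun_prop) (by fun_prop)

lemma q2At_cont : Continuous fun q : Gm × M4 × M4 => q2At q.1 q.2.1 q.2.2 := by
  unfold q2At
  refine ((Continuous.prodMk ?_ ?_).prodMk ?_)
  all_goals exact pcut_cont' (cl_cont.comp continuous_fst) (by fun_prop) (by fun_prop)

lemma qpAt_cont : Continuous fun q : Gm × M4 × M4 => qpAt q.1 q.2.1 q.2.2 := by
  unfold qpAt
  refine Continuous.prodMk ?_ ?_
  all_goals exact pcut_cont' (cl_cont.comp continuous_fst) (by fun_prop) (by fun_prop)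

lemma qqAt_cont : Continuous fun q : Gm × M4 × M4 => qqAt q.1 q.2.1 q.2.2 := by
  unfold qqAt
  refine Continuous.prodMk ?_ ?_
  all_goals exact pcut_cont' (cl_cont.comp continuous_fst) (by fun_prop) (by fun_prop)

/-- **`(mR g).2 = arcsOf ..`** -/
theorem arcs_at (g : Gm) (T S : M4) : arcsOf sK sK (q1At g T S) (q2At g T S) (rst g T).2.2 = rst g S := by
  refine Prod.ext rfl (Prod.ext rfl ?_)
  show ex g.2.2 T.2.2.2 - ex g.2.2 T.1 + -dsp (pcut (cl g) T.1 S.1) - -dsp (pcut (cl g) T.2.2.2 S.2.2.2) =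
    ex g.2.2 S.2.2.2 - ex g.2.2 S.1
  rw [dsp_pcut, dsp_pcut]
  show ex g.2.2 T.2.2.2 - ex g.2.2 T.1 + -(ex g.2.2 S.1 - ex g.2.2 T.1) - -(ex g.2.2 S.2.2.2 - ex g.2.2 T.2.2.2) = _
  ring

theorem phi_at (g : Gm) (T S : M4) : phi4 (qpAt g T S, qqAt g T S) = ((q1At g T S).1, (q2At g T S).1) := rfl

/-- the pieces are cut from the rest -/
theorem q1At_rel {g : Gm} {T S : M4} {s s' : ℝ} (hs : s ∈ Icc (0 : ℝ) 1) (hs' : s' ∈ Icc (0 : ℝ) 1)
    (h1 : S.1 = T.1 + s * (T.2.1 - T.1)) (h2 : S.2.1 = T.1 + s' * (T.2.1 - T.1)) :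
    q1At g T S = ((pcut (rst g T).1 0 s, pcut (rst g T).1 1 s'), pcut (rst g T).1 s s') := by
  have i0 : (0 : ℝ) ∈ Icc (0 : ℝ) 1 := ⟨le_rfl, zero_le_one⟩
  have i1 : (1 : ℝ) ∈ Icc (0 : ℝ) 1 := ⟨zero_le_one, le_rfl⟩
  show ((pcut (cl g) T.1 S.1, pcut (cl g) T.2.1 S.2.1), pcut (cl g) S.1 S.2.1) =
    ((pcut (pcut (cl g) T.1 T.2.1) 0 s, pcut (pcut (cl g) T.1 T.2.1) 1 s'), pcut (pcut (cl g) T.1 T.2.1) s s')
  rw [pcut_pcut i0 hs, pcut_pcut i1 hs', pcut_pcut hs hs', ← h1, ← h2, zero_mul, add_zero, one_mul, add_sub_cancel]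

theorem q2At_rel {g : Gm} {T S : M4} {s s' : ℝ} (hs : s ∈ Icc (0 : ℝ) 1) (hs' : s' ∈ Icc (0 : ℝ) 1)
    (h1 : S.2.2.2 = T.2.2.2 + s * (T.2.2.1 - T.2.2.2)) (h2 : S.2.2.1 = T.2.2.2 + s' * (T.2.2.1 - T.2.2.2)) :
    q2At g T S = ((pcut (rst g T).2.1 0 s, pcut (rst g T).2.1 1 s'), pcut (rst g T).2.1 s s') := by
  have i0 : (0 : ℝ) ∈ Icc (0 : ℝ) 1 := ⟨le_rfl, zero_le_one⟩
  have i1 : (1 : ℝ) ∈ Icc (0 : ℝ) 1 := ⟨zero_le_one, le_rfl⟩
  show ((pcut (cl g) T.2.2.2 S.2.2.2, pcut (cl g) T.2.2.1 S.2.2.1), pcut (cl g) S.2.2.2 S.2.2.1) =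
    ((pcut (pcut (cl g) T.2.2.2 T.2.2.1) 0 s, pcut (pcut (cl g) T.2.2.2 T.2.2.1) 1 s'),
      pcut (pcut (cl g) T.2.2.2 T.2.2.1) s s')
  rw [pcut_pcut i0 hs, pcut_pcut i1 hs', pcut_pcut hs hs', ← h1, ← h2, zero_mul, add_zero, one_mul, add_sub_cancel]

/-! ### 5. words -/

/-- the eight marks of a closed word as relative times -/
noncomputable def mT8 (w : W3) (k : Fin 8 → ℕ) : Fin 8 → ℝ := fun i => (k i : ℝ) / w.length

lemma m4_mT8 (w : W3) (k : Fin 8 → ℕ) : m4 (mT8 w k) = mT w (k 1) (k 2) (k 5) (k 6) := rfl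

/-- the marks of a closed word with the second root `m` -/
structure Mk8 (w : W3) (m : ℕ) (k : Fin 8 → ℕ) : Prop where
  ev : ∀ i, Even (k i)
  em : Even m
  ew : Even w.length
  h01 : k 0 ≤ k 1
  h12 : k 1 ≤ k 2
  h23 : k 2 ≤ k 3
  h3m : k 3 ≤ m
  hm4 : m ≤ k 4
  h45 : k 4 ≤ k 5
  h56 : k 5 ≤ k 6
  h67 : k 6 ≤ k 7
  h7 : k 7 ≤ w.length
  hw : 1 ≤ w.length

/-- **the connections of a closed word with eight marks** -/
theorem kap8_word {N : ℕ} (hN : 1 ≤ N) {w : W3} {m : ℕ} {k : Fin 8 → ℕ} (h : Mk8 w m k) :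
    kap8 (cN N (w, m)) (mT8 w k) =
      (((wp N ((N : ℝ) ^ (4 / 3 : ℝ)) (seg w 0 (k 0)), wp N ((N : ℝ) ^ (4 / 3 : ℝ)) (seg w (k 0) (k 1)).reverse),
        (wp N ((N : ℝ) ^ (4 / 3 : ℝ)) (w.drop (k 7)).reverse, wp N ((N : ℝ) ^ (4 / 3 : ℝ)) (seg w (k 6) (k 7)))),
        ((wp N ((N : ℝ) ^ (4 / 3 : ℝ)) (seg w (k 3) m).reverse, wp N ((N : ℝ) ^ (4 / 3 : ℝ)) (seg w (k 2) (k 3))),
        (wp N ((N : ℝ) ^ (4 / 3 : ℝ)) (seg w m (k 4)), wp N ((N : ℝ) ^ (4 / 3 : ℝ)) (seg w (k 4) (k 5)).reverse))) := by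
  have hw := h.hw
  have h01 := h.h01
  have h12 := h.h12
  have h23 := h.h23
  have h3m := h.h3m
  have hm4 := h.hm4
  have h45 := h.h45
  have h56 := h.h56
  have h67 := h.h67
  have h7 := h.h7
  have hn : (w.length : ℝ) ≠ 0 := by exact_mod_cast (by omega : w.length ≠ 0)
  have e0 : (0 : ℝ) = ((0 : ℕ) : ℝ) / w.length := by simp
  have e1' : (1 : ℝ) = (w.length : ℝ) / w.length := (div_self hn).symm
  refine Prod.ext (Prod.ext (Prod.ext ?_ ?_) (Prod.ext ?_ ?_)) (Prod.ext (Prod.ext ?_ ?_) (Prod.ext ?_ ?_))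
  · show pcut (cl (cN N (w, m))) 0 ((k 0 : ℝ) / w.length) = _
    rw [cl_cN]
    conv_lhs => rw [e0]
    exact wp_seg (by simp) (Nat.zero_le _) (by omega) hw
  · show pcut (cl (cN N (w, m))) ((k 1 : ℝ) / w.length) ((k 0 : ℝ) / w.length) = _
    rw [cl_cN]
    exact wp_rev (h.ev 0) (h.ev 1) h01 (by omega) hw
  · show pcut (cl (cN N (w, m))) 1 ((k 7 : ℝ) / w.length) = _
    rw [cl_cN]
    conv_lhs => rw [e1']
    rw [wp_rev (h.ev 7) h.ew h7 le_rfl hw]
    congr 2
    unfold seg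
    rw [List.take_of_length_le]
    rw [List.length_drop]
  · show pcut (cl (cN N (w, m))) ((k 6 : ℝ) / w.length) ((k 7 : ℝ) / w.length) = _
    rw [cl_cN]
    exact wp_seg (h.ev 6) h67 h7 hw
  · show pcut (cl (cN N (w, m))) (mu (cN N (w, m))) ((k 3 : ℝ) / w.length) = _
    rw [cl_cN, mu_cN hN]
    exact wp_rev (h.ev 3) h.em h3m (by omega) hw
  · show pcut (cl (cN N (w, m))) ((k 2 : ℝ) / w.length) ((k 3 : ℝ) / w.length) = _
    rw [cl_cN]
    exact wp_seg (h.ev 2) h23 (by omega) hw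
  · show pcut (cl (cN N (w, m))) (mu (cN N (w, m))) ((k 4 : ℝ) / w.length) = _
    rw [cl_cN, mu_cN hN]
    exact wp_seg h.em hm4 (by omega) hw
  · show pcut (cl (cN N (w, m))) ((k 5 : ℝ) / w.length) ((k 4 : ℝ) / w.length) = _
    rw [cl_cN]
    exact wp_rev (h.ev 4) (h.ev 5) h45 (by omega) hw

section

variable {a b : W3 × W3} {R S : W3}

/-- the eight marks of `G6 a R b S`, `i`, `i'`, `j`, `j'` = numbers of the gates `c` of `a.1`, `a.2`, `b.1`, `b.2` -/
def g8 (a : W3 × W3) (R : W3) (b : W3 × W3) (S : W3) (i i' j j' : ℕ) : Fin 8 → ℕ :=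
  ![i, g1 a, g2 a R, gm a R b - j, gm a R b + j', g3 a R b, g4 a R b S, (G6 a R b S).length - i']

lemma seg_seg {w : W3} {x y i j : ℕ} (h : x + j ≤ y) : seg w (x + i) (x + j) = seg (seg w x y) i j := by
  unfold seg
  rw [List.drop_take, List.drop_drop, List.take_take]
  congr 1
  omega

lemma seg_rev {w : W3} {i j : ℕ} (hij : i ≤ j) (hj : j ≤ w.length) :
    seg w.reverse (w.length - j) (w.length - i) = (seg w i j).reverse := by
  unfold seg
  rw [List.drop_reverse, List.take_reverse, List.length_take]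
  have e1 : w.length - (w.length - j) = j := by omega
  have e2 : min j w.length - (w.length - i - (w.length - j)) = i := by omega
  rw [e1, List.drop_take, e2]

theorem g8_ok {i i' j j' : ℕ} (a1 : Even a.1.length) (a2 : Even a.2.length) (eR : Even R.length) (b1 : Even b.1.length)
    (b2 : Even b.2.length) (eS : Even S.length) (hw : 1 ≤ (G6 a R b S).length) (ei : Even i) (ei' : Even i')
    (ej : Even j) (ej' : Even j') (hi : i ≤ a.1.length) (hi' : i' ≤ a.2.length) (hj : j ≤ b.1.length)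
    (hj' : j' ≤ b.2.length) : Mk8 (G6 a R b S) (gm a R b) (g8 a R b S i i' j j') := by
  have hl := G6_len (a := a) (b := b) (R := R) (S := S)
  have em : Even (gm a R b) := (a1.add eR).add b1
  have e1 : Even (g1 a) := a1
  have e2 : Even (g2 a R) := a1.add eR
  have e3 : Even (g3 a R b) := em.add b2
  have e4 : Even (g4 a R b S) := e3.add eS
  have ew : Even (G6 a R b S).length := by
    rw [hl]
    exact a1.add (eR.add (b1.add (b2.add (eS.add a2))))
  have k0 : g8 a R b S i i' j j' 0 = i := rfl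
  have k1 : g8 a R b S i i' j j' 1 = g1 a := rfl
  have k2 : g8 a R b S i i' j j' 2 = g2 a R := rfl
  have k3 : g8 a R b S i i' j j' 3 = gm a R b - j := rfl
  have k4 : g8 a R b S i i' j j' 4 = gm a R b + j' := rfl
  have k5 : g8 a R b S i i' j j' 5 = g3 a R b := rfl
  have k6 : g8 a R b S i i' j j' 6 = g4 a R b S := rfl
  have k7 : g8 a R b S i i' j j' 7 = (G6 a R b S).length - i' := rfl
  have v1 : g1 a = a.1.length := rfl
  have v2 : g2 a R = a.1.length + R.length := rfl
  have vm : gm a R b = a.1.length + R.length + b.1.length := rfl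
  have v3 : g3 a R b = a.1.length + R.length + b.1.length + b.2.length := rfl
  have v4 : g4 a R b S = a.1.length + R.length + b.1.length + b.2.length + S.length := rfl
  refine ⟨?_, em, ew, ?_, ?_, ?_, ?_, ?_, ?_, ?_, ?_, ?_, hw⟩
  · intro n
    fin_cases n
    · exact ei
    · exact e1
    · exact e2
    · exact (Nat.even_sub (by omega)).2 (iff_of_true em ej)
    · exact em.add ej'
    · exact e3
    · exact e4
    · exact (Nat.even_sub (by omega)).2 (iff_of_true ew ei')
  · rw [k0, k1]; omega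
  · rw [k1, k2]; omega
  · rw [k2, k3]; omega
  · rw [k3]; omega
  · rw [k4]; omega
  · rw [k4, k5]; omega
  · rw [k5, k6]; omega
  · rw [k6, k7]; omega
  · rw [k7]; omega

/-- **the connections of `G6 a R b S` with the gates `c`** -/
theorem kap8_G6 {N : ℕ} (hN : 1 ≤ N) {i i' j j' : ℕ} (a1 : Even a.1.length) (a2 : Even a.2.length) (eR : Even R.length)
    (b1 : Even b.1.length) (b2 : Even b.2.length) (eS : Even S.length) (hw : 1 ≤ (G6 a R b S).length) (ei : Even i)
    (ei' : Even i') (ej : Even j) (ej' : Even j') (hi : i ≤ a.1.length) (hi' : i' ≤ a.2.length) (hj : j ≤ b.1.length)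
    (hj' : j' ≤ b.2.length) :
    kap8 (cN N (G6 a R b S, gm a R b)) (mT8 (G6 a R b S) (g8 a R b S i i' j j')) =
      (((wp N ((N : ℝ) ^ (4 / 3 : ℝ)) (a.1.take i), wp N ((N : ℝ) ^ (4 / 3 : ℝ)) (a.1.drop i).reverse),
        (wp N ((N : ℝ) ^ (4 / 3 : ℝ)) (a.2.take i'), wp N ((N : ℝ) ^ (4 / 3 : ℝ)) (a.2.drop i').reverse)),
        ((wp N ((N : ℝ) ^ (4 / 3 : ℝ)) (b.1.take j), wp N ((N : ℝ) ^ (4 / 3 : ℝ)) (b.1.drop j).reverse),
        (wp N ((N : ℝ) ^ (4 / 3 : ℝ)) (b.2.take j'), wp N ((N : ℝ) ^ (4 / 3 : ℝ)) (b.2.drop j').reverse))) := by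
  have hl := G6_len (a := a) (b := b) (R := R) (S := S)
  have v1 : g1 a = a.1.length := rfl
  have v2 : g2 a R = a.1.length + R.length := rfl
  have vm : gm a R b = a.1.length + R.length + b.1.length := rfl
  have v3 : g3 a R b = a.1.length + R.length + b.1.length + b.2.length := rfl
  have v4 : g4 a R b S = a.1.length + R.length + b.1.length + b.2.length + S.length := rfl
  rw [kap8_word hN (g8_ok a1 a2 eR b1 b2 eS hw ei ei' ej ej' hi hi' hj hj')]
  have s0 : seg (G6 a R b S) 0 i = a.1.take i := by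
    have h := seg_seg (w := G6 a R b S) (x := 0) (y := g1 a) (i := 0) (j := i) (by omega)
    rw [zero_add, zero_add, G6_seg1] at h
    rw [h]
    unfold seg
    rw [List.drop_zero, Nat.sub_zero]
  have s1 : seg (G6 a R b S) i (g1 a) = a.1.drop i := by
    have h := seg_seg (w := G6 a R b S) (x := 0) (y := g1 a) (i := i) (j := g1 a) (by omega)
    rw [zero_add, zero_add, G6_seg1] at h
    rw [h]
    unfold seg
    rw [List.take_of_length_le]
    rw [List.length_drop]
    omega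
  have s7 : (G6 a R b S).drop ((G6 a R b S).length - i') = (a.2.take i').reverse := by
    have e : (G6 a R b S).length - i' = g4 a R b S + (a.2.length - i') := by omega
    rw [e, ← List.drop_drop, G6_seg6, List.drop_reverse]
    congr 2
    omega
  have s6 : seg (G6 a R b S) (g4 a R b S) ((G6 a R b S).length - i') = (a.2.drop i').reverse := by
    unfold seg
    rw [G6_seg6, List.take_reverse]
    congr 2
    omega
  have s3 : seg (G6 a R b S) (gm a R b - j) (gm a R b) = (b.1.take j).reverse := by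
    have h := seg_seg (w := G6 a R b S) (x := g2 a R) (y := gm a R b) (i := b.1.length - j) (j := b.1.length) (by omega)
    have e1 : g2 a R + (b.1.length - j) = gm a R b - j := by omega
    have e2 : g2 a R + b.1.length = gm a R b := by omega
    rw [e1, e2, G6_seg3] at h
    have h2 := seg_rev (w := b.1) (i := 0) (j := j) (Nat.zero_le _) hj
    rw [Nat.sub_zero] at h2
    rw [h, h2]
    unfold seg
    rw [List.drop_zero, Nat.sub_zero]
  have s2 : seg (G6 a R b S) (g2 a R) (gm a R b - j) = (b.1.drop j).reverse := by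
    have h := seg_seg (w := G6 a R b S) (x := g2 a R) (y := gm a R b) (i := 0) (j := b.1.length - j) (by omega)
    have e1 : g2 a R + (b.1.length - j) = gm a R b - j := by omega
    rw [e1, add_zero, G6_seg3] at h
    have h2 := seg_rev (w := b.1) (i := j) (j := b.1.length) hj le_rfl
    rw [Nat.sub_self] at h2
    rw [h, h2]
    unfold seg
    rw [List.take_of_length_le]
    rw [List.length_drop]
  have s4 : seg (G6 a R b S) (gm a R b) (gm a R b + j') = b.2.take j' := by
    have h := seg_seg (w := G6 a R b S) (x := gm a R b) (y := g3 a R b) (i := 0) (j := j') (by omega)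
    rw [add_zero, G6_seg4] at h
    rw [h]
    unfold seg
    rw [List.drop_zero, Nat.sub_zero]
  have s5 : seg (G6 a R b S) (gm a R b + j') (g3 a R b) = b.2.drop j' := by
    have h := seg_seg (w := G6 a R b S) (x := gm a R b) (y := g3 a R b) (i := j') (j := b.2.length) (by omega)
    have e2 : gm a R b + b.2.length = g3 a R b := by omega
    rw [e2, G6_seg4] at h
    rw [h]
    unfold seg
    rw [List.take_of_length_le]
    rw [List.length_drop]
  have k0 : g8 a R b S i i' j j' 0 = i := rfl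
  have k1 : g8 a R b S i i' j j' 1 = g1 a := rfl
  have k2 : g8 a R b S i i' j j' 2 = g2 a R := rfl
  have k3 : g8 a R b S i i' j j' 3 = gm a R b - j := rfl
  have k4 : g8 a R b S i i' j j' 4 = gm a R b + j' := rfl
  have k5 : g8 a R b S i i' j j' 5 = g3 a R b := rfl
  have k6 : g8 a R b S i i' j j' 6 = g4 a R b S := rfl
  have k7 : g8 a R b S i i' j j' 7 = (G6 a R b S).length - i' := rfl
  rw [k0, k1, k2, k3, k4, k5, k6, k7, s0, s1, s7, s6, s3, s2, s4, s5, List.reverse_reverse, List.reverse_reverse]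

end

end Pool.Agent.ROT.F3.CC
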