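import Pool.Agent.ROT.F3K4C
import Pool.Agent.ROT.F3ClsM

/-!
# ROT, F3, row K3 (helper2): the indicator and the marks of the classes of closed words are functionals of the limit curve

* `DecG`, `DecS` : gate part and soft part of the class of `D : Dt` at eight positions `v`; **`inC_dec`**, `mkc_of`, `dec_mkc`:
  a pair (word, second root) is in the class iff there are such positions; they are the marks `mkc`;
* `BaG` (balls, order), `Far`, `PosG`; `clsF` : the statistic of the class; **`cls_sq`** : squeeze;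
* `GIn` : the input from the gates; **`k3_ev`** : the indicator of the class has a limit; **`k3_mk`** : the relative times of the eight
  marks have limits.
-/

set_option autoImplicit false

namespace Pool.Agent.ROT.F3.CK

open MeasureTheory Filter Topology Set unitInterval

open scoped NNReal ENNReal Classical

open Pool.Agent.ROT.F3 Pool.Agent.ROT.F3.LF

/-! ### 1. Gate part and soft part of a class -/

/-- the gate part of the class at the positions `v` -/
structure DecG (D : Dt) (S : ℝ) (x : W3 × ℕ) (v : Fin 8 → ℕ) : Prop where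
  h01 : v 0 ≤ v 1
  h12 : v 1 ≤ v 2
  h23 : v 2 ≤ v 3
  h3m : v 3 ≤ x.2
  hm4 : x.2 ≤ v 4
  h45 : v 4 ≤ v 5
  h56 : v 5 ≤ v 6
  h67 : v 6 ≤ v 7
  h7 : v 7 ≤ x.1.length
  ev : ∀ i, Even (v i)
  em : Even x.2
  el : Even x.1.length
  p : PaiG D.d D.d' (D.P.up D.y) (D.P.up D.y') S (pcw x.1 0 (v 1), pcw x.1 x.1.length (v 6)) (v 0) (x.1.length - v 7)
  q : PaiG D.t D.t' (D.Q.up D.z) (D.Q.up D.z') S (pcw x.1 x.2 (v 2), pcw x.1 x.2 (v 5)) (x.2 - v 3) (v 4 - x.2)
  A : RsG D.d D.t D.P D.Q S (pcw x.1 (v 1) (v 2))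
  B : RsG D.d' D.t' D.P D.Q S (pcw x.1 (v 6) (v 5))

/-- the soft part of the class at the positions `v` -/
structure DecS (D : Dt) (S T : ℝ) (x : W3 × ℕ) (v : Fin 8 → ℕ) : Prop where
  p : PaiS D.d D.d' (D.P.up D.y) (D.P.up D.y') S T (pcw x.1 0 (v 1), pcw x.1 x.1.length (v 6)) (v 0) (x.1.length - v 7)
  q : PaiS D.t D.t' (D.Q.up D.z) (D.Q.up D.z') S T (pcw x.1 x.2 (v 2), pcw x.1 x.2 (v 5)) (x.2 - v 3) (v 4 - x.2)
  A : RsS D.d D.t D.P D.Q D.V S T (pcw x.1 (v 1) (v 2))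
  B : RsS D.d' D.t' D.P D.Q D.V' S T (pcw x.1 (v 6) (v 5))

section word

variable {D : Dt} {S T : ℝ} {x : W3 × ℕ} {v : Fin 8 → ℕ}

private lemma seg_end (w : W3) (i : ℕ) : seg w i w.length = w.drop i := by
  unfold seg
  exact List.take_of_length_le (by rw [List.length_drop])

/-- the decomposition at the positions -/
theorem DecG.dec (h : DecG D S x v) (hs : DecS D S T x v) :
    Dec D S T x (pcw x.1 0 (v 1), pcw x.1 x.1.length (v 6)) (pcw x.1 (v 1) (v 2)) (pcw x.1 x.2 (v 2), pcw x.1 x.2 (v 5))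
      (pcw x.1 (v 6) (v 5)) (v 0) (x.1.length - v 7) (x.2 - v 3) (v 4 - x.2) := by
  have h01 := h.h01
  have h12 := h.h12
  have h23 := h.h23
  have h3m := h.h3m
  have hm4 := h.hm4
  have h45 := h.h45
  have h56 := h.h56
  have h67 := h.h67
  have h7 := h.h7
  refine ⟨paiM_iff.2 ⟨h.p, hs.p⟩, rsQ_iff.2 ⟨h.A, hs.A⟩, paiM_iff.2 ⟨h.q, hs.q⟩, rsQ_iff.2 ⟨h.B, hs.B⟩, ?_, ?_⟩
  · rw [pcw_of_le (Nat.zero_le _), pcw_of_ge (by omega : v 6 ≤ x.1.length), pcw_of_le h12, pcw_of_ge (by omega : v 2 ≤ x.2),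
      pcw_of_le (by omega : x.2 ≤ v 5), pcw_of_ge h56, seg_end]
    exact G6_cuts h12 (by omega) (by omega) h56
  · show (pcw x.1 0 (v 1)).length + (pcw x.1 (v 1) (v 2)).length + (pcw x.1 x.2 (v 2)).length = x.2
    rw [length_pcw (n := x.1.length) (by omega) (by omega) le_rfl, length_pcw (n := x.1.length) (by omega) (by omega) le_rfl,
      length_pcw (n := x.1.length) (by omega) (by omega) le_rfl]
    unfold ndi
    omega

/-- **the marks are the positions** -/
theorem DecG.marks (hD : D.Ok) (hS : 0 < S) (h : DecG D S x v) (hs : DecS D S T x v) : mkc D S T x = v := by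
  have h01 := h.h01
  have h12 := h.h12
  have h23 := h.h23
  have h3m := h.h3m
  have hm4 := h.hm4
  have h45 := h.h45
  have h56 := h.h56
  have h67 := h.h67
  have h7 := h.h7
  funext i
  rw [mkc_dec hD hS (h.dec hs)]
  have l1 : (pcw x.1 0 (v 1)).length = v 1 := by
    rw [length_pcw (n := x.1.length) (by omega) (by omega) le_rfl]
    unfold ndi
    omega
  have l2 : (pcw x.1 (v 1) (v 2)).length = v 2 - v 1 := by
    rw [length_pcw (n := x.1.length) (by omega) (by omega) le_rfl]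
    unfold ndi
    omega
  have l3 : (pcw x.1 x.2 (v 2)).length = x.2 - v 2 := by
    rw [length_pcw (n := x.1.length) (by omega) (by omega) le_rfl]
    unfold ndi
    omega
  have l4 : (pcw x.1 x.2 (v 5)).length = v 5 - x.2 := by
    rw [length_pcw (n := x.1.length) (by omega) (by omega) le_rfl]
    unfold ndi
    omega
  have l5 : (pcw x.1 (v 6) (v 5)).length = v 6 - v 5 := by
    rw [length_pcw (n := x.1.length) (by omega) (by omega) le_rfl]
    unfold ndi
    omega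
  have l6 : (pcw x.1 x.1.length (v 6)).length = x.1.length - v 6 := by
    rw [length_pcw (n := x.1.length) (by omega) (by omega) le_rfl]
    unfold ndi
    omega
  unfold mk8
  simp only [l1, l2, l3, l4, l5, l6]
  fin_cases i
  · rfl
  · rfl
  · show v 1 + (v 2 - v 1) = v 2
    omega
  · show v 1 + (v 2 - v 1) + (x.2 - v 2) - (x.2 - v 3) = v 3
    omega
  · show v 1 + (v 2 - v 1) + (x.2 - v 2) + (v 4 - x.2) = v 4
    omega
  · show v 1 + (v 2 - v 1) + (x.2 - v 2) + (v 5 - x.2) = v 5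
    omega
  · show v 1 + (v 2 - v 1) + (x.2 - v 2) + (v 5 - x.2) + (v 6 - v 5) = v 6
    omega
  · show v 1 + (v 2 - v 1) + (x.2 - v 2) + (v 5 - x.2) + (v 6 - v 5) + (x.1.length - v 6) - (x.1.length - v 7) = v 7
    omega

/-- the class at its marks -/
theorem dec_mkc (hD : D.Ok) (hS : 0 < S) (hx : x ∈ InC (D.C S T) (D.C' S T) (D.A S T) (D.B S T)) :
    DecG D S x (mkc D S T x) ∧ DecS D S T x (mkc D S T x) := by
  obtain ⟨h01, h12, h23, h3m, hm4, h45, h56, h67, h7⟩ := mkc_le hD hS hx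
  obtain ⟨em, el⟩ := inC_even hx
  obtain ⟨a, R, c, U, k1, k2, j1, j2, h⟩ := dec_of hx
  obtain ⟨⟨_, e1, _⟩, ⟨_, e2, _⟩, ⟨_, e3, _⟩, ⟨_, e4, _⟩, _, _⟩ := h.even
  obtain ⟨s1, s2, s3, s4⟩ := h.segs
  have hl := h.len
  have hm := h.m
  have v0 : mkc D S T x 0 = k1 := mkc_dec hD hS h 0
  have v1 : mkc D S T x 1 = a.1.length := mkc_dec hD hS h 1
  have v2 : mkc D S T x 2 = a.1.length + R.length := mkc_dec hD hS h 2
  have v3 : mkc D S T x 3 = a.1.length + R.length + c.1.length - j1 := mkc_dec hD hS h 3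
  have v4 : mkc D S T x 4 = a.1.length + R.length + c.1.length + j2 := mkc_dec hD hS h 4
  have v5 : mkc D S T x 5 = a.1.length + R.length + c.1.length + c.2.length := mkc_dec hD hS h 5
  have v6 : mkc D S T x 6 = a.1.length + R.length + c.1.length + c.2.length + U.length := mkc_dec hD hS h 6
  have v7 : mkc D S T x 7 = a.1.length + R.length + c.1.length + c.2.length + U.length + a.2.length - k2 :=
    mkc_dec hD hS h 7
  have n7 : x.1.length - mkc D S T x 7 = k2 := by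
    rw [v7]
    omega
  have n3 : x.2 - mkc D S T x 3 = j1 := by
    rw [v3]
    omega
  have n4 : mkc D S T x 4 - x.2 = j2 := by
    rw [v4]
    omega
  have p1 : (pcw x.1 0 (mkc D S T x 1), pcw x.1 x.1.length (mkc D S T x 6)) = a := by
    rw [pcw_of_le (Nat.zero_le _), pcw_of_ge (by omega : mkc D S T x 6 ≤ x.1.length), seg_end, v1, v6]
    conv_rhs => rw [s1]
    rw [show a.1.length + R.length + c.1.length + c.2.length + U.length = x.2 + c.2.length + U.length by omega]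
  have p2 : pcw x.1 (mkc D S T x 1) (mkc D S T x 2) = R := by
    rw [pcw_of_le h12, v1, v2]
    exact s2.symm
  have p3 : (pcw x.1 x.2 (mkc D S T x 2), pcw x.1 x.2 (mkc D S T x 5)) = c := by
    rw [pcw_of_ge (by omega : mkc D S T x 2 ≤ x.2), pcw_of_le (by omega : x.2 ≤ mkc D S T x 5), v2, v5]
    conv_rhs => rw [s3]
    rw [show a.1.length + R.length + c.1.length + c.2.length = x.2 + c.2.length by omega]
  have p4 : pcw x.1 (mkc D S T x 6) (mkc D S T x 5) = U := by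
    rw [pcw_of_ge h56, v5, v6]
    conv_rhs => rw [s4]
    rw [show a.1.length + R.length + c.1.length + c.2.length + U.length = x.2 + c.2.length + U.length by omega,
      show a.1.length + R.length + c.1.length + c.2.length = x.2 + c.2.length by omega]
  refine ⟨⟨h01, h12, h23, h3m, hm4, h45, h56, h67, h7, mkc_even hD hS x, em, el, ?_, ?_, ?_, ?_⟩, ?_, ?_, ?_, ?_⟩
  · rw [p1, v0, n7]
    exact (paiM_iff.1 h.ga).1
  · rw [p3, n3, n4]
    exact (paiM_iff.1 h.gc).1
  · rw [p2]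
    exact (rsQ_iff.1 h.gR).1
  · rw [p4]
    exact (rsQ_iff.1 h.gU).1
  · rw [p1, v0, n7]
    exact (paiM_iff.1 h.ga).2
  · rw [p3, n3, n4]
    exact (paiM_iff.1 h.gc).2
  · rw [p2]
    exact (rsQ_iff.1 h.gR).2
  · rw [p4]
    exact (rsQ_iff.1 h.gU).2

/-- the marks are vertices of the word (any scale) -/
lemma mkc_len (D : Dt) (S T : ℝ) (x : W3 × ℕ) (i : Fin 8) : mkc D S T x i ≤ x.1.length := by
  unfold mkc
  by_cases h : ∃ v : Fin 8 → ℕ, ∃ a R c U k1 k2 j1 j2, Dec D S T x a R c U k1 k2 j1 j2 ∧ v = mk8 a R c U k1 k2 j1 j2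
  swap
  · rw [dif_neg h]
    exact Nat.zero_le _
  rw [dif_pos h]
  obtain ⟨a, R, c, U, k1, k2, j1, j2, hd, hv⟩ := h.choose_spec
  rw [hv]
  obtain ⟨⟨_, e1, _⟩, ⟨_, e2, _⟩, ⟨_, e3, _⟩, ⟨_, e4, _⟩, _, _⟩ := hd.even
  have hl := hd.len
  have hm := hd.m
  fin_cases i
  · show k1 ≤ _
    omega
  · show a.1.length ≤ _
    omega
  · show a.1.length + R.length ≤ _
    omega
  · show a.1.length + R.length + c.1.length - j1 ≤ _
    omega
  · show a.1.length + R.length + c.1.length + j2 ≤ _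
    omega
  · show a.1.length + R.length + c.1.length + c.2.length ≤ _
    omega
  · show a.1.length + R.length + c.1.length + c.2.length + U.length ≤ _
    omega
  · show a.1.length + R.length + c.1.length + c.2.length + U.length + a.2.length - k2 ≤ _
    omega

/-- **the class in terms of the positions** -/
theorem inC_dec (hD : D.Ok) (hS : 0 < S) : x ∈ InC (D.C S T) (D.C' S T) (D.A S T) (D.B S T) ↔
    ∃ v, DecG D S x v ∧ DecS D S T x v := by
  constructor
  · intro hx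
    exact ⟨_, dec_mkc hD hS hx⟩
  · rintro ⟨v, h1, h2⟩
    exact (h1.dec h2).inC

end word

/-! ### 2. Balls, order, distances, and the statistic -/

/-- balls and order: the part of `DecG` which is not seen by gates with free radii -/
structure BaG (D : Dt) (S : ℝ) (x : W3 × ℕ) (v : Fin 8 → ℕ) : Prop where
  o1 : v 1 ≤ v 2
  o2 : v 5 ≤ v 6
  b1 : (∀ k : ℕ, k ≤ (pcw x.1 0 (v 0)).length → ‖ps (pcw x.1 0 (v 0)) k‖ ≤ D.P.r * S) ∧
    ∀ k : ℕ, k ≤ (pcw x.1 (v 0) (v 1)).length → ‖ps (pcw x.1 (v 0) (v 1)) k‖ ≤ D.P.r2 * S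
  b2 : (∀ k : ℕ, k ≤ (pcw x.1 x.1.length (v 7)).length → ‖ps (pcw x.1 x.1.length (v 7)) k‖ ≤ D.P.r * S) ∧
    ∀ k : ℕ, k ≤ (pcw x.1 (v 7) (v 6)).length → ‖ps (pcw x.1 (v 7) (v 6)) k‖ ≤ D.P.r2 * S
  b3 : (∀ k : ℕ, k ≤ (pcw x.1 x.2 (v 3)).length → ‖ps (pcw x.1 x.2 (v 3)) k‖ ≤ D.Q.r * S) ∧
    ∀ k : ℕ, k ≤ (pcw x.1 (v 3) (v 2)).length → ‖ps (pcw x.1 (v 3) (v 2)) k‖ ≤ D.Q.r2 * S
  b4 : (∀ k : ℕ, k ≤ (pcw x.1 x.2 (v 4)).length → ‖ps (pcw x.1 x.2 (v 4)) k‖ ≤ D.Q.r * S) ∧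
    ∀ k : ℕ, k ≤ (pcw x.1 (v 4) (v 5)).length → ‖ps (pcw x.1 (v 4) (v 5)) k‖ ≤ D.Q.r2 * S

/-- the two arcs are long -/
def Far (D : Dt) (S : ℝ) (x : W3 × ℕ) (v : Fin 8 → ℕ) : Prop :=
  D.V.D0 * S ≤ ‖en (pcw x.1 (v 1) (v 2))‖ ∧ D.V'.D0 * S ≤ ‖en (pcw x.1 (v 6) (v 5))‖

/-- the gates are in their strands -/
structure PosG (x : W3 × ℕ) (v : Fin 8 → ℕ) : Prop where
  ev : ∀ i, Even (v i)
  em : Even x.2
  el : Even x.1.length
  ml : x.2 ≤ x.1.length
  h01 : v 0 ≤ v 1
  h1 : v 1 ≤ x.2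
  h23 : v 2 ≤ v 3
  h3 : v 3 ≤ x.2
  h4 : x.2 ≤ v 4
  h45 : v 4 ≤ v 5
  h5 : v 5 ≤ x.1.length
  h6 : x.2 ≤ v 6
  h67 : v 6 ≤ v 7
  h7 : v 7 ≤ x.1.length

/-- **the statistic of the class** : `g` = curve, `L` = duration, `m` = time of the second root, `u` = times of the eight marks -/
noncomputable def clsF (D : Dt) (g : C(I, ℂ)) (L : ℝ) (m : I) (u : Fin 8 → I) : ℝ :=
  max (max (max (paiF D.d D.d' (D.P.up D.y) (D.P.up D.y') g L 0 (u 0) (u 1) 1 (u 7) (u 6))
        (paiF D.t D.t' (D.Q.up D.z) (D.Q.up D.z') g L m (u 3) (u 2) m (u 4) (u 5)))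
      (max (rsF D.d D.t D.P D.Q D.V g L (u 1) (u 2)) (rsF D.d' D.t' D.P D.Q D.V' g L (u 6) (u 5))))
    (max (max (balF D.P.r D.P.r2 g 0 (u 0) (u 1)) (balF D.P.r D.P.r2 g 1 (u 7) (u 6)))
      (max (balF D.Q.r D.Q.r2 g m (u 3) (u 2)) (balF D.Q.r D.Q.r2 g m (u 4) (u 5))))

/-- **the closed conditions of the gates of the class** -/
noncomputable def clsK (D : Dt) (g : C(I, ℂ)) (m : I) (u : Fin 8 → I) : ℝ :=
  max (max (max (preK D.d (D.P.up D.y) g 0 (u 0) (u 1)) (preK D.d' (D.P.up D.y') g 1 (u 7) (u 6)))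
      (max (preK D.t (D.Q.up D.z) g m (u 3) (u 2)) (preK D.t' (D.Q.up D.z') g m (u 4) (u 5))))
    (max (max (reK D.d D.P.rg g (u 1) (u 2)) (reK D.t D.Q.rg g (u 2) (u 1)))
      (max (reK D.d' D.P.rg g (u 6) (u 5)) (reK D.t' D.Q.rg g (u 5) (u 6))))

/-- order of the marks -/
noncomputable def ordF (u : Fin 8 → I) : ℝ := max ((u 1 : ℝ) - u 2) ((u 5 : ℝ) - u 6)

section stat

variable {D : Dt} {S T : ℝ} {x : W3 × ℕ} {v : Fin 8 → ℕ}

lemma clsF_cont (hD : D.Ok) {Z : Type*} [TopologicalSpace Z] {g : Z → C(I, ℂ)} {L : Z → ℝ} {m : Z → I} {u : Z → Fin 8 → I}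
    (hg : Continuous g) (hL : Continuous L) (hm : Continuous m) (hu : ∀ k, Continuous fun z => u z k) :
    Continuous fun z => clsF D (g z) (L z) (m z) (u z) := by
  have cP := (hD.P.co).up D.y
  have cP' := (hD.P.co).up D.y'
  have cQ := (hD.Q.co).up D.z
  have cQ' := (hD.Q.co).up D.z'
  exact (((Continuous.paiF cP cP' hD.d hD.d' hg hL continuous_const (hu 0) (hu 1) continuous_const (hu 7) (hu 6)).max
      (Continuous.paiF cQ cQ' hD.t hD.t' hg hL hm (hu 3) (hu 2) hm (hu 4) (hu 5))).max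
    ((Continuous.rsF hD.P.co hD.Q.co D.V hD.d hD.t hg hL (hu 1) (hu 2)).max
      (Continuous.rsF hD.P.co hD.Q.co D.V' hD.d' hD.t' hg hL (hu 6) (hu 5)))).max
    (((Continuous.balF _ _ hg continuous_const (hu 0) (hu 1)).max (Continuous.balF _ _ hg continuous_const (hu 7) (hu 6))).max
      ((Continuous.balF _ _ hg hm (hu 3) (hu 2)).max (Continuous.balF _ _ hg hm (hu 4) (hu 5))))

lemma clsK_cont (hD : D.Ok) {Z : Type*} [TopologicalSpace Z] {g : Z → C(I, ℂ)} {m : Z → I} {u : Z → Fin 8 → I}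
    (hg : Continuous g) (hm : Continuous m) (hu : ∀ k, Continuous fun z => u z k) :
    Continuous fun z => clsK D (g z) (m z) (u z) :=
  (((Continuous.preK _ hD.d hg continuous_const (hu 0) (hu 1)).max (Continuous.preK _ hD.d' hg continuous_const (hu 7) (hu 6))).max
    ((Continuous.preK _ hD.t hg hm (hu 3) (hu 2)).max (Continuous.preK _ hD.t' hg hm (hu 4) (hu 5)))).max
    (((Continuous.reK hD.d _ hg (hu 1) (hu 2)).max (Continuous.reK hD.t _ hg (hu 2) (hu 1))).max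
      ((Continuous.reK hD.d' _ hg (hu 6) (hu 5)).max (Continuous.reK hD.t' _ hg (hu 5) (hu 6))))

/-- **the closed conditions of the gates on the words of the class** -/
theorem clsK_le (hD : D.Ok) (hS : 0 < S) (h : DecG D S x v) (hn : 1 ≤ x.1.length) :
    clsK D (crv x.1 x.1.length S) (fr x.2 x.1.length) (fun k => fr (v k) x.1.length) ≤ 1 / S := by
  have h01 := h.h01
  have h12 := h.h12
  have h23 := h.h23
  have h3m := h.h3m
  have hm4 := h.hm4
  have h45 := h.h45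
  have h56 := h.h56
  have h67 := h.h67
  have h7 := h.h7
  have b01 : Btw 0 (v 0) (v 1) := Or.inl ⟨Nat.zero_le _, h01⟩
  have b76 : Btw x.1.length (v 7) (v 6) := Or.inr ⟨h67, h7⟩
  have b32 : Btw x.2 (v 3) (v 2) := Or.inr ⟨h23, h3m⟩
  have b45 : Btw x.2 (v 4) (v 5) := Or.inl ⟨hm4, h45⟩
  have e0 : Even 0 := Even.zero
  have n1 : ndi 0 (v 0) = v 0 := by unfold ndi; omega
  have n2 : ndi x.1.length (v 7) = x.1.length - v 7 := by unfold ndi; omega
  have n3 : ndi x.2 (v 3) = x.2 - v 3 := by unfold ndi; omega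
  have n4 : ndi x.2 (v 4) = v 4 - x.2 := by unfold ndi; omega
  have k1 := preG_le (w := x.1) (n := x.1.length) hD.d b01 e0 (h.ev 0) (h.ev 1) (Nat.zero_le _) (by omega) le_rfl hS
    (by rw [n1]; exact h.p.p1)
  have k2 := preG_le (w := x.1) (n := x.1.length) hD.d' b76 h.el (h.ev 7) (h.ev 6) le_rfl (by omega) le_rfl hS
    (by rw [n2]; exact h.p.p2)
  have k3 := preG_le (w := x.1) (n := x.1.length) hD.t b32 h.em (h.ev 3) (h.ev 2) (by omega) (by omega) le_rfl hS
    (by rw [n3]; exact h.q.p1)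
  have k4 := preG_le (w := x.1) (n := x.1.length) hD.t' b45 h.em (h.ev 4) (h.ev 5) (by omega) (by omega) le_rfl hS
    (by rw [n4]; exact h.q.p2)
  have k5 := restC_le (w := x.1) (n := x.1.length) hD.d (h.ev 1) (h.ev 2) (by omega) (by omega) le_rfl hS h.A.s
  have k6 := restC_le (w := x.1) (n := x.1.length) hD.t (h.ev 2) (h.ev 1) (by omega) (by omega) le_rfl hS
    (by rw [← pcw_reverse]; exact h.A.e)
  have k7 := restC_le (w := x.1) (n := x.1.length) hD.d' (h.ev 6) (h.ev 5) (by omega) (by omega) le_rfl hS h.B.s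
  have k8 := restC_le (w := x.1) (n := x.1.length) hD.t' (h.ev 5) (h.ev 6) (by omega) (by omega) le_rfl hS
    (by rw [← pcw_reverse]; exact h.B.e)
  rw [fr_zero] at k1
  rw [fr_self hn] at k2
  exact max_le (max_le (max_le k1 k2) (max_le k3 k4)) (max_le (max_le k5 k6) (max_le k7 k8))

/-- **squeeze of the class on the event where the gates exist** -/
theorem cls_sq (hD : D.Ok) (hS : 0 < S) (hT : 0 < T) (h : PosG x v) (hn : 1 ≤ x.1.length) :
    Sqz (BaG D S x v ∧ DecS D S T x v)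
      (max (clsF D (crv x.1 x.1.length S) (x.1.length / T) (fr x.2 x.1.length) fun k => fr (v k) x.1.length)
        (ordF fun k => fr (v k) x.1.length)) (3 / S) := by
  have h01 := h.h01
  have h1 := h.h1
  have h23 := h.h23
  have h3 := h.h3
  have h4 := h.h4
  have h45 := h.h45
  have h5 := h.h5
  have h6 := h.h6
  have h67 := h.h67
  have h7 := h.h7
  have ml := h.ml
  have hη : 3 / S ≤ 3 / S := le_rfl
  have hη0 : 0 ≤ 3 / S := by positivity
  have cP := (hD.P.co).up D.y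
  have cP' := (hD.P.co).up D.y'
  have cQ := (hD.Q.co).up D.z
  have cQ' := (hD.Q.co).up D.z'
  have b01 : Btw 0 (v 0) (v 1) := Or.inl ⟨Nat.zero_le _, h01⟩
  have b76 : Btw x.1.length (v 7) (v 6) := Or.inr ⟨h67, h7⟩
  have b32 : Btw x.2 (v 3) (v 2) := Or.inr ⟨h23, h3⟩
  have b45 : Btw x.2 (v 4) (v 5) := Or.inl ⟨h4, h45⟩
  have e0 : Even 0 := Even.zero
  have n1 : ndi 0 (v 0) = v 0 := by unfold ndi; omega
  have n2 : ndi x.1.length (v 7) = x.1.length - v 7 := by unfold ndi; omega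
  have n3 : ndi x.2 (v 3) = x.2 - v 3 := by unfold ndi; omega
  have n4 : ndi x.2 (v 4) = v 4 - x.2 := by unfold ndi; omega
  have s1 := paiS_sq (w := x.1) (n := x.1.length) (T := T) cP cP' hD.d hD.d' b01 b76 e0 (h.ev 0) (h.ev 1) h.el (h.ev 7) (h.ev 6) (Nat.zero_le _)
    (by omega) le_rfl (by omega) le_rfl hS hT hη
  have s2 := paiS_sq (w := x.1) (n := x.1.length) (T := T) cQ cQ' hD.t hD.t' b32 b45 h.em (h.ev 3) (h.ev 2) h.em (h.ev 4) (h.ev 5) ml (by omega) ml (by omega)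
    le_rfl hS hT hη
  have s3 := rsS_sq (w := x.1) (n := x.1.length) (T := T) hD.P.co hD.Q.co D.V hD.d hD.t (h.ev 1) (h.ev 2) (by omega) (by omega) le_rfl hS hT hη
  have s4 := rsS_sq (w := x.1) (n := x.1.length) (T := T) hD.P.co hD.Q.co D.V' hD.d' hD.t' (h.ev 6) (h.ev 5) (by omega) (by omega) le_rfl hS hT hη
  have s5 := bal_sq (w := x.1) (n := x.1.length) (r := D.P.r) (r2 := D.P.r2) b01 e0 (h.ev 0) (h.ev 1) (Nat.zero_le _) (by omega) (le_refl x.1.length) hS hη
  have s6 := bal_sq (w := x.1) (n := x.1.length) (r := D.P.r) (r2 := D.P.r2) b76 h.el (h.ev 7) (h.ev 6) le_rfl (by omega) (le_refl x.1.length) hS hη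
  have s7 := bal_sq (w := x.1) (n := x.1.length) (r := D.Q.r) (r2 := D.Q.r2) b32 h.em (h.ev 3) (h.ev 2) ml (by omega) (le_refl x.1.length) hS hη
  have s8 := bal_sq (w := x.1) (n := x.1.length) (r := D.Q.r) (r2 := D.Q.r2) b45 h.em (h.ev 4) (h.ev 5) ml (by omega) (le_refl x.1.length) hS hη
  rw [n1, n2, fr_zero, fr_self hn] at s1
  rw [n3, n4] at s2
  rw [fr_zero] at s5
  rw [fr_self hn] at s6
  have key : ∀ {i j : ℕ}, i ≤ x.1.length → j ≤ x.1.length →
      Sqz (i ≤ j) (((fr i x.1.length : I) : ℝ) - (fr j x.1.length : I)) (3 / S) := by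
    intro i j hi hj
    refine Sqz.of_iff ?_ hη0
    have hn0 : (0 : ℝ) < x.1.length := by exact_mod_cast hn
    rw [fr_coe hi, fr_coe hj, sub_nonpos, div_le_div_iff_of_pos_right hn0]
    exact Nat.cast_le.symm
  have s9 := key (show v 1 ≤ x.1.length by omega) (show v 2 ≤ x.1.length by omega)
  have s10 := key (show v 5 ≤ x.1.length by omega) (show v 6 ≤ x.1.length by omega)
  refine ((((s1.and s2).and (s3.and s4)).and ((s5.and s6).and (s7.and s8))).and (s9.and s10)).iff ?_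
  constructor
  · rintro ⟨a, b⟩
    exact ⟨⟨⟨⟨b.p, b.q⟩, b.A, b.B⟩, ⟨a.b1, a.b2⟩, a.b3, a.b4⟩, a.o1, a.o2⟩
  · rintro ⟨⟨⟨⟨b1, b2⟩, b3, b4⟩, ⟨a1, a2⟩, a3, a4⟩, o1, o2⟩
    exact ⟨⟨o1, o2, a1, a2, a3, a4⟩, b1, b2, b3, b4⟩

/-- the order never has the value `0` on `clsF ≤ 0` -/
lemma ord_ne (hD : D.Ok) {g : C(I, ℂ)} {L : ℝ} {m : I} {u : Fin 8 → I} (h : clsF D g L m u ≤ 0) : ordF u ≠ 0 := by
  intro h0
  unfold clsF at h
  have r1 := rad_pos hD.P
  have r2 := rad_pos hD.Q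
  have hV := hD.V
  have hV' := hD.V'
  have k1 := ((le_max_left _ _).trans ((le_max_right _ _).trans ((le_max_left _ _).trans h)) :
    rsF D.d D.t D.P D.Q D.V g L (u 1) (u 2) ≤ 0)
  have k2 := ((le_max_right _ _).trans ((le_max_right _ _).trans ((le_max_left _ _).trans h)) :
    rsF D.d' D.t' D.P D.Q D.V' g L (u 6) (u 5) ≤ 0)
  have key : ∀ {d d' : ℂ} {W : Wn} {a : I}, 0 < W.D0 → ¬ rsF d d' D.P D.Q W g L a a ≤ 0 := by
    intro d d' W a hW hle
    unfold rsF at hle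
    have h1 : W.D0 - ‖cutc g a a 1‖ ≤ 0 :=
      (le_max_left _ _).trans ((le_max_right _ _).trans ((le_max_left _ _).trans hle))
    rw [cutc_self] at h1
    simp only [ContinuousMap.zero_apply, norm_zero, sub_zero] at h1
    linarith
  unfold ordF at h0
  rcases max_choice ((u 1 : ℝ) - u 2) ((u 5 : ℝ) - u 6) with h1 | h1
  · rw [h1] at h0
    have e : u 1 = u 2 := Subtype.ext (by linarith)
    rw [e] at k1
    exact key (by linarith) k1
  · rw [h1] at h0
    have e : u 5 = u 6 := Subtype.ext (by linarith)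
    rw [e] at k2
    exact key (by linarith) k2

end stat

/-! ### 3. The limits -/

/-- the closed words with two roots are a system of words -/
lemma wsy {l : Filter ℕ} (hl : l ≤ atTop) : WSy l cN (fun _ (x : W3 × ℕ) => x.1) (fun _ x => x.1.length) (fun N : ℕ => (N : ℝ)) uT
    (fun y : CC.Gm => y.2.2) fun y => y.1 where
  hg := by fun_prop
  hL := by fun_prop
  eg := fun _ _ => rfl
  eL := fun _ _ => rfl
  hn := fun _ _ => le_rfl
  hS := tendsto_natCast_atTop_atTop.mono_left hl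
  hT := by
    filter_upwards [hl (eventually_ge_atTop 1)] with N hN
    have : (0 : ℝ) < N := by exact_mod_cast hN
    exact Real.rpow_pos_of_pos this _

/-- the words of the system -/
def Spt (x : W3 × ℕ) : Prop := Cl x.1 ∧ Even x.2 ∧ x.2 < x.1.length

lemma spt_ae (N : ℕ) (b : ℝ) : ∀ᵐ x ∂(mwE N b), Spt x := by
  unfold mwE
  rw [ae_restrict_iff' (MeasurableSet.of_discrete)]
  filter_upwards [mw_aeTN N b] with x hx he
  exact ⟨(mem_TN.1 hx).1, he, (mem_TN.1 hx).2.1⟩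

/-- **the input from the gates** -/
structure GIn (U : Filter ℕ) (b : ℝ) (PG : Measure CC.Gm) (D : Dt) (A : ℕ → W3 × ℕ → Prop) (v : ℕ → W3 × ℕ → Fin 8 → ℕ)
    (B : Set CC.Gm) (Φ : CC.Gm → Fin 8 → ℝ) : Prop where
  /-- the event `all gates exist` has a limit -/
  ev : Ev U (fun N => mwE N b) cN PG A B
  /-- the relative times of the gates have limits -/
  tm : ∀ k, Lm U (fun N => mwE N b) cN PG (fun N x => bi (A N x) * ((v N x k : ℝ) / x.1.length)) fun y => Φ y k
  /-- the gates are in their strands -/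
  pos : ∀ᶠ N in U, ∀ x, Spt x → A N x → PosG x (v N x)
  /-- the dictionary -/
  dic : ∀ᶠ N : ℕ in U, ∀ x, Spt x → ∀ v', Far D N x v' → (DecG D N x v' ↔ A N x ∧ v' = v N x ∧ BaG D N x v')

section lim

variable {U : Filter ℕ} {b : ℝ} {PG : Measure CC.Gm} {D : Dt} {A : ℕ → W3 × ℕ → Prop} {v : ℕ → W3 × ℕ → Fin 8 → ℕ}
  {B : Set CC.Gm} {Φ : CC.Gm → Fin 8 → ℝ}

/-- events which agree on the words of the system -/
lemma ev_spt {A' : ℕ → W3 × ℕ → Prop} {B : Set CC.Gm} (hC : Cv U (fun N => mwE N b) cN PG) (h : Ev U (fun N => mwE N b) cN PG A B)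
    (he : ∀ᶠ N in U, ∀ x, Spt x → (A' N x ↔ A N x)) : Ev U (fun N => mwE N b) cN PG A' B := by
  refine h.close hC (fun i => MeasurableSet.of_discrete) fun δ hδ => ?_
  filter_upwards [he] with N hN
  refine ⟨{x | ¬ Spt x}, MeasurableSet.of_discrete, ?_, fun x hx => hN x (not_not.1 hx)⟩
  have h1 : mwE N b {x | ¬ Spt x} = 0 := spt_ae N b
  rw [measureReal_def, h1]
  exact hδ.le

/-- functionals which agree on the words of the system -/
lemma lm_spt {p p' : ℕ → W3 × ℕ → ℝ} {Ψ : CC.Gm → ℝ} (hC : Cv U (fun N => mwE N b) cN PG)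
    (h : Lm U (fun N => mwE N b) cN PG p Ψ) (hb : ∃ C : ℝ, ∀ i ω, |p' i ω| ≤ C)
    (he : ∀ᶠ N in U, ∀ x, Spt x → p' N x = p N x) : Lm U (fun N => mwE N b) cN PG p' Ψ := by
  refine h.close hC (fun i => Measurable.of_discrete) hb fun δ hδ => ?_
  filter_upwards [he] with N hN
  refine ⟨{x | ¬ Spt x}, MeasurableSet.of_discrete, ?_, fun x hx => ?_⟩
  · have h1 : mwE N b {x | ¬ Spt x} = 0 := spt_ae N b
    rw [measureReal_def, h1]
    exact hδ.le
  · rw [hN x (not_not.1 hx), sub_self, abs_zero]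
    exact hδ.le

/-- the limit class -/
def k3S (D : Dt) (B : Set CC.Gm) (Φ : CC.Gm → Fin 8 → ℝ) : Set CC.Gm :=
  B ∩ {y | max (clsF D y.2.2 y.1 (pji (muG y)) fun k => pji (Φ y k)) (ordF fun k => pji (Φ y k)) ≤ 0}

/-- all the marks -/
noncomputable def mkA (A : ℕ → W3 × ℕ → Prop) (v : ℕ → W3 × ℕ → Fin 8 → ℕ) (N : ℕ) (x : W3 × ℕ) (k : Option (Fin 8)) : ℝ :=
  k.elim (muN x) fun j => bi (A N x) * ((v N x j : ℝ) / x.1.length)

/-- all the marks in the limit -/
noncomputable def mkL (Φ : CC.Gm → Fin 8 → ℝ) (y : CC.Gm) (k : Option (Fin 8)) : ℝ := k.elim (muG y) fun j => Φ y j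

lemma mkA_lm (hC : Cv U (fun N => mwE N b) cN PG) (hP : ∀ᵐ y ∂PG, 0 < y.1) (G : GIn U b PG D A v B Φ) (k : Option (Fin 8)) :
    Lm U (fun N => mwE N b) cN PG (fun N x => mkA A v N x k) fun y => mkL Φ y k := by
  cases k with
  | none => exact lm_mu hC hP
  | some j => exact G.tm j

/-- **the indicator of the class has a limit** -/
theorem k3_ev (hU : U ≤ atTop) (hC : Cv U (fun N => mwE N b) cN PG) (hP : ∀ᵐ y ∂PG, 0 < y.1) (hD : D.Ok)
    (G : GIn U b PG D A v B Φ)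
    (h0 : PG {y | y ∈ B ∧ clsF D y.2.2 y.1 (pji (muG y)) (fun k => pji (Φ y k)) = 0} = 0) :
    Ev U (fun N => mwE N b) cN PG
      (fun N x => x ∈ InC (D.C N (uT N)) (D.C' N (uT N)) (D.A N (uT N)) (D.B N (uT N))) (k3S D B Φ) := by
  obtain ⟨E, hE⟩ : ∃ E : ℕ → W3 × ℕ → Prop, E = fun N x => A N x ∧ Spt x ∧ PosG x (v N x) := ⟨_, rfl⟩
  have e1 : Ev U (fun N => mwE N b) cN PG E B := by
    refine ev_spt hC G.ev ?_
    filter_upwards [G.pos] with N hN x hx
    rw [hE]
    exact ⟨fun h => h.1, fun h => ⟨h, hx, hN x hx h⟩⟩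
  -- the statistic
  have e2 := soft_ev (κ := Option (Fin 8)) (p := mkA A v) (Φ := mkL Φ) (E := E) (A := fun N x => BaG D N x (v N x) ∧
    DecS D N (uT N) x (v N x)) (K := fun k N x => k.elim x.2 fun j => v N x j)
    (F := fun g L u => max (clsF D g L (u none) fun k => u (some k)) (ordF fun k => u (some k))) hC (wsy hU) (mkA_lm hC hP G) e1
    (fun N x hx k => by
      rw [hE] at hx
      obtain ⟨h1, ⟨_, _, h2⟩, h3⟩ := hx
      cases k with
      | none => rfl
      | some j =>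
        show bi (A N x) * ((v N x j : ℝ) / x.1.length) = ((fr (v N x j) x.1.length : I) : ℝ)
        have hle : v N x j ≤ x.1.length := by
          have a1 := h3.h1
          have a01 := h3.h01
          have a3 := h3.h3
          have a23 := h3.h23
          have a45 := h3.h45
          have a5 := h3.h5
          have a67 := h3.h67
          have a7 := h3.h7
          have al := h3.ml
          fin_cases j
          all_goals (simp only [Fin.zero_eta, Fin.mk_one, Fin.reduceFinMk]; omega)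
        rw [bi_pos h1, one_mul, fr_coe hle])
    (by
      have c1 : Continuous fun z : C(I, ℂ) × ℝ × (Option (Fin 8) → I) =>
          clsF D z.1 z.2.1 (z.2.2 none) fun k => z.2.2 (some k) := clsF_cont hD (by fun_prop) (by fun_prop) (by fun_prop)
        fun k => by fun_prop
      have c2 : Continuous fun z : C(I, ℂ) × ℝ × (Option (Fin 8) → I) => ordF fun k => z.2.2 (some k) := by
        unfold ordF
        have key : ∀ k : Option (Fin 8), Continuous fun z : C(I, ℂ) × ℝ × (Option (Fin 8) → I) => ((z.2.2 k : I) : ℝ) :=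
          fun k => continuous_subtype_val.comp ((continuous_apply k).comp (continuous_snd.comp continuous_snd))
        exact ((key _).sub (key _)).max ((key _).sub (key _))
      exact c1.max c2)
    (by
      filter_upwards [(wsy hU).hT, hU (eventually_ge_atTop 1)] with N hT hN x hx
      rw [hE] at hx
      obtain ⟨h1, ⟨_, _, h2⟩, h3⟩ := hx
      have hN' : (0 : ℝ) < N := by exact_mod_cast hN
      exact cls_sq hD hN' hT h3 (by omega))
    (by
      refine measure_mono_null (fun y hy => ?_) h0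
      obtain ⟨h1, h2⟩ := hy
      refine ⟨h1, ?_⟩
      rcases max_choice (clsF D y.2.2 y.1 (pji (muG y)) fun k => pji (Φ y k)) (ordF fun k => pji (Φ y k)) with h3 | h3
      · rw [← h3]
        exact h2
      · exfalso
        have h4 : clsF D y.2.2 y.1 (pji (muG y)) (fun k => pji (Φ y k)) ≤ 0 := (le_max_left _ _).trans_eq h2
        exact ord_ne hD h4 (by rw [← h3]; exact h2))
  refine ev_spt hC (B := k3S D B Φ) e2 ?_
  filter_upwards [G.dic, G.pos, hU (eventually_ge_atTop 1)] with N hd hp hN x hx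
  have hN' : (0 : ℝ) < N := by exact_mod_cast hN
  rw [hE]
  constructor
  · intro h
    obtain ⟨g1, g2⟩ := dec_mkc hD hN' h
    obtain ⟨q1, q2, q3⟩ := (hd x hx _ ⟨g2.A.far, g2.B.far⟩).1 g1
    rw [q2] at q3 g2
    exact ⟨⟨q1, hx, hp x hx q1⟩, q3, g2⟩
  · rintro ⟨⟨q1, -, -⟩, q3, q4⟩
    have g1 := (hd x hx (v N x) ⟨q4.A.far, q4.B.far⟩).2 ⟨q1, rfl, q3⟩
    exact (g1.dec q4).inC

/-- on the class the marks are the gates -/
lemma k3_mkc (hU : U ≤ atTop) (hD : D.Ok) (G : GIn U b PG D A v B Φ) : ∀ᶠ N : ℕ in U, ∀ x, Spt x →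
    x ∈ InC (D.C N (uT N)) (D.C' N (uT N)) (D.A N (uT N)) (D.B N (uT N)) →
      A N x ∧ mkc D N (uT N) x = v N x := by
  filter_upwards [G.dic, hU (eventually_ge_atTop 1)] with N hd hN x hx h
  have hN' : (0 : ℝ) < N := by exact_mod_cast hN
  obtain ⟨g1, g2⟩ := dec_mkc hD hN' h
  obtain ⟨q1, q2, q3⟩ := (hd x hx _ ⟨g2.A.far, g2.B.far⟩).1 g1
  exact ⟨q1, q2⟩

/-- **the marks have limits** -/
theorem k3_mk (hU : U ≤ atTop) (hC : Cv U (fun N => mwE N b) cN PG) (hP : ∀ᵐ y ∂PG, 0 < y.1) (hD : D.Ok)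
    (G : GIn U b PG D A v B Φ)
    (h0 : PG {y | y ∈ B ∧ clsF D y.2.2 y.1 (pji (muG y)) (fun k => pji (Φ y k)) = 0} = 0) (k : Fin 8) :
    Lm U (fun N => mwE N b) cN PG (fun N x => mkt D N (uT N) x k) fun y => bi (y ∈ k3S D B Φ) * Φ y k := by
  refine lm_spt hC ((k3_ev hU hC hP hD G h0).mul hC (G.tm k)) ⟨1, fun N x => ?_⟩ ?_
  · unfold mkt
    rw [abs_of_nonneg (by positivity)]
    rcases Nat.eq_zero_or_pos x.1.length with h1 | h1
    · rw [h1, Nat.cast_zero, div_zero]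
      exact zero_le_one
    · rw [div_le_one (by exact_mod_cast h1)]
      exact_mod_cast mkc_len D N (uT N) x k
  · filter_upwards [k3_mkc hU hD G] with N hN x hx
    by_cases h : x ∈ InC (D.C N (uT N)) (D.C' N (uT N)) (D.A N (uT N)) (D.B N (uT N))
    · obtain ⟨h1, h2⟩ := hN x hx h
      rw [bi_pos h, bi_pos h1, one_mul, one_mul]
      unfold mkt
      rw [h2]
    · rw [bi_neg h, zero_mul]
      unfold mkt
      rw [mkc_out h, Nat.cast_zero, zero_div]

end lim

end Pool.Agent.ROT.F3.CK
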