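import Pool.Agent.ROT.F3KRelR
import Pool.Agent.ROT.F3K3A

/-!
# ROT / F3KRelC (helper82): h5 and h6 of the joint marks, closed conditions, eight native and eight foreign times

`Dt` (helper71) = data of a class of closed curves with the roots `0` and `m`; times `u : Fin 8 → I` in the order cA(p), xA(p), xA(q),
cA(q), cB(q), xB(q), xB(p), cB(p).
* `CEv D g L m u` : all closed conditions of the class (`paiF`, `rsF`, `preK`, `reK`, order); `Dt.turn`, **`cev_rot`** : turned curves;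
* `FrE P i j g L u v` : the pieces `k` between the native times `u` and the foreign times `v`, the foreign gates over `x`;
* **`cev_up`** (h5) : lattice 0 ⟹ rotated lattice; **`cev_down`** (h6) : rotated lattice ⟹ lattice 0;
* `cev_of`, `CEv.F`, `CEv.K`, `CEv.ord` : the statistics `clsF`, `clsK`, `ordF` of helper2; **`clsF_up`**, **`clsF_down`**.
-/

set_option autoImplicit false

namespace Pool.Agent.ROT.F3

open ComplexConjugate unitInterval CK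

/-! ### 1. The closed conditions of a class -/

/-- closed conditions of a class of closed curves; `g` = curve, `L` = duration, `m` = time of the second root -/
structure CEv (D : Dt) (g : C(I, ℂ)) (L : ℝ) (m : I) (u : Fin 8 → I) : Prop where
  o1 : u 0 ≤ u 1
  o2 : u 1 ≤ u 2
  o3 : u 2 ≤ u 3
  o4 : u 3 ≤ m
  o5 : m ≤ u 4
  o6 : u 4 ≤ u 5
  o7 : u 5 ≤ u 6
  o8 : u 6 ≤ u 7
  p : paiF D.d D.d' (D.P.up D.y) (D.P.up D.y') g L 0 (u 0) (u 1) 1 (u 7) (u 6) ≤ 0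
  q : paiF D.t D.t' (D.Q.up D.z) (D.Q.up D.z') g L m (u 3) (u 2) m (u 4) (u 5) ≤ 0
  kA : preK D.d (D.P.up D.y) g 0 (u 0) (u 1) ≤ 0
  kB : preK D.d' (D.P.up D.y') g 1 (u 7) (u 6) ≤ 0
  kA' : preK D.t (D.Q.up D.z) g m (u 3) (u 2) ≤ 0
  kB' : preK D.t' (D.Q.up D.z') g m (u 4) (u 5) ≤ 0
  A : rsF D.d D.t D.P D.Q D.V g L (u 1) (u 2) ≤ 0
  B : rsF D.d' D.t' D.P D.Q D.V' g L (u 6) (u 5) ≤ 0
  rA : reK D.d D.P.rg g (u 1) (u 2) ≤ 0
  rA' : reK D.t D.Q.rg g (u 2) (u 1) ≤ 0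
  rB : reK D.d' D.P.rg g (u 6) (u 5) ≤ 0
  rB' : reK D.t' D.Q.rg g (u 5) (u 6) ≤ 0

/-- the data with turned directions -/
def _root_.Pool.Agent.ROT.F3.CK.Dt.turn (D : Dt) (w : ℂ) : Dt :=
  { D with d := w * D.d, d' := w * D.d', t := w * D.t, t' := w * D.t' }

/-- **turned curves** -/
theorem cev_rot {D : Dt} {g : C(I, ℂ)} {L : ℝ} {m : I} {u : Fin 8 → I} {z : ℂ} (hz : ‖z‖ = 1) :
    CEv D (z • g) L m u ↔ CEv (D.turn (conj z)) g L m u := by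
  constructor
  · intro h
    obtain ⟨o1, o2, o3, o4, o5, o6, o7, o8, p, q, kA, kB, kA', kB', A, B, rA, rA', rB, rB'⟩ := h
    rw [paiF_rot hz] at p q
    rw [preK_rot hz] at kA kB kA' kB'
    rw [rsF_rot hz] at A B
    rw [reK_rot hz] at rA rA' rB rB'
    exact ⟨o1, o2, o3, o4, o5, o6, o7, o8, p, q, kA, kB, kA', kB', A, B, rA, rA', rB, rB'⟩
  · intro h
    obtain ⟨o1, o2, o3, o4, o5, o6, o7, o8, p, q, kA, kB, kA', kB', A, B, rA, rA', rB, rB'⟩ := h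
    refine ⟨o1, o2, o3, o4, o5, o6, o7, o8, ?_, ?_, ?_, ?_, ?_, ?_, ?_, ?_, ?_, ?_, ?_, ?_⟩
    · rw [paiF_rot hz]; exact p
    · rw [paiF_rot hz]; exact q
    · rw [preK_rot hz]; exact kA
    · rw [preK_rot hz]; exact kB
    · rw [preK_rot hz]; exact kA'
    · rw [preK_rot hz]; exact kB'
    · rw [rsF_rot hz]; exact A
    · rw [rsF_rot hz]; exact B
    · rw [reK_rot hz]; exact rA
    · rw [reK_rot hz]; exact rA'
    · rw [reK_rot hz]; exact rB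
    · rw [reK_rot hz]; exact rB'

/-! ### 2. The foreign gates -/

/-- one piece `k` : times `x`, `c`, `z` (`c`, `z` the foreign gates over `x`) -/
structure FrK (d t : ℂ) (E : En) (g : C(I, ℂ)) (L : ℝ) (x c z : I) : Prop where
  f : FgI t E.f g x c z
  r : riK d g x z ≤ 0
  k : kcF d t E g L x c z ≤ 0

/-- **the pieces between the native times `u` and the foreign times `v`** -/
structure FrE (P : Prm) (i j : Fin 3) (g : C(I, ℂ)) (L : ℝ) (u v : Fin 8 → I) : Prop where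
  o1 : u 1 ≤ v 0
  o2 : v 0 ≤ v 1
  o3 : v 1 ≤ v 2
  o4 : v 2 ≤ v 3
  o5 : v 3 ≤ u 2
  o6 : u 5 ≤ v 4
  o7 : v 4 ≤ v 5
  o8 : v 5 ≤ v 6
  o9 : v 6 ≤ v 7
  o10 : v 7 ≤ u 6
  A : FrK (ev i) (P.u * ev i) P.p g L (u 1) (v 0) (v 1)
  B : FrK (ev j) (P.u * ev j) P.p g L (u 6) (v 7) (v 6)
  A' : FrK (ev (-i)) (P.u * ev (-i)) P.q g L (u 2) (v 3) (v 2)
  B' : FrK (ev (-j)) (P.u * ev (-j)) P.q g L (u 5) (v 4) (v 5)

/-- the foreign gates over `x` from gates over the tip `o`, threshold `l + level of x` -/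
lemma FgI.of_tip {t : ℂ} {P P' : Tp} {g : C(I, ℂ)} {o x c z : I} (h : GtI t P' g o c z) (ho : BtI o x c) (hm : P.m ≤ P'.m)
    (hl : P.l + lv t (g x - g o) ≤ lv t (g c - g o)) : FgI t P g x c z := by
  refine ⟨?_, hm.trans h.m, fun u hu => h.t1 u ?_, h.r, h.t2⟩
  · rw [lv_sub] at hl ⊢
    rw [lv_sub] at hl
    linarith
  · rcases ho with ⟨a1, a2⟩ | ⟨a1, a2⟩
    · have := hu.of_le a2
      exact Or.inl ⟨a1.trans this.1, this.2⟩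
    · have := hu.comm.of_le a1
      exact Or.inr ⟨this.1, this.2.trans a2⟩

section

variable {P : Prm} {i j : Fin 3} {W W' : Wn} {g : C(I, ℂ)} {L : ℝ} {m : I} {u v : Fin 8 → I} {y y' z z' : ℝ}

lemma ev_turn (hu : ‖P.u‖ = 1) (a : Fin 3) : ‖P.u * ev a - ev a‖ ≤ ‖P.u - 1‖ ∧ ‖P.u * ev a‖ = 1 := by
  have h : ‖ev a‖ = 1 := ev_norm a
  constructor
  · rw [show P.u * ev a - ev a = (P.u - 1) * ev a by ring, norm_mul, h, mul_one]
  · rw [norm_mul, hu, h, one_mul]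

lemma prm_hD (hP : P.Ok) : 2 * (P.p.f.r0 + P.q.f.r0) ≤ P.W.D0 ∧ 2 * (P.p.f.r0 + P.q.f.r0) ≤ P.Wc.D0 := by
  have h1 := hP.nr
  have h2 := hP.nrc
  have h3 := hP.p.bn
  have h4 := hP.q.bn
  have h5 := hP.p.len
  have h6 := hP.q.len
  have f1 : 0 ≤ P.p.f.r0 := by
    have := hP.p.f
    linarith [this.r, this.r2, this.g64, this.rr]
  have f2 : 0 ≤ P.q.f.r0 := by
    have := hP.q.f
    linarith [this.r, this.r2, this.g64, this.rr]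
  constructor <;> linarith

/-- **h5: the class of the rotated lattice** (directions turned by `u`), for the levels `y ..` with `f.l + y ≤` level of `c~` over the
root -/
theorem cev_up (hP : P.Ok) (hL : 0 ≤ L) (h : CEv (D0 P i j W W') g L m u) (hf : FrE P i j g L u v)
    (e1 : P.p.f.l + y ≤ lv (P.u * ev i) (g (v 0) - g 0)) (e2 : P.p.f.l + y' ≤ lv (P.u * ev j) (g (v 7) - g 1))
    (e3 : P.q.f.l + z ≤ lv (P.u * ev (-i)) (g (v 3) - g m)) (e4 : P.q.f.l + z' ≤ lv (P.u * ev (-j)) (g (v 4) - g m))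
    (A : rsF (P.u * ev i) (P.u * ev (-i)) P.p.f P.q.f W g L (v 1) (v 2) ≤ 0)
    (B : rsF (P.u * ev j) (P.u * ev (-j)) P.p.f P.q.f W' g L (v 6) (v 5) ≤ 0)
    (rA : reK (P.u * ev i) P.p.f.rg g (v 1) (v 2) ≤ 0) (rA' : reK (P.u * ev (-i)) P.q.f.rg g (v 2) (v 1) ≤ 0)
    (rB : reK (P.u * ev j) P.p.f.rg g (v 6) (v 5) ≤ 0) (rB' : reK (P.u * ev (-j)) P.q.f.rg g (v 5) (v 6) ≤ 0) :
    CEv ((DR P i j W W' y y' z z').turn P.u) g L m v := by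
  have t1 := ev_turn hP.u i
  have t2 := ev_turn hP.u j
  have t3 := ev_turn hP.u (-i)
  have t4 := ev_turn hP.u (-j)
  have n := ev_norm
  have p0 : paiF (ev i) (ev j) P.p.n P.p.n g L 0 (u 0) (u 1) 1 (u 7) (u 6) ≤ 0 := by
    have := h.p
    change paiF (ev i) (ev j) (P.p.n.up 0) (P.p.n.up 0) g L 0 (u 0) (u 1) 1 (u 7) (u 6) ≤ 0 at this
    rwa [Tp.up_zero] at this
  have q0 : paiF (ev (-i)) (ev (-j)) P.q.n P.q.n g L m (u 3) (u 2) m (u 4) (u 5) ≤ 0 := by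
    have := h.q
    change paiF (ev (-i)) (ev (-j)) (P.q.n.up 0) (P.q.n.up 0) g L m (u 3) (u 2) m (u 4) (u 5) ≤ 0 at this
    rwa [Tp.up_zero] at this
  have a1 : GtI (ev i) P.p.n g 0 (u 0) (u 1) := by
    have := h.kA
    change preK (ev i) (P.p.n.up 0) g 0 (u 0) (u 1) ≤ 0 at this
    rw [Tp.up_zero] at this
    exact (preK_iff (n i)).1 this
  have a2 : GtI (ev j) P.p.n g 1 (u 7) (u 6) := by
    have := h.kB
    change preK (ev j) (P.p.n.up 0) g 1 (u 7) (u 6) ≤ 0 at this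
    rw [Tp.up_zero] at this
    exact (preK_iff (n j)).1 this
  have a3 : GtI (ev (-i)) P.q.n g m (u 3) (u 2) := by
    have := h.kA'
    change preK (ev (-i)) (P.q.n.up 0) g m (u 3) (u 2) ≤ 0 at this
    rw [Tp.up_zero] at this
    exact (preK_iff (n _)).1 this
  have a4 : GtI (ev (-j)) P.q.n g m (u 4) (u 5) := by
    have := h.kB'
    change preK (ev (-j)) (P.q.n.up 0) g m (u 4) (u 5) ≤ 0 at this
    rw [Tp.up_zero] at this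
    exact (preK_iff (n _)).1 this
  have c1 : ChI 0 (u 0) (u 1) (v 0) (v 1) := Or.inl ⟨nonneg', h.o1, hf.o1, hf.o2⟩
  have c2 : ChI 1 (u 7) (u 6) (v 7) (v 6) := Or.inr ⟨hf.o9, hf.o10, h.o8, le_one'⟩
  have c3 : ChI m (u 3) (u 2) (v 3) (v 2) := Or.inr ⟨hf.o4, hf.o5, h.o3, h.o4⟩
  have c4 : ChI m (u 4) (u 5) (v 4) (v 5) := Or.inl ⟨h.o5, h.o6, hf.o6, hf.o7⟩
  obtain ⟨⟨b1, b2⟩, b3⟩ := paiF_up hP.p (n i) (n j) t1.2 t2.2 t1.1 t2.1 hL c1 c2 a1 a2 p0 hf.A.f hf.B.f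
    ((riK_iff (n _)).1 hf.A.r) ((riK_iff (n _)).1 hf.B.r) hf.A.k hf.B.k e1 e2
  obtain ⟨⟨b4, b5⟩, b6⟩ := paiF_up hP.q (n (-i)) (n (-j)) t3.2 t4.2 t3.1 t4.1 hL c3 c4 a3 a4 q0 hf.A'.f hf.B'.f
    ((riK_iff (n _)).1 hf.A'.r) ((riK_iff (n _)).1 hf.B'.r) hf.A'.k hf.B'.k e3 e4
  exact ⟨hf.o2, hf.o3, hf.o4, hf.o5.trans (h.o3.trans h.o4), h.o5.trans (h.o6.trans hf.o6), hf.o7, hf.o8, hf.o9, b3, b6,
    (preK_iff t1.2).2 b1, (preK_iff t2.2).2 b2, (preK_iff t3.2).2 b4, (preK_iff t4.2).2 b5, A, B, rA, rA', rB, rB'⟩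

/-- **h6: the class of the lattice 0** from the class of the rotated lattice and the closed conditions of its native gates and pieces
`k` (the sets `Ep`, `Eq` of connections) -/
theorem cev_down (hP : P.Ok) (hL : 0 ≤ L) (hW : W = P.W ∨ W = P.Wc) (hW' : W' = P.W ∨ W' = P.Wc)
    (h : CEv ((DR P i j W W' y y' z z').turn P.u) g L m v) (hf : FrE P i j g L u v)
    (o1 : u 0 ≤ u 1) (o3 : u 2 ≤ u 3) (o4 : u 3 ≤ m) (o5 : m ≤ u 4) (o6 : u 4 ≤ u 5) (o8 : u 6 ≤ u 7)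
    (p : paiF (ev i) (ev j) P.p.n P.p.n g L 0 (u 0) (u 1) 1 (u 7) (u 6) ≤ 0)
    (q : paiF (ev (-i)) (ev (-j)) P.q.n P.q.n g L m (u 3) (u 2) m (u 4) (u 5) ≤ 0)
    (kA : preK (ev i) P.p.n g 0 (u 0) (u 1) ≤ 0) (kB : preK (ev j) P.p.n g 1 (u 7) (u 6) ≤ 0)
    (kA' : preK (ev (-i)) P.q.n g m (u 3) (u 2) ≤ 0) (kB' : preK (ev (-j)) P.q.n g m (u 4) (u 5) ≤ 0) :
    CEv (D0 P i j W W') g L m u := by
  have t1 := ev_turn hP.u i
  have t2 := ev_turn hP.u j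
  have t3 := ev_turn hP.u (-i)
  have t4 := ev_turn hP.u (-j)
  have n := ev_norm
  have hD : 2 * (P.p.f.r0 + P.q.f.r0) ≤ W.D0 := by
    rcases hW with rfl | rfl
    · exact (prm_hD hP).1
    · exact (prm_hD hP).2
  have hD' : 2 * (P.p.f.r0 + P.q.f.r0) ≤ W'.D0 := by
    rcases hW' with rfl | rfl
    · exact (prm_hD hP).1
    · exact (prm_hD hP).2
  have lev : ∀ {d t : ℂ} {E : En} {x c w : I}, FrK d t E g L x c w → E.f.l + E.f.m ≤ lv t (g w - g x) := by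
    intro d t E x c w hk
    have e : g w - g x = (g c - g x) + (g w - g c) := by ring
    rw [e, lv_add]
    linarith [hk.f.l, hk.f.m]
  obtain ⟨⟨a1, a2⟩, a3⟩ := kak_F hP.p hP.q (n i) (n (-i)) t1.2 t3.2 t1.1 t3.1 hL
    (Or.inl ⟨hf.o1, hf.o2, hf.o3, hf.o4, hf.o5⟩) hf.A.r hf.A'.r hf.A.k hf.A'.k (lev hf.A) (lev hf.A') h.rA h.rA' h.A hD
  obtain ⟨⟨b1, b2⟩, b3⟩ := kak_F hP.p hP.q (n j) (n (-j)) t2.2 t4.2 t2.1 t4.1 hL
    (Or.inr ⟨hf.o6, hf.o7, hf.o8, hf.o9, hf.o10⟩) hf.B.r hf.B'.r hf.B.k hf.B'.k (lev hf.B) (lev hf.B') h.rB h.rB' h.B hD'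
  refine ⟨o1, hf.o1.trans (hf.o2.trans (hf.o3.trans (hf.o4.trans hf.o5))), o3, o4, o5, o6,
    hf.o6.trans (hf.o7.trans (hf.o8.trans (hf.o9.trans hf.o10))), o8, ?_, ?_, ?_, ?_, ?_, ?_, a3, b3, a1, a2, b1, b2⟩
  · show paiF (ev i) (ev j) (P.p.n.up 0) (P.p.n.up 0) g L 0 (u 0) (u 1) 1 (u 7) (u 6) ≤ 0
    rwa [Tp.up_zero]
  · show paiF (ev (-i)) (ev (-j)) (P.q.n.up 0) (P.q.n.up 0) g L m (u 3) (u 2) m (u 4) (u 5) ≤ 0
    rwa [Tp.up_zero]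
  · show preK (ev i) (P.p.n.up 0) g 0 (u 0) (u 1) ≤ 0
    rwa [Tp.up_zero]
  · show preK (ev j) (P.p.n.up 0) g 1 (u 7) (u 6) ≤ 0
    rwa [Tp.up_zero]
  · show preK (ev (-i)) (P.q.n.up 0) g m (u 3) (u 2) ≤ 0
    rwa [Tp.up_zero]
  · show preK (ev (-j)) (P.q.n.up 0) g m (u 4) (u 5) ≤ 0
    rwa [Tp.up_zero]

/-! ### 3. The statistics of helper2 -/

theorem cev_of {D : Dt} (o1 : u 0 ≤ u 1) (o2 : u 1 ≤ u 2) (o3 : u 2 ≤ u 3) (o4 : u 3 ≤ m) (o5 : m ≤ u 4) (o6 : u 4 ≤ u 5)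
    (o7 : u 5 ≤ u 6) (o8 : u 6 ≤ u 7) (hF : clsF D g L m u ≤ 0) (hK : clsK D g m u ≤ 0) : CEv D g L m u := by
  unfold clsF at hF
  unfold clsK at hK
  simp only [max_le_iff] at hF hK
  obtain ⟨⟨⟨p, q⟩, A, B⟩, -⟩ := hF
  obtain ⟨⟨⟨kA, kB⟩, kA', kB'⟩, ⟨rA, rA'⟩, rB, rB'⟩ := hK
  exact ⟨o1, o2, o3, o4, o5, o6, o7, o8, p, q, kA, kB, kA', kB', A, B, rA, rA', rB, rB'⟩

lemma balF_of_preK {d : ℂ} {P : Tp} {g : C(I, ℂ)} {a b c : I} (h : preK d P g a b c ≤ 0) : balF P.r P.r2 g a b c ≤ 0 := by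
  unfold preK at h
  unfold balF
  simp only [max_le_iff] at h
  exact max_le h.1.2 h.2.2.2

theorem CEv.F {D : Dt} (h : CEv D g L m u) : clsF D g L m u ≤ 0 := by
  have b1 : balF D.P.r D.P.r2 g 0 (u 0) (u 1) ≤ 0 := balF_of_preK (P := D.P.up D.y) h.kA
  have b2 : balF D.P.r D.P.r2 g 1 (u 7) (u 6) ≤ 0 := balF_of_preK (P := D.P.up D.y') h.kB
  have b3 : balF D.Q.r D.Q.r2 g m (u 3) (u 2) ≤ 0 := balF_of_preK (P := D.Q.up D.z) h.kA'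
  have b4 : balF D.Q.r D.Q.r2 g m (u 4) (u 5) ≤ 0 := balF_of_preK (P := D.Q.up D.z') h.kB'
  unfold clsF
  exact max_le (max_le (max_le h.p h.q) (max_le h.A h.B)) (max_le (max_le b1 b2) (max_le b3 b4))

theorem CEv.K {D : Dt} (h : CEv D g L m u) : clsK D g m u ≤ 0 := by
  unfold clsK
  exact max_le (max_le (max_le h.kA h.kB) (max_le h.kA' h.kB')) (max_le (max_le h.rA h.rA') (max_le h.rB h.rB'))

theorem CEv.ord {D : Dt} (h : CEv D g L m u) : ordF u ≤ 0 := by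
  have h1 : (u 1 : ℝ) ≤ u 2 := h.o2
  have h2 : (u 5 : ℝ) ≤ u 6 := h.o7
  unfold ordF
  exact max_le (by linarith) (by linarith)

/-- **h5 in the statistics of helper2**, the curve turned back -/
theorem clsF_up (hP : P.Ok) (hL : 0 ≤ L) (h : CEv (D0 P i j W W') g L m u) (hf : FrE P i j g L u v)
    (e1 : P.p.f.l + y ≤ lv (P.u * ev i) (g (v 0) - g 0)) (e2 : P.p.f.l + y' ≤ lv (P.u * ev j) (g (v 7) - g 1))
    (e3 : P.q.f.l + z ≤ lv (P.u * ev (-i)) (g (v 3) - g m)) (e4 : P.q.f.l + z' ≤ lv (P.u * ev (-j)) (g (v 4) - g m))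
    (A : rsF (P.u * ev i) (P.u * ev (-i)) P.p.f P.q.f W g L (v 1) (v 2) ≤ 0)
    (B : rsF (P.u * ev j) (P.u * ev (-j)) P.p.f P.q.f W' g L (v 6) (v 5) ≤ 0)
    (rA : reK (P.u * ev i) P.p.f.rg g (v 1) (v 2) ≤ 0) (rA' : reK (P.u * ev (-i)) P.q.f.rg g (v 2) (v 1) ≤ 0)
    (rB : reK (P.u * ev j) P.p.f.rg g (v 6) (v 5) ≤ 0) (rB' : reK (P.u * ev (-j)) P.q.f.rg g (v 5) (v 6) ≤ 0) :
    CEv (DR P i j W W' y y' z z') (P.u⁻¹ • g) L m v := by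
  have hu : ‖(P.u)⁻¹‖ = 1 := by rw [norm_inv, hP.u, inv_one]
  have hc : conj (P.u)⁻¹ = P.u := by
    rw [Complex.inv_def, map_mul, Complex.conj_conj, Complex.conj_ofReal, Complex.normSq_eq_norm_sq, hP.u]
    norm_num
  rw [cev_rot hu, hc]
  exact cev_up hP hL h hf e1 e2 e3 e4 A B rA rA' rB rB'

/-- **h6 in the statistics of helper2** -/
theorem clsF_down (hP : P.Ok) (hL : 0 ≤ L) (hW : W = P.W ∨ W = P.Wc) (hW' : W' = P.W ∨ W' = P.Wc)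
    (h : CEv (DR P i j W W' y y' z z') (P.u⁻¹ • g) L m v) (hf : FrE P i j g L u v)
    (o1 : u 0 ≤ u 1) (o3 : u 2 ≤ u 3) (o4 : u 3 ≤ m) (o5 : m ≤ u 4) (o6 : u 4 ≤ u 5) (o8 : u 6 ≤ u 7)
    (p : paiF (ev i) (ev j) P.p.n P.p.n g L 0 (u 0) (u 1) 1 (u 7) (u 6) ≤ 0)
    (q : paiF (ev (-i)) (ev (-j)) P.q.n P.q.n g L m (u 3) (u 2) m (u 4) (u 5) ≤ 0)
    (kA : preK (ev i) P.p.n g 0 (u 0) (u 1) ≤ 0) (kB : preK (ev j) P.p.n g 1 (u 7) (u 6) ≤ 0)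
    (kA' : preK (ev (-i)) P.q.n g m (u 3) (u 2) ≤ 0) (kB' : preK (ev (-j)) P.q.n g m (u 4) (u 5) ≤ 0) :
    CEv (D0 P i j W W') g L m u := by
  have hu : ‖(P.u)⁻¹‖ = 1 := by rw [norm_inv, hP.u, inv_one]
  have hc : conj (P.u)⁻¹ = P.u := by
    rw [Complex.inv_def, map_mul, Complex.conj_conj, Complex.conj_ofReal, Complex.normSq_eq_norm_sq, hP.u]
    norm_num
  rw [cev_rot hu, hc] at h
  exact cev_down hP hL hW hW' h hf o1 o3 o4 o5 o6 o8 p q kA kB kA' kB'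

end

end Pool.Agent.ROT.F3
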