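import Pool.Agent.ROT.F3K3S
import Pool.Agent.ROT.F3KRelC
import Pool.Agent.ROT.F3CorMid

/-!
# ROT / F3JmD (helper82): the literals of the joint marks `Jm` of one pair `(i, j)` of classes (D47, D48)

`Ga` : gates of the four arms of the closed curves (existence, times of `c` and `x` in units of the arm: input of `AIn`, helper4);
`Ga.t8` : the eight times (`phi8_t8`), `Ga.ic`, `Ga.ix` : times of one arm as points of the curve; `Ga.rot` : gates of the turned curve.
`G0` = native gates of the lattice 0, `H` = gates of the rotated lattice at the functional levels in the frame of the rotated lattice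
(words), `H.rot P.u` = the same on the curves of the lattice 0.
* `FgZ` : the foreign gates of one arm with all the conditions at this end, read to any END `z`; `FgS` : `z` = the end `x'` of the
  rest (D48);
  `ArW` : order and windows of the arc; **`jF1`, `jF2`**;
* `NgS` : the native gates of one arm with the piece up to `x~`; `WdS` : wedge; **`jEp`, `jEq`**;
* **`jw0`, `jT`** : weight and marks of the lattice 0 (`k3S` of helper2); **`jwR`, `jS`** : of the rotated lattice; **`jSF`, `jTF`**.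
-/

set_option autoImplicit false

noncomputable section

namespace Pool.Agent.ROT.F3.CK

open MeasureTheory Set unitInterval

open scoped ENNReal Classical

open Pool.Agent.ROT.F3 Pool.Agent.ROT.F3.LF

/-! ### 1. Gates of the four arms -/

/-- **gates of the four arms**: existence, times of `c` and `x` in units of the arm -/
structure Ga where
  B : Arm → Set CC.Gm
  c : Arm → CC.Gm → ℝ
  x : Arm → CC.Gm → ℝ

/-- the inputs are measurable -/
structure Ga.Ms (G : Ga) : Prop where
  B : ∀ k, MeasurableSet (G.B k)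
  c : ∀ k, Measurable (G.c k)
  x : ∀ k, Measurable (G.x k)

/-- time in the closed curve of the time `s` of the arm `k` -/
def tAt (k : Arm) (g : CC.Gm) (s : ℝ) : ℝ :=
  match k with
  | .fp => s * muG g
  | .bq => muG g - s * muG g
  | .fq => muG g + s * (1 - muG g)
  | .bp => 1 - s * (1 - muG g)

/-- time of `c` -/
def Ga.tc (G : Ga) (k : Arm) (g : CC.Gm) : ℝ := tAt k g (G.c k g)
/-- time of `x` -/
def Ga.tx (G : Ga) (k : Arm) (g : CC.Gm) : ℝ := tAt k g (G.x k g)
/-- time of `c` as a point of the curve -/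
def Ga.ic (G : Ga) (k : Arm) (g : CC.Gm) : I := pji (G.tc k g)
/-- time of `x` as a point of the curve -/
def Ga.ix (G : Ga) (k : Arm) (g : CC.Gm) : I := pji (G.tx k g)

/-- **the eight times** cA(p), xA(p), xA(q), cA(q), cB(q), xB(q), xB(p), cB(p) -/
def Ga.t8 (G : Ga) (g : CC.Gm) : Fin 8 → ℝ :=
  ![G.tc .fp g, G.tx .fp g, G.tx .bq g, G.tc .bq g, G.tc .fq g, G.tx .fq g, G.tx .bp g, G.tc .bp g]

/-- the marks of helper4 -/
lemma phi8_t8 (G : Ga) (g : CC.Gm) (k : Fin 8) : phi8 G.B G.c G.x g k = bi (g ∈ ⋂ a, G.B a) * G.t8 g k := by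
  fin_cases k <;> rfl

/-- **gates of the turned curve** -/
def Ga.rot (G : Ga) (z : ℂ) : Ga :=
  ⟨fun k => {g | rotX z⁻¹ g ∈ G.B k}, fun k g => G.c k (rotX z⁻¹ g), fun k g => G.x k (rotX z⁻¹ g)⟩

/-! ### 2. Arms -/

/-- the other end of the strand -/
def oppA : Arm → Arm
  | .fp => .bq
  | .bq => .fp
  | .fq => .bp
  | .bp => .fq

/-- class of the strand of the arm -/
def clA (i j : Fin 3) : Arm → Fin 3
  | .fp => i
  | .bq => i
  | .fq => j
  | .bp => j

/-- direction of the arm (lattice 0) -/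
def dirA (i j : Fin 3) : Arm → ℂ
  | .fp => ev i
  | .bq => ev (-i)
  | .fq => ev (-j)
  | .bp => ev j

/-- data of the end of the arm -/
def endA (P : Prm) : Arm → En
  | .fp => P.p
  | .bq => P.q
  | .fq => P.q
  | .bp => P.p

/-- the root of the arm -/
def rtA (k : Arm) (g : CC.Gm) : I :=
  match k with
  | .fp => 0
  | .bq => pji (muG g)
  | .fq => pji (muG g)
  | .bp => 1

/-- order in the reading direction of the arm -/
def leA (k : Arm) (a b : I) : Prop :=
  match k with
  | .fp => a ≤ b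
  | .bq => b ≤ a
  | .fq => a ≤ b
  | .bp => b ≤ a

/-- window of the arcs of the class `a` -/
def wnA (P : Prm) (a : Fin 3) : Wn := if a = 0 then P.W else P.Wc

/-- windows of an arc (the part of `rsF` which reads both ends) -/
def wiF (W : Wn) (g : C(I, ℂ)) (L : ℝ) (a b : I) : ℝ :=
  max (max (W.D0 - ‖cutc g a b 1‖) (‖cutc g a b 1‖ - W.D1)) (max (duL W.t0 L a b) (duU W.t1 L a b))

/-! ### 3. The foreign gates over the gates `x` of the lattice 0 -/

/-- **the foreign gates of the arm `k`** with all the conditions at this end, the arm is read to the point `z` (the END); `GR` = gates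
of the rotated lattice at the functional levels, on the curves of the lattice 0; main arcs: class `0` -/
structure FgZ (P : Prm) (i j : Fin 3) (G0 GR : Ga) (k : Arm) (g : CC.Gm) (z : I) : Prop where
  e : g ∈ GR.B k
  o1 : leA k (G0.ix k g) (GR.ic k g)
  o2 : leA k (GR.ic k g) (GR.ix k g)
  o3 : leA k (GR.ix k g) z
  ri : riK (dirA i j k) g.2.2 (G0.ix k g) (GR.ix k g) ≤ 0
  kc : kcF (dirA i j k) (P.u * dirA i j k) (endA P k) g.2.2 g.1 (G0.ix k g) (GR.ic k g) (GR.ix k g) ≤ 0
  re : reK (P.u * dirA i j k) (endA P k).f.rg g.2.2 (GR.ix k g) z ≤ 0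
  ra : stS (fRa (P.u * dirA i j k) (endA P k).f.c (endA P k).f.r0) (cutc g.2.2 (GR.ix k g) z) ≤ (endA P k).f.κ
  nr : clA i j k = 0 → nrF (P.u * dirA i j k) (endA P k).s g.2.2 (GR.ix k g) z ≤ 0

/-- **the foreign gates of the arm `k`**, the rest is read to its END `x'` (D48) -/
abbrev FgS (P : Prm) (i j : Fin 3) (G0 GR : Ga) (k : Arm) (g : CC.Gm) : Prop := FgZ P i j G0 GR k g (G0.ix (oppA k) g)

/-- **order and windows of the arc** between the foreign gates of the two ends, read from the arm `k` -/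
structure ArW (P : Prm) (i j : Fin 3) (GR : Ga) (k : Arm) (g : CC.Gm) : Prop where
  o : leA k (GR.ix k g) (GR.ix (oppA k) g)
  w : wiF (wnA P (clA i j k)) g.2.2 g.1 (GR.ix k g) (GR.ix (oppA k) g) ≤ 0

/-- **the strand A has the foreign gates** -/
def jF1 (P : Prm) (i j : Fin 3) (G0 H : Ga) : Set CC.Gm :=
  {g | FgS P i j G0 (H.rot P.u) .fp g ∧ FgS P i j G0 (H.rot P.u) .bq g ∧ ArW P i j (H.rot P.u) .fp g}

/-- **the strand B has the foreign gates** -/
def jF2 (P : Prm) (i j : Fin 3) (G0 H : Ga) : Set CC.Gm :=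
  {g | FgS P i j G0 (H.rot P.u) .bp g ∧ FgS P i j G0 (H.rot P.u) .fq g ∧ ArW P i j (H.rot P.u) .bp g}

/-! ### 4. The native gates of the connections -/

/-- **the native gates of the arm `k` with the piece up to `x~`** -/
structure NgS (P : Prm) (i j : Fin 3) (G0 GR : Ga) (k : Arm) (g : CC.Gm) : Prop where
  e : g ∈ G0.B k
  o1 : leA k (rtA k g) (G0.ic k g)
  o2 : leA k (G0.ic k g) (G0.ix k g)
  o3 : leA k (G0.ix k g) (GR.ic k g)
  o4 : leA k (GR.ic k g) (GR.ix k g)
  pf : preF (dirA i j k) (endA P k).n g.2.2 g.1 (rtA k g) (G0.ic k g) (G0.ix k g) ≤ 0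
  pk : preK (dirA i j k) (endA P k).n g.2.2 (rtA k g) (G0.ic k g) (G0.ix k g) ≤ 0
  ri : riK (dirA i j k) g.2.2 (G0.ix k g) (GR.ix k g) ≤ 0
  kc : kcF (dirA i j k) (P.u * dirA i j k) (endA P k) g.2.2 g.1 (G0.ix k g) (GR.ic k g) (GR.ix k g) ≤ 0

/-- wedge: the piece root .. `c` of the arm `k`, `k'` = the other arm at this root -/
def WdS (P : Prm) (i j : Fin 3) (G0 : Ga) (k k' : Arm) (g : CC.Gm) : Prop :=
  wdF (dirA i j k') (dirA i j k) (endA P k).n.w (endA P k).n.cs (endA P k).n.κs g.2.2 (rtA k g) (G0.ic k g) ≤ 0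

/-- **the connection at `p` has the native gates** -/
def jEp (P : Prm) (i j : Fin 3) (G0 H : Ga) : Set CC.Gm :=
  {g | NgS P i j G0 (H.rot P.u) .fp g ∧ NgS P i j G0 (H.rot P.u) .bp g ∧ WdS P i j G0 .fp .bp g ∧ WdS P i j G0 .bp .fp g}

/-- **the connection at `q` has the native gates** -/
def jEq (P : Prm) (i j : Fin 3) (G0 H : Ga) : Set CC.Gm :=
  {g | NgS P i j G0 (H.rot P.u) .bq g ∧ NgS P i j G0 (H.rot P.u) .fq g ∧ WdS P i j G0 .bq .fq g ∧ WdS P i j G0 .fq .bq g}

/-! ### 5. Weights and marks -/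

/-- data of the lattice 0 -/
def jD0 (P : Prm) (i j : Fin 3) : Dt := D0 P i j (wnA P i) (wnA P j)

/-- data of the rotated lattice (the statistics do not see the levels) -/
def jDR (P : Prm) (i j : Fin 3) : Dt := DR P i j (wnA P i) (wnA P j) 0 0 0 0

/-- the marks of the lattice 0 -/
def jT (G0 : Ga) : CC.Gm → Fin 8 → ℝ := fun g k => phi8 G0.B G0.c G0.x g k

/-- the limit class of the lattice 0 -/
def jK0 (P : Prm) (i j : Fin 3) (G0 : Ga) : Set CC.Gm := k3S (jD0 P i j) (⋂ k, G0.B k) (phi8 G0.B G0.c G0.x)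

/-- **the weight of the lattice 0** -/
def jw0 (P : Prm) (i j : Fin 3) (G0 : Ga) : CC.Gm → ℝ≥0∞ := fun g => ENNReal.ofReal (bi (g ∈ jK0 P i j G0))

/-- the limit class of the rotated lattice, in its frame; main arcs for `i = 0` -/
def jKR (P : Prm) (i j : Fin 3) (H : Ga) : Set CC.Gm :=
  if i = 0 then
    k3S (jDR P i j) (⋂ k, H.B k) (phi8 H.B H.c H.x) ∩
      {y | max (nrF (jDR P i j).d P.p.s y.2.2 (pji (phi8 H.B H.c H.x y 1)) (pji (phi8 H.B H.c H.x y 2)))
        (nrF (jDR P i j).t P.q.s y.2.2 (pji (phi8 H.B H.c H.x y 2)) (pji (phi8 H.B H.c H.x y 1))) ≤ 0}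
  else k3S (jDR P i j) (⋂ k, H.B k) (phi8 H.B H.c H.x)

/-- **the weight of the rotated lattice** -/
def jwR (P : Prm) (i j : Fin 3) (H : Ga) : CC.Gm → ℝ≥0∞ := fun g => ENNReal.ofReal (bi (rotX P.u⁻¹ g ∈ jKR P i j H))

/-- the marks of the rotated lattice -/
def jS (P : Prm) (H : Ga) : CC.Gm → Fin 8 → ℝ := fun g k => phi8 H.B H.c H.x (rotX P.u⁻¹ g) k

/-- **the foreign marks** -/
def jSF (P : Prm) (H : Ga) : CC.Gm → CC.M4 := fun g => CC.m4 ((H.rot P.u).t8 g)

/-- **the native marks of the connections** -/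
def jTF (G0 : Ga) : CC.Gm → CC.M4 := fun g => CC.m4 (G0.t8 g)

end Pool.Agent.ROT.F3.CK
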