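import Pool.Agent.ROT.F3CoreVF

/-!
# ROT, F3 (helper42): the conditions of the foreign gates of one strand, end by end

One strand: times `a` = `x`, `b` = `c~`, `c` = `x~` at the end `p`, `a'` = `x'`, `b'` = `c~'`, `c'` = `x~'` at the end `q`, order `O6`.

* **`FpC d t E mn g L a b c z`** : ALL conditions at one end; `z` = the other NATIVE mark, the end of the rest (never the other foreign
  mark); `mn` = main arcs (strip and no return);
* **`WdC W g L c c'`** : the windows of the arc;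
* **`fp_iff`** : both ends and the windows ↔ the statistics `kcF, reK, rsF (nrF)` at the marks `(c, c')`;
* **`fp_vt`** : then (rest, relative times) is in `VT`;
* **`winR_arc`** : the windows of the rest give the windows of the arc.
-/

set_option autoImplicit false

open unitInterval Set

namespace Pool.Agent.ROT.F3

open Pool.Agent.ROT.F3.CC

/-! ### 1. The literals -/

/-- **the conditions at one end of a strand**: `d` = native direction, `t` = foreign direction, `a` = `x`, `b` = `c~`, `c` = `x~`,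
`z` = the other native mark -/
structure FpC (d t : ℂ) (E : En) (mn : Prop) (g : C(I, ℂ)) (L : ℝ) (a b c z : I) : Prop where
  /-- the piece `x` .. `x~` -/
  k : kcF d t E g L a b c ≤ 0
  /-- cone of the rest of the strand -/
  ra : stS (fRa t E.f.c E.f.r0) (cutc g c z) ≤ E.f.κ
  /-- right of the level of `x~` in the ball `f.rg` -/
  re : reK t E.f.rg g c z ≤ 0
  /-- main arcs: strip and no return -/
  nr : mn → nrF t E.s g c z ≤ 0

/-- **the windows of the arc** -/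
structure WdC (W : Wn) (g : C(I, ℂ)) (L : ℝ) (c c' : I) : Prop where
  d0 : W.D0 ≤ ‖cutc g c c' 1‖
  d1 : ‖cutc g c c' 1‖ ≤ W.D1
  t0 : duL W.t0 L c c' ≤ 0
  t1 : duU W.t1 L c c' ≤ 0

/-! ### 2. No return, point by point -/

section

variable {d d' t t' : ℂ} {E E' : En} {W : Wn} {mn : Prop} {g : C(I, ℂ)} {L : ℝ} {a b c a' b' c' z z' : I}

/-- closed form of `nrF ≤ 0` -/
def NrI (t : ℂ) (s : Sr) (g : C(I, ℂ)) (c z : I) : Prop :=
  ∃ τ, BtI c τ z ∧ (∀ u, BtI c u τ → fSt t s.e s.len s.hw (g u - g c) ≤ 0) ∧ ∀ u, BtI τ u z → fBn s.bn (g u - g c) ≤ 0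

private lemma cvx_le {a b s s' : I} (h : a ≤ b) (hs : s ≤ s') : cvx a b s ≤ cvx a b s' := by
  have h1 : (a : ℝ) ≤ b := h
  have h2 : (s : ℝ) ≤ s' := hs
  show (1 - (s : ℝ)) * a + s * b ≤ (1 - (s' : ℝ)) * a + s' * b
  nlinarith

private lemma cvx_ge {a b s s' : I} (h : b ≤ a) (hs : s ≤ s') : cvx a b s' ≤ cvx a b s := by
  have h1 : (b : ℝ) ≤ a := h
  have h2 : (s : ℝ) ≤ s' := hs
  show (1 - (s' : ℝ)) * a + s' * b ≤ (1 - (s : ℝ)) * a + s * b
  nlinarith

private lemma cvx_bt (a b s : I) : BtI a (cvx a b s) b := by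
  rcases le_total a b with h | h
  · left
    have h1 := cvx_le h (nonneg' : (0 : I) ≤ s)
    have h2 := cvx_le h (le_one' : s ≤ 1)
    rw [cvx_zero] at h1
    rw [cvx_one] at h2
    exact ⟨h1, h2⟩
  · right
    have h1 := cvx_ge h (nonneg' : (0 : I) ≤ s)
    have h2 := cvx_ge h (le_one' : s ≤ 1)
    rw [cvx_zero] at h1
    rw [cvx_one] at h2
    exact ⟨h2, h1⟩

/-- every point between `a ≠ b` is `cvx a b s`, monotone in both directions -/
private lemma ex_cvx {a b u : I} (h : BtI a u b) : ∃ s, cvx a b s = u := by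
  rcases eq_or_ne a b with rfl | hne
  · refine ⟨0, ?_⟩
    rw [cvx_zero]
    rcases h with ⟨h1, h2⟩ | ⟨h1, h2⟩
    · exact le_antisymm h1 h2
    · exact le_antisymm h1 h2
  · have hne' : (a : ℝ) ≠ b := fun h => hne (Subtype.ext h)
    have hz : (b : ℝ) - a ≠ 0 := fun h => hne' (by linarith)
    refine ⟨⟨((u : ℝ) - a) / (b - a), div_mem hne' ?_⟩, ?_⟩
    · rcases h with ⟨h1, h2⟩ | ⟨h1, h2⟩
      · have q1 : (a : ℝ) ≤ u := h1
        have q2 : (u : ℝ) ≤ b := h2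
        rw [uIcc_of_le (q1.trans q2)]
        exact ⟨q1, q2⟩
      · have q1 : (b : ℝ) ≤ u := h1
        have q2 : (u : ℝ) ≤ a := h2
        rw [uIcc_of_ge (q1.trans q2)]
        exact ⟨q1, q2⟩
    · refine Subtype.ext ?_
      show (1 - ((u : ℝ) - a) / (b - a)) * a + ((u : ℝ) - a) / (b - a) * b = u
      field_simp
      ring

private lemma bt_le {a b s s' : I} (hs : s ≤ s') : BtI a (cvx a b s) (cvx a b s') := by
  rcases le_total a b with h | h
  · exact Or.inl ⟨((cvx_bt a b s).of_le h).1, cvx_le h hs⟩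
  · exact Or.inr ⟨cvx_ge h hs, ((cvx_bt a b s).comm.of_le h).2⟩

private lemma bt_ge {a b s s' : I} (hs : s ≤ s') : BtI (cvx a b s) (cvx a b s') b := by
  rcases le_total a b with h | h
  · exact Or.inl ⟨cvx_le h hs, ((cvx_bt a b s').of_le h).2⟩
  · exact Or.inr ⟨((cvx_bt a b s').comm.of_le h).1, cvx_ge h hs⟩

/-- the points of the two parts of a piece -/
private lemma cvx_of_bt {a b τ u : I} : (BtI a u (cvx a b τ) → ∃ s, s ≤ τ ∧ cvx a b s = u) ∧
    (BtI (cvx a b τ) u b → ∃ s, τ ≤ s ∧ cvx a b s = u) := by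
  rcases lt_trichotomy a b with hab | rfl | hab
  · have mono : ∀ s s' : I, cvx a b s ≤ cvx a b s' → s ≤ s' := by
      intro s s' h
      have h1 : (a : ℝ) < b := hab
      have h2 : (1 - (s : ℝ)) * a + s * b ≤ (1 - (s' : ℝ)) * a + s' * b := h
      have h3 : (s : ℝ) * (b - a) ≤ s' * (b - a) := by linarith
      have h4 : (s : ℝ) ≤ s' := le_of_mul_le_mul_right h3 (by linarith)
      exact h4
    constructor
    · intro h
      have hb : BtI a u b := by
        have h1 := h.of_le ((cvx_bt a b τ).of_le hab.le).1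
        exact Or.inl ⟨h1.1, h1.2.trans ((cvx_bt a b τ).of_le hab.le).2⟩
      obtain ⟨s, hs⟩ := ex_cvx hb
      refine ⟨s, mono _ _ ?_, hs⟩
      rw [hs]
      exact (h.of_le ((cvx_bt a b τ).of_le hab.le).1).2
    · intro h
      have hb : BtI a u b := by
        have h1 := h.of_le ((cvx_bt a b τ).of_le hab.le).2
        exact Or.inl ⟨((cvx_bt a b τ).of_le hab.le).1.trans h1.1, h1.2⟩
      obtain ⟨s, hs⟩ := ex_cvx hb
      refine ⟨s, mono _ _ ?_, hs⟩
      rw [hs]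
      exact (h.of_le ((cvx_bt a b τ).of_le hab.le).2).1
  · have e : ∀ s, cvx a a s = a := fun s => by
      rcases cvx_bt a a s with h | h
      · exact le_antisymm h.2 h.1
      · exact le_antisymm h.2 h.1
    constructor
    · intro h
      refine ⟨τ, le_rfl, ?_⟩
      rw [e] at h ⊢
      rcases h with h | h
      · exact le_antisymm h.1 h.2
      · exact le_antisymm h.1 h.2
    · intro h
      refine ⟨τ, le_rfl, ?_⟩
      rw [e] at h ⊢
      rcases h with h | h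
      · exact le_antisymm h.1 h.2
      · exact le_antisymm h.1 h.2
  · have mono : ∀ s s' : I, cvx a b s' ≤ cvx a b s → s ≤ s' := by
      intro s s' h
      have h1 : (b : ℝ) < a := hab
      have h2 : (1 - (s' : ℝ)) * a + s' * b ≤ (1 - (s : ℝ)) * a + s * b := h
      have h3 : (s : ℝ) * (a - b) ≤ s' * (a - b) := by linarith
      have h4 : (s : ℝ) ≤ s' := le_of_mul_le_mul_right h3 (by linarith)
      exact h4
    have hτ := (cvx_bt a b τ).comm.of_le hab.le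
    constructor
    · intro h
      have h1 := h.comm.of_le hτ.2
      obtain ⟨s, hs⟩ := ex_cvx (a := a) (b := b) (u := u) (Or.inr ⟨hτ.1.trans h1.1, h1.2⟩)
      refine ⟨s, mono _ _ ?_, hs⟩
      rw [hs]
      exact h1.1
    · intro h
      have h1 := h.comm.of_le hτ.1
      obtain ⟨s, hs⟩ := ex_cvx (a := a) (b := b) (u := u) (Or.inr ⟨h1.1, h1.2.trans hτ.2⟩)
      refine ⟨s, mono _ _ ?_, hs⟩
      rw [hs]
      exact h1.2

theorem nrF_iff (ht : ‖t‖ = 1) {s : Sr} : nrF t s g c z ≤ 0 ↔ NrI t s g c z := by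
  unfold nrF NrI
  rw [stN_iff (fSt_lip ht).continuous fBn_lip.continuous]
  constructor
  · rintro ⟨τ, h1, h2⟩
    refine ⟨cvx c z τ, cvx_bt _ _ _, fun u hu => ?_, fun u hu => ?_⟩
    · obtain ⟨s', hs, rfl⟩ := cvx_of_bt.1 hu
      exact h1 s' hs
    · obtain ⟨s', hs, rfl⟩ := cvx_of_bt.2 hu
      exact h2 s' hs
  · rintro ⟨τ, hτ, h1, h2⟩
    obtain ⟨τ', rfl⟩ := ex_cvx hτ
    exact ⟨τ', fun s' hs => h1 _ (bt_le hs), fun s' hs => h2 _ (bt_ge hs)⟩

/-! ### 3. The two forms -/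

/-- the piece `x` .. `x~` is in the ball `E.k` about `x` -/
private lemma kcb {g : C(I, ℂ)} (hk : kcF d t E g L a b c ≤ 0) (hb : BtI a b c) {u : I} (hu : BtI a u c) (hr2 : 0 ≤ E.f.r2) :
    ‖g u - g a‖ ≤ E.k := by
  unfold kcF at hk
  simp only [max_le_iff] at hk
  obtain ⟨⟨⟨h1, h2⟩, -, -⟩, -, -⟩ := hk
  rw [stS_bt continuous_norm] at h1 h2
  show _ ≤ E.rk + E.f.r2
  have hcase : BtI a u b ∨ BtI b u c := by
    rcases hb with ⟨x1, x2⟩ | ⟨x1, x2⟩
    · have := hu.of_le (x1.trans x2)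
      rcases le_total u b with h' | h'
      · exact Or.inl (Or.inl ⟨this.1, h'⟩)
      · exact Or.inr (Or.inl ⟨h', this.2⟩)
    · have := hu.comm.of_le (x1.trans x2)
      rcases le_total b u with h' | h'
      · exact Or.inl (Or.inr ⟨h', this.2⟩)
      · exact Or.inr (Or.inr ⟨this.1, h'⟩)
  rcases hcase with h' | h'
  · linarith [h1 u h']
  · have h3 := h2 u h'
    have hbb : BtI a b b := by
      rcases hb with ⟨x1, x2⟩ | ⟨x1, x2⟩
      · exact Or.inl ⟨x1, le_rfl⟩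
      · exact Or.inr ⟨le_rfl, x2⟩
    have h4 := h1 b hbb
    have h5 := norm_add_le (g u - g b) (g b - g a)
    rw [sub_add_sub_cancel] at h5
    linarith

/-- order of the marks: sub-pieces -/
lemma o6_sub (h : O6 a b c c' b' a') : BtI a b c ∧ BtI a' b' c' ∧ BtI c c' a' ∧ BtI c' c a ∧ BtI a c a' ∧ BtI a c' a' := by
  rcases h with ⟨h1, h2, h3, h4, h5⟩ | ⟨h1, h2, h3, h4, h5⟩
  · exact ⟨Or.inl ⟨h1, h2⟩, Or.inr ⟨h4, h5⟩, Or.inl ⟨h3, h4.trans h5⟩, Or.inr ⟨h1.trans h2, h3⟩,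
      Or.inl ⟨h1.trans h2, h3.trans (h4.trans h5)⟩, Or.inl ⟨h1.trans (h2.trans h3), h4.trans h5⟩⟩
  · exact ⟨Or.inr ⟨h4, h5⟩, Or.inl ⟨h1, h2⟩, Or.inr ⟨h1.trans h2, h3⟩, Or.inl ⟨h3, h4.trans h5⟩,
      Or.inr ⟨h1.trans (h2.trans h3), h4.trans h5⟩, Or.inr ⟨h1.trans h2, h3.trans (h4.trans h5)⟩⟩

lemma o6_symm (h : O6 a b c c' b' a') : O6 a' b' c' c b a := h.symm

private lemma bt_trans {x y z u : I} (h : BtI x y z) (hu : BtI x u y) : BtI x u z := by
  rcases h with ⟨h1, h2⟩ | ⟨h1, h2⟩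
  · have := hu.of_le h1
    exact Or.inl ⟨this.1, this.2.trans h2⟩
  · have := hu.comm.of_le h2
    exact Or.inr ⟨h1.trans this.1, this.2⟩

private lemma bt_split {x y z u : I} (h : BtI x y z) (hu : BtI x u z) : BtI x u y ∨ BtI y u z := by
  rcases h with ⟨h1, h2⟩ | ⟨h1, h2⟩
  · have := hu.of_le (h1.trans h2)
    rcases le_total u y with h' | h'
    · exact Or.inl (Or.inl ⟨this.1, h'⟩)
    · exact Or.inr (Or.inl ⟨h', this.2⟩)
  · have := hu.comm.of_le (h1.trans h2)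
    rcases le_total y u with h' | h'
    · exact Or.inl (Or.inr ⟨h', this.2⟩)
    · exact Or.inr (Or.inr ⟨this.1, h'⟩)

/-- sub-pieces of the no return condition -/
lemma NrI.sub {s : Sr} (h : NrI t s g c z) (hz : BtI c z' z) (hf : s.bn ≤ ‖g z' - g c‖) : NrI t s g c z' := by
  obtain ⟨τ, hτ, h1, h2⟩ := h
  rcases bt_split hz hτ with h3 | h3
  · exact ⟨τ, h3, h1, fun u hu => h2 u (by
      -- `τ .. u .. z'` is in `τ .. z`
      rcases hz with ⟨x1, x2⟩ | ⟨x1, x2⟩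
      · have y1 := h3.of_le x1
        have y2 := hu.of_le y1.2
        exact Or.inl ⟨y2.1, y2.2.trans x2⟩
      · have y1 := h3.comm.of_le x2
        have y2 := hu.comm.of_le y1.1
        exact Or.inr ⟨x1.trans y2.1, y2.2⟩)⟩
  · refine ⟨z', ?_, fun u hu => h1 u ?_, fun u hu => ?_⟩
    · rcases hz with ⟨x1, x2⟩ | ⟨x1, x2⟩
      · exact Or.inl ⟨x1, le_rfl⟩
      · exact Or.inr ⟨le_rfl, x2⟩
    · -- `c .. u .. z'` is in `c .. τ`
      rcases hz with ⟨x1, x2⟩ | ⟨x1, x2⟩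
      · have y1 := h3.of_le x2
        have y2 := hu.of_le x1
        exact Or.inl ⟨y2.1, y2.2.trans y1.1⟩
      · have y1 := h3.comm.of_le x1
        have y2 := hu.comm.of_le x2
        exact Or.inr ⟨y1.2.trans y2.1, y2.2⟩
    · -- only the point `z'`
      have hu' : u = z' := by
        rcases hu with h | h
        · exact le_antisymm h.2 h.1
        · exact le_antisymm h.2 h.1
      rw [hu']
      unfold fBn
      linarith

/-- longer pieces -/
lemma NrI.ext {s : Sr} (h : NrI t s g c z') (hz : BtI c z' z) (hf : ∀ u, BtI z' u z → s.bn ≤ ‖g u - g c‖) : NrI t s g c z := by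
  obtain ⟨τ, hτ, h1, h2⟩ := h
  refine ⟨τ, bt_trans hz hτ, h1, fun u hu => ?_⟩
  have h3 : BtI τ u z' ∨ BtI z' u z := by
    refine bt_split ?_ hu
    rcases hz with ⟨x1, x2⟩ | ⟨x1, x2⟩
    · exact Or.inl ⟨(hτ.of_le x1).2, x2⟩
    · exact Or.inr ⟨x1, (hτ.comm.of_le x2).1⟩
  rcases h3 with h3 | h3
  · exact h2 u h3
  · unfold fBn
    linarith [hf u h3]

/-- **the two forms of the conditions at one end**: rest up to the other native mark `a'`, or arc up to the other foreign mark `c'` -/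
theorem end_iff {ε : ℝ} (hE : E.Ok ε) (hE' : E'.Ok ε) (ht : ‖t‖ = 1) (ho : O6 a b c c' b' a') (hk : kcF d' t' E' g L a' b' c' ≤ 0)
    {D : ℝ} (hD : 16 * (E.s.len + E'.s.len) < D) (hd : D ≤ ‖g c' - g c‖) :
    FpC d t E mn g L a b c a' ↔ kcF d t E g L a b c ≤ 0 ∧ stS (fRa t E.f.c E.f.r0) (cutc g c c') ≤ E.f.κ ∧
      reK t E.f.rg g c c' ≤ 0 ∧ (mn → nrF t E.s g c c' ≤ 0) := by
  obtain ⟨s1, s2, s3, s4, s5, s6⟩ := o6_sub ho
  have r2 := hE'.f.r2.le
  -- the last piece is far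
  have k1 : 64 * E'.k ≤ E'.f.r0 := by
    have g1 := hE'.f.g64
    have g2 := hE'.f.rr
    have g3 := hE'.ball
    have g4 := hE'.n.r
    have g5 := hE'.n.r2
    unfold En.k
    linarith
  have b1 := hE.bn
  have b2 := hE'.bn
  have l1 := hE.len
  have l2 := hE'.len
  have q1 := hE.f.r
  have q2 := hE.f.r2
  have q3 := hE.f.g64
  have q4 := hE.f.rr
  have q5 := hE'.f.r
  have q6 := hE'.f.r2
  have q7 := hE'.f.g64
  have q8 := hE'.f.rr
  have far : ∀ u, BtI c' u a' → E.s.bn ≤ ‖g u - g c‖ := by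
    intro u hu
    have h1 := kcb hk s2 (u := u) hu.comm r2
    have h2 := kcb hk s2 (u := c') (by
      rcases s2 with h | h
      · exact Or.inl ⟨h.1.trans h.2, le_rfl⟩
      · exact Or.inr ⟨le_rfl, h.1.trans h.2⟩) r2
    have h3 := norm_sub_norm_le (g c' - g c) (g c' - g u)
    rw [sub_sub_sub_cancel_left] at h3
    have h4 : ‖g c' - g u‖ ≤ ‖g c' - g a'‖ + ‖g u - g a'‖ := by
      have := norm_sub_le (g c' - g a') (g u - g a')
      rwa [sub_sub_sub_cancel_right] at this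
    linarith
  have cz : BtI c' c' a' := by
    rcases s3 with h | h
    · exact Or.inl ⟨le_rfl, h.2⟩
    · exact Or.inr ⟨h.1, le_rfl⟩
  have fr := (fRa_lip ht hE.f.co.c0 hE.f.co.c1).continuous (f := fRa t E.f.c E.f.r0)
  have cv : ∀ z : I, stS (fRa t E.f.c E.f.r0) (cutc g c z) ≤ E.f.κ ↔ ∀ u, BtI c u z → fRa t E.f.c E.f.r0 (g u - g c) ≤ E.f.κ := by
    intro z
    rw [← sub_nonpos, stS_bt fr]
  constructor
  · intro h
    refine ⟨h.k, ?_, ?_, fun hm => ?_⟩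
    · rw [cv]
      exact fun u hu => (cv a').1 h.ra u (bt_trans s3 hu)
    · rw [reK_iff ht]
      exact fun u hu => (reK_iff ht).1 h.re u (bt_trans s3 hu)
    · rw [nrF_iff ht]
      exact ((nrF_iff ht).1 (h.nr hm)).sub s3 (far c' cz)
  · rintro ⟨h1, h2, h3, h4⟩
    refine ⟨h1, ?_, ?_, fun hm => ?_⟩
    · rw [cv]
      intro u hu
      rcases bt_split s3 hu with h5 | h5
      · exact (cv c').1 h2 u h5
      · rw [fRa_iff]
        right
        have := far u h5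
        have κ := hE.f.κ
        linarith
    · rw [reK_iff ht]
      intro u hu
      rcases bt_split s3 hu with h5 | h5
      · exact (reK_iff ht).1 h3 u h5
      · right
        have := far u h5
        linarith
    · rw [nrF_iff ht]
      exact ((nrF_iff ht).1 (h4 hm)).ext s3 far

/-- **both ends and the windows ↔ the statistics at the foreign marks** -/
theorem fp_iff {ε : ℝ} (hE : E.Ok ε) (hE' : E'.Ok ε) (ht : ‖t‖ = 1) (ht' : ‖t'‖ = 1) (ho : O6 a b c c' b' a')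
    (hD : 16 * (E.s.len + E'.s.len) < W.D0) :
    (FpC d t E mn g L a b c a' ∧ FpC d' t' E' mn g L a' b' c' a ∧ WdC W g L c c') ↔
      (kcF d t E g L a b c ≤ 0 ∧ kcF d' t' E' g L a' b' c' ≤ 0 ∧ reK t E.f.rg g c c' ≤ 0 ∧ reK t' E'.f.rg g c' c ≤ 0 ∧
        rsF t t' E.f E'.f W g L c c' ≤ 0 ∧ (mn → nrF t E.s g c c' ≤ 0 ∧ nrF t' E'.s g c' c ≤ 0)) := by
  have hr : rsF t t' E.f E'.f W g L c c' ≤ 0 ↔ (stS (fRa t E.f.c E.f.r0) (cutc g c c') ≤ E.f.κ ∧
      stS (fRa t' E'.f.c E'.f.r0) (cutc g c' c) ≤ E'.f.κ) ∧ WdC W g L c c' := by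
    unfold rsF
    simp only [max_le_iff, sub_nonpos]
    constructor
    · rintro ⟨⟨⟨h1, h2⟩, h3, h4⟩, h5, h6⟩
      exact ⟨⟨h1, h2⟩, h3, h4, h5, h6⟩
    · rintro ⟨⟨h1, h2⟩, h3, h4, h5, h6⟩
      exact ⟨⟨⟨h1, h2⟩, h3, h4⟩, h5, h6⟩
  have hd : W.D0 ≤ ‖cutc g c c' 1‖ → W.D0 ≤ ‖g c' - g c‖ ∧ W.D0 ≤ ‖g c - g c'‖ := by
    intro h
    rw [cutc_one] at h
    exact ⟨h, by rwa [norm_sub_rev]⟩
  have hD' : 16 * (E'.s.len + E.s.len) < W.D0 := by rwa [add_comm E'.s.len]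
  constructor
  · rintro ⟨h1, h2, h3⟩
    obtain ⟨e1, e2⟩ := hd h3.d0
    obtain ⟨a1, a2, a3, a4⟩ := (end_iff hE hE' ht ho h2.k hD e1).1 h1
    obtain ⟨b1, b2, b3, b4⟩ := (end_iff hE' hE ht' (o6_symm ho) h1.k hD' e2).1 h2
    exact ⟨a1, b1, a3, b3, hr.2 ⟨⟨a2, b2⟩, h3⟩, fun hm => ⟨a4 hm, b4 hm⟩⟩
  · rintro ⟨h1, h2, h3, h4, h5, h6⟩
    obtain ⟨⟨a1, a2⟩, a3⟩ := hr.1 h5
    obtain ⟨e1, e2⟩ := hd a3.d0
    exact ⟨(end_iff hE hE' ht ho h2 hD e1).2 ⟨h1, a1, h3, fun hm => (h6 hm).1⟩,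
      (end_iff hE' hE ht' (o6_symm ho) h1 hD' e2).2 ⟨h2, a2, h4, fun hm => (h6 hm).2⟩, a3⟩

/-- **the rest with its foreign marks is in `VT`**, companions and main arcs -/
theorem fp_vt {ε : ℝ} (hE : E.Ok ε) (hE' : E'.Ok ε) (hd : ‖d‖ = 1) (hd' : ‖d'‖ = 1) (ht : ‖t‖ = 1) (ht' : ‖t'‖ = 1) (hL : 0 ≤ L)
    (ho : O6 a b c c' b' a') (hne : a ≠ a') (hD : 16 * (E.s.len + E'.s.len) < W.D0) (h1 : FpC d t E mn g L a b c a')
    (h2 : FpC d' t' E' mn g L a' b' c' a) (h3 : WdC W g L c c') :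
    (pcut ((g, L) : Pie) a a', (((c : ℝ) - a) / (a' - a), ((c' : ℝ) - a) / (a' - a))) ∈ VT d d' E E' (ArV t t' E E' W) ∧
    (mn → (pcut ((g, L) : Pie) a a', (((c : ℝ) - a) / (a' - a), ((c' : ℝ) - a) / (a' - a))) ∈
      VT d d' E E' (AmV t t' E E' W)) := by
  obtain ⟨k1, k2, k3, k4, k5, k6⟩ := (fp_iff hE hE' ht ht' ho hD).1 ⟨h1, h2, h3⟩
  refine ⟨vt_of hE hE' hd hd' ht ht' hL ho hne k1 k2 k3 k4 k5, fun hm => ?_⟩
  refine vt_of_mn hE hE' hd hd' ht ht' hL ho hne k1 k2 k3 k4 ?_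
  unfold mnF
  exact max_le k5 (max_le (k6 hm).1 (k6 hm).2)

/-! ### 4. The windows -/

/-- duration of the piece `x` .. `x~` -/
private lemma kcd (hk : kcF d t E g L a b c ≤ 0) : L * |(c : ℝ) - a| ≤ E.lk := by
  unfold kcF at hk
  simp only [max_le_iff] at hk
  obtain ⟨-, -, h6⟩ := hk
  unfold duU at h6
  linarith [mul_comm L |(c : ℝ) - a|]

/-- **the windows of the rest give the windows of the arc** -/
theorem winR_arc (hL : 0 ≤ L) (ho : O6 a b c c' b' a') (r2 : 0 ≤ E.f.r2) (r2' : 0 ≤ E'.f.r2) (h1 : FpC d t E mn g L a b c a')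
    (h2 : FpC d' t' E' mn g L a' b' c' a) (w0 : W.D0 + (E.k + E'.k) ≤ ‖cutc g a a' 1‖)
    (w1 : ‖cutc g a a' 1‖ ≤ W.D1 - (E.k + E'.k)) (v0 : W.t0 + (E.lk + E'.lk) ≤ L * |(a' : ℝ) - a|)
    (v1 : L * |(a' : ℝ) - a| ≤ W.t1) : WdC W g L c c' := by
  obtain ⟨s1, s2, s3, s4, s5, s6⟩ := o6_sub ho
  have e1 : ‖g c - g a‖ ≤ E.k := kcb h1.k s1 (by
    rcases s1 with h | h
    · exact Or.inl ⟨h.1.trans h.2, le_rfl⟩
    · exact Or.inr ⟨le_rfl, h.1.trans h.2⟩) r2
  have e2 : ‖g c' - g a'‖ ≤ E'.k := kcb h2.k s2 (by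
    rcases s2 with h | h
    · exact Or.inl ⟨h.1.trans h.2, le_rfl⟩
    · exact Or.inr ⟨le_rfl, h.1.trans h.2⟩) r2'
  rw [cutc_one] at w0 w1
  have f1 : g c' - g c = (g a' - g a) + ((g c' - g a') - (g c - g a)) := by ring
  have f2 : g a' - g a = (g c' - g c) + ((g c - g a) - (g c' - g a')) := by ring
  have n1 := norm_add_le (g a' - g a) ((g c' - g a') - (g c - g a))
  rw [← f1] at n1
  have n2 := norm_add_le (g c' - g c) ((g c - g a) - (g c' - g a'))
  rw [← f2] at n2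
  have n3 := norm_sub_le (g c' - g a') (g c - g a)
  have n4 := norm_sub_le (g c - g a) (g c' - g a')
  -- durations
  have d1 := kcd h1.k
  have d2 := kcd h2.k
  have key : |(a' : ℝ) - a| = |(c : ℝ) - a| + |(c' : ℝ) - c| + |(c' : ℝ) - a'| := by
    rcases ho with ⟨x1, x2, x3, x4, x5⟩ | ⟨x1, x2, x3, x4, x5⟩
    · have y1 : (a : ℝ) ≤ c := x1.trans x2
      have y2 : (c : ℝ) ≤ c' := x3
      have y3 : (c' : ℝ) ≤ a' := x4.trans x5
      rw [abs_of_nonneg (by linarith), abs_of_nonneg (by linarith : (0 : ℝ) ≤ c - a), abs_of_nonneg (by linarith : (0 : ℝ) ≤ c' - c),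
        abs_of_nonpos (by linarith : (c' : ℝ) - a' ≤ 0)]
      ring
    · have y1 : (a' : ℝ) ≤ c' := x1.trans x2
      have y2 : (c' : ℝ) ≤ c := x3
      have y3 : (c : ℝ) ≤ a := x4.trans x5
      rw [abs_of_nonpos (by linarith), abs_of_nonpos (by linarith : (c : ℝ) - a ≤ 0), abs_of_nonpos (by linarith : (c' : ℝ) - c ≤ 0),
        abs_of_nonneg (by linarith : (0 : ℝ) ≤ (c' : ℝ) - a')]
      ring
  have p1 : 0 ≤ L * |(c : ℝ) - a| := mul_nonneg hL (abs_nonneg _)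
  have p2 : 0 ≤ L * |(c' : ℝ) - a'| := mul_nonneg hL (abs_nonneg _)
  rw [key] at v0 v1
  have m1 : L * (|(c : ℝ) - a| + |(c' : ℝ) - c| + |(c' : ℝ) - a'|) =
      L * |(c : ℝ) - a| + L * |(c' : ℝ) - c| + L * |(c' : ℝ) - a'| := by ring
  rw [m1] at v0 v1
  refine ⟨?_, ?_, ?_, ?_⟩
  · rw [cutc_one]
    linarith
  · rw [cutc_one]
    linarith
  · unfold duL
    split_ifs with h
    · norm_num
    · linarith [mul_comm L |(c' : ℝ) - c|]
  · unfold duU
    linarith [mul_comm L |(c' : ℝ) - c|]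

end

end Pool.Agent.ROT.F3
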