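import Pool.Agent.ROT.F3C0K
import Pool.Agent.ROT.F3JmD
import Pool.Agent.ROT.F3LocF

/-!
# ROT, F3 (B), rows C0At, S_a (helper86): the marked curves of one arm

* `TubI` : the strand of a curve is a tube up to the time `τ`, far behind it;
* **`SaE`** : the marked curves `(g; tx, ty)` : `tx` = native mark `x`, functional foreign gates of the rotated lattice behind it with
  all the conditions at this end, the rest is read up to the second root; `ty` = end of the block, nothing in the ball `R0` behind it.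
-/

set_option autoImplicit false

open MeasureTheory Filter Topology Set unitInterval

namespace Pool.Agent.ROT.F3

open Pool.Agent.ROT.F3.CK

/-- **a tube** in natural units, up to the time `τ`; from `τ` to `z` the curve is outside of the ball `F` -/
structure TubI (D F : ℝ) (e : ℂ) (τ z : I) (g : C(I, ℂ)) : Prop where
  τz : τ ≤ z
  near : ∀ s : I, s ≤ τ → ∃ t : ℝ, 0 ≤ t ∧ ‖g s - (t : ℂ) * e‖ ≤ D
  back : ∀ s t : I, s ≤ t → t ≤ τ → lv e (g s) ≤ lv e (g t) + D
  far : ∀ s : I, τ ≤ s → s ≤ z → F ≤ ‖g s‖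

/-- **the marked curves of one arm** `fp`; `d` = native direction, `u * d` = foreign direction, `E` = data of the end, `mn` = main arcs,
`B0`, `x0` = native gate `x`, `B1`, `c1`, `x1` = foreign gates `c~`, `x~` (times of the closed curve) -/
structure SaE (Gd : Set CC.Gm) (d u : ℂ) (E : En) (mn : Prop) (R0 : ℝ) (B0 B1 : Set CC.Gm) (x0 c1 x1 : CC.Gm → ℝ) (y : C0K.XM) :
    Prop where
  gd : y.1 ∈ Gd
  e0 : y.1 ∈ B0
  x : x0 y.1 = y.2.1
  t0 : 0 ≤ y.2.1
  t1 : y.2.2 ≤ muG y.1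
  e1 : y.1 ∈ B1
  o1 : y.2.1 ≤ c1 y.1
  o2 : c1 y.1 ≤ x1 y.1
  o3 : x1 y.1 ≤ y.2.2
  fp : FpC d (u * d) E mn y.1.2.2 y.1.1 (pji y.2.1) (pji (c1 y.1)) (pji (x1 y.1)) (pji (muG y.1))
  far : ∀ t : I, y.2.2 ≤ t → (t : ℝ) ≤ muG y.1 → R0 ≤ ‖y.1.2.2 t - y.1.2.2 (pji y.2.1)‖

end Pool.Agent.ROT.F3
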