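import Pool.Agent.ROT.F3SAM

/-!
# ROT, F3 (B), row S_a (helper70): the tip of a marked curve

`gaY_of` (locality of the functional gates) reads of the marked curves `y`: before the native gate `x` the curve is in the ball of the
tips, its level is at most the level of `x` plus `n.r`.
* **`TipY`** : the condition; `tipY_meas` : measurable; **`tipY_of`** : from the tube `TubI`; `TipY.nat` : the form with `pji (x0 g)`.
-/

set_option autoImplicit false

open MeasureTheory Filter Topology Set unitInterval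

namespace Pool.Agent.ROT.F3

open Pool.Agent.ROT.F3.CK

/-- **the tip of a marked curve**: ball and level up to the native gate `x` -/
structure TipY (d : ℂ) (E : En) (y : C0K.XM) : Prop where
  b : ∀ v : I, (v : ℝ) ≤ y.2.1 → ‖y.1.2.2 v - y.1.2.2 0‖ ≤ E.n.r + E.n.r2
  c : ∀ v : I, (v : ℝ) ≤ y.2.1 → lv d (y.1.2.2 v) ≤ lv d (y.1.2.2 (pji y.2.1)) + E.n.r

private lemma pji_cc' {t : ℝ} (h : t ∈ Icc (0 : ℝ) 1) : ((pji t : I) : ℝ) = t := by
  unfold pji
  rw [projIcc_of_mem zero_le_one h]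

section

variable {Ω : Type*} [MeasurableSpace Ω] {g : Ω → C(I, ℂ)} {q : Ω → ℝ}

/-- **a closed condition at all the times up to a real time** -/
theorem upto_meas {H : C(I, ℂ) × I × I → ℝ} (hH : Continuous H) (hg : Measurable g) (hq : Measurable q) :
    MeasurableSet {y | ∀ v : I, (v : ℝ) ≤ q y → H (g y, v, pji (q y)) ≤ 0} := by
  set D : ℕ → I := TopologicalSpace.denseSeq I with hD
  have hDd : DenseRange D := TopologicalSpace.denseRange_denseSeq I
  have e : {y | ∀ v : I, (v : ℝ) ≤ q y → H (g y, v, pji (q y)) ≤ 0} =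
      {y | q y < 0} ∪ ⋂ n, {y | H (g y, pji (min (D n : ℝ) (q y)), pji (q y)) ≤ 0} := by
    ext y
    simp only [mem_ofPred_eq, mem_union, mem_iInter]
    constructor
    · intro h
      rcases lt_or_ge (q y) 0 with h1 | h1
      · exact Or.inl h1
      refine Or.inr fun n => ?_
      have k2 := pji_cc' ⟨le_min (D n).2.1 h1, (min_le_left (D n : ℝ) (q y)).trans (D n).2.2⟩
      exact h _ (by rw [k2]; exact min_le_right _ _)
    · rintro (h | h) v h1
      · linarith [v.2.1]
      have h3 : IsClosed {s : I | H (g y, pji (min (s : ℝ) (q y)), pji (q y)) ≤ 0} := by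
        refine isClosed_le (hH.comp ?_) continuous_const
        have := pji_cont
        fun_prop
      have h4 : (univ : Set I) ⊆ {s : I | H (g y, pji (min (s : ℝ) (q y)), pji (q y)) ≤ 0} := by
        rw [← hDd.closure_range]
        exact closure_minimal (by rintro _ ⟨n, rfl⟩; exact h n) h3
      have h5 := h4 (mem_univ v)
      simp only [mem_ofPred_eq, min_eq_left h1, pji_coe] at h5
      exact h5
  rw [e]
  refine (measurableSet_lt hq measurable_const).union (MeasurableSet.iInter fun n => measurableSet_le ?_ measurable_const)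
  exact hH.measurable.comp (hg.prodMk ((pji_cont.measurable.comp (measurable_const.min hq)).prodMk (pji_cont.measurable.comp hq)))

end

/-- **the tips are a measurable condition** -/
theorem tipY_meas {d : ℂ} {E : En} : MeasurableSet {y : C0K.XM | TipY d E y} := by
  have ev : Continuous fun w : C(I, ℂ) × I => w.1 w.2 := continuous_eval
  have e1 : Continuous fun w : C(I, ℂ) × I × I => w.1 w.2.1 := ev.comp (by fun_prop : Continuous fun w : C(I, ℂ) × I × I => (w.1, w.2.1))
  have e2 : Continuous fun w : C(I, ℂ) × I × I => w.1 w.2.2 := ev.comp (by fun_prop : Continuous fun w : C(I, ℂ) × I × I => (w.1, w.2.2))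
  have e0 : Continuous fun w : C(I, ℂ) × I × I => w.1 (0 : I) := ev.comp (by fun_prop : Continuous fun w : C(I, ℂ) × I × I => (w.1, (0 : I)))
  have fg : Measurable fun y : C0K.XM => y.1.2.2 := by fun_prop
  have p1 : Measurable fun y : C0K.XM => y.2.1 := by fun_prop
  have c1 : Continuous fun w : C(I, ℂ) × I × I => ‖w.1 w.2.1 - w.1 0‖ - (E.n.r + E.n.r2) :=
    ((e1.sub e0).norm).sub continuous_const
  have c2 : Continuous fun w : C(I, ℂ) × I × I => lv d (w.1 w.2.1) - (lv d (w.1 w.2.2) + E.n.r) := by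
    unfold lv
    exact (Complex.continuous_re.comp (continuous_const.mul e1)).sub
      ((Complex.continuous_re.comp (continuous_const.mul e2)).add continuous_const)
  have e : {y : C0K.XM | TipY d E y} =
      {y : C0K.XM | ∀ v : I, (v : ℝ) ≤ y.2.1 → ‖y.1.2.2 v - y.1.2.2 0‖ - (E.n.r + E.n.r2) ≤ 0} ∩
        {y : C0K.XM | ∀ v : I, (v : ℝ) ≤ y.2.1 → lv d (y.1.2.2 v) - (lv d (y.1.2.2 (pji y.2.1)) + E.n.r) ≤ 0} := by
    ext y
    exact ⟨fun h => ⟨fun v hv => sub_nonpos.2 (h.b v hv), fun v hv => sub_nonpos.2 (h.c v hv)⟩,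
      fun h => ⟨fun v hv => sub_nonpos.1 (h.1 v hv), fun v hv => sub_nonpos.1 (h.2 v hv)⟩⟩
  rw [e]
  exact (upto_meas c1 fg p1).inter (upto_meas c2 fg p1)

/-- **the tip from the tube** -/
theorem tipY_of {D F L : ℝ} {e : ℂ} {τ z : I} {E : En} {y : C0K.XM} (h : TubI D F e τ z y.1.2.2) (he : ‖e‖ = 1)
    (h0 : y.1.2.2 0 = 0) (hτ : pji y.2.1 ≤ τ) (hl : lv e (y.1.2.2 (pji y.2.1)) ≤ L)
    (hL : L + 3 * D ≤ E.n.r + E.n.r2) (hD : D ≤ E.n.r) : TipY e E y := by
  have hle : ∀ v : I, (v : ℝ) ≤ y.2.1 → v ≤ pji y.2.1 := by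
    intro v hv
    have h1 : pji (v : ℝ) ≤ pji y.2.1 := Set.monotone_projIcc _ hv
    rwa [pji_coe] at h1
  have hb : ∀ v : I, (v : ℝ) ≤ y.2.1 → lv e (y.1.2.2 v) ≤ lv e (y.1.2.2 (pji y.2.1)) + D := fun v hv =>
    h.back _ _ (hle v hv) hτ
  refine ⟨fun v hv => ?_, fun v hv => (hb v hv).trans (by linarith)⟩
  obtain ⟨t, t0, ht⟩ := h.near v ((hle v hv).trans hτ)
  have hee : lv e ((t : ℂ) * e) = t := by
    unfold lv
    rw [mul_left_comm, Complex.conj_mul', he]
    simp
  have h2 : t - D ≤ lv e (y.1.2.2 v) := by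
    have h3 : lv e ((t : ℂ) * e) - lv e (y.1.2.2 v) ≤ ‖(t : ℂ) * e - y.1.2.2 v‖ := by
      have h4 : lv e ((t : ℂ) * e) - lv e (y.1.2.2 v) = lv e ((t : ℂ) * e - y.1.2.2 v) := by
        unfold lv
        rw [mul_sub, Complex.sub_re]
      rw [h4]
      unfold lv
      refine (Complex.re_le_norm _).trans ?_
      rw [norm_mul, Complex.norm_conj, he, one_mul]
    rw [norm_sub_rev] at h3
    rw [hee] at h3
    linarith
  have h5 : ‖y.1.2.2 v‖ ≤ t + D := by
    have h6 := norm_add_le (y.1.2.2 v - (t : ℂ) * e) ((t : ℂ) * e)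
    rw [sub_add_cancel, norm_mul, he, mul_one, Complex.norm_real, Real.norm_of_nonneg t0] at h6
    linarith
  rw [h0, sub_zero]
  linarith [hb v hv]

/-- the form of `gaY_of` -/
lemma TipY.nat {d : ℂ} {E : En} {y : C0K.XM} (h : TipY d E y) {v : I} (hv : v ≤ pji y.2.1) (hp : 0 ≤ y.2.1) (hp' : y.2.1 ≤ 1) :
    ‖y.1.2.2 v - y.1.2.2 0‖ ≤ E.n.r + E.n.r2 ∧ lv d (y.1.2.2 v) ≤ lv d (y.1.2.2 (pji y.2.1)) + E.n.r := by
  have h1 : (v : ℝ) ≤ y.2.1 := by
    have h2 : (v : ℝ) ≤ (pji y.2.1 : I) := hv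
    rwa [pji_cc' ⟨hp, hp'⟩] at h2
  exact ⟨h.b v h1, h.c v h1⟩

end Pool.Agent.ROT.F3
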