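import Pool.Agent.ROT.F3AI1
import Pool.Agent.ROT.F3K3X
import Pool.Agent.ROT.F3SAE
import Pool.Agent.ROT.F3SAP

/-!
# ROT, F3 (B), rows C0At, S_a (helper86): what the row reads from generic data

`i` = index of the direction of the native lattice (`a` at the end `p`, `-a` at the end `q`), arm `fp`, turn `rS (-i)`;
* **`OneIn`** : native gates (base `0`) and foreign gates (base `y N x`, functional level of the native gate `x`) of one end;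
* `saB`, `saC`, `saX` : the foreign gates on the curves of the lattice 0.
-/

set_option autoImplicit false

open MeasureTheory Filter Topology Set unitInterval

namespace Pool.Agent.ROT.F3

open Pool.Agent.ROT.F3.CK Pool.Agent.ROT.F3.LF

/-- the foreign gates exist on the curve of the lattice 0 -/
def saB (u : ℂ) (B1 : Set CC.Gm) : Set CC.Gm := {g | rotX u⁻¹ g ∈ B1}

/-- time of a foreign gate on the curve of the lattice 0 -/
noncomputable def saT1 (u : ℂ) (P1 : CC.Gm → ℝ) (g : CC.Gm) : ℝ := P1 (rotX u⁻¹ g) * muG g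

/-- **the input of one end** -/
structure OneIn (U : Filter ℕ) (b : ℝ) (PG : Measure CC.Gm) (i : Fin 3) (u : ℂ) (E : En) (cd : ℝ) (Gd : Set CC.Gm)
    (G0 G1 : GP) (y : ℕ → W3 × ℕ → ℝ) (Λ : CC.Gm → ℝ) (B0 B1 : Set CC.Gm) (Pc0 Pg0 Pc1 Pg1 : CC.Gm → ℝ) : Prop where
  ok0 : G0.Ok E.n
  ok1 : G1.Ok E.f
  r1 : E.f.r2 < G1.ρ1
  /-- native gates, base `0` -/
  a0 : AI1 U b PG .fp (fun N x => cd < dst N x ∧ sgE G0 (rS (-i)) 0 N .fp x) (fun N x => sgc G0 (rS (-i)) 0 N .fp x)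
    (fun N x => sgx G0 (rS (-i)) 0 N .fp x) B0 Pc0 Pg0
  /-- foreign gates in their own frame, base `y N x` -/
  a1 : AI1 U b PG .fp (fun N x => cd < dst N x ∧ sgE G1 (rS (-i)) (y N x) N .fp x) (fun N x => sgc G1 (rS (-i)) (y N x) N .fp x)
    (fun N x => sgx G1 (rS (-i)) (y N x) N .fp x) B1 Pc1 Pg1
  hy : Lm U (fun N => mwE N b) cN PG y Λ
  /-- the base is the level of the native gate `x` -/
  lv : ∀ᵐ g ∂PG, g ∈ B0 → Λ (rotX u⁻¹ g) = lv (u * ev i) (g.2.2 (pji (Pg0 g * muG g)))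
  /-- closed conditions of the foreign gates -/
  fa : ∀ᵐ h ∂PG, h ∈ B1 → FaI (ev i) (E.f.l + Λ h) E.f.m G1.r1 G1.r1' G1.ρ1 E.f.rg h.2.2 0 (pji (Pc1 h * muG h))
    (pji (Pg1 h * muG h)) (pji (muG h))
  un0 : ∀ᵐ g ∂PG, g ∈ B0 → 0 ≤ Pc0 g ∧ Pc0 g ≤ Pg0 g ∧ Pg0 g ≤ 1
  un1 : ∀ᵐ g ∂PG, g ∈ B1 → 0 ≤ Pc1 g ∧ Pc1 g ≤ Pg1 g ∧ Pg1 g ≤ 1
  mGd : MeasurableSet Gd
  aeGd : ∀ᵐ g ∂PG, g ∈ Gd

/-- the marked curves of one end, all the data of `OneIn`; `TipY` (helper70): ball and level of the tip up to the native gate -/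
def SaSet (Gd : Set CC.Gm) (i : Fin 3) (u : ℂ) (E : En) (mn : Prop) (R0 : ℝ) (B0 B1 : Set CC.Gm) (Pg0 Pc1 Pg1 : CC.Gm → ℝ) :
    Set C0K.XM :=
  {y | 0 < y.1.1 ∧ TipY (ev i) E y ∧ SaE Gd (ev i) u E mn R0 B0 (saB u B1) (fun g => Pg0 g * muG g) (saT1 u Pc1) (saT1 u Pg1) y}

end Pool.Agent.ROT.F3
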