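import Pool.Agent.ROT.F3W7s

/-!
# ROT, F3, row W7 (helper63): the rests which have companions

* `TT b2 Z W` : the pieces whose section of `DD` is charged by `b2 × volume`; `tt_meas`;
* **`tt_ac`** : `m` on the set of the points with charged sections is absolutely continuous with respect to the first marginal;
* **`comp_pie`** : the rests of class 0 with the conditions `HG` are in `TT` (companions of class 1 and of class 2, own lattice).
-/

set_option autoImplicit false

open MeasureTheory Filter Topology Set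
open scoped ENNReal NNReal

namespace Pool.Agent.ROT.F3

open Pool.Agent.ROT.F3.CC (Pie yP dsp_cont)

/-! ### 1. Charged sections -/

/-- the points with charged sections -/
def Chg {A B : Type*} [MeasurableSpace B] (ν : Measure B) (D : Set (A × B)) : Set A := {x | ν {y | (x, y) ∈ D} ≠ 0}

lemma chg_meas {A B : Type*} [MeasurableSpace A] [MeasurableSpace B] {ν : Measure B} [SFinite ν] {D : Set (A × B)}
    (hD : MeasurableSet D) : MeasurableSet (Chg ν D) := by
  have h : Measurable fun x => ν (Prod.mk x ⁻¹' D) := measurable_measure_prodMk_left hD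
  exact (measurableSet_eq_fun h measurable_const).compl

/-- **the points with charged sections are seen by the first marginal** -/
theorem chg_ac {A B : Type*} [MeasurableSpace A] [MeasurableSpace B] {m : Measure A} {ν : Measure B} [SFinite m] [SFinite ν]
    {D : Set (A × B)} (hD : MeasurableSet D) {P : Measure (A × B)} (h : (m.prod ν).restrict D ≪ P) :
    m.restrict (Chg ν D) ≪ P.map Prod.fst := by
  refine Measure.AbsolutelyContinuous.mk fun S hS h0 => ?_
  rw [Measure.map_apply measurable_fst hS] at h0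
  have h1 := h h0
  rw [Measure.restrict_apply (measurable_fst hS)] at h1
  have h2 := (Measure.measure_prod_null ((measurable_fst hS).inter hD)).1 h1
  rw [Measure.restrict_apply hS]
  refine measure_mono_null ?_ h2
  rintro x ⟨hxS, hx⟩ h3
  refine hx ?_
  have e : Prod.mk x ⁻¹' (Prod.fst ⁻¹' S ∩ D) = {y | (x, y) ∈ D} := by
    ext y
    simp only [mem_preimage, mem_inter_iff, mem_ofPred_eq, hxS, true_and]
  have h4 : ν (Prod.mk x ⁻¹' (Prod.fst ⁻¹' S ∩ D)) = 0 := h3
  rwa [e] at h4

/-! ### 2. The rests with companions -/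

/-- the pieces which have companions: the section of `DD` is charged -/
def TT (b2 : Measure Pie) (Z W : Set ℂ) : Set Pie := Chg (b2.prod (volume : Measure ℂ)) (DD Prod.fst Prod.fst yP yP Z W)

lemma dd_pie {Z W : Set ℂ} (hZ : MeasurableSet Z) (hW : MeasurableSet W) :
    MeasurableSet (DD (Prod.fst : Pie → C(unitInterval, ℂ)) (Prod.fst : Pie → C(unitInterval, ℂ)) yP yP Z W) :=
  dd_meas measurable_fst measurable_fst dsp_cont.measurable.neg dsp_cont.measurable.neg hZ hW

lemma tt_meas {b2 : Measure Pie} [SFinite b2] {Z W : Set ℂ} (hZ : MeasurableSet Z) (hW : MeasurableSet W) :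
    MeasurableSet (TT b2 Z W) := chg_meas (dd_pie hZ hW)

namespace Ln

/-- **the rests of class 0 with the conditions `HG` have companions of the classes 1 and 2 of their own lattice**; `β1`, `β2` = limits
of the laws of `Rst (ev 1) (ev 2) P Q V`, `Rst (ev 2) (ev 1) P Q V` -/
theorem comp_pie {P Q : Tp} {V : Wn} (hP : P.Ok) (hQ : Q.Ok) (hV : 0 < V.t1) (hV0 : V.t0 ≤ 0) (hVD : 0 < V.D0)
    {U : Filter ℕ} [U.NeBot] (hU : U ≤ atTop) {c : ℕ → ℝ≥0∞} {q : ℝ} (hq : 0 < q)
    (hc : ∀ᶠ N : ℕ in U, ENNReal.ofReal (q / (N : ℝ) ^ (3 / 4 : ℝ)) ≤ c N) {β1 β2 : Measure Pie}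
    (w1 : WLim U (fun N => rm (c N) N (uT N) (Rst (ev 1) (ev 2) P Q V N (uT N)) fun _ => 1) β1)
    (w2 : WLim U (fun N => rm (c N) N (uT N) (Rst (ev 2) (ev 1) P Q V N (uT N)) fun _ => 1) β2)
    {e L bn e' L' bn' D0 D1 h h' r r' : ℝ} (he : 0 ≤ e) (he' : 0 ≤ e') (a1 : e < h) (a1' : e' < h')
    (a2 : 7 / 4 * (h + 6 / 5 * P.r0) + h < bn) (a2' : 7 / 4 * (h' + 6 / 5 * Q.r0) + h' < bn')
    (a3 : bn ≤ L) (a3' : bn' ≤ L') (a4 : 12 * (L + L') < D0) (a5 : V.D0 + 2 * (h + h') < D0)
    (a6 : D1 + 2 * (h + h') < V.D1) (hr : 0 < r) (hr' : 0 < r') {x : Pie} (hi : Function.Injective x.1)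
    (hx : x.1 ∈ HG (ev 0) e L bn e' L' bn') (hD0 : D0 ≤ ‖x.1 1‖) (hD1 : ‖x.1 1‖ ≤ D1) :
    x ∈ TT β1 (Metric.ball ((h : ℂ) * (ev 1 - ev 0)) r) (Metric.ball ((h' : ℂ) * (ev 2 - ev 0)) r') ∧
      x ∈ TT β2 (Metric.ball ((h : ℂ) * (ev 2 - ev 0)) r) (Metric.ball ((h' : ℂ) * (ev 1 - ev 0)) r') := by
  have p0 := hP.r0
  have p1 := hP.r
  have p2 := hP.r2
  have p3 := hP.κ
  have p4 := hP.c1
  have q0 := hQ.r0
  have q1 := hQ.r
  have q2 := hQ.r2
  have q3 := hQ.κ
  have q4 := hQ.c1
  have f1 := w1.fβ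
  have f2 := w2.fβ
  have hone : ∀ b : Measure Pie, b.map (fun x : Pie => ((1 : ℂ) • x.1, x.2)) = b := by
    intro b
    have e1 : (fun x : Pie => ((1 : ℂ) • x.1, x.2)) = id := by
      funext x
      rw [one_smul]
      rfl
    rw [e1, Measure.map_id]
  have F2 := full_pie (a := 1) (b' := 2) (ω0 := (1, -1)) (ω1 := (0, 1)) (Or.inl ⟨rfl, rfl, rfl⟩) (P := P) (Q := Q)
    (W := V) (by linarith) (by linarith) (by linarith) (by linarith) hV0 hVD hU (w := fun _ _ => 1) (v := 1) norm_one hq hc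
    (Eventually.of_forall fun _ _ _ => le_rfl) w1
  have F3 := full_pie (a := 2) (b' := 1) (ω0 := (0, 1)) (ω1 := (1, -1)) (Or.inr ⟨rfl, rfl, rfl⟩) (P := P) (Q := Q)
    (W := V) (by linarith) (by linarith) (by linarith) (by linarith) hV0 hVD hU (w := fun _ _ => 1) (v := 1) norm_one hq hc
    (Eventually.of_forall fun _ _ _ => le_rfl) w2
  rw [hone β1] at F2
  rw [hone β2] at F3
  have key := chan_hg (P := P) (Q := Q) (V := V) (v := 1) norm_one (g1 := (Prod.fst : Pie → C(unitInterval, ℂ)))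
    (y1 := yP) (e := e) (L := L) (bn := bn) (e' := e') (L' := L') (bn' := bn') (D0 := D0) (D1 := D1) (h := h) (rz := 0) (h' := h')
    (rz' := 0) (by linarith) hP.rr p3 (by linarith) hQ.rr q3 hV F2 F3 he he' (by linarith) (by linarith)
    (by linarith) (by linarith) a3 a3' a4 (by linarith) (by linarith) (a := x) (c0 := x.1) hx hD0 hD1 hi
    (fun t => by rw [one_mul]) (by
      show -(x.1 1 - x.1 0) = -(1 * x.1 1)
      rw [hx.1, sub_zero, one_mul])
    (z := (h : ℂ) * (ev 1 - ev 0)) (z' := (h : ℂ) * (ev 2 - ev 0)) (w := (h' : ℂ) * (ev 2 - ev 0))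
    (w' := (h' : ℂ) * (ev 1 - ev 0)) (by rw [ev_zero, one_mul, sub_self, norm_zero])
    (by rw [ev_zero, one_mul, sub_self, norm_zero]) (by rw [ev_zero, one_mul, sub_self, norm_zero])
    (by rw [ev_zero, one_mul, sub_self, norm_zero])
  obtain ⟨m, hm, m1, m2⟩ : ∃ m : ℝ, 0 < m ∧ m < r ∧ m < r' :=
    ⟨min r r' / 2, by positivity, by have := min_le_left r r'; have : 0 < min r r' := lt_min hr hr'; linarith [min_le_left r r'],
      by have : 0 < min r r' := lt_min hr hr'; linarith [min_le_right r r']⟩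
  exact key.sec measurable_fst dsp_cont.measurable.neg measurable_fst dsp_cont.measurable.neg hm
    (Metric.closedBall_subset_ball m1) (Metric.closedBall_subset_ball m1) (Metric.closedBall_subset_ball m2)
    (Metric.closedBall_subset_ball m2)

end Ln

end Pool.Agent.ROT.F3
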