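import Pool.Agent.ROT.F3Fin1b
import Pool.Agent.ROT.F3Fin6
import Pool.Agent.ROT.F3GenM
import Pool.Agent.ROT.F3W7t
import Pool.Agent.ROT.F3CvU
import Pool.Agent.ROT.F3LrG
import Pool.Agent.ROT.F3SAI

/-!
# ROT, F3 (helper31): the output of the marks (the concrete `MO : MoT`), ONE family of gates

`V = U.map Nm`, `PG = PGl V bb` (helper58). Family (F3GenM): end `E` (`false` = p, `true` = q), class `a`, arm `κ`: `F0 E a` = native
gates of all four arms read with the data of the end `E` in the direction `ev (dxB E a)`; `F1 E a` = foreign gates over the functional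
thresholds, in the frame of the words; the gates of a pair are `prG F i j`.

* `MemL` : locality of the gates of one member; `MDat` : the data; **`GenO`** : the conclusion of the generic choice;
* **`MOut`**, **`MO`** : the output of the marks; **`GenRow`** : the generic row.
-/

set_option autoImplicit false

noncomputable section

open MeasureTheory Filter Topology Set unitInterval
open scoped ENNReal NNReal

namespace Pool.Agent.ROT.F3E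

open Pool.Agent.ROT.F3 Pool.Agent.ROT.F3.CC Pool.Agent.ROT.F3.CK Pool.Agent.ROT.F3.LF Pool.Agent.ROT.F3.LR Pool.Agent.ROT.F3.Bt
open Pool.Agent.ROT.F (Nm nm_bd nm_ratio nm_top)

/-! ### 1. Locality of a member -/

/-- **locality of the gates of one member** in its frame: records `G`, all arms with the same `T`, bases `b`, curves `X` -/
structure MemL (R R2 R3 z lo hi rl sl rr sr : ℝ) (T : LSym) (G : F3.GP) (F : Ga) (b : Arm → CC.Gm → ℝ) (X : Set CC.Gm)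
    (Xc Xx Xy : Arm → CC.Gm → ℝ) : Prop where
  gm : ∀ κ, ∀ g ∈ X, GMk (F.B κ) (F.c κ) (F.x κ) (b κ) T κ G.l G.m (Xc κ) (Xx κ) (Xy κ) g
  lx : ∀ κ κ', LocS R R2 z G.l lo hi rl sl rr sr T κ X (b κ) (Xc κ) (Xx κ) T κ' X (b κ') (Xc κ') (Xx κ')
  ly : ∀ κ κ', LocS R R3 z G.l lo hi rl sl rr sr T κ X (b κ) (Xc κ) (Xy κ) T κ' X (b κ') (Xc κ') (Xy κ')

/-! ### 2. The data -/

/-- the data of the marks -/
structure MDat where
  ρ : ℝ
  τ : ℝ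
  bb : ℕ
  /-- origin of the cells -/
  t0 : ℝ
  /-- the roots are farther than `c0` -/
  c0 : ℝ
  /-- cut of the functional thresholds -/
  Rm : ℝ
  /-- records of the native gates of the two ends, with the auxiliary radii -/
  K0 : Bool → F3.GP
  /-- records of the foreign gates -/
  K1 : Bool → F3.GP
  F0 : Bool → Fin 3 → Ga
  F1 : Bool → Fin 3 → Ga
  /-- the functional thresholds on the words -/
  y : Bool → Fin 3 → Arm → ℕ → W3 × ℕ → ℝ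
  /-- cells of the pair -/
  Hl : Fin 3 → Fin 3 → ℕ → ℕ → Ga
  /-- good curves -/
  X : Set CC.Gm

/-- native gates of the pair `k` -/
abbrev MDat.G0 (D : MDat) (k : Fin 3) : Ga := prG D.F0 (fA k) (fB k)

/-- foreign gates of the pair `k` -/
abbrev MDat.H (D : MDat) (k : Fin 3) : Ga := prG D.F1 (fA k) (fB k)

/-- functional thresholds of the pair `k` -/
abbrev MDat.A (D : MDat) (P : Prm) (k : Fin 3) : CC.Gm → Fin 4 → ℝ := axF P (fA k) (fB k) (D.G0 k) D.Rm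

/-- the good curves of the class of the pair `k` -/
def MDat.Xk (D : MDat) (P : Prm) (k : Fin 3) : Set CC.Gm := {g | g ∈ D.X ∧ jw0 P (fA k) (fB k) (D.G0 k) g ≠ 0}

/-- the good curves with far roots -/
def MDat.Xf (D : MDat) : Set CC.Gm := {g | g ∈ D.X ∧ D.c0 < ‖g.2.2 (pji (muG g))‖}

/-- **what is known about the gates**; `PG = PGl V bb` -/
structure GenO (V : Ultrafilter ℕ) (P : Prm) (D : MDat) (PG : Measure CC.Gm) : Prop where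
  /-- the packages of the pairs (helper2) -/
  pk : ∀ i j, i ≠ j → j ≠ 0 → Pk (V : Filter ℕ) D.bb PG P i j D.t0 D.c0 (fun κ => D.K0 (eA κ)) (fun κ => D.K1 (eA κ)) (prG D.F0 i j)
    (prG D.F1 i j) (D.Hl i j) (prY D.y i j) (axF P i j (prG D.F0 i j) D.Rm)
  /-- the members on the arm `fp` (helper86) -/
  one : ∀ E a, OneIn (V : Filter ℕ) D.bb PG (dxB E a) P.u (enB P E) D.c0 D.X (D.K0 E) (D.K1 E) (D.y E a .fp)
    (fun h => axM P D.F0 D.Rm E a .fp (rotX P.u h)) ((D.F0 E a).B .fp) ((D.F1 E a).B .fp) ((D.F0 E a).c .fp) ((D.F0 E a).x .fp)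
    ((D.F1 E a).c .fp) ((D.F1 E a).x .fp)
  ms0 : ∀ E a, (D.F0 E a).Ms
  ms1 : ∀ E a, (D.F1 E a).Ms
  /-- good curves -/
  mX : MeasurableSet D.X
  aeX : ∀ᵐ g ∂PG, g ∈ D.X
  pos : ∀ g ∈ D.X, 0 < g.2.1 ∧ g.2.1 < g.1 ∧ g.2.2 0 = 0 ∧ g.2.2 1 = 0
  un0 : ∀ E a, ∀ g ∈ D.X, (D.F0 E a).Un g
  un1 : ∀ E a, ∀ g ∈ D.X, ((D.F1 E a).rot P.u).Un g
  t01 : ∀ E a, ∀ g ∈ D.X, ∀ κ, (D.F0 E a).tx κ g ∈ Icc (0 : ℝ) 1 ∧ (D.F0 E a).tc κ g ∈ Icc (0 : ℝ) 1 ∧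
    ((D.F1 E a).rot P.u).tx κ g ∈ Icc (0 : ℝ) 1 ∧ ((D.F1 E a).rot P.u).tc κ g ∈ Icc (0 : ℝ) 1
  jh : ∀ k, ∀ g ∈ D.X, JhIn P (fA k) (fB k) (D.G0 k) (D.H k) (fun κ g => D.A P k g (sA κ)) g
  /-- the functional thresholds on the good curves -/
  ax : ∀ E a κ, ∀ g ∈ D.X, g ∈ (D.F0 E a).B κ → 0 < axM P D.F0 D.Rm E a κ g ∧
    lv (P.u * ev (dxB E a)) (g.2.2 ((D.F0 E a).ix κ g) - g.2.2 (rtA κ g)) = axM P D.F0 D.Rm E a κ g
  /-- the curves with gates have far roots (helper2) -/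
  fr0 : ∀ E a κ, ∀ g ∈ D.X, g ∈ (D.F0 E a).B κ → D.c0 < ‖g.2.2 (pji (muG g))‖
  fr1 : ∀ E a κ, ∀ g ∈ D.X, g ∈ ((D.F1 E a).rot P.u).B κ → D.c0 < ‖g.2.2 (pji (muG g))‖
  /-- locality of the foreign gates of the members, frame of the words (helper37: `GMk`, `LocS`, `GNum`) -/
  l1 : ∀ E a, ∃ z Dd R R2 R3 lo hi rl sl rr sr : ℝ, GNum (enB P E) ‖P.u - 1‖ z Dd (19500000 * D.ρ) R R2 R3 lo hi rl sl rr sr ∧
    (∀ E', (enB P E').n.r + (enB P E').n.r2 ≤ z) ∧ (∀ a, Dd ≤ (P.wd (wnA P a)).D0) ∧ 1004 * R2 + z ≤ 19500000 * D.ρ ∧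
    1004 * R3 + z ≤ 19500000 * D.ρ ∧ ∃ Xc Xx Xy : Arm → CC.Gm → ℝ,
      MemL R R2 R3 z lo hi rl sl rr sr (rS (-dxB E a)) (D.K1 E) (D.F1 E a) (fun κ h => axM P D.F0 D.Rm E a κ (rotX P.u h))
        {h | rotX P.u h ∈ D.Xf} Xc Xx Xy
  /-- locality at two places of the same end and class (helper37) -/
  gt : ∀ k κ k' κ', eA κ = eA κ' → clA (fA k) (fB k) κ = clA (fA k') (fB k') κ' → GtLoc P (fA k) (fB k) (D.G0 k) ((D.H k).rot P.u) κ
    (fA k') (fB k') (D.G0 k') ((D.H k').rot P.u) κ' (19500000 * D.ρ) (D.Xk P k) (D.Xk P k')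
  /-- the limit objects of the three pairs (helper17, helper12; only for the proof of `MkRow`) -/
  pc : ∀ k, ∃ Gd, PkC V D.bb PG P (fA k) (fB k) D.t0 (D.G0 k) (D.H k) (D.Hl (fA k) (fB k)) (prY D.y (fA k) (fB k)) (D.A P k) Gd

/-! ### 3. The output of the marks -/

/-- **what is known** -/
structure MOut (U : Ultrafilter ℕ) (P : Prm) (β b : Fin 3 → Measure Pie) (t t' : Fin 3 → Pie → ℝ) (C : Fin 3 → Set Pie)
    (D : MDat) : Prop where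
  near : NearP P.u D.ρ D.τ P
  ρ0 : 0 < D.ρ
  τ0 : 0 < D.τ
  c0 : 0 < D.c0 ∧ D.c0 < 1000000000 * D.ρ
  bb1 : 1 ≤ D.bb
  cv : LF.Cv ((U.map Nm : Ultrafilter ℕ) : Filter ℕ) (fun N => mwE N D.bb) cN (PGl (U.map Nm) D.bb)
  inv : ∀ v : ℂ, ‖v‖ = 1 → (PGl (U.map Nm) D.bb).map (rotX v) = PGl (U.map Nm) D.bb
  fin : IsFiniteMeasure (PGl (U.map Nm) D.bb)
  aep : ∀ᵐ g ∂(PGl (U.map Nm) D.bb), 0 < g.2.1 ∧ g.2.1 < g.1
  gen : GenO (U.map Nm) P D (PGl (U.map Nm) D.bb)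
  vc : ∀ a, ∀ x ∈ C a, (x, (t a x, t' a x)) ∈ VC P a
  tt : ∀ᵐ x ∂(β 0), x ∈ C 0 → x ∈ TT (β 1) (cZ0 P 0 1 D.ρ) (cW0 P 0 1 D.ρ)
  m3 : ∀ k, Mk3 (PGl (U.map Nm) D.bb) (jw0 P (fA k) (fB k) (D.G0 k)) (jT (D.G0 k)) (jF1 P (fA k) (fB k) (D.G0 k) (D.H k))
    (jF2 P (fA k) (fB k) (D.G0 k) (D.H k)) (jSF P (D.H k)) (C (fA k)) (C (fB k)) (t (fA k)) (t' (fA k)) (t (fB k)) (t' (fB k))
  zf : ∀ k, IsFiniteMeasure (((PGl (U.map Nm) D.bb).withDensity (jw0 P (fA k) (fB k) (D.G0 k))).map (dat (jT (D.G0 k)))) ∧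
    Den (((PGl (U.map Nm) D.bb).withDensity (jw0 P (fA k) (fB k) (D.G0 k))).map (dat (jT (D.G0 k))))
      ((β (fA k)).prod ((β (fB k)).prod volume))
      (DD Prod.fst Prod.fst yP yP (cZ0 P (fA k) (fB k) D.ρ) (cW0 P (fA k) (fB k) D.ρ)) (zw yP yP) (fun _ => 1) ∧
    ((β (fA k)).prod ((β (fB k)).prod volume)).restrict
      (DD Prod.fst Prod.fst yP yP (cZ0 P (fA k) (fB k) D.ρ) (cW0 P (fA k) (fB k) D.ρ)) ≪
        (((PGl (U.map Nm) D.bb).withDensity (jw0 P (fA k) (fB k) (D.G0 k))).map (dat (jT (D.G0 k)))).map Prod.snd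
  pr : ∀ k, PrAll P D.ρ β b t t' C (fA k) (fB k)

/-- **THE OUTPUT OF THE MARKS** -/
def MO : MoT := fun U P β b t t' C => ∃ D : MDat, MOut U P β b t t' C D

/-- **the generic row** (helper11): the number `bb` is above the lengths of the words of `P` -/
def GenRow (z : ℂ) : Prop := ∃ τ0 : ℝ, 0 < τ0 ∧ ∀ τ : ℝ, 0 < τ → τ ≤ τ0 → AEv z τ fun U P =>
  GnQ (U.map Nm : Ultrafilter ℕ) P.p.n ∧ GnQ (U.map Nm : Ultrafilter ℕ) P.p.f ∧ ∃ D : MDat, 1 ≤ D.bb ∧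
    (∀ i j, i ≠ j → (jD0 P i j).len ≤ D.bb ∧ (jDR P i j).len ≤ D.bb) ∧ D.τ = τ ∧ 0 < D.ρ ∧ NearP z D.ρ τ P ∧
    (0 < D.c0 ∧ D.c0 < 1000000000 * D.ρ) ∧ GenO (U.map Nm) P D (PGl (U.map Nm) D.bb)

end Pool.Agent.ROT.F3E
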