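import Pool.Agent.ROT.F3LocR
import Pool.Agent.ROT.F3MO

/-!
# ROT, F3 (B) (helper51): the row LOC

* **`MOut.lc`** : the data `LcIn` of the locality of the class 0 from the output of the marks; **`locRow`** : `LocRow z MO`.
-/

set_option autoImplicit false

noncomputable section

open MeasureTheory Filter Topology Set unitInterval
open scoped ENNReal NNReal

namespace Pool.Agent.ROT.F3E

open Pool.Agent.ROT.F3 Pool.Agent.ROT.F3.CC Pool.Agent.ROT.F3.CK Pool.Agent.ROT.F3.LF Pool.Agent.ROT.F3.LR Pool.Agent.ROT.F3.Bt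
open Pool.Agent.ROT.F (Nm nm_bd nm_ratio nm_top)

/-- **the data of the locality of the class 0** -/
theorem MOut.lc {U : Ultrafilter ℕ} {P : Prm} (hP : P.Ok) {β b : Fin 3 → Measure Pie} {t t' : Fin 3 → Pie → ℝ}
    {C : Fin 3 → Set Pie} {D : MDat} (h : MOut U P β b t t' C D) :
    LcIn P D.ρ (19500000 * D.ρ) (β 0) (β 1) (C 0) (PGl (U.map Nm) D.bb) (jw0 P 0 1 (D.G0 0)) (jT (D.G0 0)) (D.G0 0) (D.H 0)
      (D.Xk P 0) := by
  have := h.fin
  obtain ⟨-, -, n3, n4, n5⟩ := num_R0 hP h.ρ0 h.near (R0 := 19500000 * D.ρ) (by linarith [h.ρ0]) (by linarith [h.ρ0])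
  have G := h.gen
  refine lcIn_of hP h.aep (prG_ms G.ms0 _ _) (prG_ms G.ms1 _ _) ?_ ?_ ?_ h.tt (h.zf 0).2.2 n3 n4 n5
    (G.gt 0 .fp 0 .fp rfl rfl).ga (G.gt 0 .bq 0 .bq rfl rfl).ga
  · filter_upwards [G.aeX] with g hg hw
    exact ⟨hg, hw⟩
  · filter_upwards [G.aeX] with g hg
    exact ⟨fun k e => (G.un0 _ _ g hg).h k e⟩
  · filter_upwards [(h.m3 0).h1] with g hg hw
    exact (hg hw).1

/-- **the row LOC** -/
theorem locRow (z : ℂ) : LocRow z MO := by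
  refine ⟨1, one_pos, fun τ _ _ => AEv.of_all (k0 := 1) (K1 := 1) one_pos one_pos fun k K _ _ _ => ⟨1, one_pos,
    fun ρ _ _ U hU P hP _ _ => ?_⟩⟩
  rintro β b t t' C HL mt mt' mC ⟨D, hD⟩
  obtain ⟨n1, n2, -⟩ := num_R0 hP hD.ρ0 hD.near (R0 := 19500000 * D.ρ) (by linarith [hD.ρ0]) (by linarith [hD.ρ0])
  exact (hD.lc hP).locD hP n1 n2 (nm_map_top hU) HL hD.ρ0

end Pool.Agent.ROT.F3E
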