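import Pool.Agent.CRT.WinK
import Pool.Agent.SIM.FinAllS

/-!
# ROT, block F (helper5): from the rotation invariance of the limits to the statement for every number of steps

* `unif_of_tendsto` : weak convergence is uniform over the functions bounded by `1` with Lipschitz constant `1`;
* **`rot_unif`** : if every subsequence has a further one with a rotation invariant limit, the laws are asymptotically rotation
  invariant, uniformly over all rotations and all these functions;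
* `dir_mean` : a rotation invariant law of curves with `γ 1 ≠ 0`: the direction of `γ 1` is uniform;
* **`walk_unif`**, **`walk_dir`** : the walks, from `RotW`.
-/

set_option autoImplicit false

open MeasureTheory Filter Topology Set
open scoped Classical ENNReal

namespace Pool.Agent.ROT

open Pool.Agent.NTS.Res

/-- the limits of the laws of the walks are invariant under the rotations -/
def RotW : Prop := ∀ (φ : ℕ → ℕ) (ν : ProbabilityMeasure C(unitInterval, ℂ)), Tendsto φ atTop atTop →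
  LawTo φ (ν : Measure C(unitInterval, ℂ)) → ∀ z : ℂ, ‖z‖ = 1 →
    (ν : Measure C(unitInterval, ℂ)).map (fun γ => z • γ) = (ν : Measure C(unitInterval, ℂ))

theorem unif_of_tendsto {ρ : ℕ → ProbabilityMeasure C(unitInterval, ℂ)} {ν : ProbabilityMeasure C(unitInterval, ℂ)}
    (h : Tendsto ρ atTop (𝓝 ν)) {ε : ℝ} (hε : 0 < ε) :
    ∀ᶠ k in atTop, ∀ F : C(unitInterval, ℂ) → ℝ, (∀ γ, |F γ| ≤ 1) → LipschitzWith 1 F →
      |∫ γ, F γ ∂(ρ k : Measure C(unitInterval, ℂ)) - ∫ γ, F γ ∂(ν : Measure C(unitInterval, ℂ))| ≤ ε := by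
  have hδ : 0 < min (ε / 4) 1 := lt_min (by positivity) one_pos
  have h1 : Tendsto (fun k => LevyProkhorov.ofMeasure (ρ k)) atTop (𝓝 (LevyProkhorov.ofMeasure ν)) :=
    (NTSF.Mg.toLP_cont.tendsto ν).comp h
  have h2 := (Metric.tendsto_nhds.1 h1) (min (ε / 4) 1) hδ
  filter_upwards [h2] with k hk F hF hL
  have h3 : levyProkhorovDist (ρ k : Measure C(unitInterval, ℂ)) (ν : Measure C(unitInterval, ℂ)) < min (ε / 4) 1 := hk
  have h4 := CRT.lp_lip hδ (min_le_right _ _) h3 hL hF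
  have h5 : 4 * min (ε / 4) 1 ≤ ε := by
    have := min_le_left (ε / 4) 1
    linarith
  exact h4.trans h5

lemma smul_cont (z : ℂ) : Continuous fun γ : C(unitInterval, ℂ) => z • γ := continuous_const_smul z

lemma smul_lip {z : ℂ} (hz : ‖z‖ = 1) {F : C(unitInterval, ℂ) → ℝ} (hF : LipschitzWith 1 F) :
    LipschitzWith 1 fun γ => F (z • γ) := by
  refine LipschitzWith.of_dist_le_mul fun a b => ?_
  refine (hF.dist_le_mul _ _).trans ?_
  rw [NNReal.coe_one, one_mul, one_mul, ContinuousMap.dist_le dist_nonneg]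
  intro x
  rw [ContinuousMap.smul_apply, ContinuousMap.smul_apply, dist_smul₀, hz, one_mul]
  exact ContinuousMap.dist_apply_le_dist x

lemma int_rot {ν : ProbabilityMeasure C(unitInterval, ℂ)} {z : ℂ}
    (h : (ν : Measure C(unitInterval, ℂ)).map (fun γ => z • γ) = (ν : Measure C(unitInterval, ℂ)))
    {F : C(unitInterval, ℂ) → ℝ} (hF : Continuous F) :
    ∫ γ, F (z • γ) ∂(ν : Measure C(unitInterval, ℂ)) = ∫ γ, F γ ∂(ν : Measure C(unitInterval, ℂ)) := by
  conv_rhs => rw [← h]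
  rw [integral_map (smul_cont z).measurable.aemeasurable hF.aestronglyMeasurable]

/-- **asymptotic rotation invariance**, abstract form -/
theorem rot_unif {ρ : ℕ → ProbabilityMeasure C(unitInterval, ℂ)}
    (hc : ∀ φ : ℕ → ℕ, StrictMono φ → ∃ ψ : ℕ → ℕ, StrictMono ψ ∧ ∃ ν : ProbabilityMeasure C(unitInterval, ℂ),
      Tendsto (fun k => ρ (φ (ψ k))) atTop (𝓝 ν) ∧ ∀ z : ℂ, ‖z‖ = 1 →
        (ν : Measure C(unitInterval, ℂ)).map (fun γ => z • γ) = (ν : Measure C(unitInterval, ℂ)))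
    {ε : ℝ} (hε : 0 < ε) : ∃ n₀ : ℕ, ∀ n : ℕ, n₀ ≤ n → ∀ z : ℂ, ‖z‖ = 1 → ∀ F : C(unitInterval, ℂ) → ℝ, (∀ γ, |F γ| ≤ 1) →
      LipschitzWith 1 F →
        |∫ γ, F (z • γ) ∂(ρ n : Measure C(unitInterval, ℂ)) - ∫ γ, F γ ∂(ρ n : Measure C(unitInterval, ℂ))| ≤ ε := by
  by_contra hcon
  obtain ⟨Bad, hBad⟩ : ∃ Bad : ℕ → Prop, Bad = fun n => ∃ (z : ℂ) (F : C(unitInterval, ℂ) → ℝ), ‖z‖ = 1 ∧
      (∀ γ, |F γ| ≤ 1) ∧ LipschitzWith 1 F ∧
      ε < |∫ γ, F (z • γ) ∂(ρ n : Measure C(unitInterval, ℂ)) - ∫ γ, F γ ∂(ρ n : Measure C(unitInterval, ℂ))| := ⟨_, rfl⟩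
  have hf : ∃ᶠ n in atTop, Bad n := by
    rw [frequently_atTop]
    intro a
    by_contra h
    refine hcon ⟨a, fun n hn z hz F hF hL => ?_⟩
    by_contra h'
    refine h ⟨n, hn, ?_⟩
    rw [hBad]
    exact ⟨z, F, hz, hF, hL, not_le.1 h'⟩
  obtain ⟨φ, hφ, hb⟩ := extraction_of_frequently_atTop hf
  obtain ⟨ψ, hψ, ν, hν, hr⟩ := hc φ hφ
  have hu := unif_of_tendsto hν (ε := ε / 4) (by positivity)
  obtain ⟨k, hk⟩ := hu.exists
  have hbk := hb (ψ k)
  rw [hBad] at hbk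
  obtain ⟨z, F, hz, hF, hL, hlt⟩ := hbk
  have h1 := hk F hF hL
  have h2 := hk (fun γ => F (z • γ)) (fun γ => hF _) (smul_lip hz hL)
  have h3 := int_rot (hr z hz) hL.continuous
  rw [h3] at h2
  have h4 : |∫ γ, F (z • γ) ∂(ρ (φ (ψ k)) : Measure C(unitInterval, ℂ)) -
      ∫ γ, F γ ∂(ρ (φ (ψ k)) : Measure C(unitInterval, ℂ))| ≤ ε / 4 + ε / 4 := by
    have h5 : ∫ γ, F (z • γ) ∂(ρ (φ (ψ k)) : Measure C(unitInterval, ℂ)) -
      ∫ γ, F γ ∂(ρ (φ (ψ k)) : Measure C(unitInterval, ℂ)) =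
        (∫ γ, F (z • γ) ∂(ρ (φ (ψ k)) : Measure C(unitInterval, ℂ)) - ∫ γ, F γ ∂(ν : Measure C(unitInterval, ℂ))) -
          (∫ γ, F γ ∂(ρ (φ (ψ k)) : Measure C(unitInterval, ℂ)) - ∫ γ, F γ ∂(ν : Measure C(unitInterval, ℂ))) := by ring
    rw [h5]
    exact (abs_sub _ _).trans (add_le_add h2 h1)
  linarith

/-! ### the direction of the end -/

/-- the mean over the circle -/
noncomputable def circ (g : ℂ → ℝ) : ℝ := (∫ t in (0 : ℝ)..2 * Real.pi, g (Complex.exp (t * Complex.I))) / (2 * Real.pi)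

lemma circ_rot (g : ℂ → ℝ) {x : ℂ} (hx : ‖x‖ = 1) :
    ∫ t in (0 : ℝ)..2 * Real.pi, g (Complex.exp (t * Complex.I) * x) = 2 * Real.pi * circ g := by
  have hx0 : x ≠ 0 := by
    intro h
    rw [h, norm_zero] at hx
    exact zero_ne_one hx
  have e : x = Complex.exp (x.arg * Complex.I) := by
    conv_lhs => rw [← Complex.norm_mul_exp_arg_mul_I x, hx]
    rw [Complex.ofReal_one, one_mul]
  have hper : Function.Periodic (fun t : ℝ => g (Complex.exp (t * Complex.I))) (2 * Real.pi) := by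
    intro t
    show g (Complex.exp (((t + 2 * Real.pi : ℝ) : ℂ) * Complex.I)) = g (Complex.exp (t * Complex.I))
    congr 1
    rw [Complex.ofReal_add, add_mul]
    have := Complex.exp_periodic (t * Complex.I)
    rw [← this]
    congr 1
    push_cast
    ring
  have h1 : ∀ t : ℝ, g (Complex.exp (t * Complex.I) * x) = (fun t : ℝ => g (Complex.exp (t * Complex.I))) (t + x.arg) := by
    intro t
    show _ = g (Complex.exp (((t + x.arg : ℝ) : ℂ) * Complex.I))
    congr 1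
    conv_lhs => rw [e]
    rw [← Complex.exp_add]
    congr 1
    push_cast
    ring
  rw [intervalIntegral.integral_congr (g := fun t => (fun t : ℝ => g (Complex.exp (t * Complex.I))) (t + x.arg))
    (fun t _ => h1 t),
    intervalIntegral.integral_comp_add_right (a := 0) (b := 2 * Real.pi) (fun t : ℝ => g (Complex.exp (t * Complex.I))) x.arg]
  have h2 := hper.intervalIntegral_add_eq (0 + x.arg) 0
  rw [zero_add] at h2
  rw [zero_add, add_comm (2 * Real.pi) x.arg, h2, zero_add]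
  unfold circ
  have : (2 * Real.pi : ℝ) ≠ 0 := by positivity
  exact (mul_div_cancel₀ _ this).symm

lemma int_rot' {ν : ProbabilityMeasure C(unitInterval, ℂ)} {z : ℂ}
    (h : (ν : Measure C(unitInterval, ℂ)).map (fun γ => z • γ) = (ν : Measure C(unitInterval, ℂ)))
    {F : C(unitInterval, ℂ) → ℝ} (hF : Measurable F) :
    ∫ γ, F (z • γ) ∂(ν : Measure C(unitInterval, ℂ)) = ∫ γ, F γ ∂(ν : Measure C(unitInterval, ℂ)) := by
  conv_rhs => rw [← h]
  rw [integral_map (smul_cont z).measurable.aemeasurable hF.aestronglyMeasurable]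

/-- the direction of the end -/
noncomputable def dirE (γ : C(unitInterval, ℂ)) : ℂ := γ 1 / (‖γ 1‖ : ℂ)

lemma dirE_meas : Measurable dirE := by
  have h : Measurable fun γ : C(unitInterval, ℂ) => γ 1 := (continuous_eval_const 1).measurable
  unfold dirE
  exact h.div (Complex.measurable_ofReal.comp h.norm)

lemma dirE_norm (γ : C(unitInterval, ℂ)) : ‖dirE γ‖ ≤ 1 := by
  unfold dirE
  rw [norm_div, Complex.norm_real, norm_norm]
  exact div_self_le_one _

lemma dirE_one {γ : C(unitInterval, ℂ)} (h : γ 1 ≠ 0) : ‖dirE γ‖ = 1 := by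
  unfold dirE
  rw [norm_div, Complex.norm_real, norm_norm, div_self (norm_ne_zero_iff.2 h)]

lemma dirE_smul {z : ℂ} (hz : ‖z‖ = 1) (γ : C(unitInterval, ℂ)) : dirE (z • γ) = z * dirE γ := by
  unfold dirE
  rw [ContinuousMap.smul_apply, smul_eq_mul, norm_mul, hz, one_mul, mul_div_assoc]

lemma bdd_ball {g : ℂ → ℝ} (hg : Continuous g) : ∃ C : ℝ, 0 < C ∧ ∀ x : ℂ, ‖x‖ ≤ 1 → |g x| ≤ C := by
  obtain ⟨C, hC⟩ := (isCompact_closedBall (0 : ℂ) 1).exists_bound_of_continuousOn hg.continuousOn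
  refine ⟨max C 1, lt_of_lt_of_le one_pos (le_max_right _ _), fun x hx => ?_⟩
  exact (hC x (mem_closedBall_zero_iff.2 hx)).trans (le_max_left _ _)

/-- the direction of the end is uniform for a rotation invariant law -/
theorem dir_mean {ν : ProbabilityMeasure C(unitInterval, ℂ)} (hr : ∀ z : ℂ, ‖z‖ = 1 →
      (ν : Measure C(unitInterval, ℂ)).map (fun γ => z • γ) = (ν : Measure C(unitInterval, ℂ)))
    (h0 : ∀ᵐ γ : C(unitInterval, ℂ) ∂(ν : Measure C(unitInterval, ℂ)), γ 1 ≠ 0) {g : ℂ → ℝ} (hg : Continuous g) :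
    ∫ γ, g (dirE γ) ∂(ν : Measure C(unitInterval, ℂ)) = circ g := by
  obtain ⟨C, hC0, hC⟩ := bdd_ball hg
  have hm : Measurable fun γ : C(unitInterval, ℂ) => g (dirE γ) := hg.measurable.comp dirE_meas
  have h2π : (0 : ℝ) < 2 * Real.pi := by positivity
  have hz : ∀ t : ℝ, ‖Complex.exp (t * Complex.I)‖ = 1 := fun t => Complex.norm_exp_ofReal_mul_I t
  have e1 : ∀ t : ℝ, ∫ γ, g (Complex.exp (t * Complex.I) * dirE γ) ∂(ν : Measure C(unitInterval, ℂ)) =
      ∫ γ, g (dirE γ) ∂(ν : Measure C(unitInterval, ℂ)) := by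
    intro t
    have h := int_rot' (hr _ (hz t)) hm
    simp only [dirE_smul (hz t)] at h
    exact h
  have hjm : Measurable fun p : ℝ × C(unitInterval, ℂ) => g (Complex.exp (p.1 * Complex.I) * dirE p.2) := by
    refine hg.measurable.comp (Measurable.mul ?_ (dirE_meas.comp measurable_snd))
    exact (by fun_prop : Continuous fun t : ℝ => Complex.exp (t * Complex.I)).measurable.comp measurable_fst
  have hsw : ∫ t in Ioc (0 : ℝ) (2 * Real.pi), ∫ γ, g (Complex.exp (t * Complex.I) * dirE γ) ∂(ν : Measure C(unitInterval, ℂ)) =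
      ∫ γ, (∫ t in Ioc (0 : ℝ) (2 * Real.pi), g (Complex.exp (t * Complex.I) * dirE γ)) ∂(ν : Measure C(unitInterval, ℂ)) := by
    refine integral_integral_swap ?_
    refine Integrable.of_bound hjm.aestronglyMeasurable C (Eventually.of_forall fun p => ?_)
    show ‖g (Complex.exp (p.1 * Complex.I) * dirE p.2)‖ ≤ C
    refine hC _ ?_
    rw [norm_mul, hz, one_mul]
    exact dirE_norm _
  have e2 : ∀ᵐ γ : C(unitInterval, ℂ) ∂(ν : Measure C(unitInterval, ℂ)),
      ∫ t in Ioc (0 : ℝ) (2 * Real.pi), g (Complex.exp (t * Complex.I) * dirE γ) = 2 * Real.pi * circ g := by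
    filter_upwards [h0] with γ hγ
    rw [← intervalIntegral.integral_of_le h2π.le]
    exact circ_rot g (dirE_one hγ)
  rw [integral_congr_ae e2] at hsw
  simp only [e1] at hsw
  have h3 : (2 * Real.pi) * ∫ γ, g (dirE γ) ∂(ν : Measure C(unitInterval, ℂ)) = 2 * Real.pi * circ g := by
    have hl : ∫ _t in Ioc (0 : ℝ) (2 * Real.pi), ∫ γ, g (dirE γ) ∂(ν : Measure C(unitInterval, ℂ)) =
        (2 * Real.pi) * ∫ γ, g (dirE γ) ∂(ν : Measure C(unitInterval, ℂ)) := by
      rw [← intervalIntegral.integral_of_le h2π.le, intervalIntegral.integral_const, sub_zero, smul_eq_mul]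
    rw [← hl, hsw]
    simp
  exact mul_left_cancel₀ h2π.ne' h3

/-- a smooth cut of the curves with the end near `0` -/
noncomputable def cutE (δ : ℝ) (u : ℂ) : ℝ := min 1 (‖u‖ / δ)

lemma cutE_cont (δ : ℝ) : Continuous (cutE δ) := by
  unfold cutE
  fun_prop

lemma cutE_nonneg {δ : ℝ} (hδ : 0 < δ) (u : ℂ) : 0 ≤ cutE δ u := le_min zero_le_one (by positivity)

lemma cutE_le (δ : ℝ) (u : ℂ) : cutE δ u ≤ 1 := min_le_left _ _

lemma cut_mul_cont {g : ℂ → ℝ} (hg : Continuous g) {δ : ℝ} (hδ : 0 < δ) :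
    Continuous fun u : ℂ => cutE δ u * g (u / (‖u‖ : ℂ)) := by
  obtain ⟨C, hC0, hC⟩ := bdd_ball hg
  rw [continuous_iff_continuousAt]
  intro u
  by_cases hu : u = 0
  · rw [hu]
    unfold ContinuousAt
    have e0 : cutE δ 0 * g (0 / ((‖(0 : ℂ)‖ : ℝ) : ℂ)) = 0 := by
      unfold cutE
      rw [norm_zero, zero_div, min_eq_right zero_le_one, zero_mul]
    show Tendsto (fun u : ℂ => cutE δ u * g (u / (‖u‖ : ℂ))) (𝓝 0) (𝓝 (cutE δ 0 * g (0 / ((‖(0 : ℂ)‖ : ℝ) : ℂ))))
    rw [e0]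
    have h1 : Tendsto (fun u : ℂ => cutE δ u * C) (𝓝 0) (𝓝 0) := by
      have h : Tendsto (fun u : ℂ => cutE δ u * C) (𝓝 0) (𝓝 (cutE δ 0 * C)) := ((cutE_cont δ).tendsto 0).mul_const C
      have e1 : cutE δ 0 * C = 0 := by
        unfold cutE
        rw [norm_zero, zero_div, min_eq_right zero_le_one, zero_mul]
      rwa [e1] at h
    refine squeeze_zero_norm (fun u => ?_) h1
    rw [norm_mul, Real.norm_eq_abs, Real.norm_eq_abs, abs_of_nonneg (cutE_nonneg hδ u)]
    refine mul_le_mul_of_nonneg_left (hC _ ?_) (cutE_nonneg hδ u)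
    rw [norm_div, Complex.norm_real, norm_norm]
    exact div_self_le_one _
  · have h1 : ContinuousAt (fun u : ℂ => u / ((‖u‖ : ℝ) : ℂ)) u := by
      refine continuousAt_id.div ?_ ?_
      · exact (Complex.continuous_ofReal.comp continuous_norm).continuousAt
      · exact_mod_cast norm_ne_zero_iff.2 hu
    exact (cutE_cont δ).continuousAt.mul (ContinuousAt.comp (g := g) hg.continuousAt h1)

lemma eval_cont : Continuous fun γ : C(unitInterval, ℂ) => γ 1 := continuous_eval_const 1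

lemma int_bcf {ρ : ℕ → ProbabilityMeasure C(unitInterval, ℂ)} {ν : ProbabilityMeasure C(unitInterval, ℂ)}
    (h : Tendsto ρ atTop (𝓝 ν)) {f : C(unitInterval, ℂ) → ℝ} (hf : Continuous f) {C : ℝ} (hC : ∀ γ, |f γ| ≤ C) :
    Tendsto (fun k => ∫ γ, f γ ∂(ρ k : Measure C(unitInterval, ℂ))) atTop (𝓝 (∫ γ, f γ ∂(ν : Measure C(unitInterval, ℂ)))) :=
  ProbabilityMeasure.tendsto_iff_forall_integral_tendsto.1 h (BoundedContinuousFunction.ofNormedAddCommGroup f hf C hC)

/-- weak convergence and the direction of the end -/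
theorem dir_lim {ρ : ℕ → ProbabilityMeasure C(unitInterval, ℂ)} {ν : ProbabilityMeasure C(unitInterval, ℂ)}
    (h : Tendsto ρ atTop (𝓝 ν)) (h0 : ∀ᵐ γ : C(unitInterval, ℂ) ∂(ν : Measure C(unitInterval, ℂ)), γ 1 ≠ 0)
    {g : ℂ → ℝ} (hg : Continuous g) :
    Tendsto (fun k => ∫ γ, g (dirE γ) ∂(ρ k : Measure C(unitInterval, ℂ))) atTop
      (𝓝 (∫ γ, g (dirE γ) ∂(ν : Measure C(unitInterval, ℂ)))) := by
  obtain ⟨C, hC0, hC⟩ := bdd_ball hg
  have hm : Measurable fun γ : C(unitInterval, ℂ) => g (dirE γ) := hg.measurable.comp dirE_meas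
  have hgb : ∀ γ : C(unitInterval, ℂ), |g (dirE γ)| ≤ C := fun γ => hC _ (dirE_norm γ)
  -- the error of the cut
  have herr : ∀ (σ : ProbabilityMeasure C(unitInterval, ℂ)) (δ : ℝ), 0 < δ →
      |∫ γ, g (dirE γ) ∂(σ : Measure C(unitInterval, ℂ)) -
        ∫ γ, cutE δ (γ 1) * g (dirE γ) ∂(σ : Measure C(unitInterval, ℂ))| ≤
      C * ∫ γ, (1 - cutE δ (γ 1)) ∂(σ : Measure C(unitInterval, ℂ)) := by
    intro σ δ hδ
    have i1 : Integrable (fun γ : C(unitInterval, ℂ) => g (dirE γ)) (σ : Measure C(unitInterval, ℂ)) :=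
      Integrable.of_bound hm.aestronglyMeasurable C (Eventually.of_forall hgb)
    have i2 : Integrable (fun γ : C(unitInterval, ℂ) => cutE δ (γ 1) * g (dirE γ)) (σ : Measure C(unitInterval, ℂ)) := by
      refine Integrable.of_bound ((((cutE_cont δ).comp eval_cont).measurable.mul hm).aestronglyMeasurable) C
        (Eventually.of_forall fun γ => ?_)
      rw [Real.norm_eq_abs, abs_mul, abs_of_nonneg (cutE_nonneg hδ _)]
      calc cutE δ (γ 1) * |g (dirE γ)| ≤ 1 * C := mul_le_mul (cutE_le _ _) (hgb γ) (abs_nonneg _) zero_le_one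
        _ = C := one_mul C
    have i3 : Integrable (fun γ : C(unitInterval, ℂ) => 1 - cutE δ (γ 1)) (σ : Measure C(unitInterval, ℂ)) := by
      refine Integrable.of_bound ((continuous_const.sub ((cutE_cont δ).comp eval_cont)).aestronglyMeasurable) 1
        (Eventually.of_forall fun γ => ?_)
      rw [Real.norm_eq_abs, abs_le]
      constructor <;> linarith [cutE_nonneg hδ (γ 1), cutE_le δ (γ 1)]
    rw [← integral_sub i1 i2, ← integral_const_mul]
    refine (abs_integral_le_integral_abs).trans (integral_mono (i1.sub i2).abs (i3.const_mul C) fun γ => ?_)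
    show |g (dirE γ) - cutE δ (γ 1) * g (dirE γ)| ≤ C * (1 - cutE δ (γ 1))
    have e : g (dirE γ) - cutE δ (γ 1) * g (dirE γ) = (1 - cutE δ (γ 1)) * g (dirE γ) := by ring
    rw [e, abs_mul, abs_of_nonneg (by linarith [cutE_le δ (γ 1)] : 0 ≤ 1 - cutE δ (γ 1)), mul_comm]
    exact mul_le_mul_of_nonneg_right (hgb γ) (by linarith [cutE_le δ (γ 1)])
  -- the cut of the limit
  have hlim : Tendsto (fun j : ℕ => ∫ γ, (1 - cutE (1 / ((j : ℝ) + 1)) (γ 1)) ∂(ν : Measure C(unitInterval, ℂ))) atTop (𝓝 0) := by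
    have e0 : (0 : ℝ) = ∫ _γ : C(unitInterval, ℂ), (0 : ℝ) ∂(ν : Measure C(unitInterval, ℂ)) := by simp
    rw [e0]
    refine tendsto_integral_of_dominated_convergence (fun _ => (1 : ℝ)) (fun j => ?_) (integrable_const _) (fun j => ?_) ?_
    · exact (continuous_const.sub ((cutE_cont _).comp eval_cont)).aestronglyMeasurable
    · refine Eventually.of_forall fun γ => ?_
      have hj : (0 : ℝ) < 1 / ((j : ℝ) + 1) := by positivity
      rw [Real.norm_eq_abs, abs_le]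
      constructor <;> linarith [cutE_nonneg hj (γ 1), cutE_le (1 / ((j : ℝ) + 1)) (γ 1)]
    · filter_upwards [h0] with γ hγ
      have hp : 0 < ‖γ 1‖ := norm_pos_iff.2 hγ
      obtain ⟨J, hJ⟩ := exists_nat_gt (1 / ‖γ 1‖)
      refine tendsto_const_nhds.congr' ?_
      filter_upwards [eventually_ge_atTop J] with j hj
      have hj1 : (J : ℝ) ≤ j := by exact_mod_cast hj
      have h1 : 1 ≤ ‖γ 1‖ / (1 / ((j : ℝ) + 1)) := by
        rw [div_div_eq_mul_div, div_one]
        have h2 : 1 < (j : ℝ) * ‖γ 1‖ := by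
          have := (div_lt_iff₀ hp).1 (hJ.trans_le hj1)
          exact this
        nlinarith
      unfold cutE
      rw [min_eq_left h1, sub_self]
  rw [Metric.tendsto_atTop]
  intro ε hε
  obtain ⟨J, hJ⟩ := ((Metric.tendsto_atTop.1 hlim) (ε / (8 * C)) (by positivity)).imp fun J h => h J le_rfl
  obtain ⟨δ, hδe⟩ : ∃ δ : ℝ, δ = 1 / ((J : ℝ) + 1) := ⟨_, rfl⟩
  have hδ : 0 < δ := by
    rw [hδe]
    positivity
  rw [← hδe, Real.dist_eq, sub_zero] at hJ
  have hνc := (le_abs_self _).trans_lt hJ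
  have c1 := int_bcf h (f := fun γ => cutE δ (γ 1) * g (dirE γ)) ((cut_mul_cont hg hδ).comp eval_cont) (C := C) (fun γ => by
    rw [abs_mul, abs_of_nonneg (cutE_nonneg hδ _)]
    calc cutE δ (γ 1) * |g (dirE γ)| ≤ 1 * C := mul_le_mul (cutE_le _ _) (hgb γ) (abs_nonneg _) zero_le_one
      _ = C := one_mul C)
  have c2 := int_bcf h (f := fun γ => 1 - cutE δ (γ 1)) (continuous_const.sub ((cutE_cont δ).comp eval_cont)) (C := 1)
    (fun γ => by
      rw [abs_le]
      constructor <;> linarith [cutE_nonneg hδ (γ 1), cutE_le δ (γ 1)])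
  obtain ⟨N1, hN1⟩ := (Metric.tendsto_atTop.1 c1) (ε / 4) (by positivity)
  obtain ⟨N2, hN2⟩ := (Metric.tendsto_atTop.1 c2) (ε / (8 * C)) (by positivity)
  refine ⟨max N1 N2, fun k hk => ?_⟩
  have a1 := hN1 k ((le_max_left _ _).trans hk)
  have a2 := hN2 k ((le_max_right _ _).trans hk)
  rw [Real.dist_eq] at a1 a2 ⊢
  have b1 := herr (ρ k) δ hδ
  have b2 := herr ν δ hδ
  have a3 := (abs_lt.1 a2).2
  have hC8 : C * (ε / (8 * C)) = ε / 8 := by
    field_simp
  have b3 : C * ∫ γ, (1 - cutE δ (γ 1)) ∂(ν : Measure C(unitInterval, ℂ)) < ε / 8 := by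
    rw [← hC8]
    exact mul_lt_mul_of_pos_left hνc hC0
  have b4 : C * ∫ γ, (1 - cutE δ (γ 1)) ∂(ρ k : Measure C(unitInterval, ℂ)) < ε / 4 := by
    have h1 : ∫ γ, (1 - cutE δ (γ 1)) ∂(ρ k : Measure C(unitInterval, ℂ)) < ε / (8 * C) + ε / (8 * C) := by linarith
    calc _ < C * (ε / (8 * C) + ε / (8 * C)) := mul_lt_mul_of_pos_left h1 hC0
      _ = ε / 4 := by
        rw [mul_add, hC8]
        ring
  have b5 := (abs_le.1 b1)
  have b6 := (abs_le.1 b2)
  have b7 := (abs_lt.1 a1)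
  rw [abs_lt]
  constructor <;> linarith [b5.1, b5.2, b6.1, b6.2, b7.1, b7.2]

/-! ### the walks -/

/-- subsequences with a limit -/
lemma sub_lim (φ : ℕ → ℕ) (hφ : StrictMono φ) : ∃ ψ : ℕ → ℕ, StrictMono ψ ∧ ∃ ν : ProbabilityMeasure C(unitInterval, ℂ),
    Tendsto (fun k => NTSF.PM (φ (ψ k))) atTop (𝓝 ν) ∧ LawTo (fun k => φ (ψ k)) (ν : Measure C(unitInterval, ℂ)) := by
  obtain ⟨ψ, hψ, ν, hν, hl⟩ := HexObs.SIM.simple_final.2.1 φ hφ
  exact ⟨ψ, hψ, ⟨ν, hν⟩, (NTSF.lawTo_iff ⟨ν, hν⟩).1 hl, hl⟩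

/-- **the walks, every number of steps, uniformly over the rotations and the Lipschitz functions** -/
theorem walk_unif (h : RotW) : ∀ ε : ℝ, 0 < ε → ∃ n₀ : ℕ, ∀ n : ℕ, n₀ ≤ n → ∀ z : ℂ, ‖z‖ = 1 →
    ∀ F : C(unitInterval, ℂ) → ℝ, (∀ γ, |F γ| ≤ 1) → LipschitzWith 1 F →
      |∫ γ, F (z • γ) ∂(law n) - ∫ γ, F γ ∂(law n)| ≤ ε := by
  intro ε hε
  refine rot_unif (ρ := NTSF.PM) (fun φ hφ => ?_) hε
  obtain ⟨ψ, hψ, ν, hν, hl⟩ := sub_lim φ hφ
  exact ⟨ψ, hψ, ν, hν, fun z hz => h _ ν (hφ.comp hψ).tendsto_atTop hl z hz⟩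

/-- the limits start at `0` -/
lemma start_zero {φ : ℕ → ℕ} (hφ : Tendsto φ atTop atTop) {ν : ProbabilityMeasure C(unitInterval, ℂ)}
    (hl : LawTo φ (ν : Measure C(unitInterval, ℂ))) :
    ∀ᵐ γ : C(unitInterval, ℂ) ∂(ν : Measure C(unitInterval, ℂ)), γ 0 = 0 := by
  have hc : Continuous fun γ : C(unitInterval, ℂ) => min 1 ‖γ 0‖ :=
    continuous_const.min (continuous_eval_const 0).norm
  have hb : ∀ γ : C(unitInterval, ℂ), |min 1 ‖γ 0‖| ≤ 1 := fun γ => by
    rw [abs_of_nonneg (le_min zero_le_one (norm_nonneg _))]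
    exact min_le_left _ _
  have h1 := int_bcf ((NTSF.lawTo_iff ν).1 hl) hc hb
  have h2 : ∀ k, ∫ γ : C(unitInterval, ℂ), min 1 ‖γ 0‖ ∂(NTSF.PM (φ k) : Measure C(unitInterval, ℂ)) = 0 := by
    intro k
    show ∫ γ : C(unitInterval, ℂ), min 1 ‖γ 0‖ ∂(law (φ k)) = 0
    rw [NTSF.integral_law, Finset.sum_eq_zero, zero_div]
    intro s _
    rw [NTSF.curve_zero, norm_zero, min_eq_right zero_le_one]
  simp only [h2] at h1
  have h3 := tendsto_nhds_unique h1 tendsto_const_nhds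
  have h4 := (integral_eq_zero_iff_of_nonneg (fun γ => le_min zero_le_one (norm_nonneg _))
    (Integrable.of_bound hc.aestronglyMeasurable 1 (Eventually.of_forall hb))).1 h3
  filter_upwards [h4] with γ hγ
  have h5 : min 1 ‖γ 0‖ = 0 := hγ
  rcases min_choice 1 ‖γ 0‖ with h | h
  · rw [h] at h5
    exact absurd h5 one_ne_zero
  · rw [h] at h5
    exact norm_eq_zero.1 h5

/-- the end of the limits is not at `0` -/
lemma end_ne {φ : ℕ → ℕ} (hφ : Tendsto φ atTop atTop) {ν : ProbabilityMeasure C(unitInterval, ℂ)}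
    (hl : LawTo φ (ν : Measure C(unitInterval, ℂ))) :
    ∀ᵐ γ : C(unitInterval, ℂ) ∂(ν : Measure C(unitInterval, ℂ)), γ 1 ≠ 0 := by
  have h1 := HexObs.SIM.simple_final.2.2 φ ν hφ inferInstance hl
  have h2 := start_zero hφ hl
  filter_upwards [h1, h2] with γ hi h0 he
  exact zero_ne_one (hi (h0.trans he.symm))

/-- **the direction of the end of the walk is asymptotically uniform** -/
theorem walk_dir (h : RotW) {g : ℂ → ℝ} (hg : Continuous g) :
    Tendsto (fun n : ℕ => (∑ s ∈ saw n, g (pos s n / (‖pos s n‖ : ℂ))) / ((saw n).card : ℝ)) atTop (𝓝 (circ g)) := by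
  have e : ∀ n : ℕ, 1 ≤ n → (∑ s ∈ saw n, g (pos s n / (‖pos s n‖ : ℂ))) / ((saw n).card : ℝ) =
      ∫ γ, g (dirE γ) ∂(NTSF.PM n : Measure C(unitInterval, ℂ)) := by
    intro n hn
    have hs := NTSF.size_pos hn
    have h1 : ∀ s : Fin n → Fin 3, dirE (curve s) = pos s n / (‖pos s n‖ : ℂ) := by
      intro s
      unfold dirE
      rw [NTSF.curve_one, norm_div, Complex.norm_real, Real.norm_eq_abs, abs_of_pos hs, Complex.ofReal_div]
      have hs' : (size n : ℂ) ≠ 0 := by exact_mod_cast hs.ne'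
      rcases eq_or_ne (pos s n) 0 with h0 | h0
      · rw [h0]
        simp
      · have h0' : (‖pos s n‖ : ℂ) ≠ 0 := by exact_mod_cast norm_ne_zero_iff.2 h0
        field_simp
    show _ = ∫ γ, g (dirE γ) ∂(law n)
    rw [NTSF.integral_law]
    simp only [h1]
  have key : Tendsto (fun n : ℕ => ∫ γ, g (dirE γ) ∂(NTSF.PM n : Measure C(unitInterval, ℂ))) atTop (𝓝 (circ g)) := by
    refine tendsto_of_subseq_tendsto fun ns hns => ?_
    obtain ⟨θ, hθ, hθ'⟩ := strictMono_subseq_of_tendsto_atTop hns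
    obtain ⟨ψ, hψ, ν, hν, hl⟩ := sub_lim _ hθ'
    refine ⟨fun k => θ (ψ k), ?_⟩
    have h0 := end_ne (hθ'.comp hψ).tendsto_atTop hl
    have h1 := dir_lim hν h0 hg
    rw [dir_mean (fun z hz => h _ ν (hθ'.comp hψ).tendsto_atTop hl z hz) h0 hg] at h1
    exact h1
  refine key.congr' ?_
  filter_upwards [eventually_ge_atTop 1] with n hn
  exact (e n hn).symm

end Pool.Agent.ROT
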