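import Pool.Agent.ROT.F3TightA
import Pool.Agent.ROT.PubW
import Pool.Agent.TSW.Res

/-!
# F3, rows W7 / N4 (helper62): the walks and their pieces are near a compact set of simple curves

* **`tight_inj`** : for every `ε` a compact set `S` of injective curves from `0`; for every `η` and large `n` the law of the walk
  with `n` steps gives at most `ε` to the curves at distance `≥ η` from `S`;
* **`piece_tight`** : the same for all pieces, of length `≥ c₀`, forwards or backwards, in their own time, turned and rescaled by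
  `z`, `l₀ ≤ ‖z‖ ≤ l₁`, all at once.
-/

set_option autoImplicit false

open MeasureTheory Filter Topology Set
open scoped Classical ENNReal

namespace Pool.Agent.ROT.F3

open Pool.Agent.NTS.Res Pool.Agent.TSW

/-- no double points at time distance `≥ 1 / (j + 1)` -/
def NoDbl (j : ℕ) : Set C(unitInterval, ℂ) := {γ | ∀ s t : unitInterval, 1 / ((j : ℝ) + 1) ≤ dist s t → γ s ≠ γ t}

theorem noDbl_open (j : ℕ) : IsOpen (NoDbl j) := by
  have h1 : IsClosed {p : C(unitInterval, ℂ) × (unitInterval × unitInterval) |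
      1 / ((j : ℝ) + 1) ≤ dist p.2.1 p.2.2 ∧ p.1 p.2.1 = p.1 p.2.2} := by
    refine (isClosed_le continuous_const (f := fun _ : C(unitInterval, ℂ) × (unitInterval × unitInterval) => 1 / ((j : ℝ) + 1))
      (g := fun p => dist p.2.1 p.2.2) (continuous_snd.fst.dist continuous_snd.snd)).inter (isClosed_eq ?_ ?_)
    · exact continuous_eval.comp (by fun_prop : Continuous fun p : C(unitInterval, ℂ) × (unitInterval × unitInterval) =>
        (p.1, p.2.1))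
    · exact continuous_eval.comp (by fun_prop : Continuous fun p : C(unitInterval, ℂ) × (unitInterval × unitInterval) =>
        (p.1, p.2.2))
  have h2 := isClosedMap_fst_of_compactSpace (X := C(unitInterval, ℂ)) (Y := unitInterval × unitInterval) _ h1
  rw [← isClosed_compl_iff]
  convert h2 using 1
  ext γ
  simp only [NoDbl, mem_compl_iff, mem_ofPred_eq, mem_image, Prod.exists, not_forall, not_not]
  constructor
  · rintro ⟨s, t, h, e⟩
    exact ⟨γ, s, t, ⟨h, e⟩, rfl⟩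
  · rintro ⟨γ', s, t, ⟨h, e⟩, rfl⟩
    exact ⟨s, t, h, e⟩

theorem mem_noDbl {γ : C(unitInterval, ℂ)} : (∀ j, γ ∈ NoDbl j) ↔ Function.Injective γ := by
  constructor
  · intro h s t he
    by_contra hst
    obtain ⟨j, hj⟩ := exists_nat_one_div_lt (dist_pos.2 hst)
    exact h j s t hj.le he
  · intro h j s t hst he
    have := h he
    rw [this, dist_self] at hst
    have : (0 : ℝ) < 1 / ((j : ℝ) + 1) := by positivity
    linarith

theorem PM_lim : HasLim NTSF.PM fun ν => ∀ j, (ν : Measure C(unitInterval, ℂ)) (NoDbl j)ᶜ = 0 := by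
  intro φ hφ
  obtain ⟨ψ, hψ, ν, hν, hl⟩ := sub_lim φ hφ
  refine ⟨ψ, hψ, ν, hν, fun j => ?_⟩
  have h := HexObs.SIM.simple_final.2.2 _ ν (hφ.comp hψ).tendsto_atTop inferInstance hl
  rw [← mem_ae_iff]
  filter_upwards [h] with γ hγ
  exact mem_noDbl.2 hγ j

/-- **the walks are near a compact set of simple curves** -/
theorem tight_inj {ε : ℝ} (hε : 0 < ε) : ∃ S : Set C(unitInterval, ℂ), IsCompact S ∧
    (∀ γ ∈ S, Function.Injective γ ∧ γ 0 = 0) ∧ ∀ η : ℝ, 0 < η → ∃ n₀ : ℕ, ∀ n : ℕ, n₀ ≤ n →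
      law n {γ : C(unitInterval, ℂ) | ∀ s ∈ S, η ≤ dist γ s} ≤ ENNReal.ofReal ε := by
  obtain ⟨S, hS, hSG, hSη⟩ := unif_inner noDbl_open PM_lim hε
  have hC : IsClosed {γ : C(unitInterval, ℂ) | γ 0 = 0} := isClosed_eq (continuous_eval_const 0) continuous_const
  refine ⟨S ∩ {γ | γ 0 = 0}, hS.inter_right hC, fun γ hγ => ⟨mem_noDbl.1 fun j => hSG j hγ.1, hγ.2⟩, fun η hη => ?_⟩
  obtain ⟨η1, h1, h2⟩ := near_inter hS hC hη
  obtain ⟨n0, h3⟩ := hSη η1 h1
  refine ⟨n0, fun n hn => ?_⟩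
  refine le_trans (measure_mono_ae ?_) (h3 n hn)
  have h4 : ∀ᵐ γ : C(unitInterval, ℂ) ∂(law n), γ 0 = 0 := by
    have h5 : law n {γ : C(unitInterval, ℂ) | γ 0 = 0}ᶜ = 0 :=
      NTSF.law_zero fun s _ h => h (NTSF.curve_zero s)
    rw [ae_iff]
    exact h5
  filter_upwards [h4] with γ h0 hγ s hs
  by_contra hlt
  obtain ⟨s', hs', h6⟩ := h2 γ h0 ⟨s, hs, not_le.1 hlt⟩
  exact absurd (hγ s' hs') (not_le.2 h6)

theorem card_of_law {n : ℕ} {ε : ℝ} (hε : 0 ≤ ε) {E : Set C(unitInterval, ℂ)} (h : law n E ≤ ENNReal.ofReal ε)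
    {B : Finset (Fin n → Fin 3)} (hB : B ⊆ saw n) (hE : ∀ s ∈ B, curve s ∈ E) : (B.card : ℝ) ≤ ε * ((saw n).card : ℝ) := by
  have h4 : (law n E).toReal ≤ ε := ENNReal.toReal_le_of_le_ofReal hε h
  rw [NTSF.law_apply, ENNReal.toReal_mul, ENNReal.toReal_inv, ENNReal.toReal_natCast, ENNReal.toReal_natCast] at h4
  have h5 : (0 : ℝ) < (saw n).card := by exact_mod_cast (NTSF.saw_nonempty n).card_pos
  rw [inv_mul_le_iff₀ h5, mul_comm] at h4
  refine le_trans ?_ h4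
  have h6 : B ⊆ (saw n).filter fun s => curve s ∈ E := fun s hs => Finset.mem_filter.2 ⟨hB hs, hE s hs⟩
  exact_mod_cast Finset.card_le_card h6

/-- number form -/
theorem tight_card {ε : ℝ} (hε : 0 < ε) : ∃ S : Set C(unitInterval, ℂ), IsCompact S ∧
    (∀ γ ∈ S, Function.Injective γ ∧ γ 0 = 0) ∧ ∀ η : ℝ, 0 < η → ∃ n₀ : ℕ, ∀ n : ℕ, n₀ ≤ n → ∀ B : Finset (Fin n → Fin 3),
      B ⊆ saw n → (∀ s ∈ B, ∀ x ∈ S, η ≤ dist (curve s) x) → (B.card : ℝ) ≤ ε * ((saw n).card : ℝ) := by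
  obtain ⟨S, hS, hSi, hSη⟩ := tight_inj hε
  refine ⟨S, hS, hSi, fun η hη => ?_⟩
  obtain ⟨n0, h1⟩ := hSη η hη
  exact ⟨n0, fun n hn B hB hB' => card_of_law hε.le (h1 n hn) hB fun s hs x hx => hB' s hs x hx⟩

/-! ### the pieces -/

/-- the parameters of the pieces -/
def PieceP (c₀ l₀ l₁ : ℝ) : Set (ℂ × ℝ × ℝ) :=
  {q | l₀ ≤ ‖q.1‖ ∧ ‖q.1‖ ≤ l₁ ∧ 0 ≤ q.2.1 ∧ q.2.1 ≤ 1 ∧ c₀ ≤ |q.2.2| ∧ 0 ≤ q.2.1 + q.2.2 ∧ q.2.1 + q.2.2 ≤ 1}

theorem pieceP_compact (c₀ l₀ l₁ : ℝ) : IsCompact (PieceP c₀ l₀ l₁) := by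
  have h1 : IsCompact (Metric.closedBall (0 : ℂ) l₁ ×ˢ (Icc (0 : ℝ) 1 ×ˢ Icc (-1 : ℝ) 1)) :=
    (isCompact_closedBall _ _).prod (isCompact_Icc.prod isCompact_Icc)
  refine h1.of_isClosed_subset ?_ ?_
  · have : PieceP c₀ l₀ l₁ = {q : ℂ × ℝ × ℝ | l₀ ≤ ‖q.1‖} ∩ ({q | ‖q.1‖ ≤ l₁} ∩ ({q | 0 ≤ q.2.1} ∩ ({q | q.2.1 ≤ 1} ∩
        ({q | c₀ ≤ |q.2.2|} ∩ ({q | 0 ≤ q.2.1 + q.2.2} ∩ {q | q.2.1 + q.2.2 ≤ 1}))))) := by
      ext q
      rfl
    rw [this]
    exact (isClosed_le continuous_const (by fun_prop)).inter ((isClosed_le (by fun_prop) continuous_const).inter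
      ((isClosed_le continuous_const (by fun_prop)).inter ((isClosed_le (by fun_prop) continuous_const).inter
      ((isClosed_le continuous_const (by fun_prop)).inter ((isClosed_le continuous_const (by fun_prop)).inter
      (isClosed_le (by fun_prop) continuous_const))))))
  · rintro ⟨z, s, c⟩ ⟨-, h2, h3, h4, -, h6, h7⟩
    refine ⟨mem_closedBall_zero_iff.2 h2, ⟨h3, h4⟩, ⟨?_, ?_⟩⟩
    · linarith
    · linarith

theorem part_apply (s c : ℝ) (γ : C(unitInterval, ℂ)) (t : unitInterval) :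
    part s c γ t = γ (projIcc 0 1 zero_le_one (s + c * t)) - γ (projIcc 0 1 zero_le_one s) := rfl

theorem part_cont : Continuous fun p : (ℂ × ℝ × ℝ) × C(unitInterval, ℂ) => p.1.1 • part p.1.2.1 p.1.2.2 p.2 := by
  refine ContinuousMap.continuous_of_continuous_uncurry _ ?_
  have h1 : Continuous fun x : ((ℂ × ℝ × ℝ) × C(unitInterval, ℂ)) × unitInterval =>
      x.1.2 (projIcc 0 1 zero_le_one (x.1.1.2.1 + x.1.1.2.2 * (x.2 : ℝ))) := by
    refine continuous_eval.comp (f := fun x : ((ℂ × ℝ × ℝ) × C(unitInterval, ℂ)) × unitInterval =>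
      (x.1.2, projIcc 0 1 zero_le_one (x.1.1.2.1 + x.1.1.2.2 * (x.2 : ℝ)))) ?_
    exact continuous_fst.snd.prodMk (continuous_projIcc.comp (by fun_prop))
  have h2 : Continuous fun x : ((ℂ × ℝ × ℝ) × C(unitInterval, ℂ)) × unitInterval =>
      x.1.2 (projIcc 0 1 zero_le_one x.1.1.2.1) := by
    refine continuous_eval.comp (f := fun x : ((ℂ × ℝ × ℝ) × C(unitInterval, ℂ)) × unitInterval =>
      (x.1.2, projIcc 0 1 zero_le_one x.1.1.2.1)) ?_
    exact continuous_fst.snd.prodMk (continuous_projIcc.comp (by fun_prop))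
  exact (continuous_fst.fst.fst).mul (h1.sub h2)

theorem part_inj {s c : ℝ} (hs : 0 ≤ s) (hs1 : s ≤ 1) (hc : c ≠ 0) (h0 : 0 ≤ s + c) (h1 : s + c ≤ 1) {γ : C(unitInterval, ℂ)}
    (hγ : Function.Injective γ) : Function.Injective (part s c γ) := by
  have hm : ∀ t : unitInterval, s + c * (t : ℝ) ∈ Icc (0 : ℝ) 1 := by
    intro t
    have a1 := t.2.1
    have a2 := t.2.2
    constructor
    · nlinarith
    · nlinarith
  intro t u h
  rw [part_apply, part_apply, sub_left_inj] at h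
  have h2 := hγ h
  rw [projIcc_of_mem _ (hm t), projIcc_of_mem _ (hm u), Subtype.mk.injEq] at h2
  have h3 : c * (t : ℝ) = c * (u : ℝ) := by linarith
  exact Subtype.ext (mul_left_cancel₀ hc h3)

theorem part_dist (s c : ℝ) (γ γ' : C(unitInterval, ℂ)) : dist (part s c γ) (part s c γ') ≤ 2 * dist γ γ' := by
  rw [ContinuousMap.dist_le (by positivity)]
  intro t
  rw [part_apply, part_apply, dist_eq_norm]
  have e : γ (projIcc 0 1 zero_le_one (s + c * t)) - γ (projIcc 0 1 zero_le_one s) -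
      (γ' (projIcc 0 1 zero_le_one (s + c * t)) - γ' (projIcc 0 1 zero_le_one s)) =
      (γ (projIcc 0 1 zero_le_one (s + c * t)) - γ' (projIcc 0 1 zero_le_one (s + c * t))) -
      (γ (projIcc 0 1 zero_le_one s) - γ' (projIcc 0 1 zero_le_one s)) := by ring
  rw [e]
  refine (norm_sub_le _ _).trans ?_
  rw [← dist_eq_norm, ← dist_eq_norm]
  have h1 := ContinuousMap.dist_apply_le_dist (f := γ) (g := γ') (projIcc 0 1 zero_le_one (s + c * t))
  have h2 := ContinuousMap.dist_apply_le_dist (f := γ) (g := γ') (projIcc 0 1 zero_le_one s)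
  linarith

theorem smul_dist (z : ℂ) (γ γ' : C(unitInterval, ℂ)) : dist (z • γ) (z • γ') ≤ ‖z‖ * dist γ γ' := by
  rw [ContinuousMap.dist_le (by positivity)]
  intro t
  rw [ContinuousMap.smul_apply, ContinuousMap.smul_apply, dist_smul₀]
  exact mul_le_mul_of_nonneg_left (ContinuousMap.dist_apply_le_dist t) (norm_nonneg _)

/-- **the pieces of the walks are near a compact set of simple curves** -/
theorem piece_tight {ε c₀ l₀ l₁ : ℝ} (hε : 0 < ε) (hc : 0 < c₀) (hl : 0 < l₀) : ∃ S : Set C(unitInterval, ℂ), IsCompact S ∧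
    (∀ γ ∈ S, Function.Injective γ ∧ γ 0 = 0) ∧ ∀ η : ℝ, 0 < η → ∃ n₀ : ℕ, ∀ n : ℕ, n₀ ≤ n →
      law n {γ : C(unitInterval, ℂ) | ∃ q ∈ PieceP c₀ l₀ l₁, ∀ x ∈ S, η ≤ dist (q.1 • part q.2.1 q.2.2 γ) x} ≤
        ENNReal.ofReal ε := by
  obtain ⟨S, hS, hSi, hSη⟩ := tight_inj hε
  refine ⟨(fun p : (ℂ × ℝ × ℝ) × C(unitInterval, ℂ) => p.1.1 • part p.1.2.1 p.1.2.2 p.2) '' (PieceP c₀ l₀ l₁ ×ˢ S),
    ((pieceP_compact c₀ l₀ l₁).prod hS).image part_cont, ?_, fun η hη => ?_⟩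
  · rintro _ ⟨⟨⟨z, s, c⟩, γ⟩, ⟨⟨h1, h2, h3, h4, h5, h6, h7⟩, hγ⟩, rfl⟩
    have hz : z ≠ 0 := by
      rintro rfl
      rw [norm_zero] at h1
      exact absurd h1 (not_le.2 hl)
    have hc0 : c ≠ 0 := by
      rintro rfl
      rw [abs_zero] at h5
      exact absurd h5 (not_le.2 hc)
    constructor
    · intro t u h
      have h' : z * part s c γ t = z * part s c γ u := h
      exact part_inj h3 h4 hc0 h6 h7 (hSi γ hγ).1 (mul_left_cancel₀ hz h')
    · show z * part s c γ 0 = 0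
      rw [part_apply]
      simp
  · have hl1 : 0 < |l₁| + 1 := by positivity
    obtain ⟨n0, h1⟩ := hSη (η / (2 * (|l₁| + 1))) (by positivity)
    refine ⟨n0, fun n hn => (measure_mono ?_).trans (h1 n hn)⟩
    rintro γ ⟨q, hq, hqx⟩ s hs
    by_contra hlt
    rw [not_le] at hlt
    have h2 := hqx _ ⟨(q, s), ⟨hq, hs⟩, rfl⟩
    have h3 : dist (q.1 • part q.2.1 q.2.2 γ) (q.1 • part q.2.1 q.2.2 s) ≤ ‖q.1‖ * (2 * dist γ s) :=
      (smul_dist _ _ _).trans (mul_le_mul_of_nonneg_left (part_dist _ _ _ _) (norm_nonneg _))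
    have h4 : ‖q.1‖ ≤ |l₁| + 1 := hq.2.1.trans ((le_abs_self _).trans (by linarith))
    have h5 : ‖q.1‖ * (2 * dist γ s) ≤ (|l₁| + 1) * (2 * dist γ s) :=
      mul_le_mul_of_nonneg_right h4 (by positivity)
    have h6 : (|l₁| + 1) * (2 * dist γ s) < η := by
      rw [lt_div_iff₀ (by positivity)] at hlt
      linarith
    have h7 : η ≤ dist (q.1 • part q.2.1 q.2.2 γ) (q.1 • part q.2.1 q.2.2 s) := h2
    linarith

/-- number form: the words with a bad piece -/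
theorem piece_card {ε c₀ l₀ l₁ : ℝ} (hε : 0 < ε) (hc : 0 < c₀) (hl : 0 < l₀) : ∃ S : Set C(unitInterval, ℂ), IsCompact S ∧
    (∀ γ ∈ S, Function.Injective γ ∧ γ 0 = 0) ∧ ∀ η : ℝ, 0 < η → ∃ n₀ : ℕ, ∀ n : ℕ, n₀ ≤ n → ∀ B : Finset (Fin n → Fin 3),
      B ⊆ saw n → (∀ s ∈ B, ∃ q ∈ PieceP c₀ l₀ l₁, ∀ x ∈ S, η ≤ dist (q.1 • part q.2.1 q.2.2 (curve s)) x) →
        (B.card : ℝ) ≤ ε * ((saw n).card : ℝ) := by
  obtain ⟨S, hS, hSi, hSη⟩ := piece_tight (l₁ := l₁) hε hc hl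
  refine ⟨S, hS, hSi, fun η hη => ?_⟩
  obtain ⟨n0, h1⟩ := hSη η hη
  exact ⟨n0, fun n hn B hB hB' => card_of_law hε.le (h1 n hn) hB hB'⟩

end Pool.Agent.ROT.F3
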