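import Pool.Agent.ROT.F3CoreA
import Pool.Agent.ROT.F3LimG
import Pool.Agent.ROT.F3Stage
import Pool.Agent.ROT.F3Tight

/-!
# ROT / F3GoodM (helper62): good arcs for the law of the arcs behind the foreign gates

* `cutc_inj` : a piece of a simple curve is simple; `inj_meas` : the set of the simple curves is measurable;
* **`law_good`** : the arcs of `Cls.law` are simple and in the closed class, almost everywhere.
-/

set_option autoImplicit false

open MeasureTheory Filter Topology Set
open scoped ENNReal

namespace Pool.Agent.ROT.F3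

/-- **a piece of a simple curve is simple** -/
theorem cutc_inj {g : C(unitInterval, ℂ)} (hg : Function.Injective g) {a b : unitInterval} (hab : a ≠ b) :
    Function.Injective (cutc g a b) := by
  intro s t h
  rw [cutc_apply, cutc_apply, sub_left_inj] at h
  have h1 := congrArg (fun x : unitInterval => (x : ℝ)) (hg h)
  simp only [cvx_coe] at h1
  have h2 : ((s : ℝ) - t) * ((b : ℝ) - a) = 0 := by linear_combination h1
  rcases mul_eq_zero.1 h2 with h3 | h3
  · exact Subtype.ext (sub_eq_zero.1 h3)
  · exact absurd (Subtype.ext (sub_eq_zero.1 h3)).symm hab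

/-- the simple curves are a measurable set -/
theorem inj_meas : MeasurableSet {γ : C(unitInterval, ℂ) | Function.Injective γ} := by
  have e : {γ : C(unitInterval, ℂ) | Function.Injective γ} = ⋂ j, NoDbl j := by
    ext γ
    rw [mem_iInter]
    exact mem_noDbl.symm
  rw [e]
  exact MeasurableSet.iInter fun j => (noDbl_open j).measurableSet

section

variable {R K A : Type*} [MeasurableSpace R] [MeasurableSpace K] [MeasurableSpace A] {c : Cls R K A} {β : Measure R}

/-- properties of the arcs -/
theorem law_ae (o : c.Ok) {p : A → Prop} (hp : MeasurableSet {a | p a}) (h : ∀ᵐ r ∂β, r ∈ c.C → p (c.τ r).2) :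
    ∀ᵐ a ∂(c.law β).snd, p a := by
  unfold Measure.snd Cls.law
  have h2 : MeasurableSet {x : K × A | p x.2} := measurable_snd hp
  rw [ae_map_iff measurable_snd.aemeasurable hp, ae_map_iff o.mτ.aemeasurable h2, ae_restrict_iff' o.mC]
  exact h

/-- **the arcs behind the foreign gates are simple and in the closed class** -/
theorem law_good (o : c.Ok) {G : R → C(unitInterval, ℂ)} (hG : ∀ᵐ r ∂β, Function.Injective (G r))
    (hc : ∀ r ∈ c.C, ∃ a b : unitInterval, a ≠ b ∧ c.g (c.τ r).2 = cutc (G r) a b) {S : Set C(unitInterval, ℂ)}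
    (hS : MeasurableSet S) (hCS : ∀ r ∈ c.C, c.g (c.τ r).2 ∈ S) :
    ∀ᵐ a ∂(c.law β).snd, Function.Injective (c.g a) ∧ c.g a ∈ S := by
  refine law_ae o ((o.mg inj_meas).inter (o.mg hS)) ?_
  filter_upwards [hG] with r hr hC
  obtain ⟨a, b, hab, e⟩ := hc r hC
  refine ⟨?_, hCS r hC⟩
  rw [e]
  exact cutc_inj hr hab

end

end Pool.Agent.ROT.F3
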