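import Pool.Agent.ROT.F3BetaO
import Pool.Agent.ROT.F3BetaL
import Pool.Agent.ROT.F3GoodM

/-!
# ROT / F3BetaB (helper11): the limit of the blocks up to an outer gate

* `ot_app` : a block `OtB` and a rest with a wide gate give a rest between two cuts; `ot_un` : the pieces are unique;
* `wlim_near` : limits of finite measures near compact sets, carried by the compact sets;
* **`ot_near`** : the curves of the blocks are near a compact set of simple curves, off a small mass;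
* **`ot_lim`** : the limit of the laws of (curve, duration) of the blocks along an ultrafilter.
-/

set_option autoImplicit false

open MeasureTheory Filter Topology
open scoped ENNReal NNReal Classical BoundedContinuousFunction

namespace Pool.Agent.ROT.F3.Bt

/-- **a block and a rest with a wide gate** -/
lemma ot_app {d d' : ℂ} {O : Ot} {P Q : Tp} {W : Wn} {S T : ℝ} {b R : W3} (hS : 0 < S) (hb : b ∈ OtB d O S T)
    (hR : R ∈ Rst d d' P Q W S T) (hr : 0 ≤ O.r) (gP : 2 * O.r + 1 ≤ P.rg) (gQ : 1 ≤ Q.rg) (gD : 2 * O.r + 2 ≤ W.D0) :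
    RsC d d' (1 * S) (1 * S) (1 * S) (b ++ R) ∧ ((b ++ R).length : ℝ) ≤ (O.lb + W.t1) * T := by
  have hb' : OtM d O S T b := hb
  have hR' : RsQ d d' P Q W S T R := hR
  have eb := hb'.k.t.ev
  have eR := hR'.ev
  have nb : ‖en b‖ ≤ O.r * S := norm_en_le hb'.k.t
  have nR : W.D0 * S ≤ ‖en R‖ := hR'.far
  have gD' : (2 * O.r + 2) * S ≤ W.D0 * S := mul_le_mul_of_nonneg_right gD hS.le
  have gP' : (2 * O.r + 1) * S ≤ P.rg * S := mul_le_mul_of_nonneg_right gP hS.le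
  have gQ' : 1 * S ≤ Q.rg * S := mul_le_mul_of_nonneg_right gQ hS.le
  have hrS : 0 ≤ O.r * S := mul_nonneg hr hS.le
  refine ⟨⟨?_, ?_, ?_, ?_, ?_⟩, ?_⟩
  · rw [List.length_append]
    exact eb.add eR
  · exact (SW_append eb).2 ⟨hb'.k.t.sw, hR'.sw, tip_rest hb'.k.t hR'.s.right (by nlinarith)⟩
  · intro k h0 hk hn
    rcases le_or_gt k b.length with h | h
    · rw [ps_append_left h]
      exact hb'.k.right k h0 h
    · rw [ps_append_right' eb h.le] at hn ⊢
      rw [List.length_append] at hk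
      have h1 := hb'.k.lv_pos
      have h2 : ‖ps R (k - b.length)‖ ≤ P.rg * S := by
        have e : ps R (k - b.length) = (en b + ps R (k - b.length)) - en b := by ring
        have h3 : ‖ps R (k - b.length)‖ ≤ ‖en b + ps R (k - b.length)‖ + ‖en b‖ := by
          conv_lhs => rw [e]
          exact norm_sub_le _ _
        nlinarith
      have h3 := hR'.s.right (k - b.length) (by omega) (by omega) h2
      rw [lv_add]
      linarith
  · intro k h0 hk hn
    rw [List.reverse_append] at hn ⊢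
    have er : Even R.reverse.length := by rw [List.length_reverse]; exact eR
    rcases le_or_gt k R.reverse.length with h | h
    · rw [ps_append_left h] at hn ⊢
      exact hR'.e.right k h0 h (hn.trans gQ')
    · exfalso
      rw [ps_append_right' er h.le, en_reverse eR] at hn
      rw [List.length_reverse, List.length_append] at hk
      rw [List.length_reverse] at h hn
      have h1 : ‖ps b.reverse (k - R.length)‖ ≤ 2 * (O.r * S) := by
        rw [ps_reverse eb (by omega)]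
        have h2 := hb'.k.t.ball (b.length - (k - R.length)) (by omega)
        exact (norm_sub_le _ _).trans (by linarith)
      have h3 : ‖en R‖ ≤ ‖-en R + ps b.reverse (k - R.length)‖ + ‖ps b.reverse (k - R.length)‖ := by
        have e : en R = ps b.reverse (k - R.length) - (-en R + ps b.reverse (k - R.length)) := by ring
        calc ‖en R‖ = ‖ps b.reverse (k - R.length) - (-en R + ps b.reverse (k - R.length))‖ := by rw [← e]
          _ ≤ _ := (norm_sub_le _ _).trans (by linarith)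
      nlinarith
  · rw [en_append eb]
    have h3 : ‖en R‖ ≤ ‖en b + en R‖ + ‖en b‖ := by
      have e : en R = (en b + en R) - en b := by ring
      calc ‖en R‖ = ‖(en b + en R) - en b‖ := by rw [← e]
        _ ≤ _ := norm_sub_le _ _
    nlinarith
  · rw [List.length_append]
    push_cast
    have h1 := hb'.lb
    have h2 := hR'.hi
    linarith

/-- the block is unique -/
lemma ot_un {d d' : ℂ} {O : Ot} {P Q : Tp} {W : Wn} {S T : ℝ} (hS : 0 < S) (gP : 2 * O.r + 1 ≤ P.rg)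
    (gD : 2 * O.r + 2 ≤ W.D0) : ∀ a ∈ OtB d O S T, ∀ a' ∈ OtB d O S T, ∀ b ∈ Rst d d' P Q W S T, ∀ b' ∈ Rst d d' P Q W S T,
      a ++ b = a' ++ b' → a = a' := by
  intro a ha a' ha' b hb b' hb' he
  have h1 : OtM d O S T a := ha
  have h2 : OtM d O S T a' := ha'
  have h3 : RsQ d d' P Q W S T b := hb
  have h4 : RsQ d d' P Q W S T b' := hb'
  have gD' : (2 * O.r + 2) * S ≤ W.D0 * S := mul_le_mul_of_nonneg_right gD hS.le
  have gP' : (2 * O.r + 1) * S ≤ P.rg * S := mul_le_mul_of_nonneg_right gP hS.le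
  exact tip_unique (t := []) (t' := []) h1.k.t h2.k.t h1.f h2.f h3.s.right h4.s.right h3.ev h4.ev (by nlinarith)
    (D := W.D0 * S) (by nlinarith) h3.far h4.far (by simpa using he)

/-- the words `a ++ b` -/
def App (A B : Set W3) : Set W3 := {w | ∃ a ∈ A, ∃ b ∈ B, w = a ++ b}

/-- **the mass of the words `a ++ b`** -/
lemma ms_app {A B : Set W3} (hu : ∀ a ∈ A, ∀ a' ∈ A, ∀ b ∈ B, ∀ b' ∈ B, a ++ b = a' ++ b' → a = a') :
    ms A (fun _ => 1) * ms B (fun _ => 1) ≤ ms (App A B) fun _ => 1 := by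
  have h1 : ms A (fun _ => 1) * ms B (fun _ => 1) = ∑' p : W3 × W3, if p.1 ∈ A ∧ p.2 ∈ B then wx (p.1 ++ p.2) else 0 := by
    rw [ENNReal.tsum_prod']
    unfold ms
    rw [← ENNReal.tsum_mul_right]
    refine tsum_congr fun a => ?_
    rw [← ENNReal.tsum_mul_left]
    refine tsum_congr fun b => ?_
    show (if a ∈ A then wx a * 1 else 0) * (if b ∈ B then wx b * 1 else 0) = if a ∈ A ∧ b ∈ B then wx (a ++ b) else 0
    rw [wx_append]
    by_cases ha : a ∈ A
    · by_cases hb : b ∈ B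
      · rw [if_pos ha, if_pos hb, if_pos ⟨ha, hb⟩, mul_one, mul_one]
      · rw [if_neg hb, if_neg (fun h : a ∈ A ∧ b ∈ B => hb h.2), mul_zero]
    · rw [if_neg ha, if_neg (fun h : a ∈ A ∧ b ∈ B => ha h.1), zero_mul]
  have h2 : (∑' p : W3 × W3, if p.1 ∈ A ∧ p.2 ∈ B then wx (p.1 ++ p.2) else 0) =
      ∑' p : {p : W3 × W3 | p.1 ∈ A ∧ p.2 ∈ B}, wx (p.1.1 ++ p.1.2) := by
    rw [tsum_subtype {p : W3 × W3 | p.1 ∈ A ∧ p.2 ∈ B} fun p => wx (p.1 ++ p.2)]
    refine tsum_congr fun p => ?_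
    by_cases hp : p.1 ∈ A ∧ p.2 ∈ B
    · rw [if_pos hp, Set.indicator_of_mem (show p ∈ {p : W3 × W3 | p.1 ∈ A ∧ p.2 ∈ B} from hp)]
    · rw [if_neg hp, Set.indicator_of_notMem (show p ∉ {p : W3 × W3 | p.1 ∈ A ∧ p.2 ∈ B} from hp)]
  rw [h1, h2]
  have hinj : Function.Injective fun p : {p : W3 × W3 | p.1 ∈ A ∧ p.2 ∈ B} => p.1.1 ++ p.1.2 := by
    rintro ⟨⟨a, b⟩, ha, hb⟩ ⟨⟨a', b'⟩, ha', hb'⟩ he
    have e1 : a = a' := hu a ha a' ha' b hb b' hb' he
    subst e1
    have e2 : b = b' := List.append_cancel_left he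
    subst e2
    rfl
  have h3 := ENNReal.tsum_comp_le_tsum_of_injective hinj fun w : W3 => if w ∈ App A B then wx w * 1 else 0
  refine le_trans (ENNReal.tsum_le_tsum fun p => ?_) h3
  have hp : p.1.1 ++ p.1.2 ∈ App A B := ⟨_, p.2.1, _, p.2.2, rfl⟩
  show wx (p.1.1 ++ p.1.2) ≤ if p.1.1 ++ p.1.2 ∈ App A B then wx (p.1.1 ++ p.1.2) * 1 else 0
  rw [if_pos hp, mul_one]

/-- **limits of finite measures near compact sets** -/
theorem wlim_near {X : Type*} [MetricSpace X] [CompleteSpace X] [SecondCountableTopology X] [MeasurableSpace X] [BorelSpace X]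
    (μ : ℕ → Measure X) {C : ℝ≥0} (hC : ∀ᶠ N in atTop, μ N Set.univ ≤ C) {Q : X → Prop}
    (hnear : ∀ ε : ℝ≥0, 0 < ε → ∃ S : Set X, IsCompact S ∧ (∀ x ∈ S, Q x) ∧
      ∀ η : ℝ, 0 < η → ∀ᶠ N in atTop, μ N {x | ∀ y ∈ S, η ≤ dist x y} ≤ ε)
    (U : Ultrafilter ℕ) (hU : (U : Filter ℕ) ≤ atTop) :
    ∃ m : Measure X, WLim (U : Filter ℕ) μ m ∧ (∀ g : X →ᵇ ℝ, Tendsto (fun N => ∫ x, g x ∂(μ N)) U (𝓝 (∫ x, g x ∂m))) ∧
      ∀ᵐ x ∂m, Q x := by
  obtain ⟨P, hP, hl⟩ := near_lim μ hC (fun ε hε => by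
    obtain ⟨S, hS, -, h⟩ := hnear ε hε
    exact ⟨S, hS, h⟩) U hU
  have hfin : ∀ᶠ N in (U : Filter ℕ), IsFiniteMeasure (μ N) := by
    filter_upwards [hU hC] with N hN
    exact ⟨lt_of_le_of_lt hN ENNReal.coe_lt_top⟩
  refine ⟨P, ⟨hP, hfin, fun f hf ⟨Kf, hKf⟩ => ?_⟩, hl, ?_⟩
  · exact hl (BoundedContinuousFunction.ofNormedAddCommGroup f hKf.continuous 1 fun x => by
      rw [Real.norm_eq_abs, abs_le]
      constructor <;> linarith [(hf x).1, (hf x).2])
  · rw [ae_iff]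
    refine le_antisymm (ENNReal.le_of_forall_pos_le_add fun ε hε _ => ?_) zero_le
    rw [zero_add]
    obtain ⟨S, hS, hSi, h⟩ := hnear ε hε
    have hsub : {x : X | ¬ Q x} ⊆ Sᶜ := fun x hx hxS => hx (hSi x hxS)
    refine (measure_mono hsub).trans (lim_near hl hS.isClosed fun η hη => ?_)
    filter_upwards [hfin, hU (h η hη)] with N h1 h2
    exact ⟨h1, h2⟩

/-- the modulus of continuity at the start -/
lemma mod_zero {S : Set C(unitInterval, ℂ)} (hS : IsCompact S) (h0 : ∀ γ ∈ S, γ 0 = 0) {m : ℝ} (hm : 0 < m) :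
    ∃ τ : ℝ, 0 < τ ∧ ∀ γ ∈ S, ∀ t : unitInterval, (t : ℝ) < τ → ‖γ t‖ < m := by
  have hc : Continuous fun p : C(unitInterval, ℂ) × unitInterval => ‖p.1 p.2‖ := by fun_prop
  obtain ⟨u, v, hu, hv, hSu, hv0, huv⟩ := generalized_tube_lemma hS (isCompact_singleton (x := (0 : unitInterval)))
    (n := {p : C(unitInterval, ℂ) × unitInterval | ‖p.1 p.2‖ < m}) (isOpen_lt hc continuous_const) (by
      rintro ⟨γ, t⟩ ⟨h1, h2⟩
      rw [Set.mem_singleton_iff] at h2
      show ‖γ t‖ < m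
      have h3 : t = 0 := h2
      rw [h3, h0 γ h1, norm_zero]
      exact hm)
  obtain ⟨τ, hτ, hτv⟩ := Metric.isOpen_iff.1 hv 0 (hv0 rfl)
  refine ⟨τ, hτ, fun γ hγ t ht => huv (Set.mk_mem_prod (hSu hγ) (hτv ?_))⟩
  rw [Metric.mem_ball, Subtype.dist_eq, Real.dist_eq]
  show |(t : ℝ) - 0| < τ
  rw [sub_zero, abs_of_nonneg t.2.1]
  exact ht

/-- data with a wide gate -/
noncomputable def tG (G : ℝ) : Tp where
  l := 1
  r := 1
  m := 1
  th := 1
  r2 := 1
  κ1 := 1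
  rg := G
  r0 := G
  κ := 1
  c := 1
  cs := 1
  e := 1
  w := 1
  κs := 1
  la := 1
  lb := 1

/-- **the curves of the blocks are near a compact set of simple curves** -/
theorem ot_near (i : Fin 3) {O : Ot} (hr : 0 ≤ O.r) (hm : 0 < O.m) : ∀ ε : ℝ, 0 < ε → ∃ S : Set C(unitInterval, ℂ), IsCompact S ∧
    (∀ γ ∈ S, Function.Injective γ ∧ γ 0 = 0) ∧ ∀ η : ℝ, 0 < η → ∃ N0 : ℝ, 1 ≤ N0 ∧ ∀ N : ℝ, N0 ≤ N → ∀ B : Set W3,
      B ⊆ OtB (ev i) O N (N ^ (4 / 3 : ℝ)) → (∀ b ∈ B, ∀ x ∈ S, η ≤ dist (crv b b.length N) x) →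
        ms B (fun _ => 1) ≤ ENNReal.ofReal ε := by
  intro ε hε
  obtain ⟨G, hG⟩ : ∃ G : ℝ, G = 2 * O.r + 2 := ⟨_, rfl⟩
  have hG0 : 0 < G := by linarith
  obtain ⟨ts, c, S0, hts, hc, hlow⟩ := beta_rst (P := tG G) (Q := tG G) (R := G) (D0 := 4 * G) (D1 := 4 * G + 1) (t1 := 1)
    (show (1 : ℝ) ≤ 1 from le_rfl) (show (1 : ℝ) ≤ 1 from le_rfl) (show 0 ≤ G from hG0.le) (show 0 ≤ G from hG0.le)
    (show (0 : ℝ) < 1 from one_pos) (show (0 : ℝ) < 1 from one_pos) hG0 (show G ≤ G from le_rfl) (show G ≤ G from le_rfl)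
    (show G ≤ G from le_rfl) (show G ≤ G from le_rfl) le_rfl (by linarith) one_pos i
  obtain ⟨W, hW⟩ : ∃ W : Wn, W = ⟨4 * G, 4 * G + 1, 0, 1⟩ := ⟨_, rfl⟩
  have hlow' := hlow W (by rw [hW]) (by rw [hW]) (by rw [hW]; exact hts.le) (by rw [hW])
  obtain ⟨S, hS, hSi, hSη⟩ := beta_near 1 1 (|O.lb| + 1) 1 (ε * c) one_pos one_pos (by positivity) le_rfl (by positivity)
  obtain ⟨τ, hτ, hτS⟩ := mod_zero hS (fun γ h => (hSi γ h).2) (m := O.m / 2) (by positivity)
  have hS' : IsCompact ((fun p : C(unitInterval, ℂ) × unitInterval => cutc p.1 0 p.2) '' (S ×ˢ {t : unitInterval | τ ≤ t})) := by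
    refine (hS.prod ?_).image ?_
    · exact (isClosed_le continuous_const continuous_subtype_val).isCompact
    · exact cutc_continuous.comp (by fun_prop : Continuous fun p : C(unitInterval, ℂ) × unitInterval => (p.1, (0 : unitInterval), p.2))
  refine ⟨_, hS', ?_, fun η hη => ?_⟩
  · rintro _ ⟨⟨γ, t⟩, ⟨h1, h2⟩, rfl⟩
    have h2' : τ ≤ (t : ℝ) := h2
    refine ⟨cutc_inj (hSi γ h1).1 fun h => ?_, cutc_zero _ _ _⟩
    have h3 : (0 : unitInterval) = t := h
    rw [← h3] at h2'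
    have : ((0 : unitInterval) : ℝ) = 0 := rfl
    linarith
  obtain ⟨η', hη'⟩ : ∃ η' : ℝ, η' = min (η / 3) (O.m / 3) := ⟨_, rfl⟩
  have h10 : 0 < η' := by rw [hη']; positivity
  have h11 : η' ≤ η / 3 := hη' ▸ min_le_left _ _
  have h12 : η' ≤ O.m / 3 := hη' ▸ min_le_right _ _
  obtain ⟨N1, hN1, hnear⟩ := hSη η' h10
  refine ⟨max N1 (max S0 1), hN1.trans (le_max_left _ _), fun N hN B hB hfar => ?_⟩
  have k1 : N1 ≤ N := (le_max_left _ _).trans hN
  have k2 : S0 ≤ N := ((le_max_left _ _).trans (le_max_right _ _)).trans hN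
  have k3 : 1 ≤ N := ((le_max_right _ _).trans (le_max_right _ _)).trans hN
  have hN0 : 0 < N := by linarith
  have hT : 0 < N ^ (4 / 3 : ℝ) := by positivity
  obtain ⟨Rs, hRs⟩ : ∃ Rs : Set W3, Rs = Rst (ev i) (ev (-i)) (tG G) (tG G) W N (N ^ (4 / 3 : ℝ)) := ⟨_, rfl⟩
  have gP : 2 * O.r + 1 ≤ (tG G).rg := by show 2 * O.r + 1 ≤ G; linarith
  have gQ : 1 ≤ (tG G).rg := by show 1 ≤ G; linarith
  have gD : 2 * O.r + 2 ≤ W.D0 := by rw [hW]; show 2 * O.r + 2 ≤ 4 * G; linarith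
  have hu := ms_app (A := B) (B := Rs) fun a ha a' ha' b hb b' hb' he =>
    ot_un hN0 gP gD a (hB ha) a' (hB ha') b (hRs ▸ hb) b' (hRs ▸ hb') he
  have m3 : ms (App B Rs) (fun _ => 1) ≤ ENNReal.ofReal (ε * c * N ^ (3 / 4 : ℝ)) := by
    refine hnear N k1 N (by rw [div_one]) (by rw [one_mul]) 1 norm_one i (-i) _ ?_ ?_
    · rintro _ ⟨b, hb, R, hR, rfl⟩
      rw [hRs] at hR
      obtain ⟨a1, a2⟩ := ot_app hN0 (hB hb) hR hr gP gQ gD
      refine ⟨a1, a2.trans (mul_le_mul_of_nonneg_right ?_ hT.le)⟩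
      rw [hW]
      show O.lb + 1 ≤ _
      linarith [le_abs_self O.lb]
    · rintro _ ⟨b, hb, R, hR, rfl⟩ γ hγ
      rw [hRs] at hR
      rw [one_smul]
      by_contra hlt
      rw [not_le] at hlt
      have hb' : OtM (ev i) O N (N ^ (4 / 3 : ℝ)) b := hB hb
      obtain ⟨n, hn⟩ : ∃ n : ℕ, n = (b ++ R).length := ⟨_, rfl⟩
      have hbn : b.length ≤ n := by rw [hn, List.length_append]; omega
      have hb0 : 0 < b.length := hb'.k.t.pos
      have e1 : seg (b ++ R) 0 b.length = b := by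
        unfold seg
        rw [Nat.sub_zero, List.drop_zero, List.take_left]
      have e2 := crv_seg (w := b ++ R) (i := 0) (j := b.length) (n := n) (by decide) (Nat.zero_le _) hbn (by rw [hn]) N
      rw [e1, Nat.sub_zero, fr_zero] at e2
      rw [← hn] at hlt
      have e3 : crv (b ++ R) n N (fr b.length n) = ps (b ++ R) b.length / N :=
        crv_vertex (by omega) hbn (fr_mul hbn (by omega))
      rw [ps_append_left le_rfl] at e3
      have n1 : O.m ≤ ‖crv (b ++ R) n N (fr b.length n)‖ := by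
        rw [e3, norm_div, Complex.norm_real, Real.norm_eq_abs, abs_of_pos hN0, le_div_iff₀ hN0]
        have h1 : O.m * N ≤ lv (ev i) (en b) := hb'.f.1
        have h2 := lv_le (ev i) (en b)
        rw [ev_norm, one_mul] at h2
        exact h1.trans h2
      have n2 : ‖crv (b ++ R) n N (fr b.length n) - γ (fr b.length n)‖ < η' := by
        have h1 := ContinuousMap.dist_apply_le_dist (f := crv (b ++ R) n N) (g := γ) (fr b.length n)
        rw [dist_eq_norm] at h1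
        linarith
      have n3 : τ ≤ ((fr b.length n : unitInterval) : ℝ) := by
        by_contra hx
        rw [not_le] at hx
        have h1 := hτS γ hγ _ hx
        have h2 : ‖crv (b ++ R) n N (fr b.length n)‖ ≤ ‖crv (b ++ R) n N (fr b.length n) - γ (fr b.length n)‖ + ‖γ (fr b.length n)‖ := by
          have e : crv (b ++ R) n N (fr b.length n) = (crv (b ++ R) n N (fr b.length n) - γ (fr b.length n)) + γ (fr b.length n) := by
            ring
          calc ‖crv (b ++ R) n N (fr b.length n)‖ = ‖(crv (b ++ R) n N (fr b.length n) - γ (fr b.length n)) + γ (fr b.length n)‖ := by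
                rw [← e]
            _ ≤ _ := norm_add_le _ _
        linarith
      have n4 := hfar b hb _ ⟨(γ, fr b.length n), ⟨hγ, n3⟩, rfl⟩
      rw [e2] at n4
      have n5 := cutc_dist (crv (b ++ R) n N) γ 0 (fr b.length n)
      have n6 : η ≤ dist (cutc (crv (b ++ R) n N) 0 (fr b.length n)) (cutc γ 0 (fr b.length n)) := n4
      linarith
  have m4 : ENNReal.ofReal (c * N ^ (3 / 4 : ℝ)) ≤ ms Rs fun _ => 1 := by
    rw [hRs]
    exact hlow' N k2
  have hx0 : 0 < c * N ^ (3 / 4 : ℝ) := by positivity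
  have m5 : ms B (fun _ => 1) * ENNReal.ofReal (c * N ^ (3 / 4 : ℝ)) ≤ ENNReal.ofReal (ε * c * N ^ (3 / 4 : ℝ)) := by
    refine le_trans ?_ (hu.trans m3)
    exact mul_le_mul_right m4 _
  have m6 : ENNReal.ofReal (ε * c * N ^ (3 / 4 : ℝ)) = ENNReal.ofReal ε * ENNReal.ofReal (c * N ^ (3 / 4 : ℝ)) := by
    rw [← ENNReal.ofReal_mul hε.le]
    congr 1
    ring
  rw [m6] at m5
  exact (ENNReal.mul_le_mul_iff_left (by rw [Ne, ENNReal.ofReal_eq_zero, not_le]; exact hx0) ENNReal.ofReal_ne_top).1 m5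

section lim

variable {O : Ot} (hr : 0 ≤ O.r) (hm : 0 < O.m) {i : Fin 3} {Bs : ℕ → Set W3} {w : ℕ → W3 → ℝ}
  (hw : ∀ᶠ N in atTop, ∀ R ∈ Bs N, w N R ≤ 1) (U : Ultrafilter ℕ) (hU : (U : Filter ℕ) ≤ atTop)

include hr hm hw hU

/-- **the limit of the blocks up to an outer gate** -/
theorem ot_lim (hB : ∀ᶠ N : ℕ in atTop, Bs N ⊆ OtB (ev i) O N (uT N)) : ∃ m : Measure (CI3 × ℝ),
    WLim (U : Filter ℕ) (fun N : ℕ => rm 1 (N : ℝ) (uT N) (Bs N) (w N)) m ∧
      (∀ g : (CI3 × ℝ) →ᵇ ℝ, Tendsto (fun N : ℕ => ∫ x, g x ∂(rm 1 (N : ℝ) (uT N) (Bs N) (w N))) U (𝓝 (∫ x, g x ∂m))) ∧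
      (∀ᵐ x ∂m, Function.Injective x.1 ∧ x.1 0 = 0 ∧ 0 ≤ x.2 ∧ x.2 ≤ O.lb) := by
  refine wlim_near (fun N : ℕ => rm 1 (N : ℝ) (uT N) (Bs N) (w N)) (C := 1) ?_ (fun ε hε => ?_) U hU
  · filter_upwards [hB, hw, eventually_gt_atTop 0] with N h1 h2 h3
    have h4 : (0 : ℝ) < N := by exact_mod_cast h3
    refine (rm_le h2 _).trans ?_
    rw [one_mul, ENNReal.coe_one]
    exact (ms_subset (fun R hR => h1 hR.1) _).trans (ot_le i (uT N) hm h4)
  · obtain ⟨S, hS, hSi, hSη⟩ := ot_near i hr hm ε (by exact_mod_cast hε)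
    refine ⟨S ×ˢ Set.Icc 0 O.lb, hS.prod isCompact_Icc, fun x hx => ⟨(hSi _ hx.1).1, (hSi _ hx.1).2, hx.2.1, hx.2.2⟩,
      fun η hη => ?_⟩
    obtain ⟨N1, hN1, h1⟩ := hSη η hη
    filter_upwards [hB, hw, (tendsto_natCast_atTop_atTop (R := ℝ)).eventually_ge_atTop N1] with N g1 g2 g3
    have h5 : (0 : ℝ) < N := by linarith
    have h6 : 0 < uT N := by
      unfold uT
      positivity
    refine (rm_le g2 _).trans ?_
    rw [one_mul]
    refine (h1 N g3 _ (fun R hR => g1 hR.1) fun R hR x hx => ?_).trans (le_of_eq (ENNReal.ofReal_coe_nnreal))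
    have hb : OtM (ev i) O N (uT N) R := g1 hR.1
    have h7 := hR.2 (x, (R.length : ℝ) / uT N) ⟨hx, by positivity, by
      rw [div_le_iff₀ h6]
      exact hb.lb⟩
    unfold cr at h7
    rw [Prod.dist_eq] at h7
    simp only [dist_self] at h7
    rwa [max_eq_left dist_nonneg] at h7

end lim

end Pool.Agent.ROT.F3.Bt
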