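import Pool.Agent.ROT.F3BetaC

/-!
# ROT / F3BetaU (helper56): the limits of the rests are unique, their properties for THE limit

* **`WLim.uniq`** : two weak limits agree;
* **`rst_inj`, `man_inj`** : a weak limit of rests (main arcs) is carried by injective curves of the class;
* `rst_bcf`, `man_bcf` : convergence against all bounded continuous functions; `*_turn` for the turned curves.
-/

set_option autoImplicit false

open MeasureTheory Filter Topology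
open scoped ENNReal NNReal Classical BoundedContinuousFunction

namespace Pool.Agent.ROT.F3

/-- **two weak limits agree** -/
theorem WLim.uniq {X ι : Type*} [PseudoMetricSpace X] [MeasurableSpace X] [BorelSpace X] {l : Filter ι} [l.NeBot]
    {b : ι → Measure X} {β β' : Measure X} (h : WLim l b β) (h' : WLim l b β') : β = β' := by
  have := h.fβ
  have := h'.fβ
  have key : ∀ F : Set X, IsClosed F → β.real F = β'.real F := by
    intro F hF
    have h1 := tendsto_integral_thickenedIndicator_of_isClosed β hF (δs := fun n : ℕ => 1 / ((n : ℝ) + 1))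
      (fun n => Nat.one_div_pos_of_nat) tendsto_one_div_add_atTop_nhds_zero_nat
    have h2 := tendsto_integral_thickenedIndicator_of_isClosed β' hF (δs := fun n : ℕ => 1 / ((n : ℝ) + 1))
      (fun n => Nat.one_div_pos_of_nat) tendsto_one_div_add_atTop_nhds_zero_nat
    refine tendsto_nhds_unique h1 (h2.congr fun n => ?_)
    have hp : ∀ x : X, (0 : ℝ) ≤ (thickenedIndicator (δ := 1 / ((n : ℝ) + 1)) Nat.one_div_pos_of_nat F x : ℝ) ∧
        (thickenedIndicator (δ := 1 / ((n : ℝ) + 1)) Nat.one_div_pos_of_nat F x : ℝ) ≤ 1 := fun x =>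
      ⟨NNReal.coe_nonneg _, by exact_mod_cast thickenedIndicator_le_one Nat.one_div_pos_of_nat F x⟩
    have hl : LipschitzWith (1 / ((n : ℝ) + 1)).toNNReal⁻¹
        fun x : X => (thickenedIndicator (δ := 1 / ((n : ℝ) + 1)) Nat.one_div_pos_of_nat F x : ℝ) :=
      lipschitzWith_thickenedIndicator _ F
    exact tendsto_nhds_unique (h'.lim _ hp ⟨_, hl⟩) (h.lim _ hp ⟨_, hl⟩)
  refine ext_of_generate_finite {s | IsClosed s} ?_ isPiSystem_isClosed (fun s hs => ?_) ?_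
  · rw [BorelSpace.measurable_eq (α := X), borel_eq_generateFrom_isClosed]
  · exact (measureReal_eq_measureReal_iff (measure_ne_top _ _) (measure_ne_top _ _)).1 (key s hs)
  · exact (measureReal_eq_measureReal_iff (measure_ne_top _ _) (measure_ne_top _ _)).1 (key _ isClosed_univ)

namespace Bt

section

variable {P Q : Tp} {W : Wn} (hP : 0 < P.rg) (hQ : 0 < Q.rg) (hD : 0 < W.D0) (ht : 0 < W.t1) {i j : Fin 3} {Rs : ℕ → Set W3}
  {w : ℕ → W3 → ℝ} (hw : ∀ᶠ N in atTop, ∀ R ∈ Rs N, w N R ≤ 1) {U : Ultrafilter ℕ} (hU : (U : Filter ℕ) ≤ atTop)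
  {β : Measure (CI3 × ℝ)} (hβ : WLim (U : Filter ℕ) (fun N => rm (cb N) N (uT N) (Rs N) (w N)) β)

include hP hQ hD ht hw hU hβ

/-- **THE limit of a class of rests** -/
theorem rst_inj (hR : ∀ᶠ N : ℕ in atTop, Rs N ⊆ Rst (ev i) (ev j) P Q W N (uT N)) :
    ∀ᵐ x ∂β, Function.Injective x.1 ∧ x.1 ∈ ClR (ev i) (ev j) P Q W ∧ W.t0 ≤ x.2 ∧ x.2 ≤ W.t1 ∧ 0 ≤ x.2 := by
  obtain ⟨m, h1, -, h3⟩ := rst_lim hP hQ hD ht hw U hU hR
  rw [WLim.uniq hβ h1]
  exact h3

theorem rst_bcf (hR : ∀ᶠ N : ℕ in atTop, Rs N ⊆ Rst (ev i) (ev j) P Q W N (uT N)) (g : (CI3 × ℝ) →ᵇ ℝ) :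
    Tendsto (fun N => ∫ x, g x ∂(rm (cb N) N (uT N) (Rs N) (w N))) U (𝓝 (∫ x, g x ∂β)) := by
  obtain ⟨m, h1, h2, -⟩ := rst_lim hP hQ hD ht hw U hU hR
  rw [WLim.uniq hβ h1]
  exact h2 g

/-- **THE limit of a class of main arcs** -/
theorem man_inj {s s' : Sr} (hR : ∀ᶠ N : ℕ in atTop, Rs N ⊆ Man (ev i) (ev j) P Q W s s' N (uT N)) :
    ∀ᵐ x ∂β, Function.Injective x.1 ∧ x.1 ∈ ClM (ev i) (ev j) P Q W s s' ∧ W.t0 ≤ x.2 ∧ x.2 ≤ W.t1 ∧ 0 ≤ x.2 := by
  obtain ⟨m, h1, -, h3⟩ := man_lim hP hQ hD ht hw U hU hR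
  rw [WLim.uniq hβ h1]
  exact h3

theorem man_bcf {s s' : Sr} (hR : ∀ᶠ N : ℕ in atTop, Rs N ⊆ Man (ev i) (ev j) P Q W s s' N (uT N)) (g : (CI3 × ℝ) →ᵇ ℝ) :
    Tendsto (fun N => ∫ x, g x ∂(rm (cb N) N (uT N) (Rs N) (w N))) U (𝓝 (∫ x, g x ∂β)) := by
  obtain ⟨m, h1, h2, -⟩ := man_lim hP hQ hD ht hw U hU hR
  rw [WLim.uniq hβ h1]
  exact h2 g

end

/-! ### turned curves -/

/-- a property which holds almost everywhere, for the turned curves -/
theorem ae_turn {v : ℂ} (hv : v ≠ 0) {β : Measure (CI3 × ℝ)} {p : CI3 × ℝ → Prop} :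
    (∀ᵐ x ∂(β.map fun x : CI3 × ℝ => (v • x.1, x.2)), p x) ↔ ∀ᵐ x ∂β, p (v • x.1, x.2) :=
  ((Homeomorph.smulOfNeZero v hv).prodCongr (Homeomorph.refl ℝ)).measurableEmbedding.ae_map_iff

/-- turned injective curves are injective -/
theorem inj_turn {v : ℂ} (hv : v ≠ 0) {β : Measure (CI3 × ℝ)} (h : ∀ᵐ x ∂β, Function.Injective x.1) :
    ∀ᵐ x ∂(β.map fun x : CI3 × ℝ => (v • x.1, x.2)), Function.Injective x.1 := by
  refine (ae_turn hv).2 ?_
  filter_upwards [h] with x hx s t hst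
  refine hx ?_
  have h1 : v * x.1 s = v * x.1 t := hst
  exact mul_left_cancel₀ hv h1

end Bt

end Pool.Agent.ROT.F3
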