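import Pool.Agent.ROT.F3LocF
import Pool.Agent.ROT.F3JmD

/-!
# ROT, F3 (helper42): `hGV`, `o1`, `o2` of the joint marks `Jm`, and the two directions of the locality of the class 0 (`s1`, `s2` of `LocN`)

Literals of helper82 (F3JmD): `FgS`, `ArW`, `jF1`, `jF2`, `jT`, `jSF`.

* `jV P a` : the closed set `V` of the class `a` (`cls_marks`): main arcs for `a = 0`, companions else; `jV_closed`, `jV_sub`;
* `TmS` : the times of one arm are in `[0, 1]`;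
* **`jF1_vt`**, **`jF2_vt`** : (rest, relative times of the foreign marks) is in `jV` (hypothesis `hGV`);
* **`jF1_o1`**, **`jF2_o2`**;
* **`arW_A`**, **`arW_B`** : `FgS` at both ends and the windows of the rest (`WinR`) give `ArW`.
-/

set_option autoImplicit false

noncomputable section

open unitInterval Set

namespace Pool.Agent.ROT.F3.CK

open Pool.Agent.ROT.F3 Pool.Agent.ROT.F3.LF
open Pool.Agent.ROT.F3.CC (VT AmV ArV rst m4 rA rB cl pcut O6 cutp_eq)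

/-- the arcs of the class `a` (= 17's `AV P a`) -/
def jAC (P : Prm) (a : Fin 3) : Set CC.Pie :=
  if a = 0 then AmV (P.u * ev a) (P.u * ev (-a)) P.p P.q P.W else ArV (P.u * ev a) (P.u * ev (-a)) P.p P.q P.Wc

/-- **the set `V` of the class `a`** (= 17's `VC P a`) -/
def jV (P : Prm) (a : Fin 3) : Set (CC.Pie × (ℝ × ℝ)) := VT (ev a) (ev (-a)) P.p P.q (jAC P a)

lemma jAC_closed (P : Prm) (a : Fin 3) : IsClosed (jAC P a) := by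
  unfold jAC
  split_ifs
  · exact CC.amV_closed _ _ _ _ _
  · exact CC.arV_closed _ _ _ _ _

lemma jAC_sub (P : Prm) (a : Fin 3) : jAC P a ⊆ ArV (P.u * ev a) (P.u * ev (-a)) P.p P.q (wnA P a) := by
  unfold jAC wnA
  split_ifs
  · exact CC.amV_sub _ _ _ _ _
  · exact Subset.rfl

lemma jV_closed (P : Prm) (a : Fin 3) : IsClosed (jV P a) := CC.vt_closed _ _ _ _ (jAC_closed P a)

lemma wnA_or (P : Prm) (a : Fin 3) : wnA P a = P.W ∨ wnA P a = P.Wc := by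
  unfold wnA
  split_ifs
  · exact Or.inl rfl
  · exact Or.inr rfl

lemma prm_D {P : Prm} (hP : P.Ok) (a : Fin 3) : 16 * (P.p.s.len + P.q.s.len) < (wnA P a).D0 ∧ 0 < (wnA P a).D0 ∧
    2 * (P.p.f.r0 + P.q.f.r0) ≤ (wnA P a).D0 := by
  have h1 := hP.nr
  have h2 := hP.nrc
  have h3 := hP.p.bn
  have h4 := hP.q.bn
  have h5 := hP.p.len
  have h6 := hP.q.len
  have f1 : 0 ≤ P.p.f.r0 := by
    have := hP.p.f
    linarith [this.r, this.r2, this.g64, this.rr]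
  have f2 : 0 ≤ P.q.f.r0 := by
    have := hP.q.f
    linarith [this.r, this.r2, this.g64, this.rr]
  rcases wnA_or P a with h | h <;> rw [h] <;> exact ⟨by linarith, by linarith, by linarith⟩

section

variable {P : Prm} {i j : Fin 3} {G0 H : Ga} {g : CC.Gm}

/-- the times of the gates `x` of the arms `k`, `oppA k` are in `[0, 1]` -/
def TmS (G : Ga) (k : Arm) (g : CC.Gm) : Prop := G.tx k g ∈ Icc (0 : ℝ) 1 ∧ G.tx (oppA k) g ∈ Icc (0 : ℝ) 1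

lemma pji_of {t : ℝ} (h : t ∈ Icc (0 : ℝ) 1) : ((pji t : I) : ℝ) = t := by
  unfold pji
  rw [projIcc_of_mem zero_le_one h]

lemma wi_iff {W : Wn} {L : ℝ} {f : C(I, ℂ)} {a b : I} : wiF W f L a b ≤ 0 ↔ WdC W f L a b := by
  unfold wiF
  simp only [max_le_iff, sub_nonpos]
  exact ⟨fun h => ⟨h.1.1, h.1.2, h.2.1, h.2.2⟩, fun h => ⟨⟨h.d0, h.d1⟩, h.t0, h.t1⟩⟩

/-- one end -/
lemma FgS.fpC {GR : Ga} {k : Arm} (h : FgS P i j G0 GR k g) : FpC (dirA i j k) (P.u * dirA i j k) (endA P k) (clA i j k = 0) g.2.2 g.1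
    (G0.ix k g) (GR.ic k g) (GR.ix k g) (G0.ix (oppA k) g) := ⟨h.kc, h.ra, h.re, h.nr⟩

/-- order of the marks, strand A -/
lemma ord_A {GR : Ga} (h1 : FgS P i j G0 GR .fp g) (h2 : FgS P i j G0 GR .bq g) (h3 : GR.ix .fp g ≤ GR.ix .bq g) :
    O6 (G0.ix .fp g) (GR.ic .fp g) (GR.ix .fp g) (GR.ix .bq g) (GR.ic .bq g) (G0.ix .bq g) :=
  Or.inl ⟨h1.o1, h1.o2, h3, h2.o2, h2.o1⟩

/-- order of the marks, strand B -/
lemma ord_B {GR : Ga} (h1 : FgS P i j G0 GR .bp g) (h2 : FgS P i j G0 GR .fq g) (h3 : GR.ix .fq g ≤ GR.ix .bp g) :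
    O6 (G0.ix .bp g) (GR.ic .bp g) (GR.ix .bp g) (GR.ix .fq g) (GR.ic .fq g) (G0.ix .fq g) :=
  Or.inr ⟨h2.o1, h2.o2, h3, h1.o2, h1.o1⟩

/-- the marks are different -/
lemma ne_of {a b c c' b' a' : I} {W : Wn} {f : C(I, ℂ)} {L : ℝ} (ho : O6 a b c c' b' a') (hW : 0 < W.D0) (h : WdC W f L c c') :
    a ≠ a' := by
  rintro rfl
  have hc : c = c' := by
    rcases ho with ⟨h1, h2, h3, h4, h5⟩ | ⟨h1, h2, h3, h4, h5⟩
    · have x1 : c = a := le_antisymm (h3.trans (h4.trans h5)) (h1.trans h2)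
      have x2 : c' = a := le_antisymm (h4.trans h5) (h1.trans (h2.trans h3))
      rw [x1, x2]
    · have x1 : c = a := le_antisymm (h4.trans h5) (h1.trans (h2.trans h3))
      have x2 : c' = a := le_antisymm (h3.trans (h4.trans h5)) (h1.trans h2)
      rw [x1, x2]
  have := h.d0
  rw [hc, cutc_one, sub_self, norm_zero] at this
  linarith

lemma mem_of {a b c c' b' a' : I} (ho : O6 a b c c' b' a') : (c : ℝ) ∈ uIcc (a : ℝ) a' ∧ (c' : ℝ) ∈ uIcc (a : ℝ) a' := by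
  rcases ho with ⟨h1, h2, h3, h4, h5⟩ | ⟨h1, h2, h3, h4, h5⟩
  · have q1 : (a : ℝ) ≤ c := h1.trans h2
    have q2 : (c : ℝ) ≤ c' := h3
    have q3 : (c' : ℝ) ≤ a' := h4.trans h5
    rw [uIcc_of_le (q1.trans (q2.trans q3))]
    exact ⟨⟨q1, q2.trans q3⟩, q1.trans q2, q3⟩
  · have q1 : (a' : ℝ) ≤ c' := h1.trans h2
    have q2 : (c' : ℝ) ≤ c := h3
    have q3 : (c : ℝ) ≤ a := h4.trans h5
    rw [uIcc_of_ge (q1.trans (q2.trans q3))]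
    exact ⟨⟨q1.trans q2, q3⟩, q1, q2.trans q3⟩

/-- the marks of the lattice 0 on the class -/
lemma jT_eq (h : g ∈ ⋂ k, G0.B k) : m4 (jT G0 g) = m4 (G0.t8 g) := by
  have e : ∀ k, jT G0 g k = G0.t8 g k := fun k => by
    show phi8 G0.B G0.c G0.x g k = _
    rw [phi8_t8, bi_pos h, one_mul]
  unfold m4
  rw [e, e, e, e]

lemma jw0_ne (h : jw0 P i j G0 g ≠ 0) : g ∈ ⋂ k, G0.B k := by
  by_contra hc
  apply h
  unfold jw0
  rw [bi_neg fun h' => hc h'.1, ENNReal.ofReal_zero]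

/-- **`hGV`, strand A** -/
theorem jF1_vt (hP : P.Ok) (hL : 0 ≤ g.1) (hw : g ∈ ⋂ k, G0.B k) (t0 : TmS G0 .fp g) (tR : TmS (H.rot P.u) .fp g)
    (h : g ∈ jF1 P i j G0 H) : ((rst g (m4 (jT G0 g))).1, rA (m4 (jT G0 g)) (jSF P H g)) ∈ jV P i := by
  obtain ⟨h1, h2, h3⟩ := h
  have ho := ord_A h1 h2 h3.o
  obtain ⟨d1, d2, -⟩ := prm_D hP i
  have hw' := wi_iff.1 h3.w
  have key := fp_vt hP.p hP.q (ev_norm i) (ev_norm (-i)) (ev_turn hP.u i).2 (ev_turn hP.u (-i)).2 hL ho (ne_of ho d2 hw') d1 h1.fpC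
    h2.fpC hw'
  rw [jT_eq hw]
  have e : ((rst g (m4 (G0.t8 g))).1, rA (m4 (G0.t8 g)) (jSF P H g)) =
      (pcut ((g.2.2, g.1) : CC.Pie) (G0.ix .fp g) (G0.ix .bq g),
        (((((H.rot P.u).ix .fp g : I) : ℝ) - G0.ix .fp g) / ((G0.ix .bq g : ℝ) - G0.ix .fp g),
          ((((H.rot P.u).ix .bq g : I) : ℝ) - G0.ix .fp g) / ((G0.ix .bq g : ℝ) - G0.ix .fp g))) := by
    have a1 : ((G0.ix .fp g : I) : ℝ) = G0.tx .fp g := pji_of t0.1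
    have a2 : ((G0.ix .bq g : I) : ℝ) = G0.tx .bq g := pji_of t0.2
    have a3 : (((H.rot P.u).ix .fp g : I) : ℝ) = (H.rot P.u).tx .fp g := pji_of tR.1
    have a4 : (((H.rot P.u).ix .bq g : I) : ℝ) = (H.rot P.u).tx .bq g := pji_of tR.2
    rw [a1, a2, a3, a4]
    rfl
  rw [e]
  unfold jV jAC
  rw [wnA] at key
  split_ifs at key ⊢ with h0
  · exact key.2 h0
  · exact key.1

/-- **`hGV`, strand B** -/
theorem jF2_vt (hP : P.Ok) (hL : 0 ≤ g.1) (hw : g ∈ ⋂ k, G0.B k) (t0 : TmS G0 .bp g) (tR : TmS (H.rot P.u) .bp g)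
    (h : g ∈ jF2 P i j G0 H) : ((rst g (m4 (jT G0 g))).2.1, rB (m4 (jT G0 g)) (jSF P H g)) ∈ jV P j := by
  obtain ⟨h1, h2, h3⟩ := h
  have ho := ord_B h1 h2 h3.o
  obtain ⟨d1, d2, -⟩ := prm_D hP j
  have hw' := wi_iff.1 h3.w
  have key := fp_vt hP.p hP.q (ev_norm j) (ev_norm (-j)) (ev_turn hP.u j).2 (ev_turn hP.u (-j)).2 hL ho (ne_of ho d2 hw') d1 h1.fpC
    h2.fpC hw'
  rw [jT_eq hw]
  have e : ((rst g (m4 (G0.t8 g))).2.1, rB (m4 (G0.t8 g)) (jSF P H g)) =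
      (pcut ((g.2.2, g.1) : CC.Pie) (G0.ix .bp g) (G0.ix .fq g),
        (((((H.rot P.u).ix .bp g : I) : ℝ) - G0.ix .bp g) / ((G0.ix .fq g : ℝ) - G0.ix .bp g),
          ((((H.rot P.u).ix .fq g : I) : ℝ) - G0.ix .bp g) / ((G0.ix .fq g : ℝ) - G0.ix .bp g))) := by
    have a1 : ((G0.ix .bp g : I) : ℝ) = G0.tx .bp g := pji_of t0.1
    have a2 : ((G0.ix .fq g : I) : ℝ) = G0.tx .fq g := pji_of t0.2
    have a3 : (((H.rot P.u).ix .bp g : I) : ℝ) = (H.rot P.u).tx .bp g := pji_of tR.1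
    have a4 : (((H.rot P.u).ix .fq g : I) : ℝ) = (H.rot P.u).tx .fq g := pji_of tR.2
    rw [a1, a2, a3, a4]
    rfl
  rw [e]
  unfold jV jAC
  rw [wnA] at key
  split_ifs at key ⊢ with h0
  · exact key.2 h0
  · exact key.1

/-- **`o1`** -/
theorem jF1_o1 (hP : P.Ok) (hw : g ∈ ⋂ k, G0.B k) (t0 : TmS G0 .fp g) (tR : TmS (H.rot P.u) .fp g) (h : g ∈ jF1 P i j G0 H) :
    jT G0 g 1 ≠ jT G0 g 2 ∧ (jSF P H g).1 ∈ uIcc (jT G0 g 1) (jT G0 g 2) ∧ (jSF P H g).2.1 ∈ uIcc (jT G0 g 1) (jT G0 g 2) := by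
  obtain ⟨h1, h2, h3⟩ := h
  have ho := ord_A h1 h2 h3.o
  have hne := ne_of ho (prm_D hP i).2.1 (wi_iff.1 h3.w)
  have hm := mem_of ho
  have e := jT_eq hw
  have e1 : jT G0 g 1 = G0.tx .fp g := congrArg (fun x : CC.M4 => x.1) e
  have e2 : jT G0 g 2 = G0.tx .bq g := congrArg (fun x : CC.M4 => x.2.1) e
  have a1 : ((G0.ix .fp g : I) : ℝ) = G0.tx .fp g := pji_of t0.1
  have a2 : ((G0.ix .bq g : I) : ℝ) = G0.tx .bq g := pji_of t0.2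
  have a3 : (((H.rot P.u).ix .fp g : I) : ℝ) = (H.rot P.u).tx .fp g := pji_of tR.1
  have a4 : (((H.rot P.u).ix .bq g : I) : ℝ) = (H.rot P.u).tx .bq g := pji_of tR.2
  rw [a1, a2, a3, a4] at hm
  rw [e1, e2]
  refine ⟨fun hc => hne (Subtype.ext ?_), hm.1, hm.2⟩
  rw [a1, a2]
  exact hc

/-- **`o2`** -/
theorem jF2_o2 (hP : P.Ok) (hw : g ∈ ⋂ k, G0.B k) (t0 : TmS G0 .bp g) (tR : TmS (H.rot P.u) .bp g) (h : g ∈ jF2 P i j G0 H) :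
    jT G0 g 6 ≠ jT G0 g 5 ∧ (jSF P H g).2.2.2 ∈ uIcc (jT G0 g 6) (jT G0 g 5) ∧
      (jSF P H g).2.2.1 ∈ uIcc (jT G0 g 6) (jT G0 g 5) := by
  obtain ⟨h1, h2, h3⟩ := h
  have ho := ord_B h1 h2 h3.o
  have hne := ne_of ho (prm_D hP j).2.1 (wi_iff.1 h3.w)
  have hm := mem_of ho
  have e := jT_eq hw
  have e1 : jT G0 g 5 = G0.tx .fq g := congrArg (fun x : CC.M4 => x.2.2.1) e
  have e2 : jT G0 g 6 = G0.tx .bp g := congrArg (fun x : CC.M4 => x.2.2.2) e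
  have a1 : ((G0.ix .bp g : I) : ℝ) = G0.tx .bp g := pji_of t0.1
  have a2 : ((G0.ix .fq g : I) : ℝ) = G0.tx .fq g := pji_of t0.2
  have a3 : (((H.rot P.u).ix .bp g : I) : ℝ) = (H.rot P.u).tx .bp g := pji_of tR.1
  have a4 : (((H.rot P.u).ix .fq g : I) : ℝ) = (H.rot P.u).tx .fq g := pji_of tR.2
  rw [a1, a2, a3, a4] at hm
  rw [e1, e2]
  refine ⟨fun hc => hne (Subtype.ext ?_), hm.1, hm.2⟩
  rw [a1, a2]
  exact hc

/-! ### the windows -/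

/-- the balls of the pieces `x` .. `x~` -/
lemma kc_ball {d t : ℂ} {E : En} {f : C(I, ℂ)} {L : ℝ} {a b c u : I} (hk : kcF d t E f L a b c ≤ 0) (hb : BtI a b c)
    (hu : BtI a u c) (hr2 : 0 ≤ E.f.r2) : ‖f u - f a‖ ≤ E.k := by
  unfold kcF at hk
  simp only [max_le_iff] at hk
  obtain ⟨⟨⟨h1, h2⟩, -, -⟩, -, -⟩ := hk
  rw [stS_bt continuous_norm] at h1 h2
  show _ ≤ E.rk + E.f.r2
  have hbb : BtI a b b := by
    rcases hb with ⟨x1, x2⟩ | ⟨x1, x2⟩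
    · exact Or.inl ⟨x1, le_rfl⟩
    · exact Or.inr ⟨le_rfl, x2⟩
  have h4 := h1 b hbb
  have h6 := hr2
  rcases hb with ⟨x1, x2⟩ | ⟨x1, x2⟩
  · have hh := hu.of_le (x1.trans x2)
    rcases le_total u b with h' | h'
    · linarith [h1 u (Or.inl ⟨hh.1, h'⟩)]
    · have h3 := h2 u (Or.inl ⟨h', hh.2⟩)
      have h5 := norm_add_le (f u - f b) (f b - f a)
      rw [sub_add_sub_cancel] at h5
      linarith
  · have hh := hu.comm.of_le (x1.trans x2)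
    rcases le_total b u with h' | h'
    · linarith [h1 u (Or.inr ⟨h', hh.2⟩)]
    · have h3 := h2 u (Or.inr ⟨hh.1, h'⟩)
      have h5 := norm_add_le (f u - f b) (f b - f a)
      rw [sub_add_sub_cancel] at h5
      linarith

/-- **windows of the rest give order and windows of the arc**, strand A -/
theorem arW_A (hP : P.Ok) (hL : 0 ≤ g.1) (h1 : FgS P i j G0 (H.rot P.u) .fp g) (h2 : FgS P i j G0 (H.rot P.u) .bq g)
    (w0 : (wnA P i).D0 + (P.p.k + P.q.k) ≤ ‖cutc g.2.2 (G0.ix .fp g) (G0.ix .bq g) 1‖)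
    (w1 : ‖cutc g.2.2 (G0.ix .fp g) (G0.ix .bq g) 1‖ ≤ (wnA P i).D1 - (P.p.k + P.q.k))
    (v0 : (wnA P i).t0 + (P.p.lk + P.q.lk) ≤ g.1 * |((G0.ix .bq g : I) : ℝ) - G0.ix .fp g|)
    (v1 : g.1 * |((G0.ix .bq g : I) : ℝ) - G0.ix .fp g| ≤ (wnA P i).t1) : g ∈ jF1 P i j G0 H := by
  have r2 := hP.p.f.r2.le
  have r2' := hP.q.f.r2.le
  have ho : (H.rot P.u).ix .fp g ≤ (H.rot P.u).ix .bq g := by
    by_contra hc
    push Not at hc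
    have b1 : ‖g.2.2 ((H.rot P.u).ix .bq g) - g.2.2 (G0.ix .fp g)‖ ≤ P.p.k := by
      have hu : BtI (G0.ix .fp g) ((H.rot P.u).ix .bq g) ((H.rot P.u).ix .fp g) := Or.inl ⟨h2.o3, hc.le⟩
      exact kc_ball h1.kc (Or.inl ⟨h1.o1, h1.o2⟩) hu r2
    have b2 : ‖g.2.2 ((H.rot P.u).ix .bq g) - g.2.2 (G0.ix .bq g)‖ ≤ P.q.k :=
      kc_ball h2.kc (Or.inr ⟨h2.o2, h2.o1⟩) (Or.inr ⟨le_rfl, (le_trans h2.o2 h2.o1 : (H.rot P.u).ix .bq g ≤ G0.ix .bq g)⟩) r2'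
    rw [cutc_one] at w0
    have n1 := norm_sub_le (g.2.2 ((H.rot P.u).ix .bq g) - g.2.2 (G0.ix .fp g)) (g.2.2 ((H.rot P.u).ix .bq g) - g.2.2 (G0.ix .bq g))
    rw [sub_sub_sub_cancel_left] at n1
    linarith [(prm_D hP i).2.1]
  have hO := ord_A h1 h2 ho
  exact ⟨h1, h2, ⟨ho, wi_iff.2 (winR_arc hL hO r2 r2' h1.fpC h2.fpC w0 w1 v0 v1)⟩⟩

/-- strand B -/
theorem arW_B (hP : P.Ok) (hL : 0 ≤ g.1) (h1 : FgS P i j G0 (H.rot P.u) .bp g) (h2 : FgS P i j G0 (H.rot P.u) .fq g)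
    (w0 : (wnA P j).D0 + (P.p.k + P.q.k) ≤ ‖cutc g.2.2 (G0.ix .bp g) (G0.ix .fq g) 1‖)
    (w1 : ‖cutc g.2.2 (G0.ix .bp g) (G0.ix .fq g) 1‖ ≤ (wnA P j).D1 - (P.p.k + P.q.k))
    (v0 : (wnA P j).t0 + (P.p.lk + P.q.lk) ≤ g.1 * |((G0.ix .fq g : I) : ℝ) - G0.ix .bp g|)
    (v1 : g.1 * |((G0.ix .fq g : I) : ℝ) - G0.ix .bp g| ≤ (wnA P j).t1) : g ∈ jF2 P i j G0 H := by
  have r2 := hP.p.f.r2.le
  have r2' := hP.q.f.r2.le
  have ho : (H.rot P.u).ix .fq g ≤ (H.rot P.u).ix .bp g := by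
    by_contra hc
    push Not at hc
    have b1 : ‖g.2.2 ((H.rot P.u).ix .fq g) - g.2.2 (G0.ix .bp g)‖ ≤ P.p.k := by
      have hu : BtI (G0.ix .bp g) ((H.rot P.u).ix .fq g) ((H.rot P.u).ix .bp g) := Or.inr ⟨hc.le, h2.o3⟩
      exact kc_ball h1.kc (Or.inr ⟨h1.o2, h1.o1⟩) hu r2
    have b2 : ‖g.2.2 ((H.rot P.u).ix .fq g) - g.2.2 (G0.ix .fq g)‖ ≤ P.q.k :=
      kc_ball h2.kc (Or.inl ⟨h2.o1, h2.o2⟩) (Or.inl ⟨(le_trans h2.o1 h2.o2 : G0.ix .fq g ≤ (H.rot P.u).ix .fq g), le_rfl⟩) r2'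
    rw [cutc_one] at w0
    have n1 := norm_sub_le (g.2.2 ((H.rot P.u).ix .fq g) - g.2.2 (G0.ix .bp g)) (g.2.2 ((H.rot P.u).ix .fq g) - g.2.2 (G0.ix .fq g))
    rw [sub_sub_sub_cancel_left] at n1
    linarith [(prm_D hP j).2.1]
  have hO := ord_B h1 h2 ho
  exact ⟨h1, h2, ⟨ho, wi_iff.2 (winR_arc hL hO r2 r2' h1.fpC h2.fpC w0 w1 v0 v1)⟩⟩

end

end Pool.Agent.ROT.F3.CK
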