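import Pool.Agent.ROT.F3HLocS
import Pool.Agent.ROT.F3JmA

/-!
# ROT, F3 (helper97; D40): `hloc` at a place of a pair

* `mkP_at` : the marks at a place; **`clq_of`** : hypothesis `cl` of `hloc` (foreign gates at both ends, windows of
  the outer marks);
* `SaH` : the outer blocks of one end (marked curves of helper86, gates of helper28);
* **`hloc_pl`** : `hloc` at the place `j` of the pair `j.1`; `paX_of` : the curves of the native class.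
-/

set_option autoImplicit false

noncomputable section

namespace Pool.Agent.ROT.F3.CK

open MeasureTheory Set unitInterval Filter Topology

open scoped ENNReal Classical

open Pool.Agent.ROT.F3 Pool.Agent.ROT.F3.LF
open Pool.Agent.ROT.F3.CC (Pie cutp cutp_apply pcut cl O6 fA fB J3 cl3 aJ aJ' cJ cJ' rJ qJ FJ Mk3 rJ_meas)
open Pool.Agent.ROT.F3.C0K (XM blX)

/-! ### 1. The marks at a place -/

section

variable {P : Prm} {G0 H : Fin 3 → Ga} {j : J3} {g : CC.Gm} {μ : Measure CC.Gm} {C : Fin 3 → Set Pie} {t t' : Fin 3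
    → Pie → ℝ}

/-- the marks of the pair `k` -/
abbrev MkP (P : Prm) (G0 H : Fin 3 → Ga) (μ : Measure CC.Gm) (C : Fin 3 → Set Pie) (t t' : Fin 3 → Pie → ℝ) (k : Fin
    3) : Prop :=
  Mk3 μ (jw0 P (fA k) (fB k) (G0 k)) (jT (G0 k)) (jF1 P (fA k) (fB k) (G0 k) (H k)) (jF2 P (fA k) (fB k) (G0 k) (H k))
    (jSF P (H k)) (C (fA k)) (C (fB k)) (t (fA k)) (t' (fA k)) (t (fB k)) (t' (fB k))

/-- the marks at a place -/
lemma mkP_at (M : MkP P G0 H μ C t t' j.1) : ∀ᵐ g ∂μ, jw0 P (fA j.1) (fB j.1) (G0 j.1) g ≠ 0 →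
    (rJ (fun k => jT (G0 k)) j g ∈ C (cl3 j) ↔
      g ∈ FJ (fun k => jF1 P (fA k) (fB k) (G0 k) (H k)) (fun k => jF2 P (fA k) (fB k) (G0 k) (H k)) j) ∧
    (g ∈ FJ (fun k => jF1 P (fA k) (fB k) (G0 k) (H k)) (fun k => jF2 P (fA k) (fB k) (G0 k) (H k)) j →
      t (cl3 j) (rJ (fun k => jT (G0 k)) j g) = (qJ (fun k => jT (G0 k)) (fun k => jSF P (H k)) j g).1 ∧
      t' (cl3 j) (rJ (fun k => jT (G0 k)) j g) = (qJ (fun k => jT (G0 k)) (fun k => jSF P (H k)) j g).2) := by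
  obtain ⟨k, e⟩ := j
  cases e
  · exact M.h1
  · exact M.h2

/-- displacement and duration of the rests -/
lemma resA_dsp (G : Ga) (k : Arm) (g : CC.Gm) : (resA G k g).1 1 = cutc g.2.2 (G.ix k g) (G.ix (oppA k) g) 1 := by
  rw [cutc_eq]
  rfl

/-- the windows of the middle piece -/
structure WnV (P : Prm) (a : Fin 3) (O O' : Ot) (V : Wn) : Prop where
  d0 : (wnA P a).D0 + (P.p.k + P.q.k) + (O.r + O'.r) ≤ V.D0
  d1 : V.D1 + (O.r + O'.r) + (P.p.k + P.q.k) ≤ (wnA P a).D1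
  t0 : (wnA P a).t0 ≤ V.t0
  t1 : V.t1 + (O.lb + O'.lb) ≤ (wnA P a).t1

/-- **order and windows of the arc**: displacement and duration of the rest, duration of the arc from below -/
theorem arw_mid {i i' : Fin 3} {G0 GR : Ga} {k : Arm} (hP : P.Ok) (hL : 0 ≤ g.1) (h1 : FgS P i i' G0 GR k g)
    (h2 : FgS P i i' G0 GR (oppA k) g) (ho : leA k (GR.ix k g) (GR.ix (oppA k) g))
    (w0 : (wnA P (clA i i' k)).D0 + (P.p.k + P.q.k) ≤ ‖cutc g.2.2 (G0.ix k g) (G0.ix (oppA k) g) 1‖)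
    (w1 : ‖cutc g.2.2 (G0.ix k g) (G0.ix (oppA k) g) 1‖ ≤ (wnA P (clA i i' k)).D1 - (P.p.k + P.q.k))
    (v0 : (wnA P (clA i i' k)).t0 ≤ g.1 * |((GR.ix (oppA k) g : I) : ℝ) - GR.ix k g|)
    (v1 : g.1 * |((G0.ix (oppA k) g : I) : ℝ) - G0.ix k g| ≤ (wnA P (clA i i' k)).t1) : ArW P i i' GR k g := by
  have f1 := (endA_okH hP k).f.r2.le
  have f2 := (endA_okH hP (oppA k)).f.r2.le
  have ek : (endA P k).k + (endA P (oppA k)).k = P.p.k + P.q.k := endA_add (f := fun E => E.k) k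
  have hO : O6 (G0.ix k g) (GR.ic k g) (GR.ix k g) (GR.ix (oppA k) g) (GR.ic (oppA k) g) (G0.ix (oppA k) g) := by
    cases k
    · exact Or.inl ⟨h1.o1, h1.o2, ho, h2.o2, h2.o1⟩
    · exact Or.inr ⟨h2.o1, h2.o2, ho, h1.o2, h1.o1⟩
    · exact Or.inl ⟨h1.o1, h1.o2, ho, h2.o2, h2.o1⟩
    · exact Or.inr ⟨h2.o1, h2.o2, ho, h1.o2, h1.o1⟩
  have c2 : FpC (dirA i i' (oppA k)) (P.u * dirA i i' (oppA k)) (endA P (oppA k)) (clA i i' k = 0) g.2.2 g.1 (G0.ix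
      (oppA k) g)
      (GR.ic (oppA k) g) (GR.ix (oppA k) g) (G0.ix k g) := by
    cases k
    · exact h2.fpC
    · exact h2.fpC
    · exact h2.fpC
    · exact h2.fpC
  refine ⟨ho, wi_iff.2 ?_⟩
  have key := winR_arc (W := { wnA P (clA i i' k) with t0 := g.1 * |((G0.ix (oppA k) g : I) : ℝ) - G0.ix k g| -
    ((endA P k).lk + (endA P (oppA k)).lk) }) hL hO f1 f2 h1.fpC c2 (by rw [ek]; exact w0) (by rw [ek]; exact w1)
    (by simp only; linarith) v1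
  refine ⟨key.d0, key.d1, ?_, key.t1⟩
  unfold duL
  split_ifs with h
  · norm_num
  · linarith [mul_comm g.1 |((GR.ix (oppA k) g : I) : ℝ) - GR.ix k g|]

/-- the gates at both ends, the order and the windows give the class of the place -/
theorem fj_win (hP : P.Ok) (hL : 0 < g.1) (h0 : g ∈ jK0 P (fA j.1) (fB j.1) (G0 j.1)) {d d' : ℂ} {O O' : Ot} {Y Y' :
    Tp} {V : Wn}
    (hV : WnV P (cl3 j) O O' V) {s : ℝ × ℝ} (hs : EpC d d' O O' Y Y' V (resA (G0 j.1) (kS j.2) g, s))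
    (h1 : FgS P (fA j.1) (fB j.1) (G0 j.1) ((H j.1).rot P.u) (kS j.2) g)
    (h2 : FgS P (fA j.1) (fB j.1) (G0 j.1) ((H j.1).rot P.u) (kE j.2) g)
    (r1 : rlA (G0 j.1) ((H j.1).rot P.u) (kS j.2) g ≤ s.1) (r2 : s.2 ≤ 1 - rlA (G0 j.1) ((H j.1).rot P.u) (kE j.2)
    g) :
    g ∈ FJ (fun k => jF1 P (fA k) (fB k) (G0 k) (H k)) (fun k => jF2 P (fA k) (fB k) (G0 k) (H k)) j ∧
      ltA (kS j.2) ((G0 j.1).ix (kS j.2) g) ((G0 j.1).ix (kE j.2) g) := by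
  have e1 := hs.end1
  have e0 : 0 ≤ (resA (G0 j.1) (kS j.2) g).2 := mul_nonneg hL.le (abs_nonneg _)
  have e2 := hs.dur e0
  have e3 := hs.t0
  have e4 := hs.s1
  simp only at e1 e2 e3 e4
  have k1 : (wnA P (cl3 j)).D0 + (P.p.k + P.q.k) ≤ ‖(resA (G0 j.1) (kS j.2) g).1 1‖ := by linarith [hV.d0, e1.1]
  have k2 : ‖(resA (G0 j.1) (kS j.2) g).1 1‖ ≤ (wnA P (cl3 j)).D1 - (P.p.k + P.q.k) := by linarith [hV.d1, e1.2]
  have k4 : (resA (G0 j.1) (kS j.2) g).2 ≤ (wnA P (cl3 j)).t1 := by linarith [hV.t1, e2.2]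
  have hne : (G0 j.1).ix (kS j.2) g ≠ (G0 j.1).ix (kE j.2) g := by
    intro hc
    rw [resA_one, oppA_kS, hc, sub_self, norm_zero] at k1
    have n1 := wnA_ok hP (cl3 j)
    obtain ⟨-, -, -, a4, a5, -, a7⟩ := end_nm hP.p
    obtain ⟨-, -, -, b4, b5, -, b7⟩ := end_nm hP.q
    have a8 := hP.p.bn
    have b8 := hP.q.bn
    linarith
  have o := leA_ne (jK0_ord h0 j.2) hne
  refine ⟨fj_iff.2 ⟨h1, h2, ?_⟩, o⟩
  have o' : ltA (kS j.2) ((G0 j.1).ix (kS j.2) g) ((G0 j.1).ix (oppA (kS j.2)) g) := by rw [oppA_kS]; exact o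
  have i1 := rlA_ix (GR := (H j.1).rot P.u) o'
  have i2 := rlA_ix' (GR := (H j.1).rot P.u) o'
  have h2' : FgS P (fA j.1) (fB j.1) (G0 j.1) ((H j.1).rot P.u) (oppA (kS j.2)) g := by rw [oppA_kS]; exact h2
  have hle : rlA (G0 j.1) ((H j.1).rot P.u) (kS j.2) g ≤ 1 - rlA (G0 j.1) ((H j.1).rot P.u) (oppA (kS j.2)) g := by
    rw [oppA_kS]
    exact r1.trans (e4.trans r2)
  have ec : clA (fA j.1) (fB j.1) (kS j.2) = cl3 j := clA_X false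
  refine arw_mid hP hL.le h1 h2' ?_ ?_ ?_ ?_ ?_
  · rw [leA_iff o', ← rlA_opp o']
    exact hle
  · rw [ec, ← resA_dsp]
    exact k1
  · rw [ec, ← resA_dsp]
    exact k2
  · rw [ec, ← i1, ← i2]
    have e5 : ∀ a z x x' : ℝ, a + (1 - x') * (z - a) - (a + x * (z - a)) = (z - a) * (1 - x' - x) := fun a z x x' =>
    by ring
    rw [e5, abs_mul, abs_of_nonneg (sub_nonneg.2 hle), ← mul_assoc]
    have e6 : (pcut (resA (G0 j.1) (kS j.2) g) s.1 s.2).2 = (resA (G0 j.1) (kS j.2) g).2 * (s.2 - s.1) := by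
      show (resA (G0 j.1) (kS j.2) g).2 * |s.2 - s.1| = _
      rw [abs_of_nonneg (sub_nonneg.2 e4)]
    rw [e6] at e3
    refine hV.t0.trans (e3.trans (mul_le_mul_of_nonneg_left ?_ e0))
    rw [oppA_kS]
    linarith
  · rw [ec]
    exact k4

/-- **hypothesis `cl` of `hloc`** -/
theorem clq_of (hP : P.Ok) (M : MkP P G0 H μ C t t' j.1)
    (hg : ∀ᵐ g ∂μ, jw0 P (fA j.1) (fB j.1) (G0 j.1) g ≠ 0 → 0 < g.1 ∧ (G0 j.1).Un g ∧ ((H j.1).rot P.u).Un g) {d d'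
    : ℂ}
    {O O' : Ot} {Y Y' : Tp} {V : Wn} (hV : WnV P (cl3 j) O O' V) :
    ∀ᵐ g ∂μ, jw0 P (fA j.1) (fB j.1) (G0 j.1) g ≠ 0 →
      FgS P (fA j.1) (fB j.1) (G0 j.1) ((H j.1).rot P.u) (kS j.2) g →
      FgS P (fA j.1) (fB j.1) (G0 j.1) ((H j.1).rot P.u) (kE j.2) g →
      ∀ s : ℝ × ℝ, (resA (G0 j.1) (kS j.2) g, s) ∈ EP d d' O O' Y Y' V →
        rlA (G0 j.1) ((H j.1).rot P.u) (kS j.2) g ≤ s.1 → s.2 ≤ 1 - rlA (G0 j.1) ((H j.1).rot P.u) (kE j.2) g →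
        resA (G0 j.1) (kS j.2) g ∈ C (cl3 j) ∧
        t (cl3 j) (resA (G0 j.1) (kS j.2) g) = rlA (G0 j.1) ((H j.1).rot P.u) (kS j.2) g ∧
        t' (cl3 j) (resA (G0 j.1) (kS j.2) g) = 1 - rlA (G0 j.1) ((H j.1).rot P.u) (kE j.2) g := by
  filter_upwards [mkP_at M, hg] with g m1 m2 hw h1 h2 s hs r1 r2
  obtain ⟨p1, p2, p3⟩ := m2 hw
  obtain ⟨c1, c2⟩ := m1 hw
  have h0 := jw0_mem hw
  obtain ⟨f1, o⟩ := fj_win hP p1 h0 hV hs h1 h2 r1 r2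
  rw [rj_eq h0 p2] at c1 c2
  obtain ⟨c3, c4⟩ := c2 f1
  refine ⟨c1.2 f1, c3.trans ?_, c4.trans ?_⟩
  · show (cJ (fun k => jSF P (H k)) j g - aJ (fun k => jT (G0 k)) j g) /
      (aJ' (fun k => jT (G0 k)) j g - aJ (fun k => jT (G0 k)) j g) = _
    rw [aj_eq h0 p2, aj'_eq h0 p2, cj_eq h1.e p3]
    unfold rlA
    rw [oppA_kS]
  · show (cJ' (fun k => jSF P (H k)) j g - aJ (fun k => jT (G0 k)) j g) /
      (aJ' (fun k => jT (G0 k)) j g - aJ (fun k => jT (G0 k)) j g) = _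
    rw [aj_eq h0 p2, aj'_eq h0 p2, cj'_eq h2.e p3, ← oppA_kS, rlA_opp (by rw [oppA_kS]; exact o)]

end

/-! ### 2. `hloc` at a place -/

/-- **the outer blocks of one end**: `S` = blocks of marked curves with `SaE`, locality of their functional gates on
the arm `k` of the
curves `X` -/
structure SaH (P : Prm) (i j : Fin 3) (G0 GR : Ga) (k : Arm) (R0 : ℝ) (X : Set CC.Gm) (S : Set Pie) : Prop where
  ex : ∃ (Gd : Set CC.Gm) (mn : Prop) (B0 B1 : Set CC.Gm) (x0 c1 x1 : CC.Gm → ℝ) (E : Set XM), (clA i j k = 0 → mn) ∧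
    (∀ y ∈ E, 0 < y.1.1 ∧ SaE Gd (dirA i j k) P.u (endA P k) mn R0 B0 B1 x0 c1 x1 y) ∧ GaY G0 GR k R0 c1 x1 E X ∧ S
    ⊆ blX '' E

/-- the numbers of the outer gates -/
structure NmO (R0 : ℝ) (O O' : Ot) (Y Y' : Tp) (V : Wn) : Prop where
  m : R0 ≤ O.m
  m' : R0 ≤ O'.m
  r : R0 + O.r ≤ Y.rg
  r' : R0 + O'.r ≤ Y'.rg
  d : R0 + (O.r + 2 * O'.r) ≤ V.D0
  d' : R0 + (2 * O.r + O'.r) ≤ V.D0

/-- **`hloc` at the place `j`** : `T` = rests with companions (`ac`), `X` = full set of the pair curves -/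
theorem hloc_pl {P : Prm} {G0 H : Fin 3 → Ga} {j : J3} {μ : Measure CC.Gm} {C : Fin 3 → Set Pie} {t t' : Fin 3 → Pie
    → ℝ}
    (hP : P.Ok) (M : MkP P G0 H μ C t t' j.1)
    (hg : ∀ᵐ g ∂μ, jw0 P (fA j.1) (fB j.1) (G0 j.1) g ≠ 0 → 0 < g.1 ∧ (G0 j.1).Un g ∧ ((H j.1).rot P.u).Un g)
    (mw : Measurable (jw0 P (fA j.1) (fB j.1) (G0 j.1))) (mT : ∀ k, Measurable (jT (G0 k)))
    [IsFiniteMeasure (μ.withDensity (jw0 P (fA j.1) (fB j.1) (G0 j.1)))] {R0 : ℝ} (hR : 2 * P.p.s.bn ≤ R0)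
    (hR' : 2 * P.q.s.bn ≤ R0) {X : Set CC.Gm} (hX : ∀ᵐ g ∂μ, jw0 P (fA j.1) (fB j.1) (G0 j.1) g ≠ 0 → g ∈ X)
    (hX1 : ∀ g ∈ X, PaX P (fA j.1) (fB j.1) (G0 j.1) (kS j.2) g) (hX2 : ∀ g ∈ X, PaX P (fA j.1) (fB j.1) (G0 j.1)
    (kE j.2) g)
    {S S' : Set Pie} (hS : SaH P (fA j.1) (fB j.1) (G0 j.1) ((H j.1).rot P.u) (kS j.2) R0 X S)
    (hS' : SaH P (fA j.1) (fB j.1) (G0 j.1) ((H j.1).rot P.u) (kE j.2) R0 X S')
    {d d' : ℂ} {O O' : Ot} {Y Y' : Tp} {V : Wn} (hd : ‖d‖ = 1) (hd' : ‖d'‖ = 1) (hN : NmO R0 O O' Y Y' V)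
    (hV : WnV P (cl3 j) O O' V) {β : Measure Pie} {T : Set Pie}
    (ac : β.restrict T ≪ (μ.withDensity (jw0 P (fA j.1) (fB j.1) (G0 j.1))).map (rJ (fun k => jT (G0 k)) j))
    (hT : MeasurableSet T) {bh : Measure (Pie × (ℝ × ℝ))} (h1 : bh.map Prod.fst ≤ β) (h2 : ∀ᵐ x ∂bh, x ∈ EP d d' O
    O' Y Y' V)
    (h3 : ∀ᵐ x ∂bh, x.1 ∈ T) :
    ∀ᵐ x ∂bh, pcut x.1 0 x.2.1 ∈ S → pcut x.1 1 x.2.2 ∈ S' → x.1 ∈ C (cl3 j) ∧ t (cl3 j) x.1 ≤ x.2.1 ∧ x.2.2 ≤ t'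
    (cl3 j) x.1 := by
  obtain ⟨Gd, mn, B0, B1, x0, c1, x1, E, m1, m2, m3, m4⟩ := hS
  obtain ⟨Gd', mn', B0', B1', x0', c1', x1', E', n1, n2, n3, n4⟩ := hS'
  have ne1 : (endA P (kS j.2)).Ok ‖P.u - 1‖ := endA_okH hP _
  have ne2 : (endA P (kE j.2)).Ok ‖P.u - 1‖ := endA_okH hP _
  have bn1 : ∀ e : Bool, 2 * (endA P (kS e)).s.bn ≤ R0 ∧ 2 * (endA P (kE e)).s.bn ≤ R0 := by
    intro e
    cases e
    · exact ⟨hR, hR'⟩
    · exact ⟨hR, hR'⟩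
  have nu : ∀ k : Arm, ‖P.u * dirA (fA j.1) (fB j.1) k‖ = 1 := fun k => by rw [norm_mul, hP.u, dirA_nmH, one_mul]
  have q1 := hS_ae (P := P) (i := fA j.1) (j := fB j.1) (G0 := G0 j.1) (GR := (H j.1).rot P.u) (k := kS j.2) hX ne1
      (nu _)
    (bn1 _).1 m1 m2 m3 hX1 m4 (O := O) (O' := O') (Y := Y) (Y' := Y') (V := V) (d' := d') hd hN.m hN.r hN.d
  have q2 := hS_opp_ae (P := P) (i := fA j.1) (j := fB j.1) (G0 := G0 j.1) (GR := (H j.1).rot P.u) (k := kS j.2) hX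
    (by rw [oppA_kS]; exact ne2) (nu _) (by rw [oppA_kS]; exact (bn1 _).2) (by rw [oppA_kS]; exact n1)
    (by rw [oppA_kS]; exact n2) (by rw [oppA_kS]; exact n3) (by rw [oppA_kS]; exact hX2) n4 (O := O) (O' := O') (Y
    := Y)
    (Y' := Y') (V := V) (d := d) hd' hN.m' hN.r' hN.d'
  rw [oppA_kS] at q2
  refine hloc mw (rJ_meas mT j) ac hT h1 h2 h3
    (Fp := {g | FgS P (fA j.1) (fB j.1) (G0 j.1) ((H j.1).rot P.u) (kS j.2) g})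
    (Fq := {g | FgS P (fA j.1) (fB j.1) (G0 j.1) ((H j.1).rot P.u) (kE j.2) g})
    (tp := rlA (G0 j.1) ((H j.1).rot P.u) (kS j.2)) (tq := fun g => 1 - rlA (G0 j.1) ((H j.1).rot P.u) (kE j.2) g)
    ?_ ?_ ?_
  · filter_upwards [clq_of hP M hg (d := d) (d' := d') (Y := Y) (Y' := Y') hV, hg] with g r1 r2 hw r3 r4 s r5 r6 r7
    obtain ⟨-, p2, -⟩ := r2 hw
    rw [rj_eq (jw0_mem hw) p2] at r5 ⊢
    exact r1 hw r3 r4 s r5 r6 r7
  · filter_upwards [q1, hg] with g r1 r2 hw s r5 r6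
    obtain ⟨-, p2, -⟩ := r2 hw
    rw [rj_eq (jw0_mem hw) p2] at r5 r6
    exact r1 hw s r5 r6
  · filter_upwards [q2, hg] with g r1 r2 hw s r5 r6
    obtain ⟨-, p2, -⟩ := r2 hw
    rw [rj_eq (jw0_mem hw) p2] at r5 r6
    exact r1 hw s r5 r6

/-! ### 3. The curves of the native class -/

section

variable {P : Prm} {i j : Fin 3} {G0 : Ga} {g : CC.Gm}

private lemma wd_pos (hP : P.Ok) (a : Fin 3) : 0 < (P.wd (wnA P a)).D0 := by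
  have n1 := wnA_ok hP a
  obtain ⟨-, -, -, a4, a5, a6, a7⟩ := end_nm hP.p
  obtain ⟨-, -, -, b4, b5, b6, b7⟩ := end_nm hP.q
  have a8 := hP.p.bn
  have b8 := hP.q.bn
  show 0 < (wnA P a).D0 - (P.p.k + P.q.k)
  linarith

private lemma ne_far {W : Wn} {f : C(I, ℂ)} {L : ℝ} {a b : I} (hW : 0 < W.D0) (h : wiF W f L a b ≤ 0) : a ≠ b := by
  rintro rfl
  have h1 := wiF_farH h
  rw [sub_self, norm_zero] at h1
  linarith

/-- **the curves of the native class**: `PaX` for all arms -/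
theorem paX_of (hP : P.Ok) (hL : 0 < g.1) (h : CEv (jD0 P i j) g.2.2 g.1 (pji (muG g)) (G0.i8 g)) (k : Arm) : PaX P
    i j G0 k g := by
  have eA : rsF (ev i) (ev (-i)) P.p.n P.q.n (P.wd (wnA P i)) g.2.2 g.1 (G0.ix .fp g) (G0.ix .bq g) ≤ 0 := h.A
  have eB : rsF (ev j) (ev (-j)) P.p.n P.q.n (P.wd (wnA P j)) g.2.2 g.1 (G0.ix .bp g) (G0.ix .fq g) ≤ 0 := h.B
  have nA := ne_far (wd_pos hP i) (rsF_wi.1 eA).2.2
  have nB := ne_far (wd_pos hP j) (rsF_wi.1 eB).2.2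
  have oA : G0.ix .fp g ≤ G0.ix .bq g := h.o2
  have oB : G0.ix .fq g ≤ G0.ix .bp g := h.o7
  cases k
  · exact ⟨hL, lt_of_le_of_ne oA nA, h.rA⟩
  · exact ⟨hL, lt_of_le_of_ne oA nA, h.rA'⟩
  · exact ⟨hL, lt_of_le_of_ne oB nB.symm, h.rB'⟩
  · exact ⟨hL, lt_of_le_of_ne oB nB.symm, h.rB⟩

end

end Pool.Agent.ROT.F3.CK
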