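import Pool.Agent.ROT.F3HLocA
import Pool.Agent.ROT.F3CoreC

/-!
# ROT, F3 (helper97; D40): the foreign gates of rests with outer marks

* **`hloc`** : a rest with outer marks whose outer blocks are in `S`, `S'` has the foreign gates inside of these blocks.
-/

set_option autoImplicit false

namespace Pool.Agent.ROT.F3

open MeasureTheory Filter Topology Set
open scoped ENNReal

open Pool.Agent.ROT.F3.CC (Pie pcut)

/-- **the foreign gates of rests with outer marks.** `S`, `S'` : outer blocks with the foreign gates; `hS`, `hS'` : locality of the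
foreign gates with the stop at the outer gate; `T` : rests with companions; `EP` : closed conditions of the marked rests -/
theorem hloc {Y : Type*} [MeasurableSpace Y] [StandardBorelSpace Y] {Q : Measure Y} {w : Y → ℝ≥0∞}
    [IsFiniteMeasure (Q.withDensity w)] (hw : Measurable w) {r : Y → Pie} (hr : Measurable r) {β : Measure Pie} {T : Set Pie}
    (ac : β.restrict T ≪ (Q.withDensity w).map r) (hT : MeasurableSet T) {bh : Measure (Pie × (ℝ × ℝ))}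
    (h1 : bh.map Prod.fst ≤ β) {EP : Set (Pie × (ℝ × ℝ))} (h2 : ∀ᵐ x ∂bh, x ∈ EP) (h3 : ∀ᵐ x ∂bh, x.1 ∈ T)
    {Fp Fq : Set Y} {tp tq : Y → ℝ} {C : Set Pie} {t t' : Pie → ℝ} {S S' : Set Pie}
    (cl : ∀ᵐ g ∂Q, w g ≠ 0 → g ∈ Fp → g ∈ Fq → ∀ s : ℝ × ℝ, (r g, s) ∈ EP → tp g ≤ s.1 → s.2 ≤ tq g →
      r g ∈ C ∧ t (r g) = tp g ∧ t' (r g) = tq g)
    (hS : ∀ᵐ g ∂Q, w g ≠ 0 → ∀ s : ℝ × ℝ, (r g, s) ∈ EP → pcut (r g) 0 s.1 ∈ S → g ∈ Fp ∧ tp g ≤ s.1)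
    (hS' : ∀ᵐ g ∂Q, w g ≠ 0 → ∀ s : ℝ × ℝ, (r g, s) ∈ EP → pcut (r g) 1 s.2 ∈ S' → g ∈ Fq ∧ s.2 ≤ tq g) :
    ∀ᵐ x ∂bh, pcut x.1 0 x.2.1 ∈ S → pcut x.1 1 x.2.2 ∈ S' → x.1 ∈ C ∧ t x.1 ≤ x.2.1 ∧ x.2.2 ≤ t' x.1 := by
  refine wit_all hw hr ac hT h1 h2 h3
    (Ψ := fun x => pcut x.1 0 x.2.1 ∈ S → pcut x.1 1 x.2.2 ∈ S' → x.1 ∈ C ∧ t x.1 ≤ x.2.1 ∧ x.2.2 ≤ t' x.1) ?_
  filter_upwards [cl, hS, hS'] with g k1 k2 k3 k4 s k5 k6 k7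
  obtain ⟨a1, a2⟩ := k2 k4 s k5 k6
  obtain ⟨a3, a4⟩ := k3 k4 s k5 k7
  obtain ⟨a5, a6, a7⟩ := k1 k4 a1 a3 s k5 a2 a4
  exact ⟨a5, a6.trans_le a2, a4.trans_eq a7.symm⟩

end Pool.Agent.ROT.F3
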