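import Pool.Agent.ROT.F3HGeo2
import Pool.Agent.ROT.F3HLoc

/-!
# ROT, F3 (helper97; D40): marked rests with outer gates

* `EpC`, **`EP`** : marked rests (block, rest between the outer gates, block), closed (`ep_closed`);
* **`EpC.far_p`, `EpC.far_q`** : behind the outer gate the rest is outside of the ball `R0`; `EpC.hg` : `HG`;
* `EpC.win` : windows of the rest.
-/

set_option autoImplicit false

namespace Pool.Agent.ROT.F3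

open Set Topology ComplexConjugate
open Pool.Agent.ROT.F3.CC (Pie ex ex_of ex_coe ex_zero ex_one cutp cutp_apply cutp_zero cutp_one pcut pcut_cont')

/-- **marked rests with outer gates**: relative times `s ≤ s'` of the gates `y`, `y'` -/
structure EpC (d d' : ℂ) (O O' : Ot) (Y Y' : Tp) (V : Wn) (x : Pie × (ℝ × ℝ)) : Prop where
  s0 : 0 ≤ x.2.1
  s1 : x.2.1 ≤ x.2.2
  s2 : x.2.2 ≤ 1
  z : x.1.1 0 = 0
  bp : OtV d O (pcut x.1 0 x.2.1)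
  bq : OtV d' O' (pcut x.1 1 x.2.2)
  m : (pcut x.1 x.2.1 x.2.2).1 ∈ ClR d d' Y Y' V
  t0 : V.t0 ≤ (pcut x.1 x.2.1 x.2.2).2
  t1 : (pcut x.1 x.2.1 x.2.2).2 ≤ V.t1

/-- the set -/
def EP (d d' : ℂ) (O O' : Ot) (Y Y' : Tp) (V : Wn) : Set (Pie × (ℝ × ℝ)) := {x | EpC d d' O O' Y Y' V x}

theorem ep_closed (d d' : ℂ) (O O' : Ot) (Y Y' : Tp) (V : Wn) : IsClosed (EP d d' O O' Y Y' V) := by
  have c1 : Continuous fun x : Pie × (ℝ × ℝ) => x.2.1 := by fun_prop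
  have c2 : Continuous fun x : Pie × (ℝ × ℝ) => x.2.2 := by fun_prop
  have k1 : Continuous fun x : Pie × (ℝ × ℝ) => pcut x.1 0 x.2.1 := pcut_cont' continuous_fst continuous_const c1
  have k2 : Continuous fun x : Pie × (ℝ × ℝ) => pcut x.1 1 x.2.2 := pcut_cont' continuous_fst continuous_const c2
  have k3 : Continuous fun x : Pie × (ℝ × ℝ) => pcut x.1 x.2.1 x.2.2 := pcut_cont' continuous_fst c1 c2
  have e : EP d d' O O' Y Y' V = {x | 0 ≤ x.2.1} ∩ {x | x.2.1 ≤ x.2.2} ∩ {x | x.2.2 ≤ 1} ∩ {x | x.1.1 0 = 0} ∩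
      {x | pcut x.1 0 x.2.1 ∈ {k | OtV d O k}} ∩ {x | pcut x.1 1 x.2.2 ∈ {k | OtV d' O' k}} ∩
      {x | (pcut x.1 x.2.1 x.2.2).1 ∈ ClR d d' Y Y' V} ∩ {x | V.t0 ≤ (pcut x.1 x.2.1 x.2.2).2} ∩
      {x | (pcut x.1 x.2.1 x.2.2).2 ≤ V.t1} := by
    ext x
    simp only [mem_inter_iff, mem_ofPred_eq]
    constructor
    · intro h
      exact ⟨⟨⟨⟨⟨⟨⟨⟨h.s0, h.s1⟩, h.s2⟩, h.z⟩, h.bp⟩, h.bq⟩, h.m⟩, h.t0⟩, h.t1⟩
    · rintro ⟨⟨⟨⟨⟨⟨⟨⟨h1, h2⟩, h3⟩, h4⟩, h5⟩, h6⟩, h7⟩, h8⟩, h9⟩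
      exact ⟨h1, h2, h3, h4, h5, h6, h7, h8, h9⟩
  rw [e]
  refine (((((((IsClosed.inter ?_ ?_).inter ?_).inter ?_).inter ?_).inter ?_).inter ?_).inter ?_).inter ?_
  · exact isClosed_le continuous_const c1
  · exact isClosed_le c1 c2
  · exact isClosed_le c2 continuous_const
  · exact isClosed_eq ((continuous_eval_const (0 : unitInterval)).comp (by fun_prop)) continuous_const
  · exact (otv_closed d O).preimage k1
  · exact (otv_closed d' O').preimage k2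
  · exact (clR_closed d d' Y Y' V).preimage (continuous_fst.comp k3)
  · exact isClosed_le continuous_const (continuous_snd.comp k3)
  · exact isClosed_le (continuous_snd.comp k3) continuous_const

section

variable {d d' : ℂ} {O O' : Ot} {Y Y' : Tp} {V : Wn} {x : Pie × (ℝ × ℝ)}

/-- the first block -/
lemma EpC.blk_p (h : EpC d d' O O' Y Y' V x) {t : unitInterval} (ht : (t : ℝ) ≤ x.2.1) :
    ‖x.1.1 t‖ ≤ O.r ∧ Kn d O.c O.κ (x.1.1 t) := by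
  obtain ⟨u, hu⟩ := cut_pt (g := x.1.1) (s := 0) (s' := x.2.1) (t := t) (by rw [uIcc_of_le h.s0]; exact ⟨t.2.1, ht⟩)
  rw [ex_coe, ex_zero, h.z, sub_zero] at hu
  have e : x.1.1 t = (pcut x.1 0 x.2.1).1 u := by
    rw [← hu]
    rfl
  rw [e]
  exact ⟨h.bp.b u, h.bp.s u⟩

/-- the last block -/
lemma EpC.blk_q (h : EpC d d' O O' Y Y' V x) {t : unitInterval} (ht : x.2.2 ≤ (t : ℝ)) :
    ‖x.1.1 t - x.1.1 1‖ ≤ O'.r ∧ Kn d' O'.c O'.κ (x.1.1 t - x.1.1 1) := by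
  obtain ⟨u, hu⟩ := cut_pt (g := x.1.1) (s := 1) (s' := x.2.2) (t := t) (by rw [uIcc_of_ge h.s2]; exact ⟨ht, t.2.2⟩)
  rw [ex_coe, ex_one] at hu
  have e : x.1.1 t - x.1.1 1 = (pcut x.1 1 x.2.2).1 u := by
    rw [← hu]
    rfl
  rw [e]
  exact ⟨h.bq.b u, h.bq.s u⟩

/-- the place of the first outer gate -/
lemma EpC.at_p (h : EpC d d' O O' Y Y' V x) : ‖ex x.1.1 x.2.1‖ ≤ O.r ∧ O.m ≤ lv d (ex x.1.1 x.2.1) := by
  have hs : x.2.1 ∈ Icc (0 : ℝ) 1 := ⟨h.s0, h.s1.trans h.s2⟩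
  have e : (pcut x.1 0 x.2.1).1 1 = ex x.1.1 x.2.1 := by
    show cutp x.1.1 0 x.2.1 1 = _
    rw [cutp_one, ex_zero, h.z, sub_zero]
  have h1 := h.bp.b 1
  have h2 := h.bp.m
  rw [e] at h1 h2
  exact ⟨h1, h2⟩

/-- the place of the last outer gate -/
lemma EpC.at_q (h : EpC d d' O O' Y Y' V x) :
    ‖ex x.1.1 x.2.2 - x.1.1 1‖ ≤ O'.r ∧ O'.m ≤ lv d' (ex x.1.1 x.2.2 - x.1.1 1) := by
  have e : (pcut x.1 1 x.2.2).1 1 = ex x.1.1 x.2.2 - x.1.1 1 := by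
    show cutp x.1.1 1 x.2.2 1 = _
    rw [cutp_one, ex_one]
  have h1 := h.bq.b 1
  have h2 := h.bq.m
  rw [e] at h1 h2
  exact ⟨h1, h2⟩

/-- between the outer gates -/
lemma EpC.mid (h : EpC d d' O O' Y Y' V x) {t : unitInterval} (ht : x.2.1 ≤ (t : ℝ)) (ht' : (t : ℝ) ≤ x.2.2) :
    (0 ≤ lv d (x.1.1 t - ex x.1.1 x.2.1) ∨ Y.rg ≤ ‖x.1.1 t - ex x.1.1 x.2.1‖) ∧
      (0 ≤ lv d' (x.1.1 t - ex x.1.1 x.2.2) ∨ Y'.rg ≤ ‖x.1.1 t - ex x.1.1 x.2.2‖) := by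
  obtain ⟨u, hu⟩ := cut_pt (g := x.1.1) (s := x.2.1) (s' := x.2.2) (t := t) (by rw [uIcc_of_le h.s1]; exact ⟨ht, ht'⟩)
  rw [ex_coe] at hu
  obtain ⟨-, -, h3⟩ := h.m
  have e1 : x.1.1 t - ex x.1.1 x.2.1 = (pcut x.1 x.2.1 x.2.2).1 u := by
    rw [← hu]
    rfl
  have e2 : x.1.1 t - ex x.1.1 x.2.2 = (pcut x.1 x.2.1 x.2.2).1 u - (pcut x.1 x.2.1 x.2.2).1 1 := by
    have e3 : (pcut x.1 x.2.1 x.2.2).1 1 = ex x.1.1 x.2.2 - ex x.1.1 x.2.1 := by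
      show cutp x.1.1 x.2.1 x.2.2 1 = _
      rw [cutp_one]
    rw [← e1, e3]
    ring
  have h4 := (h3 u).1.1
  have h5 := (h3 u).2.1
  rw [← e1] at h4
  rw [← e2] at h5
  exact ⟨h4, h5⟩

/-- the displacement between the outer gates -/
lemma EpC.dis (h : EpC d d' O O' Y Y' V x) : V.D0 ≤ ‖ex x.1.1 x.2.2 - ex x.1.1 x.2.1‖ ∧
    ‖ex x.1.1 x.2.2 - ex x.1.1 x.2.1‖ ≤ V.D1 := by
  obtain ⟨-, h2, -⟩ := h.m
  have e3 : (pcut x.1 x.2.1 x.2.2).1 1 = ex x.1.1 x.2.2 - ex x.1.1 x.2.1 := by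
    show cutp x.1.1 x.2.1 x.2.2 1 = _
    rw [cutp_one]
  rw [e3] at h2
  exact h2

/-- the displacement of the rest -/
lemma EpC.end1 (h : EpC d d' O O' Y Y' V x) : V.D0 - (O.r + O'.r) ≤ ‖x.1.1 1‖ ∧ ‖x.1.1 1‖ ≤ V.D1 + (O.r + O'.r) := by
  obtain ⟨d1, d2⟩ := h.dis
  have e : ex x.1.1 x.2.2 - ex x.1.1 x.2.1 = x.1.1 1 + ((ex x.1.1 x.2.2 - x.1.1 1) - ex x.1.1 x.2.1) := by ring
  have e' : x.1.1 1 = (ex x.1.1 x.2.2 - ex x.1.1 x.2.1) - ((ex x.1.1 x.2.2 - x.1.1 1) - ex x.1.1 x.2.1) := by ring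
  have n1 := norm_sub_le (ex x.1.1 x.2.2 - x.1.1 1) (ex x.1.1 x.2.1)
  have n2 := h.at_p.1
  have n3 := h.at_q.1
  constructor
  · have := norm_add_le (x.1.1 1) ((ex x.1.1 x.2.2 - x.1.1 1) - ex x.1.1 x.2.1)
    rw [← e] at this
    linarith
  · have := norm_sub_le (ex x.1.1 x.2.2 - ex x.1.1 x.2.1) ((ex x.1.1 x.2.2 - x.1.1 1) - ex x.1.1 x.2.1)
    rw [← e'] at this
    linarith

lemma lv_le_nrm {d : ℂ} (hd : ‖d‖ = 1) (v : ℂ) : lv d v ≤ ‖v‖ := by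
  unfold lv
  refine (Complex.re_le_norm _).trans ?_
  rw [norm_mul, Complex.norm_conj, hd, one_mul]

/-- **behind the first outer gate the rest is outside of the ball `R0`** -/
theorem EpC.far_p (h : EpC d d' O O' Y Y' V x) (hd : ‖d‖ = 1) {R0 : ℝ} (r1 : R0 ≤ O.m) (r2 : R0 + O.r ≤ Y.rg)
    (r3 : R0 + (O.r + 2 * O'.r) ≤ V.D0) {t : unitInterval} (ht : x.2.1 ≤ (t : ℝ)) : R0 ≤ ‖x.1.1 t‖ := by
  obtain ⟨p1, p2⟩ := h.at_p
  rcases le_total (t : ℝ) x.2.2 with ht' | ht'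
  · rcases (h.mid ht ht').1 with h1 | h1
    · have h2 : lv d (x.1.1 t) = lv d (ex x.1.1 x.2.1) + lv d (x.1.1 t - ex x.1.1 x.2.1) := by
        unfold lv
        rw [← Complex.add_re, ← mul_add, add_sub_cancel]
      have h3 := lv_le_nrm hd (x.1.1 t)
      linarith
    · have h2 := norm_sub_le (x.1.1 t) (ex x.1.1 x.2.1)
      linarith
  · have h1 := (h.blk_q ht').1
    have h2 := h.end1.1
    have e : x.1.1 1 = x.1.1 t - (x.1.1 t - x.1.1 1) := by ring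
    have h3 := norm_sub_le (x.1.1 t) (x.1.1 t - x.1.1 1)
    rw [← e] at h3
    linarith

/-- **before the last outer gate the rest is outside of the ball `R0` about its end** -/
theorem EpC.far_q (h : EpC d d' O O' Y Y' V x) (hd' : ‖d'‖ = 1) {R0 : ℝ} (r1 : R0 ≤ O'.m) (r2 : R0 + O'.r ≤ Y'.rg)
    (r3 : R0 + (2 * O.r + O'.r) ≤ V.D0) {t : unitInterval} (ht : (t : ℝ) ≤ x.2.2) : R0 ≤ ‖x.1.1 t - x.1.1 1‖ := by
  obtain ⟨p1, p2⟩ := h.at_q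
  rcases le_total x.2.1 (t : ℝ) with ht' | ht'
  · rcases (h.mid ht' ht).2 with h1 | h1
    · have h2 : lv d' (x.1.1 t - x.1.1 1) = lv d' (ex x.1.1 x.2.2 - x.1.1 1) + lv d' (x.1.1 t - ex x.1.1 x.2.2) := by
        unfold lv
        rw [← Complex.add_re, ← mul_add]
        congr 2
        ring
      have h3 := lv_le_nrm hd' (x.1.1 t - x.1.1 1)
      linarith
    · have e : x.1.1 t - ex x.1.1 x.2.2 = (x.1.1 t - x.1.1 1) - (ex x.1.1 x.2.2 - x.1.1 1) := by ring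
      have h2 := norm_sub_le (x.1.1 t - x.1.1 1) (ex x.1.1 x.2.2 - x.1.1 1)
      rw [← e] at h2
      linarith
  · have h1 := (h.blk_p ht').1
    have h2 := h.end1.1
    have e : x.1.1 1 = x.1.1 t - (x.1.1 t - x.1.1 1) := by ring
    have h3 := norm_sub_le (x.1.1 t) (x.1.1 t - x.1.1 1)
    rw [← e] at h3
    linarith

/-- the durations -/
lemma EpC.dur (h : EpC d d' O O' Y Y' V x) (h0 : 0 ≤ x.1.2) : V.t0 ≤ x.1.2 ∧ x.1.2 ≤ V.t1 + (O.lb + O'.lb) := by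
  have h1 : (pcut x.1 x.2.1 x.2.2).2 = x.1.2 * (x.2.2 - x.2.1) := by
    show x.1.2 * |x.2.2 - x.2.1| = _
    rw [abs_of_nonneg (by linarith [h.s1])]
  have h2 : (pcut x.1 0 x.2.1).2 = x.1.2 * x.2.1 := by
    show x.1.2 * |x.2.1 - 0| = _
    rw [sub_zero, abs_of_nonneg h.s0]
  have h3 : (pcut x.1 1 x.2.2).2 = x.1.2 * (1 - x.2.2) := by
    show x.1.2 * |x.2.2 - 1| = _
    rw [abs_of_nonpos (by linarith [h.s2])]
    ring
  have b1 := h.bp.lb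
  have b2 := h.bq.lb
  have b3 := h.t0
  have b4 := h.t1
  rw [h2] at b1
  rw [h3] at b2
  rw [h1] at b3 b4
  have e : x.1.2 = x.1.2 * (x.2.2 - x.2.1) + (x.1.2 * x.2.1 + x.1.2 * (1 - x.2.2)) := by ring
  have p1 : 0 ≤ x.1.2 * x.2.1 := mul_nonneg h0 h.s0
  have p2 : 0 ≤ x.1.2 * (1 - x.2.2) := mul_nonneg h0 (by linarith [h.s2])
  constructor <;> linarith

end

/-- **class 0: the conditions of the companions** -/
theorem EpC.hg {d : ℂ} {O O' : Ot} {Y Y' : Tp} {V : Wn} {x : Pie × (ℝ × ℝ)} (h : EpC d d O O' Y Y' V x) (hd : ‖d‖ = 1)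
    {bn bn' : ℝ} (c1 : 3 / 5 ≤ O.c) (c1' : 3 / 5 ≤ O'.c) (b1 : bn ≤ O.m) (b1' : bn' ≤ O'.m) (b2 : bn + O.r ≤ Y.rg)
    (b2' : bn' + O'.r ≤ Y'.rg) (b3 : bn + (O.r + 2 * O'.r) ≤ V.D0) (b3' : bn' + (2 * O.r + O'.r) ≤ V.D0) :
    x.1.1 ∈ HG d O.κ O.r bn O'.κ O'.r bn' :=
  hg_Y hd h.s0 h.s1 h.s2 h.z h.bp h.bq h.m c1 c1' b1 b1' b2 b2' b3 b3'

end Pool.Agent.ROT.F3
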