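import Pool.Agent.ROT.F3JLoc
import Pool.Agent.ROT.F3SAE
import Pool.Agent.ROT.F3HLocE

/-!
# ROT, F3 (helper97; D40): rests whose outer block is in `S` have the foreign gates (`hS`, `hS'` of `hloc`)

`S ⊆ blX '' E`, `E` = marked curves with `SaE` (helper86); `GaY` = existence and times of the functional gates of two
strands with a common piece (helper28, `loc_strand`).
* `rsY y` : the rest of the marked curve; `SaE.fgR` : its conditions (`FgR` of helper51);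
* **`sa_loc`** : one pair strand; **`hS_of`**, **`hS_opp`** : the end of the reading direction, the other end, in
  the form of
  `hloc`.
-/

set_option autoImplicit false

noncomputable section

namespace Pool.Agent.ROT.F3.CK

open MeasureTheory Set unitInterval Filter Topology

open scoped ENNReal

open Pool.Agent.ROT.F3 Pool.Agent.ROT.F3.LF
open Pool.Agent.ROT.F3.CC (Pie ex ex_of ex_coe ex_zero ex_one cutp cutp_apply cutp_zero cutp_one cutp_cutp pcut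
    pcut_pcut
  mid_mem cl)
open Pool.Agent.ROT.F3.C0K (XM blX)

/-! ### 1. The rest of a marked curve -/

/-- the rest of the marked curve: native gate `x` .. second root -/
def rsY (y : XM) : Pie := pcut (cl y.1) (pji y.2.1) (pji (muG y.1))

/-- the relative time in this rest -/
def rlY (y : XM) (t : ℝ) : ℝ := ((pji t : I) - (pji y.2.1 : I) : ℝ) / ((pji (muG y.1) : I) - (pji y.2.1 : I) : ℝ)

private lemma muGm (g : CC.Gm) : muG g ∈ Icc (0 : ℝ) 1 := ⟨le_max_left _ _, max_le zero_le_one (min_le_left _ _)⟩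

private lemma pjc {t : ℝ} (h : t ∈ Icc (0 : ℝ) 1) : ((pji t : I) : ℝ) = t := by
  unfold pji
  rw [projIcc_of_mem _ h]

section say

variable {Gd : Set CC.Gm} {d u : ℂ} {E : En} {mn : Prop} {R0 : ℝ} {B0 B1 : Set CC.Gm} {x0 c1 x1 : CC.Gm → ℝ} {y : XM}

/-- the times of a marked curve -/
lemma _root_.Pool.Agent.ROT.F3.SaE.tms (h : SaE Gd d u E mn R0 B0 B1 x0 c1 x1 y) : ((pji y.2.1 : I) : ℝ) = y.2.1 ∧
    ((pji (c1 y.1) : I) : ℝ) = c1 y.1 ∧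
    ((pji (x1 y.1) : I) : ℝ) = x1 y.1 ∧ ((pji y.2.2 : I) : ℝ) = y.2.2 ∧ ((pji (muG y.1) : I) : ℝ) = muG y.1 := by
  obtain ⟨-, m1⟩ := muGm y.1
  have h0 := h.t0
  have h1 := h.o1
  have h2 := h.o2
  have h3 := h.o3
  have h4 := h.t1
  exact ⟨pjc ⟨by linarith, by linarith⟩, pjc ⟨by linarith, by linarith⟩, pjc ⟨by linarith, by linarith⟩,
    pjc ⟨by linarith, by linarith⟩, pjc (muGm _)⟩

/-- the rest is not a point -/
lemma _root_.Pool.Agent.ROT.F3.SaE.pos (h : SaE Gd d u E mn R0 B0 B1 x0 c1 x1 y) (hR : 0 < R0) : y.2.1 < y.2.2 := by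
  by_contra hc
  rw [not_lt] at hc
  obtain ⟨e1, -, -, -, -⟩ := h.tms
  have h1 := h.t1
  have h2 := h.o1
  have h3 := h.o2
  have h4 := h.o3
  have h5 := h.far (pji y.2.1) (by rw [e1]; exact hc) (by rw [e1]; linarith)
  rw [sub_self, norm_zero] at h5
  linarith

/-- the block as a piece of the rest -/
lemma _root_.Pool.Agent.ROT.F3.SaE.blk (h : SaE Gd d u E mn R0 B0 B1 x0 c1 x1 y) (hR : 0 < R0) :
    rlY y y.2.2 ∈ Icc (0 : ℝ) 1 ∧ blX y = pcut (rsY y) 0 (rlY y y.2.2) := by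
  obtain ⟨e1, -, -, e4, e5⟩ := h.tms
  have p := h.pos hR
  have h1 := h.t1
  have hm : 0 < muG y.1 - y.2.1 := by linarith
  have hr : rlY y y.2.2 = (y.2.2 - y.2.1) / (muG y.1 - y.2.1) := by
    unfold rlY
    rw [e1, e4, e5]
  have hmem : rlY y y.2.2 ∈ Icc (0 : ℝ) 1 := by
    rw [hr]
    exact ⟨div_nonneg (by linarith) hm.le, (div_le_one hm).2 (by linarith)⟩
  refine ⟨hmem, ?_⟩
  unfold rsY
  rw [pcut_pcut ⟨le_rfl, zero_le_one⟩ hmem, e1, e5, hr, zero_mul, add_zero, div_mul_cancel₀ _ hm.ne']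
  show pcut (cl y.1) y.2.1 y.2.2 = _
  congr 1
  ring

/-- behind the block the rest is outside of the ball `R0` -/
lemma _root_.Pool.Agent.ROT.F3.SaE.far1 (h : SaE Gd d u E mn R0 B0 B1 x0 c1 x1 y) (hR : 0 < R0) {t : I} (ht : rlY y
    y.2.2 ≤ t) :
    R0 ≤ ‖(rsY y).1 t‖ := by
  obtain ⟨e1, -, -, e4, e5⟩ := h.tms
  have p := h.pos hR
  have h1 := h.t1
  have hm : 0 < muG y.1 - y.2.1 := by linarith
  have hr : rlY y y.2.2 = (y.2.2 - y.2.1) / (muG y.1 - y.2.1) := by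
    unfold rlY
    rw [e1, e4, e5]
  have m : y.2.1 + t * (muG y.1 - y.2.1) ∈ Icc (0 : ℝ) 1 :=
    mid_mem (by rw [← e1]; exact (pji y.2.1).2) (muGm _) t.2
  have e : (rsY y).1 t = y.1.2.2 ⟨_, m⟩ - y.1.2.2 (pji y.2.1) := by
    show cutp y.1.2.2 (pji y.2.1) (pji (muG y.1)) t = _
    rw [cutp_apply, ex_coe, e5, e1]
    congr 1
    exact ex_of _ m
  rw [e]
  refine h.far ⟨_, m⟩ ?_ ?_
  · show y.2.2 ≤ y.2.1 + t * (muG y.1 - y.2.1)
    rw [hr, div_le_iff₀ hm] at ht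
    linarith
  · show y.2.1 + t * (muG y.1 - y.2.1) ≤ muG y.1
    have := mul_le_mul_of_nonneg_right t.2.2 hm.le
    linarith

/-- **the conditions of the marked curve on its rest**, given that the piece `x` .. `x~` is right of `x` -/
lemma _root_.Pool.Agent.ROT.F3.SaE.fgR (h : SaE Gd d u E mn R0 B0 B1 x0 c1 x1 y) (hR : 0 < R0) {mn' : Prop} (hm :
    mn' → mn)
    (ri : riK d y.1.2.2 (pji y.2.1) (pji (x1 y.1)) ≤ 0) :
    FgR d (u * d) E mn' (rsY y) (rlY y (c1 y.1)) (rlY y (x1 y.1)) := by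
  obtain ⟨e1, e2, e3, e4, e5⟩ := h.tms
  have p := h.pos hR
  have h1 := h.t1
  have h2 := h.o1
  have h3 := h.o2
  have h4 := h.o3
  have hlt : ltA .fp (pji y.2.1) (pji (muG y.1)) := by
    show pji y.2.1 < pji (muG y.1)
    rw [← Subtype.coe_lt_coe, e1, e5]
    linarith
  refine (fg_iff (k := .fp) (L := y.1.1) hlt).1 ⟨?_, ?_, ?_, ri, h.fp.k, h.fp.re, h.fp.ra, fun x => h.fp.nr (hm x)⟩
  · show pji y.2.1 ≤ pji (c1 y.1)
    rw [← Subtype.coe_le_coe, e1, e2]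
    exact h2
  · show pji (c1 y.1) ≤ pji (x1 y.1)
    rw [← Subtype.coe_le_coe, e2, e3]
    exact h3
  · show pji (x1 y.1) ≤ pji (muG y.1)
    rw [← Subtype.coe_le_coe, e3, e5]
    linarith

/-- **the piece `x` .. `x~` is right of `x`**: in the ball `n.rg` by the strand of the pair, outside of it by the
cone -/
lemma _root_.Pool.Agent.ROT.F3.SaE.ri {ρ' : Pie} {e e' : I} {ε : ℝ} (h : SaE Gd d u E mn R0 B0 B1 x0 c1 x1 y) (hR :
    0 < R0) (hE : E.Ok ε)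
    (C : CmP R0 (rsY y).1 ρ'.1 e e') (he : rlY y y.2.2 = e) (re : ∀ s : I, min (-lv d (ρ'.1 s)) (E.n.rg - ‖ρ'.1 s‖)
    ≤ 0) :
    riK d y.1.2.2 (pji y.2.1) (pji (x1 y.1)) ≤ 0 := by
  obtain ⟨e1, e2, e3, e4, e5⟩ := h.tms
  have p := h.pos hR
  have h1 := h.t1
  have h2 := h.o1
  have h3 := h.o2
  have h4 := h.o3
  have hm : 0 < muG y.1 - y.2.1 := by linarith
  have hr : rlY y y.2.2 = (y.2.2 - y.2.1) / (muG y.1 - y.2.1) := by
    unfold rlY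
    rw [e1, e4, e5]
  have hk := h.fp.k
  unfold kcF at hk
  simp only [max_le_iff, sub_nonpos] at hk
  obtain ⟨⟨-, k3, -⟩, -, -⟩ := hk
  have hle : ((pji y.2.1 : I) : ℝ) ≤ (pji (x1 y.1) : I) := by
    rw [e1, e3]
    linarith
  have fco : Continuous (fCo d E.n.c) := by
    unfold fCo lv
    fun_prop
  have flv : Continuous fun v : ℂ => -lv d v := by
    unfold lv
    fun_prop
  rw [cutc_eq, stS_cutp fco hle] at k3
  unfold riK
  rw [cutc_eq, stS_cutp flv hle]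
  intro w hw hw'
  have k4 := k3 w hw hw'
  rw [e1] at hw k4 ⊢
  rw [e3] at hw'
  -- the point in the rest
  obtain ⟨v, hv⟩ : ∃ v, v = (w - y.2.1) / (muG y.1 - y.2.1) := ⟨_, rfl⟩
  have v0 : 0 ≤ v := by rw [hv]; exact div_nonneg (by linarith) hm.le
  have v1 : v ≤ e := by
    rw [hv, ← he, hr]
    exact div_le_div_of_nonneg_right (by linarith) hm.le
  have v2 : v ∈ Icc (0 : ℝ) 1 := ⟨v0, v1.trans e.2.2⟩
  have ev : ex (rsY y).1 v = ex y.1.2.2 w - ex y.1.2.2 y.2.1 := by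
    show ex (cutp y.1.2.2 (pji y.2.1) (pji (muG y.1))) v = _
    rw [CC.ex_cutp v2, e1, e5, hv, div_mul_cancel₀ _ hm.ne']
    congr 2
    ring
  have hx := C.eq (v / e) (div_nonneg v0 C.e0.le) ((div_le_one C.e0).2 v1)
  rw [div_mul_cancel₀ _ C.e0.ne', ev] at hx
  have hmem : v / e * e' ∈ Icc (0 : ℝ) 1 :=
    ⟨mul_nonneg (div_nonneg v0 C.e0.le) C.e0'.le, by
      calc v / e * (e' : ℝ) ≤ 1 * 1 := mul_le_mul ((div_le_one C.e0).2 v1) C.e1' C.e0'.le zero_le_one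
        _ = 1 := one_mul 1⟩
  rw [ex_of _ hmem] at hx
  have hre := re ⟨_, hmem⟩
  rw [hx] at hre
  rcases min_le_iff.1 hre with h5 | h5
  · exact h5
  · have k5 : E.n.c * ‖ex y.1.2.2 w - ex y.1.2.2 y.2.1‖ - lv d (ex y.1.2.2 w - ex y.1.2.2 y.2.1) ≤ E.κk := k4
    have n1 := hE.n.g64
    have n2 := hE.n.r2
    have n3 := hE.nlr
    have n4 := hE.n.e
    have n5 := hE.n.e1
    have n6 := hE.n.κ1
    have n7 := hE.κk
    have n8 := hE.n.cs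
    have n9 := hE.n.c
    have n10 := hE.n.l
    have n11 : (1 - E.n.cs) * E.n.l ≤ 1 / 2 * E.n.l := mul_le_mul_of_nonneg_right (by linarith) n10.le
    have n12 : 1 / 2 * ‖ex y.1.2.2 w - ex y.1.2.2 y.2.1‖ ≤ E.n.c * ‖ex y.1.2.2 w - ex y.1.2.2 y.2.1‖ :=
      mul_le_mul_of_nonneg_right (by linarith) (norm_nonneg _)
    linarith

end say

/-! ### 2. The pair strand -/

/-- **existence and times of the functional gates**: marked curves `y ∈ E` (arm `fp`), arm `k` of the curves `g ∈ X`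
-/
def GaY (G0 GR : Ga) (k : Arm) (R0 : ℝ) (c1 x1 : CC.Gm → ℝ) (E : Set XM) (X : Set CC.Gm) : Prop :=
  ∀ y ∈ E, ∀ g ∈ X, ∀ e' : I, blX y = pcut (resA G0 k g) 0 e' → (∀ t : I, e' ≤ t → R0 ≤ ‖(resA G0 k g).1 t‖) →
    g ∈ GR.B k ∧ duA k g.1 (G0.ix k g) (GR.ic k g) = (c1 y.1 - y.2.1) * y.1.1 ∧
      duA k g.1 (G0.ix k g) (GR.ix k g) = (x1 y.1 - y.2.1) * y.1.1

/-- the curves of the pairs: positive duration, order of the native gates, the rest is right of the native gate in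
the ball `n.rg` -/
structure PaX (P : Prm) (i j : Fin 3) (G0 : Ga) (k : Arm) (g : CC.Gm) : Prop where
  p : 0 < g.1
  o : ltA k (G0.ix k g) (G0.ix (oppA k) g)
  re : reK (dirA i j k) (endA P k).n.rg g.2.2 (G0.ix k g) (G0.ix (oppA k) g) ≤ 0

section pair

variable {P : Prm} {i j : Fin 3} {G0 GR : Ga} {k : Arm} {g : CC.Gm} {Gd : Set CC.Gm} {mn : Prop} {R0 ε : ℝ} {B0 B1 :
    Set CC.Gm}
  {x0 c1 x1 : CC.Gm → ℝ} {E : Set XM} {X : Set CC.Gm}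

/-- **a marked curve and the strand of a pair with a common piece** -/
theorem sa_loc (hE : (endA P k).Ok ε) (hu : ‖P.u * dirA i j k‖ = 1) (hR : 2 * (endA P k).s.bn ≤ R0)
    (hm : clA i j k = 0 → mn) (hSa : ∀ y ∈ E, 0 < y.1.1 ∧ SaE Gd (dirA i j k) P.u (endA P k) mn R0 B0 B1 x0 c1 x1 y)
    (HG : GaY G0 GR k R0 c1 x1 E X) (hX : ∀ g ∈ X, PaX P i j G0 k g) {y : XM} (hy : y ∈ E) (hg : g ∈ X) {e' : I}
    (he : blX y = pcut (resA G0 k g) 0 e') (far' : ∀ t : I, e' ≤ t → R0 ≤ ‖(resA G0 k g).1 t‖) :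
    FgS P i j G0 GR k g ∧ rlA G0 GR k g < e' := by
  obtain ⟨q1, q2, q3⟩ := HG y hy g hg e' he far'
  obtain ⟨hL, S⟩ := hSa y hy
  obtain ⟨hL', o', re'⟩ := hX g hg
  have b1 := hE.bn
  have b2 := hE.r0
  have b3 := hE.f.rr
  have b4 := hE.f.r
  have b5 := hE.f.r2
  have b6 := hE.f.g64
  have b7 := hE.n.r
  have b8 := hE.n.r2
  have b9 := hE.ball
  have b11 := hE.f.κ
  have ek : (endA P k).k = (endA P k).rk + (endA P k).f.r2 := rfl
  have b12 := hE.rk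
  have hR0 : 0 < R0 := by linarith
  obtain ⟨hmem, hb⟩ := S.blk hR0
  obtain ⟨e, hee⟩ : ∃ e : I, (e : ℝ) = rlY y y.2.2 := ⟨⟨_, hmem⟩, rfl⟩
  rw [← hee] at hb
  rw [hb] at he
  have far : ∀ t : I, e ≤ t → R0 ≤ ‖(rsY y).1 t‖ := fun t ht => S.far1 hR0 (by rw [← hee]; exact ht)
  have z : (rsY y).1 0 = 0 := cutp_zero _ _ _
  have z' : (resA G0 k g).1 0 = 0 := cutp_zero _ _ _
  have pe : (0 : ℝ) < e := by
    by_contra hc
    have h5 : e = 0 := Subtype.ext (le_antisymm (not_lt.1 hc) e.2.1)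
    have h4 := far 0 (by rw [h5])
    rw [z, norm_zero] at h4
    linarith
  have pe' : (0 : ℝ) < e' := by
    by_contra hc
    have h5 : e' = 0 := Subtype.ext (le_antisymm (not_lt.1 hc) e'.2.1)
    have h4 := far' 0 (by rw [h5])
    rw [z', norm_zero] at h4
    linarith
  have C : CmP R0 (rsY y).1 (resA G0 k g).1 e e' := CmP.of z z' pe pe' he far'
  have ri : riK (dirA i j k) y.1.2.2 (pji y.2.1) (pji (x1 y.1)) ≤ 0 := by
    refine S.ri hR0 hE C hee.symm fun s => ?_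
    have fre : Continuous fun v : ℂ => min (-lv (dirA i j k) v) ((endA P k).n.rg - ‖v‖) := by
      unfold lv
      fun_prop
    have h1 : stS (fun v => min (-lv (dirA i j k) v) ((endA P k).n.rg - ‖v‖)) (resA G0 k g).1 ≤ 0 := by
      show stS _ (cutp g.2.2 (G0.ix k g) (G0.ix (oppA k) g)) ≤ 0
      rw [← cutc_eq]
      exact re'
    exact (stS_le_iff fre _).1 h1 s
  have hF := S.fgR hR0 hm ri
  obtain ⟨p1, p2, p3, p4⟩ := hF.loc hu hE.f.co.c0 hE.f.co.c1 z z' (R0 := R0) (by linarith) (by linarith) (by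
      linarith) (by linarith)
    he far far'
  -- the times
  obtain ⟨e1, e2, e3, e4, e5⟩ := S.tms
  have p5 := S.pos hR0
  have s1 := S.t1
  have hm : 0 < muG y.1 - y.2.1 := by linarith
  obtain ⟨B, hB⟩ : ∃ B, B = g.1 * |(G0.ix (oppA k) g : ℝ) - G0.ix k g| := ⟨_, rfl⟩
  have pB : 0 < B := by
    rw [hB]
    exact mul_pos hL' (abs_pos.2 (ltA_ne o'))
  have hd : y.1.1 * (muG y.1 - y.2.1) * e = B * e' := by
    have h6 : y.1.1 * |((pji (muG y.1) : I) : ℝ) - (pji y.2.1 : I)| * |(e : ℝ) - 0| =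
        g.1 * |(G0.ix (oppA k) g : ℝ) - G0.ix k g| * |(e' : ℝ) - 0| := congrArg Prod.snd he
    rwa [sub_zero, sub_zero, abs_of_pos p1, abs_of_pos p2, e1, e5, abs_of_pos hm, ← hB] at h6
  have key : ∀ t : ℝ, ((pji t : I) : ℝ) = t → (t - y.2.1) * y.1.1 / B = rlY y t * e' / e := by
    intro t ht
    have hB' : B = y.1.1 * (muG y.1 - y.2.1) * e / e' := by rw [hd, mul_div_cancel_right₀ _ p2.ne']
    unfold rlY
    rw [ht, e1, e5, hB']
    field_simp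
  have rc : ((GR.ic k g : ℝ) - G0.ix k g) / ((G0.ix (oppA k) g : ℝ) - G0.ix k g) = rlY y (c1 y.1) * e' / e := by
    rw [duA_div _ o' hL', q2, ← hB]
    exact key _ e2
  have rx : ((GR.ix k g : ℝ) - G0.ix k g) / ((G0.ix (oppA k) g : ℝ) - G0.ix k g) = rlY y (x1 y.1) * e' / e := by
    rw [duA_div _ o' hL', q3, ← hB]
    exact key _ e3
  refine ⟨(fgZ_iff o').2 ⟨q1, ?_⟩, ?_⟩
  · rw [rc, rx]
    exact p4
  · unfold rlA
    rw [rx, div_lt_iff₀ p1, mul_comm (e' : ℝ) (e : ℝ)]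
    exact mul_lt_mul_of_pos_right p3 p2

/-- the other arm of the strand -/
lemma oppA_oppA (k : Arm) : oppA (oppA k) = k := by cases k <;> rfl

/-- **`hS` of `hloc`** : rests read from the arm `k`, first outer block in `S` -/
theorem hS_of (hE : (endA P k).Ok ε) (hu : ‖P.u * dirA i j k‖ = 1) (hR : 2 * (endA P k).s.bn ≤ R0)
    (hm : clA i j k = 0 → mn) (hSa : ∀ y ∈ E, 0 < y.1.1 ∧ SaE Gd (dirA i j k) P.u (endA P k) mn R0 B0 B1 x0 c1 x1 y)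
    (HG : GaY G0 GR k R0 c1 x1 E X) (hX : ∀ g ∈ X, PaX P i j G0 k g) {S : Set Pie} (hS : S ⊆ blX '' E) (hg : g ∈ X)
    {d d' : ℂ} {O O' : Ot} {Y Y' : Tp} {V : Wn} {s : ℝ × ℝ} (hd : ‖d‖ = 1) (r1 : R0 ≤ O.m) (r2 : R0 + O.r ≤ Y.rg)
    (r3 : R0 + (O.r + 2 * O'.r) ≤ V.D0) (hs : (resA G0 k g, s) ∈ EP d d' O O' Y Y' V) (hc : pcut (resA G0 k g) 0 s.1
    ∈ S) :
    FgS P i j G0 GR k g ∧ rlA G0 GR k g ≤ s.1 := by
  obtain ⟨y, hy, he⟩ := hS hc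
  have h : EpC d d' O O' Y Y' V (resA G0 k g, s) := hs
  have hm1 : s.1 ∈ Icc (0 : ℝ) 1 := ⟨h.s0, h.s1.trans h.s2⟩
  obtain ⟨h1, h2⟩ := sa_loc hE hu hR hm hSa HG hX hy hg (e' := ⟨s.1, hm1⟩) he fun t ht => h.far_p hd r1 r2 r3 ht
  exact ⟨h1, h2.le⟩

/-- **`hS'` of `hloc`** : rests read from the arm `k`, last outer block in `S`; the foreign gates of the other arm -/
theorem hS_opp (hE : (endA P (oppA k)).Ok ε) (hu : ‖P.u * dirA i j (oppA k)‖ = 1) (hR : 2 * (endA P (oppA k)).s.bn ≤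
    R0)
    (hm : clA i j (oppA k) = 0 → mn)
    (hSa : ∀ y ∈ E, 0 < y.1.1 ∧ SaE Gd (dirA i j (oppA k)) P.u (endA P (oppA k)) mn R0 B0 B1 x0 c1 x1 y)
    (HG : GaY G0 GR (oppA k) R0 c1 x1 E X) (hX : ∀ g ∈ X, PaX P i j G0 (oppA k) g) {S : Set Pie} (hS : S ⊆ blX '' E)
    (hg : g ∈ X) {d d' : ℂ} {O O' : Ot} {Y Y' : Tp} {V : Wn} {s : ℝ × ℝ} (hd' : ‖d'‖ = 1) (r1 : R0 ≤ O'.m)
    (r2 : R0 + O'.r ≤ Y'.rg) (r3 : R0 + (2 * O.r + O'.r) ≤ V.D0) (hs : (resA G0 k g, s) ∈ EP d d' O O' Y Y' V)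
    (hc : pcut (resA G0 k g) 1 s.2 ∈ S) : FgS P i j G0 GR (oppA k) g ∧ s.2 ≤ 1 - rlA G0 GR (oppA k) g := by
  obtain ⟨y, hy, he⟩ := hS hc
  have h : EpC d d' O O' Y Y' V (resA G0 k g, s) := hs
  have hm1 : 1 - s.2 ∈ Icc (0 : ℝ) 1 := ⟨by linarith [h.s2], by linarith [h.s0, h.s1]⟩
  have hm2 : s.2 ∈ Icc (0 : ℝ) 1 := ⟨h.s0.trans h.s1, h.s2⟩
  have e0 : resA G0 (oppA k) g = pcut (cl g) (G0.ix (oppA k) g) (G0.ix k g) := by
    unfold resA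
    rw [oppA_oppA]
  have e1 : pcut (resA G0 k g) 1 s.2 = pcut (resA G0 (oppA k) g) 0 (1 - s.2) := by
    rw [e0]
    unfold resA
    rw [pcut_pcut ⟨zero_le_one, le_rfl⟩ hm2, pcut_pcut ⟨le_rfl, zero_le_one⟩ hm1]
    congr 1 <;> ring
  have e2 : ∀ t : I, (resA G0 (oppA k) g).1 t = (resA G0 k g).1 (σ t) - (resA G0 k g).1 1 := by
    intro t
    rw [e0]
    show cutp g.2.2 (G0.ix (oppA k) g) (G0.ix k g) t = cutp g.2.2 (G0.ix k g) (G0.ix (oppA k) g) (σ t) -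
      cutp g.2.2 (G0.ix k g) (G0.ix (oppA k) g) 1
    rw [cutp_apply, cutp_apply, cutp_one, coe_symm_eq]
    have e3 : (G0.ix (oppA k) g : ℝ) + t * ((G0.ix k g : ℝ) - G0.ix (oppA k) g) =
        (G0.ix k g : ℝ) + (1 - t) * ((G0.ix (oppA k) g : ℝ) - G0.ix k g) := by ring
    rw [e3]
    ring
  obtain ⟨h1, h2⟩ := sa_loc hE hu hR hm hSa HG hX hy hg (e' := ⟨1 - s.2, hm1⟩) (he.trans e1) fun t ht => by
    rw [e2]
    refine h.far_q hd' r1 r2 r3 ?_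
    rw [coe_symm_eq]
    have : 1 - s.2 ≤ (t : ℝ) := ht
    show 1 - (t : ℝ) ≤ s.2
    linarith
  refine ⟨h1, ?_⟩
  have h3 : rlA G0 GR (oppA k) g < 1 - s.2 := h2
  linarith

/-- the relative time of `x~'` in the rest read from the arm `k` -/
lemma rlA_opp (h : ltA k (G0.ix k g) (G0.ix (oppA k) g)) :
    1 - rlA G0 GR (oppA k) g = ((GR.ix (oppA k) g : ℝ) - G0.ix k g) / ((G0.ix (oppA k) g : ℝ) - G0.ix k g) := by
  have h1 := ltA_ne h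
  have h2 : (G0.ix k g : ℝ) - G0.ix (oppA k) g ≠ 0 := fun h3 => h1 (by linarith)
  unfold rlA
  rw [oppA_oppA, eq_div_iff h1, sub_mul, one_mul, ← neg_sub (G0.ix (oppA k) g : ℝ) (G0.ix k g : ℝ), div_neg, neg_mul,
    div_mul_cancel₀ _ h1]
  ring

/-- `hS` for almost every curve -/
theorem hS_ae {Q : Measure CC.Gm} {w : CC.Gm → ℝ≥0∞} (hw : ∀ᵐ g ∂Q, w g ≠ 0 → g ∈ X) (hE : (endA P k).Ok ε)
    (hu : ‖P.u * dirA i j k‖ = 1) (hR : 2 * (endA P k).s.bn ≤ R0) (hm : clA i j k = 0 → mn)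
    (hSa : ∀ y ∈ E, 0 < y.1.1 ∧ SaE Gd (dirA i j k) P.u (endA P k) mn R0 B0 B1 x0 c1 x1 y)
    (HG : GaY G0 GR k R0 c1 x1 E X) (hX : ∀ g ∈ X, PaX P i j G0 k g) {S : Set Pie} (hS : S ⊆ blX '' E)
    {d d' : ℂ} {O O' : Ot} {Y Y' : Tp} {V : Wn} (hd : ‖d‖ = 1) (r1 : R0 ≤ O.m) (r2 : R0 + O.r ≤ Y.rg)
    (r3 : R0 + (O.r + 2 * O'.r) ≤ V.D0) :
    ∀ᵐ g ∂Q, w g ≠ 0 → ∀ s : ℝ × ℝ, (resA G0 k g, s) ∈ EP d d' O O' Y Y' V → pcut (resA G0 k g) 0 s.1 ∈ S →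
      g ∈ {g | FgS P i j G0 GR k g} ∧ rlA G0 GR k g ≤ s.1 :=
  hw.mono fun _ h h0 _ hs hc => hS_of hE hu hR hm hSa HG hX hS (h h0) hd r1 r2 r3 hs hc

/-- `hS'` for almost every curve -/
theorem hS_opp_ae {Q : Measure CC.Gm} {w : CC.Gm → ℝ≥0∞} (hw : ∀ᵐ g ∂Q, w g ≠ 0 → g ∈ X) (hE : (endA P (oppA k)).Ok ε)
    (hu : ‖P.u * dirA i j (oppA k)‖ = 1) (hR : 2 * (endA P (oppA k)).s.bn ≤ R0) (hm : clA i j (oppA k) = 0 → mn)
    (hSa : ∀ y ∈ E, 0 < y.1.1 ∧ SaE Gd (dirA i j (oppA k)) P.u (endA P (oppA k)) mn R0 B0 B1 x0 c1 x1 y)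
    (HG : GaY G0 GR (oppA k) R0 c1 x1 E X) (hX : ∀ g ∈ X, PaX P i j G0 (oppA k) g) {S : Set Pie} (hS : S ⊆ blX '' E)
    {d d' : ℂ} {O O' : Ot} {Y Y' : Tp} {V : Wn} (hd' : ‖d'‖ = 1) (r1 : R0 ≤ O'.m) (r2 : R0 + O'.r ≤ Y'.rg)
    (r3 : R0 + (2 * O.r + O'.r) ≤ V.D0) :
    ∀ᵐ g ∂Q, w g ≠ 0 → ∀ s : ℝ × ℝ, (resA G0 k g, s) ∈ EP d d' O O' Y Y' V → pcut (resA G0 k g) 1 s.2 ∈ S →
      g ∈ {g | FgS P i j G0 GR (oppA k) g} ∧ s.2 ≤ 1 - rlA G0 GR (oppA k) g :=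
  hw.mono fun _ h h0 _ hs hc => hS_opp hE hu hR hm hSa HG hX hS (h h0) hd' r1 r2 r3 hs hc

end pair

end Pool.Agent.ROT.F3.CK
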