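import Pool.Agent.ROT.F3LrG
import Pool.Agent.ROT.F3HLocS
import Pool.Agent.ROT.F3SAP
import Pool.Agent.ROT.F3Prm22

/-!
# ROT, F3 (helper70; D59): existence and times of the functional gates of a marked curve and a strand with a common piece

* `NatY` : the native half of a marked curve of the arm `fp` (tip in the ball `z`, level of the tip); `NatY.of_tip` : from `TipY`;
* `YFn` : the functional half (marks of `c~`, `x~`, block mark in the frame of the rotated lattice);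
* `NatY.str` : the strand up to the second root; `saY_fac`, `saY_m` : the piece, the marks;
* **`gaY_of`** : `GaY` (helper97) from `gate_core` (helper37).
-/

set_option autoImplicit false

noncomputable section

namespace Pool.Agent.ROT.F3.CK

open MeasureTheory Set unitInterval Filter Topology

open scoped ENNReal Classical

open Pool.Agent.ROT.F3 Pool.Agent.ROT.F3.LF
open Pool.Agent.ROT.F3.CC (Pie ex ex_of ex_coe cutp pcut cl mu)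
open Pool.Agent.ROT.F3.C0K (XM blX)
open Pool.Agent.ROT.F3.K7 (lsd pa pa_cont ctp ctp_apply PcL tcL tcL_of)
open Pool.Agent.ROT.F3.LR (nt ta la nt_ta ta_nt nt_aff nt_abs la_eq pa_lsd ctp_lsd GMk LocS DmP DmL)

/-! ### 1. The two halves of a marked curve -/

/-- **the native half**, arm `fp` : two roots, the tip is in the ball `z`, the level of the tip is at most `y0` over the level of `x` -/
structure NatY (d : ℂ) (z y0 : ℝ) (x0 : CC.Gm → ℝ) (g : CC.Gm) : Prop where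
  two : TwoR g
  b0 : ∀ v : I, v ≤ pji (x0 g) → ‖g.2.2 v - g.2.2 0‖ ≤ z
  cut : ∀ v : I, v ≤ pji (x0 g) → lv d (g.2.2 v) ≤ lv d (g.2.2 (pji (x0 g))) + y0

/-- the native half from the tip -/
lemma NatY.of_tip {d : ℂ} {E : En} {z : ℝ} {x0 : CC.Gm → ℝ} {y : XM} (h2 : TwoR y.1) (h : TipY d E y) (hx : x0 y.1 = y.2.1)
    (h0 : 0 ≤ y.2.1) (h1 : y.2.1 ≤ 1) (hz : E.n.r + E.n.r2 ≤ z) : NatY d z E.n.r x0 y.1 := by
  refine ⟨h2, fun v hv => ?_, fun v hv => ?_⟩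
  · rw [hx] at hv
    exact (h.nat hv h0 h1).1.trans hz
  · rw [hx] at hv ⊢
    exact (h.nat hv h0 h1).2

/-- **the functional half**: `B`, `Pc`, `Px` = gates `c~`, `x~` of the rotated lattice (its frame, units of the arm), `X` = good curves,
`β` = functional base, `Xc`, `Xx`, `Xy` = functional marks -/
structure YFn (T : LSym) (d u : ℂ) (E : En) (x0 : CC.Gm → ℝ) (B X : Set CC.Gm) (Pc Px β Xc Xx Xy : CC.Gm → ℝ) (g : CC.Gm) :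
    Prop where
  mem : rotX u⁻¹ g ∈ X
  /-- the functional base is the level of the native mark over the root -/
  base : β (rotX u⁻¹ g) = lv (u * d) (g.2.2 (pji (x0 g)) - g.2.2 0)
  base0 : 0 ≤ β (rotX u⁻¹ g)
  gm : GMk B Pc Px β T .fp E.f.l E.f.m Xc Xx Xy (rotX u⁻¹ g)

section say

variable {Gd : Set CC.Gm} {d u : ℂ} {E : En} {mn : Prop} {z y0 R0 ε : ℝ} {B0 B1 : Set CC.Gm} {x0 c1 x1 : CC.Gm → ℝ} {y : XM}
  {T : LSym}

/-- absolute times of a marked curve -/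
lemma pt_fp {g : CC.Gm} (h : TwoR g) (s : ℝ) : pt .fp g (s * g.1) = pji s := by
  unfold pt
  congr 1
  show s * g.1 / g.1 = s
  exact mul_div_cancel_right₀ _ h.L.ne'

lemma la_fp {g : CC.Gm} (h : TwoR g) : la .fp g = muG g * g.1 := by
  rw [h.mu, div_mul_cancel₀ _ h.L.ne']
  rfl

lemma fp_mem {g : CC.Gm} (h : TwoR g) {s : ℝ} (h0 : 0 ≤ s) (h1 : s ≤ muG g) : s * g.1 ∈ Icc 0 (la .fp g) := by
  rw [la_fp h]
  exact ⟨mul_nonneg h0 h.L.le, mul_le_mul_of_nonneg_right h1 h.L.le⟩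

/-- **the strand of a marked curve up to the second root** -/
theorem saY_str (h : SaE Gd d u E mn R0 B0 B1 x0 c1 x1 y) (hR : 0 < R0) (hn : NatY d z y0 x0 y.1) (hu : ‖u‖ = 1) (hd : ‖d‖ = 1)
    (hT : ∀ w, (T.L w).re = lv d w) :
    StrC z (R0 - z) (y0 + ‖u - 1‖ * (2 * z)) (lsd T .fp (rotX u⁻¹ y.1)) (y.2.1 * y.1.1) (la .fp y.1) := by
  have hw := hn.two
  have ha := fp_mem hw h.t0 ((h.pos hR).le.trans h.t1)
  have hL := hw.L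
  have nu : ‖u⁻¹‖ = 1 := by rw [norm_inv, hu, inv_one]
  have cu : (starRingEnd ℂ) u⁻¹ = u := by
    rw [Complex.inv_def, map_mul, Complex.conj_conj, Complex.conj_ofReal, Complex.normSq_eq_norm_sq, hu]
    norm_num
  have ab : y.2.1 * y.1.1 < la .fp y.1 := by
    rw [la_fp hw]
    exact mul_lt_mul_of_pos_right ((h.pos hR).trans_le h.t1) hL
  have e0 : rtA .fp y.1 = 0 := rfl
  have hle : ∀ u' ∈ Icc 0 (y.2.1 * y.1.1), pt .fp y.1 u' ≤ pji (x0 y.1) := by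
    intro u' hu'
    have h1 : leA .fp (pt .fp y.1 u') (pt .fp y.1 (y.2.1 * y.1.1)) := pt_le hw hu'.2
    rw [pt_fp hw, ← h.x] at h1
    exact h1
  have hx : pt .fp y.1 (y.2.1 * y.1.1) = pji (x0 y.1) := by
    rw [pt_fp hw, h.x]
  have nm : ∀ u' ∈ Icc 0 (la .fp y.1), ‖pa (lsd T .fp (rotX u⁻¹ y.1)) u'‖ = ‖y.1.2.2 (pt .fp y.1 u') - y.1.2.2 0‖ := by
    intro u' hu'
    rw [pa_pt hw T _ hu', LinearIsometryEquiv.norm_map, norm_mul, nu, one_mul, e0]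
  have lvl : ∀ u' ∈ Icc 0 (la .fp y.1), (pa (lsd T .fp (rotX u⁻¹ y.1)) u').re =
      lv (u * d) (y.1.2.2 (pt .fp y.1 u') - y.1.2.2 0) := by
    intro u' hu'
    rw [pa_pt hw T _ hu', hT, lv_rot, cu, e0]
  refine ⟨ha.1, ab, le_rfl, fun u' hu' => ?_, fun u' hu' => ?_, fun u' hu' => ?_⟩
  · rw [nm u' ⟨hu'.1, hu'.2.trans ha.2⟩]
    exact hn.b0 _ (hle u' hu')
  · rw [lvl u' ⟨hu'.1, hu'.2.trans ha.2⟩, lvl _ ha, hx, lv_sub, lv_sub]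
    have h1 := lv_sub_le d (u * d) (y.1.2.2 (pt .fp y.1 u') - y.1.2.2 (pji (x0 y.1)))
    have h2 := hn.cut _ (hle u' hu')
    rw [lv_sub, lv_sub] at h1
    have h3 : ‖u * d - d‖ = ‖u - 1‖ := by
      rw [show u * d - d = (u - 1) * d by ring, norm_mul, hd, mul_one]
    have h4 : ‖y.1.2.2 (pt .fp y.1 u') - y.1.2.2 (pji (x0 y.1))‖ ≤ 2 * z := by
      have h5 := hn.b0 _ (hle u' hu')
      have h6 := hn.b0 _ le_rfl
      have h7 := norm_sub_le (y.1.2.2 (pt .fp y.1 u') - y.1.2.2 0) (y.1.2.2 (pji (x0 y.1)) - y.1.2.2 0)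
      rw [sub_sub_sub_cancel_right] at h7
      linarith
    rw [h3] at h1
    have h5 := mul_le_mul_of_nonneg_left h4 (norm_nonneg (u - 1))
    linarith
  · have hu2 : u' = la .fp y.1 := le_antisymm hu'.2 hu'.1
    rw [hu2, nm _ ⟨hw.la.le, le_rfl⟩]
    have h0 : la .fp y.1 = muG y.1 * y.1.1 := la_fp hw
    rw [h0, pt_fp hw]
    obtain ⟨e1, -, -, e4, e5⟩ := h.tms
    have h1 := h.far (pji (muG y.1)) (by rw [e5]; exact h.t1) (by rw [e5])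
    have h2 := hn.b0 _ (le_refl (pji (x0 y.1)))
    rw [h.x] at h2
    have h3 := norm_sub_le (y.1.2.2 (pji (muG y.1)) - y.1.2.2 0) (y.1.2.2 (pji y.2.1) - y.1.2.2 0)
    rw [sub_sub_sub_cancel_right] at h3
    linarith

/-- **the far part** -/
theorem saY_far (h : SaE Gd d u E mn R0 B0 B1 x0 c1 x1 y) (hR : 0 < R0) (hw : TwoR y.1) (hu : ‖u‖ = 1) :
    ∀ u' ∈ Icc (y.2.2 * y.1.1) (la .fp y.1),
      R0 ≤ ‖pa (lsd T .fp (rotX u⁻¹ y.1)) u' - pa (lsd T .fp (rotX u⁻¹ y.1)) (y.2.1 * y.1.1)‖ := by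
  intro u' hu'
  have nu : ‖u⁻¹‖ = 1 := by rw [norm_inv, hu, inv_one]
  have p := h.pos hR
  have t0 := h.t0
  have t1 := h.t1
  have hL := hw.L
  have ha := fp_mem hw h.t0 (p.le.trans h.t1)
  have he := fp_mem hw (t0.trans p.le) t1
  have hu2 : u' ∈ Icc 0 (la .fp y.1) := ⟨he.1.trans hu'.1, hu'.2⟩
  rw [pa_pt hw T _ hu2, pa_pt hw T _ ha, ← map_sub, ← mul_sub, sub_sub_sub_cancel_right, LinearIsometryEquiv.norm_map, norm_mul, nu,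
    one_mul, pt_fp hw]
  refine h.far _ ?_ ?_
  · rw [pt_coe hw hu2]
    show y.2.2 ≤ u' / y.1.1
    rw [le_div_iff₀ hL]
    exact hu'.1
  · rw [pt_coe hw hu2]
    show u' / y.1.1 ≤ muG y.1
    rw [div_le_iff₀ hL, ← la_fp hw]
    exact hu'.2

/-- **the piece of a marked curve is a piece of the strand** -/
theorem saY_piece (h : SaE Gd d u E mn R0 B0 B1 x0 c1 x1 y) (hR : 0 < R0) (hw : TwoR y.1) (v : ℂ) :
    ctp (lsd T .fp (rotX v y.1)) (y.2.1 * y.1.1) (y.2.2 * y.1.1) = ((blX y).2, T.act (v • (blX y).1)) := by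
  have p := h.pos hR
  have hL := hw.L
  have ha := fp_mem hw h.t0 (p.le.trans h.t1)
  have he := fp_mem hw (h.t0.trans p.le) h.t1
  have h1 := ctp_lsd (k := .fp) (g := rotX v y.1) T hL hw.la ha.1 (mul_le_mul_of_nonneg_right p.le hL.le) he.2
  have e1 : nt .fp (rotX v y.1) (y.2.1 * y.1.1) = y.2.1 := mul_div_cancel_right₀ _ hL.ne'
  have e2 : nt .fp (rotX v y.1) (y.2.2 * y.1.1) = y.2.2 := mul_div_cancel_right₀ _ hL.ne'
  rw [e1, e2, cl_rotX, pcut_rotP] at h1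
  exact h1

end say

/-! ### 2. The marks -/

section fn

variable {Gd : Set CC.Gm} {d u : ℂ} {E : En} {mn : Prop} {z y0 D R0 R R2 R3 lo hi rl sl rr sr ε : ℝ} {B0 B X : Set CC.Gm}
  {x0 Pc Px β Xc Xx Xy : CC.Gm → ℝ} {y : XM} {T : LSym}

/-- **the piece of a marked curve at the three scales** -/
theorem saY_fac (h : SaE Gd d u E mn R0 B0 {g | rotX u⁻¹ g ∈ B} x0 (fun g => Pc (rotX u⁻¹ g) * muG g)
      (fun g => Px (rotX u⁻¹ g) * muG g) y) (hn : NatY d z y0 x0 y.1) (hf : YFn T d u E x0 B X Pc Px β Xc Xx Xy y.1) (hu : ‖u‖ = 1)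
    (hd : ‖d‖ = 1) (hT : ∀ w, (T.L w).re = lv d w) (hk : 0 ≤ E.k) (N : GNum E ‖u - 1‖ z D R0 R R2 R3 lo hi rl sl rr sr)
    (N2 : 1004 * R2 + z ≤ R0) (N3 : 1004 * R3 + z ≤ R0) (N4 : y0 + ‖u - 1‖ * (2 * z) ≤ R / 64) :
    LR.StP R R2 R3 z E.f.l lo hi (lsd T .fp (rotX u⁻¹ y.1)) (β (rotX u⁻¹ y.1)) (y.2.1 * y.1.1) (y.2.2 * y.1.1) := by
  have n1 := N.pz
  have n2 := N.f2
  have n3 := N.R12
  have n4 := N.pR
  have n5 := N.R13
  have n6 := N.f3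
  have hR0 : 0 < R0 := by linarith [N.pk]
  have hs := saY_str h hR0 hn hu hd hT
  have hw := hn.two
  have hfar := saY_far (T := T) h hR0 hw hu
  have hL := hw.L
  have p := h.pos hR0
  have ha := fp_mem hw h.t0 (p.le.trans h.t1)
  have he := fp_mem hw (h.t0.trans p.le) h.t1
  have hae : y.2.1 * y.1.1 < y.2.2 * y.1.1 := mul_lt_mul_of_pos_right p hL
  have cu : (starRingEnd ℂ) u⁻¹ = u := by
    rw [Complex.inv_def, map_mul, Complex.conj_conj, Complex.conj_ofReal, Complex.normSq_eq_norm_sq, hu]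
    norm_num
  have hβ : β (rotX u⁻¹ y.1) = (pa (lsd T .fp (rotX u⁻¹ y.1)) (y.2.1 * y.1.1)).re := by
    rw [hf.base, pa_pt hw T _ ha, hT, lv_rot, cu, pt_fp hw, h.x]
    rfl
  have hβz : |β (rotX u⁻¹ y.1)| ≤ z := by
    rw [hβ]
    exact (Complex.abs_re_le_norm _).trans (hs.ball _ ⟨hs.a0, le_rfl⟩)
  have hβz' := abs_le.1 hβz
  refine ⟨?_, ?_, ?_, hs.ball, hβ, by linarith [N.plo, hf.base0], by linarith [N.phi]⟩
  · exact hs.pcl n4 N.zR N4 (by linarith) hae he.2 (by linarith) hfar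
  · exact hs.pcl (by linarith) (by linarith [N.zR]) (by linarith) (by linarith) hae he.2 n2 hfar
  · exact hs.pcl (by linarith) (by linarith [N.zR]) (by linarith) (by linarith) hae he.2 n6 hfar

/-- **the marks of a marked curve** `c~`, `x~` (absolute times of the strand), diameters and radii -/
structure MFaY (u : ℂ) (T : LSym) (rl sl rr sr : ℝ) (Pc Px : CC.Gm → ℝ) (y : XM) : Prop where
  eC : tcL (lsd T .fp (rotX u⁻¹ y.1)) (Pc (rotX u⁻¹ y.1)) = Pc (rotX u⁻¹ y.1) * muG y.1 * y.1.1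
  eX : tcL (lsd T .fp (rotX u⁻¹ y.1)) (Px (rotX u⁻¹ y.1)) = Px (rotX u⁻¹ y.1) * muG y.1 * y.1.1
  ac : y.2.1 * y.1.1 < tcL (lsd T .fp (rotX u⁻¹ y.1)) (Pc (rotX u⁻¹ y.1))
  xe : tcL (lsd T .fp (rotX u⁻¹ y.1)) (Px (rotX u⁻¹ y.1)) < y.2.2 * y.1.1
  dc : DmP (pa (lsd T .fp (rotX u⁻¹ y.1))) (tcL (lsd T .fp (rotX u⁻¹ y.1)) (Pc (rotX u⁻¹ y.1))) rl
  dx : DmP (pa (lsd T .fp (rotX u⁻¹ y.1))) (tcL (lsd T .fp (rotX u⁻¹ y.1)) (Px (rotX u⁻¹ y.1))) sl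
  rc : ∀ v ∈ Icc (y.2.1 * y.1.1) (tcL (lsd T .fp (rotX u⁻¹ y.1)) (Pc (rotX u⁻¹ y.1))),
    ‖pa (lsd T .fp (rotX u⁻¹ y.1)) v - pa (lsd T .fp (rotX u⁻¹ y.1)) (y.2.1 * y.1.1)‖ ≤ rr
  rx : ∀ v ∈ Icc (y.2.1 * y.1.1) (tcL (lsd T .fp (rotX u⁻¹ y.1)) (Px (rotX u⁻¹ y.1))),
    ‖pa (lsd T .fp (rotX u⁻¹ y.1)) v - pa (lsd T .fp (rotX u⁻¹ y.1)) (y.2.1 * y.1.1)‖ ≤ sr

theorem saY_m (h : SaE Gd d u E mn R0 B0 {g | rotX u⁻¹ g ∈ B} x0 (fun g => Pc (rotX u⁻¹ g) * muG g)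
      (fun g => Px (rotX u⁻¹ g) * muG g) y) (hn : NatY d z y0 x0 y.1) (hf : YFn T d u E x0 B X Pc Px β Xc Xx Xy y.1) (hu : ‖u‖ = 1)
    (hd : ‖d‖ = 1) (hT : ∀ w, (T.L w).re = lv d w) (hE : E.Ok ε) (N : GNum E ‖u - 1‖ z D R0 R R2 R3 lo hi rl sl rr sr) :
    MFaY u T rl sl rr sr Pc Px y := by
  have pz := N.pz
  have n1 := hE.rk
  have n2 : E.k = E.rk + E.f.r2 := rfl
  have n3 := hE.f.r2
  have hR0 : 0 < R0 := by linarith [N.pk]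
  have hw := hn.two
  have hL := hw.L
  have hs := saY_str h hR0 hn hu hd hT
  have p := h.pos hR0
  have t0 := h.t0
  have t1 := h.t1
  have o1 : y.2.1 ≤ Pc (rotX u⁻¹ y.1) * muG y.1 := h.o1
  have o2 : Pc (rotX u⁻¹ y.1) * muG y.1 ≤ Px (rotX u⁻¹ y.1) * muG y.1 := h.o2
  have o3 : Px (rotX u⁻¹ y.1) * muG y.1 ≤ y.2.2 := h.o3
  have m0 := hw.mu0
  have hB : rotX u⁻¹ y.1 ∈ B := h.e1
  have pc0 : 0 ≤ Pc (rotX u⁻¹ y.1) := nonneg_of_mul_nonneg_left (t0.trans o1) m0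
  have px0 : 0 ≤ Px (rotX u⁻¹ y.1) := nonneg_of_mul_nonneg_left ((t0.trans o1).trans o2) m0
  have lv0 := hf.gm.lv hB
  rw [← hf.gm.c hB] at lv0
  have eC : tcL (lsd T .fp (rotX u⁻¹ y.1)) (Pc (rotX u⁻¹ y.1)) = Pc (rotX u⁻¹ y.1) * muG y.1 * y.1.1 := by
    rw [tcL_of pc0, mul_assoc, ← la_fp hw]
    rfl
  have eX : tcL (lsd T .fp (rotX u⁻¹ y.1)) (Px (rotX u⁻¹ y.1)) = Px (rotX u⁻¹ y.1) * muG y.1 * y.1.1 := by
    rw [tcL_of px0, mul_assoc, ← la_fp hw]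
    rfl
  have ha := fp_mem hw t0 (p.le.trans t1)
  have cm := fp_mem hw (t0.trans o1) ((o2.trans o3).trans t1)
  have xm := fp_mem hw ((t0.trans o1).trans o2) (o3.trans t1)
  have ic : pt .fp y.1 (Pc (rotX u⁻¹ y.1) * muG y.1 * y.1.1) = pji (Pc (rotX u⁻¹ y.1) * muG y.1) := pt_fp hw _
  have ix : pt .fp y.1 (Px (rotX u⁻¹ y.1) * muG y.1 * y.1.1) = pji (Px (rotX u⁻¹ y.1) * muG y.1) := pt_fp hw _
  have ia : pt .fp y.1 (y.2.1 * y.1.1) = pji y.2.1 := pt_fp hw _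
  rw [eC] at lv0
  obtain ⟨C, hC⟩ : ∃ C, C = Pc (rotX u⁻¹ y.1) * muG y.1 * y.1.1 := ⟨_, rfl⟩
  obtain ⟨X', hX⟩ : ∃ X', X' = Px (rotX u⁻¹ y.1) * muG y.1 * y.1.1 := ⟨_, rfl⟩
  have cu : (starRingEnd ℂ) u⁻¹ = u := by
    rw [Complex.inv_def, map_mul, Complex.conj_conj, Complex.conj_ofReal, Complex.normSq_eq_norm_sq, hu]
    norm_num
  have nu : ‖u⁻¹‖ = 1 := by rw [norm_inv, hu, inv_one]
  have hβ : β (rotX u⁻¹ y.1) = (pa (lsd T .fp (rotX u⁻¹ y.1)) (y.2.1 * y.1.1)).re := by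
    rw [hf.base, pa_pt hw T _ ha, hT, lv_rot, cu, pt_fp hw, h.x]
    rfl
  have aC : y.2.1 * y.1.1 ≤ C := by
    rw [hC]
    exact mul_le_mul_of_nonneg_right o1 hL.le
  have cx : C ≤ X' := by
    rw [hC, hX]
    exact mul_le_mul_of_nonneg_right o2 hL.le
  have Xe : X' ≤ y.2.2 * y.1.1 := by
    rw [hX]
    exact mul_le_mul_of_nonneg_right o3 hL.le
  rw [← hC] at ic cm lv0
  rw [← hX] at ix xm
  have hflt : y.2.1 * y.1.1 < C := by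
    rcases eq_or_lt_of_le aC with h1 | h1
    · exfalso
      rw [← h1, hβ] at lv0
      linarith [hE.f.l]
    · exact h1
  have bt1 : BtI (pji y.2.1) (pji (Pc (rotX u⁻¹ y.1) * muG y.1)) (pji (Px (rotX u⁻¹ y.1) * muG y.1)) :=
    Or.inl ⟨pji_mono o1, pji_mono o2⟩
  have nm : ∀ a b : ℝ, a ∈ Icc 0 (la .fp y.1) → b ∈ Icc 0 (la .fp y.1) →
      ‖pa (lsd T .fp (rotX u⁻¹ y.1)) a - pa (lsd T .fp (rotX u⁻¹ y.1)) b‖ = ‖y.1.2.2 (pt .fp y.1 a) - y.1.2.2 (pt .fp y.1 b)‖ := by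
    intro a b h1 h2
    rw [pa_pt hw T _ h1, pa_pt hw T _ h2, ← map_sub, ← mul_sub, sub_sub_sub_cancel_right, LinearIsometryEquiv.norm_map, norm_mul, nu,
      one_mul]
  have pm : ∀ a b : ℝ, a ≤ b → pt .fp y.1 a ≤ pt .fp y.1 b := fun a b hab => pt_le (k := .fp) hw hab
  have k1 : ∀ u', y.2.1 * y.1.1 ≤ u' → u' ≤ X' → ‖y.1.2.2 (pt .fp y.1 u') - y.1.2.2 (pji y.2.1)‖ ≤ E.k := by
    intro u' h1 h2
    refine kc_ball h.fp.k bt1 ?_ hE.f.r2.le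
    rw [← ix, ← ia]
    exact Or.inl ⟨pm _ _ h1, pm _ _ h2⟩
  have k2 : ∀ u', y.2.1 * y.1.1 ≤ u' → u' ≤ C → ‖y.1.2.2 (pt .fp y.1 u') - y.1.2.2 (pji y.2.1)‖ ≤ E.rk := by
    intro u' h1 h2
    have h3 := h.fp.k
    unfold kcF at h3
    simp only [max_le_iff] at h3
    have h4 := h3.1.1.1
    rw [stS_bt continuous_norm] at h4
    refine h4 _ ?_
    rw [← ic, ← ia]
    exact Or.inl ⟨pm _ _ h1, pm _ _ h2⟩
  have k3 : ∀ u', C ≤ u' → u' ≤ X' → ‖y.1.2.2 (pt .fp y.1 u') - y.1.2.2 (pt .fp y.1 C)‖ ≤ E.f.r2 := by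
    intro u' h1 h2
    have h3 := h.fp.k
    unfold kcF at h3
    simp only [max_le_iff] at h3
    have h4 := h3.1.1.2
    rw [stS_bt continuous_norm] at h4
    have h5 := h4 (pt .fp y.1 u') (by
      rw [← ic, ← ix]
      exact Or.inl ⟨pm _ _ h1, pm _ _ h2⟩)
    rw [← ic] at h5
    exact h5
  have rC : ∀ v, y.2.1 * y.1.1 ≤ v → v ≤ C →
      ‖pa (lsd T .fp (rotX u⁻¹ y.1)) v - pa (lsd T .fp (rotX u⁻¹ y.1)) (y.2.1 * y.1.1)‖ ≤ E.rk := by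
    intro v h1 h2
    rw [nm _ _ ⟨hs.a0.trans h1, h2.trans cm.2⟩ ha, ia]
    exact k2 v h1 h2
  have rX : ∀ v, y.2.1 * y.1.1 ≤ v → v ≤ X' →
      ‖pa (lsd T .fp (rotX u⁻¹ y.1)) v - pa (lsd T .fp (rotX u⁻¹ y.1)) (y.2.1 * y.1.1)‖ ≤ E.k := by
    intro v h1 h2
    rw [nm _ _ ⟨hs.a0.trans h1, h2.trans xm.2⟩ ha, ia]
    exact k1 v h1 h2
  have rCX : ∀ v, C ≤ v → v ≤ X' →
      ‖pa (lsd T .fp (rotX u⁻¹ y.1)) v - pa (lsd T .fp (rotX u⁻¹ y.1)) C‖ ≤ E.f.r2 := by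
    intro v h1 h2
    rw [nm _ _ ⟨cm.1.trans h1, h2.trans xm.2⟩ cm]
    exact k3 v h1 h2
  have ra := hs.ball (y.2.1 * y.1.1) ⟨hs.a0, le_rfl⟩
  have diaC : ∀ v ∈ Icc 0 C, ‖pa (lsd T .fp (rotX u⁻¹ y.1)) v - 0‖ ≤ z + E.rk := by
    intro v hv
    rw [sub_zero]
    rcases le_total v (y.2.1 * y.1.1) with h1 | h1
    · linarith [hs.ball v ⟨hv.1, h1⟩]
    · have h3 := norm_add_le (pa (lsd T .fp (rotX u⁻¹ y.1)) v - pa (lsd T .fp (rotX u⁻¹ y.1)) (y.2.1 * y.1.1))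
        (pa (lsd T .fp (rotX u⁻¹ y.1)) (y.2.1 * y.1.1))
      rw [sub_add_cancel] at h3
      linarith [rC v h1 hv.2]
  have diaCC : ∀ v ∈ Icc 0 C, ∀ w ∈ Icc 0 C,
      ‖pa (lsd T .fp (rotX u⁻¹ y.1)) v - pa (lsd T .fp (rotX u⁻¹ y.1)) w‖ ≤ 2 * (z + E.rk) := by
    intro v hv w hw'
    have h1 := norm_sub_le (pa (lsd T .fp (rotX u⁻¹ y.1)) v - 0) (pa (lsd T .fp (rotX u⁻¹ y.1)) w - 0)
    rw [sub_sub_sub_cancel_right] at h1
    linarith [diaC v hv, diaC w hw']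
  have diaX : ∀ v ∈ Icc 0 X', ∀ w ∈ Icc 0 X',
      ‖pa (lsd T .fp (rotX u⁻¹ y.1)) v - pa (lsd T .fp (rotX u⁻¹ y.1)) w‖ ≤
      max (2 * E.f.r2) (2 * (z + E.rk) + E.f.r2) := by
    have c0 : 0 ≤ C := cm.1
    have one : ∀ v ∈ Icc 0 C, ∀ w ∈ Icc C X',
        ‖pa (lsd T .fp (rotX u⁻¹ y.1)) v - pa (lsd T .fp (rotX u⁻¹ y.1)) w‖ ≤ 2 * (z + E.rk) + E.f.r2 := by
      intro v hv w hw'
      have h1 := norm_sub_le (pa (lsd T .fp (rotX u⁻¹ y.1)) v - pa (lsd T .fp (rotX u⁻¹ y.1)) C)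
        (pa (lsd T .fp (rotX u⁻¹ y.1)) w - pa (lsd T .fp (rotX u⁻¹ y.1)) C)
      rw [sub_sub_sub_cancel_right] at h1
      linarith [diaCC v hv C ⟨c0, le_rfl⟩, rCX w hw'.1 hw'.2]
    intro v hv w hw'
    rcases le_total v C with h1 | h1 <;> rcases le_total w C with h2 | h2
    · refine ((diaCC v ⟨hv.1, h1⟩ w ⟨hw'.1, h2⟩).trans ?_).trans (le_max_right _ _)
      linarith
    · exact (one v ⟨hv.1, h1⟩ w ⟨h2, hw'.2⟩).trans (le_max_right _ _)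
    · rw [norm_sub_rev]
      exact (one w ⟨hw'.1, h2⟩ v ⟨h1, hv.2⟩).trans (le_max_right _ _)
    · refine le_trans ?_ (le_max_left _ _)
      have h3 := norm_sub_le (pa (lsd T .fp (rotX u⁻¹ y.1)) v - pa (lsd T .fp (rotX u⁻¹ y.1)) C)
        (pa (lsd T .fp (rotX u⁻¹ y.1)) w - pa (lsd T .fp (rotX u⁻¹ y.1)) C)
      rw [sub_sub_sub_cancel_right] at h3
      linarith [rCX v h1 hv.2, rCX w h2 hw'.2]
  have xe : X' < y.2.2 * y.1.1 := by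
    rcases eq_or_lt_of_le Xe with h1 | h1
    · exfalso
      have h2 := saY_far (T := T) h hR0 hw hu X' ⟨h1.ge, xm.2⟩
      rw [nm _ _ xm ha, ia] at h2
      linarith [k1 X' (aC.trans cx) le_rfl, N.pk]
    · exact h1
  refine ⟨eC, eX, ?_, ?_, ?_, ?_, ?_, ?_⟩
  · rw [eC, ← hC]
    exact hflt
  · rw [eX, ← hX]
    exact xe
  · rw [eC, ← hC]
    exact dmP_of (pa_cont _) cm.1 diaC N.prl
  · rw [eX, ← hX]
    exact dmP_pair (pa_cont _) xm.1 diaX (max_lt N.psl N.ps2)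
  · rw [eC, ← hC]
    exact fun v hv => (rC v hv.1 hv.2).trans N.prr
  · rw [eX, ← hX]
    exact fun v hv => (rX v hv.1 hv.2).trans N.psr

/-- the fourth number from `z ≤ R / 8` -/
lemma n4_of {E : En} {ρ τ e z R : ℝ} (h : E.Nr (bE ρ τ)) (hρ : 0 < ρ) (he : e ≤ 1 / 10 ^ 8) (hz : E.n.r + E.n.r2 ≤ z)
    (hR : z ≤ R / 8) : E.n.r + e * (2 * z) ≤ R / 64 := by
  have h1 : E.n.r ≤ 101 / 100 * (1 * ρ) := h.n.r.2
  have h2 : 1 * ρ ≤ E.n.r := h.n.r.1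
  have h3 : 41 / 2 * ρ ≤ E.n.r2 := h.n.r2.1
  have h4 : e * (2 * z) ≤ 1 / 10 ^ 8 * (2 * z) := mul_le_mul_of_nonneg_right he (by linarith)
  norm_num at h4
  linarith

/-! ### 3. The theorem -/

/-- **existence and times of the functional gates**, marked curves of the arm `fp` and the strands of the place `A` -/
theorem gaY_of {P : Prm} {A : PlD} {E : Set XM} (hP : P.Ok) (hT : ∀ w, (T.L w).re = lv (dirA A.i A.j A.k) w)
    (N : GNum (endA P A.k) ‖P.u - 1‖ z D R0 R R2 R3 lo hi rl sl rr sr) (N2 : 1004 * R2 + z ≤ R0) (N3 : 1004 * R3 + z ≤ R0)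
    (N4 : y0 + ‖P.u - 1‖ * (2 * z) ≤ R / 64)
    (S : LocS R R2 z (endA P A.k).f.l lo hi rl sl rr sr T .fp X β Xc Xx T A.k A.X A.β A.Xc A.Xx)
    (Sy : LocS R R3 z (endA P A.k).f.l lo hi rl sl rr sr T .fp X β Xc Xy T A.k A.X A.β A.Xc A.Xy)
    (hSa : ∀ y ∈ E, SaE Gd (dirA A.i A.j A.k) P.u (endA P A.k) mn R0 B0 {g | rotX P.u⁻¹ g ∈ B} x0
      (fun g => Pc (rotX P.u⁻¹ g) * muG g) (fun g => Px (rotX P.u⁻¹ g) * muG g) y)
    (hGd : ∀ y ∈ E, NatY (dirA A.i A.j A.k) z y0 x0 y.1 ∧ YFn T (dirA A.i A.j A.k) P.u (endA P A.k) x0 B X Pc Px β Xc Xx Xy y.1) :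
    GaY A.G0 (A.H.rot P.u) A.k R0 (fun g => Pc (rotX P.u⁻¹ g) * muG g) (fun g => Px (rotX P.u⁻¹ g) * muG g) E
      {g | A.Gd P T z D g} := by
  intro y hy g' hg' e' he far'
  have hg' : A.Gd P T z D g' := hg'
  have h := hSa y hy
  obtain ⟨hn, hf⟩ := hGd y hy
  have hE := endA_okH hP A.k
  have hk : 0 ≤ (endA P A.k).k := (end_nm hE).2.2.2.2.2.2
  have hR0 : 0 < R0 := by linarith [N.pk]
  have hw := hn.two
  have hd : ‖dirA A.i A.j A.k‖ = 1 := dirA_nmH _ _ _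
  have f := saY_fac h hn hf hP.u hd hT hk N N2 N3 N4
  have f' := hg'.fac hP hT N far'
  have m := saY_m h hn hf hP.u hd hT hE N
  have q1 := saY_piece (T := T) h hR0 hw P.u⁻¹
  have q2 := hg'.nat.piece hP.u hT P.u⁻¹ e'
  have q : ctp (lsd T .fp (rotX P.u⁻¹ y.1)) (y.2.1 * y.1.1) (y.2.2 * y.1.1) =
      ctp (lsd T A.k (rotX P.u⁻¹ g')) (aT A.G0 A.k g') (aT A.G0 A.k g' + e' * (bT A.G0 A.k g' - aT A.G0 A.k g')) := by
    rw [q1, q2, he]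
  have hB : rotX P.u⁻¹ y.1 ∈ B := h.e1
  obtain ⟨r1, r2, r3⟩ := LR.gate_core S Sy hf.mem hg'.X hf.gm hg'.gm f f' q hB m.ac m.xe m.dc m.dx m.dx m.rc m.rx
  have hw' := hg'.nat.two
  obtain ⟨u0, u1, u2⟩ := hg'.un.h A.k (show g' ∈ (A.H.rot P.u).B A.k from r1)
  have u0' : 0 ≤ A.H.c A.k (rotX P.u⁻¹ g') := u0
  have u1' : A.H.c A.k (rotX P.u⁻¹ g') ≤ A.H.x A.k (rotX P.u⁻¹ g') := u1
  have u2' : A.H.x A.k (rotX P.u⁻¹ g') ≤ 1 := u2
  have l0 : 0 < la A.k g' := hw'.la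
  have tc : ∀ φ : ℝ, 0 ≤ φ → tcL (lsd T A.k (rotX P.u⁻¹ g')) φ = φ * la A.k g' := fun φ hφ => tcL_of hφ
  have eC' := tc _ u0'
  have eX' := tc _ (u0'.trans u1')
  have mem : ∀ φ : ℝ, 0 ≤ φ → φ ≤ 1 → φ * la A.k g' ∈ Icc 0 (la A.k g') := fun φ h0 h1 =>
    ⟨mul_nonneg h0 l0.le, mul_le_of_le_one_left l0.le h1⟩
  have cm := mem _ u0' (u1'.trans u2')
  have xm := mem _ (u0'.trans u1') u2'
  have ic : pt A.k g' (A.H.c A.k (rotX P.u⁻¹ g') * la A.k g') = (A.H.rot P.u).ic A.k g' := by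
    rw [pt_tAt hw']
    rfl
  have ix : pt A.k g' (A.H.x A.k (rotX P.u⁻¹ g') * la A.k g') = (A.H.rot P.u).ix A.k g' := by
    rw [pt_tAt hw']
    rfl
  have ha' := aT_mem (k := A.k) hw' hg'.nat.t0
  rw [eC', m.eC] at r2
  rw [eX', m.eX] at r3
  refine ⟨r1, ?_, ?_⟩
  · rw [← ic, ← pt_aT hw', duA_pt hw' ha' cm, r2]
    ring
  · rw [← ix, ← pt_aT hw', duA_pt hw' ha' xm, r3]
    ring

end fn

end Pool.Agent.ROT.F3.CK
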