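import Pool.Agent.ROT.F3LrH
import Pool.Agent.ROT.F3HLocG
import Pool.Agent.ROT.F3HLocC

/-!
# ROT, F3 (helper97; D40): the functional gates of the marked curves and of the strands, from the data of the marks

* `eps_le` : the turn is small; `n4_le` : the number `N4` of `gaY_of`;
* **`gaY_mo`** : `GaY` for all places `(k, κ)`, `E` = `SaSet` of helper86;
* **`saH_mo`** : the hypothesis `SaH` of `hloc_pl`, `hloc_low`, `hlq_of`.
-/

set_option autoImplicit false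

noncomputable section

open MeasureTheory Filter Topology Set unitInterval
open scoped ENNReal NNReal

namespace Pool.Agent.ROT.F3E

open Pool.Agent.ROT.F3 Pool.Agent.ROT.F3.CC Pool.Agent.ROT.F3.CK Pool.Agent.ROT.F3.LF Pool.Agent.ROT.F3.LR
open Pool.Agent.ROT.F3.C0K (blX)

/-- the turn is small -/
lemma eps_le {E : En} {ρ τ ε : ℝ} (hρ : 0 < ρ) (hE : E.Ok ε) (h : E.Nr (bE ρ τ)) : ε ≤ 1 / 100 := by
  have h1 := hE.kcε
  have h2 : E.n.m ≤ 101 / 100 * (81 / 10 * ρ) := h.n.m.2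
  have h3 : 11400 * ρ ≤ E.f.m := h.f.m.1
  have h4 := h.kc.1
  have h5 : 60 * ρ ≤ E.f.l := h.f.l.1
  have h6 := hE.kr
  by_contra hc
  have h7 : E.kc * (1 / 100) ≤ E.kc * ε := mul_le_mul_of_nonneg_left (not_le.1 hc).le (by linarith)
  linarith

/-- the number `N4` of `gaY_of` -/
lemma n4_le {E : En} {ρ τ e z R : ℝ} (h : E.Nr (bE ρ τ)) (hρ : 0 < ρ) (he : e ≤ 1 / 100) (hz : E.n.r + E.n.r2 ≤ z)
    (hR : z ≤ R / 8) : E.n.r + e * (2 * z) ≤ R / 64 := by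
  have h1 : E.n.r ≤ 101 / 100 * (1 * ρ) := h.n.r.2
  have h2 : 1 * ρ ≤ E.n.r := h.n.r.1
  have h3 : 41 / 2 * ρ ≤ E.n.r2 := h.n.r2.1
  have h4 : e * (2 * z) ≤ 1 / 100 * (2 * z) := mul_le_mul_of_nonneg_right he (by linarith)
  linarith

section

variable {V : Ultrafilter ℕ} {P : Prm} {D : MDat} {PG : Measure CC.Gm} {z : ℂ}

/-- the marked curves of a member -/
abbrev MDat.SaY (D : MDat) (P : Prm) (mn : Prop) (E : Bool) (a : Fin 3) : Set C0K.XM :=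
  SaSet D.X (dxB E a) P.u (enB P E) mn (19500000 * D.ρ) ((D.F0 E a).B .fp) ((D.F1 E a).B .fp) ((D.F0 E a).x .fp)
    ((D.F1 E a).c .fp) ((D.F1 E a).x .fp)

lemma enB_ok (hP : P.Ok) (E : Bool) : (enB P E).Ok ‖P.u - 1‖ := by
  cases E
  exacts [hP.p, hP.q]

/-- **existence and times of the functional gates**, marked curves of the member and the strands of all its places -/
theorem gaY_mo (hP : P.Ok) (hn : NearP z D.ρ D.τ P) (hρ : 0 < D.ρ) (hG : GenO V P D PG) (mn : Prop) (k : Fin 3) (κ : Arm) :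
    GaY (D.G0 k) ((D.H k).rot P.u) κ (19500000 * D.ρ) (saT1 P.u ((D.F1 (eA κ) (clA (fA k) (fB k) κ)).c .fp))
      (saT1 P.u ((D.F1 (eA κ) (clA (fA k) (fB k) κ)).x .fp)) (D.SaY P mn (eA κ) (clA (fA k) (fB k) κ)) (D.Xk P k) := by
  obtain ⟨E, hE⟩ : ∃ E, E = eA κ := ⟨_, rfl⟩
  obtain ⟨a, ha⟩ : ∃ a, a = clA (fA k) (fB k) κ := ⟨_, rfl⟩
  rw [← hE, ← ha]
  obtain ⟨z, Dd, R, R2, R3, lo, hi, rl, sl, rr, sr, Xc, Xx, Xy, ⟨N, n2, n3, n4, n5, M⟩, hg⟩ := hG.mem hP E a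
  have eD : dirA (fA k) (fB k) κ = ev (dxB E a) := by rw [hE, ha, dirA_eA]
  have eE : endA P κ = enB P E := by rw [hE, endA_eA]
  have hK := hG.ok1 E
  have hnr : (enB P E).Nr (bE D.ρ D.τ) := enB_nr hn.p hn.q E
  have l1 := M.lx .fp κ
  have l2 := M.ly .fp κ
  rw [hK.l] at l1 l2
  have key := gaY_of (A := plM P D.F0 D.F1 D.Rm {h | rotX P.u h ∈ D.Xf} Xc Xx Xy (fA k) (fB k) κ) (T := rS (-dxB E a))
    (E := D.SaY P mn E a) (Gd := D.X) (mn := mn) (B0 := (D.F0 E a).B .fp) (B := (D.F1 E a).B .fp)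
    (x0 := fun g => (D.F0 E a).x .fp g * muG g) (Pc := (D.F1 E a).c .fp) (Px := (D.F1 E a).x .fp)
    (X := {h | rotX P.u h ∈ D.Xf}) (β := fun h => axM P D.F0 D.Rm E a .fp (rotX P.u h)) (Xc := Xc .fp) (Xx := Xx .fp)
    (Xy := Xy .fp) (y0 := (enB P E).n.r) (z := z) (D := Dd) (R0 := 19500000 * D.ρ) (R := R) (R2 := R2) (R3 := R3) (lo := lo)
    (hi := hi) (rl := rl) (sl := sl) (rr := rr) (sr := sr) hP (fun w => rS_lv hE.symm ha.symm w)
    (by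
      show GNum (endA P κ) _ _ _ _ _ _ _ _ _ _ _ _ _
      rw [eE]
      exact N) n4 n5 (n4_le hnr hρ (eps_le hρ (enB_ok hP E) hnr) (n2 E) N.zR)
    (by
      show LocS R R2 z (endA P κ).f.l lo hi rl sl rr sr _ .fp _ _ _ _ _ κ _
        (fun h => axM P D.F0 D.Rm (eA κ) (clA (fA k) (fB k) κ) κ (rotX P.u h)) (Xc κ) (Xx κ)
      rw [eE, ← hE, ← ha]
      exact l1)
    (by
      show LocS R R3 z (endA P κ).f.l lo hi rl sl rr sr _ .fp _ _ _ _ _ κ _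
        (fun h => axM P D.F0 D.Rm (eA κ) (clA (fA k) (fB k) κ) κ (rotX P.u h)) (Xc κ) (Xy κ)
      rw [eE, ← hE, ← ha]
      exact l2)
    (fun y hy => by
      show SaE D.X (dirA (fA k) (fB k) κ) P.u (endA P κ) mn _ _ _ _ _ _ y
      rw [eD, eE]
      exact hy.2.2)
    (fun y hy => by
      obtain ⟨-, tp, s⟩ := hy
      have hX : y.1 ∈ D.X := s.gd
      have hB : y.1 ∈ (D.F0 E a).B .fp := s.e0
      obtain ⟨p1, p2, p3, p4⟩ := hG.pos y.1 hX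
      obtain ⟨a1, a2⟩ := hG.ax E a .fp y.1 hX hB
      have hR0 : 0 < 19500000 * D.ρ := by linarith
      have t1 : y.2.1 ≤ 1 := ((s.pos hR0).le.trans s.t1).trans (muG_mem y.1).2
      have e0 : rotX P.u (rotX P.u⁻¹ y.1) = y.1 := rotX_inv' hP.u _
      have hxf : rotX P.u⁻¹ y.1 ∈ {h | rotX P.u h ∈ D.Xf} := by
        show rotX P.u (rotX P.u⁻¹ y.1) ∈ D.Xf
        rw [e0]
        exact ⟨hX, hG.fr0 E a .fp y.1 hX hB⟩
      have gm := M.gm .fp _ hxf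
      rw [hK.l, hK.m] at gm
      show NatY (dirA (fA k) (fB k) κ) z _ _ y.1 ∧ YFn _ (dirA (fA k) (fB k) κ) P.u (endA P κ) _ _ _ _ _ _ _ _ _ y.1
      rw [eD, eE]
      refine ⟨NatY.of_tip ⟨p1.trans p2, p1, p2, by rw [p3, p4]⟩ tp s.x s.t0 t1 (n2 E), hxf, ?_, ?_, gm⟩
      · show axM P D.F0 D.Rm E a .fp (rotX P.u (rotX P.u⁻¹ y.1)) = _
        rw [e0, ← a2]
        rfl
      · show 0 ≤ axM P D.F0 D.Rm E a .fp (rotX P.u (rotX P.u⁻¹ y.1))
        rw [e0]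
        exact a1.le)
  intro y hy g hgg e' he far
  exact key y hy g (hg k κ hE.symm ha.symm g hgg) e' he far

/-- **the pieces of `S`** (helper86) at all places of the member -/
theorem saH_mo (hP : P.Ok) (hn : NearP z D.ρ D.τ P) (hρ : 0 < D.ρ) (hG : GenO V P D PG) (k : Fin 3) (κ : Arm) {S : Set Pie}
    (hS : S ⊆ blX '' D.SaY P True (eA κ) (clA (fA k) (fB k) κ)) :
    SaH P (fA k) (fB k) (D.G0 k) ((D.H k).rot P.u) κ (19500000 * D.ρ) (D.Xk P k) S := by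
  refine ⟨D.X, True, (D.F0 (eA κ) (clA (fA k) (fB k) κ)).B .fp, saB P.u ((D.F1 (eA κ) (clA (fA k) (fB k) κ)).B .fp),
    fun g => (D.F0 (eA κ) (clA (fA k) (fB k) κ)).x .fp g * muG g, _, _, _, fun _ => trivial, fun y hy => ⟨hy.1, ?_⟩,
    gaY_mo hP hn hρ hG True k κ, hS⟩
  rw [dirA_eA, endA_eA]
  exact hy.2.2

end

end Pool.Agent.ROT.F3E
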