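import Pool.Agent.ROT.F3HLow
import Pool.Agent.ROT.F3LocS
import Pool.Agent.ROT.F3HLocM

/-!
# ROT, F3 (helper64; D59): the hypothesis `hloc` of `low2_md` from the output of the marks

* **`MOut.hloc`** : class 0, from `MOut`, the numbers `HlN` and the outer blocks of the two ends (images of `MDat.SaY`).
-/

set_option autoImplicit false

noncomputable section

open MeasureTheory Filter Topology Set unitInterval
open scoped ENNReal NNReal

namespace Pool.Agent.ROT.F3E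

open Pool.Agent.ROT.F3 Pool.Agent.ROT.F3.CC Pool.Agent.ROT.F3.CK Pool.Agent.ROT.F3.LF Pool.Agent.ROT.F3.LR Pool.Agent.ROT.F3.Bt
open Pool.Agent.ROT.F3.Mk Pool.Agent.ROT.F3.C0K
open Pool.Agent.ROT.F (Nm nm_bd nm_ratio nm_top)

/-- **the locality hypothesis of the share of the class 0** (last hypothesis of `low2_md`, `D := C 0`) -/
theorem MOut.hloc {U : Ultrafilter ℕ} (hU : (U : Filter ℕ) ≤ atTop) {P : Prm} (hP : P.Ok) {β b : Fin 3 → Measure Pie}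
    {t t' : Fin 3 → Pie → ℝ} {C : Fin 3 → Set Pie} {D : MDat} (h : MOut U P β b t t' C D)
    (HL : ClsL (U.map Nm : Ultrafilter ℕ) P β b) {O O' : Ot} {Y Y' : Tp} {V : F3.Wn} (n : HlN P O O' Y Y' V (19500000 * D.ρ))
    {S S' : Set Pie} (hS : S ⊆ blX '' D.SaY P True false 0) (hS' : S' ⊆ blX '' D.SaY P True true 0) {κ κ' : Measure Pie} :
    ∀ Q : Measure MP, IsFiniteMeasure Q → Q.map Prod.fst ≤ β 0 → (∃ u : ℝ, 0 < u ∧ Q.map two = ENNReal.ofReal u • κ.prod κ') →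
      (∀ E : Set MP, IsClosed E → (∀ᶠ M : ℕ in (U.map Nm : Ultrafilter ℕ), ∀ b ∈ OtB (ev 0) O M (uT M),
        ∀ m ∈ Prm.Rs3 Y Y' V M, ∀ b' ∈ OtB (ev 0) O' M (uT M), mk3 M (uT M) (b, m, b') ∈ E) → ∀ᵐ y ∂Q, y ∈ E) →
      ∀ᵐ z ∂Q, (two z).1 ∈ S → (two z).2 ∈ S' → z.1 ∈ C 0 := by
  intro Q _ hQ _ hcl
  have s1 := saH_mo hP h.near h.ρ0 h.gen 0 .fp hS
  have s2 := saH_mo hP h.near h.ρ0 h.gen 0 .bq hS'
  refine hloc_low hP (nm_map_top hU) HL h.ρ0 (h.lc hP) ?_ n s1 s2 hQ hcl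
  filter_upwards [h.gen.aeX] with g hg hw
  exact (h.gen.jh 0 g hg).c0 (jw0_mem hw)

end Pool.Agent.ROT.F3E
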