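import Pool.Agent.ROT.F3LowE
import Pool.Agent.ROT.F3ClsT

/-!
# ROT / F3LowQ (helper89): LOW for the classes `Pai` of F3Cls

* `StQ`, `BlQ` : the start pairs and the blocks of `PaiM`; **`paiQ_iff`, `paiM_append`, `mem_Pai`** : pairs = starts and blocks;
* **`GBk.blQ`** : good blocks with not too many letters are blocks of the class;
* **`lowQ`** : `gam` of the class `Pai` from below at every displacement in the reach (prescribed slopes, weights, any subset of the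
  starts), constants depend on `ρ` and `ζ` only; **`lowQ0`** : slopes 0, all starts, the whole cell `‖z - m S (d - d')‖ ≤ m S / 8`;
* **`gam_tot_le`** : the total weight of the class is at most the weight of the starts.
-/

set_option autoImplicit false

namespace Pool.Agent.ROT.F3

open Finset ComplexConjugate
open scoped ENNReal Classical

lemma ev_ax (i : Fin 3) : ev i = ax i := ev_step i

/-! ### 1. pairs = starts and blocks -/

/-- the start pairs of `PaiM` -/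
structure StQ (d d' : ℂ) (P P' : Tp) (S T : ℝ) (s : W3 × W3) : Prop where
  t1 : TipC d (P.r * S) s.1
  t2 : TipC d' (P'.r * S) s.2
  f1 : FstC d (P.l * S) s.1
  f2 : FstC d' (P'.l * S) s.2
  e1 : EndQ d P.cs (P.e * S) s.1
  e2 : EndQ d' P'.cs (P'.e * S) s.2
  la1 : (s.1.length : ℝ) ≤ P.la * T
  la2 : (s.2.length : ℝ) ≤ P'.la * T
  w2 : ∀ k : ℕ, k ≤ s.2.length → lv d (ps s.2 k) ≤ P.w * S ∨ Kn d' P'.cs (P'.κs * S) (ps s.2 k)
  w1 : ∀ k : ℕ, k ≤ s.1.length → lv d' (ps s.1 k) ≤ P'.w * S ∨ Kn d P.cs (P.κs * S) (ps s.1 k)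
  dj : ∀ j k : ℕ, j ≤ s.1.length → k ≤ s.2.length → ps s.1 j = ps s.2 k → j = 0 ∧ k = 0

/-- the blocks of `PreM` -/
structure BlQ (d : ℂ) (P : Tp) (S T : ℝ) (b : W3) : Prop where
  g : BlkC d (P.r2 * S) b
  f : FstC d (P.m * S) b
  th : ThC d (P.th * P.m * S) b
  s : ConeQ d P.c (P.κ1 * S) b
  lb : (b.length : ℝ) ≤ P.lb * T

theorem paiQ_iff {d d' : ℂ} {P P' : Tp} {S T : ℝ} {a : W3 × W3} {k1 k2 : ℕ} : PaiM d d' P P' S T a k1 k2 ↔
    k1 ≤ a.1.length ∧ k2 ≤ a.2.length ∧ StQ d d' P P' S T (a.1.take k1, a.2.take k2) ∧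
      BlQ d P S T (a.1.drop k1) ∧ BlQ d' P' S T (a.2.drop k2) := by
  constructor
  · intro h
    have l1 := h.p1.g.le
    have l2 := h.p2.g.le
    have t1 : ∀ j, j ≤ k1 → ps (a.1.take k1) j = ps a.1 j := fun j hj => ps_take _ hj l1
    have t2 : ∀ j, j ≤ k2 → ps (a.2.take k2) j = ps a.2 j := fun j hj => ps_take _ hj l2
    have n1 : (a.1.take k1).length = k1 := by rw [List.length_take, min_eq_left l1]
    have n2 : (a.2.take k2).length = k2 := by rw [List.length_take, min_eq_left l2]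
    refine ⟨l1, l2, ⟨h.p1.g.a, h.p2.g.a, h.p1.g.fa, h.p2.g.fa, h.p1.e, h.p2.e, ?_, ?_, fun k hk => ?_, fun k hk => ?_,
      fun j k hj hk he => ?_⟩, ⟨h.p1.g.b, h.p1.g.fb, h.p1.th, h.p1.s, h.p1.lb⟩, ⟨h.p2.g.b, h.p2.g.fb, h.p2.th, h.p2.s, h.p2.lb⟩⟩
    · simp only
      rw [n1]
      exact h.p1.la
    · simp only
      rw [n2]
      exact h.p2.la
    · simp only at hk ⊢
      rw [n2] at hk
      rw [t2 k hk]
      exact h.w2 k hk
    · simp only at hk ⊢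
      rw [n1] at hk
      rw [t1 k hk]
      exact h.w1 k hk
    · simp only at hj hk he
      rw [n1] at hj
      rw [n2] at hk
      rw [t1 j hj, t2 k hk] at he
      exact h.dj j k hj hk he
  · rintro ⟨l1, l2, hs, hb1, hb2⟩
    have t1 : ∀ j, j ≤ k1 → ps (a.1.take k1) j = ps a.1 j := fun j hj => ps_take _ hj l1
    have t2 : ∀ j, j ≤ k2 → ps (a.2.take k2) j = ps a.2 j := fun j hj => ps_take _ hj l2
    have n1 : (a.1.take k1).length = k1 := by rw [List.length_take, min_eq_left l1]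
    have n2 : (a.2.take k2).length = k2 := by rw [List.length_take, min_eq_left l2]
    have la1 := hs.la1
    have la2 := hs.la2
    simp only at la1 la2
    rw [n1] at la1
    rw [n2] at la2
    refine ⟨⟨⟨l1, hs.t1, hs.f1, hb1.g, hb1.f⟩, hb1.th, hs.e1, hb1.s, la1, hb1.lb⟩,
      ⟨⟨l2, hs.t2, hs.f2, hb2.g, hb2.f⟩, hb2.th, hs.e2, hb2.s, la2, hb2.lb⟩, fun k hk => ?_, fun k hk => ?_,
      fun j k hj hk he => ?_⟩
    · have := hs.w2 k (by simp only; rw [n2]; exact hk)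
      simp only at this
      rwa [t2 k hk] at this
    · have := hs.w1 k (by simp only; rw [n1]; exact hk)
      simp only at this
      rwa [t1 k hk] at this
    · refine hs.dj j k (by simp only; rw [n1]; exact hj) (by simp only; rw [n2]; exact hk) ?_
      simp only
      rw [t1 j hj, t2 k hk]
      exact he

/-- the same with the pieces -/
theorem paiM_append {d d' : ℂ} {P P' : Tp} {S T : ℝ} {s : W3 × W3} {b₁ b₂ : W3} (hs : StQ d d' P P' S T s)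
    (h1 : BlQ d P S T b₁) (h2 : BlQ d' P' S T b₂) : PaiM d d' P P' S T (s.1 ++ b₁, s.2 ++ b₂) s.1.length s.2.length := by
  rw [paiQ_iff]
  simp only [List.take_left', List.drop_left', List.length_append]
  exact ⟨by omega, by omega, hs, h1, h2⟩

/-- **the pairs of the class are start pairs with two blocks** -/
theorem mem_Pai {d d' : ℂ} {P P' : Tp} {S T : ℝ} {a : W3 × W3} : a ∈ Pai d d' P P' S T ↔
    ∃ s : W3 × W3, StQ d d' P P' S T s ∧ ∃ b₁ b₂ : W3, BlQ d P S T b₁ ∧ BlQ d' P' S T b₂ ∧ a = (s.1 ++ b₁, s.2 ++ b₂) := by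
  constructor
  · rintro ⟨k1, k2, h⟩
    obtain ⟨h1, h2, hs, hb1, hb2⟩ := paiQ_iff.1 h
    exact ⟨_, hs, _, _, hb1, hb2, by simp only [List.take_append_drop]⟩
  · rintro ⟨s, hs, b₁, b₂, h1, h2, rfl⟩
    exact ⟨_, _, paiM_append hs h1 h2⟩

/-! ### 2. good blocks -/

/-- **good blocks with not too many letters are blocks of the class** -/
theorem GBk.blQ {i : Fin 3} {P : Tp} {S T η s : ℝ} (hP : P.Ok) (hS : 0 < S) {b : W3}
    (h : GBk i ⌈2 * (P.m * S) / 3⌉₊ η s b) (hs : |s| ≤ 3 / 4) (hth : η ≤ 1 - P.th)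
    (hR : (3 / 2 * (1 + 2 * η) * (7 / 4) + η) * ⌈2 * (P.m * S) / 3⌉₊ ≤ P.r2 * S)
    (hκ : η * ⌈2 * (P.m * S) / 3⌉₊ ≤ P.κ1 * S) (hl : (b.length : ℝ) ≤ P.lb * T) : BlQ (ax i) P S T b := by
  have hm : 0 < P.m * S := mul_pos hP.m hS
  obtain ⟨M, hM⟩ : ∃ M : ℕ, M = ⌈2 * (P.m * S) / 3⌉₊ := ⟨_, rfl⟩
  have hM1 : 2 * (P.m * S) / 3 ≤ M := by rw [hM]; exact Nat.le_ceil _
  have hM0 : (0 : ℝ) < M := by linarith
  rw [← hM] at h hR hκ
  have hη : 0 ≤ η := by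
    have := h.eta_nonneg
    by_contra hcon
    rw [not_le] at hcon
    have := mul_neg_of_neg_of_pos hcon hM0
    linarith
  have hs2 : s ^ 2 ≤ 9 / 16 := by
    have h1 := abs_le.1 hs
    nlinarith
  have hball : (3 / 2 * (1 + 2 * η) * (1 + |s|) + η) * M ≤ P.r2 * S := by
    refine le_trans (mul_le_mul_of_nonneg_right ?_ hM0.le) hR
    have : 3 / 2 * (1 + 2 * η) * (1 + |s|) ≤ 3 / 2 * (1 + 2 * η) * (7 / 4) := mul_le_mul_of_nonneg_left (by linarith) (by positivity)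
    linarith
  have hfb := h.fb
  rw [hM] at hfb
  have h1 := (blk_iff hm).2 ⟨hfb, fun k hk => h.ball hball hk⟩
  refine ⟨h1.1, h1.2, ?_, fun k hk => ?_, hl⟩
  · obtain ⟨k, k1, k2, k3, k4, -⟩ := h.cut
    have h2 : P.th * P.m * S ≤ lvi i b k := by
      have h3 : P.th * (P.m * S) ≤ (1 - η) * (P.m * S) := mul_le_mul_of_nonneg_right (by linarith) hm.le
      have h4 : (1 - η) * (P.m * S) ≤ (1 - η) * (3 / 2 * M) :=
        mul_le_mul_of_nonneg_left (by linarith) (by linarith [hP.th])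
      linarith
    refine ⟨k, k1, ?_, k2, k3, h2⟩
    rcases Nat.eq_zero_or_pos k with h0 | h0
    · rw [h0, lvi_start] at h2
      have : 0 < P.th * P.m * S := by
        have := mul_pos (mul_pos hP.th hP.m) hS
        exact this
      linarith
    · exact h0
  · have hc : 0 ≤ P.c := by linarith [hP.c, hP.cs]
    have hc2 : P.c ^ 2 ≤ 16 / 25 := by nlinarith [hP.c1]
    have h2 := h.cone hc (by nlinarith [sq_nonneg s, sq_nonneg P.c]) hk
    unfold Kn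
    rw [← lvi_eq]
    have h3 : P.c * (η * M) ≤ 1 * (η * M) := mul_le_mul_of_nonneg_right (by linarith [hP.c1]) (by positivity)
    linarith

/-! ### 3. LOW -/

/-- **LOW for the class `Pai`**: slopes `σ`, `σ'`, weights `e0 ≤ e`, any set `St` of start pairs of the class; the constants depend
only on `ρ` and `ζ` -/
theorem lowQ {ρ ζ : ℝ} (hρ : 0 < ρ) (hζ : 0 < ζ) : ∃ c A M0 : ℝ, 0 < c ∧ 0 < A ∧ 0 < M0 ∧ ∀ {i j : Fin 3}, i ≠ j →
    ∀ (P P' : Tp) (S T σ σ' : ℝ) (z : ℂ) (C St : Set (W3 × W3)) (e e0 : W3 × W3 → ℝ≥0∞), P.Ok → P'.Ok → P'.m = P.m → 0 < S →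
    M0 ≤ P.m * S → |σ| + 2 * ρ ≤ 3 / 4 → |σ'| + 2 * ρ ≤ 3 / 4 → ζ * P.m ≤ P.κ1 → ζ * P.m ≤ P'.κ1 → P.th ≤ 1 - ζ → P'.th ≤ 1 - ζ →
    A * (P.m * S) ^ (4 / 3 : ℝ) ≤ P.lb * T → A * (P.m * S) ^ (4 / 3 : ℝ) ≤ P'.lb * T →
    z ∈ Lat3 → (∀ a ∈ St, StQ (ax i) (ax j) P P' S T a) → Pai (ax i) (ax j) P P' S T ⊆ C →
    (∀ a ∈ St, ‖z - (en a.1 - en a.2) - ((P.m * S : ℝ) : ℂ) *
      (ax i * (1 - (σ : ℂ) * Complex.I) - ax j * (1 - (σ' : ℂ) * Complex.I))‖ ≤ ρ * (P.m * S)) →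
    (∀ a ∈ St, ∀ b b' : W3, BlQ (ax i) P S T b → BlQ (ax j) P' S T b' →
      ‖en b - ((P.m * S : ℝ) : ℂ) * (ax i * (1 - (σ : ℂ) * Complex.I))‖ ≤ 3 * ρ * (P.m * S) →
      ‖en b' - ((P.m * S : ℝ) : ℂ) * (ax j * (1 - (σ' : ℂ) * Complex.I))‖ ≤ 3 * ρ * (P.m * S) →
      e0 a ≤ e (a.1 ++ b, a.2 ++ b')) →
    ENNReal.ofReal (c / (P.m * S) ^ 2) * (∑' a : W3 × W3, if a ∈ St then wx a.1 * wx a.2 * e0 a else 0) ≤ gam C e z := by
  have p3 : 0 < Real.sqrt 3 := Real.sqrt_pos.2 (by norm_num)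
  have q3 : Real.sqrt 3 * Real.sqrt 3 = 3 := Real.mul_self_sqrt (by norm_num)
  have r3 : (433 / 250 : ℝ) ≤ Real.sqrt 3 := by
    rw [show (433 / 250 : ℝ) = Real.sqrt ((433 / 250) ^ 2) by rw [Real.sqrt_sq (by norm_num)]]
    exact Real.sqrt_le_sqrt (by norm_num)
  have s3 : Real.sqrt 3 ≤ 7 / 4 := Real.sqrt_le_iff.2 ⟨by norm_num, by norm_num⟩
  obtain ⟨η, hη⟩ : ∃ η : ℝ, η = min (min (ρ / 30) (1 / 100)) ζ := ⟨_, rfl⟩
  have η0 : 0 < η := by
    rw [hη]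
    exact lt_min (lt_min (by positivity) (by norm_num)) hζ
  have η1 : η ≤ ρ / 30 := by rw [hη]; exact (min_le_left _ _).trans (min_le_left _ _)
  have η2 : η ≤ 1 / 100 := by rw [hη]; exact (min_le_left _ _).trans (min_le_right _ _)
  have η3 : η ≤ ζ := by rw [hη]; exact min_le_right _ _
  obtain ⟨c, ε, m0, hc, hε, hm0, h⟩ := lowE 2 η0
  obtain ⟨A, hA, hlen⟩ := fbi_len hε
  refine ⟨c, A, 3 * m0 + 40 / η, hc, hA, by positivity,
    fun {i j} hij P P' S T σ σ' z C St e e0 hP hP' hPm hS hM0 hσ hσ' hκ hκ' hth hth' hlb hlb' hz hSt hC hre he => ?_⟩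
  have hm : 0 < P.m * S := mul_pos hP.m hS
  have hρ1 : ρ ≤ 3 / 8 := by linarith [abs_nonneg σ]
  obtain ⟨M, hM⟩ : ∃ M : ℕ, M = ⌈2 * (P.m * S) / 3⌉₊ := ⟨_, rfl⟩
  have hM1 : 2 * (P.m * S) / 3 ≤ M := by rw [hM]; exact Nat.le_ceil _
  have hM2 : (M : ℝ) < 2 * (P.m * S) / 3 + 1 := by rw [hM]; exact Nat.ceil_lt_add_one (by positivity)
  have h40 : 4000 ≤ 40 / η := by
    rw [le_div_iff₀ η0]
    linarith
  have h40' : 40 ≤ η * (P.m * S) := by
    have h1 : 40 / η ≤ P.m * S := by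
      have : (0 : ℝ) ≤ 3 * m0 := by positivity
      linarith
    rw [div_le_iff₀ η0] at h1
    linarith
  have hMm : (M : ℝ) ≤ 67 / 100 * (P.m * S) := by
    have h1 : (0 : ℝ) ≤ 3 * m0 := by positivity
    linarith
  have hM0' : m0 ≤ M := by
    have h1 : (m0 : ℝ) ≤ M := by
      have h1 : (0 : ℝ) ≤ m0 := by positivity
      linarith
    exact_mod_cast h1
  have hM00 : (0 : ℝ) < M := by linarith
  have hMP : M = ⌈2 * (P'.m * S) / 3⌉₊ := by rw [hPm, hM]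
  -- the blocks with many letters
  have hB : ∀ i : Fin 3, (∑' b : W3, if b ∈ Fbi i M ∧ b ∈ {b : W3 | A * (M : ℝ) ^ (4 / 3 : ℝ) < (b.length : ℝ)} then wx b else 0) ≤
      ENNReal.ofReal ε := fun i => by
    refine le_trans (le_of_eq (tsum_congr fun b => ?_)) (hlen i M (by omega))
    by_cases h1 : b ∈ Fbi i M ∧ A * (M : ℝ) ^ (4 / 3 : ℝ) < (b.length : ℝ)
    · rw [if_pos (show b ∈ Fbi i M ∧ b ∈ {b : W3 | A * (M : ℝ) ^ (4 / 3 : ℝ) < (b.length : ℝ)} from h1), if_pos h1]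
    · rw [if_neg (show ¬ (b ∈ Fbi i M ∧ b ∈ {b : W3 | A * (M : ℝ) ^ (4 / 3 : ℝ) < (b.length : ℝ)}) from h1), if_neg h1]
  -- slopes
  have hsl : ∀ s σ : ℝ, Real.sqrt 3 * |s - σ| ≤ 2 * (3 / 2 * ρ + η + 5 * η) → |s - σ| ≤ 2 * ρ := by
    intro s σ h1
    by_contra hcon
    rw [not_le] at hcon
    have h2 : Real.sqrt 3 * (2 * ρ) < Real.sqrt 3 * |s - σ| := mul_lt_mul_of_pos_left hcon p3
    nlinarith
  have hsl2 : ∀ s σ : ℝ, |s - σ| ≤ 2 * ρ → |σ| + 2 * ρ ≤ 3 / 4 → |s| ≤ 3 / 4 := by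
    intro s σ h1 h2
    have h3 : |s| ≤ |s - σ| + |σ| := by
      have := abs_add_le (s - σ) σ
      rwa [sub_add_cancel] at this
    linarith
  have hR2 : ∀ σ : ℝ, |σ| + 2 * ρ ≤ 3 / 4 → Real.sqrt 3 * |σ| + 2 * (3 / 2 * ρ + η + 5 * η) ≤ ((2 : ℕ) : ℝ) := by
    intro σ h1
    have h2 : Real.sqrt 3 * |σ| ≤ 7 / 4 * |σ| := mul_le_mul_of_nonneg_right s3 (abs_nonneg _)
    push_cast
    linarith
  have hnear : ∀ (i : Fin 3) (s σ : ℝ) (b : W3), |s - σ| ≤ 2 * ρ → |s| ≤ 3 / 4 → |σ| ≤ 3 / 4 → GBk i M η s b →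
      ‖en b - ((P.m * S : ℝ) : ℂ) * (ax i * (1 - (σ : ℂ) * Complex.I))‖ ≤ 3 * ρ * (P.m * S) := by
    intro i s σ b h1 h2 h3 g
    have h4 := g.near σ
    have e1 : en b - ((P.m * S : ℝ) : ℂ) * (ax i * (1 - (σ : ℂ) * Complex.I)) =
        (en b - ((3 / 2 * M : ℝ) : ℂ) * (ax i * (1 - (σ : ℂ) * Complex.I))) +
          ((3 / 2 * M - P.m * S : ℝ) : ℂ) * (ax i * (1 - (σ : ℂ) * Complex.I)) := by
      push_cast
      ring
    rw [e1]
    refine (norm_add_le _ _).trans ?_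
    have h5 : ‖((3 / 2 * M - P.m * S : ℝ) : ℂ) * (ax i * (1 - (σ : ℂ) * Complex.I))‖ ≤ 3 / 2 * (7 / 4) := by
      rw [norm_mul, norm_mul, norm_ax, one_mul, norm_slope, Complex.norm_real, Real.norm_of_nonneg (by linarith)]
      exact mul_le_mul (by linarith) ((sqrt_slope_le σ).trans (by linarith)) (Real.sqrt_nonneg _) (by norm_num)
    have h6 : (η + 3 * η * (1 + |s|) + 3 / 2 * |s - σ|) * M ≤ (25 / 4 * η + 3 * ρ) * M := by
      refine mul_le_mul_of_nonneg_right ?_ hM00.le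
      nlinarith
    have h7 : (25 / 4 * η + 3 * ρ) * M ≤ (25 / 4 * η + 3 * ρ) * (67 / 100 * (P.m * S)) :=
      mul_le_mul_of_nonneg_left hMm (by positivity)
    have h8 : η * (P.m * S) ≤ ρ / 30 * (P.m * S) := mul_le_mul_of_nonneg_right η1 hm.le
    nlinarith
  -- the two strands
  have hbl : ∀ (Q : Tp) (i : Fin 3) (s σ : ℝ) (b : W3), Q.Ok → Q.m = P.m → ζ * P.m ≤ Q.κ1 → Q.th ≤ 1 - ζ →
      A * (P.m * S) ^ (4 / 3 : ℝ) ≤ Q.lb * T → |s| ≤ 3 / 4 → GBk i M η s b →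
      b ∉ {b : W3 | A * (M : ℝ) ^ (4 / 3 : ℝ) < (b.length : ℝ)} → BlQ (ax i) Q S T b := by
    intro Q i s σ b hQ hQm hQκ hQth hQl hs g hb
    have hMQ : M = ⌈2 * (Q.m * S) / 3⌉₊ := by rw [hQm, hM]
    have g' := g
    rw [hMQ] at g'
    refine g'.blQ hQ hS hs (by linarith) ?_ ?_ ?_
    · rw [← hMQ]
      have h1 : (3 / 2 * (1 + 2 * η) * (7 / 4) + η) * M ≤ (3 / 2 * (1 + 2 * (1 / 100)) * (7 / 4) + 1 / 100) * (67 / 100 * (P.m * S)) :=
        mul_le_mul (by linarith) hMm hM00.le (by norm_num)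
      have h2 := mul_le_mul_of_nonneg_right hQ.m22 hS.le
      rw [hQm] at h2
      linarith
    · rw [← hMQ]
      have h1 : η * M ≤ ζ * (67 / 100 * (P.m * S)) := mul_le_mul η3 hMm hM00.le hζ.le
      have h2 := mul_le_mul_of_nonneg_right hQκ hS.le
      have h3 : 0 ≤ ζ * (P.m * S) := by positivity
      linarith
    · have h1 : (b.length : ℝ) ≤ A * (M : ℝ) ^ (4 / 3 : ℝ) := not_lt.1 hb
      refine h1.trans (le_trans ?_ hQl)
      refine mul_le_mul_of_nonneg_left (Real.rpow_le_rpow hM00.le (by linarith) (by norm_num)) hA.le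
  have t := h (i := i) (j := j) hij M hM0' (P.l * S) (P'.l * S) (3 / 2 * ρ + η) σ σ' z C St e e0
    {b : W3 | A * (M : ℝ) ^ (4 / 3 : ℝ) < (b.length : ℝ)} {b : W3 | A * (M : ℝ) ^ (4 / 3 : ℝ) < (b.length : ℝ)} hz
    (hR2 σ hσ) (hR2 σ' hσ')
    (by
      refine le_trans (le_of_eq (tsum_congr fun b => ?_)) (hB i)
      congr)
    (by
      refine le_trans (le_of_eq (tsum_congr fun b => ?_)) (hB j)
      congr)
    (fun a ha => ⟨(hSt a ha).t1.ev, (hSt a ha).t2.ev⟩)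
    (fun a ha => ⟨(hSt a ha).t1.left, (hSt a ha).f1⟩) (fun a ha => ⟨(hSt a ha).t2.left, (hSt a ha).f2⟩) (fun a ha => ?_)
    (fun a ha s s' b b' hs hs' g g' hb hb' => ?_)
  · refine le_trans (mul_le_mul_left (ENNReal.ofReal_le_ofReal ?_) _) t
    refine div_le_div_of_nonneg_left hc.le (by positivity) ?_
    have : (M : ℝ) ≤ P.m * S := by linarith
    exact pow_le_pow_left₀ hM00.le this 2
  · have h1 := hre a ha
    have e1 : z - (en a.1 - en a.2) - ((3 / 2 * M : ℝ) : ℂ) *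
        (ax i * (1 - (σ : ℂ) * Complex.I) - ax j * (1 - (σ' : ℂ) * Complex.I)) =
        (z - (en a.1 - en a.2) - ((P.m * S : ℝ) : ℂ) *
          (ax i * (1 - (σ : ℂ) * Complex.I) - ax j * (1 - (σ' : ℂ) * Complex.I))) -
        ((3 / 2 * M - P.m * S : ℝ) : ℂ) * (ax i * (1 - (σ : ℂ) * Complex.I) - ax j * (1 - (σ' : ℂ) * Complex.I)) := by
      push_cast
      ring
    rw [e1]
    refine (norm_sub_le _ _).trans ?_
    have h2 : ‖((3 / 2 * M - P.m * S : ℝ) : ℂ) * (ax i * (1 - (σ : ℂ) * Complex.I) - ax j * (1 - (σ' : ℂ) * Complex.I))‖ ≤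
        3 / 2 * (7 / 4 + 7 / 4) := by
      rw [norm_mul, Complex.norm_real, Real.norm_of_nonneg (by linarith)]
      refine mul_le_mul (by linarith) ((norm_sub_le _ _).trans ?_) (norm_nonneg _) (by norm_num)
      rw [norm_mul, norm_mul, norm_ax, norm_ax, one_mul, one_mul, norm_slope, norm_slope]
      exact add_le_add ((sqrt_slope_le σ).trans (by linarith)) ((sqrt_slope_le σ').trans (by linarith))
    have h3 : ρ * (P.m * S) ≤ ρ * (3 / 2 * M) := mul_le_mul_of_nonneg_left (by linarith) hρ.le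
    have h4 : 2 / 3 * (η * (P.m * S)) ≤ η * M := by
      have := mul_le_mul_of_nonneg_left hM1 η0.le
      linarith
    linarith
  · have u1 := hsl s σ hs
    have u2 := hsl s' σ' hs'
    have v1 := hsl2 s σ u1 hσ
    have v2 := hsl2 s' σ' u2 hσ'
    have b1 := hbl P i s σ b hP rfl hκ hth hlb v1 g hb
    have b2 := hbl P' j s' σ' b' hP' hPm hκ' hth' hlb' v2 g' hb'
    exact ⟨hC (mem_Pai.2 ⟨a, hSt a ha, b, b', b1, b2, rfl⟩), he a ha b b' b1 b2
      (hnear i s σ b u1 v1 (by linarith) g) (hnear j s' σ' b' u2 v2 (by linarith) g')⟩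

/-- **LOW for the class `Pai`, the whole cell**: slopes 0, all the starts, the ball `‖z - m S (d - d')‖ ≤ m S / 8` -/
theorem lowQ0 {ζ : ℝ} (hζ : 0 < ζ) : ∃ c A M0 : ℝ, 0 < c ∧ 0 < A ∧ 0 < M0 ∧ ∀ {i j : Fin 3}, i ≠ j →
    ∀ (P P' : Tp) (S T : ℝ) (z : ℂ) (e e0 : W3 × W3 → ℝ≥0∞), P.Ok → P'.Ok → P'.m = P.m → 0 < S →
    M0 ≤ P.m * S → ζ * P.m ≤ P.κ1 → ζ * P.m ≤ P'.κ1 → P.th ≤ 1 - ζ → P'.th ≤ 1 - ζ →
    A * (P.m * S) ^ (4 / 3 : ℝ) ≤ P.lb * T → A * (P.m * S) ^ (4 / 3 : ℝ) ≤ P'.lb * T →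
    z ∈ Lat3 → ‖z - ((P.m * S : ℝ) : ℂ) * (ax i - ax j)‖ ≤ P.m * S / 8 →
    (∀ (a : W3 × W3) (b b' : W3), StQ (ax i) (ax j) P P' S T a → BlQ (ax i) P S T b → BlQ (ax j) P' S T b' →
      e0 a ≤ e (a.1 ++ b, a.2 ++ b')) →
    ENNReal.ofReal (c / (P.m * S) ^ 2) * (∑' a : W3 × W3, if StQ (ax i) (ax j) P P' S T a then wx a.1 * wx a.2 * e0 a else 0) ≤
      gam (Pai (ax i) (ax j) P P' S T) e z := by
  obtain ⟨c, A, M0, hc, hA, hM0, h⟩ := lowQ (ρ := 3 / 8) (by norm_num) hζ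
  refine ⟨c, A, M0, hc, hA, hM0, fun {i j} hij P P' S T z e e0 hP hP' hPm hS hM hκ hκ' hth hth' hlb hlb' hz hre he => ?_⟩
  have hm : 0 < P.m * S := mul_pos hP.m hS
  have t := h hij P P' S T 0 0 z (Pai (ax i) (ax j) P P' S T) {a | StQ (ax i) (ax j) P P' S T a} e e0 hP hP' hPm hS hM
    (by rw [abs_zero]; norm_num) (by rw [abs_zero]; norm_num) hκ hκ' hth hth' hlb hlb' hz (fun a ha => ha) subset_rfl
    (fun a ha => ?_) (fun a ha b b' hb hb' _ _ => he a b b' ha hb hb')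
  · refine le_trans (mul_le_mul_right (le_of_eq (tsum_congr fun a => ?_)) _) t
    by_cases h1 : StQ (ax i) (ax j) P P' S T a
    · rw [if_pos h1, if_pos (show a ∈ {a | StQ (ax i) (ax j) P P' S T a} from h1)]
    · rw [if_neg h1, if_neg (show a ∉ {a | StQ (ax i) (ax j) P P' S T a} from h1)]
  · have ha' : StQ (ax i) (ax j) P P' S T a := ha
    have h1 : ‖en a.1 - en a.2‖ ≤ P.m * S / 4 := by
      refine (norm_sub_le _ _).trans ?_
      have h2 := norm_en_le ha'.t1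
      have h3 := norm_en_le ha'.t2
      have h4 := mul_le_mul_of_nonneg_right hP.m8 hS.le
      have h5 := mul_le_mul_of_nonneg_right hP'.m8 hS.le
      rw [hPm] at h5
      linarith
    have e1 : z - (en a.1 - en a.2) - ((P.m * S : ℝ) : ℂ) * (ax i * (1 - ((0 : ℝ) : ℂ) * Complex.I) -
        ax j * (1 - ((0 : ℝ) : ℂ) * Complex.I)) = (z - ((P.m * S : ℝ) : ℂ) * (ax i - ax j)) - (en a.1 - en a.2) := by
      push_cast
      ring
    rw [e1]
    refine (norm_sub_le _ _).trans ?_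
    linarith

/-! ### 4. from above -/

/-- **the total weight of the class is at most the weight of the starts** -/
theorem gam_tot_le {i j : Fin 3} {P P' : Tp} {S T : ℝ} {e e0 : W3 × W3 → ℝ≥0∞} (hm : 0 < P.m * S) (hm' : 0 < P'.m * S)
    (he : ∀ (a : W3 × W3) (b b' : W3), StQ (ax i) (ax j) P P' S T a → BlQ (ax i) P S T b → BlQ (ax j) P' S T b' →
      e (a.1 ++ b, a.2 ++ b') ≤ e0 a) :
    (∑' a : W3 × W3, if a ∈ Pai (ax i) (ax j) P P' S T then wx a.1 * wx a.2 * e a else 0) ≤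
      ∑' a : W3 × W3, if StQ (ax i) (ax j) P P' S T a then wx a.1 * wx a.2 * e0 a else 0 := by
  obtain ⟨M, hM⟩ : ∃ M : ℕ, M = ⌈2 * (P.m * S) / 3⌉₊ := ⟨_, rfl⟩
  obtain ⟨M', hM'⟩ : ∃ M' : ℕ, M' = ⌈2 * (P'.m * S) / 3⌉₊ := ⟨_, rfl⟩
  have hM1 : 1 ≤ M := by
    rw [hM]
    exact Nat.one_le_iff_ne_zero.2 (Nat.ceil_pos.2 (by positivity)).ne'
  have hM1' : 1 ≤ M' := by
    rw [hM']
    exact Nat.one_le_iff_ne_zero.2 (Nat.ceil_pos.2 (by positivity)).ne'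
  -- every pair is a start with two blocks
  have h1 : ∀ a : W3 × W3, (if a ∈ Pai (ax i) (ax j) P P' S T then wx a.1 * wx a.2 * e a else 0) ≤
      ∑' s : W3 × W3, ∑' b : W3, ∑' b' : W3, if a = (s.1 ++ b, s.2 ++ b') ∧ StQ (ax i) (ax j) P P' S T s ∧ b ∈ Fbi i M ∧ b' ∈ Fbi j M'
        then wx s.1 * wx s.2 * e0 s * (wx b * wx b') else 0 := by
    intro a
    by_cases ha : a ∈ Pai (ax i) (ax j) P P' S T
    · rw [if_pos ha]
      obtain ⟨s, hs, b, b', hb, hb', rfl⟩ := mem_Pai.1 ha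
      have f1 : b ∈ Fbi i M := by
        rw [hM]
        exact ((blk_iff hm).1 ⟨hb.g, hb.f⟩).1
      have f2 : b' ∈ Fbi j M' := by
        rw [hM']
        exact ((blk_iff hm').1 ⟨hb'.g, hb'.f⟩).1
      refine le_trans ?_ (ENNReal.le_tsum s)
      refine le_trans ?_ (ENNReal.le_tsum b)
      refine le_trans ?_ (ENNReal.le_tsum b')
      rw [if_pos ⟨rfl, hs, f1, f2⟩]
      simp only
      rw [wx_append, wx_append]
      calc wx s.1 * wx b * (wx s.2 * wx b') * e (s.1 ++ b, s.2 ++ b') ≤ wx s.1 * wx b * (wx s.2 * wx b') * e0 s :=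
            mul_le_mul_right (he s b b' hs hb hb') _
        _ = _ := by ring
    · rw [if_neg ha]
      exact zero_le
  refine (ENNReal.tsum_le_tsum h1).trans (le_of_eq ?_)
  rw [ENNReal.tsum_comm]
  refine tsum_congr fun s => ?_
  rw [ENNReal.tsum_comm]
  have h2 : ∀ b : W3, ∑' a : W3 × W3, ∑' b' : W3, (if a = (s.1 ++ b, s.2 ++ b') ∧ StQ (ax i) (ax j) P P' S T s ∧ b ∈ Fbi i M ∧
      b' ∈ Fbi j M' then wx s.1 * wx s.2 * e0 s * (wx b * wx b') else 0) =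
      ∑' b' : W3, if StQ (ax i) (ax j) P P' S T s ∧ b ∈ Fbi i M ∧ b' ∈ Fbi j M' then wx s.1 * wx s.2 * e0 s * (wx b * wx b') else 0 := by
    intro b
    rw [ENNReal.tsum_comm]
    refine tsum_congr fun b' => ?_
    rw [tsum_eq_single (s.1 ++ b, s.2 ++ b') fun a ha => if_neg fun h => ha h.1]
    by_cases h3 : StQ (ax i) (ax j) P P' S T s ∧ b ∈ Fbi i M ∧ b' ∈ Fbi j M'
    · rw [if_pos ⟨rfl, h3⟩, if_pos h3]
    · rw [if_neg fun h => h3 h.2, if_neg h3]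
  rw [tsum_congr h2]
  by_cases hs : StQ (ax i) (ax j) P P' S T s
  · rw [if_pos hs]
    have h3 : ∀ b : W3, ∑' b' : W3, (if StQ (ax i) (ax j) P P' S T s ∧ b ∈ Fbi i M ∧ b' ∈ Fbi j M' then
        wx s.1 * wx s.2 * e0 s * (wx b * wx b') else 0) = wx s.1 * wx s.2 * e0 s * (if b ∈ Fbi i M then wx b else 0) := by
      intro b
      by_cases hb : b ∈ Fbi i M
      · rw [if_pos hb]
        have h4 : ∀ b' : W3, (if StQ (ax i) (ax j) P P' S T s ∧ b ∈ Fbi i M ∧ b' ∈ Fbi j M' then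
            wx s.1 * wx s.2 * e0 s * (wx b * wx b') else 0) = wx s.1 * wx s.2 * e0 s * wx b * (if b' ∈ Fbi j M' then wx b' else 0) := by
          intro b'
          by_cases hb' : b' ∈ Fbi j M'
          · rw [if_pos ⟨hs, hb, hb'⟩, if_pos hb']
            ring
          · rw [if_neg fun h => hb' h.2.2, if_neg hb', mul_zero]
        rw [tsum_congr h4, ENNReal.tsum_mul_left, tsum_ind, mass_Fbi j hM1', mul_one]
      · rw [if_neg hb, mul_zero, ENNReal.tsum_eq_zero]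
        intro b'
        exact if_neg fun h => hb h.2.1
    rw [tsum_congr h3, ENNReal.tsum_mul_left, tsum_ind, mass_Fbi i hM1, mul_one]
  · rw [if_neg hs, ENNReal.tsum_eq_zero]
    intro b
    rw [ENNReal.tsum_eq_zero]
    intro b'
    exact if_neg fun h => hs h.1

end Pool.Agent.ROT.F3
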