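import Pool.Agent.ROT.F3BetaC
import Pool.Agent.ROT.F3LowQ
import Pool.Agent.ROT.F3ClsU

/-!
# ROT / F3BetaO (helper56): masses of pieces behind outer gates

* `ot_le` : the blocks `OtB` (and `FstC` blocks in general) have mass at most `1`;
* `ms_conc` : concatenations; **`conc_up`** : rests `R ++ b.reverse` behind an outer gate have mass at most `C S ^ (3 / 4)`;
* **`three_up`** : the product of the three masses `b`, `R`, `b'`.
-/

set_option autoImplicit false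

open MeasureTheory Filter Topology
open scoped ENNReal NNReal Classical BoundedContinuousFunction

namespace Pool.Agent.ROT.F3.Bt

/-- **blocks have mass at most one** -/
theorem blk_le {i : Fin 3} {r m : ℝ} (hm : 0 < m) {B : Set W3} (hB : ∀ b ∈ B, BlkC (ax i) r b ∧ FstC (ax i) m b) :
    ms B (fun _ => 1) ≤ 1 := by
  have hM : 1 ≤ ⌈2 * m / 3⌉₊ := Nat.one_le_iff_ne_zero.2 (Nat.ceil_pos.2 (by positivity)).ne'
  refine (ms_subset (B := Fbi i ⌈2 * m / 3⌉₊) (fun b hb => ((blk_iff hm).1 (hB b hb)).1) _).trans (le_of_eq ?_)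
  unfold ms
  simp only [mul_one]
  rw [tsum_ind, mass_Fbi i hM]

/-- **the blocks up to an outer gate** -/
theorem ot_le (i : Fin 3) {O : Ot} {S : ℝ} (T : ℝ) (hm : 0 < O.m) (hS : 0 < S) : ms (OtB (ev i) O S T) (fun _ => 1) ≤ 1 := by
  refine blk_le (i := i) (r := O.r * S) (m := O.m * S) (mul_pos hm hS) fun b hb => ?_
  have h : OtM (ev i) O S T b := hb
  rw [← ev_ax]
  exact ⟨h.k, h.f⟩

/-- concatenations (the second piece read backwards) -/
lemma ms_conc (A B : Set W3) (f : W3 → ℝ≥0∞) (hf : ∀ w, f w ≤ 1) :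
    ms {w | ∃ a ∈ A, ∃ b ∈ B, w = a ++ b.reverse} f ≤ ms A (fun _ => 1) * ms B fun _ => 1 := by
  unfold ms
  have h1 : ∀ w : W3, (if w ∈ {w | ∃ a ∈ A, ∃ b ∈ B, w = a ++ b.reverse} then wx w * f w else 0) ≤
      ∑' a : W3, ∑' b : W3, if w = a ++ b.reverse ∧ a ∈ A ∧ b ∈ B then wx a * wx b else 0 := by
    intro w
    by_cases hw : w ∈ {w | ∃ a ∈ A, ∃ b ∈ B, w = a ++ b.reverse}
    · rw [if_pos hw]
      obtain ⟨a, ha, b, hb, rfl⟩ := hw
      refine le_trans ?_ (ENNReal.le_tsum a)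
      refine le_trans ?_ (ENNReal.le_tsum b)
      rw [if_pos ⟨rfl, ha, hb⟩, wx_append]
      have h2 : wx b.reverse = wx b := by
        unfold wx
        rw [List.length_reverse]
      rw [h2]
      calc wx a * wx b * f (a ++ b.reverse) ≤ wx a * wx b * 1 := mul_le_mul_right (hf _) _
        _ = _ := mul_one _
    · rw [if_neg hw]
      exact zero_le
  refine (ENNReal.tsum_le_tsum h1).trans (le_of_eq ?_)
  rw [ENNReal.tsum_comm, ← ENNReal.tsum_mul_right]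
  refine tsum_congr fun a => ?_
  rw [ENNReal.tsum_comm]
  have h3 : ∀ b : W3, ∑' w : W3, (if w = a ++ b.reverse ∧ a ∈ A ∧ b ∈ B then wx a * wx b else 0) =
      if a ∈ A ∧ b ∈ B then wx a * wx b else 0 := by
    intro b
    rw [tsum_eq_single (a ++ b.reverse) fun w hw => if_neg fun h => hw h.1]
    by_cases h4 : a ∈ A ∧ b ∈ B
    · rw [if_pos ⟨rfl, h4⟩, if_pos h4]
    · rw [if_neg fun h => h4 h.2, if_neg h4]
  rw [tsum_congr h3]
  by_cases ha : a ∈ A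
  · rw [if_pos ha, ← ENNReal.tsum_mul_left]
    refine tsum_congr fun b => ?_
    by_cases hb : b ∈ B
    · rw [if_pos ⟨ha, hb⟩, if_pos hb, mul_one, mul_one]
    · rw [if_neg fun h => hb h.2, if_neg hb, mul_zero]
  · rw [if_neg ha, zero_mul]
    exact ENNReal.tsum_eq_zero.2 fun b => if_neg fun h => ha h.1

/-- **rests behind an outer gate** -/
theorem conc_up {P Q : Tp} {W : Wn} {O : Ot} (hP : 0 < P.rg) (hQ : 0 < Q.rg) (hD : 0 < W.D0) (ht : 0 < W.t1) (hm : 0 < O.m) :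
    ∃ C N0 : ℝ, 0 < C ∧ 1 ≤ N0 ∧ ∀ S : ℝ, N0 ≤ S → ∀ (i j k : Fin 3) (T : ℝ) (f : W3 → ℝ≥0∞), (∀ w, f w ≤ 1) →
      ms {w | ∃ R ∈ Rst (ev i) (ev j) P Q W S (S ^ (4 / 3 : ℝ)), ∃ b ∈ OtB (ev k) O S T, w = R ++ b.reverse} f ≤
        ENNReal.ofReal (C * S ^ (3 / 4 : ℝ)) := by
  obtain ⟨C, N0, hC, hN0, h⟩ := rst_up hP hQ hD ht
  refine ⟨C, N0, hC, hN0, fun S hS i j k T f hf => (ms_conc _ _ f hf).trans ?_⟩
  calc _ ≤ ENNReal.ofReal (C * S ^ (3 / 4 : ℝ)) * 1 := mul_le_mul' (h S hS i j) (ot_le k T hm (by linarith))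
    _ = _ := mul_one _

/-- **the product of the three masses** -/
theorem three_up {P Q : Tp} {W : Wn} {O O' : Ot} (hP : 0 < P.rg) (hQ : 0 < Q.rg) (hD : 0 < W.D0) (ht : 0 < W.t1) (hm : 0 < O.m)
    (hm' : 0 < O'.m) : ∃ C N0 : ℝ, 0 < C ∧ 1 ≤ N0 ∧ ∀ S : ℝ, N0 ≤ S → ∀ (i j k k' : Fin 3) (T : ℝ),
      ms (OtB (ev k) O S T) (fun _ => 1) * (ms (Rst (ev i) (ev j) P Q W S (S ^ (4 / 3 : ℝ))) (fun _ => 1) *
        ms (OtB (ev k') O' S T) fun _ => 1) ≤ ENNReal.ofReal (C * S ^ (3 / 4 : ℝ)) := by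
  obtain ⟨C, N0, hC, hN0, h⟩ := rst_up hP hQ hD ht
  refine ⟨C, N0, hC, hN0, fun S hS i j k k' T => ?_⟩
  have h0 : 0 < S := by linarith
  calc _ ≤ 1 * (ENNReal.ofReal (C * S ^ (3 / 4 : ℝ)) * 1) := mul_le_mul' (ot_le k T hm h0) (mul_le_mul' (h S hS i j) (ot_le k' T hm' h0))
    _ = _ := by rw [mul_one, one_mul]

/-- the same in natural units -/
theorem three_cb {P Q : Tp} {W : Wn} {O O' : Ot} (hP : 0 < P.rg) (hQ : 0 < Q.rg) (hD : 0 < W.D0) (ht : 0 < W.t1) (hm : 0 < O.m)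
    (hm' : 0 < O'.m) : ∃ C : ℝ, 0 < C ∧ ∀ᶠ N : ℕ in atTop, ∀ i j k k' : Fin 3,
      cb N * (ms (OtB (ev k) O N (uT N)) (fun _ => 1) * (ms (Rst (ev i) (ev j) P Q W N (uT N)) (fun _ => 1) *
        ms (OtB (ev k') O' N (uT N)) fun _ => 1)) ≤ ENNReal.ofReal C := by
  obtain ⟨C, N0, hC, hN0, h⟩ := three_up hP hQ hD ht hm hm'
  refine ⟨C, hC, ?_⟩
  filter_upwards [(tendsto_natCast_atTop_atTop (R := ℝ)).eventually_ge_atTop N0] with N hN i j k k'
  have h1 := h N hN i j k k' (uT N)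
  have h0 : (0 : ℝ) < N := by linarith
  calc _ ≤ cb N * ENNReal.ofReal (C * (N : ℝ) ^ (3 / 4 : ℝ)) := mul_le_mul_right h1 _
    _ = ENNReal.ofReal C := by
        have := nrm_mul (A := 1) (C := C) zero_le_one h0
        rw [one_mul, one_mul] at this
        rw [cb, this]

end Pool.Agent.ROT.F3.Bt
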