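import Mathlib.MeasureTheory.Measure.HasOuterApproxClosed
import Mathlib.MeasureTheory.Integral.BoundedContinuousFunction
import Mathlib.MeasureTheory.Measure.Regular
import Mathlib.MeasureTheory.Integral.DominatedConvergence

/-!
# ROT, F3, row LOWLIM (helper95): the share of the foreign gates in the limit, soft part

* `tkn` : closed sets from above by continuous functions; `ap_ind` : indicators in `L¹`;
* **`dom_meas`** : an inequality for all continuous functions is an inequality of the measures;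
* **`low2_lim`**, **`low2_abs`** : if the native gates with weights `ψ`, `ψ'` on the two outer blocks have the share `p` for ALL `ψ`, `ψ'` with masses
  above `c1 / 2`, then the rests in `D` have the share `p`, as soon as both blocks in `S`, `S'` (masses at least `c1`) force `D`.
-/

set_option autoImplicit false

open MeasureTheory Filter Topology Set
open scoped ENNReal NNReal BoundedContinuousFunction

namespace Pool.Agent.ROT.F3.LA

section

variable {Y : Type*} [PseudoMetricSpace Y]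

/-- a closed set from above, a continuous function -/
noncomputable def tkn (F : Set Y) (n : ℕ) : Y →ᵇ ℝ :=
  BoundedContinuousFunction.ofNormedAddCommGroup
    (fun y => ((thickenedIndicator (δ := (1 : ℝ) / (n + 1)) Nat.one_div_pos_of_nat F y : ℝ≥0) : ℝ))
    (NNReal.continuous_coe.comp (thickenedIndicator Nat.one_div_pos_of_nat F).continuous) 1 fun y => by
      rw [Real.norm_eq_abs, abs_of_nonneg (NNReal.coe_nonneg _)]
      exact_mod_cast thickenedIndicator_le_one Nat.one_div_pos_of_nat F y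

lemma tkn_apply (F : Set Y) (n : ℕ) (y : Y) :
    tkn F n y = ((thickenedIndicator (δ := (1 : ℝ) / (n + 1)) Nat.one_div_pos_of_nat F y : ℝ≥0) : ℝ) := rfl

lemma tkn_nonneg (F : Set Y) (n : ℕ) (y : Y) : 0 ≤ tkn F n y := by
  rw [tkn_apply]
  exact NNReal.coe_nonneg _

lemma tkn_le_one (F : Set Y) (n : ℕ) (y : Y) : tkn F n y ≤ 1 := by
  rw [tkn_apply]
  exact_mod_cast thickenedIndicator_le_one Nat.one_div_pos_of_nat F y

lemma tkn_one {F : Set Y} {n : ℕ} {y : Y} (hy : y ∈ F) : tkn F n y = 1 := by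
  rw [tkn_apply, thickenedIndicator_one Nat.one_div_pos_of_nat F hy]
  rfl

variable [MeasurableSpace Y] [BorelSpace Y]

lemma tkn_lim {F : Set Y} (hF : IsClosed F) (μ : Measure Y) [IsFiniteMeasure μ] :
    Tendsto (fun n => ∫ y, tkn F n y ∂μ) atTop (𝓝 (μ.real F)) := by
  have h1 : ∫ y, F.indicator (fun _ => (1 : ℝ)) y ∂μ = μ.real F := by
    rw [integral_indicator hF.measurableSet]
    simp
  rw [← h1]
  refine tendsto_integral_of_dominated_convergence (fun _ => 1) (fun n => (tkn F n).continuous.aestronglyMeasurable)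
    (integrable_const _) (fun n => Eventually.of_forall fun y => ?_) (Eventually.of_forall fun y => ?_)
  · rw [Real.norm_eq_abs, abs_of_nonneg (tkn_nonneg _ _ _)]
    exact tkn_le_one _ _ _
  · have h2 := thickenedIndicator_tendsto_indicator_closure (δseq := fun n : ℕ => 1 / ((n : ℝ) + 1))
      (fun n => Nat.one_div_pos_of_nat) tendsto_one_div_add_atTop_nhds_zero_nat F
    rw [hF.closure_eq] at h2
    have h3 := (tendsto_pi_nhds.1 h2) y
    have h4 := (NNReal.continuous_coe.tendsto _).comp h3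
    have e : ((F.indicator (fun _ => (1 : ℝ≥0)) y : ℝ≥0) : ℝ) = F.indicator (fun _ => (1 : ℝ)) y := by
      by_cases hy : y ∈ F
      · rw [indicator_of_mem hy, indicator_of_mem hy]
        rfl
      · rw [indicator_of_notMem hy, indicator_of_notMem hy]
        rfl
    rw [e] at h4
    exact h4

/-- indicators in `L¹` -/
lemma ap_ind (μ : Measure Y) [IsFiniteMeasure μ] {S : Set Y} (hS : MeasurableSet S) {e : ℝ} (he : 0 < e) :
    ∃ ψ : Y →ᵇ ℝ, (∀ y, 0 ≤ ψ y) ∧ (∀ y, ψ y ≤ 1) ∧ ∫ y, |ψ y - S.indicator (fun _ => (1 : ℝ)) y| ∂μ ≤ e := by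
  obtain ⟨F, hFS, hF, h1⟩ := hS.exists_isClosed_sdiff_lt (measure_ne_top μ S) (ε := ENNReal.ofReal (e / 2))
    (ENNReal.ofReal_pos.2 (half_pos he)).ne'
  have h2 : μ.real (S \ F) ≤ e / 2 := ENNReal.toReal_le_of_le_ofReal (half_pos he).le h1.le
  obtain ⟨n, hn⟩ := ((tkn_lim hF μ).eventually_le_const (show μ.real F < μ.real F + e / 2 by linarith)).exists
  refine ⟨tkn F n, tkn_nonneg F n, tkn_le_one F n, ?_⟩
  have i1 : Integrable (fun y => tkn F n y) μ := (tkn F n).integrable μ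
  have i2 : Integrable (F.indicator fun _ => (1 : ℝ)) μ := (integrable_const _).indicator hF.measurableSet
  have i3 : Integrable ((S \ F).indicator fun _ => (1 : ℝ)) μ := (integrable_const _).indicator (hS.diff hF.measurableSet)
  have i4 : Integrable (S.indicator fun _ => (1 : ℝ)) μ := (integrable_const _).indicator hS
  have h3 : ∀ y, |tkn F n y - S.indicator (fun _ => (1 : ℝ)) y| ≤
      (tkn F n y - F.indicator (fun _ => (1 : ℝ)) y) + (S \ F).indicator (fun _ => (1 : ℝ)) y := by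
    intro y
    have a1 := tkn_nonneg F n y
    have a2 := tkn_le_one F n y
    by_cases hy : y ∈ F
    · have hy2 : y ∉ S \ F := fun h => h.2 hy
      rw [indicator_of_mem hy, indicator_of_mem (hFS hy), indicator_of_notMem hy2, tkn_one hy]
      simp
    · by_cases hyS : y ∈ S
      · rw [indicator_of_notMem hy, indicator_of_mem hyS, indicator_of_mem (show y ∈ S \ F from ⟨hyS, hy⟩), abs_le]
        constructor <;> linarith
      · have hy2 : y ∉ S \ F := fun h => hyS h.1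
        rw [indicator_of_notMem hy, indicator_of_notMem hyS, indicator_of_notMem hy2, sub_zero, abs_of_nonneg a1, add_zero]
  have h4 : ∫ y, |tkn F n y - S.indicator (fun _ => (1 : ℝ)) y| ∂μ ≤
      ∫ y, ((tkn F n y - F.indicator (fun _ => (1 : ℝ)) y) + (S \ F).indicator (fun _ => (1 : ℝ)) y) ∂μ :=
    integral_mono (i1.sub i4).abs ((i1.sub i2).add i3) h3
  have h5 : ∫ y, ((tkn F n y - F.indicator (fun _ => (1 : ℝ)) y) + (S \ F).indicator (fun _ => (1 : ℝ)) y) ∂μ =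
      (∫ y, tkn F n y ∂μ - μ.real F) + μ.real (S \ F) := by
    have i12 : Integrable (fun y => tkn F n y - F.indicator (fun _ => (1 : ℝ)) y) μ := i1.sub i2
    rw [integral_add i12 i3, integral_sub i1 i2, integral_indicator hF.measurableSet,
      integral_indicator (hS.diff hF.measurableSet)]
    simp
  rw [h5] at h4
  linarith

/-- the approximation has a large mass -/
lemma ap_mass {q : Measure Y} [IsFiniteMeasure q] {V : Set Y} {φ : Y →ᵇ ℝ} {c e : ℝ} (hV : MeasurableSet V) (hV1 : c ≤ q.real V)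
    (hφ : ∫ y, |φ y - V.indicator (fun _ => (1 : ℝ)) y| ∂q ≤ e) (hec : e < c / 2) : c / 2 < ∫ y, φ y ∂q := by
  have i1 : Integrable (fun y => φ y) q := φ.integrable q
  have i2 : Integrable (V.indicator fun _ => (1 : ℝ)) q := (integrable_const _).indicator hV
  have h1 : ∫ y, (V.indicator (fun _ => (1 : ℝ)) y - φ y) ∂q ≤ ∫ y, |φ y - V.indicator (fun _ => (1 : ℝ)) y| ∂q :=
    integral_mono (i2.sub i1) (i1.sub i2).abs fun y => by
      rw [abs_sub_comm]
      exact le_abs_self _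
  rw [integral_sub i2 i1, integral_indicator hV] at h1
  have h2 : ∫ _y in V, (1 : ℝ) ∂q = q.real V := by simp
  rw [h2] at h1
  linarith

/-- **an inequality for all continuous functions is an inequality of the measures** -/
theorem dom_meas {μ ν : Measure Y} [IsFiniteMeasure μ] [IsFiniteMeasure ν] {C : ℝ} (hC : 0 ≤ C)
    (h : ∀ f : Y →ᵇ ℝ, (∀ y, 0 ≤ f y) → ∫ y, f y ∂μ ≤ C * ∫ y, f y ∂ν) : μ ≤ ENNReal.ofReal C • ν := by
  have h1 : ∀ F : Set Y, IsClosed F → μ.real F ≤ C * ν.real F := fun F hF =>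
    le_of_tendsto_of_tendsto' (tkn_lim hF μ) ((tkn_lim hF ν).const_mul C) fun n => h _ (tkn_nonneg F n)
  refine Measure.le_iff.2 fun A hA => ?_
  rw [hA.measure_eq_iSup_isClosed_of_ne_top (measure_ne_top μ A)]
  refine iSup₂_le fun K hK => iSup_le fun hKc => ?_
  rw [Measure.smul_apply, smul_eq_mul]
  have h2 := h1 K hKc
  calc μ K = ENNReal.ofReal (μ.real K) := (ofReal_measureReal (measure_ne_top μ K)).symm
    _ ≤ ENNReal.ofReal (C * ν.real K) := ENNReal.ofReal_le_ofReal h2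
    _ = ENNReal.ofReal C * ν K := by rw [ENNReal.ofReal_mul hC, ofReal_measureReal (measure_ne_top ν K)]
    _ ≤ ENNReal.ofReal C * ν A := by gcongr

/-- the same for bounded measurable functions -/
lemma dom_int {μ ν : Measure Y} [IsFiniteMeasure μ] [IsFiniteMeasure ν] {C : ℝ} (hC : 0 ≤ C)
    (h : ∀ f : Y →ᵇ ℝ, (∀ y, 0 ≤ f y) → ∫ y, f y ∂μ ≤ C * ∫ y, f y ∂ν) {g : Y → ℝ} (hg : Measurable g) (g0 : ∀ y, 0 ≤ g y)
    (g1 : ∀ y, g y ≤ 1) : ∫ y, g y ∂μ ≤ C * ∫ y, g y ∂ν := by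
  have hi : Integrable g ν := Integrable.of_bound hg.aestronglyMeasurable 1 (Eventually.of_forall fun y => by
    rw [Real.norm_eq_abs, abs_of_nonneg (g0 y)]
    exact g1 y)
  have h1 := integral_mono_measure (dom_meas hC h) (Eventually.of_forall g0) (hi.smul_measure ENNReal.ofReal_ne_top)
  rwa [integral_smul_measure, ENNReal.toReal_ofReal hC, smul_eq_mul] at h1

end

/-- the three errors -/
private lemma pw_le {S : Prop} {S' : Prop} {a a' c g0 g1 g2 : ℝ} (a0 : 0 ≤ a) (a1 : a ≤ 1) (b0 : 0 ≤ a') (b1 : a' ≤ 1) (c0 : 0 ≤ c)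
    (c1 : c ≤ 1) (n0 : 0 ≤ g0) (n1 : 0 ≤ g1) (n2 : 0 ≤ g2) (h0 : S → S' → g0 = c) (h1 : ¬ S → g1 = a) (h2 : ¬ S' → g2 = a') :
    a * a' * c ≤ g0 + (g1 + g2) := by
  have p1 : a * a' ≤ a := mul_le_of_le_one_right a0 b1
  have p2 : a * a' ≤ a' := mul_le_of_le_one_left b0 a1
  have p3 : a * a' * c ≤ a * a' := mul_le_of_le_one_right (mul_nonneg a0 b0) c1
  by_cases hz1 : S
  · by_cases hz2 : S'
    · have p4 : a * a' * c ≤ c := mul_le_of_le_one_left c0 (p1.trans a1)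
      have := h0 hz1 hz2
      linarith
    · have := h2 hz2
      linarith
  · have := h1 hz1
    linarith

/-- bounded measurable functions and a domination of measures -/
lemma int_le {Y : Type*} [MeasurableSpace Y] {q k μ : Measure Y} [IsFiniteMeasure μ] {C : ℝ≥0∞} (hC : C ≠ ∞) (h1 : q ≤ C • k)
    (h2 : k ≤ μ) {g : Y → ℝ} (hg : Measurable g) (g0 : ∀ y, 0 ≤ g y) (g1 : ∀ y, g y ≤ 1) :
    ∫ y, g y ∂q ≤ C.toReal * ∫ y, g y ∂μ := by
  have hi : Integrable g μ := Integrable.of_bound hg.aestronglyMeasurable 1 (Eventually.of_forall fun y => by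
    rw [Real.norm_eq_abs, abs_of_nonneg (g0 y)]
    exact g1 y)
  have h3 : q ≤ C • μ := h1.trans (by gcongr)
  have h4 := integral_mono_measure h3 (Eventually.of_forall g0) (hi.smul_measure hC)
  rwa [integral_smul_measure, smul_eq_mul] at h4

/-- the difference of an approximation and an indicator -/
lemma ap_diff {Y : Type*} [TopologicalSpace Y] [MeasurableSpace Y] [OpensMeasurableSpace Y] {S : Set Y} (mS : MeasurableSet S)
    {ψ : Y →ᵇ ℝ} (a0 : ∀ y, 0 ≤ ψ y) (a1 : ∀ y, ψ y ≤ 1) : ∃ g : Y → ℝ, Measurable g ∧ (∀ y, 0 ≤ g y) ∧ (∀ y, g y ≤ 1) ∧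
      (∀ y, y ∉ S → g y = ψ y) ∧ g = fun y => |ψ y - S.indicator (fun _ => (1 : ℝ)) y| := by
  refine ⟨fun y => |ψ y - S.indicator (fun _ => (1 : ℝ)) y|,
    continuous_abs.measurable.comp (ψ.continuous.measurable.sub (measurable_const.indicator mS)), fun y => abs_nonneg _, fun y => ?_,
    fun y hy => ?_, rfl⟩
  · have b1 := a0 y
    have b2 := a1 y
    show |ψ y - S.indicator (fun _ => (1 : ℝ)) y| ≤ 1
    by_cases hy : y ∈ S
    · rw [indicator_of_mem hy, abs_le]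
      constructor <;> linarith
    · rw [indicator_of_notMem hy, abs_le]
      constructor <;> linarith
  · show |ψ y - S.indicator (fun _ => (1 : ℝ)) y| = _
    rw [indicator_of_notMem hy, sub_zero, abs_of_nonneg (a0 y)]

/-- **the share of the foreign gates in the limit**, limit form -/
theorem low2_lim {X Y Y' Z : Type*} [TopologicalSpace X] [MeasurableSpace X] [OpensMeasurableSpace X] [PseudoMetricSpace Y]
    [MeasurableSpace Y] [BorelSpace Y] [PseudoMetricSpace Y'] [MeasurableSpace Y'] [BorelSpace Y'] [MeasurableSpace Z]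
    {P : Measure Z} [IsFiniteMeasure P] {m : Measure X} [IsFiniteMeasure m] {k μ : Measure Y} [IsFiniteMeasure μ] {k' μ' : Measure Y'}
    [IsFiniteMeasure μ'] {pr : Z → X} {pb : Z → Y} {pb' : Z → Y'} (cr : Measurable pr) (cb : Measurable pb) (cb' : Measurable pb')
    {C : ℝ≥0∞} (hC : C ≠ ∞) (marg : P.map pr ≤ m) (dom : P.map pb ≤ C • k) (dom' : P.map pb' ≤ C • k') (hk : k ≤ μ) (hk' : k' ≤ μ')
    {ct : X →ᵇ ℝ} (ct0 : ∀ x, 0 ≤ ct x) (ct1 : ∀ x, ct x ≤ 1) {p e0 : ℝ} (he0 : 0 < e0) {S : Set Y} {S' : Set Y'} {D : Set X}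
    (mS : MeasurableSet S) (mS' : MeasurableSet S') (mD : MeasurableSet D)
    (low : ∀ (ψ : Y →ᵇ ℝ) (ψ' : Y' →ᵇ ℝ), (∀ y, 0 ≤ ψ y) → (∀ y, ψ y ≤ 1) → (∀ y, 0 ≤ ψ' y) → (∀ y, ψ' y ≤ 1) →
      ∫ y, |ψ y - S.indicator (fun _ => (1 : ℝ)) y| ∂μ ≤ e0 → ∫ y, |ψ' y - S'.indicator (fun _ => (1 : ℝ)) y| ∂μ' ≤ e0 →
        p * ∫ x, ct x ∂m ≤ ∫ z, ψ (pb z) * ψ' (pb' z) * ct (pr z) ∂P)
    (loc : ∀ᵐ z ∂P, pb z ∈ S → pb' z ∈ S' → pr z ∈ D) : p * ∫ x, ct x ∂m ≤ ∫ x in D, ct x ∂m := by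
  -- one approximation
  have key : ∀ e : ℝ, 0 < e → e ≤ e0 → p * ∫ x, ct x ∂m ≤ ∫ x in D, ct x ∂m + 2 * C.toReal * e := by
    intro e he hee
    obtain ⟨ψ, a0, a1, a2⟩ := ap_ind μ mS he
    obtain ⟨ψ', a0', a1', a2'⟩ := ap_ind μ' mS' he
    have h1 := low ψ ψ' a0 a1 a0' a1' (a2.trans hee) (a2'.trans hee)
    obtain ⟨g1, m1, n1, o1, v1, w1⟩ := ap_diff mS a0 a1
    obtain ⟨g2, m2, n2, o2, v2, w2⟩ := ap_diff mS' a0' a1'
    obtain ⟨g0, hg0⟩ : ∃ g0 : X → ℝ, g0 = D.indicator fun x => ct x := ⟨_, rfl⟩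
    have m0 : Measurable g0 := by
      rw [hg0]
      exact ct.continuous.measurable.indicator mD
    have n0 : ∀ x, 0 ≤ g0 x := fun x => by
      rw [hg0]
      exact indicator_nonneg (fun x _ => ct0 x) x
    have o0 : ∀ x, g0 x ≤ 1 := fun x => by
      rw [hg0]
      by_cases hx : x ∈ D
      · rw [indicator_of_mem hx]
        exact ct1 x
      · rw [indicator_of_notMem hx]
        exact zero_le_one
    have h3 : ∀ᵐ z ∂P, ψ (pb z) * ψ' (pb' z) * ct (pr z) ≤ g0 (pr z) + (g1 (pb z) + g2 (pb' z)) := by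
      filter_upwards [loc] with z hz
      exact pw_le (S := pb z ∈ S) (S' := pb' z ∈ S') (a0 _) (a1 _) (a0' _) (a1' _) (ct0 _) (ct1 _) (n0 _) (n1 _) (n2 _)
        (fun z1 z2 => by
          rw [hg0]
          exact indicator_of_mem (hz z1 z2) _) (v1 _) (v2 _)
    have bd : ∀ {f : Z → ℝ}, Measurable f → (∀ z, 0 ≤ f z) → (∀ z, f z ≤ 1) → Integrable f P := fun {f} hf f0 f1 =>
      Integrable.of_bound hf.aestronglyMeasurable 1 (Eventually.of_forall fun z => by
        rw [Real.norm_eq_abs, abs_of_nonneg (f0 z)]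
        exact f1 z)
    have i0 : Integrable (fun z => g0 (pr z)) P := bd (m0.comp cr) (fun z => n0 (pr z)) fun z => o0 (pr z)
    have i1 : Integrable (fun z => g1 (pb z)) P := bd (m1.comp cb) (fun z => n1 (pb z)) fun z => o1 (pb z)
    have i2 : Integrable (fun z => g2 (pb' z)) P := bd (m2.comp cb') (fun z => n2 (pb' z)) fun z => o2 (pb' z)
    have i12 : Integrable (fun z => g1 (pb z) + g2 (pb' z)) P := i1.add i2
    have i3 : Integrable (fun z => ψ (pb z) * ψ' (pb' z) * ct (pr z)) P := by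
      refine bd (((ψ.continuous.measurable.comp cb).mul (ψ'.continuous.measurable.comp cb')).mul (ct.continuous.measurable.comp cr))
        (fun z => mul_nonneg (mul_nonneg (a0 _) (a0' _)) (ct0 _)) fun z => ?_
      exact mul_le_one₀ (mul_le_one₀ (a1 _) (a0' _) (a1' _)) (ct0 _) (ct1 _)
    have h4 : ∫ z, ψ (pb z) * ψ' (pb' z) * ct (pr z) ∂P ≤ ∫ z, (g0 (pr z) + (g1 (pb z) + g2 (pb' z))) ∂P :=
      integral_mono_ae i3 (i0.add i12) h3
    have h5 : ∫ z, (g0 (pr z) + (g1 (pb z) + g2 (pb' z))) ∂P =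
        ∫ z, g0 (pr z) ∂P + (∫ z, g1 (pb z) ∂P + ∫ z, g2 (pb' z) ∂P) := by
      rw [integral_add i0 i12, integral_add i1 i2]
    have e0' : ∫ z, g0 (pr z) ∂P = ∫ x, g0 x ∂(P.map pr) := (integral_map cr.aemeasurable m0.aestronglyMeasurable).symm
    have e1 : ∫ z, g1 (pb z) ∂P = ∫ x, g1 x ∂(P.map pb) := (integral_map cb.aemeasurable m1.aestronglyMeasurable).symm
    have e2 : ∫ z, g2 (pb' z) ∂P = ∫ x, g2 x ∂(P.map pb') := (integral_map cb'.aemeasurable m2.aestronglyMeasurable).symm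
    have marg' : P.map pr ≤ (1 : ℝ≥0∞) • m := by rwa [one_smul]
    have h6 := int_le ENNReal.one_ne_top marg' (le_refl m) m0 n0 o0
    have h7 := int_le hC dom hk m1 n1 o1
    have h8 := int_le hC dom' hk' m2 n2 o2
    have h9 : ∫ x, g0 x ∂m = ∫ x in D, ct x ∂m := by
      rw [hg0]
      exact integral_indicator mD
    rw [ENNReal.toReal_one, one_mul, h9] at h6
    have h10 : C.toReal * ∫ y, g1 y ∂μ ≤ C.toReal * e := mul_le_mul_of_nonneg_left (by rw [w1]; exact a2) ENNReal.toReal_nonneg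
    have h11 : C.toReal * ∫ y, g2 y ∂μ' ≤ C.toReal * e := mul_le_mul_of_nonneg_left (by rw [w2]; exact a2') ENNReal.toReal_nonneg
    linarith
  -- all approximations
  have hC0 : 0 ≤ C.toReal := ENNReal.toReal_nonneg
  refine le_of_forall_pos_le_add fun δ hδ => ?_
  obtain ⟨e, he⟩ : ∃ e : ℝ, e = min e0 (δ / (2 * C.toReal + 1)) := ⟨_, rfl⟩
  have he0 : 0 < e := by
    rw [he]
    positivity
  have he1 : e ≤ e0 := by
    rw [he]
    exact min_le_left _ _
  have he2 : e ≤ δ / (2 * C.toReal + 1) := by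
    rw [he]
    exact min_le_right _ _
  rw [le_div_iff₀ (by positivity)] at he2
  have := key e he0 he1
  linarith

/-- **the share of the foreign gates in the limit**, from the sequences -/
theorem low2_abs {ι : Type*} {U : Filter ι} [U.NeBot] {X Y Y' Z : Type*} [PseudoMetricSpace X] [MeasurableSpace X] [BorelSpace X]
    [PseudoMetricSpace Y] [MeasurableSpace Y] [BorelSpace Y] [PseudoMetricSpace Y'] [MeasurableSpace Y'] [BorelSpace Y']
    [TopologicalSpace Z] [MeasurableSpace Z] [OpensMeasurableSpace Z] {mN : ι → Measure X} {m : Measure X} [IsFiniteMeasure m]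
    {bN : ι → Measure Z} {b : Measure Z} [IsFiniteMeasure b] {kN : ι → Measure Y} {k : Measure Y} [IsFiniteMeasure k]
    {kN' : ι → Measure Y'} {k' : Measure Y'} [IsFiniteMeasure k'] {pr : Z → X} {pb : Z → Y} {pb' : Z → Y'} (cr : Continuous pr)
    (cb : Continuous pb) (cb' : Continuous pb')
    (hm : ∀ g : X →ᵇ ℝ, Tendsto (fun i => ∫ x, g x ∂(mN i)) U (𝓝 (∫ x, g x ∂m)))
    (hb : ∀ g : Z →ᵇ ℝ, Tendsto (fun i => ∫ x, g x ∂(bN i)) U (𝓝 (∫ x, g x ∂b)))
    (hk : ∀ g : Y →ᵇ ℝ, Tendsto (fun i => ∫ x, g x ∂(kN i)) U (𝓝 (∫ x, g x ∂k)))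
    (hk' : ∀ g : Y' →ᵇ ℝ, Tendsto (fun i => ∫ x, g x ∂(kN' i)) U (𝓝 (∫ x, g x ∂k'))) {ct : X →ᵇ ℝ} (ct0 : ∀ x, 0 ≤ ct x)
    (ct1 : ∀ x, ct x ≤ 1) {C p c1 : ℝ} (hC : 0 ≤ C) (hc1 : 0 < c1)
    (marg : ∀ᶠ i in U, ∀ g : X →ᵇ ℝ, (∀ x, 0 ≤ g x) → ∫ z, g (pr z) ∂(bN i) ≤ ∫ x, g x ∂(mN i))
    (dom : ∀ᶠ i in U, ∀ f : Y →ᵇ ℝ, (∀ y, 0 ≤ f y) → ∫ z, f (pb z) ∂(bN i) ≤ C * ∫ y, f y ∂(kN i))
    (dom' : ∀ᶠ i in U, ∀ f : Y' →ᵇ ℝ, (∀ y, 0 ≤ f y) → ∫ z, f (pb' z) ∂(bN i) ≤ C * ∫ y, f y ∂(kN' i))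
    (low : ∀ (ψ : Y →ᵇ ℝ) (ψ' : Y' →ᵇ ℝ), (∀ y, 0 ≤ ψ y) → (∀ y, ψ y ≤ 1) → (∀ y, 0 ≤ ψ' y) → (∀ y, ψ' y ≤ 1) →
      c1 / 2 < ∫ y, ψ y ∂k → c1 / 2 < ∫ y, ψ' y ∂k' →
        ∀ᶠ i in U, p * ∫ x, ct x ∂(mN i) ≤ ∫ z, ψ (pb z) * ψ' (pb' z) * ct (pr z) ∂(bN i))
    {S : Set Y} {S' : Set Y'} {D : Set X} (mS : MeasurableSet S) (mS' : MeasurableSet S') (mD : MeasurableSet D)
    (hS : c1 ≤ k.real S) (hS' : c1 ≤ k'.real S') (loc : ∀ᵐ z ∂b, pb z ∈ S → pb' z ∈ S' → pr z ∈ D) :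
    p * ∫ x, ct x ∂m ≤ ∫ x in D, ct x ∂m := by
  -- the inequalities in the limit
  have d0 : b.map pr ≤ ENNReal.ofReal 1 • m := dom_meas zero_le_one fun g hg => by
    rw [integral_map cr.measurable.aemeasurable g.continuous.measurable.aestronglyMeasurable, one_mul]
    exact le_of_tendsto_of_tendsto (hb (g.compContinuous ⟨pr, cr⟩)) (hm g) (marg.mono fun i hi => hi g hg)
  have d1 : b.map pb ≤ ENNReal.ofReal C • k := dom_meas hC fun f hf => by
    rw [integral_map cb.measurable.aemeasurable f.continuous.measurable.aestronglyMeasurable]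
    exact le_of_tendsto_of_tendsto (hb (f.compContinuous ⟨pb, cb⟩)) ((hk f).const_mul C) (dom.mono fun i hi => hi f hf)
  have d1' : b.map pb' ≤ ENNReal.ofReal C • k' := dom_meas hC fun f hf => by
    rw [integral_map cb'.measurable.aemeasurable f.continuous.measurable.aestronglyMeasurable]
    exact le_of_tendsto_of_tendsto (hb (f.compContinuous ⟨pb', cb'⟩)) ((hk' f).const_mul C) (dom'.mono fun i hi => hi f hf)
  rw [ENNReal.ofReal_one, one_smul] at d0
  refine low2_lim cr.measurable cb.measurable cb'.measurable ENNReal.ofReal_ne_top d0 d1 d1' le_rfl le_rfl ct0 ct1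
    (show 0 < c1 / 4 by positivity) mS mS' mD (fun ψ ψ' a0 a1 a0' a1' a2 a2' => ?_) loc
  have h1 := low ψ ψ' a0 a1 a0' a1' (ap_mass mS hS a2 (by linarith)) (ap_mass mS' hS' a2' (by linarith))
  exact le_of_tendsto_of_tendsto ((hm ct).const_mul p)
    (hb (ψ.compContinuous ⟨pb, cb⟩ * ψ'.compContinuous ⟨pb', cb'⟩ * ct.compContinuous ⟨pr, cr⟩)) h1

end Pool.Agent.ROT.F3.LA
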