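import Pool.Agent.ROT.F3Top
import Pool.Agent.CRT.Mass

/-!
# ROT, F3 (B) (helper12): rests with a duration near 1 have a positive mass

* `all_win` : all numbers of walks up to `L N` against those of the window;
* `SG_le` : the gated sum without functional is at most the number of walks; `tot_le` : the total gated sum;
* **`pos_of`** : the field `pos` of `TopD` from `low1` and a lower bound of the mass of the rests.
-/

set_option autoImplicit false

open MeasureTheory Filter Topology Finset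
open scoped ENNReal NNReal BoundedContinuousFunction

namespace Pool.Agent.ROT.F3E

open Pool.Agent.NTS.Res Pool.Agent.CRT Pool.Agent.ROT.F3

/-- all numbers of walks with at most `L N` steps against those of the window -/
theorem all_win {L : ℝ} (hL : 1 ≤ L) {th : ℝ} (hth : 0 < th) (h8 : th ≤ 1 / 8) : ∃ C : ℝ, 0 < C ∧ ∀ᶠ N : ℕ in atTop,
    ∑ n ∈ range (⌊L * N⌋₊ + 1), aN n ≤ C * ∑ n ∈ Wn N (2 * th), aN n := by
  obtain ⟨c, C, hc, hC, h⟩ := _root_.CRT.Mass.aN_bounds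
  refine ⟨(1 + L * (C * L ^ (11 / 32 : ℝ))) / (2 * th * c), by positivity, ?_⟩
  filter_upwards [eventually_ge_atTop 1] with N hN
  have hN1 : (1 : ℝ) ≤ N := by exact_mod_cast hN
  have hN0 : (0 : ℝ) < N := by linarith
  have hLN : 1 ≤ L * N := by nlinarith
  have hp1 : (1 : ℝ) ≤ (N : ℝ) ^ (11 / 32 : ℝ) := Real.one_le_rpow hN1 (by norm_num)
  have hNN : (N : ℝ) ≤ N * (N : ℝ) ^ (11 / 32 : ℝ) := by nlinarith
  -- the upper bound
  have h1 : ∑ n ∈ range (⌊L * N⌋₊ + 1), aN n ≤ 1 + L * N * (C * (L * N) ^ (11 / 32 : ℝ)) := by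
    rw [sum_range_succ']
    have h0 : aN 0 ≤ 1 := by
      unfold aN
      rw [pow_zero, mul_one]
      have h1 := Finset.card_le_univ (saw 0)
      rw [Fintype.card_fun, Fintype.card_fin, Fintype.card_fin, pow_zero] at h1
      exact_mod_cast h1
    have h2 : ∀ n ∈ range ⌊L * N⌋₊, aN (n + 1) ≤ C * (L * N) ^ (11 / 32 : ℝ) := by
      intro n hn
      refine (h (n + 1) (by omega)).2.trans (mul_le_mul_of_nonneg_left ?_ hC.le)
      refine Real.rpow_le_rpow (Nat.cast_nonneg _) ?_ (by norm_num)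
      have : n + 1 ≤ ⌊L * N⌋₊ := by
        have := mem_range.1 hn
        omega
      exact (Nat.le_floor_iff (by linarith)).1 this
    have h3 := sum_le_sum h2
    rw [sum_const, card_range, nsmul_eq_mul] at h3
    have h4 : (⌊L * N⌋₊ : ℝ) ≤ L * N := Nat.floor_le (by linarith)
    have h5 : 0 ≤ C * (L * N) ^ (11 / 32 : ℝ) := by positivity
    have h6 := mul_le_mul_of_nonneg_right h4 h5
    linarith
  -- the lower bound
  have h2 : 2 * th * N * (c * (N : ℝ) ^ (11 / 32 : ℝ)) ≤ ∑ n ∈ Wn N (2 * th), aN n := by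
    have hsub : Finset.Icc N (N + ⌊2 * th * N⌋₊) ⊆ Wn N (2 * th) := by
      intro n hn
      rw [Finset.mem_Icc] at hn
      rw [Wn_iff hN (by linarith)]
      have h4 : (⌊2 * th * N⌋₊ : ℝ) ≤ 2 * th * N := Nat.floor_le (by positivity)
      have h5 : (N : ℝ) ≤ n := by exact_mod_cast hn.1
      have h6 : (n : ℝ) ≤ N + ⌊2 * th * N⌋₊ := by exact_mod_cast hn.2
      constructor
      · nlinarith
      · linarith
    refine le_trans ?_ (sum_le_sum_of_subset_of_nonneg hsub fun n _ _ => aN_nonneg n)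
    have h3 : ∀ n ∈ Finset.Icc N (N + ⌊2 * th * N⌋₊), c * (N : ℝ) ^ (11 / 32 : ℝ) ≤ aN n := by
      intro n hn
      rw [Finset.mem_Icc] at hn
      refine le_trans (mul_le_mul_of_nonneg_left ?_ hc.le) (h n (by omega)).1
      exact Real.rpow_le_rpow hN0.le (by exact_mod_cast hn.1) (by norm_num)
    have h4 := sum_le_sum h3
    rw [sum_const, nsmul_eq_mul, Nat.card_Icc] at h4
    refine le_trans (mul_le_mul_of_nonneg_right ?_ (by positivity)) h4
    have h5 := (Nat.lt_floor_add_one (2 * th * N)).le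
    have h6 : ((N + ⌊2 * th * N⌋₊ + 1 - N : ℕ) : ℝ) = ⌊2 * th * N⌋₊ + 1 := by
      have : N + ⌊2 * th * N⌋₊ + 1 - N = ⌊2 * th * N⌋₊ + 1 := by omega
      rw [this]
      push_cast
      rfl
    rw [h6]
    exact h5
  have h7 : (L * N) ^ (11 / 32 : ℝ) = L ^ (11 / 32 : ℝ) * (N : ℝ) ^ (11 / 32 : ℝ) :=
    Real.mul_rpow (by linarith) hN0.le
  rw [h7] at h1
  refine h1.trans ?_
  have h8 := mul_le_mul_of_nonneg_left h2 (show 0 ≤ (1 + L * (C * L ^ (11 / 32 : ℝ))) / (2 * th * c) by positivity)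
  refine le_trans ?_ h8
  have e1 : (1 + L * (C * L ^ (11 / 32 : ℝ))) / (2 * th * c) * (2 * th * N * (c * (N : ℝ) ^ (11 / 32 : ℝ))) =
      (1 + L * (C * L ^ (11 / 32 : ℝ))) * (N * (N : ℝ) ^ (11 / 32 : ℝ)) := by
    field_simp
  rw [e1]
  nlinarith

/-- the gated sum without functional -/
lemma SG_le {G : W3 → ℕ → ℕ → ℝ} {N : ℕ} (hG : ∀ w, SW w → Gam G w ≤ 1) (n : ℕ) : SG G N (fun _ _ => 1) n ≤ aN n := by
  unfold SG aN
  rw [mul_comm (((saw n).card : ℕ) : ℝ)]
  refine mul_le_mul_of_nonneg_left ?_ (fug_nn n)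
  have h : ∀ s ∈ saw n, ∑ i ∈ range (n + 1), ∑ j ∈ range (n + 1), G (List.ofFn s) i j * 1 ≤ 1 := by
    intro s hs
    have h1 := hG _ (SW_ofFn s |>.2 hs)
    unfold Gam at h1
    rw [List.length_ofFn] at h1
    simpa using h1
  have h2 := sum_le_sum h
  rw [sum_const, nsmul_eq_mul, mul_one] at h2
  exact h2

/-- no walks with more than `L N` steps -/
lemma SG_zero {C : WCls} {N M : ℕ} {ψ : CI3 × ℝ → ℝ} {L : ℝ} (hL : ∀ a ∈ C.T, ∀ R ∈ C.Rs, ∀ b ∈ C.T',
    ((a.length : ℝ) + R.length + b.length) ≤ L) {n : ℕ} (hn : ⌊L⌋₊ < n) {H : CI → ℝ → ℝ} : SG (C.G M ψ) N H n = 0 := by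
  unfold SG
  have h : ∀ s ∈ saw n, ∑ i ∈ range (n + 1), ∑ j ∈ range (n + 1),
      C.G M ψ (List.ofFn s) i j * H (crv ((List.ofFn s).drop i) (j - i) (size N)) (((j - i : ℕ) : ℝ) / N) = 0 := by
    intro s _
    refine sum_eq_zero fun i _ => sum_eq_zero fun j _ => ?_
    have h0 : C.G M ψ (List.ofFn s) i j = 0 := by
      unfold WCls.G gG
      refine if_neg ?_
      rintro ⟨⟨h1, h2⟩, h3, h4, h5⟩
      have h6 := hL _ h3 _ h4 _ h5
      rw [List.length_ofFn] at h2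
      have h7 : ((List.ofFn s).take i).length + (seg (List.ofFn s) i j).length + ((List.ofFn s).drop j).reverse.length = n := by
        rw [seg_lenW _ (by rw [List.length_ofFn]; exact h2), List.length_reverse, List.length_drop, List.length_take,
          List.length_ofFn]
        omega
      have h8 : (n : ℝ) ≤ L := by
        rw [← h7]
        push_cast
        exact h6
      exact absurd (Nat.le_floor h8) (by omega)
    rw [h0, zero_mul]
  rw [sum_eq_zero h, mul_zero]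

/-- the total gated sum -/
lemma tot_le (C : WCls) {N : ℕ} {c : ℝ≥0∞} (c0 : c ≠ 0) (c1 : c ≠ ∞) {L : ℝ} (hL0 : 0 ≤ L) (hL : ∀ a ∈ C.T, ∀ R ∈ C.Rs, ∀ b ∈ C.T',
    ((a.length : ℝ) + R.length + b.length) ≤ L * N) (one : ∀ w, SW w → Gam (C.G N fun _ => 1) w ≤ 1) :
    (ms C.T fun a => ENNReal.ofReal (C.f a)).toReal * (ms C.T' fun a => ENNReal.ofReal (C.f' a)).toReal / c.toReal *
      (C.rm N c).real Set.univ ≤ ∑ n ∈ range (⌊L * N⌋₊ + 1), aN n := by
  have := C.fin N c1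
  obtain ⟨s1, e1⟩ := tsum_SG C.cl C.nf C.nw C.nf' (ψ := fun _ => 1) (fun _ => zero_le_one) (C := 1) measurable_const
    (fun _ => le_rfl) C.fT C.fR C.fT' N c0 c1 (H := fun _ _ => 1) (fun _ _ => zero_le_one) (fun _ _ => one_le_two)
    measurable_const
  have e2 : ∫ x, (1 : ℝ) * 1 ∂(F3.rm c (size N) N C.Rs C.w) = (C.rm N c).real Set.univ := by
    rw [mul_one, integral_const, smul_eq_mul, mul_one]
    rfl
  rw [e2] at e1
  have hz : ∀ n ∉ range (⌊L * N⌋₊ + 1), SG (gG C.T C.Rs C.T' C.f (fun R => C.w R * 1) C.f') N (fun _ _ => 1) n = 0 := by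
    intro n hn
    have := SG_zero (C := C) (N := N) (M := N) (ψ := fun _ => 1) hL (n := n) (by
      rw [mem_range] at hn
      omega) (H := fun _ _ => 1)
    exact this
  have hl : ∀ n, SG (gG C.T C.Rs C.T' C.f (fun R => C.w R * 1) C.f') N (fun _ _ => 1) n ≤ aN n := fun n => by
    have := SG_le (G := C.G N fun _ => 1) (N := N) one n
    exact this
  rw [← e1, tsum_eq_sum (s := range (⌊L * N⌋₊ + 1)) hz]
  exact sum_le_sum fun n _ => hl n

/-- **rests with a duration near 1 have a positive mass** -/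
theorem pos_of {C : ℕ → WCls} {c : ℕ → ℝ≥0∞} (c0 : ∀ N, c N ≠ 0) (c1 : ∀ N, c N ≠ ∞) {U : Filter ℕ} [U.NeBot]
    (hU : U ≤ atTop) {m : Measure (CI3 × ℝ)}
    (hm : ∀ g : (CI3 × ℝ) →ᵇ ℝ, Tendsto (fun N => ∫ x, g x ∂((C N).rm N (c N))) U (𝓝 (∫ x, g x ∂m)))
    {p1 th : ℝ} (hp1 : 0 < p1) (hth : 0 < th) (h8 : th ≤ 1 / 8)
    (low1 : ∀ᶠ N in U, p1 * ∑ n ∈ Wn N (2 * th), aN n ≤ SS ((C N).G N fun _ => 1) N th (fun _ => 1))
    {q : ℝ} (hq : 0 < q) (mass : ∀ᶠ N in U, q ≤ ((C N).rm N (c N)).real Set.univ)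
    {L : ℝ} (len : ∀ᶠ N in U, ∀ a ∈ (C N).T, ∀ R ∈ (C N).Rs, ∀ b ∈ (C N).T',
      ((a.length : ℝ) + R.length + b.length) ≤ L * N)
    (one : ∀ᶠ N in U, ∀ w, SW w → Gam ((C N).G N fun _ => 1) w ≤ 1) : 0 < ∫ r, ct th r.2 ∂m := by
  obtain ⟨K, hK, hall⟩ := all_win (L := max L 1) (le_max_right _ _) hth h8
  have t1 : Tendsto (fun N => ∫ x, hct th x ∂((C N).rm N (c N))) U (𝓝 (∫ x, hct th x ∂m)) := hm (hct th)
  have h : ∀ᶠ N in U, p1 * q / K ≤ ∫ x, hct th x ∂((C N).rm N (c N)) := by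
    filter_upwards [low1, mass, len, one, hU hall, hU (eventually_ge_atTop 1)] with N h1 h2 h3 h4 h5 h6
    have h7 : ∀ a ∈ (C N).T, ∀ R ∈ (C N).Rs, ∀ b ∈ (C N).T', ((a.length : ℝ) + R.length + b.length) ≤ max L 1 * N :=
      fun a ha R hR b hb => (h3 a ha R hR b hb).trans (mul_le_mul_of_nonneg_right (le_max_left _ _) (Nat.cast_nonneg _))
    have e2 := tot_le (C N) (c0 N) (c1 N) (by positivity) h7 h4
    have e3 := SS_rm (C N).cl (C N).nf (C N).nw (C N).nf' (ψ := fun _ => 1) (fun _ => zero_le_one) (C := 1) measurable_const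
      (fun _ => le_rfl) (C N).fT (C N).fR (C N).fT' N (c0 N) (c1 N) th (F := fun _ => 1) continuous_const
      (fun _ => by rw [abs_one])
    have e4 : SS ((C N).G N fun _ => 1) N th (fun _ => 1) = _ := e3
    obtain ⟨A, hA⟩ : ∃ A : ℝ, A = (ms (C N).T fun a => ENNReal.ofReal ((C N).f a)).toReal *
      (ms (C N).T' fun a => ENNReal.ofReal ((C N).f' a)).toReal / (c N).toReal := ⟨_, rfl⟩
    rw [← hA] at e2 e4
    have hA0 : 0 ≤ A := by
      rw [hA]
      exact div_nonneg (mul_nonneg ENNReal.toReal_nonneg ENNReal.toReal_nonneg) ENNReal.toReal_nonneg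
    have e5 : ∫ x, (1 : ℝ) * Hb (fun _ => 1) continuous_const (fun _ => by rw [abs_one]) th x
        ∂(F3.rm (c N) (size N) N (C N).Rs (C N).w) = ∫ x, hct th x ∂((C N).rm N (c N)) := by
      simp only [one_mul]
      rfl
    rw [e5] at e4
    obtain ⟨I, hI⟩ : ∃ I : ℝ, I = ∫ x, hct th x ∂((C N).rm N (c N)) := ⟨_, rfl⟩
    rw [← hI] at e4
    rw [← hI]
    have hW : 0 < ∑ n ∈ Wn N (2 * th), aN n := by
      have hNm : N ∈ Wn N (2 * th) := by
        have hN0 : (0 : ℝ) < N := by exact_mod_cast h6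
        rw [mem_Wn h6 (by linarith), div_self hN0.ne', sub_self, abs_zero]
        linarith
      exact lt_of_lt_of_le (WK.aN_pos N) (single_le_sum (f := aN) (fun n _ => aN_nonneg n) hNm)
    have hA1 : 0 < A := by
      rcases eq_or_lt_of_le hA0 with h' | h'
      · rw [e4, ← h', zero_mul] at h1
        have := mul_pos hp1 hW
        linarith
      · exact h'
    have k1 : A * q ≤ K * ∑ n ∈ Wn N (2 * th), aN n := (mul_le_mul_of_nonneg_left h2 hA1.le).trans (e2.trans h5)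
    have k2 : p1 * (A * q) ≤ K * (A * I) := by
      calc p1 * (A * q) ≤ p1 * (K * ∑ n ∈ Wn N (2 * th), aN n) := mul_le_mul_of_nonneg_left k1 hp1.le
        _ = K * (p1 * ∑ n ∈ Wn N (2 * th), aN n) := by ring
        _ ≤ K * (A * I) := mul_le_mul_of_nonneg_left (by rw [← e4]; exact h1) hK.le
    rw [div_le_iff₀ hK]
    have k3 : A * (p1 * q) ≤ A * (I * K) := by nlinarith
    exact le_of_mul_le_mul_left k3 hA1
  have h2 : p1 * q / K ≤ ∫ x, hct th x ∂m := ge_of_tendsto t1 h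
  simp only [hct_apply] at h2
  exact lt_of_lt_of_le (by positivity) h2

end Pool.Agent.ROT.F3E
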