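import Pool.Agent.ROT.F3C3L
import Pool.Agent.ROT.F3TopP

/-!
# ROT, F3, row LOWLIM (helper84): the shares of the classes with three gates, as sums and as masses

* `SS_le` : the gated sum from above; `win_cmp8` : windows `2 * th` and `th / 4`;
* **`low_ss`** : for small `th`, then small `τ`: the gated sum of the class `C3` with the cutoff `th / 8` is at least `p` times the gated
  sum of the class of the lattice 0 with the cutoff `th`;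
* `W0_prod` : the gated sum of the class of the lattice 0 as a product; **`low_ms`** : the same inequality for the masses of the rests.
-/

set_option autoImplicit false

open Filter Topology

namespace Pool.Agent.ROT.F3

open Finset
open scoped ENNReal
open Pool.Agent.NTS.Res (pos saw size fug)
open Pool.Agent.ROT.F (Nm nm_bd nm_ratio nm_top)
open Pool.Agent.ROT.F3E (SG SS ct Gb Gam)
open Pool.Agent.CRT

/-- the gated sum from above -/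
lemma SS_le {e th : ℝ} (he : e ≤ 1 / 2) (hth : 0 < th) (hth8 : th ≤ 1 / 8) {N : ℕ} (hN : 1 ≤ N) {G : W3 → ℕ → ℕ → ℝ}
    (hG : Gb e th G N) : SS G N th (fun _ => 1) ≤ ∑ n ∈ F3E.Wn N (2 * th), aN n := by
  rw [F3E.SS_eq he hth hth8 hN hG]
  refine sum_le_sum fun n _ => ?_
  refine le_trans ?_ (F3E.SG_le (N := N) hG.one n)
  unfold SG
  have hf : (0 : ℝ) ≤ fug ^ n := by
    unfold fug
    positivity
  refine mul_le_mul_of_nonneg_left (sum_le_sum fun s _ => sum_le_sum fun i _ => sum_le_sum fun j _ => ?_) hf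
  refine mul_le_mul_of_nonneg_left ?_ (hG.nn _ _ _)
  show 1 * ct th _ ≤ 1
  rw [one_mul]
  exact F3E.ct_le_one _ _

/-- the windows `2 * th` and `th / 4` -/
lemma win_cmp8 : ∃ t0 : ℝ, 0 < t0 ∧ t0 ≤ 1 / 8 ∧ ∀ th : ℝ, 0 < th → th ≤ t0 → ∀ᶠ N : ℕ in atTop,
    ∑ n ∈ F3E.Wn N (2 * th), aN n ≤ 82944 * ∑ n ∈ F3E.Wn N (th / 4), aN n := by
  obtain ⟨t0, h0, h8, h⟩ := F3E.win_cmp
  refine ⟨t0, h0, h8, fun th ht ht0 => ?_⟩
  filter_upwards [h th ht ht0, h (th / 4) (by positivity) (by linarith), eventually_ge_atTop 1] with N h1 h2 hN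
  have e1 : ∀ t : ℝ, ∑ n ∈ (F3E.Wn N t).filter (fun n => Even n), aN n ≤ ∑ n ∈ F3E.Wn N t, aN n := fun t =>
    sum_le_sum_of_subset_of_nonneg (filter_subset _ _) fun n _ _ => aN_nonneg n
  have e2 : ∑ n ∈ F3E.Wn N (th / 4 / 2), aN n ≤ ∑ n ∈ F3E.Wn N (th / 4), aN n := by
    refine sum_le_sum_of_subset_of_nonneg (fun n hn => ?_) fun n _ _ => aN_nonneg n
    rw [F3E.mem_Wn hN (by linarith)] at hn ⊢
    linarith
  have e3 : (2 : ℝ) * (th / 4) = th / 2 := by ring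
  rw [e3] at h2
  calc ∑ n ∈ F3E.Wn N (2 * th), aN n ≤ 288 * ∑ n ∈ (F3E.Wn N (th / 2)).filter (fun n => Even n), aN n := h1.1
    _ ≤ 288 * (288 * ∑ n ∈ F3E.Wn N (th / 4), aN n) :=
        mul_le_mul_of_nonneg_left ((e1 _).trans (h2.1.trans (mul_le_mul_of_nonneg_left ((e1 _).trans e2) (by norm_num))))
          (by norm_num)
    _ = _ := by ring

/-- **the gated sums** -/
theorem low_ss (A c1 : ℝ) (hA : 0 < A) (hc1 : 0 < c1) : ∃ p k0 K1 th1 : ℝ, 0 < p ∧ 0 < k0 ∧ 0 < K1 ∧ 0 < th1 ∧ th1 ≤ 1 / 8 ∧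
    ∀ th : ℝ, 0 < th → th ≤ th1 → ∃ τ0 : ℝ, 0 < τ0 ∧ ∀ τ : ℝ, 0 < τ → τ ≤ τ0 → ∃ ρ0 : ℝ, 0 < ρ0 ∧ ∀ ρ : ℝ, 0 < ρ → ρ ≤ ρ0 →
      ∀ (P : Prm) (O O' : Ot) (Y Y' : Tp) (W : Wn) (h : C3Ok P O O' Y Y' W), P.p.Nr (bE ρ τ) → P.q.Nr (bE ρ τ) →
        O.Nr (bO ρ τ) → O'.Nr (bO ρ τ) → Y.Nr (bY ρ τ) → Y'.Nr (bY ρ τ) → W.D0 ≤ k0 → K1 ≤ W.D1 → W.t0 ≤ k0 → K1 ≤ W.t1 →
            ∀ᶠ N : ℕ in atTop, ∀ (ψ ψ' : W3 → ℝ) (hψ : ∀ b, 0 ≤ ψ b) (hψ' : ∀ b, 0 ≤ ψ' b), (∀ b, ψ b ≤ 1) → (∀ b, ψ' b ≤ 1) →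
              ENNReal.ofReal c1 ≤ Sb {b | b ∈ OtB (ev 0) O (Nm N) (uT (Nm N)) ∧
                (b.length : ℝ) ≤ A * (ρ * Nm N) ^ (4 / 3 : ℝ)} (fun b => ENNReal.ofReal (ψ b)) →
              ENNReal.ofReal c1 ≤ Sb {b | b ∈ OtB (ev 0) O' (Nm N) (uT (Nm N)) ∧
                (b.length : ℝ) ≤ A * (ρ * Nm N) ^ (4 / 3 : ℝ)} (fun b => ENNReal.ofReal (ψ' b)) →
              p * SS ((P.W0 h.ok (Nm N)).G N fun _ => 1) N th (fun _ => 1) ≤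
                SS ((Prm.C3 h hψ hψ' (Nm N)).G N fun _ => 1) N (th / 8) (fun _ => 1) ∧
              0 < SS ((Prm.C3 h hψ hψ' (Nm N)).G N fun _ => 1) N (th / 8) (fun _ => 1) := by
  obtain ⟨p, k0, K1, hp, hk0, hK1, hmain⟩ := low_c3 A c1 hA hc1
  obtain ⟨t1, ht1, ht18, hex⟩ := F3E.low_exact
  obtain ⟨t2, ht2, ht28, hw⟩ := win_cmp8
  obtain ⟨c', C', m0, hc', hC', hbd⟩ := nm_bd
  refine ⟨p / 1200 / 82944, k0, K1, min t1 t2, by positivity, hk0, hK1, lt_min ht1 ht2, (min_le_left _ _).trans ht18,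
    fun th hth hth1 => ?_⟩
  have a1 : th ≤ t1 := hth1.trans (min_le_left _ _)
  have a2 : th ≤ t2 := hth1.trans (min_le_right _ _)
  refine ⟨th / (512 * C'), by positivity, fun τ hτ hτ1 => ?_⟩
  obtain ⟨ρ0, hρ0, hmain⟩ := hmain τ hτ
  refine ⟨ρ0, hρ0, fun ρ hρ hρ1 P O O' Y Y' W h hp1 hq1 hO hO' hY hY' hD0 hD1 ht0 ht1' => ?_⟩
  have key := hmain ρ hρ hρ1 P O O' Y Y' W h hp1 hq1 hO hO' hY hY' hD0 hD1 ht0 ht1'
  filter_upwards [key, hex p hp.le (1 / 16) (by norm_num) le_rfl (th / 8) (by positivity) (by linarith), hw th hth a2,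
    eventually_ge_atTop m0, eventually_ge_atTop 1] with N g1 g2 g3 g4 g5 ψ ψ' hψ hψ' hψ1 hψ1' hm hm'
  have hN0 : (0 : ℝ) < (N : ℝ) := by exact_mod_cast g5
  obtain ⟨-, -, -, -, b5⟩ := hbd N g4
  have b6 : uT (Nm N) ≤ C' * N := b5
  have hT : 0 ≤ uT (Nm N) := Real.rpow_nonneg (Nat.cast_nonneg _) _
  have b7 : τ * uT (Nm N) ≤ th / 512 * N := by
    rw [le_div_iff₀ (by positivity)] at hτ1
    calc τ * uT (Nm N) ≤ τ * (C' * N) := mul_le_mul_of_nonneg_left b6 hτ.le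
      _ = τ * (512 * C') / 512 * N := by ring
      _ ≤ th / 512 * N := by
          refine mul_le_mul_of_nonneg_right ?_ hN0.le
          linarith
  -- the numbers of letters
  have tip : ∀ {x : ℝ}, x ≤ 4 * τ → x * uT (Nm N) ≤ 1 / 16 * (th / 8) * N := by
    intro x hx
    have h1 := mul_le_mul_of_nonneg_right hx hT
    have h2 : 4 * τ * uT (Nm N) = 4 * (τ * uT (Nm N)) := by ring
    have h3 : 1 / 16 * (th / 8) * (N : ℝ) = 4 * (th / 512 * N) := by ring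
    linarith
  have lt : ∀ {E : En} {O : Ot}, E.Nr (bE ρ τ) → O.Nr (bO ρ τ) → E.n.la + E.n.lb + O.lb ≤ 4 * τ ∧ E.n.la + E.n.lb ≤ 4 * τ := by
    intro E O hE hO
    have q1 : E.n.la ≤ 101 / 100 * (1 * τ) := hE.n.la.2
    have q2 : E.n.lb ≤ 101 / 100 * (1 * τ) := hE.n.lb.2
    have q3 : O.lb ≤ 101 / 100 * (99/100 * τ) := hO.lb.2
    constructor <;> linarith
  have gb3 : Gb (1 / 16) (th / 8) ((Prm.C3 h hψ hψ' (Nm N)).G N fun _ => 1) N :=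
    Prm.C3_gb h hψ hψ' hψ1 hψ1' (tip (lt hp1 hO).1) (tip (lt hq1 hO').1)
  have tip8 : ∀ {x : ℝ}, x ≤ 4 * τ → x * uT (Nm N) ≤ 1 / 16 * th * N := by
    intro x hx
    refine (tip hx).trans ?_
    have : 0 ≤ th * N := by positivity
    linarith
  have gb0 : Gb (1 / 16) th ((P.W0 h.ok (Nm N)).G N fun _ => 1) N :=
    Prm.W0_gb h.ok (fun _ => zero_le_one) (fun _ => le_rfl) (tip8 (lt hp1 hO).2) (tip8 (lt hq1 hO').2)
  have hlow := g2 _ gb3 fun n hn hev => by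
    rw [F3E.mem_Wn g5 (by linarith), abs_le] at hn
    have h1 : 1 / 2 ≤ (n : ℝ) / N := by linarith [hn.1]
    have h2 : (n : ℝ) / N ≤ 2 := by linarith [hn.2]
    rw [le_div_iff₀ hN0] at h1
    rw [div_le_iff₀ hN0] at h2
    exact g1 ψ ψ' hψ hψ' hψ1 hψ1' hm hm' n hev (by linarith) h2
  have hup := SS_le (by norm_num : (1 : ℝ) / 16 ≤ 1 / 2) hth (by linarith) g5 gb0
  have e1 : (2 : ℝ) * (th / 8) = th / 4 := by ring
  rw [e1] at hlow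
  have hpos : 0 < ∑ n ∈ F3E.Wn N (th / 4), aN n := by
    refine sum_pos (fun n _ => WK.aN_pos n) ⟨N, ?_⟩
    rw [F3E.mem_Wn g5 (by linarith), div_self hN0.ne', sub_self, abs_zero]
    linarith
  constructor
  · calc p / 1200 / 82944 * SS ((P.W0 h.ok (Nm N)).G N fun _ => 1) N th (fun _ => 1) ≤
          p / 1200 / 82944 * (82944 * ∑ n ∈ F3E.Wn N (th / 4), aN n) :=
          mul_le_mul_of_nonneg_left (hup.trans g3) (by positivity)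
      _ = p / 1200 * ∑ n ∈ F3E.Wn N (th / 4), aN n := by ring
      _ ≤ _ := hlow
  · exact lt_of_lt_of_le (mul_pos (by positivity) hpos) hlow

/-- **the gated sum of the class of the lattice 0 as a product** -/
theorem W0_prod {P : Prm} (h : P.Ok) (N M : ℕ) (th : ℝ) : ENNReal.ofReal (SS ((P.W0 h N).G M fun _ => 1) M th fun _ => 1) =
    ms (P.T0p N) (fun _ => 1) * (ms (P.R0 0 P.W N) (fun R => ENNReal.ofReal (ct th ((R.length : ℝ) / M))) *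
      ms (P.T0q N) fun _ => 1) := by
  obtain ⟨C, hC⟩ : ∃ C : WCls, C = P.W0 h N := ⟨_, rfl⟩
  have e0 := SG_prod C.cl C.nf C.nw C.nf' (ψ := fun _ => 1) (fun _ => zero_le_one) M (H := fun _ t => ct th t)
    fun _ _ => F3E.ct_nonneg _ _
  have e1 := tsum_SG C.cl C.nf C.nw C.nf' (ψ := fun _ => 1) (fun _ => zero_le_one) (C := 1) measurable_const (fun _ => le_rfl)
    C.fT C.fR C.fT' M (c := 1) one_ne_zero ENNReal.one_ne_top (H := fun _ t => ct th t) (fun _ _ => F3E.ct_nonneg _ _)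
    (fun _ _ => (F3E.ct_le_one _ _).trans one_le_two) ((ct_cont th).measurable.comp measurable_snd)
  have hn := SG_nonneg (T := C.T) (Rs := C.Rs) (T' := C.T') C.nf C.nw C.nf' (ψ := fun _ => 1) (fun _ => zero_le_one) M
    (H := fun _ t => ct th t) fun _ _ => F3E.ct_nonneg _ _
  have e2 : SS (C.G M fun _ => 1) M th (fun _ => 1) =
      ∑' n, SG (gG C.T C.Rs C.T' C.f (fun R => C.w R * (fun _ => (1 : ℝ)) (cr (size M) M R)) C.f') M (fun _ t => ct th t) n := by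
    unfold SS WCls.G
    simp only [one_mul]
  rw [← hC, e2, ENNReal.ofReal_tsum_of_nonneg hn e1.1, e0, hC]
  have m1 : ∀ T : Set W3, ms T (fun _ => ENNReal.ofReal 1) = ms T fun _ => 1 := fun T => by rw [ENNReal.ofReal_one]
  show ms (P.T0p N) (fun _ => ENNReal.ofReal 1) * (ms (P.R0 0 P.W N) _ * ms (P.T0q N) fun _ => ENNReal.ofReal 1) = _
  rw [m1, m1]
  congr 2
  unfold ms
  refine tsum_congr fun R => ?_
  split_ifs
  · congr 1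
    show ENNReal.ofReal (1 * 1 * ct th ((R.length : ℝ) / M)) = _
    rw [one_mul, one_mul]
  · rfl

/-- **the masses**: rests between the outer gates with the cutoff `th / 8`, both blocks weighted, against all rests of the lattice 0 -/
theorem low_ms (A c1 : ℝ) (hA : 0 < A) (hc1 : 0 < c1) : ∃ p k0 K1 th1 : ℝ, 0 < p ∧ 0 < k0 ∧ 0 < K1 ∧ 0 < th1 ∧ th1 ≤ 1 / 8 ∧
    ∀ th : ℝ, 0 < th → th ≤ th1 → ∃ τ0 : ℝ, 0 < τ0 ∧ ∀ τ : ℝ, 0 < τ → τ ≤ τ0 → ∃ ρ0 : ℝ, 0 < ρ0 ∧ ∀ ρ : ℝ, 0 < ρ → ρ ≤ ρ0 →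
      ∀ (P : Prm) (O O' : Ot) (Y Y' : Tp) (W : Wn) (_ : C3Ok P O O' Y Y' W), P.p.Nr (bE ρ τ) → P.q.Nr (bE ρ τ) →
        O.Nr (bO ρ τ) → O'.Nr (bO ρ τ) → Y.Nr (bY ρ τ) → Y'.Nr (bY ρ τ) → W.D0 ≤ k0 → K1 ≤ W.D1 → W.t0 ≤ k0 → K1 ≤ W.t1 →
            ∀ᶠ N : ℕ in atTop, ∀ ψ ψ' : W3 → ℝ, (∀ b, 0 ≤ ψ b) → (∀ b, 0 ≤ ψ' b) → (∀ b, ψ b ≤ 1) → (∀ b, ψ' b ≤ 1) →
              ENNReal.ofReal c1 ≤ Sb {b | b ∈ OtB (ev 0) O (Nm N) (uT (Nm N)) ∧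
                (b.length : ℝ) ≤ A * (ρ * Nm N) ^ (4 / 3 : ℝ)} (fun b => ENNReal.ofReal (ψ b)) →
              ENNReal.ofReal c1 ≤ Sb {b | b ∈ OtB (ev 0) O' (Nm N) (uT (Nm N)) ∧
                (b.length : ℝ) ≤ A * (ρ * Nm N) ^ (4 / 3 : ℝ)} (fun b => ENNReal.ofReal (ψ' b)) →
              ENNReal.ofReal p * ms (P.R0 0 P.W (Nm N)) (fun R => ENNReal.ofReal (ct th ((R.length : ℝ) / N))) ≤
                ms (OtB (ev 0) O (Nm N) (uT (Nm N))) (fun b => ENNReal.ofReal (ψ b)) *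
                  (ms (Prm.Rs3 Y Y' W (Nm N)) (fun R => ENNReal.ofReal (ct (th / 8) ((R.length : ℝ) / N))) *
                    ms (OtB (ev 0) O' (Nm N) (uT (Nm N))) fun b => ENNReal.ofReal (ψ' b)) := by
  obtain ⟨p, k0, K1, th1, hp, hk0, hK1, hth1, hth8, hmain⟩ := low_ss A c1 hA hc1
  refine ⟨p, k0, K1, th1, hp, hk0, hK1, hth1, hth8, fun th hth hth2 => ?_⟩
  obtain ⟨τ0, hτ0, hmain⟩ := hmain th hth hth2
  refine ⟨τ0, hτ0, fun τ hτ hτ1 => ?_⟩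
  obtain ⟨ρ0, hρ0, hmain⟩ := hmain τ hτ hτ1
  refine ⟨ρ0, hρ0, fun ρ hρ hρ1 P O O' Y Y' W h hp1 hq1 hO hO' hY hY' hD0 hD1 ht0 ht1 => ?_⟩
  filter_upwards [hmain ρ hρ hρ1 P O O' Y Y' W h hp1 hq1 hO hO' hY hY' hD0 hD1 ht0 ht1] with N g ψ ψ' hψ hψ' hψ1 hψ1' hm hm'
  obtain ⟨g1, g2⟩ := g ψ ψ' hψ hψ' hψ1 hψ1' hm hm'
  have e1 := W0_prod h.ok (Nm N) N th
  have e2 := Prm.C3_prod h hψ hψ' (Nm N) N (th / 8)
  have g3 := ENNReal.ofReal_le_ofReal g1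
  rw [ENNReal.ofReal_mul hp.le, e1, e2] at g3
  have g4 : ENNReal.ofReal (SS ((Prm.C3 h hψ hψ' (Nm N)).G N fun _ => 1) N (th / 8) (fun _ => 1)) ≠ 0 :=
    (ENNReal.ofReal_pos.2 g2).ne'
  rw [e2] at g4
  obtain ⟨α, hα⟩ : ∃ α, α = ms (P.T0p (Nm N)) fun _ => 1 := ⟨_, rfl⟩
  obtain ⟨β, hβ⟩ : ∃ β, β = ms (P.T0q (Nm N)) fun _ => 1 := ⟨_, rfl⟩
  have fα : α ≠ ∞ := by rw [hα]; exact Pre_fin fun _ => ENNReal.one_ne_top
  have fβ : β ≠ ∞ := by rw [hβ]; exact Pre_fin fun _ => ENNReal.one_ne_top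
  rw [← hα, ← hβ] at g3 g4
  have zα : α ≠ 0 := fun h0 => g4 (by rw [h0, zero_mul, zero_mul])
  have zβ : β ≠ 0 := fun h0 => g4 (by rw [h0, zero_mul, mul_zero, mul_zero])
  obtain ⟨X, hX⟩ : ∃ X, X = ms (P.R0 0 P.W (Nm N)) (fun R => ENNReal.ofReal (ct th ((R.length : ℝ) / N))) := ⟨_, rfl⟩
  obtain ⟨u, hu⟩ : ∃ u, u = ms (OtB (ev 0) O (Nm N) (uT (Nm N))) (fun b => ENNReal.ofReal (ψ b)) := ⟨_, rfl⟩
  obtain ⟨v, hv⟩ : ∃ v, v = ms (OtB (ev 0) O' (Nm N) (uT (Nm N))) (fun b => ENNReal.ofReal (ψ' b)) := ⟨_, rfl⟩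
  obtain ⟨Z, hZ⟩ : ∃ Z, Z = ms (Prm.Rs3 Y Y' W (Nm N)) (fun R => ENNReal.ofReal (ct (th / 8) ((R.length : ℝ) / N))) := ⟨_, rfl⟩
  rw [← hX, ← hu, ← hv, ← hZ] at g3
  rw [← hX, ← hu, ← hv, ← hZ]
  have g5 : α * β * (ENNReal.ofReal p * X) ≤ α * β * (u * (Z * v)) := by
    calc α * β * (ENNReal.ofReal p * X) = ENNReal.ofReal p * (α * (X * β)) := by ring
      _ ≤ α * u * (Z * (β * v)) := g3
      _ = α * β * (u * (Z * v)) := by ring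
  exact (ENNReal.mul_le_mul_iff_right (mul_ne_zero zα zβ) (ENNReal.mul_ne_top fα fβ)).1 g5

end Pool.Agent.ROT.F3
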