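import Pool.Agent.ROT.FSt

/-!
# ROT, block F1, assembly (helper5): common bounds

* `nm_bd`, `nm_ratio`, `nm_top` : the lattice scale `Nm m` is of the order `m ^ (3 / 4)`;
* `ml_hi`, `big_t`, `mid_t`, `small_t`, `mss_bd` : the mass of the long, middle, short polygons; `ml_ev` : events.
-/

set_option autoImplicit false

open MeasureTheory Filter Topology Set

open scoped Classical

namespace Pool.Agent.ROT.F

open Pool.Agent.NTS.Res Pool.Agent.PMA Pool.Agent.PMA.Res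

open Pool.Agent.NPR (tr nb vb)

/-! ### the lattice scale -/

lemma size_bd : ∃ c C : ℝ, 0 < c ∧ 0 < C ∧ ∀ n : ℕ, 1 ≤ n → c * (n : ℝ) ^ (3 / 4 : ℝ) ≤ size n ∧
    size n ≤ C * (n : ℝ) ^ (3 / 4 : ℝ) := by
  obtain ⟨c0, C0, hc0, hsz⟩ := (NTSF.Mg.oneFacts NTSF.finE).sz
  refine ⟨c0, C0, hc0, ?_, hsz⟩
  have h1 := hsz 1 le_rfl
  rw [Nat.cast_one, Real.one_rpow, mul_one, mul_one] at h1
  exact hc0.trans_le (h1.1.trans h1.2)

lemma size_tt : Tendsto size atTop atTop := LimS.size_lg tendsto_id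

lemma nm_le (m : ℕ) : (Nm m : ℝ) ≤ size m := Nat.floor_le (by
  unfold size
  positivity)

lemma nm_lt (m : ℕ) : size m < Nm m + 1 := Nat.lt_floor_add_one _

lemma nm_top : Tendsto Nm atTop atTop := (tendsto_nat_floor_atTop (α := ℝ)).comp size_tt

lemma nm_ratio : Tendsto (fun m : ℕ => (Nm m : ℝ) / size m) atTop (𝓝 1) := by
  have h1 : Tendsto (fun m : ℕ => 1 - 1 / size m) atTop (𝓝 (1 - 0)) :=
    tendsto_const_nhds.sub (tendsto_const_nhds.div_atTop size_tt)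
  rw [sub_zero] at h1
  refine tendsto_of_tendsto_of_tendsto_of_le_of_le' h1 tendsto_const_nhds ?_ ?_
  · filter_upwards [eventually_ge_atTop 1] with m hm
    have hs := NTSF.size_pos hm
    have := nm_lt m
    rw [le_div_iff₀ hs, sub_mul, one_mul, one_div_mul_cancel hs.ne']
    linarith
  · filter_upwards [eventually_ge_atTop 1] with m hm
    have hs := NTSF.size_pos hm
    rw [div_le_one hs]
    exact nm_le m

/-- the lattice scale is of the order `m ^ (3 / 4)` -/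
lemma nm_bd : ∃ (c C : ℝ) (m0 : ℕ), 0 < c ∧ 0 < C ∧ ∀ m : ℕ, m0 ≤ m → 1 ≤ Nm m ∧ c * (m : ℝ) ^ (3 / 4 : ℝ) ≤ Nm m ∧
    (Nm m : ℝ) ≤ C * (m : ℝ) ^ (3 / 4 : ℝ) ∧ c * m ≤ (Nm m : ℝ) ^ (4 / 3 : ℝ) ∧ (Nm m : ℝ) ^ (4 / 3 : ℝ) ≤ C * m := by
  obtain ⟨c, C, hc, hC, hsz⟩ := size_bd
  obtain ⟨m0, hm0⟩ := (nm_top.eventually_ge_atTop 1).exists_forall_of_atTop
  obtain ⟨c', hc'⟩ : ∃ c' : ℝ, c' = min (c / 2) ((c / 2) ^ (4 / 3 : ℝ)) := ⟨_, rfl⟩
  obtain ⟨C', hC'⟩ : ∃ C' : ℝ, C' = max C (C ^ (4 / 3 : ℝ)) := ⟨_, rfl⟩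
  refine ⟨c', C', m0 + 1, ?_, ?_, fun m hm => ?_⟩
  · rw [hc']
    positivity
  · rw [hC']
    positivity
  · have h1 := hm0 m (by omega)
    have h1' : (1 : ℝ) ≤ Nm m := by exact_mod_cast h1
    obtain ⟨h2, h3⟩ := hsz m (by omega)
    have h4 := nm_le m
    have h5 := nm_lt m
    have h6 : c / 2 * (m : ℝ) ^ (3 / 4 : ℝ) ≤ Nm m := by linarith
    have h7 : (Nm m : ℝ) ≤ C * (m : ℝ) ^ (3 / 4 : ℝ) := h4.trans h3
    have hm34 : (0 : ℝ) ≤ (m : ℝ) ^ (3 / 4 : ℝ) := by positivity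
    have e : ((m : ℝ) ^ (3 / 4 : ℝ)) ^ (4 / 3 : ℝ) = m := by
      rw [← Real.rpow_mul (Nat.cast_nonneg m)]
      norm_num
    refine ⟨h1, ?_, ?_, ?_, ?_⟩
    · refine le_trans (mul_le_mul_of_nonneg_right ?_ hm34) h6
      rw [hc']
      exact min_le_left _ _
    · refine h7.trans (mul_le_mul_of_nonneg_right ?_ hm34)
      rw [hC']
      exact le_max_left _ _
    · have h8 := Real.rpow_le_rpow (by positivity) h6 (show (0 : ℝ) ≤ 4 / 3 by norm_num)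
      rw [Real.mul_rpow (by positivity) hm34, e] at h8
      refine le_trans (mul_le_mul_of_nonneg_right ?_ (Nat.cast_nonneg m)) h8
      rw [hc']
      exact min_le_right _ _
    · have h8 := Real.rpow_le_rpow (by positivity) h7 (show (0 : ℝ) ≤ 4 / 3 by norm_num)
      rw [Real.mul_rpow (by positivity) hm34, e] at h8
      refine h8.trans (mul_le_mul_of_nonneg_right ?_ (Nat.cast_nonneg m))
      rw [hC']
      exact le_max_right _ _

/-! ### the masses -/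

lemma tail_sum {k M : ℕ} (hk : 1 ≤ k) :
    ∑ n ∈ (Finset.range M).filter (fun n => k < n), (n : ℝ) ^ (-(5 / 2) : ℝ) ≤ 2 * (k : ℝ) ^ (-(3 / 2) : ℝ) := by
  have hk0 : (0 : ℝ) < k := by exact_mod_cast hk
  have h1 : ∀ n ∈ (Finset.range M).filter (fun n => k < n), (n : ℝ) ^ (-(5 / 2) : ℝ) ≤ (k : ℝ) ^ (-(1 / 2) : ℝ) * ((n : ℝ) ^ 2)⁻¹ := by
    intro n hn
    have hkn := (Finset.mem_filter.1 hn).2
    have hn0 : (0 : ℝ) < n := by exact_mod_cast (by omega : 0 < n)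
    have hkn' : (k : ℝ) ≤ n := by exact_mod_cast hkn.le
    have e : (n : ℝ) ^ (-(5 / 2) : ℝ) = (n : ℝ) ^ (-(1 / 2) : ℝ) * ((n : ℝ) ^ 2)⁻¹ := by
      rw [← Real.rpow_natCast, ← Real.rpow_neg hn0.le, ← Real.rpow_add hn0]
      norm_num
    rw [e]
    refine mul_le_mul_of_nonneg_right ?_ (by positivity)
    exact Real.rpow_le_rpow_of_nonpos hk0 hkn' (by norm_num)
  refine (Finset.sum_le_sum h1).trans ?_
  rw [← Finset.mul_sum]
  have h2 : ∑ n ∈ (Finset.range M).filter (fun n => k < n), ((n : ℝ) ^ 2)⁻¹ ≤ 2 / (k + 1) := by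
    refine le_trans (le_of_eq ?_) (sum_Ioo_inv_sq_le k M)
    refine Finset.sum_congr ?_ fun _ _ => rfl
    ext n
    simp only [Finset.mem_filter, Finset.mem_range, Finset.mem_Ioo]
    exact and_comm
  have h3 : (2 : ℝ) / (k + 1) ≤ 2 * (k : ℝ)⁻¹ := by
    rw [← div_eq_mul_inv]
    exact div_le_div_of_nonneg_left (by norm_num) hk0 (by linarith)
  calc (k : ℝ) ^ (-(1 / 2) : ℝ) * ∑ n ∈ (Finset.range M).filter (fun n => k < n), ((n : ℝ) ^ 2)⁻¹
      ≤ (k : ℝ) ^ (-(1 / 2) : ℝ) * (2 * (k : ℝ)⁻¹) := mul_le_mul_of_nonneg_left (h2.trans h3) (by positivity)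
    _ = 2 * (k : ℝ) ^ (-(3 / 2) : ℝ) := by
        rw [← Real.rpow_neg_one, mul_left_comm, ← Real.rpow_add hk0]
        norm_num

lemma pmn_le_one {N n : ℕ} {G : C(unitInterval, ℂ) → ℝ} (h : ∀ γ, G γ ≤ 1) : pmn N n G ≤ 1 := by
  unfold pmn pmean
  refine div_le_one_of_le₀ ?_ (Nat.cast_nonneg _)
  calc ∑ s ∈ pol n, (G (sN N n (curve s)) + G (-sN N n (curve s))) / 2 ≤ ∑ _s ∈ pol n, (1 : ℝ) :=
        Finset.sum_le_sum fun s _ => by linarith [h (sN N n (curve s)), h (-sN N n (curve s))]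
    _ = (pol n).card := by rw [Finset.sum_const, nsmul_eq_mul, mul_one]

/-- the mass of the long polygons, with an event -/
lemma ml_hi_ev (hQ : QB) : ∃ C : ℝ, 0 < C ∧ ∀ (N : ℕ) (b : ℝ), 1 ≤ b * (N : ℝ) ^ (4 / 3 : ℝ) → 0 < b →
    ∀ (G : ℕ → C(unitInterval, ℂ) → ℝ) (η : ℝ), 0 ≤ η → (∀ n : ℕ, (n : ℝ) ≤ b * (N : ℝ) ^ (4 / 3 : ℝ) → ∀ γ, G n γ = 0) →
      (∀ n : ℕ, Odd n → b * (N : ℝ) ^ (4 / 3 : ℝ) < n → pmn N n (G n) ≤ η) → ML N G ≤ C * b ^ (-(3 / 2) : ℝ) * η := by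
  obtain ⟨c, C, n0, hc, -, hQ⟩ := hQ
  obtain ⟨C', hC'⟩ : ∃ C' : ℝ, C' = max C 1 := ⟨_, rfl⟩
  have hC'0 : 0 < C' := by
    rw [hC']
    positivity
  have hCC : C ≤ C' := by
    rw [hC']
    exact le_max_left _ _
  refine ⟨2 * C' * 2 ^ (3 / 2 : ℝ), by positivity, fun N b hb1 hb G η hη h0 hG => ?_⟩
  obtain ⟨x, hx⟩ : ∃ x : ℝ, x = b * (N : ℝ) ^ (4 / 3 : ℝ) := ⟨_, rfl⟩
  rw [← hx] at hb1 h0 hG
  have hN0 : (0 : ℝ) < N := by
    rcases Nat.eq_zero_or_pos N with h | h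
    · rw [hx, h, Nat.cast_zero, Real.zero_rpow (by norm_num), mul_zero] at hb1
      norm_num at hb1
    · exact_mod_cast h
  obtain ⟨k, hk⟩ : ∃ k : ℕ, k = ⌊x⌋₊ := ⟨_, rfl⟩
  have hk1 : 1 ≤ k := by
    rw [hk]
    exact (Nat.one_le_floor_iff x).2 hb1
  have hk1' : (1 : ℝ) ≤ k := by exact_mod_cast hk1
  have hkx : x < k + 1 := by
    rw [hk]
    exact Nat.lt_floor_add_one x
  have hkx2 : (k : ℝ) ≤ x := by
    rw [hk]
    exact Nat.floor_le (by linarith)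
  have hk2 : x / 2 ≤ k := by linarith
  have h1 : ∑ n ∈ Finset.range (N ^ 2), qn n * pmn N n (G n) ≤
      ∑ n ∈ (Finset.range (N ^ 2)).filter (fun n => k < n), C' * η * (n : ℝ) ^ (-(5 / 2) : ℝ) := by
    rw [Finset.sum_filter]
    refine Finset.sum_le_sum fun n _ => ?_
    by_cases hn : k < n
    · rw [if_pos hn]
      have hn1 : 1 ≤ n := by omega
      have hnx : x < n := by
        have : (k : ℝ) + 1 ≤ n := by exact_mod_cast hn
        linarith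
      by_cases ho : Odd n
      · have h2 := hQ n hn1
        have h3 := hG n ho hnx
        have h4 : (0 : ℝ) ≤ (n : ℝ) ^ (-(5 / 2) : ℝ) := by positivity
        calc qn n * pmn N n (G n) ≤ qn n * η := mul_le_mul_of_nonneg_left h3 (qn_nonneg n)
          _ ≤ C * (n : ℝ) ^ (-(5 / 2) : ℝ) * η := mul_le_mul_of_nonneg_right h2 hη
          _ ≤ C' * (n : ℝ) ^ (-(5 / 2) : ℝ) * η := mul_le_mul_of_nonneg_right (mul_le_mul_of_nonneg_right hCC h4) hη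
          _ = _ := by ring
      · have h2 : qn n = 0 := by
          unfold qn
          rw [if_neg fun h => ho h.1]
        rw [h2, zero_mul]
        positivity
    · rw [if_neg hn]
      have hnx : (n : ℝ) ≤ x := by
        have : (n : ℝ) ≤ k := by exact_mod_cast not_lt.1 hn
        linarith
      have h2 : pmn N n (G n) = 0 := by
        unfold pmn pmean
        rw [Finset.sum_eq_zero, zero_div]
        intro s _
        show (G n (sN N n (curve s)) + G n (-sN N n (curve s))) / 2 = 0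
        rw [h0 n hnx, h0 n hnx, add_zero, zero_div]
      rw [h2, mul_zero]
  rw [← Finset.mul_sum] at h1
  have h2 := h1.trans (mul_le_mul_of_nonneg_left (tail_sum (M := N ^ 2) hk1) (by positivity : 0 ≤ C' * η))
  have h3 : (k : ℝ) ^ (-(3 / 2) : ℝ) ≤ (x / 2) ^ (-(3 / 2) : ℝ) :=
    Real.rpow_le_rpow_of_nonpos (by linarith) hk2 (by norm_num)
  have h4 : (x / 2) ^ (-(3 / 2) : ℝ) = b ^ (-(3 / 2) : ℝ) * 2 ^ (3 / 2 : ℝ) * ((N : ℝ) ^ 2)⁻¹ := by
    rw [hx, Real.div_rpow (by positivity) (by norm_num), Real.mul_rpow hb.le (by positivity), ← Real.rpow_mul hN0.le,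
      Real.rpow_neg (by norm_num : (0 : ℝ) ≤ 2), ← Real.rpow_natCast, ← Real.rpow_neg hN0.le]
    norm_num
    ring
  unfold ML
  calc (N : ℝ) ^ 2 * ∑ n ∈ Finset.range (N ^ 2), qn n * pmn N n (G n)
      ≤ (N : ℝ) ^ 2 * (C' * η * (2 * (b ^ (-(3 / 2) : ℝ) * 2 ^ (3 / 2 : ℝ) * ((N : ℝ) ^ 2)⁻¹))) := by
        refine mul_le_mul_of_nonneg_left (h2.trans ?_) (sq_nonneg _)
        refine mul_le_mul_of_nonneg_left ?_ (by positivity)
        rw [← h4]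
        linarith
    _ = 2 * C' * 2 ^ (3 / 2 : ℝ) * b ^ (-(3 / 2) : ℝ) * η := by
        field_simp

/-- the mass of the long polygons -/
lemma ml_hi (hQ : QB) : ∃ C : ℝ, 0 < C ∧ ∀ (N : ℕ) (b : ℝ), 1 ≤ b * (N : ℝ) ^ (4 / 3 : ℝ) → 0 < b →
    ML N (fun n _ => if b * (N : ℝ) ^ (4 / 3 : ℝ) < n then 1 else 0) ≤ C * b ^ (-(3 / 2) : ℝ) := by
  obtain ⟨C, hC, h⟩ := ml_hi_ev hQ
  refine ⟨C, hC, fun N b h1 hb => ?_⟩
  have h2 := h N b h1 hb (fun n _ => if b * (N : ℝ) ^ (4 / 3 : ℝ) < n then 1 else 0) 1 zero_le_one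
    (fun n hn γ => if_neg (not_lt.2 hn)) (fun n _ _ => pmn_le_one fun γ => by
      show (if _ then (1 : ℝ) else 0) ≤ 1
      split_ifs <;> norm_num)
  rwa [mul_one] at h2

/-- events of the polygons with at least `a m` steps -/
lemma ml_ev (hQ : QB) {a : ℝ} (ha : 0 < a) : ∃ (C : ℝ) (m0 : ℕ), 0 < C ∧ ∀ m : ℕ, m0 ≤ m →
    ∀ (G : ℕ → C(unitInterval, ℂ) → ℝ) (η : ℝ), 0 ≤ η → (∀ n : ℕ, (n : ℝ) < a * m → ∀ γ, G n γ = 0) →
      (∀ n : ℕ, Odd n → a * m ≤ n → pmn (Nm m) n (G n) ≤ η) → ML (Nm m) G ≤ C * η := by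
  obtain ⟨C, hC, h⟩ := ml_hi_ev hQ
  obtain ⟨c, C', m0, hc, hC', hN⟩ := nm_bd
  obtain ⟨b, hb⟩ : ∃ b : ℝ, b = a / (2 * C') := ⟨_, rfl⟩
  have hb0 : 0 < b := by
    rw [hb]
    positivity
  obtain ⟨m1, hm1⟩ := exists_nat_ge (1 / (b * c))
  refine ⟨C * b ^ (-(3 / 2) : ℝ), max m0 (m1 + 1), by positivity, fun m hm G η hη h0 hG => ?_⟩
  obtain ⟨g1, g2, g3, g4, g5⟩ := hN m ((le_max_left _ _).trans hm)
  have hmm : (m1 : ℝ) + 1 ≤ m := by exact_mod_cast (le_max_right _ _).trans hm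
  have hm0 : (0 : ℝ) < m := by
    have : (0 : ℝ) ≤ m1 := Nat.cast_nonneg _
    linarith
  have hlt : b * (Nm m : ℝ) ^ (4 / 3 : ℝ) < a * m := by
    have h1 : b * (Nm m : ℝ) ^ (4 / 3 : ℝ) ≤ b * (C' * m) := mul_le_mul_of_nonneg_left g5 hb0.le
    have h2 : b * (C' * m) = a * m / 2 := by
      rw [hb]
      field_simp
    have h3 : 0 < a * m := by positivity
    linarith
  refine h (Nm m) b ?_ hb0 G η hη (fun n hn γ => h0 n (hn.trans_lt hlt) γ) fun n ho hn => ?_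
  · have h1 : 1 ≤ b * (c * m) := by
      have h2 : 1 / (b * c) ≤ m := by linarith
      rw [div_le_iff₀ (by positivity)] at h2
      linarith
    exact h1.trans (mul_le_mul_of_nonneg_left g4 hb0.le)
  · rcases le_or_gt (a * m) n with h1 | h1
    · exact hG n ho h1
    · have h2 : pmn (Nm m) n (G n) = 0 := by
        unfold pmn pmean
        rw [Finset.sum_eq_zero, zero_div]
        intro s _
        show (G n (sN (Nm m) n (curve s)) + G n (-sN (Nm m) n (curve s))) / 2 = 0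
        rw [h0 n h1, h0 n h1, add_zero, zero_div]
      rw [h2]
      exact hη

/-- middle and long times -/
lemma mid_t (hQ : QB) {a : ℝ} (ha : 0 < a) : ∃ (C : ℝ) (m0 : ℕ), 0 < C ∧ ∀ m : ℕ, m0 ≤ m →
    ML (Nm m) (fun n _ => if a * m ≤ n then 1 else 0) ≤ C := by
  obtain ⟨C, m0, hC, h⟩ := ml_ev hQ ha
  refine ⟨C, m0, hC, fun m hm => ?_⟩
  have h1 := h m hm (fun n _ => if a * m ≤ n then 1 else 0) 1 zero_le_one (fun n hn γ => if_neg (not_le.2 hn))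
    fun n _ _ => pmn_le_one fun γ => by
      show (if _ then (1 : ℝ) else 0) ≤ 1
      split_ifs <;> norm_num
  rwa [mul_one] at h1

/-- long times -/
lemma big_t (hQ : QB) {ε : ℝ} (hε : 0 < ε) : ∃ (b : ℝ) (m0 : ℕ), 0 < b ∧ ∀ m : ℕ, m0 ≤ m →
    ML (Nm m) (fun n _ => if b * m < n then 1 else 0) ≤ ε := by
  obtain ⟨C, hC, h⟩ := ml_hi hQ
  obtain ⟨c, C', m0, hc, hC', hN⟩ := nm_bd
  obtain ⟨b', hb'⟩ : ∃ b' : ℝ, b' = max ((ε / C) ^ (-(2 / 3) : ℝ)) (1 / c) := ⟨_, rfl⟩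
  have hb'0 : 0 < b' := by
    rw [hb']
    positivity
  refine ⟨b' * C', max m0 1, by positivity, fun m hm => ?_⟩
  obtain ⟨g1, g2, g3, g4, g5⟩ := hN m ((le_max_left _ _).trans hm)
  have hm1 : (1 : ℝ) ≤ m := by exact_mod_cast (le_max_right _ _).trans hm
  have h1 := h (Nm m) b' (by
    have h2 : 1 / c ≤ b' := by
      rw [hb']
      exact le_max_right _ _
    rw [div_le_iff₀ hc] at h2
    calc (1 : ℝ) ≤ b' * c * 1 := by linarith
      _ ≤ b' * c * m := mul_le_mul_of_nonneg_left hm1 (by positivity)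
      _ = b' * (c * m) := by ring
      _ ≤ _ := mul_le_mul_of_nonneg_left g4 hb'0.le) hb'0
  refine (ML_mono fun n γ => ?_).trans (h1.trans ?_)
  · show (if b' * C' * m < n then (1 : ℝ) else 0) ≤ if b' * (Nm m : ℝ) ^ (4 / 3 : ℝ) < n then 1 else 0
    by_cases h2 : b' * C' * m < n
    · rw [if_pos h2, if_pos]
      refine lt_of_le_of_lt ?_ h2
      rw [mul_assoc]
      exact mul_le_mul_of_nonneg_left g5 hb'0.le
    · rw [if_neg h2]
      split_ifs <;> norm_num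
  · have h2 : b' ^ (-(3 / 2) : ℝ) ≤ ((ε / C) ^ (-(2 / 3) : ℝ)) ^ (-(3 / 2) : ℝ) :=
      Real.rpow_le_rpow_of_nonpos (by positivity) (by rw [hb']; exact le_max_left _ _) (by norm_num)
    rw [← Real.rpow_mul (by positivity)] at h2
    norm_num at h2
    calc C * b' ^ (-(3 / 2) : ℝ) ≤ C * (ε / C) := mul_le_mul_of_nonneg_left h2 hC.le
      _ = ε := by field_simp

/-- short times -/
lemma small_t (hF : Fast) {r ε : ℝ} (hr : 0 < r) (hε : 0 < ε) : ∃ (a : ℝ) (m0 : ℕ), 0 < a ∧ ∀ m : ℕ, m0 ≤ m →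
    ML (Nm m) (fun n γ => if (n : ℝ) ≤ a * m then chi r (dm γ) else 0) ≤ ε := by
  obtain ⟨a, N0, ha, h⟩ := hF r ε hr hε
  obtain ⟨c, C', m0, hc, hC', hN⟩ := nm_bd
  obtain ⟨m1, hm1⟩ := (nm_top.eventually_ge_atTop N0).exists_forall_of_atTop
  refine ⟨a * c, max m0 m1, by positivity, fun m hm => ?_⟩
  obtain ⟨g1, g2, g3, g4, g5⟩ := hN m ((le_max_left _ _).trans hm)
  refine (ML_mono fun n γ => ?_).trans (h (Nm m) (hm1 m ((le_max_right _ _).trans hm)))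
  show (if (n : ℝ) ≤ a * c * m then chi r (dm γ) else 0) ≤
    if (n : ℝ) ≤ a * (Nm m : ℝ) ^ (4 / 3 : ℝ) ∧ r ≤ Metric.diam (range γ) then 1 else 0
  by_cases h2 : (n : ℝ) ≤ a * c * m
  · rw [if_pos h2]
    have h3 : (n : ℝ) ≤ a * (Nm m : ℝ) ^ (4 / 3 : ℝ) := by
      refine h2.trans ?_
      rw [mul_assoc]
      exact mul_le_mul_of_nonneg_left g4 ha.le
    by_cases h4 : r ≤ Metric.diam (range γ)
    · rw [if_pos ⟨h3, h4⟩]
      exact chi_le_one _ _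
    · rw [if_neg fun h5 => h4 h5.2]
      exact (chi_zero hr (not_le.1 h4).le).le
  · rw [if_neg h2]
    split_ifs <;> norm_num

/-- the mass is bounded -/
lemma mss_bd (hF : Fast) (hQ : QB) {r : ℝ} (hr : 0 < r) : ∃ M0 : ℝ, 0 < M0 ∧ ∀ᶠ N in atTop, Mss N r ≤ M0 := by
  obtain ⟨a, N0, ha, h⟩ := hF r 1 hr one_pos
  obtain ⟨C, hC, h2⟩ := ml_hi hQ
  refine ⟨1 + C * a ^ (-(3 / 2) : ℝ), by positivity, ?_⟩
  have h3 : Tendsto (fun N : ℕ => a * (N : ℝ) ^ (4 / 3 : ℝ)) atTop atTop :=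
    ((tendsto_rpow_atTop (by norm_num : (0 : ℝ) < 4 / 3)).comp tendsto_natCast_atTop_atTop).const_mul_atTop ha
  filter_upwards [eventually_ge_atTop N0, h3.eventually_ge_atTop 1] with N hN hN1
  have h4 : Mss N r ≤ ML N fun n γ => (if (n : ℝ) ≤ a * (N : ℝ) ^ (4 / 3 : ℝ) ∧ r ≤ Metric.diam (range γ) then (1 : ℝ) else 0) +
      if a * (N : ℝ) ^ (4 / 3 : ℝ) < n then 1 else 0 := by
    refine ML_mono fun n γ => ?_
    by_cases h5 : r ≤ Metric.diam (range γ)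
    · rcases le_or_gt (n : ℝ) (a * (N : ℝ) ^ (4 / 3 : ℝ)) with h6 | h6
      · rw [if_pos ⟨h6, h5⟩, if_neg (not_lt.2 h6), add_zero]
        exact chi_le_one _ _
      · rw [if_pos h6, if_neg fun h7 => not_lt.2 h7.1 h6, zero_add]
        exact chi_le_one _ _
    · rw [show chi r (dm γ) = 0 from chi_zero hr (not_le.1 h5).le]
      exact add_nonneg (by split_ifs <;> norm_num) (by split_ifs <;> norm_num)
  refine h4.trans ?_
  rw [ML_add]
  exact add_le_add (h N hN) (h2 N a hN1 ha)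

end Pool.Agent.ROT.F
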