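import Pool.Agent.ROT.F3Unit
import Pool.Agent.ROT.FBd

/-!
# ROT / F3UnitN (helper72): the natural scale `Nm n` of the walks with `n` steps

* **`kap_ex`** : along an ultrafilter `(Nm n) ^ (4 / 3) / n → κ > 0`;
* **`nm_rm`** : weak limits of the laws of the rests in the units `Nm n`, `(Nm n) ^ (4 / 3)` ⇒ weak limits in the units `size n`, `n`
  of F3Tip12 (the durations are multiplied by `κ`); **`nm_rm_map`** : the same from the limits along the scales, `U.map Nm`;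
* `nm_cv`, `nm_cv_map` : the same for pieces of any marked words.
-/

set_option autoImplicit false

open MeasureTheory Filter Topology Set
open scoped ENNReal NNReal BoundedContinuousFunction

namespace Pool.Agent.ROT.F3

open Pool.Agent.NTS.Res (size)
open Pool.Agent.ROT.F (Nm nm_bd nm_ratio nm_top)

/-- **the ratio of the units of time** -/
theorem kap_ex {U : Ultrafilter ℕ} (hU : (U : Filter ℕ) ≤ atTop) :
    ∃ κ : ℝ, 0 < κ ∧ Tendsto (fun n : ℕ => (Nm n : ℝ) ^ (4 / 3 : ℝ) / n) U (𝓝 κ) := by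
  obtain ⟨c, C, m0, hc, hC, h⟩ := nm_bd
  have h1 : ((U.map fun n : ℕ => (Nm n : ℝ) ^ (4 / 3 : ℝ) / n : Ultrafilter ℝ) : Filter ℝ) ≤ 𝓟 (Icc c C) := by
    rw [le_principal_iff, Ultrafilter.coe_map]
    refine Filter.mem_map.2 (hU ?_)
    filter_upwards [eventually_ge_atTop m0, eventually_gt_atTop 0] with n hn hn0
    obtain ⟨-, -, -, h4, h5⟩ := h n hn
    have hn1 : (0 : ℝ) < n := by exact_mod_cast hn0
    exact ⟨(le_div_iff₀ hn1).2 h4, (div_le_iff₀ hn1).2 h5⟩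
  obtain ⟨κ, hκ, hκ2⟩ := isCompact_Icc.ultrafilter_le_nhds _ h1
  exact ⟨κ, hc.trans_le hκ.1, by rwa [Ultrafilter.coe_map] at hκ2⟩

lemma nm_pos {U : Ultrafilter ℕ} (hU : (U : Filter ℕ) ≤ atTop) : ∀ᶠ n in (U : Filter ℕ), 0 < (Nm n : ℝ) := by
  refine hU ?_
  filter_upwards [nm_top.eventually_ge_atTop 1] with n hn
  exact_mod_cast hn

lemma nm_posT {U : Ultrafilter ℕ} (hU : (U : Filter ℕ) ≤ atTop) : ∀ᶠ n in (U : Filter ℕ), (Nm n : ℝ) ^ (4 / 3 : ℝ) ≠ 0 := by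
  filter_upwards [nm_pos hU] with n hn
  positivity

/-- **the laws of the rests**: from the natural scale to the units of the walks with `n` steps -/
theorem nm_rm {U : Ultrafilter ℕ} (hU : (U : Filter ℕ) ≤ atTop) {κ : ℝ}
    (hκ : Tendsto (fun n : ℕ => (Nm n : ℝ) ^ (4 / 3 : ℝ) / n) U (𝓝 κ)) {c : ℕ → ℝ≥0∞} {Rs : ℕ → Set W3} {w : ℕ → W3 → ℝ}
    (hf : ∀ n, IsFiniteMeasure (rm (c n) (Nm n) ((Nm n : ℝ) ^ (4 / 3 : ℝ)) (Rs n) (w n))) {m : Measure (CI3 × ℝ)}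
    [IsFiniteMeasure m]
    (h : ∀ g : (CI3 × ℝ) →ᵇ ℝ, Tendsto (fun n => ∫ x, g x ∂(rm (c n) (Nm n) ((Nm n : ℝ) ^ (4 / 3 : ℝ)) (Rs n) (w n))) U
      (𝓝 (∫ x, g x ∂m))) (g : (CI3 × ℝ) →ᵇ ℝ) :
    Tendsto (fun n : ℕ => ∫ x, g x ∂(rm (c n) (size n) n (Rs n) (w n))) U (𝓝 (∫ x, g x ∂(m.map (um 1 κ)))) := by
  refine rm_lim (s := fun n => (Nm n : ℝ)) (t := fun n => (Nm n : ℝ) ^ (4 / 3 : ℝ)) (s' := size) (t' := fun n => (n : ℝ)) ?_
    (nm_posT hU) hf h (nm_ratio.mono_left hU) hκ g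
  filter_upwards [nm_pos hU] with n hn
  exact hn.ne'

/-- the same from the limits along the scales -/
theorem nm_rm_map {U : Ultrafilter ℕ} (hU : (U : Filter ℕ) ≤ atTop) {κ : ℝ}
    (hκ : Tendsto (fun n : ℕ => (Nm n : ℝ) ^ (4 / 3 : ℝ) / n) U (𝓝 κ)) {c : ℕ → ℝ≥0∞} {Rs : ℕ → Set W3} {w : ℕ → W3 → ℝ}
    (hf : ∀ M : ℕ, IsFiniteMeasure (rm (c M) M ((M : ℝ) ^ (4 / 3 : ℝ)) (Rs M) (w M))) {m : Measure (CI3 × ℝ)}
    [IsFiniteMeasure m]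
    (h : ∀ g : (CI3 × ℝ) →ᵇ ℝ, Tendsto (fun M : ℕ => ∫ x, g x ∂(rm (c M) M ((M : ℝ) ^ (4 / 3 : ℝ)) (Rs M) (w M)))
      (U.map Nm : Ultrafilter ℕ) (𝓝 (∫ x, g x ∂m))) (g : (CI3 × ℝ) →ᵇ ℝ) :
    Tendsto (fun n : ℕ => ∫ x, g x ∂(rm (c (Nm n)) (size n) n (Rs (Nm n)) (w (Nm n)))) U
      (𝓝 (∫ x, g x ∂(m.map (um 1 κ)))) := by
  refine nm_rm hU hκ (c := fun n => c (Nm n)) (Rs := fun n => Rs (Nm n)) (w := fun n => w (Nm n)) (fun n => hf (Nm n)) ?_ g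
  intro g
  have h1 := h g
  rw [Ultrafilter.coe_map] at h1
  exact tendsto_map'_iff.1 h1

/-- the scales go to infinity -/
lemma nm_map_top {U : Ultrafilter ℕ} (hU : (U : Filter ℕ) ≤ atTop) : ((U.map Nm : Ultrafilter ℕ) : Filter ℕ) ≤ atTop := by
  rw [Ultrafilter.coe_map]
  exact nm_top.mono_left hU

/-- **pieces of marked words**: `R n ω` = the piece -/
theorem nm_cv {U : Ultrafilter ℕ} (hU : (U : Filter ℕ) ≤ atTop) {κ : ℝ}
    (hκ : Tendsto (fun n : ℕ => (Nm n : ℝ) ^ (4 / 3 : ℝ) / n) U (𝓝 κ)) {Ω : ℕ → Type*} [∀ n, MeasurableSpace (Ω n)]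
    {P : ∀ n, Measure (Ω n)} {R : ∀ n, Ω n → W3} {m : Measure (CI3 × ℝ)}
    (h : LF.Cv (U : Filter ℕ) P (fun n ω => cr (Nm n) ((Nm n : ℝ) ^ (4 / 3 : ℝ)) (R n ω)) m)
    (hm : ∀ n, Measurable fun ω => cr (size n) n (R n ω)) :
    LF.Cv (U : Filter ℕ) P (fun n ω => cr (size n) n (R n ω)) (m.map (um 1 κ)) := by
  have h1 := um_cvl h (r := fun n => (Nm n : ℝ) / size n) (k := fun n : ℕ => (Nm n : ℝ) ^ (4 / 3 : ℝ) / n)
    (nm_ratio.mono_left hU) hκ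
  refine ⟨h1.fin, h1.fin', hm, fun G => ?_⟩
  refine (h1.lim G).congr' ?_
  filter_upwards [nm_pos hU, nm_posT hU] with n e1 e2
  refine integral_congr_ae (Eventually.of_forall fun ω => ?_)
  show G (um _ _ (cr _ _ (R n ω))) = G (cr _ _ (R n ω))
  rw [← cr_unit e1.ne' e2]

end Pool.Agent.ROT.F3
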