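import Pool.Agent.ROT.F3LowM
import Pool.Agent.ROT.F3LowS
import Pool.Agent.ROT.F3LowA
import Pool.Agent.ROT.F3BetaO
import Pool.Agent.ROT.F3UnitN

/-!
# ROT, F3, row LOWLIM (helper84): low2 for the classes of F3Cls

* `Mw` : the rests behind the outer gates with duration near `N` letters; `ms_Mw`;
* **`md_of`** : the data `MD` of helper76 for the classes with three gates, scale `Nm N`;
* **`low2_md`** : the share of `D` in the limit of the rests of the lattice 0, from the shares of the native gates (`low_ms`), the masses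
  of the blocks near `S`, `S'` and the locality of `D`.
-/

set_option autoImplicit false

open MeasureTheory Filter Topology Set
open scoped ENNReal NNReal BoundedContinuousFunction

namespace Pool.Agent.ROT.F3

open Pool.Agent.ROT.F3.Mk Pool.Agent.ROT.F3.CC
open Pool.Agent.ROT.F3E (ct)
open Pool.Agent.ROT.F (Nm nm_bd nm_ratio nm_top)

/-- the rests behind the outer gates, duration near `N` letters -/
def Mw (Y Y' : Tp) (W : Wn) (δ : ℝ) (N : ℕ) : Set W3 := {R | R ∈ Prm.Rs3 Y Y' W (Nm N) ∧ |(R.length : ℝ) / N - 1| ≤ δ}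

lemma ms_Mw {Y Y' : Tp} {W : Wn} {th : ℝ} (hth : 0 < th) (N : ℕ) :
    ms (Prm.Rs3 Y Y' W (Nm N)) (fun R => ENNReal.ofReal (ct (th / 8) ((R.length : ℝ) / N))) ≤ ms (Mw Y Y' W (th / 8) N) fun _ => 1 := by
  unfold ms
  refine ENNReal.tsum_le_tsum fun R => ?_
  by_cases h : R ∈ Prm.Rs3 Y Y' W (Nm N)
  · rw [if_pos h]
    by_cases h2 : |(R.length : ℝ) / N - 1| ≤ th / 8
    · rw [if_pos (show R ∈ Mw Y Y' W (th / 8) N from ⟨h, h2⟩)]
      exact mul_le_mul_right (ENNReal.ofReal_le_one.2 (F3E.ct_le_one _ _)) _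
    · push Not at h2
      show wx R * ENNReal.ofReal (ct (th / 8) ((R.length : ℝ) / N)) ≤ _
      rw [F3E.ct_zero (by positivity) h2.le, ENNReal.ofReal_zero, mul_zero]
      exact bot_le
  · rw [if_neg h]
    exact bot_le

/-- **the data of the marked rests** -/
theorem md_of {P : Prm} {O O' : Ot} {Y Y' : Tp} {W : Wn} (h : C3Ok P O O' Y Y' W) {U : Ultrafilter ℕ}
    (hU : (U : Filter ℕ) ≤ atTop) {β κ κ' : Measure Pie} [IsFiniteMeasure β] [IsFiniteMeasure κ] [IsFiniteMeasure κ'] {δ : ℝ}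
    (lβ : ∀ g : Pie →ᵇ ℝ, Tendsto (fun M : ℕ => ∫ x, g x ∂(rm (Bt.cb M) M (uT M) (P.R0 0 P.W M) fun _ => 1))
      (U.map Nm : Ultrafilter ℕ) (𝓝 (∫ x, g x ∂β)))
    (lκ : ∀ g : Pie →ᵇ ℝ, Tendsto (fun M : ℕ => ∫ x, g x ∂(rm 1 M (uT M) (OtB (ev 0) O M (uT M)) fun _ => 1))
      (U.map Nm : Ultrafilter ℕ) (𝓝 (∫ x, g x ∂κ)))
    (lκ' : ∀ g : Pie →ᵇ ℝ, Tendsto (fun M : ℕ => ∫ x, g x ∂(rm 1 M (uT M) (OtB (ev 0) O' M (uT M)) fun _ => 1))
      (U.map Nm : Ultrafilter ℕ) (𝓝 (∫ x, g x ∂κ')))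
    (low : ∃ c0 : ℝ, 0 < c0 ∧ ∀ᶠ N in (U : Filter ℕ), ENNReal.ofReal c0 ≤ Bt.cb (Nm N) * ms (Mw Y Y' W δ N) fun _ => 1)
    (h0 : κ univ ≠ 0) (h0' : κ' univ ≠ 0) :
    MD U (fun N => Bt.cb (Nm N)) (fun N => (Nm N : ℝ)) (fun N => uT (Nm N)) (fun N => OtB (ev 0) O (Nm N) (uT (Nm N)))
      (Mw Y Y' W δ) (fun N => OtB (ev 0) O' (Nm N) (uT (Nm N))) (fun N => P.R0 0 P.W (Nm N)) κ κ' β := by
  have hg1 : 0 < P.p.n.rg := by linarith [h.ok.p.n.rg, h.ok.p.n.r, h.ok.p.n.r2]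
  have hg2 : 0 < P.q.n.rg := by linarith [h.ok.q.n.rg, h.ok.q.n.r, h.ok.q.n.r2]
  have hD : 0 < (P.wd P.W).D0 := by
    have h1 := h.ok.far0
    have h2 := h.ok.sp.1
    have h3 := h.ok.sq.1
    linarith
  have hT : 0 < (P.wd P.W).t1 := by
    show 0 < P.W.t1 + (P.p.lk + P.q.lk)
    linarith [h.ok.t0, h.ok.t1, h.ok.p.lk, h.ok.q.lk]
  have hW : 0 < W.D0 := by
    have h1 := h.D
    have h2 := h.ok.sp.1
    have h3 := h.ok.sq.1
    have h4 := h.p.or'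
    have h5 := h.q.or'
    linarith
  obtain ⟨⟨C, q1⟩, q2⟩ := near_rst (P := P.p.n) (Q := P.q.n) (W := P.wd P.W) hg1 hg2 hD hT (i := 0) (j := -0)
    (Rs := fun N => P.R0 0 P.W N) (Eventually.of_forall fun N R hR => hR)
  have tm : ∀ {f : ℕ → ℝ} {a : ℝ}, Tendsto f (U.map Nm : Ultrafilter ℕ) (𝓝 a) → Tendsto (fun N => f (Nm N)) U (𝓝 a) := by
    intro f a hf
    rw [Ultrafilter.coe_map, tendsto_map'_iff] at hf
    exact hf
  refine ⟨hU, inferInstance, inferInstance, inferInstance, ⟨C, nm_top.eventually q1⟩, fun ε hε => ?_, fun g => tm (lβ g),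
    fun g => tm (lκ g), fun g => tm (lκ' g), ?_, low, h0, h0'⟩
  · obtain ⟨S, hS, hSη⟩ := q2 ε hε
    exact ⟨S, hS, fun η hη => nm_top.eventually (hSη η hη)⟩
  · filter_upwards [nm_top.eventually (eventually_gt_atTop 0)] with N hN
    have hS : (0 : ℝ) < (Nm N : ℝ) := by exact_mod_cast hN
    refine ⟨fun b hb => OtB.ev hb, fun m hm => ?_, fun b hb => OtB.ev hb, fun b hb m hm b' hb' c hc m2 hm2 c' hc' he =>
      Prm.b3_inj h hb hm.1 hb' hc hm2.1 hc' he, fun b hb m hm b' hb' => Prm.b3_mem h hb hm.1 hb'⟩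
    have h1 : RsQ (ev 0) (ev 0) Y Y' W (Nm N) (uT (Nm N)) m := hm.1
    exact ⟨h1.ev, one_le_of_far (mul_pos hW hS) h1.far⟩

/-- **low2** -/
theorem low2_md (A c1 : ℝ) (hA : 0 < A) (hc1 : 0 < c1) : ∃ p k0 K1 th1 : ℝ, 0 < p ∧ 0 < k0 ∧ 0 < K1 ∧ 0 < th1 ∧ th1 ≤ 1 / 8 ∧
    ∀ th : ℝ, 0 < th → th ≤ th1 → ∃ τ0 : ℝ, 0 < τ0 ∧ ∀ τ : ℝ, 0 < τ → τ ≤ τ0 → ∃ ρ0 : ℝ, 0 < ρ0 ∧ ∀ ρ : ℝ, 0 < ρ → ρ ≤ ρ0 →
      ∀ (P : Prm) (O O' : Ot) (Y Y' : Tp) (W : Wn) (_ : C3Ok P O O' Y Y' W), P.p.Nr (bE ρ τ) → P.q.Nr (bE ρ τ) →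
        O.Nr (bO ρ τ) → O'.Nr (bO ρ τ) → Y.Nr (bY ρ τ) → Y'.Nr (bY ρ τ) → W.D0 ≤ k0 → K1 ≤ W.D1 → W.t0 ≤ k0 → K1 ≤ W.t1 →
          ∀ U : Ultrafilter ℕ, (U : Filter ℕ) ≤ atTop → ∀ κ0 : ℝ, 0 < κ0 →
            Tendsto (fun n : ℕ => (Nm n : ℝ) ^ (4 / 3 : ℝ) / n) U (𝓝 κ0) → ∀ β κ κ' μ μ' : Measure Pie, IsFiniteMeasure β →
              IsFiniteMeasure κ → IsFiniteMeasure κ' → IsFiniteMeasure μ → IsFiniteMeasure μ' → κ ≤ μ → κ' ≤ μ' →
              (∀ g : Pie →ᵇ ℝ, Tendsto (fun M : ℕ => ∫ x, g x ∂(rm (Bt.cb M) M (uT M) (P.R0 0 P.W M) fun _ => 1))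
                (U.map Nm : Ultrafilter ℕ) (𝓝 (∫ x, g x ∂β))) →
              (∀ g : Pie →ᵇ ℝ, Tendsto (fun M : ℕ => ∫ x, g x ∂(rm 1 M (uT M) (OtB (ev 0) O M (uT M)) fun _ => 1))
                (U.map Nm : Ultrafilter ℕ) (𝓝 (∫ x, g x ∂κ))) →
              (∀ g : Pie →ᵇ ℝ, Tendsto (fun M : ℕ => ∫ x, g x ∂(rm 1 M (uT M) (OtB (ev 0) O' M (uT M)) fun _ => 1))
                (U.map Nm : Ultrafilter ℕ) (𝓝 (∫ x, g x ∂κ'))) →
              ∀ (S S' D : Set Pie) (e0 : ℝ), MeasurableSet S → MeasurableSet S' → MeasurableSet D → 0 < e0 →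
                (∀ ψ : Pie →ᵇ ℝ, (∀ x, 0 ≤ ψ x) → (∀ x, ψ x ≤ 1) → ∫ x, |ψ x - S.indicator (fun _ => (1 : ℝ)) x| ∂μ ≤ e0 →
                  ∀ᶠ M : ℕ in (U.map Nm : Ultrafilter ℕ), ENNReal.ofReal c1 ≤ Sb {b | b ∈ OtB (ev 0) O M (uT M) ∧
                    (b.length : ℝ) ≤ A * (ρ * M) ^ (4 / 3 : ℝ)} (fun b => ENNReal.ofReal (ψ (cr M (uT M) b)))) →
                (∀ ψ : Pie →ᵇ ℝ, (∀ x, 0 ≤ ψ x) → (∀ x, ψ x ≤ 1) → ∫ x, |ψ x - S'.indicator (fun _ => (1 : ℝ)) x| ∂μ' ≤ e0 →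
                  ∀ᶠ M : ℕ in (U.map Nm : Ultrafilter ℕ), ENNReal.ofReal c1 ≤ Sb {b | b ∈ OtB (ev 0) O' M (uT M) ∧
                    (b.length : ℝ) ≤ A * (ρ * M) ^ (4 / 3 : ℝ)} (fun b => ENNReal.ofReal (ψ (cr M (uT M) b)))) →
                (∀ Q : Measure MP, IsFiniteMeasure Q → Q.map Prod.fst ≤ β →
                  (∃ u : ℝ, 0 < u ∧ Q.map two = ENNReal.ofReal u • κ.prod κ') →
                  (∀ E : Set MP, IsClosed E → (∀ᶠ M : ℕ in (U.map Nm : Ultrafilter ℕ), ∀ b ∈ OtB (ev 0) O M (uT M),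
                    ∀ m ∈ Prm.Rs3 Y Y' W M, ∀ b' ∈ OtB (ev 0) O' M (uT M), mk3 M (uT M) (b, m, b') ∈ E) → ∀ᵐ y ∂Q, y ∈ E) →
                  ∀ᵐ z ∂Q, (two z).1 ∈ S → (two z).2 ∈ S' → z.1 ∈ D) →
                p * ∫ x, ct th (κ0 * x.2) ∂β ≤ ∫ x in D, ct th (κ0 * x.2) ∂β := by
  obtain ⟨p, k0, K1, th1, hp, hk0, hK1, hth1, hth8, hmain⟩ := low_ms A c1 hA hc1
  obtain ⟨c', C', m0, hc', hC', hbd⟩ := nm_bd
  refine ⟨p, k0, K1, th1, hp, hk0, hK1, hth1, hth8, fun th hth hth2 => ?_⟩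
  obtain ⟨τ0, hτ0, hmain⟩ := hmain th hth hth2
  refine ⟨min τ0 (th / (64 * C')), by positivity, fun τ hτ hτ1 => ?_⟩
  obtain ⟨ρ0, hρ0, hmain⟩ := hmain τ hτ (hτ1.trans (min_le_left _ _))
  refine ⟨ρ0, hρ0, fun ρ hρ hρ1 P O O' Y Y' W h hp1 hq1 hO hO' hY hY' hD0 hD1 ht0 ht1 U hU κ0 hκ0 hκ β κ κ' μ μ' fβ fκ fκ' fμ fμ'
    hκμ hκμ' lβ lκ lκ' S S' D e0 mS mS' mD he0 hC hC' hloc => ?_⟩
  have hlow := hU (hmain ρ hρ hρ1 P O O' Y Y' W h hp1 hq1 hO hO' hY hY' hD0 hD1 ht0 ht1)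
  have hI0 : 0 ≤ ∫ x in D, ct th (κ0 * x.2) ∂β := integral_nonneg fun _ => F3E.ct_nonneg _ _
  rcases le_or_gt (∫ x : Pie, ct th (κ0 * x.2) ∂β) 0 with hI | hI
  · exact (mul_nonpos_of_nonneg_of_nonpos hp.le hI).trans hI0
  -- along `U`
  have em : ∀ {q : ℕ → Prop}, (∀ᶠ M in ((U.map Nm : Ultrafilter ℕ) : Filter ℕ), q M) → ∀ᶠ N in (U : Filter ℕ), q (Nm N) := by
    intro q hq
    rw [Ultrafilter.coe_map, eventually_map] at hq
    exact hq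
  have tm : ∀ {f : ℕ → ℝ} {a : ℝ}, Tendsto f (U.map Nm : Ultrafilter ℕ) (𝓝 a) → Tendsto (fun N => f (Nm N)) U (𝓝 a) := by
    intro f a hf
    rw [Ultrafilter.coe_map, tendsto_map'_iff] at hf
    exact hf
  have hS1 : ∀ᶠ N : ℕ in (U : Filter ℕ), (0 : ℝ) < (Nm N : ℝ) := by
    filter_upwards [hU (nm_top.eventually (eventually_gt_atTop 0))] with N hN
    exact_mod_cast hN
  have ht : ∀ᶠ N : ℕ in (U : Filter ℕ), 0 < uT (Nm N) := by
    filter_upwards [hS1] with N hN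
    exact Real.rpow_pos_of_pos hN _
  have hN1 : ∀ᶠ N : ℕ in (U : Filter ℕ), (0 : ℝ) < (N : ℝ) := by
    filter_upwards [hU (eventually_gt_atTop 0)] with N hN
    exact_mod_cast hN
  have hOm : 0 < O.m := lt_of_lt_of_le (by positivity) (show 20000000 * ρ ≤ O.m from hO.m.1)
  have hOm' : 0 < O'.m := lt_of_lt_of_le (by positivity) (show 20000000 * ρ ≤ O'.m from hO'.m.1)
  have fB1 : ∀ᶠ N : ℕ in (U : Filter ℕ), ms (OtB (ev 0) O (Nm N) (uT (Nm N))) (fun _ => 1) ≤ 1 := by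
    filter_upwards [hS1] with N hN
    exact Bt.ot_le 0 _ hOm hN
  have fB2 : ∀ᶠ N : ℕ in (U : Filter ℕ), ms (OtB (ev 0) O' (Nm N) (uT (Nm N))) (fun _ => 1) ≤ 1 := by
    filter_upwards [hS1] with N hN
    exact Bt.ot_le 0 _ hOm' hN
  have msψ : ∀ {B : Set W3} {f : W3 → ℝ}, (∀ b, f b ≤ 1) → ms B (fun b => ENNReal.ofReal (f b)) ≤ ms B fun _ => 1 := by
    intro B f hf
    unfold ms
    refine ENNReal.tsum_le_tsum fun b => ?_
    split_ifs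
    · exact mul_le_mul_right (ENNReal.ofReal_le_one.2 (hf _)) _
    · exact le_rfl
  -- the inequality for all functions near `S`, `S'`
  have lowψ : ∀ ψ ψ' : Pie →ᵇ ℝ, (∀ x, 0 ≤ ψ x) → (∀ x, ψ x ≤ 1) → (∀ x, 0 ≤ ψ' x) → (∀ x, ψ' x ≤ 1) →
      ∫ x, |ψ x - S.indicator (fun _ => (1 : ℝ)) x| ∂μ ≤ e0 → ∫ x, |ψ' x - S'.indicator (fun _ => (1 : ℝ)) x| ∂μ' ≤ e0 →
      ∀ᶠ N : ℕ in (U : Filter ℕ), ENNReal.ofReal p * ms (P.R0 0 P.W (Nm N)) (fun R => ENNReal.ofReal (ct th ((R.length : ℝ) / N))) ≤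
        ms (OtB (ev 0) O (Nm N) (uT (Nm N))) (fun b => ENNReal.ofReal (ψ (cr (Nm N) (uT (Nm N)) b))) *
          (ms (Mw Y Y' W (th / 8) N) (fun _ => 1) *
            ms (OtB (ev 0) O' (Nm N) (uT (Nm N))) fun b => ENNReal.ofReal (ψ' (cr (Nm N) (uT (Nm N)) b))) := by
    intro ψ ψ' a0 a1 a0' a1' a2 a2'
    filter_upwards [hlow, em (hC ψ a0 a1 a2), em (hC' ψ' a0' a1' a2')] with N g1 g2 g3
    refine (g1 (fun b => ψ (cr (Nm N) (uT (Nm N)) b)) (fun b => ψ' (cr (Nm N) (uT (Nm N)) b)) (fun _ => a0 _) (fun _ => a0' _)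
      (fun _ => a1 _) (fun _ => a1' _) g2 g3).trans ?_
    exact mul_le_mul' le_rfl (mul_le_mul' (ms_Mw hth N) le_rfl)
  -- the masses
  obtain ⟨ψ0, b0, b1, b2⟩ := LA.ap_ind μ mS he0
  obtain ⟨ψ0', b0', b1', b2'⟩ := LA.ap_ind μ' mS' he0
  have pos : ∀ {O : Ot} {κ : Measure Pie} {ψ : Pie →ᵇ ℝ}, IsFiniteMeasure κ → (∀ x, 0 ≤ ψ x) → (∀ x, ψ x ≤ 1) →
      (∀ᶠ N : ℕ in (U : Filter ℕ), ms (OtB (ev 0) O (Nm N) (uT (Nm N))) (fun _ => 1) ≤ 1) →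
      (∀ g : Pie →ᵇ ℝ, Tendsto (fun M : ℕ => ∫ x, g x ∂(rm 1 M (uT M) (OtB (ev 0) O M (uT M)) fun _ => 1))
        (U.map Nm : Ultrafilter ℕ) (𝓝 (∫ x, g x ∂κ))) →
      (∀ᶠ M : ℕ in (U.map Nm : Ultrafilter ℕ), ENNReal.ofReal c1 ≤ Sb {b | b ∈ OtB (ev 0) O M (uT M) ∧
        (b.length : ℝ) ≤ A * (ρ * M) ^ (4 / 3 : ℝ)} (fun b => ENNReal.ofReal (ψ (cr M (uT M) b)))) → κ univ ≠ 0 := by
    intro O κ ψ fκ a0 a1 hfin hl hm h0
    have l1 := blk_lim (s := fun N => (Nm N : ℝ)) (t := fun N => uT (Nm N)) (B := fun N => OtB (ev 0) O (Nm N) (uT (Nm N)))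
      (fun g => tm (hl g)) a0
    have hz : ∫ x, ψ x ∂κ = 0 := by
      rw [Measure.measure_univ_eq_zero.1 h0, integral_zero_measure]
    rw [hz] at l1
    have h2 : c1 ≤ 0 := by
      refine ge_of_tendsto l1 ?_
      filter_upwards [em hm, hfin] with N g1 g2
      have g3 : ms (OtB (ev 0) O (Nm N) (uT (Nm N))) (fun b => ENNReal.ofReal (ψ (cr (Nm N) (uT (Nm N)) b))) ≠ ∞ :=
        ne_top_of_le_ne_top ENNReal.one_ne_top ((msψ fun b => a1 _).trans g2)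
      rw [← ENNReal.ofReal_le_iff_le_toReal g3]
      refine g1.trans ?_
      unfold Sb ms
      refine ENNReal.tsum_le_tsum fun b => ?_
      by_cases hb : b ∈ OtB (ev 0) O (Nm N) (uT (Nm N))
      · rw [if_pos hb]
        split_ifs
        · exact le_rfl
        · exact bot_le
      · rw [if_neg hb, if_neg fun h => hb h.1]
    linarith
  have z1 := pos fκ b0 b1 fB1 lκ (hC ψ0 b0 b1 b2)
  have z2 := pos fκ' b0' b1' fB2 lκ' (hC' ψ0' b0' b1' b2')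
  -- the durations
  have hq : Tendsto (fun N : ℕ => uT (Nm N) / N) U (𝓝 κ0) := hκ
  have hR : ∀ᶠ N : ℕ in (U : Filter ℕ), ∀ R ∈ P.R0 0 P.W (Nm N), (R.length : ℝ) ≤ (P.wd P.W).t1 * uT (Nm N) :=
    Eventually.of_forall fun N R hR => (show RsQ _ _ _ _ _ _ _ R from hR).hi
  have hmass : ∃ C : ℝ≥0, ∀ᶠ N : ℕ in (U : Filter ℕ),
      rm (Bt.cb (Nm N)) (Nm N) (uT (Nm N)) (P.R0 0 P.W (Nm N)) (fun _ => 1) univ ≤ C := by
    have hg1 : 0 < P.p.n.rg := by linarith [h.ok.p.n.rg, h.ok.p.n.r, h.ok.p.n.r2]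
    have hg2 : 0 < P.q.n.rg := by linarith [h.ok.q.n.rg, h.ok.q.n.r, h.ok.q.n.r2]
    have hD : 0 < (P.wd P.W).D0 := by
      have h1 := h.ok.far0
      have h2 := h.ok.sp.1
      have h3 := h.ok.sq.1
      linarith
    have hT : 0 < (P.wd P.W).t1 := by
      show 0 < P.W.t1 + (P.p.lk + P.q.lk)
      linarith [h.ok.t0, h.ok.t1, h.ok.p.lk, h.ok.q.lk]
    obtain ⟨⟨C, q1⟩, -⟩ := near_rst (P := P.p.n) (Q := P.q.n) (W := P.wd P.W) hg1 hg2 hD hT (i := 0) (j := -0)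
      (Rs := fun N => P.R0 0 P.W N) (Eventually.of_forall fun N R hR => hR)
    exact ⟨C, hU (nm_top.eventually q1)⟩
  obtain ⟨C, hmass⟩ := hmass
  have low0 : ∃ c0 : ℝ, 0 < c0 ∧ ∀ᶠ N in (U : Filter ℕ), ENNReal.ofReal c0 ≤ Bt.cb (Nm N) * ms (Mw Y Y' W (th / 8) N) fun _ => 1 := by
    have l1 := ct_lim (th := th) (T1 := (P.wd P.W).t1) hmass (fun g => tm (lβ g)) hth hq ht hR
    have l2 := l1.eventually (lt_mem_nhds (half_lt_self hI))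
    refine ⟨p * ((∫ x : Pie, ct th (κ0 * x.2) ∂β) / 2), by positivity, ?_⟩
    filter_upwards [l2, lowψ ψ0 ψ0' b0 b1 b0' b1' b2 b2', fB1, fB2, ht, hN1] with N g1 g2 g3 g4 g5 g6
    rw [rm_int (Nm N : ℝ) (uT (Nm N)) (fun _ => zero_le_one) (g := fun x : Pie => ct th (uT (Nm N) / N * x.2))
      ((ct_cont th).measurable.comp (measurable_const.mul measurable_snd)) fun _ => F3E.ct_nonneg _ _] at g1
    have e1 : (ms (P.R0 0 P.W (Nm N)) fun R => ENNReal.ofReal (1 * ct th (uT (Nm N) / N * (cr (Nm N) (uT (Nm N)) R).2))) =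
        ms (P.R0 0 P.W (Nm N)) fun R => ENNReal.ofReal (ct th ((R.length : ℝ) / N)) := by
      congr 1
      funext R
      have : uT (Nm N) / N * (cr (Nm N) (uT (Nm N)) R).2 = (R.length : ℝ) / N := by
        show uT (Nm N) / N * ((R.length : ℝ) / uT (Nm N)) = (R.length : ℝ) / N
        field_simp
      rw [this, one_mul]
    rw [e1, ← ENNReal.toReal_mul] at g1
    have g7 : ENNReal.ofReal ((∫ x : Pie, ct th (κ0 * x.2) ∂β) / 2) ≤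
        Bt.cb (Nm N) * ms (P.R0 0 P.W (Nm N)) fun R => ENNReal.ofReal (ct th ((R.length : ℝ) / N)) :=
      (ENNReal.ofReal_le_ofReal g1.le).trans ENNReal.ofReal_toReal_le
    have g8 : ms (OtB (ev 0) O (Nm N) (uT (Nm N))) (fun b => ENNReal.ofReal (ψ0 (cr (Nm N) (uT (Nm N)) b))) *
          (ms (Mw Y Y' W (th / 8) N) (fun _ => 1) *
            ms (OtB (ev 0) O' (Nm N) (uT (Nm N))) fun b => ENNReal.ofReal (ψ0' (cr (Nm N) (uT (Nm N)) b))) ≤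
        1 * (ms (Mw Y Y' W (th / 8) N) (fun _ => 1) * 1) :=
      mul_le_mul' ((msψ fun b => b1 _).trans g3) (mul_le_mul' le_rfl ((msψ fun b => b1' _).trans g4))
    rw [one_mul, mul_one] at g8
    calc ENNReal.ofReal (p * ((∫ x : Pie, ct th (κ0 * x.2) ∂β) / 2)) =
          ENNReal.ofReal p * ENNReal.ofReal ((∫ x : Pie, ct th (κ0 * x.2) ∂β) / 2) := ENNReal.ofReal_mul hp.le
      _ ≤ ENNReal.ofReal p * (Bt.cb (Nm N) * ms (P.R0 0 P.W (Nm N)) fun R => ENNReal.ofReal (ct th ((R.length : ℝ) / N))) :=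
          mul_le_mul' le_rfl g7
      _ = Bt.cb (Nm N) * (ENNReal.ofReal p * ms (P.R0 0 P.W (Nm N)) fun R => ENNReal.ofReal (ct th ((R.length : ℝ) / N))) := by ring
      _ ≤ _ := mul_le_mul' le_rfl (g2.trans g8)
  have md := md_of (δ := th / 8) h hU lβ lκ lκ' low0 z1 z2
  obtain ⟨Q, fQ, marg, ⟨u, hu, lu, fu, hQ⟩, -, hcl⟩ := mark_limU md
  -- the numbers of letters of the blocks
  have hB : ∀ {O : Ot}, O.Nr (bO ρ τ) → ∀ᶠ N : ℕ in (U : Filter ℕ), ∀ b ∈ OtB (ev 0) O (Nm N) (uT (Nm N)),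
      (b.length : ℝ) ≤ th / 32 * N := by
    intro O hO
    filter_upwards [hU (eventually_ge_atTop m0), hN1, ht] with N g1 g2 g3 b hb
    obtain ⟨-, -, -, -, b5⟩ := hbd N g1
    have b6 : uT (Nm N) ≤ C' * N := b5
    have b7 : (b.length : ℝ) ≤ O.lb * uT (Nm N) := (show OtM _ _ _ _ b from hb).lb
    have b8 : O.lb ≤ 101 / 100 * (99/100 * τ) := hO.lb.2
    have b9 : τ ≤ th / (64 * C') := hτ1.trans (min_le_right _ _)
    rw [le_div_iff₀ (by positivity)] at b9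
    calc (b.length : ℝ) ≤ O.lb * uT (Nm N) := b7
      _ ≤ 2 * τ * uT (Nm N) := mul_le_mul_of_nonneg_right (by linarith) g3.le
      _ ≤ 2 * τ * (C' * N) := mul_le_mul_of_nonneg_left b6 (by positivity)
      _ = (τ * (64 * C')) / 32 * N := by ring
      _ ≤ th / 32 * N := mul_le_mul_of_nonneg_right (by linarith) g2.le
  have hM : ∀ᶠ N : ℕ in (U : Filter ℕ), ∀ m ∈ Mw Y Y' W (th / 8) N, |(m.length : ℝ) / N - 1| ≤ th / 8 :=
    Eventually.of_forall fun N m hm => hm.2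
  -- the marginals
  have m2 : Measurable (two : MP → Pie × Pie) := two_cont.measurable
  have dom : Q.map (fun z => (two z).1) = (ENNReal.ofReal u * κ' univ) • κ := by
    have e : Q.map (fun z => (two z).1) = (Q.map two).map Prod.fst := (Measure.map_map measurable_fst m2).symm
    rw [e, hQ, Measure.map_smul, Measure.map_fst_prod, smul_smul]
  have dom' : Q.map (fun z => (two z).2) = (ENNReal.ofReal u * κ univ) • κ' := by
    have e : Q.map (fun z => (two z).2) = (Q.map two).map Prod.snd := (Measure.map_map measurable_snd m2).symm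
    rw [e, hQ, Measure.map_smul, Measure.map_snd_prod, smul_smul]
  have hloc' : ∀ᵐ z ∂Q, (two z).1 ∈ S → (two z).2 ∈ S' → z.1 ∈ D := by
    refine hloc Q fQ marg ⟨u, hu, hQ⟩ fun E hE hev => hcl E hE ?_
    filter_upwards [em hev] with N g b hb m hm b' hb'
    exact g b hb m hm.1 b' hb'
  refine LA.low2_lim (P := Q) (m := β) (k := κ) (μ := μ) (k' := κ') (μ' := μ') (pr := Prod.fst) (pb := fun z => (two z).1)
    (pb' := fun z => (two z).2) measurable_fst (measurable_fst.comp m2) (measurable_snd.comp m2)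
    (C := ENNReal.ofReal u * κ' univ + ENNReal.ofReal u * κ univ)
    (ENNReal.add_ne_top.2 ⟨ENNReal.mul_ne_top ENNReal.ofReal_ne_top (measure_ne_top _ _),
      ENNReal.mul_ne_top ENNReal.ofReal_ne_top (measure_ne_top _ _)⟩) marg ?_ ?_ hκμ hκμ' (ct := ctB th κ0)
    (fun _ => F3E.ct_nonneg _ _) (fun _ => F3E.ct_le_one _ _) he0 mS mS' mD (fun ψ ψ' a0 a1 a0' a1' a2 a2' => ?_) hloc'
  · rw [dom]
    intro E
    rw [Measure.smul_apply, Measure.smul_apply, smul_eq_mul, smul_eq_mul]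
    exact mul_le_mul' le_self_add le_rfl
  · rw [dom']
    intro E
    rw [Measure.smul_apply, Measure.smul_apply, smul_eq_mul, smul_eq_mul]
    exact mul_le_mul' le_add_self le_rfl
  · exact low_lim md hu lu fu hQ hcl hth hκ0 hp.le hq ht (Eventually.of_forall fun N => Bt.cb_top _) hR (hB hO) (hB hO') hM
      (fB1.mono fun N hN => ne_top_of_le_ne_top ENNReal.one_ne_top hN)
      (fB2.mono fun N hN => ne_top_of_le_ne_top ENNReal.one_ne_top hN) a0 a0' a1 a1' (lowψ ψ ψ' a0 a1 a0' a1' a2 a2')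

end Pool.Agent.ROT.F3
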