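import Pool.Agent.ROT.F3GtT
import Pool.Agent.ROT.F3ClsL
import Pool.Agent.ROT.W4M

/-!
# ROT / F3GtC (helper61): the gates of the strands of a closed word with two roots

* `ps_pcw` : the vertices of a piece read in any direction; `BaP` : the two balls of a double gate, `bap_iff`;
* **`strand_seg`** : the gate part `StG` of a strand = the gate part of its prefix and `RestC` of the rest up to the next gate;
* `sgE`, `sgc`, `sgx` : the gates of the turned strand `k : Arm` exist, their numbers; **`arm_iff`** : they are the gate part `StG`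
  (up to the two balls).
-/

set_option autoImplicit false

namespace Pool.Agent.ROT.F3

open Finset ComplexConjugate unitInterval
open scoped ENNReal Classical

/-! ### pieces read in both directions -/

/-- the number of the vertex number `a` of the piece from `i` to `j` -/
def stpw (i j a : ℕ) : ℕ := if i ≤ j then i + a else i - a

lemma ps_pcw {w : W3} {i j a : ℕ} (ei : Even i) (ej : Even j) (hi : i ≤ w.length) (hj : j ≤ w.length) (ha : a ≤ ndi i j) :
    ps (pcw w i j) a = ps w (stpw i j a) - ps w i := by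
  rcases le_or_gt i j with h | h
  · rw [ndi_of_le h] at ha
    rw [pcw_of_le h, ps_seg ei h hj ha, fw, stpw, if_pos h]
  · rw [ndi_of_ge h.le] at ha
    rw [pcw_of_ge h.le, ps_seg_reverse ej ei h.le hi ha, bw, stpw, if_neg (by omega)]

/-- the two balls of a double gate: from `i` to `j` in the ball `r`, from `j` to `k` in the ball `r2` around `j` -/
def BaP (r r2 S : ℝ) (w : W3) (i j k : ℕ) : Prop :=
  (∀ m : ℕ, m ≤ (pcw w i j).length → ‖ps (pcw w i j) m‖ ≤ r * S) ∧
    ∀ m : ℕ, m ≤ (pcw w j k).length → ‖ps (pcw w j k) m‖ ≤ r2 * S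

/-- four numbers in the order of reading -/
def Ch4 (n i a b k : ℕ) : Prop := (i ≤ a ∧ a ≤ b ∧ b ≤ k ∧ k ≤ n) ∨ (k ≤ b ∧ b ≤ a ∧ a ≤ i ∧ i ≤ n)

section

variable {w : W3} {d : ℂ} {P Q : Tp} {S D0 r r2 : ℝ} {i a b b' a' k : ℕ}

/-- the balls as balls of the strand -/
lemma bap_iff (hc : Ch4 w.length i a b k) (ei : Even i) (ea : Even a) (eb : Even b) (ek : Even k) :
    BaP r r2 S w i a b ↔ (∀ j : ℕ, j ≤ ndi i a → ‖ps (pcw w i k) j‖ ≤ r * S) ∧
      ∀ j : ℕ, ndi i a ≤ j → j ≤ ndi i b → ‖ps (pcw w i k) j - ps (pcw w i k) (ndi i a)‖ ≤ r2 * S := by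
  have hi : i ≤ w.length := by rcases hc with h | h <;> omega
  have ha : a ≤ w.length := by rcases hc with h | h <;> omega
  have hb : b ≤ w.length := by rcases hc with h | h <;> omega
  have hk : k ≤ w.length := by rcases hc with h | h <;> omega
  have l1 : (pcw w i a).length = ndi i a := length_pcw hi ha le_rfl
  have l2 : (pcw w a b).length = ndi a b := length_pcw ha hb le_rfl
  have n1 : ndi i b = ndi i a + ndi a b := by unfold ndi; rcases hc with h | h <;> omega
  have n2 : ndi i b ≤ ndi i k := by unfold ndi; rcases hc with h | h <;> omega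
  have p1 : ∀ m, m ≤ ndi i a → ps (pcw w i a) m = ps (pcw w i k) m := fun m hm => by
    rw [ps_pcw ei ea hi ha hm, ps_pcw ei ek hi hk (by omega)]
    congr 2
    unfold ndi at hm
    unfold stpw
    split_ifs <;> rcases hc with h | h <;> omega
  have p2 : ∀ m, m ≤ ndi a b → ps (pcw w a b) m = ps (pcw w i k) (ndi i a + m) - ps (pcw w i k) (ndi i a) := fun m hm => by
    have e1 : stpw i k (ndi i a) = a := by
      unfold stpw ndi
      split_ifs <;> rcases hc with h | h <;> omega
    have e2 : stpw i k (ndi i a + m) = stpw a b m := by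
      unfold ndi at hm
      unfold stpw ndi
      split_ifs <;> rcases hc with h | h <;> omega
    rw [ps_pcw ea eb ha hb hm, ps_pcw ei ek hi hk (by omega), ps_pcw ei ek hi hk (by omega), sub_sub_sub_cancel_right, e1, e2]
  unfold BaP
  rw [l1, l2]
  refine and_congr (forall₂_congr fun m hm => by rw [p1 m hm]) ⟨fun h j hj hj' => ?_, fun h m hm => ?_⟩
  · have := h (j - ndi i a) (by omega)
    rwa [p2 _ (by omega), show ndi i a + (j - ndi i a) = j by omega] at this
  · rw [p2 m hm]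
    exact h _ (by omega) (by omega)

/-- six numbers in the order of reading -/
def Ch6 (n i a b b' a' k : ℕ) : Prop :=
  (i ≤ a ∧ a ≤ b ∧ b ≤ b' ∧ b' ≤ a' ∧ a' ≤ k ∧ k ≤ n) ∨ (k ≤ a' ∧ a' ≤ b' ∧ b' ≤ b ∧ b ≤ a ∧ a ≤ i ∧ i ≤ n)

/-- **a strand and its pieces** : `i` = root, `a`, `b` = gates `c`, `x`, `b'`, `a'` = gates `x`, `c` at the other root `k` -/
theorem strand_seg (hc : Ch6 w.length i a b b' a' k) (eb : Even b) (eb' : Even b') (ea' : Even a')
    (ek : Even k) (hbb : b ≠ b') (hS : 0 < S) (hQ : 2 * Q.r ≤ Q.r2) (hD : P.rg + 2 * Q.r2 < D0)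
    (hf : D0 * S ≤ ‖en (pcw w b b')‖) (hq : BaP Q.r Q.r2 S w k a' b') :
    StG d (P.r * S) (P.l * S) (P.r2 * S) (P.m * S) (P.th * P.m * S) (P.rg * S) (pcw w i k) (ndi i a) (ndi i b) ↔
      PreG d P S (pcw w i b) (ndi i a) ∧ RestC d (P.rg * S) (pcw w b b') := by
  have hi : i ≤ w.length := by rcases hc with h | h <;> omega
  have hb : b ≤ w.length := by rcases hc with h | h <;> omega
  have hb' : b' ≤ w.length := by rcases hc with h | h <;> omega
  have hk : k ≤ w.length := by rcases hc with h | h <;> omega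
  have t1 : (pcw w i k).take (ndi i b) = pcw w i b := pcw_take (n := w.length) (by unfold Btw; rcases hc with h | h <;> omega) hi le_rfl
  have t2 : (pcw w i k).drop (ndi i b) = pcw w b k := pcw_drop (n := w.length) (by unfold Btw; rcases hc with h | h <;> omega) hi le_rfl
  have t3 : pcw w b k = pcw w b b' ++ pcw w b' k := by
    rw [← pcw_take (w := w) (i := b) (j := b') (k := k) (n := w.length) (by unfold Btw; rcases hc with h | h <;> omega) hb le_rfl,
      ← pcw_drop (w := w) (i := b) (j := b') (k := k) (n := w.length) (by unfold Btw; rcases hc with h | h <;> omega) hb le_rfl,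
      List.take_append_drop]
  have lR : (pcw w b b').length = ndi b b' := length_pcw hb hb' le_rfl
  have lV : (pcw w b' k).length = ndi b' k := length_pcw hb' hk le_rfl
  have eR : Even (pcw w b b').length := by
    rw [lR]
    unfold ndi
    exact (eb'.tsub eb).add (eb.tsub eb')
  -- the other end
  have hV : ∀ j : ℕ, j ≤ (pcw w b' k).length → P.rg * S < ‖en (pcw w b b') + ps (pcw w b' k) j‖ := by
    intro j hj
    rw [lV] at hj
    obtain ⟨q1, q2⟩ := (bap_iff (w := w) (S := S) (i := k) (a := a') (b := b') (k := b') (r := Q.r) (r2 := Q.r2)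
      (by unfold Ch4; rcases hc with h | h <;> omega) ek ea' eb' eb').1 hq
    have rr : 2 * (Q.r * S) ≤ Q.r2 * S := by
      calc 2 * (Q.r * S) = 2 * Q.r * S := by ring
        _ ≤ Q.r2 * S := mul_le_mul_of_nonneg_right hQ hS.le
    have h1 := gt_dm rr q1 q2 (i := ndi k b' - j) (j := ndi k b') (Nat.sub_le _ _) le_rfl
    have hj' : j ≤ ndi k b' := by rwa [ndi_comm]
    have e1 : ps (pcw w k b') (ndi k b' - j) - ps (pcw w k b') (ndi k b') = ps (pcw w b' k) j := by
      rw [ps_pcw ek eb' hk hb' (Nat.sub_le _ _), ps_pcw ek eb' hk hb' le_rfl, ps_pcw eb' ek hb' hk hj,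
        sub_sub_sub_cancel_right]
      have e2 : stpw k b' (ndi k b' - j) = stpw b' k j := by
        unfold ndi at hj'
        unfold stpw ndi
        split_ifs <;> omega
      have e3 : stpw k b' (ndi k b') = b' := by
        unfold stpw ndi
        split_ifs <;> omega
      rw [e2, e3]
    rw [e1] at h1
    have h2 : ‖en (pcw w b b')‖ ≤ ‖en (pcw w b b') + ps (pcw w b' k) j‖ + ‖ps (pcw w b' k) j‖ := by
      calc ‖en (pcw w b b')‖ = ‖(en (pcw w b b') + ps (pcw w b' k) j) - ps (pcw w b' k) j‖ := by congr 1; ring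
        _ ≤ _ := norm_sub_le _ _
    have h3 : (P.rg + 2 * Q.r2) * S < D0 * S := mul_lt_mul_of_pos_right hD hS
    have h4 : (P.rg + 2 * Q.r2) * S = P.rg * S + 2 * (Q.r2 * S) := by ring
    linarith
  constructor
  · rintro ⟨-, g1, g2, g3⟩
    rw [t1] at g1 g2
    rw [t2, t3] at g3
    exact ⟨⟨g1, g2⟩, (restC_far eR hV).1 g3⟩
  · rintro ⟨⟨g1, g2⟩, g3⟩
    refine ⟨?_, ?_, ?_, ?_⟩
    · rw [length_pcw hi hk le_rfl]
      unfold ndi
      rcases hc with h | h <;> omega
    · rw [t1]
      exact g1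
    · rw [t1]
      exact g2
    · rw [t2, t3]
      exact (restC_far eR hV).2 g3

/-- the balls are a part of the gate part -/
lemma PreG.bap (hc : Ch4 w.length i a b b) (g : PreG d P S (pcw w i b) (ndi i a)) : BaP P.r P.r2 S w i a b := by
  have hi : i ≤ w.length := by rcases hc with h | h <;> omega
  have ha : Btw i a b := by unfold Btw; rcases hc with h | h <;> omega
  have t1 := pcw_take (w := w) ha hi le_rfl
  have t2 := pcw_drop (w := w) ha hi le_rfl
  obtain ⟨-, hA, -, hB, -⟩ := g.g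
  rw [t1] at hA
  rw [t2] at hB
  exact ⟨hA.ball, hB.t.ball⟩

end

/-! ### the turned strands -/

lemma arcw_mp (m : ℕ) (k : Arm) (T : LSym) (w : W3) : arcw m k (mp T w) = mp T (arcw m k w) := by
  cases k
  · exact (mp_take T w m).symm
  · show ((mp T w).take m).reverse = mp T (w.take m).reverse
    rw [mp_reverse, mp_take]
  · exact (mp_drop T w m).symm
  · show ((mp T w).drop m).reverse = mp T (w.drop m).reverse
    rw [mp_reverse, mp_drop]

/-- the gates of a strand exist; `p` = base -/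
def sgE (G : GP) (T : LSym) (p S : ℝ) (k : Arm) (x : W3 × ℕ) : Prop :=
  ∃ q : ℕ × ℕ × ℕ, SGt G p S (arcw x.2 k (mp T x.1)).get q.1 q.2.1 q.2.2

/-- the gate `c` of the strand, counted from the root of the strand -/
noncomputable def sgc (G : GP) (T : LSym) (p S : ℝ) (k : Arm) (x : W3 × ℕ) : ℕ :=
  if h : sgE G T p S k x then h.choose.1 else 0

/-- the gate `x` of the strand -/
noncomputable def sgx (G : GP) (T : LSym) (p S : ℝ) (k : Arm) (x : W3 × ℕ) : ℕ :=
  if h : sgE G T p S k x then h.choose.2.1 else 0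

lemma sg_spec {G : GP} {T : LSym} {p S : ℝ} {k : Arm} {x : W3 × ℕ} (h : sgE G T p S k x) :
    ∃ y, SGt G p S (arcw x.2 k (mp T x.1)).get (sgc G T p S k x) (sgx G T p S k x) y := by
  refine ⟨h.choose.2.2, ?_⟩
  unfold sgc sgx
  rw [dif_pos h, dif_pos h]
  exact h.choose_spec

lemma sg_eq {G : GP} {P : Tp} {T : LSym} {p S : ℝ} {k : Arm} {x : W3 × ℕ} {c b y : ℕ} (hG : G.Ok P) (hS : 0 ≤ S)
    (h : SGt G p S (arcw x.2 k (mp T x.1)).get c b y) : sgE G T p S k x ∧ sgc G T p S k x = c ∧ sgx G T p S k x = b := by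
  have hE : sgE G T p S k x := ⟨(c, b, y), h⟩
  obtain ⟨y', h'⟩ := sg_spec hE
  obtain ⟨e1, e2, -⟩ := SGt.uniq hG hS h' h
  exact ⟨hE, e1, e2⟩

/-- **the gates of the strand `k` of the closed word** -/
theorem arm_iff {T : LSym} {d : ℂ} {G : GP} {P : Tp} {p S : ℝ} {w : W3} {m : ℕ} {k : Arm} {c b : ℕ} (hT : T.L d = 1)
    (hu : SW (arcw m k w)) (hP : P.Ok) (hG : G.Ok P) (hp : 0 ≤ p) (hS : 0 < S) (h1 : 1 ≤ G.ρ1 * S) (h2 : 1 ≤ G.ρ'' * S)
    (hcx : c ≤ b) (hx : b < (arcw m k w).length) :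
    StG d (P.r * S) ((P.l + p) * S) (P.r2 * S) (P.m * S) (P.th * P.m * S) (P.rg * S) (arcw m k w) c b ↔
      (sgE G T p S k (w, m) ∧ c = sgc G T p S k (w, m) ∧ b = sgx G T p S k (w, m)) ∧
        (∀ j : ℕ, j ≤ c → ‖ps (arcw m k w) j‖ ≤ P.r * S) ∧
          ∀ j : ℕ, c ≤ j → j ≤ b → ‖ps (arcw m k w) j - ps (arcw m k w) c‖ ≤ P.r2 * S := by
  rw [strand_iff hT rfl hu hP hG hp hS h1 h2 hcx hx]
  refine and_congr_left' ⟨?_, ?_⟩
  · rintro ⟨y, h⟩
    rw [← arcw_mp] at h
    obtain ⟨e1, e2, e3⟩ := sg_eq (x := (w, m)) hG hS.le h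
    exact ⟨e1, e2.symm, e3.symm⟩
  · rintro ⟨e1, e2, e3⟩
    obtain ⟨y, h⟩ := sg_spec e1
    rw [← e2, ← e3] at h
    refine ⟨y, ?_⟩
    rw [← arcw_mp]
    exact h

end Pool.Agent.ROT.F3
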