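import Pool.Agent.ROT.F3ArmQ
import Pool.Agent.ROT.F3GtC

/-!
# ROT / F3C0D (helper48): all the double gates of a thin arm, for all base levels in a window

`RoomU P D d x0 F` : the inequalities for all base levels in `[x0, x0 + 12 d]`; `Cut3` : three cuts in windows of width `28 d`.
* **`det_all`** : the arm has, for EVERY base level `l` in `[x0, x0 + 12 d]`, its double gate for `P.up l`: `PreM`, `EdQ`, levels,
  before the third cut;
* `det_sgt`, `det_gb` : the gates `SGt`, `GB2` of the turned strand; `gb2_base` : `Dv (p * S)` at `a` = `LG` at `a + p`;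
* **`det_sg`** : `sgE`, `sgc`, `sgx` of the strand `k` of the closed word, for all bases `p` in `[x0, x0 + 12 d]`.
-/

set_option autoImplicit false

namespace Pool.Agent.ROT.F3

open Finset ComplexConjugate
open scoped ENNReal Classical

/-! ### the double gates over all base levels -/

/-- **the inequalities for all base levels in `[x0, x0 + 12 d]`** (units `S`): `D` = width of the arm, cuts in windows of
width `28 d` -/
structure RoomU (P : Tp) (D d x0 F : ℝ) : Prop where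
  D0 : 0 ≤ D
  d0 : 0 < d
  x00 : 0 ≤ x0
  r : P.l + x0 + 52 * d + 2 * D ≤ P.r
  r2 : P.m + 80 * d + 4 * D ≤ P.r2
  κ1 : 4 * D ≤ P.κ1
  κ : 4 * D ≤ P.κ
  e : P.e + 2 * D ≤ (1 - P.cs) * P.l
  rg : P.l + P.m + x0 + 92 * d + 2 * D + P.rg < F
  r0 : P.l + P.m + x0 + 92 * d + 2 * D + P.r0 < F

/-- the three cuts of the arm, in windows of width `28 d`: `u_1 = x0 + l + 12 d`, `u_2 = x0 + l + th m + 52 d`,
`u_3 = x0 + l + m + 52 d` -/
structure Cut3 (e : ℂ) (v : W3) (s : ℕ) (P : Tp) (d x0 S : ℝ) (c1 c2 c3 : ℕ) : Prop where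
  C1 : CutA e v s c1
  C2 : CutA e v s c2
  C3 : CutA e v s c3
  a1 : (x0 + P.l + 12 * d) * S ≤ lv e (ps v c1)
  a2 : lv e (ps v c1) ≤ (x0 + P.l + 40 * d) * S
  b1 : (x0 + P.l + P.th * P.m + 52 * d) * S ≤ lv e (ps v c2)
  b2 : lv e (ps v c2) < (x0 + P.l + P.m) * S
  d1 : (x0 + P.l + P.m + 52 * d) * S ≤ lv e (ps v c3)
  d2 : lv e (ps v c3) ≤ (x0 + P.l + P.m + 80 * d) * S

/-- **the double gates of the arm over all base levels** -/
theorem det_all {e : ℂ} {v : W3} {s : ℕ} (he : ‖e‖ = 1) {P : Tp} (hP : P.Ok) {S T D F d x0 : ℝ} (hS : 0 < S) (hSW : SW v)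
    (hs : s ≤ v.length) (A : ArmC (D * S) e v s) (hfar : ∀ i : ℕ, s < i → i ≤ v.length → F * S ≤ ‖ps v i‖)
    (hU : RoomU P D d x0 F) (hla : (s : ℝ) ≤ P.la * T) (hlb : (s : ℝ) ≤ P.lb * T) {c1 c2 c3 : ℕ}
    (hc : Cut3 e v s P d x0 S c1 c2 c3) {l : ℝ} (h1 : x0 ≤ l) (h2 : l ≤ x0 + 12 * d) :
    ∃ k1 k2 : ℕ, CutA e v s k1 ∧ CutA e v s k2 ∧ k1 < k2 ∧ k2 ≤ c3 ∧ (l + P.l) * S ≤ lv e (ps v k1) ∧
      lv e (ps v k1) ≤ (l + P.l + 40 * d) * S ∧ P.m * S ≤ lv e (ps v k2) - lv e (ps v k1) ∧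
      lv e (ps v k2) ≤ (l + P.l + P.m + 80 * d) * S ∧
      PreM e (P.up l) S T (v.take k2) k1 ∧ EdQ e P S (v.drop k2) ∧
      ∀ j : ℕ, k2 < j → j ≤ v.length → lv e (ps v k2) < lv e (ps v j) ∨
        (F - (P.l + P.m + x0 + 92 * d + 2 * D)) * S ≤ ‖ps v j - ps v k2‖ := by
  have hl0 : 0 ≤ l := hU.x00.trans h1
  have hd := hU.d0
  have hPu := hP.up hl0
  have hR : Room (P.up l) D (40 * d) := by
    refine ⟨hU.D0, by linarith, ?_, ?_, hU.κ1, hU.κ, ?_⟩
    · show P.l + l + 40 * d + 2 * D ≤ P.r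
      linarith [hU.r]
    · show P.m + 2 * (40 * d) + 4 * D ≤ P.r2
      linarith [hU.r2]
    · show P.e + 2 * D ≤ (1 - P.cs) * (P.l + l)
      have := mul_nonneg (show (0 : ℝ) ≤ 1 - P.cs by linarith [hP.c, hP.c1]) hl0
      linarith [hU.e]
  have sc : ∀ {u w : ℝ}, u ≤ w → u * S ≤ w * S := fun h => mul_le_mul_of_nonneg_right h hS.le
  have scl : ∀ {u w : ℝ}, u < w → u * S < w * S := fun h => mul_lt_mul_of_pos_right h hS
  obtain ⟨k1, k2, K1, K2, g1, g2, g3, g4, g5, g6, g7⟩ := arm_pm he hPu (T := T) hS hs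
    (fun i j hi hj h => hSW i j (hi.trans hs) (hj.trans hs) h) A hR hla hlb hc.C1 hc.C2 hc.C3
    ((sc (by show P.l + l ≤ x0 + P.l + 12 * d; linarith)).trans hc.a1)
    (hc.a2.trans (sc (by show x0 + P.l + 40 * d ≤ P.l + l + 40 * d; linarith)))
    ((sc (by show P.l + l + P.th * P.m + 40 * d ≤ x0 + P.l + P.th * P.m + 52 * d; linarith)).trans hc.b1)
    (hc.b2.trans_le (sc (by show x0 + P.l + P.m ≤ P.l + l + P.m; linarith)))
    ((sc (by show P.l + l + P.m + 40 * d ≤ x0 + P.l + P.m + 52 * d; linarith)).trans hc.d1)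
    (hc.d2.trans (sc (by show x0 + P.l + P.m + 80 * d ≤ P.l + l + P.m + 2 * (40 * d); linarith)))
  have hkw : k2 ≤ v.length := K2.2.1.trans hs
  have hg6 : lv e (ps v k2) ≤ (P.l + l + P.m + 2 * (40 * d)) * S := g6
  have hg6' : lv e (ps v k2) ≤ (P.l + P.m + x0 + 92 * d) * S := hg6.trans (sc (by linarith))
  have hrg : RestC e (P.rg * S) (v.drop k2) := by
    refine rest_cut he hs A K2 hfar ?_
    have h3 : (P.l + P.m + x0 + 92 * d + 2 * D + P.rg) * S < F * S := scl hU.rg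
    linarith
  obtain ⟨τ0, t0, n0⟩ := A.near k2 K2.2.1
  have hx := norm_near he t0 n0
  have htri : ∀ j : ℕ, ‖ps v j‖ ≤ ‖ps v j - ps v k2‖ + ‖ps v k2‖ := fun j => by
    have := norm_add_le (ps v j - ps v k2) (ps v k2)
    rwa [sub_add_cancel] at this
  refine ⟨k1, k2, K1, K2, g1, g2, ?_, ?_, ?_, ?_, g7, ⟨hrg, ?_⟩, ?_⟩
  · have : (P.l + l) * S ≤ lv e (ps v k1) := g3
    linarith
  · have : lv e (ps v k1) ≤ (P.l + l + 40 * d) * S := g4
    linarith
  · exact g5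
  · linarith
  · intro j hj
    rw [List.length_drop] at hj
    rw [ps_append_drop v hkw K2.1]
    rcases Nat.lt_or_ge s (k2 + j) with h | h
    · right
      have i3 := hfar (k2 + j) h (by omega)
      have i4 := htri (k2 + j)
      have i5 : 0 < P.κ * S := mul_pos hP.κ hS
      have i6 : (P.l + P.m + x0 + 92 * d + 2 * D + P.r0) * S < F * S := scl hU.r0
      linarith
    · left
      obtain ⟨τ, t1, n1⟩ := A.near (k2 + j) h
      have i3 : lv e (ps v k2) ≤ lv e (ps v (k2 + j)) := by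
        rcases Nat.eq_zero_or_pos j with h8 | h8
        · rw [h8, add_zero]
        · exact (K2.2.2.2 (k2 + j) (by omega) h).le
      have i4 := near_two he n1 n0 i3
      unfold Kn
      rw [lv_sub]
      have i6 : P.c * ‖ps v (k2 + j) - ps v k2‖ ≤ ‖ps v (k2 + j) - ps v k2‖ :=
        mul_le_of_le_one_left (norm_nonneg _) (by linarith [hP.c1])
      have i7 := mul_le_mul_of_nonneg_right hU.κ hS.le
      linarith
  · intro j hj hj'
    rcases Nat.lt_or_ge s j with h | h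
    · right
      have i3 := hfar j h hj'
      have i4 := htri j
      linarith
    · left
      exact K2.2.2.2 j hj h

/-! ### the start gates of the turned strand -/

/-- the gate part of the strand, from the prefix half and the rest -/
theorem stG_arm {e : ℂ} {v : W3} {P : Tp} {S T : ℝ} {k1 k2 : ℕ} (hk2 : k2 < v.length)
    (h : PreM e P S T (v.take k2) k1) (hr : RestC e (P.rg * S) (v.drop k2)) :
    StG e (P.r * S) (P.l * S) (P.r2 * S) (P.m * S) (P.th * P.m * S) (P.rg * S) v k1 k2 :=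
  ⟨hk2, h.g, h.th, hr⟩

/-- a low cut is before the end, if the end of the word is far -/
lemma cut_lt {e : ℂ} {v : W3} {s : ℕ} (he : ‖e‖ = 1) {D F : ℝ} (A : ArmC D e v s) {k : ℕ} (hk : CutA e v s k)
    (hs : s ≤ v.length) (h1 : lv e (ps v k) + 2 * D < F) (h2 : F ≤ ‖ps v v.length‖) : k < v.length := by
  rcases Nat.lt_or_ge k v.length with h | h
  · exact h
  · exfalso
    obtain ⟨τ0, t0, n0⟩ := A.near k hk.2.1
    have hx := norm_near he t0 n0
    have : k = v.length := le_antisymm (hk.2.1.trans hs) h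
    rw [← this] at h2
    linarith

/-- a proper prefix of a closed word is self avoiding -/
lemma sw_fp {w : W3} (hc : Cl w) {m : ℕ} (hm : m < w.length) : SW (w.take m) := by
  intro i j hi hj h
  rw [List.length_take, min_eq_left hm.le] at hi hj
  rw [ps_take w hi hm.le, ps_take w hj hm.le] at h
  exact cl_inj hc hm hi hj h

section turned

open Pool.Agent.SCF.M (TP Dv)

/-- the base `p` is a shift of the threshold -/
lemma gb2_base {a r ρ m r2 ρ2 p S : ℝ} {n : ℕ} {s : Fin n → Fin 3} {c x : ℕ} :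
    GB2 (Dv s (p * S)) a r ρ m r2 ρ2 S s c x ↔ GB2 (fun a k => Pool.Agent.SCF.M.LG a n s k) (a + p) r ρ m r2 ρ2 S s c x := by
  have e : ∀ k : ℕ, Dv s (p * S) (a * S) k ↔ Pool.Agent.SCF.M.LG ((a + p) * S) n s k := by
    intro k
    show a * S + p * S ≤ _ ↔ (a + p) * S ≤ _
    rw [add_mul]
  unfold GB2 TP
  simp only [e]

/-- **the gates `SGt`** of the turned strand -/
theorem det_sgt {T : LSym} {e : ℂ} {v : W3} (hT : T.L e = 1) (hSW : SW v) {P : Tp} (hP : P.Ok) {G : GP} (hG : G.Ok P) {p S : ℝ}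
    (hp : 0 ≤ p) (hS : 0 < S) (h1 : 1 ≤ G.ρ1 * S) (h2 : 1 ≤ G.ρ'' * S) {k1 k2 : ℕ} (hk : k1 ≤ k2)
    (h : StG e (P.r * S) ((P.l + p) * S) (P.r2 * S) (P.m * S) (P.th * P.m * S) (P.rg * S) v k1 k2) :
    ∃ y : ℕ, SGt G p S (mp T v).get k1 k2 y :=
  ((strand_iff hT rfl hSW hP hG hp hS h1 h2 hk h.lt).1 h).1

/-- **the double gate for the size `LG`** -/
theorem det_gb {T : LSym} {e : ℂ} {v : W3} (hT : T.L e = 1) (hSW : SW v) {P : Tp} (hP : P.Ok) {G : GP} (hG : G.Ok P) {p S : ℝ}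
    (hp : 0 ≤ p) (hS : 0 < S) (h1 : 1 ≤ G.ρ1 * S) (h2 : 1 ≤ G.ρ'' * S) {k1 k2 : ℕ} (hk : k1 ≤ k2)
    (h : StG e (P.r * S) ((P.l + p) * S) (P.r2 * S) (P.m * S) (P.th * P.m * S) (P.rg * S) v k1 k2) :
    GB2 (fun a k => Pool.Agent.SCF.M.LG a (mp T v).length (mp T v).get k) (G.l + p) G.r1 G.ρ1 G.m G.r1' G.ρ' S (mp T v).get k1 k2 := by
  obtain ⟨y, hy⟩ := det_sgt hT hSW hP hG hp hS h1 h2 hk h
  exact gb2_base.1 hy.gx

/-- **the gates of the strand `k` of the closed word, for all bases `p` in `[x0, x0 + 12 d]`** -/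
theorem det_sg {T : LSym} {e : ℂ} (hT : T.L e = 1) {P : Tp} (hP : P.Ok) {G : GP} (hG : G.Ok P) {S : ℝ} (hS : 0 < S)
    (h1 : 1 ≤ G.ρ1 * S) (h2 : 1 ≤ G.ρ'' * S) {x : W3 × ℕ} {k : Arm} (hSW : SW (arcw x.2 k x.1)) {s : ℕ}
    (hs : s ≤ (arcw x.2 k x.1).length) {D F d x0 : ℝ} (A : ArmC (D * S) e (arcw x.2 k x.1) s)
    (hfar : ∀ i : ℕ, s < i → i ≤ (arcw x.2 k x.1).length → F * S ≤ ‖ps (arcw x.2 k x.1) i‖) (hU : RoomU P D d x0 F)
    {c1 c2 c3 : ℕ} (hc : Cut3 e (arcw x.2 k x.1) s P d x0 S c1 c2 c3) (hc3 : c3 < (arcw x.2 k x.1).length) {p : ℝ}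
    (hp : x0 ≤ p) (hp' : p ≤ x0 + 12 * d) :
    sgE G T p S k x ∧ CutA e (arcw x.2 k x.1) s (sgc G T p S k x) ∧ CutA e (arcw x.2 k x.1) s (sgx G T p S k x) ∧
      sgc G T p S k x < sgx G T p S k x ∧ sgx G T p S k x ≤ c3 ∧
      (p + P.l) * S ≤ lv e (ps (arcw x.2 k x.1) (sgc G T p S k x)) ∧
      lv e (ps (arcw x.2 k x.1) (sgc G T p S k x)) ≤ (p + P.l + 40 * d) * S ∧
      P.m * S ≤ lv e (ps (arcw x.2 k x.1) (sgx G T p S k x)) - lv e (ps (arcw x.2 k x.1) (sgc G T p S k x)) ∧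
      lv e (ps (arcw x.2 k x.1) (sgx G T p S k x)) ≤ (p + P.l + P.m + 80 * d) * S ∧
      EdQ e P S ((arcw x.2 k x.1).drop (sgx G T p S k x)) ∧
      ∀ j : ℕ, sgx G T p S k x < j → j ≤ (arcw x.2 k x.1).length →
        lv e (ps (arcw x.2 k x.1) (sgx G T p S k x)) < lv e (ps (arcw x.2 k x.1) j) ∨
          (F - (P.l + P.m + x0 + 92 * d + 2 * D)) * S ≤
            ‖ps (arcw x.2 k x.1) j - ps (arcw x.2 k x.1) (sgx G T p S k x)‖ := by
  have he : ‖e‖ = 1 := by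
    obtain ⟨a, rfl⟩ := ex_ev hT
    exact ev_norm a
  have hp0 : 0 ≤ p := hU.x00.trans hp
  have hn : (0 : ℝ) ≤ s := Nat.cast_nonneg _
  obtain ⟨k1, k2, K1, K2, g1, g2, g3, g4, g5, g6, g7, g8, g9⟩ := det_all (T := (s : ℝ) / P.la + s / P.lb) he hP hS hSW hs A hfar hU
    (by
      have h3 : (s : ℝ) / P.la * P.la = s := div_mul_cancel₀ _ hP.la.ne'
      have h4 : 0 ≤ P.la * ((s : ℝ) / P.lb) := mul_nonneg hP.la.le (div_nonneg hn hP.lb.le)
      rw [mul_add]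
      linarith)
    (by
      have h3 : (s : ℝ) / P.lb * P.lb = s := div_mul_cancel₀ _ hP.lb.ne'
      have h4 : 0 ≤ P.lb * ((s : ℝ) / P.la) := mul_nonneg hP.lb.le (div_nonneg hn hP.la.le)
      rw [mul_add]
      linarith) hc hp hp'
  have hst : StG e (P.r * S) ((P.l + p) * S) (P.r2 * S) (P.m * S) (P.th * P.m * S) (P.rg * S) (arcw x.2 k x.1) k1 k2 :=
    stG_arm (P := P.up p) (lt_of_le_of_lt g2 hc3) g7 g8.right
  obtain ⟨y, hy⟩ := det_sgt hT hSW hP hG hp0 hS h1 h2 g1.le hst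
  rw [← arcw_mp] at hy
  obtain ⟨e1, e2, e3⟩ := sg_eq hG hS.le hy
  rw [e2, e3]
  exact ⟨e1, K1, K2, g1, g2, g3, g4, g5, g6, g8, g9⟩

end turned

end Pool.Agent.ROT.F3
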