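import Pool.Agent.ROT.F3Inst

/-!
# ROT / F3ArmC (helper87, literal of helper86): a thin arm of a word and its cuts

* `ArmC D e w s` : the first `s` letters of `w` stay near the ray in the direction `e`, backtracking at most `D`;
* `CutA e w s c` : `c` is a cut of the arm.
-/

set_option autoImplicit false

namespace Pool.Agent.ROT.F3

/-- **a thin arm**: the vertices 0 .. s of `w` -/
structure ArmC (D : ℝ) (e : ℂ) (w : W3) (s : ℕ) : Prop where
  near : ∀ i : ℕ, i ≤ s → ∃ τ : ℝ, 0 ≤ τ ∧ ‖ps w i - (τ : ℂ) * e‖ ≤ D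
  back : ∀ i j : ℕ, i ≤ j → j ≤ s → lv e (ps w i) ≤ lv e (ps w j) + D

/-- **a cut of the arm** -/
def CutA (e : ℂ) (w : W3) (s c : ℕ) : Prop :=
  Even c ∧ c ≤ s ∧ (∀ i : ℕ, i ≤ c → lv e (ps w i) ≤ lv e (ps w c)) ∧ ∀ i : ℕ, c < i → i ≤ s → lv e (ps w c) < lv e (ps w i)

end Pool.Agent.ROT.F3
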