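import Pool.Agent.ROT.F3Stat
import Pool.Agent.ROT.F3ArmC

/-!
# ROT / F3C0T (helper88, literal of helper86): thin arms of closed curves

* `stB φ g h` : minimum over `τ` of `max (φ (h s) (h t) for s ≤ t ≤ τ, g (h s) for s ≥ τ)`; Lipschitz; `stB_attain`;
* `fNr e v` : distance of `v` to the ray `{t e : 0 ≤ t}`;
* `TubeK D F e τ h` : on `[0, τ]` the curve `h` is near the ray and backtracks at most `D`, on `[τ, 1]` it is outside of the ball
  `F - D`; **`TbS F e`** : the statistic, 2-Lipschitz, **`tbs_le_iff : TbS F e h ≤ D ↔ ∃ τ, TubeK D F e τ h`**;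
* **`tbs_of_arm`**, **`arm_of_tbs`** : words and curves (error `3 / S`);
* **`tube_cut`** : the first stage in a ball; **`tube_rot`**, **`tbs_rot`** : small rotations.
-/

set_option autoImplicit false

namespace Pool.Agent.ROT.F3

open Finset ComplexConjugate unitInterval
open scoped NNReal

/-! ### 1. Two stages, the first one with two times -/

/-- `φ` on the pairs `s ≤ t ≤ τ`, `g` on `[τ, 1]` -/
noncomputable def stB (φ : ℂ → ℂ → ℝ) (g : ℂ → ℝ) (h : C(I, ℂ)) : ℝ :=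
  ⨅ τ : I, ⨆ p : I × I, max (φ (h (min τ (min p.1 p.2))) (h (min τ (max p.1 p.2)))) (g (h (max τ p.1)))

/-- Lipschitz in both variables -/
def LipP (K : ℝ≥0) (φ : ℂ → ℂ → ℝ) : Prop := ∀ v w v' w' : ℂ, ∀ δ : ℝ, ‖v - v'‖ ≤ δ → ‖w - w'‖ ≤ δ → φ v w ≤ φ v' w' + K * δ

section stB

variable {φ : ℂ → ℂ → ℝ} {g : ℂ → ℝ} {K : ℝ≥0}

lemma LipP.cont (hφ : LipP K φ) : Continuous fun p : ℂ × ℂ => φ p.1 p.2 := by
  refine LipschitzWith.continuous (K := K) (LipschitzWith.of_dist_le_mul fun p q => ?_)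
  have h1 : ‖p.1 - q.1‖ ≤ dist p q := by
    rw [← dist_eq_norm, Prod.dist_eq]
    exact le_max_left _ _
  have h2 : ‖p.2 - q.2‖ ≤ dist p q := by
    rw [← dist_eq_norm, Prod.dist_eq]
    exact le_max_right _ _
  have a := hφ p.1 p.2 q.1 q.2 _ h1 h2
  rw [norm_sub_rev] at h1 h2
  have b := hφ q.1 q.2 p.1 p.2 _ h1 h2
  rw [Real.dist_eq, abs_le]
  constructor <;> linarith

lemma stB_cont (hφ : LipP K φ) (hg : LipschitzWith K g) (h : C(I, ℂ)) :
    Continuous fun q : I × (I × I) => max (φ (h (min q.1 (min q.2.1 q.2.2))) (h (min q.1 (max q.2.1 q.2.2))))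
      (g (h (max q.1 q.2.1))) := by
  have e1 : Continuous fun q : I × (I × I) => q.2.1 := continuous_fst.comp continuous_snd
  have e2 : Continuous fun q : I × (I × I) => q.2.2 := continuous_snd.comp continuous_snd
  have e3 : Continuous fun q : I × (I × I) => h (min q.1 (min q.2.1 q.2.2)) :=
    h.continuous.comp (continuous_fst.min (e1.min e2))
  have e4 : Continuous fun q : I × (I × I) => h (min q.1 (max q.2.1 q.2.2)) :=
    h.continuous.comp (continuous_fst.min (e1.max e2))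
  exact (hφ.cont.comp (e3.prodMk e4)).max (hg.continuous.comp (h.continuous.comp (continuous_fst.max e1)))

lemma stB_bdd (hφ : LipP K φ) (hg : LipschitzWith K g) (h : C(I, ℂ)) (τ : I) : BddAbove (Set.range fun p : I × I =>
    max (φ (h (min τ (min p.1 p.2))) (h (min τ (max p.1 p.2)))) (g (h (max τ p.1)))) :=
  (isCompact_range ((stB_cont hφ hg h).comp (continuous_const.prodMk continuous_id))).bddAbove

lemma stB_bdd' (hφ : LipP K φ) (hg : LipschitzWith K g) (h : C(I, ℂ)) : BddBelow (Set.range fun τ : I => ⨆ p : I × I,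
    max (φ (h (min τ (min p.1 p.2))) (h (min τ (max p.1 p.2)))) (g (h (max τ p.1)))) := by
  refine ⟨φ (h 0) (h 0), ?_⟩
  rintro _ ⟨τ, rfl⟩
  have h1 := le_ciSup (stB_bdd hφ hg h τ) (0, 0)
  simp only [min_self, max_self] at h1
  have h2 : min τ 0 = 0 := min_eq_right (unitInterval.nonneg τ)
  rw [h2] at h1
  exact (le_max_left _ _).trans h1

lemma stB_le (hφ : LipP K φ) (hg : LipschitzWith K g) (h : C(I, ℂ)) (τ : I) {a : ℝ}
    (h1 : ∀ s t, s ≤ t → t ≤ τ → φ (h s) (h t) ≤ a) (h2 : ∀ s, τ ≤ s → g (h s) ≤ a) : stB φ g h ≤ a :=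
  (ciInf_le (stB_bdd' hφ hg h) τ).trans (ciSup_le fun _ => max_le
    (h1 _ _ (min_le_min le_rfl (min_le_max)) (min_le_left _ _)) (h2 _ (le_max_left _ _)))

/-- the two stages from the bound of the supremum -/
lemma stB_parts {h : C(I, ℂ)} {τ : I} {a : ℝ}
    (hτ : ∀ p : I × I, max (φ (h (min τ (min p.1 p.2))) (h (min τ (max p.1 p.2)))) (g (h (max τ p.1))) ≤ a) :
    (∀ s t, s ≤ t → t ≤ τ → φ (h s) (h t) ≤ a) ∧ ∀ s, τ ≤ s → g (h s) ≤ a := by
  refine ⟨fun s t hst ht => ?_, fun s hs => ?_⟩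
  · have h1 := (le_max_left _ _).trans (hτ (s, t))
    simp only [min_eq_left hst, max_eq_right hst] at h1
    rwa [min_eq_right (hst.trans ht), min_eq_right ht] at h1
  · have h1 := (le_max_right _ _).trans (hτ (s, s))
    simp only at h1
    rwa [max_eq_right hs] at h1

/-- **the minimum is attained** -/
theorem stB_attain (hφ : LipP K φ) (hg : LipschitzWith K g) {h : C(I, ℂ)} {a : ℝ} (ha : stB φ g h ≤ a) : ∃ τ : I,
    (∀ s t, s ≤ t → t ≤ τ → φ (h s) (h t) ≤ a) ∧ ∀ s, τ ≤ s → g (h s) ≤ a := by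
  obtain ⟨V, hV⟩ : ∃ V : ℕ → Set I, V = fun m : ℕ => {τ : I | ∀ p : I × I,
      max (φ (h (min τ (min p.1 p.2))) (h (min τ (max p.1 p.2)))) (g (h (max τ p.1))) ≤ a + 1 / ((m : ℝ) + 1)} := ⟨_, rfl⟩
  have hne : ∀ m, (V m).Nonempty := by
    intro m
    have hm : (0 : ℝ) < 1 / ((m : ℝ) + 1) := by positivity
    obtain ⟨τ, hτ⟩ := exists_lt_of_ciInf_lt (lt_of_le_of_lt ha (by linarith : a < a + 1 / ((m : ℝ) + 1)))
    refine ⟨τ, ?_⟩
    rw [hV]
    intro p
    exact (le_ciSup (stB_bdd hφ hg h τ) p).trans hτ.le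
  have hcl : ∀ m, IsClosed (V m) := by
    intro m
    rw [hV]
    have e : {τ : I | ∀ p : I × I, max (φ (h (min τ (min p.1 p.2))) (h (min τ (max p.1 p.2)))) (g (h (max τ p.1))) ≤
        a + 1 / ((m : ℝ) + 1)} = ⋂ p : I × I, {τ : I | max (φ (h (min τ (min p.1 p.2))) (h (min τ (max p.1 p.2))))
        (g (h (max τ p.1))) ≤ a + 1 / ((m : ℝ) + 1)} := by
      ext τ
      simp only [Set.mem_iInter]
      rfl
    simp only [e]
    exact isClosed_iInter fun p => isClosed_le ((stB_cont hφ hg h).comp (continuous_id.prodMk continuous_const))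
      continuous_const
  have hmono : ∀ m, V (m + 1) ⊆ V m := by
    intro m τ hτ
    rw [hV] at hτ ⊢
    intro p
    have h1 : 1 / (((m + 1 : ℕ) : ℝ) + 1) ≤ 1 / ((m : ℝ) + 1) := by
      refine one_div_le_one_div_of_le (by positivity) ?_
      push_cast
      linarith
    have h2 := hτ p
    exact h2.trans (by linarith)
  obtain ⟨τ, hτ⟩ := IsCompact.nonempty_iInter_of_sequence_nonempty_isCompact_isClosed V hmono hne (hcl 0).isCompact hcl
  refine ⟨τ, stB_parts fun p => ?_⟩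
  refine le_of_forall_pos_le_add fun ε hε => ?_
  obtain ⟨m, hm⟩ := exists_nat_one_div_lt hε
  have h1 := Set.mem_iInter.1 hτ m
  rw [hV] at h1
  exact (h1 p).trans (by linarith)

lemma stB_le_add (hφ : LipP K φ) (hg : LipschitzWith K g) (h h' : C(I, ℂ)) : stB φ g h ≤ stB φ g h' + K * dist h h' := by
  obtain ⟨τ, t1, t2⟩ := stB_attain hφ hg (h := h') le_rfl
  have dd : ∀ s : I, ‖h s - h' s‖ ≤ dist h h' := fun s => by
    rw [← dist_eq_norm]; exact ContinuousMap.dist_apply_le_dist s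
  refine stB_le hφ hg h τ (fun s t hst ht => ?_) fun s hs => ?_
  · have e1 := hφ (h s) (h t) (h' s) (h' t) _ (dd s) (dd t)
    linarith [t1 s t hst ht]
  · have e1 := lip_le hg (h s) (h' s)
    have e2 : (K : ℝ) * ‖h s - h' s‖ ≤ K * dist h h' := mul_le_mul_of_nonneg_left (dd s) K.2
    linarith [t2 s hs]

/-- **the statistic is Lipschitz** -/
theorem stB_lip (hφ : LipP K φ) (hg : LipschitzWith K g) : LipschitzWith K (stB φ g) :=
  LipschitzWith.of_dist_le_mul fun h h' => by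
    have h1 := stB_le_add hφ hg h h'
    have h2 := stB_le_add hφ hg h' h
    rw [dist_comm h' h] at h2
    rw [Real.dist_eq, abs_le]
    constructor <;> linarith

/-- **from the vertices to the curve** -/
theorem stB_le_of (hφ : LipP K φ) (hg : LipschitzWith K g) {p : W3} {n : ℕ} {S a : ℝ} (hS : 0 < S)
    (h : ∃ ke : ℕ, ke ≤ n ∧ (∀ i j : ℕ, i ≤ j → j ≤ ke → φ (ps p i / S) (ps p j / S) ≤ a) ∧
      ∀ k : ℕ, ke ≤ k → k ≤ n → g (ps p k / S) ≤ a) : stB φ g (crv p n S) ≤ a + K / S := by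
  obtain ⟨ke, hke, h1, h2⟩ := h
  have h6 : (K : ℝ) * (1 / S) = K / S := by ring
  refine stB_le hφ hg _ (fr ke n) (fun s t hst ht => ?_) fun s hs => ?_
  · obtain ⟨i, i', hi, -, -, i1, -, i2, -⟩ := crv_near p n hS s
    obtain ⟨j, j', hj, hj', hjj, j1, j3, j2, j4⟩ := crv_near p n hS t
    have hst' : (s : ℝ) * n ≤ t * n := mul_le_mul_of_nonneg_right hst (Nat.cast_nonneg n)
    have htk : (t : ℝ) * n ≤ ke := by
      rcases Nat.eq_zero_or_pos n with rfl | hn
      · simp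
      · rw [← fr_mul hke hn]
        exact mul_le_mul_of_nonneg_right ht (Nat.cast_nonneg n)
    have hjk : j ≤ ke := by exact_mod_cast j1.trans htk
    rcases le_or_gt j' ke with h3 | h3
    · have hij : i ≤ j' := by exact_mod_cast (i1.trans hst').trans j3
      have e1 := hφ _ _ (ps p i / S) (ps p j' / S) _ i2 j4
      linarith [h1 i j' hij h3]
    · have hjk' : j = ke := by omega
      have hij : i ≤ j := by
        rw [hjk']
        exact_mod_cast (i1.trans hst').trans htk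
      have e1 := hφ _ _ (ps p i / S) (ps p j / S) _ i2 j2
      linarith [h1 i j hij hjk]
  · obtain ⟨-, j, -, hj, -, -, j1, -, j2⟩ := crv_near p n hS s
    have hkj : ke ≤ j := by
      rcases Nat.eq_zero_or_pos n with rfl | hn
      · omega
      · have h3 : (ke : ℝ) ≤ s * n := by
          rw [← fr_mul hke hn]
          exact mul_le_mul_of_nonneg_right hs (Nat.cast_nonneg n)
        exact_mod_cast h3.trans j1
    have e1 := lip_le hg (crv p n S s) (ps p j / S)
    have e2 : (K : ℝ) * ‖crv p n S s - ps p j / S‖ ≤ K * (1 / S) := mul_le_mul_of_nonneg_left j2 K.2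
    linarith [h2 j hkj hj]

/-- **from the curve to the vertices**: exact for the vertices of the two stages, `K / S` at the vertex `ke` -/
theorem of_stB_le (hφ : LipP K φ) (hg : LipschitzWith K g) {p : W3} {n : ℕ} {S a : ℝ} (hS : 0 < S)
    (h : stB φ g (crv p n S) ≤ a) : ∃ ke : ℕ, ke ≤ n ∧ (∀ i j : ℕ, i ≤ j → j ≤ ke → φ (ps p i / S) (ps p j / S) ≤ a) ∧
      (∀ k : ℕ, ke < k → k ≤ n → g (ps p k / S) ≤ a) ∧ g (ps p ke / S) ≤ a + K / S := by
  have hKS : 0 ≤ (K : ℝ) / S := div_nonneg K.2 hS.le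
  have h6 : (K : ℝ) * (1 / S) = K / S := by ring
  obtain ⟨τ, h1, h2⟩ := stB_attain hφ hg h
  obtain ⟨i, j, hi, -, hji, i1, j1, i2, -⟩ := crv_near p n hS τ
  have gi : g (ps p i / S) ≤ a + K / S := by
    have e1 := lip_le hg (ps p i / S) (crv p n S τ)
    rw [norm_sub_rev] at e1
    have e2 : (K : ℝ) * ‖crv p n S τ - ps p i / S‖ ≤ K * (1 / S) := mul_le_mul_of_nonneg_left i2 K.2
    linarith [h2 τ le_rfl]
  refine ⟨i, hi, fun k l hkl hl => ?_, fun k hk hkn => ?_, gi⟩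
  · have hs : ∀ m : ℕ, m ≤ i → fr m n ≤ τ := by
      intro m hm
      rcases Nat.eq_zero_or_pos n with rfl | hn
      · obtain rfl : m = 0 := by omega
        rw [fr_zero]
        exact unitInterval.nonneg τ
      · have h3 : ((fr m n : I) : ℝ) * n ≤ τ * n := by
          rw [fr_mul (by omega) hn]
          have : (m : ℝ) ≤ i := by exact_mod_cast hm
          linarith
        have h4 : ((fr m n : I) : ℝ) ≤ τ := le_of_mul_le_mul_right h3 (by exact_mod_cast hn)
        exact h4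
    have hkl' : fr k n ≤ fr l n := by
      rcases Nat.eq_zero_or_pos n with rfl | hn
      · obtain rfl : k = l := by omega
        exact le_rfl
      · have h3 : ((fr k n : I) : ℝ) * n ≤ ((fr l n : I) : ℝ) * n := by
          rw [fr_mul (by omega) hn, fr_mul (by omega) hn]
          exact_mod_cast hkl
        have h4 : ((fr k n : I) : ℝ) ≤ ((fr l n : I) : ℝ) := le_of_mul_le_mul_right h3 (by exact_mod_cast hn)
        exact h4
    have := h1 _ _ hkl' (hs l hl)
    rwa [crv_fr p (by omega), crv_fr p (by omega)] at this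
  · have hn : 1 ≤ n := by omega
    have hs : τ ≤ fr k n := by
      have h3 : (τ : ℝ) * n ≤ ((fr k n : I) : ℝ) * n := by
        rw [fr_mul hkn hn]
        have : (j : ℝ) ≤ k := by exact_mod_cast (by omega : j ≤ k)
        linarith
      have h4 : (τ : ℝ) ≤ ((fr k n : I) : ℝ) := le_of_mul_le_mul_right h3 (by exact_mod_cast hn)
      exact h4
    have := h2 _ hs
    rwa [crv_fr p hkn] at this

end stB

/-! ### 2. The arm -/

/-- the ray in the direction `e` -/
def rayT (e : ℂ) : Set ℂ := {x | ∃ t : ℝ, 0 ≤ t ∧ x = (t : ℂ) * e}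

lemma zero_mem_rayT (e : ℂ) : (0 : ℂ) ∈ rayT e := ⟨0, le_rfl, by simp⟩

lemma lv_rayT {e : ℂ} (he : ‖e‖ = 1) (τ : ℝ) : lv e ((τ : ℂ) * e) = τ := by
  unfold lv
  have h2 : conj e * ((τ : ℂ) * e) = (τ : ℂ) * (e * conj e) := by ring
  rw [h2, Complex.mul_conj, Complex.normSq_eq_norm_sq, he]
  simp

lemma rayT_closed {e : ℂ} (he : ‖e‖ = 1) : IsClosed (rayT e) := by
  have h1 : rayT e = {x : ℂ | x = ((max 0 (lv e x) : ℝ) : ℂ) * e} := by
    ext x
    constructor
    · rintro ⟨t, ht, rfl⟩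
      show _ = _
      rw [lv_rayT he, max_eq_right ht]
    · intro h
      exact ⟨max 0 (lv e x), le_max_left _ _, h⟩
  rw [h1]
  refine isClosed_eq continuous_id ?_
  exact (Complex.continuous_ofReal.comp (continuous_const.max (lv_lip he).continuous)).mul continuous_const

/-- distance to the ray -/
noncomputable def fNr (e v : ℂ) : ℝ := Metric.infDist v (rayT e)

lemma fNr_lip (e : ℂ) : LipschitzWith 1 (fNr e) := Metric.lipschitz_infDist_pt _

lemma fNr_le_iff {e : ℂ} (he : ‖e‖ = 1) {v : ℂ} {D : ℝ} : fNr e v ≤ D ↔ ∃ t : ℝ, 0 ≤ t ∧ ‖v - (t : ℂ) * e‖ ≤ D := by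
  constructor
  · intro h
    obtain ⟨x, ⟨t, ht, rfl⟩, h2⟩ := IsClosed.exists_infDist_eq_dist (rayT_closed he) (⟨0, zero_mem_rayT e⟩ : (rayT e).Nonempty) v
    refine ⟨t, ht, ?_⟩
    rw [← dist_eq_norm, ← h2]
    exact h
  · rintro ⟨t, ht, h⟩
    refine (Metric.infDist_le_dist_of_mem (show (t : ℂ) * e ∈ rayT e from ⟨t, ht, rfl⟩)).trans ?_
    rwa [dist_eq_norm]

/-- near the ray and backtracking -/
noncomputable def fTb (e v w : ℂ) : ℝ := max (max (fNr e v) (fNr e w)) (lv e v - lv e w)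

lemma fTb_lip {e : ℂ} (he : ‖e‖ = 1) : LipP 2 (fTb e) := by
  intro v w v' w' δ hv hw
  have hδ : 0 ≤ δ := (norm_nonneg _).trans hv
  have e1 := lip_le (fNr_lip e) v v'
  have e2 := lip_le (fNr_lip e) w w'
  have e3 := lip_le (lv_lip he) v v'
  have e4 := lip_le (lv_lip he) w' w
  rw [norm_sub_rev w' w] at e4
  simp only [NNReal.coe_one, one_mul] at e1 e2 e3 e4
  have f1 : fNr e v' ≤ fTb e v' w' := (le_max_left _ _).trans (le_max_left _ _)
  have f2 : fNr e w' ≤ fTb e v' w' := (le_max_right _ _).trans (le_max_left _ _)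
  have f3 : lv e v' - lv e w' ≤ fTb e v' w' := le_max_right _ _
  have h2 : ((2 : ℝ≥0) : ℝ) * δ = δ + δ := by
    push_cast
    ring
  rw [h2]
  refine max_le (max_le ?_ ?_) ?_ <;> linarith

/-- **a thin arm of a curve**: on `[0, τ]` near the ray, backtracking at most `D`; on `[τ, 1]` outside of the ball `F - D` -/
structure TubeK (D F : ℝ) (e : ℂ) (τ : I) (h : C(I, ℂ)) : Prop where
  near : ∀ s : I, s ≤ τ → ∃ t : ℝ, 0 ≤ t ∧ ‖h s - (t : ℂ) * e‖ ≤ D
  back : ∀ s t : I, s ≤ t → t ≤ τ → lv e (h s) ≤ lv e (h t) + D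
  far : ∀ s : I, τ ≤ s → F - D ≤ ‖h s‖

/-- **the statistic** -/
noncomputable def TbS (F : ℝ) (e : ℂ) (h : C(I, ℂ)) : ℝ := stB (fTb e) (fBn F) h

lemma fBn_lip2 {F : ℝ} : LipschitzWith 2 (fBn F) := fBn_lip.weaken (by norm_num)

/-- **the statistic is 2-Lipschitz** -/
theorem tbs_lip {e : ℂ} (he : ‖e‖ = 1) (F : ℝ) : LipschitzWith 2 (TbS F e) := stB_lip (fTb_lip he) fBn_lip2

theorem tbs_le_iff {e : ℂ} (he : ‖e‖ = 1) {F D : ℝ} {h : C(I, ℂ)} : TbS F e h ≤ D ↔ ∃ τ : I, TubeK D F e τ h := by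
  constructor
  · intro ha
    obtain ⟨τ, h1, h2⟩ := stB_attain (fTb_lip he) (fBn_lip2 (F := F)) ha
    refine ⟨τ, fun s hs => ?_, fun s t hst ht => ?_, fun s hs => ?_⟩
    · exact (fNr_le_iff he).1 (((le_max_left _ _).trans (le_max_left _ _)).trans (h1 s s le_rfl hs))
    · have := (le_max_right _ _).trans (h1 s t hst ht)
      linarith
    · have := h2 s hs
      unfold fBn at this
      linarith
  · rintro ⟨τ, h1, h2, h3⟩
    refine stB_le (fTb_lip he) (fBn_lip2 (F := F)) h τ (fun s t hst ht => ?_) fun s hs => ?_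
    · exact max_le (max_le ((fNr_le_iff he).2 (h1 s (hst.trans ht))) ((fNr_le_iff he).2 (h1 t ht)))
        (by linarith [h2 s t hst ht])
    · have := h3 s hs
      unfold fBn
      linarith

/-! ### 3. Words and curves -/

lemma fNr_div {e : ℂ} (he : ‖e‖ = 1) {v : ℂ} {S D : ℝ} (hS : 0 < S) :
    fNr e (v / S) ≤ D ↔ ∃ t : ℝ, 0 ≤ t ∧ ‖v - (t : ℂ) * e‖ ≤ D * S := by
  have hSc : (S : ℂ) ≠ 0 := by exact_mod_cast hS.ne'
  rw [fNr_le_iff he]
  constructor
  · rintro ⟨t, ht, h⟩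
    refine ⟨t * S, by positivity, ?_⟩
    have e1 : v - ((t * S : ℝ) : ℂ) * e = (v / S - (t : ℂ) * e) * S := by
      push_cast
      field_simp
    rw [e1, norm_mul, Complex.norm_real, Real.norm_of_nonneg hS.le]
    exact mul_le_mul_of_nonneg_right h hS.le
  · rintro ⟨t, ht, h⟩
    refine ⟨t / S, by positivity, ?_⟩
    have e1 : v / S - ((t / S : ℝ) : ℂ) * e = (v - (t : ℂ) * e) / S := by
      push_cast
      field_simp
    rw [e1, norm_div, Complex.norm_real, Real.norm_of_nonneg hS.le, div_le_iff₀ hS]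
    exact h

/-- **from the arm of a word to its curve** -/
theorem tbs_of_arm {e : ℂ} (he : ‖e‖ = 1) {D F S : ℝ} (hS : 0 < S) {w : W3} {n s : ℕ} (hs : s < n)
    (A : ArmC (D * S) e w s) (far : ∀ i : ℕ, s < i → i ≤ n → (F - D) * S ≤ ‖ps w i‖) :
    TbS F e (crv w n S) ≤ D + 3 / S := by
  have h0 := stB_le_of (fTb_lip he) (fBn_lip2 (F := F)) (p := w) (n := n) (S := S) (a := D + 1 / S) hS
    ⟨s, hs.le, fun i j hij hj => ?_, fun k hk hkn => ?_⟩
  · have e1 : D + 1 / S + ((2 : ℝ≥0) : ℝ) / S = D + 3 / S := by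
      push_cast
      ring
    rw [e1] at h0
    exact h0
  · have hp : 0 < 1 / S := by positivity
    have g1 : fNr e (ps w i / S) ≤ D := (fNr_div he hS).2 (A.near i (hij.trans hj))
    have g2 : fNr e (ps w j / S) ≤ D := (fNr_div he hS).2 (A.near j hj)
    have g3 : lv e (ps w i / S) - lv e (ps w j / S) ≤ D := by
      rw [stlv_div, stlv_div, ← sub_div, div_le_iff₀ hS]
      linarith [A.back i j hij hj]
    exact max_le (max_le (by linarith) (by linarith)) (by linarith)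
  · unfold fBn
    rw [stnorm_div _ hS]
    have h1 : (F - D) * S - 1 ≤ ‖ps w k‖ := by
      rcases hk.eq_or_lt with rfl | hk
      · have h2 := far (s + 1) (by omega) (by omega)
        have h3 := crvx_ps_le w s
        have h4 : ‖ps w (s + 1)‖ ≤ ‖ps w (s + 1) - ps w s‖ + ‖ps w s‖ := by
          have := norm_add_le (ps w (s + 1) - ps w s) (ps w s)
          rwa [sub_add_cancel] at this
        linarith
      · linarith [far k hk hkn]
    have h2 : (F - D) - 1 / S ≤ ‖ps w k‖ / S := by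
      rw [le_div_iff₀ hS, sub_mul, div_mul_cancel₀ _ hS.ne']
      exact h1
    linarith

/-- **from the curve to the arm of the word** (no error in the first stage and behind it) -/
theorem arm_of_tbs {e : ℂ} (he : ‖e‖ = 1) {D F S : ℝ} (hS : 0 < S) {w : W3} {n : ℕ} (h : TbS F e (crv w n S) ≤ D) :
    ∃ s : ℕ, s ≤ n ∧ ArmC (D * S) e w s ∧ (∀ i : ℕ, s < i → i ≤ n → (F - D) * S ≤ ‖ps w i‖) ∧
      (F - D) * S - 2 ≤ ‖ps w s‖ := by
  obtain ⟨ke, hke, h1, h2, h3⟩ := of_stB_le (fTb_lip he) (fBn_lip2 (F := F)) hS h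
  refine ⟨ke, hke, ⟨fun i hi => ?_, fun i j hij hj => ?_⟩, fun i hi hin => ?_, ?_⟩
  · exact (fNr_div he hS).1 (((le_max_left _ _).trans (le_max_left _ _)).trans (h1 i i le_rfl hi))
  · have h4 : lv e (ps w i / S) - lv e (ps w j / S) ≤ D := (le_max_right _ _).trans (h1 i j hij hj)
    rw [stlv_div, stlv_div, ← sub_div, div_le_iff₀ hS] at h4
    linarith
  · have h4 := h2 i hi hin
    unfold fBn at h4
    rw [stnorm_div _ hS] at h4
    have h5 : F - D ≤ ‖ps w i‖ / S := by linarith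
    rwa [le_div_iff₀ hS] at h5
  · unfold fBn at h3
    rw [stnorm_div _ hS] at h3
    have h5 : F - D - 2 / S ≤ ‖ps w ke‖ / S := by
      have e1 : ((2 : ℝ≥0) : ℝ) / S = 2 / S := by norm_num
      rw [e1] at h3
      linarith
    rw [le_div_iff₀ hS, sub_mul, div_mul_cancel₀ _ hS.ne'] at h5
    linarith

/-! ### 4. The first stage in a ball, rotations -/

lemma TubeK.mono {D F D' F' : ℝ} {e : ℂ} {τ : I} {h : C(I, ℂ)} (a : TubeK D F e τ h) (hD : D ≤ D') (hF : F' - D' ≤ F - D) :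
    TubeK D' F' e τ h :=
  ⟨fun s hs => by
    obtain ⟨t, h1, h2⟩ := a.near s hs
    exact ⟨t, h1, h2.trans hD⟩, fun s t hst ht => by linarith [a.back s t hst ht], fun s hs => hF.trans (a.far s hs)⟩

/-- **the first stage in the ball of radius `F1`** -/
theorem tube_cut {D F F1 : ℝ} {e : ℂ} (he : ‖e‖ = 1) {τ : I} {h : C(I, ℂ)} (a : TubeK D F e τ h) (h0 : ‖h 0‖ ≤ F1)
    (hF : F1 ≤ F + 2 * D) : ∃ τ' : I, τ' ≤ τ ∧ TubeK D (F1 - 2 * D) e τ' h ∧ ∀ s : I, s ≤ τ' → ‖h s‖ ≤ F1 := by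
  by_cases hc : ∀ s : I, s ≤ τ → ‖h s‖ ≤ F1
  · exact ⟨τ, le_rfl, a.mono le_rfl (by linarith), hc⟩
  push Not at hc
  obtain ⟨s1, hs1, hF1⟩ := hc
  -- the first time on the sphere
  obtain ⟨V, hV⟩ : ∃ V : Set I, V = {s : I | F1 ≤ ‖h s‖} := ⟨_, rfl⟩
  have hVc : IsCompact V := by
    rw [hV]
    exact (isClosed_le continuous_const h.continuous.norm).isCompact
  have hVn : V.Nonempty := ⟨s1, by rw [hV]; exact hF1.le⟩
  obtain ⟨ζ, hζ, hmin⟩ := hVc.exists_isMinOn hVn continuous_id.continuousOn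
  have hζ1 : F1 ≤ ‖h ζ‖ := by
    rw [hV] at hζ
    exact hζ
  have hζs : ζ ≤ s1 := hmin (by rw [hV]; exact hF1.le)
  have hbef : ∀ s : I, s < ζ → ‖h s‖ < F1 := by
    intro s hs
    by_contra hn
    have : ζ ≤ s := hmin (by rw [hV]; exact not_lt.1 hn)
    exact absurd hs (not_lt.2 this)
  have hat : ‖h ζ‖ ≤ F1 := by
    rcases (unitInterval.nonneg ζ).eq_or_lt with h5 | h5
    · have h6 : ζ = 0 := Subtype.ext h5.symm
      rw [h6]
      exact h0
    · -- limit from the left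
      by_contra hn
      push Not at hn
      have hopen : IsOpen {s : I | F1 < ‖h s‖} := isOpen_lt continuous_const h.continuous.norm
      obtain ⟨ε, hε, hball⟩ := Metric.isOpen_iff.1 hopen ζ hn
      obtain ⟨r, hr⟩ : ∃ r : ℝ, r = max 0 ((ζ : ℝ) - ε / 2) := ⟨_, rfl⟩
      have hr0 : 0 ≤ r := by rw [hr]; exact le_max_left _ _
      have hrζ : r < ζ := by
        rw [hr]
        exact max_lt h5 (by linarith)
      have hr1 : r ≤ 1 := hrζ.le.trans ζ.2.2
      have h7 : (⟨r, hr0, hr1⟩ : I) ∈ Metric.ball ζ ε := by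
        rw [Metric.mem_ball, Subtype.dist_eq, Real.dist_eq]
        show |r - (ζ : ℝ)| < ε
        rw [abs_sub_comm, abs_of_nonneg (by linarith)]
        have : (ζ : ℝ) - ε / 2 ≤ r := by rw [hr]; exact le_max_right _ _
        linarith
      have h8 : F1 < ‖h ⟨r, hr0, hr1⟩‖ := hball h7
      exact absurd (hbef ⟨r, hr0, hr1⟩ hrζ) (not_lt.2 h8.le)
  refine ⟨ζ, hζs.trans hs1, ⟨fun s hs => a.near s (hs.trans (hζs.trans hs1)), fun s t hst ht =>
    a.back s t hst (ht.trans (hζs.trans hs1)), fun s hs => ?_⟩, fun s hs => ?_⟩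
  · rcases le_or_gt s τ with h5 | h5
    · obtain ⟨t, ht0, ht⟩ := a.near ζ (hs.trans h5)
      have h6 : lv e (h ζ) ≥ t - D := by
        have h7 := lv_abs_le he (h ζ - (t : ℂ) * e)
        rw [lv_sub, lv_rayT he] at h7
        have := (abs_le.1 (h7.trans ht)).1
        linarith
      have h7 : F1 ≤ t + D := by
        have h8 : ‖h ζ‖ ≤ ‖h ζ - (t : ℂ) * e‖ + ‖(t : ℂ) * e‖ := by
          have := norm_add_le (h ζ - (t : ℂ) * e) ((t : ℂ) * e)
          rwa [sub_add_cancel] at this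
        rw [norm_mul, he, mul_one, Complex.norm_real, Real.norm_of_nonneg ht0] at h8
        linarith
      have h8 := a.back ζ s hs h5
      have h9 := (le_abs_self _).trans (lv_abs_le he (h s))
      linarith
    · have := a.far s h5.le
      linarith
  · rcases hs.lt_or_eq with h5 | h5
    · exact (hbef s h5).le
    · rw [h5]
      exact hat

/-- **small rotations**: the first stage in the ball `F1` -/
theorem tube_rot {D F F1 : ℝ} {e z : ℂ} (he : ‖e‖ = 1) (hz : ‖z‖ = 1) {τ : I} {h h' : C(I, ℂ)} (hh : ∀ s, h' s = z * h s)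
    (a : TubeK D F e τ h) (hF : ∀ s : I, s ≤ τ → ‖h s‖ ≤ F1) : TubeK (D + 2 * (‖z - 1‖ * F1)) F e τ h' := by
  have hF1 : 0 ≤ F1 := (norm_nonneg _).trans (hF 0 (unitInterval.nonneg τ))
  have hz1 : 0 ≤ ‖z - 1‖ * F1 := mul_nonneg (norm_nonneg _) hF1
  have hd : ∀ s : I, s ≤ τ → ‖h' s - h s‖ ≤ ‖z - 1‖ * F1 := by
    intro s hs
    rw [hh, show z * h s - h s = (z - 1) * h s by ring, norm_mul]
    exact mul_le_mul_of_nonneg_left (hF s hs) (norm_nonneg _)
  have hl : ∀ s : I, s ≤ τ → |lv e (h' s) - lv e (h s)| ≤ ‖z - 1‖ * F1 := by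
    intro s hs
    rw [← lv_sub]
    exact (lv_abs_le he _).trans (hd s hs)
  refine ⟨fun s hs => ?_, fun s t hst ht => ?_, fun s hs => ?_⟩
  · obtain ⟨t, ht0, ht⟩ := a.near s hs
    refine ⟨t, ht0, ?_⟩
    have h1 : ‖h' s - (t : ℂ) * e‖ ≤ ‖h' s - h s‖ + ‖h s - (t : ℂ) * e‖ := by
      have := norm_add_le (h' s - h s) (h s - (t : ℂ) * e)
      rwa [sub_add_sub_cancel] at this
    linarith [hd s hs]
  · have h1 := (abs_le.1 (hl s (hst.trans ht))).2
    have h2 := (abs_le.1 (hl t ht)).1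
    linarith [a.back s t hst ht]
  · rw [hh, norm_mul, hz, one_mul]
    linarith [a.far s hs]

/-- **the statistic and small rotations** -/
theorem tbs_rot {D F F1 : ℝ} {e z : ℂ} (he : ‖e‖ = 1) (hz : ‖z‖ = 1) {h h' : C(I, ℂ)} (hh : ∀ s, h' s = z * h s)
    (h0 : ‖h 0‖ ≤ F1) (hF : F1 ≤ F + 2 * D) (ha : TbS F e h ≤ D) :
    TbS (F1 - 2 * D) e h' ≤ D + 2 * (‖z - 1‖ * F1) := by
  obtain ⟨τ, a⟩ := (tbs_le_iff he).1 ha
  obtain ⟨τ', -, b, c⟩ := tube_cut he a h0 hF
  exact (tbs_le_iff he).2 ⟨τ', tube_rot he hz hh b c⟩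

/-- a smaller ball -/
lemma tbs_mono {e : ℂ} (he : ‖e‖ = 1) {F F' : ℝ} (hF : F' ≤ F) (h : C(I, ℂ)) : TbS F' e h ≤ TbS F e h := by
  obtain ⟨τ, a⟩ := (tbs_le_iff he (D := TbS F e h)).1 le_rfl
  exact (tbs_le_iff he).2 ⟨τ, a.mono le_rfl (by linarith)⟩

/-- the Lipschitz bound, one sided form -/
lemma tbs_le_add {e : ℂ} (he : ‖e‖ = 1) (F : ℝ) (h h' : C(I, ℂ)) : TbS F e h ≤ TbS F e h' + 2 * dist h h' := by
  have := stB_le_add (fTb_lip he) (fBn_lip2 (F := F)) h h'
  exact_mod_cast this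

end Pool.Agent.ROT.F3
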