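import Pool.Agent.ROT.F3C0W
import Pool.Agent.ROT.F3C0T

/-!
# ROT, F3 (B), row C0At (helper88, literal of helper86): the thin arm of a closed curve with a second root, as a continuous cut-off

* `hX l1 ρ x` : the strand from the first root to the second root, unit `ρ` (continuous in `x`); **`hX_word`** : words;
* `gX l1 l2 dl D F ρ e` : window and thin arm; continuous, in `[0, 1]`;
* **`gX_one`**, **`gX_pos`**, **`gX_word`**, `gX_end` (after a small rotation).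
-/

set_option autoImplicit false

open MeasureTheory Filter Topology Set unitInterval

namespace Pool.Agent.ROT.F3

/-- the relative time of the second root -/
noncomputable def sX (l1 ρ : ℝ) (x : ℝ × ℝ × C(I, ℂ)) : ℝ := x.2.1 / max x.1 (l1 / 2 * ρ ^ (4 / 3 : ℝ))

lemma sX_cont {l1 ρ : ℝ} (hl1 : 0 < l1) (hρ : 0 < ρ) : Continuous (sX l1 ρ) := by
  have hp : 0 < ρ ^ (4 / 3 : ℝ) := Real.rpow_pos_of_pos hρ _
  unfold sX
  refine Continuous.div (by fun_prop) (by fun_prop) fun x => ?_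
  exact (lt_of_lt_of_le (by positivity) (le_max_right _ _)).ne'

/-- **the strand from the first root to the second root**, unit `ρ` -/
noncomputable def hX (l1 ρ : ℝ) (x : ℝ × ℝ × C(I, ℂ)) : C(I, ℂ) :=
  ⟨fun s => ((ρ⁻¹ : ℝ) : ℂ) * x.2.2 (projIcc 0 1 zero_le_one (s * sX l1 ρ x)), by
    refine continuous_const.mul (x.2.2.continuous.comp (continuous_projIcc.comp (by fun_prop)))⟩

lemma hX_apply (l1 ρ : ℝ) (x : ℝ × ℝ × C(I, ℂ)) (s : I) :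
    hX l1 ρ x s = ((ρ⁻¹ : ℝ) : ℂ) * x.2.2 (projIcc 0 1 zero_le_one (s * sX l1 ρ x)) := rfl

lemma hX_cont {l1 ρ : ℝ} (hl1 : 0 < l1) (hρ : 0 < ρ) : Continuous (hX l1 ρ) := by
  refine ContinuousMap.continuous_of_continuous_uncurry _ ?_
  show Continuous fun q : (ℝ × ℝ × C(I, ℂ)) × I => ((ρ⁻¹ : ℝ) : ℂ) * q.1.2.2 (projIcc 0 1 zero_le_one (q.2 * sX l1 ρ q.1))
  have h1 : Continuous fun q : (ℝ × ℝ × C(I, ℂ)) × I => projIcc (0 : ℝ) 1 zero_le_one ((q.2 : ℝ) * sX l1 ρ q.1) :=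
    continuous_projIcc.comp ((continuous_subtype_val.comp continuous_snd).mul ((sX_cont hl1 hρ).comp continuous_fst))
  have h2 : Continuous fun q : (ℝ × ℝ × C(I, ℂ)) × I => q.1.2.2 (projIcc (0 : ℝ) 1 zero_le_one ((q.2 : ℝ) * sX l1 ρ q.1)) :=
    (continuous_eval (F := C(I, ℂ)) (X := I) (Y := ℂ)).comp ((by fun_prop : Continuous fun q : (ℝ × ℝ × C(I, ℂ)) × I => q.1.2.2).prodMk h1)
  exact continuous_const.mul h2

/-- rotations -/
lemma hX_rot (l1 ρ : ℝ) (z : ℂ) (x : ℝ × ℝ × C(I, ℂ)) (s : I) : hX l1 ρ (rotX z x) s = z * hX l1 ρ x s := by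
  rw [hX_apply, hX_apply]
  show ((ρ⁻¹ : ℝ) : ℂ) * (z • x.2.2 (projIcc 0 1 zero_le_one (s * sX l1 ρ x))) = _
  rw [smul_eq_mul]
  ring

lemma crv_ap' (w : W3) (n : ℕ) (d : ℝ) (u : I) : crv w n d u =
    ps w 0 / d + ∑ i ∈ Finset.range n, ((max 0 (min 1 ((u : ℝ) * n - i)) : ℝ) : ℂ) * (ps w (i + 1) / d - ps w i / d) := rfl

/-- **the strand of a word** -/
theorem hX_word {l1 ρ : ℝ} (hρ : 0 < ρ) {N : ℕ} (hN : 1 ≤ N) {w : W3} {m : ℕ} (hm : m ≤ w.length) (hw : 0 < w.length)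
    (hlen : l1 / 2 * ρ ^ (4 / 3 : ℝ) ≤ (cN N (w, m)).1) : hX l1 ρ (cN N (w, m)) = crv w m (ρ * N) := by
  have hN0 : (0 : ℝ) < N := by exact_mod_cast hN
  have hX0 : (0 : ℝ) < (N : ℝ) ^ (4 / 3 : ℝ) := by positivity
  have hw0 : (0 : ℝ) < w.length := by exact_mod_cast hw
  have hmw : (m : ℝ) ≤ w.length := by exact_mod_cast hm
  have e1 : sX l1 ρ (cN N (w, m)) = (m : ℝ) / w.length := by
    unfold sX
    rw [max_eq_left hlen]
    show ((m : ℝ) / (N : ℝ) ^ (4 / 3 : ℝ)) / ((w.length : ℝ) / (N : ℝ) ^ (4 / 3 : ℝ)) = _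
    field_simp
  ext s
  have h0 : (0 : ℝ) ≤ s := s.2.1
  have h1 : (s : ℝ) ≤ 1 := s.2.2
  have hq : (s : ℝ) * ((m : ℝ) / w.length) ∈ Icc (0 : ℝ) 1 := by
    constructor
    · positivity
    · have h2 : (m : ℝ) / w.length ≤ 1 := div_le_one_of_le₀ hmw hw0.le
      exact mul_le_one₀ h1 (by positivity) h2
  rw [hX_apply, e1, projIcc_of_mem zero_le_one hq]
  show ((ρ⁻¹ : ℝ) : ℂ) * crv w w.length N ⟨(s : ℝ) * ((m : ℝ) / w.length), hq⟩ = _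
  rw [crv_ap', crv_ap']
  have e2 : (s : ℝ) * ((m : ℝ) / w.length) * w.length = s * m := by
    field_simp
  show ((ρ⁻¹ : ℝ) : ℂ) * (ps w 0 / N + ∑ i ∈ Finset.range w.length,
    ((max 0 (min 1 ((s : ℝ) * ((m : ℝ) / w.length) * w.length - i)) : ℝ) : ℂ) * (ps w (i + 1) / N - ps w i / N)) = _
  rw [e2, ← Finset.sum_range_add_sum_Ico _ hm]
  have e3 : ∑ i ∈ Finset.Ico m w.length, ((max 0 (min 1 ((s : ℝ) * m - i)) : ℝ) : ℂ) * (ps w (i + 1) / N - ps w i / N) = 0 := by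
    refine Finset.sum_eq_zero fun i hi => ?_
    rw [Finset.mem_Ico] at hi
    have h4 : (m : ℝ) ≤ i := by exact_mod_cast hi.1
    have h5 : (s : ℝ) * m ≤ m := mul_le_of_le_one_left (Nat.cast_nonneg m) h1
    have h7 : max 0 (min 1 ((s : ℝ) * m - i)) = 0 := by
      rw [max_eq_left]
      refine (min_le_right _ _).trans ?_
      linarith
    rw [h7]
    simp
  rw [e3, add_zero, mul_add, Finset.mul_sum]
  have hρc : (ρ : ℂ) ≠ 0 := by exact_mod_cast hρ.ne'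
  have hNc : (N : ℂ) ≠ 0 := by exact_mod_cast hN0.ne'
  have e4 : ∀ v : ℂ, ((ρ⁻¹ : ℝ) : ℂ) * (v / N) = v / ((ρ * N : ℝ) : ℂ) := by
    intro v
    push_cast
    field_simp
  congr 1
  · exact e4 _
  · refine Finset.sum_congr rfl fun i _ => ?_
    rw [← e4, ← e4]
    ring

/-- **window and thin arm** -/
noncomputable def gX (l1 l2 dl D F ρ : ℝ) (e : ℂ) (x : ℝ × ℝ × C(I, ℂ)) : ℝ :=
  wc l1 l2 dl ρ x * cu (2 - TbS F e (hX l1 ρ x) / D)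

variable {l1 l2 dl D F ρ : ℝ} {e : ℂ}

lemma gX_nn (x : ℝ × ℝ × C(I, ℂ)) : 0 ≤ gX l1 l2 dl D F ρ e x := mul_nonneg (wc_nn _) (cu_nn _)

lemma gX_le (x : ℝ × ℝ × C(I, ℂ)) : gX l1 l2 dl D F ρ e x ≤ wc l1 l2 dl ρ x := mul_le_of_le_one_right (wc_nn _) (cu_le _)

lemma gX_le1 (x : ℝ × ℝ × C(I, ℂ)) : gX l1 l2 dl D F ρ e x ≤ 1 := (gX_le x).trans (wc_le x)

lemma gX_cont (he : ‖e‖ = 1) (hl1 : 0 < l1) (hρ : 0 < ρ) : Continuous (gX l1 l2 dl D F ρ e) :=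
  wc_cont.mul (cu_cont.comp (continuous_const.sub (((tbs_lip he F).continuous.comp (hX_cont hl1 hρ)).div_const D)))

/-- **`1` for the words with a thin arm** -/
theorem gX_one (he : ‖e‖ = 1) (hl1 : 0 < l1) (hl2 : 0 < l2) (hd : 0 < dl) (hρ : 0 < ρ) (hD : 0 < D) {N : ℕ} (hN : 1 ≤ N)
    (hN0 : 6 ≤ D * (ρ * N)) {w : W3} {m s : ℕ} (hW : InW l1 l2 dl ρ (cN N (w, m))) (A : ArmC (D / 2 * (ρ * N)) e w s)
    (hs : s < m) (far : ∀ i : ℕ, s < i → i ≤ m → F * (ρ * N) ≤ ‖ps w i‖) : gX l1 l2 dl D F ρ e (cN N (w, m)) = 1 := by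
  have hN' : (0 : ℝ) < N := by exact_mod_cast hN
  have hX0 : (0 : ℝ) < (N : ℝ) ^ (4 / 3 : ℝ) := by positivity
  have hp : 0 < ρ ^ (4 / 3 : ℝ) := Real.rpow_pos_of_pos hρ _
  have hS : 0 < ρ * N := by positivity
  have h0 := hW.pos hl1 hρ
  have h0' : (0 : ℝ) < (w.length : ℝ) / (N : ℝ) ^ (4 / 3 : ℝ) := h0
  have hw : 0 < w.length := by
    have h1 := (div_pos_iff_of_pos_right hX0).1 h0'
    exact_mod_cast h1
  have hm : m ≤ w.length := by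
    have h1 : (m : ℝ) / (N : ℝ) ^ (4 / 3 : ℝ) ≤ (1 - dl) * ((w.length : ℝ) / (N : ℝ) ^ (4 / 3 : ℝ)) := hW.mhi
    have h2 : (m : ℝ) / (N : ℝ) ^ (4 / 3 : ℝ) ≤ (w.length : ℝ) / (N : ℝ) ^ (4 / 3 : ℝ) := by
      have := mul_pos hd h0'
      nlinarith
    have h3 := (div_le_div_iff_of_pos_right hX0).1 h2
    exact_mod_cast h3
  have hlen : l1 / 2 * ρ ^ (4 / 3 : ℝ) ≤ (cN N (w, m)).1 := by
    refine le_trans ?_ hW.lo
    have := mul_pos hl1 hp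
    nlinarith
  unfold gX
  rw [wc_one hl1 hl2 hd hρ hW, one_mul, hX_word hρ hN hm hw hlen]
  refine cu_one ?_
  have h1 := tbs_of_arm (F := F) he hS hs A fun i hi hin => le_trans (mul_le_mul_of_nonneg_right (by linarith) hS.le) (far i hi hin)
  have h2 : 3 / (ρ * N) ≤ D / 2 := by
    rw [div_le_iff₀ hS]
    linarith
  have h3 : TbS F e (crv w m (ρ * N)) / D ≤ 1 := by
    rw [div_le_one₀ hD]
    linarith
  linarith

/-- **the window and the thin arm of the curve** -/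
theorem gX_pos (he : ‖e‖ = 1) (hl1 : 0 < l1) (hl2 : 0 < l2) (hd : 0 < dl) (hρ : 0 < ρ) (hD : 0 < D) {x : ℝ × ℝ × C(I, ℂ)}
    (h : 0 < gX l1 l2 dl D F ρ e x) : InW (l1 / 2) (2 * l2) (dl / 2) ρ x ∧ ∃ τ : I, TubeK (2 * D) F e τ (hX l1 ρ x) := by
  have h1 : 0 < wc l1 l2 dl ρ x := (wc_nn x).lt_of_ne fun h' => by
    unfold gX at h
    rw [← h', zero_mul] at h
    exact lt_irrefl _ h
  have h2 : 0 < cu (2 - TbS F e (hX l1 ρ x) / D) := (cu_nn _).lt_of_ne fun h' => by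
    unfold gX at h
    rw [← h', mul_zero] at h
    exact lt_irrefl _ h
  refine ⟨wc_pos hl1 hl2 hd hρ h1, (tbs_le_iff he).1 ?_⟩
  have h3 := cu_pos h2
  have h4 : TbS F e (hX l1 ρ x) / D ≤ 2 := by linarith
  rwa [div_le_iff₀ hD] at h4

/-- the lengths of the window -/
lemma inW_word (hl1 : 0 < l1) (hd : 0 < dl) (hρ : 0 < ρ) {N : ℕ} (hN : 1 ≤ N) {w : W3} {m : ℕ}
    (hW : InW l1 l2 dl ρ (cN N (w, m))) : 0 < w.length ∧ m ≤ w.length := by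
  have hN' : (0 : ℝ) < N := by exact_mod_cast hN
  have hX0 : (0 : ℝ) < (N : ℝ) ^ (4 / 3 : ℝ) := by positivity
  have h0' : (0 : ℝ) < (w.length : ℝ) / (N : ℝ) ^ (4 / 3 : ℝ) := hW.pos hl1 hρ
  have hw : 0 < w.length := by
    have h1 := (div_pos_iff_of_pos_right hX0).1 h0'
    exact_mod_cast h1
  refine ⟨hw, ?_⟩
  have h1 : (m : ℝ) / (N : ℝ) ^ (4 / 3 : ℝ) ≤ (1 - dl) * ((w.length : ℝ) / (N : ℝ) ^ (4 / 3 : ℝ)) := hW.mhi
  have h2 : (m : ℝ) / (N : ℝ) ^ (4 / 3 : ℝ) ≤ (w.length : ℝ) / (N : ℝ) ^ (4 / 3 : ℝ) := by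
    have := mul_pos hd h0'
    nlinarith
  have h3 := (div_le_div_iff_of_pos_right hX0).1 h2
  exact_mod_cast h3

/-- after a small rotation the curve of the word has a thin arm -/
theorem gX_tube (he : ‖e‖ = 1) (hl1 : 0 < l1) (hl2 : 0 < l2) (hd : 0 < dl) (hρ : 0 < ρ) (hD : 0 < D) (hF : 0 ≤ F + 2 * D)
    {z : ℂ} (hz : ‖z‖ = 1) (hzD : ‖z - 1‖ * (F + 2 * D) ≤ D / 4) {N : ℕ} (hN : 1 ≤ N) {w : W3} {m : ℕ}
    (h : 0 < gX l1 l2 dl D F ρ e (rotX z (cN N (w, m)))) : InW (l1 / 2) (2 * l2) (dl / 2) ρ (cN N (w, m)) ∧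
      ∃ τ : I, TubeK (5 / 2 * D) (F - 3 / 2 * D) e τ (crv w m (ρ * N)) := by
  have hN' : (0 : ℝ) < N := by exact_mod_cast hN
  have hS : 0 < ρ * N := by positivity
  obtain ⟨h1, τ, h2⟩ := gX_pos he hl1 hl2 hd hρ hD h
  have h3 : InW (l1 / 2) (2 * l2) (dl / 2) ρ (cN N (w, m)) := ⟨h1.lo, h1.hi, h1.mlo, h1.mhi⟩
  refine ⟨h3, ?_⟩
  obtain ⟨hw, hm⟩ := inW_word (half_pos hl1) (half_pos hd) hρ hN h3
  have e1 : hX l1 ρ (cN N (w, m)) = crv w m (ρ * N) := hX_word hρ hN hm hw h3.lo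
  have z0 : z ≠ 0 := fun h => by rw [h, norm_zero] at hz; exact zero_ne_one hz
  have hzi : ‖z⁻¹‖ = 1 := by rw [norm_inv, hz, inv_one]
  have hzi1 : ‖z⁻¹ - 1‖ = ‖z - 1‖ := by
    have : z⁻¹ - 1 = z⁻¹ * (1 - z) := by field_simp
    rw [this, norm_mul, hzi, one_mul, norm_sub_rev]
  have e2 : ∀ s : I, crv w m (ρ * N) s = z⁻¹ * hX l1 ρ (rotX z (cN N (w, m))) s := by
    intro s
    rw [hX_rot, e1, ← mul_assoc, inv_mul_cancel₀ z0, one_mul]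
  have h00 : ‖hX l1 ρ (rotX z (cN N (w, m))) 0‖ ≤ F + 2 * D := by
    have h4 : crv w m (ρ * N) 0 = 0 := by
      have h5 := crv_fr (d := ρ * N) w (Nat.zero_le m)
      rw [fr_zero] at h5
      rw [h5, ps_zero, zero_div]
    rw [hX_rot, e1, h4, mul_zero, norm_zero]
    exact hF
  obtain ⟨τ', -, h5, h6⟩ := tube_cut he h2 h00 (by linarith)
  -- the rotated curve, norms are the same
  have h8 := tube_rot he hzi e2 h5 h6
  rw [hzi1] at h8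
  refine ⟨τ', fun s hs => ?_, fun s t hst ht => ?_, fun s hs => ?_⟩
  · obtain ⟨t, ht0, ht⟩ := h8.near s hs
    exact ⟨t, ht0, ht.trans (by linarith)⟩
  · have := h8.back s t hst ht
    linarith
  · have h9 := h5.far s hs
    rw [e2, norm_mul, hzi, one_mul]
    linarith

/-- **after a small rotation the word has a thin arm** -/
theorem gX_word (he : ‖e‖ = 1) (hl1 : 0 < l1) (hl2 : 0 < l2) (hd : 0 < dl) (hρ : 0 < ρ) (hD : 0 < D) (hF : 0 ≤ F + 2 * D)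
    {z : ℂ} (hz : ‖z‖ = 1) (hzD : ‖z - 1‖ * (F + 2 * D) ≤ D / 4) {N : ℕ} (hN : 1 ≤ N) {w : W3} {m : ℕ}
    (h : 0 < gX l1 l2 dl D F ρ e (rotX z (cN N (w, m)))) : InW (l1 / 2) (2 * l2) (dl / 2) ρ (cN N (w, m)) ∧
      ∃ s : ℕ, s ≤ m ∧ ArmC (3 * D * (ρ * N)) e w s ∧ ∀ i : ℕ, s < i → i ≤ m → (F - 4 * D) * (ρ * N) ≤ ‖ps w i‖ := by
  have hN' : (0 : ℝ) < N := by exact_mod_cast hN
  have hS : 0 < ρ * N := by positivity
  obtain ⟨h3, τ', h7⟩ := gX_tube he hl1 hl2 hd hρ hD hF hz hzD hN h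
  refine ⟨h3, ?_⟩
  obtain ⟨s, hs, h8, h9, -⟩ := arm_of_tbs he hS ((tbs_le_iff he).2 ⟨τ', h7⟩)
  refine ⟨s, hs, ⟨fun i hi => ?_, fun i j hij hj => ?_⟩, fun i hi him => ?_⟩
  · obtain ⟨t, ht0, ht⟩ := h8.near i hi
    exact ⟨t, ht0, ht.trans (mul_le_mul_of_nonneg_right (by linarith) hS.le)⟩
  · have h10 := h8.back i j hij hj
    have h11 : 5 / 2 * D * (ρ * N) ≤ 3 * D * (ρ * N) := mul_le_mul_of_nonneg_right (by linarith) hS.le
    linarith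
  · have h10 := h9 i hi him
    have h11 : F - 4 * D = F - 3 / 2 * D - 5 / 2 * D := by ring
    rw [h11]
    exact h10

/-- **the second root is far** -/
theorem gX_end (he : ‖e‖ = 1) (hl1 : 0 < l1) (hl2 : 0 < l2) (hd : 0 < dl) (hρ : 0 < ρ) (hD : 0 < D) (hF : 0 ≤ F + 2 * D)
    {z : ℂ} (hz : ‖z‖ = 1) (hzD : ‖z - 1‖ * (F + 2 * D) ≤ D / 4) {N : ℕ} (hN : 1 ≤ N) {w : W3} {m : ℕ}
    (h : 0 < gX l1 l2 dl D F ρ e (rotX z (cN N (w, m)))) : (F - 4 * D) * (ρ * N) ≤ ‖ps w m‖ := by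
  have hN' : (0 : ℝ) < N := by exact_mod_cast hN
  have hS : 0 < ρ * N := by positivity
  obtain ⟨-, τ', h7⟩ := gX_tube he hl1 hl2 hd hρ hD hF hz hzD hN h
  have h1 := h7.far 1 unitInterval.le_one'
  rw [crv_one, stnorm_div _ hS] at h1
  have h2 : F - 4 * D ≤ ‖ps w m‖ / (ρ * N) := by linarith
  rwa [le_div_iff₀ hS] at h2

end Pool.Agent.ROT.F3
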