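import Pool.Agent.ROT.F3MacS
import Pool.Agent.ROT.F3End
import Pool.Agent.SCF.StbLU
import Pool.Agent.SLW.PubY

/-!
# ROT, block F3, row W3: the first start gate, all numbers of steps at once (helper66)

* `size_slow`, `unit_le` : the sizes change slowly; `cv_curve` : the curves in units of the sizes from the curves in the unit `S`;
* `XS S s = (n / S ^ (4 / 3), cv S s)` : the point of `ℝ × CI`; `TestV K S h` : the value functions `h n s k` (values at the gate `k`),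
  Lipschitz in the point, in the time `k / n`; `testV_H`, `testV_X` : the instances;
* **`cmpU`** : comparison of the averages for two walks with close points and stability;
* **`macTU : MacTU`** : `K'`, `M1`, `n0` depend on `D, R, κ, K, K0, B, ε` only, the functional `φ` does not depend on `n`; every `K0`.
-/

set_option autoImplicit false

open Set Filter Topology MeasureTheory

namespace Pool.Agent.SCF.M

open Pool.Agent.NTS.Res
open Pool.Agent.CRT (CI)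
open Pool.Agent.CRT.V.VC (pr pr_or pr_mono)
open Pool.Agent.SCF.Z
open Pool.Agent.ROT.F3 (cv)

lemma min_list (l : List ℝ) (h : ∀ x ∈ l, 0 < x) : ∃ θ : ℝ, 0 < θ ∧ ∀ x ∈ l, θ ≤ x := by
  induction l with
  | nil => exact ⟨1, one_pos, fun x hx => by simp at hx⟩
  | cons a l ih =>
    obtain ⟨θ, h1, h2⟩ := ih fun x hx => h x (List.mem_cons_of_mem a hx)
    refine ⟨min a θ, lt_min (h a List.mem_cons_self) h1, fun x hx => ?_⟩
    rcases List.mem_cons.1 hx with rfl | hx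
    · exact min_le_left _ _
    · exact (min_le_right _ _).trans (h2 x hx)

/-- the sizes change slowly -/
lemma size_slow {θ : ℝ} (hθ : 0 < θ) : ∃ (δ : ℝ) (N0 : ℕ), 0 < δ ∧ δ ≤ 1 / 2 ∧ ∀ n n' : ℕ, N0 ≤ n → N0 ≤ n' →
    |(n : ℝ) - n'| ≤ δ * n → |size n / size n' - 1| ≤ θ ∧ |size n' / size n - 1| ≤ θ := by
  obtain ⟨e, he0, he1, he2⟩ : ∃ e : ℝ, 0 < e ∧ e ≤ 1 / 2 ∧ 2 * e ≤ θ :=
    ⟨min (1 / 2) (θ / 2), lt_min (by norm_num) (by positivity), min_le_left _ _, by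
      have := min_le_right (1 / 2 : ℝ) (θ / 2)
      linarith⟩
  obtain ⟨δ, hδ, h⟩ := NTSF.Mg.slow_curves.1 e he0
  obtain ⟨N0, hN0⟩ := exists_nat_ge (1 / δ)
  -- one ratio gives both
  have key : ∀ a b : ℕ, 1 ≤ a → 1 ≤ b → |size b / size a - 1| ≤ e → |size b / size a - 1| ≤ θ ∧ |size a / size b - 1| ≤ θ := by
    intro a b ha hb h1
    have hsa := NTSF.size_pos ha
    have hsb := NTSF.size_pos hb
    obtain ⟨x, hx⟩ : ∃ x, x = size b / size a := ⟨_, rfl⟩
    have hx' : size a / size b = 1 / x := by rw [hx, one_div_div]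
    rw [← hx] at h1 ⊢
    rw [hx']
    have h2 := abs_le.1 h1
    have hx0 : 1 / 2 ≤ x := by linarith
    refine ⟨by linarith, ?_⟩
    have e1 : 1 / x - 1 = (1 - x) / x := by
      have : x ≠ 0 := by linarith
      field_simp
    rw [e1, abs_div, abs_of_pos (by linarith : 0 < x), div_le_iff₀ (by linarith), abs_sub_comm]
    calc |x - 1| ≤ e := h1
      _ ≤ θ * (1 / 2) := by linarith
      _ ≤ θ * x := mul_le_mul_of_nonneg_left hx0 hθ.le
  refine ⟨min (δ / 2) (1 / 2), max N0 1, lt_min (by positivity) (by norm_num), min_le_right _ _, fun n n' hn hn' hnn => ?_⟩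
  have n1 : 1 ≤ n := (le_max_right _ _).trans hn
  have n1' : 1 ≤ n' := (le_max_right _ _).trans hn'
  have n2 : 1 / δ ≤ (n : ℝ) := hN0.trans (by exact_mod_cast (le_max_left _ _).trans hn)
  have n2' : 1 / δ ≤ (n' : ℝ) := hN0.trans (by exact_mod_cast (le_max_left _ _).trans hn')
  have hn0 : (0 : ℝ) < n := by exact_mod_cast n1
  have d1 : |(n : ℝ) - n'| ≤ δ / 2 * n := hnn.trans (mul_le_mul_of_nonneg_right (min_le_left _ _) hn0.le)
  have d2 : |(n : ℝ) - n'| ≤ 1 / 2 * n := hnn.trans (mul_le_mul_of_nonneg_right (min_le_right _ _) hn0.le)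
  have d1' := abs_le.1 d1
  have d2' := abs_le.1 d2
  rcases le_total n' n with h1 | h1
  · obtain ⟨m, rfl⟩ := Nat.exists_eq_add_of_le h1
    have h2 := (h n' m n2' (by
      push_cast at d1' d2'
      nlinarith)).1
    exact (key n' (n' + m) n1' n1 h2)
  · obtain ⟨m, rfl⟩ := Nat.exists_eq_add_of_le h1
    have h2 := (h n m n2 (by
      push_cast at d1' d2'
      nlinarith)).1
    exact (key n (n + m) n1 n1' h2).symm

/-- the unit of time -/
lemma unit_le (K : ℝ) (hK : 0 < K) : ∃ C : ℝ, 0 < C ∧ ∀ (n : ℕ) (S : ℝ), 1 ≤ n → 0 ≤ S → S ≤ K * size n → S ^ (4 / 3 : ℝ) ≤ C * n := by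
  obtain ⟨cs, Cs, hcs, hsz, -⟩ := NTSF.finE
  have hCs : 0 < Cs := by
    have h1 := hsz 1 le_rfl
    have h2 : ((1 : ℕ) : ℝ) ^ (3 / 4 : ℝ) = 1 := by norm_num
    rw [h2] at h1
    linarith
  refine ⟨(K * Cs) ^ (4 / 3 : ℝ), by positivity, fun n S hn hS hSn => ?_⟩
  have hn0 : (0 : ℝ) ≤ n := Nat.cast_nonneg _
  have h1 : S ≤ K * Cs * (n : ℝ) ^ (3 / 4 : ℝ) := hSn.trans (by
    rw [mul_assoc]
    exact mul_le_mul_of_nonneg_left (hsz n hn).2 hK.le)
  calc S ^ (4 / 3 : ℝ) ≤ (K * Cs * (n : ℝ) ^ (3 / 4 : ℝ)) ^ (4 / 3 : ℝ) := Real.rpow_le_rpow hS h1 (by norm_num)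
    _ = (K * Cs) ^ (4 / 3 : ℝ) * ((n : ℝ) ^ (3 / 4 : ℝ)) ^ (4 / 3 : ℝ) := Real.mul_rpow (by positivity) (by positivity)
    _ = (K * Cs) ^ (4 / 3 : ℝ) * n := by
        rw [← Real.rpow_mul hn0]
        norm_num

/-- the curves in units of the sizes from the curves in the unit `S` -/
lemma cv_curve {n n' : ℕ} (hn : 1 ≤ n) (hn' : 1 ≤ n') {s : Fin n → Fin 3} {s' : Fin n' → Fin 3} {S K δ θ C : ℝ} (hS : 0 < S)
    (hK : S ≤ K * size n) (hK0 : 0 ≤ K) (hd : dist (cv S s) (cv S s') ≤ δ) (hr : |size n' / size n - 1| ≤ θ)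
    (hC : ∀ u : unitInterval, ‖curve s' u‖ ≤ C) (hC0 : 0 ≤ C) : dist (curve s) (curve s') ≤ K * δ + θ * C := by
  have hs := NTSF.size_pos hn
  have hs' := NTSF.size_pos hn'
  have hδ : 0 ≤ δ := dist_nonneg.trans hd
  have hθ : 0 ≤ θ := (abs_nonneg _).trans hr
  rw [ContinuousMap.dist_le (by positivity)]
  intro u
  have h1 : ‖cv S s u - cv S s' u‖ ≤ δ := by
    rw [← dist_eq_norm]
    exact (ContinuousMap.dist_apply_le_dist u).trans hd
  have e : curve s u - curve s' u = ((S / size n : ℝ) : ℂ) * (cv S s u - cv S s' u) +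
      ((size n' / size n - 1 : ℝ) : ℂ) * curve s' u := by
    have hsc : (size n : ℂ) ≠ 0 := by exact_mod_cast hs.ne'
    have hSc : (S : ℂ) ≠ 0 := by exact_mod_cast hS.ne'
    unfold cv
    rw [ContinuousMap.smul_apply, ContinuousMap.smul_apply, Complex.real_smul, Complex.real_smul]
    push_cast
    field_simp
    ring
  rw [dist_eq_norm, e]
  refine (norm_add_le _ _).trans (add_le_add ?_ ?_)
  · rw [norm_mul, Complex.norm_real, Real.norm_eq_abs, abs_of_pos (by positivity)]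
    refine mul_le_mul ?_ h1 (norm_nonneg _) hK0
    rwa [div_le_iff₀ hs]
  · rw [norm_mul, Complex.norm_real, Real.norm_eq_abs]
    exact mul_le_mul hr (hC u) (norm_nonneg _) hθ

/-- a bound of the curve from the positions -/
lemma curve_bd {n : ℕ} (hn : 1 ≤ n) {s : Fin n → Fin 3} {C : ℝ} (h : ∀ i : ℕ, i ≤ n → ‖pos s i‖ ≤ C * size n) (u : unitInterval) :
    ‖curve s u‖ ≤ C + 1 / size n := by
  obtain ⟨i, hi, -, h2⟩ := curve_flr hn s u
  have h3 := (X_le0 hn).2 (h i hi)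
  calc ‖curve s u‖ = ‖(curve s u - pos s i / (size n : ℂ)) + pos s i / (size n : ℂ)‖ := by congr 1; ring
    _ ≤ 1 / size n + C := (norm_add_le _ _).trans (add_le_add h2 h3)
    _ = _ := by ring

/-- the point of a walk -/
noncomputable def XS (S : ℝ) {n : ℕ} (s : Fin n → Fin 3) : ℝ × CI := ((n : ℝ) / S ^ (4 / 3 : ℝ), cv S s)

/-- **the value functions** -/
structure TestV (K S : ℝ) (h : ∀ n : ℕ, (Fin n → Fin 3) → ℕ → ℝ) : Prop where
  nn : ∀ n s k, 0 ≤ h n s k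
  le : ∀ n s k, h n s k ≤ 1
  lip : ∀ (n n' : ℕ) (s : Fin n → Fin 3) (s' : Fin n' → Fin 3) (k k' : ℕ) (δ : ℝ), 1 ≤ n → 1 ≤ n' → k ≤ n → k' ≤ n' →
    (∀ t t' : unitInterval, |(t : ℝ) - t'| ≤ |(k : ℝ) / n - (k' : ℝ) / n'| → ‖curve s' t - curve s' t'‖ ≤ δ ∧
      ‖cv S s' t - cv S s' t'‖ ≤ δ) →
    h n s k ≤ h n' s' k' + K * (dist (XS S s) (XS S s') + dist (curve s) (curve s') + |(k : ℝ) / n - (k' : ℝ) / n'| + δ)

/-- functions of the curve in units of the size -/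
lemma testV_H {K S : ℝ} (hK : 0 ≤ K) {H : CI → ℝ → ℝ} (hH : TestH K H) : TestV K S fun n s k => H (curve s) ((k : ℝ) / n) where
  nn _ _ _ := hH.nn _ _
  le _ _ _ := hH.le _ _
  lip n n' s s' k k' δ _ _ _ _ h := by
    refine (hH.lip (curve s) (curve s') _ _ δ fun t t' htt => (h t t' htt).1).trans (add_le_add le_rfl ?_)
    refine mul_le_mul_of_nonneg_left ?_ hK
    have := dist_nonneg (x := XS S s) (y := XS S s')
    linarith

/-- the test functions of the point and of the time of the gate -/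
structure TestX (K : ℝ) (H : ℝ × CI → ℝ → ℝ) : Prop where
  nn : ∀ p x, 0 ≤ H p x
  le : ∀ p x, H p x ≤ 1
  lip : ∀ (p p' : ℝ × CI) (x x' δ : ℝ), (∀ t t' : unitInterval, |(t : ℝ) - t'| ≤ |x - x'| → ‖p'.2 t - p'.2 t'‖ ≤ δ) →
    H p x ≤ H p' x' + K * (dist p p' + |x - x'| + δ)

/-- functions of the point -/
lemma testV_X {K S : ℝ} (hK : 0 ≤ K) {H : ℝ × CI → ℝ → ℝ} (hH : TestX K H) : TestV K S fun n s k => H (XS S s) ((k : ℝ) / n) where
  nn _ _ _ := hH.nn _ _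
  le _ _ _ := hH.le _ _
  lip n n' s s' k k' δ _ _ _ _ h := by
    refine (hH.lip (XS S s) (XS S s') _ _ δ fun t t' htt => (h t t' htt).2).trans (add_le_add le_rfl ?_)
    refine mul_le_mul_of_nonneg_left ?_ hK
    have := dist_nonneg (x := curve s) (y := curve s')
    linarith

/-- the average over the grid, universal size -/
noncomputable def psV (D : SzT) (M : ℕ) (B : Box) (S : ℝ) (h : ∀ n : ℕ, (Fin n → Fin 3) → ℕ → ℝ) {n : ℕ} (s : Fin n → Fin 3) : ℝ :=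
  psP (fun a k => D a n s k) M B S (h n s) s

lemma ps0_V {D : SzT} {M : ℕ} {B : Box} {S : ℝ} {H : CI → ℝ → ℝ} {n : ℕ} {s : Fin n → Fin 3} :
    ps0 D M B S H s = psV D M B S (fun n s k => H (curve s) ((k : ℝ) / n)) s := rfl

/-- **close points give close curves, close sizes and close numbers of steps** -/
lemma nearU {K0 C θ1 : ℝ} (hK0 : 0 < K0) (hC : 0 < C) (hθ1 : 0 < θ1) : ∃ (δ : ℝ) (N0 : ℕ), 0 < δ ∧
    ∀ (n n' : ℕ) (s : Fin n → Fin 3) (s' : Fin n' → Fin 3) (S : ℝ), N0 ≤ n → N0 ≤ n' → 0 < S → S ≤ K0 * size n →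
      (∀ u : unitInterval, ‖curve s' u‖ ≤ C) → dist (XS S s) (XS S s') ≤ δ →
      dist (curve s) (curve s') ≤ θ1 ∧ |size n / size n' - 1| ≤ θ1 ∧ |size n' / size n - 1| ≤ θ1 ∧ |(n : ℝ) - n'| ≤ θ1 * n := by
  obtain ⟨θr, hθr0, r1, r2⟩ : ∃ θr : ℝ, 0 < θr ∧ θr * C ≤ θ1 / 2 ∧ θr ≤ θ1 := by
    refine ⟨min (θ1 / (2 * C)) θ1, lt_min (by positivity) hθ1, ?_, min_le_right _ _⟩
    have h1 := mul_le_mul_of_nonneg_right (min_le_left (θ1 / (2 * C)) θ1) hC.le
    have e : θ1 / (2 * C) * C = θ1 / 2 := by field_simp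
    linarith
  obtain ⟨δs, N0, hδs0, -, hsl⟩ := size_slow hθr0
  obtain ⟨C1, hC10, hun⟩ := unit_le K0 hK0
  obtain ⟨δ, hδ0, t5, t6⟩ : ∃ δ : ℝ, 0 < δ ∧ δ ≤ θ1 / (2 * K0) ∧ δ ≤ min δs θ1 / C1 :=
    ⟨min (θ1 / (2 * K0)) (min δs θ1 / C1), by
      refine lt_min (by positivity) (div_pos (lt_min hδs0 hθ1) hC10), min_le_left _ _, min_le_right _ _⟩
  refine ⟨δ, max N0 1, hδ0, fun n n' s s' S hn hn' hS0 hS4 hbd hX => ?_⟩
  have a1 : 1 ≤ n := (le_max_right _ _).trans hn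
  have b1 : 1 ≤ n' := (le_max_right _ _).trans hn'
  have hn0 : (0 : ℝ) < n := by exact_mod_cast a1
  have hT : 0 < S ^ (4 / 3 : ℝ) := Real.rpow_pos_of_pos hS0 _
  have hX1 : |(n : ℝ) - n'| ≤ min δs θ1 * n := by
    have h1 : dist ((n : ℝ) / S ^ (4 / 3 : ℝ)) ((n' : ℝ) / S ^ (4 / 3 : ℝ)) ≤ δ := (le_max_left _ _).trans hX
    rw [Real.dist_eq, ← sub_div, abs_div, abs_of_pos hT, div_le_iff₀ hT] at h1
    refine h1.trans ?_
    have h0 : 0 ≤ min δs θ1 := (lt_min hδs0 hθ1).le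
    calc δ * S ^ (4 / 3 : ℝ) ≤ min δs θ1 / C1 * (C1 * n) := mul_le_mul t6 (hun n S a1 hS0.le hS4) hT.le (by positivity)
      _ = min δs θ1 * n := by field_simp
  have hX2 : dist (cv S s) (cv S s') ≤ δ := (le_max_right _ _).trans hX
  obtain ⟨hr, hr'⟩ := hsl n n' ((le_max_left _ _).trans hn) ((le_max_left _ _).trans hn')
    (hX1.trans (mul_le_mul_of_nonneg_right (min_le_left _ _) hn0.le))
  refine ⟨?_, hr.trans r2, hr'.trans r2, hX1.trans (mul_le_mul_of_nonneg_right (min_le_right _ _) hn0.le)⟩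
  refine (cv_curve a1 b1 (K := K0) (C := C) hS0 hS4 hK0.le hX2 hr' hbd hC.le).trans ?_
  have h1 := mul_le_mul_of_nonneg_left t5 hK0.le
  have e : K0 * (θ1 / (2 * K0)) = θ1 / 2 := by field_simp
  rw [e] at h1
  linarith

/-- **comparison of the averages**, walks with close points in `ℝ × CI` -/
theorem cmpU {D : SzT} (hD : SzS D) {R K K0 ε : ℝ} (hR : 0 < R) (hK : 0 ≤ K) (hK0 : 1 ≤ K0) (hε : 0 < ε) {B : Box} (hB : B.Ok R)
    (ηf : ℝ → ℝ) (hηf : ∀ ω : ℝ, 0 < ω → 0 < ηf ω) :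
    ∃ (ω2 ω3 ω4 θ : ℝ) (M1 n0 : ℕ), 0 < ω2 ∧ 0 < ω3 ∧ 0 < ω4 ∧ 0 < θ ∧
      ∀ (n n' : ℕ) (s : Fin n → Fin 3) (s' : Fin n' → Fin 3) (S : ℝ), n0 ≤ n → n0 ≤ n' → 0 < S → size n ≤ K0 * S →
        size n' ≤ K0 * S → Md (ηf ω2) ω2 s' → Md (ηf ω3) ω3 s' → Md (ηf ω4) ω4 s' →
        dist (XS S s) (XS S s') ≤ θ → dist (curve s) (curve s') ≤ θ → |size n / size n' - 1| ≤ θ →
        StbS D R θ S s s' → StbS D R θ S s' s → ∀ M : ℕ, M1 ≤ M → 1 ≤ M → ∀ h : (∀ n : ℕ, (Fin n → Fin 3) → ℕ → ℝ),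
          TestV K S h → psV D M B S h s ≤ psV D M B S h s' + ε := by
  have hK00 : 0 < K0 := by linarith
  obtain ⟨A, hA⟩ : ∃ A, A = ε / (2 * (K + 1)) := ⟨_, rfl⟩
  have hA0 : 0 < A := by rw [hA]; positivity
  obtain ⟨ω4, hω4⟩ : ∃ ω4, ω4 = A / (16 * K0) := ⟨_, rfl⟩
  have hω40 : 0 < ω4 := by rw [hω4]; positivity
  have hω4K : 2 * K0 * ω4 = A / 8 := by
    rw [hω4]
    field_simp
    norm_num
  have hη4 := hηf ω4 hω40
  obtain ⟨η, hη⟩ : ∃ η, η = min (1 / 2) (min (ηf ω4 / 4) (A / 8)) := ⟨_, rfl⟩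
  have hη0 : 0 < η := by
    rw [hη]; exact lt_min (by norm_num) (lt_min (by positivity) (by positivity))
  have hηa : η ≤ 1 / 2 := by rw [hη]; exact min_le_left _ _
  have hηb : η ≤ ηf ω4 / 4 := by rw [hη]; exact (min_le_right _ _).trans (min_le_left _ _)
  have hηc : η ≤ A / 8 := by rw [hη]; exact (min_le_right _ _).trans (min_le_right _ _)
  obtain ⟨νa, hνa0, -, hA'⟩ := psPC (ε := ε / 2) (η := η) (ν0 := 1) hR (by positivity) hη0 one_pos hB
  obtain ⟨ω2, hω2⟩ : ∃ ω2, ω2 = νa / (4 * K0) := ⟨_, rfl⟩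
  have hω20 : 0 < ω2 := by rw [hω2]; positivity
  have hη2 := hηf ω2 hω20
  obtain ⟨νb, μ', hνb0, -, hμ'0, hνμ, hB'⟩ := hA' (ηf ω2 / 2) (by positivity)
  obtain ⟨ω3, hω3⟩ : ∃ ω3, ω3 = νb / (4 * K0) := ⟨_, rfl⟩
  have hω30 : 0 < ω3 := by rw [hω3]; positivity
  have hη3 := hηf ω3 hω30
  obtain ⟨θ0, M1, hθ00, hθb, -, hMain⟩ := hB' (ηf ω3 / 2) (by positivity)
  obtain ⟨C, hC⟩ : ∃ C, C = (2 / ηf ω2 + 1) * ω2 := ⟨_, rfl⟩
  have hC0 : 0 < C := by rw [hC]; positivity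
  obtain ⟨θ, hθ0, ht⟩ := min_list [θ0, ω2 / 4, ω3 / 4, ω2 / (4 * C), ω3 / (4 * C), ηf ω2 / 4, ηf ω3 / 4, ηf ω4 / 8, A / 8, ω4 / 4]
    (by
      intro x hx
      simp only [List.mem_cons, List.not_mem_nil, or_false] at hx
      rcases hx with rfl | rfl | rfl | rfl | rfl | rfl | rfl | rfl | rfl | rfl <;> positivity)
  simp only [List.mem_cons, List.not_mem_nil, or_false, forall_eq_or_imp, forall_eq] at ht
  obtain ⟨t1, t2, t3, t4, t5, t6, t7, t8, t9, t10⟩ := ht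
  have r1 : C * θ ≤ ω2 / 4 := by
    have h1 := mul_le_mul_of_nonneg_left t4 hC0.le
    have e : C * (ω2 / (4 * C)) = ω2 / 4 := by field_simp
    linarith
  have r2 : C * θ ≤ ω3 / 4 := by
    have h1 := mul_le_mul_of_nonneg_left t5 hC0.le
    have e : C * (ω3 / (4 * C)) = ω3 / 4 := by field_simp
    linarith
  obtain ⟨n1, hn1⟩ := inv_small hθ0
  refine ⟨ω2, ω3, ω4, θ, M1, n1, hω20, hω30, hω40, hθ0, fun n n' s s' S hn hn' hS0 hS3 hS3' m2 m3 m4 hX hd hr hS hS' M hM hM0 h hh =>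
    ?_⟩
  obtain ⟨a1, a2, a3⟩ := hn1 n hn
  obtain ⟨b1, b2, b3⟩ := hn1 n' hn'
  have hs := NTSF.size_pos a1
  have hs' := NTSF.size_pos b1
  have hn0 : (0 : ℝ) < n := by exact_mod_cast a1
  have hb0' : (0 : ℝ) < n' := by exact_mod_cast b1
  have hbd : ∀ i : ℕ, i ≤ n' → ‖pos s' i‖ ≤ C * size n' := by
    rw [hC]
    refine md_bd hη2 hω20.le ?_ m2
    have h1 : 1 / (n' : ℝ) ≤ ηf ω2 := b2.trans (by linarith)
    rwa [div_le_iff₀ hb0'] at h1
  have hCla : ClS S 2 (ηf ω2 / 2) νa s s' := by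
    refine clS_of a1 b1 (cl_of a1 b1 hd m2 (by linarith) (le_refl (θ + 1 / size n' + ω2))) hS3 hS3' (by positivity) hbd hr
      hC0.le ?_ hS0.le
    have h1 : θ + 1 / size n' + ω2 + C * θ ≤ 4 * ω2 := by linarith
    calc K0 * (θ + 1 / size n' + ω2 + C * θ) ≤ K0 * (4 * ω2) := mul_le_mul_of_nonneg_left h1 hK00.le
      _ = νa := by rw [hω2]; field_simp
  have hClb : ClS S 2 (ηf ω3 / 2) νb s s' := by
    refine clS_of a1 b1 (cl_of a1 b1 hd m3 (by linarith) (le_refl (θ + 1 / size n' + ω3))) hS3 hS3' (by positivity) hbd hr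
      hC0.le ?_ hS0.le
    have h1 : θ + 1 / size n' + ω3 + C * θ ≤ 4 * ω3 := by linarith
    calc K0 * (θ + 1 / size n' + ω3 + C * θ) ≤ K0 * (4 * ω3) := mul_le_mul_of_nonneg_left h1 hK00.le
      _ = νb := by rw [hω3]; field_simp
  have hfin := hMain M hM hM0 n n' s s' (fun a k => D a n s k) (fun a k => D a n' s' k) S 2 (hD.sz1 s) (hD.sz1 s') hS0 a1 b1
    (a2.trans t1) (b2.trans t1) hCla hClb (hD.tr' hS0.le a1 b1 hClb hνb0.le hθ00.le (by linarith [b2.trans t7]) hνμ)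
    (hD.tr' hS0.le b1 a1 hClb.symm hνb0.le hθ00.le (by linarith [a2.trans t7]) hνμ) (StbD.mono hS t1 hS0.le)
    (StbD.mono hS' t1 hS0.le) (fun k hk _ => by
      have h1 : (k : ℝ) / n ≤ 1 := by
        rw [div_le_one hn0]
        exact_mod_cast hk.lt.le
      linarith) (h n s) (h n' s') (ε / 2) (by positivity) (fun k => hh.le _ _ _) (fun k => hh.nn _ _ _) (by
      intro k k' hk
      have htm := hk.tm
      have hmd := curve_md b1 m4 (β := |(k : ℝ) / n - (k' : ℝ) / n'|) (ν := 2 * ω4)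
        (by
          have e3 : (3 : ℝ) / n' = 3 * (1 / n') := by ring
          rw [e3]
          linarith)
        (by
          have e3 : (3 : ℝ) / size n' = 3 * (1 / size n') := by ring
          rw [e3]
          linarith)
      have h1 := hh.lip n n' s s' k k' (A / 8) a1 b1 hk.sc.lt.le hk.sc'.lt.le (fun t t' htt => by
        have g1 := hmd t t' htt
        refine ⟨g1.trans ?_, ?_⟩
        · rw [← hω4K]
          nlinarith
        · unfold cv
          rw [ContinuousMap.smul_apply, ContinuousMap.smul_apply, ← smul_sub, norm_smul, Real.norm_eq_abs,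
            abs_of_pos (by positivity), ← hω4K]
          have g2 : size n' / S ≤ K0 := by rwa [div_le_iff₀ hS0]
          calc size n' / S * ‖curve s' t - curve s' t'‖ ≤ K0 * (2 * ω4) := mul_le_mul g2 g1 (norm_nonneg _) hK00.le
            _ = 2 * K0 * ω4 := by ring)
      refine h1.trans (add_le_add le_rfl ?_)
      have h2 : dist (XS S s) (XS S s') + dist (curve s) (curve s') + |(k : ℝ) / n - (k' : ℝ) / n'| + A / 8 ≤ A := by
        linarith
      calc K * (dist (XS S s) (XS S s') + dist (curve s) (curve s') + |(k : ℝ) / n - (k' : ℝ) / n'| + A / 8)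
          ≤ K * A := mul_le_mul_of_nonneg_left h2 hK
        _ = ε / 2 * (K / (K + 1)) := by
            rw [hA]
            field_simp
        _ ≤ ε / 2 * 1 := by
            refine mul_le_mul_of_nonneg_left ?_ (by positivity)
            rw [div_le_one (by positivity)]
            linarith
        _ = ε / 2 := mul_one _)
  unfold psV
  linarith

/-! ### stability -/

/-- **stability from `StbA`**, no tips, every size, other numbers of steps -/
theorem stbS_0 {D : SzT} (hD : SzS D) {n n' : ℕ} (hn : 1 ≤ n) (hn' : 1 ≤ n') {s : Fin n → Fin 3} {s' : Fin n' → Fin 3}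
    {R θ S N θ' : ℝ} (hA : StbA R θ 0 S N 0 0 s s') (hS : 0 ≤ S) (hθ : θ ≤ θ') (ht : θ * N / n + |(n : ℝ) - n'| / n ≤ θ') :
    StbS D R θ' S s s' := by
  intro ρ c h1 h2 h3 h4 h5
  have hn0 : (0 : ℝ) < n := by exact_mod_cast hn
  have hn0' : (0 : ℝ) < n' := by exact_mod_cast hn'
  obtain ⟨c', -, g1, g2, g3⟩ := hA ρ c h1 h2 h3 h4 (Or.inl ⟨rfl, rfl, hD.dm h5⟩)
  refine ⟨c', g1.mono (mul_le_mul_of_nonneg_right (by linarith) hS), ?_, g3.trans (mul_le_mul_of_nonneg_right hθ hS)⟩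
  simp only [Nat.cast_zero, sub_zero] at g2
  have e : (c : ℝ) / n - (c' : ℝ) / n' = ((c : ℝ) - c') / n + (c' : ℝ) / n' * ((n' - n) / n) := by
    field_simp
    ring
  rw [e]
  have k1 : |((c : ℝ) - c') / n| ≤ θ * N / n := by
    rw [abs_div, abs_of_pos hn0]
    exact div_le_div_of_nonneg_right g2 hn0.le
  have k2 : |(c' : ℝ) / n' * ((n' - n) / n)| ≤ |(n : ℝ) - n'| / n := by
    rw [abs_mul]
    have h6 : |(c' : ℝ) / n'| ≤ 1 := by
      rw [abs_of_nonneg (by positivity), div_le_one hn0']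
      exact_mod_cast g1.lt.le
    have h9 : |((n' : ℝ) - n) / n| = |(n : ℝ) - n'| / n := by
      rw [abs_div, abs_of_pos hn0, abs_sub_comm]
    rw [h9]
    exact mul_le_of_le_one_left (by positivity) h6
  exact (abs_add_le _ _).trans ((add_le_add k1 k2).trans ht)

/-- **local closeness from closeness**, no tips -/
theorem lc0 {n n' : ℕ} (hn : 1 ≤ n) (hn' : 1 ≤ n') {s : Fin n → Fin 3} {s' : Fin n' → Fin 3} {S R κ β δ : ℝ} (hR : 0 < R)
    (hκ : 0 < κ) (hS : 0 ≤ S) (hS2 : S ≤ size n) (hS2' : S ≤ size n') (hz : 0 < zc κ (1000 * R) (curve s))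
    (hz' : 0 < zc κ (1000 * R) (curve s')) (hC : ClS S 2 β δ s s') (hβ : |(n : ℝ) - n'| ≤ β * n) (hκn : |(n : ℝ) - n'| ≤ κ * n)
    (hκn' : |(n : ℝ) - n'| ≤ κ * n') : LC (0 * S) (δ * S) (500 * R * S) 0 0 (min n n') s s' := by
  have hn0 : (0 : ℝ) < n := by exact_mod_cast hn
  have hn0' : (0 : ℝ) < n' := by exact_mod_cast hn'
  have far : ∀ {m : ℕ} {w : Fin m → Fin 3}, 1 ≤ m → S ≤ size m → 0 < zc κ (1000 * R) (curve w) → ∀ i : ℕ, i ≤ m →
      (1 - κ) * m ≤ i → 500 * R * S ≤ ‖pos w i‖ := by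
    intro m w hm hSm hzw i hi h1
    have h2 := zc_far (c := 1000 * R) (by positivity) hm hzw hi h1
    have h3 := mul_le_mul_of_nonneg_left hSm (show 0 ≤ 1000 * R by positivity)
    have h4 : 0 ≤ R * S := by positivity
    linarith
  have h0 : ∀ {m : ℕ} {w : Fin m → Fin 3} (i : ℕ), i ≤ 0 → ‖pos w i‖ ≤ 0 * S := by
    intro m w i hi
    have : i = 0 := by omega
    rw [this, NTSF.pos_zero]
    simp
  have hab := abs_le.1 hκn
  have hab' := abs_le.1 hκn'
  refine ⟨by omega, by omega, h0, h0, fun j hj => ?_, fun i hi hi' => ?_, fun i hi hi' => ?_, ?_, ?_⟩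
  · rw [zero_add]
    have h1 : j ≤ n := hj.trans (min_le_left _ _)
    have h2 : j ≤ n' := hj.trans (min_le_right _ _)
    have h1' : (j : ℝ) ≤ n := by exact_mod_cast h1
    have h2' : (j : ℝ) ≤ n' := by exact_mod_cast h2
    refine hC j j h1 h2 ?_ ?_ ?_
    · exact ((div_le_one hn0).2 h1').trans (by norm_num)
    · exact ((div_le_one hn0').2 h2').trans (by norm_num)
    · have e : (j : ℝ) / n - (j : ℝ) / n' = (j : ℝ) / n' * ((n' - n) / n) := by
        field_simp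
      rw [e, abs_mul, abs_of_nonneg (by positivity : 0 ≤ (j : ℝ) / n'), abs_div, abs_of_pos hn0, abs_sub_comm]
      have h3 : (j : ℝ) / n' ≤ 1 := (div_le_one hn0').2 h2'
      refine (mul_le_of_le_one_left (by positivity) h3).trans ?_
      rw [div_le_iff₀ hn0]
      exact hβ
  · have h1 : n' ≤ i := by omega
    have h2 : (n' : ℝ) ≤ i := by exact_mod_cast h1
    exact far hn hS2 hz i hi' (by linarith)
  · have h1 : n ≤ i := by omega
    have h2 : (n : ℝ) ≤ i := by exact_mod_cast h1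
    exact far hn' hS2' hz' i hi' (by linarith)
  · exact far hn hS2 hz n le_rfl (by
      have : 0 ≤ κ * n := by positivity
      linarith)
  · exact far hn' hS2' hz' n' le_rfl (by
      have : 0 ≤ κ * n' := by positivity
      linarith)

/-! ### the functional -/

/-- **C1-W, all numbers of steps at once** : the size `D` (`DG` : diameter, `LG` : level), the ranges `B` of the parameters at the scale
`R`; `K'`, `M1`, `n0` depend on `D, R, κ, K, K0, B, ε` only; `φ` depends on `M, S, h` but not on `n` -/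
def MacTU : Prop := ∀ D : SzT, SzS D → ∀ (R κ K K0 : ℝ) (B : Box), 0 < R → B.Ok R → 0 < κ → κ < 1 → 0 ≤ K → 1 ≤ K0 →
  ∀ ε : ℝ, 0 < ε → ∃ (K' : NNReal) (M1 n0 : ℕ), ∀ M : ℕ, M1 ≤ M → 1 ≤ M → ∀ S : ℝ, 0 < S →
    ∀ h : (∀ n : ℕ, (Fin n → Fin 3) → ℕ → ℝ), TestV K S h → ∃ φ : ℝ × CI → ℝ, LipschitzWith K' φ ∧ (∀ p, |φ p| ≤ 1) ∧
      ∀ n : ℕ, n0 ≤ n → size n / K0 ≤ S → S ≤ size n →
        ∑ s ∈ saw n, |psV D M B S h s * zc κ (1000 * R) (curve s) - φ (XS S s)| ≤ ε * ((saw n).card : ℝ)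

theorem macTU_of (hMd : MdP) (hSt : StbLU) : MacTU := by
  classical
  intro D hD R κ K K0 B hR hB hκ hκ1 hK hK0 ε hε
  have hK00 : 0 < K0 := by linarith
  obtain ⟨e', he'⟩ : ∃ e', e' = ε / 5 := ⟨_, rfl⟩
  have he : 0 < e' := by rw [he']; positivity
  have he5 : 0 < e' / 5 := by positivity
  choose! ηf hη0 hη1 using fun ω hω => hMd (e' / 5) ω he5 hω
  obtain ⟨ω2, ω3, ω4, θ, M1, n1, hω2, hω3, hω4, hθ, hcmp⟩ := cmpU hD hR hK hK0 he hB ηf hη0
  obtain ⟨δ, n2, Bad, hδ, hBad, hstb⟩ := hSt R K0 2 κ (θ / 4) (e' / 5) hR hK0 (by norm_num) hκ hκ1 (by positivity) he5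
  obtain ⟨ω5, hω5⟩ : ∃ ω5, ω5 = δ / (4 * K0) := ⟨_, rfl⟩
  have hω50 : 0 < ω5 := by rw [hω5]; positivity
  have hη5 := hη0 ω5 hω50
  obtain ⟨C, hC⟩ : ∃ C, C = (2 / ηf ω5 + 1) * ω5 := ⟨_, rfl⟩
  have hC0 : 0 < C := by rw [hC]; positivity
  obtain ⟨L, hL⟩ : ∃ L, L = 1 / (1000 * R) := ⟨_, rfl⟩
  have hL0 : 0 < L := by rw [hL]; positivity
  obtain ⟨θ1, hθ10, ht⟩ := min_list [θ / 4, ω5 / 4, ω5 / (4 * C), e' / L, κ / 2, ηf ω5 / 4, 1 / 2, ω5 / 4]
    (by
      intro x hx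
      simp only [List.mem_cons, List.not_mem_nil, or_false] at hx
      rcases hx with rfl | rfl | rfl | rfl | rfl | rfl | rfl | rfl <;> positivity)
  simp only [List.mem_cons, List.not_mem_nil, or_false, forall_eq_or_imp, forall_eq] at ht
  obtain ⟨t1, t2, t3, t4, t5, t6, t7, -⟩ := ht
  have r1 : C * θ1 ≤ ω5 / 4 := by
    have h1 := mul_le_mul_of_nonneg_left t3 hC0.le
    have e : C * (ω5 / (4 * C)) = ω5 / 4 := by field_simp
    linarith
  have r2 : L * θ1 ≤ e' := by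
    rw [le_div_iff₀ hL0] at t4
    linarith
  obtain ⟨δX, N0, hδX, hnear⟩ := nearU (K0 := K0) (C := C + 1) hK00 (by positivity) hθ10
  obtain ⟨n3, hn3⟩ := inv_small (θ := min θ1 1) (lt_min hθ10 one_pos)
  obtain ⟨δ', hδ'0, hδ'1, hδ'2⟩ : ∃ δ' : ℝ, 0 < δ' ∧ δ' ≤ δX ∧ δ' ≤ θ := ⟨min δX θ, lt_min hδX hθ, min_le_left _ _, min_le_right _ _⟩
  obtain ⟨n0, q1, q2, q3, q4⟩ : ∃ n0 : ℕ, n1 ≤ n0 ∧ n2 ≤ n0 ∧ n3 ≤ n0 ∧ N0 ≤ n0 := ⟨n1 + n2 + n3 + N0, by omega, by omega, by omega, by omega⟩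
  obtain ⟨BT, hBT⟩ : ∃ BT : ∀ n : ℕ, (Fin n → Fin 3) → Prop, BT = fun n s => (((¬ Md (ηf ω2) ω2 s ∨ ¬ Md (ηf ω3) ω3 s) ∨
    ¬ Md (ηf ω4) ω4 s) ∨ ¬ Md (ηf ω5) ω5 s) ∨ Bad n s := ⟨_, rfl⟩
  refine ⟨Real.toNNReal (1 / δ'), M1, n0, fun M hM1 hM0 S hS0 h hh => ?_⟩
  have hz0 : ∀ γ : CI, 0 ≤ zc κ (1000 * R) γ := fun γ => SCF.tr_nonneg _
  have hz1 : ∀ γ : CI, zc κ (1000 * R) γ ≤ 1 := fun γ => SCF.tr_le _
  have hp0 : ∀ {n : ℕ} (s : Fin n → Fin 3), 0 ≤ psV D M B S h s := fun s => psP_nn fun k => hh.nn _ _ _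
  have hp1 : ∀ {n : ℕ} (s : Fin n → Fin 3), psV D M B S h s ≤ 1 := fun s => psP_le hB hR.le hS0.le fun k => hh.le _ _ _
  obtain ⟨φ, h1, h2, h3, h4⟩ := mcsI
    (I := {x : Σ n : ℕ, (Fin n → Fin 3) // n0 ≤ x.1 ∧ size x.1 / K0 ≤ S ∧ S ≤ size x.1 ∧
      ¬ (BT x.1 x.2 ∧ 0 < zc κ (1000 * R) (curve x.2))})
    (c := fun x => XS S x.1.2) (f := fun x => psV D M B S h x.1.2 * zc κ (1000 * R) (curve x.1.2))
    (fun x => mul_nonneg (hp0 _) (hz0 _)) (fun x => mul_le_one₀ (hp1 _) (hz0 _) (hz1 _)) (ε := 2 * e') (δ := δ')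
    (by positivity) hδ'0 (by
      rintro ⟨⟨n, s⟩, hn, hS1, hS2, hg⟩ ⟨⟨n', s'⟩, hn', hS1', hS2', hg'⟩ hd
      change n0 ≤ n at hn
      change n0 ≤ n' at hn'
      change size n / K0 ≤ S at hS1
      change size n' / K0 ≤ S at hS1'
      change S ≤ size n at hS2
      change S ≤ size n' at hS2'
      change ¬ (BT n s ∧ 0 < zc κ (1000 * R) (curve s)) at hg
      change ¬ (BT n' s' ∧ 0 < zc κ (1000 * R) (curve s')) at hg'
      change dist (XS S s) (XS S s') ≤ δ' at hd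
      show psV D M B S h s * zc κ (1000 * R) (curve s) ≤ psV D M B S h s' * zc κ (1000 * R) (curve s') + 2 * e'
      obtain ⟨a1, a2, a3⟩ := hn3 n (by omega)
      obtain ⟨b1, b2, b3⟩ := hn3 n' (by omega)
      have a2' := a2.trans (min_le_left _ _)
      have b2' := b2.trans (min_le_left _ _)
      have a3' := a3.trans (min_le_left _ _)
      have a4' := a3.trans (min_le_right _ _)
      have hs := NTSF.size_pos a1
      have hs' := NTSF.size_pos b1
      have hn0 : (0 : ℝ) < n := by exact_mod_cast a1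
      have hn0' : (0 : ℝ) < n' := by exact_mod_cast b1
      have hS3 : size n ≤ K0 * S := by
        rw [div_le_iff₀ hK00] at hS1
        linarith
      have hS3' : size n' ≤ K0 * S := by
        rw [div_le_iff₀ hK00] at hS1'
        linarith
      rcases eq_or_lt_of_le (hz0 (curve s)) with c1 | c1
      · rw [← c1, mul_zero]
        have := mul_nonneg (hp0 s') (hz0 (curve s'))
        linarith
      have hG : ¬ BT n s := fun hb => hg ⟨hb, c1⟩
      rw [hBT] at hG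
      push Not at hG
      obtain ⟨⟨⟨⟨m1, m2⟩, m3⟩, m4⟩, hb⟩ := hG
      have hbd : ∀ i : ℕ, i ≤ n → ‖pos s i‖ ≤ C * size n := by
        rw [hC]
        refine md_bd hη5 hω50.le ?_ m4
        have h1 : 1 / (n : ℝ) ≤ ηf ω5 := a2'.trans (by linarith)
        rwa [div_le_iff₀ hn0] at h1
      have hS4' : S ≤ K0 * size n' := hS2'.trans (le_mul_of_one_le_left hs'.le hK0)
      obtain ⟨g1, g2, g3, g4⟩ := hnear n' n s' s S (by omega) (by omega) hS0 hS4' (fun u => (curve_bd a1 hbd u).trans (by linarith))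
        (by rw [dist_comm]; exact hd.trans hδ'1)
      rw [dist_comm] at g1
      have hzz : |zc κ (1000 * R) (curve s) - zc κ (1000 * R) (curve s')| ≤ e' := by
        refine (zc_lip hκ (by positivity) _ _).trans ?_
        rw [← hL]
        exact (mul_le_mul_of_nonneg_left g1 hL0.le).trans r2
      have hzz' := (abs_le.1 hzz).2
      rcases eq_or_lt_of_le (hz0 (curve s')) with c2 | c2
      · rw [← c2, mul_zero]
        rw [← c2] at hzz'
        have : psV D M B S h s * zc κ (1000 * R) (curve s) ≤ 1 * zc κ (1000 * R) (curve s) :=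
          mul_le_mul_of_nonneg_right (hp1 s) (hz0 _)
        linarith
      have hG' : ¬ BT n' s' := fun hb => hg' ⟨hb, c2⟩
      rw [hBT] at hG'
      push Not at hG'
      obtain ⟨⟨⟨⟨m1', m2'⟩, m3'⟩, m4'⟩, hb'⟩ := hG'
      -- closeness
      have g5 : |(n : ℝ) - n'| ≤ θ1 * n' := by rw [abs_sub_comm]; exact g4
      have g5' := abs_le.1 g5
      have hnn' : (n' : ℝ) ≤ 2 * n := by nlinarith
      have hnn : (n : ℝ) ≤ 2 * n' := by nlinarith
      have g6 : |(n : ℝ) - n'| ≤ 2 * θ1 * n := by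
        refine g5.trans ?_
        nlinarith
      have hClX : ClS S 2 (ηf ω5 / 2) δ s' s := by
        refine clS_of b1 a1 (cl_of b1 a1 (by rw [dist_comm]; exact g1) m4 (by linarith) (le_refl (θ1 + 1 / size n + ω5)))
          hS3' hS3 (by positivity) hbd g2 hC0.le ?_ hS0.le
        have h1 : θ1 + 1 / size n + ω5 + C * θ1 ≤ 4 * ω5 := by linarith
        calc K0 * (θ1 + 1 / size n + ω5 + C * θ1) ≤ K0 * (4 * ω5) := mul_le_mul_of_nonneg_left h1 hK00.le
          _ = δ := by rw [hω5]; field_simp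
      have hLC : LC (0 * S) (δ * S) (500 * R * S) 0 0 (min n n') s s' := by
        refine lc0 a1 b1 hR hκ hS0.le hS2 hS2' c1 c2 hClX.symm ?_ ?_ ?_
        · refine g6.trans (mul_le_mul_of_nonneg_right (by linarith) hn0.le)
        · refine g6.trans (mul_le_mul_of_nonneg_right (by linarith) hn0.le)
        · refine g5.trans (mul_le_mul_of_nonneg_right (by linarith) hn0'.le)
      have st : StbA R (θ / 4) 0 S n 0 0 s s' := hstb n n' s s' S n 0 0 0 _ (by omega) (by omega) hb hb' hS1 hS2 hS1' hS2'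
        (by linarith) hnn' le_rfl (by positivity) hLC
      have st' : StbA R (θ / 4) 0 S n' 0 0 s' s := hstb n' n s' s S n' 0 0 0 _ (by omega) (by omega) hb' hb hS1' hS2' hS1 hS2
        (by linarith) hnn le_rfl (by positivity) hLC.symm
      have sS : StbS D R θ S s s' := by
        refine stbS_0 hD a1 b1 st hS0.le (by linarith) ?_
        have h1 : |(n : ℝ) - n'| / n ≤ 2 * θ1 := by
          rw [div_le_iff₀ hn0]
          exact g6
        have e : θ / 4 * n / n = θ / 4 := by field_simp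
        rw [e]
        linarith
      have sS' : StbS D R θ S s' s := by
        refine stbS_0 hD b1 a1 st' hS0.le (by linarith) ?_
        have h1 : |(n' : ℝ) - n| / n' ≤ θ1 := by
          rw [div_le_iff₀ hn0']
          exact g4
        have e : θ / 4 * n' / n' = θ / 4 := by field_simp
        rw [e]
        linarith
      have h5 := hcmp n n' s s' S (by omega) (by omega) hS0 hS3 hS3' m1' m2' m3' (hd.trans hδ'2) (g1.trans (by linarith))
        (g3.trans (by linarith)) sS sS' M hM1 hM0 h hh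
      have h6 : psV D M B S h s * zc κ (1000 * R) (curve s) ≤ (psV D M B S h s' + e') * zc κ (1000 * R) (curve s) :=
        mul_le_mul_of_nonneg_right h5 c1.le
      have h7 : psV D M B S h s' * (zc κ (1000 * R) (curve s) - zc κ (1000 * R) (curve s')) ≤ 1 * e' := by
        rcases le_or_gt 0 (zc κ (1000 * R) (curve s) - zc κ (1000 * R) (curve s')) with c3 | c3
        · exact mul_le_mul (hp1 _) (by linarith) c3 zero_le_one
        · have : psV D M B S h s' * (zc κ (1000 * R) (curve s) - zc κ (1000 * R) (curve s')) ≤ 0 :=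
            mul_nonpos_of_nonneg_of_nonpos (hp0 _) c3.le
          linarith
      have h8 : e' * zc κ (1000 * R) (curve s) ≤ e' * 1 := mul_le_mul_of_nonneg_left (hz1 _) he.le
      nlinarith)
  refine ⟨φ, h1, fun p => ?_, fun n hn hS1 hS2 => ?_⟩
  · rw [abs_le]
    exact ⟨by linarith [h2 p], h3 p⟩
  · have hnn : 1 ≤ n := (hn3 n (by omega)).1
    have hc := NTSF.saw_card_pos n
    have hB' : pr n (fun s => BT n s ∧ 0 < zc κ (1000 * R) (curve s)) ≤ e' := by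
      have a1 := hη1 ω2 hω2 n hnn
      have a2 := hη1 ω3 hω3 n hnn
      have a3 := hη1 ω4 hω4 n hnn
      have a4 := hη1 ω5 hω50 n hnn
      have a5 := hBad n (by omega)
      rw [hBT]
      have b1 : pr n (fun s => ((((¬ Md (ηf ω2) ω2 s ∨ ¬ Md (ηf ω3) ω3 s) ∨ ¬ Md (ηf ω4) ω4 s) ∨ ¬ Md (ηf ω5) ω5 s) ∨ Bad n s) ∧
          0 < zc κ (1000 * R) (curve s)) ≤
          pr n (fun s => ((¬ Md (ηf ω2) ω2 s ∨ ¬ Md (ηf ω3) ω3 s) ∨ ¬ Md (ηf ω4) ω4 s) ∨ ¬ Md (ηf ω5) ω5 s) +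
            pr n (fun s => Bad n s ∧ 0 < zc κ (1000 * R) (curve s)) :=
        pr_or fun s _ h => by
          rcases h with ⟨h | h, h'⟩
          · exact Or.inl h
          · exact Or.inr ⟨h, h'⟩
      have b2 : pr n (fun s => ((¬ Md (ηf ω2) ω2 s ∨ ¬ Md (ηf ω3) ω3 s) ∨ ¬ Md (ηf ω4) ω4 s) ∨ ¬ Md (ηf ω5) ω5 s) ≤
          pr n (fun s => (¬ Md (ηf ω2) ω2 s ∨ ¬ Md (ηf ω3) ω3 s) ∨ ¬ Md (ηf ω4) ω4 s) + pr n (fun s => ¬ Md (ηf ω5) ω5 s) :=
        pr_or fun s _ h => h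
      have b3 : pr n (fun s => (¬ Md (ηf ω2) ω2 s ∨ ¬ Md (ηf ω3) ω3 s) ∨ ¬ Md (ηf ω4) ω4 s) ≤
          pr n (fun s => ¬ Md (ηf ω2) ω2 s ∨ ¬ Md (ηf ω3) ω3 s) + pr n (fun s => ¬ Md (ηf ω4) ω4 s) :=
        pr_or fun s _ h => h
      have b4 : pr n (fun s => ¬ Md (ηf ω2) ω2 s ∨ ¬ Md (ηf ω3) ω3 s) ≤
          pr n (fun s => ¬ Md (ηf ω2) ω2 s) + pr n (fun s => ¬ Md (ηf ω3) ω3 s) :=
        pr_or fun s _ h => h
      linarith
    have h5 : ∀ s ∈ saw n, |psV D M B S h s * zc κ (1000 * R) (curve s) - φ (XS S s)| ≤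
        2 * e' + if BT n s ∧ 0 < zc κ (1000 * R) (curve s) then (1 : ℝ) else 0 := by
      intro s hs
      split_ifs with hb
      · have a1 : 0 ≤ psV D M B S h s * zc κ (1000 * R) (curve s) := mul_nonneg (hp0 s) (hz0 _)
        have a2 : psV D M B S h s * zc κ (1000 * R) (curve s) ≤ 1 := mul_le_one₀ (hp1 s) (hz0 _) (hz1 _)
        rw [abs_le]
        constructor <;> linarith [h2 (XS S s), h3 (XS S s)]
      · obtain ⟨a1, a2⟩ := h4 ⟨⟨n, s⟩, hn, hS1, hS2, hb⟩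
        have a1' : psV D M B S h s * zc κ (1000 * R) (curve s) ≤ φ (XS S s) := a1
        have a2' : φ (XS S s) ≤ psV D M B S h s * zc κ (1000 * R) (curve s) + 2 * e' := a2
        rw [abs_le]
        constructor <;> linarith
    rw [Pool.Agent.SCF.pr_eq, div_le_iff₀ hc] at hB'
    calc ∑ s ∈ saw n, |psV D M B S h s * zc κ (1000 * R) (curve s) - φ (XS S s)| ≤
        ∑ s ∈ saw n, (2 * e' + if BT n s ∧ 0 < zc κ (1000 * R) (curve s) then (1 : ℝ) else 0) := Finset.sum_le_sum h5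
      _ = 2 * e' * ((saw n).card : ℝ) + (((saw n).filter fun s => BT n s ∧ 0 < zc κ (1000 * R) (curve s)).card : ℝ) := by
          rw [Finset.sum_add_distrib, Finset.sum_const, nsmul_eq_mul, Finset.sum_ite, Finset.sum_const_zero, add_zero,
            Finset.sum_const, nsmul_eq_mul, mul_one, mul_comm]
      _ ≤ _ := by
          have h7 : (((saw n).filter fun s => BT n s ∧ 0 < zc κ (1000 * R) (curve s)).card : ℝ) ≤ e' * ((saw n).card : ℝ) := by
            refine le_trans (le_of_eq ?_) hB'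
            congr!
          have h8 : e' * ((saw n).card : ℝ) = ε / 5 * ((saw n).card : ℝ) := by rw [he']
          have h9 : 0 ≤ ε * ((saw n).card : ℝ) := by positivity
          rw [he'] at h7 ⊢
          linarith

/-- **C1-W, all numbers of steps at once, no hypothesis** -/
theorem macTU : MacTU := macTU_of mdP stbLU

end Pool.Agent.SCF.M
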