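import Mathlib

/-!
# ROT, block F3, row LOC: limit points of good words (helper28)

`P i` finite measures on words, `z i : Ω i → Z` (curve, marks), `∫ G (z i) dP i → ∫ G dm` along an ultrafilter `U`, for `G` bounded and
continuous (no tightness).

* `KG U z Good` : the points of `Z` near which there are good words, for `U`-almost all `i`; closed;
* `KG_meas` : if the bad words with `z i` in the open set `W` have a mass at most `ε`, then `m (W \ KG) ≤ ε`;
* **`gd_of`** : `Good j` with bad masses `e j`, `∑ e j < ∞`: almost every point of `W` is in `KG (Good j)` for all large `j`;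
* **`loc_lim`** : a word level estimate for pairs of good words near two such points passes to the limit.
-/

set_option autoImplicit false

open MeasureTheory Filter Topology Set
open scoped ENNReal BoundedContinuousFunction

namespace Pool.Agent.ROT.F3

section

variable {ι : Type*} {U : Ultrafilter ι} {Ω : ι → Type*} {Z : Type*}

/-- limit points of good words -/
def KG [TopologicalSpace Z] (U : Ultrafilter ι) (z : ∀ i, Ω i → Z) (Good : ∀ i, Ω i → Prop) : Set Z :=
  {x | ∀ O : Set Z, IsOpen O → x ∈ O → ∀ᶠ i in (U : Filter ι), ∃ ω, Good i ω ∧ z i ω ∈ O}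

theorem KG_closed [TopologicalSpace Z] (z : ∀ i, Ω i → Z) (Good : ∀ i, Ω i → Prop) : IsClosed (KG U z Good) := by
  rw [← isOpen_compl_iff, isOpen_iff_forall_mem_open]
  intro x hx
  have hx' : ¬ ∀ O : Set Z, IsOpen O → x ∈ O → ∀ᶠ i in (U : Filter ι), ∃ ω, Good i ω ∧ z i ω ∈ O := hx
  push Not at hx'
  obtain ⟨O, hO, hxO, h⟩ := hx'
  refine ⟨O, fun y hy hyK => ?_, hO, hxO⟩
  obtain ⟨i, ⟨ω, h1, h2⟩, h3⟩ := ((hyK O hO hy).and h).exists
  exact h3 ω h1 h2

lemma KG_mono [TopologicalSpace Z] {z : ∀ i, Ω i → Z} {G G' : ∀ i, Ω i → Prop} (h : ∀ i ω, G i ω → G' i ω) :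
    KG U z G ⊆ KG U z G' := fun x hx O hO hxO => by
  filter_upwards [hx O hO hxO] with i ⟨ω, h1, h2⟩
  exact ⟨ω, h i ω h1, h2⟩

variable [∀ i, MeasurableSpace (Ω i)] {P : ∀ i, Measure (Ω i)} [PseudoMetricSpace Z] [MeasurableSpace Z] [BorelSpace Z]
  {z : ∀ i, Ω i → Z} {m : Measure Z} [IsFiniteMeasure m]

/-- convergence of the laws along `U` -/
def CvU (U : Ultrafilter ι) (P : ∀ i, Measure (Ω i)) (z : ∀ i, Ω i → Z) (m : Measure Z) : Prop :=
  ∀ G : Z →ᵇ ℝ, Tendsto (fun i => ∫ ω, G (z i ω) ∂(P i)) (U : Filter ι) (𝓝 (∫ x, G x ∂m))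

/-- open sets have in the limit at most their limit mass -/
theorem open_leU (hc : CvU U P z m) {O : Set Z} (hO : IsOpen O) {ε : ℝ} (hε : 0 ≤ ε)
    (h : ∀ᶠ i in (U : Filter ι), P i (z i ⁻¹' O) ≤ ENNReal.ofReal ε) : m O ≤ ENNReal.ofReal ε := by
  classical
  obtain ⟨f, hf⟩ : ∃ f : ℕ → Z → ℝ, f = fun (n : ℕ) (x : Z) => if (Oᶜ).Nonempty then min 1 ((n : ℝ) * Metric.infDist x Oᶜ) else 1 := ⟨_, rfl⟩
  have hfc : ∀ n, Continuous (f n) := by
    intro n
    rw [hf]
    show Continuous fun x => if (Oᶜ).Nonempty then min 1 ((n : ℝ) * Metric.infDist x Oᶜ) else 1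
    split_ifs
    · exact continuous_const.min (continuous_const.mul (Metric.continuous_infDist_pt _))
    · exact continuous_const
  have hf0 : ∀ n x, 0 ≤ f n x := by
    intro n x
    rw [hf]
    show 0 ≤ if (Oᶜ).Nonempty then min 1 ((n : ℝ) * Metric.infDist x Oᶜ) else 1
    split_ifs
    · exact le_min zero_le_one (mul_nonneg (Nat.cast_nonneg _) Metric.infDist_nonneg)
    · exact zero_le_one
  have hf1 : ∀ n x, f n x ≤ 1 := by
    intro n x
    rw [hf]
    show (if (Oᶜ).Nonempty then min 1 ((n : ℝ) * Metric.infDist x Oᶜ) else 1) ≤ 1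
    split_ifs
    · exact min_le_left _ _
    · exact le_rfl
  have hfO : ∀ n x, x ∉ O → f n x = 0 := by
    intro n x hx
    rw [hf]
    show (if (Oᶜ).Nonempty then min 1 ((n : ℝ) * Metric.infDist x Oᶜ) else 1) = 0
    rw [if_pos ⟨x, hx⟩, Metric.infDist_zero_of_mem hx, mul_zero]
    exact min_eq_right zero_le_one
  have hlim : ∀ x, Tendsto (fun n => f n x) atTop (𝓝 (O.indicator (fun _ => (1 : ℝ)) x)) := by
    intro x
    by_cases hx : x ∈ O
    · rw [indicator_of_mem hx]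
      by_cases hne : (Oᶜ).Nonempty
      · have hpos : 0 < Metric.infDist x Oᶜ := by
          rw [← (isClosed_compl_iff.2 hO).notMem_iff_infDist_pos hne]
          exact fun h => h hx
        obtain ⟨N, hN⟩ := exists_nat_ge (1 / Metric.infDist x Oᶜ)
        refine tendsto_atTop_of_eventually_const (i₀ := N) fun n hn => ?_
        rw [hf]
        show (if (Oᶜ).Nonempty then min 1 ((n : ℝ) * Metric.infDist x Oᶜ) else 1) = 1
        rw [if_pos hne]
        refine min_eq_left ?_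
        have h1 : (1 : ℝ) / Metric.infDist x Oᶜ ≤ n := hN.trans (by exact_mod_cast hn)
        rwa [div_le_iff₀ hpos] at h1
      · refine tendsto_atTop_of_eventually_const (i₀ := 0) fun n _ => ?_
        rw [hf]
        show (if (Oᶜ).Nonempty then min 1 ((n : ℝ) * Metric.infDist x Oᶜ) else 1) = 1
        rw [if_neg hne]
    · rw [indicator_of_notMem hx]
      refine tendsto_atTop_of_eventually_const (i₀ := 0) fun n _ => hfO n x hx
  have h2 : ∀ n, ∫ x, f n x ∂m ≤ ε := by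
    intro n
    obtain ⟨G, hG⟩ : ∃ G : Z →ᵇ ℝ, ∀ x, G x = f n x :=
      ⟨BoundedContinuousFunction.ofNormedAddCommGroup (f n) (hfc n) 1 (fun x => by
        rw [Real.norm_eq_abs, abs_le]
        constructor <;> linarith [hf0 n x, hf1 n x]), fun x => rfl⟩
    have h3 := hc G
    have h4 : ∀ᶠ i in (U : Filter ι), ∫ ω, G (z i ω) ∂(P i) ≤ ε := by
      filter_upwards [h] with i hi
      have h5 : ∫ ω, G (z i ω) ∂(P i) ≤ (∫⁻ ω, ENNReal.ofReal (G (z i ω)) ∂(P i)).toReal := by
        by_cases hm : AEStronglyMeasurable (fun ω => G (z i ω)) (P i)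
        · rw [integral_eq_lintegral_of_nonneg_ae (Eventually.of_forall fun ω => by
            show 0 ≤ G (z i ω)
            rw [hG]; exact hf0 _ _) hm]
        · rw [integral_non_aestronglyMeasurable hm]
          exact ENNReal.toReal_nonneg
      have h6 : ∫⁻ ω, ENNReal.ofReal (G (z i ω)) ∂(P i) ≤ P i (z i ⁻¹' O) := by
        refine le_trans (lintegral_mono (g := (z i ⁻¹' O).indicator 1) fun ω => ?_) (lintegral_indicator_one_le _)
        by_cases hω : z i ω ∈ O
        · rw [indicator_of_mem (show ω ∈ z i ⁻¹' O from hω), hG]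
          exact ENNReal.ofReal_le_one.2 (hf1 _ _)
        · rw [hG, hfO _ _ hω, ENNReal.ofReal_zero]
          exact zero_le
      refine h5.trans ?_
      rw [← ENNReal.toReal_ofReal hε]
      exact ENNReal.toReal_mono ENNReal.ofReal_ne_top (h6.trans hi)
    have h5 := le_of_tendsto h3 h4
    simp only [hG] at h5
    exact h5
  have h3 : Tendsto (fun n => ∫ x, f n x ∂m) atTop (𝓝 (∫ x, O.indicator (fun _ => (1 : ℝ)) x ∂m)) := by
    refine tendsto_integral_of_dominated_convergence (fun _ => (1 : ℝ)) (fun n => (hfc n).measurable.aestronglyMeasurable)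
      (integrable_const _) (fun n => Eventually.of_forall fun x => ?_) (Eventually.of_forall hlim)
    rw [Real.norm_eq_abs, abs_le]
    constructor <;> linarith [hf0 n x, hf1 n x]
  have h4 := le_of_tendsto h3 (Eventually.of_forall h2)
  rw [integral_indicator_const _ hO.measurableSet, smul_eq_mul, mul_one] at h4
  rw [measureReal_def] at h4
  exact (ENNReal.le_ofReal_iff_toReal_le (measure_ne_top m O) hε).2 h4

/-- **the limit points of the good words have almost full measure in `W`** -/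
theorem KG_meas [SecondCountableTopology Z] (hc : CvU U P z m) {Good : ∀ i, Ω i → Prop} {W : Set Z} (hW : IsOpen W) {ε : ℝ}
    (hε : 0 ≤ ε) (h : ∀ᶠ i in (U : Filter ι), P i {ω | ¬ Good i ω ∧ z i ω ∈ W} ≤ ENNReal.ofReal ε) :
    m (W \ KG U z Good) ≤ ENNReal.ofReal ε := by
  classical
  obtain ⟨B, hBc, -, hB⟩ := TopologicalSpace.exists_countable_basis Z
  obtain ⟨C, hC⟩ : ∃ C : Set (Set Z), C = {O ∈ B | ∀ᶠ i in (U : Filter ι), ∀ ω, Good i ω → z i ω ∉ O} := ⟨_, rfl⟩
  have hCc : C.Countable := by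
    rw [hC]
    exact hBc.mono fun O hO => hO.1
  have hsub : W \ KG U z Good ⊆ ⋃ O ∈ C, (O ∩ W) := by
    rintro x ⟨hxW, hx⟩
    have hx' : ¬ ∀ O : Set Z, IsOpen O → x ∈ O → ∀ᶠ i in (U : Filter ι), ∃ ω, Good i ω ∧ z i ω ∈ O := hx
    push Not at hx'
    obtain ⟨O, hO, hxO, h1⟩ := hx'
    obtain ⟨O', hO', hxO', hsub'⟩ := hB.exists_subset_of_mem_open hxO hO
    refine mem_biUnion (x := O') ?_ ⟨hxO', hxW⟩
    rw [hC]
    refine ⟨hO', ?_⟩
    filter_upwards [h1] with i hi ω hω hz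
    exact hi ω hω (hsub' hz)
  refine (measure_mono hsub).trans ?_
  have hfin : ∀ F : Finset (Set Z), (∀ O ∈ F, O ∈ C) → m (⋃ O ∈ F, (O ∩ W)) ≤ ENNReal.ofReal ε := by
    intro F hF
    have hopen : IsOpen (⋃ O ∈ F, (O ∩ W)) := by
      refine isOpen_biUnion fun O hO => ?_
      have h1 := hF O hO
      rw [hC] at h1
      exact (hB.isOpen h1.1).inter hW
    refine open_leU hc hopen hε ?_
    have h1 : ∀ᶠ i in (U : Filter ι), ∀ O ∈ F, ∀ ω, Good i ω → z i ω ∉ O := by
      rw [Filter.eventually_all_finset]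
      intro O hO
      have h2 := hF O hO
      rw [hC] at h2
      exact h2.2
    filter_upwards [h, h1] with i hi h2
    refine (measure_mono fun ω hω => ?_).trans hi
    rw [mem_preimage, mem_iUnion₂] at hω
    obtain ⟨O, hO, h3, h4⟩ := hω
    exact ⟨fun hg => h2 O hO ω hg h3, h4⟩
  rcases C.eq_empty_or_nonempty with h0 | h0
  · rw [h0]
    simp
  · obtain ⟨f, hf⟩ := hCc.exists_eq_range h0
    have e : ⋃ O ∈ C, (O ∩ W) = ⋃ n, (f n ∩ W) := by
      rw [hf, biUnion_range]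
    rw [e]
    have e2 : ⋃ n, (f n ∩ W) = ⋃ N : ℕ, ⋃ n ∈ Finset.range N, (f n ∩ W) := by
      ext x
      simp only [mem_iUnion, Finset.mem_range]
      constructor
      · rintro ⟨n, hn⟩
        exact ⟨n + 1, n, Nat.lt_succ_self n, hn⟩
      · rintro ⟨N, n, -, hn⟩
        exact ⟨n, hn⟩
    rw [e2]
    have hmono : Monotone fun N : ℕ => ⋃ n ∈ Finset.range N, (f n ∩ W) := by
      intro N N' hN x hx
      simp only [mem_iUnion, Finset.mem_range] at hx ⊢
      obtain ⟨n, hn, hx⟩ := hx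
      exact ⟨n, by omega, hx⟩
    rw [hmono.measure_iUnion]
    refine iSup_le fun N => ?_
    have h3 := hfin ((Finset.range N).image f) fun O hO => by
      rw [Finset.mem_image] at hO
      obtain ⟨n, -, rfl⟩ := hO
      rw [hf]
      exact mem_range_self n
    refine (measure_mono fun x hx => ?_).trans h3
    simp only [mem_iUnion, Finset.mem_range] at hx
    obtain ⟨n, hn, hx⟩ := hx
    simp only [mem_iUnion]
    exact ⟨f n, Finset.mem_image.2 ⟨n, Finset.mem_range.2 hn, rfl⟩, hx⟩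

/-- **Borel - Cantelli**: almost every point of `W` is a limit point of `Good j` words for all large `j` -/
theorem gd_of [SecondCountableTopology Z] (hc : CvU U P z m) {Good : ℕ → ∀ i, Ω i → Prop} {W : Set Z} (hW : IsOpen W) {e : ℕ → ℝ}
    (he : ∀ j, 0 ≤ e j) (hs : Summable e) (h : ∀ j, ∀ᶠ i in (U : Filter ι), P i {ω | ¬ Good j i ω ∧ z i ω ∈ W} ≤ ENNReal.ofReal (e j)) :
    ∀ᵐ x ∂m, x ∈ W → ∀ᶠ j in atTop, x ∈ KG U z (Good j) := by
  have h1 : ∑' j, m (W \ KG U z (Good j)) ≠ ∞ := by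
    refine ne_top_of_le_ne_top ?_ (ENNReal.tsum_le_tsum fun j => KG_meas hc hW (he j) (h j))
    rw [← ENNReal.ofReal_tsum_of_nonneg he hs]
    exact ENNReal.ofReal_ne_top
  have h2 := ae_eventually_notMem h1
  filter_upwards [h2] with x hx hxW
  filter_upwards [hx] with j hj
  by_contra hcon
  exact hj ⟨hxW, hcon⟩

end

theorem gd_borel {ι : Type*} {U : Ultrafilter ι} {Ω : ι → Type*} {Z : Type*} [TopologicalSpace Z] [MeasurableSpace Z] [BorelSpace Z]
    {z : ∀ i, Ω i → Z} {Good : ℕ → ∀ i, Ω i → Prop} : MeasurableSet {x : Z | ∀ᶠ j in atTop, x ∈ KG U z (Good j)} := by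
  have e : {x : Z | ∀ᶠ j in atTop, x ∈ KG U z (Good j)} = ⋃ N : ℕ, ⋂ j : ℕ, ⋂ _ : N ≤ j, KG U z (Good j) := by
    ext x
    simp only [mem_iUnion, mem_iInter]
    exact eventually_atTop
  rw [e]
  exact MeasurableSet.iUnion fun N => MeasurableSet.iInter fun j => MeasurableSet.iInter fun _ => (KG_closed z (Good j)).measurableSet

/-- the same for the law of `F g`, `g` of law `ν` (curve, levels, marks) -/
theorem gd_map {ι : Type*} {U : Ultrafilter ι} {Ω : ι → Type*} [∀ i, MeasurableSpace (Ω i)] {P : ∀ i, Measure (Ω i)} {X Z : Type*}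
    [MeasurableSpace X] [PseudoMetricSpace Z] [SecondCountableTopology Z] [MeasurableSpace Z] [BorelSpace Z] {z : ∀ i, Ω i → Z}
    {ν : Measure X} [IsFiniteMeasure ν] {F : X → Z} (hF : AEMeasurable F ν) (hc : CvU U P z (ν.map F))
    {Good : ℕ → ∀ i, Ω i → Prop} {W : Set Z} (hW : IsOpen W) {e : ℕ → ℝ} (he : ∀ j, 0 ≤ e j) (hs : Summable e)
    (h : ∀ j, ∀ᶠ i in (U : Filter ι), P i {ω | ¬ Good j i ω ∧ z i ω ∈ W} ≤ ENNReal.ofReal (e j)) :
    ∀ᵐ g ∂ν, F g ∈ W → ∀ᶠ j in atTop, F g ∈ KG U z (Good j) :=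
  ae_of_ae_map hF (gd_of hc hW he hs h)

/-- **from words to limits**: `Θ` = discrepancy, `Θ ≤ th j` for pairs of good words near `x` and `x'` -/
theorem loc_lim {ι : Type*} {U : Ultrafilter ι} {Ω Ω' : ι → Type*} {Z Z' : Type*} [PseudoMetricSpace Z] [PseudoMetricSpace Z']
    {z : ∀ i, Ω i → Z} {z' : ∀ i, Ω' i → Z'} {Good : ℕ → ∀ i, Ω i → Prop} {Good' : ℕ → ∀ i, Ω' i → Prop} {x : Z} {x' : Z'}
    (hx : ∀ᶠ j in atTop, x ∈ KG U z (Good j)) (hx' : ∀ᶠ j in atTop, x' ∈ KG U z' (Good' j)) {Θ : Z × Z' → ℝ}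
    (hΘ : ContinuousAt Θ (x, x')) {th : ℕ → ℝ} {t0 : ℝ} (hth : Tendsto th atTop (𝓝 t0))
    (hW : ∀ j, ∃ δ : ℝ, 0 < δ ∧ ∀ᶠ i in (U : Filter ι), ∀ (ω : Ω i) (ω' : Ω' i), Good j i ω → Good' j i ω' →
      dist (z i ω) x < δ → dist (z' i ω') x' < δ → Θ (z i ω, z' i ω') ≤ th j) : Θ (x, x') ≤ t0 := by
  refine le_of_forall_pos_le_add fun η hη => ?_
  have h1 : ∀ᶠ j in atTop, th j < t0 + η / 2 := hth.eventually (gt_mem_nhds (by linarith))
  obtain ⟨j, h2, h3, h4⟩ := (h1.and (hx.and hx')).exists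
  obtain ⟨δ, hδ, hev⟩ := hW j
  have h5 : ∀ᶠ y in 𝓝 (x, x'), Θ (x, x') - η / 2 < Θ y := hΘ.eventually (lt_mem_nhds (by linarith))
  obtain ⟨r, hr, h6⟩ := Metric.eventually_nhds_iff.1 h5
  have hr' : 0 < min δ r := lt_min hδ hr
  obtain ⟨i, h7, ⟨ω, g1, g2⟩, ω', g3, g4⟩ := (hev.and ((h3 (Metric.ball x (min δ r)) Metric.isOpen_ball (Metric.mem_ball_self hr')).and
    (h4 (Metric.ball x' (min δ r)) Metric.isOpen_ball (Metric.mem_ball_self hr')))).exists
  rw [Metric.mem_ball] at g2 g4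
  have h8 := h7 ω ω' g1 g3 (g2.trans_le (min_le_left _ _)) (g4.trans_le (min_le_left _ _))
  have h9 := h6 (y := (z i ω, z' i ω')) (by
    rw [Prod.dist_eq]
    exact max_lt (g2.trans_le (min_le_right _ _)) (g4.trans_le (min_le_right _ _)))
  linarith

end Pool.Agent.ROT.F3
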