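import Pool.Agent.ROT.F3Prod

/-!
# ROT, F3: macroscopic functionals along a filter (helper59)

Index `i` (the scale), finite measures `P i` on words `Ω` (discrete), `x i s` = the curve of the word `s` (in the units of `i`).

* `L1A U P x p` : the bounded functional `p i s` is, up to small errors in the mean, a continuous functional of the curve;
  closed under sums, products, continuous functions of the curve and of finitely many such functionals (`L1A.comp`, tight laws);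
* `LimF U P x p μ Φ` : the measurable functional `Φ` of the limit curve which corresponds to `p`; `L1A.lim` (existence),
  `LimF.tendsto`, `LimF.comp`, `LimF.unique`;
* `gen_mono` : a monotone family of functionals does not jump at all but countably many parameters (ultrafilter).
-/

set_option autoImplicit false

open MeasureTheory Filter Topology Set BoundedContinuousFunction
open scoped ENNReal

namespace Pool.Agent.ROT.F3

section defs

variable {ι Ω X : Type*} [MeasurableSpace Ω] [PseudoMetricSpace X]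

/-- **macroscopic functionals** -/
structure L1A (U : Filter ι) (P : ι → Measure Ω) (x : ι → Ω → X) (p : ι → Ω → ℝ) : Prop where
  bd : ∃ C : ℝ, ∀ i s, |p i s| ≤ C
  ap : ∀ ε : ℝ, 0 < ε → ∃ φ : X →ᵇ ℝ, ∀ᶠ i in U, ∫ s, |p i s - φ (x i s)| ∂(P i) ≤ ε

/-- bounded masses -/
def Mb (U : Filter ι) (P : ι → Measure Ω) : Prop := ∃ C : ℝ, ∀ᶠ i in U, (P i).real univ ≤ C

/-- tight laws -/
def Tg (U : Filter ι) (P : ι → Measure Ω) (x : ι → Ω → X) : Prop :=
  ∀ ε : ℝ, 0 < ε → ∃ K : Set X, IsCompact K ∧ ∀ᶠ i in U, (P i).real {s | x i s ∉ K} ≤ ε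

/-- the limit functional -/
structure LimF [MeasurableSpace X] (U : Filter ι) (P : ι → Measure Ω) (x : ι → Ω → X) (p : ι → Ω → ℝ) (μ : Measure X)
    (Φ : X → ℝ) : Prop where
  ms : Measurable Φ
  bd : ∃ C : ℝ, (∀ i s, |p i s| ≤ C) ∧ ∀ γ, |Φ γ| ≤ C
  ap : ∀ ε : ℝ, 0 < ε → ∃ φ : X →ᵇ ℝ, (∀ᶠ i in U, ∫ s, |p i s - φ (x i s)| ∂(P i) ≤ ε) ∧ ∫ γ, |Φ γ - φ γ| ∂μ ≤ ε

/-- weak convergence of the laws of the curves -/
def Wk [MeasurableSpace X] (U : Filter ι) (P : ι → Measure Ω) (x : ι → Ω → X) (μ : Measure X) : Prop :=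
  ∀ F : X →ᵇ ℝ, Tendsto (fun i => ∫ s, F (x i s) ∂(P i)) U (𝓝 (∫ γ, F γ ∂μ))

end defs

section basic

variable {ι Ω X : Type*} [MeasurableSpace Ω] [DiscreteMeasurableSpace Ω] [PseudoMetricSpace X] {U : Filter ι} {P : ι → Measure Ω}
  [∀ i, IsFiniteMeasure (P i)] {x : ι → Ω → X}

omit [∀ i, IsFiniteMeasure (P i)] in
lemma int_bd {Q : Measure Ω} [IsFiniteMeasure Q] {f : Ω → ℝ} {C : ℝ} (h : ∀ s, |f s| ≤ C) : Integrable f Q :=
  Integrable.of_bound (Measurable.of_discrete.aestronglyMeasurable) C (Eventually.of_forall h)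

/-- clamp of a bounded continuous function -/
noncomputable def clp (C : ℝ) (φ : X →ᵇ ℝ) : X →ᵇ ℝ :=
  BoundedContinuousFunction.mkOfBound ⟨fun γ => max (-C) (min C (φ γ)), by fun_prop⟩ (|C| + |C|) (by
    intro a b
    have h : ∀ y : ℝ, |max (-C) (min C y)| ≤ |C| := by
      intro y
      rw [abs_le]
      constructor
      · rcases le_total 0 C with h | h
        · rw [abs_of_nonneg h]; exact le_max_left _ _
        · rw [abs_of_nonpos h]
          have : C ≤ -C := by linarith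
          calc -(-C) = C := by ring
            _ ≤ -C := this
            _ ≤ _ := le_max_left _ _
      · refine max_le ?_ ((min_le_left _ _).trans (le_abs_self _))
        exact neg_le_abs _
    rw [Real.dist_eq]
    exact (abs_sub _ _).trans (add_le_add (h _) (h _)))

lemma clp_apply (C : ℝ) (φ : X →ᵇ ℝ) (γ : X) : clp C φ γ = max (-C) (min C (φ γ)) := rfl

lemma clp_bd {C : ℝ} (hC : 0 ≤ C) (φ : X →ᵇ ℝ) (γ : X) : |clp C φ γ| ≤ C := by
  rw [clp_apply, abs_le]
  exact ⟨le_max_left _ _, max_le (by linarith) (min_le_left _ _)⟩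

lemma clp_ap {C : ℝ} {y : ℝ} (hy : |y| ≤ C) (φ : X →ᵇ ℝ) (γ : X) : |y - clp C φ γ| ≤ |y - φ γ| := by
  have h := abs_le.1 hy
  rw [clp_apply]
  rcases le_total C (φ γ) with h1 | h1
  · rw [min_eq_left h1, max_eq_right (by linarith)]
    rw [abs_of_nonpos (by linarith), abs_of_nonpos (by linarith)]
    linarith
  · rw [min_eq_right h1]
    rcases le_total (-C) (φ γ) with h2 | h2
    · rw [max_eq_right h2]
    · rw [max_eq_left h2, abs_of_nonneg (by linarith), abs_of_nonneg (by linarith)]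
      linarith

omit [MeasurableSpace Ω] [DiscreteMeasurableSpace Ω] in
/-- the constant can be taken nonnegative -/
lemma bd_nn {p : ι → Ω → ℝ} (h : ∃ C : ℝ, ∀ i s, |p i s| ≤ C) : ∃ C : ℝ, 0 ≤ C ∧ ∀ i s, |p i s| ≤ C := by
  obtain ⟨C, hC⟩ := h
  exact ⟨|C|, abs_nonneg _, fun i s => (hC i s).trans (le_abs_self _)⟩

/-- squeeze: enough to have `|p - q| ≤ ε` in the mean with `q` macroscopic -/
theorem L1A.of_close {p : ι → Ω → ℝ} (hb : ∃ C : ℝ, ∀ i s, |p i s| ≤ C)
    (h : ∀ ε : ℝ, 0 < ε → ∃ q : ι → Ω → ℝ, L1A U P x q ∧ ∀ᶠ i in U, ∫ s, |p i s - q i s| ∂(P i) ≤ ε) : L1A U P x p := by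
  refine ⟨hb, fun ε hε => ?_⟩
  obtain ⟨q, hq, h1⟩ := h (ε / 2) (by positivity)
  obtain ⟨φ, hφ⟩ := hq.ap (ε / 2) (by positivity)
  obtain ⟨C, hC⟩ := hb
  obtain ⟨C', hC'⟩ := hq.bd
  refine ⟨φ, ?_⟩
  filter_upwards [h1, hφ] with i a1 a2
  have i1 : Integrable (fun s => |p i s - q i s|) (P i) := int_bd (C := C + C') fun s => by
    rw [abs_abs]; exact (abs_sub _ _).trans (add_le_add (hC i s) (hC' i s))
  have i2 : Integrable (fun s => |q i s - φ (x i s)|) (P i) := int_bd (C := C' + ‖φ‖) fun s => by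
    rw [abs_abs]; exact (abs_sub _ _).trans (add_le_add (hC' i s) (φ.norm_coe_le_norm _))
  have i3 : Integrable (fun s => |p i s - φ (x i s)|) (P i) := int_bd (C := C + ‖φ‖) fun s => by
    rw [abs_abs]; exact (abs_sub _ _).trans (add_le_add (hC i s) (φ.norm_coe_le_norm _))
  calc ∫ s, |p i s - φ (x i s)| ∂(P i) ≤ ∫ s, (|p i s - q i s| + |q i s - φ (x i s)|) ∂(P i) :=
        integral_mono i3 (i1.add i2) fun s => abs_sub_le _ _ _
    _ = _ := integral_add i1 i2
    _ ≤ ε := by linarith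

omit [DiscreteMeasurableSpace Ω] [∀ i, IsFiniteMeasure (P i)] in
lemma L1A.cont (F : X →ᵇ ℝ) : L1A U P x fun i s => F (x i s) :=
  ⟨⟨‖F‖, fun i s => F.norm_coe_le_norm _⟩, fun ε hε => ⟨F, Eventually.of_forall fun i => by simp [hε.le]⟩⟩

omit [DiscreteMeasurableSpace Ω] [∀ i, IsFiniteMeasure (P i)] in
lemma L1A.const (c : ℝ) : L1A U P x fun _ _ => c := by
  have h := L1A.cont (U := U) (P := P) (x := x) (BoundedContinuousFunction.const X c)
  exact h

/-- the estimate behind `L1A.comp` -/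
theorem comp_est {p : ι → Ω → ℝ} {C : ℝ} (hC0 : 0 ≤ C) (hC : ∀ i s, |p i s| ≤ C) (hM : Mb U P) (hT : Tg U P x) {F : X × ℝ → ℝ}
    (hF : Continuous F) {B : ℝ} (hB : ∀ z, |F z| ≤ B) {ε : ℝ} (hε : 0 < ε) : ∃ e3 : ℝ, 0 < e3 ∧ ∀ φ : X →ᵇ ℝ,
      (∀ᶠ i in U, ∫ s, |p i s - φ (x i s)| ∂(P i) ≤ e3) →
        ∀ᶠ i in U, ∫ s, |F (x i s, p i s) - F (x i s, clp C φ (x i s))| ∂(P i) ≤ ε := by
  obtain ⟨m, hm⟩ := hM
  obtain ⟨m', hm'⟩ : ∃ m', m' = |m| + 1 := ⟨_, rfl⟩
  have hm0 : 0 < m' := by rw [hm']; positivity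
  have hB0 : 0 ≤ |B| := abs_nonneg _
  obtain ⟨e1, he1⟩ : ∃ e1, e1 = ε / (3 * m') := ⟨_, rfl⟩
  have he10 : 0 < e1 := by rw [he1]; positivity
  obtain ⟨e2, he2⟩ : ∃ e2, e2 = ε / (3 * (2 * |B| + 1)) := ⟨_, rfl⟩
  have he20 : 0 < e2 := by rw [he2]; positivity
  obtain ⟨K, hK, hKP⟩ := hT e2 he20
  have hcp : IsCompact (K ×ˢ Icc (-C) C) := hK.prod isCompact_Icc
  have hu := hcp.uniformContinuousOn_of_continuous hF.continuousOn
  obtain ⟨δ, hδ, hu⟩ := Metric.uniformContinuousOn_iff.1 hu e1 he10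
  obtain ⟨e3, he3⟩ : ∃ e3, e3 = ε * δ / (3 * (2 * |B| + 1)) := ⟨_, rfl⟩
  have he30 : 0 < e3 := by rw [he3]; positivity
  refine ⟨e3, he30, fun φ hφ => ?_⟩
  filter_upwards [hm, hKP, hφ] with i a1 a2 a3
  have key : ∀ s, |F (x i s, p i s) - F (x i s, clp C φ (x i s))| ≤
      (e1 + 2 * |B| * ({s | x i s ∉ K}.indicator (fun _ => (1 : ℝ)) s)) + 2 * |B| / δ * |p i s - φ (x i s)| := by
    intro s
    have hb2 : |F (x i s, p i s) - F (x i s, clp C φ (x i s))| ≤ 2 * |B| := by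
      refine (abs_sub _ _).trans ?_
      have h1 := (hB (x i s, p i s)).trans (le_abs_self B)
      have h2 := (hB (x i s, clp C φ (x i s))).trans (le_abs_self B)
      linarith
    have hn1 : 0 ≤ 2 * |B| / δ * |p i s - φ (x i s)| := by positivity
    by_cases hx : x i s ∉ K
    · rw [indicator_of_mem (show s ∈ {s | x i s ∉ K} from hx)]
      linarith
    · rw [indicator_of_notMem (show s ∉ {s | x i s ∉ K} from hx)]
      push Not at hx
      by_cases hd : |p i s - φ (x i s)| < δ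
      · have h1 := hu (x i s, p i s) ⟨hx, abs_le.1 (hC i s)⟩ (x i s, clp C φ (x i s)) ⟨hx, abs_le.1 (clp_bd hC0 _ _)⟩ (by
          rw [Prod.dist_eq, dist_self, Real.dist_eq]
          exact max_lt hδ ((clp_ap (hC i s) _ _).trans_lt hd))
        rw [Real.dist_eq] at h1
        linarith
      · push Not at hd
        have h1 : 2 * |B| ≤ 2 * |B| / δ * |p i s - φ (x i s)| := by
          rw [div_mul_eq_mul_div, le_div_iff₀ hδ]
          exact mul_le_mul_of_nonneg_left hd (by positivity)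
        linarith
  have j1 : Integrable (fun s => |F (x i s, p i s) - F (x i s, clp C φ (x i s))|) (P i) := int_bd (C := B + B) fun s => by
    rw [abs_abs]; exact (abs_sub _ _).trans (add_le_add (hB _) (hB _))
  have j2 : Integrable (fun s => |p i s - φ (x i s)|) (P i) := int_bd (C := C + ‖φ‖) fun s => by
    rw [abs_abs]; exact (abs_sub _ _).trans (add_le_add (hC i s) (φ.norm_coe_le_norm _))
  have j3 : Integrable ({s | x i s ∉ K}.indicator fun _ => (1 : ℝ)) (P i) :=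
    (integrable_const (1 : ℝ)).indicator MeasurableSet.of_discrete
  have e0 : ∫ s, {s | x i s ∉ K}.indicator (fun _ => (1 : ℝ)) s ∂(P i) = (P i).real {s | x i s ∉ K} := by
    rw [integral_indicator MeasurableSet.of_discrete, setIntegral_const]
    simp
  have k0 : Integrable (fun s => 2 * |B| * ({s | x i s ∉ K}.indicator (fun _ => (1 : ℝ)) s)) (P i) := j3.const_mul _
  have k1 : Integrable (fun s => e1 + 2 * |B| * ({s | x i s ∉ K}.indicator (fun _ => (1 : ℝ)) s)) (P i) :=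
    (integrable_const e1).add k0
  have k2 : Integrable (fun s => 2 * |B| / δ * |p i s - φ (x i s)|) (P i) := j2.const_mul _
  calc ∫ s, |F (x i s, p i s) - F (x i s, clp C φ (x i s))| ∂(P i)
      ≤ ∫ s, ((e1 + 2 * |B| * ({s | x i s ∉ K}.indicator (fun _ => (1 : ℝ)) s)) + 2 * |B| / δ * |p i s - φ (x i s)|) ∂(P i) :=
        integral_mono j1 (k1.add k2) key
    _ = (e1 * (P i).real univ + 2 * |B| * (P i).real {s | x i s ∉ K}) + 2 * |B| / δ * ∫ s, |p i s - φ (x i s)| ∂(P i) := by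
        rw [integral_add k1 k2, integral_add (integrable_const e1) k0, integral_const_mul, integral_const_mul, e0, integral_const,
          smul_eq_mul, mul_comm e1]
    _ ≤ (e1 * m' + 2 * |B| * e2) + 2 * |B| / δ * e3 := by
        have b1 : (P i).real univ ≤ m' := a1.trans ((le_abs_self _).trans (by rw [hm']; linarith))
        have b2 : 0 ≤ 2 * |B| / δ := by positivity
        have b3 := mul_le_mul_of_nonneg_left b1 he10.le
        have b4 := mul_le_mul_of_nonneg_left a2 (by positivity : 0 ≤ 2 * |B|)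
        have b5 := mul_le_mul_of_nonneg_left a3 b2
        linarith
    _ ≤ ε := by
        have c1 : e1 * m' = ε / 3 := by rw [he1]; field_simp
        have c2 : 2 * |B| * e2 ≤ ε / 3 := by
          rw [he2]
          have : 2 * |B| * (ε / (3 * (2 * |B| + 1))) = ε / 3 * (2 * |B| / (2 * |B| + 1)) := by field_simp
          rw [this]
          refine mul_le_of_le_one_right (by positivity) ?_
          rw [div_le_one (by positivity)]
          linarith
        have c3 : 2 * |B| / δ * e3 ≤ ε / 3 := by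
          rw [he3]
          have : 2 * |B| / δ * (ε * δ / (3 * (2 * |B| + 1))) = ε / 3 * (2 * |B| / (2 * |B| + 1)) := by field_simp
          rw [this]
          refine mul_le_of_le_one_right (by positivity) ?_
          rw [div_le_one (by positivity)]
          linarith
        linarith



/-- **continuous functions of the curve and of one macroscopic functional** -/
theorem L1A.comp {p : ι → Ω → ℝ} (hp : L1A U P x p) (hM : Mb U P) (hT : Tg U P x) {F : X × ℝ → ℝ} (hF : Continuous F) {B : ℝ}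
    (hB : ∀ z, |F z| ≤ B) : L1A U P x fun i s => F (x i s, p i s) := by
  refine ⟨⟨B, fun i s => hB _⟩, fun ε hε => ?_⟩
  obtain ⟨C, hC0, hC⟩ := bd_nn hp.bd
  obtain ⟨e3, he3, h⟩ := comp_est hC0 hC hM hT hF hB hε
  obtain ⟨φ, hφ⟩ := hp.ap e3 he3
  have hcont : Continuous fun γ : X => F (γ, clp C φ γ) := hF.comp (continuous_id.prodMk (clp C φ).continuous)
  exact ⟨BoundedContinuousFunction.mkOfBound ⟨_, hcont⟩ (B + B) fun a b => by
    rw [Real.dist_eq]; exact (abs_sub _ _).trans (add_le_add (hB _) (hB _)), h φ hφ⟩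

omit [DiscreteMeasurableSpace Ω] [∀ i, IsFiniteMeasure (P i)] in
/-- more information in the curve -/
theorem L1A.lift {Y : Type*} [PseudoMetricSpace Y] {y : ι → Ω → Y} {g : Y → X} (hg : Continuous g) (hy : ∀ i s, g (y i s) = x i s)
    {q : ι → Ω → ℝ} (hq : L1A U P x q) : L1A U P y q := by
  refine ⟨hq.bd, fun ε hε => ?_⟩
  obtain ⟨φ, hφ⟩ := hq.ap ε hε
  refine ⟨φ.compContinuous ⟨g, hg⟩, ?_⟩
  filter_upwards [hφ] with i hi
  simpa [hy] using hi

omit [DiscreteMeasurableSpace Ω] in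
lemma Tg.pair {p : ι → Ω → ℝ} {C : ℝ} (hC : ∀ i s, |p i s| ≤ C) (hT : Tg U P x) : Tg U P fun i s => (x i s, p i s) := by
  intro ε hε
  obtain ⟨K, hK, h⟩ := hT ε hε
  refine ⟨K ×ˢ Icc (-C) C, hK.prod isCompact_Icc, ?_⟩
  filter_upwards [h] with i hi
  refine (measureReal_mono (fun s hs => ?_)).trans hi
  intro hx
  exact hs ⟨hx, abs_le.1 (hC i s)⟩

/-- **macroscopic in the curve and in a macroscopic functional implies macroscopic** -/
theorem L1A.down {p q : ι → Ω → ℝ} (hp : L1A U P x p) (hM : Mb U P) (hT : Tg U P x)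
    (hq : L1A U P (fun i s => (x i s, p i s)) q) : L1A U P x q := by
  refine L1A.of_close hq.bd fun ε hε => ?_
  obtain ⟨ψ, hψ⟩ := hq.ap ε hε
  exact ⟨fun i s => ψ (x i s, p i s), hp.comp hM hT ψ.continuous (B := ‖ψ‖) fun z => ψ.norm_coe_le_norm z, hψ⟩

/-- **continuous functions of the curve and of two macroscopic functionals** -/
theorem L1A.comp2 {p q : ι → Ω → ℝ} (hp : L1A U P x p) (hq : L1A U P x q) (hM : Mb U P) (hT : Tg U P x) {F : X × ℝ × ℝ → ℝ}
    (hF : Continuous F) {B : ℝ} (hB : ∀ z, |F z| ≤ B) : L1A U P x fun i s => F (x i s, p i s, q i s) := by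
  obtain ⟨C, hC⟩ := hp.bd
  refine hp.down hM hT ?_
  have h1 : L1A U P (fun i s => (x i s, p i s)) q := hq.lift (g := Prod.fst) continuous_fst fun _ _ => rfl
  exact h1.comp hM (hT.pair hC) (F := fun z : (X × ℝ) × ℝ => F (z.1.1, z.1.2, z.2)) (hF.comp (by fun_prop)) fun z => hB _

theorem L1A.add {p q : ι → Ω → ℝ} (hp : L1A U P x p) (hq : L1A U P x q) : L1A U P x fun i s => p i s + q i s := by
  obtain ⟨C, hC⟩ := hp.bd
  obtain ⟨C', hC'⟩ := hq.bd
  refine ⟨⟨C + C', fun i s => (abs_add_le _ _).trans (add_le_add (hC i s) (hC' i s))⟩, fun ε hε => ?_⟩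
  obtain ⟨φ, hφ⟩ := hp.ap (ε / 2) (by positivity)
  obtain ⟨ψ, hψ⟩ := hq.ap (ε / 2) (by positivity)
  refine ⟨φ + ψ, ?_⟩
  filter_upwards [hφ, hψ] with i a1 a2
  have i1 : Integrable (fun s => |p i s - φ (x i s)|) (P i) := int_bd (C := C + ‖φ‖) fun s => by
    rw [abs_abs]; exact (abs_sub _ _).trans (add_le_add (hC i s) (φ.norm_coe_le_norm _))
  have i2 : Integrable (fun s => |q i s - ψ (x i s)|) (P i) := int_bd (C := C' + ‖ψ‖) fun s => by
    rw [abs_abs]; exact (abs_sub _ _).trans (add_le_add (hC' i s) (ψ.norm_coe_le_norm _))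
  calc ∫ s, |p i s + q i s - (φ + ψ) (x i s)| ∂(P i) ≤ ∫ s, (|p i s - φ (x i s)| + |q i s - ψ (x i s)|) ∂(P i) := by
        refine integral_mono (int_bd (C := C + C' + ‖φ + ψ‖) fun s => ?_) (i1.add i2) fun s => ?_
        · rw [abs_abs]
          refine (abs_sub _ _).trans (add_le_add ((abs_add_le _ _).trans (add_le_add (hC i s) (hC' i s))) ((φ + ψ).norm_coe_le_norm _))
        · show |p i s + q i s - (φ + ψ) (x i s)| ≤ |p i s - φ (x i s)| + |q i s - ψ (x i s)|
          rw [BoundedContinuousFunction.add_apply, show p i s + q i s - (φ (x i s) + ψ (x i s)) =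
            (p i s - φ (x i s)) + (q i s - ψ (x i s)) by ring]
          exact abs_add_le _ _
    _ = _ := integral_add i1 i2
    _ ≤ ε := by linarith

theorem L1A.mul {p q : ι → Ω → ℝ} (hp : L1A U P x p) (hq : L1A U P x q) : L1A U P x fun i s => p i s * q i s := by
  obtain ⟨C, hC0, hC⟩ := bd_nn hp.bd
  obtain ⟨C', hC0', hC'⟩ := bd_nn hq.bd
  refine ⟨⟨C * C', fun i s => by rw [abs_mul]; exact mul_le_mul (hC i s) (hC' i s) (abs_nonneg _) hC0⟩, fun ε hε => ?_⟩
  obtain ⟨ψ, hψ⟩ := hq.ap (ε / (2 * (C + 1))) (by positivity)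
  obtain ⟨φ, hφ⟩ := hp.ap (ε / (2 * (‖ψ‖ + 1))) (by positivity)
  refine ⟨φ * ψ, ?_⟩
  filter_upwards [hφ, hψ] with i a1 a2
  have i1 : Integrable (fun s => |p i s - φ (x i s)|) (P i) := int_bd (C := C + ‖φ‖) fun s => by
    rw [abs_abs]; exact (abs_sub _ _).trans (add_le_add (hC i s) (φ.norm_coe_le_norm _))
  have i2 : Integrable (fun s => |q i s - ψ (x i s)|) (P i) := int_bd (C := C' + ‖ψ‖) fun s => by
    rw [abs_abs]; exact (abs_sub _ _).trans (add_le_add (hC' i s) (ψ.norm_coe_le_norm _))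
  have hn : 0 ≤ ‖ψ‖ := norm_nonneg _
  calc ∫ s, |p i s * q i s - (φ * ψ) (x i s)| ∂(P i) ≤
        ∫ s, (‖ψ‖ * |p i s - φ (x i s)| + C * |q i s - ψ (x i s)|) ∂(P i) := by
        refine integral_mono (int_bd (C := C * C' + ‖φ * ψ‖) fun s => ?_) ((i1.const_mul _).add (i2.const_mul _)) fun s => ?_
        · rw [abs_abs]
          refine (abs_sub _ _).trans (add_le_add ?_ ((φ * ψ).norm_coe_le_norm _))
          rw [abs_mul]
          exact mul_le_mul (hC i s) (hC' i s) (abs_nonneg _) hC0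
        · show |p i s * q i s - (φ * ψ) (x i s)| ≤ ‖ψ‖ * |p i s - φ (x i s)| + C * |q i s - ψ (x i s)|
          rw [BoundedContinuousFunction.mul_apply, show p i s * q i s - φ (x i s) * ψ (x i s) =
            ψ (x i s) * (p i s - φ (x i s)) + p i s * (q i s - ψ (x i s)) by ring]
          refine (abs_add_le _ _).trans ?_
          rw [abs_mul, abs_mul]
          exact add_le_add (mul_le_mul_of_nonneg_right (ψ.norm_coe_le_norm _) (abs_nonneg _))
            (mul_le_mul_of_nonneg_right (hC i s) (abs_nonneg _))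
    _ = ‖ψ‖ * ∫ s, |p i s - φ (x i s)| ∂(P i) + C * ∫ s, |q i s - ψ (x i s)| ∂(P i) := by
        rw [integral_add (i1.const_mul _) (i2.const_mul _), integral_const_mul, integral_const_mul]
    _ ≤ ‖ψ‖ * (ε / (2 * (‖ψ‖ + 1))) + C * (ε / (2 * (C + 1))) :=
        add_le_add (mul_le_mul_of_nonneg_left a1 hn) (mul_le_mul_of_nonneg_left a2 hC0)
    _ ≤ ε / 2 + ε / 2 := by
        refine add_le_add ?_ ?_
        · have : ‖ψ‖ * (ε / (2 * (‖ψ‖ + 1))) = ε / 2 * (‖ψ‖ / (‖ψ‖ + 1)) := by field_simp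
          rw [this]
          refine mul_le_of_le_one_right (by positivity) ?_
          rw [div_le_one (by positivity)]
          linarith
        · have : C * (ε / (2 * (C + 1))) = ε / 2 * (C / (C + 1)) := by field_simp
          rw [this]
          refine mul_le_of_le_one_right (by positivity) ?_
          rw [div_le_one (by positivity)]
          linarith
    _ = ε := by ring

theorem L1A.smul {p : ι → Ω → ℝ} (c : ℝ) (hp : L1A U P x p) : L1A U P x fun i s => c * p i s :=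
  (L1A.const c).mul hp

theorem L1A.sub {p q : ι → Ω → ℝ} (hp : L1A U P x p) (hq : L1A U P x q) : L1A U P x fun i s => p i s - q i s := by
  have h := hp.add (hq.smul (-1))
  refine (show (fun i s => p i s - q i s) = fun i s => p i s + -1 * q i s from ?_) ▸ h
  funext i s
  ring

theorem L1A.sum {κ : Type*} (T : Finset κ) {p : κ → ι → Ω → ℝ} (hp : ∀ k ∈ T, L1A U P x (p k)) :
    L1A U P x fun i s => ∑ k ∈ T, p k i s := by
  classical
  induction T using Finset.induction_on with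
  | empty =>
    simp only [Finset.sum_empty]
    exact L1A.const 0
  | insert a T ha ih =>
    simp only [Finset.sum_insert ha]
    exact (hp a (Finset.mem_insert_self _ _)).add (ih fun k hk => hp k (Finset.mem_insert_of_mem hk))

end basic

section lim

variable {ι Ω X : Type*} [MeasurableSpace Ω] [DiscreteMeasurableSpace Ω] [PseudoMetricSpace X] [MeasurableSpace X] [BorelSpace X]
  {U : Filter ι} [U.NeBot] {P : ι → Measure Ω} [∀ i, IsFiniteMeasure (P i)] {x : ι → Ω → X} {μ : Measure X} [IsFiniteMeasure μ]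

omit [BorelSpace X] [IsFiniteMeasure μ] [DiscreteMeasurableSpace Ω] [∀ i, IsFiniteMeasure (P i)] in
/-- two continuous functionals which are close in the mean are close in the limit -/
lemma wk_abs (hμ : Wk U P x μ) {φ ψ : X →ᵇ ℝ} {e : ℝ} (h : ∀ᶠ i in U, ∫ s, |φ (x i s) - ψ (x i s)| ∂(P i) ≤ e) :
    ∫ γ, |φ γ - ψ γ| ∂μ ≤ e := by
  have h1 := hμ (BoundedContinuousFunction.mkOfBound ⟨fun γ => |φ γ - ψ γ|, by fun_prop⟩ ((‖φ‖ + ‖ψ‖) + (‖φ‖ + ‖ψ‖)) (by
    intro a b
    have h : ∀ y : X, |(|φ y - ψ y|)| ≤ ‖φ‖ + ‖ψ‖ := fun y => by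
      rw [abs_abs]
      exact (abs_sub _ _).trans (add_le_add (φ.norm_coe_le_norm _) (ψ.norm_coe_le_norm _))
    rw [Real.dist_eq]
    exact (abs_sub _ _).trans (add_le_add (h _) (h _))))
  exact le_of_tendsto h1 h

lemma bc_int (φ : X →ᵇ ℝ) : Integrable (fun γ => φ γ) μ :=
  Integrable.of_bound φ.continuous.measurable.aestronglyMeasurable ‖φ‖ (Eventually.of_forall fun γ => φ.norm_coe_le_norm γ)

omit [PseudoMetricSpace X] [BorelSpace X] in
lemma ms_int {Φ : X → ℝ} (hΦ : Measurable Φ) {C : ℝ} (hC : ∀ γ, |Φ γ| ≤ C) : Integrable Φ μ :=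
  Integrable.of_bound hΦ.aestronglyMeasurable C (Eventually.of_forall hC)

/-- **the limit functional exists** -/
theorem L1A.lim {p : ι → Ω → ℝ} (hp : L1A U P x p) (hμ : Wk U P x μ) : ∃ Φ : X → ℝ, LimF U P x p μ Φ := by
  obtain ⟨C, hC0, hC⟩ := bd_nn hp.bd
  have hpow : ∀ k : ℕ, (0 : ℝ) < (1 / 4) ^ k := fun k => by positivity
  choose φ hφ using fun k : ℕ => hp.ap ((1 / 4) ^ k) (hpow k)
  obtain ⟨Z, hZ⟩ : ∃ Z : ℕ → X →ᵇ ℝ, Z = fun k => clp C (φ k) := ⟨_, rfl⟩
  have hZC : ∀ k γ, |Z k γ| ≤ C := fun k γ => by rw [hZ]; exact clp_bd hC0 _ _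
  have hZa : ∀ k, ∀ᶠ i in U, ∫ s, |p i s - Z k (x i s)| ∂(P i) ≤ (1 / 4) ^ k := by
    intro k
    filter_upwards [hφ k] with i hi
    refine (integral_mono (int_bd (C := C + C) fun s => ?_) (int_bd (C := C + ‖φ k‖) fun s => ?_) fun s => ?_).trans hi
    · rw [abs_abs]; exact (abs_sub _ _).trans (add_le_add (hC i s) (hZC k _))
    · rw [abs_abs]; exact (abs_sub _ _).trans (add_le_add (hC i s) ((φ k).norm_coe_le_norm _))
    · rw [hZ]
      exact clp_ap (hC i s) _ _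
  have hZZ : ∀ j k, ∫ γ, |Z j γ - Z k γ| ∂μ ≤ (1 / 4) ^ j + (1 / 4) ^ k := by
    intro j k
    refine wk_abs hμ ?_
    filter_upwards [hZa j, hZa k] with i a1 a2
    have i1 : ∀ k, Integrable (fun s => |p i s - Z k (x i s)|) (P i) := fun k => int_bd (C := C + C) fun s => by
      rw [abs_abs]; exact (abs_sub _ _).trans (add_le_add (hC i s) (hZC k _))
    have h1 : ∫ s, |Z j (x i s) - Z k (x i s)| ∂(P i) ≤ ∫ s, (|p i s - Z j (x i s)| + |p i s - Z k (x i s)|) ∂(P i) := by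
      refine integral_mono (int_bd (C := C + C) fun s => ?_) ((i1 j).add (i1 k)) fun s => ?_
      · rw [abs_abs]; exact (abs_sub _ _).trans (add_le_add (hZC j _) (hZC k _))
      · show |Z j (x i s) - Z k (x i s)| ≤ |p i s - Z j (x i s)| + |p i s - Z k (x i s)|
        rw [abs_sub_comm (p i s) (Z j (x i s))]
        exact abs_sub_le _ _ _
    rw [integral_add (i1 j) (i1 k)] at h1
    linarith
  -- fast Cauchy in measure
  have hcau : ∀ k, μ {γ | (1 / 2 : ℝ) ^ k + (1 / 2) ^ (k + 1) < dist (Z k γ) (Z (k + 1) γ)} ≤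
      ENNReal.ofReal ((1 / 2) ^ k + (1 / 2) ^ (k + 1)) := by
    intro k
    obtain ⟨a, ha⟩ : ∃ a : ℝ, a = (1 / 2 : ℝ) ^ k + (1 / 2) ^ (k + 1) := ⟨_, rfl⟩
    have ha0 : 0 < a := by rw [ha]; positivity
    rw [← ha]
    have hi : Integrable (fun γ => |Z k γ - Z (k + 1) γ|) μ :=
      ms_int (by fun_prop) (C := C + C) fun γ => by
        rw [abs_abs]; exact (abs_sub _ _).trans (add_le_add (hZC k _) (hZC _ _))
    have h1 := mul_meas_ge_le_integral_of_nonneg (μ := μ) (f := fun γ => |Z k γ - Z (k + 1) γ|)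
      (Eventually.of_forall fun _ => abs_nonneg _) hi a
    have h2 : μ.real {γ | a < dist (Z k γ) (Z (k + 1) γ)} ≤ μ.real {γ | a ≤ |Z k γ - Z (k + 1) γ|} :=
      measureReal_mono fun γ hγ => by
        have : a < dist (Z k γ) (Z (k + 1) γ) := hγ
        rw [Real.dist_eq] at this
        exact this.le
    have h3 : a * μ.real {γ | a < dist (Z k γ) (Z (k + 1) γ)} ≤ a * a := by
      refine (mul_le_mul_of_nonneg_left h2 ha0.le).trans (h1.trans ((hZZ k (k + 1)).trans ?_))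
      have e1 : ((1 / 4 : ℝ)) ^ k = (1 / 2) ^ k * (1 / 2) ^ k := by
        rw [← mul_pow]; norm_num
      have e2 : ((1 / 4 : ℝ)) ^ (k + 1) = (1 / 2) ^ (k + 1) * (1 / 2) ^ (k + 1) := by
        rw [← mul_pow]; norm_num
      rw [ha, e1, e2]
      have b1 : (0 : ℝ) < (1 / 2) ^ k := by positivity
      have b2 : (0 : ℝ) < (1 / 2) ^ (k + 1) := by positivity
      nlinarith
    have h4 : μ.real {γ | a < dist (Z k γ) (Z (k + 1) γ)} ≤ a := le_of_mul_le_mul_left h3 ha0
    exact (ENNReal.le_ofReal_iff_toReal_le (measure_ne_top _ _) ha0.le).2 h4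
  obtain ⟨ζ, hζm, hζ⟩ := cau_lim (Y := ℝ) (Z := fun k γ => Z k γ) (fun k => (Z k).continuous.measurable) hcau
  obtain ⟨Φ, hΦ⟩ : ∃ Φ : X → ℝ, Φ = fun γ => max (-C) (min C (ζ γ)) := ⟨_, rfl⟩
  have hΦm : Measurable Φ := by rw [hΦ]; fun_prop
  have hΦC : ∀ γ, |Φ γ| ≤ C := by
    intro γ
    rw [hΦ, abs_le]
    exact ⟨le_max_left _ _, max_le (by linarith) (min_le_left _ _)⟩
  have hΦl : ∀ᵐ γ ∂μ, Tendsto (fun k => Z k γ) atTop (𝓝 (Φ γ)) := by
    filter_upwards [hζ] with γ hγ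
    have h1 : ζ γ ∈ Icc (-C) C := isClosed_Icc.mem_of_tendsto hγ (Eventually.of_forall fun k => abs_le.1 (hZC k γ))
    have h2 : Φ γ = ζ γ := by
      rw [hΦ]
      show max (-C) (min C (ζ γ)) = ζ γ
      rw [min_eq_right h1.2, max_eq_right h1.1]
    rw [h2]
    exact hγ
  have hL1 : Tendsto (fun k => ∫ γ, |Φ γ - Z k γ| ∂μ) atTop (𝓝 0) := by
    have h0 : (0 : ℝ) = ∫ _γ : X, (0 : ℝ) ∂μ := by simp
    rw [h0]
    refine tendsto_integral_of_dominated_convergence (fun _ => C + C) (fun k => ?_) (integrable_const _) (fun k => ?_) ?_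
    · exact (hΦm.sub (Z k).continuous.measurable).abs.aestronglyMeasurable
    · refine Eventually.of_forall fun γ => ?_
      rw [Real.norm_eq_abs, abs_abs]
      exact (abs_sub _ _).trans (add_le_add (hΦC _) (hZC _ _))
    · filter_upwards [hΦl] with γ hγ
      have := (hγ.const_sub (Φ γ)).abs
      simpa using this
  refine ⟨Φ, hΦm, ⟨C, hC, hΦC⟩, fun ε hε => ?_⟩
  have h5 : Tendsto (fun k : ℕ => (1 / 4 : ℝ) ^ k) atTop (𝓝 0) := tendsto_pow_atTop_nhds_zero_of_lt_one (by norm_num) (by norm_num)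
  obtain ⟨k, hk1, hk2⟩ := ((h5.eventually (ge_mem_nhds hε)).and (hL1.eventually (ge_mem_nhds hε))).exists
  refine ⟨Z k, ?_, hk2⟩
  filter_upwards [hZa k] with i hi
  exact hi.trans hk1


omit [BorelSpace X] [IsFiniteMeasure μ] [DiscreteMeasurableSpace Ω] [∀ i, IsFiniteMeasure (P i)] [U.NeBot] in
lemma LimF.l1a {p : ι → Ω → ℝ} {Φ : X → ℝ} (h : LimF U P x p μ Φ) : L1A U P x p :=
  ⟨⟨h.bd.choose, h.bd.choose_spec.1⟩, fun ε hε => by
    obtain ⟨φ, h1, -⟩ := h.ap ε hε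
    exact ⟨φ, h1⟩⟩

/-- **the limit functional is unique almost everywhere** -/
theorem LimF.unique {p : ι → Ω → ℝ} {Φ Φ' : X → ℝ} (hμ : Wk U P x μ) (h : LimF U P x p μ Φ) (h' : LimF U P x p μ Φ') :
    Φ =ᵐ[μ] Φ' := by
  obtain ⟨C, hC, hC1⟩ := h.bd
  obtain ⟨C', -, hC1'⟩ := h'.bd
  have key : ∀ ε : ℝ, 0 < ε → ∫ γ, |Φ γ - Φ' γ| ∂μ ≤ ε := by
    intro ε hε
    obtain ⟨φ, a1, a2⟩ := h.ap (ε / 4) (by positivity)
    obtain ⟨ψ, b1, b2⟩ := h'.ap (ε / 4) (by positivity)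
    have h1 : ∫ γ, |φ γ - ψ γ| ∂μ ≤ ε / 2 := by
      refine wk_abs hμ ?_
      filter_upwards [a1, b1] with i c1 c2
      have i1 : ∀ φ : X →ᵇ ℝ, Integrable (fun s => |p i s - φ (x i s)|) (P i) := fun φ => int_bd (C := C + ‖φ‖) fun s => by
        rw [abs_abs]; exact (abs_sub _ _).trans (add_le_add (hC i s) (φ.norm_coe_le_norm _))
      have h1 : ∫ s, |φ (x i s) - ψ (x i s)| ∂(P i) ≤ ∫ s, (|p i s - φ (x i s)| + |p i s - ψ (x i s)|) ∂(P i) := by
        refine integral_mono (int_bd (C := ‖φ‖ + ‖ψ‖) fun s => ?_) ((i1 φ).add (i1 ψ)) fun s => ?_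
        · rw [abs_abs]; exact (abs_sub _ _).trans (add_le_add (φ.norm_coe_le_norm _) (ψ.norm_coe_le_norm _))
        · show |φ (x i s) - ψ (x i s)| ≤ |p i s - φ (x i s)| + |p i s - ψ (x i s)|
          rw [abs_sub_comm (p i s) (φ (x i s))]
          exact abs_sub_le _ _ _
      rw [integral_add (i1 φ) (i1 ψ)] at h1
      linarith
    have j1 : ∀ (Ψ : X → ℝ) (hΨ : Measurable Ψ) (C : ℝ) (hC : ∀ γ, |Ψ γ| ≤ C) (φ : X →ᵇ ℝ), Integrable (fun γ => |Ψ γ - φ γ|) μ :=
      fun Ψ hΨ C hC φ => ms_int (hΨ.sub φ.continuous.measurable).abs (C := C + ‖φ‖) fun γ => by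
        rw [abs_abs]; exact (abs_sub _ _).trans (add_le_add (hC γ) (φ.norm_coe_le_norm _))
    have j2 : Integrable (fun γ => |φ γ - ψ γ|) μ := j1 φ φ.continuous.measurable ‖φ‖ (fun γ => φ.norm_coe_le_norm γ) ψ
    have h2 : ∫ γ, |Φ γ - Φ' γ| ∂μ ≤ ∫ γ, (|Φ γ - φ γ| + |φ γ - ψ γ| + |Φ' γ - ψ γ|) ∂μ := by
      refine integral_mono (ms_int (h.ms.sub h'.ms).abs (C := C + C') fun γ => ?_)
        (((j1 Φ h.ms C hC1 φ).add j2).add (j1 Φ' h'.ms C' hC1' ψ)) fun γ => ?_
      · rw [abs_abs]; exact (abs_sub _ _).trans (add_le_add (hC1 γ) (hC1' γ))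
      · show |Φ γ - Φ' γ| ≤ |Φ γ - φ γ| + |φ γ - ψ γ| + |Φ' γ - ψ γ|
        rw [abs_sub_comm (Φ' γ) (ψ γ)]
        exact (abs_sub_le _ (ψ γ) _).trans (add_le_add (abs_sub_le _ _ _) le_rfl)
    have e1 : ∫ γ, (|Φ γ - φ γ| + |φ γ - ψ γ| + |Φ' γ - ψ γ|) ∂μ =
        ∫ γ, |Φ γ - φ γ| ∂μ + ∫ γ, |φ γ - ψ γ| ∂μ + ∫ γ, |Φ' γ - ψ γ| ∂μ := by
      have k1 : Integrable (fun γ => |Φ γ - φ γ| + |φ γ - ψ γ|) μ := (j1 Φ h.ms C hC1 φ).add j2
      rw [integral_add k1 (j1 Φ' h'.ms C' hC1' ψ), integral_add (j1 Φ h.ms C hC1 φ) j2]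
    rw [e1] at h2
    linarith
  have h0 : ∫ γ, |Φ γ - Φ' γ| ∂μ = 0 :=
    le_antisymm (le_of_forall_pos_le_add fun ε hε => by rw [zero_add]; exact key ε hε) (integral_nonneg fun _ => abs_nonneg _)
  have h3 := (integral_eq_zero_iff_of_nonneg (μ := μ) (f := fun γ => |Φ γ - Φ' γ|) (fun _ => abs_nonneg _)
    (ms_int (h.ms.sub h'.ms).abs (C := C + C') fun γ => by
      rw [abs_abs]; exact (abs_sub _ _).trans (add_le_add (hC1 γ) (hC1' γ)))).1 h0
  filter_upwards [h3] with γ hγ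
  have : |Φ γ - Φ' γ| = 0 := hγ
  exact sub_eq_zero.1 (abs_eq_zero.1 this)

omit [U.NeBot] in
/-- **convergence** -/
theorem LimF.tendsto {p : ι → Ω → ℝ} {Φ : X → ℝ} (hμ : Wk U P x μ) (h : LimF U P x p μ Φ) (G : X →ᵇ ℝ) :
    Tendsto (fun i => ∫ s, p i s * G (x i s) ∂(P i)) U (𝓝 (∫ γ, Φ γ * G γ ∂μ)) := by
  obtain ⟨C, hC, hC1⟩ := h.bd
  rw [Metric.tendsto_nhds]
  intro ε hε
  obtain ⟨e, he⟩ : ∃ e, e = ε / (4 * (‖G‖ + 1)) := ⟨_, rfl⟩
  have hG : 0 ≤ ‖G‖ := norm_nonneg _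
  have he0 : 0 < e := by rw [he]; positivity
  have hGe : ‖G‖ * e ≤ ε / 4 := by
    rw [he]
    have : ‖G‖ * (ε / (4 * (‖G‖ + 1))) = ε / 4 * (‖G‖ / (‖G‖ + 1)) := by field_simp
    rw [this]
    refine mul_le_of_le_one_right (by positivity) ?_
    rw [div_le_one (by positivity)]
    linarith
  obtain ⟨φ, a1, a2⟩ := h.ap e he0
  have h1 := (Metric.tendsto_nhds.1 (hμ (φ * G))) (ε / 4) (by positivity)
  filter_upwards [a1, h1] with i b1 b2
  have i1 : Integrable (fun s => |p i s - φ (x i s)|) (P i) := int_bd (C := C + ‖φ‖) fun s => by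
    rw [abs_abs]; exact (abs_sub _ _).trans (add_le_add (hC i s) (φ.norm_coe_le_norm _))
  have i2 : Integrable (fun s => p i s * G (x i s)) (P i) := int_bd (C := |C| * ‖G‖) fun s => by
    rw [abs_mul]; exact mul_le_mul ((hC i s).trans (le_abs_self _)) (G.norm_coe_le_norm _) (abs_nonneg _) (abs_nonneg _)
  have i3 : Integrable (fun s => (φ * G) (x i s)) (P i) := int_bd (C := ‖φ * G‖) fun s => (φ * G).norm_coe_le_norm _
  have c1 : |∫ s, p i s * G (x i s) ∂(P i) - ∫ s, (φ * G) (x i s) ∂(P i)| ≤ ε / 4 := by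
    rw [← integral_sub i2 i3]
    refine (abs_integral_le_integral_abs).trans ?_
    refine (integral_mono (i2.sub i3).abs (i1.const_mul ‖G‖) fun s => ?_).trans ?_
    · show |p i s * G (x i s) - (φ * G) (x i s)| ≤ ‖G‖ * |p i s - φ (x i s)|
      rw [BoundedContinuousFunction.mul_apply, ← sub_mul, abs_mul, mul_comm]
      exact mul_le_mul_of_nonneg_right (G.norm_coe_le_norm _) (abs_nonneg _)
    · rw [integral_const_mul]
      exact (mul_le_mul_of_nonneg_left b1 hG).trans hGe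
  have j1 : Integrable (fun γ => |Φ γ - φ γ|) μ := ms_int (h.ms.sub φ.continuous.measurable).abs (C := C + ‖φ‖) fun γ => by
    rw [abs_abs]; exact (abs_sub _ _).trans (add_le_add (hC1 γ) (φ.norm_coe_le_norm _))
  have j2 : Integrable (fun γ => Φ γ * G γ) μ := ms_int (h.ms.mul G.continuous.measurable) (C := |C| * ‖G‖) fun γ => by
    rw [abs_mul]; exact mul_le_mul ((hC1 γ).trans (le_abs_self _)) (G.norm_coe_le_norm _) (abs_nonneg _) (abs_nonneg _)
  have c2 : |∫ γ, Φ γ * G γ ∂μ - ∫ γ, (φ * G) γ ∂μ| ≤ ε / 4 := by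
    rw [← integral_sub j2 (bc_int (φ * G))]
    refine (abs_integral_le_integral_abs).trans ?_
    refine (integral_mono (j2.sub (bc_int (φ * G))).abs (j1.const_mul ‖G‖) fun γ => ?_).trans ?_
    · show |Φ γ * G γ - (φ * G) γ| ≤ ‖G‖ * |Φ γ - φ γ|
      rw [BoundedContinuousFunction.mul_apply, ← sub_mul, abs_mul, mul_comm]
      exact mul_le_mul_of_nonneg_right (G.norm_coe_le_norm _) (abs_nonneg _)
    · rw [integral_const_mul]
      exact (mul_le_mul_of_nonneg_left a2 hG).trans hGe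
  rw [Real.dist_eq] at b2 ⊢
  have e1 : ∫ s, p i s * G (x i s) ∂(P i) - ∫ γ, Φ γ * G γ ∂μ = (∫ s, p i s * G (x i s) ∂(P i) - ∫ s, (φ * G) (x i s) ∂(P i)) +
      (∫ s, (φ * G) (x i s) ∂(P i) - ∫ γ, (φ * G) γ ∂μ) - (∫ γ, Φ γ * G γ ∂μ - ∫ γ, (φ * G) γ ∂μ) := by ring
  rw [e1]
  have := abs_sub ((∫ s, p i s * G (x i s) ∂(P i) - ∫ s, (φ * G) (x i s) ∂(P i)) +
      (∫ s, (φ * G) (x i s) ∂(P i) - ∫ γ, (φ * G) γ ∂μ)) (∫ γ, Φ γ * G γ ∂μ - ∫ γ, (φ * G) γ ∂μ)
  have := abs_add_le (∫ s, p i s * G (x i s) ∂(P i) - ∫ s, (φ * G) (x i s) ∂(P i)) (∫ s, (φ * G) (x i s) ∂(P i) - ∫ γ, (φ * G) γ ∂μ)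
  linarith

omit [PseudoMetricSpace X] [BorelSpace X] in
lemma ae_of_sum {f : ℕ → X → ℝ} (hm : ∀ k, Measurable (f k)) (h0 : ∀ k γ, 0 ≤ f k γ) {C : ℝ} (hC : ∀ k γ, |f k γ| ≤ C)
    (h : ∀ k, ∫ γ, f k γ ∂μ ≤ (1 / 4) ^ k) : ∀ᵐ γ ∂μ, Tendsto (fun k => f k γ) atTop (𝓝 0) := by
  have h1 : ∀ k, μ {γ | (1 / 2 : ℝ) ^ k < f k γ} ≤ ENNReal.ofReal ((1 / 2) ^ k) := by
    intro k
    have ha0 : (0 : ℝ) < (1 / 2) ^ k := by positivity
    have h1 := mul_meas_ge_le_integral_of_nonneg (μ := μ) (f := f k) (Eventually.of_forall (h0 k)) (ms_int (hm k) (hC k)) ((1 / 2) ^ k)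
    have h2 : μ.real {γ | (1 / 2 : ℝ) ^ k < f k γ} ≤ μ.real {γ | (1 / 2 : ℝ) ^ k ≤ f k γ} :=
      measureReal_mono fun γ hγ => (show (1 / 2 : ℝ) ^ k < f k γ from hγ).le
    have e1 : ((1 / 4 : ℝ)) ^ k = (1 / 2) ^ k * (1 / 2) ^ k := by
      rw [← mul_pow]; norm_num
    have h3 : (1 / 2 : ℝ) ^ k * μ.real {γ | (1 / 2 : ℝ) ^ k < f k γ} ≤ (1 / 2 : ℝ) ^ k * (1 / 2) ^ k := by
      rw [← e1]
      exact (mul_le_mul_of_nonneg_left h2 ha0.le).trans (h1.trans (h k))
    exact (ENNReal.le_ofReal_iff_toReal_le (measure_ne_top _ _) ha0.le).2 (le_of_mul_le_mul_left h3 ha0)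
  have h2 : ∑' k, μ {γ | (1 / 2 : ℝ) ^ k < f k γ} ≠ ∞ := by
    refine ne_top_of_le_ne_top ?_ (ENNReal.tsum_le_tsum h1)
    rw [← ENNReal.ofReal_tsum_of_nonneg (fun k => by positivity) summable_geometric_two]
    exact ENNReal.ofReal_ne_top
  filter_upwards [ae_eventually_notMem h2] with γ hγ
  refine squeeze_zero' (Eventually.of_forall fun k => h0 k γ) ?_
    (tendsto_pow_atTop_nhds_zero_of_lt_one (by norm_num : (0 : ℝ) ≤ 1 / 2) (by norm_num))
  filter_upwards [hγ] with k hk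
  exact not_lt.1 hk

omit [U.NeBot] in
/-- **the limit of `F (x, p)` is `F (γ, Φ γ)`** -/
theorem LimF.comp {p : ι → Ω → ℝ} {Φ : X → ℝ} (h : LimF U P x p μ Φ) (hM : Mb U P) (hT : Tg U P x) {F : X × ℝ → ℝ}
    (hF : Continuous F) (hFm : Measurable F) {B : ℝ} (hB : ∀ z, |F z| ≤ B) :
    LimF U P x (fun i s => F (x i s, p i s)) μ fun γ => F (γ, Φ γ) := by
  obtain ⟨C', hC', hC1'⟩ := h.bd
  obtain ⟨C, hC0, hCC⟩ : ∃ C : ℝ, 0 ≤ C ∧ C' ≤ C := ⟨|C'|, abs_nonneg _, le_abs_self _⟩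
  have hC : ∀ i s, |p i s| ≤ C := fun i s => (hC' i s).trans hCC
  have hC1 : ∀ γ, |Φ γ| ≤ C := fun γ => (hC1' γ).trans hCC
  refine ⟨hFm.comp (measurable_id.prodMk h.ms), ⟨B, fun i s => hB _, fun γ => hB _⟩, fun ε hε => ?_⟩
  have hpow : ∀ k : ℕ, (0 : ℝ) < (1 / 4) ^ k := fun k => by positivity
  choose φ hφ hφ' using fun k : ℕ => h.ap ((1 / 4) ^ k) (hpow k)
  have hZC : ∀ k γ, |clp C (φ k) γ| ≤ C := fun k γ => clp_bd hC0 _ _
  have hZμ : ∀ k, ∫ γ, |Φ γ - clp C (φ k) γ| ∂μ ≤ (1 / 4) ^ k := by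
    intro k
    refine (integral_mono (ms_int (h.ms.sub (clp C (φ k)).continuous.measurable).abs (C := C + C) fun γ => ?_)
      (ms_int (h.ms.sub (φ k).continuous.measurable).abs (C := C + ‖φ k‖) fun γ => ?_) fun γ => ?_).trans (hφ' k)
    · rw [abs_abs]; exact (abs_sub _ _).trans (add_le_add (hC1 γ) (hZC k _))
    · rw [abs_abs]; exact (abs_sub _ _).trans (add_le_add (hC1 γ) ((φ k).norm_coe_le_norm _))
    · exact clp_ap (hC1 γ) _ _
  have hae := ae_of_sum (μ := μ) (f := fun k γ => |Φ γ - clp C (φ k) γ|)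
    (fun k => (h.ms.sub (clp C (φ k)).continuous.measurable).abs) (fun k γ => abs_nonneg _) (C := C + C) (fun k γ => by
      rw [abs_abs]; exact (abs_sub _ _).trans (add_le_add (hC1 γ) (hZC k _))) hZμ
  have hL1 : Tendsto (fun k => ∫ γ, |F (γ, Φ γ) - F (γ, clp C (φ k) γ)| ∂μ) atTop (𝓝 0) := by
    have h0 : (0 : ℝ) = ∫ _γ : X, (0 : ℝ) ∂μ := by simp
    rw [h0]
    refine tendsto_integral_of_dominated_convergence (fun _ => B + B) (fun k => ?_) (integrable_const _) (fun k => ?_) ?_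
    · exact ((hFm.comp (measurable_id.prodMk h.ms)).sub
        (hFm.comp (measurable_id.prodMk (clp C (φ k)).continuous.measurable))).abs.aestronglyMeasurable
    · refine Eventually.of_forall fun γ => ?_
      rw [Real.norm_eq_abs, abs_abs]
      exact (abs_sub _ _).trans (add_le_add (hB _) (hB _))
    · filter_upwards [hae] with γ hγ
      have h1 : Tendsto (fun k => clp C (φ k) γ) atTop (𝓝 (Φ γ)) := by
        rw [tendsto_iff_dist_tendsto_zero]
        refine hγ.congr fun k => ?_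
        rw [Real.dist_eq, abs_sub_comm]
      have h2 : Tendsto (fun k => F (γ, clp C (φ k) γ)) atTop (𝓝 (F (γ, Φ γ))) :=
        (hF.tendsto (γ, Φ γ)).comp (tendsto_const_nhds.prodMk_nhds h1)
      have := (h2.const_sub (F (γ, Φ γ))).abs
      simpa using this
  obtain ⟨e3, he3, hest⟩ := comp_est hC0 hC hM hT hF hB hε
  have h5 : Tendsto (fun k : ℕ => (1 / 4 : ℝ) ^ k) atTop (𝓝 0) := tendsto_pow_atTop_nhds_zero_of_lt_one (by norm_num) (by norm_num)
  obtain ⟨k, hk1, hk2⟩ := ((h5.eventually (ge_mem_nhds he3)).and (hL1.eventually (ge_mem_nhds hε))).exists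
  have hcont : Continuous fun γ : X => F (γ, clp C (φ k) γ) := hF.comp (continuous_id.prodMk (clp C (φ k)).continuous)
  exact ⟨BoundedContinuousFunction.mkOfBound ⟨_, hcont⟩ (B + B) fun a b => by
    rw [Real.dist_eq]; exact (abs_sub _ _).trans (add_le_add (hB _) (hB _)),
    hest (φ k) ((hφ k).mono fun i hi => hi.trans hk1), hk2⟩


omit [U.NeBot] [DiscreteMeasurableSpace Ω] [∀ i, IsFiniteMeasure (P i)] [IsFiniteMeasure μ] in
lemma LimF.cont (F : X →ᵇ ℝ) : LimF U P x (fun i s => F (x i s)) μ F :=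
  ⟨F.continuous.measurable, ⟨‖F‖, fun i s => F.norm_coe_le_norm _, fun γ => F.norm_coe_le_norm _⟩,
    fun ε hε => ⟨F, Eventually.of_forall fun i => by simp [hε.le], by simp [hε.le]⟩⟩

omit [U.NeBot] in
theorem LimF.add {p q : ι → Ω → ℝ} {Φ Ψ : X → ℝ} (hp : LimF U P x p μ Φ) (hq : LimF U P x q μ Ψ) :
    LimF U P x (fun i s => p i s + q i s) μ fun γ => Φ γ + Ψ γ := by
  obtain ⟨C, hC, hC1⟩ := hp.bd
  obtain ⟨C', hC', hC1'⟩ := hq.bd
  refine ⟨hp.ms.add hq.ms, ⟨C + C', fun i s => (abs_add_le _ _).trans (add_le_add (hC i s) (hC' i s)),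
    fun γ => (abs_add_le _ _).trans (add_le_add (hC1 γ) (hC1' γ))⟩, fun ε hε => ?_⟩
  obtain ⟨φ, hφ, hφ'⟩ := hp.ap (ε / 2) (by positivity)
  obtain ⟨ψ, hψ, hψ'⟩ := hq.ap (ε / 2) (by positivity)
  refine ⟨φ + ψ, ?_, ?_⟩
  · filter_upwards [hφ, hψ] with i a1 a2
    have i1 : Integrable (fun s => |p i s - φ (x i s)|) (P i) := int_bd (C := C + ‖φ‖) fun s => by
      rw [abs_abs]; exact (abs_sub _ _).trans (add_le_add (hC i s) (φ.norm_coe_le_norm _))
    have i2 : Integrable (fun s => |q i s - ψ (x i s)|) (P i) := int_bd (C := C' + ‖ψ‖) fun s => by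
      rw [abs_abs]; exact (abs_sub _ _).trans (add_le_add (hC' i s) (ψ.norm_coe_le_norm _))
    calc ∫ s, |p i s + q i s - (φ + ψ) (x i s)| ∂(P i) ≤ ∫ s, (|p i s - φ (x i s)| + |q i s - ψ (x i s)|) ∂(P i) := by
          refine integral_mono (int_bd (C := C + C' + ‖φ + ψ‖) fun s => ?_) (i1.add i2) fun s => ?_
          · rw [abs_abs]
            refine (abs_sub _ _).trans (add_le_add ((abs_add_le _ _).trans (add_le_add (hC i s) (hC' i s))) ((φ + ψ).norm_coe_le_norm _))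
          · show |p i s + q i s - (φ + ψ) (x i s)| ≤ |p i s - φ (x i s)| + |q i s - ψ (x i s)|
            rw [BoundedContinuousFunction.add_apply, show p i s + q i s - (φ (x i s) + ψ (x i s)) =
              (p i s - φ (x i s)) + (q i s - ψ (x i s)) by ring]
            exact abs_add_le _ _
      _ = _ := integral_add i1 i2
      _ ≤ ε := by linarith
  · have i1 : Integrable (fun γ => |Φ γ - φ γ|) μ := ms_int (hp.ms.sub φ.continuous.measurable).abs (C := C + ‖φ‖) fun γ => by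
      rw [abs_abs]; exact (abs_sub _ _).trans (add_le_add (hC1 γ) (φ.norm_coe_le_norm _))
    have i2 : Integrable (fun γ => |Ψ γ - ψ γ|) μ := ms_int (hq.ms.sub ψ.continuous.measurable).abs (C := C' + ‖ψ‖) fun γ => by
      rw [abs_abs]; exact (abs_sub _ _).trans (add_le_add (hC1' γ) (ψ.norm_coe_le_norm _))
    calc ∫ γ, |Φ γ + Ψ γ - (φ + ψ) γ| ∂μ ≤ ∫ γ, (|Φ γ - φ γ| + |Ψ γ - ψ γ|) ∂μ := by
          refine integral_mono (ms_int ((hp.ms.add hq.ms).sub (φ + ψ).continuous.measurable).abs (C := C + C' + ‖φ + ψ‖)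
            fun γ => ?_) (i1.add i2) fun γ => ?_
          · rw [abs_abs]
            refine (abs_sub _ _).trans (add_le_add ((abs_add_le _ _).trans (add_le_add (hC1 γ) (hC1' γ))) ((φ + ψ).norm_coe_le_norm _))
          · show |Φ γ + Ψ γ - (φ + ψ) γ| ≤ |Φ γ - φ γ| + |Ψ γ - ψ γ|
            rw [BoundedContinuousFunction.add_apply, show Φ γ + Ψ γ - (φ γ + ψ γ) = (Φ γ - φ γ) + (Ψ γ - ψ γ) by ring]
            exact abs_add_le _ _
      _ = _ := integral_add i1 i2
      _ ≤ ε := by linarith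

omit [U.NeBot] in
theorem LimF.mul {p q : ι → Ω → ℝ} {Φ Ψ : X → ℝ} (hp : LimF U P x p μ Φ) (hq : LimF U P x q μ Ψ) :
    LimF U P x (fun i s => p i s * q i s) μ fun γ => Φ γ * Ψ γ := by
  obtain ⟨C0, hC', hC1'⟩ := hp.bd
  obtain ⟨C, hCn, hCC⟩ : ∃ C : ℝ, 0 ≤ C ∧ C0 ≤ C := ⟨|C0|, abs_nonneg _, le_abs_self _⟩
  have hC : ∀ i s, |p i s| ≤ C := fun i s => (hC' i s).trans hCC
  have hC1 : ∀ γ, |Φ γ| ≤ C := fun γ => (hC1' γ).trans hCC
  obtain ⟨D0, hD', hD1'⟩ := hq.bd
  obtain ⟨D, hDn, hDD⟩ : ∃ C : ℝ, 0 ≤ C ∧ D0 ≤ C := ⟨|D0|, abs_nonneg _, le_abs_self _⟩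
  have hD : ∀ i s, |q i s| ≤ D := fun i s => (hD' i s).trans hDD
  have hD1 : ∀ γ, |Ψ γ| ≤ D := fun γ => (hD1' γ).trans hDD
  refine ⟨hp.ms.mul hq.ms, ⟨C * D, fun i s => by rw [abs_mul]; exact mul_le_mul (hC i s) (hD i s) (abs_nonneg _) hCn,
    fun γ => by rw [abs_mul]; exact mul_le_mul (hC1 γ) (hD1 γ) (abs_nonneg _) hCn⟩, fun ε hε => ?_⟩
  obtain ⟨ψ, hψ, hψ'⟩ := hq.ap (ε / (2 * (C + 1))) (by positivity)
  obtain ⟨φ, hφ, hφ'⟩ := hp.ap (ε / (2 * (‖ψ‖ + 1))) (by positivity)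
  have hn : 0 ≤ ‖ψ‖ := norm_nonneg _
  have fin : ‖ψ‖ * (ε / (2 * (‖ψ‖ + 1))) + C * (ε / (2 * (C + 1))) ≤ ε := by
    have e1 : ‖ψ‖ * (ε / (2 * (‖ψ‖ + 1))) ≤ ε / 2 := by
      have : ‖ψ‖ * (ε / (2 * (‖ψ‖ + 1))) = ε / 2 * (‖ψ‖ / (‖ψ‖ + 1)) := by field_simp
      rw [this]
      refine mul_le_of_le_one_right (by positivity) ?_
      rw [div_le_one (by positivity)]
      linarith
    have e2 : C * (ε / (2 * (C + 1))) ≤ ε / 2 := by
      have : C * (ε / (2 * (C + 1))) = ε / 2 * (C / (C + 1)) := by field_simp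
      rw [this]
      refine mul_le_of_le_one_right (by positivity) ?_
      rw [div_le_one (by positivity)]
      linarith
    linarith
  refine ⟨φ * ψ, ?_, ?_⟩
  · filter_upwards [hφ, hψ] with i a1 a2
    have i1 : Integrable (fun s => |p i s - φ (x i s)|) (P i) := int_bd (C := C + ‖φ‖) fun s => by
      rw [abs_abs]; exact (abs_sub _ _).trans (add_le_add (hC i s) (φ.norm_coe_le_norm _))
    have i2 : Integrable (fun s => |q i s - ψ (x i s)|) (P i) := int_bd (C := D + ‖ψ‖) fun s => by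
      rw [abs_abs]; exact (abs_sub _ _).trans (add_le_add (hD i s) (ψ.norm_coe_le_norm _))
    calc ∫ s, |p i s * q i s - (φ * ψ) (x i s)| ∂(P i) ≤
          ∫ s, (‖ψ‖ * |p i s - φ (x i s)| + C * |q i s - ψ (x i s)|) ∂(P i) := by
          refine integral_mono (int_bd (C := C * D + ‖φ * ψ‖) fun s => ?_) ((i1.const_mul _).add (i2.const_mul _)) fun s => ?_
          · rw [abs_abs]
            refine (abs_sub _ _).trans (add_le_add ?_ ((φ * ψ).norm_coe_le_norm _))
            rw [abs_mul]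
            exact mul_le_mul (hC i s) (hD i s) (abs_nonneg _) hCn
          · show |p i s * q i s - (φ * ψ) (x i s)| ≤ ‖ψ‖ * |p i s - φ (x i s)| + C * |q i s - ψ (x i s)|
            rw [BoundedContinuousFunction.mul_apply, show p i s * q i s - φ (x i s) * ψ (x i s) =
              ψ (x i s) * (p i s - φ (x i s)) + p i s * (q i s - ψ (x i s)) by ring]
            refine (abs_add_le _ _).trans ?_
            rw [abs_mul, abs_mul]
            exact add_le_add (mul_le_mul_of_nonneg_right (ψ.norm_coe_le_norm _) (abs_nonneg _))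
              (mul_le_mul_of_nonneg_right (hC i s) (abs_nonneg _))
      _ = ‖ψ‖ * ∫ s, |p i s - φ (x i s)| ∂(P i) + C * ∫ s, |q i s - ψ (x i s)| ∂(P i) := by
          rw [integral_add (i1.const_mul _) (i2.const_mul _), integral_const_mul, integral_const_mul]
      _ ≤ ‖ψ‖ * (ε / (2 * (‖ψ‖ + 1))) + C * (ε / (2 * (C + 1))) :=
          add_le_add (mul_le_mul_of_nonneg_left a1 hn) (mul_le_mul_of_nonneg_left a2 hCn)
      _ ≤ ε := fin
  · have i1 : Integrable (fun γ => |Φ γ - φ γ|) μ := ms_int (hp.ms.sub φ.continuous.measurable).abs (C := C + ‖φ‖) fun γ => by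
      rw [abs_abs]; exact (abs_sub _ _).trans (add_le_add (hC1 γ) (φ.norm_coe_le_norm _))
    have i2 : Integrable (fun γ => |Ψ γ - ψ γ|) μ := ms_int (hq.ms.sub ψ.continuous.measurable).abs (C := D + ‖ψ‖) fun γ => by
      rw [abs_abs]; exact (abs_sub _ _).trans (add_le_add (hD1 γ) (ψ.norm_coe_le_norm _))
    calc ∫ γ, |Φ γ * Ψ γ - (φ * ψ) γ| ∂μ ≤ ∫ γ, (‖ψ‖ * |Φ γ - φ γ| + C * |Ψ γ - ψ γ|) ∂μ := by
          refine integral_mono (ms_int ((hp.ms.mul hq.ms).sub (φ * ψ).continuous.measurable).abs (C := C * D + ‖φ * ψ‖)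
            fun γ => ?_) ((i1.const_mul _).add (i2.const_mul _)) fun γ => ?_
          · rw [abs_abs]
            refine (abs_sub _ _).trans (add_le_add ?_ ((φ * ψ).norm_coe_le_norm _))
            rw [abs_mul]
            exact mul_le_mul (hC1 γ) (hD1 γ) (abs_nonneg _) hCn
          · show |Φ γ * Ψ γ - (φ * ψ) γ| ≤ ‖ψ‖ * |Φ γ - φ γ| + C * |Ψ γ - ψ γ|
            rw [BoundedContinuousFunction.mul_apply, show Φ γ * Ψ γ - φ γ * ψ γ = ψ γ * (Φ γ - φ γ) + Φ γ * (Ψ γ - ψ γ) by ring]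
            refine (abs_add_le _ _).trans ?_
            rw [abs_mul, abs_mul]
            exact add_le_add (mul_le_mul_of_nonneg_right (ψ.norm_coe_le_norm _) (abs_nonneg _))
              (mul_le_mul_of_nonneg_right (hC1 γ) (abs_nonneg _))
      _ = ‖ψ‖ * ∫ γ, |Φ γ - φ γ| ∂μ + C * ∫ γ, |Ψ γ - ψ γ| ∂μ := by
          rw [integral_add (i1.const_mul _) (i2.const_mul _), integral_const_mul, integral_const_mul]
      _ ≤ ‖ψ‖ * (ε / (2 * (‖ψ‖ + 1))) + C * (ε / (2 * (C + 1))) :=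
          add_le_add (mul_le_mul_of_nonneg_left hφ' hn) (mul_le_mul_of_nonneg_left hψ' hCn)
      _ ≤ ε := fin

end lim

/-! ### generic parameters -/

section gen

variable {ι Ω X : Type*} [MeasurableSpace Ω] [DiscreteMeasurableSpace Ω] [PseudoMetricSpace X] {U : Ultrafilter ι}
  {P : ι → Measure Ω} [∀ i, IsFiniteMeasure (P i)] {x : ι → Ω → X}

/-- **a monotone family does not jump at all but countably many parameters** -/
theorem gen_mono (hM : Mb (U : Filter ι) P) {I : ℝ → ι → Ω → ℝ} (hI : ∀ i s, Monotone fun u => I u i s) {C : ℝ}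
    (hC : ∀ u i s, |I u i s| ≤ C) : ∃ E : Set ℝ, E.Countable ∧ ∀ u : ℝ, u ∉ E → ∀ ε : ℝ, 0 < ε → ∃ μ : ℝ, 0 < μ ∧
      ∀ᶠ i in (U : Filter ι), ∫ s, (I (u + μ) i s - I (u - μ) i s) ∂(P i) ≤ ε := by
  obtain ⟨m, hm⟩ := hM
  have hint : ∀ u i, Integrable (fun s => I u i s) (P i) := fun u i => int_bd (C := C) fun s => hC u i s
  have hb : ∀ u : ℝ, ∀ᶠ i in (U : Filter ι), ∫ s, I u i s ∂(P i) ∈ Icc (-(|C| * |m|)) (|C| * |m|) := by
    intro u
    filter_upwards [hm] with i hi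
    rw [mem_Icc, ← abs_le]
    refine (norm_integral_le_of_norm_le_const (μ := P i) (C := |C|) (f := fun s => I u i s)
      (Eventually.of_forall fun s => (hC u i s).trans (le_abs_self _))).trans ?_
    exact mul_le_mul_of_nonneg_left (hi.trans (le_abs_self _)) (abs_nonneg _)
  have hex : ∀ u : ℝ, ∃ F : ℝ, Tendsto (fun i => ∫ s, I u i s ∂(P i)) (U : Filter ι) (𝓝 F) := by
    intro u
    obtain ⟨F, -, hF⟩ := isCompact_Icc.ultrafilter_le_nhds (U.map fun i => ∫ s, I u i s ∂(P i)) (by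
      rw [le_principal_iff]
      exact hb u)
    exact ⟨F, hF⟩
  choose F hF using hex
  have hmono : Monotone F := fun u v huv => le_of_tendsto_of_tendsto (hF u) (hF v)
    (Eventually.of_forall fun i => integral_mono (hint u i) (hint v i) fun s => hI i s huv)
  refine ⟨{u | ¬ ContinuousAt F u}, hmono.countable_not_continuousAt, fun u hu ε hε => ?_⟩
  have hcu : ContinuousAt F u := by
    by_contra h
    exact hu h
  obtain ⟨δ, hδ, h1⟩ := Metric.continuousAt_iff.1 hcu (ε / 4) (by positivity)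
  refine ⟨δ / 2, by positivity, ?_⟩
  have a1 := h1 (x := u + δ / 2) (by rw [Real.dist_eq, show u + δ / 2 - u = δ / 2 by ring, abs_of_pos (by positivity)]; linarith)
  have a2 := h1 (x := u - δ / 2) (by rw [Real.dist_eq, show u - δ / 2 - u = -(δ / 2) by ring, abs_neg, abs_of_pos (by positivity)]; linarith)
  rw [Real.dist_eq] at a1 a2
  have b1 := (Metric.tendsto_nhds.1 (hF (u + δ / 2))) (ε / 4) (by positivity)
  have b2 := (Metric.tendsto_nhds.1 (hF (u - δ / 2))) (ε / 4) (by positivity)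
  filter_upwards [b1, b2] with i c1 c2
  rw [Real.dist_eq] at c1 c2
  rw [integral_sub (hint _ i) (hint _ i)]
  have := abs_lt.1 a1
  have := abs_lt.1 a2
  have := abs_lt.1 c1
  have := abs_lt.1 c2
  linarith

/-- **generic parameters of a monotone family which is dominated by `I` and squeezed between macroscopic functionals** -/
theorem gen_of (hM : Mb (U : Filter ι) P) {I : ℝ → ι → Ω → ℝ} (hI : ∀ i s, Monotone fun u => I u i s) {C : ℝ}
    (hC : ∀ u i s, |I u i s| ≤ C) : ∃ E : Set ℝ, E.Countable ∧ ∀ u : ℝ, u ∉ E → ∀ J : ℝ → ι → Ω → ℝ,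
      (∀ u i s, |J u i s| ≤ C) → (∀ u v : ℝ, u ≤ v → ∀ i s, J v i s - J u i s ≤ I v i s - I u i s) →
      (∀ᶠ v in 𝓝[>] u, ∀ ε : ℝ, 0 < ε → ∃ q : ι → Ω → ℝ, L1A (U : Filter ι) P x q ∧
        ∀ᶠ i in (U : Filter ι), ∫ s, (max 0 (J u i s - q i s) + max 0 (q i s - J v i s)) ∂(P i) ≤ ε) →
      L1A (U : Filter ι) P x (J u) := by
  obtain ⟨E, hE, h⟩ := gen_mono hM hI hC
  refine ⟨E, hE, fun u hu J hJC hJI hq => L1A.of_close ⟨C, hJC u⟩ fun ε hε => ?_⟩
  obtain ⟨μ, hμ, h1⟩ := h u hu (ε / 2) (by positivity)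
  have h2 : ∀ᶠ v in 𝓝[>] u, v ∈ Ioo u (u + μ) := Ioo_mem_nhdsGT (by linarith)
  obtain ⟨v, hv1, hv2⟩ := (hq.and h2).exists
  obtain ⟨q, hqL, hq'⟩ := hv1 (ε / 2) (by positivity)
  refine ⟨q, hqL, ?_⟩
  obtain ⟨C', hC'⟩ := hqL.bd
  filter_upwards [h1, hq'] with i a1 a2
  have hint : ∀ u i, Integrable (fun s => I u i s) (P i) := fun u i => int_bd (C := C) fun s => hC u i s
  have k2 : Integrable (fun s => max 0 (J u i s - q i s) + max 0 (q i s - J v i s)) (P i) := by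
    refine Integrable.add (int_bd (C := C + C') fun s => ?_) (int_bd (C := C' + C) fun s => ?_)
    · rw [abs_of_nonneg (le_max_left _ _)]
      have h3 := (abs_sub (J u i s) (q i s)).trans (add_le_add (hJC u i s) (hC' i s))
      refine max_le ?_ ((le_abs_self _).trans h3)
      exact (abs_nonneg _).trans h3
    · rw [abs_of_nonneg (le_max_left _ _)]
      have h3 := (abs_sub (q i s) (J v i s)).trans (add_le_add (hC' i s) (hJC v i s))
      refine max_le ?_ ((le_abs_self _).trans h3)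
      exact (abs_nonneg _).trans h3
  have k1 : Integrable (fun s => I (u + μ) i s - I (u - μ) i s) (P i) := (hint _ i).sub (hint _ i)
  have k3 : Integrable (fun s => |J u i s - q i s|) (P i) := int_bd (C := C + C') fun s => by
    rw [abs_abs]; exact (abs_sub _ _).trans (add_le_add (hJC u i s) (hC' i s))
  calc ∫ s, |J u i s - q i s| ∂(P i) ≤ ∫ s, ((I (u + μ) i s - I (u - μ) i s) +
        (max 0 (J u i s - q i s) + max 0 (q i s - J v i s))) ∂(P i) := by
        refine integral_mono k3 (k1.add k2) fun s => ?_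
        show |J u i s - q i s| ≤ (I (u + μ) i s - I (u - μ) i s) + (max 0 (J u i s - q i s) + max 0 (q i s - J v i s))
        have c1 := hJI u v hv2.1.le i s
        have c2 : I v i s ≤ I (u + μ) i s := hI i s hv2.2.le
        have c3 : I (u - μ) i s ≤ I u i s := hI i s (by linarith)
        have c4 := le_max_left 0 (J u i s - q i s)
        have c5 := le_max_right 0 (J u i s - q i s)
        have c6 := le_max_left 0 (q i s - J v i s)
        have c7 := le_max_right 0 (q i s - J v i s)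
        have c8 : I (u - μ) i s ≤ I (u + μ) i s := hI i s (by linarith)
        rcases abs_cases (J u i s - q i s) with ⟨e1, -⟩ | ⟨e1, -⟩ <;> rw [e1] <;> linarith
    _ = _ := integral_add k1 k2
    _ ≤ ε := by linarith


/-- Lipschitz functions of a macroscopic functional (no tightness) -/
theorem L1A.lipc {p : ι → Ω → ℝ} (hp : L1A (U : Filter ι) P x p) {g : ℝ → ℝ}
    {L : NNReal} (hg : LipschitzWith L g) {B : ℝ} (hB : ∀ y, |g y| ≤ B) : L1A (U : Filter ι) P x fun i s => g (p i s) := by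
  refine ⟨⟨B, fun i s => hB _⟩, fun ε hε => ?_⟩
  obtain ⟨C, hC⟩ := hp.bd
  obtain ⟨φ, hφ⟩ := hp.ap (ε / (L + 1)) (by positivity)
  refine ⟨BoundedContinuousFunction.mkOfBound ⟨fun γ => g (φ γ), hg.continuous.comp φ.continuous⟩ (B + B) fun a b => by
    rw [Real.dist_eq]; exact (abs_sub _ _).trans (add_le_add (hB _) (hB _)), ?_⟩
  filter_upwards [hφ] with i hi
  have i1 : Integrable (fun s => |p i s - φ (x i s)|) (P i) := int_bd (C := C + ‖φ‖) fun s => by
    rw [abs_abs]; exact (abs_sub _ _).trans (add_le_add (hC i s) (φ.norm_coe_le_norm _))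
  calc ∫ s, |g (p i s) - g (φ (x i s))| ∂(P i) ≤ ∫ s, L * |p i s - φ (x i s)| ∂(P i) := by
        refine integral_mono (int_bd (C := B + B) fun s => ?_) (i1.const_mul _) fun s => ?_
        · rw [abs_abs]; exact (abs_sub _ _).trans (add_le_add (hB _) (hB _))
        · have := hg.dist_le_mul (p i s) (φ (x i s))
          rw [Real.dist_eq, Real.dist_eq] at this
          exact this
    _ = L * ∫ s, |p i s - φ (x i s)| ∂(P i) := integral_const_mul _ _
    _ ≤ L * (ε / (L + 1)) := mul_le_mul_of_nonneg_left hi L.2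
    _ = ε * (L / (L + 1)) := by ring
    _ ≤ ε * 1 := by
        refine mul_le_mul_of_nonneg_left ?_ hε.le
        rw [div_le_one (by positivity)]
        linarith
    _ = ε := mul_one _

open Classical in
/-- **thresholds** : `1[p ≤ u]` is macroscopic for all but countably many `u` -/
theorem gen_thr (hM : Mb (U : Filter ι) P) {p : ι → Ω → ℝ} (hp : L1A (U : Filter ι) P x p) : ∃ E : Set ℝ, E.Countable ∧ ∀ u : ℝ, u ∉ E →
    L1A (U : Filter ι) P x fun i s => if p i s ≤ u then 1 else 0 := by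
  have hmono : ∀ (i : ι) (s : Ω), Monotone fun u : ℝ => if p i s ≤ u then (1 : ℝ) else 0 := by
    intro i s u v huv
    show (if p i s ≤ u then (1 : ℝ) else 0) ≤ if p i s ≤ v then 1 else 0
    split_ifs with h1 h2 h2
    · exact le_rfl
    · exact absurd (h1.trans huv) h2
    · exact zero_le_one
    · exact le_rfl
  have h01 : ∀ (u : ℝ) (i : ι) (s : Ω), |if p i s ≤ u then (1 : ℝ) else 0| ≤ 1 := by
    intro u i s
    split_ifs <;> simp
  obtain ⟨E, hE, h⟩ := gen_of (x := x) hM (I := fun u i s => if p i s ≤ u then 1 else 0) hmono (C := 1) h01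
  refine ⟨E, hE, fun u hu => h u hu (fun u i s => if p i s ≤ u then 1 else 0) h01 (fun u v _ i s => le_rfl) ?_⟩
  filter_upwards [self_mem_nhdsWithin] with v hv ε hε
  have hvu : 0 < v - u := sub_pos.2 hv
  obtain ⟨g, hg⟩ : ∃ g : ℝ → ℝ, g = fun y => max 0 (min 1 ((v - y) / (v - u))) := ⟨_, rfl⟩
  have hgL : LipschitzWith (Real.toNNReal (1 / (v - u))) g := by
    refine LipschitzWith.of_dist_le_mul fun a b => ?_
    rw [Real.coe_toNNReal _ (by positivity), Real.dist_eq, Real.dist_eq, hg]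
    have h1 : |max 0 (min 1 ((v - a) / (v - u))) - max 0 (min 1 ((v - b) / (v - u)))| ≤ |(v - a) / (v - u) - (v - b) / (v - u)| := by
      have h2 := abs_max_sub_max_le_max 0 (min 1 ((v - a) / (v - u))) 0 (min 1 ((v - b) / (v - u)))
      have h3 := abs_min_sub_min_le_max 1 ((v - a) / (v - u)) 1 ((v - b) / (v - u))
      rw [sub_self, abs_zero] at h2 h3
      refine h2.trans (max_le (abs_nonneg _) (h3.trans (max_le (abs_nonneg _) le_rfl)))
    refine h1.trans (le_of_eq ?_)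
    rw [← sub_div, abs_div, abs_of_pos hvu, show v - a - (v - b) = -(a - b) by ring, abs_neg]
    ring
  have hg1 : ∀ y, |g y| ≤ 1 := by
    intro y
    rw [hg, abs_of_nonneg (le_max_left _ _)]
    exact max_le zero_le_one (min_le_left _ _)
  refine ⟨fun i s => g (p i s), hp.lipc hgL hg1, Eventually.of_forall fun i => ?_⟩
  have h0 : ∀ s, max 0 ((if p i s ≤ u then (1 : ℝ) else 0) - g (p i s)) + max 0 (g (p i s) - if p i s ≤ v then (1 : ℝ) else 0) = 0 := by
    intro s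
    have e1 : (if p i s ≤ u then (1 : ℝ) else 0) - g (p i s) ≤ 0 := by
      split_ifs with h1
      · rw [hg]
        show 1 - max 0 (min 1 ((v - p i s) / (v - u))) ≤ 0
        have h2 : 1 ≤ (v - p i s) / (v - u) := by
          rw [le_div_iff₀ hvu]
          linarith
        rw [min_eq_left h2, max_eq_right zero_le_one]
        simp
      · rw [hg]
        show 0 - max 0 (min 1 ((v - p i s) / (v - u))) ≤ 0
        have := le_max_left 0 (min 1 ((v - p i s) / (v - u)))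
        linarith
    have e2 : g (p i s) - (if p i s ≤ v then (1 : ℝ) else 0) ≤ 0 := by
      split_ifs with h1
      · have := (abs_le.1 (hg1 (p i s))).2
        linarith
      · rw [hg]
        show max 0 (min 1 ((v - p i s) / (v - u))) - 0 ≤ 0
        push Not at h1
        have h2 : (v - p i s) / (v - u) ≤ 0 := div_nonpos_of_nonpos_of_nonneg (by linarith) hvu.le
        have h3 : min 1 ((v - p i s) / (v - u)) ≤ 0 := (min_le_right _ _).trans h2
        rw [max_eq_left h3]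
        simp
    rw [max_eq_left e1, max_eq_left e2, add_zero]
  simp only [h0, integral_zero]
  exact hε.le

end gen

end Pool.Agent.ROT.F3
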