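import Pool.Agent.ROT.F3MacS2
import Pool.Agent.ROT.F3Gen

/-!
# ROT, F3: start gates with FIXED parameters are macroscopic, for all but countably many parameters (helper59)

* `NoJ` : the first cut of size `a` does not jump (time, visited squares) when `a` moves by `μ`;
* `tp_self` : no jump: a gate at `(a, r, ρ)` gives a gate at `(a', r + μ3, ρ - μ3)`, at almost the same time;
* `WSys` : systems of words with a modulus of continuity; `EqH` : value functions which are equicontinuous in the time;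
* `noj_small` : jumps have small mass; **`gen_gate`** : if the grid means are macroscopic, so are the gates with fixed parameters.
-/

set_option autoImplicit false

open MeasureTheory Filter Topology Set BoundedContinuousFunction
open scoped ENNReal

namespace Pool.Agent.ROT.F3

open Pool.Agent.NTS.Res
open Pool.Agent.SCF.Z Pool.Agent.SCF.M

/-! ### one word -/

section det

/-- no jump of the first cut near the parameter `a` -/
def NoJ (D : ℝ → ℕ → Prop) (R S a μ η w Q : ℝ) {n : ℕ} (s : Fin n → Fin 3) : Prop :=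
  ft n (PS D R S (a + μ) s) - ft n (PS D R S (a - μ) s) ≤ η ∧
    qf (Q + 1) (fun c => ((VS (140 * R * S) (w * S) s c).card : ℝ)) (PS D R S (a + μ) s) -
      qf (Q + 1) (fun c => ((VS (140 * R * S) (w * S) s c).card : ℝ)) (PS D R S (a - μ) s) < 1

/-- modulus of continuity of a word, time in units of the number of steps -/
def MdS (η B : ℝ) {n : ℕ} (s : Fin n → Fin 3) : Prop :=
  1 ≤ n ∧ ∀ i j : ℕ, i ≤ n → j ≤ n → |(i : ℝ) / n - (j : ℝ) / n| ≤ η → ‖pos s i - pos s j‖ ≤ B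

variable {D : ℝ → ℕ → Prop} {n : ℕ} {s : Fin n → Fin 3} {R S : ℝ}

lemma tp_mono {a r ρ r' ρ' : ℝ} {k : ℕ} (h : TP D a r ρ s k) (hr : r ≤ r') (hρ : ρ' ≤ ρ) : TP D a r' ρ' s k :=
  ⟨⟨h.1.1, h.1.2.1, fun i j hi hj => (h.1.2.2.1 i j hi hj).trans hr, h.1.2.2.2⟩, h.2.1, h.2.2.1, fun j h1 h2 h3 =>
    h.2.2.2 j h1 h2 (h3.trans hρ)⟩

/-- **the gate moves little with the parameters when there is no jump** -/
theorem tp_self (hD : Sz1 s D) {ν μ μ3 η w Q a0 a a' r ρ : ℝ} {k : ℕ} (hS0 : 0 < S) (hR : 0 < R)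
    (hm : MdS η (ν * S) s) (hν : 0 ≤ ν) (hμ3 : 2 * w + ν ≤ μ3) (hμ3' : 2 * ν ≤ μ3) (hμ3R : μ3 ≤ R) (hw : 0 < w)
    (hη : η < 1) (ha : R / 4 ≤ a) (ha' : R / 4 ≤ a') (h1 : |a - a0| ≤ μ) (h2 : |a' - a0| ≤ μ) (hr : r ≤ 2 * R)
    (hρ : 64 * R ≤ ρ) (hρ2 : ρ ≤ 128 * R) (ht : TP D (a * S) (r * S) (ρ * S) s k)
    (hQ : ∀ c : ℕ, ((VS (140 * R * S) (w * S) s c).card : ℝ) ≤ Q) (hJ : NoJ D R S a0 μ η w Q s) :
    ∃ k' : ℕ, TP D (a' * S) ((r + μ3) * S) ((ρ - μ3) * S) s k' ∧ |(k : ℝ) / n - (k' : ℝ) / n| ≤ η := by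
  obtain ⟨hn, hm⟩ := hm
  obtain ⟨g1, g2⟩ := hJ
  have hn0 : (0 : ℝ) < n := by exact_mod_cast hn
  have hRS : 0 < R * S := mul_pos hR hS0
  have hkn : k < n := ht.2.1
  have hconf := tp_conf hS0.le hR.le hr ht
  have hk1 : (k : ℝ) / n ≤ 1 := by
    rw [div_le_one hn0]
    exact_mod_cast hkn.le
  have q1 := abs_le.1 h1
  have q2 := abs_le.1 h2
  have hanti : ∀ {x y : ℝ} {c : ℕ}, PS D R S y s c → x ≤ y → PS D R S x s c := fun hc hxy =>
    ⟨hc.1, hD.anti hc.2 (mul_le_mul_of_nonneg_right hxy hS0.le)⟩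
  have hfm : ∀ {x y : ℝ}, x ≤ y → ft n (PS D R S x s) ≤ ft n (PS D R S y s) := fun hxy =>
    ft_mono hn (fun c hc => hanti hc hxy) fun c hc => hc.1.le
  -- the gate is the first cut
  have e1 : PS D R S a s k := by
    refine ⟨⟨(tp_sc ht).mono ?_, fun i hi => (hconf i hi).trans ?_, dmg_mono (hD.dm ht.1.2.2.2.1) ?_ le_rfl⟩, ht.1.2.2.2.1⟩
    · rw [← mul_assoc]
      exact mul_le_mul_of_nonneg_right (by linarith) hS0.le
    · rw [← mul_assoc]
      exact mul_le_mul_of_nonneg_right (by linarith) hS0.le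
    · have e : R * S / 8 = R / 8 * S := by ring
      rw [e]
      exact mul_le_mul_of_nonneg_right (by linarith) hS0.le
  have e2 : ∀ c, c < k → ¬ PS D R S a s c := fun c hc hP =>
    ht.1.2.2.2.2 c (hP.1.scut hRS e1.1 hc) hP.2
  have e3 : ft n (PS D R S a s) = (k : ℝ) / n := by
    refine le_antisymm (ft_of e1) (le_ft (fun c hc => ?_) (by linarith))
    have : k ≤ c := by
      by_contra hcc
      exact e2 c (not_le.1 hcc) hc
    exact div_le_div_of_nonneg_right (by exact_mod_cast this) hn0.le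
  have u1 : ft n (PS D R S (a0 - μ) s) ≤ (k : ℝ) / n := by
    rw [← e3]
    exact hfm (by linarith)
  have u2 : (k : ℝ) / n ≤ ft n (PS D R S (a0 + μ) s) := by
    rw [← e3]
    exact hfm (by linarith)
  have u3 : ft n (PS D R S a' s) ≤ ft n (PS D R S (a0 + μ) s) := hfm (by linarith)
  have u4 : ft n (PS D R S (a0 - μ) s) ≤ ft n (PS D R S a' s) := hfm (by linarith)
  obtain ⟨k', p1, p2, p3⟩ := ft_ex (show ft n (PS D R S a' s) < 2 by linarith)
  rw [p3] at u3 u4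
  have za : |(k : ℝ) / n - (k' : ℝ) / n| ≤ η := by
    rw [abs_le]
    constructor <;> linarith
  have zb := hm k k' hkn.le p1.1.le za
  -- the squares
  have om : ∀ {c c' : ℕ}, IA (R * S) s c → IA (R * S) s c' → c ≤ c' →
      VS (140 * R * S) (w * S) s c ⊆ VS (140 * R * S) (w * S) s c' := by
    intro c c' i1 i2 i3
    refine vs_mono ?_
    rcases eq_or_lt_of_le i3 with i4 | i4
    · exact Or.inl i4
    · exact Or.inr (i1.scut hRS i2 i4)
  have hVS : VS (140 * R * S) (w * S) s k' ⊆ VS (140 * R * S) (w * S) s k := by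
    obtain ⟨c1, d1, d2, -⟩ := ft_ex (show ft n (PS D R S (a0 - μ) s) < 2 by linarith)
    have hex : ∃ c, PS D R S (a0 + μ) s c := by
      by_contra hno
      rw [qf_no hno, qf_of d1 d2] at g2
      have := hQ c1
      linarith
    obtain ⟨c2, f1, f2⟩ : ∃ c, PS D R S (a0 + μ) s c ∧ ∀ c', c' < c → ¬ PS D R S (a0 + μ) s c' := by
      classical
      exact ⟨Nat.find hex, Nat.find_spec hex, fun c' hc' => Nat.find_min hex hc'⟩
    rw [qf_of d1 d2, qf_of f1 f2] at g2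
    have o1 : c1 ≤ c2 := by
      by_contra hc
      exact d2 c2 (not_le.1 hc) (hanti f1 (by linarith))
    have o2 : c1 ≤ k := by
      by_contra hc
      exact d2 k (not_le.1 hc) (hanti e1 (by linarith))
    have o3 : k' ≤ c2 := by
      by_contra hc
      exact p2 c2 (not_le.1 hc) (hanti f1 (by linarith))
    have h3 := om d1.1 f1.1 o1
    have h4 : (VS (140 * R * S) (w * S) s c2).card ≤ (VS (140 * R * S) (w * S) s c1).card := by
      have : ((VS (140 * R * S) (w * S) s c2).card : ℝ) < ((VS (140 * R * S) (w * S) s c1).card : ℝ) + 1 := by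
        linarith
      have h3 : (VS (140 * R * S) (w * S) s c2).card < (VS (140 * R * S) (w * S) s c1).card + 1 := by
        exact_mod_cast this
      omega
    have h5 := Finset.eq_of_subset_of_card_le h3 h4
    refine (om p1.1 f1.1 o3).trans ?_
    rw [← h5]
    exact om d1.1 e1.1 o2
  -- the radius
  have hrad : SC ((ρ - μ3) * S) s k' := by
    refine (tp_sc ht).of_vs (mul_pos hw hS0) p1.1.1 hVS (p1.1.2.1 k' le_rfl) ?_ ?_
    · have h3 : (ρ - μ3 + 3 * R) * S ≤ 140 * R * S := mul_le_mul_of_nonneg_right (by linarith) hS0.le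
      linarith
    · have h3 : (ρ - μ3 + 2 * w + ν) * S ≤ ρ * S := mul_le_mul_of_nonneg_right (by linarith) hS0.le
      rw [norm_sub_rev] at zb
      linarith
  refine ⟨k', tp_of_first hD (R := R * S) ?_ ?_ p1.1 p1.2 p2 hrad ?_, za⟩
  · have h3 : R / 8 * S ≤ a' * S := mul_le_mul_of_nonneg_right (by linarith) hS0.le
    linarith
  · have h3 : 46 * R * S ≤ (ρ - μ3) * S := mul_le_mul_of_nonneg_right (by linarith) hS0.le
    linarith
  · -- the diameter
    have key : ∀ i : ℕ, i ≤ k' → ∃ j : ℕ, j ≤ k ∧ ‖pos s i - pos s j‖ ≤ ν * S := by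
      intro i hi
      rcases le_or_gt i k with h3 | h3
      · exact ⟨i, h3, by rw [sub_self, norm_zero]; positivity⟩
      · refine ⟨k, le_rfl, hm i k (hi.trans p1.1.le) hkn.le ?_⟩
        have h4 : (k : ℝ) / n ≤ (i : ℝ) / n := div_le_div_of_nonneg_right (by exact_mod_cast h3.le) hn0.le
        have h5 : (i : ℝ) / n ≤ (k' : ℝ) / n := div_le_div_of_nonneg_right (by exact_mod_cast hi) hn0.le
        have h6 := abs_le.1 za
        rw [abs_of_nonneg (by linarith)]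
        linarith
    intro i j hi hj
    obtain ⟨i', hi', hi1⟩ := key i hi
    obtain ⟨j', hj', hj1⟩ := key j hj
    have h3 := ht.1.2.2.1 i' j' hi' hj'
    calc ‖pos s i - pos s j‖ = ‖(pos s i - pos s i') + (pos s i' - pos s j') - (pos s j - pos s j')‖ := by congr 1; ring
      _ ≤ ν * S + r * S + ν * S := (norm_sub_le _ _).trans (add_le_add ((norm_add_le _ _).trans (add_le_add hi1 h3)) hj1)
      _ ≤ (r + μ3) * S := by
          have h3 : (r + 2 * ν) * S ≤ (r + μ3) * S := mul_le_mul_of_nonneg_right (by linarith) hS0.le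
          linarith

lemma inP_mono {a r ρ r' ρ' : ℝ} {h : ℕ → ℝ} (hh : ∀ k, 0 ≤ h k) (hr : r ≤ r') (hρ : ρ' ≤ ρ) :
    inP D a r ρ h s ≤ inP D a r' ρ' h s := by
  classical
  unfold inP
  refine Finset.sum_le_sum fun k _ => ?_
  split_ifs with h1 h2 h2
  · exact le_rfl
  · exact absurd (tp_mono h1 hr hρ) h2
  · exact hh k
  · exact le_rfl

/-- the increments are dominated by the ones of `h = 1` -/
lemma inP_dom {a r ρ r' ρ' : ℝ} {h : ℕ → ℝ} (hh : ∀ k, h k ≤ 1) (hr : r ≤ r') (hρ : ρ' ≤ ρ) :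
    inP D a r' ρ' h s - inP D a r ρ h s ≤ inP D a r' ρ' (fun _ => 1) s - inP D a r ρ (fun _ => 1) s := by
  classical
  unfold inP
  rw [← Finset.sum_sub_distrib, ← Finset.sum_sub_distrib]
  refine Finset.sum_le_sum fun k _ => ?_
  by_cases h1 : TP D a r ρ s k
  · rw [if_pos h1, if_pos h1, if_pos (tp_mono h1 hr hρ), if_pos (tp_mono h1 hr hρ)]
    simp
  · rw [if_neg h1, if_neg h1]
    by_cases h2 : TP D a r' ρ' s k
    · rw [if_pos h2, if_pos h2]
      linarith [hh k]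
    · rw [if_neg h2, if_neg h2]

/-- comparison of the values at the gates of two parameters -/
lemma inP_self (hD : Sz1 s D) {ν μ μ3 η w Q a0 a a' r ρ e : ℝ} {h : ℕ → ℝ} (hS0 : 0 < S) (hR : 0 < R)
    (hm : MdS η (ν * S) s) (hν : 0 ≤ ν) (hμ3 : 2 * w + ν ≤ μ3) (hμ3' : 2 * ν ≤ μ3) (hμ3R : μ3 ≤ R) (hw : 0 < w)
    (hη : η < 1) (ha : R / 4 ≤ a) (ha' : R / 4 ≤ a') (h1 : |a - a0| ≤ μ) (h2 : |a' - a0| ≤ μ) (hr : r ≤ 2 * R)
    (hρ : 64 * R ≤ ρ) (hρ2 : ρ ≤ 128 * R)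
    (hQ : ∀ c : ℕ, ((VS (140 * R * S) (w * S) s c).card : ℝ) ≤ Q) (hJ : NoJ D R S a0 μ η w Q s) (hh : ∀ k, 0 ≤ h k) (he : 0 ≤ e)
    (hhe : ∀ k k' : ℕ, k ≤ n → k' ≤ n → |(k : ℝ) / n - (k' : ℝ) / n| ≤ η → h k ≤ h k' + e) :
    inP D (a * S) (r * S) (ρ * S) h s ≤ inP D (a' * S) ((r + μ3) * S) ((ρ - μ3) * S) h s + e := by
  by_cases hex : ∃ k, TP D (a * S) (r * S) (ρ * S) s k
  · obtain ⟨k, hk⟩ := hex
    obtain ⟨k', hk', hkk⟩ := tp_self hD hS0 hR hm hν hμ3 hμ3' hμ3R hw hη ha ha' h1 h2 hr hρ hρ2 hk hQ hJ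
    rw [inP_eq (mul_le_mul_of_nonneg_right (by linarith) hS0.le) hk, inP_eq (mul_le_mul_of_nonneg_right (by linarith) hS0.le) hk']
    exact hhe k k' hk.2.1.le hk'.2.1.le hkk
  · rw [inP_zero fun k hk => hex ⟨k, hk⟩]
    have := inP_nn (D := D) (a := a' * S) (r := (r + μ3) * S) (ρ := (ρ - μ3) * S) (s := s) hh
    linarith

lemma avg_le {M : ℕ} (hM : 1 ≤ M) {F : ℕ → ℕ → ℕ → ℝ} {y : ℝ} (h : ∀ i2 i3 i5, i2 < M → i3 < M → i5 < M → F i2 i3 i5 ≤ y) :
    (∑ i2 ∈ Finset.range M, ∑ i3 ∈ Finset.range M, ∑ i5 ∈ Finset.range M, F i2 i3 i5) / (M : ℝ) ^ 3 ≤ y := by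
  have hM0 : (0 : ℝ) < M := by exact_mod_cast hM
  rw [div_le_iff₀ (by positivity)]
  have h1 : ∑ i2 ∈ Finset.range M, ∑ i3 ∈ Finset.range M, ∑ i5 ∈ Finset.range M, F i2 i3 i5 ≤
      ∑ i2 ∈ Finset.range M, ∑ i3 ∈ Finset.range M, ∑ i5 ∈ Finset.range M, y :=
    Finset.sum_le_sum fun i2 h2 => Finset.sum_le_sum fun i3 h3 => Finset.sum_le_sum fun i5 h5 =>
      h i2 i3 i5 (Finset.mem_range.1 h2) (Finset.mem_range.1 h3) (Finset.mem_range.1 h5)
  refine h1.trans (le_of_eq ?_)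
  simp only [Finset.sum_const, Finset.card_range, nsmul_eq_mul]
  ring

lemma le_avg {M : ℕ} (hM : 1 ≤ M) {F : ℕ → ℕ → ℕ → ℝ} {y : ℝ} (h : ∀ i2 i3 i5, i2 < M → i3 < M → i5 < M → y ≤ F i2 i3 i5) :
    y ≤ (∑ i2 ∈ Finset.range M, ∑ i3 ∈ Finset.range M, ∑ i5 ∈ Finset.range M, F i2 i3 i5) / (M : ℝ) ^ 3 := by
  have hM0 : (0 : ℝ) < M := by exact_mod_cast hM
  rw [le_div_iff₀ (by positivity)]
  have h1 : ∑ i2 ∈ Finset.range M, ∑ i3 ∈ Finset.range M, ∑ i5 ∈ Finset.range M, y ≤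
      ∑ i2 ∈ Finset.range M, ∑ i3 ∈ Finset.range M, ∑ i5 ∈ Finset.range M, F i2 i3 i5 :=
    Finset.sum_le_sum fun i2 h2 => Finset.sum_le_sum fun i3 h3 => Finset.sum_le_sum fun i5 h5 =>
      h i2 i3 i5 (Finset.mem_range.1 h2) (Finset.mem_range.1 h3) (Finset.mem_range.1 h5)
  refine le_trans (le_of_eq ?_) h1
  simp only [Finset.sum_const, Finset.card_range, nsmul_eq_mul]
  ring

end det

/-! ### systems of words -/

section sys

variable {ι Ω X : Type*} [MeasurableSpace Ω] [DiscreteMeasurableSpace Ω] [PseudoMetricSpace X] {U : Ultrafilter ι}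
  {P : ι → Measure Ω} [∀ i, IsFiniteMeasure (P i)] {x : ι → Ω → X} {nn : ι → Ω → ℕ} {wd : ∀ (i : ι) (s : Ω), Fin (nn i s) → Fin 3} {S : ι → ℝ}
  {D : ι → Ω → ℝ → ℕ → Prop}

/-- a system of words with units of length `S i` and a modulus of continuity -/
structure WSys {ι Ω : Type*} [MeasurableSpace Ω] (U : Filter ι) (P : ι → Measure Ω) (nn : ι → Ω → ℕ) (wd : ∀ (i : ι) (s : Ω), Fin (nn i s) → Fin 3)
    (S : ι → ℝ) : Prop where
  pos : ∀ i, 0 < S i
  md : ∀ ω : ℝ, 0 < ω → ∀ ε : ℝ, 0 < ε → ∃ η : ℝ, 0 < η ∧ ∀ᶠ i in U, (P i).real {s | ¬ MdS η (ω * S i) (wd i s)} ≤ ε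

/-- value functions which are equicontinuous in the time -/
def EqH {ι Ω : Type*} [MeasurableSpace Ω] (U : Filter ι) (P : ι → Measure Ω) (nn : ι → Ω → ℕ) (h : ι → Ω → ℕ → ℝ) : Prop :=
  ∀ e : ℝ, 0 < e → ∃ η : ℝ, 0 < η ∧ ∀ᶠ i in U,
    (P i).real {s | ¬ ∀ k k' : ℕ, k ≤ nn i s → k' ≤ nn i s → |(k : ℝ) / nn i s - (k' : ℝ) / nn i s| ≤ η → h i s k ≤ h i s k' + e} ≤ e

/-- the sides of the squares -/
noncomputable def wj (j : ℕ) : ℝ := 1 / ((j : ℝ) + 1)

lemma wj_pos (j : ℕ) : 0 < wj j := by unfold wj; positivity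

/-- the numbers of squares -/
noncomputable def Qj (R : ℝ) (j : ℕ) : ℝ := (((2 * ⌈140 * R / wj j⌉₊ + 1) ^ 2 : ℕ) : ℝ)

lemma qj_bd {R S : ℝ} (hS : 0 < S) (j : ℕ) {n : ℕ} (s : Fin n → Fin 3) (c : ℕ) :
    ((VS (140 * R * S) (wj j * S) s c).card : ℝ) ≤ Qj R j := by
  have hw := wj_pos j
  unfold Qj
  refine Nat.cast_le.2 (vs_card (mul_pos hw hS) (le_of_eq ?_) s c)
  field_simp

lemma markov {Q : Measure Ω} [IsFiniteMeasure Q] {f : Ω → ℝ} (hf : ∀ s, 0 ≤ f s) {C : ℝ} (hC : ∀ s, |f s| ≤ C) {c : ℝ} (hc : 0 < c) :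
    Q.real {s | c ≤ f s} ≤ (∫ s, f s ∂Q) / c := by
  rw [le_div_iff₀ hc, mul_comm]
  exact mul_meas_ge_le_integral_of_nonneg (Eventually.of_forall hf) (int_bd hC) c

/-- **jumps have small mass**, for all but countably many parameters -/
theorem noj_small {R : ℝ} (hR : 0 < R) (hM : Mb (U : Filter ι) P) (hS : ∀ i, 0 < S i) (hD : ∀ i s, Sz1 (wd i s) (D i s)) :
    ∃ E : Set ℝ, E.Countable ∧ ∀ a : ℝ, a ∉ E → ∀ (j : ℕ) (η : ℝ), 0 < η → ∀ ε : ℝ, 0 < ε → ∃ μ0 : ℝ, 0 < μ0 ∧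
      ∀ μ : ℝ, 0 < μ → μ ≤ μ0 → ∀ᶠ i in (U : Filter ι),
        (P i).real {s | 1 ≤ nn i s ∧ ¬ NoJ (D i s) R (S i) a μ η (wj j) (Qj R j) (wd i s)} ≤ ε := by
  classical
  -- the two families
  obtain ⟨F, hF⟩ : ∃ F : ℝ → ι → Ω → ℝ, F = fun a i s => if 1 ≤ nn i s then ft (nn i s) (PS (D i s) R (S i) a (wd i s)) else 0 := ⟨_, rfl⟩
  obtain ⟨G, hG⟩ : ∃ G : ℕ → ℝ → ι → Ω → ℝ, G = fun j a i s =>
      qf (Qj R j + 1) (fun c => ((VS (140 * R * S i) (wj j * S i) (wd i s) c).card : ℝ)) (PS (D i s) R (S i) a (wd i s)) := ⟨_, rfl⟩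
  have hFm : ∀ i s, Monotone fun a => F a i s := by
    intro i s a b hab
    rw [hF]
    show (if 1 ≤ nn i s then ft (nn i s) (PS (D i s) R (S i) a (wd i s)) else 0) ≤ if 1 ≤ nn i s then ft (nn i s) (PS (D i s) R (S i) b (wd i s)) else 0
    split_ifs with h1
    · exact ps_mono (hD i s) (hS i).le h1 hab
    · exact le_rfl
  have hFb : ∀ a i s, |F a i s| ≤ 2 := by
    intro a i s
    rw [hF]
    show |if 1 ≤ nn i s then ft (nn i s) (PS (D i s) R (S i) a (wd i s)) else 0| ≤ 2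
    split_ifs with h1
    · rw [abs_of_nonneg (ft_nn _ _)]
      exact ft_le h1 fun _ hc => hc.1.le
    · simp
  have hGm : ∀ j i s, Monotone fun a => G j a i s := by
    intro j i s
    rw [hG]
    exact qfs_mono (hD i s) (hS i) hR (qj_bd (hS i) j (wd i s))
  have hQ0 : ∀ j, 0 ≤ Qj R j := fun j => by unfold Qj; positivity
  have hGb : ∀ j a i s, |G j a i s| ≤ Qj R j + 1 := by
    intro j a i s
    rw [hG]
    have h1 := qfs_bd (D := D i s) (R := R) (S := S i) (w := wj j) (hQ0 j) (s := wd i s) (qj_bd (hS i) j (wd i s)) a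
    show |qf _ _ _| ≤ _
    rw [abs_of_nonneg h1.1]
    exact h1.2
  obtain ⟨E0, hE0, h0⟩ := gen_mono (P := P) hM hFm hFb
  choose E1 hE1 h1 using fun j => gen_mono (P := P) hM (hGm j) (hGb j)
  refine ⟨E0 ∪ ⋃ j, E1 j, hE0.union (countable_iUnion hE1), fun a ha j η hη ε hε => ?_⟩
  have ha0 : a ∉ E0 := fun h => ha (Or.inl h)
  have ha1 : a ∉ E1 j := fun h => ha (Or.inr (mem_iUnion.2 ⟨j, h⟩))
  obtain ⟨μ1, hμ1, k1⟩ := h0 a ha0 (η * (ε / 2)) (by positivity)
  obtain ⟨μ2, hμ2, k2⟩ := h1 j a ha1 (ε / 2) (by positivity)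
  refine ⟨min μ1 μ2, lt_min hμ1 hμ2, fun μ hμ hμm => ?_⟩
  have m1 : μ ≤ μ1 := hμm.trans (min_le_left _ _)
  have m2 : μ ≤ μ2 := hμm.trans (min_le_right _ _)
  filter_upwards [k1, k2] with i c1 c2
  have b1 : (P i).real {s | η ≤ F (a + μ) i s - F (a - μ) i s} ≤ ε / 2 := by
    refine (markov (fun s => sub_nonneg.2 (hFm i s (by linarith))) (C := 2 + 2) (fun s =>
      (abs_sub _ _).trans (add_le_add (hFb _ i s) (hFb _ i s))) hη).trans ?_
    rw [div_le_iff₀ hη, mul_comm]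
    refine (integral_mono (int_bd (C := 2 + 2) fun s => (abs_sub _ _).trans (add_le_add (hFb _ i s) (hFb _ i s)))
      (int_bd (C := 2 + 2) fun s => (abs_sub _ _).trans (add_le_add (hFb _ i s) (hFb _ i s))) fun s => ?_).trans c1
    exact sub_le_sub (hFm i s (by linarith)) (hFm i s (by linarith))
  have b2 : (P i).real {s | 1 ≤ G j (a + μ) i s - G j (a - μ) i s} ≤ ε / 2 := by
    refine (markov (fun s => sub_nonneg.2 (hGm j i s (by linarith))) (C := (Qj R j + 1) + (Qj R j + 1)) (fun s =>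
      (abs_sub _ _).trans (add_le_add (hGb j _ i s) (hGb j _ i s))) one_pos).trans ?_
    rw [div_one]
    refine (integral_mono (int_bd (C := (Qj R j + 1) + (Qj R j + 1)) fun s => (abs_sub _ _).trans (add_le_add (hGb j _ i s) (hGb j _ i s)))
      (int_bd (C := (Qj R j + 1) + (Qj R j + 1)) fun s => (abs_sub _ _).trans (add_le_add (hGb j _ i s) (hGb j _ i s))) fun s => ?_).trans c2
    exact sub_le_sub (hGm j i s (by linarith)) (hGm j i s (by linarith))
  refine (measureReal_mono (s₂ := {s | η ≤ F (a + μ) i s - F (a - μ) i s} ∪ {s | 1 ≤ G j (a + μ) i s - G j (a - μ) i s})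
    fun s hs => ?_).trans ((measureReal_union_le _ _).trans (by linarith))
  obtain ⟨hn, hJ⟩ := hs
  by_contra hcon
  simp only [mem_union, mem_ofPred_eq, not_or, not_le] at hcon
  obtain ⟨d1, d2⟩ := hcon
  refine hJ ⟨?_, ?_⟩
  · rw [hF] at d1
    simp only [if_pos hn] at d1
    exact d1.le
  · rw [hG] at d2
    exact d2

/-- the diameter on the way from `B.r0` to `B.r1` -/
noncomputable def rT (B : Box) (t : ℝ) : ℝ := B.r0 + t * (B.r1 - B.r0)

/-- the window on the way from `B.p1` to `B.p0` -/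
noncomputable def pT (B : Box) (t : ℝ) : ℝ := B.p1 - t * (B.p1 - B.p0)

/-- **start gates with fixed parameters are macroscopic**, for all but countably many parameters -/
theorem gen_gate {R : ℝ} (hR : 0 < R) (hM : Mb (U : Filter ι) P) (hW : WSys (U : Filter ι) P nn wd S)
    (hD : ∀ i s, Sz1 (wd i s) (D i s)) :
    ∃ E : Set ℝ, E.Countable ∧ ∀ a : ℝ, a ∉ E → ∀ B : Box, B.Ok R → B.a0 < a → ∃ E' : Set ℝ, E'.Countable ∧
      ∀ t : ℝ, t ∉ E' → 0 < t → t < 1 → ∀ h : ι → Ω → ℕ → ℝ, (∀ i s k, 0 ≤ h i s k) → (∀ i s k, h i s k ≤ 1) →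
        EqH (U : Filter ι) P nn h →
        (∀ B' : Box, B'.Ok R → ∀ ε : ℝ, 0 < ε → ∃ M : ℕ, 1 ≤ M ∧ ∃ q : ι → Ω → ℝ, L1A (U : Filter ι) P x q ∧
          ∀ᶠ i in (U : Filter ι), ∫ s, |psP (D i s) M B' (S i) (h i s) (wd i s) - q i s| ∂(P i) ≤ ε) →
        L1A (U : Filter ι) P x fun i s => inP (D i s) (a * S i) (rT B t * S i) (pT B t * S i) (h i s) (wd i s) := by
  classical
  obtain ⟨E, hE, hJ⟩ := noj_small (U := U) (P := P) (nn := nn) (wd := wd) (S := S) (D := D) hR hM hW.pos hD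
  refine ⟨E, hE, fun a ha B hB haB => ?_⟩
  have hBr := sub_pos.2 hB.r
  have hBp := sub_pos.2 hB.p'
  have B1 := hB.a
  have B2 := hB.r'
  have B3 := hB.p
  have B4 := hB.p''
  obtain ⟨T, hT⟩ : ∃ T : ℝ → ℝ, T = fun t => max 0 (min 1 t) := ⟨_, rfl⟩
  have hTm : Monotone T := by
    intro t v htv
    rw [hT]
    exact max_le_max le_rfl (min_le_min le_rfl htv)
  have hT0 : ∀ t, 0 ≤ T t := fun t => by rw [hT]; exact le_max_left _ _
  have hT1 : ∀ t, T t ≤ 1 := fun t => by rw [hT]; exact max_le zero_le_one (min_le_left _ _)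
  have hTt : ∀ t, 0 < t → t < 1 → T t = t := by
    intro t h0 h1
    rw [hT]
    show max 0 (min 1 t) = t
    rw [min_eq_right h1.le, max_eq_right h0.le]
  have hrm : Monotone fun t => rT B (T t) := fun t v htv => by
    show B.r0 + T t * (B.r1 - B.r0) ≤ B.r0 + T v * (B.r1 - B.r0)
    have := mul_le_mul_of_nonneg_right (hTm htv) hBr.le
    linarith
  have hpm : Antitone fun t => pT B (T t) := fun t v htv => by
    show B.p1 - T v * (B.p1 - B.p0) ≤ B.p1 - T t * (B.p1 - B.p0)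
    have := mul_le_mul_of_nonneg_right (hTm htv) hBp.le
    linarith
  have hr2 : ∀ t, rT B (T t) ≤ 2 * R := fun t => by
    have h1 : B.r0 + T t * (B.r1 - B.r0) ≤ B.r1 := by
      have := mul_le_mul_of_nonneg_right (hT1 t) hBr.le
      linarith
    exact h1.trans B2
  have hp1 : ∀ t, B.p0 ≤ pT B (T t) := fun t => by
    show B.p0 ≤ B.p1 - T t * (B.p1 - B.p0)
    have := mul_le_mul_of_nonneg_right (hT1 t) hBp.le
    linarith
  have hp2 : ∀ t, pT B (T t) ≤ B.p1 := fun t => by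
    show B.p1 - T t * (B.p1 - B.p0) ≤ B.p1
    have := mul_nonneg (hT0 t) hBp.le
    linarith
  obtain ⟨J, hJd⟩ : ∃ J : (ι → Ω → ℕ → ℝ) → ℝ → ι → Ω → ℝ, J = fun h t i s =>
      inP (D i s) (a * S i) (rT B (T t) * S i) (pT B (T t) * S i) (h i s) (wd i s) := ⟨_, rfl⟩
  have hJm : ∀ (h : ι → Ω → ℕ → ℝ), (∀ i s k, 0 ≤ h i s k) → ∀ i s, Monotone fun t => J h t i s := by
    intro h hh i s t v htv
    rw [hJd]
    exact inP_mono (hh i s) (mul_le_mul_of_nonneg_right (hrm htv) (hW.pos i).le) (mul_le_mul_of_nonneg_right (hpm htv) (hW.pos i).le)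
  have hJb : ∀ (h : ι → Ω → ℕ → ℝ), (∀ i s k, 0 ≤ h i s k) → (∀ i s k, h i s k ≤ 1) → ∀ t i s, |J h t i s| ≤ 1 := by
    intro h hh hh1 t i s
    rw [hJd]
    show |inP _ _ _ _ _ _| ≤ 1
    rw [abs_of_nonneg (inP_nn (hh i s))]
    refine inP_le ?_ (hh1 i s)
    exact mul_le_mul_of_nonneg_right (by linarith [hr2 t, hp1 t]) (hW.pos i).le
  obtain ⟨E', hE', hgen⟩ := gen_of (x := x) hM (hJm (fun _ _ _ => 1) fun _ _ _ => zero_le_one)
    (hJb (fun _ _ _ => 1) (fun _ _ _ => zero_le_one) fun _ _ _ => le_rfl)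
  refine ⟨E', hE', fun t ht ht0 ht1 h hh0 hh1 hEq hG => ?_⟩
  have key := hgen t ht (J h) (hJb h hh0 hh1) (fun u v huv i s => by
    rw [hJd]
    exact inP_dom (hh1 i s) (mul_le_mul_of_nonneg_right (hrm huv) (hW.pos i).le)
      (mul_le_mul_of_nonneg_right (hpm huv) (hW.pos i).le)) ?_
  · rw [hJd] at key
    simpa only [hTt t ht0 ht1] using key
  -- the squeeze
  filter_upwards [Ioo_mem_nhdsGT ht1] with v hv ε hε
  have hvt : 0 < v - t := sub_pos.2 hv.1
  have hTv : T v = v := hTt v (ht0.trans hv.1) hv.2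
  have hTt' : T t = t := hTt t ht0 ht1
  obtain ⟨d, hd⟩ : ∃ d, d = min R ((v - t) * min (B.r1 - B.r0) (B.p1 - B.p0)) := ⟨_, rfl⟩
  have hd0 : 0 < d := by rw [hd]; exact lt_min hR (mul_pos hvt (lt_min hBr hBp))
  have hdR : d ≤ R := by rw [hd]; exact min_le_left _ _
  have hdr : d ≤ (v - t) * (B.r1 - B.r0) := by
    rw [hd]
    exact (min_le_right _ _).trans (mul_le_mul_of_nonneg_left (min_le_left _ _) hvt.le)
  have hdp : d ≤ (v - t) * (B.p1 - B.p0) := by
    rw [hd]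
    exact (min_le_right _ _).trans (mul_le_mul_of_nonneg_left (min_le_right _ _) hvt.le)
  obtain ⟨μ3, hμ3⟩ : ∃ μ3, μ3 = d / 3 := ⟨_, rfl⟩
  have hμ30 : 0 < μ3 := by rw [hμ3]; positivity
  have hμ3R : μ3 ≤ R := by rw [hμ3]; linarith
  obtain ⟨j, hj⟩ : ∃ j : ℕ, wj j ≤ μ3 / 4 := by
    obtain ⟨j, hj⟩ := exists_nat_one_div_lt (show 0 < μ3 / 4 by positivity)
    exact ⟨j, hj.le⟩
  obtain ⟨e, he⟩ : ∃ e, e = min (ε / 16) (ε / (16 * (|(Classical.choose hM)| + 1))) := ⟨_, rfl⟩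
  have hmass := Classical.choose_spec hM
  obtain ⟨m, hm⟩ : ∃ m, m = |(Classical.choose hM)| + 1 := ⟨_, rfl⟩
  rw [← hm] at he
  have hm0 : 0 < m := by rw [hm]; positivity
  have he0 : 0 < e := by rw [he]; exact lt_min (by positivity) (by positivity)
  have he1 : e ≤ ε / 16 := by rw [he]; exact min_le_left _ _
  have he2 : e * m ≤ ε / 16 := by
    have h1 : e ≤ ε / (16 * m) := by rw [he]; exact min_le_right _ _
    calc e * m ≤ ε / (16 * m) * m := mul_le_mul_of_nonneg_right h1 hm0.le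
      _ = ε / 16 := by field_simp
  obtain ⟨η1, hη1, q1⟩ := hEq e he0
  obtain ⟨η2, hη2, q2⟩ := hW.md (μ3 / 4) (by positivity) e he0
  obtain ⟨η, hη⟩ : ∃ η, η = min (1 / 2) (min η1 η2) := ⟨_, rfl⟩
  have hη0 : 0 < η := by rw [hη]; exact lt_min (by norm_num) (lt_min hη1 hη2)
  have hηa : η ≤ 1 / 2 := by rw [hη]; exact min_le_left _ _
  have hηb : η ≤ η1 := by rw [hη]; exact (min_le_right _ _).trans (min_le_left _ _)
  have hηc : η ≤ η2 := by rw [hη]; exact (min_le_right _ _).trans (min_le_right _ _)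
  obtain ⟨μ0, hμ00, q3⟩ := hJ a ha j η hη0 e he0
  obtain ⟨μ, hμ⟩ : ∃ μ, μ = min μ0 (a - B.a0) := ⟨_, rfl⟩
  have hμ0 : 0 < μ := by rw [hμ]; exact lt_min hμ00 (sub_pos.2 haB)
  have hμ1 : μ ≤ μ0 := by rw [hμ]; exact min_le_left _ _
  have hμ2 : μ ≤ a - B.a0 := by rw [hμ]; exact min_le_right _ _
  have q4 := q3 μ hμ0 hμ1
  -- the box of the grid
  obtain ⟨B', hB'⟩ : ∃ B' : Box, B' = ⟨a - μ, a + μ, rT B t + μ3, rT B v - μ3, pT B v + μ3, pT B t - μ3⟩ := ⟨_, rfl⟩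
  have er : rT B v = rT B t + (v - t) * (B.r1 - B.r0) := by unfold rT; ring
  have ep : pT B v = pT B t - (v - t) * (B.p1 - B.p0) := by unfold pT; ring
  have rv2 : rT B v ≤ 2 * R := by have := hr2 v; rwa [hTv] at this
  have rt2 : rT B t ≤ 2 * R := by have := hr2 t; rwa [hTt'] at this
  have pv0 : B.p0 ≤ pT B v := by have := hp1 v; rwa [hTv] at this
  have pt0 : B.p0 ≤ pT B t := by have := hp1 t; rwa [hTt'] at this
  have pt1 : pT B t ≤ B.p1 := by have := hp2 t; rwa [hTt'] at this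
  have hB'ok : B'.Ok R := by
    rw [hB']
    refine ⟨by show R / 4 ≤ a - μ; linarith, by show a - μ < a + μ; linarith, ?_, ?_, ?_, ?_, ?_⟩
    · show rT B t + μ3 < rT B v - μ3
      rw [er]
      linarith
    · show rT B v - μ3 ≤ 2 * R
      linarith
    · show 64 * R ≤ pT B v + μ3
      linarith
    · show pT B v + μ3 < pT B t - μ3
      rw [ep]
      linarith
    · show pT B t - μ3 ≤ 128 * R
      linarith
  obtain ⟨M, hM1, q, hqL, q5⟩ := hG B' hB'ok e he0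
  refine ⟨q, hqL, ?_⟩
  obtain ⟨C', hC'⟩ := hqL.bd
  filter_upwards [q1, q2, q4, q5, hmass] with i c1 c2 c4 c5 c6
  have hSi := hW.pos i
  obtain ⟨Bad, hBad⟩ : ∃ Bad : Set Ω, Bad = ({s | ¬ ∀ k k' : ℕ, k ≤ nn i s → k' ≤ nn i s → |(k : ℝ) / nn i s - (k' : ℝ) / nn i s| ≤ η1 →
      h i s k ≤ h i s k' + e} ∪ {s | ¬ MdS η2 (μ3 / 4 * S i) (wd i s)}) ∪
        {s | 1 ≤ nn i s ∧ ¬ NoJ (D i s) R (S i) a μ η (wj j) (Qj R j) (wd i s)} := ⟨_, rfl⟩
  have hBadP : (P i).real Bad ≤ 3 * e := by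
    rw [hBad]
    refine (measureReal_union_le _ _).trans ?_
    have := measureReal_union_le (μ := P i) {s | ¬ ∀ k k' : ℕ, k ≤ nn i s → k' ≤ nn i s → |(k : ℝ) / nn i s - (k' : ℝ) / nn i s| ≤ η1 →
      h i s k ≤ h i s k' + e} {s | ¬ MdS η2 (μ3 / 4 * S i) (wd i s)}
    linarith
  have hps1 : ∀ s, |psP (D i s) M B' (S i) (h i s) (wd i s)| ≤ 1 := fun s => by
    rw [abs_of_nonneg (psP_nn (hh0 i s))]
    exact psP_le hB'ok hR.le hSi.le (hh1 i s)
  -- pointwise
  have hpt : ∀ s, s ∉ Bad → J h t i s ≤ psP (D i s) M B' (S i) (h i s) (wd i s) + e ∧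
      psP (D i s) M B' (S i) (h i s) (wd i s) ≤ J h v i s + e := by
    intro s hs
    rw [hBad] at hs
    simp only [mem_union, mem_ofPred_eq, not_or, not_not] at hs
    obtain ⟨⟨s1, s2⟩, s3⟩ := hs
    have hn : 1 ≤ nn i s := s2.1
    have s3' : NoJ (D i s) R (S i) a μ η (wj j) (Qj R j) (wd i s) := by
      by_contra hc
      exact s3 ⟨hn, hc⟩
    have s2' : MdS η (μ3 / 4 * S i) (wd i s) := ⟨hn, fun k k' h1 h2 h3 => s2.2 k k' h1 h2 (h3.trans hηc)⟩
    have s1' : ∀ k k' : ℕ, k ≤ nn i s → k' ≤ nn i s → |(k : ℝ) / nn i s - (k' : ℝ) / nn i s| ≤ η → h i s k ≤ h i s k' + e :=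
      fun k k' h1 h2 h3 => s1 k k' h1 h2 (h3.trans hηb)
    have hcmp : ∀ {a1 a2 r ρ : ℝ}, |a1 - a| ≤ μ → |a2 - a| ≤ μ → r ≤ 2 * R → B.p0 ≤ ρ → ρ ≤ B.p1 →
        inP (D i s) (a1 * S i) (r * S i) (ρ * S i) (h i s) (wd i s) ≤
          inP (D i s) (a2 * S i) ((r + μ3) * S i) ((ρ - μ3) * S i) (h i s) (wd i s) + e := by
      intro a1 a2 r ρ h1 h2 h3 h4 h5
      have k1 := abs_le.1 h1
      have k2 := abs_le.1 h2
      exact inP_self (hD i s) (μ := μ) (η := η) (w := wj j) (Q := Qj R j) (a0 := a) hSi hR s2' (by positivity)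
        (by linarith) (by linarith) hμ3R (wj_pos j) (by linarith) (by linarith) (by linarith) h1 h2 h3
        (by linarith) (by linarith) (qj_bd hSi j (wd i s)) s3' (hh0 i s) he0.le s1'
    have hgp : ∀ i2 i3 i5 : ℕ, i2 < M → i3 < M → i5 < M →
        |gp M B'.a0 B'.a1 i3 - a| ≤ μ ∧ rT B t + μ3 ≤ gp M B'.r0 B'.r1 i2 ∧ gp M B'.r0 B'.r1 i2 ≤ rT B v - μ3 ∧
          pT B v + μ3 ≤ gp M B'.p0 B'.p1 i5 ∧ gp M B'.p0 B'.p1 i5 ≤ pT B t - μ3 := by
      intro i2 i3 i5 h2 h3 h5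
      have g3 := gp_mem h3 hB'ok.a'.le
      have g2 := gp_mem h2 hB'ok.r.le
      have g5 := gp_mem h5 hB'ok.p'.le
      rw [hB'] at g3 g2 g5 ⊢
      refine ⟨?_, g2.1, g2.2, g5.1, g5.2⟩
      rw [abs_le]
      have g3' := g3.1
      have g3'' := g3.2
      simp only at g3' g3'' ⊢
      constructor <;> linarith
    constructor
    · rw [hJd]
      show inP (D i s) (a * S i) (rT B (T t) * S i) (pT B (T t) * S i) (h i s) (wd i s) ≤ _
      rw [hTt', ← sub_le_iff_le_add]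
      unfold psP
      refine le_avg hM1 fun i2 i3 i5 h2 h3 h5 => ?_
      obtain ⟨g3, g2, g2', g5, g5'⟩ := hgp i2 i3 i5 h2 h3 h5
      rw [sub_le_iff_le_add]
      refine (hcmp (a1 := a) (a2 := gp M B'.a0 B'.a1 i3) (r := rT B t) (ρ := pT B t) (by rw [sub_self, abs_zero]; exact hμ0.le)
        g3 rt2 pt0 pt1).trans (add_le_add (inP_mono (hh0 i s) ?_ ?_) le_rfl)
      · exact mul_le_mul_of_nonneg_right g2 hSi.le
      · exact mul_le_mul_of_nonneg_right g5' hSi.le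
    · rw [hJd]
      show _ ≤ inP (D i s) (a * S i) (rT B (T v) * S i) (pT B (T v) * S i) (h i s) (wd i s) + e
      rw [hTv]
      unfold psP
      refine avg_le hM1 fun i2 i3 i5 h2 h3 h5 => ?_
      obtain ⟨g3, g2, g2', g5, g5'⟩ := hgp i2 i3 i5 h2 h3 h5
      refine (hcmp (a1 := gp M B'.a0 B'.a1 i3) (a2 := a) (r := gp M B'.r0 B'.r1 i2) (ρ := gp M B'.p0 B'.p1 i5) g3
        (by rw [sub_self, abs_zero]; exact hμ0.le) (by linarith) (by linarith) (by linarith)).trans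
        (add_le_add (inP_mono (hh0 i s) ?_ ?_) le_rfl)
      · exact mul_le_mul_of_nonneg_right (by linarith) hSi.le
      · exact mul_le_mul_of_nonneg_right (by linarith) hSi.le
  -- the integral
  have hJb' : ∀ u s, |J h u i s| ≤ 1 := fun u s => hJb h hh0 hh1 u i s
  have i1 : Integrable (fun s => |psP (D i s) M B' (S i) (h i s) (wd i s) - q i s|) (P i) := int_bd (C := 1 + C') fun s => by
    rw [abs_abs]; exact (abs_sub _ _).trans (add_le_add (hps1 s) (hC' i s))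
  have i2 : Integrable (Bad.indicator fun _ => (1 : ℝ)) (P i) := (integrable_const (1 : ℝ)).indicator MeasurableSet.of_discrete
  have e0 : ∫ s, Bad.indicator (fun _ => (1 : ℝ)) s ∂(P i) = (P i).real Bad := by
    rw [integral_indicator MeasurableSet.of_discrete, setIntegral_const]
    simp
  have hle : ∀ s, max 0 (J h t i s - q i s) + max 0 (q i s - J h v i s) ≤
      (2 * e + 4 * Bad.indicator (fun _ => (1 : ℝ)) s) + 2 * |psP (D i s) M B' (S i) (h i s) (wd i s) - q i s| := by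
    intro s
    have a1 := le_abs_self (psP (D i s) M B' (S i) (h i s) (wd i s) - q i s)
    have a2 := neg_abs_le (psP (D i s) M B' (S i) (h i s) (wd i s) - q i s)
    have a3 := abs_nonneg (psP (D i s) M B' (S i) (h i s) (wd i s) - q i s)
    by_cases hs : s ∈ Bad
    · rw [indicator_of_mem hs]
      have b1 := abs_le.1 (hJb' t s)
      have b2 := abs_le.1 (hJb' v s)
      have b3 := abs_le.1 (hps1 s)
      have b4 : max 0 (J h t i s - q i s) ≤ 2 + |psP (D i s) M B' (S i) (h i s) (wd i s) - q i s| :=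
        max_le (by linarith) (by linarith)
      have b5 : max 0 (q i s - J h v i s) ≤ 2 + |psP (D i s) M B' (S i) (h i s) (wd i s) - q i s| :=
        max_le (by linarith) (by linarith)
      linarith
    · rw [indicator_of_notMem hs]
      obtain ⟨b1, b2⟩ := hpt s hs
      have b4 : max 0 (J h t i s - q i s) ≤ e + |psP (D i s) M B' (S i) (h i s) (wd i s) - q i s| :=
        max_le (by linarith) (by linarith)
      have b5 : max 0 (q i s - J h v i s) ≤ e + |psP (D i s) M B' (S i) (h i s) (wd i s) - q i s| :=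
        max_le (by linarith) (by linarith)
      linarith
  have hq1 : ∀ u s, |J h u i s - q i s| ≤ 1 + C' := fun u s => (abs_sub _ _).trans (add_le_add (hJb' u s) (hC' i s))
  have i3 : Integrable (fun s => max 0 (J h t i s - q i s) + max 0 (q i s - J h v i s)) (P i) := by
    refine Integrable.add (int_bd (C := 1 + C') fun s => ?_) (int_bd (C := 1 + C') fun s => ?_)
    · rw [abs_of_nonneg (le_max_left _ _)]
      exact max_le ((abs_nonneg _).trans (hq1 t s)) ((le_abs_self _).trans (hq1 t s))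
    · rw [abs_of_nonneg (le_max_left _ _)]
      refine max_le ((abs_nonneg _).trans (hq1 v s)) ?_
      have := hq1 v s
      rw [abs_sub_comm] at this
      exact (le_abs_self _).trans this
  have i4 : Integrable (fun s => 4 * Bad.indicator (fun _ => (1 : ℝ)) s) (P i) := i2.const_mul _
  have i5 : Integrable (fun s => 2 * e + 4 * Bad.indicator (fun _ => (1 : ℝ)) s) (P i) := (integrable_const _).add i4
  have i6 : Integrable (fun s => 2 * |psP (D i s) M B' (S i) (h i s) (wd i s) - q i s|) (P i) := i1.const_mul _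
  have z0 : ∫ s, 4 * Bad.indicator (fun _ => (1 : ℝ)) s ∂(P i) = 4 * (P i).real Bad := by rw [integral_const_mul, e0]
  have z1 : ∫ s, 2 * |psP (D i s) M B' (S i) (h i s) (wd i s) - q i s| ∂(P i) =
      2 * ∫ s, |psP (D i s) M B' (S i) (h i s) (wd i s) - q i s| ∂(P i) := integral_const_mul _ _
  calc ∫ s, (max 0 (J h t i s - q i s) + max 0 (q i s - J h v i s)) ∂(P i) ≤
        ∫ s, ((2 * e + 4 * Bad.indicator (fun _ => (1 : ℝ)) s) + 2 * |psP (D i s) M B' (S i) (h i s) (wd i s) - q i s|) ∂(P i) :=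
        integral_mono i3 (i5.add i6) hle
    _ = (2 * e * (P i).real univ + 4 * (P i).real Bad) + 2 * ∫ s, |psP (D i s) M B' (S i) (h i s) (wd i s) - q i s| ∂(P i) := by
        rw [integral_add i5 i6, integral_add (integrable_const _) i4, z0, z1, integral_const, smul_eq_mul]
        ring
    _ ≤ (2 * (ε / 16) + 4 * (3 * (ε / 16))) + 2 * (ε / 16) := by
        have z1 : (P i).real univ ≤ m := c6.trans ((le_abs_self _).trans (by rw [hm]; linarith))
        have z2 : e * (P i).real univ ≤ ε / 16 := (mul_le_mul_of_nonneg_left z1 he0.le).trans he2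
        linarith
    _ = ε := by ring

/-- the gate at `(a, r, ρ)` is stable when the parameters move by `μ` -/
def GStab (D : ℝ → ℕ → Prop) (S a r ρ μ η : ℝ) {n : ℕ} (s : Fin n → Fin 3) : Prop :=
  ∀ a' r' ρ' : ℝ, |a' - a| ≤ μ → |r' - r| ≤ μ → |ρ' - ρ| ≤ μ →
    (∀ k : ℕ, TP D (a * S) (r * S) (ρ * S) s k → ∃ k' : ℕ, TP D (a' * S) (r' * S) (ρ' * S) s k' ∧ |(k : ℝ) / n - (k' : ℝ) / n| ≤ η) ∧
      ∀ k' : ℕ, TP D (a' * S) (r' * S) (ρ' * S) s k' → ∃ k : ℕ, TP D (a * S) (r * S) (ρ * S) s k ∧ |(k : ℝ) / n - (k' : ℝ) / n| ≤ η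

/-- **the gates with fixed parameters are stable under small changes of the parameters**, off small mass, for all but countably many
parameters -/
theorem gate_stab {R : ℝ} (hR : 0 < R) (hM : Mb (U : Filter ι) P) (hW : WSys (U : Filter ι) P nn wd S)
    (hD : ∀ i s, Sz1 (wd i s) (D i s)) :
    ∃ E : Set ℝ, E.Countable ∧ ∀ a : ℝ, a ∉ E → ∀ B : Box, B.Ok R → B.a0 < a → ∃ E' : Set ℝ, E'.Countable ∧
      ∀ t : ℝ, t ∉ E' → 0 < t → t < 1 → ∀ η : ℝ, 0 < η → ∀ ε : ℝ, 0 < ε → ∃ μ0 : ℝ, 0 < μ0 ∧ ∀ μ : ℝ, μ ≤ μ0 →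
        ∀ᶠ i in (U : Filter ι), (P i).real {s | ¬ GStab (D i s) (S i) a (rT B t) (pT B t) μ η (wd i s)} ≤ ε := by
  classical
  obtain ⟨E, hE, hJ⟩ := noj_small (U := U) (P := P) (nn := nn) (wd := wd) (S := S) (D := D) hR hM hW.pos hD
  refine ⟨E, hE, fun a ha B hB haB => ?_⟩
  have hBr := sub_pos.2 hB.r
  have hBp := sub_pos.2 hB.p'
  have B1 := hB.a
  have B2 := hB.r'
  have B3 := hB.p
  have B4 := hB.p''
  obtain ⟨T, hT⟩ : ∃ T : ℝ → ℝ, T = fun t => max 0 (min 1 t) := ⟨_, rfl⟩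
  have hTm : Monotone T := by
    intro t v htv
    rw [hT]
    exact max_le_max le_rfl (min_le_min le_rfl htv)
  have hT0 : ∀ t, 0 ≤ T t := fun t => by rw [hT]; exact le_max_left _ _
  have hT1 : ∀ t, T t ≤ 1 := fun t => by rw [hT]; exact max_le zero_le_one (min_le_left _ _)
  have hTt : ∀ t, 0 < t → t < 1 → T t = t := by
    intro t h0 h1
    rw [hT]
    show max 0 (min 1 t) = t
    rw [min_eq_right h1.le, max_eq_right h0.le]
  have hrm : Monotone fun t => rT B (T t) := fun t v htv => by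
    show B.r0 + T t * (B.r1 - B.r0) ≤ B.r0 + T v * (B.r1 - B.r0)
    have := mul_le_mul_of_nonneg_right (hTm htv) hBr.le
    linarith
  have hpm : Antitone fun t => pT B (T t) := fun t v htv => by
    show B.p1 - T v * (B.p1 - B.p0) ≤ B.p1 - T t * (B.p1 - B.p0)
    have := mul_le_mul_of_nonneg_right (hTm htv) hBp.le
    linarith
  have hr2 : ∀ t, rT B (T t) ≤ 2 * R := fun t => by
    have h1 : B.r0 + T t * (B.r1 - B.r0) ≤ B.r1 := by
      have := mul_le_mul_of_nonneg_right (hT1 t) hBr.le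
      linarith
    exact h1.trans B2
  have hp1 : ∀ t, B.p0 ≤ pT B (T t) := fun t => by
    show B.p0 ≤ B.p1 - T t * (B.p1 - B.p0)
    have := mul_le_mul_of_nonneg_right (hT1 t) hBp.le
    linarith
  have hp2 : ∀ t, pT B (T t) ≤ B.p1 := fun t => by
    show B.p1 - T t * (B.p1 - B.p0) ≤ B.p1
    have := mul_nonneg (hT0 t) hBp.le
    linarith
  obtain ⟨I, hI⟩ : ∃ I : ℝ → ι → Ω → ℝ, I = fun t i s =>
      inP (D i s) (a * S i) (rT B (T t) * S i) (pT B (T t) * S i) (fun _ => 1) (wd i s) := ⟨_, rfl⟩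
  have hIm : ∀ i s, Monotone fun t => I t i s := by
    intro i s t v htv
    rw [hI]
    exact inP_mono (fun _ => zero_le_one) (mul_le_mul_of_nonneg_right (hrm htv) (hW.pos i).le)
      (mul_le_mul_of_nonneg_right (hpm htv) (hW.pos i).le)
  have hrp : ∀ (i : ι) (t : ℝ), rT B (T t) * S i ≤ pT B (T t) * S i := fun i t =>
    mul_le_mul_of_nonneg_right (by linarith [hr2 t, hp1 t]) (hW.pos i).le
  have hIb : ∀ t i s, |I t i s| ≤ 1 := by
    intro t i s
    rw [hI]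
    show |inP _ _ _ _ _ _| ≤ 1
    rw [abs_of_nonneg (inP_nn fun _ => zero_le_one)]
    exact inP_le (hrp i t) fun _ => le_rfl
  obtain ⟨E', hE', hgen⟩ := gen_mono (P := P) hM hIm hIb
  refine ⟨E', hE', fun t ht ht0 ht1 η hη ε hε => ?_⟩
  obtain ⟨u1, hu1, g1⟩ := hgen t ht (ε / 3) (by positivity)
  obtain ⟨u, hu⟩ : ∃ u, u = min u1 (min (t / 2) ((1 - t) / 2)) := ⟨_, rfl⟩
  have hu0 : 0 < u := by rw [hu]; exact lt_min hu1 (lt_min (by linarith) (by linarith))
  have hu2 : u ≤ u1 := by rw [hu]; exact min_le_left _ _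
  have hu3 : u ≤ t / 2 := by rw [hu]; exact (min_le_right _ _).trans (min_le_left _ _)
  have hu4 : u ≤ (1 - t) / 2 := by rw [hu]; exact (min_le_right _ _).trans (min_le_right _ _)
  have hTp : T (t + u) = t + u := hTt _ (by linarith) (by linarith)
  have hTm' : T (t - u) = t - u := hTt _ (by linarith) (by linarith)
  have hTt' : T t = t := hTt t ht0 ht1
  obtain ⟨d, hd⟩ : ∃ d, d = min R (u * min (B.r1 - B.r0) (B.p1 - B.p0)) := ⟨_, rfl⟩
  have hd0 : 0 < d := by rw [hd]; exact lt_min hR (mul_pos hu0 (lt_min hBr hBp))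
  have hdR : d ≤ R := by rw [hd]; exact min_le_left _ _
  have hdr : d ≤ u * (B.r1 - B.r0) := by
    rw [hd]
    exact (min_le_right _ _).trans (mul_le_mul_of_nonneg_left (min_le_left _ _) hu0.le)
  have hdp : d ≤ u * (B.p1 - B.p0) := by
    rw [hd]
    exact (min_le_right _ _).trans (mul_le_mul_of_nonneg_left (min_le_right _ _) hu0.le)
  obtain ⟨μ3, hμ3⟩ : ∃ μ3, μ3 = d / 4 := ⟨_, rfl⟩
  have hμ30 : 0 < μ3 := by rw [hμ3]; positivity
  obtain ⟨j, hj⟩ : ∃ j : ℕ, wj j ≤ μ3 / 4 := by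
    obtain ⟨j, hj⟩ := exists_nat_one_div_lt (show 0 < μ3 / 4 by positivity)
    exact ⟨j, hj.le⟩
  obtain ⟨η2, hη2, q2⟩ := hW.md (μ3 / 4) (by positivity) (ε / 3) (by positivity)
  obtain ⟨η', hη'⟩ : ∃ η', η' = min (1 / 2) (min η η2) := ⟨_, rfl⟩
  have hη0 : 0 < η' := by rw [hη']; exact lt_min (by norm_num) (lt_min hη hη2)
  have hηa : η' ≤ 1 / 2 := by rw [hη']; exact min_le_left _ _
  have hηb : η' ≤ η := by rw [hη']; exact (min_le_right _ _).trans (min_le_left _ _)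
  have hηc : η' ≤ η2 := by rw [hη']; exact (min_le_right _ _).trans (min_le_right _ _)
  obtain ⟨μ0, hμ00, q3⟩ := hJ a ha j η' hη0 (ε / 3) (by positivity)
  obtain ⟨μ, hμ⟩ : ∃ μ, μ = min μ0 (a - B.a0) := ⟨_, rfl⟩
  have hμ0 : 0 < μ := by rw [hμ]; exact lt_min hμ00 (sub_pos.2 haB)
  have hμ1 : μ ≤ μ0 := by rw [hμ]; exact min_le_left _ _
  have hμ2 : μ ≤ a - B.a0 := by rw [hμ]; exact min_le_right _ _
  have q4 := q3 μ hμ0 hμ1
  refine ⟨min μ μ3, lt_min hμ0 hμ30, fun m hm => ?_⟩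
  have hm1 : m ≤ μ := hm.trans (min_le_left _ _)
  have hm2 : m ≤ μ3 := hm.trans (min_le_right _ _)
  filter_upwards [g1, q2, q4] with i c1 c2 c4
  have hSi := hW.pos i
  have b1 : (P i).real {s | 1 ≤ I (t + u) i s - I (t - u) i s} ≤ ε / 3 := by
    refine (markov (fun s => sub_nonneg.2 (hIm i s (by linarith))) (C := 1 + 1) (fun s =>
      (abs_sub _ _).trans (add_le_add (hIb _ i s) (hIb _ i s))) one_pos).trans ?_
    rw [div_one]
    refine (integral_mono (int_bd (C := 1 + 1) fun s => (abs_sub _ _).trans (add_le_add (hIb _ i s) (hIb _ i s)))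
      (int_bd (C := 1 + 1) fun s => (abs_sub _ _).trans (add_le_add (hIb _ i s) (hIb _ i s))) fun s => ?_).trans c1
    exact sub_le_sub (hIm i s (by linarith)) (hIm i s (by linarith))
  refine (measureReal_mono (s₂ := ({s | 1 ≤ I (t + u) i s - I (t - u) i s} ∪ {s | ¬ MdS η2 (μ3 / 4 * S i) (wd i s)}) ∪
    {s | 1 ≤ nn i s ∧ ¬ NoJ (D i s) R (S i) a μ η' (wj j) (Qj R j) (wd i s)}) fun s hs => ?_).trans
    ((measureReal_union_le _ _).trans ((add_le_add (measureReal_union_le _ _) le_rfl).trans (by linarith)))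
  by_contra hcon
  simp only [mem_union, mem_ofPred_eq, not_or, not_not, not_le] at hcon
  obtain ⟨⟨s1, s2⟩, s3⟩ := hcon
  refine hs ?_
  have hn : 1 ≤ nn i s := s2.1
  have s3' : NoJ (D i s) R (S i) a μ η' (wj j) (Qj R j) (wd i s) := by
    by_contra hc
    exact s3 ⟨hn, hc⟩
  have s2' : MdS η' (μ3 / 4 * S i) (wd i s) := ⟨hn, fun k k' h1 h2 h3 => s2.2 k k' h1 h2 (h3.trans hηc)⟩
  have erp : rT B (t + u) = rT B t + u * (B.r1 - B.r0) := by unfold rT; ring
  have erm : rT B (t - u) = rT B t - u * (B.r1 - B.r0) := by unfold rT; ring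
  have epp : pT B (t + u) = pT B t - u * (B.p1 - B.p0) := by unfold pT; ring
  have epm : pT B (t - u) = pT B t + u * (B.p1 - B.p0) := by unfold pT; ring
  have zr : 0 ≤ u * (B.r1 - B.r0) := mul_nonneg hu0.le hBr.le
  have zp : 0 ≤ u * (B.p1 - B.p0) := mul_nonneg hu0.le hBp.le
  have x1 := hr2 (t + u)
  have x2 := hr2 t
  have x3 := hp1 (t + u)
  have x4 := hp1 t
  have x5 := hp2 t
  have x6 := hp2 (t - u)
  have x7 := hr2 (t - u)
  have x8 := hp1 (t - u)
  rw [hTp] at x1 x3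
  rw [hTt'] at x2 x4 x5
  rw [hTm'] at x6 x7 x8
  -- a gate at `t + u` is one at `t - u`
  have hback : ∀ k, TP (D i s) (a * S i) (rT B (t + u) * S i) (pT B (t + u) * S i) (wd i s) k →
      TP (D i s) (a * S i) (rT B (t - u) * S i) (pT B (t - u) * S i) (wd i s) k := by
    intro k hk
    rw [hI] at s1
    simp only [hTp, hTm'] at s1
    rw [inP_eq (by have := hrp i (t + u); rwa [hTp] at this) hk] at s1
    by_cases hex : ∃ k', TP (D i s) (a * S i) (rT B (t - u) * S i) (pT B (t - u) * S i) (wd i s) k'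
    · obtain ⟨k', hk'⟩ := hex
      have h1 : TP (D i s) (a * S i) (rT B (t + u) * S i) (pT B (t + u) * S i) (wd i s) k' :=
        tp_mono hk' (mul_le_mul_of_nonneg_right (by rw [erp, erm]; linarith) hSi.le)
          (mul_le_mul_of_nonneg_right (by rw [epp, epm]; linarith) hSi.le)
      have h2 := tp_unique (by have := hrp i (t + u); rwa [hTp] at this) hk h1
      rw [h2]
      exact hk'
    · rw [inP_zero fun k' hk' => hex ⟨k', hk'⟩] at s1
      linarith
  have hmove : ∀ {a1 a2 r ρ : ℝ}, |a1 - a| ≤ μ → |a2 - a| ≤ μ → r ≤ 2 * R → 64 * R ≤ ρ → ρ ≤ 128 * R → ∀ k,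
      TP (D i s) (a1 * S i) (r * S i) (ρ * S i) (wd i s) k →
        ∃ k', TP (D i s) (a2 * S i) ((r + μ3) * S i) ((ρ - μ3) * S i) (wd i s) k' ∧ |(k : ℝ) / nn i s - (k' : ℝ) / nn i s| ≤ η' := by
    intro a1 a2 r ρ h1 h2 h3 h4 h5 k hk
    have k1 := abs_le.1 h1
    have k2 := abs_le.1 h2
    exact tp_self (hD i s) hSi hR s2' (by positivity) (by linarith) (by linarith) (by linarith) (wj_pos j)
      (by linarith) (by linarith) (by linarith) h1 h2 h3 h4 h5 hk (qj_bd hSi j (wd i s)) s3'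
  intro a' r' ρ' ha' hr' hρ'
  have y1 := abs_le.1 hr'
  have y2 := abs_le.1 hρ'
  constructor
  · intro k hk
    have h1 := hback k (tp_mono hk (mul_le_mul_of_nonneg_right (by rw [erp]; linarith) hSi.le)
      (mul_le_mul_of_nonneg_right (by rw [epp]; linarith) hSi.le))
    obtain ⟨k', h2, h3⟩ := hmove (a1 := a) (a2 := a') (by rw [sub_self, abs_zero]; exact hμ0.le) (ha'.trans hm1) x7
      (by linarith) (by linarith) k h1
    refine ⟨k', tp_mono h2 (mul_le_mul_of_nonneg_right ?_ hSi.le) (mul_le_mul_of_nonneg_right ?_ hSi.le), h3.trans hηb⟩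
    · rw [erm]; linarith
    · rw [epm]; linarith
  · intro k' hk'
    by_cases hρd : ρ' ≤ 128 * R
    · by_cases hρu : 64 * R ≤ ρ'
      · by_cases hru : r' ≤ 2 * R
        · obtain ⟨k, h2, h3⟩ := hmove (a1 := a') (a2 := a) (ha'.trans hm1) (by rw [sub_self, abs_zero]; exact hμ0.le) hru hρu hρd k' hk'
          have h4 := hback k (tp_mono h2 (mul_le_mul_of_nonneg_right (by rw [erp]; linarith) hSi.le)
            (mul_le_mul_of_nonneg_right (by rw [epp]; linarith) hSi.le))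
          refine ⟨k, tp_mono h4 (mul_le_mul_of_nonneg_right ?_ hSi.le) (mul_le_mul_of_nonneg_right ?_ hSi.le), ?_⟩
          · rw [erm]; linarith
          · rw [epm]; linarith
          · rw [abs_sub_comm]
            exact h3.trans hηb
        · exfalso
          have : rT B (t + u) ≤ 2 * R := x1
          rw [erp] at this
          linarith
      · exfalso
        rw [epp] at x3
        linarith
    · exfalso
      rw [epm] at x6
      linarith

end sys

end Pool.Agent.ROT.F3
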