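import Pool.Agent.ROT.F3WL
import Pool.Agent.ROT.F3GenG
import Pool.Agent.ROT.F3Gd

/-!
# ROT, block F3, row LOC: the gates of two close words, soft form, and the limit (helper68; over helper66's td_closeS, helper59's NoJ
and GStab, helper28's F3Gd)

* `CPS` : a close pair of words with stability of the start cuts (sizes `D`, `D'`); `PmS` : the constants;
  `clS_cv` : closeness of the words from closeness of curves;
* **`wlS`** : a gate of `s` at `(a, r, ρ)` gives a gate of `s'` at the same parameters, at almost the same time and place, if the gates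
  of `s'` are stable (`SG` : `NoJ` and `GStab`);
* `mk1`, `mkB` : times of the gate and of the second gate over the first gate (units of the number of steps; none: `-1`);
  **`mk1_close`**, **`mkB_close`** : close words with stable gates have close marks;
* **`fun_lim`** : two limit points of good words with the same first coordinate have the same second coordinate.
-/

set_option autoImplicit false

open Set Filter Topology MeasureTheory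

namespace Pool.Agent.ROT.F3

open Pool.Agent.NTS.Res
open Pool.Agent.SCF.Z Pool.Agent.SCF.M
open Pool.Agent.CRT (CI)

/-! ### closeness from curves -/

/-- `c` is a curve of the word `s`, unit `S` -/
def CvW (S : ℝ) {n : ℕ} (s : Fin n → Fin 3) (c : CI) : Prop :=
  ∀ (k : ℕ) (u : unitInterval), k ≤ n → (u : ℝ) = (k : ℝ) / n → c u = pos s k / (S : ℂ)

/-- modulus of continuity of a curve -/
def McW (β ω : ℝ) (c : CI) : Prop := ∀ u u' : unitInterval, |(u : ℝ) - u'| ≤ β → ‖c u - c u'‖ ≤ ω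

lemma clS_cv {S β δ ω ν : ℝ} {n n' : ℕ} {s : Fin n → Fin 3} {s' : Fin n' → Fin 3} {c c' : CI} (hS : 0 < S) (hn : 1 ≤ n)
    (hn' : 1 ≤ n') (hc : CvW S s c) (hc' : CvW S s' c') (hd : dist c c' ≤ δ) (hm : McW β ω c') (hν : δ + ω ≤ ν) :
    ClS S 2 β ν s s' := by
  intro i i' hi hi' _ _ h
  have hn0 : (0 : ℝ) < n := by exact_mod_cast hn
  have hn0' : (0 : ℝ) < n' := by exact_mod_cast hn'
  obtain ⟨u, hu⟩ : ∃ u : unitInterval, (u : ℝ) = (i : ℝ) / n := ⟨⟨(i : ℝ) / n, by positivity, by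
    rw [div_le_one hn0]
    exact_mod_cast hi⟩, rfl⟩
  obtain ⟨u', hu'⟩ : ∃ u : unitInterval, (u : ℝ) = (i' : ℝ) / n' := ⟨⟨(i' : ℝ) / n', by positivity, by
    rw [div_le_one hn0']
    exact_mod_cast hi'⟩, rfl⟩
  have h1 := hc i u hi hu
  have h2 := hc' i' u' hi' hu'
  have h3 := (ContinuousMap.dist_apply_le_dist (f := c) (g := c') u).trans hd
  rw [dist_eq_norm] at h3
  have h4 := hm u u' (by rw [hu, hu']; exact h)
  have h5 : ‖c u - c' u'‖ ≤ ν := by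
    calc ‖c u - c' u'‖ = ‖(c u - c' u) + (c' u - c' u')‖ := by congr 1; ring
      _ ≤ δ + ω := (norm_add_le _ _).trans (add_le_add h3 h4)
      _ ≤ ν := hν
  rw [h1, h2, ← sub_div, norm_div, Complex.norm_real, Real.norm_eq_abs, abs_of_pos hS, div_le_iff₀ hS] at h5
  exact h5

/-! ### one gate -/

/-- the constants of one gate -/
structure PmS (R θ νa νb μ μ' μ3 η1 w μg a r ρ : ℝ) : Prop where
  R0 : 0 < R
  θ0 : 0 < θ
  θR : θ ≤ R / 8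
  νR : νb ≤ R / 32
  μR : μ' ≤ R / 8
  μμ : μ' ≤ μ
  μ0 : 0 ≤ μ
  η0 : 0 ≤ η1
  η1' : θ + η1 ≤ 1 / 2
  w0 : 0 < w
  m3 : 2 * w + νa + 2 * θ ≤ μ3
  m3' : 2 * νa ≤ μ3
  m30 : 0 ≤ μ3
  m3R : μ3 ≤ R
  m3g : μ3 ≤ μg
  a0 : R / 4 ≤ a
  r0 : r ≤ 2 * R
  ρ0 : 64 * R ≤ ρ
  ρ1 : ρ ≤ 128 * R

/-- a close pair of words, with stability of the start cuts and transfer of the sizes `D`, `D'` of the start pieces -/
structure CPS (R θ μ' S : ℝ) {n n' : ℕ} (s : Fin n → Fin 3) (s' : Fin n' → Fin 3) (D D' : ℝ → ℕ → Prop) : Prop where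
  n1 : 1 ≤ n
  n1' : 1 ≤ n'
  S0 : 0 < S
  D1 : Sz1 s D
  D1' : Sz1 s' D'
  T : TrS θ 2 μ' S s s' D D'
  T' : TrS θ 2 μ' S s' s D' D
  st : StbD D R θ S s s'
  st' : StbD D' R θ S s' s

lemma CPS.symm {R θ μ' S : ℝ} {n n' : ℕ} {s : Fin n → Fin 3} {s' : Fin n' → Fin 3} {D D' : ℝ → ℕ → Prop}
    (h : CPS R θ μ' S s s' D D') : CPS R θ μ' S s' s D' D :=
  ⟨h.n1', h.n1, h.S0, h.D1', h.D1, h.T', h.T, h.st', h.st⟩

/-- **the gates of `s` at `(a, r, ρ)` are stable** (soft form: time `η1` and squares of the first cut; time `ηg` of the gate) -/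
structure SG (D : ℝ → ℕ → Prop) (R S a r ρ μ η1 w μg ηg : ℝ) {n : ℕ} (s : Fin n → Fin 3) : Prop where
  J : ∃ Q : ℝ, (∀ c : ℕ, ((VS (140 * R * S) (w * S) s c).card : ℝ) ≤ Q) ∧ NoJ D R S a μ η1 w Q s
  G : GStab D S a r ρ μg ηg s

/-- **a gate of `s` gives a gate of `s'` at the same parameters** -/
theorem wlS {R θ νa νb βa βb μ μ' μ3 η1 w μg ηg a r ρ S : ℝ} {n n' : ℕ} {s : Fin n → Fin 3} {s' : Fin n' → Fin 3}
    {D D' : ℝ → ℕ → Prop} {k : ℕ} (hp : PmS R θ νa νb μ μ' μ3 η1 w μg a r ρ) (h : CPS R θ μ' S s s' D D')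
    (hCa : ClS S 2 βa νa s s') (hCb : ClS S 2 βb νb s s') (hb : θ + 1 / n ≤ βb) (hba : θ + η1 + 1 / n ≤ βa)
    (hbg : θ + η1 + ηg ≤ βa) (hG : SG D' R S a r ρ μ η1 w μg ηg s') (ht : TP D (a * S) (r * S) (ρ * S) s k) :
    ∃ k' : ℕ, TP D' (a * S) (r * S) (ρ * S) s' k' ∧ |(k : ℝ) / n - (k' : ℝ) / n'| ≤ θ + η1 + ηg ∧
      ‖pos s k - pos s' k'‖ ≤ νa * S := by
  obtain ⟨⟨Q, hQ, hJ⟩, hS⟩ := hG
  have hn0 : (0 : ℝ) < n := by exact_mod_cast h.n1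
  have hn0' : (0 : ℝ) < n' := by exact_mod_cast h.n1'
  have hk1 : (k : ℝ) / n ≤ 1 := by
    rw [div_le_one hn0]
    exact_mod_cast ht.2.1.le
  obtain ⟨k1, h1, h2, -⟩ := td_closeS h.D1 h.D1' h.T h.T' h.S0 h.n1 h.n1' hp.R0 hCa hCb h.st h.st' hp.θ0 hp.θR hp.νR hb hp.μR hp.μμ
    hp.μ0 hp.η0 hba hp.w0 hp.m3 hp.m3' hp.m30 hp.m3R hp.a0 hp.r0 hp.ρ0 hp.ρ1 (by linarith [hp.η1']) ht (by linarith [hp.η1'])
    hQ hJ.1 hJ.2
  have h3 := hp.m30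
  have h4 := hp.m3g
  obtain ⟨k', g1, g2⟩ := (hS a (r + μ3) (ρ - μ3) (by rw [sub_self, abs_zero]; linarith) (by
    rw [add_sub_cancel_left, abs_of_nonneg h3]
    exact h4) (by
    rw [show ρ - μ3 - ρ = -μ3 by ring, abs_neg, abs_of_nonneg h3]
    exact h4)).2 k1 h1
  have h5 : |(k : ℝ) / n - (k' : ℝ) / n'| ≤ θ + η1 + ηg := by
    have h2' := abs_le.1 h2
    have g2' := abs_le.1 g2
    rw [abs_le]
    constructor <;> linarith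
  refine ⟨k', g1, h5, hCa k k' ht.2.1.le g1.2.1.le (by linarith) ?_ (h5.trans hbg)⟩
  have : (k' : ℝ) / n' ≤ 1 := by
    rw [div_le_one hn0']
    exact_mod_cast g1.2.1.le
  linarith

/-! ### the marks -/

open Classical in
/-- the time of the start gate, in units `n`; none: `-1` -/
noncomputable def mk1 (D : ℝ → ℕ → Prop) (a r ρ S : ℝ) {n : ℕ} (s : Fin n → Fin 3) : ℝ :=
  if h : ∃ k : ℕ, TP D (a * S) (r * S) (ρ * S) s k then ((h.choose : ℕ) : ℝ) / n else -1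

/-- `c` is a gate for `D` and `x` is a gate for the level over `c` -/
def GB2 (D : ℝ → ℕ → Prop) (a r ρ m r2 ρ2 S : ℝ) {n : ℕ} (s : Fin n → Fin 3) (c x : ℕ) : Prop :=
  TP D (a * S) (r * S) (ρ * S) s c ∧ TP (Dv s (pos s c).re) (m * S) (r2 * S) (ρ2 * S) s x

open Classical in
/-- the time of the gate of level `m` over the gate for `D`, in units `n`; none: `-1` -/
noncomputable def mkB (D : ℝ → ℕ → Prop) (a r ρ m r2 ρ2 S : ℝ) {n : ℕ} (s : Fin n → Fin 3) : ℝ :=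
  if h : ∃ p : ℕ × ℕ, GB2 D a r ρ m r2 ρ2 S s p.1 p.2 then ((h.choose.2 : ℕ) : ℝ) / n else -1

lemma mk1_of {D : ℝ → ℕ → Prop} {a r ρ S : ℝ} {n : ℕ} {s : Fin n → Fin 3} {k : ℕ} (hS : 0 ≤ S) (hr : r ≤ ρ)
    (h : TP D (a * S) (r * S) (ρ * S) s k) : mk1 D a r ρ S s = (k : ℝ) / n := by
  have hex : ∃ k : ℕ, TP D (a * S) (r * S) (ρ * S) s k := ⟨k, h⟩
  unfold mk1
  rw [dif_pos hex, tp_unique (mul_le_mul_of_nonneg_right hr hS) hex.choose_spec h]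

lemma mk1_no {D : ℝ → ℕ → Prop} {a r ρ S : ℝ} {n : ℕ} {s : Fin n → Fin 3} (h : ∀ k : ℕ, ¬ TP D (a * S) (r * S) (ρ * S) s k) :
    mk1 D a r ρ S s = -1 := by
  unfold mk1
  rw [dif_neg fun ⟨k, hk⟩ => h k hk]

lemma gb2_unique {D : ℝ → ℕ → Prop} {a r ρ m r2 ρ2 S : ℝ} {n : ℕ} {s : Fin n → Fin 3} {c x c' x' : ℕ} (hS : 0 ≤ S)
    (hr : r ≤ ρ) (hr2 : r2 ≤ ρ2) (h : GB2 D a r ρ m r2 ρ2 S s c x) (h' : GB2 D a r ρ m r2 ρ2 S s c' x') : c = c' ∧ x = x' := by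
  have e := tp_unique (mul_le_mul_of_nonneg_right hr hS) h.1 h'.1
  subst e
  exact ⟨rfl, tp_unique (mul_le_mul_of_nonneg_right hr2 hS) h.2 h'.2⟩

lemma mkB_of {D : ℝ → ℕ → Prop} {a r ρ m r2 ρ2 S : ℝ} {n : ℕ} {s : Fin n → Fin 3} {c x : ℕ} (hS : 0 ≤ S) (hr : r ≤ ρ)
    (hr2 : r2 ≤ ρ2) (h : GB2 D a r ρ m r2 ρ2 S s c x) : mkB D a r ρ m r2 ρ2 S s = (x : ℝ) / n := by
  have hex : ∃ p : ℕ × ℕ, GB2 D a r ρ m r2 ρ2 S s p.1 p.2 := ⟨(c, x), h⟩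
  unfold mkB
  rw [dif_pos hex, (gb2_unique hS hr hr2 hex.choose_spec h).2]

lemma mkB_no {D : ℝ → ℕ → Prop} {a r ρ m r2 ρ2 S : ℝ} {n : ℕ} {s : Fin n → Fin 3}
    (h : ∀ c x : ℕ, ¬ GB2 D a r ρ m r2 ρ2 S s c x) : mkB D a r ρ m r2 ρ2 S s = -1 := by
  unfold mkB
  rw [dif_neg fun ⟨p, hp⟩ => h p.1 p.2 hp]

lemma PmS.rρ {R θ νa νb μ μ' μ3 η1 w μg a r ρ : ℝ} (h : PmS R θ νa νb μ μ' μ3 η1 w μg a r ρ) : r ≤ ρ := by
  have := h.R0
  linarith [h.r0, h.ρ0]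

/-- **close words with stable gates have close marks** -/
theorem mk1_close {R θ νa νb βa βb μ μ' μ3 η1 w μg ηg a r ρ S : ℝ} {n n' : ℕ} {s : Fin n → Fin 3} {s' : Fin n' → Fin 3}
    {D D' : ℝ → ℕ → Prop} (hp : PmS R θ νa νb μ μ' μ3 η1 w μg a r ρ) (h : CPS R θ μ' S s s' D D')
    (hCa : ClS S 2 βa νa s s') (hCb : ClS S 2 βb νb s s') (hb : θ + 1 / n ≤ βb) (hba : θ + η1 + 1 / n ≤ βa)
    (hb' : θ + 1 / n' ≤ βb) (hba' : θ + η1 + 1 / n' ≤ βa) (hbg : θ + η1 + ηg ≤ βa) (hηg : 0 ≤ ηg)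
    (hG : SG D R S a r ρ μ η1 w μg ηg s) (hG' : SG D' R S a r ρ μ η1 w μg ηg s') :
    |mk1 D a r ρ S s - mk1 D' a r ρ S s'| ≤ θ + η1 + ηg := by
  by_cases hk : ∃ k : ℕ, TP D (a * S) (r * S) (ρ * S) s k
  · obtain ⟨k, hk⟩ := hk
    obtain ⟨k', h1, h2, -⟩ := wlS hp h hCa hCb hb hba hbg hG' hk
    rw [mk1_of h.S0.le hp.rρ hk, mk1_of h.S0.le hp.rρ h1]
    exact h2
  · push Not at hk
    have hk' : ∀ k' : ℕ, ¬ TP D' (a * S) (r * S) (ρ * S) s' k' := fun k' h' => by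
      obtain ⟨k, h1, -, -⟩ := wlS hp h.symm hCa.symm hCb.symm hb' hba' hbg hG h'
      exact hk k h1
    rw [mk1_no hk, mk1_no hk', sub_self, abs_zero]
    linarith [hp.θ0, hp.η0]

/-- the pair for the levels over two close first gates -/
lemma CPS.dv {R θ μ' e S : ℝ} {n n' : ℕ} {s : Fin n → Fin 3} {s' : Fin n' → Fin 3} {c c' : ℕ} (hn : 1 ≤ n) (hn' : 1 ≤ n')
    (hS0 : 0 < S) (hL : StbS LG R θ S s s') (hL' : StbS LG R θ S s' s) (hc : ‖pos s c - pos s' c'‖ ≤ e * S) (he : e + θ ≤ μ')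
    (h0 : ∀ i : ℕ, i ≤ c → (pos s i).re ≤ (pos s c).re) (h0' : ∀ i : ℕ, i ≤ c' → (pos s' i).re ≤ (pos s' c').re) :
    CPS R θ μ' S s s' (Dv s (pos s c).re) (Dv s' (pos s' c').re) := by
  have hlev : |(pos s c).re - (pos s' c').re| ≤ e * S := by
    rw [← Complex.sub_re]
    exact (Complex.abs_re_le_norm _).trans hc
  have hlev' := abs_le.1 hlev
  have hb0 : 0 ≤ (pos s c).re := by
    have := h0 0 (Nat.zero_le _)
    rwa [NTSF.pos_zero, Complex.zero_re] at this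
  have hb0' : 0 ≤ (pos s' c').re := by
    have := h0' 0 (Nat.zero_le _)
    rwa [NTSF.pos_zero, Complex.zero_re] at this
  exact ⟨hn, hn', hS0, sz1_Dv hb0, sz1_Dv hb0', trS_Dv (e := e) (by linarith) he hS0.le, trS_Dv (e := e) (by linarith) he hS0.le,
    StbD.dv hb0 hL, StbD.dv hb0' hL'⟩

/-- **the second gate** -/
theorem wlB {R θ νa νb βa βb μ μ' μ3 η1 w μg ηg a r ρ S : ℝ} {R2 νc βc νd βd μ2 μ2' μ4 η2 w2 μh ηh m r2 ρ2 : ℝ} {n n' : ℕ}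
    {s : Fin n → Fin 3} {s' : Fin n' → Fin 3} {D D' : ℝ → ℕ → Prop} {c x : ℕ}
    (hp : PmS R θ νa νb μ μ' μ3 η1 w μg a r ρ) (h : CPS R θ μ' S s s' D D')
    (hCa : ClS S 2 βa νa s s') (hCb : ClS S 2 βb νb s s') (hb : θ + 1 / n ≤ βb) (hba : θ + η1 + 1 / n ≤ βa)
    (hbg : θ + η1 + ηg ≤ βa)
    (hp2 : PmS R2 θ νc νd μ2 μ2' μ4 η2 w2 μh m r2 ρ2) (hL : StbS LG R2 θ S s s') (hL' : StbS LG R2 θ S s' s)
    (hCc : ClS S 2 βc νc s s') (hCd : ClS S 2 βd νd s s') (hd : θ + 1 / n ≤ βd) (hdc : θ + η2 + 1 / n ≤ βc)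
    (hdh : θ + η2 + ηh ≤ βc) (he : νa + θ ≤ μ2')
    (hG : SG D' R S a r ρ μ η1 w μg ηg s')
    (hG2 : ∀ c' : ℕ, TP D' (a * S) (r * S) (ρ * S) s' c' → SG (Dv s' (pos s' c').re) R2 S m r2 ρ2 μ2 η2 w2 μh ηh s')
    (ht : GB2 D a r ρ m r2 ρ2 S s c x) :
    ∃ c' x' : ℕ, GB2 D' a r ρ m r2 ρ2 S s' c' x' ∧ |(c : ℝ) / n - (c' : ℝ) / n'| ≤ θ + η1 + ηg ∧
      ‖pos s c - pos s' c'‖ ≤ νa * S ∧ |(x : ℝ) / n - (x' : ℝ) / n'| ≤ θ + η2 + ηh ∧ ‖pos s x - pos s' x'‖ ≤ νc * S := by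
  obtain ⟨c', h1, h2, h3⟩ := wlS hp h hCa hCb hb hba hbg hG ht.1
  have h4 := CPS.dv (R := R2) h.n1 h.n1' h.S0 hL hL' h3 he ht.1.1.2.1 h1.1.2.1
  obtain ⟨x', g1, g2, g3⟩ := wlS hp2 h4 hCc hCd hd hdc hdh (hG2 c' h1) ht.2
  exact ⟨c', x', ⟨h1, g1⟩, h2, h3, g2, g3⟩

/-- **close words with stable gates have close second marks** -/
theorem mkB_close {R θ νa νb βa βb μ μ' μ3 η1 w μg ηg a r ρ S : ℝ} {R2 νc βc νd βd μ2 μ2' μ4 η2 w2 μh ηh m r2 ρ2 : ℝ}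
    {n n' : ℕ} {s : Fin n → Fin 3} {s' : Fin n' → Fin 3} {D D' : ℝ → ℕ → Prop}
    (hp : PmS R θ νa νb μ μ' μ3 η1 w μg a r ρ) (h : CPS R θ μ' S s s' D D')
    (hCa : ClS S 2 βa νa s s') (hCb : ClS S 2 βb νb s s') (hb : θ + 1 / n ≤ βb) (hba : θ + η1 + 1 / n ≤ βa)
    (hb' : θ + 1 / n' ≤ βb) (hba' : θ + η1 + 1 / n' ≤ βa) (hbg : θ + η1 + ηg ≤ βa)
    (hp2 : PmS R2 θ νc νd μ2 μ2' μ4 η2 w2 μh m r2 ρ2) (hL : StbS LG R2 θ S s s') (hL' : StbS LG R2 θ S s' s)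
    (hCc : ClS S 2 βc νc s s') (hCd : ClS S 2 βd νd s s') (hd : θ + 1 / n ≤ βd) (hdc : θ + η2 + 1 / n ≤ βc)
    (hd' : θ + 1 / n' ≤ βd) (hdc' : θ + η2 + 1 / n' ≤ βc)
    (hdh : θ + η2 + ηh ≤ βc) (he : νa + θ ≤ μ2') (hηh : 0 ≤ ηh)
    (hG : SG D R S a r ρ μ η1 w μg ηg s) (hG' : SG D' R S a r ρ μ η1 w μg ηg s')
    (hG2 : ∀ c : ℕ, TP D (a * S) (r * S) (ρ * S) s c → SG (Dv s (pos s c).re) R2 S m r2 ρ2 μ2 η2 w2 μh ηh s)
    (hG2' : ∀ c' : ℕ, TP D' (a * S) (r * S) (ρ * S) s' c' → SG (Dv s' (pos s' c').re) R2 S m r2 ρ2 μ2 η2 w2 μh ηh s') :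
    |mkB D a r ρ m r2 ρ2 S s - mkB D' a r ρ m r2 ρ2 S s'| ≤ θ + η2 + ηh := by
  by_cases hk : ∃ c x : ℕ, GB2 D a r ρ m r2 ρ2 S s c x
  · obtain ⟨c, x, hk⟩ := hk
    obtain ⟨c', x', h1, -, -, h2, -⟩ := wlB hp h hCa hCb hb hba hbg hp2 hL hL' hCc hCd hd hdc hdh he hG' hG2' hk
    rw [mkB_of h.S0.le hp.rρ hp2.rρ hk, mkB_of h.S0.le hp.rρ hp2.rρ h1]
    exact h2
  · push Not at hk
    have hk' : ∀ c' x' : ℕ, ¬ GB2 D' a r ρ m r2 ρ2 S s' c' x' := fun c' x' h' => by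
      obtain ⟨c, x, h1, -⟩ := wlB hp h.symm hCa.symm hCb.symm hb' hba' hbg hp2 hL' hL hCc.symm hCd.symm hd' hdc' hdh he hG hG2 h'
      exact hk c x h1
    rw [mkB_no hk, mkB_no hk', sub_self, abs_zero]
    linarith [hp.θ0, hp2.η0]

/-! ### the limit -/

/-- **limit points of good words: the second coordinate is a function of the first coordinate** -/
theorem fun_lim {ι : Type*} {U : Ultrafilter ι} {Ω Ω' : ι → Type*} {X Y : Type*} [PseudoMetricSpace X] [MetricSpace Y]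
    {p : ∀ i, Ω i → X} {p' : ∀ i, Ω' i → X} {y : ∀ i, Ω i → Y} {y' : ∀ i, Ω' i → Y} {Good : ℕ → ∀ i, Ω i → Prop}
    {Good' : ℕ → ∀ i, Ω' i → Prop} {x x' : X × Y}
    (hx : ∀ᶠ j in atTop, x ∈ KG U (fun i ω => (p i ω, y i ω)) (Good j))
    (hx' : ∀ᶠ j in atTop, x' ∈ KG U (fun i ω => (p' i ω, y' i ω)) (Good' j))
    {th : ℕ → ℝ} (hth : Tendsto th atTop (𝓝 0))
    (hW : ∀ j, ∃ δ : ℝ, 0 < δ ∧ ∀ᶠ i in (U : Filter ι), ∀ (ω : Ω i) (ω' : Ω' i), Good j i ω → Good' j i ω' →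
      dist (p i ω) (p' i ω') < δ → dist (y i ω) (y' i ω') ≤ th j) (he : x.1 = x'.1) : x.2 = x'.2 := by
  have h := loc_lim (U := U) (z := fun i ω => (p i ω, y i ω)) (z' := fun i ω => (p' i ω, y' i ω)) hx hx'
    (Θ := fun q : (X × Y) × X × Y => dist q.1.2 q.2.2) (by fun_prop) hth (fun j => by
      obtain ⟨δ, h1, h2⟩ := hW j
      refine ⟨δ / 2, by linarith, ?_⟩
      filter_upwards [h2] with i hi ω ω' g g' d d'
      refine hi ω ω' g g' ?_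
      have e1 : dist (p i ω) x.1 < δ / 2 := (le_max_left _ _).trans_lt d
      have e2 : dist (p' i ω') x.1 < δ / 2 := by
        rw [he]
        exact (le_max_left _ _).trans_lt d'
      calc dist (p i ω) (p' i ω') ≤ dist (p i ω) x.1 + dist (p' i ω') x.1 := dist_triangle_right _ _ _
        _ < δ := by linarith)
  exact dist_le_zero.1 h

end Pool.Agent.ROT.F3
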