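import Pool.Agent.ROT.W4E
import Pool.Agent.ROT.F3WLim
import Pool.Agent.ROT.F3MacU

/-!
# ROT, F3, K2 (helper16): the start gates over a macroscopic base are macroscopic

* `cv_md` : modulus of continuity of the curve `cv S s`; **`eqH_X`** : the value functions `H (XS S s) (k / n)` (`TestX`) are
  equicontinuous in the time;
* `Box.sh` : the ranges with the levels moved by `b`; `psP_Dv` : the level over the base `b` is the level with moved ranges;
* **`base_cmp`** : the average over the grid depends little on the base;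
* `GrdA` : the averages over the grid of the level gates are approximable; **`grd_base`** : then also the averages of the gates of
  the level over any macroscopic base;
* **`gateB`** : the gates of the level over a macroscopic base with fixed parameters are macroscopic, for all but countably many
  parameters (value functions `TestX`); `gateB_stab` : they are stable under small changes of the parameters and of the base.
-/

set_option autoImplicit false

open Filter MeasureTheory Topology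

open scoped NNReal BoundedContinuousFunction

namespace Pool.Agent.ROT.F3

open Pool.Agent.NTS.Res (step pos saw fug size curve)
open Pool.Agent.CRT (CI)
open Pool.Agent.SCF.M Pool.Agent.SCF.Z

lemma inP_mulc {D : ℝ → ℕ → Prop} {a r ρ : ℝ} {h : ℕ → ℝ} {z : ℝ} {n : ℕ} {s : Fin n → Fin 3} :
    inP D a r ρ (fun j => h j * z) s = inP D a r ρ h s * z := by
  unfold inP
  rw [Finset.sum_mul]
  refine Finset.sum_congr rfl fun j _ => ?_
  split_ifs
  · rfl
  · rw [zero_mul]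

lemma psP_mulc {D : ℝ → ℕ → Prop} {M : ℕ} {B : Box} {S : ℝ} {h : ℕ → ℝ} {z : ℝ} {n : ℕ} {s : Fin n → Fin 3} :
    psP D M B S (fun j => h j * z) s = psP D M B S h s * z := by
  unfold psP
  simp only [inP_mulc, ← Finset.sum_mul]
  ring

/-! ### the value functions -/

lemma cv_pr {n : ℕ} (hn : 1 ≤ n) (S : ℝ) (s : Fin n → Fin 3) (t : unitInterval) :
    cv S s t = pr (List.ofFn s) (t * n) / S := by
  have hs : (size n : ℂ) ≠ 0 := by exact_mod_cast (NTSF.size_pos hn).ne'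
  unfold cv
  rw [ContinuousMap.smul_apply, Complex.real_smul, curve_ofFn, crv_eq hn]
  push_cast
  field_simp

/-- the curve of a list -/
lemma cv_get {w : W3} (hn : 1 ≤ w.length) (S : ℝ) : cv S w.get = crv w w.length S := by
  ext t
  rw [cv_pr hn, crv_eq hn, List.ofFn_get]

/-- **modulus of continuity of the curve** -/
lemma cv_md {n : ℕ} {s : Fin n → Fin 3} {η ω S : ℝ} (hη : 0 < η) (hS : 0 < S) (h1 : 1 ≤ ω * S) (h2 : 8 / η ≤ ω * S)
    (hm : MdS η (ω * S) s) {t t' : unitInterval} (ht : |(t : ℝ) - t'| ≤ η / 2) : ‖cv S s t - cv S s t'‖ ≤ 3 * ω := by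
  obtain ⟨hn, hm⟩ := hm
  have hn0 : (0 : ℝ) < n := by exact_mod_cast hn
  have key : ∀ t : unitInterval, ∃ i : ℕ, i ≤ n ∧ |(t : ℝ) * n - i| ≤ 1 ∧ ‖pr (List.ofFn s) (t * n) - pos s i‖ ≤ 1 := by
    intro t
    obtain ⟨i, h3, h4, h5⟩ := ex_idx hn (x := (t : ℝ) * n) (mul_nonneg t.2.1 hn0.le) (mul_le_of_le_one_left hn0.le t.2.2)
    refine ⟨i, by omega, ?_, ?_⟩
    · rw [abs_of_nonneg (by linarith)]
      linarith
    · have h6 := pr_near (List.ofFn s) h4 h5
      rwa [pr_nat, ps_ofFn] at h6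
  obtain ⟨i, hi, hi1, hi2⟩ := key t
  obtain ⟨j, hj, hj1, hj2⟩ := key t'
  have h5 : ‖pos s i - pos s j‖ ≤ ω * S := by
    rcases le_or_gt (4 / η) (n : ℝ) with h | h
    · refine hm i j hi hj ?_
      rw [div_le_iff₀ hη] at h
      rw [← sub_div, abs_div, abs_of_pos hn0, div_le_iff₀ hn0]
      have e1 : (i : ℝ) - j = -((t : ℝ) * n - i) + ((t : ℝ) * n - t' * n) + ((t' : ℝ) * n - j) := by ring
      have e2 : |(t : ℝ) * n - t' * n| ≤ η / 2 * n := by
        rw [← sub_mul, abs_mul, abs_of_pos hn0]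
        exact mul_le_mul_of_nonneg_right ht hn0.le
      rw [e1]
      have e3 := abs_add_le (-((t : ℝ) * n - i) + ((t : ℝ) * n - t' * n)) ((t' : ℝ) * n - j)
      have e4 := abs_add_le (-((t : ℝ) * n - i)) ((t : ℝ) * n - t' * n)
      rw [abs_neg] at e4
      linarith
    · have h6 := nr_norm_ps (List.ofFn s) i
      have h7 := nr_norm_ps (List.ofFn s) j
      rw [ps_ofFn] at h6 h7
      have h8 : (i : ℝ) ≤ n := by exact_mod_cast hi
      have h9 : (j : ℝ) ≤ n := by exact_mod_cast hj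
      have e : 8 / η = 2 * (4 / η) := by ring
      exact (norm_sub_le _ _).trans (by linarith)
  rw [cv_pr hn, cv_pr hn, ← sub_div, norm_div, Complex.norm_real, Real.norm_of_nonneg hS.le, div_le_iff₀ hS]
  have e : pr (List.ofFn s) (t * n) - pr (List.ofFn s) (t' * n) = (pr (List.ofFn s) (t * n) - pos s i) +
      (pos s i - pos s j) - (pr (List.ofFn s) (t' * n) - pos s j) := by ring
  rw [e]
  refine (norm_sub_le _ _).trans ?_
  have := norm_add_le (pr (List.ofFn s) (t * n) - pos s i) (pos s i - pos s j)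
  linarith

section sys

variable {ι Ω X : Type*} [MeasurableSpace Ω] [DiscreteMeasurableSpace Ω] [PseudoMetricSpace X] {U : Ultrafilter ι}
  {P : ι → Measure Ω} [∀ i, IsFiniteMeasure (P i)] {x : ι → Ω → X} {nn : ι → Ω → ℕ} {wd : ∀ (i : ι) (s : Ω), Fin (nn i s) → Fin 3} {S : ι → ℝ}

omit [DiscreteMeasurableSpace Ω] in
/-- **the value functions are equicontinuous** -/
theorem eqH_X (hW : WSys (U : Filter ι) P nn wd S) (hS : Tendsto S (U : Filter ι) atTop) {K : ℝ} (hK : 0 ≤ K) {H : ℝ × CI → ℝ → ℝ}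
    (hH : TestX K H) {z : ι → Ω → ℝ} (z0 : ∀ i s, 0 ≤ z i s) (z1 : ∀ i s, z i s ≤ 1) :
    EqH (U : Filter ι) P nn fun i s k => H (XS (S i) (wd i s)) ((k : ℝ) / nn i s) * z i s := by
  intro e he
  obtain ⟨ω, hω⟩ : ∃ ω : ℝ, ω = e / (6 * (K + 1)) := ⟨_, rfl⟩
  have hω0 : 0 < ω := by
    rw [hω]
    positivity
  obtain ⟨η0, hη0, h1⟩ := hW.md ω hω0 e he
  refine ⟨min (η0 / 2) (e / (2 * (K + 1))), lt_min (by positivity) (by positivity), ?_⟩
  filter_upwards [h1, hS.eventually_ge_atTop (max (1 / ω) (8 / (η0 * ω)))] with i a1 a2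
  have hSi := hW.pos i
  have b1 : 1 ≤ ω * S i := by
    have := (le_max_left _ _).trans a2
    rw [div_le_iff₀ hω0] at this
    linarith
  have b2 : 8 / η0 ≤ ω * S i := by
    have := (le_max_right _ _).trans a2
    rw [div_le_iff₀ (by positivity)] at this
    rw [div_le_iff₀ hη0]
    linarith
  refine (measureReal_mono fun s hs => ?_).trans a1
  by_contra hcon
  have hm : MdS η0 (ω * S i) (wd i s) := not_not.1 hcon
  refine hs fun k k' _ _ hkk => ?_
  have h3 := hH.lip (XS (S i) (wd i s)) (XS (S i) (wd i s)) ((k : ℝ) / nn i s) ((k' : ℝ) / nn i s) (3 * ω)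
    (fun t t' htt => cv_md hη0 hSi b1 b2 hm (htt.trans (hkk.trans (min_le_left _ _))))
  rw [dist_self, zero_add] at h3
  have h4 : K * (|(k : ℝ) / nn i s - (k' : ℝ) / nn i s| + 3 * ω) ≤ e := by
    have h5 : |(k : ℝ) / nn i s - (k' : ℝ) / nn i s| ≤ e / (2 * (K + 1)) := hkk.trans (min_le_right _ _)
    calc K * (|(k : ℝ) / nn i s - (k' : ℝ) / nn i s| + 3 * ω) ≤ (K + 1) * (e / (2 * (K + 1)) + 3 * ω) := by
          refine mul_le_mul (by linarith) (by linarith) (by positivity) (by linarith)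
      _ = e := by
          rw [hω]
          field_simp
          ring
  have h6 := z0 i s
  have h7 := z1 i s
  have h8 := hH.nn (XS (S i) (wd i s)) ((k' : ℝ) / nn i s)
  have h9 : H (XS (S i) (wd i s)) ((k : ℝ) / nn i s) ≤ H (XS (S i) (wd i s)) ((k' : ℝ) / nn i s) + e := by linarith
  nlinarith

end sys

/-! ### the base -/

/-- the ranges with moved levels -/
def _root_.Pool.Agent.SCF.M.Box.sh (B : Box) (b : ℝ) : Box := { B with a0 := B.a0 + b, a1 := B.a1 + b }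

lemma box_sh {B : Box} {R b : ℝ} (h : B.Ok R) (hb : 0 ≤ b) : (B.sh b).Ok R := by
  refine ⟨?_, ?_, h.r, h.r', h.p, h.p', h.p''⟩
  · show R / 4 ≤ B.a0 + b
    linarith [h.a]
  · show B.a0 + b < B.a1 + b
    linarith [h.a']

lemma tp_Dv {n : ℕ} {s : Fin n → Fin 3} {a b r ρ S : ℝ} {k : ℕ} :
    TP (Dv s (b * S)) (a * S) r ρ s k ↔ TP (fun a k => SCF.M.LG a n s k) ((a + b) * S) r ρ s k := by
  unfold TP Dv SCF.M.LG
  simp only [add_mul]

lemma inP_Dv {n : ℕ} {s : Fin n → Fin 3} {a b r ρ S : ℝ} {h : ℕ → ℝ} :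
    inP (Dv s (b * S)) (a * S) r ρ h s = inP (fun a k => SCF.M.LG a n s k) ((a + b) * S) r ρ h s := by
  classical
  unfold inP
  refine Finset.sum_congr rfl fun k _ => ?_
  by_cases hk : TP (Dv s (b * S)) (a * S) r ρ s k
  · rw [if_pos hk, if_pos (tp_Dv.1 hk)]
  · rw [if_neg hk, if_neg fun h => hk (tp_Dv.2 h)]

lemma psP_Dv {n : ℕ} {s : Fin n → Fin 3} {M : ℕ} {B : Box} {b S : ℝ} {h : ℕ → ℝ} :
    psP (Dv s (b * S)) M B S h s = psP (fun a k => SCF.M.LG a n s k) M (B.sh b) S h s := by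
  unfold psP
  congr 1
  refine Finset.sum_congr rfl fun i2 _ => Finset.sum_congr rfl fun i3 _ => Finset.sum_congr rfl fun i5 _ => ?_
  have e : gp M (B.sh b).a0 (B.sh b).a1 i3 = gp M B.a0 B.a1 i3 + b := by
    show gp M (B.a0 + b) (B.a1 + b) i3 = _
    unfold gp
    ring
  rw [inP_Dv, e]
  rfl

/-- the average vanishes on short words -/
lemma psP_short {n : ℕ} {s : Fin n → Fin 3} {D : ℝ → ℕ → Prop} (hD : Sz1 s D) {R : ℝ} {B : Box} (hB : B.Ok R) {M : ℕ}
    {S : ℝ} (hS : 0 < S) {h : ℕ → ℝ} (hn : 2 * (n : ℝ) < R / 4 * S) : psP D M B S h s = 0 := by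
  unfold psP
  have h1 : ∀ i2 i3 i5 : ℕ, i3 < M → inP D (gp M B.a0 B.a1 i3 * S) (gp M B.r0 B.r1 i2 * S) (gp M B.p0 B.p1 i5 * S) h s = 0 := by
    intro i2 i3 i5 _
    refine inP_zero fun k hk => ?_
    obtain ⟨i, j, hi, hj, hij⟩ := hD.dm hk.1.2.2.2.1
    have hkn : k < n := hk.2.1
    have e1 : R / 4 ≤ gp M B.a0 B.a1 i3 := by
      unfold gp
      have a1 := hB.a
      have a2 : 0 ≤ (B.a1 - B.a0) * ((i3 + 1 : ℕ) : ℝ) / (M : ℝ) := by
        have := hB.a'
        have : 0 ≤ B.a1 - B.a0 := by linarith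
        positivity
      linarith
    have e2 : R / 4 * S ≤ gp M B.a0 B.a1 i3 * S := mul_le_mul_of_nonneg_right e1 hS.le
    have h6 := nr_norm_ps (List.ofFn s) i
    have h7 := nr_norm_ps (List.ofFn s) j
    rw [ps_ofFn] at h6 h7
    have h8 : (i : ℝ) ≤ n := by exact_mod_cast (hi.trans hkn.le)
    have h9 : (j : ℝ) ≤ n := by exact_mod_cast (hj.trans hkn.le)
    have h10 := norm_sub_le (pos s i) (pos s j)
    linarith
  rw [Finset.sum_eq_zero fun i2 _ => Finset.sum_eq_zero fun i3 h3 => Finset.sum_eq_zero fun i5 _ =>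
    h1 i2 i3 i5 (Finset.mem_range.1 h3), zero_div]

/-- **the average depends little on the base** -/
theorem base_cmp {R ε η : ℝ} (hR : 0 < R) (hε : 0 < ε) (hη : 0 < η) {B : Box} (hB : B.Ok R) :
    ∃ νa : ℝ, 0 < νa ∧ ∀ βa : ℝ, 0 < βa → ∃ νb μ : ℝ, 0 < νb ∧ 0 < μ ∧ ∀ βb : ℝ, 0 < βb → ∃ (S0 : ℝ) (M1 : ℕ),
      ∀ M : ℕ, M1 ≤ M → 1 ≤ M → ∀ (n : ℕ) (s : Fin n → Fin 3) (S b b' e : ℝ) (h : ℕ → ℝ), S0 ≤ S → 0 < S → 0 ≤ b → 0 ≤ b' →
        |b - b'| ≤ μ → MdS βa (νa * S) s → MdS βb (νb * S) s → 0 ≤ e → (∀ k, 0 ≤ h k) → (∀ k, h k ≤ 1) →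
        (∀ k k' : ℕ, k ≤ n → k' ≤ n → |(k : ℝ) / n - (k' : ℝ) / n| ≤ η → h k ≤ h k' + e) →
        psP (Dv s (b * S)) M B S h s ≤ psP (Dv s (b' * S)) M B S h s + e + ε := by
  obtain ⟨νa, hνa, -, h1⟩ := psPC (R := R) (ε := ε) (η := η) (ν0 := 1) hR hε hη one_pos hB
  refine ⟨νa, hνa, fun βa hβa => ?_⟩
  obtain ⟨νb, μ', hνb, -, hμ', hνμ, h2⟩ := h1 βa hβa
  refine ⟨νb, μ' / 2, hνb, by positivity, fun βb hβb => ?_⟩
  obtain ⟨θ, M1, hθ, hθb, -, h3⟩ := h2 βb hβb
  refine ⟨16 / (R * θ), M1, fun M hM hM1 n s S b b' e h hS0 hS hb hb' hbb ma mb he h0 h1' hh => ?_⟩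
  have hn := ma.1
  have hn0 : (0 : ℝ) < n := by exact_mod_cast hn
  have hsz := sz1_Dv (s := s) (b := b * S) (by positivity)
  have hsz' := sz1_Dv (s := s) (b := b' * S) (by positivity)
  rcases le_or_gt (1 / (n : ℝ)) θ with hnθ | hnθ
  · have hcl : ∀ {β ν : ℝ}, MdS β (ν * S) s → ClS S (1 + η) β ν s s := fun hm i i' hi hi' _ _ hd => hm.2 i i' hi hi' hd
    have htr : ∀ {b b' : ℝ}, |b - b'| ≤ μ' / 2 → TrS θ (1 + η) μ' S s s (Dv s (b * S)) (Dv s (b' * S)) := by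
      intro b b' hbb c c' a hc hc' _ _ hd _ hD
      have h5 : a * S + b * S ≤ (pos s c).re := hD
      show (a - μ') * S + b' * S ≤ (pos s c').re
      have h6 := mb.2 c c' hc hc' (hd.trans (by linarith))
      have h7 : |(pos s c).re - (pos s c').re| ≤ νb * S := by
        rw [← Complex.sub_re]
        exact (Complex.abs_re_le_norm _).trans h6
      have h8 := (abs_le.1 h7).2
      have h9 := (abs_le.1 hbb).1
      nlinarith
    have hst : ∀ {b : ℝ}, StbD (Dv s (b * S)) R θ S s s := by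
      intro b ρ c _ _ h5 _ _
      refine ⟨c, h5.mono (mul_le_mul_of_nonneg_right (by linarith) hS.le), ?_, ?_⟩
      · rw [sub_self, abs_zero]
        exact hθ.le
      · rw [sub_self, norm_zero]
        positivity
    refine h3 M hM hM1 n n s s (Dv s (b * S)) (Dv s (b' * S)) S (1 + η) hsz hsz' hS hn hn hnθ hnθ (hcl ma) (hcl mb) (htr hbb)
      (htr (by rwa [abs_sub_comm])) hst hst (fun k hk _ => ?_) h h e he h1' h0 fun k k' hk => ?_
    · have : (k : ℝ) / n ≤ 1 := (div_le_one hn0).2 (by exact_mod_cast hk.lt.le)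
      linarith
    · exact hh k k' hk.sc.lt.le hk.sc'.lt.le hk.tm
  · have h5 : psP (Dv s (b * S)) M B S h s = 0 := by
      refine psP_short hsz hB hS ?_
      rw [lt_div_iff₀ hn0] at hnθ
      rw [div_le_iff₀ (by positivity)] at hS0
      have : R / 4 * S * θ ≥ 4 := by nlinarith
      nlinarith
    rw [h5]
    have := psP_nn (D := Dv s (b' * S)) (M := M) (B := B) (S := S) (s := s) h0
    linarith

/-- the partition of unity -/
lemma hat_sum (J : ℕ) {u : ℝ} (h0 : 0 ≤ u) : ∑ j ∈ Finset.range (J + 1), max 0 (1 - |u - j|) = min 1 (max 0 (J + 1 - u)) := by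
  induction J with
  | zero =>
    simp only [zero_add, Finset.range_one, Finset.sum_singleton, Nat.cast_zero, sub_zero, abs_of_nonneg h0]
    rw [min_eq_right]
    exact max_le zero_le_one (by linarith)
  | succ J ih =>
    rw [Finset.sum_range_succ, ih]
    push_cast
    rcases le_or_gt u J with h1 | h1
    · have e1 : |u - (J + 1)| = J + 1 - u := by rw [abs_of_nonpos (by linarith)]; ring
      rw [e1, max_eq_right (by linarith : (0 : ℝ) ≤ J + 1 - u), max_eq_left (by linarith : (1 : ℝ) - (J + 1 - u) ≤ 0),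
        max_eq_right (by linarith : (0 : ℝ) ≤ J + 1 + 1 - u), min_eq_left (by linarith), min_eq_left (by linarith), add_zero]
    · rcases le_or_gt u (J + 1) with h2 | h2
      · have e1 : |u - (J + 1)| = J + 1 - u := by rw [abs_of_nonpos (by linarith)]; ring
        rw [e1, max_eq_right (by linarith : (0 : ℝ) ≤ J + 1 - u), max_eq_right (by linarith : (0 : ℝ) ≤ 1 - (J + 1 - u)),
          max_eq_right (by linarith : (0 : ℝ) ≤ J + 1 + 1 - u), min_eq_right (by linarith), min_eq_left (by linarith)]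
        ring
      · have e1 : |u - (J + 1)| = u - (J + 1) := abs_of_nonneg (by linarith)
        rw [e1, max_eq_left (by linarith : (J + 1 - u : ℝ) ≤ 0), min_eq_right zero_le_one, zero_add,
          min_eq_right (max_le zero_le_one (by linarith))]
        congr 1
        ring

/-! ### macroscopic bases -/

section base

variable {ι Ω X : Type*} [MeasurableSpace Ω] [DiscreteMeasurableSpace Ω] [PseudoMetricSpace X] {U : Ultrafilter ι}
  {P : ι → Measure Ω} [∀ i, IsFiniteMeasure (P i)] {x : ι → Ω → X} {nn : ι → Ω → ℕ} {wd : ∀ (i : ι) (s : Ω), Fin (nn i s) → Fin 3} {S : ι → ℝ}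

/-- **the averages over the grid of the level gates are approximable**, scale `R`, factor `z` -/
def GrdA {ι Ω X : Type*} [MeasurableSpace Ω] [PseudoMetricSpace X] (U : Filter ι) (P : ι → Measure Ω) (x : ι → Ω → X)
    (nn : ι → Ω → ℕ) (wd : ∀ (i : ι) (s : Ω), Fin (nn i s) → Fin 3) (S : ι → ℝ) (R : ℝ) (z : ι → Ω → ℝ) : Prop :=
  ∀ (B : Box) (K : ℝ) (H : ℝ × CI → ℝ → ℝ), B.Ok R → 0 ≤ K → TestX K H → ∀ ε : ℝ, 0 < ε → ∃ M1 : ℕ, ∀ M : ℕ, M1 ≤ M →
    ∃ q : ι → Ω → ℝ, L1A U P x q ∧ ∀ᶠ i in U,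
      ∫ s, |psP (fun a k => SCF.M.LG a _ (wd i s) k) M B (S i) (fun k => H (XS (S i) (wd i s)) ((k : ℝ) / nn i s) * z i s)
        (wd i s) - q i s| ∂(P i) ≤ ε

/-- the weights of the nodes -/
noncomputable def hatw (μ : ℝ) (j : ℕ) (y : ℝ) : ℝ := max 0 (1 - |y / μ - j|)

lemma hatw_nn (μ : ℝ) (j : ℕ) (y : ℝ) : 0 ≤ hatw μ j y := le_max_left _ _

lemma hatw_le (μ : ℝ) (j : ℕ) (y : ℝ) : hatw μ j y ≤ 1 := max_le zero_le_one (by linarith [abs_nonneg (y / μ - j)])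

lemma hatw_near {μ : ℝ} (hμ : 0 < μ) {j : ℕ} {y : ℝ} (h : hatw μ j y ≠ 0) : |y - j * μ| ≤ μ := by
  have h1 : |y / μ - j| ≤ 1 := by
    by_contra hc
    exact h (max_eq_left (by linarith [not_le.1 hc]))
  have e : y - j * μ = (y / μ - j) * μ := by field_simp
  rw [e, abs_mul, abs_of_pos hμ]
  exact mul_le_of_le_one_left hμ.le h1

lemma hatw_sum {μ : ℝ} (hμ : 0 < μ) {J : ℕ} {y : ℝ} (h0 : 0 ≤ y) (h1 : y ≤ J * μ) : ∑ j ∈ Finset.range (J + 1), hatw μ j y = 1 := by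
  unfold hatw
  rw [hat_sum J (by positivity)]
  have : y / μ ≤ J := by rwa [div_le_iff₀ hμ]
  rw [min_eq_left]
  exact le_max_of_le_right (by linarith)

lemma hatw_lip {μ : ℝ} (hμ : 0 < μ) (j : ℕ) : LipschitzWith (Real.toNNReal (1 / μ)) (hatw μ j) := by
  refine LipschitzWith.of_dist_le_mul fun a b => ?_
  rw [Real.coe_toNNReal _ (by positivity), Real.dist_eq, Real.dist_eq]
  unfold hatw
  have h1 := abs_max_sub_max_le_abs (1 - |a / μ - j|) (1 - |b / μ - j|) 0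
  rw [max_comm (1 - |a / μ - j|), max_comm (1 - |b / μ - j|)] at h1
  refine h1.trans ?_
  have e : 1 - |a / μ - j| - (1 - |b / μ - j|) = |b / μ - j| - |a / μ - j| := by ring
  rw [e]
  refine (abs_abs_sub_abs_le _ _).trans (le_of_eq ?_)
  have e2 : b / μ - j - (a / μ - j) = (b - a) / μ := by ring
  rw [e2, abs_div, abs_of_pos hμ, abs_sub_comm]
  ring

/-- **the averages of the gates of the level over a macroscopic base are approximable** -/
theorem grd_base {R : ℝ} (hR : 0 < R) (hM : Mb (U : Filter ι) P) (hW : WSys (U : Filter ι) P nn wd S)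
    (hS : Tendsto S (U : Filter ι) atTop) {z : ι → Ω → ℝ} (z0 : ∀ i s, 0 ≤ z i s) (z1 : ∀ i s, z i s ≤ 1)
    (hG : GrdA (U : Filter ι) P x nn wd S R z) {p : ι → Ω → ℝ} (hp : L1A (U : Filter ι) P x p) (p0 : ∀ i s, 0 ≤ p i s)
    {B : Box} {K : ℝ} {H : ℝ × CI → ℝ → ℝ} (hB : B.Ok R) (hK : 0 ≤ K) (hH : TestX K H) {ε : ℝ} (hε : 0 < ε) :
    ∃ M1 : ℕ, ∀ M : ℕ, M1 ≤ M → ∃ q : ι → Ω → ℝ, L1A (U : Filter ι) P x q ∧ ∀ᶠ i in (U : Filter ι),
      ∫ s, |psP (Dv (wd i s) (p i s * S i)) M B (S i) (fun k => H (XS (S i) (wd i s)) ((k : ℝ) / nn i s) * z i s)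
        (wd i s) - q i s| ∂(P i) ≤ ε := by
  classical
  obtain ⟨C, hC0, hC⟩ := bd_nn hp.bd
  obtain ⟨m, hm⟩ := hM
  obtain ⟨m', hm'⟩ : ∃ m', m' = |m| + 1 := ⟨_, rfl⟩
  have hm0 : 0 < m' := by rw [hm']; positivity
  obtain ⟨e, he⟩ : ∃ e, e = min (ε / (8 * m')) (ε / 32) := ⟨_, rfl⟩
  have he0 : 0 < e := by rw [he]; exact lt_min (by positivity) (by positivity)
  have hem : e * m' ≤ ε / 8 := by
    have h1 : e ≤ ε / (8 * m') := by rw [he]; exact min_le_left _ _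
    calc e * m' ≤ ε / (8 * m') * m' := mul_le_mul_of_nonneg_right h1 hm0.le
      _ = ε / 8 := by field_simp
  have he32 : e ≤ ε / 32 := by rw [he]; exact min_le_right _ _
  obtain ⟨h, hh⟩ : ∃ h : ι → Ω → ℕ → ℝ, h = fun i s (k : ℕ) => H (XS (S i) (wd i s)) ((k : ℝ) / nn i s) * z i s := ⟨_, rfl⟩
  have h0 : ∀ i s k, 0 ≤ h i s k := fun i s k => by rw [hh]; exact mul_nonneg (hH.nn _ _) (z0 i s)
  have h1 : ∀ i s k, h i s k ≤ 1 := fun i s k => by rw [hh]; exact mul_le_one₀ (hH.le _ _) (z0 i s) (z1 i s)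
  obtain ⟨η, hη, hE⟩ := eqH_X hW hS hK hH z0 z1 e he0
  obtain ⟨νa, hνa, g1⟩ := base_cmp hR he0 hη hB
  obtain ⟨βa, hβa, w1⟩ := hW.md νa hνa e he0
  obtain ⟨νb, μ, hνb, hμ, g2⟩ := g1 βa hβa
  obtain ⟨βb, hβb, w2⟩ := hW.md νb hνb e he0
  obtain ⟨S0, M1, g3⟩ := g2 βb hβb
  obtain ⟨J, hJ⟩ := exists_nat_ge (C / μ)
  have hCJ : C ≤ J * μ := by rwa [div_le_iff₀ hμ] at hJ
  have hJp : (0 : ℝ) < J + 1 := by positivity
  choose Mj hMj using fun j : ℕ => hG (B.sh ((j : ℝ) * μ)) K H (box_sh hB (by positivity)) hK hH (ε / (4 * (J + 1))) (by positivity)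
  refine ⟨M1 + 1 + ∑ j ∈ Finset.range (J + 1), Mj j, fun M hMM => ?_⟩
  have hM1 : M1 ≤ M := by omega
  have hM0 : 1 ≤ M := by omega
  have hex : ∀ j : ℕ, ∃ q : ι → Ω → ℝ, L1A (U : Filter ι) P x q ∧ (j ∈ Finset.range (J + 1) → ∀ᶠ i in (U : Filter ι),
      ∫ s, |psP (Dv (wd i s) ((j : ℝ) * μ * S i)) M B (S i) (h i s) (wd i s) - q i s| ∂(P i) ≤ ε / (4 * (J + 1))) := by
    intro j
    by_cases hj : j ∈ Finset.range (J + 1)
    · have hjM : Mj j ≤ M := by
        have := Finset.single_le_sum (f := Mj) (fun _ _ => Nat.zero_le _) hj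
        omega
      obtain ⟨q, q1, q2⟩ := hMj j M hjM
      refine ⟨q, q1, fun _ => ?_⟩
      filter_upwards [q2] with i hi
      refine le_trans (le_of_eq ?_) hi
      refine integral_congr_ae (Eventually.of_forall fun s => ?_)
      simp only [psP_Dv, hh]
    · exact ⟨fun _ _ => 0, L1A.const 0, fun h => absurd h hj⟩
  choose q q1 q2 using hex
  refine ⟨fun i s => ∑ j ∈ Finset.range (J + 1), hatw μ j (p i s) * q j i s, L1A.sum _ fun j _ =>
    (hp.lipc (hatw_lip hμ j) (B := 1) fun y => by rw [abs_of_nonneg (hatw_nn _ _ _)]; exact hatw_le _ _ _).mul (q1 j), ?_⟩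
  have q3 : ∀ᶠ i in (U : Filter ι), ∀ j ∈ Finset.range (J + 1),
      ∫ s, |psP (Dv (wd i s) ((j : ℝ) * μ * S i)) M B (S i) (h i s) (wd i s) - q j i s| ∂(P i) ≤ ε / (4 * (J + 1)) :=
    (Finset.eventually_all _).2 fun j hj => q2 j hj
  filter_upwards [hm, hE, w1, w2, hS.eventually_ge_atTop S0, q3] with i b1 b2 b3 b4 b5 b6
  have hSi := hW.pos i
  obtain ⟨F, hF⟩ : ∃ F : ℝ → Ω → ℝ, F = fun b s => psP (Dv (wd i s) (b * S i)) M B (S i) (h i s) (wd i s) := ⟨_, rfl⟩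
  have F0 : ∀ b s, 0 ≤ F b s := fun b s => by rw [hF]; exact psP_nn (h0 i s)
  have F1 : ∀ b s, F b s ≤ 1 := fun b s => by rw [hF]; exact psP_le hB hR.le hSi.le (h1 i s)
  obtain ⟨Bad, hBad⟩ : ∃ Bad : Set Ω, Bad = ({s | ¬ ∀ k k' : ℕ, k ≤ nn i s → k' ≤ nn i s →
      |(k : ℝ) / nn i s - (k' : ℝ) / nn i s| ≤ η → H (XS (S i) (wd i s)) ((k : ℝ) / nn i s) * z i s ≤
        H (XS (S i) (wd i s)) ((k' : ℝ) / nn i s) * z i s + e} ∪ {s | ¬ MdS βa (νa * S i) (wd i s)}) ∪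
      {s | ¬ MdS βb (νb * S i) (wd i s)} := ⟨_, rfl⟩
  have hBm : (P i).real Bad ≤ 3 * e := by
    rw [hBad]
    exact (measureReal_union_le _ _).trans ((add_le_add (measureReal_union_le _ _) le_rfl).trans (by linarith))
  have hcmp : ∀ s, s ∉ Bad → ∀ b b' : ℝ, 0 ≤ b → 0 ≤ b' → |b - b'| ≤ μ → F b s ≤ F b' s + 2 * e := by
    intro s hs b b' hb hb' hbb
    rw [hBad] at hs
    simp only [Set.mem_union, Set.mem_ofPred_eq, not_or, not_not] at hs
    obtain ⟨⟨s1, s2⟩, s3⟩ := hs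
    have := g3 M hM1 hM0 _ (wd i s) (S i) b b' e (h i s) b5 hSi hb hb' hbb s2 s3 he0.le (h0 i s) (h1 i s) (by
      rw [hh]
      exact s1)
    rw [hF]
    show psP _ _ _ _ _ _ ≤ psP _ _ _ _ _ _ + 2 * e
    linarith
  have hw : ∀ s, ∑ j ∈ Finset.range (J + 1), hatw μ j (p i s) = 1 := fun s =>
    hatw_sum hμ (p0 i s) (((le_abs_self _).trans (hC i s)).trans hCJ)
  have hmid : ∀ s, |F (p i s) s - ∑ j ∈ Finset.range (J + 1), hatw μ j (p i s) * F ((j : ℝ) * μ) s| ≤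
      2 * e + Bad.indicator (fun _ => (1 : ℝ)) s := by
    intro s
    by_cases hs : s ∈ Bad
    · rw [Set.indicator_of_mem hs]
      have c1 : 0 ≤ ∑ j ∈ Finset.range (J + 1), hatw μ j (p i s) * F ((j : ℝ) * μ) s :=
        Finset.sum_nonneg fun j _ => mul_nonneg (hatw_nn _ _ _) (F0 _ _)
      have c2 : ∑ j ∈ Finset.range (J + 1), hatw μ j (p i s) * F ((j : ℝ) * μ) s ≤ 1 := by
        rw [← hw s]
        exact Finset.sum_le_sum fun j _ => mul_le_of_le_one_right (hatw_nn _ _ _) (F1 _ _)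
      have c3 := F0 (p i s) s
      have c4 := F1 (p i s) s
      rw [abs_le]
      constructor <;> linarith
    · rw [Set.indicator_of_notMem hs, add_zero]
      have e1 : F (p i s) s - ∑ j ∈ Finset.range (J + 1), hatw μ j (p i s) * F ((j : ℝ) * μ) s =
          ∑ j ∈ Finset.range (J + 1), hatw μ j (p i s) * (F (p i s) s - F ((j : ℝ) * μ) s) := by
        simp only [mul_sub, Finset.sum_sub_distrib]
        rw [← Finset.sum_mul, hw s, one_mul]
      rw [e1]
      refine (Finset.abs_sum_le_sum_abs _ _).trans ?_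
      have e2 : 2 * e = ∑ j ∈ Finset.range (J + 1), hatw μ j (p i s) * (2 * e) := by
        rw [← Finset.sum_mul, hw s, one_mul]
      rw [e2]
      refine Finset.sum_le_sum fun j _ => ?_
      rw [abs_mul, abs_of_nonneg (hatw_nn _ _ _)]
      by_cases hwj : hatw μ j (p i s) = 0
      · rw [hwj, zero_mul, zero_mul]
      · refine mul_le_mul_of_nonneg_left ?_ (hatw_nn _ _ _)
        have c5 := hatw_near hμ hwj
        have c6 := hcmp s hs (p i s) ((j : ℝ) * μ) (p0 i s) (by positivity) c5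
        have c7 := hcmp s hs ((j : ℝ) * μ) (p i s) (by positivity) (p0 i s) (by rwa [abs_sub_comm])
        rw [abs_le]
        constructor <;> linarith
  have hle : ∀ s, |F (p i s) s - ∑ j ∈ Finset.range (J + 1), hatw μ j (p i s) * q j i s| ≤
      (2 * e + Bad.indicator (fun _ => (1 : ℝ)) s) + ∑ j ∈ Finset.range (J + 1), |F ((j : ℝ) * μ) s - q j i s| := by
    intro s
    have c1 := abs_sub_le (F (p i s) s) (∑ j ∈ Finset.range (J + 1), hatw μ j (p i s) * F ((j : ℝ) * μ) s)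
      (∑ j ∈ Finset.range (J + 1), hatw μ j (p i s) * q j i s)
    refine c1.trans (add_le_add (hmid s) ?_)
    rw [← Finset.sum_sub_distrib]
    refine (Finset.abs_sum_le_sum_abs _ _).trans (Finset.sum_le_sum fun j _ => ?_)
    rw [← mul_sub, abs_mul, abs_of_nonneg (hatw_nn _ _ _)]
    exact mul_le_of_le_one_left (abs_nonneg _) (hatw_le _ _ _)
  choose Cq hCq using fun j => (q1 j).bd
  have i1 : Integrable (Bad.indicator fun _ => (1 : ℝ)) (P i) := (integrable_const (1 : ℝ)).indicator MeasurableSet.of_discrete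
  have i2 : ∀ j : ℕ, Integrable (fun s => |F ((j : ℝ) * μ) s - q j i s|) (P i) := fun j => int_bd (C := 1 + Cq j) fun s => by
    rw [abs_abs]
    refine (abs_sub _ _).trans (add_le_add ?_ (hCq j i s))
    rw [abs_of_nonneg (F0 _ _)]
    exact F1 _ _
  have i3 : Integrable (fun s => ∑ j ∈ Finset.range (J + 1), |F ((j : ℝ) * μ) s - q j i s|) (P i) :=
    integrable_finsetSum _ fun j _ => i2 j
  have i4 : Integrable (fun s => 2 * e + Bad.indicator (fun _ => (1 : ℝ)) s) (P i) := (integrable_const _).add i1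
  have i5 : Integrable (fun s => |F (p i s) s - ∑ j ∈ Finset.range (J + 1), hatw μ j (p i s) * q j i s|) (P i) := by
    refine Integrable.mono' (i4.add i3) Measurable.of_discrete.aestronglyMeasurable (Eventually.of_forall fun s => ?_)
    rw [Real.norm_eq_abs, abs_abs]
    exact hle s
  have e0 : ∫ s, Bad.indicator (fun _ => (1 : ℝ)) s ∂(P i) = (P i).real Bad := by
    rw [integral_indicator MeasurableSet.of_discrete, setIntegral_const]
    simp
  have hmass : (P i).real Set.univ ≤ m' := b1.trans ((le_abs_self _).trans (by rw [hm']; linarith))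
  show ∫ s, |psP (Dv (wd i s) (p i s * S i)) M B (S i) (fun k => H (XS (S i) (wd i s)) ((k : ℝ) / nn i s) * z i s) (wd i s) -
    ∑ j ∈ Finset.range (J + 1), hatw μ j (p i s) * q j i s| ∂(P i) ≤ ε
  have e3 : ∫ s, |psP (Dv (wd i s) (p i s * S i)) M B (S i) (fun k => H (XS (S i) (wd i s)) ((k : ℝ) / nn i s) * z i s) (wd i s) -
      ∑ j ∈ Finset.range (J + 1), hatw μ j (p i s) * q j i s| ∂(P i) =
      ∫ s, |F (p i s) s - ∑ j ∈ Finset.range (J + 1), hatw μ j (p i s) * q j i s| ∂(P i) := by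
    rw [hF, hh]
  rw [e3]
  calc ∫ s, |F (p i s) s - ∑ j ∈ Finset.range (J + 1), hatw μ j (p i s) * q j i s| ∂(P i) ≤
        ∫ s, ((2 * e + Bad.indicator (fun _ => (1 : ℝ)) s) + ∑ j ∈ Finset.range (J + 1), |F ((j : ℝ) * μ) s - q j i s|) ∂(P i) :=
        integral_mono i5 (i4.add i3) hle
    _ = ((P i).real Set.univ * (2 * e) + (P i).real Bad) + ∑ j ∈ Finset.range (J + 1), ∫ s, |F ((j : ℝ) * μ) s - q j i s| ∂(P i) := by
        rw [integral_add i4 i3, integral_add (integrable_const _) i1, e0, integral_const, smul_eq_mul, integral_finsetSum _ fun j _ => i2 j]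
    _ ≤ (m' * (2 * e) + 3 * e) + ∑ j ∈ Finset.range (J + 1), ε / (4 * (J + 1)) := by
        refine add_le_add (add_le_add (mul_le_mul_of_nonneg_right hmass (by positivity)) hBm) (Finset.sum_le_sum fun j hj => ?_)
        have := b6 j hj
        rw [hF]
        exact this
    _ ≤ ε := by
        rw [Finset.sum_const, Finset.card_range, nsmul_eq_mul]
        have e5 : ((J + 1 : ℕ) : ℝ) * (ε / (4 * (J + 1))) = ε / 4 := by
          push_cast
          field_simp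
        rw [e5]
        linarith

/-- **the gates of the level over a macroscopic base with fixed parameters are macroscopic**, for all but countably many parameters -/
theorem gateB {R : ℝ} (hR : 0 < R) (hM : Mb (U : Filter ι) P) (hW : WSys (U : Filter ι) P nn wd S)
    (hS : Tendsto S (U : Filter ι) atTop) {z : ι → Ω → ℝ} (z0 : ∀ i s, 0 ≤ z i s) (z1 : ∀ i s, z i s ≤ 1)
    (hG : GrdA (U : Filter ι) P x nn wd S R z) {p : ι → Ω → ℝ} (hp : L1A (U : Filter ι) P x p) (p0 : ∀ i s, 0 ≤ p i s) :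
    ∃ E : Set ℝ, E.Countable ∧ ∀ a : ℝ, a ∉ E → ∀ B : Box, B.Ok R → B.a0 < a → ∃ E' : Set ℝ, E'.Countable ∧
      ∀ t : ℝ, t ∉ E' → 0 < t → t < 1 → ∀ (K : ℝ) (H : ℝ × CI → ℝ → ℝ), 0 ≤ K → TestX K H →
        L1A (U : Filter ι) P x fun i s => inP (Dv (wd i s) (p i s * S i)) (a * S i) (rT B t * S i) (pT B t * S i)
          (fun k => H (XS (S i) (wd i s)) ((k : ℝ) / nn i s)) (wd i s) * z i s := by
  obtain ⟨E, hE, h1⟩ := gen_gate (U := U) (P := P) (x := x) (nn := nn) (wd := wd) (S := S)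
    (D := fun i s => Dv (wd i s) (p i s * S i)) hR hM hW fun i s => sz1_Dv (mul_nonneg (p0 i s) (hW.pos i).le)
  refine ⟨E, hE, fun a ha B hB haB => ?_⟩
  obtain ⟨E', hE', h2⟩ := h1 a ha B hB haB
  refine ⟨E', hE', fun t ht t0 t1 K H hK hH => ?_⟩
  have h3 := h2 t ht t0 t1 (fun i s (k : ℕ) => H (XS (S i) (wd i s)) ((k : ℝ) / nn i s) * z i s)
    (fun i s k => mul_nonneg (hH.nn _ _) (z0 i s)) (fun i s k => mul_le_one₀ (hH.le _ _) (z0 i s) (z1 i s))
    (eqH_X hW hS hK hH z0 z1) fun B' hB' ε hε => by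
      obtain ⟨M1, h4⟩ := grd_base hR hM hW hS z0 z1 hG hp p0 hB' hK hH hε
      exact ⟨M1 + 1, by omega, h4 (M1 + 1) (by omega)⟩
  simp only [inP_mulc] at h3
  exact h3

/-- the stability of the gates of the level over a base with respect to the base -/
lemma gstab_Dv {n : ℕ} {s : Fin n → Fin 3} {S a r ρ μ η b b' : ℝ} {μ' : ℝ} (h : GStab (Dv s (b * S)) S a r ρ μ η s)
    (hb : |b' - b| + μ' ≤ μ) {a' r' ρ' : ℝ} (ha : |a' - a| ≤ μ') (hr : |r' - r| ≤ μ') (hρ : |ρ' - ρ| ≤ μ') :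
    (∀ k : ℕ, TP (Dv s (b * S)) (a * S) (r * S) (ρ * S) s k →
      ∃ k' : ℕ, TP (Dv s (b' * S)) (a' * S) (r' * S) (ρ' * S) s k' ∧ |(k : ℝ) / n - (k' : ℝ) / n| ≤ η) ∧
      ∀ k' : ℕ, TP (Dv s (b' * S)) (a' * S) (r' * S) (ρ' * S) s k' →
        ∃ k : ℕ, TP (Dv s (b * S)) (a * S) (r * S) (ρ * S) s k ∧ |(k : ℝ) / n - (k' : ℝ) / n| ≤ η := by
  have hab := abs_nonneg (b' - b)
  have h1 := h (a' + (b' - b)) r' ρ' (by
    have e : a' + (b' - b) - a = (a' - a) + (b' - b) := by ring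
    rw [e]
    exact (abs_add_le _ _).trans (by linarith)) (hr.trans (by linarith)) (hρ.trans (by linarith))
  have e : ∀ k : ℕ, TP (Dv s (b' * S)) (a' * S) (r' * S) (ρ' * S) s k ↔
      TP (Dv s (b * S)) ((a' + (b' - b)) * S) (r' * S) (ρ' * S) s k := fun k => by
    rw [tp_Dv, tp_Dv]
    have e : a' + (b' - b) + b = a' + b' := by ring
    rw [e]
  simp only [e]
  exact h1

/-- **the gates of the level over a macroscopic base are stable** under small changes of the parameters and of the base -/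
theorem gateB_stab {R : ℝ} (hR : 0 < R) (hM : Mb (U : Filter ι) P) (hW : WSys (U : Filter ι) P nn wd S)
    {p : ι → Ω → ℝ} (p0 : ∀ i s, 0 ≤ p i s) :
    ∃ E : Set ℝ, E.Countable ∧ ∀ a : ℝ, a ∉ E → ∀ B : Box, B.Ok R → B.a0 < a → ∃ E' : Set ℝ, E'.Countable ∧
      ∀ t : ℝ, t ∉ E' → 0 < t → t < 1 → ∀ η : ℝ, 0 < η → ∀ ε : ℝ, 0 < ε → ∃ μ0 : ℝ, 0 < μ0 ∧ ∀ μ : ℝ, μ ≤ μ0 →
        ∀ᶠ i in (U : Filter ι), (P i).real {s | ¬ GStab (Dv (wd i s) (p i s * S i)) (S i) a (rT B t) (pT B t) μ η (wd i s)} ≤ ε :=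
  gate_stab hR hM hW fun i s => sz1_Dv (mul_nonneg (p0 i s) (hW.pos i).le)

/-- the base `0` -/
lemma inP_Dv0 {n : ℕ} {s : Fin n → Fin 3} {a r ρ S : ℝ} {h : ℕ → ℝ} :
    inP (Dv s (0 * S)) (a * S) r ρ h s = inP (fun a k => SCF.M.LG a n s k) (a * S) r ρ h s := by
  rw [inP_Dv, add_zero]

/-- **the gates of the level with fixed parameters are macroscopic**, for all but countably many parameters -/
theorem gate1 {R : ℝ} (hR : 0 < R) (hM : Mb (U : Filter ι) P) (hW : WSys (U : Filter ι) P nn wd S)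
    (hS : Tendsto S (U : Filter ι) atTop) {z : ι → Ω → ℝ} (z0 : ∀ i s, 0 ≤ z i s) (z1 : ∀ i s, z i s ≤ 1)
    (hG : GrdA (U : Filter ι) P x nn wd S R z) :
    ∃ E : Set ℝ, E.Countable ∧ ∀ a : ℝ, a ∉ E → ∀ B : Box, B.Ok R → B.a0 < a → ∃ E' : Set ℝ, E'.Countable ∧
      ∀ t : ℝ, t ∉ E' → 0 < t → t < 1 → ∀ (K : ℝ) (H : ℝ × CI → ℝ → ℝ), 0 ≤ K → TestX K H →
        L1A (U : Filter ι) P x fun i s => inP (fun a k => SCF.M.LG a _ (wd i s) k) (a * S i) (rT B t * S i) (pT B t * S i)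
          (fun k => H (XS (S i) (wd i s)) ((k : ℝ) / nn i s)) (wd i s) * z i s := by
  obtain ⟨E, hE, h1⟩ := gateB hR hM hW hS z0 z1 hG (L1A.const 0) fun _ _ => le_rfl
  refine ⟨E, hE, fun a ha B hB haB => ?_⟩
  obtain ⟨E', hE', h2⟩ := h1 a ha B hB haB
  refine ⟨E', hE', fun t ht t0 t1 K H hK hH => ?_⟩
  have h3 := h2 t ht t0 t1 K H hK hH
  simp only [inP_Dv0] at h3
  exact h3

/-! ### the value functions -/

/-- the constant `1` -/
lemma testX_one : TestX 0 fun _ _ => 1 where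
  nn _ _ := zero_le_one
  le _ _ := le_rfl
  lip _ _ _ _ _ _ := by linarith

/-- the time of the gate -/
lemma testX_time : TestX 1 fun _ y => max 0 (min 1 y) where
  nn _ _ := le_max_left _ _
  le _ _ := max_le zero_le_one (min_le_left _ _)
  lip p p' y y' δ h := by
    have h1 : |max 0 (min 1 y) - max 0 (min 1 y')| ≤ |y - y'| := by
      have h2 := abs_max_sub_max_le_abs (min 1 y) (min 1 y') 0
      rw [max_comm _ (0 : ℝ), max_comm _ (0 : ℝ)] at h2
      have h3 := abs_min_sub_min_le_max 1 y 1 y'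
      rw [sub_self, abs_zero, max_eq_right (abs_nonneg _)] at h3
      exact h2.trans h3
    have h4 := (abs_le.1 h1).2
    have h5 : 0 ≤ dist p p' := dist_nonneg
    have h6 : 0 ≤ δ := (norm_nonneg _).trans (h 0 0 (by rw [sub_self, abs_zero]; exact abs_nonneg _))
    linarith

/-- the level of the gate, in units of `C` -/
noncomputable def Hlv (C : ℝ) (p : ℝ × CI) (y : ℝ) : ℝ := max 0 (min 1 ((p.2 (pj y)).re / C))

lemma testX_lv {C : ℝ} (hC : 0 < C) : TestX (1 / C) (Hlv C) where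
  nn _ _ := le_max_left _ _
  le _ _ := max_le zero_le_one (min_le_left _ _)
  lip p p' y y' δ h := by
    have h1 : |Hlv C p y - Hlv C p' y'| ≤ |(p.2 (pj y)).re / C - (p'.2 (pj y')).re / C| := by
      have h2 := abs_max_sub_max_le_abs (min 1 ((p.2 (pj y)).re / C)) (min 1 ((p'.2 (pj y')).re / C)) 0
      rw [max_comm _ (0 : ℝ), max_comm _ (0 : ℝ)] at h2
      have h3 := abs_min_sub_min_le_max 1 ((p.2 (pj y)).re / C) 1 ((p'.2 (pj y')).re / C)
      rw [sub_self, abs_zero, max_eq_right (abs_nonneg _)] at h3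
      exact h2.trans h3
    have h2 : ‖p.2 (pj y) - p'.2 (pj y)‖ ≤ dist p p' := by
      rw [← dist_eq_norm]
      exact (ContinuousMap.dist_apply_le_dist _).trans (le_max_right _ _)
    have h3 : ‖p'.2 (pj y) - p'.2 (pj y')‖ ≤ δ := h _ _ (pj_dist _ _)
    have h4 : |(p.2 (pj y)).re - (p'.2 (pj y')).re| ≤ dist p p' + δ := by
      rw [← Complex.sub_re]
      refine (Complex.abs_re_le_norm _).trans ?_
      have e : p.2 (pj y) - p'.2 (pj y') = (p.2 (pj y) - p'.2 (pj y)) + (p'.2 (pj y) - p'.2 (pj y')) := by ring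
      rw [e]
      exact (norm_add_le _ _).trans (add_le_add h2 h3)
    rw [← sub_div, abs_div, abs_of_pos hC] at h1
    have h5 := (abs_le.1 h1).2
    have h6 : |(p.2 (pj y)).re - (p'.2 (pj y')).re| / C ≤ 1 / C * (dist p p' + |y - y'| + δ) := by
      rw [div_le_iff₀ hC]
      have e : 1 / C * (dist p p' + |y - y'| + δ) * C = dist p p' + |y - y'| + δ := by field_simp
      rw [e]
      have := abs_nonneg (y - y')
      linarith
    linarith

/-- the level at a vertex -/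
lemma Hlv_at {C S : ℝ} {n : ℕ} (hn : 1 ≤ n) (s : Fin n → Fin 3) {k : ℕ} (hk : k ≤ n) (h0 : 0 ≤ (pos s k).re)
    (h1 : (pos s k).re ≤ C * S) (hC : 0 < C) (hS : 0 < S) : Hlv C (XS S s) ((k : ℝ) / n) = (pos s k).re / (C * S) := by
  have hn0 : (0 : ℝ) < n := by exact_mod_cast hn
  have e0 : ((pj ((k : ℝ) / n) : unitInterval) : ℝ) = (k : ℝ) / n :=
    pj_of (by positivity) ((div_le_one hn0).2 (by exact_mod_cast hk))
  have e1 : (XS S s).2 (pj ((k : ℝ) / n)) = pos s k / (S : ℂ) := by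
    show cv S s (pj ((k : ℝ) / n)) = _
    rw [cv_pr hn, e0, show (k : ℝ) / n * n = k by field_simp, pr_nat, ps_ofFn]
  unfold Hlv
  rw [e1, Complex.div_ofReal_re, div_div, mul_comm S C, min_eq_right ((div_le_one (by positivity)).2 h1), max_eq_right (by positivity)]

/-- the time of the gate, `[1/2, 1]` -/
lemma testX_mk : TestX 1 fun _ y => (max 0 (min 1 y) + 1) / 2 where
  nn _ y := by
    have : (0 : ℝ) ≤ max 0 (min 1 y) := le_max_left _ _
    linarith
  le _ y := by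
    have : max 0 (min 1 y) ≤ 1 := max_le zero_le_one (min_le_left _ _)
    linarith
  lip p p' y y' δ h := by
    have h1 := testX_time.lip p p' y y' δ h
    have h5 : 0 ≤ dist p p' := dist_nonneg
    have h6 : 0 ≤ δ := (norm_nonneg _).trans (h 0 0 (by rw [sub_self, abs_zero]; exact abs_nonneg _))
    have h7 := abs_nonneg (y - y')
    linarith

/-! ### chains of gates -/

/-- the level of the gate over the base `p`, in units `S`, times `z` (none: `0`) : the next base -/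
noncomputable def nlv (R a r ρ S p z : ℝ) {n : ℕ} (s : Fin n → Fin 3) : ℝ :=
  2 * R * (inP (Dv s (p * S)) (a * S) (r * S) (ρ * S) (fun k => Hlv (2 * R) (XS S s) ((k : ℝ) / n)) s * z)

lemma nlv_nn {R a r ρ S p z : ℝ} {n : ℕ} {s : Fin n → Fin 3} (hR : 0 ≤ R) (hz : 0 ≤ z) : 0 ≤ nlv R a r ρ S p z s :=
  mul_nonneg (by positivity) (mul_nonneg (inP_nn fun _ => le_max_left _ _) hz)

lemma nlv_no {R a r ρ S p z : ℝ} {n : ℕ} {s : Fin n → Fin 3} (h : ∀ k : ℕ, ¬ TP (Dv s (p * S)) (a * S) (r * S) (ρ * S) s k) :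
    nlv R a r ρ S p z s = 0 := by
  unfold nlv
  rw [inP_zero h, zero_mul, mul_zero]

/-- the levels of the confined vertices -/
lemma tp_lev {D : ℝ → ℕ → Prop} {a r ρ : ℝ} {n : ℕ} {s : Fin n → Fin 3} {k : ℕ} (h : TP D a r ρ s k) :
    0 ≤ (pos s k).re ∧ (pos s k).re ≤ r := by
  constructor
  · have := h.1.2.1 0 (Nat.zero_le _)
    rwa [NTSF.pos_zero, Complex.zero_re] at this
  · have h1 := h.1.2.2.1 k 0 le_rfl (Nat.zero_le _)
    rw [NTSF.pos_zero, sub_zero] at h1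
    exact ((le_abs_self _).trans (Complex.abs_re_le_norm _)).trans h1

lemma nlv_eq {R a r ρ S p z : ℝ} {n : ℕ} {s : Fin n → Fin 3} {k : ℕ} (hR : 0 < R) (hS : 0 < S) (hr : r ≤ 2 * R) (hρ : r ≤ ρ)
    (hz : z = 1) (h : TP (Dv s (p * S)) (a * S) (r * S) (ρ * S) s k) : nlv R a r ρ S p z s = (pos s k).re / S := by
  obtain ⟨h0, h1⟩ := tp_lev h
  have hn : 1 ≤ n := by
    have := h.2.1
    omega
  unfold nlv
  rw [inP_eq (mul_le_mul_of_nonneg_right hρ hS.le) h, hz, mul_one,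
    Hlv_at hn s h.2.1.le h0 (h1.trans (mul_le_mul_of_nonneg_right hr hS.le)) (by positivity) hS]
  field_simp

/-- the value of `h` at the second gate `x` (`GB2` : `c` is a gate for `D`, `x` is a gate of the level over `c`) -/
noncomputable def inB (D : ℝ → ℕ → Prop) (a r ρ m r2 ρ2 S : ℝ) (h : ℕ → ℝ) {n : ℕ} (s : Fin n → Fin 3) : ℝ :=
  inP D (a * S) (r * S) (ρ * S) (fun c => inP (Dv s (pos s c).re) (m * S) (r2 * S) (ρ2 * S) h s) s

lemma inB_of {D : ℝ → ℕ → Prop} {a r ρ m r2 ρ2 S : ℝ} {h : ℕ → ℝ} {n : ℕ} {s : Fin n → Fin 3} {c y : ℕ} (hS : 0 ≤ S)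
    (hr : r ≤ ρ) (hr2 : r2 ≤ ρ2) (hB : GB2 D a r ρ m r2 ρ2 S s c y) : inB D a r ρ m r2 ρ2 S h s = h y := by
  unfold inB
  rw [inP_eq (mul_le_mul_of_nonneg_right hr hS) hB.1, inP_eq (mul_le_mul_of_nonneg_right hr2 hS) hB.2]

lemma inB_no {D : ℝ → ℕ → Prop} {a r ρ m r2 ρ2 S : ℝ} {h : ℕ → ℝ} {n : ℕ} {s : Fin n → Fin 3} (hS : 0 ≤ S) (hr : r ≤ ρ)
    (hB : ∀ c y : ℕ, ¬ GB2 D a r ρ m r2 ρ2 S s c y) : inB D a r ρ m r2 ρ2 S h s = 0 := by
  unfold inB
  by_cases hk : ∃ k : ℕ, TP D (a * S) (r * S) (ρ * S) s k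
  · obtain ⟨k, hk⟩ := hk
    rw [inP_eq (mul_le_mul_of_nonneg_right hr hS) hk]
    exact inP_zero fun y hy => hB k y ⟨hk, hy⟩
  · exact inP_zero fun k h => hk ⟨k, h⟩

/-- **the value at the second gate through the base** -/
lemma inB_eq {R a r ρ m r2 ρ2 S p z : ℝ} {h : ℕ → ℝ} {n : ℕ} {s : Fin n → Fin 3} (hR : 0 < R) (hS : 0 < S) (hr : r ≤ 2 * R)
    (hρ : r ≤ ρ) (hz : z = 0 ∨ z = 1) : inB (Dv s (p * S)) a r ρ m r2 ρ2 S h s * z =
      (inP (Dv s (p * S)) (a * S) (r * S) (ρ * S) (fun _ => 1) s * z) *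
        (inP (Dv s (nlv R a r ρ S p z s * S)) (m * S) (r2 * S) (ρ2 * S) h s * z) := by
  rcases hz with hz | hz
  · rw [hz]
    ring
  · by_cases hk : ∃ k : ℕ, TP (Dv s (p * S)) (a * S) (r * S) (ρ * S) s k
    · obtain ⟨k, hk⟩ := hk
      unfold inB
      rw [inP_eq (mul_le_mul_of_nonneg_right hρ hS.le) hk, inP_eq (mul_le_mul_of_nonneg_right hρ hS.le) hk,
        nlv_eq hR hS hr hρ hz hk, div_mul_cancel₀ _ hS.ne', hz]
      ring
    · unfold inB
      rw [inP_zero fun k h => hk ⟨k, h⟩, inP_zero fun k h => hk ⟨k, h⟩]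
      ring

/-- `mk1` through the values -/
lemma mk1_eq {D : ℝ → ℕ → Prop} {a r ρ S : ℝ} {n : ℕ} {s : Fin n → Fin 3} (hS : 0 ≤ S) (hr : r ≤ ρ) :
    mk1 D a r ρ S s = 2 * inP D (a * S) (r * S) (ρ * S) (fun k => (max 0 (min 1 ((k : ℝ) / n)) + 1) / 2) s - 1 := by
  by_cases hk : ∃ k : ℕ, TP D (a * S) (r * S) (ρ * S) s k
  · obtain ⟨k, hk⟩ := hk
    have hkn : k < n := hk.2.1
    have hn0 : (0 : ℝ) < n := by exact_mod_cast (by omega : 0 < n)
    rw [mk1_of hS hr hk, inP_eq (mul_le_mul_of_nonneg_right hr hS) hk,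
      min_eq_right ((div_le_one hn0).2 (by exact_mod_cast hkn.le)), max_eq_right (by positivity)]
    ring
  · rw [mk1_no fun k h => hk ⟨k, h⟩, inP_zero fun k h => hk ⟨k, h⟩]
    ring

/-- `mkB` through the values -/
lemma mkB_eq {D : ℝ → ℕ → Prop} {a r ρ m r2 ρ2 S : ℝ} {n : ℕ} {s : Fin n → Fin 3} (hS : 0 ≤ S) (hr : r ≤ ρ) (hr2 : r2 ≤ ρ2) :
    mkB D a r ρ m r2 ρ2 S s = 2 * inB D a r ρ m r2 ρ2 S (fun k => (max 0 (min 1 ((k : ℝ) / n)) + 1) / 2) s - 1 := by
  by_cases hk : ∃ c y : ℕ, GB2 D a r ρ m r2 ρ2 S s c y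
  · obtain ⟨c, k, hk⟩ := hk
    have hkn : k < n := hk.2.2.1
    have hn0 : (0 : ℝ) < n := by exact_mod_cast (by omega : 0 < n)
    rw [mkB_of hS hr hr2 hk, inB_of hS hr hr2 hk,
      min_eq_right ((div_le_one hn0).2 (by exact_mod_cast hkn.le)), max_eq_right (by positivity)]
    ring
  · push Not at hk
    rw [mkB_no hk, inB_no hS hr hk]
    ring

/-- **chains of gates are macroscopic** : over a macroscopic base `p` the gate (values `H`), its level (the next base), and the gates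
over it, for all but countably many parameters -/
theorem gateC {R R2 : ℝ} (hR : 0 < R) (hR2 : 0 < R2) (hM : Mb (U : Filter ι) P) (hW : WSys (U : Filter ι) P nn wd S)
    (hS : Tendsto S (U : Filter ι) atTop) {z : ι → Ω → ℝ} (hz : ∀ i s, z i s = 0 ∨ z i s = 1)
    (hG : GrdA (U : Filter ι) P x nn wd S R z) (hG2 : GrdA (U : Filter ι) P x nn wd S R2 z)
    {p : ι → Ω → ℝ} (hp : L1A (U : Filter ι) P x p) (p0 : ∀ i s, 0 ≤ p i s) :
    ∃ E : Set ℝ, E.Countable ∧ ∀ a : ℝ, a ∉ E → ∀ B : Box, B.Ok R → B.a0 < a → ∃ E' : Set ℝ, E'.Countable ∧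
      ∀ t : ℝ, t ∉ E' → 0 < t → t < 1 →
        (∀ (K : ℝ) (H : ℝ × CI → ℝ → ℝ), 0 ≤ K → TestX K H →
          L1A (U : Filter ι) P x fun i s => inP (Dv (wd i s) (p i s * S i)) (a * S i) (rT B t * S i) (pT B t * S i)
            (fun k => H (XS (S i) (wd i s)) ((k : ℝ) / nn i s)) (wd i s) * z i s) ∧
        L1A (U : Filter ι) P x (fun i s => nlv R a (rT B t) (pT B t) (S i) (p i s) (z i s) (wd i s)) ∧
        ∃ F : Set ℝ, F.Countable ∧ ∀ m : ℝ, m ∉ F → ∀ B2 : Box, B2.Ok R2 → B2.a0 < m → ∃ F' : Set ℝ, F'.Countable ∧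
          ∀ t2 : ℝ, t2 ∉ F' → 0 < t2 → t2 < 1 → ∀ (K : ℝ) (H : ℝ × CI → ℝ → ℝ), 0 ≤ K → TestX K H →
            L1A (U : Filter ι) P x fun i s => inB (Dv (wd i s) (p i s * S i)) a (rT B t) (pT B t) m (rT B2 t2) (pT B2 t2) (S i)
              (fun k => H (XS (S i) (wd i s)) ((k : ℝ) / nn i s)) (wd i s) * z i s := by
  have z0 : ∀ i s, 0 ≤ z i s := fun i s => by rcases hz i s with h | h <;> rw [h]; exact zero_le_one
  have z1 : ∀ i s, z i s ≤ 1 := fun i s => by rcases hz i s with h | h <;> rw [h]; exact zero_le_one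
  obtain ⟨E, hE, h1⟩ := gateB hR hM hW hS z0 z1 hG hp p0
  refine ⟨E, hE, fun a ha B hB haB => ?_⟩
  obtain ⟨E', hE', h2⟩ := h1 a ha B hB haB
  refine ⟨E', hE', fun t ht t0 t1 => ?_⟩
  have h3 := h2 t ht t0 t1
  have h4 : L1A (U : Filter ι) P x fun i s => nlv R a (rT B t) (pT B t) (S i) (p i s) (z i s) (wd i s) :=
    (h3 _ _ (by positivity) (testX_lv (C := 2 * R) (by positivity))).smul (2 * R)
  refine ⟨h3, h4, ?_⟩
  obtain ⟨F, hF, h5⟩ := gateB hR2 hM hW hS z0 z1 hG2 h4 fun i s => nlv_nn hR.le (z0 i s)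
  refine ⟨F, hF, fun m hm B2 hB2 hmB => ?_⟩
  obtain ⟨F', hF', h6⟩ := h5 m hm B2 hB2 hmB
  refine ⟨F', hF', fun t2 ht2 t20 t21 K H hK hH => ?_⟩
  have h7 := (h3 0 (fun _ _ => 1) le_rfl testX_one).mul (h6 t2 ht2 t20 t21 K H hK hH)
  have B1 := hB.r
  have B2' := hB.r'
  have B3 := hB.p
  have B4 := hB.p'
  have e1 : rT B t ≤ 2 * R := by
    unfold rT
    nlinarith
  have e2 : 64 * R ≤ pT B t := by
    unfold pT
    nlinarith
  refine (show (fun (i : ι) (s : Ω) => _) = fun i s => _ from ?_) ▸ h7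
  funext i s
  exact (inB_eq hR (hW.pos i) e1 (by linarith) (hz i s)).symm

end base

end Pool.Agent.ROT.F3
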