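import Pool.Agent.ROT.F3SysN

/-!
# ROT, block F3, row R5 (helper58): the second root at an even place

`[m even]` is not a functional of the curve: the systems of the marked words live on the even second roots.
* `mwM A N b` : the part of `mw N b` with `(|w|, m) ∈ A N`; **`mwE N b`** : `m` even;
* `LF.Cv.le_of_le` : smaller measures have smaller limits; `lim_le` : limits of measures `≤ mw N b`;
* **`mwM_cv`, `mwM_rot`, `mwM_ae`, `mwM_sum`, `mwM_sel`**, and the same for `mwE` : the theorems of F3Sys, F3SysL, F3SysR, F3SysN;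
* **`lm_rot`** : the functionals of the words in the rotated frame.
-/

set_option autoImplicit false

open MeasureTheory Filter Topology Set

open scoped Classical NNReal ENNReal BoundedContinuousFunction

namespace Pool.Agent.ROT.F3

open Pool.Agent.NTS.Res Pool.Agent.PMA Pool.Agent.PMA.Res Pool.Agent.ROT.F

namespace LF

variable {ι : Type*} {l : Filter ι} {Ω : ι → Type*} [∀ i, MeasurableSpace (Ω i)] {P P' : ∀ i, Measure (Ω i)}
  {X : Type*} [PseudoMetricSpace X] [MeasurableSpace X] [BorelSpace X] {c : ∀ i, Ω i → X} {ν ν' : Measure X}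

/-- **smaller measures have smaller limits** -/
theorem Cv.le_of_le [l.NeBot] (h : Cv l P c ν) (h' : Cv l P' c ν') (hle : ∀ᶠ i in l, P' i ≤ P i) : ν' ≤ ν := by
  have := h.fin'
  have := h'.fin'
  have hF : ∀ F : Set X, IsClosed F → ν' F ≤ ν F := by
    intro F hF
    refine le_of_tendsto_of_tendsto' (HasOuterApproxClosed.tendsto_lintegral_apprSeq hF ν')
      (HasOuterApproxClosed.tendsto_lintegral_apprSeq hF ν) fun k => ?_
    obtain ⟨f, hf⟩ : ∃ f : X → ℝ, f = fun x => (hF.apprSeq k x : ℝ) := ⟨_, rfl⟩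
    have hfc : Continuous f := by
      rw [hf]
      exact NNReal.continuous_coe.comp (hF.apprSeq k).continuous
    have hf0 : ∀ x, 0 ≤ f x := fun x => by
      rw [hf]
      exact NNReal.coe_nonneg _
    have hfn : ∀ x, ‖f x‖ ≤ 1 := fun x => by
      rw [Real.norm_eq_abs, abs_of_nonneg (hf0 x), hf]
      exact_mod_cast HasOuterApproxClosed.apprSeq_apply_le_one hF k x
    have e : ∀ μ : Measure X, [IsFiniteMeasure μ] → ∫⁻ x, (hF.apprSeq k x : ℝ≥0∞) ∂μ = ENNReal.ofReal (∫ x, f x ∂μ) := by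
      intro μ _
      rw [ofReal_integral_eq_lintegral_ofReal (itg hfc.measurable hfn) (Eventually.of_forall hf0)]
      refine lintegral_congr fun x => ?_
      rw [hf]
      show ((hF.apprSeq k x : ℝ≥0) : ℝ≥0∞) = ENNReal.ofReal ((hF.apprSeq k x : ℝ≥0) : ℝ)
      rw [ENNReal.ofReal_coe_nnreal]
    rw [e ν', e ν]
    refine ENNReal.ofReal_le_ofReal ?_
    have t1 := h.lim (BoundedContinuousFunction.ofNormedAddCommGroup f hfc 1 hfn)
    have t2 := h'.lim (BoundedContinuousFunction.ofNormedAddCommGroup f hfc 1 hfn)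
    refine le_of_tendsto_of_tendsto t2 t1 ?_
    filter_upwards [hle] with i hi
    have := h.fin i
    exact integral_mono_measure hi (Eventually.of_forall fun ω => hf0 _) (itg (hfc.measurable.comp (h.ms i)) fun ω => hfn _)
  refine Measure.le_iff.2 fun S hS => ?_
  rw [hS.measure_eq_iSup_isClosed_of_ne_top (measure_ne_top ν' S)]
  refine iSup₂_le fun F hFS => iSup_le fun hFc => (hF F hFc).trans (measure_mono hFS)

end LF

/-- **the closed curve without and with its last edge**, absolute values -/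
lemma mw_nearA (hQ : QB) {b : ℝ} (hb : 0 ≤ b) {G : ℝ × ℝ × C(unitInterval, ℂ) → ℝ} (hG : Continuous G) {M : ℝ} (hM : ∀ y, |G y| ≤ M) :
    Tendsto (fun N => ∫ x, |G (cN N x) - G (cT N x)| ∂(mw N b)) atTop (𝓝 0) := by
  obtain ⟨A, hA, hmass⟩ := mw_mass hQ hb
  have hM0 : 0 ≤ M := (abs_nonneg _).trans (hM 0)
  rw [Metric.tendsto_atTop]
  intro ε hε
  obtain ⟨K, hK, hKN⟩ := mw_tight_all hQ hb (show 0 < ε / (4 * (M + 1)) by positivity)
  obtain ⟨δ, hδ, hunif⟩ := unif_near hK hG (show 0 < ε / (4 * A) by positivity)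
  obtain ⟨N0, hN0⟩ := exists_nat_gt (5 / δ)
  refine ⟨max N0 1, fun N hN => ?_⟩
  have hN1 : 1 ≤ N := (le_max_right _ _).trans hN
  have hNp : (0 : ℝ) < N := by exact_mod_cast hN1
  have h5 : 5 / (N : ℝ) ≤ δ := by
    rw [div_le_iff₀ hNp]
    rw [div_lt_iff₀ hδ] at hN0
    have : (N0 : ℝ) ≤ N := by exact_mod_cast (le_max_left _ _).trans hN
    nlinarith
  rw [Real.dist_eq, sub_zero, abs_of_nonneg (integral_nonneg fun x => abs_nonneg _)]
  have h1 : ∫ x, |G (cN N x) - G (cT N x)| ∂(mw N b) ≤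
      ∫ x, (ε / (4 * A) + 2 * M * indicator {x | cT N x ∉ K} (fun _ => (1 : ℝ)) x) ∂(mw N b) := by
    refine mw_mono fun x hx => ?_
    by_cases h2 : cT N x ∈ K
    · rw [indicator_of_notMem (show x ∉ {x | cT N x ∉ K} from fun h => h h2), mul_zero, add_zero, abs_sub_comm]
      exact hunif _ h2 _ ((cT_dist hx).trans h5)
    · rw [indicator_of_mem (show x ∈ {x | cT N x ∉ K} from h2)]
      have h3 := abs_sub (G (cN N x)) (G (cT N x))
      have h4 := hM (cN N x)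
      have h6 := hM (cT N x)
      have h7 : 0 < ε / (4 * A) := by positivity
      linarith
  rw [integral_add (mw_integrable _) (mw_integrable _), integral_const_mul, mw_ind, integral_const, smul_eq_mul] at h1
  have h3 := hmass N
  have h4 := hKN N
  have h6 : (mw N b).real univ * (ε / (4 * A)) ≤ ε / 4 := by
    calc _ ≤ A * (ε / (4 * A)) := mul_le_mul_of_nonneg_right h3 (by positivity)
      _ = ε / 4 := by field_simp
  have h7 : 2 * M * (mw N b).real {x | cT N x ∉ K} ≤ ε / 2 := by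
    calc _ ≤ 2 * M * (ε / (4 * (M + 1))) := mul_le_mul_of_nonneg_left h4 (by positivity)
      _ ≤ 2 * (M + 1) * (ε / (4 * (M + 1))) := mul_le_mul_of_nonneg_right (by linarith) (by positivity)
      _ = ε / 2 := by
          field_simp
          ring
  linarith

/-- **limits of measures below `mw N b`** -/
theorem lim_le (hQ : QB) {b : ℝ} (hb : 0 ≤ b) (U : Ultrafilter ℕ) (hU : (U : Filter ℕ) ≤ atTop) (μ : ℕ → Measure (W3 × ℕ))
    (hμ : ∀ N, μ N ≤ mw N b) : ∃ P : Measure (ℝ × ℝ × C(unitInterval, ℂ)), LF.Cv (U : Filter ℕ) μ cN P := by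
  obtain ⟨A, hA, hmass⟩ := mw_mass hQ hb
  have hfin : ∀ N, IsFiniteMeasure (μ N) := fun N => isFiniteMeasure_of_le (mw N b) (hμ N)
  have hmeas : ∀ N, Measurable (cT N) := fun N => Measurable.of_discrete
  obtain ⟨P, hP, h⟩ := fin_lim (fun N => (μ N).map (cT N)) (C := A.toNNReal) (fun N => by
    rw [Measure.map_apply (hmeas N) MeasurableSet.univ, preimage_univ]
    refine (hμ N univ).trans ?_
    rw [← ofReal_measureReal]
    exact ENNReal.ofReal_le_ofReal (hmass N)) (fun ε hε => by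
      obtain ⟨K, hK, hKN⟩ := mw_tight_all hQ hb (show (0 : ℝ) < ε from hε)
      refine ⟨K, hK, fun N => ?_⟩
      rw [Measure.map_apply (hmeas N) hK.isClosed.measurableSet.compl]
      refine (hμ N _).trans ?_
      rw [← ofReal_measureReal]
      refine ENNReal.ofReal_le_of_le_toReal ?_
      exact hKN N) U
  refine ⟨P, hfin, hP, fun N => Measurable.of_discrete, fun G => ?_⟩
  have h1 := h G
  have e : ∀ N, ∫ x, G x ∂((μ N).map (cT N)) = ∫ x, G (cT N x) ∂(μ N) := fun N =>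
    integral_map (hmeas N).aemeasurable G.continuous.aestronglyMeasurable
  simp only [e] at h1
  have h2 := (mw_nearA hQ hb G.continuous (M := ‖G‖) fun y => G.norm_coe_le_norm y).mono_left hU
  have hi : ∀ (N : ℕ) (f : W3 × ℕ → ℝ), Integrable f (μ N) := fun N f => (mw_integrable f).mono_measure (hμ N)
  have h3 : Tendsto (fun N => ∫ x, G (cN N x) ∂(μ N) - ∫ x, G (cT N x) ∂(μ N)) U (𝓝 0) := by
    refine squeeze_zero_norm (fun N => ?_) h2
    rw [← integral_sub (hi _ _) (hi _ _), Real.norm_eq_abs]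
    refine abs_integral_le_integral_abs.trans ?_
    exact integral_mono_measure (hμ N) (Eventually.of_forall fun x => abs_nonneg _) (mw_integrable _)
  have h4 := h1.add h3
  rw [add_zero] at h4
  refine h4.congr fun N => ?_
  ring

/-! ### masks -/

/-- the part with `(|w|, m) ∈ A N` -/
noncomputable def mwM (A : ℕ → Set (ℕ × ℕ)) (N : ℕ) (b : ℝ) : Measure (W3 × ℕ) := (mw N b).restrict {x | (x.1.length, x.2) ∈ A N}

/-- **the second root at an even place** -/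
noncomputable def mwE (N : ℕ) (b : ℝ) : Measure (W3 × ℕ) := (mw N b).restrict {x | Even x.2}

lemma mwE_eq (N : ℕ) (b : ℝ) : mwE N b = mwM (fun _ => {p | Even p.2}) N b := rfl

lemma mwM_le (A : ℕ → Set (ℕ × ℕ)) (N : ℕ) (b : ℝ) : mwM A N b ≤ mw N b := Measure.restrict_le_self

lemma mwE_le (N : ℕ) (b : ℝ) : mwE N b ≤ mw N b := Measure.restrict_le_self

instance mwM_fin (A : ℕ → Set (ℕ × ℕ)) (N : ℕ) (b : ℝ) : IsFiniteMeasure (mwM A N b) := isFiniteMeasure_of_le _ (mwM_le A N b)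

instance mwE_fin (N : ℕ) (b : ℝ) : IsFiniteMeasure (mwE N b) := isFiniteMeasure_of_le _ (mwE_le N b)

lemma mwM_int {A : ℕ → Set (ℕ × ℕ)} {N : ℕ} {b : ℝ} (f : W3 × ℕ → ℝ) :
    ∫ x, f x ∂(mwM A N b) = ∫ x, (if (x.1.length, x.2) ∈ A N then f x else 0) ∂(mw N b) := by
  have hS : MeasurableSet {x : W3 × ℕ | (x.1.length, x.2) ∈ A N} := MeasurableSet.of_discrete
  unfold mwM
  rw [← integral_indicator hS]
  rfl

lemma mwE_int {N : ℕ} {b : ℝ} (f : W3 × ℕ → ℝ) : ∫ x, f x ∂(mwE N b) = ∫ x, (if Even x.2 then f x else 0) ∂(mw N b) := by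
  have h := mwM_int (A := fun _ => {p | Even p.2}) (N := N) (b := b) f
  rw [← mwE_eq] at h
  rw [h]
  refine integral_congr_ae (Eventually.of_forall fun x => ?_)
  by_cases h : Even x.2
  · exact (if_pos h).trans (if_pos h).symm
  · exact (if_neg h).trans (if_neg h).symm

lemma mwE_lint {N : ℕ} {b : ℝ} (f : W3 × ℕ → ℝ≥0∞) : ∫⁻ x, f x ∂(mwE N b) = ∫⁻ x, (if Even x.2 then f x else 0) ∂(mw N b) := by
  have hS : MeasurableSet {x : W3 × ℕ | Even x.2} := MeasurableSet.of_discrete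
  unfold mwE
  rw [← lintegral_indicator hS]
  refine lintegral_congr fun x => ?_
  by_cases h : Even x.2
  · rw [if_pos h]
    exact indicator_of_mem (show x ∈ {x : W3 × ℕ | Even x.2} from h) f
  · rw [if_neg h]
    exact indicator_of_notMem (show x ∉ {x : W3 × ℕ | Even x.2} from h) f

/-- **the limits** -/
theorem mwM_cv (hQ : QB) (A : ℕ → Set (ℕ × ℕ)) {b : ℝ} (hb : 0 ≤ b) (U : Ultrafilter ℕ) (hU : (U : Filter ℕ) ≤ atTop) :
    ∃ P : Measure (ℝ × ℝ × C(unitInterval, ℂ)), LF.Cv (U : Filter ℕ) (fun N => mwM A N b) cN P :=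
  lim_le hQ hb U hU _ fun N => mwM_le A N b

/-- **null sets** -/
theorem mwM_ae (hQ : QB) (hL : LDp) {A : ℕ → Set (ℕ × ℕ)} {b : ℝ} (hb : 0 ≤ b) {U : Ultrafilter ℕ} (hU : (U : Filter ℕ) ≤ atTop)
    {P : Measure (ℝ × ℝ × C(unitInterval, ℂ))} (hP : LF.Cv (U : Filter ℕ) (fun N => mwM A N b) cN P) :
    ∀ᵐ y ∂P, (0 < y.2.1 ∧ y.2.1 < y.1 ∧ y.1 ≤ b) ∧ (y.2.2 0 = 0 ∧ y.2.2 1 = 0) ∧
      (∀ p q : unitInterval, p < q → y.2.2 p = y.2.2 q → p = 0 ∧ q = 1) ∧ 0 < dm y.2.2 := by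
  obtain ⟨P', hP'⟩ := mw_cv hQ hb U hU
  have h1 : P ≤ P' := hP'.le_of_le hP (Eventually.of_forall fun N => mwM_le A N b)
  exact (Measure.absolutelyContinuous_of_le h1).ae_le (mw_ae hQ hL hb hU hP')

/-- **from every number of steps and every second root to the integral** -/
theorem mwM_sum (hQ : QB) {b ε : ℝ} (hb : 0 ≤ b) (hε : 0 < ε) : ∃ δ K0 ε' : ℝ, 0 < δ ∧ 0 < K0 ∧ 0 < ε' ∧ ∀ n0 : ℕ, ∃ N0 : ℕ,
    ∀ N : ℕ, N0 ≤ N → ∀ (A : ℕ → Set (ℕ × ℕ)) (f : W3 × ℕ → ℝ), (∀ x, f x ≤ 1) →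
      (∀ n : ℕ, n0 ≤ n → Odd n → (N : ℝ) ≤ K0 * (n : ℝ) ^ (3 / 4 : ℝ) → (n : ℝ) ^ (3 / 4 : ℝ) ≤ K0 * N →
        ∀ m : ℕ, δ * n ≤ m → (m : ℝ) ≤ (1 - δ) * n → (n + 1, m) ∈ A N → ∑ s ∈ pol n, f (clw s, m) ≤ ε' * (pol n).card) →
      ∫ x, f x ∂(mwM A N b) ≤ ε := by
  obtain ⟨δ, K0, ε', h1, h2, h3, h⟩ := mw_sum hQ hb hε
  refine ⟨δ, K0, ε', h1, h2, h3, fun n0 => ?_⟩
  obtain ⟨N0, h⟩ := h n0
  refine ⟨N0, fun N hN A f hf hyp => ?_⟩
  rw [mwM_int]
  refine h N hN _ (fun x => ?_) fun n hn ho hK hK' m hm hm' => ?_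
  · split_ifs
    · exact hf x
    · norm_num
  · by_cases hA : (n + 1, m) ∈ A N
    · refine le_trans (le_of_eq (Finset.sum_congr rfl fun s _ => ?_)) (hyp n hn ho hK hK' m hm hm' hA)
      rw [if_pos]
      show ((clw s).length, m) ∈ A N
      rw [length_clw]
      exact hA
    · refine le_trans (le_of_eq (Finset.sum_eq_zero fun s _ => if_neg ?_)) (by positivity)
      show ((clw s).length, m) ∉ A N
      rw [length_clw]
      exact hA

/-- **one Lipschitz functional in place of a sequence of them** -/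
theorem mwM_sel (hQ : QB) (A : ℕ → Set (ℕ × ℕ)) {b : ℝ} (hb : 0 ≤ b) (U : Ultrafilter ℕ) (hU : (U : Filter ℕ) ≤ atTop) {L : ℝ≥0}
    (φ : ℕ → ℝ × ℝ × C(unitInterval, ℂ) → ℝ) (hφ : ∀ N, LipschitzWith L (φ N)) (h1 : ∀ N x, |φ N x| ≤ 1) :
    ∃ ψ : ℝ × ℝ × C(unitInterval, ℂ) → ℝ, LipschitzWith L ψ ∧ (∀ x, |ψ x| ≤ 1) ∧ (∀ x, Tendsto (fun N => φ N x) U (𝓝 (ψ x))) ∧
      ∀ ε : ℝ, 0 < ε → ∀ᶠ N in U, ∫ x, |φ N (cN N x) - ψ (cN N x)| ∂(mwM A N b) ≤ ε := by
  obtain ⟨ψ, a1, a2, a3, a4⟩ := mw_sel hQ hb U hU φ hφ h1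
  refine ⟨ψ, a1, a2, a3, fun ε hε => (a4 ε hε).mono fun N hN => le_trans ?_ hN⟩
  exact integral_mono_measure (mwM_le A N b) (Eventually.of_forall fun x => abs_nonneg _) (mw_integrable _)

/-- **the limits are rotation invariant** -/
theorem mwM_rot (hR : RotP) (hF : Fast) (hQ : QB) (hL : LDp) {A : ℕ → Set (ℕ × ℕ)} {b : ℝ} (hb : 0 ≤ b) {U : Ultrafilter ℕ}
    (hU : (U : Filter ℕ) ≤ atTop) {P : Measure (ℝ × ℝ × C(unitInterval, ℂ))} (hP' : LF.Cv (U : Filter ℕ) (fun N => mwM A N b) cN P)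
    {z : ℂ} (hz : ‖z‖ = 1) : P.map (rotX z) = P := by
  have := hP'.fin'
  have hP := hP'.lim
  have hm : Measurable (rotX z) := (rotX_cont z).measurable
  have : IsFiniteMeasure (P.map (rotX z)) := Measure.isFiniteMeasure_map P _
  refine ext_lip fun f hf hfL => ?_
  obtain ⟨L, hfL⟩ := hfL
  have hfc := hfL.continuous
  rw [integral_map hm.aemeasurable hfc.aestronglyMeasurable]
  -- bounded continuous functions
  have hbd : ∀ y, ‖f y‖ ≤ 1 := fun y => by
    rw [Real.norm_eq_abs, abs_of_nonneg (hf y).1]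
    exact (hf y).2
  have t1 : Tendsto (fun N => ∫ x, f (cN N x) ∂(mwM A N b)) U (𝓝 (∫ y, f y ∂P)) :=
    hP (BoundedContinuousFunction.ofNormedAddCommGroup f hfc 1 hbd)
  have t2 : Tendsto (fun N => ∫ x, f (rotX z (cN N x)) ∂(mwM A N b)) U (𝓝 (∫ y, f (rotX z y) ∂P)) :=
    hP (BoundedContinuousFunction.ofNormedAddCommGroup (fun y => f (rotX z y)) (hfc.comp (rotX_cont z)) 1 fun y => hbd _)
  refine tendsto_nhds_unique t2 ?_
  have key : Tendsto (fun N => ∫ x, f (rotX z (cN N x)) ∂(mwM A N b) - ∫ x, f (cN N x) ∂(mwM A N b)) atTop (𝓝 0) := by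
    rw [Metric.tendsto_atTop]
    intro ε hε
    obtain ⟨r', hr', N1, h1⟩ := mw_diam hQ hL hb (show 0 < ε / 4 by positivity)
    obtain ⟨r, hr⟩ : ∃ r : ℝ, r = r' / 2 := ⟨_, rfl⟩
    have hr0 : 0 < r := by
      rw [hr]
      positivity
    obtain ⟨N2, h2⟩ := sw2_rot hR hF hQ (Real.toNNReal (2 / r) + L) hr0 hb (show 0 < ε / 4 by positivity)
    refine ⟨max N1 (max N2 1), fun N hN => ?_⟩
    have hNN1 := (le_max_left _ _).trans hN
    have hNN2 := ((le_max_left _ _).trans (le_max_right _ _)).trans hN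
    have hNN3 := ((le_max_right _ _).trans (le_max_right _ _)).trans hN
    obtain ⟨X, hX⟩ : ∃ X : ℝ, X = (N : ℝ) ^ (4 / 3 : ℝ) := ⟨_, rfl⟩
    -- the cutoff
    have hcut : ∀ g : ℝ × ℝ × C(unitInterval, ℂ) → ℝ, (∀ y, 0 ≤ g y ∧ g y ≤ 1) →
        |∫ x, g (cN N x) ∂(mwM A N b) - ∫ x, F.chi r (dm (crv x.1 x.1.length N)) * g (cN N x) ∂(mwM A N b)| ≤ ε / 4 := by
      intro g hg
      have hi : ∀ f : W3 × ℕ → ℝ, Integrable f (mwM A N b) := fun f => (mw_integrable f).mono_measure (mwM_le A N b)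
      rw [← integral_sub (hi _) (hi _)]
      refine (abs_integral_le_integral_abs).trans (le_trans (integral_mono_measure (mwM_le A N b)
        (Eventually.of_forall fun x => abs_nonneg _) (mw_integrable _)) ?_)
      refine ((mw_mono (g := indicator {x | dm (crv x.1 x.1.length N) ≤ r'} fun _ => (1 : ℝ))
        fun x _ => ?_).trans (by rw [mw_ind]; exact h1 N hNN1))
      by_cases h3 : dm (crv x.1 x.1.length N) ≤ r'
      · rw [indicator_of_mem (show x ∈ {x : W3 × ℕ | dm (crv x.1 x.1.length N) ≤ r'} from h3)]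
        have a1 := F.chi_nonneg r (dm (crv x.1 x.1.length N))
        have a2 := F.chi_le_one r (dm (crv x.1 x.1.length N))
        have a3 := hg (cN N x)
        rw [abs_le]
        constructor <;> nlinarith
      · rw [indicator_of_notMem (show x ∉ {x : W3 × ℕ | dm (crv x.1 x.1.length N) ≤ r'} from h3), F.chi_one hr0, one_mul, sub_self, abs_zero]
        rw [hr]
        linarith [not_le.1 h3]
    have c1 := hcut f hf
    have c2 := hcut (fun y => f (rotX z y)) fun y => hf _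
    -- the sums
    obtain ⟨Φ, hΦ⟩ : ∃ Φ : ℕ → ℕ → C(unitInterval, ℂ) → ℝ, Φ = fun (l m : ℕ) (γ : C(unitInterval, ℂ)) => if (l : ℝ) ≤ b * X then
        (if (l, m) ∈ A N then F.chi r (dm γ) * f ((l : ℝ) / X, (m : ℝ) / X, γ) else 0) else 0 := ⟨_, rfl⟩
    have e1 : ∫ x, F.chi r (dm (crv x.1 x.1.length N)) * f (cN N x) ∂(mwM A N b) = SW2 N Φ := by
      rw [hΦ, hX, mwM_int]
      exact mw_sw2 (fun l m γ => if (l, m) ∈ A N then F.chi r (dm γ) * f ((l : ℝ) / (N : ℝ) ^ (4 / 3 : ℝ), (m : ℝ) / (N : ℝ) ^ (4 / 3 : ℝ), γ) else 0)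
    have e2 : ∫ x, F.chi r (dm (crv x.1 x.1.length N)) * f (rotX z (cN N x)) ∂(mwM A N b) = SW2 N fun l m γ => Φ l m (z • γ) := by
      rw [hΦ, hX, mwM_int]
      simp only [dm_smul hz]
      exact mw_sw2 (fun l m γ => if (l, m) ∈ A N then F.chi r (dm γ) * f ((l : ℝ) / (N : ℝ) ^ (4 / 3 : ℝ), (m : ℝ) / (N : ℝ) ^ (4 / 3 : ℝ), z • γ) else 0)
    have h3 := h2 N hNN2 z hz Φ (fun l m γ => by
        rw [hΦ]
        beta_reduce
        split_ifs
        · have a1 := F.chi_nonneg r (dm γ)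
          have a2 := F.chi_le_one r (dm γ)
          have a3 := hf ((l : ℝ) / X, (m : ℝ) / X, γ)
          rw [abs_le]
          constructor <;> nlinarith
        · norm_num
        · norm_num) (fun l m γ γ' => by
        rw [hΦ]
        beta_reduce
        split_ifs
        · have a1 := F.chi_nonneg r (dm γ)
          have a2 := F.chi_le_one r (dm γ)
          have a3 := hf ((l : ℝ) / X, (m : ℝ) / X, γ')
          have a4 := F.chi_lip hr0 (dm γ) (dm γ')
          have a5 := dm_lip γ γ'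
          have a6 := hfL.dist_le_mul ((l : ℝ) / X, (m : ℝ) / X, γ) ((l : ℝ) / X, (m : ℝ) / X, γ')
          have a7 : dist ((l : ℝ) / X, (m : ℝ) / X, γ) ((l : ℝ) / X, (m : ℝ) / X, γ') = dist γ γ' := by
            rw [Prod.dist_eq, Prod.dist_eq, dist_self, dist_self, max_eq_right, max_eq_right]
            · exact dist_nonneg
            · exact le_max_of_le_right dist_nonneg
          rw [a7, Real.dist_eq] at a6
          have a8 : |dm γ - dm γ'| / r ≤ 2 / r * dist γ γ' := by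
            rw [div_le_iff₀ hr0]
            calc _ ≤ 2 * dist γ γ' := a5
              _ = _ := by field_simp
          rw [NNReal.coe_add, Real.coe_toNNReal _ (by positivity)]
          have a9 : F.chi r (dm γ) * f ((l : ℝ) / X, (m : ℝ) / X, γ) - F.chi r (dm γ') * f ((l : ℝ) / X, (m : ℝ) / X, γ') =
              F.chi r (dm γ) * (f ((l : ℝ) / X, (m : ℝ) / X, γ) - f ((l : ℝ) / X, (m : ℝ) / X, γ')) +
                (F.chi r (dm γ) - F.chi r (dm γ')) * f ((l : ℝ) / X, (m : ℝ) / X, γ') := by ring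
          rw [a9]
          refine (abs_add_le _ _).trans ?_
          rw [abs_mul, abs_mul, abs_of_nonneg a1, abs_of_nonneg a3.1]
          have b1 : F.chi r (dm γ) * |f ((l : ℝ) / X, (m : ℝ) / X, γ) - f ((l : ℝ) / X, (m : ℝ) / X, γ')| ≤ 1 * (L * dist γ γ') :=
            mul_le_mul a2 a6 (abs_nonneg _) zero_le_one
          have b2 : |F.chi r (dm γ) - F.chi r (dm γ')| * f ((l : ℝ) / X, (m : ℝ) / X, γ') ≤ 2 / r * dist γ γ' * 1 :=
            mul_le_mul (a4.trans a8) a3.2 a3.1 (by positivity)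
          linarith
        · rw [sub_zero, abs_zero]
          positivity
        · rw [sub_zero, abs_zero]
          positivity) (fun l m γ hγ => by
        rw [hΦ]
        beta_reduce
        rw [F.chi_zero hr0 hγ.le, zero_mul, ite_self, ite_self]) (fun l m γ hl => by
        rw [hΦ]
        beta_reduce
        rw [if_neg]
        rw [hX]
        exact not_le.2 hl)
    rw [← e1, ← e2] at h3
    rw [Real.dist_eq, sub_zero]
    rw [abs_le] at c1 c2 h3
    have h4 : |∫ x, f (rotX z (cN N x)) ∂(mwM A N b) - ∫ x, f (cN N x) ∂(mwM A N b)| ≤ 3 * (ε / 4) := by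
      rw [abs_le]
      constructor <;> linarith [c1.1, c1.2, c2.1, c2.2, h3.1, h3.2]
    linarith
  have t3 := (key.mono_left hU).add t1
  rw [zero_add] at t3
  refine t3.congr fun N => ?_
  ring

/-! ### even second roots -/

theorem mwE_cv (hQ : QB) {b : ℝ} (hb : 0 ≤ b) (U : Ultrafilter ℕ) (hU : (U : Filter ℕ) ≤ atTop) :
    ∃ P : Measure (ℝ × ℝ × C(unitInterval, ℂ)), LF.Cv (U : Filter ℕ) (fun N => mwE N b) cN P :=
  mwM_cv hQ (fun _ => {p | Even p.2}) hb U hU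

theorem mwE_rot (hR : RotP) (hF : Fast) (hQ : QB) (hL : LDp) {b : ℝ} (hb : 0 ≤ b) {U : Ultrafilter ℕ} (hU : (U : Filter ℕ) ≤ atTop)
    {P : Measure (ℝ × ℝ × C(unitInterval, ℂ))} (hP : LF.Cv (U : Filter ℕ) (fun N => mwE N b) cN P) {z : ℂ} (hz : ‖z‖ = 1) :
    P.map (rotX z) = P :=
  mwM_rot (A := fun _ => {p | Even p.2}) hR hF hQ hL hb hU hP hz

theorem mwE_ae (hQ : QB) (hL : LDp) {b : ℝ} (hb : 0 ≤ b) {U : Ultrafilter ℕ} (hU : (U : Filter ℕ) ≤ atTop)
    {P : Measure (ℝ × ℝ × C(unitInterval, ℂ))} (hP : LF.Cv (U : Filter ℕ) (fun N => mwE N b) cN P) :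
    ∀ᵐ y ∂P, (0 < y.2.1 ∧ y.2.1 < y.1 ∧ y.1 ≤ b) ∧ (y.2.2 0 = 0 ∧ y.2.2 1 = 0) ∧
      (∀ p q : unitInterval, p < q → y.2.2 p = y.2.2 q → p = 0 ∧ q = 1) ∧ 0 < dm y.2.2 :=
  mwM_ae (A := fun _ => {p | Even p.2}) hQ hL hb hU hP

theorem mwE_sum (hQ : QB) {b ε : ℝ} (hb : 0 ≤ b) (hε : 0 < ε) : ∃ δ K0 ε' : ℝ, 0 < δ ∧ 0 < K0 ∧ 0 < ε' ∧ ∀ n0 : ℕ, ∃ N0 : ℕ,
    ∀ N : ℕ, N0 ≤ N → ∀ f : W3 × ℕ → ℝ, (∀ x, f x ≤ 1) →
      (∀ n : ℕ, n0 ≤ n → Odd n → (N : ℝ) ≤ K0 * (n : ℝ) ^ (3 / 4 : ℝ) → (n : ℝ) ^ (3 / 4 : ℝ) ≤ K0 * N →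
        ∀ m : ℕ, δ * n ≤ m → (m : ℝ) ≤ (1 - δ) * n → Even m → ∑ s ∈ pol n, f (clw s, m) ≤ ε' * (pol n).card) →
      ∫ x, f x ∂(mwE N b) ≤ ε := by
  obtain ⟨δ, K0, ε', h1, h2, h3, h⟩ := mwM_sum hQ hb hε
  refine ⟨δ, K0, ε', h1, h2, h3, fun n0 => ?_⟩
  obtain ⟨N0, h⟩ := h n0
  exact ⟨N0, fun N hN f hf hyp => h N hN (fun _ => {p | Even p.2}) f hf hyp⟩

theorem mwE_sel (hQ : QB) {b : ℝ} (hb : 0 ≤ b) (U : Ultrafilter ℕ) (hU : (U : Filter ℕ) ≤ atTop) {L : ℝ≥0}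
    (φ : ℕ → ℝ × ℝ × C(unitInterval, ℂ) → ℝ) (hφ : ∀ N, LipschitzWith L (φ N)) (h1 : ∀ N x, |φ N x| ≤ 1) :
    ∃ ψ : ℝ × ℝ × C(unitInterval, ℂ) → ℝ, LipschitzWith L ψ ∧ (∀ x, |ψ x| ≤ 1) ∧ (∀ x, Tendsto (fun N => φ N x) U (𝓝 (ψ x))) ∧
      ∀ ε : ℝ, 0 < ε → ∀ᶠ N in U, ∫ x, |φ N (cN N x) - ψ (cN N x)| ∂(mwE N b) ≤ ε :=
  mwM_sel hQ (fun _ => {p | Even p.2}) hb U hU φ hφ h1

/-! ### the rotated frame -/

/-- **a functional of the words in the rotated frame** -/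
theorem lm_rot {U : Ultrafilter ℕ} {μ : ℕ → Measure (W3 × ℕ)} {P : Measure (ℝ × ℝ × C(unitInterval, ℂ))}
    {z : ℂ} (hz : ‖z‖ = 1) (hPz : P.map (rotX z) = P) {p : ℕ → W3 × ℕ → ℝ} {Φ : ℝ × ℝ × C(unitInterval, ℂ) → ℝ}
    (h : LF.Lm (U : Filter ℕ) μ cN P p Φ) :
    LF.Lm (U : Filter ℕ) μ (fun N x => rotX z (cN N x)) P p (fun y => Φ (rotX z⁻¹ y)) := by
  have hz0 : z ≠ 0 := fun h0 => by
    rw [h0, norm_zero] at hz
    exact zero_ne_one hz
  have hzz : ∀ y, rotX z⁻¹ (rotX z y) = y := by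
    intro y
    unfold rotX
    rw [smul_smul, inv_mul_cancel₀ hz0, one_smul]
  have hm : Measurable (rotX z) := (rotX_cont z).measurable
  refine ⟨h.ms, h.bd, h.ms'.comp (rotX_cont z⁻¹).measurable, ?_, fun ε hε => ?_⟩
  · obtain ⟨C, hC⟩ := h.bd'
    exact ⟨C, fun x => hC _⟩
  · obtain ⟨φ, h1, h2⟩ := h.ap ε hε
    refine ⟨φ.compContinuous ⟨rotX z⁻¹, rotX_cont z⁻¹⟩, ?_, ?_⟩
    · rw [← hPz, integral_map hm.aemeasurable]
      · refine le_trans (le_of_eq (integral_congr_ae (Eventually.of_forall fun y => ?_))) h1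
        show |Φ (rotX z⁻¹ (rotX z y)) - φ (rotX z⁻¹ (rotX z y))| = _
        rw [hzz]
      · have h3 : Measurable fun y => |Φ (rotX z⁻¹ y) - φ (rotX z⁻¹ y)| :=
          ((h.ms'.sub φ.continuous.measurable).comp (rotX_cont z⁻¹).measurable).abs
        exact h3.aestronglyMeasurable
    · filter_upwards [h2] with N hN
      refine le_trans (le_of_eq (integral_congr_ae (Eventually.of_forall fun y => ?_))) hN
      show |p N y - φ (rotX z⁻¹ (rotX z (cN N y)))| = _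
      rw [hzz]

end Pool.Agent.ROT.F3
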