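import Pool.Agent.ROT.W4J
import Pool.Agent.SCF.MDefs

/-!
# ROT, row W4 (helper16): the modulus of continuity of the strands of the polygons

* `Arm.ix`, `ps_arcw` : the vertices of the arcs of a closed word with two roots; `pos_get` : vertices of `w.get`;
* **`md_arc`** : off a set of polygons of small proportion ALL arcs with at least `δ n` letters satisfy `Md η ω`; `md_take` : the
  beginnings (any number of letters).
-/

set_option autoImplicit false

namespace Pool.Agent.ROT.F3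

open Finset
open Pool.Agent.NTS.Res (step pos saw fug size curve)
open Pool.Agent.PMA.Res (pol)
open Pool.Agent.SCF.M (Md)

/-- the vertices of the letters of a list -/
lemma pos_get (w : W3) (k : ℕ) : pos w.get k = ps w k := by
  rw [← ps_ofFn, List.ofFn_get]

/-- the number of the vertex in the closed word -/
def Arm.ix (n m i : ℕ) : Arm → ℕ
  | .fp => i
  | .bq => m - i
  | .fq => m + i
  | .bp => n + 1 - i

/-- **the vertices of the arcs** -/
lemma ps_arcw (k : Arm) {n m i : ℕ} {w : W3} (hw : Cl w) (hl : w.length = n + 1) (he : Even m) (hm : m ≤ n + 1)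
    (hi : i ≤ k.len n m) : ps (arcw m k w) i = ps w (k.ix n m i) - ps w (k.rt m) := by
  have hml : m ≤ w.length := by omega
  have hlt : (w.take m).length = m := by
    rw [List.length_take]
    omega
  have hld : (w.drop m).length = n + 1 - m := by
    rw [List.length_drop]
    omega
  have hed : Even (w.drop m).length := by
    rw [List.length_drop]
    exact (Nat.even_sub hml).2 ⟨fun _ => he, fun _ => hw.1⟩
  cases k with
  | fp =>
    have hi' : i ≤ m := hi
    show ps (w.take m) i = ps w i - ps w 0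
    rw [ps_take w hi' hml, ps_zero, sub_zero]
  | bq =>
    have hi' : i ≤ m := hi
    show ps (w.take m).reverse i = ps w (m - i) - ps w m
    rw [ps_reverse (by rw [hlt]; exact he) (by rw [hlt]; exact hi'), hlt, ps_take w (by omega) hml, en_take w hml]
  | fq =>
    show ps (w.drop m) i = ps w (m + i) - ps w m
    rw [ps_append_drop w hml he]
  | bp =>
    have hi' : i ≤ n + 1 - m := hi
    show ps (w.drop m).reverse i = ps w (n + 1 - i) - ps w 0
    rw [ps_reverse hed (by rw [hld]; exact hi'), hld, ps_append_drop w hml he, ps_zero, sub_zero]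
    have h3 : en (w.drop m) = -ps w m := by
      rw [en, hld, ps_append_drop w hml he, show m + (n + 1 - m) = w.length by omega]
      have : ps w w.length = 0 := hw.2.1
      rw [this, zero_sub]
    rw [h3, show m + (n + 1 - m - i) = n + 1 - i by omega]
    ring

/-- a step of the arc is a step of the closed word -/
lemma Arm.ix_diff (k : Arm) {n m i j : ℕ} (hm : m ≤ n + 1) (hij : i ≤ j) (hj : j ≤ k.len n m) :
    (k.ix n m i ≤ k.ix n m j ∧ k.ix n m j = k.ix n m i + (j - i) ∧ k.ix n m j ≤ n + 1) ∨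
      (k.ix n m j ≤ k.ix n m i ∧ k.ix n m i = k.ix n m j + (j - i) ∧ k.ix n m i ≤ n + 1) := by
  cases k <;> simp only [Arm.ix, Arm.len] at hj ⊢ <;> omega

open Classical in
/-- **the modulus of continuity of all arcs** -/
theorem md_arc {ε ω δ : ℝ} (hε : 0 < ε) (hω : 0 < ω) (hδ : 0 < δ) : ∃ (η : ℝ) (n0 : ℕ), 0 < η ∧ ∀ n : ℕ, n0 ≤ n → Odd n →
    (((pol n).filter fun s => ∃ (m : ℕ) (k : Arm), Even m ∧ m ≤ n + 1 ∧ δ * n ≤ (k.len n m : ℝ) ∧
      ¬ Md η ω (arcw m k (clw s)).get).card : ℝ) ≤ ε * ((pol n).card : ℝ) := by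
  obtain ⟨c, C, hc, hC, hsz⟩ := size34
  obtain ⟨κ, hκ, n0, h⟩ := mod_pol ε (ω * c * δ ^ (3 / 4 : ℝ)) hε (by positivity)
  refine ⟨κ / 2, n0 + 1, by positivity, fun n hn ho => ?_⟩
  have hn0 : (0 : ℝ) < n := by exact_mod_cast (by omega : 0 < n)
  have hn1 : (1 : ℝ) ≤ n := by exact_mod_cast (by omega : 1 ≤ n)
  refine le_trans ?_ (h n (by omega) ho)
  refine Nat.cast_le.2 (card_le_card fun s hs => ?_)
  rw [mem_filter] at hs ⊢
  obtain ⟨hs1, m, k, he, hm, hlen, hmd⟩ := hs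
  obtain ⟨hcl, hl⟩ := clw_mem ho hs1
  refine ⟨hs1, ?_⟩
  by_contra hb
  refine hmd fun i j hij hj hji => ?_
  have hal := length_arcw k hl hm
  rw [hal] at hj hji
  have hgoal : ∀ L : ℕ, L = k.len n m → ‖pos (arcw m k (clw s)).get j - pos (arcw m k (clw s)).get i‖ ≤ ω * size (k.len n m) →
      ‖pos (arcw m k (clw s)).get j - pos (arcw m k (clw s)).get i‖ ≤ ω * size L := fun L hL h' => by rw [hL]; exact h'
  refine hgoal _ hal ?_
  have hlen1 : 1 ≤ k.len n m := by
    have : (0 : ℝ) < (k.len n m : ℝ) := (mul_pos hδ hn0).trans_le hlen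
    exact_mod_cast this
  have hlenn : k.len n m ≤ n + 1 := by cases k <;> simp only [Arm.len] <;> omega
  have hlenn' : (k.len n m : ℝ) ≤ n + 1 := by exact_mod_cast hlenn
  have hji' : ((j - i : ℕ) : ℝ) ≤ κ * n := by
    rw [Nat.cast_sub hij]
    nlinarith
  -- the distance
  have key : ‖pos (arcw m k (clw s)).get j - pos (arcw m k (clw s)).get i‖ < ω * c * δ ^ (3 / 4 : ℝ) * (n : ℝ) ^ (3 / 4 : ℝ) := by
    rw [pos_get, pos_get, ps_arcw k hcl hl he hm hj, ps_arcw k hcl hl he hm (hij.trans hj), sub_sub_sub_cancel_right]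
    by_contra hcc
    push Not at hcc
    rcases k.ix_diff hm hij hj with ⟨h1, h2, h3⟩ | ⟨h1, h2, h3⟩
    · refine hb ⟨k.ix n m i, k.ix n m j, h1, by rw [h2]; push_cast; linarith, ?_⟩
      have e1 := nr_ps_mod hcl (i := k.ix n m i) (by omega)
      have e2 := nr_ps_mod hcl (i := k.ix n m j) (by omega)
      rw [hl] at e1 e2
      rw [e1, e2, norm_sub_rev]
      exact hcc
    · refine hb ⟨k.ix n m j, k.ix n m i, h1, by rw [h2]; push_cast; linarith, ?_⟩
      have e1 := nr_ps_mod hcl (i := k.ix n m i) (by omega)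
      have e2 := nr_ps_mod hcl (i := k.ix n m j) (by omega)
      rw [hl] at e1 e2
      rw [e1, e2]
      exact hcc
  refine key.le.trans ?_
  have h4 : δ ^ (3 / 4 : ℝ) * (n : ℝ) ^ (3 / 4 : ℝ) ≤ (k.len n m : ℝ) ^ (3 / 4 : ℝ) := by
    rw [← Real.mul_rpow hδ.le hn0.le]
    exact Real.rpow_le_rpow (by positivity) hlen (by norm_num)
  calc ω * c * δ ^ (3 / 4 : ℝ) * (n : ℝ) ^ (3 / 4 : ℝ) = ω * (c * (δ ^ (3 / 4 : ℝ) * (n : ℝ) ^ (3 / 4 : ℝ))) := by ring
    _ ≤ ω * (c * (k.len n m : ℝ) ^ (3 / 4 : ℝ)) := mul_le_mul_of_nonneg_left (mul_le_mul_of_nonneg_left h4 hc.le) hω.le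
    _ ≤ _ := mul_le_mul_of_nonneg_left (hsz _ hlen1).1 hω.le

/-- the first `j` letters of a walk -/
def tk {n : ℕ} (j : ℕ) (s : Fin n → Fin 3) : Fin (min j n) → Fin 3 := fun i => s ⟨i, by omega⟩

lemma pos_tk {n : ℕ} (j : ℕ) (s : Fin n → Fin 3) {i : ℕ} (hi : i ≤ j) (hin : i ≤ n) : pos (tk j s) i = pos s i := by
  have h : ∀ i, i ≤ j → i ≤ n → pos (tk j s) i = pos s i := by
    intro i
    induction i with
    | zero => intro _ _; rw [NTSF.pos_zero, NTSF.pos_zero]
    | succ i ih =>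
      intro h1 h2
      rw [NTSF.pos_succ (tk j s) i (by omega), NTSF.pos_succ s i (by omega), ih (by omega) (by omega)]
      rfl
  exact h i hi hin

open Classical in
/-- **the modulus of continuity of the beginnings**, all numbers of letters at least `δ n` -/
theorem md_take {ε ω δ : ℝ} (hε : 0 < ε) (hω : 0 < ω) (hδ : 0 < δ) : ∃ (η : ℝ) (n0 : ℕ), 0 < η ∧ ∀ n : ℕ, n0 ≤ n → Odd n →
    (((pol n).filter fun s => ∃ (j : ℕ) (t : Fin j → Fin 3), δ * n ≤ (j : ℝ) ∧ j ≤ n ∧ (∀ i ≤ j, pos t i = pos s i) ∧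
      ¬ Md η ω t).card : ℝ) ≤ ε * ((pol n).card : ℝ) := by
  obtain ⟨c, C, hc, hC, hsz⟩ := size34
  obtain ⟨κ, hκ, n0, h⟩ := mod_pol ε (ω * c * δ ^ (3 / 4 : ℝ)) hε (by positivity)
  refine ⟨κ, n0 + 1, hκ, fun n hn ho => ?_⟩
  have hn0 : (0 : ℝ) < n := by exact_mod_cast (by omega : 0 < n)
  refine le_trans ?_ (h n (by omega) ho)
  refine Nat.cast_le.2 (card_le_card fun s hs => ?_)
  rw [mem_filter] at hs ⊢
  obtain ⟨hs1, j, t, hlen, hjn, ht, hmd⟩ := hs
  refine ⟨hs1, ?_⟩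
  by_contra hb
  refine hmd fun i i' hii hi' hd => ?_
  have hj1 : 1 ≤ j := by
    have : (0 : ℝ) < (j : ℝ) := (mul_pos hδ hn0).trans_le hlen
    exact_mod_cast this
  have hjn' : (j : ℝ) ≤ n := by exact_mod_cast hjn
  have key : ‖pos t i' - pos t i‖ < ω * c * δ ^ (3 / 4 : ℝ) * (n : ℝ) ^ (3 / 4 : ℝ) := by
    rw [ht i' hi', ht i (hii.trans hi')]
    by_contra hcc
    push Not at hcc
    refine hb ⟨i, i', hii, by nlinarith, ?_⟩
    rw [Nat.mod_eq_of_lt (by omega), Nat.mod_eq_of_lt (by omega), ps_clw s (by omega), ps_clw s (by omega), norm_sub_rev]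
    exact hcc
  refine key.le.trans ?_
  have h4 : δ ^ (3 / 4 : ℝ) * (n : ℝ) ^ (3 / 4 : ℝ) ≤ (j : ℝ) ^ (3 / 4 : ℝ) := by
    rw [← Real.mul_rpow hδ.le hn0.le]
    exact Real.rpow_le_rpow (by positivity) hlen (by norm_num)
  calc ω * c * δ ^ (3 / 4 : ℝ) * (n : ℝ) ^ (3 / 4 : ℝ) = ω * (c * (δ ^ (3 / 4 : ℝ) * (n : ℝ) ^ (3 / 4 : ℝ))) := by ring
    _ ≤ ω * (c * (j : ℝ) ^ (3 / 4 : ℝ)) := mul_le_mul_of_nonneg_left (mul_le_mul_of_nonneg_left h4 hc.le) hω.le
    _ ≤ _ := mul_le_mul_of_nonneg_left (hsz _ hj1).1 hω.le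

end Pool.Agent.ROT.F3
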