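import Pool.Agent.ROT.F3GenG
import Pool.Agent.ROT.F3SysN
import Pool.Agent.ROT.F3SysV
import Pool.Agent.ROT.W4E

/-!
# ROT, F3, row K2: the systems of words have a modulus of continuity (helper28)

* `NTg` : laws near compact sets; `NTg.mod` : modulus of continuity of the curves off small mass;
* `MdS.sub`, `mdS_of_cv` : the modulus of a piece, of a word with a given curve;
* **`wsys_of`** : pieces of words with near-compact curves are a system `WSys`;
* `mw_ntg`, `mwE_ntg` : the closed words with two roots; **`wsys_arm`** : their arcs (all arms, all symmetries of the lattice);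
* **`wsys_sub`** : pieces of a system are a system.
-/

set_option autoImplicit false

open MeasureTheory Filter Topology Set BoundedContinuousFunction
open scoped ENNReal

namespace Pool.Agent.ROT.F3

open Pool.Agent.NTS.Res
open Pool.Agent.SCF.Z Pool.Agent.SCF.M
open Pool.Agent.ROT.F (QB)

/-! ### one word -/

section word

variable {n n' : ℕ} {s : Fin n → Fin 3} {s' : Fin n' → Fin 3}

/-- **the modulus of a piece** -/
theorem MdS.sub {η B : ℝ} (h : MdS η B s) (hn' : 1 ≤ n') (hnn : n' ≤ n) (τ : ℕ → ℕ) (hτ : ∀ i : ℕ, i ≤ n' → τ i ≤ n)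
    (hτ2 : ∀ i j : ℕ, i ≤ n' → j ≤ n' → |(τ i : ℝ) - τ j| ≤ |(i : ℝ) - j|)
    (hp : ∀ i j : ℕ, i ≤ n' → j ≤ n' → ‖pos s' i - pos s' j‖ ≤ ‖pos s (τ i) - pos s (τ j)‖) : MdS η B s' := by
  obtain ⟨hn, h⟩ := h
  have hn0 : (0 : ℝ) < n := by exact_mod_cast hn
  have hn0' : (0 : ℝ) < n' := by exact_mod_cast hn'
  have hnn' : (n' : ℝ) ≤ n := by exact_mod_cast hnn
  refine ⟨hn', fun i j hi hj hij => (hp i j hi hj).trans (h _ _ (hτ i hi) (hτ j hj) ?_)⟩
  rw [← sub_div, abs_div, abs_of_pos hn0'] at hij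
  rw [← sub_div, abs_div, abs_of_pos hn0]
  refine le_trans ?_ hij
  exact div_le_div₀ (abs_nonneg _) (hτ2 i j hi hj) hn0' hnn'

/-- the modulus grows -/
lemma MdS.mono {η η' B B' : ℝ} (h : MdS η B s) (hη : η' ≤ η) (hB : B ≤ B') : MdS η' B' s :=
  ⟨h.1, fun i j hi hj hij => (h.2 i j hi hj (hij.trans hη)).trans hB⟩

end word

/-! ### laws near compact sets -/

section law

variable {ι Ω X Y : Type*} [MeasurableSpace Ω] [PseudoMetricSpace X] [PseudoMetricSpace Y]

/-- **laws near compact sets** -/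
def NTg (U : Filter ι) (P : ι → Measure Ω) (x : ι → Ω → X) : Prop :=
  ∀ ε : ℝ, 0 < ε → ∃ K : Set X, IsCompact K ∧ ∀ᶠ i in U, (P i).real {s | ∀ y ∈ K, ε < dist (x i s) y} ≤ ε

lemma Tg.ntg {U : Filter ι} {P : ι → Measure Ω} [∀ i, IsFiniteMeasure (P i)] {x : ι → Ω → X} (h : Tg U P x) : NTg U P x := by
  intro ε hε
  obtain ⟨K, hK, h⟩ := h ε hε
  refine ⟨K, hK, h.mono fun i hi => (measureReal_mono fun s hs hx => ?_).trans hi⟩
  have := hs _ hx
  rw [dist_self] at this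
  linarith

lemma NTg.map {U : Filter ι} {P : ι → Measure Ω} [∀ i, IsFiniteMeasure (P i)] {x : ι → Ω → X} (h : NTg U P x) {f : X → Y}
    (hf : LipschitzWith 1 f) : NTg U P fun i s => f (x i s) := by
  intro ε hε
  obtain ⟨K, hK, h⟩ := h ε hε
  refine ⟨f '' K, hK.image hf.continuous, h.mono fun i hi => (measureReal_mono fun s hs y hy => ?_).trans hi⟩
  refine (hs _ (mem_image_of_mem f hy)).trans_le ?_
  simpa using hf.dist_le_mul (x i s) y

lemma NTg.mono_measure {U : Filter ι} {P P' : ι → Measure Ω} [∀ i, IsFiniteMeasure (P i)] {x : ι → Ω → X} (h : NTg U P x)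
    (hP : ∀ᶠ i in U, P' i ≤ P i) : NTg U P' x := by
  intro ε hε
  obtain ⟨K, hK, h⟩ := h ε hε
  refine ⟨K, hK, ?_⟩
  filter_upwards [h, hP] with i hi hi'
  exact (ENNReal.toReal_mono (measure_ne_top _ _) (hi' _)).trans hi

/-- **the modulus of continuity of the curves** -/
theorem NTg.mod {U : Filter ι} {P : ι → Measure Ω} [∀ i, IsFiniteMeasure (P i)] {x : ι → Ω → C(unitInterval, ℂ)}
    (h : NTg U P x) {ω ε : ℝ} (hω : 0 < ω) (hε : 0 < ε) :
    ∃ η : ℝ, 0 < η ∧ ∀ᶠ i in U, (P i).real {s | ¬ ModC η ω (x i s)} ≤ ε := by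
  obtain ⟨e, he⟩ : ∃ e, e = min ε (ω / 4) := ⟨_, rfl⟩
  have he0 : 0 < e := by rw [he]; exact lt_min hε (by positivity)
  have he1 : e ≤ ε := by rw [he]; exact min_le_left _ _
  have he2 : e ≤ ω / 4 := by rw [he]; exact min_le_right _ _
  obtain ⟨K, hK, h⟩ := h e he0
  have hKc : IsCompact (K ×ˢ (univ : Set unitInterval)) := hK.prod isCompact_univ
  have hc : Continuous fun z : C(unitInterval, ℂ) × unitInterval => z.1 z.2 := by fun_prop
  have hu := hKc.uniformContinuousOn_of_continuous hc.continuousOn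
  obtain ⟨δ, hδ, hu⟩ := Metric.uniformContinuousOn_iff.1 hu (ω / 4) (by positivity)
  refine ⟨δ / 2, by positivity, h.mono fun i hi => (measureReal_mono fun s hs y hy => ?_).trans (hi.trans he1)⟩
  by_contra hcon
  refine hs fun t u htu => ?_
  have h1 := hu (y, t) ⟨hy, mem_univ _⟩ (y, u) ⟨hy, mem_univ _⟩ (by
    rw [Prod.dist_eq, dist_self]
    refine max_lt hδ ?_
    rw [Subtype.dist_eq, Real.dist_eq]
    linarith)
  have h2 : dist (x i s) y ≤ e := not_lt.1 hcon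
  have h3 := (ContinuousMap.dist_apply_le_dist (f := x i s) (g := y) t).trans h2
  have h4 := (ContinuousMap.dist_apply_le_dist (f := x i s) (g := y) u).trans h2
  rw [dist_eq_norm] at h3 h4
  have h5 : ‖y t - y u‖ < ω / 4 := by rw [← dist_eq_norm]; exact h1
  calc ‖x i s t - x i s u‖ = ‖(x i s t - y t) + (y t - y u) - (x i s u - y u)‖ := by congr 1; ring
    _ ≤ ‖x i s t - y t‖ + ‖y t - y u‖ + ‖x i s u - y u‖ := (norm_sub_le _ _).trans (add_le_add (norm_add_le _ _) le_rfl)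
    _ ≤ ω := by linarith

end law

/-! ### systems -/

section sys

variable {ι Ω : Type*} [MeasurableSpace Ω] {U : Filter ι} {P : ι → Measure Ω} [∀ i, IsFiniteMeasure (P i)]
  {nn nn' : ι → Ω → ℕ} {wd : ∀ (i : ι) (s : Ω), Fin (nn i s) → Fin 3} {wd' : ∀ (i : ι) (s : Ω), Fin (nn' i s) → Fin 3} {S : ι → ℝ}

/-- the word `s'` is a piece of the points `f 0, .., f N`, unit `S`, which are on the curve `c` -/
structure PcS (S : ℝ) (N : ℕ) (c : C(unitInterval, ℂ)) {n' : ℕ} (s' : Fin n' → Fin 3) (f : ℕ → ℂ) (τ : ℕ → ℕ) : Prop where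
  le : n' ≤ N
  v : ∀ (k : ℕ) (u : unitInterval), k ≤ N → (u : ℝ) = (k : ℝ) / N → c u = f k / (S : ℂ)
  t : ∀ i : ℕ, i ≤ n' → τ i ≤ N
  d : ∀ i j : ℕ, i ≤ n' → j ≤ n' → |(τ i : ℝ) - τ j| ≤ |(i : ℝ) - j|
  p : ∀ i j : ℕ, i ≤ n' → j ≤ n' → ‖pos s' i - pos s' j‖ ≤ ‖f (τ i) - f (τ j)‖

lemma PcS.md {S : ℝ} {N : ℕ} {c : C(unitInterval, ℂ)} {n' : ℕ} {s' : Fin n' → Fin 3} {f : ℕ → ℂ} {τ : ℕ → ℕ}
    (h : PcS S N c s' f τ) (hS : 0 < S) {η ω : ℝ} (hn' : 1 ≤ n') (hm : ModC η ω c) : MdS η (ω * S) s' := by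
  have hn0' : (0 : ℝ) < n' := by exact_mod_cast hn'
  have hnn' : (n' : ℝ) ≤ N := by exact_mod_cast h.le
  have hN0 : (0 : ℝ) < N := hn0'.trans_le hnn'
  refine ⟨hn', fun i j hi hj hij => (h.p i j hi hj).trans ?_⟩
  have hτ : ∀ i : ℕ, i ≤ n' → (τ i : ℝ) / N ∈ Icc (0 : ℝ) 1 := fun i hi => ⟨by positivity, by
    rw [div_le_one hN0]
    exact_mod_cast h.t i hi⟩
  have h1 := hm ⟨_, hτ i hi⟩ ⟨_, hτ j hj⟩ (by
    show |(τ i : ℝ) / N - (τ j : ℝ) / N| ≤ η
    rw [← sub_div, abs_div, abs_of_pos hn0'] at hij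
    rw [← sub_div, abs_div, abs_of_pos hN0]
    exact (div_le_div₀ (abs_nonneg _) (h.d i j hi hj) hn0' hnn').trans hij)
  rw [h.v (τ i) _ (h.t i hi) rfl, h.v (τ j) _ (h.t j hj) rfl, ← sub_div, norm_div, Complex.norm_real, Real.norm_of_nonneg hS.le,
    div_le_iff₀ hS] at h1
  exact h1

/-- **pieces of words with near-compact curves are a system** -/
theorem wsys_of (hS : ∀ i, 0 < S i) {c : ι → Ω → C(unitInterval, ℂ)} (hc : NTg U P c) {N : ι → Ω → ℕ} {f : ι → Ω → ℕ → ℂ}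
    {τ : ι → Ω → ℕ → ℕ} (hne : ∀ ε : ℝ, 0 < ε → ∀ᶠ i in U, (P i).real {s | nn i s = 0} ≤ ε)
    (h : ∀ᶠ i in U, (P i).real {s | 1 ≤ nn i s ∧ ¬ PcS (S i) (N i s) (c i s) (wd i s) (f i s) (τ i s)} ≤ 0) :
    WSys U P nn wd S := by
  refine ⟨hS, fun ω hω ε hε => ?_⟩
  obtain ⟨η, hη, h1⟩ := hc.mod hω (half_pos hε)
  refine ⟨η, hη, ?_⟩
  filter_upwards [h1, hne _ (half_pos hε), h] with i h1 h2 h3
  refine (measureReal_mono (s₂ := ({s | ¬ ModC η ω (c i s)} ∪ {s | nn i s = 0}) ∪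
    {s | 1 ≤ nn i s ∧ ¬ PcS (S i) (N i s) (c i s) (wd i s) (f i s) (τ i s)}) fun s hs => ?_).trans
    ((measureReal_union_le _ _).trans ((add_le_add (measureReal_union_le _ _) le_rfl).trans (by linarith)))
  by_contra hcon
  simp only [mem_union, mem_ofPred_eq, not_or, not_not, not_and] at hcon
  obtain ⟨⟨s1, s2⟩, s3⟩ := hcon
  have hn : 1 ≤ nn i s := Nat.one_le_iff_ne_zero.2 s2
  exact hs ((s3 hn).md (hS i) hn s1)

/-- **pieces of a system are a system** -/
theorem wsys_sub (hW : WSys U P nn wd S) {τ : ι → Ω → ℕ → ℕ} {Q : ι → Ω → Prop}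
    (hne : ∀ ε : ℝ, 0 < ε → ∀ᶠ i in U, (P i).real {s | nn' i s = 0 ∨ ¬ Q i s} ≤ ε)
    (h : ∀ᶠ i in U, ∀ s, Q i s → nn' i s ≤ nn i s ∧ (∀ k, k ≤ nn' i s → τ i s k ≤ nn i s) ∧
      (∀ k l, k ≤ nn' i s → l ≤ nn' i s → |(τ i s k : ℝ) - τ i s l| ≤ |(k : ℝ) - l|) ∧
      ∀ k l, k ≤ nn' i s → l ≤ nn' i s →
        ‖pos (wd' i s) k - pos (wd' i s) l‖ ≤ ‖pos (wd i s) (τ i s k) - pos (wd i s) (τ i s l)‖) :
    WSys U P nn' wd' S := by
  refine ⟨hW.pos, fun ω hω ε hε => ?_⟩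
  obtain ⟨η, hη, h1⟩ := hW.md ω hω _ (half_pos hε)
  refine ⟨η, hη, ?_⟩
  filter_upwards [h1, hne _ (half_pos hε), h] with i h1 h2 h3
  refine (measureReal_mono (s₂ := {s | ¬ MdS η (ω * S i) (wd i s)} ∪ {s | nn' i s = 0 ∨ ¬ Q i s}) fun s hs => ?_).trans
    ((measureReal_union_le _ _).trans (by linarith))
  by_contra hcon
  simp only [mem_union, mem_ofPred_eq, not_or, not_not] at hcon
  obtain ⟨s1, s2, s3⟩ := hcon
  obtain ⟨g1, g2, g3, g4⟩ := h3 s s3
  exact hs (s1.sub (Nat.one_le_iff_ne_zero.2 s2) g1 (τ i s) g2 g3 g4)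

/-- smaller measures -/
theorem WSys.le {P' : ι → Measure Ω} (hW : WSys U P nn wd S) (hP : ∀ᶠ i in U, P' i ≤ P i) : WSys U P' nn wd S := by
  refine ⟨hW.pos, fun ω hω ε hε => ?_⟩
  obtain ⟨η, hη, h1⟩ := hW.md ω hω ε hε
  refine ⟨η, hη, ?_⟩
  filter_upwards [h1, hP] with i hi hi'
  exact (ENNReal.toReal_mono (measure_ne_top _ _) (hi' _)).trans hi

/-- another unit -/
theorem WSys.unit {S' : ι → ℝ} (hW : WSys U P nn wd S) (hS' : ∀ i, 0 < S' i) {C : ℝ} (hC : 0 < C) (h : ∀ᶠ i in U, S i ≤ C * S' i) :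
    WSys U P nn wd S' := by
  refine ⟨hS', fun ω hω ε hε => ?_⟩
  obtain ⟨η, hη, h1⟩ := hW.md (ω / C) (by positivity) ε hε
  refine ⟨η, hη, ?_⟩
  filter_upwards [h1, h] with i hi hi'
  have hle : ω / C * S i ≤ ω * S' i := by
    calc ω / C * S i ≤ ω / C * (C * S' i) := mul_le_mul_of_nonneg_left hi' (by positivity)
      _ = ω * S' i := by field_simp
  exact (measureReal_mono fun s (hs : ¬ MdS η (ω * S' i) (wd i s)) (hm : MdS η (ω / C * S i) (wd i s)) =>
    hs (hm.mono le_rfl hle)).trans hi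

end sys

/-! ### the closed words with two roots -/

section closed

lemma cN_map {X : Type*} [PseudoMetricSpace X] : LipschitzWith 1 fun z : ℝ × ℝ × X => z.2.2 :=
  LipschitzWith.of_dist_le_mul fun a b => by
    rw [NNReal.coe_one, one_mul, Prod.dist_eq, Prod.dist_eq]
    exact (le_max_right _ _).trans (le_max_right _ _)

/-- the closed curves are near compact sets -/
theorem mw_ntg (hQ : QB) {b : ℝ} (hb : 0 ≤ b) {U : Filter ℕ} (hU : U ≤ atTop) : NTg U (fun N => mw N b) cN := by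
  intro ε hε
  obtain ⟨K, hK, h⟩ := cN_tight hQ hb hε
  exact ⟨K, hK, hU h⟩

theorem mwE_ntg (hQ : QB) {b : ℝ} (hb : 0 ≤ b) {U : Filter ℕ} (hU : U ≤ atTop) : NTg U (fun N => mwE N b) cN :=
  (mw_ntg hQ hb hU).mono_measure (Eventually.of_forall fun N => mwE_le N b)

/-- outside of the closed words with an even second root there is no mass -/
lemma mwE_out {N : ℕ} {b : ℝ} {Q : W3 × ℕ → Prop} (h : ∀ x ∈ TN N b, Even x.2 → ¬ Q x) : (mwE N b).real {x | Q x} = 0 := by
  rw [← mul_one ((mwE N b).real {x | Q x})]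
  have e : ∫ x, {x | Q x}.indicator (fun _ => (1 : ℝ)) x ∂(mwE N b) = (mwE N b).real {x | Q x} := by
    rw [integral_indicator MeasurableSet.of_discrete, setIntegral_const]
    simp
  rw [mul_one, ← e, mwE_int, mw_int]
  refine Finset.sum_eq_zero fun x hx => ?_
  by_cases he : Even x.2
  · rw [if_pos he, indicator_of_notMem (show x ∉ {x | Q x} from h x hx he), mul_zero]
  · rw [if_neg he, mul_zero]

/-- the arcs have letters -/
lemma arc_ne (hQ : QB) {b : ℝ} (hb : 0 ≤ b) {U : Filter ℕ} (hU : U ≤ atTop) (k : Arm) (T : LSym) {ε : ℝ} (hε : 0 < ε) :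
    ∀ᶠ N in U, (mwE N b).real {x | (arcw x.2 k (mp T x.1)).length = 0} ≤ ε := by
  obtain ⟨a, ha, N0, h⟩ := mw_place hQ hb hε
  have hU' : ∀ᶠ N in U, max N0 1 ≤ N := hU (eventually_ge_atTop (max N0 1))
  refine hU'.mono fun N hN => ?_
  have hN0 : N0 ≤ N := (le_max_left _ _).trans hN
  have hN1 : (1 : ℝ) ≤ N := by exact_mod_cast (le_max_right _ _).trans hN
  have hNp : 0 < a * (N : ℝ) ^ (4 / 3 : ℝ) := mul_pos ha (Real.rpow_pos_of_pos (by linarith) _)
  have h1 : (mwE N b).real {x | (arcw x.2 k (mp T x.1)).length = 0} ≤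
      (mwE N b).real {x | (x.2 : ℝ) < a * (N : ℝ) ^ (4 / 3 : ℝ) ∨ (x.1.length : ℝ) - x.2 < a * (N : ℝ) ^ (4 / 3 : ℝ)} +
        (mwE N b).real {x | ¬ (x ∈ TN N b ∧ Even x.2)} := by
    refine (measureReal_mono (fun x hx => ?_)).trans (measureReal_union_le _ _)
    by_cases hT : x ∈ TN N b ∧ Even x.2
    · left
      obtain ⟨hT1, hT2⟩ := hT
      obtain ⟨hc, hm, -⟩ := mem_TN.1 hT1
      obtain ⟨n, hn⟩ : ∃ n, x.1.length = n + 1 := ⟨x.1.length - 1, by omega⟩
      have hl : (mp T x.1).length = n + 1 := by rw [mp_length, hn]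
      have hx' : (arcw x.2 k (mp T x.1)).length = 0 := hx
      have h2 : (x.2 : ℝ) = 0 ∨ (x.1.length : ℝ) - x.2 = 0 := by
        cases k with
        | fp =>
          left
          have : ((mp T x.1).take x.2).length = 0 := hx'
          rw [List.length_take, hl] at this
          have h3 : x.2 = 0 := by omega
          exact_mod_cast h3
        | bq =>
          left
          have : ((mp T x.1).take x.2).reverse.length = 0 := hx'
          rw [List.length_reverse, List.length_take, hl] at this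
          have h3 : x.2 = 0 := by omega
          exact_mod_cast h3
        | fq =>
          exfalso
          have : ((mp T x.1).drop x.2).length = 0 := hx'
          rw [List.length_drop, hl] at this
          omega
        | bp =>
          exfalso
          have : ((mp T x.1).drop x.2).reverse.length = 0 := hx'
          rw [List.length_reverse, List.length_drop, hl] at this
          omega
      rcases h2 with h2 | h2
      · exact Or.inl (by rw [h2]; exact hNp)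
      · exact Or.inr (by rw [h2]; exact hNp)
    · exact Or.inr hT
  have h2 : (mwE N b).real {x | (x.2 : ℝ) < a * (N : ℝ) ^ (4 / 3 : ℝ) ∨ (x.1.length : ℝ) - x.2 < a * (N : ℝ) ^ (4 / 3 : ℝ)} ≤ ε :=
    (ENNReal.toReal_mono (measure_ne_top _ _) (mwE_le N b _)).trans (h N hN0)
  have h3 : (mwE N b).real {x | ¬ (x ∈ TN N b ∧ Even x.2)} = 0 := mwE_out fun x hx he hn => hn ⟨hx, he⟩
  linarith

/-- **the arcs of the closed words with two roots are a system**, for every arm and every symmetry of the lattice -/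
theorem wsys_arm (hQ : QB) {b : ℝ} (hb : 0 ≤ b) {U : Filter ℕ} (hU : U ≤ atTop) (k : Arm) (T : LSym) {S : ℕ → ℝ} (hS0 : ∀ N, 0 < S N)
    (hS : ∀ᶠ N in U, S N = N) :
    WSys U (fun N => mwE N b) (fun _ x => (arcw x.2 k (mp T x.1)).length) (fun _ x => (arcw x.2 k (mp T x.1)).get) S := by
  refine wsys_of hS0 (c := fun N x => (cN N x).2.2) (N := fun _ x => x.1.length) (f := fun _ x => ps x.1)
    (τ := fun _ x => fun i => k.ix (x.1.length - 1) x.2 i) (NTg.map (f := fun z : ℝ × ℝ × C(unitInterval, ℂ) => z.2.2)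
      (mwE_ntg hQ hb hU) cN_map) (fun ε hε => arc_ne hQ hb hU k T hε) ?_
  refine hS.mono fun N hN => ?_
  suffices hkey : ∀ x ∈ TN N b, Even x.2 → PcS (S N) x.1.length (cN N x).2.2 (arcw x.2 k (mp T x.1)).get (ps x.1)
      (fun i => k.ix (x.1.length - 1) x.2 i) from
    le_of_eq (mwE_out (Q := fun x : W3 × ℕ => 1 ≤ (arcw x.2 k (mp T x.1)).length ∧ ¬ PcS (S N) x.1.length (cN N x).2.2
      (arcw x.2 k (mp T x.1)).get (ps x.1) (fun i => k.ix (x.1.length - 1) x.2 i)) fun x hx he hcon => hcon.2 (hkey x hx he))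
  intro x hx he
  obtain ⟨hc, hm, -⟩ := mem_TN.1 hx
  obtain ⟨n, hn⟩ : ∃ n, x.1.length = n + 1 := ⟨x.1.length - 1, by omega⟩
  have hl : (mp T x.1).length = n + 1 := by rw [mp_length, hn]
  have hlen : (arcw x.2 k (mp T x.1)).length = k.len n x.2 := length_arcw k hl (by omega)
  have hmn : x.2 ≤ n + 1 := by omega
  have e1 : x.1.length - 1 = n := by omega
  have hps : ∀ i : ℕ, i ≤ k.len n x.2 → pos (arcw x.2 k (mp T x.1)).get i = T.L (ps x.1 (k.ix n x.2 i)) - T.L (ps x.1 (k.rt x.2)) := by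
    intro i hi
    rw [pos_get, ps_arcw k (Cl_mp.2 hc) hl he hmn hi, ps_mp, ps_mp]
  have hd : ∀ i j : ℕ, i ≤ j → j ≤ k.len n x.2 → k.ix n x.2 i ≤ n + 1 ∧ k.ix n x.2 j ≤ n + 1 ∧
      |(k.ix n x.2 i : ℝ) - k.ix n x.2 j| = (j : ℝ) - i := by
    intro i j hij hj
    rcases k.ix_diff hmn hij hj with ⟨g1, g2, g3⟩ | ⟨g1, g2, g3⟩
    · refine ⟨by omega, g3, ?_⟩
      rw [g2]
      push_cast [Nat.cast_sub hij]
      rw [abs_sub_comm, abs_of_nonneg (by have : (i : ℝ) ≤ j := by exact_mod_cast hij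
                                          linarith)]
      ring
    · refine ⟨g3, by omega, ?_⟩
      rw [g2]
      push_cast [Nat.cast_sub hij]
      rw [abs_of_nonneg (by have : (i : ℝ) ≤ j := by exact_mod_cast hij
                            linarith)]
      ring
  refine ⟨?_, ?_, ?_, ?_, ?_⟩
  · rw [hlen, hn]
    cases k <;> simp only [Arm.len] <;> omega
  · intro j u hj hu
    have h1 : 1 ≤ x.1.length := by omega
    have h2 : ((u : ℝ)) * x.1.length = j := by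
      rw [hu]
      have : (0 : ℝ) < x.1.length := by exact_mod_cast h1
      field_simp
    show crv x.1 x.1.length N u = ps x.1 j / (S N : ℂ)
    rw [crv_vertex h1 hj h2, hN]
  · intro i hi
    show k.ix (x.1.length - 1) x.2 i ≤ x.1.length
    rw [e1, hn]
    exact (hd i i le_rfl (by rw [← hlen]; exact hi)).1
  · intro i j hi hj
    show |(k.ix (x.1.length - 1) x.2 i : ℝ) - k.ix (x.1.length - 1) x.2 j| ≤ _
    rw [e1]
    rw [hlen] at hi hj
    rcases le_total i j with hij | hij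
    · rw [(hd i j hij hj).2.2, abs_sub_comm]
      exact le_abs_self _
    · rw [abs_sub_comm, (hd j i hij hi).2.2]
      exact le_abs_self _
  · intro i j hi hj
    rw [hlen] at hi hj
    show _ ≤ ‖ps x.1 (k.ix (x.1.length - 1) x.2 i) - ps x.1 (k.ix (x.1.length - 1) x.2 j)‖
    rw [e1, hps i hi, hps j hj, sub_sub_sub_cancel_right, ← map_sub, LinearIsometryEquiv.norm_map]

end closed

end Pool.Agent.ROT.F3
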