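import Pool.Agent.ROT.W4Sys
import Pool.Agent.ROT.F3WS
import Pool.Agent.ROT.F3K2A

/-!
# ROT, F3, K2 (helper16): the gates of the strands of the closed words with two roots

* `aW k T x` : the strand `k` (`Arm`) of the closed word `x.1` with the second root `x.2`, in the frame `T` (helper28's form);
* `mac_psi` : a functional of a strand (`ArcJ`) along an ultrafilter; `dst`, `dst_l1a`, `dst_thr` : the distance of the roots;
* `zc_end` : `zc = 1` when the end is far away; **`grd_arc`** : `GrdA` for the strands, factor `1[c < distance of the roots]`,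
  from `ArcJ` of the averages times `zc`;
* **`arc_sys`** : everything needed for `gate1`, `gateB`, `gateC` (F3K2A) at the strands.
-/

set_option autoImplicit false

open Filter MeasureTheory Topology

open scoped NNReal BoundedContinuousFunction

namespace Pool.Agent.ROT.F3

open Pool.Agent.NTS.Res (step pos saw fug size curve)
open Pool.Agent.PMA.Res (pol)
open Pool.Agent.ROT.F (QB)
open Pool.Agent.CRT (CI)
open Pool.Agent.SCF.M Pool.Agent.SCF.Z

/-- the symmetries of the lattice commute with the arcs -/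
lemma mp_arcw (T : LSym) (m : ℕ) (k : Arm) (w : W3) : mp T (arcw m k w) = arcw m k (mp T w) := by
  cases k <;> simp [arcw, mp, List.map_take, List.map_drop, List.map_reverse]

/-- the strand -/
def aW (k : Arm) (T : LSym) (x : W3 × ℕ) : W3 := arcw x.2 k (mp T x.1)

lemma aW_eq (k : Arm) (T : LSym) (x : W3 × ℕ) : aW k T x = mp T (arcw x.2 k x.1) := (mp_arcw _ _ _ _).symm

/-- **one functional of the family**, along an ultrafilter -/
theorem mac_psi (hQ : QB) {α : Type*} (k : Arm) {l : Filter α} {G : α → ℝ → W3 → ℝ}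
    (hG : ∀ᶠ a in l, ∀ S : ℝ, 0 < S → ∀ w, |G a S w| ≤ 1) (h : ArcJ l G) {b : ℝ} (hb : 0 ≤ b)
    (U : Ultrafilter ℕ) (hU : (U : Filter ℕ) ≤ atTop) {ε : ℝ} (hε : 0 < ε) :
    ∀ᶠ a in l, ∃ ψ : (ℝ × ℝ × C(unitInterval, ℂ)) →ᵇ ℝ, ∀ᶠ N : ℕ in U,
      ∫ x, |G a N (arcw x.2 k x.1) - ψ (cN N x)| ∂(mwE N b) ≤ ε := by
  obtain ⟨K, N0, h1⟩ := mac_sys hQ (ι := Unit) {()} (fun _ => k) (G := fun _ => G) (hG.mono fun a h2 _ _ => h2) (fun _ _ => h) hb
    (ε / 2) (by positivity)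
  simp only [Finset.prod_singleton] at h1
  filter_upwards [h1, hG] with a ha hGa
  have hex : ∀ N : ℕ, ∃ Φ : ℝ × ℝ × C(unitInterval, ℂ) → ℝ, LipschitzWith K Φ ∧ (∀ x, |Φ x| ≤ 1) ∧
      (N0 ≤ N → ∫ x, |G a N (arcw x.2 k x.1) - Φ (cN N x)| ∂(mwE N b) ≤ ε / 2) := by
    intro N
    by_cases hN : N0 ≤ N
    · obtain ⟨Φ, c1, c2, c3⟩ := ha N hN
      exact ⟨Φ, c1, c2, fun _ => c3⟩
    · exact ⟨fun _ => 0, LipschitzWith.const' 0, fun _ => by simp, fun hN' => absurd hN' hN⟩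
  choose Φ c1 c2 c3 using hex
  obtain ⟨ψ, d1, d2, -, d3⟩ := mwE_sel hQ hb U hU Φ c1 c2
  refine ⟨BoundedContinuousFunction.ofNormedAddCommGroup ψ d1.continuous 1 fun x => by rw [Real.norm_eq_abs]; exact d2 x, ?_⟩
  filter_upwards [hU (eventually_ge_atTop (max N0 1)), d3 (ε / 2) (by positivity)] with N e1 e2
  have hN0 : N0 ≤ N := (le_max_left _ _).trans e1
  have hNp : (0 : ℝ) < N := by exact_mod_cast (le_max_right _ _).trans e1
  have e4 := c3 N hN0
  have i1 : Integrable (fun x : W3 × ℕ => |G a N (arcw x.2 k x.1) - Φ N (cN N x)|) (mwE N b) := by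
    refine Integrable.of_bound (C := 2) Measurable.of_discrete.aestronglyMeasurable (Eventually.of_forall fun x => ?_)
    have a1 := abs_sub (G a N (arcw x.2 k x.1)) (Φ N (cN N x))
    have a2 := hGa N hNp (arcw x.2 k x.1)
    have a4 := c2 N (cN N x)
    rw [Real.norm_eq_abs, abs_abs]
    linarith
  have i2 : Integrable (fun x : W3 × ℕ => |Φ N (cN N x) - ψ (cN N x)|) (mwE N b) := by
    refine Integrable.of_bound (C := 2) Measurable.of_discrete.aestronglyMeasurable (Eventually.of_forall fun x => ?_)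
    have a3 := d2 (cN N x)
    have a4 := c2 N (cN N x)
    have a5 := abs_sub (Φ N (cN N x)) (ψ (cN N x))
    rw [Real.norm_eq_abs, abs_abs]
    linarith
  have i3 : Integrable (fun x : W3 × ℕ => |G a N (arcw x.2 k x.1) - ψ (cN N x)|) (mwE N b) := by
    refine Integrable.of_bound (C := 2) Measurable.of_discrete.aestronglyMeasurable (Eventually.of_forall fun x => ?_)
    have a1 := abs_sub (G a N (arcw x.2 k x.1)) (ψ (cN N x))
    have a2 := hGa N hNp (arcw x.2 k x.1)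
    have a3 := d2 (cN N x)
    rw [Real.norm_eq_abs, abs_abs]
    linarith
  show ∫ x, |G a N (arcw x.2 k x.1) - ψ (cN N x)| ∂(mwE N b) ≤ ε
  calc _ ≤ ∫ x, (|G a N (arcw x.2 k x.1) - Φ N (cN N x)| + |Φ N (cN N x) - ψ (cN N x)|) ∂(mwE N b) :=
        integral_mono i3 (i1.add i2) fun x => abs_sub_le _ _ _
    _ = _ := integral_add i1 i2
    _ ≤ ε := by linarith

/-- bounded masses -/
lemma mwE_mb (hQ : QB) {b : ℝ} (hb : 0 ≤ b) (U : Ultrafilter ℕ) : Mb (U : Filter ℕ) fun N => mwE N b := by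
  obtain ⟨C, -, hC⟩ := mw_mass hQ hb
  refine ⟨C, Eventually.of_forall fun N => le_trans ?_ (hC N)⟩
  exact ENNReal.toReal_mono (measure_ne_top _ _) (mwE_le N b _)

/-! ### the distance of the roots -/

/-- the integrals see the closed words and even second roots only -/
lemma mwE_monoT {N : ℕ} {b : ℝ} {f g : W3 × ℕ → ℝ} (h : ∀ x ∈ TN N b, Even x.2 → f x ≤ g x) :
    ∫ x, f x ∂(mwE N b) ≤ ∫ x, g x ∂(mwE N b) := by
  rw [mwE_int, mwE_int]
  refine mw_mono fun x hx => ?_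
  split_ifs with he
  · exact h x hx he
  · exact le_rfl

lemma mwE_real_le {N : ℕ} {b : ℝ} (A : Set (W3 × ℕ)) : (mwE N b).real A ≤ (mw N b).real A :=
  ENNReal.toReal_mono (measure_ne_top _ _) (mwE_le N b A)

/-- a bad set of small mass -/
lemma mwE_bad {N : ℕ} {b : ℝ} {f : W3 × ℕ → ℝ} {C : ℝ} {A : Set (W3 × ℕ)}
    (h : ∀ x ∈ TN N b, Even x.2 → x ∉ A → f x ≤ 0) (h' : ∀ x, f x ≤ C) :
    ∫ x, f x ∂(mwE N b) ≤ C * (mwE N b).real A := by
  classical
  have hA : MeasurableSet A := MeasurableSet.of_discrete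
  have e : C * (mwE N b).real A = ∫ x, A.indicator (fun _ => C) x ∂(mwE N b) := by
    rw [integral_indicator_const _ hA, smul_eq_mul, mul_comm]
  rw [e]
  refine mwE_monoT fun x hx he => ?_
  by_cases hxA : x ∈ A
  · rw [Set.indicator_of_mem hxA]
    exact h' x
  · rw [Set.indicator_of_notMem hxA]
    exact h x hx he hxA

/-- the distance of the roots -/
noncomputable def dst (N : ℕ) (x : W3 × ℕ) : ℝ := ‖ps x.1 x.2‖ / N

lemma dst_nonneg (N : ℕ) (x : W3 × ℕ) : 0 ≤ dst N x := by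
  unfold dst
  positivity

/-- **the distance of the roots is macroscopic** -/
theorem dst_l1a (hQ : QB) {b : ℝ} (hb : 0 ≤ b) (U : Ultrafilter ℕ) (hU : (U : Filter ℕ) ≤ atTop) {C : ℝ} (hC : 0 < C) :
    L1A (U : Filter ℕ) (fun N => mwE N b) cN fun N x => min C (dst N x) := by
  have hbd : ∀ y : ℝ, 0 ≤ y → |min C y| ≤ C := fun y hy => by
    rw [abs_of_nonneg (le_min hC.le hy)]
    exact min_le_left _ _
  refine L1A.of_close ⟨C, fun N x => hbd _ (dst_nonneg N x)⟩ fun ε hε => ?_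
  obtain ⟨C1, hC1, hsh⟩ := mw_short hQ
  obtain ⟨a, ha⟩ : ∃ a : ℝ, a = (ε / (2 * C * C1)) ^ 2 := ⟨_, rfl⟩
  have ha0 : 0 < a := by
    rw [ha]
    positivity
  have hsa : √a = ε / (2 * C * C1) := by
    rw [ha]
    exact Real.sqrt_sq (by positivity)
  obtain ⟨F, hF⟩ : ∃ F : ℝ × ℝ × C(unitInterval, ℂ) → ℝ, F = fun y => min C ‖y.2.2 (pj (y.2.1 / max y.1 a))‖ := ⟨_, rfl⟩
  have hFc : Continuous F := by
    rw [hF]
    have h1 : Continuous fun y : ℝ × ℝ × C(unitInterval, ℂ) => pj (y.2.1 / max y.1 a) := by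
      refine continuous_projIcc.comp (Continuous.div (by fun_prop) (by fun_prop) fun y => ?_)
      exact (ha0.trans_le (le_max_right _ _)).ne'
    have h2 : Continuous fun y : ℝ × ℝ × C(unitInterval, ℂ) => y.2.2 (pj (y.2.1 / max y.1 a)) :=
      continuous_eval.comp ((continuous_snd.comp continuous_snd).prodMk h1)
    exact continuous_const.min h2.norm
  have hFb : ∀ y, |F y| ≤ C := fun y => by
    rw [hF]
    exact hbd _ (norm_nonneg _)
  obtain ⟨G, hG⟩ : ∃ G : (ℝ × ℝ × C(unitInterval, ℂ)) →ᵇ ℝ, ∀ y, G y = F y :=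
    ⟨BoundedContinuousFunction.ofNormedAddCommGroup F hFc C fun y => by rw [Real.norm_eq_abs]; exact hFb y, fun _ => rfl⟩
  refine ⟨fun N x => G (cN N x), L1A.cont G, ?_⟩
  filter_upwards [hU (eventually_ge_atTop 1)] with N hN
  have hN0 : (0 : ℝ) < N := by exact_mod_cast hN
  have hX : (0 : ℝ) < (N : ℝ) ^ (4 / 3 : ℝ) := by positivity
  have h1 := mwE_bad (N := N) (b := b) (f := fun x => |min C (dst N x) - G (cN N x)|) (C := 2 * C)
    (A := {x | (x.1.length : ℝ) ≤ a * (N : ℝ) ^ (4 / 3 : ℝ)}) (by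
      intro x hx _ hxA
      obtain ⟨hcl, hm, -⟩ := mem_TN.1 hx
      have hlen : a < (x.1.length : ℝ) / (N : ℝ) ^ (4 / 3 : ℝ) := by
        rw [lt_div_iff₀ hX]
        exact not_le.1 hxA
      have hl0 : 0 < x.1.length := by omega
      have hl0' : (0 : ℝ) < x.1.length := by exact_mod_cast hl0
      have e1 : (x.2 : ℝ) / (N : ℝ) ^ (4 / 3 : ℝ) / max ((x.1.length : ℝ) / (N : ℝ) ^ (4 / 3 : ℝ)) a = (x.2 : ℝ) / x.1.length := by
        rw [max_eq_left hlen.le]
        field_simp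
      have e2 : ((pj ((x.2 : ℝ) / x.1.length) : unitInterval) : ℝ) = (x.2 : ℝ) / x.1.length := by
        refine pj_of (by positivity) ((div_le_one hl0').2 ?_)
        exact_mod_cast hm.le
      have e3 : F (cN N x) = min C (dst N x) := by
        rw [hF]
        show min C ‖crv x.1 x.1.length N (pj ((x.2 : ℝ) / (N : ℝ) ^ (4 / 3 : ℝ) / max ((x.1.length : ℝ) / (N : ℝ) ^ (4 / 3 : ℝ)) a))‖ = _
        rw [e1, crv_vertex (k := x.2) hl0 hm.le (by rw [e2]; field_simp), norm_div, Complex.norm_real, Real.norm_natCast]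
        rfl
      show |min C (dst N x) - G (cN N x)| ≤ 0
      rw [hG, e3, sub_self, abs_zero]) (fun x => by
      have a1 := hbd _ (dst_nonneg N x)
      have a2 := hFb (cN N x)
      have a3 := abs_sub (min C (dst N x)) (G (cN N x))
      rw [← hG] at a2
      linarith)
  refine h1.trans ?_
  have h2 := (mwE_real_le (b := b) {x : W3 × ℕ | (x.1.length : ℝ) ≤ a * (N : ℝ) ^ (4 / 3 : ℝ)}).trans (hsh N a b ha0.le hb)
  rw [hsa] at h2
  calc 2 * C * (mwE N b).real {x | (x.1.length : ℝ) ≤ a * (N : ℝ) ^ (4 / 3 : ℝ)} ≤ 2 * C * (C1 * (ε / (2 * C * C1))) :=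
        mul_le_mul_of_nonneg_left h2 (by positivity)
    _ = ε := by field_simp

/-- the end of a strand -/
lemma aW_end {b : ℝ} {N : ℕ} {x : W3 × ℕ} (hx : x ∈ TN N b) (he : Even x.2) (k : Arm) (T : LSym) :
    ‖ps (aW k T x) (aW k T x).length‖ = ‖ps x.1 x.2‖ := by
  obtain ⟨hcl, hm, -⟩ := mem_TN.1 hx
  obtain ⟨n, hn⟩ : ∃ n, x.1.length = n + 1 := ⟨x.1.length - 1, by omega⟩
  have h1 := length_arcw k hn (m := x.2) (by omega)
  rw [aW_eq, mp_length, ps_mp, LinearIsometryEquiv.norm_map, h1, ps_arcw k hcl hn he (by omega) le_rfl]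
  have hen : ps x.1 (n + 1) = 0 := by
    rw [← hn]
    exact hcl.2.1
  cases k with
  | fp => show ‖ps x.1 x.2 - ps x.1 0‖ = _; rw [ps_zero, sub_zero]
  | bq => show ‖ps x.1 (x.2 - x.2) - ps x.1 x.2‖ = _; rw [Nat.sub_self, ps_zero, zero_sub, norm_neg]
  | fq => show ‖ps x.1 (x.2 + (n + 1 - x.2)) - ps x.1 x.2‖ = _; rw [show x.2 + (n + 1 - x.2) = n + 1 by omega, hen, zero_sub, norm_neg]
  | bp => show ‖ps x.1 (n + 1 - (n + 1 - x.2)) - ps x.1 0‖ = _; rw [show n + 1 - (n + 1 - x.2) = x.2 by omega, ps_zero, sub_zero]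

/-- `zc = 1` when the end is far away -/
lemma zc_end {w : W3} (hn : 1 ≤ w.length) {S η ω κ c : ℝ} (hS : 0 < S) (hm : MdS η (ω * S) w.get) (hκ : κ * w.length + 1 ≤ η * w.length)
    (hκ0 : 0 ≤ κ) (hc : 0 < c) (hfar : 2 * c + ω + 1 / S ≤ ‖ps w w.length‖ / S) : zc κ c (crv w w.length S) = 1 := by
  have hn0 : (0 : ℝ) < w.length := by exact_mod_cast hn
  have key : 2 * c ≤ sInf ((fun t : unitInterval => ‖crv w w.length S t‖) '' {t : unitInterval | 1 - κ ≤ (t : ℝ)}) := by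
    refine le_csInf ⟨_, ⟨1, by
      show 1 - κ ≤ ((1 : unitInterval) : ℝ)
      rw [Set.Icc.coe_one]
      linarith, rfl⟩⟩ ?_
    rintro _ ⟨t, ht, rfl⟩
    have ht' : 1 - κ ≤ (t : ℝ) := ht
    show 2 * c ≤ ‖crv w w.length S t‖
    obtain ⟨y, hy⟩ : ∃ y : ℝ, y = t * w.length := ⟨_, rfl⟩
    have hy0 : 0 ≤ y := by
      rw [hy]
      exact mul_nonneg t.2.1 hn0.le
    have hy1 : y ≤ w.length := by
      rw [hy]
      exact mul_le_of_le_one_left hn0.le t.2.2
    have f1 : (⌊y⌋₊ : ℝ) ≤ y := Nat.floor_le hy0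
    have f2 : y < ⌊y⌋₊ + 1 := Nat.lt_floor_add_one y
    have f3 : ⌊y⌋₊ ≤ w.length := by
      have : (⌊y⌋₊ : ℝ) ≤ w.length := f1.trans hy1
      exact_mod_cast this
    have f4 : (1 - κ) * w.length ≤ y := by
      rw [hy]
      exact mul_le_mul_of_nonneg_right ht' hn0.le
    rw [crv_eq hn, ← hy, norm_div, Complex.norm_real, Real.norm_of_nonneg hS.le, le_div_iff₀ hS]
    have g1 := hm.2 ⌊y⌋₊ w.length f3 le_rfl (by
      rw [← sub_div, abs_div, abs_of_pos hn0, div_le_iff₀ hn0, abs_of_nonpos (by linarith [f1.trans hy1])]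
      nlinarith)
    rw [pos_get, pos_get] at g1
    have g2 := pr_near w f1 f2.le
    rw [pr_nat] at g2
    have g3 : ‖ps w w.length‖ ≤ ‖pr w y‖ + 1 + ω * S := by
      have e : ps w w.length = pr w y - (pr w y - ps w ⌊y⌋₊) - (ps w ⌊y⌋₊ - ps w w.length) := by ring
      have h1 := norm_sub_le (pr w y - (pr w y - ps w ⌊y⌋₊)) (ps w ⌊y⌋₊ - ps w w.length)
      have h2 := norm_sub_le (pr w y) (pr w y - ps w ⌊y⌋₊)
      rw [← e] at h1
      linarith
    rw [le_div_iff₀ hS] at hfar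
    have e5 : (2 * c + ω + 1 / S) * S = 2 * c * S + ω * S + 1 := by
      field_simp
    linarith
  unfold zc Pool.Agent.SCF.Z.tr
  have h1 : 1 ≤ sInf ((fun t : unitInterval => ‖crv w w.length S t‖) '' {t : unitInterval | 1 - κ ≤ (t : ℝ)}) / c - 1 := by
    have : 2 ≤ sInf ((fun t : unitInterval => ‖crv w w.length S t‖) '' {t : unitInterval | 1 - κ ≤ (t : ℝ)}) / c := by
      rw [le_div_iff₀ hc]
      linarith
    linarith
  rw [min_eq_left h1, max_eq_right zero_le_one]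


/-- the threshold of the distance of the roots -/
theorem dst_thr (hQ : QB) {b : ℝ} (hb : 0 ≤ b) (U : Ultrafilter ℕ) (hU : (U : Filter ℕ) ≤ atTop) : ∃ E0 : Set ℝ, E0.Countable ∧
    ∀ c : ℝ, c ∉ E0 → L1A (U : Filter ℕ) (fun N => mwE N b) cN fun N x => if c < dst N x then 1 else 0 := by
  have h1 : ∀ j : ℕ, ∃ E : Set ℝ, E.Countable ∧ ∀ u : ℝ, u ∉ E → L1A (U : Filter ℕ) (fun N => mwE N b) cN fun N x =>
      if min ((j : ℝ) + 1) (dst N x) ≤ u then 1 else 0 := fun j =>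
    gen_thr (mwE_mb hQ hb U) (dst_l1a hQ hb U hU (C := (j : ℝ) + 1) (by positivity))
  choose E hE h2 using h1
  refine ⟨⋃ j, E j, Set.countable_iUnion hE, fun c hc => ?_⟩
  obtain ⟨j, hj⟩ := exists_nat_gt c
  have h3 := (L1A.const (U := (U : Filter ℕ)) (P := fun N => mwE N b) (x := cN) 1).sub
    (h2 j c fun hcj => hc (Set.mem_iUnion.2 ⟨j, hcj⟩))
  refine (show (fun (N : ℕ) (x : W3 × ℕ) => (1 : ℝ) - if min ((j : ℝ) + 1) (dst N x) ≤ c then (1 : ℝ) else 0) =
    fun N x => if c < dst N x then 1 else 0 from ?_) ▸ h3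
  funext N x
  have e : min ((j : ℝ) + 1) (dst N x) ≤ c ↔ ¬ c < dst N x := by
    rw [min_le_iff, not_lt]
    constructor
    · rintro (h | h)
      · linarith
      · exact h
    · exact fun h => Or.inr h
  by_cases h : c < dst N x
  · rw [if_pos h, if_neg (fun h' => e.1 h' h), sub_zero]
  · rw [if_neg h, if_pos (e.2 h), sub_self]

/-- the hypothesis on the strands : the averages over the grid of the level gates times `zc`, scale `R`, cut-off `c0` -/
def ArcH (R c0 : ℝ) : Prop := ∀ (κ : ℝ) (B : Box) (K : ℝ) (H : ℝ × CI → ℝ → ℝ), 0 < κ → κ < 1 → B.Ok R → 0 ≤ K → TestX K H →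
  ArcJ atTop fun M S w => psV SCF.M.LG M B S (fun n s k => H (XS S s) ((k : ℝ) / n)) w.get * zc κ c0 (crv w w.length S)

open Classical in
/-- **the strands: the averages over the grid of the level gates**, roots at a distance `> c` -/
theorem grd_arc (hQ : QB) {R c0 : ℝ} (hR : 0 < R) (hc0 : 0 < c0) (hJ : ArcH R c0) {b : ℝ} (hb : 0 ≤ b) (U : Ultrafilter ℕ)
    (hU : (U : Filter ℕ) ≤ atTop) (k : Arm) (T : LSym) {S : ℕ → ℝ} (hS0 : ∀ N, 0 < S N) (hS : ∀ᶠ N : ℕ in U, S N = N) {c : ℝ}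
    (hc : 2 * c0 < c) (hz : L1A (U : Filter ℕ) (fun N => mwE N b) cN fun N x => if c < dst N x then 1 else 0) :
    GrdA (U : Filter ℕ) (fun N => mwE N b) cN (fun _ x => (aW k T x).length) (fun _ x => (aW k T x).get) S R
      fun N x => if c < dst N x then 1 else 0 := by
  intro B K H hB hK hH ε hε
  have hW : WSys (U : Filter ℕ) (fun N => mwE N b) (fun _ x => (aW k T x).length) (fun _ x => (aW k T x).get) S :=
    wsys_arm hQ hb hU k T hS0 hS
  obtain ⟨ω, hω⟩ : ∃ ω : ℝ, ω = (c - 2 * c0) / 2 := ⟨_, rfl⟩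
  have hω0 : 0 < ω := by
    rw [hω]
    linarith
  obtain ⟨η, hη, hmd⟩ := hW.md ω hω0 (ε / 2) (by positivity)
  obtain ⟨κ, hκ⟩ : ∃ κ : ℝ, κ = min (η / 2) (1 / 2) := ⟨_, rfl⟩
  have hκ0 : 0 < κ := by
    rw [hκ]
    positivity
  have hκ1 : κ < 1 := by
    rw [hκ]
    exact (min_le_right _ _).trans_lt (by norm_num)
  have hκη : κ ≤ η / 2 := by
    rw [hκ]
    exact min_le_left _ _
  -- the averages
  obtain ⟨G, hG⟩ : ∃ G : ℕ → ℝ → W3 → ℝ, G = fun M S w =>
    psV SCF.M.LG M B S (fun n s k => H (XS S s) ((k : ℝ) / n)) w.get * zc κ c0 (crv w w.length S) := ⟨_, rfl⟩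
  have hv0 : ∀ (M : ℕ) (S : ℝ) (w : W3), 0 ≤ psV SCF.M.LG M B S (fun n s k => H (XS S s) ((k : ℝ) / n)) w.get := fun M S w =>
    psP_nn fun _ => hH.nn _ _
  have hv1 : ∀ (M : ℕ) (S : ℝ) (w : W3), 0 ≤ S → psV SCF.M.LG M B S (fun n s k => H (XS S s) ((k : ℝ) / n)) w.get ≤ 1 :=
    fun M S w hS => psP_le hB hR.le hS fun _ => hH.le _ _
  have hz0 : ∀ γ : CI, 0 ≤ zc κ c0 γ := fun γ => Pool.Agent.SCF.tr_nonneg _
  have hz1 : ∀ γ : CI, zc κ c0 γ ≤ 1 := fun γ => Pool.Agent.SCF.tr_le _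
  have hG1 : ∀ M : ℕ, ∀ S : ℝ, 0 < S → ∀ w, |G M S w| ≤ 1 := by
    intro M S hS w
    rw [hG]
    show |psV _ _ _ _ _ _ * zc _ _ _| ≤ 1
    rw [abs_of_nonneg (mul_nonneg (hv0 M S w) (hz0 _))]
    exact mul_le_one₀ (hv1 M S w hS.le) (hz0 _) (hz1 _)
  have hm := mac_psi hQ k (G := fun M S w => G M S (mp T w)) (Eventually.of_forall fun M S hS' w => hG1 M S hS' _)
    (arcJ_sym T (by rw [hG]; exact hJ κ B K H hκ0 hκ1 hB hK hH)) hb U hU (ε := ε / 2) (by positivity)
  obtain ⟨M1, hM1⟩ := eventually_atTop.1 hm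
  refine ⟨M1, fun M hM => ?_⟩
  obtain ⟨ψ, hψ⟩ := hM1 M hM
  refine ⟨_, (L1A.cont ψ).mul hz, ?_⟩
  obtain ⟨N1, hN1⟩ := exists_nat_ge (1 / ω + 2 / (η * c))
  filter_upwards [hmd, hS, hU (eventually_ge_atTop (max N1 1)), hψ] with N hN hSN hN2 hψN
  have hNN1 : N1 ≤ N := (le_max_left _ _).trans hN2
  have hN0 : (0 : ℝ) < N := by exact_mod_cast (le_max_right _ _).trans hN2
  have hNb : 1 / ω + 2 / (η * c) ≤ N := hN1.trans (by exact_mod_cast hNN1)
  have hcp : 0 < c := by linarith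
  have q1 : 0 ≤ 1 / ω := by positivity
  have q2 : 0 ≤ 2 / (η * c) := by positivity
  have hNω : 1 / (N : ℝ) ≤ ω := by
    rw [div_le_iff₀ hN0]
    have : 1 / ω ≤ N := by linarith
    rw [div_le_iff₀ hω0] at this
    linarith
  have hNc : 2 ≤ N * (η * c) := by
    have : 2 / (η * c) ≤ N := by linarith
    rwa [div_le_iff₀ (by positivity)] at this
  -- the three functions
  obtain ⟨v, hv⟩ : ∃ v : W3 × ℕ → ℝ, v = fun x => psP (fun a j => SCF.M.LG a _ (aW k T x).get j) M B (S N)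
    (fun j => H (XS (S N) (aW k T x).get) ((j : ℝ) / (aW k T x).length)) (aW k T x).get := ⟨_, rfl⟩
  obtain ⟨y, hy⟩ : ∃ y : W3 × ℕ → ℝ, y = fun x => if c < dst N x then 1 else 0 := ⟨_, rfl⟩
  obtain ⟨u, hu⟩ : ∃ u : W3 × ℕ → ℝ, u = fun x => zc κ c0 (crv (aW k T x) (aW k T x).length (S N)) := ⟨_, rfl⟩
  have v0 : ∀ x, 0 ≤ v x := fun x => by rw [hv]; exact psP_nn fun _ => hH.nn _ _
  have v1 : ∀ x, v x ≤ 1 := fun x => by rw [hv]; exact psP_le hB hR.le (hS0 N).le fun _ => hH.le _ _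
  have y0 : ∀ x, 0 ≤ y x := fun x => by rw [hy]; show 0 ≤ if c < dst N x then (1 : ℝ) else 0; split_ifs <;> norm_num
  have y1 : ∀ x, y x ≤ 1 := fun x => by rw [hy]; show (if c < dst N x then (1 : ℝ) else 0) ≤ 1; split_ifs <;> norm_num
  have u0 : ∀ x, 0 ≤ u x := fun x => by rw [hu]; exact hz0 _
  have u1 : ∀ x, u x ≤ 1 := fun x => by rw [hu]; exact hz1 _
  have hψ1 : ∀ x, |ψ x| ≤ ‖ψ‖ := fun x => ψ.norm_coe_le_norm x
  have hvy : ∀ x, |v x| ≤ 1 := fun x => by rw [abs_of_nonneg (v0 x)]; exact v1 x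
  -- the integrals
  have i1 : Integrable (fun x => |v x * u x - ψ (cN N x)|) (mwE N b) := int_bd (C := 1 + ‖ψ‖) fun x => by
    rw [abs_abs]
    refine (abs_sub _ _).trans (add_le_add ?_ (hψ1 _))
    rw [abs_of_nonneg (mul_nonneg (v0 x) (u0 x))]
    exact mul_le_one₀ (v1 x) (u0 x) (u1 x)
  have i2 : Integrable (fun x => y x * (1 - u x)) (mwE N b) := int_bd (C := 1) fun x => by
    rw [abs_of_nonneg (mul_nonneg (y0 x) (by linarith [u1 x]))]
    exact mul_le_one₀ (y1 x) (by linarith [u1 x]) (by linarith [u0 x])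
  have i3 : Integrable (fun x => |v x * y x - ψ (cN N x) * y x|) (mwE N b) := int_bd (C := 1 + ‖ψ‖) fun x => by
    rw [abs_abs, ← sub_mul, abs_mul, abs_of_nonneg (y0 x)]
    refine (mul_le_of_le_one_right (abs_nonneg _) (y1 x)).trans ((abs_sub _ _).trans (add_le_add (hvy x) (hψ1 _)))
  have hle : ∀ x, |v x * y x - ψ (cN N x) * y x| ≤ |v x * u x - ψ (cN N x)| + y x * (1 - u x) := by
    intro x
    have e : v x * y x - ψ (cN N x) * y x = (v x * u x - ψ (cN N x)) * y x + v x * (y x * (1 - u x)) := by ring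
    rw [e]
    refine (abs_add_le _ _).trans (add_le_add ?_ ?_)
    · rw [abs_mul, abs_of_nonneg (y0 x)]
      exact mul_le_of_le_one_right (abs_nonneg _) (y1 x)
    · have a1 : 0 ≤ y x * (1 - u x) := mul_nonneg (y0 x) (by linarith [u1 x])
      rw [abs_of_nonneg (mul_nonneg (v0 x) a1)]
      exact mul_le_of_le_one_left a1 (v1 x)
  have hbad : ∫ x, y x * (1 - u x) ∂(mwE N b) ≤ ε / 2 := by
    refine (mwE_bad (A := {x | ¬ MdS η (ω * S N) (aW k T x).get}) (C := 1) ?_ ?_).trans (by rw [one_mul]; exact hN)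
    · intro x hx he hxA
      have hmx : MdS η (ω * S N) (aW k T x).get := not_not.1 hxA
      by_cases hcd : c < dst N x
      · have hend := aW_end hx he k T
        have hcd' : c < ‖ps x.1 x.2‖ / N := hcd
        have hlen : c * N < (aW k T x).length := by
          have a1 : c * N < ‖ps (aW k T x) (aW k T x).length‖ := by
            rw [hend]
            rwa [lt_div_iff₀ hN0] at hcd'
          exact a1.trans_le (nr_norm_ps _ _)
        have hzz : u x = 1 := by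
          rw [hu]
          show zc κ c0 (crv (aW k T x) (aW k T x).length (S N)) = 1
          rw [hSN] at hmx ⊢
          refine zc_end hmx.1 hN0 hmx ?_ hκ0.le hc0 ?_
          · have a2 : κ * (aW k T x).length ≤ η / 2 * (aW k T x).length := mul_le_mul_of_nonneg_right hκη (Nat.cast_nonneg _)
            have a3 : η * (c * N) ≤ η * (aW k T x).length := mul_le_mul_of_nonneg_left hlen.le hη.le
            nlinarith
          · rw [hend]
            linarith
        rw [hzz, sub_self, mul_zero]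
      · rw [hy]
        show (if c < dst N x then (1 : ℝ) else 0) * _ ≤ 0
        rw [if_neg hcd, zero_mul]
    · intro x
      exact mul_le_one₀ (y1 x) (by linarith [u1 x]) (by linarith [u0 x])
  have e1 : ∫ x, |psP (fun a j => SCF.M.LG a _ (aW k T x).get j) M B (S N) (fun j => H (XS (S N) (aW k T x).get)
      ((j : ℝ) / (aW k T x).length) * if c < dst N x then 1 else 0) (aW k T x).get -
      ψ (cN N x) * (if c < dst N x then 1 else 0)| ∂(mwE N b) = ∫ x, |v x * y x - ψ (cN N x) * y x| ∂(mwE N b) := by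
    refine integral_congr_ae (Eventually.of_forall fun x => ?_)
    rw [hv, hy]
    simp only [psP_mulc]
  have e2 : ∫ x, |v x * u x - ψ (cN N x)| ∂(mwE N b) ≤ ε / 2 := by
    refine le_trans (le_of_eq ?_) hψN
    refine integral_congr_ae (Eventually.of_forall fun x => ?_)
    simp only [← aW_eq, hG, hv, hu, hSN]
    rfl
  refine le_trans (le_of_eq e1) ?_
  calc ∫ x, |v x * y x - ψ (cN N x) * y x| ∂(mwE N b) ≤
        ∫ x, (|v x * u x - ψ (cN N x)| + y x * (1 - u x)) ∂(mwE N b) := integral_mono i3 (i1.add i2) hle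
    _ = ∫ x, |v x * u x - ψ (cN N x)| ∂(mwE N b) + ∫ x, y x * (1 - u x) ∂(mwE N b) := integral_add i1 i2
    _ ≤ ε := by linarith

open Classical in
/-- the hypotheses of `gate1`, `gateB`, `gateC` -/
structure ArcS (U : Ultrafilter ℕ) (b : ℝ) (k : Arm) (T : LSym) (S : ℕ → ℝ) (R c : ℝ) : Prop where
  mb : Mb (U : Filter ℕ) fun N => mwE N b
  ws : WSys (U : Filter ℕ) (fun N => mwE N b) (fun _ x => (aW k T x).length) (fun _ x => (aW k T x).get) S
  tS : Tendsto S (U : Filter ℕ) atTop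
  zl : L1A (U : Filter ℕ) (fun N => mwE N b) cN fun N x => if c < dst N x then 1 else 0
  gr : GrdA (U : Filter ℕ) (fun N => mwE N b) cN (fun _ x => (aW k T x).length) (fun _ x => (aW k T x).get) S R
    fun N x => if c < dst N x then 1 else 0

/-- **the strands of the closed words with two roots at a distance `> c`** -/
theorem arc_sys (hQ : QB) {b : ℝ} (hb : 0 ≤ b) (U : Ultrafilter ℕ) (hU : (U : Filter ℕ) ≤ atTop) {S : ℕ → ℝ} (hS0 : ∀ N, 0 < S N)
    (hS : ∀ᶠ N : ℕ in U, S N = N) : ∃ E0 : Set ℝ, E0.Countable ∧ ∀ c : ℝ, c ∉ E0 → ∀ (R c0 : ℝ), 0 < R → 0 < c0 → 2 * c0 < c →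
      ArcH R c0 → ∀ (k : Arm) (T : LSym), ArcS U b k T S R c := by
  obtain ⟨E0, hE0, h1⟩ := dst_thr hQ hb U hU
  refine ⟨E0, hE0, fun c hc R c0 hR hc0 hcc hJ k T => ⟨mwE_mb hQ hb U, wsys_arm hQ hb hU k T hS0 hS, ?_, h1 c hc,
    grd_arc hQ hR hc0 hJ hb U hU k T hS0 hS hcc (h1 c hc)⟩⟩
  have h2 : Tendsto (fun N : ℕ => (N : ℝ)) (U : Filter ℕ) atTop := tendsto_natCast_atTop_atTop.mono_left hU
  exact h2.congr' (hS.mono fun N hN => hN.symm)

end Pool.Agent.ROT.F3
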