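import Pool.Agent.ROT.F3C0P
import Pool.Agent.ROT.F3C0D
import Pool.Agent.ROT.F3C0G
import Pool.Agent.ROT.F3K2B

/-!
# ROT, F3 (B), rows C0At, S_a (helper25, literal of helper86): the foreign gates on the words of the rotated lattice

* `psF` : five conditions of a curve with three times (levels and distances of the two gates, no return behind the second one);
* `psF_word` : the conditions for words, with an error `1 / N`;
* **`det_words`** : the tube and the three start gates of the averages give the double gate for every base level of a window;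
* **`det_lim`** : the limit form.
-/

set_option autoImplicit false

namespace Pool.Agent.ROT.F3

open MeasureTheory Filter Topology Set unitInterval
open Pool.Agent.ROT.F3.LF
open Pool.Agent.ROT.F3.CK
open scoped NNReal ENNReal Classical

/-! ### 1. Five conditions -/

/-- every point of the piece -/
private lemma cutc_al {g : C(I, ℂ)} {a b : I} (h : a ≤ b) {p : ℂ → Prop} :
    (∀ s : I, p (cutc g a b s)) ↔ ∀ u, a ≤ u → u ≤ b → p (g u - g a) := by
  constructor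
  · intro k u h1 h2
    rcases eq_or_lt_of_le h with e | e
    · subst e
      obtain rfl : u = a := le_antisymm h2 h1
      have := k 0
      rwa [cutc_zero, ← sub_self (g u)] at this
    · have e0 : 0 < (b : ℝ) - a := sub_pos.2 e
      have e1 : (a : ℝ) ≤ u := h1
      have e2 : (u : ℝ) ≤ b := h2
      have := k ⟨((u : ℝ) - a) / (b - a), div_nonneg (by linarith) e0.le, (div_le_one e0).2 (by linarith)⟩
      rw [cutc_apply] at this
      have e3 : cvx a b ⟨((u : ℝ) - a) / (b - a), div_nonneg (by linarith) e0.le, (div_le_one e0).2 (by linarith)⟩ = u := by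
        apply Subtype.ext
        rw [cvx_coe]
        show (1 - ((u : ℝ) - a) / (b - a)) * a + ((u : ℝ) - a) / (b - a) * b = u
        field_simp
        ring
      rwa [e3] at this
  · intro k s
    rw [cutc_apply]
    have e1 : (a : ℝ) ≤ b := h
    have s0 := s.2.1
    have s1 := s.2.2
    refine k _ ?_ ?_
    · show (a : ℝ) ≤ (cvx a b s : I)
      rw [cvx_coe]
      nlinarith
    · show ((cvx a b s : I) : ℝ) ≤ b
      rw [cvx_coe]
      nlinarith

/-- no return in the direction `d`, up to the distance `F` -/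
noncomputable def fNRt (d : ℂ) (F : ℝ) (v : ℂ) : ℝ := min (-lv d v) (F - ‖v‖)

lemma fNRt_lip {d : ℂ} (hd : ‖d‖ = 1) (F : ℝ) : LipschitzWith 1 (fNRt d F) := by
  refine LipschitzWith.of_le_add_mul 1 fun x y => ?_
  have h1 := abs_le.1 ((lv_abs_le hd (x - y)))
  have h2 : lv d (x - y) = lv d x - lv d y := lv_sub d x y
  have h3 : ‖y‖ ≤ ‖x‖ + ‖x - y‖ := by
    calc ‖y‖ = ‖x - (x - y)‖ := by congr 1; ring
      _ ≤ _ := norm_sub_le _ _
  have h5 : dist x y = ‖x - y‖ := dist_eq_norm x y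
  rw [h2] at h1
  unfold fNRt
  rw [h5]
  push_cast
  rw [one_mul, ← min_add_add_right]
  exact min_le_min (by linarith [h1.1]) (by linarith)

/-- **the five conditions** -/
noncomputable def psF (d : ℂ) (Lc Lx E F : ℝ) (h : C(I, ℂ)) (a b z : I) : ℝ :=
  max (max (lv d (h a) - Lc) (lv d (h b) - Lx)) (max (max (‖h a‖ - (Lc + E)) (‖h b‖ - (Lx + E))) (stS (fNRt d F) (cutc h b z)))

variable {d : ℂ} {Lc Lx E F : ℝ}

theorem psF_cont (hd : ‖d‖ = 1) : Continuous fun p : C(I, ℂ) × I × I × I => psF d Lc Lx E F p.1 p.2.1 p.2.2.1 p.2.2.2 := by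
  have e1 : Continuous fun p : C(I, ℂ) × I × I × I => p.1 p.2.1 :=
    (continuous_eval : Continuous fun p : C(I, ℂ) × I => p.1 p.2).comp (continuous_fst.prodMk (continuous_fst.comp continuous_snd))
  have e2 : Continuous fun p : C(I, ℂ) × I × I × I => p.1 p.2.2.1 :=
    (continuous_eval : Continuous fun p : C(I, ℂ) × I => p.1 p.2).comp
      (continuous_fst.prodMk (continuous_fst.comp (continuous_snd.comp continuous_snd)))
  have e3 : Continuous fun p : C(I, ℂ) × I × I × I => stS (fNRt d F) (cutc p.1 p.2.2.1 p.2.2.2) :=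
    (stS_lip (fNRt_lip hd F)).continuous.comp (cutc_continuous.comp (continuous_fst.prodMk (continuous_snd.comp continuous_snd)))
  have l := (lv_lip hd).continuous
  unfold psF
  exact (((l.comp e1).sub continuous_const).max ((l.comp e2).sub continuous_const)).max
    (((e1.norm.sub continuous_const).max (e2.norm.sub continuous_const)).max e3)

theorem psF_le (hd : ‖d‖ = 1) {h : C(I, ℂ)} {a b z : I} (hbz : b ≤ z) : psF d Lc Lx E F h a b z ≤ 0 ↔
    lv d (h a) ≤ Lc ∧ lv d (h b) ≤ Lx ∧ ‖h a‖ ≤ Lc + E ∧ ‖h b‖ ≤ Lx + E ∧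
      ∀ v : I, b ≤ v → v ≤ z → 0 ≤ lv d (h v - h b) ∨ F ≤ ‖h v - h b‖ := by
  have h1 : stS (fNRt d F) (cutc h b z) ≤ 0 ↔ ∀ v : I, b ≤ v → v ≤ z → 0 ≤ lv d (h v - h b) ∨ F ≤ ‖h v - h b‖ := by
    rw [stS_le_iff (fNRt_lip hd F).continuous, cutc_al hbz (p := fun v => fNRt d F v ≤ 0)]
    refine forall_congr' fun v => imp_congr_right fun _ => imp_congr_right fun _ => ?_
    unfold fNRt
    rw [min_le_iff, neg_nonpos, sub_nonpos]
  unfold psF
  rw [max_le_iff, max_le_iff, max_le_iff, max_le_iff, sub_nonpos, sub_nonpos, sub_nonpos, sub_nonpos, h1]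
  tauto

/-- **the conditions for words** -/
theorem psF_word (hd : ‖d‖ = 1) {N : ℕ} (hN : 1 ≤ N) {w : W3} {m c b : ℕ} (hcm : c ≤ m) (hbm : b ≤ m) (hm : m ≤ w.length)
    (eb : Even b) (h1 : lv d (ps w c) ≤ Lc * N) (h2 : lv d (ps w b) ≤ Lx * N) (h3 : ‖ps w c‖ ≤ (Lc + E) * N)
    (h4 : ‖ps w b‖ ≤ (Lx + E) * N)
    (h5 : ∀ j : ℕ, b < j → j ≤ m → lv d (ps w b) < lv d (ps w j) ∨ F * N ≤ ‖ps w j - ps w b‖) :
    psF d Lc Lx E F (cN N (w, m)).2.2 (fr c w.length) (fr b w.length) (fr m w.length) ≤ 1 / N := by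
  have hN0 : (0 : ℝ) < N := by exact_mod_cast hN
  have hN1 : (0 : ℝ) ≤ 1 / N := by positivity
  have v : ∀ k : ℕ, k ≤ w.length → (cN N (w, m)).2.2 (fr k w.length) = ps w k / ((N : ℝ) : ℂ) := fun k hk => crv_fr w hk N
  have k1 : lv d (ps w c / ((N : ℝ) : ℂ)) ≤ Lc := by
    rw [stlv_div, div_le_iff₀ hN0]
    exact h1
  have k2 : lv d (ps w b / ((N : ℝ) : ℂ)) ≤ Lx := by
    rw [stlv_div, div_le_iff₀ hN0]
    exact h2
  have k3 : ‖ps w c / ((N : ℝ) : ℂ)‖ ≤ Lc + E := by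
    rw [stnorm_div _ hN0, div_le_iff₀ hN0]
    exact h3
  have k4 : ‖ps w b / ((N : ℝ) : ℂ)‖ ≤ Lx + E := by
    rw [stnorm_div _ hN0, div_le_iff₀ hN0]
    exact h4
  have k5 : stS (fNRt d F) (cutc (cN N (w, m)).2.2 (fr b w.length) (fr m w.length)) ≤ 1 / N := by
    have e : cutc (cN N (w, m)).2.2 (fr b w.length) (fr m w.length) = crv (seg w b m) (m - b) N :=
      (crv_seg eb hbm hm le_rfl N).symm
    rw [e]
    have := stS_le_of (fNRt_lip hd F) (p := seg w b m) (n := m - b) (S := N) (a := 0) hN0 fun k hk => by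
      rw [ps_seg eb hbm hm hk]
      show fNRt d F ((ps w (b + k) - ps w b) / ((N : ℝ) : ℂ)) ≤ 0
      rcases Nat.eq_zero_or_pos k with rfl | hk0
      · rw [add_zero, sub_self, zero_div]
        unfold fNRt
        exact (min_le_left _ _).trans (by rw [show lv d 0 = 0 by unfold lv; simp, neg_zero])
      · unfold fNRt
        rcases h5 (b + k) (by omega) (by omega) with h6 | h6
        · refine (min_le_left _ _).trans ?_
          rw [stlv_div, lv_sub, neg_nonpos]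
          exact div_nonneg (by linarith) hN0.le
        · refine (min_le_right _ _).trans ?_
          rw [stnorm_div _ hN0, sub_nonpos, le_div_iff₀ hN0]
          exact h6
    simpa using this
  unfold psF
  rw [v c (hcm.trans hm), v b (hbm.trans hm)]
  exact max_le (max_le (by linarith) (by linarith)) (max_le (max_le (by linarith) (by linarith)) k5)

/-! ### 2. Cuts from the averages -/

section cuts

variable {T : LSym} {D : ℝ} {v : W3} {s : ℕ}

lemma lv_mp1 (hT : T.L d = 1) (v : W3) (i : ℕ) : lv 1 (ps (mp T v) i) = lv d (ps v i) := by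
  rw [ps_mp, ← hT, lv_L]

lemma armC_mp (hT : T.L d = 1) (A : ArmC D d v s) : ArmC D 1 (mp T v) s where
  near i hi := by
    obtain ⟨τ, h0, h1⟩ := A.near i hi
    refine ⟨τ, h0, ?_⟩
    have e : ps (mp T v) i - (τ : ℂ) * 1 = T.L (ps v i - (τ : ℂ) * d) := by
      rw [ps_mp, map_sub, ← Complex.real_smul, ← Complex.real_smul, map_smul, hT]
    rw [e, LinearIsometryEquiv.norm_map]
    exact h1
  back i j hij hj := by
    rw [lv_mp1 hT, lv_mp1 hT]
    exact A.back i j hij hj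

lemma cutA_mp (hT : T.L d = 1) {c : ℕ} : CutA 1 (mp T v) s c ↔ CutA d v s c := by
  unfold CutA
  simp only [lv_mp1 hT]

/-- **a cut from the average over the box** -/
theorem cut_gz (hT : T.L d = 1) (A : ArmC D d v s) (hst : s ≤ v.length) {Fa S d1 u c0 : ℝ} {M : ℕ}
    (far : ∀ i, s < i → i ≤ v.length → Fa ≤ ‖ps v i‖) (hS : 0 < S) (hd1 : 0 < d1) (hu : 26 * d1 ≤ u)
    (hF : 2 * u * S < Fa) (hD : 5 * D < 64 * u * S) (hp : 0 < C0P.gz (C0P.bxu u d1) c0 M S (mp T v)) :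
    ∃ c, CutA d v s c ∧ c < v.length ∧ u * S ≤ lv d (ps v c) ∧ lv d (ps v c) ≤ (u + 26 * d1) * S := by
  obtain ⟨c, h1, h2, h3, h4, -⟩ := C0P.ps_cut1 (armC_mp hT A) hS (C0P.bxu_ok hd1 hu) hF hD
    (fun i hi hi' => by
      rw [mp_length] at hi'
      rw [ps_mp, LinearIsometryEquiv.norm_map]
      exact far i hi hi') (by rw [mp_length]; exact hst) (C0P.gz_pos hp)
  rw [mp_length] at h2
  rw [lv_mp1 hT] at h3 h4
  exact ⟨c, (cutA_mp hT).1 h1, h2, h3, h4⟩

/-- the distance of a point of the arm from the origin -/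
lemma arm_nrm (he : ‖d‖ = 1) (A : ArmC D d v s) {i : ℕ} (hi : i ≤ s) : ‖ps v i‖ ≤ lv d (ps v i) + 2 * D := by
  obtain ⟨τ, h0, h1⟩ := A.near i hi
  have h2 : ‖ps v i‖ ≤ ‖(τ : ℂ) * d‖ + D := by
    calc ‖ps v i‖ = ‖(τ : ℂ) * d + (ps v i - (τ : ℂ) * d)‖ := by congr 1; ring
      _ ≤ _ := (norm_add_le _ _).trans (by linarith)
  have h3 : ‖(τ : ℂ) * d‖ = τ := by
    rw [norm_mul, he, mul_one, Complex.norm_real, Real.norm_of_nonneg h0]
  have h4 : lv d ((τ : ℂ) * d) = τ := by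
    have h6 : lv d d = 1 := by
      unfold lv
      rw [mul_comm, Complex.mul_conj, Complex.ofReal_re, Complex.normSq_eq_norm_sq, he]
      norm_num
    rw [lv_smul, h6, mul_one]
  have h5 := (abs_le.1 ((lv_abs_le he (ps v i - (τ : ℂ) * d)).trans h1)).1
  rw [lv_sub, h4] at h5
  linarith

lemma armC_take {w : W3} {m : ℕ} (hm : m ≤ w.length) (hs : s ≤ m) (A : ArmC D d w s) : ArmC D d (w.take m) s where
  near i hi := by
    rw [ps_take w (hi.trans hs) hm]
    exact A.near i hi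
  back i j hij hj := by
    rw [ps_take w ((hij.trans hj).trans hs) hm, ps_take w (hj.trans hs) hm]
    exact A.back i j hij hj

end cuts

/-! ### 3. The words of the rotated lattice -/

/-- the numbers; `f` = record of the gates, `X0` = left end of the window of the base levels, `t i` = places of the boxes -/
structure SadN (f : Tp) (D F d1 ρ X0 : ℝ) (t : Fin 3 → ℝ) : Prop where
  D0 : 0 < D
  d0 : 0 < d1
  ρ0 : 0 < ρ
  room : RoomU f (3 * D * ρ) (2 * d1 * ρ) X0 ((F - 4 * D) * ρ)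
  th : f.th * f.m + 132 * (d1 * ρ) < f.m
  l0 : 2 * (d1 * ρ) ≤ X0 + f.l
  w : 15 * (D * ρ) ≤ 64 * (X0 + f.l)
  far : 2 * (X0 + f.l + f.m + 105 * (d1 * ρ)) < (F - 4 * D) * ρ
  t0 : X0 + f.l + 24 * (d1 * ρ) ≤ t 0 * ρ ∧ t 0 * ρ ≤ X0 + f.l + 25 * (d1 * ρ)
  t1 : X0 + f.l + f.th * f.m + 104 * (d1 * ρ) ≤ t 1 * ρ ∧ t 1 * ρ ≤ X0 + f.l + f.th * f.m + 105 * (d1 * ρ)
  t2 : X0 + f.l + f.m + 104 * (d1 * ρ) ≤ t 2 * ρ ∧ t 2 * ρ ≤ X0 + f.l + f.m + 105 * (d1 * ρ)

/-- the far radius behind the second gate -/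
noncomputable def sadF (f : Tp) (D F d1 ρ X0 : ℝ) : ℝ := (F - 4 * D) * ρ - (f.l + f.m + X0 + 184 * (d1 * ρ) + 6 * (D * ρ))

/-- **the foreign gates on the words of the rotated lattice** -/
theorem det_words0 {f : Tp} {G : GP} {T : LSym} {u : ℂ} {l1 l2 dl D F ρ d1 X0 r : ℝ} {t c0 : Fin 3 → ℝ} (he : ‖d‖ = 1)
    (hu : ‖u‖ = 1) (hT : T.L d = 1) (hP : f.Ok) (hG : G.Ok f) (hG1 : 0 < G.ρ1) (hG2 : 0 < G.ρ'') (hl1 : 0 < l1) (hl2 : 0 < l2)
    (hdl : 0 < dl) (hz : ‖u - 1‖ * (F + 2 * D) ≤ D / 4) (n : SadN f D F d1 ρ X0 t) (hr : r < (F - 4 * D) * ρ) (M : ℕ → ℕ) :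
    ∀ᶠ N : ℕ in atTop, ∀ x : W3 × ℕ, Spt x → 0 < gX l1 l2 dl D F ρ d (rotX u (cN N x)) →
      (∀ i, 0 < C0P.gz (C0P.bxu (t i) d1) (c0 i) (M N) (ρ * N) (mp T (arcw x.2 .fp x.1))) →
      ∀ p : ℝ, X0 ≤ p → p ≤ X0 + 24 * (d1 * ρ) →
        (r < dst N x ∧ sgE G T p N .fp x) ∧ sgc G T p N .fp x < sgx G T p N .fp x ∧ sgx G T p N .fp x ≤ x.2 ∧
          psF d (X0 + f.l + 104 * (d1 * ρ)) (X0 + f.l + f.m + 184 * (d1 * ρ)) (6 * (D * ρ)) (sadF f D F d1 ρ X0) (cN N x).2.2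
            (fr (sgc G T p N .fp x) x.1.length) (fr (sgx G T p N .fp x) x.1.length) (fr x.2 x.1.length) ≤ 1 / N := by
  have k1 : Tendsto (fun N : ℕ => G.ρ1 * (N : ℝ)) atTop atTop := tendsto_natCast_atTop_atTop.const_mul_atTop hG1
  have k2 : Tendsto (fun N : ℕ => G.ρ'' * (N : ℝ)) atTop atTop := tendsto_natCast_atTop_atTop.const_mul_atTop hG2
  filter_upwards [eventually_ge_atTop 1, k1.eventually_ge_atTop 1, k2.eventually_ge_atTop 1] with N hN n1 n2
  intro x hx hgX hgz p hp0 hp1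
  have hN0 : (0 : ℝ) < N := by exact_mod_cast hN
  have hρ := n.ρ0
  have hd := n.d0
  have hD := n.D0
  have hF4 : 0 < F - 4 * D := by
    refine pos_of_mul_pos_left (b := ρ) ?_ hρ.le
    have h1 := n.far
    have h2 := n.l0
    have h3 : 0 < d1 * ρ := mul_pos hd hρ
    have h4 := hP.m
    linarith
  have hF : 0 ≤ F + 2 * D := by linarith
  obtain ⟨-, s, hs, A, far⟩ := gX_word (w := x.1) (m := x.2) he hl1 hl2 hdl hρ hD hF hu hz hN hgX
  have fend := gX_end (w := x.1) (m := x.2) he hl1 hl2 hdl hρ hD hF hu hz hN hgX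
  have hm : x.2 ≤ x.1.length := hx.2.2.le
  set v := arcw x.2 .fp x.1 with hv
  have hvt : v = x.1.take x.2 := rfl
  have hvl : v.length = x.2 := al_fp hm
  have pv : ∀ i, i ≤ x.2 → ps v i = ps x.1 i := fun i hi => by rw [hvt, ps_take x.1 hi hm]
  have A1 : ArmC (3 * D * (ρ * N)) d v s := armC_take hm hs A
  have far1 : ∀ i, s < i → i ≤ v.length → (F - 4 * D) * (ρ * N) ≤ ‖ps v i‖ := fun i hi hi' => by
    rw [hvl] at hi'
    rw [pv i hi']
    exact far i hi hi'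
  have hS : 0 < ρ * N := mul_pos hρ hN0
  have hsv : s ≤ v.length := by rw [hvl]; exact hs
  have hdρ : 0 < d1 * ρ := mul_pos hd hρ
  have hDρ : 0 < D * ρ := mul_pos hD hρ
  -- the boxes
  have box : ∀ i, X0 + f.l + 24 * (d1 * ρ) ≤ t i * ρ → t i * ρ ≤ X0 + f.l + f.m + 105 * (d1 * ρ) →
      ∃ c, CutA d v s c ∧ c < v.length ∧ t i * (ρ * N) ≤ lv d (ps v c) ∧ lv d (ps v c) ≤ (t i + 26 * d1) * (ρ * N) := by
    intro i h1 h2
    have g1 : 26 * d1 ≤ t i := by
      have := n.l0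
      refine le_of_mul_le_mul_right ?_ hρ
      linarith
    refine cut_gz hT A1 hsv far1 hS hd g1 ?_ ?_ (hgz i)
    · have := n.far
      calc 2 * t i * (ρ * N) = 2 * (t i * ρ) * N := by ring
        _ < (F - 4 * D) * ρ * N := mul_lt_mul_of_pos_right (by linarith) hN0
        _ = _ := by ring
    · have := n.w
      calc 5 * (3 * D * (ρ * N)) = 15 * (D * ρ) * N := by ring
        _ < 64 * (t i * ρ) * N := mul_lt_mul_of_pos_right (by linarith) hN0
        _ = _ := by ring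
  have hPl := hP.l
  have hPm := hP.m
  have hPt : 0 < f.th * f.m := mul_pos hP.th hP.m
  have hth := n.th
  obtain ⟨c1, a1, b1, a2, a3⟩ := box 0 n.t0.1 (by linarith [n.t0.2])
  obtain ⟨c2, a4, b2, a5, a6⟩ := box 1 (by linarith [n.t1.1]) (by linarith [n.t1.2])
  obtain ⟨c3, a7, b3, a8, a9⟩ := box 2 (by linarith [n.t2.1]) n.t2.2
  have cut : Cut3 d v s f (2 * d1 * ρ) X0 N c1 c2 c3 := by
    have m0 := mul_le_mul_of_nonneg_right n.t0.1 hN0.le
    have m0' := mul_le_mul_of_nonneg_right n.t0.2 hN0.le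
    have m1 := mul_le_mul_of_nonneg_right n.t1.1 hN0.le
    have m1' := mul_le_mul_of_nonneg_right n.t1.2 hN0.le
    have m2 := mul_le_mul_of_nonneg_right n.t2.1 hN0.le
    have m2' := mul_le_mul_of_nonneg_right n.t2.2 hN0.le
    have m3 := mul_lt_mul_of_pos_right hth hN0
    have m4 : 0 < d1 * ρ * N := mul_pos hdρ hN0
    refine ⟨a1, a4, a7, ?_, ?_, ?_, ?_, ?_, ?_⟩
    · nlinarith
    · nlinarith
    · nlinarith
    · nlinarith
    · nlinarith
    · nlinarith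
  have hsw : SW v := fun i k hi hk e => by
    rw [hvl] at hi hk
    rw [pv i hi, pv k hk] at e
    exact hx.1.2.2 i k (lt_of_le_of_lt hi hx.2.2) (lt_of_le_of_lt hk hx.2.2) e
  have A2 : ArmC (3 * D * ρ * N) d v s := by
    have e : 3 * D * ρ * (N : ℝ) = 3 * D * (ρ * N) := by ring
    rw [e]
    exact A1
  have far2 : ∀ i : ℕ, s < i → i ≤ v.length → (F - 4 * D) * ρ * N ≤ ‖ps v i‖ := fun i hi hi' => by
    have e : (F - 4 * D) * ρ * (N : ℝ) = (F - 4 * D) * (ρ * N) := by ring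
    rw [e]
    exact far1 i hi hi'
  obtain ⟨q1, q2, q3, q4, q5, q6, q7, q8, q9, q10, q11⟩ := det_sg (k := .fp) (x := x) hT hP hG hN0 n1 n2 hsw hsv A2 far2
    n.room cut b3 hp0 (show p ≤ X0 + 12 * (2 * d1 * ρ) by linarith)
  rw [← hv] at q2 q3 q6 q7 q8 q9 q10 q11
  have e2 : sgx G T p N .fp x ≤ x.2 := by rw [← hvl]; exact q5.trans b3.le
  have e1 : sgc G T p N .fp x ≤ x.2 := q4.le.trans e2
  have l1 : lv d (ps v (sgc G T p N .fp x)) ≤ (X0 + f.l + 104 * (d1 * ρ)) * N :=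
    q7.trans (mul_le_mul_of_nonneg_right (by linarith) hN0.le)
  have l2 : lv d (ps v (sgx G T p N .fp x)) ≤ (X0 + f.l + f.m + 184 * (d1 * ρ)) * N :=
    q9.trans (mul_le_mul_of_nonneg_right (by linarith) hN0.le)
  have l3 := arm_nrm he A2 q2.2.1
  have l4 := arm_nrm he A2 q3.2.1
  refine ⟨⟨?_, q1⟩, q4, e2, ?_⟩
  · unfold dst
    rw [lt_div_iff₀ hN0]
    calc r * N < (F - 4 * D) * ρ * N := mul_lt_mul_of_pos_right hr hN0
      _ = (F - 4 * D) * (ρ * N) := by ring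
      _ ≤ _ := fend
  · rw [pv _ e1] at l1 l3
    rw [pv _ e2] at l2 l4
    refine psF_word he hN e1 e2 hm q3.1 l1 l2 ?_ ?_ fun j hj hj' => ?_
    · linarith [show (X0 + f.l + 104 * (d1 * ρ) + 6 * (D * ρ)) * (N : ℝ) = (X0 + f.l + 104 * (d1 * ρ)) * N + 2 * (3 * D * ρ * N) by ring]
    · linarith [show (X0 + f.l + f.m + 184 * (d1 * ρ) + 6 * (D * ρ)) * (N : ℝ) =
        (X0 + f.l + f.m + 184 * (d1 * ρ)) * N + 2 * (3 * D * ρ * N) by ring]
    · have h := q11 j hj (by rw [hvl]; exact hj')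
      rw [pv _ e2, pv j hj'] at h
      refine h.imp id fun h => ?_
      have e : (F - 4 * D) * ρ - (f.l + f.m + X0 + 92 * (2 * d1 * ρ) + 2 * (3 * D * ρ)) = sadF f D F d1 ρ X0 := by
        unfold sadF
        ring
      rw [e] at h
      exact h

theorem det_words {f : Tp} {G : GP} {T : LSym} {u : ℂ} {l1 l2 dl D F ρ d1 X0 r : ℝ} {t c0 : Fin 3 → ℝ} (he : ‖d‖ = 1)
    (hu : ‖u‖ = 1) (hT : T.L d = 1) (hP : f.Ok) (hG : G.Ok f) (hG1 : 0 < G.ρ1) (hG2 : 0 < G.ρ'') (hl1 : 0 < l1) (hl2 : 0 < l2)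
    (hdl : 0 < dl) (hz : ‖u - 1‖ * (F + 2 * D) ≤ D / 4) (n : SadN f D F d1 ρ X0 t) (hr : r < (F - 4 * D) * ρ) (M : ℕ → ℕ) :
    ∀ᶠ N : ℕ in atTop, ∀ x : W3 × ℕ, Spt x → 0 < gX l1 l2 dl D F ρ d (rotX u (cN N x)) →
      (∀ i, 0 < C0P.gz (C0P.bxu (t i) d1) (c0 i) (M N) (ρ * N) (mp T (arcw x.2 .fp x.1))) →
      ∀ p : ℝ, X0 ≤ p → p ≤ X0 + 24 * (d1 * ρ) →
        (r < dst N x ∧ sgE G T p N .fp x) ∧ sgc G T p N .fp x ≤ x.2 ∧ sgx G T p N .fp x ≤ x.2 ∧
          psF d (X0 + f.l + 104 * (d1 * ρ)) (X0 + f.l + f.m + 184 * (d1 * ρ)) (6 * (D * ρ)) (sadF f D F d1 ρ X0) (cN N x).2.2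
            (fr (sgc G T p N .fp x) x.1.length) (fr (sgx G T p N .fp x) x.1.length) (fr x.2 x.1.length) ≤ 1 / N := by
  filter_upwards [det_words0 (G := G) (c0 := c0) he hu hT hP hG hG1 hG2 hl1 hl2 hdl hz n hr M] with N hN x hx h1 h2 p hp0 hp1
  obtain ⟨a1, a2, a3, a4⟩ := hN x hx h1 h2 p hp0 hp1
  exact ⟨a1, a2.le.trans a3, a3, a4⟩

/-! ### 4. The limit -/

/-- almost all turned curves -/
private lemma sad_rot {z : ℂ} (hz : ‖z‖ = 1) {P : Measure CC.Gm} (hPz : P.map (rotX z) = P) {q : CC.Gm → Prop}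
    (h : ∀ᵐ g ∂P, q g) : ∀ᵐ g ∂P, q (rotX z⁻¹ g) := by
  have hz0 : z ≠ 0 := fun h0 => by
    rw [h0, norm_zero] at hz
    exact zero_ne_one hz
  have e : P.map (rotX z⁻¹) = P := by
    conv_lhs => rw [← hPz]
    rw [Measure.map_map (rotX_cont z⁻¹).measurable (rotX_cont z).measurable]
    have e2 : rotX z⁻¹ ∘ rotX z = id := by
      funext y
      show rotX z⁻¹ (rotX z y) = y
      unfold rotX
      rw [smul_smul, inv_mul_cancel₀ hz0, one_smul]
    rw [e2, Measure.map_id]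
  refine ae_of_ae_map (rotX_cont z⁻¹).measurable.aemeasurable ?_
  rw [e]
  exact h

private lemma sad_inv {z : ℂ} (hz : ‖z‖ = 1) (g : CC.Gm) : rotX z (rotX z⁻¹ g) = g := by
  have hz0 : z ≠ 0 := fun h0 => by
    rw [h0, norm_zero] at hz
    exact zero_ne_one hz
  unfold rotX
  rw [smul_smul, mul_inv_cancel₀ hz0, one_smul]

/-- **the limit form** of a deterministic implication with the times of the two gates of the first strand -/
theorem det_lim {U : Filter ℕ} [U.NeBot] (hU : U ≤ atTop) {b : ℝ} {P : Measure CC.Gm} (hC : Cv U (fun N => mwE N b) cN P)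
    (hP0 : ∀ᵐ y ∂P, 0 < y.1) {u : ℂ} (hu : ‖u‖ = 1) (hPu : P.map (rotX u) = P) {A : ℕ → W3 × ℕ → Prop} {B : Set CC.Gm}
    (hA : Ev U (fun N => mwE N b) cN P A B) {c g : ℕ → W3 × ℕ → ℕ} {Tc Tx : CC.Gm → ℝ}
    (hc : Lm U (fun N => mwE N b) cN P (fun N x => bi (A N x) * ((c N x : ℝ) / (arcw x.2 .fp x.1).length)) Tc)
    (hx : Lm U (fun N => mwE N b) cN P (fun N x => bi (A N x) * ((g N x : ℝ) / (arcw x.2 .fp x.1).length)) Tx)
    {p : ℕ → W3 × ℕ → ℝ} {Lam : CC.Gm → ℝ} (hp : Lm U (fun N => mwE N b) cN P p Lam)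
    {J : ℕ → W3 × ℕ → ℝ} {J0 : CC.Gm → ℝ} (hJ : Lm U (fun N => mwE N b) cN P J J0) (hJ0 : ∀ N x, 0 ≤ J N x)
    {gx : CC.Gm → ℝ} (hg : Continuous gx) (hg0 : ∀ y, 0 ≤ gx y) (hg1 : ∀ y, gx y ≤ 1)
    {Ψ : C(I, ℂ) × I × I × I → ℝ} (hΨ : Continuous Ψ) {x0 x1 : ℝ}
    (det : ∀ᶠ N in U, ∀ x, Spt x → 0 < gx (rotX u (cN N x)) → 0 < J N x → x0 < p N x → p N x < x1 →
      A N x ∧ c N x ≤ x.2 ∧ g N x ≤ x.2 ∧
        Ψ ((cN N x).2.2, fr (c N x) x.1.length, fr (g N x) x.1.length, fr x.2 x.1.length) ≤ 1 / N) :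
    ∀ᵐ y ∂P, 0 < gx y → 0 < J0 (rotX u⁻¹ y) → x0 < Lam (rotX u⁻¹ y) → Lam (rotX u⁻¹ y) < x1 →
      rotX u⁻¹ y ∈ B ∧ Ψ ((rotX u⁻¹ y).2.2, pji (Tc (rotX u⁻¹ y) * muG (rotX u⁻¹ y)), pji (Tx (rotX u⁻¹ y) * muG (rotX u⁻¹ y)),
        pji (muG (rotX u⁻¹ y))) ≤ 0 := by
  -- the factor
  have hgc : Continuous fun y : CC.Gm => gx (rotX u y) := hg.comp (rotX_cont u)
  have L1 : Lm U (fun N => mwE N b) cN P (fun N x => gx (rotX u (cN N x))) (fun y => gx (rotX u y)) := by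
    have h := Lm.cont hC (BoundedContinuousFunction.ofNormedAddCommGroup (fun y : CC.Gm => gx (rotX u y)) hgc 1 fun y => by
      rw [Real.norm_eq_abs, abs_of_nonneg (hg0 _)]
      exact hg1 _)
    exact h
  have L2 : Lm U (fun N => mwE N b) cN P (fun N x => max 0 (p N x - x0) * max 0 (x1 - p N x))
      (fun y => max 0 (Lam y - x0) * max 0 (x1 - Lam y)) :=
    Lm.comp1 hC hp (f := fun t => max 0 (t - x0) * max 0 (x1 - t)) (by fun_prop)
  have LK := Lm.mul hC (Lm.mul hC L1 hJ) L2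
  obtain ⟨CK, hCK⟩ := LK.bd
  have CK0 : 0 ≤ CK := (abs_nonneg _).trans (hCK 0 ([], 0))
  have K0 : ∀ N x, 0 ≤ gx (rotX u (cN N x)) * J N x * (max 0 (p N x - x0) * max 0 (x1 - p N x)) := fun N x =>
    mul_nonneg (mul_nonneg (hg0 _) (hJ0 N x)) (mul_nonneg (le_max_left _ _) (le_max_left _ _))
  -- positive factors
  have pos : ∀ N x, 0 < gx (rotX u (cN N x)) * J N x * (max 0 (p N x - x0) * max 0 (x1 - p N x)) →
      0 < gx (rotX u (cN N x)) ∧ 0 < J N x ∧ x0 < p N x ∧ p N x < x1 := by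
    intro N x h
    have h1 : 0 < gx (rotX u (cN N x)) := (hg0 _).lt_of_ne fun e => by
      rw [← e, zero_mul, zero_mul] at h
      exact lt_irrefl _ h
    have h2 : 0 < J N x := (hJ0 N x).lt_of_ne fun e => by
      rw [← e, mul_zero, zero_mul] at h
      exact lt_irrefl _ h
    refine ⟨h1, h2, ?_, ?_⟩
    · by_contra hc
      rw [max_eq_left (show p N x - x0 ≤ 0 by linarith [not_lt.1 hc]), zero_mul, mul_zero] at h
      exact lt_irrefl _ h
    · by_contra hc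
      rw [max_eq_left (show x1 - p N x ≤ 0 by linarith [not_lt.1 hc]), mul_zero, mul_zero] at h
      exact lt_irrefl _ h
  -- the event
  have E1 : ∀ᵐ y ∂P, bi (y ∈ Bᶜ) * (gx (rotX u y) * J0 y * (max 0 (Lam y - x0) * max 0 (x1 - Lam y))) ≤ 0 := by
    have h1 := (hA.not hC).mul hC LK
    have h2 : Lm U (fun N => mwE N b) cN P (fun N x => if Spt x then bi (¬ A N x) *
        (gx (rotX u (cN N x)) * J N x * (max 0 (p N x - x0) * max 0 (x1 - p N x))) else 0) _ :=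
      lm_spt hC h1 ⟨CK, fun N x => by
        split_ifs
        · rw [abs_mul]
          exact (mul_le_mul (bi_abs _) (hCK N x) (abs_nonneg _) zero_le_one).trans (one_mul _).le
        · rw [abs_zero]
          exact CK0⟩ (Eventually.of_forall fun N x hx => if_pos hx)
    refine Lm.le hC h2 (Lm.const hC 0) ?_
    filter_upwards [det] with N hN x
    split_ifs with hs
    · by_cases hAx : A N x
      · rw [bi_neg (not_not.2 hAx), zero_mul]
      · rcases (K0 N x).eq_or_lt with h3 | h3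
        · rw [← h3, mul_zero]
        · obtain ⟨q1, q2, q3, q4⟩ := pos N x h3
          exact absurd (hN x hs q1 q2 q3 q4).1 hAx
    · exact le_rfl
  -- the conditions
  have hF : Continuous fun z : CC.Gm × (Fin 3 → ℝ) =>
      min 1 (max 0 (Ψ (z.1.2.2, pji (z.2 0 * z.2 2), pji (z.2 1 * z.2 2), pji (z.2 2)))) := by
    have hj := pji_cont
    refine continuous_const.min (continuous_const.max (hΨ.comp ?_))
    fun_prop
  have L3 := Lm.comp hC (κ := Fin 3)
    (p := fun N x => ![bi (A N x) * ((c N x : ℝ) / (arcw x.2 .fp x.1).length), bi (A N x) * ((g N x : ℝ) / (arcw x.2 .fp x.1).length),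
      muN x]) (Φ := fun y => ![Tc y, Tx y, muG y]) (fun k => by
      fin_cases k
      · exact hc
      · exact hx
      · exact lm_mu hC hP0) hF (B := 1) fun z => by
        rw [abs_of_nonneg (le_min zero_le_one (le_max_left _ _))]
        exact min_le_left _ _
  have E2 : ∀ᵐ y ∂P, (gx (rotX u y) * J0 y * (max 0 (Lam y - x0) * max 0 (x1 - Lam y))) *
      min 1 (max 0 (Ψ (y.2.2, pji (Tc y * muG y), pji (Tx y * muG y), pji (muG y)))) ≤ 0 := by
    have h1 := LK.mul hC L3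
    have h4 : ∀ k : ℕ, ∀ᵐ y ∂P, (gx (rotX u y) * J0 y * (max 0 (Lam y - x0) * max 0 (x1 - Lam y))) *
        min 1 (max 0 (Ψ (y.2.2, pji (Tc y * muG y), pji (Tx y * muG y), pji (muG y)))) ≤ 1 / ((k : ℝ) + 1) := by
      intro k
      have h2 : Lm U (fun N => mwE N b) cN P (fun N x => if Spt x then
          (gx (rotX u (cN N x)) * J N x * (max 0 (p N x - x0) * max 0 (x1 - p N x))) *
            min 1 (max 0 (Ψ ((cN N x).2.2, pji (bi (A N x) * ((c N x : ℝ) / (arcw x.2 .fp x.1).length) * muN x),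
              pji (bi (A N x) * ((g N x : ℝ) / (arcw x.2 .fp x.1).length) * muN x), pji (muN x)))) else 0) _ :=
        lm_spt hC h1 ⟨CK, fun N x => by
          split_ifs
          · rw [abs_mul]
            have h5 : |min 1 (max 0 (Ψ ((cN N x).2.2, pji (bi (A N x) * ((c N x : ℝ) / (arcw x.2 .fp x.1).length) * muN x),
              pji (bi (A N x) * ((g N x : ℝ) / (arcw x.2 .fp x.1).length) * muN x), pji (muN x))))| ≤ 1 := by
              rw [abs_of_nonneg (le_min zero_le_one (le_max_left _ _))]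
              exact min_le_left _ _
            exact (mul_le_mul (hCK N x) h5 (abs_nonneg _) CK0).trans (mul_one _).le
          · rw [abs_zero]
            exact CK0⟩ (Eventually.of_forall fun N x hx => by
              rw [if_pos hx]
              rfl)
      refine Lm.le hC h2 (Lm.const hC (1 / ((k : ℝ) + 1))) ?_
      have hk : (0 : ℝ) < 1 / ((k : ℝ) + 1) := by positivity
      have ev : ∀ᶠ N : ℕ in atTop, CK * (1 / (N : ℝ)) ≤ 1 / ((k : ℝ) + 1) := by
        have ht : Tendsto (fun N : ℕ => CK * (1 / (N : ℝ))) atTop (𝓝 (CK * 0)) :=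
          tendsto_one_div_atTop_nhds_zero_nat.const_mul CK
        rw [mul_zero] at ht
        exact ht.eventually_le_const hk
      filter_upwards [det, hU ev] with N hN hNk x
      split_ifs with hs
      · rcases (K0 N x).eq_or_lt with h3 | h3
        · rw [← h3, zero_mul]
          exact hk.le
        · obtain ⟨q1, q2, q3, q4⟩ := pos N x h3
          obtain ⟨hAx, b1, b2, b3⟩ := hN x hs q1 q2 q3 q4
          have hl : (arcw x.2 .fp x.1).length = x.2 := al_fp hs.2.2.le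
          have hn : 0 < x.1.length := lt_of_le_of_lt (Nat.zero_le _) hs.2.2
          have hn0 : (0 : ℝ) < x.1.length := by exact_mod_cast hn
          have key : ∀ t : ℕ, t ≤ x.2 → bi (A N x) * ((t : ℝ) / (arcw x.2 .fp x.1).length) * muN x = ((fr t x.1.length : I) : ℝ) := by
            intro t ht
            rw [hl, bi_pos hAx, one_mul, muN_eq hs.2.2, fr_coe (ht.trans hs.2.2.le)]
            rcases Nat.eq_zero_or_pos x.2 with h4 | h4
            · have h5 : t = 0 := by omega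
              rw [h5, h4]
              simp
            · have h6 : (0 : ℝ) < x.2 := by exact_mod_cast h4
              field_simp
          rw [key _ b1, key _ b2, show muN x = ((fr x.2 x.1.length : I) : ℝ) by rw [muN_eq hs.2.2, fr_coe hs.2.2.le], pji_coe,
            pji_coe, pji_coe]
          have hNn : (0 : ℝ) ≤ 1 / (N : ℝ) := by positivity
          refine le_trans ?_ hNk
          exact mul_le_mul ((le_abs_self _).trans (hCK N x)) ((min_le_right _ _).trans (max_le hNn b3))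
            (le_min zero_le_one (le_max_left _ _)) CK0
      · exact hk.le
    rw [← ae_all_iff] at h4
    filter_upwards [h4] with y hy
    refine ge_of_tendsto' (x := atTop) (tendsto_one_div_add_atTop_nhds_zero_nat (𝕜 := ℝ)) hy
  have E3 : ∀ᵐ y ∂P, 0 < gx (rotX u y) → 0 < J0 y → x0 < Lam y → Lam y < x1 →
      y ∈ B ∧ Ψ (y.2.2, pji (Tc y * muG y), pji (Tx y * muG y), pji (muG y)) ≤ 0 := by
    filter_upwards [E1, E2] with y h1 h2 g1 g2 g3 g4
    have hK : 0 < gx (rotX u y) * J0 y * (max 0 (Lam y - x0) * max 0 (x1 - Lam y)) :=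
      mul_pos (mul_pos g1 g2) (mul_pos (lt_max_of_lt_right (by linarith)) (lt_max_of_lt_right (by linarith)))
    constructor
    · by_contra hB
      rw [bi_pos (show y ∈ Bᶜ from hB), one_mul] at h1
      exact absurd h1 (not_le.2 hK)
    · by_contra hΨ'
      have h3 : 0 < min 1 (max 0 (Ψ (y.2.2, pji (Tc y * muG y), pji (Tx y * muG y), pji (muG y)))) :=
        lt_min one_pos (lt_max_of_lt_right (not_le.1 hΨ'))
      exact absurd h2 (not_le.2 (mul_pos hK h3))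
  filter_upwards [sad_rot hu hPu E3] with y hy g1 g2 g3 g4
  exact hy (by rw [sad_inv hu]; exact g1) g2 g3 g4

/-- **the foreign gates in the limit** -/
theorem sad_lim {U : Filter ℕ} [U.NeBot] (hU : U ≤ atTop) {b : ℝ} {P : Measure CC.Gm} (hC : Cv U (fun N => mwE N b) cN P)
    (hP0 : ∀ᵐ y ∂P, 0 < y.1) {f : Tp} {G : GP} {T : LSym} {u : ℂ} (hPu : P.map (rotX u) = P)
    {l1 l2 dl D F ρ d1 X0 r : ℝ} {t c0 : Fin 3 → ℝ} (he : ‖d‖ = 1)
    (hu : ‖u‖ = 1) (hT : T.L d = 1) (hf : f.Ok) (hG : G.Ok f) (hG1 : 0 < G.ρ1) (hG2 : 0 < G.ρ'') (hl1 : 0 < l1) (hl2 : 0 < l2)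
    (hdl : 0 < dl) (hz : ‖u - 1‖ * (F + 2 * D) ≤ D / 4) (n : SadN f D F d1 ρ X0 t) (hr : r < (F - 4 * D) * ρ) (M : ℕ → ℕ)
    {p : ℕ → W3 × ℕ → ℝ} {Lam : CC.Gm → ℝ} (hp : Lm U (fun N => mwE N b) cN P p Lam) {B : Set CC.Gm} {Tc Tx : CC.Gm → ℝ}
    (hA : Ev U (fun N => mwE N b) cN P (fun N x => r < dst N x ∧ sgE G T (p N x) N .fp x) B)
    (hc : Lm U (fun N => mwE N b) cN P (fun N x => bi (r < dst N x ∧ sgE G T (p N x) N .fp x) *
      ((sgc G T (p N x) N .fp x : ℝ) / (arcw x.2 .fp x.1).length)) Tc)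
    (hx : Lm U (fun N => mwE N b) cN P (fun N x => bi (r < dst N x ∧ sgE G T (p N x) N .fp x) *
      ((sgx G T (p N x) N .fp x : ℝ) / (arcw x.2 .fp x.1).length)) Tx)
    {J : ℕ → W3 × ℕ → ℝ} {J0 : CC.Gm → ℝ} (hJ : Lm U (fun N => mwE N b) cN P J J0) (hJ0 : ∀ N x, 0 ≤ J N x)
    (hJp : ∀ᶠ N in U, ∀ x, Spt x → 0 < J N x →
      ∀ i, 0 < C0P.gz (C0P.bxu (t i) d1) (c0 i) (M N) (ρ * N) (mp T (arcw x.2 .fp x.1))) :
    ∀ᵐ y ∂P, 0 < gX l1 l2 dl D F ρ d y → 0 < J0 (rotX u⁻¹ y) → X0 < Lam (rotX u⁻¹ y) →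
      Lam (rotX u⁻¹ y) < X0 + 24 * (d1 * ρ) → rotX u⁻¹ y ∈ B ∧ ∀ h a c z, h = (rotX u⁻¹ y).2.2 →
        a = pji (Tc (rotX u⁻¹ y) * muG (rotX u⁻¹ y)) → c = pji (Tx (rotX u⁻¹ y) * muG (rotX u⁻¹ y)) →
        z = pji (muG (rotX u⁻¹ y)) → a ≤ c ∧ c ≤ z ∧
          lv d (h a) ≤ X0 + f.l + 104 * (d1 * ρ) ∧ lv d (h c) ≤ X0 + f.l + f.m + 184 * (d1 * ρ) ∧
          ‖h a‖ ≤ X0 + f.l + 104 * (d1 * ρ) + 6 * (D * ρ) ∧ ‖h c‖ ≤ X0 + f.l + f.m + 184 * (d1 * ρ) + 6 * (D * ρ) ∧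
          ∀ v : I, c ≤ v → v ≤ z → 0 ≤ lv d (h v - h c) ∨ sadF f D F d1 ρ X0 ≤ ‖h v - h c‖ := by
  have hΨ : Continuous fun q : C(I, ℂ) × I × I × I => max (psF d (X0 + f.l + 104 * (d1 * ρ)) (X0 + f.l + f.m + 184 * (d1 * ρ))
      (6 * (D * ρ)) (sadF f D F d1 ρ X0) q.1 q.2.1 q.2.2.1 q.2.2.2) (max ((q.2.1 : ℝ) - q.2.2.1) ((q.2.2.1 : ℝ) - q.2.2.2)) :=
    (psF_cont he).max (by fun_prop)
  have key := det_lim hU hC hP0 hu hPu hA hc hx hp hJ hJ0 (gX_cont (l2 := l2) (dl := dl) (D := D) (F := F) he hl1 n.ρ0)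
    (fun y => gX_nn y) (fun y => gX_le1 y) hΨ (x0 := X0) (x1 := X0 + 24 * (d1 * ρ)) (by
      filter_upwards [hU (det_words0 (G := G) (c0 := c0) he hu hT hf hG hG1 hG2 hl1 hl2 hdl hz n hr M), hJp] with N hN hJN
      intro x hs g1 g2 g3 g4
      obtain ⟨a1, a2, a3, a4⟩ := hN x hs g1 (hJN x hs g2) (p N x) g3.le g4.le
      refine ⟨a1, a2.le.trans a3, a3, max_le a4 (max_le ?_ ?_)⟩
      · have h0 : (0 : ℝ) ≤ 1 / N := by positivity
        refine le_trans ?_ h0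
        rw [sub_nonpos, fr_coe ((a2.le.trans a3).trans hs.2.2.le), fr_coe (a3.trans hs.2.2.le)]
        exact div_le_div_of_nonneg_right (by exact_mod_cast a2.le) (Nat.cast_nonneg _)
      · have h0 : (0 : ℝ) ≤ 1 / N := by positivity
        refine le_trans ?_ h0
        rw [sub_nonpos, fr_coe (a3.trans hs.2.2.le), fr_coe hs.2.2.le]
        exact div_le_div_of_nonneg_right (by exact_mod_cast a3) (Nat.cast_nonneg _))
  filter_upwards [key] with y hy g1 g2 g3 g4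
  obtain ⟨hB, hΨ0⟩ := hy g1 g2 g3 g4
  refine ⟨hB, ?_⟩
  rintro h a c z rfl rfl rfl rfl
  obtain ⟨k1, k2⟩ := max_le_iff.1 hΨ0
  obtain ⟨k3, k4⟩ := max_le_iff.1 k2
  have k5 : pji (Tc (rotX u⁻¹ y) * muG (rotX u⁻¹ y)) ≤ pji (Tx (rotX u⁻¹ y) * muG (rotX u⁻¹ y)) :=
    Subtype.coe_le_coe.1 (by linarith)
  have k6 : pji (Tx (rotX u⁻¹ y) * muG (rotX u⁻¹ y)) ≤ pji (muG (rotX u⁻¹ y)) := Subtype.coe_le_coe.1 (by linarith)
  exact ⟨k5, k6, (psF_le he k6).1 k1⟩

end Pool.Agent.ROT.F3
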