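import Pool.Agent.ROT.F3Mark
import Pool.Agent.ROT.F3WS

/-!
# ROT, F3 (B), row C0At (helper87, literal of helper86): the law of the marked closed words

`tt y w` : the two marks (relative times) of the word `w` with the pieces `y = (p, (b, R))`; `blX` : the piece between the marks of a
closed curve with two marks. **`mk_lim`** : the closed words of a set `A N` with `w.take m = p ++ (b ++ R)`: along an ultrafilter the
laws of (closed curve, marks) converge to a finite measure; its marginal is at most the limit of the closed curves; the law of the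
block `b` converges to its image under `blX`; closed conditions hold in the limit.
-/

set_option autoImplicit false

open MeasureTheory Filter Topology Set
open scoped ENNReal NNReal Classical BoundedContinuousFunction

namespace Pool.Agent.ROT.F3.C0K

open Pool.Agent.ROT.F3 Pool.Agent.ROT.F3.CC Pool.Agent.ROT.F3.Mk
open Pool.Agent.ROT.F (QB)

/-- a closed curve with its lengths and two marks -/
abbrev XM : Type := (ℝ × ℝ × C(unitInterval, ℂ)) × (ℝ × ℝ)

/-- the marks of the word `w` with the pieces `y = (p, (b, R))` -/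
noncomputable def tt (y : W3 × (W3 × W3)) (w : W3) : ℝ × ℝ :=
  ((y.1.length : ℝ) / w.length, ((y.1.length + y.2.1.length : ℕ) : ℝ) / w.length)

/-- the piece between the marks, with its duration -/
noncomputable def blX (y : XM) : Pie := pcut (y.1.2.2, y.1.1) y.2.1 y.2.2

lemma blX_cont : Continuous blX := by
  unfold blX
  exact pcut_cont' (by fun_prop) (by fun_prop) (by fun_prop)

/-- the words of `A` with their pieces -/
def Good (yy : W3 × ℕ → W3 × (W3 × W3)) (A : Set (W3 × ℕ)) : Prop := ∀ x ∈ A, Cl x.1 ∧ x.2 ≤ x.1.length ∧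
  x.1.take x.2 = (yy x).1 ++ ((yy x).2.1 ++ (yy x).2.2) ∧ Even (yy x).1.length ∧ Even (yy x).2.1.length

section word

variable {yy : W3 × ℕ → W3 × (W3 × W3)} {A : Set (W3 × ℕ)}

lemma Good.len (h : Good yy A) {x : W3 × ℕ} (hx : x ∈ A) : (yy x).1.length + (yy x).2.1.length ≤ x.1.length := by
  obtain ⟨-, h2, h3, -, -⟩ := h x hx
  have h4 := congrArg List.length h3
  rw [List.length_take, min_eq_left h2, List.length_append, List.length_append] at h4
  omega

/-- the marks are in the unit interval -/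
lemma Good.marks (h : Good yy A) {x : W3 × ℕ} (hx : x ∈ A) :
    tt (yy x) x.1 ∈ Icc (0 : ℝ) 1 ×ˢ Icc (0 : ℝ) 1 := by
  have h1 := h.len hx
  have h2 : (0 : ℝ) ≤ x.1.length := Nat.cast_nonneg _
  refine ⟨⟨by unfold tt; positivity, div_le_one_of_le₀ ?_ h2⟩, ⟨by unfold tt; positivity, div_le_one_of_le₀ ?_ h2⟩⟩
  · exact_mod_cast (by omega : (yy x).1.length ≤ x.1.length)
  · exact_mod_cast h1

/-- **the block is the piece between the marks** -/
lemma Good.block (h : Good yy A) {x : W3 × ℕ} (hx : x ∈ A) (h1 : 1 ≤ x.1.length) (N : ℕ) :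
    blX (cN N x, tt (yy x) x.1) = cr N (uT N) (yy x).2.1 := by
  obtain ⟨-, h2, h3, h4, h5⟩ := h x hx
  have hl := h.len hx
  have e1 : x.1 = (yy x).1 ++ ((yy x).2.1 ++ ((yy x).2.2 ++ x.1.drop x.2)) := by
    conv_lhs => rw [← List.take_append_drop x.2 x.1, h3]
    simp only [List.append_assoc]
  have e2 : seg x.1 (yy x).1.length ((yy x).1.length + (yy x).2.1.length) = (yy x).2.1 := by
    conv_lhs => rw [e1]
    exact seg_mid _ _ _
  show pcut (wp N (uT N) x.1) (((yy x).1.length : ℝ) / x.1.length) ((((yy x).1.length + (yy x).2.1.length : ℕ) : ℝ) / x.1.length) =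
    wp N (uT N) (yy x).2.1
  rw [wp_seg h4 (by omega) hl h1, e2]

end word

/-- the set integral over `A` only sees the words of `TN` -/
lemma int_congr {N : ℕ} {b : ℝ} {A : Set (W3 × ℕ)} {f g : W3 × ℕ → ℝ} (h : ∀ x ∈ A, 1 ≤ x.1.length → f x = g x) :
    ∫ x in A, f x ∂(mwE N b) = ∫ x in A, g x ∂(mwE N b) := by
  have hA : MeasurableSet A := MeasurableSet.of_discrete
  rw [← integral_indicator hA, ← integral_indicator hA, mwE_int, mwE_int, mw_int, mw_int]
  refine Finset.sum_congr rfl fun x hx => ?_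
  have h1 := (mem_TN.1 hx).2.1
  by_cases h2 : x ∈ A
  · rw [indicator_of_mem h2, indicator_of_mem h2, h x h2 (by omega)]
  · rw [indicator_of_notMem h2, indicator_of_notMem h2]

/-- **the law of the marked closed words** -/
theorem mk_lim (hQ : QB) {b : ℝ} (hb : 0 ≤ b) {U : Ultrafilter ℕ} (hU : (U : Filter ℕ) ≤ atTop)
    {P : Measure (ℝ × ℝ × C(unitInterval, ℂ))} (hC : LF.Cv (U : Filter ℕ) (fun N => mwE N b) cN P)
    (A : ℕ → Set (W3 × ℕ)) (yy : ℕ → W3 × ℕ → W3 × (W3 × W3)) (hA : ∀ᶠ N in (U : Filter ℕ), Good (yy N) (A N)) :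
    ∃ M : Measure XM, IsFiniteMeasure M ∧ M.map Prod.fst ≤ P ∧
      (∀ g : XM →ᵇ ℝ, Tendsto (fun N => ∫ x in A N, g (cN N x, tt (yy N x) x.1) ∂(mwE N b)) U (𝓝 (∫ y, g y ∂M))) ∧
      (∀ g : Pie →ᵇ ℝ, Tendsto (fun N => ∫ x in A N, g (cr N (uT N) (yy N x).2.1) ∂(mwE N b)) U (𝓝 (∫ y, g (blX y) ∂M))) ∧
      ∀ E : Set XM, IsClosed E → (∀ᶠ N in (U : Filter ℕ), ∀ x ∈ A N, (cN N x, tt (yy N x) x.1) ∈ E) → ∀ᵐ y ∂M, y ∈ E := by
  obtain ⟨A0, hA0, hmass⟩ := mw_mass hQ hb
  -- the laws, at all N
  obtain ⟨A', hA'⟩ : ∃ A' : ℕ → Set (W3 × ℕ), A' = fun N => if Good (yy N) (A N) then A N else ∅ := ⟨_, rfl⟩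
  have hA'g : ∀ N, Good (yy N) (A' N) := by
    intro N
    rw [hA']
    by_cases h : Good (yy N) (A N)
    · simp only [if_pos h]
      exact h
    · simp only [if_neg h]
      exact fun x hx => absurd hx (notMem_empty x)
  have hA'e : ∀ᶠ N in (U : Filter ℕ), A' N = A N := by
    filter_upwards [hA] with N hN
    rw [hA']
    exact if_pos hN
  obtain ⟨φ, hφ⟩ : ∃ φ : ℕ → W3 × ℕ → XM, φ = fun N x => (cN N x, tt (yy N x) x.1) := ⟨_, rfl⟩
  have hφm : ∀ N, Measurable (φ N) := fun N => Measurable.of_discrete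
  have hAm : ∀ N, MeasurableSet (A' N) := fun N => MeasurableSet.of_discrete
  obtain ⟨μ, hμ⟩ : ∃ μ : ℕ → Measure XM, μ = fun N => ((mwE N b).restrict (A' N)).map (φ N) := ⟨_, rfl⟩
  have hle : ∀ N, (mwE N b).restrict (A' N) ≤ mw N b := fun N => Measure.restrict_le_self.trans (mwE_le N b)
  have hint : ∀ (N : ℕ) (g : XM →ᵇ ℝ), ∫ y, g y ∂(μ N) = ∫ x in A' N, g (φ N x) ∂(mwE N b) := by
    intro N g
    rw [hμ]
    exact integral_map (hφm N).aemeasurable g.continuous.aestronglyMeasurable
  have hmu : ∀ N, μ N univ ≤ A0.toNNReal := by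
    intro N
    rw [hμ]
    show ((mwE N b).restrict (A' N)).map (φ N) univ ≤ _
    rw [Measure.map_apply (hφm N) MeasurableSet.univ, preimage_univ]
    refine (hle N univ).trans ?_
    rw [← ofReal_measureReal]
    exact ENNReal.ofReal_le_ofReal (hmass N)
  have hfin : ∀ N, IsFiniteMeasure (μ N) := fun N => ⟨lt_of_le_of_lt (hmu N) ENNReal.coe_lt_top⟩
  obtain ⟨M, hM, hl⟩ := Bt.near_lim μ (Eventually.of_forall hmu) (fun ε hε => by
    obtain ⟨K, hK, hKN⟩ := mw_tight_all hQ hb (show (0 : ℝ) < ε from hε)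
    refine ⟨K ×ˢ (Icc (0 : ℝ) 1 ×ˢ Icc (0 : ℝ) 1), hK.prod (isCompact_Icc.prod isCompact_Icc), fun η hη => ?_⟩
    obtain ⟨N0, hN0⟩ := exists_nat_gt (5 / η)
    filter_upwards [eventually_ge_atTop (max N0 1)] with N hN
    have hN1 : 1 ≤ N := (le_max_right _ _).trans hN
    have hNp : (0 : ℝ) < N := by exact_mod_cast hN1
    have h5 : 5 / (N : ℝ) < η := by
      rw [div_lt_iff₀ hNp]
      rw [div_lt_iff₀ hη] at hN0
      have : (N0 : ℝ) ≤ N := by exact_mod_cast (le_max_left _ _).trans hN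
      nlinarith
    have hmS : MeasurableSet {x : XM | ∀ y ∈ K ×ˢ (Icc (0 : ℝ) 1 ×ˢ Icc (0 : ℝ) 1), η ≤ dist x y} := (near_closed _ η).measurableSet
    rw [hμ]
    show ((mwE N b).restrict (A' N)).map (φ N) _ ≤ _
    rw [Measure.map_apply (hφm N) hmS, Measure.restrict_apply (hφm N hmS)]
    have h6 : (mwE N b) (φ N ⁻¹' {x : XM | ∀ y ∈ K ×ˢ (Icc (0 : ℝ) 1 ×ˢ Icc (0 : ℝ) 1), η ≤ dist x y} ∩ A' N) ≤
        (mw N b) ({x | cT N x ∉ K} ∪ {x | x ∉ TN N b}) := by
      refine (mwE_le N b _).trans (measure_mono fun x hx => ?_)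
      by_cases hxT : x ∈ TN N b
      · left
        intro hxK
        have h7 := hx.1 (cT N x, tt (yy N x) x.1) ⟨hxK, (hA'g N).marks hx.2⟩
        rw [hφ] at h7
        have h8 : dist ((cN N x, tt (yy N x) x.1) : XM) (cT N x, tt (yy N x) x.1) = dist (cN N x) (cT N x) := by
          rw [Prod.dist_eq]
          show max (dist (cN N x) (cT N x)) (dist (tt (yy N x) x.1) (tt (yy N x) x.1)) = _
          rw [dist_self, max_eq_left dist_nonneg]
        have h9 : η ≤ dist ((cN N x, tt (yy N x) x.1) : XM) (cT N x, tt (yy N x) x.1) := h7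
        rw [h8, dist_comm] at h9
        exact absurd (h9.trans (cT_dist hxT)) (not_le.2 h5)
      · right
        exact hxT
    refine h6.trans ((measure_union_le _ _).trans ?_)
    have h7 : (mw N b) {x | x ∉ TN N b} = 0 := by
      have h8 : (mw N b).real {x | x ∉ TN N b} = 0 := by
        rw [← mw_ind, mw_int]
        refine Finset.sum_eq_zero fun x hx => ?_
        rw [indicator_of_notMem (show x ∉ {x | x ∉ TN N b} from fun h => h hx), mul_zero]
      exact (measureReal_eq_zero_iff).1 h8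
    rw [h7, add_zero, ← ofReal_measureReal]
    exact ENNReal.ofReal_le_of_le_toReal (by simpa using hKN N)) U hU
  have hlim : ∀ g : XM →ᵇ ℝ, Tendsto (fun N => ∫ x in A N, g (cN N x, tt (yy N x) x.1) ∂(mwE N b)) U (𝓝 (∫ y, g y ∂M)) := by
    intro g
    refine (hl g).congr' ?_
    filter_upwards [hA'e] with N hN
    rw [hint, hN, hφ]
  refine ⟨M, hM, ?_, hlim, fun g => ?_, fun E hE hN => ?_⟩
  · -- the marginal
    have hfm : IsFiniteMeasure (M.map Prod.fst) := by infer_instance
    have hC' : LF.Cv (U : Filter ℕ) (fun N => (mwE N b).restrict (A' N)) cN (M.map Prod.fst) :=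
      ⟨fun N => inferInstance, hfm, fun N => Measurable.of_discrete, fun G => by
        rw [integral_map measurable_fst.aemeasurable G.continuous.measurable.aestronglyMeasurable]
        have h1 := hl (G.compContinuous ⟨Prod.fst, continuous_fst⟩)
        refine h1.congr fun N => ?_
        rw [hint, hφ]
        rfl⟩
    exact hC.le_of_le hC' (Eventually.of_forall fun N => Measure.restrict_le_self)
  · -- the blocks
    have h1 := hlim (g.compContinuous ⟨blX, blX_cont⟩)
    refine h1.congr' ?_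
    filter_upwards [hA] with N hN
    refine int_congr fun x hx hx1 => ?_
    show g (blX (cN N x, tt (yy N x) x.1)) = g (cr N (uT N) (yy N x).2.1)
    rw [hN.block hx hx1]
  · -- closed conditions
    rw [ae_iff]
    have h1 := Bt.lim_open hl hE.isOpen_compl (ε := 0) (by
      filter_upwards [hN, hA'e] with N h2 h3
      refine ⟨hfin N, le_of_eq ?_⟩
      rw [hμ]
      show ((mwE N b).restrict (A' N)).map (φ N) Eᶜ = _
      rw [Measure.map_apply (hφm N) hE.measurableSet.compl, Measure.restrict_apply (hφm N hE.measurableSet.compl)]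
      have h4 : φ N ⁻¹' Eᶜ ∩ A' N = ∅ := by
        rw [eq_empty_iff_forall_notMem]
        rintro x ⟨h5, h6⟩
        rw [h3] at h6
        rw [hφ] at h5
        exact h5 (h2 x h6)
      rw [h4, measure_empty]
      rfl)
    exact le_antisymm (h1.trans (le_of_eq ENNReal.coe_zero)) zero_le

end Pool.Agent.ROT.F3.C0K
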