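import Pool.Agent.ROT.W4Sys

/-!
# ROT, block F3, row C0 (helper3): the closed words in a window of lengths, at every scale

* `cUn S` : lengths and the closed curve in the unit `S` (`cUn N = cN N`); `WdL l1 l2 dl S` : the window of lengths
  `[l1, l2] S ^ (4 / 3)`, second root in `[dl |w|, (1 - dl) |w|]`; `Wdw lam dl S = WdL lam (2 lam) dl S`;
* `win_intL` : from every number of steps and every second root of the window to the integral over the window in `mwE N b`;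
  `win_massL` : the mass of the window is at most `C √l2 (S / N) ^ (2 / 3)`;
* **`mac_winL`** : a finite product of functionals of the arcs (`ArcJ`) is, up to `ε (S / N) ^ (2 / 3)` in `L¹` of the window, a Lipschitz
  functional of `cUn S`, the constant does not depend on the unit `S`; **`mac_rhoL`** : the same with `S = ρ N`;
* `win_int`, `win_mass`, `mac_win`, `mac_rho` : the case `l2 = 2 l1`.
-/

set_option autoImplicit false

open Filter MeasureTheory Topology Set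

open scoped NNReal

namespace Pool.Agent.ROT.F3

open Pool.Agent.NTS.Res (step pos saw fug size curve)
open Pool.Agent.PMA.Res (pol)
open Pool.Agent.ROT.F (QB)

variable {α : Type*}

/-- lengths and the closed curve, in the unit `S` -/
noncomputable def cUn (S : ℝ) (x : W3 × ℕ) : ℝ × ℝ × C(unitInterval, ℂ) :=
  ((x.1.length : ℝ) / S ^ (4 / 3 : ℝ), (x.2 : ℝ) / S ^ (4 / 3 : ℝ), crv x.1 x.1.length S)

lemma cUn_nat (N : ℕ) : cUn (N : ℝ) = cN N := rfl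

/-- **the window of the lengths** -/
def WdL (l1 l2 dl S : ℝ) : Set (W3 × ℕ) := {x | l1 * S ^ (4 / 3 : ℝ) ≤ (x.1.length : ℝ) ∧
  (x.1.length : ℝ) ≤ l2 * S ^ (4 / 3 : ℝ) ∧ dl * (x.1.length : ℝ) ≤ x.2 ∧ (x.2 : ℝ) ≤ (1 - dl) * (x.1.length : ℝ)}

/-- the window with the ratio 2 -/
def Wdw (lam dl S : ℝ) : Set (W3 × ℕ) := {x | lam * S ^ (4 / 3 : ℝ) ≤ (x.1.length : ℝ) ∧
  (x.1.length : ℝ) ≤ 2 * (lam * S ^ (4 / 3 : ℝ)) ∧ dl * (x.1.length : ℝ) ≤ x.2 ∧ (x.2 : ℝ) ≤ (1 - dl) * (x.1.length : ℝ)}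

lemma Wdw_eq (lam dl S : ℝ) : Wdw lam dl S = WdL lam (2 * lam) dl S := by
  unfold Wdw WdL
  simp only [mul_assoc]

lemma WdL_mono {l1 l2 l1' l2' dl dl' S : ℝ} (hS : 0 < S) (h1 : l1' ≤ l1) (h2 : l2 ≤ l2') (hd : dl' ≤ dl) :
    WdL l1 l2 dl S ⊆ WdL l1' l2' dl' S := by
  rintro x ⟨a1, a2, a3, a4⟩
  have hY : (0 : ℝ) ≤ S ^ (4 / 3 : ℝ) := by positivity
  have hx : (0 : ℝ) ≤ x.1.length := Nat.cast_nonneg _
  have e1 := mul_le_mul_of_nonneg_right h1 hY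
  have e2 := mul_le_mul_of_nonneg_right h2 hY
  have e3 := mul_le_mul_of_nonneg_right hd hx
  exact ⟨by linarith, by linarith, by linarith, by linarith⟩

open Classical in
/-- **from every number of steps and every second root to the integral over the window** -/
theorem win_intL (hQ : QB) : ∃ C : ℝ, 0 < C ∧ ∀ (N : ℕ) (b l1 l2 dl S e : ℝ) (A : Set (W3 × ℕ)) (f : W3 × ℕ → ℝ), 1 ≤ N → 0 < l2 →
    0 < S → 0 ≤ e → A ⊆ WdL l1 l2 dl S → (∀ x, 0 ≤ f x) →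
    (∀ n m : ℕ, Odd n → Even m → l1 * S ^ (4 / 3 : ℝ) ≤ (n : ℝ) + 1 → (n : ℝ) + 1 ≤ l2 * S ^ (4 / 3 : ℝ) →
      dl * ((n : ℝ) + 1) ≤ m → (m : ℝ) ≤ (1 - dl) * ((n : ℝ) + 1) → ∑ s ∈ pol n, f (clw s, m) ≤ e * ((pol n).card : ℝ)) →
    ∫ x in A, f x ∂(mwE N b) ≤ C * (e * √l2) * (S / N) ^ (2 / 3 : ℝ) := by
  obtain ⟨C, hC, hle⟩ := mw_le hQ
  refine ⟨C, hC, fun N b l1 l2 dl S e A f hN hl hS he hA hf h => ?_⟩
  have hN0 : (0 : ℝ) < N := by exact_mod_cast hN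
  obtain ⟨X, hX⟩ : ∃ X : ℝ, X = (N : ℝ) ^ (4 / 3 : ℝ) := ⟨_, rfl⟩
  have hX0 : 0 < X := by
    rw [hX]
    positivity
  obtain ⟨Y, hY⟩ : ∃ Y : ℝ, Y = S ^ (4 / 3 : ℝ) := ⟨_, rfl⟩
  have hY0 : 0 < Y := by
    rw [hY]
    positivity
  obtain ⟨b', hb'⟩ : ∃ b' : ℝ, b' = l2 * Y / X := ⟨_, rfl⟩
  have hb0 : 0 < b' := by
    rw [hb']
    positivity
  have hbX : b' * X = l2 * Y := by
    rw [hb']
    field_simp
  obtain ⟨g, hg⟩ : ∃ g : W3 × ℕ → ℝ, g = fun x => if Even x.2 then A.indicator f x else 0 := ⟨_, rfl⟩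
  have hg0 : ∀ x, 0 ≤ g x := fun x => by
    rw [hg]
    beta_reduce
    split_ifs
    · exact indicator_nonneg (fun x _ => hf x) x
    · exact le_rfl
  have hgA : ∀ x, g x ≠ 0 → x ∈ A := fun x hx => by
    by_contra hc
    refine hx ?_
    rw [hg]
    beta_reduce
    rw [indicator_of_notMem hc, ite_self]
  have h1 : ∫ x in A, f x ∂(mwE N b) = ∑ x ∈ TN N b, wN N x.1 * g x := by
    rw [← integral_indicator (MeasurableSet.of_discrete (s := A)), mwE_int, mw_int, hg]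
  have h2 : ∑ x ∈ TN N b, wN N x.1 * g x ≤ ∑ x ∈ TN N b', wN N x.1 * g x := by
    rw [← Finset.sum_filter_ne_zero]
    refine Finset.sum_le_sum_of_subset_of_nonneg ?_ fun x _ _ => mul_nonneg (wN_nonneg _ _) (hg0 x)
    intro x hx
    rw [Finset.mem_filter, mem_TN] at hx
    obtain ⟨⟨a1, a2, -⟩, a3⟩ := hx
    have a4 := hA (hgA x fun h => a3 (by rw [h, mul_zero]))
    rw [mem_TN]
    refine ⟨a1, a2, ?_⟩
    rw [← hX, hbX, hY]
    exact a4.2.1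
  rw [h1]
  refine h2.trans ?_
  rw [← mw_int]
  have h3 := hle N 0 b' e g hN le_rfl hb0.le he (by
    intro n hn hnb
    rw [← hX, hbX] at hnb
    have hn0 : (0 : ℝ) ≤ n := Nat.cast_nonneg n
    rw [if_neg (not_le.2 (by rw [zero_mul]; linarith)), Finset.sum_comm]
    have key : ∀ m ∈ Finset.range (n + 1), ∑ s ∈ pol n, g (clw s, m) ≤ e * ((pol n).card : ℝ) := by
      intro m _
      have h4 : 0 ≤ e * ((pol n).card : ℝ) := mul_nonneg he (Nat.cast_nonneg _)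
      by_cases hm : Even m
      swap
      · rw [hg]
        beta_reduce
        rw [Finset.sum_congr rfl fun s _ => if_neg hm, Finset.sum_const_zero]
        exact h4
      by_cases hw : l1 * S ^ (4 / 3 : ℝ) ≤ (n : ℝ) + 1 ∧ dl * ((n : ℝ) + 1) ≤ m ∧ (m : ℝ) ≤ (1 - dl) * ((n : ℝ) + 1)
      · refine le_trans (Finset.sum_le_sum fun s _ => ?_) (h n m hn hm hw.1 (by rw [← hY]; exact hnb) hw.2.1 hw.2.2)
        rw [hg]
        beta_reduce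
        rw [if_pos hm]
        exact indicator_le_self' (fun x _ => hf x) _
      · refine le_trans (le_of_eq (Finset.sum_eq_zero fun s _ => ?_)) h4
        by_contra hc
        have h5 := hA (hgA _ hc)
        have h6 : ((clw s).length : ℝ) = (n : ℝ) + 1 := by
          rw [length_clw]
          push_cast
          ring
        refine hw ⟨?_, ?_, ?_⟩
        · rw [← h6]
          exact h5.1
        · rw [← h6]
          exact h5.2.2.1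
        · rw [← h6]
          exact h5.2.2.2
    refine (Finset.sum_le_sum key).trans (le_of_eq ?_)
    rw [Finset.sum_const, Finset.card_range, nsmul_eq_mul]
    push_cast
    ring)
  refine h3.trans (le_of_eq ?_)
  have h4 : √b' = √l2 * (S / N) ^ (2 / 3 : ℝ) := by
    have e1 : b' = l2 * ((S / N) ^ (2 / 3 : ℝ)) ^ 2 := by
      rw [← Real.rpow_natCast ((S / N) ^ (2 / 3 : ℝ)) 2, ← Real.rpow_mul (by positivity), Real.div_rpow hS.le hN0.le, hb', hX, hY]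
      norm_num
      ring
    rw [e1, Real.sqrt_mul hl.le, Real.sqrt_sq (by positivity)]
  rw [Real.sqrt_zero, zero_add, h4]
  ring

/-- **the mass of the window** -/
theorem win_massL (hQ : QB) : ∃ C : ℝ, 0 < C ∧ ∀ (N : ℕ) (b l1 l2 dl S : ℝ) (A : Set (W3 × ℕ)), 1 ≤ N → 0 < l2 → 0 < S →
    A ⊆ WdL l1 l2 dl S → (mwE N b).real A ≤ C * √l2 * (S / N) ^ (2 / 3 : ℝ) := by
  obtain ⟨C, hC, h⟩ := win_intL hQ
  refine ⟨C, hC, fun N b l1 l2 dl S A hN hl hS hA => ?_⟩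
  have h1 := h N b l1 l2 dl S 1 A (fun _ => 1) hN hl hS zero_le_one hA (fun _ => zero_le_one) fun n m _ _ _ _ _ _ => by
    rw [Finset.sum_const, nsmul_eq_mul, mul_one, one_mul]
  rw [setIntegral_const, smul_eq_mul, mul_one, one_mul] at h1
  exact h1

/-- **the products over the arcs in the window, for every unit of length** -/
theorem mac_winL (hQ : QB) {ι : Type*} (J : Finset ι) (k : ι → Arm) {l : Filter α} {G : ι → α → ℝ → W3 → ℝ}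
    (hG : ∀ᶠ a in l, ∀ i ∈ J, ∀ S : ℝ, 0 < S → ∀ w, |G i a S w| ≤ 1) (h : ∀ i ∈ J, ArcJ l (G i)) {l1 l2 dl : ℝ} (hl1 : 0 < l1)
    (hl : 0 < l2) (hd : 0 < dl) : ∀ ε : ℝ, 0 < ε → ∃ (K : ℝ≥0) (S0 : ℝ), 0 < S0 ∧ ∀ᶠ a in l, ∀ S : ℝ, S0 ≤ S →
      ∃ Φ : ℝ × ℝ × C(unitInterval, ℂ) → ℝ, LipschitzWith K Φ ∧ (∀ x, |Φ x| ≤ 1) ∧
        ∀ (N : ℕ) (b : ℝ) (A : Set (W3 × ℕ)), 1 ≤ N → A ⊆ WdL l1 l2 dl S →
          ∫ x in A, |∏ i ∈ J, G i a S (arcw x.2 (k i) x.1) - Φ (cUn S x)| ∂(mwE N b) ≤ ε * (S / N) ^ (2 / 3 : ℝ) := by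
  intro ε hε
  obtain ⟨C, hC, hwin⟩ := win_intL hQ
  have hsl : 0 < √l2 := Real.sqrt_pos.2 hl
  obtain ⟨e, he⟩ : ∃ e : ℝ, e = ε / (C * √l2) := ⟨_, rfl⟩
  have he0 : 0 < e := by
    rw [he]
    positivity
  have heC : C * (e * √l2) = ε := by
    rw [he]
    field_simp
  obtain ⟨K0, hK0⟩ : ∃ K0 : ℝ, K0 = (2 / l1) ^ (3 / 4 : ℝ) + l2 ^ (3 / 4 : ℝ) := ⟨_, rfl⟩
  have hk1 : 0 < (2 / l1) ^ (3 / 4 : ℝ) := by positivity
  have hk2 : 0 < l2 ^ (3 / 4 : ℝ) := by positivity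
  obtain ⟨K, n0, hm⟩ := macJ J k hG h e (dl / 2) K0 he0 (by positivity) (by rw [hK0]; positivity)
  obtain ⟨S0, hS0⟩ : ∃ S0 : ℝ, S0 = (((n0 : ℝ) + 2 / dl + 2) / l1) ^ (3 / 4 : ℝ) := ⟨_, rfl⟩
  have hS00 : 0 < S0 := by
    rw [hS0]
    positivity
  refine ⟨K, S0, hS00, hm.mono fun a ha S hS => ?_⟩
  have hSp : 0 < S := hS00.trans_le hS
  obtain ⟨Φ, h1, h2, h3⟩ := ha S hSp
  refine ⟨Φ, h1, h2, fun N b A hN hA => ?_⟩
  have hY : ((n0 : ℝ) + 2 / dl + 2) / l1 ≤ S ^ (4 / 3 : ℝ) := by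
    have h4 := Real.rpow_le_rpow hS00.le hS (show (0 : ℝ) ≤ 4 / 3 by norm_num)
    rw [hS0, ← Real.rpow_mul (by positivity)] at h4
    norm_num at h4
    exact h4
  rw [div_le_iff₀ hl1] at hY
  have hS34 : (S ^ (4 / 3 : ℝ)) ^ (3 / 4 : ℝ) = S := by
    rw [← Real.rpow_mul hSp.le]
    norm_num
  obtain ⟨Y, hYe⟩ : ∃ Y : ℝ, Y = S ^ (4 / 3 : ℝ) := ⟨_, rfl⟩
  rw [← hYe] at hY hS34
  have hY0 : 0 < Y := by
    rw [hYe]
    positivity
  have h4 := hwin N b l1 l2 dl S e A (fun x => |∏ i ∈ J, G i a S (arcw x.2 (k i) x.1) - Φ (cUn S x)|) hN hl hSp he0.le hA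
    (fun x => abs_nonneg _) (by
      intro n m hn hm' a1 a2 a3 a4
      rw [← hYe] at a1 a2
      have hd2 : 0 < 2 / dl := by positivity
      have hnr : (n0 : ℝ) + 2 / dl + 1 ≤ n := by linarith
      have hn0 : (0 : ℝ) ≤ n0 := Nat.cast_nonneg n0
      have hnp : (1 : ℝ) ≤ n := by linarith
      have hdn : 2 ≤ dl * n := by
        have h5 : 2 / dl ≤ n := by linarith
        rw [div_le_iff₀ hd] at h5
        linarith
      have hS1 : S ≤ K0 * (n : ℝ) ^ (3 / 4 : ℝ) := by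
        have h5 : Y ≤ 2 / l1 * n := by
          rw [div_mul_eq_mul_div, le_div_iff₀ hl1]
          linarith
        have h6 := Real.rpow_le_rpow hY0.le h5 (show (0 : ℝ) ≤ 3 / 4 by norm_num)
        rw [hS34, Real.mul_rpow (by positivity) (by linarith)] at h6
        refine h6.trans (mul_le_mul_of_nonneg_right ?_ (by positivity))
        rw [hK0]
        linarith
      have hS2 : (n : ℝ) ^ (3 / 4 : ℝ) ≤ K0 * S := by
        have h5 : (n : ℝ) ≤ l2 * Y := by linarith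
        have h6 := Real.rpow_le_rpow (by linarith) h5 (show (0 : ℝ) ≤ 3 / 4 by norm_num)
        rw [Real.mul_rpow hl.le hY0.le, hS34] at h6
        refine h6.trans (mul_le_mul_of_nonneg_right ?_ hSp.le)
        rw [hK0]
        linarith
      have h5 := h3 n m (by
        have : (n0 : ℝ) ≤ n := by linarith
        exact_mod_cast this) hn hm' (by
        have : dl * (n : ℝ) ≤ dl * ((n : ℝ) + 1) := by linarith
        linarith) (by linarith) hS1 hS2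
      refine le_trans (le_of_eq (Finset.sum_congr rfl fun s _ => ?_)) h5
      show |∏ i ∈ J, G i a S (arcw m (k i) (clw s)) - Φ (cUn S (clw s, m))| = _
      unfold cUn
      simp only
      rw [length_clw])
  rw [heC] at h4
  exact h4

/-- **the same with `S = ρ N`** -/
theorem mac_rhoL (hQ : QB) {ι : Type*} (J : Finset ι) (k : ι → Arm) {l : Filter α} {G : ι → α → ℝ → W3 → ℝ}
    (hG : ∀ᶠ a in l, ∀ i ∈ J, ∀ S : ℝ, 0 < S → ∀ w, |G i a S w| ≤ 1) (h : ∀ i ∈ J, ArcJ l (G i)) {l1 l2 dl : ℝ} (hl1 : 0 < l1)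
    (hl : 0 < l2) (hd : 0 < dl) : ∀ ε : ℝ, 0 < ε → ∃ K : ℝ≥0, ∀ᶠ a in l, ∀ ρ : ℝ, 0 < ρ → ∃ N0 : ℕ, ∀ N : ℕ, N0 ≤ N →
      ∃ Φ : ℝ × ℝ × C(unitInterval, ℂ) → ℝ, LipschitzWith K Φ ∧ (∀ x, |Φ x| ≤ 1) ∧
        ∀ (b : ℝ) (A : Set (W3 × ℕ)), A ⊆ WdL l1 l2 dl (ρ * N) →
          ∫ x in A, |∏ i ∈ J, G i a (ρ * N) (arcw x.2 (k i) x.1) - Φ (cUn (ρ * N) x)| ∂(mwE N b) ≤ ε * ρ ^ (2 / 3 : ℝ) := by
  intro ε hε
  obtain ⟨K, S0, hS0, h1⟩ := mac_winL hQ J k hG h hl1 hl hd ε hε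
  refine ⟨K, h1.mono fun a ha ρ hρ => ?_⟩
  obtain ⟨N0, hN0⟩ := exists_nat_ge (S0 / ρ)
  refine ⟨N0 + 1, fun N hN => ?_⟩
  have hNp : (0 : ℝ) < N := by exact_mod_cast (by omega : 0 < N)
  have h2 : S0 ≤ ρ * N := by
    have h3 : S0 / ρ ≤ N := hN0.trans (by exact_mod_cast (by omega : N0 ≤ N))
    rw [div_le_iff₀ hρ] at h3
    linarith
  obtain ⟨Φ, b1, b2, b3⟩ := ha (ρ * N) h2
  refine ⟨Φ, b1, b2, fun b A hA => ?_⟩
  have h4 := b3 N b A (by omega) hA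
  rwa [mul_div_assoc, div_self hNp.ne', mul_one] at h4

/-! ### the window with the ratio 2 -/

/-- **from every number of steps and every second root to the integral over the window** -/
theorem win_int (hQ : QB) : ∃ C : ℝ, 0 < C ∧ ∀ (N : ℕ) (b lam dl S e : ℝ) (A : Set (W3 × ℕ)) (f : W3 × ℕ → ℝ), 1 ≤ N → 0 < lam →
    0 < S → 0 ≤ e → A ⊆ Wdw lam dl S → (∀ x, 0 ≤ f x) →
    (∀ n m : ℕ, Odd n → Even m → lam * S ^ (4 / 3 : ℝ) ≤ (n : ℝ) + 1 → (n : ℝ) + 1 ≤ 2 * (lam * S ^ (4 / 3 : ℝ)) →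
      dl * ((n : ℝ) + 1) ≤ m → (m : ℝ) ≤ (1 - dl) * ((n : ℝ) + 1) → ∑ s ∈ pol n, f (clw s, m) ≤ e * ((pol n).card : ℝ)) →
    ∫ x in A, f x ∂(mwE N b) ≤ C * (e * √lam) * (S / N) ^ (2 / 3 : ℝ) := by
  obtain ⟨C, hC, hle⟩ := win_intL hQ
  refine ⟨C * √2, by positivity, fun N b lam dl S e A f hN hl hS he hA hf h => ?_⟩
  have h1 := hle N b lam (2 * lam) dl S e A f hN (by positivity) hS he (by rwa [← Wdw_eq]) hf fun n m a1 a2 a3 a4 =>
    h n m a1 a2 a3 (by rwa [← mul_assoc])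
  rw [Real.sqrt_mul (by norm_num)] at h1
  exact h1.trans (le_of_eq (by ring))

/-- **the mass of the window** -/
theorem win_mass (hQ : QB) : ∃ C : ℝ, 0 < C ∧ ∀ (N : ℕ) (b lam dl S : ℝ) (A : Set (W3 × ℕ)), 1 ≤ N → 0 < lam → 0 < S →
    A ⊆ Wdw lam dl S → (mwE N b).real A ≤ C * √lam * (S / N) ^ (2 / 3 : ℝ) := by
  obtain ⟨C, hC, hle⟩ := win_massL hQ
  refine ⟨C * √2, by positivity, fun N b lam dl S A hN hl hS hA => ?_⟩
  have h1 := hle N b lam (2 * lam) dl S A hN (by positivity) hS (by rwa [← Wdw_eq])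
  rw [Real.sqrt_mul (by norm_num)] at h1
  exact h1.trans (le_of_eq (by ring))

/-- **the products over the arcs in the window, for every unit of length** -/
theorem mac_win (hQ : QB) {ι : Type*} (J : Finset ι) (k : ι → Arm) {l : Filter α} {G : ι → α → ℝ → W3 → ℝ}
    (hG : ∀ᶠ a in l, ∀ i ∈ J, ∀ S : ℝ, 0 < S → ∀ w, |G i a S w| ≤ 1) (h : ∀ i ∈ J, ArcJ l (G i)) {lam dl : ℝ} (hl : 0 < lam)
    (hd : 0 < dl) : ∀ ε : ℝ, 0 < ε → ∃ (K : ℝ≥0) (S0 : ℝ), 0 < S0 ∧ ∀ᶠ a in l, ∀ S : ℝ, S0 ≤ S →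
      ∃ Φ : ℝ × ℝ × C(unitInterval, ℂ) → ℝ, LipschitzWith K Φ ∧ (∀ x, |Φ x| ≤ 1) ∧
        ∀ (N : ℕ) (b : ℝ) (A : Set (W3 × ℕ)), 1 ≤ N → A ⊆ Wdw lam dl S →
          ∫ x in A, |∏ i ∈ J, G i a S (arcw x.2 (k i) x.1) - Φ (cUn S x)| ∂(mwE N b) ≤ ε * (S / N) ^ (2 / 3 : ℝ) := by
  simp only [Wdw_eq]
  exact mac_winL hQ J k hG h hl (by positivity) hd

/-- **the same with `S = ρ N`** -/
theorem mac_rho (hQ : QB) {ι : Type*} (J : Finset ι) (k : ι → Arm) {l : Filter α} {G : ι → α → ℝ → W3 → ℝ}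
    (hG : ∀ᶠ a in l, ∀ i ∈ J, ∀ S : ℝ, 0 < S → ∀ w, |G i a S w| ≤ 1) (h : ∀ i ∈ J, ArcJ l (G i)) {lam dl : ℝ} (hl : 0 < lam)
    (hd : 0 < dl) : ∀ ε : ℝ, 0 < ε → ∃ K : ℝ≥0, ∀ᶠ a in l, ∀ ρ : ℝ, 0 < ρ → ∃ N0 : ℕ, ∀ N : ℕ, N0 ≤ N →
      ∃ Φ : ℝ × ℝ × C(unitInterval, ℂ) → ℝ, LipschitzWith K Φ ∧ (∀ x, |Φ x| ≤ 1) ∧
        ∀ (b : ℝ) (A : Set (W3 × ℕ)), A ⊆ Wdw lam dl (ρ * N) →
          ∫ x in A, |∏ i ∈ J, G i a (ρ * N) (arcw x.2 (k i) x.1) - Φ (cUn (ρ * N) x)| ∂(mwE N b) ≤ ε * ρ ^ (2 / 3 : ℝ) := by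
  simp only [Wdw_eq]
  exact mac_rhoL hQ J k hG h hl (by positivity) hd

end Pool.Agent.ROT.F3
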