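import Pool.Agent.ROT.F3C0M

/-!
# ROT, F3 (B), row C0At (helper83): both outputs with the same constants

* **`kap_both`** : from the marked words of the window (`MkD`, mass, limit `μ`, `c0 * mass < μ X`): (1) for all `ψ` near the indicator
  of `X` in `L1 (μ)` the mass of the short blocks with the weight `ψ` is at least `c1` (one scale, eventually); (2) `c1 ≤ κ X`.
-/

set_option autoImplicit false

namespace Pool.Agent.ROT.F3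

open Finset MeasureTheory Filter Topology
open scoped ENNReal NNReal Classical BoundedContinuousFunction

/-- **the mass of the blocks in `X`**: one scale and limit, the same constants -/
theorem kap_both {c0 C' ra rb la sb : ℝ} (hc0 : 0 < c0) (hrb : 2 * ra ≤ rb) (hrb0 : 0 < rb) (hla : 0 < la) :
    ∃ c1 l0 Ab : ℝ, 0 < c1 ∧ 0 < l0 ∧ 0 < Ab ∧ ∀ l1 : ℝ, l0 ≤ l1 → ∀ (ρ b dl mass : ℝ) (E : Tp) (O : Ot) (U : Ultrafilter ℕ)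
      (a : Fin 3) (T s t : ℕ → ℝ) (μ : Measure (CI3 × ℝ)) (X : Set (CI3 × ℝ)) (A : ℕ → Set (W3 × ℕ)) (bb : ℕ → W3 × ℕ → W3),
      0 < ρ → E.Ok → E.r + E.r2 ≤ ra * ρ → la * ρ ≤ E.l → O.r ≤ sb * ρ → (U : Filter ℕ) ≤ atTop → IsFiniteMeasure μ →
      MeasurableSet X →
      (∀ᶠ N : ℕ in (U : Filter ℕ), MkD (ev a) (rb * (ρ * N)) C' (ρ * N) (Pre (ev a) E N (T N)) (OtB (ev a) O N (T N))
        (WdP l1 (3 * l1) dl (ρ * N)) (A N) (bb N)) →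
      (∀ᶠ N : ℕ in (U : Filter ℕ), (mwE N b).real (WdP l1 (3 * l1) dl (ρ * N)) ≤ mass) →
      (∀ h : (CI3 × ℝ) →ᵇ ℝ, Tendsto (fun N : ℕ => ∫ x in A N, h (cr (s N) (t N) (bb N x)) ∂(mwE N b)) (U : Filter ℕ)
        (𝓝 (∫ x, h x ∂μ))) →
      c0 * mass < μ.real X →
      (∃ e0 : ℝ, 0 < e0 ∧ ∀ ψ : (CI3 × ℝ) →ᵇ ℝ, (∀ x, 0 ≤ ψ x) → (∀ x, ψ x ≤ 1) →
        ∫ x, |ψ x - X.indicator (fun _ => (1 : ℝ)) x| ∂μ ≤ e0 → ∀ᶠ N : ℕ in (U : Filter ℕ),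
          ENNReal.ofReal c1 ≤ Sb {b | b ∈ OtB (ev a) O N (T N) ∧ (b.length : ℝ) ≤ Ab * (ρ * N) ^ (4 / 3 : ℝ)}
            (fun b => ENNReal.ofReal (ψ (cr (s N) (t N) b)))) ∧
      ∀ κ : Measure (CI3 × ℝ), IsFiniteMeasure κ →
        (∀ h : (CI3 × ℝ) →ᵇ ℝ, Tendsto (fun N : ℕ => ∫ x, h x ∂(rm 1 (s N) (t N) (OtB (ev a) O N (T N)) fun _ => 1))
          (U : Filter ℕ) (𝓝 (∫ x, h x ∂κ))) → ENNReal.ofReal c1 ≤ κ X := by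
  obtain ⟨c1, lam0, A0, L1, hc1, hlam0, hA0, hL1, hW⟩ := w8u (c0 := c0) (C' := C') (sb := sb) hc0 hrb hrb0 hla
  refine ⟨c1, 4 / 3 * lam0, A0, hc1, by positivity, hA0, fun l1 hl1 ρ b dl mass E O U a T s t μ X A bb hρ hE e1 e2 e3 hU hμ hX hA
    hm hlim hX2 => ?_⟩
  have hl : lam0 ≤ 3 / 4 * l1 := by linarith
  have hl10 : 0 < l1 := by linarith
  obtain ⟨η, hη, hη2⟩ : ∃ η : ℝ, 0 < η ∧ c0 * mass + η < μ.real X := ⟨(μ.real X - c0 * mass) / 2, by linarith, by linarith⟩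
  have hN : Tendsto (fun N : ℕ => (N : ℝ)) (U : Filter ℕ) atTop := tendsto_natCast_atTop_atTop.mono_left hU
  have key : ∀ ψ : (CI3 × ℝ) →ᵇ ℝ, (∀ x, 0 ≤ ψ x) → (∀ x, ψ x ≤ 1) →
      ∫ x, |ψ x - X.indicator (fun _ => (1 : ℝ)) x| ∂μ ≤ η → ∀ᶠ N : ℕ in (U : Filter ℕ),
        C0At c0 C' (3 / 4 * l1) (rb * (ρ * N)) (ev a) (Pre (ev a) E N (T N)) (OtB (ev a) O N (T N))
          (fun b => ENNReal.ofReal (ψ (cr (s N) (t N) b))) (ρ * N) := by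
    intro ψ _ h1 hψ
    refine c0_lim (S := fun N : ℕ => ρ * N) (r0 := fun N : ℕ => rb * (ρ * N)) (d := fun _ => ev a)
      (P := fun N => Pre (ev a) E N (T N)) (B := fun N => OtB (ev a) O N (T N))
      (V := fun N => {q | l1 * (ρ * N) ^ (4 / 3 : ℝ) ≤ (q.1 : ℝ) ∧ (q.1 : ℝ) ≤ 3 * l1 * (ρ * N) ^ (4 / 3 : ℝ) ∧
        (q.1 : ℝ) ≤ 2 * q.2 ∧ (q.2 : ℝ) ≤ (1 - dl) * q.1})
      (W := fun N : ℕ => WdP l1 (3 * l1) dl (ρ * N)) hc0 (fun N x => Iff.rfl) ?_ hA hm hlim hμ hX hη2 h1 hψ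
    have h3 : ∀ᶠ N : ℕ in (U : Filter ℕ), max 1 (4 / l1) ≤ ρ * N := (hN.const_mul_atTop hρ).eventually_ge_atTop _
    filter_upwards [h3] with N g1 n m hq
    have g2 : 1 ≤ ρ * (N : ℝ) := (le_max_left _ _).trans g1
    have g3 : 4 / l1 ≤ ρ * (N : ℝ) := (le_max_right _ _).trans g1
    have g4 : ρ * (N : ℝ) ≤ (ρ * (N : ℝ)) ^ (4 / 3 : ℝ) := by
      calc ρ * (N : ℝ) = (ρ * (N : ℝ)) ^ (1 : ℝ) := (Real.rpow_one _).symm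
        _ ≤ _ := Real.rpow_le_rpow_of_exponent_le g2 (by norm_num)
    have g5 : 4 ≤ l1 * (ρ * (N : ℝ)) ^ (4 / 3 : ℝ) := by
      rw [div_le_iff₀ hl10] at g3
      nlinarith
    obtain ⟨q1, q2, -, -⟩ := hq
    constructor
    · linarith
    · linarith
  refine ⟨⟨η, hη, fun ψ h0 h1 hψ => ?_⟩, fun κ hκ hk => ?_⟩
  · have h2 : ∀ᶠ N : ℕ in (U : Filter ℕ), L1 ≤ ρ * N := (hN.const_mul_atTop hρ).eventually_ge_atTop _
    filter_upwards [key ψ h0 h1 hψ, h2] with N g1 g2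
    exact (hW (3 / 4 * l1) hl).1 ρ E O a N (T N) _ hρ hE e1 e2 e3 g2 g1
  · exact (hW (3 / 4 * l1) hl).2 ρ E O U a (fun N => (N : ℝ)) T s t κ μ X η hρ hE e1 e2 e3 hN hκ hμ hX hη hk key

end Pool.Agent.ROT.F3
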