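import Pool.Agent.ROT.F3C0H
import Pool.Agent.ROT.F3C0K
import Pool.Agent.ROT.F3C0L
import Pool.Agent.ROT.F3C0M2

/-!
# ROT, F3 (B), row C0At (helper39, literal of helper86): the set of the blocks has a lower bound

**`sa_fin`** : marked closed words `A N` with the law `M` of (curve, marks), a set `Ef` of marked curves which contains almost
everywhere the curves with `0 < G` and `0 < J0'`, the lower bound of the native side and the rotation error: a Borel set `S` of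
blocks of points of `Ef`, with the share `c0` of the mass of the window, and then `c1 ≤ κ S` for the limit `κ` of the blocks.
**`sa_fin2`** : the same over `kap_both` of helper83: in addition the lower bound for the functions `ψ` near `S` and short blocks.
-/

set_option autoImplicit false

open MeasureTheory Filter Topology Set
open scoped ENNReal NNReal BoundedContinuousFunction

namespace Pool.Agent.ROT.F3

open Pool.Agent.ROT.F3.CC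
open Pool.Agent.ROT.F (QB)

/-- the window of `kap_low` is inside of the window of `win_massL` -/
lemma wdP_sub (l1 l2 dl S : ℝ) : WdP l1 l2 dl S ⊆ WdL l1 l2 dl S := by
  rintro x ⟨h1, h2, h3, h4⟩
  refine ⟨h1, h2, ?_, h4⟩
  have h0 : (0 : ℝ) ≤ x.1.length := Nat.cast_nonneg _
  by_cases hd : dl ≤ 1 / 2
  · nlinarith
  · push Not at hd
    nlinarith

/-- **the mass of the blocks**, with the bound for functions near `S` -/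
theorem sa_fin2 (hQ : QB) {c C' ra rb la sb : ℝ} (hc : 0 < c) (hrb : 2 * ra ≤ rb) (hrb0 : 0 < rb) (hla : 0 < la) :
    ∃ C c1 l0 Ab : ℝ, 0 < C ∧ 0 < c1 ∧ 0 < l0 ∧ 0 < Ab ∧ ∀ l1 : ℝ, l0 ≤ l1 → ∀ (ρ b dl : ℝ) (E : Tp) (O : Ot) (U : Ultrafilter ℕ) (a : Fin 3)
      (P : Measure (ℝ × ℝ × C(unitInterval, ℂ))) (A : ℕ → Set (W3 × ℕ)) (yy : ℕ → W3 × ℕ → W3 × (W3 × W3)), 0 < ρ → 0 ≤ b →
      E.Ok → E.r + E.r2 ≤ ra * ρ → la * ρ ≤ E.l → O.r ≤ sb * ρ → (U : Filter ℕ) ≤ atTop →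
      LF.Cv (U : Filter ℕ) (fun N => mwE N b) cN P →
      (∀ᶠ N : ℕ in (U : Filter ℕ), MkD (ev a) (rb * (ρ * N)) C' (ρ * N) (Pre (ev a) E N (uT N)) (OtB (ev a) O N (uT N))
        (WdP l1 (3 * l1) dl (ρ * N)) (A N) fun x => (yy N x).2.1) →
      ∀ M : Measure C0K.XM, IsFiniteMeasure M → M.map Prod.fst ≤ P →
      (∀ g : C0K.XM →ᵇ ℝ, Tendsto (fun N => ∫ x in A N, g (cN N x, C0K.tt (yy N x) x.1) ∂(mwE N b)) U (𝓝 (∫ y, g y ∂M))) →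
      (∀ g : Pie →ᵇ ℝ, Tendsto (fun N => ∫ x in A N, g (cr N (uT N) (yy N x).2.1) ∂(mwE N b)) U
        (𝓝 (∫ y, g (C0K.blX y) ∂M))) →
      ∀ (J g : ℕ → W3 × ℕ → ℝ) (J0 J0' G : ℝ × ℝ × C(unitInterval, ℂ) → ℝ),
      LF.Lm (U : Filter ℕ) (fun N => mwE N b) cN P J J0 → LF.Lm (U : Filter ℕ) (fun N => mwE N b) cN P g G →
      Measurable J0' → (∃ K : ℝ, ∀ x, |J0' x| ≤ K) → (∀ᵐ x ∂P, J0' x ≤ 1) → (∀ x, 0 ≤ G x) → (∀ x, G x ≤ 1) →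
      ∀ Ef : Set C0K.XM, MeasurableSet Ef → (∀ᵐ y ∂M, 0 < G y.1 → 0 < J0' y.1 → y ∈ Ef) →
      (∀ᶠ N : ℕ in (U : Filter ℕ), c * √l1 * ρ ^ (2 / 3 : ℝ) ≤ ∫ x in A N, g N x * J N x ∂(mwE N b)) →
      ∫ x, G x * |J0' x - J0 x| ∂P ≤ c / 4 * √l1 * ρ ^ (2 / 3 : ℝ) →
      ∃ S : Set Pie, MeasurableSet S ∧ S ⊆ C0K.blX '' Ef ∧ (∀ᵐ y ∂M, y ∈ Ef → C0K.blX y ∈ S) ∧
        (∀ᶠ N : ℕ in (U : Filter ℕ), (mwE N b).real (WdP l1 (3 * l1) dl (ρ * N)) ≤ C * √(3 * l1) * ρ ^ (2 / 3 : ℝ)) ∧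
        c / (4 * √3 * C) * (C * √(3 * l1) * ρ ^ (2 / 3 : ℝ)) < (M.map C0K.blX).real S ∧
        (∀ h : Pie →ᵇ ℝ, Tendsto (fun N => ∫ x in A N, h (cr N (uT N) (yy N x).2.1) ∂(mwE N b)) U
          (𝓝 (∫ x, h x ∂(M.map C0K.blX)))) ∧
        (∃ e0 : ℝ, 0 < e0 ∧ ∀ ψ : Pie →ᵇ ℝ, (∀ x, 0 ≤ ψ x) → (∀ x, ψ x ≤ 1) →
          ∫ x, |ψ x - S.indicator (fun _ => (1 : ℝ)) x| ∂(M.map C0K.blX) ≤ e0 → ∀ᶠ N : ℕ in (U : Filter ℕ),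
            ENNReal.ofReal c1 ≤ Sb {b | b ∈ OtB (ev a) O N (uT N) ∧ (b.length : ℝ) ≤ Ab * (ρ * N) ^ (4 / 3 : ℝ)}
              (fun b => ENNReal.ofReal (ψ (cr N (uT N) b)))) ∧
        ∀ κ : Measure Pie, IsFiniteMeasure κ →
          (∀ h : Pie →ᵇ ℝ, Tendsto (fun N : ℕ => ∫ x, h x ∂(rm 1 N (uT N) (OtB (ev a) O N (uT N)) fun _ => 1)) U
            (𝓝 (∫ x, h x ∂κ))) → ENNReal.ofReal c1 ≤ κ S := by
  obtain ⟨C, hC, hwin⟩ := win_massL hQ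
  obtain ⟨c1, l0, Ab, hc1, hl0, hAb, hkap⟩ := kap_both (c0 := c / (4 * √3 * C)) (C' := C') (ra := ra) (rb := rb) (la := la)
    (sb := sb) (by positivity) hrb hrb0 hla
  refine ⟨C, c1, l0, Ab, hC, hc1, hl0, hAb, ?_⟩
  intro l1 hl1 ρ b dl E O U a P A yy hρ hb hE e1 e2 e3 hU hCv hMk M hM hMP lim1 lim2 J g J0 J0' G hJ hg mJ' bJ' hJ' hG hG1 Ef mEf det
    low rot
  have hl1p : 0 < l1 := lt_of_lt_of_le hl0 hl1
  obtain ⟨S, mS, sS, aS⟩ := s_im (M := M) hM mEf C0K.blX_cont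
  have hfM := hM
  -- the mass of the set
  have h1 : c * √l1 * ρ ^ (2 / 3 : ℝ) - c / 4 * √l1 * ρ ^ (2 / 3 : ℝ) ≤ M.real Ef := by
    refine LF.c0_lowM hCv hJ hg mJ' bJ' hJ' hG hG1 hM hMP (A := A) (fun f => ?_) mEf det low rot
    have := lim1 (f.compContinuous ⟨Prod.fst, continuous_fst⟩)
    exact this
  have h2 : M.real Ef ≤ (M.map C0K.blX).real S := s_mass hM C0K.blX_cont.measurable mS aS
  -- the mass of the window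
  have h3 : ∀ᶠ N : ℕ in (U : Filter ℕ), (mwE N b).real (WdP l1 (3 * l1) dl (ρ * N)) ≤ C * √(3 * l1) * ρ ^ (2 / 3 : ℝ) := by
    filter_upwards [hU (eventually_ge_atTop 1)] with N hN
    have hN0 : (0 : ℝ) < N := by exact_mod_cast hN
    have h4 := hwin N b l1 (3 * l1) dl (ρ * N) _ hN (by positivity) (by positivity) (wdP_sub l1 (3 * l1) dl (ρ * N))
    rwa [mul_div_cancel_right₀ _ hN0.ne'] at h4
  have h5 : c / (4 * √3 * C) * (C * √(3 * l1) * ρ ^ (2 / 3 : ℝ)) = c / 4 * √l1 * ρ ^ (2 / 3 : ℝ) := by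
    rw [Real.sqrt_mul (by norm_num)]
    have : (0 : ℝ) < √3 := Real.sqrt_pos.2 (by norm_num)
    field_simp
  have h6 : 0 < c / 4 * √l1 * ρ ^ (2 / 3 : ℝ) := by
    have : 0 < √l1 := Real.sqrt_pos.2 hl1p
    positivity
  have h7 : c / (4 * √3 * C) * (C * √(3 * l1) * ρ ^ (2 / 3 : ℝ)) < (M.map C0K.blX).real S := by
    rw [h5]
    have e : c * √l1 * ρ ^ (2 / 3 : ℝ) = 4 * (c / 4 * √l1 * ρ ^ (2 / 3 : ℝ)) := by ring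
    rw [e] at h1
    linarith
  have h8 : ∀ h : Pie →ᵇ ℝ, Tendsto (fun N => ∫ x in A N, h (cr N (uT N) (yy N x).2.1) ∂(mwE N b)) U
      (𝓝 (∫ x, h x ∂(M.map C0K.blX))) := by
    intro h
    rw [integral_map C0K.blX_cont.measurable.aemeasurable h.continuous.measurable.aestronglyMeasurable]
    exact lim2 h
  obtain ⟨k1, k2⟩ := hkap l1 hl1 ρ b dl _ E O U a uT (fun N => N) uT (M.map C0K.blX) S A (fun N x => (yy N x).2.1) hρ hE e1 e2 e3 hU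
    (Measure.isFiniteMeasure_map M _) mS hMk h3 h8 h7
  exact ⟨S, mS, sS, aS, h3, h7, h8, k1, k2⟩

/-- **the mass of the blocks** -/
theorem sa_fin (hQ : QB) {c C' ra rb la sb : ℝ} (hc : 0 < c) (hrb : 2 * ra ≤ rb) (hrb0 : 0 < rb) (hla : 0 < la) :
    ∃ C c1 l0 : ℝ, 0 < C ∧ 0 < c1 ∧ 0 < l0 ∧ ∀ l1 : ℝ, l0 ≤ l1 → ∀ (ρ b dl : ℝ) (E : Tp) (O : Ot) (U : Ultrafilter ℕ) (a : Fin 3)
      (P : Measure (ℝ × ℝ × C(unitInterval, ℂ))) (A : ℕ → Set (W3 × ℕ)) (yy : ℕ → W3 × ℕ → W3 × (W3 × W3)), 0 < ρ → 0 ≤ b →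
      E.Ok → E.r + E.r2 ≤ ra * ρ → la * ρ ≤ E.l → O.r ≤ sb * ρ → (U : Filter ℕ) ≤ atTop →
      LF.Cv (U : Filter ℕ) (fun N => mwE N b) cN P →
      (∀ᶠ N : ℕ in (U : Filter ℕ), MkD (ev a) (rb * (ρ * N)) C' (ρ * N) (Pre (ev a) E N (uT N)) (OtB (ev a) O N (uT N))
        (WdP l1 (3 * l1) dl (ρ * N)) (A N) fun x => (yy N x).2.1) →
      ∀ M : Measure C0K.XM, IsFiniteMeasure M → M.map Prod.fst ≤ P →
      (∀ g : C0K.XM →ᵇ ℝ, Tendsto (fun N => ∫ x in A N, g (cN N x, C0K.tt (yy N x) x.1) ∂(mwE N b)) U (𝓝 (∫ y, g y ∂M))) →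
      (∀ g : Pie →ᵇ ℝ, Tendsto (fun N => ∫ x in A N, g (cr N (uT N) (yy N x).2.1) ∂(mwE N b)) U
        (𝓝 (∫ y, g (C0K.blX y) ∂M))) →
      ∀ (J g : ℕ → W3 × ℕ → ℝ) (J0 J0' G : ℝ × ℝ × C(unitInterval, ℂ) → ℝ),
      LF.Lm (U : Filter ℕ) (fun N => mwE N b) cN P J J0 → LF.Lm (U : Filter ℕ) (fun N => mwE N b) cN P g G →
      Measurable J0' → (∃ K : ℝ, ∀ x, |J0' x| ≤ K) → (∀ᵐ x ∂P, J0' x ≤ 1) → (∀ x, 0 ≤ G x) → (∀ x, G x ≤ 1) →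
      ∀ Ef : Set C0K.XM, MeasurableSet Ef → (∀ᵐ y ∂M, 0 < G y.1 → 0 < J0' y.1 → y ∈ Ef) →
      (∀ᶠ N : ℕ in (U : Filter ℕ), c * √l1 * ρ ^ (2 / 3 : ℝ) ≤ ∫ x in A N, g N x * J N x ∂(mwE N b)) →
      ∫ x, G x * |J0' x - J0 x| ∂P ≤ c / 4 * √l1 * ρ ^ (2 / 3 : ℝ) →
      ∃ S : Set Pie, MeasurableSet S ∧ S ⊆ C0K.blX '' Ef ∧ (∀ᵐ y ∂M, y ∈ Ef → C0K.blX y ∈ S) ∧
        (∀ᶠ N : ℕ in (U : Filter ℕ), (mwE N b).real (WdP l1 (3 * l1) dl (ρ * N)) ≤ C * √(3 * l1) * ρ ^ (2 / 3 : ℝ)) ∧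
        c / (4 * √3 * C) * (C * √(3 * l1) * ρ ^ (2 / 3 : ℝ)) < (M.map C0K.blX).real S ∧
        (∀ h : Pie →ᵇ ℝ, Tendsto (fun N => ∫ x in A N, h (cr N (uT N) (yy N x).2.1) ∂(mwE N b)) U
          (𝓝 (∫ x, h x ∂(M.map C0K.blX)))) ∧
        ∀ κ : Measure Pie, IsFiniteMeasure κ →
          (∀ h : Pie →ᵇ ℝ, Tendsto (fun N : ℕ => ∫ x, h x ∂(rm 1 N (uT N) (OtB (ev a) O N (uT N)) fun _ => 1)) U
            (𝓝 (∫ x, h x ∂κ))) → ENNReal.ofReal c1 ≤ κ S := by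
  obtain ⟨C, c1, l0, Ab, hC, hc1, hl0, -, H⟩ := sa_fin2 hQ (C' := C') (sb := sb) hc hrb hrb0 hla
  refine ⟨C, c1, l0, hC, hc1, hl0, ?_⟩
  intro l1 hl1 ρ b dl E O U a P A yy hρ hb hE e1 e2 e3 hU hCv hMk M hM hMP lim1 lim2 J g J0 J0' G hJ hg mJ' bJ' hJ' hG hG1 Ef mEf det
    low rot
  obtain ⟨S, s1, s2, s3, s4, s5, s6, -, s7⟩ := H l1 hl1 ρ b dl E O U a P A yy hρ hb hE e1 e2 e3 hU hCv hMk M hM hMP lim1 lim2 J g J0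
    J0' G hJ hg mJ' bJ' hJ' hG hG1 Ef mEf det low rot
  exact ⟨S, s1, s2, s3, s4, s5, s6, s7⟩

end Pool.Agent.ROT.F3
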