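import Pool.Agent.ROT.F3C0P

/-!
# ROT, F3 (B), row S_a (helper65, literal of helper86): small rotations of the products of the gates, positions from a finite grid

* **`grid_small`** : the angle depends on `e`, on the window, on the mesh `d1` and on the range `[t0, U1]` of the positions only, not on
  the direction, the ideal positions, the scale `ρ`, on `b` and on the ultrafilter (helper3's `rot_small` for the finitely many boxes with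
  base in the grid `t0 + k d1`); **`grid_smallN`** : the form `∃ M`.
-/

set_option autoImplicit false

open Filter MeasureTheory Topology Set

namespace Pool.Agent.ROT.F3

open Pool.Agent.ROT.F (QB)
open Pool.Agent.ROT.F3.C0P (bxu bxu_ok gz_abs gz_arcJ)

/-- **small rotations, uniformly in the positions** -/
theorem grid_small (hQ : QB) {d1 t0 l1 dl : ℝ} (U1 : ℝ) (hd1 : 0 < d1) (ht0 : 26 * d1 ≤ t0) (hl1 : 0 < l1) (hdl : 0 < dl) :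
    ∀ e : ℝ, 0 < e → ∃ φ0 : ℝ, 0 < φ0 ∧ ∀ z : ℂ, ‖z - 1‖ ≤ φ0 → ∀ (a : Fin 3) (t : Fin 3 → ℝ), (∀ q, t0 ≤ t q ∧ t q ≤ U1) →
      ∃ u : Fin 3 → ℝ, (∀ q, t q ≤ u q ∧ u q ≤ t q + d1) ∧ ∀ (ρ b : ℝ), 0 < ρ → 0 ≤ b → ∀ (U : Ultrafilter ℕ),
        (U : Filter ℕ) ≤ atTop → ∀ P : Measure (ℝ × ℝ × C(unitInterval, ℂ)), LF.Cv (U : Filter ℕ) (fun N => mwE N b) cN P →
          P.map (rotX z) = P → ∀ M : ℕ → ℕ, Tendsto M U atTop → ∃ J0 : ℝ × ℝ × C(unitInterval, ℂ) → ℝ,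
            LF.Lm (U : Filter ℕ) (fun N => mwE N b) cN P (pwc Finset.univ (fun _ => .fp)
              (fun q M S v => C0P.gz (bxu (u q) d1) (1010 * u q) M S (mp (rS (-a)) v)) (l1 / 2) (2 * (3 * l1)) (dl / 2) ρ M) J0 ∧
            ∫ x, wc l1 (3 * l1) dl ρ x * |J0 (rotX z x) - J0 x| ∂P ≤ e * ρ ^ (2 / 3 : ℝ) := by
  intro e he
  obtain ⟨n, hn⟩ := exists_nat_ge ((U1 - t0) / d1 + 1)
  have hu : ∀ k : ℕ, 26 * d1 ≤ t0 + k * d1 := fun k => by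
    have : 0 ≤ (k : ℝ) * d1 := by positivity
    linarith
  have hu0 : ∀ k : ℕ, 0 < t0 + k * d1 := fun k => by linarith [hu k]
  have hG : ∀ p : Fin 3 × (Fin 3 → Fin (n + 1)), ∀ q ∈ (Finset.univ : Finset (Fin 3)), ∀ (M : ℕ) (S : ℝ), 0 < S → ∀ w : W3,
      |C0P.gz (bxu (t0 + (p.2 q : ℕ) * d1) d1) (1010 * (t0 + (p.2 q : ℕ) * d1)) M S (mp (rS (-p.1)) w)| ≤ 1 :=
    fun p q _ M S hS w => gz_abs (bxu_ok hd1 (hu _)) (hu0 _).le hS.le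
  have hA : ∀ p : Fin 3 × (Fin 3 → Fin (n + 1)), ∀ q ∈ (Finset.univ : Finset (Fin 3)), ArcJ atTop fun (M : ℕ) S w =>
      C0P.gz (bxu (t0 + (p.2 q : ℕ) * d1) d1) (1010 * (t0 + (p.2 q : ℕ) * d1)) M S (mp (rS (-p.1)) w) :=
    fun p q _ => gz_arcJ (hu0 _) le_rfl (bxu_ok hd1 (hu _)) _
  have hl2 : 0 < 3 * l1 := by positivity
  have key := fun p : Fin 3 × (Fin 3 → Fin (n + 1)) => rot_small Finset.univ (fun _ : Fin 3 => Arm.fp) hQ (hG p) (hA p) hl1 hl2 hdl e he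
  choose φ h1 h2 using key
  have hne : (Finset.univ : Finset (Fin 3 × (Fin 3 → Fin (n + 1)))).Nonempty := ⟨(0, fun _ => 0), Finset.mem_univ _⟩
  refine ⟨Finset.univ.inf' hne φ, (Finset.lt_inf'_iff hne).2 fun p _ => h1 p, fun z hz a t ht => ?_⟩
  have hk : ∀ q, ⌈(t q - t0) / d1⌉₊ < n + 1 := by
    intro q
    have h3 : (t q - t0) / d1 ≤ n := by
      have : (t q - t0) / d1 ≤ (U1 - t0) / d1 := div_le_div_of_nonneg_right (by linarith [(ht q).2]) hd1.le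
      linarith
    have h4 := Nat.ceil_le.2 h3
    omega
  obtain ⟨p, hp⟩ : ∃ p : Fin 3 × (Fin 3 → Fin (n + 1)), p = (a, fun q => ⟨⌈(t q - t0) / d1⌉₊, hk q⟩) := ⟨_, rfl⟩
  have hp2 : ∀ q, ((p.2 q : ℕ) : ℝ) = (⌈(t q - t0) / d1⌉₊ : ℝ) := fun q => by rw [hp]
  have hp1 : p.1 = a := by rw [hp]
  refine ⟨fun q => t0 + (p.2 q : ℕ) * d1, fun q => ?_, fun ρ b hρ hb U hU P hC hP M hM => ?_⟩
  · have h5 : 0 ≤ (t q - t0) / d1 := div_nonneg (by linarith [(ht q).1]) hd1.le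
    have h6 := Nat.le_ceil ((t q - t0) / d1)
    have h7 := Nat.ceil_lt_add_one h5
    rw [div_le_iff₀ hd1] at h6
    have h8 : (⌈(t q - t0) / d1⌉₊ : ℝ) * d1 ≤ ((t q - t0) / d1 + 1) * d1 := mul_le_mul_of_nonneg_right h7.le hd1.le
    have h9 : ((t q - t0) / d1 + 1) * d1 = t q - t0 + d1 := by field_simp
    show t q ≤ t0 + (p.2 q : ℕ) * d1 ∧ t0 + (p.2 q : ℕ) * d1 ≤ t q + d1
    rw [hp2]
    constructor <;> linarith
  · rw [← hp1]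
    obtain ⟨J0, hJ⟩ := lm_win Finset.univ (fun _ : Fin 3 => Arm.fp) hQ (hG p) (hA p) (show 0 < l1 / 2 by positivity)
      (show 0 < 2 * (3 * l1) by positivity) (show 0 < dl / 2 by positivity) hρ hb U hU hM hC
    exact ⟨J0, hJ, h2 p z (hz.trans (Finset.inf'_le _ (Finset.mem_univ p))) ρ b hρ hb U hU P hC hP M hM J0 hJ⟩

/-- the form with numbers `M N` -/
theorem grid_smallN (hQ : QB) {d1 t0 l1 dl : ℝ} (U1 : ℝ) (hd1 : 0 < d1) (ht0 : 26 * d1 ≤ t0) (hl1 : 0 < l1) (hdl : 0 < dl) :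
    ∀ e : ℝ, 0 < e → ∃ φ0 : ℝ, 0 < φ0 ∧ ∀ z : ℂ, ‖z - 1‖ ≤ φ0 → ∀ (a : Fin 3) (t : Fin 3 → ℝ), (∀ q, t0 ≤ t q ∧ t q ≤ U1) →
      ∃ u : Fin 3 → ℝ, (∀ q, t q ≤ u q ∧ u q ≤ t q + d1) ∧ ∀ (ρ b : ℝ), 0 < ρ → 0 ≤ b → ∀ (U : Ultrafilter ℕ),
        (U : Filter ℕ) ≤ atTop → ∀ P : Measure (ℝ × ℝ × C(unitInterval, ℂ)), LF.Cv (U : Filter ℕ) (fun N => mwE N b) cN P →
          P.map (rotX z) = P → ∃ M : ℕ → ℕ, (∀ N, 0 < M N) ∧ ∃ J0 : ℝ × ℝ × C(unitInterval, ℂ) → ℝ,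
            LF.Lm (U : Filter ℕ) (fun N => mwE N b) cN P (pwc Finset.univ (fun _ => .fp)
              (fun q M S v => C0P.gz (bxu (u q) d1) (1010 * u q) M S (mp (rS (-a)) v)) (l1 / 2) (2 * (3 * l1)) (dl / 2) ρ M) J0 ∧
            ∫ x, wc l1 (3 * l1) dl ρ x * |J0 (rotX z x) - J0 x| ∂P ≤ e * ρ ^ (2 / 3 : ℝ) := by
  intro e he
  obtain ⟨φ0, h0, h1⟩ := grid_small hQ U1 hd1 ht0 hl1 hdl e he
  refine ⟨φ0, h0, fun z hz a t ht => ?_⟩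
  obtain ⟨u, h2, h3⟩ := h1 z hz a t ht
  exact ⟨u, h2, fun ρ b hρ hb U hU P hC hP => ⟨fun N => N + 1, fun N => Nat.succ_pos N,
    h3 ρ b hρ hb U hU P hC hP _ ((tendsto_add_atTop_nat 1).mono_left hU)⟩⟩

end Pool.Agent.ROT.F3


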