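import Pool.Agent.ROT.F3C0P
import Pool.Agent.ROT.F3C0G
import Pool.Agent.ROT.F3K2B

/-!
# ROT, F3 (B), row C0At (helper87, literals of helper86): the lower bound for the marked words

* `NatW.lvu`, **`nat_ch`** : the level of the native gate in the turned direction, the cut-off of the level is 1;
* `dst_WdR` : the distance of the roots on the words of the window; `nat_fp` : the native events and marks;
* `gX_WdR` : helper88's cut-off is 1 on the words of the window;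
* **`low_inst`** : the input `low` of `c0_lowM`.
-/

set_option autoImplicit false

namespace Pool.Agent.ROT.F3.C0P

open MeasureTheory Filter Topology Set unitInterval
open Pool.Agent.ROT.F3.LF
open Pool.Agent.ROT.F3.CK
open scoped NNReal ENNReal Classical ComplexConjugate

/-! ### 1. The native level -/

/-- a small change of the direction -/
lemma lv_turn {u e z : ℂ} (he : ‖e‖ = 1) : |lv (u * e) z - lv e z| ≤ ‖u - 1‖ * ‖z‖ := by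
  have e1 : lv (u * e) z - lv e z = (conj ((u - 1) * e) * z).re := by
    unfold lv
    rw [← Complex.sub_re]
    congr 1
    simp only [map_mul, map_sub, map_one]
    ring
  rw [e1]
  refine (Complex.abs_re_le_norm _).trans ?_
  rw [norm_mul, Complex.norm_conj, norm_mul, he, mul_one]

section nat

variable {a : Fin 3} {E : Tp} {O : Ot} {N' T g d1 S Kd X : ℝ} {x : W3 × ℕ} {y : W3 × (W3 × W3)} {k : ℕ}

/-- the place of the native gate -/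
lemma nat_ps (h : NatW a E O N' T g (d1 * S) Kd X x.1 x.2 y k) : ps (arcw x.2 .fp x.1) y.1.length = en y.1 := by
  show ps (x.1.take x.2) y.1.length = ps y.1 y.1.length
  rw [h.e, ps_append_left le_rfl]

/-- **the level of the native gate in the turned direction** -/
lemma nat_lvu (h : NatW a E O N' T g (d1 * S) Kd X x.1 x.2 y k) {u : ℂ} {M0 : ℝ} (hM0 : E.l * N' + E.m * N' + 32 * (d1 * S) ≤ M0) :
    E.l * N' + E.m * N' - ‖u - 1‖ * M0 ≤ lv (u * ev a) (en y.1) ∧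
      lv (u * ev a) (en y.1) ≤ E.l * N' + E.m * N' + 16 * (d1 * S) + ‖u - 1‖ * M0 ∧ ‖en y.1‖ ≤ M0 := by
  obtain ⟨h1, h2⟩ := h.lvx
  have h3 := h.nx
  have h4 : ‖en y.1‖ ≤ M0 := by linarith
  have h5 := lv_turn (u := u) (z := en y.1) (ev_norm a)
  have h6 : ‖u - 1‖ * ‖en y.1‖ ≤ ‖u - 1‖ * M0 := mul_le_mul_of_nonneg_left h4 (norm_nonneg _)
  rw [abs_le] at h5
  exact ⟨by linarith, by linarith, h4⟩

end nat

/-- **the cut-off of the native level is 1** -/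
theorem nat_ch {a : Fin 3} {E : Tp} {O : Ot} {N : ℕ} {T g d1 ρ Kd X : ℝ} {x : W3 × ℕ} {y : W3 × (W3 × W3)} {k : ℕ}
    (h : NatW a E O N T g (d1 * (ρ * N)) Kd X x.1 x.2 y k) (hN : 1 ≤ N) {u : ℂ} {M0 R X0 X1 η : ℝ}
    (hM0 : E.l + E.m + 32 * (d1 * ρ) ≤ M0) (hu1 : ‖u‖ = 1) (hu : ‖u - 1‖ * M0 ≤ d1 * ρ) (hR : M0 ≤ R) (hη : 0 < η)
    (hX0 : X0 + η + d1 * ρ ≤ E.l + E.m) (hX1 : E.l + E.m + 17 * (d1 * ρ) + η ≤ X1)
    {A : Arm → ℕ → W3 × ℕ → Prop} {g0 : Arm → ℕ → W3 × ℕ → ℕ} (hA : A .fp N x) (hg : g0 .fp N x = y.1.length) :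
    ch X0 X1 η (p0 A g0 (u * ev a) R N x) = 1 := by
  have hN0 : (0 : ℝ) < N := by exact_mod_cast hN
  have hM0' : E.l * N + E.m * N + 32 * (d1 * (ρ * N)) ≤ M0 * N := by
    have := mul_le_mul_of_nonneg_right hM0 hN0.le
    nlinarith
  obtain ⟨h1, h2, h3⟩ := nat_lvu h (u := u) hM0'
  have h4 : |lv (u * ev a) (en y.1)| ≤ M0 * N := by
    have h5 : ‖u * ev a‖ = 1 := by rw [norm_mul, hu1, ev_norm, one_mul]
    exact (abs_lv h5 _).trans h3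
  have h6 : p0 A g0 (u * ev a) R N x = lv (u * ev a) (en y.1) / N := by
    unfold p0
    rw [bi_pos hA, one_mul, hg, nat_ps h]
    refine clp_of ?_
    rw [abs_div, abs_of_pos hN0, div_le_iff₀ hN0]
    exact h4.trans (mul_le_mul_of_nonneg_right hR hN0.le)
  rw [h6]
  have h7 : ‖u - 1‖ * (M0 * N) ≤ d1 * ρ * N := by
    have := mul_le_mul_of_nonneg_right hu hN0.le
    linarith
  refine ch_one hη ?_ ?_
  · rw [le_div_iff₀ hN0]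
    have := mul_le_mul_of_nonneg_right hX0 hN0.le
    nlinarith
  · rw [div_le_iff₀ hN0]
    have := mul_le_mul_of_nonneg_right hX1 hN0.le
    nlinarith

/-! ### 2. The words of the window -/

section win

variable {K : ℕ} {d1 A l1 dl S : ℝ} {i j : Fin 3} {x : W3 × ℕ}

/-- the ball behind the arm -/
lemma far_WdR (hx : x ∈ WdR K d1 A l1 dl i j S) (hS : 1 ≤ S) (hA : 0 < A) (h1 : A < dl * l1) (h2 : 4 * A + 4 ≤ l1) (hdl : 0 < dl) :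
    K * (d1 * S) ≤ ‖ps x.1 x.2‖ := by
  obtain ⟨k1, k2, k3⟩ := hx
  obtain ⟨m1, m2⟩ := wdp_pos (by linarith) h1 (by linarith) hdl k1
  obtain ⟨s, t, r1, r2, r3, r4, r5, r6⟩ := k3.2
  have hS' : 1 ≤ S ^ (4 / 3 : ℝ) := Real.one_le_rpow hS (by norm_num)
  have hm0 : (s : ℝ) + 1 ≤ 1 / 2 * x.2 := by
    obtain ⟨a1, a2, a3, a4⟩ := k1
    have h5 : (4 * A + 4) * S ^ (4 / 3 : ℝ) ≤ l1 * S ^ (4 / 3 : ℝ) := mul_le_mul_of_nonneg_right h2 (by linarith)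
    nlinarith
  refine r6 x.2 ?_ ?_
  · have : (s : ℝ) < x.2 := by
      have : (0 : ℝ) ≤ s := Nat.cast_nonneg s
      linarith
    exact_mod_cast this
  · have : ((x.2 + t : ℕ) : ℝ) < x.1.length := by
      push_cast
      linarith
    exact_mod_cast this

/-- **the distance of the roots** -/
theorem dst_WdR {ρ : ℝ} {N : ℕ} (hN : 1 ≤ N) (hx : x ∈ WdR K d1 A l1 dl i j (ρ * N)) (hS : 1 ≤ ρ * N) (hA : 0 < A) (h1 : A < dl * l1)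
    (h2 : 4 * A + 4 ≤ l1) (hdl : 0 < dl) : K * d1 * ρ ≤ dst N x := by
  have hN0 : (0 : ℝ) < N := by exact_mod_cast hN
  have h3 := far_WdR hx hS hA h1 h2 hdl
  unfold dst
  rw [le_div_iff₀ hN0]
  linarith

/-- **helper88's cut-off is 1** -/
theorem gX_WdR {E : Tp} {O : Ot} {N : ℕ} {T g X ρ : ℝ} {y : W3 × (W3 × W3)} {k : ℕ} (hx : x ∈ WdR K d1 A l1 dl i j (ρ * N))
    (h : NatW i E O N T g (d1 * (ρ * N)) (K * (d1 * (ρ * N))) X x.1 x.2 y k) (hN : 1 ≤ N) (hρ : 0 < ρ) (hd1 : 0 < d1)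
    (hS : 6 ≤ 36 * d1 * (ρ * N)) (hl1 : 0 < l1) (hdl : 0 < dl) :
    gX l1 (3 * l1) dl (36 * d1) (K * d1) ρ (ev i) (cN N x) = 1 := by
  obtain ⟨s, s1, s2, s3, s4⟩ := h.arm
  have hx2 : x = (x.1, x.2) := rfl
  rw [hx2]
  refine gX_one (ev_norm i) hl1 (by linarith) hdl hρ (by linarith) hN hS ((inW_cN hN hρ).2 ?_) (s := s) ?_ s2 fun q hq hq' => ?_
  · obtain ⟨⟨a1, a2, a3, a4⟩, -, -⟩ := hx
    have hw : (0 : ℝ) ≤ x.1.length := Nat.cast_nonneg _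
    exact ⟨a1, a2, by nlinarith, a4⟩
  · have e1 : 36 * d1 / 2 * (ρ * N) = 18 * (d1 * (ρ * N)) := by ring
    rw [e1]
    exact s3
  · have e1 : K * d1 * (ρ * N) = K * (d1 * (ρ * N)) := by ring
    rw [e1]
    exact s4 q hq hq'

end win

/-- **the native event and mark of the first strand** (form of helper59's `ain_sg`) -/
theorem nat_fp {K : ℕ} {d1 A l1 dl ρ cd : ℝ} {i j : Fin 3} {x : W3 × ℕ} {E : Tp} {O : Ot} {N : ℕ} {T' g Kd X : ℝ}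
    {y : W3 × (W3 × W3)} {k : ℕ} (hx : x ∈ WdR K d1 A l1 dl i j (ρ * N)) (h : NatW i E O N T' g (d1 * (ρ * N)) Kd X x.1 x.2 y k)
    (hcl : Cl x.1) (hm : x.2 < x.1.length) (hE : E.Ok) {G : GP} (hG : G.Ok E) {T : LSym} (hT : T.L (ev i) = 1) (hN : 1 ≤ N)
    (h1 : 1 ≤ G.ρ1 * N) (h2 : 1 ≤ G.ρ'' * N) (hS : 1 ≤ ρ * N) (hA : 0 < A) (h3 : A < dl * l1) (h4 : 4 * A + 4 ≤ l1) (hdl : 0 < dl)
    (hcd : cd < K * d1 * ρ) :
    (cd < dst N x ∧ sgE G T 0 N .fp x) ∧ sgc G T 0 N .fp x = k ∧ sgx G T 0 N .fp x = y.1.length := by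
  have hN0 : (0 : ℝ) < N := by exact_mod_cast hN
  obtain ⟨a1, a2, a3⟩ := h.sg hcl hm hE hG hT hN0 h1 h2
  exact ⟨⟨lt_of_lt_of_le hcd (dst_WdR hN hx hS hA h3 h4 hdl), a1⟩, a2, a3⟩

/-! ### 3. The lower bound -/

/-- **the input `low`** of `c0_lowM` -/
theorem low_inst {ι : Type*} (J : Finset ι) {u' c0 : ι → ℝ} {K : ℕ} {d1 A l1 dl ρ l1' l2' dl' b c : ℝ} {i j : Fin 3} {N : ℕ}
    {M : ℕ → ℕ} {E : Tp} {O : Ot} {T' g : ℝ} {yy : W3 × ℕ → W3 × (W3 × W3)} {kk : W3 × ℕ → ℕ}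
    (hlow : c * √l1 * ρ ^ (2 / 3 : ℝ) ≤ (mwE N b).real (WdR K d1 A l1 dl i j (ρ * N)))
    (hnat : ∀ x ∈ WdR K d1 A l1 dl i j (ρ * N), Cl x.1 ∧ x.2 < x.1.length ∧
      NatW i E O N T' g (d1 * (ρ * N)) (K * (d1 * (ρ * N))) (A * (ρ * N) ^ (4 / 3 : ℝ)) x.1 x.2 (yy x) (kk x))
    {A0 : Arm → ℕ → W3 × ℕ → Prop} {g0 : Arm → ℕ → W3 × ℕ → ℕ}
    (hA0 : ∀ x ∈ WdR K d1 A l1 dl i j (ρ * N), A0 .fp N x ∧ g0 .fp N x = (yy x).1.length)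
    (T : LSym) (hT : T.L (ev i) = 1) (hM : 0 < M N) (hd1 : 0 < d1) (hρ : 0 < ρ) (hN : 1 ≤ N) (hS : 1 ≤ ρ * N)
    (hS' : 6 ≤ 36 * d1 * (ρ * N)) (hu : ∀ q ∈ J, 26 * d1 ≤ u' q) (hK : ∀ q ∈ J, 130 * u' q ≤ K * d1) (hA : 0 < A)
    (h1 : A < dl * l1) (h2 : 4 * A + 4 ≤ l1) (hdl : 0 < dl) (hdl' : dl ≤ 1 / 2) (hc0 : ∀ q ∈ J, 0 < c0 q)
    (hKc : ∀ q ∈ J, 2 * c0 q + 1 ≤ K * d1) (w1 : 0 < l1') (w2 : l1' ≤ l1) (w3 : 3 * l1 ≤ l2') (w4 : 0 < dl') (w5 : dl' ≤ dl)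
    {u : ℂ} {M0 R X0 X1 η : ℝ} (hM0 : E.l + E.m + 32 * (d1 * ρ) ≤ M0) (hu1 : ‖u‖ = 1) (hu2 : ‖u - 1‖ * M0 ≤ d1 * ρ) (hR : M0 ≤ R)
    (hη : 0 < η) (hX0 : X0 + η + d1 * ρ ≤ E.l + E.m) (hX1 : E.l + E.m + 17 * (d1 * ρ) + η ≤ X1) :
    c * √l1 * ρ ^ (2 / 3 : ℝ) ≤ ∫ x in WdR K d1 A l1 dl i j (ρ * N),
      (gX l1 (3 * l1) dl (36 * d1) (K * d1) ρ (ev i) (cN N x) *
        ch X0 X1 η (p0 A0 g0 (u * ev i) R N x)) *
      pwc J (fun _ => .fp) (fun q M S v => gz (bxu (u' q) d1) (c0 q) M S (mp T v)) l1' l2' dl' ρ M N x ∂(mwE N b) := by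
  refine low_of hlow (fun x hx => ?_) fun x hx => ?_
  · obtain ⟨a1, a2, a3⟩ := hnat x hx
    obtain ⟨b1, b2⟩ := hA0 x hx
    rw [gX_WdR hx a3 hN hρ hd1 hS' (by linarith) hdl, nat_ch a3 hN hM0 hu1 hu2 hR hη hX0 hX1 b1 b2, one_mul]
  · exact pwc_one J hx T hT hM hd1 le_rfl hρ hS hu hK hA h1 h2 hdl hdl' hc0 hKc w1 w2 w3 w4 w5

/-- **the input `low`, along a filter**; `A0`, `g0` = the native events and marks -/
theorem low_ev {ι : Type*} (J : Finset ι) {u' c0 : ι → ℝ} {K : ℕ} {d1 A l1 dl ρ l1' l2' dl' b c : ℝ} {i j : Fin 3} {U : Filter ℕ}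
    (hU : U ≤ atTop) {M : ℕ → ℕ} {E : Tp} {O : Ot} {T' : ℕ → ℝ} {g : ℝ} {yy : ℕ → W3 × ℕ → W3 × (W3 × W3)}
    {kk : ℕ → W3 × ℕ → ℕ} (hlow : ∀ᶠ N : ℕ in U, c * √l1 * ρ ^ (2 / 3 : ℝ) ≤ (mwE N b).real (WdR K d1 A l1 dl i j (ρ * N)))
    (hnat : ∀ᶠ N : ℕ in U, ∀ x ∈ WdR K d1 A l1 dl i j (ρ * N), Cl x.1 ∧ x.2 < x.1.length ∧
      NatW i E O N (T' N) g (d1 * (ρ * N)) (K * (d1 * (ρ * N))) (A * (ρ * N) ^ (4 / 3 : ℝ)) x.1 x.2 (yy N x) (kk N x))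
    (hE : E.Ok) {G : GP} (hG : G.Ok E) (hG1 : 0 < G.ρ1) (hG2 : 0 < G.ρ'') {cd : ℝ} (hcd : cd < K * d1 * ρ)
    (T : LSym) (hT : T.L (ev i) = 1) {A0 : Arm → ℕ → W3 × ℕ → Prop} {g0 : Arm → ℕ → W3 × ℕ → ℕ}
    (hA0 : ∀ᶠ N : ℕ in U, ∀ x, cd < dst N x ∧ sgE G T 0 N .fp x → A0 .fp N x ∧ g0 .fp N x = sgx G T 0 N .fp x)
    (hM : ∀ᶠ N in U, 0 < M N) (hd1 : 0 < d1) (hρ : 0 < ρ) (hu : ∀ q ∈ J, 26 * d1 ≤ u' q) (hK : ∀ q ∈ J, 130 * u' q ≤ K * d1)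
    (hA : 0 < A) (h1 : A < dl * l1) (h2 : 4 * A + 4 ≤ l1) (hdl : 0 < dl) (hdl' : dl ≤ 1 / 2) (hc0 : ∀ q ∈ J, 0 < c0 q)
    (hKc : ∀ q ∈ J, 2 * c0 q + 1 ≤ K * d1) (w1 : 0 < l1') (w2 : l1' ≤ l1) (w3 : 3 * l1 ≤ l2') (w4 : 0 < dl') (w5 : dl' ≤ dl)
    {u : ℂ} {M0 R X0 X1 η : ℝ} (hM0 : E.l + E.m + 32 * (d1 * ρ) ≤ M0) (hu1 : ‖u‖ = 1) (hu2 : ‖u - 1‖ * M0 ≤ d1 * ρ) (hR : M0 ≤ R)
    (hη : 0 < η) (hX0 : X0 + η + d1 * ρ ≤ E.l + E.m) (hX1 : E.l + E.m + 17 * (d1 * ρ) + η ≤ X1) :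
    ∀ᶠ N : ℕ in U, c * √l1 * ρ ^ (2 / 3 : ℝ) ≤ ∫ x in WdR K d1 A l1 dl i j (ρ * N),
      (gX l1 (3 * l1) dl (36 * d1) (K * d1) ρ (ev i) (cN N x) * ch X0 X1 η (p0 A0 g0 (u * ev i) R N x)) *
      pwc J (fun _ => .fp) (fun q M S v => gz (bxu (u' q) d1) (c0 q) M S (mp T v)) l1' l2' dl' ρ M N x ∂(mwE N b) := by
  have hbig : ∀ a : ℝ, 0 < a → ∀ r : ℝ, ∀ᶠ N : ℕ in U, r ≤ a * N := fun a ha r => by
    have h3 : Tendsto (fun N : ℕ => a * (N : ℝ)) U atTop := (tendsto_natCast_atTop_atTop.const_mul_atTop ha).mono_left hU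
    exact h3.eventually_ge_atTop r
  filter_upwards [hlow, hnat, hA0, hM, hU (eventually_ge_atTop 1), hbig ρ hρ 1, hbig (36 * d1 * ρ) (by positivity) 6, hbig _ hG1 1,
    hbig _ hG2 1] with N n1 n2 n3 n4 n5 n6 n7 n8 n9
  refine low_inst J n1 n2 (fun x hx => ?_) T hT n4 hd1 hρ n5 n6 (by linarith) hu hK hA h1 h2 hdl hdl' hc0 hKc w1 w2 w3 w4 w5 hM0 hu1
    hu2 hR hη hX0 hX1
  obtain ⟨a1, a2, a3⟩ := n2 x hx
  obtain ⟨b1, b2, b3⟩ := nat_fp hx a3 a1 a2 hE hG hT n5 n8 n9 n6 hA h1 h2 hdl hcd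
  obtain ⟨c1, c2⟩ := n3 x b1
  exact ⟨c1, c2.trans b3⟩

end Pool.Agent.ROT.F3.C0P
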