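import Pool.Agent.ROT.F3SAE

/-!
# ROT, F3 (B), rows C0At, S_a (helper3, literal of helper86): the marked curves of one arm are a measurable set

* **`fpC_meas`** : the conditions `FpC` at a measurable curve with measurable times;
* `far_meas` : outside of a ball around `g (pji p)` between the real times `q` and `m`;
* **`saE_meas`** : the set `{y | SaE ..}` of marked curves is measurable; `blX_meas`.
-/

set_option autoImplicit false

open MeasureTheory Filter Topology Set unitInterval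

namespace Pool.Agent.ROT.F3

open Pool.Agent.ROT.F3.CK

section

variable {Ω : Type*} [MeasurableSpace Ω] {g : Ω → C(I, ℂ)} {L : Ω → ℝ} {a b c z : Ω → I}

/-- a closed condition with a continuous statistic -/
lemma stat_meas {F : C(I, ℂ) × ℝ × I × I × I × I → ℝ} (hF : Continuous F) (hg : Measurable g) (hL : Measurable L)
    (ha : Measurable a) (hb : Measurable b) (hc : Measurable c) (hz : Measurable z) (x : ℝ) :
    MeasurableSet {y | F (g y, L y, a y, b y, c y, z y) ≤ x} :=
  measurableSet_le (hF.measurable.comp (hg.prodMk (hL.prodMk (ha.prodMk (hb.prodMk (hc.prodMk hz)))))) measurable_const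

/-- **all the conditions at one end of a strand are measurable** -/
theorem fpC_meas {d t : ℂ} {E : En} {mn : Prop} (hn : E.n.Co) (hf : E.f.Co) (hd : ‖d‖ = 1) (ht : ‖t‖ = 1)
    (hg : Measurable g) (hL : Measurable L) (ha : Measurable a) (hb : Measurable b) (hc : Measurable c) (hz : Measurable z) :
    MeasurableSet {y | FpC d t E mn (g y) (L y) (a y) (b y) (c y) (z y)} := by
  have e : {y | FpC d t E mn (g y) (L y) (a y) (b y) (c y) (z y)} =
      {y | kcF d t E (g y) (L y) (a y) (b y) (c y) ≤ 0} ∩ ({y | stS (fRa t E.f.c E.f.r0) (cutc (g y) (c y) (z y)) ≤ E.f.κ} ∩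
        ({y | reK t E.f.rg (g y) (c y) (z y) ≤ 0} ∩ {y | mn → nrF t E.s (g y) (c y) (z y) ≤ 0})) :=
    Set.ext fun y => ⟨fun h => ⟨h.k, h.ra, h.re, h.nr⟩, fun h => ⟨h.1, h.2.1, h.2.2.1, h.2.2.2⟩⟩
  have cg : Continuous fun w : C(I, ℂ) × ℝ × I × I × I × I => w.1 := continuous_fst
  have cL : Continuous fun w : C(I, ℂ) × ℝ × I × I × I × I => w.2.1 := by fun_prop
  have ca : Continuous fun w : C(I, ℂ) × ℝ × I × I × I × I => w.2.2.1 := by fun_prop
  have cb : Continuous fun w : C(I, ℂ) × ℝ × I × I × I × I => w.2.2.2.1 := by fun_prop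
  have cc : Continuous fun w : C(I, ℂ) × ℝ × I × I × I × I => w.2.2.2.2.1 := by fun_prop
  have cz : Continuous fun w : C(I, ℂ) × ℝ × I × I × I × I => w.2.2.2.2.2 := by fun_prop
  rw [e]
  refine (stat_meas (Continuous.kcF hn hf hd ht cg cL ca cb cc) hg hL ha hb hc hz 0).inter
    ((stat_meas (Continuous.stS' (fRa_lip ht hf.c0 hf.c1) (Continuous.cutc' cg cc cz)) hg hL ha hb hc hz _).inter
      ((stat_meas (Continuous.reK ht _ cg cc cz) hg hL ha hb hc hz 0).inter ?_))
  by_cases h : mn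
  · simp only [h, forall_true_left]
    exact stat_meas (Continuous.nrF _ ht cg cc cz) hg hL ha hb hc hz 0
  · simp only [h, false_imp_iff]
    exact MeasurableSet.univ

private lemma pji_cc {t : ℝ} (h : t ∈ Icc (0 : ℝ) 1) : ((pji t : I) : ℝ) = t := by
  unfold pji
  rw [projIcc_of_mem zero_le_one h]

/-- **outside of a ball between two times** -/
theorem far_meas {p q m : Ω → ℝ} (R0 : ℝ) (hg : Measurable g) (hp : Measurable p) (hq : Measurable q) (hm : Measurable m)
    (m0 : ∀ y, 0 ≤ m y) (m1 : ∀ y, m y ≤ 1) :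
    MeasurableSet {y | ∀ t : I, q y ≤ t → (t : ℝ) ≤ m y → R0 ≤ ‖g y t - g y (pji (p y))‖} := by
  set D : ℕ → I := TopologicalSpace.denseSeq I with hD
  have hDd : DenseRange D := TopologicalSpace.denseRange_denseSeq I
  have e : {y | ∀ t : I, q y ≤ t → (t : ℝ) ≤ m y → R0 ≤ ‖g y t - g y (pji (p y))‖} =
      {y | m y < q y} ∪ ⋂ n, {y | R0 ≤ ‖g y (pji (max (q y) (min (D n : ℝ) (m y)))) - g y (pji (p y))‖} := by
    ext y
    simp only [mem_ofPred_eq, mem_union, mem_iInter]
    constructor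
    · intro h
      rcases lt_or_ge (m y) (q y) with h1 | h1
      · exact Or.inl h1
      refine Or.inr fun n => ?_
      have k0 : 0 ≤ max (q y) (min (D n : ℝ) (m y)) := le_max_of_le_right (le_min (D n).2.1 (m0 y))
      have k1 : max (q y) (min (D n : ℝ) (m y)) ≤ m y := max_le h1 (min_le_right _ _)
      have k2 := pji_cc ⟨k0, k1.trans (m1 y)⟩
      exact h _ (by rw [k2]; exact le_max_left _ _) (by rw [k2]; exact k1)
    · rintro (h | h) t h1 h2
      · linarith
      have h3 : IsClosed {s : I | R0 ≤ ‖g y (pji (max (q y) (min (s : ℝ) (m y)))) - g y (pji (p y))‖} := by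
        refine isClosed_le continuous_const ?_
        have := pji_cont
        fun_prop
      have h4 : (univ : Set I) ⊆ {s : I | R0 ≤ ‖g y (pji (max (q y) (min (s : ℝ) (m y)))) - g y (pji (p y))‖} := by
        rw [← hDd.closure_range]
        exact closure_minimal (by rintro _ ⟨n, rfl⟩; exact h n) h3
      have h5 := h4 (mem_univ t)
      simp only [mem_ofPred_eq, min_eq_left h2, max_eq_right h1, pji_coe] at h5
      exact h5
  rw [e]
  refine (measurableSet_lt hm hq).union (MeasurableSet.iInter fun n => measurableSet_le measurable_const ?_)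
  have ev : Continuous fun w : C(I, ℂ) × I => w.1 w.2 := continuous_eval
  have h1 : Measurable fun y => g y (pji (max (q y) (min (D n : ℝ) (m y)))) :=
    ev.measurable.comp (hg.prodMk (pji_cont.measurable.comp (hq.max (measurable_const.min hm))))
  have h2 : Measurable fun y => g y (pji (p y)) := ev.measurable.comp (hg.prodMk (pji_cont.measurable.comp hp))
  exact (h1.sub h2).norm

end

lemma blX_meas : Measurable C0K.blX := C0K.blX_cont.measurable

/-- **the marked curves of one arm are a measurable set** -/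
theorem saE_meas {Gd : Set CC.Gm} {d u : ℂ} {E : En} {mn : Prop} {R0 : ℝ} {B0 B1 : Set CC.Gm} {x0 c1 x1 : CC.Gm → ℝ}
    (hd : ‖d‖ = 1) (hu : ‖u‖ = 1) (hn : E.n.Co) (hf : E.f.Co) (hG : MeasurableSet Gd) (h0 : MeasurableSet B0)
    (h1 : MeasurableSet B1) (hx0 : Measurable x0) (hc1 : Measurable c1) (hx1 : Measurable x1) :
    MeasurableSet {y : C0K.XM | SaE Gd d u E mn R0 B0 B1 x0 c1 x1 y} := by
  have e : {y : C0K.XM | SaE Gd d u E mn R0 B0 B1 x0 c1 x1 y} =
      ({y : C0K.XM | y.1 ∈ Gd} ∩ ({y : C0K.XM | y.1 ∈ B0} ∩ {y : C0K.XM | y.1 ∈ B1})) ∩ (({y : C0K.XM | x0 y.1 = y.2.1} ∩ ({y : C0K.XM | 0 ≤ y.2.1} ∩ {y : C0K.XM | y.2.2 ≤ muG y.1})) ∩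
        (({y : C0K.XM | y.2.1 ≤ c1 y.1} ∩ ({y : C0K.XM | c1 y.1 ≤ x1 y.1} ∩ {y : C0K.XM | x1 y.1 ≤ y.2.2})) ∩
          ({y : C0K.XM | FpC d (u * d) E mn y.1.2.2 y.1.1 (pji y.2.1) (pji (c1 y.1)) (pji (x1 y.1)) (pji (muG y.1))} ∩
            {y : C0K.XM | ∀ t : I, y.2.2 ≤ t → (t : ℝ) ≤ muG y.1 → R0 ≤ ‖y.1.2.2 t - y.1.2.2 (pji y.2.1)‖}))) := by
    ext y
    exact ⟨fun h => ⟨⟨h.gd, h.e0, h.e1⟩, ⟨h.x, h.t0, h.t1⟩, ⟨h.o1, h.o2, h.o3⟩, h.fp, h.far⟩,
      fun h => ⟨h.1.1, h.1.2.1, h.2.1.1, h.2.1.2.1, h.2.1.2.2, h.1.2.2, h.2.2.1.1, h.2.2.1.2.1, h.2.2.1.2.2, h.2.2.2.1, h.2.2.2.2⟩⟩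
  have f1 : Measurable fun y : C0K.XM => y.1 := measurable_fst
  have fg : Measurable fun y : C0K.XM => y.1.2.2 := by fun_prop
  have fL : Measurable fun y : C0K.XM => y.1.1 := by fun_prop
  have p1 : Measurable fun y : C0K.XM => y.2.1 := by fun_prop
  have p2 : Measurable fun y : C0K.XM => y.2.2 := by fun_prop
  have mm : Measurable fun y : C0K.XM => muG y.1 := muG_meas.comp f1
  have mc : Measurable fun y : C0K.XM => c1 y.1 := hc1.comp f1
  have mx : Measurable fun y : C0K.XM => x1 y.1 := hx1.comp f1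
  have hud : ‖u * d‖ = 1 := by rw [norm_mul, hu, hd, one_mul]
  rw [e]
  exact ((f1 hG).inter ((f1 h0).inter (f1 h1))).inter
    (((measurableSet_eq_fun (hx0.comp f1) p1).inter ((measurableSet_le measurable_const p1).inter (measurableSet_le p2 mm))).inter
      (((measurableSet_le p1 mc).inter ((measurableSet_le mc mx).inter (measurableSet_le mx p2))).inter
        ((fpC_meas hn hf hd hud fg fL (pji_cont.measurable.comp p1) (pji_cont.measurable.comp mc) (pji_cont.measurable.comp mx)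
          (pji_cont.measurable.comp mm)).inter
          (far_meas R0 fg p1 p2 mm (fun y => (muG_mem y.1).1) fun y => (muG_mem y.1).2))))

end Pool.Agent.ROT.F3
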