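import Pool.Agent.ROT.F3SAK
import Pool.Agent.ROT.F3SAF
import Pool.Agent.ROT.F3SAG
import Pool.Agent.ROT.F3SAL
import Pool.Agent.ROT.F3SAM
import Pool.Agent.ROT.F3SAD

/-!
# ROT, F3 (B), rows C0At, S_a (helper86): the blocks of one end

* `SaO` : the output: a Borel set `S` of blocks of curves of `SaSet`, with a lower bound for its share, words and limit;
* **`sa_ex`** : `SaO` for generic data, all directions, absolute constants.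
-/

set_option autoImplicit false

open MeasureTheory Filter Topology Set unitInterval
open scoped ENNReal NNReal Classical BoundedContinuousFunction

namespace Pool.Agent.ROT.F3

open Pool.Agent.ROT.F3.CK Pool.Agent.ROT.F3.LF Pool.Agent.ROT.F3.CC
open Pool.Agent.ROT.F3.C0K (XM)
open Pool.Agent.ROT.F3.C0P (ch p0 P0 bxu)
open Pool.Agent.ROT.F (QB)

/-- **the output of one end** -/
structure SaO (U : Filter ℕ) (c1 Ab ρ : ℝ) (i : Fin 3) (O : Ot) (Ef : Set XM) (S : Set Pie) (μ : Measure Pie) (e0 : ℝ) :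
    Prop where
  ms : MeasurableSet S
  sub : S ⊆ C0K.blX '' Ef
  fin : IsFiniteMeasure μ
  pos : 0 < e0
  sh : ∀ ψ : Pie →ᵇ ℝ, (∀ x, 0 ≤ ψ x) → (∀ x, ψ x ≤ 1) → ∫ x, |ψ x - S.indicator (fun _ => (1 : ℝ)) x| ∂μ ≤ e0 →
    ∀ᶠ N : ℕ in U, ENNReal.ofReal c1 ≤ Sb {b | b ∈ OtB (ev i) O N (uT N) ∧ (b.length : ℝ) ≤ Ab * (ρ * N) ^ (4 / 3 : ℝ)}
      (fun b => ENNReal.ofReal (ψ (cr N (uT N) b)))
  kap : ∀ κ : Measure Pie, IsFiniteMeasure κ →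
    (∀ h : Pie →ᵇ ℝ, Tendsto (fun N : ℕ => ∫ x, h x ∂(rm 1 N (uT N) (OtB (ev i) O N (uT N)) fun _ => 1)) U
      (𝓝 (∫ x, h x ∂κ))) → ENNReal.ofReal c1 ≤ κ S

/-! ### 1. The cut-off -/

section cut

variable {i : Fin 3} {u : ℂ} {l1 dl D F ρ X0 X1 η R : ℝ} {B : Set CC.Gm} {Pg : CC.Gm → ℝ}

/-- window, thin arm and level of the native gate -/
noncomputable def saG (l1 dl D F ρ X0 X1 η R : ℝ) (u : ℂ) (i : Fin 3) (B : Set CC.Gm) (Pg : CC.Gm → ℝ) (g : CC.Gm) : ℝ :=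
  gX l1 (3 * l1) dl D F ρ (ev i) g * ch X0 X1 η (P0 (oneA B ∅) (oneA Pg fun _ => 0) (u * ev i) R g)

lemma saG_nn (g : CC.Gm) : 0 ≤ saG l1 dl D F ρ X0 X1 η R u i B Pg g := mul_nonneg (gX_nn _) C0P.ch_nn

lemma saG_le (g : CC.Gm) : saG l1 dl D F ρ X0 X1 η R u i B Pg g ≤ wc l1 (3 * l1) dl ρ g :=
  (mul_le_of_le_one_right (gX_nn _) C0P.ch_le).trans (gX_le _)

lemma saG_le1 (g : CC.Gm) : saG l1 dl D F ρ X0 X1 η R u i B Pg g ≤ 1 := (saG_le g).trans (wc_le _)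

lemma saG_pos (hη : 0 < η) {g : CC.Gm} (hg : g ∈ B) (h : 0 < saG l1 dl D F ρ X0 X1 η R u i B Pg g) (hu : ‖u‖ = 1)
    (hn : ‖g.2.2 (pji (Pg g * muG g))‖ ≤ R) : X0 < lv (u * ev i) (g.2.2 (pji (Pg g * muG g))) ∧
      lv (u * ev i) (g.2.2 (pji (Pg g * muG g))) < X1 := by
  have h1 : 0 < ch X0 X1 η (P0 (oneA B ∅) (oneA Pg fun _ => 0) (u * ev i) R g) := by
    refine C0P.ch_nn.lt_of_ne fun e => ?_
    unfold saG at h
    rw [← e, mul_zero] at h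
    exact lt_irrefl _ h
  have h2 := C0P.ch_pos hη h1
  have h3 : P0 (oneA B ∅) (oneA Pg fun _ => 0) (u * ev i) R g = lv (u * ev i) (g.2.2 (pji (Pg g * muG g))) := by
    show C0P.clp R (bi (g ∈ B) * lv (u * ev i) (g.2.2 (pji (Pg g * muG g)))) = _
    rw [bi_pos hg, one_mul]
    refine C0P.clp_of (le_trans ?_ hn)
    exact abs_lv (by rw [norm_mul, hu, ev_norm, one_mul]) _
  rw [h3] at h2
  exact h2

lemma saG_gX {g : CC.Gm} (h : 0 < saG l1 dl D F ρ X0 X1 η R u i B Pg g) : 0 < gX l1 (3 * l1) dl D F ρ (ev i) g := by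
  refine (gX_nn _).lt_of_ne fun e => ?_
  unfold saG at h
  rw [← e, zero_mul] at h
  exact lt_irrefl _ h

end cut

/-! ### 2. One direction -/

/-- the numbers of the cuts -/
lemma sa_sadN {E : En} {ρ τ : ℝ} {t : Fin 3 → ℝ} (hρ : 0 < ρ) (h : E.Nr (bE ρ τ))
    (ht : ∀ q, saT E ρ (1 / 1000000) q ≤ t q ∧ t q ≤ saT E ρ (1 / 1000000) q + 1 / 1000000) :
    SadN E.f (36 * (1 / 1000000)) (((10 ^ 16 : ℕ) : ℝ) * (1 / 1000000)) (1 / 1000000) ρ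
      (E.n.l + E.n.m - 2 * (1 / 1000000 * ρ)) t := by
  have l1 : 1/2 * ρ ≤ E.n.l := h.n.l.1
  have l2 : E.n.l ≤ 101 / 100 * (1/2 * ρ) := h.n.l.2
  have m1 : 81/10 * ρ ≤ E.n.m := h.n.m.1
  have m2 : E.n.m ≤ 101 / 100 * (81/10 * ρ) := h.n.m.2
  have fl1 : 60 * ρ ≤ E.f.l := h.f.l.1
  have fl2 : E.f.l ≤ 101 / 100 * (60 * ρ) := h.f.l.2
  have fm1 : 11400 * ρ ≤ E.f.m := h.f.m.1
  have fm2 : E.f.m ≤ 101 / 100 * (11400 * ρ) := h.f.m.2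
  have th1 : 3/4 ≤ E.f.th := h.f.th.1
  have th2 : E.f.th ≤ 101 / 100 * (3/4) := h.f.th.2
  have q1 : E.f.th * E.f.m ≤ 101 / 100 * (3/4) * E.f.m := mul_le_mul_of_nonneg_right th2 (by linarith)
  have key : ∀ q : Fin 3, ∀ z : ℝ, saT E ρ (1 / 1000000) q = z / ρ → z ≤ t q * ρ ∧ t q * ρ ≤ z + 1 / 1000000 * ρ := by
    intro q z hz
    obtain ⟨a1, a2⟩ := ht q
    rw [hz] at a1 a2
    rw [div_le_iff₀ hρ] at a1
    have e1 : z / ρ * ρ = z := div_mul_cancel₀ _ hρ.ne'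
    have a3 := mul_le_mul_of_nonneg_right a2 hρ.le
    rw [add_mul, e1] at a3
    exact ⟨a1, a3⟩
  have k0 := key 0 _ rfl
  have k1 := key 1 _ rfl
  have k2 := key 2 _ rfl
  have e0 : (![E.n.l + E.n.m - 2 * (1 / 1000000) * ρ + E.f.l + 24 * (1 / 1000000) * ρ,
    E.n.l + E.n.m - 2 * (1 / 1000000) * ρ + E.f.l + E.f.th * E.f.m + 104 * (1 / 1000000) * ρ,
    E.n.l + E.n.m - 2 * (1 / 1000000) * ρ + E.f.l + E.f.m + 104 * (1 / 1000000) * ρ] : Fin 3 → ℝ) 0 =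
    E.n.l + E.n.m - 2 * (1 / 1000000) * ρ + E.f.l + 24 * (1 / 1000000) * ρ := rfl
  have e1 : (![E.n.l + E.n.m - 2 * (1 / 1000000) * ρ + E.f.l + 24 * (1 / 1000000) * ρ,
    E.n.l + E.n.m - 2 * (1 / 1000000) * ρ + E.f.l + E.f.th * E.f.m + 104 * (1 / 1000000) * ρ,
    E.n.l + E.n.m - 2 * (1 / 1000000) * ρ + E.f.l + E.f.m + 104 * (1 / 1000000) * ρ] : Fin 3 → ℝ) 1 =
    E.n.l + E.n.m - 2 * (1 / 1000000) * ρ + E.f.l + E.f.th * E.f.m + 104 * (1 / 1000000) * ρ := rfl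
  have e2 : (![E.n.l + E.n.m - 2 * (1 / 1000000) * ρ + E.f.l + 24 * (1 / 1000000) * ρ,
    E.n.l + E.n.m - 2 * (1 / 1000000) * ρ + E.f.l + E.f.th * E.f.m + 104 * (1 / 1000000) * ρ,
    E.n.l + E.n.m - 2 * (1 / 1000000) * ρ + E.f.l + E.f.m + 104 * (1 / 1000000) * ρ] : Fin 3 → ℝ) 2 =
    E.n.l + E.n.m - 2 * (1 / 1000000) * ρ + E.f.l + E.f.m + 104 * (1 / 1000000) * ρ := rfl
  rw [e0] at k0
  rw [e1] at k1
  rw [e2] at k2
  have hR := sa_roomU hρ h (F := (((10 ^ 16 : ℕ) : ℝ) * (1 / 1000000) - 4 * (36 * (1 / 1000000))) * ρ) (by push_cast; nlinarith)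
  refine ⟨by norm_num, by norm_num, hρ, ?_, by linarith, by linarith, by linarith, ?_, ?_, ?_, ?_⟩
  · have e3 : 3 * (36 * (1 / 1000000)) * ρ = 108 * (1 / 1000000) * ρ := by ring
    have e4 : E.n.l + E.n.m - 2 * (1 / 1000000 * ρ) = E.n.l + E.n.m - 2 * (1 / 1000000) * ρ := by ring
    rw [e3, e4]
    exact hR
  · push_cast
    nlinarith
  · constructor <;> linarith [k0.1, k0.2]
  · constructor <;> linarith [k1.1, k1.2]
  · constructor <;> linarith [k2.1, k2.2]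

/-- **the foreign gates of the curves with `gX > 0` and `J0' > 0`** -/
theorem sa_hdet {U : Ultrafilter ℕ} (hU : (U : Filter ℕ) ≤ atTop) {i : Fin 3} {u : ℂ} {E : En} {Gd : Set CC.Gm} {B0 B1 : Set CC.Gm}
    {Pc0 Pg0 Pc1 Pg1 : CC.Gm → ℝ} {ρ τ l1 dl b cd ε : ℝ} {G0 G1 : GP} {y' : ℕ → W3 × ℕ → ℝ} {Λ : CC.Gm → ℝ} {PG : Measure CC.Gm}
    {J0 : CC.Gm → ℝ} {t : Fin 3 → ℝ} {M : ℕ → ℕ} {l1' l2' dl' : ℝ} (hρ : 0 < ρ) (hE : E.Ok ε) (h : E.Nr (bE ρ τ)) (hu1 : ‖u‖ = 1)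
    (hu : ‖u - 1‖ ≤ 1 / 10 ^ 17) (hl1 : 0 < l1) (hdl : 0 < dl) (hC : Cv (U : Filter ℕ) (fun N => mwE N b) cN PG)
    (inv : PG.map (rotX u) = PG) (hP : ∀ᵐ g ∂PG, 0 < g.1) (hcd : cd < 1000000000 * ρ)
    (hI : OneIn (U : Filter ℕ) b PG i u E cd Gd G0 G1 y' Λ B0 B1 Pc0 Pg0 Pc1 Pg1)
    (ht : ∀ q, saT E ρ (1 / 1000000) q ≤ t q ∧ t q ≤ saT E ρ (1 / 1000000) q + 1 / 1000000)
    (hJ : Lm (U : Filter ℕ) (fun N => mwE N b) cN PG (pwc Finset.univ (fun _ => .fp)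
      (fun q M S v => C0P.gz (bxu (t q) (1 / 1000000)) (1010 * t q) M S (mp (rS (-i)) v)) l1' l2' dl' ρ M) J0) :
    ∀ᵐ g ∂PG, 0 < gX l1 (3 * l1) dl (36 * (1 / 1000000)) (((10 ^ 16 : ℕ) : ℝ) * (1 / 1000000)) ρ (ev i) g →
      0 < J0 (rotX u⁻¹ g) → E.n.l + E.n.m - 2 * (1 / 1000000 * ρ) < Λ (rotX u⁻¹ g) →
      Λ (rotX u⁻¹ g) < E.n.l + E.n.m + 22 * (1 / 1000000 * ρ) → rotX u⁻¹ g ∈ B1 ∧
      lv (ev i) ((rotX u⁻¹ g).2.2 (pji (saT1 u Pc1 g))) ≤ E.n.l + E.n.m + E.f.l + 102 * (1 / 1000000 * ρ) ∧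
      lv (ev i) ((rotX u⁻¹ g).2.2 (pji (saT1 u Pg1 g))) ≤ E.n.l + E.n.m + E.f.l + E.f.m + 182 * (1 / 1000000 * ρ) := by
  have hG1 : 0 < G1.ρ1 := hE.f.r2.trans_le hI.ok1.ρ1
  have hG2 : 0 < G1.ρ'' := by
    have := hI.ok1.r1''
    have := hI.ok1.u3
    have := hE.f.r2
    linarith
  have hz : ‖u - 1‖ * (((10 ^ 16 : ℕ) : ℝ) * (1 / 1000000) + 2 * (36 * (1 / 1000000))) ≤ 36 * (1 / 1000000) / 4 := by
    have h1 : ‖u - 1‖ * (((10 ^ 16 : ℕ) : ℝ) * (1 / 1000000) + 2 * (36 * (1 / 1000000))) ≤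
        1 / 10 ^ 17 * (((10 ^ 16 : ℕ) : ℝ) * (1 / 1000000) + 2 * (36 * (1 / 1000000))) :=
      mul_le_mul_of_nonneg_right hu (by positivity)
    refine h1.trans ?_
    norm_num
  have hw := det_words (l1 := l1) (l2 := 3 * l1) (dl := dl) (c0 := fun q => 1010 * t q) (ev_norm i) hu1 (trn_ev i) hE.f hI.ok1 hG1 hG2
    hl1 (by linarith) hdl hz (sa_sadN hρ h ht) (r := cd) (by push_cast; nlinarith) M
  have hJp : ∀ N x, 0 < pwc Finset.univ (fun _ => Arm.fp)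
      (fun q M S v => C0P.gz (bxu (t q) (1 / 1000000)) (1010 * t q) M S (mp (rS (-i)) v)) l1' l2' dl' ρ M N x →
      ∀ q, 0 < C0P.gz (bxu (t q) (1 / 1000000)) (1010 * t q) (M N) (ρ * N) (mp (rS (-i)) (arcw x.2 .fp x.1)) := by
    intro N x hx q
    refine C0P.gz_nn.lt_of_ne fun e => ?_
    unfold pwc at hx
    rw [Finset.prod_eq_zero (Finset.mem_univ q) e.symm, mul_zero] at hx
    exact lt_irrefl _ hx
  have key := det_lim hU hC hP hu1 inv hI.a1.ev hI.a1.tc hI.a1.tg hI.hy hJ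
    (fun N x => mul_nonneg (wc_nn _) (Finset.prod_nonneg fun q _ => C0P.gz_nn))
    (gX_cont (ev_norm i) hl1 hρ (l2 := 3 * l1) (dl := dl) (D := 36 * (1 / 1000000)) (F := ((10 ^ 16 : ℕ) : ℝ) * (1 / 1000000)))
    gX_nn gX_le1 (psF_cont (ev_norm i)) (x0 := E.n.l + E.n.m - 2 * (1 / 1000000 * ρ)) (x1 := E.n.l + E.n.m + 22 * (1 / 1000000 * ρ)) (by
      filter_upwards [hU hw] with N hN x hx a1 a2 a3 a4
      obtain ⟨b1, b2, b3, b4⟩ := hN x hx a1 (hJp N x a2) (y' N x) a3.le (by linarith)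
      exact ⟨b1, b2, b3, b4⟩)
  filter_upwards [key, ae_back hu1 inv hI.un1] with g h1 h2 a1 a2 a3 a4
  obtain ⟨c1, c2⟩ := h1 a1 a2 a3 a4
  obtain ⟨u1, u2, u3⟩ := h2 c1
  have hm0 := (muG_mem g).1
  have hm1 := (muG_mem g).2
  have hle : pji (Pg1 (rotX u⁻¹ g) * muG (rotX u⁻¹ g)) ≤ pji (muG (rotX u⁻¹ g)) :=
    monotone_projIcc _ (mul_le_of_le_one_left hm0 u3)
  obtain ⟨d1, d2, -, -, -⟩ := (psF_le (ev_norm i) hle).1 c2
  refine ⟨c1, ?_, ?_⟩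
  · have e1 : lv (ev i) ((rotX u⁻¹ g).2.2 (pji (saT1 u Pc1 g))) ≤
      E.n.l + E.n.m - 2 * (1 / 1000000 * ρ) + E.f.l + 104 * (1 / 1000000 * ρ) := d1
    linarith
  · have e1 : lv (ev i) ((rotX u⁻¹ g).2.2 (pji (saT1 u Pg1 g))) ≤
      E.n.l + E.n.m - 2 * (1 / 1000000 * ρ) + E.f.l + E.f.m + 184 * (1 / 1000000 * ρ) := d2
    linarith

/-- **the blocks of one end**, direction index `i` -/
theorem sa_one (hQ : QB) (i : Fin 3) : ∃ c1 Ab Bl φ A' : ℝ, 0 < c1 ∧ 0 < Ab ∧ 0 < Bl ∧ 0 < φ ∧ 0 < A' ∧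
    ∀ u : ℂ, ‖u‖ = 1 → ‖u - 1‖ ≤ φ → ∀ (ρ τ b cd : ℝ) (E : En) (O : Ot) (U : Ultrafilter ℕ) (PG : Measure CC.Gm)
      (Gd : Set CC.Gm) (G0 G1 : GP) (y : ℕ → W3 × ℕ → ℝ) (Λ : CC.Gm → ℝ) (B0 B1 : Set CC.Gm) (Pc0 Pg0 Pc1 Pg1 : CC.Gm → ℝ)
      (mn : Prop), 0 < ρ → 0 < τ → A' * ρ ^ (4 / 3 : ℝ) ≤ τ → Bl * ρ ^ (4 / 3 : ℝ) ≤ b → E.Nr (bE ρ τ) → O.Nr (bO ρ τ) →
      (U : Filter ℕ) ≤ atTop → Cv (U : Filter ℕ) (fun N => mwE N b) cN PG → (∀ v : ℂ, ‖v‖ = 1 → PG.map (rotX v) = PG) →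
      (∀ᵐ g ∂PG, 0 < g.1) → cd < 1000000000 * ρ → OneIn (U : Filter ℕ) b PG i u E cd Gd G0 G1 y Λ B0 B1 Pc0 Pg0 Pc1 Pg1 →
      ∃ (S : Set Pie) (μ : Measure Pie) (e0 : ℝ),
        SaO U c1 Ab ρ i O (SaSet Gd i u E mn (19500000 * ρ) B0 B1 Pg0 Pc1 Pg1) S μ e0 := by
  have hij : i ≠ i + 1 := by
    fin_cases i <;> decide
  obtain ⟨A, l0, c, hA, hl0, hc, hlow⟩ := low_mw (10 ^ 16) hij (d1 := 1 / 1000000) (dl := 1 / 4) (by norm_num) (by norm_num)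
    (by norm_num)
  obtain ⟨C, c1, l0', Ab, hC, hc1, hl0', hAb, hfin⟩ := sa_fin2 hQ (c := c) (C' := A) (ra := 22) (rb := 44) (la := 1 / 2)
    (sb := 23000000) hc (by norm_num) (by norm_num) (by norm_num)
  obtain ⟨l1, hl1⟩ : ∃ l1 : ℝ, l1 = max (max l0 l0') (4 * A + 4) := ⟨_, rfl⟩
  have l1a : l0 ≤ l1 := by rw [hl1]; exact (le_max_left _ _).trans (le_max_left _ _)
  have l1b : l0' ≤ l1 := by rw [hl1]; exact (le_max_right _ _).trans (le_max_left _ _)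
  have l1c : 4 * A + 4 ≤ l1 := by rw [hl1]; exact le_max_right _ _
  have l1p : 0 < l1 := hl0.trans_le l1a
  obtain ⟨⟨hAl, hAl2⟩, hmass⟩ := hlow l1 l1a
  have hs1 : 0 < √l1 := Real.sqrt_pos.2 l1p
  obtain ⟨φ0, hφ0, hgrid⟩ := grid_smallN hQ (d1 := 1 / 1000000) (t0 := 1) (l1 := l1) (dl := 1 / 4) 12000 (by norm_num) (by norm_num)
    l1p (by norm_num) (c / 4 * √l1) (by positivity)
  refine ⟨c1, Ab, 3 * l1, min φ0 (1 / 10 ^ 17), 100 / 99 * A, hc1, hAb, by positivity, lt_min hφ0 (by norm_num), by positivity, ?_⟩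
  intro u hu1 hu ρ τ b cd E O U PG Gd G0 G1 y Λ B0 B1 Pc0 Pg0 Pc1 Pg1 mn hρ hτ hAτ hb hE hO hU hCv inv hPG hcd hI
  have huφ : ‖u - 1‖ ≤ φ0 := hu.trans (min_le_left _ _)
  have hu17 : ‖u - 1‖ ≤ 1 / 10 ^ 17 := hu.trans (min_le_right _ _)
  have hu0 : u ≠ 0 := fun h => by rw [h, norm_zero] at hu1; exact zero_ne_one hu1
  have hui : ‖u⁻¹‖ = 1 := by rw [norm_inv, hu1, inv_one]
  have hui1 : ‖u⁻¹ - 1‖ ≤ φ0 := by
    have : u⁻¹ - 1 = u⁻¹ * (1 - u) := by field_simp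
    rw [this, norm_mul, hui, one_mul, norm_sub_rev]
    exact huφ
  have hρ4 : 0 < ρ ^ (4 / 3 : ℝ) := Real.rpow_pos_of_pos hρ _
  have hb0 : 0 ≤ b := le_trans (by positivity) hb
  have hAτ' : A * ρ ^ (4 / 3 : ℝ) ≤ 99 / 100 * τ := by linarith
  have hEok : E.Ok 0 := hE.ok hρ hτ le_rfl (by norm_num)
  have hEn : E.n.Ok := hEok.n
  have hEf : E.f.Ok := hEok.f
  have nl1 : 1 / 2 * ρ ≤ E.n.l := hE.n.l.1
  have nl2 : E.n.l ≤ 101 / 100 * (1/2 * ρ) := hE.n.l.2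
  have nm1 : 81/10 * ρ ≤ E.n.m := hE.n.m.1
  have nm2 : E.n.m ≤ 101 / 100 * (81/10 * ρ) := hE.n.m.2
  have nr2 : E.n.r ≤ 101 / 100 * (1 * ρ) := hE.n.r.2
  have nr22 : E.n.r2 ≤ 101 / 100 * (41/2 * ρ) := hE.n.r2.2
  have or2 : O.r ≤ 101 / 100 * (22000000 * ρ) := hO.r.2
  have hlk : τ ≤ E.lk := by
    have h1 : 1 * τ ≤ E.lk := hE.lk.1
    linarith
  -- the marked words
  obtain ⟨AN, hAN⟩ : ∃ AN : ℕ → Set (W3 × ℕ), AN = fun N : ℕ => WdR (10 ^ 16) (1 / 1000000) A l1 (1 / 4) i (i + 1) (ρ * N) := ⟨_, rfl⟩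
  have hyy : ∀ N : ℕ, ∃ (yy : W3 × ℕ → W3 × (W3 × W3)) (kk : W3 × ℕ → ℕ), 1 ≤ N → ∀ x ∈ AN N, Cl x.1 ∧ x.2 < x.1.length ∧
      NatW i E.n O N (uT N) (44 * ρ) (1 / 1000000 * (ρ * N)) (((10 ^ 16 : ℕ) : ℝ) * (1 / 1000000 * (ρ * N)))
        (A * (ρ * N) ^ (4 / 3 : ℝ)) x.1 x.2 (yy x) (kk x) := by
    intro N
    by_cases hN : 1 ≤ N
    · have hN0 : (0 : ℝ) < N := by exact_mod_cast hN
      obtain ⟨r1, r2⟩ := sa_rg hρ hE hN
      obtain ⟨yy, kk, h1⟩ := nat_yy hEn (O := O) (N := N) (T := uT N) (g := 44 * ρ) (K := 10 ^ 16) (d1 := 1 / 1000000) (A := A)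
        (l1 := l1) (dl := 1 / 4) (S := ρ * N) (by positivity) hAl hAl2 (by norm_num) hA
        (sa_armI hρ hE hO hτ hAτ' hN) (by positivity) (by norm_num) r1 r2 i (i + 1)
      exact ⟨yy, kk, fun _ => by rw [hAN]; exact h1⟩
    · exact ⟨fun _ => ([], ([], [])), fun _ => 0, fun h => absurd h hN⟩
  choose yy kk hyy using hyy
  have hnat : ∀ᶠ N : ℕ in (U : Filter ℕ), ∀ x ∈ AN N, Cl x.1 ∧ x.2 < x.1.length ∧
      NatW i E.n O N (uT N) (44 * ρ) (1 / 1000000 * (ρ * N)) (((10 ^ 16 : ℕ) : ℝ) * (1 / 1000000 * (ρ * N)))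
        (A * (ρ * N) ^ (4 / 3 : ℝ)) x.1 x.2 (yy N x) (kk N x) := by
    filter_upwards [hU (eventually_ge_atTop 1)] with N hN
    exact hyy N hN
  have hgood : ∀ᶠ N : ℕ in (U : Filter ℕ), C0K.Good (yy N) (AN N) := by
    filter_upwards [hnat] with N hN x hx
    obtain ⟨a1, a2, a3⟩ := hN x hx
    exact ⟨a1, a2.le, a3.e, a3.e1, a3.e2⟩
  obtain ⟨M, hMf, hMle, lim1, lim2, hcl⟩ := C0K.mk_lim hQ hb0 hU hCv AN yy hgood
  -- the native conditions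
  have hNL : ∀ᵐ y ∂M, NatL (ev i) E.n O (1 / 1000000 * ρ) (A * ρ ^ (4 / 3 : ℝ)) y := by
    refine nat_lim (L0 := l1 * ρ ^ (4 / 3 : ℝ)) (K := ((10 ^ 16 : ℕ) : ℝ)) (T := uT) (g := 44 * ρ) (kk := kk) hU hρ (by positivity) ?_ hcl
    filter_upwards [hnat] with N hN x hx
    obtain ⟨a1, a2, a3⟩ := hN x hx
    refine ⟨a2, ?_, a3⟩
    rw [hAN] at hx
    have := hx.1.1
    rw [Real.mul_rpow hρ.le (Nat.cast_nonneg N)] at this
    linarith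
  have hmkd : ∀ᶠ N : ℕ in (U : Filter ℕ), MkD (ev i) (44 * (ρ * N)) A (ρ * N) (Pre (ev i) E.n N (uT N)) (OtB (ev i) O N (uT N))
      (WdP l1 (3 * l1) (1 / 4) (ρ * N)) (AN N) fun x => (yy N x).2.1 := by
    filter_upwards [hnat] with N hN
    rw [hAN] at hN ⊢
    have e1 : 44 * (ρ * (N : ℝ)) = 44 * ρ * N := by ring
    rw [e1]
    exact mkD_of hN
  -- the gates of the rotated lattice
  obtain ⟨t, ht, hgr⟩ := hgrid u⁻¹ hui1 i (saT E ρ (1 / 1000000)) (sa_pos hρ hE)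
  obtain ⟨MM, hMM, J0, hJ0, hrot⟩ := hgr ρ b hρ hb0 U hU PG hCv (inv _ hui)
  have ht1 : ∀ q, 1 ≤ t q ∧ t q ≤ 12001 := fun q => by
    have h1 := sa_pos hρ hE q
    have h2 := ht q
    constructor <;> linarith
  -- the native gates
  have H0 := ain_one hCv hI.a0
  have hmkn : ∀ᵐ y ∂M, y.1 ∈ B0 ∧ Pg0 y.1 * muG y.1 = y.2.1 := by
    refine mk_native hCv hPG hMf hMle lim1 H0 ?_
    have hbig : ∀ a : ℝ, 0 < a → ∀ r : ℝ, ∀ᶠ N : ℕ in (U : Filter ℕ), r ≤ a * N := fun a ha r => by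
      have h3 : Tendsto (fun N : ℕ => a * (N : ℝ)) U atTop := (tendsto_natCast_atTop_atTop.const_mul_atTop ha).mono_left hU
      exact h3.eventually_ge_atTop r
    have q1 : 0 < G0.ρ1 := hEn.r2.trans_le hI.ok0.ρ1
    have q2 : 0 < G0.ρ'' := by
      have := hI.ok0.r1''
      have := hI.ok0.u3
      have := hEn.r2
      linarith
    filter_upwards [hnat, hU (eventually_ge_atTop 1), hbig _ q1 1, hbig _ q2 1, hbig ρ hρ 1] with N n1 n2 n3 n4 n5 x hx _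
    obtain ⟨a1, a2, a3⟩ := n1 x hx
    rw [hAN] at hx
    obtain ⟨b1, b2, b3⟩ := C0P.nat_fp (cd := cd) (T := rS (-i)) hx a3 a1 a2 hEn hI.ok0 (trn_ev i) n2 n3 n4 n5 hA hAl l1c
      (by norm_num) (by push_cast; nlinarith)
    exact ⟨b1, b3⟩
  obtain ⟨G, hG⟩ : ∃ G : CC.Gm → ℝ, G = saG l1 (1 / 4) (36 * (1 / 1000000)) (((10 ^ 16 : ℕ) : ℝ) * (1 / 1000000)) ρ
    (E.n.l + E.n.m - 2 * (1 / 1000000 * ρ)) (E.n.l + E.n.m + 22 * (1 / 1000000 * ρ)) (1 / 1000000 * ρ) (30 * ρ) u i B0 Pg0 := ⟨_, rfl⟩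
  have hgX : Continuous (gX l1 (3 * l1) (1 / 4) (36 * (1 / 1000000)) (((10 ^ 16 : ℕ) : ℝ) * (1 / 1000000)) ρ (ev i)) :=
    gX_cont (ev_norm i) l1p hρ
  have hgL : Lm (U : Filter ℕ) (fun N => mwE N b) cN PG (fun N x =>
      gX l1 (3 * l1) (1 / 4) (36 * (1 / 1000000)) (((10 ^ 16 : ℕ) : ℝ) * (1 / 1000000)) ρ (ev i) (cN N x) *
        ch (E.n.l + E.n.m - 2 * (1 / 1000000 * ρ)) (E.n.l + E.n.m + 22 * (1 / 1000000 * ρ)) (1 / 1000000 * ρ)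
          (p0 (oneA (fun N x => cd < dst N x ∧ sgE G0 (rS (-i)) 0 N .fp x) fun _ _ => False)
            (fun _ N x => sgx G0 (rS (-i)) 0 N .fp x) (u * ev i) (30 * ρ) N x)) G := by
    rw [hG]
    refine Lm.mul hCv (Lm.cont hCv (BoundedContinuousFunction.ofNormedAddCommGroup _ hgX 1 fun x => ?_))
      (Lm.comp1 hCv (C0P.lev0_lm hCv hPG H0 (by rw [norm_mul, hu1, ev_norm, one_mul]) (by positivity)) C0P.ch_cont)
    rw [Real.norm_eq_abs, abs_of_nonneg (gX_nn x)]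
    exact gX_le1 x
  -- the sets
  have hmu : Measurable muG := (lm_mu hCv hPG).ms'
  have hrot' : Measurable (rotX u⁻¹) := (rotX_cont _).measurable
  have hEf : MeasurableSet (SaSet Gd i u E mn (19500000 * ρ) B0 B1 Pg0 Pc1 Pg1) := by
    have m1 : MeasurableSet {y : XM | 0 < y.1.1} := measurableSet_lt measurable_const (measurable_fst.comp measurable_fst)
    have m2 : MeasurableSet {y : XM | SaE Gd (ev i) u E mn (19500000 * ρ) B0 (saB u B1) (fun g => Pg0 g * muG g) (saT1 u Pc1)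
        (saT1 u Pg1) y} :=
      saE_meas (ev_norm i) hu1 hEok.n.co hEok.f.co hI.mGd hI.a0.ev.ms'
        (hrot' hI.a1.ev.ms') (hI.a0.tg.ms'.mul hmu) ((hI.a1.tc.ms'.comp hrot').mul hmu) ((hI.a1.tg.ms'.comp hrot').mul hmu)
    exact m1.inter (tipY_meas.inter m2)
  have hdet : ∀ᵐ y ∂M, 0 < G y.1 → 0 < J0 (rotX u⁻¹ y.1) → y ∈ SaSet Gd i u E mn (19500000 * ρ) B0 B1 Pg0 Pc1 Pg1 := by
    refine sa_det (dl := 1 / 4) hρ hEok hE hO hu1 (hu17.trans (by norm_num)) l1p (by norm_num) (C := A * ρ ^ (4 / 3 : ℝ)) (by linarith) hI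
      (inv u hu1) hMle hNL hmkn (sa_hdet (dl := 1 / 4) hU hρ hEok hE hu1 hu17 l1p (by norm_num) hCv (inv u hu1) hPG hcd hI ht hJ0) ?_
    intro g hg h0
    rw [hG] at h0
    refine ⟨saG_gX h0, fun hn => ?_⟩
    exact saG_pos (by positivity) hg h0 hu1 (hn.trans (by linarith))
  have hJ01 : ∀ᵐ x ∂PG, J0 x ≤ 1 := by
    refine Lm.le hCv hJ0 (Lm.const hCv 1) (Eventually.of_forall fun N x => ?_)
    refine (le_abs_self _).trans (pwc_le _ _ (fun q _ M S hS w => ?_) (by positivity) hρ _ N x)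
    exact C0P.gz_abs (C0P.bxu_ok (by norm_num) (by linarith [(ht1 q).1])) (by linarith [(ht1 q).1]) hS.le
  obtain ⟨S, mS, sS, -, -, -, -, ⟨e0, he0, hsh⟩, hkap⟩ := hfin l1 l1b ρ b (1 / 4) E.n O U i PG AN yy hρ hb0 hEn (by linarith)
    (by linarith) (by linarith) hU hCv hmkd M hMf hMle lim1 lim2 _ _ J0 (fun g => J0 (rotX u⁻¹ g)) G hJ0 hgL
    (hJ0.ms'.comp (rotX_cont _).measurable) (by
      obtain ⟨K, hK⟩ := hJ0.bd'
      exact ⟨K, fun x => hK _⟩)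
    (ae_back hu1 (inv u hu1) hJ01) (fun g => by rw [hG]; exact saG_nn g) (fun g => by rw [hG]; exact saG_le1 g) _ hEf hdet (by
      have hq1 : 0 < G0.ρ1 := hEn.r2.trans_le hI.ok0.ρ1
      have hq2 : 0 < G0.ρ'' := by
        have := hI.ok0.r1''
        have := hI.ok0.u3
        have := hEn.r2
        linarith
      have hlow2 : ∀ᶠ N : ℕ in (U : Filter ℕ), c * √l1 * ρ ^ (2 / 3 : ℝ) ≤
          (mwE N b).real (WdR (10 ^ 16) (1 / 1000000) A l1 (1 / 4) i (i + 1) (ρ * N)) := by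
        obtain ⟨N0, hN0⟩ := hmass ρ hρ
        filter_upwards [hU (eventually_ge_atTop N0)] with N hN
        exact hN0 N hN b hb
      rw [hAN] at hnat ⊢
      refine C0P.low_ev Finset.univ hU (M := MM) (E := E.n) (O := O) (T' := uT) (g := 44 * ρ) (yy := yy) (kk := kk) hlow2 hnat hEn
        hI.ok0 hq1 hq2 (cd := cd) ?_ (rS (-i)) (trn_ev i) (Eventually.of_forall fun N x hx => ⟨hx, rfl⟩)
        (Eventually.of_forall hMM) (by norm_num) hρ (fun q _ => ?_) (fun q _ => ?_) hA hAl l1c (by norm_num) (by norm_num)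
        (fun q _ => ?_) (fun q _ => ?_) (by positivity) (by linarith) (by linarith) (by norm_num) (by norm_num) (M0 := 20 * ρ) ?_ hu1 ?_ ?_
        (by positivity) ?_ ?_
      · push_cast
        nlinarith
      · linarith [(ht1 q).1]
      · have := (ht1 q).2
        push_cast
        linarith
      · have := (ht1 q).1
        linarith
      · have := (ht1 q).2
        push_cast
        linarith
      · linarith
      · have : ‖u - 1‖ * (20 * ρ) ≤ 1 / 10 ^ 17 * (20 * ρ) := mul_le_mul_of_nonneg_right hu17 (by positivity)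
        linarith
      · linarith
      · linarith
      · linarith) (by
      refine le_trans (integral_mono_of_nonneg ?_ ?_ ?_) hrot
      · exact Eventually.of_forall fun x => mul_nonneg (by rw [hG]; exact saG_nn x) (abs_nonneg _)
      · have hfP := hCv.fin'
        obtain ⟨K, hK⟩ := hJ0.bd'
        refine itg (wc_cont.measurable.mul ((hJ0.ms'.comp (rotX_cont _).measurable).sub hJ0.ms').abs) (C := 1 * (K + K)) fun x => ?_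
        rw [abs_mul, abs_abs, abs_of_nonneg (wc_nn _)]
        exact mul_le_mul (wc_le _) ((abs_sub _ _).trans (add_le_add (hK _) (hK _))) (abs_nonneg _) zero_le_one
      · exact Eventually.of_forall fun x => mul_le_mul_of_nonneg_right (by rw [hG]; exact saG_le x) (abs_nonneg _))
  exact ⟨S, M.map C0K.blX, e0, mS, sS, Measure.isFiniteMeasure_map M _, he0, hsh, hkap⟩

/-! ### 3. All directions -/

private lemma sb_mono {B B' : Set W3} {ψ : W3 → ℝ≥0∞} (h : ∀ b ∈ B, b ∈ B') : Sb B ψ ≤ Sb B' ψ := by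
  unfold Sb
  refine ENNReal.tsum_le_tsum fun b => ?_
  by_cases hb : b ∈ B
  · rw [if_pos hb, if_pos (h b hb)]
  · rw [if_neg hb]
    exact zero_le

lemma SaO.mono {U : Filter ℕ} {c1 c1' Ab Ab' ρ : ℝ} {i : Fin 3} {O : Ot} {Ef : Set XM} {S : Set Pie} {μ : Measure Pie} {e0 : ℝ}
    (h : SaO U c1 Ab ρ i O Ef S μ e0) (hρ : 0 ≤ ρ) (hc : c1' ≤ c1) (hA : Ab ≤ Ab') : SaO U c1' Ab' ρ i O Ef S μ e0 := by
  refine ⟨h.ms, h.sub, h.fin, h.pos, fun ψ h0 h1 hψ => ?_, fun κ hκ hl => (ENNReal.ofReal_le_ofReal hc).trans (h.kap κ hκ hl)⟩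
  filter_upwards [h.sh ψ h0 h1 hψ] with N hN
  refine (ENNReal.ofReal_le_ofReal hc).trans (hN.trans (sb_mono fun b hb => ⟨hb.1, hb.2.trans ?_⟩))
  exact mul_le_mul_of_nonneg_right hA (by positivity)

private lemma lo3 {f : Fin 3 → ℝ} (h : ∀ i, 0 < f i) : ∃ c : ℝ, 0 < c ∧ ∀ i, c ≤ f i :=
  ⟨Finset.univ.inf' Finset.univ_nonempty f, (Finset.lt_inf'_iff _).2 fun i _ => h i, fun i => Finset.inf'_le _ (Finset.mem_univ i)⟩

private lemma hi3 {f : Fin 3 → ℝ} (h : ∀ i, 0 < f i) : ∃ c : ℝ, 0 < c ∧ ∀ i, f i ≤ c :=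
  ⟨Finset.univ.sup' Finset.univ_nonempty f, (h 0).trans_le (Finset.le_sup' _ (Finset.mem_univ 0)),
    fun i => Finset.le_sup' _ (Finset.mem_univ i)⟩

/-- **THE BLOCKS OF ONE END** (`i` = index of the direction: `a` at the end `p`, `-a` at the end `q`), absolute constants -/
theorem sa_ex (hQ : QB) : ∃ c1 Ab Bl φ A' : ℝ, 0 < c1 ∧ 0 < Ab ∧ 0 < Bl ∧ 0 < φ ∧ 0 < A' ∧
    ∀ (i : Fin 3) (u : ℂ), ‖u‖ = 1 → ‖u - 1‖ ≤ φ → ∀ (ρ τ b cd : ℝ) (E : En) (O : Ot) (U : Ultrafilter ℕ) (PG : Measure CC.Gm)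
      (Gd : Set CC.Gm) (G0 G1 : GP) (y : ℕ → W3 × ℕ → ℝ) (Λ : CC.Gm → ℝ) (B0 B1 : Set CC.Gm) (Pc0 Pg0 Pc1 Pg1 : CC.Gm → ℝ)
      (mn : Prop), 0 < ρ → 0 < τ → A' * ρ ^ (4 / 3 : ℝ) ≤ τ → Bl * ρ ^ (4 / 3 : ℝ) ≤ b → E.Nr (bE ρ τ) → O.Nr (bO ρ τ) →
      (U : Filter ℕ) ≤ atTop → Cv (U : Filter ℕ) (fun N => mwE N b) cN PG → (∀ v : ℂ, ‖v‖ = 1 → PG.map (rotX v) = PG) →
      (∀ᵐ g ∂PG, 0 < g.1) → cd < 1000000000 * ρ → OneIn (U : Filter ℕ) b PG i u E cd Gd G0 G1 y Λ B0 B1 Pc0 Pg0 Pc1 Pg1 →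
      ∃ (S : Set Pie) (μ : Measure Pie) (e0 : ℝ),
        SaO U c1 Ab ρ i O (SaSet Gd i u E mn (19500000 * ρ) B0 B1 Pg0 Pc1 Pg1) S μ e0 := by
  choose c1 Ab Bl φ A' h1 h2 h3 h4 h5 h6 using sa_one hQ
  obtain ⟨c, hc, hc'⟩ := lo3 h1
  obtain ⟨a, ha, ha'⟩ := hi3 h2
  obtain ⟨B, hB, hB'⟩ := hi3 h3
  obtain ⟨f, hf, hf'⟩ := lo3 h4
  obtain ⟨A, hA, hA2⟩ := hi3 h5
  refine ⟨c, a, B, f, A, hc, ha, hB, hf, hA, fun i u hu hu1 ρ τ b cd E O U PG Gd G0 G1 y Λ B0 B1 Pc0 Pg0 Pc1 Pg1 mn hρ hτ hAτ hb hE hO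
    hU hC inv hP hcd hI => ?_⟩
  have hρ4 : 0 ≤ ρ ^ (4 / 3 : ℝ) := by positivity
  obtain ⟨S, μ, e0, h⟩ := h6 i u hu (hu1.trans (hf' i)) ρ τ b cd E O U PG Gd G0 G1 y Λ B0 B1 Pc0 Pg0 Pc1 Pg1 mn hρ hτ
    ((mul_le_mul_of_nonneg_right (hA2 i) hρ4).trans hAτ) ((mul_le_mul_of_nonneg_right (hB' i) hρ4).trans hb) hE hO hU hC inv hP hcd hI
  exact ⟨S, μ, e0, h.mono hρ.le (hc' i) (ha' i)⟩

end Pool.Agent.ROT.F3
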