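import Pool.Agent.ROT.F3Low2C
import Pool.Agent.ROT.F3LowMd
import Pool.Agent.ROT.F3SA
import Pool.Agent.ROT.F3MO
import Pool.Agent.ROT.F3BetaB
import Pool.Agent.ROT.F3BetaU
import Pool.Agent.ROT.F3HLowM

/-!
# ROT / F3Low2R (helper89): the share of the class 0 (row LOW2)

* `small43`, `Sb_mono'`, `sa_l2` : auxiliary; `Low2In` : what the row reads from the output of the marks, at one `P`;
* `low2Row_of` : all constants, in the order `p2`, `th1` | `th` | `τ` | `k`, `K` | `ρ` | `U` | `P`;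
* **`low2Row`** : the row for the output `MO` (`sa_ex` of helper86 for the two ends, `MOut.hloc` of helper64).
-/

set_option autoImplicit false

open MeasureTheory Filter Topology Set
open scoped ENNReal NNReal Classical BoundedContinuousFunction

namespace Pool.Agent.ROT.F3E

open Pool.Agent.ROT.F3 Pool.Agent.ROT.F3.CC Pool.Agent.ROT.F3.CK Pool.Agent.ROT.F3.LF Pool.Agent.ROT.F3.Bt
open Pool.Agent.ROT.F3.Mk (MP two mk3)
open Pool.Agent.ROT.F (Nm nm_bd nm_ratio nm_top QB)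

/-! ### 1. Auxiliary -/

/-- `A x ^ (4 / 3)` is small for small `x` -/
lemma small43 {A y : ℝ} (hA : 0 < A) (hy : 0 < y) : ∃ ε : ℝ, 0 < ε ∧ ∀ x : ℝ, 0 < x → x ≤ ε → A * x ^ (4 / 3 : ℝ) ≤ y := by
  refine ⟨(y / A) ^ (3 / 4 : ℝ), Real.rpow_pos_of_pos (div_pos hy hA) _, fun x hx h => ?_⟩
  have h2 := Real.rpow_le_rpow hx.le h (show (0 : ℝ) ≤ 4 / 3 by norm_num)
  rw [← Real.rpow_mul (div_pos hy hA).le, show (3 / 4 : ℝ) * (4 / 3) = 1 by norm_num, Real.rpow_one, le_div_iff₀ hA] at h2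
  linarith

lemma Sb_mono' {B B' : Set W3} (h : B ⊆ B') (ψ : W3 → ℝ≥0∞) : Sb B ψ ≤ Sb B' ψ := by
  unfold Sb
  refine ENNReal.tsum_le_tsum fun b => ?_
  by_cases hb : b ∈ B
  · rw [if_pos hb, if_pos (h hb)]
  · rw [if_neg hb]
    exact zero_le

/-- the share of the words for functions near the indicator of `S` in a larger measure, at a larger scale -/
lemma sa_l2 {V : Ultrafilter ℕ} {c1 Ab ρ ρ' e0 e : ℝ} (hAb : 0 < Ab) (hρ' : 0 < ρ') (hρ : ρ' ≤ 101 / 100 * ρ) {i : Fin 3} {O : Ot}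
    {Ef : Set C0K.XM} {S : Set Pie} {κ μ : Measure Pie} [IsFiniteMeasure κ] (h : SaO (V : Filter ℕ) c1 Ab ρ' i O Ef S μ e0)
    (he : e ≤ e0) (ψ : Pie →ᵇ ℝ) (h0 : ∀ x, 0 ≤ ψ x) (h1 : ∀ x, ψ x ≤ 1)
    (hψ : ∫ x, |ψ x - S.indicator (fun _ => (1 : ℝ)) x| ∂(κ + μ) ≤ e) :
    ∀ᶠ M : ℕ in (V : Filter ℕ), ENNReal.ofReal c1 ≤ Sb {b | b ∈ OtB (ev i) O M (uT M) ∧
      (b.length : ℝ) ≤ 2 * Ab * (ρ * M) ^ (4 / 3 : ℝ)} (fun b => ENNReal.ofReal (ψ (cr M (uT M) b))) := by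
  have := h.fin
  have hρ0 : 0 < ρ := by linarith
  have hint : ∀ ν : Measure Pie, IsFiniteMeasure ν → Integrable (fun x => |ψ x - S.indicator (fun _ => (1 : ℝ)) x|) ν := by
    intro ν hν
    exact ((ψ.integrable ν).sub ((integrable_const (1 : ℝ)).indicator h.ms)).abs
  have h2 : ∫ x, |ψ x - S.indicator (fun _ => (1 : ℝ)) x| ∂μ ≤ e0 := by
    rw [integral_add_measure (hint κ inferInstance) (hint μ h.fin)] at hψ
    have h3 : 0 ≤ ∫ x, |ψ x - S.indicator (fun _ => (1 : ℝ)) x| ∂κ := integral_nonneg fun _ => abs_nonneg _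
    linarith
  filter_upwards [h.sh ψ h0 h1 h2] with M hM
  refine hM.trans (Sb_mono' ?_ _)
  rintro b ⟨b1, b2⟩
  refine ⟨b1, b2.trans ?_⟩
  have hM0 : (0 : ℝ) ≤ M := Nat.cast_nonneg M
  have h4 : (ρ' * M) ^ (4 / 3 : ℝ) ≤ (101 / 100 * (ρ * M)) ^ (4 / 3 : ℝ) := by
    refine Real.rpow_le_rpow (mul_nonneg hρ'.le hM0) ?_ (by norm_num)
    have := mul_le_mul_of_nonneg_right hρ hM0
    linarith
  have h5 : (101 / 100 * (ρ * M)) ^ (4 / 3 : ℝ) ≤ 2 * (ρ * M) ^ (4 / 3 : ℝ) := by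
    rw [Real.mul_rpow (by norm_num) (mul_nonneg hρ0.le hM0)]
    refine mul_le_mul_of_nonneg_right ?_ (Real.rpow_nonneg (mul_nonneg hρ0.le hM0) _)
    calc (101 / 100 : ℝ) ^ (4 / 3 : ℝ) ≤ (101 / 100 : ℝ) ^ (2 : ℝ) := Real.rpow_le_rpow_of_exponent_le (by norm_num) (by norm_num)
      _ ≤ 2 := by
        rw [Real.rpow_two]
        norm_num
  calc Ab * (ρ' * M) ^ (4 / 3 : ℝ) ≤ Ab * (2 * (ρ * M) ^ (4 / 3 : ℝ)) := mul_le_mul_of_nonneg_left (h4.trans h5) hAb.le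
    _ = 2 * Ab * (ρ * M) ^ (4 / 3 : ℝ) := by ring

/-! ### 2. The input -/

/-- **what the row reads from the output of the marks** at one `P`: the blocks of the two ends and the locality of the class -/
def Low2In (c1 Ab : ℝ) (V : Ultrafilter ℕ) (P : Prm) (ρ' : ℝ) (β0 : Measure Pie) (C : Set Pie) : Prop :=
  ∀ O : Ot, ∀ Y : Tp, (∀ ρ τ, NearP P.u ρ τ P → O.Nr (bO ρ τ) ∧ Y.Nr (bY ρ τ)) →
    ∃ (S S' : Set Pie) (Ef Ef' : Set C0K.XM) (μ μ' : Measure Pie) (e0 e0' : ℝ), SaO (V : Filter ℕ) c1 Ab ρ' 0 O Ef S μ e0 ∧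
      SaO (V : Filter ℕ) c1 Ab ρ' 0 O Ef' S' μ' e0' ∧
      ∀ (κ κ' : Measure Pie) (Q : Measure MP), IsFiniteMeasure Q → Q.map Prod.fst ≤ β0 →
        (∃ u : ℝ, 0 < u ∧ Q.map two = ENNReal.ofReal u • κ.prod κ') →
        (∀ E : Set MP, IsClosed E → (∀ᶠ M : ℕ in (V : Filter ℕ), ∀ b ∈ OtB (ev 0) O M (uT M),
          ∀ m ∈ Prm.Rs3 Y Y (F3.W2 P O O) M, ∀ b' ∈ OtB (ev 0) O M (uT M), mk3 M (uT M) (b, m, b') ∈ E) → ∀ᵐ y ∂Q, y ∈ E) →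
        ∀ᵐ z ∂Q, (two z).1 ∈ S → (two z).2 ∈ S' → z.1 ∈ C

/-- **the row LOW2**: constants -/
theorem low2Row_of {MO : MoT} {c1 Ab A' B' φ : ℝ} (hc1 : 0 < c1) (hAb : 0 < Ab) (hA' : 0 < A') (hB' : 0 < B') (hφ : 0 < φ)
    (hin : ∀ z : ℂ, ‖z‖ = 1 → ‖z - 1‖ ≤ φ → ∀ (U : Ultrafilter ℕ) (P : Prm) (ρ τ : ℝ), (U : Filter ℕ) ≤ atTop → P.Ok → 0 < ρ →
      0 < τ → NearP z ρ τ P → A' * ρ ^ (4 / 3 : ℝ) ≤ τ → ρ ≤ B' → ∀ (β b : Fin 3 → Measure Pie) (t t' : Fin 3 → Pie → ℝ)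
      (C : Fin 3 → Set Pie), ClsL (U.map Nm : Ultrafilter ℕ) P β b → (∀ a, Measurable (t a)) → (∀ a, Measurable (t' a)) →
      (∀ a, MeasurableSet (C a)) → MO U P β b t t' C →
      ∃ ρ' : ℝ, 0 < ρ' ∧ ρ' ≤ 101 / 100 * ρ ∧ Low2In c1 Ab (U.map Nm : Ultrafilter ℕ) P ρ' (β 0) (C 0)) :
    ∃ φ : ℝ, 0 < φ ∧ ∀ z : ℂ, ‖z‖ = 1 → ‖z - 1‖ ≤ φ → Low2Row z MO := by
  obtain ⟨p, k0, K1, th1, hp, hk0, hK1, hth1, -, hmain⟩ := low2_md (2 * Ab) c1 (by positivity) hc1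
  refine ⟨min φ (1 / 100000000), lt_min hφ (by norm_num), fun z hz hz1 => ⟨p, th1, hp, hth1, fun th hth hth' => ?_⟩⟩
  have hz2 : ‖z - 1‖ ≤ φ := hz1.trans (min_le_left _ _)
  have hz3 : ‖z - 1‖ ≤ 1 / 100000000 := hz1.trans (min_le_right _ _)
  obtain ⟨τ0, hτ0, hmain⟩ := hmain th hth hth'
  refine ⟨τ0, hτ0, fun τ hτ hτ' => ?_⟩
  obtain ⟨ρ0, hρ0, hmain⟩ := hmain τ hτ hτ'
  obtain ⟨ε, hε, hsm⟩ := small43 hA' hτ
  refine AEv.of_all (k0 := k0 / 2) (K1 := K1 + 3 * τ + 1) (by positivity) (by positivity) fun k K hk hk' hK => ?_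
  refine ⟨min (min ρ0 (k0 / 100000000)) (min (1 / 50000000) (min ε B')), by positivity, fun ρ hρ hρ' U hU P hP hn hw => ?_⟩
  have r1 : ρ ≤ ρ0 := hρ'.trans ((min_le_left _ _).trans (min_le_left _ _))
  have r2 : ρ ≤ k0 / 100000000 := hρ'.trans ((min_le_left _ _).trans (min_le_right _ _))
  have r3 : ρ ≤ 1 / 50000000 := hρ'.trans ((min_le_right _ _).trans (min_le_left _ _))
  have r4 : ρ ≤ ε := hρ'.trans ((min_le_right _ _).trans ((min_le_right _ _).trans (min_le_left _ _)))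
  have r5 : ρ ≤ B' := hρ'.trans ((min_le_right _ _).trans ((min_le_right _ _).trans (min_le_right _ _)))
  intro β b t t' C hcl mt mt' mC hMO κ hκ hlim
  obtain ⟨ρ', hρ'0, hρ'1, hL⟩ := hin z hz hz2 U P ρ τ hU hP hρ hτ hn (hsm ρ hρ r4) r5 β b t t' C hcl mt mt' mC hMO
  have hV : ((U.map Nm : Ultrafilter ℕ) : Filter ℕ) ≤ atTop := by
    rw [Ultrafilter.coe_map]
    exact (Filter.map_mono hU).trans nm_top
  -- the outer blocks and gates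
  obtain ⟨O, hO⟩ : ∃ O : Ot, O = bO P.p.n.r P.p.n.la := ⟨_, rfl⟩
  obtain ⟨Y, hY⟩ : ∃ Y : Tp, Y = bY P.p.n.r P.p.n.la := ⟨_, rfl⟩
  have hnr : ∀ ρ τ, NearP P.u ρ τ P → O.Nr (bO ρ τ) ∧ Y.Nr (bY ρ τ) := by
    intro ρ τ h
    have a1 : 1 * ρ ≤ P.p.n.r := h.p.n.r.1
    have a2 : P.p.n.r ≤ 101 / 100 * (1 * ρ) := h.p.n.r.2
    have a3 : 1 * τ ≤ P.p.n.la := h.p.n.la.1
    have a4 : P.p.n.la ≤ 101 / 100 * (1 * τ) := h.p.n.la.2
    rw [hO, hY]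
    exact ⟨bO_sc (by linarith) (by linarith) (by linarith) (by linarith), bY_sc (by linarith) (by linarith) (by linarith) (by linarith)⟩
  have hn' : NearP P.u ρ τ P := by
    have := hn.u
    rw [this]
    exact hn
  obtain ⟨nO, nY⟩ := hnr ρ τ hn'
  have hOr : 0 < O.r := by
    have : 22000000 * ρ ≤ O.r := nO.r.1
    linarith
  have hOm : 0 < O.m := by
    have : 20000000 * ρ ≤ O.m := nO.m.1
    linarith
  have hC3 : C3Ok P O O Y Y (F3.W2 P O O) := c3ok_near hρ hτ hP (by rw [hn.u]; exact hz3) hn.p hn.q nO nO nY nY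
  obtain ⟨w1, w2, w3, w4⟩ := w2_win (O := O) (O' := O) hρ hn.p hn.q nO nO hw (k0 := k0) (K1 := K1) (by linarith) (by linarith)
    (by linarith)
  -- the limits of the blocks
  obtain ⟨m, hm1, hm2, -⟩ := ot_lim (O := O) hOr.le hOm (i := 0) (Bs := fun N => OtB (ev 0) O N (uT N)) (w := fun _ _ => 1)
    (Eventually.of_forall fun _ _ _ => le_rfl) (U.map Nm : Ultrafilter ℕ) hV (Eventually.of_forall fun _ => subset_rfl)
  have fm : IsFiniteMeasure m := hm1.fβ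
  have fβ : IsFiniteMeasure (β 0) := hcl.fβ 0
  obtain ⟨S, S', Ef, Ef', μ, μ', e0, e0', hs, hs', hloc⟩ := hL O Y hnr
  have fμ := hs.fin
  have fμ' := hs'.fin
  have hD0 : 0 < (P.wd P.W).D0 := by
    have h1 := hP.far
    have h2 := hP.p.f.r
    have h3 := hP.p.f.r2
    have h4 := hP.q.f.r
    have h5 := hP.q.f.r2
    show 0 < P.W.D0 - (P.p.k + P.q.k)
    linarith
  have ht1 : 0 < (P.wd P.W).t1 := by
    have h1 := hP.t0
    have h2 := hP.t1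
    have h3 := hP.p.lk
    have h4 := hP.q.lk
    show 0 < P.W.t1 + (P.p.lk + P.q.lk)
    linarith
  have lβ : ∀ g : Pie →ᵇ ℝ, Tendsto (fun M : ℕ => ∫ x, g x ∂(rm (Bt.cb M) M (uT M) (P.R0 0 P.W M) fun _ => 1))
      (U.map Nm : Ultrafilter ℕ) (𝓝 (∫ x, g x ∂(β 0))) := by
    intro g
    have h1 := hcl.wβ 0
    have h2 := rst_bcf (P := P.p.n) (Q := P.q.n) (W := P.wd P.W) (i := 0) (j := -0)
      (by linarith [hP.p.n.rg, hP.p.n.r, hP.p.n.r2]) (by linarith [hP.q.n.rg, hP.q.n.r, hP.q.n.r2]) hD0 ht1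
      (Rs := fun N => rcl P 0 N) (w := fun _ _ => 1) (Eventually.of_forall fun _ _ _ => le_rfl) hV h1
      (Eventually.of_forall fun N => by
        show P.R0 0 (wnd P 0) N ⊆ _
        rw [wnd_zero]
        exact subset_rfl) g
    have e : ∀ M : ℕ, rcl P 0 M = P.R0 0 P.W M := fun M => by
      show P.R0 0 (wnd P 0) M = _
      rw [wnd_zero]
    simp only [e] at h2
    exact h2
  exact hmain ρ hρ r1 P O O Y Y (F3.W2 P O O) hC3 hn.p hn.q nO nO nY nY w1 w2 w3 w4 U hU κ hκ hlim (β 0) m m (m + μ) (m + μ') fβ fm fm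
    inferInstance inferInstance (Measure.le_add_right le_rfl) (Measure.le_add_right le_rfl) lβ hm2 hm2 S S' (C 0) (min e0 e0') hs.ms
    hs'.ms (mC 0) (lt_min hs.pos hs'.pos) (sa_l2 hAb hρ'0 hρ'1 hs (min_le_left _ _)) (sa_l2 hAb hρ'0 hρ'1 hs' (min_le_right _ _))
    (hloc m m)

/-- **THE ROW LOW2** for the output of the marks -/
theorem low2Row (hQ : QB) : ∃ φ : ℝ, 0 < φ ∧ ∀ z : ℂ, ‖z‖ = 1 → ‖z - 1‖ ≤ φ → Low2Row z MO := by
  obtain ⟨c1, Ab, Bl, φ, A', hc1, hAb, hBl, hφ, hA', hsa⟩ := sa_ex hQ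
  obtain ⟨ε, hε, hsm⟩ := small43 hBl one_pos
  refine low2Row_of (MO := MO) (A' := 3 * A') (B' := ε / 2) hc1 hAb (by positivity) (by positivity) hφ ?_
  rintro z hz hzφ U P ρ τ hU hP hρ hτ hn hAτ hρB β b t t' C hcl mt mt' mC ⟨D, H⟩
  have hV : ((U.map Nm : Ultrafilter ℕ) : Filter ℕ) ≤ atTop := nm_map_top hU
  have h1 : D.ρ ≤ 101 / 100 * ρ := near_le H.near hn
  refine ⟨D.ρ, H.ρ0, h1, fun O Y hnr => ?_⟩
  obtain ⟨hO, hY⟩ := hnr D.ρ D.τ H.near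
  have r43 : (101 / 100 : ℝ) ^ (4 / 3 : ℝ) ≤ 2 := by
    calc (101 / 100 : ℝ) ^ (4 / 3 : ℝ) ≤ (101 / 100 : ℝ) ^ (2 : ℝ) := Real.rpow_le_rpow_of_exponent_le (by norm_num) (by norm_num)
      _ ≤ 2 := by
        rw [Real.rpow_two]
        norm_num
  have e1 : D.ρ ^ (4 / 3 : ℝ) ≤ 2 * ρ ^ (4 / 3 : ℝ) := by
    calc D.ρ ^ (4 / 3 : ℝ) ≤ (101 / 100 * ρ) ^ (4 / 3 : ℝ) := Real.rpow_le_rpow H.ρ0.le h1 (by norm_num)
      _ = (101 / 100) ^ (4 / 3 : ℝ) * ρ ^ (4 / 3 : ℝ) := Real.mul_rpow (by norm_num) hρ.le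
      _ ≤ 2 * ρ ^ (4 / 3 : ℝ) := mul_le_mul_of_nonneg_right r43 (Real.rpow_nonneg hρ.le _)
  have e2 : τ ≤ 101 / 100 * D.τ := by
    have a1 : 1 * τ ≤ P.p.n.la := hn.p.n.la.1
    have a2 : P.p.n.la ≤ 101 / 100 * (1 * D.τ) := H.near.p.n.la.2
    linarith
  have e3 : A' * D.ρ ^ (4 / 3 : ℝ) ≤ D.τ := by
    have a1 := mul_le_mul_of_nonneg_left e1 hA'.le
    have a2 := H.τ0
    linarith
  have e4 : Bl * D.ρ ^ (4 / 3 : ℝ) ≤ (D.bb : ℝ) := by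
    have a1 := hsm D.ρ H.ρ0 (by linarith)
    have a2 : (1 : ℝ) ≤ D.bb := by exact_mod_cast H.bb1
    linarith
  have hg : ∀ᵐ g ∂(PGl (U.map Nm) D.bb), 0 < g.1 := H.aep.mono fun g h => h.1.trans h.2
  have hu1 : ‖P.u - 1‖ ≤ φ := by
    rw [hn.u]
    exact hzφ
  have key : ∀ E : Bool, ∃ (S : Set Pie) (μ : Measure Pie) (e0 : ℝ),
      SaO ((U.map Nm : Ultrafilter ℕ) : Filter ℕ) c1 Ab D.ρ (dxB E 0) O (D.SaY P True E 0) S μ e0 := fun E =>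
    hsa (dxB E 0) P.u hP.u hu1 D.ρ D.τ D.bb D.c0 (enB P E) O (U.map Nm) (PGl (U.map Nm) D.bb) D.X (D.K0 E) (D.K1 E) _ _ _ _ _ _ _ _
      True H.ρ0 H.τ0 e3 e4 (enB_nr H.near.p H.near.q E) hO hV H.cv H.inv hg H.c0.2 (H.gen.one E 0)
  obtain ⟨S, μ, e0, s⟩ := key false
  obtain ⟨S', μ', e0', s'⟩ := key true
  have d0 : dxB false 0 = 0 := rfl
  have d1 : dxB true 0 = 0 := by decide
  rw [d0] at s
  rw [d1] at s'
  have n : HlN P O O Y Y (F3.W2 P O O) (19500000 * D.ρ) := by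
    refine hln_near hP H.ρ0 H.near hO hO hY hY le_rfl ?_ le_rfl ?_
    · show P.W.D1 - (P.p.k + P.q.k) - (O.r + O.r) + (O.r + O.r) + (P.p.k + P.q.k) ≤ P.W.D1
      linarith
    · show P.W.t1 - (O.lb + O.lb) + (O.lb + O.lb) ≤ P.W.t1
      linarith
  exact ⟨S, S', _, _, μ, μ', e0, e0', s, s', fun κ κ' => H.hloc hU hP hcl n s.sub s'.sub⟩

end Pool.Agent.ROT.F3E

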