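import Pool.Agent.ROT.F3GenP
import Pool.Agent.ROT.F3K1R

/-!
# ROT, F3, row Core (helper17): one bound of the lengths of all closed words of the classes, for all data in the windows

* **`len_box`** : the number of letters (unit `N ^ (4 / 3)`) of the closed words with two roots of all classes of both lattices is bounded
  by one number which depends on the windows of the data only.
-/

set_option autoImplicit false

namespace Pool.Agent.ROT.F3.Gn

open Pool.Agent.ROT.F3.CK

/-- **one bound for all data in the windows** -/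
theorem len_box (z : ℂ) (B : Bx) : ∃ L : ℝ, 0 ≤ L ∧ ∀ P : Prm, B.In z P → ∀ (i j : Fin 3) (W W' : Wn), W = P.W ∨ W = P.Wc →
    W' = P.W ∨ W' = P.Wc → (∀ y y' s s' : ℝ, (DR P i j W W' y y' s s').len ≤ L) ∧ (D0 P i j W W').len ≤ L := by
  obtain ⟨M, hM⟩ : ∃ M : ℝ, M = ∑ f ∈ (ord.toFinset), |B.hi f| := ⟨_, rfl⟩
  have h1 : ∀ P : Prm, B.In z P → ∀ f : Fd, f ≠ .t0 → f.get P ≤ M := by
    intro P hP f hf
    have h2 : |B.hi f| ≤ M := by
      rw [hM]
      exact Finset.single_le_sum (f := fun f => |B.hi f|) (fun _ _ => abs_nonneg _) (List.mem_toFinset.2 (ord_mem f))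
    exact ((hP.g f).2.trans (le_abs_self _)).trans h2
  have M0 : 0 ≤ M := by
    rw [hM]
    exact Finset.sum_nonneg fun _ _ => abs_nonneg _
  refine ⟨20 * M, by positivity, fun P hP i j W W' hW hW' => ?_⟩
  have a1 := h1 P hP (.p (.n .la)) (by simp)
  have a2 := h1 P hP (.p (.n .lb)) (by simp)
  have a3 := h1 P hP (.q (.n .la)) (by simp)
  have a4 := h1 P hP (.q (.n .lb)) (by simp)
  have a5 := h1 P hP (.p (.f .la)) (by simp)
  have a6 := h1 P hP (.p (.f .lb)) (by simp)
  have a7 := h1 P hP (.q (.f .la)) (by simp)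
  have a8 := h1 P hP (.q (.f .lb)) (by simp)
  have a9 := h1 P hP .t1 (by simp)
  have a10 := h1 P hP .ct1 (by simp)
  have a11 := h1 P hP (.p .lk) (by simp)
  have a12 := h1 P hP (.q .lk) (by simp)
  change P.p.n.la ≤ M at a1
  change P.p.n.lb ≤ M at a2
  change P.q.n.la ≤ M at a3
  change P.q.n.lb ≤ M at a4
  change P.p.f.la ≤ M at a5
  change P.p.f.lb ≤ M at a6
  change P.q.f.la ≤ M at a7
  change P.q.f.lb ≤ M at a8
  change P.W.t1 ≤ M at a9
  change P.Wc.t1 ≤ M at a10
  change P.p.lk ≤ M at a11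
  change P.q.lk ≤ M at a12
  have w1 : W.t1 ≤ M := by
    rcases hW with rfl | rfl
    · exact a9
    · exact a10
  have w2 : W'.t1 ≤ M := by
    rcases hW' with rfl | rfl
    · exact a9
    · exact a10
  refine ⟨fun y y' s s' => ?_, ?_⟩
  · show 2 * (P.p.f.la + P.p.f.lb) + W.t1 + 2 * (P.q.f.la + P.q.f.lb) + W'.t1 ≤ _
    linarith
  · show 2 * (P.p.n.la + P.p.n.lb) + (W.t1 + (P.p.lk + P.q.lk)) + 2 * (P.q.n.la + P.q.n.lb) + (W'.t1 + (P.p.lk + P.q.lk)) ≤ _
    linarith

end Pool.Agent.ROT.F3.Gn
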