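import Pool.Agent.ROT.F3CvU
import Pool.Agent.ROT.F3Fin5a
import Pool.Agent.ROT.F3JmD
import Pool.Agent.ROT.RotPAll

/-!
# ROT, F3 (helper58): the limit law `PGl V bb`, the length of the words of one `P`

* **`pgl_ok`** : convergence, rotation invariance, `0 < g.2.1 < g.1` a.e.; `pgl_ae` : also `g.1 ≤ bb`, ends `0`, the curve is simple,
  diameter `> 0`; `pgl_fin`;
* `LenB P bb` : all words of all classes of both lattices of `P` have length `≤ bb`; `LenB.j0`, `LenB.jR`, `LenB.mono`; **`lenB_ex`** :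
  for every `P`; `lenB_box` : one number for a box.
-/

set_option autoImplicit false

open MeasureTheory Filter Topology Set
open Pool.Agent.NTS.Res Pool.Agent.PMA Pool.Agent.PMA.Res

namespace Pool.Agent.ROT.F3

open Pool.Agent.ROT.F3.CK Pool.Agent.ROT.F3.Gn

/-- what holds almost everywhere -/
theorem pgl_ae {V : Ultrafilter ℕ} (hV : (V : Filter ℕ) ≤ atTop) (bb : ℕ) :
    ∀ᵐ g ∂(PGl V bb), (0 < g.2.1 ∧ g.2.1 < g.1 ∧ g.1 ≤ (bb : ℝ)) ∧ (g.2.2 0 = 0 ∧ g.2.2 1 = 0) ∧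
      (∀ p q : unitInterval, p < q → g.2.2 p = g.2.2 q → p = 0 ∧ q = 1) ∧ 0 < F.dm g.2.2 :=
  mwE_ae F.qb F.ldp bb.cast_nonneg hV (PGl_nat F.qb hV bb)

theorem pgl_fin {V : Ultrafilter ℕ} (hV : (V : Filter ℕ) ≤ atTop) (bb : ℕ) : IsFiniteMeasure (PGl V bb) :=
  (PGl_nat F.qb hV bb).fin'

/-- **the limit law**: convergence, rotation invariance, positive lengths -/
theorem pgl_ok {V : Ultrafilter ℕ} (hV : (V : Filter ℕ) ≤ atTop) (bb : ℕ) :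
    LF.Cv (V : Filter ℕ) (fun N => mwE N bb) cN (PGl V bb) ∧ (∀ v : ℂ, ‖v‖ = 1 → (PGl V bb).map (rotX v) = PGl V bb) ∧
      ∀ᵐ g ∂(PGl V bb), 0 < g.2.1 ∧ g.2.1 < g.1 :=
  ⟨PGl_nat F.qb hV bb, fun _ hv => mwE_rot Pool.Agent.ROT.rotP F.fast F.qb F.ldp bb.cast_nonneg hV (PGl_nat F.qb hV bb) hv,
    (pgl_ae hV bb).mono fun _ h => ⟨h.1.1, h.1.2.1⟩⟩

/-- **`bb` is above the lengths of all closed words of `P`** (unit `N ^ (4 / 3)`) -/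
def LenB (P : Prm) (bb : ℕ) : Prop := ∀ (i j : Fin 3) (W W' : Wn), W = P.W ∨ W = P.Wc → W' = P.W ∨ W' = P.Wc →
  (∀ y y' s s' : ℝ, (DR P i j W W' y y' s s').len ≤ bb) ∧ (D0 P i j W W').len ≤ bb

lemma wnA_or (P : Prm) (a : Fin 3) : wnA P a = P.W ∨ wnA P a = P.Wc := by
  unfold wnA
  split_ifs
  · exact Or.inl rfl
  · exact Or.inr rfl

lemma LenB.j0 {P : Prm} {bb : ℕ} (h : LenB P bb) (i j : Fin 3) : (jD0 P i j).len ≤ bb :=
  (h i j _ _ (wnA_or P i) (wnA_or P j)).2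

lemma LenB.jR {P : Prm} {bb : ℕ} (h : LenB P bb) (i j : Fin 3) : (jDR P i j).len ≤ bb :=
  (h i j _ _ (wnA_or P i) (wnA_or P j)).1 0 0 0 0

lemma LenB.mono {P : Prm} {b c : ℕ} (h : LenB P b) (hc : b ≤ c) : LenB P c := by
  intro i j W W' hW hW'
  obtain ⟨h1, h2⟩ := h i j W W' hW hW'
  have h3 : (b : ℝ) ≤ c := by exact_mod_cast hc
  exact ⟨fun y y' s s' => (h1 y y' s s').trans h3, h2.trans h3⟩

/-- **one number for a box** -/
theorem lenB_box (z : ℂ) (B : Bx) : ∃ b : ℕ, ∀ P : Prm, B.In z P → LenB P b := by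
  obtain ⟨L, -, h⟩ := len_box z B
  exact ⟨⌈L⌉₊, fun P hP i j W W' hW hW' => ⟨fun y y' s s' => ((h P hP i j W W' hW hW').1 y y' s s').trans (Nat.le_ceil L),
    ((h P hP i j W W' hW hW').2).trans (Nat.le_ceil L)⟩⟩

/-- **for every `P`** -/
theorem lenB_ex (P : Prm) : ∃ b : ℕ, LenB P b := by
  obtain ⟨M, h1, h2⟩ : ∃ M : ℝ, P.W.t1 ≤ M ∧ P.Wc.t1 ≤ M := ⟨_, le_max_left _ _, le_max_right _ _⟩
  obtain ⟨L, hL1, hL2⟩ : ∃ L : ℝ, 2 * (P.p.f.la + P.p.f.lb) + M + 2 * (P.q.f.la + P.q.f.lb) + M ≤ L ∧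
    2 * (P.p.n.la + P.p.n.lb) + (M + (P.p.lk + P.q.lk)) + 2 * (P.q.n.la + P.q.n.lb) + (M + (P.p.lk + P.q.lk)) ≤ L :=
    ⟨_, le_max_left _ _, le_max_right _ _⟩
  refine ⟨⌈L⌉₊, fun i j W W' hW hW' => ?_⟩
  have w1 : W.t1 ≤ M := by
    rcases hW with rfl | rfl
    · exact h1
    · exact h2
  have w2 : W'.t1 ≤ M := by
    rcases hW' with rfl | rfl
    · exact h1
    · exact h2
  have h3 := Nat.le_ceil L
  refine ⟨fun y y' s s' => ?_, ?_⟩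
  · show 2 * (P.p.f.la + P.p.f.lb) + W.t1 + 2 * (P.q.f.la + P.q.f.lb) + W'.t1 ≤ _
    linarith
  · show 2 * (P.p.n.la + P.p.n.lb) + (W.t1 + (P.p.lk + P.q.lk)) + 2 * (P.q.n.la + P.q.n.lb) + (W'.t1 + (P.p.lk + P.q.lk)) ≤ _
    linarith

end Pool.Agent.ROT.F3
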