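import Pool.Agent.ROT.F3JmH
import Pool.Agent.ROT.F3LocG
import Pool.Agent.ROT.F3CoreX

/-!
# ROT / F3JLoc (helper82): locality of the foreign gates for the three classes at once (`loc` of `cls3`)

* `kS`, `kE` : the arms at the two ends of the rest of a place; `fj_iff`, `rj_eq`, `aj_eq`, `cj_eq` : the literals of F3JmD at a place;
* **`GaL2`** : locality of the gates (existence and times), two systems, the whole rests are equal;
* **`jloc_of`** : hypothesis `loc` of `cls3`.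
-/

set_option autoImplicit false

namespace Pool.Agent.ROT.F3.CK

open MeasureTheory Set unitInterval

open scoped ENNReal Classical

open Pool.Agent.ROT.F3 Pool.Agent.ROT.F3.LF Pool.Agent.ROT.F3.CC

/-! ### 1. Places -/

/-- the arm at the start of the rest -/
def kS (e : Bool) : Arm := cond e .bp .fp

/-- the arm at the end of the rest -/
def kE (e : Bool) : Arm := cond e .fq .bq

/-- the arm `s` of the rest : `false` = start, `true` = end -/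
def kX (s e : Bool) : Arm := cond s (kE e) (kS e)

lemma oppA_kS (e : Bool) : oppA (kS e) = kE e := by cases e <;> rfl

lemma oppA_kE (e : Bool) : oppA (kE e) = kS e := by cases e <;> rfl

section

variable {P : Prm} {G0 H : Fin 3 → Ga} {j : J3} {g : CC.Gm}

lemma fj_iff : g ∈ FJ (fun k => jF1 P (fA k) (fB k) (G0 k) (H k)) (fun k => jF2 P (fA k) (fB k) (G0 k) (H k)) j ↔
    FgS P (fA j.1) (fB j.1) (G0 j.1) ((H j.1).rot P.u) (kS j.2) g ∧
    FgS P (fA j.1) (fB j.1) (G0 j.1) ((H j.1).rot P.u) (kE j.2) g ∧ ArW P (fA j.1) (fB j.1) ((H j.1).rot P.u) (kS j.2) g := by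
  obtain ⟨k, e⟩ := j
  cases e
  · exact Iff.rfl
  · exact Iff.rfl

/-- the class at a place -/
lemma clA_X (s : Bool) : clA (fA j.1) (fB j.1) (kX s j.2) = cl3 j := by
  obtain ⟨k, e⟩ := j
  cases s <;> cases e <;> rfl

/-- the direction at a place -/
lemma dirA_X (s : Bool) : dirA (fA j.1) (fB j.1) (kX s j.2) = cond s (ev (-(cl3 j))) (ev (cl3 j)) := by
  obtain ⟨k, e⟩ := j
  cases s <;> cases e <;> rfl

/-- the data of the end -/
lemma endA_X (s : Bool) (e : Bool) : endA P (kX s e) = cond s P.q P.p := by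
  cases s <;> cases e <;> rfl

lemma jw0_mem {i i' : Fin 3} {G : Ga} (h : jw0 P i i' G g ≠ 0) : g ∈ jK0 P i i' G := ofReal_bi.1 h

lemma jK0_B {i i' : Fin 3} {G : Ga} (h : g ∈ jK0 P i i' G) : ∀ k, g ∈ G.B k := mem_iInter.1 h.1

lemma jK0_ord {i i' : Fin 3} {G : Ga} (h : g ∈ jK0 P i i' G) (e : Bool) : leA (kS e) (G.ix (kS e) g) (G.ix (kE e) g) := by
  have hB := jK0_B h
  have h2 : max (clsF (jD0 P i i') g.2.2 g.1 (pji (muG g)) fun k => pji (phi8 G.B G.c G.x g k))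
      (ordF fun k => pji (phi8 G.B G.c G.x g k)) ≤ 0 := h.2
  rw [pji_phi8 hB] at h2
  have h3 := (le_max_right _ _).trans h2
  cases e
  · have h1 : ((G.ix .fp g : I) : ℝ) - (G.ix .bq g : I) ≤ 0 := (le_max_left _ _).trans h3
    exact Subtype.coe_le_coe.1 (sub_nonpos.1 h1)
  · have h1 : ((G.ix .fq g : I) : ℝ) - (G.ix .bp g : I) ≤ 0 := (le_max_right _ _).trans h3
    exact Subtype.coe_le_coe.1 (sub_nonpos.1 h1)

/-- start of the rest -/
lemma aj_eq (h0 : g ∈ jK0 P (fA j.1) (fB j.1) (G0 j.1)) (hU : (G0 j.1).Un g) :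
    aJ (fun k => jT (G0 k)) j g = ((G0 j.1).ix (kS j.2) g : I) := by
  have hB := jK0_B h0
  rw [hU.ix (hB _)]
  show jT (G0 j.1) g (cond j.2 6 1) = _
  rw [jT_on hB]
  obtain ⟨k, e⟩ := j
  cases e <;> rfl

/-- end of the rest -/
lemma aj'_eq (h0 : g ∈ jK0 P (fA j.1) (fB j.1) (G0 j.1)) (hU : (G0 j.1).Un g) :
    aJ' (fun k => jT (G0 k)) j g = ((G0 j.1).ix (kE j.2) g : I) := by
  have hB := jK0_B h0
  rw [hU.ix (hB _)]
  show jT (G0 j.1) g (cond j.2 5 2) = _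
  rw [jT_on hB]
  obtain ⟨k, e⟩ := j
  cases e <;> rfl

/-- the foreign mark at the start -/
lemma cj_eq (hB : g ∈ ((H j.1).rot P.u).B (kS j.2)) (hU : ((H j.1).rot P.u).Un g) :
    cJ (fun k => jSF P (H k)) j g = (((H j.1).rot P.u).ix (kS j.2) g : I) := by
  rw [hU.ix hB]
  obtain ⟨k, e⟩ := j
  cases e <;> rfl

/-- the foreign mark at the end -/
lemma cj'_eq (hB : g ∈ ((H j.1).rot P.u).B (kE j.2)) (hU : ((H j.1).rot P.u).Un g) :
    cJ' (fun k => jSF P (H k)) j g = (((H j.1).rot P.u).ix (kE j.2) g : I) := by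
  rw [hU.ix hB]
  obtain ⟨k, e⟩ := j
  cases e <;> rfl

/-- the rest -/
lemma rj_eq (h0 : g ∈ jK0 P (fA j.1) (fB j.1) (G0 j.1)) (hU : (G0 j.1).Un g) :
    rJ (fun k => jT (G0 k)) j g = resA (G0 j.1) (kS j.2) g := by
  unfold rJ resA
  rw [aj_eq h0 hU, aj'_eq h0 hU, oppA_kS]

/-- the rest, read from the other end -/
lemma res_rev (G : Ga) (e : Bool) : resA G (kE e) g = pcut (resA G (kS e) g) 1 0 := by
  unfold resA
  rw [pcut_pcut ⟨zero_le_one, le_rfl⟩ ⟨le_rfl, zero_le_one⟩, oppA_kS, oppA_kE, one_mul, zero_mul, add_zero, add_sub_cancel]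

lemma res_X {G G' : Ga} {g' : CC.Gm} {e e' : Bool} (h : resA G (kS e) g = resA G' (kS e') g') (s : Bool) :
    resA G (kX s e) g = resA G' (kX s e') g' := by
  cases s
  · exact h
  · show resA G (kE e) g = resA G' (kE e') g'
    rw [res_rev, res_rev, h]

end

/-! ### 2. Durations -/

lemma duA_abs {k : Arm} {L : ℝ} {a b : I} (h : leA k a b) : L * |(b : ℝ) - a| = duA k L a b := by
  have h1 : ∀ {x y : I}, x ≤ y → L * |(y : ℝ) - x| = ((y : ℝ) - x) * L := fun {x y} hxy => by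
    rw [abs_of_nonneg (sub_nonneg.2 (Subtype.coe_le_coe.2 hxy)), mul_comm]
  have h2 : ∀ {x y : I}, y ≤ x → L * |(y : ℝ) - x| = ((x : ℝ) - y) * L := fun {x y} hxy => by
    rw [abs_sub_comm, abs_of_nonneg (sub_nonneg.2 (Subtype.coe_le_coe.2 hxy)), mul_comm]
  cases k
  · exact h1 h
  · exact h2 h
  · exact h1 h
  · exact h2 h

lemma leA_ne {k : Arm} {a b : I} (h : leA k a b) (hne : a ≠ b) : ltA k a b := by
  cases k
  · exact lt_of_le_of_ne h hne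
  · exact lt_of_le_of_ne h hne.symm
  · exact lt_of_le_of_ne h hne
  · exact lt_of_le_of_ne h hne.symm

lemma ltA_opp {k : Arm} {a b : I} (h : ltA k a b) : ltA (oppA k) b a := by cases k <;> exact h

/-! ### 3. One arc -/

section

variable {P : Prm} {i j i' j' : Fin 3} {G0 GR G0' GR' : Ga} {k k' : Arm} {g g' : CC.Gm}

/-- the two ends of the rest are far -/
lemma res_far (hP : P.Ok) (h1 : FgS P i j G0 GR k g) (h2 : FgS P i j G0 GR (oppA k) g) {D : ℝ}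
    (hD : D ≤ ‖g.2.2 (GR.ix (oppA k) g) - g.2.2 (GR.ix k g)‖) :
    D - (endA P k).k - 2 * (endA P (oppA k)).k ≤ ‖g.2.2 (G0.ix (oppA k) g) - g.2.2 (G0.ix k g)‖ := by
  have e1 : leA k (GR.ix (oppA k) g) (GR.ic (oppA k) g) := leA_oppH.1 h2.o2
  have e2 : leA k (GR.ic (oppA k) g) (G0.ix (oppA k) g) := leA_oppH.1 h2.o1
  have far := far_end (g := g.2.2) (L := g.1) (a := GR.ix k g) (b := GR.ix (oppA k) g) (c := G0.ix (oppA k) g)
    (w := GR.ic (oppA k) g) (e1.bt e2).comm h2.kc ((endA_okH hP (oppA k)).f.r2).le hD (G0.ix (oppA k) g) (BtI.right _ _)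
  have b1 := kcF_ball (h1.o1.bt h1.o2) h1.kc ((endA_okH hP k).f.r2).le (GR.ix k g) (BtI.right _ _)
  have e : g.2.2 (G0.ix (oppA k) g) - g.2.2 (GR.ix k g) =
      (g.2.2 (G0.ix (oppA k) g) - g.2.2 (G0.ix k g)) - (g.2.2 (GR.ix k g) - g.2.2 (G0.ix k g)) := by ring
  have n1 := norm_sub_le (g.2.2 (G0.ix (oppA k) g) - g.2.2 (G0.ix k g)) (g.2.2 (GR.ix k g) - g.2.2 (G0.ix k g))
  rw [← e] at n1
  linarith

/-- numbers -/
lemma bn_lt (hP : P.Ok) (a : Fin 3) (k : Arm) : 2 * (endA P k).s.bn + (endA P k).k + 2 * (endA P (oppA k)).k ≤ (wnA P a).D0 ∧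
    0 < (endA P k).s.bn := by
  have b2 := wnA_ok hP a
  have b3 := endA_add (P := P) (f := fun E => E.s.len) k
  obtain ⟨-, -, a3, a4, a5, a6, a7⟩ := end_nm (endA_okH hP k)
  obtain ⟨-, -, c3, c4, c5, c6, c7⟩ := end_nm (endA_okH hP (oppA k))
  have b4 := (endA_okH hP k).bn
  have b5 := (endA_okH hP k).f
  have b6 := (endA_okH hP k).ball
  have b7 := (endA_okH hP k).n
  exact ⟨by linarith, by linarith [b5.g64, b5.rr, b5.r, b5.r2, b7.r, b7.r2]⟩

lemma resA_one (G0 : Ga) (k : Arm) (g : CC.Gm) : (resA G0 k g).1 1 = g.2.2 (G0.ix (oppA k) g) - g.2.2 (G0.ix k g) := by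
  show cutp g.2.2 (G0.ix k g) (G0.ix (oppA k) g) 1 = _
  rw [cutp_apply]
  have e : ((G0.ix k g : I) : ℝ) + ((1 : I) : ℝ) * (((G0.ix (oppA k) g : I) : ℝ) - G0.ix k g) = (G0.ix (oppA k) g : I) := by
    rw [show ((1 : I) : ℝ) = 1 from rfl]
    ring
  rw [e, ex_coe, ex_coe]

/-- relative time -/
noncomputable def rlA (G0 GR : Ga) (k : Arm) (g : CC.Gm) : ℝ :=
  ((GR.ix k g : ℝ) - G0.ix k g) / ((G0.ix (oppA k) g : ℝ) - G0.ix k g)

lemma res_dur (h : resA G0 k g = resA G0' k' g') :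
    g.1 * |((G0.ix (oppA k) g : I) : ℝ) - G0.ix k g| = g'.1 * |((G0'.ix (oppA k') g' : I) : ℝ) - G0'.ix k' g'| :=
  congrArg Prod.snd h

lemma rlA_eq (h : resA G0 k g = resA G0' k' g') (hL : 0 < g.1) (hL' : 0 < g'.1) (o : ltA k (G0.ix k g) (G0.ix (oppA k) g))
    (o' : ltA k' (G0'.ix k' g') (G0'.ix (oppA k') g'))
    (tx : duA k' g'.1 (G0'.ix k' g') (GR'.ix k' g') = duA k g.1 (G0.ix k g) (GR.ix k g)) :
    rlA G0' GR' k' g' = rlA G0 GR k g := by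
  unfold rlA
  rw [duA_div _ o' hL', duA_div _ o hL, tx, res_dur h]

lemma rlA_mem (o : ltA k (G0.ix k g) (G0.ix (oppA k) g)) (h1 : leA k (G0.ix k g) (GR.ix k g))
    (h2 : leA k (GR.ix k g) (G0.ix (oppA k) g)) : rlA G0 GR k g ∈ Icc (0 : ℝ) 1 := by
  unfold rlA
  rw [leA_iff o] at h1 h2
  rw [sub_self, zero_div] at h1
  rw [div_self (ltA_ne o)] at h2
  exact ⟨h1, h2⟩

/-- the time from the relative time -/
lemma rlA_ix (o : ltA k (G0.ix k g) (G0.ix (oppA k) g)) :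
    ((G0.ix k g : I) : ℝ) + rlA G0 GR k g * (((G0.ix (oppA k) g : I) : ℝ) - G0.ix k g) = (GR.ix k g : I) := by
  unfold rlA
  rw [div_mul_cancel₀ _ (ltA_ne o)]
  ring

lemma rlA_ix' (o : ltA k (G0.ix k g) (G0.ix (oppA k) g)) :
    ((G0.ix k g : I) : ℝ) + (1 - rlA G0 GR (oppA k) g) * (((G0.ix (oppA k) g : I) : ℝ) - G0.ix k g) = (GR.ix (oppA k) g : I) := by
  have h := rlA_ix (G0 := G0) (GR := GR) (g := g) (k := oppA k) (by rw [oppA_opp]; exact ltA_opp o)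
  rw [oppA_opp] at h
  rw [← h]
  ring

/-- **order and windows of the arc pass** -/
theorem arw_loc (h : resA G0 k g = resA G0' k' g') (hL : 0 < g.1) (hL' : 0 < g'.1)
    (hc : clA i' j' k' = clA i j k) (o : ltA k (G0.ix k g) (G0.ix (oppA k) g))
    (o' : ltA k' (G0'.ix k' g') (G0'.ix (oppA k') g')) (F1 : FgS P i j G0 GR k g) (F2 : FgS P i j G0 GR (oppA k) g)
    (tx : duA k' g'.1 (G0'.ix k' g') (GR'.ix k' g') = duA k g.1 (G0.ix k g) (GR.ix k g))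
    (tx' : duA (oppA k') g'.1 (G0'.ix (oppA k') g') (GR'.ix (oppA k') g') =
      duA (oppA k) g.1 (G0.ix (oppA k) g) (GR.ix (oppA k) g)) (hw : ArW P i j GR k g) : ArW P i' j' GR' k' g' := by
  have hrev : resA G0 (oppA k) g = resA G0' (oppA k') g' := by
    unfold resA at h ⊢
    rw [oppA_opp, oppA_opp]
    have e1 : ∀ (p : Pie) (a b : ℝ), pcut p b a = pcut (pcut p a b) 1 0 := fun p a b => by
      rw [pcut_pcut ⟨zero_le_one, le_rfl⟩ ⟨le_rfl, zero_le_one⟩, one_mul, zero_mul, add_zero, add_sub_cancel]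
    rw [e1 (cl g), e1 (cl g'), h]
  have r1 : rlA G0' GR' k' g' = rlA G0 GR k g := rlA_eq h hL hL' o o' tx
  have r2 : rlA G0' GR' (oppA k') g' = rlA G0 GR (oppA k) g := rlA_eq hrev hL hL' (by rw [oppA_opp]; exact ltA_opp o)
    (by rw [oppA_opp]; exact ltA_opp o') tx'
  have m1 : rlA G0 GR k g ∈ Icc (0 : ℝ) 1 := rlA_mem o (F1.o1.trans F1.o2) F1.o3
  have m2 : rlA G0 GR (oppA k) g ∈ Icc (0 : ℝ) 1 := rlA_mem (by rw [oppA_opp]; exact ltA_opp o) (F2.o1.trans F2.o2) F2.o3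
  have m2' : 1 - rlA G0 GR (oppA k) g ∈ Icc (0 : ℝ) 1 := ⟨by linarith [m2.2], by linarith [m2.1]⟩
  have p1 : pcut (cl g) (GR.ix k g) (GR.ix (oppA k) g) = pcut (cl g') (GR'.ix k' g') (GR'.ix (oppA k') g') := by
    rw [← rlA_ix (GR := GR) o, ← rlA_ix' (GR := GR) o, ← rlA_ix (GR := GR') o', ← rlA_ix' (GR := GR') o', r1, r2,
      ← pcut_pcut m1 m2', ← pcut_pcut m1 m2']
    exact congrArg (fun p => pcut p _ _) h
  have q1 : cutc g.2.2 (GR.ix k g) (GR.ix (oppA k) g) = cutc g'.2.2 (GR'.ix k' g') (GR'.ix (oppA k') g') := by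
    rw [cutc_eq, cutc_eq]
    exact congrArg Prod.fst p1
  have q2 : g.1 * |((GR.ix (oppA k) g : I) : ℝ) - GR.ix k g| = g'.1 * |((GR'.ix (oppA k') g' : I) : ℝ) - GR'.ix k' g'| :=
    congrArg Prod.snd p1
  refine ⟨?_, ?_⟩
  · have h1 := (leA_iff o).1 hw.o
    rw [leA_iff o', ← rlA_ix (GR := GR') o', ← rlA_ix' (GR := GR') o', r1, r2]
    rw [← rlA_ix (GR := GR) o, ← rlA_ix' (GR := GR) o] at h1
    rw [add_sub_cancel_left, add_sub_cancel_left, mul_div_assoc, mul_div_assoc, div_self (ltA_ne o)] at h1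
    rw [add_sub_cancel_left, add_sub_cancel_left, mul_div_assoc, mul_div_assoc, div_self (ltA_ne o')]
    exact h1
  · have h2 := hw.w
    unfold wiF at h2 ⊢
    rw [hc, ← q1]
    have e1 : duL (wnA P (clA i j k)).t0 g.1 (GR.ix k g) (GR.ix (oppA k) g) =
        duL (wnA P (clA i j k)).t0 g'.1 (GR'.ix k' g') (GR'.ix (oppA k') g') := by
      unfold duL
      rw [mul_comm, q2, mul_comm]
    have e2 : duU (wnA P (clA i j k)).t1 g.1 (GR.ix k g) (GR.ix (oppA k) g) =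
        duU (wnA P (clA i j k)).t1 g'.1 (GR'.ix k' g') (GR'.ix (oppA k') g') := by
      unfold duU
      rw [mul_comm, q2, mul_comm]
    rw [← e1, ← e2]
    exact h2

end

/-! ### 4. All places -/

/-- **hypothesis `loc` of `cls3`** (`JLoc` of helper4) from the locality of the gates at the two ends of the rests (existence and times) -/
theorem jloc_of {P : Prm} {G0 H : Fin 3 → Ga} (hP : P.Ok) {R0 : ℝ}
    (hR0 : ∀ (a : Fin 3) (k : Arm), R0 + (endA P k).k + 2 * (endA P (oppA k)).k ≤ (wnA P a).D0) {G : J3 → Set CC.Gm}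
    (hG : ∀ j, ∀ g ∈ G j, 0 < g.1 ∧ (G0 j.1).Un g ∧ ((H j.1).rot P.u).Un g)
    (H2 : ∀ (j j' : J3) (s : Bool), cl3 j = cl3 j' → ∀ g ∈ G j, ∀ g' ∈ G j', ∀ e e' : I,
      pcut (resA (G0 j.1) (kX s j.2) g) 0 e = pcut (resA (G0 j'.1) (kX s j'.2) g') 0 e' →
      (∀ t : I, e ≤ t → R0 ≤ ‖(resA (G0 j.1) (kX s j.2) g).1 t‖) →
      (∀ t : I, e' ≤ t → R0 ≤ ‖(resA (G0 j'.1) (kX s j'.2) g').1 t‖) →
      FgS P (fA j.1) (fB j.1) (G0 j.1) ((H j.1).rot P.u) (kX s j.2) g →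
      g' ∈ ((H j'.1).rot P.u).B (kX s j'.2) ∧
        duA (kX s j'.2) g'.1 ((G0 j'.1).ix (kX s j'.2) g') (((H j'.1).rot P.u).ic (kX s j'.2) g') =
          duA (kX s j.2) g.1 ((G0 j.1).ix (kX s j.2) g) (((H j.1).rot P.u).ic (kX s j.2) g) ∧
        duA (kX s j'.2) g'.1 ((G0 j'.1).ix (kX s j'.2) g') (((H j'.1).rot P.u).ix (kX s j'.2) g') =
          duA (kX s j.2) g.1 ((G0 j.1).ix (kX s j.2) g) (((H j.1).rot P.u).ix (kX s j.2) g)) :
    ∀ j j', cl3 j = cl3 j' → ∀ g ∈ G j, ∀ g' ∈ G j', jw0 P (fA j.1) (fB j.1) (G0 j.1) g ≠ 0 →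
      jw0 P (fA j'.1) (fB j'.1) (G0 j'.1) g' ≠ 0 → rJ (fun k => jT (G0 k)) j g = rJ (fun k => jT (G0 k)) j' g' →
      g ∈ FJ (fun k => jF1 P (fA k) (fB k) (G0 k) (H k)) (fun k => jF2 P (fA k) (fB k) (G0 k) (H k)) j →
      g' ∈ FJ (fun k => jF1 P (fA k) (fB k) (G0 k) (H k)) (fun k => jF2 P (fA k) (fB k) (G0 k) (H k)) j' ∧
        g.1 * |cJ (fun k => jSF P (H k)) j g - aJ (fun k => jT (G0 k)) j g| =
          g'.1 * |cJ (fun k => jSF P (H k)) j' g' - aJ (fun k => jT (G0 k)) j' g'| ∧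
        g.1 * |aJ' (fun k => jT (G0 k)) j g - cJ' (fun k => jSF P (H k)) j g| =
          g'.1 * |aJ' (fun k => jT (G0 k)) j' g' - cJ' (fun k => jSF P (H k)) j' g'| := by
  intro j j' hj g hg g' hg' hw hw' hr hF
  obtain ⟨hL, hU, hV⟩ := hG j g hg
  obtain ⟨hL', hU', hV'⟩ := hG j' g' hg'
  have h0 := jw0_mem hw
  have h0' := jw0_mem hw'
  obtain ⟨F1, F2, hW⟩ := fj_iff.1 hF
  rw [rj_eq h0 hU, rj_eq h0' hU'] at hr
  have hX := res_X hr
  have hr2 : resA (G0 j.1) (kE j.2) g = resA (G0 j'.1) (kE j'.2) g' := hX true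
  -- the ends of the rests
  have hk : ∀ s : Bool, FgS P (fA j.1) (fB j.1) (G0 j.1) ((H j.1).rot P.u) (kX s j.2) g := fun s => by
    cases s
    · exact F1
    · exact F2
  have hopp : ∀ s e : Bool, oppA (kX s e) = kX (!s) e := fun s e => by cases s <;> cases e <;> rfl
  have hfar : ∀ s : Bool, (wnA P (cl3 j)).D0 - (endA P (kX s j.2)).k - 2 * (endA P (oppA (kX s j.2))).k ≤
      ‖g.2.2 ((G0 j.1).ix (oppA (kX s j.2)) g) - g.2.2 ((G0 j.1).ix (kX s j.2) g)‖ := fun s => by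
    refine res_far hP (hk s) (by rw [hopp]; exact hk _) ?_
    have h1 := wiF_farH hW.w
    have h2 : clA (fA j.1) (fB j.1) (kS j.2) = cl3 j := clA_X false
    rw [h2, oppA_kS] at h1
    cases s
    · show _ ≤ ‖g.2.2 (((H j.1).rot P.u).ix (oppA (kS j.2)) g) - g.2.2 (((H j.1).rot P.u).ix (kS j.2) g)‖
      rw [oppA_kS]
      exact h1
    · show _ ≤ ‖g.2.2 (((H j.1).rot P.u).ix (oppA (kE j.2)) g) - g.2.2 (((H j.1).rot P.u).ix (kE j.2) g)‖
      rw [oppA_kE, norm_sub_rev]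
      exact h1
  have ho : ∀ s : Bool, ltA (kX s j.2) ((G0 j.1).ix (kX s j.2) g) ((G0 j.1).ix (oppA (kX s j.2)) g) := fun s => by
    refine leA_ne (((hk s).o1.trans (hk s).o2).trans (hk s).o3) fun h => ?_
    have h1 := hfar s
    obtain ⟨h2, h3⟩ := bn_lt hP (cl3 j) (kX s j.2)
    rw [← h, sub_self, norm_zero] at h1
    linarith
  have hne : (G0 j'.1).ix (kS j'.2) g' ≠ (G0 j'.1).ix (kE j'.2) g' := fun h => by
    have h1 := res_dur hr
    rw [oppA_kS, oppA_kS, h, sub_self, abs_zero, mul_zero] at h1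
    have h2 := ltA_ne (ho false)
    have h3 : 0 < g.1 * |(((G0 j.1).ix (kE j.2) g : I) : ℝ) - (G0 j.1).ix (kS j.2) g| := mul_pos hL (abs_pos.2 (by
      have : oppA (kX false j.2) = kE j.2 := oppA_kS _
      rw [this] at h2
      exact h2))
    exact h3.ne' h1
  have ho' : ∀ s : Bool, ltA (kX s j'.2) ((G0 j'.1).ix (kX s j'.2) g') ((G0 j'.1).ix (oppA (kX s j'.2)) g') := fun s => by
    have h1 := leA_ne (jK0_ord h0' j'.2) hne
    cases s
    · show ltA (kS j'.2) ((G0 j'.1).ix (kS j'.2) g') ((G0 j'.1).ix (oppA (kS j'.2)) g')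
      rw [oppA_kS]
      exact h1
    · show ltA (kE j'.2) ((G0 j'.1).ix (kE j'.2) g') ((G0 j'.1).ix (oppA (kE j'.2)) g')
      have h2 := ltA_opp h1
      rw [oppA_kS] at h2
      rw [oppA_kE]
      exact h2
  have one : ∀ {t : I}, 1 ≤ t → t = 1 := fun {t} ht => le_antisymm le_one' ht
  have f0 : ∀ (s : Bool) (R : ℝ), R + (endA P (kX s j.2)).k + 2 * (endA P (oppA (kX s j.2))).k ≤ (wnA P (cl3 j)).D0 →
      ∀ t : I, 1 ≤ t → R ≤ ‖(resA (G0 j.1) (kX s j.2) g).1 t‖ := fun s R hR t ht => by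
    rw [one ht, resA_one]
    linarith [hfar s]
  have f0' : ∀ (s : Bool) (R : ℝ), R + (endA P (kX s j.2)).k + 2 * (endA P (oppA (kX s j.2))).k ≤ (wnA P (cl3 j)).D0 →
      ∀ t : I, 1 ≤ t → R ≤ ‖(resA (G0 j'.1) (kX s j'.2) g').1 t‖ := fun s R hR t ht => by
    rw [← hX s]
    exact f0 s R hR t ht
  have he : ∀ s : Bool, pcut (resA (G0 j.1) (kX s j.2) g) 0 ((1 : I) : ℝ) = pcut (resA (G0 j'.1) (kX s j'.2) g') 0 ((1 : I) : ℝ) :=
    fun s => by rw [hX s]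
  have key : ∀ s : Bool, FgS P (fA j'.1) (fB j'.1) (G0 j'.1) ((H j'.1).rot P.u) (kX s j'.2) g' ∧
      duA (kX s j'.2) g'.1 ((G0 j'.1).ix (kX s j'.2) g') (((H j'.1).rot P.u).ix (kX s j'.2) g') =
        duA (kX s j.2) g.1 ((G0 j.1).ix (kX s j.2) g) (((H j.1).rot P.u).ix (kX s j.2) g) := fun s => by
    obtain ⟨q1, q2, q3⟩ := H2 j j' s hj g hg g' hg' 1 1 (he s) (f0 s R0 (hR0 _ _)) (f0' s R0 (hR0 _ _)) (hk s)
    refine ⟨?_, q3⟩
    refine (fgZ_loc (R0 := 2 * (endA P (kX s j.2)).s.bn) (endA_okH hP _) ?_ le_rfl ?_ ?_ ?_ hL hL' (ho s) (ho' s) (he s)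
      (f0 s _ (bn_lt hP _ _).1) (f0' s _ (bn_lt hP _ _).1) (hk s) q1 q2 q3).2
    · rw [norm_mul, hP.u, dirA_nmH, one_mul]
    · rw [dirA_X, dirA_X, hj]
    · rw [endA_X, endA_X]
    · rw [clA_X, clA_X, hj]
      exact id
  have kS' : FgS P (fA j'.1) (fB j'.1) (G0 j'.1) ((H j'.1).rot P.u) (kS j'.2) g' ∧
      duA (kS j'.2) g'.1 ((G0 j'.1).ix (kS j'.2) g') (((H j'.1).rot P.u).ix (kS j'.2) g') =
        duA (kS j.2) g.1 ((G0 j.1).ix (kS j.2) g) (((H j.1).rot P.u).ix (kS j.2) g) := key false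
  have kE' : FgS P (fA j'.1) (fB j'.1) (G0 j'.1) ((H j'.1).rot P.u) (kE j'.2) g' ∧
      duA (kE j'.2) g'.1 ((G0 j'.1).ix (kE j'.2) g') (((H j'.1).rot P.u).ix (kE j'.2) g') =
        duA (kE j.2) g.1 ((G0 j.1).ix (kE j.2) g) (((H j.1).rot P.u).ix (kE j.2) g) := key true
  refine ⟨fj_iff.2 ⟨kS'.1, kE'.1, arw_loc hr hL hL' ?_ (ho false) (ho' false) F1 ?_ kS'.2 ?_ hW⟩, ?_, ?_⟩
  · rw [show kS j'.2 = kX false j'.2 from rfl, show kS j.2 = kX false j.2 from rfl, clA_X, clA_X, hj]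
  · rw [oppA_kS]
    exact F2
  · rw [oppA_kS, oppA_kS]
    exact kE'.2
  · rw [cj_eq F1.e hV, aj_eq h0 hU, cj_eq kS'.1.e hV', aj_eq h0' hU', duA_abs (F1.o1.trans F1.o2),
      duA_abs (kS'.1.o1.trans kS'.1.o2)]
    exact kS'.2.symm
  · rw [cj'_eq F2.e hV, aj'_eq h0 hU, cj'_eq kE'.1.e hV', aj'_eq h0' hU', abs_sub_comm, abs_sub_comm (((G0 j'.1).ix (kE j'.2) g' : I) : ℝ),
      duA_abs (F2.o1.trans F2.o2), duA_abs (kE'.1.o1.trans kE'.1.o2)]
    exact kE'.2.symm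

end Pool.Agent.ROT.F3.CK
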