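import Pool.Agent.ROT.F3BetaC
import Pool.Agent.ROT.F3HexW

/-!
# ROT / F3BetaH (helper56): the limits of the laws of the rests in the form of F3HexW

* `bW_eq` : `bW Rs w c (arW v s T)` is the turned `rm c s T Rs w`;
* `fm_of` : weak limits as limits of `FiniteMeasure`;
* **`bW_rst`**, **`bW_man`** : the laws of the rests (main arcs) of F3Cls, turned by `v`, converge along `U` as finite measures; a.e. the
  curve turned back is simple and in the closed class.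
-/

set_option autoImplicit false

open MeasureTheory Filter Topology
open scoped ENNReal NNReal Classical BoundedContinuousFunction

namespace Pool.Agent.ROT.F3.Bt

/-- the turn -/
lemma turn_cont (v : ℂ) : Continuous fun x : CI3 × ℝ => (v • x.1, x.2) := (continuous_fst.const_smul v).prodMk continuous_snd

lemma bW_eq (c : ℝ≥0∞) (v : ℂ) (s T : ℝ) (Rs : Set W3) (w : W3 → ℝ) :
    bW Rs (fun R => ENNReal.ofReal (w R)) c (arW v s T) = (rm c s T Rs w).map fun x => (v • x.1, x.2) := by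
  unfold bW rm
  rw [Measure.map_sum (turn_cont v).measurable.aemeasurable]
  congr 1
  ext1 R
  rw [Measure.map_smul, Measure.map_dirac' (turn_cont v).measurable]
  congr 1
  split_ifs
  · rfl
  · rw [mul_zero]

/-- limits of finite measures -/
lemma fm_of {X ι : Type*} [MetricSpace X] [MeasurableSpace X] [BorelSpace X] {l : Filter ι} {b : ι → Measure X} {m : Measure X}
    (hf : ∀ᶠ N in l, IsFiniteMeasure (b N)) (hm : IsFiniteMeasure m)
    (h : ∀ g : X →ᵇ ℝ, Tendsto (fun N => ∫ x, g x ∂(b N)) l (𝓝 (∫ x, g x ∂m))) :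
    ∃ (bN : ι → FiniteMeasure X) (β : FiniteMeasure X), (∀ᶠ N in l, (bN N : Measure X) = b N) ∧ (β : Measure X) = m ∧
      Tendsto bN l (𝓝 β) := by
  have h1 : ∀ N, ∃ β : FiniteMeasure X, IsFiniteMeasure (b N) → (β : Measure X) = b N := by
    intro N
    by_cases hN : IsFiniteMeasure (b N)
    · exact ⟨⟨b N, hN⟩, fun _ => rfl⟩
    · exact ⟨0, fun h => absurd h hN⟩
  choose bN hbN using h1
  obtain ⟨β, hβ⟩ : ∃ β : FiniteMeasure X, (β : Measure X) = m := ⟨⟨m, hm⟩, rfl⟩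
  have e : ∀ᶠ N in l, (bN N : Measure X) = b N := hf.mono fun N hN => hbN N hN
  refine ⟨bN, β, e, hβ, ?_⟩
  rw [FiniteMeasure.tendsto_iff_forall_integral_tendsto]
  intro g
  rw [hβ]
  refine (h g).congr' ?_
  filter_upwards [e] with N hN
  rw [hN]

section lim

variable {P Q : Tp} {W : Wn} (hP : 0 < P.rg) (hQ : 0 < Q.rg) (hD : 0 < W.D0) (ht : 0 < W.t1) {i j : Fin 3} {Rs : ℕ → Set W3}
  {w : ℕ → W3 → ℝ} (hw : ∀ᶠ N in atTop, ∀ R ∈ Rs N, w N R ≤ 1) (U : Ultrafilter ℕ) (hU : (U : Filter ℕ) ≤ atTop) (v : ℂ)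

include hP hQ hD ht hw hU

/-- **the rests, turned** -/
theorem bW_rst (hR : ∀ᶠ N : ℕ in atTop, Rs N ⊆ Rst (ev i) (ev j) P Q W N (uT N)) :
    ∃ (m : Measure (CI3 × ℝ)) (bN : ℕ → FiniteMeasure (CI3 × ℝ)) (β : FiniteMeasure (CI3 × ℝ)),
      WLim (U : Filter ℕ) (fun N => rm (cb N) N (uT N) (Rs N) (w N)) m ∧
      (∀ g : (CI3 × ℝ) →ᵇ ℝ, Tendsto (fun N => ∫ x, g x ∂(rm (cb N) N (uT N) (Rs N) (w N))) U (𝓝 (∫ x, g x ∂m))) ∧
      (∀ᵐ x ∂m, Function.Injective x.1 ∧ x.1 ∈ ClR (ev i) (ev j) P Q W ∧ W.t0 ≤ x.2 ∧ x.2 ≤ W.t1 ∧ 0 ≤ x.2) ∧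
      (∀ᶠ N : ℕ in (U : Filter ℕ), (bN N : Measure (CI3 × ℝ)) =
        bW (Rs N) (fun R => ENNReal.ofReal (w N R)) (cb N) (arW v N (uT N))) ∧
      (β : Measure (CI3 × ℝ)) = m.map (fun x => (v • x.1, x.2)) ∧ Tendsto bN U (𝓝 β) := by
  obtain ⟨m, h1, h2, h3⟩ := rst_lim hP hQ hD ht hw U hU hR
  have := h1.fβ
  obtain ⟨bN, β, e1, e2, e3⟩ := fm_of (l := (U : Filter ℕ))
    (b := fun N : ℕ => bW (Rs N) (fun R => ENNReal.ofReal (w N R)) (cb N) (arW v N (uT N)))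
    (m := m.map fun x => (v • x.1, x.2)) (by
      filter_upwards [h1.fb] with N hN
      rw [bW_eq]
      infer_instance) inferInstance (fun g => by
      have h4 := lim_turn v h2 g
      refine h4.congr fun N => ?_
      rw [bW_eq, integral_map (turn_cont v).measurable.aemeasurable g.continuous.measurable.aestronglyMeasurable])
  exact ⟨m, bN, β, h1, h2, h3, e1, e2, e3⟩

/-- **the main arcs, turned** -/
theorem bW_man {s s' : Sr} (hR : ∀ᶠ N : ℕ in atTop, Rs N ⊆ Man (ev i) (ev j) P Q W s s' N (uT N)) :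
    ∃ (m : Measure (CI3 × ℝ)) (bN : ℕ → FiniteMeasure (CI3 × ℝ)) (β : FiniteMeasure (CI3 × ℝ)),
      WLim (U : Filter ℕ) (fun N => rm (cb N) N (uT N) (Rs N) (w N)) m ∧
      (∀ g : (CI3 × ℝ) →ᵇ ℝ, Tendsto (fun N => ∫ x, g x ∂(rm (cb N) N (uT N) (Rs N) (w N))) U (𝓝 (∫ x, g x ∂m))) ∧
      (∀ᵐ x ∂m, Function.Injective x.1 ∧ x.1 ∈ ClM (ev i) (ev j) P Q W s s' ∧ W.t0 ≤ x.2 ∧ x.2 ≤ W.t1 ∧ 0 ≤ x.2) ∧
      (∀ᶠ N : ℕ in (U : Filter ℕ), (bN N : Measure (CI3 × ℝ)) =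
        bW (Rs N) (fun R => ENNReal.ofReal (w N R)) (cb N) (arW v N (uT N))) ∧
      (β : Measure (CI3 × ℝ)) = m.map (fun x => (v • x.1, x.2)) ∧ Tendsto bN U (𝓝 β) := by
  obtain ⟨m, h1, h2, h3⟩ := man_lim hP hQ hD ht hw U hU hR
  have := h1.fβ
  obtain ⟨bN, β, e1, e2, e3⟩ := fm_of (l := (U : Filter ℕ))
    (b := fun N : ℕ => bW (Rs N) (fun R => ENNReal.ofReal (w N R)) (cb N) (arW v N (uT N)))
    (m := m.map fun x => (v • x.1, x.2)) (by
      filter_upwards [h1.fb] with N hN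
      rw [bW_eq]
      infer_instance) inferInstance (fun g => by
      have h4 := lim_turn v h2 g
      refine h4.congr fun N => ?_
      rw [bW_eq, integral_map (turn_cont v).measurable.aemeasurable g.continuous.measurable.aestronglyMeasurable])
  exact ⟨m, bN, β, h1, h2, h3, e1, e2, e3⟩

end lim

end Pool.Agent.ROT.F3.Bt
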