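import Pool.Agent.ROT.F3TopI
import Pool.Agent.ROT.F3BetaU
import Pool.Agent.ROT.F3BetaH
import Pool.Agent.ROT.F3BetaL

/-!
# ROT, F3, row Core (helper17): the limits of the rests and of the arcs of the three classes

* `wnd P a`, `rcl P a N`, `acl P a N` : window, rests (first lattice) and arcs (second lattice) of the class `a`;
* `ClsL V P β b` : the limits along `V`; **`clsL_ex`** : they exist, and are `m`, `b` for the class `0`;
* **`ClsL.rN`**, **`ClsL.aN`** : the same as finite measures, turned by `v`, in the form of `L3In`.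
-/

set_option autoImplicit false

open MeasureTheory Filter Topology Finset
open scoped ENNReal NNReal BoundedContinuousFunction

namespace Pool.Agent.ROT.F3E

open Pool.Agent.ROT.F3 Pool.Agent.ROT.F3.CC Pool.Agent.ROT.F3.Bt

/-- the window of the arcs of the class `a` -/
noncomputable def wnd (P : Prm) (a : Fin 3) : Pool.Agent.ROT.F3.Wn := if a = 0 then P.W else P.Wc

/-- the rests of the class `a`, first lattice -/
noncomputable def rcl (P : Prm) (a : Fin 3) (N : ℕ) : Set W3 := P.R0 a (wnd P a) N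

/-- the arcs of the class `a`, second lattice -/
noncomputable def acl (P : Prm) (a : Fin 3) (N : ℕ) : Set W3 := if a = 0 then P.A0 N else P.Ac a N

lemma wnd_zero (P : Prm) : wnd P 0 = P.W := if_pos rfl

lemma wnd_ne (P : Prm) {a : Fin 3} (h : a ≠ 0) : wnd P a = P.Wc := if_neg h

lemma rcl_zero (P : Prm) : rcl P 0 = P.R0 0 P.W := by
  funext N
  unfold rcl
  rw [wnd_zero]

lemma acl_zero (P : Prm) : acl P 0 = P.A0 := by
  funext N
  exact if_pos rfl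

lemma acl_ne (P : Prm) {a : Fin 3} (h : a ≠ 0) : acl P a = P.Ac a := by
  funext N
  exact if_neg h

/-- the arcs of every class are rests of the second lattice -/
lemma acl_sub (P : Prm) (a : Fin 3) (N : ℕ) : acl P a N ⊆ Rst (ev a) (ev (-a)) P.p.f P.q.f (wnd P a) N (uT N) := by
  by_cases h : a = 0
  · subst h
    rw [acl_zero, wnd_zero, neg_zero]
    exact fun R hR => MnQ.q hR
  · rw [acl_ne P h, wnd_ne P h]
    exact fun R hR => hR

/-- **the limits of the rests and of the arcs of the classes** -/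
structure ClsL (V : Ultrafilter ℕ) (P : Prm) (β b : Fin 3 → Measure Pie) : Prop where
  wβ : ∀ a, WLim (V : Filter ℕ) (fun N => rm (cb N) N (uT N) (rcl P a N) fun _ => 1) (β a)
  wb : ∀ a, WLim (V : Filter ℕ) (fun N => rm (cb N) N (uT N) (acl P a N) fun _ => 1) (b a)
  nβ : ∀ a, β a ≠ 0
  nb : ∀ a, b a ≠ 0

lemma ClsL.fβ {V : Ultrafilter ℕ} {P : Prm} {β b : Fin 3 → Measure Pie} (H : ClsL V P β b) (a : Fin 3) : IsFiniteMeasure (β a) :=
  (H.wβ a).fβ

lemma ClsL.fb {V : Ultrafilter ℕ} {P : Prm} {β b : Fin 3 → Measure Pie} (H : ClsL V P β b) (a : Fin 3) : IsFiniteMeasure (b a) :=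
  (H.wb a).fβ

/-- two limits in the form `RLim` agree -/
lemma rlim_wlim {V : Ultrafilter ℕ} {Rs : ℕ → Set W3} {m m' : Measure Pie} [IsFiniteMeasure m] (h : RLim V Rs m)
    (h' : WLim (V : Filter ℕ) (fun N => rm (cb N) N (uT N) (Rs N) fun _ => 1) m') : m = m' := by
  have := h'.fβ
  refine WLim.uniq (l := (V : Filter ℕ)) (b := fun N => rm (cb N) N (uT N) (Rs N) fun _ => 1) ?_ h'
  refine ⟨inferInstance, h'.fb, fun f hf hK => ?_⟩
  obtain ⟨K, hK⟩ := hK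
  obtain ⟨g, hg⟩ : ∃ g : Pie →ᵇ ℝ, ∀ x, g x = f x := by
    refine ⟨BoundedContinuousFunction.ofNormedAddCommGroup f hK.continuous 1 fun x => ?_, fun x => rfl⟩
    rw [Real.norm_eq_abs, abs_le]
    exact ⟨by linarith [(hf x).1], (hf x).2⟩
  have h1 := h g
  simpa only [hg] using h1

section

variable {P : Prm} (h : P.Ok)

include h

lemma pos_prm (a : Fin 3) : 0 < P.p.n.rg ∧ 0 < P.q.n.rg ∧ 0 < P.p.f.rg ∧ 0 < P.q.f.rg ∧ 0 < (P.wd (wnd P a)).D0 ∧
    0 < (P.wd (wnd P a)).t1 ∧ 0 < (wnd P a).D0 ∧ 0 < (wnd P a).t1 := by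
  have g1 : ∀ {T : Tp}, T.Ok → 0 < T.rg := fun {T} hT => by linarith [hT.rg, hT.r, hT.r2]
  have h1 := h.far
  have h1' := h.farc
  have h2 := h.p.f.r
  have h3 := h.p.f.r2
  have h4 := h.q.f.r
  have h5 := h.q.f.r2
  have h6 := h.p.rk
  have h7 := h.q.rk
  have e1 : P.p.k = P.p.rk + P.p.f.r2 := rfl
  have e2 : P.q.k = P.q.rk + P.q.f.r2 := rfl
  have l1 := h.p.lk
  have l2 := h.q.lk
  have t0 := h.t0
  have t1 := h.t1
  have t1c := h.t1c
  have key : ∀ W : Pool.Agent.ROT.F3.Wn, W = P.W ∨ W = P.Wc → 0 < W.D0 - (P.p.k + P.q.k) ∧ 0 < W.t1 + (P.p.lk + P.q.lk) ∧ 0 < W.D0 ∧ 0 < W.t1 := by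
    rintro W (rfl | rfl)
    · refine ⟨?_, ?_, ?_, ?_⟩ <;> linarith
    · refine ⟨?_, ?_, ?_, ?_⟩ <;> linarith
  have hw : wnd P a = P.W ∨ wnd P a = P.Wc := by
    by_cases ha : a = 0
    · subst ha
      exact Or.inl (wnd_zero P)
    · exact Or.inr (wnd_ne P ha)
  obtain ⟨k1, k2, k3, k4⟩ := key _ hw
  exact ⟨g1 h.p.n, g1 h.q.n, g1 h.p.f, g1 h.q.f, k1, k2, k3, k4⟩

/-- **the limits exist** -/
theorem clsL_ex {V : Ultrafilter ℕ} (hV : (V : Filter ℕ) ≤ atTop) {c : ℝ} (hc : 0 < c)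
    (mass : ∀ᶠ N : ℕ in atTop, ENNReal.ofReal (c * (N : ℝ) ^ (3 / 4 : ℝ)) ≤ ms (P.A0 N) 1 ∧
      ENNReal.ofReal (c * (N : ℝ) ^ (3 / 4 : ℝ)) ≤ ms (P.R0 0 P.W N) 1) {m b : Measure Pie} [IsFiniteMeasure m]
    [IsFiniteMeasure b] (hm : RLim V (P.R0 0 P.W) m) (hb : RLim V P.A0 b) :
    ∃ β b' : Fin 3 → Measure Pie, β 0 = m ∧ b' 0 = b ∧ ClsL V P β b' := by
  have hw : ∀ Rs : ℕ → Set W3, ∀ᶠ N in atTop, ∀ R ∈ Rs N, (fun _ _ => (1 : ℝ)) N R ≤ 1 := fun Rs =>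
    Eventually.of_forall fun N R _ => le_rfl
  have lowR : ∀ a : Fin 3, ∃ c : ℝ, 0 < c ∧ ∀ᶠ N : ℕ in atTop,
      ENNReal.ofReal (c * (N : ℝ) ^ (3 / 4 : ℝ)) ≤ ms (acl P a N) 1 ∧
      ENNReal.ofReal (c * (N : ℝ) ^ (3 / 4 : ℝ)) ≤ ms (rcl P a N) 1 := by
    intro a
    by_cases ha : a = 0
    · subst ha
      rw [acl_zero, rcl_zero]
      exact ⟨c, hc, mass⟩
    · obtain ⟨c', h1, h2⟩ := beta_Ac h a
      refine ⟨c', h1, h2.mono fun N hN => ?_⟩
      rw [acl_ne P ha]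
      unfold rcl
      rw [wnd_ne P ha]
      exact hN
  have R : ∀ a : Fin 3, ∃ β : Measure Pie, WLim (V : Filter ℕ) (fun N => rm (cb N) N (uT N) (rcl P a N) fun _ => 1) β := fun a => by
    obtain ⟨k1, k2, k3, k4, k5, k6, k7, k8⟩ := pos_prm h a
    obtain ⟨β, h1, -, -⟩ := rst_lim k1 k2 k5 k6 (hw fun N => rcl P a N) V hV (i := a) (j := -a) (Eventually.of_forall fun N R hR => hR)
    exact ⟨β, h1⟩
  have A : ∀ a : Fin 3, ∃ β : Measure Pie, WLim (V : Filter ℕ) (fun N => rm (cb N) N (uT N) (acl P a N) fun _ => 1) β := fun a => by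
    obtain ⟨k1, k2, k3, k4, k5, k6, k7, k8⟩ := pos_prm h a
    obtain ⟨β, h1, -, -⟩ := rst_lim k3 k4 k7 k8 (hw fun N => acl P a N) V hV (i := a) (j := -a)
      (Eventually.of_forall fun N => acl_sub P a N)
    exact ⟨β, h1⟩
  choose β hβ using R
  choose b' hb' using A
  have ne : ∀ {Rs : ℕ → Set W3} {μ : Measure Pie}, WLim (V : Filter ℕ) (fun N => rm (cb N) N (uT N) (Rs N) fun _ => 1) μ →
      ∀ {c : ℝ}, 0 < c → (∀ᶠ N : ℕ in atTop, ENNReal.ofReal (c * (N : ℝ) ^ (3 / 4 : ℝ)) ≤ ms (Rs N) 1) → μ ≠ 0 := by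
    intro Rs μ hμ c hc hl
    refine wlim_ne hμ hc ?_
    filter_upwards [hV hl, hV (eventually_gt_atTop 0)] with N h1 h2
    exact rm_low h2 h1
  refine ⟨β, b', ?_, ?_, hβ, hb', fun a => ?_, fun a => ?_⟩
  · refine (rlim_wlim hm ?_).symm
    have := hβ 0
    rwa [rcl_zero] at this
  · refine (rlim_wlim hb ?_).symm
    have := hb' 0
    rwa [acl_zero] at this
  · obtain ⟨c, h1, h2⟩ := lowR a
    exact ne (hβ a) h1 (h2.mono fun N hN => hN.2)
  · obtain ⟨c, h1, h2⟩ := lowR a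
    exact ne (hb' a) h1 (h2.mono fun N hN => hN.1)

variable {V : Ultrafilter ℕ} (hV : (V : Filter ℕ) ≤ atTop) {β b : Fin 3 → Measure Pie} (H : ClsL V P β b)

include hV H

/-- the rests are simple curves -/
lemma ClsL.inj (a : Fin 3) : ∀ᵐ x ∂(β a), Function.Injective x.1 := by
  obtain ⟨k1, k2, k3, k4, k5, k6, k7, k8⟩ := pos_prm h a
  filter_upwards [rst_inj k1 k2 k5 k6 (Eventually.of_forall fun N R _ => le_rfl) hV (H.wβ a) (i := a) (j := -a)
    (Eventually.of_forall fun N R hR => hR)] with x hx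
  exact hx.1

/-- **the rests as finite measures, turned by `v`** -/
theorem ClsL.rN (v : ℂ) (a : Fin 3) : ∃ (bN : ℕ → FiniteMeasure Pie) (βF : FiniteMeasure Pie),
    (∀ᶠ N : ℕ in (V : Filter ℕ), (bN N : Measure Pie) =
      bW (rcl P a N) (fun _ => 1) (ENNReal.ofReal ((N : ℝ) ^ (-(3 / 4) : ℝ))) (arW v N (uT N))) ∧
    (βF : Measure Pie) = (β a).map (trn v) ∧ Tendsto bN V (𝓝 βF) := by
  obtain ⟨k1, k2, k3, k4, k5, k6, k7, k8⟩ := pos_prm h a
  obtain ⟨m, bN, βF, h1, h2, h3, h4, h5, h6⟩ := bW_rst k1 k2 k5 k6 (w := fun _ _ => 1) (Rs := fun N => rcl P a N)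
    (Eventually.of_forall fun N R _ => le_rfl) V hV v (i := a) (j := -a) (Eventually.of_forall fun N R hR => hR)
  rw [WLim.uniq h1 (H.wβ a)] at h5
  refine ⟨bN, βF, h4.mono fun N hN => ?_, h5, h6⟩
  rw [hN, ENNReal.ofReal_one]
  rfl

/-- **the arcs as finite measures, turned by `v`** -/
theorem ClsL.aN (v : ℂ) (a : Fin 3) : ∃ (bN : ℕ → FiniteMeasure Pie) (βF : FiniteMeasure Pie),
    (∀ᶠ N : ℕ in (V : Filter ℕ), (bN N : Measure Pie) =
      bW (acl P a N) (fun _ => 1) (ENNReal.ofReal ((N : ℝ) ^ (-(3 / 4) : ℝ))) (arW v N (uT N))) ∧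
    (βF : Measure Pie) = (b a).map (trn v) ∧ Tendsto bN V (𝓝 βF) := by
  obtain ⟨k1, k2, k3, k4, k5, k6, k7, k8⟩ := pos_prm h a
  obtain ⟨m, bN, βF, h1, h2, h3, h4, h5, h6⟩ := bW_rst k3 k4 k7 k8 (w := fun _ _ => 1) (Rs := fun N => acl P a N)
    (Eventually.of_forall fun N R _ => le_rfl) V hV v (i := a) (j := -a) (Eventually.of_forall fun N => acl_sub P a N)
  rw [WLim.uniq h1 (H.wb a)] at h5
  refine ⟨bN, βF, h4.mono fun N hN => ?_, h5, h6⟩
  rw [hN, ENNReal.ofReal_one]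
  rfl

end

/-- no turn -/
lemma map_trn_one (m : Measure Pie) : m.map (trn 1) = m := by
  have e : trn 1 = id := by
    funext x
    unfold trn
    rw [one_smul]
    rfl
  rw [e, Measure.map_id]

end Pool.Agent.ROT.F3E
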