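import Pool.Agent.ROT.F3GenW22

/-!
# ROT / F3Num22 (helper22): the numeric hypotheses of the rows of F3, from the base data

One lemma per row theorem (names of the hypotheses in the comments).
* `num_low` : `ζ = 1 / 12000` for `lowQ`, `lowQ0`, `low_win`; **`num_lb`** : `A * m ^ (4 / 3) ≤ lb` for small `ρ`;
* `num_chan` : `chan_pie` (63); `num_comp` : `Ln.comp_pie` (63) at `x`; `num_hsub` : the farness in `hsub_prm` (42);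
* `num_core` : radii of the cells in `core_cls` (17), `r = ρ / 10`.
-/

set_option autoImplicit false

namespace Pool.Agent.ROT.F3

open Filter

/-- `lowQ`, `lowQ0`, `low_win` (89) with `ζ = 1 / 12000`, for the native gate and for the rotated gate at every level -/
theorem num_low {E : En} {ρ τ : ℝ} (hρ : 0 < ρ) (h : E.Nr (bE ρ τ)) : (1 / 12000 * E.n.m ≤ E.n.κ1 ∧ E.n.th ≤ 1 - 1 / 12000) ∧
    (1 / 12000 * E.f.m ≤ E.f.κ1 ∧ E.f.th ≤ 1 - 1 / 12000) := by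
  have a1 : E.n.m ≤ 101 / 100 * (81/10 * ρ) := h.n.m.2
  have a2 : 1/25 * ρ ≤ E.n.κ1 := h.n.κ1.1
  have a3 : E.n.th ≤ 101 / 100 * (3/4) := h.n.th.2
  have b1 : E.f.m ≤ 101 / 100 * (11400 * ρ) := h.f.m.2
  have b2 : 1 * ρ ≤ E.f.κ1 := h.f.κ1.1
  have b3 : E.f.th ≤ 101 / 100 * (3/4) := h.f.th.2
  exact ⟨⟨by linarith, by linarith⟩, ⟨by linarith, by linarith⟩⟩

/-- **the numbers of letters**: `A * m ^ (4 / 3) ≤ lb` (89, 48, 39) for all small scales -/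
theorem num_lb {A τ : ℝ} (hA : 0 ≤ A) (hτ : 0 < τ) : ∃ ρ0 : ℝ, 0 < ρ0 ∧ ∀ ρ : ℝ, 0 < ρ → ρ ≤ ρ0 → ∀ E : En, E.Nr (bE ρ τ) →
    A * E.n.m ^ (4 / 3 : ℝ) ≤ E.n.lb ∧ A * E.f.m ^ (4 / 3 : ℝ) ≤ E.f.lb ∧ A * E.n.m ^ (4 / 3 : ℝ) ≤ E.n.la ∧
      A * E.f.m ^ (4 / 3 : ℝ) ≤ E.f.la ∧ A * ρ ^ (4 / 3 : ℝ) ≤ E.lk := by
  obtain ⟨B, hB⟩ : ∃ B : ℝ, B = (A + 1) * (12000 : ℝ) ^ (4 / 3 : ℝ) := ⟨_, rfl⟩
  have hp : (0 : ℝ) < (12000 : ℝ) ^ (4 / 3 : ℝ) := by positivity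
  have hp1 : (1 : ℝ) ≤ (12000 : ℝ) ^ (4 / 3 : ℝ) := Real.one_le_rpow (by norm_num) (by norm_num)
  have hB0 : 0 < B := by
    rw [hB]
    positivity
  refine ⟨(τ / B) ^ (3 / 4 : ℝ), by positivity, fun ρ hρ hρ0 E h => ?_⟩
  have key : ρ ^ (4 / 3 : ℝ) ≤ τ / B := by
    have h1 := Real.rpow_le_rpow hρ.le hρ0 (by norm_num : (0 : ℝ) ≤ 4 / 3)
    rwa [← Real.rpow_mul (by positivity), show (3 / 4 : ℝ) * (4 / 3) = 1 by norm_num, Real.rpow_one] at h1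
  have hρ43 : 0 ≤ ρ ^ (4 / 3 : ℝ) := by positivity
  have main : ∀ x : ℝ, 0 ≤ x → x ≤ 12000 * ρ → A * x ^ (4 / 3 : ℝ) ≤ τ := by
    intro x hx hx1
    have h1 : x ^ (4 / 3 : ℝ) ≤ (12000 : ℝ) ^ (4 / 3 : ℝ) * ρ ^ (4 / 3 : ℝ) := by
      rw [← Real.mul_rpow (by norm_num) hρ.le]
      exact Real.rpow_le_rpow hx hx1 (by norm_num)
    calc A * x ^ (4 / 3 : ℝ) ≤ A * ((12000 : ℝ) ^ (4 / 3 : ℝ) * ρ ^ (4 / 3 : ℝ)) := mul_le_mul_of_nonneg_left h1 hA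
      _ ≤ (A + 1) * ((12000 : ℝ) ^ (4 / 3 : ℝ) * ρ ^ (4 / 3 : ℝ)) := mul_le_mul_of_nonneg_right (by linarith) (by positivity)
      _ = B * ρ ^ (4 / 3 : ℝ) := by rw [hB]; ring
      _ ≤ B * (τ / B) := mul_le_mul_of_nonneg_left key hB0.le
      _ = τ := by field_simp
  have a0 : 81/10 * ρ ≤ E.n.m := h.n.m.1
  have a1 : E.n.m ≤ 101 / 100 * (81/10 * ρ) := h.n.m.2
  have b0 : 11400 * ρ ≤ E.f.m := h.f.m.1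
  have b1 : E.f.m ≤ 101 / 100 * (11400 * ρ) := h.f.m.2
  have l1 : 1 * τ ≤ E.n.lb := h.n.lb.1
  have l2 : 2 * τ ≤ E.f.lb := h.f.lb.1
  have l3 : 1 * τ ≤ E.n.la := h.n.la.1
  have l4 : 4 * τ ≤ E.f.la := h.f.la.1
  have l5 : 1 * τ ≤ E.lk := h.lk.1
  have m1 := main E.n.m (by linarith) (by linarith)
  have m2 := main E.f.m (by linarith) (by linarith)
  have m3 := main ρ hρ.le (by linarith)
  exact ⟨by linarith, by linarith, by linarith, by linarith, by linarith⟩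

/-- `chan_pie` (63) at `x~`: `h = kc + n.m`, cells of radius `rz ≤ ρ / 2` -/
theorem num_chan {E : En} {ρ τ rz : ℝ} (hρ : 0 < ρ) (h : E.Nr (bE ρ τ)) (hr : rz ≤ 1 / 2 * ρ) :
    E.f.m ≤ E.kc + E.n.m ∧ 2 * (E.kc + E.n.m) ≤ E.f.r0 ∧ 20 * rz ≤ E.f.m := by
  have kc1 := h.kc.1
  have kc2 := h.kc.2
  have a0 : 81/10 * ρ ≤ E.n.m := h.n.m.1
  have a1 : E.n.m ≤ 101 / 100 * (81/10 * ρ) := h.n.m.2
  have b0 : 11400 * ρ ≤ E.f.m := h.f.m.1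
  have b1 : E.f.m ≤ 101 / 100 * (11400 * ρ) := h.f.m.2
  have l0 : 60 * ρ ≤ E.f.l := h.f.l.1
  have l1 : E.f.l ≤ 101 / 100 * (60 * ρ) := h.f.l.2
  have k0 : 1/100 * ρ ≤ E.kr := h.kr.1
  have k1 : E.kr ≤ 101 / 100 * (1/100 * ρ) := h.kr.2
  have r0 : 1950000 * ρ ≤ E.f.r0 := h.f.r0.1
  exact ⟨by linarith, by linarith, by linarith⟩

/-- `Ln.comp_pie` (63) at `x`: `h = n.m`, ball of the gate `n.r0`, offset `e = n.κ`, ball of no return `s.bn - k`, ball of the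
visits `s.len + 2 k` -/
theorem num_comp {P : Prm} {ρ τ ρ' τ' : ℝ} (hρ : 0 < ρ) (hρ' : 0 < ρ') (hp : P.p.Nr (bE ρ τ)) (hq : P.q.Nr (bE ρ' τ'))
    (hD0 : 2000000000 * (ρ + ρ') ≤ P.W.D0) (hc : P.Wc.D0 ≤ P.W.D0 - 20000000 * (ρ + ρ'))
    (hc1 : P.W.D1 + 20000000 * (ρ + ρ') ≤ P.Wc.D1) :
    (0 ≤ P.p.n.κ ∧ P.p.n.κ < P.p.n.m) ∧ (0 ≤ P.q.n.κ ∧ P.q.n.κ < P.q.n.m) ∧
      (7 / 4 * (P.p.n.m + 6 / 5 * P.p.n.r0) + P.p.n.m < P.p.s.bn - P.p.k ∧ P.p.s.bn - P.p.k ≤ P.p.s.len + 2 * P.p.k) ∧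
      (7 / 4 * (P.q.n.m + 6 / 5 * P.q.n.r0) + P.q.n.m < P.q.s.bn - P.q.k ∧ P.q.s.bn - P.q.k ≤ P.q.s.len + 2 * P.q.k) ∧
      12 * (P.p.s.len + 2 * P.p.k + (P.q.s.len + 2 * P.q.k)) < (P.wd P.W).D0 ∧
      (P.wd P.Wc).D0 + 2 * (P.p.n.m + P.q.n.m) < (P.wd P.W).D0 ∧ (P.wd P.W).D1 + 2 * (P.p.n.m + P.q.n.m) < (P.wd P.Wc).D1 := by
  have e1 : P.p.k = P.p.rk + P.p.f.r2 := rfl
  have e2 : P.q.k = P.q.rk + P.q.f.r2 := rfl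
  have w0 : (P.wd P.W).D0 = P.W.D0 - (P.p.k + P.q.k) := rfl
  have w1 : (P.wd P.W).D1 = P.W.D1 + (P.p.k + P.q.k) := rfl
  have c0 : (P.wd P.Wc).D0 = P.Wc.D0 - (P.p.k + P.q.k) := rfl
  have c1 : (P.wd P.Wc).D1 = P.Wc.D1 + (P.p.k + P.q.k) := rfl
  have a0 : 81/10 * ρ ≤ P.p.n.m := hp.n.m.1
  have a1 : P.p.n.m ≤ 101 / 100 * (81/10 * ρ) := hp.n.m.2
  have a2 : 1/10 * ρ ≤ P.p.n.κ := hp.n.κ.1
  have a3 : P.p.n.κ ≤ 101 / 100 * (1/10 * ρ) := hp.n.κ.2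
  have a4 : P.p.n.r0 ≤ 101 / 100 * (1415 * ρ) := hp.n.r0.2
  have a5 : 8000000 * ρ ≤ P.p.s.bn := hp.s.bn.1
  have a6 : P.p.s.bn ≤ 101 / 100 * (8000000 * ρ) := hp.s.bn.2
  have a7 : 60000000 * ρ ≤ P.p.s.len := hp.s.len.1
  have a8 : P.p.s.len ≤ 101 / 100 * (60000000 * ρ) := hp.s.len.2
  have a9 : 80 * ρ ≤ P.p.rk := hp.rk.1
  have a10 : P.p.rk ≤ 101 / 100 * (80 * ρ) := hp.rk.2
  have a11 : 28500 * ρ ≤ P.p.f.r2 := hp.f.r2.1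
  have a12 : P.p.f.r2 ≤ 101 / 100 * (28500 * ρ) := hp.f.r2.2
  have b0 : 81/10 * ρ' ≤ P.q.n.m := hq.n.m.1
  have b1 : P.q.n.m ≤ 101 / 100 * (81/10 * ρ') := hq.n.m.2
  have b2 : 1/10 * ρ' ≤ P.q.n.κ := hq.n.κ.1
  have b3 : P.q.n.κ ≤ 101 / 100 * (1/10 * ρ') := hq.n.κ.2
  have b4 : P.q.n.r0 ≤ 101 / 100 * (1415 * ρ') := hq.n.r0.2
  have b5 : 8000000 * ρ' ≤ P.q.s.bn := hq.s.bn.1
  have b6 : P.q.s.bn ≤ 101 / 100 * (8000000 * ρ') := hq.s.bn.2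
  have b7 : 60000000 * ρ' ≤ P.q.s.len := hq.s.len.1
  have b8 : P.q.s.len ≤ 101 / 100 * (60000000 * ρ') := hq.s.len.2
  have b9 : 80 * ρ' ≤ P.q.rk := hq.rk.1
  have b10 : P.q.rk ≤ 101 / 100 * (80 * ρ') := hq.rk.2
  have b11 : 28500 * ρ' ≤ P.q.f.r2 := hq.f.r2.1
  have b12 : P.q.f.r2 ≤ 101 / 100 * (28500 * ρ') := hq.f.r2.2
  rw [w0, w1, c0, c1, e1, e2]
  refine ⟨⟨?_, ?_⟩, ⟨?_, ?_⟩, ⟨?_, ?_⟩, ⟨?_, ?_⟩, ?_, ?_, ?_⟩ <;> linarith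

/-- `hsub_prm` (42), farness of the windows -/
theorem num_hsub {P : Prm} (hP : P.Ok) : 2 * (P.p.f.r0 + P.q.f.r0) ≤ P.W.D0 ∧ 2 * (P.p.f.r0 + P.q.f.r0) ≤ P.Wc.D0 := by
  have a1 := hP.nr
  have a2 := hP.nrc
  have a3 := hP.p.bn
  have a4 := hP.q.bn
  have a5 := hP.p.len
  have a6 := hP.q.len
  have a7 : 0 < P.p.f.r0 := by linarith [hP.p.f.rr, hP.p.f.rg, hP.p.f.r, hP.p.f.r2]
  have a8 : 0 < P.q.f.r0 := by linarith [hP.q.f.rr, hP.q.f.rg, hP.q.f.r, hP.q.f.r2]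
  exact ⟨by linarith, by linarith⟩

/-- the cells of `core_cls` (17) : radii `r`, `2 r`, `3 r`, `3 r`, `5 r` with `r = ρ / 10`: `8 kr < r`, and `5 r` is a cell of
`celOk` -/
theorem num_core {E : En} {ρ τ : ℝ} (hρ : 0 < ρ) (h : E.Nr (bE ρ τ)) : 8 * E.kr < ρ / 10 ∧ 5 * (ρ / 10) ≤ 1 / 2 * ρ ∧
    CelOk E (E.kc + E.n.m) (5 * (ρ / 10)) (3 / 5 * ρ) := by
  have k1 : E.kr ≤ 101 / 100 * (1/100 * ρ) := h.kr.2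
  exact ⟨by linarith, by linarith, celOk hρ h (by positivity) (by linarith)⟩

end Pool.Agent.ROT.F3
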