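import Pool.Agent.ROT.F3W7
import Pool.Agent.ROT.F3CoreC

/-!
# ROT, F3, row W7 (helper63): the channels in the form of the final assembly

* `Full.congr`; **`full_pie`** : the companions `Ac 1`, `Ac 2` as turned pieces (42's `Pie`, `yP`);
* **`chan_pie`** : the hypothesis `chan` of `core_abs` for the classes `clsC` of F3CoreC.
-/

set_option autoImplicit false

open MeasureTheory Filter Topology Set
open scoped ENNReal NNReal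

namespace Pool.Agent.ROT.F3

open Pool.Agent.ROT.F3.CC (Pie yP dsp_cont)

namespace Ln

lemma Fill.congr {X : Type*} [MeasurableSpace X] {κ : ℂ} {g : X → C(unitInterval, ℂ)} {y y' : X → ℂ} {β : Measure X}
    {ω0 ω1 : ℤ × ℤ} {H : ℕ} {μ0 eps R0 R1 : ℝ} {V : Set (ℝ × ℝ)} (hy : y =ᵐ[β] y')
    (h : Fill κ g y β ω0 ω1 H μ0 eps R0 R1 V) : Fill κ g y' β ω0 ω1 H μ0 eps R0 R1 V := by
  intro M x0 x1 s s' μ η δ ζ e h1 h2 h3 h4 h5 h6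
  have h7 := h M x0 x1 s s' μ η δ ζ e h1 h2 h3 h4 h5 h6
  rwa [Measure.map_congr (ae_restrict_of_ae hy)] at h7

lemma Full.congr {X : Type*} [MeasurableSpace X] {κ : ℂ} {g : X → C(unitInterval, ℂ)} {y y' : X → ℂ} {β : Measure X}
    {ω0 ω1 : ℤ × ℤ} {P Q : Tp} {W : Wn} (hy : y =ᵐ[β] y') (h : Full κ g y β ω0 ω1 P Q W) :
    Full κ g y' β ω0 ω1 P Q W := by
  obtain ⟨H0, h⟩ := h
  exact ⟨H0, fun H hH μ0 eps R0 R1 a1 a2 a3 a4 a5 a6 a7 a8 a9 =>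
    (h H hH μ0 eps R0 R1 a1 a2 a3 a4 a5 a6 a7 a8 a9).congr hy⟩

/-- **turned pieces**: `Full` for the weak limit of the laws of a class `Rst`, any data -/
theorem full_pie {ω0 ω1 : ℤ × ℤ} {a b' : Fin 3} (hok : OK3 ω0 ω1 a b') {P Q : Tp} {W : Wn} (hPc : P.c ≤ 1) (hQc : Q.c ≤ 1)
    (hP0 : 0 ≤ P.r0) (hQ0 : 0 ≤ Q.r0) (ht0 : W.t0 ≤ 0) (hD : 0 < W.D0) {U : Filter ℕ} [U.NeBot] (hU : U ≤ atTop)
    {c : ℕ → ℝ≥0∞} {w : ℕ → W3 → ℝ} {β : Measure Pie} {v : ℂ} {q : ℝ} (hv : ‖v‖ = 1) (hq : 0 < q)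
    (hc : ∀ᶠ N : ℕ in U, ENNReal.ofReal (q / (N : ℝ) ^ (3 / 4 : ℝ)) ≤ c N)
    (hw : ∀ᶠ N : ℕ in U, ∀ R ∈ Rst (ev a) (ev b') P Q W N (uT N), 1 ≤ w N R)
    (hβ : WLim U (fun N => rm (c N) N (uT N) (Rst (ev a) (ev b') P Q W N (uT N)) (w N)) β) :
    Full (v * kap a ω0) Prod.fst yP (β.map fun x => (v • x.1, x.2)) ω0 ω1 P Q W := by
  have hS : Tendsto (fun N : ℕ => (N : ℝ)) U atTop := tendsto_natCast_atTop_atTop.mono_left hU
  have hφ : Measurable fun x : Pie => (v • x.1, x.2) :=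
    ((continuous_fst.const_smul v).prodMk continuous_snd).measurable
  refine Full.map hφ measurable_fst (dsp_cont.measurable.neg) ?_
  have h1 : Full (v * kap a ω0) (fun x : CI3 × ℝ => v • x.1) (fun x : CI3 × ℝ => -(v * x.1 1)) β ω0 ω1 P Q W :=
    full_rst hok hPc hQc hP0 hQ0 ht0 hD hv hq hS hc hw hβ
  refine Full.congr ?_ h1
  have h2 := rst_ae (d := ev a) (d' := ev b') (P := P) (Q := Q) (W := W) hD hS (by
    filter_upwards [hS.eventually_gt_atTop 0] with N hN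
    unfold uT
    positivity) (Eventually.of_forall fun N => Subset.rfl) hβ
  filter_upwards [h2] with x hx
  have h3 : x.1 0 = 0 := hx.1.1
  show -(v * x.1 1) = -((v • x.1) 1 - (v • x.1) 0)
  rw [ContinuousMap.smul_apply, ContinuousMap.smul_apply, h3, smul_zero, sub_zero, smul_eq_mul]

/-- **the hypothesis `chan` of `core_abs`**, classes `clsC` of F3CoreC: `β2`, `β3` = limits of the laws of `Ac 1`, `Ac 2` -/
theorem chan_pie {P : Prm} (hP : P.Ok) {v : ℂ} (hv : ‖v‖ = 1) {U : Filter ℕ} [U.NeBot] (hU : U ≤ atTop) {c : ℕ → ℝ≥0∞}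
    {q : ℝ} (hq : 0 < q) (hc : ∀ᶠ N : ℕ in U, ENNReal.ofReal (q / (N : ℝ) ^ (3 / 4 : ℝ)) ≤ c N) {β2 β3 : Measure Pie}
    (w2 : WLim U (fun N => rm (c N) N (uT N) (P.Ac 1 N) fun _ => 1) β2)
    (w3 : WLim U (fun N => rm (c N) N (uT N) (P.Ac 2 N) fun _ => 1) β3) {m : Measure Pie}
    (hm : ∀ᵐ a ∂m, ∃ c0 : C(unitInterval, ℂ), c0 ∈ ClM (ev 0) (ev 0) P.p.f P.q.f P.W P.p.s P.q.s ∧ Function.Injective c0 ∧
      a.1 = v • c0) {h rz h' rz' : ℝ}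
    (h1 : P.p.f.m ≤ h) (h2 : 2 * h ≤ P.p.f.r0) (h3 : 20 * rz ≤ P.p.f.m) (h1' : P.q.f.m ≤ h') (h2' : 2 * h' ≤ P.q.f.r0)
    (h3' : 20 * rz' ≤ P.q.f.m) {Z Z' W W' : Set ℂ} (hZ : ∀ z ∈ Z, ‖z - h * (v * ev 1 - v)‖ ≤ rz)
    (hZ' : ∀ z ∈ Z', ‖z - h * (v * ev 2 - v)‖ ≤ rz) (hW : ∀ w ∈ W, ‖w - h' * (v * ev 2 - v)‖ ≤ rz')
    (hW' : ∀ w ∈ W', ‖w - h' * (v * ev 1 - v)‖ ≤ rz') :
    ∀ᵐ a ∂m, ∀ z ∈ Z, ∀ z' ∈ Z', ∀ w ∈ W, ∀ w' ∈ W', ChanAt Prod.fst Prod.fst Prod.fst yP yP yP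
      (β2.map fun x => (v • x.1, x.2)) (β3.map fun x => (v • x.1, x.2)) volume a z z' w w' := by
  have hD : 0 < P.Wc.D0 := by
    have a1 := hP.farc
    have a2 := hP.p.f.r
    have a3 := hP.p.f.r2
    have a4 := hP.q.f.r
    have a5 := hP.q.f.r2
    have a6 := hP.p.rk
    have a7 := hP.q.rk
    have e1 : P.p.k = P.p.rk + P.p.f.r2 := rfl
    have e2 : P.q.k = P.q.rk + P.q.f.r2 := rfl
    rw [e1, e2] at a1
    linarith
  have p1 := hP.p.f.c1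
  have q1 := hP.q.f.c1
  have p2 := hP.p.f.r0
  have p3 := hP.p.f.r
  have p4 := hP.p.f.r2
  have p5 := hP.p.f.κ
  have q2 := hP.q.f.r0
  have q3 := hP.q.f.r
  have q4 := hP.q.f.r2
  have q5 := hP.q.f.κ
  have F2 := full_pie (a := 1) (b' := 2) (ω0 := (1, -1)) (ω1 := (0, 1)) (Or.inl ⟨rfl, rfl, rfl⟩) (P := P.p.f) (Q := P.q.f)
    (W := P.Wc) (by linarith) (by linarith) (by linarith) (by linarith) (le_of_eq hP.t0c) hD hU (w := fun _ _ => 1) hv hq hc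
    (Eventually.of_forall fun _ _ _ => le_rfl) w2
  have F3 := full_pie (a := 2) (b' := 1) (ω0 := (0, 1)) (ω1 := (1, -1)) (Or.inr ⟨rfl, rfl, rfl⟩) (P := P.p.f) (Q := P.q.f)
    (W := P.Wc) (by linarith) (by linarith) (by linarith) (by linarith) (le_of_eq hP.t0c) hD hU (w := fun _ _ => 1) hv hq hc
    (Eventually.of_forall fun _ _ _ => le_rfl) w3
  refine chan_ae hP hv F2 F3 ?_ h1 h2 h3 h1' h2' h3' hZ hZ' hW hW'
  filter_upwards [hm] with a ⟨c0, k1, k2, k3⟩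
  refine ⟨c0, k1, k2, fun t => ?_, ?_⟩
  · rw [k3, ContinuousMap.smul_apply, smul_eq_mul]
  · have k4 : c0 0 = 0 := k1.1.1
    show -(a.1 1 - a.1 0) = -(v * c0 1)
    rw [k3, ContinuousMap.smul_apply, ContinuousMap.smul_apply, k4, smul_zero, sub_zero, smul_eq_mul]

end Ln

end Pool.Agent.ROT.F3
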