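import Pool.Agent.ROT.F3CoreQ
import Pool.Agent.ROT.F3CoreK
import Pool.Agent.ROT.F3W7h
import Pool.Agent.ROT.F3Num22
import Pool.Agent.ROT.F3Rows
import Pool.Agent.ROT.F3ClsP

/-!
# ROT, F3, row Core (helper17): three pairs of classes, the product form for the main class

* `cen_near` : the centres of the cells of the two lattices; **`hsub_fin`** : the field `hsub` of `PairIn` for the cells of radius `ρ / 2`;
* **`core_fin`** : the field `core` of `CoreOut` from three pairs of classes; `good_fin`, `short_fin` : the fields `good`, `short`.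
-/

set_option autoImplicit false
set_option linter.unusedSectionVars false

open MeasureTheory Topology Set ProbabilityTheory Filter Metric

open scoped ENNReal

namespace Pool.Agent.ROT.F3E

open Pool.Agent.ROT.F3 Pool.Agent.ROT.F3.CC Pool.Agent.ROT.F3.Bt

/-- distance of the foreign gates from the roots, end `p` -/
noncomputable def hp (P : Prm) : ℝ := P.p.kc + P.p.n.m

/-- distance of the foreign gates from the roots, end `q` -/
noncomputable def hq (P : Prm) : ℝ := P.q.kc + P.q.n.m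

/-- the cell of the relative position at `p`, classes `i`, `j`, radius `R` -/
noncomputable def cZ (P : Prm) (i j : Fin 3) (R : ℝ) : Set ℂ := ball (cen P.u (hp P) i j) R

/-- the cell of the relative position at `q` -/
noncomputable def cW (P : Prm) (i j : Fin 3) (R : ℝ) : Set ℂ := ball (cen P.u (hq P) (-i) (-j)) R

/-- the cell of the first lattice at `p` -/
noncomputable def cZ0 (P : Prm) (i j : Fin 3) (ρ : ℝ) : Set ℂ := Z0E (ev i) (ev j) P.p (hp P) (3 / 5 * ρ)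

/-- the cell of the first lattice at `q` -/
noncomputable def cW0 (P : Prm) (i j : Fin 3) (ρ : ℝ) : Set ℂ := Z0E (ev (-i)) (ev (-j)) P.q (hq P) (3 / 5 * ρ)

/-- the arcs of the class `a` on the second lattice, closed conditions -/
noncomputable def AV (P : Prm) (a : Fin 3) : Set Pie :=
  if a = 0 then AmV (P.u * ev a) (P.u * ev (-a)) P.p P.q P.W else ArV (P.u * ev a) (P.u * ev (-a)) P.p P.q P.Wc

lemma AV_sub (P : Prm) (a : Fin 3) : AV P a ⊆ ArV (P.u * ev a) (P.u * ev (-a)) P.p P.q (wnd P a) := by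
  unfold AV wnd
  by_cases h : a = 0
  · rw [if_pos h, if_pos h]
    exact amV_sub _ _ _ _ _
  · rw [if_neg h, if_neg h]

lemma AV_closed (P : Prm) (a : Fin 3) : IsClosed (AV P a) := by
  unfold AV
  by_cases h : a = 0
  · rw [if_pos h]
    exact amV_closed _ _ _ _ _
  · rw [if_neg h]
    exact arV_closed _ _ _ _ _

/-- the marked rests of the class `a` -/
noncomputable def VC (P : Prm) (a : Fin 3) : Set (Pie × (ℝ × ℝ)) := VT (ev a) (ev (-a)) P.p P.q (AV P a)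

lemma VC_closed (P : Prm) (a : Fin 3) : IsClosed (VC P a) := vt_closed _ _ _ _ (AV_closed P a)

lemma cen_near {v : ℂ} {ε h : ℝ} (hv : ‖v - 1‖ ≤ ε) (h0 : 0 ≤ h) (i j : Fin 3) :
    ‖cen v h i j - (h : ℂ) * (ev j - ev i)‖ ≤ 2 * (h * ε) := by
  have e : cen v h i j - (h : ℂ) * (ev j - ev i) = (h : ℂ) * ((v - 1) * (ev j - ev i)) := by
    unfold cen
    ring
  have n1 : ‖ev j - ev i‖ ≤ 2 := by
    refine (norm_sub_le _ _).trans ?_
    rw [ev_norm, ev_norm]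
    norm_num
  rw [e, norm_mul, norm_mul, Complex.norm_real, Real.norm_of_nonneg h0]
  have h1 : ‖v - 1‖ * ‖ev j - ev i‖ ≤ ε * 2 := mul_le_mul hv n1 (norm_nonneg _) ((norm_nonneg _).trans hv)
  calc h * (‖v - 1‖ * ‖ev j - ev i‖) ≤ h * (ε * 2) := mul_le_mul_of_nonneg_left h1 h0
    _ = 2 * (h * ε) := by ring

section

variable {P : Prm} (h : P.Ok) {ρ τ : ℝ} (hρ : 0 < ρ) (hp1 : P.p.Nr (bE ρ τ)) (hq1 : P.q.Nr (bE ρ τ))
  (hu : ‖P.u - 1‖ ≤ 1 / 100000000)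

include hρ in
lemma hh_le {E : En} (hE : E.Nr (bE ρ τ)) : 0 ≤ E.kc + E.n.m ∧ E.kc + E.n.m ≤ 12000 * ρ := by
  have kc1 := hE.kc.1
  have kc2 := hE.kc.2
  have a0 : 81/10 * ρ ≤ E.n.m := hE.n.m.1
  have a1 : E.n.m ≤ 101 / 100 * (81/10 * ρ) := hE.n.m.2
  have b0 : 11400 * ρ ≤ E.f.m := hE.f.m.1
  have b1 : E.f.m ≤ 101 / 100 * (11400 * ρ) := hE.f.m.2
  have l0 : 60 * ρ ≤ E.f.l := hE.f.l.1
  have l1 : E.f.l ≤ 101 / 100 * (60 * ρ) := hE.f.l.2
  have k0 : 1/100 * ρ ≤ E.kr := hE.kr.1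
  have k1 : E.kr ≤ 101 / 100 * (1/100 * ρ) := hE.kr.2
  exact ⟨by linarith, by linarith⟩

lemma turn_le {v : ℂ} {a : Fin 3} : ‖v * ev a - ev a‖ ≤ ‖v - 1‖ := by
  have e : v * ev a - ev a = (v - 1) * ev a := by ring
  rw [e, norm_mul, ev_norm, mul_one]

include h hρ hp1 hq1 hu

/-- **the field `hsub` of `PairIn`** -/
theorem hsub_fin {i j : Fin 3} (hij : i ≠ j) {t t' s s' : Pie → ℝ} {C D : Set Pie} (v1 : ∀ r ∈ C, (r, (t r, t' r)) ∈ VC P i)
    (v2 : ∀ r ∈ D, (r, (s r, s' r)) ∈ VC P j) {R R' : ℝ} (hR : R ≤ 5 / 11 * ρ) (hR' : R' ≤ 5 / 11 * ρ)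
    (p : Pie × (Pie × ℂ)) (k1 : p.1 ∈ (clsC t t' C).C) (k2 : p.2.1 ∈ (clsC s s' D).C)
    (k3 : pi3 (tht (clsC t t' C).τ (clsC s s' D).τ (clsC t t' C).s (clsC s s' D).s p) ∈
      DD (clsC t t' C).g (clsC s s' D).g (clsC t t' C).y (clsC s s' D).y (cZ P i j R) (cW P i j R')) :
    p ∈ DD Prod.fst Prod.fst yP yP (cZ0 P i j ρ) (cW0 P i j ρ) := by
  have hn : ∀ a b : Fin 3, a ≠ b → -a ≠ -b := fun a b hab e => hab (neg_injective e)
  obtain ⟨a1, a2⟩ := hh_le hρ hp1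
  obtain ⟨b1, b2⟩ := hh_le hρ hq1
  have c1 := celOk (rz := 1 / 2 * ρ) hρ hp1 (by positivity) le_rfl
  have c2 := celOk (rz := 1 / 2 * ρ) hρ hq1 (by positivity) le_rfl
  obtain ⟨w1, w2⟩ := num_hsub h
  have w3 : ∀ a, 2 * (P.p.f.r0 + P.q.f.r0) ≤ (wnd P a).D0 := fun a => by
    unfold wnd
    split_ifs
    · exact w1
    · exact w2
  have near : ∀ {E : En} {a b : Fin 3} {R : ℝ}, 0 ≤ E.kc + E.n.m → E.kc + E.n.m ≤ 12000 * ρ → R ≤ 5 / 11 * ρ →
      ball (cen P.u (E.kc + E.n.m) a b) R ⊆ closedBall (((E.kc + E.n.m : ℝ) : ℂ) * (ev b - ev a)) (1 / 2 * ρ) := by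
    intro E a b R h0 h1 h2 x hx
    have h3 := cen_near hu h0 a b
    have h4 : (E.kc + E.n.m) * (1 / 100000000) ≤ 12000 * ρ * (1 / 100000000) := mul_le_mul_of_nonneg_right h1 (by norm_num)
    rw [mem_ball] at hx
    rw [mem_closedBall]
    have h5 := dist_triangle x (cen P.u (E.kc + E.n.m) a b) (((E.kc + E.n.m : ℝ) : ℂ) * (ev b - ev a))
    rw [dist_eq_norm (cen P.u (E.kc + E.n.m) a b)] at h5
    linarith
  exact hsub_prm (ev_norm i) (ev_norm j) (ev_norm (-i)) (ev_norm (-j)) (ev_dir hij) (ev_dir (hn _ _ hij)) h.p h.q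
    turn_le turn_le turn_le turn_le (w3 i) (w3 j) (AV_sub P i) (AV_sub P j) v1 v2 (h := P.p.kc + P.p.n.m) (rz := 1 / 2 * ρ)
    (ρ := 3 / 5 * ρ) (h' := P.q.kc + P.q.n.m) (rz' := 1 / 2 * ρ) (ρ' := 3 / 5 * ρ) (by positivity) (by positivity) c1.H0 c2.H0
    c1.H1 c1.H2 c2.H1 c2.H2 (near a1 a2 hR) (near b1 b2 hR') p k1 k2 k3

end

/-! ### The three pairs -/

section core

variable {P : Prm} (h : P.Ok) {ρ τ : ℝ} (hρ : 0 < ρ) (hp1 : P.p.Nr (bE ρ τ)) (hq1 : P.q.Nr (bE ρ τ))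
  {V : Ultrafilter ℕ} (hV : (V : Filter ℕ) ≤ atTop) {β b : Fin 3 → Measure Pie} (H : ClsL V P β b)
  {t t' : Fin 3 → Pie → ℝ} {C : Fin 3 → Set Pie} (mt : ∀ a, Measurable (t a)) (mt' : ∀ a, Measurable (t' a))
  (mC : ∀ a, MeasurableSet (C a)) (hC0 : ∀ x ∈ C 0, (x, (t 0 x, t' 0 x)) ∈ VC P 0)

/-- the inputs for one pair: `PairIn` for all cells up to the radius `5 / 11 ρ` -/
def PrAll (P : Prm) (ρ : ℝ) (β b : Fin 3 → Measure Pie) (t t' : Fin 3 → Pie → ℝ) (C : Fin 3 → Set Pie) (i j : Fin 3) : Prop :=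
  ∀ R R' : ℝ, 0 < R → R ≤ 5 / 11 * ρ → 0 < R' → R' ≤ 5 / 11 * ρ →
    Nonempty (PairIn (clsC (t i) (t' i) (C i)) (clsC (t j) (t' j) (C j)) (β i) (β j) ((b i).map (trn P.u)) ((b j).map (trn P.u))
      volume (cZ P i j R) (cW P i j R') CC.Gm (K4 × K4) K4 K4)

/-- positivity of the companions in the cells of radius `ρ / 11` -/
def QPos (P : Prm) (ρ : ℝ) (β : Fin 3 → Measure Pie) (t t' : Fin 3 → Pie → ℝ) (C : Fin 3 → Set Pie) (i j : Fin 3) (k : ℝ) : Prop :=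
  (((clsC (t i) (t' i) (C i)).law (β i)).snd.prod (((clsC (t j) (t' j) (C j)).law (β j)).snd.prod volume))
    (DD Prod.fst Prod.fst yP yP (cZ P i j (k * (1 / 11 * ρ))) (cW P i j (k * (1 / 11 * ρ))) ∩
      {p | zw yP yP p ∈ closedBall (cen P.u (hp P) i j) (1 / 11 * ρ) ×ˢ closedBall (cen P.u (hq P) (-i) (-j)) (1 / 11 * ρ)}) ≠ 0

include h hρ hp1 hq1 hV H mt mt' mC hC0

/-- **the field `core` of `CoreOut`** -/
theorem core_fin (p01 : PrAll P ρ β b t t' C 0 1) (p02 : PrAll P ρ β b t t' C 0 2) (p12 : PrAll P ρ β b t t' C 1 2)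
    (q12 : QPos P ρ β t t' C 0 1 3) (q23 : QPos P ρ β t t' C 1 2 5) :
    ∃ ν : Measure (Pie × Pie), IsFiniteMeasure ν ∧ (clsC (t 0) (t' 0) (C 0)).law (β 0) = ν.prod ((b 0).map (trn P.u)) := by
  have hu1 : ‖P.u‖ = 1 := h.u
  have hu0 : P.u ≠ 0 := by
    intro h0
    rw [h0, norm_zero] at hu1
    exact zero_ne_one hu1
  have hr : 0 < 1 / 11 * ρ := by positivity
  obtain ⟨P01⟩ := p01 (3 * (1 / 11 * ρ)) (3 * (1 / 11 * ρ)) (by positivity) (by linarith) (by positivity) (by linarith)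
  obtain ⟨P02⟩ := p02 (3 * (1 / 11 * ρ)) (3 * (1 / 11 * ρ)) (by positivity) (by linarith) (by positivity) (by linarith)
  obtain ⟨P12⟩ := p12 (5 * (1 / 11 * ρ)) (5 * (1 / 11 * ρ)) (by positivity) (by linarith) (by positivity) (by linarith)
  obtain ⟨g1, g2, g3, g4, g5, g6, g7, g8⟩ := pos_prm h 0
  have ft : ∀ a, IsFiniteMeasure ((b a).map (trn P.u)) := fun a => by
    have := H.fb a
    infer_instance
  -- the companions fill their classes
  have F : ∀ (a : Fin 3) (ω0 ω1 : ℤ × ℤ), a ≠ 0 → Ln.OK3 ω0 ω1 a (-a) →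
      Ln.Full (P.u * Ln.kap a ω0) Prod.fst yP ((b a).map (trn P.u)) ω0 ω1 P.p.f P.q.f P.Wc := by
    intro a ω0 ω1 ha hok
    have w := H.wb a
    rw [acl_ne P ha] at w
    have k1 := h.p.f.c1
    have k2 := h.q.f.c1
    have k3 : 0 < P.p.f.r0 := by linarith [h.p.f.rr, h.p.f.rg, h.p.f.r, h.p.f.r2]
    have k4 : 0 < P.q.f.r0 := by linarith [h.q.f.rr, h.q.f.rg, h.q.f.r, h.q.f.r2]
    have k5 : 0 < P.Wc.D0 := by
      have := pos_prm h 1
      rw [wnd_ne P (by decide)] at this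
      exact this.2.2.2.2.2.2.1
    exact Ln.full_pie hok (by linarith) (by linarith) k3.le k4.le (by rw [h.t0c]) k5 hV (c := cb) (w := fun _ _ => 1) hu1
      (q := 1) one_pos (by
        filter_upwards [hV (eventually_gt_atTop 0)] with N hN
        unfold cb
        rw [Real.rpow_neg (Nat.cast_nonneg N), one_div]) (Eventually.of_forall fun N R _ => le_rfl) w
  -- the main arcs
  have hb : ∀ᵐ x ∂((b 0).map (trn P.u)), Function.Injective x.1 ∧ bk P.u x.1 ∈ ClM (ev 0) (ev 0) P.p.f P.q.f P.W P.p.s P.q.s := by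
    have w := H.wb 0
    rw [acl_zero] at w
    have k := man_inj (P := P.p.f) (Q := P.q.f) (W := P.W) (s := P.p.s) (s' := P.q.s) g3 g4 (by rw [wnd_zero] at g7; exact g7)
      (by rw [wnd_zero] at g8; exact g8) (w := fun _ _ => 1) (Eventually.of_forall fun N R _ => le_rfl) hV w (i := 0) (j := 0)
      (Eventually.of_forall fun N R hR => hR)
    have e : trn P.u = fun x : Pie => (P.u • x.1, x.2) := rfl
    rw [e]
    refine (ae_turn hu0).2 ?_
    filter_upwards [k] with x hx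
    refine ⟨?_, ?_⟩
    · intro s s' hss
      have h1 : P.u * x.1 s = P.u * x.1 s' := hss
      exact hx.1 (mul_left_cancel₀ hu0 h1)
    · show bk P.u (P.u • x.1) ∈ _
      rw [bk_smul hu0]
      exact hx.2.1
  obtain ⟨n1, n2, n3⟩ := num_chan (rz := 1 / 2 * ρ) hρ hp1 le_rfl
  obtain ⟨m1, m2, m3⟩ := num_chan (rz := 1 / 2 * ρ) hρ hq1 le_rfl
  have n3' : 40 * (1 / 11 * ρ) ≤ P.p.f.m := by linarith
  have m3' : 40 * (1 / 11 * ρ) ≤ P.q.f.m := by linarith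
  have hV0 : ∀ x ∈ C 0, (x, (t 0 x, t' 0 x)) ∈ VT (ev 0) (ev 0) P.p P.q (AmV (P.u * ev 0) (P.u * ev 0) P.p P.q P.W) := by
    intro x hx
    have h1 := hC0 x hx
    unfold VC AV at h1
    rwa [if_pos rfl, neg_zero] at h1
  exact core_cls h hu1 mt mt' mC H.fβ ft (h := hp P) (h' := hq P) hr hr P01 P02 P12 (F 1 (1, -1) (0, 1) (by decide) (Or.inl ⟨rfl, rfl, rfl⟩))
    (F 2 (0, 1) (1, -1) (by decide) (Or.inr ⟨rfl, rfl, rfl⟩)) hV0 (ClsL.inj h hV H 0) hb n1 n2 n3' m1 m2 m3' q12 q23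

/-- **the field `good`** -/
theorem good_fin : ∀ᵐ r ∂(β 0), r ∈ C 0 → r ∈ GoodT (t 0) (t' 0) := by
  refine Eventually.of_forall fun r hr => ?_
  have h1 := hC0 r hr
  unfold VC at h1
  exact vt_good h.t0 ((AV_sub P 0).trans (by rw [wnd_zero])) h1

/-- **the field `short`** -/
theorem short_fin : ∀ᵐ r ∂(β 0), r ∈ C 0 → t 0 r * r.2 ≤ max P.p.lk P.q.lk ∧ (1 - t' 0 r) * r.2 ≤ max P.p.lk P.q.lk := by
  refine Eventually.of_forall fun r hr => ?_
  have h1 := hC0 r hr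
  unfold VC at h1
  obtain ⟨k1, k2⟩ := vt_dur h1
  exact ⟨k1.trans (le_max_left _ _), k2.trans (le_max_right _ _)⟩

end core

end Pool.Agent.ROT.F3E
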