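import Pool.Agent.ROT.F3CoreX
import Pool.Agent.ROT.F3JmA
import Pool.Agent.ROT.F3JmB
import Pool.Agent.ROT.F3JmS
import Pool.Agent.ROT.F3Fin3

/-!
# ROT, F3, row Core (helper4): the joint marks of the three pairs

The pairs `k = 0, 1, 2` are `(fA k, fB k)` = `(0, 1)`, `(0, 2)`, `(1, 2)` (F3CoreX); `G0 k`, `H k` = native gates and functional gates of
the pair `k` (F3JmD).

* `jm_cg` : the marks may be changed where the weight is `0`;
* `JIn` : the data of one pair; `JLoc` : locality of the foreign gates of the rests (output of helper37 / helper28);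
* **`mk_all`** : the marks of the rests of the three classes (`cls3` of helper31 for the literals of helper82);
* **`jm_all`** : the joint marks `Jm` of the three pairs, one system of marks `C`, `t`, `t'` for the three classes; for each pair one system
  of connections `Cp`, `Cq`, `fp`, `fq` for the functional class and all levels.
-/

set_option autoImplicit false
set_option linter.unusedSectionVars false

noncomputable section

namespace Pool.Agent.ROT.F3.CK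

open MeasureTheory Set unitInterval

open scoped ENNReal Classical

open Pool.Agent.ROT.F3 Pool.Agent.ROT.F3.CC Pool.Agent.ROT.F3.LF Pool.Agent.ROT.F3E

/-! ### 1. Change of the marks -/

/-- **the marks may be changed where the weight is `0`** -/
theorem jm_cg {μ : Measure CC.Gm} {w0 wR : CC.Gm → ℝ≥0∞} {T S T' S' : CC.Gm → Fin 8 → ℝ} {F1 F2 Ep Eq : Set CC.Gm}
    {SF TF : CC.Gm → M4} {C1 C2 : Set Pie} {t1 t1' t2 t2' : Pie → ℝ} {Cp Cq : Set K4} {fp fq : K4 → Pie × Pie} {Z W : Set ℂ}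
    (J : Jm μ w0 wR T S F1 F2 Ep Eq SF TF C1 C2 t1 t1' t2 t2' Cp Cq fp fq Z W) (hT : ∀ g, w0 g ≠ 0 → T' g = T g)
    (hS : ∀ g, wR g ≠ 0 → S' g = S g) : Jm μ w0 wR T' S' F1 F2 Ep Eq SF TF C1 C2 t1 t1' t2 t2' Cp Cq fp fq Z W where
  h1 := by
    filter_upwards [J.h1] with g hg hne
    rw [hT g hne]
    exact hg hne
  h2 := by
    filter_upwards [J.h2] with g hg hne
    rw [hT g hne]
    exact hg hne
  o1 := by
    filter_upwards [J.o1] with g hg hne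
    rw [hT g hne]
    exact hg hne
  o2 := by
    filter_upwards [J.o2] with g hg hne
    rw [hT g hne]
    exact hg hne
  h3 := by
    filter_upwards [J.h3] with g hg hne
    rw [hS g hne]
    exact hg hne
  h4 := by
    filter_upwards [J.h4] with g hg hne
    rw [hS g hne]
    exact hg hne
  h5 := by
    filter_upwards [J.h5] with g hg hne k1 k2 hD
    obtain ⟨a1, a2, a3, a4, a5⟩ := hg hne k1 k2 hD
    have hR : wR g ≠ 0 := by rwa [← a1]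
    rw [hS g hR, hT g hne]
    exact ⟨a1, a2, a3, a4, a5⟩
  h6 := by
    filter_upwards [J.h6] with g hg hne
    rw [hS g hne]
    exact hg hne

/-! ### 2. The three pairs -/

/-- **the data of one pair**: measurability and order of the times -/
structure JIn (P : Prm) (μ : Measure CC.Gm) (G0 H : Ga) : Prop where
  m0 : G0.Ms
  mH : H.Ms
  u0 : ∀ᵐ g ∂μ, G0.Un g
  uH : ∀ᵐ g ∂μ, (H.rot P.u).Un g

variable {P : Prm} {μ : Measure CC.Gm} {G0 H : Fin 3 → Ga}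

/-- **locality of the foreign gates of the rests** at any two places of the same class (hypothesis `loc` of `cls3`) -/
def JLoc (P : Prm) (G0 H : Fin 3 → Ga) (G : J3 → Set CC.Gm) : Prop :=
  ∀ j j', cl3 j = cl3 j' → ∀ g ∈ G j, ∀ g' ∈ G j', jw0 P (fA j.1) (fB j.1) (G0 j.1) g ≠ 0 →
    jw0 P (fA j'.1) (fB j'.1) (G0 j'.1) g' ≠ 0 → rJ (fun k => jT (G0 k)) j g = rJ (fun k => jT (G0 k)) j' g' →
    g ∈ FJ (fun k => jF1 P (fA k) (fB k) (G0 k) (H k)) (fun k => jF2 P (fA k) (fB k) (G0 k) (H k)) j →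
    g' ∈ FJ (fun k => jF1 P (fA k) (fB k) (G0 k) (H k)) (fun k => jF2 P (fA k) (fB k) (G0 k) (H k)) j' ∧
      g.1 * |cJ (fun k => jSF P (H k)) j g - aJ (fun k => jT (G0 k)) j g| =
        g'.1 * |cJ (fun k => jSF P (H k)) j' g' - aJ (fun k => jT (G0 k)) j' g'| ∧
      g.1 * |aJ' (fun k => jT (G0 k)) j g - cJ' (fun k => jSF P (H k)) j g| =
        g'.1 * |aJ' (fun k => jT (G0 k)) j' g' - cJ' (fun k => jSF P (H k)) j' g'|

private lemma tmS_of {G : Ga} {k : Arm} {g : CC.Gm} (hu : G.Un g) (h1 : g ∈ G.B k) (h2 : g ∈ G.B (oppA k)) : TmS G k g :=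
  ⟨tAt_mem ⟨(hu.h k h1).1.trans (hu.h k h1).2.1, (hu.h k h1).2.2⟩,
    tAt_mem ⟨(hu.h _ h2).1.trans (hu.h _ h2).2.1, (hu.h _ h2).2.2⟩⟩

/-- **the marks of the rests of the three classes** -/
theorem mk_all (hP : P.Ok) [SFinite μ] (hL : ∀ᵐ g ∂μ, 0 < g.2.1 ∧ g.2.1 < g.1) (J : ∀ k, JIn P μ (G0 k) (H k))
    {TT : Fin 3 → Set Pie} (mTT : ∀ a, MeasurableSet (TT a)) {G : J3 → Set CC.Gm}
    (hG : ∀ j : J3, ∀ᵐ g ∂μ, jw0 P (fA j.1) (fB j.1) (G0 j.1) g ≠ 0 → g ∈ G j)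
    (hTT : ∀ j : J3, ∀ᵐ g ∂μ, jw0 P (fA j.1) (fB j.1) (G0 j.1) g ≠ 0 →
      g ∈ FJ (fun k => jF1 P (fA k) (fB k) (G0 k) (H k)) (fun k => jF2 P (fA k) (fB k) (G0 k) (H k)) j →
      rJ (fun k => jT (G0 k)) j g ∈ TT (cl3 j))
    (loc : JLoc P G0 H G) :
    ∃ (C : Fin 3 → Set Pie) (t t' : Fin 3 → Pie → ℝ), (∀ a, MeasurableSet (C a)) ∧ (∀ a, Measurable (t a)) ∧
      (∀ a, Measurable (t' a)) ∧ (∀ a, ∀ x ∈ C a, (x, (t a x, t' a x)) ∈ VC P a) ∧ (∀ a, C a ⊆ TT a) ∧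
      ∀ k, Mk3 μ (jw0 P (fA k) (fB k) (G0 k)) (jT (G0 k)) (jF1 P (fA k) (fB k) (G0 k) (H k))
        (jF2 P (fA k) (fB k) (G0 k) (H k)) (jSF P (H k)) (C (fA k)) (C (fB k)) (t (fA k)) (t' (fA k)) (t (fB k)) (t' (fB k)) := by
  obtain ⟨G', hG'⟩ : ∃ G' : J3 → Set CC.Gm, ∀ j g, g ∈ G' j ↔ g ∈ G j ∧ (0 < g.2.1 ∧ g.2.1 < g.1) ∧ (G0 j.1).Un g ∧
      ((H j.1).rot P.u).Un g ∧
      (g ∈ FJ (fun k => jF1 P (fA k) (fB k) (G0 k) (H k)) (fun k => jF2 P (fA k) (fB k) (G0 k) (H k)) j →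
        rJ (fun k => jT (G0 k)) j g ∈ TT (cl3 j)) := ⟨fun j => {g | _}, fun j g => Iff.rfl⟩
  obtain ⟨C, t, t', h1, h2, h3, h4, h5⟩ := cls3 (μ := fun _ => μ) (w := fun k => jw0 P (fA k) (fB k) (G0 k))
    (fun k => jw0_ms hP (fA_ne k) (J k).m0) (T := fun k => jT (G0 k)) (fun k => jT_ms (J k).m0)
    (F1 := fun k => jF1 P (fA k) (fB k) (G0 k) (H k)) (F2 := fun k => jF2 P (fA k) (fB k) (G0 k) (H k))
    (fun k => jF1_ms hP (J k).m0 (J k).mH) (fun k => jF2_ms hP (J k).m0 (J k).mH) (SF := fun k => jSF P (H k))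
    (fun k => jSF_ms (J k).mH) (V := fun a => VC P a ∩ (TT a ×ˢ univ))
    (fun a => (VC_closed P a).measurableSet.inter ((mTT a).prod MeasurableSet.univ)) (G := G')
    (fun j => by
      filter_upwards [hG j, hL, (J j.1).u0, (J j.1).uH, hTT j] with g a1 a2 a3 a4 a5 hw
      exact (hG' j g).2 ⟨a1 hw, a2, a3, a4, a5 hw⟩)
    (fun j g hg hw hF => by
      obtain ⟨-, b2, b3, b4, -⟩ := (hG' j g).1 hg
      have hB := jw0_ne hw
      have hB' := fun k => mem_iInter.1 hB k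
      obtain ⟨k, e⟩ := j
      refine ⟨b2.1.trans b2.2, ?_⟩
      cases e
      · obtain ⟨f1, f2, f3⟩ := id hF
        exact jF1_o1 hP hB (tmS_of b3 (hB' _) (hB' _)) (tmS_of b4 f1.e f2.e) hF
      · obtain ⟨f1, f2, f3⟩ := id hF
        exact jF2_o2 hP hB (tmS_of b3 (hB' _) (hB' _)) (tmS_of b4 f1.e f2.e) hF)
    (fun j g hg hw hF => by
      obtain ⟨-, b2, b3, b4, b5⟩ := (hG' j g).1 hg
      have hB := jw0_ne hw
      have hB' := fun k => mem_iInter.1 hB k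
      refine ⟨?_, b5 hF, mem_univ _⟩
      obtain ⟨k, e⟩ := j
      cases e
      · obtain ⟨f1, f2, f3⟩ := id hF
        exact jF1_vt hP (b2.1.trans b2.2).le hB (tmS_of b3 (hB' _) (hB' _)) (tmS_of b4 f1.e f2.e) hF
      · obtain ⟨f1, f2, f3⟩ := id hF
        exact jF2_vt hP (b2.1.trans b2.2).le hB (tmS_of b3 (hB' _) (hB' _)) (tmS_of b4 f1.e f2.e) hF)
    (fun j j' hj g hg g' hg' hw hw' hr hF => loc j j' hj g ((hG' j g).1 hg).1 g' ((hG' j' g').1 hg').1 hw hw' hr hF)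
  exact ⟨C, t, t', h1, h2, h3, fun a x hx => (h4 a x hx).1, fun a x hx => (h4 a x hx).2.1, h5⟩

/-- **THE JOINT MARKS OF THE THREE PAIRS.** `n0` = index of the functional class in the family `ι` of all the classes of the rotated
lattice; `T k`, `S k` = marks of the two native classes (any values where the weight is `0`); `h5`, `h6` = helper82 -/
theorem jm_all (hP : P.Ok) [SFinite μ] (hL : ∀ᵐ g ∂μ, 0 < g.2.1 ∧ g.2.1 < g.1) (J : ∀ k, JIn P μ (G0 k) (H k))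
    {TT : Fin 3 → Set Pie} (mTT : ∀ a, MeasurableSet (TT a)) {G : J3 → Set CC.Gm}
    (hG : ∀ j : J3, ∀ᵐ g ∂μ, jw0 P (fA j.1) (fB j.1) (G0 j.1) g ≠ 0 → g ∈ G j)
    (hTT : ∀ j : J3, ∀ᵐ g ∂μ, jw0 P (fA j.1) (fB j.1) (G0 j.1) g ≠ 0 →
      g ∈ FJ (fun k => jF1 P (fA k) (fB k) (G0 k) (H k)) (fun k => jF2 P (fA k) (fB k) (G0 k) (H k)) j →
      rJ (fun k => jT (G0 k)) j g ∈ TT (cl3 j))
    (loc : JLoc P G0 H G) {ι : Type*} [Countable ι] (n0 : ι) {Hn : Fin 3 → ι → Ga} {wn : Fin 3 → ι → CC.Gm → ℝ≥0∞}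
    {Sn : Fin 3 → ι → CC.Gm → Fin 8 → ℝ} {Gd : Fin 3 → ι → Set CC.Gm} (eH : ∀ k, Hn k n0 = H k)
    (ew : ∀ k, wn k n0 = jwR P (fA k) (fB k) (H k))
    (eS : ∀ k g, jwR P (fA k) (fB k) (H k) g ≠ 0 → Sn k n0 g = jS P (H k) g)
    (con : ∀ k, ConIn P (fA k) (fB k) μ (G0 k) (Hn k) (wn k) (Sn k) (Gd k)) {T S : Fin 3 → CC.Gm → Fin 8 → ℝ}
    (hT : ∀ k g, jw0 P (fA k) (fB k) (G0 k) g ≠ 0 → T k g = jT (G0 k) g)
    (hS : ∀ k g, jwR P (fA k) (fB k) (H k) g ≠ 0 → S k g = jS P (H k) g) :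
    ∃ (C : Fin 3 → Set Pie) (t t' : Fin 3 → Pie → ℝ) (Cp Cq : Fin 3 → Set K4) (fp fq : Fin 3 → K4 → Pie × Pie),
      (∀ a, MeasurableSet (C a)) ∧ (∀ a, Measurable (t a)) ∧ (∀ a, Measurable (t' a)) ∧
      (∀ a, ∀ x ∈ C a, (x, (t a x, t' a x)) ∈ VC P a) ∧ (∀ a, C a ⊆ TT a) ∧
      (∀ k, MeasurableSet (Cp k)) ∧ (∀ k, MeasurableSet (Cq k)) ∧ (∀ k, Measurable (fp k)) ∧ (∀ k, Measurable (fq k)) ∧
      (∀ k n, ∀ᵐ g ∂μ, wn k n g ≠ 0 → ((kap8 g (Sn k n g)).1 ∈ Cp k ↔ g ∈ jEp P (fA k) (fB k) (G0 k) (Hn k n)) ∧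
        (g ∈ jEp P (fA k) (fB k) (G0 k) (Hn k n) → fp k (kap8 g (Sn k n g)).1 = qpAt g (jTF (G0 k) g) (m4 (Sn k n g)))) ∧
      (∀ k n, ∀ᵐ g ∂μ, wn k n g ≠ 0 → ((kap8 g (Sn k n g)).2 ∈ Cq k ↔ g ∈ jEq P (fA k) (fB k) (G0 k) (Hn k n)) ∧
        (g ∈ jEq P (fA k) (fB k) (G0 k) (Hn k n) → fq k (kap8 g (Sn k n g)).2 = qqAt g (jTF (G0 k) g) (m4 (Sn k n g)))) ∧
      ∀ (k : Fin 3) (Z W : Set ℂ),
        (∀ᵐ g ∂μ, jw0 P (fA k) (fB k) (G0 k) g ≠ 0 → g ∈ jF1 P (fA k) (fB k) (G0 k) (H k) →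
          g ∈ jF2 P (fA k) (fB k) (G0 k) (H k) → rst g (jSF P (H k) g) ∈ DD Prod.fst Prod.fst yP yP Z W →
          jw0 P (fA k) (fB k) (G0 k) g = jwR P (fA k) (fB k) (H k) g ∧ g ∈ jEp P (fA k) (fB k) (G0 k) (H k) ∧
            g ∈ jEq P (fA k) (fB k) (G0 k) (H k) ∧ m4 (jS P (H k) g) = jSF P (H k) g ∧ jTF (G0 k) g = m4 (jT (G0 k) g)) →
        (∀ᵐ g ∂μ, jwR P (fA k) (fB k) (H k) g ≠ 0 → g ∈ jEp P (fA k) (fB k) (G0 k) (H k) →
          g ∈ jEq P (fA k) (fB k) (G0 k) (H k) → rst g (m4 (jS P (H k) g)) ∈ DD Prod.fst Prod.fst yP yP Z W →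
          jw0 P (fA k) (fB k) (G0 k) g ≠ 0 ∧ g ∈ jF1 P (fA k) (fB k) (G0 k) (H k) ∧
            g ∈ jF2 P (fA k) (fB k) (G0 k) (H k) ∧ jSF P (H k) g = m4 (jS P (H k) g)) →
        Jm μ (jw0 P (fA k) (fB k) (G0 k)) (jwR P (fA k) (fB k) (H k)) (T k) (S k) (jF1 P (fA k) (fB k) (G0 k) (H k))
          (jF2 P (fA k) (fB k) (G0 k) (H k)) (jEp P (fA k) (fB k) (G0 k) (H k)) (jEq P (fA k) (fB k) (G0 k) (H k))
          (jSF P (H k)) (jTF (G0 k)) (C (fA k)) (C (fB k)) (t (fA k)) (t' (fA k)) (t (fB k)) (t' (fB k)) (Cp k) (Cq k) (fp k)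
          (fq k) Z W := by
  obtain ⟨C, t, t', h1, h2, h3, h4, h5, h6⟩ := mk_all hP hL J mTT hG hTT loc
  have key := fun k => con_marks (con k) (V := univ) (V' := univ) MeasurableSet.univ MeasurableSet.univ
    (fun _ _ _ _ _ => mem_univ _) (fun _ _ _ _ _ => mem_univ _)
  choose Cp Cq fp fq p1 p2 p3 p4 p5 p6 p7 p8 using key
  refine ⟨C, t, t', Cp, Cq, fp, fq, h1, h2, h3, h4, h5, p1, p2, p3, p4, p7, p8, fun k Z W H5 H6 => ?_⟩
  have k3 := p7 k n0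
  have k4 := p8 k n0
  rw [eH, ew] at k3 k4
  refine jm_cg ((h6 k).jm ?_ ?_ H5 H6) (hT k) (hS k)
  · filter_upwards [k3] with g hg hne
    rw [← eS k g hne]
    exact hg hne
  · filter_upwards [k4] with g hg hne
    rw [← eS k g hne]
    exact hg hne

end Pool.Agent.ROT.F3.CK
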