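import Pool.Agent.ROT.F3AppY
import Pool.Agent.ROT.F3CoreC
import Pool.Agent.ROT.F3CoreJ

/-!
# ROT, F3, row R11 (helper51): the field `app` of `TopD` from the locality of the foreign gates

* `HPc A bn` : up to every visit of the ball `bn` the curve is in `A` (closed condition of 64's `chan_gen`); `HPc_loc` : it is local;
* `AppI` : what the limit objects have to give: the law `P` of the closed curves (any space `Y`), weight `w` of the native class of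
  the pair, `r` = rest of the strand, `Fp`, `Fq` = the foreign gates at the start (at the end) with all the conditions there, `S` =
  rests with the foreign gates (the class `k.C`), `T` = rests with companions; locality radius `R0 ≤ κ`;
* **`app_of`** : the approximation of the field `app`; **`app_top`** : the field itself.
-/

set_option autoImplicit false

noncomputable section

open MeasureTheory Filter Topology Set
open scoped ENNReal NNReal BoundedContinuousFunction Classical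

namespace Pool.Agent.ROT.F3E

open Pool.Agent.NTS.Res Pool.Agent.CRT Pool.Agent.ROT.F3 Pool.Agent.ROT.F3.CC

/-! ### 1. local conditions -/

/-- up to every visit of the ball `bn` the curve is in `A` -/
def HPc (A : Set ℂ) (bn : ℝ) : Set CI3 := {c | ∀ s t : unitInterval, s ≤ t → ‖c t‖ < bn → c s ∈ A}

lemma lt_val {τ t0 T : ℝ} (hT : t0 ≤ T) {u : unitInterval} : (lt τ t0 T u : unitInterval) = Set.projIcc 0 1 zero_le_one (τ * u / T) := by
  unfold lt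
  rw [max_eq_left hT]

lemma lp_at {τ t0 : ℝ} (ht : 0 < t0) (hτ : 0 < τ) {x : CI3 × ℝ} (hx : t0 ≤ x.2) {t : unitInterval} (h : t * x.2 ≤ τ) :
    ∃ u : unitInterval, (u : ℝ) = t * x.2 / τ ∧ lp τ t0 ht x u = x.1 t := by
  have hx0 : 0 < x.2 := ht.trans_le hx
  have h0 : 0 ≤ (t : ℝ) * x.2 / τ := div_nonneg (mul_nonneg t.2.1 hx0.le) hτ.le
  have h1 : (t : ℝ) * x.2 / τ ≤ 1 := by rwa [div_le_one hτ]
  refine ⟨⟨_, h0, h1⟩, rfl, ?_⟩
  rw [lp_apply, lt_val hx]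
  have e : τ * ((⟨(t : ℝ) * x.2 / τ, h0, h1⟩ : unitInterval) : ℝ) / x.2 = t := by
    show τ * ((t : ℝ) * x.2 / τ) / x.2 = t
    field_simp
  rw [e, Set.projIcc_val]

/-- **the condition is local** -/
theorem HPc_loc {τ t0 κ bn : ℝ} (ht : 0 < t0) (hτ : 0 < τ) (hb : bn ≤ κ) {A : Set ℂ} {x x' : CI3 × ℝ} (hx : t0 ≤ x.2)
    (hx' : t0 ≤ x'.2) (hl : x ∉ LateO τ κ) (e : lp τ t0 ht x = lp τ t0 ht x') (h : x'.1 ∈ HPc A bn) : x.1 ∈ HPc A bn := by
  intro s t hst hb'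
  have hx0 : 0 < x.2 := ht.trans_le hx
  have htτ : (t : ℝ) * x.2 ≤ τ := by
    by_contra hc
    exact hl ⟨t, not_le.1 hc, hb'.trans_le hb⟩
  have hsτ : (s : ℝ) * x.2 ≤ τ := (mul_le_mul_of_nonneg_right (by exact_mod_cast hst) hx0.le).trans htτ
  obtain ⟨u, hu, e1⟩ := lp_at ht hτ hx htτ
  obtain ⟨v, hv, e2⟩ := lp_at ht hτ hx hsτ
  have hvu : v ≤ u := by
    have : (v : ℝ) ≤ u := by
      rw [hu, hv]
      exact div_le_div_of_nonneg_right (mul_le_mul_of_nonneg_right (by exact_mod_cast hst) hx0.le) hτ.le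
    exact_mod_cast this
  rw [e, lp_apply] at e1 e2
  rw [← e2]
  refine h _ _ ?_ (by rw [e1]; exact hb')
  unfold lt
  refine Set.monotone_projIcc _ (div_le_div_of_nonneg_right (mul_le_mul_of_nonneg_left (by exact_mod_cast hvu) hτ.le) ?_)
  exact (ht.trans_le (le_max_right _ _)).le

/-- the time `τ` of the piece -/
def tm (τ : ℝ) (x : CI3 × ℝ) (h0 : 0 ≤ τ) (h : τ ≤ x.2) : unitInterval := ⟨τ / x.2, div_nonneg h0 (h0.trans h), div_le_one_of_le₀ h (h0.trans h)⟩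

lemma lp_pcut {τ t0 : ℝ} (ht : 0 < t0) (hτ : 0 < τ) {x : CI3 × ℝ} (hx : t0 ≤ x.2) (hτx : τ ≤ x.2) (h0 : x.1 0 = 0) :
    pcut x 0 (tm τ x hτ.le hτx) = (lp τ t0 ht x, τ) := by
  have hx0 : 0 < x.2 := ht.trans_le hx
  have ht0 : ((tm τ x hτ.le hτx : unitInterval) : ℝ) = τ / x.2 := rfl
  refine Prod.ext ?_ ?_
  · ext u
    show cutp x.1 0 (tm τ x hτ.le hτx) u = lp τ t0 ht x u
    rw [cutp_apply, ex_zero, h0, sub_zero, zero_add, sub_zero, lp_apply, lt_val hx, ht0]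
    unfold ex
    congr 2
    ring
  · show x.2 * |((tm τ x hτ.le hτx : unitInterval) : ℝ) - 0| = τ
    rw [sub_zero, ht0, abs_of_nonneg (by positivity)]
    field_simp

lemma lq_pcut {τ t0 : ℝ} (ht : 0 < t0) (hτ : 0 < τ) {x : CI3 × ℝ} (hx : t0 ≤ x.2) (hτx : τ ≤ x.2) :
    pcut x 1 (unitInterval.symm (tm τ x hτ.le hτx)) = (lq τ t0 ht x, τ) := by
  have hx0 : 0 < x.2 := ht.trans_le hx
  have ht0 : ((tm τ x hτ.le hτx : unitInterval) : ℝ) = τ / x.2 := rfl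
  have h01 : 0 ≤ τ / x.2 := by positivity
  have h11 : τ / x.2 ≤ 1 := div_le_one_of_le₀ hτx hx0.le
  refine Prod.ext ?_ ?_
  · ext u
    show cutp x.1 1 (unitInterval.symm (tm τ x hτ.le hτx) : unitInterval) u = rvc x.1 (lt τ t0 x.2 u)
    rw [cutp_apply, ex_one, rvc_apply, lt_val hx, unitInterval.coe_symm_eq, ht0]
    congr 1
    have e1 : (1 : ℝ) + u * (1 - τ / x.2 - 1) = 1 - τ * u / x.2 := by ring
    have h2 : τ * u / x.2 ∈ Icc (0 : ℝ) 1 := by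
      have e2 : τ * u / x.2 = τ / x.2 * u := by ring
      rw [e2]
      exact ⟨mul_nonneg h01 u.2.1, mul_le_one₀ h11 u.2.1 u.2.2⟩
    rw [e1, projIcc_of_mem zero_le_one h2]
    have h3 : (1 : ℝ) - τ * u / x.2 ∈ Icc (0 : ℝ) 1 := ⟨by linarith [h2.2], by linarith [h2.1]⟩
    rw [ex_of _ h3]
    rfl
  · show x.2 * |((unitInterval.symm (tm τ x hτ.le hτx) : unitInterval) : ℝ) - 1| = τ
    rw [unitInterval.coe_symm_eq, ht0, abs_sub_comm, sub_sub_cancel, abs_of_nonneg h01]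
    field_simp

/-- no late return: outside of the ball from the time `τ` on -/
lemma far_of {τ κ : ℝ} (hτ : 0 < τ) {x : CI3 × ℝ} (hτx : τ < x.2) (hl : x ∉ LateO τ κ) {t : unitInterval}
    (h : tm τ x hτ.le hτx.le ≤ t) : κ ≤ ‖x.1 t‖ := by
  have hx0 : 0 < x.2 := hτ.trans hτx
  have hstrict : ∀ s : unitInterval, tm τ x hτ.le hτx.le < s → κ ≤ ‖x.1 s‖ := by
    intro s hs
    by_contra hc
    refine hl ⟨s, ?_, not_le.1 hc⟩
    have h1 : τ / x.2 < s := by exact_mod_cast hs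
    rwa [div_lt_iff₀ hx0] at h1
  rcases h.lt_or_eq with h1 | h1
  · exact hstrict t h1
  · have hlt : tm τ x hτ.le hτx.le < 1 := by
      have : τ / x.2 < 1 := by rwa [div_lt_one hx0]
      exact_mod_cast this
    have hcl : IsClosed {s : unitInterval | κ ≤ ‖x.1 s‖} := isClosed_le continuous_const x.1.continuous.norm
    have hsub : Ioi (tm τ x hτ.le hτx.le) ⊆ {s : unitInterval | κ ≤ ‖x.1 s‖} := fun s hs => hstrict s hs
    have hmem : tm τ x hτ.le hτx.le ∈ closure (Ioi (tm τ x hτ.le hτx.le)) := by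
      rw [closure_Ioi' (a := tm τ x hτ.le hτx.le) ⟨(1 : unitInterval), hlt⟩]
      exact Set.self_mem_Ici
    rw [← h1]
    exact hcl.closure_subset_iff.2 hsub hmem

/-! ### 2. the data -/

/-- **what the limit objects have to give.** `P`, `G` : law of the closed curves and a set of full measure; `w` : weight of the native
class of the pair; `r` : the rest of the strand in question; `Fp`, `Fq` : the foreign gates of this rest at the start (at the end)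
exist with all the conditions at this end; `S` : the class `k.C`; `T` : rests with companions; `R0` : radius of locality; windows:
displacement in `[κ, D]`, durations in `[1/2, 2]`. -/
structure AppI {Y : Type*} [MeasurableSpace Y] (P : Measure Y) (w : Y → ℝ≥0∞) (r : Y → CI3 × ℝ) (m : Measure (CI3 × ℝ))
    (S T : Set (CI3 × ℝ)) (Fp Fq G : Set Y) (R0 κ D bn bn' : ℝ) (A A' : Set ℂ) : Prop where
  fP : IsFiniteMeasure (P.withDensity w)
  sP : SFinite P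
  mw : Measurable w
  mr : Measurable r
  mFp : MeasurableSet Fp
  mFq : MeasurableSet Fq
  mS : MeasurableSet S
  mT : MeasurableSet T
  hG : ∀ᵐ g ∂P, g ∈ G
  /-- every rest with companions comes from a closed curve -/
  ac : m.restrict T ≪ (P.withDensity w).map r
  ST : ∀ᵐ x ∂m, x ∈ S → x ∈ T
  z0 : ∀ g ∈ G, w g ≠ 0 → (r g).1 0 = 0
  R0κ : R0 ≤ κ
  far : ∀ g ∈ G, w g ≠ 0 → R0 ≤ ‖(r g).1 1‖
  /-- the class is the foreign gates at both ends, if the rest is in the windows -/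
  s1 : ∀ᵐ g ∂P, w g ≠ 0 → r g ∈ S → g ∈ Fp ∧ g ∈ Fq
  s2 : ∀ᵐ g ∂P, w g ≠ 0 → g ∈ Fp → g ∈ Fq → 1 / 2 ≤ (r g).2 → (r g).2 ≤ 2 → κ ≤ ‖(r g).1 1‖ → ‖(r g).1 1‖ ≤ D → r g ∈ S
  /-- **locality of the foreign gates at the start** -/
  lp : ∀ g ∈ G, ∀ g' ∈ G, w g ≠ 0 → w g' ≠ 0 → ∀ e e' : unitInterval, pcut (r g) 0 e = pcut (r g') 0 e' →
    (∀ t : unitInterval, e ≤ t → R0 ≤ ‖(r g).1 t‖) → (∀ t : unitInterval, e' ≤ t → R0 ≤ ‖(r g').1 t‖) → g ∈ Fp → g' ∈ Fp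
  /-- locality at the end -/
  lq : ∀ g ∈ G, ∀ g' ∈ G, w g ≠ 0 → w g' ≠ 0 → ∀ e e' : unitInterval, pcut (r g) 1 e = pcut (r g') 1 e' →
    (∀ t : unitInterval, t ≤ e → R0 ≤ ‖(r g).1 t - (r g).1 1‖) → (∀ t : unitInterval, t ≤ e' → R0 ≤ ‖(r g').1 t - (r g').1 1‖) →
      g ∈ Fq → g' ∈ Fq
  hb : bn ≤ κ
  hb' : bn' ≤ κ
  hp : ∀ g ∈ G, w g ≠ 0 → g ∈ Fp → (r g).1 ∈ HPc A bn
  hq : ∀ g ∈ G, w g ≠ 0 → g ∈ Fq → rvc (r g).1 ∈ HPc A' bn'
  /-- **existence of companions** (97) -/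
  comp : ∀ᵐ x ∂m, x.1 ∈ HPc A bn → rvc x.1 ∈ HPc A' bn' → 1 / 2 ≤ x.2 → x.2 ≤ 2 → κ ≤ ‖x.1 1‖ → ‖x.1 1‖ ≤ D → x ∈ T

/-- durations outside of `[1/2, 2]` -/
def Zd : Set (CI3 × ℝ) := {x | x.2 < 1 / 2 ∨ 2 < x.2}

lemma Zd_meas : MeasurableSet Zd :=
  (measurableSet_lt measurable_snd measurable_const).union (measurableSet_lt measurable_const measurable_snd)

lemma wm_Zd {th : ℝ} (hth : 0 < th) (h16 : th ≤ 1 / 16) (m : Measure (CI3 × ℝ)) [IsFiniteMeasure m] : (wm th m).real Zd = 0 := by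
  rw [real_wm th m Zd_meas]
  refine integral_eq_zero_of_ae (Eventually.of_forall fun x => ?_)
  show Zd.indicator (fun _ => (1 : ℝ)) x * ct (4 * th) x.2 = 0
  by_cases h : x ∈ Zd
  · have h1 : 4 * th ≤ |x.2 - 1| := by
      rcases h with h | h
      · rw [abs_of_nonpos (by linarith)]
        linarith
      · rw [abs_of_nonneg (by linarith)]
        linarith
    rw [ct_zero (by positivity) h1, mul_zero]
  · rw [indicator_of_notMem h, zero_mul]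

/-! ### 3. the theorem -/

theorem app_of {Y : Type*} [MeasurableSpace Y] [StandardBorelSpace Y] {P : Measure Y} {w : Y → ℝ≥0∞} {r : Y → CI3 × ℝ}
    {m : Measure (CI3 × ℝ)} [IsFiniteMeasure m] {S T : Set (CI3 × ℝ)} {Fp Fq G : Set Y} {R0 κ D bn bn' : ℝ} {A A' : Set ℂ}
    (I : AppI P w r m S T Fp Fq G R0 κ D bn bn' A A') {th τ δ M : ℝ} (hth : 0 < th) (h16 : th ≤ 1 / 16) (hτ : 0 < τ)
    (hτ2 : τ < 1 / 2) (hδ : 0 < δ) (hM : 0 < M)
    (b1 : (wm th m).real (LateO τ κ) ≤ δ * M) (b2 : (wm th m).real (rvr ⁻¹' LateO τ κ) ≤ δ * M)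
    (b3 : (wm th m).real (FarO D) ≤ δ * M) :
    ∃ (K : ℝ≥0) (Fp Fq : CI3 → ℝ) (cp : Continuous Fp) (cq : Continuous Fq) (ep : ∀ y, 0 ≤ Fp y ∧ Fp y ≤ 1)
      (eq : ∀ y, 0 ≤ Fq y ∧ Fq y ≤ 1), LipschitzWith K Fp ∧ LipschitzWith K Fq ∧
      ∫ x, |psB τ (1 / 2) one_half_pos Fp Fq cp cq ep eq x - S.indicator (fun _ => (1 : ℝ)) x| * ct (4 * th) x.2 ∂m ≤
        8 * δ * M := by
  have := I.fP
  have := I.sP
  -- the gates as sets of rests
  have key : ∀ F : Set Y, MeasurableSet F → (∀ g ∈ G, ∀ g' ∈ G, w g ≠ 0 → w g' ≠ 0 → r g = r g' → g ∈ F → g' ∈ F) →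
      ∃ C : Set (CI3 × ℝ), MeasurableSet C ∧ ∀ᵐ g ∂P, w g ≠ 0 → (r g ∈ C ↔ g ∈ F) := by
    intro F hF h
    obtain ⟨C, τ', hC, -, -, hCF⟩ := cls_of (ι := Unit) (P := fun _ => P) (w := fun _ => w) (fun _ => I.mw) (r := fun _ => r)
      (fun _ => I.mr) (F := fun _ => F) (fun _ => hF) (q := fun _ _ => ()) (fun _ => measurable_const)
      (V := univ) MeasurableSet.univ (G := fun _ => G) (fun _ => I.hG.mono fun g hg _ => hg) (fun _ _ _ _ _ => mem_univ _)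
      (fun _ _ g hg g' hg' h1 h2 e hgF => ⟨h g hg g' hg' h1 h2 e hgF, rfl⟩)
    exact ⟨C, hC, (hCF ()).mono fun g hg hw => (hg hw).1⟩
  obtain ⟨Cp, mCp, hCp⟩ := key Fp I.mFp fun g hg g' hg' h1 h2 e hF => by
    refine I.lp g hg g' hg' h1 h2 1 1 (by rw [e]) (fun t ht => ?_) (fun t ht => ?_) hF
    · rw [le_antisymm unitInterval.le_one' ht]
      exact I.far g hg h1
    · rw [le_antisymm unitInterval.le_one' ht]
      exact I.far g' hg' h2
  obtain ⟨Cq, mCq, hCq⟩ := key Fq I.mFq fun g hg g' hg' h1 h2 e hF => by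
    refine I.lq g hg g' hg' h1 h2 0 0 (by rw [e]) (fun t ht => ?_) (fun t ht => ?_) hF
    · rw [le_antisymm ht unitInterval.nonneg', I.z0 g hg h1, zero_sub, norm_neg]
      exact I.far g hg h1
    · rw [le_antisymm ht unitInterval.nonneg', I.z0 g' hg' h2, zero_sub, norm_neg]
      exact I.far g' hg' h2
  -- the good closed curves and the good rests
  obtain ⟨G', hG'⟩ : ∃ G' : Set Y, G' = {g | w g ≠ 0 ∧ g ∈ G ∧ (r g ∈ S → g ∈ Fp ∧ g ∈ Fq) ∧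
      (g ∈ Fp → g ∈ Fq → 1 / 2 ≤ (r g).2 → (r g).2 ≤ 2 → κ ≤ ‖(r g).1 1‖ → ‖(r g).1 1‖ ≤ D → r g ∈ S) ∧
      (r g ∈ Cp ↔ g ∈ Fp) ∧ (r g ∈ Cq ↔ g ∈ Fq)} := ⟨_, rfl⟩
  have aG' : ∀ᵐ g ∂(P.withDensity w), g ∈ G' := by
    rw [ae_withDensity_iff I.mw, hG']
    filter_upwards [I.hG, I.s1, I.s2, hCp, hCq] with g a1 a2 a3 a4 a5 hw
    exact ⟨hw, a1, a2 hw, a3 hw, a4 hw, a5 hw⟩
  have aT : ∀ᵐ x ∂m, x ∈ T → x ∈ r '' G' := by
    rw [← ae_restrict_iff' I.mT]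
    exact I.ac.ae_le (ae_img I.mr aG')
  obtain ⟨Gd, hGd⟩ : ∃ Gd : Set (CI3 × ℝ), Gd = {x | (x ∈ T → x ∈ r '' G') ∧ (x ∈ S → x ∈ T) ∧ (x.1 ∈ HPc A bn →
      rvc x.1 ∈ HPc A' bn' → 1 / 2 ≤ x.2 → x.2 ≤ 2 → κ ≤ ‖x.1 1‖ → ‖x.1 1‖ ≤ D → x ∈ T)} := ⟨_, rfl⟩
  have aGd : ∀ᵐ x ∂m, x ∈ Gd := by
    rw [hGd]
    filter_upwards [aT, I.ST, I.comp] with x a1 a2 a3
    exact ⟨a1, a2, a3⟩
  have aGd' : ∀ᵐ x ∂(wm th m), x ∈ Gd := (withDensity_absolutelyContinuous m _).ae_le aGd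
  have q2 : ∀ {x : CI3 × ℝ}, x ∉ Zd → 1 / 2 ≤ x.2 ∧ x.2 ≤ 2 := by
    intro x hx
    constructor
    · by_contra hc
      exact hx (Or.inl (not_le.1 hc))
    · by_contra hc
      exact hx (Or.inr (not_le.1 hc))
  have q1 : ∀ {x : CI3 × ℝ}, x ∉ Zd → x ∉ LateO τ κ → κ ≤ ‖x.1 1‖ := by
    intro x hx hl
    by_contra hc
    refine hl ⟨1, ?_, not_le.1 hc⟩
    rw [Set.Icc.coe_one, one_mul]
    linarith [(q2 hx).1]
  have q3 : ∀ {x : CI3 × ℝ}, x ∉ FarO D → ‖x.1 1‖ ≤ D := fun {x} hx => not_lt.1 hx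
  have mL : MeasurableSet (LateO τ κ) := (LateO_open _ _).measurableSet
  have mL' : MeasurableSet (rvr ⁻¹' LateO τ κ) := (LateE_open _ _).measurableSet
  have mD : MeasurableSet (FarO D) := (FarO_open _).measurableSet
  have hZ := wm_Zd hth h16 m
  have hδM : 0 < δ * M := mul_pos hδ hM
  obtain ⟨K, fp, fq, cp, cq, ep, eq, l1, l2, l3⟩ := app_T (m := wm th m) (τ := τ) (t0 := 1 / 2) one_half_pos (S := S) (T := T)
    (Ap := T ∩ Cp) (Aq := T ∩ Cq) (Gd := Gd) (B0 := Zd ∪ (FarO D ∪ LateO τ κ)) (Bp := Zd ∪ LateO τ κ)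
    (Bq := Zd ∪ rvr ⁻¹' LateO τ κ) I.mS (I.mT.inter mCp) (I.mT.inter mCq) (Zd_meas.union (mD.union mL)) (Zd_meas.union mL)
    (Zd_meas.union mL') aGd'
    (fun x hx hS => by
      rw [hGd] at hx
      have hxT := hx.2.1 hS
      obtain ⟨g, hg, rfl⟩ := hx.1 hxT
      rw [hG'] at hg
      obtain ⟨hw, g1, g2, g3, g4, g5⟩ := hg
      exact ⟨⟨hxT, g4.2 (g2 hS).1⟩, ⟨hxT, g5.2 (g2 hS).2⟩⟩)
    (fun x hx h0 hxT hxp hxq => by
      rw [hGd] at hx
      obtain ⟨g, hg, rfl⟩ := hx.1 hxT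
      rw [hG'] at hg
      obtain ⟨hw, g1, g2, g3, g4, g5⟩ := hg
      simp only [mem_union, not_or] at h0
      exact g3 (g4.1 hxp.2) (g5.1 hxq.2) (q2 h0.1).1 (q2 h0.1).2 (q1 h0.1 h0.2.2) (q3 h0.2.1))
    (fun x hx x' hx' hxT hxp hB hB' e => by
      rw [hGd] at hx hx'
      simp only [mem_union, not_or] at hB hB'
      obtain ⟨g, hg, rfl⟩ := hx.1 hxT
      obtain ⟨g', hg', rfl⟩ := hx'.1 hxp.1
      rw [hG'] at hg hg'
      obtain ⟨hw, g1, g2, g3, g4, g5⟩ := hg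
      obtain ⟨hw', g1', g2', g3', g4', g5'⟩ := hg'
      refine ⟨hxT, g4.2 ?_⟩
      have t1 : τ < (r g).2 := by linarith [(q2 hB.1).1]
      have t2 : τ < (r g').2 := by linarith [(q2 hB'.1).1]
      refine I.lp g' g1' g g1 hw' hw (tm τ (r g') hτ.le t2.le) (tm τ (r g) hτ.le t1.le) ?_ (fun t ht => ?_) (fun t ht => ?_)
        (g4'.1 hxp.2)
      · rw [lp_pcut one_half_pos hτ (q2 hB'.1).1 t2.le (I.z0 g' g1' hw'), lp_pcut one_half_pos hτ (q2 hB.1).1 t1.le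
          (I.z0 g g1 hw), e]
      · exact I.R0κ.trans (far_of hτ t2 hB'.2 ht)
      · exact I.R0κ.trans (far_of hτ t1 hB.2 ht))
    (fun x hx x' hx' hxT hxq hB hB' e => by
      rw [hGd] at hx hx'
      simp only [mem_union, not_or] at hB hB'
      obtain ⟨g, hg, rfl⟩ := hx.1 hxT
      obtain ⟨g', hg', rfl⟩ := hx'.1 hxq.1
      rw [hG'] at hg hg'
      obtain ⟨hw, g1, g2, g3, g4, g5⟩ := hg
      obtain ⟨hw', g1', g2', g3', g4', g5'⟩ := hg'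
      refine ⟨hxT, g5.2 ?_⟩
      have t1 : τ < (r g).2 := by linarith [(q2 hB.1).1]
      have t2 : τ < (r g').2 := by linarith [(q2 hB'.1).1]
      have fE : ∀ {y : CI3 × ℝ} (ty : τ < y.2), y ∉ rvr ⁻¹' LateO τ κ → ∀ t : unitInterval,
          t ≤ unitInterval.symm (tm τ y hτ.le ty.le) → κ ≤ ‖y.1 t - y.1 1‖ := by
        intro y ty hy t ht
        have h1 := far_of (x := rvr y) hτ ty hy (t := unitInterval.symm t) (by
          have := unitInterval.symm_le_symm.2 ht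
          rw [unitInterval.symm_symm] at this
          exact this)
        have h2 : (rvr y).1 (unitInterval.symm t) = y.1 t - y.1 1 := by
          show rvc y.1 (unitInterval.symm t) = _
          rw [rvc_apply, unitInterval.symm_symm]
        rwa [h2] at h1
      refine I.lq g' g1' g g1 hw' hw (unitInterval.symm (tm τ (r g') hτ.le t2.le)) (unitInterval.symm (tm τ (r g) hτ.le t1.le)) ?_
        (fun t ht => ?_) (fun t ht => ?_) (g5'.1 hxq.2)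
      · rw [lq_pcut one_half_pos hτ (q2 hB'.1).1 t2.le, lq_pcut one_half_pos hτ (q2 hB.1).1 t1.le, e]
      · exact I.R0κ.trans (fE t2 hB'.2 t ht)
      · exact I.R0κ.trans (fE t1 hB.2 t ht))
    (fun x hx h0 hBp hBq hp hq => by
      obtain ⟨x1, hx1, a1, b1, e1⟩ := hp
      obtain ⟨x2, hx2, a2, b2, e2⟩ := hq
      rw [hGd] at hx hx1 hx2
      simp only [mem_union, not_or] at h0 hBp hBq b1 b2
      refine hx.2.2 ?_ ?_ (q2 h0.1).1 (q2 h0.1).2 (q1 h0.1 h0.2.2) (q3 h0.2.1)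
      · refine HPc_loc one_half_pos hτ I.hb (q2 h0.1).1 (q2 b1.1).1 h0.2.2 e1 ?_
        obtain ⟨g, hg, rfl⟩ := hx1.1 a1.1
        rw [hG'] at hg
        exact I.hp g hg.2.1 hg.1 (hg.2.2.2.2.1.1 a1.2)
      · refine HPc_loc (x := rvr x) (x' := rvr x2) one_half_pos hτ I.hb' (q2 h0.1).1 (q2 b2.1).1 hBq.2 e2 ?_
        obtain ⟨g, hg, rfl⟩ := hx2.1 a2.1
        rw [hG'] at hg
        exact I.hq g hg.2.1 hg.1 (hg.2.2.2.2.2.1 a2.2))
    (δ := 4 * (δ * M)) (by positivity) (by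
      have g1 := measureReal_union_le (μ := wm th m) Zd (FarO D ∪ LateO τ κ)
      have g2 := measureReal_union_le (μ := wm th m) (FarO D) (LateO τ κ)
      have g3 := measureReal_union_le (μ := wm th m) Zd (LateO τ κ)
      have g4 := measureReal_union_le (μ := wm th m) Zd (rvr ⁻¹' LateO τ κ)
      linarith)
  refine ⟨K, fp, fq, cp, cq, ep, eq, l1, l2, ?_⟩
  rw [int_wm] at l3
  refine l3.trans (le_of_eq ?_)
  ring

/-- **the field `app` of `TopD`** -/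
theorem app_top {Y : Type*} [MeasurableSpace Y] [StandardBorelSpace Y] {P : Measure Y} {w : Y → ℝ≥0∞} {r : Y → CI3 × ℝ}
    {m : Measure (CI3 × ℝ)} [IsFiniteMeasure m] {S T : Set (CI3 × ℝ)} {Fp Fq G : Set Y} {R0 κ D bn bn' : ℝ} {A A' : Set ℂ}
    (I : AppI P w r m S T Fp Fq G R0 κ D bn bn' A A') {th τ e ε0 : ℝ} (hth : 0 < th) (h16 : th ≤ 1 / 16) (hτ : 0 < τ)
    (hτ2 : τ < 1 / 2) (hε0 : 0 < ε0) (hM : 0 < ∫ x in S, ct th x.2 ∂m)
    (b1 : (wm th m).real (LateO τ κ) ≤ ε0 / 8 * ∫ x in S, ct th x.2 ∂m)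
    (b2 : (wm th m).real (rvr ⁻¹' LateO τ κ) ≤ ε0 / 8 * ∫ x in S, ct th x.2 ∂m)
    (b3 : (wm th m).real (FarO D) ≤ ε0 / 8 * ∫ x in S, ct th x.2 ∂m) {F : CI3 → ℝ} {U : Filter ℕ} {C : ℕ → WCls}
    (gm : ∀ (K : ℝ≥0) (Fp Fq : CI3 → ℝ) (cp : Continuous Fp) (cq : Continuous Fq) (ep : ∀ y, 0 ≤ Fp y ∧ Fp y ≤ 1)
      (eq : ∀ y, 0 ≤ Fq y ∧ Fq y ≤ 1), LipschitzWith K Fp → LipschitzWith K Fq →
        ∀ᶠ N in U, Gm e th F ((C N).G N (psB τ (1 / 2) one_half_pos Fp Fq cp cq ep eq)) N) :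
    ∃ ψs : (CI3 × ℝ) →ᵇ ℝ, (∀ x, 0 ≤ ψs x) ∧ (∀ x, ψs x ≤ 1) ∧
      ∫ x, |ψs x - S.indicator (fun _ => (1 : ℝ)) x| * ct (4 * th) x.2 ∂m ≤ ε0 * ∫ x in S, ct th x.2 ∂m ∧
      ∀ᶠ N in U, Gm e th F ((C N).G N ψs) N := by
  obtain ⟨K, fp, fq, cp, cq, ep, eq, l1, l2, l3⟩ := app_of I hth h16 hτ hτ2 (show 0 < ε0 / 8 by positivity) hM b1 b2 b3
  refine ⟨psB τ (1 / 2) one_half_pos fp fq cp cq ep eq, fun x => ?_, fun x => ?_, ?_, gm K fp fq cp cq ep eq l1 l2⟩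
  · rw [psB_apply]
    exact mul_nonneg (ep _).1 (eq _).1
  · rw [psB_apply]
    exact mul_le_one₀ (ep _).2 (eq _).1 (eq _).2
  · refine l3.trans (le_of_eq ?_)
    ring

end Pool.Agent.ROT.F3E

end
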