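import Pool.Agent.ROT.F3Beta

/-!
# ROT / F3BetaC (helper56): the limits of the rests for the classes of F3Cls

Natural units: scale `N`, durations in units of `N ^ (4 / 3)`, masses in units of `N ^ (3 / 4)`.

* `cb N` = `N ^ (- 3 / 4)`; `Rst.c` : a rest of F3Cls is a rest between two cuts; **`rst_up`** : the mass of a class of rests;
* **`rst_lim`**, **`man_lim`** : the limit of the laws of (curve, duration) along an ultrafilter; a.e. the curve is simple and in the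
  closed class `ClR` / `ClM`;
* `WLim.mass` : the masses converge; `WLim.low`, `WLim.ne` : lower bounds; `lim_turn` : the turned curves.
-/

set_option autoImplicit false

open MeasureTheory Filter Topology
open scoped ENNReal NNReal Classical BoundedContinuousFunction

namespace Pool.Agent.ROT.F3.Bt

/-- unit of the masses of the rests -/
noncomputable def cb (N : ℕ) : ℝ≥0∞ := ENNReal.ofReal ((N : ℝ) ^ (-(3 / 4) : ℝ))

lemma cb_top (N : ℕ) : cb N ≠ ∞ := ENNReal.ofReal_ne_top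

lemma cb_ne {N : ℕ} (hN : 0 < N) : cb N ≠ 0 := by
  unfold cb
  have : (0 : ℝ) < N := by exact_mod_cast hN
  rw [Ne, ENNReal.ofReal_eq_zero, not_le]
  positivity

lemma restC_mono {d : ℂ} {r r' : ℝ} {R : W3} (h : RestC d r R) (hr : r' ≤ r) : RestC d r' R :=
  fun k hk hl hn => h k hk hl (hn.trans hr)

lemma rst_c {d d' : ℂ} {P Q : Tp} {W : Wn} {S T : ℝ} {R : W3} (h : RsQ d d' P Q W S T R) (hS : 0 ≤ S) :
    RsC d d' (min P.rg Q.rg * S) (min P.rg Q.rg * S) (W.D0 * S) R :=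
  ⟨h.ev, h.sw, restC_mono h.s.right (mul_le_mul_of_nonneg_right (min_le_left _ _) hS),
    restC_mono h.e.right (mul_le_mul_of_nonneg_right (min_le_right _ _) hS), h.far⟩

/-- **the mass of a class of rests** -/
theorem rst_up {P Q : Tp} {W : Wn} (hP : 0 < P.rg) (hQ : 0 < Q.rg) (hD : 0 < W.D0) (ht : 0 < W.t1) :
    ∃ C N0 : ℝ, 0 < C ∧ 1 ≤ N0 ∧ ∀ S : ℝ, N0 ≤ S → ∀ i j : Fin 3,
      ms (Rst (ev i) (ev j) P Q W S (S ^ (4 / 3 : ℝ))) (fun _ => 1) ≤ ENNReal.ofReal (C * S ^ (3 / 4 : ℝ)) := by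
  obtain ⟨C, N0, hC, hN0, h⟩ := Nm.beta_up (min P.rg Q.rg) W.D0 W.t1 (lt_min hP hQ) hD ht
  refine ⟨C, N0, hC, hN0, fun S hS i j => h S hS i j _ fun R hR => ⟨rst_c hR (by linarith), ?_⟩⟩
  exact (show RsQ _ _ P Q W S _ R from hR).hi

section lim

variable {P Q : Tp} {W : Wn} (hP : 0 < P.rg) (hQ : 0 < Q.rg) (hD : 0 < W.D0) (ht : 0 < W.t1) {i j : Fin 3} {Rs : ℕ → Set W3}
  {w : ℕ → W3 → ℝ} (hw : ∀ᶠ N in atTop, ∀ R ∈ Rs N, w N R ≤ 1) (U : Ultrafilter ℕ) (hU : (U : Filter ℕ) ≤ atTop)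

include hP hQ hD ht hw hU

/-- **the limit of a class of rests** -/
theorem rst_lim (hR : ∀ᶠ N : ℕ in atTop, Rs N ⊆ Rst (ev i) (ev j) P Q W N (uT N)) : ∃ m : Measure (CI3 × ℝ),
    WLim (U : Filter ℕ) (fun N => rm (cb N) N (uT N) (Rs N) (w N)) m ∧
      (∀ g : (CI3 × ℝ) →ᵇ ℝ, Tendsto (fun N => ∫ x, g x ∂(rm (cb N) N (uT N) (Rs N) (w N))) U (𝓝 (∫ x, g x ∂m))) ∧
      (∀ᵐ x ∂m, Function.Injective x.1 ∧ x.1 ∈ ClR (ev i) (ev j) P Q W ∧ W.t0 ≤ x.2 ∧ x.2 ≤ W.t1 ∧ 0 ≤ x.2) := by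
  have hN : Tendsto (fun N : ℕ => (N : ℝ)) atTop atTop := tendsto_natCast_atTop_atTop
  obtain ⟨m, h1, h2, h3⟩ := beta_lim (ρ := min P.rg Q.rg) (δ := W.D0) (B := W.t1) (K := 1) (A := 1) (lt_min hP hQ) hD ht le_rfl
    one_pos (i := i) (j := j) (Rs := Rs) (w := w) (c := cb) (σ := fun N => (N : ℝ)) (s := fun N => (N : ℝ)) (t := uT) hN
    (Eventually.of_forall fun N => ⟨by rw [div_one], by rw [one_mul]⟩)
    (Eventually.of_forall fun N => by rw [one_mul, uT])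
    (by
      filter_upwards [hR] with N hN R hRN
      exact ⟨rst_c (hN hRN) (Nat.cast_nonneg N), (show RsQ _ _ P Q W N _ R from hN hRN).hi⟩)
    hw (Eventually.of_forall fun N => by rw [one_mul, cb]) U hU
  have h4 := rst_ae (l := (U : Filter ℕ)) (c := cb) (S := fun N : ℕ => (N : ℝ)) (T := uT) (Rs := Rs) (w := w) (β := m) (d := ev i)
    (d' := ev j) (P := P) (Q := Q) (W := W) hD (hN.mono_left hU) (by
      filter_upwards [hU (eventually_gt_atTop 0)] with N hN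
      have : (0 : ℝ) < N := by exact_mod_cast hN
      unfold uT
      positivity) (hU hR) h1
  refine ⟨m, h1, h2, ?_⟩
  filter_upwards [h3, h4] with x a1 a2
  exact ⟨a1.1, a2.1, a2.2.1, a2.2.2, a1.2.2.1⟩

/-- **the limit of a class of main arcs** -/
theorem man_lim {s s' : Sr} (hR : ∀ᶠ N : ℕ in atTop, Rs N ⊆ Man (ev i) (ev j) P Q W s s' N (uT N)) :
    ∃ m : Measure (CI3 × ℝ), WLim (U : Filter ℕ) (fun N => rm (cb N) N (uT N) (Rs N) (w N)) m ∧
      (∀ g : (CI3 × ℝ) →ᵇ ℝ, Tendsto (fun N => ∫ x, g x ∂(rm (cb N) N (uT N) (Rs N) (w N))) U (𝓝 (∫ x, g x ∂m))) ∧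
      (∀ᵐ x ∂m, Function.Injective x.1 ∧ x.1 ∈ ClM (ev i) (ev j) P Q W s s' ∧ W.t0 ≤ x.2 ∧ x.2 ≤ W.t1 ∧ 0 ≤ x.2) := by
  obtain ⟨m, h1, h2, h3⟩ := rst_lim hP hQ hD ht hw U hU (i := i) (j := j) (hR.mono fun N hN => hN.trans fun R hR => MnQ.q hR)
  have h4 := man_ae (l := (U : Filter ℕ)) (c := cb) (S := fun N : ℕ => (N : ℝ)) (T := uT) (Rs := Rs) (w := w) (β := m) (d := ev i)
    (d' := ev j) (P := P) (Q := Q) (W := W) (s := s) (s' := s') hD ((tendsto_natCast_atTop_atTop).mono_left hU) (by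
      filter_upwards [hU (eventually_gt_atTop 0)] with N hN
      have : (0 : ℝ) < N := by exact_mod_cast hN
      unfold uT
      positivity) (hU hR) h1
  refine ⟨m, h1, h2, ?_⟩
  filter_upwards [h3, h4] with x a1 a2
  exact ⟨a1.1, a2.1, a1.2.2⟩

end lim

/-! ### masses -/

section mass

variable {X ι : Type*} [PseudoMetricSpace X] [MeasurableSpace X] {l : Filter ι} {b : ι → Measure X} {β : Measure X}

/-- the masses converge -/
lemma wlim_mass (h : WLim l b β) : Tendsto (fun N => (b N).real Set.univ) l (𝓝 (β.real Set.univ)) := by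
  have h1 := h.lim (fun _ => 1) (fun _ => ⟨zero_le_one, le_rfl⟩) ⟨0, LipschitzWith.const 1⟩
  simpa using h1

/-- a lower bound of the masses -/
lemma wlim_low [l.NeBot] (h : WLim l b β) {c : ℝ} (hc : ∀ᶠ N in l, ENNReal.ofReal c ≤ b N Set.univ) :
    ENNReal.ofReal c ≤ β Set.univ := by
  have := h.fβ
  refine (ENNReal.ofReal_le_iff_le_toReal (measure_ne_top β _)).2 ?_
  refine ge_of_tendsto (wlim_mass h) ?_
  filter_upwards [hc, h.fb] with N h1 h2
  exact (ENNReal.ofReal_le_iff_le_toReal (measure_ne_top _ _)).1 h1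

lemma wlim_ne [l.NeBot] (h : WLim l b β) {c : ℝ} (hc0 : 0 < c) (hc : ∀ᶠ N in l, ENNReal.ofReal c ≤ b N Set.univ) : β ≠ 0 := by
  intro h0
  have h1 := wlim_low h hc
  rw [h0, Measure.coe_zero, Pi.zero_apply, nonpos_iff_eq_zero, ENNReal.ofReal_eq_zero] at h1
  linarith

end mass

/-- the law of the rests has a lower bound if the class has -/
lemma rm_low {Rs : Set W3} {N : ℕ} (hN : 0 < N) {s t c : ℝ} (h : ENNReal.ofReal (c * (N : ℝ) ^ (3 / 4 : ℝ)) ≤ ms Rs fun _ => 1) :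
    ENNReal.ofReal c ≤ rm (cb N) s t Rs (fun _ => 1) Set.univ := by
  have h0 : (0 : ℝ) < N := by exact_mod_cast hN
  rw [rm_univ]
  simp only [ENNReal.ofReal_one]
  refine le_trans ?_ (mul_le_mul_right h _)
  have := nrm_mul (A := 1) (C := c) zero_le_one h0
  rw [one_mul, one_mul] at this
  rw [cb, this]

/-- **the turned curves** -/
lemma lim_turn {ι : Type*} {l : Filter ι} {b : ι → Measure (CI3 × ℝ)} {β : Measure (CI3 × ℝ)} (z : ℂ)
    (h : ∀ g : (CI3 × ℝ) →ᵇ ℝ, Tendsto (fun N => ∫ x, g x ∂(b N)) l (𝓝 (∫ x, g x ∂β))) (g : (CI3 × ℝ) →ᵇ ℝ) :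
    Tendsto (fun N => ∫ x, g (z • x.1, x.2) ∂(b N)) l (𝓝 (∫ x, g x ∂(β.map fun x => (z • x.1, x.2)))) := by
  have hc : Continuous fun x : CI3 × ℝ => (z • x.1, x.2) := (continuous_fst.const_smul z).prodMk continuous_snd
  rw [integral_map hc.measurable.aemeasurable g.continuous.measurable.aestronglyMeasurable]
  exact h (g.compContinuous ⟨_, hc⟩)

end Pool.Agent.ROT.F3.Bt
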