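import Pool.Agent.ROT.F3W7t
import Pool.Agent.ROT.F3HLocE
import Pool.Agent.ROT.F3AppZ
import Pool.Agent.ROT.F3CoreV
import Pool.Agent.ROT.F3BetaC

/-!
# ROT, F3 (helper63): existence of companions, the lattice 0

* `AH d e L` : ball and skew half plane; **`hg_hpc`** : the conditions `HG` in helper51's form `HPc`;
* **`comp0_hg`** : every rest of the class 0 (window `P.wd P.W`) with the conditions `HG` has companions of the classes 1, 2 (window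
  `P.wd P.Wc`), cells `Z0E`; **`comp0`** : the field `comp` of `LocN` (without the windows of the durations);
* **`C0.std`** : the numbers for `h = kc + n.m`, `L = s.len + 2 k`, `bn = s.bn - k`;
* **`ep_T`** : marked rests with outer gates (`EpC`, class 0) have companions.
-/

set_option autoImplicit false

open MeasureTheory Filter Topology Set
open scoped ENNReal NNReal

namespace Pool.Agent.ROT.F3

open Pool.Agent.ROT.F3.CC (Pie yP dsp_cont pcut Z0E)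
open Pool.Agent.ROT.F3E (HPc)

/-- ball and skew half plane -/
def AH (d : ℂ) (e L : ℝ) : Set ℂ := {v | ‖v‖ ≤ L ∧ -e ≤ lv d v - ltl d v / Real.sqrt 3}

/-- **the conditions `HG` in the form `HPc`** -/
theorem hg_hpc {d : ℂ} {e L bn e' L' bn' : ℝ} {c : C(unitInterval, ℂ)} :
    c ∈ HG d e L bn e' L' bn' ↔ c 0 = 0 ∧ c ∈ HPc (AH d e L) bn ∧ rvc c ∈ HPc (AH d e' L') bn' := by
  refine and_congr Iff.rfl (and_congr Iff.rfl ⟨fun h s t hst ht => ?_, fun h s t hst hs => ?_⟩)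
  · rw [rvc_apply] at ht ⊢
    exact h _ _ (unitInterval.symm_le_symm.2 hst) ht
  · have h1 := h (unitInterval.symm t) (unitInterval.symm s) (unitInterval.symm_le_symm.2 hst)
    rw [rvc_apply, rvc_apply, unitInterval.symm_symm, unitInterval.symm_symm] at h1
    exact h1 hs

/-- the unit of the masses -/
lemma cb_low (N : ℕ) : ENNReal.ofReal (1 / (N : ℝ) ^ (3 / 4 : ℝ)) ≤ Bt.cb N := by
  unfold Bt.cb
  rw [Real.rpow_neg (Nat.cast_nonneg N), one_div]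

/-- the cells and windows of the existence of companions at the two ends; `h`, `h'` = centres of the cells of the tips -/
structure C0 (P : Prm) (e L bn e' L' bn' h h' : ℝ) : Prop where
  pe : 0 ≤ e
  qe : 0 ≤ e'
  pa : e < h - P.p.kc
  qa : e' < h' - P.q.kc
  pb : 7 / 4 * (h - P.p.kc + 6 / 5 * P.p.n.r0) + (h - P.p.kc) < bn
  qb : 7 / 4 * (h' - P.q.kc + 6 / 5 * P.q.n.r0) + (h' - P.q.kc) < bn'
  pl : bn ≤ L
  ql : bn' ≤ L'
  D : 12 * (L + L') < P.W.D0 - (P.p.k + P.q.k)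
  hh : h - P.p.kc + (h' - P.q.kc) < 2 * (P.p.f.r0 + P.q.f.r0)

/-- the numbers of one end -/
lemma En.Ok.c0 {E : En} {ε : ℝ} (h : E.Ok ε) : (0 < E.n.κ ∧ E.n.κ < E.n.m) ∧
    7 / 4 * (E.n.m + 6 / 5 * E.n.r0) + E.n.m < E.s.bn - E.k ∧ E.s.bn - E.k ≤ E.s.len + 2 * E.k ∧
      12 * (E.s.len + 2 * E.k) + E.k ≤ 20 * E.s.len ∧ E.n.m < 2 * E.f.r0 := by
  have g1 := h.f.g64
  have g2 := h.f.rr'
  have g3 := h.ball
  have g4 := h.n.r
  have g5 := h.n.r2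
  have g6 := h.f.κ
  have g7 := h.f.m22
  have g8 := h.f.m
  have g9 := h.n.m22
  have g10 := h.n.m
  have g11 := h.n.g64
  have g12 := h.n.rr
  have g13 := h.r0
  have g14 := h.bn
  have g15 := h.len
  have g16 := h.rk
  have g17 := h.f.r2
  have g18 := h.n.κ
  have g19 := h.n.κ1
  have g20 := h.n.e
  have g21 := h.n.e1
  have g22 := h.n.cs
  have g23 := h.n.l
  have g24 := h.nlr
  have g25 := h.n.m8
  have ek : E.k = E.rk + E.f.r2 := rfl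
  have h1 : (1 - E.n.cs) * E.n.l ≤ 1 / 2 * E.n.l := mul_le_mul_of_nonneg_right (by linarith) g23.le
  rw [ek] at g13 ⊢
  refine ⟨⟨g18, by linarith⟩, by linarith, by linarith, by linarith, by linarith⟩

/-- **the standard numbers**: cells at `h = kc + n.m` -/
theorem C0.std {P : Prm} (hP : P.Ok) : C0 P P.p.n.κ (P.p.s.len + 2 * P.p.k) (P.p.s.bn - P.p.k) P.q.n.κ (P.q.s.len + 2 * P.q.k)
    (P.q.s.bn - P.q.k) (P.p.kc + P.p.n.m) (P.q.kc + P.q.n.m) := by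
  obtain ⟨⟨a1, a2⟩, a3, a4, a5, a6⟩ := hP.p.c0
  obtain ⟨⟨b1, b2⟩, b3, b4, b5, b6⟩ := hP.q.c0
  have h1 := hP.nr
  refine ⟨a1.le, b1.le, by linarith, by linarith, ?_, ?_, a4, b4, by linarith, by linarith⟩
  · rw [add_sub_cancel_left]
    exact a3
  · rw [add_sub_cancel_left]
    exact b3

section

variable {P : Prm} (hP : P.Ok) {U : Filter ℕ} [U.NeBot] (hU : U ≤ atTop) {β1 β2 : Measure Pie}
  (w1 : WLim U (fun N => rm (Bt.cb N) N (uT N) (P.R0 1 P.Wc N) fun _ => 1) β1)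
  (w2 : WLim U (fun N => rm (Bt.cb N) N (uT N) (P.R0 2 P.Wc N) fun _ => 1) β2)
  {e L bn e' L' bn' h h' ρ ρ' : ℝ} (hc : C0 P e L bn e' L' bn' h h') (hρ : 0 < ρ) (hρ' : 0 < ρ')

include hP hU w1 w2 hc hρ hρ'

/-- **companions of the rests with the conditions `HG`**, lattice 0 -/
theorem comp0_hg {x : Pie} (hi : Function.Injective x.1) (hx : x.1 ∈ HG (ev 0) e L bn e' L' bn')
    (hD0 : P.W.D0 - (P.p.k + P.q.k) ≤ ‖x.1 1‖) (hD1 : ‖x.1 1‖ ≤ P.W.D1 + (P.p.k + P.q.k)) :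
    x ∈ TT β1 (Z0E (ev 0) (ev 1) P.p h ρ) (Z0E (ev 0) (ev 2) P.q h' ρ') ∧
      x ∈ TT β2 (Z0E (ev 0) (ev 2) P.p h ρ) (Z0E (ev 0) (ev 1) P.q h' ρ') := by
  have f1 := hP.farc
  have f2 := hP.p.f.r
  have f3 := hP.p.f.r2
  have f4 := hP.q.f.r
  have f5 := hP.q.f.r2
  have f6 := hP.Dc
  have f7 := hP.Dc'
  have f8 := hc.hh
  have f9 := hP.p.lk
  have f10 := hP.q.lk
  exact Ln.comp_pie (P := P.p.n) (Q := P.q.n) (V := P.wd P.Wc) hP.p.n hP.q.n (by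
      show 0 < P.Wc.t1 + (P.p.lk + P.q.lk)
      linarith [hP.t1c]) (show P.Wc.t0 ≤ 0 from hP.t0c.le) (by
      show 0 < P.Wc.D0 - (P.p.k + P.q.k)
      linarith) hU one_pos (Eventually.of_forall cb_low) w1 w2 hc.pe hc.qe hc.pa hc.qa hc.pb hc.qb hc.pl hc.ql hc.D (by
      show P.Wc.D0 - (P.p.k + P.q.k) + 2 * (h - P.p.kc + (h' - P.q.kc)) < _
      linarith) (by
      show P.W.D1 + (P.p.k + P.q.k) + 2 * (h - P.p.kc + (h' - P.q.kc)) < P.Wc.D1 + (P.p.k + P.q.k)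
      linarith) hρ hρ' hi hx hD0 hD1

/-- **the field `comp`, lattice 0** (for all rests of the class, all durations) -/
theorem comp0 {m : Measure Pie} (hm : ∀ᵐ x ∂m, Function.Injective x.1 ∧ x.1 ∈ ClR (ev 0) (ev 0) P.p.n P.q.n (P.wd P.W)) :
    ∀ᵐ x ∂m, x.1 ∈ HPc (AH (ev 0) e L) bn → rvc x.1 ∈ HPc (AH (ev 0) e' L') bn' →
      x ∈ TT β1 (Z0E (ev 0) (ev 1) P.p h ρ) (Z0E (ev 0) (ev 2) P.q h' ρ') ∧
        x ∈ TT β2 (Z0E (ev 0) (ev 2) P.p h ρ) (Z0E (ev 0) (ev 1) P.q h' ρ') := by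
  filter_upwards [hm] with x hx h1 h2
  exact comp0_hg hP hU w1 w2 hc hρ hρ' hx.1 (hg_hpc.2 ⟨hx.2.1, h1, h2⟩) hx.2.2.1.1 hx.2.2.1.2

end

/-- **marked rests with outer gates have companions**, lattice 0, class 0. `O`, `O'` : outer blocks, `V` : window between the outer
gates -/
theorem ep_T {P : Prm} (hP : P.Ok) {U : Filter ℕ} [U.NeBot] (hU : U ≤ atTop) {β1 β2 : Measure Pie}
    (w1 : WLim U (fun N => rm (Bt.cb N) N (uT N) (P.R0 1 P.Wc N) fun _ => 1) β1)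
    (w2 : WLim U (fun N => rm (Bt.cb N) N (uT N) (P.R0 2 P.Wc N) fun _ => 1) β2)
    {O O' : Ot} {Y Y' : Tp} {V : Wn} {bn bn' h h' ρ ρ' : ℝ} (hc : C0 P O.κ O.r bn O'.κ O'.r bn' h h') (hρ : 0 < ρ) (hρ' : 0 < ρ')
    (c1 : 3 / 5 ≤ O.c) (c1' : 3 / 5 ≤ O'.c) (b1 : bn ≤ O.m) (b1' : bn' ≤ O'.m) (b2 : bn + O.r ≤ Y.rg) (b2' : bn' + O'.r ≤ Y'.rg)
    (b3 : bn + (O.r + 2 * O'.r) ≤ V.D0) (b3' : bn' + (2 * O.r + O'.r) ≤ V.D0)
    (d0 : P.W.D0 - (P.p.k + P.q.k) ≤ V.D0 - (O.r + O'.r)) (d1 : V.D1 + (O.r + O'.r) ≤ P.W.D1 + (P.p.k + P.q.k))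
    {x : Pie × (ℝ × ℝ)} (hx : EpC (ev 0) (ev 0) O O' Y Y' V x) (hi : Function.Injective x.1.1) :
    x.1 ∈ TT β1 (Z0E (ev 0) (ev 1) P.p h ρ) (Z0E (ev 0) (ev 2) P.q h' ρ') ∧
      x.1 ∈ TT β2 (Z0E (ev 0) (ev 2) P.p h ρ) (Z0E (ev 0) (ev 1) P.q h' ρ') := by
  obtain ⟨e1, e2⟩ := hx.end1
  exact comp0_hg hP hU w1 w2 hc hρ hρ' hi (hx.hg (ev_norm 0) c1 c1' b1 b1' b2 b2' b3 b3') (d0.trans e1) (e2.trans d1)

end Pool.Agent.ROT.F3
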