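import Pool.Agent.ROT.F3LocE
import Pool.Agent.ROT.F3HLoc0

/-!
# ROT, F3 (B) (helper51): the foreign gates of a main arc give the closed condition `HPc` of the rest

* `skew_ge` : the skew abscissa in a strip of a slightly turned direction;
* **`FgR.hpc`** : fields `hp`, `hq` of `LocN`.
-/

set_option autoImplicit false

noncomputable section

open Set Topology ComplexConjugate

namespace Pool.Agent.ROT.F3

open Pool.Agent.ROT.F3.CC (Pie ex ex_of ex_coe ex_zero ex_one cutp cutp_one pcut)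
open Pool.Agent.ROT.F3E (HPc)

/-- the skew abscissa in a strip of a turned direction -/
lemma skew_ge {d t v : ℂ} (hd : ‖d‖ = 1) (ht : ‖t‖ = 1) {ε x0 y0 : ℝ} (h : ‖d - t‖ ≤ ε) (hε : ε ≤ 3 / 10) (h0 : 0 ≤ x0)
    (hx : -x0 ≤ lv t v) (hy : |ltl t v| ≤ y0) : -(13 / 10 * x0 + 9 / 10 * y0) ≤ lv d v - ltl d v / Real.sqrt 3 := by
  have cd : conj d * d = 1 := by
    rw [mul_comm, Complex.mul_conj, Complex.normSq_eq_norm_sq, hd]
    norm_num
  have ct : t * conj t = 1 := by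
    rw [Complex.mul_conj, Complex.normSq_eq_norm_sq, ht]
    norm_num
  obtain ⟨w, hw⟩ : ∃ w, w = conj d * t := ⟨_, rfl⟩
  have e1 : conj d * v = w * (conj t * v) := by
    rw [hw]
    calc conj d * v = conj d * (t * conj t) * v := by rw [ct, mul_one]
      _ = _ := by ring
  have n1 : ‖w - 1‖ ≤ ε := by
    have e : w - 1 = conj d * (t - d) := by
      rw [hw, mul_sub, cd]
    rw [e, norm_mul, Complex.norm_conj, hd, one_mul, norm_sub_rev]
    exact h
  have n2 : ‖w‖ = 1 := by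
    rw [hw, norm_mul, Complex.norm_conj, hd, ht, one_mul]
  have a1 : |w.re - 1| ≤ ε := by
    have := (Complex.abs_re_le_norm (w - 1)).trans n1
    rwa [Complex.sub_re, Complex.one_re] at this
  have a2 : |w.im| ≤ ε := by
    have := (Complex.abs_im_le_norm (w - 1)).trans n1
    rwa [Complex.sub_im, Complex.one_im, sub_zero] at this
  have a3 : w.re ≤ 1 := (Complex.re_le_norm w).trans n2.le
  have f1 : lv d v = w.re * lv t v - w.im * ltl t v := by
    unfold lv ltl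
    rw [e1, Complex.mul_re]
  have f2 : ltl d v = w.re * ltl t v + w.im * lv t v := by
    unfold lv ltl
    rw [e1, Complex.mul_im]
  obtain ⟨q, hq⟩ : ∃ q : ℝ, q = (Real.sqrt 3)⁻¹ := ⟨_, rfl⟩
  have s3 : 0 < Real.sqrt 3 := Real.sqrt_pos.2 (by norm_num)
  have q0 : 0 < q := by
    rw [hq]
    positivity
  have q1 : q ≤ 3 / 5 := by
    rw [hq, inv_le_comm₀ s3 (by norm_num)]
    rw [show (3 / 5 : ℝ)⁻¹ = 5 / 3 by norm_num]
    exact Real.le_sqrt_of_sq_le (by norm_num)
  obtain ⟨b1, b2⟩ := abs_le.1 a1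
  obtain ⟨b3, b4⟩ := abs_le.1 a2
  obtain ⟨y1, y2⟩ := abs_le.1 hy
  have hy0 : 0 ≤ y0 := (abs_nonneg _).trans hy
  have p1 : |q * w.im| ≤ 3 / 5 * (3 / 10) := by
    rw [abs_mul, abs_of_pos q0]
    exact mul_le_mul q1 (a2.trans hε) (abs_nonneg _) (by norm_num)
  obtain ⟨p2, p3⟩ := abs_le.1 p1
  have r1 : 0 ≤ w.re - q * w.im := by linarith
  have r2 : w.re - q * w.im ≤ 13 / 10 := by linarith
  have p4 : |q * w.re| ≤ 3 / 5 := by
    rw [abs_mul, abs_of_pos q0]
    calc q * |w.re| ≤ 3 / 5 * 1 := mul_le_mul q1 ((Complex.abs_re_le_norm w).trans n2.le) (abs_nonneg _) (by norm_num)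
      _ = 3 / 5 := mul_one _
  have r3 : |w.im + q * w.re| ≤ 9 / 10 := by
    refine (abs_add_le _ _).trans ?_
    linarith
  have e2 : lv d v - ltl d v / Real.sqrt 3 = (w.re - q * w.im) * lv t v - (w.im + q * w.re) * ltl t v := by
    rw [f1, f2, div_eq_mul_inv, ← hq]
    ring
  have g1 : -(13 / 10 * x0) ≤ (w.re - q * w.im) * lv t v := by
    have h1 : (w.re - q * w.im) * (-x0) ≤ (w.re - q * w.im) * lv t v := mul_le_mul_of_nonneg_left hx r1
    have h2 : (w.re - q * w.im) * x0 ≤ 13 / 10 * x0 := mul_le_mul_of_nonneg_right r2 h0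
    linarith
  have g2 : (w.im + q * w.re) * ltl t v ≤ 9 / 10 * y0 := by
    refine (le_abs_self _).trans ?_
    rw [abs_mul]
    exact mul_le_mul r3 hy (abs_nonneg _) (by norm_num)
  rw [e2]
  linarith

lemma skew_small {d : ℂ} (hd : ‖d‖ = 1) (v : ℂ) : -(8 / 5 * ‖v‖) ≤ lv d v - ltl d v / Real.sqrt 3 := by
  have h1 := skew_ge (d := d) (t := d) (v := v) (ε := 0) (x0 := ‖v‖) (y0 := ‖v‖) hd hd (by rw [sub_self, norm_zero]) (by norm_num)
    (norm_nonneg _) (by
      unfold lv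
      have := Complex.abs_re_le_norm (conj d * v)
      rw [norm_mul, Complex.norm_conj, hd, one_mul] at this
      exact (abs_le.1 this).1) (by
      unfold ltl
      have := Complex.abs_im_le_norm (conj d * v)
      rwa [norm_mul, Complex.norm_conj, hd, one_mul] at this)
  have s3 : 0 < Real.sqrt 3 := Real.sqrt_pos.2 (by norm_num)
  have q1 : (Real.sqrt 3)⁻¹ ≤ 3 / 5 := by
    rw [inv_le_comm₀ s3 (by norm_num)]
    rw [show (3 / 5 : ℝ)⁻¹ = 5 / 3 by norm_num]
    exact Real.le_sqrt_of_sq_le (by norm_num)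
  have a1 : |lv d v| ≤ ‖v‖ := by
    unfold lv
    have := Complex.abs_re_le_norm (conj d * v)
    rwa [norm_mul, Complex.norm_conj, hd, one_mul] at this
  have a2 : |ltl d v| ≤ ‖v‖ := by
    unfold ltl
    have := Complex.abs_im_le_norm (conj d * v)
    rwa [norm_mul, Complex.norm_conj, hd, one_mul] at this
  have a3 : |ltl d v / Real.sqrt 3| ≤ 3 / 5 * ‖v‖ := by
    rw [div_eq_mul_inv, abs_mul, abs_of_pos (inv_pos.2 s3), mul_comm]
    exact mul_le_mul q1 a2 (abs_nonneg _) (by norm_num)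
  have b1 := (abs_le.1 a1).1
  have b2 := (abs_le.1 a3).2
  linarith

/-- **the fields `hp`, `hq`**: rests with foreign gates, main arcs -/
theorem FgR.hpc {d t : ℂ} {E : En} {ρ : Pie} {a b ε : ℝ} (hE : E.Ok ε) (hc : 3 / 5 ≤ E.n.c) (hd : ‖d‖ = 1) (ht : ‖t‖ = 1)
    (hdt : ‖d - t‖ ≤ ε) {mn : Prop} (hm : mn) (H : FgR d t E mn ρ a b) (z : ρ.1 0 = 0) :
    ρ.1 ∈ HPc (AH d E.n.κ (E.s.len + 2 * E.k)) (E.s.bn - E.k) := by
  have h0 := H.h0
  have h1 := H.h1
  have h2 := H.h2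
  have b1 := hE.bn
  have b2 := hE.len
  have b3 := hE.se
  have b4 := hE.se''
  have b5 := hE.hw
  have b6 := hE.hw'
  have b7 := hE.kc
  have b8 := hE.kr'
  have b9 := hE.f.m22
  have b10 := hE.rk
  have b11 := hE.f.m
  have b12 := hE.f.l
  have b13 := hE.n.m22
  have b14 := hE.n.g64
  have b15 := hE.locb
  have b16 := hE.f.κ
  have b17 := hE.n.κ
  have b18 := hE.κk
  have b19 := hE.c
  have b20 := hE.f.c1
  have b21 := hE.n.r
  have b22 := hE.n.m
  have b23 := hE.f.rr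
  have b24 := hE.f.g64
  have b25 := hE.f.r
  have b26 := hE.f.r2
  have b27 := hE.kr
  have b28 := hE.n.r2
  have ek : E.k = E.rk + E.f.r2 := rfl
  have hlen : 0 < E.s.len := by linarith
  have hε0 : 0 ≤ ε := (norm_nonneg _).trans hdt
  have pos : ∀ u : ℝ, 0 ≤ u → u ≤ b → ex ρ.1 u ∈ AH d E.n.κ (E.s.len + 2 * E.k) := by
    intro u hu hu'
    refine ⟨(H.ball z u hu hu').trans (by linarith), ?_⟩
    have k1 := (stS_cutp (fCo_lip hd (by linarith) (by linarith)).continuous (h0.trans h1)).1 H.κk u hu hu'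
    rw [ex_zero, z, sub_zero] at k1
    have k2 : Kn d E.n.c E.n.κ (ex ρ.1 u) := by
      show E.n.c * ‖ex ρ.1 u‖ - E.n.κ ≤ lv d (ex ρ.1 u)
      have k3 : E.n.c * ‖ex ρ.1 u‖ - lv d (ex ρ.1 u) ≤ E.κk := k1
      linarith
    exact ab_cone hd hc k2
  intro s t' hst hb
  have es : ρ.1 s = ex ρ.1 s := (ex_coe _ _).symm
  have et : ρ.1 t' = ex ρ.1 t' := (ex_coe _ _).symm
  have hst' : (s : ℝ) ≤ t' := hst
  rw [es]
  rcases le_total (s : ℝ) b with hsb | hsb
  · exact pos _ s.2.1 hsb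
  · -- in the strip
    rw [et] at hb
    have kb := H.ball z b (h0.trans h1) le_rfl
    have n1 : ‖ex ρ.1 t' - ex ρ.1 b‖ < E.s.bn := by
      have := norm_sub_le (ex ρ.1 t') (ex ρ.1 b)
      linarith
    obtain ⟨δ, hδ, hδ1, hδ2⟩ : ∃ δ : ℝ, 0 < δ ∧ δ ≤ E.s.bn - ‖ex ρ.1 t' - ex ρ.1 b‖ ∧ δ ≤ E.f.m / 20 :=
      ⟨min (E.s.bn - ‖ex ρ.1 t' - ex ρ.1 b‖) (E.f.m / 20), lt_min (by linarith) (by positivity), min_le_left _ _,
        min_le_right _ _⟩
    obtain ⟨θ, g1, g2, g3, g4⟩ := (stN_cutp (fSt_lip ht).continuous fBn_lip.continuous h2).1 (H.nr hm) δ hδ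
    have hθ : (t' : ℝ) < θ := by
      by_contra hc'
      have g5 : E.s.bn - ‖ex ρ.1 t' - ex ρ.1 b‖ < δ := g4 t' (not_lt.1 hc') t'.2.2
      linarith
    have g5 := g3 s hsb (by linarith)
    unfold fSt at g5
    simp only [max_lt_iff] at g5
    obtain ⟨⟨g6, g7⟩, g8⟩ := g5
    obtain ⟨v, hv⟩ : ∃ v, v = ex ρ.1 s - ex ρ.1 b := ⟨_, rfl⟩
    rw [← hv] at g6 g7 g8
    have e1 : ex ρ.1 s = ex ρ.1 b + v := by
      rw [hv]
      ring
    have nv : ‖v‖ ≤ |lv t v| + |ltl t v| := by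
      have := Complex.norm_le_abs_re_add_abs_im (conj t * v)
      rwa [norm_mul, Complex.norm_conj, ht, one_mul] at this
    have lv1 : |lv t v| ≤ E.s.len + δ := by
      rw [abs_le]
      constructor <;> linarith
    refine ⟨?_, ?_⟩
    · rw [e1]
      have := norm_add_le (ex ρ.1 b) v
      linarith
    · have k1 := skew_ge (x0 := E.s.e + δ) (y0 := E.s.hw + δ) hd ht hdt (by linarith [hE.n.cs, hE.n.c]) (by linarith)
        (by linarith) (by linarith)
      have k2 : ‖ex ρ.1 b - (E.kc : ℂ) * d‖ ≤ E.kr := by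
        have := H.kr
        rwa [cutp_one, ex_zero, z, sub_zero] at this
      have k3 := skew_small hd (ex ρ.1 b - (E.kc : ℂ) * d)
      have cd : conj d * d = 1 := by
        rw [mul_comm, Complex.mul_conj, Complex.normSq_eq_norm_sq, hd]
        norm_num
      have k4 : lv d ((E.kc : ℂ) * d) = E.kc := by
        unfold lv
        rw [mul_left_comm, cd, mul_one, Complex.ofReal_re]
      have k5 : ltl d ((E.kc : ℂ) * d) = 0 := by
        unfold ltl
        rw [mul_left_comm, cd, mul_one, Complex.ofReal_im]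
      have k6 : ∀ x y : ℂ, lv d (x + y) - ltl d (x + y) / Real.sqrt 3 = lv d x - ltl d x / Real.sqrt 3 +
          (lv d y - ltl d y / Real.sqrt 3) := by
        intro x y
        unfold lv ltl
        rw [mul_add, Complex.add_re, Complex.add_im]
        ring
      have e2 : ex ρ.1 s = (E.kc : ℂ) * d + (ex ρ.1 b - (E.kc : ℂ) * d) + v := by
        rw [e1]
        ring
      rw [e2, k6, k6, k4, k5, zero_div, sub_zero]
      linarith

end Pool.Agent.ROT.F3
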