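import Pool.Agent.ROT.F3TotW
import Pool.Agent.ROT.F3Prm22

/-!
# ROT / F3TotN (helper89): `tot_low` for the base numbers of helper22

* `ratW_n`, `ratW_f` : the data near `bN`, `bF` (all levels `y ≤ 24 ρ`) satisfy `RatW (1 / 1000000)`;
* **`tot_low_n`**, **`tot_low_f`** ; `tot_low_ev` : the form with a filter, equal data of the two strands.
-/

set_option autoImplicit false

open Filter

namespace Pool.Agent.ROT.F3

/-- row LT, equal data of the two strands, eventually -/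
theorem tot_low_ev {ζ : ℝ} (hζ : 0 < ζ) : ∃ A : ℝ, 0 < A ∧ ∀ {i j : Fin 3}, i ≠ j → ∀ P : Tp, P.Ok → RatW ζ P →
    A * P.m ^ (4 / 3 : ℝ) ≤ P.la → A * P.m ^ (4 / 3 : ℝ) ≤ P.lb → ∃ c : ℝ, 0 < c ∧ ∀ᶠ N : ℕ in atTop,
      ENNReal.ofReal (c * (N : ℝ) ^ (7 / 12 : ℝ)) ≤ totQ (ev i) (ev j) P P N (uT N) (fun _ => 1) := by
  obtain ⟨A, hA, h⟩ := tot_low hζ
  refine ⟨A, hA, fun {i j} hij P hP hR a1 a2 => ?_⟩
  obtain ⟨c, N0, hc, -, h1⟩ := h hij P P hP hP rfl rfl hR hR a1 a2 a1 a2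
  refine ⟨c, hc, ?_⟩
  filter_upwards [eventually_ge_atTop ⌈N0⌉₊] with N hN
  exact h1 N ((Nat.le_ceil _).trans (by exact_mod_cast hN))

/-- the native gates of the lattice 0 -/
theorem ratW_n {P : Tp} {ρ τ : ℝ} (hρ : 0 < ρ) (h : P.Nr (bN ρ τ)) {y : ℝ} (hy : 0 ≤ y) (hy' : y ≤ 1 / 4 * ρ) :
    RatW (1 / 1000000) (P.up y) := by
  have a1 : 1 / 2 * ρ ≤ P.l := h.l.1
  have a2 : P.l ≤ 101 / 100 * (1 / 2 * ρ) := h.l.2
  have a3 : 1 * ρ ≤ P.r := h.r.1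
  have a4 : 81 / 10 * ρ ≤ P.m := h.m.1
  have a5 : P.m ≤ 101 / 100 * (81 / 10 * ρ) := h.m.2
  have a6 : P.th ≤ 101 / 100 * (3 / 4) := h.th.2
  have a7 : 1 / 25 * ρ ≤ P.κ1 := h.κ1.1
  have a8 : 1 / 10 * ρ ≤ P.κ := h.κ.1
  have a9 : P.e ≤ 101 / 100 * (3 / 20 * ρ) := h.e.2
  have a10 : P.cs ≤ 101 / 100 * (3 / 5) := h.cs.2
  have a11 : 2 / 5 * ρ ≤ P.w := h.w.1
  constructor
  · show 1 / 1000000 * P.m ≤ P.l + y
    linarith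
  · show P.l + y + 1 / 1000000 * P.m ≤ P.r
    linarith
  · show 1 / 1000000 * P.m ≤ P.κ1
    linarith
  · show 1 / 1000000 * P.m ≤ P.κ
    linarith
  · show P.e + 1 / 1000000 * P.m ≤ (1 - P.cs) * (P.l + y)
    have h1 : (1 - 101 / 100 * (3 / 5)) * (1 / 2 * ρ) ≤ (1 - P.cs) * (P.l + y) :=
      mul_le_mul (by linarith) (by linarith) (by positivity) (by linarith)
    linarith
  · show P.th ≤ 1 - 1 / 1000000
    linarith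
  · show 1 / 1000000 * P.m ≤ P.w
    linarith
  · show 1 / 1000000 * (P.l + y) ≤ P.m
    linarith

/-- the gates of the rotated lattice, all levels -/
theorem ratW_f {P : Tp} {ρ τ : ℝ} (hρ : 0 < ρ) (h : P.Nr (bF ρ τ)) {y : ℝ} (hy : 0 ≤ y) (hy' : y ≤ 24 * ρ) :
    RatW (1 / 1000000) (P.up y) := by
  have a1 : 60 * ρ ≤ P.l := h.l.1
  have a2 : P.l ≤ 101 / 100 * (60 * ρ) := h.l.2
  have a3 : 105 * ρ ≤ P.r := h.r.1
  have a4 : 11400 * ρ ≤ P.m := h.m.1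
  have a5 : P.m ≤ 101 / 100 * (11400 * ρ) := h.m.2
  have a6 : P.th ≤ 101 / 100 * (3 / 4) := h.th.2
  have a7 : 1 * ρ ≤ P.κ1 := h.κ1.1
  have a8 : 9 / 100 * ρ ≤ P.κ := h.κ.1
  have a9 : P.e ≤ 101 / 100 * (6 / 5 * ρ) := h.e.2
  have a10 : P.cs ≤ 101 / 100 * (11 / 20) := h.cs.2
  have a11 : 40 * ρ ≤ P.w := h.w.1
  constructor
  · show 1 / 1000000 * P.m ≤ P.l + y
    linarith
  · show P.l + y + 1 / 1000000 * P.m ≤ P.r
    linarith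
  · show 1 / 1000000 * P.m ≤ P.κ1
    linarith
  · show 1 / 1000000 * P.m ≤ P.κ
    linarith
  · show P.e + 1 / 1000000 * P.m ≤ (1 - P.cs) * (P.l + y)
    have h1 : (1 - 101 / 100 * (11 / 20)) * (60 * ρ) ≤ (1 - P.cs) * (P.l + y) :=
      mul_le_mul (by linarith) (by linarith) (by positivity) (by linarith)
    linarith
  · show P.th ≤ 1 - 1 / 1000000
    linarith
  · show 1 / 1000000 * P.m ≤ P.w
    linarith
  · show 1 / 1000000 * (P.l + y) ≤ P.m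
    linarith

/-- **row LT for the native gates**, any two levels `y`, `y' ≤ ρ / 4` (`y = y' = 0` for the lattice 0) -/
theorem tot_low_n : ∃ A : ℝ, 0 < A ∧ ∀ {i j : Fin 3}, i ≠ j → ∀ (P : Tp) (ρ τ : ℝ), 0 < ρ → 0 < τ → P.Nr (bN ρ τ) →
    A * ρ ^ (4 / 3 : ℝ) ≤ τ → ∀ y y' : ℝ, 0 ≤ y → y ≤ 1 / 4 * ρ → 0 ≤ y' → y' ≤ 1 / 4 * ρ → ∃ c N0 : ℝ, 0 < c ∧ 1 ≤ N0 ∧ ∀ N : ℕ, N0 ≤ N →
      ENNReal.ofReal (c * (N : ℝ) ^ (7 / 12 : ℝ)) ≤ totQ (ev i) (ev j) (P.up y) (P.up y') N (uT N) (fun _ => 1) := by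
  obtain ⟨A, hA, h⟩ := tot_low (ζ := 1 / 1000000) (by norm_num)
  refine ⟨A * 9 ^ (4 / 3 : ℝ), by positivity, fun {i j} hij P ρ τ hρ hτ hN hAτ y y' hy hy1 hy' hy1' => ?_⟩
  have hP := bN_ok hρ hτ hN
  have hm : P.m ≤ 9 * ρ := by
    have : P.m ≤ 101 / 100 * (81 / 10 * ρ) := hN.m.2
    linarith
  have hlet : A * P.m ^ (4 / 3 : ℝ) ≤ τ := by
    refine le_trans ?_ hAτ
    rw [mul_assoc, ← Real.mul_rpow (by norm_num) hρ.le]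
    exact mul_le_mul_of_nonneg_left (Real.rpow_le_rpow hP.m.le hm (by norm_num)) hA.le
  have h1 : 1 * τ ≤ P.la := hN.la.1
  have h2 : 1 * τ ≤ P.lb := hN.lb.1
  refine h hij (P.up y) (P.up y') (hP.up hy) (hP.up hy') rfl rfl (ratW_n hρ hN hy hy1) (ratW_n hρ hN hy' hy1') ?_ ?_ ?_ ?_
  all_goals
    simp only [Tp.up]
    linarith

/-- **row LT for the gates of the rotated lattice**, any two levels `y`, `y' ≤ 24 ρ` -/
theorem tot_low_f : ∃ A : ℝ, 0 < A ∧ ∀ {i j : Fin 3}, i ≠ j → ∀ (P : Tp) (ρ τ : ℝ), 0 < ρ → 0 < τ → P.Nr (bF ρ τ) →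
    A * ρ ^ (4 / 3 : ℝ) ≤ τ → ∀ y y' : ℝ, 0 ≤ y → y ≤ 24 * ρ → 0 ≤ y' → y' ≤ 24 * ρ → ∃ c N0 : ℝ, 0 < c ∧ 1 ≤ N0 ∧ ∀ N : ℕ, N0 ≤ N →
      ENNReal.ofReal (c * (N : ℝ) ^ (7 / 12 : ℝ)) ≤ totQ (ev i) (ev j) (P.up y) (P.up y') N (uT N) (fun _ => 1) := by
  obtain ⟨A, hA, h⟩ := tot_low (ζ := 1 / 1000000) (by norm_num)
  refine ⟨A * 12000 ^ (4 / 3 : ℝ), by positivity, fun {i j} hij P ρ τ hρ hτ hN hAτ y y' hy hy1 hy' hy1' => ?_⟩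
  have hP := bF_ok hρ hτ hN
  have hm : P.m ≤ 12000 * ρ := by
    have : P.m ≤ 101 / 100 * (11400 * ρ) := hN.m.2
    linarith
  have hlet : A * P.m ^ (4 / 3 : ℝ) ≤ τ := by
    refine le_trans ?_ hAτ
    rw [mul_assoc, ← Real.mul_rpow (by norm_num) hρ.le]
    exact mul_le_mul_of_nonneg_left (Real.rpow_le_rpow hP.m.le hm (by norm_num)) hA.le
  have h1 : 4 * τ ≤ P.la := hN.la.1
  have h2 : 2 * τ ≤ P.lb := hN.lb.1
  refine h hij (P.up y) (P.up y') (hP.up hy) (hP.up hy') rfl rfl (ratW_f hρ hN hy hy1) (ratW_f hρ hN hy' hy1') ?_ ?_ ?_ ?_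
  all_goals
    simp only [Tp.up]
    linarith

end Pool.Agent.ROT.F3
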