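import Pool.Agent.ROT.F3SeamD
import Pool.Agent.ROT.F3Fin3
import Pool.Agent.ROT.F3TotN

/-!
# ROT, F3, row Core (helper55): both lattices of one pair of classes, the numbers discharged

* `numT_n`, `numT_f` : `NumT` for the numbers in the windows; `low_0`, `low_R` : `LowT` (row LT, helper89);
* **`num_lat`** : all numbers of `prAll_lv` (helper17) from the windows of helper22, with one number `A` (from `QB`);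
* **`lat_pair`** : the fields `H0`, `HR`, `e1`, `e2` of `prAll_of` (helper17) with one number `A`.
-/

set_option autoImplicit false
set_option linter.unusedSectionVars false

open MeasureTheory Filter Topology Set

open scoped NNReal ENNReal Classical

namespace Pool.Agent.ROT.F3.CK

open Pool.Agent.ROT.F3 Pool.Agent.ROT.F3.CC Pool.Agent.ROT.F3.LF Pool.Agent.ROT.F3L Pool.Agent.ROT.F3E

/-! ### 1. Numbers -/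

lemma let_le {A m ρ τ : ℝ} (hA : 0 ≤ A) (hρ : 0 < ρ) (hm0 : 0 ≤ m) (hm : m ≤ 12000 * ρ)
    (ha : A * 12000 ^ (4 / 3 : ℝ) * ρ ^ (4 / 3 : ℝ) ≤ τ) : A * m ^ (4 / 3 : ℝ) ≤ τ := by
  refine le_trans ?_ ha
  rw [mul_assoc, ← Real.mul_rpow (by norm_num) hρ.le]
  exact mul_le_mul_of_nonneg_left (Real.rpow_le_rpow hm0 hm (by norm_num)) hA

theorem numT_n {A ρ τ : ℝ} (hA : 0 ≤ A) (hρ : 0 < ρ) {T : Tp} (ok : T.Ok) (h : T.Nr (bN ρ τ))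
    (ha : A * 12000 ^ (4 / 3 : ℝ) * ρ ^ (4 / 3 : ℝ) ≤ τ) : NumT (1 / 1000000) A T := by
  have a5 : T.m ≤ 101 / 100 * (81 / 10 * ρ) := h.m.2
  have a6 : T.th ≤ 101 / 100 * (3 / 4) := h.th.2
  have a7 : 1 / 25 * ρ ≤ T.κ1 := h.κ1.1
  have a8 : 1 * τ ≤ T.lb := h.lb.1
  refine ⟨by linarith, by linarith, ?_⟩
  have := let_le hA hρ ok.m.le (by linarith) ha
  linarith

theorem numT_f {A ρ τ : ℝ} (hA : 0 ≤ A) (hρ : 0 < ρ) (hτ : 0 < τ) {T : Tp} (ok : T.Ok) (h : T.Nr (bF ρ τ))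
    (ha : A * 12000 ^ (4 / 3 : ℝ) * ρ ^ (4 / 3 : ℝ) ≤ τ) : NumT (1 / 1000000) A T := by
  have a5 : T.m ≤ 101 / 100 * (11400 * ρ) := h.m.2
  have a6 : T.th ≤ 101 / 100 * (3 / 4) := h.th.2
  have a7 : 1 * ρ ≤ T.κ1 := h.κ1.1
  have a8 : 2 * τ ≤ T.lb := h.lb.1
  refine ⟨by linarith, by linarith, ?_⟩
  have := let_le hA hρ ok.m.le (by linarith) ha
  linarith

lemma neg_ne {i j : Fin 3} (hij : i ≠ j) : -i ≠ -j := fun e => hij (neg_injective e)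

/-- from two lower bounds from some number on -/
lemma lowT_of {l : Filter ℕ} (hl : l ≤ atTop) {D : Dt}
    (h1 : ∃ c N0 : ℝ, 0 < c ∧ 1 ≤ N0 ∧ ∀ N : ℕ, N0 ≤ N → ENNReal.ofReal (c * (N : ℝ) ^ (7 / 12 : ℝ)) ≤ D.msP N)
    (h2 : ∃ c N0 : ℝ, 0 < c ∧ 1 ≤ N0 ∧ ∀ N : ℕ, N0 ≤ N → ENNReal.ofReal (c * (N : ℝ) ^ (7 / 12 : ℝ)) ≤ D.msQ N) : LowT l D := by
  obtain ⟨c, N0, hc, -, h1⟩ := h1
  obtain ⟨c', N0', hc', -, h2⟩ := h2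
  refine ⟨min c c', lt_min hc hc', ?_, ?_⟩
  · filter_upwards [hl (eventually_ge_atTop ⌈N0⌉₊)] with N hN
    refine le_trans ?_ (h1 N ((Nat.le_ceil _).trans (by exact_mod_cast hN)))
    exact ENNReal.ofReal_le_ofReal (mul_le_mul_of_nonneg_right (min_le_left _ _) (Real.rpow_nonneg (Nat.cast_nonneg N) _))
  · filter_upwards [hl (eventually_ge_atTop ⌈N0'⌉₊)] with N hN
    refine le_trans ?_ (h2 N ((Nat.le_ceil _).trans (by exact_mod_cast hN)))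
    exact ENNReal.ofReal_le_ofReal (mul_le_mul_of_nonneg_right (min_le_right _ _) (Real.rpow_nonneg (Nat.cast_nonneg N) _))

/-- the conclusion of `tot_low_n`, `tot_low_f` at the levels 0 -/
def LowN (b : ℝ → ℝ → Tp) (A : ℝ) : Prop := ∀ {i j : Fin 3}, i ≠ j → ∀ (P : Tp) (ρ τ : ℝ), 0 < ρ → 0 < τ → P.Nr (b ρ τ) →
  A * ρ ^ (4 / 3 : ℝ) ≤ τ → ∃ c N0 : ℝ, 0 < c ∧ 1 ≤ N0 ∧ ∀ N : ℕ, N0 ≤ N →
    ENNReal.ofReal (c * (N : ℝ) ^ (7 / 12 : ℝ)) ≤ totQ (ev i) (ev j) (P.up 0) (P.up 0) N (uT N) (fun _ => 1)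

lemma lowN_n : ∃ A : ℝ, 0 < A ∧ LowN bN A := by
  obtain ⟨A, hA, h⟩ := tot_low_n
  exact ⟨A, hA, fun {i j} hij P ρ τ hρ hτ hN ha => h hij P ρ τ hρ hτ hN ha 0 0 le_rfl (by positivity) le_rfl (by positivity)⟩

lemma lowN_f : ∃ A : ℝ, 0 < A ∧ LowN bF A := by
  obtain ⟨A, hA, h⟩ := tot_low_f
  exact ⟨A, hA, fun {i j} hij P ρ τ hρ hτ hN ha => h hij P ρ τ hρ hτ hN ha 0 0 le_rfl (by positivity) le_rfl (by positivity)⟩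

/-- the lower bounds of the masses, first lattice -/
theorem low_0 {l : Filter ℕ} (hl : l ≤ atTop) {A : ℝ} (h : LowN bN A) {i j : Fin 3} (hij : i ≠ j) {P : Prm} {ρ τ : ℝ} (hρ : 0 < ρ)
    (hτ : 0 < τ) (hp1 : P.p.Nr (bE ρ τ)) (hq1 : P.q.Nr (bE ρ τ)) (ha : A * ρ ^ (4 / 3 : ℝ) ≤ τ) (W W' : Wn) :
    LowT l (D0 P i j W W') :=
  lowT_of hl (h hij P.p.n ρ τ hρ hτ hp1.n ha) (h (neg_ne hij) P.q.n ρ τ hρ hτ hq1.n ha)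

/-- the lower bounds of the masses, rotated lattice -/
theorem low_R {l : Filter ℕ} (hl : l ≤ atTop) {A : ℝ} (h : LowN bF A) {i j : Fin 3} (hij : i ≠ j) {P : Prm} {ρ τ : ℝ} (hρ : 0 < ρ)
    (hτ : 0 < τ) (hp1 : P.p.Nr (bE ρ τ)) (hq1 : P.q.Nr (bE ρ τ)) (ha : A * ρ ^ (4 / 3 : ℝ) ≤ τ) (W W' : Wn) :
    LowT l (DR P i j W W' 0 0 0 0) :=
  lowT_of hl (h hij P.p.f ρ τ hρ hτ hp1.f ha) (h (neg_ne hij) P.q.f ρ τ hρ hτ hq1.f ha)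

/-- the cells of the first lattice are inside of the cells of the lower bounds -/
lemma z0_in {E : En} {ρ τ : ℝ} (hρ : 0 < ρ) (h : E.Nr (bE ρ τ)) (i j : Fin 3) :
    Z0E (ev i) (ev j) E (E.kc + E.n.m) (3 / 5 * ρ) ⊆ Metric.ball ((E.n.m : ℂ) * (ev j - ev i)) (E.n.m / 8) := by
  have a4 : 81 / 10 * ρ ≤ E.n.m := h.n.m.1
  refine z0E_sub ?_
  have e : E.kc + E.n.m - E.kc - E.n.m = 0 := by ring
  rw [e, abs_zero, zero_mul]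
  linarith

/-! ### 2. The two lattices -/

/-- the lattice data of the pairs of classes with one number `A`: first lattice (field `H0` of `prAll_of`) -/
def Lat0 (A : ℝ) : Prop := ∀ {ρ τ : ℝ}, 0 < ρ → 0 < τ → A * ρ ^ (4 / 3 : ℝ) ≤ τ → ∀ {P : Prm}, P.Ok → P.p.Nr (bE ρ τ) →
  P.q.Nr (bE ρ τ) → ∀ {V : Ultrafilter ℕ}, (V : Filter ℕ) ≤ atTop → ∀ {β b : Fin 3 → Measure Pie}, ClsL V P β b →
  ∀ {L : ℝ} {PG : Measure CC.Gm}, Cv (V : Filter ℕ) (fun N => mwE N L) cN PG → (∀ᵐ y ∂PG, 0 < y.2.1 ∧ y.2.1 < y.1) →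
  GnQ V P.p.n → ∀ {i j : Fin 3}, i ≠ j → (D0 P i j (wnd P i) (wnd P j)).len ≤ L →
  ∀ {E0 : CC.Gm → ℝ}, (∀ y, 0 ≤ E0 y) →
  Lm (V : Filter ℕ) (fun N => mwE N L) cN PG (fun N x => eW ((D0 P i j (wnd P i) (wnd P j)).C N (uT N))
      ((D0 P i j (wnd P i) (wnd P j)).C' N (uT N)) (rcl P i N) (rcl P j N) x) E0 →
  ∀ {Φ0 : CC.Gm → Fin 8 → ℝ}, (∀ k, Lm (V : Filter ℕ) (fun N => mwE N L) cN PG
      (fun N x => mkt (D0 P i j (wnd P i) (wnd P j)) N (uT N) x k) fun y => Φ0 y k) →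
  IsFiniteMeasure ((PG.withDensity fun y => ENNReal.ofReal (E0 y)).map (dat Φ0)) ∧
    Den ((PG.withDensity fun y => ENNReal.ofReal (E0 y)).map (dat Φ0)) ((β i).prod ((β j).prod volume))
      (DD Prod.fst Prod.fst yP yP (cZ0 P i j ρ) (cW0 P i j ρ)) (zw yP yP) (fun _ => 1) ∧
    ((β i).prod ((β j).prod volume)).restrict (DD Prod.fst Prod.fst yP yP (cZ0 P i j ρ) (cW0 P i j ρ)) ≪
      ((PG.withDensity fun y => ENNReal.ofReal (E0 y)).map (dat Φ0)).map Prod.snd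

/-- second lattice (fields `HR`, `e1`, `e2` of `prAll_of`) -/
def LatR (A : ℝ) : Prop := ∀ {ρ τ : ℝ}, 0 < ρ → 0 < τ → A * ρ ^ (4 / 3 : ℝ) ≤ τ → ∀ {P : Prm}, P.Ok → P.p.Nr (bE ρ τ) →
  P.q.Nr (bE ρ τ) → ∀ {V : Ultrafilter ℕ}, (V : Filter ℕ) ≤ atTop → ∀ {β b : Fin 3 → Measure Pie}, ClsL V P β b →
  ∀ {L : ℝ} {PG : Measure CC.Gm}, Cv (V : Filter ℕ) (fun N => mwE N L) cN PG → (∀ᵐ y ∂PG, 0 < y.2.1 ∧ y.2.1 < y.1) →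
  GnQ V P.p.f → ∀ {i j : Fin 3}, i ≠ j → (DR P i j (wnd P i) (wnd P j) 0 0 0 0).len ≤ L → PG.map (rotX P.u) = PG →
  ∀ (t0 : ℝ) {E : ℕ → ℕ → CC.Gm → ℝ}, (∀ m n y, 0 ≤ E m n y) →
  (∀ m n, Lm (V : Filter ℕ) (fun N => mwE N L) cN PG (fun N x => eW
      (P.CRp i j (thr t0 P.p.f.l m 0) (thr t0 P.p.f.l m 1) N) (P.CRq i j (thr t0 P.q.f.l n 0) (thr t0 P.q.f.l n 1) N)
      (acl P i N) (acl P j N) x) (E m n)) →
  ∀ {Φ : ℕ → ℕ → CC.Gm → Fin 8 → ℝ},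
  (∀ m n k, Lm (V : Filter ℕ) (fun N => mwE N L) cN PG (fun N x => mkt (DR P i j (wnd P i) (wnd P j)
      (thr t0 P.p.f.l m 0) (thr t0 P.p.f.l m 1) (thr t0 P.q.f.l n 0) (thr t0 P.q.f.l n 1)) N (uT N) x k) fun y => Φ m n y k) →
  ∃ (b1 b2 : FiniteMeasure Pie) (bA bB : ℕ → FiniteMeasure Pie) (m : ℕ → Measure ℂ) (c : ℝ) (Cc R Cc' : ℕ → ℝ)
    (γ γ' : ℕ → (K4 → ℝ) → ℕ → ℂ → ℝ) (ρN : ℕ → ℕ → ℕ → Measure ((K4 × K4) × (Pie × (Pie × ℂ)))),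
    (b1 : Measure Pie) = (b i).map (trn P.u) ∧ (b2 : Measure Pie) = (b j).map (trn P.u) ∧
    ∀ Z W : Set ℂ, IsOpen Z → IsOpen W → LevIn V bA b1 bB b2 m c yP yP Cc R Cc' γ γ' ρN
      (fun m n => (PG.withDensity (wZ P.u (E m n))).map (dat (tZ P.u (Φ m n)))) (DD Prod.fst Prod.fst yP yP Z W)

/-- **both lattices of all pairs of classes, one number** -/
theorem lat_pair (hQB : Pool.Agent.ROT.F.QB) : ∃ A : ℝ, 0 < A ∧ Lat0 A ∧ LatR A := by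
  obtain ⟨x0, A1, hx0, hA1, T⟩ := allT_ex hQB (ζ := 1 / 1000000) (by norm_num)
  obtain ⟨A2, hA2, h2⟩ := lowN_n
  obtain ⟨A3, hA3, h3⟩ := lowN_f
  have h12 : (0 : ℝ) < 12000 ^ (4 / 3 : ℝ) := by positivity
  refine ⟨A1 * 12000 ^ (4 / 3 : ℝ) + A2 + A3, by positivity, ?_, ?_⟩
  · intro ρ τ hρ hτ ha P ok hp1 hq1 V hV β b H L PG hC hae hG i j hij hL E0 h0 he Φ0 hΦ
    have hr : 0 ≤ ρ ^ (4 / 3 : ℝ) := by positivity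
    have a1 : A1 * 12000 ^ (4 / 3 : ℝ) * ρ ^ (4 / 3 : ℝ) ≤ τ :=
      (mul_le_mul_of_nonneg_right (by linarith) hr).trans ha
    have a2 : A2 * ρ ^ (4 / 3 : ℝ) ≤ τ := (mul_le_mul_of_nonneg_right (by
      have := mul_pos hA1 h12
      linarith) hr).trans ha
    exact seam_0 hV ok hij H hC hae T hx0 (numT_n hA1.le hρ ok.p.n hp1.n a1) (numT_n hA1.le hρ ok.q.n hq1.n a1) hG hL
      (low_0 hV h2 hij hρ hτ hp1 hq1 a2 _ _) h0 he hΦ Metric.isOpen_ball Metric.isOpen_ball (z0_in hρ hp1 i j)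
      (z0_in hρ hq1 (-i) (-j))
  · intro ρ τ hρ hτ ha P ok hp1 hq1 V hV β b H L PG hC hae hG i j hij hL hPz t0 E h0 he Φ hΦ
    have hr : 0 ≤ ρ ^ (4 / 3 : ℝ) := by positivity
    have a1 : A1 * 12000 ^ (4 / 3 : ℝ) * ρ ^ (4 / 3 : ℝ) ≤ τ :=
      (mul_le_mul_of_nonneg_right (by linarith) hr).trans ha
    have a2 : A3 * ρ ^ (4 / 3 : ℝ) ≤ τ := (mul_le_mul_of_nonneg_right (by
      have := mul_pos hA1 h12
      linarith) hr).trans ha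
    exact seam_R hV ok hij H hC hae T (numT_f hA1.le hρ hτ ok.p.f hp1.f a1) (numT_f hA1.le hρ hτ ok.q.f hq1.f a1) hG hL
      (low_R hV h3 hij hρ hτ hp1 hq1 a2 _ _) ok.u hPz t0 h0 he hΦ

/-- **the numbers of both lattices of all pairs of classes** -/
theorem num_lat (hQB : Pool.Agent.ROT.F.QB) : ∃ x0 A0 A : ℝ, 0 < x0 ∧ 0 < A0 ∧ 0 < A ∧ AllT (1 / 1000000) x0 A0 ∧
    ∀ {ρ τ : ℝ}, 0 < ρ → 0 < τ → A * ρ ^ (4 / 3 : ℝ) ≤ τ → ∀ {P : Prm}, P.Ok → P.p.Nr (bE ρ τ) → P.q.Nr (bE ρ τ) →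
      (NumT (1 / 1000000) A0 P.p.n ∧ NumT (1 / 1000000) A0 P.q.n ∧ NumT (1 / 1000000) A0 P.p.f ∧ NumT (1 / 1000000) A0 P.q.f) ∧
      ∀ {l : Filter ℕ}, l ≤ atTop → ∀ {i j : Fin 3}, i ≠ j → ∀ W W' : Wn,
        LowT l (D0 P i j W W') ∧ LowT l (DR P i j W W' 0 0 0 0) := by
  obtain ⟨x0, A1, hx0, hA1, T⟩ := allT_ex hQB (ζ := 1 / 1000000) (by norm_num)
  obtain ⟨A2, hA2, h2⟩ := lowN_n
  obtain ⟨A3, hA3, h3⟩ := lowN_f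
  have h12 : (0 : ℝ) < 12000 ^ (4 / 3 : ℝ) := by positivity
  refine ⟨x0, A1, A1 * 12000 ^ (4 / 3 : ℝ) + A2 + A3, hx0, hA1, by positivity, T, ?_⟩
  intro ρ τ hρ hτ ha P ok hp1 hq1
  have hr : 0 ≤ ρ ^ (4 / 3 : ℝ) := by positivity
  have h13 := mul_pos hA1 h12
  have a1 : A1 * 12000 ^ (4 / 3 : ℝ) * ρ ^ (4 / 3 : ℝ) ≤ τ := (mul_le_mul_of_nonneg_right (by linarith) hr).trans ha
  have a2 : A2 * ρ ^ (4 / 3 : ℝ) ≤ τ := (mul_le_mul_of_nonneg_right (by linarith) hr).trans ha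
  have a3 : A3 * ρ ^ (4 / 3 : ℝ) ≤ τ := (mul_le_mul_of_nonneg_right (by linarith) hr).trans ha
  exact ⟨⟨numT_n hA1.le hρ ok.p.n hp1.n a1, numT_n hA1.le hρ ok.q.n hq1.n a1, numT_f hA1.le hρ hτ ok.p.f hp1.f a1,
    numT_f hA1.le hρ hτ ok.q.f hq1.f a1⟩, fun hl i j hij W W' => ⟨low_0 hl h2 hij hρ hτ hp1 hq1 a2 W W',
    low_R hl h3 hij hρ hτ hp1 hq1 a3 W W'⟩⟩

end Pool.Agent.ROT.F3.CK
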