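import Pool.Agent.ROT.F3Fin6
import Pool.Agent.ROT.F3SeamE
import Pool.Agent.ROT.F3LocK
import Pool.Agent.ROT.F3JLoc
import Pool.Agent.ROT.F3JmZ

/-!
# ROT, F3, row Core (helper4): the three pairs of classes from the limits of the gates

* `TH P` : closed conditions of the rests of the class 0 at both ends (conditions `HPc`); `tH_closed`;
* **`jF1_tH`** : rests of the class 0 with the foreign gates are in `TH P` (helper51, `FgR.hpc`);
* **`tH_comp`** : almost all rests in `TH P` have companions (helper63, `comp0`);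
* **`zf_of`** : the fields `fin`, `d0`, `hp` of the first lattice from `LvO`;
* **`prAll3`** : marks `t`, `t'`, `C` of the three classes and `PrAll` for the three pairs, from three packages `PkC` (helper17) with one
  locality of the foreign gates;
* **`prAll3_ex`** : the same, all numbers discharged (helper55, `num_lat`).
-/

set_option autoImplicit false
set_option linter.unusedSectionVars false

noncomputable section

namespace Pool.Agent.ROT.F3.CK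

open MeasureTheory Set unitInterval Filter Topology

open scoped ENNReal Classical

open Pool.Agent.ROT.F3 Pool.Agent.ROT.F3.CC Pool.Agent.ROT.F3.LF Pool.Agent.ROT.F3.Nul Pool.Agent.ROT.F3.Bt Pool.Agent.ROT.F3E

/-! ### 1. The closed conditions of the rests -/

lemma aH_closed (d : ℂ) (e L : ℝ) : IsClosed (AH d e L) := by
  have h1 : IsClosed {v : ℂ | ‖v‖ ≤ L} := isClosed_le continuous_norm continuous_const
  have h2 : IsClosed {v : ℂ | -e ≤ lv d v - ltl d v / Real.sqrt 3} := by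
    refine isClosed_le continuous_const ?_
    unfold lv ltl
    fun_prop
  exact h1.inter h2

lemma hPc_closed {A : Set ℂ} (hA : IsClosed A) (bn : ℝ) : IsClosed (HPc A bn) := by
  have e : HPc A bn = ⋂ s : unitInterval, ⋂ t : unitInterval, {c : C(unitInterval, ℂ) | s ≤ t → ‖c t‖ < bn → c s ∈ A} := by
    ext c
    simp only [mem_iInter]
    exact Iff.rfl
  rw [e]
  refine isClosed_iInter fun s => isClosed_iInter fun t => ?_
  by_cases h : s ≤ t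
  · have e1 : {c : C(unitInterval, ℂ) | s ≤ t → ‖c t‖ < bn → c s ∈ A} = {c | bn ≤ ‖c t‖} ∪ {c | c s ∈ A} := by
      ext c
      simp only [mem_union, mem_ofPred_eq]
      constructor
      · intro k
        rcases lt_or_ge ‖c t‖ bn with k1 | k1
        · exact Or.inr (k h k1)
        · exact Or.inl k1
      · rintro (k | k) - k1
        · exact absurd k1 (not_lt.2 k)
        · exact k
    rw [e1]
    exact (isClosed_le continuous_const (continuous_norm.comp (continuous_eval_const t))).union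
      (hA.preimage (continuous_eval_const s))
  · have e1 : {c : C(unitInterval, ℂ) | s ≤ t → ‖c t‖ < bn → c s ∈ A} = univ :=
      eq_univ_of_forall fun c k => absurd k h
    rw [e1]
    exact isClosed_univ

private lemma rvc_cont : Continuous (rvc : C(unitInterval, ℂ) → C(unitInterval, ℂ)) := by
  refine ContinuousMap.continuous_of_continuous_uncurry _ ?_
  show Continuous fun q : C(unitInterval, ℂ) × unitInterval => q.1 (unitInterval.symm q.2) - q.1 1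
  fun_prop

/-- **the closed conditions of the rests of the class 0 at both ends** -/
def TH (P : Prm) : Set Pie := {x | x.1 ∈ HPc (AH (ev 0) P.p.n.κ (P.p.s.len + 2 * P.p.k)) (P.p.s.bn - P.p.k) ∧
  rvc x.1 ∈ HPc (AH (ev 0) P.q.n.κ (P.q.s.len + 2 * P.q.k)) (P.q.s.bn - P.q.k)}

lemma tH_closed (P : Prm) : IsClosed (TH P) :=
  ((hPc_closed (aH_closed _ _ _) _).preimage continuous_fst).inter
    ((hPc_closed (aH_closed _ _ _) _).preimage (rvc_cont.comp continuous_fst))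

/-- the piece read from its end -/
private lemma rvc_cutp (g : C(unitInterval, ℂ)) (a b : ℝ) : rvc (cutp g a b) = cutp g b a := by
  ext u
  rw [rvc_apply, cutp_apply, cutp_apply, cutp_apply, unitInterval.coe_symm_eq]
  have e1 : a + (1 - (u : ℝ)) * (b - a) = b + u * (a - b) := by ring
  have e2 : a + ((1 : unitInterval) : ℝ) * (b - a) = b := by
    rw [Icc.coe_one]
    ring
  rw [e1, e2]
  ring

section rests

variable {P : Prm} {j : Fin 3} {G0 H : Ga} {g : CC.Gm}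

/-- **the rests of the class 0 with the foreign gates are in `TH P`** -/
theorem jF1_tH (hP : P.Ok) (hc : 3 / 5 ≤ P.p.n.c) (hc' : 3 / 5 ≤ P.q.n.c) (hw : g ∈ ⋂ k, G0.B k) (t0 : TmS G0 .fp g)
    (h : g ∈ jF1 P 0 j G0 H) : pcut (cl g) (jT G0 g 1) (jT G0 g 2) ∈ TH P := by
  obtain ⟨h1, h2, h3⟩ := h
  have ho := ord_A h1 h2 h3.o
  have hne := ne_of ho (prm_D hP 0).2.1 (wi_iff.1 h3.w)
  have e := jT_eq hw
  have e1 : jT G0 g 1 = G0.tx .fp g := congrArg (fun x : CC.M4 => x.1) e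
  have e2 : jT G0 g 2 = G0.tx .bq g := congrArg (fun x : CC.M4 => x.2.1) e
  have a1 : ((G0.ix .fp g : I) : ℝ) = G0.tx .fp g := pji_of t0.1
  have a2 : ((G0.ix .bq g : I) : ℝ) = G0.tx .bq g := pji_of t0.2
  have hlt : G0.ix .fp g < G0.ix .bq g := by
    refine lt_of_le_of_ne ?_ hne
    exact (le_trans (show G0.ix .fp g ≤ _ from h1.o1) h1.o2).trans
      ((show _ ≤ _ from h3.o).trans ((show _ ≤ _ from h2.o2).trans h2.o1))
  obtain ⟨-, F1⟩ := (fgZ_iff (k := .fp) (z := G0.ix .bq g) hlt).1 h1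
  obtain ⟨-, F2⟩ := (fgZ_iff (k := .bq) (z := G0.ix .fp g) hlt).1 h2
  have k1 := F1.hpc hP.p hc (ev_norm 0) (by rw [norm_mul, hP.u, one_mul]; exact ev_norm 0) (by
    show ‖ev 0 - P.u * ev 0‖ ≤ _
    rw [show ev 0 - P.u * ev 0 = -((P.u - 1) * ev 0) by ring, norm_neg, norm_mul, ev_norm, mul_one])
    rfl (cutp_zero _ _ _)
  have k2 := F2.hpc hP.q hc' (ev_norm (-0)) (by rw [norm_mul, hP.u, one_mul]; exact ev_norm (-0)) (by
    show ‖ev (-0) - P.u * ev (-0)‖ ≤ _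
    rw [show ev (-0) - P.u * ev (-0) = -((P.u - 1) * ev (-0)) by ring, norm_neg, norm_mul, ev_norm, mul_one])
    rfl (cutp_zero _ _ _)
  rw [e1, e2, ← a1, ← a2]
  refine ⟨k1, ?_⟩
  show rvc (cutp (cl g).1 (G0.ix .fp g) (G0.ix .bq g)) ∈ _
  rw [rvc_cutp]
  exact k2

end rests

/-- **almost all rests in `TH P` have companions** -/
theorem tH_comp {V : Ultrafilter ℕ} (hV : (V : Filter ℕ) ≤ atTop) {P : Prm} (hP : P.Ok) {β b : Fin 3 → Measure Pie}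
    (H : ClsL V P β b) {ρ : ℝ} (hρ : 0 < ρ) : ∀ᵐ x ∂(β 0), x ∈ TH P → x ∈ TT (β 1) (cZ0 P 0 1 ρ) (cW0 P 0 1 ρ) := by
  have hm : ∀ᵐ x ∂(β 0), Function.Injective x.1 ∧ x.1 ∈ ClR (ev 0) (ev 0) P.p.n P.q.n (P.wd P.W) := by
    obtain ⟨k1, k2, k3, k4, k5, k6, k7, k8⟩ := pos_prm hP 0
    filter_upwards [rst_inj k1 k2 k5 k6 (Eventually.of_forall fun N R _ => le_rfl) hV (H.wβ 0) (i := 0) (j := -0)
      (Eventually.of_forall fun N R hR => hR)] with x hx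
    have h1 := hx.2.1
    rw [wnd_zero] at h1
    exact ⟨hx.1, h1⟩
  have w1 := H.wβ 1
  have w2 := H.wβ 2
  have e1 : ∀ a : Fin 3, a ≠ 0 → rcl P a = P.R0 a P.Wc := fun a ha => by
    funext N
    unfold rcl
    rw [wnd_ne P ha]
  rw [e1 1 (by decide)] at w1
  rw [e1 2 (by decide)] at w2
  have key := comp0 hP (U := (V : Filter ℕ)) hV (β1 := β 1) (β2 := β 2) w1 w2 (C0.std hP)
    (ρ := 3 / 5 * ρ) (ρ' := 3 / 5 * ρ) (by positivity) (by positivity) hm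
  filter_upwards [key] with x hx h
  exact (hx h.1 h.2).1

/-! ### 2. The first lattice -/

/-- **the fields `fin`, `d0`, `hp` of the first lattice from `LvO`** -/
theorem zf_of {V : Ultrafilter ℕ} (hV : (V : Filter ℕ) ≤ atTop) {P : Prm} (h : P.Ok) {ρ τ : ℝ} (hρ : 0 < ρ)
    (hp1 : P.p.Nr (bE ρ τ)) (hq1 : P.q.Nr (bE ρ τ)) {β b : Fin 3 → Measure Pie} (H : ClsL V P β b) {i j : Fin 3} (hij : i ≠ j)
    {L : ℝ} {PG : Measure CC.Gm} (hC : Cv (V : Filter ℕ) (fun N => mwE N L) cN PG) (hae : ∀ᵐ y ∂PG, 0 < y.2.1 ∧ y.2.1 < y.1)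
    {ζ x0 A : ℝ} (T : AllT ζ x0 A) (hx0 : 0 < x0) (n1 : NumT ζ A P.p.n) (n2 : NumT ζ A P.q.n) (g1 : GnQ V P.p.n)
    (l1 : (jD0 P i j).len ≤ L) (low0 : LowT (V : Filter ℕ) (jD0 P i j)) {G0 : Ga} (m0 : G0.Ms) {Λ0 : CC.Gm → Fin 4 → ℝ}
    (z0 : LvO (V : Filter ℕ) (fun N => mwE N L) cN PG (jD0 P i j) (fun N => (jD0 P i j).A N (uT N))
      (fun N => (jD0 P i j).B N (uT N)) (fun _ _ _ => 0) (fun g => bi (g ∈ jK0 P i j G0)) (jT G0) Λ0) :
    IsFiniteMeasure ((PG.withDensity (jw0 P i j G0)).map (dat (jT G0))) ∧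
    Den ((PG.withDensity (jw0 P i j G0)).map (dat (jT G0))) ((β i).prod ((β j).prod volume))
      (DD Prod.fst Prod.fst yP yP (cZ0 P i j ρ) (cW0 P i j ρ)) (zw yP yP) (fun _ => 1) ∧
    ((β i).prod ((β j).prod volume)).restrict (DD Prod.fst Prod.fst yP yP (cZ0 P i j ρ) (cW0 P i j ρ)) ≪
      ((PG.withDensity (jw0 P i j G0)).map (dat (jT G0))).map Prod.snd := by
  obtain ⟨T0, hT0⟩ : ∃ T0 : CC.Gm → Fin 8 → ℝ, T0 = fun g k => bi (g ∈ jK0 P i j G0) * jT G0 g k := ⟨_, rfl⟩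
  have hmn : 81 / 10 * ρ ≤ P.p.n.m := hp1.n.m.1
  have hmn' : 81 / 10 * ρ ≤ P.q.n.m := hq1.n.m.1
  have sZ : cZ0 P i j ρ ⊆ Metric.ball ((P.p.n.m : ℂ) * (ev j - ev i)) (P.p.n.m / 8) := by
    refine CK.z0E_sub ?_
    have e : hp P - P.p.kc - P.p.n.m = 0 := by unfold hp; ring
    rw [e, abs_zero, zero_mul]
    linarith
  have sW : cW0 P i j ρ ⊆ Metric.ball ((P.q.n.m : ℂ) * (ev (-j) - ev (-i))) (P.q.n.m / 8) := by
    refine CK.z0E_sub ?_
    have e : hq P - P.q.kc - P.q.n.m = 0 := by unfold hq; ring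
    rw [e, abs_zero, zero_mul]
    linarith
  have H0 := seam_0 hV h hij H hC hae T hx0 n1 n2 g1 l1 low0 (E0 := fun g => bi (g ∈ jK0 P i j G0)) z0.e0 z0.he (Φ0 := T0)
    (fun k => by
      rw [hT0]
      exact z0.hmk hC k) (z0E_open _ _ _ _ _) (z0E_open _ _ _ _ _) sZ sW
  have e : (PG.withDensity (jw0 P i j G0)).map (dat T0) = (PG.withDensity (jw0 P i j G0)).map (dat (jT G0)) := by
    refine Measure.map_congr ?_
    have h1 : ∀ᵐ g ∂(PG.withDensity (jw0 P i j G0)), dat T0 g = dat (jT G0) g := by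
      rw [ae_withDensity_iff (jw0_ms h hij m0)]
      refine Eventually.of_forall fun g hg => ?_
      have h2 : g ∈ jK0 P i j G0 := by
        by_contra hc
        apply hg
        unfold jw0
        rw [bi_neg hc, ENNReal.ofReal_zero]
      have h3 : T0 g = jT G0 g := by
        rw [hT0]
        funext k
        show bi (g ∈ jK0 P i j G0) * jT G0 g k = _
        rw [bi_pos h2, one_mul]
      unfold dat
      rw [h3]
    exact h1
  have ew : (fun g => ENNReal.ofReal (bi (g ∈ jK0 P i j G0))) = jw0 P i j G0 := rfl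
  rw [ew, e] at H0
  exact H0

/-! ### 3. The three pairs -/

lemma fB_ne (k : Fin 3) : fB k ≠ 0 := by fin_cases k <;> decide

/-- the places of the class 0 -/
lemma cl3_zero {j : J3} (h : cl3 j = 0) : j.2 = false ∧ fA j.1 = 0 := by
  obtain ⟨k, e⟩ := j
  cases e
  · exact ⟨rfl, h⟩
  · exact absurd h (fB_ne k)

/-- **locality of the foreign gates of the rests** at the places of the same class, both arms (helper37, `GtLoc`) -/
def Loc3 (P : Prm) (G0 H : Fin 3 → Ga) (R0 : ℝ) (G : J3 → Set CC.Gm) : Prop :=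
  ∀ (j j' : J3) (s : Bool), cl3 j = cl3 j' → ∀ g ∈ G j, ∀ g' ∈ G j', ∀ e e' : I,
    pcut (resA (G0 j.1) (kX s j.2) g) 0 e = pcut (resA (G0 j'.1) (kX s j'.2) g') 0 e' →
    (∀ t : I, e ≤ t → R0 ≤ ‖(resA (G0 j.1) (kX s j.2) g).1 t‖) →
    (∀ t : I, e' ≤ t → R0 ≤ ‖(resA (G0 j'.1) (kX s j'.2) g').1 t‖) →
    FgS P (fA j.1) (fB j.1) (G0 j.1) ((H j.1).rot P.u) (kX s j.2) g →
    g' ∈ ((H j'.1).rot P.u).B (kX s j'.2) ∧
      duA (kX s j'.2) g'.1 ((G0 j'.1).ix (kX s j'.2) g') (((H j'.1).rot P.u).ic (kX s j'.2) g') =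
        duA (kX s j.2) g.1 ((G0 j.1).ix (kX s j.2) g) (((H j.1).rot P.u).ic (kX s j.2) g) ∧
      duA (kX s j'.2) g'.1 ((G0 j'.1).ix (kX s j'.2) g') (((H j'.1).rot P.u).ix (kX s j'.2) g') =
        duA (kX s j.2) g.1 ((G0 j.1).ix (kX s j.2) g) (((H j.1).rot P.u).ix (kX s j.2) g)

section

variable {V : Ultrafilter ℕ} (hV : (V : Filter ℕ) ≤ atTop) {P : Prm} (h : P.Ok) {ρ τ : ℝ} (hρ : 0 < ρ)
  (hp1 : P.p.Nr (bE ρ τ)) (hq1 : P.q.Nr (bE ρ τ)) (hu : ‖P.u - 1‖ ≤ 1 / 100000000)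
  {β b : Fin 3 → Measure Pie} (H : ClsL V P β b) {L : ℝ} {PG : Measure CC.Gm} [SFinite PG]
  (hC : Cv (V : Filter ℕ) (fun N => mwE N L) cN PG) (hae : ∀ᵐ y ∂PG, 0 < y.2.1 ∧ y.2.1 < y.1) (hPz : PG.map (rotX P.u) = PG)
  {ζ x0 A : ℝ} (T : AllT ζ x0 A) (hx0 : 0 < x0) (n1 : NumT ζ A P.p.n) (n2 : NumT ζ A P.q.n) (n3 : NumT ζ A P.p.f)
  (n4 : NumT ζ A P.q.f) (g1 : GnQ V P.p.n) (g2 : GnQ V P.p.f) (l1 : ∀ k, (jD0 P (fA k) (fB k)).len ≤ L)
  (l2 : ∀ k, (jDR P (fA k) (fB k)).len ≤ L) (low0 : ∀ k, LowT (V : Filter ℕ) (jD0 P (fA k) (fB k)))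
  (lowR : ∀ k, LowT (V : Filter ℕ) (jDR P (fA k) (fB k)))

include hV h hρ hp1 hq1 hu H hC hae hPz T hx0 n1 n2 n3 n4 g1 g2 l1 l2 low0 lowR

/-- **THE THREE PAIRS OF CLASSES** -/
theorem prAll3 {t0 : Fin 3 → ℝ} {G0 HH : Fin 3 → Ga} {Hl : Fin 3 → ℕ → ℕ → Ga} {u : Fin 3 → ℕ → W3 × ℕ → Fin 4 → ℝ}
    {AF : Fin 3 → CC.Gm → Fin 4 → ℝ} {Gd : Fin 3 → Option (ℕ × ℕ) → Set CC.Gm}
    (K : ∀ k, PkC V L PG P (fA k) (fB k) (t0 k) (G0 k) (HH k) (Hl k) (u k) (AF k) (Gd k)) {R0 : ℝ}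
    (hR0 : ∀ (a : Fin 3) (k : Arm), R0 + (endA P k).k + 2 * (endA P (oppA k)).k ≤ (wnA P a).D0) {G : J3 → Set CC.Gm}
    (hG : ∀ j : J3, ∀ᵐ g ∂PG, jw0 P (fA j.1) (fB j.1) (G0 j.1) g ≠ 0 → g ∈ G j) (loc : Loc3 P G0 HH R0 G) :
    ∃ (C : Fin 3 → Set Pie) (t t' : Fin 3 → Pie → ℝ), (∀ a, MeasurableSet (C a)) ∧ (∀ a, Measurable (t a)) ∧
      (∀ a, Measurable (t' a)) ∧ (∀ a, ∀ x ∈ C a, (x, (t a x, t' a x)) ∈ VC P a) ∧
      (∀ᵐ x ∂(β 0), x ∈ C 0 → x ∈ TT (β 1) (cZ0 P 0 1 ρ) (cW0 P 0 1 ρ)) ∧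
      (∀ k, Mk3 PG (jw0 P (fA k) (fB k) (G0 k)) (jT (G0 k)) (jF1 P (fA k) (fB k) (G0 k) (HH k))
        (jF2 P (fA k) (fB k) (G0 k) (HH k)) (jSF P (HH k)) (C (fA k)) (C (fB k)) (t (fA k)) (t' (fA k)) (t (fB k))
        (t' (fB k))) ∧
      (∀ k, IsFiniteMeasure ((PG.withDensity (jw0 P (fA k) (fB k) (G0 k))).map (dat (jT (G0 k)))) ∧
        Den ((PG.withDensity (jw0 P (fA k) (fB k) (G0 k))).map (dat (jT (G0 k)))) ((β (fA k)).prod ((β (fB k)).prod volume))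
          (DD Prod.fst Prod.fst yP yP (cZ0 P (fA k) (fB k) ρ) (cW0 P (fA k) (fB k) ρ)) (zw yP yP) (fun _ => 1) ∧
        ((β (fA k)).prod ((β (fB k)).prod volume)).restrict
          (DD Prod.fst Prod.fst yP yP (cZ0 P (fA k) (fB k) ρ) (cW0 P (fA k) (fB k) ρ)) ≪
            ((PG.withDensity (jw0 P (fA k) (fB k) (G0 k))).map (dat (jT (G0 k)))).map Prod.snd) ∧
      ∀ k, PrAll P ρ β b t t' C (fA k) (fB k) := by
  have hc : 3 / 5 ≤ P.p.n.c := by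
    have : 16 / 25 ≤ P.p.n.c := hp1.n.c.1
    linarith
  have hc' : 3 / 5 ≤ P.q.n.c := by
    have : 16 / 25 ≤ P.q.n.c := hq1.n.c.1
    linarith
  have J : ∀ k, JIn P PG (G0 k) (HH k) := fun k => ⟨(K k).m0, (K k).mH none, (K k).u0, by
    filter_upwards [un_rot h.u hPz ((K k).uH none)] with g hg
    exact hg.2⟩
  -- the good curves
  obtain ⟨G', hG'⟩ : ∃ G' : J3 → Set CC.Gm, ∀ j g, g ∈ G' j ↔ g ∈ G j ∧ 0 < g.1 ∧ (G0 j.1).Un g ∧ ((HH j.1).rot P.u).Un g :=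
    ⟨fun j => {g | _}, fun j g => Iff.rfl⟩
  have loc' : JLoc P G0 HH G' := jloc_of h hR0 (fun j g hg => ((hG' j g).1 hg).2) fun j j' s hj g hg g' hg' =>
    loc j j' s hj g ((hG' j g).1 hg).1 g' ((hG' j' g').1 hg').1
  have hGG : ∀ j : J3, ∀ᵐ g ∂PG, jw0 P (fA j.1) (fB j.1) (G0 j.1) g ≠ 0 → g ∈ G' j := fun j => by
    filter_upwards [hG j, hae, (J j.1).u0, (J j.1).uH] with g a1 a2 a3 a4 hw
    exact (hG' j g).2 ⟨a1 hw, a2.1.trans a2.2, a3, a4⟩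
  obtain ⟨TV, hTV⟩ : ∃ TV : Fin 3 → Set Pie, TV = fun a => if a = 0 then TH P else univ := ⟨_, rfl⟩
  have mTV : ∀ a, MeasurableSet (TV a) := fun a => by
    rw [hTV]
    show MeasurableSet (if a = 0 then TH P else univ)
    split_ifs
    · exact (tH_closed P).measurableSet
    · exact MeasurableSet.univ
  have hTT : ∀ j : J3, ∀ᵐ g ∂PG, jw0 P (fA j.1) (fB j.1) (G0 j.1) g ≠ 0 →
      g ∈ FJ (fun k => jF1 P (fA k) (fB k) (G0 k) (HH k)) (fun k => jF2 P (fA k) (fB k) (G0 k) (HH k)) j →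
      rJ (fun k => jT (G0 k)) j g ∈ TV (cl3 j) := fun j => by
    by_cases hj : cl3 j = 0
    · filter_upwards [(J j.1).u0] with g hu0 hw hF
      obtain ⟨e1, e2⟩ := cl3_zero hj
      rw [hj, hTV]
      show _ ∈ if (0 : Fin 3) = 0 then TH P else univ
      rw [if_pos rfl]
      obtain ⟨k, e⟩ := j
      cases e
      · have hB := jw0_ne hw
        have hB' := fun a => mem_iInter.1 hB a
        have hF' : g ∈ jF1 P (fA k) (fB k) (G0 k) (HH k) := hF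
        rw [show fA k = 0 from e2] at hF'
        exact jF1_tH h hc hc' hB (tmS_of hu0 (hB' _) (hB' _)) hF'
      · exact Bool.noConfusion (show true = false from e1)
    · refine Eventually.of_forall fun g _ _ => ?_
      rw [hTV]
      show _ ∈ if cl3 j = 0 then TH P else univ
      rw [if_neg hj]
      exact mem_univ _
  obtain ⟨C, t, t', c1, c2, c3, c4, c5, c6⟩ := mk_all h hae J mTV hGG hTT loc'
  refine ⟨C, t, t', c1, c2, c3, c4, ?_, c6, fun k => ?_, fun k => ?_⟩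
  · filter_upwards [tH_comp hV h H hρ] with x hx hC0
    refine hx ?_
    have h1 := c5 0 hC0
    rw [hTV] at h1
    exact h1
  · exact zf_of hV h hρ hp1 hq1 H (fA_ne k) hC hae T hx0 n1 n2 g1 (l1 k) (low0 k) (K k).m0 (K k).z0
  · exact prAll_pk hV h hρ hp1 hq1 hu H (fA_ne k) (fB_ne k) hC hae hPz T hx0 n1 n2 n3 n4 g1 g2 (l1 k) (l2 k) (low0 k) (lowR k)
      (K k) (c4 (fA k)) (c4 (fB k)) (c6 k)

end

/-- the radius of the far part -/
lemma r0_ok {P : Prm} (h : P.Ok) {ρ τ : ℝ} (hp1 : P.p.Nr (bE ρ τ)) (hq1 : P.q.Nr (bE ρ τ)) {R0 : ℝ} (hR : R0 ≤ 1900000000 * ρ)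
    (hρ : 0 < ρ) (a : Fin 3) (k : Arm) : R0 + (endA P k).k + 2 * (endA P (oppA k)).k ≤ (wnA P a).D0 := by
  have h0 := (prm_D h a).1
  have a1 : 60000000 * ρ ≤ P.p.s.len := hp1.s.len.1
  have a2 : 60000000 * ρ ≤ P.q.s.len := hq1.s.len.1
  have a3 : P.p.rk ≤ 101 / 100 * (80 * ρ) := hp1.rk.2
  have a4 : P.q.rk ≤ 101 / 100 * (80 * ρ) := hq1.rk.2
  have a5 : P.p.f.r2 ≤ 101 / 100 * (28500 * ρ) := hp1.f.r2.2
  have a6 : P.q.f.r2 ≤ 101 / 100 * (28500 * ρ) := hq1.f.r2.2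
  have e1 : P.p.k = P.p.rk + P.p.f.r2 := rfl
  have e2 : P.q.k = P.q.rk + P.q.f.r2 := rfl
  have key : R0 + P.p.k + 2 * P.q.k ≤ (wnA P a).D0 ∧ R0 + P.q.k + 2 * P.p.k ≤ (wnA P a).D0 := by
    rw [e1, e2]
    constructor <;> linarith
  cases k
  · exact key.1
  · exact key.2
  · exact key.2
  · exact key.1

/-- **THE THREE PAIRS OF CLASSES**, numbers discharged -/
theorem prAll3_ex (hQB : Pool.Agent.ROT.F.QB) : ∃ A : ℝ, 0 < A ∧ ∀ {ρ τ : ℝ}, 0 < ρ → 0 < τ → A * ρ ^ (4 / 3 : ℝ) ≤ τ →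
    ∀ {V : Ultrafilter ℕ}, (V : Filter ℕ) ≤ atTop → ∀ {P : Prm}, P.Ok → P.p.Nr (bE ρ τ) → P.q.Nr (bE ρ τ) →
    ‖P.u - 1‖ ≤ 1 / 100000000 → ∀ {β b : Fin 3 → Measure Pie}, ClsL V P β b → ∀ {L : ℝ} {PG : Measure CC.Gm} [SFinite PG],
    Cv (V : Filter ℕ) (fun N => mwE N L) cN PG → (∀ᵐ y ∂PG, 0 < y.2.1 ∧ y.2.1 < y.1) → PG.map (rotX P.u) = PG →
    GnQ V P.p.n → GnQ V P.p.f → (∀ k, (jD0 P (fA k) (fB k)).len ≤ L) → (∀ k, (jDR P (fA k) (fB k)).len ≤ L) →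
    ∀ {t0 : Fin 3 → ℝ} {G0 HH : Fin 3 → Ga} {Hl : Fin 3 → ℕ → ℕ → Ga} {u : Fin 3 → ℕ → W3 × ℕ → Fin 4 → ℝ}
      {AF : Fin 3 → CC.Gm → Fin 4 → ℝ} {Gd : Fin 3 → Option (ℕ × ℕ) → Set CC.Gm},
    (∀ k, PkC V L PG P (fA k) (fB k) (t0 k) (G0 k) (HH k) (Hl k) (u k) (AF k) (Gd k)) → ∀ {R0 : ℝ}, R0 ≤ 1900000000 * ρ →
    ∀ {G : J3 → Set CC.Gm}, (∀ j : J3, ∀ᵐ g ∂PG, jw0 P (fA j.1) (fB j.1) (G0 j.1) g ≠ 0 → g ∈ G j) → Loc3 P G0 HH R0 G →
    ∃ (C : Fin 3 → Set Pie) (t t' : Fin 3 → Pie → ℝ), (∀ a, MeasurableSet (C a)) ∧ (∀ a, Measurable (t a)) ∧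
      (∀ a, Measurable (t' a)) ∧ (∀ a, ∀ x ∈ C a, (x, (t a x, t' a x)) ∈ VC P a) ∧
      (∀ᵐ x ∂(β 0), x ∈ C 0 → x ∈ TT (β 1) (cZ0 P 0 1 ρ) (cW0 P 0 1 ρ)) ∧
      (∀ k, Mk3 PG (jw0 P (fA k) (fB k) (G0 k)) (jT (G0 k)) (jF1 P (fA k) (fB k) (G0 k) (HH k))
        (jF2 P (fA k) (fB k) (G0 k) (HH k)) (jSF P (HH k)) (C (fA k)) (C (fB k)) (t (fA k)) (t' (fA k)) (t (fB k))
        (t' (fB k))) ∧
      (∀ k, IsFiniteMeasure ((PG.withDensity (jw0 P (fA k) (fB k) (G0 k))).map (dat (jT (G0 k)))) ∧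
        Den ((PG.withDensity (jw0 P (fA k) (fB k) (G0 k))).map (dat (jT (G0 k)))) ((β (fA k)).prod ((β (fB k)).prod volume))
          (DD Prod.fst Prod.fst yP yP (cZ0 P (fA k) (fB k) ρ) (cW0 P (fA k) (fB k) ρ)) (zw yP yP) (fun _ => 1) ∧
        ((β (fA k)).prod ((β (fB k)).prod volume)).restrict
          (DD Prod.fst Prod.fst yP yP (cZ0 P (fA k) (fB k) ρ) (cW0 P (fA k) (fB k) ρ)) ≪
            ((PG.withDensity (jw0 P (fA k) (fB k) (G0 k))).map (dat (jT (G0 k)))).map Prod.snd) ∧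
      ∀ k, PrAll P ρ β b t t' C (fA k) (fB k) := by
  obtain ⟨x0, A0, A, hx0, hA0, hA, T, hnum⟩ := num_lat hQB
  refine ⟨A, hA, ?_⟩
  intro ρ τ hρ hτ hA' V hV P h hp1 hq1 hu β b H L PG _ hC hae hPz g1 g2 l1 l2 t0 G0 HH Hl u AF Gd K R0 hR0 G hG loc
  obtain ⟨⟨n1, n2, n3, n4⟩, hlow⟩ := hnum hρ hτ hA' h hp1 hq1
  exact prAll3 hV h hρ hp1 hq1 hu H hC hae hPz T hx0 n1 n2 n3 n4 g1 g2 l1 l2
    (fun k => (hlow hV (fA_ne k) _ _).1) (fun k => (hlow hV (fA_ne k) _ _).2) K (fun a k => r0_ok h hp1 hq1 hR0 hρ a k) hG loc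

end Pool.Agent.ROT.F3.CK
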