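import Pool.Agent.ROT.F3MO
import Pool.Agent.ROT.F3Fin7
import Pool.Agent.ROT.F3JLoc
import Pool.Agent.ROT.F3CvV

/-!
# ROT, F3 (helper58): the row `MkRow z MO` from the generic row

* `loc3_of_gt` : helper4's locality `Loc3` from the field `gt` of `GenO`;
* **`mkRow_of`** : `GenRow z → MkRow z MO`.
-/

set_option autoImplicit false

noncomputable section

open MeasureTheory Filter Topology Set unitInterval
open scoped ENNReal NNReal

namespace Pool.Agent.ROT.F3E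

open Pool.Agent.ROT.F3 Pool.Agent.ROT.F3.CC Pool.Agent.ROT.F3.CK Pool.Agent.ROT.F3.LF Pool.Agent.ROT.F3.LR Pool.Agent.ROT.F3.Bt
open Pool.Agent.ROT.F (Nm nm_bd nm_ratio nm_top)

lemma eA_kX (s e : Bool) : eA (kX s e) = s := by cases s <;> cases e <;> rfl

/-- **helper4's locality of the rests of the classes** -/
lemma loc3_of_gt {V : Ultrafilter ℕ} {P : Prm} {D : MDat} {PG : Measure CC.Gm} (h : GenO V P D PG) :
    Loc3 P D.G0 D.H (19500000 * D.ρ) fun j => D.Xk P j.1 := fun j j' s hj =>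
  h.gt j.1 (kX s j.2) j'.1 (kX s j'.2) (by rw [eA_kX, eA_kX]) (by rw [clA_X, clA_X, hj])

/-- **the marks of the three classes** -/
theorem mkRow_of {z : ℂ} (hz : ‖z - 1‖ ≤ 1 / 100000000) (gen : GenRow z) : MkRow z MO := by
  obtain ⟨τ0, hτ0, hg⟩ := gen
  obtain ⟨A, hA, key⟩ := prAll3_ex Pool.Agent.ROT.F.qb
  refine ⟨τ0, hτ0, fun τ hτ hτ' => ((((hg τ hτ hτ').and AEv.top).and (AEv.sml (z := z) (τ := τ) one_pos)).and
    (AEv.num hτ hA)).mono ?_⟩
  rintro U P ⟨⟨⟨⟨gn, gf, D, hb1, hlen, eτ, hρ, hN, hc0, hO⟩, hU⟩, hP, -⟩, hnum⟩ β b H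
  have hV : ((U.map Nm : Ultrafilter ℕ) : Filter ℕ) ≤ atTop := nm_map_top hU
  obtain ⟨cv, inv, aep⟩ := pgl_ok hV D.bb
  have hfin := pgl_fin hV D.bb
  have hu : ‖P.u - 1‖ ≤ 1 / 100000000 := by rw [hN.u]; exact hz
  choose Gd hpc using hO.pc
  have hG : ∀ j : J3, ∀ᵐ g ∂(PGl (U.map Nm) D.bb), jw0 P (fA j.1) (fB j.1) (D.G0 j.1) g ≠ 0 → g ∈ D.Xk P j.1 := fun j =>
    hO.aeX.mono fun g hg hne => ⟨hg, hne⟩
  obtain ⟨C, t, t', mC, mt, mt', vc, tt, m3, zf, pr⟩ := key (ρ := D.ρ) (τ := τ) hρ hτ (hnum D.ρ hρ hN) hV hP hN.p hN.q hu H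
    cv aep (inv P.u hP.u) gn gf (fun k => (hlen _ _ (fA_ne k)).1) (fun k => (hlen _ _ (fA_ne k)).2) (t0 := fun _ => D.t0) hpc
    (R0 := 19500000 * D.ρ) (by linarith) hG (loc3_of_gt hO)
  refine ⟨t, t', C, mt, mt', mC, D, ?_⟩
  exact
    { near := by
        rw [eτ]
        exact ⟨rfl, hN.p, hN.q⟩
      ρ0 := hρ
      τ0 := by rw [eτ]; exact hτ
      c0 := hc0
      bb1 := hb1
      cv := cv
      inv := inv
      fin := hfin
      aep := aep
      gen := hO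
      vc := vc
      tt := tt
      m3 := m3
      zf := zf
      pr := pr }

end Pool.Agent.ROT.F3E
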