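import Pool.Agent.ROT.F3Tg
import Pool.Agent.ROT.F3ClsU

/-!
# ROT, F3 (B), LOW0 (helper79): block, tube word, block = rest of the class

* `kn_or` : the cone condition of a tube word with any cosine at most 1;
* **`bTb_RestB`** : `OtM` blocks at both ends and a middle word with `RestB` give `RsQ` (through `rst_bTb` of helper82);
* **`bTb_big`** : the same for all large scales, middle word in a class with linear bounds.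
-/

set_option autoImplicit false

namespace Pool.Agent.ROT.F3.Tb

open Finset
open Pool.Agent.NTS.Res (step pos saw fug)

open scoped ENNReal ComplexConjugate

variable {U β β' : W3} {a b : Fin 3} {R0 R1 d0 d1 S T : ℝ} {P Q : Tp} {O O' : Ot} {W : Wn} {κ κ' : ℝ}

/-- the cone condition of a word near a half line -/
lemma kn_or {R : W3} {c κ S R0 d0 r : ℝ} (hc : c ≤ 1) (hd : 2 * d0 ≤ κ * S) (hr : r < R0)
    (h : ∀ k : ℕ, 1 ≤ k → k ≤ R.length → ‖ps R k‖ < R0 → 0 < lv (step 0 a) (ps R k) ∧ ‖ps R k‖ - 2 * d0 ≤ lv (step 0 a) (ps R k))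
    {i : ℕ} (h0 : 0 < i) (hi : i ≤ R.length) : Kn (ev a) c (κ * S) (ps R i) ∨ r < ‖ps R i‖ := by
  rw [ev_step]
  rcases lt_or_ge ‖ps R i‖ R0 with h3 | h3
  · left
    obtain ⟨-, g⟩ := h i h0 hi h3
    unfold Kn
    have h4 : c * ‖ps R i‖ ≤ 1 * ‖ps R i‖ := mul_le_mul_of_nonneg_right hc (norm_nonneg _)
    linarith
  · exact Or.inr (hr.trans_le h3)

/-- **block, word near the half lines, block** -/
theorem bTb_RestB (h : RestB U a b R0 R1 d0 d1) (hP : P.Ok) (hQ : Q.Ok) (hS : 0 < S) (hb : OtM (ev a) O S T β)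
    (hb' : OtM (ev b) O' S T β') (hc : P.c ≤ O.c) (hc' : Q.c ≤ O'.c) (hO : O.c ≤ 1) (hO' : O'.c ≤ 1) (hκo : O.κ ≤ P.κ)
    (hκo' : O'.κ ≤ Q.κ) (h1 : κ < O.m) (h2 : κ ≤ O.e + P.κ) (h1' : κ' < O'.m) (h2' : κ' ≤ O'.e + Q.κ)
    (hd0 : 2 * d0 ≤ κ * S) (hd1 : 2 * d1 ≤ κ' * S) (g0 : 2 * O.r * S < R0) (g0' : (P.r0 + O.r) * S < R0)
    (g1 : 2 * O'.r * S < R1) (g1' : (Q.r0 + O'.r) * S < R1) (f1 : (P.r0 + Q.r0 + 2 * (O.r + O'.r)) * S < ‖en U‖)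
    (f2 : (W.D0 + (O.r + O'.r)) * S ≤ ‖en U‖) (f3 : ‖en U‖ ≤ (W.D1 - (O.r + O'.r)) * S) (l1 : W.t0 * T ≤ (U.length : ℝ))
    (l2 : (U.length : ℝ) ≤ (W.t1 - (O.lb + O'.lb)) * T) : RsQ (ev a) (ev b) P Q W S T (β ++ (U ++ β'.reverse)) := by
  refine rst_bTb (κ := κ) (κ' := κ') hP hQ hS hb hb' hc hc' hκo hκo' h1 h2 h1' h2' h.ev h.sw (fun k k1 k2 k3 => ?_)
    (fun k k1 k2 k3 => ?_) (fun i h3 h4 => kn_or hO hd0 g0' (fun k k1 k2 k3 => h.cone0 k1 k2 k3) h3 h4)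
    (fun i h3 h4 => kn_or hO' hd1 g1' (fun k k1 k2 k3 => h.cone1 k1 (by rwa [List.length_reverse] at k2) k3) h3
      (by rwa [List.length_reverse])) f1 f2 f3 l1 l2
  · rw [ev_step]
    exact (h.cone0 k1 k2 (k3.trans_lt g0)).1
  · rw [ev_step]
    rw [List.length_reverse] at k2
    exact (h.cone1 k1 k2 (k3.trans_lt g1)).1

/-- **the same in units of `S`**: `ρ0`, `ρ1` = radii, `δ0`, `δ1` = widths, displacement and length of the word in windows -/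
theorem bTb_big {ρ0 ρ1 δ0 δ1 e0 e1 t0 t1 : ℝ} (h : RestB U a b (ρ0 * S) (ρ1 * S) (δ0 * S) (δ1 * S)) (hP : P.Ok) (hQ : Q.Ok)
    (hS : 0 < S) (hT : 0 ≤ T) (hb : OtM (ev a) O S T β) (hb' : OtM (ev b) O' S T β') (hc : P.c ≤ O.c) (hc' : Q.c ≤ O'.c)
    (hO : O.c ≤ 1) (hO' : O'.c ≤ 1) (hκo : O.κ ≤ P.κ) (hκo' : O'.κ ≤ Q.κ) (h1 : 2 * δ0 < O.m) (h2 : 2 * δ0 ≤ O.e + P.κ)
    (h1' : 2 * δ1 < O'.m) (h2' : 2 * δ1 ≤ O'.e + Q.κ) (g0 : 2 * O.r < ρ0) (g0' : P.r0 + O.r < ρ0) (g1 : 2 * O'.r < ρ1)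
    (g1' : Q.r0 + O'.r < ρ1) (f1 : P.r0 + Q.r0 + 2 * (O.r + O'.r) < e0) (f2 : W.D0 + (O.r + O'.r) ≤ e0)
    (f3 : e1 ≤ W.D1 - (O.r + O'.r)) (f4 : e0 * S ≤ ‖en U‖) (f5 : ‖en U‖ ≤ e1 * S) (l1 : W.t0 ≤ t0)
    (l2 : t1 ≤ W.t1 - (O.lb + O'.lb)) (l3 : t0 * T ≤ (U.length : ℝ)) (l4 : (U.length : ℝ) ≤ t1 * T) :
    RsQ (ev a) (ev b) P Q W S T (β ++ (U ++ β'.reverse)) := by
  refine bTb_RestB (κ := 2 * δ0) (κ' := 2 * δ1) h hP hQ hS hb hb' hc hc' hO hO' hκo hκo' h1 h2 h1' h2' (by linarith) (by linarith)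
    (mul_lt_mul_of_pos_right g0 hS) (mul_lt_mul_of_pos_right g0' hS) (mul_lt_mul_of_pos_right g1 hS)
    (mul_lt_mul_of_pos_right g1' hS) ((mul_lt_mul_of_pos_right f1 hS).trans_le f4) ((mul_le_mul_of_nonneg_right f2 hS.le).trans f4)
    (f5.trans (mul_le_mul_of_nonneg_right f3 hS.le)) ((mul_le_mul_of_nonneg_right l1 hT).trans l3)
    (l4.trans (mul_le_mul_of_nonneg_right l2 hT))

end Pool.Agent.ROT.F3.Tb
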