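import Pool.Agent.ROT.F3W7c

/-!
# ROT, F3 (B), row W7 (helper64): the channels beside a curve of the plane, general form

**`chan_gen`** : `chan_geo` for any curve of the plane with `the past of every visit of the ball bn is in the ball L and has skew
abscissa at least -e` (no strip); `cone_abs` : this lower bound in a cone of cosine at least `3 / 5`.
-/

set_option autoImplicit false

namespace Pool.Agent.ROT.F3

open Set ComplexConjugate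
open Ln (JR JR_add JR_smul)

/-- the skew abscissa in a cone -/
lemma cone_abs {d : ℂ} (hd : ‖d‖ = 1) {c κ : ℝ} (hc : 3 / 5 ≤ c) {v : ℂ} (h : c * ‖v‖ - κ ≤ lv d v) :
    -κ ≤ lv d v - ltl d v / Real.sqrt 3 := by
  have h1 : |ltl d v| ≤ ‖v‖ := by
    unfold ltl
    refine (Complex.abs_im_le_norm _).trans ?_
    rw [norm_mul, Complex.norm_conj, hd, one_mul]
  have h4 : 5 / 3 ≤ Real.sqrt 3 := by
    refine Real.le_sqrt_of_sq_le ?_
    norm_num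
  have h5 : ltl d v / Real.sqrt 3 ≤ 3 / 5 * ‖v‖ := by
    rw [div_le_iff₀ sqrt3_pos]
    have := (le_abs_self (ltl d v)).trans h1
    nlinarith [norm_nonneg v]
  nlinarith [norm_nonneg v]

open HexObs.ROT.F3L in
/-- **the two channels beside a curve of the plane**: the past of every visit of the ball `bn` (at the end: the future) is in the
ball `L` and has skew abscissa at least `-e` -/
theorem chan_gen {κ : ℂ} (hκ : ‖κ‖ = 1) {c0 : C(unitInterval, ℂ)} (h0 : c0 0 = 0) (hi : Function.Injective c0)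
    {e L bn h rz R0 e' L' bn' h' rz' R1 ε μ0 : ℝ}
    (hp : ∀ s t : unitInterval, s ≤ t → ‖c0 t‖ < bn → ‖c0 s‖ ≤ L ∧
      -e ≤ lv (κ * JR (1, 0)) (c0 s) - ltl (κ * JR (1, 0)) (c0 s) / Real.sqrt 3)
    (hq : ∀ s t : unitInterval, s ≤ t → ‖c0 s - c0 1‖ < bn' → ‖c0 t - c0 1‖ ≤ L' ∧
      -e' ≤ lv (κ * JR (1, 0)) (c0 t - c0 1) - ltl (κ * JR (1, 0)) (c0 t - c0 1) / Real.sqrt 3)
    (hD : 12 * (L + L') < ‖c0 1‖) {z z' w w' : ℂ}
    (hz : ‖z - h * (κ * JR (-1, 1) - κ * JR (1, 0))‖ ≤ rz) (hz' : ‖z' - h * (κ * JR (0, -1) - κ * JR (1, 0))‖ ≤ rz)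
    (hw1 : ‖w - h' * (κ * JR (0, -1) - κ * JR (1, 0))‖ ≤ rz') (hw1' : ‖w' - h' * (κ * JR (-1, 1) - κ * JR (1, 0))‖ ≤ rz')
    (hR0 : 0 ≤ R0) (hR1 : 0 ≤ R1) (he : 0 ≤ e) (he' : 0 ≤ e') (g1 : 12 / 5 * rz + e < h) (g1' : 12 / 5 * rz' + e' < h')
    (g2 : 7 / 4 * (h + 18 / 5 * rz + R0) + h < bn) (g2' : 7 / 4 * (h' + 18 / 5 * rz' + R1) + h' < bn')
    (g4 : bn ≤ L) (g4' : bn' ≤ L') (hε : 0 < ε) (hμ0 : 0 < μ0) :
    ∃ (c : ℝ → ℝ × ℝ) (z2 z3 e2 e3 : ℝ × ℝ), (∀ t : unitInterval, c0 t = κ * JR (c t)) ∧ κ * JR z2 = z ∧ κ * JR z3 = z' ∧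
      κ * JR e2 = w + c0 1 ∧ κ * JR e3 = w' + c0 1 ∧
      ∃ η > 0, ∃ (μ2 μ3 : ℝ) (M2 M3 : List (ℤ × ℤ)) (x0 x1 y0 y1 : ℤ × ℤ) (s2 s2' s3 s3' : ℕ),
      0 < μ2 ∧ μ2 ≤ μ0 ∧ 0 < μ3 ∧ μ3 ≤ μ0 ∧ Chn μ2 ε R0 R1 z2 e2 M2 x0 x1 (1, -1) (0, 1) s2 s2' ∧
      Chn μ3 ε R0 R1 z3 e3 M3 y0 y1 (0, 1) (1, -1) s3 s3' ∧
      (∀ t, 0 ≤ t → t ≤ 1 → ∀ y ∈ KS μ2 M2 x0 x1 (1, -1) (0, 1) s2 s2', η ≤ dist (c t) y) ∧
      (∀ t, 0 ≤ t → t ≤ 1 → ∀ y ∈ KS μ3 M3 y0 y1 (0, 1) (1, -1) s3 s3', η ≤ dist (c t) y) ∧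
      ∀ y ∈ KS μ2 M2 x0 x1 (1, -1) (0, 1) s2 s2', ∀ y' ∈ KS μ3 M3 y0 y1 (0, 1) (1, -1) s3 s3', 2 * η ≤ dist y y' := by
  have hκ0 : κ ≠ 0 := by
    rintro rfl
    simp at hκ
  have back : ∀ v : ℂ, κ * JR (JRi (κ⁻¹ * v)) = v := by
    intro v
    rw [JR_JRi, ← mul_assoc, mul_inv_cancel₀ hκ0, one_mul]
  -- the curve
  obtain ⟨c, hc⟩ : ∃ c : ℝ → ℝ × ℝ, c = fun t => JRi (κ⁻¹ * c0 (projIcc 0 1 zero_le_one t)) := ⟨_, rfl⟩
  have hct : ∀ t : unitInterval, c0 t = κ * JR (c t) := by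
    intro t
    rw [hc]
    simp only
    rw [back, projIcc_val]
  have hc1 : c0 1 = κ * JR (c 1) := hct 1
  have hc0 : c 0 = 0 := by
    have h1 : c0 0 = κ * JR (c 0) := hct 0
    rw [h0] at h1
    have h2 : JR (c 0) = 0 := by
      rcases mul_eq_zero.1 h1.symm with h | h
      · exact absurd h hκ0
      · exact h
    have h3 := JRi_JR (c 0)
    rw [h2] at h3
    rw [← h3]
    unfold JRi
    simp
  have hsub : ∀ t : unitInterval, c0 t - c0 1 = κ * JR (c t - c 1) := by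
    intro t
    rw [JR_sub', hct t, hc1]
    ring
  have hcc : ContinuousOn c (Icc 0 1) := by
    rw [hc]
    refine Continuous.continuousOn ?_
    exact JRi_cont.comp (continuous_const.mul (c0.continuous.comp continuous_projIcc))
  have hci : InjOn c (Icc 0 1) := by
    intro s hs t ht hst
    have h1 : c0 ⟨s, hs⟩ = c0 ⟨t, ht⟩ := by
      rw [hct ⟨s, hs⟩, hct ⟨t, ht⟩]
      simp only
      rw [hst]
    exact congrArg Subtype.val (hi h1)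
  -- the signs of the constants
  have hrz : 0 ≤ rz := (norm_nonneg _).trans hz
  have hrz' : 0 ≤ rz' := (norm_nonneg _).trans hw1
  have hh : 0 < h := by linarith
  have hh' : 0 < h' := by linarith
  -- the small parameter
  obtain ⟨δ, hδ, a1, a2, a3, b1, b2, b3⟩ : ∃ δ : ℝ, 0 < δ ∧ δ ≤ (h - (12 / 5 * rz + e)) / 4 ∧
      δ ≤ (bn - (7 / 4 * (h + 18 / 5 * rz + R0) + h)) / 8 ∧ δ ≤ h / 10 ∧ δ ≤ (h' - (12 / 5 * rz' + e')) / 4 ∧
      δ ≤ (bn' - (7 / 4 * (h' + 18 / 5 * rz' + R1) + h')) / 8 ∧ δ ≤ h' / 10 := by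
    refine ⟨min ((h - (12 / 5 * rz + e)) / 4) (min ((bn - (7 / 4 * (h + 18 / 5 * rz + R0) + h)) / 8)
      (min (h / 10) (min ((h' - (12 / 5 * rz' + e')) / 4)
      (min ((bn' - (7 / 4 * (h' + 18 / 5 * rz' + R1) + h')) / 8) (h' / 10))))), ?_, ?_⟩
    · simp only [lt_min_iff]
      refine ⟨?_, ?_, ?_, ?_, ?_, ?_⟩ <;> linarith
    · simp only [min_le_iff, le_refl, true_or, or_true, and_self]
  -- the four points
  obtain ⟨z2, hz2⟩ : ∃ y : ℝ × ℝ, κ * JR y = z := ⟨_, back z⟩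
  obtain ⟨z3, hz3⟩ : ∃ y : ℝ × ℝ, κ * JR y = z' := ⟨_, back z'⟩
  obtain ⟨v2, hv2⟩ : ∃ y : ℝ × ℝ, κ * JR y = w := ⟨_, back w⟩
  obtain ⟨v3, hv3⟩ : ∃ y : ℝ × ℝ, κ * JR y = w' := ⟨_, back w'⟩
  obtain ⟨i1, i2, i3⟩ := north_pt hκ hz hz2
  obtain ⟨i4, i5⟩ := south_pt hκ hz' hz3
  obtain ⟨i6, i7⟩ := south_pt hκ hw1 hv2
  obtain ⟨i8, i9, i10⟩ := north_pt hκ hw1' hv3
  rw [abs_le] at i1 i2 i3 i4 i5 i6 i7 i8 i9 i10
  refine ⟨c, z2, z3, v2 + c 1, v3 + c 1, hct, hz2, hz3, ?_, ?_, ?_⟩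
  · rw [JR_add, mul_add, hv2, hc1]
  · rw [JR_add, mul_add, hv3, hc1]
  have hshift : ∀ (v x : ℝ × ℝ), dist (c 1 + v) x = dist v (x - c 1) := by
    intro v x
    rw [dist_eq_norm, dist_eq_norm]
    congr 1
    abel
  -- the past of a visit
  have key : ∀ {x : ℝ × ℝ} {e L : ℝ}, ‖κ * JR x‖ ≤ L →
      -e ≤ lv (κ * JR (1, 0)) (κ * JR x) - ltl (κ * JR (1, 0)) (κ * JR x) / Real.sqrt 3 →
      -e ≤ x.1 ∧ |x.1| ≤ 6 / 5 * L ∧ |x.2| ≤ 6 / 5 * L := by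
    intro x e L k1 k2
    rw [norm_mul, hκ, one_mul] at k1
    rw [lv_JR hκ, ltl_JR hκ] at k2
    have e1 : x.1 + x.2 / 2 - Real.sqrt 3 / 2 * x.2 / Real.sqrt 3 = x.1 := by
      have := sqrt3_pos.ne'
      field_simp
      ring
    rw [e1] at k2
    have k3 := JR_c1 x
    have k4 := JR_c2 x
    exact ⟨k2, by linarith, by linarith⟩
  have hP : ∀ s t : ℝ, 0 ≤ s → s ≤ t → t ≤ 1 → dist ((-h, 0) : ℝ × ℝ) (c t) ≤ h + 18 / 5 * rz + R0 + 4 * δ →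
      -e ≤ (c s).1 ∧ |(c s).1| ≤ 6 / 5 * L ∧ |(c s).2| ≤ 6 / 5 * L := by
    intro s t hs hst ht hd
    have hlt := in_ball hκ hh.le hd (bn := bn) (by linarith)
    obtain ⟨k1, k2⟩ := hp ⟨s, hs, hst.trans ht⟩ ⟨t, hs.trans hst, ht⟩ hst (by
      rw [hct]
      exact hlt)
    rw [hct] at k1 k2
    exact key k1 k2
  have hQ : ∀ s t : ℝ, 0 ≤ s → s ≤ t → t ≤ 1 → dist (c 1 + ((-h', 0) : ℝ × ℝ)) (c s) ≤ h' + 18 / 5 * rz' + R1 + 4 * δ →
      -e' ≤ (c t - c 1).1 ∧ |(c t - c 1).1| ≤ 6 / 5 * L' ∧ |(c t - c 1).2| ≤ 6 / 5 * L' := by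
    intro s t hs hst ht hd
    rw [hshift] at hd
    have hlt := in_ball hκ hh'.le hd (bn := bn') (by linarith)
    obtain ⟨k1, k2⟩ := hq ⟨s, hs, hst.trans ht⟩ ⟨t, hs.trans hst, ht⟩ hst (by
      rw [hsub]
      exact hlt)
    rw [hsub] at k1 k2
    exact key k1 k2
  have hPQ : 4 * ((6 / 5 * L + h + δ) + (6 / 5 * L' + h' + δ)) < dist ((-h, 0) : ℝ × ℝ) (c 1 + (-h', 0)) := by
    have n1 : ‖c0 1‖ ≤ 7 / 4 * ‖c 1‖ := by
      rw [hc1, norm_mul, hκ, one_mul]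
      exact JR_up _
    have n2 : ‖c 1‖ ≤ dist ((-h, 0) : ℝ × ℝ) (c 1 + (-h', 0)) + h + h' := by
      have e1 : c 1 = ((c 1 + (-h', 0)) - (-h, 0)) + ((h' - h, 0) : ℝ × ℝ) := by
        refine Prod.ext ?_ ?_
        · simp only [Prod.fst_sub, Prod.fst_add]
          ring
        · simp only [Prod.snd_sub, Prod.snd_add]
          ring
      have e2 : ‖((h' - h, 0) : ℝ × ℝ)‖ ≤ h + h' := by
        rw [Prod.norm_def, max_le_iff, Real.norm_eq_abs, abs_le]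
        refine ⟨⟨?_, ?_⟩, ?_⟩
        · simp only
          linarith
        · simp only
          linarith
        · simp only [norm_zero]
          linarith
      calc ‖c 1‖ = ‖((c 1 + (-h', 0)) - (-h, 0)) + ((h' - h, 0) : ℝ × ℝ)‖ := by rw [← e1]
        _ ≤ ‖(c 1 + (-h', 0)) - (-h, 0)‖ + ‖((h' - h, 0) : ℝ × ℝ)‖ := norm_add_le _ _
        _ ≤ _ := by
          rw [dist_comm, dist_eq_norm]
          linarith
    linarith
  refine chan (c := c) hcc hci (P := (-h, 0)) (Q := c 1 + (-h', 0)) (w := 0) (e := 12 / 5 * rz + δ) (e' := 12 / 5 * rz + 2 * δ)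
    (a := h + 6 / 5 * rz + R0 + δ) (b0 := h) (b := h + 18 / 5 * rz + R0 + 3 * δ) (b' := h + 18 / 5 * rz + R0 + 4 * δ)
    (B' := 6 / 5 * L + h) (B := 6 / 5 * L + h + δ) (w₁ := 0) (e₁ := 12 / 5 * rz' + δ) (e₁' := 12 / 5 * rz' + 2 * δ)
    (a₁ := h' + 6 / 5 * rz' + R1 + δ) (b0₁ := h') (b₁ := h' + 18 / 5 * rz' + R1 + 3 * δ) (b₁' := h' + 18 / 5 * rz' + R1 + 4 * δ)
    (B₁' := 6 / 5 * L' + h') (B₁ := 6 / 5 * L' + h' + δ) (dl := h - 6 / 5 * rz) (a1 := h + 6 / 5 * rz)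
    (dl₁ := h' - 6 / 5 * rz') (a1₁ := h' + 6 / 5 * rz') le_rfl (by linarith) (by linarith) (by linarith) (by linarith)
    (by linarith) (by linarith) (by linarith) (by linarith) le_rfl (by linarith) (by linarith) (by linarith) (by linarith)
    (by linarith) (by linarith) (by linarith) (by linarith) ?_ ?_ ?_ ?_ ?_ ?_ hPQ (by linarith) (by linarith) (by linarith)
    (by linarith) ?_ ?_ ?_ ?_ ?_ ?_ ?_ ?_ ?_ ?_ ?_ ?_ ?_ ?_ ?_ ?_ hε hμ0 (by linarith) (by linarith)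
  · rw [hc0, dist_le2]
    simp only [Prod.fst_zero, Prod.snd_zero]
    refine ⟨⟨?_, ?_⟩, ?_, ?_⟩ <;> linarith
  · rw [hshift, sub_self, dist_le2]
    simp only [Prod.fst_zero, Prod.snd_zero]
    refine ⟨⟨?_, ?_⟩, ?_, ?_⟩ <;> linarith
  · intro s t hs hst ht hd
    obtain ⟨k1, k2, k3⟩ := hP s t hs hst ht hd
    rw [abs_le] at k2 k3
    rw [dist_le2]
    refine ⟨⟨⟨?_, ?_⟩, ?_, ?_⟩, ?_⟩ <;> simp only <;> linarith
  · intro s t hs hst ht hd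
    obtain ⟨k1, k2, k3⟩ := hQ s t hs hst ht hd
    rw [abs_le] at k2 k3
    rw [hshift, dist_le2]
    simp only [Prod.fst_add]
    rw [Prod.fst_sub] at k1 k2 ⊢
    refine ⟨⟨⟨?_, ?_⟩, ?_, ?_⟩, ?_⟩ <;> linarith
  · intro t t0 t1 hd h5
    have k1 := (hP t t t0 le_rfl t1 hd).1
    simp only at h5
    linarith
  · intro t t0 t1 hd h5
    have k1 := (hQ t t t0 le_rfl t1 hd).1
    rw [Prod.fst_sub] at k1
    simp only [Prod.fst_add] at h5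
    linarith
  · simp only
    linarith
  · simp only
    linarith
  · simp only
    linarith
  · rw [dist_le2]
    refine ⟨⟨?_, ?_⟩, ?_, ?_⟩ <;> simp only <;> linarith
  · simp only
    linarith
  · simp only
    linarith
  · simp only
    linarith
  · rw [dist_le2]
    refine ⟨⟨?_, ?_⟩, ?_, ?_⟩ <;> simp only <;> linarith
  · simp only [Prod.fst_add]
    linarith
  · simp only [Prod.fst_add]
    linarith
  · simp only [Prod.snd_add]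
    linarith
  · rw [dist_le2]
    refine ⟨⟨?_, ?_⟩, ?_, ?_⟩ <;> simp only [Prod.fst_add, Prod.snd_add] <;> linarith
  · simp only [Prod.fst_add]
    linarith
  · simp only [Prod.snd_add]
    linarith
  · simp only [Prod.fst_add, Prod.snd_add]
    linarith
  · rw [dist_le2]
    refine ⟨⟨?_, ?_⟩, ?_, ?_⟩ <;> simp only [Prod.fst_add, Prod.snd_add] <;> linarith

end Pool.Agent.ROT.F3
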