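import Pool.Agent.ROT.F3W7h
import Pool.Agent.ROT.F3W7g

/-!
# ROT, F3, row W7 (helper63): curves with companions of their own lattice

* **`sec_pos`** : a channel gives a set of companions of positive mass (the section of `DD`);
* `HG` : the closed conditions of 64's `chan_gen`; `hg_closed`;
* **`chan_hg`** : the channels of an injective curve of `HG`; **`hg_sec`** : its sections are charged.
-/

set_option autoImplicit false

open MeasureTheory Filter Topology Set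
open scoped ENNReal NNReal

namespace Pool.Agent.ROT.F3

open Pool.Agent.ROT.F3.CC (Pie yP dsp_cont)
open Pool.Agent.NTS.Res (step)

/-- **the section is charged** -/
theorem sec_pos {A B : Type*} [MeasurableSpace B] {g1 : A → C(unitInterval, ℂ)} {g2 : B → C(unitInterval, ℂ)} {y1 : A → ℂ}
    {y2 : B → ℂ} (m2 : Measurable g2) (n2 : Measurable y2) {b2 : Measure B} [SFinite b2] {a : A} {z w : ℂ} {η : ℝ} (hη : 0 < η)
    {K : Set ℂ} (hK : IsClosed K) (d : ∀ s, ∀ k ∈ K, η < dist (g1 a s) k)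
    (l2 : (volume : Measure ℂ).restrict (Metric.closedBall (z + y1 a - w) (2 * η)) ≪ (b2.restrict (Inn g2 z K)).map y2)
    {Z W : Set ℂ} {m0 : ℝ} (hm : 0 < m0) (hZ : Metric.closedBall z m0 ⊆ Z) (hW : Metric.closedBall w m0 ⊆ W) :
    (b2.prod (volume : Measure ℂ)) {p | (a, p.1, p.2) ∈ DD g1 g2 y1 y2 Z W} ≠ 0 := by
  obtain ⟨r, hr, r1, r2⟩ : ∃ r : ℝ, 0 < r ∧ r ≤ η ∧ 2 * r ≤ m0 :=
    ⟨min η (m0 / 2), by positivity, min_le_left _ _, by
      have := min_le_right η (m0 / 2)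
      linarith⟩
  obtain ⟨S, hS⟩ : ∃ S : Set B, S = y2 ⁻¹' Metric.ball (z + y1 a - w) r ∩ Inn g2 z K := ⟨_, rfl⟩
  have hS0 : b2 S ≠ 0 := by
    intro h0
    have mi := inn_meas m2 z hK
    have h1 : ((b2.restrict (Inn g2 z K)).map y2) (Metric.ball (z + y1 a - w) r) = 0 := by
      rw [Measure.map_apply n2 measurableSet_ball, Measure.restrict_apply (n2 measurableSet_ball), ← hS]
      exact h0
    have h2 := l2 h1
    rw [Measure.restrict_apply measurableSet_ball, inter_eq_left.2 ((Metric.ball_subset_closedBall).trans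
      (Metric.closedBall_subset_closedBall (by linarith)))] at h2
    exact (Metric.measure_ball_pos volume (z + y1 a - w) hr).ne' h2
  have hsub : S ×ˢ Metric.ball z r ⊆ {p : B × ℂ | (a, p.1, p.2) ∈ DD g1 g2 y1 y2 Z W} := by
    rintro ⟨x, z0⟩ ⟨hx, hz0⟩
    rw [hS] at hx
    obtain ⟨hx1, hx2⟩ := hx
    have hz1 : dist z0 z < r := hz0
    have hx3 : dist (y2 x) (z + y1 a - w) < r := hx1
    refine ⟨?_, hZ ?_, hW ?_⟩
    · intro s t he
      have h1 := d s _ (hx2 t)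
      have he' : g1 a s = g2 x t + z0 := he
      rw [he', dist_add_left] at h1
      linarith
    · rw [Metric.mem_closedBall]
      linarith
    · rw [Metric.mem_closedBall]
      show dist (z0 + y1 a - y2 x) w ≤ m0
      rw [dist_eq_norm] at hz1 hx3 ⊢
      have e : z0 + y1 a - y2 x - w = (z0 - z) - (y2 x - (z + y1 a - w)) := by ring
      rw [e]
      refine (norm_sub_le _ _).trans ?_
      linarith
  intro h0
  have h1 := measure_mono_null hsub h0
  rw [Measure.prod_prod, mul_eq_zero] at h1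
  rcases h1 with h1 | h1
  · exact hS0 h1
  · exact (Metric.measure_ball_pos volume z hr).ne' h1

/-- the two sections of a place with channels are charged -/
theorem ChanAt.sec {A B C : Type*} [MeasurableSpace A] [MeasurableSpace B] [MeasurableSpace C]
    {g1 : A → C(unitInterval, ℂ)} {g2 : B → C(unitInterval, ℂ)} {g3 : C → C(unitInterval, ℂ)} {y1 : A → ℂ} {y2 : B → ℂ}
    {y3 : C → ℂ} (m2 : Measurable g2) (n2 : Measurable y2) (m3 : Measurable g3) (n3 : Measurable y3) {b2 : Measure B}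
    {b3 : Measure C} [SFinite b2] [SFinite b3] {a : A} {z z' w w' : ℂ}
    (h : ChanAt g1 g2 g3 y1 y2 y3 b2 b3 volume a z z' w w') {Z Z' W W' : Set ℂ} {m0 : ℝ} (hm : 0 < m0)
    (hZ : Metric.closedBall z m0 ⊆ Z) (hZ' : Metric.closedBall z' m0 ⊆ Z') (hW : Metric.closedBall w m0 ⊆ W)
    (hW' : Metric.closedBall w' m0 ⊆ W') :
    (b2.prod (volume : Measure ℂ)) {p | (a, p.1, p.2) ∈ DD g1 g2 y1 y2 Z W} ≠ 0 ∧
      (b3.prod (volume : Measure ℂ)) {p | (a, p.1, p.2) ∈ DD g1 g3 y1 y3 Z' W'} ≠ 0 := by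
  obtain ⟨η, hη, K, K', cK, cK', d1, d2, -, l2, l3⟩ := h
  exact ⟨sec_pos m2 n2 hη cK d1 l2 hm hZ hW, sec_pos m3 n3 hη cK' d2 l3 hm hZ' hW'⟩

/-! ### curves with the conditions of `chan_gen` -/

/-- **the conditions of `chan_gen`**: the past of a visit of the ball `bn` is in the ball `L` and has skew abscissa at least `-e`,
the same at the end, backwards -/
def HG (d : ℂ) (e L bn e' L' bn' : ℝ) : Set C(unitInterval, ℂ) :=
  {c | c 0 = 0 ∧ (∀ s t : unitInterval, s ≤ t → ‖c t‖ < bn → ‖c s‖ ≤ L ∧ -e ≤ lv d (c s) - ltl d (c s) / Real.sqrt 3) ∧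
    ∀ s t : unitInterval, s ≤ t → ‖c s - c 1‖ < bn' → ‖c t - c 1‖ ≤ L' ∧
      -e' ≤ lv d (c t - c 1) - ltl d (c t - c 1) / Real.sqrt 3}

theorem hg_closed (d : ℂ) (e L bn e' L' bn' : ℝ) : IsClosed (HG d e L bn e' L' bn') := by
  have hl := lv_cont' d
  have ht := ltl_cont' d
  have c1 : ∀ s : unitInterval, Continuous fun c : C(unitInterval, ℂ) => c s := fun s => continuous_eval_const s
  have c2 : ∀ s : unitInterval, Continuous fun c : C(unitInterval, ℂ) => c s - c 1 := fun s => (c1 s).sub (c1 1)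
  have e1 : HG d e L bn e' L' bn' = {c | c 0 = 0} ∩ ((⋂ s : unitInterval, ⋂ t : unitInterval, ⋂ _ : s ≤ t,
      ({c | bn ≤ ‖c t‖} ∪ {c | ‖c s‖ ≤ L ∧ -e ≤ lv d (c s) - ltl d (c s) / Real.sqrt 3})) ∩
      ⋂ s : unitInterval, ⋂ t : unitInterval, ⋂ _ : s ≤ t, ({c | bn' ≤ ‖c s - c 1‖} ∪
        {c | ‖c t - c 1‖ ≤ L' ∧ -e' ≤ lv d (c t - c 1) - ltl d (c t - c 1) / Real.sqrt 3})) := by
    ext c
    simp only [HG, mem_ofPred_eq, mem_inter_iff, mem_iInter, mem_union]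
    refine and_congr Iff.rfl (and_congr ?_ ?_)
    · refine forall_congr' fun s => forall_congr' fun t => forall_congr' fun _ => ?_
      rw [imp_iff_not_or, not_lt]
    · refine forall_congr' fun s => forall_congr' fun t => forall_congr' fun _ => ?_
      rw [imp_iff_not_or, not_lt]
  rw [e1]
  refine isClosed_eval0.inter (IsClosed.inter ?_ ?_)
  · refine isClosed_iInter fun s => isClosed_iInter fun t => isClosed_iInter fun _ => IsClosed.union ?_ (IsClosed.inter ?_ ?_)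
    · exact isClosed_le continuous_const (c1 t).norm
    · exact isClosed_le (c1 s).norm continuous_const
    · exact isClosed_le continuous_const ((hl.comp (c1 s)).sub ((ht.comp (c1 s)).div_const _))
  · refine isClosed_iInter fun s => isClosed_iInter fun t => isClosed_iInter fun _ => IsClosed.union ?_ (IsClosed.inter ?_ ?_)
    · exact isClosed_le continuous_const (c2 s).norm
    · exact isClosed_le (c2 t).norm continuous_const
    · exact isClosed_le continuous_const ((hl.comp (c2 t)).sub ((ht.comp (c2 t)).div_const _))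

/-- from two stages to the conditions of `chan_gen` -/
theorem HG.of_stage {d : ℂ} {e L bn e' L' bn' : ℝ} {c : C(unitInterval, ℂ)} (h0 : c 0 = 0)
    (hp : ∃ τ : unitInterval, (∀ t, t ≤ τ → ‖c t‖ ≤ L ∧ -e ≤ lv d (c t) - ltl d (c t) / Real.sqrt 3) ∧ ∀ t, τ ≤ t → bn ≤ ‖c t‖)
    (hq : ∃ τ : unitInterval, (∀ t, τ ≤ t → ‖c t - c 1‖ ≤ L' ∧ -e' ≤ lv d (c t - c 1) - ltl d (c t - c 1) / Real.sqrt 3) ∧
      ∀ t, t ≤ τ → bn' ≤ ‖c t - c 1‖) : c ∈ HG d e L bn e' L' bn' := by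
  obtain ⟨τ, h1, h2⟩ := hp
  obtain ⟨σ, h3, h4⟩ := hq
  refine ⟨h0, fun s t hst ht => h1 s ?_, fun s t hst hs => h3 t ?_⟩
  · by_contra hc
    exact absurd (h2 t ((not_le.1 hc).le.trans hst)) (not_le.2 ht)
  · by_contra hc
    exact absurd (h4 s (hst.trans (not_le.1 hc).le)) (not_le.2 hs)

namespace Ln

/-- **the channels of a curve with the conditions of `chan_gen`**; companions of the classes 1, 2 with any data `P`, `Q`, `W` -/
theorem chan_hg {P Q : Tp} {V : Wn} {v : ℂ} (hv : ‖v‖ = 1) {A B C : Type*} [MeasurableSpace B] [MeasurableSpace C]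
    {g1 : A → C(unitInterval, ℂ)} {g2 : B → C(unitInterval, ℂ)} {g3 : C → C(unitInterval, ℂ)} {y1 : A → ℂ} {y2 : B → ℂ}
    {y3 : C → ℂ} {b2 : Measure B} {b3 : Measure C} {e L bn e' L' bn' D0 D1 h rz h' rz' : ℝ} (hP : 0 < P.r0) (hPg : P.rg ≤ P.r0)
    (hPκ : 0 < P.κ) (hQ : 0 < Q.r0) (hQg : Q.rg ≤ Q.r0) (hQκ : 0 < Q.κ) (hV : 0 < V.t1)
    (F2 : Full (v * kap 1 (1, -1)) g2 y2 b2 (1, -1) (0, 1) P Q V)
    (F3 : Full (v * kap 2 (0, 1)) g3 y3 b3 (0, 1) (1, -1) P Q V)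
    (he : 0 ≤ e) (he' : 0 ≤ e') (a1 : 12 / 5 * rz + e < h) (a1' : 12 / 5 * rz' + e' < h')
    (a2 : 7 / 4 * (h + 18 / 5 * rz + 6 / 5 * P.r0) + h < bn) (a2' : 7 / 4 * (h' + 18 / 5 * rz' + 6 / 5 * Q.r0) + h' < bn')
    (a3 : bn ≤ L) (a3' : bn' ≤ L') (a4 : 12 * (L + L') < D0) (a5 : V.D0 + 2 * (h + h') + (rz + rz') < D0)
    (a6 : D1 + 2 * (h + h') + (rz + rz') < V.D1) {a : A} {c0 : C(unitInterval, ℂ)}
    (hc : c0 ∈ HG (ev 0) e L bn e' L' bn') (hD0 : D0 ≤ ‖c0 1‖) (hD1 : ‖c0 1‖ ≤ D1) (hi : Function.Injective c0)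
    (hg : ∀ t, g1 a t = v * c0 t) (hy : y1 a = -(v * c0 1)) {z z' w w' : ℂ} (hz : ‖z - h * (v * ev 1 - v)‖ ≤ rz)
    (hz' : ‖z' - h * (v * ev 2 - v)‖ ≤ rz) (hw : ‖w - h' * (v * ev 2 - v)‖ ≤ rz') (hw' : ‖w' - h' * (v * ev 1 - v)‖ ≤ rz') :
    ChanAt g1 g2 g3 y1 y2 y3 b2 b3 volume a z z' w w' := by
  obtain ⟨H2, F2⟩ := F2
  obtain ⟨H3, F3⟩ := F3
  obtain ⟨H, hH2, hH3, hH⟩ : ∃ H : ℕ, H2 ≤ H ∧ H3 ≤ H ∧ 1 ≤ H :=
    ⟨max H2 (max H3 1), le_max_left _ _, (le_max_left _ _).trans (le_max_right _ _), (le_max_right _ _).trans (le_max_right _ _)⟩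
  have hH0 : (1 : ℝ) ≤ H := by exact_mod_cast hH
  have hrz : 0 ≤ rz := (norm_nonneg _).trans hz
  have hrz' : 0 ≤ rz' := (norm_nonneg _).trans hw
  -- the mesh
  obtain ⟨m, hm, m1, m2, m3, m4, m5, m6, m7, m8⟩ : ∃ m : ℝ, 0 < m ∧ m ≤ 50 * P.κ ∧ m ≤ 50 * Q.κ ∧ m ≤ 1 ∧ m ≤ V.t1 ∧
      7 * m ≤ bn - (7 / 4 * (h + 18 / 5 * rz + 6 / 5 * P.r0) + h) ∧
      7 * m ≤ bn' - (7 / 4 * (h' + 18 / 5 * rz' + 6 / 5 * Q.r0) + h') ∧
      2 * m ≤ D0 - (V.D0 + 2 * (h + h') + (rz + rz')) ∧ 2 * m ≤ V.D1 - (D1 + 2 * (h + h') + (rz + rz')) := by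
    have key : ∀ l : List ℝ, (∀ x ∈ l, 0 < x) → ∃ m : ℝ, 0 < m ∧ ∀ x ∈ l, 7 * m ≤ x := by
      intro l
      induction l with
      | nil => exact fun _ => ⟨1, one_pos, fun x hx => absurd hx List.not_mem_nil⟩
      | cons y l ih =>
        intro hl
        obtain ⟨m, hm, h⟩ := ih fun x hx => hl x (List.mem_cons_of_mem _ hx)
        have hy := hl y List.mem_cons_self
        refine ⟨min m (y / 7), by positivity, fun x hx => ?_⟩
        rcases List.mem_cons.1 hx with rfl | hx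
        · have := min_le_right m (x / 7)
          linarith
        · have := h x hx
          have := min_le_left m (y / 7)
          linarith
    obtain ⟨m, hm, h⟩ := key [50 * P.κ, 50 * Q.κ, 1, V.t1, bn - (7 / 4 * (h + 18 / 5 * rz + 6 / 5 * P.r0) + h),
      bn' - (7 / 4 * (h' + 18 / 5 * rz' + 6 / 5 * Q.r0) + h'), D0 - (V.D0 + 2 * (h + h') + (rz + rz')),
      V.D1 - (D1 + 2 * (h + h') + (rz + rz'))] (by
        intro x hx
        simp only [List.mem_cons, List.not_mem_nil, or_false] at hx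
        rcases hx with rfl | rfl | rfl | rfl | rfl | rfl | rfl | rfl <;> linarith)
    have h' : ∀ x ∈ _, 7 * m ≤ x := h
    simp only [List.mem_cons, List.not_mem_nil, or_false, forall_eq_or_imp, forall_eq] at h'
    obtain ⟨b1, b2, b3, b4, b5, b6, b7, b8⟩ := h'
    exact ⟨m, hm, by linarith, by linarith, by linarith, by linarith, b5, b6, by linarith, by linarith⟩
  obtain ⟨eps, he0, he1, he2⟩ : ∃ eps : ℝ, 0 < eps ∧ 3 * eps < 1 / (40 * H) ∧ 3 * eps ≤ 1 := by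
    refine ⟨1 / (200 * H), by positivity, ?_, ?_⟩
    · have e : 3 * (1 / (200 * (H : ℝ))) = 3 / 5 * (1 / (40 * H)) := by field_simp; norm_num
      rw [e]
      have : (0 : ℝ) < 1 / (40 * H) := by positivity
      linarith
    · rw [mul_one_div, div_le_one (by positivity)]
      linarith
  have F2 := F2 H hH2 m eps _ _ le_rfl (by linarith) le_rfl (by linarith) m1 m2 m3 m4 he2
  have F3 := F3 H hH3 m eps _ _ le_rfl (by linarith) le_rfl (by linarith) m1 m2 m3 m4 he2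
  have hv0 : v ≠ 0 := by
    rintro rfl
    rw [norm_zero] at hv
    exact zero_ne_one hv
  have hvi : ‖v⁻¹‖ = 1 := by rw [norm_inv, hv, inv_one]
  have hκ : ‖-step 0 2‖ = 1 := by rw [norm_neg, ← ev_step, ev_norm]
  have cell : ∀ {x : ℂ} {t r : ℝ} {i : Fin 3}, ‖x - t * (v * ev i - v)‖ ≤ r → ‖v⁻¹ * x - t * (ev i - ev 0)‖ ≤ r := by
    intro x t r i hx
    have e1 : v⁻¹ * x - t * (ev i - ev 0) = v⁻¹ * (x - t * (v * ev i - v)) := by
      rw [ev_zero]
      field_simp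
    rw [e1, norm_mul, hvi, one_mul]
    exact hx
  have big : ∀ {x : ℂ} {t r : ℝ} {i : Fin 3}, 0 ≤ t → ‖x - t * (v * ev i - v)‖ ≤ r → ‖x‖ ≤ 2 * t + r := by
    intro x t r i ht hx
    have e1 : x = (x - t * (v * ev i - v)) + t * (v * ev i - v) := by ring
    have e2 : ‖v * ev i - v‖ ≤ 2 := by
      refine (norm_sub_le _ _).trans ?_
      rw [norm_mul, hv, ev_norm]
      norm_num
    have e3 : ‖(t : ℂ) * (v * ev i - v)‖ ≤ t * 2 := by
      rw [norm_mul, Complex.norm_real, Real.norm_of_nonneg ht]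
      exact mul_le_mul_of_nonneg_left e2 ht
    calc ‖x‖ = ‖(x - t * (v * ev i - v)) + t * (v * ev i - v)‖ := by rw [← e1]
      _ ≤ ‖x - t * (v * ev i - v)‖ + ‖(t : ℂ) * (v * ev i - v)‖ := norm_add_le _ _
      _ ≤ 2 * t + r := by linarith
  obtain ⟨c, z2, z3, e2, e3, k1, k2, k3, k4, k5, η, hη, μ2, μ3, M2, M3, x0, x1, u0, u1, s2, s2', s3, s3', n1, n2, n3, n4,
    C2, C3, d2, d3, d23⟩ := chan_gen (κ := -step 0 2) hκ (c0 := c0) hc.1 hi (e := e) (L := L) (bn := bn) (h := h) (rz := rz)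
    (R0 := 6 / 5 * (P.r0 + 3 * m)) (e' := e') (L' := L') (bn' := bn') (h' := h') (rz' := rz') (R1 := 6 / 5 * (Q.r0 + 3 * m))
    (ε := eps) (μ0 := m) (by rw [fr1]; exact hc.2.1) (by rw [fr1]; exact hc.2.2) (by linarith)
    (z := v⁻¹ * z) (z' := v⁻¹ * z') (w := v⁻¹ * w) (w' := v⁻¹ * w') (by rw [fr1, fr2]; exact cell hz)
    (by rw [fr1, fr3]; exact cell hz') (by rw [fr1, fr3]; exact cell hw) (by rw [fr1, fr2]; exact cell hw') (by linarith)
    (by linarith) he he' a1 a1' (by linarith) (by linarith) a3 a3' he0 hm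
  have hvv : ∀ {x : ℂ}, v * (v⁻¹ * x) = x := fun {x} => by rw [← mul_assoc, mul_inv_cancel₀ hv0, one_mul]
  have fin : ∀ {s e : ℝ × ℝ} {x y : ℂ}, -step 0 2 * JR s = v⁻¹ * x → -step 0 2 * JR e = v⁻¹ * y + c0 1 →
      ‖x‖ ≤ 2 * h + rz → ‖y‖ ≤ 2 * h' + rz' → e - s ∈ VV V m := by
    intro s e x y hs he hx hy
    have e1 : ‖JR (e - s)‖ = ‖c0 1 + v⁻¹ * (y - x)‖ := by
      have e2 : -step 0 2 * JR (e - s) = c0 1 + v⁻¹ * (y - x) := by
        rw [JR_sub, mul_sub, hs, he]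
        ring
      rw [← e2, norm_mul, hκ, one_mul]
    have e3 : ‖v⁻¹ * (y - x)‖ ≤ (2 * h + rz) + (2 * h' + rz') := by
      rw [norm_mul, hvi, one_mul]
      refine (norm_sub_le _ _).trans ?_
      linarith
    have e4 := norm_add_le (c0 1) (v⁻¹ * (y - x))
    have e5 := norm_sub_le (c0 1 + v⁻¹ * (y - x)) (v⁻¹ * (y - x))
    rw [add_sub_cancel_right] at e5
    constructor
    · rw [e1]
      linarith
    · rw [e1]
      linarith
  rw [kap2] at F2
  rw [kap3] at F3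
  have hκ' : ‖v * -step 0 2‖ = 1 := by rw [norm_mul, hv, hκ, one_mul]
  refine chan_at hκ' (c := c) (z2 := z2) (z3 := z3) (e2 := e2) (e3 := e3) (fun t => ?_) ?_ ?_ ?_ ?_ hη hH he1 F2 F3 ?_ ?_
    n1 n2 n3 n4 C2 C3 d2 d3 d23
  · rw [hg, k1, mul_assoc]
  · rw [mul_assoc, k2, hvv]
  · rw [mul_assoc, k3, hvv]
  · rw [mul_assoc, k4, mul_add, hvv, hy]
    ring
  · rw [mul_assoc, k5, mul_add, hvv, hy]
    ring
  · exact fin k2 k4 (big (by linarith) hz) (big (by linarith) hw)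
  · exact fin k3 k5 (big (by linarith) hz') (big (by linarith) hw')

end Ln

end Pool.Agent.ROT.F3
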