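import Pool.Agent.ROT.F3HGeo
import Pool.Agent.ROT.F3W7s

/-!
# ROT, F3 (B), D40 (helper64): marked rests with outer gates satisfy the conditions of `chan_gen`

* `crv_convex` : a word with all vertices in a convex set;
* `OtV d O` : the closed class of the blocks `OtB` as pieces, `otv_closed`, **`otv_word`**;
* **`hg_Y`** : block, rest of the class `ClR`, block (class 0) is in `HG`.
-/

set_option autoImplicit false

namespace Pool.Agent.ROT.F3

open Set Topology ComplexConjugate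
open Pool.Agent.ROT.F3.CC (Pie ex ex_of ex_coe ex_zero ex_one cutp cutp_apply cutp_zero cutp_one pcut)

/-- a word with all vertices in a convex set -/
theorem crv_convex {w : W3} {n : ℕ} {d : ℝ} {K : Set ℂ} (hK : Convex ℝ K) (h : ∀ i : ℕ, i ≤ n → ps w i / d ∈ K)
    (u : unitInterval) : crv w n d u ∈ K := by
  rcases Nat.eq_zero_or_pos n with rfl | hn
  · have e : crv w 0 d u = ps w 0 / d := by
      show ps w 0 / d + ∑ i ∈ Finset.range 0, _ = _
      rw [Finset.range_zero, Finset.sum_empty, add_zero]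
    rw [e]
    exact h 0 le_rfl
  · have hn' : (0 : ℝ) < n := by exact_mod_cast hn
    have u0 : (0 : ℝ) ≤ u := u.2.1
    have u1 : (u : ℝ) ≤ 1 := u.2.2
    obtain ⟨i, hi, h1, h2⟩ : ∃ i : ℕ, i < n ∧ (i : ℝ) ≤ u * n ∧ (u : ℝ) * n ≤ i + 1 := by
      rcases Nat.lt_or_ge ⌊(u : ℝ) * n⌋₊ n with h3 | h3
      · exact ⟨_, h3, Nat.floor_le (by positivity), (Nat.lt_floor_add_one _).le⟩
      · have h4 : (n : ℝ) ≤ u * n := (Nat.cast_le.2 h3).trans (Nat.floor_le (by positivity))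
        have h5 : ((n - 1 : ℕ) : ℝ) = n - 1 := by
          rw [Nat.cast_sub hn, Nat.cast_one]
        refine ⟨n - 1, by omega, ?_, ?_⟩
        · rw [h5]
          linarith
        · rw [h5]
          nlinarith
    rw [crv_apply hi h1 h2]
    have a0 : 0 ≤ 1 - ((u : ℝ) * n - i) := by linarith
    have b0 : 0 ≤ (u : ℝ) * n - i := by linarith
    have h3 := hK (h i (by omega)) (h (i + 1) (by omega)) a0 b0 (by ring)
    have e : (((1 - ((u : ℝ) * n - i) : ℝ) : ℂ) * ps w i + (((u : ℝ) * n - i : ℝ) : ℂ) * ps w (i + 1)) / d =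
        (1 - ((u : ℝ) * n - i)) • (ps w i / d) + ((u : ℝ) * n - i) • (ps w (i + 1) / d) := by
      rw [Complex.real_smul, Complex.real_smul]
      ring
    rw [e]
    exact h3

/-- the level, the lateral coordinate as linear maps -/
lemma lv_lin (d : ℂ) (a b : ℝ) (v v' : ℂ) : lv d (a • v + b • v') = a * lv d v + b * lv d v' := by
  unfold lv
  rw [Complex.real_smul, Complex.real_smul, mul_add, Complex.add_re, mul_left_comm, mul_left_comm (conj d), Complex.re_ofReal_mul,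
    Complex.re_ofReal_mul]

lemma ltl_lin (d : ℂ) (a b : ℝ) (v v' : ℂ) : ltl d (a • v + b • v') = a * ltl d v + b * ltl d v' := by
  unfold ltl
  rw [Complex.real_smul, Complex.real_smul, mul_add, Complex.add_im, mul_left_comm, mul_left_comm (conj d), Complex.im_ofReal_mul,
    Complex.im_ofReal_mul]

lemma kn_convex (d : ℂ) {c κ : ℝ} (hc : 0 ≤ c) : Convex ℝ {v | Kn d c κ v} := by
  intro v hv w hw a b ha hb hab
  show c * ‖a • v + b • w‖ - κ ≤ lv d (a • v + b • w)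
  have hv' : c * ‖v‖ - κ ≤ lv d v := hv
  have hw' : c * ‖w‖ - κ ≤ lv d w := hw
  have h1 : ‖a • v + b • w‖ ≤ a * ‖v‖ + b * ‖w‖ := by
    refine (norm_add_le _ _).trans ?_
    rw [norm_smul, norm_smul, Real.norm_of_nonneg ha, Real.norm_of_nonneg hb]
  have h2 := mul_le_mul_of_nonneg_left h1 hc
  have h3 := mul_le_mul_of_nonneg_left hv' ha
  have h4 := mul_le_mul_of_nonneg_left hw' hb
  have h5 : κ = a * κ + b * κ := by rw [← add_mul, hab, one_mul]
  rw [lv_lin]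
  linarith [mul_sub a (c * ‖v‖) κ, mul_sub b (c * ‖w‖) κ, mul_left_comm a c ‖v‖, mul_left_comm b c ‖w‖,
    mul_add c (a * ‖v‖) (b * ‖w‖), mul_left_comm c a ‖v‖, mul_left_comm c b ‖w‖]

/-- **the closed class of the blocks** `OtB` -/
structure OtV (d : ℂ) (O : Ot) (k : Pie) : Prop where
  z : k.1 0 = 0
  b : ∀ u : unitInterval, ‖k.1 u‖ ≤ O.r
  hw : ∀ u : unitInterval, |ltl d (k.1 u)| ≤ O.hw
  s : ∀ u : unitInterval, Kn d O.c O.κ (k.1 u)
  e : O.c * ‖k.1 1‖ + O.e ≤ lv d (k.1 1)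
  m : O.m ≤ lv d (k.1 1)
  lb : k.2 ≤ O.lb

theorem otv_closed (d : ℂ) (O : Ot) : IsClosed {k : Pie | OtV d O k} := by
  have ev : ∀ u : unitInterval, Continuous fun k : Pie => k.1 u := fun u => (continuous_eval_const u).comp continuous_fst
  have e : {k : Pie | OtV d O k} = {k : Pie | k.1 0 = 0} ∩ (⋂ u : unitInterval, {k : Pie | ‖k.1 u‖ ≤ O.r}) ∩
      (⋂ u : unitInterval, {k : Pie | |ltl d (k.1 u)| ≤ O.hw}) ∩ (⋂ u : unitInterval, {k : Pie | Kn d O.c O.κ (k.1 u)}) ∩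
      {k : Pie | O.c * ‖k.1 1‖ + O.e ≤ lv d (k.1 1)} ∩ {k : Pie | O.m ≤ lv d (k.1 1)} ∩ {k : Pie | k.2 ≤ O.lb} := by
    ext k
    simp only [mem_inter_iff, mem_iInter, mem_ofPred_eq]
    constructor
    · intro h
      exact ⟨⟨⟨⟨⟨⟨h.z, h.b⟩, h.hw⟩, h.s⟩, h.e⟩, h.m⟩, h.lb⟩
    · rintro ⟨⟨⟨⟨⟨⟨h1, h2⟩, h3⟩, h4⟩, h5⟩, h6⟩, h7⟩
      exact ⟨h1, h2, h3, h4, h5, h6, h7⟩
  rw [e]
  refine (((((IsClosed.inter ?_ ?_).inter ?_).inter ?_).inter ?_).inter ?_).inter ?_
  · exact isClosed_eq (ev 0) continuous_const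
  · exact isClosed_iInter fun u => isClosed_le (ev u).norm continuous_const
  · exact isClosed_iInter fun u => isClosed_le ((ltl_cont' d).comp (ev u)).abs continuous_const
  · exact isClosed_iInter fun u => isClosed_le (((ev u).norm.const_mul _).sub continuous_const) ((lv_cont' d).comp (ev u))
  · exact isClosed_le ((continuous_const.mul (ev 1).norm).add continuous_const) ((lv_cont' d).comp (ev 1))
  · exact isClosed_le continuous_const ((lv_cont' d).comp (ev 1))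
  · exact isClosed_le continuous_snd continuous_const

/-- **the curve of a block** -/
theorem otv_word {d : ℂ} {O : Ot} {S T : ℝ} {b : W3} (h : OtM d O S T b) (hS : 0 < S) (hT : 0 < T) (hc : 0 ≤ O.c) :
    OtV d O (crv b b.length S, (b.length : ℝ) / T) := by
  have hlv : ∀ v : ℂ, lv d (v / S) = lv d v / S := fun v => lv_div d v S
  have hn : ∀ v : ℂ, ‖v / S‖ = ‖v‖ / S := fun v => norm_div_S v hS
  have hlt : ∀ v : ℂ, ltl d (v / S) = ltl d v / S := by
    intro v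
    unfold ltl
    rw [mul_div_assoc', Complex.div_ofReal_im]
  refine ⟨crv_zero _ _ _, fun u => ?_, fun u => ?_, fun u => ?_, ?_, ?_, ?_⟩
  · have h1 := crv_convex (w := b) (n := b.length) (d := S) (convex_closedBall (0 : ℂ) O.r) (fun i hi => by
      rw [mem_closedBall_zero_iff, hn, div_le_iff₀ hS]
      exact h.k.t.ball i hi) u
    rwa [mem_closedBall_zero_iff] at h1
  · have hK : Convex ℝ {v : ℂ | |ltl d v| ≤ O.hw} := by
      intro v hv w hw a a' ha ha' haa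
      show |ltl d (a • v + a' • w)| ≤ O.hw
      have hv' : |ltl d v| ≤ O.hw := hv
      have hw' : |ltl d w| ≤ O.hw := hw
      rw [ltl_lin]
      rw [abs_le] at hv' hw' ⊢
      have h5 : O.hw = a * O.hw + a' * O.hw := by rw [← add_mul, haa, one_mul]
      constructor <;> nlinarith
    exact crv_convex (w := b) (n := b.length) (d := S) hK (fun i hi => by
      show |ltl d (ps b i / S)| ≤ O.hw
      rw [hlt, abs_div, abs_of_pos hS, div_le_iff₀ hS]
      exact h.hw i hi) u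
  · exact crv_convex (w := b) (n := b.length) (d := S) (kn_convex d hc) (fun i hi => by
      show O.c * ‖ps b i / S‖ - O.κ ≤ lv d (ps b i / S)
      rw [hlv, hn, le_div_iff₀ hS]
      have h1 : O.c * ‖ps b i‖ - O.κ * S ≤ lv d (ps b i) := h.s i hi
      calc (O.c * (‖ps b i‖ / S) - O.κ) * S = O.c * ‖ps b i‖ - O.κ * S := by field_simp
        _ ≤ _ := h1) u
  · show O.c * ‖crv b b.length S 1‖ + O.e ≤ lv d (crv b b.length S 1)
    rw [crv_one, hlv, hn, le_div_iff₀ hS]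
    have h1 : O.c * ‖en b‖ + O.e * S ≤ lv d (en b) := h.e
    calc (O.c * (‖ps b b.length‖ / S) + O.e) * S = O.c * ‖ps b b.length‖ + O.e * S := by field_simp
      _ ≤ _ := h1
  · show O.m ≤ lv d (crv b b.length S 1)
    rw [crv_one, hlv, le_div_iff₀ hS]
    exact h.f.1
  · show (b.length : ℝ) / T ≤ O.lb
    rw [div_le_iff₀ hT]
    exact h.lb

/-- a point of a piece -/
lemma cut_pt {g : C(unitInterval, ℂ)} {s s' t : ℝ} (ht : t ∈ uIcc s s') : ∃ u : unitInterval, cutp g s s' u = ex g t - ex g s := by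
  rcases eq_or_ne s s' with rfl | hne
  · rw [uIcc_self, mem_singleton_iff] at ht
    exact ⟨0, by rw [cutp_zero, ht, sub_self]⟩
  · refine ⟨⟨(t - s) / (s' - s), ?_⟩, ?_⟩
    · rcases lt_or_gt_of_ne hne with h | h
      · rw [uIcc_of_le h.le] at ht
        have h1 : 0 < s' - s := by linarith
        exact ⟨div_nonneg (by linarith [ht.1]) h1.le, (div_le_one h1).2 (by linarith [ht.2])⟩
      · rw [uIcc_of_ge h.le] at ht
        have h1 : s' - s < 0 := by linarith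
        refine ⟨div_nonneg_of_nonpos (by linarith [ht.2]) h1.le, ?_⟩
        rw [div_le_one_of_neg h1]
        linarith [ht.1]
    · have h1 : s' - s ≠ 0 := fun h => hne (by linarith)
      rw [cutp_apply]
      simp only
      rw [div_mul_cancel₀ _ h1, add_sub_cancel]

/-- the reversed curve, from the end -/
lemma hg_of_rev {d : ℂ} {e L bn e' L' bn' : ℝ} {c : C(unitInterval, ℂ)} (h0 : c 0 = 0) (hp : HpG c bn L e d)
    (hq : HpG (fun t => c (unitInterval.symm t) - c 1) bn' L' e' d) : c ∈ HG d e L bn e' L' bn' := by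
  refine ⟨h0, fun s t hst ht => hp s t hst ht, fun s t hst hs => ?_⟩
  have h1 := hq (unitInterval.symm t) (unitInterval.symm s) (unitInterval.symm_le_symm.2 hst) (by
    simp only [unitInterval.symm_symm]
    exact hs)
  simp only [unitInterval.symm_symm] at h1
  exact h1

/-- **marked rests with outer gates** (class 0: the same direction at both ends): block, rest of the class `ClR`, block -/
theorem hg_Y {d : ℂ} (hd : ‖d‖ = 1) {O O' : Ot} {Yp Yq : Tp} {V : Wn} {r : Pie} {s s' : ℝ} (h0 : 0 ≤ s) (h1 : s ≤ s') (h2 : s' ≤ 1)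
    (hz : r.1 0 = 0) (hp : OtV d O (pcut r 0 s)) (hq : OtV d O' (pcut r 1 s')) (hm : (pcut r s s').1 ∈ ClR d d Yp Yq V)
    {bn bn' : ℝ} (c1 : 3 / 5 ≤ O.c) (c1' : 3 / 5 ≤ O'.c) (b1 : bn ≤ O.m) (b1' : bn' ≤ O'.m) (b2 : bn + O.r ≤ Yp.rg)
    (b2' : bn' + O'.r ≤ Yq.rg) (b3 : bn + (O.r + 2 * O'.r) ≤ V.D0) (b3' : bn' + (2 * O.r + O'.r) ≤ V.D0) :
    r.1 ∈ HG d O.κ O.r bn O'.κ O'.r bn' := by
  obtain ⟨c, hc⟩ : ∃ c : C(unitInterval, ℂ), c = r.1 := ⟨_, rfl⟩
  have hs : s ∈ Icc (0 : ℝ) 1 := ⟨h0, h1.trans h2⟩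
  have hs' : s' ∈ Icc (0 : ℝ) 1 := ⟨h0.trans h1, h2⟩
  -- the three pieces
  have A1 : ∀ t : unitInterval, (t : ℝ) ≤ s → ‖c t‖ ≤ O.r ∧ Kn d O.c O.κ (c t) := by
    intro t ht
    obtain ⟨u, hu⟩ := cut_pt (g := r.1) (s := 0) (s' := s) (t := t) (by rw [uIcc_of_le h0]; exact ⟨t.2.1, ht⟩)
    rw [ex_coe, ex_zero, hz, sub_zero] at hu
    have e : c t = (pcut r 0 s).1 u := by
      rw [hc, ← hu]
      rfl
    rw [e]
    exact ⟨hp.b u, hp.s u⟩
  have A3 : ∀ t : unitInterval, s' ≤ (t : ℝ) → ‖c t - c 1‖ ≤ O'.r ∧ Kn d O'.c O'.κ (c t - c 1) := by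
    intro t ht
    obtain ⟨u, hu⟩ := cut_pt (g := r.1) (s := 1) (s' := s') (t := t) (by rw [uIcc_of_ge h2]; exact ⟨ht, t.2.2⟩)
    rw [ex_coe, ex_one] at hu
    have e : c t - c 1 = (pcut r 1 s').1 u := by
      rw [hc, ← hu]
      rfl
    rw [e]
    exact ⟨hq.b u, hq.s u⟩
  have A2 : ∀ t : unitInterval, s ≤ (t : ℝ) → (t : ℝ) ≤ s' → (0 ≤ lv d (c t - c ⟨s, hs⟩) ∨ Yp.rg ≤ ‖c t - c ⟨s, hs⟩‖) ∧
      (0 ≤ lv d (c t - c ⟨s', hs'⟩) ∨ Yq.rg ≤ ‖c t - c ⟨s', hs'⟩‖) := by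
    intro t ht ht'
    obtain ⟨u, hu⟩ := cut_pt (g := r.1) (s := s) (s' := s') (t := t) (by rw [uIcc_of_le h1]; exact ⟨ht, ht'⟩)
    rw [ex_coe, ex_of _ hs] at hu
    obtain ⟨-, -, h3⟩ := hm
    have e1 : c t - c ⟨s, hs⟩ = (pcut r s s').1 u := by
      rw [hc, ← hu]
      rfl
    have e2 : c t - c ⟨s', hs'⟩ = (pcut r s s').1 u - (pcut r s s').1 1 := by
      have e3 : (pcut r s s').1 1 = c ⟨s', hs'⟩ - c ⟨s, hs⟩ := by
        show cutp r.1 s s' 1 = _
        rw [cutp_one, ex_of _ hs, ex_of _ hs', hc]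
      rw [← e1, e3]
      ring
    rw [e1, e2]
    exact ⟨(h3 u).1.1, (h3 u).2.1⟩
  have Em : O.m ≤ lv d (c ⟨s, hs⟩) := by
    have e : c ⟨s, hs⟩ = (pcut r 0 s).1 1 := by
      show _ = cutp r.1 0 s 1
      rw [cutp_one, ex_of _ hs, ex_zero, hz, sub_zero, hc]
    rw [e]
    exact hp.m
  have Em' : O'.m ≤ lv d (c ⟨s', hs'⟩ - c 1) := by
    have e : c ⟨s', hs'⟩ - c 1 = (pcut r 1 s').1 1 := by
      show _ = cutp r.1 1 s' 1
      rw [cutp_one, ex_of _ hs', ex_one, hc]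
    rw [e]
    exact hq.m
  have far : V.D0 - O.r - O'.r ≤ ‖c 1‖ := by
    obtain ⟨-, ⟨h3, -⟩, -⟩ := hm
    have e : (pcut r s s').1 1 = c 1 - c ⟨s, hs⟩ + (c ⟨s', hs'⟩ - c 1) := by
      show cutp r.1 s s' 1 = _
      rw [cutp_one, ex_of _ hs, ex_of _ hs', hc]
      ring
    rw [e] at h3
    have n1 := norm_add_le (c 1 - c ⟨s, hs⟩) (c ⟨s', hs'⟩ - c 1)
    have n2 := norm_sub_le (c 1) (c ⟨s, hs⟩)
    have n3 := (A1 ⟨s, hs⟩ le_rfl).1
    have n4 := (A3 ⟨s', hs'⟩ le_rfl).1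
    linarith
  rw [← hc]
  have hz' : c 0 = 0 := by rw [hc]; exact hz
  refine hg_of_rev hz' ?_ ?_
  · refine hp_Y hd (σ := ⟨s, hs⟩) (σ' := ⟨s', hs'⟩) (L' := O'.r) (rg := Yp.rg) c1 (fun t ht => A1 t ht) (fun t ht ht' => (A2 t ht ht').1)
      (fun t ht => (A3 t ht).1) (b1.trans Em) b2 ?_
    linarith
  · have s1 : ∀ {t : unitInterval} {x : ℝ} (hx : x ∈ Icc (0 : ℝ) 1), t ≤ unitInterval.symm ⟨x, hx⟩ →
        x ≤ (unitInterval.symm t : ℝ) := by
      intro t x hx h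
      have h3 : (t : ℝ) ≤ 1 - x := h
      rw [unitInterval.coe_symm_eq]
      linarith
    have s2 : ∀ {t : unitInterval} {x : ℝ} (hx : x ∈ Icc (0 : ℝ) 1), unitInterval.symm ⟨x, hx⟩ ≤ t →
        (unitInterval.symm t : ℝ) ≤ x := by
      intro t x hx h
      have h3 : 1 - x ≤ (t : ℝ) := h
      rw [unitInterval.coe_symm_eq]
      linarith
    refine hp_Y hd (σ := unitInterval.symm ⟨s', hs'⟩) (σ' := unitInterval.symm ⟨s, hs⟩) (L' := O.r) (rg := Yq.rg) c1'
      (fun t ht => A3 _ (s1 hs' ht)) (fun t ht ht' => ?_) (fun t ht => ?_) ?_ b2' ?_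
    · have h3 := (A2 (unitInterval.symm t) (s1 hs ht') (s2 hs' ht)).2
      simp only [unitInterval.symm_symm]
      have e : c (unitInterval.symm t) - c 1 - (c ⟨s', hs'⟩ - c 1) = c (unitInterval.symm t) - c ⟨s', hs'⟩ := by ring
      rw [e]
      exact h3
    · have h3 := (A1 _ (s2 hs ht)).1
      have e : c (unitInterval.symm t) - c 1 - (c (unitInterval.symm 1) - c 1) = c (unitInterval.symm t) := by
        rw [unitInterval.symm_one, hz']
        ring
      rw [e]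
      exact h3
    · simp only [unitInterval.symm_symm]
      exact b1'.trans Em'
    · show bn' + O.r ≤ ‖c (unitInterval.symm 1) - c 1‖
      rw [unitInterval.symm_one, hz', zero_sub, norm_neg]
      linarith

end Pool.Agent.ROT.F3
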