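import Pool.Agent.ROT.F3Te
import Pool.Agent.ROT.F3Cls

/-!
# ROT, F3 (B), row W7 (helper79): the tube words of a companion are arcs of the classes of F3Cls

* `RestB.edq` : one end (`EdQ`);
* `ml_bd` : the length of a tube word in units of `S ^ (4 / 3)`;
* **`lane_Rst`** : all tube words of a companion (with `TL.Lg`) are in `Rst (ev a) (ev (aa (E (n - 1)) + a)) P Q W S (S ^ (4 / 3))`.
-/

set_option autoImplicit false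

namespace Pool.Agent.ROT.F3.Tb

open Finset
open HexObs (Pt vx dx oo up dirs ip nrm cl rotL rotR wE gf tf mulE conjE)
open HexObs.ROT.F3S (PathC)
open NTF (sw JJ aa)
open Pool.Agent.TSW.BP (rt3 cr pos_rt3 cr_norm)
open Pool.Agent.NTS.Res (step pos saw fug)

open scoped ENNReal ComplexConjugate

/-- one end of a rest -/
lemma edq_of {a : Fin 3} {R : W3} {P : Tp} {S R0 d : ℝ} (hS : 0 ≤ S) (hc : P.c ≤ 1) (hκ : 2 * d ≤ P.κ * S) (hκ0 : 0 ≤ P.κ)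
    (h0 : P.r0 * S ≤ R0) (hg : P.rg * S < R0)
    (h : ∀ k : ℕ, 1 ≤ k → k ≤ R.length → ‖ps R k‖ < R0 → 0 < lv (step 0 a) (ps R k) ∧ ‖ps R k‖ - 2 * d ≤ lv (step 0 a) (ps R k)) :
    EdQ (ev a) P S R := by
  rw [ev_step]
  refine ⟨fun k h1 h2 h3 => (h k h1 h2 (h3.trans_lt hg)).1, fun k h2 => ?_⟩
  rcases Nat.eq_zero_or_pos k with h1 | h1
  · left
    subst h1
    unfold Kn
    rw [ps_zero, norm_zero, mul_zero, zero_sub]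
    have : lv (step 0 a) 0 = 0 := by
      unfold lv
      rw [mul_zero, Complex.zero_re]
    rw [this]
    have := mul_nonneg hκ0 hS
    linarith
  · rcases lt_or_ge ‖ps R k‖ R0 with h3 | h3
    · left
      obtain ⟨-, g⟩ := h k h1 h2 h3
      unfold Kn
      have h4 : P.c * ‖ps R k‖ ≤ 1 * ‖ps R k‖ := mul_le_mul_of_nonneg_right hc (norm_nonneg _)
      linarith
    · right
      have := mul_nonneg hκ0 hS
      linarith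

/-- the length of a tube word -/
lemma ml_bd {μ S t : ℝ} (hμ : 0 < μ) (hμ1 : μ ≤ 1) (ht : μ ≤ t) (hS : 1 ≤ S) (hS1 : 2 ≤ t * S) {H : ℕ} (hH : 2 ^ 13 ≤ H) {k : ℕ}
    {D : ℤ} (hD : (D : ℝ) ≤ μ * S) (hD1 : 18 * ((H : ℤ) * 2 ^ k) ≤ D) {Q : List Bool}
    (hQ : (Q.length : ℝ) ≤ 3 * HexObs.ARM.ml k) : (Q.length : ℝ) + 1 ≤ t * S ^ (4 / 3 : ℝ) := by
  have hS0 : 0 < S := by linarith
  have hH' : (2 : ℤ) ^ 13 ≤ H := by exact_mod_cast hH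
  have hk0 : (0 : ℤ) < 2 ^ k := by positivity
  have hk1 : 147456 * (2 : ℤ) ^ k ≤ D := by nlinarith
  have hk2 : 147456 * (2 : ℝ) ^ k ≤ D := by exact_mod_cast hk1
  have h2k : (2 : ℝ) ^ k ≤ μ / 147456 * S := by linarith
  have hml : HexObs.ARM.ml k = ((2 : ℝ) ^ k) ^ (4 / 3 : ℝ) := by
    unfold HexObs.ARM.ml
    rw [← Real.rpow_natCast, ← Real.rpow_mul (by norm_num), mul_comm]
  have h1 : HexObs.ARM.ml k ≤ (μ / 147456) ^ (4 / 3 : ℝ) * S ^ (4 / 3 : ℝ) := by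
    rw [hml, ← Real.mul_rpow (by positivity) hS0.le]
    exact Real.rpow_le_rpow (by positivity) h2k (by norm_num)
  have h2 : (μ / 147456) ^ (4 / 3 : ℝ) ≤ μ / 147456 := by
    have h3 := Real.rpow_le_rpow_of_exponent_ge (show 0 < μ / 147456 by positivity) (show μ / 147456 ≤ 1 by linarith)
      (show (1 : ℝ) ≤ 4 / 3 by norm_num)
    rwa [Real.rpow_one] at h3
  have h4 : S ≤ S ^ (4 / 3 : ℝ) := by
    have h5 := Real.rpow_le_rpow_of_exponent_le hS (show (1 : ℝ) ≤ 4 / 3 by norm_num)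
    rwa [Real.rpow_one] at h5
  have h6 : (μ / 147456) ^ (4 / 3 : ℝ) * S ^ (4 / 3 : ℝ) ≤ μ / 147456 * S ^ (4 / 3 : ℝ) :=
    mul_le_mul_of_nonneg_right h2 (by positivity)
  have ht0 : 0 < t := by linarith
  have h7 : μ * S ^ (4 / 3 : ℝ) ≤ t * S ^ (4 / 3 : ℝ) := mul_le_mul_of_nonneg_right ht (by positivity)
  have h8 : t * S ≤ t * S ^ (4 / 3 : ℝ) := mul_le_mul_of_nonneg_left h4 ht0.le
  nlinarith

/-- **all tube words of a companion are arcs of the class** -/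
theorem lane_Rst {M : List (ℤ × ℤ)} {x0 x1 ω0 ω1 : ℤ × ℤ} {s s' n : ℕ} {u : Pt} {E : ℕ → Pt}
    (h : PathC M x0 x1 ω0 ω1 s s' u n E) (hs : 1 ≤ s) (hs' : 1 ≤ s') (hc : cl (E (n - 1)) = 1) {μ ρ0 ρ1 : ℝ} (hμ : 0 < μ)
    (g0 : ∀ y ∈ HexObs.ART.SN M, ρ0 ≤ ‖JJ (y - (HexObs.ART.ctr x0 + (s : ℤ) • ω0))‖)
    (g0' : ∀ j : ℕ, j ≤ s' → ρ0 ≤ ‖JJ (HexObs.ART.ctr x1 + (j : ℤ) • ω1 - (HexObs.ART.ctr x0 + (s : ℤ) • ω0))‖)
    (g1 : ∀ y ∈ HexObs.ART.SN M, ρ1 ≤ ‖JJ (y - (HexObs.ART.ctr x1 + (s' : ℤ) • ω1))‖)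
    (g1' : ∀ j : ℕ, j ≤ s → ρ1 ≤ ‖JJ (HexObs.ART.ctr x0 + (j : ℤ) • ω0 - (HexObs.ART.ctr x1 + (s' : ℤ) • ω1))‖)
    {H : ℕ} (hH : 2 ^ 13 ≤ H) {P Q : Tp} {W : Wn} (hPc : P.c ≤ 1) (hQc : Q.c ≤ 1) (hP0 : 0 ≤ P.r0) (hQ0 : 0 ≤ Q.r0)
    (hPr : P.r0 + 3 * μ ≤ μ * ρ0) (hPg : P.rg + 3 * μ ≤ μ * ρ0) (hQr : Q.r0 + 3 * μ ≤ μ * ρ1) (hQg : Q.rg + 3 * μ ≤ μ * ρ1)
    (hPκ : μ ≤ 50 * P.κ) (hQκ : μ ≤ 50 * Q.κ)
    (hW0 : W.D0 + μ ≤ μ * ‖JJ (HexObs.ART.ctr x1 + (s' : ℤ) • ω1 - (HexObs.ART.ctr x0 + (s : ℤ) • ω0))‖)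
    (hW1 : μ * ‖JJ (HexObs.ART.ctr x1 + (s' : ℤ) • ω1 - (HexObs.ART.ctr x0 + (s : ℤ) • ω0))‖ + μ ≤ W.D1)
    (ht0 : W.t0 ≤ 0) (hμ1 : μ ≤ 1) (ht1 : μ ≤ W.t1) :
    ∃ S0 : ℝ, ∀ S : ℝ, S0 ≤ S → ∀ (k : ℕ) (D : ℤ), D = ⌊μ * S⌋ → 18 * ((H : ℤ) * 2 ^ k) ≤ D →
      ∀ (z : Pt) (X : List Bool), HexObs.ARM.TubeQ E D (2 ^ (k + 9)) n z X →
      HexObs.TIW.hn (z - HexObs.AR.pv E D n) ≤ 2 ^ (k + 2) → HexObs.ART.TL.Lg k X → ∀ a : Fin 3,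
      wd a X ∈ Rst (ev a) (ev (aa (E (n - 1)) + a)) P Q W S (S ^ (4 / 3 : ℝ)) := by
  have ht1' : 0 < W.t1 := by linarith
  obtain ⟨r0, hr0⟩ : ∃ r0 : ℝ, r0 = μ * ρ0 - 2 * μ := ⟨_, rfl⟩
  obtain ⟨r1, hr1⟩ : ∃ r1 : ℝ, r1 = μ * ρ1 - 2 * μ := ⟨_, rfl⟩
  obtain ⟨S0, hS0⟩ := lane_RestB h hs hs' hc hμ g0 g0' g1 g1' hH (r0 := r0) (r1 := r1) (by linarith) (by linarith)
    (by linarith) (by linarith)
  refine ⟨max S0 (max 1 (2 / W.t1)), fun S hS k D hD hD1 z X hX hz hL a => ?_⟩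
  obtain ⟨m1, m2⟩ := hS0 S ((le_max_left _ _).trans hS) k D hD hD1 z X hX hz a
  have hS1 : 1 ≤ S := ((le_max_left _ _).trans (le_max_right _ _)).trans hS
  have hS2 : 2 / W.t1 ≤ S := ((le_max_right _ _).trans (le_max_right _ _)).trans hS
  rw [div_le_iff₀ ht1'] at hS2
  have hD2 : (D : ℝ) ≤ μ * S := by rw [hD]; exact Int.floor_le _
  have hSp : 0 < S := by linarith
  have hμS : 0 < μ * S := by positivity
  have hS4 : 0 < S ^ (4 / 3 : ℝ) := by positivity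
  rw [abs_le] at m2
  have k1 : (P.rg + μ) * S ≤ r0 * S := mul_le_mul_of_nonneg_right (by linarith) hSp.le
  have k2 : (P.r0 + μ) * S ≤ r0 * S := mul_le_mul_of_nonneg_right (by linarith) hSp.le
  have k3 : (Q.rg + μ) * S ≤ r1 * S := mul_le_mul_of_nonneg_right (by linarith) hSp.le
  have k4 : (Q.r0 + μ) * S ≤ r1 * S := mul_le_mul_of_nonneg_right (by linarith) hSp.le
  have k5 : μ * S ≤ 50 * P.κ * S := mul_le_mul_of_nonneg_right hPκ hSp.le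
  have k6 : μ * S ≤ 50 * Q.κ * S := mul_le_mul_of_nonneg_right hQκ hSp.le
  have k7 := mul_le_mul_of_nonneg_right hW0 hSp.le
  have k8 := mul_le_mul_of_nonneg_right hW1 hSp.le
  refine ⟨m1.ev, m1.sw, ?_, ?_, ?_, ?_, ?_, ?_⟩
  · exact edq_of (R0 := r0 * S) (d := μ * S / 200) hSp.le hPc (by linarith) (by linarith) (by linarith) (by linarith)
      fun k h1 h2 h3 => m1.cone0 h1 h2 h3
  · exact edq_of (R0 := r1 * S) (d := μ * S / 100) hSp.le hQc (by linarith) (by linarith) (by linarith) (by linarith)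
      fun k h1 h2 h3 => m1.cone1 h1 (by rwa [List.length_reverse] at h2) h3
  · linarith [m2.1]
  · linarith [m2.2]
  · refine (mul_nonpos_of_nonpos_of_nonneg ht0 hS4.le).trans ?_
    positivity
  · rw [length_wd]
    push_cast
    exact ml_bd hμ hμ1 ht1 hS1 (by linarith) hH hD2 hD1 hL.2

end Pool.Agent.ROT.F3.Tb
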