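import Pool.Agent.ROT.F3PicW
import Pool.Agent.ROT.F3Tf
import Pool.Agent.RMP.PubWA

/-!
# ROT, F3 (B) (helper39): two arcs of different classes which are disjoint for all positions in a disc

* `PWd` : the statement for a pair of classes with a fixed radius; `PWd.swap`, `PWd.rev` : exchange of the classes, reversal;
* **`pair_words`** : the literal of helper2.
-/

set_option autoImplicit false

namespace Pool.Agent.ROT.F3

open Finset
open Pool.Agent.ROT.F3.Pw (cx cy cx_add cx_sub cx_mul cy_add cy_sub cy_mul abs_cx abs_cy abs_cs s3 s3p Rg PicW picW)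
open Pool.Agent.ROT.F3.Tb (edq_of)
open Pool.Agent.NTS.Res (step)

open scoped ENNReal

/-! ### 1. Reversal -/

/-- the set of the reversed words -/
def RvS (A : Set W3) : Set W3 := {R | R.reverse ∈ A}

lemma ms_RvS (A : Set W3) : ms (RvS A) (fun _ => 1) = ms A fun _ => 1 := by
  classical
  unfold ms
  rw [← (Function.Involutive.toPerm (List.reverse : W3 → W3) List.reverse_involutive).tsum_eq
    (fun a : W3 => if a ∈ A then wx a * 1 else 0)]
  refine tsum_congr fun R => ?_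
  show (if R.reverse ∈ A then wx R * 1 else 0) = if R.reverse ∈ A then wx R.reverse * 1 else 0
  rw [wx_reverse]

lemma pwRsQ_rev {d d' : ℂ} {P Q : Tp} {W : Wn} {S T : ℝ} {R : W3} (h : RsQ d d' P Q W S T R) : RsQ d' d Q P W S T R.reverse := by
  refine ⟨by rw [List.length_reverse]; exact h.ev, (SW_reverse h.ev).2 h.sw, h.e, by rw [List.reverse_reverse]; exact h.s, ?_, ?_,
    by rw [List.length_reverse]; exact h.lo, by rw [List.length_reverse]; exact h.hi⟩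
  · rw [en_reverse h.ev, norm_neg]
    exact h.far
  · rw [en_reverse h.ev, norm_neg]
    exact h.near

lemma pwDj_rev {R U : W3} (hR : Even R.length) (hU : Even U.length) {z : ℂ} (h : Dj R U (z - en R + en U)) :
    Dj R.reverse U.reverse z := by
  intro j k hj hk he
  rw [List.length_reverse] at hj hk
  rw [ps_reverse hR hj, ps_reverse hU hk] at he
  refine h (R.length - j) (U.length - k) (Nat.sub_le _ _) (Nat.sub_le _ _) ?_
  linear_combination he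

lemma pwDj_swap {R U : W3} {z : ℂ} (h : Dj R U z) : Dj U R (-z) := by
  intro j k hj hk he
  refine h k j hk hj ?_
  rw [he]
  ring

/-! ### 2. The statement -/

/-- two arcs of the classes `i`, `j`, disjoint for all relative positions of the starts in the disc of radius `r S` -/
def PWd (i j : Fin 3) (P Q : Tp) (hp hq r : ℝ) : Prop := ∀ D δ : ℝ, 0 < δ → ∃ (W : Wn) (c S0 : ℝ), 0 < c ∧ D ≤ W.D0 ∧ 0 < W.t1 ∧
  W.t0 = 0 ∧ W.D0 < W.D1 ∧ ∀ S : ℝ, S0 ≤ S → ∃ TA TB : Set W3, TA ⊆ Rst (ev i) (ev (-i)) P Q W S (S ^ (4 / 3 : ℝ)) ∧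
    TB ⊆ Rst (ev j) (ev (-j)) P Q W S (S ^ (4 / 3 : ℝ)) ∧
    ENNReal.ofReal (c * S ^ (3 / 4 : ℝ)) ≤ ms TA (fun _ => 1) ∧ ENNReal.ofReal (c * S ^ (3 / 4 : ℝ)) ≤ ms TB (fun _ => 1) ∧
    ∀ R ∈ TA, ∀ U ∈ TB, (∀ z : ℂ, ‖z - hp * S * (ev i - ev j)‖ ≤ r * S → Dj R U z) ∧
      ‖hp * S * (ev i - ev j) + en R - en U - hq * S * (ev (-i) - ev (-j))‖ ≤ δ * S

lemma PWd.swap {i j : Fin 3} {P Q : Tp} {hp hq r : ℝ} (h : PWd i j P Q hp hq r) : PWd j i P Q hp hq r := by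
  intro D δ hδ
  obtain ⟨W, c, S0, h1, h2, h3, h4, h5, h6⟩ := h D δ hδ
  refine ⟨W, c, S0, h1, h2, h3, h4, h5, fun S hS => ?_⟩
  obtain ⟨TA, TB, g1, g2, g3, g4, g5⟩ := h6 S hS
  refine ⟨TB, TA, g2, g1, g4, g3, fun U hU R hR => ?_⟩
  obtain ⟨k1, k2⟩ := g5 R hR U hU
  refine ⟨fun z hz => ?_, ?_⟩
  · have := pwDj_swap (k1 (-z) ?_)
    · rwa [neg_neg] at this
    · have e : -z - hp * S * (ev i - ev j) = -(z - hp * S * (ev j - ev i)) := by ring
      rw [e, norm_neg]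
      exact hz
  · have e : hp * S * (ev j - ev i) + en U - en R - hq * S * (ev (-j) - ev (-i)) =
        -(hp * S * (ev i - ev j) + en R - en U - hq * S * (ev (-i) - ev (-j))) := by ring
    rw [e, norm_neg]
    exact k2

lemma PWd.rev {i j : Fin 3} {P Q : Tp} {hp hq r : ℝ} (hr : 0 < r) (h : PWd i j Q P hq hp r) :
    PWd (-i) (-j) P Q hp hq (r / 2) := by
  intro D δ hδ
  obtain ⟨W, c, S0, h1, h2, h3, h4, h5, h6⟩ := h D (min δ (r / 2)) (lt_min hδ (by linarith))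
  refine ⟨W, c, max S0 0, h1, h2, h3, h4, h5, fun S hS => ?_⟩
  have hS0 : 0 ≤ S := (le_max_right _ _).trans hS
  obtain ⟨TA, TB, g1, g2, g3, g4, g5⟩ := h6 S ((le_max_left _ _).trans hS)
  have key : ∀ {i : Fin 3} {T : Set W3}, T ⊆ Rst (ev i) (ev (-i)) Q P W S (S ^ (4 / 3 : ℝ)) →
      RvS T ⊆ Rst (ev (-i)) (ev (- -i)) P Q W S (S ^ (4 / 3 : ℝ)) := by
    intro i T hT R hR
    have := pwRsQ_rev (hT hR)
    rw [List.reverse_reverse] at this
    rw [neg_neg]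
    exact this
  refine ⟨RvS TA, RvS TB, key g1, key g2, by rwa [ms_RvS], by rwa [ms_RvS], fun R hR U hU => ?_⟩
  obtain ⟨k1, k2⟩ := g5 R.reverse hR U.reverse hU
  have eR : Even R.length := by
    have := (g1 hR).ev
    rwa [List.length_reverse] at this
  have eU : Even U.length := by
    have := (g2 hU).ev
    rwa [List.length_reverse] at this
  rw [en_reverse eR, en_reverse eU] at k2
  have e0 : hp * S * (ev (-i) - ev (-j)) + en R - en U - hq * S * (ev (- -i) - ev (- -j)) =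
      -(hq * S * (ev i - ev j) + -en R - -en U - hp * S * (ev (-i) - ev (-j))) := by
    rw [neg_neg, neg_neg]
    ring
  refine ⟨fun z hz => ?_, ?_⟩
  · have h7 : ‖(z + en R - en U) - hq * S * (ev i - ev j)‖ ≤ r * S := by
      have e1 : (z + en R - en U) - hq * S * (ev i - ev j) = (z - hp * S * (ev (-i) - ev (-j))) +
          -(hq * S * (ev i - ev j) + -en R - -en U - hp * S * (ev (-i) - ev (-j))) := by ring
      rw [e1]
      refine (norm_add_le _ _).trans ?_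
      rw [norm_neg]
      have h8 := mul_le_mul_of_nonneg_right (min_le_right δ (r / 2)) hS0
      linarith
    have h9 := k1 _ h7
    have h10 := pwDj_rev (R := R.reverse) (U := U.reverse) (z := z) (by rw [List.length_reverse]; exact eR)
      (by rw [List.length_reverse]; exact eU) (by
        rw [en_reverse eR, en_reverse eU, sub_neg_eq_add, ← sub_eq_add_neg]
        exact h9)
    rwa [List.reverse_reverse, List.reverse_reverse] at h10
  · rw [e0, norm_neg]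
    exact k2.trans (mul_le_mul_of_nonneg_right (min_le_left _ _) hS0)

/-! ### 3. Words of `PicW` are rests -/

lemma picW_rsQ {a : Fin 3} {lp lq h M : ℝ} {t : ℂ} {lo hi S : ℝ} {T : W3} (H : PicW a lp lq h M t lo hi S T) {P Q : Tp} {W : Wn}
    (hS : 0 < S) (hh : 0 ≤ h) (hPc : P.c ≤ 1) (hQc : Q.c ≤ 1) (hPκ : 2 * h ≤ P.κ) (hQκ : 2 * h ≤ Q.κ) (hPr : P.r0 ≤ lp)
    (hPg : P.rg < lp) (hQr : Q.r0 ≤ lq) (hQg : Q.rg < lq) (h0 : W.D0 + h ≤ ‖t‖) (h1 : ‖t‖ + h ≤ W.D1) (ht0 : W.t0 ≤ 0)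
    (ht1 : hi ≤ W.t1) : RsQ (ev a) (ev (-a)) P Q W S (S ^ (4 / 3 : ℝ)) T := by
  have hT : 0 ≤ S ^ (4 / 3 : ℝ) := Real.rpow_nonneg hS.le _
  have e1 : ‖(S : ℂ) * t‖ = S * ‖t‖ := by rw [norm_mul, Complex.norm_real, Real.norm_of_nonneg hS.le]
  have e2 := abs_le.1 ((abs_norm_sub_norm_le (en T) (S * t)).trans H.en)
  rw [e1] at e2
  have k0 := mul_le_mul_of_nonneg_right h0 hS.le
  have k1 := mul_le_mul_of_nonneg_right h1 hS.le
  have k2 := mul_le_mul_of_nonneg_right hPκ hS.le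
  have k3 := mul_le_mul_of_nonneg_right hQκ hS.le
  refine ⟨H.rb.ev, H.rb.sw, ?_, ?_, by linarith, by linarith, ?_, H.hi.trans (mul_le_mul_of_nonneg_right ht1 hT)⟩
  · exact edq_of (R0 := lp * S) (d := h * S) hS.le hPc (by linarith) (by linarith) (mul_le_mul_of_nonneg_right hPr hS.le)
      (mul_lt_mul_of_pos_right hPg hS) fun k h1 h2 h3 => H.rb.cone0 h1 h2 h3
  · exact edq_of (R0 := lq * S) (d := h * S) hS.le hQc (by linarith) (by linarith) (mul_le_mul_of_nonneg_right hQr hS.le)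
      (mul_lt_mul_of_pos_right hQg hS) fun k h1 h2 h3 => H.rb.cone1 h1 (by rwa [List.length_reverse] at h2) h3
  · exact (mul_nonpos_of_nonpos_of_nonneg ht0 hT).trans (Nat.cast_nonneg _)

/-! ### 4. The directions in skew coordinates -/

lemma pw1_re : (ev 1).re = -(1 / 2) := by
  unfold ev
  rw [show ((1 : Fin 3) : ℕ) = 1 from rfl, pow_one]
  exact Pool.Agent.RMP.W.om_re

lemma pw1_im : (ev 1).im = Real.sqrt 3 / 2 := by
  unfold ev
  rw [show ((1 : Fin 3) : ℕ) = 1 from rfl, pow_one]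
  exact Pool.Agent.RMP.W.om_im

lemma pw2 : ev 2 = (starRingEnd ℂ) (ev 1) := by
  rw [← ev_neg]
  rfl

lemma pw2_re : (ev 2).re = -(1 / 2) := by rw [pw2, Complex.conj_re, pw1_re]

lemma pw2_im : (ev 2).im = -(Real.sqrt 3 / 2) := by rw [pw2, Complex.conj_im, pw1_im]

lemma cx_ev0 : cx (ev 0) = 0 := by unfold cx; rw [ev_zero, Complex.one_im, mul_zero]

lemma cy_ev0 : cy (ev 0) = 1 := by unfold cy; rw [ev_zero, Complex.one_im, Complex.one_re, zero_div, add_zero]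

lemma cx_ev1 : cx (ev 1) = -1 := by unfold cx; rw [pw1_im]; have := s3p; field_simp

lemma cy_ev1 : cy (ev 1) = 0 := by unfold cy; rw [pw1_im, pw1_re]; have := s3p; field_simp; norm_num

lemma cx_ev2 : cx (ev 2) = 1 := by unfold cx; rw [pw2_im]; have := s3p; field_simp

lemma cy_ev2 : cy (ev 2) = -1 := by unfold cy; rw [pw2_im, pw2_re]; have := s3p; field_simp; norm_num

/-- the displacement of the first arc -/
noncomputable def pwI (L : ℝ) : ℂ := ⟨0, Real.sqrt 3 * L⟩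

lemma cx_pwI (L : ℝ) : cx (pwI L) = -2 * L := by
  unfold cx pwI
  have := s3p
  field_simp

lemma cy_pwI (L : ℝ) : cy (pwI L) = L := by
  unfold cy pwI
  have := s3p
  field_simp
  ring

lemma norm_pwI {L : ℝ} (hL : 0 ≤ L) : ‖pwI L‖ = Real.sqrt 3 * L := by
  have h : pwI L = ((Real.sqrt 3 * L : ℝ) : ℂ) * Complex.I := by
    unfold pwI
    apply Complex.ext
    · simp
    · simp
  rw [h, norm_mul, Complex.norm_I, mul_one, Complex.norm_real, Real.norm_of_nonneg (by positivity)]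

/-- the displacement of the second arc -/
noncomputable def pwJ (a b : Fin 3) (hp hq L : ℝ) : ℂ := pwI L + hq * (ev (-b) - ev (-a)) - hp * (ev b - ev a)

/-- the geometry of a pair of classes -/
def PwSepa (a b : Fin 3) (hp hq r : ℝ) : Prop := ∀ lp lq h L : ℝ, 3 * hp ≤ lp → 0 < lq → 0 < h → 4 * h ≤ hp → 4 * h ≤ hq →
  4 * (lp + lq + hp + hq + h) ≤ L → ∃ M M' : ℝ,
    (2 * (lp + lq) + h ≤ cy (pwI L) ∧ 2 * (lp + lq) + h ≤ -(cx (pwI L) + cy (pwI L)) ∧ cy (pwI L) ≤ -(cx (pwI L) + cy (pwI L)) + lp ∧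
      (a = 1 → -(cx (pwI L) + cy (pwI L)) ≤ 2 * M)) ∧
    (2 * (lp + lq) + h ≤ cy (pwJ a b hp hq L) ∧ 2 * (lp + lq) + h ≤ -(cx (pwJ a b hp hq L) + cy (pwJ a b hp hq L)) ∧
      cy (pwJ a b hp hq L) ≤ -(cx (pwJ a b hp hq L) + cy (pwJ a b hp hq L)) + lp ∧
      (b = 1 → -(cx (pwJ a b hp hq L) + cy (pwJ a b hp hq L)) ≤ 2 * M')) ∧
    ∀ v u ζ : ℂ, Rg a h M (pwI L) v → Rg b h M' (pwJ a b hp hq L) u → ‖ζ - hp * (ev b - ev a)‖ ≤ r → v ≠ u + ζ

lemma sepa01 {hp hq r : ℝ} (h1 : 0 < hp) (h2 : 0 < hq) (hr : 2 * r ≤ hp) (hr' : 2 * r ≤ hq) : PwSepa 0 1 hp hq r := by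
  intro lp lq h L g1 g2 g3 g4 g5 g6
  have n1 : (-(1 : Fin 3)) = 2 := rfl
  have n0 : (-(0 : Fin 3)) = 0 := rfl
  have x1 : cx (pwJ 0 1 hp hq L) = -2 * L + hq + hp := by
    unfold pwJ
    rw [cx_sub, cx_add, cx_mul, cx_mul, cx_sub, cx_sub, cx_pwI, n1, n0, cx_ev0, cx_ev1, cx_ev2]
    ring
  have y1 : cy (pwJ 0 1 hp hq L) = L - 2 * hq + hp := by
    unfold pwJ
    rw [cy_sub, cy_add, cy_mul, cy_mul, cy_sub, cy_sub, cy_pwI, n1, n0, cy_ev0, cy_ev1, cy_ev2]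
    ring
  refine ⟨L, L, ⟨?_, ?_, ?_, fun hh => absurd hh (by decide)⟩, ⟨?_, ?_, ?_, fun _ => ?_⟩, fun v u ζ hv hu hζ => ?_⟩
  · rw [cy_pwI]; linarith
  · rw [cx_pwI, cy_pwI]; linarith
  · rw [cx_pwI, cy_pwI]; linarith
  · rw [y1]; linarith
  · rw [x1, y1]; linarith
  · rw [x1, y1]; linarith
  · rw [x1, y1]; linarith
  · refine Rg.sep01 hv hu (w := ζ + pwJ 0 1 hp hq L - pwI L) rfl ?_ ?_
    · have a1 := abs_le.1 ((abs_cs (ζ - hp * (ev 1 - ev 0))).trans (mul_le_mul_of_nonneg_left hζ (by norm_num)))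
      rw [cx_sub, cx_mul, cx_sub, cx_ev0, cx_ev1, cy_sub, cy_mul, cy_sub, cy_ev0, cy_ev1] at a1
      linarith [a1.2]
    · have a1 := abs_le.1 ((abs_cy (ζ - hp * (ev 1 - ev 0))).trans (mul_le_mul_of_nonneg_left hζ (by norm_num)))
      rw [cy_sub, cy_mul, cy_sub, cy_ev0, cy_ev1] at a1
      rw [cy_sub, cy_add, y1, cy_pwI]
      linarith [a1.2]

lemma sepa12 {hp hq r : ℝ} (h1 : 0 < hp) (h2 : 0 < hq) (hr : 2 * r ≤ hp) (hr' : 2 * r ≤ hq) : PwSepa 1 2 hp hq r := by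
  intro lp lq h L g1 g2 g3 g4 g5 g6
  have n1 : (-(1 : Fin 3)) = 2 := rfl
  have n2 : (-(2 : Fin 3)) = 1 := rfl
  have x1 : cx (pwJ 1 2 hp hq L) = -2 * L - 2 * hq - 2 * hp := by
    unfold pwJ
    rw [cx_sub, cx_add, cx_mul, cx_mul, cx_sub, cx_sub, cx_pwI, n1, n2, cx_ev1, cx_ev2]
    ring
  have y1 : cy (pwJ 1 2 hp hq L) = L + hq + hp := by
    unfold pwJ
    rw [cy_sub, cy_add, cy_mul, cy_mul, cy_sub, cy_sub, cy_pwI, n1, n2, cy_ev1, cy_ev2]
    ring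
  refine ⟨L, L + hp + 1, ⟨?_, ?_, ?_, fun _ => ?_⟩, ⟨?_, ?_, ?_, fun hh => absurd hh (by decide)⟩, fun v u ζ hv hu hζ => ?_⟩
  · rw [cy_pwI]; linarith
  · rw [cx_pwI, cy_pwI]; linarith
  · rw [cx_pwI, cy_pwI]; linarith
  · rw [cx_pwI, cy_pwI]; linarith
  · rw [y1]; linarith
  · rw [x1, y1]; linarith
  · rw [x1, y1]; linarith
  · have a1 := abs_le.1 ((abs_cx (ζ - hp * (ev 2 - ev 1))).trans (mul_le_mul_of_nonneg_left hζ (by norm_num)))
    rw [cx_sub, cx_mul, cx_sub, cx_ev2, cx_ev1] at a1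
    have a2 := abs_le.1 ((Complex.abs_re_le_norm (ζ - hp * (ev 2 - ev 1))).trans hζ)
    rw [Complex.sub_re, Complex.re_ofReal_mul, Complex.sub_re, pw2_re, pw1_re] at a2
    refine Rg.sep12 hv hu (w := ζ + pwJ 1 2 hp hq L - pwI L) rfl ?_ ?_ ?_
    · linarith [a1.1]
    · rw [cx_sub, cx_add, x1, cx_pwI]
      linarith [a1.2]
    · linarith [a2.2]

/-! ### 5. The words -/

lemma pw_dist (a b : Fin 3) : ‖ev a - ev b‖ ≤ 2 := by
  refine (norm_sub_le _ _).trans ?_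
  rw [ev_norm, ev_norm]
  norm_num

/-- **the words of a pair of classes** -/
theorem pwd_of {a b : Fin 3} {P Q : Tp} (hP : P.Ok) (hQ : Q.Ok) {hp hq r : ℝ} (h1 : 0 < hp) (h2 : 0 < hq)
    (hs : PwSepa a b hp hq r) : PWd a b P Q hp hq r := by
  intro D δ hδ
  obtain ⟨h, k0, k1, k2, k3, k4, k5, k6⟩ : ∃ h : ℝ, 0 < h ∧ 4 * h ≤ hp ∧ 4 * h ≤ hq ∧ 2 * h ≤ δ ∧ h ≤ 1 ∧ 2 * h ≤ P.κ ∧
      2 * h ≤ Q.κ := by
    have c1 := hP.κ
    have c2 := hQ.κ
    obtain ⟨m, hm⟩ : ∃ m : ℝ, m = min (min hp hq) (min (min δ 1) (min P.κ Q.κ)) := ⟨_, rfl⟩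
    have m0 : 0 < m := by rw [hm]; positivity
    have m1 : m ≤ hp := by rw [hm]; exact (min_le_left _ _).trans (min_le_left _ _)
    have m2 : m ≤ hq := by rw [hm]; exact (min_le_left _ _).trans (min_le_right _ _)
    have m3 : m ≤ δ := by rw [hm]; exact (min_le_right _ _).trans ((min_le_left _ _).trans (min_le_left _ _))
    have m4 : m ≤ 1 := by rw [hm]; exact (min_le_right _ _).trans ((min_le_left _ _).trans (min_le_right _ _))
    have m5 : m ≤ P.κ := by rw [hm]; exact (min_le_right _ _).trans ((min_le_right _ _).trans (min_le_left _ _))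
    have m6 : m ≤ Q.κ := by rw [hm]; exact (min_le_right _ _).trans ((min_le_right _ _).trans (min_le_right _ _))
    exact ⟨m / 4, by linarith, by linarith, by linarith, by linarith, by linarith, by linarith, by linarith⟩
  obtain ⟨lp, l0, l1, l2, l3⟩ : ∃ lp : ℝ, 3 * hp ≤ lp ∧ P.r0 ≤ lp ∧ P.rg < lp ∧ 0 < lp :=
    ⟨3 * hp + |P.r0| + |P.rg| + 1, by linarith [abs_nonneg P.r0, abs_nonneg P.rg], by
      linarith [le_abs_self P.r0, abs_nonneg P.rg], by linarith [le_abs_self P.rg, abs_nonneg P.r0], by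
      linarith [abs_nonneg P.r0, abs_nonneg P.rg]⟩
  obtain ⟨lq, q1, q2, q3⟩ : ∃ lq : ℝ, Q.r0 ≤ lq ∧ Q.rg < lq ∧ 0 < lq :=
    ⟨|Q.r0| + |Q.rg| + 1, by linarith [le_abs_self Q.r0, abs_nonneg Q.rg], by linarith [le_abs_self Q.rg, abs_nonneg Q.r0], by
      linarith [abs_nonneg Q.r0, abs_nonneg Q.rg]⟩
  obtain ⟨L, L1, L2, L3⟩ : ∃ L : ℝ, 4 * (lp + lq + hp + hq + h) ≤ L ∧ D ≤ L ∧ 10 ≤ L :=
    ⟨max (4 * (lp + lq + hp + hq + h)) (max D 10), le_max_left _ _, (le_max_left _ _).trans (le_max_right _ _),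
      (le_max_right _ _).trans (le_max_right _ _)⟩
  obtain ⟨M, M', ⟨a1, a2, a3, a4⟩, ⟨b1, b2, b3, b4⟩, hsep⟩ := hs lp lq h L l0 q3 k0 k1 k2 L1
  obtain ⟨c, lo, hi, S0, c0, lo0, hi0, S00, hm⟩ := picW (a := a) (M := M) l3 q3 k0 a1 a2 a3 a4
  obtain ⟨c', lo', hi', S0', c0', lo0', hi0', S00', hm'⟩ := picW (a := b) (M := M') l3 q3 k0 b1 b2 b3 b4
  have hL0 : 0 ≤ L := by linarith
  have s1 : 1.7 ≤ Real.sqrt 3 := Real.le_sqrt_of_sq_le (by norm_num)
  have s2 : Real.sqrt 3 ≤ 1.74 := Real.sqrt_le_iff.2 ⟨by norm_num, by norm_num⟩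
  have nI := norm_pwI hL0
  have s1' := mul_le_mul_of_nonneg_right s1 hL0
  have s2' := mul_le_mul_of_nonneg_right s2 hL0
  have nd : ‖pwJ a b hp hq L - pwI L‖ ≤ 2 * hq + 2 * hp := by
    have e : pwJ a b hp hq L - pwI L = hq * (ev (-b) - ev (-a)) - hp * (ev b - ev a) := by
      unfold pwJ
      ring
    rw [e]
    refine (norm_sub_le _ _).trans ?_
    rw [norm_mul, norm_mul, Complex.norm_real, Complex.norm_real, Real.norm_of_nonneg h1.le, Real.norm_of_nonneg h2.le]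
    have := mul_le_mul_of_nonneg_left (pw_dist (-b) (-a)) h2.le
    have := mul_le_mul_of_nonneg_left (pw_dist b a) h1.le
    linarith
  have nJ := abs_le.1 ((abs_norm_sub_norm_le (pwJ a b hp hq L) (pwI L)).trans nd)
  rw [nI] at nJ
  refine ⟨⟨L, 4 * L, 0, max hi hi'⟩, min c c', max S0 S0', lt_min c0 c0', L2, hi0.trans_le (le_max_left _ _), rfl,
    by show L < 4 * L; linarith, fun S hS => ?_⟩
  have hS1 : S0 ≤ S := (le_max_left _ _).trans hS
  have hS2 : S0' ≤ S := (le_max_right _ _).trans hS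
  have hS0 : 0 < S := by linarith
  have hS4 : 0 ≤ S ^ (3 / 4 : ℝ) := Real.rpow_nonneg hS0.le _
  have hPc : P.c ≤ 1 := by linarith [hP.c1]
  have hQc : Q.c ≤ 1 := by linarith [hQ.c1]
  refine ⟨{T | PicW a lp lq h M (pwI L) lo hi S T}, {T | PicW b lp lq h M' (pwJ a b hp hq L) lo' hi' S T}, fun T hT => ?_,
    fun T hT => ?_, ?_, ?_, fun R hR U hU => ⟨fun z hz => ?_, ?_⟩⟩
  · exact picW_rsQ hT hS0 k0.le hPc hQc k5 k6 l1 l2 q1 q2 (by show L + h ≤ _; rw [nI]; linarith)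
      (by show _ ≤ 4 * L; rw [nI]; linarith) le_rfl (le_max_left _ _)
  · exact picW_rsQ hT hS0 k0.le hPc hQc k5 k6 l1 l2 q1 q2 (by show L + h ≤ _; linarith [nJ.1])
      (by show _ ≤ 4 * L; linarith [nJ.2]) le_rfl (le_max_right _ _)
  · exact (ENNReal.ofReal_le_ofReal (mul_le_mul_of_nonneg_right (min_le_left _ _) hS4)).trans (hm S hS1)
  · exact (ENNReal.ofReal_le_ofReal (mul_le_mul_of_nonneg_right (min_le_right _ _) hS4)).trans (hm' S hS2)
  · intro j k hj hk he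
    have hSc : (S : ℂ) ≠ 0 := by exact_mod_cast hS0.ne'
    refine hsep ((S : ℂ)⁻¹ * ps R j) ((S : ℂ)⁻¹ * ps U k) (-((S : ℂ)⁻¹ * z)) (hR.rg j hj) (hU.rg k hk) ?_ ?_
    · have e : -((S : ℂ)⁻¹ * z) - hp * (ev b - ev a) = -((S : ℂ)⁻¹ * (z - hp * S * (ev a - ev b))) := by
        field_simp
        ring
      rw [e, norm_neg, norm_mul, norm_inv, Complex.norm_real, Real.norm_of_nonneg hS0.le, inv_mul_le_iff₀ hS0, mul_comm S r]
      exact hz
    · rw [he]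
      ring
  · have e : hp * S * (ev a - ev b) + en R - en U - hq * S * (ev (-a) - ev (-b)) =
        (en R - S * pwI L) - (en U - S * pwJ a b hp hq L) := by
      unfold pwJ
      ring
    rw [e]
    refine (norm_sub_le _ _).trans ?_
    have e1 := hR.en
    have e2 := hU.en
    have e3 := mul_le_mul_of_nonneg_right k3 hS0.le
    linarith

/-- all pairs of classes -/
theorem pwd_all {i j : Fin 3} (hij : i ≠ j) {P Q : Tp} (hP : P.Ok) (hQ : Q.Ok) {hp hq : ℝ} (h1 : 0 < hp) (h2 : 0 < hq) :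
    ∃ r : ℝ, 0 < r ∧ PWd i j P Q hp hq r := by
  obtain ⟨r, hr⟩ : ∃ r : ℝ, r = min hp hq / 2 := ⟨_, rfl⟩
  have r0 : 0 < r := by rw [hr]; exact half_pos (lt_min h1 h2)
  have r1 : 2 * r ≤ hp := by rw [hr]; linarith [min_le_left hp hq]
  have r2 : 2 * r ≤ hq := by rw [hr]; linarith [min_le_right hp hq]
  have A : PWd 0 1 P Q hp hq r := pwd_of hP hQ h1 h2 (sepa01 h1 h2 r1 r2)
  have B : PWd 1 2 P Q hp hq r := pwd_of hP hQ h1 h2 (sepa12 h1 h2 r1 r2)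
  have C : PWd 0 2 P Q hp hq (r / 2) :=
    PWd.rev (i := 0) (j := 1) r0 (pwd_of hQ hP h2 h1 (sepa01 h2 h1 r2 r1))
  have r3 : 0 < r / 2 := half_pos r0
  fin_cases i <;> fin_cases j
  · exact absurd rfl hij
  · exact ⟨r, r0, A⟩
  · exact ⟨r / 2, r3, C⟩
  · exact ⟨r, r0, A.swap⟩
  · exact absurd rfl hij
  · exact ⟨r, r0, B⟩
  · exact ⟨r / 2, r3, C.swap⟩
  · exact ⟨r, r0, B.swap⟩
  · exact absurd rfl hij

/-- **the words of a pair of classes** (literal of helper2) -/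
theorem pair_words {i j : Fin 3} (hij : i ≠ j) {P Q : Tp} (hP : P.Ok) (hQ : Q.Ok) {hp hq δ D : ℝ} (h1 : 0 < hp) (h2 : 0 < hq)
    (hδ : 0 < δ) : ∃ (W : Wn) (c ε : ℝ) (N0 : ℕ), 0 < c ∧ 0 < ε ∧ D ≤ W.D0 ∧ 0 < W.t1 ∧ W.t0 = 0 ∧ W.D0 < W.D1 ∧
    ∀ N : ℕ, N0 ≤ N → ∃ TA TB : Set W3, TA ⊆ Rst (ev i) (ev (-i)) P Q W N (uT N) ∧ TB ⊆ Rst (ev j) (ev (-j)) P Q W N (uT N) ∧
      ENNReal.ofReal (c * (N : ℝ) ^ (3 / 4 : ℝ)) ≤ ms TA (fun _ => 1) ∧
      ENNReal.ofReal (c * (N : ℝ) ^ (3 / 4 : ℝ)) ≤ ms TB (fun _ => 1) ∧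
      ∀ R ∈ TA, ∀ U ∈ TB, ∀ z : ℂ, ‖z - hp * N * (ev i - ev j)‖ ≤ ε * N →
        Dj R U z ∧ ‖z + en R - en U - hq * N * (ev (-i) - ev (-j))‖ ≤ δ * N := by
  obtain ⟨r, r0, H⟩ := pwd_all hij hP hQ h1 h2
  obtain ⟨W, c, S0, g1, g2, g3, g4, g5, g6⟩ := H D (δ / 2) (by linarith)
  obtain ⟨N0, hN0⟩ := exists_nat_ge S0
  refine ⟨W, c, min r (δ / 2), N0, g1, lt_min r0 (by linarith), g2, g3, g4, g5, fun N hN => ?_⟩
  obtain ⟨TA, TB, f1, f2, f3, f4, f5⟩ := g6 N (hN0.trans (by exact_mod_cast hN))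
  refine ⟨TA, TB, f1, f2, f3, f4, fun R hR U hU z hz => ?_⟩
  obtain ⟨e1, e2⟩ := f5 R hR U hU
  have hN' : (0 : ℝ) ≤ N := Nat.cast_nonneg N
  rw [Complex.ofReal_natCast] at e2
  refine ⟨e1 z ?_, ?_⟩
  · rw [Complex.ofReal_natCast]
    exact hz.trans (mul_le_mul_of_nonneg_right (min_le_left _ _) hN')
  · have e : z + en R - en U - hq * N * (ev (-i) - ev (-j)) = (z - hp * N * (ev i - ev j)) +
        (hp * N * (ev i - ev j) + en R - en U - hq * N * (ev (-i) - ev (-j))) := by ring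
    rw [e]
    refine (norm_add_le _ _).trans ?_
    have := hz.trans (mul_le_mul_of_nonneg_right (min_le_right _ _) hN')
    linarith

end Pool.Agent.ROT.F3
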