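import Pool.Agent.ROT.F3Q12c
import Pool.Agent.ROT.F3BTB
import Pool.Agent.ROT.F3PairW
import Pool.Agent.ROT.F3HGeo2

/-!
# ROT, F3 (helper76): the laws of the marked rests of the picture

* `EPY` : the closed conditions of the marked rests with outer gates (block `OtV`, rest `ClR`, block `OtV`), any class;
  **`mark_epy`** : they hold for the limit of the laws of the marked rests;
* `un3_ot` : the decompositions are unique;
* `PNum` : the inequalities of the pictures; **`pic_law`** : for every class the law of the marked rests of the picture.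
-/

set_option autoImplicit false

open MeasureTheory Filter Topology Set ComplexConjugate
open scoped ENNReal NNReal BoundedContinuousFunction

namespace Pool.Agent.ROT.F3.Q12

open Pool.Agent.ROT.F3 Pool.Agent.ROT.F3.CC Pool.Agent.ROT.F3.Mk Pool.Agent.ROT.F3.Pw

/-! ### 1. The closed conditions -/

/-- **marked rests with outer gates** -/
structure EPY (d d' : ℂ) (O O' : Ot) (Yp Yq : Tp) (V : Wn) (x : MP) : Prop where
  h0 : 0 ≤ x.2.1
  h1 : x.2.1 ≤ x.2.2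
  h2 : x.2.2 ≤ 1
  z : x.1.1 0 = 0
  p : OtV d O (two x).1
  q : OtV d' O' (two x).2
  m : (mid x).1 ∈ ClR d d' Yp Yq V
  t0 : V.t0 ≤ (mid x).2
  t1 : (mid x).2 ≤ V.t1

/-- the thickened form -/
def EPd (d d' : ℂ) (O O' : Ot) (Yp Yq : Tp) (V : Wn) (δ : ℝ) : Set MP :=
  {x | 0 ≤ x.2.1} ∩ {x | x.2.1 ≤ x.2.2} ∩ {x | x.2.2 ≤ 1} ∩ {x | x.1.1 0 = 0} ∩ {x | (two x).1 ∈ {k | OtV d O k}} ∩
    {x | (two x).2 ∈ {k | OtV d' O' k}} ∩ {x | (mid x).1 0 = 0} ∩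
    {x | (mid x).1 ∈ Stg (Metric.cthickening δ (KR d d' Yp Yq V)) (Metric.cthickening δ (KR d d' Yp Yq V))} ∩
    {x | V.t0 ≤ (mid x).2} ∩ {x | (mid x).2 ≤ V.t1}

lemma epd_closed (d d' : ℂ) (O O' : Ot) (Yp Yq : Tp) (V : Wn) (δ : ℝ) : IsClosed (EPd d d' O O' Yp Yq V δ) := by
  have c2 : Continuous fun x : MP => (mid x).1 := continuous_fst.comp mid_cont
  have c3 : Continuous fun x : MP => (mid x).2 := continuous_snd.comp mid_cont
  refine ((((((((IsClosed.inter ?_ ?_).inter ?_).inter ?_).inter ?_).inter ?_).inter ?_).inter ?_).inter ?_).inter ?_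
  · exact isClosed_le continuous_const (by fun_prop)
  · exact isClosed_le (by fun_prop) (by fun_prop)
  · exact isClosed_le (by fun_prop) continuous_const
  · exact isClosed_eq ((continuous_eval_const (0 : unitInterval)).comp (by fun_prop)) continuous_const
  · exact (otv_closed d O).preimage (continuous_fst.comp two_cont)
  · exact (otv_closed d' O').preimage (continuous_snd.comp two_cont)
  · exact isClosed_eq ((continuous_eval_const (0 : unitInterval)).comp c2) continuous_const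
  · exact (stg_closed Metric.isClosed_cthickening Metric.isClosed_cthickening).preimage c2
  · exact isClosed_le continuous_const c3
  · exact isClosed_le c3 continuous_const

lemma epy_of_epd {d d' : ℂ} {O O' : Ot} {Yp Yq : Tp} {V : Wn} {x : MP}
    (h : ∀ k : ℕ, x ∈ EPd d d' O O' Yp Yq V (1 / ((k : ℝ) + 1))) : EPY d d' O O' Yp Yq V x := by
  obtain ⟨⟨⟨⟨⟨⟨⟨⟨⟨h1, h2⟩, h3⟩, h4⟩, h5⟩, h6⟩, h7⟩, -⟩, h9⟩, h10⟩ := h 0
  refine ⟨h1, h2, h3, h4, h5, h6, mem_clR.2 ⟨h7, mem_stg_self.2 fun t => ?_⟩, h9, h10⟩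
  rw [← (kR_closed d d' Yp Yq V).closure_eq, Metric.closure_eq_iInter_cthickening]
  simp only [mem_iInter]
  intro δ hδ
  obtain ⟨k, hk⟩ := exists_nat_one_div_lt hδ
  obtain ⟨⟨⟨-, h8⟩, -⟩, -⟩ := h k
  exact Metric.cthickening_mono hk.le _ (mem_stg_self.1 h8 t)

/-- **marked words** -/
lemma epd_word {d d' : ℂ} {O O' : Ot} {Yp Yq : Tp} {V : Wn} {N : ℕ} (hN : 0 < N) {b m b' : W3} (hb : b ∈ OtB d O N (uT N))
    (hm : m ∈ Rst d d' Yp Yq V N (uT N)) (hb' : b' ∈ OtB d' O' N (uT N)) (hc : 0 ≤ O.c) (hc' : 0 ≤ O'.c) (hV : 0 < V.D0)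
    {δ : ℝ} (hδ : 1 / (N : ℝ) ≤ δ) : mk3 N (uT N) (b, m, b') ∈ EPd d d' O O' Yp Yq V δ := by
  have hS : (0 : ℝ) < N := by exact_mod_cast hN
  have hT : 0 < uT N := by
    unfold uT
    positivity
  have kb : OtM d O N (uT N) b := hb
  have kb' : OtM d' O' N (uT N) b' := hb'
  have km : RsQ d d' Yp Yq V N (uT N) m := hm
  have h1 : 1 ≤ m.length := one_le_of_far (mul_pos hV hS) km.far
  have hl : 1 ≤ (cat (b, m, b')).length := by
    rw [cat_len]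
    show 1 ≤ b.length + (m.length + b'.length)
    omega
  obtain ⟨a1, a2, a3⟩ := mk3_marks (s := (N : ℝ)) (t := uT N) hl
  have e2 : two (mk3 N (uT N) (b, m, b')) = (cr N (uT N) b, cr N (uT N) b') := two_mk3 kb.k.t.ev km.ev kb'.k.t.ev hl
  have e3 : mid (mk3 N (uT N) (b, m, b')) = cr N (uT N) m := mid_mk3 kb.k.t.ev hl
  refine ⟨⟨⟨⟨⟨⟨⟨⟨⟨a1, a2⟩, a3⟩, ?_⟩, ?_⟩, ?_⟩, ?_⟩, ?_⟩, ?_⟩, ?_⟩
  · exact crv_zero _ _ _
  · show (two (mk3 N (uT N) (b, m, b'))).1 ∈ {k | OtV d O k}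
    rw [e2]
    exact otv_word kb hS hT hc
  · show (two (mk3 N (uT N) (b, m, b'))).2 ∈ {k | OtV d' O' k}
    rw [e2]
    exact otv_word kb' hS hT hc'
  · show (mid (mk3 N (uT N) (b, m, b'))).1 0 = 0
    rw [e3]
    exact crv_zero _ _ _
  · show (mid (mk3 N (uT N) (b, m, b'))).1 ∈ Stg _ _
    rw [e3]
    exact stg_mono (Metric.cthickening_mono hδ _) (Metric.cthickening_mono hδ _) (rsq_stg km hS hV)
  · show V.t0 ≤ (mid (mk3 N (uT N) (b, m, b'))).2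
    rw [e3]
    show V.t0 ≤ (m.length : ℝ) / uT N
    rw [le_div_iff₀ hT]
    exact km.lo
  · show (mid (mk3 N (uT N) (b, m, b'))).2 ≤ V.t1
    rw [e3]
    show (m.length : ℝ) / uT N ≤ V.t1
    rw [div_le_iff₀ hT]
    exact km.hi

/-- **the closed conditions for the limit** (`P` = output of `mark_lim`) -/
theorem mark_epy {U : Ultrafilter ℕ} (hU : (U : Filter ℕ) ≤ atTop) {B M B' : ℕ → Set W3} {d d' : ℂ} {O O' : Ot} {Yp Yq : Tp}
    {V : Wn} (hc : 0 ≤ O.c) (hc' : 0 ≤ O'.c) (hV : 0 < V.D0) {P : Measure MP}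
    (hcl : ∀ E : Set MP, IsClosed E → (∀ᶠ N in (U : Filter ℕ), ∀ b ∈ B N, ∀ m ∈ M N, ∀ b' ∈ B' N,
      mk3 N (uT N) (b, m, b') ∈ E) → ∀ᵐ y ∂P, y ∈ E)
    (hB : ∀ᶠ N in (U : Filter ℕ), B N ⊆ OtB d O N (uT N)) (hM : ∀ᶠ N in (U : Filter ℕ), M N ⊆ Rst d d' Yp Yq V N (uT N))
    (hB' : ∀ᶠ N in (U : Filter ℕ), B' N ⊆ OtB d' O' N (uT N)) : ∀ᵐ x ∂P, EPY d d' O O' Yp Yq V x := by
  have h1 : ∀ k : ℕ, ∀ᵐ x ∂P, x ∈ EPd d d' O O' Yp Yq V (1 / ((k : ℝ) + 1)) := by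
    intro k
    refine hcl _ (epd_closed _ _ _ _ _ _ _ _) ?_
    filter_upwards [hB, hM, hB', hU (eventually_ge_atTop (k + 1))] with N g1 g2 g3 g4 b hb m hm b' hb'
    have hk : (0 : ℝ) < (k : ℝ) + 1 := by positivity
    have hN : (k : ℝ) + 1 ≤ N := by exact_mod_cast g4
    exact epd_word (by omega) (g1 hb) (g2 hm) (g3 hb') hc hc' hV (one_div_le_one_div_of_le hk hN)
  filter_upwards [ae_all_iff.2 h1] with x hx
  exact epy_of_epd hx

/-- the decompositions are unique -/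
lemma un3_ot {d d' : ℂ} {O O' : Ot} {Yp Yq : Tp} {V : Wn} {S T : ℝ} (hS : 0 < S) {M : Set W3}
    (hM : M ⊆ Rst d d' Yp Yq V S T) (h1 : 2 * O.r ≤ Yp.rg) (h2 : 2 * O'.r ≤ Yq.rg) (h3 : 2 * O.r < V.D0)
    (h4 : 2 * O'.r < V.D0) : Un3 (OtB d O S T) M (OtB d' O' S T) := by
  refine un3_fst (t := d) (t' := d') (rt := O.r * S) (rt' := O'.r * S) (r0t := Yp.rg * S) (r0t' := Yq.rg * S) (l := O.m * S)
    (l' := O'.m * S) (Dt := V.D0 * S) (fun b hb => ?_) (fun b hb => ?_) (fun A hA => ?_) ?_ ?_ ?_ ?_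
  · have h : OtM d O S T b := hb
    exact ⟨h.k.t, h.f⟩
  · have h : OtM d' O' S T b := hb
    exact ⟨h.k.t, h.f⟩
  · have h : RsQ d d' Yp Yq V S T A := hM hA
    exact ⟨h.ev, h.sw, h.s.right, h.e.right, h.far⟩
  · rw [← mul_assoc]
    exact mul_le_mul_of_nonneg_right h1 hS.le
  · rw [← mul_assoc]
    exact mul_le_mul_of_nonneg_right h2 hS.le
  · rw [← mul_assoc]
    exact mul_lt_mul_of_pos_right h3 hS
  · rw [← mul_assoc]
    exact mul_lt_mul_of_pos_right h4 hS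

/-! ### 2. The numbers -/

/-- the constant of the tube words -/
noncomputable def H0 : ℕ := picWH.choose

lemma H0_one : 1 ≤ H0 := picWH.choose_spec.1

/-- the shortest and the longest words of tolerance `η` -/
noncomputable def loH (η : ℝ) : ℝ := (η / 20 / (72 * H0)) ^ (4 / 3 : ℝ)

noncomputable def hiH (η : ℝ) : ℝ := 10 * (η / 20 / (18 * H0)) ^ (4 / 3 : ℝ)

lemma picWH' {a : Fin 3} {ℓp ℓq h M : ℝ} {t : ℂ} (hp : 0 < ℓp) (hq : 0 < ℓq) (hh : 0 < h)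
    (h1 : 2 * (ℓp + ℓq) + h ≤ cy t) (h2 : 2 * (ℓp + ℓq) + h ≤ -(cx t + cy t)) (h3 : cy t ≤ -(cx t + cy t) + ℓp)
    (hM : a = 1 → -(cx t + cy t) ≤ 2 * M) : ∃ c S0 : ℝ, 0 < c ∧ 1 ≤ S0 ∧ ∀ S : ℝ, S0 ≤ S →
      ENNReal.ofReal (c * S ^ (3 / 4 : ℝ)) ≤ ms {T | PicW a ℓp ℓq h M t (loH h) (hiH h) S T} fun _ => 1 :=
  picWH.choose_spec.2 hp hq hh h1 h2 h3 hM

lemma loH_pos {η : ℝ} (h : 0 < η) : 0 < loH η := by
  have := H0_one
  have hH : (1 : ℝ) ≤ H0 := by exact_mod_cast H0_one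
  unfold loH
  positivity

lemma hiH_pos {η : ℝ} (h : 0 < η) : 0 < hiH η := by
  have hH : (1 : ℝ) ≤ H0 := by exact_mod_cast H0_one
  unfold hiH
  positivity

lemma hiH_le {η : ℝ} (h : 0 < η) (h1 : η ≤ 1) : hiH η ≤ η := by
  have hH : (1 : ℝ) ≤ H0 := by exact_mod_cast H0_one
  have h2 : η / 20 / (18 * H0) ≤ η / 360 := by
    rw [div_div]
    refine div_le_div_of_nonneg_left h.le (by norm_num) ?_
    linarith
  have h3 : (0 : ℝ) < η / 360 := by positivity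
  unfold hiH
  have h4 : (η / 20 / (18 * H0)) ^ (4 / 3 : ℝ) ≤ (η / 360) ^ (1 : ℝ) := by
    refine (Real.rpow_le_rpow (by positivity) h2 (by norm_num)).trans ?_
    exact Real.rpow_le_rpow_of_exponent_ge h3 (by linarith) (by norm_num)
  rw [Real.rpow_one] at h4
  linarith

/-- **the inequalities of the pictures**: `Θ` = bound of the distance of the middle displacement from `pwI L` -/
structure PNum (P : Prm) (W V : Wn) (O O' : Ot) (Yp Yq : Tp) (lp lq η L Θ : ℝ) : Prop where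
  hη : 0 < η
  hL : 0 ≤ L
  c0 : 0 ≤ O.c
  c0' : 0 ≤ O'.c
  c : P.p.n.c ≤ O.c
  c' : P.q.n.c ≤ O'.c
  c1 : O.c ≤ 1
  c1' : O'.c ≤ 1
  κ : O.κ ≤ P.p.n.κ
  κ' : O'.κ ≤ P.q.n.κ
  m : 2 * η < O.m
  m' : 2 * η < O'.m
  e : 2 * η ≤ O.e + P.p.n.κ
  e' : 2 * η ≤ O'.e + P.q.n.κ
  r : 0 < O.r
  r' : 0 < O'.r
  g : 2 * O.r < lp
  g' : 2 * O'.r < lq
  gr : P.p.n.r0 + O.r < lp
  gr' : P.q.n.r0 + O'.r < lq
  yc : Yp.c ≤ 1
  yc' : Yq.c ≤ 1
  yκ : 2 * η ≤ Yp.κ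
  yκ' : 2 * η ≤ Yq.κ
  y0 : Yp.r0 ≤ lp
  y0' : Yq.r0 ≤ lq
  yg : Yp.rg < lp
  yg' : Yq.rg < lq
  u : 2 * O.r ≤ Yp.rg
  u' : 2 * O'.r ≤ Yq.rg
  uD : 2 * O.r < V.D0
  uD' : 2 * O'.r < V.D0
  far : P.p.n.r0 + P.q.n.r0 + 2 * (O.r + O'.r) < Real.sqrt 3 * L - Θ - η
  D : 0 < (P.wd W).D0
  D0 : (P.wd W).D0 + (O.r + O'.r) ≤ Real.sqrt 3 * L - Θ - η
  D1 : Real.sqrt 3 * L + Θ + η ≤ (P.wd W).D1 - (O.r + O'.r)
  v0 : V.D0 ≤ Real.sqrt 3 * L - Θ - η
  v1 : Real.sqrt 3 * L + Θ + η ≤ V.D1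
  t0 : (P.wd W).t0 ≤ loH η
  t1 : hiH η ≤ (P.wd W).t1 - (O.lb + O'.lb)
  lb : 0 ≤ O.lb + O'.lb
  w0 : V.t0 ≤ loH η
  w1 : hiH η ≤ V.t1
  k1 : 2 * (lp + lq) + η ≤ L - 2 * Θ
  k2 : 4 * Θ ≤ lp

/-! ### 3. The law -/

/-- **the law of the marked rests of the picture** -/
theorem pic_law {P : Prm} (hP : P.p.n.Ok) (hQ : P.q.n.Ok) {a : Fin 3} {W V : Wn} {O O' : Ot} {Yp Yq : Tp} {lp lq η L Θ M : ℝ}
    (n : PNum P W V O O' Yp Yq lp lq η L Θ) {t : ℂ} (ht : ‖t - pwI L‖ ≤ Θ) (hM : a = 1 → L + 2 * Θ ≤ 2 * M)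
    {U : Ultrafilter ℕ} (hU : (U : Filter ℕ) ≤ atTop) {β κ κ' : Measure Pie} [IsFiniteMeasure β] [IsFiniteMeasure κ]
    [IsFiniteMeasure κ']
    (lβ : ∀ g : Pie →ᵇ ℝ, Tendsto (fun N : ℕ => ∫ x, g x ∂(rm (Bt.cb N) N (uT N) (P.R0 a W N) fun _ => 1)) U (𝓝 (∫ x, g x ∂β)))
    (lκ : ∀ g : Pie →ᵇ ℝ, Tendsto (fun N : ℕ => ∫ x, g x ∂(rm 1 N (uT N) (OtB (ev a) O N (uT N)) fun _ => 1)) U
      (𝓝 (∫ x, g x ∂κ)))
    (lκ' : ∀ g : Pie →ᵇ ℝ, Tendsto (fun N : ℕ => ∫ x, g x ∂(rm 1 N (uT N) (OtB (ev (-a)) O' N (uT N)) fun _ => 1)) U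
      (𝓝 (∫ x, g x ∂κ')))
    (h0 : κ univ ≠ 0) (h0' : κ' univ ≠ 0) : ∃ bh : Measure MP, IsFiniteMeasure bh ∧ bh.map Prod.fst ≤ β ∧
      (∃ u : ℝ, 0 < u ∧ bh.map two = ENNReal.ofReal u • κ.prod κ') ∧
      ∀ᵐ x ∂bh, EPY (ev a) (ev (-a)) O O' Yp Yq V x ∧ (∀ s : unitInterval, Rg a (2 * η) M t ((mid x).1 s)) ∧
        ‖dsp (mid x) - t‖ ≤ 2 * η := by
  have hη := n.hη
  have hL := n.hL
  have hlp : 0 < lp := by linarith [n.g, n.r]
  have hlq : 0 < lq := by linarith [n.g', n.r']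
  -- the displacement
  have nt := abs_le.1 ((abs_norm_sub_norm_le t (pwI L)).trans ht)
  rw [norm_pwI hL] at nt
  have z1 := abs_le.1 ((abs_cx (t - pwI L)).trans (mul_le_mul_of_nonneg_left ht (by norm_num)))
  have z2 := abs_le.1 ((abs_cy (t - pwI L)).trans (mul_le_mul_of_nonneg_left ht (by norm_num)))
  have z3 := abs_le.1 ((abs_cs (t - pwI L)).trans (mul_le_mul_of_nonneg_left ht (by norm_num)))
  rw [cx_sub, cx_pwI] at z1
  rw [cy_sub, cy_pwI] at z2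
  rw [cx_sub, cy_sub, cx_pwI, cy_pwI] at z3
  have k1 := n.k1
  have k2 := n.k2
  obtain ⟨c, S0, hc, hS0, hmass⟩ := picWH' (a := a) (ℓp := lp) (ℓq := lq) (h := η) (M := M) (t := t) hlp hlq hη
    (by linarith [z2.1]) (by linarith [z3.2]) (by linarith [z2.2, z3.2]) (fun ha => by linarith [hM ha, z3.1])
  obtain ⟨Ms, hMs⟩ : ∃ Ms : ℕ → Set W3, Ms = fun N : ℕ => {T | PicW a lp lq η M t (loH η) (hiH η) (N : ℝ) T} := ⟨_, rfl⟩
  -- the words are rests at the outer gates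
  have hV0 : 0 < V.D0 := by linarith [n.uD, n.r]
  have memY : ∀ N : ℕ, 0 < N → Ms N ⊆ Rst (ev a) (ev (-a)) Yp Yq V N (uT N) := by
    intro N hN T hT
    rw [hMs] at hT
    have hS : (0 : ℝ) < N := by exact_mod_cast hN
    have hu : (0 : ℝ) ≤ uT N := by
      unfold uT
      positivity
    have h1 := picW_rsQ (W := ⟨V.D0, V.D1, 0, V.t1⟩) hT hS hη.le n.yc n.yc' n.yκ n.yκ' n.y0 n.yg n.y0' n.yg'
      (show V.D0 + η ≤ ‖t‖ by linarith [nt.1, n.v0]) (show ‖t‖ + η ≤ V.D1 by linarith [nt.2, n.v1]) le_rfl n.w1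
    exact ⟨h1.ev, h1.sw, h1.s, h1.e, h1.far, h1.near, (mul_le_mul_of_nonneg_right n.w0 hu).trans hT.lo, h1.hi⟩
  have memR : ∀ N : ℕ, 0 < N → ∀ b ∈ OtB (ev a) O N (uT N), ∀ m ∈ Ms N, ∀ b' ∈ OtB (ev (-a)) O' N (uT N),
      b ++ (m ++ b'.reverse) ∈ P.R0 a W N := by
    intro N hN b hb m hm b' hb'
    rw [hMs] at hm
    have hm' : PicW a lp lq η M t (loH η) (hiH η) N m := hm
    have hS : (0 : ℝ) < N := by exact_mod_cast hN
    have hu : (0 : ℝ) ≤ uT N := by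
      unfold uT
      positivity
    have e1 : ‖(N : ℂ) * t‖ = N * ‖t‖ := by
      have : ((N : ℝ) : ℂ) = (N : ℂ) := by push_cast; rfl
      rw [norm_mul, ← this, Complex.norm_real, Real.norm_of_nonneg hS.le]
    have e2 := abs_le.1 ((abs_norm_sub_norm_le (en m) (N * t)).trans (by
      have := hm'.en
      push_cast at this
      exact this))
    rw [e1] at e2
    have e3 : (Real.sqrt 3 * L - Θ - η) * N ≤ ‖en m‖ := by
      have h3 : (Real.sqrt 3 * L - Θ) * N ≤ ‖t‖ * N := mul_le_mul_of_nonneg_right (by linarith [nt.1]) hS.le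
      nlinarith [e2.1]
    have e4 : ‖en m‖ ≤ (Real.sqrt 3 * L + Θ + η) * N := by
      have h3 : ‖t‖ * N ≤ (Real.sqrt 3 * L + Θ) * N := mul_le_mul_of_nonneg_right (by linarith [nt.2]) hS.le
      nlinarith [e2.2]
    exact Tb.bTb_big (e0 := Real.sqrt 3 * L - Θ - η) (e1 := Real.sqrt 3 * L + Θ + η) (t0 := loH η) (t1 := hiH η) hm'.rb hP hQ hS
      hu hb hb' n.c n.c' n.c1 n.c1' n.κ n.κ' n.m n.e n.m' n.e' n.g n.gr n.g' n.gr' n.far n.D0 n.D1 e3 e4 n.t0 n.t1 hm'.lo hm'.hi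
  have hT1 : 0 < (P.wd W).t1 := by linarith [n.t1, n.lb, hiH_pos hη]
  have hg1 : 0 < P.p.n.rg := by linarith [hP.rg, hP.r, hP.r2]
  have hg2 : 0 < P.q.n.rg := by linarith [hQ.rg, hQ.r, hQ.r2]
  obtain ⟨q1, q2⟩ := near_rst (P := P.p.n) (Q := P.q.n) (W := P.wd W) hg1 hg2 n.D hT1 (i := a) (j := -a)
    (Rs := fun N => P.R0 a W N) (Eventually.of_forall fun N R hR => hR)
  have md : MD U Bt.cb (fun N => (N : ℝ)) uT (fun N => OtB (ev a) O N (uT N)) Ms (fun N => OtB (ev (-a)) O' N (uT N))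
      (fun N => P.R0 a W N) κ κ' β := by
    refine ⟨hU, inferInstance, inferInstance, inferInstance, q1, q2, lβ, lκ, lκ', ?_, ⟨c, hc, ?_⟩, h0, h0'⟩
    · filter_upwards [eventually_gt_atTop 0] with N hN
      have hS : (0 : ℝ) < N := by exact_mod_cast hN
      refine ⟨fun b hb => (show OtM _ _ _ _ b from hb).k.t.ev, fun m hm => ?_, fun b hb => (show OtM _ _ _ _ b from hb).k.t.ev,
        un3_ot hS (memY N hN) n.u n.u' n.uD n.uD', memR N hN⟩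
      have h1 : RsQ _ _ Yp Yq V N (uT N) m := memY N hN hm
      exact ⟨h1.ev, one_le_of_far (mul_pos hV0 hS) h1.far⟩
    · have hN : Tendsto (fun N : ℕ => (N : ℝ)) atTop atTop := tendsto_natCast_atTop_atTop
      filter_upwards [hU (hN.eventually_ge_atTop S0)] with N h1
      have hS : (0 : ℝ) < N := by linarith
      have h2 := hmass N h1
      have h3 := Bt.nrm_mul (A := 1) (C := c) zero_le_one hS
      rw [one_mul] at h3
      have h4 : Bt.cb N * ENNReal.ofReal (c * (N : ℝ) ^ (3 / 4 : ℝ)) = ENNReal.ofReal c := by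
        rw [Bt.cb, h3, one_mul]
      rw [← h4]
      refine mul_le_mul' le_rfl ?_
      rw [hMs]
      exact h2
  obtain ⟨bh, g1, g2, g3, g4⟩ := mark_lim md
  refine ⟨bh, g1, g2, g3, ?_⟩
  have c1 := mark_epy (B := fun N => OtB (ev a) O N (uT N)) (M := Ms) (B' := fun N => OtB (ev (-a)) O' N (uT N)) hU n.c0 n.c0' hV0
    g4 (Eventually.of_forall fun N => Subset.rfl) (by filter_upwards [hU (eventually_gt_atTop 0)] with N hN using memY N hN)
    (Eventually.of_forall fun N => Subset.rfl)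
  have cm : Continuous fun x : MP => (mid x).1 := continuous_fst.comp mid_cont
  have w1 : ∀ᶠ N : ℕ in (U : Filter ℕ), 0 < N ∧ 1 / (N : ℝ) ≤ η / 2 := by
    have hN : Tendsto (fun N : ℕ => (N : ℝ)) atTop atTop := tendsto_natCast_atTop_atTop
    filter_upwards [hU (hN.eventually_ge_atTop (2 / η)), hU (eventually_gt_atTop 0)] with N h1 h2
    have hS : (0 : ℝ) < N := by exact_mod_cast h2
    refine ⟨h2, ?_⟩
    rw [div_le_iff₀ hη] at h1
    rw [div_le_div_iff₀ hS (by norm_num)]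
    linarith
  have midw : ∀ N : ℕ, 0 < N → ∀ b ∈ OtB (ev a) O N (uT N), ∀ m ∈ Ms N, ∀ b' ∈ OtB (ev (-a)) O' N (uT N),
      mid (mk3 N (uT N) (b, m, b')) = cr N (uT N) m := by
    intro N hN b hb m hm b' hb'
    have hS : (0 : ℝ) < N := by exact_mod_cast hN
    have h1 : RsQ _ _ Yp Yq V N (uT N) m := memY N hN hm
    have h2 := one_le_of_far (mul_pos hV0 hS) h1.far
    exact mid_mk3 (show OtM _ _ _ _ b from hb).k.t.ev (by
      rw [cat_len]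
      show 1 ≤ b.length + (m.length + b'.length)
      omega)
  have c2 : ∀ᵐ x ∂bh, x ∈ {x : MP | ∀ s : unitInterval, (mid x).1 s ∈ {v | Rg a (2 * η) M t v}} := by
    refine g4 _ (allpts_closed cm (rg_closed _ _ _ _)) ?_
    filter_upwards [w1] with N hN b hb m hm b' hb'
    have hS : (0 : ℝ) < N := by exact_mod_cast hN.1
    show ∀ s : unitInterval, (mid (mk3 N (uT N) (b, m, b'))).1 s ∈ {v | Rg a (2 * η) M t v}
    rw [midw N hN.1 b hb m hm b' hb']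
    intro s
    obtain ⟨k, hk, h1⟩ := CC.near_vertex (w := m) hS s
    rw [hMs] at hm
    have h2 : Rg a η M t (((N : ℝ) : ℂ)⁻¹ * ps m k) := (show PicW a lp lq η M t (loH η) (hiH η) N m from hm).rg k hk
    have h3 := h2.near (v' := crv m m.length N s) (r := η / 2) (Y' := t) (r' := 0) (by
      rw [norm_sub_rev, ← div_eq_inv_mul]
      exact h1.trans hN.2) (by rw [sub_self, norm_zero])
    have e : η + 2 * (η / 2) + 2 * 0 = 2 * η := by ring
    rwa [e] at h3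
  have c3 : ∀ᵐ x ∂bh, x ∈ {x : MP | ‖dsp (mid x) - t‖ ≤ 2 * η} := by
    refine g4 _ (isClosed_le ((dsp_cont.comp mid_cont).sub continuous_const).norm continuous_const) ?_
    filter_upwards [w1] with N hN b hb m hm b' hb'
    have hS : (0 : ℝ) < N := by exact_mod_cast hN.1
    show ‖dsp (mid (mk3 N (uT N) (b, m, b'))) - t‖ ≤ 2 * η
    rw [midw N hN.1 b hb m hm b' hb']
    have e : dsp (cr N (uT N) m) = en m / N := dsp_wp _ _ _
    rw [e]
    rw [hMs] at hm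
    have h2 := (show PicW a lp lq η M t (loH η) (hiH η) N m from hm).en
    have e3 : en m / (N : ℝ) - t = (en m - (N : ℝ) * t) / (N : ℝ) := by
      have : ((N : ℝ) : ℂ) ≠ 0 := by exact_mod_cast hS.ne'
      field_simp
    have e4 : en m / (N : ℂ) - t = (en m - (N : ℝ) * t) / (N : ℝ) := by
      rw [← e3]
      push_cast
      rfl
    rw [e4, norm_div, Complex.norm_real, Real.norm_of_nonneg hS.le, div_le_iff₀ hS]
    have h5 : η * N ≤ 2 * η * N := by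
      have := mul_pos hη hS
      linarith
    exact h2.trans h5
  filter_upwards [c1, c2, c3] with x x1 x2 x3
  exact ⟨x1, x2, x3⟩

end Pool.Agent.ROT.F3.Q12
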