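import Pool.Agent.ROT.F3HLocE
import Pool.Agent.ROT.F3Q12d

/-!
# ROT, F3 (helper83): the two names of the closed class of marked rests

* `epc_iff` : `EpC` of helper97 = `EPY` of helper76.
-/

set_option autoImplicit false

namespace Pool.Agent.ROT.F3

open Pool.Agent.ROT.F3.Mk Pool.Agent.ROT.F3.CC Pool.Agent.ROT.F3.Q12

theorem epc_iff {d d' : ℂ} {O O' : Ot} {Y Y' : Tp} {V : Wn} {x : MP} : EpC d d' O O' Y Y' V x ↔ EPY d d' O O' Y Y' V x :=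
  ⟨fun h => ⟨h.s0, h.s1, h.s2, h.z, h.bp, h.bq, h.m, h.t0, h.t1⟩, fun h => ⟨h.h0, h.h1, h.h2, h.z, h.p, h.q, h.m, h.t0, h.t1⟩⟩

end Pool.Agent.ROT.F3
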