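import Pool.Agent.ROT.F3Q12g
import Pool.Agent.ROT.F3HLocC
import Pool.Agent.ROT.F3HLocY
import Pool.Agent.ROT.F3JmS

/-!
# ROT, F3 (helper76): locality of the foreign gates for the marked rests of the three classes

* `plQ` : places of the classes; **`ac_pl`** : rests with companions are charged by the rests of the pairs;
* `nmO_q`, `wnV_q` : the numbers; **`hlq_of`** : `HlQ` for the three classes.
-/

set_option autoImplicit false

open MeasureTheory Filter Topology Set ComplexConjugate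
open scoped ENNReal NNReal BoundedContinuousFunction

namespace Pool.Agent.ROT.F3E

open Pool.Agent.ROT.F3 Pool.Agent.ROT.F3.CC Pool.Agent.ROT.F3.CK Pool.Agent.ROT.F3.LF Pool.Agent.ROT.F3.Bt Pool.Agent.ROT.F3.Mk
  Pool.Agent.ROT.F3.Q12

/-- the places of the classes -/
def plQ (a : Fin 3) : J3 := ![(0, false), (0, true), (2, true)] a

lemma cl3_plQ (a : Fin 3) : cl3 (plQ a) = a := by
  fin_cases a <;> rfl

lemma cz0_meas (P : Prm) (i j : Fin 3) (ρ : ℝ) : MeasurableSet (cZ0 P i j ρ) := by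
  unfold cZ0 Z0E
  exact Metric.isOpen_ball.measurableSet

lemma cw0_meas (P : Prm) (i j : Fin 3) (ρ : ℝ) : MeasurableSet (cW0 P i j ρ) := by
  unfold cW0 Z0E
  exact Metric.isOpen_ball.measurableSet

/-- the rests with companions are measurable -/
lemma tq_meas {P : Prm} {ρ : ℝ} {β : Fin 3 → Measure Pie} (fβ : ∀ a, IsFiniteMeasure (β a)) (a : Fin 3) :
    MeasurableSet (TQ P ρ β a) := by
  have := fβ 0
  have := fβ 1
  unfold TQ
  split_ifs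
  · exact tt_meas (cz0_meas ..) (cw0_meas ..)
  · exact tts_meas (cz0_meas ..) (cw0_meas ..)
  · exact tts_meas (cz0_meas ..) (cw0_meas ..)

/-- **the rests with companions are charged by the rests of the pairs** -/
lemma ac_pl {P : Prm} {ρ : ℝ} {β : Fin 3 → Measure Pie} (fβ : ∀ a, IsFiniteMeasure (β a)) {T : Fin 3 → CC.Gm → Fin 8 → ℝ}
    (mT : ∀ k, Measurable (T k)) {μ : Measure CC.Gm} {w : Fin 3 → CC.Gm → ℝ≥0∞}
    (zf : ∀ k, ((β (fA k)).prod ((β (fB k)).prod volume)).restrict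
      (DD Prod.fst Prod.fst yP yP (cZ0 P (fA k) (fB k) ρ) (cW0 P (fA k) (fB k) ρ)) ≪ ((μ.withDensity (w k)).map (dat (T k))).map Prod.snd)
    (a : Fin 3) : (β a).restrict (TQ P ρ β a) ≪ (μ.withDensity (w (plQ a).1)).map (rJ T (plQ a)) := by
  have f0 := fβ 0
  have f1 := fβ 1
  have f2 := fβ 2
  have key1 := fun k => (zf k)
  have m1 : Measurable fun q : Pie × (Pie × ℂ) => q.2.1 := by fun_prop
  fin_cases a
  · have h1 := ac_fst' (dd_pie (cz0_meas P 0 1 ρ) (cw0_meas P 0 1 ρ)) (zf 0)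
    rw [Measure.map_map measurable_fst measurable_snd, Measure.map_map (measurable_fst.comp measurable_snd) (dat_meas (mT 0))] at h1
    exact h1
  · have h1 := ac_snd' (dd_pie (cz0_meas P 0 1 ρ) (cw0_meas P 0 1 ρ)) (zf 0)
    rw [Measure.map_map m1 measurable_snd, Measure.map_map (m1.comp measurable_snd) (dat_meas (mT 0))] at h1
    exact h1
  · have h1 := ac_snd' (dd_pie (cz0_meas P 1 2 ρ) (cw0_meas P 1 2 ρ)) (zf 2)
    rw [Measure.map_map m1 measurable_snd, Measure.map_map (m1.comp measurable_snd) (dat_meas (mT 2))] at h1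
    exact h1

lemma wnd_wnA (P : Prm) (a : Fin 3) : wnd P a = wnA P a := by
  unfold wnd wnA
  rfl

/-- the windows -/
lemma wnV_q (P : Prm) (O O' : Ot) (a : Fin 3) : WnV P a O O' (VwQ P O O' a) := by
  have e := wnd_wnA P a
  have v0 : (VwQ P O O' a).D0 = (wnd P a).D0 + (P.p.k + P.q.k) + (O.r + O'.r) := rfl
  have v1 : (VwQ P O O' a).D1 = (wnd P a).D1 - (P.p.k + P.q.k) - (O.r + O'.r) := rfl
  have v2 : (VwQ P O O' a).t0 = (wnd P a).t0 := rfl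
  have v3 : (VwQ P O O' a).t1 = (wnd P a).t1 - (O.lb + O'.lb) := rfl
  rw [e] at v0 v1 v2 v3
  exact ⟨by linarith, by linarith, by linarith, by linarith⟩

/-- the numbers of the outer gates -/
lemma nmO_q {P : Prm} (h : P.Ok) {ρ τ : ℝ} (hρ : 0 < ρ) (hp1 : P.p.Nr (bE ρ τ)) (hq1 : P.q.Nr (bE ρ τ)) {O O' : Ot} {Yp Yq : Tp}
    (hO : O.Nr (bO ρ τ)) (hO' : O'.Nr (bO ρ τ)) (hY : Yp.Nr (bY ρ τ)) (hY' : Yq.Nr (bY ρ τ)) (a : Fin 3) :
    NmO (19500000 * ρ) O O' Yp Yq (VwQ P O O' a) ∧ 2 * P.p.s.bn ≤ 19500000 * ρ ∧ 2 * P.q.s.bn ≤ 19500000 * ρ := by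
  have om1 : 20000000 * ρ ≤ O.m := hO.m.1
  have om1' : 20000000 * ρ ≤ O'.m := hO'.m.1
  have or2 : O.r ≤ 101 / 100 * (22000000 * ρ) := hO.r.2
  have or2' : O'.r ≤ 101 / 100 * (22000000 * ρ) := hO'.r.2
  have yg1 : 46000000 * ρ ≤ Yp.rg := hY.rg.1
  have yg1' : 46000000 * ρ ≤ Yq.rg := hY'.rg.1
  have b1 : P.p.s.bn ≤ 101 / 100 * (8000000 * ρ) := hp1.s.bn.2
  have b2 : P.q.s.bn ≤ 101 / 100 * (8000000 * ρ) := hq1.s.bn.2
  have sl : 60000000 * ρ ≤ P.p.s.len := hp1.s.len.1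
  have sl' : 60000000 * ρ ≤ P.q.s.len := hq1.s.len.1
  have w4 : 1000000000 * ρ ≤ (wnd P a).D0 := by
    by_cases ha : a = 0
    · rw [ha, wnd_zero]
      linarith [h.nr]
    · rw [wnd_ne P ha]
      linarith [h.nrc]
  have pk : 0 ≤ P.p.k := by
    have e : P.p.k = P.p.rk + P.p.f.r2 := rfl
    linarith [h.p.rk, h.p.f.r2]
  have qk : 0 ≤ P.q.k := by
    have e : P.q.k = P.q.rk + P.q.f.r2 := rfl
    linarith [h.q.rk, h.q.f.r2]
  have v0 : (VwQ P O O' a).D0 = (wnd P a).D0 + (P.p.k + P.q.k) + (O.r + O'.r) := rfl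
  have r1 : 0 ≤ O.r := by
    have : 22000000 * ρ ≤ O.r := hO.r.1
    linarith
  have r2 : 0 ≤ O'.r := by
    have : 22000000 * ρ ≤ O'.r := hO'.r.1
    linarith
  refine ⟨⟨by linarith, by linarith, by linarith, by linarith, by linarith, by linarith⟩, ?_, ?_⟩
  · linarith
  · linarith

/-- **`HlQ` for the three classes** -/
theorem hlq_of {P : Prm} (h : P.Ok) {ρ τ : ℝ} (hρ : 0 < ρ) (hp1 : P.p.Nr (bE ρ τ)) (hq1 : P.q.Nr (bE ρ τ)) {G0 H : Fin 3 → Ga}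
    {μ : Measure CC.Gm} [IsFiniteMeasure μ] {β : Fin 3 → Measure Pie} (fβ : ∀ a, IsFiniteMeasure (β a)) {C : Fin 3 → Set Pie}
    {t t' : Fin 3 → Pie → ℝ} (M : ∀ k, MkP P G0 H μ C t t' k) (ms : ∀ k, (G0 k).Ms)
    (hg : ∀ k, ∀ᵐ g ∂μ, jw0 P (fA k) (fB k) (G0 k) g ≠ 0 → 0 < g.1 ∧ (G0 k).Un g ∧ ((H k).rot P.u).Un g)
    {X : Fin 3 → Set CC.Gm} (hX : ∀ k, ∀ᵐ g ∂μ, jw0 P (fA k) (fB k) (G0 k) g ≠ 0 → g ∈ X k)
    (hPX : ∀ k, ∀ g ∈ X k, ∀ κ, PaX P (fA k) (fB k) (G0 k) κ g)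
    (zf : ∀ k, ((β (fA k)).prod ((β (fB k)).prod volume)).restrict
      (DD Prod.fst Prod.fst yP yP (cZ0 P (fA k) (fB k) ρ) (cW0 P (fA k) (fB k) ρ)) ≪
        ((μ.withDensity (jw0 P (fA k) (fB k) (G0 k))).map (dat (jT (G0 k)))).map Prod.snd)
    {S S' : Fin 3 → Set Pie}
    (hS : ∀ a, SaH P (fA (plQ a).1) (fB (plQ a).1) (G0 (plQ a).1) ((H (plQ a).1).rot P.u) (kS (plQ a).2) (19500000 * ρ)
      (X (plQ a).1) (S a))
    (hS' : ∀ a, SaH P (fA (plQ a).1) (fB (plQ a).1) (G0 (plQ a).1) ((H (plQ a).1).rot P.u) (kE (plQ a).2) (19500000 * ρ)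
      (X (plQ a).1) (S' a))
    {O O' : Ot} {Yp Yq : Tp} (hO : O.Nr (bO ρ τ)) (hO' : O'.Nr (bO ρ τ)) (hY : Yp.Nr (bY ρ τ)) (hY' : Yq.Nr (bY ρ τ)) (a : Fin 3) :
    HlQ P ρ O O' Yp Yq (VwQ P O O' a) β a (S a) (S' a) (C a) (t a) (t' a) := by
  intro bh fb h1 h2 h3
  obtain ⟨n1, n2, n3⟩ := nmO_q h hρ hp1 hq1 hO hO' hY hY' a
  have hfin : IsFiniteMeasure (μ.withDensity (jw0 P (fA (plQ a).1) (fB (plQ a).1) (G0 (plQ a).1))) := by
    refine isFiniteMeasure_withDensity (ne_top_of_le_ne_top (measure_ne_top μ univ) ?_)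
    calc ∫⁻ g, jw0 P (fA (plQ a).1) (fB (plQ a).1) (G0 (plQ a).1) g ∂μ ≤ ∫⁻ _, 1 ∂μ := by
          refine lintegral_mono fun g => ?_
          unfold jw0
          rw [← ENNReal.ofReal_one]
          refine ENNReal.ofReal_le_ofReal ?_
          by_cases hm : g ∈ jK0 P (fA (plQ a).1) (fB (plQ a).1) (G0 (plQ a).1)
          · rw [bi_pos hm]
          · rw [bi_neg hm]; exact zero_le_one
      _ = μ univ := by rw [lintegral_one]
  have h2' : ∀ᵐ x ∂bh, x ∈ EP (ev a) (ev (-a)) O O' Yp Yq (VwQ P O O' a) := h2.mono fun x hx => (epc_iff (x := x)).2 hx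
  have key := hloc_pl (j := plQ a) h (M (plQ a).1) (hg (plQ a).1) (jw0_ms h (fA_ne _) (ms _)) (fun k => jT_ms (ms k)) n2 n3 (hX (plQ a).1)
    (fun g hg' => hPX (plQ a).1 g hg' _) (fun g hg' => hPX (plQ a).1 g hg' _) (hS a) (hS' a) (ev_norm a) (ev_norm (-a)) n1
    (by rw [cl3_plQ]; exact wnV_q P O O' a)
    (ac_pl fβ (fun k => jT_ms (ms k)) zf a) (tq_meas fβ a) h1 h2' h3
  rw [cl3_plQ] at key
  exact key

end Pool.Agent.ROT.F3E
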