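import Pool.Agent.ROT.F3Fin8
import Pool.Agent.ROT.F3Q12h
import Pool.Agent.ROT.F3SA
import Pool.Agent.ROT.F3BetaB
import Pool.Agent.ROT.F3HLocM

/-!
# ROT, F3 (helper76): the positivity of the companions, from the output of the marks

* `AEv.qn` : the numbers; `qin_of` : the limits of the blocks;
* **`qpos_row`** : `QPos 0 1 3` and `QPos 1 2 5` for almost all data.
-/

set_option autoImplicit false

open MeasureTheory Filter Topology Set ComplexConjugate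
open scoped ENNReal NNReal BoundedContinuousFunction

namespace Pool.Agent.ROT.F3E

open Pool.Agent.ROT.F3 Pool.Agent.ROT.F3.CC Pool.Agent.ROT.F3.CK Pool.Agent.ROT.F3.LF Pool.Agent.ROT.F3.Bt Pool.Agent.ROT.F3.Mk
  Pool.Agent.ROT.F3.Q12
open Pool.Agent.ROT.F (Nm nm_bd nm_ratio nm_top QB)
open Pool.Agent.ROT.F3.Gn

/-! ### 1. The numbers -/

lemma loH_mono {a b : ℝ} (ha : 0 < a) (h : a ≤ b) : loH a ≤ loH b := by
  have h0 := H0_one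
  have hH : (1 : ℝ) ≤ H0 := by exact_mod_cast H0_one
  unfold loH
  refine Real.rpow_le_rpow (by positivity) ?_ (by norm_num)
  refine div_le_div_of_nonneg_right ?_ (by positivity)
  linarith

/-- two scales of durations of the same data -/
lemma near_tau {z z' : ℂ} {ρ ρ' τ τ' : ℝ} {P : Prm} (h : NearP z ρ τ P) (h' : NearP z' ρ' τ' P) : τ ≤ 101 / 100 * τ' := by
  have h1 : 1 * τ ≤ P.p.lk := h.p.lk.1
  have h2 : P.p.lk ≤ 101 / 100 * (1 * τ') := h'.p.lk.2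
  linarith

lemma bO_nr {ρ τ : ℝ} (hρ : 0 < ρ) (hτ : 0 < τ) : (bO ρ τ).Nr (bO ρ τ) := by
  have w : ∀ x : ℝ, 0 < x → Wi x x := fun x hx => ⟨le_rfl, by linarith⟩
  constructor <;> exact w _ (by unfold bO; positivity)

lemma bY_nr {ρ τ : ℝ} (hρ : 0 < ρ) (hτ : 0 < τ) : (bY ρ τ).Nr (bY ρ τ) := by
  have w : ∀ x : ℝ, 0 < x → Wi x x := fun x hx => ⟨le_rfl, by linarith⟩
  constructor <;> exact w _ (by unfold bY; positivity)

/-- `A ρ ^ (4 / 3) ≤ B` for small `ρ` -/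
lemma rp_small {A B : ℝ} (hA : 0 < A) (hB : 0 < B) : ∃ ε : ℝ, 0 < ε ∧ ∀ ρ : ℝ, 0 < ρ → ρ ≤ ε → A * ρ ^ (4 / 3 : ℝ) ≤ B := by
  refine ⟨(B / A) ^ (3 / 4 : ℝ), Real.rpow_pos_of_pos (div_pos hB hA) _, fun ρ hρ h => ?_⟩
  have h2 := Real.rpow_le_rpow hρ.le h (show (0 : ℝ) ≤ 4 / 3 by norm_num)
  rw [← Real.rpow_mul (div_pos hB hA).le, show (3 / 4 : ℝ) * (4 / 3) = 1 by norm_num, Real.rpow_one, le_div_iff₀ hA] at h2
  linarith

/-- the numbers of `q_nums` and of `sa_ex` -/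
structure QNm (A Bl : ℝ) (P : Prm) (ρ τ : ℝ) : Prop where
  rt : ρ ≤ τ
  r1 : ρ ≤ 1
  A : A * ρ ^ (4 / 3 : ℝ) ≤ τ
  B : Bl * ρ ^ (4 / 3 : ℝ) ≤ 1
  t0 : P.W.t0 ≤ loH (ρ / 10000)
  t1 : 3 * τ ≤ P.W.t1
  tc : 3 * τ ≤ P.Wc.t1
  w : ∃ k K : ℝ, P.W.D0 ≤ k ∧ K ≤ P.W.D1 ∧ 8 * k ≤ K

/-- **the numbers, for every scale of almost all data** -/
theorem AEv.qn {z : ℂ} {τ A Bl : ℝ} (hτ : 0 < τ) (hA : 0 < A) (hB : 0 < Bl) : AEv z τ fun U P =>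
    P.Ok ∧ P.u = z ∧ (U : Filter ℕ) ≤ atTop ∧ ∀ ρ τ' : ℝ, 0 < ρ → 0 < τ' → NearP z ρ τ' P → QNm A Bl P ρ τ' := by
  obtain ⟨e1, he1, h1⟩ := rp_small hA (B := τ / 2) (by positivity)
  obtain ⟨e2, he2, h2⟩ := rp_small hB (B := 1) one_pos
  refine ⟨1, max 8 (4 * τ), one_pos, lt_max_of_lt_left (by norm_num), fun k K hk hk1 hK => ?_⟩
  refine ⟨min (min (e1 / 2) (e2 / 2)) (min (τ / 4) (1 / 2)), by positivity, fun ρ hρ hρ0 U hU => ?_⟩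
  have q1 : ρ ≤ e1 / 2 := hρ0.trans ((min_le_left _ _).trans (min_le_left _ _))
  have q2 : ρ ≤ e2 / 2 := hρ0.trans ((min_le_left _ _).trans (min_le_right _ _))
  have q3 : ρ ≤ τ / 4 := hρ0.trans ((min_le_right _ _).trans (min_le_left _ _))
  have q4 : ρ ≤ 1 / 2 := hρ0.trans ((min_le_right _ _).trans (min_le_right _ _))
  have K8 : 8 ≤ K := (le_max_left _ _).trans hK
  have K4 : 4 * τ ≤ K := (le_max_right _ _).trans hK
  refine ⟨fun _ => loH (ρ / 20000), fun _ => loH_pos (by positivity), fun B hB => gP_win.mono fun P hP ht => ?_⟩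
  obtain ⟨b1, b2, b3, b4⟩ := hB P hP
  refine ⟨b1, b2.u, hU, fun ρ' τ' hρ' hτ' hn => ?_⟩
  have n1 := near_le hn b2
  have n2 := near_le b2 hn
  have n3 := near_tau hn b2
  have n4 := near_tau b2 hn
  exact
    { rt := by linarith
      r1 := by linarith
      A := by
        have := h1 ρ' hρ' (by linarith)
        linarith
      B := h2 ρ' hρ' (by linarith)
      t0 := ht.trans (loH_mono (by positivity) (by linarith))
      t1 := by linarith [b3.t1]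
      tc := by linarith
      w := ⟨k, K, b3.D0, b3.D1, by linarith⟩ }

/-! ### 2. The gates of the pairs -/

/-- the arms of the places -/
lemma eA_kS (e : Bool) : eA (CK.kS e) = false := by cases e <;> rfl

lemma eA_kE (e : Bool) : eA (kE e) = true := by cases e <;> rfl

lemma clA_kS (a : Fin 3) : clA (fA (plQ a).1) (fB (plQ a).1) (CK.kS (plQ a).2) = a := by fin_cases a <;> rfl

lemma clA_kE (a : Fin 3) : clA (fA (plQ a).1) (fB (plQ a).1) (kE (plQ a).2) = a := by fin_cases a <;> rfl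

/-! ### 3. The row -/

/-- the limit of the blocks -/
lemma kap_ex {O : Ot} (hr : 0 ≤ O.r) (hm : 0 < O.m) (i : Fin 3) {V : Ultrafilter ℕ} (hV : (V : Filter ℕ) ≤ atTop) :
    ∃ κ : Measure Pie, IsFiniteMeasure κ ∧ ∀ g : Pie →ᵇ ℝ,
      Tendsto (fun N : ℕ => ∫ x, g x ∂(rm 1 N (uT N) (OtB (ev i) O N (uT N)) fun _ => 1)) V (𝓝 (∫ x, g x ∂κ)) := by
  obtain ⟨m, h1, h2, -⟩ := ot_lim hr hm (i := i) (Bs := fun N => OtB (ev i) O N (uT N)) (w := fun _ _ => 1)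
    (Eventually.of_forall fun N R _ => le_rfl) V hV (Eventually.of_forall fun N => Subset.rfl)
  exact ⟨m, h1.fβ, h2⟩

/-- **`QPos` from the output of the marks** -/
theorem qpos_mo {A Bl c1 Ab φ : ℝ} (hc1 : 0 < c1)
    (sa : ∀ (i : Fin 3) (u : ℂ), ‖u‖ = 1 → ‖u - 1‖ ≤ φ → ∀ (ρ τ b cd : ℝ) (E : En) (O : Ot) (U : Ultrafilter ℕ)
      (PG : Measure CC.Gm) (Gd : Set CC.Gm) (G0 G1 : F3.GP) (y : ℕ → W3 × ℕ → ℝ) (Λ : CC.Gm → ℝ) (B0 B1 : Set CC.Gm)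
      (Pc0 Pg0 Pc1 Pg1 : CC.Gm → ℝ) (mn : Prop), 0 < ρ → 0 < τ → A * ρ ^ (4 / 3 : ℝ) ≤ τ → Bl * ρ ^ (4 / 3 : ℝ) ≤ b →
      E.Nr (bE ρ τ) → O.Nr (bO ρ τ) → (U : Filter ℕ) ≤ atTop → LF.Cv (U : Filter ℕ) (fun N => mwE N b) cN PG →
      (∀ v : ℂ, ‖v‖ = 1 → PG.map (rotX v) = PG) → (∀ᵐ g ∂PG, 0 < g.1) → cd < 1000000000 * ρ →
      OneIn (U : Filter ℕ) b PG i u E cd Gd G0 G1 y Λ B0 B1 Pc0 Pg0 Pc1 Pg1 →
      ∃ (S : Set Pie) (μ : Measure Pie) (e0 : ℝ),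
        SaO (U : Filter ℕ) c1 Ab ρ i O (SaSet Gd i u E mn (19500000 * ρ) B0 B1 Pg0 Pc1 Pg1) S μ e0)
    {U : Ultrafilter ℕ} (hU : (U : Filter ℕ) ≤ atTop) {P : Prm} (h : P.Ok) (hφ : ‖P.u - 1‖ ≤ φ) (hu8 : ‖P.u - 1‖ ≤ 1 / 100000000)
    {β b : Fin 3 → Measure Pie} {t t' : Fin 3 → Pie → ℝ} {C : Fin 3 → Set Pie} {D : MDat}
    (H : ClsL (U.map Nm : Ultrafilter ℕ) P β b) (mt : ∀ a, Measurable (t a)) (mt' : ∀ a, Measurable (t' a))
    (mC : ∀ a, MeasurableSet (C a)) (M : MOut U P β b t t' C D) (n : QNm A Bl P D.ρ D.τ) :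
    QPos P D.ρ β t t' C 0 1 3 ∧ QPos P D.ρ β t t' C 1 2 5 := by
  have hρ := M.ρ0
  have hτ := M.τ0
  have hn := M.near
  have hV := nm_map_top hU
  have hO := bO_nr hρ hτ
  have hY := bY_nr hρ hτ
  have hfin := M.fin
  obtain ⟨k, K, w1, w2, w3⟩ := n.w
  obtain ⟨n1, n2⟩ := q_nums h hρ n.rt n.r1 hn.p hn.q w1 w2 w3 hO hO hY hY n.t0 n.t1 n.tc
  have enr : ∀ E : Bool, (enB P E).Nr (bE D.ρ D.τ) := fun E => by
    cases E
    · exact hn.p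
    · exact hn.q
  have hb : Bl * D.ρ ^ (4 / 3 : ℝ) ≤ D.bb := n.B.trans (by exact_mod_cast M.bb1)
  have hsa : ∀ (E : Bool) (a : Fin 3), ∃ (S : Set Pie) (μ : Measure Pie) (e0 : ℝ),
      SaO ((U.map Nm : Ultrafilter ℕ) : Filter ℕ) c1 Ab D.ρ (dxB E a) (bO D.ρ D.τ) (D.SaY P True E a) S μ e0 := fun E a =>
    sa (dxB E a) P.u h.u hφ D.ρ D.τ D.bb D.c0 (enB P E) (bO D.ρ D.τ) (U.map Nm) (PGl (U.map Nm) D.bb) D.X (D.K0 E) (D.K1 E)
      (D.y E a .fp) _ _ _ _ _ _ _ True hρ hτ n.A hb (enr E) hO hV M.cv M.inv (M.aep.mono fun g hg => hg.1.trans hg.2) M.c0.2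
      (M.gen.one E a)
  choose S μS e0 hS using hsa
  have om : 0 < (bO D.ρ D.τ).m := by unfold bO; positivity
  have or : 0 ≤ (bO D.ρ D.τ).r := by unfold bO; positivity
  have hκ := fun i : Fin 3 => kap_ex or om i hV
  choose κ fκ lκ using hκ
  have hne : ∀ E a, κ (dxB E a) (S E a) ≠ 0 := fun E a h0 => by
    have h1 := (hS E a).kap (κ (dxB E a)) (fκ _) (lκ _)
    rw [h0] at h1
    exact absurd h1 (not_le.2 (ENNReal.ofReal_pos.2 hc1))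
  have hi : ∀ a, QIn (U.map Nm) (bO D.ρ D.τ) (bO D.ρ D.τ) a (κ a) (κ (-a)) (S false a) (S true a) := fun a =>
    ⟨fκ _, fκ _, lκ _, lκ _, (hS false a).ms, (hS true a).ms, hne false a, hne true a⟩
  have aeX := M.gen.aeX
  refine qpos_pic h hρ hn.p hn.q hu8 hV H n1 n2 hi mt mt' mC M.vc fun a => ?_
  refine hlq_of h hρ hn.p hn.q (G0 := D.G0) (H := D.H) (μ := PGl (U.map Nm) D.bb) H.fβ M.m3 (fun k => prG_ms M.gen.ms0 _ _)
    (fun k => aeX.mono fun g hg _ => ⟨(M.gen.pos g hg).1.trans (M.gen.pos g hg).2.1, prG_un (fun E a => M.gen.un0 E a g hg) _ _,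
      prG_unr (fun E a => M.gen.un1 E a g hg) _ _⟩)
    (X := D.Xk P) (fun k => aeX.mono fun g hg h0 => ⟨hg, h0⟩)
    (fun k g hg κ => paX_of h ((M.gen.pos g hg.1).1.trans (M.gen.pos g hg.1).2.1) ((M.gen.jh k g hg.1).c0 (jw0_mem hg.2)) κ)
    (fun k => (M.zf k).2.2) (fun a => ?_) (fun a => ?_) hO hO hY hY a
  · refine saH_mo h hn hρ M.gen _ _ ?_
    rw [eA_kS, clA_kS]
    exact (hS false a).sub
  · refine saH_mo h hn hρ M.gen _ _ ?_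
    rw [eA_kE, clA_kE]
    exact (hS true a).sub

/-- **the row** -/
theorem qpos_row (hQ : QB) : ∃ φ : ℝ, 0 < φ ∧ ∀ z : ℂ, ‖z‖ = 1 → ‖z - 1‖ ≤ φ → QpRow z := by
  obtain ⟨c1, Ab, Bl, φ, A', hc1, -, hBl, hφ, hA', sa⟩ := sa_ex hQ
  refine ⟨min φ (1 / 100000000), lt_min hφ (by norm_num), fun z hz hz1 => ⟨1, one_pos, fun τ hτ _ => ?_⟩⟩
  refine (AEv.qn (z := z) hτ hA' hBl).mono fun U P ⟨h, hu, hU, hn⟩ β b t t' C D H mt mt' mC M => ?_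
  have hu1 : ‖P.u - 1‖ ≤ min φ (1 / 100000000) := by rw [hu]; exact hz1
  refine qpos_mo hc1 sa hU h (hu1.trans (min_le_left _ _)) (hu1.trans (min_le_right _ _)) H mt mt' mC M ?_
  exact hn D.ρ D.τ M.ρ0 M.τ0 (by rw [← hu]; exact M.near)

/-- **product form, order and durations of the marks**, for all rotations near the identity -/
theorem crRow (hQ : QB) : ∃ φ : ℝ, 0 < φ ∧ ∀ z : ℂ, ‖z‖ = 1 → ‖z - 1‖ ≤ φ → CrRow z MO := crRow_all (qpos_row hQ)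

end Pool.Agent.ROT.F3E

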