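import Pool.Agent.ROT.F3GenY
import Pool.Agent.ROT.F3MkRow
import Pool.Agent.ROT.F3LocS
import Pool.Agent.ROT.F3CoreAll
import Pool.Agent.ROT.F3Q12i
import Pool.Agent.ROT.F3Low2R

/-!
# ROT, block F3: the scaling limits of the self-avoiding walk on the hexagonal lattice are invariant under all rotations

**`rotW : RotW`** : every limit law of the rescaled `n`-step self-avoiding walk is invariant under all rotations of the plane; from the
four rows (marks, cross ratio, lower bound, locality) of the marks for the rotations near `1`.
-/

set_option autoImplicit false

namespace Pool.Agent.ROT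

open F3E

/-- **all scaling limits of the self-avoiding walk on the hexagonal lattice are invariant under all rotations** -/
theorem rotW : RotW := by
  obtain ⟨φ1, h1, H1⟩ := crRow F.qb
  obtain ⟨φ2, h2, H2⟩ := low2Row F.qb
  exact rotW_rowsMO (lt_min h1 h2) fun z hz a b => ⟨mkRow_of b (genRow hz b), H1 z hz (a.trans (min_le_left _ _)),
    H2 z hz (a.trans (min_le_right _ _)), locRow z⟩

end Pool.Agent.ROT
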