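import Pool.Agent.ROT.ADefs

/-!
# ROT, block A: family sums, and the responses replaced by the constants (helper28)
-/

set_option autoImplicit false

open Finset Filter Topology

namespace Pool.Agent.ROT.A

namespace PSys

variable (S : PSys) {I : Type} [Fintype I] [DecidableEq I]

/-! ### family sums -/

section fs

variable (n : ℕ) (τ : I → I → Bool)

theorem fsum_add (Θ Θ' : (I → S.P) → ℝ) :
    S.fsum n τ (fun γ => Θ γ + Θ' γ) = S.fsum n τ Θ + S.fsum n τ Θ' := by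
  classical
  rw [fsum, fsum, fsum, ← sum_add_distrib]
  refine sum_congr rfl fun γ _ => ?_
  split_ifs
  · ring
  · ring

theorem fsum_mul (c : ℝ) (Θ : (I → S.P) → ℝ) : S.fsum n τ (fun γ => c * Θ γ) = c * S.fsum n τ Θ := by
  classical
  rw [fsum, fsum, mul_sum]
  refine sum_congr rfl fun γ _ => ?_
  split_ifs
  · ring
  · ring

theorem fsum_sub (Θ Θ' : (I → S.P) → ℝ) :
    S.fsum n τ (fun γ => Θ γ - Θ' γ) = S.fsum n τ Θ - S.fsum n τ Θ' := by
  have h := S.fsum_add n τ Θ (fun γ => (-1) * Θ' γ)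
  rw [S.fsum_mul n τ (-1) Θ'] at h
  have e : (fun γ => Θ γ - Θ' γ) = fun γ => Θ γ + (-1) * Θ' γ := by
    funext γ
    ring
  rw [e, h]
  ring

theorem fsum_zero : S.fsum n τ (fun _ => 0) = 0 := by
  have h := S.fsum_mul n τ 0 (fun _ => 0)
  simpa using h

theorem fsum_sum {ι : Type*} (s : Finset ι) (Θ : ι → (I → S.P) → ℝ) :
    S.fsum n τ (fun γ => ∑ j ∈ s, Θ j γ) = ∑ j ∈ s, S.fsum n τ (Θ j) := by
  classical
  induction s using Finset.induction_on with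
  | empty => simp [fsum_zero]
  | insert j s hj ih =>
    rw [sum_insert hj, ← ih, ← fsum_add]
    congr 1
    funext γ
    rw [sum_insert hj]

variable {n τ}

theorem fsum_congr {Θ Θ' : (I → S.P) → ℝ} (h : ∀ γ, (∀ i, γ i ∈ S.box n) → S.Pt τ γ → Θ γ = Θ' γ) :
    S.fsum n τ Θ = S.fsum n τ Θ' := by
  classical
  rw [fsum, fsum]
  refine sum_congr rfl fun γ hγ => ?_
  split_ifs with hp
  · rw [h γ (fun i => Fintype.mem_piFinset.1 hγ i) hp]
  · rfl

theorem fsum_mono {Θ Θ' : (I → S.P) → ℝ} (h : ∀ γ, (∀ i, γ i ∈ S.box n) → S.Pt τ γ → Θ γ ≤ Θ' γ) :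
    S.fsum n τ Θ ≤ S.fsum n τ Θ' := by
  classical
  rw [fsum, fsum]
  refine sum_le_sum fun γ hγ => ?_
  split_ifs with hp
  · exact mul_le_mul_of_nonneg_left (h γ (fun i => Fintype.mem_piFinset.1 hγ i) hp)
      (prod_nonneg fun i _ => S.M_nn _)
  · exact le_rfl

theorem abs_fsum_le {Θ Θ' : (I → S.P) → ℝ} (h : ∀ γ, (∀ i, γ i ∈ S.box n) → S.Pt τ γ → |Θ γ| ≤ Θ' γ) :
    |S.fsum n τ Θ| ≤ S.fsum n τ Θ' := by
  rw [abs_le]
  constructor
  · have h1 := S.fsum_mono (n := n) (τ := τ) (Θ := fun γ => (-1) * Θ' γ) (Θ' := Θ) fun γ h1 h2 => by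
      have := (abs_le.1 (h γ h1 h2)).1
      linarith
    rw [fsum_mul] at h1
    linarith
  · exact S.fsum_mono fun γ h1 h2 => (abs_le.1 (h γ h1 h2)).2

end fs

/-! ### test functions -/

section tf

variable {K δ : ℝ} {Φ : (I → Fin 4 → ℝ) → ℝ}

omit [DecidableEq I] [Fintype I] in
theorem isClosed_Sup : IsClosed {h : I → Fin 4 → ℝ | Sup K δ h} := by
  have e : {h : I → Fin 4 → ℝ | Sup K δ h} = (⋂ i, ⋂ u, {h | |h i u| ≤ K}) ∩
      ⋂ i, ({h | δ ≤ h i 1 - h i 0} ∩ {h | δ ≤ h i 3 - h i 2}) := by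
    ext h
    simp only [Set.mem_inter_iff, Set.mem_iInter]
    exact Iff.rfl
  rw [e]
  refine IsClosed.inter (isClosed_iInter fun i => isClosed_iInter fun u => ?_)
    (isClosed_iInter fun i => IsClosed.inter ?_ ?_)
  · exact isClosed_le (by fun_prop) continuous_const
  · exact isClosed_le continuous_const (by fun_prop)
  · exact isClosed_le continuous_const (by fun_prop)

omit [DecidableEq I] in
theorem Tf.tsup (h : Tf K δ Φ) : tsupport Φ ⊆ {x | Sup K δ x} :=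
  closure_minimal (fun x hx => h.sup x hx) isClosed_Sup

omit [DecidableEq I] in
theorem Tf.cpt (h : Tf K δ Φ) : HasCompactSupport Φ := by
  refine HasCompactSupport.of_support_subset_isCompact (K := Metric.closedBall 0 (max K 0)) (isCompact_closedBall _ _) ?_
  intro x hx
  rw [mem_closedBall_zero_iff, pi_norm_le_iff_of_nonneg (le_max_right _ _)]
  intro i
  rw [pi_norm_le_iff_of_nonneg (le_max_right _ _)]
  intro u
  exact ((h.sup x hx).1 i u).trans (le_max_left _ _)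

theorem Tf.pd_C1 (h : Tf K δ Φ) (i : I) (u : Fin 4) : ContDiff ℝ 1 fun x => pd Φ x i u := by
  have h1 : ContDiff ℝ 1 (fderiv ℝ Φ) := h.smooth.fderiv_right (by norm_num)
  exact h1.clm_apply contDiff_const

theorem Tf.pd_sup (h : Tf K δ Φ) {i : I} {u : Fin 4} {x : I → Fin 4 → ℝ} (hx : pd Φ x i u ≠ 0) : Sup K δ x := by
  refine h.tsup (support_fderiv_subset ℝ ?_)
  intro h0
  exact hx (by rw [pd, h0]; rfl)

theorem Tf.pd_cpt (h : Tf K δ Φ) (i : I) (u : Fin 4) : HasCompactSupport fun x => pd Φ x i u := by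
  refine HasCompactSupport.mono (HasCompactSupport.fderiv ℝ h.cpt) (fun x hx => ?_)
  intro h0
  refine hx ?_
  change fderiv ℝ Φ x (Pi.single i (Pi.single u 1)) = 0
  rw [h0]
  rfl

/-- clamp to `[-K, K]` -/
noncomputable def clamp (K e : ℝ) : ℝ := max (-K) (min e K)

theorem clamp_eq {K e : ℝ} (h : |e| ≤ K) : clamp K e = e := by
  rw [abs_le] at h
  rw [clamp, min_eq_left h.2, max_eq_right h.1]

theorem abs_clamp_le {K : ℝ} (hK : 0 ≤ K) (e : ℝ) : |clamp K e| ≤ K := by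
  rw [abs_le]
  exact ⟨le_max_left _ _, max_le (by linarith) (min_le_right _ _)⟩

theorem clamp_lip (K e e' : ℝ) : |clamp K e - clamp K e'| ≤ |e - e'| := by
  have h1 := abs_max_sub_max_le_abs (min e K) (min e' K) (-K)
  have h2 := abs_min_sub_min_le_max e K e' K
  rw [sub_self, abs_zero, max_eq_left (abs_nonneg _)] at h2
  rw [clamp, clamp, max_comm (-K) _, max_comm (-K) _]
  exact h1.trans h2

/-- `C^1` with compact support: bounded and Lipschitz with one constant -/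
theorem bl_of_C1 {E : Type*} [NormedAddCommGroup E] [NormedSpace ℝ E] {f : E → ℝ} (h1 : ContDiff ℝ 1 f)
    (h2 : HasCompactSupport f) : ∃ Λ : NNReal, LipschitzWith Λ f ∧ ∀ x, |f x| ≤ Λ := by
  obtain ⟨C, hC⟩ := ContDiff.lipschitzWith_of_hasCompactSupport h2 h1 one_ne_zero
  obtain ⟨D, hD⟩ := h1.continuous.bounded_above_of_compact_support h2
  refine ⟨max C (Real.toNNReal D), hC.weaken (le_max_left _ _), fun x => ?_⟩
  have h3 := hD x
  rw [Real.norm_eq_abs] at h3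
  refine (h3.trans (Real.le_coe_toNNReal D)).trans ?_
  exact_mod_cast le_max_right _ _

theorem Tf.th1 (h : Tf K δ Φ) (i : I) (u : Fin 4) :
    ∃ Λ : NNReal, LipschitzWith Λ (fun x : (I → Fin 4 → ℝ) × ℝ => x.1 i u * pd Φ x.1 i u) ∧
      ∀ x : (I → Fin 4 → ℝ) × ℝ, |x.1 i u * pd Φ x.1 i u| ≤ Λ := by
  have h1 : ContDiff ℝ 1 fun x : I → Fin 4 → ℝ => x i u * pd Φ x i u := by
    refine ContDiff.mul ?_ (h.pd_C1 i u)
    fun_prop
  obtain ⟨Λ, hL, hB⟩ := bl_of_C1 h1 (h.pd_cpt i u).mul_left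
  refine ⟨Λ, ?_, fun x => hB x.1⟩
  have := hL.comp (LipschitzWith.prod_fst (α := I → Fin 4 → ℝ) (β := ℝ))
  rw [mul_one] at this
  exact this

theorem Tf.th2 (h : Tf K δ Φ) (i : I) (u : Fin 4) {A : ℝ} (hA : 0 ≤ A) :
    ∃ Λ : NNReal, LipschitzWith Λ (fun x : (I → Fin 4 → ℝ) × ℝ => clamp A x.2 * pd Φ x.1 i u) ∧
      ∀ x : (I → Fin 4 → ℝ) × ℝ, |clamp A x.2 * pd Φ x.1 i u| ≤ Λ := by
  obtain ⟨Λ, hL, hB⟩ := bl_of_C1 (h.pd_C1 i u) (h.pd_cpt i u)
  refine ⟨Real.toNNReal (A * Λ + Λ), LipschitzWith.of_dist_le_mul fun x y => ?_, fun x => ?_⟩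
  · rw [Real.coe_toNNReal _ (by positivity), Real.dist_eq]
    have e1 : |x.2 - y.2| ≤ dist x y := by
      rw [← Real.dist_eq]
      exact le_max_right _ _
    have e2 : |pd Φ x.1 i u - pd Φ y.1 i u| ≤ Λ * dist x y := by
      rw [← Real.dist_eq]
      refine (hL.dist_le_mul x.1 y.1).trans ?_
      exact mul_le_mul_of_nonneg_left (le_max_left _ _) Λ.2
    have e3 : clamp A x.2 * pd Φ x.1 i u - clamp A y.2 * pd Φ y.1 i u =
        clamp A x.2 * (pd Φ x.1 i u - pd Φ y.1 i u) + (clamp A x.2 - clamp A y.2) * pd Φ y.1 i u := by ring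
    rw [e3]
    refine (abs_add_le _ _).trans ?_
    rw [abs_mul, abs_mul, add_mul]
    refine add_le_add ?_ ?_
    · rw [mul_assoc]
      exact mul_le_mul (abs_clamp_le hA _) e2 (abs_nonneg _) hA
    · rw [mul_comm]
      exact mul_le_mul (hB y.1) ((clamp_lip _ _ _).trans e1) (abs_nonneg _) Λ.2
  · rw [Real.coe_toNNReal _ (by positivity), abs_mul]
    have : |clamp A x.2| * |pd Φ x.1 i u| ≤ A * Λ :=
      mul_le_mul (abs_clamp_le hA _) (hB x.1) (abs_nonneg _) hA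
    have h3 : (0 : ℝ) ≤ Λ := Λ.2
    linarith

end tf

/-! ### the responses are replaced by the constants -/

theorem abs_hN_le {K N : ℕ} {p : S.P} (hp : p ∈ S.box (K * N)) (u : Fin 4) : |S.hN N p u| ≤ K := by
  have h1 := (S.mem_box _ _).1 hp u
  have h2 : |(S.ht p u : ℝ)| ≤ (K : ℝ) * N := by exact_mod_cast h1
  rw [hN, abs_div, Nat.abs_cast]
  rcases Nat.eq_zero_or_pos N with h | h
  · subst h
    simp
  · rw [div_le_iff₀ (by exact_mod_cast h)]
    exact h2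

theorem abs_eN_le {K N : ℕ} {p : S.P} (hp : p ∈ S.box (K * N)) (u : Fin 4) : |S.eN N p u| ≤ K := by
  have h1 := (S.mem_box _ _).1 hp
  have h2 : |S.ex p u| ≤ ((K * N : ℕ) : ℤ) := by
    have a0 := abs_le.1 (h1 0)
    have a1 := abs_le.1 (h1 1)
    have a2 := abs_le.1 (h1 2)
    have a3 := abs_le.1 (h1 3)
    obtain ⟨⟨b1, b2⟩, b3, b4⟩ := S.ex01 p
    obtain ⟨⟨c1, c2⟩, c3, c4⟩ := S.ex23 p
    rw [abs_le]
    fin_cases u
    · exact ⟨a2.1.trans b1, b2.trans a3.2⟩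
    · exact ⟨a2.1.trans b3, b4.trans a3.2⟩
    · exact ⟨a0.1.trans c1, c2.trans a1.2⟩
    · exact ⟨a0.1.trans c3, c4.trans a1.2⟩
  have h3 : |(S.ex p u : ℝ)| ≤ (K : ℝ) * N := by exact_mod_cast h2
  rw [eN, abs_div, Nat.abs_cast]
  rcases Nat.eq_zero_or_pos N with h | h
  · subst h
    simp
  · rw [div_le_iff₀ (by exact_mod_cast h)]
    exact h3

/-- **column form minus row form with constant responses** -/
theorem resp {a b : ℕ → ℝ} (hE : S.EXD) (hL : S.LR3F a b) (τ : I → I → Bool) {K : ℕ} {δ : ℝ}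
    {Φ : (I → Fin 4 → ℝ) → ℝ} (hδ : 0 < δ) (hΦ : Tf K δ Φ) :
    Tendsto (fun N : ℕ => S.fsum (K * N) τ fun γ =>
      ∑ i, ∑ u, sg u * (a N * S.hN N (γ i) u + b N * S.eN N (γ i) u) *
        pd Φ (fun i => S.hN N (γ i)) i u) atTop (𝓝 0) := by
  have h0 := hE I τ K δ Φ hδ hΦ
  have h1 : ∀ i u, Tendsto (fun N : ℕ => S.fsum (K * N) τ fun γ => (S.Qf (γ i) u - a N) *
      (S.hN N (γ i) u * pd Φ (fun i => S.hN N (γ i)) i u)) atTop (𝓝 0) := by
    intro i u
    refine (hL I τ i u K δ (fun x => x.1 i u * pd Φ x.1 i u) hδ (hΦ.th1 i u) fun h e he => ?_).1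
    exact hΦ.pd_sup (right_ne_zero_of_mul he)
  have h2 : ∀ i u, Tendsto (fun N : ℕ => S.fsum (K * N) τ fun γ => (S.Cf (γ i) u - b N) *
      (clamp K (S.eN N (γ i) u) * pd Φ (fun i => S.hN N (γ i)) i u)) atTop (𝓝 0) := by
    intro i u
    refine (hL I τ i u K δ (fun x => clamp K x.2 * pd Φ x.1 i u) hδ
      (hΦ.th2 i u (Nat.cast_nonneg K)) fun h e he => ?_).2
    exact hΦ.pd_sup (right_ne_zero_of_mul he)
  have h3 : Tendsto (fun N : ℕ => (S.fsum (K * N) τ fun γ =>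
      ∑ i, ∑ u, sg u * (S.hN N (γ i) u * S.Qf (γ i) u + S.eN N (γ i) u * S.Cf (γ i) u) *
        pd Φ (fun i => S.hN N (γ i)) i u) -
      ∑ i, ∑ u, sg u * ((S.fsum (K * N) τ fun γ => (S.Qf (γ i) u - a N) *
      (S.hN N (γ i) u * pd Φ (fun i => S.hN N (γ i)) i u)) + S.fsum (K * N) τ fun γ => (S.Cf (γ i) u - b N) *
      (clamp K (S.eN N (γ i) u) * pd Φ (fun i => S.hN N (γ i)) i u))) atTop (𝓝 0) := by
    have h4 : Tendsto (fun N : ℕ => ∑ i, ∑ u, sg u * ((S.fsum (K * N) τ fun γ => (S.Qf (γ i) u - a N) *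
      (S.hN N (γ i) u * pd Φ (fun i => S.hN N (γ i)) i u)) + S.fsum (K * N) τ fun γ => (S.Cf (γ i) u - b N) *
      (clamp K (S.eN N (γ i) u) * pd Φ (fun i => S.hN N (γ i)) i u))) atTop (𝓝 (∑ _i : I, ∑ u : Fin 4, sg u * (0 + 0))) :=
      tendsto_finsetSum _ fun i _ => tendsto_finsetSum _ fun u _ => ((h1 i u).add (h2 i u)).const_mul _
    have h5 := h0.sub h4
    simpa using h5
  refine h3.congr fun N => ?_
  have e : ∀ i u, sg u * ((S.fsum (K * N) τ fun γ => (S.Qf (γ i) u - a N) *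
      (S.hN N (γ i) u * pd Φ (fun i => S.hN N (γ i)) i u)) + S.fsum (K * N) τ fun γ => (S.Cf (γ i) u - b N) *
      (clamp K (S.eN N (γ i) u) * pd Φ (fun i => S.hN N (γ i)) i u)) =
      S.fsum (K * N) τ fun γ => sg u * ((S.Qf (γ i) u - a N) *
      (S.hN N (γ i) u * pd Φ (fun i => S.hN N (γ i)) i u) + (S.Cf (γ i) u - b N) *
      (clamp K (S.eN N (γ i) u) * pd Φ (fun i => S.hN N (γ i)) i u)) := by
    intro i u
    rw [← fsum_add, ← fsum_mul]
  simp_rw [e]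
  simp_rw [← fsum_sum]
  rw [← fsum_sub]
  refine S.fsum_congr fun γ hγ _ => ?_
  rw [← sum_sub_distrib]
  refine sum_congr rfl fun i _ => ?_
  rw [← sum_sub_distrib]
  refine sum_congr rfl fun u _ => ?_
  rw [clamp_eq (S.abs_eN_le (hγ i) u)]
  ring

end PSys

end Pool.Agent.ROT.A
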