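import Pool.Agent.ROT.A0a

/-!
# ROT, block A: counting points, masses of the tracers, the size factor cancels (helper28)
-/

set_option autoImplicit false

open Finset Filter Topology

namespace Pool.Agent.ROT.A

namespace PSys

variable (S : PSys) {m : ℕ}

/-! ### counting -/

/-- the lattice points at distance `<= R0 N` -/
noncomputable def Xs (m : ℕ) (k : ℕ) : Finset (Fin m → Z2) :=
  Fintype.piFinset fun _ : Fin m => Icc (-(k : ℤ)) k ×ˢ Icc (-(k : ℤ)) k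

theorem card_Xs (k : ℕ) : ((Xs m k).card : ℝ) = (2 * k + 1) ^ (2 * m) := by
  rw [Xs, Fintype.card_piFinset, prod_const, card_product, Int.card_Icc, card_univ, Fintype.card_fin]
  have e : ((k : ℤ) + 1 - -(k : ℤ)).toNat = 2 * k + 1 := by omega
  rw [e, pow_mul]
  push_cast
  ring

theorem mem_Xs {N : ℕ} (hN : 1 ≤ N) {R0 : ℝ} (hR : 0 ≤ R0) {x : Fin m → Z2} (h : ∀ i, ‖xN N x i‖ ≤ R0) :
    x ∈ Xs m ⌊R0 * N⌋₊ := by
  have hN' : (0 : ℝ) < N := by exact_mod_cast hN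
  rw [Xs, Fintype.mem_piFinset]
  intro i
  have key : ∀ z : ℤ, |(z : ℝ) / N| ≤ R0 → z ∈ Icc (-((⌊R0 * N⌋₊ : ℕ) : ℤ)) ((⌊R0 * N⌋₊ : ℕ) : ℤ) := by
    intro z hz
    rw [abs_div, Nat.abs_cast, div_le_iff₀ hN'] at hz
    have h1 : z.natAbs ≤ ⌊R0 * N⌋₊ := by
      apply Nat.le_floor
      rw [Nat.cast_natAbs]
      exact_mod_cast hz
    rw [mem_Icc]
    omega
  have h2 := h i
  rw [Prod.norm_def, max_le_iff] at h2
  rw [mem_product]
  exact ⟨key _ h2.1, key _ h2.2⟩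

/-- a function supported in the ball has finite support: the sum is a finite sum -/
theorem tsum_Xs {N : ℕ} (hN : 1 ≤ N) {R0 : ℝ} (hR : 0 ≤ R0) {F : (Fin m → Z2) → ℝ}
    (h : ∀ x, F x ≠ 0 → ∀ i, ‖xN N x i‖ ≤ R0) : ∑' x, F x = ∑ x ∈ Xs m ⌊R0 * N⌋₊, F x :=
  tsum_eq_sum fun x hx => by
    by_contra hc
    exact hx (mem_Xs hN hR (h x hc))

theorem cnt {N : ℕ} (hN : 1 ≤ N) {R0 : ℝ} (hR : 0 ≤ R0) {F : (Fin m → Z2) → ℝ} {H : ℝ}
    (h : ∀ x, F x ≠ 0 → ∀ i, ‖xN N x i‖ ≤ R0) (hH : ∀ x, |F x| ≤ H) :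
    |∑' x, F x| ≤ H * (2 * R0 * N + 3) ^ (2 * m) := by
  have hH0 : 0 ≤ H := (abs_nonneg _).trans (hH fun _ => 0)
  rw [tsum_Xs hN hR h]
  refine (abs_sum_le_sum_abs _ _).trans ((sum_le_sum fun x _ => hH x).trans ?_)
  rw [sum_const, nsmul_eq_mul, card_Xs, mul_comm]
  refine mul_le_mul_of_nonneg_left (pow_le_pow_left₀ (by positivity) ?_ _) hH0
  have := Nat.floor_le (show 0 ≤ R0 * N by positivity)
  linarith

/-! ### the near mass is monotone -/

theorem near_mono {D ρ ρ' : ℝ} (h : ρ ≤ ρ') : S.near D ρ ≤ S.near D ρ' := by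
  classical
  refine ENNReal.tsum_le_tsum fun w => ?_
  by_cases h1 : D ≤ (S.ext w : ℝ) ∧ S.Nr ρ 0 w
  · have h2 : D ≤ (S.ext w : ℝ) ∧ S.Nr ρ' 0 w := by
      obtain ⟨s, hs, h3, h4⟩ := h1.2
      exact ⟨h1.1, s, hs, h3.trans h, h4.trans h⟩
    rw [if_pos h1, if_pos h2]
  · rw [if_neg h1]
    exact zero_le

/-! ### profiles -/

section prof

variable {r s : ℝ} {g χ l : ℝ → ℝ}

theorem Prof.win (h : Prof r s g χ l) {t : ℝ} (ht : deriv g t ≠ 0) : r / 2 ≤ t ∧ t ≤ 2 * s := by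
  have h1 : Function.support g ⊆ Set.Icc (r / 2) (2 * s) := fun x hx => h.g0 x hx
  have h2 : tsupport g ⊆ Set.Icc (r / 2) (2 * s) := closure_minimal h1 isClosed_Icc
  by_contra hc
  have h3 : t ∉ tsupport g := fun h' => hc (h2 h')
  have h4 : g =ᶠ[𝓝 t] fun _ => 0 := by
    have := notMem_tsupport_iff_eventuallyEq.1 h3
    exact this
  apply ht
  rw [h4.deriv_eq]
  simp

theorem Prof.dbd (h : Prof r s g χ l) : ∃ D : ℝ, 0 ≤ D ∧ ∀ t, |deriv g t| ≤ D := by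
  have h1 : HasCompactSupport g :=
    HasCompactSupport.of_support_subset_isCompact isCompact_Icc fun x hx => (h.g0 x hx : x ∈ Set.Icc _ _)
  have h2 : HasCompactSupport (deriv g) := h1.deriv
  have h3 : Continuous (deriv g) := h.gs.continuous_deriv (by norm_num)
  obtain ⟨D, hD⟩ := h3.bounded_above_of_compact_support h2
  exact ⟨max D 0, le_max_right _ _, fun t => (hD t).trans (le_max_left _ _)⟩

variable {η : ℝ}

/-- the size factor: `0 <= G1 <= 1` -/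
theorem Prof.G1_01 (h : Prof r s g χ l) (x : Fin 4 → ℝ) : 0 ≤ G1 g η x ∧ G1 g η x ≤ 1 := by
  refine ⟨mul_nonneg (h.g01 _).1 (h.g01 _).1, ?_⟩
  exact mul_le_one₀ (h.g01 _).2 (h.g01 _).1 (h.g01 _).2

theorem Prof.X1_01 (h : Prof r s g χ l) {R : ℝ} (x : Fin 4 → ℝ) : 0 ≤ X1 χ R x ∧ X1 χ R x ≤ 1 :=
  ⟨prod_nonneg fun u _ => (h.χ01 _).1, prod_le_one (fun u _ => (h.χ01 _).1) fun u _ => (h.χ01 _).2⟩

theorem win_iff {r s η : ℝ} {N : ℕ} (hη : 0 < η) (hN1 : 1 ≤ N) {p : S.P} :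
    S.Win (r * η / 2) (2 * s * η) N p ↔
      (r / 2 ≤ (S.hN N p 1 - S.hN N p 0) / η ∧ (S.hN N p 1 - S.hN N p 0) / η ≤ 2 * s) ∧
      r / 2 ≤ (S.hN N p 3 - S.hN N p 2) / η ∧ (S.hN N p 3 - S.hN N p 2) / η ≤ 2 * s := by
  have hN' : (0 : ℝ) < N := by exact_mod_cast hN1
  have key : ∀ x y : ℝ, ((r * η / 2 * N ≤ x - y) ↔ r / 2 ≤ (x / N - y / N) / η) ∧
      ((x - y ≤ 2 * s * η * N) ↔ (x / N - y / N) / η ≤ 2 * s) := by
    intro x y
    rw [← sub_div, le_div_iff₀ hη, le_div_iff₀ hN', div_le_iff₀ hη, div_le_iff₀ hN']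
    constructor
    · rw [show r * η / 2 * (N : ℝ) = r / 2 * η * N by ring]
    · exact Iff.rfl
  rw [Win, (key _ _).1, (key _ _).2, (key _ _).1, (key _ _).2]
  simp only [hN]

theorem Prof.G1_win (h : Prof r s g χ l) (hη : 0 < η) {N : ℕ} (hN1 : 1 ≤ N) {p : S.P}
    (hp : G1 g η (S.hN N p) ≠ 0) : S.Win (r * η / 2) (2 * s * η) N p := by
  rw [win_iff S hη hN1]
  exact ⟨h.g0 _ (left_ne_zero_of_mul hp), h.g0 _ (right_ne_zero_of_mul hp)⟩

theorem Prof.Psi_win (h : Prof r s g χ l) (hη : 0 < η) {N : ℕ} (hN1 : 1 ≤ N) {a b : ℝ} {p : S.P}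
    (hp : Psi g η a b (S.hN N p) (S.eN N p) ≠ 0) : S.Win (r * η / 2) (2 * s * η) N p := by
  rw [win_iff S hη hN1]
  rw [Psi] at hp
  by_cases h1 : (-(a * (S.hN N p 1 - S.hN N p 0) + b * (S.eN N p 1 - S.eN N p 0)) / η *
      deriv g ((S.hN N p 1 - S.hN N p 0) / η)) * g ((S.hN N p 3 - S.hN N p 2) / η) = 0
  · rw [h1, zero_add] at hp
    exact ⟨h.g0 _ (right_ne_zero_of_mul hp), h.win (right_ne_zero_of_mul (left_ne_zero_of_mul hp))⟩
  · exact ⟨h.win (right_ne_zero_of_mul (left_ne_zero_of_mul h1)), h.g0 _ (right_ne_zero_of_mul h1)⟩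

theorem Prof.Psi_le (h : Prof r s g χ l) (hη : 0 < η) {N : ℕ} (hN1 : 1 ≤ N) {a b D : ℝ} (hs : 0 ≤ s)
    (hD : ∀ t, |deriv g t| ≤ D) (p : S.P) :
    |Psi g η a b (S.hN N p) (S.eN N p)| ≤ 4 * s * D * (|a| + |b|) := by
  have hD0 : 0 ≤ D := (abs_nonneg _).trans (hD 0)
  have hN' : (0 : ℝ) < N := by exact_mod_cast hN1
  by_cases hp : Psi g η a b (S.hN N p) (S.eN N p) = 0
  · rw [hp, abs_zero]
    positivity
  have hw := (win_iff S hη hN1).1 (h.Psi_win S hη hN1 hp)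
  obtain ⟨⟨a1, a2⟩, a3, a4⟩ := hw
  rw [div_le_iff₀ hη] at a2 a4
  obtain ⟨⟨b1, b2⟩, b3, b4⟩ := S.ex01 p
  obtain ⟨⟨c1, c2⟩, c3, c4⟩ := S.ex23 p
  have l01 : S.hN N p 0 ≤ S.hN N p 1 := by
    simp only [hN]
    exact div_le_div_of_nonneg_right (by exact_mod_cast S.le01 p) hN'.le
  have l23 : S.hN N p 2 ≤ S.hN N p 3 := by
    simp only [hN]
    exact div_le_div_of_nonneg_right (by exact_mod_cast S.le23 p) hN'.le
  have e10 : |S.eN N p 1 - S.eN N p 0| ≤ 2 * s * η := by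
    have d1 : |S.eN N p 1 - S.eN N p 0| ≤ S.hN N p 3 - S.hN N p 2 := by
      simp only [hN, eN]
      rw [← sub_div, ← sub_div, abs_div, Nat.abs_cast]
      refine div_le_div_of_nonneg_right ?_ hN'.le
      rw [abs_le]
      constructor
      · have : (S.ht p 2 : ℝ) - S.ht p 3 ≤ S.ex p 1 - S.ex p 0 := by exact_mod_cast (by omega)
        linarith
      · exact_mod_cast (by omega)
    linarith
  have e32 : |S.eN N p 3 - S.eN N p 2| ≤ 2 * s * η := by
    have d1 : |S.eN N p 3 - S.eN N p 2| ≤ S.hN N p 1 - S.hN N p 0 := by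
      simp only [hN, eN]
      rw [← sub_div, ← sub_div, abs_div, Nat.abs_cast]
      refine div_le_div_of_nonneg_right ?_ hN'.le
      rw [abs_le]
      constructor
      · have : (S.ht p 0 : ℝ) - S.ht p 1 ≤ S.ex p 3 - S.ex p 2 := by exact_mod_cast (by omega)
        linarith
      · exact_mod_cast (by omega)
    linarith
  have key : ∀ x y : ℝ, |x| ≤ 2 * s * η → |y| ≤ 2 * s * η → |(a * x + b * y) / η| ≤ (|a| + |b|) * (2 * s) := by
    intro x y hx hy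
    rw [abs_div, abs_of_pos hη, div_le_iff₀ hη]
    refine (abs_add_le _ _).trans ?_
    rw [abs_mul, abs_mul]
    have k1 := mul_le_mul_of_nonneg_left hx (abs_nonneg a)
    have k2 := mul_le_mul_of_nonneg_left hy (abs_nonneg b)
    linarith
  have x10 : |S.hN N p 1 - S.hN N p 0| ≤ 2 * s * η := by
    rw [abs_of_nonneg (by linarith)]
    exact a2
  have x32 : |S.hN N p 3 - S.hN N p 2| ≤ 2 * s * η := by
    rw [abs_of_nonneg (by linarith)]
    exact a4
  have t1 : |(-(a * (S.hN N p 1 - S.hN N p 0) + b * (S.eN N p 1 - S.eN N p 0)) / η *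
      deriv g ((S.hN N p 1 - S.hN N p 0) / η)) * g ((S.hN N p 3 - S.hN N p 2) / η)| ≤
      (|a| + |b|) * (2 * s) * D := by
    rw [abs_mul, abs_mul, neg_div, abs_neg]
    have g1 : |g ((S.hN N p 3 - S.hN N p 2) / η)| ≤ 1 := by
      rw [abs_of_nonneg (h.g01 _).1]
      exact (h.g01 _).2
    calc _ ≤ (|a| + |b|) * (2 * s) * D * 1 := by
          gcongr
          · exact key _ _ x10 e10
          · exact hD _
      _ = _ := mul_one _
  have t2 : |((a * (S.hN N p 3 - S.hN N p 2) + b * (S.eN N p 3 - S.eN N p 2)) / η *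
      deriv g ((S.hN N p 3 - S.hN N p 2) / η)) * g ((S.hN N p 1 - S.hN N p 0) / η)| ≤
      (|a| + |b|) * (2 * s) * D := by
    rw [abs_mul, abs_mul]
    have g1 : |g ((S.hN N p 1 - S.hN N p 0) / η)| ≤ 1 := by
      rw [abs_of_nonneg (h.g01 _).1]
      exact (h.g01 _).2
    calc _ ≤ (|a| + |b|) * (2 * s) * D * 1 := by
          gcongr
          · exact key _ _ x32 e32
          · exact hD _
      _ = _ := mul_one _
  rw [Psi]
  refine (abs_add_le _ _).trans ?_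
  linarith

theorem G1_tr (z : Z2) (N : ℕ) (p : S.P) : G1 g η (S.hN N (S.tr z p)) = G1 g η (S.hN N p) := by
  obtain ⟨h0, h1, h2, h3⟩ := S.tr_ht z p
  simp only [G1, hN, h0, h1, h2, h3]
  push_cast
  congr 2
  · ring
  · ring

theorem Psi_tr (a b : ℝ) (z : Z2) (N : ℕ) (p : S.P) :
    Psi g η a b (S.hN N (S.tr z p)) (S.eN N (S.tr z p)) = Psi g η a b (S.hN N p) (S.eN N p) := by
  obtain ⟨h0, h1, h2, h3⟩ := S.tr_ht z p
  obtain ⟨e0, e1, e2, e3⟩ := S.tr_ex z p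
  have k : ∀ x y w : ℝ, (x + w) / (N : ℝ) - (y + w) / N = x / N - y / N := by
    intro x y w
    ring
  simp only [Psi, hN, eN, h0, h1, h2, h3, e0, e1, e2, e3]
  push_cast
  simp only [k]

/-- the size factor is odd under the swap -/
theorem Psi_sw (a b : ℝ) (N : ℕ) (p : S.P) :
    Psi g η a b (S.hN N (S.sw p)) (S.eN N (S.sw p)) = -Psi g η a b (S.hN N p) (S.eN N p) := by
  obtain ⟨h0, h1, h2, h3⟩ := S.sw_ht p
  obtain ⟨e0, e1, e2, e3⟩ := S.sw_ex p
  simp only [Psi, hN, eN, h0, h1, h2, h3, e0, e1, e2, e3]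
  ring

/-- **the response of the size factor cancels** -/
theorem W1_Psi (n : ℕ) (a b : ℝ) (N : ℕ) :
    S.W1 n (fun p => Psi g η a b (S.hN N p) (S.eN N p)) = 0 := by
  classical
  have h1 : S.W1 n (fun p => Psi g η a b (S.hN N p) (S.eN N p)) =
      -S.W1 n (fun p => Psi g η a b (S.hN N p) (S.eN N p)) := by
    conv_lhs => rw [W1]
    conv_rhs => rw [W1, ← sum_neg_distrib]
    refine sum_bij' (fun p _ => S.sw p) (fun p _ => S.sw.symm p) ?_ ?_ ?_ ?_ ?_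
    · intro p hp
      rw [S.mem_box] at hp ⊢
      obtain ⟨h0, h1, h2, h3⟩ := S.sw_ht p
      intro u
      fin_cases u
      · exact h0 ▸ hp 2
      · exact h1 ▸ hp 3
      · exact h2 ▸ hp 0
      · exact h3 ▸ hp 1
    · intro p hp
      rw [S.mem_box] at hp ⊢
      obtain ⟨h0, h1, h2, h3⟩ := S.sw_ht (S.sw.symm p)
      rw [Equiv.apply_symm_apply] at h0 h1 h2 h3
      intro u
      fin_cases u
      · exact h2 ▸ hp 2
      · exact h3 ▸ hp 3
      · exact h0 ▸ hp 0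
      · exact h1 ▸ hp 1
    · intro p _
      exact Equiv.symm_apply_apply _ _
    · intro p _
      exact Equiv.apply_symm_apply _ _
    · intro p _
      obtain ⟨h0, h1, h2, h3⟩ := S.sw_ht p
      have e : S.co (S.sw p) = 0 ↔ S.co p = 0 := by
        simp only [co, h0, h2, Prod.mk_eq_zero]
        exact and_comm
      by_cases hc : S.co p = 0
      · rw [if_pos hc, if_pos (e.2 hc), S.sw_M, S.Psi_sw]
        ring
      · rw [if_neg hc, if_neg (fun h' => hc (e.1 h')), neg_zero]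
  linarith

theorem mass_eq {r s η : ℝ} (N : ℝ) (n : ℕ) :
    S.mass (r * η / 2) (2 * s * η) N n = S.mass (r / 2) (2 * s) (η * N) n := by
  classical
  unfold mass
  refine sum_congr rfl fun p _ => ?_
  have e : S.Win (r * η / 2) (2 * s * η) N p ↔ S.Win (r / 2) (2 * s) (η * N) p := by
    rw [Win, Win, show r * η / 2 * N = r / 2 * (η * N) by ring, show 2 * s * η * N = 2 * s * (η * N) by ring]
  simp only [e]

theorem mass_le_W1 (h : Prof r s g χ l) (hη : 0 < η) {N : ℕ} (hN1 : 1 ≤ N) (n : ℕ) :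
    S.mass r s (η * N) n ≤ S.W1 n fun p => G1 g η (S.hN N p) := by
  classical
  have hN' : (0 : ℝ) < N := by exact_mod_cast hN1
  rw [mass, W1]
  refine sum_le_sum fun p _ => ?_
  by_cases h1 : S.co p = 0
  · rw [if_pos h1]
    by_cases h2 : S.Win r s (η * N) p
    · rw [if_pos ⟨h1, h2⟩]
      obtain ⟨⟨a1, a2⟩, a3, a4⟩ := h2
      have key : ∀ x y : ℝ, r * (η * N) ≤ x - y → x - y ≤ s * (η * N) → g ((x / N - y / N) / η) = 1 := by
        intro x y hx hy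
        rw [← sub_div]
        refine h.g1 _ ?_ ?_
        · rw [le_div_iff₀ hη, le_div_iff₀ hN']
          linarith
        · rw [div_le_iff₀ hη, div_le_iff₀ hN']
          linarith
      simp only [G1, hN]
      rw [key _ _ a1 a2, key _ _ a3 a4]
      linarith
    · rw [if_neg (fun h' => h2 h'.2)]
      exact mul_nonneg (S.M_nn _) (h.G1_01 _).1
  · rw [if_neg (fun h' => h1 h'.1), if_neg h1]

end prof

end PSys

end Pool.Agent.ROT.A
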