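import Pool.Agent.ROT.ADefs

/-!
# ROT, linear response, rows A4 and PB (helper76)

`pf_le` : the polygons with the pattern `π` at the points `x` and extent `≥ D`; `a4` : the cutoff of `w` is removed;
`pb` : `Pf` is bounded on separated points.
-/

set_option autoImplicit false

open Finset Filter Topology
open scoped ENNReal

namespace Pool.Agent.ROT.A.PSys

variable (S : PSys)

theorem a4_near_mono {D D' ρ ρ' : ℝ} (hD : D' ≤ D) (hρ : ρ ≤ ρ') : S.near D ρ ≤ S.near D' ρ' := by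
  classical
  unfold near
  refine ENNReal.tsum_le_tsum fun w => ?_
  by_cases h : D ≤ (S.ext w : ℝ) ∧ S.Nr ρ 0 w
  · have h' : D' ≤ (S.ext w : ℝ) ∧ S.Nr ρ' 0 w := by
      refine ⟨hD.trans h.1, ?_⟩
      obtain ⟨s, hs, h1, h2⟩ := h.2
      exact ⟨s, hs, h1.trans hρ, h2.trans hρ⟩
    rw [if_pos h, if_pos h']
  · rw [if_neg h]
    exact zero_le

/-- the extent is translation invariant -/
theorem a4_ext_tr (z : Z2) (p : S.P) : S.ext (S.tr z p) = S.ext p := by
  obtain ⟨h0, h1, h2, h3⟩ := S.tr_ht z p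
  unfold ext
  rw [h0, h1, h2, h3]
  congr 1 <;> ring

/-- near a point = near the origin after a translation -/
theorem a4_Nr_tr (ρ : ℝ) (z : Z2) (p : S.P) : S.Nr ρ z (S.tr z p) ↔ S.Nr ρ 0 p := by
  constructor
  · rintro ⟨s, hs, h1, h2⟩
    refine ⟨s - z, ?_, ?_, ?_⟩
    · rw [S.tr_st z p, sub_add_cancel]
      exact hs
    · simpa using h1
    · simpa using h2
  · rintro ⟨s, hs, h1, h2⟩
    refine ⟨s + z, (S.tr_st z p s).1 hs, ?_, ?_⟩
    · simpa using h1
    · simpa using h2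

open Classical in
/-- `near` at any point -/
theorem a4_near_at (D ρ : ℝ) (z : Z2) :
    ∑' w : S.P, (if D ≤ (S.ext w : ℝ) ∧ S.Nr ρ z w then ENNReal.ofReal (S.M w) else 0) = S.near D ρ := by
  unfold near
  rw [← (S.tr z).tsum_eq fun w : S.P => if D ≤ (S.ext w : ℝ) ∧ S.Nr ρ z w then ENNReal.ofReal (S.M w) else 0]
  refine tsum_congr fun p => ?_
  rw [S.a4_ext_tr, S.tr_M]
  by_cases h : D ≤ (S.ext p : ℝ) ∧ S.Nr ρ 0 p
  · rw [if_pos h, if_pos ⟨h.1, (S.a4_Nr_tr ρ z p).2 h.2⟩]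
  · rw [if_neg h, if_neg fun h' => h ⟨h'.1, (S.a4_Nr_tr ρ z p).1 h'.2⟩]

variable {m : ℕ} {π : Fin m → Bool} {x : Fin m → Z2} {w : S.P}

/-- the pattern with an inside and an outside point in the ball of radius `ρ`: a site in the ball of radius `ρ + 1` -/
theorem a4_nr_of_pat {i k : Fin m} (hi : π i = true) (hk : π k = false) {ρ : ℝ}
    (hx : ∀ j, |((x j).1 : ℝ)| ≤ ρ ∧ |((x j).2 : ℝ)| ≤ ρ) (hw : ∀ j, S.ip (x j) w ↔ π j = true) :
    S.Nr (ρ + 1) 0 w := by
  have h1 : S.ip (x i) w := (hw i).2 hi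
  have h2 : ¬ S.ip (x k) w := by
    rw [hw k, hk]
    simp
  obtain ⟨s, hs, m1, m2, m3, m4⟩ := S.ip_sep w _ _ h1 h2
  have n1 : min ((x i).1 : ℝ) ((x k).1 : ℝ) - 1 ≤ s.1 := by exact_mod_cast m1
  have n2 : (s.1 : ℝ) ≤ max ((x i).1 : ℝ) ((x k).1 : ℝ) + 1 := by exact_mod_cast m2
  have n3 : min ((x i).2 : ℝ) ((x k).2 : ℝ) - 1 ≤ s.2 := by exact_mod_cast m3
  have n4 : (s.2 : ℝ) ≤ max ((x i).2 : ℝ) ((x k).2 : ℝ) + 1 := by exact_mod_cast m4
  obtain ⟨a1, a2⟩ := hx i
  obtain ⟨b1, b2⟩ := hx k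
  rw [abs_le] at a1 a2 b1 b2
  have l1 : -ρ ≤ min ((x i).1 : ℝ) ((x k).1 : ℝ) := le_min a1.1 b1.1
  have l2 : max ((x i).1 : ℝ) ((x k).1 : ℝ) ≤ ρ := max_le a1.2 b1.2
  have l3 : -ρ ≤ min ((x i).2 : ℝ) ((x k).2 : ℝ) := le_min a2.1 b2.1
  have l4 : max ((x i).2 : ℝ) ((x k).2 : ℝ) ≤ ρ := max_le a2.2 b2.2
  refine ⟨s, hs, ?_, ?_⟩
  · simp only [Prod.fst_zero, Int.cast_zero, sub_zero]
    rw [abs_le]
    constructor <;> linarith
  · simp only [Prod.snd_zero, Int.cast_zero, sub_zero]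
    rw [abs_le]
    constructor <;> linarith

/-- an inside point in the ball of radius `ρ`, a side beyond `D`: extent `≥ D - ρ` -/
theorem a4_ext_of_pat {i : Fin m} (hi : π i = true) {ρ D : ℝ}
    (hx : ∀ j, |((x j).1 : ℝ)| ≤ ρ ∧ |((x j).2 : ℝ)| ≤ ρ) (hD : ρ < D) (hw : ∀ j, S.ip (x j) w ↔ π j = true)
    (hu : ∃ u, D ≤ |(S.ht w u : ℝ)|) : D - ρ ≤ (S.ext w : ℝ) := by
  have h1 : S.ip (x i) w := (hw i).2 hi
  obtain ⟨c1, c2, c3, c4⟩ := S.ip_box w _ h1
  have d1 : (S.ht w 0 : ℝ) ≤ (x i).1 := by exact_mod_cast c1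
  have d2 : ((x i).1 : ℝ) ≤ S.ht w 1 := by exact_mod_cast c2
  have d3 : (S.ht w 2 : ℝ) ≤ (x i).2 := by exact_mod_cast c3
  have d4 : ((x i).2 : ℝ) ≤ S.ht w 3 := by exact_mod_cast c4
  obtain ⟨a1, a2⟩ := hx i
  rw [abs_le] at a1 a2
  have e1 : (S.ht w 1 : ℝ) - S.ht w 0 ≤ S.ext w := by
    unfold ext
    push_cast
    exact le_max_left _ _
  have e2 : (S.ht w 3 : ℝ) - S.ht w 2 ≤ S.ext w := by
    unfold ext
    push_cast
    exact le_max_right _ _
  obtain ⟨u, hu⟩ := hu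
  fin_cases u
  · have hu' : D ≤ |(S.ht w 0 : ℝ)| := hu
    rcases le_abs.1 hu' with h | h <;> linarith
  · have hu' : D ≤ |(S.ht w 1 : ℝ)| := hu
    rcases le_abs.1 hu' with h | h <;> linarith
  · have hu' : D ≤ |(S.ht w 2 : ℝ)| := hu
    rcases le_abs.1 hu' with h | h <;> linarith
  · have hu' : D ≤ |(S.ht w 3 : ℝ)| := hu
    rcases le_abs.1 hu' with h | h <;> linarith

/-- a polygon with a point of the ball inside and all sides at most `D` is in the box -/
theorem a4_box_of_ht {D : ℝ} {n : ℕ} (hn : D ≤ n) (h : ∀ u, |(S.ht w u : ℝ)| ≤ D) : w ∈ S.box n := by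
  rw [S.mem_box]
  intro u
  have := (h u).trans hn
  exact_mod_cast this

/-- the norm of the scaled points -/
theorem a4_xN_le {N : ℕ} (hN : 0 < N) {R0 : ℝ} (hx : ∀ i, ‖xN N x i‖ ≤ R0) (i : Fin m) :
    |((x i).1 : ℝ)| ≤ R0 * N ∧ |((x i).2 : ℝ)| ≤ R0 * N := by
  have hN' : (0 : ℝ) < N := by exact_mod_cast hN
  have h1 := hx i
  unfold xN at h1
  rw [Prod.norm_def, max_le_iff] at h1
  obtain ⟨h2, h3⟩ := h1
  rw [Real.norm_eq_abs, abs_div, abs_of_pos hN', div_le_iff₀ hN'] at h2 h3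
  exact ⟨h2, h3⟩

/-- **large scales from `Near`** -/
theorem a4_near_far (hNr : S.Near) {R0 ε : ℝ} (hR0 : 0 < R0) (hε : 0 < ε) :
    ∃ R1 : ℝ, R0 < R1 ∧ ∀ R : ℝ, R1 ≤ R → ∀ᶠ N : ℕ in atTop, S.near (R * N - R0 * N) (R0 * N + 1) ≤ ENNReal.ofReal ε := by
  obtain ⟨η, hη, h⟩ := hNr 1 ε one_pos hε
  refine ⟨R0 + 1 + (R0 + 1) / η, by
    have : 0 < (R0 + 1) / η := by positivity
    linarith, fun R hR => ?_⟩
  rw [eventually_atTop] at h ⊢
  obtain ⟨N0, h⟩ := h
  refine ⟨N0 + 1, fun N hN => ?_⟩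
  have hN1 : (1 : ℝ) ≤ N := by exact_mod_cast (by omega : 1 ≤ N)
  have hq : 0 < (R0 + 1) / η := by positivity
  have hRR : 1 ≤ R - R0 := by linarith
  -- the scale
  set N' : ℕ := ⌊(R - R0) * N⌋₊ with hN'
  have g0 : 0 ≤ (R - R0) * N := by positivity
  have g1 : (N' : ℝ) ≤ (R - R0) * N := Nat.floor_le g0
  have g2 : (R - R0) * N < N' + 1 := Nat.lt_floor_add_one _
  have g3 : N0 ≤ N' := by
    have : ((N0 : ℕ) : ℝ) + 1 ≤ (R - R0) * N := by
      have h1 : ((N0 : ℝ)) + 1 ≤ N := by exact_mod_cast hN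
      nlinarith
    have h2 : (N0 : ℝ) < N' + 1 := by linarith
    have h3 : N0 < N' + 1 := by exact_mod_cast h2
    omega
  refine (S.a4_near_mono (D' := 1 * (N' : ℝ)) (ρ' := η * N') ?_ ?_).trans (h N' g3)
  · linarith
  · have h1 : (R0 + 1) / η * N ≤ N' := by nlinarith
    have h2 : (R0 + 1) * N ≤ η * N' := by
      have := mul_le_mul_of_nonneg_left h1 hη.le
      have e : η * ((R0 + 1) / η * N) = (R0 + 1) * N := by
        field_simp
      linarith
    linarith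

open Classical in
/-- the mass of the pattern outside of the box -/
theorem a4_pat_far (hπ : NT π) {N : ℕ} (hN : 0 < N) {R0 R : ℝ} (hR : R0 < R) (hx : ∀ i, ‖xN N x i‖ ≤ R0) :
    ∑' w : S.P, ENNReal.ofReal (if (∀ i, S.ip (x i) w ↔ π i = true) ∧ ∃ u, R * N ≤ |(S.ht w u : ℝ)| then S.M w else 0) ≤
      S.near (R * N - R0 * N) (R0 * N + 1) := by
  obtain ⟨⟨i, j, _, hi, _⟩, k, hk⟩ := hπ
  have hN' : (0 : ℝ) < N := by exact_mod_cast hN
  unfold near
  refine ENNReal.tsum_le_tsum fun w => ?_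
  by_cases h : (∀ i, S.ip (x i) w ↔ π i = true) ∧ ∃ u, R * N ≤ |(S.ht w u : ℝ)|
  · have hxx := a4_xN_le hN hx
    rw [if_pos h, if_pos ⟨S.a4_ext_of_pat hi hxx (mul_lt_mul_of_pos_right hR hN') h.1 h.2, S.a4_nr_of_pat hi hk hxx h.1⟩]
  · rw [if_neg h]
    simp

open Classical in
/-- **row A4** -/
theorem a4 (hNr : S.Near) {r s : ℝ} {g χ l : ℝ → ℝ} (hp : Prof r s g χ l) : S.A4 χ := by
  intro m π R0 ε hπ hR0 hε
  obtain ⟨R1, hR1, h⟩ := S.a4_near_far hNr hR0 hε
  refine ⟨R1, fun R hR => ?_⟩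
  have hRR : R0 < R := by linarith
  have hRp : 0 < R := by linarith
  filter_upwards [h R hR, eventually_gt_atTop 0] with N hnear hNp K hK x hx
  have hN' : (0 : ℝ) < N := by exact_mod_cast hNp
  have hfar := (S.a4_pat_far hπ hNp hRR hx).trans hnear
  -- the far part
  set pt : S.P → Prop := fun w => ∀ i, S.ip (x i) w ↔ π i = true with hpt
  set fa : S.P → Prop := fun w => ∃ u, R * N ≤ |(S.ht w u : ℝ)| with hfa
  have hsum : Summable fun w : S.P => if pt w ∧ fa w then S.M w else 0 := by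
    have h1 : ∑' w : S.P, ENNReal.ofReal (if pt w ∧ fa w then S.M w else 0) ≠ ⊤ :=
      ne_top_of_le_ne_top ENNReal.ofReal_ne_top hfar
    have h2 := ENNReal.summable_toReal h1
    refine h2.congr fun w => ?_
    rw [ENNReal.toReal_ofReal]
    split_ifs
    · exact S.M_nn w
    · exact le_rfl
  have htot : ∑' w : S.P, (if pt w ∧ fa w then S.M w else 0) ≤ ε := by
    have h0 : ∀ w : S.P, 0 ≤ (if pt w ∧ fa w then S.M w else 0) := by
      intro w
      split_ifs
      · exact S.M_nn w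
      · exact le_rfl
    rw [← ENNReal.ofReal_le_ofReal_iff hε.le, ENNReal.ofReal_tsum_of_nonneg h0 hsum]
    exact hfar
  have hfaeq : ∀ w : S.P, (∃ u, R ≤ |S.hN N w u|) ↔ fa w := by
    intro w
    simp only [hfa]
    refine exists_congr fun u => ?_
    show R ≤ |(S.ht w u : ℝ) / N| ↔ _
    rw [abs_div, abs_of_pos hN', le_div_iff₀ hN']
  -- the cutoff
  have hX01 : ∀ w : S.P, 0 ≤ X1 χ R (S.hN N w) ∧ X1 χ R (S.hN N w) ≤ 1 := by
    intro w
    unfold X1
    exact ⟨prod_nonneg fun u _ => (hp.χ01 _).1, prod_le_one (fun u _ => (hp.χ01 _).1) fun u _ => (hp.χ01 _).2⟩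
  have hX1 : ∀ w : S.P, ¬ fa w → X1 χ R (S.hN N w) = 1 := by
    intro w hw
    rw [← hfaeq] at hw
    simp only [not_exists, not_le] at hw
    unfold X1
    refine prod_eq_one fun u _ => hp.χ1 _ ?_
    rw [abs_div, abs_of_pos hRp, div_le_one hRp]
    exact (hw u).le
  have hX0 : ∀ w : S.P, w ∉ S.box (K * N) → X1 χ R (S.hN N w) = 0 := by
    intro w hw
    by_contra hne
    have hne : ∏ u, χ (S.hN N w u / R) ≠ 0 := hne
    rw [prod_ne_zero_iff] at hne
    refine hw (S.a4_box_of_ht (D := 2 * R * N) ?_ fun u => ?_)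
    · push_cast
      exact mul_le_mul_of_nonneg_right hK hN'.le
    · have h1 := hp.χ0 _ (hne u (mem_univ u))
      have h1 : |(S.ht w u : ℝ) / N / R| ≤ 2 := h1
      rw [abs_div, abs_div, abs_of_pos hN', abs_of_pos hRp, div_div, div_le_iff₀ (by positivity)] at h1
      calc |(S.ht w u : ℝ)| ≤ 2 * (N * R) := h1
        _ = 2 * R * N := by ring
  have hPX : S.PX (K * N) π (fun w => X1 χ R (S.hN N w)) x =
      ∑' w : S.P, (if pt w then S.M w * X1 χ R (S.hN N w) else 0) := by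
    unfold PX
    rw [tsum_eq_sum fun w hw => ?_]
    rw [hX0 w hw, mul_zero, ite_self]
  have hfin : Summable fun w : S.P => if pt w then S.M w * X1 χ R (S.hN N w) else 0 := by
    refine summable_of_ne_finset_zero (s := S.box (K * N)) fun w hw => ?_
    rw [hX0 w hw, mul_zero, ite_self]
  -- the difference
  have hle : ∀ w : S.P, 0 ≤ (if pt w then S.M w * (1 - X1 χ R (S.hN N w)) else 0) ∧
      (if pt w then S.M w * (1 - X1 χ R (S.hN N w)) else 0) ≤ if pt w ∧ fa w then S.M w else 0 := by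
    intro w
    obtain ⟨x0, x1⟩ := hX01 w
    by_cases h1 : pt w
    · rw [if_pos h1]
      refine ⟨mul_nonneg (S.M_nn w) (by linarith), ?_⟩
      by_cases h2 : fa w
      · rw [if_pos ⟨h1, h2⟩]
        have := S.M_nn w
        nlinarith
      · rw [if_neg fun h => h2 h.2, hX1 w h2]
        simp
    · rw [if_neg h1, if_neg fun h => h1 h.1]
      exact ⟨le_rfl, le_rfl⟩
  have hsum2 : Summable fun w : S.P => if pt w then S.M w * (1 - X1 χ R (S.hN N w)) else 0 :=
    Summable.of_nonneg_of_le (fun w => (hle w).1) (fun w => (hle w).2) hsum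
  have hPf : S.Pf π x = ∑' w : S.P, (if pt w then S.M w * X1 χ R (S.hN N w) else 0) +
      ∑' w : S.P, (if pt w then S.M w * (1 - X1 χ R (S.hN N w)) else 0) := by
    unfold Pf
    rw [← hfin.tsum_add hsum2]
    refine tsum_congr fun w => ?_
    by_cases h1 : pt w
    · rw [if_pos h1, if_pos h1, if_pos h1]
      ring
    · rw [if_neg h1, if_neg h1, if_neg h1, add_zero]
  refine ⟨?_, ?_⟩
  · rw [hPX, hPf, sub_add_cancel_left, abs_neg, abs_of_nonneg (tsum_nonneg fun w => (hle w).1)]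
    exact (hsum2.tsum_le_tsum (fun w => (hle w).2) hsum).trans htot
  · unfold PX
    have e1 : ∀ w : S.P, (if ∀ i, S.ip (x i) w ↔ π i = true then S.M w * (if ∃ u, R ≤ |S.hN N w u| then (1 : ℝ) else 0)
        else 0) = if pt w ∧ fa w then S.M w else 0 := by
      intro w
      by_cases h1 : pt w
      · by_cases h2 : fa w
        · rw [if_pos h1, if_pos ((hfaeq w).2 h2), if_pos ⟨h1, h2⟩, mul_one]
        · rw [if_pos h1, if_neg fun h => h2 ((hfaeq w).1 h), if_neg fun h => h2 h.2, mul_zero]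
      · rw [if_neg h1, if_neg fun h => h1 h.1]
    rw [sum_congr rfl fun w _ => e1 w]
    refine (hsum.sum_le_tsum _ fun w _ => ?_).trans htot
    split_ifs
    · exact S.M_nn w
    · exact le_rfl

/-- **`P` is bounded on separated points** -/
theorem pb (hNr : S.Near) : S.PB := by
  classical
  intro m π R0 d hπ hR0 hd
  obtain ⟨⟨i, j, hij, hi, hj⟩, k, hk⟩ := hπ
  obtain ⟨η, hη, h⟩ := hNr d 1 hd one_pos
  set A : ℤ := ⌈2 * (R0 + 1) / η⌉ + 1 with hA
  refine ⟨((Icc (-A) A ×ˢ Icc (-A) A).card : ℝ), ?_⟩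
  filter_upwards [h, eventually_ge_atTop (⌈2 / η⌉₊ + 1)] with N hnear hN x hx hxs
  have hNp : 0 < N := by omega
  have hN' : (0 : ℝ) < N := by exact_mod_cast hNp
  have hN1 : (1 : ℝ) ≤ N := by exact_mod_cast hNp
  have hxx := a4_xN_le hNp hx
  have hηN : 2 ≤ η * N := by
    have h1 : 2 / η ≤ ⌈2 / η⌉₊ := Nat.le_ceil _
    have h2 : ((⌈2 / η⌉₊ : ℕ) : ℝ) + 1 ≤ N := by exact_mod_cast hN
    have h3 : 2 / η ≤ N := by linarith
    rw [div_le_iff₀ hη] at h3
    linarith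
  -- the mesh
  set q : ℤ := ⌊η * (N : ℝ)⌋ with hq
  have q1 : (q : ℝ) ≤ η * N := Int.floor_le _
  have q2 : η * N < q + 1 := Int.lt_floor_add_one _
  have q3 : η * N / 2 ≤ q := by linarith
  have q0 : 0 < q := by
    have : (0 : ℝ) < q := by linarith
    exact_mod_cast this
  -- every polygon of the pattern is near a point of the mesh
  have key : ∀ w : S.P, (∀ i, S.ip (x i) w ↔ π i = true) → d * N ≤ (S.ext w : ℝ) ∧
      ∃ z ∈ Icc (-A) A ×ˢ Icc (-A) A, S.Nr (η * N) (q * z.1, q * z.2) w := by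
    intro w hw
    refine ⟨?_, ?_⟩
    · have h1 := S.ip_box w _ ((hw i).2 hi)
      have h2 := S.ip_box w _ ((hw j).2 hj)
      obtain ⟨c1, c2, c3, c4⟩ := h1
      obtain ⟨d1, d2, d3, d4⟩ := h2
      have c1' : (S.ht w 0 : ℝ) ≤ (x i).1 := by exact_mod_cast c1
      have c2' : ((x i).1 : ℝ) ≤ S.ht w 1 := by exact_mod_cast c2
      have c3' : (S.ht w 2 : ℝ) ≤ (x i).2 := by exact_mod_cast c3
      have c4' : ((x i).2 : ℝ) ≤ S.ht w 3 := by exact_mod_cast c4
      have d1' : (S.ht w 0 : ℝ) ≤ (x j).1 := by exact_mod_cast d1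
      have d2' : ((x j).1 : ℝ) ≤ S.ht w 1 := by exact_mod_cast d2
      have d3' : (S.ht w 2 : ℝ) ≤ (x j).2 := by exact_mod_cast d3
      have d4' : ((x j).2 : ℝ) ≤ S.ht w 3 := by exact_mod_cast d4
      have e1 : (S.ht w 1 : ℝ) - S.ht w 0 ≤ S.ext w := by
        unfold ext
        push_cast
        exact le_max_left _ _
      have e2 : (S.ht w 3 : ℝ) - S.ht w 2 ≤ S.ext w := by
        unfold ext
        push_cast
        exact le_max_right _ _
      have h3 := hxs i j hij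
      unfold xN at h3
      rw [Prod.norm_def, le_max_iff] at h3
      simp only [Prod.fst_sub, Prod.snd_sub, Real.norm_eq_abs] at h3
      rw [← sub_div, ← sub_div, abs_div, abs_div, abs_of_pos hN', le_div_iff₀ hN', le_div_iff₀ hN'] at h3
      rcases h3 with h3 | h3
      · rcases le_abs.1 h3 with h4 | h4 <;> linarith
      · rcases le_abs.1 h3 with h4 | h4 <;> linarith
    · obtain ⟨s, hs, h1, h2⟩ := S.a4_nr_of_pat hi hk hxx hw
      simp only [Prod.fst_zero, Prod.snd_zero, Int.cast_zero, sub_zero] at h1 h2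
      have hdiv : ∀ a : ℤ, |(a : ℝ)| ≤ R0 * N + 1 → a / q ∈ Icc (-A) A ∧ |(a : ℝ) - (q * (a / q) : ℤ)| ≤ η * N := by
        intro a ha
        have m1 := Int.emod_nonneg a q0.ne'
        have m2 := Int.emod_lt_of_pos a q0
        have m3 := Int.emod_add_mul_ediv a q
        have m4 : (a : ℝ) - (q * (a / q) : ℤ) = ((a % q : ℤ) : ℝ) := by
          rw [← Int.cast_sub]
          congr 1
          omega
        have m5 : (0 : ℝ) ≤ ((a % q : ℤ) : ℝ) := by exact_mod_cast m1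
        have m6 : ((a % q : ℤ) : ℝ) < q := by exact_mod_cast m2
        refine ⟨?_, ?_⟩
        · have b1 : (q : ℝ) * ((a / q : ℤ) : ℝ) = a - ((a % q : ℤ) : ℝ) := by
            rw [← m4]
            push_cast
            ring
          have b2 : 2 * (R0 + 1) / η ≤ (⌈2 * (R0 + 1) / η⌉ : ℤ) := Int.le_ceil _
          have b3 : (R0 + 1) * N ≤ (⌈2 * (R0 + 1) / η⌉ : ℤ) * (q : ℝ) := by
            rw [div_le_iff₀ hη] at b2
            have hc : (0 : ℝ) ≤ (⌈2 * (R0 + 1) / η⌉ : ℤ) := by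
              have : (0 : ℝ) ≤ 2 * (R0 + 1) / η := by positivity
              exact this.trans (Int.le_ceil _)
            nlinarith
          rw [abs_le] at ha
          have b5 : -((A : ℝ)) * q ≤ q * ((a / q : ℤ) : ℝ) := by
            rw [b1, hA]
            push_cast
            nlinarith
          have b6 : q * ((a / q : ℤ) : ℝ) ≤ (A : ℝ) * q := by
            rw [b1, hA]
            push_cast
            nlinarith
          have hqr : (0 : ℝ) < q := by exact_mod_cast q0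
          have b7 : (-(A : ℝ)) ≤ ((a / q : ℤ) : ℝ) := by
            rw [mul_comm (q : ℝ)] at b5
            exact le_of_mul_le_mul_right b5 hqr
          have b8 : ((a / q : ℤ) : ℝ) ≤ (A : ℝ) := by
            rw [mul_comm (q : ℝ)] at b6
            exact le_of_mul_le_mul_right b6 hqr
          rw [mem_Icc]
          exact ⟨by exact_mod_cast b7, by exact_mod_cast b8⟩
        · rw [m4, abs_of_nonneg m5]
          linarith
      obtain ⟨u1, u2⟩ := hdiv s.1 h1
      obtain ⟨v1, v2⟩ := hdiv s.2 h2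
      exact ⟨(s.1 / q, s.2 / q), mem_product.2 ⟨u1, v1⟩, s, hs, u2, v2⟩
  -- the sum
  have h0 : ∀ w : S.P, 0 ≤ (if ∀ i, S.ip (x i) w ↔ π i = true then S.M w else 0) := by
    intro w
    split_ifs
    · exact S.M_nn w
    · exact le_rfl
  have hb : ∑' w : S.P, ENNReal.ofReal (if ∀ i, S.ip (x i) w ↔ π i = true then S.M w else 0) ≤
      ((Icc (-A) A ×ˢ Icc (-A) A).card : ℝ≥0∞) := by
    calc ∑' w : S.P, ENNReal.ofReal (if ∀ i, S.ip (x i) w ↔ π i = true then S.M w else 0)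
        ≤ ∑' w : S.P, ∑ z ∈ Icc (-A) A ×ˢ Icc (-A) A,
          (if d * N ≤ (S.ext w : ℝ) ∧ S.Nr (η * N) (q * z.1, q * z.2) w then ENNReal.ofReal (S.M w) else 0) := by
          refine ENNReal.tsum_le_tsum fun w => ?_
          by_cases hw : ∀ i, S.ip (x i) w ↔ π i = true
          · obtain ⟨k1, z, hz, k2⟩ := key w hw
            rw [if_pos hw]
            refine le_trans ?_ (single_le_sum (fun z _ => zero_le) hz)
            rw [if_pos ⟨k1, k2⟩]
          · rw [if_neg hw]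
            simp
      _ = ∑ z ∈ Icc (-A) A ×ˢ Icc (-A) A, ∑' w : S.P,
          (if d * N ≤ (S.ext w : ℝ) ∧ S.Nr (η * N) (q * z.1, q * z.2) w then ENNReal.ofReal (S.M w) else 0) :=
          Summable.tsum_finsetSum fun _ _ => ENNReal.summable
      _ = ∑ _z ∈ Icc (-A) A ×ˢ Icc (-A) A, S.near (d * N) (η * N) :=
          sum_congr rfl fun z _ => S.a4_near_at _ _ _
      _ ≤ ∑ _z ∈ Icc (-A) A ×ˢ Icc (-A) A, 1 := by
          refine sum_le_sum fun z _ => ?_
          simpa using hnear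
      _ = _ := by simp
  have hsm : Summable fun w : S.P => (if ∀ i, S.ip (x i) w ↔ π i = true then S.M w else 0) := by
    have h1 := ENNReal.summable_toReal (ne_top_of_le_ne_top (ENNReal.natCast_ne_top _) hb)
    refine h1.congr fun w => ?_
    rw [ENNReal.toReal_ofReal (h0 w)]
  unfold Pf
  rw [← ENNReal.ofReal_le_ofReal_iff (Nat.cast_nonneg _), ENNReal.ofReal_tsum_of_nonneg h0 hsm]
  refine hb.trans ?_
  rw [ENNReal.ofReal_natCast]

end Pool.Agent.ROT.A.PSys
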