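import Pool.Agent.ROT.A0b
import Pool.Agent.ROT.A4

/-!
# ROT, block A: the assembly, `EXD`, `LR3F` ⇒ `Flow` (helper28)
-/

set_option autoImplicit false

open Finset Filter Topology

namespace Pool.Agent.ROT.A

namespace PSys

variable (S : PSys) {m : ℕ}

/-! ### the derivative along the field -/

/-- the derivative of `φ` along the linear field -/
noncomputable def FD (φ : (Fin m → ℝ × ℝ) → ℝ) (a b : ℝ) (y : Fin m → ℝ × ℝ) : ℝ :=
  fderiv ℝ φ y (fun i => B1 a b (y i))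

section tp

variable {R d : ℝ} {φ : (Fin m → ℝ × ℝ) → ℝ}

theorem Tp.mono (h : Tp R d φ) {R' : ℝ} (hR : R ≤ R') : Tp R' d φ :=
  ⟨h.smooth, fun y hy => ⟨fun i => ((h.sup y hy).1 i).trans hR, (h.sup y hy).2⟩⟩

theorem isClosed_sep : IsClosed {y : Fin m → ℝ × ℝ | (∀ i, ‖y i‖ ≤ R) ∧ ∀ i k, i ≠ k → d ≤ ‖y i - y k‖} := by
  simp only [Set.ofPred_and, Set.ofPred_forall]
  exact (isClosed_iInter fun i => isClosed_le (by fun_prop) continuous_const).inter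
    (isClosed_iInter fun i => isClosed_iInter fun k => isClosed_iInter fun _ =>
      isClosed_le continuous_const (by fun_prop))

theorem Tp.tsup (h : Tp R d φ) {y : Fin m → ℝ × ℝ} (hy : y ∈ tsupport φ) :
    (∀ i, ‖y i‖ ≤ R) ∧ ∀ i k, i ≠ k → d ≤ ‖y i - y k‖ := by
  have h1 : Function.support φ ⊆ {y : Fin m → ℝ × ℝ | (∀ i, ‖y i‖ ≤ R) ∧ ∀ i k, i ≠ k → d ≤ ‖y i - y k‖} :=
    fun x hx => h.sup x hx
  exact closure_minimal h1 isClosed_sep hy

theorem Tp.FD_sup (h : Tp R d φ) {a b : ℝ} {y : Fin m → ℝ × ℝ} (hy : FD φ a b y ≠ 0) :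
    (∀ i, ‖y i‖ ≤ R) ∧ ∀ i k, i ≠ k → d ≤ ‖y i - y k‖ := by
  refine h.tsup ?_
  by_contra hc
  have h1 : fderiv ℝ φ y = 0 := by
    have h2 := notMem_tsupport_iff_eventuallyEq.1 hc
    rw [h2.fderiv_eq]
    simp
  exact hy (by rw [FD, h1]; rfl)

theorem Tp.bd (h : Tp R d φ) (hR : 0 ≤ R) : ∃ D : ℝ, 0 ≤ D ∧ (∀ y, |φ y| ≤ D) ∧
    ∀ a b y, |FD φ a b y| ≤ D * (|a| + |b|) := by
  have hc : HasCompactSupport φ := by
    refine HasCompactSupport.intro (isCompact_closedBall (0 : Fin m → ℝ × ℝ) R) fun y hy => ?_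
    by_contra hc
    exact hy (by
      rw [mem_closedBall_zero_iff, pi_norm_le_iff_of_nonneg hR]
      exact (h.sup y hc).1)
  obtain ⟨D1, hD1⟩ := h.smooth.continuous.bounded_above_of_compact_support hc
  obtain ⟨D2, hD2⟩ := (h.smooth.continuous_fderiv (by norm_num)).bounded_above_of_compact_support
    (hc.fderiv (𝕜 := ℝ))
  have hD1' : 0 ≤ D1 := (norm_nonneg _).trans (hD1 0)
  have hD2' : 0 ≤ D2 := (norm_nonneg _).trans (hD2 0)
  refine ⟨D1 + D2 * R, by positivity, fun y => ?_, fun a b y => ?_⟩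
  · have := hD1 y
    rw [Real.norm_eq_abs] at this
    have : 0 ≤ D2 * R := by positivity
    linarith
  · by_cases hy : FD φ a b y = 0
    · rw [hy, abs_zero]
      positivity
    have h1 := (h.FD_sup hy).1
    have h2 : ‖fun i => B1 a b (y i)‖ ≤ (|a| + |b|) * R := by
      rw [pi_norm_le_iff_of_nonneg (by positivity)]
      intro i
      have h3 := h1 i
      rw [Prod.norm_def, max_le_iff, Real.norm_eq_abs, Real.norm_eq_abs] at h3
      rw [B1, Prod.norm_def, max_le_iff, Real.norm_eq_abs, Real.norm_eq_abs]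
      have k1 := mul_le_mul_of_nonneg_left h3.1 (abs_nonneg a)
      have k2 := mul_le_mul_of_nonneg_left h3.2 (abs_nonneg b)
      have k3 := mul_le_mul_of_nonneg_left h3.1 (abs_nonneg b)
      have k4 := mul_le_mul_of_nonneg_left h3.2 (abs_nonneg a)
      constructor
      · refine (abs_sub _ _).trans ?_
        rw [abs_neg, abs_mul, abs_mul]
        linarith
      · refine (abs_add_le _ _).trans ?_
        rw [abs_mul, abs_mul]
        linarith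
    have h4 := (fderiv ℝ φ y).le_of_opNorm_le (hD2 y) (fun i => B1 a b (y i))
    rw [Real.norm_eq_abs] at h4
    have h5 : D2 * ‖fun i => B1 a b (y i)‖ ≤ D2 * ((|a| + |b|) * R) := mul_le_mul_of_nonneg_left h2 hD2'
    have h6 : 0 ≤ D1 * (|a| + |b|) := by positivity
    rw [FD]
    nlinarith

end tp

/-! ### the pattern functions with weight -/

theorem PX_lin (n : ℕ) (π : Fin m → Bool) (c c' : ℝ) (X Y : S.P → ℝ) (x : Fin m → Z2) :
    S.PX n π (fun w => c * X w + c' * Y w) x = c * S.PX n π X x + c' * S.PX n π Y x := by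
  classical
  rw [PX, PX, PX, mul_sum, mul_sum, ← sum_add_distrib]
  refine sum_congr rfl fun w _ => ?_
  split_ifs
  · ring
  · ring

theorem PX_nonneg (n : ℕ) (π : Fin m → Bool) {X : S.P → ℝ} (h : ∀ p, 0 ≤ X p) (x : Fin m → Z2) :
    0 ≤ S.PX n π X x := by
  classical
  refine sum_nonneg fun w _ => ?_
  split_ifs
  · exact mul_nonneg (S.M_nn _) (h _)
  · exact le_rfl

theorem mass_nonneg (r s N : ℝ) (n : ℕ) : 0 ≤ S.mass r s N n := by
  classical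
  refine sum_nonneg fun w _ => ?_
  split_ifs
  · exact S.M_nn _
  · exact le_rfl

open Classical in
theorem W1_win (r s N : ℝ) (n : ℕ) : S.W1 n (fun p => if S.Win r s N p then 1 else 0) = S.mass r s N n := by
  rw [W1, mass]
  refine sum_congr rfl fun p _ => ?_
  by_cases h1 : S.co p = 0
  · by_cases h2 : S.Win r s N p
    · simp [h1, h2]
    · simp [h1, h2]
  · simp [h1]

theorem Win_tr (r s N : ℝ) (z : Z2) (p : S.P) : S.Win r s N (S.tr z p) ↔ S.Win r s N p := by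
  obtain ⟨h0, h1, h2, h3⟩ := S.tr_ht z p
  rw [Win, Win, h0, h1, h2, h3]
  push_cast
  rw [add_sub_add_right_eq_sub, add_sub_add_right_eq_sub]

/-! ### the split -/

section split

variable (r : ℝ) (g χ l : ℝ → ℝ) (η R : ℝ) (φ : (Fin m → ℝ × ℝ) → ℝ) (a b : ℝ) (N : ℕ)

/-- the sum of all responses -/
noncomputable def Tot (γ : Fin (m + 1) → S.P) : ℝ :=
  ∑ i, ∑ u, sg u * (a * S.hN N (γ i) u + b * S.eN N (γ i) u) * pd (Ph r g χ l η R φ) (fun i => S.hN N (γ i)) i u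

/-- the main term -/
noncomputable def Mn (γ : Fin (m + 1) → S.P) : ℝ :=
  FD φ a b (xN N fun i : Fin m => S.co (γ i.succ)) * (∏ i : Fin m, G1 g η (S.hN N (γ i.succ))) * X1 χ R (S.hN N (γ 0))

/-- the factors of the response of the tracer `i` -/
noncomputable def Gi (i k : Fin m) (p : S.P) : ℝ :=
  if k = i then Psi g η a b (S.hN N p) (S.eN N p) else G1 g η (S.hN N p)

/-- the response of the tracer `i` -/
noncomputable def Ps (i : Fin m) (γ : Fin (m + 1) → S.P) : ℝ :=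
  φ (xN N fun i : Fin m => S.co (γ i.succ)) * (∏ k : Fin m, S.Gi g η a b N i k (γ k.succ)) * X1 χ R (S.hN N (γ 0))

open Classical in
/-- the indicator of the ball and separated -/
noncomputable def f0 (R0 d : ℝ) (y : Fin m → ℝ × ℝ) : ℝ :=
  if (∀ i, ‖y i‖ ≤ R0) ∧ ∀ i k, i ≠ k → d ≤ ‖y i - y k‖ then 1 else 0

open Classical in
/-- the indicator of the far `w` -/
noncomputable def Y1 (p : S.P) : ℝ := if ∃ u, R ≤ |S.hN N p u| then 1 else 0

/-- the weight of `w` in the error -/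
noncomputable def Xe (p : S.P) : ℝ := η * X1 χ R (S.hN N p) + 2 * S.Y1 R N p

open Classical in
/-- the error -/
noncomputable def Er (s R0 d : ℝ) (γ : Fin (m + 1) → S.P) : ℝ :=
  f0 R0 d (xN N fun i : Fin m => S.co (γ i.succ)) *
    (∏ i : Fin m, (fun p => if S.Win (r * η / 2) (2 * s * η) N p then (1 : ℝ) else 0) (γ i.succ)) * S.Xe χ η R N (γ 0)

variable {r g χ l η R φ a b N}

theorem Y1_nonneg (p : S.P) : 0 ≤ S.Y1 R N p := by
  rw [Y1]
  split_ifs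
  · exact zero_le_one
  · exact le_rfl

theorem Y1_le (p : S.P) : S.Y1 R N p ≤ 1 := by
  rw [Y1]
  split_ifs
  · exact le_rfl
  · exact zero_le_one

theorem oke {N : ℕ} (hN1 : 1 ≤ N) (γ : Fin (m + 1) → S.P) :
    Oke (fun i => S.hN N (γ i)) fun i => S.eN N (γ i) := by
  have hN' : (0 : ℝ) ≤ N := by positivity
  intro i
  obtain ⟨⟨b1, b2⟩, b3, b4⟩ := S.ex01 (γ i)
  obtain ⟨⟨c1, c2⟩, c3, c4⟩ := S.ex23 (γ i)
  simp only [hN, eN]
  exact ⟨⟨⟨div_le_div_of_nonneg_right (by exact_mod_cast b1) hN',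
    div_le_div_of_nonneg_right (by exact_mod_cast b2) hN'⟩,
    div_le_div_of_nonneg_right (by exact_mod_cast b3) hN', div_le_div_of_nonneg_right (by exact_mod_cast b4) hN'⟩,
    ⟨div_le_div_of_nonneg_right (by exact_mod_cast c1) hN', div_le_div_of_nonneg_right (by exact_mod_cast c2) hN'⟩,
    div_le_div_of_nonneg_right (by exact_mod_cast c3) hN', div_le_div_of_nonneg_right (by exact_mod_cast c4) hN'⟩

theorem some_le {π : Fin m → Bool} (hπ : NT π) {N : ℕ} {γ : Fin (m + 1) → S.P} (h : S.Pt (tau π) γ) :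
    ∃ i : Fin m, S.hN N (γ i.succ) 1 - S.hN N (γ i.succ) 0 ≤ S.hN N (γ 0) 1 - S.hN N (γ 0) 0 ∧
      S.hN N (γ i.succ) 3 - S.hN N (γ i.succ) 2 ≤ S.hN N (γ 0) 3 - S.hN N (γ 0) 2 := by
  obtain ⟨⟨i, j, _, hi, _⟩, _⟩ := hπ
  refine ⟨i, ?_⟩
  have h1 : S.In (γ i.succ) (γ 0) := (h.2 i.succ 0 (Fin.succ_ne_zero i)).2 (by simpa [tau] using hi)
  obtain ⟨h2, h3, h4, h5⟩ := S.In_box _ _ h1
  have hN' : (0 : ℝ) ≤ N := by positivity
  simp only [hN]
  rw [← sub_div, ← sub_div, ← sub_div, ← sub_div]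
  have k2 : (S.ht (γ 0) 0 : ℝ) ≤ S.ht (γ i.succ) 0 := by exact_mod_cast h2
  have k3 : (S.ht (γ i.succ) 1 : ℝ) ≤ S.ht (γ 0) 1 := by exact_mod_cast h3
  have k4 : (S.ht (γ 0) 2 : ℝ) ≤ S.ht (γ i.succ) 2 := by exact_mod_cast h4
  have k5 : (S.ht (γ i.succ) 3 : ℝ) ≤ S.ht (γ 0) 3 := by exact_mod_cast h5
  exact ⟨div_le_div_of_nonneg_right (by linarith) hN', div_le_div_of_nonneg_right (by linarith) hN'⟩

/-- the product of the factors -/
theorem prod_Gi (i : Fin m) (γ : Fin m → S.P) : ∏ k : Fin m, S.Gi g η a b N i k (γ k) =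
    Psi g η a b (S.hN N (γ i)) (S.eN N (γ i)) * ∏ k ∈ univ.erase i, G1 g η (S.hN N (γ k)) := by
  rw [← mul_prod_erase univ _ (mem_univ i)]
  congr 1
  · rw [Gi, if_pos rfl]
  · refine prod_congr rfl fun k hk => ?_
    rw [Gi, if_neg (ne_of_mem_erase hk)]

open Classical in
/-- Okh gives the error term -/
theorem ind_le {s R0 d : ℝ} (hp : Prof r s g χ l) (hη : 0 < η) (hη1 : η ≤ 1) (hR : 0 < R) (hN1 : 1 ≤ N)
    (γ : Fin (m + 1) → S.P) :
    (if Okh r η R s R0 d (fun i => S.hN N (γ i)) then η + (if ∃ u, R ≤ |S.hN N (γ 0) u| then 1 else 0) else 0) ≤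
      S.Er r χ η R N s R0 d γ := by
  have hN' : (0 : ℝ) < N := by exact_mod_cast hN1
  have hX : 0 ≤ S.Xe χ η R N (γ 0) :=
    add_nonneg (mul_nonneg hη.le (hp.X1_01 _).1) (mul_nonneg (by norm_num) (S.Y1_nonneg _))
  have hf : ∀ y : Fin m → ℝ × ℝ, 0 ≤ f0 R0 d y := fun y => by
    rw [f0]
    split_ifs
    · exact zero_le_one
    · exact le_rfl
  by_cases h : Okh r η R s R0 d (fun i => S.hN N (γ i))
  · rw [if_pos h, Er]
    obtain ⟨h1, h2, h3, h4⟩ := h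
    have e1 : f0 R0 d (xN N fun i : Fin m => S.co (γ i.succ)) = 1 := by
      rw [f0, if_pos]
      exact ⟨h1, h2⟩
    have e2 : (∏ i : Fin m, (fun p => if S.Win (r * η / 2) (2 * s * η) N p then (1 : ℝ) else 0) (γ i.succ)) = 1 := by
      refine prod_eq_one fun i _ => ?_
      have := h3 i
      simp only [hN] at this
      rw [← sub_div, ← sub_div, le_div_iff₀ hN', le_div_iff₀ hN', div_le_iff₀ hN', div_le_iff₀ hN'] at this
      exact if_pos ⟨⟨this.1, this.2.1⟩, this.2.2.1, this.2.2.2⟩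
    rw [e1, e2, one_mul, one_mul, Xe, Y1]
    by_cases h5 : ∃ u, R ≤ |S.hN N (γ 0) u|
    · rw [if_pos h5, mul_one]
      have := mul_nonneg hη.le (hp.X1_01 (R := R) (S.hN N (γ 0))).1
      linarith
    · rw [if_neg h5, mul_zero, add_zero, add_zero]
      have e3 : X1 χ R (S.hN N (γ 0)) = 1 := by
        refine prod_eq_one fun u _ => hp.χ1 _ ?_
        rw [abs_div, abs_of_pos hR, div_le_one hR]
        by_contra hc
        exact h5 ⟨u, (not_le.1 hc).le⟩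
      rw [e3, mul_one]
  · rw [if_neg h, Er]
    refine mul_nonneg (mul_nonneg (hf _) (prod_nonneg fun i _ => ?_)) hX
    dsimp only
    split_ifs
    · exact zero_le_one
    · exact le_rfl

open Classical in
/-- **the split** -/
theorem split_le {s R0 d C : ℝ} {π : Fin m → Bool} (hπ : NT π) (hp : Prof r s g χ l) (hη : 0 < η) (hη1 : η ≤ 1)
    (hR : 0 < R) (hN1 : 1 ≤ N) (hC0 : 0 ≤ C)
    (hC : ∀ h e : Fin (m + 1) → Fin 4 → ℝ, Oke h e →
    (∃ i : Fin m, h i.succ 1 - h i.succ 0 ≤ h 0 1 - h 0 0 ∧ h i.succ 3 - h i.succ 2 ≤ h 0 3 - h 0 2) →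
    |(∑ i, ∑ u, sg u * (a * h i u + b * e i u) * pd (Ph r g χ l η R φ) h i u) -
      (fderiv ℝ φ (cs h) (fun i => B1 a b (cs h i)) * (∏ i : Fin m, G1 g η (h i.succ)) * X1 χ R (h 0) +
        φ (cs h) * (∑ i : Fin m, Psi g η a b (h i.succ) (e i.succ) * ∏ k ∈ univ.erase i, G1 g η (h k.succ)) *
          X1 χ R (h 0))| ≤
    C * (|a| + |b|) * (if Okh r η R s R0 d h then η + (if ∃ u, R ≤ |h 0 u| then 1 else 0) else 0)) (n : ℕ) :
    |S.fsum n (tau π) (S.Tot r g χ l η R φ a b N) -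
      (S.fsum n (tau π) (S.Mn g χ η R φ a b N) + ∑ i : Fin m, S.fsum n (tau π) (S.Ps g χ η R φ a b N i))| ≤
    C * (|a| + |b|) * S.fsum n (tau π) (S.Er r χ η R N s R0 d) := by
  rw [← fsum_sum, ← fsum_add, ← fsum_sub, ← fsum_mul]
  refine S.abs_fsum_le fun γ _ hγ => ?_
  have h1 := hC (fun i => S.hN N (γ i)) (fun i => S.eN N (γ i)) (S.oke hN1 γ) (S.some_le hπ hγ)
  have h2 := mul_le_mul_of_nonneg_left (S.ind_le (R0 := R0) (d := d) hp hη hη1 hR hN1 γ)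
    (show 0 ≤ C * (|a| + |b|) by positivity)
  refine (le_of_eq ?_).trans (h1.trans h2)
  congr 2
  congr 1
  have e : (∑ i : Fin m, S.Ps g χ η R φ a b N i γ) = φ (cs fun i => S.hN N (γ i)) *
      (∑ i : Fin m, Psi g η a b (S.hN N (γ i.succ)) (S.eN N (γ i.succ)) *
        ∏ k ∈ univ.erase i, G1 g η (S.hN N (γ k.succ))) * X1 χ R (S.hN N (γ 0)) := by
    rw [mul_sum, sum_mul]
    refine sum_congr rfl fun i _ => ?_
    rw [Ps, S.prod_Gi i fun k => γ k.succ]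
    rfl
  rw [e]

end split

/-! ### tracers are points -/

section pts

variable {r s : ℝ} {g χ l : ℝ → ℝ} {η R R0 d : ℝ} {φ : (Fin m → ℝ × ℝ) → ℝ} {a b : ℝ} {N K : ℕ} {π : Fin m → Bool}

theorem G0_le {D A : ℝ} (hp : Prof r s g χ l) (hη : 0 < η) (hN1 : 1 ≤ N) (hs : 0 ≤ s) (hD : ∀ t, |deriv g t| ≤ D)
    (hA : |a| + |b| ≤ A) (i k : Fin m) (p : S.P) : |S.Gi g η a b N i k p| ≤ 1 + 4 * s * D * A := by
  have hD0 : 0 ≤ D := (abs_nonneg _).trans (hD 0)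
  have hA0 : 0 ≤ A := (add_nonneg (abs_nonneg a) (abs_nonneg b)).trans hA
  rw [Gi]
  split_ifs
  · refine (hp.Psi_le S hη hN1 hs hD p).trans ?_
    have := mul_le_mul_of_nonneg_left hA (show 0 ≤ 4 * s * D by positivity)
    linarith
  · rw [abs_of_nonneg (hp.G1_01 _).1]
    have := (hp.G1_01 (η := η) (S.hN N p)).2
    have : 0 ≤ 4 * s * D * A := by positivity
    linarith

/-- A3 in the form needed here -/
theorem pt_le (hA3 : S.A3) (hπ : NT π) (hr : 0 < r) (hrs : r < s) (hR0 : 0 < R0) (hd : 0 < d) (hη : 0 < η)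
    (hηd : 16 * s * η ≤ d) (hsN : 1 ≤ 2 * s * η * N) (hK2 : R0 + 4 * s * η ≤ K) {ε : ℝ} (hε : 0 ≤ ε)
    (hnr : S.near (d / 2 * N) (4 * (2 * s * η) * N) ≤ ENNReal.ofReal ε)
    {F0 G0 X0 : ℝ} {f : (Fin m → ℝ × ℝ) → ℝ} {G : Fin m → S.P → ℝ} {X : S.P → ℝ}
    (hX0 : 0 ≤ X0) (hG0 : 0 ≤ G0)
    (hf : ∀ y, |f y| ≤ F0) (hfs : ∀ y, f y ≠ 0 → (∀ i, ‖y i‖ ≤ R0) ∧ ∀ i k, i ≠ k → d ≤ ‖y i - y k‖)
    (hG : ∀ i p, |G i p| ≤ G0) (hGw : ∀ i p, G i p ≠ 0 → S.Win (r * η / 2) (2 * s * η) N p)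
    (hGt : ∀ i z p, G i (S.tr z p) = G i p) (hX : ∀ p, |X p| ≤ X0) :
    |(S.fsum (K * N) (tau π) fun γ => f (xN N fun i : Fin m => S.co (γ i.succ)) * (∏ i : Fin m, G i (γ i.succ)) * X (γ 0)) -
      ∑' x : Fin m → Z2, f (xN N x) * (∏ i, S.W1 (K * N) (G i)) * S.PX (K * N) π X x| ≤
    F0 * X0 * (G0 * S.mass (r * η / 2) (2 * s * η) N (K * N)) ^ m * (2 * R0 * N + 3) ^ (2 * m) * (m * ε) := by
  have hs : 0 < s := hr.trans hrs
  have hF0 : 0 ≤ F0 := (abs_nonneg _).trans (hf 0)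
  have hnt : S.near (d / 2 * N) (4 * (2 * s * η) * N) ≠ ⊤ := ne_top_of_le_ne_top ENNReal.ofReal_ne_top hnr
  have h1 := hA3 m π R0 d (r * η / 2) (2 * s * η) F0 G0 X0 N K f G X hπ hR0 hd (by positivity)
    (by nlinarith [mul_pos hs hη, mul_pos (sub_pos.2 hrs) hη]) (by linarith) hsN (by linarith) hf hfs hG hGw hGt hX hnt
  refine h1.trans ?_
  have h2 : (S.near (d / 2 * N) (4 * (2 * s * η) * N)).toReal ≤ ε := ENNReal.toReal_le_of_le_ofReal hε hnr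
  have h3 := S.mass_nonneg (r * η / 2) (2 * s * η) N (K * N)
  gcongr

/-- the main term -/
theorem Mn_le (hA3 : S.A3) (hπ : NT π) (hr : 0 < r) (hrs : r < s) (hR0 : 0 < R0) (hd : 0 < d) (hη : 0 < η)
    (hN1 : 1 ≤ N) (hηd : 16 * s * η ≤ d) (hsN : 1 ≤ 2 * s * η * N) (hK2 : R0 + 4 * s * η ≤ K) {ε : ℝ} (hε : 0 ≤ ε)
    (hnr : S.near (d / 2 * N) (4 * (2 * s * η) * N) ≤ ENNReal.ofReal ε) (hp : Prof r s g χ l) (hφ : Tp R0 d φ)
    {F0 : ℝ} (hf : ∀ y, |FD φ a b y| ≤ F0) :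
    |S.fsum (K * N) (tau π) (S.Mn g χ η R φ a b N) -
      (S.W1 (K * N) fun p => G1 g η (S.hN N p)) ^ m *
        ∑' x : Fin m → Z2, FD φ a b (xN N x) * S.PX (K * N) π (fun p => X1 χ R (S.hN N p)) x| ≤
    F0 * (S.mass (r * η / 2) (2 * s * η) N (K * N)) ^ m * (2 * R0 * N + 3) ^ (2 * m) * (m * ε) := by
  have h1 := S.pt_le (m := m) (f := FD φ a b) (G := fun _ p => G1 g η (S.hN N p)) (X := fun p => X1 χ R (S.hN N p))
    (G0 := 1) (X0 := 1) hA3 hπ hr hrs hR0 hd hη hηd hsN hK2 hε hnr zero_le_one zero_le_one hf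
    (fun y hy => hφ.FD_sup hy) (fun i p => by
      rw [abs_of_nonneg (hp.G1_01 _).1]
      exact (hp.G1_01 _).2) (fun i p h => hp.G1_win S hη hN1 h) (fun i z p => S.G1_tr z N p) fun p => by
      rw [abs_of_nonneg (hp.X1_01 _).1]
      exact (hp.X1_01 _).2
  rw [mul_one, one_mul] at h1
  refine (le_of_eq ?_).trans h1
  congr 2
  rw [← tsum_mul_left]
  refine tsum_congr fun x => ?_
  rw [prod_const, card_univ, Fintype.card_fin]
  ring

/-- the response of a tracer -/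
theorem Ps_le (hA3 : S.A3) (hπ : NT π) (hr : 0 < r) (hrs : r < s) (hR0 : 0 < R0) (hd : 0 < d) (hη : 0 < η)
    (hN1 : 1 ≤ N) (hηd : 16 * s * η ≤ d) (hsN : 1 ≤ 2 * s * η * N) (hK2 : R0 + 4 * s * η ≤ K) {ε : ℝ} (hε : 0 ≤ ε)
    (hnr : S.near (d / 2 * N) (4 * (2 * s * η) * N) ≤ ENNReal.ofReal ε) (hp : Prof r s g χ l) (hφ : Tp R0 d φ)
    {F0 D A : ℝ} (hf : ∀ y, |φ y| ≤ F0) (hD : ∀ t, |deriv g t| ≤ D) (hA : |a| + |b| ≤ A) (i : Fin m) :
    |S.fsum (K * N) (tau π) (S.Ps g χ η R φ a b N i)| ≤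
    F0 * ((1 + 4 * s * D * A) * S.mass (r * η / 2) (2 * s * η) N (K * N)) ^ m * (2 * R0 * N + 3) ^ (2 * m) *
      (m * ε) := by
  have hs : 0 < s := hr.trans hrs
  have hD0 : 0 ≤ D := (abs_nonneg _).trans (hD 0)
  have hA0 : 0 ≤ A := (add_nonneg (abs_nonneg a) (abs_nonneg b)).trans hA
  have h1 := S.pt_le (m := m) (f := φ) (G := S.Gi g η a b N i) (X := fun p => X1 χ R (S.hN N p))
    (G0 := 1 + 4 * s * D * A) (X0 := 1) hA3 hπ hr hrs hR0 hd hη hηd hsN hK2 hε hnr zero_le_one (by positivity) hf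
    (fun y hy => hφ.sup y hy) (fun k p => S.G0_le hp hη hN1 hs.le hD hA i k p) (fun k p h => by
      rw [Gi] at h
      split_ifs at h
      · exact hp.Psi_win S hη hN1 h
      · exact hp.G1_win S hη hN1 h) (fun k z p => by
      rw [Gi, Gi, S.G1_tr, S.Psi_tr]) fun p => by
      rw [abs_of_nonneg (hp.X1_01 _).1]
      exact (hp.X1_01 _).2
  rw [mul_one] at h1
  refine (le_of_eq ?_).trans h1
  congr 1
  have h2 : ∀ x : Fin m → Z2, φ (xN N x) * (∏ k, S.W1 (K * N) (S.Gi g η a b N i k)) *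
      S.PX (K * N) π (fun p => X1 χ R (S.hN N p)) x = 0 := by
    intro x
    have e : S.W1 (K * N) (S.Gi g η a b N i i) = 0 := by
      have e' : S.Gi g η a b N i i = fun p => Psi g η a b (S.hN N p) (S.eN N p) := by
        funext p
        rw [Gi, if_pos rfl]
      rw [e', S.W1_Psi]
    rw [prod_eq_zero (mem_univ i) e]
    ring
  rw [tsum_congr h2, tsum_zero, sub_zero]
  rfl

/-- the error -/
theorem Er_le (hA3 : S.A3) (hπ : NT π) (hr : 0 < r) (hrs : r < s) (hR0 : 0 < R0) (hd : 0 < d) (hη : 0 < η)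
    (hη1 : η ≤ 1) (hN1 : 1 ≤ N) (hηd : 16 * s * η ≤ d) (hsN : 1 ≤ 2 * s * η * N) (hK2 : R0 + 4 * s * η ≤ K) {ε : ℝ}
    (hε : 0 ≤ ε) (hε1 : ε ≤ 1) (hηε : η ≤ ε)
    (hnr : S.near (d / 2 * N) (4 * (2 * s * η) * N) ≤ ENNReal.ofReal ε) (hp : Prof r s g χ l)
    {CP : ℝ} (hCP : 0 ≤ CP) (hPB : ∀ x : Fin m → Z2, (∀ i, ‖xN N x i‖ ≤ R0) → (∀ i k, i ≠ k → d ≤ ‖xN N x i - xN N x k‖) →
      S.Pf π x ≤ CP)
    (hX1 : ∀ x : Fin m → Z2, (∀ i, ‖xN N x i‖ ≤ R0) →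
      |S.PX (K * N) π (fun w => X1 χ R (S.hN N w)) x - S.Pf π x| ≤ ε ∧ S.PX (K * N) π (S.Y1 R N) x ≤ ε) :
    S.fsum (K * N) (tau π) (S.Er r χ η R N s R0 d) ≤
    (S.mass (r * η / 2) (2 * s * η) N (K * N)) ^ m * (2 * R0 * N + 3) ^ (2 * m) * ((CP + 3 + 3 * m) * ε) := by
  classical
  have hs : 0 < s := hr.trans hrs
  have hX : ∀ p, 0 ≤ S.Xe χ η R N p := fun p =>
    add_nonneg (mul_nonneg hη.le (hp.X1_01 _).1) (mul_nonneg (by norm_num) (S.Y1_nonneg _))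
  have hf01 : ∀ y : Fin m → ℝ × ℝ, 0 ≤ f0 R0 d y ∧ f0 R0 d y ≤ 1 := fun y => by
    rw [f0]
    split_ifs
    · exact ⟨zero_le_one, le_rfl⟩
    · exact ⟨le_rfl, zero_le_one⟩
  have h1 := S.pt_le (m := m) (f := f0 R0 d) (G := fun _ p => if S.Win (r * η / 2) (2 * s * η) N p then (1 : ℝ) else 0)
    (X := S.Xe χ η R N)
    (G0 := 1) (X0 := 3) (F0 := 1) hA3 hπ hr hrs hR0 hd hη hηd hsN hK2 hε hnr (by norm_num) zero_le_one
    (fun y => by
      rw [abs_of_nonneg (hf01 y).1]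
      exact (hf01 y).2)
    (fun y hy => by
      by_contra hc
      exact hy (by rw [f0, if_neg hc])) (fun i p => by
      split_ifs
      · simp
      · simp) (fun i p h => by
      by_contra hc
      exact h (if_neg hc)) (fun i z p => by simp only [S.Win_tr]) fun p => by
      rw [abs_of_nonneg (hX p), Xe]
      have k1 := mul_le_mul hη1 (hp.X1_01 (R := R) (S.hN N p)).2 (hp.X1_01 (R := R) (S.hN N p)).1 zero_le_one
      have k2 := S.Y1_le (R := R) (N := N) p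
      linarith
  set m1 := S.mass (r * η / 2) (2 * s * η) N (K * N) with hm1
  have hm0 : 0 ≤ m1 := S.mass_nonneg _ _ _ _
  set c := (2 * R0 * (N : ℝ) + 3) ^ (2 * m) with hc
  have hc0 : 0 ≤ c := by positivity
  have h2 : |∑' x : Fin m → Z2, f0 R0 d (xN N x) *
      (∏ i : Fin m, S.W1 (K * N) (fun p => if S.Win (r * η / 2) (2 * s * η) N p then (1 : ℝ) else 0)) *
      S.PX (K * N) π (S.Xe χ η R N) x| ≤ m1 ^ m * ((CP + 3) * ε) * c := by
    refine cnt hN1 hR0.le (fun x hx => ?_) fun x => ?_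
    · have : f0 R0 d (xN N x) ≠ 0 := left_ne_zero_of_mul (left_ne_zero_of_mul hx)
      by_contra hc
      exact this (by rw [f0, if_neg (fun h' => hc h'.1)])
    · rw [prod_const, card_univ, Fintype.card_fin, S.W1_win]
      have hH : 0 ≤ m1 ^ m * ((CP + 3) * ε) := by positivity
      by_cases h : (∀ i, ‖xN N x i‖ ≤ R0) ∧ ∀ i k, i ≠ k → d ≤ ‖xN N x i - xN N x k‖
      · rw [f0, if_pos h, one_mul, abs_mul, abs_of_nonneg (pow_nonneg hm0 m), abs_of_nonneg (S.PX_nonneg _ _ hX _)]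
        refine mul_le_mul_of_nonneg_left ?_ (pow_nonneg hm0 m)
        have e : S.PX (K * N) π (S.Xe χ η R N) x = η * S.PX (K * N) π (fun w => X1 χ R (S.hN N w)) x +
            2 * S.PX (K * N) π (S.Y1 R N) x := S.PX_lin _ _ _ _ _ _ _
        rw [e]
        obtain ⟨k1, k2⟩ := hX1 x h.1
        have k3 := (abs_sub_le_iff.1 k1).1
        have k4 := hPB x h.1 h.2
        have k5 : S.PX (K * N) π (fun w => X1 χ R (S.hN N w)) x ≤ CP + 1 := by linarith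
        have k6 : η * S.PX (K * N) π (fun w => X1 χ R (S.hN N w)) x ≤ ε * (CP + 1) :=
          mul_le_mul hηε k5 (S.PX_nonneg _ _ (fun p => (hp.X1_01 _).1) _) hε
        linarith
      · rw [f0, if_neg h]
        simpa using hH
  have h3 := (abs_sub_le_iff.1 h1).1
  have h4 := (le_abs_self _).trans h2
  have e : S.fsum (K * N) (tau π) (S.Er r χ η R N s R0 d) = S.fsum (K * N) (tau π) fun γ =>
      f0 R0 d (xN N fun i : Fin m => S.co (γ i.succ)) *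
    (∏ i : Fin m, (fun p => if S.Win (r * η / 2) (2 * s * η) N p then (1 : ℝ) else 0) (γ i.succ)) *
      S.Xe χ η R N (γ 0) := rfl
  rw [e]
  have h5 : 1 * 3 * (1 * m1) ^ m * c * (m * ε) = m1 ^ m * c * (3 * m * ε) := by ring
  rw [h5] at h3
  have h6 : m1 ^ m * c * ((CP + 3 + 3 * m) * ε) = m1 ^ m * c * (3 * m * ε) + m1 ^ m * ((CP + 3) * ε) * c := by ring
  rw [h6]
  linarith

/-- **one `N`** -/
theorem step_le (hA3 : S.A3) (hπ : NT π) (hr : 0 < r) (hrs : r < s) (hR0 : 0 < R0) (hd : 0 < d) (hη : 0 < η)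
    (hη1 : η ≤ 1) (hN1 : 1 ≤ N) (hηd : 16 * s * η ≤ d) (hsN : 1 ≤ 2 * s * η * N)
    (hK2 : R0 + 4 * s * η ≤ K) {ε : ℝ} (hε : 0 ≤ ε) (hε1 : ε ≤ 1) (hηε : η ≤ ε)
    (hnr : S.near (d / 2 * N) (4 * (2 * s * η) * N) ≤ ENNReal.ofReal ε) (hp : Prof r s g χ l) (hφ : Tp R0 d φ)
    {CP : ℝ} (hCP : 0 ≤ CP) (hPB : ∀ x : Fin m → Z2, (∀ i, ‖xN N x i‖ ≤ R0) → (∀ i k, i ≠ k → d ≤ ‖xN N x i - xN N x k‖) →
      S.Pf π x ≤ CP)
    (hX1 : ∀ x : Fin m → Z2, (∀ i, ‖xN N x i‖ ≤ R0) →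
      |S.PX (K * N) π (fun w => X1 χ R (S.hN N w)) x - S.Pf π x| ≤ ε ∧ S.PX (K * N) π (S.Y1 R N) x ≤ ε)
    {F0 D A C : ℝ} (hf : ∀ y, |φ y| ≤ F0) (hFD : ∀ y, |FD φ a b y| ≤ F0) (hD : ∀ t, |deriv g t| ≤ D)
    (hA : |a| + |b| ≤ A) (hC0 : 0 ≤ C)
    (hC : |S.fsum (K * N) (tau π) (S.Tot r g χ l η R φ a b N) -
      (S.fsum (K * N) (tau π) (S.Mn g χ η R φ a b N) + ∑ i : Fin m, S.fsum (K * N) (tau π) (S.Ps g χ η R φ a b N i))| ≤
    C * (|a| + |b|) * S.fsum (K * N) (tau π) (S.Er r χ η R N s R0 d)) :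
    (S.W1 (K * N) fun p => G1 g η (S.hN N p)) ^ m * |∑' x : Fin m → Z2, FD φ a b (xN N x) * S.Pf π x| ≤
      |S.fsum (K * N) (tau π) (S.Tot r g χ l η R φ a b N)| +
      (S.mass (r * η / 2) (2 * s * η) N (K * N)) ^ m * (2 * R0 * N + 3) ^ (2 * m) *
        ((F0 * m + m * (F0 * (1 + 4 * s * D * A) ^ m * m) + C * A * (CP + 3 + 3 * m)) * ε) +
      (S.W1 (K * N) fun p => G1 g η (S.hN N p)) ^ m * (2 * R0 * N + 3) ^ (2 * m) * (F0 * ε) := by
  have hs : 0 < s := hr.trans hrs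
  have hF0 : 0 ≤ F0 := (abs_nonneg _).trans (hf 0)
  have hA0 : 0 ≤ A := (add_nonneg (abs_nonneg a) (abs_nonneg b)).trans hA
  set m1 := S.mass (r * η / 2) (2 * s * η) N (K * N) with hm1
  have hm0 : 0 ≤ m1 := S.mass_nonneg _ _ _ _
  set c := (2 * R0 * (N : ℝ) + 3) ^ (2 * m) with hc
  have hc0 : 0 ≤ c := by positivity
  set W := S.W1 (K * N) fun p => G1 g η (S.hN N p) with hW
  have hW0 : 0 ≤ W := (S.mass_nonneg _ _ _ _).trans (S.mass_le_W1 hp hη hN1 (K * N))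
  set T := S.fsum (K * N) (tau π) (S.Tot r g χ l η R φ a b N) with hT
  have h1 := S.Mn_le (R := R) (a := a) (b := b) hA3 hπ hr hrs hR0 hd hη hN1 hηd hsN hK2 hε hnr hp hφ hFD
  have h2 := fun i => S.Ps_le (R := R) hA3 hπ hr hrs hR0 hd hη hN1 hηd hsN hK2 hε hnr hp hφ hf hD hA i
  have h3 := S.Er_le hA3 hπ hr hrs hR0 hd hη hη1 hN1 hηd hsN hK2 hε hε1 hηε hnr hp hCP hPB hX1
  rw [← hm1, ← hc] at h1 h3
  rw [← hW] at h1
  set Mn := S.fsum (K * N) (tau π) (S.Mn g χ η R φ a b N) with hMn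
  set Er := S.fsum (K * N) (tau π) (S.Er r χ η R N s R0 d) with hEr
  set Q := ∑' x : Fin m → Z2, FD φ a b (xN N x) * S.PX (K * N) π (fun p => X1 χ R (S.hN N p)) x with hQ
  set Q' := ∑' x : Fin m → Z2, FD φ a b (xN N x) * S.Pf π x with hQ'
  have h4 : |∑ i : Fin m, S.fsum (K * N) (tau π) (S.Ps g χ η R φ a b N i)| ≤
      m * (F0 * ((1 + 4 * s * D * A) * m1) ^ m * c * (m * ε)) := by
    refine (abs_sum_le_sum_abs _ _).trans ((sum_le_sum fun i _ => h2 i).trans ?_)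
    rw [sum_const, card_univ, Fintype.card_fin, nsmul_eq_mul]
  have h5 : C * (|a| + |b|) * Er ≤ C * A * (m1 ^ m * c * ((CP + 3 + 3 * m) * ε)) := by
    refine mul_le_mul (mul_le_mul_of_nonneg_left hA hC0) h3 ?_ (by positivity)
    refine (S.fsum_zero (K * N) (tau π)).symm.le.trans (S.fsum_mono fun γ _ _ => ?_)
    rw [PSys.Er]
    refine mul_nonneg (mul_nonneg ?_ (prod_nonneg fun i _ => ?_)) ?_
    · rw [f0]
      split_ifs
      · exact zero_le_one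
      · exact le_rfl
    · dsimp only
      split_ifs
      · exact zero_le_one
      · exact le_rfl
    · exact add_nonneg (mul_nonneg hη.le (hp.X1_01 _).1) (mul_nonneg (by norm_num) (S.Y1_nonneg _))
  have h6 : |Q - Q'| ≤ F0 * ε * c := by
    have e1 := tsum_Xs (m := m) (N := N) hN1 hR0.le
      (F := fun x => FD φ a b (xN N x) * S.PX (K * N) π (fun p => X1 χ R (S.hN N p)) x)
      fun x hx => (hφ.FD_sup (left_ne_zero_of_mul hx)).1
    have e2 := tsum_Xs (m := m) (N := N) hN1 hR0.le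
      (F := fun x => FD φ a b (xN N x) * S.Pf π x)
      fun x hx => (hφ.FD_sup (left_ne_zero_of_mul hx)).1
    have e3 : Q - Q' = ∑' x : Fin m → Z2, FD φ a b (xN N x) *
        (S.PX (K * N) π (fun p => X1 χ R (S.hN N p)) x - S.Pf π x) := by
      rw [hQ, hQ', e1, e2, ← sum_sub_distrib, tsum_Xs (m := m) (N := N) hN1 hR0.le
        fun x hx => (hφ.FD_sup (left_ne_zero_of_mul hx)).1]
      refine sum_congr rfl fun x _ => ?_
      ring
    rw [e3]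
    refine cnt hN1 hR0.le (fun x hx => (hφ.FD_sup (left_ne_zero_of_mul hx)).1) fun x => ?_
    by_cases hx : FD φ a b (xN N x) = 0
    · rw [hx, zero_mul, abs_zero]
      positivity
    · rw [abs_mul]
      exact mul_le_mul (hFD _) (hX1 x (hφ.FD_sup hx).1).1 (abs_nonneg _) hF0
  have h7 : W ^ m * |Q'| = |W ^ m * Q'| := by rw [abs_mul, abs_of_nonneg (pow_nonneg hW0 m)]
  have h8 : |W ^ m * Q - W ^ m * Q'| ≤ W ^ m * (F0 * ε * c) := by
    rw [← mul_sub, abs_mul, abs_of_nonneg (pow_nonneg hW0 m)]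
    exact mul_le_mul_of_nonneg_left h6 (pow_nonneg hW0 m)
  rw [h7]
  have h9 : |W ^ m * Q'| ≤ |T| + |Mn - W ^ m * Q| + |T - (Mn + ∑ i : Fin m, S.fsum (K * N) (tau π) (S.Ps g χ η R φ a b N i))| +
      |∑ i : Fin m, S.fsum (K * N) (tau π) (S.Ps g χ η R φ a b N i)| + |W ^ m * Q - W ^ m * Q'| := by
    have e : W ^ m * Q' = T - (Mn - W ^ m * Q) - (T - (Mn + ∑ i : Fin m, S.fsum (K * N) (tau π) (S.Ps g χ η R φ a b N i))) -
        (∑ i : Fin m, S.fsum (K * N) (tau π) (S.Ps g χ η R φ a b N i)) - (W ^ m * Q - W ^ m * Q') := by ring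
    rw [e]
    refine (abs_sub _ _).trans (add_le_add ((abs_sub _ _).trans (add_le_add ((abs_sub _ _).trans
      (add_le_add (abs_sub _ _) le_rfl)) le_rfl)) ?_)
    rw [← e]
  refine h9.trans ?_
  have h10 : m1 ^ m * c * ((F0 * m + m * (F0 * (1 + 4 * s * D * A) ^ m * m) + C * A * (CP + 3 + 3 * m)) * ε) =
      F0 * m1 ^ m * c * (m * ε) + m * (F0 * ((1 + 4 * s * D * A) * m1) ^ m * c * (m * ε)) +
      C * A * (m1 ^ m * c * ((CP + 3 + 3 * m) * ε)) := by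
    rw [mul_pow]
    ring
  rw [h10]
  have h11 : W ^ m * c * (F0 * ε) = W ^ m * (F0 * ε * c) := by ring
  rw [h11]
  linarith [h1, h4, h8, hC.trans h5]

end pts

/-- division by the masses of the tracers -/
theorem div_le {m N : ℕ} (hN1 : 1 ≤ N) {W m1 T c0 C1 η R0 Q E F ε : ℝ} (hη : 0 < η) (hc0 : 0 < c0) (hC1 : 0 ≤ C1)
    (hR0 : 0 ≤ R0) (hW : c0 ≤ (η * N) ^ 2 * W) (hm0 : 0 ≤ m1) (hm1 : (η * N) ^ 2 * m1 ≤ C1) (hT : 0 ≤ T) (hE : 0 ≤ E)
    (hF : 0 ≤ F) (hε : 0 ≤ ε)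
    (h : W ^ m * Q ≤ T + m1 ^ m * (2 * R0 * N + 3) ^ (2 * m) * (E * ε) + W ^ m * (2 * R0 * N + 3) ^ (2 * m) * (F * ε)) :
    ((N : ℝ) ^ (2 * m))⁻¹ * Q ≤ T * (η ^ 2 / c0) ^ m + (2 * R0 + 3) ^ (2 * m) * ((C1 / c0) ^ m * E + F) * ε := by
  have hN' : (1 : ℝ) ≤ N := by exact_mod_cast hN1
  have hN0 : (0 : ℝ) < N := by linarith
  have hηN : 0 < (η * N) ^ 2 := by positivity
  have hW0 : 0 < W := by
    by_contra hc
    have := mul_nonpos_of_nonneg_of_nonpos hηN.le (not_lt.1 hc)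
    linarith
  have k1 : m1 ≤ C1 / c0 * W := by
    have e1 : (η * N) ^ 2 * m1 ≤ (η * N) ^ 2 * (C1 / c0 * W) := by
      calc (η * N) ^ 2 * m1 ≤ C1 := hm1
        _ = C1 / c0 * c0 := by field_simp
        _ ≤ C1 / c0 * ((η * N) ^ 2 * W) := mul_le_mul_of_nonneg_left hW (by positivity)
        _ = _ := by ring
    exact le_of_mul_le_mul_left e1 hηN
  have k2 : m1 ^ m ≤ (C1 / c0) ^ m * W ^ m := by
    rw [← mul_pow]
    exact pow_le_pow_left₀ hm0 k1 m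
  set c := (2 * R0 * (N : ℝ) + 3) ^ (2 * m) with hc
  have hc0' : 0 ≤ c := by positivity
  have hWm : 0 < W ^ m := pow_pos hW0 m
  have k3 : W ^ m * Q ≤ W ^ m * (T * (W ^ m)⁻¹ + c * ((C1 / c0) ^ m * E + F) * ε) := by
    have e1 : m1 ^ m * c * (E * ε) ≤ (C1 / c0) ^ m * W ^ m * c * (E * ε) := by gcongr
    have e2 : W ^ m * (T * (W ^ m)⁻¹ + c * ((C1 / c0) ^ m * E + F) * ε) =
        T * (W ^ m * (W ^ m)⁻¹) + (C1 / c0) ^ m * W ^ m * c * (E * ε) + W ^ m * c * (F * ε) := by ring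
    rw [e2, mul_inv_cancel₀ hWm.ne', mul_one]
    linarith
  have k4 := le_of_mul_le_mul_left k3 hWm
  have hNm : 0 < ((N : ℝ) ^ (2 * m))⁻¹ := by positivity
  refine (mul_le_mul_of_nonneg_left k4 hNm.le).trans ?_
  rw [mul_add]
  refine add_le_add ?_ ?_
  · have e1 : (W ^ m)⁻¹ * ((N : ℝ) ^ (2 * m))⁻¹ ≤ (η ^ 2 / c0) ^ m := by
      rw [pow_mul, ← mul_inv, ← mul_pow, ← inv_pow]
      refine pow_le_pow_left₀ (by positivity) ?_ m
      rw [inv_le_comm₀ (by positivity) (by positivity), inv_div, div_le_iff₀ (by positivity)]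
      calc c0 ≤ (η * N) ^ 2 * W := hW
        _ = _ := by ring
    calc ((N : ℝ) ^ (2 * m))⁻¹ * (T * (W ^ m)⁻¹) = T * ((W ^ m)⁻¹ * ((N : ℝ) ^ (2 * m))⁻¹) := by ring
      _ ≤ _ := mul_le_mul_of_nonneg_left e1 hT
  · have e1 : ((N : ℝ) ^ (2 * m))⁻¹ * c ≤ (2 * R0 + 3) ^ (2 * m) := by
      rw [hc, ← inv_pow, ← mul_pow]
      refine pow_le_pow_left₀ (by positivity) ?_ _
      rw [inv_mul_le_iff₀ hN0]
      nlinarith
    calc ((N : ℝ) ^ (2 * m))⁻¹ * (c * ((C1 / c0) ^ m * E + F) * ε) =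
        (((N : ℝ) ^ (2 * m))⁻¹ * c) * (((C1 / c0) ^ m * E + F) * ε) := by ring
      _ ≤ (2 * R0 + 3) ^ (2 * m) * (((C1 / c0) ^ m * E + F) * ε) := by gcongr
      _ = _ := by ring

/-- **row A0**: the assembly -/
theorem flow_of {a b : ℕ → ℝ} (hE : S.EXD) (hL : S.LR3F a b) (hNr : S.Near) (hM : S.Mass) (hA1 : A1) (hA1T : A1T)
    (hA1P : A1P) (hA3 : S.A3) (hab : ∃ A : ℝ, ∀ᶠ N : ℕ in atTop, |a N| + |b N| ≤ A) : S.Flow a b := by
  intro m π R' d φ hπ hd hφ'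
  obtain ⟨A', hA'⟩ := hab
  set A := max A' 0 with hAdef
  have hA0 : 0 ≤ A := le_max_right _ _
  have hA : ∀ᶠ N : ℕ in atTop, |a N| + |b N| ≤ A := hA'.mono fun N h => h.trans (le_max_left _ _)
  set R0 := max R' 1 with hR0def
  have hR0 : 0 < R0 := lt_of_lt_of_le one_pos (le_max_right _ _)
  have hφ : Tp R0 d φ := hφ'.mono (le_max_left _ _)
  obtain ⟨⟨r, s, c0, hr, hrs, hc0, N0, hlow⟩, hup⟩ := hM
  have hs : 0 < s := hr.trans hrs
  obtain ⟨C1', N1, hup⟩ := hup (r / 2) (2 * s) (by positivity) (by linarith)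
  set C1 := max C1' 0 with hC1def
  have hC1 : 0 ≤ C1 := le_max_right _ _
  obtain ⟨g, χ, l, hp⟩ := hA1P r s hr hrs
  obtain ⟨D, hD0, hD⟩ := hp.dbd
  obtain ⟨F, hF0, hFφ, hFD⟩ := hφ.bd hR0.le
  obtain ⟨C, hC0, hC⟩ := hA1 m r s R0 d g χ l φ hr hrs hd hp hφ
  obtain ⟨CP', hCP'⟩ := S.pb hNr m π R0 d hπ hR0 hd
  set CP := max CP' 0 with hCPdef
  have hCP : 0 ≤ CP := le_max_right _ _
  have hA4 := S.a4 hNr hp m π R0
  set F0 := F * (1 + A) with hF0def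
  have hF0' : 0 ≤ F0 := by positivity
  set E := F0 * m + m * (F0 * (1 + 4 * s * D * A) ^ m * m) + C * A * (CP + 3 + 3 * m) with hEdef
  have hE0 : 0 ≤ E := by positivity
  set Z := (2 * R0 + 3) ^ (2 * m) * ((C1 / c0) ^ m * E + F0) with hZ
  have hZ0 : 0 ≤ Z := by positivity
  rw [Metric.tendsto_nhds]
  intro ε hε
  obtain ⟨ε', hε'0, hε'1, hε'⟩ : ∃ ε' : ℝ, 0 < ε' ∧ ε' ≤ 1 ∧ Z * ε' < ε / 2 := by
    refine ⟨min 1 (ε / 2 / (Z + 1)), lt_min one_pos (by positivity), min_le_left _ _, ?_⟩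
    have h1 : Z * min 1 (ε / 2 / (Z + 1)) ≤ Z * (ε / 2 / (Z + 1)) := mul_le_mul_of_nonneg_left (min_le_right _ _) hZ0
    refine h1.trans_lt ?_
    rw [← mul_div_assoc, div_lt_iff₀ (by positivity)]
    nlinarith
  obtain ⟨η1, hη1, hnear⟩ := hNr (d / 2) ε' (by positivity) hε'0
  obtain ⟨η, hη, hηε, hηd, hηn⟩ : ∃ η : ℝ, 0 < η ∧ η ≤ ε' ∧ 16 * s * η ≤ d ∧ 4 * (2 * s * η) ≤ η1 := by
    refine ⟨min ε' (min (d / (16 * s)) (η1 / (8 * s))), lt_min hε'0 (lt_min (by positivity) (by positivity)),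
      min_le_left _ _, ?_, ?_⟩
    · have h1 : min ε' (min (d / (16 * s)) (η1 / (8 * s))) ≤ d / (16 * s) := (min_le_right _ _).trans (min_le_left _ _)
      rw [le_div_iff₀ (by positivity)] at h1
      linarith
    · have h1 : min ε' (min (d / (16 * s)) (η1 / (8 * s))) ≤ η1 / (8 * s) := (min_le_right _ _).trans (min_le_right _ _)
      rw [le_div_iff₀ (by positivity)] at h1
      linarith
  have hη1' : η ≤ 1 := hηε.trans hε'1
  obtain ⟨R1, hR1⟩ := hA4 ε' hπ hR0 hε'0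
  set R := max R1 1 with hRdef
  have hR : 0 < R := lt_of_lt_of_le one_pos (le_max_right _ _)
  have hR1' := hR1 R (le_max_left _ _)
  obtain ⟨K, hK⟩ := exists_nat_ge (max (max (2 * R) (R0 + 4 * s * η)) (s * η))
  have hK1 : 2 * R ≤ K := ((le_max_left _ _).trans (le_max_left _ _)).trans hK
  have hK2 : R0 + 4 * s * η ≤ K := ((le_max_right _ _).trans (le_max_left _ _)).trans hK
  have hK3 : s * η ≤ K := (le_max_right _ _).trans hK
  have hTf : Tf (K : ℝ) (r * η / 4) (Ph r g χ l η R φ) := by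
    refine hA1T m r s R0 d g χ l φ hr hrs hd hp hφ η R hη hR K hK1 ?_
    have : 0 < s * η := by positivity
    linarith
  have hT := S.resp hE hL (tau π) (K := K) (δ := r * η / 4) (by positivity) hTf
  have hT2 : ∀ᶠ N : ℕ in atTop, |S.fsum (K * N) (tau π) (S.Tot r g χ l η R φ (a N) (b N) N)| * (η ^ 2 / c0) ^ m < ε / 2 := by
    have h1 := (hT.abs.mul_const ((η ^ 2 / c0) ^ m))
    rw [abs_zero, zero_mul] at h1
    exact h1.eventually_lt_const (by positivity)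
  have hbig : ∀ᶠ N : ℕ in atTop, 1 ≤ 2 * s * η * (N : ℝ) ∧ N0 ≤ η * (N : ℝ) ∧ N1 ≤ η * (N : ℝ) := by
    have h1 : ∀ c > (0 : ℝ), Tendsto (fun N : ℕ => c * (N : ℝ)) atTop atTop := fun c hc =>
      tendsto_natCast_atTop_atTop.const_mul_atTop hc
    exact ((h1 _ (by positivity)).eventually_ge_atTop 1).and (((h1 _ hη).eventually_ge_atTop N0).and
      ((h1 _ hη).eventually_ge_atTop N1))
  filter_upwards [hA, hCP', hnear, hR1', hT2, hbig, eventually_ge_atTop 1] with N gA gCP gnear gR gT gb hN1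
  obtain ⟨gb1, gb2, gb3⟩ := gb
  have hN' : (1 : ℝ) ≤ N := by exact_mod_cast hN1
  have hN0 : (0 : ℝ) < N := by linarith
  rw [Real.dist_eq, sub_zero, abs_mul, abs_of_nonneg (by positivity)]
  have hnr : S.near (d / 2 * N) (4 * (2 * s * η) * N) ≤ ENNReal.ofReal ε' :=
    (S.near_mono (mul_le_mul_of_nonneg_right hηn hN0.le)).trans gnear
  have hsplit := S.split_le (R0 := R0) (d := d) (l := l) (φ := φ) (a := a N) (b := b N) hπ hp hη hη1' hR hN1 hC0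
    (fun h e ho hi => hC η R hη hη1' (le_max_right _ _) (a N) (b N) h e ho hi) (K * N)
  have hFD' : ∀ y, |FD φ (a N) (b N) y| ≤ F0 := fun y => by
    refine (hFD (a N) (b N) y).trans ?_
    rw [hF0def]
    exact mul_le_mul_of_nonneg_left (by linarith) hF0
  have hFφ' : ∀ y, |φ y| ≤ F0 := fun y => by
    refine (hFφ y).trans ?_
    rw [hF0def]
    nlinarith
  have hstep := S.step_le (K := K) hA3 hπ hr hrs hR0 hd hη hη1' hN1 hηd gb1 hK2 hε'0.le hε'1 hηε hnr hp hφ hCP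
    (fun x h1 h2 => (gCP x h1 h2).trans (le_max_left _ _)) (fun x hx => gR K hK1 x hx) hFφ' hFD' hD gA hC0 hsplit
  have hKN : s * (η * N) ≤ ((K * N : ℕ) : ℝ) := by
    push_cast
    nlinarith
  have hWlow : c0 ≤ (η * N) ^ 2 * (S.W1 (K * N) fun p => G1 g η (S.hN N p)) :=
    (hlow (η * N) gb2 (K * N) hKN).trans (mul_le_mul_of_nonneg_left (S.mass_le_W1 hp hη hN1 _) (by positivity))
  have hm1 : (η * N) ^ 2 * S.mass (r * η / 2) (2 * s * η) N (K * N) ≤ C1 := by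
    rw [S.mass_eq]
    exact (hup (η * N) gb3 _).trans (le_max_left _ _)
  have hfin := div_le hN1 hη hc0 hC1 hR0.le hWlow (S.mass_nonneg _ _ _ _) hm1 (abs_nonneg _) hE0 hF0' hε'0.le hstep
  refine hfin.trans_lt ?_
  rw [← hZ]
  linarith

end PSys

end Pool.Agent.ROT.A
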