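import Mathlib

/-!
# Linear response, row A1 (helper50): the test function. Definitions

`Hts m` : heights of the members (0 = w, tracers `i.succ`), sides 0 = L, 1 = R (columns), 2 = B, 3 = T (rows).
`DD s k F h` : the discrete derivatives of (EX): L: F h - F (L - 1), R: F (R + 1) - F h, B: F (B + 1) - F h, T: F h - F (T - 1).
`Phi η R N φ` : the test function of ROT/LR_PLAN_98, section 2; `PhiR` the same in real (scaled) variables.
-/

set_option autoImplicit false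

namespace Pool.Agent.ROT.A1

open Function

/-- heights of the members: side 0 = L, 1 = R, 2 = B, 3 = T -/
abbrev Hts (m : ℕ) := Fin (m + 1) → Fin 4 → ℤ

/-- side s of the member k moved by d -/
def stp {m : ℕ} (h : Hts m) (k : Fin (m + 1)) (s : Fin 4) (d : ℤ) : Hts m :=
  update h k (update (h k) s (h k s + d))

/-- direction of the step of (EX): L - 1, R + 1, B + 1, T - 1 -/
def dlt (s : Fin 4) : ℤ := ![-1, 1, 1, -1] s

/-- the discrete derivative in side s of the member k -/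
def DD {m : ℕ} (s : Fin 4) (k : Fin (m + 1)) (F : Hts m → ℝ) (h : Hts m) : ℝ :=
  (dlt s : ℝ) * (F (stp h k s (dlt s)) - F h)

/-- bump of the size: 1 on [2, 3], 0 off (1, 4) -/
noncomputable def k1b : ContDiffBump (5 / 2 : ℝ) := ⟨1 / 2, 3 / 2, by norm_num, by norm_num⟩

/-- bump of the box: 1 on [-1, 1], 0 off (-2, 2) -/
noncomputable def rhob : ContDiffBump (0 : ℝ) := ⟨1, 2, by norm_num, by norm_num⟩

/-- the size cutoff of a tracer -/
noncomputable def kap (p : ℝ × ℝ) : ℝ := k1b p.1 * k1b p.2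

/-- the box cutoff -/
noncomputable def rho (x : ℝ) : ℝ := rhob x

/-- 0 below η / 2, 1 above η -/
noncomputable def lam (η x : ℝ) : ℝ := Real.smoothTransition (2 * x / η - 1)

/-- extents of the member k -/
def exr {m : ℕ} (x : Fin (m + 1) → Fin 4 → ℝ) (k : Fin (m + 1)) : ℝ × ℝ := (x k 1 - x k 0, x k 3 - x k 2)

/-- centre of the member k -/
noncomputable def cen {m : ℕ} (x : Fin (m + 1) → Fin 4 → ℝ) (k : Fin (m + 1)) : ℝ × ℝ :=
  ((x k 0 + x k 1) / 2, (x k 2 + x k 3) / 2)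

/-- centres of the tracers -/
noncomputable def cens {m : ℕ} (x : Fin (m + 1) → Fin 4 → ℝ) : Fin m → ℝ × ℝ := fun i => cen x i.succ

/-- the size factor of the tracer i -/
noncomputable def kp {m : ℕ} (η : ℝ) (x : Fin (m + 1) → Fin 4 → ℝ) (i : Fin m) : ℝ := kap (η⁻¹ • exr x i.succ)

/-- the factors of w -/
noncomputable def wf {m : ℕ} (η R : ℝ) (x : Fin (m + 1) → Fin 4 → ℝ) : ℝ :=
  (∏ s, rho (x 0 s / R)) * (lam η (exr x 0).1 * lam η (exr x 0).2)

/-- the test function in real variables (heights divided by N) -/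
noncomputable def PhiR {m : ℕ} (η R : ℝ) (φ : (Fin m → ℝ × ℝ) → ℝ) (x : Fin (m + 1) → Fin 4 → ℝ) : ℝ :=
  (∏ i, kp η x i) * φ (cens x) * wf η R x

/-- heights divided by N -/
noncomputable def sc {m : ℕ} (N : ℝ) (h : Hts m) : Fin (m + 1) → Fin 4 → ℝ := fun k s => (h k s : ℝ) / N

/-- **the test function** -/
noncomputable def Phi {m : ℕ} (η R N : ℝ) (φ : (Fin m → ℝ × ℝ) → ℝ) (h : Hts m) : ℝ := PhiR η R φ (sc N h)

/-- coordinate derivatives of the size cutoff -/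
noncomputable def kd (a : Fin 2) (p : ℝ × ℝ) : ℝ := fderiv ℝ kap p (if a = 0 then (1, 0) else (0, 1))

/-- coordinate derivatives of φ in the point i -/
noncomputable def pd {m : ℕ} (φ : (Fin m → ℝ × ℝ) → ℝ) (i : Fin m) (a : Fin 2) (c : Fin m → ℝ × ℝ) : ℝ :=
  fderiv ℝ φ c (Pi.single i (if a = 0 then (1, 0) else (0, 1)))

/-- all factors except the size factor of i and φ -/
noncomputable def rst {m : ℕ} (η R : ℝ) (x : Fin (m + 1) → Fin 4 → ℝ) (i : Fin m) : ℝ :=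
  (∏ j ∈ Finset.univ.erase i, kp η x j) * wf η R x

/-- the transposition of the heights -/
def sg {m : ℕ} (h : Hts m) : Hts m := fun k => ![h k 2, h k 3, h k 0, h k 1]

/-- the transposition of φ -/
def sgf {m : ℕ} (φ : (Fin m → ℝ × ℝ) → ℝ) : (Fin m → ℝ × ℝ) → ℝ := fun c => φ (fun i => (c i).swap)

/-- the support with the slack of one step: sizes of the tracers, centres, box of w, size of w -/
def Sp {m : ℕ} (η R N C0 d0 : ℝ) (h : Hts m) : Prop :=
  (∀ (i : Fin m) (a : Fin 2), η * N - 1 ≤ (h i.succ ⟨2 * a + 1, by omega⟩ : ℝ) - h i.succ ⟨2 * a, by omega⟩ ∧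
      (h i.succ ⟨2 * a + 1, by omega⟩ : ℝ) - h i.succ ⟨2 * a, by omega⟩ ≤ 4 * (η * N) + 1) ∧
    (∀ i : Fin m, ‖N⁻¹ • cen (fun k s => (h k s : ℝ)) i.succ‖ ≤ C0 + N⁻¹) ∧
    (∀ i j : Fin m, i ≠ j → d0 - N⁻¹ ≤
      ‖N⁻¹ • cen (fun k s => (h k s : ℝ)) i.succ - N⁻¹ • cen (fun k s => (h k s : ℝ)) j.succ‖) ∧
    (∀ s, |(h 0 s : ℝ)| ≤ 2 * (R * N) + 1) ∧
    (∀ a : Fin 2, η * N / 2 - 1 ≤ (h 0 ⟨2 * a + 1, by omega⟩ : ℝ) - h 0 ⟨2 * a, by omega⟩)

end Pool.Agent.ROT.A1
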