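import Pool.Agent.ROT.A2Defs

/-!
# ROT, row A2: tools (helper10)

Weighted sums with a second moment, the window sums `rsum`, translation to the corner, the symmetric constants.
-/

set_option autoImplicit false

open Finset

namespace Pool.Agent.ROT.A

namespace PSys

/-! ### weighted sums -/

namespace Wt

variable {P : Type} {w Q : P → ℝ}

theorem bd (hw : ∀ p, 0 ≤ w p) (hQ : Summable fun p => w p * Q p ^ 2) {g : P → ℝ} {c : ℝ}
    (hg : ∀ p, w p ≠ 0 → |g p| ≤ c * Q p ^ 2) :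
    (Summable fun p => w p * g p) ∧ |∑' p, w p * g p| ≤ c * ∑' p, w p * Q p ^ 2 := by
  have h1 : ∀ p, ‖w p * g p‖ ≤ c * (w p * Q p ^ 2) := by
    intro p
    rw [Real.norm_eq_abs, abs_mul, abs_of_nonneg (hw p)]
    by_cases h : w p = 0
    · simp [h]
    · calc w p * |g p| ≤ w p * (c * Q p ^ 2) := mul_le_mul_of_nonneg_left (hg p h) (hw p)
        _ = _ := by ring
  refine ⟨Summable.of_norm_bounded (hQ.mul_left c) h1, ?_⟩
  have h2 := tsum_of_norm_bounded (hQ.mul_left c).hasSum h1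
  rwa [tsum_mul_left, Real.norm_eq_abs] at h2

/-- **comparison**: the full function `ψ` against the outer function `ψ'` -/
theorem core (hw : ∀ p, 0 ≤ w p) (hQ : Summable fun p => w p * Q p ^ 2) {q0 : ℝ} (hq0 : 0 < q0)
    (hq : ∀ p, q0 ≤ Q p) {χ ψ ψ' cap : P → ℝ} {a c1 T ν d : ℝ} (hc1 : 0 ≤ c1)
    (hT : 0 < T) (hχ : ∀ p, |χ p - a| ≤ c1 * Q p) (hψ : ∀ p, |ψ p| ≤ 1) (hψ' : ∀ p, |ψ' p| ≤ 1)
    (hcap : ∀ p, 0 ≤ cap p ∧ cap p ≤ 1) (hν : 0 ≤ ν) (hd : 0 ≤ d)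
    (hdif : ∀ p, w p ≠ 0 → |ψ p - ψ' p| ≤ 2 * cap p + 2 * ν + d) :
    |∑' p, w p * (ψ p * (χ p - a))| ≤ |∑' p, w p * (ψ' p * (χ p - a))| +
      2 * c1 * (T * (∑' p, w p * cap p) + (∑' p, w p * Q p ^ 2) / T) +
      (2 * ν + d) * (c1 / q0) * ∑' p, w p * Q p ^ 2 := by
  have hQ0 : ∀ p, 0 < Q p := fun p => hq0.trans_le (hq p)
  have hQ1 : ∀ p, 1 ≤ q0⁻¹ * Q p := fun p => by
    rw [inv_mul_eq_div, le_div_iff₀ hq0]; linarith [hq p]
  have hQQ : ∀ p, Q p ≤ q0⁻¹ * Q p ^ 2 := fun p => by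
    have := mul_le_mul_of_nonneg_right (hQ1 p) (hQ0 p).le
    nlinarith
  have h11 : ∀ p, 1 ≤ (q0⁻¹ * q0⁻¹) * Q p ^ 2 := fun p => by
    have h1 := hQ1 p
    have h2 := hQQ p
    have h3 : (0 : ℝ) < q0⁻¹ := by positivity
    nlinarith
  -- summability
  have s1 : ∀ f : P → ℝ, (∀ p, |f p| ≤ 1) → Summable fun p => w p * (f p * (χ p - a)) := fun f hf =>
    (bd hw hQ (c := c1 * q0⁻¹) fun p _ => by
      rw [abs_mul]
      calc |f p| * |χ p - a| ≤ 1 * (c1 * Q p) := mul_le_mul (hf p) (hχ p) (abs_nonneg _) zero_le_one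
        _ ≤ c1 * q0⁻¹ * Q p ^ 2 := by
          have := mul_le_mul_of_nonneg_left (hQQ p) hc1
          linarith).1
  have s2 : Summable fun p => w p * cap p := (bd hw hQ (c := q0⁻¹ * q0⁻¹) fun p _ => by
    rw [abs_of_nonneg (hcap p).1]
    exact (hcap p).2.trans (h11 p)).1
  -- the difference
  have e1 : ∑' p, w p * (ψ p * (χ p - a)) - ∑' p, w p * (ψ' p * (χ p - a)) =
      ∑' p, w p * ((ψ p - ψ' p) * (χ p - a)) := by
    rw [← (s1 ψ hψ).tsum_sub (s1 ψ' hψ')]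
    exact tsum_congr fun p => by ring
  have hdom : ∀ p, ‖w p * ((ψ p - ψ' p) * (χ p - a))‖ ≤
      2 * c1 * (T * (w p * cap p) + (w p * Q p ^ 2) / T) + (2 * ν + d) * (c1 / q0) * (w p * Q p ^ 2) := by
    intro p
    rw [Real.norm_eq_abs, abs_mul, abs_mul, abs_of_nonneg (hw p)]
    by_cases h : w p = 0
    · simp [h]
    have hc := hcap p
    have t1 : cap p * Q p ≤ T * cap p + Q p ^ 2 / T := by
      by_cases hQT : Q p ≤ T
      · have : cap p * Q p ≤ cap p * T := mul_le_mul_of_nonneg_left hQT hc.1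
        have h2 : 0 ≤ Q p ^ 2 / T := by positivity
        linarith
      · have h2 : cap p * Q p ≤ Q p := by nlinarith [hQ0 p]
        have h3 : Q p ≤ Q p ^ 2 / T := by
          rw [le_div_iff₀ hT]
          nlinarith [hQ0 p]
        have h4 : 0 ≤ T * cap p := mul_nonneg hT.le hc.1
        linarith
    have t2 : |ψ p - ψ' p| * |χ p - a| ≤ (2 * cap p + 2 * ν + d) * (c1 * Q p) :=
      mul_le_mul (hdif p h) (hχ p) (abs_nonneg _) (by linarith)
    have t3 : (2 * cap p + 2 * ν + d) * (c1 * Q p) ≤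
        2 * c1 * (T * cap p + Q p ^ 2 / T) + (2 * ν + d) * (c1 / q0) * Q p ^ 2 := by
      have e : (2 * cap p + 2 * ν + d) * (c1 * Q p) = 2 * c1 * (cap p * Q p) + (2 * ν + d) * c1 * Q p := by ring
      rw [e]
      have h5 := mul_le_mul_of_nonneg_left t1 (by positivity : 0 ≤ 2 * c1)
      have h6 := mul_le_mul_of_nonneg_left (hQQ p) (by positivity : 0 ≤ (2 * ν + d) * c1)
      have e2 : (2 * ν + d) * (c1 / q0) * Q p ^ 2 = (2 * ν + d) * c1 * (q0⁻¹ * Q p ^ 2) := by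
        rw [div_eq_mul_inv]; ring
      rw [e2]
      linarith
    calc w p * (|ψ p - ψ' p| * |χ p - a|)
        ≤ w p * (2 * c1 * (T * cap p + Q p ^ 2 / T) + (2 * ν + d) * (c1 / q0) * Q p ^ 2) :=
          mul_le_mul_of_nonneg_left (t2.trans t3) (hw p)
      _ = _ := by ring
  have hs : HasSum (fun p => 2 * c1 * (T * (w p * cap p) + (w p * Q p ^ 2) / T) +
      (2 * ν + d) * (c1 / q0) * (w p * Q p ^ 2))
      (2 * c1 * (T * (∑' p, w p * cap p) + (∑' p, w p * Q p ^ 2) / T) +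
      (2 * ν + d) * (c1 / q0) * ∑' p, w p * Q p ^ 2) :=
    (((s2.hasSum.mul_left T).add (hQ.hasSum.div_const T)).mul_left _).add (hQ.hasSum.mul_left _)
  have h := tsum_of_norm_bounded hs hdom
  rw [← e1, Real.norm_eq_abs] at h
  have h' := abs_sub_abs_le_abs_sub (∑' p, w p * (ψ p * (χ p - a))) (∑' p, w p * (ψ' p * (χ p - a)))
  linarith

end Wt

end PSys

end Pool.Agent.ROT.A
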