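import Pool.Agent.ROT.A2a

/-!
# ROT, row A2: the constants of one side, symmetric in the sides (helper10)
-/

set_option autoImplicit false

open Finset

namespace Pool.Agent.ROT.A

namespace PSys

variable {S : PSys} {u : Fin 4}

theorem co_tr (z : Z2) (p : S.P) : S.co (S.tr z p) = S.co p + z := by
  have h := S.tr_ht z p
  unfold co
  rw [h.1, h.2.2.1]
  rfl

theorem wd_tr (u : Fin 4) (z : Z2) (p : S.P) : S.wd u (S.tr z p) = S.wd u p := by
  have h := S.tr_ht z p
  unfold wd
  rw [h.1, h.2.1, h.2.2.1, h.2.2.2]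
  split_ifs <;> ring

namespace Side

variable (X : S.Side u)

open Classical in
/-- the weight of the window -/
noncomputable def wt (δ K N : ℝ) (p : S.P) : ℝ := if X.win δ K N p then S.M p else 0

theorem wt_nn (δ K N : ℝ) (p : S.P) : 0 ≤ X.wt δ K N p := by
  unfold wt
  split_ifs
  · exact S.M_nn p
  · exact le_rfl

theorem wt_ne {δ K N : ℝ} {p : S.P} (h : X.wt δ K N p ≠ 0) : X.win δ K N p := by
  by_contra hc
  exact h (by unfold wt; rw [if_neg hc])

theorem rsum_wt (δ K N : ℝ) (f : S.P → ℝ) : X.rsum δ K N f = ∑' p, X.wt δ K N p * f p := by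
  unfold rsum wt
  refine tsum_congr fun p => ?_
  split_ifs <;> simp

theorem ui_wt {δ K N : ℝ} (h : Summable fun p : S.P => open Classical in
    if X.win δ K N p then S.M p * S.Qf p u ^ 2 else 0) :
    Summable fun p => X.wt δ K N p * S.Qf p u ^ 2 := by
  refine h.congr fun p => ?_
  unfold wt
  split_ifs <;> simp

/-! ### to the corner -/

/-- the polygons with the corner `0` and the polygons with the root `0` -/
def eqv0 : {p : S.P // S.co p = 0} ≃ {p : S.P // X.rt p = 0} where
  toFun p := ⟨S.tr (-X.rt p.1) p.1, by rw [X.rt_tr, add_neg_cancel]⟩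
  invFun p := ⟨(S.tr (S.co p.1)).symm p.1, by
    have h := co_tr (S.co p.1) ((S.tr (S.co p.1)).symm p.1)
    rw [Equiv.apply_symm_apply] at h
    exact (add_eq_right.1 h.symm)⟩
  left_inv p := by
    apply Subtype.ext
    have h : S.co (S.tr (-X.rt p.1) p.1) = -X.rt p.1 := by rw [co_tr, p.2, zero_add]
    simp only [h, Equiv.symm_apply_apply]
  right_inv p := by
    apply Subtype.ext
    have h : X.rt ((S.tr (S.co p.1)).symm p.1) = -S.co p.1 := by
      have h1 := X.rt_tr (S.co p.1) ((S.tr (S.co p.1)).symm p.1)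
      rw [Equiv.apply_symm_apply, p.2] at h1
      exact eq_neg_of_add_eq_zero_left h1.symm
    simp only [h, neg_neg, Equiv.apply_symm_apply]

open Classical in
/-- the term of the sum over the corner -/
noncomputable def tm (u : Fin 4) (δ K N : ℝ) (f : S.P → ℝ) (p : S.P) : ℝ :=
  if δ * N ≤ (S.wd u p : ℝ) ∧ (S.wd u p : ℝ) ≤ K * N then S.M p * f p else 0

theorem tm_tr {f : S.P → ℝ} (hf : ∀ z p, f (S.tr z p) = f p) (u : Fin 4) (δ K N : ℝ) (z : Z2) (p : S.P) :
    tm u δ K N f (S.tr z p) = tm u δ K N f p := by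
  unfold tm
  rw [wd_tr, S.tr_M, hf]

theorem rsum_co {f : S.P → ℝ} (hf : ∀ z p, f (S.tr z p) = f p) (δ K N : ℝ) :
    X.rsum δ K N f = ∑' p : {p : S.P // S.co p = 0}, tm u δ K N f p.1 := by
  have e1 : X.rsum δ K N f = ∑' p : {p : S.P // X.rt p = 0}, tm u δ K N f p.1 := by
    have h := tsum_subtype {p : S.P | X.rt p = 0} (tm u δ K N f)
    rw [show (∑' p : {p : S.P // X.rt p = 0}, tm u δ K N f p.1) =
      ∑' x : ({p : S.P | X.rt p = 0} : Set S.P), tm u δ K N f x from rfl, h]
    unfold rsum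
    refine tsum_congr fun p => ?_
    unfold win tm
    by_cases hp : X.rt p = 0
    · rw [Set.indicator_of_mem (by exact hp)]
      by_cases h2 : δ * N ≤ (S.wd u p : ℝ) ∧ (S.wd u p : ℝ) ≤ K * N
      · rw [if_pos ⟨hp, h2⟩, if_pos h2]
      · rw [if_neg fun h => h2 h.2, if_neg h2]
    · rw [Set.indicator_of_notMem (by exact hp), if_neg fun h => hp h.1]
  rw [e1, ← X.eqv0.tsum_eq]
  exact tsum_congr fun p => tm_tr hf u δ K N _ _

/-- the sums of the four sides agree -/
theorem rsum_sym (hs : S.Sym) (X : ∀ u, S.Side u) (u : Fin 4) {f : Fin 4 → S.P → ℝ}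
    (hf : ∀ u z p, f u (S.tr z p) = f u p)
    (hfe : ∀ (e : {p : S.P // S.co p = 0} ≃ {p : S.P // S.co p = 0}) (p : {p : S.P // S.co p = 0}),
      S.M (e p) = S.M p ∧ S.wd u (e p) = S.wd 3 p ∧ S.Qf (e p) u = S.Qf p 3 ∧ S.Cf (e p) u = S.Cf p 3 →
      f u (e p) = f 3 p) (δ K N : ℝ) :
    (X u).rsum δ K N (f u) = (X 3).rsum δ K N (f 3) := by
  obtain ⟨e, he⟩ := hs u
  rw [rsum_co _ (hf u), rsum_co _ (hf 3), ← e.tsum_eq]
  refine tsum_congr fun p => ?_
  have h := he p
  have h1 := hfe e p h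
  unfold tm
  rw [h.1, h.2.1, h1]

/-! ### mass from below -/

theorem mass_le {r s N : ℝ} (hs : Summable fun p => X.wt r s N p) (n : ℕ) :
    S.mass r s N n ≤ X.rsum r s N fun _ => 1 := by
  classical
  rw [rsum_wt]
  simp only [mul_one]
  unfold mass
  rw [← Finset.sum_filter]
  set T := (S.box n).filter fun p => S.co p = 0 ∧ S.Win r s N p with hT
  have hinj : Set.InjOn (fun p => S.tr (-X.rt p) p) (T : Set S.P) := by
    intro p hp q hq h
    simp only at h
    have h1 : S.co p = 0 := (Finset.mem_filter.1 hp).2.1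
    have h2 : S.co q = 0 := (Finset.mem_filter.1 hq).2.1
    have h3 := congrArg S.co h
    rw [co_tr, co_tr, h1, h2, zero_add, zero_add] at h3
    rw [h3] at h
    exact (S.tr _).injective h
  have e1 : ∑ p ∈ T, S.M p = ∑ q ∈ T.image (fun p => S.tr (-X.rt p) p), X.wt r s N q := by
    rw [Finset.sum_image hinj]
    refine Finset.sum_congr rfl fun p hp => ?_
    have h1 := (Finset.mem_filter.1 hp).2
    have hwin : X.win r s N (S.tr (-X.rt p) p) := by
      refine ⟨by rw [X.rt_tr, add_neg_cancel], ?_⟩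
      rw [wd_tr]
      unfold wd
      split_ifs
      · push_cast
        exact h1.2.1
      · push_cast
        exact h1.2.2
    unfold wt
    rw [if_pos hwin, S.tr_M]
  calc ∑ p ∈ T, S.M p = _ := e1
    _ ≤ _ := hs.sum_le_tsum _ fun p _ => X.wt_nn _ _ _ p

end Side

end PSys

end Pool.Agent.ROT.A
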