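import Pool.Agent.ROT.A2b

/-!
# ROT, row A2: the constants (helper10)

(LR3) for one polygon holds with the mean over a fixed window in the place of the constants; the means are bounded
and the same for the four sides.
-/

set_option autoImplicit false

open Finset Filter Topology

namespace Pool.Agent.ROT.A

namespace PSys

variable {S : PSys} {u : Fin 4}

namespace Side

variable (X : S.Side u)

/-- the lower bound of the mass of the window `(r, s)` -/
def MassLo (r s c : ℝ) : Prop := ∃ N0 : ℝ, ∀ N : ℝ, N0 ≤ N → c / N ^ 2 ≤ X.rsum r s N fun _ => 1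

/-- **the mean as the constant** -/
theorem lr_mean {δ K r s qm c c0 : ℝ} (hδ : 0 < δ) (hδr : δ ≤ r) (hrs : r < s) (hsK : s ≤ K) (hqm : 0 < qm)
    (hq : ∀ p, qm ≤ S.Qf p u) (hui : X.UI) (hc : 0 < c) (hm : X.MassLo r s c) {χ : S.P → ℝ}
    (hχ : ∀ p, |χ p| ≤ c0 * S.Qf p u)
    (hT : ∀ T : ℝ, 0 < T → ∃ χT : S.P → ℝ, (∀ p, |χ p - χT p| ≤ S.Qf p u ^ 2 / T) ∧ ∃ cT, X.LR δ K χT cT) :
    X.LR δ K χ fun N => X.rsum r s N χ / X.rsum r s N fun _ => 1 := by
  classical
  intro ε hε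
  obtain ⟨C1, N1, h1⟩ := hui δ K hδ (by linarith)
  obtain ⟨C2, N2, h2⟩ := hui r s (by linarith) hrs
  obtain ⟨N3, h3⟩ := hm
  set B1 : ℝ := |C1| + 1 with hB1
  set B2 : ℝ := |C2| + 1 with hB2
  have hB1p : 0 < B1 := by positivity
  have hB2p : 0 < B2 := by positivity
  set ε1 : ℝ := min (ε / 4) (ε * c * qm ^ 2 / (4 * B1)) with hε1
  have hε1p : 0 < ε1 := by
    rw [hε1]
    exact lt_min (by positivity) (by positivity)
  set T : ℝ := max (4 * B1 / ε) (B2 * (4 * B1) / (ε * c * qm ^ 2)) with hTd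
  have hTp : 0 < T := lt_of_lt_of_le (by positivity) (le_max_left _ _)
  obtain ⟨χT, hd, cT, hLR⟩ := hT T hTp
  obtain ⟨N4, h4⟩ := hLR ε1 hε1p
  refine ⟨max (max N1 N2) (max (max N3 N4) 1), fun N hN ψ hψ hψs => ?_⟩
  have g1 := h1 N ((le_max_left _ _).trans ((le_max_left _ _).trans hN))
  have g2 := h2 N ((le_max_right _ _).trans ((le_max_left _ _).trans hN))
  have g3 := h3 N ((le_max_left _ _).trans ((le_max_left _ _).trans ((le_max_right _ _).trans hN)))
  have g4 := h4 N ((le_max_right _ _).trans ((le_max_left _ _).trans ((le_max_right _ _).trans hN)))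
  have hN1 : 1 ≤ N := (le_max_right _ _).trans ((le_max_right _ _).trans hN)
  have hN0 : 0 < N := by linarith
  have hNN : 0 < N ^ 2 := by positivity
  have w1 := X.wt_nn δ K N
  have w2 := X.wt_nn r s N
  have s1 := X.ui_wt g1.1
  have s2 := X.ui_wt g2.1
  have v1 : ∑' p, X.wt δ K N p * S.Qf p u ^ 2 ≤ B1 / N ^ 2 := by
    have h := g1.2
    rw [rsum_wt] at h
    refine h.trans (div_le_div_of_nonneg_right ?_ hNN.le)
    linarith [le_abs_self C1]
  have v2 : ∑' p, X.wt r s N p * S.Qf p u ^ 2 ≤ B2 / N ^ 2 := by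
    have h := g2.2
    rw [rsum_wt] at h
    refine h.trans (div_le_div_of_nonneg_right ?_ hNN.le)
    linarith [le_abs_self C2]
  have hQ0 : ∀ p, 0 < S.Qf p u := fun p => hqm.trans_le (hq p)
  have hQ1 : ∀ p, 1 ≤ (qm ^ 2)⁻¹ * S.Qf p u ^ 2 := fun p => by
    rw [inv_mul_eq_div, le_div_iff₀ (by positivity), one_mul]
    exact pow_le_pow_left₀ hqm.le (hq p) 2
  have hQ2 : ∀ p, S.Qf p u ≤ qm⁻¹ * S.Qf p u ^ 2 := fun p => by
    rw [inv_mul_eq_div, le_div_iff₀ hqm]
    nlinarith [hQ0 p, hq p]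
  -- the sums
  set m : ℝ := X.rsum r s N fun _ => 1 with hmd
  have hmp : 0 < m := lt_of_lt_of_le (by positivity) g3
  set a : ℝ := X.rsum r s N χ / m with had
  have bχ : ∀ p, |χ p| ≤ (c0 * qm⁻¹) * S.Qf p u ^ 2 := by
    intro p
    have hc0 : 0 ≤ c0 := by
      by_contra hcon
      have := (abs_nonneg _).trans (hχ p)
      nlinarith [hQ0 p]
    refine (hχ p).trans ?_
    have := mul_le_mul_of_nonneg_left (hQ2 p) hc0
    linarith
  have bd' : ∀ p, |χ p - χT p| ≤ T⁻¹ * S.Qf p u ^ 2 := fun p => by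
    have := hd p
    rwa [div_eq_inv_mul] at this
  have bχT : ∀ p, |χT p| ≤ (c0 * qm⁻¹ + T⁻¹) * S.Qf p u ^ 2 := by
    intro p
    have h := abs_sub_abs_le_abs_sub (χT p) (χ p)
    rw [abs_sub_comm] at h
    have := bχ p
    have := bd' p
    linarith
  -- the constant of the truncation against the mean
  have e1 : |a * m - cT N * m| ≤ ε1 / N ^ 2 + T⁻¹ * (B2 / N ^ 2) := by
    have t1 := g4 (fun p => if r * N ≤ (S.wd u p : ℝ) ∧ (S.wd u p : ℝ) ≤ s * N then 1 else 0)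
      (fun p => by split_ifs <;> simp) (fun p p' h => by simp only [X.sim_wd _ p p' h])
    have t2 : X.rsum δ K N (fun p => (if r * N ≤ (S.wd u p : ℝ) ∧ (S.wd u p : ℝ) ≤ s * N then (1 : ℝ) else 0) *
        (χT p - cT N)) = (∑' p, X.wt r s N p * χT p) - cT N * m := by
      rw [rsum_wt]
      have t3 : ∀ p, X.wt δ K N p * ((if r * N ≤ (S.wd u p : ℝ) ∧ (S.wd u p : ℝ) ≤ s * N then (1 : ℝ) else 0) *
          (χT p - cT N)) = X.wt r s N p * χT p - cT N * (X.wt r s N p * 1) := by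
        intro p
        unfold wt win
        by_cases h : X.rt p = 0
        · by_cases h' : r * N ≤ (S.wd u p : ℝ) ∧ (S.wd u p : ℝ) ≤ s * N
          · have h'' : δ * N ≤ (S.wd u p : ℝ) ∧ (S.wd u p : ℝ) ≤ K * N :=
              ⟨(mul_le_mul_of_nonneg_right hδr hN0.le).trans h'.1,
                h'.2.trans (mul_le_mul_of_nonneg_right hsK hN0.le)⟩
            simp only [h, h', h'', and_self, if_true]
            ring
          · simp only [h, h', if_false, true_and]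
            ring
        · simp only [h, false_and, if_false]
          ring
      rw [tsum_congr t3, (Wt.bd w2 s2 (c := c0 * qm⁻¹ + T⁻¹) fun p _ => bχT p).1.tsum_sub
        (((Wt.bd w2 s2 (g := fun _ => 1) (c := (qm ^ 2)⁻¹) fun p _ => by
          rw [abs_one]; exact hQ1 p).1).mul_left _), tsum_mul_left, hmd, rsum_wt]
    rw [t2] at t1
    have t4 : a * m = ∑' p, X.wt r s N p * χ p := by
      rw [had, div_mul_cancel₀ _ hmp.ne', rsum_wt]
    have t5 : |(∑' p, X.wt r s N p * χ p) - ∑' p, X.wt r s N p * χT p| ≤ T⁻¹ * (B2 / N ^ 2) := by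
      rw [← (Wt.bd w2 s2 (c := c0 * qm⁻¹) fun p _ => bχ p).1.tsum_sub
        (Wt.bd w2 s2 (c := c0 * qm⁻¹ + T⁻¹) fun p _ => bχT p).1]
      have t6 := (Wt.bd w2 s2 (g := fun p => χ p - χT p) (c := T⁻¹) fun p _ => bd' p).2
      rw [tsum_congr fun p => (mul_sub (X.wt r s N p) (χ p) (χT p)).symm]
      exact t6.trans (mul_le_mul_of_nonneg_left v2 (by positivity))
    rw [t4]
    have t7 := abs_add_le ((∑' p, X.wt r s N p * χ p) - ∑' p, X.wt r s N p * χT p)
      ((∑' p, X.wt r s N p * χT p) - cT N * m)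
    rw [sub_add_sub_cancel] at t7
    linarith
  have e2 : |cT N - a| ≤ (ε1 + T⁻¹ * B2) / c := by
    rw [← sub_mul, abs_mul, abs_of_pos hmp] at e1
    rw [abs_sub_comm, le_div_iff₀ hc]
    have h5 : |a - cT N| * (c / N ^ 2) ≤ (ε1 + T⁻¹ * B2) / N ^ 2 := by
      refine (mul_le_mul_of_nonneg_left g3 (abs_nonneg _)).trans (e1.trans (le_of_eq ?_))
      ring
    have h6 : |a - cT N| * (c / N ^ 2) = (|a - cT N| * c) / N ^ 2 := by ring
    rw [h6] at h5
    exact (div_le_div_iff_of_pos_right hNN).1 h5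
  -- the main estimate
  have sψ : ∀ {f : S.P → ℝ} {c' : ℝ}, (∀ p, |f p| ≤ c' * S.Qf p u ^ 2) →
      (Summable fun p => X.wt δ K N p * (ψ p * f p)) ∧
        |∑' p, X.wt δ K N p * (ψ p * f p)| ≤ c' * ∑' p, X.wt δ K N p * S.Qf p u ^ 2 := by
    intro f c' hf
    refine Wt.bd w1 s1 fun p _ => ?_
    rw [abs_mul]
    have := mul_le_mul (hψ p) (hf p) (abs_nonneg _) zero_le_one
    linarith
  have q1 := sψ (f := fun _ => cT N - a) (c' := |cT N - a| * (qm ^ 2)⁻¹) fun p => by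
    have := mul_le_mul_of_nonneg_left (hQ1 p) (abs_nonneg (cT N - a))
    linarith
  have q2 := sψ bd'
  have q3 := sψ (f := fun p => χT p - cT N) (c' := c0 * qm⁻¹ + T⁻¹ + |cT N| * (qm ^ 2)⁻¹) fun p => by
    have h5 := abs_sub (χT p) (cT N)
    have h6 := bχT p
    have h7 := mul_le_mul_of_nonneg_left (hQ1 p) (abs_nonneg (cT N))
    linarith
  have e3 : X.rsum δ K N (fun p => ψ p * (χ p - a)) =
      (∑' p, X.wt δ K N p * (ψ p * (χT p - cT N))) + (∑' p, X.wt δ K N p * (ψ p * (χ p - χT p))) +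
        ∑' p, X.wt δ K N p * (ψ p * (cT N - a)) := by
    rw [rsum_wt, ← q3.1.tsum_add q2.1, ← (q3.1.add q2.1).tsum_add q1.1]
    exact tsum_congr fun p => by ring
  have g5 := g4 ψ hψ hψs
  rw [rsum_wt] at g5
  change |X.rsum δ K N (fun p => ψ p * (χ p - a))| ≤ ε / N ^ 2
  rw [e3]
  have r1 : |∑' p, X.wt δ K N p * (ψ p * (χ p - χT p))| ≤ T⁻¹ * (B1 / N ^ 2) :=
    q2.2.trans (mul_le_mul_of_nonneg_left v1 (by positivity))
  have r2 : |∑' p, X.wt δ K N p * (ψ p * (cT N - a))| ≤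
      (ε1 + T⁻¹ * B2) / c * (qm ^ 2)⁻¹ * (B1 / N ^ 2) := by
    refine q1.2.trans (mul_le_mul (mul_le_mul_of_nonneg_right e2 (by positivity)) v1
      (tsum_nonneg fun p => mul_nonneg (w1 p) (sq_nonneg _)) (by positivity))
  have r3 := abs_add_three (∑' p, X.wt δ K N p * (ψ p * (χT p - cT N)))
    (∑' p, X.wt δ K N p * (ψ p * (χ p - χT p))) (∑' p, X.wt δ K N p * (ψ p * (cT N - a)))
  have r4 : ε1 / N ^ 2 + T⁻¹ * (B1 / N ^ 2) + (ε1 + T⁻¹ * B2) / c * (qm ^ 2)⁻¹ * (B1 / N ^ 2) ≤ ε / N ^ 2 := by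
    have z1 : ε1 ≤ ε / 4 := min_le_left _ _
    have z2 : ε1 ≤ ε * c * qm ^ 2 / (4 * B1) := min_le_right _ _
    have z3 : T⁻¹ * B1 ≤ ε / 4 := by
      rw [inv_mul_eq_div, div_le_iff₀ hTp]
      have : 4 * B1 / ε ≤ T := le_max_left _ _
      rw [div_le_iff₀ hε] at this
      linarith
    have z4 : T⁻¹ * B2 ≤ ε * c * qm ^ 2 / (4 * B1) := by
      rw [inv_mul_eq_div, div_le_iff₀ hTp]
      have h5 : B2 * (4 * B1) / (ε * c * qm ^ 2) ≤ T := le_max_right _ _
      have h6 := mul_le_mul_of_nonneg_left h5 (by positivity : 0 ≤ ε * c * qm ^ 2 / (4 * B1))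
      refine le_trans (le_of_eq ?_) h6
      field_simp
    have z5 : (ε1 + T⁻¹ * B2) / c * (qm ^ 2)⁻¹ * B1 ≤ ε / 2 := by
      have h5 : (ε1 + T⁻¹ * B2) / c * (qm ^ 2)⁻¹ * B1 ≤
          (ε * c * qm ^ 2 / (4 * B1) + ε * c * qm ^ 2 / (4 * B1)) / c * (qm ^ 2)⁻¹ * B1 := by
        gcongr
      refine h5.trans (le_of_eq ?_)
      field_simp
      ring
    have z6 : ε1 / N ^ 2 + T⁻¹ * (B1 / N ^ 2) + (ε1 + T⁻¹ * B2) / c * (qm ^ 2)⁻¹ * (B1 / N ^ 2) =
        (ε1 + T⁻¹ * B1 + (ε1 + T⁻¹ * B2) / c * (qm ^ 2)⁻¹ * B1) / N ^ 2 := by ring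
    rw [z6]
    exact div_le_div_of_nonneg_right (by linarith) hNN.le
  linarith

/-- summability of the weight of the window -/
theorem sum_wt {qm : ℝ} (hqm : 0 < qm) (hq : ∀ p, qm ≤ S.Qf p u) {δ K N : ℝ}
    (hs : Summable fun p => X.wt δ K N p * S.Qf p u ^ 2) : Summable fun p => X.wt δ K N p := by
  have h := (Wt.bd (X.wt_nn δ K N) hs (g := fun _ => 1) (c := (qm ^ 2)⁻¹) fun p _ => by
    rw [abs_one, inv_mul_eq_div, le_div_iff₀ (by positivity), one_mul]
    exact pow_le_pow_left₀ hqm.le (hq p) 2).1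
  simpa using h

theorem lr_congr {δ K : ℝ} {χ : S.P → ℝ} {c c' : ℝ → ℝ} (h : X.LR δ K χ c) {N1 : ℝ}
    (hc : ∀ N, N1 ≤ N → c' N = c N) : X.LR δ K χ c' := by
  intro ε hε
  obtain ⟨N0, h0⟩ := h ε hε
  refine ⟨max N0 N1, fun N hN ψ hψ hψs => ?_⟩
  rw [hc N ((le_max_right _ _).trans hN)]
  exact h0 N ((le_max_left _ _).trans hN) ψ hψ hψs

end Side

/-- **the constants**: bounded, the same for the four sides and all large windows -/
theorem consts {X : ∀ u, S.Side u} {qm kC : ℝ} (h : A2In S X qm kC) :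
    ∃ (A r0 s0 : ℝ) (a b : ℝ → ℝ), 0 < r0 ∧ r0 < s0 ∧
      (∀ N, qm ≤ a N ∧ a N ≤ A ∧ 0 ≤ b N ∧ b N ≤ A) ∧ (∀ p u, S.Cf p u ≤ A) ∧
      ∀ (u : Fin 4) (δ K : ℝ), 0 < δ → δ ≤ r0 → s0 ≤ K →
        (X u).LR δ K (fun p => S.Qf p u) a ∧ (X u).LR δ K (fun p => S.Cf p u) b := by
  have hqm := h.qm_pos
  obtain ⟨r, s, c, hr, hrs, hc, N0, hN0⟩ := h.mass.1
  -- lower bound of the mass
  have hlo : ∀ u, (X u).MassLo r s c := by
    intro u
    obtain ⟨C1, N1, h1⟩ := h.ui u r s hr hrs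
    refine ⟨max (max N0 N1) 1, fun N hN => ?_⟩
    have hN1 : 1 ≤ N := (le_max_right _ _).trans hN
    have hNN : 0 < N ^ 2 := by positivity
    have g1 := h1 N ((le_max_right _ _).trans ((le_max_left _ _).trans hN))
    have s1 := (X u).sum_wt hqm (fun p => h.Q_ge p u) ((X u).ui_wt g1.1)
    have g2 := (X u).mass_le s1 ⌈s * N⌉₊
    have g3 := hN0 N ((le_max_left _ _).trans ((le_max_left _ _).trans hN)) ⌈s * N⌉₊ (Nat.le_ceil _)
    rw [div_le_iff₀ hNN]
    nlinarith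
  -- the means of the side `3`
  set aR : ℝ → ℝ := fun N => (X 3).rsum r s N (fun p => S.Qf p 3) / (X 3).rsum r s N fun _ => 1 with haR
  set bR : ℝ → ℝ := fun N => (X 3).rsum r s N (fun p => S.Cf p 3) / (X 3).rsum r s N fun _ => 1 with hbR
  have ea : ∀ u N, (X u).rsum r s N (fun p => S.Qf p u) / (X u).rsum r s N (fun _ => 1) = aR N := by
    intro u N
    rw [haR]
    rw [Side.rsum_sym (f := fun u p => S.Qf p u) h.sym X u (fun u z p => (X u).Q_tr z p) (fun e p h => h.2.2.1) r s N]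
    rw [Side.rsum_sym (f := fun _ _ => 1) h.sym X u (fun u z p => rfl) (fun e p h => rfl) r s N]
  have eb : ∀ u N, (X u).rsum r s N (fun p => S.Cf p u) / (X u).rsum r s N (fun _ => 1) = bR N := by
    intro u N
    rw [hbR]
    rw [Side.rsum_sym (f := fun u p => S.Cf p u) h.sym X u (fun u z p => (X u).C_tr z p) (fun e p h => h.2.2.2) r s N]
    rw [Side.rsum_sym (f := fun _ _ => 1) h.sym X u (fun u z p => rfl) (fun e p h => rfl) r s N]
  -- bounds of the means
  obtain ⟨C1, N1, h1⟩ := h.ui 3 r s hr hrs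
  obtain ⟨N2, h2⟩ := hlo 3
  set A : ℝ := max (max (|C1| / (qm * c)) |kC|) qm with hA
  have hA1 : |C1| / (qm * c) ≤ A := (le_max_left _ _).trans (le_max_left _ _)
  have hA2 : |kC| ≤ A := (le_max_right _ _).trans (le_max_left _ _)
  have hA3 : qm ≤ A := le_max_right _ _
  have hA0 : 0 ≤ A := (abs_nonneg _).trans hA2
  set N3 : ℝ := max (max N1 N2) 1 with hN3
  have hbd : ∀ N, N3 ≤ N → qm ≤ aR N ∧ aR N ≤ A ∧ 0 ≤ bR N ∧ bR N ≤ A := by
    intro N hN
    have hN1 : 1 ≤ N := (le_max_right _ _).trans hN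
    have hNN : 0 < N ^ 2 := by positivity
    have g1 := h1 N ((le_max_left _ _).trans ((le_max_left _ _).trans hN))
    have g2 := h2 N ((le_max_right _ _).trans ((le_max_left _ _).trans hN))
    have w1 := (X 3).wt_nn r s N
    have s2 := (X 3).ui_wt g1.1
    have s1 := (X 3).sum_wt hqm (fun p => h.Q_ge p 3) s2
    have hm : (X 3).rsum r s N (fun _ => 1) = ∑' p, (X 3).wt r s N p := by
      rw [Side.rsum_wt]; simp
    have hmp : 0 < (X 3).rsum r s N fun _ => 1 := lt_of_lt_of_le (by positivity) g2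
    have hv : ∑' p, (X 3).wt r s N p * S.Qf p 3 ^ 2 ≤ |C1| / N ^ 2 := by
      have h := g1.2
      rw [Side.rsum_wt] at h
      exact h.trans (div_le_div_of_nonneg_right (le_abs_self _) hNN.le)
    have hQ2 : ∀ p, |S.Qf p 3| ≤ qm⁻¹ * S.Qf p 3 ^ 2 := fun p => by
      have := h.Q_ge p 3
      rw [abs_of_pos (hqm.trans_le this), inv_mul_eq_div, le_div_iff₀ hqm]
      nlinarith
    have sQ := Wt.bd w1 s2 (c := qm⁻¹) fun p _ => hQ2 p
    refine ⟨?_, ?_, ?_, ?_⟩
    · show qm ≤ _ / _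
      rw [le_div_iff₀ hmp, hm, Side.rsum_wt, ← tsum_mul_left]
      refine (s1.mul_left qm).tsum_le_tsum (fun p => ?_) sQ.1
      rw [mul_comm]
      exact mul_le_mul_of_nonneg_left (h.Q_ge p 3) (w1 p)
    · show _ / _ ≤ A
      rw [div_le_iff₀ hmp]
      have e1 : (X 3).rsum r s N (fun p => S.Qf p 3) ≤ qm⁻¹ * (|C1| / N ^ 2) := by
        rw [Side.rsum_wt]
        exact (le_abs_self _).trans (sQ.2.trans (mul_le_mul_of_nonneg_left hv (by positivity)))
      refine e1.trans ?_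
      calc qm⁻¹ * (|C1| / N ^ 2) = |C1| / (qm * c) * (c / N ^ 2) := by field_simp
        _ ≤ A * (X 3).rsum r s N (fun _ => 1) := mul_le_mul hA1 g2 (by positivity) hA0
    · show 0 ≤ _ / _
      refine div_nonneg ?_ hmp.le
      rw [Side.rsum_wt]
      exact tsum_nonneg fun p => mul_nonneg (w1 p) (S.C_nn p 3)
    · show _ / _ ≤ A
      rw [div_le_iff₀ hmp, hm, Side.rsum_wt, ← tsum_mul_left]
      refine Summable.tsum_le_tsum (fun p => ?_) (Wt.bd w1 s2 (g := fun p => S.Cf p 3)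
        (c := A * (qm ^ 2)⁻¹) fun p _ => ?_).1 (s1.mul_left A)
      · rw [mul_comm A]
        exact mul_le_mul_of_nonneg_left ((h.C_le p 3).trans ((le_abs_self _).trans hA2)) (w1 p)
      · rw [abs_of_nonneg (S.C_nn p 3)]
        have e1 : S.Cf p 3 ≤ A := (h.C_le p 3).trans ((le_abs_self _).trans hA2)
        have e2 : 1 ≤ (qm ^ 2)⁻¹ * S.Qf p 3 ^ 2 := by
          rw [inv_mul_eq_div, le_div_iff₀ (by positivity), one_mul]
          exact pow_le_pow_left₀ hqm.le (h.Q_ge p 3) 2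
        nlinarith
  -- the constants
  refine ⟨A, r, s, fun N => if N3 ≤ N then aR N else qm, fun N => if N3 ≤ N then bR N else 0, hr, hrs,
    fun N => ?_, fun p u => (h.C_le p u).trans ((le_abs_self _).trans hA2), fun u δ K hδ hδr hsK => ?_⟩
  · by_cases hN : N3 ≤ N
    · simp only [hN, if_true]
      exact hbd N hN
    · simp only [hN, if_false]
      exact ⟨le_rfl, hA3, le_rfl, hA0⟩
  · have hl := h.lr u δ K hδ (by linarith)
    have hQ0 : ∀ p, 0 < S.Qf p u := fun p => hqm.trans_le (h.Q_ge p u)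
    refine ⟨?_, ?_⟩
    · refine (X u).lr_congr ((X u).lr_mean hδ hδr hrs hsK hqm (fun p => h.Q_ge p u) (h.ui u) hc (hlo u)
        (c0 := 1) (χ := fun p => S.Qf p u) (fun p => ?_) fun T hT => ?_) (N1 := N3) fun N hN => ?_
      · rw [abs_of_pos (hQ0 p), one_mul]
      · refine ⟨fun p => min (S.Qf p u) T, fun p => ?_, hl.2 T hT⟩
        show |S.Qf p u - min (S.Qf p u) T| ≤ S.Qf p u ^ 2 / T
        by_cases hQT : S.Qf p u ≤ T
        · rw [min_eq_left hQT, sub_self, abs_zero]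
          positivity
        · rw [min_eq_right (not_le.1 hQT).le, abs_of_nonneg (by linarith [not_le.1 hQT]), le_div_iff₀ hT]
          nlinarith [not_le.1 hQT, hQ0 p]
      · rw [if_pos hN]
        exact (ea u N).symm
    · refine (X u).lr_congr ((X u).lr_mean hδ hδr hrs hsK hqm (fun p => h.Q_ge p u) (h.ui u) hc (hlo u)
        (c0 := A / qm) (χ := fun p => S.Cf p u) (fun p => ?_) fun T hT => ?_) (N1 := N3) fun N hN => ?_
      · rw [abs_of_nonneg (S.C_nn p u)]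
        have e1 : S.Cf p u ≤ A := (h.C_le p u).trans ((le_abs_self _).trans hA2)
        rw [div_mul_eq_mul_div, le_div_iff₀ hqm]
        exact mul_le_mul e1 (h.Q_ge p u) hqm.le hA0
      · refine ⟨fun p => S.Cf p u, fun p => ?_, hl.1⟩
        rw [sub_self, abs_zero]
        positivity
      · rw [if_pos hN]
        exact (eb u N).symm

end PSys

end Pool.Agent.ROT.A
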