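import Pool.Agent.ROT.A2c

/-!
# ROT, row A2: families (helper10)

Splitting of the sum over the families at one member and at its root; masses of the other members.
-/

set_option autoImplicit false
set_option linter.unusedSectionVars false

open Finset Filter Topology

namespace Pool.Agent.ROT.A

namespace PSys

variable {S : PSys} {u : Fin 4}

variable {I : Type} [Fintype I] [DecidableEq I]

/-- the family with the member `p` at `i` -/
def comb (i : I) (p : S.P) (r : {k // k ≠ i} → S.P) : I → S.P :=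
  fun k => if h : k = i then p else r ⟨k, h⟩

theorem comb_self (i : I) (p : S.P) (r : {k // k ≠ i} → S.P) : comb i p r i = p := by
  unfold comb
  rw [dif_pos rfl]

theorem comb_ne (i : I) (p : S.P) (r : {k // k ≠ i} → S.P) (k : {k // k ≠ i}) : comb i p r k = r k := by
  unfold comb
  rw [dif_neg k.2]

open Classical in
theorem fsum_split (i : I) (n : ℕ) (τ : I → I → Bool) (Θ : (I → S.P) → ℝ) :
    S.fsum n τ Θ = ∑ r ∈ Fintype.piFinset (fun _ : {k // k ≠ i} => S.box n), ∑ p ∈ S.box n,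
      if S.Pt τ (comb i p r) then (S.M p * ∏ k, S.M (r k)) * Θ (comb i p r) else 0 := by
  unfold fsum
  rw [← Finset.sum_product']
  refine Finset.sum_nbij' (fun γ => (fun k : {k // k ≠ i} => γ k, γ i)) (fun x => comb i x.2 x.1) ?_ ?_ ?_ ?_ ?_
  · intro γ hγ
    rw [Fintype.mem_piFinset] at hγ
    exact Finset.mem_product.2 ⟨Fintype.mem_piFinset.2 fun k => hγ k, hγ i⟩
  · intro x hx
    rw [Finset.mem_product] at hx
    rw [Fintype.mem_piFinset]
    intro k
    by_cases h : k = i
    · subst h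
      rw [comb_self]
      exact hx.2
    · have := comb_ne i x.2 x.1 ⟨k, h⟩
      simp only at this
      rw [this]
      exact Fintype.mem_piFinset.1 hx.1 _
  · intro γ _
    funext k
    by_cases h : k = i
    · subst h
      exact comb_self _ _ _
    · exact comb_ne i _ _ ⟨k, h⟩
  · intro x _
    refine Prod.ext ?_ ?_
    · funext k
      exact comb_ne i _ _ k
    · exact comb_self _ _ _
  · intro γ _
    have e1 : comb i (γ i) (fun k : {k // k ≠ i} => γ k) = γ := by
      funext k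
      by_cases h : k = i
      · subst h
        exact comb_self _ _ _
      · exact comb_ne i _ _ ⟨k, h⟩
    simp only [e1]
    rw [Fintype.prod_eq_mul_prod_subtype_ne (fun k => S.M (γ k)) i]

/-- the lattice points of the box -/
noncomputable def Eb (n : ℕ) : Finset Z2 := Finset.Icc (-(n : ℤ)) n ×ˢ Finset.Icc (-(n : ℤ)) n

theorem mem_Eb {n : ℕ} {e : Z2} : e ∈ Eb n ↔ (-(n : ℤ) ≤ e.1 ∧ e.1 ≤ n) ∧ -(n : ℤ) ≤ e.2 ∧ e.2 ≤ n := by
  unfold Eb
  rw [Finset.mem_product, Finset.mem_Icc, Finset.mem_Icc]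

theorem card_Eb (n : ℕ) : ((Eb n).card : ℝ) = (2 * n + 1) ^ 2 := by
  unfold Eb
  rw [Finset.card_product, Int.card_Icc]
  have : ((n : ℤ) + 1 - -(n : ℤ)).toNat = 2 * n + 1 := by omega
  rw [this]
  push_cast
  ring

namespace Side

variable (X : S.Side u)

theorem rt_box {n : ℕ} {p : S.P} (hp : p ∈ S.box n) : X.rt p ∈ Eb n := by
  have h := (S.mem_box n p).1 hp
  have h1 := X.rt_in p
  have a0 := abs_le.1 (h 0)
  have a1 := abs_le.1 (h 1)
  have a2 := abs_le.1 (h 2)
  have a3 := abs_le.1 (h 3)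
  rw [mem_Eb]
  exact ⟨⟨by linarith, by linarith⟩, by linarith, by linarith⟩

open Classical in
/-- the sum over the root -/
theorem root_sum (n : ℕ) (g : S.P → ℝ) (hg : ∀ p, g p ≠ 0 → p ∈ S.box n) :
    ∑ p ∈ S.box n, g p = ∑ e ∈ Eb n, ∑' p, if X.rt p = 0 then g (S.tr e p) else 0 := by
  rw [← Finset.sum_fiberwise_of_maps_to (s := S.box n) (t := Eb n) (g := X.rt) fun p hp => X.rt_box hp]
  refine Finset.sum_congr rfl fun e _ => ?_
  have e1 : (∑' p, if X.rt p = 0 then g (S.tr e p) else 0) = ∑' p, if X.rt p = e then g p else 0 := by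
    rw [← (S.tr e).tsum_eq fun p => if X.rt p = e then g p else 0]
    refine tsum_congr fun p => ?_
    rw [X.rt_tr]
    have : X.rt p + e = e ↔ X.rt p = 0 := by
      constructor
      · intro h
        exact add_eq_right.1 h
      · intro h
        rw [h, zero_add]
    simp only [this]
  rw [e1, tsum_eq_sum (s := S.box n) fun p hp => ?_, Finset.sum_filter]
  by_cases h : g p = 0
  · simp [h]
  · exact absurd (hg p h) hp

/-- one element in each class, with the smallest cap -/
theorem exists_rep (n : ℕ) : ∃ f : S.P → S.P, (∀ p, X.Sim n p (f p)) ∧ (∀ p p', X.Sim n p p' → f p = f p') ∧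
    ∀ p, X.cd n (f p) ≤ X.cd n p := by
  classical
  let s : Setoid S.P := ⟨X.Sim n, X.eqv n⟩
  have h : ∀ q : Quotient s, ∃ p, (Quotient.mk s p = q) ∧ ∀ p', Quotient.mk s p' = q → X.cd n p ≤ X.cd n p' := by
    intro q
    have hne : ∃ m, ∃ p, Quotient.mk s p = q ∧ X.cd n p = m := by
      obtain ⟨p, hp⟩ := Quotient.exists_rep q
      exact ⟨_, p, hp, rfl⟩
    obtain ⟨p, hp, hm⟩ := Nat.find_spec hne
    refine ⟨p, hp, fun p' hp' => ?_⟩
    rw [hm]
    exact Nat.find_min' hne ⟨p', hp', rfl⟩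
  choose g hg1 hg2 using h
  refine ⟨fun p => g (Quotient.mk s p), fun p => ?_, fun p p' hp => ?_, fun p => hg2 _ p rfl⟩
  · have := Quotient.exact (hg1 (Quotient.mk s p))
    exact (X.eqv n).symm this
  · have : Quotient.mk s p = Quotient.mk s p' := Quotient.sound hp
    simp only [this]

end Side

/-! ### masses of the other members -/

/-- in the box, extents at least `δ N` -/
def Okq (δ N : ℝ) (q : S.P) : Prop := δ * N ≤ (S.ht q 1 : ℝ) - S.ht q 0 ∧ δ * N ≤ (S.ht q 3 : ℝ) - S.ht q 2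

theorem co_box {n : ℕ} {q : S.P} (hq : q ∈ S.box n) : S.co q ∈ Eb n := by
  have h := (S.mem_box n q).1 hq
  have a0 := abs_le.1 (h 0)
  have a2 := abs_le.1 (h 2)
  rw [mem_Eb]
  exact ⟨a0, a2⟩

open Classical in
/-- the mass of the members with large extents in the box -/
theorem mass_box {K n : ℕ} {δ N s : ℝ} (hn : (n : ℝ) ≤ K * N) (hs : 2 * (K : ℝ) ≤ s) (hN : 0 ≤ N) :
    ∑ q ∈ (S.box n).filter (Okq δ N), S.M q ≤ (2 * n + 1) ^ 2 * S.mass δ s N (2 * n) := by
  rw [← Finset.sum_fiberwise_of_maps_to (s := (S.box n).filter (Okq δ N)) (t := Eb n) (g := S.co)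
    fun p hp => co_box (Finset.mem_filter.1 hp).1]
  rw [← card_Eb, ← nsmul_eq_mul, ← Finset.sum_const]
  refine Finset.sum_le_sum fun e _ => ?_
  unfold mass
  rw [← Finset.sum_filter]
  have hinj : Set.InjOn (fun p => S.tr (-e) p) ((((S.box n).filter (Okq δ N)).filter fun p => S.co p = e) : Set S.P) :=
    fun p _ q _ h => (S.tr _).injective h
  have e1 : ∑ q ∈ ((S.box n).filter (Okq δ N)).filter (fun p => S.co p = e), S.M q =
      ∑ q ∈ (((S.box n).filter (Okq δ N)).filter fun p => S.co p = e).image (fun p => S.tr (-e) p), S.M q := by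
    rw [Finset.sum_image hinj]
    exact Finset.sum_congr rfl fun p _ => (S.tr_M _ _).symm
  rw [e1]
  refine Finset.sum_le_sum_of_subset_of_nonneg (fun q hq => ?_) fun q _ _ => S.M_nn q
  obtain ⟨p, hp, rfl⟩ := Finset.mem_image.1 hq
  rw [Finset.mem_filter, Finset.mem_filter] at hp
  obtain ⟨⟨hb, ho⟩, hc⟩ := hp
  have h := (S.mem_box n p).1 hb
  have a0 := abs_le.1 (h 0)
  have a1 := abs_le.1 (h 1)
  have a2 := abs_le.1 (h 2)
  have a3 := abs_le.1 (h 3)
  have ht := S.tr_ht (-e) p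
  have c1 : S.ht p 0 = e.1 := by rw [← hc]; rfl
  have c2 : S.ht p 2 = e.2 := by rw [← hc]; rfl
  have f1 : (-e).1 = -e.1 := rfl
  have f2 : (-e).2 = -e.2 := rfl
  rw [Finset.mem_filter]
  have b0 : (-(n : ℝ)) ≤ S.ht p 0 ∧ (S.ht p 0 : ℝ) ≤ n := ⟨by exact_mod_cast a0.1, by exact_mod_cast a0.2⟩
  have b1 : (-(n : ℝ)) ≤ S.ht p 1 ∧ (S.ht p 1 : ℝ) ≤ n := ⟨by exact_mod_cast a1.1, by exact_mod_cast a1.2⟩
  have b2 : (-(n : ℝ)) ≤ S.ht p 2 ∧ (S.ht p 2 : ℝ) ≤ n := ⟨by exact_mod_cast a2.1, by exact_mod_cast a2.2⟩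
  have b3 : (-(n : ℝ)) ≤ S.ht p 3 ∧ (S.ht p 3 : ℝ) ≤ n := ⟨by exact_mod_cast a3.1, by exact_mod_cast a3.2⟩
  have hsN : 2 * (n : ℝ) ≤ s * N := by nlinarith [mul_le_mul_of_nonneg_right hs hN]
  refine ⟨?_, ?_, ?_⟩
  · rw [S.mem_box]
    intro v
    have key : ∀ x : ℤ, (x = S.ht p 0 + (-e).1 ∨ x = S.ht p 1 + (-e).1 ∨ x = S.ht p 2 + (-e).2 ∨
        x = S.ht p 3 + (-e).2) → |x| ≤ ((2 * n : ℕ) : ℤ) := by
      intro x hx
      rw [f1, f2, ← c1, ← c2] at hx
      push_cast
      rw [abs_le]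
      rcases hx with rfl | rfl | rfl | rfl
      · constructor <;> linarith
      · constructor <;> linarith
      · constructor <;> linarith
      · constructor <;> linarith
    fin_cases v
    · exact key _ (Or.inl ht.1)
    · exact key _ (Or.inr (Or.inl ht.2.1))
    · exact key _ (Or.inr (Or.inr (Or.inl ht.2.2.1)))
    · exact key _ (Or.inr (Or.inr (Or.inr ht.2.2.2)))
  · rw [co_tr, hc, add_neg_cancel]
  · unfold Win
    rw [ht.1, ht.2.1, ht.2.2.1, ht.2.2.2]
    push_cast
    have o1 := ho.1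
    have o2 := ho.2
    refine ⟨⟨by linarith, by linarith⟩, by linarith, by linarith⟩

open Classical in
/-- the mass of the members near a point -/
theorem near_box {n : ℕ} {δ N ρ ε : ℝ} (hε : 0 ≤ ε) (hnr : S.near (δ * N) ρ ≤ ENNReal.ofReal ε) (e : Z2) :
    ∑ q ∈ (S.box n).filter (Okq δ N), (if S.Nr ρ e q then S.M q else 0) ≤ ε := by
  rw [← Finset.sum_filter, ← ENNReal.ofReal_le_ofReal_iff hε]
  refine le_trans ?_ hnr
  rw [ENNReal.ofReal_sum_of_nonneg fun q _ => S.M_nn q]
  unfold near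
  rw [← (S.tr (-e)).tsum_eq]
  have e1 : ∑ q ∈ ((S.box n).filter (Okq δ N)).filter (fun q => S.Nr ρ e q), ENNReal.ofReal (S.M q) =
      ∑ q ∈ ((S.box n).filter (Okq δ N)).filter (fun q => S.Nr ρ e q),
        (if δ * N ≤ (S.ext (S.tr (-e) q) : ℝ) ∧ S.Nr ρ 0 (S.tr (-e) q) then
          ENNReal.ofReal (S.M (S.tr (-e) q)) else 0) := by
    refine Finset.sum_congr rfl fun q hq => ?_
    rw [Finset.mem_filter, Finset.mem_filter] at hq
    obtain ⟨⟨_, ho⟩, s, hs, h1, h2⟩ := hq
    have ht := S.tr_ht (-e) q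
    rw [if_pos, S.tr_M]
    refine ⟨?_, s - e, ?_, ?_, ?_⟩
    · unfold ext
      rw [ht.1, ht.2.1]
      push_cast
      refine le_max_of_le_left ?_
      have := ho.1
      linarith
    · rw [sub_eq_add_neg]
      exact (S.tr_st _ _ _).1 hs
    · show |(((s.1 - e.1 : ℤ)) : ℝ) - ((0 : ℤ) : ℝ)| ≤ ρ
      push_cast
      rw [sub_zero]
      exact h1
    · show |(((s.2 - e.2 : ℤ)) : ℝ) - ((0 : ℤ) : ℝ)| ≤ ρ
      push_cast
      rw [sub_zero]
      exact h2
  rw [e1]
  exact ENNReal.sum_le_tsum _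

/-- product masses -/
theorem prod_mass {J : Type} [Fintype J] [DecidableEq J] {T : Finset S.P} {B : ℝ} (hB : ∑ q ∈ T, S.M q ≤ B) :
    ∑ r ∈ Fintype.piFinset (fun _ : J => T), ∏ k, S.M (r k) ≤ B ^ Fintype.card J := by
  rw [← Finset.prod_univ_sum (fun _ : J => T) fun _ q => S.M q, Finset.prod_const, Finset.card_univ]
  exact pow_le_pow_left₀ (Finset.sum_nonneg fun q _ => S.M_nn q) hB _

open Classical in
/-- product masses, one member near a point -/
theorem prod_near {J : Type} [Fintype J] [DecidableEq J] {T : Finset S.P} {B ε : ℝ} (hB1 : 1 ≤ B)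
    (hB : ∑ q ∈ T, S.M q ≤ B) {A : S.P → Prop} (hA : ∑ q ∈ T, (if A q then S.M q else 0) ≤ ε) :
    ∑ r ∈ Fintype.piFinset (fun _ : J => T), (∏ k, S.M (r k)) * (if ∃ k, A (r k) then 1 else 0) ≤
      Fintype.card J * (ε * B ^ Fintype.card J) := by
  have hε : 0 ≤ ε := le_trans (Finset.sum_nonneg fun q _ => by split_ifs; exacts [S.M_nn q, le_rfl]) hA
  have h1 : ∀ r : J → S.P, (∏ k, S.M (r k)) * (if ∃ k, A (r k) then (1 : ℝ) else 0) ≤
      ∑ k, ∏ k', if k' = k then (if A (r k') then S.M (r k') else 0) else S.M (r k') := by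
    intro r
    have hnn : ∀ k, 0 ≤ ∏ k', if k' = k then (if A (r k') then S.M (r k') else 0) else S.M (r k') := by
      intro k
      refine Finset.prod_nonneg fun k' _ => ?_
      split_ifs
      · exact S.M_nn _
      · exact le_rfl
      · exact S.M_nn _
    by_cases h : ∃ k, A (r k)
    · rw [if_pos h, mul_one]
      obtain ⟨k, hk⟩ := h
      refine le_trans (le_of_eq ?_) (Finset.single_le_sum (fun k _ => hnn k) (Finset.mem_univ k))
      refine Finset.prod_congr rfl fun k' _ => ?_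
      split_ifs with h1 h2
      · rfl
      · rw [h1] at h2
        exact absurd hk h2
      · rfl
    · rw [if_neg h, mul_zero]
      exact Finset.sum_nonneg fun k _ => hnn k
  refine (Finset.sum_le_sum fun r _ => h1 r).trans ?_
  rw [Finset.sum_comm, ← nsmul_eq_mul, ← Finset.card_univ, ← Finset.sum_const]
  refine Finset.sum_le_sum fun k _ => ?_
  rw [← Finset.prod_univ_sum (fun _ : J => T)
    fun k' q => if k' = k then (if A q then S.M q else 0) else S.M q, ← Finset.mul_prod_erase _ _ (Finset.mem_univ k)]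
  simp only [if_true]
  refine mul_le_mul hA ?_ (Finset.prod_nonneg fun k' _ => Finset.sum_nonneg fun q _ => ?_) hε
  · calc ∏ k' ∈ univ.erase k, ∑ q ∈ T, (if k' = k then (if A q then S.M q else 0) else S.M q)
        ≤ ∏ k' ∈ (univ : Finset J).erase k, B := by
          refine Finset.prod_le_prod (fun k' _ => Finset.sum_nonneg fun q _ => ?_) fun k' hk' => ?_
          · split_ifs
            · exact S.M_nn _
            · exact le_rfl
            · exact S.M_nn _
          · rw [Finset.mem_erase] at hk'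
            simp only [hk'.1, if_false]
            exact hB
      _ = B ^ ((univ : Finset J).erase k).card := by rw [Finset.prod_const]
      _ ≤ B ^ (univ : Finset J).card := pow_le_pow_right₀ hB1 (Finset.card_le_card (Finset.erase_subset _ _))
  · split_ifs
    · exact S.M_nn _
    · exact le_rfl
    · exact S.M_nn _

end PSys

end Pool.Agent.ROT.A
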