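import Pool.Agent.ROT.A2d

/-!
# ROT, row A2: the estimate for one root and fixed other members (helper10)
-/

set_option autoImplicit false
set_option linter.unusedSectionVars false

open Finset Filter Topology

namespace Pool.Agent.ROT.A

namespace PSys

variable {S : PSys} {u : Fin 4}

variable {I : Type} [Fintype I] [DecidableEq I]

namespace Side

variable (X : S.Side u)

theorem pt_imp {i : I} {τ : I → I → Bool} {n : ℕ} {p p' : S.P} {r : {k // k ≠ i} → S.P} (hs : X.Sim n p p')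
    (hr : ∀ k, ¬ S.Nz (max (X.cd n p) (X.cd n p') + 2) (X.rt p) (r k)) (h : S.Pt τ (comb i p r)) :
    S.Pt τ (comb i p' r) := by
  have hcn : ∀ (q : S.P) (k : I) (hk : k ≠ i), comb i q r k = r ⟨k, hk⟩ := fun q k hk => comb_ne i q r ⟨k, hk⟩
  have d1 : ∀ (k : I) (hk : k ≠ i), S.Dj p (r ⟨k, hk⟩) := fun k hk => by
    have := h.1 i k hk.symm
    rwa [comb_self, hcn p k hk] at this
  have d2 : ∀ (k : I) (hk : k ≠ i), S.Dj (r ⟨k, hk⟩) p := fun k hk => by
    have := h.1 k i hk
    rwa [comb_self, hcn p k hk] at this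
  refine ⟨fun j k hjk => ?_, fun j k hjk => ?_⟩
  · by_cases hj : j = i
    · subst hj
      rw [comb_self, hcn p' k hjk.symm]
      exact (X.sim_rel n p p' _ hs (hr _)).1.1 (d1 k hjk.symm)
    · by_cases hk : k = i
      · subst hk
        rw [comb_self, hcn p' j hj]
        exact (X.sim_rel n p p' _ hs (hr _)).2.1.1 (d2 j hj)
      · have := h.1 j k hjk
        rw [hcn p j hj, hcn p k hk] at this
        rwa [hcn p' j hj, hcn p' k hk]
  · by_cases hj : j = i
    · subst hj
      have := h.2 j k hjk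
      rw [comb_self, hcn p k hjk.symm] at this
      rw [comb_self, hcn p' k hjk.symm, ← this]
      exact ((X.sim_rel n p p' _ hs (hr _)).2.2 (d1 k hjk.symm) (d2 k hjk.symm)).1.symm
    · by_cases hk : k = i
      · subst hk
        have := h.2 j k hjk
        rw [comb_self, hcn p j hj] at this
        rw [comb_self, hcn p' j hj, ← this]
        exact ((X.sim_rel n p p' _ hs (hr _)).2.2 (d1 j hj) (d2 j hj)).2.symm
      · have := h.2 j k hjk
        rw [hcn p j hj, hcn p k hk] at this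
        rwa [hcn p' j hj, hcn p' k hk]

theorem pt_iff {i : I} {τ : I → I → Bool} {n : ℕ} {p p' : S.P} {r : {k // k ≠ i} → S.P} (hs : X.Sim n p p')
    (hr : ∀ k, ¬ S.Nz (max (X.cd n p) (X.cd n p') + 2) (X.rt p) (r k)) :
    S.Pt τ (comb i p r) ↔ S.Pt τ (comb i p' r) := by
  refine ⟨X.pt_imp hs hr, X.pt_imp ((X.eqv n).symm hs) ?_⟩
  rw [max_comm, ← X.sim_rt n p p' hs]
  exact hr

end Side

open Classical in
/-- the outer function of the member `i` -/
noncomputable def ps (τ : I → I → Bool) (i : I) (u : Fin 4) (θ : (I → Fin 4 → ℝ) × ℝ → ℝ) (N : ℕ) (L : ℝ)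
    (r : {k // k ≠ i} → S.P) (p : S.P) : ℝ :=
  if S.Pt τ (comb i p r) then θ (fun k => S.hN N (comb i p r k), S.eN N p u) / L else 0

section

variable {τ : I → I → Bool} {i : I} {θ : (I → Fin 4 → ℝ) × ℝ → ℝ} {N : ℕ} {L : ℝ} {Λ : NNReal}

theorem ps_le (hθb : ∀ x, |θ x| ≤ Λ) (hL : Λ ≤ L) (hL0 : 0 < L) (r : {k // k ≠ i} → S.P) (p : S.P) :
    |ps τ i u θ N L r p| ≤ 1 := by
  unfold ps
  split_ifs
  · rw [abs_div, abs_of_pos hL0, div_le_one hL0]
    exact (hθb _).trans hL
  · simp

theorem Side.ps_dif (X : S.Side u) (hθ : LipschitzWith Λ θ) (hL : Λ ≤ L) (hL0 : 0 < L) (hN : 0 < N) {n : ℕ}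
    {p p' : S.P} {r : {k // k ≠ i} → S.P} (hs : X.Sim n p p')
    (hr : ∀ k, ¬ S.Nz (max (X.cd n p) (X.cd n p') + 2) (X.rt p) (r k)) :
    |ps τ i u θ N L r p - ps τ i u θ N L r p'| ≤ 2 * ((max (X.cd n p) (X.cd n p') : ℕ) : ℝ) / N := by
  set m : ℕ := max (X.cd n p) (X.cd n p') with hm
  have hNr : (0 : ℝ) < N := by exact_mod_cast hN
  have hm0 : (0 : ℝ) ≤ m := Nat.cast_nonneg m
  have hb : (0 : ℝ) ≤ 2 * (m : ℝ) / N := by positivity
  unfold ps
  by_cases h : S.Pt τ (comb i p r)
  · rw [if_pos h, if_pos ((X.pt_iff hs hr).1 h), ← sub_div, abs_div, abs_of_pos hL0, div_le_iff₀ hL0]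
    have h1 := hθ.dist_le_mul (fun k => S.hN N (comb i p r k), S.eN N p u)
      (fun k => S.hN N (comb i p' r k), S.eN N p' u)
    rw [Real.dist_eq] at h1
    refine h1.trans ?_
    rw [mul_comm (2 * (m : ℝ) / N)]
    refine mul_le_mul hL ?_ dist_nonneg hL0.le
    rw [Prod.dist_eq]
    refine max_le ?_ ?_
    · rw [dist_pi_le_iff hb]
      intro k
      rw [dist_pi_le_iff hb]
      intro j
      by_cases hk : k = i
      · subst hk
        simp only [comb_self]
        unfold PSys.hN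
        rw [Real.dist_eq, ← sub_div, abs_div, abs_of_pos hNr]
        refine div_le_div_of_nonneg_right ?_ hNr.le
        have h2 := X.sim_ht n p p' hs j
        have h3 : |(S.ht p j : ℝ) - S.ht p' j| ≤ m := by
          rw [hm]
          exact_mod_cast h2
        linarith
      · have e1 := comb_ne i p r ⟨k, hk⟩
        have e2 := comb_ne i p' r ⟨k, hk⟩
        simp only at e1 e2
        show dist (S.hN N (comb i p r k) j) (S.hN N (comb i p' r k) j) ≤ _
        rw [e1, e2, dist_self]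
        exact hb
    · simp only
      unfold eN
      rw [Real.dist_eq, ← sub_div, abs_div, abs_of_pos hNr]
      refine div_le_div_of_nonneg_right ?_ hNr.le
      have h2 := X.sim_ex n p p' hs
      rw [hm]
      exact_mod_cast h2
  · rw [if_neg h, if_neg (fun h' => h ((X.pt_iff hs hr).2 h')), sub_zero, abs_zero]
    exact hb

open Classical in
/-- **one root, fixed other members** -/
theorem Side.one (X : S.Side u) {δ δ' K' : ℝ} {K : ℝ} (hθ : LipschitzWith Λ θ) (hθb : ∀ x, |θ x| ≤ Λ)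
    (hsup : ∀ h e, θ (h, e) ≠ 0 → Sup K δ h) (hN : 0 < N) (hδ : δ' ≤ δ) (hK : 2 * K ≤ K') (hL : Λ ≤ L)
    (hL0 : 0 < L) {χ : S.P → ℝ} (hχt : ∀ z p, χ (S.tr z p) = χ p) {a c1 qm : ℝ} (hqm : 0 < qm)
    (hq : ∀ p, qm ≤ S.Qf p u) (hc1 : 0 ≤ c1) (hχ : ∀ p, |χ p - a| ≤ c1 * S.Qf p u) {V Ec E1 T ρ η : ℝ}
    (hs : Summable fun p => X.wt δ' K' N p * S.Qf p u ^ 2) (hV : ∑' p, X.wt δ' K' N p * S.Qf p u ^ 2 ≤ V)
    (hcap : X.rsum δ' K' N (fun p => if ρ * N ≤ X.cd (th N) p then 1 else 0) ≤ Ec)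
    (hLR : ∀ ψ : S.P → ℝ, (∀ p, |ψ p| ≤ 1) → (∀ p p', X.Sim (th N) p p' → ψ p = ψ p') →
      |X.rsum δ' K' N fun p => ψ p * (χ p - a)| ≤ E1) (hT : 0 < T) (hρ : 0 ≤ ρ) (hη : ρ * N + 2 ≤ η * N)
    (e : Z2) (r : {k // k ≠ i} → S.P) :
    |∑' p, if X.rt p = 0 then (if S.Pt τ (comb i (S.tr e p) r) then S.M (S.tr e p) *
      ((χ (S.tr e p) - a) * θ (fun k => S.hN N (comb i (S.tr e p) r k), S.eN N (S.tr e p) u)) else 0) else 0| ≤
    L * (E1 + 2 * c1 * (T * Ec + V / T) +
      (2 * (if ∃ k, S.Nr (η * N) e (r k) then 1 else 0) + 2 * ρ) * (c1 / qm) * V) := by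
  have hNr : (0 : ℝ) < N := by exact_mod_cast hN
  set ψ : S.P → ℝ := fun p => ps τ i u θ N L r (S.tr e p) with hψ
  obtain ⟨f, hf1, hf2, hf3⟩ := X.exists_rep (th (N : ℝ))
  set ν : ℝ := if ∃ k, S.Nr (η * N) e (r k) then 1 else 0 with hν
  have hν0 : 0 ≤ ν := by rw [hν]; split_ifs <;> norm_num
  have hV0 : 0 ≤ V := (tsum_nonneg fun p => mul_nonneg (X.wt_nn _ _ _ p) (sq_nonneg _)).trans hV
  -- the sum with the weight of the window
  have e1 : (∑' p, if X.rt p = 0 then (if S.Pt τ (comb i (S.tr e p) r) then S.M (S.tr e p) *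
      ((χ (S.tr e p) - a) * θ (fun k => S.hN N (comb i (S.tr e p) r k), S.eN N (S.tr e p) u)) else 0) else 0) =
      L * ∑' p, X.wt δ' K' N p * (ψ p * (χ p - a)) := by
    rw [← tsum_mul_left]
    refine tsum_congr fun p => ?_
    rw [hψ]
    simp only [ps, S.tr_M, hχt]
    by_cases h1 : X.rt p = 0
    · rw [if_pos h1]
      by_cases h2 : S.Pt τ (comb i (S.tr e p) r)
      · rw [if_pos h2, if_pos h2]
        set t : ℝ := θ (fun k => S.hN N (comb i (S.tr e p) r k), S.eN N (S.tr e p) u) with ht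
        by_cases h3 : t = 0
        · rw [h3]; simp
        · have h4 := hsup _ _ h3
          have h5 := h4.1 i
          have h6 := h4.2 i
          simp only [comb_self] at h5 h6
          have hz := S.tr_ht e p
          have hwin : X.win δ' K' N p := by
            refine ⟨h1, ?_⟩
            rw [← wd_tr u e p]
            unfold PSys.hN at h5 h6
            have a0 := abs_le.1 (h5 0)
            have a1 := abs_le.1 (h5 1)
            have a2 := abs_le.1 (h5 2)
            have a3 := abs_le.1 (h5 3)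
            rw [← sub_div, ← sub_div, le_div_iff₀ hNr, le_div_iff₀ hNr] at h6
            rw [le_div_iff₀ hNr, div_le_iff₀ hNr] at a0 a1 a2 a3
            have b1 : δ' * N ≤ δ * N := mul_le_mul_of_nonneg_right hδ hNr.le
            have b2 : 2 * K * N ≤ K' * N := mul_le_mul_of_nonneg_right hK hNr.le
            unfold wd
            split_ifs
            · push_cast
              exact ⟨by linarith, by linarith⟩
            · push_cast
              exact ⟨by linarith, by linarith⟩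
          have hw : X.wt δ' K' N p = S.M p := by
            unfold wt
            rw [if_pos hwin]
          rw [hw]
          field_simp
      · rw [if_neg h2, if_neg h2]
        simp
    · rw [if_neg h1]
      have hw : X.wt δ' K' N p = 0 := by
        unfold wt
        rw [if_neg fun h => h1 h.1]
      rw [hw]
      simp
  rw [e1, abs_mul, abs_of_pos hL0]
  refine mul_le_mul_of_nonneg_left ?_ hL0.le
  -- the comparison
  have hcore := Wt.core (w := X.wt δ' K' N) (Q := fun p => S.Qf p u) (X.wt_nn δ' K' N) hs hqm hq (χ := χ)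
    (ψ := ψ) (ψ' := fun p => ψ (f p)) (cap := fun p => if ρ * N ≤ X.cd (th N) p then 1 else 0) (a := a)
    (c1 := c1) (T := T) (ν := ν) (d := 2 * ρ) hc1 hT hχ (fun p => ps_le hθb hL hL0 _ _)
    (fun p => ps_le hθb hL hL0 _ _) (fun p => by split_ifs <;> norm_num) hν0 (by linarith) ?_
  · have g1 := hLR (fun p => ψ (f p)) (fun p => ps_le hθb hL hL0 _ _) (fun p p' h => by rw [hf2 p p' h])
    rw [rsum_wt] at g1 hcap
    have g2 : 2 * c1 * (T * (∑' p, X.wt δ' K' N p * (if ρ * N ≤ X.cd (th N) p then 1 else 0)) +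
        (∑' p, X.wt δ' K' N p * S.Qf p u ^ 2) / T) ≤ 2 * c1 * (T * Ec + V / T) := by
      gcongr
    have g3 : (2 * ν + 2 * ρ) * (c1 / qm) * (∑' p, X.wt δ' K' N p * S.Qf p u ^ 2) ≤
        (2 * ν + 2 * ρ) * (c1 / qm) * V := by
      gcongr
    linarith
  · intro p hp
    have hwin := X.wt_ne hp
    have hrt : X.rt p = 0 := hwin.1
    have triv : |ψ p - ψ (f p)| ≤ 2 := by
      have t1 := ps_le (S := S) (u := u) (τ := τ) (i := i) (N := N) hθb hL hL0 r (S.tr e p)
      have t2 := ps_le (S := S) (u := u) (τ := τ) (i := i) (N := N) hθb hL hL0 r (S.tr e (f p))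
      have t3 := abs_sub (ps τ i u θ N L r (S.tr e p)) (ps τ i u θ N L r (S.tr e (f p)))
      exact t3.trans (by linarith)
    by_cases hc : ρ * N ≤ X.cd (th N) p
    · rw [if_pos hc]
      linarith
    · rw [if_neg hc]
      by_cases hnr : ∃ k, S.Nr (η * N) e (r k)
      · have : ν = 1 := by rw [hν, if_pos hnr]
        rw [this]
        linarith
      · have hmx : max (X.cd (th N) p) (X.cd (th N) (f p)) = X.cd (th N) p := max_eq_left (hf3 p)
        have hd := X.ps_dif (τ := τ) (i := i) (r := r) hθ hL hL0 hN (X.sim_tr (th N) e p (f p) (hf1 p)) (by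
          intro k hk
          apply hnr
          refine ⟨k, ?_⟩
          rw [X.cd_tr, X.cd_tr, hmx, X.rt_tr, hrt, zero_add] at hk
          obtain ⟨s, hs1, hs2, hs3⟩ := hk
          refine ⟨s, hs1, ?_, ?_⟩
          · have : |(s.1 : ℝ) - e.1| ≤ X.cd (th N) p + 2 := by exact_mod_cast hs2
            linarith [not_le.1 hc]
          · have : |(s.2 : ℝ) - e.2| ≤ X.cd (th N) p + 2 := by exact_mod_cast hs3
            linarith [not_le.1 hc])
        rw [X.cd_tr, X.cd_tr, hmx] at hd
        have h5 : 2 * (X.cd (th N) p : ℝ) / N ≤ 2 * ρ := by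
          rw [div_le_iff₀ hNr]
          linarith [not_le.1 hc]
        have h6 : |ψ p - ψ (f p)| ≤ 2 * ρ := hd.trans h5
        linarith

end

end PSys

end Pool.Agent.ROT.A
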