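import Pool.Agent.ROT.A2e

/-!
# ROT, row A2: the theorem (helper10)
-/

set_option autoImplicit false
set_option linter.unusedSectionVars false

open Finset Filter Topology

namespace Pool.Agent.ROT.A

namespace PSys

variable {S : PSys} {u : Fin 4}

variable {I : Type} [Fintype I] [DecidableEq I]

variable {τ : I → I → Bool} {i : I} {θ : (I → Fin 4 → ℝ) × ℝ → ℝ} {L : ℝ} {Λ : NNReal}

open Classical in
/-- **the family sum**, one size `N` -/
theorem Side.fam (X : S.Side u) {δ δ' K' : ℝ} {K N : ℕ} (hθ : LipschitzWith Λ θ) (hθb : ∀ x, |θ x| ≤ Λ)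
    (hsup : ∀ h e, θ (h, e) ≠ 0 → Sup K δ h) (hN : 0 < N) (hδ : δ' ≤ δ) (hK : 2 * (K : ℝ) ≤ K') (hL : Λ ≤ L)
    (hL0 : 0 < L) {χ : S.P → ℝ} (hχt : ∀ z p, χ (S.tr z p) = χ p) {a c1 qm : ℝ} (hqm : 0 < qm)
    (hq : ∀ p, qm ≤ S.Qf p u) (hc1 : 0 ≤ c1) (hχ : ∀ p, |χ p - a| ≤ c1 * S.Qf p u) {V Ec E1 T ρ η : ℝ}
    (hs : Summable fun p => X.wt δ' K' N p * S.Qf p u ^ 2) (hV : ∑' p, X.wt δ' K' N p * S.Qf p u ^ 2 ≤ V)
    (hcap : X.rsum δ' K' N (fun p => if ρ * N ≤ X.cd (th N) p then 1 else 0) ≤ Ec)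
    (hLR : ∀ ψ : S.P → ℝ, (∀ p, |ψ p| ≤ 1) → (∀ p p', X.Sim (th N) p p' → ψ p = ψ p') →
      |X.rsum δ' K' N fun p => ψ p * (χ p - a)| ≤ E1) (hT : 0 < T) (hρ : 0 ≤ ρ) (hη : ρ * N + 2 ≤ η * N)
    {B εn : ℝ} (hB1 : 1 ≤ B) (hB : ∑ q ∈ (S.box (K * N)).filter (Okq δ N), S.M q ≤ B) (hεn : 0 ≤ εn)
    (hnr : S.near (δ * N) (η * N) ≤ ENNReal.ofReal εn) (hE1 : 0 ≤ E1) (hEc : 0 ≤ Ec) :
    |S.fsum (K * N) τ fun γ => (χ (γ i) - a) * θ (fun k => S.hN N (γ k), S.eN N (γ i) u)| ≤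
      L * (((2 * ((K * N : ℕ) : ℝ) + 1) ^ 2) * ((E1 + 2 * c1 * (T * Ec + V / T) + 2 * ρ * (c1 / qm) * V) *
        B ^ Fintype.card {k // k ≠ i} +
          2 * (c1 / qm) * V * (Fintype.card {k // k ≠ i} * (εn * B ^ Fintype.card {k // k ≠ i})))) := by
  have hNr : (0 : ℝ) < N := by exact_mod_cast hN
  set n : ℕ := K * N with hn
  have hnR : (n : ℝ) = K * N := by rw [hn]; push_cast; ring
  have hV0 : 0 ≤ V := (tsum_nonneg fun p => mul_nonneg (X.wt_nn _ _ _ p) (sq_nonneg _)).trans hV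
  set Gr : ({k // k ≠ i} → S.P) → S.P → ℝ := fun r p =>
    if S.Pt τ (comb i p r) then S.M p * ((χ p - a) * θ (fun k => S.hN N (comb i p r k), S.eN N p u)) else 0 with hG
  -- the support
  have hsG : ∀ r p, Gr r p ≠ 0 → Sup K δ fun k => S.hN N (comb i p r k) := by
    intro r p h
    refine hsup _ (S.eN N p u) fun h0 => h ?_
    rw [hG]
    simp only [h0, mul_zero, ite_self]
  have hbox : ∀ r p, Gr r p ≠ 0 → p ∈ S.box n := by
    intro r p h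
    have h1 := (hsG r p h).1 i
    rw [S.mem_box]
    intro v
    have h2 := h1 v
    simp only [comb_self] at h2
    unfold PSys.hN at h2
    rw [abs_div, abs_of_pos hNr, div_le_iff₀ hNr, ← hnR] at h2
    exact_mod_cast h2
  have hok : ∀ r p, Gr r p ≠ 0 → ∀ k, Okq δ N (r k) := by
    intro r p h k
    have h1 := (hsG r p h).2 k
    simp only [comb_ne] at h1
    unfold PSys.hN at h1
    rw [← sub_div, ← sub_div, le_div_iff₀ hNr, le_div_iff₀ hNr] at h1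
    exact h1
  -- splitting
  have e1 : S.fsum n τ (fun γ => (χ (γ i) - a) * θ (fun k => S.hN N (γ k), S.eN N (γ i) u)) =
      ∑ r ∈ Fintype.piFinset (fun _ : {k // k ≠ i} => S.box n), (∏ k, S.M (r k)) * ∑ p ∈ S.box n, Gr r p := by
    rw [fsum_split i n τ]
    refine Finset.sum_congr rfl fun r _ => ?_
    rw [Finset.mul_sum]
    refine Finset.sum_congr rfl fun p _ => ?_
    rw [hG]
    simp only [comb_self]
    split_ifs
    · ring
    · ring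
  set T0 := (S.box n).filter (Okq δ N) with hT0
  have e2 : ∑ r ∈ Fintype.piFinset (fun _ : {k // k ≠ i} => S.box n), (∏ k, S.M (r k)) * ∑ p ∈ S.box n, Gr r p =
      ∑ r ∈ Fintype.piFinset (fun _ : {k // k ≠ i} => T0), (∏ k, S.M (r k)) * ∑ p ∈ S.box n, Gr r p := by
    symm
    refine Finset.sum_subset (Fintype.piFinset_subset _ _ fun _ => Finset.filter_subset _ _) fun r hr hr' => ?_
    rw [Finset.sum_eq_zero, mul_zero]
    intro p _
    by_contra h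
    apply hr'
    rw [Fintype.mem_piFinset] at hr ⊢
    exact fun k => Finset.mem_filter.2 ⟨hr k, hok r p h k⟩
  rw [e1, e2]
  set c2 : ℝ := E1 + 2 * c1 * (T * Ec + V / T) + 2 * ρ * (c1 / qm) * V with hc2
  set c3 : ℝ := 2 * (c1 / qm) * V with hc3
  have hc20 : 0 ≤ c2 := by positivity
  have hc30 : 0 ≤ c3 := by positivity
  -- one root
  have h1 : ∀ r : {k // k ≠ i} → S.P, |∑ p ∈ S.box n, Gr r p| ≤
      ∑ e ∈ Eb n, L * (c2 + c3 * (if ∃ k, S.Nr (η * N) e (r k) then 1 else 0)) := by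
    intro r
    rw [X.root_sum n (Gr r) (hbox r)]
    refine (Finset.abs_sum_le_sum_abs _ _).trans (Finset.sum_le_sum fun e _ => ?_)
    have h2 := X.one (τ := τ) (i := i) hθ hθb hsup hN hδ hK hL hL0 hχt hqm hq hc1 hχ hs hV hcap hLR hT hρ hη e r
    refine h2.trans (le_of_eq ?_)
    rw [hc2, hc3]
    ring
  have h2 : |∑ r ∈ Fintype.piFinset (fun _ : {k // k ≠ i} => T0), (∏ k, S.M (r k)) * ∑ p ∈ S.box n, Gr r p| ≤
      ∑ r ∈ Fintype.piFinset (fun _ : {k // k ≠ i} => T0), (∏ k, S.M (r k)) *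
        ∑ e ∈ Eb n, L * (c2 + c3 * (if ∃ k, S.Nr (η * N) e (r k) then 1 else 0)) := by
    refine (Finset.abs_sum_le_sum_abs _ _).trans (Finset.sum_le_sum fun r _ => ?_)
    rw [abs_mul, abs_of_nonneg (Finset.prod_nonneg fun k _ => S.M_nn (r k))]
    exact mul_le_mul_of_nonneg_left (h1 r) (Finset.prod_nonneg fun k _ => S.M_nn (r k))
  refine h2.trans ?_
  have h3 : ∑ r ∈ Fintype.piFinset (fun _ : {k // k ≠ i} => T0), (∏ k, S.M (r k)) *
        ∑ e ∈ Eb n, L * (c2 + c3 * (if ∃ k, S.Nr (η * N) e (r k) then 1 else 0)) =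
      ∑ e ∈ Eb n, L * (c2 * (∑ r ∈ Fintype.piFinset (fun _ : {k // k ≠ i} => T0), ∏ k, S.M (r k)) +
        c3 * ∑ r ∈ Fintype.piFinset (fun _ : {k // k ≠ i} => T0), (∏ k, S.M (r k)) *
          (if ∃ k, S.Nr (η * N) e (r k) then 1 else 0)) := by
    simp only [Finset.mul_sum]
    rw [Finset.sum_comm]
    refine Finset.sum_congr rfl fun e _ => ?_
    rw [← Finset.sum_add_distrib, Finset.mul_sum]
    exact Finset.sum_congr rfl fun r _ => by ring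
  rw [h3]
  have h4 : ∀ e ∈ Eb n, L * (c2 * (∑ r ∈ Fintype.piFinset (fun _ : {k // k ≠ i} => T0), ∏ k, S.M (r k)) +
        c3 * ∑ r ∈ Fintype.piFinset (fun _ : {k // k ≠ i} => T0), (∏ k, S.M (r k)) *
          (if ∃ k, S.Nr (η * N) e (r k) then 1 else 0)) ≤
      L * (c2 * B ^ Fintype.card {k // k ≠ i} +
        c3 * (Fintype.card {k // k ≠ i} * (εn * B ^ Fintype.card {k // k ≠ i}))) := by
    intro e _
    refine mul_le_mul_of_nonneg_left (add_le_add (mul_le_mul_of_nonneg_left (prod_mass hB) hc20)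
      (mul_le_mul_of_nonneg_left (prod_near hB1 hB (near_box hεn hnr e)) hc30)) hL0.le
  refine (Finset.sum_le_sum h4).trans (le_of_eq ?_)
  rw [Finset.sum_const, nsmul_eq_mul, card_Eb]
  ring

/-- **from one polygon to families** -/
theorem Side.fam_tendsto (X : S.Side u) (hmass : S.Mass) (hnear : S.Near) (hcapX : X.CAP) (hui : X.UI)
    {qm : ℝ} (hqm : 0 < qm) (hq : ∀ p, qm ≤ S.Qf p u) {χ : S.P → ℝ} (hχt : ∀ z p, χ (S.tr z p) = χ p)
    {a : ℝ → ℝ} {c1 : ℝ} (hc1 : 0 < c1) (hχ : ∀ N p, |χ p - a N| ≤ c1 * S.Qf p u) {r0 s0 : ℝ} (hr0 : 0 < r0)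
    (hlr : ∀ δ K : ℝ, 0 < δ → δ ≤ r0 → s0 ≤ K → X.LR δ K χ a) {K : ℕ} {δ : ℝ} (hδ : 0 < δ)
    (hθ : LipschitzWith Λ θ) (hθb : ∀ x, |θ x| ≤ Λ) (hsup : ∀ h e, θ (h, e) ≠ 0 → Sup K δ h) :
    Tendsto (fun N : ℕ => S.fsum (K * N) τ fun γ =>
      (χ (γ i) - a N) * θ (fun k => S.hN N (γ k), S.eN N (γ i) u)) atTop (𝓝 0) := by
  classical
  set L : ℝ := Λ + 1 with hLd
  have hL : (Λ : ℝ) ≤ L := by rw [hLd]; linarith
  have hL0 : 0 < L := by have := Λ.2; rw [hLd]; positivity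
  set δ' : ℝ := min δ r0 with hδ'
  have hδ'0 : 0 < δ' := lt_min hδ hr0
  set K' : ℝ := max (max (2 * K) s0) (δ' + 1) with hK'
  have hK1 : 2 * (K : ℝ) ≤ K' := (le_max_left _ _).trans (le_max_left _ _)
  have hK2 : s0 ≤ K' := (le_max_right _ _).trans (le_max_left _ _)
  have hK3 : δ' < K' := lt_of_lt_of_le (by linarith) (le_max_right _ _)
  obtain ⟨C1, N1, h1⟩ := hui δ' K' hδ'0 hK3
  set V0 : ℝ := |C1| + 1 with hV0
  have hV0p : 0 < V0 := by positivity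
  set s1 : ℝ := max (2 * K) (δ + 1) with hs1
  have hs1' : 2 * (K : ℝ) ≤ s1 := le_max_left _ _
  obtain ⟨C2, N2, h2⟩ := hmass.2 δ s1 hδ (lt_of_lt_of_le (by linarith) (le_max_right _ _))
  set B : ℝ := 9 * (K + 1) ^ 2 * |C2| + 1 with hB
  have hB1 : 1 ≤ B := by
    have : 0 ≤ 9 * ((K : ℝ) + 1) ^ 2 * |C2| := by positivity
    linarith
  set m : ℕ := Fintype.card {k // k ≠ i} with hm
  set Γ : ℝ := L * (9 * (K + 1) ^ 2) * B ^ m with hΓ
  have hBp : 0 < B := by linarith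
  have hΓ0 : 0 < Γ := by positivity
  rw [Metric.tendsto_atTop]
  intro ε hε
  -- the parameters
  set T : ℝ := 12 * c1 * V0 * Γ / ε with hT
  have hT0 : 0 < T := by positivity
  set εc : ℝ := ε / (12 * c1 * T * Γ) with hεc
  have hεc0 : 0 < εc := by positivity
  set ε1 : ℝ := ε / (6 * Γ) with hε1
  have hε10 : 0 < ε1 := by positivity
  set εn : ℝ := ε / (12 * (c1 / qm) * V0 * (m + 1) * Γ) with hεn
  have hεn0 : 0 < εn := by positivity
  obtain ⟨η, hη0, hηN⟩ := hnear δ εn hδ hεn0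
  set ρ : ℝ := min (η / 2) (ε / (12 * (c1 / qm) * V0 * Γ)) with hρ
  have hρ0 : 0 < ρ := lt_min (by positivity) (by positivity)
  have hρ1 : ρ ≤ η / 2 := min_le_left _ _
  have hρ2 : ρ ≤ ε / (12 * (c1 / qm) * V0 * Γ) := min_le_right _ _
  obtain ⟨N3, h3⟩ := hlr δ' K' hδ'0 (min_le_right _ _) hK2 ε1 hε10
  obtain ⟨N4, h4⟩ := hcapX δ' K' ρ εc hδ'0 hK3 hρ0 hεc0
  obtain ⟨N5, h5⟩ := Filter.eventually_atTop.1 hηN
  refine ⟨max (max (max ⌈N1⌉₊ ⌈N2⌉₊) (max ⌈N3⌉₊ ⌈N4⌉₊)) (max (max N5 ⌈4 / η⌉₊) 1), fun N hN => ?_⟩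
  have k1 : N1 ≤ N := (Nat.le_ceil _).trans (by
    exact_mod_cast (le_max_left _ _).trans ((le_max_left _ _).trans ((le_max_left _ _).trans hN)))
  have k2 : N2 ≤ N := (Nat.le_ceil _).trans (by
    exact_mod_cast (le_max_right _ _).trans ((le_max_left _ _).trans ((le_max_left _ _).trans hN)))
  have k3 : N3 ≤ N := (Nat.le_ceil _).trans (by
    exact_mod_cast (le_max_left _ _).trans ((le_max_right _ _).trans ((le_max_left _ _).trans hN)))
  have k4 : N4 ≤ N := (Nat.le_ceil _).trans (by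
    exact_mod_cast (le_max_right _ _).trans ((le_max_right _ _).trans ((le_max_left _ _).trans hN)))
  have k5 : N5 ≤ N := (le_max_left _ _).trans ((le_max_left _ _).trans ((le_max_right _ _).trans hN))
  have k6 : 4 / η ≤ N := (Nat.le_ceil _).trans (by
    exact_mod_cast (le_max_right _ _).trans ((le_max_left _ _).trans ((le_max_right _ _).trans hN)))
  have k7 : 1 ≤ N := (le_max_right _ _).trans ((le_max_right _ _).trans hN)
  have hN0 : 0 < N := k7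
  have hNr : (0 : ℝ) < N := by exact_mod_cast hN0
  have hNr1 : (1 : ℝ) ≤ N := by exact_mod_cast k7
  have hNN : (0 : ℝ) < (N : ℝ) ^ 2 := by positivity
  have g1 := h1 N k1
  have hsm := X.ui_wt g1.1
  have hV : ∑' p, X.wt δ' K' N p * S.Qf p u ^ 2 ≤ V0 / N ^ 2 := by
    have h := g1.2
    rw [rsum_wt] at h
    refine h.trans (div_le_div_of_nonneg_right ?_ hNN.le)
    linarith [le_abs_self C1]
  have hn3 : (2 * ((K * N : ℕ) : ℝ) + 1) ^ 2 ≤ 9 * (K + 1) ^ 2 * N ^ 2 := by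
    push_cast
    have hK0 : (0 : ℝ) ≤ K := Nat.cast_nonneg K
    have : 2 * ((K : ℝ) * N) + 1 ≤ 3 * (K + 1) * N := by nlinarith
    have h0 : 0 ≤ 2 * ((K : ℝ) * N) + 1 := by positivity
    calc (2 * ((K : ℝ) * N) + 1) ^ 2 ≤ (3 * (K + 1) * N) ^ 2 := pow_le_pow_left₀ h0 this 2
      _ = _ := by ring
  have hBm : ∑ q ∈ (S.box (K * N)).filter (Okq δ N), S.M q ≤ B := by
    have hnn : (((K * N : ℕ)) : ℝ) ≤ K * N := by push_cast; exact le_rfl
    have h6 := mass_box (S := S) (δ := δ) hnn hs1' hNr.le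
    have h7 := h2 N k2 (2 * (K * N))
    have h8 : 0 ≤ S.mass δ s1 N (2 * (K * N)) := by
      unfold mass
      exact Finset.sum_nonneg fun p _ => by split_ifs; exacts [S.M_nn p, le_rfl]
    refine h6.trans ((mul_le_mul_of_nonneg_right hn3 h8).trans ?_)
    have h9 : 9 * ((K : ℝ) + 1) ^ 2 * N ^ 2 * S.mass δ s1 N (2 * (K * N)) ≤ 9 * ((K : ℝ) + 1) ^ 2 * |C2| := by
      rw [mul_assoc (9 * ((K : ℝ) + 1) ^ 2)]
      exact mul_le_mul_of_nonneg_left (h7.trans (le_abs_self _)) (by positivity)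
    linarith
  have hηρ : ρ * N + 2 ≤ η * N := by
    have : 4 ≤ η * N := by
      rw [div_le_iff₀ hη0] at k6
      linarith
    nlinarith
  have hfam := X.fam (τ := τ) (i := i) (K := K) (N := N) (δ := δ) (δ' := δ') (K' := K') hθ hθb hsup hN0
    (min_le_left _ _) hK1 hL hL0 hχt hqm hq hc1.le (hχ N) hsm hV (h4 N k4) (h3 N k3) hT0 hρ0.le hηρ hB1 hBm
    hεn0.le (h5 N k5) (by positivity) (by positivity)
  rw [Real.dist_eq, sub_zero]
  refine lt_of_le_of_lt hfam ?_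
  have hz : L * (((2 * ((K * N : ℕ) : ℝ) + 1) ^ 2) * ((ε1 / N ^ 2 + 2 * c1 * (T * (εc / N ^ 2) + V0 / N ^ 2 / T) +
      2 * ρ * (c1 / qm) * (V0 / N ^ 2)) * B ^ m + 2 * (c1 / qm) * (V0 / N ^ 2) * (m * (εn * B ^ m)))) ≤
      Γ * (ε1 + 2 * c1 * (T * εc + V0 / T) + 2 * ρ * (c1 / qm) * V0 + 2 * (c1 / qm) * V0 * (m * εn)) := by
    have e1 : L * (((2 * ((K * N : ℕ) : ℝ) + 1) ^ 2) * ((ε1 / N ^ 2 + 2 * c1 * (T * (εc / N ^ 2) + V0 / N ^ 2 / T) +
      2 * ρ * (c1 / qm) * (V0 / N ^ 2)) * B ^ m + 2 * (c1 / qm) * (V0 / N ^ 2) * (m * (εn * B ^ m)))) =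
      L * (((2 * ((K * N : ℕ) : ℝ) + 1) ^ 2) * (B ^ m * (ε1 + 2 * c1 * (T * εc + V0 / T) + 2 * ρ * (c1 / qm) * V0 +
        2 * (c1 / qm) * V0 * (m * εn)) / N ^ 2)) := by
      ring
    rw [e1]
    have hX0 : 0 ≤ ε1 + 2 * c1 * (T * εc + V0 / T) + 2 * ρ * (c1 / qm) * V0 + 2 * (c1 / qm) * V0 * (m * εn) := by
      positivity
    set X0 : ℝ := ε1 + 2 * c1 * (T * εc + V0 / T) + 2 * ρ * (c1 / qm) * V0 + 2 * (c1 / qm) * V0 * (m * εn) with hX
    calc L * (((2 * ((K * N : ℕ) : ℝ) + 1) ^ 2) * (B ^ m * X0 / N ^ 2))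
        ≤ L * ((9 * (K + 1) ^ 2 * N ^ 2) * (B ^ m * X0 / N ^ 2)) := by gcongr
      _ = Γ * X0 := by
        rw [hΓ]
        field_simp
  refine lt_of_le_of_lt hz ?_
  have z1 : Γ * ε1 = ε / 6 := by
    rw [hε1]
    field_simp
  have z2 : Γ * (2 * c1 * (T * εc)) = ε / 6 := by
    rw [hεc]
    field_simp
    norm_num
  have z3 : Γ * (2 * c1 * (V0 / T)) = ε / 6 := by
    rw [hT]
    field_simp
    norm_num
  have z4 : Γ * (2 * ρ * (c1 / qm) * V0) ≤ ε / 6 := by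
    calc Γ * (2 * ρ * (c1 / qm) * V0) ≤ Γ * (2 * (ε / (12 * (c1 / qm) * V0 * Γ)) * (c1 / qm) * V0) := by gcongr
      _ = ε / 6 := by
        field_simp
        norm_num
  have z5 : Γ * (2 * (c1 / qm) * V0 * (m * εn)) ≤ ε / 6 := by
    have hm1 : (m : ℝ) * εn ≤ (m + 1) * εn := by
      have : (m : ℝ) ≤ m + 1 := by linarith
      exact mul_le_mul_of_nonneg_right this hεn0.le
    calc Γ * (2 * (c1 / qm) * V0 * (m * εn)) ≤ Γ * (2 * (c1 / qm) * V0 * ((m + 1) * εn)) := by gcongr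
      _ = ε / 6 := by
        rw [hεn]
        field_simp
        norm_num
  have z6 : Γ * (ε1 + 2 * c1 * (T * εc + V0 / T) + 2 * ρ * (c1 / qm) * V0 + 2 * (c1 / qm) * V0 * (m * εn)) =
      Γ * ε1 + Γ * (2 * c1 * (T * εc)) + Γ * (2 * c1 * (V0 / T)) + Γ * (2 * ρ * (c1 / qm) * V0) +
        Γ * (2 * (c1 / qm) * V0 * (m * εn)) := by ring
  rw [z6, z1, z2, z3]
  linarith

/-- **row A2** -/
theorem a2 {X : ∀ u, S.Side u} {qm kC : ℝ} (h : A2In S X qm kC) : A2Out S qm := by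
  obtain ⟨A, r0, s0, a, b, hr0, _, hab, hCA, hlr⟩ := consts h
  have hqm := h.qm_pos
  have hA0 : 0 ≤ A := hqm.le.trans ((hab 0).1.trans (hab 0).2.1)
  refine ⟨A, fun N => a N, fun N => b N, fun N => hab N, ?_⟩
  intro I _ _ τ i u K δ θ hδ hθ hsup
  obtain ⟨Λ, hθ1, hθ2⟩ := hθ
  have hc1 : 0 < 1 + A / qm := by positivity
  refine ⟨?_, ?_⟩
  · refine (X u).fam_tendsto h.mass h.near (h.cap u) (h.ui u) hqm (fun p => h.Q_ge p u)
      (χ := fun p => S.Qf p u) (fun z p => (X u).Q_tr z p) (a := a) hc1 (fun N p => ?_) hr0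
      (fun δ K h1 h2 h3 => (hlr u δ K h1 h2 h3).1) hδ hθ1 hθ2 hsup
    have hQ := h.Q_ge p u
    have hQ0 : 0 < S.Qf p u := hqm.trans_le hQ
    have h1 : A ≤ A / qm * S.Qf p u := by
      rw [div_mul_eq_mul_div, le_div_iff₀ hqm]
      exact mul_le_mul_of_nonneg_left hQ hA0
    have h2 := hab N
    rw [abs_le]
    constructor
    · linarith [h2.2.1]
    · linarith [h2.1]
  · refine (X u).fam_tendsto h.mass h.near (h.cap u) (h.ui u) hqm (fun p => h.Q_ge p u)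
      (χ := fun p => S.Cf p u) (fun z p => (X u).C_tr z p) (a := b) hc1 (fun N p => ?_) hr0
      (fun δ K h1 h2 h3 => (hlr u δ K h1 h2 h3).2) hδ hθ1 hθ2 hsup
    have hQ := h.Q_ge p u
    have hQ0 : 0 < S.Qf p u := hqm.trans_le hQ
    have h1 : A ≤ A / qm * S.Qf p u := by
      rw [div_mul_eq_mul_div, le_div_iff₀ hqm]
      exact mul_le_mul_of_nonneg_left hQ hA0
    have h2 := hab N
    have h3 := hCA p u
    have h4 := S.C_nn p u
    rw [abs_le]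
    constructor
    · linarith [h2.2.2.2]
    · linarith [h2.2.2.1]

end PSys

end Pool.Agent.ROT.A
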