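import Pool.Agent.ROT.ADefs

/-!
# ROT, linear response, row A3 (helper61): tracers are points

`a3 : S.A3`: the sum over the families (`w`, tracers) is the sum over (`w`, points), up to the mass of the `w` which come
near a tracer.
-/

set_option autoImplicit false

open Finset Filter Topology

namespace Pool.Agent.ROT.A

namespace PSys

variable {S : PSys}

/-! ### translations -/

private theorem co_tr (z : Z2) (p : S.P) : S.co (S.tr z p) = S.co p + z := by
  obtain ⟨h0, -, h2, -⟩ := S.tr_ht z p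
  unfold co
  rw [h0, h2]
  rfl

private theorem ext_tr (z : Z2) (p : S.P) : S.ext (S.tr z p) = S.ext p := by
  obtain ⟨h0, h1, h2, h3⟩ := S.tr_ht z p
  unfold ext
  rw [h0, h1, h2, h3]
  congr 1 <;> ring

private theorem nr_tr (ρ : ℝ) (z : Z2) (w : S.P) : S.Nr ρ z (S.tr z w) ↔ S.Nr ρ 0 w := by
  unfold Nr
  constructor
  · rintro ⟨s, hs, h1, h2⟩
    refine ⟨s - z, ?_, ?_, ?_⟩
    · rw [S.tr_st z w, sub_add_cancel]
      exact hs
    · rw [Prod.fst_sub, Int.cast_sub]
      simpa using h1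
    · rw [Prod.snd_sub, Int.cast_sub]
      simpa using h2
  · rintro ⟨s, hs, h1, h2⟩
    refine ⟨s + z, (S.tr_st z w s).1 hs, ?_, ?_⟩
    · rw [Prod.fst_add, Int.cast_add]
      simpa using h1
    · rw [Prod.snd_add, Int.cast_add]
      simpa using h2

/-! ### one tracer -/

open Classical in
/-- the mass of one tracer with corner `x` and weight `f` -/
private noncomputable def Wx (S : PSys) (n : ℕ) (f : S.P → ℝ) (x : Z2) : ℝ :=
  ∑ p ∈ S.box n, if S.co p = x then S.M p * f p else 0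

private theorem in_box {n : ℕ} {p : S.P} {x : Z2} {s K : ℝ} (hp : S.co p = x) (h1 : (S.ht p 1 : ℝ) - S.ht p 0 ≤ s)
    (h3 : (S.ht p 3 : ℝ) - S.ht p 2 ≤ s) (hx1 : |(x.1 : ℝ)| ≤ K) (hx2 : |(x.2 : ℝ)| ≤ K) (hn : K + s ≤ n) :
    p ∈ S.box n := by
  have e0 : S.ht p 0 = x.1 := by rw [← hp]; rfl
  have e2 : S.ht p 2 = x.2 := by rw [← hp]; rfl
  have l1' : (S.ht p 0 : ℝ) ≤ S.ht p 1 := by exact_mod_cast S.le01 p
  have l3' : (S.ht p 2 : ℝ) ≤ S.ht p 3 := by exact_mod_cast S.le23 p
  have s0 : 0 ≤ s := by linarith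
  rw [abs_le] at hx1 hx2
  rw [e0] at h1 l1'
  rw [e2] at h3 l3'
  rw [S.mem_box]
  intro u
  have : |(S.ht p u : ℝ)| ≤ n := by
    rw [abs_le]
    fin_cases u
    · simp only [Fin.zero_eta]
      rw [e0]
      constructor <;> linarith
    · simp only [Fin.mk_one]
      constructor <;> linarith
    · show -(n : ℝ) ≤ (S.ht p 2 : ℝ) ∧ (S.ht p 2 : ℝ) ≤ n
      rw [e2]
      constructor <;> linarith
    · show -(n : ℝ) ≤ (S.ht p 3 : ℝ) ∧ (S.ht p 3 : ℝ) ≤ n
      constructor <;> linarith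
  exact_mod_cast this

open Classical in
private theorem wx_finsum {r s N K : ℝ} {g : S.P → ℝ} (hg : ∀ p, g p ≠ 0 → S.Win r s N p) {x : Z2} {n : ℕ}
    (hx1 : |(x.1 : ℝ)| ≤ K) (hx2 : |(x.2 : ℝ)| ≤ K) (hn : K + s * N ≤ n) :
    Wx S n g x = ∑ᶠ p : S.P, if S.co p = x then S.M p * g p else 0 := by
  unfold Wx
  refine (finsum_eq_sum_of_support_subset _ fun p hp => ?_).symm
  rw [Function.mem_support] at hp
  have h1 : S.co p = x := by
    by_contra h
    exact hp (if_neg h)
  rw [if_pos h1] at hp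
  obtain ⟨⟨-, a1⟩, -, a3⟩ := hg p (right_ne_zero_of_mul hp)
  exact in_box h1 a1 a3 hx1 hx2 hn

/-- translation invariance of the mean -/
private theorem wx_eq {r s N K : ℝ} {g : S.P → ℝ} (hg : ∀ p, g p ≠ 0 → S.Win r s N p)
    (ht : ∀ z p, g (S.tr z p) = g p) {x : Z2} {n : ℕ} (hx1 : |(x.1 : ℝ)| ≤ K)
    (hx2 : |(x.2 : ℝ)| ≤ K) (hn : K + s * N ≤ n) : Wx S n g x = S.W1 n g := by
  classical
  have hK : 0 ≤ K := (abs_nonneg _).trans hx1
  have e : S.W1 n g = Wx S n g 0 := rfl
  rw [e, wx_finsum hg hx1 hx2 hn, wx_finsum hg (x := 0) (K := K) (by simpa using hK) (by simpa using hK) hn,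
    ← finsum_comp_equiv (S.tr x)]
  refine finsum_congr fun p => ?_
  rw [co_tr, S.tr_M, ht]
  by_cases h : S.co p = 0
  · rw [if_pos h, if_pos (by rw [h, zero_add])]
  · rw [if_neg h, if_neg (fun e => h (by simpa using e))]

private theorem wx_le {r s N K G0 : ℝ} {g : S.P → ℝ} (hg : ∀ p, g p ≠ 0 → S.Win r s N p)
    (ht : ∀ z p, g (S.tr z p) = g p) (hG : ∀ p, |g p| ≤ G0) (h0 : 0 ≤ G0) {x : Z2} {n : ℕ} (hx1 : |(x.1 : ℝ)| ≤ K)
    (hx2 : |(x.2 : ℝ)| ≤ K) (hn : K + s * N ≤ n) :
    Wx S n (fun p => |g p|) x ≤ G0 * S.mass r s N n := by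
  classical
  rw [wx_eq (g := fun p => |g p|) (fun p hp => hg p (by simpa using hp)) (fun z p => by rw [ht]) hx1 hx2 hn]
  unfold W1 mass
  rw [Finset.mul_sum]
  refine Finset.sum_le_sum fun p _ => ?_
  have hM := S.M_nn p
  by_cases h1 : S.co p = 0
  · rw [if_pos h1]
    by_cases h2 : g p = 0
    · show S.M p * |g p| ≤ _
      rw [h2, abs_zero, mul_zero]
      split_ifs
      · positivity
      · simp
    · rw [if_pos ⟨h1, hg p h2⟩]
      show S.M p * |g p| ≤ _
      rw [mul_comm]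
      exact mul_le_mul_of_nonneg_right (hG p) hM
  · rw [if_neg h1, if_neg (fun h => h1 h.1), mul_zero]

private theorem mass_nn (r s N : ℝ) (n : ℕ) : 0 ≤ S.mass r s N n := by
  classical
  unfold mass
  refine Finset.sum_nonneg fun p _ => ?_
  split_ifs
  · exact S.M_nn p
  · exact le_rfl

/-! ### `w` near a point -/

open Classical in
private theorem near_le {D ρ : ℝ} (hfin : S.near D ρ ≠ ⊤) (z : Z2) (n : ℕ) :
    ∑ w ∈ S.box n, (if D ≤ (S.ext w : ℝ) ∧ S.Nr ρ z w then S.M w else 0) ≤ (S.near D ρ).toReal := by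
  have h1 : ∑' w : S.P, (if D ≤ (S.ext w : ℝ) ∧ S.Nr ρ z w then ENNReal.ofReal (S.M w) else 0) = S.near D ρ := by
    rw [← (S.tr z).tsum_eq]
    simp only [ext_tr, nr_tr, S.tr_M]
    rfl
  have h2 : ENNReal.ofReal (∑ w ∈ S.box n, (if D ≤ (S.ext w : ℝ) ∧ S.Nr ρ z w then S.M w else 0)) ≤ S.near D ρ := by
    rw [ENNReal.ofReal_sum_of_nonneg (fun w _ => by
      split_ifs
      · exact S.M_nn w
      · exact le_rfl), ← h1]
    refine le_trans (le_of_eq ?_) (ENNReal.sum_le_tsum (S.box n))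
    refine Finset.sum_congr rfl fun w _ => ?_
    split_ifs
    · rfl
    · exact ENNReal.ofReal_zero
  exact (ENNReal.ofReal_le_iff_le_toReal hfin).1 h2

/-! ### the events -/

variable {m : ℕ}

/-- the points have the pattern -/
private def Bp (S : PSys) (π : Fin m → Bool) (w : S.P) (v : Fin m → S.P) : Prop :=
  ∀ i, S.ip (S.co (v i)) w ↔ π i = true

/-- `w` is large and comes near a tracer -/
private def Ev (S : PSys) (D ρ : ℝ) (w : S.P) (v : Fin m → S.P) : Prop :=
  D ≤ (S.ext w : ℝ) ∧ ∃ i, S.Nr ρ (S.co (v i)) w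

private theorem ev_of {π : Fin m → Bool} {r s d : ℝ} {N : ℕ} (hπ : NT π) (hs : 8 * s ≤ d) (h1 : 1 ≤ s * N)
    {w : S.P} {v : Fin m → S.P} (hW : ∀ i, S.Win r s N (v i))
    (hsep : ∀ i k, i ≠ k → d ≤ ‖xN N (fun i => S.co (v i)) i - xN N (fun i => S.co (v i)) k‖)
    (hne : ¬ (S.Pt (tau π) (Fin.cons w v : Fin (m + 1) → S.P) ↔ Bp S π w v)) : Ev S (d / 2 * N) (4 * s * N) w v := by
  have hN : (0 : ℝ) < N := by
    rcases (Nat.cast_nonneg N : (0 : ℝ) ≤ N).eq_or_lt with h | h
    · rw [← h] at h1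
      norm_num at h1
    · exact h
  have hdN : 8 ≤ d * N := by nlinarith
  -- the separation in one coordinate
  have sep2 : ∀ i k, i ≠ k → d * N ≤ |((S.ht (v i) 0 : ℝ)) - S.ht (v k) 0| ∨
      d * N ≤ |((S.ht (v i) 2 : ℝ)) - S.ht (v k) 2| := by
    intro i k hik
    have h2 := hsep i k hik
    rw [Prod.norm_def, le_max_iff] at h2
    rcases h2 with h2 | h2
    · left
      have e : (xN N (fun i => S.co (v i)) i - xN N (fun i => S.co (v i)) k).1 =
          ((S.ht (v i) 0 : ℝ) - S.ht (v k) 0) / N := by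
        simp only [xN, co, Prod.fst_sub]
        ring
      rw [e, Real.norm_eq_abs, abs_div, abs_of_pos hN, le_div_iff₀ hN] at h2
      exact h2
    · right
      have e : (xN N (fun i => S.co (v i)) i - xN N (fun i => S.co (v i)) k).2 =
          ((S.ht (v i) 2 : ℝ) - S.ht (v k) 2) / N := by
        simp only [xN, co, Prod.snd_sub]
        ring
      rw [e, Real.norm_eq_abs, abs_div, abs_of_pos hN, le_div_iff₀ hN] at h2
      exact h2
  obtain ⟨⟨i1, i2, h12, hi1, hi2⟩, -⟩ := hπ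
  -- the extent of `w`
  have hext : S.Pt (tau π) (Fin.cons w v : Fin (m + 1) → S.P) ∨ Bp S π w v → d / 2 * N ≤ (S.ext w : ℝ) := by
    intro h
    have key : ∀ i, π i = true → S.ht w 0 ≤ S.ht (v i) 0 ∧ S.ht (v i) 0 ≤ S.ht w 1 ∧ S.ht w 2 ≤ S.ht (v i) 2 ∧
        S.ht (v i) 2 ≤ S.ht w 3 := by
      intro i hi
      rcases h with h | h
      · have h3 : S.In (v i) w := by
          have := (h.2 i.succ 0 (Fin.succ_ne_zero i)).2 (by simp [tau, hi])
          simpa using this
        obtain ⟨a, b, c, e⟩ := S.In_box _ _ h3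
        have := S.le01 (v i)
        have := S.le23 (v i)
        omega
      · have h3 := S.ip_box _ _ ((h i).2 hi)
        exact h3
    obtain ⟨a1, a2, a3, a4⟩ := key i1 hi1
    obtain ⟨b1, b2, b3, b4⟩ := key i2 hi2
    have c1 : (S.ht w 0 : ℝ) ≤ S.ht (v i1) 0 := by exact_mod_cast a1
    have c2 : (S.ht (v i1) 0 : ℝ) ≤ S.ht w 1 := by exact_mod_cast a2
    have c3 : (S.ht w 2 : ℝ) ≤ S.ht (v i1) 2 := by exact_mod_cast a3
    have c4 : (S.ht (v i1) 2 : ℝ) ≤ S.ht w 3 := by exact_mod_cast a4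
    have d1 : (S.ht w 0 : ℝ) ≤ S.ht (v i2) 0 := by exact_mod_cast b1
    have d2 : (S.ht (v i2) 0 : ℝ) ≤ S.ht w 1 := by exact_mod_cast b2
    have d3 : (S.ht w 2 : ℝ) ≤ S.ht (v i2) 2 := by exact_mod_cast b3
    have d4 : (S.ht (v i2) 2 : ℝ) ≤ S.ht w 3 := by exact_mod_cast b4
    have e : (S.ext w : ℝ) = max ((S.ht w 1 : ℝ) - S.ht w 0) ((S.ht w 3 : ℝ) - S.ht w 2) := by
      unfold ext
      push_cast
      rfl
    rw [e, le_max_iff]
    rcases sep2 i1 i2 h12 with h5 | h5
    · left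
      rcases abs_cases ((S.ht (v i1) 0 : ℝ) - S.ht (v i2) 0) with ⟨h6, -⟩ | ⟨h6, -⟩ <;> rw [h6] at h5 <;> nlinarith
    · right
      rcases abs_cases ((S.ht (v i1) 2 : ℝ) - S.ht (v i2) 2) with ⟨h6, -⟩ | ⟨h6, -⟩ <;> rw [h6] at h5 <;> nlinarith
  refine ⟨hext ?_, ?_⟩
  · by_contra hc
    push Not at hc
    exact hne ⟨fun h => absurd h hc.1, fun h => absurd h hc.2⟩
  · by_contra hno
    push Not at hno
    apply hne
    -- no site of `w` in the enlarged boxes
    have hs' : ∀ i, ∀ x ∈ S.st w, ¬ (S.ht (v i) 0 - 1 ≤ x.1 ∧ x.1 ≤ S.ht (v i) 1 + 1 ∧ S.ht (v i) 2 - 1 ≤ x.2 ∧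
        x.2 ≤ S.ht (v i) 3 + 1) := by
      rintro i x hx ⟨p1, p2, p3, p4⟩
      apply hno i
      obtain ⟨⟨-, w1⟩, -, w3⟩ := hW i
      have q1 : (S.ht (v i) 0 : ℝ) - 1 ≤ x.1 := by exact_mod_cast p1
      have q2 : (x.1 : ℝ) ≤ S.ht (v i) 1 + 1 := by exact_mod_cast p2
      have q3 : (S.ht (v i) 2 : ℝ) - 1 ≤ x.2 := by exact_mod_cast p3
      have q4 : (x.2 : ℝ) ≤ S.ht (v i) 3 + 1 := by exact_mod_cast p4
      refine ⟨x, hx, ?_, ?_⟩
      · show |(x.1 : ℝ) - (S.ht (v i) 0 : ℝ)| ≤ _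
        rw [abs_le]
        constructor <;> nlinarith
      · show |(x.2 : ℝ) - (S.ht (v i) 2 : ℝ)| ≤ _
        rw [abs_le]
        constructor <;> nlinarith
    have sepw := fun i => S.sep (v i) w (hs' i)
    -- two tracers are far from each other
    have hfar : ∀ i k, i ≠ k → S.Dj (v i) (v k) ∧ ¬ S.In (v i) (v k) := by
      intro i k hik
      apply S.far
      obtain ⟨⟨-, wi1⟩, -, wi3⟩ := hW i
      obtain ⟨⟨-, wk1⟩, -, wk3⟩ := hW k
      have big : ∀ x y z : ℤ, (x : ℝ) - y ≤ s * N → d * N ≤ (z : ℝ) - y → x + 1 < z := by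
        intro x y z h2 h3
        have : (x : ℝ) + 1 < z := by nlinarith
        exact_mod_cast this
      rcases sep2 i k hik with h5 | h5
      · rcases abs_cases ((S.ht (v i) 0 : ℝ) - S.ht (v k) 0) with ⟨h6, -⟩ | ⟨h6, -⟩ <;> rw [h6] at h5
        · exact Or.inr (Or.inl (big _ _ _ wk1 h5))
        · exact Or.inl (big _ _ _ wi1 (by linarith))
      · rcases abs_cases ((S.ht (v i) 2 : ℝ) - S.ht (v k) 2) with ⟨h6, -⟩ | ⟨h6, -⟩ <;> rw [h6] at h5
        · exact Or.inr (Or.inr (Or.inr (big _ _ _ wk3 h5)))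
        · exact Or.inr (Or.inr (Or.inl (big _ _ _ wi3 (by linarith))))
    constructor
    · intro h i
      have h3 := h.2 i.succ 0 (Fin.succ_ne_zero i)
      simp only [Fin.cons_succ, Fin.cons_zero, tau, if_true, Fin.cases_succ] at h3
      rw [← h3]
      exact (sepw i).2.2.symm
    · intro h
      constructor
      · intro i k hik
        refine Fin.cases ?_ (fun i' => ?_) i hik
        · intro hk
          obtain ⟨k', rfl⟩ := Fin.exists_succ_eq.2 (Ne.symm hk)
          simp only [Fin.cons_succ, Fin.cons_zero]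
          exact (sepw k').1.2
        · intro hk
          refine Fin.cases ?_ (fun k' => ?_) k hk
          · intro _
            simp only [Fin.cons_succ, Fin.cons_zero]
            exact (sepw i').1.1
          · intro hk'
            simp only [Fin.cons_succ]
            exact (hfar i' k' (fun e => hk' (by rw [e]))).1
      · intro i k hik
        refine Fin.cases ?_ (fun i' => ?_) i hik
        · intro hk
          obtain ⟨k', rfl⟩ := Fin.exists_succ_eq.2 (Ne.symm hk)
          simp only [Fin.cons_succ, Fin.cons_zero, tau, if_neg (Fin.succ_ne_zero k')]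
          simpa using (sepw k').2.1
        · intro hk
          refine Fin.cases ?_ (fun k' => ?_) k hk
          · intro _
            simp only [Fin.cons_succ, Fin.cons_zero, tau, if_true, Fin.cases_succ]
            rw [← h i']
            exact (sepw i').2.2
          · intro hk'
            simp only [Fin.cons_succ, tau, if_neg (Fin.succ_ne_zero k')]
            simpa using (hfar i' k' (fun e => hk' (by rw [e]))).2

/-! ### the sums -/

/-- sums over the families as iterated sums -/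
private theorem sum_cons {P : Type} (b : Finset P) (h : (Fin (m + 1) → P) → ℝ) :
    ∑ γ ∈ Fintype.piFinset (fun _ : Fin (m + 1) => b), h γ =
      ∑ w ∈ b, ∑ v ∈ Fintype.piFinset (fun _ : Fin m => b), h (Fin.cons w v) := by
  rw [← Finset.sum_product']
  refine Finset.sum_nbij' (fun γ => (γ 0, Fin.tail γ)) (fun q => Fin.cons q.1 q.2) ?_ ?_ ?_ ?_ ?_
  · intro γ hγ
    rw [Fintype.mem_piFinset] at hγ
    exact Finset.mem_product.2 ⟨hγ 0, Fintype.mem_piFinset.2 fun i => hγ i.succ⟩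
  · rintro ⟨w, v⟩ hq
    obtain ⟨h1, h2⟩ := Finset.mem_product.1 hq
    rw [Fintype.mem_piFinset] at h2
    rw [Fintype.mem_piFinset]
    intro i
    refine Fin.cases ?_ (fun i' => ?_) i
    · simpa using h1
    · simpa using h2 i'
  · intro γ _
    exact Fin.cons_self_tail γ
  · rintro ⟨w, v⟩ _
    simp
  · intro γ _
    rw [Fin.cons_self_tail γ]

/-- the box of the points -/
private noncomputable def Dq (q : ℤ) : Finset Z2 := Finset.Icc (-q) q ×ˢ Finset.Icc (-q) q

private theorem mem_Dq {q : ℤ} {x : Z2} : x ∈ Dq q ↔ |x.1| ≤ q ∧ |x.2| ≤ q := by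
  unfold Dq
  rw [Finset.mem_product, Finset.mem_Icc, Finset.mem_Icc, abs_le, abs_le]

/-- sums over the points as sums over the tracers -/
private theorem sum_points (b : Finset S.P) (D : Finset Z2) (G : Fin m → S.P → ℝ) (F : (Fin m → Z2) → ℝ)
    (hF : ∀ x, F x ≠ 0 → ∀ i, x i ∈ D) :
    (∑ x ∈ Fintype.piFinset (fun _ : Fin m => D), F x * ∏ i, (∑ p ∈ b, open Classical in
      if S.co p = x i then S.M p * G i p else 0)) =
      ∑ v ∈ Fintype.piFinset (fun _ : Fin m => b), F (fun i => S.co (v i)) * ∏ i, (S.M (v i) * G i (v i)) := by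
  classical
  simp only [Finset.prod_univ_sum, Finset.mul_sum]
  rw [Finset.sum_comm]
  refine Finset.sum_congr rfl fun v _ => ?_
  have e : ∀ x : Fin m → Z2, (∏ i, if S.co (v i) = x i then S.M (v i) * G i (v i) else 0) =
      if x = (fun i => S.co (v i)) then ∏ i, (S.M (v i) * G i (v i)) else 0 := by
    intro x
    by_cases hx : x = fun i => S.co (v i)
    · rw [if_pos hx]
      refine Finset.prod_congr rfl fun i _ => ?_
      rw [if_pos (by rw [hx])]
    · rw [if_neg hx]
      obtain ⟨i, hi⟩ := Function.ne_iff.1 hx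
      exact Finset.prod_eq_zero (Finset.mem_univ i) (if_neg (fun h => hi h.symm))
  simp only [e, mul_ite, mul_zero]
  rw [Finset.sum_ite_eq' ]
  by_cases h0 : F (fun i => S.co (v i)) = 0
  · rw [h0]
    simp
  · rw [if_pos (Fintype.mem_piFinset.2 (hF _ h0))]

private theorem prod_sum_le (b : Finset S.P) (D : Finset Z2) (G : Fin m → S.P → ℝ) {A : ℝ}
    (hA : ∀ i, ∀ x ∈ D, (∑ p ∈ b, open Classical in if S.co p = x then S.M p * |G i p| else 0) ≤ A) :
    (∑ v ∈ Fintype.piFinset (fun _ : Fin m => b), open Classical in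
      if ∀ i, S.co (v i) ∈ D then ∏ i, (S.M (v i) * |G i (v i)|) else 0) ≤ (D.card * A) ^ m := by
  classical
  have h := sum_points (S := S) b D (fun i p => |G i p|) (fun x => if ∀ i, x i ∈ D then 1 else 0) (fun x hx => by
    by_contra hc
    exact hx (if_neg hc))
  have e1 : (∑ v ∈ Fintype.piFinset (fun _ : Fin m => b),
      if ∀ i, S.co (v i) ∈ D then ∏ i, (S.M (v i) * |G i (v i)|) else 0) =
      ∑ v ∈ Fintype.piFinset (fun _ : Fin m => b),
        (if ∀ i, S.co (v i) ∈ D then 1 else 0) * ∏ i, (S.M (v i) * |G i (v i)|) := by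
    refine Finset.sum_congr rfl fun v _ => ?_
    split_ifs <;> ring
  rw [e1, ← h]
  calc (∑ x ∈ Fintype.piFinset (fun _ : Fin m => D), (if ∀ i, x i ∈ D then (1 : ℝ) else 0) *
        ∏ i, (∑ p ∈ b, if S.co p = x i then S.M p * |G i p| else 0))
      ≤ ∑ x ∈ Fintype.piFinset (fun _ : Fin m => D), A ^ m := by
        refine Finset.sum_le_sum fun x hx => ?_
        rw [Fintype.mem_piFinset] at hx
        rw [if_pos hx, one_mul]
        calc (∏ i, (∑ p ∈ b, if S.co p = x i then S.M p * |G i p| else 0)) ≤ ∏ _i : Fin m, A :=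
              Finset.prod_le_prod (fun i _ => Finset.sum_nonneg fun p _ => by
                split_ifs
                · exact mul_nonneg (S.M_nn p) (abs_nonneg _)
                · exact le_rfl) (fun i _ => hA i (x i) (hx i))
          _ = A ^ m := by simp
    _ = (D.card * A) ^ m := by
        rw [Finset.sum_const, Fintype.card_piFinset, nsmul_eq_mul]
        simp
        ring

/-- **row A3** -/
theorem a3 (S : PSys) : S.A3 := by
  classical
  intro m π R0 d r s F0 G0 X0 N K f G X hπ hR0 hd hr hrs hs h1 hK hf hfs hG hGw hGt hX hnear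
  have hN : (0 : ℝ) < N := by
    rcases (Nat.cast_nonneg N : (0 : ℝ) ≤ N).eq_or_lt with h | h
    · rw [← h] at h1
      norm_num at h1
    · exact h
  have hs0 : 0 < s := hr.trans hrs
  have hm : 0 < m := by
    obtain ⟨-, i, -⟩ := hπ
    exact Fin.pos i
  set n := K * N with hn
  have hnK : (n : ℝ) = K * N := by rw [hn]; push_cast; ring
  have hbig : R0 * N + s * N ≤ n := by rw [hnK]; nlinarith
  set q := ⌊R0 * N⌋ with hq
  have hq1 : (q : ℝ) ≤ R0 * N := Int.floor_le _
  have hq0 : 0 ≤ q := Int.floor_nonneg.2 (by positivity)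
  set D := Dq q with hD
  have hDm : ∀ x : Z2, x ∈ D → |(x.1 : ℝ)| ≤ R0 * N ∧ |(x.2 : ℝ)| ≤ R0 * N := by
    intro x hx
    obtain ⟨a, b⟩ := mem_Dq.1 hx
    constructor
    · refine le_trans ?_ hq1
      exact_mod_cast a
    · refine le_trans ?_ hq1
      exact_mod_cast b
  have hfD : ∀ x : Fin m → Z2, f (xN N x) ≠ 0 → ∀ i, x i ∈ D := by
    intro x hx i
    have h2 := (hfs _ hx).1 i
    rw [Prod.norm_def, max_le_iff] at h2
    obtain ⟨a, b⟩ := h2
    simp only [xN, Real.norm_eq_abs, abs_div, abs_of_pos hN] at a b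
    rw [div_le_iff₀ hN] at a b
    rw [hD, mem_Dq, hq, Int.le_floor, Int.le_floor]
    push_cast
    exact ⟨a, b⟩
  set nr := (S.near (d / 2 * N) (4 * s * N)).toReal with hnr
  have nr0 : 0 ≤ nr := ENNReal.toReal_nonneg
  have hF0 : 0 ≤ F0 := (abs_nonneg _).trans (hf 0)
  have hmass : 0 ≤ S.mass r s N n := mass_nn _ _ _ _
  -- the sum over the points
  set T : S.P → (Fin m → S.P) → ℝ := fun w v =>
    f (xN N fun i => S.co (v i)) * (∏ i, (S.M (v i) * G i (v i))) * (S.M w * X w) with hT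
  have e2 : ∑' x : Fin m → Z2, f (xN N x) * (∏ i, S.W1 n (G i)) * S.PX n π X x =
      ∑ w ∈ S.box n, ∑ v ∈ Fintype.piFinset (fun _ : Fin m => S.box n), if Bp S π w v then T w v else 0 := by
    have e3 : ∀ x : Fin m → Z2, (∀ i, x i ∈ D) → (∏ i, S.W1 n (G i)) =
        ∏ i, (∑ p ∈ S.box n, if S.co p = x i then S.M p * G i p else 0) := by
      intro x hx
      refine Finset.prod_congr rfl fun i _ => ?_
      obtain ⟨a, b⟩ := hDm _ (hx i)
      exact (wx_eq (hGw i) (hGt i) a b hbig).symm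
    rw [tsum_eq_sum (s := Fintype.piFinset (fun _ : Fin m => D))]
    · have e4 : ∀ x ∈ Fintype.piFinset (fun _ : Fin m => D), f (xN N x) * (∏ i, S.W1 n (G i)) * S.PX n π X x =
          (f (xN N x) * S.PX n π X x) * ∏ i, (∑ p ∈ S.box n, if S.co p = x i then S.M p * G i p else 0) := by
        intro x hx
        rw [e3 x (Fintype.mem_piFinset.1 hx)]
        ring
      rw [Finset.sum_congr rfl e4, sum_points (S := S) (S.box n) D G (fun x => f (xN N x) * S.PX n π X x)
        (fun x hx => hfD x (left_ne_zero_of_mul hx)), Finset.sum_comm]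
      refine Finset.sum_congr rfl fun v _ => ?_
      unfold PX
      rw [Finset.mul_sum, Finset.sum_mul]
      refine Finset.sum_congr rfl fun w _ => ?_
      by_cases hb : Bp S π w v
      · rw [if_pos hb, if_pos (show ∀ i, S.ip (S.co (v i)) w ↔ π i = true from hb)]
        simp only [hT]
        ring
      · rw [if_neg hb, if_neg (show ¬ ∀ i, S.ip (S.co (v i)) w ↔ π i = true from hb)]
        ring
    · intro x hx
      have : f (xN N x) = 0 := by
        by_contra hc
        exact hx (Fintype.mem_piFinset.2 (hfD x hc))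
      rw [this]
      ring
  have e1 : (S.fsum n (tau π) fun γ => f (xN N fun i : Fin m => S.co (γ i.succ)) * (∏ i : Fin m, G i (γ i.succ)) *
      X (γ 0)) = ∑ w ∈ S.box n, ∑ v ∈ Fintype.piFinset (fun _ : Fin m => S.box n),
        if S.Pt (tau π) (Fin.cons w v : Fin (m + 1) → S.P) then T w v else 0 := by
    unfold fsum
    rw [sum_cons]
    refine Finset.sum_congr rfl fun w _ => Finset.sum_congr rfl fun v _ => ?_
    by_cases hp : S.Pt (tau π) (Fin.cons w v : Fin (m + 1) → S.P)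
    · rw [if_pos hp, if_pos hp, Fin.prod_univ_succ]
      simp only [Fin.cons_zero, Fin.cons_succ, hT, Finset.prod_mul_distrib]
      ring
    · rw [if_neg hp, if_neg hp]
  rw [e1, e2, ← Finset.sum_sub_distrib]
  simp only [← Finset.sum_sub_distrib]
  -- one family
  have key : ∀ w v, |(if S.Pt (tau π) (Fin.cons w v : Fin (m + 1) → S.P) then T w v else 0) -
      (if Bp S π w v then T w v else 0)| ≤ ∑ i, (if d / 2 * N ≤ (S.ext w : ℝ) ∧ S.Nr (4 * s * N) (S.co (v i)) w then
        S.M w else 0) * (X0 * F0 * if ∀ i, S.co (v i) ∈ D then ∏ i, (S.M (v i) * |G i (v i)|) else 0) := by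
    intro w v
    have nn : ∀ i, 0 ≤ (if d / 2 * N ≤ (S.ext w : ℝ) ∧ S.Nr (4 * s * N) (S.co (v i)) w then
        S.M w else 0) * (X0 * F0 * if ∀ i, S.co (v i) ∈ D then ∏ i, (S.M (v i) * |G i (v i)|) else 0) := by
      intro i
      have hX0 : 0 ≤ X0 := (abs_nonneg _).trans (hX w)
      refine mul_nonneg ?_ (mul_nonneg (mul_nonneg hX0 hF0) ?_)
      · split_ifs
        · exact S.M_nn w
        · exact le_rfl
      · split_ifs
        · exact Finset.prod_nonneg fun i _ => mul_nonneg (S.M_nn _) (abs_nonneg _)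
        · exact le_rfl
    have nns := Finset.sum_nonneg (fun i (_ : i ∈ (Finset.univ : Finset (Fin m))) => nn i)
    by_cases hT0 : T w v = 0
    · rw [hT0]
      simpa using nns
    by_cases hiff : S.Pt (tau π) (Fin.cons w v : Fin (m + 1) → S.P) ↔ Bp S π w v
    · have : (if S.Pt (tau π) (Fin.cons w v : Fin (m + 1) → S.P) then T w v else 0) =
          (if Bp S π w v then T w v else 0) := if_congr hiff rfl rfl
      rw [this, sub_self, abs_zero]
      exact nns
    · have hf0 : f (xN N fun i => S.co (v i)) ≠ 0 := left_ne_zero_of_mul (left_ne_zero_of_mul hT0)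
      have hG0' : ∀ i, G i (v i) ≠ 0 := by
        intro i
        have := Finset.prod_ne_zero_iff.1 (right_ne_zero_of_mul (left_ne_zero_of_mul hT0)) i (Finset.mem_univ _)
        exact right_ne_zero_of_mul this
      obtain ⟨he, i, hi⟩ := ev_of hπ hs h1 (fun i => hGw i _ (hG0' i)) ((hfs _ hf0).2) hiff
      have hco : ∀ i, S.co (v i) ∈ D := hfD _ hf0
      have hTle : |T w v| ≤ S.M w * (X0 * F0 * ∏ i, (S.M (v i) * |G i (v i)|)) := by
        simp only [hT]
        rw [abs_mul, abs_mul, abs_mul, abs_of_nonneg (S.M_nn w), Finset.abs_prod]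
        have e5 : ∏ i, |S.M (v i) * G i (v i)| = ∏ i, (S.M (v i) * |G i (v i)|) :=
          Finset.prod_congr rfl fun i _ => by rw [abs_mul, abs_of_nonneg (S.M_nn _)]
        rw [e5]
        have p0 : 0 ≤ ∏ i, (S.M (v i) * |G i (v i)|) :=
          Finset.prod_nonneg fun i _ => mul_nonneg (S.M_nn _) (abs_nonneg _)
        have a1 : |f (xN N fun i => S.co (v i))| * |X w| ≤ F0 * X0 :=
          mul_le_mul (hf _) (hX w) (abs_nonneg _) hF0
        calc |f (xN N fun i => S.co (v i))| * (∏ i, (S.M (v i) * |G i (v i)|)) * (S.M w * |X w|)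
            = (|f (xN N fun i => S.co (v i))| * |X w|) * ((∏ i, (S.M (v i) * |G i (v i)|)) * S.M w) := by ring
          _ ≤ (F0 * X0) * ((∏ i, (S.M (v i) * |G i (v i)|)) * S.M w) :=
              mul_le_mul_of_nonneg_right a1 (mul_nonneg p0 (S.M_nn w))
          _ = _ := by ring
      have hsing := Finset.single_le_sum (fun i (_ : i ∈ (Finset.univ : Finset (Fin m))) => nn i) (Finset.mem_univ i)
      refine le_trans ?_ (hTle.trans (le_trans (le_of_eq (by rw [if_pos ⟨he, hi⟩, if_pos hco])) hsing))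
      rcases (show (S.Pt (tau π) (Fin.cons w v : Fin (m + 1) → S.P) ∧ ¬ Bp S π w v) ∨
        (¬ S.Pt (tau π) (Fin.cons w v : Fin (m + 1) → S.P) ∧ Bp S π w v) by tauto) with ⟨u1, u2⟩ | ⟨u1, u2⟩
      · rw [if_pos u1, if_neg u2, sub_zero]
      · rw [if_neg u1, if_pos u2, zero_sub, abs_neg]
  refine (Finset.abs_sum_le_sum_abs _ _).trans ?_
  refine (Finset.sum_le_sum fun w _ => (Finset.abs_sum_le_sum_abs _ _).trans (Finset.sum_le_sum fun v _ => key w v)).trans ?_
  rcases isEmpty_or_nonempty S.P with hP | ⟨⟨p0⟩⟩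
  · have hb : S.box n = ∅ := Finset.eq_empty_of_isEmpty _
    rw [hb, Finset.sum_empty]
    have : S.mass r s N n = 0 := by
      unfold mass
      rw [hb, Finset.sum_empty]
    rw [this, mul_zero, zero_pow hm.ne']
    simp
  have hX0 : 0 ≤ X0 := (abs_nonneg _).trans (hX p0)
  have hG0 : 0 ≤ G0 := (abs_nonneg _).trans (hG ⟨0, hm⟩ p0)
  -- exchange of the sums
  have c1 : (∑ w ∈ S.box n, ∑ v ∈ Fintype.piFinset (fun _ : Fin m => S.box n), ∑ i,
      (if d / 2 * N ≤ (S.ext w : ℝ) ∧ S.Nr (4 * s * N) (S.co (v i)) w then S.M w else 0) *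
        (X0 * F0 * if ∀ i, S.co (v i) ∈ D then ∏ i, (S.M (v i) * |G i (v i)|) else 0)) =
      ∑ v ∈ Fintype.piFinset (fun _ : Fin m => S.box n), ∑ i, (∑ w ∈ S.box n,
        (if d / 2 * N ≤ (S.ext w : ℝ) ∧ S.Nr (4 * s * N) (S.co (v i)) w then S.M w else 0)) *
        (X0 * F0 * if ∀ i, S.co (v i) ∈ D then ∏ i, (S.M (v i) * |G i (v i)|) else 0) := by
    rw [Finset.sum_comm]
    refine Finset.sum_congr rfl fun v _ => ?_
    rw [Finset.sum_comm]
    refine Finset.sum_congr rfl fun i _ => ?_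
    rw [Finset.sum_mul]
  rw [c1]
  have c2 : (∑ v ∈ Fintype.piFinset (fun _ : Fin m => S.box n), ∑ i : Fin m, (∑ w ∈ S.box n,
        (if d / 2 * N ≤ (S.ext w : ℝ) ∧ S.Nr (4 * s * N) (S.co (v i)) w then S.M w else 0)) *
        (X0 * F0 * if ∀ i, S.co (v i) ∈ D then ∏ i, (S.M (v i) * |G i (v i)|) else 0)) ≤
      ∑ v ∈ Fintype.piFinset (fun _ : Fin m => S.box n), (m * nr * (X0 * F0)) *
        (if ∀ i, S.co (v i) ∈ D then ∏ i, (S.M (v i) * |G i (v i)|) else 0) := by
    refine Finset.sum_le_sum fun v _ => ?_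
    have p0 : 0 ≤ (if ∀ i, S.co (v i) ∈ D then ∏ i, (S.M (v i) * |G i (v i)|) else 0) := by
      split_ifs
      · exact Finset.prod_nonneg fun i _ => mul_nonneg (S.M_nn _) (abs_nonneg _)
      · exact le_rfl
    calc (∑ i : Fin m, (∑ w ∈ S.box n,
        (if d / 2 * N ≤ (S.ext w : ℝ) ∧ S.Nr (4 * s * N) (S.co (v i)) w then S.M w else 0)) *
        (X0 * F0 * if ∀ i, S.co (v i) ∈ D then ∏ i, (S.M (v i) * |G i (v i)|) else 0))
        ≤ ∑ _i : Fin m, nr * (X0 * F0 * if ∀ i, S.co (v i) ∈ D then ∏ i, (S.M (v i) * |G i (v i)|) else 0) := by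
          refine Finset.sum_le_sum fun i _ => ?_
          exact mul_le_mul_of_nonneg_right (near_le hnear _ _) (mul_nonneg (mul_nonneg hX0 hF0) p0)
      _ = _ := by
          rw [Finset.sum_const, Finset.card_univ, Fintype.card_fin, nsmul_eq_mul]
          ring
  refine c2.trans ?_
  rw [← Finset.mul_sum]
  have c3 := prod_sum_le (S := S) (S.box n) D G (A := G0 * S.mass r s N n) (fun i x hx => by
    obtain ⟨a, b⟩ := hDm x hx
    exact wx_le (hGw i) (hGt i) (hG i) hG0 a b hbig)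
  have hcard : (D.card : ℝ) ≤ (2 * R0 * N + 3) ^ 2 := by
    have e6 : D.card = (2 * q + 1).toNat * (2 * q + 1).toNat := by
      rw [hD, Dq, Finset.card_product, Int.card_Icc]
      congr 1 <;> congr 1 <;> ring
    have e7 : ((2 * q + 1).toNat : ℝ) = 2 * q + 1 := by
      have : ((2 * q + 1).toNat : ℤ) = 2 * q + 1 := Int.toNat_of_nonneg (by omega)
      exact_mod_cast this
    rw [e6]
    push_cast
    rw [e7]
    have q0 : (0 : ℝ) ≤ q := by exact_mod_cast hq0
    nlinarith
  have c4 : (D.card * (G0 * S.mass r s N n)) ^ m ≤ ((2 * R0 * N + 3) ^ 2 * (G0 * S.mass r s N n)) ^ m :=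
    pow_le_pow_left₀ (by positivity) (mul_le_mul_of_nonneg_right hcard (by positivity)) m
  calc m * nr * (X0 * F0) * (∑ v ∈ Fintype.piFinset (fun _ : Fin m => S.box n),
        (if ∀ i, S.co (v i) ∈ D then ∏ i, (S.M (v i) * |G i (v i)|) else 0))
      ≤ m * nr * (X0 * F0) * ((2 * R0 * N + 3) ^ 2 * (G0 * S.mass r s N n)) ^ m :=
        mul_le_mul_of_nonneg_left (c3.trans c4) (by positivity)
    _ = F0 * X0 * (G0 * S.mass r s N n) ^ m * (2 * R0 * N + 3) ^ (2 * m) * (m * nr) := by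
        rw [mul_pow, ← pow_mul]
        ring

end PSys

end Pool.Agent.ROT.A

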