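import Pool.Agent.ROT.ADefs
import Pool.Agent.ROT.IDefs

/-!
# ROT, linear response, row A5 (helper27): the flow identity of block A is the weak identity of block I

`Lk S e`: the polygons of the system `S` are the loops of block I (those of weight zero may be missing).
* `pp_eq`: the pattern functions agree (also where they are infinite: both are then zero);
* `weak_of_flow`: `S.Flow a b → I.Weak a (-b)`.
-/

set_option autoImplicit false

open Filter Topology MeasureTheory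

namespace Pool.Agent.ROT.A5

open Pool.Agent.ROT.I (Lps mu M1 e1 e2 cx cy sc BC pat PP U Tst Weak)

/-! ### the coordinate map -/

/-- `(x, y) ↦ x e1 + y e2` -/
noncomputable def L1 : ℝ × ℝ →L[ℝ] ℂ :=
  (ContinuousLinearMap.fst ℝ ℝ ℝ).smulRight e1 + (ContinuousLinearMap.snd ℝ ℝ ℝ).smulRight e2

theorem L1_apply (y : ℝ × ℝ) : L1 y = y.1 • e1 + y.2 • e2 := rfl

theorem cx_L1 (y : ℝ × ℝ) : cx (L1 y) = y.1 := by
  rw [L1_apply]
  simp [cx, e1, e2]
  ring

theorem cy_L1 (y : ℝ × ℝ) : cy (L1 y) = y.2 := by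
  have h3 : √(3 : ℝ) ≠ 0 := by positivity
  rw [L1_apply]
  simp [cy, e1, e2]
  field_simp
  ring

theorem abs_cx_le (z : ℂ) : |cx z| ≤ ‖z‖ := by
  have h := Complex.abs_re_le_norm z
  unfold cx
  rw [abs_mul, abs_of_pos (by norm_num : (0 : ℝ) < 2 / 3)]
  nlinarith [abs_nonneg z.re]

theorem abs_cy_le (z : ℂ) : |cy z| ≤ 2 * ‖z‖ := by
  have h1 := Complex.abs_re_le_norm z
  have h2 := Complex.abs_im_le_norm z
  have h3 : (1 : ℝ) ≤ √3 := by rw [Real.one_le_sqrt]; norm_num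
  have h4 : |z.im / √3| ≤ |z.im| := by
    rw [abs_div, abs_of_pos (by positivity : (0 : ℝ) < √3)]
    exact div_le_self (abs_nonneg _) h3
  have h5 : |z.re / 3| ≤ |z.re| := by
    rw [abs_div, abs_of_pos (by norm_num : (0 : ℝ) < 3)]
    exact div_le_self (abs_nonneg _) (by norm_num)
  unfold cy
  calc |z.im / √3 - z.re / 3| ≤ |z.im / √3| + |z.re / 3| := abs_sub _ _
    _ ≤ 2 * ‖z‖ := by linarith

theorem norm_le_L1 (y : ℝ × ℝ) : ‖y‖ ≤ 2 * ‖L1 y‖ := by
  rw [Prod.norm_def]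
  have h0 := norm_nonneg (L1 y)
  have h1 := abs_cx_le (L1 y)
  have h2 := abs_cy_le (L1 y)
  rw [cx_L1] at h1
  rw [cy_L1] at h2
  rw [Real.norm_eq_abs, Real.norm_eq_abs]
  exact max_le (by linarith) h2

/-- the same on tuples -/
noncomputable def LL (m : ℕ) : (Fin m → ℝ × ℝ) →L[ℝ] (Fin m → ℂ) :=
  ContinuousLinearMap.pi fun i => L1.comp (ContinuousLinearMap.proj i)

theorem LL_apply {m : ℕ} (y : Fin m → ℝ × ℝ) : LL m y = fun i => L1 (y i) := rfl

theorem BC_L1 (a b : ℝ) (y : ℝ × ℝ) : BC a (-b) (L1 y) = L1 (A.PSys.B1 a b y) := by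
  have h : BC a (-b) (L1 y) = (-a * cx (L1 y) + -b * cy (L1 y)) • e1 + (- -b * cx (L1 y) + a * cy (L1 y)) • e2 := rfl
  rw [h, cx_L1, cy_L1, L1_apply, A.PSys.B1]
  congr 2 <;> ring

theorem sc_eq {m : ℕ} (N : ℕ) (q : Fin m → A.Z2) : (fun i => sc N (q i)) = LL m (A.PSys.xN N q) := rfl

/-! ### the pattern functions -/

theorem mu_apply (S : Set Lps) : mu S = ∑' γ : Lps, ENNReal.ofReal (M1 γ.1) * S.indicator 1 γ := by
  have hS : MeasurableSet S := trivial
  unfold mu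
  rw [Measure.sum_apply _ hS]
  refine tsum_congr fun γ => ?_
  rw [Measure.smul_apply, Measure.dirac_apply' _ hS, smul_eq_mul]

/-- the polygons of `S` are the loops (those of weight zero may be missing) -/
structure Lk (S : A.PSys) (e : S.P → Lps) : Prop where
  inj : Function.Injective e
  M : ∀ p, S.M p = M1 (e p).1
  ip : ∀ x p, S.ip x p ↔ E.sg (e p).1 x.1 x.2 = 1
  out : ∀ γ : Lps, γ ∉ Set.range e → M1 γ.1 ≤ 0

/-- the pattern as inside / outside -/
def pi' {m : ℕ} (τ : Fin m → ZMod 2) : Fin m → Bool := fun i => decide (τ i = 1)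

theorem zm_iff : ∀ x y : ZMod 2, x = y ↔ (x = 1 ↔ decide (y = 1) = true) := by decide

variable {S : A.PSys} {e : S.P → Lps}

theorem pat_iff (l : Lk S e) {m : ℕ} (τ : Fin m → ZMod 2) (q : Fin m → A.Z2) (p : S.P) :
    pat (e p).1 q = τ ↔ ∀ i, S.ip (q i) p ↔ pi' τ i = true := by
  rw [funext_iff]
  refine forall_congr' fun i => ?_
  rw [l.ip]
  exact zm_iff _ _

theorem pp_eq (l : Lk S e) {m : ℕ} (τ : Fin m → ZMod 2) (q : Fin m → A.Z2) : PP τ q = S.Pf (pi' τ) q := by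
  classical
  unfold PP A.PSys.Pf
  rw [Measure.real, mu_apply]
  have h1 : Function.support (fun γ : Lps => ENNReal.ofReal (M1 γ.1) * {γ : Lps | pat γ.1 q = τ}.indicator 1 γ) ⊆
      Set.range e := by
    intro γ hγ
    by_contra hn
    exact hγ (by simp only; rw [ENNReal.ofReal_of_nonpos (l.out γ hn), zero_mul])
  rw [← l.inj.tsum_eq h1, ENNReal.tsum_toReal_eq]
  · refine tsum_congr fun p => ?_
    rw [ENNReal.toReal_mul, ENNReal.toReal_ofReal (by rw [← l.M]; exact S.M_nn p), ← l.M]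
    by_cases h : pat (e p).1 q = τ
    · rw [if_pos ((pat_iff l τ q p).1 h), Set.indicator_of_mem (by exact h), Pi.one_apply, ENNReal.toReal_one, mul_one]
    · rw [if_neg (fun h' => h ((pat_iff l τ q p).2 h')), Set.indicator_of_notMem (by exact h), ENNReal.toReal_zero,
        mul_zero]
  · intro p
    refine ENNReal.mul_ne_top ENNReal.ofReal_ne_top ?_
    by_cases h : pat (e p).1 q = τ
    · rw [Set.indicator_of_mem (by exact h)]
      exact ENNReal.one_ne_top
    · rw [Set.indicator_of_notMem (by exact h)]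
      exact ENNReal.zero_ne_top

/-! ### test functions -/

theorem nt_of {m : ℕ} {τ : Fin m → ZMod 2} {φ : (Fin m → ℂ) → ℝ} (h : Tst τ φ) : A.PSys.NT (pi' τ) := by
  obtain ⟨i, j, hij, hi, hj⟩ := h.inn
  obtain ⟨k, hk⟩ := h.out
  refine ⟨⟨i, j, hij, by simp [pi', hi], by simp [pi', hj]⟩, k, ?_⟩
  unfold pi'
  rw [hk]
  decide

theorem tp_of {m : ℕ} {τ : Fin m → ZMod 2} {φ : (Fin m → ℂ) → ℝ} (h : Tst τ φ) :
    ∃ R d : ℝ, 0 < d ∧ A.PSys.Tp R d (fun y => φ (LL m y)) := by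
  obtain ⟨r, hr, hs⟩ := h.sep
  obtain ⟨R, hR⟩ := h.cpt.isBounded.exists_norm_le
  have h1 : 0 < ‖L1‖ + 1 := by positivity
  refine ⟨2 * R, r / (‖L1‖ + 1), by positivity, ?_, ?_⟩
  · exact (h.smooth.of_le (WithTop.coe_le_coe.2 le_top)).comp (LL m).contDiff
  · intro y hy
    have hy' : LL m y ∈ tsupport φ := subset_tsupport φ hy
    refine ⟨fun i => ?_, fun i k hik => ?_⟩
    · refine (norm_le_L1 (y i)).trans ?_
      have h2 := (norm_le_pi_norm (LL m y) i).trans (hR _ hy')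
      rw [LL_apply] at h2
      linarith
    · have h2 := hs _ hy' i k hik
      rw [LL_apply, dist_eq_norm, ← map_sub] at h2
      rw [div_le_iff₀ h1]
      calc r ≤ ‖L1 (y i - y k)‖ := h2
        _ ≤ ‖L1‖ * ‖y i - y k‖ := L1.le_opNorm _
        _ ≤ ‖y i - y k‖ * (‖L1‖ + 1) := by nlinarith [norm_nonneg (y i - y k)]

theorem fd_eq {m : ℕ} {τ : Fin m → ZMod 2} {φ : (Fin m → ℂ) → ℝ} (h : Tst τ φ) (y v : Fin m → ℝ × ℝ) :
    fderiv ℝ (fun y => φ (LL m y)) y v = fderiv ℝ φ (LL m y) (LL m v) := by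
  have h1 : DifferentiableAt ℝ φ (LL m y) := (h.smooth.differentiable (by simp)).differentiableAt
  have h2 := (h1.hasFDerivAt.comp y (LL m).hasFDerivAt).fderiv
  have h3 : (fun y => φ (LL m y)) = φ ∘ LL m := rfl
  rw [h3, h2]
  rfl

/-- **row A5** -/
theorem weak_of_flow (l : Lk S e) {a b : ℕ → ℝ} (h : S.Flow a b) : Weak a fun N => -b N := by
  intro m τ φ ht
  obtain ⟨R, d, hd, hp⟩ := tp_of ht
  refine (h m (pi' τ) R d _ (nt_of ht) hd hp).congr fun N => ?_
  unfold U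
  congr 1
  refine tsum_congr fun q => ?_
  rw [pp_eq l, fd_eq ht, sc_eq]
  congr 2
  funext i
  rw [LL_apply, LL_apply]
  exact (BC_L1 _ _ _).symm

end Pool.Agent.ROT.A5
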