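import Pool.Agent.ROT.A6S

/-!
# ROT, row A6b (helper18): the responses and the extreme coordinates are functions of the extreme lines

`lin`: two loops with the same height `u` and the same cells on the extreme line `u` have the same responses `qf u`,
`cf u` and the same extreme coordinate `xe u`.  `Q_ge`, `C_le`, `qf_le`: the bounds.  `tr_ac`: the transposition of
the cells is the transposition of the honeycomb.
-/

set_option autoImplicit false

namespace Pool.Agent.ROT.A6

open Pool.Agent.ROT.E (Cell Pt Cfg)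
open Pool.Agent.ROT.E.Hx (HL)

/-- the coordinate of the height `u` -/
def crd (u : Fin 4) (p : Pt) : ℤ := ![p.1, p.1, p.2, p.2] u

theorem u_cases (u : Fin 4) : u = 0 ∨ u = 1 ∨ u = 2 ∨ u = 3 := by
  revert u
  decide

/-! ### bounds -/

/-- **the responses are at least `2 - √2`** -/
theorem Q_ge (p : hexP.P) (u : Fin 4) : 2 - Real.sqrt 2 ≤ hexP.Qf p u := by
  rcases u_cases u with rfl | rfl | rfl | rfl
  · exact qL_ge p.2
  · exact qR_ge p.2
  · exact qL_ge (hl_tr p.2)
  · exact qR_ge (hl_tr p.2)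

private theorem cpT_le (γ : Cfg) : cpT γ ≤ L.kk := by
  unfold cpT
  split_ifs
  · exact le_rfl
  · exact kk_nn

private theorem cpB_le (γ : Cfg) : cpB γ ≤ L.kk := by
  unfold cpB
  split_ifs
  · exact le_rfl
  · exact kk_nn

theorem cf_le (γ : Cfg) (u : Fin 4) : cf γ u ≤ L.kk := by
  rcases u_cases u with rfl | rfl | rfl | rfl
  · exact cpB_le _
  · exact cpT_le _
  · exact cpB_le _
  · exact cpT_le _

/-- **the cup responses are at most `kk`** -/
theorem C_le (p : hexP.P) (u : Fin 4) : hexP.Cf p u ≤ L.kk := cf_le p.1 u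

theorem tau_le (c : Cell) : L.tau c ≤ 2 := by
  have h : 0 ≤ Real.sqrt 2 := Real.sqrt_nonneg 2
  cases c <;> simp only [L.tau] <;> linarith

private theorem Qc_le (γ : Cfg) (l : ℤ) : L.Qc γ l ≤ 2 * ((γ.support.filter fun v => v.1 = l).card : ℝ) := by
  unfold L.Qc
  refine (Finset.sum_le_card_nsmul _ _ 2 fun v _ => tau_le _).trans ?_
  rw [nsmul_eq_mul, mul_comm]

private theorem card_sw (γ : Cfg) (l : ℤ) : ((E.tr γ).support.filter fun v => v.1 = l).card =
    (γ.support.filter fun v => v.2 = l).card := by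
  refine Finset.card_bij' (fun v _ => v.swap) (fun v _ => v.swap) (fun v hv => ?_) (fun v hv => ?_)
    (fun v _ => v.swap_swap) (fun v _ => v.swap_swap)
  · rw [Finset.mem_filter] at hv ⊢
    exact ⟨supp_tr.1 hv.1, hv.2⟩
  · rw [Finset.mem_filter] at hv ⊢
    refine ⟨supp_tr.2 ?_, hv.2⟩
    rw [Prod.swap_swap]
    exact hv.1

/-- **the responses are at most twice the number of cells of the extreme line** -/
theorem qf_le (γ : Cfg) (u : Fin 4) : qf γ u ≤ 2 * ((γ.support.filter fun v => crd u v = hc γ u).card : ℝ) := by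
  rcases u_cases u with rfl | rfl | rfl | rfl
  · show qL γ ≤ _
    unfold qL
    rw [tsum_col]
    exact Qc_le γ _
  · show qR γ ≤ _
    unfold qR
    rw [tsum_col]
    exact Qc_le γ _
  · show qL (E.tr γ) ≤ _
    unfold qL
    rw [tsum_col]
    refine (Qc_le _ _).trans ?_
    rw [card_sw, (hc_sw γ).1]
    exact le_rfl
  · show qR (E.tr γ) ≤ _
    unfold qR
    rw [tsum_col]
    refine (Qc_le _ _).trans ?_
    rw [card_sw, (hc_sw γ).2.1]
    exact le_rfl

/-! ### locality -/

section lin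

variable {γ γ' : Cfg}

private theorem qL_lin (h : hc γ 0 = hc γ' 0) (h' : ∀ p : Pt, p.1 = hc γ 0 → γ p = γ' p) : qL γ = qL γ' := by
  unfold qL
  rw [← h]
  refine tsum_congr fun r => ?_
  rw [h' (hc γ 0, r) rfl]

private theorem qR_lin (h : hc γ 1 = hc γ' 1) (h' : ∀ p : Pt, p.1 = hc γ 1 → γ p = γ' p) : qR γ = qR γ' := by
  unfold qR
  rw [← h]
  refine tsum_congr fun r => ?_
  rw [h' (hc γ 1, r) rfl]

private theorem cpT_lin (h : hc γ 3 = hc γ' 3) (h' : ∀ p : Pt, p.2 = hc γ 3 → γ p = γ' p) : cpT γ = cpT γ' := by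
  have e : (∃ c, CpT γ c) ↔ ∃ c, CpT γ' c := by
    refine exists_congr fun c => ?_
    unfold CpT
    rw [← h, h' (c, hc γ 3) rfl, h' (c + 1, hc γ 3) rfl]
    refine and_congr_right fun _ => and_congr_right fun _ => forall_congr' fun p => ?_
    constructor
    · intro H a b
      exact H (by rwa [h' p b]) b
    · intro H a b
      exact H (by rwa [← h' p b]) b
  unfold cpT
  by_cases hc : ∃ c, CpT γ c
  · rw [if_pos hc, if_pos (e.1 hc)]
  · rw [if_neg hc, if_neg fun h => hc (e.2 h)]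

private theorem cpB_lin (h : hc γ 2 = hc γ' 2) (h' : ∀ p : Pt, p.2 = hc γ 2 → γ p = γ' p) : cpB γ = cpB γ' := by
  have e : (∃ c, CpB γ c) ↔ ∃ c, CpB γ' c := by
    refine exists_congr fun c => ?_
    unfold CpB
    rw [← h, h' (c, hc γ 2) rfl, h' (c + 1, hc γ 2) rfl]
    refine and_congr_right fun _ => and_congr_right fun _ => forall_congr' fun p => ?_
    constructor
    · intro H a b
      exact H (by rwa [h' p b]) b
    · intro H a b
      exact H (by rwa [← h' p b]) b
  unfold cpB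
  by_cases hc : ∃ c, CpB γ c
  · rw [if_pos hc, if_pos (e.1 hc)]
  · rw [if_neg hc, if_neg fun h => hc (e.2 h)]

/-- the extreme line as a finite set is the same -/
theorem fil_lin {u : Fin 4} (h : hc γ u = hc γ' u) (h' : ∀ p : Pt, crd u p = hc γ u → γ p = γ' p) :
    (γ.support.filter fun v => crd u v = hc γ u) = γ'.support.filter fun v => crd u v = hc γ' u := by
  ext v
  rw [Finset.mem_filter, Finset.mem_filter, mem_supp, mem_supp, ← h]
  constructor
  · rintro ⟨a, b⟩
    exact ⟨by rwa [← h' v b], b⟩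
  · rintro ⟨a, b⟩
    exact ⟨by rwa [h' v b], b⟩

/-- the transposition of the hypothesis -/
private theorem tr_lin {a b : ℤ} (h' : ∀ p : Pt, p.1 = a → γ p = γ' p) (e : b = a) :
    ∀ p : Pt, p.2 = b → E.tr γ p = E.tr γ' p := by
  rintro ⟨x, y⟩ hp
  rw [E.tr_apply, E.tr_apply, h' (y, x) (by rw [← e]; exact hp)]

private theorem tr_lin' {a b : ℤ} (h' : ∀ p : Pt, p.2 = a → γ p = γ' p) (e : b = a) :
    ∀ p : Pt, p.1 = b → E.tr γ p = E.tr γ' p := by
  rintro ⟨x, y⟩ hp
  rw [E.tr_apply, E.tr_apply, h' (y, x) (by rw [← e]; exact hp)]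

/-- **locality**: the responses and the extreme coordinate are functions of the extreme line -/
theorem lin {u : Fin 4} (h : hc γ u = hc γ' u) (h' : ∀ p : Pt, crd u p = hc γ u → γ p = γ' p) :
    qf γ u = qf γ' u ∧ cf γ u = cf γ' u ∧ xe γ u = xe γ' u := by
  have hf := fil_lin h h'
  obtain ⟨s0, s1, s2, s3⟩ := hc_sw γ
  obtain ⟨t0, t1, t2, t3⟩ := hc_sw γ'
  rcases u_cases u with rfl | rfl | rfl | rfl
  · exact ⟨qL_lin h h', cpB_lin (s2.trans (h.trans t2.symm)) (tr_lin h' s2), congrArg L.hB hf⟩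
  · exact ⟨qR_lin h h', cpT_lin (s3.trans (h.trans t3.symm)) (tr_lin h' s3), congrArg L.hB hf⟩
  · exact ⟨qL_lin (s0.trans (h.trans t0.symm)) (tr_lin' h' s0), cpB_lin h h', congrArg L.hL hf⟩
  · exact ⟨qR_lin (s1.trans (h.trans t1.symm)) (tr_lin' h' s1), cpT_lin h h', congrArg L.hL hf⟩

end lin

/-- **locality** for the polygon system -/
theorem lin_hexP {p q : hexP.P} {u : Fin 4} (h : hexP.ht p u = hexP.ht q u)
    (h' : ∀ x : Pt, crd u x = hexP.ht p u → p.1 x = q.1 x) :
    hexP.Qf p u = hexP.Qf q u ∧ hexP.Cf p u = hexP.Cf q u ∧ hexP.ex p u = hexP.ex q u := lin h h'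

/-! ### the transposition -/

/-- **the transposition of the cells is the transposition of the honeycomb** -/
theorem tr_ac {γ : Cfg} (l : HL γ) : E.tr γ = E.Hx.tpA.ac γ := by
  apply E.Hx.ub_ext (hl_tr l).ny (E.Hx.tpA.ny_ac _)
  intro f
  obtain ⟨g, rfl⟩ := E.Hx.tpA.b.surjective f
  rw [E.Hx.tpA.ub_ac l]
  obtain ⟨⟨x, y⟩, s⟩ := g
  have hy := l.ny (x, y)
  have key : ∀ c : Cell, c ≠ .y → ∀ s : E.Hx.Sx, E.Hx.us c.tp (E.Hx.tp ((0, 0), s)).2 = E.Hx.us c s := by
    intro c hc s
    revert hc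
    cases c <;> cases s <;> decide
  have e1 : (E.Hx.tpA.b ((x, y), s)).1 = (y, x) := by cases s <;> rfl
  have e2 : (E.Hx.tpA.b ((x, y), s)).2 = (E.Hx.tp ((0, 0), s)).2 := by cases s <;> rfl
  unfold E.Hx.ub
  rw [e1, e2, E.tr_apply, key _ hy s]

end Pool.Agent.ROT.A6
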