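import Pool.Agent.ROT.RFin
import Pool.Agent.ROT.A6Lin

/-!
# ROT, row A6 (helper22): the part above a double cut row determines the extreme line of the loop

* `step_cap` : the steps at levels ≥ -1 depend only on the cap of a state of depth ≥ 1;
* `lpw_cap` : the cells of the loop `lpw e w` whose two vertices are at levels ≥ -1 (from the start of e) depend only
  on the cap.
-/

set_option autoImplicit false

namespace HexObs

namespace ART

open Pool.Agent.ROT.E.Hx (Bo Sx st dr bt Os lpw cel ce us ub wh bk CW)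
open Pool.Agent.ROT

/-- **the steps of the cap** -/
theorem step_cap {d : Pt} (hd : d ∈ dirs) {z : Pt × Pt} {R O O' S : List Bool} (hC : Cap d z R S) (hO : Out d z O)
    (hO' : Out d z O') (hz : 1 ≤ dpt d z) {i : ℕ} (hi : i < (R ++ (O ++ S)).length)
    (hl : -1 ≤ ip (vx oo up (R ++ (O ++ S)) i) d ∨ -1 ≤ ip (vx oo up (R ++ (O ++ S)) (i + 1)) d) :
    ∃ j, j < (R ++ (O' ++ S)).length ∧ vx oo up (R ++ (O' ++ S)) j = vx oo up (R ++ (O ++ S)) i ∧
      dx up (R ++ (O' ++ S)) j = dx up (R ++ (O ++ S)) i := by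
  obtain ⟨e1, e2, e3, e4⟩ := dec_vx (S := S) hC.enR hC.hdR hO.en hO.hd
  obtain ⟨f1, f2, f3, f4⟩ := dec_vx (S := S) hC.enR hC.hdR hO'.en hO'.hd
  have hOp := hO.pos hd
  have hOp' := hO'.pos hd
  have hlen : (R ++ (O ++ S)).length = R.length + O.length + S.length := by
    rw [List.length_append, List.length_append, Nat.add_assoc]
  have hlen' : (R ++ (O' ++ S)).length = R.length + O'.length + S.length := by
    rw [List.length_append, List.length_append, Nat.add_assoc]
  have hz1 : ip z.1 d ≤ -1 := by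
    unfold dpt at hz
    omega
  rw [hlen] at hi
  rcases Nat.lt_or_ge R.length i with h | h
  · rcases Nat.lt_or_ge i (R.length + O.length) with h' | h'
    · exfalso
      have h1 := hO.lo (i - R.length) (by omega) (by omega)
      have h2 := hO.lo (i + 1 - R.length) (by omega) (by omega)
      rw [← e2 _ (by omega), show R.length + (i - R.length) = i by omega] at h1
      rw [← e2 _ (by omega), show R.length + (i + 1 - R.length) = i + 1 by omega] at h2
      omega
    · refine ⟨R.length + O'.length + (i - (R.length + O.length)), by omega, ?_, ?_⟩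
      · rw [f3, ← e3, show R.length + O.length + (i - (R.length + O.length)) = i by omega]
      · rw [f4, ← e4, show R.length + O.length + (i - (R.length + O.length)) = i by omega]
  · refine ⟨i, by omega, ?_, ?_⟩
    · rw [f1 i h, e1 i h]
    · rw [dx_apL _ _ h, dx_apL _ _ h]

/-! ### the frame of a bond -/

lemma nrm_dr (e : Bo) : nrm (rotTo up (dr e.2)) = 1 := by
  have h1 : nrm up = 1 := by decide
  have h2 : nrm (dr e.2) = 1 := mem_dirs.1 (Pool.Agent.ROT.E.Hx.dr_mem e.2)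
  unfold rotTo
  rw [nrm_mulE, nrm_conjE, h1, h2, mul_one]

lemma rot_dr (e : Bo) : mulE (rotTo up (dr e.2)) up = dr e.2 := rotTo_apply _ (by decide)

/-- positions in the frame of e -/
lemma st_frame (e : Bo) (w : List Bool) (i : ℕ) :
    st (bt e w i) = st e + mulE (rotTo up (dr e.2)) (vx oo up w i) := by
  rw [Pool.Agent.ROT.E.Hx.st_bt]
  conv_lhs => rw [← rot_dr e]
  rw [vx_mulE _ oo]
  congr 2
  unfold oo
  simp

lemma dr_frame (e : Bo) (w : List Bool) (i : ℕ) : dr (bt e w i).2 = mulE (rotTo up (dr e.2)) (dx up w i) := by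
  rw [Pool.Agent.ROT.E.Hx.dr_bt]
  conv_lhs => rw [← rot_dr e]
  unfold dx
  rw [ds_mulE]

/-- D is the direction d in the frame of e -/
def Fr (d : Pt) (e : Bo) (D : Pt) : Prop := mulE (rotTo up (dr e.2)) d = D

lemma lev_frame {d : Pt} {e : Bo} {D : Pt} (h : Fr d e D) (w : List Bool) (i : ℕ) :
    ip (st (bt e w i) - st e) D = ip (vx oo up w i) d := by
  rw [st_frame, ← h, add_sub_cancel_left, ip_mulE, nrm_dr, one_mul]

lemma lev_frame' {d : Pt} {e : Bo} {D : Pt} (h : Fr d e D) (w : List Bool) (i : ℕ) :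
    ip (st (E.Hx.rev (bt e w i)) - st e) D = ip (vx oo up w (i + 1)) d := by
  have e1 : st (E.Hx.rev (bt e w i)) = st (bt e w (i + 1)) := by
    rw [Pool.Agent.ROT.E.Hx.st_rev, Pool.Agent.ROT.E.Hx.st_bt, Pool.Agent.ROT.E.Hx.dr_bt, Pool.Agent.ROT.E.Hx.st_bt]
    unfold vx dx
    rw [vs_succ]
  rw [e1, lev_frame h]

/-- **the bonds at levels ≥ -1** -/
theorem os_cap {d : Pt} (hd : d ∈ dirs) {e : Bo} {D : Pt} (hF : Fr d e D) {z : Pt × Pt} {R O O' S : List Bool}
    (hC : Cap d z R S) (hO : Out d z O) (hO' : Out d z O') (hz : 1 ≤ dpt d z) {f : Bo}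
    (hl : -1 ≤ ip (st f - st e) D) (hf : Os e (R ++ (O ++ S)) f) : Os e (R ++ (O' ++ S)) f := by
  obtain ⟨i, hi, h⟩ := hf
  have hl' : -1 ≤ ip (vx oo up (R ++ (O ++ S)) i) d ∨ -1 ≤ ip (vx oo up (R ++ (O ++ S)) (i + 1)) d := by
    rcases h with h | h
    · left
      rw [← lev_frame hF, ← h]
      exact hl
    · right
      rw [← lev_frame' hF, ← h, Pool.Agent.ROT.E.Hx.rev_rev]
      exact hl
  obtain ⟨j, hj, e1, e2⟩ := step_cap hd hC hO hO' hz hi hl'
  have e3 : bt e (R ++ (O' ++ S)) j = bt e (R ++ (O ++ S)) i :=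
    Pool.Agent.ROT.E.Hx.bo_eq (by rw [st_frame, st_frame, e1]) (by rw [dr_frame, dr_frame, e2])
  refine ⟨j, hj, ?_⟩
  rw [e3]
  exact h

/-- **the cells of the cap** -/
theorem lpw_cap {d : Pt} (hd : d ∈ dirs) {e : Bo} {D : Pt} (hF : Fr d e D) {z : Pt × Pt} {R O O' S : List Bool}
    (hC : Cap d z R S) (hO : Out d z O) (hO' : Out d z O') (hz : 1 ≤ dpt d z) {v : E.Pt}
    (hl : ∀ s, -1 ≤ ip (st (v, s) - st e) D) : lpw e (R ++ (O ++ S)) v = lpw e (R ++ (O' ++ S)) v := by
  rw [Pool.Agent.ROT.E.Hx.lpw_apply, Pool.Agent.ROT.E.Hx.lpw_apply]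
  unfold cel
  congr 1
  funext s
  refine decide_eq_decide.2 ⟨fun h => os_cap hd hF hC hO hO' hz (hl s) h, fun h => os_cap hd hF hC hO' hO hz (hl s) h⟩

end ART

end HexObs

namespace Pool.Agent.ROT.A6

open Pool.Agent.ROT.E (Cell Pt Cfg)
open Pool.Agent.ROT.E.Hx (Bo Sx st dr bt Os lpw HL wh bk Wo)
open HexObs.ART (Fr WT Cap Out dpt SP InA)

/-! ### the four sides -/

/-- the outer directions of the sides (left column, right column, bottom row, top row) -/
def Dw : Fin 4 → HexObs.Pt := ![(-1, 0), (1, 0), (1, -1), (-1, 1)]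

/-- the first bonds -/
def sw4 : Fin 4 → Sx := ![.ss, .nn, .ii, .jj]

/-- the sign of the coordinate -/
def sw1 (u : Fin 4) : ℤ := if u = 0 ∨ u = 2 then -1 else 1

theorem fr_u (u : Fin 4) (v : Pt) : Fr (1, -1) (v, sw4 u) (Dw u) := by
  show HexObs.mulE (HexObs.rotTo HexObs.up (dr (sw4 u))) (1, -1) = Dw u
  revert u
  decide

/-- **the levels of the vertices of a cell** -/
theorem lev_cell (u : Fin 4) (a v : Pt) (s : Sx) :
    HexObs.ip (st (v, s) - st (a, sw4 u)) (Dw u) = 3 * (sw1 u * (crd u v - crd u a)) ∨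
      HexObs.ip (st (v, s) - st (a, sw4 u)) (Dw u) = 3 * (sw1 u * (crd u v - crd u a)) - 1 := by
  obtain ⟨v1, v2⟩ := v
  obtain ⟨a1, a2⟩ := a
  fin_cases u <;> cases s <;> simp [st, E.Hx.wi, wh, bk, HexObs.ip, Dw, sw4, sw1, crd] <;> omega

theorem wt_wo {w : List Bool} (h : w ∈ WT (1, -1)) : w ∈ Wo := ⟨h.2.2, h.1⟩

/-- the loop is on one side of the extreme line -/
theorem supp_side {u : Fin 4} {a : Pt} {w : List Bool} (hw : w ∈ WT (1, -1)) {v : Pt}
    (hv : v ∈ (lpw (a, sw4 u) w).support) : sw1 u * (crd u v - crd u a) ≤ 0 := by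
  obtain ⟨i, hi, e⟩ := (E.Hx.supp_lpw' (wt_wo hw) v).1 (Finsupp.mem_support_iff.1 hv)
  have h1 := HexObs.ART.lev_frame (fr_u u a) w i
  have h2 : HexObs.ip (HexObs.vx HexObs.oo HexObs.up w i) (1, -1) ≤ 0 := by
    rcases hw.2.1 i hi.le with h | h
    · exact h.le
    · exact h.1.le
  rw [← e]
  rcases lev_cell u a (bt (a, sw4 u) w i).1 (bt (a, sw4 u) w i).2 with h | h
  · have h3 : HexObs.ip (st (bt (a, sw4 u) w i) - st (a, sw4 u)) (Dw u) =
        3 * (sw1 u * (crd u (bt (a, sw4 u) w i).1 - crd u a)) := h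
    omega
  · have h3 : HexObs.ip (st (bt (a, sw4 u) w i) - st (a, sw4 u)) (Dw u) =
        3 * (sw1 u * (crd u (bt (a, sw4 u) w i).1 - crd u a)) - 1 := h
    omega

theorem supp_root {u : Fin 4} {a : Pt} {w : List Bool} (hw : w ∈ WT (1, -1)) : a ∈ (lpw (a, sw4 u) w).support := by
  rw [Finsupp.mem_support_iff]
  exact (E.Hx.supp_lpw' (wt_wo hw) a).2 ⟨0, List.length_pos_iff.2 hw.2.2, rfl⟩

/-- the height of the side -/
theorem hc_eq {γ : Cfg} {u : Fin 4} {a : ℤ} (h : ∃ v ∈ γ.support, crd u v = a)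
    (h' : ∀ v ∈ γ.support, sw1 u * (crd u v - a) ≤ 0) : hc γ u = a := by
  fin_cases u
  · refine L.hL_eq h fun v hv => ?_
    have := h' v hv
    simp [sw1, crd] at this
    omega
  · refine L.hR_eq h fun v hv => ?_
    have := h' v hv
    simp [sw1, crd] at this
    omega
  · refine L.hB_eq h fun v hv => ?_
    have := h' v hv
    simp [sw1, crd] at this
    omega
  · refine L.hT_eq h fun v hv => ?_
    have := h' v hv
    simp [sw1, crd] at this
    omega

/-- **the extreme line goes through the first bond** -/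
theorem hc_root {u : Fin 4} {a : Pt} {w : List Bool} (hw : w ∈ WT (1, -1)) : hc (lpw (a, sw4 u) w) u = crd u a :=
  hc_eq ⟨a, supp_root hw, rfl⟩ fun _ hv => supp_side hw hv

/-! ### functions of the extreme line -/

/-- **the responses and the extreme point depend only on the cap** -/
theorem cap_line {u : Fin 4} {a : Pt} {z : HexObs.Pt × HexObs.Pt} {R O O' S : List Bool} (hC : Cap (1, -1) z R S)
    (hO : Out (1, -1) z O) (hO' : Out (1, -1) z O') (hz : 1 ≤ dpt (1, -1) z) :
    qf (lpw (a, sw4 u) (R ++ (O ++ S))) u = qf (lpw (a, sw4 u) (R ++ (O' ++ S))) u ∧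
      cf (lpw (a, sw4 u) (R ++ (O ++ S))) u = cf (lpw (a, sw4 u) (R ++ (O' ++ S))) u ∧
      xe (lpw (a, sw4 u) (R ++ (O ++ S))) u = xe (lpw (a, sw4 u) (R ++ (O' ++ S))) u := by
  have hd : ((1, -1) : HexObs.Pt) ∈ HexObs.dirs := by decide
  have h1 := hc_root (u := u) (a := a) (HexObs.ART.cap_out hd hC hO)
  have h2 := hc_root (u := u) (a := a) (HexObs.ART.cap_out hd hC hO')
  refine lin (h1.trans h2.symm) fun v hv => ?_
  rw [h1] at hv
  refine HexObs.ART.lpw_cap hd (fr_u u a) hC hO hO' hz fun s => ?_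
  have e : sw1 u * (crd u v - crd u a) = 0 := by rw [hv, sub_self, mul_zero]
  rcases lev_cell u a v s with h | h <;> omega

open Classical in
/-- a function of the loop as a function of the word -/
noncomputable def fw (u : Fin 4) (f : Cfg → ℝ) (w : List Bool) : ℝ :=
  if w ∈ WT (1, -1) then f (lpw (0, sw4 u) w) else 0

theorem fw_of {u : Fin 4} {f : Cfg → ℝ} {w : List Bool} (h : w ∈ WT (1, -1)) : fw u f w = f (lpw (0, sw4 u) w) :=
  if_pos h

/-- **`Qf`** -/
theorem qf_inA (u : Fin 4) : InA (1, -1) (SP (1, -1)) (fw u fun γ => qf γ u) := by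
  intro z hz R O O' S hC hO hO'
  have hd : ((1, -1) : HexObs.Pt) ∈ HexObs.dirs := by decide
  rw [fw_of (HexObs.ART.cap_out hd hC hO), fw_of (HexObs.ART.cap_out hd hC hO')]
  exact (cap_line hC hO hO' hz).1

/-- **`Cf`** -/
theorem cf_inA (u : Fin 4) : InA (1, -1) (SP (1, -1)) (fw u fun γ => cf γ u) := by
  intro z hz R O O' S hC hO hO'
  have hd : ((1, -1) : HexObs.Pt) ∈ HexObs.dirs := by decide
  rw [fw_of (HexObs.ART.cap_out hd hC hO), fw_of (HexObs.ART.cap_out hd hC hO')]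
  exact (cap_line hC hO hO' hz).2.1

end Pool.Agent.ROT.A6
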