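import Pool.Agent.ROT.IMu
import Pool.Agent.TIW.Base
import Pool.Agent.ARM.Defs2

/-!
# ROT, block I: the static inputs from sentences about closed words (helper16)

* `Mass` from `WMassU`, `MassLo` from `WMassL` (words: helper56);
* `Far`, `Near` from `WArea` (words: helper81).
-/

set_option autoImplicit false

namespace Pool.Agent.ROT.I

open MeasureTheory Filter Topology
open Pool.Agent.ROT.E (Cfg Lp Cell)
open Pool.Agent.ROT.E.Hx
open HexObs (wE gf oo up vx emb nrm mulE rotTo)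
open HexObs.TIW (hn)
open HexObs.ARM (C0)
open scoped ENNReal

/-! ### the word level sentences -/

/-- masses of closed words of size `≥ R`, upper bound -/
def WMassU : Prop := ∃ C : ℝ, 0 < C ∧ ∀ R : ℝ, 0 < R → ∑' n : ℕ, ENNReal.ofReal (1 / n) *
  gf {t | t ∈ HexObs.POL.Cy n ∧ ∃ i j, i ≤ n ∧ j ≤ n ∧ R ≤ (hn (vx oo up t i - vx oo up t j) : ℝ)} ≤
    ENNReal.ofReal (C / R ^ 2)

/-- masses of closed words of size between `κ R` and `R`, lower bound -/
def WMassL : Prop := ∃ c κ R0 : ℝ, 0 < c ∧ 0 < κ ∧ ∀ R : ℝ, R0 ≤ R →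
  ENNReal.ofReal (c / R ^ 2) ≤ ∑' n : ℕ, ENNReal.ofReal (1 / n) *
    gf {t | t ∈ HexObs.POL.Cy n ∧ (∃ i j, i ≤ n ∧ j ≤ n ∧ κ * R ≤ (hn (vx oo up t i - vx oo up t j) : ℝ)) ∧
      ∀ i j, i ≤ n → j ≤ n → (hn (vx oo up t i - vx oo up t j) : ℝ) ≤ R}

/-- the number of the points near a closed word -/
def WArea : Prop := ∃ C : ℝ, 0 < C ∧ ∃ K0 : ℝ, ∀ R D : ℝ, K0 ≤ R → 4 * R ≤ D →
  ∑' n : ℕ, ENNReal.ofReal (1 / (n + 1)) * ∑' t : {t : List Bool | t ∈ C0 n ∧ ∃ k, k ≤ n ∧ D ≤ (hn (vx oo up t k) : ℝ)},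
    wE t * ({p : HexObs.Pt | ∃ i, i ≤ n ∧ (hn (vx oo up t i - p) : ℝ) ≤ R}.ncard : ℝ≥0∞) ≤
      ENNReal.ofReal (C * (R / D) ^ (1 / 2 : ℝ))

/-! ### norms -/

theorem norm_emb_sq (p : HexObs.Pt) : ‖emb p‖ ^ 2 = nrm p := by
  have h := HexObs.re_emb_mul p p
  rw [Complex.mul_conj, Complex.ofReal_re, HexObs.ip_self, Complex.normSq_eq_norm_sq] at h
  rw [h]
  push_cast
  ring

theorem norm_le_hn (p : HexObs.Pt) : ‖emb p‖ ≤ hn p := by
  have h1 := norm_emb_sq p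
  have h2 : (nrm p : ℝ) ≤ (hn p : ℝ) ^ 2 := by exact_mod_cast HexObs.TIW.nrm_le_hn p
  have h3 : (0 : ℝ) ≤ hn p := by exact_mod_cast HexObs.TIW.hn_nonneg p
  exact (pow_le_pow_iff_left₀ (norm_nonneg _) h3 two_ne_zero).1 (h1.trans_le h2)

theorem ip_le_norm (p : HexObs.Pt) {d : HexObs.Pt} (hd : d ∈ HexObs.dirs) : |(HexObs.ip p d : ℝ)| ≤ 2 * ‖emb p‖ := by
  have h := HexObs.re_emb_mul p d
  have h1 : |(emb p * (starRingEnd ℂ) (emb d)).re| ≤ ‖emb p‖ * ‖emb d‖ := by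
    refine (Complex.abs_re_le_norm _).trans_eq ?_
    rw [norm_mul, RCLike.norm_conj]
  have h2 : ‖emb d‖ = 1 := by
    have h3 := norm_emb_sq d
    rw [HexObs.mem_dirs.1 hd] at h3
    push_cast at h3
    nlinarith [norm_nonneg (emb d)]
  rw [h, h2, mul_one, abs_div, abs_two] at h1
  linarith

theorem hn_le_norm (p : HexObs.Pt) : (hn p : ℝ) ≤ 2 * ‖emb p‖ := by
  unfold hn
  have h1 := ip_le_norm p (d := up) (by decide)
  have h2 := ip_le_norm p (d := HexObs.rotL up) (by decide)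
  have h3 := ip_le_norm p (d := HexObs.rotR up) (by decide)
  push_cast
  exact max_le h1 (max_le h2 h3)

theorem vx_root (v0 d0 : HexObs.Pt) (t : List Bool) (i : ℕ) :
    vx v0 d0 t i = v0 + mulE (rotTo up d0) (vx oo up t i) := by
  have h := HexObs.vs_mulE (rotTo up d0) oo v0 up (HexObs.tf t) i
  rw [HexObs.rotTo_apply _ (by decide : up ∈ HexObs.dirs)] at h
  unfold vx
  rw [h]
  have : (oo : HexObs.Pt) = 0 := rfl
  rw [this, sub_zero]

theorem nrm_rt (s : Sx) : nrm (rotTo up (dr s)) = 1 := HexObs.nrm_rotTo (by decide) (dr_mem s)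

/-! ### the traces of the loops of the words -/

theorem sc_ps (N : ℕ) (q : Pt) : sc N q = ((N : ℝ)⁻¹) • ps q := by
  unfold sc ps e1 e2
  rw [smul_add, smul_smul, smul_smul]
  congr 2 <;> ring

theorem dist_sc (N : ℕ) (q q' : Pt) : dist (sc N q) (sc N q') = dist (ps q) (ps q') / N := by
  rw [sc_ps, sc_ps, dist_smul₀, norm_inv, Real.norm_natCast, div_eq_inv_mul]

theorem st_bt' (a : Pt) (s : Sx) (t : List Bool) (i : ℕ) :
    st (bt (a, s) t i) = st (a, s) + mulE (rotTo up (dr s)) (vx oo up t i) := by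
  rw [st_bt, vx_root]

/-- distances of the loop and of the word -/
theorem dist_bt (a : Pt) (s : Sx) (t : List Bool) (i j : ℕ) :
    |dist (ps (bt (a, s) t i).1) (ps (bt (a, s) t j).1) - ‖emb (vx oo up t i - vx oo up t j)‖| ≤ 2 := by
  have h1 := dist_st (bt (a, s) t i)
  have h2 := dist_st (bt (a, s) t j)
  have h3 : dist (emb (st (bt (a, s) t i))) (emb (st (bt (a, s) t j))) = ‖emb (vx oo up t i - vx oo up t j)‖ := by
    rw [dist_eq_norm, ← HexObs.emb_sub, st_bt', st_bt', add_sub_add_left_eq_sub, ← HexObs.mulE_sub]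
    have h4 := norm_emb_sq (mulE (rotTo up (dr s)) (vx oo up t i - vx oo up t j))
    rw [HexObs.nrm_mulE, nrm_rt, one_mul, ← norm_emb_sq] at h4
    exact (pow_left_inj₀ (norm_nonneg _) (norm_nonneg _) two_ne_zero).1 h4
  rw [← h3, abs_le]
  have h5 := dist_triangle4 (ps (bt (a, s) t i).1) (emb (st (bt (a, s) t i))) (emb (st (bt (a, s) t j))) (ps (bt (a, s) t j).1)
  have h6 := dist_triangle4 (emb (st (bt (a, s) t i))) (ps (bt (a, s) t i).1) (ps (bt (a, s) t j).1) (emb (st (bt (a, s) t j)))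
  rw [dist_comm (ps (bt (a, s) t i).1) (emb (st (bt (a, s) t i)))] at h5
  rw [dist_comm (ps (bt (a, s) t j).1) (emb (st (bt (a, s) t j)))] at h6
  constructor <;> linarith

/-- the diameter of a configuration is at least `r` -/
def BigC (N : ℕ) (r : ℝ) (γ : Cfg) : Prop := ∃ z ∈ trc N γ, ∃ w ∈ trc N γ, r ≤ dist z w

/-- the configuration meets the disc -/
def HitC (N : ℕ) (R : ℝ) (γ : Cfg) : Prop := ∃ z ∈ trc N γ, ‖z‖ ≤ R

theorem sc_add (N : ℕ) (q a : Pt) : sc N (q + a) = sc N q + sc N a := by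
  unfold sc
  simp only [Prod.fst_add, Prod.snd_add]
  push_cast
  module

theorem trc_tr (N : ℕ) (a : Pt) (γ : Cfg) : trc N (E.Hx.trc a γ) = (fun z => z + sc N a) '' trc N γ := by
  unfold trc
  rw [Set.image_image]
  ext z
  constructor
  · rintro ⟨v, hv, rfl⟩
    refine ⟨v - a, ?_, ?_⟩
    · rw [Set.mem_ofPred_eq] at hv ⊢
      rwa [trc_ne] at hv
    · simp only
      rw [← sc_add, sub_add_cancel]
  · rintro ⟨v, hv, rfl⟩
    refine ⟨v + a, ?_, ?_⟩
    · rw [Set.mem_ofPred_eq] at hv ⊢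
      rwa [E.Hx.trc_apply]
    · simp only
      rw [← sc_add]

theorem bigC_tr (N : ℕ) (r : ℝ) (a : Pt) (γ : Cfg) : BigC N r (E.Hx.trc a γ) ↔ BigC N r γ := by
  unfold BigC
  rw [trc_tr]
  constructor
  · rintro ⟨_, ⟨z, hz, rfl⟩, _, ⟨w, hw, rfl⟩, h⟩
    simp only [dist_add_right] at h
    exact ⟨z, hz, w, hw, h⟩
  · rintro ⟨z, hz, w, hw, h⟩
    refine ⟨_, ⟨z, hz, rfl⟩, _, ⟨w, hw, rfl⟩, ?_⟩
    simp only [dist_add_right]
    exact h

theorem mem_trc {N : ℕ} {e : Bo} {t : List Bool} (h : t ∈ Wo) {z : ℂ} :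
    z ∈ trc N (lpw e t) ↔ ∃ i, i < t.length ∧ sc N (bt e t i).1 = z := by
  unfold trc
  constructor
  · rintro ⟨v, hv, rfl⟩
    obtain ⟨i, hi, rfl⟩ := (supp_lpw' h v).1 hv
    exact ⟨i, hi, rfl⟩
  · rintro ⟨i, hi, rfl⟩
    exact ⟨_, (supp_lpw' h _).2 ⟨i, hi, rfl⟩, rfl⟩

theorem big_le {N : ℕ} (hN : 0 < N) {r : ℝ} {a : Pt} {s : Sx} {t : List Bool} (h : t ∈ Wo)
    (hB : BigC N r (lpw (a, s) t)) :
    ∃ i j, i < t.length ∧ j < t.length ∧ r * N - 2 ≤ (hn (vx oo up t i - vx oo up t j) : ℝ) := by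
  obtain ⟨z, hz, w, hw, hr⟩ := hB
  obtain ⟨i, hi, rfl⟩ := (mem_trc h).1 hz
  obtain ⟨j, hj, rfl⟩ := (mem_trc h).1 hw
  refine ⟨i, j, hi, hj, ?_⟩
  have hN' : (0 : ℝ) < N := by exact_mod_cast hN
  rw [dist_sc, le_div_iff₀ hN'] at hr
  have h1 := (abs_le.1 (dist_bt a s t i j)).2
  have h2 := norm_le_hn (vx oo up t i - vx oo up t j)
  linarith

theorem big_ge {N : ℕ} (hN : 0 < N) {r : ℝ} (a : Pt) (s : Sx) {t : List Bool} (h : t ∈ Wo) {i j : ℕ}
    (hi : i ≤ t.length) (hj : j ≤ t.length) (hd : 2 * (r * N + 2) ≤ (hn (vx oo up t i - vx oo up t j) : ℝ)) :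
    BigC N r (lpw (a, s) t) := by
  have h0 : 0 < t.length := List.length_pos_iff.2 h.1
  have key : ∀ k, k ≤ t.length → ∃ k', k' < t.length ∧ vx oo up t k' = vx oo up t k := by
    intro k hk
    rcases hk.lt_or_eq with h1 | h1
    · exact ⟨k, h1, rfl⟩
    · refine ⟨0, h0, ?_⟩
      rw [h1, h.2.2.1]
      rfl
  obtain ⟨i', hi', ei⟩ := key i hi
  obtain ⟨j', hj', ej⟩ := key j hj
  rw [← ei, ← ej] at hd
  refine ⟨_, (mem_trc h).2 ⟨i', hi', rfl⟩, _, (mem_trc h).2 ⟨j', hj', rfl⟩, ?_⟩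
  have hN' : (0 : ℝ) < N := by exact_mod_cast hN
  rw [dist_sc, le_div_iff₀ hN']
  have h1 := (abs_le.1 (dist_bt a s t i' j')).1
  have h2 := hn_le_norm (vx oo up t i' - vx oo up t j')
  linarith

/-! ### (K1) -/

/-- **`Mass` from the words** -/
theorem mass_of (H : WMassU) : Mass := by
  obtain ⟨C, hC, H⟩ := H
  refine ⟨12 * C, fun r hr => ?_⟩
  have h1 : ∀ᶠ N : ℕ in atTop, 4 / r ≤ (N : ℝ) := tendsto_natCast_atTop_atTop.eventually_ge_atTop _
  filter_upwards [h1, eventually_gt_atTop 0] with N hN hN0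
  have hN' : (0 : ℝ) < N := by exact_mod_cast hN0
  rw [div_le_iff₀ hr] at hN
  have h2 : mu (Z0 ∩ Big N r) ≤ 3 * ∑' n : ℕ, ENNReal.ofReal (1 / n) * gf {t | t ∈ HexObs.POL.Cy n ∧
      ∃ i j, i ≤ t.length ∧ j ≤ t.length ∧ r * N / 2 ≤ (hn (vx oo up t i - vx oo up t j) : ℝ)} :=
    mu_Z0_le (BigC N r) (fun a γ _ => bigC_tr N r a γ) _ fun s t ht hB => by
      obtain ⟨i, j, hi, hj, hd⟩ := big_le hN0 ht hB
      exact ⟨i, j, hi.le, hj.le, by linarith⟩
  have h3 : ∀ n : ℕ, {t | t ∈ HexObs.POL.Cy n ∧ ∃ i j, i ≤ t.length ∧ j ≤ t.length ∧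
      r * N / 2 ≤ (hn (vx oo up t i - vx oo up t j) : ℝ)} = {t | t ∈ HexObs.POL.Cy n ∧ ∃ i j, i ≤ n ∧ j ≤ n ∧
      r * N / 2 ≤ (hn (vx oo up t i - vx oo up t j) : ℝ)} := by
    intro n
    ext t
    simp only [Set.mem_ofPred_eq]
    refine and_congr_right fun ht => ?_
    rw [ht.1]
  simp_rw [h3] at h2
  refine h2.trans ((mul_le_mul_right (H _ (by positivity)) 3).trans_eq ?_)
  rw [show (3 : ℝ≥0∞) = ENNReal.ofReal 3 by norm_num, ← ENNReal.ofReal_mul (by norm_num)]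
  congr 1
  field_simp
  ring

/-- **`MassLo` from the words** -/
theorem massLo_of (H : WMassL) : MassLo := by
  obtain ⟨c, κ, R0, hc, hκ, H⟩ := H
  refine ⟨3 * (c / (6 / κ) ^ 2), by positivity, ?_⟩
  have h1 : ∀ᶠ N : ℕ in atTop, R0 * κ ≤ (N : ℝ) := tendsto_natCast_atTop_atTop.eventually_ge_atTop _
  filter_upwards [h1, eventually_gt_atTop 0] with N hN hN0
  have hN' : (1 : ℝ) ≤ N := by exact_mod_cast hN0
  have hR : R0 ≤ 6 / κ * N := by
    rw [div_mul_eq_mul_div, le_div_iff₀ hκ]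
    nlinarith
  have h2 : 3 * ∑' n : ℕ, ENNReal.ofReal (1 / n) * gf {t | t ∈ HexObs.POL.Cy n ∧
      ∃ i j, i ≤ t.length ∧ j ≤ t.length ∧ 2 * (1 * (N : ℝ) + 2) ≤ (hn (vx oo up t i - vx oo up t j) : ℝ)} ≤ mu (Z0 ∩ Big N 1) :=
    mu_Z0_ge (BigC N 1) (fun a γ _ => bigC_tr N 1 a γ) _ fun s t ht => by
      rintro ⟨i, j, hi, hj, hd⟩
      exact big_ge hN0 0 s ht hi hj hd
  refine le_trans ?_ h2
  have h3 : ENNReal.ofReal (3 * (c / (6 / κ) ^ 2) / (N : ℝ) ^ 2) = 3 * ENNReal.ofReal (c / (6 / κ * N) ^ 2) := by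
    rw [show (3 : ℝ≥0∞) = ENNReal.ofReal 3 by norm_num, ← ENNReal.ofReal_mul (by norm_num)]
    congr 1
    field_simp
  rw [h3]
  refine mul_le_mul_right ((H _ hR).trans ?_) 3
  refine ENNReal.tsum_le_tsum fun n => mul_le_mul_right (HexObs.gf_mono ?_) _
  rintro t ⟨ht, ⟨i, j, hi, hj, hd⟩, -⟩
  refine ⟨ht, i, j, by rw [ht.1]; exact hi, by rw [ht.1]; exact hj, le_trans ?_ hd⟩
  have : κ * (6 / κ * N) = 6 * (N : ℝ) := by field_simp
  rw [this]
  linarith

/-! ### (FAR), (NEAR) -/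

private lemma wE_le_one (t : List Bool) : wE t ≤ 1 := by
  have h : HexObs.xc ≤ 1 := by
    have h1 : HexObs.xc ^ 2 = 1 / (2 + Real.sqrt 2) := HexObs.xc_sq
    have h2 : 0 ≤ Real.sqrt 2 := Real.sqrt_nonneg 2
    have h3 : HexObs.xc ^ 2 ≤ 1 := by
      rw [h1, div_le_one (by linarith)]
      linarith
    nlinarith [HexObs.xc_pos]
  unfold wE
  rw [← ENNReal.ofReal_one]
  exact ENNReal.ofReal_le_ofReal (pow_le_one₀ HexObs.xc_pos.le h)

/-- closed words and closed words without the last letter -/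
theorem sum_last (f : List Bool → ℝ≥0∞) :
    ∑' t : Wo, wE t * ((2 * ((t : List Bool).length : ℝ≥0∞))⁻¹ * f (t : List Bool).dropLast) ≤
      ∑' n : ℕ, ENNReal.ofReal (1 / (n + 1)) * ∑' L : {L : List Bool | L ∈ C0 n}, wE L * f L := by
  classical
  have h2 : ∑' t : Wo, wE t * ((2 * ((t : List Bool).length : ℝ≥0∞))⁻¹ * f (t : List Bool).dropLast) =
      ∑' t : List Bool, Wo.indicator (fun t => wE t * ((2 * (t.length : ℝ≥0∞))⁻¹ * f t.dropLast)) t :=
    tsum_subtype Wo fun t => wE t * ((2 * (t.length : ℝ≥0∞))⁻¹ * f t.dropLast)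
  rw [h2]
  have hinj : Function.Injective fun p : List Bool × Bool => p.1 ++ [p.2] := by
    rintro ⟨L, b⟩ ⟨L', b'⟩ h
    have h3 := List.append_inj' h rfl
    simp only [List.cons.injEq, and_true] at h3
    exact Prod.ext h3.1 h3.2
  have hsupp : Function.support (Wo.indicator (fun t => wE t * ((2 * (t.length : ℝ≥0∞))⁻¹ * f t.dropLast))) ⊆
      Set.range fun p : List Bool × Bool => p.1 ++ [p.2] := by
    intro t ht
    have h3 : t ∈ Wo := by
      by_contra h3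
      exact ht (Set.indicator_of_notMem h3 _)
    exact ⟨(t.dropLast, t.getLast h3.1), List.dropLast_append_getLast h3.1⟩
  rw [← hinj.tsum_eq hsupp, ENNReal.tsum_prod' (f := fun p : List Bool × Bool =>
    Wo.indicator (fun t => wE t * ((2 * (t.length : ℝ≥0∞))⁻¹ * f t.dropLast)) (p.1 ++ [p.2]))]
  have h4 : ∀ n : ℕ, ∑' L : {L : List Bool | L ∈ C0 n}, wE L * f L =
      ∑' L : List Bool, {L | L ∈ C0 n}.indicator (fun L => wE L * f L) L := fun n =>
    tsum_subtype {L | L ∈ C0 n} fun L => wE L * f L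
  simp_rw [h4, ← ENNReal.tsum_mul_left]
  conv_rhs => rw [ENNReal.tsum_comm]
  refine ENNReal.tsum_le_tsum fun L => ?_
  refine le_trans ?_ (ENNReal.le_tsum L.length)
  rw [tsum_bool]
  by_cases hL : L ∈ C0 L.length
  · rw [Set.indicator_of_mem (show L ∈ {L' | L' ∈ C0 L.length} from hL)]
    have h5 : ∀ b : Bool, Wo.indicator (fun t => wE t * ((2 * (t.length : ℝ≥0∞))⁻¹ * f t.dropLast)) (L ++ [b]) ≤
        2⁻¹ * (ENNReal.ofReal (1 / (L.length + 1)) * (wE L * f L)) := by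
      intro b
      refine (Set.indicator_le_self _ _ _).trans ?_
      simp only
      rw [List.dropLast_concat, List.length_append, List.length_singleton, HexObs.wE_append]
      have h6 : ((2 * ((L.length + 1 : ℕ) : ℝ≥0∞))⁻¹ : ℝ≥0∞) = 2⁻¹ * ENNReal.ofReal (1 / (L.length + 1)) := by
        rw [ENNReal.mul_inv (by simp) (by simp), one_div, ENNReal.ofReal_inv_of_pos (by positivity)]
        congr 2
        rw [show ((L.length : ℝ) + 1) = ((L.length + 1 : ℕ) : ℝ) by push_cast; ring, ENNReal.ofReal_natCast]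
      rw [h6]
      calc wE L * wE [b] * (2⁻¹ * ENNReal.ofReal (1 / (L.length + 1)) * f L)
          ≤ wE L * 1 * (2⁻¹ * ENNReal.ofReal (1 / (L.length + 1)) * f L) :=
            mul_le_mul_left (mul_le_mul_right (wE_le_one _) _) _
        _ = 2⁻¹ * (ENNReal.ofReal (1 / (L.length + 1)) * (wE L * f L)) := by ring
    refine (add_le_add (h5 false) (h5 true)).trans_eq ?_
    rw [← add_mul, ENNReal.inv_two_add_inv_two, one_mul]
  · have h5 : ∀ b : Bool, L ++ [b] ∉ Wo := by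
      intro b hb
      apply hL
      refine ⟨b, ?_⟩
      have := hb.2
      rw [List.length_append, List.length_singleton] at this
      exact this
    rw [Set.indicator_of_notMem (h5 false), Set.indicator_of_notMem (h5 true), add_zero]
    exact zero_le

/-- the number of the points at hexagonal distance `≤ R` of the word is finite -/
theorem near_fin (L : List Bool) (n : ℕ) (R : ℝ) : {p : HexObs.Pt | ∃ i, i ≤ n ∧ (hn (vx oo up L i - p) : ℝ) ≤ R}.Finite := by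
  have h1 : {p : HexObs.Pt | ∃ i, i ≤ n ∧ (hn (vx oo up L i - p) : ℝ) ≤ R} ⊆
      ⋃ i ∈ Finset.range (n + 1), {p : HexObs.Pt | (hn (vx oo up L i - p) : ℝ) ≤ R} := by
    rintro p ⟨i, hi, h⟩
    rw [Set.mem_iUnion₂]
    exact ⟨i, Finset.mem_range.2 (by omega), h⟩
  refine Set.Finite.subset (Set.Finite.biUnion (Finset.finite_toSet _) fun i _ => ?_) h1
  have h2 : {p : HexObs.Pt | (hn (vx oo up L i - p) : ℝ) ≤ R} ⊆
      (fun q => vx oo up L i - q) '' {q : HexObs.Pt | |q.1| ≤ ⌈2 * |R|⌉ + 1 ∧ |q.2| ≤ ⌈2 * |R|⌉ + 1} := by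
    intro p hp
    rw [Set.mem_ofPred_eq] at hp
    refine ⟨vx oo up L i - p, ?_, sub_sub_cancel _ _⟩
    generalize vx oo up L i - p = q at hp ⊢
    have h3 : (nrm q : ℝ) ≤ (hn q : ℝ) ^ 2 := by exact_mod_cast HexObs.TIW.nrm_le_hn q
    have h4 : (0 : ℝ) ≤ hn q := by exact_mod_cast HexObs.TIW.hn_nonneg q
    have h5 : (hn q : ℝ) ≤ |R| := hp.trans (le_abs_self R)
    have h6 : (nrm q : ℝ) ≤ |R| ^ 2 := h3.trans (pow_le_pow_left₀ h4 h5 2)
    unfold nrm at h6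
    push_cast at h6
    have hR := abs_nonneg R
    have key : ∀ x y : ℝ, x ^ 2 + x * y + y ^ 2 ≤ |R| ^ 2 → |x| ≤ 2 * |R| := by
      intro x y hxy
      apply abs_le_of_sq_le_sq _ (by positivity)
      nlinarith [sq_nonneg (x + 2 * y)]
    have h7 : |(q.1 : ℝ)| ≤ 2 * |R| := key q.1 q.2 h6
    have h8 : |(q.2 : ℝ)| ≤ 2 * |R| := key q.2 q.1 (by linarith)
    constructor
    · have : ((|q.1| : ℤ) : ℝ) ≤ ⌈2 * |R|⌉ := by
        rw [Int.cast_abs]
        exact h7.trans (Int.le_ceil _)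
      have h9 : |q.1| ≤ ⌈2 * |R|⌉ := by exact_mod_cast this
      omega
    · have : ((|q.2| : ℤ) : ℝ) ≤ ⌈2 * |R|⌉ := by
        rw [Int.cast_abs]
        exact h8.trans (Int.le_ceil _)
      have h9 : |q.2| ≤ ⌈2 * |R|⌉ := by exact_mod_cast this
      omega
  refine Set.Finite.subset (Set.Finite.image _ ?_) h2
  have h3 : {q : HexObs.Pt | |q.1| ≤ ⌈2 * |R|⌉ + 1 ∧ |q.2| ≤ ⌈2 * |R|⌉ + 1} ⊆
      Set.Icc (-(⌈2 * |R|⌉ + 1)) (⌈2 * |R|⌉ + 1) ×ˢ Set.Icc (-(⌈2 * |R|⌉ + 1)) (⌈2 * |R|⌉ + 1) := by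
    rintro ⟨x, y⟩ ⟨h1, h2⟩
    exact ⟨abs_le.1 h1, abs_le.1 h2⟩
  exact Set.Finite.subset ((Set.finite_Icc _ _).prod (Set.finite_Icc _ _)) h3

open Classical in
/-- the number of the translates which meet the disc -/
theorem hits_card {N : ℕ} (hN : 0 < N) {η R : ℝ} (hR : 2 * (η * N + 1) ≤ R) (s : Sx) {t : List Bool} (ht : t ∈ Wo) :
    ∑' a : Pt, (if HitC N η (lpw (a, s) t) then (1 : ℝ≥0∞) else 0) ≤
      ({p : HexObs.Pt | ∃ i, i ≤ t.dropLast.length ∧ (hn (vx oo up t.dropLast i - p) : ℝ) ≤ R}.ncard : ℝ≥0∞) := by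
  obtain ⟨A, hA⟩ : ∃ A, A = {p : HexObs.Pt | ∃ i, i ≤ t.dropLast.length ∧ (hn (vx oo up t.dropLast i - p) : ℝ) ≤ R} := ⟨_, rfl⟩
  have hfin : A.Finite := hA ▸ near_fin _ _ _
  rw [← hA]
  -- the point of a translate
  obtain ⟨g, hg⟩ : ∃ g : Pt → HexObs.Pt, g = fun a => -mulE (HexObs.conjE (rotTo up (dr s))) (st (a, s)) := ⟨_, rfl⟩
  have hu := nrm_rt s
  have huc : nrm (HexObs.conjE (rotTo up (dr s))) = 1 := by
    rw [HexObs.nrm_conjE, hu]
  have hmul : ∀ p, mulE (rotTo up (dr s)) (mulE (HexObs.conjE (rotTo up (dr s))) p) = p := by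
    intro p
    rw [HexObs.mulE_assoc, HexObs.mulE_conjE, hu, HexObs.mulE_one]
  have hginj : Function.Injective g := by
    intro a b h
    rw [hg] at h
    have h1 := HexObs.mulE_inj huc (neg_injective h)
    exact (st_eq.1 h1).1
  have hmem : ∀ a, HitC N η (lpw (a, s) t) → g a ∈ A := by
    rintro a ⟨z, hz, hzn⟩
    obtain ⟨i, hi, rfl⟩ := (mem_trc ht).1 hz
    have hN' : (0 : ℝ) < N := by exact_mod_cast hN
    have h1 : ‖ps (bt (a, s) t i).1‖ ≤ η * N := by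
      rw [sc_ps, norm_smul, norm_inv, Real.norm_natCast, inv_mul_le_iff₀ hN'] at hzn
      linarith
    have h2 : ‖emb (st (bt (a, s) t i))‖ ≤ η * N + 1 := by
      have h3 := dist_st (bt (a, s) t i)
      rw [dist_eq_norm] at h3
      have h4 := norm_sub_norm_le (emb (st (bt (a, s) t i))) (ps (bt (a, s) t i).1)
      linarith
    have h3 : (hn (st (bt (a, s) t i)) : ℝ) ≤ R := (hn_le_norm _).trans (by linarith)
    have h4 : st (bt (a, s) t i) = mulE (rotTo up (dr s)) (vx oo up t i - g a) := by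
      rw [st_bt', hg, HexObs.mulE_sub, HexObs.mulE_neg, hmul]
      abel
    rw [h4, HexObs.TIW.hn_mulE hu] at h3
    have h5 : t = t.dropLast ++ [t.getLast ht.1] := (List.dropLast_append_getLast ht.1).symm
    have h6 : t.dropLast.length + 1 = t.length := by
      conv_rhs => rw [h5]
      simp
    have h7 : vx oo up t i = vx oo up t.dropLast i := by
      conv_lhs => rw [h5]
      exact HexObs.vx_append (by omega)
    rw [hA]
    exact ⟨i, by omega, by rw [← h7]; exact h3⟩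
  have h8 : ∑' a : Pt, (if HitC N η (lpw (a, s) t) then (1 : ℝ≥0∞) else 0) ≤ ∑' a : Pt, A.indicator 1 (g a) := by
    refine ENNReal.tsum_le_tsum fun a => ?_
    by_cases h : HitC N η (lpw (a, s) t)
    · rw [if_pos h, Set.indicator_of_mem (hmem a h)]
      exact le_rfl
    · rw [if_neg h]
      exact zero_le
  refine h8.trans ((ENNReal.tsum_comp_le_tsum_of_injective hginj (A.indicator 1)).trans_eq ?_)
  have h9 : ∑' p : A, (1 : ℝ≥0∞) = ∑' p : HexObs.Pt, A.indicator (fun _ => 1) p := tsum_subtype A fun _ => (1 : ℝ≥0∞)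
  have : Fintype A := hfin.fintype
  have h10 : (A.indicator 1 : HexObs.Pt → ℝ≥0∞) = A.indicator fun _ => 1 := rfl
  rw [h10, ← h9, tsum_fintype, Finset.sum_const, Finset.card_univ, nsmul_eq_mul, mul_one, Set.ncard_eq_toFinset_card',
    Set.toFinset_card]

open Classical in
/-- **the mass of the loops which come near the origin** -/
theorem hits_le {N : ℕ} (hN : 0 < N) {η r R D : ℝ} (hR : 2 * (η * N + 1) ≤ R) (hD : 2 * D ≤ r * N - 2) :
    mu (Hits N η ∩ Big N r) ≤ 6 * ∑' n : ℕ, ENNReal.ofReal (1 / (n + 1)) *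
      ∑' t : {t : List Bool | t ∈ C0 n ∧ ∃ k, k ≤ n ∧ D ≤ (hn (vx oo up t k) : ℝ)},
        wE t * ({p : HexObs.Pt | ∃ i, i ≤ n ∧ (hn (vx oo up t i - p) : ℝ) ≤ R}.ncard : ℝ≥0∞) := by
  obtain ⟨f, hf⟩ : ∃ f : List Bool → ℝ≥0∞, f = fun L => if ∃ k, k ≤ L.length ∧ D ≤ (hn (vx oo up L k) : ℝ) then
    ({p : HexObs.Pt | ∃ i, i ≤ L.length ∧ (hn (vx oo up L i - p) : ℝ) ≤ R}.ncard : ℝ≥0∞) else 0 := ⟨_, rfl⟩
  have e0 : mu (Hits N η ∩ Big N r) = mu {γ : Lps | HitC N η γ.1 ∧ BigC N r γ.1} := rfl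
  have e1 : mu {γ : Lps | HitC N η γ.1 ∧ BigC N r γ.1} = ∑' a : Pt, ∑ s : Sx, ∑' t : Wo, (wE t *
      if HitC N η (lpw (a, s) t) ∧ BigC N r (lpw (a, s) t) then (2 * ((t : List Bool).length : ℝ≥0∞))⁻¹ else 0) := by
    rw [mu_sum fun γ => HitC N η γ ∧ BigC N r γ]
    refine tsum_congr fun a => Finset.sum_congr rfl fun s _ => tsum_congr fun t => ?_
    congr
  rw [e0, e1]
  have h1 : ∀ s : Sx, ∑' a : Pt, ∑' t : Wo, (wE t * if HitC N η (lpw (a, s) t) ∧ BigC N r (lpw (a, s) t) then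
      (2 * ((t : List Bool).length : ℝ≥0∞))⁻¹ else 0) ≤
      ∑' n : ℕ, ENNReal.ofReal (1 / (n + 1)) * ∑' L : {L : List Bool | L ∈ C0 n}, wE L * f L := by
    intro s
    refine le_trans ?_ (sum_last f)
    rw [ENNReal.tsum_comm]
    refine ENNReal.tsum_le_tsum fun t => ?_
    rw [ENNReal.tsum_mul_left]
    refine mul_le_mul_right ?_ _
    have ht := t.2
    obtain ⟨t, ht'⟩ := t
    simp only at ht ⊢
    by_cases hk : ∃ k, k ≤ t.dropLast.length ∧ D ≤ (hn (vx oo up t.dropLast k) : ℝ)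
    · rw [hf]
      simp only
      rw [if_pos hk]
      have h2 : ∀ a : Pt, (if HitC N η (lpw (a, s) t) ∧ BigC N r (lpw (a, s) t) then (2 * ((t : List Bool).length : ℝ≥0∞))⁻¹ else 0) ≤
          (2 * ((t : List Bool).length : ℝ≥0∞))⁻¹ * if HitC N η (lpw (a, s) t) then (1 : ℝ≥0∞) else 0 := by
        intro a
        by_cases h : HitC N η (lpw (a, s) t) ∧ BigC N r (lpw (a, s) t)
        · rw [if_pos h, if_pos h.1, mul_one]
        · rw [if_neg h]
          exact zero_le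
      refine (ENNReal.tsum_le_tsum h2).trans ?_
      rw [ENNReal.tsum_mul_left]
      exact mul_le_mul_right (hits_card hN hR s ht) _
    · have h2 : ∀ a : Pt, (if HitC N η (lpw (a, s) t) ∧ BigC N r (lpw (a, s) t) then (2 * ((t : List Bool).length : ℝ≥0∞))⁻¹ else 0) = 0 := by
        intro a
        rw [if_neg]
        rintro ⟨-, hB⟩
        obtain ⟨i, j, hi, hj, hd⟩ := big_le hN ht hB
        have h5 : t = t.dropLast ++ [t.getLast ht.1] := (List.dropLast_append_getLast ht.1).symm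
        have h6 : t.dropLast.length + 1 = t.length := by
          conv_rhs => rw [h5]
          simp
        have h7 : ∀ i, i < t.length → vx oo up t i = vx oo up t.dropLast i := by
          intro i hi
          conv_lhs => rw [h5]
          exact HexObs.vx_append (by omega)
        have h8 := HexObs.TIW.hn_sub (vx oo up t i) (vx oo up t j)
        have h9 : (hn (vx oo up t i - vx oo up t j) : ℝ) ≤ hn (vx oo up t i) + hn (vx oo up t j) := by exact_mod_cast h8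
        apply hk
        rcases le_or_gt D (hn (vx oo up t i) : ℝ) with h10 | h10
        · exact ⟨i, by omega, by rw [← h7 i hi]; exact h10⟩
        · refine ⟨j, by omega, ?_⟩
          rw [← h7 j hj]
          linarith
      simp only [h2, tsum_zero]
      exact zero_le
  have h2 : ∀ a : Pt, ∑ s : Sx, ∑' t : Wo, (wE t * if HitC N η (lpw (a, s) t) ∧ BigC N r (lpw (a, s) t) then
      (2 * ((t : List Bool).length : ℝ≥0∞))⁻¹ else 0) = ∑' s : Sx, ∑' t : Wo, (wE t * if HitC N η (lpw (a, s) t) ∧ BigC N r (lpw (a, s) t) then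
      (2 * ((t : List Bool).length : ℝ≥0∞))⁻¹ else 0) := fun a => (tsum_fintype _).symm
  have h3 : ∑' a : Pt, ∑ s : Sx, ∑' t : Wo, (wE t * if HitC N η (lpw (a, s) t) ∧ BigC N r (lpw (a, s) t) then
      (2 * ((t : List Bool).length : ℝ≥0∞))⁻¹ else 0) ≤
      6 * ∑' n : ℕ, ENNReal.ofReal (1 / (n + 1)) * ∑' L : {L : List Bool | L ∈ C0 n}, wE L * f L := by
    rw [tsum_congr h2, ENNReal.tsum_comm, tsum_fintype]
    refine (Finset.sum_le_sum fun s _ => h1 s).trans_eq ?_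
    rw [Finset.sum_const, show (Finset.univ : Finset Sx).card = 6 from rfl, nsmul_eq_mul]
    norm_num
  refine h3.trans (mul_le_mul_right (ENNReal.tsum_le_tsum fun n => mul_le_mul_right ?_ _) _)
  have h4 := tsum_subtype {L : List Bool | L ∈ C0 n} fun L => wE L * f L
  have h5 := tsum_subtype {t : List Bool | t ∈ C0 n ∧ ∃ k, k ≤ n ∧ D ≤ (hn (vx oo up t k) : ℝ)} fun t =>
    wE t * ({p : HexObs.Pt | ∃ i, i ≤ n ∧ (hn (vx oo up t i - p) : ℝ) ≤ R}.ncard : ℝ≥0∞)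
  refine h4.trans_le (le_trans ?_ h5.ge)
  refine ENNReal.tsum_le_tsum fun L => ?_
  by_cases hL : L ∈ C0 n
  · rw [Set.indicator_of_mem (show L ∈ {L : List Bool | L ∈ C0 n} from hL)]
    have hlen : L.length = n := by
      obtain ⟨b, hb⟩ := hL
      have := hb.1
      rw [List.length_append, List.length_singleton] at this
      omega
    subst hlen
    by_cases hk : ∃ k, k ≤ L.length ∧ D ≤ (hn (vx oo up L k) : ℝ)
    · rw [Set.indicator_of_mem (show L ∈ {t : List Bool | t ∈ C0 L.length ∧ ∃ k, k ≤ L.length ∧ D ≤ (hn (vx oo up t k) : ℝ)} from ⟨hL, hk⟩), hf]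
      simp only
      rw [if_pos hk]
    · rw [hf]
      simp only
      rw [if_neg hk, mul_zero]
      exact zero_le
  · rw [Set.indicator_of_notMem (show L ∉ {L : List Bool | L ∈ C0 n} from hL)]
    exact zero_le

/-- the bound with `WArea` -/
theorem hits_area {C K0 : ℝ} (H : ∀ R D : ℝ, K0 ≤ R → 4 * R ≤ D →
    ∑' n : ℕ, ENNReal.ofReal (1 / (n + 1)) * ∑' t : {t : List Bool | t ∈ C0 n ∧ ∃ k, k ≤ n ∧ D ≤ (hn (vx oo up t k) : ℝ)},
      wE t * ({p : HexObs.Pt | ∃ i, i ≤ n ∧ (hn (vx oo up t i - p) : ℝ) ≤ R}.ncard : ℝ≥0∞) ≤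
        ENNReal.ofReal (C * (R / D) ^ (1 / 2 : ℝ))) {η r : ℝ} (hη : 0 < η) (hr : 64 * η ≤ r) :
    ∀ᶠ N : ℕ in atTop, mu (Hits N η ∩ Big N r) ≤ ENNReal.ofReal (6 * (C * (16 * η / r) ^ (1 / 2 : ℝ))) := by
  have hr0 : 0 < r := by linarith
  have h1 : ∀ᶠ N : ℕ in atTop, K0 / (4 * η) + 1 / η + 4 / r ≤ (N : ℝ) := tendsto_natCast_atTop_atTop.eventually_ge_atTop _
  have h2 : ∀ᶠ N : ℕ in atTop, K0 / (4 * η) ≤ (N : ℝ) := tendsto_natCast_atTop_atTop.eventually_ge_atTop _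
  have h3 : ∀ᶠ N : ℕ in atTop, 1 / η ≤ (N : ℝ) := tendsto_natCast_atTop_atTop.eventually_ge_atTop _
  have h4 : ∀ᶠ N : ℕ in atTop, 4 / r ≤ (N : ℝ) := tendsto_natCast_atTop_atTop.eventually_ge_atTop _
  filter_upwards [h2, h3, h4, eventually_gt_atTop 0] with N h2 h3 h4 hN
  have hN' : (0 : ℝ) < N := by exact_mod_cast hN
  rw [div_le_iff₀ (by positivity)] at h2
  rw [div_le_iff₀ hη] at h3
  rw [div_le_iff₀ hr0] at h4
  have h5 := hits_le hN (η := η) (r := r) (R := 4 * η * N) (D := r * N / 4) (by linarith) (by linarith)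
  refine h5.trans ?_
  have h6 := H (4 * η * N) (r * N / 4) (by linarith) (by nlinarith)
  refine (mul_le_mul_right h6 6).trans_eq ?_
  rw [show (6 : ℝ≥0∞) = ENNReal.ofReal 6 by norm_num, ← ENNReal.ofReal_mul (by norm_num)]
  have h7 : 4 * η * N / (r * N / 4) = 16 * η / r := by
    field_simp
    ring
  rw [h7]

theorem near_of (H : WArea) : Near := by
  obtain ⟨C, hC, K0, H⟩ := H
  intro r ε hr hε
  have h1 : Tendsto (fun η : ℝ => 6 * (C * (16 * η / r) ^ (1 / 2 : ℝ))) (𝓝[>] 0) (𝓝 (6 * (C * (16 * 0 / r) ^ (1 / 2 : ℝ)))) := by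
    apply tendsto_nhdsWithin_of_tendsto_nhds
    apply ContinuousAt.tendsto
    apply ContinuousAt.mul continuousAt_const
    apply ContinuousAt.mul continuousAt_const
    apply ContinuousAt.rpow_const _ (Or.inr (by norm_num))
    fun_prop
  rw [mul_zero, zero_div, Real.zero_rpow (by norm_num), mul_zero, mul_zero] at h1
  have h2 : ∀ᶠ η in 𝓝[>] (0 : ℝ), 6 * (C * (16 * η / r) ^ (1 / 2 : ℝ)) < ε := h1.eventually (gt_mem_nhds hε)
  have h3 : ∀ᶠ η in 𝓝[>] (0 : ℝ), η < r / 64 := by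
    apply Filter.Eventually.filter_mono nhdsWithin_le_nhds
    exact gt_mem_nhds (by positivity)
  obtain ⟨η, h2, h3, hη⟩ := (h2.and (h3.and self_mem_nhdsWithin)).exists
  refine ⟨η, hη, ?_⟩
  filter_upwards [hits_area H (show 0 < η from hη) (show 64 * η ≤ r by linarith)] with N hN
  exact hN.trans (ENNReal.ofReal_le_ofReal h2.le)

theorem far_of (H : WArea) : Far := by
  obtain ⟨C, hC, K0, H⟩ := H
  intro R ε hε
  have hR : 0 < |R| + 1 := by positivity
  have h1 : Tendsto (fun S : ℝ => 6 * (C * (16 * (|R| + 1) / S) ^ (1 / 2 : ℝ))) atTop (𝓝 (6 * (C * 0 ^ (1 / 2 : ℝ)))) := by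
    apply Tendsto.const_mul
    apply Tendsto.const_mul
    apply Tendsto.rpow_const _ (Or.inr (by norm_num))
    exact tendsto_const_nhds.div_atTop tendsto_id
  rw [Real.zero_rpow (by norm_num), mul_zero, mul_zero] at h1
  obtain ⟨S, h2, h3⟩ := ((h1.eventually (gt_mem_nhds hε)).and (eventually_ge_atTop (64 * (|R| + 1)))).exists
  refine ⟨S, ?_⟩
  filter_upwards [hits_area H hR h3] with N hN
  refine le_trans (measure_mono ?_) (hN.trans (ENNReal.ofReal_le_ofReal h2.le))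
  rintro γ ⟨⟨z, hz, hz'⟩, hB⟩
  exact ⟨⟨z, hz, by linarith [le_abs_self R]⟩, hB⟩

end Pool.Agent.ROT.I
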