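import Pool.Agent.ROT.A6S
import Pool.Agent.ROT.ISt
import Pool.Agent.ART.DCut

/-!
# ROT, row A6b: the dictionary at a side (helper60)

The side `u` (0 left, 1 right, 2 bottom, 3 top) has the outward direction `Dv u`; the root of a loop is its
lexicographic top for `Dv u`, `rotL (Dv u)`, with the bond in the direction `rotL (rotL (Dv u))`; the word from this
bond is a closed word rooted at its top in the direction `d1 = (1, -1)`, for all four sides.
-/

set_option autoImplicit false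

namespace Pool.Agent.ROT.A6

open Pool.Agent.ROT.E (Cfg Cell Pt)
open Pool.Agent.ROT.E.Hx
open HexObs (ip rotL dirs vx oo dx mulE rotTo)
open HexObs.ART (LexB WT)
open HexObs.ART.TR (TopD)
open scoped ENNReal

/-! ### directions -/

/-- outward directions of the sides -/
def Dv : Fin 4 → HexObs.Pt := ![(-1, 0), (1, 0), (1, -1), (-1, 1)]

/-- the first bonds -/
def sv : Fin 4 → Sx := ![.ss, .nn, .ii, .jj]

/-- the direction of the top in the frame of the words -/
def d1 : HexObs.Pt := (1, -1)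

theorem d1_mem : d1 ∈ dirs := by decide

theorem Dv_mem (u : Fin 4) : Dv u ∈ dirs := by fin_cases u <;> decide

theorem dr_sv (u : Fin 4) : dr (sv u) = rotL (rotL (Dv u)) := by fin_cases u <;> decide

/-- the rotation of the frame of the words to the side `u` -/
def Ru (u : Fin 4) (p : HexObs.Pt) : HexObs.Pt := mulE (rotTo HexObs.up (dr (sv u))) p

theorem Ru_d1 (u : Fin 4) : Ru u d1 = Dv u := by fin_cases u <;> decide

theorem Ru_l (u : Fin 4) : Ru u (rotL d1) = rotL (Dv u) := by fin_cases u <;> decide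

theorem ip_Ru (u : Fin 4) (p q : HexObs.Pt) : ip (Ru u p) (Ru u q) = ip p q := by
  unfold Ru
  rw [HexObs.ip_mulE, I.nrm_rt, one_mul]

theorem ip_RuD (u : Fin 4) (p : HexObs.Pt) : ip (Ru u p) (Dv u) = ip p d1 := by
  rw [← Ru_d1, ip_Ru]

theorem ip_RuL (u : Fin 4) (p : HexObs.Pt) : ip (Ru u p) (rotL (Dv u)) = ip p (rotL d1) := by
  rw [← Ru_l, ip_Ru]

theorem hn_Ru (u : Fin 4) (p : HexObs.Pt) : HexObs.TIW.hn (Ru u p) = HexObs.TIW.hn p :=
  HexObs.TIW.hn_mulE (I.nrm_rt _) p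

theorem lexB_Ru (u : Fin 4) (p : HexObs.Pt) : LexB (Dv u) (Ru u p) ↔ LexB d1 p := by
  unfold LexB
  rw [ip_RuD, ip_RuL]

theorem ip_sub (p q d : HexObs.Pt) : ip (p - q) d = ip p d - ip q d := by
  unfold ip
  simp only [Prod.fst_sub, Prod.snd_sub]
  ring

theorem ip_add (p q d : HexObs.Pt) : ip (p + q) d = ip p d + ip q d := by
  unfold ip
  simp only [Prod.fst_add, Prod.snd_add]
  ring

theorem st_btu (v : Pt) (u : Fin 4) (t : List Bool) (i : ℕ) :
    st (bt (v, sv u) t i) = st (v, sv u) + Ru u (vx oo HexObs.up t i) := I.st_bt' _ _ _ _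

/-- two coordinates determine the point -/
theorem ip_zero {u : Fin 4} {p : HexObs.Pt} (h1 : ip p (Dv u) = 0) (h2 : ip p (rotL (Dv u)) = 0) : p = 0 := by
  obtain ⟨a, b⟩ := p
  have key : a = 0 ∧ b = 0 := by
    fin_cases u <;> simp only [Dv, rotL, ip] at h1 h2 <;> simp at h1 h2 <;> omega
  exact Prod.ext key.1 key.2

theorem lexB_anti {u : Fin 4} {p q : HexObs.Pt} (h1 : LexB (Dv u) (p - q)) (h2 : LexB (Dv u) (q - p)) : p = q := by
  unfold LexB at h1 h2
  rw [ip_sub, ip_sub] at h1 h2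
  have e1 : ip (p - q) (Dv u) = 0 := by
    rw [ip_sub]
    omega
  have e2 : ip (p - q) (rotL (Dv u)) = 0 := by
    rw [ip_sub]
    omega
  exact sub_eq_zero.1 (ip_zero e1 e2)

/-! ### the root -/

/-- `v` is the square vertex of the top of the loop, for the side `u` -/
def IsR (u : Fin 4) (γ : Cfg) (v : Pt) : Prop :=
  ub γ (v, sv u) ∧ ∀ p ∈ hs γ, LexB (Dv u) (p - st (v, sv u))

theorem IsR.uniq {u : Fin 4} {γ : Cfg} {v v' : Pt} (h : IsR u γ v) (h' : IsR u γ v') : v = v' := by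
  have h1 := h.2 _ (mem_hs.2 ⟨_, h'.1, rfl⟩)
  have h2 := h'.2 _ (mem_hs.2 ⟨_, h.1, rfl⟩)
  have h3 := lexB_anti h1 h2
  exact (st_eq.1 h3).1.symm

/-- at a vertex which is not the top there is a bond upwards, or the vertex has the right colour and the first bond is
used, or the outward bond is used -/
theorem top_key : ∀ (u : Fin 4) (s : Sx) (c : Cell), c ≠ .y → us c s = true →
    (∃ s' : Sx, wi s' = wi s ∧ us c s' = true ∧ 0 < ip (dr s') (Dv u)) ∨ (wi s = wi (sv u) ∧ us c (sv u) = true) := by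
  decide

theorem exR (u : Fin 4) {γ : Cfg} (l : HL γ) : ∃ v, IsR u γ v := by
  obtain ⟨e0, he0⟩ := ex_ub l
  have hn : (hs γ).Nonempty := ⟨_, mem_hs.2 ⟨e0, he0, rfl⟩⟩
  obtain ⟨x, hx, hm⟩ := Finset.exists_max_image (hs γ) (fun p => toLex (ip p (Dv u), ip p (rotL (Dv u)))) hn
  obtain ⟨e, he, rfl⟩ := mem_hs.1 hx
  have hm' : ∀ p ∈ hs γ, LexB (Dv u) (p - st e) := by
    intro p hp
    have h := hm p hp
    rw [Prod.Lex.toLex_le_toLex] at h
    unfold LexB
    rw [ip_sub, ip_sub]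
    simp only at h
    omega
  rcases top_key u e.2 (γ e.1) (l.ny e.1) he with ⟨s', h1, h2, h3⟩ | ⟨h1, h2⟩
  · exfalso
    have h4 : ub γ (e.1, s') := h2
    have h5 : ub γ (rev (e.1, s')) := (ub_rev l.lp.mt).2 h4
    have h6 := hm' _ (mem_hs.2 ⟨_, h5, rfl⟩)
    have h7 : st (e.1, s') = st e := st_eq.2 ⟨rfl, h1⟩
    rw [st_rev, h7] at h6
    unfold LexB at h6
    rw [add_sub_cancel_left] at h6
    simp only at h6
    omega
  · refine ⟨e.1, h2, fun p hp => ?_⟩
    have h7 : st (e.1, sv u) = st e := st_eq.2 ⟨rfl, h1.symm⟩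
    rw [h7]
    exact hm' p hp

open Classical in
/-- **the root** -/
noncomputable def rtv (u : Fin 4) (γ : Cfg) : Pt := if h : ∃ v, IsR u γ v then h.choose else 0

theorem isR_rtv (u : Fin 4) {γ : Cfg} (l : HL γ) : IsR u γ (rtv u γ) := by
  have h := exR u l
  unfold rtv
  rw [dif_pos h]
  exact h.choose_spec

theorem rtv_eq {u : Fin 4} {γ : Cfg} {v : Pt} (h : IsR u γ v) : rtv u γ = v := by
  have h' : ∃ v, IsR u γ v := ⟨v, h⟩
  unfold rtv
  rw [dif_pos h']
  exact IsR.uniq h'.choose_spec h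

/-- the bond of the root -/
noncomputable def eb (u : Fin 4) (γ : Cfg) : Bo := (rtv u γ, sv u)

/-- **the word** -/
noncomputable def tw (u : Fin 4) (γ : Cfg) : List Bool := wd γ (eb u γ) (pd γ (eb u γ))

theorem ub_eb (u : Fin 4) {γ : Cfg} (l : HL γ) : ub γ (eb u γ) := (isR_rtv u l).1

theorem tw_wo (u : Fin 4) {γ : Cfg} (l : HL γ) : tw u γ ∈ Wo := (mem_wo _).2 (cw_wd l.lp.mt l.ny (ub_eb u l))

/-- the loop of the word is the loop -/
theorem lpw_tw (u : Fin 4) {γ : Cfg} (l : HL γ) : lpw (rtv u γ, sv u) (tw u γ) = γ := lpw_wd l.lp l.ny (ub_eb u l)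

theorem isR_lpw {u : Fin 4} {v : Pt} {w : List Bool} (hw : w ∈ Wo) : IsR u (lpw (v, sv u) w) v ↔ TopD d1 w := by
  have hc := (mem_wo (v, sv u)).1 hw
  have h0 : 0 < w.length := List.length_pos_iff.2 hw.1
  have hlast : vx oo HexObs.up w w.length = oo := hw.2.2.1
  constructor
  · rintro ⟨-, h⟩ s hs
    show LexB d1 (vx oo HexObs.up w s)
    rcases hs.lt_or_eq with h1 | rfl
    · have h2 := h (vx (st (v, sv u)) (dr (sv u)) w s) (by
        rw [hs_lpw hw]
        exact Finset.mem_image.2 ⟨s, Finset.mem_range.2 h1, rfl⟩)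
      rw [← lexB_Ru u]
      rwa [I.vx_root, add_sub_cancel_left] at h2
    · rw [hlast]
      exact Or.inr ⟨by decide, by decide⟩
  · intro h
    refine ⟨(ub_lpw hc _).2 (os_bt hc (i := 0) (Nat.zero_le _)), fun p hp => ?_⟩
    rw [hs_lpw hw, Finset.mem_image] at hp
    obtain ⟨s, hs, rfl⟩ := hp
    rw [Finset.mem_range] at hs
    have h2 : LexB d1 (vx oo HexObs.up w s) := h s hs.le
    rw [← lexB_Ru u] at h2
    show LexB (Dv u) (vx (st (v, sv u)) (dr (sv u)) w s - st (v, sv u))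
    rw [I.vx_root, add_sub_cancel_left]
    exact h2

theorem wo_of_wt {d : HexObs.Pt} {w : List Bool} (hw : w ∈ WT d) : w ∈ Wo := ⟨hw.2.2, hw.1⟩

theorem tw_mem (u : Fin 4) {γ : Cfg} (l : HL γ) : tw u γ ∈ WT d1 := by
  have h := tw_wo u l
  refine ⟨h.2, ?_, h.1⟩
  rw [← isR_lpw (u := u) (v := rtv u γ) h, lpw_tw u l]
  exact isR_rtv u l

theorem hl_lpw {e : Bo} {w : List Bool} (hw : w ∈ Wo) : HL (lpw e w) := ⟨lp_lpw ((mem_wo e).1 hw), ny_lpw _ _⟩

theorem rt_lpw {u : Fin 4} {v : Pt} {w : List Bool} (hw : w ∈ WT d1) : rtv u (lpw (v, sv u) w) = v :=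
  rtv_eq ((isR_lpw (wo_of_wt hw)).2 hw.2.1)

theorem tw_lpw {u : Fin 4} {v : Pt} {w : List Bool} (hw : w ∈ WT d1) : tw u (lpw (v, sv u) w) = w := by
  unfold tw eb
  rw [rt_lpw hw]
  exact wd_lpw ((mem_wo _).1 (wo_of_wt hw))

/-- **the loops with the root `0` are the words** -/
noncomputable def eqR (u : Fin 4) : {p : HLs // rtv u p.1 = 0} ≃ {w : List Bool // w ∈ WT d1} where
  toFun p := ⟨tw u p.1.1, tw_mem u p.1.2⟩
  invFun w := ⟨⟨lpw (0, sv u) w.1, hl_lpw (wo_of_wt w.2)⟩, rt_lpw w.2⟩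
  left_inv p := by
    apply Subtype.ext
    apply Subtype.ext
    have h := lpw_tw u p.1.2
    rw [p.2] at h
    exact h
  right_inv w := Subtype.ext (tw_lpw w.2)

theorem card_tw (u : Fin 4) {γ : Cfg} (l : HL γ) : (hs γ).card = (tw u γ).length := by
  have h := card_lpw (e := (rtv u γ, sv u)) (tw_wo u l)
  rwa [lpw_tw u l] at h

theorem wl_tw (u : Fin 4) {γ : Cfg} (l : HL γ) : wl γ = HexObs.wE (tw u γ) := by
  unfold wl HexObs.wE
  rw [card_tw u l]

/-! ### translations -/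

theorem rtv_trc (u : Fin 4) {γ : Cfg} (l : HL γ) (a : Pt) : rtv u (trc a γ) = rtv u γ + a := by
  have h : lpw (rtv u γ + a, sv u) (tw u γ) = trc a γ := by
    rw [show ((rtv u γ + a, sv u) : Bo) = trb a (rtv u γ, sv u) from rfl, lpw_trb (tw_wo u l), lpw_tw u l]
  rw [← h, rt_lpw (tw_mem u l)]

theorem tw_trc (u : Fin 4) {γ : Cfg} (l : HL γ) (a : Pt) : tw u (trc a γ) = tw u γ := by
  have h : lpw (rtv u γ + a, sv u) (tw u γ) = trc a γ := by
    rw [show ((rtv u γ + a, sv u) : Bo) = trb a (rtv u γ, sv u) from rfl, lpw_trb (tw_wo u l), lpw_tw u l]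
  rw [← h, tw_lpw (tw_mem u l)]

end Pool.Agent.ROT.A6
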