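import Pool.Agent.ROT.A6B
import Pool.Agent.ROT.A2Defs

/-!
# ROT, row A6 (helper22): the extent across the side and the depth of the bottom

* `bot_mod` : the bottom of a word rooted at its top is at depth `3 m + 1`;
* **`wd_root`** : the extent of the loop across the side `u` is `m`.
-/

set_option autoImplicit false

namespace HexObs

namespace ART

open Pool.Agent.ROT

/-- the directions of the even steps -/
def dE : Finset Pt := {(0, 1), (1, -1), (-1, 0)}

/-- the directions of the odd steps -/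
def dO : Finset Pt := {(0, -1), (-1, 1), (1, 0)}

lemma turn_EO : ∀ e ∈ dE, ∀ b, turn b e ∈ dO := by decide

lemma turn_OE : ∀ e ∈ dO, ∀ b, turn b e ∈ dE := by decide

lemma lev_E : ∀ e ∈ dE, ip e (1, -1) = -1 ∨ ip e (1, -1) = 2 := by decide

lemma lev_O : ∀ e ∈ dO, ip e (1, -1) = 1 ∨ ip e (1, -1) = -2 := by decide

/-- two steps: no reversal -/
lemma turn_OE2 : ∀ e ∈ dO, ∀ b, ip e (1, -1) = -2 → ip (turn b e) (1, -1) ≠ 2 := by decide

lemma dx_even (w : List Bool) (i : ℕ) : (i % 2 = 0 → dx up w i ∈ dE) ∧ (i % 2 = 1 → dx up w i ∈ dO) := by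
  induction i with
  | zero => exact ⟨fun _ => by show up ∈ dE; decide, fun h => absurd h (by norm_num)⟩
  | succ i ih =>
    have e : dx up w (i + 1) = turn (tf w i) (dx up w i) := ds_succ _
    refine ⟨fun h => ?_, fun h => ?_⟩
    · rw [e]
      exact turn_OE _ (ih.2 (by omega)) _
    · rw [e]
      exact turn_EO _ (ih.1 (by omega)) _

lemma vx_succ' (w : List Bool) (i : ℕ) : vx oo up w (i + 1) = vx oo up w i + dx up w i := vs_succ _

lemma lev_succ (w : List Bool) (i : ℕ) (d : Pt) :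
    ip (vx oo up w (i + 1)) d = ip (vx oo up w i) d + ip (dx up w i) d := by
  rw [vx_succ', ip_add_left]

/-- the levels mod 3 -/
lemma lev_mod (w : List Bool) (i : ℕ) : (i % 2 = 0 → ip (vx oo up w i) (1, -1) % 3 = 0) ∧
    (i % 2 = 1 → ip (vx oo up w i) (1, -1) % 3 = 2) := by
  induction i with
  | zero =>
    refine ⟨fun _ => ?_, fun h => absurd h (by norm_num)⟩
    rw [vx_zero', ip_oo]
    rfl
  | succ i ih =>
    obtain ⟨h1, h2⟩ := dx_even w i
    refine ⟨fun h => ?_, fun h => ?_⟩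
    · have h3 := ih.2 (by omega)
      rw [lev_succ]
      rcases lev_O _ (h2 (by omega)) with h4 | h4 <;> omega
    · have h3 := ih.1 (by omega)
      rw [lev_succ]
      rcases lev_E _ (h1 (by omega)) with h4 | h4 <;> omega

/-- **the bottom is at depth `3 m + 1`** -/
theorem bot_mod {w : List Bool} (hw : w ∈ WT (1, -1)) : bot (1, -1) w % 3 = 1 := by
  obtain ⟨s, hs, hb⟩ := bot_attained (1, -1) w
  have hpos : 1 ≤ w.length := List.length_pos_iff.2 hw.2.2
  have h1 : (1 : ℤ) ≤ bot (1, -1) w := by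
    have h2 := neg_le_bot (d := (1, -1)) hpos
    have h3 : ip (vx oo up w 1) (1, -1) = -1 := by
      rw [lev_succ, vx_zero', ip_oo]
      show 0 + ip up (1, -1) = -1
      decide
    omega
  have hcl : ip (vx oo up w w.length) (1, -1) = 0 := by rw [hw.1.2.1, ip_oo]
  have hs0 : s ≠ 0 := by
    rintro rfl
    rw [vx_zero', ip_oo] at hb
    simp at hb
    omega
  have hsn : s ≠ w.length := by
    rintro rfl
    rw [hcl] at hb
    simp at hb
    omega
  have hbs : (bot (1, -1) w : ℤ) = -(ip (vx oo up w s) (1, -1)) := by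
    rw [hb]
    rw [Int.toNat_of_nonneg]
    by_contra hcon
    rw [Int.toNat_of_nonpos (by omega)] at hb
    omega
  rcases Nat.even_or_odd s with he | ho
  · exfalso
    have e0 : s % 2 = 0 := Nat.even_iff.1 he
    obtain ⟨t, rfl⟩ : ∃ t, s = t + 1 := ⟨s - 1, by omega⟩
    have h2 := neg_le_bot (d := (1, -1)) (w := w) (s := t + 1 + 1) (by omega)
    have h3 := neg_le_bot (d := (1, -1)) (w := w) (s := t) (by omega)
    have l1 := lev_succ w (t + 1) (1, -1)
    have l2 := lev_succ w t (1, -1)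
    have k1 := lev_E _ ((dx_even w (t + 1)).1 e0)
    have k2 := lev_O _ ((dx_even w t).2 (by omega))
    have k3 : dx up w (t + 1) = turn (tf w t) (dx up w t) := ds_succ _
    have k4 := turn_OE2 _ ((dx_even w t).2 (by omega)) (tf w t)
    rw [← k3] at k4
    rcases k1 with k1 | k1
    · omega
    · rcases k2 with k2 | k2
      · omega
      · exact k4 k2 k1
  · have := (lev_mod w s).2 (Nat.odd_iff.1 ho)
    omega

end ART

end HexObs

namespace Pool.Agent.ROT.A6

open Pool.Agent.ROT.E (Cell Pt Cfg)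
open Pool.Agent.ROT.E.Hx (Bo Sx st dr bt Os lpw HL wh bk Wo)
open HexObs.ART (Fr WT Cap Out dpt SP InA bot)

/-- the opposite side -/
def opu (u : Fin 4) : Fin 4 := ![1, 0, 3, 2] u

theorem sw1_op (u : Fin 4) : sw1 (opu u) = -sw1 u := by
  revert u
  decide

theorem crd_op (u : Fin 4) (v : Pt) : crd (opu u) v = crd u v := by
  fin_cases u <;> rfl

theorem sw1_sq (u : Fin 4) : sw1 u = 1 ∨ sw1 u = -1 := by
  revert u
  decide

/-- the level of a vertex of the loop is that of a step -/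
theorem lev_bt (u : Fin 4) (a : Pt) (w : List Bool) (i : ℕ) :
    HexObs.ip (HexObs.vx HexObs.oo HexObs.up w i) (1, -1) = 3 * (sw1 u * (crd u (bt (a, sw4 u) w i).1 - crd u a)) ∨
      HexObs.ip (HexObs.vx HexObs.oo HexObs.up w i) (1, -1) =
        3 * (sw1 u * (crd u (bt (a, sw4 u) w i).1 - crd u a)) - 1 := by
  rw [← HexObs.ART.lev_frame (fr_u u a) w i]
  exact lev_cell u a (bt (a, sw4 u) w i).1 (bt (a, sw4 u) w i).2

/-- **the opposite side** -/
theorem hc_opp {u : Fin 4} {a : Pt} {w : List Bool} (hw : w ∈ WT (1, -1)) :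
    ∃ m : ℕ, bot (1, -1) w = 3 * m + 1 ∧ hc (lpw (a, sw4 u) w) (opu u) = crd u a - sw1 u * m := by
  have hmod := HexObs.ART.bot_mod hw
  obtain ⟨m, hm⟩ : ∃ m, bot (1, -1) w = 3 * m + 1 := ⟨bot (1, -1) w / 3, by omega⟩
  refine ⟨m, hm, hc_eq ?_ fun v hv => ?_⟩
  · obtain ⟨s, hs, hb⟩ := HexObs.ART.bot_attained (1, -1) w
    have hsn : s < w.length := by
      rcases hs.lt_or_eq with h | h
      · exact h
      · rw [h, hw.1.2.1, HexObs.ART.ip_oo] at hb
        simp at hb
        omega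
    refine ⟨(bt (a, sw4 u) w s).1, ?_, ?_⟩
    · rw [Finsupp.mem_support_iff]
      exact (E.Hx.supp_lpw' (wt_wo hw) _).2 ⟨s, hsn, rfl⟩
    · rw [crd_op]
      have h1 : HexObs.ip (HexObs.vx HexObs.oo HexObs.up w s) (1, -1) = -(3 * m + 1) := by omega
      have h2 : sw1 u * (crd u (bt (a, sw4 u) w s).1 - crd u a) = -m := by
        rcases lev_bt u a w s with h | h <;> omega
      rcases sw1_sq u with h | h <;> rw [h] at h2 ⊢ <;> omega
  · obtain ⟨i, hi, e⟩ := (E.Hx.supp_lpw' (wt_wo hw) v).1 (Finsupp.mem_support_iff.1 hv)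
    have h1 := HexObs.ART.neg_le_bot (d := (1, -1)) hi.le
    have h2 : -(m : ℤ) ≤ sw1 u * (crd u v - crd u a) := by
      rw [← e]
      rcases lev_bt u a w i with h | h <;> omega
    rw [crd_op, sw1_op]
    rcases sw1_sq u with h | h <;> rw [h] at h2 ⊢ <;> omega

/-- **the extent across the side and the depth of the bottom** -/
theorem wd_root {u : Fin 4} {a : Pt} {w : List Bool} (hw : w ∈ WT (1, -1)) {p : hexP.P} (hp : p.1 = lpw (a, sw4 u) w) :
    (bot (1, -1) w : ℤ) = 3 * hexP.wd u p + 1 := by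
  obtain ⟨m, hm, ho⟩ := hc_opp (u := u) (a := a) hw
  have hr := hc_root (u := u) (a := a) hw
  have e : hexP.wd u p = m := by
    unfold A.PSys.wd
    show (if u = 0 ∨ u = 1 then hc p.1 1 - hc p.1 0 else hc p.1 3 - hc p.1 2) = m
    rw [hp]
    rcases u_cases u with rfl | rfl | rfl | rfl
    · have h1 : hc (lpw (a, sw4 0) w) 1 = crd 0 a - sw1 0 * m := ho
      rw [if_pos (Or.inl rfl), h1, hr]
      simp [sw1]
    · have h1 : hc (lpw (a, sw4 1) w) 0 = crd 1 a - sw1 1 * m := ho
      rw [if_pos (Or.inr rfl), h1, hr]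
      simp [sw1]
    · have h1 : hc (lpw (a, sw4 2) w) 3 = crd 2 a - sw1 2 * m := ho
      rw [if_neg (by decide), h1, hr]
      simp [sw1]
    · have h1 : hc (lpw (a, sw4 3) w) 2 = crd 3 a - sw1 3 * m := ho
      rw [if_neg (by decide), h1, hr]
      simp [sw1]
  rw [e, hm]
  push_cast
  ring

end Pool.Agent.ROT.A6
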