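import Pool.Agent.ROT.A6E
import Pool.Agent.ROT.A6W

/-!
# ROT, row A6 (helper22): loops with the same part below a double cut row

`w`, `w'` rooted at their top, `SimW (1,-1) n w w'`, `γ = lpw (a, sw4 u) w`, `γ' = lpw (a, sw4 u) w'`:
* `sim_vert` : a vertex of the loop is a vertex of the other loop, with the same bond, or near the root;
* **`sim_hc`**, **`sim_xe`** : heights and the other coordinate of the extreme point.
-/

set_option autoImplicit false

namespace HexObs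

namespace ART

open Pool.Agent.ROT

/-- the feet of a state of a word are at levels `≤ -1` -/
lemma state_lev {z : Pt × Pt} {R S : List Bool} (hC : Cap (1, -1) z R S) : ip z.1 (1, -1) ≤ -1 := by
  have h1 := hC.le0
  have h2 := hC.enR
  have h3 := hC.hdR
  rcases Nat.even_or_odd R.length with he | ho
  · have h4 := (dx_even R R.length).1 (Nat.even_iff.1 he)
    rw [h3] at h4
    exact absurd h4 (by decide)
  · have h4 := (lev_mod R R.length).2 (Nat.odd_iff.1 ho)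
    rw [h2] at h4
    omega

/-- **the normal form for the steps**: a step of w is a step of w', or starts near the top and above the row -/
theorem sim_step {n : ℕ} {w w' : List Bool} (h : SimW (1, -1) n w w') (hne : w ≠ w') :
    (∀ i, i < w.length → (∃ j, j < w'.length ∧ vx oo up w' j = vx oo up w i ∧ dx up w' j = dx up w i ∧
      ip (vx oo up w i) (1, -1) ≤ -2) ∨ TIW.hn (vx oo up w i) ≤ cdW (1, -1) n w) ∧
    (∀ i, i < w.length → (∃ j, j < w'.length ∧ vx oo up w' j = vx oo up w i ∧ dx up w' j = dx up w i) ∨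
      (TIW.hn (vx oo up w i) ≤ cdW (1, -1) n w ∧ TIW.hn (vx oo up w (i + 1)) ≤ cdW (1, -1) n w)) := by
  have hd : ((1, -1) : Pt) ∈ dirs := by decide
  obtain ⟨z, hz, hz', R, O, S, R', S', rfl, rfl, hC, hC', hO, c1, c2⟩ := simW_norm hd h hne
  have hl := state_lev hC
  have hOp := hO.pos hd
  have hSp := hC.posS hd
  have hSp' := hC'.posS hd
  obtain ⟨e1, e2, e3, e4⟩ := dec_vx (S := S) hC.enR hC.hdR hO.en hO.hd
  have hlen : (R ++ (O ++ S)).length = R.length + O.length + S.length := by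
    rw [List.length_append, List.length_append, Nat.add_assoc]
  have hlen' : (R' ++ (O ++ S')).length = R'.length + O.length + S'.length := by
    rw [List.length_append, List.length_append, Nat.add_assoc]
  have common : ∀ i, R.length ≤ i → i ≤ R.length + O.length → ∃ j, j < (R' ++ (O ++ S')).length ∧
      vx oo up (R' ++ (O ++ S')) j = vx oo up (R ++ (O ++ S)) i ∧
      dx up (R' ++ (O ++ S')) j = dx up (R ++ (O ++ S)) i := by
    intro i h1 h2
    refine ⟨R'.length + (i - R.length), by omega, ?_, ?_⟩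
    · have := same_O (S := S) (S' := S') hC hC' hO (i := i - R.length) (by omega)
      rw [← this, show R.length + (i - R.length) = i by omega]
    · have := same_Od (S := S) (S' := S') hC hC' hO (i := i - R.length) (by omega)
      rw [← this, show R.length + (i - R.length) = i by omega]
  refine ⟨fun i hi => ?_, fun i hi => ?_⟩
  · by_cases hc : i ≤ R.length ∨ R.length + O.length < i
    · exact Or.inr (c1 i hi.le hc)
    · push Not at hc
      obtain ⟨j, hj, g1, g2⟩ := common i hc.1.le hc.2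
      refine Or.inl ⟨j, hj, g1, g2, ?_⟩
      have h3 := hO.lo (i - R.length) (by omega) (by omega)
      rw [← e2 _ (by omega), show R.length + (i - R.length) = i by omega] at h3
      omega
  · by_cases hc : R.length ≤ i ∧ i ≤ R.length + O.length
    · exact Or.inl (common i hc.1 hc.2)
    · right
      refine ⟨c1 i hi.le (by omega), c1 (i + 1) hi (by omega)⟩

end ART

end HexObs

namespace Pool.Agent.ROT.A6

open Pool.Agent.ROT.E (Cell Pt Cfg He oc)
open Pool.Agent.ROT.E.Hx (Bo Sx st dr bt Os lpw HL wh bk Wo hs ub)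
open HexObs.ART (Fr WT Cap Out dpt SP InA bot SimW cdW)
open HexObs.TIW (hn)

/-- the distances in the frame of a bond -/
theorem hn_frame (e : Bo) (p : HexObs.Pt) : hn (HexObs.mulE (HexObs.rotTo HexObs.up (dr e.2)) p) ≤ hn p := by
  refine HexObs.TIW.hn_le fun d hd => ?_
  have h1 : HexObs.nrm (HexObs.rotTo HexObs.up (dr e.2)) = 1 := HexObs.ART.nrm_dr e
  have h2 : HexObs.nrm (HexObs.conjE (HexObs.rotTo HexObs.up (dr e.2))) = 1 := by rw [HexObs.nrm_conjE, h1]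
  obtain ⟨d', hd', e'⟩ : ∃ d' ∈ HexObs.dirs, HexObs.mulE (HexObs.rotTo HexObs.up (dr e.2)) d' = d := by
    refine ⟨HexObs.mulE (HexObs.conjE (HexObs.rotTo HexObs.up (dr e.2))) d, HexObs.TIW.mulE_mem h2 hd, ?_⟩
    rw [HexObs.mulE_assoc, HexObs.mulE_conjE, h1, HexObs.mulE_one]
  rw [← e', HexObs.ip_mulE, h1, one_mul]
  exact HexObs.TIW.ip_le_hn p hd'

/-- cells of close vertices -/
theorem cell_of_hn {e f : Bo} {c : ℕ} (h : hn (st f - st e) ≤ c) : |f.1.1 - e.1.1| ≤ c ∧ |f.1.2 - e.1.2| ≤ c := by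
  have h1 := (HexObs.TIW.ip_le_hn (st f - st e) (d := (1, 0)) (by decide)).trans h
  have h2 := (neg_le_neg h).trans (HexObs.TIW.neg_hn_le_ip (st f - st e) (d := (1, 0)) (by decide))
  have h3 := (HexObs.TIW.ip_le_hn (st f - st e) (d := (-1, 1)) (by decide)).trans h
  have h4 := (neg_le_neg h).trans (HexObs.TIW.neg_hn_le_ip (st f - st e) (d := (-1, 1)) (by decide))
  clear h
  obtain ⟨⟨v1, v2⟩, s⟩ := f
  obtain ⟨⟨a1, a2⟩, s'⟩ := e
  have hc : (0 : ℤ) ≤ c := Int.natCast_nonneg c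
  rw [abs_le, abs_le]
  simp only [st] at h1 h2 h3 h4 ⊢
  split_ifs at h1 h2 h3 h4 <;> simp only [wh, bk, HexObs.ip, Prod.fst_sub, Prod.snd_sub] at h1 h2 h3 h4 <;> omega

/-! ### heights -/

theorem hc_mem {γ : Cfg} (l : γ.support.Nonempty) (k : Fin 4) : ∃ v ∈ γ.support, crd k v = hc γ k := by
  rcases u_cases k with rfl | rfl | rfl | rfl
  · exact L.hL_mem l
  · exact L.hR_mem l
  · exact L.hB_mem l
  · exact L.hT_mem l

theorem hc_ext {γ : Cfg} {v : Pt} (hv : v ∈ γ.support) (k : Fin 4) : sw1 k * crd k v ≤ sw1 k * hc γ k := by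
  rcases u_cases k with rfl | rfl | rfl | rfl
  · have h1 := L.hL_le hv
    show -1 * v.1 ≤ -1 * L.hL γ.support
    omega
  · have h1 := L.le_hR hv
    show 1 * v.1 ≤ 1 * L.hR γ.support
    omega
  · have h1 := L.hB_le hv
    show -1 * v.2 ≤ -1 * L.hB γ.support
    omega
  · have h1 := L.le_hT hv
    show 1 * v.2 ≤ 1 * L.hT γ.support
    omega

/-- the coordinate along the side -/
def ocr (u : Fin 4) (v : Pt) : ℤ := ![v.2, v.2, v.1, v.1] u

theorem xe_mem {γ : Cfg} (l : HL γ) (u : Fin 4) : ∃ v ∈ γ.support, crd u v = hc γ u ∧ ocr u v = xe γ u := by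
  obtain ⟨n0, n1, n2, n3⟩ := fil_ne l
  rcases u_cases u with rfl | rfl | rfl | rfl
  · obtain ⟨v, hv, e⟩ := L.hB_mem n0
    rw [Finset.mem_filter] at hv
    exact ⟨v, hv.1, hv.2, e⟩
  · obtain ⟨v, hv, e⟩ := L.hB_mem n1
    rw [Finset.mem_filter] at hv
    exact ⟨v, hv.1, hv.2, e⟩
  · obtain ⟨v, hv, e⟩ := L.hL_mem n2
    rw [Finset.mem_filter] at hv
    exact ⟨v, hv.1, hv.2, e⟩
  · obtain ⟨v, hv, e⟩ := L.hL_mem n3
    rw [Finset.mem_filter] at hv
    exact ⟨v, hv.1, hv.2, e⟩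

theorem crd_abs {v a : Pt} {c : ℤ} (h : |v.1 - a.1| ≤ c ∧ |v.2 - a.2| ≤ c) (k : Fin 4) : |crd k v - crd k a| ≤ c := by
  rcases u_cases k with rfl | rfl | rfl | rfl
  · exact h.1
  · exact h.1
  · exact h.2
  · exact h.2

theorem ocr_abs {v a : Pt} {c : ℤ} (h : |v.1 - a.1| ≤ c ∧ |v.2 - a.2| ≤ c) (k : Fin 4) : |ocr k v - ocr k a| ≤ c := by
  rcases u_cases k with rfl | rfl | rfl | rfl
  · exact h.2
  · exact h.2
  · exact h.1
  · exact h.1

/-! ### the loops of two words with the same part below a row -/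

section sim

variable {u : Fin 4} {a : Pt} {n : ℕ} {w w' : List Bool}

theorem wt_hl (hw : w ∈ WT (1, -1)) : HL (lpw (a, sw4 u) w) :=
  ⟨E.Hx.lp_lpw ((E.Hx.mem_wo _).1 (wt_wo hw)), E.Hx.ny_lpw _ _⟩

/-- positions near the root -/
theorem near_bt {i : ℕ} {c : ℤ} (h : hn (HexObs.vx HexObs.oo HexObs.up w i) ≤ c) :
    hn (st (bt (a, sw4 u) w i) - st (a, sw4 u)) ≤ c := by
  rw [HexObs.ART.st_frame, add_sub_cancel_left]
  exact (hn_frame _ _).trans h

/-- **bonds** -/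
theorem sim_bond (hS : SimW (1, -1) n w w') (hne : w ≠ w') {f : Bo} (hf : Os (a, sw4 u) w f) :
    Os (a, sw4 u) w' f ∨ (hn (st f - st (a, sw4 u)) ≤ cdW (1, -1) n w ∧
      hn (st (E.Hx.rev f) - st (a, sw4 u)) ≤ cdW (1, -1) n w) := by
  obtain ⟨i, hi, h⟩ := hf
  have e1 : st (E.Hx.rev (bt (a, sw4 u) w i)) = st (bt (a, sw4 u) w (i + 1)) := by
    rw [E.Hx.st_rev, E.Hx.st_bt, E.Hx.dr_bt, E.Hx.st_bt]
    exact (HexObs.vs_succ _).symm
  rcases (HexObs.ART.sim_step hS hne).2 i hi with ⟨j, hj, g1, g2⟩ | ⟨g1, g2⟩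
  · left
    have e3 : bt (a, sw4 u) w' j = bt (a, sw4 u) w i :=
      E.Hx.bo_eq (by rw [HexObs.ART.st_frame, HexObs.ART.st_frame, g1])
        (by rw [HexObs.ART.dr_frame, HexObs.ART.dr_frame, g2])
    exact ⟨j, hj, by rw [e3]; exact h⟩
  · right
    have k1 := near_bt (u := u) (a := a) g1
    have k2 := near_bt (u := u) (a := a) g2
    rcases h with h | h
    · rw [h, e1]
      exact ⟨k1, k2⟩
    · rw [h]
      rw [show f = E.Hx.rev (bt (a, sw4 u) w i) by rw [← h, E.Hx.rev_rev], e1]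
      exact ⟨k2, k1⟩

/-- **cells** -/
theorem sim_supp (hw : w ∈ WT (1, -1)) (hw' : w' ∈ WT (1, -1)) (hS : SimW (1, -1) n w w') {v : Pt}
    (hv : v ∈ (lpw (a, sw4 u) w).support) : v ∈ (lpw (a, sw4 u) w').support ∨
      (|v.1 - a.1| ≤ (cdW (1, -1) n w : ℤ) ∧ |v.2 - a.2| ≤ (cdW (1, -1) n w : ℤ)) := by
  by_cases hne : w = w'
  · exact Or.inl (hne ▸ hv)
  obtain ⟨i, hi, e⟩ := (E.Hx.supp_lpw' (wt_wo hw) v).1 (Finsupp.mem_support_iff.1 hv)
  rcases (HexObs.ART.sim_step hS hne).1 i hi with ⟨j, hj, g1, g2, -⟩ | g1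
  · left
    have e3 : bt (a, sw4 u) w' j = bt (a, sw4 u) w i :=
      E.Hx.bo_eq (by rw [HexObs.ART.st_frame, HexObs.ART.st_frame, g1])
        (by rw [HexObs.ART.dr_frame, HexObs.ART.dr_frame, g2])
    rw [Finsupp.mem_support_iff]
    exact (E.Hx.supp_lpw' (wt_wo hw') v).2 ⟨j, hj, by rw [e3]; exact e⟩
  · right
    have := cell_of_hn (near_bt (u := u) (a := a) g1)
    rwa [e] at this

/-- **the cells of the extreme line** -/
theorem sim_line (hw : w ∈ WT (1, -1)) (hS : SimW (1, -1) n w w') (hne : w ≠ w') {v : Pt}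
    (hv : v ∈ (lpw (a, sw4 u) w).support) (hc : crd u v = crd u a) :
    |v.1 - a.1| ≤ (cdW (1, -1) n w : ℤ) ∧ |v.2 - a.2| ≤ (cdW (1, -1) n w : ℤ) := by
  obtain ⟨i, hi, e⟩ := (E.Hx.supp_lpw' (wt_wo hw) v).1 (Finsupp.mem_support_iff.1 hv)
  rcases (HexObs.ART.sim_step hS hne).1 i hi with ⟨j, hj, g1, g2, g3⟩ | g1
  · exfalso
    have h1 := lev_bt u a w i
    rw [e, hc, sub_self, mul_zero, mul_zero] at h1
    rcases h1 with h1 | h1 <;> omega
  · have := cell_of_hn (near_bt (u := u) (a := a) g1)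
    rwa [e] at this

private theorem sim_hc1 (hw : w ∈ WT (1, -1)) (hw' : w' ∈ WT (1, -1)) (hS : SimW (1, -1) n w w') (k : Fin 4) :
    sw1 k * hc (lpw (a, sw4 u) w) k ≤ sw1 k * hc (lpw (a, sw4 u) w') k + cdW (1, -1) n w := by
  obtain ⟨v, hv, e⟩ := hc_mem ⟨a, supp_root (u := u) hw⟩ k
  rw [← e]
  rcases sim_supp hw hw' hS hv with h | h
  · have := hc_ext h k
    omega
  · have h1 := hc_ext (supp_root (u := u) (a := a) hw') k
    have h2 := crd_abs h k
    rw [abs_le] at h2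
    rcases sw1_sq k with hk | hk <;> rw [hk] at h1 ⊢ <;> omega

/-- **heights** -/
theorem sim_hc (hw : w ∈ WT (1, -1)) (hw' : w' ∈ WT (1, -1)) (hS : SimW (1, -1) n w w') (k : Fin 4) :
    |hc (lpw (a, sw4 u) w) k - hc (lpw (a, sw4 u) w') k| ≤ max (cdW (1, -1) n w : ℤ) (cdW (1, -1) n w' : ℤ) := by
  have h1 := sim_hc1 (u := u) (a := a) hw hw' hS k
  have h2 := sim_hc1 (u := u) (a := a) hw' hw ((HexObs.ART.simW_eqv (by decide) n).symm hS) k
  rw [abs_le]
  rcases sw1_sq k with hk | hk <;> rw [hk] at h1 h2 <;> constructor <;> omega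

/-- **the other coordinate of the extreme point** -/
theorem sim_xe (hw : w ∈ WT (1, -1)) (hw' : w' ∈ WT (1, -1)) (hS : SimW (1, -1) n w w') :
    |xe (lpw (a, sw4 u) w) u - xe (lpw (a, sw4 u) w') u| ≤ 2 * max (cdW (1, -1) n w : ℤ) (cdW (1, -1) n w' : ℤ) := by
  by_cases hne : w = w'
  · rw [hne, sub_self, abs_zero]
    omega
  obtain ⟨v, hv, e1, e2⟩ := xe_mem (wt_hl (u := u) (a := a) hw) u
  obtain ⟨v', hv', e1', e2'⟩ := xe_mem (wt_hl (u := u) (a := a) hw') u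
  have h1 := ocr_abs (sim_line hw hS hne hv (e1.trans (hc_root hw))) u
  have h2 := ocr_abs (sim_line hw' ((HexObs.ART.simW_eqv (by decide) n).symm hS) (Ne.symm hne) hv'
    (e1'.trans (hc_root hw'))) u
  rw [e2] at h1
  rw [e2'] at h2
  rw [abs_le] at h1 h2 ⊢
  constructor <;> omega

/-- **the cells off the box of the caps** -/
theorem sim_cell (hS : SimW (1, -1) n w w') {v : Pt} (hv : ¬ (|v.1 - a.1| ≤ max (cdW (1, -1) n w : ℤ) (cdW (1, -1) n w' : ℤ) ∧
      |v.2 - a.2| ≤ max (cdW (1, -1) n w : ℤ) (cdW (1, -1) n w' : ℤ))) :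
    lpw (a, sw4 u) w v = lpw (a, sw4 u) w' v := by
  by_cases hne : w = w'
  · rw [hne]
  have key : ∀ {w w' : List Bool}, SimW (1, -1) n w w' → w ≠ w' →
      ¬ (|v.1 - a.1| ≤ (cdW (1, -1) n w : ℤ) ∧ |v.2 - a.2| ≤ (cdW (1, -1) n w : ℤ)) → ∀ s,
      Os (a, sw4 u) w (v, s) → Os (a, sw4 u) w' (v, s) := by
    intro w w' hS hne hv s h
    rcases sim_bond hS hne h with h1 | ⟨h1, -⟩
    · exact h1
    · exact absurd (cell_of_hn h1) hv
  rw [E.Hx.lpw_apply, E.Hx.lpw_apply]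
  unfold E.Hx.cel
  congr 1
  funext s
  refine decide_eq_decide.2 ⟨key hS hne (fun h => hv ?_) s,
    key ((HexObs.ART.simW_eqv (by decide) n).symm hS) (Ne.symm hne) (fun h => hv ?_) s⟩ <;> omega

/-- **vertices** -/
theorem sim_hs (hw : w ∈ WT (1, -1)) (hw' : w' ∈ WT (1, -1)) (hS : SimW (1, -1) n w w') {p : HexObs.Pt}
    (hp : p ∈ hs (lpw (a, sw4 u) w)) : p ∈ hs (lpw (a, sw4 u) w') ∨
      (|(E.Hx.sq p).1 - a.1| ≤ (cdW (1, -1) n w : ℤ) ∧ |(E.Hx.sq p).2 - a.2| ≤ (cdW (1, -1) n w : ℤ)) := by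
  by_cases hne : w = w'
  · exact Or.inl (hne ▸ hp)
  rw [E.Hx.hs_lpw (wt_wo hw), Finset.mem_image] at hp
  obtain ⟨i, hi, e⟩ := hp
  rw [Finset.mem_range] at hi
  rw [← E.Hx.st_bt] at e
  rcases (HexObs.ART.sim_step hS hne).1 i hi with ⟨j, hj, g1, g2, -⟩ | g1
  · left
    rw [E.Hx.hs_lpw (wt_wo hw'), Finset.mem_image]
    refine ⟨j, Finset.mem_range.2 hj, ?_⟩
    rw [← e, ← E.Hx.st_bt, HexObs.ART.st_frame, HexObs.ART.st_frame, g1]
  · right
    have := cell_of_hn (near_bt (u := u) (a := a) g1)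
    rwa [← E.Hx.sq_st, e] at this

/-- two consecutive common steps -/
theorem sim_common (hS : SimW (1, -1) n w w') (hne : w ≠ w') : ∃ i j, i < w.length ∧ i + 1 < w.length ∧ j < w'.length ∧
    j + 1 < w'.length ∧ bt (a, sw4 u) w i = bt (a, sw4 u) w' j ∧ bt (a, sw4 u) w (i + 1) = bt (a, sw4 u) w' (j + 1) := by
  have hd : ((1, -1) : HexObs.Pt) ∈ HexObs.dirs := by decide
  obtain ⟨z, hz, hz', R, O, S, R', S', rfl, rfl, hC, hC', hO, -, -⟩ := HexObs.ART.simW_norm hd hS hne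
  have hOp := hO.pos hd
  have hSp := hC.posS hd
  have hSp' := hC'.posS hd
  have hlen : (R ++ (O ++ S)).length = R.length + O.length + S.length := by
    rw [List.length_append, List.length_append, Nat.add_assoc]
  have hlen' : (R' ++ (O ++ S')).length = R'.length + O.length + S'.length := by
    rw [List.length_append, List.length_append, Nat.add_assoc]
  have key : ∀ i, i ≤ O.length → bt (a, sw4 u) (R ++ (O ++ S)) (R.length + i) =
      bt (a, sw4 u) (R' ++ (O ++ S')) (R'.length + i) := by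
    intro i hi
    refine E.Hx.bo_eq ?_ ?_
    · rw [HexObs.ART.st_frame, HexObs.ART.st_frame, HexObs.ART.same_O hC hC' hO hi]
    · rw [HexObs.ART.dr_frame, HexObs.ART.dr_frame, HexObs.ART.same_Od hC hC' hO hi]
  exact ⟨R.length, R'.length, by omega, by omega, by omega, by omega, key 0 (Nat.zero_le _), key 1 hOp⟩

/-- a common half edge -/
theorem sim_oc (hw : w ∈ WT (1, -1)) (hw' : w' ∈ WT (1, -1)) (hS : SimW (1, -1) n w w') (hne : w ≠ w') :
    ∃ h, oc (lpw (a, sw4 u) w) h ∧ oc (lpw (a, sw4 u) w') h := by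
  obtain ⟨i, j, h1, h2, h3, h4, e1, e2⟩ := sim_common (u := u) (a := a) hS hne
  have c := (E.Hx.mem_wo (a, sw4 u)).1 (wt_wo hw)
  have c' := (E.Hx.mem_wo (a, sw4 u)).1 (wt_wo hw')
  have out : ∀ k : He, (k.1, E.Hx.bd k.2) = bt (a, sw4 u) w i ∨ (k.1, E.Hx.bd k.2) = bt (a, sw4 u) w (i + 1) →
      oc (lpw (a, sw4 u) w) k ∧ oc (lpw (a, sw4 u) w') k := by
    rintro k (hk | hk)
    · exact ⟨E.Hx.ub_bd.1 (by rw [hk]; exact (E.Hx.ub_lpw c _).2 (E.Hx.os_bt c h1.le)),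
        E.Hx.ub_bd.1 (by rw [hk, e1]; exact (E.Hx.ub_lpw c' _).2 (E.Hx.os_bt c' h3.le))⟩
    · exact ⟨E.Hx.ub_bd.1 (by rw [hk]; exact (E.Hx.ub_lpw c _).2 (E.Hx.os_bt c h2.le)),
        E.Hx.ub_bd.1 (by rw [hk, e2]; exact (E.Hx.ub_lpw c' _).2 (E.Hx.os_bt c' h4.le))⟩
  rcases E.Hx.bo_cases (bt (a, sw4 u) w i) with ⟨k, hk⟩ | hin
  · exact ⟨k, out k (Or.inl hk.symm)⟩
  · rcases E.Hx.bo_cases (bt (a, sw4 u) w (i + 1)) with ⟨k, hk⟩ | hin2
    · exact ⟨k, out k (Or.inr hk.symm)⟩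
    · exfalso
      have e3 : bt (a, sw4 u) w (i + 1) = E.Hx.tb (HexObs.tf w i) (bt (a, sw4 u) w i) := rfl
      rw [e3] at hin2
      generalize HexObs.tf w i = b at hin2
      generalize bt (a, sw4 u) w i = f at hin hin2
      obtain ⟨v, s⟩ := f
      cases b <;> cases s <;> simp [E.Hx.tb, E.Hx.rt, E.Hx.rev] at hin hin2

end sim

/-! ### the parity off a box -/

theorem sg_far {γ γ' : Cfg} (m : E.Mt γ Set.univ) (m' : E.Mt γ' Set.univ) {a : Pt} {r : ℤ}
    (h : ∀ v : Pt, ¬ (|v.1 - a.1| ≤ r ∧ |v.2 - a.2| ≤ r) → γ v = γ' v) {x y : ℤ}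
    (hx : ¬ (|x - a.1| ≤ r ∧ |y - a.2| ≤ r)) : E.sg γ x y = E.sg γ' x y := by
  have hio : ∀ v : Pt, ∀ d, ¬ (|v.1 - a.1| ≤ r ∧ |v.2 - a.2| ≤ r) → E.io γ v d = E.io γ' v d := by
    intro v d hv
    apply E.io_eq
    unfold oc
    rw [h v hv]
  have z2 : ∀ t : ZMod 2, t ≠ 1 → t = 0 := by decide
  obtain ⟨Y, hY⟩ : ∃ Y : ℤ, ∀ p y, Y ≤ y → E.sg γ p y = 0 := ⟨L.hT γ.support + 1, fun p y hy => z2 _ fun h1 => by
    have := (sg_box m h1).2.2.2
    omega⟩
  obtain ⟨Y', hY'⟩ : ∃ Y : ℤ, ∀ p y, Y ≤ y → E.sg γ' p y = 0 := ⟨L.hT γ'.support + 1, fun p y hy => z2 _ fun h1 => by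
    have := (sg_box m' h1).2.2.2
    omega⟩
  -- going down
  have down : ∀ k : ℕ, ∀ x y : ℤ, max Y Y' ≤ y + k → (∀ y', y ≤ y' → ¬ (|x - a.1| ≤ r ∧ |y' - a.2| ≤ r)) →
      E.sg γ x y = E.sg γ' x y := by
    intro k
    induction k with
    | zero =>
      intro x y hk _
      rw [hY x y (by omega), hY' x y (by omega)]
    | succ k ih =>
      intro x y hk hy
      rw [E.sg_succ γ x y, E.sg_succ γ' x y, ih x (y + 1) (by push_cast at hk ⊢; omega) (fun y' h' => hy y' (by omega)),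
        hio (x, y) .W (hy y le_rfl)]
  have down' : ∀ x y : ℤ, (∀ y', y ≤ y' → ¬ (|x - a.1| ≤ r ∧ |y' - a.2| ≤ r)) → E.sg γ x y = E.sg γ' x y :=
    fun x y hy => down (max Y Y' - y).toNat x y (by omega) hy
  by_cases h1 : |x - a.1| ≤ r
  · have h2 : ¬ |y - a.2| ≤ r := fun h2 => hx ⟨h1, h2⟩
    rcases lt_or_ge (a.2 + r) y with h3 | h3
    · refine down' x y fun y' hy' hc => ?_
      have := (abs_le.1 hc.2).2
      omega
    · have h4 : y < a.2 - r := by
        by_contra hcon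
        exact h2 (abs_le.2 ⟨by omega, by omega⟩)
      have right : ∀ k : ℕ, ∀ x : ℤ, a.1 + r < x + k → E.sg γ x y = E.sg γ' x y := by
        intro k
        induction k with
        | zero =>
          intro x hk
          refine down' x y fun y' _ hc => ?_
          have := (abs_le.1 hc.1).2
          push_cast at hk
          omega
        | succ k ih =>
          intro x hk
          rw [E.sg_right m x y, E.sg_right m' x y, ih (x + 1) (by push_cast at hk ⊢; omega),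
            hio (x, y) .S fun hc => h2 hc.2]
      exact right (a.1 + r - x + 1).toNat x (by omega)
  · exact down' x y fun y' _ hc => h1 hc.1

section rel

variable {u : Fin 4} {a : Pt} {n : ℕ} {w w' : List Bool}

private theorem rel1 (hw : w ∈ WT (1, -1)) (hw' : w' ∈ WT (1, -1)) (hS : SimW (1, -1) n w w') {q : Cfg}
    (hq : ∀ s ∈ q.support, ¬ (|s.1 - a.1| ≤ max (cdW (1, -1) n w : ℤ) (cdW (1, -1) n w' : ℤ) + 2 ∧
      |s.2 - a.2| ≤ max (cdW (1, -1) n w : ℤ) (cdW (1, -1) n w' : ℤ) + 2))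
    (h : Disjoint (hs (lpw (a, sw4 u) w)) (hs q)) : Disjoint (hs (lpw (a, sw4 u) w')) (hs q) := by
  rw [Finset.disjoint_left] at h ⊢
  intro p hp hpq
  rcases sim_hs hw' hw ((HexObs.ART.simW_eqv (by decide) n).symm hS) hp with h1 | h1
  · exact h h1 hpq
  · refine hq (E.Hx.sq p) ?_ ⟨?_, ?_⟩
    · rw [E.Hx.supp_hs]
      exact Finset.mem_image_of_mem _ hpq
    · omega
    · omega

/-- **another loop which does not come near the root does not see the cap** -/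
theorem sim_rel (hw : w ∈ WT (1, -1)) (hw' : w' ∈ WT (1, -1)) (hS : SimW (1, -1) n w w') {q : Cfg} (lq : HL q)
    (hq : ∀ s ∈ q.support, ¬ (|s.1 - a.1| ≤ max (cdW (1, -1) n w : ℤ) (cdW (1, -1) n w' : ℤ) + 2 ∧
      |s.2 - a.2| ≤ max (cdW (1, -1) n w : ℤ) (cdW (1, -1) n w' : ℤ) + 2)) :
    (Disjoint (hs (lpw (a, sw4 u) w)) (hs q) ↔ Disjoint (hs (lpw (a, sw4 u) w')) (hs q)) ∧
      (Disjoint (hs (lpw (a, sw4 u) w)) (hs q) → ((Ins (lpw (a, sw4 u) w) q ↔ Ins (lpw (a, sw4 u) w') q) ∧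
        (Ins q (lpw (a, sw4 u) w) ↔ Ins q (lpw (a, sw4 u) w')))) := by
  have hS' := (HexObs.ART.simW_eqv (d := (1, -1)) (by decide) n).symm hS
  have hq' : ∀ s ∈ q.support, ¬ (|s.1 - a.1| ≤ max (cdW (1, -1) n w' : ℤ) (cdW (1, -1) n w : ℤ) + 2 ∧
      |s.2 - a.2| ≤ max (cdW (1, -1) n w' : ℤ) (cdW (1, -1) n w : ℤ) + 2) := by
    intro s hs
    rw [max_comm]
    exact hq s hs
  have l := wt_hl (u := u) (a := a) hw
  have l' := wt_hl (u := u) (a := a) hw'
  refine ⟨⟨rel1 hw hw' hS hq, rel1 hw' hw hS' hq'⟩, fun hd => ?_⟩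
  have hd' := rel1 hw hw' hS hq hd
  by_cases hne : w = w'
  · rw [hne]
    exact ⟨Iff.rfl, Iff.rfl⟩
  obtain ⟨h0, o1, o2⟩ := sim_oc (u := u) (a := a) hw hw' hS hne
  refine ⟨⟨fun hi => ⟨hd', h0, o2, hi.all l lq o1⟩, fun hi => ⟨hd, h0, o1, hi.all l' lq o2⟩⟩, ?_⟩
  have sd : ∀ h : He, oc q h → E.sd (lpw (a, sw4 u) w) h = E.sd (lpw (a, sw4 u) w') h := by
    intro h ho
    refine sg_far l.lp.mt l'.lp.mt (a := a) (fun v hv => sim_cell hS hv) ?_
    have h1 := hq h.1 (oc_mem ho)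
    intro h2
    apply h1
    obtain ⟨⟨x, y⟩, d⟩ := h
    rw [abs_le, abs_le] at h2
    rw [abs_le, abs_le]
    cases d <;> simp only [E.cr] at h2 ⊢ <;> omega
  constructor
  · rintro ⟨-, h, ho, e⟩
    exact ⟨hd'.symm, h, ho, by rw [← sd h ho]; exact e⟩
  · rintro ⟨-, h, ho, e⟩
    exact ⟨hd.symm, h, ho, by rw [sd h ho]; exact e⟩

end rel

end Pool.Agent.ROT.A6
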