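import Pool.Agent.ROT.EDefs

/-!
# ROT, block E, row E7 (helper68): symmetries of the weights

A symmetry of the square lattice (bijection `e` of the vertices, `g` of the directions, `f` of the local states) acts on
configurations and on families; it preserves loops, families and, if the weights fit, the measure `M`.
Instances: translations, transposition (constant angle), point reflection, reflection in a horizontal line
(`u ↦ 3π/8 - u`).
-/

set_option autoImplicit false

namespace Pool.Agent.ROT.E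

open Pool.Agent.EXL (Wt)
open Pool.Agent.YBC (Dir)
open Pool.Agent.UNI (wR)

/-- a symmetry -/
structure Sy where
  /-- the vertices -/
  e : Pt ≃ Pt
  /-- the directions -/
  g : Dir ≃ Dir
  /-- the local states -/
  f : Cell ≃ Cell
  f0 : f 0 = 0
  op : ∀ d, g d.op = (g d).op
  nx : ∀ v d, e (nx v d) = nx (e v) (g d)
  p : ∀ c d, (f c).p (g d) = g (c.p d)

namespace Sy

variable (S : Sy) {I : Type}

/-- the half edges -/
def he : He ≃ He := Equiv.prodCongr S.e S.g

@[simp] theorem he_fst (h : He) : (S.he h).1 = S.e h.1 := rfl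

@[simp] theorem he_snd (h : He) : (S.he h).2 = S.g h.2 := rfl

theorem he_rv (h : He) : rv (S.he h) = S.he (rv h) := by
  refine Prod.ext ?_ ?_
  · exact (S.nx h.1 h.2).symm
  · exact (S.op h.2).symm

/-- the action on the configurations -/
noncomputable def ac (γ : Cfg) : Cfg := Finsupp.equivMapDomain S.e (γ.mapRange S.f S.f0)

theorem ac_apply (γ : Cfg) (v : Pt) : S.ac γ (S.e v) = S.f (γ v) := by
  rw [ac, Finsupp.equivMapDomain_apply, Equiv.symm_apply_apply, Finsupp.mapRange_apply]

/-- the action on the families -/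
noncomputable def acF (γ : Fm I) : Fm I :=
  Finsupp.equivMapDomain S.e (γ.mapRange (fun φ i => S.f (φ i)) (funext fun _ => S.f0))

theorem acF_apply (γ : Fm I) (v : Pt) : S.acF γ (S.e v) = fun i => S.f (γ v i) := by
  rw [acF, Finsupp.equivMapDomain_apply, Equiv.symm_apply_apply, Finsupp.mapRange_apply]

theorem co_acF (γ : Fm I) (i : I) : co (S.acF γ) i = S.ac (co γ i) := by
  ext v
  obtain ⟨w, rfl⟩ := S.e.surjective v
  rw [ac_apply, co, co, Finsupp.mapRange_apply, Finsupp.mapRange_apply, acF_apply]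

theorem oc_c (c : Cell) (d : Dir) : (S.f c).oc (S.g d) ↔ c.oc d := by
  unfold Cell.oc
  rw [S.p, not_iff_not]
  exact S.g.apply_eq_iff_eq

theorem oc_iff (γ : Cfg) (h : He) : oc (S.ac γ) (S.he h) ↔ oc γ h := by
  unfold oc
  rw [he_fst, he_snd, ac_apply]
  exact S.oc_c _ _

theorem vp_ac (γ : Cfg) (h : He) : vp (S.ac γ) (S.he h) = S.he (vp γ h) := by
  refine Prod.ext rfl ?_
  change (S.ac γ (S.e h.1)).p (S.g h.2) = S.g ((γ h.1).p h.2)
  rw [ac_apply, S.p]

theorem mt_iff (γ : Cfg) (A : Set Pt) : Mt (S.ac γ) (S.e '' A) ↔ Mt γ A := by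
  constructor
  · intro h k hk hr
    have h1 := h (S.he k) ⟨k.1, hk, rfl⟩ (by rw [he_rv]; exact ⟨(rv k).1, hr, rfl⟩)
    rw [he_rv, oc_iff, oc_iff] at h1
    exact h1
  · intro h k hk hr
    obtain ⟨k, rfl⟩ := S.he.surjective k
    rw [he_rv] at hr ⊢
    rw [oc_iff, oc_iff]
    exact h k ((S.e.injective.mem_set_image).1 hk) ((S.e.injective.mem_set_image).1 hr)

theorem lk_iff (γ : Cfg) (A : Set Pt) (h k : He) : Lk (S.ac γ) (S.e '' A) (S.he h) (S.he k) ↔ Lk γ A h k := by
  unfold Lk
  rw [oc_iff, vp_ac, he_rv, he_fst, he_fst, S.e.injective.mem_set_image, S.e.injective.mem_set_image,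
    S.he.apply_eq_iff_eq, S.he.apply_eq_iff_eq]

theorem cn_iff (γ : Cfg) (A : Set Pt) (h k : He) : Cn (S.ac γ) (S.e '' A) (S.he h) (S.he k) ↔ Cn γ A h k := by
  constructor
  · intro H
    have key : ∀ a b, Cn (S.ac γ) (S.e '' A) a b → Cn γ A (S.he.symm a) (S.he.symm b) := by
      intro a b hab
      induction hab with
      | rel a b h =>
        obtain ⟨a, rfl⟩ := S.he.surjective a
        obtain ⟨b, rfl⟩ := S.he.surjective b
        rw [Equiv.symm_apply_apply, Equiv.symm_apply_apply]
        exact Relation.EqvGen.rel _ _ ((S.lk_iff γ A a b).1 h)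
      | refl a => exact Relation.EqvGen.refl _
      | symm a b _ ih => exact Relation.EqvGen.symm _ _ ih
      | trans a b c _ _ ih1 ih2 => exact Relation.EqvGen.trans _ _ _ ih1 ih2
    have h1 := key _ _ H
    rwa [Equiv.symm_apply_apply, Equiv.symm_apply_apply] at h1
  · intro H
    induction H with
    | rel a b h => exact Relation.EqvGen.rel _ _ ((S.lk_iff γ A a b).2 h)
    | refl a => exact Relation.EqvGen.refl _
    | symm a b _ ih => exact Relation.EqvGen.symm _ _ ih
    | trans a b c _ _ ih1 ih2 => exact Relation.EqvGen.trans _ _ _ ih1 ih2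

theorem image_univ' : S.e '' (Set.univ : Set Pt) = Set.univ := Set.image_univ_of_surjective S.e.surjective

theorem ac_ne (γ : Cfg) : S.ac γ ≠ 0 ↔ γ ≠ 0 := by
  rw [not_iff_not]
  constructor
  · intro h
    ext v
    have h1 := S.ac_apply γ v
    rw [h] at h1
    rw [Finsupp.coe_zero, Pi.zero_apply] at h1 ⊢
    apply S.f.injective
    rw [← h1, S.f0]
  · rintro rfl
    ext v
    obtain ⟨w, rfl⟩ := S.e.surjective v
    rw [ac_apply, Finsupp.coe_zero, Pi.zero_apply, Pi.zero_apply, S.f0]

/-- **loops** -/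
theorem lp_iff (γ : Cfg) : Lp (S.ac γ) ↔ Lp γ := by
  constructor
  · intro h
    refine ⟨?_, (S.ac_ne γ).1 h.ne, fun a b ha hb => ?_⟩
    · have h1 := h.mt
      rw [← S.image_univ', mt_iff] at h1
      exact h1
    · have h1 := h.cn (S.he a) (S.he b) ((S.oc_iff γ a).2 ha) ((S.oc_iff γ b).2 hb)
      rw [← S.image_univ', cn_iff] at h1
      exact h1
  · intro h
    refine ⟨?_, (S.ac_ne γ).2 h.ne, fun a b ha hb => ?_⟩
    · rw [← S.image_univ', mt_iff]
      exact h.mt
    · obtain ⟨a, rfl⟩ := S.he.surjective a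
      obtain ⟨b, rfl⟩ := S.he.surjective b
      rw [← S.image_univ', cn_iff]
      exact h.cn a b ((S.oc_iff γ a).1 ha) ((S.oc_iff γ b).1 hb)

theorem isUn_iff (φ : I → Cell) (c : Cell) : IsUn (fun i => S.f (φ i)) (S.f c) ↔ IsUn φ c := by
  unfold IsUn
  refine and_congr ?_ (and_congr ?_ ?_)
  · refine forall_congr' fun i => ?_
    constructor
    · intro h d hd
      have h1 := h (S.g d) ((S.oc_c _ _).2 hd)
      rw [S.p, S.p, S.g.apply_eq_iff_eq] at h1
      exact h1
    · intro h d hd
      obtain ⟨d, rfl⟩ := S.g.surjective d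
      rw [S.p, S.p, h d ((S.oc_c _ _).1 hd)]
  · refine forall_congr' fun i => forall_congr' fun i' => ?_
    constructor
    · intro h d h1 h2
      exact h (S.g d) ((S.oc_c _ _).2 h1) ((S.oc_c _ _).2 h2)
    · intro h d h1 h2
      obtain ⟨d, rfl⟩ := S.g.surjective d
      exact h d ((S.oc_c _ _).1 h1) ((S.oc_c _ _).1 h2)
  · constructor
    · intro h d hd
      obtain ⟨i, hi⟩ := h (S.g d) ((S.oc_c _ _).2 hd)
      exact ⟨i, (S.oc_c _ _).1 hi⟩
    · intro h d hd
      obtain ⟨d, rfl⟩ := S.g.surjective d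
      obtain ⟨i, hi⟩ := h d ((S.oc_c _ _).1 hd)
      exact ⟨i, (S.oc_c _ _).2 hi⟩

/-- **families** -/
theorem fam_iff (γ : Fm I) : Fam (S.acF γ) ↔ Fam γ := by
  constructor
  · intro h
    refine ⟨fun i => ?_, fun v => ?_⟩
    · have h1 := h.lp i
      rw [co_acF, lp_iff] at h1
      exact h1
    · obtain ⟨c, hc⟩ := h.dj (S.e v)
      obtain ⟨c, rfl⟩ := S.f.surjective c
      rw [acF_apply, isUn_iff] at hc
      exact ⟨c, hc⟩
  · intro h
    refine ⟨fun i => ?_, fun v => ?_⟩
    · rw [co_acF, lp_iff]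
      exact h.lp i
    · obtain ⟨v, rfl⟩ := S.e.surjective v
      obtain ⟨c, hc⟩ := h.dj v
      refine ⟨S.f c, ?_⟩
      rw [acF_apply, isUn_iff]
      exact hc

theorem wf_eq {w w' : Wt ℝ} (h : ∀ c, (S.f c).wt w = c.wt w') (φ : I → Cell) :
    wf w (fun i => S.f (φ i)) = wf w' φ := by
  classical
  unfold wf
  rw [← Equiv.sum_comp S.f]
  refine Finset.sum_congr rfl fun c _ => ?_
  rw [h c]
  exact if_congr (S.isUn_iff φ c) rfl rfl

theorem wf_zero (w : Wt ℝ) : wf w (0 : I → Cell) = 1 := by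
  classical
  unfold wf
  have key : ∀ c : Cell, IsUn (0 : I → Cell) c ↔ c = .o := by
    intro c
    constructor
    · intro h
      by_contra hc
      have key : ∀ c : Cell, c ≠ .o → ∃ d, c.oc d := by decide
      obtain ⟨d, hd⟩ := key c hc
      obtain ⟨i, hi⟩ := h.2.2 d hd
      exact hi rfl
    · rintro rfl
      exact ⟨fun i d hd => absurd rfl hd, fun i i' d hd => absurd rfl hd, fun d hd => absurd rfl hd⟩
  have e1 : ∀ c : Cell, (if IsUn (0 : I → Cell) c then c.wt w else 0) = if c = .o then 1 else 0 := by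
    intro c
    by_cases hc : c = .o
    · rw [if_pos ((key c).2 hc), if_pos hc, hc]
      rfl
    · rw [if_neg (fun h => hc ((key c).1 h)), if_neg hc]
  rw [Finset.sum_congr rfl fun c _ => e1 c, Finset.sum_ite_eq' Finset.univ Cell.o]
  simp

/-- **the measure** -/
theorem M_acF {u u' : ℤ → ℝ} (h : ∀ v c, (S.f c).wt (wR (u (S.e v).1)) = c.wt (wR (u' v.1))) (γ : Fm I) :
    M u (S.acF γ) = M u' γ := by
  classical
  unfold M acF
  rw [Finsupp.prod, Finsupp.prod]
  have hs : (Finsupp.equivMapDomain S.e (γ.mapRange (fun φ i => S.f (φ i)) (funext fun _ => S.f0))).support =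
      γ.support.map S.e.toEmbedding := by
    ext v
    obtain ⟨w, rfl⟩ := S.e.surjective v
    rw [Finsupp.mem_support_iff, Finsupp.equivMapDomain_apply, Equiv.symm_apply_apply, Finsupp.mapRange_apply]
    constructor
    · intro hv
      refine Finset.mem_map.2 ⟨w, ?_, rfl⟩
      rw [Finsupp.mem_support_iff]
      intro h0
      apply hv
      funext i
      rw [h0]
      exact S.f0
    · intro hv
      obtain ⟨w', hw', he⟩ := Finset.mem_map.1 hv
      have := S.e.injective he
      subst this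
      rw [Finsupp.mem_support_iff] at hw'
      intro h0
      apply hw'
      funext i
      have h1 := congrFun h0 i
      rw [Pi.zero_apply, ← S.f0] at h1
      exact S.f.injective h1
  rw [hs, Finset.prod_map]
  refine Finset.prod_congr rfl fun v _ => ?_
  rw [Equiv.coe_toEmbedding, Finsupp.equivMapDomain_apply, Equiv.symm_apply_apply, Finsupp.mapRange_apply]
  exact S.wf_eq (h v) (γ v)

/-- the inverse symmetry -/
def inv : Sy where
  e := S.e.symm
  g := S.g.symm
  f := S.f.symm
  f0 := by rw [Equiv.symm_apply_eq, S.f0]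
  op := fun d => by rw [Equiv.symm_apply_eq, S.op, Equiv.apply_symm_apply]
  nx := fun v d => by rw [Equiv.symm_apply_eq, S.nx, Equiv.apply_symm_apply, Equiv.apply_symm_apply]
  p := fun c d => by
    apply S.g.injective
    rw [← S.p, Equiv.apply_symm_apply, Equiv.apply_symm_apply, Equiv.apply_symm_apply]

theorem inv_acF (γ : Fm I) : S.inv.acF (S.acF γ) = γ := by
  ext v i
  have h1 := S.inv.acF_apply (S.acF γ) (S.e v)
  have h2 : S.inv.e (S.e v) = v := S.e.symm_apply_apply v
  rw [h2] at h1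
  rw [h1, acF_apply]
  exact S.f.symm_apply_apply _

theorem acF_inv (γ : Fm I) : S.acF (S.inv.acF γ) = γ := S.inv.inv_acF γ

theorem inv_ac (γ : Cfg) : S.inv.ac (S.ac γ) = γ := by
  ext v
  have h1 := S.inv.ac_apply (S.ac γ) (S.e v)
  have h2 : S.inv.e (S.e v) = v := S.e.symm_apply_apply v
  rw [h2] at h1
  rw [h1, ac_apply]
  exact S.f.symm_apply_apply _

theorem ac_inv (γ : Cfg) : S.ac (S.inv.ac γ) = γ := S.inv.inv_ac γ

/-- the bijection of the families -/
noncomputable def eqF : Fm I ≃ Fm I := ⟨S.acF, S.inv.acF, S.inv_acF, S.acF_inv⟩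

/-- the bijection of the configurations -/
noncomputable def eqC : Cfg ≃ Cfg := ⟨S.ac, S.inv.ac, S.inv_ac, S.ac_inv⟩

/-- vertex used -/
theorem ac_app_ne (γ : Cfg) (v : Pt) : S.ac γ (S.e v) ≠ 0 ↔ γ v ≠ 0 := by
  rw [ac_apply, not_iff_not]
  constructor
  · intro h
    apply S.f.injective
    rw [h, S.f0]
  · intro h
    rw [h, S.f0]

end Sy

/-! ### instances -/

/-- translation by `a` -/
def trS (a : Pt) : Sy where
  e := Equiv.addRight a
  g := Equiv.refl _
  f := Equiv.refl _
  f0 := rfl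
  op := fun _ => rfl
  nx := fun v d => by
    cases d <;> refine Prod.ext ?_ ?_ <;> simp [nx] <;> ring
  p := fun _ _ => rfl

@[simp] theorem trS_e (a v : Pt) : (trS a).e v = v + a := rfl

/-- **translations** -/
theorem M_tr {I : Type} (u : ℤ → ℝ) (a : Pt) (γ : Fm I) : M u ((trS a).acF γ) = M (fun j => u (j + a.1)) γ :=
  (trS a).M_acF (u := u) (u' := fun j => u (j + a.1)) (fun _ _ => rfl) γ

namespace Cell

/-- transposed state -/
def tp : Cell → Cell
  | .h => .v
  | .v => .h
  | .se => .nw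
  | .nw => .se
  | c => c

/-- state turned by 180 degrees -/
def pr : Cell → Cell
  | .sw => .ne
  | .ne => .sw
  | .se => .nw
  | .nw => .se
  | c => c

/-- state reflected in the horizontal line -/
def hr : Cell → Cell
  | .sw => .nw
  | .nw => .sw
  | .se => .ne
  | .ne => .se
  | .x => .y
  | .y => .x
  | c => c

end Cell

theorem tp_wt (w : Wt ℝ) (c : Cell) : c.tp.wt w = c.wt w := by cases c <;> rfl

theorem pr_wt (w : Wt ℝ) (c : Cell) : c.pr.wt w = c.wt w := by cases c <;> rfl

/-- transposed direction -/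
def tpD : Dir → Dir
  | .E => .N
  | .N => .E
  | .W => .S
  | .S => .W

/-- direction reflected in the horizontal line -/
def hrD : Dir → Dir
  | .N => .S
  | .S => .N
  | d => d

/-- transposition `(c, r) ↦ (r, c)` -/
def tpS : Sy where
  e := Equiv.prodComm ℤ ℤ
  g := ⟨tpD, tpD, by decide, by decide⟩
  f := ⟨Cell.tp, Cell.tp, by decide, by decide⟩
  f0 := rfl
  op := by decide
  nx := fun v d => by cases d <;> rfl
  p := by decide

@[simp] theorem tpS_e (v : Pt) : tpS.e v = (v.2, v.1) := rfl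

/-- **transposition** (constant angle) -/
theorem M_tp {I : Type} (β : ℝ) (γ : Fm I) : M (fun _ => β) (tpS.acF γ) = M (fun _ => β) γ :=
  tpS.M_acF (u := fun _ => β) (u' := fun _ => β) (fun _ c => tp_wt (wR β) c) γ

/-- point reflection -/
def prS : Sy where
  e := Equiv.neg Pt
  g := ⟨Dir.op, Dir.op, by decide, by decide⟩
  f := ⟨Cell.pr, Cell.pr, by decide, by decide⟩
  f0 := rfl
  op := by decide
  nx := fun v d => by
    cases d <;> refine Prod.ext ?_ ?_ <;> simp [nx, Dir.op] <;> ring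
  p := by decide

@[simp] theorem prS_e (v : Pt) : prS.e v = -v := rfl

/-- **point reflection** -/
theorem M_pr {I : Type} (u : ℤ → ℝ) (γ : Fm I) : M u (prS.acF γ) = M (fun j => u (-j)) γ :=
  prS.M_acF (u := u) (u' := fun j => u (-j)) (fun v c => pr_wt (wR (u (-v.1))) c) γ

/-- reflection in the horizontal line -/
def hrS : Sy where
  e := Equiv.prodCongr (Equiv.refl ℤ) (Equiv.neg ℤ)
  g := ⟨hrD, hrD, by decide, by decide⟩
  f := ⟨Cell.hr, Cell.hr, by decide, by decide⟩
  f0 := rfl
  op := by decide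
  nx := fun v d => by
    cases d <;> refine Prod.ext ?_ ?_ <;> simp [nx, hrD] <;> ring
  p := by decide

@[simp] theorem hrS_e (v : Pt) : hrS.e v = (v.1, -v.2) := rfl

theorem hr_wt (u : ℝ) (c : Cell) : c.hr.wt (wR (3 * Real.pi / 8 - u)) = c.wt (wR u) := by
  have e0 : 3 * Real.pi / 8 - (3 * Real.pi / 8 - u) = u := by ring
  have e1 : Real.sin (3 * Real.pi / 8 - u + Real.pi / 4) = Real.sin (u + 3 * Real.pi / 8) := by
    rw [← Real.sin_pi_sub]
    congr 1
    ring
  have e2 : Real.sin (3 * Real.pi / 8 - u + 3 * Real.pi / 8) = Real.sin (u + Real.pi / 4) := by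
    rw [← Real.sin_pi_sub]
    congr 1
    ring
  have eD : Pool.Agent.UNI.DR (3 * Real.pi / 8 - u) = Pool.Agent.UNI.DR u := by
    unfold Pool.Agent.UNI.DR
    rw [e1, e2, mul_comm]
  have e3 : Real.sin (3 * Real.pi / 8 - u - Real.pi / 8) = Real.sin (Real.pi / 4 - u) := by
    congr 1
    ring
  have e4 : Real.sin (Real.pi / 4 - (3 * Real.pi / 8 - u)) = Real.sin (u - Real.pi / 8) := by
    congr 1
    ring
  have v1 : (wR (3 * Real.pi / 8 - u)).v = (wR u).v := by
    simp only [wR]
    rw [e0, eD, mul_comm (Real.sin (3 * Real.pi / 8 - u))]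
  have v2 : (wR (3 * Real.pi / 8 - u)).u1 = (wR u).u2 := by
    simp only [wR]
    rw [e0, eD]
  have v3 : (wR (3 * Real.pi / 8 - u)).u2 = (wR u).u1 := by
    simp only [wR]
    rw [eD]
  have v4 : (wR (3 * Real.pi / 8 - u)).w1 = (wR u).w2 := by
    simp only [wR]
    rw [e0, e4, eD, mul_comm (Real.sin (u - Real.pi / 8))]
  have v5 : (wR (3 * Real.pi / 8 - u)).w2 = (wR u).w1 := by
    simp only [wR]
    rw [e3, eD, mul_comm (Real.sin (3 * Real.pi / 8 - u))]
  cases c
  · rfl
  · exact v1
  · exact v1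
  · exact v3
  · exact v3
  · exact v2
  · exact v2
  · exact v5
  · exact v4

/-- **reflection in the horizontal line**: the angles `θ` become `π - θ` -/
theorem M_hr {I : Type} (u : ℤ → ℝ) (γ : Fm I) :
    M (fun j => 3 * Real.pi / 8 - u j) (hrS.acF γ) = M u γ :=
  hrS.M_acF (u := fun j => 3 * Real.pi / 8 - u j) (u' := u) (fun v c => hr_wt (u v.1) c) γ

end Pool.Agent.ROT.E
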