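import Pool.Agent.ROT.EHex
import Pool.Agent.ROT.ESym

/-!
# ROT, row E8: sums over loops and sums over closed words
-/

set_option autoImplicit false

namespace Pool.Agent.ROT.E.Hx

open scoped ENNReal

/-- the bonds of a loop are the `card` bonds of the walk and their reverses -/
theorem ub_ncard {γ : Cfg} (l : HL γ) (hne : ∃ e, ub γ e) : {e : Bo | ub γ e}.ncard = 2 * (hs γ).card := by
  classical
  obtain ⟨e, he⟩ := hne
  have m := l.lp.mt
  set n := pd γ e with hn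
  have hi : ∀ i k, i < n → k < n → (nxt γ)^[i] e = (nxt γ)^[k] e → i = k := fun i k h1 h2 h3 =>
    st_inj m l.ny he h1 h2 (by rw [h3])
  have e1 : {f : Bo | ub γ f} = (((Finset.range n).image fun i => (nxt γ)^[i] e) ∪
      ((Finset.range n).image fun i => rev ((nxt γ)^[i] e)) : Finset Bo) := by
    ext f
    rw [Set.mem_ofPred_eq, ub_iff l.lp l.ny he, Finset.mem_coe, Finset.mem_union, Finset.mem_image, Finset.mem_image]
    constructor
    · rintro ⟨k, hk, h | h⟩
      · exact Or.inl ⟨k, Finset.mem_range.2 hk, h.symm⟩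
      · exact Or.inr ⟨k, Finset.mem_range.2 hk, by rw [← h, rev_rev]⟩
    · rintro (⟨k, hk, h⟩ | ⟨k, hk, h⟩)
      · exact ⟨k, Finset.mem_range.1 hk, Or.inl h.symm⟩
      · exact ⟨k, Finset.mem_range.1 hk, Or.inr (by rw [← h, rev_rev])⟩
  rw [e1, Set.ncard_coe_finset, Finset.card_union_of_disjoint, Finset.card_image_of_injOn,
    Finset.card_image_of_injOn, Finset.card_range, hs_pd l he]
  · omega
  · intro i h1 k h2 h3
    rw [Finset.mem_coe, Finset.mem_range] at h1 h2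
    exact hi i k h1 h2 (rev_inj h3)
  · intro i h1 k h2 h3
    rw [Finset.mem_coe, Finset.mem_range] at h1 h2
    exact hi i k h1 h2 h3
  · rw [Finset.disjoint_left]
    intro f h1 h2
    rw [Finset.mem_image] at h1 h2
    obtain ⟨i, h3, rfl⟩ := h1
    obtain ⟨k, h4, h5⟩ := h2
    rw [Finset.mem_range] at h3 h4
    -- rev (it k) = it i: not possible
    rcases le_total i k with h6 | h6
    · have h7 : (nxt γ)^[k - i] ((nxt γ)^[i] e) = (nxt γ)^[k] e := by
        rw [← Function.iterate_add_apply, Nat.sub_add_cancel h6]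
      apply it_ne_rev m l.ny (k - i) (it_ub m l.ny he i)
      rw [h7, ← h5, rev_rev]
    · have h7 : (nxt γ)^[i - k] ((nxt γ)^[k] e) = (nxt γ)^[i] e := by
        rw [← Function.iterate_add_apply, Nat.sub_add_cancel h6]
      apply it_ne_rev m l.ny (i - k) (it_ub m l.ny he k)
      rw [h7, h5]

/-- a loop has a bond -/
theorem ex_ub {γ : Cfg} (l : HL γ) : ∃ e, ub γ e := by
  obtain ⟨v, hv⟩ := Finsupp.ne_iff.1 l.lp.ne
  have h1 : γ v ≠ .o := hv
  have : ∃ s, us (γ v) s = true := by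
    revert h1
    generalize γ v = c
    intro h1
    cases c <;> first
      | exact absurd rfl h1
      | exact ⟨.ww, by decide⟩
      | exact ⟨.ee, by decide⟩
      | exact ⟨.ss, by decide⟩
  obtain ⟨s, hs⟩ := this
  exact ⟨(v, s), hs⟩

theorem nc_ub {γ : Cfg} (l : HL γ) : {e : Bo | ub γ e}.ncard = 2 * (hs γ).card := ub_ncard l (ex_ub l)

/-- the weight of a honeycomb loop -/
noncomputable def wl (γ : Cfg) : ℝ≥0∞ := ENNReal.ofReal (HexObs.xc ^ (hs γ).card)

theorem wl_lpw {e : Bo} {t : List Bool} (h : t ∈ Wo) : wl (lpw e t) = HexObs.wE t := by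
  unfold wl HexObs.wE
  rw [card_lpw h]

/-- **sums over the rooted loops** -/
theorem sum_root (F : Cfg → Bo → ℝ≥0∞) :
    ∑' x : {x : Cfg × Bo // HL x.1 ∧ ub x.1 x.2}, wl x.1.1 * F x.1.1 x.1.2 =
      ∑' e : Bo, ∑' t : Wo, HexObs.wE t * F (lpw e t) e := by
  rw [← ENNReal.tsum_prod (f := fun (e : Bo) (t : Wo) => HexObs.wE t * F (lpw e t) e), ← dic.symm.tsum_eq]
  apply tsum_congr
  rintro ⟨e, t⟩
  rw [dic_symm, wl_lpw t.2]

theorem sum_ub {γ : Cfg} (l : HL γ) (c : ℝ≥0∞) : ∑' _ : {e : Bo // ub γ e}, c = 2 * (hs γ).card * c := by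
  have hf : {e : Bo | ub γ e}.Finite := ub_fin γ
  have : Fintype {e : Bo // ub γ e} := hf.fintype
  rw [tsum_fintype, Finset.sum_const, nsmul_eq_mul, Finset.card_univ]
  have h1 : Fintype.card {e : Bo // ub γ e} = {e : Bo | ub γ e}.ncard := by
    rw [← Nat.card_eq_fintype_card]
    rfl
  rw [h1, nc_ub l]
  push_cast
  ring

/-- **sums over the loops** -/
theorem sum_loop (F : Cfg → ℝ≥0∞) :
    ∑' γ : {γ : Cfg // HL γ}, 2 * (hs γ.1).card * (wl γ.1 * F γ.1) =
      ∑' e : Bo, ∑' t : Wo, HexObs.wE t * F (lpw e t) := by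
  rw [← sum_root fun γ _ => F γ]
  let eq : {x : Cfg × Bo // HL x.1 ∧ ub x.1 x.2} ≃ Σ γ : {γ : Cfg // HL γ}, {e : Bo // ub γ.1 e} :=
    { toFun := fun x => ⟨⟨x.1.1, x.2.1⟩, ⟨x.1.2, x.2.2⟩⟩
      invFun := fun x => ⟨(x.1.1, x.2.1), x.1.2, x.2.2⟩
      left_inv := fun _ => rfl
      right_inv := fun _ => rfl }
  rw [← eq.symm.tsum_eq, ENNReal.tsum_sigma']
  apply tsum_congr
  intro γ
  exact (sum_ub γ.2 _).symm

/-! ### translations -/

/-- the translated bond -/
def trb (a : Pt) (e : Bo) : Bo := (e.1 + a, e.2)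

/-- the translated configuration -/
noncomputable def trc (a : Pt) (γ : Cfg) : Cfg := (trS a).ac γ

theorem trc_apply (a : Pt) (γ : Cfg) (v : Pt) : trc a γ (v + a) = γ v := (trS a).ac_apply γ v

theorem ub_trc (a : Pt) (γ : Cfg) (e : Bo) : ub (trc a γ) (trb a e) ↔ ub γ e := by
  unfold ub trb
  simp only
  rw [trc_apply]

theorem rev_trb (a : Pt) (e : Bo) : rev (trb a e) = trb a (rev e) := by
  obtain ⟨⟨x, y⟩, s⟩ := e
  cases s <;> refine Prod.ext (Prod.ext ?_ ?_) rfl <;> simp [rev, trb] <;> ring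

theorem trb_inj {a : Pt} {e f : Bo} (h : trb a e = trb a f) : e = f := by
  unfold trb at h
  obtain ⟨h1, h2⟩ := Prod.mk.inj h
  exact Prod.ext (add_right_cancel h1) h2

theorem tb_trb (a : Pt) (b : Bool) (e : Bo) : tb b (trb a e) = trb a (tb b e) := by
  unfold tb
  rw [rev_trb]
  rfl

theorem bt_trb (a : Pt) (e : Bo) (t : List Bool) (i : ℕ) : bt (trb a e) t i = trb a (bt e t i) := by
  induction i with
  | zero => rfl
  | succ i ih =>
    show tb _ _ = trb a (tb _ _)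
    rw [ih, tb_trb]

theorem trb_surj (a : Pt) (f : Bo) : trb a (trb (-a) f) = f := by
  unfold trb
  simp

theorem ny_trc {a : Pt} {γ : Cfg} (y : Ny γ) : Ny (trc a γ) := by
  intro v
  have h := trc_apply a γ (v - a)
  rw [sub_add_cancel] at h
  rw [h]
  exact y _

/-- **the loop of a word, translated** -/
theorem lpw_trb {e : Bo} {t : List Bool} (h : t ∈ Wo) (a : Pt) : lpw (trb a e) t = trc a (lpw e t) := by
  apply ub_ext (ny_lpw _ _) (ny_trc (ny_lpw _ _))
  intro f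
  obtain ⟨g, rfl⟩ : ∃ g, f = trb a g := ⟨_, (trb_surj a f).symm⟩
  rw [ub_trc, ub_lpw ((mem_wo _).1 h), ub_lpw ((mem_wo _).1 h)]
  unfold Os
  simp only [bt_trb, rev_trb]
  constructor
  · rintro ⟨i, hi, h1 | h1⟩
    · exact ⟨i, hi, Or.inl (trb_inj h1)⟩
    · exact ⟨i, hi, Or.inr (trb_inj h1)⟩
  · rintro ⟨i, hi, h1 | h1⟩
    · exact ⟨i, hi, Or.inl (by rw [h1])⟩
    · exact ⟨i, hi, Or.inr (by rw [h1])⟩

theorem hl_trc {a : Pt} {γ : Cfg} : HL (trc a γ) ↔ HL γ := by
  have key : ∀ {a : Pt} {γ : Cfg}, HL γ → HL (trc a γ) := fun l => ⟨((trS _).lp_iff _).2 l.lp, ny_trc l.ny⟩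
  refine ⟨fun h => ?_, key⟩
  have h1 := key (a := -a) h
  have h2 : trc (-a) (trc a γ) = γ := by
    ext v
    have h3 := trc_apply (-a) (trc a γ) (v + a)
    rw [add_neg_cancel_right] at h3
    rw [h3, trc_apply]
  rwa [h2] at h1

theorem hs_trc (a : Pt) (γ : Cfg) : (hs (trc a γ)).card = (hs γ).card := by
  classical
  have h : hs (trc a γ) = (hs γ).image fun p => p + wh a := by
    ext p
    rw [mem_hs, Finset.mem_image]
    have hst : ∀ f : Bo, st (trb a f) = st f + wh a := by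
      rintro ⟨⟨x, y⟩, s⟩
      cases s <;> refine Prod.ext ?_ ?_ <;> simp [st, trb, wi, wh, bk] <;> ring
    constructor
    · rintro ⟨f, hf, rfl⟩
      obtain ⟨g, rfl⟩ : ∃ g, f = trb a g := ⟨_, (trb_surj a f).symm⟩
      rw [ub_trc] at hf
      exact ⟨st g, mem_hs.2 ⟨g, hf, rfl⟩, (hst g).symm⟩
    · rintro ⟨q, hq, rfl⟩
      obtain ⟨g, hg, rfl⟩ := mem_hs.1 hq
      exact ⟨trb a g, (ub_trc a γ g).2 hg, hst g⟩
  rw [h, Finset.card_image_of_injective]
  intro x y hxy
  exact add_right_cancel hxy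

instance : Fintype Sx := ⟨sxs, mem_sxs⟩

theorem hs_pos {γ : Cfg} (l : HL γ) : 0 < (hs γ).card := by
  obtain ⟨e, he⟩ := ex_ub l
  exact Finset.card_pos.2 ⟨st e, mem_hs.2 ⟨e, he, rfl⟩⟩

/-- **mass transport**: the loops with the marked point at the origin and the words of the six classes of roots -/
theorem mtp {top : Cfg → Pt} (ht : ∀ a γ, HL γ → top (trc a γ) = top γ + a) (G : Cfg → ℝ≥0∞)
    (hG : ∀ a γ, HL γ → G (trc a γ) = G γ) :
    ∑' γ : {γ : Cfg // HL γ ∧ top γ = 0}, wl γ.1 * G γ.1 =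
      ∑ s : Sx, ∑' t : Wo, HexObs.wE t * (G (lpw (0, s) t) / (2 * (t : List Bool).length)) := by
  classical
  set G' : Cfg → ℝ≥0∞ := fun γ => if top γ = 0 then G γ / (2 * (hs γ).card) else 0 with hG'
  have h1 := sum_loop G'
  have h2 : ∑' γ : {γ : Cfg // HL γ}, 2 * (hs γ.1).card * (wl γ.1 * G' γ.1) =
      ∑' γ : {γ : Cfg // HL γ ∧ top γ = 0}, wl γ.1 * G γ.1 := by
    have h3 : ∀ γ : {γ : Cfg // HL γ}, 2 * ((hs γ.1).card : ℝ≥0∞) * (wl γ.1 * G' γ.1) =
        {γ : Cfg | top γ = 0}.indicator (fun γ => wl γ * G γ) γ.1 := by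
      rintro ⟨γ, l⟩
      have hp := hs_pos l
      have hc : (2 * ((hs γ).card : ℝ≥0∞)) ≠ 0 := by
        simp only [ne_eq, mul_eq_zero, OfNat.ofNat_ne_zero, Nat.cast_eq_zero, false_or]
        omega
      have hc' : (2 * ((hs γ).card : ℝ≥0∞)) ≠ ⊤ := ENNReal.mul_ne_top (by simp) (by simp)
      by_cases h : top γ = 0
      · rw [Set.indicator_of_mem (by exact h), hG']
        simp only [h, if_true]
        rw [mul_left_comm, ENNReal.mul_div_cancel hc hc']
      · rw [Set.indicator_of_notMem (by exact h), hG']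
        simp only [h, if_false, mul_zero]
    rw [tsum_congr h3]
    have h4 := tsum_subtype {γ : Cfg | HL γ} ({γ : Cfg | top γ = 0}.indicator fun γ => wl γ * G γ)
    have h5 := tsum_subtype {γ : Cfg | HL γ ∧ top γ = 0} (fun γ => wl γ * G γ)
    refine h4.trans (Eq.trans ?_ h5.symm)
    apply tsum_congr
    intro γ
    simp only [Set.indicator_apply, Set.mem_ofPred_eq]
    by_cases h6 : HL γ <;> by_cases h7 : top γ = 0 <;> simp [h6, h7]
  rw [← h2, h1]
  have h3 : ∑' e : Bo, ∑' t : Wo, HexObs.wE t * G' (lpw e t) =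
      ∑' v : Pt, ∑' s : Sx, ∑' t : Wo, HexObs.wE t * G' (lpw (v, s) t) :=
    ENNReal.tsum_prod (f := fun (v : Pt) (s : Sx) => ∑' t : Wo, HexObs.wE t * G' (lpw (v, s) t))
  rw [h3, ENNReal.tsum_comm, tsum_fintype]
  refine Finset.sum_congr rfl fun s _ => ?_
  rw [ENNReal.tsum_comm]
  apply tsum_congr
  intro t
  have ht' := (mem_wo ((0 : Pt), s)).1 t.2
  have l : HL (lpw (0, s) t) := ⟨lp_lpw ht', ny_lpw _ _⟩
  have h4 : ∀ v : Pt, lpw (v, s) t = trc v (lpw (0, s) t) := by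
    intro v
    rw [← lpw_trb t.2]
    unfold trb
    simp
  rw [tsum_eq_single (-top (lpw (0, s) t))]
  · rw [h4, hG']
    simp only
    rw [if_pos (by rw [ht _ _ l, add_neg_cancel]), hG _ _ l, hs_trc, card_lpw t.2]
  · intro v hv
    rw [h4, hG']
    simp only
    rw [if_neg, mul_zero]
    rw [ht _ _ l]
    intro h5
    apply hv
    rw [eq_neg_iff_add_eq_zero, add_comm]
    exact h5

/-! ### families with one member -/

/-- a configuration as a family -/
noncomputable def fm1 : Cfg ≃ Fm Unit where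
  toFun γ := γ.mapRange (fun c _ => c) rfl
  invFun γ := co γ ()
  left_inv γ := by
    ext v
    simp [co]
  right_inv γ := by
    ext v i
    simp [co]

theorem co_fm1 (γ : Cfg) : co (fm1 γ) () = γ := fm1.left_inv γ

theorem fam_one (γ : Fm Unit) : Fam γ ↔ Lp (co γ ()) :=
  ⟨fun h => h.lp (), fun h => ⟨fun _ => h, fun v => ⟨_, un_one γ v⟩⟩⟩

/-- **sums with the measure of the honeycomb** -/
theorem sum_M (F : Fm Unit → ℝ≥0∞) :
    ∑' γ : {γ : Fm Unit // Fam γ}, ENNReal.ofReal (M (fun _ => Real.pi / 8) γ.1) * F γ.1 =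
      ∑' γ : {γ : Cfg // HL γ}, wl γ.1 * F (fm1 γ.1) := by
  classical
  have h4 := tsum_subtype {γ : Fm Unit | Fam γ} (fun γ => ENNReal.ofReal (M (fun _ => Real.pi / 8) γ) * F γ)
  have h5 := tsum_subtype {γ : Cfg | HL γ} (fun γ => wl γ * F (fm1 γ))
  refine h4.trans (Eq.trans ?_ h5.symm)
  rw [← fm1.tsum_eq]
  apply tsum_congr
  intro γ
  have e1 := co_fm1 γ
  simp only [Set.indicator_apply, Set.mem_ofPred_eq, fam_one, e1, M_one]
  by_cases h1 : Lp γ
  · by_cases h2 : Ny γ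
    · rw [if_pos h1, if_pos h2, if_pos ⟨h1, h2⟩]
      rfl
    · rw [if_pos h1, if_neg h2, if_neg (fun h => h2 h.ny), ENNReal.ofReal_zero, zero_mul]
  · rw [if_neg h1, if_neg (fun h => h1 h.lp)]

end Pool.Agent.ROT.E.Hx
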