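import Pool.Agent.ROT.LLab
import Pool.Agent.ROT.EHexS

/-!
# ROT, row A6: families on the graph `g0` = families of the square lattice = tuples of disjoint honeycomb loops
-/

set_option autoImplicit false

namespace Pool.Agent.ROT.A6

open Pool.Agent.YBC (Dir)
open Pool.Agent.UNI (wR)
open Pool.Agent.ROT.E (Cell IsUn Pt nx He Cfg Fm)
open Pool.Agent.ROT.E.Hx (HL hs vs Ny wl)

variable {I : Type}

/-! ### the crossing is not used -/

/-- a configuration of the lattice on the graph with the crossing -/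
noncomputable def up1 (γ : Cfg) : L.VX →₀ Cell := γ.embDomain Function.Embedding.some

/-- a family of the lattice on the graph with the crossing -/
noncomputable def up (γ : Fm I) : L.VX →₀ (I → Cell) := γ.embDomain Function.Embedding.some

theorem up1_some (γ : Cfg) (v : Pt) : up1 γ (some v) = γ v :=
  Finsupp.embDomain_apply_self Function.Embedding.some γ v

theorem up1_none (γ : Cfg) : up1 γ none = .o :=
  Finsupp.embDomain_of_notMem_range _ _ _ (by simp)

theorem up_some (γ : Fm I) (v : Pt) : up γ (some v) = γ v :=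
  Finsupp.embDomain_apply_self Function.Embedding.some γ v

theorem up_none (γ : Fm I) : up γ none = 0 :=
  Finsupp.embDomain_of_notMem_range _ _ _ (by simp)

theorem co_up (γ : Fm I) (i : I) : L.co (up γ) i = up1 (E.co γ i) := by
  ext v
  rcases v with _ | v
  · show up γ none i = _
    rw [up_none, up1_none]; rfl
  · show up γ (some v) i = _
    rw [up_some, up1_some]; rfl

theorem up_inj {γ γ' : Fm I} (h : up γ = up γ') : γ = γ' := Finsupp.embDomain_injective _ h

theorem up_some' {γ : L.VX →₀ (I → Cell)} (h : γ none = 0) : up γ.some = γ := by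
  ext v i
  rcases v with _ | v
  · rw [up_none, h]
  · rw [up_some]; rfl

/-- the half edges of the lattice -/
def ph (h : He) : L.VX × Dir := (some h.1, h.2)

theorem oc_ph (γ : Cfg) (h : He) : L.oc (up1 γ) (ph h) ↔ E.oc γ h := by
  unfold L.oc E.oc ph
  rw [up1_some]

theorem oc_none (γ : Cfg) (d : Dir) : ¬ L.oc (up1 γ) (none, d) := by
  unfold L.oc
  rw [up1_none]
  exact E.Lab.not_oc_o d

theorem vp_ph (γ : Cfg) (h : He) : L.vp (up1 γ) (ph h) = ph (E.vp γ h) := by
  unfold L.vp E.vp ph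
  rw [up1_some]

theorem e_ph (h : He) : L.g0.e (ph h) = ph (E.rv h) := rfl

theorem cn_ph {γ : Cfg} {h k : He} (c : E.Cn γ Set.univ h k) : L.Cn L.g0 (up1 γ) Set.univ (ph h) (ph k) := by
  induction c with
  | rel x y l =>
    refine Relation.EqvGen.rel _ _ ⟨(oc_ph γ x).2 l.1, trivial, ?_⟩
    rcases l.2.2 with rfl | ⟨rfl, -⟩
    · exact Or.inl (vp_ph γ x).symm
    · exact Or.inr ⟨rfl, trivial⟩
  | refl x => exact L.cn_refl _
  | symm x y _ ih => exact L.cn_symm ih
  | trans x y z _ _ ih1 ih2 => exact L.cn_trans ih1 ih2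

theorem ph_cn {γ : Cfg} {h k : He} (c : L.Cn L.g0 (up1 γ) Set.univ (ph h) (ph k)) : E.Cn γ Set.univ h k := by
  have key := L.cn_iff (G := L.g0) (δ := up1 γ) (B := Set.univ)
    (P := fun x => ∃ y : He, x = ph y ∧ E.Cn γ Set.univ h y) (by
      rintro ⟨_ | v, d⟩ y ⟨ho, -, hy⟩
      · exact absurd ho (oc_none γ d)
      · have ho' : E.oc γ (v, d) := (oc_ph γ (v, d)).1 ho
        rcases hy with rfl | ⟨rfl, -⟩
        · rw [show ((some v, d) : L.VX × Dir) = ph (v, d) from rfl, vp_ph]
          constructor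
          · rintro ⟨z, hz, hc⟩
            have : z = (v, d) := by
              unfold ph at hz
              simp only [Prod.mk.injEq, Option.some.injEq] at hz
              exact Prod.ext hz.1.symm hz.2.symm
            subst this
            exact ⟨_, rfl, hc.trans _ _ _ (E.Lab.cn_vp ho' trivial)⟩
          · rintro ⟨z, hz, hc⟩
            have : z = E.vp γ (v, d) := by
              unfold ph at hz
              simp only [Prod.mk.injEq, Option.some.injEq] at hz
              exact Prod.ext hz.1.symm hz.2.symm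
            subst this
            exact ⟨_, rfl, hc.trans _ _ _ (E.Lab.cn_symm (E.Lab.cn_vp ho' trivial))⟩
        · rw [show ((some v, d) : L.VX × Dir) = ph (v, d) from rfl, e_ph]
          constructor
          · rintro ⟨z, hz, hc⟩
            have : z = (v, d) := by
              unfold ph at hz
              simp only [Prod.mk.injEq, Option.some.injEq] at hz
              exact Prod.ext hz.1.symm hz.2.symm
            subst this
            exact ⟨_, rfl, hc.trans _ _ _ (E.Lab.cn_rv ho' trivial trivial)⟩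
          · rintro ⟨z, hz, hc⟩
            have : z = E.rv (v, d) := by
              unfold ph at hz
              simp only [Prod.mk.injEq, Option.some.injEq] at hz
              exact Prod.ext hz.1.symm hz.2.symm
            subst this
            exact ⟨_, rfl, hc.trans _ _ _ (E.Lab.cn_symm (E.Lab.cn_rv ho' trivial trivial))⟩) c
  obtain ⟨y, hy, hc⟩ := key.1 ⟨h, rfl, E.Lab.cn_refl h⟩
  have : y = k := by
    unfold ph at hy
    simp only [Prod.mk.injEq, Option.some.injEq] at hy
    exact Prod.ext hy.1.symm hy.2.symm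
  exact this ▸ hc

theorem mt_up1 (γ : Cfg) : L.Mt L.g0 (up1 γ) Set.univ ↔ E.Mt γ Set.univ := by
  constructor
  · intro h k _ _
    have := h (ph k) trivial trivial
    rw [e_ph, oc_ph, oc_ph] at this
    exact this
  · rintro h ⟨_ | v, d⟩ - -
    · exact Iff.rfl
    · have := h (v, d) trivial trivial
      rw [← oc_ph, ← oc_ph] at this
      exact this

theorem up1_ne (γ : Cfg) : up1 γ ≠ 0 ↔ γ ≠ 0 := by
  unfold up1
  rw [not_iff_not, Finsupp.embDomain_eq_zero]

theorem lp_up1 (γ : Cfg) : L.Lp L.g0 (up1 γ) ↔ E.Lp γ := by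
  constructor
  · intro h
    exact ⟨(mt_up1 γ).1 h.mt, (up1_ne γ).1 h.ne, fun x y hx hy =>
      ph_cn (h.cn _ _ ((oc_ph γ x).2 hx) ((oc_ph γ y).2 hy))⟩
  · intro h
    refine ⟨(mt_up1 γ).2 h.mt, (up1_ne γ).2 h.ne, ?_⟩
    rintro ⟨_ | v, d⟩ ⟨_ | w, e⟩ hx hy
    · exact absurd hx (oc_none γ d)
    · exact absurd hx (oc_none γ d)
    · exact absurd hy (oc_none γ e)
    · exact cn_ph (h.cn (v, d) (w, e) ((oc_ph γ (v, d)).1 hx) ((oc_ph γ (w, e)).1 hy))

/-- **families on `g0` which do not use the crossing** -/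
theorem fam_up (γ : Fm I) : L.Fam L.g0 (up γ) ↔ E.Fam γ := by
  constructor
  · intro h
    refine ⟨fun i => (lp_up1 _).1 (co_up γ i ▸ h.lp i), fun v => ?_⟩
    have := h.dj (some v)
    rwa [up_some] at this
  · intro h
    refine ⟨fun i => ?_, fun v => ?_⟩
    · rw [co_up]
      exact (lp_up1 _).2 (h.lp i)
    · rcases v with _ | v
      · rw [up_none]
        exact ⟨.o, E.Lab.un_zero⟩
      · rw [up_some]
        exact h.dj v

/-- **families of the graph and of the lattice** -/
noncomputable def upE : {γ : Fm I // E.Fam γ} ≃ {γ : L.VX →₀ (I → Cell) // L.Fam L.g0 γ ∧ γ none = 0} where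
  toFun γ := ⟨up γ.1, (fam_up γ.1).2 γ.2, up_none γ.1⟩
  invFun γ := ⟨γ.1.some, (fam_up _).1 (by rw [up_some' γ.2.2]; exact γ.2.1)⟩
  left_inv γ := by
    apply Subtype.ext
    apply up_inj
    exact up_some' (up_none γ.1)
  right_inv γ := by
    apply Subtype.ext
    exact up_some' γ.2.2

/-! ### tuples of disjoint loops -/

/-- the cells of disjoint members have a union -/
theorem un_of_disj {f : I → Cell} {v : Pt} (h1 : ∀ i, f i ≠ .y) (h2 : ∀ i k, i ≠ k → Disjoint (vs v (f i)) (vs v (f k))) :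
    ∃ c, IsUn f c := by
  classical
  have hy : ∀ c : Cell, c ≠ .o → c ≠ .y → (vs v c = {E.Hx.wh v} ∧ c = .sw) ∨ (vs v c = {E.Hx.bk v} ∧ c = .ne) ∨
      vs v c = {E.Hx.wh v, E.Hx.bk v} := by
    intro c
    cases c <;> simp [vs, Cell.oc, Cell.p]
  by_cases h0 : ∀ i, f i = .o
  · refine ⟨.o, ?_⟩
    rw [show f = fun _ => Cell.o from funext h0]
    exact E.Lab.un_zero
  push Not at h0
  obtain ⟨i, hi⟩ := h0
  by_cases h3 : ∀ k, k ≠ i → f k = .o
  · refine ⟨f i, fun k d hd => ?_, fun k k' d hk hk' => ?_, fun d hd => ⟨i, hd⟩⟩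
    · by_cases hk : k = i
      · rw [hk]
      · rw [h3 k hk] at hd
        exact absurd hd (E.Lab.not_oc_o d)
    · by_cases e : k = i
      · by_cases e' : k' = i
        · rw [e, e']
        · rw [h3 k' e'] at hk'
          exact absurd hk' (E.Lab.not_oc_o d)
      · rw [h3 k e] at hk
        exact absurd hk (E.Lab.not_oc_o d)
  push Not at h3
  obtain ⟨k, hki, hk⟩ := h3
  have hd := h2 i k (Ne.symm hki)
  have hwb : E.Hx.wh v ≠ E.Hx.bk v := E.Hx.wh_ne_bk v v
  have key : ∀ a b : I, a ≠ b → f a = .sw → f b = .ne → IsUn f .x := by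
    intro a b hab ha hb
    have h4 : ∀ l, l ≠ a → l ≠ b → f l = .o := by
      intro l hla hlb
      by_contra hl
      have d1 := h2 l a hla
      have d2 := h2 l b hlb
      rw [ha] at d1
      rw [hb] at d2
      have e1 : vs v .sw = {E.Hx.wh v} := by simp [vs, Cell.oc, Cell.p]
      have e2 : vs v .ne = {E.Hx.bk v} := by simp [vs, Cell.oc, Cell.p]
      rw [e1, Finset.disjoint_singleton_right] at d1
      rw [e2, Finset.disjoint_singleton_right] at d2
      rcases hy (f l) hl (h1 l) with ⟨e, -⟩ | ⟨e, -⟩ | e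
      · exact d1 (by rw [e]; simp)
      · exact d2 (by rw [e]; simp)
      · exact d1 (by rw [e]; simp)
    have hcase : ∀ l d, (f l).oc d → (l = a ∧ (d = .S ∨ d = .W)) ∨ (l = b ∧ (d = .N ∨ d = .E)) := by
      intro l d hl
      by_cases e1 : l = a
      · left
        refine ⟨e1, ?_⟩
        rw [e1, ha] at hl
        cases d <;> simp_all [Cell.oc, Cell.p]
      · by_cases e2 : l = b
        · right
          refine ⟨e2, ?_⟩
          rw [e2, hb] at hl
          cases d <;> simp_all [Cell.oc, Cell.p]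
        · rw [h4 l e1 e2] at hl
          exact absurd hl (E.Lab.not_oc_o d)
    refine ⟨fun l d hl => ?_, fun l l' d hl hl' => ?_, fun d _ => ?_⟩
    · rcases hcase l d hl with ⟨rfl, rfl | rfl⟩ | ⟨rfl, rfl | rfl⟩
      · rw [ha]; rfl
      · rw [ha]; rfl
      · rw [hb]; rfl
      · rw [hb]; rfl
    · rcases hcase l d hl with ⟨rfl, h5⟩ | ⟨rfl, h5⟩ <;> rcases hcase l' d hl' with ⟨rfl, h6⟩ | ⟨rfl, h6⟩
      · rfl
      · rcases h5 with rfl | rfl <;> rcases h6 with h6 | h6 <;> exact absurd h6 (by decide)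
      · rcases h5 with rfl | rfl <;> rcases h6 with h6 | h6 <;> exact absurd h6 (by decide)
      · rfl
    · cases d
      · exact ⟨b, by rw [hb]; decide⟩
      · exact ⟨b, by rw [hb]; decide⟩
      · exact ⟨a, by rw [ha]; decide⟩
      · exact ⟨a, by rw [ha]; decide⟩
  rcases hy (f i) hi (h1 i) with ⟨e1, e1'⟩ | ⟨e1, e1'⟩ | e1 <;> rcases hy (f k) hk (h1 k) with ⟨e2, e2'⟩ | ⟨e2, e2'⟩ | e2 <;>
    rw [e1, e2] at hd
  · simp at hd
  · exact ⟨.x, key i k (Ne.symm hki) e1' e2'⟩
  · simp at hd
  · exact ⟨.x, key k i hki e2' e1'⟩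
  · simp at hd
  · simp at hd
  · simp at hd
  · simp at hd
  · simp at hd

variable [Fintype I]

open Classical in
/-- the family of a tuple -/
noncomputable def tup (g : I → Cfg) : Fm I :=
  Finsupp.onFinset (Finset.univ.biUnion fun i => (g i).support) (fun v i => g i v) (by
    intro v hv
    rw [Finset.mem_biUnion]
    obtain ⟨i, hi⟩ := Function.ne_iff.1 hv
    exact ⟨i, Finset.mem_univ _, Finsupp.mem_support_iff.2 hi⟩)

theorem tup_apply (g : I → Cfg) (v : Pt) (i : I) : tup g v i = g i v := rfl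

theorem co_tup (g : I → Cfg) (i : I) : E.co (tup g) i = g i := by
  ext v; rfl

theorem tup_co (γ : Fm I) : tup (fun i => E.co γ i) = γ := by
  ext v i; rfl

theorem fam_tup {g : I → Cfg} (h1 : ∀ i, HL (g i)) (h2 : Pairwise fun i k => Disjoint (hs (g i)) (hs (g k))) :
    E.Fam (tup g) := by
  refine ⟨fun i => by rw [co_tup]; exact (h1 i).lp, fun v => ?_⟩
  refine un_of_disj (v := v) (fun i => (h1 i).ny v) (fun i k hik => ?_)
  have hd := h2 hik
  rw [Finset.disjoint_left]
  intro p h3 h4
  exact Finset.disjoint_left.1 hd (E.Hx.mem_hs'.2 ⟨v, h3⟩) (E.Hx.mem_hs'.2 ⟨v, h4⟩)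

/-- honeycomb loops -/
abbrev HLs := {γ : Cfg // HL γ}

/-- pairwise disjoint tuples -/
def PD (g : I → HLs) : Prop := Pairwise fun i k => Disjoint (hs (g i).1) (hs (g k).1)

/-- the real weight of a loop -/
noncomputable def wr (γ : HLs) : ℝ := HexObs.xc ^ (hs γ.1).card

theorem M_tup {g : I → HLs} (h : PD g) : E.M (fun _ => Real.pi / 8) (tup fun i => (g i).1) = ∏ i, wr (g i) := by
  rw [E.Hx.M_fam (fam_tup (fun i => (g i).2) h), if_pos]
  · refine Finset.prod_congr rfl fun i _ => ?_
    rw [co_tup]; rfl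
  · refine ⟨fun i => by rw [co_tup]; exact (g i).2, fun i k hik => ?_⟩
    simp only [co_tup]
    exact h hik

/-- **the families of nonzero weight are the tuples of disjoint honeycomb loops** -/
noncomputable def tupE : {g : I → HLs // PD g} ≃ {γ : Fm I // E.Fam γ ∧ E.M (fun _ => Real.pi / 8) γ ≠ 0} where
  toFun g := ⟨tup fun i => (g.1 i).1, fam_tup (fun i => (g.1 i).2) g.2, by
    rw [M_tup g.2]
    exact (Finset.prod_pos fun i _ => pow_pos HexObs.xc_pos _).ne'⟩
  invFun γ := ⟨fun i => ⟨E.co γ.1 i, by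
      have h := γ.2.2
      rw [E.Hx.M_fam γ.2.1] at h
      split_ifs at h with h3
      · exact h3.1 i
      · exact absurd rfl h⟩, by
      have h := γ.2.2
      rw [E.Hx.M_fam γ.2.1] at h
      split_ifs at h with h3
      · exact h3.2
      · exact absurd rfl h⟩
  left_inv g := by
    apply Subtype.ext
    funext i
    apply Subtype.ext
    exact co_tup _ i
  right_inv γ := by
    apply Subtype.ext
    exact tup_co γ.1

open Classical in
/-- **sums over families** -/
theorem sum_fam (F : Fm I → ℝ) :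
    ∑' γ : {γ : Fm I // E.Fam γ}, E.M (fun _ => Real.pi / 8) γ.1 * F γ.1 =
      ∑' g : {g : I → HLs // PD g}, (∏ i, wr (g.1 i)) * F (tup fun i => (g.1 i).1) := by
  have h4 := tsum_subtype {γ : Fm I | E.Fam γ} (fun γ => E.M (fun _ => Real.pi / 8) γ * F γ)
  have h5 := tsum_subtype {γ : Fm I | E.Fam γ ∧ E.M (fun _ => Real.pi / 8) γ ≠ 0}
    (fun γ => E.M (fun _ => Real.pi / 8) γ * F γ)
  have h6 : ∑' γ : {γ : Fm I // E.Fam γ ∧ E.M (fun _ => Real.pi / 8) γ ≠ 0}, E.M (fun _ => Real.pi / 8) γ.1 * F γ.1 =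
      ∑' γ : {γ : Fm I // E.Fam γ}, E.M (fun _ => Real.pi / 8) γ.1 * F γ.1 := by
    refine h5.trans (Eq.trans ?_ h4.symm)
    apply tsum_congr
    intro γ
    simp only [Set.indicator_apply, Set.mem_ofPred_eq]
    by_cases h1 : E.Fam γ <;> by_cases h2 : E.M (fun _ => Real.pi / 8) γ = 0 <;> simp [h1, h2]
  rw [← h6, ← tupE.tsum_eq]
  apply tsum_congr
  rintro ⟨g, hg⟩
  show E.M (fun _ => Real.pi / 8) (tup fun i => (g i).1) * _ = _
  rw [M_tup hg]
  rfl

end Pool.Agent.ROT.A6
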