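import Pool.Agent.ROT.AreaB

/-!
# ROT, row N2 (helper81): AREA, NEAR and FAR at word level

* **`areaW`** : the mass of the closed words of diameter at least `D` (every number of steps, modulo the root), each counted
  with the number of the points within `R` of it, is at most `C (R / D) ^ (1 / 2)`, for `K0 ≤ R ≤ D / 4`.
-/

set_option autoImplicit false

namespace HexObs

namespace PMA

namespace Area

open Finset TS SDN HexObs.SIM NTA TIP ARM ARM.T2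

open scoped ENNReal

/-- the closed words that reach the distance `D` -/
def FarC (D : ℝ) (n : ℕ) : Set (List Bool) := {t | t ∈ C0 n ∧ ∃ k : ℕ, k ≤ n ∧ D ≤ TIW.hn (vx oo up t k)}

/-- the points within `R` -/
def nb (R : ℝ) (t : List Bool) : Set Pt := {p | ∃ i : ℕ, i ≤ t.length ∧ ((TIW.hn (vx oo up t i - p) : ℤ) : ℝ) ≤ R}

lemma nb_sub_cov {R : ℝ} {i : ℕ} (h : R ≤ 2 ^ i) (t : List Bool) : nb R t ⊆ cov (2 ^ i) t := by
  rintro p ⟨k, hk, h1⟩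
  refine ⟨k, hk, ?_⟩
  have h2 : ((TIW.hn (vx oo up t k - p) : ℤ) : ℝ) ≤ ((2 ^ i : ℤ) : ℝ) := by
    push_cast
    linarith
  exact_mod_cast h2

lemma cov_fin (i : ℕ) (t : List Bool) : (cov (2 ^ i) t).Finite := by
  have h1 : cov (2 ^ i) t ⊆ ⋃ k ∈ Finset.range (t.length + 1), {p : Pt | TIW.hn (vx oo up t k - p) ≤ ((2 ^ i : ℕ) : ℤ)} := by
    rintro p ⟨k, h3, h4⟩
    rw [Set.mem_iUnion₂]
    refine ⟨k, Finset.mem_range.2 (by omega), ?_⟩
    show TIW.hn (vx oo up t k - p) ≤ _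
    push_cast
    exact h4
  exact ((Finset.range (t.length + 1)).finite_toSet.biUnion fun k _ => (ball_card _ _).1).subset h1

open Classical in
/-- the points near a short word -/
lemma nb_bound {R D : ℝ} (hD : 1 ≤ D) (hR0 : 0 ≤ R) (hR : R ≤ D) {n : ℕ} {t : List Bool} (ht : t ∈ FarC D n) :
    ((nb R t).ncard : ℝ≥0∞) ≤ ∑' k : ℕ, ENNReal.ofReal (4 ^ (k + 5) * D ^ 2) *
      (if (∃ j : ℕ, j ≤ n ∧ 2 ^ k * D ≤ TIW.hn (vx oo up t j)) then 1 else 0) := by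
  have hD0 : 0 < D := by linarith
  obtain ⟨hC, j0, hj0, hDj⟩ := ht
  have hlen : t.length = n := (C0_mem hC).2.1
  have hex : ∃ k : ℕ, ¬ ∃ j : ℕ, j ≤ n ∧ 2 ^ k * D ≤ TIW.hn (vx oo up t j) := by
    refine ⟨2 * n, ?_⟩
    rintro ⟨j, hj, h⟩
    have h1 := hn_lin t j
    have h2 : ((TIW.hn (vx oo up t j) : ℤ) : ℝ) ≤ 2 * n := by
      have h3 : ((TIW.hn (vx oo up t j) : ℤ) : ℝ) ≤ ((2 * j : ℤ) : ℝ) := by exact_mod_cast h1
      have h4 : (j : ℝ) ≤ n := by exact_mod_cast hj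
      push_cast at h3
      linarith
    have h5 : ((2 * n : ℕ) : ℝ) < 2 ^ (2 * n) := by exact_mod_cast Nat.lt_two_pow_self
    push_cast at h5
    have h6 : (2 : ℝ) ^ (2 * n) ≤ 2 ^ (2 * n) * D := le_mul_of_one_le_right (by positivity) hD
    linarith
  obtain ⟨m, hm⟩ : ∃ m, m = Nat.find hex := ⟨_, rfl⟩
  have hm1 : ¬ ∃ j : ℕ, j ≤ n ∧ 2 ^ m * D ≤ TIW.hn (vx oo up t j) := by rw [hm]; exact Nat.find_spec hex
  have hm0 : m ≠ 0 := by
    intro h0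
    rw [h0] at hm1
    exact hm1 ⟨j0, hj0, by rw [pow_zero, one_mul]; exact hDj⟩
  obtain ⟨k, hk⟩ : ∃ k, m = k + 1 := ⟨m - 1, by omega⟩
  have hk1 : ∃ j : ℕ, j ≤ n ∧ 2 ^ k * D ≤ TIW.hn (vx oo up t j) := by
    have := Nat.find_min hex (m := k) (by omega)
    exact not_not.1 this
  refine le_trans ?_ (ENNReal.le_tsum k)
  rw [if_pos hk1, mul_one]
  rw [hk] at hm1
  push Not at hm1
  obtain ⟨T, hT⟩ : ∃ T : ℕ, T = ⌊2 ^ (k + 1) * D + R⌋₊ := ⟨_, rfl⟩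
  have hsub : nb R t ⊆ {p : Pt | TIW.hn (0 - p) ≤ (T : ℤ)} := by
    rintro p ⟨j, hj, h1⟩
    rw [hlen] at hj
    have h2 := hm1 j hj
    have h3 := TIW.hn_sub (vx oo up t j - p) (vx oo up t j)
    have h4 : vx oo up t j - p - vx oo up t j = 0 - p := by abel
    rw [h4] at h3
    have h5 : ((TIW.hn (0 - p) : ℤ) : ℝ) ≤ 2 ^ (k + 1) * D + R := by
      have h6 : ((TIW.hn (0 - p) : ℤ) : ℝ) ≤ ((TIW.hn (vx oo up t j - p) + TIW.hn (vx oo up t j) : ℤ) : ℝ) := by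
        exact_mod_cast h3
      push_cast at h6
      linarith
    show TIW.hn (0 - p) ≤ (T : ℤ)
    have h7 : TIW.hn (0 - p) = ((TIW.hn (0 - p)).toNat : ℤ) := (Int.toNat_of_nonneg (TIW.hn_nonneg _)).symm
    rw [h7, hT]
    have h8 : (TIW.hn (0 - p)).toNat ≤ ⌊2 ^ (k + 1) * D + R⌋₊ := by
      refine Nat.le_floor ?_
      have h9 : (((TIW.hn (0 - p)).toNat : ℕ) : ℝ) = ((TIW.hn (0 - p) : ℤ) : ℝ) := by
        rw [← Int.cast_natCast, ← h7]
      rw [h9]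
      exact h5
    exact_mod_cast h8
  have h1 : (nb R t).ncard ≤ (2 * T + 1) ^ 2 := (Set.ncard_le_ncard hsub (ball_card _ _).1).trans (ball_card _ _).2
  have hTr : (T : ℝ) ≤ 2 ^ (k + 2) * D := by
    have h2 : (T : ℝ) ≤ 2 ^ (k + 1) * D + R := by
      rw [hT]
      exact Nat.floor_le (by positivity)
    have h3 : (2 : ℝ) ^ (k + 2) * D = 2 ^ (k + 1) * D + 2 ^ (k + 1) * D := by rw [pow_succ]; ring
    have h4 : D ≤ 2 ^ (k + 1) * D := le_mul_of_one_le_left hD0.le (one_le_pow₀ (by norm_num))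
    linarith
  have h2 : (((nb R t).ncard : ℕ) : ℝ) ≤ 4 ^ (k + 5) * D ^ 2 := by
    have h3 : (((nb R t).ncard : ℕ) : ℝ) ≤ (2 * T + 1) ^ 2 := by exact_mod_cast h1
    have h4 : (2 : ℝ) * T + 1 ≤ 2 ^ (k + 4) * D := by
      have h5 : (1 : ℝ) ≤ 2 ^ (k + 2) * D := by
        have : (1 : ℝ) ≤ 2 ^ (k + 2) := one_le_pow₀ (by norm_num)
        nlinarith
      have h6 : (2 : ℝ) ^ (k + 4) * D = 4 * (2 ^ (k + 2) * D) := by
        rw [show k + 4 = k + 2 + 2 by ring, pow_add (2 : ℝ) (k + 2) 2]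
        ring
      linarith
    have h7 : (2 * (T : ℝ) + 1) ^ 2 ≤ (2 ^ (k + 4) * D) ^ 2 := pow_le_pow_left₀ (by positivity) h4 2
    have h8 : ((2 : ℝ) ^ (k + 4) * D) ^ 2 ≤ 4 ^ (k + 5) * D ^ 2 := by
      rw [mul_pow, ← pow_mul, mul_comm (k + 4) 2, pow_mul]
      norm_num
      refine mul_le_mul_of_nonneg_right (pow_le_pow_right₀ (by norm_num) (by omega)) (by positivity)
    linarith
  rw [← ENNReal.ofReal_natCast]
  exact ENNReal.ofReal_le_ofReal h2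

/-- **short words** -/
lemma short_n : ∃ (C : ℝ) (n0 : ℕ), 0 < C ∧ ∀ (n : ℕ) (R D : ℝ), n0 ≤ n → 1 ≤ D → 0 ≤ R → R ≤ D → (n : ℝ) ^ (3 / 4 : ℝ) ≤ D →
    gs (FarC D n) (fun t => ((nb R t).ncard : ℝ≥0∞)) ≤
      ENNReal.ofReal (C * D ^ 2 * ((n : ℝ) ^ (3 / 4 : ℝ) / D) ^ 4 * (n : ℝ) ^ (-(3 / 2) : ℝ)) := by
  classical
  obtain ⟨A, n0, hA, ht⟩ := pol_tail 4
  refine ⟨2 * (A * 4 ^ 5), n0, by positivity, fun n R D hn hD hR0 hR hnD => ?_⟩
  have hD0 : 0 < D := by linarith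
  obtain ⟨ν, hν⟩ : ∃ ν : ℝ, ν = (n : ℝ) ^ (-(3 / 2) : ℝ) := ⟨_, rfl⟩
  have hν0 : 0 ≤ ν := by rw [hν]; positivity
  obtain ⟨N, hN⟩ : ∃ N : ℝ, N = (n : ℝ) ^ (3 / 4 : ℝ) := ⟨_, rfl⟩
  have hN0 : 0 ≤ N := by rw [hN]; positivity
  have h1 : gs (FarC D n) (fun t => ((nb R t).ncard : ℝ≥0∞)) ≤
      ∑' k : ℕ, ENNReal.ofReal (4 ^ (k + 5) * D ^ 2) * gf (FarC (2 ^ k * D) n) := by
    refine (gs_mono fun t ht => nb_bound hD hR0 hR ht).trans ?_
    rw [gs_tsum]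
    refine ENNReal.tsum_le_tsum fun k => ?_
    rw [gs_mul, gs_ind]
    refine mul_le_mul_right (gf_mono ?_) _
    rintro t ⟨h2, h3⟩
    exact ⟨h2.1, h3⟩
  have h2 : ∀ k : ℕ, ENNReal.ofReal (4 ^ (k + 5) * D ^ 2) * gf (FarC (2 ^ k * D) n) ≤
      ENNReal.ofReal (A * 4 ^ 5 * D ^ 2 * (N / D) ^ 4 * ν) * 2⁻¹ ^ k := by
    intro k
    have hk : (1 : ℝ) ≤ 2 ^ k := one_le_pow₀ (by norm_num)
    have h3 := ht n (2 ^ k * D) hn (hnD.trans (le_mul_of_one_le_left hD0.le hk))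
    rw [← hN, ← hν] at h3
    refine (mul_le_mul_right h3 _).trans ?_
    have e3 : (2⁻¹ : ℝ≥0∞) ^ k = ENNReal.ofReal ((1 / 2) ^ k) := by
      rw [ENNReal.ofReal_pow (by norm_num)]
      congr 1
      rw [one_div, ENNReal.ofReal_inv_of_pos (by norm_num)]
      norm_num
    rw [e3, ← ENNReal.ofReal_mul (by positivity), ← ENNReal.ofReal_mul (by positivity)]
    refine ENNReal.ofReal_le_ofReal ?_
    have e4 : (N / (2 ^ k * D)) ^ 4 = (N / D) ^ 4 * (1 / 16) ^ k := by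
      have e5 : (2 : ℝ) ^ (k * 4) = 16 ^ k := by
        rw [mul_comm, pow_mul]
        norm_num
      rw [div_pow, div_pow, mul_pow, ← pow_mul, e5, one_div, inv_pow]
      field_simp
    have e6 : (4 : ℝ) ^ (k + 5) * D ^ 2 * (A * (N / (2 ^ k * D)) ^ 4 * ν) =
        A * 4 ^ 5 * D ^ 2 * (N / D) ^ 4 * ν * (4 * (1 / 16)) ^ k := by
      rw [e4, pow_add, mul_pow]
      ring
    rw [e6]
    refine mul_le_mul_of_nonneg_left (pow_le_pow_left₀ (by norm_num) (by norm_num) k) (by positivity)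
  refine h1.trans ((ENNReal.tsum_le_tsum h2).trans ?_)
  rw [ENNReal.tsum_mul_left, ENNReal.tsum_geometric_two, ← hN, ← hν]
  have e2 : (2 : ℝ≥0∞) = ENNReal.ofReal 2 := by norm_num
  rw [e2, ← ENNReal.ofReal_mul (by positivity)]
  refine ENNReal.ofReal_le_ofReal (le_of_eq ?_)
  ring

/-! ### sums over the number of steps -/

lemma tel (x : ℝ) (hx : 2 ≤ x) : x ^ (-(3 / 2) : ℝ) ≤ 2 * ((x - 1) ^ (-(1 / 2) : ℝ) - x ^ (-(1 / 2) : ℝ)) := by
  have hx0 : 0 < x := by linarith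
  have hx1 : 0 < x - 1 := by linarith
  have e1 : x ^ (-(1 / 2) : ℝ) = (√x)⁻¹ := by rw [Real.rpow_neg hx0.le, ← Real.sqrt_eq_rpow]
  have e2 : (x - 1) ^ (-(1 / 2) : ℝ) = (√(x - 1))⁻¹ := by rw [Real.rpow_neg hx1.le, ← Real.sqrt_eq_rpow]
  have e3 : x ^ (-(3 / 2) : ℝ) = (√x)⁻¹ ^ 3 := by
    rw [← e1, ← Real.rpow_natCast, ← Real.rpow_mul hx0.le]
    norm_num
  obtain ⟨a, ha⟩ : ∃ a, a = √x := ⟨_, rfl⟩
  obtain ⟨b, hb⟩ : ∃ b, b = √(x - 1) := ⟨_, rfl⟩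
  have ha0 : 0 < a := by rw [ha]; exact Real.sqrt_pos.2 hx0
  have hb0 : 0 < b := by rw [hb]; exact Real.sqrt_pos.2 hx1
  have ha2 : a ^ 2 = x := by rw [ha, Real.sq_sqrt hx0.le]
  have hb2 : b ^ 2 = x - 1 := by rw [hb, Real.sq_sqrt hx1.le]
  have hab : b ≤ a := by rw [ha, hb]; exact Real.sqrt_le_sqrt (by linarith)
  rw [e1, e2, e3, ← ha, ← hb]
  have h1 : b⁻¹ - a⁻¹ = 1 / (a * b * (a + b)) := by
    rw [eq_div_iff (by positivity)]
    field_simp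
    nlinarith
  rw [h1, inv_pow, mul_one_div, inv_eq_one_div, div_le_div_iff₀ (by positivity) (by positivity)]
  nlinarith [mul_pos ha0 hb0, mul_nonneg ha0.le (mul_nonneg ha0.le (sub_nonneg.2 hab)), mul_nonneg (mul_nonneg ha0.le hb0.le) (sub_nonneg.2 hab)]

lemma tail_sum (m : ℕ) (hm : 1 ≤ m) : ∑' n : ℕ, (if m < n then ENNReal.ofReal ((n : ℝ) ^ (-(3 / 2) : ℝ)) else 0) ≤
    ENNReal.ofReal (2 * (m : ℝ) ^ (-(1 / 2) : ℝ)) := by
  have hm1 : (1 : ℝ) ≤ m := by exact_mod_cast hm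
  have key : ∀ k : ℕ, ∑ n ∈ Finset.range (m + 1 + k), (if m < n then ENNReal.ofReal ((n : ℝ) ^ (-(3 / 2) : ℝ)) else 0) ≤
      ENNReal.ofReal (2 * ((m : ℝ) ^ (-(1 / 2) : ℝ) - ((m + k : ℕ) : ℝ) ^ (-(1 / 2) : ℝ))) := by
    intro k
    induction k with
    | zero =>
      rw [Finset.sum_eq_zero]
      · exact zero_le
      · intro n hn
        rw [Finset.mem_range] at hn
        rw [if_neg (by omega)]
    | succ k ih =>
      rw [show m + 1 + (k + 1) = m + 1 + k + 1 by ring, Finset.sum_range_succ, if_pos (by omega)]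
      refine (add_le_add ih le_rfl).trans ?_
      have hmk : (0 : ℝ) < ((m + k : ℕ) : ℝ) := by
        push_cast
        positivity
      have hle : ((m + k : ℕ) : ℝ) ^ (-(1 / 2) : ℝ) ≤ (m : ℝ) ^ (-(1 / 2) : ℝ) := by
        refine Real.rpow_le_rpow_of_nonpos (by linarith) ?_ (by norm_num)
        push_cast
        linarith [show (0 : ℝ) ≤ k by positivity]
      rw [← ENNReal.ofReal_add (by linarith) (by positivity)]
      refine ENNReal.ofReal_le_ofReal ?_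
      have h1 := tel ((m + 1 + k : ℕ) : ℝ) (by push_cast; linarith [show (0 : ℝ) ≤ k by positivity])
      have e1 : ((m + 1 + k : ℕ) : ℝ) - 1 = ((m + k : ℕ) : ℝ) := by
        push_cast
        ring
      rw [e1] at h1
      rw [show m + (k + 1) = m + 1 + k by ring]
      linarith
  refine ENNReal.tsum_le_of_sum_range_le fun N => ?_
  refine (Finset.sum_le_sum_of_subset (Finset.range_mono (show N ≤ m + 1 + N by omega))).trans ((key N).trans ?_)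
  refine ENNReal.ofReal_le_ofReal ?_
  have : 0 ≤ ((m + N : ℕ) : ℝ) ^ (-(1 / 2) : ℝ) := by positivity
  linarith

lemma head_sum (X : ℝ) (hX : 0 ≤ X) (a : ℝ) (ha : 0 ≤ a) :
    ∑' n : ℕ, (if 1 ≤ n ∧ (n : ℝ) ≤ X then ENNReal.ofReal a else 0) ≤ ENNReal.ofReal (X * a) := by
  have h1 : ∀ n : ℕ, n ∉ Finset.Icc 1 ⌊X⌋₊ → (if 1 ≤ n ∧ (n : ℝ) ≤ X then ENNReal.ofReal a else 0) = 0 := by
    intro n hn
    rw [if_neg]
    rintro ⟨h2, h3⟩
    exact hn (Finset.mem_Icc.2 ⟨h2, Nat.le_floor h3⟩)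
  rw [tsum_eq_sum h1]
  calc ∑ n ∈ Finset.Icc 1 ⌊X⌋₊, (if 1 ≤ n ∧ (n : ℝ) ≤ X then ENNReal.ofReal a else 0)
      ≤ ∑ _n ∈ Finset.Icc 1 ⌊X⌋₊, ENNReal.ofReal a := by
        refine Finset.sum_le_sum fun n _ => ?_
        split_ifs
        · exact le_rfl
        · exact zero_le
    _ = ENNReal.ofReal (⌊X⌋₊ * a) := by
        rw [Finset.sum_const, Nat.card_Icc, nsmul_eq_mul, ENNReal.ofReal_mul (by positivity), ENNReal.ofReal_natCast]
        simp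
    _ ≤ _ := ENNReal.ofReal_le_ofReal (mul_le_mul_of_nonneg_right (Nat.floor_le hX) ha)

lemma gs_sub {S T : Set (List Bool)} (h : S ⊆ T) (f : List Bool → ℝ≥0∞) : gs S f ≤ gs T f :=
  ENNReal.tsum_mono_subtype (fun t => wE t * f t) h

/-- **AREA, NEAR, FAR at word level** -/
theorem areaW : ∃ C K0 : ℝ, 0 < C ∧ 0 < K0 ∧ ∀ R D : ℝ, K0 ≤ R → 4 * R ≤ D →
    ∑' n : ℕ, ENNReal.ofReal (1 / ((n : ℝ) + 1)) * ∑' t : FarC D n, wE (t : List Bool) * ((nb R (t : List Bool)).ncard : ℝ≥0∞) ≤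
      ENNReal.ofReal (C * (R / D) ^ (1 / 2 : ℝ)) := by
  obtain ⟨C1, b0, hC1, h1⟩ := one_n
  obtain ⟨C2, n0, hC2, h2⟩ := short_n
  refine ⟨C2 + 8 * C1, 2 ^ b0 + n0, by positivity, by positivity, fun R D hR hD => ?_⟩
  have hp0 : (1 : ℝ) ≤ 2 ^ b0 := one_le_pow₀ (by norm_num)
  have hn00 : (0 : ℝ) ≤ n0 := by positivity
  have hR1 : 1 ≤ R := by linarith
  have hR0 : 0 < R := by linarith
  have hD1 : 1 ≤ D := by linarith
  have hD0 : 0 < D := by linarith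
  have hRD : R ≤ D := by linarith
  -- the scale
  obtain ⟨j, hj1, hj2⟩ := exists_nat_pow_near hR1 (show (1 : ℝ) < 2 by norm_num)
  obtain ⟨i, hi⟩ : ∃ i, i = j + 1 := ⟨_, rfl⟩
  rw [← hi] at hj2
  have hi2 : (2 : ℝ) ^ i ≤ 2 * R := by
    rw [hi, pow_succ]
    linarith
  have hib : b0 ≤ i := by
    by_contra hc
    have h3 : (2 : ℝ) ^ i ≤ 2 ^ b0 := pow_le_pow_right₀ (by norm_num) (by omega)
    linarith
  -- the threshold
  obtain ⟨X, hX⟩ : ∃ X : ℝ, X = R ^ (1 / 3 : ℝ) * D := ⟨_, rfl⟩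
  have hR3 : 1 ≤ R ^ (1 / 3 : ℝ) := Real.one_le_rpow hR1 (by norm_num)
  have hX1 : 1 ≤ X := by
    rw [hX]
    nlinarith
  have hX0 : 0 < X := by linarith
  have hXD : X ≤ D ^ (4 / 3 : ℝ) := by
    have e : D ^ (4 / 3 : ℝ) = D ^ (1 / 3 : ℝ) * D := by
      rw [← Real.rpow_add_one hD0.ne']
      norm_num
    rw [hX, e]
    exact mul_le_mul_of_nonneg_right (Real.rpow_le_rpow hR0.le hRD (by norm_num)) hD0.le
  have hXm : ml i ≤ X := by
    have h3 : ml i ≤ (2 * R) ^ (4 / 3 : ℝ) := by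
      rw [ml_eq]
      exact Real.rpow_le_rpow (by positivity) hi2 (by norm_num)
    have h4 : (2 * R) ^ (4 / 3 : ℝ) ≤ R ^ (1 / 3 : ℝ) * (4 * R) := by
      have e : R ^ (4 / 3 : ℝ) = R ^ (1 / 3 : ℝ) * R := by
        rw [← Real.rpow_add_one hR0.ne']
        norm_num
      have e2 : (2 : ℝ) ^ (4 / 3 : ℝ) ≤ 4 := by
        calc (2 : ℝ) ^ (4 / 3 : ℝ) ≤ 2 ^ (2 : ℝ) := Real.rpow_le_rpow_of_exponent_le (by norm_num) (by norm_num)
          _ = 4 := by rw [Real.rpow_two]; norm_num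
      rw [Real.mul_rpow (by norm_num) hR0.le, e]
      have : 0 ≤ R ^ (1 / 3 : ℝ) * R := by positivity
      nlinarith
    rw [hX]
    refine h3.trans (h4.trans ?_)
    exact mul_le_mul_of_nonneg_left hD (by positivity)
  have h4i : (4 : ℝ) ^ i / ml i ≤ 2 * R ^ (2 / 3 : ℝ) := by
    have e1 : (4 : ℝ) ^ i / ml i = ((2 : ℝ) ^ i) ^ (2 / 3 : ℝ) := by
      rw [ml_eq, div_eq_iff (by positivity), ← Real.rpow_add (by positivity)]
      norm_num
      rw [← pow_mul, mul_comm, pow_mul]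
      norm_num
    rw [e1]
    calc ((2 : ℝ) ^ i) ^ (2 / 3 : ℝ) ≤ (2 * R) ^ (2 / 3 : ℝ) := Real.rpow_le_rpow (by positivity) hi2 (by norm_num)
      _ = 2 ^ (2 / 3 : ℝ) * R ^ (2 / 3 : ℝ) := Real.mul_rpow (by norm_num) hR0.le
      _ ≤ 2 ^ (1 : ℝ) * R ^ (2 / 3 : ℝ) := by
          refine mul_le_mul_of_nonneg_right ?_ (by positivity)
          exact Real.rpow_le_rpow_of_exponent_le (by norm_num) (by norm_num)
      _ = _ := by rw [Real.rpow_one]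
  obtain ⟨m, hm⟩ : ∃ m : ℕ, m = ⌊X⌋₊ := ⟨_, rfl⟩
  have hm1 : 1 ≤ m := by
    rw [hm]
    exact Nat.le_floor (by push_cast; exact hX1)
  have hmX : (m : ℝ) ≤ X := by rw [hm]; exact Nat.floor_le hX0.le
  have hmX2 : X / 2 ≤ m := by
    have h3 : X < m + 1 := by rw [hm]; exact Nat.lt_floor_add_one _
    have h4 : (1 : ℝ) ≤ m := by exact_mod_cast hm1
    linarith
  -- the terms
  have hterm : ∀ n : ℕ, ENNReal.ofReal (1 / ((n : ℝ) + 1)) *
      ∑' t : FarC D n, wE (t : List Bool) * ((nb R (t : List Bool)).ncard : ℝ≥0∞) ≤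
        (if 1 ≤ n ∧ (n : ℝ) ≤ X then ENNReal.ofReal (C2 * (X ^ (1 / 2 : ℝ) / D ^ 2)) else 0) +
          ENNReal.ofReal (2 * C1 * R ^ (2 / 3 : ℝ)) * (if m < n then ENNReal.ofReal ((n : ℝ) ^ (-(3 / 2) : ℝ)) else 0) := by
    intro n
    have hg : ∑' t : FarC D n, wE (t : List Bool) * ((nb R (t : List Bool)).ncard : ℝ≥0∞) =
        gs (FarC D n) (fun t => ((nb R t).ncard : ℝ≥0∞)) := rfl
    rw [hg]
    have hnn : (0 : ℝ) ≤ n := by positivity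
    rcases lt_or_ge (2 * (n : ℝ)) D with hsm | hsm
    · -- no word
      have h3 : FarC D n = ∅ := by
        ext t
        constructor
        · rintro ⟨-, k, hk, h4⟩
          have h5 := hn_lin t k
          have h6 : ((TIW.hn (vx oo up t k) : ℤ) : ℝ) ≤ 2 * k := by exact_mod_cast h5
          have h7 : (k : ℝ) ≤ n := by exact_mod_cast hk
          linarith
        · intro h
          exact absurd h (Set.notMem_empty _)
      have h4 : gs (FarC D n) (fun t => ((nb R t).ncard : ℝ≥0∞)) = 0 := by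
        rw [h3]
        unfold gs
        simp
      rw [h4, mul_zero]
      exact zero_le
    have hn1 : 1 ≤ n := by
      rcases Nat.eq_zero_or_pos n with h | h
      · rw [h, Nat.cast_zero] at hsm
        linarith
      · exact h
    have hn1' : (1 : ℝ) ≤ n := by exact_mod_cast hn1
    have hn0' : (0 : ℝ) < n := by linarith
    have hnn0 : n0 ≤ n := by
      have : (n0 : ℝ) ≤ n := by linarith
      exact_mod_cast this
    rcases le_or_gt (n : ℝ) X with hnX | hnX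
    · refine le_trans ?_ le_self_add
      rw [if_pos ⟨hn1, hnX⟩]
      have hnD : (n : ℝ) ^ (3 / 4 : ℝ) ≤ D := by
        calc (n : ℝ) ^ (3 / 4 : ℝ) ≤ (D ^ (4 / 3 : ℝ)) ^ (3 / 4 : ℝ) :=
              Real.rpow_le_rpow hnn (hnX.trans hXD) (by norm_num)
          _ = D := by
              rw [← Real.rpow_mul hD0.le]
              norm_num
      refine (mul_le_mul_right (h2 n R D hnn0 hD1 hR0.le hRD hnD) _).trans ?_
      rw [← ENNReal.ofReal_mul (by positivity)]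
      refine ENNReal.ofReal_le_ofReal ?_
      have e1 : ((n : ℝ) ^ (3 / 4 : ℝ)) ^ 4 = (n : ℝ) ^ (3 : ℝ) := by
        rw [← Real.rpow_natCast, ← Real.rpow_mul hnn]
        norm_num
      have e2 : (n : ℝ) ^ (3 : ℝ) * (n : ℝ) ^ (-(3 / 2) : ℝ) = n * (n : ℝ) ^ (1 / 2 : ℝ) := by
        rw [← Real.rpow_add hn0']
        nth_rewrite 2 [← Real.rpow_one (n : ℝ)]
        rw [← Real.rpow_add hn0']
        norm_num
      have e3 : 1 / ((n : ℝ) + 1) * (C2 * D ^ 2 * ((n : ℝ) ^ (3 / 4 : ℝ) / D) ^ 4 * (n : ℝ) ^ (-(3 / 2) : ℝ)) =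
          C2 * ((n : ℝ) / (n + 1) * ((n : ℝ) ^ (1 / 2 : ℝ) / D ^ 2)) := by
        calc 1 / ((n : ℝ) + 1) * (C2 * D ^ 2 * ((n : ℝ) ^ (3 / 4 : ℝ) / D) ^ 4 * (n : ℝ) ^ (-(3 / 2) : ℝ))
            = 1 / ((n : ℝ) + 1) * C2 / D ^ 2 * ((n : ℝ) ^ (3 : ℝ) * (n : ℝ) ^ (-(3 / 2) : ℝ)) := by
              rw [div_pow, e1]
              field_simp
          _ = _ := by
              rw [e2]
              field_simp
      rw [e3]
      refine mul_le_mul_of_nonneg_left ?_ hC2.le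
      have h5 : (n : ℝ) / (n + 1) ≤ 1 := by
        rw [div_le_one (by positivity)]
        linarith
      have h6 : (n : ℝ) ^ (1 / 2 : ℝ) ≤ X ^ (1 / 2 : ℝ) := Real.rpow_le_rpow hnn hnX (by norm_num)
      calc (n : ℝ) / (n + 1) * ((n : ℝ) ^ (1 / 2 : ℝ) / D ^ 2) ≤ 1 * (X ^ (1 / 2 : ℝ) / D ^ 2) := by gcongr
        _ = _ := one_mul _
    · refine le_trans ?_ le_add_self
      have hmn : m < n := by
        have : (m : ℝ) < n := by linarith
        exact_mod_cast this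
      rw [if_pos hmn]
      have h5 : gs (FarC D n) (fun t => ((nb R t).ncard : ℝ≥0∞)) ≤ ENNReal.ofReal (C1 * (n / ml i) * 4 ^ i *
          (n : ℝ) ^ (-(3 / 2) : ℝ)) := by
        refine (gs_sub (fun t ht => ht.1) _).trans ((gs_mono fun t _ => ?_).trans (h1 n i hib (by linarith)))
        exact_mod_cast Set.ncard_le_ncard (nb_sub_cov hj2.le t) (cov_fin i t)
      refine (mul_le_mul_right h5 _).trans ?_
      rw [← ENNReal.ofReal_mul (by positivity), ← ENNReal.ofReal_mul (by positivity)]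
      refine ENNReal.ofReal_le_ofReal ?_
      have hmi := ml_pos i
      obtain ⟨ν, hν⟩ : ∃ ν : ℝ, ν = (n : ℝ) ^ (-(3 / 2) : ℝ) := ⟨_, rfl⟩
      have hν0 : 0 ≤ ν := by rw [hν]; positivity
      rw [← hν]
      have e1 : 1 / ((n : ℝ) + 1) * (C1 * (n / ml i) * 4 ^ i * ν) = C1 * ((n : ℝ) / (n + 1)) * (4 ^ i / ml i) * ν := by
        field_simp
      rw [e1]
      have h6 : (n : ℝ) / (n + 1) ≤ 1 := by
        rw [div_le_one (by positivity)]
        linarith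
      calc C1 * ((n : ℝ) / (n + 1)) * (4 ^ i / ml i) * ν ≤ C1 * 1 * (2 * R ^ (2 / 3 : ℝ)) * ν := by gcongr
        _ = _ := by ring
  refine (ENNReal.tsum_le_tsum hterm).trans ?_
  rw [ENNReal.tsum_add, ENNReal.tsum_mul_left]
  refine (add_le_add (head_sum X hX0.le _ (by positivity)) (mul_le_mul_right (tail_sum m hm1) _)).trans ?_
  rw [← ENNReal.ofReal_mul (by positivity), ← ENNReal.ofReal_add (by positivity) (by positivity)]
  refine ENNReal.ofReal_le_ofReal ?_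
  have eq1 : (R / D) ^ (1 / 2 : ℝ) = R ^ (1 / 2 : ℝ) * D ^ (-(1 / 2) : ℝ) := by
    rw [Real.div_rpow hR0.le hD0.le, Real.rpow_neg hD0.le, div_eq_mul_inv]
  have e1 : X * (C2 * (X ^ (1 / 2 : ℝ) / D ^ 2)) = C2 * (R / D) ^ (1 / 2 : ℝ) := by
    have h3 : X * X ^ (1 / 2 : ℝ) = X ^ (3 / 2 : ℝ) := by
      nth_rewrite 1 [← Real.rpow_one X]
      rw [← Real.rpow_add hX0]
      norm_num
    have h4 : X ^ (3 / 2 : ℝ) = R ^ (1 / 2 : ℝ) * D ^ (3 / 2 : ℝ) := by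
      rw [hX, Real.mul_rpow (by positivity) hD0.le, ← Real.rpow_mul hR0.le]
      norm_num
    have h5 : D ^ (3 / 2 : ℝ) / D ^ 2 = D ^ (-(1 / 2) : ℝ) := by
      rw [← Real.rpow_two, ← Real.rpow_sub hD0]
      norm_num
    calc X * (C2 * (X ^ (1 / 2 : ℝ) / D ^ 2)) = C2 * (X * X ^ (1 / 2 : ℝ)) / D ^ 2 := by ring
      _ = C2 * (R ^ (1 / 2 : ℝ) * (D ^ (3 / 2 : ℝ) / D ^ 2)) := by rw [h3, h4]; ring
      _ = _ := by rw [h5, eq1]
  have e2 : 2 * C1 * R ^ (2 / 3 : ℝ) * (2 * (m : ℝ) ^ (-(1 / 2) : ℝ)) ≤ 8 * C1 * (R / D) ^ (1 / 2 : ℝ) := by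
    have h3 : (m : ℝ) ^ (-(1 / 2) : ℝ) ≤ 2 * X ^ (-(1 / 2) : ℝ) := by
      calc (m : ℝ) ^ (-(1 / 2) : ℝ) ≤ (X / 2) ^ (-(1 / 2) : ℝ) :=
            Real.rpow_le_rpow_of_nonpos (by positivity) hmX2 (by norm_num)
        _ = X ^ (-(1 / 2) : ℝ) * 2 ^ (1 / 2 : ℝ) := by
            rw [Real.div_rpow hX0.le (by norm_num), Real.rpow_neg (by norm_num : (0 : ℝ) ≤ 2), div_inv_eq_mul]
        _ ≤ X ^ (-(1 / 2) : ℝ) * 2 ^ (1 : ℝ) := by
            refine mul_le_mul_of_nonneg_left ?_ (by positivity)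
            exact Real.rpow_le_rpow_of_exponent_le (by norm_num) (by norm_num)
        _ = _ := by rw [Real.rpow_one, mul_comm]
    have h4 : R ^ (2 / 3 : ℝ) * X ^ (-(1 / 2) : ℝ) = (R / D) ^ (1 / 2 : ℝ) := by
      rw [hX, Real.mul_rpow (by positivity) hD0.le, ← Real.rpow_mul hR0.le, ← mul_assoc, ← Real.rpow_add hR0, eq1]
      norm_num
    calc 2 * C1 * R ^ (2 / 3 : ℝ) * (2 * (m : ℝ) ^ (-(1 / 2) : ℝ))
        ≤ 2 * C1 * R ^ (2 / 3 : ℝ) * (2 * (2 * X ^ (-(1 / 2) : ℝ))) := by gcongr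
      _ = 8 * C1 * (R ^ (2 / 3 : ℝ) * X ^ (-(1 / 2) : ℝ)) := by ring
      _ = _ := by rw [h4]
  have e3 : (C2 + 8 * C1) * (R / D) ^ (1 / 2 : ℝ) = C2 * (R / D) ^ (1 / 2 : ℝ) + 8 * C1 * (R / D) ^ (1 / 2 : ℝ) := by ring
  rw [e3, ← e1]
  linarith

end Area

end PMA

end HexObs
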