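import Pool.Agent.ROT.ISt
import Pool.Agent.ROT.AreaC

/-!
# ROT, rows N2, N3 (helper81): `Near` and `Far`, no hypothesis
-/

set_option autoImplicit false

namespace Pool.Agent.ROT.I

open HexObs HexObs.TS HexObs.SDN HexObs.ARM HexObs.TIW
open scoped ENNReal

/-- **the area sentence** -/
theorem wArea : WArea := by
  obtain ⟨C, K0, hC, -, h⟩ := HexObs.PMA.Area.areaW
  refine ⟨C, hC, K0, fun R D hR hD => le_trans (le_of_eq ?_) (h R D hR hD)⟩
  refine tsum_congr fun n => ?_
  congr 1
  refine tsum_congr fun t => ?_
  congr 3
  have hl : (t : List Bool).length = n := (HexObs.ARM.C0_mem t.2.1).2.1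
  unfold HexObs.PMA.Area.nb
  rw [hl]

/-- **loops of a given size rarely come near a given point** -/
theorem near : Near := near_of wArea

/-- **large loops rarely come near a given point** -/
theorem far : Far := far_of wArea

end Pool.Agent.ROT.I
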