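import Pool.Agent.ROT.A6UI
import Pool.Agent.ROT.NMass
import Pool.Agent.ROT.INear

/-!
# ROT, row A6b (helper70): `Near`, `Mass`, `UI1` and (UI) at the sides of `hexP`, no hypothesis left
-/

set_option autoImplicit false

namespace Pool.Agent.ROT.A6

theorem hx_massU : E.Hx.MassU := HexObs.NK.massU

theorem hx_massL : E.Hx.MassL := HexObs.NK.massL

theorem hx_near : hexP.Near := hexP_near I.near

theorem hx_mass : hexP.Mass := hexP_mass hx_massU hx_massL

theorem hx_ui1 : hexP.UI1 := hex_ui1 hx_massU hx_massL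

theorem hx_ui (u : Fin 4) (X : hexP.Side u) : X.UI := side_ui hx_massU u X

end Pool.Agent.ROT.A6
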