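import Mathlib

/-!
# ROT, linear response, block A (assembly): definitions and literals of the rows (helper28)

`PSys` : polygons in the square lattice picture of the honeycomb (coordinates (column, row)), with their weight,
their four heights and the local responses at the four extreme points.

Inputs (`N → ∞`, pointwise in the test function):
* `EXD`  : exact side: column form minus row form of `Md F` (block L, 72);
* `LR3F a b` : LR3 in families: the responses may be replaced by the constants `a N`, `b N`;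
* `Near` : a polygon of extent `>= d N` comes within `η N` of the origin: mass `-> 0` as `η -> 0`;
* `Mass` : masses of the polygons of size `~ N` with a given corner.

Output `Flow a b` : the pattern functions are asymptotically invariant under the linear field `x ↦ B x`.
-/

set_option autoImplicit false

open Finset Filter Topology

namespace Pool.Agent.ROT.A

/-- sites, lattice points -/
abbrev Z2 := ℤ × ℤ

/-- polygons; heights `0` = left column, `1` = right column, `2` = bottom row, `3` = top row -/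
structure PSys where
  P : Type
  /-- the critical weight -/
  M : P → ℝ
  /-- heights -/
  ht : P → Fin 4 → ℤ
  /-- the other coordinate of the extreme point (row for `0, 1`, column for `2, 3`) -/
  ex : P → Fin 4 → ℤ
  /-- response of the height under its own swaps: `Q` -/
  Qf : P → Fin 4 → ℝ
  /-- response under the transversal swaps: `k` times the indicator of the minimal cup -/
  Cf : P → Fin 4 → ℝ
  /-- sites -/
  st : P → Set Z2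
  /-- the lattice point is inside -/
  ip : Z2 → P → Prop
  /-- disjoint -/
  Dj : P → P → Prop
  /-- `In v w` : `v` is inside `w` -/
  In : P → P → Prop
  /-- translations -/
  tr : Z2 → P ≃ P
  /-- the swap of columns and rows -/
  sw : P ≃ P
  /-- the polygons with heights in `[-n, n]` -/
  box : ℕ → Finset P
  M_nn : ∀ p, 0 ≤ M p
  Q_nn : ∀ p u, 0 ≤ Qf p u
  C_nn : ∀ p u, 0 ≤ Cf p u
  mem_box : ∀ n p, p ∈ box n ↔ ∀ u, |ht p u| ≤ n
  le01 : ∀ p, ht p 0 ≤ ht p 1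
  le23 : ∀ p, ht p 2 ≤ ht p 3
  ex01 : ∀ p, (ht p 2 ≤ ex p 0 ∧ ex p 0 ≤ ht p 3) ∧ ht p 2 ≤ ex p 1 ∧ ex p 1 ≤ ht p 3
  ex23 : ∀ p, (ht p 0 ≤ ex p 2 ∧ ex p 2 ≤ ht p 1) ∧ ht p 0 ≤ ex p 3 ∧ ex p 3 ≤ ht p 1
  tr_M : ∀ z p, M (tr z p) = M p
  tr_ht : ∀ z p, ht (tr z p) 0 = ht p 0 + z.1 ∧ ht (tr z p) 1 = ht p 1 + z.1 ∧
    ht (tr z p) 2 = ht p 2 + z.2 ∧ ht (tr z p) 3 = ht p 3 + z.2
  tr_ex : ∀ z p, ex (tr z p) 0 = ex p 0 + z.2 ∧ ex (tr z p) 1 = ex p 1 + z.2 ∧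
    ex (tr z p) 2 = ex p 2 + z.1 ∧ ex (tr z p) 3 = ex p 3 + z.1
  tr_st : ∀ z p x, x ∈ st p ↔ x + z ∈ st (tr z p)
  tr_ip : ∀ z p x, ip x p ↔ ip (x + z) (tr z p)
  sw_M : ∀ p, M (sw p) = M p
  sw_ht : ∀ p, ht (sw p) 0 = ht p 2 ∧ ht (sw p) 1 = ht p 3 ∧ ht (sw p) 2 = ht p 0 ∧ ht (sw p) 3 = ht p 1
  sw_ex : ∀ p, ex (sw p) 0 = ex p 2 ∧ ex (sw p) 1 = ex p 3 ∧ ex (sw p) 2 = ex p 0 ∧ ex (sw p) 3 = ex p 1
  /-- sites and inside points are in the box of the polygon -/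
  st_box : ∀ p x, x ∈ st p → ht p 0 ≤ x.1 ∧ x.1 ≤ ht p 1 ∧ ht p 2 ≤ x.2 ∧ x.2 ≤ ht p 3
  ip_box : ∀ p x, ip x p → ht p 0 ≤ x.1 ∧ x.1 ≤ ht p 1 ∧ ht p 2 ≤ x.2 ∧ x.2 ≤ ht p 3
  /-- between an inside and an outside point there is a site -/
  ip_sep : ∀ p x y, ip x p → ¬ ip y p → ∃ s ∈ st p, min x.1 y.1 - 1 ≤ s.1 ∧ s.1 ≤ max x.1 y.1 + 1 ∧
    min x.2 y.2 - 1 ≤ s.2 ∧ s.2 ≤ max x.2 y.2 + 1
  /-- inside: the box is contained -/
  In_box : ∀ v w, In v w → ht w 0 ≤ ht v 0 ∧ ht v 1 ≤ ht w 1 ∧ ht w 2 ≤ ht v 2 ∧ ht v 3 ≤ ht w 3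
  /-- polygons with a gap between their boxes are disjoint, and not inside each other -/
  far : ∀ v w, (ht v 1 + 1 < ht w 0 ∨ ht w 1 + 1 < ht v 0 ∨ ht v 3 + 1 < ht w 2 ∨ ht w 3 + 1 < ht v 2) →
    Dj v w ∧ ¬ In v w
  /-- if `w` has no site in the box of `v` enlarged by one, then `v` is disjoint from `w`, `w` is not inside `v`,
  and `v` is inside `w` iff its corner is -/
  sep : ∀ v w, (∀ s ∈ st w, ¬ (ht v 0 - 1 ≤ s.1 ∧ s.1 ≤ ht v 1 + 1 ∧ ht v 2 - 1 ≤ s.2 ∧ s.2 ≤ ht v 3 + 1)) →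
    (Dj v w ∧ Dj w v) ∧ ¬ In w v ∧ (In v w ↔ ip (ht v 0, ht v 2) w)

namespace PSys

variable (S : PSys)

/-- the corner -/
def co (p : S.P) : Z2 := (S.ht p 0, S.ht p 2)

/-- the extent -/
def ext (p : S.P) : ℤ := max (S.ht p 1 - S.ht p 0) (S.ht p 3 - S.ht p 2)

/-- normalised heights -/
noncomputable def hN (N : ℕ) (p : S.P) : Fin 4 → ℝ := fun u => (S.ht p u : ℝ) / N

/-- normalised other coordinate of the extreme point -/
noncomputable def eN (N : ℕ) (p : S.P) : Fin 4 → ℝ := fun u => (S.ex p u : ℝ) / N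

variable {I : Type} [Fintype I] [DecidableEq I]

/-- pairwise disjoint, with the pattern `τ` -/
def Pt (τ : I → I → Bool) (γ : I → S.P) : Prop :=
  (∀ i k, i ≠ k → S.Dj (γ i) (γ k)) ∧ ∀ i k, i ≠ k → (S.In (γ i) (γ k) ↔ τ i k = true)

open Classical in
/-- the sum over the families in the box `[-n, n]` -/
noncomputable def fsum (n : ℕ) (τ : I → I → Bool) (Θ : (I → S.P) → ℝ) : ℝ :=
  ∑ γ ∈ Fintype.piFinset (fun _ : I => S.box n), if S.Pt τ γ then (∏ i, S.M (γ i)) * Θ γ else 0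

/-- the sign of the response: `-` for columns, `+` for rows -/
def sg (u : Fin 4) : ℝ := if u = 0 ∨ u = 1 then -1 else 1

/-- the support condition: all members in `[-K, K]`, extents `>= δ` -/
def Sup (K δ : ℝ) (h : I → Fin 4 → ℝ) : Prop :=
  (∀ i u, |h i u| ≤ K) ∧ ∀ i, δ ≤ h i 1 - h i 0 ∧ δ ≤ h i 3 - h i 2

/-- test functions of the heights -/
structure Tf (K δ : ℝ) (Φ : (I → Fin 4 → ℝ) → ℝ) : Prop where
  smooth : ContDiff ℝ 2 Φ
  sup : ∀ h, Φ h ≠ 0 → Sup K δ h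

/-- partial derivative -/
noncomputable def pd (Φ : (I → Fin 4 → ℝ) → ℝ) (h : I → Fin 4 → ℝ) (i : I) (u : Fin 4) : ℝ :=
  fderiv ℝ Φ h (Pi.single i (Pi.single u 1))

/-- **exact side**: `Md F` by columns minus `Md F` by rows -/
def EXD : Prop :=
  ∀ (I : Type) [Fintype I] [DecidableEq I] (τ : I → I → Bool) (K : ℕ) (δ : ℝ) (Φ : (I → Fin 4 → ℝ) → ℝ),
    0 < δ → Tf K δ Φ → Tendsto (fun N : ℕ => S.fsum (K * N) τ fun γ =>
      ∑ i, ∑ u, sg u * (S.hN N (γ i) u * S.Qf (γ i) u + S.eN N (γ i) u * S.Cf (γ i) u) *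
        pd Φ (fun i => S.hN N (γ i)) i u) atTop (𝓝 0)

/-- **LR3 in families**: for every member `i` and all four extreme points the responses may be replaced by the
constants `a N`, `b N` (the same for all sizes) -/
def LR3F (a b : ℕ → ℝ) : Prop :=
  ∀ (I : Type) [Fintype I] [DecidableEq I] (τ : I → I → Bool) (i : I) (u : Fin 4) (K : ℕ) (δ : ℝ)
    (θ : (I → Fin 4 → ℝ) × ℝ → ℝ), 0 < δ → (∃ Λ : NNReal, LipschitzWith Λ θ ∧ ∀ x, |θ x| ≤ Λ) →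
    (∀ h e, θ (h, e) ≠ 0 → Sup K δ h) →
    Tendsto (fun N : ℕ => S.fsum (K * N) τ fun γ =>
      (S.Qf (γ i) u - a N) * θ (fun i => S.hN N (γ i), S.eN N (γ i) u)) atTop (𝓝 0) ∧
    Tendsto (fun N : ℕ => S.fsum (K * N) τ fun γ =>
      (S.Cf (γ i) u - b N) * θ (fun i => S.hN N (γ i), S.eN N (γ i) u)) atTop (𝓝 0)

/-- `w` has a site at (sup norm) distance `<= ρ` of `x` -/
def Nr (ρ : ℝ) (x : Z2) (w : S.P) : Prop := ∃ s ∈ S.st w, |(s.1 : ℝ) - x.1| ≤ ρ ∧ |(s.2 : ℝ) - x.2| ≤ ρ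

open Classical in
/-- the mass of the polygons of extent `>= D` with a site within `ρ` of the origin -/
noncomputable def near (D ρ : ℝ) : ENNReal :=
  ∑' w : S.P, if D ≤ (S.ext w : ℝ) ∧ S.Nr ρ 0 w then ENNReal.ofReal (S.M w) else 0

/-- **near** -/
def Near : Prop :=
  ∀ d ε : ℝ, 0 < d → 0 < ε → ∃ η : ℝ, 0 < η ∧ ∀ᶠ N : ℕ in atTop, S.near (d * N) (η * N) ≤ ENNReal.ofReal ε

/-- both extents in `[r N, s N]` -/
def Win (r s N : ℝ) (p : S.P) : Prop :=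
  (r * N ≤ (S.ht p 1 : ℝ) - S.ht p 0 ∧ (S.ht p 1 : ℝ) - S.ht p 0 ≤ s * N) ∧
    r * N ≤ (S.ht p 3 : ℝ) - S.ht p 2 ∧ (S.ht p 3 : ℝ) - S.ht p 2 ≤ s * N

open Classical in
/-- the mass of the polygons with corner `0` and both extents in `[r N, s N]` -/
noncomputable def mass (r s N : ℝ) (n : ℕ) : ℝ := ∑ p ∈ S.box n, if S.co p = 0 ∧ S.Win r s N p then S.M p else 0

/-- **masses** of the polygons of size `~ N` with a given corner (lower bound for SOME window of extents; `N` real) -/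
def Mass : Prop :=
  (∃ r s c : ℝ, 0 < r ∧ r < s ∧ 0 < c ∧ ∃ N0 : ℝ, ∀ N : ℝ, N0 ≤ N → ∀ n : ℕ, s * N ≤ n →
    c ≤ N ^ 2 * S.mass r s N n) ∧
  ∀ r s : ℝ, 0 < r → r < s → ∃ C : ℝ, ∃ N0 : ℝ, ∀ N : ℝ, N0 ≤ N → ∀ n : ℕ, N ^ 2 * S.mass r s N n ≤ C

/-! ### the output -/

variable {m : ℕ}

open Classical in
/-- the pattern function: mass of the polygons which have exactly the points `x i`, `π i = true`, inside -/
noncomputable def Pf (π : Fin m → Bool) (x : Fin m → Z2) : ℝ :=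
  ∑' w : S.P, if ∀ i, S.ip (x i) w ↔ π i = true then S.M w else 0

/-- the linear field (columns, rows), one point -/
noncomputable def B1 (a b : ℝ) (y : ℝ × ℝ) : ℝ × ℝ := (-(a * y.1) - b * y.2, b * y.1 + a * y.2)

/-- at least two points inside, at least one outside -/
def NT (π : Fin m → Bool) : Prop := (∃ i j, i ≠ j ∧ π i = true ∧ π j = true) ∧ ∃ i, π i = false

/-- test functions of the points: support in the separated tuples of a ball -/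
structure Tp (R d : ℝ) (φ : (Fin m → ℝ × ℝ) → ℝ) : Prop where
  smooth : ContDiff ℝ 2 φ
  sup : ∀ y, φ y ≠ 0 → (∀ i, ‖y i‖ ≤ R) ∧ ∀ i k, i ≠ k → d ≤ ‖y i - y k‖

/-- normalised points -/
noncomputable def xN (N : ℕ) (x : Fin m → Z2) : Fin m → ℝ × ℝ := fun i => (((x i).1 : ℝ) / N, ((x i).2 : ℝ) / N)

/-- **output of block A**, input of (I1) of block I: `N^(-2m) Σ_x (Dφ)(x/N)[B x/N] P(x) → 0` -/
def Flow (a b : ℕ → ℝ) : Prop :=
  ∀ (m : ℕ) (π : Fin m → Bool) (R d : ℝ) (φ : (Fin m → ℝ × ℝ) → ℝ), NT π → 0 < d → Tp R d φ →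
    Tendsto (fun N : ℕ => ((N : ℝ) ^ (2 * m))⁻¹ * ∑' x : Fin m → Z2,
      fderiv ℝ φ (xN N x) (fun i => B1 (a N) (b N) (xN N x i)) * S.Pf π x) atTop (𝓝 0)

/-! ### the test function of the assembly (row A1) -/

/-- the profiles: `g = 1` on `[r, s]`, `0` off `[r/2, 2 s]`; `χ = 1` on `[-1, 1]`, `0` off `[-2, 2]`; `l = 0` on
`(-∞, 1]`, `1` on `[2, ∞)` -/
structure Prof (r s : ℝ) (g χ l : ℝ → ℝ) : Prop where
  gs : ContDiff ℝ 2 g
  χs : ContDiff ℝ 2 χ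
  ls : ContDiff ℝ 2 l
  g01 : ∀ t, 0 ≤ g t ∧ g t ≤ 1
  χ01 : ∀ t, 0 ≤ χ t ∧ χ t ≤ 1
  l01 : ∀ t, 0 ≤ l t ∧ l t ≤ 1
  g1 : ∀ t, r ≤ t → t ≤ s → g t = 1
  g0 : ∀ t, g t ≠ 0 → r / 2 ≤ t ∧ t ≤ 2 * s
  χ1 : ∀ t, |t| ≤ 1 → χ t = 1
  χ0 : ∀ t, χ t ≠ 0 → |t| ≤ 2
  l0 : ∀ t, t ≤ 1 → l t = 0
  l1 : ∀ t, 2 ≤ t → l t = 1

variable (r : ℝ) (g χ l : ℝ → ℝ) (η R : ℝ) (φ : (Fin m → ℝ × ℝ) → ℝ)

/-- the corners of the tracers -/
def cs (h : Fin (m + 1) → Fin 4 → ℝ) : Fin m → ℝ × ℝ := fun i => (h i.succ 0, h i.succ 2)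

/-- the size factor of one tracer -/
noncomputable def G1 (h : Fin 4 → ℝ) : ℝ := g ((h 1 - h 0) / η) * g ((h 3 - h 2) / η)

/-- the cutoff of `w` -/
noncomputable def X1 (h : Fin 4 → ℝ) : ℝ := ∏ u, χ (h u / R)

/-- **the test function**: `0` = the large polygon `w`, `i.succ` = the tracers -/
noncomputable def Ph (h : Fin (m + 1) → Fin 4 → ℝ) : ℝ :=
  φ (cs h) * (∏ i : Fin m, G1 g η (h i.succ)) * X1 χ R (h 0) *
    (l ((h 0 1 - h 0 0) / (r * η / 4)) * l ((h 0 3 - h 0 2) / (r * η / 4)))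

/-- the response of the size factor of one tracer, `e` = the other coordinates of its extreme points; odd under the
swap of columns and rows -/
noncomputable def Psi (a b : ℝ) (h e : Fin 4 → ℝ) : ℝ :=
  (-(a * (h 1 - h 0) + b * (e 1 - e 0)) / η * deriv g ((h 1 - h 0) / η)) * g ((h 3 - h 2) / η) +
    ((a * (h 3 - h 2) + b * (e 3 - e 2)) / η * deriv g ((h 3 - h 2) / η)) * g ((h 1 - h 0) / η)

/-- all tracers have both extents in `[r η / 2, 2 s η]`, corners in the ball and separated, `w` in `[-2R, 2R]` -/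
def Okh (s R0 d : ℝ) (h : Fin (m + 1) → Fin 4 → ℝ) : Prop :=
  (∀ i, ‖cs h i‖ ≤ R0) ∧ (∀ i k, i ≠ k → d ≤ ‖cs h i - cs h k‖) ∧
    (∀ i : Fin m, r * η / 2 ≤ h i.succ 1 - h i.succ 0 ∧ h i.succ 1 - h i.succ 0 ≤ 2 * s * η ∧
      r * η / 2 ≤ h i.succ 3 - h i.succ 2 ∧ h i.succ 3 - h i.succ 2 ≤ 2 * s * η) ∧ ∀ u, |h 0 u| ≤ 2 * R

/-- the other coordinates of the extreme points are in the box of the member -/
def Oke (h e : Fin (m + 1) → Fin 4 → ℝ) : Prop :=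
  ∀ i, ((h i 2 ≤ e i 0 ∧ e i 0 ≤ h i 3) ∧ h i 2 ≤ e i 1 ∧ e i 1 ≤ h i 3) ∧
    (h i 0 ≤ e i 2 ∧ e i 2 ≤ h i 1) ∧ h i 0 ≤ e i 3 ∧ e i 3 ≤ h i 1

open Classical in
/-- **row A1**: the algebra.  `C` does not depend on `η, R, a, b`.  (Some tracer is not larger than `w`: if its
extents are `>= r η / 2`, the factor `l` is `1`, otherwise everything is `0`.) -/
def A1 : Prop :=
  ∀ (m : ℕ) (r s R0 d : ℝ) (g χ l : ℝ → ℝ) (φ : (Fin m → ℝ × ℝ) → ℝ), 0 < r → r < s → 0 < d →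
    Prof r s g χ l → Tp R0 d φ → ∃ C : ℝ, 0 ≤ C ∧ ∀ η R : ℝ, 0 < η → η ≤ 1 → 1 ≤ R →
    ∀ (a b : ℝ) (h e : Fin (m + 1) → Fin 4 → ℝ), Oke h e →
    (∃ i : Fin m, h i.succ 1 - h i.succ 0 ≤ h 0 1 - h 0 0 ∧ h i.succ 3 - h i.succ 2 ≤ h 0 3 - h 0 2) →
    |(∑ i, ∑ u, sg u * (a * h i u + b * e i u) * pd (Ph r g χ l η R φ) h i u) -
      (fderiv ℝ φ (cs h) (fun i => B1 a b (cs h i)) * (∏ i : Fin m, G1 g η (h i.succ)) * X1 χ R (h 0) +
        φ (cs h) * (∑ i : Fin m, Psi g η a b (h i.succ) (e i.succ) * ∏ k ∈ univ.erase i, G1 g η (h k.succ)) *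
          X1 χ R (h 0))| ≤
    C * (|a| + |b|) * (if Okh r η R s R0 d h then η + (if ∃ u, R ≤ |h 0 u| then 1 else 0) else 0)

/-- **row A1, second part**: the test function is one of the test functions of `EXD` -/
def A1T : Prop :=
  ∀ (m : ℕ) (r s R0 d : ℝ) (g χ l : ℝ → ℝ) (φ : (Fin m → ℝ × ℝ) → ℝ), 0 < r → r < s → 0 < d →
    Prof r s g χ l → Tp R0 d φ → ∀ η R : ℝ, 0 < η → 0 < R → ∀ K : ℕ, 2 * R ≤ K → R0 + 2 * s * η ≤ K →
    Tf K (r * η / 4) (Ph r g χ l η R φ)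

/-- **row A1, third part**: the profiles exist -/
def A1P : Prop := ∀ r s : ℝ, 0 < r → r < s → ∃ g χ l : ℝ → ℝ, Prof r s g χ l

/-! ### tracers and points (rows A3, A4) -/

open Classical in
/-- the mass of one tracer with corner `0` and weight `f` -/
noncomputable def W1 (n : ℕ) (f : S.P → ℝ) : ℝ := ∑ p ∈ S.box n, if S.co p = 0 then S.M p * f p else 0

open Classical in
/-- the pattern function with the weight `X`, in the box -/
noncomputable def PX (n : ℕ) (π : Fin m → Bool) (X : S.P → ℝ) (x : Fin m → Z2) : ℝ :=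
  ∑ w ∈ S.box n, if ∀ i, S.ip (x i) w ↔ π i = true then S.M w * X w else 0

/-- the pattern of the families `w, v_1, .., v_m` -/
def tau (π : Fin m → Bool) (i k : Fin (m + 1)) : Bool :=
  if k = 0 then Fin.cases (motive := fun _ => Bool) false π i else false

/-- **row A3**: tracers are points, up to the mass of the `w` which come near a tracer -/
def A3 : Prop :=
  ∀ (m : ℕ) (π : Fin m → Bool) (R0 d r s F0 G0 X0 : ℝ) (N K : ℕ) (f : (Fin m → ℝ × ℝ) → ℝ) (G : Fin m → S.P → ℝ)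
    (X : S.P → ℝ), NT π → 0 < R0 → 0 < d → 0 < r → r < s → 8 * s ≤ d → 1 ≤ s * N → R0 + 2 * s ≤ K →
    (∀ y, |f y| ≤ F0) → (∀ y, f y ≠ 0 → (∀ i, ‖y i‖ ≤ R0) ∧ ∀ i k, i ≠ k → d ≤ ‖y i - y k‖) →
    (∀ i p, |G i p| ≤ G0) → (∀ i p, G i p ≠ 0 → S.Win r s N p) → (∀ i z p, G i (S.tr z p) = G i p) →
    (∀ p, |X p| ≤ X0) → S.near (d / 2 * N) (4 * s * N) ≠ ⊤ →
    |(S.fsum (K * N) (tau π) fun γ => f (xN N fun i : Fin m => S.co (γ i.succ)) * (∏ i : Fin m, G i (γ i.succ)) * X (γ 0)) -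
      ∑' x : Fin m → Z2, f (xN N x) * (∏ i, S.W1 (K * N) (G i)) * S.PX (K * N) π X x| ≤
    F0 * X0 * (G0 * S.mass r s N (K * N)) ^ m * (2 * R0 * N + 3) ^ (2 * m) *
      (m * (S.near (d / 2 * N) (4 * s * N)).toReal)

/-- **row A4**: the cutoff of `w` is removed -/
def A4 (χ : ℝ → ℝ) : Prop :=
  ∀ (m : ℕ) (π : Fin m → Bool) (R0 ε : ℝ), NT π → 0 < R0 → 0 < ε → ∃ R1 : ℝ, ∀ R : ℝ, R1 ≤ R → ∀ᶠ N : ℕ in atTop,
    ∀ K : ℕ, 2 * R ≤ K → ∀ x : Fin m → Z2, (∀ i, ‖xN N x i‖ ≤ R0) →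
      |S.PX (K * N) π (fun w => X1 χ R (S.hN N w)) x - S.Pf π x| ≤ ε ∧
      S.PX (K * N) π (fun w => if ∃ u, R ≤ |S.hN N w u| then 1 else 0) x ≤ ε

/-- `P` is bounded on separated points -/
def PB : Prop :=
  ∀ (m : ℕ) (π : Fin m → Bool) (R0 d : ℝ), NT π → 0 < R0 → 0 < d → ∃ C : ℝ, ∀ᶠ N : ℕ in atTop,
    ∀ x : Fin m → Z2, (∀ i, ‖xN N x i‖ ≤ R0) → (∀ i k, i ≠ k → d ≤ ‖xN N x i - xN N x k‖) → S.Pf π x ≤ C

end PSys

end Pool.Agent.ROT.A
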