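import Pool.Agent.ROT.EDefs

/-!
# ROT, E4: the geometry of one swap, and the nesting parity

`Sm.arc`: an arc of the new loop inside the strip joins two boundary half edges which were already joined by the old
loop, and the old arc visits all the rows between them.  `sg γ p y` = parity of the number of the occupied sides of `γ`
on the line `p` (between the columns `p - 1` and `p`) above the corner `(p, y)`; `sd γ h` its value at the lower left
end of the side `h`.  `nest`: all sides of another disjoint loop have the same value, `Sm.nest`: and it is kept by the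
swap.
-/

set_option autoImplicit false

namespace Pool.Agent.ROT.E

open Pool.Agent.YBC (Dir)

/-! ### elementary facts -/

private theorem nx_op (v : Pt) (d : Dir) : nx (nx v d) d.op = v := by
  cases d <;> simp [nx, Dir.op]

private theorem op_op (d : Dir) : d.op.op = d := by cases d <;> rfl

private theorem rv_rv (h : He) : rv (rv h) = h := by
  obtain ⟨v, d⟩ := h
  simp only [rv, nx_op, op_op]

private theorem rv_ne (h : He) : rv h ≠ h := by
  obtain ⟨v, d⟩ := h
  intro e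
  have := congrArg Prod.snd e
  cases d <;> simp [rv, Dir.op] at this

private theorem Cell.p_p (c : Cell) (d : Dir) : c.p (c.p d) = d := by
  cases c <;> cases d <;> rfl

private theorem Cell.oc_p (c : Cell) (d : Dir) : c.oc (c.p d) ↔ c.oc d := by
  unfold Cell.oc
  rw [Cell.p_p]
  exact ne_comm

private theorem vp_vp (γ : Cfg) (h : He) : vp γ (vp γ h) = h := by
  simp only [vp, Cell.p_p]

private theorem oc_vp (γ : Cfg) (h : He) : oc γ (vp γ h) ↔ oc γ h := Cell.oc_p _ _

private theorem vp_ne {γ : Cfg} {h : He} (ho : oc γ h) : vp γ h ≠ h := fun e => ho (congrArg Prod.snd e)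

private theorem oc_supp {γ : Cfg} {h : He} (ho : oc γ h) : h.1 ∈ γ.support := by
  rw [Finsupp.mem_support_iff]
  intro e
  apply ho
  rw [e]
  rfl

private theorem oc_fin (γ : Cfg) : {h | oc γ h}.Finite := by
  refine (Set.Finite.subset ((γ.support.finite_toSet).prod (Set.finite_univ (α := Dir))) ?_)
  intro h ho
  exact ⟨oc_supp ho, Set.mem_univ _⟩

private theorem exists_oc {γ : Cfg} {v : Pt} (h : γ v ≠ 0) : ∃ d, oc γ (v, d) := by
  have key : ∀ c : Cell, c ≠ .o → ∃ d, c.oc d := by decide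
  exact key _ h

/-! ### connections -/

private theorem Lk.oc' {γ : Cfg} {A : Set Pt} (hm : Mt γ A) {h k : He} (l : Lk γ A h k) : oc γ k ∧ k.1 ∈ A := by
  obtain ⟨ho, hA, rfl | ⟨rfl, hk⟩⟩ := l
  · exact ⟨(oc_vp γ h).2 ho, hA⟩
  · exact ⟨(hm h hA hk).1 ho, hk⟩

private theorem Lk.symm' {γ : Cfg} {A : Set Pt} (hm : Mt γ A) {h k : He} (l : Lk γ A h k) : Lk γ A k h := by
  have h2 := l.oc' hm
  obtain ⟨ho, hA, rfl | ⟨rfl, hk⟩⟩ := l
  · exact ⟨h2.1, h2.2, Or.inl (vp_vp γ h).symm⟩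
  · exact ⟨h2.1, h2.2, Or.inr ⟨(rv_rv h).symm, by rw [rv_rv]; exact hA⟩⟩

private theorem Cn.oc_mem {γ : Cfg} {A : Set Pt} (hm : Mt γ A) {h k : He} (c : Cn γ A h k) :
    h = k ∨ ((oc γ h ∧ h.1 ∈ A) ∧ (oc γ k ∧ k.1 ∈ A)) := by
  induction c with
  | rel h k l => exact Or.inr ⟨⟨l.1, l.2.1⟩, l.oc' hm⟩
  | refl h => exact Or.inl rfl
  | symm h k _ ih =>
    rcases ih with rfl | ih
    · exact Or.inl rfl
    · exact Or.inr ⟨ih.2, ih.1⟩
  | trans h k l _ _ ih1 ih2 =>
    rcases ih1 with rfl | ih1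
    · exact ih2
    · rcases ih2 with rfl | ih2
      · exact Or.inr ih1
      · exact Or.inr ⟨ih1.1, ih2.2⟩

private theorem Cn.oc_right {γ : Cfg} {A : Set Pt} (hm : Mt γ A) {h k : He} (c : Cn γ A h k) (ho : oc γ h) (hA : h.1 ∈ A) :
    oc γ k ∧ k.1 ∈ A := by
  rcases c.oc_mem hm with rfl | c
  · exact ⟨ho, hA⟩
  · exact c.2

/-- a property kept by the links is kept by the connections -/
private theorem Cn.inv {γ : Cfg} {A : Set Pt} {P : He → Prop} (hP : ∀ h k, Lk γ A h k → (P h ↔ P k)) {h k : He}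
    (c : Cn γ A h k) : P h ↔ P k := by
  induction c with
  | rel h k l => exact hP h k l
  | refl h => exact Iff.rfl
  | symm h k _ ih => exact ih.symm
  | trans h k l _ _ ih1 ih2 => exact ih1.trans ih2

private theorem Cn.mono {γ : Cfg} {A B : Set Pt} (hAB : A ⊆ B) {h k : He} (c : Cn γ A h k) : Cn γ B h k := by
  induction c with
  | rel h k l =>
    refine Relation.EqvGen.rel _ _ ⟨l.1, hAB l.2.1, ?_⟩
    rcases l.2.2 with e | ⟨e, m⟩
    · exact Or.inl e
    · exact Or.inr ⟨e, hAB m⟩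
  | refl h => exact Relation.EqvGen.refl _
  | symm h k _ ih => exact ih.symm
  | trans h k l _ _ ih1 ih2 => exact ih1.trans _ _ _ ih2

/-- a connection visits every row between its ends -/
theorem Cn.row {γ : Cfg} {A : Set Pt} (hm : Mt γ A) {b b' : He} (c : Cn γ A b b') (hne : b ≠ b') {r : ℤ}
    (h1 : b.1.2 ≤ r) (h2 : r ≤ b'.1.2) : ∃ h, h.1 ∈ A ∧ h.1.2 = r ∧ oc γ h := by
  by_contra hc
  push Not at hc
  have hb := (c.oc_mem hm).resolve_left hne
  have hb1 : b.1.2 ≠ r := fun e => hc b hb.1.2 e hb.1.1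
  have hb2 : b'.1.2 ≠ r := fun e => hc b' hb.2.2 e hb.2.1
  have hi := c.inv (P := fun h => h.1.2 < r) (by
    intro h k l
    have hk := l.oc' hm
    have e1 : h.1.2 ≠ r := fun e => hc h l.2.1 e l.1
    have e2 : k.1.2 ≠ r := fun e => hc k hk.2 e hk.1
    rcases l.2.2 with rfl | ⟨rfl, -⟩
    · exact Iff.rfl
    · obtain ⟨⟨x, y⟩, d⟩ := h
      cases d <;> simp only [rv, nx] at e1 e2 ⊢ <;> omega)
  have h3 : b.1.2 < r := lt_of_le_of_ne h1 hb1
  have h4 := hi.1 h3
  omega

/-- a finite set with an involution without fixed points is even -/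
private theorem even_inv {s : Finset He} (g : He → He) (h1 : ∀ a ∈ s, g a ∈ s) (h2 : ∀ a ∈ s, g (g a) = a)
    (h3 : ∀ a ∈ s, g a ≠ a) : (s.card : ZMod 2) = 0 := by
  have := Finset.sum_involution (s := s) (f := fun _ => (1 : ZMod 2)) (fun a _ => g a)
    (fun a _ => by decide) (fun a ha _ => h3 a ha) (fun a ha => h1 a ha) (fun a ha => h2 a ha)
  simpa using this

/-- **a loop which leaves the strip: every arc in the strip has two different ends on the boundary** -/
theorem Lp.ends {γ : Cfg} (hl : Lp γ) {j : ℤ} (hg : ∃ v, v ∉ Sp j ∧ γ v ≠ 0) {h : He} (ho : oc γ h)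
    (hh : h.1 ∈ Sp j) : ∃ b ∈ Bd j, ∃ b' ∈ Bd j, b ≠ b' ∧ Cn γ (Sp j) b h ∧ Cn γ (Sp j) b' h := by
  classical
  have hm : Mt γ (Sp j) := fun k _ _ => hl.mt k (Set.mem_univ _) (Set.mem_univ _)
  have hfin : {k | Cn γ (Sp j) h k}.Finite :=
    (oc_fin γ).subset fun k hk => (Cn.oc_right hm hk ho hh).1
  set s : Finset He := hfin.toFinset with hs
  have ms : ∀ k, k ∈ s ↔ Cn γ (Sp j) h k := fun k => by rw [hs, Set.Finite.mem_toFinset]; rfl
  have so : ∀ k ∈ s, oc γ k ∧ k.1 ∈ Sp j := fun k hk => Cn.oc_right hm ((ms k).1 hk) ho hh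
  have e1 : (s.card : ZMod 2) = 0 := by
    refine even_inv (vp γ) (fun a ha => ?_) (fun a _ => vp_vp γ a) (fun a ha => vp_ne (so a ha).1)
    exact (ms _).2 (((ms a).1 ha).trans _ _ _ (Relation.EqvGen.rel _ _ ⟨(so a ha).1, (so a ha).2, Or.inl rfl⟩))
  have e2 : ((s.filter fun k => k ∉ Bd j).card : ZMod 2) = 0 := by
    have aux : ∀ a ∈ s.filter (fun k => k ∉ Bd j), a ∈ s ∧ (rv a).1 ∈ Sp j := by
      intro a ha
      obtain ⟨ha, hb⟩ := Finset.mem_filter.1 ha
      refine ⟨ha, ?_⟩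
      by_contra hc
      exact hb ⟨(so a ha).2, hc⟩
    refine even_inv rv (fun a ha => ?_) (fun a _ => rv_rv a) (fun a _ => rv_ne a)
    obtain ⟨h1, h2⟩ := aux a ha
    refine Finset.mem_filter.2 ⟨?_, ?_⟩
    · exact (ms _).2 (((ms a).1 h1).trans _ _ _
        (Relation.EqvGen.rel _ _ ⟨(so a h1).1, (so a h1).2, Or.inr ⟨rfl, h2⟩⟩))
    · intro hb
      exact hb.2 (by rw [rv_rv]; exact (so a h1).2)
  have e3 : ((s.filter fun k => k ∈ Bd j).card : ZMod 2) = 0 := by
    have := Finset.card_filter_add_card_filter_not (s := s) (fun k => k ∈ Bd j)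
    rw [← this, Nat.cast_add, e2, add_zero] at e1
    exact e1
  have ne : (s.filter fun k => k ∈ Bd j).Nonempty := by
    by_contra hc
    rw [Finset.not_nonempty_iff_eq_empty, Finset.filter_eq_empty_iff] at hc
    obtain ⟨v, hv, hv0⟩ := hg
    obtain ⟨d, hd⟩ := exists_oc hv0
    have hi := (hl.cn h (v, d) ho hd).inv (P := fun k => k ∈ s) (by
      intro a b l
      have key : ∀ a b, Lk γ Set.univ a b → a ∈ s → b ∈ s := by
        intro a b l ha
        refine (ms b).2 (((ms a).1 ha).trans _ _ _ (Relation.EqvGen.rel _ _ ⟨(so a ha).1, (so a ha).2, ?_⟩))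
        rcases l.2.2 with e | ⟨rfl, -⟩
        · exact Or.inl e
        · refine Or.inr ⟨rfl, ?_⟩
          by_contra hc2
          exact hc ha ⟨(so a ha).2, hc2⟩
      exact ⟨key a b l, key b a (l.symm' hl.mt)⟩)
    have h1 := hi.1 ((ms h).2 (Relation.EqvGen.refl _))
    exact hv (so _ h1).2
  have h2 : 1 < (s.filter fun k => k ∈ Bd j).card := by
    have h1 := ne.card_pos
    rcases Nat.lt_or_ge 1 (s.filter fun k => k ∈ Bd j).card with h | h
    · exact h
    · have : (s.filter fun k => k ∈ Bd j).card = 1 := le_antisymm h h1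
      rw [this] at e3
      exact absurd e3 (by decide)
  obtain ⟨b, hb, b', hb', hne⟩ := Finset.one_lt_card.1 h2
  rw [Finset.mem_filter] at hb hb'
  exact ⟨b, hb.2, b', hb'.2, hne, ((ms b).1 hb.1).symm, ((ms b').1 hb'.1).symm⟩

variable {I : Type}

private theorem co_apply (γ : Fm I) (i : I) (v : Pt) : co γ i v = γ v i := rfl

/-- **the geometry of one swap** -/
theorem Sm.arc {j : ℤ} {γ γ' : Fm I} (hs : Sm j γ γ') {i : I} {h' : He} (ho : oc (co γ' i) h') (hh : h'.1 ∈ Sp j) :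
    ∃ b ∈ Bd j, ∃ b' ∈ Bd j, b ≠ b' ∧ Cn (co γ' i) (Sp j) b h' ∧ Cn (co γ' i) (Sp j) b' h' ∧
      Cn (co γ i) (Sp j) b b' ∧
      ∀ r : ℤ, (b.1.2 ≤ r ∧ r ≤ b'.1.2) ∨ (b'.1.2 ≤ r ∧ r ≤ b.1.2) →
        ∃ h, h.1 ∈ Sp j ∧ h.1.2 = r ∧ oc (co γ i) h := by
  obtain ⟨v, hv, hv0⟩ := hs.gd i
  have hg : ∃ v, v ∉ Sp j ∧ co γ' i v ≠ 0 := ⟨v, hv, by rw [co_apply, ← hs.out v hv]; exact hv0⟩
  obtain ⟨b, hb, b', hb', hne, c1, c2⟩ := (hs.fam'.lp i).ends hg ho hh
  have c3 : Cn (co γ i) (Sp j) b b' := (hs.pr i b hb b' hb').2 (c1.trans _ _ _ c2.symm)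
  have hm : Mt (co γ i) (Sp j) := fun k _ _ => (hs.fam.lp i).mt k (Set.mem_univ _) (Set.mem_univ _)
  refine ⟨b, hb, b', hb', hne, c1, c2, c3, fun r hr => ?_⟩
  rcases hr with ⟨h1, h2⟩ | ⟨h1, h2⟩
  · exact c3.row hm hne h1 h2
  · exact Cn.row hm c3.symm hne.symm h1 h2

/-! ### the side parity -/

open Classical in
/-- the indicator -/
noncomputable def io (γ : Cfg) (v : Pt) (d : Dir) : ZMod 2 := if oc γ (v, d) then 1 else 0

open Classical in
/-- **the side of the corner `(p, y)`**: parity of the occupied sides on the line `p` above it -/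
noncomputable def sg (γ : Cfg) (p y : ℤ) : ZMod 2 :=
  ∑ v ∈ γ.support, if v.1 = p ∧ y ≤ v.2 then io γ v .W else 0

theorem io_eq {γ : Cfg} {v : Pt} {d : Dir} {γ' : Cfg} {v' : Pt} {d' : Dir} (h : oc γ (v, d) ↔ oc γ' (v', d')) :
    io γ v d = io γ' v' d' := by
  unfold io
  by_cases hc : oc γ (v, d)
  · rw [if_pos hc, if_pos (h.1 hc)]
  · rw [if_neg hc, if_neg fun h' => hc (h.2 h')]

theorem io_of {γ : Cfg} {v : Pt} {d : Dir} (h : ¬ oc γ (v, d)) : io γ v d = 0 := if_neg h

theorem io_supp {γ : Cfg} {v : Pt} {d : Dir} (h : v ∉ γ.support) : io γ v d = 0 :=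
  io_of fun ho => h (oc_supp ho)

theorem sg_succ (γ : Cfg) (p y : ℤ) : sg γ p y = sg γ p (y + 1) + io γ (p, y) .W := by
  classical
  have h1 : ∀ v : Pt, (if v.1 = p ∧ y ≤ v.2 then io γ v .W else 0) =
      (if v.1 = p ∧ y + 1 ≤ v.2 then io γ v .W else 0) + if v = (p, y) then io γ v .W else 0 := by
    intro v
    by_cases e : v = (p, y)
    · subst e
      simp
    · rw [if_neg e, add_zero]
      have : (v.1 = p ∧ y ≤ v.2) ↔ (v.1 = p ∧ y + 1 ≤ v.2) := by
        constructor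
        · rintro ⟨h1, h2⟩
          refine ⟨h1, ?_⟩
          rcases eq_or_lt_of_le h2 with h3 | h3
          · exact absurd (Prod.ext h1 h3.symm) e
          · omega
        · rintro ⟨h1, h2⟩
          exact ⟨h1, by omega⟩
      simp only [this]
  unfold sg
  simp only [h1]
  rw [Finset.sum_add_distrib]
  congr 1
  rw [Finset.sum_ite_eq' γ.support (p, y) (fun v => io γ v .W)]
  by_cases hm : (p, y) ∈ γ.support
  · rw [if_pos hm]
  · rw [if_neg hm, io_supp hm]

/-- the parity of one cell -/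
theorem io_cell (γ : Cfg) (v : Pt) : io γ v .E + io γ v .N + io γ v .W + io γ v .S = 0 := by
  unfold io oc
  generalize γ v = c
  cases c <;> simp [Cell.oc, Cell.p] <;> decide

private theorem exists_top (γ : Cfg) : ∃ Y : ℤ, ∀ p y, Y ≤ y → sg γ p y = 0 ∧ ∀ d, io γ (p, y) d = 0 := by
  classical
  obtain ⟨Y, hY⟩ : ∃ Y : ℤ, ∀ v ∈ γ.support, v.2 < Y := by
    obtain ⟨Y, hY⟩ := (γ.support.image Prod.snd).bddAbove
    exact ⟨Y + 1, fun v hv => Int.lt_add_one_iff.2 (hY (Finset.mem_coe.2 (Finset.mem_image_of_mem _ hv)))⟩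
  refine ⟨Y, fun p y hy => ⟨?_, fun d => io_supp fun hm => ?_⟩⟩
  · refine Finset.sum_eq_zero fun v hv => if_neg ?_
    rintro ⟨-, h2⟩
    have := hY v hv
    omega
  · have := hY _ hm
    simp only at this
    omega

private theorem exists_top' (γ : Cfg) : ∃ Y : ℤ, ∀ p y, Y ≤ y → sg γ p y = 0 := by
  obtain ⟨Y, hY⟩ := exists_top γ
  exact ⟨Y, fun p y h => (hY p y h).1⟩

/-- **(P1)**: a horizontal side -/
theorem sg_right {γ : Cfg} (hm : Mt γ Set.univ) (p y : ℤ) : sg γ p y = sg γ (p + 1) y + io γ (p, y) .S := by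
  obtain ⟨Y, hY⟩ := exists_top γ
  have key : ∀ n : ℕ, ∀ y : ℤ, Y ≤ y + n → sg γ p y = sg γ (p + 1) y + io γ (p, y) .S := by
    intro n
    induction n with
    | zero =>
      intro y hy
      have hy' : Y ≤ y := by simpa using hy
      rw [(hY p y hy').1, (hY (p + 1) y hy').1, (hY p y hy').2]
      rfl
    | succ n ih =>
      intro y hy
      have h1 := ih (y + 1) (by push_cast at hy ⊢; omega)
      have e1 : io γ (p + 1, y) .W = io γ (p, y) .E :=
        io_eq (hm ((p, y), .E) (Set.mem_univ _) (Set.mem_univ _)).symm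
      have e2 : io γ (p, y + 1) .S = io γ (p, y) .N :=
        io_eq (hm ((p, y), .N) (Set.mem_univ _) (Set.mem_univ _)).symm
      rw [sg_succ γ p y, sg_succ γ (p + 1) y, h1, e1, e2]
      have h2 := io_cell γ (p, y)
      have h3 : ∀ a b c d e : ZMod 2, b + c + d + e = 0 → a + c + d = a + b + e := by decide
      exact h3 _ _ _ _ _ h2
  exact key (Y - y).toNat y (by
    have := Int.self_le_toNat (Y - y)
    omega)

/-- the lower left end of the side -/
def cr (h : He) : Pt :=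
  match h.2 with
  | .W => h.1
  | .S => h.1
  | .E => (h.1.1 + 1, h.1.2)
  | .N => (h.1.1, h.1.2 + 1)

theorem cr_rv (h : He) : cr (rv h) = cr h := by
  obtain ⟨⟨x, y⟩, d⟩ := h
  cases d <;> simp [cr, rv, nx, Dir.op]

/-- **the side of a side** -/
noncomputable def sd (γ : Cfg) (h : He) : ZMod 2 := sg γ (cr h).1 (cr h).2

theorem sd_rv (γ : Cfg) (h : He) : sd γ (rv h) = sd γ h := by
  unfold sd
  rw [cr_rv]

/-- the difference inside one cell -/
private def dl (c : Cell) : Dir → ZMod 2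
  | .W => 0
  | .S => 0
  | .E => if c.oc .S then 1 else 0
  | .N => if c.oc .W then 1 else 0

private theorem sd_eq {γ : Cfg} (hm : Mt γ Set.univ) (v : Pt) (d : Dir) :
    sd γ (v, d) = sg γ v.1 v.2 + dl (γ v) d := by
  obtain ⟨p, y⟩ := v
  have h3 : ∀ a b c : ZMod 2, a = b + c → b = a + c := by decide
  cases d with
  | W => simp [sd, cr, dl]
  | S => simp [sd, cr, dl]
  | E =>
    have := h3 _ _ _ (sg_right hm p y)
    have e : dl (γ (p, y)) .E = io γ (p, y) .S := by
      unfold dl io oc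
      by_cases h : (γ (p, y)).oc .S <;> simp [h]
    rw [e]
    exact this
  | N =>
    have := h3 _ _ _ (sg_succ γ p y)
    have e : dl (γ (p, y)) .N = io γ (p, y) .W := by
      unfold dl io oc
      by_cases h : (γ (p, y)).oc .W <;> simp [h]
    rw [e]
    exact this

private theorem cell_dl : ∀ a b c : Cell, (∀ d, a.oc d → c.p d = a.p d) → (∀ d, b.oc d → c.p d = b.p d) →
    (∀ d, ¬ (a.oc d ∧ b.oc d)) → ∀ d, a.oc d → dl b (a.p d) = dl b d := by
  decide

/-- **nesting**: all sides of another member are on the same side -/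
theorem nest {γ : Fm I} (hf : Fam γ) {i i' : I} (hne : i ≠ i') {h k : He} (h1 : oc (co γ i') h)
    (h2 : oc (co γ i') k) : sd (co γ i) h = sd (co γ i) k := by
  have hm := (hf.lp i).mt
  have hc := ((hf.lp i').cn h k h1 h2).inv (P := fun l => sd (co γ i) l = sd (co γ i) k) (by
    intro a b l
    have e : sd (co γ i) a = sd (co γ i) b := by
      rcases l.2.2 with rfl | ⟨rfl, -⟩
      · obtain ⟨v, d⟩ := a
        obtain ⟨c, hc⟩ := hf.dj v
        have hd : (co γ i' v).oc d := l.1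
        have := cell_dl (co γ i' v) (co γ i v) c (fun d hd => hc.1 i' d hd) (fun d hd => hc.1 i d hd)
          (fun d hd => hne (hc.2.1 i i' d hd.2 hd.1)) d hd
        show sd (co γ i) (v, d) = sd (co γ i) (v, (co γ i' v).p d)
        rw [sd_eq hm, sd_eq hm, this]
      · exact (sd_rv _ _).symm
    rw [e])
  exact hc.2 rfl

theorem Sm.oc_out {j : ℤ} {γ γ' : Fm I} (hs : Sm j γ γ') (i : I) {h : He} (hh : h.1 ∉ Sp j ∨ (rv h).1 ∉ Sp j) :
    oc (co γ i) h ↔ oc (co γ' i) h := by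
  have key : ∀ k : He, k.1 ∉ Sp j → (oc (co γ i) k ↔ oc (co γ' i) k) := by
    intro k hk
    unfold oc
    rw [co_apply, co_apply, hs.out _ hk]
  rcases hh with hh | hh
  · exact key h hh
  · rw [(hs.fam.lp i).mt h (Set.mem_univ _) (Set.mem_univ _), (hs.fam'.lp i).mt h (Set.mem_univ _) (Set.mem_univ _)]
    exact key _ hh

/-- the lines outside of the strip do not change -/
theorem Sm.sg_eq {j : ℤ} {γ γ' : Fm I} (hs : Sm j γ γ') (i : I) {p : ℤ} (hp : p ≠ j + 1) (y : ℤ) :
    sg (co γ i) p y = sg (co γ' i) p y := by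
  obtain ⟨Y, hY⟩ := exists_top' (co γ i)
  obtain ⟨Y', hY'⟩ := exists_top' (co γ' i)
  have key : ∀ n : ℕ, ∀ y : ℤ, max Y Y' ≤ y + n → sg (co γ i) p y = sg (co γ' i) p y := by
    intro n
    induction n with
    | zero =>
      intro y hy
      have hy' : max Y Y' ≤ y := by simpa using hy
      rw [hY p y (le_trans (le_max_left _ _) hy'), hY' p y (le_trans (le_max_right _ _) hy')]
    | succ n ih =>
      intro y hy
      have h1 := ih (y + 1) (by push_cast at hy ⊢; omega)
      rw [sg_succ, sg_succ (co γ' i), h1]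
      congr 1
      refine io_eq (hs.oc_out i ?_)
      simp only [Sp, rv, nx, Set.mem_ofPred_eq]
      omega
  exact key (max Y Y' - y).toNat y (by
    have := Int.self_le_toNat (max Y Y' - y)
    omega)

/-- **the swap keeps the nesting** -/
theorem Sm.nest {j : ℤ} {γ γ' : Fm I} (hs : Sm j γ γ') {i i' : I} (hne : i ≠ i') {h k : He} (h1 : oc (co γ i') h)
    (h2 : oc (co γ' i') k) : sd (co γ i) h = sd (co γ' i) k := by
  obtain ⟨v, hv, hv0⟩ := hs.gd i'
  obtain ⟨d, hd⟩ := exists_oc (γ := co γ i') (v := v) hv0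
  have hd' : oc (co γ' i') (v, d) := (hs.oc_out i' (Or.inl hv)).1 hd
  rw [E.nest hs.fam hne h1 hd, E.nest hs.fam' hne h2 hd']
  refine hs.sg_eq i ?_ _
  obtain ⟨p, y⟩ := v
  simp only [Sp, Set.mem_ofPred_eq, not_or] at hv
  cases d <;> simp only [cr] <;> omega

end Pool.Agent.ROT.E
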