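import Pool.Agent.ROT.EHexD

/-!
# ROT, row E8: marked points, supports, positions in the plane
-/

set_option autoImplicit false

namespace Pool.Agent.ROT.E.Hx

open scoped ENNReal

/-- **the marked point does not matter** -/
theorem mtp2 {top top' : Cfg → Pt} (ht : ∀ a γ, HL γ → top (trc a γ) = top γ + a)
    (ht' : ∀ a γ, HL γ → top' (trc a γ) = top' γ + a) (G : Cfg → ℝ≥0∞) (hG : ∀ a γ, HL γ → G (trc a γ) = G γ) :
    ∑' γ : {γ : Cfg // HL γ ∧ top γ = 0}, wl γ.1 * G γ.1 = ∑' γ : {γ : Cfg // HL γ ∧ top' γ = 0}, wl γ.1 * G γ.1 := by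
  rw [mtp ht G hG, mtp ht' G hG]

/-- the square vertex (column, row) of a honeycomb vertex -/
def sq (p : HexObs.Pt) : Pt := (HexObs.ip p (1, 0) / 3, HexObs.ip p (-1, 1) / 3)

theorem ip_wh (v : Pt) : HexObs.ip (wh v) (1, 0) = 3 * v.1 ∧ HexObs.ip (wh v) (-1, 1) = 3 * v.2 ∧
    HexObs.ip (wh v) (0, 1) = 3 * (v.1 + v.2) := by
  unfold HexObs.ip wh
  refine ⟨?_, ?_, ?_⟩ <;> simp only <;> ring

theorem ip_bk (v : Pt) : HexObs.ip (bk v) (1, 0) = 3 * v.1 + 1 ∧ HexObs.ip (bk v) (-1, 1) = 3 * v.2 + 1 ∧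
    HexObs.ip (bk v) (0, 1) = 3 * (v.1 + v.2) + 2 := by
  unfold HexObs.ip bk
  refine ⟨?_, ?_, ?_⟩ <;> simp only <;> ring

theorem sq_wh (v : Pt) : sq (wh v) = v := by
  obtain ⟨h1, h2, -⟩ := ip_wh v
  unfold sq
  rw [h1, h2]
  apply Prod.ext <;> simp only <;> omega

theorem sq_bk (v : Pt) : sq (bk v) = v := by
  obtain ⟨h1, h2, -⟩ := ip_bk v
  unfold sq
  rw [h1, h2]
  apply Prod.ext <;> simp only <;> omega

theorem sq_st (e : Bo) : sq (st e) = e.1 := by
  unfold st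
  split_ifs
  · exact sq_wh _
  · exact sq_bk _

theorem ex_us {c : Cell} (h : c ≠ .o) : ∃ s, us c s = true := by
  revert h
  cases c <;> intro h <;> first
    | exact absurd rfl h
    | exact ⟨.ww, by decide⟩
    | exact ⟨.ee, by decide⟩
    | exact ⟨.ss, by decide⟩

/-- **the support is the set of the square vertices of the honeycomb vertices** -/
theorem supp_hs (γ : Cfg) : γ.support = (hs γ).image sq := by
  ext v
  rw [Finsupp.mem_support_iff, Finset.mem_image]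
  constructor
  · intro h
    obtain ⟨s, hs⟩ := ex_us (c := γ v) h
    exact ⟨st (v, s), mem_hs.2 ⟨(v, s), hs, rfl⟩, sq_st _⟩
  · rintro ⟨p, hp, rfl⟩
    obtain ⟨f, hf, rfl⟩ := mem_hs.1 hp
    rw [sq_st, ← Finsupp.mem_support_iff]
    exact ub_supp hf

/-- the support of the loop of a word -/
theorem supp_lpw {e : Bo} {t : List Bool} (h : t ∈ Wo) :
    (lpw e t).support = (Finset.range t.length).image fun i => (bt e t i).1 := by
  rw [supp_hs, hs_lpw h, Finset.image_image]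
  apply Finset.image_congr
  intro i _
  show sq (HexObs.vx (st e) (dr e.2) t i) = _
  rw [← st_bt, sq_st]

theorem supp_lpw' {e : Bo} {t : List Bool} (h : t ∈ Wo) (v : Pt) :
    lpw e t v ≠ 0 ↔ ∃ i, i < t.length ∧ (bt e t i).1 = v := by
  rw [← Finsupp.mem_support_iff, supp_lpw h, Finset.mem_image]
  constructor
  · rintro ⟨i, hi, h⟩
    exact ⟨i, Finset.mem_range.1 hi, h⟩
  · rintro ⟨i, hi, h⟩
    exact ⟨i, Finset.mem_range.2 hi, h⟩

/-- the position of a square vertex in the plane: column step `√3 e^(iπ/6)`, row step `√3 i` -/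
noncomputable def ps (v : Pt) : ℂ := (v.1 : ℝ) • (⟨3 / 2, Real.sqrt 3 / 2⟩ : ℂ) + (v.2 : ℝ) • (⟨0, Real.sqrt 3⟩ : ℂ)

theorem emb_wh (v : Pt) : HexObs.emb (wh v) = ps v := by
  apply Complex.ext
  · simp [HexObs.emb_re, ps, wh]
    ring
  · simp [HexObs.emb_im, ps, wh]
    ring

theorem emb_bk (v : Pt) : HexObs.emb (bk v) = ps v + HexObs.zt := by
  apply Complex.ext
  · simp [HexObs.emb_re, ps, bk, HexObs.zt]
    ring
  · simp [HexObs.emb_im, ps, bk, HexObs.zt]
    ring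

theorem norm_zt : ‖HexObs.zt‖ = 1 := by
  rw [Complex.norm_def, Complex.normSq_apply]
  have h3 : Real.sqrt 3 * Real.sqrt 3 = 3 := Real.mul_self_sqrt (by norm_num)
  rw [Real.sqrt_eq_one]
  simp only [HexObs.zt]
  linear_combination (1 / 4) * h3

/-- **the square vertex is at distance at most 1** -/
theorem dist_st (e : Bo) : dist (HexObs.emb (st e)) (ps e.1) ≤ 1 := by
  rw [dist_eq_norm]
  unfold st
  split_ifs
  · rw [emb_wh, sub_self, norm_zero]
    exact zero_le_one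
  · rw [emb_bk, add_sub_cancel_left, norm_zt]

/-- the steps of the honeycomb walk in the square lattice: 0 or 1 -/
theorem bt_step (e : Bo) (t : List Bool) (i : ℕ) : (bt e t (i + 1)).1 = (bt e t i).1 ∨
    ∃ d, (bt e t (i + 1)).1 = nx (bt e t i).1 d := by
  show (rev (bt e t i)).1 = _ ∨ ∃ d, (rev (bt e t i)).1 = _
  obtain ⟨v, s⟩ := bt e t i
  cases s
  · exact Or.inr ⟨.W, rfl⟩
  · exact Or.inr ⟨.S, rfl⟩
  · exact Or.inl rfl
  · exact Or.inr ⟨.E, rfl⟩
  · exact Or.inr ⟨.N, rfl⟩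
  · exact Or.inl rfl

end Pool.Agent.ROT.E.Hx
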