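import Pool.Agent.ROT.ESym

/-!
# ROT, block E, row E7 (helper68): the transposition in the form of the plan

`tr γ (x, y) = (γ (y, x))` transposed, for configurations and for families.
-/

set_option autoImplicit false

namespace Pool.Agent.ROT.E

/-- the transposed configuration -/
noncomputable def tr (γ : Cfg) : Cfg := tpS.ac γ

/-- the transposed family -/
noncomputable def trF {I : Type} (γ : Fm I) : Fm I := tpS.acF γ

theorem tr_apply (γ : Cfg) (x y : ℤ) : tr γ (x, y) = (γ (y, x)).tp := tpS.ac_apply γ (y, x)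

theorem trF_apply {I : Type} (γ : Fm I) (x y : ℤ) (i : I) : trF γ (x, y) i = (γ (y, x) i).tp :=
  congrFun (tpS.acF_apply γ (y, x)) i

theorem tr_tr (γ : Cfg) : tr (tr γ) = γ := tpS.inv_ac γ

theorem trF_trF {I : Type} (γ : Fm I) : trF (trF γ) = γ := tpS.inv_acF γ

theorem co_tr {I : Type} (γ : Fm I) (i : I) : co (trF γ) i = tr (co γ i) := tpS.co_acF γ i

/-- **loops** -/
theorem lp_tr (γ : Cfg) : Lp (tr γ) ↔ Lp γ := tpS.lp_iff γ

/-- **families** -/
theorem fam_tr {I : Type} (γ : Fm I) : Fam (trF γ) ↔ Fam γ := tpS.fam_iff γ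

/-- **the measure** (constant angle) -/
theorem M_tr' {I : Type} (b : ℝ) (γ : Fm I) : M (fun _ => b) (trF γ) = M (fun _ => b) γ := M_tp b γ

end Pool.Agent.ROT.E
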