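import Pool.Agent.ROT.EDer

/-!
# ROT, linear response, L4 (helper93): the extreme column and the extreme row of a loop

* `left_cell`: the leftmost column of a matched configuration has only the cells `o, v, ne, se`;
* `left_card`: as many `ne` as `se`;
* `Qc γ l`: the sum of the logarithmic derivatives `tau` over the column `l`; `Qc_eq`, **`Qc_ge`**: for the leftmost
  column `Qc ≥ 2 - √2`.
-/

set_option autoImplicit false

namespace Pool.Agent.ROT.L

open Pool.Agent.ROT.E
open Pool.Agent.YBC (Dir)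

/-- the logarithmic derivative of the weight of a cell at `π / 8` (0 for `o` and `y`) -/
noncomputable def tau : Cell → ℝ
  | .o => 0
  | .h => 1
  | .v => 1
  | .sw => -Real.sqrt 2
  | .ne => -Real.sqrt 2
  | .se => 2
  | .nw => 2
  | .x => -(1 + 2 * Real.sqrt 2)
  | .y => 0

/-- `tau` is the logarithmic derivative (for `y` the weight is 0) -/
theorem wt_W1 {c : Cell} (h0 : c ≠ .o) (hy : c ≠ .y) : c.wt W1 = tau c * c.wt W0 := by
  cases c <;> first | exact absurd rfl h0 | exact absurd rfl hy | simp [Cell.wt, tau, W1]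

/-- in the leftmost column no side to the left is used -/
theorem left_W {γ : Cfg} (hm : Mt γ Set.univ) {l : ℤ} (hl : ∀ v : Pt, v.1 < l → γ v = 0) (r : ℤ) :
    ¬ oc γ ((l, r), .W) := by
  rw [hm ((l, r), .W) trivial trivial]
  unfold oc
  rw [hl]
  · exact fun h => h rfl
  · show l - 1 < l
    omega

theorem cell_W : ∀ c : Cell, ¬ c.oc .W → c = .o ∨ c = .v ∨ c = .ne ∨ c = .se := by decide

/-- **the cells of the leftmost column** -/
theorem left_cell {γ : Cfg} (hm : Mt γ Set.univ) {l : ℤ} (hl : ∀ v : Pt, v.1 < l → γ v = 0) (r : ℤ) :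
    γ (l, r) = .o ∨ γ (l, r) = .v ∨ γ (l, r) = .ne ∨ γ (l, r) = .se :=
  cell_W _ (left_W hm hl r)

open Classical in
/-- the number of cells `c` in the column `l` -/
noncomputable def nc (γ : Cfg) (l : ℤ) (c : Cell) : ℕ := (γ.support.filter fun v => v.1 = l ∧ γ v = c).card

open Classical in
/-- the sum of `tau` over the column `l` -/
noncomputable def Qc (γ : Cfg) (l : ℤ) : ℝ := ∑ v ∈ γ.support.filter (fun v => v.1 = l), tau (γ v)

open Classical in
/-- the vertical edge above the cell is used -/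
noncomputable def up (γ : Cfg) (l r : ℤ) : ℤ := if oc γ ((l, r), .N) then 1 else 0

theorem up_cell {γ : Cfg} (hm : Mt γ Set.univ) {l : ℤ} (hl : ∀ v : Pt, v.1 < l → γ v = 0) (r : ℤ) :
    up γ l r - up γ l (r - 1) = (if γ (l, r) = .ne then 1 else 0) - (if γ (l, r) = .se then 1 else 0) := by
  have h1 : oc γ ((l, r - 1), .N) ↔ oc γ ((l, r), .S) := by
    rw [hm ((l, r - 1), .N) trivial trivial]
    show oc γ ((l, r - 1 + 1), .S) ↔ _
    rw [sub_add_cancel]
  classical
  have h2 : up γ l (r - 1) = if oc γ ((l, r), .S) then 1 else 0 := if_congr h1 rfl rfl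
  rw [h2]
  unfold up oc
  rcases left_cell hm hl r with h | h | h | h <;> simp [h, Cell.oc, Cell.p]

theorem up_zero {γ : Cfg} {l r : ℤ} (h : (l, r) ∉ γ.support) : up γ l r = 0 := by
  rw [Finsupp.notMem_support_iff] at h
  unfold up oc
  rw [h]
  exact if_neg fun h => h rfl

open Classical in
/-- sums over the column as sums over the rows -/
theorem sum_rows {M : Type*} [AddCommMonoid M] {γ : Cfg} {l A B : ℤ}
    (hA : ∀ r, (l, r) ∈ γ.support → A < r ∧ r ≤ B) (f : Cell → M) (h0 : f .o = 0) :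
    ∑ v ∈ γ.support.filter (fun v => v.1 = l), f (γ v) = ∑ r ∈ Finset.Ioc A B, f (γ (l, r)) := by
  symm
  rw [← Finset.sum_filter_of_ne (s := Finset.Ioc A B) (p := fun r => (l, r) ∈ γ.support)]
  · apply Finset.sum_bij (fun r _ => ((l, r) : Pt))
    · intro r hr
      rw [Finset.mem_filter] at hr ⊢
      exact ⟨hr.2, rfl⟩
    · intro r _ r' _ h
      exact congrArg Prod.snd h
    · rintro ⟨a, r⟩ hr
      rw [Finset.mem_filter] at hr
      obtain ⟨h1, rfl⟩ := hr
      exact ⟨r, by
        rw [Finset.mem_filter, Finset.mem_Ioc]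
        exact ⟨hA r h1, h1⟩, rfl⟩
    · intro r _
      rfl
  · intro r _ hr
    rw [Finsupp.mem_support_iff]
    intro hc
    apply hr
    rw [hc]
    exact h0

/-- the support of a column is bounded -/
theorem col_bdd (γ : Cfg) (l : ℤ) : ∃ A B : ℤ, A ≤ B ∧ ∀ r, (l, r) ∈ γ.support → A < r ∧ r ≤ B := by
  classical
  have hf : (γ.support.image Prod.snd).Nonempty ∨ γ.support.image Prod.snd = ∅ := by
    rcases Finset.eq_empty_or_nonempty (γ.support.image Prod.snd) with h | h
    · exact Or.inr h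
    · exact Or.inl h
  rcases hf with hf | hf
  · refine ⟨(γ.support.image Prod.snd).min' hf - 1, (γ.support.image Prod.snd).max' hf, ?_, fun r hr => ?_⟩
    · have := Finset.min'_le_max' _ hf
      omega
    · have h1 : r ∈ γ.support.image Prod.snd := Finset.mem_image.2 ⟨(l, r), hr, rfl⟩
      have h2 := Finset.min'_le _ r h1
      have h3 := Finset.le_max' _ r h1
      omega
  · refine ⟨0, 0, le_refl _, fun r hr => ?_⟩
    have h1 : r ∈ γ.support.image Prod.snd := Finset.mem_image.2 ⟨(l, r), hr, rfl⟩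
    rw [hf] at h1
    exact absurd h1 (Finset.notMem_empty _)

theorem sum_tel (f : ℤ → ℤ) {A B : ℤ} (h : A ≤ B) : ∑ r ∈ Finset.Ioc A B, (f r - f (r - 1)) = f B - f A := by
  obtain ⟨n, rfl⟩ := Int.le.dest h
  induction n with
  | zero => simp
  | succ n ih =>
    have h1 : Finset.Ioc A (A + ((n + 1 : ℕ) : ℤ)) = insert (A + ((n + 1 : ℕ) : ℤ)) (Finset.Ioc A (A + (n : ℤ))) := by
      ext x
      simp only [Finset.mem_Ioc, Finset.mem_insert]
      push_cast
      omega
    have h2 : A + ((n + 1 : ℕ) : ℤ) ∉ Finset.Ioc A (A + (n : ℤ)) := by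
      rw [Finset.mem_Ioc]
      push_cast
      omega
    rw [h1, Finset.sum_insert h2, ih (by omega)]
    have h3 : A + ((n + 1 : ℕ) : ℤ) - 1 = A + (n : ℤ) := by
      push_cast
      ring
    rw [h3]
    ring

theorem nc_eq {γ : Cfg} {l A B : ℤ} (hA : ∀ r, (l, r) ∈ γ.support → A < r ∧ r ≤ B) {c : Cell} (hc : c ≠ .o) :
    (nc γ l c : ℤ) = ∑ r ∈ Finset.Ioc A B, (if γ (l, r) = c then 1 else 0) := by
  classical
  have h := sum_rows hA (fun c' => if c' = c then (1 : ℤ) else 0) (if_neg fun h => hc h.symm)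
  rw [← h, ← Finset.sum_filter, Finset.filter_filter, Finset.sum_const, nc, nsmul_eq_mul, mul_one]

/-- **as many `ne` as `se` in the leftmost column** -/
theorem left_card {γ : Cfg} (hm : Mt γ Set.univ) {l : ℤ} (hl : ∀ v : Pt, v.1 < l → γ v = 0) :
    nc γ l .ne = nc γ l .se := by
  obtain ⟨A, B, hAB, hA⟩ := col_bdd γ l
  have h1 := sum_tel (up γ l) hAB
  rw [Finset.sum_congr rfl fun r _ => up_cell hm hl r, Finset.sum_sub_distrib, ← nc_eq hA (by decide),
    ← nc_eq hA (by decide)] at h1
  have hB : up γ l B = 0 := by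
    by_contra hc
    have hB' : (l, B) ∈ γ.support := by
      by_contra h2
      exact hc (up_zero h2)
    have h2 : oc γ ((l, B), .N) := by
      by_contra h2
      exact hc (if_neg h2)
    rw [hm ((l, B), .N) trivial trivial] at h2
    have h3 : (l, B + 1) ∈ γ.support := by
      rw [Finsupp.mem_support_iff]
      intro e
      have h4 : (γ (l, B + 1)).oc .S := h2
      rw [e] at h4
      exact h4 rfl
    have := hA _ h3
    omega
  have hA' : up γ l A = 0 := up_zero fun h => by
    have := hA _ h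
    omega
  rw [hB, hA'] at h1
  omega

/-- the column in terms of the numbers of the cells -/
theorem Qc_eq {γ : Cfg} (hm : Mt γ Set.univ) {l : ℤ} (hl : ∀ v : Pt, v.1 < l → γ v = 0) :
    Qc γ l = (2 - Real.sqrt 2) * nc γ l .ne + nc γ l .v := by
  classical
  obtain ⟨A, B, -, hA⟩ := col_bdd γ l
  have h1 : Qc γ l = ∑ r ∈ Finset.Ioc A B, tau (γ (l, r)) := sum_rows hA tau rfl
  have h2 : ∀ r, tau (γ (l, r)) = -Real.sqrt 2 * (if γ (l, r) = .ne then 1 else 0) +
      2 * (if γ (l, r) = .se then 1 else 0) + (if γ (l, r) = .v then 1 else 0) := fun r => by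
    rcases left_cell hm hl r with h | h | h | h <;> simp [h, tau]
  have hc : ∀ c : Cell, c ≠ .o → (nc γ l c : ℝ) = ∑ r ∈ Finset.Ioc A B, (if γ (l, r) = c then 1 else 0) := by
    intro c hc
    have := nc_eq hA hc
    have h3 : ((nc γ l c : ℤ) : ℝ) = ((∑ r ∈ Finset.Ioc A B, (if γ (l, r) = c then 1 else 0) : ℤ) : ℝ) := by
      rw [this]
    push_cast at h3
    exact h3
  rw [h1, Finset.sum_congr rfl fun r _ => h2 r, Finset.sum_add_distrib, Finset.sum_add_distrib, ← Finset.mul_sum,
    ← Finset.mul_sum, ← hc .ne (by decide), ← hc .se (by decide), ← hc .v (by decide), left_card hm hl]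
  ring

/-- the leftmost column has a cell `ne` -/
theorem left_ne {γ : Cfg} (hm : Mt γ Set.univ) {l : ℤ} (hl : ∀ v : Pt, v.1 < l → γ v = 0) {r : ℤ}
    (hr : γ (l, r) ≠ 0) : 1 ≤ nc γ l .ne := by
  classical
  by_contra hc
  have hn : ∀ c, c = Cell.ne ∨ c = Cell.se → ∀ s, γ (l, s) ≠ c := by
    intro c hcc s hs
    have h1 : nc γ l c = 0 := by
      rcases hcc with rfl | rfl
      · omega
      · rw [← left_card hm hl]
        omega
    have h2 : ((l, s) : Pt) ∈ γ.support.filter fun v => v.1 = l ∧ γ v = c := by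
      rw [Finset.mem_filter, Finsupp.mem_support_iff]
      refine ⟨?_, rfl, hs⟩
      rw [hs]
      rcases hcc with rfl | rfl <;> exact fun e => Cell.noConfusion e
    rw [nc, Finset.card_eq_zero] at h1
    rw [h1] at h2
    exact absurd h2 (Finset.notMem_empty _)
  have hv : ∀ s, γ (l, s) ≠ 0 → γ (l, s) = .v := by
    intro s hs
    rcases left_cell hm hl s with h | h | h | h
    · exact absurd h hs
    · exact h
    · exact absurd h (hn _ (Or.inl rfl) s)
    · exact absurd h (hn _ (Or.inr rfl) s)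
  have hstep : ∀ n : ℕ, γ (l, r + n) = .v := by
    intro n
    induction n with
    | zero =>
      rw [Nat.cast_zero, add_zero]
      exact hv r hr
    | succ n ih =>
      apply hv
      have h1 : oc γ ((l, r + n), .N) := by
        unfold oc
        rw [ih]
        exact fun h => Dir.noConfusion h
      rw [hm ((l, r + n), .N) trivial trivial] at h1
      intro e
      have h4 : (γ (l, r + n + 1)).oc .S := h1
      rw [show r + (n : ℤ) + 1 = r + ((n + 1 : ℕ) : ℤ) by push_cast; ring, e] at h4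
      exact h4 rfl
  obtain ⟨A, B, hAB, hA⟩ := col_bdd γ l
  have h5 := hA (r + ((B - r).toNat + 1 : ℕ)) (by
    rw [Finsupp.mem_support_iff, hstep]
    exact fun e => Cell.noConfusion e)
  push_cast at h5
  omega

/-- **the response of the extreme column is at least `2 - √2`** -/
theorem Qc_ge {γ : Cfg} (hm : Mt γ Set.univ) {l : ℤ} (hl : ∀ v : Pt, v.1 < l → γ v = 0) {r : ℤ}
    (hr : γ (l, r) ≠ 0) : 2 - Real.sqrt 2 ≤ Qc γ l := by
  rw [Qc_eq hm hl]
  have h1 : (1 : ℝ) ≤ nc γ l .ne := by exact_mod_cast left_ne hm hl hr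
  have h2 : (0 : ℝ) ≤ nc γ l .v := Nat.cast_nonneg _
  have h3 : 0 ≤ 2 - Real.sqrt 2 := by
    have : Real.sqrt 2 ≤ 2 := by
      rw [Real.sqrt_le_left (by norm_num)]
      norm_num
    linarith
  nlinarith [mul_le_mul_of_nonneg_left h1 h3]

end Pool.Agent.ROT.L
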