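import Pool.Agent.ROT.LHt
import Pool.Agent.ROT.LLeft

/-!
# ROT, block L (local currents): weights, sums, heights, response, the error terms

`wt`, `dwt` = weight of the honeycomb and its derivative in the angle, `jw` = first order weight of the trivial
crossing.  `M`, `dM p`, `Jw` = products over the vertices.  `A j r`, `J j s` = the sums of the local identity.
`ht γ i` = (left column, right column, bottom row, top row) of the member `i`; `he j r` = the extended heights.
-/

set_option autoImplicit false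

namespace Pool.Agent.ROT.L

open Pool.Agent.EXL (Wt)
open Pool.Agent.YBC (Dir)
open Pool.Agent.ROT.E (Cell IsUn Pt W0 W1 J1)

noncomputable section

variable {I : Type}

/-! ### weights -/

/-- the weight of the honeycomb -/
def wt (c : Cell) : ℝ := c.wt W0

/-- its derivative in the angle -/
def dwt (c : Cell) : ℝ := if c = .o then 0 else c.wt W1

/-- the first order weight of the crossing -/
def jw (c : Cell) : ℝ := if c = .o then 0 else c.wt J1

/-- the cap at the crossing against the minimal cup: `4 + 2 √2` -/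
def kk : ℝ := J1.u2 / (W0.u1 * W0.u2)

/-- families on the lattice with a crossing -/
abbrev FX (I : Type) := VX →₀ (I → Cell)

open Classical in
/-- the weight of a vertex of a family (0 if the local states are not disjoint) -/
def wfg (θ : Cell → ℝ) (f : I → Cell) : ℝ := ∑ c : Cell, if IsUn f c then θ c else 0

/-- the factor of a vertex: the crossing does not count -/
def fac : VX → (I → Cell) → ℝ
  | none, _ => 1
  | some _, f => wfg wt f

/-- **the weight of the honeycomb** (the crossing does not count) -/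
def M (γ : FX I) : ℝ := ∏ v ∈ γ.support, fac v (γ v)

open Classical in
/-- the derivative in the angle of the cell `p` -/
def dM (p : Pt) (γ : FX I) : ℝ := wfg dwt (γ (some p)) * ∏ v ∈ γ.support.erase (some p), fac v (γ v)

/-- the first order weight of a family with a crossing -/
def Jw (γ : FX I) : ℝ := M γ * wfg jw (γ none)

open Classical in
/-- the local derivative -/
def A (j r : ℤ) (F : FX I → ℝ) : ℝ :=
  ∑' γ : FX I, if Fam g0 γ then (dM (j, r) γ - dM (j + 1, r) γ) * F γ else 0

open Classical in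
/-- the current at the crossing between the rows `s - 1` and `s` -/
def J (j s : ℤ) (G : FX I → ℝ) : ℝ := ∑' γ : FX I, if Fam (gX j s) γ then Jw γ * G γ else 0

/-- the derivative at a vertex -/
def dMv (γ : FX I) : VX → ℝ
  | none => 0
  | some p => dM p γ

/-- the derivative in the angle of all columns -/
def dMt (γ : FX I) : ℝ := ∑ v ∈ γ.support, dMv γ v

open Classical in
/-- **the derivative of the measure** -/
def Mdf (F : FX I → ℝ) : ℝ := ∑' γ : FX I, if Fam g0 γ then dMt γ * F γ else 0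

/-- bounded support -/
def Bd (R : ℤ) (F : FX I → ℝ) : Prop := ∀ γ, F γ ≠ 0 → ∀ a b : ℤ, γ (some (a, b)) ≠ 0 → |a| ≤ R ∧ |b| ≤ R

/-- the three graphs of the row `r` -/
def Gs (j r : ℤ) : Set (Gr VX) := {g0, gX j r, gX j (r + 1)}

/-- constant on the classes of the row `r` -/
def Cst (j r : ℤ) (G : FX I → ℝ) : Prop :=
  ∀ g ∈ Gs j r, ∀ g' ∈ Gs j r, ∀ γ γ' : FX I, Eq6 (Rg j r) g g' γ γ' → G γ = G γ'

/-! ### heights -/

/-- **the heights**: left column, right column, bottom row, top row -/
def ht (γ : FX I) (i : I) : Fin 4 → ℤ := ![hL (cl γ i), hR (cl γ i), hB (cl γ i), hT (cl γ i)]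

/-- **the extended heights** for the row `r` -/
def he (j r : ℤ) (γ : FX I) (i : I) : Fin 4 → ℤ :=
  ![hL (ex j r γ i), hR (ex j r γ i), hB (ex j r γ i), hT (ex j r γ i)]

/-- the four cells around the crossing -/
def Bk (j s : ℤ) : Set Pt := {(j, s - 1), (j + 1, s - 1), (j, s), (j + 1, s)}

/-- the member `k` visits the block or the crossing -/
def Vb (j s : ℤ) (γ : FX I) (k : I) : Prop := γ none k ≠ .o ∨ ∃ p ∈ Bk j s, γ (some p) k ≠ .o

/-- the member `i` is extreme in the block: it visits the block or the crossing, and its cells off the block lie in one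
of the half planes columns `≥ j + 1`, columns `≤ j`, rows `≤ s - 1`, rows `≥ s` -/
def Xb (j s : ℤ) (γ : FX I) (i : I) : Prop :=
  Vb j s γ i ∧ ((∀ p : Pt, p ∉ Bk j s → γ (some p) i ≠ .o → j + 1 ≤ p.1) ∨
    (∀ p : Pt, p ∉ Bk j s → γ (some p) i ≠ .o → p.1 ≤ j) ∨
    (∀ p : Pt, p ∉ Bk j s → γ (some p) i ≠ .o → p.2 ≤ s - 1) ∨
    (∀ p : Pt, p ∉ Bk j s → γ (some p) i ≠ .o → s ≤ p.2))

/-- **the bad event**: a second member in the block of an extreme cell -/
def Bad (j s : ℤ) (γ : FX I) : Prop := ∃ i k, i ≠ k ∧ Xb j s γ i ∧ Vb j s γ k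

open Classical in
/-- replace one height -/
def upd (h : I → Fin 4 → ℤ) (i : I) (a : Fin 4) (x : ℤ) : I → Fin 4 → ℤ :=
  Function.update h i (Function.update (h i) a x)

/-- close heights -/
def Nr (h h' : I → Fin 4 → ℤ) : Prop := ∀ i a, |h i a - h' i a| ≤ 1

/-- at least four columns and four rows -/
def Wd (h : I → Fin 4 → ℤ) : Prop := ∀ i, h i 0 + 3 ≤ h i 1 ∧ h i 2 + 3 ≤ h i 3

/-! ### the extreme cells -/

/-- the top row of the member `i` is the minimal cup in the columns `c`, `c + 1` -/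
def CupT (γ : FX I) (i : I) (c : ℤ) : Prop :=
  γ (some (c, ht γ i 3)) i = .se ∧ γ (some (c + 1, ht γ i 3)) i = .sw ∧
    ∀ p : Pt, γ (some p) i ≠ .o → p.2 = ht γ i 3 → p.1 = c ∨ p.1 = c + 1

/-- the bottom row of the member `i` is the minimal cup in the columns `c`, `c + 1` -/
def CupB (γ : FX I) (i : I) (c : ℤ) : Prop :=
  γ (some (c, ht γ i 2)) i = .ne ∧ γ (some (c + 1, ht γ i 2)) i = .nw ∧
    ∀ p : Pt, γ (some p) i ≠ .o → p.2 = ht γ i 2 → p.1 = c ∨ p.1 = c + 1

open Classical in
/-- column of the top cup (0 if the top row is not a minimal cup) -/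
def cT (γ : FX I) (i : I) : ℝ := ∑' c : ℤ, if CupT γ i c then (c : ℝ) else 0

open Classical in
/-- column of the bottom cup -/
def cB (γ : FX I) (i : I) : ℝ := ∑' c : ℤ, if CupB γ i c then (c : ℝ) else 0

/-- the sum of `tau` over the leftmost column -/
def QL (γ : FX I) (i : I) : ℝ := ∑' r : ℤ, tau (γ (some (ht γ i 0, r)) i)

/-- the sum of `tau` over the rightmost column -/
def QR (γ : FX I) (i : I) : ℝ := ∑' r : ℤ, tau (γ (some (ht γ i 1, r)) i)

/-- **the response of the member `i`** -/
def Rs (f : (I → Fin 4 → ℤ) → ℝ) (γ : FX I) (i : I) : ℝ :=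
  kk * (cT γ i * (f (ht γ) - f (upd (ht γ) i 3 (ht γ i 3 - 1))) +
    cB γ i * (f (upd (ht γ) i 2 (ht γ i 2 + 1)) - f (ht γ))) -
  ((ht γ i 0 - 1) * QL γ i * (f (ht γ) - f (upd (ht γ) i 0 (ht γ i 0 - 1))) +
    ht γ i 1 * QR γ i * (f (upd (ht γ) i 1 (ht γ i 1 + 1)) - f (ht γ)))

/-! ### test functions -/

/-- **a test function**: `f` of the heights times a pattern -/
structure Tst (I : Type) where
  /-- the function of the heights -/
  f : (I → Fin 4 → ℤ) → ℝ
  /-- the oscillation -/
  ω : ℝ
  /-- the box -/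
  K : ℤ
  /-- the neighbourhood of the support -/
  Dm : (I → Fin 4 → ℤ) → Prop
  osc : ∀ h h', Nr h h' → |f h - f h'| ≤ ω
  dm : ∀ h h', Nr h h' → f h ≠ 0 → Dm h'
  bd : ∀ h, Dm h → ∀ i a, |h i a| ≤ K
  wd : ∀ h, Dm h → Wd h
  /-- the pattern, read outside of the line `j + 1` -/
  χ : ℤ → FX I → ℝ
  /-- the pattern of the families of the lattice -/
  χ0 : FX I → ℝ
  cst : ∀ j r, Cst j r (χ j)
  c0 : ∀ j γ, Fam g0 γ → Wd (ht γ) → χ j γ = χ0 γ
  b0 : ∀ γ, |χ0 γ| ≤ 1
  b1 : ∀ j γ, |χ j γ| ≤ 1

/-- the test function -/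
def Tst.F (t : Tst I) (γ : FX I) : ℝ := t.f (ht γ) * t.χ0 γ

/-- the test function which is constant on the classes of the row `r` -/
def Tst.G (t : Tst I) (j r : ℤ) (γ : FX I) : ℝ := t.f (he j r γ) * t.χ j γ

open Classical in
/-- the mass of the bad event at the block -/
def Tst.er (t : Tst I) (j s : ℤ) : ℝ :=
  (∑' γ : FX I, if Fam g0 γ ∧ Bad j s γ ∧ t.Dm (ht γ) then M γ + |dM (j, s) γ| + |dM (j + 1, s) γ| else 0) +
    ∑' γ : FX I, if Fam (gX j s) γ ∧ Bad j s γ ∧ t.Dm (ht γ) then |Jw γ| else 0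

end

end Pool.Agent.ROT.L
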