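import Pool.Agent.ROT.A6G
import Pool.Agent.ROT.LDefs
import Pool.Agent.ROT.ADefs
import Pool.Agent.ROT.EHexT
import Pool.Agent.ROT.EGeo
import Pool.Agent.ROT.ETr

/-!
# ROT, row A6: the honeycomb loops as a polygon system (`A.PSys`)
-/

set_option autoImplicit false

namespace Pool.Agent.ROT.A6

open Pool.Agent.YBC (Dir)
open Pool.Agent.ROT.E (Cell IsUn Pt nx He Cfg Fm Mt Lp oc rv vp)
open Pool.Agent.ROT.E.Hx (HL hs vs Ny wl trc sq)

/-! ### supports -/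

theorem mem_supp {γ : Cfg} {v : Pt} : v ∈ γ.support ↔ γ v ≠ .o := Finsupp.mem_support_iff

theorem supp_ne {γ : Cfg} (l : HL γ) : γ.support.Nonempty := Finsupp.support_nonempty_iff.2 l.lp.ne

theorem supp_trc {z : Pt} {γ : Cfg} {v : Pt} : v + z ∈ (trc z γ).support ↔ v ∈ γ.support := by
  rw [mem_supp, mem_supp, E.Hx.trc_apply]

theorem supp_trc' {z : Pt} {γ : Cfg} {v : Pt} : v ∈ (trc z γ).support ↔ v - z ∈ γ.support := by
  rw [← supp_trc (z := z) (v := v - z), sub_add_cancel]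

theorem tp_ne {c : Cell} : c.tp ≠ .o ↔ c ≠ .o := by cases c <;> decide

theorem supp_tr {γ : Cfg} {v : Pt} : v ∈ (E.tr γ).support ↔ v.swap ∈ γ.support := by
  obtain ⟨x, y⟩ := v
  rw [mem_supp, mem_supp, E.tr_apply, tp_ne]
  rfl

theorem oc_mem {γ : Cfg} {h : He} (ho : oc γ h) : h.1 ∈ γ.support := by
  rw [mem_supp]
  intro e
  apply ho
  show (γ h.1).p h.2 = h.2
  rw [e]
  rfl

theorem ex_oc {γ : Cfg} {v : Pt} (h : v ∈ γ.support) : ∃ d, oc γ (v, d) := E.Lab.ex_oc (mem_supp.1 h)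

/-! ### heights -/

/-- **the heights** -/
noncomputable def hc (γ : Cfg) : Fin 4 → ℤ := ![L.hL γ.support, L.hR γ.support, L.hB γ.support, L.hT γ.support]

/-- **the other coordinates** of the extreme points (the smallest) -/
noncomputable def xe (γ : Cfg) : Fin 4 → ℤ :=
  ![L.hB (γ.support.filter fun v => v.1 = L.hL γ.support), L.hB (γ.support.filter fun v => v.1 = L.hR γ.support),
    L.hL (γ.support.filter fun v => v.2 = L.hB γ.support), L.hL (γ.support.filter fun v => v.2 = L.hT γ.support)]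

section hts

variable {S S' : Finset Pt} {a : ℤ}

theorem hL_tr (hn : S.Nonempty) {z : Pt} (h : ∀ v, v + z ∈ S' ↔ v ∈ S) : L.hL S' = L.hL S + z.1 := by
  obtain ⟨v, hv, e⟩ := L.hL_mem hn
  refine L.hL_eq ⟨v + z, (h v).2 hv, by show v.1 + z.1 = _; rw [e]⟩ fun w hw => ?_
  have := L.hL_le ((h (w - z)).1 (by rwa [sub_add_cancel]))
  have e2 : (w - z).1 = w.1 - z.1 := rfl
  omega

theorem hR_tr (hn : S.Nonempty) {z : Pt} (h : ∀ v, v + z ∈ S' ↔ v ∈ S) : L.hR S' = L.hR S + z.1 := by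
  obtain ⟨v, hv, e⟩ := L.hR_mem hn
  refine L.hR_eq ⟨v + z, (h v).2 hv, by show v.1 + z.1 = _; rw [e]⟩ fun w hw => ?_
  have := L.le_hR ((h (w - z)).1 (by rwa [sub_add_cancel]))
  have e2 : (w - z).1 = w.1 - z.1 := rfl
  omega

theorem hB_tr (hn : S.Nonempty) {z : Pt} (h : ∀ v, v + z ∈ S' ↔ v ∈ S) : L.hB S' = L.hB S + z.2 := by
  obtain ⟨v, hv, e⟩ := L.hB_mem hn
  refine L.hB_eq ⟨v + z, (h v).2 hv, by show v.2 + z.2 = _; rw [e]⟩ fun w hw => ?_
  have := L.hB_le ((h (w - z)).1 (by rwa [sub_add_cancel]))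
  have e2 : (w - z).2 = w.2 - z.2 := rfl
  omega

theorem hT_tr (hn : S.Nonempty) {z : Pt} (h : ∀ v, v + z ∈ S' ↔ v ∈ S) : L.hT S' = L.hT S + z.2 := by
  obtain ⟨v, hv, e⟩ := L.hT_mem hn
  refine L.hT_eq ⟨v + z, (h v).2 hv, by show v.2 + z.2 = _; rw [e]⟩ fun w hw => ?_
  have := L.le_hT ((h (w - z)).1 (by rwa [sub_add_cancel]))
  have e2 : (w - z).2 = w.2 - z.2 := rfl
  omega

theorem swap_fst (S : Set Pt) : Prod.fst '' (Prod.swap '' S) = Prod.snd '' S := by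
  rw [Set.image_image]
  rfl

theorem swap_snd (S : Set Pt) : Prod.snd '' (Prod.swap '' S) = Prod.fst '' S := by
  rw [Set.image_image]
  rfl

theorem coe_sw (h : ∀ v, v ∈ S' ↔ v.swap ∈ S) : (S' : Set Pt) = Prod.swap '' (S : Set Pt) := by
  ext v
  rw [Finset.mem_coe, h]
  constructor
  · intro hv
    exact ⟨v.swap, hv, Prod.swap_swap v⟩
  · rintro ⟨w, hw, rfl⟩
    rw [Prod.swap_swap]
    exact hw

theorem hL_sw (h : ∀ v, v ∈ S' ↔ v.swap ∈ S) : L.hL S' = L.hB S := by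
  unfold L.hL L.hB
  rw [coe_sw h, swap_fst]

theorem hB_sw (h : ∀ v, v ∈ S' ↔ v.swap ∈ S) : L.hB S' = L.hL S := by
  unfold L.hL L.hB
  rw [coe_sw h, swap_snd]

theorem hR_sw (h : ∀ v, v ∈ S' ↔ v.swap ∈ S) : L.hR S' = L.hT S := by
  unfold L.hR L.hT
  rw [coe_sw h, swap_fst]

theorem hT_sw (h : ∀ v, v ∈ S' ↔ v.swap ∈ S) : L.hT S' = L.hR S := by
  unfold L.hR L.hT
  rw [coe_sw h, swap_snd]

end hts

theorem hc0 (γ : Cfg) : hc γ 0 = L.hL γ.support := rfl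
theorem hc1 (γ : Cfg) : hc γ 1 = L.hR γ.support := rfl
theorem hc2 (γ : Cfg) : hc γ 2 = L.hB γ.support := rfl
theorem hc3 (γ : Cfg) : hc γ 3 = L.hT γ.support := rfl

theorem hc_trc {γ : Cfg} (l : HL γ) (z : Pt) : hc (trc z γ) 0 = hc γ 0 + z.1 ∧ hc (trc z γ) 1 = hc γ 1 + z.1 ∧
    hc (trc z γ) 2 = hc γ 2 + z.2 ∧ hc (trc z γ) 3 = hc γ 3 + z.2 := by
  have h : ∀ v, v + z ∈ (trc z γ).support ↔ v ∈ γ.support := fun v => supp_trc
  exact ⟨hL_tr (supp_ne l) h, hR_tr (supp_ne l) h, hB_tr (supp_ne l) h, hT_tr (supp_ne l) h⟩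

theorem hc_sw (γ : Cfg) : hc (E.tr γ) 0 = hc γ 2 ∧ hc (E.tr γ) 1 = hc γ 3 ∧ hc (E.tr γ) 2 = hc γ 0 ∧
    hc (E.tr γ) 3 = hc γ 1 := by
  have h : ∀ v, v ∈ (E.tr γ).support ↔ v.swap ∈ γ.support := fun v => supp_tr
  exact ⟨hL_sw h, hR_sw h, hB_sw h, hT_sw h⟩

theorem xe_sw (γ : Cfg) : xe (E.tr γ) 0 = xe γ 2 ∧ xe (E.tr γ) 1 = xe γ 3 ∧ xe (E.tr γ) 2 = xe γ 0 ∧
    xe (E.tr γ) 3 = xe γ 1 := by
  have h : ∀ v, v ∈ (E.tr γ).support ↔ v.swap ∈ γ.support := fun v => supp_tr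
  refine ⟨hB_sw fun v => ?_, hB_sw fun v => ?_, hL_sw fun v => ?_, hL_sw fun v => ?_⟩ <;>
    rw [Finset.mem_filter, Finset.mem_filter, supp_tr]
  · rw [hL_sw h]; rfl
  · rw [hR_sw h]; rfl
  · rw [hB_sw h]; rfl
  · rw [hT_sw h]; rfl

theorem fil_ne {γ : Cfg} (l : HL γ) : (γ.support.filter fun v => v.1 = L.hL γ.support).Nonempty ∧
    (γ.support.filter fun v => v.1 = L.hR γ.support).Nonempty ∧
    (γ.support.filter fun v => v.2 = L.hB γ.support).Nonempty ∧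
    (γ.support.filter fun v => v.2 = L.hT γ.support).Nonempty := by
  have hn := supp_ne l
  obtain ⟨v0, h0, e0⟩ := L.hL_mem hn
  obtain ⟨v1, h1, e1⟩ := L.hR_mem hn
  obtain ⟨v2, h2, e2⟩ := L.hB_mem hn
  obtain ⟨v3, h3, e3⟩ := L.hT_mem hn
  exact ⟨⟨v0, Finset.mem_filter.2 ⟨h0, e0⟩⟩, ⟨v1, Finset.mem_filter.2 ⟨h1, e1⟩⟩, ⟨v2, Finset.mem_filter.2 ⟨h2, e2⟩⟩,
    ⟨v3, Finset.mem_filter.2 ⟨h3, e3⟩⟩⟩

theorem xe_trc {γ : Cfg} (l : HL γ) (z : Pt) : xe (trc z γ) 0 = xe γ 0 + z.2 ∧ xe (trc z γ) 1 = xe γ 1 + z.2 ∧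
    xe (trc z γ) 2 = xe γ 2 + z.1 ∧ xe (trc z γ) 3 = xe γ 3 + z.1 := by
  have h : ∀ v, v + z ∈ (trc z γ).support ↔ v ∈ γ.support := fun v => supp_trc
  have hn := supp_ne l
  obtain ⟨n0, n1, n2, n3⟩ := fil_ne l
  refine ⟨hB_tr n0 fun v => ?_, hB_tr n1 fun v => ?_, hL_tr n2 fun v => ?_, hL_tr n3 fun v => ?_⟩ <;>
    rw [Finset.mem_filter, Finset.mem_filter, supp_trc]
  · rw [hL_tr hn h]
    exact and_congr_right fun _ => add_left_inj _
  · rw [hR_tr hn h]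
    exact and_congr_right fun _ => add_left_inj _
  · rw [hB_tr hn h]
    exact and_congr_right fun _ => add_left_inj _
  · rw [hT_tr hn h]
    exact and_congr_right fun _ => add_left_inj _

/-! ### responses -/

/-- the sum of `tau` over the first column -/
noncomputable def qL (γ : Cfg) : ℝ := ∑' r : ℤ, L.tau (γ (hc γ 0, r))

/-- the sum of `tau` over the last column -/
noncomputable def qR (γ : Cfg) : ℝ := ∑' r : ℤ, L.tau (γ (hc γ 1, r))

/-- the top row is the minimal cup in the columns `c`, `c + 1` -/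
def CpT (γ : Cfg) (c : ℤ) : Prop :=
  γ (c, hc γ 3) = .se ∧ γ (c + 1, hc γ 3) = .sw ∧ ∀ p : Pt, γ p ≠ .o → p.2 = hc γ 3 → p.1 = c ∨ p.1 = c + 1

/-- the bottom row is the minimal cup in the columns `c`, `c + 1` -/
def CpB (γ : Cfg) (c : ℤ) : Prop :=
  γ (c, hc γ 2) = .ne ∧ γ (c + 1, hc γ 2) = .nw ∧ ∀ p : Pt, γ p ≠ .o → p.2 = hc γ 2 → p.1 = c ∨ p.1 = c + 1

open Classical in
/-- response of the top row -/
noncomputable def cpT (γ : Cfg) : ℝ := if ∃ c, CpT γ c then L.kk else 0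

open Classical in
/-- response of the bottom row -/
noncomputable def cpB (γ : Cfg) : ℝ := if ∃ c, CpB γ c then L.kk else 0

theorem CpT.xe {γ : Cfg} {c : ℤ} (h : CpT γ c) : xe γ 3 = c := by
  obtain ⟨h1, h2, h3⟩ := h
  refine L.hL_eq ⟨(c, L.hT γ.support), ?_, rfl⟩ fun v hv => ?_
  · rw [Finset.mem_filter]
    refine ⟨mem_supp.2 ?_, rfl⟩
    rw [hc3] at h1
    rw [h1]
    decide
  · rw [Finset.mem_filter] at hv
    rcases h3 v (mem_supp.1 hv.1) hv.2 with h | h <;> omega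

theorem CpB.xe {γ : Cfg} {c : ℤ} (h : CpB γ c) : xe γ 2 = c := by
  obtain ⟨h1, h2, h3⟩ := h
  refine L.hL_eq ⟨(c, L.hB γ.support), ?_, rfl⟩ fun v hv => ?_
  · rw [Finset.mem_filter]
    refine ⟨mem_supp.2 ?_, rfl⟩
    rw [hc2] at h1
    rw [h1]
    decide
  · rw [Finset.mem_filter] at hv
    rcases h3 v (mem_supp.1 hv.1) hv.2 with h | h <;> omega

theorem kk_nn : 0 ≤ L.kk := by
  have h1 : 0 < Real.cos (Real.pi / 8) :=
    Real.cos_pos_of_mem_Ioo ⟨by linarith [Real.pi_pos], by linarith [Real.pi_pos]⟩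
  have h2 : 0 ≤ E.W0.u1 := by
    have := E.Hx.wt_hex .sw
    rw [if_neg (by decide)] at this
    show 0 ≤ Cell.wt E.W0 .sw
    unfold E.W0
    rw [this]
    exact pow_nonneg HexObs.xc_pos.le _
  have h3 : 0 ≤ E.W0.u2 := by
    have := E.Hx.wt_hex .se
    rw [if_neg (by decide)] at this
    show 0 ≤ Cell.wt E.W0 .se
    unfold E.W0
    rw [this]
    exact pow_nonneg HexObs.xc_pos.le _
  unfold L.kk
  exact div_nonneg (by show 0 ≤ 1 / Real.cos (Real.pi / 8); positivity) (mul_nonneg h2 h3)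

open Classical in
/-- the column as a finite sum -/
theorem tsum_col (γ : Cfg) (l : ℤ) : ∑' r : ℤ, L.tau (γ (l, r)) = L.Qc γ l := by
  unfold L.Qc
  have e : ∀ r ∉ (γ.support.filter fun v => v.1 = l).image Prod.snd, L.tau (γ (l, r)) = 0 := by
    intro r hr
    have : γ (l, r) = .o := by
      by_contra hc
      exact hr (Finset.mem_image.2 ⟨(l, r), Finset.mem_filter.2 ⟨mem_supp.2 hc, rfl⟩, rfl⟩)
    rw [this]
    rfl
  rw [tsum_eq_sum e, Finset.sum_image]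
  · refine Finset.sum_congr rfl fun v hv => ?_
    rw [← (Finset.mem_filter.1 hv).2]
  · intro v hv w hw h
    have h1 := (Finset.mem_filter.1 (Finset.mem_coe.1 hv)).2
    have h2 := (Finset.mem_filter.1 (Finset.mem_coe.1 hw)).2
    exact Prod.ext (h1.trans h2.symm) h

theorem qL_ge {γ : Cfg} (l : HL γ) : 2 - Real.sqrt 2 ≤ qL γ := by
  unfold qL
  rw [tsum_col]
  obtain ⟨v, hv, e⟩ := L.hL_mem (supp_ne l)
  refine L.Qc_ge l.lp.mt (fun w hw => ?_) (r := v.2) ?_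
  · by_contra hc
    have := L.hL_le (mem_supp.2 hc)
    rw [hc0] at hw
    omega
  · rw [hc0, ← e]
    exact mem_supp.1 hv

/-- the configuration turned by 180 degrees -/
noncomputable def pr (γ : Cfg) : Cfg := E.prS.ac γ

theorem pr_apply (γ : Cfg) (v : Pt) : pr γ (-v) = (γ v).pr := E.prS.ac_apply γ v

theorem pr_ne {c : Cell} : c.pr ≠ .o ↔ c ≠ .o := by cases c <;> decide

theorem supp_pr {γ : Cfg} {v : Pt} : v ∈ (pr γ).support ↔ -v ∈ γ.support := by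
  have h := pr_apply γ (-v)
  rw [neg_neg] at h
  rw [mem_supp, mem_supp, h, pr_ne]

theorem hl_pr {γ : Cfg} (l : HL γ) : HL (pr γ) := by
  refine ⟨(E.prS.lp_iff γ).2 l.lp, fun v => ?_⟩
  have h := pr_apply γ (-v)
  rw [neg_neg] at h
  rw [h]
  have := l.ny (-v)
  revert this
  cases γ (-v) <;> simp [Cell.pr]

theorem hc_pr {γ : Cfg} (l : HL γ) : hc (pr γ) 0 = -hc γ 1 ∧ hc (pr γ) 1 = -hc γ 0 ∧ hc (pr γ) 2 = -hc γ 3 ∧
    hc (pr γ) 3 = -hc γ 2 := by
  have hn := supp_ne l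
  have m : ∀ v, v ∈ γ.support → -v ∈ (pr γ).support := fun v hv => by rwa [supp_pr, neg_neg]
  rw [hc0, hc1, hc2, hc3, hc0, hc1, hc2, hc3]
  refine ⟨?_, ?_, ?_, ?_⟩
  · obtain ⟨v, hv, e⟩ := L.hR_mem hn
    refine L.hL_eq ⟨-v, m v hv, by show -v.1 = _; rw [e]⟩ fun w hw => ?_
    have := L.le_hR (supp_pr.1 hw)
    have e2 : (-w).1 = -w.1 := rfl
    omega
  · obtain ⟨v, hv, e⟩ := L.hL_mem hn
    refine L.hR_eq ⟨-v, m v hv, by show -v.1 = _; rw [e]⟩ fun w hw => ?_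
    have := L.hL_le (supp_pr.1 hw)
    have e2 : (-w).1 = -w.1 := rfl
    omega
  · obtain ⟨v, hv, e⟩ := L.hT_mem hn
    refine L.hB_eq ⟨-v, m v hv, by show -v.2 = _; rw [e]⟩ fun w hw => ?_
    have := L.le_hT (supp_pr.1 hw)
    have e2 : (-w).2 = -w.2 := rfl
    omega
  · obtain ⟨v, hv, e⟩ := L.hB_mem hn
    refine L.hT_eq ⟨-v, m v hv, by show -v.2 = _; rw [e]⟩ fun w hw => ?_
    have := L.hB_le (supp_pr.1 hw)
    have e2 : (-w).2 = -w.2 := rfl
    omega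

theorem tau_pr (c : Cell) : L.tau c.pr = L.tau c := by cases c <;> rfl

theorem qL_pr {γ : Cfg} (l : HL γ) : qL (pr γ) = qR γ := by
  unfold qL qR
  rw [(hc_pr l).1, ← (Equiv.neg ℤ).tsum_eq]
  apply tsum_congr
  intro r
  have h := pr_apply γ (hc γ 1, r)
  show L.tau (pr γ (-hc γ 1, -r)) = _
  rw [show ((-hc γ 1, -r) : Pt) = -(hc γ 1, r) from rfl, h, tau_pr]

theorem pr_pr (γ : Cfg) : pr (pr γ) = γ := by
  ext v
  have h := pr_apply (pr γ) (-v)
  rw [neg_neg] at h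
  rw [h]
  have h2 := pr_apply γ v
  rw [h2]
  cases γ v <;> rfl

theorem qR_pr {γ : Cfg} (l : HL γ) : qR (pr γ) = qL γ := by
  rw [← qL_pr (hl_pr l), pr_pr]

theorem qR_ge {γ : Cfg} (l : HL γ) : 2 - Real.sqrt 2 ≤ qR γ := by
  rw [← qL_pr l]
  exact qL_ge (hl_pr l)

theorem sq2 : 0 ≤ 2 - Real.sqrt 2 := by
  have : Real.sqrt 2 ≤ 2 := by
    rw [Real.sqrt_le_left (by norm_num)]
    norm_num
  linarith

/-! ### the side parity -/

theorem sg_trc (γ : Cfg) (z : Pt) (p y : ℤ) : E.sg (trc z γ) (p + z.1) (y + z.2) = E.sg γ p y := by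
  classical
  unfold E.sg
  have e1 : (trc z γ).support = γ.support.image fun v => v + z := by
    ext v
    rw [supp_trc', Finset.mem_image]
    constructor
    · intro h
      exact ⟨v - z, h, sub_add_cancel v z⟩
    · rintro ⟨w, hw, rfl⟩
      rwa [add_sub_cancel_right]
  rw [e1, Finset.sum_image (fun v _ w _ h => add_right_cancel h)]
  refine Finset.sum_congr rfl fun v _ => ?_
  have h1 : ((v + z).1 = p + z.1 ∧ y + z.2 ≤ (v + z).2) ↔ (v.1 = p ∧ y ≤ v.2) := by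
    show (v.1 + z.1 = p + z.1 ∧ y + z.2 ≤ v.2 + z.2) ↔ _
    omega
  have h2 : E.io (trc z γ) (v + z) .W = E.io γ v .W := by
    apply E.io_eq
    unfold oc
    rw [E.Hx.trc_apply]
  rw [h2]
  by_cases h : v.1 = p ∧ y ≤ v.2
  · rw [if_pos h, if_pos (h1.2 h)]
  · rw [if_neg h, if_neg fun h' => h (h1.1 h')]

/-- **the parity is constant where there is no site** -/
theorem sg_const {γ : Cfg} (hm : Mt γ Set.univ) {a b c d : ℤ}
    (h : ∀ v ∈ γ.support, ¬ (a ≤ v.1 ∧ v.1 ≤ b ∧ c ≤ v.2 ∧ v.2 ≤ d)) {p p' q q' : ℤ} (h1 : a ≤ p) (h2 : p ≤ b) (h3 : a ≤ p')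
    (h4 : p' ≤ b) (h5 : c ≤ q) (h6 : q ≤ d) (h7 : c ≤ q') (h8 : q' ≤ d) : E.sg γ p q = E.sg γ p' q' := by
  have z : ∀ v : Pt, ∀ d', (a ≤ v.1 ∧ v.1 ≤ b ∧ c ≤ v.2 ∧ v.2 ≤ d) → E.io γ v d' = 0 := fun v d' hv =>
    E.io_supp fun hm => h v hm hv
  have hr : ∀ n : ℕ, ∀ p : ℤ, a ≤ p → p + n ≤ b → E.sg γ p q = E.sg γ (p + n) q := by
    intro n
    induction n with
    | zero => intro p _ _; simp
    | succ n ih =>
      intro p hp hn
      push_cast at hn ⊢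
      rw [E.sg_right hm p q, z (p, q) .S ⟨hp, by show p ≤ b; omega, h5, h6⟩, add_zero, ih (p + 1) (by omega) (by omega)]
      congr 1
      ring
  have hv : ∀ n : ℕ, ∀ q : ℤ, c ≤ q → q + n ≤ d → E.sg γ p' q = E.sg γ p' (q + n) := by
    intro n
    induction n with
    | zero => intro q _ _; simp
    | succ n ih =>
      intro q hq hn
      push_cast at hn ⊢
      rw [E.sg_succ γ p' q, z (p', q) .W ⟨h3, h4, hq, by show q ≤ d; omega⟩, add_zero, ih (q + 1) (by omega) (by omega)]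
      congr 1
      ring
  have e1 : E.sg γ p q = E.sg γ p' q := by
    rcases le_total p p' with hp | hp
    · have := hr (p' - p).toNat p h1 (by rw [Int.toNat_of_nonneg (by omega)]; omega)
      rw [this, Int.toNat_of_nonneg (by omega)]
      congr 1
      ring
    · have := hr (p - p').toNat p' h3 (by rw [Int.toNat_of_nonneg (by omega)]; omega)
      rw [this, Int.toNat_of_nonneg (by omega)]
      congr 1
      ring
  rw [e1]
  rcases le_total q q' with hp | hp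
  · have := hv (q' - q).toNat q h5 (by rw [Int.toNat_of_nonneg (by omega)]; omega)
    rw [this, Int.toNat_of_nonneg (by omega)]
    congr 1
    ring
  · have := hv (q - q').toNat q' h7 (by rw [Int.toNat_of_nonneg (by omega)]; omega)
    rw [this, Int.toNat_of_nonneg (by omega)]
    congr 1
    ring

/-- inside points are in the box -/
theorem sg_box {γ : Cfg} (hm : Mt γ Set.univ) {p y : ℤ} (h : E.sg γ p y = 1) :
    L.hL γ.support ≤ p ∧ p ≤ L.hR γ.support ∧ L.hB γ.support ≤ y ∧ y ≤ L.hT γ.support := by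
  classical
  have h1 : E.sg γ p y ≠ 0 := by rw [h]; decide
  have ex : ∀ q, E.sg γ q y ≠ 0 → ∃ v ∈ γ.support, v.1 = q ∧ y ≤ v.2 := by
    intro q hq
    unfold E.sg at hq
    obtain ⟨v, hv, hv2⟩ := Finset.exists_ne_zero_of_sum_ne_zero hq
    refine ⟨v, hv, ?_⟩
    by_contra hc
    exact hv2 (if_neg hc)
  obtain ⟨v, hv, e1, e2⟩ := ex p h1
  have a1 := L.hL_le hv
  have a2 := L.le_hR hv
  have a3 := L.le_hT hv
  refine ⟨by omega, by omega, ?_, by omega⟩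
  by_contra hy
  push Not at hy
  have e3 : ∀ v ∈ γ.support, ¬ (p ≤ v.1 ∧ v.1 ≤ L.hR γ.support + 1 ∧ y ≤ v.2 ∧ v.2 ≤ y) := by
    intro v hv h
    have := L.hB_le hv
    omega
  have e4 := sg_const hm e3 (p := p) (p' := L.hR γ.support + 1) (q := y) (q' := y) le_rfl (by omega) (by omega) le_rfl
    le_rfl le_rfl le_rfl le_rfl
  rw [h] at e4
  obtain ⟨w, hw, e5, -⟩ := ex (L.hR γ.support + 1) (by rw [← e4]; decide)
  have := L.le_hR hw
  omega

/-- **between an inside and an outside point there is a site** -/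
theorem sg_sep {γ : Cfg} (hm : Mt γ Set.univ) {x y : Pt} (h : E.sg γ x.1 x.2 ≠ E.sg γ y.1 y.2) :
    ∃ s ∈ γ.support, min x.1 y.1 - 1 ≤ s.1 ∧ s.1 ≤ max x.1 y.1 + 1 ∧ min x.2 y.2 - 1 ≤ s.2 ∧ s.2 ≤ max x.2 y.2 + 1 := by
  by_contra hc
  push Not at hc
  apply h
  refine sg_const hm (a := min x.1 y.1 - 1) (b := max x.1 y.1 + 1) (c := min x.2 y.2 - 1) (d := max x.2 y.2 + 1) ?_ ?_ ?_
    ?_ ?_ ?_ ?_ ?_ ?_
  · rintro v hv ⟨h1, h2, h3, h4⟩
    exact absurd (hc v hv h1 h2 h3) (by omega)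
  all_goals omega

/-! ### the extreme cells -/

theorem side_W {γ : Cfg} (hm : Mt γ Set.univ) {v : Pt} (ho : oc γ (v, .W)) : L.hL γ.support < v.1 := by
  have := L.hL_le (oc_mem ((hm (v, .W) trivial trivial).1 ho))
  have e : (rv (v, .W)).1.1 = v.1 - 1 := rfl
  omega

theorem side_E {γ : Cfg} (hm : Mt γ Set.univ) {v : Pt} (ho : oc γ (v, .E)) : v.1 < L.hR γ.support := by
  have := L.le_hR (oc_mem ((hm (v, .E) trivial trivial).1 ho))
  have e : (rv (v, .E)).1.1 = v.1 + 1 := rfl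
  omega

theorem side_S {γ : Cfg} (hm : Mt γ Set.univ) {v : Pt} (ho : oc γ (v, .S)) : L.hB γ.support < v.2 := by
  have := L.hB_le (oc_mem ((hm (v, .S) trivial trivial).1 ho))
  have e : (rv (v, .S)).1.2 = v.2 - 1 := rfl
  omega

theorem side_N {γ : Cfg} (hm : Mt γ Set.univ) {v : Pt} (ho : oc γ (v, .N)) : v.2 < L.hT γ.support := by
  have := L.le_hT (oc_mem ((hm (v, .N) trivial trivial).1 ho))
  have e : (rv (v, .N)).1.2 = v.2 + 1 := rfl
  omega

theorem cell_NS : ∀ c : Cell, c ≠ .o → (¬ c.oc .W ∨ ¬ c.oc .E) → c.oc .N ∨ c.oc .S := by decide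

theorem cell_WE : ∀ c : Cell, c ≠ .o → (¬ c.oc .N ∨ ¬ c.oc .S) → c.oc .W ∨ c.oc .E := by decide

/-! ### nesting -/

/-- `v` is inside `w` -/
def Ins (v w : Cfg) : Prop := Disjoint (hs v) (hs w) ∧ ∃ h, oc v h ∧ E.sd w h = 1

theorem nest2 {v w : Cfg} (lv : HL v) (lw : HL w) (hd : Disjoint (hs v) (hs w)) {h k : He} (h1 : oc v h) (h2 : oc v k) :
    E.sd w h = E.sd w k := by
  have f : E.Fam (tup fun b : Bool => if b then w else v) := by
    refine fam_tup (fun b => by cases b <;> simp [lv, lw]) ?_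
    intro a b hab
    cases a <;> cases b <;> simp_all [disjoint_comm]
  have := E.nest f (i := true) (i' := false) (by decide) (h := h) (k := k) (by rw [co_tup]; exact h1)
    (by rw [co_tup]; exact h2)
  rw [co_tup] at this
  exact this

theorem Ins.all {v w : Cfg} (lv : HL v) (lw : HL w) (hi : Ins v w) {h : He} (h1 : oc v h) : E.sd w h = 1 := by
  obtain ⟨hd, k, hk, e⟩ := hi
  rw [nest2 lv lw hd h1 hk, e]

/-- **inside: the box is contained** -/
theorem ins_box {v w : Cfg} (lv : HL v) (lw : HL w) (hi : Ins v w) :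
    hc w 0 ≤ hc v 0 ∧ hc v 1 ≤ hc w 1 ∧ hc w 2 ≤ hc v 2 ∧ hc v 3 ≤ hc w 3 := by
  have hn := supp_ne lv
  have hm := lv.lp.mt
  have hb : ∀ h : He, oc v h → L.hL w.support ≤ (E.cr h).1 ∧ (E.cr h).1 ≤ L.hR w.support ∧
      L.hB w.support ≤ (E.cr h).2 ∧ (E.cr h).2 ≤ L.hT w.support := fun h ho => sg_box lw.lp.mt (hi.all lv lw ho)
  rw [hc0, hc0, hc1, hc1, hc2, hc2, hc3, hc3]
  refine ⟨?_, ?_, ?_, ?_⟩
  · obtain ⟨x, hx, e⟩ := L.hL_mem hn
    have h1 : ¬ (v x).oc .W := fun ho => by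
      have := side_W hm (v := x) ho
      omega
    rcases cell_NS (v x) (mem_supp.1 hx) (Or.inl h1) with ho | ho
    · have := (hb (x, .N) ho).1
      have e2 : (E.cr (x, .N)).1 = x.1 := rfl
      omega
    · have := (hb (x, .S) ho).1
      have e2 : (E.cr (x, .S)).1 = x.1 := rfl
      omega
  · obtain ⟨x, hx, e⟩ := L.hR_mem hn
    have h1 : ¬ (v x).oc .E := fun ho => by
      have := side_E hm (v := x) ho
      omega
    rcases cell_NS (v x) (mem_supp.1 hx) (Or.inr h1) with ho | ho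
    · have := (hb (x, .N) ho).2.1
      have e2 : (E.cr (x, .N)).1 = x.1 := rfl
      omega
    · have := (hb (x, .S) ho).2.1
      have e2 : (E.cr (x, .S)).1 = x.1 := rfl
      omega
  · obtain ⟨x, hx, e⟩ := L.hB_mem hn
    have h1 : ¬ (v x).oc .S := fun ho => by
      have := side_S hm (v := x) ho
      omega
    rcases cell_WE (v x) (mem_supp.1 hx) (Or.inr h1) with ho | ho
    · have := (hb (x, .W) ho).2.2.1
      have e2 : (E.cr (x, .W)).2 = x.2 := rfl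
      omega
    · have := (hb (x, .E) ho).2.2.1
      have e2 : (E.cr (x, .E)).2 = x.2 := rfl
      omega
  · obtain ⟨x, hx, e⟩ := L.hT_mem hn
    have h1 : ¬ (v x).oc .N := fun ho => by
      have := side_N hm (v := x) ho
      omega
    rcases cell_WE (v x) (mem_supp.1 hx) (Or.inl h1) with ho | ho
    · have := (hb (x, .W) ho).2.2.2
      have e2 : (E.cr (x, .W)).2 = x.2 := rfl
      omega
    · have := (hb (x, .E) ho).2.2.2
      have e2 : (E.cr (x, .E)).2 = x.2 := rfl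
      omega

theorem disj_of_supp {v w : Cfg} (h : ∀ s ∈ v.support, s ∉ w.support) : Disjoint (hs v) (hs w) := by
  rw [Finset.disjoint_left]
  intro p h1 h2
  have e1 : sq p ∈ v.support := by
    rw [E.Hx.supp_hs]
    exact Finset.mem_image_of_mem _ h1
  have e2 : sq p ∈ w.support := by
    rw [E.Hx.supp_hs]
    exact Finset.mem_image_of_mem _ h2
  exact h _ e1 e2

theorem in_box {γ : Cfg} {s : Pt} (h : s ∈ γ.support) : hc γ 0 ≤ s.1 ∧ s.1 ≤ hc γ 1 ∧ hc γ 2 ≤ s.2 ∧ s.2 ≤ hc γ 3 :=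
  ⟨L.hL_le h, L.le_hR h, L.hB_le h, L.le_hT h⟩

theorem le_hc {γ : Cfg} (l : HL γ) : hc γ 0 ≤ hc γ 1 ∧ hc γ 2 ≤ hc γ 3 := by
  obtain ⟨s, hs⟩ := supp_ne l
  have := in_box hs
  omega

theorem far_ax {v w : Cfg} (lv : HL v) (lw : HL w)
    (h : hc v 1 + 1 < hc w 0 ∨ hc w 1 + 1 < hc v 0 ∨ hc v 3 + 1 < hc w 2 ∨ hc w 3 + 1 < hc v 2) :
    Disjoint (hs v) (hs w) ∧ ¬ Ins v w := by
  have a1 := le_hc lv
  have a2 := le_hc lw
  refine ⟨disj_of_supp fun s h1 h2 => ?_, fun hi => ?_⟩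
  · have b1 := in_box h1
    have b2 := in_box h2
    omega
  · have b1 := ins_box lv lw hi
    omega

theorem cr_box {γ : Cfg} {h : He} (ho : oc γ h) : hc γ 0 ≤ (E.cr h).1 ∧ (E.cr h).1 ≤ hc γ 1 + 1 ∧ hc γ 2 ≤ (E.cr h).2 ∧
    (E.cr h).2 ≤ hc γ 3 + 1 := by
  have hb := in_box (oc_mem ho)
  obtain ⟨⟨x, y⟩, d⟩ := h
  cases d <;> simp only [E.cr] at hb ⊢ <;> omega

theorem sep_ax {v w : Cfg} (lv : HL v) (lw : HL w)
    (h : ∀ s ∈ w.support, ¬ (hc v 0 - 1 ≤ s.1 ∧ s.1 ≤ hc v 1 + 1 ∧ hc v 2 - 1 ≤ s.2 ∧ s.2 ≤ hc v 3 + 1)) :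
    (Disjoint (hs v) (hs w) ∧ Disjoint (hs w) (hs v)) ∧ ¬ Ins w v ∧ (Ins v w ↔ E.sg w (hc v 0) (hc v 2) = 1) := by
  have hd : Disjoint (hs v) (hs w) := disj_of_supp fun s h1 h2 => by
    have b := in_box h1
    exact h s h2 (by omega)
  have a1 := le_hc lv
  refine ⟨⟨hd, hd.symm⟩, fun hi => ?_, ?_⟩
  · obtain ⟨s, hs⟩ := supp_ne lw
    have b1 := ins_box lw lv hi
    have b2 := in_box hs
    exact h s hs (by omega)
  · have key : ∀ k : He, oc v k → E.sd w k = E.sg w (hc v 0) (hc v 2) := by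
      intro k hk
      have b := cr_box hk
      exact sg_const lw.lp.mt h (by omega) (by omega) (by omega) (by omega) (by omega) (by omega) (by omega) (by omega)
    constructor
    · rintro ⟨-, k, hk, e⟩
      rw [← key k hk, e]
    · intro e
      obtain ⟨s, hs⟩ := supp_ne lv
      obtain ⟨d, ho⟩ := ex_oc hs
      exact ⟨hd, _, ho, by rw [key _ ho, e]⟩

/-! ### translations, transposition, boxes -/

theorem hl_tr {γ : Cfg} (l : HL γ) : HL (E.tr γ) := by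
  refine ⟨(E.lp_tr γ).2 l.lp, fun v => ?_⟩
  obtain ⟨x, y⟩ := v
  rw [E.tr_apply]
  have := l.ny (y, x)
  revert this
  cases γ (y, x) <;> simp [Cell.tp]

/-- the transposition -/
noncomputable def swE : HLs ≃ HLs where
  toFun p := ⟨E.tr p.1, hl_tr p.2⟩
  invFun p := ⟨E.tr p.1, hl_tr p.2⟩
  left_inv p := Subtype.ext (E.tr_tr p.1)
  right_inv p := Subtype.ext (E.tr_tr p.1)

theorem trc_neg (z : Pt) (γ : Cfg) : trc (-z) (trc z γ) = γ := by
  ext v
  have h3 := E.Hx.trc_apply (-z) (trc z γ) (v + z)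
  rw [add_neg_cancel_right] at h3
  rw [h3, E.Hx.trc_apply]

/-- translations -/
noncomputable def trE (z : Pt) : HLs ≃ HLs where
  toFun p := ⟨trc z p.1, E.Hx.hl_trc.2 p.2⟩
  invFun p := ⟨trc (-z) p.1, E.Hx.hl_trc.2 p.2⟩
  left_inv p := Subtype.ext (trc_neg z p.1)
  right_inv p := Subtype.ext (by
    have := trc_neg (-z) p.1
    rwa [neg_neg] at this)

theorem nv_tp (c : Cell) : E.Hx.nv c.tp = E.Hx.nv c := by cases c <;> rfl

theorem nv_pr (c : Cell) : E.Hx.nv c.pr = E.Hx.nv c := by cases c <;> rfl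

theorem card_tr {γ : Cfg} (l : HL γ) : (hs (E.tr γ)).card = (hs γ).card := by
  rw [E.Hx.hs_card (hl_tr l).ny, E.Hx.hs_card l.ny]
  refine Finset.sum_nbij' Prod.swap Prod.swap (fun v hv => supp_tr.1 hv) (fun v hv => ?_) (fun v _ => v.swap_swap)
    (fun v _ => v.swap_swap) (fun v _ => ?_)
  · rw [supp_tr, Prod.swap_swap]
    exact hv
  · obtain ⟨x, y⟩ := v
    rw [E.tr_apply, nv_tp]
    rfl

theorem card_pr {γ : Cfg} (l : HL γ) : (hs (pr γ)).card = (hs γ).card := by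
  rw [E.Hx.hs_card (hl_pr l).ny, E.Hx.hs_card l.ny]
  refine Finset.sum_nbij' (fun v => -v) (fun v => -v) (fun v hv => supp_pr.1 hv) (fun v hv => ?_) (fun v _ => neg_neg v)
    (fun v _ => neg_neg v) (fun v _ => ?_)
  · rw [supp_pr, neg_neg]
    exact hv
  · have h := pr_apply γ (-v)
    rw [neg_neg] at h
    rw [h, nv_pr]

/-- finitely many configurations in a finite set -/
theorem cfg_fin (s : Finset Pt) : {γ : Cfg | ∀ v, γ v ≠ 0 → v ∈ s}.Finite := by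
  have : Finite {γ : Cfg | ∀ v, γ v ≠ 0 → v ∈ s} := by
    refine Finite.of_injective (fun (γ : {γ : Cfg | ∀ v, γ v ≠ 0 → v ∈ s}) (v : s) => γ.1 v.1) ?_
    intro γ γ' h
    apply Subtype.ext
    ext v
    by_cases hv : v ∈ s
    · exact congrFun h ⟨v, hv⟩
    · have h1 : γ.1 v = 0 := by
        by_contra hc
        exact hv (γ.2 v hc)
      have h2 : γ'.1 v = 0 := by
        by_contra hc
        exact hv (γ'.2 v hc)
      rw [h1, h2]
  exact Set.toFinite _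

theorem box_fin (n : ℕ) : {p : HLs | ∀ u, |hc p.1 u| ≤ n}.Finite := by
  refine Set.Finite.subset ((cfg_fin (Finset.Icc (-n : ℤ) n ×ˢ Finset.Icc (-n : ℤ) n)).preimage (f := fun p : HLs => p.1)
    Subtype.val_injective.injOn) ?_
  intro p hp v hv
  have b := in_box (γ := p.1) (mem_supp.2 hv)
  have c0 := abs_le.1 (hp 0)
  have c1 := abs_le.1 (hp 1)
  have c2 := abs_le.1 (hp 2)
  have c3 := abs_le.1 (hp 3)
  rw [Finset.mem_product, Finset.mem_Icc, Finset.mem_Icc]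
  omega

/-- the responses: first and last column, first and last row -/
noncomputable def qf (γ : Cfg) : Fin 4 → ℝ := ![qL γ, qR γ, qL (E.tr γ), qR (E.tr γ)]

/-- the cup responses: left, right, bottom, top -/
noncomputable def cf (γ : Cfg) : Fin 4 → ℝ := ![cpB (E.tr γ), cpT (E.tr γ), cpB γ, cpT γ]

theorem cp_nn (γ : Cfg) : 0 ≤ cpT γ ∧ 0 ≤ cpB γ := by
  unfold cpT cpB
  constructor
  · split_ifs
    · exact kk_nn
    · exact le_rfl
  · split_ifs
    · exact kk_nn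
    · exact le_rfl

/-- **the honeycomb loops as a polygon system** -/
noncomputable def hexP : A.PSys where
  P := HLs
  M := wr
  ht p := hc p.1
  ex p := xe p.1
  Qf p := qf p.1
  Cf p := cf p.1
  st p := {v | v ∈ p.1.support}
  ip x p := E.sg p.1 x.1 x.2 = 1
  Dj p q := Disjoint (hs p.1) (hs q.1)
  In p q := Ins p.1 q.1
  tr := trE
  sw := swE
  box n := (box_fin n).toFinset
  M_nn p := pow_nonneg HexObs.xc_pos.le _
  Q_nn p u := by
    have h1 := sq2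
    fin_cases u
    · exact h1.trans (qL_ge p.2)
    · exact h1.trans (qR_ge p.2)
    · exact h1.trans (qL_ge (hl_tr p.2))
    · exact h1.trans (qR_ge (hl_tr p.2))
  C_nn p u := by
    fin_cases u
    · exact (cp_nn _).2
    · exact (cp_nn _).1
    · exact (cp_nn _).2
    · exact (cp_nn _).1
  mem_box n p := by
    rw [Set.Finite.mem_toFinset]
    rfl
  le01 p := (le_hc p.2).1
  le23 p := (le_hc p.2).2
  ex01 p := by
    obtain ⟨n0, n1, n2, n3⟩ := fil_ne p.2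
    obtain ⟨v0, h0, e0⟩ := L.hB_mem n0
    obtain ⟨v1, h1, e1⟩ := L.hB_mem n1
    have b0 := in_box (Finset.mem_filter.1 h0).1
    have b1 := in_box (Finset.mem_filter.1 h1).1
    have x0 : xe p.1 0 = v0.2 := e0.symm
    have x1 : xe p.1 1 = v1.2 := e1.symm
    rw [x0, x1]
    exact ⟨⟨b0.2.2.1, b0.2.2.2⟩, b1.2.2.1, b1.2.2.2⟩
  ex23 p := by
    obtain ⟨n0, n1, n2, n3⟩ := fil_ne p.2
    obtain ⟨v2, h2, e2⟩ := L.hL_mem n2
    obtain ⟨v3, h3, e3⟩ := L.hL_mem n3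
    have b2 := in_box (Finset.mem_filter.1 h2).1
    have b3 := in_box (Finset.mem_filter.1 h3).1
    have x2 : xe p.1 2 = v2.1 := e2.symm
    have x3 : xe p.1 3 = v3.1 := e3.symm
    rw [x2, x3]
    exact ⟨⟨b2.1, b2.2.1⟩, b3.1, b3.2.1⟩
  tr_M z p := by
    show HexObs.xc ^ (hs (trc z p.1)).card = HexObs.xc ^ (hs p.1).card
    rw [E.Hx.hs_trc]
  tr_ht z p := hc_trc p.2 z
  tr_ex z p := xe_trc p.2 z
  tr_st z p x := supp_trc.symm
  tr_ip z p x := by
    show E.sg p.1 x.1 x.2 = 1 ↔ E.sg (trc z p.1) (x.1 + z.1) (x.2 + z.2) = 1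
    rw [sg_trc]
  sw_M p := by
    show HexObs.xc ^ (hs (E.tr p.1)).card = HexObs.xc ^ (hs p.1).card
    rw [card_tr p.2]
  sw_ht p := hc_sw p.1
  sw_ex p := xe_sw p.1
  st_box p x hx := in_box hx
  ip_box p x hx := sg_box p.2.lp.mt hx
  ip_sep p x y hx hy := sg_sep p.2.lp.mt (fun e => hy (e ▸ hx))
  In_box v w h := ins_box v.2 w.2 h
  far v w h := far_ax v.2 w.2 h
  sep v w h := sep_ax v.2 w.2 h

end Pool.Agent.ROT.A6
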