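import Pool.Agent.ROT.LGr

/-!
# ROT, block L, row L4a: the extended heights of a member

`cl γ i` = the normal cells of the member `i`; `us j s γ i` = it uses one of the six ports of the region `Rg j s`;
**`ex j s γ i`** = its normal cells and, if it uses a port, both cells of the region.  `ex` is constant on the classes
`Eq6 (Rg j s)`; on the families of the square lattice it has the same rows as `cl`, and its first (last) column differs
only if the member has its first column `j + 1` and is in the cell `(j + 1, s)` (its last column `j` and in `(j, s)`).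
-/

set_option autoImplicit false
set_option linter.unusedSimpArgs false

namespace Pool.Agent.ROT.L

open Pool.Agent.YBC (Dir)
open Pool.Agent.ROT.E (Cell IsUn Pt nx)

/-! ### the heights of a finite set of cells -/

/-- first column -/
noncomputable def hL (S : Finset Pt) : ℤ := sInf (Prod.fst '' (S : Set Pt))

/-- last column -/
noncomputable def hR (S : Finset Pt) : ℤ := sSup (Prod.fst '' (S : Set Pt))

/-- first row -/
noncomputable def hB (S : Finset Pt) : ℤ := sInf (Prod.snd '' (S : Set Pt))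

/-- last row -/
noncomputable def hT (S : Finset Pt) : ℤ := sSup (Prod.snd '' (S : Set Pt))

section heights

variable {S : Finset Pt}

private theorem fin_fst (S : Finset Pt) : (Prod.fst '' (S : Set Pt)).Finite := S.finite_toSet.image _

private theorem fin_snd (S : Finset Pt) : (Prod.snd '' (S : Set Pt)).Finite := S.finite_toSet.image _

theorem hL_le {v : Pt} (hv : v ∈ S) : hL S ≤ v.1 := csInf_le (fin_fst S).bddBelow ⟨v, hv, rfl⟩

theorem le_hR {v : Pt} (hv : v ∈ S) : v.1 ≤ hR S := le_csSup (fin_fst S).bddAbove ⟨v, hv, rfl⟩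

theorem hB_le {v : Pt} (hv : v ∈ S) : hB S ≤ v.2 := csInf_le (fin_snd S).bddBelow ⟨v, hv, rfl⟩

theorem le_hT {v : Pt} (hv : v ∈ S) : v.2 ≤ hT S := le_csSup (fin_snd S).bddAbove ⟨v, hv, rfl⟩

theorem hL_mem (h : S.Nonempty) : ∃ v ∈ S, v.1 = hL S := by
  obtain ⟨v, hv, e⟩ := Set.Nonempty.csInf_mem ((Finset.coe_nonempty.2 h).image Prod.fst) (fin_fst S)
  exact ⟨v, hv, e⟩

theorem hR_mem (h : S.Nonempty) : ∃ v ∈ S, v.1 = hR S := by
  obtain ⟨v, hv, e⟩ := Set.Nonempty.csSup_mem ((Finset.coe_nonempty.2 h).image Prod.fst) (fin_fst S)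
  exact ⟨v, hv, e⟩

theorem hB_mem (h : S.Nonempty) : ∃ v ∈ S, v.2 = hB S := by
  obtain ⟨v, hv, e⟩ := Set.Nonempty.csInf_mem ((Finset.coe_nonempty.2 h).image Prod.snd) (fin_snd S)
  exact ⟨v, hv, e⟩

theorem hT_mem (h : S.Nonempty) : ∃ v ∈ S, v.2 = hT S := by
  obtain ⟨v, hv, e⟩ := Set.Nonempty.csSup_mem ((Finset.coe_nonempty.2 h).image Prod.snd) (fin_snd S)
  exact ⟨v, hv, e⟩

theorem hL_eq {a : ℤ} (h : ∃ v ∈ S, v.1 = a) (h' : ∀ v ∈ S, a ≤ v.1) : hL S = a := by
  obtain ⟨v, hv, e⟩ := h
  obtain ⟨w, hw, e'⟩ := hL_mem ⟨v, hv⟩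
  have h1 := hL_le hv
  have h2 := h' w hw
  omega

theorem hR_eq {a : ℤ} (h : ∃ v ∈ S, v.1 = a) (h' : ∀ v ∈ S, v.1 ≤ a) : hR S = a := by
  obtain ⟨v, hv, e⟩ := h
  obtain ⟨w, hw, e'⟩ := hR_mem ⟨v, hv⟩
  have h1 := le_hR hv
  have h2 := h' w hw
  omega

theorem hB_eq {a : ℤ} (h : ∃ v ∈ S, v.2 = a) (h' : ∀ v ∈ S, a ≤ v.2) : hB S = a := by
  obtain ⟨v, hv, e⟩ := h
  obtain ⟨w, hw, e'⟩ := hB_mem ⟨v, hv⟩
  have h1 := hB_le hv
  have h2 := h' w hw
  omega

theorem hT_eq {a : ℤ} (h : ∃ v ∈ S, v.2 = a) (h' : ∀ v ∈ S, v.2 ≤ a) : hT S = a := by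
  obtain ⟨v, hv, e⟩ := h
  obtain ⟨w, hw, e'⟩ := hT_mem ⟨v, hv⟩
  have h1 := le_hT hv
  have h2 := h' w hw
  omega

theorem hL_insert (h : S.Nonempty) (v : Pt) : hL (insert v S) = min v.1 (hL S) := by
  obtain ⟨w, hw, e⟩ := hL_mem h
  refine hL_eq ?_ ?_
  · rcases le_total v.1 (hL S) with h1 | h1
    · exact ⟨v, Finset.mem_insert_self _ _, by rw [min_eq_left h1]⟩
    · exact ⟨w, Finset.mem_insert_of_mem hw, by rw [min_eq_right h1, e]⟩
  · intro u hu
    rcases Finset.mem_insert.1 hu with rfl | hu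
    · exact min_le_left _ _
    · exact (min_le_right _ _).trans (hL_le hu)

theorem hR_insert (h : S.Nonempty) (v : Pt) : hR (insert v S) = max v.1 (hR S) := by
  obtain ⟨w, hw, e⟩ := hR_mem h
  refine hR_eq ?_ ?_
  · rcases le_total (hR S) v.1 with h1 | h1
    · exact ⟨v, Finset.mem_insert_self _ _, by rw [max_eq_left h1]⟩
    · exact ⟨w, Finset.mem_insert_of_mem hw, by rw [max_eq_right h1, e]⟩
  · intro u hu
    rcases Finset.mem_insert.1 hu with rfl | hu
    · exact le_max_left _ _
    · exact (le_hR hu).trans (le_max_right _ _)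

theorem hB_insert (h : S.Nonempty) (v : Pt) : hB (insert v S) = min v.2 (hB S) := by
  obtain ⟨w, hw, e⟩ := hB_mem h
  refine hB_eq ?_ ?_
  · rcases le_total v.2 (hB S) with h1 | h1
    · exact ⟨v, Finset.mem_insert_self _ _, by rw [min_eq_left h1]⟩
    · exact ⟨w, Finset.mem_insert_of_mem hw, by rw [min_eq_right h1, e]⟩
  · intro u hu
    rcases Finset.mem_insert.1 hu with rfl | hu
    · exact min_le_left _ _
    · exact (min_le_right _ _).trans (hB_le hu)

theorem hT_insert (h : S.Nonempty) (v : Pt) : hT (insert v S) = max v.2 (hT S) := by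
  obtain ⟨w, hw, e⟩ := hT_mem h
  refine hT_eq ?_ ?_
  · rcases le_total (hT S) v.2 with h1 | h1
    · exact ⟨v, Finset.mem_insert_self _ _, by rw [max_eq_left h1]⟩
    · exact ⟨w, Finset.mem_insert_of_mem hw, by rw [max_eq_right h1, e]⟩
  · intro u hu
    rcases Finset.mem_insert.1 hu with rfl | hu
    · exact le_max_left _ _
    · exact (le_hT hu).trans (le_max_right _ _)

end heights

/-! ### the ports of the region -/

/-- **the six ports** of the region `Rg j s`: below left, below right, west, east, above left, above right -/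
def pt6 (j s : ℤ) : Set (VX × Dir) :=
  {(some (j, s - 1), .N), (some (j + 1, s - 1), .N), (some (j - 1, s), .E), (some (j + 2, s), .W),
    (some (j, s + 1), .S), (some (j + 1, s + 1), .S)}

theorem mem_pt6 {j s : ℤ} {h : VX × Dir} : h ∈ pt6 j s ↔ h = (some (j, s - 1), .N) ∨ h = (some (j + 1, s - 1), .N) ∨
    h = (some (j - 1, s), .E) ∨ h = (some (j + 2, s), .W) ∨ h = (some (j, s + 1), .S) ∨ h = (some (j + 1, s + 1), .S) :=
  Iff.rfl

theorem none_mem_Rg (j s : ℤ) : (none : VX) ∈ Rg j s := Or.inl rfl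

theorem some_mem_Rg {j s a b : ℤ} : (some (a, b) : VX) ∈ Rg j s ↔ (a = j ∨ a = j + 1) ∧ b = s := by
  show (some (a, b) = none ∨ some (a, b) = some (j, s) ∨ some (a, b) = some (j + 1, s)) ↔ _
  simp only [reduceCtorEq, Option.some.injEq, Prod.mk.injEq, false_or]
  tauto

theorem port_g0 (j s : ℤ) : Port g0 (Rg j s) = pt6 j s := by
  ext ⟨_ | ⟨a, b⟩, d⟩
  · refine iff_of_false (fun h => h.1 (none_mem_Rg j s)) ?_
    rw [mem_pt6]
    simp
  · rw [mem_pt6]
    show (some (a, b) ∉ Rg j s ∧ (e0 (some (a, b), d)).1 ∈ Rg j s) ↔ _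
    cases d <;> simp only [e0, nx, some_mem_Rg, Prod.mk.injEq, Option.some.injEq, reduceCtorEq, and_true, and_false,
      or_false, false_or] <;> omega

theorem port_gX (j s : ℤ) : Port (gX j s) (Rg j s) = pt6 j s := by
  ext ⟨_ | ⟨a, b⟩, d⟩
  · refine iff_of_false (fun h => h.1 (none_mem_Rg j s)) ?_
    rw [mem_pt6]
    simp
  · rw [mem_pt6]
    show (some (a, b) ∉ Rg j s ∧ (eX j s (some (a, b), d)).1 ∈ Rg j s) ↔ _
    cases d
    · simp only [eX, nx, some_mem_Rg, Prod.mk.injEq, Option.some.injEq, reduceCtorEq, and_true, and_false,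
        or_false, false_or]
      omega
    · simp only [eX]
      split_ifs with h1 h2
      · simp only [Prod.mk.injEq] at h1
        simp only [none_mem_Rg, some_mem_Rg, Prod.mk.injEq, Option.some.injEq, reduceCtorEq, and_true, and_false,
          or_false, false_or]
        omega
      · simp only [Prod.mk.injEq] at h2
        simp only [none_mem_Rg, some_mem_Rg, Prod.mk.injEq, Option.some.injEq, reduceCtorEq, and_true, and_false,
          or_false, false_or]
        omega
      · simp only [Prod.mk.injEq] at h1 h2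
        simp only [nx, some_mem_Rg, Prod.mk.injEq, Option.some.injEq, reduceCtorEq, and_true, and_false,
          or_false, false_or]
        omega
    · simp only [eX, nx, some_mem_Rg, Prod.mk.injEq, Option.some.injEq, reduceCtorEq, and_true, and_false,
        or_false, false_or]
      omega
    · simp only [eX]
      split_ifs with h1 h2
      · simp only [Prod.mk.injEq] at h1
        simp only [none_mem_Rg, some_mem_Rg, Prod.mk.injEq, Option.some.injEq, reduceCtorEq, and_true, and_false,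
          or_false, false_or]
        omega
      · simp only [Prod.mk.injEq] at h2
        simp only [none_mem_Rg, some_mem_Rg, Prod.mk.injEq, Option.some.injEq, reduceCtorEq, and_true, and_false,
          or_false, false_or]
        omega
      · simp only [Prod.mk.injEq] at h1 h2
        simp only [nx, some_mem_Rg, Prod.mk.injEq, Option.some.injEq, reduceCtorEq, and_true, and_false,
          or_false, false_or]
        omega

theorem port_gX' (j s : ℤ) : Port (gX j (s + 1)) (Rg j s) = pt6 j s := by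
  ext ⟨_ | ⟨a, b⟩, d⟩
  · refine iff_of_false (fun h => h.1 (none_mem_Rg j s)) ?_
    rw [mem_pt6]
    simp
  · rw [mem_pt6]
    show (some (a, b) ∉ Rg j s ∧ (eX j (s + 1) (some (a, b), d)).1 ∈ Rg j s) ↔ _
    cases d
    · simp only [eX, nx, some_mem_Rg, Prod.mk.injEq, Option.some.injEq, reduceCtorEq, and_true, and_false,
        or_false, false_or]
      omega
    · simp only [eX]
      split_ifs with h1 h2
      · simp only [Prod.mk.injEq] at h1
        simp only [none_mem_Rg, some_mem_Rg, Prod.mk.injEq, Option.some.injEq, reduceCtorEq, and_true, and_false,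
          or_false, false_or]
        omega
      · simp only [Prod.mk.injEq] at h2
        simp only [none_mem_Rg, some_mem_Rg, Prod.mk.injEq, Option.some.injEq, reduceCtorEq, and_true, and_false,
          or_false, false_or]
        omega
      · simp only [Prod.mk.injEq] at h1 h2
        simp only [nx, some_mem_Rg, Prod.mk.injEq, Option.some.injEq, reduceCtorEq, and_true, and_false,
          or_false, false_or]
        omega
    · simp only [eX, nx, some_mem_Rg, Prod.mk.injEq, Option.some.injEq, reduceCtorEq, and_true, and_false,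
        or_false, false_or]
      omega
    · simp only [eX]
      split_ifs with h1 h2
      · simp only [Prod.mk.injEq] at h1
        simp only [none_mem_Rg, some_mem_Rg, Prod.mk.injEq, Option.some.injEq, reduceCtorEq, and_true, and_false,
          or_false, false_or]
        omega
      · simp only [Prod.mk.injEq] at h2
        simp only [none_mem_Rg, some_mem_Rg, Prod.mk.injEq, Option.some.injEq, reduceCtorEq, and_true, and_false,
          or_false, false_or]
        omega
      · simp only [Prod.mk.injEq] at h1 h2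
        simp only [nx, some_mem_Rg, Prod.mk.injEq, Option.some.injEq, reduceCtorEq, and_true, and_false,
          or_false, false_or]
        omega

theorem out_pt6 {j s : ℤ} {h : VX × Dir} (hh : h ∈ pt6 j s) : h.1 ∉ Rg j s := by
  rw [← port_g0] at hh
  exact hh.1

/-! ### occupied half edges and members -/

variable {V I : Type}

theorem co_app (γ : V →₀ (I → Cell)) (i : I) (v : V) : co γ i v = γ v i := rfl

theorem oc_co {γ : V →₀ (I → Cell)} {i : I} {h : V × Dir} (ho : oc (co γ i) h) : γ h.1 i ≠ .o := by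
  intro e
  apply ho
  rw [co_app, e]
  rfl

theorem exists_oc {γ : V →₀ (I → Cell)} {i : I} {v : V} (h : γ v i ≠ .o) : ∃ d, oc (co γ i) (v, d) := by
  have key : ∀ c : Cell, c ≠ .o → ∃ d, c.oc d := by decide
  exact key _ h

/-- a property kept by the links is kept by the connections -/
theorem cn_inv {G : Gr V} {γ : V →₀ Cell} {A : Set V} {P : V × Dir → Prop} (hP : ∀ h k, Lk G γ A h k → (P h ↔ P k))
    {h k : V × Dir} (c : Cn G γ A h k) : P h ↔ P k := by
  induction c with
  | rel h k l => exact hP h k l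
  | refl h => exact Iff.rfl
  | symm h k _ ih => exact ih.symm
  | trans h k l _ _ ih1 ih2 => exact ih1.trans ih2

/-- **a member which leaves the region and uses no port is not in the region** -/
theorem not_in {G : Gr V} {γ : V →₀ (I → Cell)} {A : Set V} {i : I} (hl : Lp G (co γ i))
    (hg : ∃ v, v ∉ A ∧ γ v i ≠ .o) (hp : ∀ h ∈ Port G A, ¬ oc (co γ i) h) {v : V} (hv : v ∈ A) : γ v i = .o := by
  by_contra hc
  obtain ⟨d, hd⟩ := exists_oc hc
  obtain ⟨w, hw, hw0⟩ := hg
  obtain ⟨d', hd'⟩ := exists_oc hw0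
  have key : ∀ h k, Lk G (co γ i) Set.univ h k → (h.1 ∈ A ↔ k.1 ∈ A) := by
    rintro h k ⟨ho, -, rfl | ⟨rfl, -⟩⟩
    · exact Iff.rfl
    · have ho' : oc (co γ i) (G.e h) := (hl.mt h (Set.mem_univ _) (Set.mem_univ _)).1 ho
      constructor
      · intro h1
        by_contra h2
        exact hp (G.e h) ⟨h2, by rw [G.inv]; exact h1⟩ ho'
      · intro h1
        by_contra h2
        exact hp h ⟨h2, h1⟩ ho
  exact hw (((cn_inv (P := fun k => k.1 ∈ A) key (hl.cn _ _ hd hd')).1 hv))

/-- a member which uses a port is in the region -/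
theorem port_in {G : Gr V} {γ : V →₀ (I → Cell)} {A : Set V} {i : I} (hl : Lp G (co γ i)) {h : V × Dir}
    (hp : h ∈ Port G A) (ho : oc (co γ i) h) : ∃ v ∈ A, γ v i ≠ .o :=
  ⟨(G.e h).1, hp.2, oc_co ((hl.mt h (Set.mem_univ _) (Set.mem_univ _)).1 ho)⟩

/-! ### the normal cells and the extended cells -/

/-- **the normal cells of the member `i`** -/
noncomputable def cl (γ : VX →₀ (I → Cell)) (i : I) : Finset Pt :=
  (γ.support.preimage some (Option.some_injective _).injOn).filter fun v => γ (some v) i ≠ .o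

theorem mem_cl {γ : VX →₀ (I → Cell)} {i : I} {v : Pt} : v ∈ cl γ i ↔ γ (some v) i ≠ .o := by
  rw [cl, Finset.mem_filter, Finset.mem_preimage, Finsupp.mem_support_iff]
  refine ⟨fun h => h.2, fun h => ⟨fun e => h ?_, h⟩⟩
  rw [e]
  rfl

/-- **the member `i` uses one of the six ports** -/
def us (j s : ℤ) (γ : VX →₀ (I → Cell)) (i : I) : Prop := ∃ h ∈ pt6 j s, oc (co γ i) h

open Classical in
/-- **the extended cells**: the normal cells and, if the member uses a port, both cells of the region -/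
noncomputable def ex (j s : ℤ) (γ : VX →₀ (I → Cell)) (i : I) : Finset Pt :=
  if us j s γ i then insert (j, s) (insert (j + 1, s) (cl γ i)) else cl γ i

theorem ex_of_us {j s : ℤ} {γ : VX →₀ (I → Cell)} {i : I} (h : us j s γ i) :
    ex j s γ i = insert (j, s) (insert (j + 1, s) (cl γ i)) := if_pos h

theorem ex_of_not {j s : ℤ} {γ : VX →₀ (I → Cell)} {i : I} (h : ¬ us j s γ i) : ex j s γ i = cl γ i := if_neg h

theorem cl_sub_ex (j s : ℤ) (γ : VX →₀ (I → Cell)) (i : I) : cl γ i ⊆ ex j s γ i := by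
  by_cases h : us j s γ i
  · rw [ex_of_us h]
    exact (Finset.subset_insert _ _).trans (Finset.subset_insert _ _)
  · rw [ex_of_not h]

theorem mem_ex_out {j s : ℤ} {γ : VX →₀ (I → Cell)} {i : I} {v : Pt} (hv : (some v : VX) ∉ Rg j s) :
    v ∈ ex j s γ i ↔ v ∈ cl γ i := by
  by_cases h : us j s γ i
  · rw [ex_of_us h, Finset.mem_insert, Finset.mem_insert]
    refine ⟨fun h => ?_, fun h => Or.inr (Or.inr h)⟩
    rcases h with rfl | rfl | h
    · exact absurd (Or.inr (Or.inl rfl)) hv
    · exact absurd (Or.inr (Or.inr rfl)) hv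
    · exact h
  · rw [ex_of_not h]

theorem us_congr {j s : ℤ} {γ γ' : VX →₀ (I → Cell)} (ho : ∀ v, v ∉ Rg j s → γ v = γ' v) (i : I) :
    us j s γ i ↔ us j s γ' i := by
  have key : ∀ h ∈ pt6 j s, (oc (co γ i) h ↔ oc (co γ' i) h) := by
    intro h hh
    unfold oc
    rw [co_app, co_app, ho _ (out_pt6 hh)]
  exact ⟨fun ⟨h, hh, h1⟩ => ⟨h, hh, (key h hh).1 h1⟩, fun ⟨h, hh, h1⟩ => ⟨h, hh, (key h hh).2 h1⟩⟩

/-- **the extended cells are constant on the classes** -/
theorem ex_eq {j s : ℤ} {G G' : Gr VX} (hG : Port G (Rg j s) = pt6 j s) (hG' : Port G' (Rg j s) = pt6 j s)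
    {γ γ' : VX →₀ (I → Cell)} (h : Eq6 (Rg j s) G G' γ γ') (i : I) : ex j s γ i = ex j s γ' i := by
  have hu := us_congr h.out i
  have gd' : ∃ v, v ∉ Rg j s ∧ γ' v i ≠ .o := by
    obtain ⟨v, hv, h0⟩ := h.gd i
    exact ⟨v, hv, by rw [← h.out v hv]; exact h0⟩
  ext v
  by_cases hv : (some v : VX) ∈ Rg j s
  · by_cases hus : us j s γ i
    · have hus' := hu.1 hus
      obtain ⟨a, b⟩ := v
      rw [ex_of_us hus, ex_of_us hus']
      rw [some_mem_Rg] at hv
      simp only [Finset.mem_insert, Prod.mk.injEq]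
      refine ⟨fun _ => ?_, fun _ => ?_⟩ <;> · rcases hv with ⟨h1 | h1, h2⟩ <;> simp [h1, h2]
    · have hus' : ¬ us j s γ' i := fun h1 => hus (hu.2 h1)
      rw [ex_of_not hus, ex_of_not hus', mem_cl, mem_cl]
      refine iff_of_false (fun h1 => h1 ?_) (fun h1 => h1 ?_)
      · exact not_in (h.fam.lp i) (h.gd i) (fun k hk ho => hus ⟨k, hG ▸ hk, ho⟩) hv
      · exact not_in (h.fam'.lp i) gd' (fun k hk ho => hus' ⟨k, hG' ▸ hk, ho⟩) hv
  · rw [mem_ex_out hv, mem_ex_out hv, mem_cl, mem_cl, h.out _ hv]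

/-- uses a port = is in the region -/
theorem us_iff {j s : ℤ} {G : Gr VX} (hG : Port G (Rg j s) = pt6 j s) {γ : VX →₀ (I → Cell)} (hf : Fam G γ)
    (hg : Gd (Rg j s) γ) (i : I) : us j s γ i ↔ ∃ v ∈ Rg j s, γ v i ≠ .o := by
  constructor
  · rintro ⟨h, hh, ho⟩
    exact port_in (hf.lp i) (hG.symm ▸ hh) ho
  · rintro ⟨v, hv, h0⟩
    by_contra hc
    exact h0 (not_in (hf.lp i) (hg i) (fun k hk ho => hc ⟨k, hG ▸ hk, ho⟩) hv)

/-! ### the families of the square lattice -/

/-- the crossing is empty -/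
theorem none_o {j s : ℤ} {γ : VX →₀ (I → Cell)} (hf : Fam g0 γ) (hg : Gd (Rg j s) γ) (i : I) : γ none i = .o :=
  not_in (G := g0) (A := {none}) (hf.lp i)
    (by
      obtain ⟨v, hv, h0⟩ := hg i
      exact ⟨v, fun e => hv (by rw [Set.mem_singleton_iff.1 e]; exact none_mem_Rg j s), h0⟩)
    (by
      rintro ⟨_ | v, d⟩ ⟨h1, h2⟩
      · exact absurd rfl h1
      · exact absurd h2 (by simp [g0, e0]))
    rfl

theorem us_g0 {j s : ℤ} {γ : VX →₀ (I → Cell)} (hf : Fam g0 γ) (hg : Gd (Rg j s) γ) (i : I) :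
    us j s γ i ↔ (j, s) ∈ cl γ i ∨ (j + 1, s) ∈ cl γ i := by
  rw [us_iff (port_g0 j s) hf hg, mem_cl, mem_cl]
  constructor
  · rintro ⟨v, rfl | rfl | rfl, h0⟩
    · exact absurd (none_o hf hg i) h0
    · exact Or.inl h0
    · exact Or.inr h0
  · rintro (h | h)
    · exact ⟨_, Or.inr (Or.inl rfl), h⟩
    · exact ⟨_, Or.inr (Or.inr rfl), h⟩

theorem cl_ne {j s : ℤ} {γ : VX →₀ (I → Cell)} (hg : Gd (Rg j s) γ) (i : I) : (cl γ i).Nonempty := by
  obtain ⟨_ | v, hv, h0⟩ := hg i
  · exact absurd (none_mem_Rg j s) hv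
  · exact ⟨v, mem_cl.2 h0⟩

/-- **the rows do not change** -/
theorem hB_ex {j s : ℤ} {γ : VX →₀ (I → Cell)} (hf : Fam g0 γ) (hg : Gd (Rg j s) γ) (i : I) :
    hB (ex j s γ i) = hB (cl γ i) := by
  by_cases h : us j s γ i
  · have hm : hB (cl γ i) ≤ s := by
      rcases (us_g0 hf hg i).1 h with h1 | h1 <;> exact hB_le h1
    rw [ex_of_us h, hB_insert (Finset.insert_nonempty _ _), hB_insert (cl_ne hg i)]
    show min s (min s (hB (cl γ i))) = _
    omega
  · rw [ex_of_not h]

/-- **the rows do not change** -/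
theorem hT_ex {j s : ℤ} {γ : VX →₀ (I → Cell)} (hf : Fam g0 γ) (hg : Gd (Rg j s) γ) (i : I) :
    hT (ex j s γ i) = hT (cl γ i) := by
  by_cases h : us j s γ i
  · have hm : s ≤ hT (cl γ i) := by
      rcases (us_g0 hf hg i).1 h with h1 | h1 <;> exact le_hT h1
    rw [ex_of_us h, hT_insert (Finset.insert_nonempty _ _), hT_insert (cl_ne hg i)]
    show max s (max s (hT (cl γ i))) = _
    omega
  · rw [ex_of_not h]

open Classical in
/-- **the first column** -/
theorem hL_ex {j s : ℤ} {γ : VX →₀ (I → Cell)} (hf : Fam g0 γ) (hg : Gd (Rg j s) γ) (i : I) :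
    hL (ex j s γ i) = if hL (cl γ i) = j + 1 ∧ (j + 1, s) ∈ cl γ i then j else hL (cl γ i) := by
  by_cases h : us j s γ i
  · have e : hL (ex j s γ i) = min j (hL (cl γ i)) := by
      rw [ex_of_us h, hL_insert (Finset.insert_nonempty _ _), hL_insert (cl_ne hg i)]
      show min j (min (j + 1) (hL (cl γ i))) = _
      omega
    rw [e]
    split_ifs with hc
    · omega
    · rcases (us_g0 hf hg i).1 h with h1 | h1
      · have h2 : hL (cl γ i) ≤ j := hL_le h1
        omega
      · have h2 : hL (cl γ i) ≤ j + 1 := hL_le h1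
        have h3 : hL (cl γ i) ≠ j + 1 := fun e => hc ⟨e, h1⟩
        omega
  · have h1 : ¬ (hL (cl γ i) = j + 1 ∧ (j + 1, s) ∈ cl γ i) := fun h2 => h ((us_g0 hf hg i).2 (Or.inr h2.2))
    rw [ex_of_not h, if_neg h1]

open Classical in
/-- **the last column** -/
theorem hR_ex {j s : ℤ} {γ : VX →₀ (I → Cell)} (hf : Fam g0 γ) (hg : Gd (Rg j s) γ) (i : I) :
    hR (ex j s γ i) = if hR (cl γ i) = j ∧ (j, s) ∈ cl γ i then j + 1 else hR (cl γ i) := by
  by_cases h : us j s γ i
  · have e : hR (ex j s γ i) = max (j + 1) (hR (cl γ i)) := by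
      rw [ex_of_us h, hR_insert (Finset.insert_nonempty _ _), hR_insert (cl_ne hg i)]
      show max j (max (j + 1) (hR (cl γ i))) = _
      omega
    rw [e]
    split_ifs with hc
    · omega
    · rcases (us_g0 hf hg i).1 h with h1 | h1
      · have h2 : j ≤ hR (cl γ i) := le_hR h1
        have h3 : hR (cl γ i) ≠ j := fun e => hc ⟨e, h1⟩
        omega
      · have h2 : j + 1 ≤ hR (cl γ i) := le_hR h1
        omega
  · have h1 : ¬ (hR (cl γ i) = j ∧ (j, s) ∈ cl γ i) := fun h2 => h ((us_g0 hf hg i).2 (Or.inl h2.2))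
    rw [ex_of_not h, if_neg h1]

/-- the extended cells are the normal ones for a member outside of the region -/
theorem ex_out {j s : ℤ} {G : Gr VX} (hG : Port G (Rg j s) = pt6 j s) {γ : VX →₀ (I → Cell)} (hf : Fam G γ)
    (hg : Gd (Rg j s) γ) {i : I} (h : ∀ v ∈ Rg j s, γ v i = .o) : ex j s γ i = cl γ i :=
  ex_of_not fun hu => by
    obtain ⟨v, hv, h0⟩ := (us_iff hG hf hg i).1 hu
    exact h0 (h v hv)

end Pool.Agent.ROT.L
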