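import Pool.Agent.ROT.EHexT
import Pool.Agent.ROT.LHt
import Pool.Agent.TIW.Defs

/-!
# ROT, row N1, loop form (helper70): masses of the loops with both extents in a window, from the word level
-/

set_option autoImplicit false

namespace Pool.Agent.ROT.E.Hx

open HexObs (ip vx oo up wE gf)
open Pool.Agent.ROT.L (hL hR hB hT hL_le le_hR hB_le le_hT hL_mem hR_mem hB_mem hT_mem)
open scoped ENNReal

/-! ### sums over words by the length -/

/-- **by the length** -/
theorem sum_len (P : ℕ → List Bool → Prop) : ∑' n : ℕ, ENNReal.ofReal (1 / n) * gf {t | t ∈ HexObs.POL.Cy n ∧ P n t} =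
    open Classical in ∑' t : Wo, wE t * (if P (t : List Bool).length t then ((t : List Bool).length : ℝ≥0∞)⁻¹ else 0) := by
  classical
  have h1 : ∀ n : ℕ, ENNReal.ofReal (1 / n) * gf {t | t ∈ HexObs.POL.Cy n ∧ P n t} =
      ∑' t : List Bool, ENNReal.ofReal (1 / n) * {t | t ∈ HexObs.POL.Cy n ∧ P n t}.indicator wE t := by
    intro n
    unfold gf
    rw [tsum_subtype, ENNReal.tsum_mul_left]
  rw [tsum_congr h1, ENNReal.tsum_comm]
  have h2 : ∑' t : Wo, wE t * (if P (t : List Bool).length t then ((t : List Bool).length : ℝ≥0∞)⁻¹ else 0) =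
      ∑' t : List Bool, Wo.indicator (fun t => wE t * (if P t.length t then (t.length : ℝ≥0∞)⁻¹ else 0)) t :=
    tsum_subtype Wo fun t => wE t * (if P t.length t then (t.length : ℝ≥0∞)⁻¹ else 0)
  rw [h2]
  apply tsum_congr
  intro t
  rw [tsum_eq_single t.length]
  · by_cases h3 : t = []
    · subst h3
      have : ([] : List Bool) ∉ Wo := fun h => h.1 rfl
      rw [Set.indicator_of_notMem this]
      simp
    · have h0 : 0 < t.length := List.length_pos_iff.2 h3
      by_cases h4 : t ∈ HexObs.POL.Cy t.length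
      · rw [Set.indicator_of_mem (show t ∈ Wo from ⟨h3, h4⟩)]
        by_cases h5 : P t.length t
        · rw [Set.indicator_of_mem (show t ∈ {t' | t' ∈ HexObs.POL.Cy t.length ∧ P t.length t'} from ⟨h4, h5⟩),
            if_pos h5, mul_comm]
          congr 1
          rw [one_div, ENNReal.ofReal_inv_of_pos (by exact_mod_cast h0), ENNReal.ofReal_natCast]
        · rw [Set.indicator_of_notMem (fun h => h5 h.2), if_neg h5, mul_zero, mul_zero]
      · rw [Set.indicator_of_notMem (show t ∉ Wo from fun h => h4 h.2),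
          Set.indicator_of_notMem (fun h => h4 h.1), mul_zero]
  · intro n hn
    rw [Set.indicator_of_notMem, mul_zero]
    rintro ⟨h3, -⟩
    exact hn h3.1.symm

/-! ### the frames -/

/-- the direction of the columns seen from the first bond -/
def dC : Sx → HexObs.Pt
  | .ww => (0, -1)
  | .ss => (-1, 1)
  | .ii => (1, 0)
  | .ee => (0, 1)
  | .nn => (1, -1)
  | .jj => (-1, 0)

/-- the direction of the rows seen from the first bond -/
def dR : Sx → HexObs.Pt
  | .ww => (1, 0)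
  | .ss => (0, -1)
  | .ii => (-1, 1)
  | .ee => (-1, 0)
  | .nn => (0, 1)
  | .jj => (1, -1)

theorem ip_fr (s : Sx) (p : HexObs.Pt) : ip (HexObs.mulE (HexObs.rotTo up (dr s)) p) (1, 0) = ip p (dC s) ∧
    ip (HexObs.mulE (HexObs.rotTo up (dr s)) p) (-1, 1) = ip p (dR s) := by
  cases s <;> simp [HexObs.rotTo, HexObs.mulE, HexObs.conjE, up, dr, ip, dC, dR] <;> constructor <;> ring

theorem ip_sub (p q d : HexObs.Pt) : ip (p - q) d = ip p d - ip q d := by
  unfold ip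
  simp only [Prod.fst_sub, Prod.snd_sub]
  ring

/-- differences of the heights of the honeycomb walk -/
theorem vx_fr (v0 : HexObs.Pt) (s : Sx) (t : List Bool) (i j : ℕ) :
    ip (vx v0 (dr s) t i) (1, 0) - ip (vx v0 (dr s) t j) (1, 0) = ip (vx oo up t i - vx oo up t j) (dC s) ∧
    ip (vx v0 (dr s) t i) (-1, 1) - ip (vx v0 (dr s) t j) (-1, 1) = ip (vx oo up t i - vx oo up t j) (dR s) := by
  have hu : up ∈ HexObs.dirs := by decide
  have e0 := HexObs.rotTo_apply (dr s) hu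
  have hv : ∀ i, vx v0 (dr s) t i = v0 + HexObs.mulE (HexObs.rotTo up (dr s)) (vx oo up t i - oo) := by
    intro i
    have := HexObs.vx_mulE (HexObs.rotTo up (dr s)) oo v0 up t i
    rwa [e0] at this
  have h1 : vx v0 (dr s) t i - vx v0 (dr s) t j =
      HexObs.mulE (HexObs.rotTo up (dr s)) (vx oo up t i - vx oo up t j) := by
    rw [hv, hv, add_sub_add_left_eq_sub, ← HexObs.mulE_sub, sub_sub_sub_cancel_right]
  rw [← ip_sub, ← ip_sub, h1]
  exact ip_fr s _

/-- the position of a bond against the heights -/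
theorem st_ht (e : Bo) : (3 * e.1.1 ≤ ip (st e) (1, 0) ∧ ip (st e) (1, 0) ≤ 3 * e.1.1 + 1) ∧
    3 * e.1.2 ≤ ip (st e) (-1, 1) ∧ ip (st e) (-1, 1) ≤ 3 * e.1.2 + 1 := by
  unfold st
  split_ifs
  · obtain ⟨h1, h2, -⟩ := ip_wh e.1
    rw [h1, h2]
    omega
  · obtain ⟨h1, h2, -⟩ := ip_bk e.1
    rw [h1, h2]
    omega

/-- the extents of the loop of a word -/
theorem ext_lpw {t : List Bool} (h : t ∈ Wo) (v : Pt) (s : Sx) :
    let S := (lpw (v, s) t).support
    let X := fun i => vx oo up t i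
    ((∀ i j, i ≤ t.length → j ≤ t.length → ip (X i - X j) (dC s) ≤ 3 * (hR S - hL S) + 1) ∧
      ∃ i j, i ≤ t.length ∧ j ≤ t.length ∧ 3 * (hR S - hL S) - 1 ≤ ip (X i - X j) (dC s)) ∧
    (∀ i j, i ≤ t.length → j ≤ t.length → ip (X i - X j) (dR s) ≤ 3 * (hT S - hB S) + 1) ∧
      ∃ i j, i ≤ t.length ∧ j ≤ t.length ∧ 3 * (hT S - hB S) - 1 ≤ ip (X i - X j) (dR s) := by
  intro S X
  have hc := (mem_wo (v, s)).1 h
  have h0 : 0 < t.length := List.length_pos_iff.2 h.1
  have hS : S = (Finset.range t.length).image fun i => (bt (v, s) t i).1 := supp_lpw h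
  have hmem : ∀ i, i ≤ t.length → (bt (v, s) t i).1 ∈ S := by
    intro i hi
    rw [hS, Finset.mem_image]
    rcases hi.lt_or_eq with h1 | rfl
    · exact ⟨i, Finset.mem_range.2 h1, rfl⟩
    · exact ⟨0, Finset.mem_range.2 h0, by rw [bt_len hc]; rfl⟩
  have hne : S.Nonempty := ⟨_, hmem 0 (Nat.zero_le _)⟩
  have hget : ∀ w ∈ S, ∃ i, i ≤ t.length ∧ (bt (v, s) t i).1 = w := by
    intro w hw
    rw [hS, Finset.mem_image] at hw
    obtain ⟨i, hi, h1⟩ := hw
    exact ⟨i, (Finset.mem_range.1 hi).le, h1⟩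
  have hst : ∀ i, st (bt (v, s) t i) = vx (st (v, s)) (dr s) t i := fun i => st_bt _ _ _
  have hfr : ∀ i j, ip (st (bt (v, s) t i)) (1, 0) - ip (st (bt (v, s) t j)) (1, 0) = ip (X i - X j) (dC s) ∧
      ip (st (bt (v, s) t i)) (-1, 1) - ip (st (bt (v, s) t j)) (-1, 1) = ip (X i - X j) (dR s) := by
    intro i j
    rw [hst, hst]
    exact vx_fr _ s t i j
  refine ⟨⟨?_, ?_⟩, ?_, ?_⟩
  · intro i j hi hj
    rw [← (hfr i j).1]
    have h1 := (st_ht (bt (v, s) t i)).1.2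
    have h2 := (st_ht (bt (v, s) t j)).1.1
    have h3 := le_hR (hmem i hi)
    have h4 := hL_le (hmem j hj)
    omega
  · obtain ⟨w, hw, e1⟩ := hR_mem hne
    obtain ⟨w', hw', e2⟩ := hL_mem hne
    obtain ⟨i, hi, rfl⟩ := hget w hw
    obtain ⟨j, hj, rfl⟩ := hget w' hw'
    refine ⟨i, j, hi, hj, ?_⟩
    rw [← (hfr i j).1]
    have h1 := (st_ht (bt (v, s) t i)).1.1
    have h2 := (st_ht (bt (v, s) t j)).1.2
    omega
  · intro i j hi hj
    rw [← (hfr i j).2]
    have h1 := (st_ht (bt (v, s) t i)).2.2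
    have h2 := (st_ht (bt (v, s) t j)).2.1
    have h3 := le_hT (hmem i hi)
    have h4 := hB_le (hmem j hj)
    omega
  · obtain ⟨w, hw, e1⟩ := hT_mem hne
    obtain ⟨w', hw', e2⟩ := hB_mem hne
    obtain ⟨i, hi, rfl⟩ := hget w hw
    obtain ⟨j, hj, rfl⟩ := hget w' hw'
    refine ⟨i, j, hi, hj, ?_⟩
    rw [← (hfr i j).2]
    have h1 := (st_ht (bt (v, s) t i)).2.1
    have h2 := (st_ht (bt (v, s) t j)).2.2
    omega

/-- the directions of the frames are the axes of the hexagonal norm -/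
theorem fr_hn (s : Sx) (p : HexObs.Pt) : ip p (dC s) ≤ HexObs.TIW.hn p ∧ ip p (dR s) ≤ HexObs.TIW.hn p := by
  unfold HexObs.TIW.hn
  have a1 := le_abs_self (ip p up)
  have a2 := neg_le_abs (ip p up)
  have b1 := le_abs_self (ip p (HexObs.rotL up))
  have b2 := neg_le_abs (ip p (HexObs.rotL up))
  have c1 := le_abs_self (ip p (HexObs.rotR up))
  have c2 := neg_le_abs (ip p (HexObs.rotR up))
  generalize |ip p up| = A at *
  generalize |ip p (HexObs.rotL up)| = B at *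
  generalize |ip p (HexObs.rotR up)| = C at *
  simp only [ip, up, HexObs.rotL, HexObs.rotR] at *
  cases s <;> simp only [dC, dR] <;> constructor <;> simp only [le_max_iff] <;> omega

/-- some frame sees two large widths -/
theorem fr_two (p : HexObs.Pt) : ∃ s : Sx, (HexObs.TIW.hn p ≤ 2 * ip p (dC s) ∨ HexObs.TIW.hn p ≤ 2 * ip (-p) (dC s)) ∧
    (HexObs.TIW.hn p ≤ 2 * ip p (dR s) ∨ HexObs.TIW.hn p ≤ 2 * ip (-p) (dR s)) := by
  have key : ∀ m A B C : ℤ, C = A - B → (m = |A| ∨ m = |B| ∨ m = |C|) →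
      ((m ≤ 2 * -A ∨ m ≤ 2 * A) ∧ (m ≤ 2 * B ∨ m ≤ 2 * -B)) ∨
      ((m ≤ 2 * C ∨ m ≤ 2 * -C) ∧ (m ≤ 2 * -A ∨ m ≤ 2 * A)) ∨
      ((m ≤ 2 * B ∨ m ≤ 2 * -B) ∧ (m ≤ 2 * C ∨ m ≤ 2 * -C)) := by
    intro m A B C hC hm
    rcases abs_cases A with ⟨h1, -⟩ | ⟨h1, -⟩ <;> rcases abs_cases B with ⟨h2, -⟩ | ⟨h2, -⟩ <;>
      rcases abs_cases C with ⟨h3, -⟩ | ⟨h3, -⟩ <;> rw [h1, h2, h3] at hm <;> omega
  obtain ⟨a, b⟩ := p
  have h := key (HexObs.TIW.hn (a, b)) (a + 2 * b) (2 * a + b) (b - a) (by ring) (by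
    have e1 : ip (a, b) up = a + 2 * b := by simp [ip, up]; ring
    have e2 : ip (a, b) (HexObs.rotL up) = b - a := by simp [ip, up, HexObs.rotL]; ring
    have e3 : ip (a, b) (HexObs.rotR up) = 2 * a + b := by simp [ip, up, HexObs.rotR]
    unfold HexObs.TIW.hn
    rw [e1, e2, e3]
    rcases max_choice |a + 2 * b| (max |b - a| |2 * a + b|) with h | h
    · exact Or.inl h
    · rcases max_choice |b - a| |2 * a + b| with h' | h'
      · exact Or.inr (Or.inr (h.trans h'))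
      · exact Or.inr (Or.inl (h.trans h')))
  have ep : ∀ x y : ℤ, ip (a, b) (x, y) = 2 * (a * x + b * y) + a * y + b * x := fun _ _ => rfl
  have en : ∀ x y : ℤ, ip (-(a, b)) (x, y) = -(2 * (a * x + b * y) + a * y + b * x) := by
    intro x y
    simp only [ip, Prod.fst_neg, Prod.snd_neg]
    ring
  rcases h with h | h | h
  · refine ⟨.ww, ?_⟩
    simp only [dC, dR, ep, en]
    omega
  · refine ⟨.ss, ?_⟩
    simp only [dC, dR, ep, en]
    omega
  · refine ⟨.ii, ?_⟩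
    simp only [dC, dR, ep, en]
    omega

/-! ### the corner -/

/-- the corner of a loop: first column, first row -/
noncomputable def cor (γ : Cfg) : Pt := (hL γ.support, hB γ.support)

theorem supp_trc (a : Pt) (γ : Cfg) : (trc a γ).support = γ.support.image fun v => v + a := by
  ext v
  rw [Finsupp.mem_support_iff, Finset.mem_image]
  constructor
  · intro h
    refine ⟨v - a, ?_, sub_add_cancel v a⟩
    rw [Finsupp.mem_support_iff, ← trc_apply a γ, sub_add_cancel]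
    exact h
  · rintro ⟨w, hw, rfl⟩
    rw [trc_apply]
    exact Finsupp.mem_support_iff.1 hw

theorem supp_ne {γ : Cfg} (l : HL γ) : γ.support.Nonempty := by
  obtain ⟨e, he⟩ := ex_ub l
  exact ⟨e.1, ub_supp he⟩

theorem ht_trc (a : Pt) {γ : Cfg} (l : HL γ) : hL (trc a γ).support = hL γ.support + a.1 ∧
    hR (trc a γ).support = hR γ.support + a.1 ∧ hB (trc a γ).support = hB γ.support + a.2 ∧
    hT (trc a γ).support = hT γ.support + a.2 := by
  have hne := supp_ne l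
  rw [supp_trc]
  refine ⟨?_, ?_, ?_, ?_⟩
  · obtain ⟨w, hw, e⟩ := hL_mem hne
    refine Pool.Agent.ROT.L.hL_eq ⟨w + a, Finset.mem_image_of_mem _ hw, by rw [Prod.fst_add, e]⟩ ?_
    intro u hu
    obtain ⟨x, hx, rfl⟩ := Finset.mem_image.1 hu
    have := hL_le hx
    rw [Prod.fst_add]
    omega
  · obtain ⟨w, hw, e⟩ := hR_mem hne
    refine Pool.Agent.ROT.L.hR_eq ⟨w + a, Finset.mem_image_of_mem _ hw, by rw [Prod.fst_add, e]⟩ ?_
    intro u hu
    obtain ⟨x, hx, rfl⟩ := Finset.mem_image.1 hu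
    have := le_hR hx
    rw [Prod.fst_add]
    omega
  · obtain ⟨w, hw, e⟩ := hB_mem hne
    refine Pool.Agent.ROT.L.hB_eq ⟨w + a, Finset.mem_image_of_mem _ hw, by rw [Prod.snd_add, e]⟩ ?_
    intro u hu
    obtain ⟨x, hx, rfl⟩ := Finset.mem_image.1 hu
    have := hB_le hx
    rw [Prod.snd_add]
    omega
  · obtain ⟨w, hw, e⟩ := hT_mem hne
    refine Pool.Agent.ROT.L.hT_eq ⟨w + a, Finset.mem_image_of_mem _ hw, by rw [Prod.snd_add, e]⟩ ?_
    intro u hu
    obtain ⟨x, hx, rfl⟩ := Finset.mem_image.1 hu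
    have := le_hT hx
    rw [Prod.snd_add]
    omega

theorem cor_trc (a : Pt) (γ : Cfg) (l : HL γ) : cor (trc a γ) = cor γ + a := by
  obtain ⟨h1, -, h3, -⟩ := ht_trc a l
  unfold cor
  rw [h1, h3]
  rfl

/-- the extents of a loop: columns, rows -/
noncomputable def exC (γ : Cfg) : ℤ := hR γ.support - hL γ.support

/-- rows -/
noncomputable def exR (γ : Cfg) : ℤ := hT γ.support - hB γ.support

theorem ex_trc (a : Pt) {γ : Cfg} (l : HL γ) : exC (trc a γ) = exC γ ∧ exR (trc a γ) = exR γ := by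
  obtain ⟨h1, h2, h3, h4⟩ := ht_trc a l
  unfold exC exR
  omega

/-! ### the masses -/

/-- word level mass, upper bound (56) -/
def MassU : Prop := ∃ C : ℝ, 0 < C ∧ ∀ R : ℝ, 0 < R → ∑' n : ℕ, ENNReal.ofReal (1 / n) * gf {t | t ∈ HexObs.POL.Cy n ∧
  ∃ i j, i ≤ n ∧ j ≤ n ∧ R ≤ (HexObs.TIW.hn (vx oo up t i - vx oo up t j) : ℝ)} ≤ ENNReal.ofReal (C / R ^ 2)

/-- word level mass, lower bound (56) -/
def MassL : Prop := ∃ c κ R0 : ℝ, 0 < c ∧ 0 < κ ∧ ∀ R : ℝ, R0 ≤ R → ENNReal.ofReal (c / R ^ 2) ≤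
  ∑' n : ℕ, ENNReal.ofReal (1 / n) * gf {t | t ∈ HexObs.POL.Cy n ∧
    (∃ i j, i ≤ n ∧ j ≤ n ∧ κ * R ≤ (HexObs.TIW.hn (vx oo up t i - vx oo up t j) : ℝ)) ∧
    ∀ i j, i ≤ n → j ≤ n → (HexObs.TIW.hn (vx oo up t i - vx oo up t j) : ℝ) ≤ R}

open Classical in
/-- **lower bound of the mass of the loops with corner 0 and both extents in `[κ N, N]`** -/
theorem loopL (h : MassL) : ∃ c κ N0 : ℝ, 0 < c ∧ 0 < κ ∧ κ < 1 ∧ ∀ N : ℝ, N0 ≤ N → ENNReal.ofReal (c / N ^ 2) ≤
    ∑' γ : {γ : Cfg // HL γ ∧ cor γ = 0}, wl γ.1 * (if (κ * N ≤ exC γ.1 ∧ (exC γ.1 : ℝ) ≤ N) ∧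
      κ * N ≤ exR γ.1 ∧ (exR γ.1 : ℝ) ≤ N then 1 else 0) := by
  obtain ⟨c, κ, R0, hc, hκ, hw⟩ := h
  refine ⟨c / 2, min (κ / 12) (1 / 2), max R0 (max 1 (12 / κ)), by positivity, by positivity,
    (min_le_right _ _).trans_lt (by norm_num), fun N hN => ?_⟩
  have hN0 : R0 ≤ N := (le_max_left _ _).trans hN
  have hN1 : (1 : ℝ) ≤ N := (le_max_left _ _).trans ((le_max_right _ _).trans hN)
  have hN2 : 12 / κ ≤ N := (le_max_right _ _).trans ((le_max_right _ _).trans hN)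
  have hNκ : 12 ≤ κ * N := by
    rw [div_le_iff₀ hκ] at hN2
    linarith
  set κ' := min (κ / 12) (1 / 2) with hκ'
  have hk1 : κ' ≤ κ / 12 := min_le_left _ _
  set Q : Cfg → Prop := fun γ => (κ' * N ≤ exC γ ∧ (exC γ : ℝ) ≤ N) ∧ κ' * N ≤ exR γ ∧ (exR γ : ℝ) ≤ N with hQ
  have hm := mtp (top := cor) cor_trc (fun γ => if Q γ then 1 else 0) (by
    intro a γ l
    simp only [hQ]
    rw [(ex_trc a l).1, (ex_trc a l).2])
  rw [hm]
  have h1 := hw N hN0
  rw [sum_len (fun n t => (∃ i j, i ≤ n ∧ j ≤ n ∧ κ * N ≤ (HexObs.TIW.hn (vx oo up t i - vx oo up t j) : ℝ)) ∧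
    ∀ i j, i ≤ n → j ≤ n → (HexObs.TIW.hn (vx oo up t i - vx oo up t j) : ℝ) ≤ N)] at h1
  have h2 : ENNReal.ofReal (c / 2 / N ^ 2) = 2⁻¹ * ENNReal.ofReal (c / N ^ 2) := by
    rw [show c / 2 / N ^ 2 = 2⁻¹ * (c / N ^ 2) by ring, ENNReal.ofReal_mul (by norm_num)]
    congr 1
    rw [ENNReal.ofReal_inv_of_pos (by norm_num)]
    norm_num
  rw [h2]
  refine (mul_le_mul_right h1 _).trans ?_
  rw [← ENNReal.tsum_mul_left, ← Summable.tsum_finsetSum (fun _ _ => ENNReal.summable)]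
  refine ENNReal.tsum_le_tsum fun t => ?_
  rw [← Finset.mul_sum, ← mul_assoc, mul_comm (2⁻¹ : ℝ≥0∞), mul_assoc]
  refine mul_le_mul_right ?_ _
  split_ifs with h3
  swap
  · rw [mul_zero]
    exact zero_le
  obtain ⟨⟨i, j, hi, hj, h4⟩, h5⟩ := h3
  obtain ⟨s, hs1, hs2⟩ := fr_two (vx oo up t i - vx oo up t j)
  have hQs : Q (lpw (0, s) t) := by
    have hX := ext_lpw t.2 0 s
    simp only at hX
    obtain ⟨⟨c1, ⟨ic, jc, c2, c3, c4⟩⟩, r1, ⟨ir, jr, r2, r3, r4⟩⟩ := hX
    have hneg : -(vx oo up (t : List Bool) i - vx oo up (t : List Bool) j) =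
        vx oo up (t : List Bool) j - vx oo up (t : List Bool) i := by abel
    rw [hneg] at hs1 hs2
    have x1 := c1 i j hi hj
    have x2 := c1 j i hj hi
    have x3 := r1 i j hi hj
    have x4 := r1 j i hj hi
    have x5 := (fr_hn s (vx oo up (t : List Bool) ic - vx oo up (t : List Bool) jc)).1
    have x6 := (fr_hn s (vx oo up (t : List Bool) ir - vx oo up (t : List Bool) jr)).2
    have x7 := h5 ic jc c2 c3
    have x8 := h5 ir jr r2 r3
    have y1 : HexObs.TIW.hn (vx oo up (t : List Bool) i - vx oo up (t : List Bool) j) ≤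
        2 * (3 * exC (lpw (0, s) t) + 1) := by
      unfold exC
      omega
    have y2 : HexObs.TIW.hn (vx oo up (t : List Bool) i - vx oo up (t : List Bool) j) ≤
        2 * (3 * exR (lpw (0, s) t) + 1) := by
      unfold exR
      omega
    have y3 : 3 * exC (lpw (0, s) t) - 1 ≤
        HexObs.TIW.hn (vx oo up (t : List Bool) ic - vx oo up (t : List Bool) jc) := by
      unfold exC
      omega
    have y4 : 3 * exR (lpw (0, s) t) - 1 ≤
        HexObs.TIW.hn (vx oo up (t : List Bool) ir - vx oo up (t : List Bool) jr) := by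
      unfold exR
      omega
    have z1 : ((HexObs.TIW.hn (vx oo up (t : List Bool) i - vx oo up (t : List Bool) j) : ℤ) : ℝ) ≤
        2 * (3 * exC (lpw (0, s) t) + 1) := by exact_mod_cast y1
    have z2 : ((HexObs.TIW.hn (vx oo up (t : List Bool) i - vx oo up (t : List Bool) j) : ℤ) : ℝ) ≤
        2 * (3 * exR (lpw (0, s) t) + 1) := by exact_mod_cast y2
    have z3 : 3 * (exC (lpw (0, s) t) : ℝ) - 1 ≤
        HexObs.TIW.hn (vx oo up (t : List Bool) ic - vx oo up (t : List Bool) jc) := by exact_mod_cast y3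
    have z4 : 3 * (exR (lpw (0, s) t) : ℝ) - 1 ≤
        HexObs.TIW.hn (vx oo up (t : List Bool) ir - vx oo up (t : List Bool) jr) := by exact_mod_cast y4
    have hkN : κ' * N ≤ κ * N / 12 := by
      have := mul_le_mul_of_nonneg_right hk1 (by linarith : (0 : ℝ) ≤ N)
      linarith
    refine ⟨⟨?_, ?_⟩, ?_, ?_⟩ <;> linarith
  refine le_trans (le_of_eq ?_) (Finset.single_le_sum (f := fun s : Sx => (if Q (lpw (0, s) t) then (1 : ℝ≥0∞) else 0) /
    (2 * ((t : List Bool).length : ℝ≥0∞))) (fun _ _ => zero_le) (Finset.mem_univ s))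
  simp only [if_pos hQs]
  rw [one_div, ENNReal.mul_inv (by simp) (by simp)]

open Classical in
/-- **upper bound of the mass of the loops with corner 0 and one extent at least `R`** -/
theorem loopU (h : MassU) : ∃ C : ℝ, 0 < C ∧ ∀ R : ℝ, 1 ≤ R →
    ∑' γ : {γ : Cfg // HL γ ∧ cor γ = 0}, wl γ.1 * (if R ≤ exC γ.1 ∨ R ≤ exR γ.1 then 1 else 0) ≤
      ENNReal.ofReal (C / R ^ 2) := by
  obtain ⟨C, hC, hw⟩ := h
  refine ⟨3 * C, by positivity, fun R hR => ?_⟩
  set Q : Cfg → Prop := fun γ => R ≤ exC γ ∨ R ≤ exR γ with hQ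
  have hm := mtp (top := cor) cor_trc (fun γ => if Q γ then 1 else 0) (by
    intro a γ l
    simp only [hQ]
    rw [(ex_trc a l).1, (ex_trc a l).2])
  rw [hm]
  have h1 := hw R (by linarith)
  rw [sum_len (fun n t => ∃ i j, i ≤ n ∧ j ≤ n ∧ R ≤ (HexObs.TIW.hn (vx oo up t i - vx oo up t j) : ℝ))] at h1
  have hs : ∀ s : Sx, ∑' t : Wo, wE t * ((if Q (lpw (0, s) t) then 1 else 0) / (2 * ((t : List Bool).length : ℝ≥0∞))) ≤
      2⁻¹ * ENNReal.ofReal (C / R ^ 2) := by
    intro s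
    refine le_trans ?_ (mul_le_mul_right h1 _)
    rw [← ENNReal.tsum_mul_left]
    refine ENNReal.tsum_le_tsum fun t => ?_
    rw [← mul_assoc, mul_comm (2⁻¹ : ℝ≥0∞), mul_assoc]
    refine mul_le_mul_right ?_ _
    by_cases h3 : Q (lpw (0, s) t)
    · rw [if_pos h3, if_pos, one_div, ENNReal.mul_inv (by simp) (by simp)]
      have hX := ext_lpw t.2 0 s
      simp only at hX
      obtain ⟨⟨c1, ⟨ic, jc, c2, c3, c4⟩⟩, r1, ⟨ir, jr, r2, r3, r4⟩⟩ := hX
      rcases h3 with h3 | h3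
      · refine ⟨ic, jc, c2, c3, ?_⟩
        have x5 := (fr_hn s (vx oo up (t : List Bool) ic - vx oo up (t : List Bool) jc)).1
        have y3 : 3 * exC (lpw (0, s) t) - 1 ≤
            HexObs.TIW.hn (vx oo up (t : List Bool) ic - vx oo up (t : List Bool) jc) := by
          unfold exC
          omega
        have z3 : 3 * (exC (lpw (0, s) t) : ℝ) - 1 ≤
            HexObs.TIW.hn (vx oo up (t : List Bool) ic - vx oo up (t : List Bool) jc) := by exact_mod_cast y3
        linarith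
      · refine ⟨ir, jr, r2, r3, ?_⟩
        have x6 := (fr_hn s (vx oo up (t : List Bool) ir - vx oo up (t : List Bool) jr)).2
        have y4 : 3 * exR (lpw (0, s) t) - 1 ≤
            HexObs.TIW.hn (vx oo up (t : List Bool) ir - vx oo up (t : List Bool) jr) := by
          unfold exR
          omega
        have z4 : 3 * (exR (lpw (0, s) t) : ℝ) - 1 ≤
            HexObs.TIW.hn (vx oo up (t : List Bool) ir - vx oo up (t : List Bool) jr) := by exact_mod_cast y4
        linarith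
    · rw [if_neg h3, ENNReal.zero_div]
      exact zero_le
  refine (Finset.sum_le_sum fun s _ => hs s).trans ?_
  rw [Finset.sum_const, Finset.card_univ, show Fintype.card Sx = 6 from rfl, nsmul_eq_mul, ← mul_assoc]
  have e6 : ((6 : ℕ) : ℝ≥0∞) * 2⁻¹ = ENNReal.ofReal 3 := by
    rw [show ENNReal.ofReal 3 = 3 by norm_num, show ((6 : ℕ) : ℝ≥0∞) = 3 * 2 by norm_num, mul_assoc,
      ENNReal.mul_inv_cancel (by norm_num) (by norm_num), mul_one]
  rw [e6, ← ENNReal.ofReal_mul (by norm_num)]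
  apply le_of_eq
  congr 1
  ring

end Pool.Agent.ROT.E.Hx
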