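import Pool.Agent.ROT.ISt
import Pool.Agent.ROT.NMassL
import Pool.Agent.ROT.A6S

/-!
# ROT, row A6b-N (helper76): `Near` and `Mass` of the system of the honeycomb loops

* `near_hl` : the mass of the loops of extent `≥ d N` with a visited vertex in the square `[-η N, η N]^2`;
* `mass_lo`, `mass_up` : the masses of the loops with corner `0` and both extents in a window.
-/

set_option autoImplicit false

namespace Pool.Agent.ROT.A6

open Filter Topology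
open Pool.Agent.ROT.E (Cfg Lp Pt)
open Pool.Agent.ROT.E.Hx (HL hs wl exC exR cor MassL MassU loopL loopU)
open Pool.Agent.ROT.I (sc trc e1 e2 HitC BigC M1 mu mu_hl Hits Big)
open Pool.Agent.ROT.L (hL hR hB hT hL_mem hR_mem hB_mem hT_mem)
open scoped ENNReal

/-! ### the lattice points in the plane -/

theorem sc_re (N : ℕ) (q : Pt) : (sc N q).re = 3 / 2 * ((q.1 : ℝ) / N) := by
  unfold sc e1 e2
  simp [Complex.add_re]
  ring

theorem sc_im (N : ℕ) (q : Pt) : (sc N q).im = √3 * ((q.1 : ℝ) / N / 2 + (q.2 : ℝ) / N) := by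
  unfold sc e1 e2
  simp [Complex.add_im]
  ring

theorem norm_sc_sq (N : ℕ) (q : Pt) :
    ‖sc N q‖ ^ 2 = 3 * (((q.1 : ℝ) / N) ^ 2 + (q.1 : ℝ) / N * ((q.2 : ℝ) / N) + ((q.2 : ℝ) / N) ^ 2) := by
  rw [← Complex.normSq_eq_norm_sq, Complex.normSq_apply, sc_re, sc_im]
  have h3 : √3 * √3 = 3 := Real.mul_self_sqrt (by norm_num)
  have : √3 * ((q.1 : ℝ) / N / 2 + (q.2 : ℝ) / N) * (√3 * ((q.1 : ℝ) / N / 2 + (q.2 : ℝ) / N)) =
      3 * ((q.1 : ℝ) / N / 2 + (q.2 : ℝ) / N) ^ 2 := by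
    calc √3 * ((q.1 : ℝ) / N / 2 + (q.2 : ℝ) / N) * (√3 * ((q.1 : ℝ) / N / 2 + (q.2 : ℝ) / N)) =
        (√3 * √3) * ((q.1 : ℝ) / N / 2 + (q.2 : ℝ) / N) ^ 2 := by ring
      _ = _ := by rw [h3]
  rw [this]
  ring

theorem norm_sc_le {N : ℕ} {q : Pt} {ρ : ℝ} (h1 : |(q.1 : ℝ) / N| ≤ ρ) (h2 : |(q.2 : ℝ) / N| ≤ ρ) :
    ‖sc N q‖ ≤ 3 * ρ := by
  have h0 : 0 ≤ ρ := (abs_nonneg _).trans h1
  have h3 := norm_sc_sq N q
  have a1 : ((q.1 : ℝ) / N) ^ 2 ≤ ρ ^ 2 := by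
    rw [← sq_abs]
    exact pow_le_pow_left₀ (abs_nonneg _) h1 2
  have a2 : ((q.2 : ℝ) / N) ^ 2 ≤ ρ ^ 2 := by
    rw [← sq_abs]
    exact pow_le_pow_left₀ (abs_nonneg _) h2 2
  have a3 : (q.1 : ℝ) / N * ((q.2 : ℝ) / N) ≤ ρ ^ 2 := by
    nlinarith [sq_nonneg ((q.1 : ℝ) / N - (q.2 : ℝ) / N)]
  refine (pow_le_pow_iff_left₀ (norm_nonneg _) (by positivity) two_ne_zero).1 ?_
  rw [h3]
  nlinarith

theorem le_norm_sc (N : ℕ) (q : Pt) : |(q.1 : ℝ) / N| ≤ ‖sc N q‖ ∧ |(q.2 : ℝ) / N| ≤ ‖sc N q‖ := by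
  have h3 := norm_sc_sq N q
  constructor
  · refine (pow_le_pow_iff_left₀ (abs_nonneg _) (norm_nonneg _) two_ne_zero).1 ?_
    rw [h3, sq_abs]
    nlinarith [sq_nonneg ((q.1 : ℝ) / N + 2 * ((q.2 : ℝ) / N))]
  · refine (pow_le_pow_iff_left₀ (abs_nonneg _) (norm_nonneg _) two_ne_zero).1 ?_
    rw [h3, sq_abs]
    nlinarith [sq_nonneg (2 * ((q.1 : ℝ) / N) + (q.2 : ℝ) / N)]

theorem sc_sub (N : ℕ) (q q' : Pt) : sc N q - sc N q' = sc N (q - q') := by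
  unfold sc
  simp only [Prod.fst_sub, Prod.snd_sub]
  push_cast
  module

/-! ### near -/

/-- a vertex in the square -/
def NrC (ρ : ℝ) (γ : Cfg) : Prop := ∃ s : Pt, γ s ≠ 0 ∧ |(s.1 : ℝ)| ≤ ρ ∧ |(s.2 : ℝ)| ≤ ρ

theorem hit_of {N : ℕ} (hN : 0 < N) {η : ℝ} {γ : Cfg} (h : NrC (η * N) γ) : HitC N (3 * η) γ := by
  obtain ⟨s, hs, h1, h2⟩ := h
  have hN' : (0 : ℝ) < N := by exact_mod_cast hN
  refine ⟨sc N s, ⟨s, hs, rfl⟩, norm_sc_le ?_ ?_⟩
  · rw [abs_div, abs_of_pos hN', div_le_iff₀ hN']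
    exact h1
  · rw [abs_div, abs_of_pos hN', div_le_iff₀ hN']
    exact h2

theorem big_of {N : ℕ} (hN : 0 < N) {d : ℝ} {γ : Cfg} (hγ : γ.support.Nonempty)
    (h : d * N ≤ ((max (exC γ) (exR γ) : ℤ) : ℝ)) : BigC N d γ := by
  have hN' : (0 : ℝ) < N := by exact_mod_cast hN
  push_cast at h
  rcases le_max_iff.1 h with h | h
  · obtain ⟨v, hv, e⟩ := hR_mem hγ
    obtain ⟨w, hw, e'⟩ := hL_mem hγ
    refine ⟨sc N v, ⟨v, Finsupp.mem_support_iff.1 hv, rfl⟩, sc N w, ⟨w, Finsupp.mem_support_iff.1 hw, rfl⟩, ?_⟩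
    rw [dist_eq_norm, sc_sub]
    refine le_trans ?_ (le_norm_sc N (v - w)).1
    unfold exC at h
    push_cast at h
    rw [Prod.fst_sub, e, e']
    push_cast
    rw [abs_div, abs_of_pos hN', le_div_iff₀ hN']
    exact h.trans (le_abs_self _)
  · obtain ⟨v, hv, e⟩ := hT_mem hγ
    obtain ⟨w, hw, e'⟩ := hB_mem hγ
    refine ⟨sc N v, ⟨v, Finsupp.mem_support_iff.1 hv, rfl⟩, sc N w, ⟨w, Finsupp.mem_support_iff.1 hw, rfl⟩, ?_⟩
    rw [dist_eq_norm, sc_sub]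
    refine le_trans ?_ (le_norm_sc N (v - w)).2
    unfold exR at h
    push_cast at h
    rw [Prod.snd_sub, e, e']
    push_cast
    rw [abs_div, abs_of_pos hN', le_div_iff₀ hN']
    exact h.trans (le_abs_self _)

open Classical in
/-- **near, loops** -/
theorem near_hl (H : I.Near) {d ε : ℝ} (hd : 0 < d) (hε : 0 < ε) : ∃ η : ℝ, 0 < η ∧ ∀ᶠ N : ℕ in atTop,
    ∑' γ : {γ : Cfg // HL γ}, wl γ.1 * (if d * N ≤ ((max (exC γ.1) (exR γ.1) : ℤ) : ℝ) ∧ NrC (η * N) γ.1 then 1 else 0) ≤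
      ENNReal.ofReal ε := by
  obtain ⟨η, hη, h⟩ := H d ε hd hε
  refine ⟨η / 3, by positivity, ?_⟩
  filter_upwards [h, eventually_gt_atTop 0] with N h1 hN
  refine le_trans ?_ h1
  rw [show Hits N η ∩ Big N d = {γ : I.Lps | HitC N η γ.1 ∧ BigC N d γ.1} from rfl,
    mu_hl fun γ => HitC N η γ ∧ BigC N d γ]
  refine ENNReal.tsum_le_tsum fun γ => ?_
  by_cases h2 : d * N ≤ ((max (exC γ.1) (exR γ.1) : ℤ) : ℝ) ∧ NrC (η / 3 * N) γ.1
  · have h3 := hit_of hN h2.2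
    rw [show 3 * (η / 3) = η by ring] at h3
    rw [if_pos h2, if_pos ⟨h3, big_of hN (I.hl_ne γ.2) h2.1⟩]
  · rw [if_neg h2, mul_zero]
    exact zero_le

/-! ### masses -/

/-- the sum over the loops with corner `0` -/
theorem sum_cor (Q : Cfg → Prop) [DecidablePred Q] : ∑' γ : {γ : Cfg // HL γ ∧ cor γ = 0}, wl γ.1 * (if Q γ.1 then 1 else 0) =
    ∑' γ : {γ : Cfg // HL γ}, (if cor γ.1 = 0 ∧ Q γ.1 then wl γ.1 else 0) := by
  classical
  have h4 := tsum_subtype {γ : Cfg | HL γ ∧ cor γ = 0} (fun γ => wl γ * if Q γ then 1 else 0)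
  have h5 := tsum_subtype {γ : Cfg | HL γ} (fun γ => if cor γ = 0 ∧ Q γ then wl γ else 0)
  refine h4.trans (Eq.trans ?_ h5.symm)
  refine tsum_congr fun γ => ?_
  simp only [Set.indicator_apply, Set.mem_ofPred_eq]
  by_cases h6 : HL γ <;> by_cases h7 : cor γ = 0 <;> by_cases h8 : Q γ <;> simp [h6, h7, h8]

/-- both extents in `[r N, s N]` -/
def WinC (r s N : ℝ) (γ : Cfg) : Prop := (r * N ≤ exC γ ∧ (exC γ : ℝ) ≤ s * N) ∧ r * N ≤ exR γ ∧ (exR γ : ℝ) ≤ s * N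

open Classical in
/-- **lower bound of the mass, loops** -/
theorem mass_lo (h : MassL) : ∃ κ c N0 : ℝ, 0 < κ ∧ κ < 1 ∧ 0 < c ∧ 0 < N0 ∧ ∀ N : ℝ, N0 ≤ N →
    ENNReal.ofReal (c / N ^ 2) ≤ ∑' γ : {γ : Cfg // HL γ}, (if cor γ.1 = 0 ∧ WinC κ 1 N γ.1 then wl γ.1 else 0) := by
  obtain ⟨c, κ, N0, hc, hκ, hκ1, h⟩ := loopL h
  refine ⟨κ, c, max N0 1, hκ, hκ1, hc, lt_of_lt_of_le one_pos (le_max_right _ _), fun N hN => ?_⟩
  refine (h N ((le_max_left _ _).trans hN)).trans ?_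
  rw [sum_cor fun γ => (κ * N ≤ exC γ ∧ (exC γ : ℝ) ≤ N) ∧ κ * N ≤ exR γ ∧ (exR γ : ℝ) ≤ N]
  refine ENNReal.tsum_le_tsum fun γ => ?_
  by_cases h1 : cor γ.1 = 0 ∧ (κ * N ≤ exC γ.1 ∧ (exC γ.1 : ℝ) ≤ N) ∧ κ * N ≤ exR γ.1 ∧ (exR γ.1 : ℝ) ≤ N
  · have h2 : cor γ.1 = 0 ∧ WinC κ 1 N γ.1 := by
      refine ⟨h1.1, ?_⟩
      unfold WinC
      rw [one_mul]
      exact h1.2
    rw [if_pos h1, if_pos h2]
  · rw [if_neg h1]
    exact zero_le

open Classical in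
/-- **upper bound of the mass, loops** -/
theorem mass_up (h : MassU) {r s : ℝ} (hr : 0 < r) : ∃ C N0 : ℝ, 0 < C ∧ 0 < N0 ∧ ∀ N : ℝ, N0 ≤ N →
    ∑' γ : {γ : Cfg // HL γ}, (if cor γ.1 = 0 ∧ WinC r s N γ.1 then wl γ.1 else 0) ≤ ENNReal.ofReal (C / N ^ 2) := by
  obtain ⟨C, hC, h⟩ := loopU h
  refine ⟨C / r ^ 2, 1 / r, by positivity, by positivity, fun N hN => ?_⟩
  have hN1 : 1 ≤ r * N := by
    rw [div_le_iff₀ hr] at hN
    linarith
  refine le_trans ?_ ((h (r * N) hN1).trans_eq ?_)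
  · rw [sum_cor fun γ => r * N ≤ exC γ ∨ r * N ≤ exR γ]
    refine ENNReal.tsum_le_tsum fun γ => ?_
    by_cases h1 : cor γ.1 = 0 ∧ WinC r s N γ.1
    · rw [if_pos h1, if_pos ⟨h1.1, Or.inl h1.2.1.1⟩]
    · rw [if_neg h1]
      exact zero_le
  · congr 1
    rw [mul_pow, div_div]

/-! ### the system `hexP` -/

theorem ext_hexP (w : hexP.P) : hexP.ext w = max (exC w.1) (exR w.1) := rfl

/-- **`Near` for `hexP`** -/
theorem hexP_near (H : I.Near) : hexP.Near := by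
  classical
  intro d ε hd hε
  obtain ⟨η, hη, h⟩ := near_hl H hd hε
  refine ⟨η, hη, ?_⟩
  filter_upwards [h] with N h1
  refine le_trans ?_ h1
  unfold A.PSys.near
  refine ENNReal.tsum_le_tsum fun w => ?_
  by_cases h2 : d * N ≤ (hexP.ext w : ℝ) ∧ hexP.Nr (η * N) 0 w
  · have h3 : d * N ≤ ((max (exC w.1) (exR w.1) : ℤ) : ℝ) ∧ NrC (η * N) w.1 := by
      refine ⟨h2.1, ?_⟩
      obtain ⟨s, hs, a1, a2⟩ := h2.2
      refine ⟨s, Finsupp.mem_support_iff.1 hs, ?_, ?_⟩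
      · simpa using a1
      · simpa using a2
    rw [if_pos h2, if_pos h3, mul_one]
    rfl
  · rw [if_neg h2]
    exact zero_le

theorem win_hexP (r s N : ℝ) (w : hexP.P) : hexP.Win r s N w ↔ WinC r s N w.1 := by
  unfold A.PSys.Win WinC exC exR
  push_cast
  rfl

open Classical in
/-- the mass in the box is at most the mass of all loops -/
theorem mass_le_tsum (r s N : ℝ) (n : ℕ) : ENNReal.ofReal (hexP.mass r s N n) ≤
    ∑' γ : {γ : Cfg // HL γ}, (if cor γ.1 = 0 ∧ WinC r s N γ.1 then wl γ.1 else 0) := by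
  have h0 : ∀ p : hexP.P, 0 ≤ (if hexP.co p = 0 ∧ hexP.Win r s N p then hexP.M p else 0) := by
    intro p
    split_ifs
    · exact hexP.M_nn p
    · exact le_rfl
  unfold A.PSys.mass
  rw [ENNReal.ofReal_sum_of_nonneg fun p _ => h0 p]
  refine (ENNReal.sum_le_tsum _).trans (ENNReal.tsum_le_tsum fun p => ?_)
  by_cases h1 : hexP.co p = 0 ∧ hexP.Win r s N p
  · have h2 : cor p.1 = 0 ∧ WinC r s N p.1 := ⟨h1.1, (win_hexP r s N p).1 h1.2⟩
    rw [if_pos h1, if_pos h2]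
    rfl
  · rw [if_neg h1, ENNReal.ofReal_zero]
    exact zero_le

open Classical in
/-- the mass of all loops is the mass in a large box -/
theorem tsum_le_mass {r s N : ℝ} {n : ℕ} (hs : s * N ≤ n) :
    ∑' γ : {γ : Cfg // HL γ}, (if cor γ.1 = 0 ∧ WinC r s N γ.1 then wl γ.1 else 0) ≤
      ENNReal.ofReal (hexP.mass r s N n) := by
  have h0 : ∀ p : hexP.P, 0 ≤ (if hexP.co p = 0 ∧ hexP.Win r s N p then hexP.M p else 0) := by
    intro p
    split_ifs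
    · exact hexP.M_nn p
    · exact le_rfl
  unfold A.PSys.mass
  rw [ENNReal.ofReal_sum_of_nonneg fun p _ => h0 p]
  have key : ∑' γ : hexP.P, (if cor γ.1 = 0 ∧ WinC r s N γ.1 then wl γ.1 else 0) =
      ∑ γ ∈ hexP.box n, (if cor γ.1 = 0 ∧ WinC r s N γ.1 then wl γ.1 else 0) := tsum_eq_sum ?_
  · refine key.trans_le (Finset.sum_le_sum fun p _ => ?_)
    by_cases h1 : cor p.1 = 0 ∧ WinC r s N p.1
    · have h2 : hexP.co p = 0 ∧ hexP.Win r s N p := ⟨h1.1, (win_hexP r s N p).2 h1.2⟩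
      rw [if_pos h1, if_pos h2]
      rfl
    · rw [if_neg h1]
      exact zero_le
  · intro p hp
    rw [if_neg]
    rintro ⟨h1, h2⟩
    refine hp ((hexP.mem_box n p).2 ?_)
    have h3 := (win_hexP r s N p).2 h2
    obtain ⟨⟨_, w1⟩, _, w2⟩ := h3
    have c0 : hexP.ht p 0 = 0 := congrArg Prod.fst h1
    have c2 : hexP.ht p 2 = 0 := congrArg Prod.snd h1
    have l1 := hexP.le01 p
    have l3 := hexP.le23 p
    rw [c0] at w1 l1
    rw [c2] at w2 l3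
    simp only [Int.cast_zero, sub_zero] at w1 w2
    have k1 : hexP.ht p 1 ≤ n := by exact_mod_cast w1.trans hs
    have k3 : hexP.ht p 3 ≤ n := by exact_mod_cast w2.trans hs
    intro u
    fin_cases u
    · show |hexP.ht p 0| ≤ n
      rw [c0]
      simp
    · show |hexP.ht p 1| ≤ n
      rw [abs_of_nonneg l1]
      exact k1
    · show |hexP.ht p 2| ≤ n
      rw [c2]
      simp
    · show |hexP.ht p 3| ≤ n
      rw [abs_of_nonneg l3]
      exact k3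

/-- **`Mass` for `hexP`** -/
theorem hexP_mass (hU : MassU) (hL : MassL) : hexP.Mass := by
  classical
  refine ⟨?_, ?_⟩
  · obtain ⟨κ, c, N0, hκ, hκ1, hc, hN0, h⟩ := mass_lo hL
    refine ⟨κ, 1, c, hκ, hκ1, hc, N0, fun N hN n hn => ?_⟩
    have hNp : 0 < N := lt_of_lt_of_le hN0 hN
    have h1 := (h N hN).trans (tsum_le_mass (r := κ) hn)
    have h2 : 0 ≤ hexP.mass κ 1 N n := by
      unfold A.PSys.mass
      refine Finset.sum_nonneg fun p _ => ?_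
      split_ifs
      · exact hexP.M_nn p
      · exact le_rfl
    rw [ENNReal.ofReal_le_ofReal_iff h2, div_le_iff₀ (by positivity)] at h1
    linarith
  · intro r s hr _
    obtain ⟨C, N0, hC, hN0, h⟩ := mass_up hU (s := s) hr
    refine ⟨C, N0, fun N hN n => ?_⟩
    have hNp : 0 < N := lt_of_lt_of_le hN0 hN
    have h1 := (mass_le_tsum r s N n).trans (h N hN)
    rw [ENNReal.ofReal_le_ofReal_iff (by positivity), le_div_iff₀ (by positivity)] at h1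
    linarith

end Pool.Agent.ROT.A6
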