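import Pool.Agent.ROT.A6N
import Pool.Agent.ROT.INear
import Pool.Agent.ROT.NMass

/-!
# ROT, row A6b-N (helper76): `Near` and `Mass` of `hexP`, no hypothesis
-/

set_option autoImplicit false

namespace Pool.Agent.ROT.A6

/-- **`Near`** -/
theorem hexP_Near : hexP.Near := hexP_near I.near

/-- **`Mass`** -/
theorem hexP_Mass : hexP.Mass := hexP_mass HexObs.NK.massU HexObs.NK.massL

end Pool.Agent.ROT.A6
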