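import Pool.Agent.ROT.LLeft
import Pool.Agent.ROT.ETr
import Pool.Agent.ROT.LHt

/-!
# ROT, row A6: the sums of `tau` over the four extreme lines of a loop are at least `2 - √2`

`Qc γ l` (LLeft) = sum over the column `l`, `Qr γ b` = sum over the row `b`.
-/

set_option autoImplicit false

namespace Pool.Agent.ROT.A6

open Pool.Agent.YBC (Dir)
open Pool.Agent.ROT.E
open Pool.Agent.ROT.L (hL hR hB hT hL_le le_hR hB_le le_hT hL_mem hR_mem hB_mem hT_mem hL_eq hR_eq hB_eq hT_eq tau Qc Qc_ge)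

private theorem tau_tp (c : Cell) : tau c.tp = tau c := by cases c <;> rfl

private theorem tau_pr (c : Cell) : tau c.pr = tau c := by cases c <;> rfl

/-- the sum of `tau` over the row `b` -/
noncomputable def Qr (γ : Cfg) (b : ℤ) : ℝ := ∑ v ∈ γ.support.filter (fun v => v.2 = b), tau (γ v)

private theorem supp_ac (S : Sy) (γ : Cfg) (v : Pt) : S.e v ∈ (S.ac γ).support ↔ v ∈ γ.support := by
  rw [Finsupp.mem_support_iff, Finsupp.mem_support_iff]
  exact S.ac_app_ne γ v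

theorem Qc_tr (γ : Cfg) (b : ℤ) : Qc (E.tr γ) b = Qr γ b := by
  classical
  unfold Qc Qr
  symm
  refine Finset.sum_equiv tpS.e (fun v => ?_) (fun v _ => ?_)
  · rw [Finset.mem_filter, Finset.mem_filter]
    show _ ↔ tpS.e v ∈ (tpS.ac γ).support ∧ _
    rw [supp_ac]
    rfl
  · show tau (γ v) = tau (tpS.ac γ (tpS.e v))
    rw [tpS.ac_apply]
    exact (tau_tp _).symm

theorem Qr_tr (γ : Cfg) (b : ℤ) : Qr (E.tr γ) b = Qc γ b := by
  rw [← Qc_tr, tr_tr]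

theorem Qc_pr (γ : Cfg) (l : ℤ) : Qc (prS.ac γ) (-l) = Qc γ l := by
  classical
  unfold Qc
  symm
  refine Finset.sum_equiv prS.e (fun v => ?_) (fun v _ => ?_)
  · rw [Finset.mem_filter, Finset.mem_filter, supp_ac]
    show _ ∧ v.1 = l ↔ _ ∧ -v.1 = -l
    rw [neg_inj]
  · rw [prS.ac_apply]
    exact (tau_pr _).symm

theorem Qr_pr (γ : Cfg) (b : ℤ) : Qr (prS.ac γ) (-b) = Qr γ b := by
  classical
  unfold Qr
  symm
  refine Finset.sum_equiv prS.e (fun v => ?_) (fun v _ => ?_)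
  · rw [Finset.mem_filter, Finset.mem_filter, supp_ac]
    show _ ∧ v.2 = b ↔ _ ∧ -v.2 = -b
    rw [neg_inj]
  · rw [prS.ac_apply]
    exact (tau_pr _).symm

private theorem supp_ne' {γ : Cfg} (h : Lp γ) : γ.support.Nonempty := Finsupp.support_nonempty_iff.2 h.ne

/-- **first column** -/
theorem QcL_ge {γ : Cfg} (h : Lp γ) : 2 - √2 ≤ Qc γ (hL γ.support) := by
  obtain ⟨⟨l, r⟩, hv, e⟩ := hL_mem (supp_ne' h)
  refine Qc_ge h.mt (fun v hl => ?_) (r := r) ?_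
  · by_contra hc
    have := hL_le (Finsupp.mem_support_iff.2 hc)
    omega
  · simp only at e
    rw [← e]
    exact Finsupp.mem_support_iff.1 hv

theorem hL_pr (γ : Cfg) (h : γ.support.Nonempty) : hL (prS.ac γ).support = -hR γ.support := by
  obtain ⟨v, hv, e⟩ := hR_mem h
  refine hL_eq ⟨prS.e v, (supp_ac prS γ v).2 hv, by show -v.1 = _; rw [e]⟩ fun w hw => ?_
  obtain ⟨u, rfl⟩ := prS.e.surjective w
  have := le_hR ((supp_ac prS γ u).1 hw)
  show _ ≤ -u.1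
  omega

theorem hB_pr (γ : Cfg) (h : γ.support.Nonempty) : hB (prS.ac γ).support = -hT γ.support := by
  obtain ⟨v, hv, e⟩ := hT_mem h
  refine hB_eq ⟨prS.e v, (supp_ac prS γ v).2 hv, by show -v.2 = _; rw [e]⟩ fun w hw => ?_
  obtain ⟨u, rfl⟩ := prS.e.surjective w
  have := le_hT ((supp_ac prS γ u).1 hw)
  show _ ≤ -u.2
  omega

theorem hL_tp (γ : Cfg) (h : γ.support.Nonempty) : hL (E.tr γ).support = hB γ.support := by
  obtain ⟨v, hv, e⟩ := hB_mem h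
  refine hL_eq ⟨tpS.e v, (supp_ac tpS γ v).2 hv, e⟩ fun w hw => ?_
  obtain ⟨u, rfl⟩ := tpS.e.surjective w
  exact hB_le ((supp_ac tpS γ u).1 hw)

theorem hR_tp (γ : Cfg) (h : γ.support.Nonempty) : hR (E.tr γ).support = hT γ.support := by
  obtain ⟨v, hv, e⟩ := hT_mem h
  refine hR_eq ⟨tpS.e v, (supp_ac tpS γ v).2 hv, e⟩ fun w hw => ?_
  obtain ⟨u, rfl⟩ := tpS.e.surjective w
  exact le_hT ((supp_ac tpS γ u).1 hw)

theorem hB_tp (γ : Cfg) (h : γ.support.Nonempty) : hB (E.tr γ).support = hL γ.support := by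
  obtain ⟨v, hv, e⟩ := hL_mem h
  refine hB_eq ⟨tpS.e v, (supp_ac tpS γ v).2 hv, e⟩ fun w hw => ?_
  obtain ⟨u, rfl⟩ := tpS.e.surjective w
  exact hL_le ((supp_ac tpS γ u).1 hw)

theorem hT_tp (γ : Cfg) (h : γ.support.Nonempty) : hT (E.tr γ).support = hR γ.support := by
  obtain ⟨v, hv, e⟩ := hR_mem h
  refine hT_eq ⟨tpS.e v, (supp_ac tpS γ v).2 hv, e⟩ fun w hw => ?_
  obtain ⟨u, rfl⟩ := tpS.e.surjective w
  exact le_hR ((supp_ac tpS γ u).1 hw)

/-- **last column** -/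
theorem QcR_ge {γ : Cfg} (h : Lp γ) : 2 - √2 ≤ Qc γ (hR γ.support) := by
  rw [← Qc_pr, ← hL_pr γ (supp_ne' h)]
  exact QcL_ge ((prS.lp_iff γ).2 h)

/-- **first row** -/
theorem QrB_ge {γ : Cfg} (h : Lp γ) : 2 - √2 ≤ Qr γ (hB γ.support) := by
  rw [← Qc_tr, ← hL_tp γ (supp_ne' h)]
  exact QcL_ge ((lp_tr γ).2 h)

/-- **last row** -/
theorem QrT_ge {γ : Cfg} (h : Lp γ) : 2 - √2 ≤ Qr γ (hT γ.support) := by
  rw [← Qc_tr, ← hR_tp γ (supp_ne' h)]
  exact QcR_ge ((lp_tr γ).2 h)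

end Pool.Agent.ROT.A6
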