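import Pool.Agent.ROT.A6F

/-!
# ROT, row A6 (helper22): every loop is `lpw (a, sw4 u) w` for exactly one cell `a` and one word `w` rooted at its top
-/

set_option autoImplicit false

namespace Pool.Agent.ROT.A6

open Pool.Agent.ROT.E (Cell Pt Cfg He oc)
open Pool.Agent.ROT.E.Hx (Bo Sx st dr bt Os lpw HL wh bk Wo hs ub us pd wd)
open HexObs.ART (Fr WT Cap Out dpt SP InA bot SimW cdW)

/-- below in the lexicographic order of the side u -/
def Lx (u : Fin 4) (p : HexObs.Pt) : Prop :=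
  HexObs.ip p (Dw u) < 0 ∨ (HexObs.ip p (Dw u) = 0 ∧ HexObs.ip p (HexObs.rotL (Dw u)) ≤ 0)

theorem Dw_mem (u : Fin 4) : Dw u ∈ HexObs.dirs := by
  revert u
  decide

theorem lx_antisymm {u : Fin 4} {p : HexObs.Pt} (h : Lx u p) (h' : Lx u (-p)) : p = 0 := by
  have hD := Dw_mem u
  unfold Lx at h h'
  rw [HexObs.ip_neg_left, HexObs.ip_neg_left] at h'
  refine HexObs.ART.TR.eq_zero_of_ip hD ?_ ?_ <;> omega

/-- **the vertices of the loop are below the root** -/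
theorem lx_root {u : Fin 4} {a : Pt} {w : List Bool} (hw : w ∈ WT (1, -1)) {p : HexObs.Pt}
    (hp : p ∈ hs (lpw (a, sw4 u) w)) : Lx u (p - st (a, sw4 u)) := by
  rw [E.Hx.hs_lpw (wt_wo hw), Finset.mem_image] at hp
  obtain ⟨i, hi, e⟩ := hp
  rw [Finset.mem_range] at hi
  rw [← E.Hx.st_bt] at e
  have hF : HexObs.mulE (HexObs.rotTo HexObs.up (dr (a, sw4 u).2)) (1, -1) = Dw u := fr_u u a
  have hn := HexObs.ART.nrm_dr (a, sw4 u)
  rw [← e, HexObs.ART.st_frame, add_sub_cancel_left]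
  unfold Lx
  rw [← hF, HexObs.ART.TR.rotL_mulE, HexObs.ip_mulE, HexObs.ip_mulE, hn, one_mul, one_mul]
  exact hw.2.1 i hi.le

theorem root_hs {u : Fin 4} {a : Pt} {w : List Bool} (hw : w ∈ WT (1, -1)) :
    st (a, sw4 u) ∈ hs (lpw (a, sw4 u) w) := by
  rw [E.Hx.hs_lpw (wt_wo hw), Finset.mem_image]
  exact ⟨0, Finset.mem_range.2 (List.length_pos_iff.2 hw.2.2), rfl⟩

/-- **uniqueness** -/
theorem dic_uniq {u : Fin 4} {a a' : Pt} {w w' : List Bool} (hw : w ∈ WT (1, -1)) (hw' : w' ∈ WT (1, -1))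
    (h : lpw (a, sw4 u) w = lpw (a', sw4 u) w') : a = a' ∧ w = w' := by
  have h1 := lx_root hw (h ▸ root_hs (u := u) (a := a') hw')
  have h2 := lx_root hw' (h ▸ root_hs (u := u) (a := a) hw)
  have h3 : st (a', sw4 u) - st (a, sw4 u) = 0 := lx_antisymm h1 (by rwa [neg_sub])
  have h4 : a = a' := (E.Hx.st_eq.1 (sub_eq_zero.1 h3).symm).1
  subst h4
  refine ⟨rfl, ?_⟩
  have e1 := E.Hx.wd_lpw ((E.Hx.mem_wo (a, sw4 u)).1 (wt_wo hw))
  have e2 := E.Hx.wd_lpw ((E.Hx.mem_wo (a, sw4 u)).1 (wt_wo hw'))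
  rw [← e1, ← e2, h]

/-- the lexicographic maximum -/
theorem ex_lx (u : Fin 4) {F : Finset HexObs.Pt} (hF : F.Nonempty) : ∃ p ∈ F, ∀ q ∈ F, Lx u (q - p) := by
  obtain ⟨a, ha, hmax⟩ := F.exists_max_image (fun p => HexObs.ip p (Dw u)) hF
  obtain ⟨G, hG⟩ : ∃ G : Finset HexObs.Pt, G = F.filter fun p => HexObs.ip p (Dw u) = HexObs.ip a (Dw u) := ⟨_, rfl⟩
  have haG : a ∈ G := by rw [hG, Finset.mem_filter]; exact ⟨ha, rfl⟩
  obtain ⟨p, hp, hmax2⟩ := G.exists_max_image (fun p => HexObs.ip p (HexObs.rotL (Dw u))) ⟨a, haG⟩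
  rw [hG, Finset.mem_filter] at hp
  refine ⟨p, hp.1, fun q hq => ?_⟩
  unfold Lx
  rw [HexObs.ip_sub_left, HexObs.ip_sub_left]
  have h1 := hmax q hq
  rcases h1.lt_or_eq with h2 | h2
  · left
    omega
  · right
    have h3 := hmax2 q (by rw [hG, Finset.mem_filter]; exact ⟨hq, h2⟩)
    omega

theorem two_down : ∀ (u : Fin 4) (b : Bool) (s : Sx), HexObs.ip (dr s) (Dw u) ≤ 0 →
    HexObs.ip (dr (E.Hx.rt b s)) (Dw u) ≤ 0 → s = sw4 u ∨ E.Hx.rt b s = sw4 u := by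
  intro u b s
  fin_cases u <;> cases b <;> cases s <;> decide

/-- **the root** -/
theorem ex_root {γ : Cfg} (l : HL γ) (u : Fin 4) : ∃ a, ub γ (a, sw4 u) ∧ ∀ q ∈ hs γ, Lx u (q - st (a, sw4 u)) := by
  have hne : (hs γ).Nonempty := Finset.card_pos.1 (E.Hx.hs_pos l)
  obtain ⟨p, hp, hmax⟩ := ex_lx u hne
  obtain ⟨⟨v, s⟩, hf, e⟩ := E.Hx.mem_hs.1 hp
  have m := l.lp.mt
  -- the used bonds at p go down
  have down : ∀ s', ub γ (v, s') → st (v, s') = p → HexObs.ip (dr s') (Dw u) ≤ 0 := by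
    intro s' h1 h2
    have h3 : st (E.Hx.rev (v, s')) ∈ hs γ := E.Hx.mem_hs.2 ⟨_, (E.Hx.ub_rev m).2 h1, rfl⟩
    have h4 := hmax _ h3
    rw [E.Hx.st_rev, h2, add_sub_cancel_left] at h4
    rcases h4 with h4 | h4
    · exact h4.le
    · exact h4.1.le
  have h1 : us (γ v) s = true := hf
  obtain ⟨b, hb⟩ : ∃ b, us (γ v) (E.Hx.rt b s) = true := by
    have := E.Hx.us_xor (l.ny v) h1
    by_cases h2 : us (γ v) (E.Hx.rt false s) = true
    · exact ⟨false, h2⟩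
    · exact ⟨true, by
        rw [Bool.not_eq_true] at h2
        rw [h2] at this
        cases h3 : us (γ v) (E.Hx.rt true s)
        · rw [h3] at this
          exact absurd this (by decide)
        · rfl⟩
  have e2 : st (v, E.Hx.rt b s) = p := by rw [E.Hx.st_rt, e]
  rcases two_down u b s (down s hf e) (down _ hb e2) with h | h
  · refine ⟨v, h ▸ hf, fun q hq => ?_⟩
    rw [← h, e]
    exact hmax q hq
  · refine ⟨v, ?_, fun q hq => ?_⟩
    · rw [← h]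
      exact hb
    · rw [← h, e2]
      exact hmax q hq

/-- **existence** -/
theorem ex_dic {γ : Cfg} (l : HL γ) (u : Fin 4) : ∃ x : Pt × List Bool, x.2 ∈ WT (1, -1) ∧ γ = lpw (x.1, sw4 u) x.2 := by
  obtain ⟨a, ha, hmax⟩ := ex_root l u
  have c := E.Hx.cw_wd l.lp.mt l.ny ha
  have e := E.Hx.lpw_wd l.lp l.ny ha
  obtain ⟨w, hw⟩ : ∃ w, w = wd γ (a, sw4 u) (pd γ (a, sw4 u)) := ⟨_, rfl⟩
  rw [← hw] at c e
  have hwo : w ∈ Wo := (E.Hx.mem_wo (a, sw4 u)).2 c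
  refine ⟨(a, w), ⟨hwo.2, fun s hs' => ?_, hwo.1⟩, e.symm⟩
  have hF : HexObs.mulE (HexObs.rotTo HexObs.up (dr (a, sw4 u).2)) (1, -1) = Dw u := fr_u u a
  have hn := HexObs.ART.nrm_dr (a, sw4 u)
  have hin : st (bt (a, sw4 u) w s) ∈ hs γ := by
    rw [← e, E.Hx.hs_lpw hwo, Finset.mem_image]
    rcases hs'.lt_or_eq with h | h
    · exact ⟨s, Finset.mem_range.2 h, (E.Hx.st_bt _ _ _).symm⟩
    · refine ⟨0, Finset.mem_range.2 (List.length_pos_iff.2 hwo.1), ?_⟩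
      rw [E.Hx.st_bt, h, c.vx]
      rfl
  have h1 := hmax _ hin
  rw [HexObs.ART.st_frame, add_sub_cancel_left] at h1
  unfold Lx at h1
  rw [← hF, HexObs.ART.TR.rotL_mulE, HexObs.ip_mulE, HexObs.ip_mulE, hn, one_mul, one_mul] at h1
  exact h1

end Pool.Agent.ROT.A6
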