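import Pool.Agent.ROT.A2Defs

/-!
# ROT, row A6b-S (helper68): the symmetries identify the four sides, abstract part

`Rct S` : translations are an action and do not change the responses.  `Ngd S` : a symmetry `g` of the polygons (with
the corresponding map `L` of the translation vectors) which preserves the weight.  `Ngd.rc` : the bijection of the
polygons with corner `0`.  **`sym_of`** : `Sym S` from symmetries which carry the side `3` to the side `u`.
-/

set_option autoImplicit false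

namespace Pool.Agent.ROT.A.PSys

variable (S : PSys)

/-- translations are an action and do not change the responses -/
structure Rct : Prop where
  tr0 : ∀ p, S.tr 0 p = p
  tra : ∀ z z' p, S.tr z (S.tr z' p) = S.tr (z + z') p
  Q : ∀ z p u, S.Qf (S.tr z p) u = S.Qf p u
  C : ∀ z p u, S.Cf (S.tr z p) u = S.Cf p u

/-- a symmetry -/
structure Ngd where
  /-- the polygons -/
  g : S.P ≃ S.P
  /-- the translations -/
  L : Z2 ≃+ Z2
  tr : ∀ z p, g (S.tr z p) = S.tr (L z) (g p)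
  M : ∀ p, S.M (g p) = S.M p

variable {S}

private theorem co_tr (z : Z2) (p : S.P) : S.co (S.tr z p) = S.co p + z := by
  have h := S.tr_ht z p
  exact Prod.ext h.1 h.2.2.1

private theorem wd_tr (u : Fin 4) (z : Z2) (p : S.P) : S.wd u (S.tr z p) = S.wd u p := by
  obtain ⟨h0, h1, h2, h3⟩ := S.tr_ht z p
  unfold wd
  rw [h0, h1, h2, h3]
  split_ifs <;> ring

namespace Ngd

variable (G : Ngd S)

theorem tr_symm (z : Z2) (q : S.P) : G.g.symm (S.tr z q) = S.tr (G.L.symm z) (G.g.symm q) := by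
  rw [Equiv.symm_apply_eq, G.tr, AddEquiv.apply_symm_apply, Equiv.apply_symm_apply]

/-- the recentered polygon -/
def rf (g : S.P → S.P) (p : S.P) : S.P := S.tr (-S.co (g p)) (g p)

theorem co_rf (g : S.P → S.P) (p : S.P) : S.co (rf g p) = 0 := by
  unfold rf
  rw [co_tr, add_neg_cancel]

/-- **the bijection of the polygons with corner `0`** -/
def rc (h : Rct S) : {p : S.P // S.co p = 0} ≃ {p : S.P // S.co p = 0} where
  toFun p := ⟨rf G.g p.1, co_rf G.g p.1⟩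
  invFun p := ⟨rf G.g.symm p.1, co_rf G.g.symm p.1⟩
  left_inv := by
    rintro ⟨p, hp⟩
    apply Subtype.ext
    change rf G.g.symm (rf G.g p) = p
    have e1 : G.g.symm (rf G.g p) = S.tr (G.L.symm (-S.co (G.g p))) p := by
      unfold rf
      rw [G.tr_symm, Equiv.symm_apply_apply]
    unfold rf at e1 ⊢
    rw [e1, co_tr, hp, zero_add, h.tra, neg_add_cancel, h.tr0]
  right_inv := by
    rintro ⟨p, hp⟩
    apply Subtype.ext
    change rf G.g (rf G.g.symm p) = p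
    have e1 : G.g (rf G.g.symm p) = S.tr (G.L (-S.co (G.g.symm p))) p := by
      unfold rf
      rw [G.tr, Equiv.apply_symm_apply]
    unfold rf at e1 ⊢
    rw [e1, co_tr, hp, zero_add, h.tra, neg_add_cancel, h.tr0]

/-- the symmetry carries the side `3` to the side `u` -/
structure To (u : Fin 4) : Prop where
  wd : ∀ p, S.wd u (G.g p) = S.wd 3 p
  Q : ∀ p, S.Qf (G.g p) u = S.Qf p 3
  C : ∀ p, S.Cf (G.g p) u = S.Cf p 3

/-- the identity -/
def id (S : PSys) : Ngd S := ⟨Equiv.refl _, AddEquiv.refl _, fun _ _ => rfl, fun _ => rfl⟩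

theorem id_to (S : PSys) : (Ngd.id S).To 3 := ⟨fun _ => rfl, fun _ => rfl, fun _ => rfl⟩

/-- composition -/
def comp (G' G : Ngd S) : Ngd S where
  g := G.g.trans G'.g
  L := G.L.trans G'.L
  tr := fun z p => by
    change G'.g (G.g (S.tr z p)) = S.tr (G'.L (G.L z)) (G'.g (G.g p))
    rw [G.tr, G'.tr]
  M := fun p => by
    change S.M (G'.g (G.g p)) = S.M p
    rw [G'.M, G.M]

end Ngd

/-- **the symmetries identify the four sides** -/
theorem sym_of (h : Rct S) (H : ∀ u : Fin 4, ∃ G : Ngd S, G.To u) : S.Sym := by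
  intro u
  obtain ⟨G, hG⟩ := H u
  refine ⟨G.rc h, fun p => ?_⟩
  have e : ((G.rc h p : {p : S.P // S.co p = 0}) : S.P) = S.tr (-S.co (G.g p.1)) (G.g p.1) := rfl
  rw [e, S.tr_M, G.M, wd_tr, hG.wd, h.Q, hG.Q, h.C, hG.C]
  exact ⟨rfl, rfl, rfl, rfl⟩

/-- the swap of columns and rows as a symmetry -/
def swN (h : ∀ z p, S.sw (S.tr z p) = S.tr (z.2, z.1) (S.sw p)) : Ngd S where
  g := S.sw
  L := { toFun := fun z => (z.2, z.1), invFun := fun z => (z.2, z.1), left_inv := fun _ => rfl,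
         right_inv := fun _ => rfl, map_add' := fun _ _ => rfl }
  tr := h
  M := S.sw_M

/-- **`Sym S` from the swap and the point reflection** -/
theorem sym_of' (h : Rct S) (hs : ∀ z p, S.sw (S.tr z p) = S.tr (z.2, z.1) (S.sw p)) (ng : S.P ≃ S.P)
    (ng_tr : ∀ z p, ng (S.tr z p) = S.tr (-z) (ng p)) (ng_M : ∀ p, S.M (ng p) = S.M p)
    (ng_ht : ∀ p, S.ht (ng p) 0 = -S.ht p 1 ∧ S.ht (ng p) 1 = -S.ht p 0 ∧ S.ht (ng p) 2 = -S.ht p 3 ∧
      S.ht (ng p) 3 = -S.ht p 2)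
    (Q13 : ∀ p, S.Qf (S.sw p) 1 = S.Qf p 3) (C13 : ∀ p, S.Cf (S.sw p) 1 = S.Cf p 3)
    (Q01 : ∀ p, S.Qf (ng p) 0 = S.Qf p 1) (C01 : ∀ p, S.Cf (ng p) 0 = S.Cf p 1)
    (Q23 : ∀ p, S.Qf (ng p) 2 = S.Qf p 3) (C23 : ∀ p, S.Cf (ng p) 2 = S.Cf p 3) : S.Sym := by
  have hng : ∃ G : Ngd S, G.g = ng := ⟨⟨ng, AddEquiv.neg Z2, ng_tr, ng_M⟩, rfl⟩
  obtain ⟨G, rfl⟩ := hng
  refine sym_of h fun u => ?_
  have w01 : ∀ p, S.wd 0 (G.g p) = S.wd 1 p := by
    intro p
    obtain ⟨h0, h1, h2, h3⟩ := ng_ht p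
    change S.ht (G.g p) 1 - S.ht (G.g p) 0 = S.ht p 1 - S.ht p 0
    rw [h0, h1]
    ring
  have w23 : ∀ p, S.wd 2 (G.g p) = S.wd 3 p := by
    intro p
    obtain ⟨h0, h1, h2, h3⟩ := ng_ht p
    change S.ht (G.g p) 3 - S.ht (G.g p) 2 = S.ht p 3 - S.ht p 2
    rw [h2, h3]
    ring
  have w13 : ∀ p, S.wd 1 (S.sw p) = S.wd 3 p := by
    intro p
    obtain ⟨h0, h1, h2, h3⟩ := S.sw_ht p
    change S.ht (S.sw p) 1 - S.ht (S.sw p) 0 = S.ht p 3 - S.ht p 2
    rw [h0, h1]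
  fin_cases u
  · exact ⟨G.comp (swN hs), ⟨fun p => (w01 _).trans (w13 p), fun p => (Q01 _).trans (Q13 p),
      fun p => (C01 _).trans (C13 p)⟩⟩
  · exact ⟨swN hs, ⟨w13, Q13, C13⟩⟩
  · exact ⟨G, ⟨w23, Q23, C23⟩⟩
  · exact ⟨Ngd.id S, Ngd.id_to S⟩

end Pool.Agent.ROT.A.PSys
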