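import Pool.Agent.ROT.A6Sym
import Pool.Agent.ROT.A6S

/-!
# ROT, row A6b-S (helper68): `PSys.Sym hexP`
-/

set_option autoImplicit false

namespace Pool.Agent.ROT.A6.SymH

open Pool.Agent.YBC (Dir)
open Pool.Agent.ROT.E (Cell IsUn Pt nx He Cfg Fm Mt Lp oc rv vp)
open Pool.Agent.ROT.E.Hx (HL hs vs Ny wl trc sq)

theorem trc_at (z : Pt) (γ : Cfg) (v : Pt) : trc z γ v = γ (v - z) := by
  have h := E.Hx.trc_apply z γ (v - z)
  rwa [sub_add_cancel] at h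

theorem trc_zero (γ : Cfg) : trc 0 γ = γ := by
  ext v
  rw [trc_at, sub_zero]

theorem trc_trc (z z' : Pt) (γ : Cfg) : trc z (trc z' γ) = trc (z + z') γ := by
  ext v
  rw [trc_at, trc_at, trc_at, sub_sub]

theorem tr_trc (z : Pt) (γ : Cfg) : E.tr (trc z γ) = trc (z.2, z.1) (E.tr γ) := by
  ext v
  obtain ⟨x, y⟩ := v
  rw [E.tr_apply, trc_at, trc_at]
  exact (E.tr_apply γ (x - z.2) (y - z.1)).symm

theorem pr_at (γ : Cfg) (v : Pt) : pr γ v = (γ (-v)).pr := by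
  have h := pr_apply γ (-v)
  rwa [neg_neg] at h

theorem pr_trc (z : Pt) (γ : Cfg) : pr (trc z γ) = trc (-z) (pr γ) := by
  ext v
  rw [pr_at, trc_at, trc_at, pr_at]
  congr 2
  abel

theorem tp_pr (c : Cell) : c.pr.tp = c.tp.pr := by cases c <;> rfl

theorem tr_pr (γ : Cfg) : E.tr (pr γ) = pr (E.tr γ) := by
  ext v
  obtain ⟨x, y⟩ := v
  rw [E.tr_apply, pr_at, pr_at, tp_pr]
  exact congrArg Cell.pr (E.tr_apply γ (-x) (-y)).symm

/-! ### translations -/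

theorem qL_trc {γ : Cfg} (l : HL γ) (z : Pt) : qL (trc z γ) = qL γ := by
  unfold qL
  rw [← (Equiv.addRight z.2).tsum_eq]
  refine tsum_congr fun r => ?_
  rw [(hc_trc l z).1, trc_at]
  congr 2
  refine Prod.ext ?_ ?_
  · change hc γ 0 + z.1 - z.1 = hc γ 0
    ring
  · change r + z.2 - z.2 = r
    ring

theorem qR_trc {γ : Cfg} (l : HL γ) (z : Pt) : qR (trc z γ) = qR γ := by
  unfold qR
  rw [← (Equiv.addRight z.2).tsum_eq]
  refine tsum_congr fun r => ?_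
  rw [(hc_trc l z).2.1, trc_at]
  congr 2
  refine Prod.ext ?_ ?_
  · change hc γ 1 + z.1 - z.1 = hc γ 1
    ring
  · change r + z.2 - z.2 = r
    ring

theorem CpT_trc {γ : Cfg} (l : HL γ) (z : Pt) {c : ℤ} (h : CpT γ c) : CpT (trc z γ) (c + z.1) := by
  obtain ⟨h1, h2, h3⟩ := h
  have e := (hc_trc l z).2.2.2
  refine ⟨?_, ?_, fun p hp hq => ?_⟩
  · rw [e, trc_at, ← h1]
    congr 1
    refine Prod.ext ?_ ?_
    · change c + z.1 - z.1 = c
      ring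
    · change hc γ 3 + z.2 - z.2 = hc γ 3
      ring
  · rw [e, trc_at, ← h2]
    congr 1
    refine Prod.ext ?_ ?_
    · change c + z.1 + 1 - z.1 = c + 1
      ring
    · change hc γ 3 + z.2 - z.2 = hc γ 3
      ring
  · rw [trc_at] at hp
    rw [e] at hq
    have h4 := h3 (p - z) hp (by change p.2 - z.2 = _; omega)
    change p.1 - z.1 = c ∨ p.1 - z.1 = c + 1 at h4
    omega

theorem CpB_trc {γ : Cfg} (l : HL γ) (z : Pt) {c : ℤ} (h : CpB γ c) : CpB (trc z γ) (c + z.1) := by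
  obtain ⟨h1, h2, h3⟩ := h
  have e := (hc_trc l z).2.2.1
  refine ⟨?_, ?_, fun p hp hq => ?_⟩
  · rw [e, trc_at, ← h1]
    congr 1
    refine Prod.ext ?_ ?_
    · change c + z.1 - z.1 = c
      ring
    · change hc γ 2 + z.2 - z.2 = hc γ 2
      ring
  · rw [e, trc_at, ← h2]
    congr 1
    refine Prod.ext ?_ ?_
    · change c + z.1 + 1 - z.1 = c + 1
      ring
    · change hc γ 2 + z.2 - z.2 = hc γ 2
      ring
  · rw [trc_at] at hp
    rw [e] at hq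
    have h4 := h3 (p - z) hp (by change p.2 - z.2 = _; omega)
    change p.1 - z.1 = c ∨ p.1 - z.1 = c + 1 at h4
    omega

open Classical in
theorem cpT_trc {γ : Cfg} (l : HL γ) (z : Pt) : cpT (trc z γ) = cpT γ := by
  unfold cpT
  refine if_congr ⟨fun ⟨c, h⟩ => ?_, fun ⟨c, h⟩ => ⟨_, CpT_trc l z h⟩⟩ rfl rfl
  have h1 := CpT_trc (E.Hx.hl_trc.2 l) (-z) h
  rw [trc_neg] at h1
  exact ⟨_, h1⟩

open Classical in
theorem cpB_trc {γ : Cfg} (l : HL γ) (z : Pt) : cpB (trc z γ) = cpB γ := by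
  unfold cpB
  refine if_congr ⟨fun ⟨c, h⟩ => ?_, fun ⟨c, h⟩ => ⟨_, CpB_trc l z h⟩⟩ rfl rfl
  have h1 := CpB_trc (E.Hx.hl_trc.2 l) (-z) h
  rw [trc_neg] at h1
  exact ⟨_, h1⟩

theorem qf_trc {γ : Cfg} (l : HL γ) (z : Pt) : qf (trc z γ) = qf γ := by
  unfold qf
  rw [tr_trc, qL_trc l, qR_trc l, qL_trc (hl_tr l), qR_trc (hl_tr l)]

theorem cf_trc {γ : Cfg} (l : HL γ) (z : Pt) : cf (trc z γ) = cf γ := by
  unfold cf
  rw [tr_trc, cpT_trc l, cpB_trc l, cpT_trc (hl_tr l), cpB_trc (hl_tr l)]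

/-! ### the point reflection -/

private theorem pr_eq {c c' : Cell} : c.pr = c' ↔ c = c'.pr := by
  revert c c'
  decide

theorem CpB_pr {γ : Cfg} (l : HL γ) (c : ℤ) : CpB (pr γ) c ↔ CpT γ (-c - 1) := by
  have e := (hc_pr l).2.2.1
  have e1 : ∀ x : ℤ, pr γ (x, hc (pr γ) 2) = (γ (-x, hc γ 3)).pr := by
    intro x
    rw [pr_at, e]
    congr 2
    exact Prod.ext rfl (neg_neg _)
  unfold CpB CpT
  rw [e1, e1, pr_eq, pr_eq]
  have e2 : -c - 1 + 1 = -c := by ring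
  have e3 : -(c + 1) = -c - 1 := by ring
  rw [e2, e3]
  constructor
  · rintro ⟨h1, h2, h3⟩
    refine ⟨h2, h1, fun p hp hq => ?_⟩
    have h4 := h3 (-p) (by rw [pr_at, neg_neg, Ne, pr_eq]; exact hp) (by rw [e]; change -p.2 = _; omega)
    change -p.1 = c ∨ -p.1 = c + 1 at h4
    omega
  · rintro ⟨h1, h2, h3⟩
    refine ⟨h2, h1, fun p hp hq => ?_⟩
    rw [pr_at, Ne, pr_eq] at hp
    rw [e] at hq
    have h4 := h3 (-p) hp (by change -p.2 = _; omega)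
    change -p.1 = -c - 1 ∨ -p.1 = -c at h4
    omega

open Classical in
theorem cpB_pr {γ : Cfg} (l : HL γ) : cpB (pr γ) = cpT γ := by
  unfold cpB cpT
  refine if_congr ⟨fun ⟨c, h⟩ => ⟨_, (CpB_pr l c).1 h⟩, fun ⟨c, h⟩ => ⟨-c - 1, (CpB_pr l _).2 ?_⟩⟩ rfl rfl
  rwa [show -(-c - 1) - 1 = c by ring]

/-- the point reflection of the loops -/
noncomputable def ngE : HLs ≃ HLs where
  toFun p := ⟨pr p.1, hl_pr p.2⟩
  invFun p := ⟨pr p.1, hl_pr p.2⟩
  left_inv p := Subtype.ext (pr_pr p.1)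
  right_inv p := Subtype.ext (pr_pr p.1)

/-! ### the instance -/

theorem _root_.Pool.Agent.ROT.A6.hexP_rct : A.PSys.Rct hexP where
  tr0 p := Subtype.ext (trc_zero p.1)
  tra z z' p := Subtype.ext (trc_trc z z' p.1)
  Q z p u := congrFun (qf_trc p.2 z) u
  C z p u := congrFun (cf_trc p.2 z) u

/-- **the symmetries of the honeycomb identify the four sides** -/
theorem _root_.Pool.Agent.ROT.A6.hexP_sym : hexP.Sym := by
  refine A.PSys.sym_of' (S := hexP) hexP_rct (fun z p => Subtype.ext (tr_trc z p.1)) ngE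
    (fun z p => Subtype.ext (pr_trc z p.1)) (fun p => ?_) (fun p => hc_pr p.2) (fun p => rfl) (fun p => ?_)
    (fun p => qL_pr p.2) (fun p => ?_) (fun p => ?_) (fun p => cpB_pr p.2)
  · show HexObs.xc ^ (hs (pr p.1)).card = HexObs.xc ^ (hs p.1).card
    rw [card_pr p.2]
  · show cpT (E.tr (E.tr p.1)) = cpT p.1
    rw [E.tr_tr]
  · show cpB (E.tr (pr p.1)) = cpT (E.tr p.1)
    rw [tr_pr, cpB_pr (hl_tr p.2)]
  · show qL (E.tr (pr p.1)) = qR (E.tr p.1)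
    rw [tr_pr, qL_pr (hl_tr p.2)]

end Pool.Agent.ROT.A6.SymH
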