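import Pool.Agent.ROT.ADefs

/-!
# ROT, linear response, rows A6 / A7: the discrete exact side over `PSys` (helper35)

* `EXd` : column form minus row form of `Md F` with the one-step differences of (EX), `F = f (heights) * pattern`;
  error `ε ω` for `f` of oscillation `ω / N` (one step) and support in `|h| < K N`, extents `>= δ N`;
* `UI1` : first moment of the responses in families;
* `A7` : `EXd -> UI1 -> EXD`.
-/

set_option autoImplicit false

open Finset Filter Topology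

namespace Pool.Agent.ROT.A

namespace PSys

variable (S : PSys)

variable {I : Type} [Fintype I] [DecidableEq I]

/-- move one height by `d` -/
def mv (h : I → Fin 4 → ℤ) (i : I) (u : Fin 4) (d : ℤ) : I → Fin 4 → ℤ :=
  Function.update h i (Function.update (h i) u (h i u + d))

/-- one-step difference outwards (sign of the increasing direction): `0, 2`: `f h - f (h_u - 1)`, `1, 3`:
`f (h_u + 1) - f h` -/
noncomputable def dO (f : (I → Fin 4 → ℤ) → ℝ) (h : I → Fin 4 → ℤ) (i : I) (u : Fin 4) : ℝ :=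
  if u = 0 ∨ u = 2 then f h - f (mv h i u (-1)) else f (mv h i u 1) - f h

/-- one-step difference inwards: `0, 2`: `f (h_u + 1) - f h`, `1, 3`: `f h - f (h_u - 1)` -/
noncomputable def dI (f : (I → Fin 4 → ℤ) → ℝ) (h : I → Fin 4 → ℤ) (i : I) (u : Fin 4) : ℝ :=
  if u = 0 ∨ u = 2 then f (mv h i u 1) - f h else f h - f (mv h i u (-1))

/-- the position in (EX): `L - 1`, `R`, `B - 1`, `T` -/
def po (h : Fin 4 → ℤ) (u : Fin 4) : ℤ := if u = 0 ∨ u = 2 then h u - 1 else h u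

/-- **the response of the member `i`**, column form minus row form -/
noncomputable def Rd (f : (I → Fin 4 → ℤ) → ℝ) (γ : I → S.P) (i : I) : ℝ :=
  ∑ u, sg u * ((po (S.ht (γ i)) u : ℝ) * S.Qf (γ i) u * dO f (fun k => S.ht (γ k)) i u +
    (S.ex (γ i) u : ℝ) * S.Cf (γ i) u * dI f (fun k => S.ht (γ k)) i u)

/-- close heights -/
def Nh (h h' : I → Fin 4 → ℤ) : Prop := ∀ i u, |h i u - h' i u| ≤ 1

/-- support of the discrete test functions -/
def Sd (K δ : ℝ) (N : ℕ) (h : I → Fin 4 → ℤ) : Prop :=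
  (∀ i u, (|h i u| : ℝ) + 2 ≤ K * N) ∧ ∀ i, δ * N ≤ (h i 1 - h i 0 : ℝ) ∧ δ * N ≤ (h i 3 - h i 2 : ℝ)

/-- **the discrete exact side** -/
def EXd : Prop :=
  ∀ (I : Type) [Fintype I] [DecidableEq I] (τ : I → I → Bool) (K : ℕ) (δ ε : ℝ), 0 < δ → 0 < ε →
    ∀ᶠ N : ℕ in atTop, ∀ (f : (I → Fin 4 → ℤ) → ℝ) (ω : ℝ), (∀ h h', Nh h h' → |f h - f h'| ≤ ω / N) →
      (∀ h, f h ≠ 0 → Sd K δ N h) → |S.fsum (K * N) τ fun γ => ∑ i, S.Rd f γ i| ≤ ε * ω

open Classical in
/-- **first moments of the responses in families** -/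
def UI1 : Prop :=
  ∀ (I : Type) [Fintype I] [DecidableEq I] (τ : I → I → Bool) (K : ℕ) (δ : ℝ), 0 < δ → ∃ C : ℝ,
    ∀ᶠ N : ℕ in atTop, ∀ (i : I) (u : Fin 4), S.fsum (K * N) τ (fun γ =>
      if Sup K δ (fun k => S.hN N (γ k)) then S.Qf (γ i) u + S.Cf (γ i) u else 0) ≤ C

/-- **row A7** -/
def A7 : Prop := S.EXd → S.UI1 → S.EXD

end PSys

end Pool.Agent.ROT.A
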