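import Pool.Agent.ROT.LGr
import Pool.Agent.ROT.EGeo

/-!
# ROT, block L, row L4e: the pattern (who is inside of whom) of a family with a crossing

`hz δ p y`: the member `δ` uses the horizontal edge of the line `p` (between the columns `p - 1` and `p`) at the height
`y`.  `pt j δ ε` (`δ` the surrounding member, `ε` the surrounded one): parity of the edges of `δ` above the highest edge
of `ε` on the first line `p ≠ j + 1` met by `ε`.

* **`pt_class`**: `pt` is constant on the classes `Eq6 (Rg j s)` (graphs `g0`, `gX`);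
* `Lp.meets`: a loop which visits a column other than `j`, `j + 1` meets a line `p ≠ j + 1`;
* **`pt_true`**: on the families of the square lattice it is the side parity `sd` of `EGeo`, for every half edge.
-/

set_option autoImplicit false

namespace Pool.Agent.ROT.L

open Pool.Agent.YBC (Dir)
open Pool.Agent.ROT.E (Cell IsUn Pt nx)

/-! ### the lattice part of a configuration -/

section dn

variable {X : Type} [Zero X]

/-- the part on the lattice -/
noncomputable def dn (γ : VX →₀ X) : Pt →₀ X :=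
  γ.comapDomain some (Option.some_injective _).injOn

theorem dn_apply (γ : VX →₀ X) (v : Pt) : dn γ v = γ (some v) := Finsupp.comapDomain_apply _ _ _ _

end dn

variable {I : Type} {δ ε δ' ε' : VX →₀ Cell} {γ γ' : VX →₀ (I → Cell)} {j s : ℤ} {G G' : Gr VX}

private theorem co_ap0 (γ : VX →₀ (I → Cell)) (i : I) (v : VX) : co γ i v = γ v i := rfl

theorem co_dn (γ : VX →₀ (I → Cell)) (i : I) : E.co (dn γ) i = dn (co γ i) := by
  ext v
  rw [dn_apply]
  change (dn γ) v i = co γ i (some v)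
  rw [dn_apply, co_ap0]

theorem oc_dn (δ : VX →₀ Cell) (v : Pt) (d : Dir) : E.oc (dn δ) (v, d) ↔ oc δ (some v, d) := by
  unfold E.oc oc
  rw [dn_apply]

/-- the occupied sides of a cell -/
theorem ex_side {c : Cell} (h : c ≠ 0) : ∃ d, c.oc d := by
  have key : ∀ c : Cell, c ≠ .o → ∃ d, c.oc d := by decide
  exact key c h

theorem oc_zero {v : VX} {d : Dir} (h : oc δ (v, d)) : δ v ≠ 0 := by
  intro e
  apply h
  change (δ v).p d = d
  rw [e]
  rfl

/-- a connection in the square lattice does not touch the isolated crossing -/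
theorem cn_g0 {h k : VX × Dir} (c : Cn g0 δ Set.univ h k) :
    (h.1 = none ↔ k.1 = none) ∧ ∀ v w d d', h = (some v, d) → k = (some w, d') →
      E.Cn (dn δ) Set.univ (v, d) (w, d') := by
  induction c with
  | rel h k l =>
    obtain ⟨v, d⟩ := h
    rcases l.2.2 with rfl | ⟨rfl, -⟩
    · refine ⟨Iff.rfl, ?_⟩
      rintro v w d d' h1 h2
      obtain ⟨rfl, rfl⟩ := Prod.mk.inj h1
      simp only [vp, Prod.mk.injEq, Option.some.injEq] at h2
      obtain ⟨rfl, rfl⟩ := h2
      refine Relation.EqvGen.rel _ _ ⟨(oc_dn _ _ _).2 l.1, trivial, Or.inl ?_⟩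
      simp only [E.vp, dn_apply]
    · rcases v with _ | v
      · refine ⟨by simp [g0, e0], ?_⟩
        rintro v w d d' h1 h2
        simp at h1
      · refine ⟨by simp [g0, e0], ?_⟩
        rintro v w d d' h1 h2
        simp only [Prod.mk.injEq, Option.some.injEq] at h1
        obtain ⟨rfl, rfl⟩ := h1
        simp only [g0, e0, Prod.mk.injEq, Option.some.injEq] at h2
        obtain ⟨rfl, rfl⟩ := h2
        exact Relation.EqvGen.rel _ _ ⟨(oc_dn _ _ _).2 l.1, trivial, Or.inr ⟨rfl, trivial⟩⟩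
  | refl h =>
    refine ⟨Iff.rfl, ?_⟩
    rintro v w d d' rfl h2
    simp only [Prod.mk.injEq, Option.some.injEq] at h2
    obtain ⟨rfl, rfl⟩ := h2
    exact Relation.EqvGen.refl _
  | symm h k _ ih =>
    exact ⟨ih.1.symm, fun v w d d' h1 h2 => (ih.2 w v d' d h2 h1).symm⟩
  | trans h k l _ _ ih1 ih2 =>
    refine ⟨ih1.1.trans ih2.1, ?_⟩
    rintro v w d d' rfl rfl
    obtain ⟨x, e⟩ := k
    rcases x with _ | x
    · exact absurd (ih1.1.2 rfl) (by simp)
    · exact (ih1.2 v x d e rfl rfl).trans _ _ _ (ih2.2 x w e d' rfl rfl)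

theorem Lp.none_free (l : Lp g0 δ) (h : ∃ v : Pt, δ (some v) ≠ 0) : δ none = 0 := by
  by_contra hn
  obtain ⟨v, hv⟩ := h
  obtain ⟨d, hd⟩ := ex_side hv
  obtain ⟨d', hd'⟩ := ex_side hn
  have := (cn_g0 (l.cn (some v, d) (none, d') hd hd')).1.2 rfl
  simp at this

/-- a loop of the square lattice with the isolated crossing is a loop -/
theorem Lp.dn (l : Lp g0 δ) (h : ∃ v : Pt, δ (some v) ≠ 0) : E.Lp (L.dn δ) where
  mt := by
    rintro ⟨v, d⟩ - -
    rw [oc_dn, l.mt (some v, d) trivial trivial]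
    exact (oc_dn δ (nx v d) d.op).symm
  ne := by
    obtain ⟨v, hv⟩ := h
    intro e
    apply hv
    rw [← dn_apply, e]
    rfl
  cn := by
    rintro ⟨v, d⟩ ⟨w, d'⟩ h1 h2
    exact (cn_g0 (l.cn _ _ ((oc_dn _ _ _).1 h1) ((oc_dn _ _ _).1 h2))).2 v w d d' rfl rfl

/-- the families of the square lattice -/
theorem Fam.dn (f : Fam g0 γ) (h : ∀ i, ∃ v : Pt, γ (some v) i ≠ 0) : E.Fam (L.dn γ) where
  lp := fun i => by
    rw [co_dn]
    exact (f.lp i).dn (h i)
  dj := fun v => by
    rw [dn_apply]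
    exact f.dj (some v)

/-! ### horizontal edges -/

/-- the horizontal edge of the line `p` (between the columns `p - 1` and `p`) at the height `y` is used -/
def hz (δ : VX →₀ Cell) (p y : ℤ) : Prop := oc δ (some (p, y), .W)

theorem hz_east (hG : ∀ v : Pt, G.e (some v, .W) = (some (nx v .W), .E)) (mt : Mt G δ Set.univ) (p y : ℤ) :
    hz δ p y ↔ oc δ (some (p - 1, y), .E) := by
  unfold hz
  rw [mt (some (p, y), .W) trivial trivial, hG]
  rfl

theorem g0_W (v : Pt) : g0.e (some v, .W) = (some (nx v .W), .E) := rfl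

theorem gX_W (j s : ℤ) (v : Pt) : (gX j s).e (some v, .W) = (some (nx v .W), .E) := rfl

theorem hz_fin (δ : VX →₀ Cell) (p : ℤ) : {y | hz δ p y}.Finite := by
  have h : ((fun y : ℤ => (some (p, y) : VX)) ⁻¹' (δ.support : Set VX)).Finite :=
    δ.support.finite_toSet.preimage (fun a _ b _ e => by simpa using e)
  refine h.subset fun y hy => ?_
  simp only [Set.mem_preimage, Finset.mem_coe, Finsupp.mem_support_iff]
  exact oc_zero hy

/-- the same outside of the region: the same edges on the lines `p ≠ j + 1` -/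
theorem hz_out (hG : ∀ v : Pt, G.e (some v, .W) = (some (nx v .W), .E))
    (hG' : ∀ v : Pt, G'.e (some v, .W) = (some (nx v .W), .E)) (mt : Mt G δ Set.univ) (mt' : Mt G' δ' Set.univ)
    (out : ∀ v, v ∉ Rg j s → δ v = δ' v) {p : ℤ} (hp : p ≠ j + 1) (y : ℤ) : hz δ p y ↔ hz δ' p y := by
  have hRg : ∀ a b : ℤ, a ≠ j → a ≠ j + 1 → (some (a, b) : VX) ∉ Rg j s := by
    intro a b h1 h2
    simp [Rg, h1, h2]
  by_cases h : p = j
  · rw [hz_east hG mt, hz_east hG' mt']
    unfold oc
    simp only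
    rw [out _ (hRg _ _ (by omega) (by omega))]
  · unfold hz oc
    simp only
    rw [out _ (hRg _ _ h hp)]

/-- the parity of the edges of the line `p` at the heights `≥ y` -/
noncomputable def sgx (δ : VX →₀ Cell) (p y : ℤ) : ZMod 2 := (({y' : ℤ | y ≤ y' ∧ hz δ p y'}).ncard : ZMod 2)

theorem sgx_congr {p : ℤ} (h : ∀ y, hz δ p y ↔ hz δ' p y) (y : ℤ) : sgx δ p y = sgx δ' p y := by
  unfold sgx
  simp only [h]

/-- it is the side parity of `EGeo` -/
theorem sgx_eq (δ : VX →₀ Cell) (p y : ℤ) : sgx δ p y = E.sg (dn δ) p y := by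
  classical
  have hf : ({y' : ℤ | y ≤ y' ∧ hz δ p y'}).Finite := (hz_fin δ p).subset fun y' h => h.2
  have e1 : ∀ v : Pt, (if v.1 = p ∧ y ≤ v.2 then E.io (dn δ) v .W else 0) =
      if (v.1 = p ∧ y ≤ v.2) ∧ hz δ v.1 v.2 then (1 : ZMod 2) else 0 := by
    intro v
    unfold E.io
    by_cases h1 : v.1 = p ∧ y ≤ v.2
    · rw [if_pos h1]
      by_cases h2 : hz δ v.1 v.2
      · rw [if_pos ((oc_dn _ _ _).2 h2), if_pos ⟨h1, h2⟩]
      · rw [if_neg (fun h => h2 ((oc_dn _ _ _).1 h)), if_neg (fun h => h2 h.2)]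
    · rw [if_neg h1, if_neg (fun h => h1 h.1)]
  unfold E.sg
  rw [Finset.sum_congr rfl fun v _ => e1 v, Finset.sum_boole]
  unfold sgx
  congr 1
  rw [Set.ncard_eq_toFinset_card _ hf]
  refine Finset.card_bij (fun y' _ => (p, y')) ?_ ?_ ?_
  · intro y' hy'
    rw [Set.Finite.mem_toFinset] at hy'
    rw [Finset.mem_filter, Finsupp.mem_support_iff, dn_apply]
    exact ⟨oc_zero hy'.2, ⟨rfl, hy'.1⟩, hy'.2⟩
  · intro a _ b _ h
    exact (Prod.mk.inj h).2
  · rintro ⟨a, b⟩ hv
    obtain ⟨-, ⟨rfl, h2⟩, h3⟩ := Finset.mem_filter.1 hv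
    exact ⟨b, (Set.Finite.mem_toFinset _).2 ⟨h2, h3⟩, rfl⟩

/-! ### the pattern -/

/-- the lines `p ≠ j + 1` met by the member -/
def lns (j : ℤ) (ε : VX →₀ Cell) : Set ℤ := {p | p ≠ j + 1 ∧ ∃ y, hz ε p y}

open Classical in
/-- **the pattern**: the parity of `δ` above the highest edge of `ε` on the first line `p ≠ j + 1` met by `ε` -/
noncomputable def pt (j : ℤ) (δ ε : VX →₀ Cell) : ZMod 2 :=
  if (lns j ε).Nonempty then sgx δ (sInf (lns j ε)) (sSup {y | hz ε (sInf (lns j ε)) y}) else 0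

theorem lns_fin (j : ℤ) (ε : VX →₀ Cell) : (lns j ε).Finite := by
  classical
  refine Set.Finite.subset ((ε.support.image fun v => ((v.getD (0, 0)).1 : ℤ)).finite_toSet) ?_
  rintro p ⟨-, y, hy⟩
  simp only [Finset.coe_image, Set.mem_image, Finset.mem_coe, Finsupp.mem_support_iff]
  exact ⟨some (p, y), oc_zero hy, rfl⟩

theorem lns_mem {j : ℤ} {ε : VX →₀ Cell} (h : (lns j ε).Nonempty) : sInf (lns j ε) ∈ lns j ε :=
  Int.csInf_mem h (lns_fin j ε).bddBelow

/-- the chosen edge is used by the member -/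
theorem edge_mem {j : ℤ} {ε : VX →₀ Cell} (h : (lns j ε).Nonempty) :
    hz ε (sInf (lns j ε)) (sSup {y | hz ε (sInf (lns j ε)) y}) :=
  Int.csSup_mem (s := {y | hz ε (sInf (lns j ε)) y}) (lns_mem h).2 (hz_fin ε _).bddAbove

/-- the pattern depends only on the edges of the lines `p ≠ j + 1` -/
theorem pt_congr (h : ∀ p, p ≠ j + 1 → ∀ y, hz δ p y ↔ hz δ' p y)
    (h' : ∀ p, p ≠ j + 1 → ∀ y, hz ε p y ↔ hz ε' p y) : pt j δ ε = pt j δ' ε' := by
  classical
  have e1 : lns j ε = lns j ε' := by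
    ext p
    constructor
    · rintro ⟨hp, y, hy⟩
      exact ⟨hp, y, (h' p hp y).1 hy⟩
    · rintro ⟨hp, y, hy⟩
      exact ⟨hp, y, (h' p hp y).2 hy⟩
  unfold pt
  rw [e1]
  split_ifs with hn
  · have hp := (lns_mem hn).1
    have e2 : {y | hz ε (sInf (lns j ε')) y} = {y | hz ε' (sInf (lns j ε')) y} := by
      ext y
      exact h' _ hp y
    rw [e2]
    exact sgx_congr (h _ hp) _
  · rfl

/-- the pattern of a family: `pf j γ i k` = parity of the member `i` above the member `k` -/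
noncomputable def pf (j : ℤ) (γ : VX →₀ (I → Cell)) (i k : I) : ZMod 2 := pt j (co γ i) (co γ k)

/-- **the pattern is constant on the classes** -/
theorem pf_class (hG : ∀ v : Pt, G.e (some v, .W) = (some (nx v .W), .E))
    (hG' : ∀ v : Pt, G'.e (some v, .W) = (some (nx v .W), .E)) (h : Eq6 (Rg j s) G G' γ γ') :
    pf j γ = pf j γ' := by
  have key : ∀ i : I, ∀ p, p ≠ j + 1 → ∀ y, hz (co γ i) p y ↔ hz (co γ' i) p y := by
    intro i p hp y
    refine hz_out (s := s) hG hG' (h.fam.lp i).mt (h.fam'.lp i).mt (fun v hv => ?_) hp y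
    rw [co_ap0, co_ap0, h.out v hv]
  funext i k
  exact pt_congr (key i) (key k)

/-- a loop which visits a column other than `j`, `j + 1` meets a line `p ≠ j + 1` -/
theorem Lp.meets (l : Lp G δ) (hG : ∀ v : Pt, G.e (some v, .W) = (some (nx v .W), .E))
    (hN : ∀ v : Pt, v.1 ≠ j → v.1 ≠ j + 1 → G.e (some v, .N) = (some (nx v .N), .S)) {v : Pt} (hv : δ (some v) ≠ 0)
    (h1 : v.1 ≠ j) (h2 : v.1 ≠ j + 1) : (lns j δ).Nonempty := by
  classical
  obtain ⟨c, y0⟩ := v
  simp only at h1 h2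
  set S : Set ℤ := {y | δ (some (c, y)) ≠ 0} with hS
  have hf : S.Finite := by
    have h : ((fun y : ℤ => (some (c, y) : VX)) ⁻¹' (δ.support : Set VX)).Finite :=
      δ.support.finite_toSet.preimage (fun a _ b _ e => by simpa using e)
    refine h.subset fun y hy => ?_
    simp only [Set.mem_preimage, Finset.mem_coe, Finsupp.mem_support_iff]
    exact hy
  have hm : sSup S ∈ S := Int.csSup_mem ⟨y0, hv⟩ hf.bddAbove
  set y := sSup S with hy
  have hN1 : ¬ oc δ (some (c, y), .N) := by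
    intro ho
    have h3 := (l.mt (some (c, y), .N) trivial trivial).1 ho
    rw [hN (c, y) h1 h2] at h3
    have h4 : y + 1 ∈ S := oc_zero h3
    have h5 := le_csSup hf.bddAbove h4
    omega
  have key : ∀ c : Cell, c ≠ .o → ¬ c.oc .N → c.oc .W ∨ c.oc .E := by decide
  rcases key (δ (some (c, y))) hm hN1 with h3 | h3
  · exact ⟨c, h2, y, h3⟩
  · refine ⟨c + 1, by omega, y, ?_⟩
    rw [hz_east hG l.mt]
    have e : c + 1 - 1 = c := by ring
    rw [e]
    exact h3

theorem g0_N (v : Pt) : g0.e (some v, .N) = (some (nx v .N), .S) := rfl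

theorem gX_N {j s : ℤ} (v : Pt) (h1 : v.1 ≠ j) (h2 : v.1 ≠ j + 1) :
    (gX j s).e (some v, .N) = (some (nx v .N), .S) := by
  have e1 : v ≠ (j, s - 1) := fun e => h1 (by rw [e])
  have e2 : v ≠ (j + 1, s - 1) := fun e => h2 (by rw [e])
  change (if v = (j, s - 1) then ((none, .S) : VX × Dir) else if v = (j + 1, s - 1) then (none, .E) else
      (some (nx v .N), .S)) = _
  rw [if_neg e1, if_neg e2]

/-- **the pattern of a family of the square lattice is the side parity**, at every half edge of the member `k` -/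
theorem pf_true (f : Fam g0 γ) (hn : ∀ i, ∃ v : Pt, γ (some v) i ≠ 0) {i k : I} (hik : i ≠ k)
    (hm : (lns j (co γ k)).Nonempty) {h : E.He} (ho : E.oc (E.co (dn γ) k) h) :
    pf j γ i k = E.sd (E.co (dn γ) i) h := by
  have h1 := edge_mem hm
  have h2 : E.oc (E.co (dn γ) k) ((sInf (lns j (co γ k)), sSup {y | hz (co γ k) (sInf (lns j (co γ k))) y}), .W) := by
    rw [co_dn]
    exact (oc_dn _ _ _).2 h1
  have h3 := E.nest (f.dn hn) hik ho h2
  rw [h3]
  unfold pf pt
  rw [if_pos hm, sgx_eq, co_dn]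
  rfl

end Pool.Agent.ROT.L
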