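import Pool.Agent.ROT.LAbel
import Pool.Agent.ROT.LPat
import Pool.Agent.ROT.A7Defs

/-!
# ROT, row A7a: the test functions of the exact side

`chi τ` : the pattern `τ`; `tF` : a function of the heights with small oscillation times the pattern `τ`, as a test
function `Tst` of block L.
-/

set_option autoImplicit false

namespace Pool.Agent.ROT.L

open Pool.Agent.YBC (Dir)
open Pool.Agent.ROT.E (Cell IsUn Pt nx)
open Pool.Agent.ROT.A.PSys (Sd)

variable {I : Type}

/-! ### the pattern -/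

open Classical in
/-- **the pattern** `τ`: `i` is inside `k` iff `τ i k` -/
noncomputable def chi (τ : I → I → Bool) (j : ℤ) (γ : FX I) : ℝ :=
  if ∀ i k, i ≠ k → pf j γ k i = (if τ i k then 1 else 0) then 1 else 0

theorem chi_le (τ : I → I → Bool) (j : ℤ) (γ : FX I) : |chi τ j γ| ≤ 1 := by
  unfold chi
  split_ifs <;> simp

theorem chi_cst (τ : I → I → Bool) (j r : ℤ) : Cst j r (chi τ j) := by
  intro g hg g' hg' γ γ' h
  have key : ∀ g ∈ Gs j r, ∀ v : Pt, g.e (some v, .W) = (some (nx v .W), .E) := by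
    rintro g (rfl | rfl | rfl) v
    · exact g0_W v
    · exact gX_W j r v
    · exact gX_W j (r + 1) v
  unfold chi
  rw [pf_class (key g hg) (key g' hg') h]

/-- a wide member of the square lattice meets a line `p ≠ j + 1` -/
theorem lns_wide {γ : FX I} (f : Fam g0 γ) (w : Wd (ht γ)) (j : ℤ) (k : I) : (lns j (co γ k)).Nonempty := by
  have hne : (cl γ k).Nonempty := by
    by_contra hc
    rw [Finset.not_nonempty_iff_eq_empty] at hc
    have h1 := (w k).1
    simp only [ht, hc, hL, hR, Finset.coe_empty, Set.image_empty, Matrix.cons_val_zero, Matrix.cons_val_one] at h1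
    simp at h1
  obtain ⟨a, ha, ea⟩ := hL_mem hne
  obtain ⟨b, hb, eb⟩ := hR_mem hne
  have h1 : hL (cl γ k) + 3 ≤ hR (cl γ k) := (w k).1
  rcases (by omega : (a.1 ≠ j ∧ a.1 ≠ j + 1) ∨ (b.1 ≠ j ∧ b.1 ≠ j + 1)) with h | h
  · exact (f.lp k).meets (G := g0) (fun v => g0_W v) (fun v _ _ => g0_N v) (v := a) (mem_cl.1 ha) h.1 h.2
  · exact (f.lp k).meets (G := g0) (fun v => g0_W v) (fun v _ _ => g0_N v) (v := b) (mem_cl.1 hb) h.1 h.2

theorem wide_ne {γ : FX I} (f : Fam g0 γ) (w : Wd (ht γ)) (i : I) : ∃ v : Pt, γ (some v) i ≠ 0 := by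
  obtain ⟨p, -, y, hy⟩ := lns_wide f w 0 i
  exact ⟨_, oc_zero hy⟩

theorem pf_wide {γ : FX I} (f : Fam g0 γ) (w : Wd (ht γ)) {i k : I} (hik : i ≠ k) (j j' : ℤ) :
    pf j γ i k = pf j' γ i k := by
  have hn := wide_ne f w
  have h1 := edge_mem (lns_wide f w 0 k)
  have h2 : E.oc (E.co (dn γ) k) ((sInf (lns 0 (co γ k)), sSup {y | hz (co γ k) (sInf (lns 0 (co γ k))) y}), .W) := by
    rw [co_dn]
    exact (oc_dn _ _ _).2 h1
  rw [pf_true f hn hik (lns_wide f w j k) h2, pf_true f hn hik (lns_wide f w j' k) h2]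

theorem chi_wide (τ : I → I → Bool) {γ : FX I} (f : Fam g0 γ) (w : Wd (ht γ)) (j j' : ℤ) :
    chi τ j γ = chi τ j' γ := by
  classical
  have h : (∀ i k, i ≠ k → pf j γ k i = (if τ i k then 1 else 0)) ↔
      ∀ i k, i ≠ k → pf j' γ k i = (if τ i k then 1 else 0) := by
    refine forall_congr' fun i => forall_congr' fun k => forall_congr' fun hik => ?_
    rw [pf_wide f w (Ne.symm hik) j j']
  unfold chi
  exact if_congr h rfl rfl

/-! ### the test functions -/

/-- the neighbourhood of the support -/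
def DmN (K : ℕ) (δ : ℝ) (N : ℕ) (h : I → Fin 4 → ℤ) : Prop :=
  (∀ i a, |h i a| ≤ (K : ℤ) * N) ∧
    ∀ i, δ * N / 2 ≤ (h i 1 : ℝ) - h i 0 ∧ δ * N / 2 ≤ (h i 3 : ℝ) - h i 2

/-- **the test function**: `f` of the heights times the pattern `τ` -/
noncomputable def tF (f : (I → Fin 4 → ℤ) → ℝ) (τ : I → I → Bool) {K : ℕ} {δ ω : ℝ} {N : ℕ}
    (osc : ∀ h h', Nr h h' → |f h - f h'| ≤ ω / N) (sup : ∀ h, f h ≠ 0 → Sd K δ N h) (hN : 6 ≤ δ * N) : Tst I where
  f := f
  ω := ω / N
  K := K * N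
  Dm := DmN K δ N
  osc := osc
  dm := by
    intro h h' hh hf
    obtain ⟨s1, s2⟩ := sup h hf
    have hd : ∀ i u, |(h i u : ℝ) - h' i u| ≤ 1 := by
      intro i u
      have e1 : |((h i u : ℝ) - h' i u)| = ((|h i u - h' i u| : ℤ) : ℝ) := by push_cast; rfl
      rw [e1]
      exact_mod_cast hh i u
    constructor
    · intro i a
      have e3 : ((|h i a| + 2 : ℤ) : ℝ) ≤ ((K : ℤ) * N : ℤ) := by push_cast; exact s1 i a
      have e2 : |h i a| + 2 ≤ (K : ℤ) * N := by exact_mod_cast e3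
      have e4 := hh i a
      have e5 : -((K : ℤ) * N - 2) ≤ h i a ∧ h i a ≤ (K : ℤ) * N - 2 := abs_le.1 (by omega)
      rw [abs_le] at e4 ⊢
      omega
    · intro i
      obtain ⟨t1, t2⟩ := s2 i
      have e0 := hd i 0
      have e1 := hd i 1
      have e2 := hd i 2
      have e3 := hd i 3
      rw [abs_le] at e0 e1 e2 e3
      constructor <;> linarith
  bd := fun h hh => hh.1
  wd := by
    intro h hh i
    obtain ⟨t1, t2⟩ := hh.2 i
    constructor
    · have e1 : ((h i 0 + 3 : ℤ) : ℝ) ≤ h i 1 := by push_cast; linarith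
      exact_mod_cast e1
    · have e1 : ((h i 2 + 3 : ℤ) : ℝ) ≤ h i 3 := by push_cast; linarith
      exact_mod_cast e1
  χ := chi τ
  χ0 := chi τ 0
  cst := chi_cst τ
  c0 := fun j γ f w => chi_wide τ f w j 0
  b0 := chi_le τ 0
  b1 := chi_le τ

end Pool.Agent.ROT.L
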