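import Pool.Agent.ROT.LDefs
import Pool.Agent.ROT.LPat

/-!
# ROT, block L, row L0: weights, finiteness, the families of the lattice
-/

set_option autoImplicit false

namespace Pool.Agent.ROT.L

open Pool.Agent.EXL (Wt)
open Pool.Agent.YBC (Dir)
open Pool.Agent.UNI (wR wR_nn DR)
open Pool.Agent.ROT.E (Cell IsUn Pt W0 W1 J1 nx)
open Pool.Agent.ROT.E.Lab (un_unique un_zero)

variable {I : Type}

/-! ### weights -/

theorem wfg_un {θ : Cell → ℝ} {f : I → Cell} {c : Cell} (h : IsUn f c) : wfg θ f = θ c := by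
  classical
  unfold wfg
  rw [Finset.sum_eq_single c]
  · rw [if_pos h]
  · intro b _ hb
    rw [if_neg fun hc => hb (un_unique hc h)]
  · intro hc
    exact absurd (Finset.mem_univ c) hc

/-- the union of one member -/
theorem isUn_one {f : I → Cell} {i : I} (h : ∀ k, k ≠ i → f k = .o) : IsUn f (f i) := by
  have key : ∀ k d, (f k).oc d → k = i := by
    intro k d hd
    by_contra hk
    rw [h k hk] at hd
    exact hd rfl
  refine ⟨fun k d hd => ?_, fun k k' d hd hd' => ?_, fun d hd => ⟨i, hd⟩⟩
  · rw [key k d hd]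
  · rw [key k d hd, key k' d hd']

/-- only one member at the vertex -/
theorem wfg_one {θ : Cell → ℝ} {f : I → Cell} {i : I} (h : ∀ k, k ≠ i → f k = .o) : wfg θ f = θ (f i) :=
  wfg_un (isUn_one h)

theorem wfg_nil (θ : Cell → ℝ) : wfg θ (0 : I → Cell) = θ .o := wfg_un un_zero

theorem wt_o : wt .o = 1 := rfl

theorem dwt_o : dwt .o = 0 := if_pos rfl

theorem jw_o : jw .o = 0 := if_pos rfl

theorem fac_zero (v : VX) : fac v (0 : I → Cell) = 1 := by
  cases v with
  | none => rfl
  | some p => exact wfg_nil wt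

/-- a finset which contains the support -/
theorem M_eq {γ : FX I} {s : Finset VX} (h : γ.support ⊆ s) : M γ = ∏ v ∈ s, fac v (γ v) := by
  refine Finset.prod_subset h fun v _ hv => ?_
  rw [Finsupp.notMem_support_iff.1 hv]
  exact fac_zero v

open Classical in
theorem dM_eq {γ : FX I} {p : Pt} {s : Finset VX} (h : γ.support ⊆ s) :
    dM p γ = wfg dwt (γ (some p)) * ∏ v ∈ s.erase (some p), fac v (γ v) := by
  unfold dM
  congr 1
  refine Finset.prod_subset (Finset.erase_subset_erase _ h) fun v hv hv' => ?_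
  have h1 : v ∉ γ.support := fun hc => hv' (Finset.mem_erase.2 ⟨(Finset.mem_erase.1 hv).1, hc⟩)
  rw [Finsupp.notMem_support_iff.1 h1]
  exact fac_zero v

theorem wt_nonneg (c : Cell) : 0 ≤ wt c := by
  have hp := Real.pi_pos
  obtain ⟨h1, h2, h3, h4, h5⟩ := wR_nn (u := Real.pi / 8) le_rfl (by linarith)
  cases c
  · exact zero_le_one
  · exact h1
  · exact h1
  · exact h2
  · exact h2
  · exact h3
  · exact h3
  · exact h4
  · exact h5

theorem wfg_nonneg {θ : Cell → ℝ} (h : ∀ c, 0 ≤ θ c) (f : I → Cell) : 0 ≤ wfg θ f := by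
  classical
  refine Finset.sum_nonneg fun c _ => ?_
  split_ifs
  · exact h c
  · exact le_rfl

theorem fac_nonneg (v : VX) (f : I → Cell) : 0 ≤ fac v f := by
  cases v with
  | none => exact zero_le_one
  | some p => exact wfg_nonneg wt_nonneg f

theorem M_nonneg (γ : FX I) : 0 ≤ M γ := Finset.prod_nonneg fun v _ => fac_nonneg v _

theorem kk_eq : kk = 4 + 2 * √2 := by
  have sin8 : 0 < Real.sin (Real.pi / 8) :=
    Real.sin_pos_of_pos_of_lt_pi (by positivity) (by linarith [Real.pi_pos])
  have cos8 : 0 < Real.cos (Real.pi / 8) :=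
    Real.cos_pos_of_mem_Ioo ⟨by linarith [Real.pi_pos], by linarith [Real.pi_pos]⟩
  have h3 : √2 ^ 2 = 2 := Real.sq_sqrt (by norm_num)
  have h5 : (0 : ℝ) < √2 := by positivity
  have cs8 : Real.cos (Real.pi / 8) = (1 + √2) * Real.sin (Real.pi / 8) := by
    have h1 : Real.cos (Real.pi / 4) = 2 * Real.cos (Real.pi / 8) ^ 2 - 1 := by
      rw [show Real.pi / 4 = 2 * (Real.pi / 8) by ring, Real.cos_two_mul]
    have h2 : Real.sin (Real.pi / 4) = 2 * Real.sin (Real.pi / 8) * Real.cos (Real.pi / 8) := by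
      rw [show Real.pi / 4 = 2 * (Real.pi / 8) by ring, Real.sin_two_mul]
    rw [Real.cos_pi_div_four] at h1
    rw [Real.sin_pi_div_four] at h2
    have h4 := Real.sin_sq_add_cos_sq (Real.pi / 8)
    have key : (Real.cos (Real.pi / 8) - (1 + √2) * Real.sin (Real.pi / 8)) * (2 * Real.cos (Real.pi / 8)) = 0 := by
      nlinarith
    rcases mul_eq_zero.1 key with h | h
    · linarith
    · linarith
  have hDR : DR (Real.pi / 8) = Real.cos (Real.pi / 8) := by
    unfold DR
    rw [show Real.pi / 8 + Real.pi / 4 = Real.pi / 2 - Real.pi / 8 by ring,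
      show Real.pi / 8 + 3 * Real.pi / 8 = Real.pi / 2 by ring, Real.sin_pi_div_two, mul_one,
      Real.sin_pi_div_two_sub]
  show 1 / Real.cos (Real.pi / 8) / (Real.sin (Real.pi / 4) * Real.sin (3 * Real.pi / 8 - Real.pi / 8) / DR (Real.pi / 8)
    * (Real.sin (Real.pi / 4) * Real.sin (Real.pi / 8) / DR (Real.pi / 8))) = 4 + 2 * √2
  rw [hDR, show 3 * Real.pi / 8 - Real.pi / 8 = Real.pi / 4 by ring, Real.sin_pi_div_four, cs8]
  have h6 : √2 ^ 3 = 2 * √2 := by rw [pow_succ, h3]
  field_simp
  ring_nf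
  nlinarith [h3, h6]

/-! ### cells of the members -/

/-- a loop of `gX` visits a cell of the lattice -/
theorem cl_neX {j s : ℤ} {γ : FX I} (h : Fam (gX j s) γ) (i : I) : (cl γ i).Nonempty := by
  by_contra hc
  rw [Finset.not_nonempty_iff_eq_empty] at hc
  have h0 : ∀ v : Pt, γ (some v) i = .o := by
    intro v
    by_contra hv
    have := mem_cl.2 hv
    rw [hc] at this
    exact absurd this (Finset.notMem_empty v)
  have hn : γ none i ≠ .o := by
    intro hn
    apply (h.lp i).ne
    ext v
    cases v with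
    | none => exact hn
    | some v => exact h0 v
  obtain ⟨d, hd⟩ := exists_oc hn
  have h1 := ((h.lp i).mt (none, d) trivial trivial).1 hd
  have h2 := oc_co h1
  cases d
  · exact h2 (h0 _)
  · exact h2 (h0 _)
  · exact h2 (h0 _)
  · exact h2 (h0 _)

/-- a wide set of cells leaves the region -/
theorem wide_out {S : Finset Pt} (h : hL S + 3 ≤ hR S) (j r : ℤ) : ∃ v ∈ S, (some v : VX) ∉ Rg j r := by
  have hS : S.Nonempty := by
    by_contra hc
    rw [Finset.not_nonempty_iff_eq_empty] at hc
    rw [hc] at h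
    simp [hL, hR] at h
  obtain ⟨v, hv, e⟩ := hL_mem hS
  obtain ⟨w, hw, e'⟩ := hR_mem hS
  by_cases h1 : (some v : VX) ∈ Rg j r
  · refine ⟨w, hw, fun h2 => ?_⟩
    obtain ⟨a, b⟩ := v
    obtain ⟨a', b'⟩ := w
    rw [some_mem_Rg] at h1 h2
    simp only at e e'
    omega
  · exact ⟨v, hv, h1⟩

/-- wide families of the square lattice do not use the crossing and leave every region -/
theorem wd_gd {γ : FX I} (h : Fam g0 γ) (wd : Wd (ht γ)) : γ none = 0 ∧ ∀ j r, Gd (Rg j r) γ := by
  have hg : ∀ j r, Gd (Rg j r) γ := by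
    intro j r i
    obtain ⟨v, hv, h1⟩ := wide_out (S := cl γ i) (wd i).1 j r
    exact ⟨some v, h1, mem_cl.1 hv⟩
  exact ⟨funext fun i => none_o h (hg 0 0) i, hg⟩

theorem wd_gdX {j r : ℤ} {γ : FX I} (wd : Wd (he j r γ)) : Gd (Rg j r) γ := by
  intro i
  obtain ⟨v, hv, h1⟩ := wide_out (S := ex j r γ i) (wd i).1 j r
  exact ⟨some v, h1, mem_cl.1 ((mem_ex_out h1).1 hv)⟩

/-! ### finiteness -/

/-- finitely many families with a given finite set of places -/
theorem fin_supp [Finite I] (s : Finset VX) : {γ : FX I | γ.support ⊆ s}.Finite := by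
  classical
  have : Finite Cell := inferInstance
  refine Set.Finite.of_finite_image (f := fun (γ : FX I) (v : s) => γ v) (Set.toFinite _) ?_
  intro γ hγ γ' hγ' e
  ext1 v
  by_cases hv : v ∈ s
  · exact congrFun e ⟨v, hv⟩
  · rw [Finsupp.notMem_support_iff.1 fun h => hv (hγ h), Finsupp.notMem_support_iff.1 fun h => hv (hγ' h)]

/-- a box -/
noncomputable def bxs (K : ℤ) : Finset VX := insert none (((Finset.Icc (-K) K) ×ˢ (Finset.Icc (-K) K)).map Function.Embedding.some)

theorem supp_bxs {K : ℤ} {γ : FX I} (h : ∀ i a, |ht γ i a| ≤ K) : γ.support ⊆ bxs K := by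
  intro v hv
  rw [Finsupp.mem_support_iff] at hv
  cases v with
  | none => exact Finset.mem_insert_self _ _
  | some v =>
    obtain ⟨i, hi⟩ : ∃ i, γ (some v) i ≠ .o := by
      by_contra hc
      push Not at hc
      exact hv (funext hc)
    have hm := mem_cl.2 hi
    have h0 := abs_le.1 (h i 0)
    have h1 := abs_le.1 (h i 1)
    have h2 := abs_le.1 (h i 2)
    have h3 := abs_le.1 (h i 3)
    have g0 := hL_le hm
    have g1 := le_hR hm
    have g2 := hB_le hm
    have g3 := le_hT hm
    simp only [ht, Matrix.cons_val_zero, Matrix.cons_val_one, Matrix.cons_val] at h0 h1 h2 h3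
    refine Finset.mem_insert_of_mem (Finset.mem_map.2 ⟨v, ?_, rfl⟩)
    rw [Finset.mem_product, Finset.mem_Icc, Finset.mem_Icc]
    omega

/-- finitely many families in a box -/
theorem fin_ht [Finite I] (K : ℤ) : {γ : FX I | ∀ i a, |ht γ i a| ≤ K}.Finite :=
  (fin_supp (bxs K)).subset fun _ h => supp_bxs h

/-! ### the families of the lattice -/

/-- the families of the lattice: forget the crossing -/
noncomputable def emb (γ : E.Fm I) : FX I := γ.embDomain Function.Embedding.some

theorem emb_some (γ : E.Fm I) (v : Pt) : emb γ (some v) = γ v := Finsupp.embDomain_apply_self _ _ _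

theorem emb_none (γ : E.Fm I) : emb γ none = 0 := by
  refine Finsupp.embDomain_of_notMem_range _ _ _ ?_
  rintro ⟨v, hv⟩
  exact absurd hv (by simp)

theorem dn_emb (γ : E.Fm I) : dn (emb γ) = γ := by
  ext1 v
  rw [dn_apply, emb_some]

theorem emb_inj {γ γ' : E.Fm I} (h : emb γ = emb γ') : γ = γ' := by rw [← dn_emb γ, h, dn_emb]

theorem emb_dn {γ : FX I} (h : γ none = 0) : emb (dn γ) = γ := by
  ext1 v
  cases v with
  | none => rw [emb_none, h]
  | some v => rw [emb_some, dn_apply]

theorem emb_surj {γ : FX I} (h : γ none = 0) : ∃ γ' : E.Fm I, emb γ' = γ := ⟨dn γ, emb_dn h⟩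

theorem co_emb (γ : E.Fm I) (i : I) (v : Pt) : co (emb γ) i (some v) = E.co γ i v := by
  show emb γ (some v) i = γ v i
  rw [emb_some]

theorem oc_emb (γ : E.Fm I) (i : I) (v : Pt) (d : Dir) : oc (co (emb γ) i) (some v, d) ↔ E.oc (E.co γ i) (v, d) := by
  unfold oc E.oc
  rw [co_emb]

theorem not_oc_none (γ : E.Fm I) (i : I) (d : Dir) : ¬ oc (co (emb γ) i) (none, d) := by
  intro h
  have h1 : (emb γ none i).oc d := h
  rw [emb_none] at h1
  exact h1 rfl

theorem lp_emb {γ : E.Fm I} {i : I} (l : E.Lp (E.co γ i)) : Lp g0 (co (emb γ) i) where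
  mt := by
    rintro ⟨v, d⟩ - -
    cases v with
    | none => exact Iff.rfl
    | some v =>
      rw [oc_emb, l.mt (v, d) trivial trivial]
      exact (oc_emb γ i (nx v d) d.op).symm
  ne := by
    intro e
    apply l.ne
    ext1 v
    rw [← co_emb, e]
    rfl
  cn := by
    have key : ∀ h k : E.He, E.Cn (E.co γ i) Set.univ h k →
        Cn g0 (co (emb γ) i) Set.univ (some h.1, h.2) (some k.1, k.2) := by
      intro h k c
      induction c with
      | rel h k l =>
        obtain ⟨h1, -, h2⟩ := l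
        refine .rel _ _ ⟨(oc_emb γ i h.1 h.2).2 h1, trivial, ?_⟩
        rcases h2 with rfl | ⟨rfl, -⟩
        · left
          simp only [vp, E.vp, co_emb]
        · exact Or.inr ⟨rfl, trivial⟩
      | refl h => exact .refl _
      | symm h k _ ih => exact .symm _ _ ih
      | trans h k l _ _ ih1 ih2 => exact .trans _ _ _ ih1 ih2
    rintro ⟨v, d⟩ ⟨w, d'⟩ h1 h2
    cases v with
    | none => exact absurd h1 (not_oc_none γ i d)
    | some v =>
      cases w with
      | none => exact absurd h2 (not_oc_none γ i d')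
      | some w => exact key (v, d) (w, d') (l.cn _ _ ((oc_emb γ i v d).1 h1) ((oc_emb γ i w d').1 h2))

theorem emb_fam (γ : E.Fm I) : Fam g0 (emb γ) ↔ E.Fam γ := by
  constructor
  · intro f
    have h := f.dn fun i => by
      by_contra hc
      push Not at hc
      apply (f.lp i).ne
      ext1 v
      cases v with
      | none => exact congrFun (emb_none γ) i
      | some v => exact hc v
    rwa [dn_emb] at h
  · intro f
    refine ⟨fun i => lp_emb (f.lp i), fun v => ?_⟩
    cases v with
    | none => exact ⟨.o, by rw [emb_none]; exact un_zero⟩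
    | some v => rw [emb_some]; exact f.dj v

theorem emb_M (γ : E.Fm I) : M (emb γ) = E.M (fun _ => Real.pi / 8) γ := by
  classical
  unfold M E.M
  have h : (emb γ).support = γ.support.map Function.Embedding.some := Finsupp.support_embDomain _ _
  rw [h, Finset.prod_map, Finsupp.prod]
  refine Finset.prod_congr rfl fun v _ => ?_
  show wfg wt (emb γ (some v)) = _
  rw [emb_some]
  rfl

end Pool.Agent.ROT.L
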