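import Pool.Agent.ROT.LSymP

/-!
# ROT, block L, row sigma, third part (helper68): the transposed test function and the transposed response

`Tp t t'` : `t'` is the transposed test function.  `Tp.Mdf` : the derivative of the measure is the same;
**`Tp.sum`** : the response sum of `t'` is the sum of the transposed responses of `t`; **`Tp.ex`** : the two forms of the
response differ by the two errors.
-/

set_option autoImplicit false

namespace Pool.Agent.ROT.L

open Pool.Agent.YBC (Dir)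
open Pool.Agent.ROT.E (Cell IsUn Pt)

variable {I : Type} {t t' : Tst I}

theorem wd_sgh {h : I → Fin 4 → ℤ} : Wd (sgh h) ↔ Wd h := by
  constructor
  · intro w i
    exact ⟨(w i).2, (w i).1⟩
  · intro w i
    exact ⟨(w i).2, (w i).1⟩

/-- `t'` is the transposed test function -/
structure Tp (t t' : Tst I) : Prop where
  f : ∀ h, t'.f h = t.f (sgh h)
  c : ∀ γ, Fam g0 γ → Wd (ht γ) → t'.χ0 γ = t.χ0 (ax E.tpS γ)

/-- heights are close to themselves -/
theorem Tst.nr_self {h : I → Fin 4 → ℤ} : Nr h h := fun i a => by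
  rw [sub_self]
  norm_num

theorem nr_upd {h : I → Fin 4 → ℤ} {i : I} {a : Fin 4} {x : ℤ} (hx : |x - h i a| ≤ 1) : Nr (upd h i a x) h := by
  classical
  intro k b
  unfold upd
  by_cases hk : k = i
  · subst hk
    rw [Function.update_self]
    by_cases hb : b = a
    · subst hb
      rw [Function.update_self]
      exact hx
    · rw [Function.update_of_ne hb, sub_self]
      norm_num
  · rw [Function.update_of_ne hk, sub_self]
    norm_num

theorem Tst.f_zero (t : Tst I) {h : I → Fin 4 → ℤ} (hn : ¬t.Dm h) : t.f h = 0 := by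
  by_contra h1
  exact hn (t.dm h h Tst.nr_self h1)

theorem Tst.f_upd (t : Tst I) {h : I → Fin 4 → ℤ} (hn : ¬t.Dm h) {i : I} {a : Fin 4} {x : ℤ} (hx : |x - h i a| ≤ 1) :
    t.f (upd h i a x) = 0 := by
  by_contra h1
  exact hn (t.dm _ h (nr_upd hx) h1)

theorem Rs_zero (t : Tst I) {γ : FX I} (hn : ¬t.Dm (ht γ)) (i : I) : Rs t.f γ i = 0 := by
  unfold Rs
  rw [t.f_zero hn, t.f_upd hn (by rw [show ht γ i 3 - 1 - ht γ i 3 = -1 by ring]; norm_num),
    t.f_upd hn (by rw [show ht γ i 2 + 1 - ht γ i 2 = 1 by ring]; norm_num),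
    t.f_upd hn (by rw [show ht γ i 0 - 1 - ht γ i 0 = -1 by ring]; norm_num),
    t.f_upd hn (by rw [show ht γ i 1 + 1 - ht γ i 1 = 1 by ring]; norm_num)]
  ring

theorem Tp.F (h : Tp t t') {γ : FX I} (f : Fam g0 γ) : t'.F γ = t.F (ax E.tpS γ) := by
  unfold Tst.F
  rw [h.f, ht_tp']
  by_cases hd : t.Dm (sgh (ht γ))
  · rw [h.c γ f (wd_sgh.1 (t.wd _ hd))]
  · rw [t.f_zero hd, zero_mul, zero_mul]

open Classical in
/-- **the derivative of the measure** -/
theorem Tp.Mdf (h : Tp t t') : L.Mdf t'.F = L.Mdf t.F := by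
  rw [← Mdf_ax pw_tp t.F]
  unfold L.Mdf
  refine tsum_congr fun γ => ?_
  by_cases f : Fam g0 γ
  · rw [if_pos f, if_pos f, h.F f]
  · rw [if_neg f, if_neg f]

variable [Fintype I]

open Classical in
/-- **the sum of the responses** -/
theorem Tp.sum (h : Tp t t') :
    (∑' γ : FX I, if Fam g0 γ then M γ * t'.χ0 γ * ∑ i, Rs t'.f γ i else 0) =
      ∑' γ : FX I, if Fam g0 γ then M γ * t.χ0 γ * ∑ i, RsT t.f γ i else 0 := by
  have e1 : ∀ γ : FX I, (if Fam g0 γ then M γ * t'.χ0 γ * ∑ i, Rs t'.f γ i else 0) =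
      if Fam g0 γ then M γ * (t.χ0 (ax E.tpS γ) * ∑ i, RsT t.f (ax E.tpS γ) i) else 0 := by
    intro γ
    by_cases f : Fam g0 γ
    · rw [if_pos f, if_pos f, mul_assoc]
      congr 1
      have e2 : ∀ i, RsT t.f (ax E.tpS γ) i = Rs t'.f γ i := by
        intro i
        rw [← Rs_tp]
        have e3 : ax E.tpS (ax E.tpS γ) = γ := by
          refine Finsupp.ext fun v => funext fun k => ?_
          have key : ∀ c : Cell, c.tp.tp = c := by decide
          rcases v with _ | v
          · rw [ax_none, ax_none]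
            exact key _
          · rw [ax_tp, ax_tp]
            exact key _
        rw [e3]
        congr 1
        funext h'
        exact (h.f h').symm
      rw [Finset.sum_congr rfl fun i _ => e2 i]
      by_cases hd : t'.Dm (ht γ)
      · rw [h.c γ f (t'.wd _ hd)]
      · rw [Finset.sum_eq_zero fun i _ => Rs_zero t' hd i, mul_zero, mul_zero]
    · rw [if_neg f, if_neg f]
  rw [tsum_congr e1, tsum_M_ax pw_tp (fun γ : FX I => t.χ0 γ * ∑ i, RsT t.f γ i)]
  refine tsum_congr fun γ => ?_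
  rw [mul_assoc]

open Classical in
/-- **(EX) and its transposed form** -/
theorem Tp.ex (h : Tp t t') {a b : ℝ}
    (h1 : |L.Mdf t.F - ∑' γ : FX I, if Fam g0 γ then M γ * t.χ0 γ * ∑ i, Rs t.f γ i else 0| ≤ a)
    (h2 : |L.Mdf t'.F - ∑' γ : FX I, if Fam g0 γ then M γ * t'.χ0 γ * ∑ i, Rs t'.f γ i else 0| ≤ b) :
    |(∑' γ : FX I, if Fam g0 γ then M γ * t.χ0 γ * ∑ i, Rs t.f γ i else 0) -
      ∑' γ : FX I, if Fam g0 γ then M γ * t.χ0 γ * ∑ i, RsT t.f γ i else 0| ≤ a + b := by
  rw [h.Mdf, h.sum] at h2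
  have := abs_sub_le (∑' γ : FX I, if Fam g0 γ then M γ * t.χ0 γ * ∑ i, Rs t.f γ i else 0) (L.Mdf t.F)
    (∑' γ : FX I, if Fam g0 γ then M γ * t.χ0 γ * ∑ i, RsT t.f γ i else 0)
  rw [abs_sub_comm] at h1
  linarith

end Pool.Agent.ROT.L
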