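import Pool.Agent.ROT.A6S
import Pool.Agent.ROT.A7Tst
import Pool.Agent.ROT.LSymX
import Pool.Agent.ROT.LApi

/-!
# ROT, row A6: the instance `hexP` against the families on the graph `g0`

`phi g` = the family on `g0` of a tuple `g` of honeycomb loops.
* `ht_phi`, `QL_phi` .. : heights and responses;
* **`rd_phi`** : column response minus row response = `hexP.Rd`;
* **`pt_phi`** : the pattern;
* **`fsum_phi`** : the sum over the families is `hexP.fsum`.
-/

set_option autoImplicit false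

namespace Pool.Agent.ROT.A6

open Pool.Agent.YBC (Dir)
open Pool.Agent.ROT.E (Cell IsUn Pt nx He Cfg Fm Mt Lp oc rv vp)
open Pool.Agent.ROT.E.Hx (HL hs vs Ny wl trc sq)

/-! ### translations and transposition of the responses -/

theorem tr_trc (z : Pt) (γ : Cfg) : E.tr (trc z γ) = trc z.swap (E.tr γ) := by
  ext v
  obtain ⟨x, y⟩ := v
  rw [E.tr_apply]
  have h1 := E.Hx.trc_apply z γ ((y, x) - z)
  rw [sub_add_cancel] at h1
  have h2 := E.Hx.trc_apply z.swap (E.tr γ) ((x, y) - z.swap)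
  rw [sub_add_cancel] at h2
  rw [h1, h2]
  show _ = E.tr γ (x - z.2, y - z.1)
  rw [E.tr_apply]
  rfl

theorem trc_at (z : Pt) (γ : Cfg) (x y : ℤ) : trc z γ (x + z.1, y + z.2) = γ (x, y) := E.Hx.trc_apply z γ (x, y)

theorem qL_trc {γ : Cfg} (l : HL γ) (z : Pt) : qL (trc z γ) = qL γ := by
  unfold qL
  rw [(hc_trc l z).1, ← (Equiv.addRight z.2).tsum_eq]
  apply tsum_congr
  intro r
  show L.tau (trc z γ (hc γ 0 + z.1, r + z.2)) = _
  rw [trc_at]

theorem qR_trc {γ : Cfg} (l : HL γ) (z : Pt) : qR (trc z γ) = qR γ := by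
  unfold qR
  rw [(hc_trc l z).2.1, ← (Equiv.addRight z.2).tsum_eq]
  apply tsum_congr
  intro r
  show L.tau (trc z γ (hc γ 1 + z.1, r + z.2)) = _
  rw [trc_at]

theorem CpT_trc {γ : Cfg} (l : HL γ) (z : Pt) (c : ℤ) : CpT (trc z γ) (c + z.1) ↔ CpT γ c := by
  have e : c + z.1 + 1 = (c + 1) + z.1 := by ring
  unfold CpT
  rw [(hc_trc l z).2.2.2, e, trc_at, trc_at]
  refine and_congr_right fun _ => and_congr_right fun _ => ?_
  constructor
  · intro h p hp hp2
    have := h (p + z) (by rw [E.Hx.trc_apply]; exact hp) (by show p.2 + z.2 = _; rw [hp2])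
    have e2 : (p + z).1 = p.1 + z.1 := rfl
    omega
  · intro h p hp hp2
    have h3 := E.Hx.trc_apply z γ (p - z)
    rw [sub_add_cancel] at h3
    rw [h3] at hp
    have := h (p - z) hp (by show p.2 - z.2 = _; omega)
    have e2 : (p - z).1 = p.1 - z.1 := rfl
    omega

theorem CpB_trc {γ : Cfg} (l : HL γ) (z : Pt) (c : ℤ) : CpB (trc z γ) (c + z.1) ↔ CpB γ c := by
  have e : c + z.1 + 1 = (c + 1) + z.1 := by ring
  unfold CpB
  rw [(hc_trc l z).2.2.1, e, trc_at, trc_at]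
  refine and_congr_right fun _ => and_congr_right fun _ => ?_
  constructor
  · intro h p hp hp2
    have := h (p + z) (by rw [E.Hx.trc_apply]; exact hp) (by show p.2 + z.2 = _; rw [hp2])
    have e2 : (p + z).1 = p.1 + z.1 := rfl
    omega
  · intro h p hp hp2
    have h3 := E.Hx.trc_apply z γ (p - z)
    rw [sub_add_cancel] at h3
    rw [h3] at hp
    have := h (p - z) hp (by show p.2 - z.2 = _; omega)
    have e2 : (p - z).1 = p.1 - z.1 := rfl
    omega

theorem cpT_trc {γ : Cfg} (l : HL γ) (z : Pt) : cpT (trc z γ) = cpT γ := by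
  unfold cpT
  have h : (∃ c, CpT (trc z γ) c) ↔ ∃ c, CpT γ c := by
    constructor
    · rintro ⟨c, h⟩
      exact ⟨c - z.1, (CpT_trc l z _).1 (by rw [sub_add_cancel]; exact h)⟩
    · rintro ⟨c, h⟩
      exact ⟨c + z.1, (CpT_trc l z _).2 h⟩
  by_cases he : ∃ c, CpT γ c
  · rw [if_pos (h.2 he), if_pos he]
  · rw [if_neg fun h' => he (h.1 h'), if_neg he]

theorem cpB_trc {γ : Cfg} (l : HL γ) (z : Pt) : cpB (trc z γ) = cpB γ := by
  unfold cpB
  have h : (∃ c, CpB (trc z γ) c) ↔ ∃ c, CpB γ c := by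
    constructor
    · rintro ⟨c, h⟩
      exact ⟨c - z.1, (CpB_trc l z _).1 (by rw [sub_add_cancel]; exact h)⟩
    · rintro ⟨c, h⟩
      exact ⟨c + z.1, (CpB_trc l z _).2 h⟩
  by_cases he : ∃ c, CpB γ c
  · rw [if_pos (h.2 he), if_pos he]
  · rw [if_neg fun h' => he (h.1 h'), if_neg he]

/-- **the responses are invariant under translations** -/
theorem hexP_Qtr (z : A.Z2) (p : hexP.P) (u : Fin 4) : hexP.Qf (hexP.tr z p) u = hexP.Qf p u := by
  show qf (trc z p.1) u = qf p.1 u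
  have l' := hl_tr p.2
  fin_cases u
  · exact qL_trc p.2 z
  · exact qR_trc p.2 z
  · show qL (E.tr (trc z p.1)) = qL (E.tr p.1)
    rw [tr_trc, qL_trc l']
  · show qR (E.tr (trc z p.1)) = qR (E.tr p.1)
    rw [tr_trc, qR_trc l']

theorem hexP_Ctr (z : A.Z2) (p : hexP.P) (u : Fin 4) : hexP.Cf (hexP.tr z p) u = hexP.Cf p u := by
  show cf (trc z p.1) u = cf p.1 u
  have l' := hl_tr p.2
  fin_cases u
  · show cpB (E.tr (trc z p.1)) = cpB (E.tr p.1)
    rw [tr_trc, cpB_trc l']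
  · show cpT (E.tr (trc z p.1)) = cpT (E.tr p.1)
    rw [tr_trc, cpT_trc l']
  · exact cpB_trc p.2 z
  · exact cpT_trc p.2 z

/-- **the responses under the transposition** -/
theorem hexP_Qsw (p : hexP.P) : hexP.Qf (hexP.sw p) 0 = hexP.Qf p 2 ∧ hexP.Qf (hexP.sw p) 1 = hexP.Qf p 3 ∧
    hexP.Qf (hexP.sw p) 2 = hexP.Qf p 0 ∧ hexP.Qf (hexP.sw p) 3 = hexP.Qf p 1 := by
  refine ⟨rfl, rfl, ?_, ?_⟩
  · show qL (E.tr (E.tr p.1)) = qL p.1
    rw [E.tr_tr]
  · show qR (E.tr (E.tr p.1)) = qR p.1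
    rw [E.tr_tr]

theorem hexP_Csw (p : hexP.P) : hexP.Cf (hexP.sw p) 0 = hexP.Cf p 2 ∧ hexP.Cf (hexP.sw p) 1 = hexP.Cf p 3 ∧
    hexP.Cf (hexP.sw p) 2 = hexP.Cf p 0 ∧ hexP.Cf (hexP.sw p) 3 = hexP.Cf p 1 := by
  refine ⟨?_, ?_, rfl, rfl⟩
  · show cpB (E.tr (E.tr p.1)) = cpB p.1
    rw [E.tr_tr]
  · show cpT (E.tr (E.tr p.1)) = cpT p.1
    rw [E.tr_tr]

/-! ### the family of a tuple -/

variable {I : Type} [Fintype I]

/-- the family on `g0` of a tuple -/
noncomputable def phi (g : I → HLs) : L.FX I := up (tup fun i => (g i).1)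

theorem phi_some (g : I → HLs) (v : Pt) (i : I) : phi g (some v) i = (g i).1 v := by
  unfold phi
  rw [up_some]
  rfl

theorem phi_none (g : I → HLs) : phi g none = 0 := up_none _

theorem co_phi (g : I → HLs) (i : I) : E.co (L.dn (phi g)) i = (g i).1 := by
  ext v
  show L.dn (phi g) v i = _
  rw [L.dn_apply, phi_some]

theorem phi_inj : Function.Injective (phi (I := I)) := by
  intro g g' h
  funext i
  apply Subtype.ext
  rw [← co_phi g i, h, co_phi]

theorem cl_phi (g : I → HLs) (i : I) : L.cl (phi g) i = (g i).1.support := by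
  ext v
  rw [L.mem_cl, phi_some, mem_supp]

theorem ht_phi (g : I → HLs) (i : I) : L.ht (phi g) i = hexP.ht (g i) := by
  unfold L.ht
  rw [cl_phi]
  rfl

theorem ht_phi' (g : I → HLs) : L.ht (phi g) = fun i => hexP.ht (g i) := funext fun i => ht_phi g i

theorem fam_phi {g : I → HLs} (h : PD g) : L.Fam L.g0 (phi g) := (fam_up _).2 (fam_tup (fun i => (g i).2) h)

theorem M_phi (g : I → HLs) : L.M (phi g) = E.M (fun _ => Real.pi / 8) (tup fun i => (g i).1) := L.emb_M _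

open Classical in
theorem M_phi' (g : I → HLs) (h : L.Fam L.g0 (phi g)) : L.M (phi g) = if PD g then ∏ i, hexP.M (g i) else 0 := by
  rw [M_phi]
  by_cases hp : PD g
  · rw [if_pos hp, M_tup hp]
    rfl
  · rw [if_neg hp, E.Hx.M_fam ((fam_up _).1 h), if_neg]
    rintro ⟨-, h2⟩
    apply hp
    intro i k hik
    have := h2 hik
    simp only [co_tup] at this
    exact this

theorem QL_phi (g : I → HLs) (i : I) : L.QL (phi g) i = hexP.Qf (g i) 0 := by
  unfold L.QL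
  show _ = qL (g i).1
  unfold qL
  rw [ht_phi]
  exact tsum_congr fun r => by rw [phi_some]; rfl

theorem QR_phi (g : I → HLs) (i : I) : L.QR (phi g) i = hexP.Qf (g i) 1 := by
  unfold L.QR
  show _ = qR (g i).1
  unfold qR
  rw [ht_phi]
  exact tsum_congr fun r => by rw [phi_some]; rfl

theorem tau_tp (c : Cell) : L.tau c.tp = L.tau c := by cases c <;> rfl

theorem QB_phi (g : I → HLs) (i : I) : L.QB (phi g) i = hexP.Qf (g i) 2 := by
  unfold L.QB
  show _ = qL (E.tr (g i).1)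
  unfold qL
  rw [ht_phi, (hc_sw _).1]
  exact tsum_congr fun r => by rw [phi_some, E.tr_apply, tau_tp]; rfl

theorem QT_phi (g : I → HLs) (i : I) : L.QT (phi g) i = hexP.Qf (g i) 3 := by
  unfold L.QT
  show _ = qR (E.tr (g i).1)
  unfold qR
  rw [ht_phi, (hc_sw _).2.1]
  exact tsum_congr fun r => by rw [phi_some, E.tr_apply, tau_tp]; rfl

theorem cupT_phi (g : I → HLs) (i : I) (c : ℤ) : L.CupT (phi g) i c ↔ CpT (g i).1 c := by
  unfold L.CupT CpT
  simp only [ht_phi, phi_some]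
  rfl

theorem cupB_phi (g : I → HLs) (i : I) (c : ℤ) : L.CupB (phi g) i c ↔ CpB (g i).1 c := by
  unfold L.CupB CpB
  simp only [ht_phi, phi_some]
  rfl

theorem tp_iff {c c' : Cell} : c.tp = c' ↔ c = c'.tp := by
  constructor
  · rintro rfl
    cases c <;> rfl
  · rintro rfl
    cases c' <;> rfl

theorem cupR_phi (g : I → HLs) (i : I) (c : ℤ) : L.CupR (phi g) i c ↔ CpT (E.tr (g i).1) c := by
  unfold L.CupR CpT
  rw [(hc_sw _).2.2.2, E.tr_apply, E.tr_apply, tp_iff, tp_iff]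
  simp only [ht_phi, phi_some]
  refine and_congr Iff.rfl (and_congr Iff.rfl ?_)
  constructor
  · rintro h ⟨x, y⟩ hp h2
    rw [E.tr_apply, tp_ne] at hp
    exact h (y, x) hp h2
  · rintro h ⟨x, y⟩ hp h2
    exact h (y, x) (by rw [E.tr_apply, tp_ne]; exact hp) h2

theorem cupL_phi (g : I → HLs) (i : I) (c : ℤ) : L.CupL (phi g) i c ↔ CpB (E.tr (g i).1) c := by
  unfold L.CupL CpB
  rw [(hc_sw _).2.2.1, E.tr_apply, E.tr_apply, tp_iff, tp_iff]
  simp only [ht_phi, phi_some]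
  refine and_congr Iff.rfl (and_congr Iff.rfl ?_)
  constructor
  · rintro h ⟨x, y⟩ hp h2
    rw [E.tr_apply, tp_ne] at hp
    exact h (y, x) hp h2
  · rintro h ⟨x, y⟩ hp h2
    exact h (y, x) (by rw [E.tr_apply, tp_ne]; exact hp) h2

open Classical in
/-- the column of a cup as a sum -/
theorem cup_sum {P : ℤ → Prop} {x : ℤ} (h : ∀ c, P c → c = x) :
    ∑' c : ℤ, (if P c then (c : ℝ) else 0) = if ∃ c, P c then (x : ℝ) else 0 := by
  by_cases he : ∃ c, P c
  · obtain ⟨c, hc⟩ := he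
    have e := h c hc
    subst e
    rw [tsum_eq_single c, if_pos hc, if_pos ⟨c, hc⟩]
    intro c' hc'
    rw [if_neg fun h' => hc' (h c' h')]
  · rw [if_neg he]
    have : ∀ c : ℤ, (if P c then (c : ℝ) else 0) = 0 := fun c => if_neg fun hc => he ⟨c, hc⟩
    simp only [this, tsum_zero]

theorem cT_phi (g : I → HLs) (i : I) : L.kk * L.cT (phi g) i = hexP.ex (g i) 3 * hexP.Cf (g i) 3 := by
  classical
  unfold L.cT
  simp only [cupT_phi]
  rw [cup_sum (x := xe (g i).1 3) fun c hc => hc.xe.symm]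
  show _ = (xe (g i).1 3 : ℝ) * cpT (g i).1
  unfold cpT
  split_ifs <;> ring

theorem cB_phi (g : I → HLs) (i : I) : L.kk * L.cB (phi g) i = hexP.ex (g i) 2 * hexP.Cf (g i) 2 := by
  classical
  unfold L.cB
  simp only [cupB_phi]
  rw [cup_sum (x := xe (g i).1 2) fun c hc => hc.xe.symm]
  show _ = (xe (g i).1 2 : ℝ) * cpB (g i).1
  unfold cpB
  split_ifs <;> ring

theorem cR_phi (g : I → HLs) (i : I) : L.kk * L.cR (phi g) i = hexP.ex (g i) 1 * hexP.Cf (g i) 1 := by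
  classical
  unfold L.cR
  simp only [cupR_phi]
  rw [cup_sum (x := xe (g i).1 1) fun c hc => by rw [← (xe_sw _).2.2.2]; exact hc.xe.symm]
  show _ = (xe (g i).1 1 : ℝ) * cpT (E.tr (g i).1)
  unfold cpT
  split_ifs <;> ring

theorem cL_phi (g : I → HLs) (i : I) : L.kk * L.cL (phi g) i = hexP.ex (g i) 0 * hexP.Cf (g i) 0 := by
  classical
  unfold L.cL
  simp only [cupL_phi]
  rw [cup_sum (x := xe (g i).1 0) fun c hc => by rw [← (xe_sw _).2.2.1]; exact hc.xe.symm]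
  show _ = (xe (g i).1 0 : ℝ) * cpB (E.tr (g i).1)
  unfold cpB
  split_ifs <;> ring

/-- **column response minus row response** -/
theorem rd_phi [DecidableEq I] (f : (I → Fin 4 → ℤ) → ℝ) (g : I → HLs) (i : I) :
    L.Rs f (phi g) i - L.RsT f (phi g) i = hexP.Rd f g i := by
  have hu : ∀ (h : I → Fin 4 → ℤ) (u : Fin 4) (d : ℤ), L.upd h i u (h i u + d) = A.PSys.mv h i u d := by
    intro h u d
    unfold L.upd A.PSys.mv
    congr!
  have e3 : L.upd (L.ht (phi g)) i 3 (L.ht (phi g) i 3 - 1) = A.PSys.mv (L.ht (phi g)) i 3 (-1) := hu _ 3 (-1)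
  have e2 : L.upd (L.ht (phi g)) i 2 (L.ht (phi g) i 2 + 1) = A.PSys.mv (L.ht (phi g)) i 2 1 := hu _ 2 1
  have e0 : L.upd (L.ht (phi g)) i 0 (L.ht (phi g) i 0 - 1) = A.PSys.mv (L.ht (phi g)) i 0 (-1) := hu _ 0 (-1)
  have e1 : L.upd (L.ht (phi g)) i 1 (L.ht (phi g) i 1 + 1) = A.PSys.mv (L.ht (phi g)) i 1 1 := hu _ 1 1
  have e3' : L.upd (L.ht (phi g)) i 3 (L.ht (phi g) i 3 + 1) = A.PSys.mv (L.ht (phi g)) i 3 1 := hu _ 3 1
  have e2' : L.upd (L.ht (phi g)) i 2 (L.ht (phi g) i 2 - 1) = A.PSys.mv (L.ht (phi g)) i 2 (-1) := hu _ 2 (-1)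
  have e0' : L.upd (L.ht (phi g)) i 0 (L.ht (phi g) i 0 + 1) = A.PSys.mv (L.ht (phi g)) i 0 1 := hu _ 0 1
  have e1' : L.upd (L.ht (phi g)) i 1 (L.ht (phi g) i 1 - 1) = A.PSys.mv (L.ht (phi g)) i 1 (-1) := hu _ 1 (-1)
  unfold L.Rs L.RsT A.PSys.Rd
  rw [Fin.sum_univ_four, e3, e2, e0, e1, e3', e2', e0', e1', mul_add, mul_add, ← mul_assoc, ← mul_assoc, ← mul_assoc,
    ← mul_assoc, cT_phi, cB_phi, cR_phi, cL_phi, QL_phi, QR_phi, QB_phi, QT_phi, ← ht_phi' g]
  have s0 : A.PSys.sg 0 = -1 := if_pos (Or.inl rfl)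
  have s1 : A.PSys.sg 1 = -1 := if_pos (Or.inr rfl)
  have s2 : A.PSys.sg 2 = 1 := if_neg (by decide)
  have s3 : A.PSys.sg 3 = 1 := if_neg (by decide)
  have p0 : A.PSys.po (hexP.ht (g i)) 0 = hexP.ht (g i) 0 - 1 := if_pos (Or.inl rfl)
  have p1 : A.PSys.po (hexP.ht (g i)) 1 = hexP.ht (g i) 1 := if_neg (by decide)
  have p2 : A.PSys.po (hexP.ht (g i)) 2 = hexP.ht (g i) 2 - 1 := if_pos (Or.inr rfl)
  have p3 : A.PSys.po (hexP.ht (g i)) 3 = hexP.ht (g i) 3 := if_neg (by decide)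
  have o0 : ∀ h, A.PSys.dO f h i 0 = f h - f (A.PSys.mv h i 0 (-1)) := fun h => if_pos (Or.inl rfl)
  have o1 : ∀ h, A.PSys.dO f h i 1 = f (A.PSys.mv h i 1 1) - f h := fun h => if_neg (by decide)
  have o2 : ∀ h, A.PSys.dO f h i 2 = f h - f (A.PSys.mv h i 2 (-1)) := fun h => if_pos (Or.inr rfl)
  have o3 : ∀ h, A.PSys.dO f h i 3 = f (A.PSys.mv h i 3 1) - f h := fun h => if_neg (by decide)
  have i0 : ∀ h, A.PSys.dI f h i 0 = f (A.PSys.mv h i 0 1) - f h := fun h => if_pos (Or.inl rfl)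
  have i1 : ∀ h, A.PSys.dI f h i 1 = f h - f (A.PSys.mv h i 1 (-1)) := fun h => if_neg (by decide)
  have i2 : ∀ h, A.PSys.dI f h i 2 = f (A.PSys.mv h i 2 1) - f h := fun h => if_pos (Or.inr rfl)
  have i3 : ∀ h, A.PSys.dI f h i 3 = f h - f (A.PSys.mv h i 3 (-1)) := fun h => if_neg (by decide)
  rw [s0, s1, s2, s3, p0, p1, p2, p3, o0, o1, o2, o3, i0, i1, i2, i3, ht_phi]
  push_cast
  ring

/-! ### the pattern -/

theorem z2_one {a : ZMod 2} {b : Bool} : (a = if b then 1 else 0) ↔ (a = 1 ↔ b = true) := by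
  revert a b
  decide

open Classical in
/-- **the pattern** of a wide family -/
theorem pt_phi {g : I → HLs} (h : PD g) (w : L.Wd (L.ht (phi g))) (τ : I → I → Bool) :
    L.chi τ 0 (phi g) = if hexP.Pt τ g then 1 else 0 := by
  have f := fam_phi h
  have hn := L.wide_ne f w
  have key : ∀ i k, i ≠ k → (L.pf 0 (phi g) k i = 1 ↔ Ins (g i).1 (g k).1) := by
    intro i k hik
    have h1 : ∀ x : He, oc (g i).1 x → L.pf 0 (phi g) k i = E.sd (g k).1 x := by
      intro x hx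
      have := L.pf_true f hn (Ne.symm hik) (L.lns_wide f w 0 i) (h := x) (by rw [co_phi]; exact hx)
      rw [this, co_phi]
    constructor
    · intro e
      obtain ⟨v, hv⟩ := supp_ne (g i).2
      obtain ⟨d, ho⟩ := ex_oc hv
      have h2 := h1 (v, d) ho
      rw [e] at h2
      exact ⟨h hik, (v, d), ho, h2.symm⟩
    · rintro ⟨-, k', hk', e⟩
      rw [h1 k' hk', e]
  have hiff : (∀ i k, i ≠ k → L.pf 0 (phi g) k i = if τ i k then 1 else 0) ↔ hexP.Pt τ g := by
    constructor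
    · intro hp
      refine ⟨fun i k hik => h hik, fun i k hik => ?_⟩
      exact (key i k hik).symm.trans (z2_one.1 (hp i k hik))
    · rintro ⟨-, hp⟩ i k hik
      exact z2_one.2 ((key i k hik).trans (hp i k hik))
  unfold L.chi
  by_cases hP : hexP.Pt τ g
  · rw [if_pos (hiff.2 hP), if_pos hP]
  · rw [if_neg fun h' => hP (hiff.1 h'), if_neg hP]

open Classical in
/-- the finite sum as an infinite sum -/
theorem fsum_tsum (S : A.PSys) [DecidableEq I] (n : ℕ) (τ : I → I → Bool) {Θ : (I → S.P) → ℝ}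
    (h : ∀ g, S.Pt τ g → Θ g ≠ 0 → ∀ i u, |S.ht (g i) u| ≤ n) :
    S.fsum n τ Θ = ∑' g : I → S.P, if S.Pt τ g then (∏ i, S.M (g i)) * Θ g else 0 := by
  unfold A.PSys.fsum
  symm
  refine tsum_eq_sum' ?_
  intro g hg
  rw [Function.mem_support] at hg
  have h3 : S.Pt τ g := by
    by_contra hc
    exact hg (if_neg hc)
  rw [if_pos h3] at hg
  rw [Finset.mem_coe, Fintype.mem_piFinset]
  intro i
  rw [S.mem_box]
  exact h g h3 (fun e => hg (by rw [e, mul_zero])) i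

open Classical in
/-- **the sum over the families** -/
theorem fsum_phi [DecidableEq I] (n : ℕ) (τ : I → I → Bool) {Θ : L.FX I → ℝ}
    (h1 : ∀ γ, L.Fam L.g0 γ → Θ γ ≠ 0 → L.Wd (L.ht γ) ∧ ∀ i a, |L.ht γ i a| ≤ n) :
    (∑' γ : L.FX I, if L.Fam L.g0 γ then L.M γ * L.chi τ 0 γ * Θ γ else 0) =
      hexP.fsum n τ fun g => Θ (phi g) := by
  set F : L.FX I → ℝ := fun γ => if L.Fam L.g0 γ then L.M γ * L.chi τ 0 γ * Θ γ else 0 with hF
  have hsup : Function.support F ⊆ Set.range (phi (I := I)) := by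
    intro γ hγ
    rw [Function.mem_support, hF] at hγ
    have hf : L.Fam L.g0 γ := by
      by_contra hc
      exact hγ (if_neg hc)
    simp only [if_pos hf] at hγ
    have hΘ : Θ γ ≠ 0 := fun e => hγ (by rw [e, mul_zero])
    have hM : L.M γ ≠ 0 := fun e => hγ (by rw [e, zero_mul, zero_mul])
    obtain ⟨w, -⟩ := h1 γ hf hΘ
    have hnone := (L.wd_gd hf w).1
    have e1 : up (L.dn γ) = γ := L.emb_dn hnone
    have hf2 : E.Fam (L.dn γ) := (fam_up _).1 (by rw [e1]; exact hf)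
    have hM2 : E.M (fun _ => Real.pi / 8) (L.dn γ) ≠ 0 := by
      rw [← L.emb_M]
      show L.M (up (L.dn γ)) ≠ 0
      rw [e1]
      exact hM
    obtain ⟨g, hg⟩ := tupE.surjective ⟨L.dn γ, hf2, hM2⟩
    refine ⟨g.1, ?_⟩
    have : tup (fun i => (g.1 i).1) = L.dn γ := congrArg Subtype.val hg
    show up (tup fun i => (g.1 i).1) = γ
    rw [this, e1]
  have e2 : ∑' g : I → HLs, F (phi g) = ∑' γ, F γ := phi_inj.tsum_eq hsup
  show ∑' γ, F γ = _
  rw [← e2]
  have e3 : ∀ g : I → HLs, F (phi g) = if hexP.Pt τ g then (∏ i, hexP.M (g i)) * Θ (phi g) else 0 := by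
    intro g
    by_cases hp : PD g
    · have f := fam_phi hp
      simp only [hF, if_pos f, M_phi' g f, if_pos hp]
      by_cases hΘ : Θ (phi g) = 0
      · rw [hΘ, mul_zero, mul_zero, ite_self]
      · rw [pt_phi hp (h1 _ f hΘ).1]
        split_ifs <;> ring
    · have h3 : ¬ hexP.Pt τ g := fun h => hp fun i k hik => h.1 i k hik
      rw [if_neg h3]
      by_cases f : L.Fam L.g0 (phi g)
      · simp only [hF, if_pos f, M_phi' g f, if_neg hp, zero_mul]
      · simp only [hF, if_neg f]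
  rw [tsum_congr e3]
  refine (fsum_tsum hexP n τ (Θ := fun g => Θ (phi g)) fun g h3 hΘ i u => ?_).symm
  have := (h1 _ (fam_phi fun i k hik => h3.1 i k hik) hΘ).2 i u
  rwa [ht_phi] at this

end Pool.Agent.ROT.A6
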