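import Pool.Agent.ROT.EDefs

/-!
# ROT, linear response, row L5: the tail of the number of cells in the leftmost column

`bump L S γ`: the vertical edges of the loop `γ` in its leftmost column `L`, at the rows of `S`, are pushed into the column
`L - 1`. The map `(γ, S) ↦ bump L S γ` is injective and costs a factor at least `zc ^ 4` for every element of `S`.
-/

set_option autoImplicit false

namespace Pool.Agent.ROT.LT

open Pool.Agent.EXL (Wt)
open Pool.Agent.YBC (Dir)
open Pool.Agent.UNI (wR)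
open Pool.Agent.ROT.E
open scoped ENNReal

/-- the weight of one configuration -/
noncomputable def M1 (w : Wt ℝ) (γ : Cfg) : ℝ := γ.prod fun _ c => c.wt w

/-- the leftmost column is `L` -/
def Lf (γ : Cfg) (L : ℤ) : Prop := (∃ r, γ (L, r) ≠ 0) ∧ ∀ v, γ v ≠ 0 → L ≤ v.1

/-- the lower cell of a bump -/
def b1 : Cell → Cell
  | .v => .sw
  | .ne => .h
  | c => c

/-- the upper cell of a bump -/
def b2 : Cell → Cell
  | .v => .nw
  | .se => .h
  | c => c

/-- the local states after the bumps -/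
def bF (L : ℤ) (S : Finset ℤ) (γ : Cfg) (v : Pt) : Cell :=
  if v.1 = L then (if v.2 ∈ S then b1 (γ v) else if v.2 - 1 ∈ S then b2 (γ v) else γ v)
  else if v.1 = L - 1 then (if v.2 ∈ S then .ne else if v.2 - 1 ∈ S then .se else γ v)
  else γ v

/-- **the bumps** -/
noncomputable def bump (L : ℤ) (S : Finset ℤ) (γ : Cfg) : Cfg :=
  Finsupp.onFinset (γ.support ∪ (S ∪ S.image fun r => r + 1).image fun r => (L - 1, r)) (bF L S γ) (by
    classical
    intro v hv
    rw [Finset.mem_union]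
    by_cases h : γ v = 0
    · right
      have h0 : γ v = Cell.o := h
      unfold bF at hv
      rw [h0] at hv
      rw [Finset.mem_image]
      by_cases h1 : v.1 = L
      · rw [if_pos h1] at hv
        split_ifs at hv <;> exact absurd rfl hv
      · rw [if_neg h1] at hv
        by_cases h2 : v.1 = L - 1
        · rw [if_pos h2] at hv
          by_cases h3 : v.2 ∈ S
          · exact ⟨v.2, Finset.mem_union_left _ h3, Prod.ext h2.symm rfl⟩
          · rw [if_neg h3] at hv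
            by_cases h4 : v.2 - 1 ∈ S
            · exact ⟨v.2, Finset.mem_union_right _ (Finset.mem_image.2 ⟨v.2 - 1, h4, by ring⟩), Prod.ext h2.symm rfl⟩
            · rw [if_neg h4] at hv
              exact absurd rfl hv
        · rw [if_neg h2] at hv
          exact absurd rfl hv
    · exact Or.inl (Finsupp.mem_support_iff.2 h))

@[simp] theorem bump_apply (L : ℤ) (S : Finset ℤ) (γ : Cfg) (v : Pt) : bump L S γ v = bF L S γ v := rfl

/-- the admissible sets of vertical edges: rows of one parity -/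
structure Ad (L : ℤ) (S : Finset ℤ) (γ : Cfg) (e : ℤ) : Prop where
  lp : Lp γ
  lf : Lf γ L
  par : ∀ r ∈ S, r % 2 = e
  oc : ∀ r ∈ S, (γ (L, r)).oc .N

variable {L e : ℤ} {S : Finset ℤ} {γ : Cfg}

theorem o_of_lt (h : Lf γ L) {v : Pt} (hv : v.1 < L) : γ v = .o := by
  by_contra h0
  exact absurd (h.2 v h0) (by omega)

theorem not_oc_o (d : Dir) : ¬ Cell.oc .o d := by
  cases d <;> decide

theorem noW (h : Lp γ) (hL : Lf γ L) (r : ℤ) : ¬ (γ (L, r)).oc .W := by
  intro h1
  have h2 : oc γ (rv ((L, r), Dir.W)) := (h.mt ((L, r), Dir.W) (Set.mem_univ _) (Set.mem_univ _)).1 h1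
  have h3 : oc γ ((L - 1, r), Dir.E) := h2
  unfold E.oc at h3
  rw [o_of_lt hL (v := (L - 1, r)) (by show L - 1 < L; omega)] at h3
  exact not_oc_o _ h3

theorem colL (h : Lp γ) (hL : Lf γ L) (r : ℤ) : γ (L, r) = .o ∨ γ (L, r) = .v ∨ γ (L, r) = .ne ∨ γ (L, r) = .se := by
  have h1 := noW h hL r
  cases hc : γ (L, r) <;> rw [hc] at h1 <;> first | exact absurd (by decide) h1 | simp

theorem upS (h : Lp γ) {r : ℤ} (h1 : (γ (L, r)).oc .N) : (γ (L, r + 1)).oc .S :=
  (h.mt ((L, r), Dir.N) (Set.mem_univ _) (Set.mem_univ _)).1 h1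

namespace Ad

theorem ns (h : Ad L S γ e) {r : ℤ} (hr : r ∈ S) : r + 1 ∉ S := by
  intro h1
  have h2 := h.par r hr
  have h3 := h.par _ h1
  omega

theorem ns' (h : Ad L S γ e) {r : ℤ} (hr : r - 1 ∈ S) : r ∉ S := by
  intro h1
  have h2 := h.par _ hr
  have h3 := h.par _ h1
  omega

theorem lo (h : Ad L S γ e) {r : ℤ} (hr : r ∈ S) : γ (L, r) = .v ∨ γ (L, r) = .ne := by
  have h1 := h.oc r hr
  rcases colL h.lp h.lf r with h2 | h2 | h2 | h2 <;> rw [h2] at h1 <;> first | exact absurd h1 (by decide) | simp [h2]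

theorem hi (h : Ad L S γ e) {r : ℤ} (hr : r ∈ S) : γ (L, r + 1) = .v ∨ γ (L, r + 1) = .se := by
  have h1 := upS h.lp (h.oc r hr)
  rcases colL h.lp h.lf (r + 1) with h2 | h2 | h2 | h2 <;> rw [h2] at h1 <;> first | exact absurd h1 (by decide) | simp [h2]

theorem hi' (h : Ad L S γ e) {r : ℤ} (hr : r - 1 ∈ S) : γ (L, r) = .v ∨ γ (L, r) = .se := by
  have := h.hi hr
  rwa [sub_add_cancel] at this

end Ad

/-! ### the new states -/

theorem bF_lo {r : ℤ} (hr : r ∈ S) : bF L S γ (L, r) = b1 (γ (L, r)) := by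
  unfold bF
  rw [if_pos rfl, if_pos hr]

theorem bF_hi (h : Ad L S γ e) {r : ℤ} (hr : r - 1 ∈ S) : bF L S γ (L, r) = b2 (γ (L, r)) := by
  unfold bF
  rw [if_pos rfl, if_neg (h.ns' hr), if_pos hr]

theorem bF_no {r : ℤ} (hr : r ∉ S) (hr' : r - 1 ∉ S) : bF L S γ (L, r) = γ (L, r) := by
  unfold bF
  rw [if_pos rfl, if_neg hr, if_neg hr']

theorem bF_nlo {r : ℤ} (hr : r ∈ S) : bF L S γ (L - 1, r) = .ne := by
  unfold bF
  rw [if_neg (by show L - 1 ≠ L; omega), if_pos rfl, if_pos hr]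

theorem bF_nhi (h : Ad L S γ e) {r : ℤ} (hr : r - 1 ∈ S) : bF L S γ (L - 1, r) = .se := by
  unfold bF
  rw [if_neg (by show L - 1 ≠ L; omega), if_pos rfl, if_neg (h.ns' hr), if_pos hr]

theorem bF_nno (h : Ad L S γ e) {r : ℤ} (hr : r ∉ S) (hr' : r - 1 ∉ S) : bF L S γ (L - 1, r) = .o := by
  unfold bF
  rw [if_neg (by show L - 1 ≠ L; omega), if_pos rfl, if_neg hr, if_neg hr']
  exact o_of_lt h.lf (by show L - 1 < L; omega)

theorem bF_ot {v : Pt} (h1 : v.1 ≠ L) (h2 : v.1 ≠ L - 1) : bF L S γ v = γ v := by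
  unfold bF
  rw [if_neg h1, if_neg h2]

/-- the image of a half edge -/
def img (L : ℤ) (S : Finset ℤ) (h : He) : He :=
  if h.1.1 = L ∧ ((h.1.2 ∈ S ∧ h.2 = .N) ∨ (h.1.2 - 1 ∈ S ∧ h.2 = .S)) then (h.1, .W) else h

theorem img_lo {r : ℤ} (hr : r ∈ S) : img L S ((L, r), .N) = ((L, r), .W) := by
  unfold img
  rw [if_pos ⟨rfl, Or.inl ⟨hr, rfl⟩⟩]

theorem img_hi {r : ℤ} (hr : r - 1 ∈ S) : img L S ((L, r), .S) = ((L, r), .W) := by
  unfold img
  rw [if_pos ⟨rfl, Or.inr ⟨hr, rfl⟩⟩]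

theorem img_ot {h : He} (hh : h.1.1 ≠ L) : img L S h = h := by
  unfold img
  rw [if_neg fun x => hh x.1]

theorem img_E {v : Pt} : img L S (v, .E) = (v, .E) := by
  unfold img
  rw [if_neg]
  rintro ⟨-, ⟨-, h⟩ | ⟨-, h⟩⟩ <;> cases h

theorem img_W {v : Pt} : img L S (v, .W) = (v, .W) := by
  unfold img
  rw [if_neg]
  rintro ⟨-, ⟨-, h⟩ | ⟨-, h⟩⟩ <;> cases h

theorem img_N {r : ℤ} (hr : r ∉ S) : img L S ((L, r), .N) = ((L, r), .N) := by
  unfold img
  rw [if_neg]
  rintro ⟨-, ⟨h, -⟩ | ⟨-, h⟩⟩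
  · exact hr h
  · cases h

theorem img_S {r : ℤ} (hr : r - 1 ∉ S) : img L S ((L, r), .S) = ((L, r), .S) := by
  unfold img
  rw [if_neg]
  rintro ⟨-, ⟨-, h⟩ | ⟨h, -⟩⟩
  · cases h
  · exact hr h

/-- the half edges which are moved -/
def sp (L : ℤ) (S : Finset ℤ) (h : He) : Prop := h.1.1 = L ∧ ((h.1.2 ∈ S ∧ h.2 = .N) ∨ (h.1.2 - 1 ∈ S ∧ h.2 = .S))

theorem img_sp {h : He} (hh : sp L S h) : img L S h = (h.1, .W) := if_pos hh

theorem img_nsp {h : He} (hh : ¬ sp L S h) : img L S h = h := if_neg hh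

theorem rv_rv (h : He) : rv (rv h) = h := by
  obtain ⟨⟨x, y⟩, d⟩ := h
  cases d <;> simp [rv, nx, Dir.op]

theorem sp_rv {h : He} : sp L S (rv h) ↔ sp L S h := by
  obtain ⟨⟨x, y⟩, d⟩ := h
  cases d <;> simp [rv, nx, Dir.op, sp]

theorem oc_ne {v : Pt} {d : Dir} (h : oc γ (v, d)) : γ v ≠ 0 := by
  intro h0
  have h1 : (γ v).oc d := h
  rw [h0] at h1
  exact not_oc_o d h1

/-- passages are preserved -/
theorem vp_img (h : Ad L S γ e) {k : He} (hk : oc γ k) :
    oc (bump L S γ) (img L S k) ∧ vp (bump L S γ) (img L S k) = img L S (vp γ k) := by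
  obtain ⟨⟨x, r⟩, d⟩ := k
  have hk' : (γ (x, r)).oc d := hk
  by_cases hx : x = L
  · subst hx
    by_cases h1 : r ∈ S
    · have hb : bump x S γ (x, r) = b1 (γ (x, r)) := bF_lo h1
      have h1' : r - 1 ∉ S := fun hh => h.ns' hh h1
      rcases h.lo h1 with h2 | h2
      · rw [h2] at hb hk'
        cases d
        · exact absurd hk' (by decide)
        · rw [img_lo h1]
          refine ⟨?_, ?_⟩
          · unfold E.oc
            rw [hb]
            dsimp only
            decide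
          · unfold vp
            rw [hb, h2]
            exact (img_S h1').symm
        · exact absurd hk' (by decide)
        · rw [img_S h1']
          refine ⟨?_, ?_⟩
          · unfold E.oc
            rw [hb]
            dsimp only
            decide
          · unfold vp
            rw [hb, h2]
            exact (img_lo h1).symm
      · rw [h2] at hb hk'
        cases d
        · rw [img_E]
          refine ⟨?_, ?_⟩
          · unfold E.oc
            rw [hb]
            dsimp only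
            decide
          · unfold vp
            rw [hb, h2]
            exact (img_lo h1).symm
        · rw [img_lo h1]
          refine ⟨?_, ?_⟩
          · unfold E.oc
            rw [hb]
            dsimp only
            decide
          · unfold vp
            rw [hb, h2]
            exact img_E.symm
        · exact absurd hk' (by decide)
        · exact absurd hk' (by decide)
    · by_cases h3 : r - 1 ∈ S
      · have hb : bump x S γ (x, r) = b2 (γ (x, r)) := bF_hi h h3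
        rcases h.hi' h3 with h2 | h2
        · rw [h2] at hb hk'
          cases d
          · exact absurd hk' (by decide)
          · rw [img_N h1]
            refine ⟨?_, ?_⟩
            · unfold E.oc
              rw [hb]
              dsimp only
              decide
            · unfold vp
              rw [hb, h2]
              exact (img_hi h3).symm
          · exact absurd hk' (by decide)
          · rw [img_hi h3]
            refine ⟨?_, ?_⟩
            · unfold E.oc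
              rw [hb]
              dsimp only
              decide
            · unfold vp
              rw [hb, h2]
              exact (img_N h1).symm
        · rw [h2] at hb hk'
          cases d
          · rw [img_E]
            refine ⟨?_, ?_⟩
            · unfold E.oc
              rw [hb]
              dsimp only
              decide
            · unfold vp
              rw [hb, h2]
              exact (img_hi h3).symm
          · exact absurd hk' (by decide)
          · exact absurd hk' (by decide)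
          · rw [img_hi h3]
            refine ⟨?_, ?_⟩
            · unfold E.oc
              rw [hb]
              dsimp only
              decide
            · unfold vp
              rw [hb, h2]
              exact img_E.symm
      · have hb : bump x S γ (x, r) = γ (x, r) := bF_no h1 h3
        have hn : ∀ d : Dir, ¬ sp x S ((x, r), d) := by
          rintro d ⟨-, ⟨hh, -⟩ | ⟨hh, -⟩⟩
          · exact h1 hh
          · exact h3 hh
        rw [img_nsp (hn d)]
        refine ⟨?_, ?_⟩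
        · unfold E.oc
          rw [hb]
          exact hk'
        · unfold vp
          rw [hb, img_nsp (hn _)]
  · have hL : L ≤ x := h.lf.2 (x, r) (oc_ne hk)
    have hb : bump L S γ (x, r) = γ (x, r) := bF_ot hx (by show x ≠ L - 1; omega)
    rw [img_ot hx]
    refine ⟨?_, ?_⟩
    · unfold E.oc
      rw [hb]
      exact hk'
    · unfold vp
      rw [hb, img_ot (by exact hx)]

/-- the used half edges after the bumps -/
theorem oc_new (h : Ad L S γ e) {k : He} (hk : oc (bump L S γ) k) : (∃ k0, oc γ k0 ∧ k = img L S k0) ∨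
    (∃ r ∈ S, k = ((L - 1, r), .E) ∨ k = ((L - 1, r), .N)) ∨ (∃ r, r - 1 ∈ S ∧ (k = ((L - 1, r), .E) ∨ k = ((L - 1, r), .S))) := by
  obtain ⟨⟨x, r⟩, d⟩ := k
  have hk' : (bump L S γ (x, r)).oc d := hk
  by_cases hx : x = L
  · subst hx
    left
    by_cases h1 : r ∈ S
    · have hb : bump x S γ (x, r) = b1 (γ (x, r)) := bF_lo h1
      have h1' : r - 1 ∉ S := fun hh => h.ns' hh h1
      have hN : oc γ ((x, r), .N) := h.oc r h1
      rcases h.lo h1 with h2 | h2
      · rw [hb, h2] at hk'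
        cases d
        · exact absurd hk' (by decide)
        · exact absurd hk' (by decide)
        · exact ⟨((x, r), .N), hN, (img_lo h1).symm⟩
        · refine ⟨((x, r), .S), ?_, (img_S h1').symm⟩
          unfold E.oc
          rw [h2]
          dsimp only
          decide
      · rw [hb, h2] at hk'
        cases d
        · refine ⟨((x, r), .E), ?_, img_E.symm⟩
          unfold E.oc
          rw [h2]
          dsimp only
          decide
        · exact absurd hk' (by decide)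
        · exact ⟨((x, r), .N), hN, (img_lo h1).symm⟩
        · exact absurd hk' (by decide)
    · by_cases h3 : r - 1 ∈ S
      · have hb : bump x S γ (x, r) = b2 (γ (x, r)) := bF_hi h h3
        have hS : oc γ ((x, r), .S) := by
          have := upS h.lp (h.oc _ h3)
          rw [sub_add_cancel] at this
          exact this
        rcases h.hi' h3 with h2 | h2
        · rw [hb, h2] at hk'
          cases d
          · exact absurd hk' (by decide)
          · refine ⟨((x, r), .N), ?_, (img_N h1).symm⟩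
            unfold E.oc
            rw [h2]
            dsimp only
            decide
          · exact ⟨((x, r), .S), hS, (img_hi h3).symm⟩
          · exact absurd hk' (by decide)
        · rw [hb, h2] at hk'
          cases d
          · refine ⟨((x, r), .E), ?_, img_E.symm⟩
            unfold E.oc
            rw [h2]
            dsimp only
            decide
          · exact absurd hk' (by decide)
          · exact ⟨((x, r), .S), hS, (img_hi h3).symm⟩
          · exact absurd hk' (by decide)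
      · have hb : bump x S γ (x, r) = γ (x, r) := bF_no h1 h3
        rw [hb] at hk'
        refine ⟨((x, r), d), hk', (img_nsp ?_).symm⟩
        rintro ⟨-, ⟨hh, -⟩ | ⟨hh, -⟩⟩
        · exact h1 hh
        · exact h3 hh
  · by_cases hx1 : x = L - 1
    · right
      subst hx1
      by_cases h1 : r ∈ S
      · left
        have hb : bump L S γ (L - 1, r) = .ne := bF_nlo h1
        rw [hb] at hk'
        refine ⟨r, h1, ?_⟩
        cases d
        · exact Or.inl rfl
        · exact Or.inr rfl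
        · exact absurd hk' (by decide)
        · exact absurd hk' (by decide)
      · by_cases h3 : r - 1 ∈ S
        · right
          have hb : bump L S γ (L - 1, r) = .se := bF_nhi h h3
          rw [hb] at hk'
          refine ⟨r, h3, ?_⟩
          cases d
          · exact Or.inl rfl
          · exact absurd hk' (by decide)
          · exact absurd hk' (by decide)
          · exact Or.inr rfl
        · have hb : bump L S γ (L - 1, r) = .o := bF_nno h h1 h3
          rw [hb] at hk'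
          exact absurd hk' (not_oc_o d)
    · left
      have hb : bump L S γ (x, r) = γ (x, r) := bF_ot hx hx1
      rw [hb] at hk'
      exact ⟨((x, r), d), hk', (img_ot hx).symm⟩

/-! ### the new cells -/

theorem oc_nE (h : Ad L S γ e) {r : ℤ} (hr : r ∈ S ∨ r - 1 ∈ S) : oc (bump L S γ) ((L - 1, r), .E) := by
  rcases hr with hr | hr
  · have hb : bump L S γ (L - 1, r) = .ne := bF_nlo hr
    unfold E.oc
    rw [hb]
    dsimp only
    decide
  · have hb : bump L S γ (L - 1, r) = .se := bF_nhi h hr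
    unfold E.oc
    rw [hb]
    dsimp only
    decide

theorem oc_nN {r : ℤ} (hr : r ∈ S) : oc (bump L S γ) ((L - 1, r), .N) := by
  have hb : bump L S γ (L - 1, r) = .ne := bF_nlo hr
  unfold E.oc
  rw [hb]
  dsimp only
  decide

theorem oc_nS (h : Ad L S γ e) {r : ℤ} (hr : r - 1 ∈ S) : oc (bump L S γ) ((L - 1, r), .S) := by
  have hb : bump L S γ (L - 1, r) = .se := bF_nhi h hr
  unfold E.oc
  rw [hb]
  dsimp only
  decide

theorem oc_LW (h : Ad L S γ e) {r : ℤ} (hr : r ∈ S ∨ r - 1 ∈ S) : oc (bump L S γ) ((L, r), .W) := by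
  rcases hr with hr | hr
  · have h0 : oc γ ((L, r), .N) := h.oc r hr
    have := (vp_img h h0).1
    rwa [img_lo hr] at this
  · have h1 : oc γ ((L, r), .S) := by
      have := upS h.lp (h.oc _ hr)
      rw [sub_add_cancel] at this
      exact this
    have := (vp_img h h1).1
    rwa [img_hi hr] at this

theorem mt_step (h : Ad L S γ e) {k : He} (hk : oc (bump L S γ) k) : oc (bump L S γ) (rv k) := by
  rcases oc_new h hk with ⟨k0, h0, rfl⟩ | ⟨r, hr, h1⟩ | ⟨r, hr, h1⟩
  · by_cases hs : sp L S k0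
    · rw [img_sp hs]
      obtain ⟨⟨x, r⟩, d⟩ := k0
      obtain ⟨hx, hs'⟩ := hs
      have hx' : x = L := hx
      subst hx'
      exact oc_nE h (hs'.imp (fun a => a.1) fun a => a.1)
    · rw [img_nsp hs]
      have h2 : oc γ (rv k0) := (h.lp.mt k0 (Set.mem_univ _) (Set.mem_univ _)).1 h0
      have h3 := (vp_img h h2).1
      rwa [img_nsp (fun hh => hs (sp_rv.1 hh))] at h3
  · rcases h1 with rfl | rfl
    · have h2 : rv ((L - 1, r), Dir.E) = ((L, r), .W) := by simp [rv, nx, Dir.op]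
      rw [h2]
      exact oc_LW h (Or.inl hr)
    · have h2 : rv ((L - 1, r), Dir.N) = ((L - 1, r + 1), .S) := by simp [rv, nx, Dir.op]
      rw [h2]
      exact oc_nS h (by rwa [add_sub_cancel_right])
  · rcases h1 with rfl | rfl
    · have h2 : rv ((L - 1, r), Dir.E) = ((L, r), .W) := by simp [rv, nx, Dir.op]
      rw [h2]
      exact oc_LW h (Or.inr hr)
    · have h2 : rv ((L - 1, r), Dir.S) = ((L - 1, r - 1), .N) := by simp [rv, nx, Dir.op]
      rw [h2]
      exact oc_nN hr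

/-- one link by the edge -/
theorem cn_rv {γ : Cfg} {k : He} (hk : oc γ k) : Cn γ Set.univ k (rv k) :=
  Relation.EqvGen.rel _ _ ⟨hk, Set.mem_univ _, Or.inr ⟨rfl, Set.mem_univ _⟩⟩

theorem cn_vp {γ : Cfg} {k : He} (hk : oc γ k) : Cn γ Set.univ k (vp γ k) :=
  Relation.EqvGen.rel _ _ ⟨hk, Set.mem_univ _, Or.inl rfl⟩

theorem vp_nlo {r : ℤ} (hr : r ∈ S) : vp (bump L S γ) ((L - 1, r), .E) = ((L - 1, r), .N) := by
  have hb : bump L S γ (L - 1, r) = .ne := bF_nlo hr
  unfold vp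
  rw [hb]
  rfl

theorem vp_nhi (h : Ad L S γ e) {r : ℤ} (hr : r - 1 ∈ S) : vp (bump L S γ) ((L - 1, r), .E) = ((L - 1, r), .S) := by
  have hb : bump L S γ (L - 1, r) = .se := bF_nhi h hr
  unfold vp
  rw [hb]
  rfl

/-- the new cells are connected with the column `L` -/
theorem cn_lo (h : Ad L S γ e) {r : ℤ} (hr : r ∈ S) : Cn (bump L S γ) Set.univ ((L, r), .W) ((L - 1, r), .E) ∧
    Cn (bump L S γ) Set.univ ((L, r), .W) ((L - 1, r), .N) := by
  have h1 : Cn (bump L S γ) Set.univ ((L, r), .W) ((L - 1, r), .E) := cn_rv (oc_LW h (Or.inl hr))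
  refine ⟨h1, h1.trans _ _ _ ?_⟩
  have h2 := cn_vp (oc_nE h (Or.inl hr))
  rwa [vp_nlo hr] at h2

theorem cn_hi (h : Ad L S γ e) {r : ℤ} (hr : r - 1 ∈ S) : Cn (bump L S γ) Set.univ ((L, r), .W) ((L - 1, r), .E) ∧
    Cn (bump L S γ) Set.univ ((L, r), .W) ((L - 1, r), .S) := by
  have h1 : Cn (bump L S γ) Set.univ ((L, r), .W) ((L - 1, r), .E) := cn_rv (oc_LW h (Or.inr hr))
  refine ⟨h1, h1.trans _ _ _ ?_⟩
  have h2 := cn_vp (oc_nE h (Or.inr hr))
  rwa [vp_nhi h hr] at h2

theorem cn_bump (h : Ad L S γ e) {r : ℤ} (hr : r ∈ S) : Cn (bump L S γ) Set.univ ((L, r), .W) ((L, r + 1), .W) := by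
  have hr' : r + 1 - 1 ∈ S := by rwa [add_sub_cancel_right]
  have h1 := (cn_lo h hr).2
  have h2 := (cn_hi h hr').2
  refine h1.trans _ _ _ ((Relation.EqvGen.trans _ _ _ ?_ h2.symm))
  exact cn_rv (oc_nN hr)

theorem rv_img (h : Ad L S γ e) {k : He} (hk : oc γ k) : Cn (bump L S γ) Set.univ (img L S k) (img L S (rv k)) := by
  by_cases hs : sp L S k
  · rw [img_sp hs, img_sp (sp_rv.2 hs)]
    obtain ⟨⟨x, r⟩, d⟩ := k
    obtain ⟨hx, ⟨hr, hd⟩ | ⟨hr, hd⟩⟩ := hs
    · have hx' : x = L := hx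
      have hd' : d = .N := hd
      have hr' : r ∈ S := hr
      subst hx' hd'
      exact cn_bump h hr'
    · have hx' : x = L := hx
      have hd' : d = .S := hd
      have hr' : r - 1 ∈ S := hr
      subst hx' hd'
      have h1 := cn_bump h hr'
      rw [sub_add_cancel] at h1
      exact h1.symm
  · rw [img_nsp hs, img_nsp (fun hh => hs (sp_rv.1 hh))]
    have h1 := (vp_img h hk).1
    rw [img_nsp hs] at h1
    exact cn_rv h1

theorem cn_img (h : Ad L S γ e) {k l : He} (hk : Cn γ Set.univ k l) :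
    Cn (bump L S γ) Set.univ (img L S k) (img L S l) := by
  induction hk with
  | rel a b hab =>
    obtain ⟨h1, -, h2 | ⟨h2, -⟩⟩ := hab
    · rw [h2, ← (vp_img h h1).2]
      exact cn_vp (vp_img h h1).1
    · rw [h2]
      exact rv_img h h1
  | refl a => exact Relation.EqvGen.refl _
  | symm a b _ ih => exact ih.symm
  | trans a b c _ _ ih1 ih2 => exact ih1.trans _ _ _ ih2

/-- every used half edge is connected with an image -/
theorem cn_old (h : Ad L S γ e) {k : He} (hk : oc (bump L S γ) k) :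
    ∃ k0, oc γ k0 ∧ Cn (bump L S γ) Set.univ (img L S k0) k := by
  rcases oc_new h hk with ⟨k0, h0, rfl⟩ | ⟨r, hr, h1⟩ | ⟨r, hr, h1⟩
  · exact ⟨k0, h0, Relation.EqvGen.refl _⟩
  · refine ⟨((L, r), .N), h.oc r hr, ?_⟩
    rw [img_lo hr]
    rcases h1 with rfl | rfl
    · exact (cn_lo h hr).1
    · exact (cn_lo h hr).2
  · refine ⟨((L, r), .S), ?_, ?_⟩
    · have := upS h.lp (h.oc _ hr)
      rw [sub_add_cancel] at this
      exact this
    · rw [img_hi hr]
      rcases h1 with rfl | rfl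
      · exact (cn_hi h hr).1
      · exact (cn_hi h hr).2

/-- **the bumped loop is a loop** -/
theorem bump_Lp (h : Ad L S γ e) : Lp (bump L S γ) := by
  refine ⟨fun k _ _ => ⟨fun hk => mt_step h hk, fun hk => ?_⟩, ?_, fun k l hk hl => ?_⟩
  · have := mt_step h hk
    rwa [rv_rv] at this
  · obtain ⟨r, hr⟩ := h.lf.1
    intro h0
    have h1 : ∃ d, oc γ ((L, r), d) := by
      rcases colL h.lp h.lf r with h2 | h2 | h2 | h2
      · exact absurd h2 hr
      · exact ⟨.N, by unfold E.oc; rw [h2]; dsimp only; decide⟩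
      · exact ⟨.N, by unfold E.oc; rw [h2]; dsimp only; decide⟩
      · exact ⟨.S, by unfold E.oc; rw [h2]; dsimp only; decide⟩
    obtain ⟨d, hd⟩ := h1
    have h2 := (vp_img h hd).1
    have h3 := oc_ne (v := (img L S ((L, r), d)).1) (d := (img L S ((L, r), d)).2) h2
    rw [h0] at h3
    exact h3 rfl
  · obtain ⟨k0, h1, h2⟩ := cn_old h hk
    obtain ⟨l0, h3, h4⟩ := cn_old h hl
    exact h2.symm.trans _ _ _ ((cn_img h (h.lp.cn k0 l0 h1 h3)).trans _ _ _ h4)

/-- the new leftmost column -/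
theorem bump_Lf (h : Ad L S γ e) (hS : S.Nonempty) : Lf (bump L S γ) (L - 1) := by
  obtain ⟨r, hr⟩ := hS
  refine ⟨⟨r, ?_⟩, fun v hv => ?_⟩
  · have hb : bump L S γ (L - 1, r) = .ne := bF_nlo hr
    rw [hb]
    exact fun hh => Cell.noConfusion hh
  · by_contra h1
    push Not at h1
    have h2 : bump L S γ v = γ v := bF_ot (by omega) (by omega)
    rw [h2] at hv
    have := h.lf.2 v hv
    omega

/-! ### weights -/

theorem wt_zero (w : Wt ℝ) : (0 : Cell).wt w = 1 := rfl

theorem M1_eq {w : Wt ℝ} {γ : Cfg} {F : Finset Pt} (hF : γ.support ⊆ F) : M1 w γ = ∏ v ∈ F, (γ v).wt w :=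
  Finsupp.prod_of_support_subset _ hF _ fun v _ => wt_zero w

theorem wt_nn {x : ℝ} (hx : 0 < x) (c : Cell) : 0 ≤ c.wt (EXL.hexW x) := by
  cases c <;> simp only [Cell.wt, EXL.hexW] <;> positivity

theorem M1_nn {x : ℝ} (hx : 0 < x) (γ : Cfg) : 0 ≤ M1 (EXL.hexW x) γ :=
  Finset.prod_nonneg fun v _ => wt_nn hx _

open Classical in
/-- **the weight of the bumps** -/
theorem M1_bump {x : ℝ} (hx : 0 < x) (hx1 : x ≤ 1) (h : Ad L S γ e) :
    x ^ (4 * S.card) * M1 (EXL.hexW x) γ ≤ M1 (EXL.hexW x) (bump L S γ) := by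
  obtain ⟨A, hA⟩ : ∃ A : Finset Pt, A = S.image fun r => (L, r) := ⟨_, rfl⟩
  obtain ⟨B, hB⟩ : ∃ B : Finset Pt, B = S.image fun r => (L - 1, r) := ⟨_, rfl⟩
  obtain ⟨C, hC⟩ : ∃ C : Finset Pt, C = S.image fun r => (L - 1, r + 1) := ⟨_, rfl⟩
  obtain ⟨F, hF⟩ : ∃ F : Finset Pt, F = (γ.support ∪ (bump L S γ).support) ∪ (A ∪ (B ∪ C)) := ⟨_, rfl⟩
  have f1 : γ.support ⊆ F := by
    rw [hF]
    exact fun v hv => Finset.mem_union_left _ (Finset.mem_union_left _ hv)
  have f2 : (bump L S γ).support ⊆ F := by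
    rw [hF]
    exact fun v hv => Finset.mem_union_left _ (Finset.mem_union_right _ hv)
  have fA : A ⊆ F := by
    rw [hF]
    exact fun v hv => Finset.mem_union_right _ (Finset.mem_union_left _ hv)
  have fB : B ⊆ F := by
    rw [hF]
    exact fun v hv => Finset.mem_union_right _ (Finset.mem_union_right _ (Finset.mem_union_left _ hv))
  have fC : C ⊆ F := by
    rw [hF]
    exact fun v hv => Finset.mem_union_right _ (Finset.mem_union_right _ (Finset.mem_union_right _ hv))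
  have cA : A.card = S.card := by
    rw [hA]
    exact Finset.card_image_of_injective _ fun a b hab => (Prod.ext_iff.1 hab).2
  have cB : B.card = S.card := by
    rw [hB]
    exact Finset.card_image_of_injective _ fun a b hab => (Prod.ext_iff.1 hab).2
  have cC : C.card = S.card := by
    rw [hC]
    refine Finset.card_image_of_injective _ fun a b hab => ?_
    have := (Prod.ext_iff.1 hab).2
    simpa using this
  have e1 : ∀ D : Finset Pt, D ⊆ F → ∀ t : ℝ, ∏ v ∈ F, (if v ∈ D then t else 1) = t ^ D.card := by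
    intro D hD t
    rw [Finset.prod_ite_mem, Finset.inter_eq_right.2 hD, Finset.prod_const]
  rw [M1_eq f1, M1_eq f2]
  have e2 : x ^ (4 * S.card) * ∏ v ∈ F, (γ v).wt (EXL.hexW x) =
      ∏ v ∈ F, ((if v ∈ A then x else 1) * ((if v ∈ B then x else 1) * (if v ∈ C then x ^ 2 else 1)) *
        (γ v).wt (EXL.hexW x)) := by
    rw [Finset.prod_mul_distrib, Finset.prod_mul_distrib, Finset.prod_mul_distrib, e1 A fA, e1 B fB, e1 C fC, cA, cB, cC]
    ring
  rw [e2]
  refine Finset.prod_le_prod (fun v _ => ?_) fun v _ => ?_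
  · have := wt_nn hx (γ v)
    split_ifs <;> positivity
  · have x2 : x ^ 2 * x ≤ x := by nlinarith
    obtain ⟨y, r⟩ := v
    by_cases hy : y = L
    · subst hy
      have nB : (y, r) ∉ B := by
        rw [hB, Finset.mem_image]
        rintro ⟨s, -, hs⟩
        have := (Prod.ext_iff.1 hs).1
        simp at this
      have nC : (y, r) ∉ C := by
        rw [hC, Finset.mem_image]
        rintro ⟨s, -, hs⟩
        have := (Prod.ext_iff.1 hs).1
        simp at this
      rw [if_neg nB, if_neg nC, one_mul, mul_one]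
      by_cases h1 : r ∈ S
      · have hb : bump y S γ (y, r) = b1 (γ (y, r)) := bF_lo h1
        have mA : (y, r) ∈ A := by
          rw [hA]
          exact Finset.mem_image_of_mem _ h1
        rw [if_pos mA, hb]
        rcases h.lo h1 with h2 | h2 <;> rw [h2] <;> simp only [b1, Cell.wt, EXL.hexW]
        · calc x * x ^ 2 = x ^ 2 * x := by ring
            _ ≤ x := x2
        · exact (by ring : x * x = x ^ 2).le
      · have nA : (y, r) ∉ A := by
          rw [hA, Finset.mem_image]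
          rintro ⟨s, hs, hs'⟩
          have e3 : s = r := (Prod.ext_iff.1 hs').2
          exact h1 (e3 ▸ hs)
        rw [if_neg nA, one_mul]
        by_cases h3 : r - 1 ∈ S
        · have hb : bump y S γ (y, r) = b2 (γ (y, r)) := bF_hi h h3
          rw [hb]
          rcases h.hi' h3 with h2 | h2 <;> rw [h2] <;> simp only [b2, Cell.wt, EXL.hexW] <;> exact le_refl _
        · have hb : bump y S γ (y, r) = γ (y, r) := bF_no h1 h3
          rw [hb]
    · have nA : (y, r) ∉ A := by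
        rw [hA, Finset.mem_image]
        rintro ⟨s, -, hs⟩
        exact hy (Prod.ext_iff.1 hs).1.symm
      rw [if_neg nA, one_mul]
      by_cases hy1 : y = L - 1
      · subst hy1
        have h0 : γ (L - 1, r) = .o := o_of_lt h.lf (by show L - 1 < L; omega)
        have h0' : (γ (L - 1, r)).wt (EXL.hexW x) = 1 := by rw [h0]; rfl
        rw [h0', mul_one]
        by_cases h1 : r ∈ S
        · have hb : bump L S γ (L - 1, r) = .ne := bF_nlo h1
          have nC : (L - 1, r) ∉ C := by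
            rw [hC, Finset.mem_image]
            rintro ⟨s, hs, hs'⟩
            have e3 : s + 1 = r := (Prod.ext_iff.1 hs').2
            exact h.ns hs (e3 ▸ h1)
          have mB : (L - 1, r) ∈ B := by
            rw [hB]
            exact Finset.mem_image_of_mem _ h1
          rw [if_neg nC, if_pos mB, hb, mul_one]
          exact le_refl _
        · have nB : (L - 1, r) ∉ B := by
            rw [hB, Finset.mem_image]
            rintro ⟨s, hs, hs'⟩
            have e3 : s = r := (Prod.ext_iff.1 hs').2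
            exact h1 (e3 ▸ hs)
          rw [if_neg nB, one_mul]
          by_cases h3 : r - 1 ∈ S
          · have hb : bump L S γ (L - 1, r) = .se := bF_nhi h h3
            have mC : (L - 1, r) ∈ C := by
              rw [hC]
              exact Finset.mem_image.2 ⟨r - 1, h3, by rw [sub_add_cancel]⟩
            rw [if_pos mC, hb]
            exact le_refl _
          · have hb : bump L S γ (L - 1, r) = .o := bF_nno h h1 h3
            have nC : (L - 1, r) ∉ C := by
              rw [hC, Finset.mem_image]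
              rintro ⟨s, hs, hs'⟩
              have e3 : s + 1 = r := (Prod.ext_iff.1 hs').2
              exact h3 (by rw [← e3, add_sub_cancel_right]; exact hs)
            rw [if_neg nC, hb]
            exact le_refl _
      · have nB : (y, r) ∉ B := by
          rw [hB, Finset.mem_image]
          rintro ⟨s, -, hs⟩
          exact hy1 (Prod.ext_iff.1 hs).1.symm
        have nC : (y, r) ∉ C := by
          rw [hC, Finset.mem_image]
          rintro ⟨s, -, hs⟩
          exact hy1 (Prod.ext_iff.1 hs).1.symm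
        have hb : bump L S γ (y, r) = γ (y, r) := bF_ot hy hy1
        rw [if_neg nB, if_neg nC, one_mul, one_mul, hb]

/-- **the bumps are injective** -/
theorem bump_inj {γ' : Cfg} {S' : Finset ℤ} (h : Ad L S γ e) (h' : Ad L S' γ' e) (hb : bump L S γ = bump L S' γ') :
    γ = γ' ∧ S = S' := by
  have hc : ∀ v, bF L S γ v = bF L S' γ' v := fun v => by
    have := DFunLike.congr_fun hb v
    exact this
  have key : ∀ {γ : Cfg} {S : Finset ℤ}, Ad L S γ e → ∀ r, r ∈ S ↔ bF L S γ (L - 1, r) = .ne := by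
    intro γ S h r
    constructor
    · intro hr
      exact bF_nlo hr
    · intro h1
      by_contra h2
      by_cases h3 : r - 1 ∈ S
      · rw [bF_nhi h h3] at h1
        exact Cell.noConfusion h1
      · rw [bF_nno h h2 h3] at h1
        exact Cell.noConfusion h1
  have hS : S = S' := by
    ext r
    rw [key h r, key h' r, hc]
  subst hS
  refine ⟨Finsupp.ext fun v => ?_, rfl⟩
  obtain ⟨y, r⟩ := v
  by_cases hy : y = L
  · subst hy
    have h1 := hc (y, r)
    by_cases h2 : r ∈ S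
    · rw [bF_lo h2, bF_lo h2] at h1
      rcases h.lo h2 with h3 | h3 <;> rcases h'.lo h2 with h4 | h4 <;> rw [h3, h4] at h1 ⊢ <;> exact Cell.noConfusion h1
    · by_cases h3 : r - 1 ∈ S
      · rw [bF_hi h h3, bF_hi h' h3] at h1
        rcases h.hi' h3 with h4 | h4 <;> rcases h'.hi' h3 with h5 | h5 <;> rw [h4, h5] at h1 ⊢ <;> exact Cell.noConfusion h1
      · rw [bF_no h2 h3, bF_no h2 h3] at h1
        exact h1
  · by_cases hy1 : y < L
    · rw [o_of_lt h.lf (v := (y, r)) hy1, o_of_lt h'.lf (v := (y, r)) hy1]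
    · have h1 := hc (y, r)
      rw [bF_ot (v := (y, r)) hy (by show y ≠ L - 1; omega), bF_ot (v := (y, r)) hy (by show y ≠ L - 1; omega)] at h1
      exact h1

/-! ### the tail -/

/-- the vertical edges of the column `L`, at the rows of the parity `e` -/
noncomputable def VE (γ : Cfg) (L e : ℤ) : Finset ℤ :=
  (γ.support.image Prod.snd).filter fun r => r % 2 = e ∧ (γ (L, r)).oc .N

theorem mem_VE {γ : Cfg} {L e r : ℤ} : r ∈ VE γ L e ↔ r % 2 = e ∧ (γ (L, r)).oc .N := by
  unfold VE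
  rw [Finset.mem_filter, Finset.mem_image]
  refine ⟨fun h => h.2, fun h => ⟨⟨(L, r), ?_, rfl⟩, h⟩⟩
  rw [Finsupp.mem_support_iff]
  exact oc_ne (d := .N) h.2

theorem ad_of {S : Finset ℤ} (hl : Lp γ) (hf : Lf γ L) (hS : S ⊆ VE γ L e) : Ad L S γ e :=
  ⟨hl, hf, fun r hr => (mem_VE.1 (hS hr)).1, fun r hr => (mem_VE.1 (hS hr)).2⟩

/-- the mass with a density -/
noncomputable def Ms (x : ℝ) (L : ℤ) (f : Cfg → ℝ≥0∞) : ℝ≥0∞ :=
  ∑' γ : {γ : Cfg // Lp γ ∧ Lf γ L}, ENNReal.ofReal (M1 (EXL.hexW x) γ) * f γ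

/-- **the tail of the number of vertical edges of the leftmost column** -/
theorem bump_tail {x : ℝ} (hx : 0 < x) (hx1 : x ≤ 1) (L e : ℤ) (f g : Cfg → ℝ≥0∞)
    (hfg : ∀ γ S, Lp γ → Lf γ L → S.Nonempty → S ⊆ VE γ L e → f γ ≤ g (bump L S γ)) :
    Ms x L (fun γ => f γ * (1 + ENNReal.ofReal (x ^ 4)) ^ (VE γ L e).card) ≤ Ms x L f + Ms x (L - 1) g := by
  classical
  obtain ⟨c, hc⟩ : ∃ c : ℝ≥0∞, c = ENNReal.ofReal (x ^ 4) := ⟨_, rfl⟩
  rw [← hc]
  obtain ⟨w, hw⟩ : ∃ w : Cfg → ℝ≥0∞, w = fun γ => ENNReal.ofReal (M1 (EXL.hexW x) γ) := ⟨_, rfl⟩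
  -- the sum over the subsets
  have e1 : ∀ γ : Cfg, w γ * (f γ * (1 + c) ^ (VE γ L e).card) = w γ * f γ +
      ∑' S : Finset ℤ, (if S.Nonempty ∧ S ⊆ VE γ L e then w γ * f γ * c ^ S.card else 0) := by
    intro γ
    have h1 : (1 + c) ^ (VE γ L e).card = ∑ S ∈ (VE γ L e).powerset, c ^ S.card := by
      rw [add_comm, ← Finset.sum_pow_mul_eq_add_pow]
      exact Finset.sum_congr rfl fun S _ => by rw [one_pow, mul_one]
    have h2 : ∑' S : Finset ℤ, (if S.Nonempty ∧ S ⊆ VE γ L e then w γ * f γ * c ^ S.card else 0) =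
        ∑ S ∈ (VE γ L e).powerset.erase ∅, w γ * f γ * c ^ S.card := by
      rw [tsum_eq_sum (s := (VE γ L e).powerset.erase ∅)]
      · refine Finset.sum_congr rfl fun S hS => ?_
        rw [Finset.mem_erase, Finset.mem_powerset] at hS
        rw [if_pos ⟨Finset.nonempty_iff_ne_empty.2 hS.1, hS.2⟩]
      · intro S hS
        rw [if_neg]
        rintro ⟨h3, h4⟩
        exact hS (Finset.mem_erase.2 ⟨h3.ne_empty, Finset.mem_powerset.2 h4⟩)
    rw [h1, h2, ← Finset.mul_sum, ← Finset.add_sum_erase _ _ (Finset.empty_mem_powerset (VE γ L e)), Finset.card_empty,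
      pow_zero, ← mul_assoc, mul_add, mul_one]
  have e2 : Ms x L (fun γ => f γ * (1 + c) ^ (VE γ L e).card) = Ms x L f +
      ∑' γ : {γ : Cfg // Lp γ ∧ Lf γ L}, ∑' S : Finset ℤ,
        (if S.Nonempty ∧ S ⊆ VE (γ : Cfg) L e then w γ * f γ * c ^ S.card else 0) := by
    unfold Ms
    rw [← ENNReal.tsum_add]
    refine tsum_congr fun γ => ?_
    have h1 := e1 (γ : Cfg)
    have h2 : ENNReal.ofReal (M1 (EXL.hexW x) (γ : Cfg)) = w (γ : Cfg) := by rw [hw]
    rw [h2]
    exact h1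
  rw [e2]
  refine add_le_add le_rfl ?_
  rw [← ENNReal.tsum_prod]
  -- restrict to the good pairs
  obtain ⟨T, hT⟩ : ∃ T : Set ({γ : Cfg // Lp γ ∧ Lf γ L} × Finset ℤ), ∀ p, p ∈ T ↔ p.2.Nonempty ∧ p.2 ⊆ VE (p.1 : Cfg) L e :=
    ⟨{p | p.2.Nonempty ∧ p.2 ⊆ VE (p.1 : Cfg) L e}, fun p => Iff.rfl⟩
  have e3 : (∑' p : {γ : Cfg // Lp γ ∧ Lf γ L} × Finset ℤ,
      (if p.2.Nonempty ∧ p.2 ⊆ VE (p.1 : Cfg) L e then w p.1 * f p.1 * c ^ p.2.card else 0)) =
      ∑' p : T, w (p.1.1 : Cfg) * f (p.1.1 : Cfg) * c ^ p.1.2.card := by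
    rw [tsum_subtype T fun p : {γ : Cfg // Lp γ ∧ Lf γ L} × Finset ℤ => w (p.1 : Cfg) * f (p.1 : Cfg) * c ^ p.2.card]
    refine tsum_congr fun p => ?_
    by_cases hp : p ∈ T
    · rw [Set.indicator_of_mem hp, if_pos ((hT p).1 hp)]
    · rw [Set.indicator_of_notMem hp, if_neg fun hh => hp ((hT p).2 hh)]
  rw [e3]
  have ad : ∀ p : T, Ad L p.1.2 (p.1.1 : Cfg) e := fun p =>
    ad_of p.1.1.2.1 p.1.1.2.2 ((hT p.1).1 p.2).2
  have ne : ∀ p : T, p.1.2.Nonempty := fun p => ((hT p.1).1 p.2).1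
  obtain ⟨F, hF⟩ : ∃ F : T → {γ : Cfg // Lp γ ∧ Lf γ (L - 1)},
      F = fun p => ⟨bump L p.1.2 (p.1.1 : Cfg), bump_Lp (ad p), bump_Lf (ad p) (ne p)⟩ := ⟨_, rfl⟩
  have hi : Function.Injective F := by
    intro p q hpq
    rw [hF] at hpq
    have h1 : bump L p.1.2 (p.1.1 : Cfg) = bump L q.1.2 (q.1.1 : Cfg) := congrArg Subtype.val hpq
    obtain ⟨h2, h3⟩ := bump_inj (ad p) (ad q) h1
    exact Subtype.ext (Prod.ext (Subtype.ext h2) h3)
  refine le_trans ?_ (ENNReal.tsum_comp_le_tsum_of_injective hi fun γ : {γ : Cfg // Lp γ ∧ Lf γ (L - 1)} =>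
    ENNReal.ofReal (M1 (EXL.hexW x) γ) * g γ)
  refine ENNReal.tsum_le_tsum fun p => ?_
  have h1 := M1_bump hx hx1 (ad p)
  have h2 := hfg (p.1.1 : Cfg) p.1.2 p.1.1.2.1 p.1.1.2.2 (ne p) ((hT p.1).1 p.2).2
  rw [hF]
  show w (p.1.1 : Cfg) * f (p.1.1 : Cfg) * c ^ p.1.2.card ≤
    ENNReal.ofReal (M1 (EXL.hexW x) (bump L p.1.2 (p.1.1 : Cfg))) * g (bump L p.1.2 (p.1.1 : Cfg))
  have h3 : w (p.1.1 : Cfg) * c ^ p.1.2.card ≤ ENNReal.ofReal (M1 (EXL.hexW x) (bump L p.1.2 (p.1.1 : Cfg))) := by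
    rw [hw, hc, ← ENNReal.ofReal_pow (by positivity), ← ENNReal.ofReal_mul (M1_nn hx _)]
    refine ENNReal.ofReal_le_ofReal (le_trans (le_of_eq ?_) h1)
    rw [← pow_mul]
    ring
  calc w (p.1.1 : Cfg) * f (p.1.1 : Cfg) * c ^ p.1.2.card = (w (p.1.1 : Cfg) * c ^ p.1.2.card) * f (p.1.1 : Cfg) := by ring
    _ ≤ _ := mul_le_mul' h3 h2

/-! ### the second moment -/

/-- the cells of the column `L` -/
noncomputable def Nc (γ : Cfg) (L : ℤ) : ℕ := (γ.support.filter fun v => v.1 = L).card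

theorem Nc_le (hl : Lp γ) (hf : Lf γ L) : Nc γ L ≤ 2 * ((VE γ L 0).card + (VE γ L 1).card) := by
  classical
  obtain ⟨V, hV⟩ : ∃ V : Finset ℤ, V = VE γ L 0 ∪ VE γ L 1 := ⟨_, rfl⟩
  have h1 : (γ.support.filter fun v => v.1 = L) ⊆ (V ∪ V.image fun r => r + 1).image fun r => (L, r) := by
    intro v hv
    rw [Finset.mem_filter, Finsupp.mem_support_iff] at hv
    obtain ⟨y, r⟩ := v
    have hy : y = L := hv.2
    subst hy
    have h0 := hv.1
    have mV : ∀ r : ℤ, (γ (y, r)).oc .N → r ∈ V := by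
      intro r hr
      rw [hV, Finset.mem_union]
      rcases Int.emod_two_eq_zero_or_one r with h | h
      · exact Or.inl (mem_VE.2 ⟨h, hr⟩)
      · exact Or.inr (mem_VE.2 ⟨h, hr⟩)
    refine Finset.mem_image.2 ⟨r, ?_, rfl⟩
    rcases colL hl hf r with h2 | h2 | h2 | h2
    · exact absurd h2 h0
    · exact Finset.mem_union_left _ (mV r (by rw [h2]; decide))
    · exact Finset.mem_union_left _ (mV r (by rw [h2]; decide))
    · refine Finset.mem_union_right _ (Finset.mem_image.2 ⟨r - 1, mV _ ?_, by ring⟩)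
      have h3 : oc γ ((y, r), .S) := by
        unfold E.oc
        rw [h2]
        dsimp only
        decide
      have h4 : oc γ (rv ((y, r), Dir.S)) := (hl.mt _ (Set.mem_univ _) (Set.mem_univ _)).1 h3
      exact h4
  refine (Finset.card_le_card h1).trans (Finset.card_image_le.trans ((Finset.card_union_le _ _).trans ?_))
  have h2 := Finset.card_image_le (s := V) (f := fun r => r + 1)
  have h3 : V.card ≤ (VE γ L 0).card + (VE γ L 1).card := by
    rw [hV]
    exact Finset.card_union_le _ _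
  omega

theorem sq_le_pow {c : ℝ} (hc : 0 < c) (hc1 : c ≤ 1) (n : ℕ) : (n : ℝ) ^ 2 ≤ 2 / c ^ 2 * (1 + c) ^ n := by
  have h1 : ∀ n : ℕ, 1 + n * c + n * (n - 1) / 2 * c ^ 2 ≤ (1 + c) ^ n := by
    intro n
    induction n with
    | zero => simp
    | succ n ih =>
      rw [pow_succ]
      push_cast
      rcases Nat.eq_zero_or_pos n with rfl | hn
      · simp
      · have hn' : (1 : ℝ) ≤ n := by exact_mod_cast hn
        have h2 : (0 : ℝ) ≤ n * (n - 1) / 2 * c ^ 3 := by
          have : (0 : ℝ) ≤ n - 1 := by linarith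
          positivity
        refine le_trans ?_ (mul_le_mul_of_nonneg_right ih (by linarith : (0 : ℝ) ≤ 1 + c))
        have h3 : (1 + (n : ℝ) * c + n * (n - 1) / 2 * c ^ 2) * (1 + c) =
            1 + (n + 1) * c + (n + 1) * (n + 1 - 1) / 2 * c ^ 2 + n * (n - 1) / 2 * c ^ 3 := by ring
        rw [h3]
        linarith
  have h2 := h1 n
  rw [div_mul_eq_mul_div, le_div_iff₀ (by positivity)]
  have hn : (0 : ℝ) ≤ n := Nat.cast_nonneg n
  nlinarith [mul_nonneg hn (mul_nonneg hc.le (sub_nonneg.2 hc1))]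

/-- **(UI): the second moment of the number of cells of the leftmost column** -/
theorem bump_sq {x : ℝ} (hx : 0 < x) (hx1 : x ≤ 1) (L : ℤ) (f g : Cfg → ℝ≥0∞)
    (hfg : ∀ γ S e, Ad L S γ e → S.Nonempty → f γ ≤ g (bump L S γ)) :
    Ms x L (fun γ => f γ * (Nc γ L : ℝ≥0∞) ^ 2) ≤ ENNReal.ofReal (32 / x ^ 8) * (Ms x L f + Ms x (L - 1) g) := by
  obtain ⟨c, hc⟩ : ∃ c : ℝ, c = x ^ 4 := ⟨_, rfl⟩
  have hc0 : 0 < c := by rw [hc]; positivity
  have hc1 : c ≤ 1 := by rw [hc]; exact pow_le_one₀ hx.le hx1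
  have h1 : ∀ γ : {γ : Cfg // Lp γ ∧ Lf γ L}, ((Nc (γ : Cfg) L : ℝ≥0∞)) ^ 2 ≤
      ENNReal.ofReal (16 / c ^ 2) * ((1 + ENNReal.ofReal c) ^ (VE (γ : Cfg) L 0).card +
        (1 + ENNReal.ofReal c) ^ (VE (γ : Cfg) L 1).card) := by
    intro γ
    have h2 := Nc_le γ.2.1 γ.2.2
    obtain ⟨a, ha⟩ : ∃ a, a = (VE (γ : Cfg) L 0).card := ⟨_, rfl⟩
    obtain ⟨b, hb⟩ : ∃ b, b = (VE (γ : Cfg) L 1).card := ⟨_, rfl⟩
    rw [← ha, ← hb] at h2 ⊢
    have e1 : (1 + ENNReal.ofReal c) ^ a + (1 + ENNReal.ofReal c) ^ b = ENNReal.ofReal ((1 + c) ^ a + (1 + c) ^ b) := by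
      rw [ENNReal.ofReal_add (by positivity) (by positivity), ENNReal.ofReal_pow (by positivity),
        ENNReal.ofReal_pow (by positivity), ENNReal.ofReal_add zero_le_one hc0.le, ENNReal.ofReal_one]
    rw [e1, ← ENNReal.ofReal_mul (by positivity), ← ENNReal.ofReal_natCast, ← ENNReal.ofReal_pow (Nat.cast_nonneg _)]
    refine ENNReal.ofReal_le_ofReal ?_
    have h3 : (Nc (γ : Cfg) L : ℝ) ≤ 2 * ((a : ℝ) + b) := by exact_mod_cast h2
    have h4 := sq_le_pow hc0 hc1 a
    have h5 := sq_le_pow hc0 hc1 b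
    have h6 : (Nc (γ : Cfg) L : ℝ) ^ 2 ≤ (2 * ((a : ℝ) + b)) ^ 2 := by gcongr
    have h7 : (16 : ℝ) / c ^ 2 * ((1 + c) ^ a + (1 + c) ^ b) = 8 * (2 / c ^ 2 * (1 + c) ^ a) + 8 * (2 / c ^ 2 * (1 + c) ^ b) := by
      ring
    rw [h7]
    nlinarith [sq_nonneg ((a : ℝ) - b)]
  have h2 : Ms x L (fun γ => f γ * (Nc γ L : ℝ≥0∞) ^ 2) ≤ ENNReal.ofReal (16 / c ^ 2) *
      (Ms x L (fun γ => f γ * (1 + ENNReal.ofReal (x ^ 4)) ^ (VE γ L 0).card) +
        Ms x L (fun γ => f γ * (1 + ENNReal.ofReal (x ^ 4)) ^ (VE γ L 1).card)) := by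
    unfold Ms
    rw [← ENNReal.tsum_add, ← ENNReal.tsum_mul_left]
    refine ENNReal.tsum_le_tsum fun γ => ?_
    rw [← hc]
    calc ENNReal.ofReal (M1 (EXL.hexW x) (γ : Cfg)) * (f γ * (Nc (γ : Cfg) L : ℝ≥0∞) ^ 2) ≤
        ENNReal.ofReal (M1 (EXL.hexW x) (γ : Cfg)) * (f γ * (ENNReal.ofReal (16 / c ^ 2) *
          ((1 + ENNReal.ofReal c) ^ (VE (γ : Cfg) L 0).card + (1 + ENNReal.ofReal c) ^ (VE (γ : Cfg) L 1).card))) := by
          gcongr
          exact h1 γ
      _ = _ := by ring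
  have h3 := bump_tail hx hx1 L 0 f g fun γ S hl hf hS hs => hfg γ S 0 (ad_of hl hf hs) hS
  have h4 := bump_tail hx hx1 L 1 f g fun γ S hl hf hS hs => hfg γ S 1 (ad_of hl hf hs) hS
  refine h2.trans ((mul_le_mul_right (add_le_add h3 h4) _).trans (le_of_eq ?_))
  have e1 : ENNReal.ofReal (32 / x ^ 8) = ENNReal.ofReal (16 / c ^ 2) * 2 := by
    rw [show (2 : ℝ≥0∞) = ENNReal.ofReal 2 by simp, ← ENNReal.ofReal_mul (by positivity)]
    congr 1
    rw [hc]
    field_simp
    norm_num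
  rw [e1]
  ring

/-! ### the extremes of a bumped loop -/

theorem b1_ne {c : Cell} : b1 c ≠ 0 ↔ c ≠ 0 := by
  cases c <;> decide

theorem b2_ne {c : Cell} : b2 c ≠ 0 ↔ c ≠ 0 := by
  cases c <;> decide

/-- the visited vertices after the bumps -/
theorem bump_ne (h : Ad L S γ e) (v : Pt) :
    bump L S γ v ≠ 0 ↔ γ v ≠ 0 ∨ (v.1 = L - 1 ∧ (v.2 ∈ S ∨ v.2 - 1 ∈ S)) := by
  obtain ⟨y, r⟩ := v
  show bF L S γ (y, r) ≠ 0 ↔ γ (y, r) ≠ 0 ∨ (y = L - 1 ∧ (r ∈ S ∨ r - 1 ∈ S))
  by_cases hy : y = L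
  · subst hy
    have h0 : ¬ (y = y - 1 ∧ (r ∈ S ∨ r - 1 ∈ S)) := fun hh => by
      have := hh.1
      omega
    rw [or_iff_left h0]
    by_cases h1 : r ∈ S
    · rw [bF_lo h1]
      exact b1_ne
    · by_cases h3 : r - 1 ∈ S
      · rw [bF_hi h h3]
        exact b2_ne
      · rw [bF_no h1 h3]
  · by_cases hy1 : y = L - 1
    · subst hy1
      have h0 : γ (L - 1, r) = 0 := o_of_lt h.lf (v := (L - 1, r)) (by show L - 1 < L; omega)
      by_cases h1 : r ∈ S
      · rw [bF_nlo h1]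
        exact ⟨fun _ => Or.inr ⟨rfl, Or.inl h1⟩, fun _ hh => Cell.noConfusion hh⟩
      · by_cases h3 : r - 1 ∈ S
        · rw [bF_nhi h h3]
          exact ⟨fun _ => Or.inr ⟨rfl, Or.inr h3⟩, fun _ hh => Cell.noConfusion hh⟩
        · rw [bF_nno h h1 h3]
          refine ⟨fun hh => absurd rfl hh, ?_⟩
          rintro (hh | ⟨-, hh | hh⟩)
          · exact absurd h0 hh
          · exact absurd hh h1
          · exact absurd hh h3
    · rw [bF_ot (v := (y, r)) hy hy1]
      exact ⟨Or.inl, fun hh => hh.resolve_right fun a => hy1 a.1⟩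

/-- every row of the bumped loop is a row of the loop -/
theorem bump_row (h : Ad L S γ e) {v : Pt} (hv : bump L S γ v ≠ 0) : ∃ v' : Pt, v'.2 = v.2 ∧ v.1 ≤ v'.1 ∧ γ v' ≠ 0 := by
  rcases (bump_ne h v).1 hv with h1 | ⟨h1, h2⟩
  · exact ⟨v, rfl, le_refl _, h1⟩
  · refine ⟨(L, v.2), rfl, by show v.1 ≤ L; omega, ?_⟩
    rcases h2 with h2 | h2
    · exact oc_ne (d := .N) (h.oc _ h2)
    · have h3 := upS h.lp (h.oc _ h2)
      rw [sub_add_cancel] at h3
      exact oc_ne (d := .S) h3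

/-! ### the honeycomb -/

theorem xc_le_one : HexObs.xc ≤ 1 := by
  have h1 : Real.cos (Real.pi / 3) ≤ Real.cos (Real.pi / 8) :=
    Real.cos_le_cos_of_nonneg_of_le_pi (by positivity) (by linarith [Real.pi_pos]) (by linarith [Real.pi_pos])
  rw [Real.cos_pi_div_three] at h1
  unfold HexObs.xc
  rw [div_le_one (by linarith)]
  linarith

/-- **(UI) at the honeycomb** -/
theorem bump_sq_hex (L : ℤ) (f g : Cfg → ℝ≥0∞) (hfg : ∀ γ S e, Ad L S γ e → S.Nonempty → f γ ≤ g (bump L S γ)) :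
    ∑' γ : {γ : Cfg // Lp γ ∧ Lf γ L}, ENNReal.ofReal (M1 (wR (Real.pi / 8)) γ) * (f γ * (Nc (γ : Cfg) L : ℝ≥0∞) ^ 2) ≤
      ENNReal.ofReal (32 / HexObs.xc ^ 8) *
        (∑' γ : {γ : Cfg // Lp γ ∧ Lf γ L}, ENNReal.ofReal (M1 (wR (Real.pi / 8)) γ) * f γ +
          ∑' γ : {γ : Cfg // Lp γ ∧ Lf γ (L - 1)}, ENNReal.ofReal (M1 (wR (Real.pi / 8)) γ) * g γ) := by
  rw [UNI.wR_hex]
  exact bump_sq HexObs.xc_pos xc_le_one L f g hfg

/-! ### one bump -/

/-- one bump, one parity -/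
theorem bump_one_par {x : ℝ} (hx : 0 < x) (hx1 : x ≤ 1) (L e : ℤ) (f g : Cfg → ℝ≥0∞)
    (hfg : ∀ γ r, Lp γ → Lf γ L → (γ (L, r)).oc .N → f γ ≤ g (bump L {r} γ)) :
    ENNReal.ofReal (x ^ 4) * Ms x L (fun γ => f γ * ((VE γ L e).card : ℝ≥0∞)) ≤ Ms x (L - 1) g := by
  classical
  obtain ⟨c, hc⟩ : ∃ c : ℝ≥0∞, c = ENNReal.ofReal (x ^ 4) := ⟨_, rfl⟩
  rw [← hc]
  obtain ⟨T, hT⟩ : ∃ T : Set ({γ : Cfg // Lp γ ∧ Lf γ L} × ℤ), ∀ p, p ∈ T ↔ p.2 ∈ VE (p.1 : Cfg) L e :=
    ⟨{p | p.2 ∈ VE (p.1 : Cfg) L e}, fun p => Iff.rfl⟩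
  have e2 : c * Ms x L (fun γ => f γ * ((VE γ L e).card : ℝ≥0∞)) =
      ∑' p : T, c * (ENNReal.ofReal (M1 (EXL.hexW x) (p.1.1 : Cfg)) * f (p.1.1 : Cfg)) := by
    rw [tsum_subtype T fun p : {γ : Cfg // Lp γ ∧ Lf γ L} × ℤ =>
      c * (ENNReal.ofReal (M1 (EXL.hexW x) (p.1 : Cfg)) * f (p.1 : Cfg)), ENNReal.tsum_prod']
    unfold Ms
    rw [← ENNReal.tsum_mul_left]
    refine tsum_congr fun γ => ?_
    rw [tsum_eq_sum (s := VE (γ : Cfg) L e)]
    · rw [Finset.sum_congr rfl (g := fun _ => c * (ENNReal.ofReal (M1 (EXL.hexW x) (γ : Cfg)) * f (γ : Cfg)))]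
      · rw [Finset.sum_const, nsmul_eq_mul]
        ring
      · intro r hr
        rw [Set.indicator_of_mem ((hT (γ, r)).2 hr)]
    · intro r hr
      rw [Set.indicator_of_notMem fun hh => hr ((hT (γ, r)).1 hh)]
  rw [e2]
  have ad : ∀ p : T, Ad L {p.1.2} (p.1.1 : Cfg) e := fun p =>
    ad_of p.1.1.2.1 p.1.1.2.2 (Finset.singleton_subset_iff.2 ((hT p.1).1 p.2))
  have ne : ∀ p : T, ({p.1.2} : Finset ℤ).Nonempty := fun p => Finset.singleton_nonempty _
  obtain ⟨F, hF⟩ : ∃ F : T → {γ : Cfg // Lp γ ∧ Lf γ (L - 1)},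
      F = fun p => ⟨bump L {p.1.2} (p.1.1 : Cfg), bump_Lp (ad p), bump_Lf (ad p) (ne p)⟩ := ⟨_, rfl⟩
  have hi : Function.Injective F := by
    intro p q hpq
    rw [hF] at hpq
    have h1 : bump L {p.1.2} (p.1.1 : Cfg) = bump L {q.1.2} (q.1.1 : Cfg) := congrArg Subtype.val hpq
    obtain ⟨h2, h3⟩ := bump_inj (ad p) (ad q) h1
    exact Subtype.ext (Prod.ext (Subtype.ext h2) (Finset.singleton_injective h3))
  refine le_trans ?_ (ENNReal.tsum_comp_le_tsum_of_injective hi fun γ : {γ : Cfg // Lp γ ∧ Lf γ (L - 1)} =>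
    ENNReal.ofReal (M1 (EXL.hexW x) γ) * g γ)
  refine ENNReal.tsum_le_tsum fun p => ?_
  have h1 := M1_bump hx hx1 (ad p)
  have h2 := hfg (p.1.1 : Cfg) p.1.2 p.1.1.2.1 p.1.1.2.2 (mem_VE.1 ((hT p.1).1 p.2)).2
  rw [hF]
  show c * (ENNReal.ofReal (M1 (EXL.hexW x) (p.1.1 : Cfg)) * f (p.1.1 : Cfg)) ≤
    ENNReal.ofReal (M1 (EXL.hexW x) (bump L {p.1.2} (p.1.1 : Cfg))) * g (bump L {p.1.2} (p.1.1 : Cfg))
  rw [← mul_assoc, hc, ← ENNReal.ofReal_mul (by positivity)]
  refine mul_le_mul' (ENNReal.ofReal_le_ofReal (le_trans (le_of_eq ?_) h1)) h2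
  rw [Finset.card_singleton, mul_one]

/-- **one bump**: the mean number of cells of the leftmost column -/
theorem bump_one {x : ℝ} (hx : 0 < x) (hx1 : x ≤ 1) (L : ℤ) (f g : Cfg → ℝ≥0∞)
    (hfg : ∀ γ r, Lp γ → Lf γ L → (γ (L, r)).oc .N → f γ ≤ g (bump L {r} γ)) :
    Ms x L (fun γ => f γ * (Nc γ L : ℝ≥0∞)) ≤ ENNReal.ofReal (4 / x ^ 4) * Ms x (L - 1) g := by
  have h0 := bump_one_par hx hx1 L 0 f g hfg
  have h1 := bump_one_par hx hx1 L 1 f g hfg
  have h2 : Ms x L (fun γ => f γ * (Nc γ L : ℝ≥0∞)) ≤ 2 * (Ms x L (fun γ => f γ * ((VE γ L 0).card : ℝ≥0∞)) +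
      Ms x L (fun γ => f γ * ((VE γ L 1).card : ℝ≥0∞))) := by
    unfold Ms
    rw [← ENNReal.tsum_add, ← ENNReal.tsum_mul_left]
    refine ENNReal.tsum_le_tsum fun γ => ?_
    have h3 : (Nc (γ : Cfg) L : ℝ≥0∞) ≤ 2 * (((VE (γ : Cfg) L 0).card : ℝ≥0∞) + ((VE (γ : Cfg) L 1).card : ℝ≥0∞)) := by
      exact_mod_cast Nc_le γ.2.1 γ.2.2
    calc ENNReal.ofReal (M1 (EXL.hexW x) (γ : Cfg)) * (f γ * (Nc (γ : Cfg) L : ℝ≥0∞)) ≤
        ENNReal.ofReal (M1 (EXL.hexW x) (γ : Cfg)) *
          (f γ * (2 * (((VE (γ : Cfg) L 0).card : ℝ≥0∞) + ((VE (γ : Cfg) L 1).card : ℝ≥0∞)))) := by gcongr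
      _ = _ := by ring
  have e1 : ENNReal.ofReal (4 / x ^ 4) = 4 * (ENNReal.ofReal (x ^ 4))⁻¹ := by
    rw [div_eq_mul_inv, ENNReal.ofReal_mul (by norm_num), ENNReal.ofReal_inv_of_pos (by positivity)]
    congr 1
    simp
  have hc0 : ENNReal.ofReal (x ^ 4) ≠ 0 := by
    rw [ne_eq, ENNReal.ofReal_eq_zero, not_le]
    positivity
  have hct : ENNReal.ofReal (x ^ 4) ≠ ∞ := ENNReal.ofReal_ne_top
  have h4 : ∀ A : ℝ≥0∞, ENNReal.ofReal (x ^ 4) * A ≤ Ms x (L - 1) g → A ≤ (ENNReal.ofReal (x ^ 4))⁻¹ * Ms x (L - 1) g := by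
    intro A hA
    calc A = (ENNReal.ofReal (x ^ 4))⁻¹ * (ENNReal.ofReal (x ^ 4) * A) := by
          rw [← mul_assoc, ENNReal.inv_mul_cancel hc0 hct, one_mul]
      _ ≤ _ := mul_le_mul_right hA _
  refine h2.trans ((mul_le_mul_right (add_le_add (h4 _ h0) (h4 _ h1)) _).trans (le_of_eq ?_))
  rw [e1]
  ring

end Pool.Agent.ROT.LT
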