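import Pool.Agent.ROT.NMassL
import Pool.Agent.ROT.LTail

/-!
# ROT, (UI) for the loops (helper70): second moments of the numbers of cells of the four extreme lines;
the symmetries of the honeycomb on the loops modulo translation
-/

set_option autoImplicit false

namespace Pool.Agent.ROT.E.Hx

open Pool.Agent.ROT.L (hL hR hB hT hL_le le_hR hB_le le_hT hL_mem hR_mem hB_mem hT_mem hL_eq hR_eq hB_eq hT_eq)
open scoped ENNReal

/-! ### symmetries modulo translation -/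

/-- an automorphism with its linear part -/
structure Au2 extends Au where
  /-- the linear part in the coordinates (column, row) -/
  l : Pt ≃+ Pt
  tr : ∀ a e, b (trb a e) = trb (l a) (b e)

namespace Au2

variable (A : Au2)

theorem ac_trc (a : Pt) {γ : Cfg} (h : HL γ) : A.ac (trc a γ) = trc (A.l a) (A.ac γ) := by
  apply ub_ext (A.ny_ac _) (ny_trc (A.ny_ac _))
  intro f
  obtain ⟨g, rfl⟩ := A.b.surjective f
  rw [A.ub_ac (hl_trc.2 h)]
  obtain ⟨k, rfl⟩ : ∃ k, g = trb a k := ⟨_, (trb_surj a g).symm⟩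
  rw [A.tr, ub_trc, ub_trc, A.ub_ac h]

/-- **sums over the loops modulo translation** -/
theorem sum_mod (G : Cfg → ℝ≥0∞) (hG : ∀ a γ, HL γ → G (trc a γ) = G γ) :
    ∑' γ : {γ : Cfg // HL γ ∧ cor γ = 0}, wl γ.1 * G (A.ac γ.1) = ∑' γ : {γ : Cfg // HL γ ∧ cor γ = 0}, wl γ.1 * G γ.1 := by
  classical
  have h1 : ∑' γ : {γ : Cfg // HL γ ∧ cor γ = 0}, wl γ.1 * G γ.1 =
      ∑' γ : {γ : Cfg // HL γ}, wl γ.1 * (if cor γ.1 = 0 then G γ.1 else 0) := by
    have h4 := tsum_subtype {γ : Cfg | HL γ ∧ cor γ = 0} (fun γ => wl γ * G γ)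
    have h5 := tsum_subtype {γ : Cfg | HL γ} (fun γ => wl γ * (if cor γ = 0 then G γ else 0))
    refine h4.trans (Eq.trans ?_ h5.symm)
    apply tsum_congr
    intro γ
    simp only [Set.indicator_apply, Set.mem_ofPred_eq]
    by_cases h6 : HL γ <;> by_cases h7 : cor γ = 0 <;> simp [h6, h7]
  have h2 := A.sum_ac (fun γ => if cor γ = 0 then G γ else 0)
  rw [h1, ← h2]
  have h3 : ∑' γ : {γ : Cfg // HL γ}, wl γ.1 * (if cor (A.ac γ.1) = 0 then G (A.ac γ.1) else 0) =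
      ∑' γ : {γ : Cfg // HL γ ∧ A.l.symm (cor (A.ac γ)) = 0}, wl γ.1 * G (A.ac γ.1) := by
    have h4 := tsum_subtype {γ : Cfg | HL γ ∧ A.l.symm (cor (A.ac γ)) = 0} (fun γ => wl γ * G (A.ac γ))
    have h5 := tsum_subtype {γ : Cfg | HL γ} (fun γ => wl γ * (if cor (A.ac γ) = 0 then G (A.ac γ) else 0))
    refine h5.trans (Eq.trans ?_ h4.symm)
    apply tsum_congr
    intro γ
    simp only [Set.indicator_apply, Set.mem_ofPred_eq, EmbeddingLike.map_eq_zero_iff]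
    by_cases h6 : HL γ <;> by_cases h7 : cor (A.ac γ) = 0 <;> simp [h6, h7]
  rw [h3]
  refine mtp2 (top := cor) (top' := fun γ => A.l.symm (cor (A.ac γ))) cor_trc ?_ (fun γ => G (A.ac γ)) ?_
  · intro a γ h
    show A.l.symm (cor (A.ac (trc a γ))) = A.l.symm (cor (A.ac γ)) + a
    rw [A.ac_trc a h, cor_trc _ _ (A.hl_ac h), map_add, AddEquiv.symm_apply_apply]
  · intro a γ h
    show G (A.ac (trc a γ)) = G (A.ac γ)
    rw [A.ac_trc a h, hG _ _ (A.hl_ac h)]

end Au2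

/-- the linear part of the transposition -/
def tpl : Pt ≃+ Pt where
  toFun v := (v.2, v.1)
  invFun v := (v.2, v.1)
  left_inv _ := rfl
  right_inv _ := rfl
  map_add' _ _ := rfl

/-- **the transposition** -/
def tpA2 : Au2 where
  toAu := tpA
  l := tpl
  tr := by
    rintro ⟨a, a'⟩ ⟨⟨x, y⟩, s⟩
    cases s <;> rfl

/-- the point reflection of the bonds -/
def pr : Bo → Bo
  | (v, .ww) => (-v, .ee)
  | (v, .ss) => (-v, .nn)
  | (v, .ii) => (-v, .jj)
  | (v, .ee) => (-v, .ww)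
  | (v, .nn) => (-v, .ss)
  | (v, .jj) => (-v, .ii)

theorem pr_pr (e : Bo) : pr (pr e) = e := by
  obtain ⟨v, s⟩ := e
  cases s <;> simp [pr]

/-- **the point reflection** -/
def prA2 : Au2 where
  b := ⟨pr, pr, pr_pr, pr_pr⟩
  o := false
  rev := by
    rintro ⟨⟨x, y⟩, s⟩
    cases s <;> refine Prod.ext (Prod.ext ?_ ?_) rfl <;> simp [pr, rev] <;> ring
  tb := by
    rintro c ⟨⟨x, y⟩, s⟩
    cases c <;> cases s <;> refine Prod.ext (Prod.ext ?_ ?_) rfl <;> simp [pr, rev, Hx.tb, rt] <;> ring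
  l := AddEquiv.neg Pt
  tr := by
    rintro ⟨a, a'⟩ ⟨⟨x, y⟩, s⟩
    cases s <;> refine Prod.ext (Prod.ext ?_ ?_) rfl <;> simp [pr, trb] <;> ring

/-- the linear part of the rotation -/
def rol : Pt ≃+ Pt where
  toFun v := (-v.2, v.1 + v.2)
  invFun v := (v.1 + v.2, -v.1)
  left_inv v := by simp
  right_inv v := by simp
  map_add' v w := by
    refine Prod.ext ?_ ?_ <;> simp <;> ring

/-- **the rotation by 60 degrees** -/
def roA2 : Au2 where
  toAu := roA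
  l := rol
  tr := by
    rintro ⟨a, a'⟩ ⟨⟨x, y⟩, s⟩
    show ro (trb _ _) = trb _ (ro _)
    cases s <;> refine Prod.ext (Prod.ext ?_ ?_) rfl <;> simp [ro, trb, rol] <;> ring

/-- the cells of the image when the automorphism respects the cells -/
theorem supp_ac (A : Au) {g : Pt → Pt} (hg : ∀ e, (A.b e).1 = g e.1) {γ : Cfg} (h : HL γ) :
    (A.ac γ).support = γ.support.image g := by
  ext v
  rw [Finset.mem_image]
  constructor
  · intro hv
    obtain ⟨s, hs⟩ := ex_us (c := A.ac γ v) (Finsupp.mem_support_iff.1 hv)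
    obtain ⟨f, hf⟩ := A.b.surjective (v, s)
    have h1 : ub (A.ac γ) (A.b f) := by
      rw [hf]
      exact hs
    rw [A.ub_ac h] at h1
    exact ⟨f.1, ub_supp h1, by rw [← hg, hf]⟩
  · rintro ⟨w, hw, rfl⟩
    obtain ⟨s, hs⟩ := ex_us (c := γ w) (Finsupp.mem_support_iff.1 hw)
    have h1 : ub (A.ac γ) (A.b (w, s)) := (A.ub_ac h _).2 hs
    have := ub_supp h1
    rwa [hg] at this

theorem supp_tp {γ : Cfg} (h : HL γ) : (tpA2.ac γ).support = γ.support.image fun v => (v.2, v.1) := by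
  apply supp_ac _ _ h
  rintro ⟨v, s⟩
  cases s <;> rfl

theorem supp_pr {γ : Cfg} (h : HL γ) : (prA2.ac γ).support = γ.support.image fun v => -v := by
  apply supp_ac _ _ h
  rintro ⟨v, s⟩
  cases s <;> rfl

/-- the heights of the transposed loop -/
theorem ht_tp {γ : Cfg} (h : HL γ) : hL (tpA2.ac γ).support = hB γ.support ∧ hR (tpA2.ac γ).support = hT γ.support ∧
    hB (tpA2.ac γ).support = hL γ.support ∧ hT (tpA2.ac γ).support = hR γ.support := by
  have hne := supp_ne h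
  rw [supp_tp h]
  refine ⟨?_, ?_, ?_, ?_⟩
  · obtain ⟨w, hw, e⟩ := hB_mem hne
    refine hL_eq ⟨_, Finset.mem_image_of_mem _ hw, e⟩ ?_
    intro u hu
    obtain ⟨x, hx, rfl⟩ := Finset.mem_image.1 hu
    exact hB_le hx
  · obtain ⟨w, hw, e⟩ := hT_mem hne
    refine hR_eq ⟨_, Finset.mem_image_of_mem _ hw, e⟩ ?_
    intro u hu
    obtain ⟨x, hx, rfl⟩ := Finset.mem_image.1 hu
    exact le_hT hx
  · obtain ⟨w, hw, e⟩ := hL_mem hne
    refine hB_eq ⟨_, Finset.mem_image_of_mem _ hw, e⟩ ?_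
    intro u hu
    obtain ⟨x, hx, rfl⟩ := Finset.mem_image.1 hu
    exact hL_le hx
  · obtain ⟨w, hw, e⟩ := hR_mem hne
    refine hT_eq ⟨_, Finset.mem_image_of_mem _ hw, e⟩ ?_
    intro u hu
    obtain ⟨x, hx, rfl⟩ := Finset.mem_image.1 hu
    exact le_hR hx

/-- the heights of the reflected loop -/
theorem ht_pr {γ : Cfg} (h : HL γ) : hL (prA2.ac γ).support = -hR γ.support ∧ hR (prA2.ac γ).support = -hL γ.support ∧
    hB (prA2.ac γ).support = -hT γ.support ∧ hT (prA2.ac γ).support = -hB γ.support := by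
  have hne := supp_ne h
  rw [supp_pr h]
  refine ⟨?_, ?_, ?_, ?_⟩
  · obtain ⟨w, hw, e⟩ := hR_mem hne
    refine hL_eq ⟨_, Finset.mem_image_of_mem _ hw, by rw [Prod.fst_neg, e]⟩ ?_
    intro u hu
    obtain ⟨x, hx, rfl⟩ := Finset.mem_image.1 hu
    have := le_hR hx
    rw [Prod.fst_neg]
    omega
  · obtain ⟨w, hw, e⟩ := hL_mem hne
    refine hR_eq ⟨_, Finset.mem_image_of_mem _ hw, by rw [Prod.fst_neg, e]⟩ ?_
    intro u hu
    obtain ⟨x, hx, rfl⟩ := Finset.mem_image.1 hu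
    have := hL_le hx
    rw [Prod.fst_neg]
    omega
  · obtain ⟨w, hw, e⟩ := hT_mem hne
    refine hB_eq ⟨_, Finset.mem_image_of_mem _ hw, by rw [Prod.snd_neg, e]⟩ ?_
    intro u hu
    obtain ⟨x, hx, rfl⟩ := Finset.mem_image.1 hu
    have := le_hT hx
    rw [Prod.snd_neg]
    omega
  · obtain ⟨w, hw, e⟩ := hB_mem hne
    refine hT_eq ⟨_, Finset.mem_image_of_mem _ hw, by rw [Prod.snd_neg, e]⟩ ?_
    intro u hu
    obtain ⟨x, hx, rfl⟩ := Finset.mem_image.1 hu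
    have := hB_le hx
    rw [Prod.snd_neg]
    omega

theorem ex_tp {γ : Cfg} (h : HL γ) : exC (tpA2.ac γ) = exR γ ∧ exR (tpA2.ac γ) = exC γ := by
  obtain ⟨h1, h2, h3, h4⟩ := ht_tp h
  unfold exC exR
  rw [h1, h2, h3, h4]
  exact ⟨rfl, rfl⟩

theorem ex_pr {γ : Cfg} (h : HL γ) : exC (prA2.ac γ) = exC γ ∧ exR (prA2.ac γ) = exR γ := by
  obtain ⟨h1, h2, h3, h4⟩ := ht_pr h
  unfold exC exR
  rw [h1, h2, h3, h4]
  omega

/-! ### the numbers of cells of the extreme lines -/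

/-- the number of cells of the extreme line: `0` first column, `1` last column, `2` first row, `3` last row -/
noncomputable def nE (γ : Cfg) (u : Fin 4) : ℕ :=
  ![(γ.support.filter fun v => v.1 = hL γ.support).card, (γ.support.filter fun v => v.1 = hR γ.support).card,
    (γ.support.filter fun v => v.2 = hB γ.support).card, (γ.support.filter fun v => v.2 = hT γ.support).card] u

theorem filt_image {S : Finset Pt} {g : Pt → Pt} (hg : Function.Injective g) (P Q : Pt → Prop) [DecidablePred P]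
    [DecidablePred Q] (h : ∀ v, P (g v) ↔ Q v) : ((S.image g).filter P).card = (S.filter Q).card := by
  rw [Finset.filter_image, Finset.card_image_of_injective _ hg]
  congr 1
  exact Finset.filter_congr fun v _ => h v

theorem nE_trc (a : Pt) {γ : Cfg} (h : HL γ) (u : Fin 4) : nE (trc a γ) u = nE γ u := by
  obtain ⟨h1, h2, h3, h4⟩ := ht_trc a h
  unfold nE
  rw [h1, h2, h3, h4, supp_trc]
  have hi : Function.Injective fun v : Pt => v + a := fun x y h => add_right_cancel h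
  have hu : u = 0 ∨ u = 1 ∨ u = 2 ∨ u = 3 := by
    revert u
    decide
  rcases hu with rfl | rfl | rfl | rfl
  · exact filt_image hi _ _ fun v => by simp
  · exact filt_image hi _ _ fun v => by simp
  · exact filt_image hi _ _ fun v => by simp
  · exact filt_image hi _ _ fun v => by simp

theorem nE_tp {γ : Cfg} (h : HL γ) : nE (tpA2.ac γ) 0 = nE γ 2 ∧ nE (tpA2.ac γ) 1 = nE γ 3 ∧
    nE (tpA2.ac γ) 2 = nE γ 0 ∧ nE (tpA2.ac γ) 3 = nE γ 1 := by
  obtain ⟨h1, h2, h3, h4⟩ := ht_tp h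
  have hi : Function.Injective fun v : Pt => ((v.2, v.1) : Pt) := fun x y h => by
    obtain ⟨a, b⟩ := Prod.mk.inj h
    exact Prod.ext b a
  unfold nE
  rw [h1, h2, h3, h4, supp_tp h]
  exact ⟨filt_image hi _ _ fun v => Iff.rfl, filt_image hi _ _ fun v => Iff.rfl, filt_image hi _ _ fun v => Iff.rfl,
    filt_image hi _ _ fun v => Iff.rfl⟩

theorem nE_pr {γ : Cfg} (h : HL γ) : nE (prA2.ac γ) 0 = nE γ 1 ∧ nE (prA2.ac γ) 1 = nE γ 0 ∧
    nE (prA2.ac γ) 2 = nE γ 3 ∧ nE (prA2.ac γ) 3 = nE γ 2 := by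
  obtain ⟨h1, h2, h3, h4⟩ := ht_pr h
  have hi : Function.Injective fun v : Pt => -v := neg_injective
  unfold nE
  rw [h1, h2, h3, h4, supp_pr h]
  exact ⟨filt_image hi _ _ fun v => by simp, filt_image hi _ _ fun v => by simp, filt_image hi _ _ fun v => by simp,
    filt_image hi _ _ fun v => by simp⟩

/-! ### the second moment, left column -/

theorem lf_iff {γ : Cfg} (h : γ.support.Nonempty) (L : ℤ) : LT.Lf γ L ↔ hL γ.support = L := by
  constructor
  · rintro ⟨⟨r, hr⟩, h2⟩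
    exact hL_eq ⟨(L, r), Finsupp.mem_support_iff.2 hr, rfl⟩ fun v hv => h2 v (Finsupp.mem_support_iff.1 hv)
  · rintro rfl
    obtain ⟨w, hw, e⟩ := hL_mem h
    refine ⟨⟨w.2, ?_⟩, fun v hv => hL_le (Finsupp.mem_support_iff.2 hv)⟩
    rw [← e]
    exact Finsupp.mem_support_iff.1 hw

theorem lp_ne {γ : Cfg} (h : Lp γ) : γ.support.Nonempty := Finsupp.support_nonempty_iff.2 h.ne

theorem sum_Lf (L : ℤ) (F : Cfg → ℝ≥0∞) :
    ∑' γ : {γ : Cfg // Lp γ ∧ LT.Lf γ L}, ENNReal.ofReal (LT.M1 (UNI.wR (Real.pi / 8)) γ) * F γ =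
      ∑' γ : {γ : Cfg // HL γ}, wl γ.1 * (if hL γ.1.support = L then F γ.1 else 0) := by
  classical
  have h4 := tsum_subtype {γ : Cfg | Lp γ ∧ LT.Lf γ L} (fun γ => ENNReal.ofReal (LT.M1 (UNI.wR (Real.pi / 8)) γ) * F γ)
  have h5 := tsum_subtype {γ : Cfg | HL γ} (fun γ => wl γ * (if hL γ.support = L then F γ else 0))
  refine h4.trans (Eq.trans ?_ h5.symm)
  apply tsum_congr
  intro γ
  simp only [Set.indicator_apply, Set.mem_ofPred_eq]
  have e1 : LT.M1 (UNI.wR (Real.pi / 8)) γ = if Ny γ then HexObs.xc ^ (hs γ).card else 0 := by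
    rw [← prod_hex]
    rfl
  by_cases hl : Lp γ
  · have hf := lf_iff (lp_ne hl) L
    by_cases hy : Ny γ
    · have h : HL γ := ⟨hl, hy⟩
      by_cases hL' : hL γ.support = L
      · rw [if_pos ⟨hl, hf.2 hL'⟩, if_pos h, if_pos hL', e1, if_pos hy]
        rfl
      · rw [if_neg (fun h => hL' (hf.1 h.2)), if_pos h, if_neg hL', mul_zero]
    · rw [if_neg (fun h : HL γ => hy h.ny), e1, if_neg hy, ENNReal.ofReal_zero, zero_mul]
      simp
  · rw [if_neg (fun h => hl h.1), if_neg (fun h : HL γ => hl h.lp)]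

open Classical in
/-- the indicator of the size -/
noncomputable def big (R : ℝ) (γ : Cfg) : ℝ≥0∞ := if R ≤ exC γ ∨ R ≤ exR γ then 1 else 0

theorem big_trc (R : ℝ) (a : Pt) {γ : Cfg} (h : HL γ) : big R (trc a γ) = big R γ := by
  unfold big
  rw [(ex_trc a h).1, (ex_trc a h).2]

open Classical in
/-- the sum with a fixed first column and first row 0 -/
theorem sum_cor (L : ℤ) (G : Cfg → ℝ≥0∞) (hG : ∀ a γ, HL γ → G (trc a γ) = G γ) :
    ∑' γ : {γ : Cfg // HL γ}, wl γ.1 * (if hL γ.1.support = L then (if hB γ.1.support = 0 then G γ.1 else 0) else 0) =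
      ∑' γ : {γ : Cfg // HL γ ∧ cor γ = 0}, wl γ.1 * G γ.1 := by
  rw [mtp2 (top := cor) (top' := fun γ => cor γ - (L, 0)) cor_trc (by
    intro a γ h
    simp only [cor_trc a γ h]
    abel) G hG]
  have h4 := tsum_subtype {γ : Cfg | HL γ ∧ cor γ - (L, 0) = 0} (fun γ => wl γ * G γ)
  have h5 := tsum_subtype {γ : Cfg | HL γ} (fun γ => wl γ *
    (if hL γ.support = L then (if hB γ.support = 0 then G γ else 0) else 0))
  refine h5.trans (Eq.trans ?_ h4.symm)
  apply tsum_congr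
  intro γ
  have hc : cor γ - (L, 0) = 0 ↔ hL γ.support = L ∧ hB γ.support = 0 := by
    rw [sub_eq_zero]
    unfold cor
    rw [Prod.mk.injEq]
  simp only [Set.indicator_apply, Set.mem_ofPred_eq, hc]
  by_cases h6 : HL γ <;> by_cases h7 : hL γ.support = L <;> by_cases h8 : hB γ.support = 0 <;> simp [h6, h7, h8]

/-- a bump does not decrease the size and keeps the first row -/
theorem bump_big {L e : ℤ} {S : Finset ℤ} {γ : Cfg} (h : LT.Ad L S γ e) (hS : S.Nonempty) :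
    hB (LT.bump L S γ).support = hB γ.support ∧ exC γ ≤ exC (LT.bump L S γ) ∧ exR (LT.bump L S γ) = exR γ := by
  have hne := lp_ne h.lp
  have hne' := lp_ne (LT.bump_Lp h)
  have hsub : ∀ v ∈ γ.support, v ∈ (LT.bump L S γ).support := by
    intro v hv
    rw [Finsupp.mem_support_iff] at hv ⊢
    exact (LT.bump_ne h v).2 (Or.inl hv)
  have hrow : ∀ v ∈ (LT.bump L S γ).support, ∃ v' ∈ γ.support, v'.2 = v.2 := by
    intro v hv
    rw [Finsupp.mem_support_iff] at hv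
    obtain ⟨v', h1, -, h3⟩ := LT.bump_row h hv
    exact ⟨v', Finsupp.mem_support_iff.2 h3, h1⟩
  have e1 : hB (LT.bump L S γ).support = hB γ.support := by
    obtain ⟨w, hw, e⟩ := hB_mem hne
    refine hB_eq ⟨w, hsub w hw, e⟩ ?_
    intro v hv
    obtain ⟨v', h1, h2⟩ := hrow v hv
    rw [← h2]
    exact hB_le h1
  have e2 : hT (LT.bump L S γ).support = hT γ.support := by
    obtain ⟨w, hw, e⟩ := hT_mem hne
    refine hT_eq ⟨w, hsub w hw, e⟩ ?_
    intro v hv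
    obtain ⟨v', h1, h2⟩ := hrow v hv
    rw [← h2]
    exact le_hT h1
  refine ⟨e1, ?_, ?_⟩
  · have h1 := (lf_iff hne L).1 h.lf
    have h2 := (lf_iff hne' (L - 1)).1 (LT.bump_Lf h hS)
    obtain ⟨w, hw, e⟩ := hR_mem hne
    have h3 := le_hR (hsub w hw)
    unfold exC
    omega
  · unfold exR
    rw [e1, e2]

/-- **(UI), left column** -/
theorem uiL (h : MassU) : ∃ C : ℝ, 0 < C ∧ ∀ R : ℝ, 1 ≤ R →
    ∑' γ : {γ : Cfg // HL γ ∧ cor γ = 0}, wl γ.1 * (big R γ.1 * (nE γ.1 0 : ℝ≥0∞) ^ 2) ≤ ENNReal.ofReal (C / R ^ 2) := by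
  classical
  obtain ⟨C, hC, hU⟩ := loopU h
  have hx := HexObs.xc_pos
  refine ⟨32 / HexObs.xc ^ 8 * (2 * C), by positivity, fun R hR => ?_⟩
  have hb := LT.bump_sq_hex 0 (fun γ => if hB γ.support = 0 then big R γ else 0)
    (fun γ => if hB γ.support = 0 then big R γ else 0) (by
      intro γ S e ha hS
      obtain ⟨h1, h2, h3⟩ := bump_big ha hS
      simp only [h1]
      split_ifs with h4
      · unfold big
        split_ifs with h5 h6
        · exact le_rfl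
        · exfalso
          apply h6
          rcases h5 with h5 | h5
          · left
            refine h5.trans ?_
            exact_mod_cast h2
          · right
            rw [h3]
            exact h5
        · exact zero_le
        · exact le_rfl
      · exact le_rfl)
  rw [sum_Lf 0 (fun γ => if hB γ.support = 0 then big R γ else 0),
    sum_Lf (0 - 1) (fun γ => if hB γ.support = 0 then big R γ else 0),
    sum_cor 0 (big R) (fun a γ h => big_trc R a h), sum_cor (0 - 1) (big R) (fun a γ h => big_trc R a h)] at hb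
  have h1 := sum_Lf 0 (fun γ => (if hB γ.support = 0 then big R γ else 0) * (LT.Nc γ 0 : ℝ≥0∞) ^ 2)
  rw [h1] at hb
  have h2 : ∑' γ : {γ : Cfg // HL γ}, wl γ.1 * (if hL γ.1.support = 0 then
      (if hB γ.1.support = 0 then big R γ.1 else 0) * (LT.Nc γ.1 0 : ℝ≥0∞) ^ 2 else 0) =
      ∑' γ : {γ : Cfg // HL γ ∧ cor γ = 0}, wl γ.1 * (big R γ.1 * (nE γ.1 0 : ℝ≥0∞) ^ 2) := by
    rw [← sum_cor 0 (fun γ => big R γ * (nE γ 0 : ℝ≥0∞) ^ 2) (fun a γ h => by rw [big_trc R a h, nE_trc a h])]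
    apply tsum_congr
    rintro ⟨γ, hγ⟩
    simp only
    congr 1
    split_ifs with h3 h4
    · congr 2
      unfold nE LT.Nc
      simp only [h3]
      rfl
    · rw [zero_mul]
    · rfl
  rw [h2] at hb
  refine hb.trans ?_
  have h3 : ∑' γ : {γ : Cfg // HL γ ∧ cor γ = 0}, wl γ.1 * big R γ.1 ≤ ENNReal.ofReal (C / R ^ 2) := hU R hR
  refine (mul_le_mul_right (add_le_add h3 h3) _).trans (le_of_eq ?_)
  rw [← two_mul, show (2 : ℝ≥0∞) = ENNReal.ofReal 2 by simp, ← ENNReal.ofReal_mul (by norm_num),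
    ← ENNReal.ofReal_mul (by positivity)]
  congr 1
  ring

/-- **(UI), the four sides** -/
theorem uiE (h : MassU) : ∃ C : ℝ, 0 < C ∧ ∀ (u : Fin 4) (R : ℝ), 1 ≤ R →
    ∑' γ : {γ : Cfg // HL γ ∧ cor γ = 0}, wl γ.1 * (big R γ.1 * (nE γ.1 u : ℝ≥0∞) ^ 2) ≤ ENNReal.ofReal (C / R ^ 2) := by
  obtain ⟨C, hC, h0⟩ := uiL h
  have hG : ∀ (R : ℝ) (u : Fin 4) (a : Pt) (γ : Cfg), HL γ → big R (trc a γ) * (nE (trc a γ) u : ℝ≥0∞) ^ 2 =
      big R γ * (nE γ u : ℝ≥0∞) ^ 2 := fun R u a γ h => by rw [big_trc R a h, nE_trc a h]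
  have hp : ∀ (R : ℝ) (u u' : Fin 4), (∀ γ, HL γ → nE (prA2.ac γ) u = nE γ u') →
      ∑' γ : {γ : Cfg // HL γ ∧ cor γ = 0}, wl γ.1 * (big R γ.1 * (nE γ.1 u' : ℝ≥0∞) ^ 2) =
      ∑' γ : {γ : Cfg // HL γ ∧ cor γ = 0}, wl γ.1 * (big R γ.1 * (nE γ.1 u : ℝ≥0∞) ^ 2) := by
    intro R u u' hu
    rw [← prA2.sum_mod (fun γ => big R γ * (nE γ u : ℝ≥0∞) ^ 2) (hG R u)]
    apply tsum_congr
    rintro ⟨γ, hγ, -⟩
    simp only
    have : big R (prA2.ac γ) = big R γ := by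
      unfold big
      rw [(ex_pr hγ).1, (ex_pr hγ).2]
    rw [this, hu γ hγ]
  have ht : ∀ (R : ℝ) (u u' : Fin 4), (∀ γ, HL γ → nE (tpA2.ac γ) u = nE γ u') →
      ∑' γ : {γ : Cfg // HL γ ∧ cor γ = 0}, wl γ.1 * (big R γ.1 * (nE γ.1 u' : ℝ≥0∞) ^ 2) =
      ∑' γ : {γ : Cfg // HL γ ∧ cor γ = 0}, wl γ.1 * (big R γ.1 * (nE γ.1 u : ℝ≥0∞) ^ 2) := by
    intro R u u' hu
    rw [← tpA2.sum_mod (fun γ => big R γ * (nE γ u : ℝ≥0∞) ^ 2) (hG R u)]
    apply tsum_congr
    rintro ⟨γ, hγ, -⟩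
    simp only
    have : big R (tpA2.ac γ) = big R γ := by
      unfold big
      rw [(ex_tp hγ).1, (ex_tp hγ).2]
      exact if_congr or_comm rfl rfl
    rw [this, hu γ hγ]
  have h1 : ∀ R : ℝ, 1 ≤ R → ∑' γ : {γ : Cfg // HL γ ∧ cor γ = 0}, wl γ.1 * (big R γ.1 * (nE γ.1 1 : ℝ≥0∞) ^ 2) ≤
      ENNReal.ofReal (C / R ^ 2) := fun R hR => by
    rw [hp R 0 1 fun γ h => (nE_pr h).1]
    exact h0 R hR
  have h2 : ∀ R : ℝ, 1 ≤ R → ∑' γ : {γ : Cfg // HL γ ∧ cor γ = 0}, wl γ.1 * (big R γ.1 * (nE γ.1 2 : ℝ≥0∞) ^ 2) ≤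
      ENNReal.ofReal (C / R ^ 2) := fun R hR => by
    rw [ht R 0 2 fun γ h => (nE_tp h).1]
    exact h0 R hR
  have h3 : ∀ R : ℝ, 1 ≤ R → ∑' γ : {γ : Cfg // HL γ ∧ cor γ = 0}, wl γ.1 * (big R γ.1 * (nE γ.1 3 : ℝ≥0∞) ^ 2) ≤
      ENNReal.ofReal (C / R ^ 2) := fun R hR => by
    rw [ht R 1 3 fun γ h => (nE_tp h).2.1]
    exact h1 R hR
  refine ⟨C, hC, fun u R hR => ?_⟩
  have hu : u = 0 ∨ u = 1 ∨ u = 2 ∨ u = 3 := by
    revert u
    decide
  rcases hu with rfl | rfl | rfl | rfl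
  · exact h0 R hR
  · exact h1 R hR
  · exact h2 R hR
  · exact h3 R hR

end Pool.Agent.ROT.E.Hx
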