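import Pool.Agent.ROT.A7Defs

/-!
# ROT, row UI1 (helper70): first moments of the responses in families, from one polygon
-/

set_option autoImplicit false

open Finset Filter Topology

namespace Pool.Agent.ROT.A

namespace PSys

variable (S : PSys)

open Classical in
/-- **first moment of the responses of one polygon** with a given corner -/
def UI0 : Prop := ∀ (u : Fin 4) (r s : ℝ), 0 < r → r < s → ∃ C : ℝ, ∃ N0 : ℝ, ∀ N : ℝ, N0 ≤ N → ∀ n : ℕ,
  N ^ 2 * ∑ p ∈ S.box n, (if S.co p = 0 ∧ S.Win r s N p then S.M p * (S.Qf p u + S.Cf p u) else 0) ≤ C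

variable {S}

/-- sums over a box, by the corner -/
theorem box_sum {F : S.P → ℝ} (F0 : ∀ p, 0 ≤ F p) (Ft : ∀ z p, F (S.tr z p) = F p) (n : ℕ) :
    ∑ p ∈ S.box n, F p ≤ (2 * n + 1) ^ 2 * ∑ p ∈ (S.box (2 * n)).filter (fun p => S.co p = 0 ∧
      S.ht p 1 ≤ 2 * n ∧ S.ht p 3 ≤ 2 * n), F p := by
  classical
  have hmap : ∀ p ∈ S.box n, S.co p ∈ (Finset.Icc (-(n : ℤ)) n ×ˢ Finset.Icc (-(n : ℤ)) n) := by
    intro p hp
    rw [S.mem_box] at hp
    rw [Finset.mem_product, Finset.mem_Icc, Finset.mem_Icc]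
    exact ⟨abs_le.1 (hp 0), abs_le.1 (hp 2)⟩
  rw [← Finset.sum_fiberwise_of_maps_to hmap]
  have hz : ∀ z ∈ (Finset.Icc (-(n : ℤ)) n ×ˢ Finset.Icc (-(n : ℤ)) n), ∑ p ∈ (S.box n).filter (fun p => S.co p = z), F p ≤
      ∑ p ∈ (S.box (2 * n)).filter (fun p => S.co p = 0 ∧ S.ht p 1 ≤ 2 * n ∧ S.ht p 3 ≤ 2 * n), F p := by
    intro z _
    have h1 : ∑ p ∈ (S.box n).filter (fun p => S.co p = z), F p =
        ∑ p ∈ ((S.box n).filter (fun p => S.co p = z)).image (S.tr (-z)), F p := by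
      rw [Finset.sum_image (fun x _ y _ h => (S.tr (-z)).injective h)]
      exact Finset.sum_congr rfl fun p _ => (Ft _ _).symm
    rw [h1]
    refine Finset.sum_le_sum_of_subset_of_nonneg ?_ fun p _ _ => F0 p
    intro q hq
    rw [Finset.mem_image] at hq
    obtain ⟨p, hp, rfl⟩ := hq
    rw [Finset.mem_filter, S.mem_box] at hp
    obtain ⟨hb, hc⟩ := hp
    obtain ⟨t0, t1, t2, t3⟩ := S.tr_ht (-z) p
    have z1 : z.1 = S.ht p 0 := by rw [← hc]; rfl
    have z2 : z.2 = S.ht p 2 := by rw [← hc]; rfl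
    have a0 := abs_le.1 (hb 0)
    have a1 := abs_le.1 (hb 1)
    have a2 := abs_le.1 (hb 2)
    have a3 := abs_le.1 (hb 3)
    have l1 := S.le01 p
    have l2 := S.le23 p
    simp only [Prod.fst_neg, Prod.snd_neg] at t0 t1 t2 t3
    rw [Finset.mem_filter, S.mem_box]
    refine ⟨?_, ?_, ?_, ?_⟩
    · intro u
      have hu : u = 0 ∨ u = 1 ∨ u = 2 ∨ u = 3 := by
        revert u
        decide
      rcases hu with rfl | rfl | rfl | rfl
      · rw [t0, abs_le]
        push_cast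
        omega
      · rw [t1, abs_le]
        push_cast
        omega
      · rw [t2, abs_le]
        push_cast
        omega
      · rw [t3, abs_le]
        push_cast
        omega
    · refine Prod.ext ?_ ?_
      · show S.ht _ 0 = 0
        rw [t0]
        omega
      · show S.ht _ 2 = 0
        rw [t2]
        omega
    · rw [t1]
      omega
    · rw [t3]
      omega
  refine (Finset.sum_le_sum hz).trans (le_of_eq ?_)
  rw [Finset.sum_const, Finset.card_product, Int.card_Icc, nsmul_eq_mul]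
  congr 1
  have : ((n : ℤ) + 1 - -(n : ℤ)).toNat = 2 * n + 1 := by omega
  rw [this]
  push_cast
  ring

open Classical in
/-- the mass of the polygons of the box with both extents at least `δ N`, weight `q` -/
theorem box_mass {q : S.P → ℝ} (q0 : ∀ p, 0 ≤ q p) (qt : ∀ z p, q (S.tr z p) = q p) {K : ℕ} {δ C N0 : ℝ} (hδ : 0 < δ)
    (h : ∀ N : ℝ, N0 ≤ N → ∀ n : ℕ, N ^ 2 * ∑ p ∈ S.box n,
      (if S.co p = 0 ∧ S.Win δ (2 * K + δ + 1) N p then S.M p * q p else 0) ≤ C) {N : ℕ} (hN : N0 ≤ N) (hN1 : 1 ≤ N) :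
    ∑ p ∈ S.box (K * N), (if δ * N ≤ (S.ht p 1 : ℝ) - S.ht p 0 ∧ δ * N ≤ (S.ht p 3 : ℝ) - S.ht p 2 then
      S.M p * q p else 0) ≤ (2 * K + 1) ^ 2 * C := by
  have hNr : (1 : ℝ) ≤ N := by exact_mod_cast hN1
  set F : S.P → ℝ := fun p => if δ * N ≤ (S.ht p 1 : ℝ) - S.ht p 0 ∧ δ * N ≤ (S.ht p 3 : ℝ) - S.ht p 2 then
      S.M p * q p else 0 with hF
  have F0 : ∀ p, 0 ≤ F p := by
    intro p
    simp only [hF]
    split_ifs
    · exact mul_nonneg (S.M_nn p) (q0 p)
    · exact le_rfl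
  have Ft : ∀ z p, F (S.tr z p) = F p := by
    intro z p
    obtain ⟨t0, t1, t2, t3⟩ := S.tr_ht z p
    simp only [hF, t0, t1, t2, t3, S.tr_M, qt]
    have e1 : (((S.ht p 1 + z.1 : ℤ) : ℝ) - ((S.ht p 0 + z.1 : ℤ) : ℝ)) = (S.ht p 1 : ℝ) - S.ht p 0 := by
      push_cast
      ring
    have e2 : (((S.ht p 3 + z.2 : ℤ) : ℝ) - ((S.ht p 2 + z.2 : ℤ) : ℝ)) = (S.ht p 3 : ℝ) - S.ht p 2 := by
      push_cast
      ring
    rw [e1, e2]
  refine (box_sum F0 Ft (K * N)).trans ?_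
  have h1 := h N hN (2 * (K * N))
  have h2 : ∑ p ∈ (S.box (2 * (K * N))).filter (fun p => S.co p = 0 ∧ S.ht p 1 ≤ 2 * (K * N : ℕ) ∧
      S.ht p 3 ≤ 2 * (K * N : ℕ)), F p ≤ ∑ p ∈ S.box (2 * (K * N)),
      (if S.co p = 0 ∧ S.Win δ (2 * K + δ + 1) N p then S.M p * q p else 0) := by
    rw [Finset.sum_filter]
    refine Finset.sum_le_sum fun p _ => ?_
    by_cases hc : S.co p = 0 ∧ S.ht p 1 ≤ 2 * (K * N : ℕ) ∧ S.ht p 3 ≤ 2 * (K * N : ℕ)
    · rw [if_pos hc]
      obtain ⟨c0, c1, c3⟩ := hc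
      simp only [hF]
      by_cases he : δ * N ≤ (S.ht p 1 : ℝ) - S.ht p 0 ∧ δ * N ≤ (S.ht p 3 : ℝ) - S.ht p 2
      · have h00 : S.ht p 0 = 0 := congrArg Prod.fst c0
        have h20 : S.ht p 2 = 0 := congrArg Prod.snd c0
        have c1' : (S.ht p 1 : ℝ) ≤ 2 * (K * N) := by exact_mod_cast c1
        have c3' : (S.ht p 3 : ℝ) ≤ 2 * (K * N) := by exact_mod_cast c3
        have hx : (0 : ℝ) ≤ (δ + 1) * N := by positivity
        rw [if_pos he, if_pos]
        refine ⟨c0, ⟨he.1, ?_⟩, he.2, ?_⟩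
        · rw [h00]
          push_cast
          nlinarith
        · rw [h20]
          push_cast
          nlinarith
      · rw [if_neg he]
        split_ifs
        · exact mul_nonneg (S.M_nn p) (q0 p)
        · exact le_rfl
    · rw [if_neg hc]
      split_ifs
      · exact mul_nonneg (S.M_nn p) (q0 p)
      · exact le_rfl
  have h3 : (2 * ((K * N : ℕ) : ℝ) + 1) ^ 2 ≤ (2 * K + 1) ^ 2 * (N : ℝ) ^ 2 := by
    rw [← mul_pow]
    push_cast
    apply pow_le_pow_left₀ (by positivity)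
    nlinarith
  have h4 : 0 ≤ ∑ p ∈ S.box (2 * (K * N)),
      (if S.co p = 0 ∧ S.Win δ (2 * K + δ + 1) N p then S.M p * q p else 0) :=
    Finset.sum_nonneg fun p _ => by
      split_ifs
      · exact mul_nonneg (S.M_nn p) (q0 p)
      · exact le_rfl
  calc _ ≤ (2 * ((K * N : ℕ) : ℝ) + 1) ^ 2 * ∑ p ∈ S.box (2 * (K * N)),
        (if S.co p = 0 ∧ S.Win δ (2 * K + δ + 1) N p then S.M p * q p else 0) :=
        mul_le_mul_of_nonneg_left h2 (by positivity)
    _ ≤ (2 * K + 1) ^ 2 * (N : ℝ) ^ 2 * ∑ p ∈ S.box (2 * (K * N)),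
        (if S.co p = 0 ∧ S.Win δ (2 * K + δ + 1) N p then S.M p * q p else 0) :=
        mul_le_mul_of_nonneg_right h3 h4
    _ = (2 * K + 1) ^ 2 * ((N : ℝ) ^ 2 * ∑ p ∈ S.box (2 * (K * N)),
        (if S.co p = 0 ∧ S.Win δ (2 * K + δ + 1) N p then S.M p * q p else 0)) := by ring
    _ ≤ _ := mul_le_mul_of_nonneg_left h1 (by positivity)

/-- **first moments of the responses in families** -/
theorem ui1 (hQ : ∀ z p u, S.Qf (S.tr z p) u = S.Qf p u) (hC : ∀ z p u, S.Cf (S.tr z p) u = S.Cf p u) (hM : S.Mass)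
    (hU : S.UI0) : S.UI1 := by
  classical
  intro I _ _ τ K δ hδ
  obtain ⟨C1, N1, h1⟩ := hM.2 δ (2 * K + δ + 1) hδ (by
    have : (0 : ℝ) ≤ K := Nat.cast_nonneg K
    linarith)
  have h1' : ∀ N : ℝ, N1 ≤ N → ∀ n : ℕ, N ^ 2 * ∑ p ∈ S.box n,
      (if S.co p = 0 ∧ S.Win δ (2 * K + δ + 1) N p then S.M p * 1 else 0) ≤ C1 := by
    intro N hN n
    have := h1 N hN n
    unfold mass at this
    simpa only [mul_one] using this
  choose C2 N2 h2 using fun u : Fin 4 => hU u δ (2 * K + δ + 1) hδ (by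
    have : (0 : ℝ) ≤ K := Nat.cast_nonneg K
    linarith)
  -- constants
  set D1 : ℝ := max 1 ((2 * K + 1) ^ 2 * C1) with hD1
  set D2 : ℝ := ∑ u, |(2 * K + 1) ^ 2 * C2 u| with hD2
  have hD1' : 1 ≤ D1 := le_max_left _ _
  refine ⟨D1 ^ (Fintype.card I) * D2, ?_⟩
  have hN2s : ∀ᶠ N : ℕ in atTop, ∀ u : Fin 4, N2 u ≤ N := by
    rw [eventually_all]
    intro u
    exact (tendsto_natCast_atTop_atTop (R := ℝ)).eventually_ge_atTop (N2 u)
  filter_upwards [(tendsto_natCast_atTop_atTop (R := ℝ)).eventually_ge_atTop N1, hN2s, eventually_ge_atTop 1] with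
    N hN1 hN2 hN i u
  have hNr : (1 : ℝ) ≤ N := by exact_mod_cast hN
  have hN0 : (0 : ℝ) < N := by linarith
  -- the factors
  set E : S.P → Prop := fun p => δ * N ≤ (S.ht p 1 : ℝ) - S.ht p 0 ∧ δ * N ≤ (S.ht p 3 : ℝ) - S.ht p 2 with hE
  set g : I → S.P → ℝ := fun k p => if E p then S.M p * (if k = i then S.Qf p u + S.Cf p u else 1) else 0 with hg
  have g0 : ∀ k p, 0 ≤ g k p := by
    intro k p
    simp only [hg]
    split_ifs
    · exact mul_nonneg (S.M_nn p) (add_nonneg (S.Q_nn p u) (S.C_nn p u))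
    · exact mul_nonneg (S.M_nn p) zero_le_one
    · exact le_rfl
  have key : S.fsum (K * N) τ (fun γ => if Sup K δ (fun k => S.hN N (γ k)) then S.Qf (γ i) u + S.Cf (γ i) u else 0) ≤
      ∏ k, ∑ p ∈ S.box (K * N), g k p := by
    unfold fsum
    rw [Finset.prod_univ_sum]
    refine Finset.sum_le_sum fun γ _ => ?_
    have hnn : 0 ≤ ∏ k, g k (γ k) := Finset.prod_nonneg fun k _ => g0 k _
    beta_reduce
    split_ifs with hp hs
    · have hEk : ∀ k, E (γ k) := by
        intro k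
        obtain ⟨a1, a2⟩ := hs.2 k
        unfold PSys.hN at a1 a2
        rw [← sub_div, le_div_iff₀ hN0] at a1 a2
        exact ⟨a1, a2⟩
      have e1 : ∏ k, g k (γ k) = (∏ k, S.M (γ k)) * (S.Qf (γ i) u + S.Cf (γ i) u) := by
        have e2 : ∀ k, g k (γ k) = S.M (γ k) * (if k = i then S.Qf (γ k) u + S.Cf (γ k) u else 1) := by
          intro k
          simp only [hg]
          rw [if_pos (hEk k)]
        rw [Finset.prod_congr rfl fun k _ => e2 k, Finset.prod_mul_distrib]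
        congr 1
        rw [Finset.prod_ite_eq' Finset.univ i (fun k => S.Qf (γ k) u + S.Cf (γ k) u), if_pos (Finset.mem_univ i)]
      rw [e1]
    · rw [mul_zero]
      exact hnn
    · exact hnn
  refine key.trans ?_
  -- one factor is the moment, the others are masses
  rw [← Finset.mul_prod_erase Finset.univ _ (Finset.mem_univ i)]
  have f1 : ∀ k ∈ Finset.univ.erase i, ∑ p ∈ S.box (K * N), g k p ≤ D1 := by
    intro k hk
    have hki : k ≠ i := Finset.ne_of_mem_erase hk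
    refine le_trans ?_ (le_max_right _ _)
    have := box_mass (S := S) (q := fun _ => 1) (fun _ => zero_le_one) (fun _ _ => rfl) hδ h1' hN1 hN
    refine le_trans (le_of_eq ?_) this
    refine Finset.sum_congr rfl fun p _ => ?_
    simp only [hg, hE, if_neg hki]
  have f2 : ∑ p ∈ S.box (K * N), g i p ≤ D2 := by
    have := box_mass (S := S) (q := fun p => S.Qf p u + S.Cf p u) (fun p => add_nonneg (S.Q_nn p u) (S.C_nn p u))
      (fun z p => by rw [hQ, hC]) hδ (h2 u) (hN2 u) hN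
    refine le_trans (le_trans (le_of_eq ?_) this) ?_
    · refine Finset.sum_congr rfl fun p _ => ?_
      simp only [hg, hE, if_true]
    · refine (le_abs_self _).trans ?_
      rw [hD2]
      exact Finset.single_le_sum (f := fun u => |(2 * (K : ℝ) + 1) ^ 2 * C2 u|) (fun _ _ => abs_nonneg _) (Finset.mem_univ u)
  have f3 : ∏ k ∈ Finset.univ.erase i, ∑ p ∈ S.box (K * N), g k p ≤ D1 ^ (Fintype.card I) := by
    calc _ ≤ ∏ _k ∈ Finset.univ.erase i, D1 := Finset.prod_le_prod (fun k _ => Finset.sum_nonneg fun p _ => g0 k p) f1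
      _ = D1 ^ (Finset.univ.erase i).card := by rw [Finset.prod_const]
      _ ≤ _ := pow_le_pow_right₀ hD1' ((Finset.card_erase_le).trans (le_of_eq Finset.card_univ))
  rw [mul_comm]
  exact mul_le_mul f3 f2 (Finset.sum_nonneg fun p _ => g0 i p) (by positivity)

end PSys

end Pool.Agent.ROT.A
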