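import Pool.Agent.ROT.A6S
import Pool.Agent.ROT.A2Defs
import Pool.Agent.ROT.NUI
import Pool.Agent.ROT.UI1

/-!
# ROT, row A6b-U (helper70): `UI0`, `UI1` and (UI) at the sides for the honeycomb loops
-/

set_option autoImplicit false

namespace Pool.Agent.ROT.A6

open Pool.Agent.ROT.E (Cell Pt Cfg)
open Pool.Agent.ROT.E.Hx (HL hs wl trc cor nE big uiE MassU mtp2 cor_trc)
open scoped ENNReal

/-! ### the responses and the numbers of cells -/

private theorem tau_le (c : Cell) : |L.tau c| ≤ 4 := by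
  have h0 : 0 ≤ Real.sqrt 2 := Real.sqrt_nonneg 2
  have h1 : Real.sqrt 2 ≤ 3 / 2 := by
    rw [Real.sqrt_le_left (by norm_num)]
    norm_num
  cases c <;> simp only [L.tau] <;> rw [abs_le] <;> constructor <;> linarith

theorem Qc_le (γ : Cfg) (l : ℤ) : |L.Qc γ l| ≤ 4 * (γ.support.filter fun v => v.1 = l).card := by
  classical
  unfold L.Qc
  refine (Finset.abs_sum_le_sum_abs _ _).trans ?_
  refine (Finset.sum_le_sum fun v _ => tau_le (γ v)).trans ?_
  rw [Finset.sum_const, nsmul_eq_mul]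
  rw [mul_comm]

theorem nE_tr (γ : Cfg) : nE (E.tr γ) 0 = nE γ 2 ∧ nE (E.tr γ) 1 = nE γ 3 := by
  obtain ⟨h0, h1, h2, h3⟩ := hc_sw γ
  have key : ∀ a b : ℤ, a = b → ((E.tr γ).support.filter fun v => v.1 = a).card = (γ.support.filter fun v => v.2 = b).card := by
    rintro a _ rfl
    refine Finset.card_nbij' Prod.swap Prod.swap ?_ ?_ (fun v _ => v.swap_swap) (fun v _ => v.swap_swap)
    · intro v hv
      rw [Finset.mem_coe, Finset.mem_filter] at hv
      rw [Finset.mem_coe, Finset.mem_filter]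
      exact ⟨supp_tr.1 hv.1, hv.2⟩
    · intro v hv
      rw [Finset.mem_coe, Finset.mem_filter] at hv
      rw [Finset.mem_coe, Finset.mem_filter]
      refine ⟨?_, hv.2⟩
      rw [supp_tr, Prod.swap_swap]
      exact hv.1
  exact ⟨key _ _ h0, key _ _ h1⟩

/-- **the responses are bounded by the number of cells of the extreme line** -/
private theorem qf_le (p : HLs) (u : Fin 4) : |qf p.1 u| ≤ 4 * nE p.1 u := by
  have hu : u = 0 ∨ u = 1 ∨ u = 2 ∨ u = 3 := by
    revert u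
    decide
  have a0 : ∀ γ : Cfg, |qL γ| ≤ 4 * nE γ 0 := by
    intro γ
    unfold qL
    rw [tsum_col]
    exact Qc_le γ _
  have a1 : ∀ γ : Cfg, |qR γ| ≤ 4 * nE γ 1 := by
    intro γ
    unfold qR
    rw [tsum_col]
    exact Qc_le γ _
  rcases hu with rfl | rfl | rfl | rfl
  · exact a0 _
  · exact a1 _
  · have := a0 (E.tr p.1)
    rwa [(nE_tr p.1).1] at this
  · have := a1 (E.tr p.1)
    rwa [(nE_tr p.1).2] at this

theorem nE_pos (p : HLs) (u : Fin 4) : 1 ≤ nE p.1 u := by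
  have hu : u = 0 ∨ u = 1 ∨ u = 2 ∨ u = 3 := by
    revert u
    decide
  obtain ⟨n0, n1, n2, n3⟩ := fil_ne p.2
  rcases hu with rfl | rfl | rfl | rfl
  · exact Finset.card_pos.2 n0
  · exact Finset.card_pos.2 n1
  · exact Finset.card_pos.2 n2
  · exact Finset.card_pos.2 n3

private theorem cf_le (p : HLs) (u : Fin 4) : cf p.1 u ≤ L.kk := by
  have hu : u = 0 ∨ u = 1 ∨ u = 2 ∨ u = 3 := by
    revert u
    decide
  have k := kk_nn
  have a0 : ∀ γ : Cfg, cpT γ ≤ L.kk := fun γ => by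
    unfold cpT
    split_ifs
    · exact le_rfl
    · exact k
  have a1 : ∀ γ : Cfg, cpB γ ≤ L.kk := fun γ => by
    unfold cpB
    split_ifs
    · exact le_rfl
    · exact k
  rcases hu with rfl | rfl | rfl | rfl
  · exact a1 _
  · exact a0 _
  · exact a1 _
  · exact a0 _

/-! ### sums over the loops as sums over `HLs` -/

theorem wr_nn (p : HLs) : 0 ≤ wr p := pow_nonneg HexObs.xc_pos.le _

theorem wl_wr (p : HLs) : wl p.1 = ENNReal.ofReal (wr p) := rfl

open Classical in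
/-- **any translation equivariant root** -/
theorem sum_rt {rt : HLs → Pt} (hrt : ∀ z p, rt (trE z p) = rt p + z) (G : Cfg → ℝ≥0∞)
    (hG : ∀ a γ, HL γ → G (trc a γ) = G γ) :
    ∑' p : HLs, (if rt p = 0 then ENNReal.ofReal (wr p) * G p.1 else 0) =
      ∑' γ : {γ : Cfg // HL γ ∧ cor γ = 0}, wl γ.1 * G γ.1 := by
  set top : Cfg → Pt := fun γ => if h : HL γ then rt ⟨γ, h⟩ else 0 with ht
  have e1 : ∀ p : HLs, top p.1 = rt p := fun p => by
    simp only [ht]
    rw [dif_pos p.2]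
  rw [mtp2 (top := cor) (top' := top) cor_trc (by
    intro a γ h
    have h1 := hrt a ⟨γ, h⟩
    have h2 := e1 (trE a ⟨γ, h⟩)
    have h3 := e1 ⟨γ, h⟩
    rw [← h2, ← h3] at h1
    exact h1) G hG]
  have h4 := tsum_subtype {γ : Cfg | HL γ ∧ top γ = 0} (fun γ => wl γ * G γ)
  have h5 := tsum_subtype {γ : Cfg | HL γ} (fun γ => if top γ = 0 then wl γ * G γ else 0)
  have h6 : ∑' p : HLs, (if rt p = 0 then ENNReal.ofReal (wr p) * G p.1 else 0) =
      ∑' p : {γ : Cfg // HL γ}, (if top p.1 = 0 then wl p.1 * G p.1 else 0) := by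
    apply tsum_congr
    intro p
    rw [e1 p, wl_wr]
  rw [h6]
  refine h5.trans (Eq.trans ?_ h4.symm)
  apply tsum_congr
  intro γ
  simp only [Set.indicator_apply, Set.mem_ofPred_eq]
  by_cases h6 : HL γ <;> by_cases h7 : top γ = 0 <;> simp [h6, h7]

open Classical in
/-- **the second moment at any root**: real form -/
theorem ui_root (hU : MassU) : ∃ C : ℝ, 0 < C ∧ ∀ (u : Fin 4) (R : ℝ), 1 ≤ R → ∀ rt : HLs → Pt,
    (∀ z p, rt (trE z p) = rt p + z) → ∀ f : HLs → ℝ, (∀ p, 0 ≤ f p) →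
    (∀ p, f p ≤ if rt p = 0 ∧ (R ≤ E.Hx.exC p.1 ∨ R ≤ E.Hx.exR p.1) then wr p * (nE p.1 u : ℝ) ^ 2 else 0) →
    Summable f ∧ ∑' p, f p ≤ C / R ^ 2 := by
  obtain ⟨C, hC, h⟩ := uiE hU
  refine ⟨C, hC, fun u R hR rt hrt f f0 hf => ?_⟩
  have h1 := h u R hR
  rw [← sum_rt hrt (fun γ => big R γ * (nE γ u : ℝ≥0∞) ^ 2) (fun a γ h => by
    rw [E.Hx.big_trc R a h, E.Hx.nE_trc a h])] at h1
  have h2 : ∑' p, ENNReal.ofReal (f p) ≤ ENNReal.ofReal (C / R ^ 2) := by
    refine le_trans (ENNReal.tsum_le_tsum fun p => ?_) h1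
    refine (ENNReal.ofReal_le_ofReal (hf p)).trans ?_
    by_cases hr : rt p = 0
    · by_cases hb : R ≤ E.Hx.exC p.1 ∨ R ≤ E.Hx.exR p.1
      · rw [if_pos ⟨hr, hb⟩, if_pos hr, ENNReal.ofReal_mul (wr_nn p)]
        have e2 : big R p.1 = 1 := if_pos hb
        rw [e2, one_mul, ENNReal.ofReal_pow (Nat.cast_nonneg _), ENNReal.ofReal_natCast]
      · rw [if_neg (fun h => hb h.2), ENNReal.ofReal_zero]
        exact zero_le
    · rw [if_neg (fun h => hr h.1), ENNReal.ofReal_zero]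
      exact zero_le
  have h3 : ∑' p, ENNReal.ofReal (f p) ≠ ⊤ := (h2.trans_lt ENNReal.ofReal_lt_top).ne
  have h4 : Summable f := by
    have := ENNReal.summable_toReal h3
    refine this.congr fun p => ?_
    exact ENNReal.toReal_ofReal (f0 p)
  refine ⟨h4, ?_⟩
  have h5 := ENNReal.ofReal_tsum_of_nonneg f0 h4
  rw [← h5] at h2
  exact (ENNReal.ofReal_le_ofReal_iff (by positivity)).1 h2

/-! ### the fields -/

/-- **(UI) at a side** -/
theorem side_ui (hU : MassU) (u : Fin 4) (X : hexP.Side u) : X.UI := by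
  classical
  obtain ⟨C, hC, h⟩ := ui_root hU
  intro δ K hδ hK
  refine ⟨16 * (C / δ ^ 2), 1 / δ, fun N hN => ?_⟩
  have hN0 : 0 < N := lt_of_lt_of_le (by positivity) hN
  have hR : 1 ≤ δ * N := by
    rw [div_le_iff₀ hδ] at hN
    linarith
  obtain ⟨h1, h2⟩ := h u (δ * N) hR X.rt X.rt_tr
    (fun p => (if X.win δ K N p then hexP.M p * hexP.Qf p u ^ 2 else 0) / 16) (by
      intro p
      apply div_nonneg _ (by norm_num)
      split_ifs
      · exact mul_nonneg (hexP.M_nn p) (sq_nonneg _)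
      · exact le_rfl) (by
      intro p
      have hnn : 0 ≤ wr p * (nE p.1 u : ℝ) ^ 2 := mul_nonneg (wr_nn p) (sq_nonneg _)
      by_cases hw : X.win δ K N p
      · have hb : δ * N ≤ (E.Hx.exC p.1 : ℝ) ∨ δ * N ≤ (E.Hx.exR p.1 : ℝ) := by
          have := hw.2.1
          unfold A.PSys.wd at this
          split_ifs at this with hu
          · exact Or.inl this
          · exact Or.inr this
        rw [if_pos hw, if_pos ⟨hw.1, hb⟩]
        have h3 := qf_le p u
        have h4 : (qf p.1 u) ^ 2 ≤ (4 * (nE p.1 u : ℝ)) ^ 2 := by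
          rw [← sq_abs (qf p.1 u)]
          exact pow_le_pow_left₀ (abs_nonneg _) h3 2
        have h5 : hexP.M p * hexP.Qf p u ^ 2 ≤ wr p * (4 * (nE p.1 u : ℝ)) ^ 2 :=
          mul_le_mul_of_nonneg_left h4 (wr_nn p)
        calc hexP.M p * hexP.Qf p u ^ 2 / 16 ≤ wr p * (4 * (nE p.1 u : ℝ)) ^ 2 / 16 := by gcongr
          _ = _ := by ring
      · rw [if_neg hw, zero_div]
        split_ifs
        · exact hnn
        · exact le_rfl)
  constructor
  · have := h1.mul_right 16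
    refine this.congr fun p => ?_
    rw [div_mul_cancel₀ _ (by norm_num)]
  · have e1 : X.rsum δ K N (fun p => hexP.Qf p u ^ 2) =
        16 * ∑' p : hexP.P, (if X.win δ K N p then hexP.M p * hexP.Qf p u ^ 2 else 0) / 16 := by
      unfold A.PSys.Side.rsum
      rw [← tsum_mul_left]
      apply tsum_congr
      intro p
      rw [mul_div_cancel₀ _ (by norm_num)]
    rw [e1]
    calc _ ≤ 16 * (C / (δ * N) ^ 2) := mul_le_mul_of_nonneg_left h2 (by norm_num)
      _ = 16 * (C / δ ^ 2) / N ^ 2 := by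
          rw [mul_pow]
          field_simp

/-- **`UI0`** -/
theorem hex_ui0 (hU : MassU) : hexP.UI0 := by
  classical
  obtain ⟨C, hC, h⟩ := ui_root hU
  intro u r s hr hs
  have hk : 0 < 4 + L.kk := by
    have := kk_nn
    linarith
  refine ⟨(4 + L.kk) * (C / r ^ 2), 1 / r, fun N hN n => ?_⟩
  have hN0 : 0 < N := lt_of_lt_of_le (by positivity) hN
  have hR : 1 ≤ r * N := by
    rw [div_le_iff₀ hr] at hN
    linarith
  set f : HLs → ℝ := fun p => (if hexP.co p = 0 ∧ hexP.Win r s N p then hexP.M p * (hexP.Qf p u + hexP.Cf p u) else 0) /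
    (4 + L.kk) with hf
  obtain ⟨h1, h2⟩ := h u (r * N) hR (fun p => cor p.1) (fun z p => cor_trc z p.1 p.2) f (by
      intro p
      apply div_nonneg _ hk.le
      split_ifs
      · exact mul_nonneg (hexP.M_nn p) (add_nonneg (hexP.Q_nn p u) (hexP.C_nn p u))
      · exact le_rfl) (by
      intro p
      have hnn : 0 ≤ wr p * (nE p.1 u : ℝ) ^ 2 := mul_nonneg (wr_nn p) (sq_nonneg _)
      by_cases hw : hexP.co p = 0 ∧ hexP.Win r s N p
      · have hb : r * N ≤ (E.Hx.exC p.1 : ℝ) ∨ r * N ≤ (E.Hx.exR p.1 : ℝ) := by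
          left
          have := hw.2.1.1
          unfold E.Hx.exC
          push_cast
          exact this
        have hc : cor p.1 = 0 := hw.1
        simp only [hf]
        rw [if_pos hw, if_pos ⟨hc, hb⟩, div_le_iff₀ hk]
        have h3 := (le_abs_self _).trans (qf_le p u)
        have h4 := cf_le p u
        have h5 : (1 : ℝ) ≤ nE p.1 u := by exact_mod_cast nE_pos p u
        have h6 : hexP.Qf p u + hexP.Cf p u ≤ (4 + L.kk) * (nE p.1 u : ℝ) ^ 2 := by
          have k := kk_nn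
          have h7 : (nE p.1 u : ℝ) ≤ (nE p.1 u : ℝ) ^ 2 := by nlinarith
          have h8 : L.kk ≤ L.kk * (nE p.1 u : ℝ) ^ 2 := by nlinarith
          calc hexP.Qf p u + hexP.Cf p u ≤ 4 * (nE p.1 u : ℝ) + L.kk := add_le_add h3 h4
            _ ≤ 4 * (nE p.1 u : ℝ) ^ 2 + L.kk * (nE p.1 u : ℝ) ^ 2 := by linarith
            _ = _ := by ring
        calc hexP.M p * (hexP.Qf p u + hexP.Cf p u) ≤ wr p * ((4 + L.kk) * (nE p.1 u : ℝ) ^ 2) :=
              mul_le_mul_of_nonneg_left h6 (wr_nn p)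
          _ = _ := by ring
      · simp only [hf]
        rw [if_neg hw, zero_div]
        split_ifs
        · exact hnn
        · exact le_rfl)
  have f0 : ∀ p, 0 ≤ f p := by
    intro p
    apply div_nonneg _ hk.le
    split_ifs
    · exact mul_nonneg (hexP.M_nn p) (add_nonneg (hexP.Q_nn p u) (hexP.C_nn p u))
    · exact le_rfl
  have h3 : ∑ p ∈ hexP.box n, (if hexP.co p = 0 ∧ hexP.Win r s N p then hexP.M p * (hexP.Qf p u + hexP.Cf p u) else 0) =
      (4 + L.kk) * ∑ p ∈ hexP.box n, f p := by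
    rw [Finset.mul_sum]
    refine Finset.sum_congr rfl fun p _ => ?_
    show _ = (4 + L.kk) * (_ / (4 + L.kk))
    rw [mul_div_cancel₀ _ hk.ne']
  have h4 : ∑ p ∈ hexP.box n, f p ≤ C / (r * N) ^ 2 := (h1.sum_le_tsum _ fun p _ => f0 p).trans h2
  rw [h3]
  calc N ^ 2 * ((4 + L.kk) * ∑ p ∈ hexP.box n, f p) ≤ N ^ 2 * ((4 + L.kk) * (C / (r * N) ^ 2)) := by gcongr
    _ = (4 + L.kk) * (C / r ^ 2) := by
        rw [mul_pow]
        field_simp

end Pool.Agent.ROT.A6
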