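import Pool.Agent.ROT.A6U
import Pool.Agent.ROT.A6N
import Pool.Agent.ROT.A6T

/-!
# ROT, row A6b-U (helper70): `UI1` for the honeycomb loops
-/

set_option autoImplicit false

namespace Pool.Agent.ROT.A6

/-- **first moments of the responses in families of honeycomb loops** -/
theorem hex_ui1 (hU : E.Hx.MassU) (hL : E.Hx.MassL) : hexP.UI1 :=
  A.PSys.ui1 hexP_Qtr hexP_Ctr (hexP_mass hU hL) (hex_ui0 hU)

end Pool.Agent.ROT.A6
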