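import Pool.Agent.ROT.A6R
import Pool.Agent.ROT.A6L
import Pool.Agent.ROT.A6SymH

/-!
# ROT, row A6 (helper22): the sides of `hexP`

* `rtw u p` = (first cell, word rooted at its top) of the loop p for the side u;
* **`sideX u : hexP.Side u`**, **`dicX u : Dic (sideX u) (1, -1)`**;
* **`lrall_X`** : `(sideX u).LRall` from the inputs `LRI` of `lr3w`.
-/

set_option autoImplicit false

namespace Pool.Agent.ROT.A6

open Pool.Agent.ROT.E (Cell Pt Cfg He oc)
open Pool.Agent.ROT.E.Hx (Bo Sx st dr bt Os lpw HL wh bk Wo hs ub us pd wd trc)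
open HexObs.ART (Fr WT Cap Out dpt SP InA bot SimW cdW Dic LRI)

/-- **the first cell and the word** -/
noncomputable def rtw (u : Fin 4) (p : HLs) : Pt × List Bool := (ex_dic p.2 u).choose

theorem rtw_wt (u : Fin 4) (p : HLs) : (rtw u p).2 ∈ WT (1, -1) := (ex_dic p.2 u).choose_spec.1

theorem rtw_lpw (u : Fin 4) (p : HLs) : p.1 = lpw ((rtw u p).1, sw4 u) (rtw u p).2 := (ex_dic p.2 u).choose_spec.2

theorem rtw_eq {u : Fin 4} {p : HLs} {a : Pt} {w : List Bool} (hw : w ∈ WT (1, -1)) (h : p.1 = lpw (a, sw4 u) w) :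
    rtw u p = (a, w) := by
  obtain ⟨h1, h2⟩ := dic_uniq (rtw_wt u p) hw ((rtw_lpw u p).symm.trans h)
  exact Prod.ext h1 h2

theorem rtw_tr (u : Fin 4) (z : Pt) (p : HLs) : rtw u (trE z p) = ((rtw u p).1 + z, (rtw u p).2) := by
  refine rtw_eq (rtw_wt u p) ?_
  show trc z p.1 = _
  have h := E.Hx.lpw_trb (e := ((rtw u p).1, sw4 u)) (wt_wo (rtw_wt u p)) z
  rw [← rtw_lpw u p] at h
  exact h.symm

theorem rtw_mk (u : Fin 4) (a : Pt) {w : List Bool} (hw : w ∈ WT (1, -1)) :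
    rtw u ⟨lpw (a, sw4 u) w, wt_hl hw⟩ = (a, w) := rtw_eq hw rfl

/-- **the sides** -/
noncomputable def sideX (u : Fin 4) : hexP.Side u where
  rt p := (rtw u p).1
  Sim n p p' := (rtw u p).1 = (rtw u p').1 ∧ SimW (1, -1) n (rtw u p).2 (rtw u p').2
  cd n p := cdW (1, -1) n (rtw u p).2
  eqv n := by
    have h := HexObs.ART.simW_eqv (d := (1, -1)) (by decide) n
    exact ⟨fun p => ⟨rfl, h.refl _⟩, fun h1 => ⟨h1.1.symm, h.symm h1.2⟩,
      fun h1 h2 => ⟨h1.1.trans h2.1, h.trans h1.2 h2.2⟩⟩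
  rt_tr z p := by
    show (rtw u (trE z p)).1 = _
    rw [rtw_tr]
  sim_tr n z p p' h := by
    show (rtw u (trE z p)).1 = (rtw u (trE z p')).1 ∧ SimW (1, -1) n (rtw u (trE z p)).2 (rtw u (trE z p')).2
    rw [rtw_tr, rtw_tr]
    exact ⟨by rw [h.1], h.2⟩
  cd_tr n z p := by
    show cdW (1, -1) n (rtw u (trE z p)).2 = _
    rw [rtw_tr]
  sim_rt n p p' h := h.1
  rt_in p := by
    have h := supp_root (u := u) (a := (rtw u p).1) (rtw_wt u p)
    rw [← rtw_lpw u p] at h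
    exact in_box h
  sim_wd n p p' h := by
    have h1 := wd_root (rtw_wt u p) (rtw_lpw u p)
    have h2 := wd_root (rtw_wt u p') (rtw_lpw u p')
    have h3 := HexObs.ART.simW_bot (d := (1, -1)) (by decide) h.2
    rw [h3] at h1
    omega
  sim_ht n p p' h k := by
    show |hc p.1 k - hc p'.1 k| ≤ _
    rw [rtw_lpw u p, rtw_lpw u p', ← h.1, Nat.cast_max]
    exact sim_hc (rtw_wt u p) (rtw_wt u p') h.2 k
  sim_ex n p p' h := by
    show |xe p.1 u - xe p'.1 u| ≤ _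
    rw [rtw_lpw u p, rtw_lpw u p', ← h.1, Nat.cast_max]
    exact sim_xe (rtw_wt u p) (rtw_wt u p') h.2
  sim_rel n p p' q h hq := by
    have hq' : ∀ s ∈ q.1.support, ¬ (|s.1 - (rtw u p).1.1| ≤
        max (cdW (1, -1) n (rtw u p).2 : ℤ) (cdW (1, -1) n (rtw u p').2 : ℤ) + 2 ∧ |s.2 - (rtw u p).1.2| ≤
        max (cdW (1, -1) n (rtw u p).2 : ℤ) (cdW (1, -1) n (rtw u p').2 : ℤ) + 2) := fun s hs h' => hq ⟨s, hs, by rw [Nat.cast_max]; exact h'⟩
    have h1 := sim_rel (u := u) (a := (rtw u p).1) (rtw_wt u p) (rtw_wt u p') h.2 q.2 hq'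
    have e' : lpw ((rtw u p).1, sw4 u) (rtw u p').2 = p'.1 := by rw [h.1, ← rtw_lpw u p']
    rw [← rtw_lpw u p, e'] at h1
    refine ⟨h1.1, ?_, fun hd _ => h1.2 hd⟩
    show Disjoint (hs q.1) (hs p.1) ↔ Disjoint (hs q.1) (hs p'.1)
    rw [disjoint_comm, disjoint_comm (a := hs q.1)]
    exact h1.1
  Q_tr z p := hexP_rct.Q z p u
  C_tr z p := hexP_rct.C z p u

theorem sideX_rt (u : Fin 4) (p : hexP.P) : (sideX u).rt p = (rtw u p).1 := rfl

/-- **the dictionary** -/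
noncomputable def dicX (u : Fin 4) : Dic (sideX u) (1, -1) where
  e :=
    { toFun := fun p => ⟨(rtw u p.1).2, rtw_wt u p.1⟩
      invFun := fun w => ⟨⟨lpw (0, sw4 u) w.1, wt_hl w.2⟩, by
        show (rtw u _).1 = 0
        rw [rtw_mk u 0 w.2]⟩
      left_inv := fun p => by
        apply Subtype.ext
        apply Subtype.ext
        show lpw (0, sw4 u) (rtw u p.1).2 = p.1.1
        have h : (rtw u p.1).1 = 0 := p.2
        have h2 := rtw_lpw u p.1
        rw [h] at h2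
        exact h2.symm
      right_inv := fun w => by
        apply Subtype.ext
        show (rtw u _).2 = w.1
        rw [rtw_mk u 0 w.2] }
  M_eq p := by
    show HexObs.xc ^ (hs p.1.1).card = HexObs.xc ^ (rtw u p.1).2.length
    rw [rtw_lpw u p.1, E.Hx.card_lpw (wt_wo (rtw_wt u p.1))]
  bot_eq p := wd_root (rtw_wt u p.1) (rtw_lpw u p.1)
  sim n p p' h := ⟨by
    have h1 : (rtw u p.1).1 = 0 := p.2
    have h2 : (rtw u p'.1).1 = 0 := p'.2
    rw [h1, h2], h⟩

theorem dicX_e (u : Fin 4) (p : {p : hexP.P // (sideX u).rt p = 0}) : ((dicX u).e p : List Bool) = (rtw u p.1).2 := rfl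

theorem fw_dic (u : Fin 4) (f : Cfg → ℝ) (p : {p : hexP.P // (sideX u).rt p = 0}) : f p.1.1 = fw u f ((dicX u).e p) := by
  rw [dicX_e, fw_of (rtw_wt u p.1)]
  have h : (rtw u p.1).1 = 0 := p.2
  have h2 := rtw_lpw u p.1
  rw [h] at h2
  exact congrArg f h2

/-- **LRall** -/
theorem lrall_X {hd : ((1, -1) : HexObs.Pt) ∈ HexObs.dirs} (hI : LRI (1, -1) hd) (u : Fin 4) : (sideX u).LRall := by
  classical
  refine HexObs.ART.lrall_of hI (dicX u) (χC := fw u fun γ => cf γ u) (χQ := fw u fun γ => qf γ u) (kC := L.kk)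
    (fun p => fw_dic u (fun γ => cf γ u) p) (fun p => fw_dic u (fun γ => qf γ u) p) (fun w => ?_) (fun w => ?_)
    (fun w => ?_) (cf_inA u) (qf_inA u)
  · by_cases h : w ∈ WT (1, -1)
    · rw [fw_of h]
      exact hexP.C_nn ⟨lpw (0, sw4 u) w, wt_hl h⟩ u
    · unfold fw
      rw [if_neg h]
  · by_cases h : w ∈ WT (1, -1)
    · rw [fw_of h]
      exact cf_le _ u
    · unfold fw
      rw [if_neg h]
      exact kk_nn
  · by_cases h : w ∈ WT (1, -1)
    · rw [fw_of h]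
      exact hexP.Q_nn ⟨lpw (0, sw4 u) w, wt_hl h⟩ u
    · unfold fw
      rw [if_neg h]

end Pool.Agent.ROT.A6
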