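import Pool.Agent.ROT.A7Defs

/-!
# ROT, linear response, row A7: `EXd → UI1 → EXD`

The one-step differences of `f h = Φ (h / N)` are `N⁻¹ ∂Φ + O (N⁻²)`; the positions are `O (N)`; the moments of the
responses are bounded.
-/

set_option autoImplicit false

open Finset Filter Topology

namespace Pool.Agent.ROT.A

namespace PSys

namespace A7P

variable (S : PSys) {I : Type} [Fintype I] [DecidableEq I]

/-! ### calculus -/

/-- the unit vector -/
noncomputable def ev (i : I) (u : Fin 4) : I → Fin 4 → ℝ := Pi.single i (Pi.single u 1)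

theorem norm_ev (i : I) (u : Fin 4) : ‖ev i u‖ ≤ 1 := by
  rw [ev, Pi.norm_single, Pi.norm_single, norm_one]

omit [Fintype I] [DecidableEq I] in
theorem closed_sup (K δ : ℝ) : IsClosed {h : I → Fin 4 → ℝ | Sup K δ h} := by
  simp only [Sup, Set.ofPred_and, Set.ofPred_forall]
  refine IsClosed.inter (isClosed_iInter fun i => isClosed_iInter fun u => ?_)
    (isClosed_iInter fun i => IsClosed.inter ?_ ?_)
  · exact isClosed_le (by fun_prop) continuous_const
  · exact isClosed_le continuous_const (by fun_prop)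
  · exact isClosed_le continuous_const (by fun_prop)

theorem ts_sub {K δ : ℝ} {Φ : (I → Fin 4 → ℝ) → ℝ} (hΦ : Tf K δ Φ) : tsupport Φ ⊆ {h | Sup K δ h} :=
  closure_minimal (fun h hh => hΦ.sup h hh) (closed_sup K δ)

omit [DecidableEq I] in
theorem cs_Φ {K δ : ℝ} {Φ : (I → Fin 4 → ℝ) → ℝ} (hΦ : Tf K δ Φ) : HasCompactSupport Φ := by
  refine HasCompactSupport.of_support_subset_isCompact (isCompact_closedBall (0 : I → Fin 4 → ℝ) (max K 0)) ?_
  intro h hh
  rw [mem_closedBall_zero_iff, pi_norm_le_iff_of_nonneg (le_max_right _ _)]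
  intro i
  rw [pi_norm_le_iff_of_nonneg (le_max_right _ _)]
  intro u
  rw [Real.norm_eq_abs]
  exact ((hΦ.sup h hh).1 i u).trans (le_max_left _ _)

theorem fd_zero {K δ : ℝ} {Φ : (I → Fin 4 → ℝ) → ℝ} (hΦ : Tf K δ Φ) {h : I → Fin 4 → ℝ} (hh : ¬Sup K δ h) :
    fderiv ℝ Φ h = 0 := by
  by_contra hne
  exact hh (ts_sub hΦ (support_fderiv_subset ℝ (Function.mem_support.2 hne)))

/-- first order Taylor with a uniform constant -/
theorem taylor {K δ : ℝ} {Φ : (I → Fin 4 → ℝ) → ℝ} (hΦ : Tf K δ Φ) : ∃ Λ : ℝ, 0 ≤ Λ ∧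
    (∀ h, ‖fderiv ℝ Φ h‖ ≤ Λ) ∧ ∀ x y, |Φ y - Φ x - fderiv ℝ Φ x (y - x)| ≤ Λ * ‖y - x‖ ^ 2 := by
  have hc := cs_Φ hΦ
  have hd : ContDiff ℝ 1 (fderiv ℝ Φ) := hΦ.smooth.fderiv_right (by norm_num)
  obtain ⟨C, hC⟩ := hd.lipschitzWith_of_hasCompactSupport (hc.fderiv ℝ) one_ne_zero
  obtain ⟨C', hC'⟩ := (hd.continuous).bounded_above_of_compact_support (hc.fderiv ℝ)
  refine ⟨max C C', le_max_of_le_left C.2, fun h => (hC' h).trans (le_max_right _ _), fun x y => ?_⟩
  have key := (convex_closedBall x ‖y - x‖).norm_image_sub_le_of_norm_fderiv_le' (𝕜 := ℝ) (f := Φ)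
    (φ := fderiv ℝ Φ x) (C := C * ‖y - x‖) (x := x) (y := y)
    (fun z _ => (hΦ.smooth.differentiable (by norm_num)).differentiableAt) ?_ ?_ ?_
  · rw [Real.norm_eq_abs] at key
    refine key.trans ?_
    rw [mul_assoc, ← sq]
    exact mul_le_mul_of_nonneg_right (le_max_left _ _) (sq_nonneg _)
  · intro z hz
    rw [mem_closedBall_iff_norm] at hz
    have h1 := hC.dist_le_mul z x
    rw [dist_eq_norm, dist_eq_norm] at h1
    exact h1.trans (mul_le_mul_of_nonneg_left hz C.2)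
  · exact Metric.mem_closedBall_self (norm_nonneg _)
  · rw [mem_closedBall_iff_norm]

/-! ### the scaled function -/

/-- the scaled heights -/
noncomputable def sc (N : ℕ) (h : I → Fin 4 → ℤ) : I → Fin 4 → ℝ := fun i u => (h i u : ℝ) / N

omit [Fintype I] in
theorem sc_mv (N : ℕ) (h : I → Fin 4 → ℤ) (i : I) (u : Fin 4) (d : ℤ) :
    sc N (mv h i u d) = sc N h + ((d : ℝ) / N) • ev i u := by
  funext k v
  simp only [sc, mv, Pi.add_apply, Pi.smul_apply, ev, smul_eq_mul]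
  by_cases h1 : k = i
  · subst h1
    rw [Function.update_self, Pi.single_eq_same]
    by_cases h2 : v = u
    · subst h2
      rw [Function.update_self, Pi.single_eq_same]
      push_cast
      ring
    · rw [Function.update_of_ne h2, Pi.single_eq_of_ne h2]
      ring
  · rw [Function.update_of_ne h1, Pi.single_eq_of_ne h1, Pi.zero_apply]
    ring

section

variable {K δ Λ : ℝ} {Φ : (I → Fin 4 → ℝ) → ℝ}

/-- a step in the direction `i, u` -/
theorem step (hΛ : ∀ x y, |Φ y - Φ x - fderiv ℝ Φ x (y - x)| ≤ Λ * ‖y - x‖ ^ 2) (h0 : 0 ≤ Λ) {N : ℕ} (hN : 0 < N)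
    (h : I → Fin 4 → ℤ) (i : I) (u : Fin 4) {d : ℤ} (hd : |d| = 1) :
    |Φ (sc N (mv h i u d)) - Φ (sc N h) - (d : ℝ) / N * pd Φ (sc N h) i u| ≤ Λ / (N : ℝ) ^ 2 := by
  have hN' : (0 : ℝ) < N := Nat.cast_pos.2 hN
  have e : sc N (mv h i u d) - sc N h = ((d : ℝ) / N) • ev i u := by rw [sc_mv]; abel
  have h1 := hΛ (sc N h) (sc N (mv h i u d))
  rw [e, map_smul, smul_eq_mul] at h1
  have h2 : ‖((d : ℝ) / N) • ev i u‖ ≤ 1 / N := by
    rw [norm_smul, norm_div, Real.norm_eq_abs, Real.norm_eq_abs, abs_of_pos hN', ← Int.cast_abs, hd, Int.cast_one]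
    calc 1 / (N : ℝ) * ‖ev i u‖ ≤ 1 / (N : ℝ) * 1 := mul_le_mul_of_nonneg_left (norm_ev i u) (by positivity)
      _ = 1 / N := mul_one _
  refine h1.trans ?_
  calc Λ * ‖((d : ℝ) / N) • ev i u‖ ^ 2 ≤ Λ * (1 / N) ^ 2 :=
        mul_le_mul_of_nonneg_left (pow_le_pow_left₀ (norm_nonneg _) h2 2) h0
    _ = Λ / (N : ℝ) ^ 2 := by ring

theorem dO_le (hΛ : ∀ x y, |Φ y - Φ x - fderiv ℝ Φ x (y - x)| ≤ Λ * ‖y - x‖ ^ 2) (h0 : 0 ≤ Λ) {N : ℕ} (hN : 0 < N)
    (h : I → Fin 4 → ℤ) (i : I) (u : Fin 4) :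
    |dO (fun h => Φ (sc N h)) h i u - 1 / N * pd Φ (sc N h) i u| ≤ Λ / (N : ℝ) ^ 2 := by
  unfold dO
  split_ifs with hu
  · have h1 := step hΛ h0 hN h i u (d := -1) rfl
    rw [← abs_neg] at h1
    refine le_of_eq_of_le ?_ h1
    congr 1
    push_cast
    ring
  · have h1 := step hΛ h0 hN h i u (d := 1) rfl
    refine le_of_eq_of_le ?_ h1
    congr 1
    push_cast
    ring

theorem dI_le (hΛ : ∀ x y, |Φ y - Φ x - fderiv ℝ Φ x (y - x)| ≤ Λ * ‖y - x‖ ^ 2) (h0 : 0 ≤ Λ) {N : ℕ} (hN : 0 < N)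
    (h : I → Fin 4 → ℤ) (i : I) (u : Fin 4) :
    |dI (fun h => Φ (sc N h)) h i u - 1 / N * pd Φ (sc N h) i u| ≤ Λ / (N : ℝ) ^ 2 := by
  unfold dI
  split_ifs with hu
  · have h1 := step hΛ h0 hN h i u (d := 1) rfl
    refine le_of_eq_of_le ?_ h1
    congr 1
    push_cast
    ring
  · have h1 := step hΛ h0 hN h i u (d := -1) rfl
    rw [← abs_neg] at h1
    refine le_of_eq_of_le ?_ h1
    congr 1
    push_cast
    ring

/-- off the neighbourhood of the support a step does not see `Φ` -/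
theorem off (hΦ : Tf K δ Φ) {N : ℕ} (hN : 0 < N) (hNδ : 2 ≤ δ * N) {h : I → Fin 4 → ℤ}
    (hh : ¬Sup (K + 1) (δ / 2) (sc N h)) (i : I) (u : Fin 4) :
    dO (fun h => Φ (sc N h)) h i u = 0 ∧ dI (fun h => Φ (sc N h)) h i u = 0 ∧ pd Φ (sc N h) i u = 0 := by
  have hN' : (0 : ℝ) < N := Nat.cast_pos.2 hN
  have hN1 : 1 / (N : ℝ) ≤ 1 := by
    rw [div_le_one hN']
    exact_mod_cast hN
  have hN2 : 1 / (N : ℝ) ≤ δ / 2 := by
    rw [div_le_div_iff₀ hN' (by norm_num)]
    linarith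
  have key : ∀ d : ℤ, |d| ≤ 1 → ¬Sup K δ (sc N (mv h i u d)) := by
    intro d hd hS
    apply hh
    have hd' : |(d : ℝ) / N| ≤ 1 / N := by
      rw [abs_div, abs_of_pos hN', div_le_div_iff_of_pos_right hN', ← Int.cast_abs]
      exact_mod_cast hd
    have hc : ∀ k v, |sc N (mv h i u d) k v - sc N h k v| ≤ 1 / N := by
      intro k v
      rw [sc_mv]
      simp only [Pi.add_apply, Pi.smul_apply, smul_eq_mul, add_sub_cancel_left]
      rw [abs_mul]
      have h3 : |ev i u k v| ≤ 1 := by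
        have h4 : ‖ev i u k v‖ ≤ ‖ev i u‖ := (norm_le_pi_norm (ev i u k) v).trans (norm_le_pi_norm (ev i u) k)
        rw [Real.norm_eq_abs] at h4
        exact h4.trans (norm_ev i u)
      calc |(d : ℝ) / N| * |ev i u k v| ≤ 1 / N * 1 := mul_le_mul hd' h3 (abs_nonneg _) (by positivity)
        _ = 1 / N := mul_one _
    refine ⟨fun k v => ?_, fun k => ?_⟩
    · have h1 := hS.1 k v
      have h2 := hc k v
      rw [abs_le] at h1 h2 ⊢
      constructor <;> linarith
    · have hm : ∀ a b : Fin 4, (a = 0 ∧ b = 1) ∨ (a = 2 ∧ b = 3) →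
          |(sc N (mv h i u d) k b - sc N h k b) - (sc N (mv h i u d) k a - sc N h k a)| ≤ 1 / N := by
        intro a b hab
        by_cases hk : k = i
        · subst hk
          by_cases hu : u = a
          · have hb : u ≠ b := by rintro rfl; rcases hab with ⟨e1, e2⟩ | ⟨e1, e2⟩ <;> simp_all
            have e0 : sc N (mv h k u d) k b - sc N h k b = 0 := by
              simp only [sc, mv, Function.update_self, Function.update_of_ne hb.symm, sub_self]
            rw [e0, zero_sub, abs_neg]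
            exact hc k a
          · have e0 : sc N (mv h k u d) k a - sc N h k a = 0 := by
              simp only [sc, mv, Function.update_self, Function.update_of_ne (Ne.symm hu), sub_self]
            rw [e0, sub_zero]
            exact hc k b
        · have e0 : ∀ v, sc N (mv h i u d) k v - sc N h k v = 0 := fun v => by
            simp only [sc, mv, Function.update_of_ne hk, sub_self]
          rw [e0, e0, sub_zero, abs_zero]
          positivity
      have h1 := (hS.2 k).1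
      have h2 := (hS.2 k).2
      have h3 := hm 0 1 (Or.inl ⟨rfl, rfl⟩)
      have h4 := hm 2 3 (Or.inr ⟨rfl, rfl⟩)
      rw [abs_le] at h3 h4
      constructor <;> linarith [h3.1, h3.2, h4.1, h4.2]
  have z : ∀ d : ℤ, |d| ≤ 1 → Φ (sc N (mv h i u d)) = 0 := fun d hd => by
    by_contra hne
    exact key d hd (hΦ.sup _ hne)
  have e0 : mv h i u 0 = h := by
    simp only [mv, add_zero, Function.update_eq_self]
  have z0 : Φ (sc N h) = 0 := by
    have := z 0 (by norm_num)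
    rwa [e0] at this
  have k0 : ¬Sup K δ (sc N h) := by
    have := key 0 (by norm_num)
    rwa [e0] at this
  refine ⟨?_, ?_, ?_⟩
  · simp only [dO, z0, z 1 (by norm_num), z (-1) (by norm_num), sub_self, ite_self]
  · simp only [dI, z0, z 1 (by norm_num), z (-1) (by norm_num), sub_self, ite_self]
  · rw [pd, fd_zero hΦ k0]
    rfl

end

/-! ### sums over families -/

variable {τ : I → I → Bool} {n n' : ℕ}

theorem fsum_ext {Θ Θ' : (I → S.P) → ℝ} (h : ∀ γ, (∀ i, γ i ∈ S.box n) → Θ γ = Θ' γ) :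
    S.fsum n τ Θ = S.fsum n τ Θ' := by
  refine Finset.sum_congr rfl fun γ hγ => ?_
  rw [h γ (Fintype.mem_piFinset.1 hγ)]

theorem fsum_box (hn : n ≤ n') {Θ : (I → S.P) → ℝ} (h : ∀ γ, Θ γ ≠ 0 → ∀ i, γ i ∈ S.box n) :
    S.fsum n' τ Θ = S.fsum n τ Θ := by
  symm
  refine Finset.sum_subset ?_ fun γ _ hγ => ?_
  · refine Fintype.piFinset_subset _ _ fun i => ?_
    intro p hp
    rw [S.mem_box] at hp ⊢
    intro u
    exact (hp u).trans (by exact_mod_cast hn)
  · have h0 : Θ γ = 0 := by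
      by_contra hne
      exact hγ (Fintype.mem_piFinset.2 (h γ hne))
    rw [h0, mul_zero, ite_self]

theorem fsum_le {Θ Θ' : (I → S.P) → ℝ} (h : ∀ γ, (∀ i, γ i ∈ S.box n) → Θ γ ≤ Θ' γ) :
    S.fsum n τ Θ ≤ S.fsum n τ Θ' := by
  refine Finset.sum_le_sum fun γ hγ => ?_
  split_ifs
  · exact mul_le_mul_of_nonneg_left (h γ (Fintype.mem_piFinset.1 hγ)) (Finset.prod_nonneg fun i _ => S.M_nn _)
  · exact le_rfl

theorem fsum_sub (Θ Θ' : (I → S.P) → ℝ) :
    S.fsum n τ (fun γ => Θ γ - Θ' γ) = S.fsum n τ Θ - S.fsum n τ Θ' := by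
  unfold fsum
  rw [← Finset.sum_sub_distrib]
  refine Finset.sum_congr rfl fun γ _ => ?_
  split_ifs <;> ring

theorem fsum_mul (c : ℝ) (Θ : (I → S.P) → ℝ) : S.fsum n τ (fun γ => c * Θ γ) = c * S.fsum n τ Θ := by
  unfold fsum
  rw [Finset.mul_sum]
  refine Finset.sum_congr rfl fun γ _ => ?_
  split_ifs <;> ring

theorem fsum_sum {ι : Type} (s : Finset ι) (Θ : ι → (I → S.P) → ℝ) :
    S.fsum n τ (fun γ => ∑ k ∈ s, Θ k γ) = ∑ k ∈ s, S.fsum n τ (Θ k) := by
  unfold fsum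
  rw [Finset.sum_comm]
  refine Finset.sum_congr rfl fun γ _ => ?_
  split_ifs
  · rw [Finset.mul_sum]
  · rw [Finset.sum_const_zero]

theorem fsum_abs (Θ : (I → S.P) → ℝ) : |S.fsum n τ Θ| ≤ S.fsum n τ (fun γ => |Θ γ|) := by
  unfold fsum
  refine (Finset.abs_sum_le_sum_abs _ _).trans (le_of_eq (Finset.sum_congr rfl fun γ _ => ?_))
  split_ifs
  · rw [abs_mul, abs_of_nonneg (Finset.prod_nonneg fun i _ => S.M_nn _)]
  · rw [abs_zero]

/-! ### the comparison -/

theorem sg_abs (u : Fin 4) : |sg u| = 1 := by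
  unfold sg; split_ifs <;> simp

theorem po_abs (h : Fin 4 → ℤ) (u : Fin 4) : |((po h u : ℤ) : ℝ) - h u| ≤ 1 := by
  unfold po; split_ifs <;> simp

open Classical in
theorem comp {K : ℕ} {δ Λ : ℝ} {Φ : (I → Fin 4 → ℝ) → ℝ} (hΦ : Tf (K : ℝ) δ Φ) (h0 : 0 ≤ Λ)
    (hb : ∀ h, ‖fderiv ℝ Φ h‖ ≤ Λ)
    (hΛ : ∀ x y, |Φ y - Φ x - fderiv ℝ Φ x (y - x)| ≤ Λ * ‖y - x‖ ^ 2) {N : ℕ} (hN : 0 < N)
    (hNδ : 2 ≤ δ * N) (γ : I → S.P) (hγ : ∀ i, γ i ∈ S.box ((K + 1) * N)) :
    |(∑ i, ∑ u, sg u * (S.hN N (γ i) u * S.Qf (γ i) u + S.eN N (γ i) u * S.Cf (γ i) u) *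
        pd Φ (fun i => S.hN N (γ i)) i u) - ∑ i, S.Rd (fun h => Φ (sc N h)) γ i| ≤
      Λ * (K + 3) / N * ∑ i, ∑ u, (if Sup ((K + 1 : ℕ) : ℝ) (δ / 2) (fun k => S.hN N (γ k)) then
        S.Qf (γ i) u + S.Cf (γ i) u else 0) := by
  have hN' : (0 : ℝ) < N := Nat.cast_pos.2 hN
  have hN1 : (1 : ℝ) ≤ N := by exact_mod_cast hN
  have esc : (fun i => S.hN N (γ i)) = sc N (fun k => S.ht (γ k)) := rfl
  have hht : ∀ i u, |((S.ht (γ i) u : ℤ) : ℝ)| ≤ (K + 1) * N := fun i u => by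
    have := (S.mem_box _ _).1 (hγ i) u
    have h2 : ((|S.ht (γ i) u| : ℤ) : ℝ) ≤ (((K + 1) * N : ℕ) : ℤ) := by exact_mod_cast this
    rw [Int.cast_abs] at h2
    push_cast at h2
    exact h2
  have hex : ∀ i u, |((S.ex (γ i) u : ℤ) : ℝ)| ≤ (K + 1) * N := fun i u => by
    have a := hht i
    have b1 := S.ex01 (γ i)
    have b2 := S.ex23 (γ i)
    have a0 := a 0; have a1 := a 1; have a2 := a 2; have a3 := a 3
    rw [abs_le] at a0 a1 a2 a3 ⊢
    fin_cases u
    · have c1 : ((S.ht (γ i) 2 : ℤ) : ℝ) ≤ S.ex (γ i) 0 := by exact_mod_cast b1.1.1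
      have c2 : ((S.ex (γ i) 0 : ℤ) : ℝ) ≤ S.ht (γ i) 3 := by exact_mod_cast b1.1.2
      simp only [Fin.zero_eta]
      constructor <;> linarith [a2.1, a3.2]
    · have c1 : ((S.ht (γ i) 2 : ℤ) : ℝ) ≤ S.ex (γ i) 1 := by exact_mod_cast b1.2.1
      have c2 : ((S.ex (γ i) 1 : ℤ) : ℝ) ≤ S.ht (γ i) 3 := by exact_mod_cast b1.2.2
      simp only [Fin.mk_one]
      constructor <;> linarith [a2.1, a3.2]
    · have c1 : ((S.ht (γ i) 0 : ℤ) : ℝ) ≤ S.ex (γ i) 2 := by exact_mod_cast b2.1.1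
      have c2 : ((S.ex (γ i) 2 : ℤ) : ℝ) ≤ S.ht (γ i) 1 := by exact_mod_cast b2.1.2
      simp only [Fin.reduceFinMk]
      constructor <;> linarith [a0.1, a1.2]
    · have c1 : ((S.ht (γ i) 0 : ℤ) : ℝ) ≤ S.ex (γ i) 3 := by exact_mod_cast b2.2.1
      have c2 : ((S.ex (γ i) 3 : ℤ) : ℝ) ≤ S.ht (γ i) 1 := by exact_mod_cast b2.2.2
      simp only [Fin.reduceFinMk]
      constructor <;> linarith [a0.1, a1.2]
  rw [← Finset.sum_sub_distrib]
  refine (Finset.abs_sum_le_sum_abs _ _).trans ?_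
  rw [Finset.mul_sum]
  refine Finset.sum_le_sum fun i _ => ?_
  rw [Rd, ← Finset.sum_sub_distrib, Finset.mul_sum]
  refine (Finset.abs_sum_le_sum_abs _ _).trans (Finset.sum_le_sum fun u _ => ?_)
  rw [mul_assoc, ← mul_sub, abs_mul, sg_abs, one_mul, esc]
  set h : I → Fin 4 → ℤ := fun k => S.ht (γ k) with hh
  by_cases hS : Sup ((K + 1 : ℕ) : ℝ) (δ / 2) (sc N h)
  · rw [if_pos hS]
    have d1 := dO_le hΛ h0 hN h i u
    have d2 := dI_le hΛ h0 hN h i u
    have hp : |pd Φ (sc N h) i u| ≤ Λ := by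
      rw [pd, ← Real.norm_eq_abs]
      refine (ContinuousLinearMap.le_opNorm _ _).trans ?_
      calc ‖fderiv ℝ Φ (sc N h)‖ * ‖(Pi.single i (Pi.single u 1) : I → Fin 4 → ℝ)‖ ≤ Λ * 1 :=
            mul_le_mul (hb _) (norm_ev i u) (norm_nonneg _) h0
        _ = Λ := mul_one _
    have hpo := po_abs (S.ht (γ i)) u
    have hQ := S.Q_nn (γ i) u
    have hC := S.C_nn (γ i) u
    set D := dO (fun h => Φ (sc N h)) h i u with hD
    set D' := dI (fun h => Φ (sc N h)) h i u with hD'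
    set p := pd Φ (sc N h) i u with hpd
    set Q := S.Qf (γ i) u
    set C := S.Cf (γ i) u
    have e1 : (S.hN N (γ i) u * Q + S.eN N (γ i) u * C) * p -
        ((po (S.ht (γ i)) u : ℝ) * Q * D + (S.ex (γ i) u : ℝ) * C * D') =
        -(Q * ((po (S.ht (γ i)) u : ℝ) * (D - 1 / N * p) +
          ((po (S.ht (γ i)) u : ℝ) - S.ht (γ i) u) * (1 / N * p))) -
        C * ((S.ex (γ i) u : ℝ) * (D' - 1 / N * p)) := by
      simp only [PSys.hN, PSys.eN]
      ring
    rw [e1]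
    have b1 : |(po (S.ht (γ i)) u : ℝ)| ≤ (K + 1) * N + 1 := by
      have h1 := hht i u
      rw [abs_le] at h1 hpo ⊢
      constructor <;> linarith
    have t1 : |(po (S.ht (γ i)) u : ℝ) * (D - 1 / N * p) +
          ((po (S.ht (γ i)) u : ℝ) - S.ht (γ i) u) * (1 / N * p)| ≤ Λ * (K + 3) / N := by
      refine (abs_add_le _ _).trans ?_
      rw [abs_mul, abs_mul, abs_mul, abs_of_pos (show (0 : ℝ) < 1 / N by positivity)]
      calc |(po (S.ht (γ i)) u : ℝ)| * |D - 1 / N * p| +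
            |(po (S.ht (γ i)) u : ℝ) - S.ht (γ i) u| * (1 / N * |p|) ≤
            ((K + 1) * N + 1) * (Λ / (N : ℝ) ^ 2) + 1 * (1 / N * Λ) := by
              refine add_le_add (mul_le_mul b1 d1 (abs_nonneg _) (by positivity))
                (mul_le_mul hpo (mul_le_mul_of_nonneg_left hp (by positivity)) (by positivity) zero_le_one)
        _ ≤ ((K + 1) * N + N) * (Λ / (N : ℝ) ^ 2) + 1 * (1 / N * Λ) := by
              gcongr
        _ = Λ * (K + 3) / N := by
              field_simp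
              ring
    have t2 : |(S.ex (γ i) u : ℝ) * (D' - 1 / N * p)| ≤ Λ * (K + 3) / N := by
      rw [abs_mul]
      calc |(S.ex (γ i) u : ℝ)| * |D' - 1 / N * p| ≤ ((K + 1) * N) * (Λ / (N : ℝ) ^ 2) :=
            mul_le_mul (hex i u) d2 (abs_nonneg _) (by positivity)
        _ ≤ ((K + 3) * N) * (Λ / (N : ℝ) ^ 2) := by
            gcongr
            norm_num
        _ = Λ * (K + 3) / N := by
            field_simp
    refine (abs_sub _ _).trans ?_
    rw [abs_neg, abs_mul, abs_mul, abs_of_nonneg hQ, abs_of_nonneg hC, mul_add]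
    exact add_le_add ((mul_le_mul_of_nonneg_left t1 hQ).trans (le_of_eq (mul_comm _ _)))
      ((mul_le_mul_of_nonneg_left t2 hC).trans (le_of_eq (mul_comm _ _)))
  · have hS' : ¬Sup ((K : ℝ) + 1) (δ / 2) (sc N h) := by
      intro h1
      apply hS
      rw [Nat.cast_add, Nat.cast_one]
      exact h1
    obtain ⟨z1, z2, z3⟩ := off hΦ hN hNδ hS' i u
    rw [if_neg hS, z1, z2, z3]
    simp

end A7P

open A7P in
/-- **row A7** -/
theorem a7 (S : PSys) : S.A7 := by
  classical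
  intro hE hU I _ _ τ K δ Φ hδ hΦ
  obtain ⟨Λ, h0, hb, hΛ⟩ := taylor hΦ
  obtain ⟨C, hC⟩ := hU I τ (K + 1) (δ / 2) (by positivity)
  rw [Metric.tendsto_atTop]
  intro ε hε
  -- the discrete part
  have hE' := hE I τ (K + 1) δ (ε / (2 * (Λ + 1))) hδ (by positivity)
  have hlim : Tendsto (fun N : ℕ => Λ * (K + 3) / N * (Fintype.card I * 4 * max C 0)) atTop (𝓝 0) := by
    have h1 : Tendsto (fun N : ℕ => (Λ * (K + 3) * (Fintype.card I * 4 * max C 0)) / (N : ℝ)) atTop (𝓝 0) :=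
      tendsto_const_div_atTop_nhds_zero_nat _
    refine h1.congr fun N => ?_
    ring
  have hev : ∀ᶠ N : ℕ in atTop, |S.fsum (K * N) τ fun γ =>
      ∑ i, ∑ u, sg u * (S.hN N (γ i) u * S.Qf (γ i) u + S.eN N (γ i) u * S.Cf (γ i) u) *
        pd Φ (fun i => S.hN N (γ i)) i u| < ε := by
    filter_upwards [hE', hC, hlim.eventually (gt_mem_nhds (show (0 : ℝ) < ε / 2 by positivity)),
      eventually_ge_atTop 2, eventually_ge_atTop ⌈2 / δ⌉₊] with N e1 e2 e3 e4 e5
    have hN : 0 < N := by omega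
    have hN' : (0 : ℝ) < N := Nat.cast_pos.2 hN
    have hNδ : 2 ≤ δ * N := by
      have h1 : 2 / δ ≤ N := (Nat.le_ceil _).trans (by exact_mod_cast e5)
      rw [div_le_iff₀ hδ] at h1
      linarith
    set T : (I → S.P) → ℝ := fun γ =>
      ∑ i, ∑ u, sg u * (S.hN N (γ i) u * S.Qf (γ i) u + S.eN N (γ i) u * S.Cf (γ i) u) *
        pd Φ (fun i => S.hN N (γ i)) i u with hT
    have hbx : S.fsum (K * N) τ T = S.fsum ((K + 1) * N) τ T := by
      symm
      refine fsum_box S (Nat.mul_le_mul_right _ (Nat.le_succ _)) fun γ hne i => ?_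
      have hS : Sup (K : ℝ) δ (fun i => S.hN N (γ i)) := by
        by_contra hS
        apply hne
        rw [hT]
        simp only [pd, fd_zero hΦ hS]
        simp
      rw [S.mem_box]
      intro u
      have h1 := hS.1 i u
      simp only [PSys.hN] at h1
      rw [abs_div, abs_of_pos hN', div_le_iff₀ hN', ← Int.cast_abs] at h1
      have h2 : ((|S.ht (γ i) u| : ℤ) : ℝ) ≤ ((K * N : ℕ) : ℤ) := by push_cast; exact_mod_cast h1
      exact_mod_cast h2
    rw [hbx]
    have hf : ∀ h h' : I → Fin 4 → ℤ, Nh h h' → |Φ (sc N h) - Φ (sc N h')| ≤ Λ / N := by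
      intro h h' hn
      have key := (convex_univ (𝕜 := ℝ) (E := I → Fin 4 → ℝ)).norm_image_sub_le_of_norm_fderiv_le (𝕜 := ℝ)
        (f := Φ) (C := Λ) (x := sc N h') (y := sc N h)
        (fun z _ => (hΦ.smooth.differentiable (by norm_num)).differentiableAt) (fun z _ => hb z)
        (Set.mem_univ _) (Set.mem_univ _)
      rw [Real.norm_eq_abs] at key
      refine key.trans ?_
      have h1 : ‖sc N h - sc N h'‖ ≤ 1 / N := by
        rw [pi_norm_le_iff_of_nonneg (by positivity)]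
        intro i
        rw [pi_norm_le_iff_of_nonneg (by positivity)]
        intro u
        simp only [Pi.sub_apply, sc, Real.norm_eq_abs]
        rw [← sub_div, abs_div, abs_of_pos hN', div_le_div_iff_of_pos_right hN']
        have := hn i u
        have h2 : ((|h i u - h' i u| : ℤ) : ℝ) ≤ 1 := by exact_mod_cast this
        rw [Int.cast_abs] at h2
        push_cast at h2
        exact h2
      calc Λ * ‖sc N h - sc N h'‖ ≤ Λ * (1 / N) := mul_le_mul_of_nonneg_left h1 h0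
        _ = Λ / N := by ring
    have hsd : ∀ h : I → Fin 4 → ℤ, Φ (sc N h) ≠ 0 → Sd ((K + 1 : ℕ) : ℝ) δ N h := by
      intro h hne
      have hS := hΦ.sup _ hne
      refine ⟨fun i u => ?_, fun i => ?_⟩
      · have h1 := hS.1 i u
        rw [sc, abs_div, abs_of_pos hN', div_le_iff₀ hN'] at h1
        have h2 : (2 : ℝ) ≤ N := by exact_mod_cast e4
        push_cast
        linarith
      · have h1 := (hS.2 i).1
        have h2 := (hS.2 i).2
        simp only [sc] at h1 h2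
        rw [← sub_div, le_div_iff₀ hN'] at h1 h2
        exact ⟨h1, h2⟩
    have b1 := e1 (fun h => Φ (sc N h)) Λ hf hsd
    have b2 : |S.fsum ((K + 1) * N) τ T - S.fsum ((K + 1) * N) τ
        (fun γ => ∑ i, S.Rd (fun h => Φ (sc N h)) γ i)| ≤
        Λ * (K + 3) / N * (Fintype.card I * 4 * max C 0) := by
      rw [← fsum_sub]
      refine (fsum_abs S _).trans ?_
      refine (fsum_le S fun γ hγ => comp S hΦ h0 hb hΛ hN hNδ γ hγ).trans ?_
      rw [fsum_mul]
      refine mul_le_mul_of_nonneg_left ?_ (by positivity)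
      rw [fsum_sum]
      calc ∑ i : I, S.fsum ((K + 1) * N) τ (fun γ => ∑ u, if Sup ((K + 1 : ℕ) : ℝ) (δ / 2)
            (fun k => S.hN N (γ k)) then S.Qf (γ i) u + S.Cf (γ i) u else 0) ≤ ∑ _i : I, 4 * max C 0 := by
              refine Finset.sum_le_sum fun i _ => ?_
              rw [fsum_sum]
              calc ∑ u : Fin 4, S.fsum ((K + 1) * N) τ (fun γ => if Sup ((K + 1 : ℕ) : ℝ) (δ / 2)
                  (fun k => S.hN N (γ k)) then S.Qf (γ i) u + S.Cf (γ i) u else 0) ≤ ∑ _u : Fin 4, max C 0 :=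
                    Finset.sum_le_sum fun u _ => (e2 i u).trans (le_max_left _ _)
                _ = 4 * max C 0 := by simp
        _ = Fintype.card I * 4 * max C 0 := by
              rw [Finset.sum_const, Finset.card_univ, nsmul_eq_mul]
              ring
    have b3 : ε / (2 * (Λ + 1)) * Λ ≤ ε / 2 := by
      rw [div_mul_eq_mul_div, div_le_div_iff₀ (by positivity) (by norm_num)]
      nlinarith
    have b4 := abs_sub_abs_le_abs_sub (S.fsum ((K + 1) * N) τ T) (S.fsum ((K + 1) * N) τ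
        (fun γ => ∑ i, S.Rd (fun h => Φ (sc N h)) γ i))
    linarith
  rw [eventually_atTop] at hev
  obtain ⟨N0, hN0⟩ := hev
  refine ⟨N0, fun N hN => ?_⟩
  rw [Real.dist_eq, sub_zero]
  exact hN0 N hN

end PSys

end Pool.Agent.ROT.A
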