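import Pool.Agent.ROT.LDefs

/-!
# ROT, block L: telescoping in the rows, Abel summation in the columns
-/

set_option autoImplicit false

namespace Pool.Agent.ROT.L

open Pool.Agent.EXL (Wt)
open Pool.Agent.YBC (Dir)
open Pool.Agent.ROT.E (Cell IsUn Pt nx)

variable {I : Type}

/-! ### the unvisited vertices -/

private theorem cell_o {c : Cell} (h : ∀ d, ¬ c.oc d) : c = .o := by
  revert h
  cases c <;> intro h
  · rfl
  · exact absurd (by decide) (h .E)
  · exact absurd (by decide) (h .N)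
  · exact absurd (by decide) (h .S)
  · exact absurd (by decide) (h .N)
  · exact absurd (by decide) (h .S)
  · exact absurd (by decide) (h .N)
  · exact absurd (by decide) (h .S)
  · exact absurd (by decide) (h .S)

private theorem oc_of_ne {c : Cell} (h : c ≠ .o) : ∃ d, c.oc d := by
  by_contra hc
  push Not at hc
  exact h (cell_o hc)

private theorem ne_of_oc {c : Cell} {d : Dir} (h : c.oc d) : c ≠ .o := by
  rintro rfl
  exact h rfl

theorem wfg_zero {θ : Cell → ℝ} (hθ : θ .o = 0) : wfg θ (0 : I → Cell) = 0 := by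
  classical
  unfold wfg
  refine Finset.sum_eq_zero fun c _ => ?_
  split_ifs with h
  · have : c = .o := by
      refine cell_o fun d hd => ?_
      obtain ⟨i, hi⟩ := h.2.2 d hd
      exact ne_of_oc hi rfl
    rw [this, hθ]
  · rfl

theorem dM_zero {p : Pt} {γ : FX I} (h : γ (some p) = 0) : dM p γ = 0 := by
  unfold dM
  rw [h, wfg_zero (by simp [dwt]), zero_mul]

theorem Jw_zero {γ : FX I} (h : γ none = 0) : Jw γ = 0 := by
  unfold Jw
  rw [h, wfg_zero (by simp [jw]), mul_zero]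

/-- if the crossing is used then one of the four neighbouring cells is visited -/
theorem cross_nb {j s : ℤ} {γ : FX I} (hf : Fam (gX j s) γ) (h : γ none ≠ 0) :
    ∃ a b, γ (some (a, b)) ≠ 0 ∧ (a = j ∨ a = j + 1) ∧ (b = s - 1 ∨ b = s) := by
  obtain ⟨i, hi⟩ : ∃ i, γ none i ≠ .o := by
    by_contra hc
    push Not at hc
    exact h (funext hc)
  obtain ⟨d, hd⟩ := oc_of_ne hi
  have hm := (hf.lp i).mt (none, d) (Set.mem_univ _) (Set.mem_univ _)
  have h1 : oc (co γ i) (none, d) := hd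
  have h2 := hm.1 h1
  have key : ∀ a b d', (gX j s).e (none, d) = (some (a, b), d') → γ (some (a, b)) ≠ 0 := by
    intro a b d' he h0
    rw [he] at h2
    have h3 : (γ (some (a, b)) i).oc d' := h2
    rw [h0] at h3
    exact ne_of_oc h3 rfl
  cases d
  · exact ⟨j + 1, s - 1, key _ _ _ rfl, Or.inr rfl, Or.inl rfl⟩
  · exact ⟨j + 1, s, key _ _ _ rfl, Or.inr rfl, Or.inr rfl⟩
  · exact ⟨j, s, key _ _ _ rfl, Or.inl rfl, Or.inr rfl⟩
  · exact ⟨j, s - 1, key _ _ _ rfl, Or.inl rfl, Or.inl rfl⟩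

/-! ### finite sums -/

theorem fin_box [Finite I] (R : ℤ) :
    {γ : FX I | ∀ a b, γ (some (a, b)) ≠ 0 → |a| ≤ R ∧ |b| ≤ R}.Finite := by
  classical
  have := Fintype.ofFinite I
  set S : Finset VX := insert none ((Finset.Icc (-R) R ×ˢ Finset.Icc (-R) R).image some) with hS
  refine (Finset.finite_toSet (S.finsupp fun _ => (Finset.univ : Finset (I → Cell)))).subset ?_
  intro γ hγ
  rw [Finset.mem_coe, Finset.mem_finsupp_iff]
  refine ⟨?_, fun v _ => Finset.mem_univ _⟩
  intro v hv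
  rw [Finsupp.mem_support_iff] at hv
  rw [hS, Finset.mem_insert]
  match v, hv with
  | none, _ => exact Or.inl rfl
  | some (a, b), hv =>
    refine Or.inr (Finset.mem_image.2 ⟨(a, b), ?_, rfl⟩)
    have h := hγ a b hv
    rw [abs_le, abs_le] at h
    simp only [Finset.mem_product, Finset.mem_Icc]
    exact ⟨h.1, h.2⟩

/-- sums over families with a bounded function are finite sums -/
theorem summ [Finite I] {R : ℤ} {F : FX I → ℝ} (hF : Bd R F) {g : FX I → ℝ} (hg : ∀ γ, F γ = 0 → g γ = 0) :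
    Summable g := by
  refine summable_of_hasFiniteSupport ((fin_box R).subset fun γ hγ => ?_)
  exact hF γ fun h => hγ (hg γ h)

theorem Bd.sub {R : ℤ} {F G : FX I → ℝ} (hF : Bd R F) (hG : Bd R G) : Bd R fun γ => F γ - G γ := by
  intro γ h
  by_cases h1 : F γ = 0
  · refine hG γ fun h2 => h ?_
    simp only [h1, h2, sub_zero]
  · exact hF γ h1

theorem Bd.mono {R R' : ℤ} {F : FX I → ℝ} (hF : Bd R F) (h : R ≤ R') : Bd R' F :=
  fun γ hγ a b hab => ⟨(hF γ hγ a b hab).1.trans h, (hF γ hγ a b hab).2.trans h⟩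

section lin

variable [Finite I] {R : ℤ} {F G : FX I → ℝ} {j r s : ℤ}

theorem A_sub (hF : Bd R F) (hG : Bd R G) : A j r (fun γ => F γ - G γ) = A j r F - A j r G := by
  classical
  unfold A
  rw [← Summable.tsum_sub]
  · refine tsum_congr fun γ => ?_
    split_ifs <;> ring
  · exact summ hF fun γ h => by simp [h]
  · exact summ hG fun γ h => by simp [h]

theorem J_sub (hF : Bd R F) (hG : Bd R G) : J j s (fun γ => F γ - G γ) = J j s F - J j s G := by
  classical
  unfold J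
  rw [← Summable.tsum_sub]
  · refine tsum_congr fun γ => ?_
    split_ifs <;> ring
  · exact summ hF fun γ h => by simp [h]
  · exact summ hG fun γ h => by simp [h]

end lin

theorem A_zero {R : ℤ} {F : FX I → ℝ} {j r : ℤ} (hF : Bd R F)
    (h : r < -R ∨ R < r ∨ j < -(R + 1) ∨ R < j) : A j r F = 0 := by
  classical
  unfold A
  rw [show (fun γ : FX I => if Fam g0 γ then (dM (j, r) γ - dM (j + 1, r) γ) * F γ else 0) = fun _ => 0 from ?_]
  · exact tsum_zero
  · funext γ
    split_ifs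
    · by_cases hz : F γ = 0
      · rw [hz, mul_zero]
      · have hb := hF γ hz
        have h1 : γ (some (j, r)) = 0 := by
          by_contra hc
          have := hb _ _ hc
          rw [abs_le, abs_le] at this
          omega
        have h2 : γ (some (j + 1, r)) = 0 := by
          by_contra hc
          have := hb _ _ hc
          rw [abs_le, abs_le] at this
          omega
        rw [dM_zero h1, dM_zero h2]
        ring
    · rfl

theorem J_zero {R : ℤ} {F : FX I → ℝ} {j s : ℤ} (hF : Bd R F)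
    (h : s < -R ∨ R + 1 < s ∨ j < -(R + 1) ∨ R < j) : J j s F = 0 := by
  classical
  unfold J
  rw [show (fun γ : FX I => if Fam (gX j s) γ then Jw γ * F γ else 0) = fun _ => 0 from ?_]
  · exact tsum_zero
  · funext γ
    split_ifs with hf
    · by_cases hz : F γ = 0
      · rw [hz, mul_zero]
      · by_cases hn : γ none = 0
        · rw [Jw_zero hn, zero_mul]
        · exfalso
          obtain ⟨a, b, h1, h2, h3⟩ := cross_nb hf hn
          have := hF γ hz a b h1
          rw [abs_le, abs_le] at this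
          omega
    · rfl

/-! ### Abel summation in the columns -/

theorem dMt_box {R : ℤ} {γ : FX I} (h : ∀ a b, γ (some (a, b)) ≠ 0 → |a| ≤ R ∧ |b| ≤ R) :
    dMt γ = ∑ j ∈ Finset.Icc (-R) R, ∑ r ∈ Finset.Icc (-R) R, dM (j, r) γ := by
  classical
  have e1 : ∑ p ∈ Finset.Icc (-R) R ×ˢ Finset.Icc (-R) R, dM p γ =
      ∑ v ∈ (Finset.Icc (-R) R ×ˢ Finset.Icc (-R) R).image (some : ℤ × ℤ → VX), dMv γ v := by
    rw [Finset.sum_image fun a _ b _ hab => Option.some_injective _ hab]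
    rfl
  rw [← Finset.sum_product', e1]
  unfold dMt
  have e2 : ∑ v ∈ γ.support, dMv γ v =
      ∑ v ∈ (Finset.Icc (-R) R ×ˢ Finset.Icc (-R) R).image (some : ℤ × ℤ → VX) ∪ γ.support, dMv γ v := by
    refine Finset.sum_subset Finset.subset_union_right fun v _ hv => ?_
    match v, hv with
    | none, _ => rfl
    | some p, hv =>
      rw [Finsupp.mem_support_iff, not_not] at hv
      exact dM_zero hv
  rw [e2]
  symm
  refine Finset.sum_subset Finset.subset_union_left fun v hv hv' => ?_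
  match v, hv, hv' with
  | none, _, _ => rfl
  | some p, hv, hv' =>
    refine dM_zero ?_
    by_contra hc
    have hb := h p.1 p.2 hc
    rw [abs_le, abs_le] at hb
    refine hv' (Finset.mem_image.2 ⟨p, ?_, rfl⟩)
    simp only [Finset.mem_product, Finset.mem_Icc]
    exact hb

/-- Abel summation over the integers -/
theorem abel_int {N : ℤ} {m : ℤ → ℝ} (h : ∀ j, m j ≠ 0 → |j| ≤ N) :
    ∑ j ∈ Finset.Icc (-(N + 1)) (N + 1), (j : ℝ) * (m j - m (j + 1)) = ∑ j ∈ Finset.Icc (-N) N, m j := by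
  have h1 : ∑ j ∈ Finset.Icc (-(N + 1)) (N + 1), (j : ℝ) * m (j + 1) =
      ∑ j ∈ Finset.Icc (-N) (N + 2), ((j : ℝ) - 1) * m j := by
    refine Finset.sum_bij' (fun j _ => j + 1) (fun j _ => j - 1) ?_ ?_ ?_ ?_ ?_
    · intro j hj
      rw [Finset.mem_Icc] at hj ⊢
      omega
    · intro j hj
      rw [Finset.mem_Icc] at hj ⊢
      omega
    · intro j _
      ring
    · intro j _
      ring
    · intro j _
      push_cast
      ring
  have h2 : ∑ j ∈ Finset.Icc (-N) (N + 2), ((j : ℝ) - 1) * m j = ∑ j ∈ Finset.Icc (-N) N, ((j : ℝ) - 1) * m j := by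
    symm
    refine Finset.sum_subset (Finset.Icc_subset_Icc le_rfl (by omega)) fun j hj hj' => ?_
    by_contra hc
    have h3 := h j fun h0 => hc (by rw [h0, mul_zero])
    rw [abs_le] at h3
    exact hj' (Finset.mem_Icc.2 h3)
  have h4 : ∑ j ∈ Finset.Icc (-(N + 1)) (N + 1), (j : ℝ) * m j = ∑ j ∈ Finset.Icc (-N) N, (j : ℝ) * m j := by
    symm
    refine Finset.sum_subset (Finset.Icc_subset_Icc (by omega) (by omega)) fun j hj hj' => ?_
    by_contra hc
    have h3 := h j fun h0 => hc (by rw [h0, mul_zero])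
    rw [abs_le] at h3
    exact hj' (Finset.mem_Icc.2 h3)
  calc ∑ j ∈ Finset.Icc (-(N + 1)) (N + 1), (j : ℝ) * (m j - m (j + 1))
      = ∑ j ∈ Finset.Icc (-(N + 1)) (N + 1), (j : ℝ) * m j
        - ∑ j ∈ Finset.Icc (-(N + 1)) (N + 1), (j : ℝ) * m (j + 1) := by
        rw [← Finset.sum_sub_distrib]
        exact Finset.sum_congr rfl fun j _ => by ring
    _ = ∑ j ∈ Finset.Icc (-N) N, m j := by
        rw [h1, h2, h4, ← Finset.sum_sub_distrib]
        exact Finset.sum_congr rfl fun j _ => by ring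

/-- **Abel summation** -/
theorem Mdf_abel [Finite I] {R : ℤ} {F : FX I → ℝ} (hF : Bd R F) :
    Mdf F = ∑ j ∈ Finset.Icc (-(R + 1)) (R + 1), (j : ℝ) * ∑ r ∈ Finset.Icc (-R) R, A j r F := by
  classical
  -- everything is a sum over the finite set of the families in the box
  set T := (fin_box (I := I) R).toFinset with hT
  have hmem : ∀ γ, γ ∉ T → F γ = 0 := by
    intro γ h
    by_contra hc
    exact h ((Set.Finite.mem_toFinset _).2 (hF γ hc))
  have e1 : Mdf F = ∑ γ ∈ T, if Fam g0 γ then dMt γ * F γ else 0 := by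
    unfold Mdf
    exact tsum_eq_sum fun γ hγ => by simp [hmem γ hγ]
  have e2 : ∀ j r, A j r F = ∑ γ ∈ T, if Fam g0 γ then (dM (j, r) γ - dM (j + 1, r) γ) * F γ else 0 := by
    intro j r
    unfold A
    exact tsum_eq_sum fun γ hγ => by simp [hmem γ hγ]
  rw [e1]
  simp_rw [e2]
  have e3 : ∑ j ∈ Finset.Icc (-(R + 1)) (R + 1), (j : ℝ) * ∑ r ∈ Finset.Icc (-R) R, ∑ γ ∈ T,
      (if Fam g0 γ then (dM (j, r) γ - dM (j + 1, r) γ) * F γ else 0) =
      ∑ γ ∈ T, ∑ j ∈ Finset.Icc (-(R + 1)) (R + 1), (j : ℝ) * ∑ r ∈ Finset.Icc (-R) R,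
        (if Fam g0 γ then (dM (j, r) γ - dM (j + 1, r) γ) * F γ else 0) := by
    rw [Finset.sum_comm]
    refine Finset.sum_congr rfl fun j _ => ?_
    rw [Finset.sum_comm, Finset.mul_sum]
  rw [e3]
  refine Finset.sum_congr rfl fun γ hγ => ?_
  split_ifs with hf
  · have hb : ∀ a b, γ (some (a, b)) ≠ 0 → |a| ≤ R ∧ |b| ≤ R := (Set.Finite.mem_toFinset _).1 hγ
    rw [dMt_box hb, ← abel_int (N := R) (m := fun j => ∑ r ∈ Finset.Icc (-R) R, dM (j, r) γ), Finset.sum_mul]
    · refine Finset.sum_congr rfl fun j _ => ?_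
      rw [← Finset.sum_sub_distrib, mul_assoc, Finset.sum_mul]
    · intro j hj
      by_contra hc
      refine hj (Finset.sum_eq_zero fun r _ => dM_zero ?_)
      by_contra h0
      exact hc (hb _ _ h0).1
  · simp

/-! ### telescoping in the rows -/

/-- **telescoping in the rows** -/
theorem row_tel [Finite I] {R : ℤ} {j : ℤ} {F : FX I → ℝ} {G Gb Ga : ℤ → FX I → ℝ} (hF : Bd R F)
    (hG : ∀ r, Bd R (G r)) (hGb : ∀ r, Bd R (Gb r)) (hGa : ∀ r, Bd R (Ga r))
    (h3 : ∀ r, A j r (G r) + J j (r + 1) (Ga r) - J j r (Gb r) = 0) :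
    ∑ r ∈ Finset.Icc (-R) R, A j r F = ∑ r ∈ Finset.Icc (-(R + 1)) (R + 1),
      (A j r (fun γ => F γ - G r γ) + J j r (fun γ => Gb r γ - Ga (r - 1) γ)) := by
  have e1 : ∀ r, A j r (fun γ => F γ - G r γ) = A j r F + (J j (r + 1) (Ga r) - J j r (Gb r)) := by
    intro r
    rw [A_sub hF (hG r)]
    linarith [h3 r]
  have e2 : ∀ r, J j r (fun γ => Gb r γ - Ga (r - 1) γ) = J j r (Gb r) - J j r (Ga (r - 1)) := fun r =>
    J_sub (hGb r) (hGa (r - 1))
  simp_rw [e1, e2]
  have e3 : ∑ r ∈ Finset.Icc (-(R + 1)) (R + 1), J j (r + 1) (Ga r) =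
      ∑ r ∈ Finset.Icc (-(R + 1)) (R + 1), J j r (Ga (r - 1)) := by
    have h1 : ∑ r ∈ Finset.Icc (-(R + 1)) (R + 1), J j (r + 1) (Ga r) =
        ∑ r ∈ Finset.Icc (-R) (R + 2), J j r (Ga (r - 1)) := by
      refine Finset.sum_bij' (fun j _ => j + 1) (fun j _ => j - 1) ?_ ?_ ?_ ?_ ?_
      · intro j hj
        rw [Finset.mem_Icc] at hj ⊢
        omega
      · intro j hj
        rw [Finset.mem_Icc] at hj ⊢
        omega
      · intro j _
        ring
      · intro j _
        ring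
      · intro j _
        rw [add_sub_cancel_right]
    have hz : ∀ r, ¬ (-R ≤ r ∧ r ≤ R + 1) → J j r (Ga (r - 1)) = 0 := by
      intro r hr
      refine J_zero (hGa _) ?_
      omega
    rw [h1]
    have h2 : ∀ a b : ℤ, a ≤ -R → R + 1 ≤ b → ∑ r ∈ Finset.Icc a b, J j r (Ga (r - 1)) =
        ∑ r ∈ Finset.Icc (-R) (R + 1), J j r (Ga (r - 1)) := by
      intro a b ha hb
      symm
      refine Finset.sum_subset (Finset.Icc_subset_Icc ha hb) fun r _ hr => hz r ?_
      rwa [Finset.mem_Icc] at hr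
    rw [h2 (-R) (R + 2) le_rfl (by omega), h2 (-(R + 1)) (R + 1) (by omega) le_rfl]
  have e4 : ∑ r ∈ Finset.Icc (-R) R, A j r F = ∑ r ∈ Finset.Icc (-(R + 1)) (R + 1), A j r F := by
    refine Finset.sum_subset (Finset.Icc_subset_Icc (by omega) (by omega)) fun r _ hr => A_zero hF ?_
    rw [Finset.mem_Icc] at hr
    omega
  rw [e4]
  calc ∑ r ∈ Finset.Icc (-(R + 1)) (R + 1), A j r F
      = ∑ r ∈ Finset.Icc (-(R + 1)) (R + 1), A j r F
        + (∑ r ∈ Finset.Icc (-(R + 1)) (R + 1), J j (r + 1) (Ga r)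
          - ∑ r ∈ Finset.Icc (-(R + 1)) (R + 1), J j r (Ga (r - 1))) := by rw [e3]; ring
    _ = _ := by
        rw [← Finset.sum_sub_distrib, ← Finset.sum_add_distrib]
        exact Finset.sum_congr rfl fun r _ => by ring

/-- **the derivative of the measure is a sum of local terms** -/
theorem Mdf_loc [Finite I] {R : ℤ} {F : FX I → ℝ} {G Gb Ga : ℤ → ℤ → FX I → ℝ} (hF : Bd R F)
    (hG : ∀ j r, Bd R (G j r)) (hGb : ∀ j r, Bd R (Gb j r)) (hGa : ∀ j r, Bd R (Ga j r))
    (h3 : ∀ j r, A j r (G j r) + J j (r + 1) (Ga j r) - J j r (Gb j r) = 0) :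
    Mdf F = ∑ j ∈ Finset.Icc (-(R + 1)) (R + 1), ∑ r ∈ Finset.Icc (-(R + 1)) (R + 1),
      (j : ℝ) * (A j r (fun γ => F γ - G j r γ) + J j r (fun γ => Gb j r γ - Ga j (r - 1) γ)) := by
  rw [Mdf_abel hF]
  refine Finset.sum_congr rfl fun j _ => ?_
  rw [row_tel hF (hG j) (hGb j) (hGa j) (h3 j), Finset.mul_sum]

/-! ### the test functions -/

/-- a bound for the heights of the normal cells is a bound for the cells -/
theorem box_of {K : ℤ} {γ : FX I} {S : I → Finset Pt} (hS : ∀ i, cl γ i ⊆ S i)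
    (h : ∀ i, |hL (S i)| ≤ K ∧ |hR (S i)| ≤ K ∧ |hB (S i)| ≤ K ∧ |hT (S i)| ≤ K) :
    ∀ a b : ℤ, γ (some (a, b)) ≠ 0 → |a| ≤ K ∧ |b| ≤ K := by
  intro a b hab
  obtain ⟨i, hi⟩ : ∃ i, γ (some (a, b)) i ≠ .o := by
    by_contra hc
    push Not at hc
    exact hab (funext hc)
  have hm : ((a, b) : Pt) ∈ S i := hS i (mem_cl.2 hi)
  have h1 := hL_le hm
  have h2 := le_hR hm
  have h3 := hB_le hm
  have h4 := le_hT hm
  obtain ⟨k1, k2, k3, k4⟩ := h i
  simp only [abs_le] at *
  omega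

theorem Tst.bdF (t : Tst I) : Bd t.K t.F := by
  intro γ hγ
  have hf : t.f (ht γ) ≠ 0 := fun h => hγ (by simp [Tst.F, h])
  have hb := t.bd _ (t.dm (ht γ) (ht γ) (fun i a => by simp) hf)
  exact box_of (S := fun i => cl γ i) (fun i => subset_rfl) fun i => ⟨hb i 0, hb i 1, hb i 2, hb i 3⟩

theorem Tst.bdG (t : Tst I) (j r : ℤ) : Bd t.K (t.G j r) := by
  intro γ hγ
  have hf : t.f (he j r γ) ≠ 0 := fun h => hγ (by simp [Tst.G, h])
  have hb := t.bd _ (t.dm (he j r γ) (he j r γ) (fun i a => by simp) hf)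
  exact box_of (S := fun i => ex j r γ i) (fun i => cl_sub_ex j r γ i) fun i => ⟨hb i 0, hb i 1, hb i 2, hb i 3⟩

theorem Bd.finite [Finite I] {R : ℤ} {F : FX I → ℝ} (hF : Bd R F) : {γ | F γ ≠ 0}.Finite :=
  (fin_box R).subset fun γ hγ => hF γ hγ

/-- **the derivative of the measure, box form**: `h3` = the local identity of the row `r` -/
theorem Mdf_box [Finite I] (t : Tst I) {B : ℤ} (hB : t.K + 1 ≤ B)
    (h3 : ∀ j r, A j r (t.G j r) + J j (r + 1) (t.G j r) - J j r (t.G j r) = 0) :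
    Mdf t.F = ∑ j ∈ Finset.Icc (-B) B, ∑ r ∈ Finset.Icc (-B) B,
      (j : ℝ) * (A j r (fun γ => t.F γ - t.G j r γ) + J j r (fun γ => t.G j r γ - t.G j (r - 1) γ)) := by
  have h := Mdf_loc (R := B - 1) (t.bdF.mono (by omega)) (G := fun j r => t.G j r) (Gb := fun j r => t.G j r)
    (Ga := fun j r => t.G j r) (fun j r => (t.bdG j r).mono (by omega)) (fun j r => (t.bdG j r).mono (by omega))
    (fun j r => (t.bdG j r).mono (by omega)) h3
  rw [h, sub_add_cancel]

/-- **the derivative of the measure** -/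
theorem Mdf_F' [Finite I] (t : Tst I)
    (h3 : ∀ j r, A j r (t.G j r) + J j (r + 1) (t.G j r) - J j r (t.G j r) = 0) :
    Mdf t.F = ∑' j : ℤ, ∑' r : ℤ, (j : ℝ) * (A j r (fun γ => t.F γ - t.G j r γ) +
      J j r (fun γ => t.G j r γ - t.G j (r - 1) γ)) := by
  have hz : ∀ j r, ¬ (|j| ≤ t.K + 1 ∧ |r| ≤ t.K + 1) → (j : ℝ) * (A j r (fun γ => t.F γ - t.G j r γ) +
      J j r (fun γ => t.G j r γ - t.G j (r - 1) γ)) = 0 := by
    intro j r h
    have h1 : |j| ≤ t.K + 1 ∧ |r| ≤ t.K + 1 ↔ (-(t.K + 1) ≤ j ∧ j ≤ t.K + 1) ∧ (-(t.K + 1) ≤ r ∧ r ≤ t.K + 1) := by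
      rw [abs_le, abs_le]
    rw [h1] at h
    rw [A_zero (t.bdF.sub (t.bdG j r)) (by omega), J_zero ((t.bdG j r).sub (t.bdG j (r - 1))) (by omega)]
    ring
  rw [Mdf_box t le_rfl h3]
  symm
  rw [tsum_eq_sum (s := Finset.Icc (-(t.K + 1)) (t.K + 1))]
  · refine Finset.sum_congr rfl fun j _ => ?_
    refine tsum_eq_sum fun r hr => hz j r fun h => hr ?_
    rw [Finset.mem_Icc]
    exact abs_le.1 h.2
  · intro j hj
    rw [show (fun r : ℤ => (j : ℝ) * (A j r (fun γ => t.F γ - t.G j r γ) +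
      J j r (fun γ => t.G j r γ - t.G j (r - 1) γ))) = fun _ => 0 from funext fun r => hz j r fun h => hj ?_]
    · exact tsum_zero
    · rw [Finset.mem_Icc]
      exact abs_le.1 h.1

end Pool.Agent.ROT.L
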