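import Pool.Agent.ROT.LLab
import Pool.Agent.ROT.LDefs

/-!
# ROT, linear response, L4c (helper93): a cap of the crossing over the top row = a minimal cap of the loop

`CapS j s i`: the families on the lattice with the crossing, the crossing is a cap of the member `i` whose top row is
`s - 1`; `CupS j s i`: the families on the lattice, the top row of `i` is `s` and consists of the two cells `se`, `sw` in
the columns `j`, `j + 1`; no other member in the block.  **`cap_cup`**: the two sets are in bijection, with the weights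
`Jw = kk * M`.  **`cap_cupB`**: the same for the cup under the bottom row.
-/

set_option autoImplicit false
set_option linter.unusedSimpArgs false
set_option linter.unreachableTactic false
set_option linter.unusedTactic false
set_option linter.constructorNameAsVariable false
set_option linter.unusedVariables false

namespace Pool.Agent.ROT.L.Cap

open Pool.Agent.YBC (Dir)
open Pool.Agent.ROT.E (Cell IsUn wf Pt nx W0 W1 J1)
open Pool.Agent.ROT.E.Lab (un_zero un_unique)

variable {V I : Type} {A : Set V} {G G' : Gr V} {δ δ' : V →₀ Cell}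

/-- the edges fit after a change inside the region -/
theorem mt_swap (ag : Agr A G G') (mt : Mt G δ Set.univ) (out : ∀ v, v ∉ A → δ v = δ' v)
    (pt : ∀ k : V × Dir, k.1 ∈ A → (G.e k).1 ∉ A → (oc δ k ↔ oc δ' (G'.e (G.e k))))
    (inn : ∀ k : V × Dir, k.1 ∈ A → (G'.e k).1 ∈ A → (oc δ' k ↔ oc δ' (G'.e k))) : Mt G' δ' Set.univ := by
  have pt' : ∀ h ∈ Port G A, (oc δ h ↔ oc δ' (G'.e h)) := fun h hh => by
    have := pt (G.e h) hh.2 (by rw [G.inv]; exact hh.1)
    rw [G.inv] at this
    rw [← this]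
    exact mt h trivial trivial
  intro h _ _
  by_cases h1 : h.1 ∈ A
  · by_cases h2 : (G'.e h).1 ∈ A
    · exact inn h h1 h2
    · have h3 : G'.e h ∈ Port G A := by
        rw [ag.port]
        exact ⟨h2, by rw [G'.inv]; exact h1⟩
      have h4 := pt' _ h3
      rw [G'.inv] at h4
      rw [← h4]
      exact oc_out out h2
  · by_cases h2 : (G'.e h).1 ∈ A
    · have h3 : h ∈ Port G A := by
        rw [ag.port]
        exact ⟨h1, h2⟩
      rw [← pt' h h3]
      exact (oc_out out h1).symm
    · have h3 : (G.e h).1 ∉ A := fun h4 => h2 ((ag.prt h h1).1 h4)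
      rw [ag.out h h1 h3, ← oc_out out h1, ← oc_out out h3]
      exact mt h trivial trivial

/-- the connections of the ports, one passage through the region -/
theorem pr2 (ag : Agr A G G') (mtl : Mt G δ Set.univ) (mt : Mt G' δ' Set.univ) (out : ∀ v, v ∉ A → δ v = δ' v)
    {a b : V × Dir}
    (only : ∀ k : V × Dir, k.1 ∈ A → (G.e k).1 ∉ A → oc δ k → G.e k = a ∨ G.e k = b)
    (c : Cn G δ A (G.e a) (G.e b)) (c' : ∀ h : V × Dir, h.1 ∈ A → oc δ' h → Cn G' δ' A h (G'.e a)) :
    ∀ h ∈ Port G A, ∀ k ∈ Port G A, (Cn G δ A (G.e h) (G.e k) ↔ Cn G' δ' A (G'.e h) (G'.e k)) := by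
  have only' : ∀ h ∈ Port G A, oc δ h → h = a ∨ h = b := fun h hh ho => by
    have := only (G.e h) hh.2 (by rw [G.inv]; exact hh.1) ((oc_port mtl h).2 ho)
    rwa [G.inv] at this
  have hport : ∀ {h}, h ∈ Port G A → (G'.e h).1 ∈ A := fun {h} hh => (ag.prt h hh.1).1 hh.2
  intro h hh k hk
  by_cases e : h = k
  · rw [e]
    exact ⟨fun _ => cn_refl _, fun _ => cn_refl _⟩
  constructor
  · intro cc
    rcases cn_oc (mt_mono mtl) cc with e' | ⟨⟨h1, -⟩, h2, -⟩
    · exact absurd (by rw [← G.inv h, e', G.inv]) e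
    · have o1 : oc δ' (G'.e h) := by
        rw [oc_port mt, ← oc_out out hh.1]
        exact (oc_port mtl h).1 h1
      have o2 : oc δ' (G'.e k) := by
        rw [oc_port mt, ← oc_out out hk.1]
        exact (oc_port mtl k).1 h2
      exact cn_trans (c' _ (hport hh) o1) (cn_symm (c' _ (hport hk) o2))
  · intro cc
    rcases cn_oc (mt_mono mt) cc with e' | ⟨⟨h1, -⟩, h2, -⟩
    · exact absurd (by rw [← G'.inv h, e', G'.inv]) e
    · have o1 := only' h hh ((oc_out out hh.1).2 ((oc_port mt h).1 h1))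
      have o2 := only' k hk ((oc_out out hk.1).2 ((oc_port mt k).1 h2))
      rcases o1 with rfl | rfl <;> rcases o2 with rfl | rfl
      · exact absurd rfl e
      · exact c
      · exact cn_symm c
      · exact absurd rfl e

/-- the same port connections -/
def SPr (A : Set V) (G G' : Gr V) (δ δ' : V →₀ Cell) : Prop :=
  ∀ h ∈ Port G A, ∀ k ∈ Port G A, (Cn G δ A (G.e h) (G.e k) ↔ Cn G' δ' A (G'.e h) (G'.e k))

/-- **one passage through the region** is replaced by another one with the same two ports -/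
theorem glue2 (ag : Agr A G G') (l : Lp G δ) (out : ∀ v, v ∉ A → δ v = δ' v)
    (pt : ∀ k : V × Dir, k.1 ∈ A → (G.e k).1 ∉ A → (oc δ k ↔ oc δ' (G'.e (G.e k))))
    (inn : ∀ k : V × Dir, k.1 ∈ A → (G'.e k).1 ∈ A → (oc δ' k ↔ oc δ' (G'.e k)))
    {a b : V × Dir} (ha : a ∈ Port G A) (oa : oc δ a)
    (only : ∀ k : V × Dir, k.1 ∈ A → (G.e k).1 ∉ A → oc δ k → G.e k = a ∨ G.e k = b)
    (c : Cn G δ A (G.e a) (G.e b)) (c' : ∀ h : V × Dir, h.1 ∈ A → oc δ' h → Cn G' δ' A h (G'.e a)) :
    Lp G' δ' ∧ SPr A G G' δ δ' := by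
  have mt := mt_swap ag l.mt out pt inn
  have pr := pr2 ag l.mt mt out only c c'
  refine ⟨glue ag l ⟨a.1, ha.1, fun e => ?_⟩ out mt (fun h h1 h2 => ⟨a, ha, c' h h1 h2⟩) pr, pr⟩
  have : (δ a.1).oc a.2 := oa
  rw [e] at this
  exact this rfl

/-- a loop that does not enter the region -/
theorem glue0 (ag : Agr A G G') (l : Lp G δ) (z : ∀ v ∈ A, δ v = .o) : Lp G' δ ∧ SPr A G G' δ δ := by
  have no : ∀ k : V × Dir, k.1 ∈ A → ¬ oc δ k := fun k hk ho => by
    have : (δ k.1).oc k.2 := ho
    rw [z _ hk] at this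
    exact this rfl
  have mt : Mt G' δ Set.univ := mt_swap ag l.mt (fun _ _ => rfl)
    (fun k h1 h2 => ⟨fun h => absurd h (no k h1), fun h => absurd h (no _ ?_)⟩)
    (fun k h1 h2 => ⟨fun h => absurd h (no k h1), fun h => absurd h (no _ h2)⟩)
  swap
  · exact (ag.prt _ h2).1 (by rw [G.inv]; exact h1)
  have hport : ∀ {h}, h ∈ Port G A → (G'.e h).1 ∈ A := fun {h} hh => (ag.prt h hh.1).1 hh.2
  have lv : ∃ v, v ∉ A ∧ δ v ≠ .o := by
    by_contra hc
    push Not at hc
    apply l.ne
    ext v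
    by_cases hv : v ∈ A
    · exact z v hv
    · exact hc v hv
  have pr : SPr A G G' δ δ := ?_
  · exact ⟨glue ag l lv (fun _ _ => rfl) mt (fun h h1 h2 => absurd h2 (no h h1)) pr, pr⟩
  intro h hh k hk
  by_cases e : h = k
  · rw [e]
    exact ⟨fun _ => cn_refl _, fun _ => cn_refl _⟩
  constructor
  · intro cc
    rcases cn_oc (mt_mono l.mt) cc with e' | ⟨⟨h1, -⟩, -⟩
    · exact absurd (by rw [← G.inv h, e', G.inv]) e
    · exact absurd h1 (no _ hh.2)
  · intro cc
    rcases cn_oc (mt_mono mt) cc with e' | ⟨⟨h1, -⟩, -⟩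
    · exact absurd (by rw [← G'.inv h, e', G'.inv]) e
    · exact absurd h1 (no _ (hport hh))

/-! ### the region -/

variable {j s : ℤ}

/-- outside of the row above the crossing the graph is the lattice -/
theorem agr_b (j s : ℤ) : Agr (Rg j s) (gX j s) g0 := by
  constructor
  · rintro ⟨_ | ⟨a, b⟩, d⟩ h1 h2
    · exact absurd (Or.inl rfl) h1
    · cases d
      · rfl
      · show e0 (some (a, b), .N) = eX j s (some (a, b), .N)
        simp only [gX, eX, Rg] at h2
        simp only [eX, e0]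
        split_ifs with h3 h4
        · rw [if_pos h3] at h2
          simp at h2
        · rw [if_neg h3, if_pos h4] at h2
          simp at h2
        · rfl
      · rfl
      · show e0 (some (a, b), .S) = eX j s (some (a, b), .S)
        simp only [gX, eX, Rg] at h2
        simp only [eX, e0]
        split_ifs with h3 h4
        · rw [if_pos h3] at h2
          simp at h2
        · rw [if_neg h3, if_pos h4] at h2
          simp at h2
        · rfl
  · rintro ⟨_ | ⟨a, b⟩, d⟩ h1
    · exact absurd (Or.inl rfl) h1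
    · simp only [Rg, Set.mem_insert_iff, Set.mem_singleton_iff, reduceCtorEq, Option.some.injEq, Prod.mk.injEq,
        false_or, not_or, not_and] at h1
      cases d
      · exact Iff.rfl
      · simp only [gX, g0, eX, e0, Rg, nx, Prod.mk.injEq, Set.mem_insert_iff, Set.mem_singleton_iff]
        split_ifs with h3 h4 <;> simp <;> omega
      · exact Iff.rfl
      · simp only [gX, g0, eX, e0, Rg, nx, Prod.mk.injEq, Set.mem_insert_iff, Set.mem_singleton_iff]
        split_ifs with h3 h4 <;> simp <;> omega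

/-- outside of the row below the crossing the graph is the lattice -/
theorem agr_a (j s : ℤ) : Agr (Rg j (s - 1)) (gX j s) g0 := by
  constructor
  · rintro ⟨_ | ⟨a, b⟩, d⟩ h1 h2
    · exact absurd (Or.inl rfl) h1
    · cases d
      · rfl
      · show e0 (some (a, b), .N) = eX j s (some (a, b), .N)
        simp only [gX, eX, Rg] at h2
        simp only [eX, e0]
        split_ifs with h3 h4
        · rw [if_pos h3] at h2
          simp at h2
        · rw [if_neg h3, if_pos h4] at h2
          simp at h2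
        · rfl
      · rfl
      · show e0 (some (a, b), .S) = eX j s (some (a, b), .S)
        simp only [gX, eX, Rg] at h2
        simp only [eX, e0]
        split_ifs with h3 h4
        · rw [if_pos h3] at h2
          simp at h2
        · rw [if_neg h3, if_pos h4] at h2
          simp at h2
        · rfl
  · rintro ⟨_ | ⟨a, b⟩, d⟩ h1
    · exact absurd (Or.inl rfl) h1
    · simp only [Rg, Set.mem_insert_iff, Set.mem_singleton_iff, reduceCtorEq, Option.some.injEq, Prod.mk.injEq,
        false_or, not_or, not_and] at h1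
      cases d
      · exact Iff.rfl
      · simp only [gX, g0, eX, e0, Rg, nx, Prod.mk.injEq, Set.mem_insert_iff, Set.mem_singleton_iff]
        split_ifs with h3 h4 <;> simp <;> omega
      · exact Iff.rfl
      · simp only [gX, g0, eX, e0, Rg, nx, Prod.mk.injEq, Set.mem_insert_iff, Set.mem_singleton_iff]
        split_ifs with h3 h4 <;> simp <;> omega

theorem eXN (j s a : ℤ) : (gX j s).e (some (a, s), .N) = (some (a, s + 1), .S) := by
  simp only [gX, eX, Prod.mk.injEq]
  rw [if_neg (by omega), if_neg (by omega)]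
  rfl

theorem eXS (j s a : ℤ) : (gX j s).e (some (a, s - 1), .S) = (some (a, s - 1 - 1), .N) := by
  simp only [gX, eX, Prod.mk.injEq]
  rw [if_neg (by omega), if_neg (by omega)]
  rfl

theorem eX2 (j s : ℤ) : (gX j s).e (some (j + 1, s - 1), .N) = (none, .E) := by
  simp [gX, eX]

theorem eX4 (j s : ℤ) : (gX j s).e (some (j + 1, s), .S) = (none, .N) := by
  simp [gX, eX]

/-- the other halves, near the crossing -/
theorem eXs (j s : ℤ) : (gX j s).e (none, .S) = (some (j, s - 1), .N) ∧ (gX j s).e (none, .E) = (some (j + 1, s - 1), .N) ∧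
    (gX j s).e (none, .W) = (some (j, s), .S) ∧ (gX j s).e (none, .N) = (some (j + 1, s), .S) ∧
    (gX j s).e (some (j, s - 1), .N) = (none, .S) ∧ (gX j s).e (some (j + 1, s - 1), .N) = (none, .E) ∧
    (gX j s).e (some (j, s), .S) = (none, .W) ∧ (gX j s).e (some (j + 1, s), .S) = (none, .N) ∧
    (∀ a, (gX j s).e (some (a, s), .N) = (some (a, s + 1), .S)) ∧
    (∀ a, (gX j s).e (some (a, s - 1), .S) = (some (a, s - 1 - 1), .N)) ∧
    (∀ a b, (gX j s).e (some (a, b), .E) = (some (a + 1, b), .W)) ∧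
    (∀ a b, (gX j s).e (some (a, b), .W) = (some (a - 1, b), .E)) :=
  ⟨rfl, rfl, rfl, rfl, if_pos rfl, eX2 j s, if_pos rfl, eX4 j s, eXN j s, eXS j s, fun _ _ => rfl, fun _ _ => rfl⟩

/-- the other halves of the ports above and below -/
theorem eXp (j s : ℤ) : (∀ a, (gX j s).e (some (a, s + 1), .S) = (some (a, s), .N)) ∧
    (∀ a, (gX j s).e (some (a, s - 1 - 1), .N) = (some (a, s - 1), .S)) :=
  ⟨fun a => by rw [← eXN j s a, (gX j s).inv], fun a => by rw [← eXS j s a, (gX j s).inv]⟩

/-- the other halves in the lattice -/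
theorem e0s : (∀ d, g0.e (none, d) = (none, d)) ∧ (∀ a b, g0.e (some (a, b), .E) = (some (a + 1, b), .W)) ∧
    (∀ a b, g0.e (some (a, b), .W) = (some (a - 1, b), .E)) ∧
    (∀ a b, g0.e (some (a, b), .N) = (some (a, b + 1), .S)) ∧
    (∀ a b, g0.e (some (a, b), .S) = (some (a, b - 1), .N)) :=
  ⟨fun _ => rfl, fun _ _ => rfl, fun _ _ => rfl, fun _ _ => rfl, fun _ _ => rfl⟩

/-- a table for the half edges of three vertices -/
theorem all12 {p q r : VX} {P : VX × Dir → Prop} (h : ∀ d, P (p, d)) (h' : ∀ d, P (q, d)) (h'' : ∀ d, P (r, d)) :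
    ∀ k : VX × Dir, k.1 ∈ ({p, q, r} : Set VX) → P k := by
  rintro ⟨v, d⟩ (rfl | rfl | rfl)
  · exact h d
  · exact h' d
  · exact h'' d

/-- **the cap of the crossing becomes the minimal cap of the lattice** -/
theorem cap_L {δ δ' : VX →₀ Cell} (l : Lp (gX j s) δ) (x : δ none = .se) (c : δ (some (j, s)) = .o)
    (d : δ (some (j + 1, s)) = .o) (out : ∀ v, v ∉ Rg j s → δ v = δ' v) (x' : δ' none = .o)
    (c' : δ' (some (j, s)) = .se) (d' : δ' (some (j + 1, s)) = .sw) : Lp g0 δ' ∧
    SPr (Rg j s) (gX j s) g0 δ δ' := by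
  have E := eXs j s
  have E' := eXp j s
  have F := e0s
  have oa : oc δ (some (j, s - 1), .N) := by
    rw [l.mt _ trivial trivial, E.2.2.2.2.1]
    show (δ none).oc .S
    rw [x]
    decide
  have r1 : (some (j, s - 1) : VX) ∉ Rg j s := by simp [Rg]
  have r3 : (none : VX) ∈ Rg j s := Or.inl rfl
  have r4 : (some (j, s) : VX) ∈ Rg j s := Or.inr (Or.inl rfl)
  have r5 : (some (j + 1, s) : VX) ∈ Rg j s := Or.inr (Or.inr rfl)
  refine glue2 (agr_b j s) l out ?_ ?_ (a := (some (j, s - 1), .N)) (b := (some (j + 1, s - 1), .N))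
    ⟨r1, by rw [E.2.2.2.2.1]; exact r3⟩ oa ?_ ?_ ?_
  · refine all12 ?_ ?_ ?_ <;> intro e h2 <;> cases e <;>
      simp [E, E', F, oc, x, c, d, x', c', d', Cell.oc, Cell.p, Rg] at h2 ⊢ <;> omega
  · refine all12 ?_ ?_ ?_ <;> intro e h2 <;> cases e <;>
      simp [E, E', F, oc, x, c, d, x', c', d', Cell.oc, Cell.p, Rg] at h2 ⊢ <;> omega
  · refine all12 ?_ ?_ ?_ <;> intro e h2 h3 <;> cases e <;>
      simp [E, F, oc, x, c, d, Cell.oc, Cell.p, Rg] at h2 h3 ⊢ <;> omega
  · rw [E.2.2.2.2.1, E.2.2.2.2.2.1]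
    have : Cn (gX j s) δ (Rg j s) (none, .S) (vp δ (none, .S)) := cn_vp (by simp [oc, x, Cell.oc, Cell.p]) r3
    simpa [vp, x, Cell.p] using this
  · have hS : Cn g0 δ' (Rg j s) (some (j, s), .E) (some (j, s), .S) := by
      have := cn_vp (G := g0) (δ := δ') (B := Rg j s) (h := (some (j, s), .E)) (by simp [oc, c', Cell.oc, Cell.p]) r4
      simpa [vp, c', Cell.p] using this
    have hW : Cn g0 δ' (Rg j s) (some (j + 1, s), .S) (some (j + 1, s), .W) := by
      have := cn_vp (G := g0) (δ := δ') (B := Rg j s) (h := (some (j + 1, s), .S)) (by simp [oc, d', Cell.oc, Cell.p]) r5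
      simpa [vp, d', Cell.p] using this
    have hE : Cn g0 δ' (Rg j s) (some (j + 1, s), .W) (some (j, s), .E) := by
      have := cn_e (G := g0) (δ := δ') (B := Rg j s) (h := (some (j + 1, s), .W)) (by simp [oc, d', Cell.oc, Cell.p]) r5
        (by simp [F, Rg])
      simpa [F] using this
    have e1 : g0.e (some (j, s - 1), .N) = (some (j, s), .S) := by simp [F]
    rw [e1]
    refine all12 ?_ ?_ ?_ <;> intro e h2 <;> cases e <;> simp [oc, x', c', d', Cell.oc, Cell.p] at h2
    · exact hS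
    · exact cn_refl _
    · exact cn_trans hE hS
    · exact cn_trans hW (cn_trans hE hS)

/-- **the minimal cap of the lattice becomes the cap of the crossing** -/
theorem cap_X {δ δ' : VX →₀ Cell} (l : Lp g0 δ) (x : δ none = .o) (c : δ (some (j, s)) = .se)
    (d : δ (some (j + 1, s)) = .sw) (out : ∀ v, v ∉ Rg j s → δ v = δ' v) (x' : δ' none = .se)
    (c' : δ' (some (j, s)) = .o) (d' : δ' (some (j + 1, s)) = .o) : Lp (gX j s) δ' ∧
    SPr (Rg j s) g0 (gX j s) δ δ' := by
  have E := eXs j s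
  have E' := eXp j s
  have F := e0s
  have oa : oc δ (some (j, s - 1), .N) := by
    rw [l.mt _ trivial trivial]
    simp [oc, F, c, Cell.oc, Cell.p]
  have r1 : (some (j, s - 1) : VX) ∉ Rg j s := by simp [Rg]
  have r3 : (none : VX) ∈ Rg j s := Or.inl rfl
  have r4 : (some (j, s) : VX) ∈ Rg j s := Or.inr (Or.inl rfl)
  have r5 : (some (j + 1, s) : VX) ∈ Rg j s := Or.inr (Or.inr rfl)
  refine glue2 (agr_b j s).symm l out ?_ ?_ (a := (some (j, s - 1), .N)) (b := (some (j + 1, s - 1), .N))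
    ⟨r1, by simp [F, Rg]⟩ oa ?_ ?_ ?_
  · refine all12 ?_ ?_ ?_ <;> intro e h2 <;> cases e <;>
      simp [E, E', F, oc, x, c, d, x', c', d', Cell.oc, Cell.p, Rg] at h2 ⊢ <;> omega
  · refine all12 ?_ ?_ ?_ <;> intro e h2 <;> cases e <;>
      simp [E, E', F, oc, x, c, d, x', c', d', Cell.oc, Cell.p, Rg] at h2 ⊢ <;> omega
  · refine all12 ?_ ?_ ?_ <;> intro e h2 h3 <;> cases e <;>
      simp [E, F, oc, x, c, d, Cell.oc, Cell.p, Rg] at h2 h3 ⊢ <;> omega
  · have hS : Cn g0 δ (Rg j s) (some (j, s), .E) (some (j, s), .S) := by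
      have := cn_vp (G := g0) (δ := δ) (B := Rg j s) (h := (some (j, s), .E)) (by simp [oc, c, Cell.oc, Cell.p]) r4
      simpa [vp, c, Cell.p] using this
    have hW : Cn g0 δ (Rg j s) (some (j + 1, s), .S) (some (j + 1, s), .W) := by
      have := cn_vp (G := g0) (δ := δ) (B := Rg j s) (h := (some (j + 1, s), .S)) (by simp [oc, d, Cell.oc, Cell.p]) r5
      simpa [vp, d, Cell.p] using this
    have hE : Cn g0 δ (Rg j s) (some (j + 1, s), .W) (some (j, s), .E) := by
      have := cn_e (G := g0) (δ := δ) (B := Rg j s) (h := (some (j + 1, s), .W)) (by simp [oc, d, Cell.oc, Cell.p]) r5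
        (by simp [F, Rg])
      simpa [F] using this
    have e1 : g0.e (some (j, s - 1), .N) = (some (j, s), .S) := by simp [F]
    have e2 : g0.e (some (j + 1, s - 1), .N) = (some (j + 1, s), .S) := by simp [F]
    rw [e1, e2]
    exact cn_symm (cn_trans hW (cn_trans hE hS))
  · rw [E.2.2.2.2.1]
    refine all12 ?_ ?_ ?_ <;> intro e h2 <;> cases e <;> simp [oc, x', c', d', Cell.oc, Cell.p] at h2
    · have : Cn (gX j s) δ' (Rg j s) (none, .E) (vp δ' (none, .E)) := cn_vp (by simp [oc, x', Cell.oc, Cell.p]) r3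
      simpa [vp, x', Cell.p] using this
    · exact cn_refl _

/-- **the cup of the crossing becomes the minimal cup of the lattice** -/
theorem cup_L {δ δ' : VX →₀ Cell} (l : Lp (gX j s) δ) (x : δ none = .nw) (c : δ (some (j, s - 1)) = .o)
    (d : δ (some (j + 1, s - 1)) = .o) (out : ∀ v, v ∉ Rg j (s - 1) → δ v = δ' v) (x' : δ' none = .o)
    (c' : δ' (some (j, s - 1)) = .ne) (d' : δ' (some (j + 1, s - 1)) = .nw) : Lp g0 δ' ∧
    SPr (Rg j (s - 1)) (gX j s) g0 δ δ' := by
  have E := eXs j s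
  have E' := eXp j s
  have F := e0s
  have oa : oc δ (some (j, s), .S) := by
    rw [l.mt _ trivial trivial]
    simp [oc, E, x, Cell.oc, Cell.p]
  have ss : ¬ s = s - 1 := by omega
  have r1 : (some (j, s) : VX) ∉ Rg j (s - 1) := by simp [Rg, ss]
  have r3 : (none : VX) ∈ Rg j (s - 1) := Or.inl rfl
  have r4 : (some (j, s - 1) : VX) ∈ Rg j (s - 1) := Or.inr (Or.inl rfl)
  have r5 : (some (j + 1, s - 1) : VX) ∈ Rg j (s - 1) := Or.inr (Or.inr rfl)
  refine glue2 (agr_a j s) l out ?_ ?_ (a := (some (j, s), .S)) (b := (some (j + 1, s), .S))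
    ⟨r1, by simp [E, Rg]⟩ oa ?_ ?_ ?_
  · refine all12 ?_ ?_ ?_ <;> intro e h2 <;> cases e <;>
      simp [E, E', F, oc, x, c, d, x', c', d', Cell.oc, Cell.p, Rg] at h2 ⊢ <;> omega
  · refine all12 ?_ ?_ ?_ <;> intro e h2 <;> cases e <;>
      simp [E, E', F, oc, x, c, d, x', c', d', Cell.oc, Cell.p, Rg] at h2 ⊢ <;> omega
  · refine all12 ?_ ?_ ?_ <;> intro e h2 h3 <;> cases e <;>
      simp [E, F, oc, x, c, d, Cell.oc, Cell.p, Rg] at h2 h3 ⊢ <;> omega
  · have : Cn (gX j s) δ (Rg j (s - 1)) (none, .W) (vp δ (none, .W)) := cn_vp (by simp [oc, x, Cell.oc, Cell.p]) r3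
    simpa [vp, x, Cell.p, E] using this
  · have hS : Cn g0 δ' (Rg j (s - 1)) (some (j, s - 1), .E) (some (j, s - 1), .N) := by
      have := cn_vp (G := g0) (δ := δ') (B := Rg j (s - 1)) (h := (some (j, s - 1), .E))
        (by simp [oc, c', Cell.oc, Cell.p]) r4
      simpa [vp, c', Cell.p] using this
    have hW : Cn g0 δ' (Rg j (s - 1)) (some (j + 1, s - 1), .N) (some (j + 1, s - 1), .W) := by
      have := cn_vp (G := g0) (δ := δ') (B := Rg j (s - 1)) (h := (some (j + 1, s - 1), .N))
        (by simp [oc, d', Cell.oc, Cell.p]) r5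
      simpa [vp, d', Cell.p] using this
    have hE : Cn g0 δ' (Rg j (s - 1)) (some (j + 1, s - 1), .W) (some (j, s - 1), .E) := by
      have := cn_e (G := g0) (δ := δ') (B := Rg j (s - 1)) (h := (some (j + 1, s - 1), .W))
        (by simp [oc, d', Cell.oc, Cell.p]) r5 (by simp [F, Rg])
      simpa [F] using this
    have e1 : g0.e (some (j, s), .S) = (some (j, s - 1), .N) := by simp [F]
    rw [e1]
    refine all12 ?_ ?_ ?_ <;> intro e h2 <;> cases e <;> simp [oc, x', c', d', Cell.oc, Cell.p] at h2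
    · exact hS
    · exact cn_refl _
    · exact cn_trans hW (cn_trans hE hS)
    · exact cn_trans hE hS

/-- **the minimal cup of the lattice becomes the cup of the crossing** -/
theorem cup_X {δ δ' : VX →₀ Cell} (l : Lp g0 δ) (x : δ none = .o) (c : δ (some (j, s - 1)) = .ne)
    (d : δ (some (j + 1, s - 1)) = .nw) (out : ∀ v, v ∉ Rg j (s - 1) → δ v = δ' v) (x' : δ' none = .nw)
    (c' : δ' (some (j, s - 1)) = .o) (d' : δ' (some (j + 1, s - 1)) = .o) : Lp (gX j s) δ' ∧
    SPr (Rg j (s - 1)) g0 (gX j s) δ δ' := by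
  have E := eXs j s
  have E' := eXp j s
  have F := e0s
  have oa : oc δ (some (j, s), .S) := by
    rw [l.mt _ trivial trivial]
    simp [oc, F, c, Cell.oc, Cell.p]
  have ss : ¬ s = s - 1 := by omega
  have r1 : (some (j, s) : VX) ∉ Rg j (s - 1) := by simp [Rg, ss]
  have r3 : (none : VX) ∈ Rg j (s - 1) := Or.inl rfl
  have r4 : (some (j, s - 1) : VX) ∈ Rg j (s - 1) := Or.inr (Or.inl rfl)
  have r5 : (some (j + 1, s - 1) : VX) ∈ Rg j (s - 1) := Or.inr (Or.inr rfl)
  refine glue2 (agr_a j s).symm l out ?_ ?_ (a := (some (j, s), .S)) (b := (some (j + 1, s), .S))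
    ⟨r1, by simp [F, Rg]⟩ oa ?_ ?_ ?_
  · refine all12 ?_ ?_ ?_ <;> intro e h2 <;> cases e <;>
      simp [E, E', F, oc, x, c, d, x', c', d', Cell.oc, Cell.p, Rg] at h2 ⊢ <;> omega
  · refine all12 ?_ ?_ ?_ <;> intro e h2 <;> cases e <;>
      simp [E, E', F, oc, x, c, d, x', c', d', Cell.oc, Cell.p, Rg] at h2 ⊢ <;> omega
  · refine all12 ?_ ?_ ?_ <;> intro e h2 h3 <;> cases e <;>
      simp [E, F, oc, x, c, d, Cell.oc, Cell.p, Rg] at h2 h3 ⊢ <;> omega
  · have hS : Cn g0 δ (Rg j (s - 1)) (some (j, s - 1), .E) (some (j, s - 1), .N) := by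
      have := cn_vp (G := g0) (δ := δ) (B := Rg j (s - 1)) (h := (some (j, s - 1), .E))
        (by simp [oc, c, Cell.oc, Cell.p]) r4
      simpa [vp, c, Cell.p] using this
    have hW : Cn g0 δ (Rg j (s - 1)) (some (j + 1, s - 1), .N) (some (j + 1, s - 1), .W) := by
      have := cn_vp (G := g0) (δ := δ) (B := Rg j (s - 1)) (h := (some (j + 1, s - 1), .N))
        (by simp [oc, d, Cell.oc, Cell.p]) r5
      simpa [vp, d, Cell.p] using this
    have hE : Cn g0 δ (Rg j (s - 1)) (some (j + 1, s - 1), .W) (some (j, s - 1), .E) := by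
      have := cn_e (G := g0) (δ := δ) (B := Rg j (s - 1)) (h := (some (j + 1, s - 1), .W))
        (by simp [oc, d, Cell.oc, Cell.p]) r5 (by simp [F, Rg])
      simpa [F] using this
    have e1 : g0.e (some (j, s), .S) = (some (j, s - 1), .N) := by simp [F]
    have e2 : g0.e (some (j + 1, s), .S) = (some (j + 1, s - 1), .N) := by simp [F]
    rw [e1, e2]
    exact cn_symm (cn_trans hW (cn_trans hE hS))
  · have e1 : (gX j s).e (some (j, s), .S) = (none, .W) := E.2.2.2.2.2.2.1
    rw [e1]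
    refine all12 ?_ ?_ ?_ <;> intro e h2 <;> cases e <;> simp [oc, x', c', d', Cell.oc, Cell.p] at h2
    · have : Cn (gX j s) δ' (Rg j (s - 1)) (none, .N) (vp δ' (none, .N)) := cn_vp (by simp [oc, x', Cell.oc, Cell.p]) r3
      simpa [vp, x', Cell.p] using this
    · exact cn_refl _

/-! ### families -/

variable {i : I} {γ γ' : FX I} {r : ℤ}

open Classical in
/-- the cells of the label `i` at the three vertices of the region are changed -/
noncomputable def put (j r : ℤ) (i : I) (x c d : Cell) (γ : FX I) : FX I :=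
  ((γ.update none (Function.update (γ none) i x)).update (some (j, r))
    (Function.update (γ (some (j, r))) i c)).update (some (j + 1, r)) (Function.update (γ (some (j + 1, r))) i d)

private theorem pq (j r : ℤ) : (some (j, r) : VX) ≠ some (j + 1, r) := by simp

open Classical in
theorem put_none (x c d : Cell) : put j r i x c d γ none = Function.update (γ none) i x := by
  rw [put, Finsupp.update_apply, if_neg (by simp), Finsupp.update_apply, if_neg (by simp), Finsupp.update_apply,
    if_pos rfl]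

open Classical in
theorem put_1 (x c d : Cell) : put j r i x c d γ (some (j, r)) = Function.update (γ (some (j, r))) i c := by
  rw [put, Finsupp.update_apply, if_neg (pq j r), Finsupp.update_apply, if_pos rfl]

open Classical in
theorem put_2 (x c d : Cell) : put j r i x c d γ (some (j + 1, r)) = Function.update (γ (some (j + 1, r))) i d := by
  rw [put, Finsupp.update_apply, if_pos rfl]

theorem put_out (x c d : Cell) {v : VX} (h : v ∉ Rg j r) : put j r i x c d γ v = γ v := by
  have h1 : v ≠ none := fun e => h (by rw [e]; exact none_mem_Rg j r)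
  have h2 : v ≠ some (j, r) := fun e => h (Or.inr (Or.inl e))
  have h3 : v ≠ some (j + 1, r) := fun e => h (Or.inr (Or.inr e))
  rw [put, Finsupp.update_apply, if_neg h3, Finsupp.update_apply, if_neg h2, Finsupp.update_apply, if_neg h1]

theorem put_i (x c d : Cell) : put j r i x c d γ none i = x ∧ put j r i x c d γ (some (j, r)) i = c ∧
    put j r i x c d γ (some (j + 1, r)) i = d := by
  classical
  rw [put_none, put_1, put_2, Function.update_self, Function.update_self, Function.update_self]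
  exact ⟨rfl, rfl, rfl⟩

theorem put_k (x c d : Cell) {k : I} (hk : k ≠ i) (v : VX) : put j r i x c d γ v k = γ v k := by
  classical
  by_cases h : v ∈ Rg j r
  · rcases h with rfl | rfl | rfl
    · rw [put_none, Function.update_of_ne hk]
    · rw [put_1, Function.update_of_ne hk]
    · rw [put_2, Function.update_of_ne hk]
  · rw [put_out x c d h]

theorem put_put {x c d : Cell} (x' c' d' : Cell) (hx : γ none i = x) (hc : γ (some (j, r)) i = c)
    (hd : γ (some (j + 1, r)) i = d) : put j r i x c d (put j r i x' c' d' γ) = γ := by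
  ext v k
  by_cases hk : k = i
  · subst hk
    by_cases h : v ∈ Rg j r
    · rcases h with rfl | rfl | rfl
      · rw [(put_i x c d).1, hx]
      · rw [(put_i x c d).2.1, hc]
      · rw [(put_i x c d).2.2, hd]
    · rw [put_out _ _ _ h, put_out _ _ _ h]
  · rw [put_k _ _ _ hk, put_k _ _ _ hk]

theorem un_one {f : I → Cell} (h : ∀ k, k ≠ i → f k = .o) : IsUn f (f i) := by
  have key : ∀ k d, (f k).oc d → k = i := fun k d hd => by
    by_contra hc
    rw [h k hc] at hd
    exact hd rfl
  refine ⟨fun k d hd => ?_, fun k k' d hd hd' => ?_, fun d hd => ⟨i, hd⟩⟩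
  · rw [key k d hd]
  · rw [key k d hd, key k' d hd']

theorem wfg_un' {θ : Cell → ℝ} {f : I → Cell} {c : Cell} (h : IsUn f c) : wfg θ f = θ c := by
  rw [wfg, Finset.sum_eq_single c]
  · rw [if_pos h]
  · intro b _ hb
    rw [if_neg fun h' => hb (un_unique h' h)]
  · intro h1
    exact (h1 (Finset.mem_univ _)).elim

theorem wfg_one' {θ : Cell → ℝ} {f : I → Cell} (h : ∀ k, k ≠ i → f k = .o) : wfg θ f = θ (f i) :=
  wfg_un' (un_one h)

theorem fac_zero (v : VX) : fac v (0 : I → Cell) = 1 := by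
  rcases v with _ | v
  · rfl
  · show wfg wt (fun _ : I => Cell.o) = 1
    rw [wfg_un' un_zero]
    rfl

theorem M_sub {s : Finset VX} (h : γ.support ⊆ s) : M γ = ∏ v ∈ s, fac v (γ v) := by
  rw [M]
  refine Finset.prod_subset h fun v _ hv => ?_
  rw [Finsupp.notMem_support_iff.1 hv]
  exact fac_zero v

/-- the weight after a change of the two cells of the region -/
theorem M_two (out : ∀ v, v ∉ Rg j r → γ v = γ' v) (hp : wfg wt (γ (some (j, r))) = 1)
    (hq : wfg wt (γ (some (j + 1, r))) = 1) :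
    M γ' = M γ * (wfg wt (γ' (some (j, r))) * wfg wt (γ' (some (j + 1, r)))) := by
  classical
  let S : Finset VX := γ.support ∪ γ'.support ∪ {some (j, r), some (j + 1, r)}
  have h1 : γ.support ⊆ S := fun v hv => Finset.mem_union_left _ (Finset.mem_union_left _ hv)
  have h2 : γ'.support ⊆ S := fun v hv => Finset.mem_union_left _ (Finset.mem_union_right _ hv)
  have hpS : (some (j, r) : VX) ∈ S := Finset.mem_union_right _ (Finset.mem_insert_self _ _)
  have hqS : (some (j + 1, r) : VX) ∈ S.erase (some (j, r)) :=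
    Finset.mem_erase.2 ⟨(pq j r).symm, Finset.mem_union_right _ (Finset.mem_insert_of_mem (Finset.mem_singleton_self _))⟩
  rw [M_sub h1, M_sub h2, ← Finset.mul_prod_erase S _ hpS, ← Finset.mul_prod_erase _ _ hqS,
    ← Finset.mul_prod_erase S _ hpS, ← Finset.mul_prod_erase _ _ hqS]
  have h3 : ∏ v ∈ (S.erase (some (j, r))).erase (some (j + 1, r)), fac v (γ' v) =
      ∏ v ∈ (S.erase (some (j, r))).erase (some (j + 1, r)), fac v (γ v) := by
    refine Finset.prod_congr rfl fun v hv => ?_
    rw [Finset.mem_erase, Finset.mem_erase] at hv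
    rcases v with _ | v
    · rfl
    · rw [out]
      rintro (h | h | h)
      · exact absurd h (by simp)
      · exact hv.2.1 h
      · exact hv.1 h
  rw [h3]
  have e1 : fac (some (j, r)) (γ (some (j, r))) = 1 := hp
  have e2 : fac (some (j + 1, r)) (γ (some (j + 1, r))) = 1 := hq
  have e3 : fac (some (j, r)) (γ' (some (j, r))) = wfg wt (γ' (some (j, r))) := rfl
  have e4 : fac (some (j + 1, r)) (γ' (some (j + 1, r))) = wfg wt (γ' (some (j + 1, r))) := rfl
  rw [e1, e2, e3, e4]
  ring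

/-! ### the cap over the top row -/

/-- a cap over the top row -/
def _root_.Pool.Agent.ROT.L.CapS (j s : ℤ) (i : I) : Set (FX I) :=
  {γ | Fam (gX j s) γ ∧ γ none i = .se ∧ ht γ i 3 = s - 1 ∧ ∀ k, k ≠ i → ¬Vb j s γ k}

/-- the minimal cup as top row -/
def _root_.Pool.Agent.ROT.L.CupS (j s : ℤ) (i : I) : Set (FX I) :=
  {γ | Fam g0 γ ∧ CupT γ i j ∧ ht γ i 3 = s ∧ ∀ k, k ≠ i → ¬Vb j s γ k}

theorem ht0 (γ : FX I) (i : I) : ht γ i 0 = hL (cl γ i) := rfl
theorem ht1 (γ : FX I) (i : I) : ht γ i 1 = hR (cl γ i) := rfl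
theorem ht2 (γ : FX I) (i : I) : ht γ i 2 = hB (cl γ i) := rfl
theorem ht3 (γ : FX I) (i : I) : ht γ i 3 = hT (cl γ i) := rfl

/-- a member which does not visit the block -/
theorem nVb {k : I} (h : ¬Vb j s γ k) : γ none k = .o ∧ γ (some (j, s - 1)) k = .o ∧ γ (some (j + 1, s - 1)) k = .o ∧
    γ (some (j, s)) k = .o ∧ γ (some (j + 1, s)) k = .o := by
  unfold Vb at h
  push Not at h
  obtain ⟨h1, h2⟩ := h
  exact ⟨h1, h2 _ (Or.inl rfl), h2 _ (Or.inr (Or.inl rfl)), h2 _ (Or.inr (Or.inr (Or.inl rfl))),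
    h2 _ (Or.inr (Or.inr (Or.inr rfl)))⟩

theorem Vb_congr {k : I} (h : ∀ v, γ v k = γ' v k) : Vb j s γ k ↔ Vb j s γ' k := by
  unfold Vb
  rw [h]
  simp only [h]

theorem cl_congr {k : I} (h : ∀ v, γ v k = γ' v k) : cl γ k = cl γ' k := by
  ext v
  rw [mem_cl, mem_cl, h]

theorem co_congr {k : I} (h : ∀ v, γ v k = γ' v k) : co γ k = co γ' k := by
  ext v
  exact h v

/-- the members other than `i` keep the heights -/
theorem ht_put {x c d : Cell} {a : Fin 4} {y : ℤ} (h : ht (put j r i x c d γ) i = Function.update (ht γ i) a y) :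
    ht (put j r i x c d γ) = upd (ht γ) i a y := by
  classical
  funext k
  unfold upd
  by_cases hk : k = i
  · subst hk
    rw [h, Function.update_self]
  · rw [Function.update_of_ne hk]
    unfold ht
    rw [cl_congr fun v => put_k x c d hk v]

theorem upd_upd {h h' : I → Fin 4 → ℤ} {a : Fin 4} {y : ℤ} (e : h' = upd h i a y) : h = upd h' i a (h i a) := by
  classical
  subst e
  unfold upd
  funext k b
  by_cases hk : k = i
  · subst hk
    rw [Function.update_self, Function.update_self, Function.update_idem]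
    by_cases hb : b = a
    · subst hb
      rw [Function.update_self]
    · rw [Function.update_of_ne hb]
  · rw [Function.update_of_ne hk, Function.update_of_ne hk]

/-- the family after the change -/
theorem fam_put {G G' : Gr VX} (ag : Agr (Rg j r) G G') (f : Fam G γ) (x c d : Cell)
    (z : ∀ k, k ≠ i → ∀ v ∈ Rg j r, γ v k = .o) (gi : ∃ v, v ∉ Rg j r ∧ γ v i ≠ .o)
    (h : Lp G' (co (put j r i x c d γ) i) ∧ SPr (Rg j r) G G' (co γ i) (co (put j r i x c d γ) i)) :
    Fam G' (put j r i x c d γ) ∧ Gd (Rg j r) γ ∧ Eq6 (Rg j r) G G' γ (put j r i x c d γ) := by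
  have hk : ∀ k, k ≠ i → Lp G' (co γ k) ∧ SPr (Rg j r) G G' (co γ k) (co γ k) := fun k hk =>
    glue0 ag (f.lp k) fun v hv => z k hk v hv
  have he : ∀ k, k ≠ i → co (put j r i x c d γ) k = co γ k := fun k hk => co_congr fun v => put_k x c d hk v
  have F : Fam G' (put j r i x c d γ) := by
    refine ⟨fun k => ?_, fun v => ?_⟩
    · by_cases e : k = i
      · subst e
        exact h.1
      · rw [he k e]
        exact (hk k e).1
    · by_cases hv : v ∈ Rg j r
      · exact ⟨_, un_one (i := i) fun k hk => by rw [put_k x c d hk, z k hk v hv]⟩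
      · rw [put_out x c d hv]
        exact f.dj v
  have gd : Gd (Rg j r) γ := by
    intro k
    by_cases e : k = i
    · subst e
      exact gi
    · by_contra hc
      push Not at hc
      apply (f.lp k).ne
      ext v
      by_cases hv : v ∈ Rg j r
      · exact z k e v hv
      · exact hc v hv
  refine ⟨F, gd, f, F, gd, fun v hv => (put_out x c d hv).symm, fun k => ?_⟩
  by_cases e : k = i
  · subst e
    exact h.2
  · rw [he k e]
    exact (hk k e).2

private theorem W0_pos : 0 < W0.u1 ∧ 0 < W0.u2 := by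
  have h1 : 0 < UNI.DR (Real.pi / 8) := UNI.DR_pos (by linarith [Real.pi_pos]) (by linarith [Real.pi_pos])
  have h2 : 0 < Real.sin (Real.pi / 4) :=
    Real.sin_pos_of_pos_of_lt_pi (by positivity) (by linarith [Real.pi_pos])
  have h3 : 0 < Real.sin (Real.pi / 8) :=
    Real.sin_pos_of_pos_of_lt_pi (by positivity) (by linarith [Real.pi_pos])
  have h4 : 0 < Real.sin (3 * Real.pi / 8 - Real.pi / 8) :=
    Real.sin_pos_of_pos_of_lt_pi (by linarith [Real.pi_pos]) (by linarith [Real.pi_pos])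
  exact ⟨div_pos (mul_pos h2 h4) h1, div_pos (mul_pos h2 h3) h1⟩

private theorem kk_mul : wt .se * wt .sw * kk = J1.u2 := by
  have h1 : W0.u1 ≠ 0 := by
    have : (0 : ℝ) < W0.u1 := W0_pos.1
    exact this.ne'
  have h2 : W0.u2 ≠ 0 := by
    have : (0 : ℝ) < W0.u2 := W0_pos.2
    exact this.ne'
  show W0.u2 * W0.u1 * (J1.u2 / (W0.u1 * W0.u2)) = J1.u2
  field_simp

/-- from the cap of the crossing to the minimal cap -/
theorem cap_put (h : γ ∈ CapS j s i) : put j s i .o .se .sw γ ∈ CupS j s i ∧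
    Jw γ = kk * M (put j s i .o .se .sw γ) ∧ ht (put j s i .o .se .sw γ) = upd (ht γ) i 3 s ∧
      Eq6 (Rg j s) (gX j s) g0 γ (put j s i .o .se .sw γ) ∧ γ (some (j, s)) i = .o ∧
      γ (some (j + 1, s)) i = .o := by
  classical
  obtain ⟨f, hx, h3, hb⟩ := h
  rw [ht3] at h3
  have z := fun k hk => nVb (hb k hk)
  have hz : ∀ p : Pt, s ≤ p.2 → γ (some p) i = .o := fun p hp => by
    by_contra hc
    have := le_hT (mem_cl.2 hc)
    omega
  have c1 := hz (j, s) le_rfl
  have c2 := hz (j + 1, s) le_rfl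
  have E := eXs j s
  have oa : oc (co γ i) (some (j, s - 1), .N) := by
    rw [(f.lp i).mt _ trivial trivial]
    simp [oc, E, co_apply, hx, Cell.oc, Cell.p]
  have ob : oc (co γ i) (some (j + 1, s - 1), .N) := by
    rw [(f.lp i).mt _ trivial trivial]
    simp [oc, E, co_apply, hx, Cell.oc, Cell.p]
  have va : γ (some (j, s - 1)) i ≠ .o := oc_co oa
  have vb : γ (some (j + 1, s - 1)) i ≠ .o := oc_co ob
  have P := put_i (γ := γ) (i := i) (j := j) (r := s) .o .se .sw
  have hz' : ∀ k, k ≠ i → ∀ v ∈ Rg j s, γ v k = .o := by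
    rintro k hk v (rfl | rfl | rfl)
    · exact (z k hk).1
    · exact (z k hk).2.2.2.1
    · exact (z k hk).2.2.2.2
  obtain ⟨F, -, q6⟩ := fam_put (agr_b j s) f .o .se .sw hz'
    ⟨some (j, s - 1), by simp [Rg], va⟩
    (cap_L (f.lp i) hx c1 c2 (fun v hv => (congrFun (put_out (i := i) .o .se .sw hv) i).symm) P.1 P.2.1 P.2.2)
  -- the cells
  have hcl : cl (put j s i .o .se .sw γ) i = insert (j, s) (insert (j + 1, s) (cl γ i)) := by
    ext v
    rw [mem_cl, Finset.mem_insert, Finset.mem_insert, mem_cl]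
    by_cases hv : (some v : VX) ∈ Rg j s
    · rcases hv with e | e | e
      · exact absurd e (by simp)
      · obtain rfl : v = (j, s) := Option.some_injective _ e
        rw [P.2.1]
        simp
      · obtain rfl : v = (j + 1, s) := Option.some_injective _ e
        rw [P.2.2]
        simp
    · rw [put_out _ _ _ hv]
      refine ⟨fun h => Or.inr (Or.inr h), ?_⟩
      rintro (e | e | e)
      · exact absurd (Or.inr (Or.inl (by rw [e]))) hv
      · exact absurd (Or.inr (Or.inr (by rw [e]; rfl))) hv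
      · exact e
  have ne1 : (cl γ i).Nonempty := ⟨_, mem_cl.2 va⟩
  have ne2 : (insert (j + 1, s) (cl γ i)).Nonempty := Finset.insert_nonempty _ _
  have b1 := hL_le (mem_cl.2 va)
  have b2 := le_hR (mem_cl.2 vb)
  have b3 := hB_le (mem_cl.2 va)
  simp only at b1 b2 b3
  have hh : ht (put j s i .o .se .sw γ) i = Function.update (ht γ i) 3 s := by
    funext a
    fin_cases a
    · show ht _ i 0 = Function.update (ht γ i) 3 s 0
      rw [Function.update_of_ne (by decide), ht0, ht0, hcl, hL_insert ne2, hL_insert ne1]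
      simp only
      omega
    · show ht _ i 1 = Function.update (ht γ i) 3 s 1
      rw [Function.update_of_ne (by decide), ht1, ht1, hcl, hR_insert ne2, hR_insert ne1]
      simp only
      omega
    · show ht _ i 2 = Function.update (ht γ i) 3 s 2
      rw [Function.update_of_ne (by decide), ht2, ht2, hcl, hB_insert ne2, hB_insert ne1]
      simp only
      omega
    · show ht _ i 3 = Function.update (ht γ i) 3 s 3
      rw [Function.update_self, ht3, hcl, hT_insert ne2, hT_insert ne1]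
      simp only
      omega
  have hH := ht_put hh
  have h3' : ht (put j s i .o .se .sw γ) i 3 = s := by
    rw [hh, Function.update_self]
  refine ⟨⟨F, ⟨?_, ?_, ?_⟩, h3', fun k hk => ?_⟩, ?_, hH, q6, c1, c2⟩
  · rw [h3', P.2.1]
  · rw [h3', P.2.2]
  · intro p hp hp2
    rw [h3'] at hp2
    by_contra hc
    push Not at hc
    apply hp
    rw [put_out, hz p hp2.ge]
    rw [some_mem_Rg]
    omega
  · rw [← Vb_congr fun v => (put_k (γ := γ) .o .se .sw hk v).symm]
    exact hb k hk
  · have w1 : wfg wt (γ (some (j, s))) = 1 := by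
      rw [wfg_one' (i := i) fun k hk => (z k hk).2.2.2.1, c1]
      rfl
    have w2 : wfg wt (γ (some (j + 1, s))) = 1 := by
      rw [wfg_one' (i := i) fun k hk => (z k hk).2.2.2.2, c2]
      rfl
    rw [M_two (fun v hv => (put_out (i := i) .o .se .sw hv).symm) w1 w2,
      wfg_one' (i := i) (f := put j s i .o .se .sw γ (some (j, s)))
        fun k hk => by rw [put_k .o .se .sw hk]; exact (z k hk).2.2.2.1,
      wfg_one' (i := i) (f := put j s i .o .se .sw γ (some (j + 1, s)))
        fun k hk => by rw [put_k .o .se .sw hk]; exact (z k hk).2.2.2.2, P.2.1, P.2.2, Jw,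
      wfg_one' (i := i) fun k hk => (z k hk).1, hx]
    have : jw .se = J1.u2 := if_neg (by decide)
    rw [this, ← kk_mul]
    ring

theorem gd_of {G : Gr VX} (f : Fam G γ) (z : ∀ k, k ≠ i → ∀ v ∈ Rg j r, γ v k = .o)
    (gi : ∃ v, v ∉ Rg j r ∧ γ v i ≠ .o) : Gd (Rg j r) γ := by
  intro k
  by_cases e : k = i
  · subst e
    exact gi
  · by_contra hc
    push Not at hc
    apply (f.lp k).ne
    ext v
    by_cases hv : v ∈ Rg j r
    · exact z k e v hv
    · exact hc v hv

/-- from the minimal cap to the cap of the crossing -/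
theorem cup_put (h : γ ∈ CupS j s i) : put j s i .se .o .o γ ∈ CapS j s i ∧ γ none i = .o ∧
    γ (some (j, s)) i = .se ∧ γ (some (j + 1, s)) i = .sw := by
  classical
  obtain ⟨f, ⟨c1, c2, c3⟩, h3, hb⟩ := h
  rw [h3] at c1 c2 c3
  rw [ht3] at h3
  have z := fun k hk => nVb (hb k hk)
  have F0 := e0s
  have oa : oc (co γ i) (some (j, s - 1), .N) := by
    rw [(f.lp i).mt _ trivial trivial]
    simp [oc, F0, co_apply, c1, Cell.oc, Cell.p]
  have va : γ (some (j, s - 1)) i ≠ .o := oc_co oa
  have hz' : ∀ k, k ≠ i → ∀ v ∈ Rg j s, γ v k = .o := by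
    rintro k hk v (rfl | rfl | rfl)
    · exact (z k hk).1
    · exact (z k hk).2.2.2.1
    · exact (z k hk).2.2.2.2
  have gi : ∃ v, v ∉ Rg j s ∧ γ v i ≠ .o := ⟨some (j, s - 1), by simp [Rg], va⟩
  have hx : γ none i = .o := none_o f (gd_of f hz' gi) i
  have P := put_i (γ := γ) (i := i) (j := j) (r := s) .se .o .o
  obtain ⟨F, -, -⟩ := fam_put (agr_b j s).symm f .se .o .o hz' gi
    (cap_X (f.lp i) hx c1 c2 (fun v hv => (congrFun (put_out (i := i) .se .o .o hv) i).symm) P.1 P.2.1 P.2.2)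
  refine ⟨⟨F, P.1, ?_, fun k hk => ?_⟩, hx, c1, c2⟩
  · rw [ht3]
    refine hT_eq ⟨(j, s - 1), ?_, rfl⟩ fun v hv => ?_
    · rw [mem_cl, put_out _ _ _ (by simp [Rg])]
      exact va
    · rw [mem_cl] at hv
      have hv1 : (some v : VX) ∉ Rg j s := by
        rintro (e | e | e)
        · exact absurd e (by simp)
        · exact hv (by rw [e]; exact P.2.1)
        · exact hv (by rw [e]; exact P.2.2)
      rw [put_out _ _ _ hv1] at hv
      have h4 := le_hT (mem_cl.2 hv)
      by_contra hc
      have h5 : v.2 = s := by omega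
      obtain ⟨a, b⟩ := v
      have h6 := c3 (a, b) hv h5
      apply hv1
      rw [some_mem_Rg]
      simp only at h5 h6
      exact ⟨h6, h5⟩
  · rw [← Vb_congr fun v => (put_k (γ := γ) .se .o .o hk v).symm]
    exact hb k hk

/-- **a cap of the crossing over the top row = a minimal cap of the loop** -/
theorem _root_.Pool.Agent.ROT.L.cap_cup (j s : ℤ) (i : I) : ∃ e : CapS j s i ≃ CupS j s i, ∀ γ : CapS j s i,
    Jw γ.1 = kk * M (e γ).1 ∧ ht (e γ).1 = upd (ht γ.1) i 3 s ∧ ht γ.1 = upd (ht (e γ).1) i 3 (s - 1) ∧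
      Eq6 (Rg j s) (gX j s) g0 γ.1 (e γ).1 := by
  refine ⟨⟨fun γ => ⟨put j s i .o .se .sw γ.1, (cap_put γ.2).1⟩, fun γ => ⟨put j s i .se .o .o γ.1, (cup_put γ.2).1⟩,
    fun γ => Subtype.ext ?_, fun γ => Subtype.ext ?_⟩, fun γ => ?_⟩
  · have h := cap_put γ.2
    exact put_put .o .se .sw γ.2.2.1 h.2.2.2.2.1 h.2.2.2.2.2
  · have h := cup_put γ.2
    exact put_put .se .o .o h.2.1 h.2.2.1 h.2.2.2
  · have h := cap_put γ.2
    refine ⟨h.2.1, h.2.2.1, ?_, h.2.2.2.1⟩
    have := upd_upd h.2.2.1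
    rw [γ.2.2.2.1] at this
    exact this

/-! ### the cup under the bottom row -/

/-- a cup under the bottom row -/
def _root_.Pool.Agent.ROT.L.CapB (j s : ℤ) (i : I) : Set (FX I) :=
  {γ | Fam (gX j s) γ ∧ γ none i = .nw ∧ ht γ i 2 = s ∧ ∀ k, k ≠ i → ¬Vb j s γ k}

/-- the minimal cup as bottom row -/
def _root_.Pool.Agent.ROT.L.CupB' (j s : ℤ) (i : I) : Set (FX I) :=
  {γ | Fam g0 γ ∧ CupB γ i j ∧ ht γ i 2 = s - 1 ∧ ∀ k, k ≠ i → ¬Vb j s γ k}

private theorem kk_mul' : wt .ne * wt .nw * kk = J1.u2 := by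
  rw [← kk_mul]
  show W0.u1 * W0.u2 * kk = W0.u2 * W0.u1 * kk
  ring

/-- from the cup of the crossing to the minimal cup -/
theorem cap_putB (h : γ ∈ CapB j s i) : put j (s - 1) i .o .ne .nw γ ∈ CupB' j s i ∧
    Jw γ = kk * M (put j (s - 1) i .o .ne .nw γ) ∧ ht (put j (s - 1) i .o .ne .nw γ) = upd (ht γ) i 2 (s - 1) ∧
      Eq6 (Rg j (s - 1)) (gX j s) g0 γ (put j (s - 1) i .o .ne .nw γ) ∧ γ (some (j, s - 1)) i = .o ∧
      γ (some (j + 1, s - 1)) i = .o := by
  classical
  obtain ⟨f, hx, h3, hb⟩ := h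
  rw [ht2] at h3
  have ss : ¬ s = s - 1 := by omega
  have z := fun k hk => nVb (hb k hk)
  have hz : ∀ p : Pt, p.2 ≤ s - 1 → γ (some p) i = .o := fun p hp => by
    by_contra hc
    have := hB_le (mem_cl.2 hc)
    omega
  have c1 := hz (j, s - 1) le_rfl
  have c2 := hz (j + 1, s - 1) le_rfl
  have E := eXs j s
  have oa : oc (co γ i) (some (j, s), .S) := by
    rw [(f.lp i).mt _ trivial trivial]
    simp [oc, E, co_apply, hx, Cell.oc, Cell.p]
  have ob : oc (co γ i) (some (j + 1, s), .S) := by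
    rw [(f.lp i).mt _ trivial trivial]
    simp [oc, E, co_apply, hx, Cell.oc, Cell.p]
  have va : γ (some (j, s)) i ≠ .o := oc_co oa
  have vb : γ (some (j + 1, s)) i ≠ .o := oc_co ob
  have P := put_i (γ := γ) (i := i) (j := j) (r := s - 1) .o .ne .nw
  have hz' : ∀ k, k ≠ i → ∀ v ∈ Rg j (s - 1), γ v k = .o := by
    rintro k hk v (rfl | rfl | rfl)
    · exact (z k hk).1
    · exact (z k hk).2.1
    · exact (z k hk).2.2.1
  obtain ⟨F, -, q6⟩ := fam_put (agr_a j s) f .o .ne .nw hz'
    ⟨some (j, s), by simp [Rg, ss], va⟩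
    (cup_L (f.lp i) hx c1 c2 (fun v hv => (congrFun (put_out (i := i) .o .ne .nw hv) i).symm) P.1 P.2.1 P.2.2)
  -- the cells
  have hcl : cl (put j (s - 1) i .o .ne .nw γ) i = insert (j, s - 1) (insert (j + 1, s - 1) (cl γ i)) := by
    ext v
    rw [mem_cl, Finset.mem_insert, Finset.mem_insert, mem_cl]
    by_cases hv : (some v : VX) ∈ Rg j (s - 1)
    · rcases hv with e | e | e
      · exact absurd e (by simp)
      · obtain rfl : v = (j, s - 1) := Option.some_injective _ e
        rw [P.2.1]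
        simp
      · obtain rfl : v = (j + 1, s - 1) := Option.some_injective _ e
        rw [P.2.2]
        simp
    · rw [put_out _ _ _ hv]
      refine ⟨fun h => Or.inr (Or.inr h), ?_⟩
      rintro (e | e | e)
      · exact absurd (Or.inr (Or.inl (by rw [e]))) hv
      · exact absurd (Or.inr (Or.inr (by rw [e]; rfl))) hv
      · exact e
  have ne1 : (cl γ i).Nonempty := ⟨_, mem_cl.2 va⟩
  have ne2 : (insert (j + 1, s - 1) (cl γ i)).Nonempty := Finset.insert_nonempty _ _
  have b1 := hL_le (mem_cl.2 va)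
  have b2 := le_hR (mem_cl.2 vb)
  have b3 := le_hT (mem_cl.2 va)
  simp only at b1 b2 b3
  have hh : ht (put j (s - 1) i .o .ne .nw γ) i = Function.update (ht γ i) 2 (s - 1) := by
    funext a
    fin_cases a
    · show ht _ i 0 = Function.update (ht γ i) 2 (s - 1) 0
      rw [Function.update_of_ne (by decide), ht0, ht0, hcl, hL_insert ne2, hL_insert ne1]
      simp only
      omega
    · show ht _ i 1 = Function.update (ht γ i) 2 (s - 1) 1
      rw [Function.update_of_ne (by decide), ht1, ht1, hcl, hR_insert ne2, hR_insert ne1]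
      simp only
      omega
    · show ht _ i 2 = Function.update (ht γ i) 2 (s - 1) 2
      rw [Function.update_self, ht2, hcl, hB_insert ne2, hB_insert ne1]
      simp only
      omega
    · show ht _ i 3 = Function.update (ht γ i) 2 (s - 1) 3
      rw [Function.update_of_ne (by decide), ht3, ht3, hcl, hT_insert ne2, hT_insert ne1]
      simp only
      omega
  have hH := ht_put hh
  have h3' : ht (put j (s - 1) i .o .ne .nw γ) i 2 = s - 1 := by
    rw [hh, Function.update_self]
  refine ⟨⟨F, ⟨?_, ?_, ?_⟩, h3', fun k hk => ?_⟩, ?_, hH, q6, c1, c2⟩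
  · rw [h3', P.2.1]
  · rw [h3', P.2.2]
  · intro p hp hp2
    rw [h3'] at hp2
    by_contra hc
    push Not at hc
    apply hp
    rw [put_out, hz p hp2.le]
    rw [some_mem_Rg]
    omega
  · rw [← Vb_congr fun v => (put_k (γ := γ) .o .ne .nw hk v).symm]
    exact hb k hk
  · have w1 : wfg wt (γ (some (j, s - 1))) = 1 := by
      rw [wfg_one' (i := i) fun k hk => (z k hk).2.1, c1]
      rfl
    have w2 : wfg wt (γ (some (j + 1, s - 1))) = 1 := by
      rw [wfg_one' (i := i) fun k hk => (z k hk).2.2.1, c2]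
      rfl
    rw [M_two (fun v hv => (put_out (i := i) .o .ne .nw hv).symm) w1 w2,
      wfg_one' (i := i) (f := put j (s - 1) i .o .ne .nw γ (some (j, s - 1)))
        fun k hk => by rw [put_k .o .ne .nw hk]; exact (z k hk).2.1,
      wfg_one' (i := i) (f := put j (s - 1) i .o .ne .nw γ (some (j + 1, s - 1)))
        fun k hk => by rw [put_k .o .ne .nw hk]; exact (z k hk).2.2.1, P.2.1, P.2.2, Jw,
      wfg_one' (i := i) fun k hk => (z k hk).1, hx]
    have : jw .nw = J1.u2 := if_neg (by decide)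
    rw [this, ← kk_mul']
    ring

/-- from the minimal cup to the cup of the crossing -/
theorem cup_putB (h : γ ∈ CupB' j s i) : put j (s - 1) i .nw .o .o γ ∈ CapB j s i ∧ γ none i = .o ∧
    γ (some (j, s - 1)) i = .ne ∧ γ (some (j + 1, s - 1)) i = .nw := by
  classical
  obtain ⟨f, ⟨c1, c2, c3⟩, h3, hb⟩ := h
  rw [h3] at c1 c2 c3
  rw [ht2] at h3
  have ss : ¬ s = s - 1 := by omega
  have z := fun k hk => nVb (hb k hk)
  have F0 := e0s
  have oa : oc (co γ i) (some (j, s), .S) := by
    rw [(f.lp i).mt _ trivial trivial]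
    simp [oc, F0, co_apply, c1, Cell.oc, Cell.p]
  have va : γ (some (j, s)) i ≠ .o := oc_co oa
  have hz' : ∀ k, k ≠ i → ∀ v ∈ Rg j (s - 1), γ v k = .o := by
    rintro k hk v (rfl | rfl | rfl)
    · exact (z k hk).1
    · exact (z k hk).2.1
    · exact (z k hk).2.2.1
  have gi : ∃ v, v ∉ Rg j (s - 1) ∧ γ v i ≠ .o := ⟨some (j, s), by simp [Rg, ss], va⟩
  have hx : γ none i = .o := none_o f (gd_of f hz' gi) i
  have P := put_i (γ := γ) (i := i) (j := j) (r := s - 1) .nw .o .o
  obtain ⟨F, -, -⟩ := fam_put (agr_a j s).symm f .nw .o .o hz' gi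
    (cup_X (f.lp i) hx c1 c2 (fun v hv => (congrFun (put_out (i := i) .nw .o .o hv) i).symm) P.1 P.2.1 P.2.2)
  refine ⟨⟨F, P.1, ?_, fun k hk => ?_⟩, hx, c1, c2⟩
  · rw [ht2]
    refine hB_eq ⟨(j, s), ?_, rfl⟩ fun v hv => ?_
    · rw [mem_cl, put_out _ _ _ (by simp [Rg, ss])]
      exact va
    · rw [mem_cl] at hv
      have hv1 : (some v : VX) ∉ Rg j (s - 1) := by
        rintro (e | e | e)
        · exact absurd e (by simp)
        · exact hv (by rw [e]; exact P.2.1)
        · exact hv (by rw [e]; exact P.2.2)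
      rw [put_out _ _ _ hv1] at hv
      have h4 := hB_le (mem_cl.2 hv)
      by_contra hc
      have h5 : v.2 = s - 1 := by omega
      obtain ⟨a, b⟩ := v
      have h6 := c3 (a, b) hv h5
      apply hv1
      rw [some_mem_Rg]
      simp only at h5 h6
      exact ⟨h6, h5⟩
  · rw [← Vb_congr fun v => (put_k (γ := γ) .nw .o .o hk v).symm]
    exact hb k hk

/-- **a cup of the crossing under the bottom row = a minimal cup of the loop** -/
theorem _root_.Pool.Agent.ROT.L.cap_cupB (j s : ℤ) (i : I) : ∃ e : CapB j s i ≃ CupB' j s i, ∀ γ : CapB j s i,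
    Jw γ.1 = kk * M (e γ).1 ∧ ht (e γ).1 = upd (ht γ.1) i 2 (s - 1) ∧ ht γ.1 = upd (ht (e γ).1) i 2 s ∧
      Eq6 (Rg j (s - 1)) (gX j s) g0 γ.1 (e γ).1 := by
  refine ⟨⟨fun γ => ⟨put j (s - 1) i .o .ne .nw γ.1, (cap_putB γ.2).1⟩,
    fun γ => ⟨put j (s - 1) i .nw .o .o γ.1, (cup_putB γ.2).1⟩,
    fun γ => Subtype.ext ?_, fun γ => Subtype.ext ?_⟩, fun γ => ?_⟩
  · have h := cap_putB γ.2
    exact put_put .o .ne .nw γ.2.2.1 h.2.2.2.2.1 h.2.2.2.2.2
  · have h := cup_putB γ.2
    exact put_put .nw .o .o h.2.1 h.2.2.1 h.2.2.2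
  · have h := cap_putB γ.2
    refine ⟨h.2.1, h.2.2.1, ?_, h.2.2.2.1⟩
    have := upd_upd h.2.2.1
    rw [γ.2.2.2.1] at this
    exact this

end Pool.Agent.ROT.L.Cap
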