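import Pool.Agent.ROT.LDefs

/-!
# ROT, block L, row L4d (helper61): the cells of the extreme columns

`dM_left`, `dM_right`: the local derivative at an extreme cell of a member which is alone in the region;
`QL_bd`, `QR_bd`: bounds of the responses.
-/

set_option autoImplicit false

open Finset

namespace Pool.Agent.ROT.L

open Pool.Agent.EXL (Wt)
open Pool.Agent.YBC (Dir)
open Pool.Agent.ROT.E (Cell IsUn Pt W0 W1 J1)

noncomputable section

variable {I : Type} {j r : ℤ} {γ : FX I}

/-! ### the weights -/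

/-- only one member at the vertex -/
private theorem wfg_one0 {θ : Cell → ℝ} {f : I → Cell} {i : I} (h : ∀ k, k ≠ i → f k = .o) : wfg θ f = θ (f i) := by
  classical
  have hu : IsUn f (f i) := by
    have ho : ∀ k d, (f k).oc d → k = i := by
      intro k d hk
      by_contra hne
      rw [h k hne] at hk
      exact hk rfl
    exact ⟨fun k d hk => by rw [ho k d hk], fun k k' d hk hk' => (ho k d hk).trans (ho k' d hk').symm,
      fun d hd => ⟨i, hd⟩⟩
  unfold wfg
  rw [Finset.sum_eq_single (f i)]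
  · rw [if_pos hu]
  · intro c _ hc
    rw [if_neg]
    intro hu'
    exact hc (E.Lab.un_unique hu' hu)
  · intro h'
    exact absurd (Finset.mem_univ _) h'

private theorem dwt_eq {c : Cell} (h : c ≠ .y) : dwt c = tau c * wt c := by
  unfold dwt
  split_ifs with h0
  · rw [h0]
    simp [tau]
  · exact wt_W1 h0 h

/-- the derivative at a cell which is used by one member only -/
theorem dM_alone {p : Pt} {i : I} (h : ∀ k, k ≠ i → γ (some p) k = .o) (hy : γ (some p) i ≠ .y) :
    dM p γ = tau (γ (some p) i) * M γ := by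
  classical
  unfold dM M
  rw [wfg_one0 h, dwt_eq hy]
  by_cases hs : (some p : VX) ∈ γ.support
  · rw [← Finset.mul_prod_erase _ _ hs]
    have : fac (some p) (γ (some p)) = wt (γ (some p) i) := wfg_one0 h
    rw [this]
    ring
  · rw [Finsupp.notMem_support_iff] at hs
    have h0 : γ (some p) i = .o := by rw [hs]; rfl
    rw [h0]
    simp [tau]

/-! ### the cells of the extreme columns -/

/-- in the leftmost column the side to the left is free -/
theorem left_free (hf : Fam g0 γ) {i : I} {y : ℤ} : ¬ (γ (some (ht γ i 0, y)) i).oc .W := by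
  intro h
  have h1 : oc (co γ i) (some (ht γ i 0, y), .W) := h
  rw [(hf.lp i).mt _ trivial trivial] at h1
  have h2 : oc (co γ i) (some (ht γ i 0 - 1, y), .E) := h1
  have h3 := hL_le (mem_cl.2 (oc_co h2))
  have h4 : hL (cl γ i) ≤ hL (cl γ i) - 1 := h3
  omega

/-- in the rightmost column the side to the right is free -/
theorem right_free (hf : Fam g0 γ) {i : I} {y : ℤ} : ¬ (γ (some (ht γ i 1, y)) i).oc .E := by
  intro h
  have h1 : oc (co γ i) (some (ht γ i 1, y), .E) := h
  rw [(hf.lp i).mt _ trivial trivial] at h1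
  have h2 : oc (co γ i) (some (ht γ i 1 + 1, y), .W) := h1
  have h3 := le_hR (mem_cl.2 (oc_co h2))
  have h4 : hR (cl γ i) + 1 ≤ hR (cl γ i) := h3
  omega

private theorem cell_y {c : Cell} (h : ¬ c.oc .W ∨ ¬ c.oc .E) : c ≠ .y := by
  rintro rfl
  rcases h with h | h <;> exact h (by decide)

private theorem sq2 : (1 : ℝ) ≤ √2 ∧ √2 ≤ 2 := by
  constructor
  · rw [Real.le_sqrt' (by norm_num)]
    norm_num
  · rw [Real.sqrt_le_left (by norm_num)]
    norm_num

/-- the cells with a free side to the left or to the right -/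
theorem tau_le {c : Cell} (h : ¬ c.oc .W ∨ ¬ c.oc .E) : |tau c| ≤ 2 := by
  have h2 := sq2.2
  have h0 : 0 ≤ √2 := Real.sqrt_nonneg 2
  have hx : c ≠ .x := by
    rintro rfl
    rcases h with h | h <;> exact h (by decide)
  cases c <;> simp only [tau, abs_neg] <;> first | (exact absurd rfl hx) | (rw [abs_of_nonneg h0]; exact h2) | norm_num

/-- **row L4d, left** -/
theorem dM_left {j r : ℤ} {γ : FX I} (h : Fam g0 γ) {i : I} (h0 : ht γ i 0 = j + 1) (_v : γ (some (j + 1, r)) i ≠ .o)
    (o : ∀ k, k ≠ i → ∀ v ∈ Rg j r, γ v k = .o) :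
    dM (j, r) γ - dM (j + 1, r) γ = -(tau (γ (some (j + 1, r)) i) * M γ) := by
  have v1 : ∀ k, k ≠ i → γ (some (j, r)) k = .o := fun k hk => o k hk _ (Or.inr (Or.inl rfl))
  have v2 : ∀ k, k ≠ i → γ (some (j + 1, r)) k = .o := fun k hk => o k hk _ (Or.inr (Or.inr rfl))
  have w1 : γ (some (j, r)) i = .o := by
    by_contra hne
    have h3 : hL (cl γ i) ≤ j := hL_le (mem_cl.2 hne)
    have h4 : hL (cl γ i) = j + 1 := h0
    omega
  have hy : γ (some (j + 1, r)) i ≠ .y := by
    have := left_free h (i := i) (y := r)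
    rw [h0] at this
    exact cell_y (Or.inl this)
  rw [dM_alone v1 (by rw [w1]; decide), dM_alone v2 hy, w1]
  simp [tau]

/-- **row L4d, right** -/
theorem dM_right {j r : ℤ} {γ : FX I} (h : Fam g0 γ) {i : I} (h0 : ht γ i 1 = j) (_v : γ (some (j, r)) i ≠ .o)
    (o : ∀ k, k ≠ i → ∀ v ∈ Rg j r, γ v k = .o) :
    dM (j, r) γ - dM (j + 1, r) γ = tau (γ (some (j, r)) i) * M γ := by
  have v1 : ∀ k, k ≠ i → γ (some (j, r)) k = .o := fun k hk => o k hk _ (Or.inr (Or.inl rfl))
  have v2 : ∀ k, k ≠ i → γ (some (j + 1, r)) k = .o := fun k hk => o k hk _ (Or.inr (Or.inr rfl))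
  have w2 : γ (some (j + 1, r)) i = .o := by
    by_contra hne
    have h3 : j + 1 ≤ hR (cl γ i) := le_hR (mem_cl.2 hne)
    have h4 : hR (cl γ i) = j := h0
    omega
  have hy : γ (some (j, r)) i ≠ .y := by
    have := right_free h (i := i) (y := r)
    rw [h0] at this
    exact cell_y (Or.inr this)
  rw [dM_alone v1 hy, dM_alone v2 (by rw [w2]; decide), w2]
  simp [tau]

/-! ### the profile of an extreme column -/

/-- the number of vertical edges -/
private def nv (f : ℤ → Cell) : ℝ := ∑ᶠ r : ℤ, if (f r).oc .N then 1 else 0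

private theorem supp_d {f : ℤ → Cell} (hf : {r | f r ≠ .o}.Finite) (d : Dir) :
    (Function.support fun r : ℤ => (if (f r).oc d then (1 : ℝ) else 0)).Finite := by
  refine hf.subset fun r hr => ?_
  rw [Function.mem_support] at hr
  intro h0
  apply hr
  rw [h0, if_neg (by simp [Cell.oc, Cell.p])]

private theorem supp_mul {g : ℤ → ℝ} (hg : (Function.support g).Finite) (a : ℝ) :
    (Function.support fun r : ℤ => a * g r).Finite :=
  hg.subset fun r hr => by
    rw [Function.mem_support] at hr ⊢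
    exact right_ne_zero_of_mul hr

private theorem eqNS {f : ℤ → Cell} (hm : ∀ r, (f r).oc .N ↔ (f (r + 1)).oc .S) :
    (∑ᶠ r : ℤ, if (f r).oc .S then (1 : ℝ) else 0) = nv f := by
  unfold nv
  rw [← finsum_comp_equiv (Equiv.addRight (1 : ℤ))]
  refine finsum_congr fun r => ?_
  simp only [Equiv.coe_addRight]
  by_cases h : (f r).oc .N
  · rw [if_pos h, if_pos ((hm r).1 h)]
  · rw [if_neg h, if_neg (fun k => h ((hm r).2 k))]

private theorem sum_col {f : ℤ → Cell} (hf : {r | f r ≠ .o}.Finite) (hm : ∀ r, (f r).oc .N ↔ (f (r + 1)).oc .S)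
    {a b : ℝ} (hab : a + b = 2 - √2)
    (ht : ∀ r, tau (f r) = a * (if (f r).oc .N then 1 else 0) + b * (if (f r).oc .S then 1 else 0) +
      (√2 - 1) * (if f r = .v then 1 else 0)) :
    ∑ᶠ r : ℤ, tau (f r) = (2 - √2) * nv f + (√2 - 1) * ∑ᶠ r : ℤ, (if f r = .v then (1 : ℝ) else 0) := by
  have sv : (Function.support fun r : ℤ => (if f r = .v then (1 : ℝ) else 0)).Finite := by
    refine hf.subset fun r hr => ?_
    rw [Function.mem_support] at hr
    intro h0
    apply hr
    rw [h0, if_neg (by decide)]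
  have s1 := supp_mul (supp_d hf .N) a
  have s2 := supp_mul (supp_d hf .S) b
  have s3 := supp_mul sv (√2 - 1)
  have s12 : (Function.support fun r : ℤ => a * (if (f r).oc .N then (1 : ℝ) else 0) +
      b * (if (f r).oc .S then (1 : ℝ) else 0)).Finite :=
    (s1.union s2).subset (Function.support_add _ _)
  calc ∑ᶠ r : ℤ, tau (f r) = ∑ᶠ r : ℤ, (a * (if (f r).oc .N then 1 else 0) + b * (if (f r).oc .S then 1 else 0) +
      (√2 - 1) * (if f r = .v then 1 else 0)) := finsum_congr ht
    _ = _ := by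
      rw [finsum_add_distrib s12 s3, finsum_add_distrib s1 s2, ← mul_finsum, ← mul_finsum, ← mul_finsum, eqNS hm, ← hab]
      unfold nv
      ring

private theorem nv_ge {f : ℤ → Cell} (hf : {r | f r ≠ .o}.Finite) {r : ℤ} (hr : (f r).oc .N) : 1 ≤ nv f := by
  unfold nv
  have h := single_le_finsum r (supp_d hf .N) (fun k => by
    split_ifs
    · exact zero_le_one
    · exact le_rfl)
  rwa [if_pos hr] at h

/-- the bounds for an extreme column -/
private theorem col_bd {f : ℤ → Cell} (hf : {r | f r ≠ .o}.Finite) (hm : ∀ r, (f r).oc .N ↔ (f (r + 1)).oc .S)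
    (hs : (∀ r, ¬ (f r).oc .W) ∨ ∀ r, ¬ (f r).oc .E) {r0 : ℤ} (h0 : f r0 ≠ .o) :
    2 - √2 ≤ ∑' r : ℤ, tau (f r) ∧ ∑' r : ℤ, tau (f r) ≤ 2 * (Set.ncard {r : ℤ | f r ≠ .o} : ℝ) := by
  have hsup : (Function.support fun r : ℤ => tau (f r)).Finite := by
    refine hf.subset fun r hr => ?_
    rw [Function.mem_support] at hr
    intro h0
    apply hr
    rw [h0]
    rfl
  rw [tsum_eq_finsum hsup]
  have hq := sq2
  have hN : ∃ r, (f r).oc .N := by
    have hc : ∀ c : Cell, c ≠ .o → (¬ c.oc .W ∨ ¬ c.oc .E) → c.oc .N ∨ c.oc .S := by decide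
    rcases hc (f r0) h0 (hs.imp (fun h => h r0) fun h => h r0) with h | h
    · exact ⟨r0, h⟩
    · exact ⟨r0 - 1, (hm _).2 (by rw [sub_add_cancel]; exact h)⟩
  constructor
  · obtain ⟨r1, hr1⟩ := hN
    have h1 := nv_ge hf hr1
    have h2 : 0 ≤ ∑ᶠ r : ℤ, (if f r = .v then (1 : ℝ) else 0) := finsum_nonneg fun r => by
      split_ifs
      · exact zero_le_one
      · exact le_rfl
    have key : ∑ᶠ r : ℤ, tau (f r) = (2 - √2) * nv f + (√2 - 1) * ∑ᶠ r : ℤ, (if f r = .v then (1 : ℝ) else 0) := by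
      rcases hs with hs | hs
      · refine sum_col hf hm (a := -√2) (b := 2) (by ring) fun r => ?_
        have h3 := hs r
        revert h3
        cases f r <;> intro h3 <;> first | exact absurd (by decide) h3 | (simp [tau, Cell.oc, Cell.p]; try ring)
      · refine sum_col hf hm (a := 2) (b := -√2) (by ring) fun r => ?_
        have h3 := hs r
        revert h3
        cases f r <;> intro h3 <;> first | exact absurd (by decide) h3 | (simp [tau, Cell.oc, Cell.p]; try ring)
    rw [key]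
    have h3 : (2 - √2) * 1 ≤ (2 - √2) * nv f := mul_le_mul_of_nonneg_left h1 (by linarith)
    have h4 : 0 ≤ (√2 - 1) * ∑ᶠ r : ℤ, (if f r = .v then (1 : ℝ) else 0) := mul_nonneg (by linarith) h2
    linarith
  · rw [finsum_eq_sum_of_support_subset (s := hf.toFinset) _ (by
      intro r hr
      rw [Set.Finite.coe_toFinset]
      rw [Function.mem_support] at hr
      intro h0
      apply hr
      rw [h0]
      rfl), Set.ncard_eq_toFinset_card _ hf]
    refine (Finset.sum_le_card_nsmul _ _ 2 fun r _ => ?_).trans (le_of_eq ?_)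
    · exact (le_abs_self _).trans (tau_le (hs.imp (fun h => h r) fun h => h r))
    · rw [nsmul_eq_mul]
      ring

private theorem fin_col (γ : FX I) (c : ℤ) (i : I) : {r : ℤ | γ (some (c, r)) i ≠ .o}.Finite := by
  classical
  refine ((cl γ i).finite_toSet.image Prod.snd).subset fun r hr => ⟨(c, r), mem_cl.2 hr, rfl⟩

private theorem ns_col (hf : Fam g0 γ) (c : ℤ) (i : I) (r : ℤ) :
    (γ (some (c, r)) i).oc .N ↔ (γ (some (c, r + 1)) i).oc .S := (hf.lp i).mt (some (c, r), .N) trivial trivial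

private theorem cl_ne0 (wd : Wd (ht γ)) (i : I) : (cl γ i).Nonempty := by
  obtain ⟨h1, -⟩ := wd i
  have h1' : hL (cl γ i) + 3 ≤ hR (cl γ i) := h1
  rw [Finset.nonempty_iff_ne_empty]
  intro e
  rw [e] at h1'
  simp [hL, hR] at h1'

/-- **bounds of the left response** -/
theorem QL_bd {γ : FX I} (h : Fam g0 γ) (wd : Wd (ht γ)) (i : I) :
    2 - √2 ≤ QL γ i ∧ QL γ i ≤ 2 * (Set.ncard {r : ℤ | γ (some (ht γ i 0, r)) i ≠ .o} : ℝ) := by
  obtain ⟨v, hv, e⟩ := hL_mem (cl_ne0 wd i)
  have hv' : γ (some (ht γ i 0, v.2)) i ≠ .o := by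
    have : v = (ht γ i 0, v.2) := Prod.ext e rfl
    rw [← this]
    exact mem_cl.1 hv
  exact col_bd (f := fun r => γ (some (ht γ i 0, r)) i) (fin_col γ _ i) (ns_col h _ i)
    (Or.inl fun _ => left_free h) hv'

/-- **bounds of the right response** -/
theorem QR_bd {γ : FX I} (h : Fam g0 γ) (wd : Wd (ht γ)) (i : I) :
    2 - √2 ≤ QR γ i ∧ QR γ i ≤ 2 * (Set.ncard {r : ℤ | γ (some (ht γ i 1, r)) i ≠ .o} : ℝ) := by
  obtain ⟨v, hv, e⟩ := hR_mem (cl_ne0 wd i)
  have hv' : γ (some (ht γ i 1, v.2)) i ≠ .o := by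
    have : v = (ht γ i 1, v.2) := Prod.ext e rfl
    rw [← this]
    exact mem_cl.1 hv
  exact col_bd (f := fun r => γ (some (ht γ i 1, r)) i) (fin_col γ _ i) (ns_col h _ i)
    (Or.inr fun _ => right_free h) hv'

end

end Pool.Agent.ROT.L
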