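import Pool.Agent.ROT.LDefs

/-!
# ROT, block L, row L4a: the extended heights on the families of the square lattice

`he j r` is constant on the classes of the row `r` (`he_eq`, `G_cst`), it is within one of `ht` (`he_nr0`), and outside of
the bad event it differs from `ht` only if one member has its left column `j + 1` and is in the cell `(j + 1, r)`, or has
its right column `j` and is in the cell `(j, r)` (`he_F0`, `he_left`, `he_right`).
-/

set_option autoImplicit false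

namespace Pool.Agent.ROT.L

open Pool.Agent.YBC (Dir)
open Pool.Agent.ROT.E (Cell IsUn Pt W0 W1 J1)

variable {I : Type}

theorem port_Gs {j r : ℤ} {g : Gr VX} (h : g ∈ Gs j r) : Port g (Rg j r) = pt6 j r := by
  rcases h with rfl | rfl | rfl
  · exact port_g0 j r
  · exact port_gX j r
  · exact port_gX' j r

/-- **constant on the classes** -/
theorem he_eq {j r : ℤ} {g g' : Gr VX} (hg : g ∈ Gs j r) (hg' : g' ∈ Gs j r) {γ γ' : FX I}
    (h : Eq6 (Rg j r) g g' γ γ') : he j r γ = he j r γ' := by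
  funext i
  have e := ex_eq (port_Gs hg) (port_Gs hg') h i
  simp only [he, e]

theorem he_cst (j r : ℤ) : ∀ i, Cst j r (fun γ : FX I => ((he j r γ i 0 : ℤ) : ℝ)) :=
  fun i g hg g' hg' γ γ' h => by
    show ((he j r γ i 0 : ℤ) : ℝ) = ((he j r γ' i 0 : ℤ) : ℝ)
    rw [he_eq hg hg' h]

theorem G_cst (t : Tst I) (j r : ℤ) : Cst j r (t.G j r) := fun g hg g' hg' γ γ' h => by
  show t.f (he j r γ) * t.χ j γ = t.f (he j r γ') * t.χ j γ'
  rw [he_eq hg hg' h, t.cst j r g hg g' hg' γ γ' h]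

theorem he0 (j r : ℤ) (γ : FX I) (i : I) : he j r γ i 0 = hL (ex j r γ i) := rfl
theorem he1 (j r : ℤ) (γ : FX I) (i : I) : he j r γ i 1 = hR (ex j r γ i) := rfl
theorem he2 (j r : ℤ) (γ : FX I) (i : I) : he j r γ i 2 = hB (ex j r γ i) := rfl
theorem he3 (j r : ℤ) (γ : FX I) (i : I) : he j r γ i 3 = hT (ex j r γ i) := rfl
theorem ht0 (γ : FX I) (i : I) : ht γ i 0 = hL (cl γ i) := rfl
theorem ht1 (γ : FX I) (i : I) : ht γ i 1 = hR (cl γ i) := rfl
theorem ht2 (γ : FX I) (i : I) : ht γ i 2 = hB (cl γ i) := rfl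
theorem ht3 (γ : FX I) (i : I) : ht γ i 3 = hT (cl γ i) := rfl

/-- the left column is at most the right one -/
theorem ht_le {γ : FX I} {i : I} {p : Pt} (hp : γ (some p) i ≠ .o) : ht γ i 0 ≤ p.1 ∧ p.1 ≤ ht γ i 1 ∧
    ht γ i 2 ≤ p.2 ∧ p.2 ≤ ht γ i 3 := by
  have := mem_cl.2 hp
  exact ⟨hL_le this, le_hR this, hB_le this, le_hT this⟩

section

variable {j r : ℤ} {γ : FX I} (h : Fam g0 γ) (hg : Gd (Rg j r) γ)
include h hg

theorem he_nr0 : Nr (he j r γ) (ht γ) := by
  intro i a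
  have h0 : |he j r γ i 0 - ht γ i 0| ≤ 1 := by
    rw [he0, ht0, hL_ex h hg i]
    split_ifs with hc
    · rw [hc.1]
      norm_num
    · simp
  have h1 : |he j r γ i 1 - ht γ i 1| ≤ 1 := by
    rw [he1, ht1, hR_ex h hg i]
    split_ifs with hc
    · rw [hc.1]
      norm_num
    · simp
  have h2 : |he j r γ i 2 - ht γ i 2| ≤ 1 := by
    rw [he2, ht2, hB_ex h hg i]
    simp
  have h3 : |he j r γ i 3 - ht γ i 3| ≤ 1 := by
    rw [he3, ht3, hT_ex h hg i]
    simp
  fin_cases a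
  · exact h0
  · exact h1
  · exact h2
  · exact h3

/-- a member outside of the two cells -/
theorem he_off {k : I} (hk : ¬ Vb j r γ k) : he j r γ k = ht γ k := by
  have e : ex j r γ k = cl γ k := by
    refine ex_of_not fun hu => hk (Or.inr ?_)
    rcases (us_g0 h hg k).1 hu with h1 | h1
    · exact ⟨(j, r), Or.inr (Or.inr (Or.inl rfl)), mem_cl.1 h1⟩
    · exact ⟨(j + 1, r), Or.inr (Or.inr (Or.inr rfl)), mem_cl.1 h1⟩
  simp only [he, ht, e]

private theorem he_left' {i : I} (h0 : ht γ i 0 = j + 1) (v : γ (some (j + 1, r)) i ≠ .o) :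
    he j r γ i = Function.update (ht γ i) 0 j := by
  have hm := mem_cl.2 v
  funext a
  by_cases ha : a = 0
  · subst ha
    rw [Function.update_self, he0, hL_ex h hg i, if_pos ⟨h0, hm⟩]
  · rw [Function.update_of_ne ha]
    have hR : hR (cl γ i) ≠ j := by
      have h1 := le_hR hm
      simp only at h1
      omega
    fin_cases a
    · exact absurd rfl ha
    · show he j r γ i 1 = ht γ i 1
      rw [he1, ht1, hR_ex h hg i, if_neg fun hc => hR hc.1]
    · exact hB_ex h hg i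
    · exact hT_ex h hg i

private theorem he_right' {i : I} (h0 : ht γ i 1 = j) (v : γ (some (j, r)) i ≠ .o) :
    he j r γ i = Function.update (ht γ i) 1 (j + 1) := by
  have hm := mem_cl.2 v
  funext a
  by_cases ha : a = 1
  · subst ha
    rw [Function.update_self, he1, hR_ex h hg i, if_pos ⟨h0, hm⟩]
  · rw [Function.update_of_ne ha]
    have hL : hL (cl γ i) ≠ j + 1 := by
      have h1 := hL_le hm
      simp only at h1
      omega
    fin_cases a
    · show he j r γ i 0 = ht γ i 0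
      rw [he0, ht0, hL_ex h hg i, if_neg fun hc => hL hc.1]
    · exact absurd rfl ha
    · exact hB_ex h hg i
    · exact hT_ex h hg i

/-- **the left column** -/
theorem he_left {i : I} (o : ∀ k, k ≠ i → ¬Vb j r γ k) (h0 : ht γ i 0 = j + 1) (v : γ (some (j + 1, r)) i ≠ .o) :
    he j r γ = upd (ht γ) i 0 j := by
  classical
  funext k
  by_cases hk : k = i
  · subst hk
    rw [he_left' h hg h0 v, upd, Function.update_self]
  · rw [upd, Function.update_of_ne hk, he_off h hg (o k hk)]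

/-- **the right column** -/
theorem he_right {i : I} (o : ∀ k, k ≠ i → ¬Vb j r γ k) (h0 : ht γ i 1 = j) (v : γ (some (j, r)) i ≠ .o) :
    he j r γ = upd (ht γ) i 1 (j + 1) := by
  classical
  funext k
  by_cases hk : k = i
  · subst hk
    rw [he_right' h hg h0 v, upd, Function.update_self]
  · rw [upd, Function.update_of_ne hk, he_off h hg (o k hk)]

/-- **outside of the bad event** -/
theorem he_F0 (ne : he j r γ ≠ ht γ) (nb : ¬Bad j r γ) :
    ∃ i, (∀ k, k ≠ i → ¬Vb j r γ k) ∧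
      ((ht γ i 0 = j + 1 ∧ γ (some (j + 1, r)) i ≠ .o ∧ he j r γ = upd (ht γ) i 0 j) ∨
        (ht γ i 1 = j ∧ γ (some (j, r)) i ≠ .o ∧ he j r γ = upd (ht γ) i 1 (j + 1))) := by
  obtain ⟨i, hi⟩ : ∃ i, he j r γ i ≠ ht γ i := by
    by_contra hc
    push Not at hc
    exact ne (funext hc)
  have hor : (hL (cl γ i) = j + 1 ∧ (j + 1, r) ∈ cl γ i) ∨ (hR (cl γ i) = j ∧ (j, r) ∈ cl γ i) := by
    by_contra hc
    push Not at hc
    apply hi
    funext a
    fin_cases a
    · show he j r γ i 0 = ht γ i 0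
      rw [he0, ht0, hL_ex h hg i, if_neg fun h1 => hc.1 h1.1 h1.2]
    · show he j r γ i 1 = ht γ i 1
      rw [he1, ht1, hR_ex h hg i, if_neg fun h1 => hc.2 h1.1 h1.2]
    · exact hB_ex h hg i
    · exact hT_ex h hg i
  have o : ∀ k, k ≠ i → ¬Vb j r γ k := by
    intro k hk hv
    refine nb ⟨i, k, hk.symm, ?_, hv⟩
    rcases hor with ⟨h1, h2⟩ | ⟨h1, h2⟩
    · exact ⟨Or.inr ⟨(j + 1, r), Or.inr (Or.inr (Or.inr rfl)), mem_cl.1 h2⟩,
        Or.inl fun p _ hp => h1 ▸ hL_le (mem_cl.2 hp)⟩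
    · exact ⟨Or.inr ⟨(j, r), Or.inr (Or.inr (Or.inl rfl)), mem_cl.1 h2⟩,
        Or.inr (Or.inl fun p _ hp => h1 ▸ le_hR (mem_cl.2 hp))⟩
  refine ⟨i, o, ?_⟩
  rcases hor with ⟨h1, h2⟩ | ⟨h1, h2⟩
  · exact Or.inl ⟨h1, mem_cl.1 h2, he_left h hg o h1 (mem_cl.1 h2)⟩
  · exact Or.inr ⟨h1, mem_cl.1 h2, he_right h hg o h1 (mem_cl.1 h2)⟩

end

end Pool.Agent.ROT.L
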