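import Pool.Agent.ROT.LHt

/-!
# ROT, block L, row L4b: the extended heights on the lattice with the crossing

`γ ∈ Fam (gX j s)`: the crossing sits between the rows `s - 1` and `s`.  The extended cells of the row `s` and of the row
`s - 1` of a member which uses the crossing have the same columns; their rows differ only if the crossing is a cap (`se`)
over the last row `s - 1` or a cup (`nw`) under the first row `s`.  A member outside of the block (`blk`) does not change.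
-/

set_option autoImplicit false
set_option linter.unusedSimpArgs false

namespace Pool.Agent.ROT.L

open Pool.Agent.YBC (Dir)
open Pool.Agent.ROT.E (Cell IsUn Pt nx)

variable {I : Type} {j s : ℤ} {γ : VX →₀ (I → Cell)} {i : I}

/-! ### two more cells -/

theorem hL_ins2 {S : Finset Pt} (h : S.Nonempty) (j r : ℤ) :
    hL (insert (j, r) (insert (j + 1, r) S)) = min j (hL S) := by
  rw [hL_insert (Finset.insert_nonempty _ _), hL_insert h]
  show min j (min (j + 1) (hL S)) = _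
  omega

theorem hR_ins2 {S : Finset Pt} (h : S.Nonempty) (j r : ℤ) :
    hR (insert (j, r) (insert (j + 1, r) S)) = max (j + 1) (hR S) := by
  rw [hR_insert (Finset.insert_nonempty _ _), hR_insert h]
  show max j (max (j + 1) (hR S)) = _
  omega

theorem hB_ins2 {S : Finset Pt} (h : S.Nonempty) (j r : ℤ) :
    hB (insert (j, r) (insert (j + 1, r) S)) = min r (hB S) := by
  rw [hB_insert (Finset.insert_nonempty _ _), hB_insert h]
  show min r (min r (hB S)) = _
  omega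

theorem hT_ins2 {S : Finset Pt} (h : S.Nonempty) (j r : ℤ) :
    hT (insert (j, r) (insert (j + 1, r) S)) = max r (hT S) := by
  rw [hT_insert (Finset.insert_nonempty _ _), hT_insert h]
  show max r (max r (hT S)) = _
  omega

/-! ### the legs of the crossing -/

/-- the other half of a used leg is used -/
theorem leg (hf : Fam (gX j s) γ) {d : Dir} (h : (γ none i).oc d) : oc (co γ i) (eX j s (none, d)) :=
  ((hf.lp i).mt (none, d) (Set.mem_univ _) (Set.mem_univ _)).1 h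

theorem leg_S (hf : Fam (gX j s) γ) (h : (γ none i).oc .S) : us j s γ i ∧ (j, s - 1) ∈ cl γ i := by
  have h1 := leg hf h
  exact ⟨⟨_, mem_pt6.2 (Or.inl rfl), h1⟩, mem_cl.2 (oc_co h1)⟩

theorem leg_E (hf : Fam (gX j s) γ) (h : (γ none i).oc .E) : us j s γ i ∧ (j + 1, s - 1) ∈ cl γ i := by
  have h1 := leg hf h
  exact ⟨⟨_, mem_pt6.2 (Or.inr (Or.inl rfl)), h1⟩, mem_cl.2 (oc_co h1)⟩

theorem leg_W (hf : Fam (gX j s) γ) (h : (γ none i).oc .W) : us j (s - 1) γ i ∧ (j, s) ∈ cl γ i := by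
  have h1 := leg hf h
  refine ⟨⟨_, mem_pt6.2 (Or.inr (Or.inr (Or.inr (Or.inr (Or.inl rfl))))), ?_⟩, mem_cl.2 (oc_co h1)⟩
  rw [sub_add_cancel]
  exact h1

theorem leg_N (hf : Fam (gX j s) γ) (h : (γ none i).oc .N) : us j (s - 1) γ i ∧ (j + 1, s) ∈ cl γ i := by
  have h1 := leg hf h
  refine ⟨⟨_, mem_pt6.2 (Or.inr (Or.inr (Or.inr (Or.inr (Or.inr rfl))))), ?_⟩, mem_cl.2 (oc_co h1)⟩
  rw [sub_add_cancel]
  exact h1

/-- a port of the row `s` in use: the member is in the row `s` of the region or in the crossing -/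
theorem us_gX (hf : Fam (gX j s) γ) (h : us j s γ i) : γ none i ≠ .o ∨ (j, s) ∈ cl γ i ∨ (j + 1, s) ∈ cl γ i := by
  obtain ⟨h, hh, ho⟩ := h
  obtain ⟨v, rfl | rfl | rfl, h0⟩ := port_in (hf.lp i) ((port_gX j s).symm ▸ hh) ho
  · exact Or.inl h0
  · exact Or.inr (Or.inl (mem_cl.2 h0))
  · exact Or.inr (Or.inr (mem_cl.2 h0))

/-- a port of the row `s - 1` in use: the member is in the row `s - 1` of the region or in the crossing -/
theorem us_gX' (hf : Fam (gX j s) γ) (h : us j (s - 1) γ i) :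
    γ none i ≠ .o ∨ (j, s - 1) ∈ cl γ i ∨ (j + 1, s - 1) ∈ cl γ i := by
  have hp := port_gX' j (s - 1)
  rw [sub_add_cancel] at hp
  obtain ⟨h, hh, ho⟩ := h
  obtain ⟨v, rfl | rfl | rfl, h0⟩ := port_in (hf.lp i) (hp.symm ▸ hh) ho
  · exact Or.inl h0
  · exact Or.inr (Or.inl (mem_cl.2 h0))
  · exact Or.inr (Or.inr (mem_cl.2 h0))

/-! ### a member outside of the block -/

/-- **the block**: the crossing and the four cells around it -/
def blk (j s : ℤ) : Set VX := {none, some (j, s - 1), some (j + 1, s - 1), some (j, s), some (j + 1, s)}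

/-- **outside of the block nothing is added** -/
theorem ex_off (hf : Fam (gX j s) γ) (h : ∀ v ∈ blk j s, γ v i = .o) :
    ex j s γ i = cl γ i ∧ ex j (s - 1) γ i = cl γ i := by
  have h0 : γ none i = .o := h _ (Or.inl rfl)
  have hm : ∀ p : Pt, (some p : VX) ∈ blk j s → p ∉ cl γ i := fun p hp h1 => mem_cl.1 h1 (h _ hp)
  constructor
  · refine ex_of_not fun h1 => ?_
    rcases us_gX hf h1 with h2 | h2 | h2
    · exact h2 h0
    · exact hm _ (Or.inr (Or.inr (Or.inr (Or.inl rfl)))) h2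
    · exact hm _ (Or.inr (Or.inr (Or.inr (Or.inr rfl)))) h2
  · refine ex_of_not fun h1 => ?_
    rcases us_gX' hf h1 with h2 | h2 | h2
    · exact h2 h0
    · exact hm _ (Or.inr (Or.inl rfl)) h2
    · exact hm _ (Or.inr (Or.inr (Or.inl rfl))) h2

/-! ### a member which uses the crossing -/

/-- the three kinds of states of the crossing -/
theorem cross_cases (c : Cell) (h : c ≠ .o) : (c = .se ∧ c.oc .S ∧ c.oc .E) ∨ (c = .nw ∧ c.oc .W ∧ c.oc .N) ∨
    (c ≠ .se ∧ c ≠ .nw ∧ (c.oc .S ∨ c.oc .E) ∧ (c.oc .W ∨ c.oc .N)) := by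
  revert c
  decide

theorem cl_of_cross (hf : Fam (gX j s) γ) (hx : γ none i ≠ .o) : (cl γ i).Nonempty := by
  rcases cross_cases _ hx with ⟨-, h, -⟩ | ⟨-, h, -⟩ | ⟨-, -, h | h, -⟩
  · exact ⟨_, (leg_S hf h).2⟩
  · exact ⟨_, (leg_W hf h).2⟩
  · exact ⟨_, (leg_S hf h).2⟩
  · exact ⟨_, (leg_E hf h).2⟩

/-- a member with cells in both rows -/
theorem ht_both {a b : ℤ} {S : Finset Pt} (ha : ∃ v ∈ S, v.2 = a) (hb : ∃ v ∈ S, v.2 = b) (j : ℤ) (h : b = a + 1) :
    hB (insert (j, a) (insert (j + 1, a) S)) = hB S ∧ hB (insert (j, b) (insert (j + 1, b) S)) = hB S ∧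
    hT (insert (j, a) (insert (j + 1, a) S)) = hT S ∧ hT (insert (j, b) (insert (j + 1, b) S)) = hT S := by
  obtain ⟨v, hv, rfl⟩ := ha
  obtain ⟨w, hw, rfl⟩ := hb
  have hn : S.Nonempty := ⟨v, hv⟩
  rw [hB_ins2 hn, hB_ins2 hn, hT_ins2 hn, hT_ins2 hn]
  have h1 := hB_le hv
  have h2 := hB_le hw
  have h3 := le_hT hv
  have h4 := le_hT hw
  omega

open Classical in
/-- **row L4b: the heights of the member which uses the crossing** -/
theorem ht_cross (hf : Fam (gX j s) γ) (hx : γ none i ≠ .o) :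
    (hL (ex j s γ i) = min j (hL (cl γ i)) ∧ hL (ex j (s - 1) γ i) = min j (hL (cl γ i))) ∧
    (hR (ex j s γ i) = max (j + 1) (hR (cl γ i)) ∧ hR (ex j (s - 1) γ i) = max (j + 1) (hR (cl γ i))) ∧
    (hB (ex j s γ i) = hB (cl γ i) ∧
      hB (ex j (s - 1) γ i) = if γ none i = .nw ∧ hB (cl γ i) = s then s - 1 else hB (cl γ i)) ∧
    (hT (ex j s γ i) = (if γ none i = .se ∧ hT (cl γ i) = s - 1 then s else hT (cl γ i)) ∧
      hT (ex j (s - 1) γ i) = hT (cl γ i)) := by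
  have hn := cl_of_cross hf hx
  have add : ∀ r : ℤ, (j, r) ∈ cl γ i → (j + 1, r) ∈ cl γ i → ex j r γ i = insert (j, r) (insert (j + 1, r) (cl γ i)) := by
    intro r h1 h2
    by_cases h : us j r γ i
    · exact ex_of_us h
    · rw [ex_of_not h, Finset.insert_eq_of_mem h2, Finset.insert_eq_of_mem h1]
  rcases cross_cases _ hx with ⟨e, h1, h2⟩ | ⟨e, h1, h2⟩ | ⟨e, e', h1, h2⟩
  · have ha := leg_S hf h1
    have hb := leg_E hf h2
    rw [ex_of_us ha.1, add _ ha.2 hb.2, hL_ins2 hn, hL_ins2 hn, hR_ins2 hn, hR_ins2 hn, hB_ins2 hn, hB_ins2 hn,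
      hT_ins2 hn, hT_ins2 hn, if_neg (fun h => by rw [e] at h; exact absurd h.1 (by decide))]
    have h3 := hB_le ha.2
    have h4 := le_hT ha.2
    dsimp only at h3 h4
    refine ⟨⟨rfl, rfl⟩, ⟨rfl, rfl⟩, ⟨by omega, by omega⟩, ⟨?_, by omega⟩⟩
    split_ifs with h5
    · omega
    · have : hT (cl γ i) ≠ s - 1 := fun h => h5 ⟨e, h⟩
      omega
  · have ha := leg_W hf h1
    have hb := leg_N hf h2
    rw [ex_of_us ha.1, add _ ha.2 hb.2, hL_ins2 hn, hL_ins2 hn, hR_ins2 hn, hR_ins2 hn, hB_ins2 hn, hB_ins2 hn,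
      hT_ins2 hn, hT_ins2 hn, if_neg (fun h => by rw [e] at h; exact absurd h.1 (by decide) :
        ¬ (γ none i = .se ∧ hT (cl γ i) = s - 1))]
    have h3 := hB_le ha.2
    have h4 := le_hT ha.2
    dsimp only at h3 h4
    refine ⟨⟨rfl, rfl⟩, ⟨rfl, rfl⟩, ⟨by omega, ?_⟩, ⟨by omega, by omega⟩⟩
    split_ifs with h5
    · omega
    · have : hB (cl γ i) ≠ s := fun h => h5 ⟨e, h⟩
      omega
  · have hlo : us j s γ i ∧ ∃ v ∈ cl γ i, v.2 = s - 1 := by
      rcases h1 with h | h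
      · exact ⟨(leg_S hf h).1, _, (leg_S hf h).2, rfl⟩
      · exact ⟨(leg_E hf h).1, _, (leg_E hf h).2, rfl⟩
    have hup : us j (s - 1) γ i ∧ ∃ v ∈ cl γ i, v.2 = s := by
      rcases h2 with h | h
      · exact ⟨(leg_W hf h).1, _, (leg_W hf h).2, rfl⟩
      · exact ⟨(leg_N hf h).1, _, (leg_N hf h).2, rfl⟩
    obtain ⟨b1, b2, b3, b4⟩ := ht_both hlo.2 hup.2 j (by ring)
    rw [ex_of_us hlo.1, ex_of_us hup.1, b1, b2, b3, b4, hL_ins2 hn, hL_ins2 hn, hR_ins2 hn, hR_ins2 hn,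
      if_neg (fun h => e' h.1), if_neg (fun h => e h.1)]
    exact ⟨⟨rfl, rfl⟩, ⟨rfl, rfl⟩, ⟨rfl, rfl⟩, ⟨rfl, rfl⟩⟩

/-! ### a member which does not use the crossing (only if another member uses it) -/

/-- uses a port of the row `s` = is in the row `s` of the region -/
theorem us_gX_iff (hf : Fam (gX j s) γ) (hg : Gd (Rg j s) γ) (hx : γ none i = .o) :
    us j s γ i ↔ (j, s) ∈ cl γ i ∨ (j + 1, s) ∈ cl γ i := by
  rw [us_iff (port_gX j s) hf hg, mem_cl, mem_cl]
  constructor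
  · rintro ⟨v, rfl | rfl | rfl, h0⟩
    · exact absurd hx h0
    · exact Or.inl h0
    · exact Or.inr h0
  · rintro (h | h)
    · exact ⟨_, Or.inr (Or.inl rfl), h⟩
    · exact ⟨_, Or.inr (Or.inr rfl), h⟩

/-- uses a port of the row `s - 1` = is in the row `s - 1` of the region -/
theorem us_gX'_iff (hf : Fam (gX j s) γ) (hg : Gd (Rg j (s - 1)) γ) (hx : γ none i = .o) :
    us j (s - 1) γ i ↔ (j, s - 1) ∈ cl γ i ∨ (j + 1, s - 1) ∈ cl γ i := by
  have hp := port_gX' j (s - 1)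
  rw [sub_add_cancel] at hp
  rw [us_iff hp hf hg, mem_cl, mem_cl]
  constructor
  · rintro ⟨v, rfl | rfl | rfl, h0⟩
    · exact absurd hx h0
    · exact Or.inl h0
    · exact Or.inr h0
  · rintro (h | h)
    · exact ⟨_, Or.inr (Or.inl rfl), h⟩
    · exact ⟨_, Or.inr (Or.inr rfl), h⟩

open Classical in
/-- **the heights of a member which does not use the crossing**: only an extreme column can change -/
theorem ht_side (hf : Fam (gX j s) γ) (hg : Gd (Rg j s) γ) (hg' : Gd (Rg j (s - 1)) γ) (hx : γ none i = .o) :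
    (hL (ex j s γ i) = (if hL (cl γ i) = j + 1 ∧ (j + 1, s) ∈ cl γ i then j else hL (cl γ i)) ∧
      hL (ex j (s - 1) γ i) = if hL (cl γ i) = j + 1 ∧ (j + 1, s - 1) ∈ cl γ i then j else hL (cl γ i)) ∧
    (hR (ex j s γ i) = (if hR (cl γ i) = j ∧ (j, s) ∈ cl γ i then j + 1 else hR (cl γ i)) ∧
      hR (ex j (s - 1) γ i) = if hR (cl γ i) = j ∧ (j, s - 1) ∈ cl γ i then j + 1 else hR (cl γ i)) ∧
    (hB (ex j s γ i) = hB (cl γ i) ∧ hB (ex j (s - 1) γ i) = hB (cl γ i)) ∧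
    (hT (ex j s γ i) = hT (cl γ i) ∧ hT (ex j (s - 1) γ i) = hT (cl γ i)) := by
  have hn : (cl γ i).Nonempty := cl_ne hg i
  have main : ∀ r : ℤ, (us j r γ i ↔ (j, r) ∈ cl γ i ∨ (j + 1, r) ∈ cl γ i) →
      hL (ex j r γ i) = (if hL (cl γ i) = j + 1 ∧ (j + 1, r) ∈ cl γ i then j else hL (cl γ i)) ∧
      hR (ex j r γ i) = (if hR (cl γ i) = j ∧ (j, r) ∈ cl γ i then j + 1 else hR (cl γ i)) ∧
      hB (ex j r γ i) = hB (cl γ i) ∧ hT (ex j r γ i) = hT (cl γ i) := by
    intro r hr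
    by_cases h : us j r γ i
    · rw [ex_of_us h, hL_ins2 hn, hR_ins2 hn, hB_ins2 hn, hT_ins2 hn]
      rcases hr.1 h with h1 | h1
      · have a1 : hL (cl γ i) ≤ j := hL_le h1
        have a2 : j ≤ hR (cl γ i) := le_hR h1
        have a3 : hB (cl γ i) ≤ r := hB_le h1
        have a4 : r ≤ hT (cl γ i) := le_hT h1
        refine ⟨?_, ?_, by omega, by omega⟩
        · rw [if_neg (by omega)]
          omega
        · split_ifs with h5
          · omega
          · have : hR (cl γ i) ≠ j := fun e => h5 ⟨e, h1⟩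
            omega
      · have a1 : hL (cl γ i) ≤ j + 1 := hL_le h1
        have a2 : j + 1 ≤ hR (cl γ i) := le_hR h1
        have a3 : hB (cl γ i) ≤ r := hB_le h1
        have a4 : r ≤ hT (cl γ i) := le_hT h1
        refine ⟨?_, ?_, by omega, by omega⟩
        · split_ifs with h5
          · omega
          · have : hL (cl γ i) ≠ j + 1 := fun e => h5 ⟨e, h1⟩
            omega
        · rw [if_neg (by omega)]
          omega
    · rw [ex_of_not h]
      have h2 : ¬ ((j, r) ∈ cl γ i ∨ (j + 1, r) ∈ cl γ i) := fun h3 => h (hr.2 h3)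
      rw [if_neg (fun h3 => h2 (Or.inr h3.2)), if_neg (fun h3 => h2 (Or.inl h3.2))]
      exact ⟨rfl, rfl, rfl, rfl⟩
  obtain ⟨m1, m2, m3, m4⟩ := main s (us_gX_iff hf hg hx)
  obtain ⟨n1, n2, n3, n4⟩ := main (s - 1) (us_gX'_iff hf hg' hx)
  exact ⟨⟨m1, n1⟩, ⟨m2, n2⟩, ⟨m3, n3⟩, ⟨m4, n4⟩⟩

/-- a member which does not use the crossing and is in both rows of the block: nothing changes -/
theorem ht_side2 (hf : Fam (gX j s) γ) (hg : Gd (Rg j s) γ) (hg' : Gd (Rg j (s - 1)) γ) (hx : γ none i = .o)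
    (h1 : (j, s) ∈ cl γ i ∨ (j + 1, s) ∈ cl γ i) (h2 : (j, s - 1) ∈ cl γ i ∨ (j + 1, s - 1) ∈ cl γ i) :
    hL (ex j s γ i) = hL (ex j (s - 1) γ i) ∧ hR (ex j s γ i) = hR (ex j (s - 1) γ i) ∧
    hB (ex j s γ i) = hB (ex j (s - 1) γ i) ∧ hT (ex j s γ i) = hT (ex j (s - 1) γ i) := by
  have hn : (cl γ i).Nonempty := cl_ne hg i
  obtain ⟨-, -, ⟨m3, n3⟩, ⟨m4, n4⟩⟩ := ht_side hf hg hg' hx
  rw [m3, n3, m4, n4, ex_of_us ((us_gX_iff hf hg hx).2 h1), ex_of_us ((us_gX'_iff hf hg' hx).2 h2), hL_ins2 hn,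
    hL_ins2 hn, hR_ins2 hn, hR_ins2 hn]
  exact ⟨rfl, rfl, rfl, rfl⟩

/-! ### the row L4b in one statement -/

/-- **row L4b**: the crossing is used and the member `i` is alone in the block: the other members do not change; the
columns of `i` do not change, its first row changes only for a cup under it, its last row only for a cap over it -/
theorem row_L4b (hf : Fam (gX j s) γ) (hx : γ none i ≠ .o) (ha : ∀ i', i' ≠ i → ∀ v ∈ blk j s, γ v i' = .o) :
    (∀ i', i' ≠ i → ex j s γ i' = ex j (s - 1) γ i') ∧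
    hL (ex j s γ i) = hL (ex j (s - 1) γ i) ∧ hR (ex j s γ i) = hR (ex j (s - 1) γ i) ∧
    (hB (ex j s γ i) = hB (ex j (s - 1) γ i) ∨ γ none i = .nw ∧ hB (ex j s γ i) = s ∧ hB (ex j (s - 1) γ i) = s - 1) ∧
    (hT (ex j s γ i) = hT (ex j (s - 1) γ i) ∨ γ none i = .se ∧ hT (ex j s γ i) = s ∧ hT (ex j (s - 1) γ i) = s - 1) := by
  classical
  refine ⟨fun i' hi => ?_, ?_⟩
  · obtain ⟨h1, h2⟩ := ex_off hf (ha i' hi)
    rw [h1, h2]
  · obtain ⟨⟨h1, h2⟩, ⟨h3, h4⟩, ⟨h5, h6⟩, ⟨h7, h8⟩⟩ := ht_cross hf hx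
    refine ⟨h1.trans h2.symm, h3.trans h4.symm, ?_, ?_⟩
    · by_cases h : γ none i = .nw ∧ hB (cl γ i) = s
      · rw [if_pos h] at h6
        exact Or.inr ⟨h.1, h5.trans h.2, h6⟩
      · rw [if_neg h] at h6
        exact Or.inl (h5.trans h6.symm)
    · by_cases h : γ none i = .se ∧ hT (cl γ i) = s - 1
      · rw [if_pos h] at h7
        exact Or.inr ⟨h.1, h7, h8.trans h.2⟩
      · rw [if_neg h] at h7
        exact Or.inl (h7.trans h8.symm)

end Pool.Agent.ROT.L
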