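import Pool.Agent.ROT.LDefs
import Pool.Agent.ROT.LHtX

/-!
# ROT, block L, row L4b: the extended heights on the lattice with the crossing, in the words of `LDefs`

`he_nrX`: close heights; `he_gX`: outside of the bad event the extended heights of the rows `s` and `s - 1` differ only
by a cap over a top row or a cup under a bottom row; `he_cap`, `he_cup`: the converse.
-/

set_option autoImplicit false

namespace Pool.Agent.ROT.L

open Pool.Agent.YBC (Dir)
open Pool.Agent.ROT.E (Cell IsUn Pt nx)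

variable {I : Type}

private theorem f4 {f g : Fin 4 → ℤ} (h0 : f 0 = g 0) (h1 : f 1 = g 1) (h2 : f 2 = g 2) (h3 : f 3 = g 3) : f = g := by
  funext a
  fin_cases a
  · exact h0
  · exact h1
  · exact h2
  · exact h3

/-- outside of the block -/
theorem heX_nvb {j s : ℤ} {γ : FX I} {k : I} (h : ¬ Vb j s γ k) : ∀ v ∈ blk j s, γ v k = .o := by
  intro v hv
  by_contra hc
  apply h
  rcases hv with rfl | rfl | rfl | rfl | rfl
  · exact Or.inl hc
  · exact Or.inr ⟨_, Or.inl rfl, hc⟩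
  · exact Or.inr ⟨_, Or.inr (Or.inl rfl), hc⟩
  · exact Or.inr ⟨_, Or.inr (Or.inr (Or.inl rfl)), hc⟩
  · exact Or.inr ⟨_, Or.inr (Or.inr (Or.inr rfl)), hc⟩

/-- a member outside of the block keeps its heights -/
theorem heX_off {j s : ℤ} {γ : FX I} (h : Fam (gX j s) γ) {k : I} (hk : ¬ Vb j s γ k) :
    he j s γ k = ht γ k ∧ he j (s - 1) γ k = ht γ k := by
  obtain ⟨h1, h2⟩ := ex_off h (heX_nvb hk)
  constructor
  · unfold he ht
    rw [h1]
  · unfold he ht
    rw [h2]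

/-- the extended heights of a member which uses a port -/
theorem heX_us {j r : ℤ} {γ : FX I} {i : I} (h : us j r γ i) (hn : (cl γ i).Nonempty) :
    he j r γ i 0 = min j (ht γ i 0) ∧ he j r γ i 1 = max (j + 1) (ht γ i 1) ∧ he j r γ i 2 = min r (ht γ i 2) ∧
      he j r γ i 3 = max r (ht γ i 3) := by
  have e := ex_of_us h
  refine ⟨?_, ?_, ?_, ?_⟩
  · show hL (ex j r γ i) = _
    rw [e, hL_ins2 hn]
    rfl
  · show hR (ex j r γ i) = _
    rw [e, hR_ins2 hn]
    rfl
  · show hB (ex j r γ i) = _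
    rw [e, hB_ins2 hn]
    rfl
  · show hT (ex j r γ i) = _
    rw [e, hT_ins2 hn]
    rfl

/-- the extended heights of a member which uses no port -/
theorem heX_nus {j r : ℤ} {γ : FX I} {i : I} (h : ¬ us j r γ i) : he j r γ i = ht γ i := by
  unfold he ht
  rw [ex_of_not h]

/-- a cell of the member -/
theorem htX_mem {γ : FX I} {i : I} {p : Pt} (hp : p ∈ cl γ i) :
    ht γ i 0 ≤ p.1 ∧ p.1 ≤ ht γ i 1 ∧ ht γ i 2 ≤ p.2 ∧ p.2 ≤ ht γ i 3 := ⟨hL_le hp, le_hR hp, hB_le hp, le_hT hp⟩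

/-- the member which uses the crossing -/
theorem heX_cross {j s : ℤ} {γ : FX I} (h : Fam (gX j s) γ) {i : I} (hx : γ none i ≠ .o) :
    (he j s γ i 0 = he j (s - 1) γ i 0 ∧ he j s γ i 1 = he j (s - 1) γ i 1) ∧
    (he j s γ i 2 = ht γ i 2 ∧
      (he j (s - 1) γ i 2 = ht γ i 2 ∨ γ none i = .nw ∧ ht γ i 2 = s ∧ he j (s - 1) γ i 2 = s - 1)) ∧
    (he j (s - 1) γ i 3 = ht γ i 3 ∧
      (he j s γ i 3 = ht γ i 3 ∨ γ none i = .se ∧ ht γ i 3 = s - 1 ∧ he j s γ i 3 = s)) := by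
  classical
  obtain ⟨⟨a1, a2⟩, ⟨b1, b2⟩, ⟨c1, c2⟩, ⟨d1, d2⟩⟩ := ht_cross h hx
  refine ⟨⟨a1.trans a2.symm, b1.trans b2.symm⟩, ⟨c1, ?_⟩, ⟨d2, ?_⟩⟩
  · by_cases hc : γ none i = .nw ∧ hB (cl γ i) = s
    · rw [if_pos hc] at c2
      exact Or.inr ⟨hc.1, hc.2, c2⟩
    · rw [if_neg hc] at c2
      exact Or.inl c2
  · by_cases hc : γ none i = .se ∧ hT (cl γ i) = s - 1
    · rw [if_pos hc] at d1
      exact Or.inr ⟨hc.1, hc.2, d1⟩
    · rw [if_neg hc] at d1
      exact Or.inl d1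

/-- a cell of the member in the block or the crossing gives the columns -/
theorem heX_col {j s : ℤ} {γ : FX I} (h : Fam (gX j s) γ) {i : I} (hu : us j s γ i ∨ us j (s - 1) γ i) :
    (cl γ i).Nonempty ∧ ht γ i 0 ≤ j + 1 ∧ j ≤ ht γ i 1 ∧ ht γ i 2 ≤ s ∧ s - 1 ≤ ht γ i 3 := by
  have key : ∃ p ∈ cl γ i, j ≤ p.1 ∧ p.1 ≤ j + 1 ∧ s - 1 ≤ p.2 ∧ p.2 ≤ s := by
    have cr : γ none i ≠ .o → ∃ p ∈ cl γ i, j ≤ p.1 ∧ p.1 ≤ j + 1 ∧ s - 1 ≤ p.2 ∧ p.2 ≤ s := by
      intro hx
      rcases cross_cases _ hx with ⟨-, h1, -⟩ | ⟨-, h1, -⟩ | ⟨-, -, h1 | h1, -⟩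
      · exact ⟨_, (leg_S h h1).2, by dsimp only; omega⟩
      · exact ⟨_, (leg_W h h1).2, by dsimp only; omega⟩
      · exact ⟨_, (leg_S h h1).2, by dsimp only; omega⟩
      · exact ⟨_, (leg_E h h1).2, by dsimp only; omega⟩
    rcases hu with hu | hu
    · rcases us_gX h hu with h1 | h1 | h1
      · exact cr h1
      · exact ⟨_, h1, by dsimp only; omega⟩
      · exact ⟨_, h1, by dsimp only; omega⟩
    · rcases us_gX' h hu with h1 | h1 | h1
      · exact cr h1
      · exact ⟨_, h1, by dsimp only; omega⟩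
      · exact ⟨_, h1, by dsimp only; omega⟩
  obtain ⟨p, hp, a, b, c, d⟩ := key
  obtain ⟨e1, e2, e3, e4⟩ := htX_mem hp
  exact ⟨⟨p, hp⟩, by omega, by omega, by omega, by omega⟩

/-- **close heights** -/
theorem he_nrX {j s : ℤ} {γ : FX I} (h : Fam (gX j s) γ) :
    Nr (he j s γ) (ht γ) ∧ Nr (he j (s - 1) γ) (ht γ) ∧ Nr (he j s γ) (he j (s - 1) γ) := by
  have main : ∀ i, (∀ a, |he j s γ i a - ht γ i a| ≤ 1) ∧ (∀ a, |he j (s - 1) γ i a - ht γ i a| ≤ 1) ∧
      ∀ a, |he j s γ i a - he j (s - 1) γ i a| ≤ 1 := by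
    intro i
    have all : ∀ {f g : Fin 4 → ℤ}, |f 0 - g 0| ≤ 1 → |f 1 - g 1| ≤ 1 → |f 2 - g 2| ≤ 1 → |f 3 - g 3| ≤ 1 →
        ∀ a, |f a - g a| ≤ 1 := by
      intro f g h0 h1 h2 h3 a
      fin_cases a
      · exact h0
      · exact h1
      · exact h2
      · exact h3
    by_cases u1 : us j s γ i
    · obtain ⟨hn, q0, q1, q2, q3⟩ := heX_col h (Or.inl u1)
      obtain ⟨a0, a1, a2, a3⟩ := heX_us u1 hn
      by_cases u2 : us j (s - 1) γ i
      · obtain ⟨b0, b1, b2, b3⟩ := heX_us u2 hn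
        refine ⟨all ?_ ?_ ?_ ?_, all ?_ ?_ ?_ ?_, all ?_ ?_ ?_ ?_⟩ <;> rw [abs_le] <;> omega
      · have b := heX_nus u2
        refine ⟨all ?_ ?_ ?_ ?_, fun a => by rw [b]; simp, ?_⟩
        · rw [abs_le]; omega
        · rw [abs_le]; omega
        · rw [abs_le]; omega
        · rw [abs_le]; omega
        · rw [b]
          refine all ?_ ?_ ?_ ?_ <;> rw [abs_le] <;> omega
    · have a := heX_nus u1
      by_cases u2 : us j (s - 1) γ i
      · obtain ⟨hn, q0, q1, q2, q3⟩ := heX_col h (Or.inr u2)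
        obtain ⟨b0, b1, b2, b3⟩ := heX_us u2 hn
        refine ⟨fun c => by rw [a]; simp, all ?_ ?_ ?_ ?_, ?_⟩
        · rw [abs_le]; omega
        · rw [abs_le]; omega
        · rw [abs_le]; omega
        · rw [abs_le]; omega
        · rw [a]
          refine all ?_ ?_ ?_ ?_ <;> rw [abs_le] <;> omega
      · have b := heX_nus u2
        exact ⟨fun c => by rw [a]; simp, fun c => by rw [b]; simp, fun c => by rw [a, b]; simp⟩
  exact ⟨fun i => (main i).1, fun i => (main i).2.1, fun i => (main i).2.2⟩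

/-- **the cap over the top row** -/
theorem he_cap {j s : ℤ} {γ : FX I} (h : Fam (gX j s) γ) {i : I} (o : ∀ k, k ≠ i → ¬Vb j s γ k)
    (hc : γ none i = .se) (ht3 : ht γ i 3 = s - 1) : he j s γ = upd (ht γ) i 3 s ∧ he j (s - 1) γ = ht γ := by
  classical
  have hx : γ none i ≠ .o := by rw [hc]; decide
  have hS := leg_S h (i := i) (by rw [hc]; decide)
  have hE := leg_E h (i := i) (by rw [hc]; decide)
  have hn : (cl γ i).Nonempty := ⟨_, hS.2⟩
  obtain ⟨m1, m2, m3, m4⟩ := htX_mem hS.2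
  obtain ⟨n1, n2, n3, n4⟩ := htX_mem hE.2
  dsimp only at m1 m2 m3 m4 n1 n2 n3 n4
  obtain ⟨a0, a1, a2, a3⟩ := heX_us hS.1 hn
  obtain ⟨⟨c0, c1⟩, ⟨c2, c3⟩, ⟨c4, c5⟩⟩ := heX_cross h hx
  constructor
  · funext k
    by_cases hk : k = i
    · subst hk
      unfold upd
      rw [Function.update_self]
      refine f4 ?_ ?_ ?_ ?_
      · rw [Function.update_of_ne (by decide)]
        omega
      · rw [Function.update_of_ne (by decide)]
        omega
      · rw [Function.update_of_ne (by decide)]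
        omega
      · rw [Function.update_self]
        omega
    · unfold upd
      rw [Function.update_of_ne hk]
      exact (heX_off h (o k hk)).1
  · funext k
    by_cases hk : k = i
    · subst hk
      refine f4 (by omega) (by omega) ?_ (by omega)
      rcases c3 with c3 | ⟨c3, -⟩
      · exact c3
      · rw [hc] at c3
        exact absurd c3 (by decide)
    · exact (heX_off h (o k hk)).2

/-- **the cup under the bottom row** -/
theorem he_cup {j s : ℤ} {γ : FX I} (h : Fam (gX j s) γ) {i : I} (o : ∀ k, k ≠ i → ¬Vb j s γ k)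
    (hc : γ none i = .nw) (ht2 : ht γ i 2 = s) : he j s γ = ht γ ∧ he j (s - 1) γ = upd (ht γ) i 2 (s - 1) := by
  classical
  have hx : γ none i ≠ .o := by rw [hc]; decide
  have hW := leg_W h (i := i) (by rw [hc]; decide)
  have hN := leg_N h (i := i) (by rw [hc]; decide)
  have hn : (cl γ i).Nonempty := ⟨_, hW.2⟩
  obtain ⟨m1, m2, m3, m4⟩ := htX_mem hW.2
  obtain ⟨n1, n2, n3, n4⟩ := htX_mem hN.2
  dsimp only at m1 m2 m3 m4 n1 n2 n3 n4
  obtain ⟨a0, a1, a2, a3⟩ := heX_us hW.1 hn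
  obtain ⟨⟨c0, c1⟩, ⟨c2, c3⟩, ⟨c4, c5⟩⟩ := heX_cross h hx
  constructor
  · funext k
    by_cases hk : k = i
    · subst hk
      refine f4 (by omega) (by omega) (by omega) ?_
      rcases c5 with c5 | ⟨c5, -⟩
      · exact c5
      · rw [hc] at c5
        exact absurd c5 (by decide)
    · exact (heX_off h (o k hk)).1
  · funext k
    by_cases hk : k = i
    · subst hk
      unfold upd
      rw [Function.update_self]
      refine f4 ?_ ?_ ?_ ?_
      · rw [Function.update_of_ne (by decide)]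
        omega
      · rw [Function.update_of_ne (by decide)]
        omega
      · rw [Function.update_self]
        omega
      · rw [Function.update_of_ne (by decide)]
        omega
    · unfold upd
      rw [Function.update_of_ne hk]
      exact (heX_off h (o k hk)).2

/-- a member which does not use the crossing and changes is extreme in the block -/
theorem heX_side {j s : ℤ} {γ : FX I} (h : Fam (gX j s) γ) {i : I} (hx : γ none i = .o)
    (ne : he j s γ i ≠ he j (s - 1) γ i) : Xb j s γ i := by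
  have col : ∀ r : ℤ, ((j, r) ∈ cl γ i ∨ (j + 1, r) ∈ cl γ i) → (j, r) ∈ Bk j s → (j + 1, r) ∈ Bk j s → us j r γ i →
      he j r γ i ≠ ht γ i → Xb j s γ i := by
    intro r hr k1 k2 u hne
    have hn : (cl γ i).Nonempty := by
      rcases hr with hr | hr
      · exact ⟨_, hr⟩
      · exact ⟨_, hr⟩
    obtain ⟨a0, a1, a2, a3⟩ := heX_us u hn
    rcases hr with hr | hr
    · obtain ⟨m1, m2, m3, m4⟩ := htX_mem hr
      dsimp only at m1 m2 m3 m4
      have hj : ht γ i 1 = j := by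
        by_contra hc
        exact hne (f4 (by omega) (by omega) (by omega) (by omega))
      refine ⟨Or.inr ⟨_, k1, mem_cl.1 hr⟩, Or.inr (Or.inl fun p _ hp => ?_)⟩
      have := (htX_mem (mem_cl.2 hp)).2.1
      omega
    · obtain ⟨m1, m2, m3, m4⟩ := htX_mem hr
      dsimp only at m1 m2 m3 m4
      have hj : ht γ i 0 = j + 1 := by
        by_contra hc
        exact hne (f4 (by omega) (by omega) (by omega) (by omega))
      refine ⟨Or.inr ⟨_, k2, mem_cl.1 hr⟩, Or.inl fun p _ hp => ?_⟩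
      have := (htX_mem (mem_cl.2 hp)).1
      omega
  have b1 : (j, s - 1) ∈ Bk j s := Or.inl rfl
  have b2 : (j + 1, s - 1) ∈ Bk j s := Or.inr (Or.inl rfl)
  have b3 : (j, s) ∈ Bk j s := Or.inr (Or.inr (Or.inl rfl))
  have b4 : (j + 1, s) ∈ Bk j s := Or.inr (Or.inr (Or.inr rfl))
  by_cases u1 : us j s γ i
  · have r1 := (us_gX h u1).resolve_left (fun h0 => h0 hx)
    by_cases u2 : us j (s - 1) γ i
    · exfalso
      have r2 := (us_gX' h u2).resolve_left (fun h0 => h0 hx)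
      have hn := (heX_col h (Or.inl u1)).1
      obtain ⟨a0, a1, a2, a3⟩ := heX_us u1 hn
      obtain ⟨c0, c1, c2, c3⟩ := heX_us u2 hn
      have d1 : ht γ i 2 ≤ s - 1 := by
        rcases r2 with r2 | r2
        · exact (htX_mem r2).2.2.1
        · exact (htX_mem r2).2.2.1
      have d2 : s ≤ ht γ i 3 := by
        rcases r1 with r1 | r1
        · exact (htX_mem r1).2.2.2
        · exact (htX_mem r1).2.2.2
      exact ne (f4 (by omega) (by omega) (by omega) (by omega))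
    · rw [heX_nus u2] at ne
      exact col s r1 b3 b4 u1 ne
  · have u2 : us j (s - 1) γ i := by
      by_contra u2
      rw [heX_nus u1, heX_nus u2] at ne
      exact ne rfl
    have r2 := (us_gX' h u2).resolve_left (fun h0 => h0 hx)
    rw [heX_nus u1] at ne
    exact col (s - 1) r2 b1 b2 u2 ne.symm

/-- a cap over the top row is extreme -/
theorem xb_cap {j s : ℤ} {γ : FX I} {i : I} (hc : γ none i = .se) (h3 : ht γ i 3 = s - 1) : Xb j s γ i := by
  refine ⟨Or.inl (by rw [hc]; decide), Or.inr (Or.inr (Or.inl fun p _ hp => ?_))⟩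
  have := (htX_mem (mem_cl.2 hp)).2.2.2
  omega

/-- a cup under the bottom row is extreme -/
theorem xb_cup {j s : ℤ} {γ : FX I} {i : I} (hc : γ none i = .nw) (h2 : ht γ i 2 = s) : Xb j s γ i := by
  refine ⟨Or.inl (by rw [hc]; decide), Or.inr (Or.inr (Or.inr fun p _ hp => ?_))⟩
  have := (htX_mem (mem_cl.2 hp)).2.2.1
  omega

/-- **outside of the bad event the extended heights differ only by a cap or a cup** -/
theorem he_gX {j s : ℤ} {γ : FX I} (h : Fam (gX j s) γ) (hx : γ none ≠ 0)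
    (ne : he j s γ ≠ he j (s - 1) γ) (nb : ¬Bad j s γ) :
    ∃ i, (∀ k, k ≠ i → ¬Vb j s γ k) ∧
      ((γ none i = .se ∧ ht γ i 3 = s - 1 ∧ he j s γ = upd (ht γ) i 3 s ∧ he j (s - 1) γ = ht γ) ∨
        (γ none i = .nw ∧ ht γ i 2 = s ∧ he j s γ = ht γ ∧ he j (s - 1) γ = upd (ht γ) i 2 (s - 1))) := by
  obtain ⟨i, hi⟩ := Function.ne_iff.1 ne
  have alone : Xb j s γ i → ∀ k, k ≠ i → ¬Vb j s γ k := fun hX k hk hv => nb ⟨i, k, hk.symm, hX, hv⟩
  by_cases h0 : γ none i = .o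
  · exfalso
    obtain ⟨k, hk⟩ := Function.ne_iff.1 hx
    refine nb ⟨i, k, ?_, heX_side h h0 hi, Or.inl hk⟩
    rintro rfl
    exact hk h0
  · obtain ⟨⟨c0, c1⟩, ⟨c2, c3⟩, ⟨c4, c5⟩⟩ := heX_cross h h0
    rcases c3 with c3 | ⟨e1, e2, e3⟩
    · rcases c5 with c5 | ⟨e1, e2, e3⟩
      · exact absurd (f4 c0 c1 (c2.trans c3.symm) (c5.trans c4.symm)) hi
      · have o := alone (xb_cap e1 e2)
        exact ⟨i, o, Or.inl ⟨e1, e2, he_cap h o e1 e2⟩⟩
    · have o := alone (xb_cup e1 e2)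
      exact ⟨i, o, Or.inr ⟨e1, e2, he_cup h o e1 e2⟩⟩

end Pool.Agent.ROT.L
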