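import Pool.Agent.ROT.LTab

/-!
# ROT, block L: the local identity of a row

`row_zero_of`: from the identity of one class (`ClsZ`) to the identity for functions which are constant on the classes:
partition of the finite set of the pairs (tag, family) into classes.
-/

set_option autoImplicit false

namespace Pool.Agent.ROT.L

open Pool.Agent.YBC (Dir)
open Pool.Agent.ROT.E (Cell IsUn Pt nx)

noncomputable section

variable {I : Type}

/-- the weight of the tag -/
def wT (j r : ℤ) : Fin 3 → FX I → ℝ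
  | 0, γ => dM (j, r) γ - dM (j + 1, r) γ
  | 1, γ => Jw γ
  | 2, γ => -Jw γ

open Classical in
/-- the identity of one class -/
def ClsZ (I : Type) (j r : ℤ) : Prop := ∀ (t : Fin 3) (γ : FX I), Fam (Gt j r t) γ → Gd (Rg j r) γ →
  (∑' γ' : FX I, if Eq6 (Rg j r) (Gt j r t) (Gt j r 0) γ γ' then dM (j, r) γ' - dM (j + 1, r) γ' else 0) +
    (∑' γ' : FX I, if Eq6 (Rg j r) (Gt j r t) (Gt j r 1) γ γ' then Jw γ' else 0) -
    (∑' γ' : FX I, if Eq6 (Rg j r) (Gt j r t) (Gt j r 2) γ γ' then Jw γ' else 0) = 0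

private theorem Gt_mem (j r : ℤ) (t : Fin 3) : Gt j r t ∈ Gs j r := by
  fin_cases t
  · exact Or.inl rfl
  · exact Or.inr (Or.inr rfl)
  · exact Or.inr (Or.inl rfl)

/-- the classes of the pairs (tag, family) -/
private def std (I : Type) (j r : ℤ) : Setoid (Fin 3 × FX I) where
  r a b := a = b ∨ Eq6 (Rg j r) (Gt j r a.1) (Gt j r b.1) a.2 b.2
  iseqv := by
    refine ⟨fun a => Or.inl rfl, fun {a b} h => ?_, fun {a b c} h h' => ?_⟩
    · rcases h with rfl | h
      · exact Or.inl rfl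
      · exact Or.inr (h.symm (agr _ _))
    · rcases h with rfl | h
      · exact h'
      · rcases h' with rfl | h'
        · exact Or.inr h
        · exact Or.inr (h.trans (agr _ _) h')

open Classical in
private theorem tsum_fin {S : Finset (FX I)} {f : FX I → ℝ} (h : ∀ γ, f γ ≠ 0 → γ ∈ S) :
    ∑' γ : FX I, f γ = ∑ γ ∈ S, f γ :=
  tsum_eq_sum fun γ hγ => by
    by_contra h0
    exact hγ (h γ h0)

open Classical in
/-- **the identity of a row** from the identities of the classes -/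
theorem row_zero_of {j r : ℤ} (cls : ClsZ I j r) {G : FX I → ℝ} (fin : {γ | G γ ≠ 0}.Finite)
    (gd : ∀ γ, G γ ≠ 0 → Gd (Rg j r) γ) (cst : Cst j r G) : A j r G + J j (r + 1) G - J j r G = 0 := by
  set S : Finset (FX I) := fin.toFinset with hS
  have mS : ∀ γ, γ ∈ S ↔ G γ ≠ 0 := fun γ => by rw [hS, Set.Finite.mem_toFinset]; exact Iff.rfl
  set T : Finset (Fin 3 × FX I) := (Finset.univ ×ˢ S).filter fun a => Fam (Gt j r a.1) a.2 with hT
  have mT : ∀ a, a ∈ T ↔ G a.2 ≠ 0 ∧ Fam (Gt j r a.1) a.2 := fun a => by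
    rw [hT, Finset.mem_filter, Finset.mem_product, mS]
    simp
  have hA : A j r G = ∑ γ ∈ S, if Fam (Gt j r 0) γ then wT j r 0 γ * G γ else 0 := by
    refine tsum_fin fun γ h => ?_
    rw [mS]
    intro h0
    apply h
    rw [h0, mul_zero, ite_self]
  have hJ1 : J j (r + 1) G = ∑ γ ∈ S, if Fam (Gt j r 1) γ then wT j r 1 γ * G γ else 0 := by
    refine tsum_fin fun γ h => ?_
    rw [mS]
    intro h0
    apply h
    rw [h0, mul_zero, ite_self]
  have hJ2 : J j r G = ∑ γ ∈ S, if Fam (Gt j r 2) γ then Jw γ * G γ else 0 := by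
    refine tsum_fin fun γ h => ?_
    rw [mS]
    intro h0
    apply h
    rw [h0, mul_zero, ite_self]
  have hJ2' : -J j r G = ∑ γ ∈ S, if Fam (Gt j r 2) γ then wT j r 2 γ * G γ else 0 := by
    rw [hJ2, ← Finset.sum_neg_distrib]
    refine Finset.sum_congr rfl fun γ _ => ?_
    by_cases h : Fam (Gt j r 2) γ
    · rw [if_pos h, if_pos h]; show -(Jw γ * G γ) = -Jw γ * G γ; ring
    · rw [if_neg h, if_neg h, neg_zero]
  have hsum : A j r G + J j (r + 1) G - J j r G = ∑ a ∈ T, wT j r a.1 a.2 * G a.2 := by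
    rw [sub_eq_add_neg, hA, hJ1, hJ2', hT, Finset.sum_filter, Finset.sum_product, Fin.sum_univ_three]
  rw [hsum]
  refine Finset.sum_cancels_of_partition_cancels (std I j r) fun x hx => ?_
  obtain ⟨t, γ⟩ := x
  rw [mT] at hx
  obtain ⟨hG, hF⟩ := hx
  have hgd := gd γ hG
  have self : Eq6 (Rg j r) (Gt j r t) (Gt j r t) γ γ := Eq6.rfl' hF hgd
  have rel : ∀ a : Fin 3 × FX I, (std I j r).r a (t, γ) ↔ Eq6 (Rg j r) (Gt j r t) (Gt j r a.1) γ a.2 := by
    intro a
    constructor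
    · rintro (rfl | h)
      · exact self
      · exact h.symm (agr _ _)
    · intro h
      exact Or.inr (h.symm (agr _ _))
  have step : ∑ a ∈ T.filter (fun a => (std I j r).r a (t, γ)), wT j r a.1 a.2 * G a.2 =
      ∑ a ∈ Finset.univ ×ˢ S, if Eq6 (Rg j r) (Gt j r t) (Gt j r a.1) γ a.2 then wT j r a.1 a.2 * G γ else 0 := by
    rw [hT, Finset.filter_filter, Finset.sum_filter]
    refine Finset.sum_congr rfl fun a _ => ?_
    by_cases h : Eq6 (Rg j r) (Gt j r t) (Gt j r a.1) γ a.2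
    · rw [if_pos h, if_pos ⟨h.fam', (rel a).2 h⟩, cst _ (Gt_mem j r t) _ (Gt_mem j r a.1) _ _ h]
    · rw [if_neg h, if_neg fun h' => h ((rel a).1 h'.2)]
  have step2 : ∀ t' : Fin 3, ∑ γ' ∈ S, (if Eq6 (Rg j r) (Gt j r t) (Gt j r t') γ γ' then wT j r t' γ' * G γ else 0) =
      (∑' γ' : FX I, if Eq6 (Rg j r) (Gt j r t) (Gt j r t') γ γ' then wT j r t' γ' else 0) * G γ := by
    intro t'
    have h1 : ∑' γ' : FX I, (if Eq6 (Rg j r) (Gt j r t) (Gt j r t') γ γ' then wT j r t' γ' else 0) =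
        ∑ γ' ∈ S, if Eq6 (Rg j r) (Gt j r t) (Gt j r t') γ γ' then wT j r t' γ' else 0 := by
      refine tsum_fin fun γ' h => ?_
      by_cases h2 : Eq6 (Rg j r) (Gt j r t) (Gt j r t') γ γ'
      · rw [mS, ← cst _ (Gt_mem j r t) _ (Gt_mem j r t') _ _ h2]
        exact hG
      · rw [if_neg h2] at h
        exact absurd rfl h
    rw [h1, Finset.sum_mul]
    refine Finset.sum_congr rfl fun γ' _ => ?_
    split_ifs
    · rfl
    · rw [zero_mul]
  have e2 : ∑' γ' : FX I, (if Eq6 (Rg j r) (Gt j r t) (Gt j r 2) γ γ' then wT j r 2 γ' else 0) =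
      -∑' γ' : FX I, if Eq6 (Rg j r) (Gt j r t) (Gt j r 2) γ γ' then Jw γ' else 0 := by
    rw [← tsum_neg]
    refine tsum_congr fun γ' => ?_
    split_ifs
    · rfl
    · rw [neg_zero]
  show ∑ a ∈ T.filter (fun a => (std I j r).r a (t, γ)), wT j r a.1 a.2 * G a.2 = 0
  rw [step, Finset.sum_product, Fin.sum_univ_three, step2, step2, step2, ← add_mul, ← add_mul, e2,
    ← sub_eq_add_neg]
  have := cls t γ hF hgd
  simp only [wT]
  rw [this, zero_mul]

end

/-- **the identity of a row** from the table -/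
theorem row_zero_tab {I : Type} {j r : ℤ} (tab : ∀ q, TabP q) {G : FX I → ℝ} (fin : {γ | G γ ≠ 0}.Finite)
    (gd : ∀ γ, G γ ≠ 0 → Gd (Rg j r) γ) (cst : Cst j r G) : A j r G + J j (r + 1) G - J j r G = 0 :=
  row_zero_of (fun _ _ f g => cls_zero tab f g) fin gd cst

/-- **the identity of a row** -/
theorem row_zero {I : Type} {j r : ℤ} {G : FX I → ℝ} (fin : {γ | G γ ≠ 0}.Finite)
    (gd : ∀ γ, G γ ≠ 0 → Gd (Rg j r) γ) (cst : Cst j r G) : A j r G + J j (r + 1) G - J j r G = 0 :=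
  row_zero_tab tab fin gd cst

end Pool.Agent.ROT.L
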