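import Pool.Agent.ROT.LRowA

/-!
# ROT, block L: the table (first order Yang-Baxter equation at one hexagon)

`conn t ![s, c1, c2]` (LConn) = pairing of the six ports of the region `{crossing, (j, s), (j + 1, s)}` in the graphs
`t = 0` (no crossing), `1` (crossing above the row), `2` (crossing below the row).  **`tab`**: for every pairing of the
ports the sum of the weights of the states in first order is zero.
-/

set_option autoImplicit false

namespace Pool.Agent.ROT.L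

open Pool.Agent.ROT.E (Cell)

namespace Tb

/-- the inner edges fit and there is no closed loop inside -/
def good (t : Fin 3) (s c1 c2 : Cell) : Bool := fitF t ![s, c1, c2] && opF t ![s, c1, c2]

/-- the pairing -/
def en (t : Fin 3) (s c1 c2 : Cell) : Fin 6 → Fin 6 := qF t ![s, c1, c2]

theorem conn_eq {t : Fin 3} {s c1 c2 : Cell} {q : Fin 6 → Fin 6} :
    conn t ![s, c1, c2] = some q ↔ good t s c1 c2 = true ∧ en t s c1 c2 = q := by
  unfold conn good en
  split_ifs with h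
  · rw [Option.some_inj]
    exact ⟨fun e => ⟨h, e⟩, fun e => e.2⟩
  · exact ⟨fun e => (nomatch e), fun e => absurd e.1 h⟩

/-- the code of a pairing -/
def cd (f : Fin 6 → Fin 6) : ℕ :=
  (((((f 0).val * 6 + (f 1).val) * 6 + (f 2).val) * 6 + (f 3).val) * 6 + (f 4).val) * 6 + (f 5).val

theorem cd_inj {f g : Fin 6 → Fin 6} (h : cd f = cd g) : f = g := by
  unfold cd at h
  have h0 : (f 0).val = (g 0).val := by omega
  have h1 : (f 1).val = (g 1).val := by omega
  have h2 : (f 2).val = (g 2).val := by omega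
  have h3 : (f 3).val = (g 3).val := by omega
  have h4 : (f 4).val = (g 4).val := by omega
  have h5 : (f 5).val = (g 5).val := by omega
  funext k
  apply Fin.ext
  fin_cases k
  · exact h0
  · exact h1
  · exact h2
  · exact h3
  · exact h4
  · exact h5

/-! ### the numbers `a + b √2 + (c + d √2) (2 z)`, `4 z ^ 2 = 4 - 2 √2` -/

/-- the number `a + b √2 + (c + d √2) (2 z)` -/
structure Q4 where
  a : ℤ
  b : ℤ
  c : ℤ
  d : ℤ
  deriving DecidableEq

namespace Q4

def add (x y : Q4) : Q4 := ⟨x.a + y.a, x.b + y.b, x.c + y.c, x.d + y.d⟩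
def neg (x : Q4) : Q4 := ⟨-x.a, -x.b, -x.c, -x.d⟩
def mul (x y : Q4) : Q4 :=
  ⟨x.a * y.a + 2 * (x.b * y.b) + 4 * (x.c * y.c + 2 * (x.d * y.d)) - 4 * (x.c * y.d + x.d * y.c),
   x.a * y.b + x.b * y.a + 4 * (x.c * y.d + x.d * y.c) - 2 * (x.c * y.c + 2 * (x.d * y.d)),
   x.a * y.c + 2 * (x.b * y.d) + x.c * y.a + 2 * (x.d * y.b), x.a * y.d + x.b * y.c + x.c * y.b + x.d * y.a⟩

/-- the value -/
noncomputable def ev (z : ℝ) (x : Q4) : ℝ := x.a + x.b * √2 + (x.c + x.d * √2) * (2 * z)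

theorem ev_add (z : ℝ) (x y : Q4) : ev z (x.add y) = ev z x + ev z y := by
  unfold ev add
  push_cast
  ring

theorem ev_neg (z : ℝ) (x : Q4) : ev z x.neg = -ev z x := by
  unfold ev neg
  push_cast
  ring

theorem ev_mul {z : ℝ} (hz : (2 * z) ^ 2 = 4 - 2 * √2) (x y : Q4) : ev z (x.mul y) = ev z x * ev z y := by
  have h2 : √2 ^ 2 = 2 := Real.sq_sqrt (by norm_num)
  unfold ev mul
  push_cast
  linear_combination (-((x.c : ℝ) + x.d * √2) * (y.c + y.d * √2)) * hz +
    (-(x.b : ℝ) * y.b - (x.b * y.d + x.d * y.b) * (2 * z) + (-4 * x.d * y.d + 2 * (x.c * y.d + x.d * y.c) + 2 * x.d * y.d * √2)) * h2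

end Q4

/-- twice the weights at `π / 8` -/
def wq : Cell → Q4
  | .o => ⟨2, 0, 0, 0⟩
  | .h => ⟨2, -1, 0, 0⟩
  | .v => ⟨2, -1, 0, 0⟩
  | .sw => ⟨0, 0, 1, 0⟩
  | .ne => ⟨0, 0, 1, 0⟩
  | .se => ⟨2, -1, 0, 0⟩
  | .nw => ⟨2, -1, 0, 0⟩
  | .x => ⟨2, -1, 0, 0⟩
  | .y => ⟨0, 0, 0, 0⟩

/-- twice their derivatives -/
def dq : Cell → Q4
  | .o => ⟨0, 0, 0, 0⟩
  | .h => ⟨2, -1, 0, 0⟩
  | .v => ⟨2, -1, 0, 0⟩
  | .sw => ⟨0, 0, 0, -1⟩
  | .ne => ⟨0, 0, 0, -1⟩
  | .se => ⟨4, -2, 0, 0⟩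
  | .nw => ⟨4, -2, 0, 0⟩
  | .x => ⟨2, -3, 0, 0⟩
  | .y => ⟨-2, 2, 0, 0⟩

/-- the weights of the crossing in first order -/
def jq : Cell → Q4
  | .o => ⟨0, 0, 0, 0⟩
  | .h => ⟨0, 1, 0, 0⟩
  | .v => ⟨0, 1, 0, 0⟩
  | .sw => ⟨1, -2, 0, 0⟩
  | .ne => ⟨1, -2, 0, 0⟩
  | .se => ⟨0, 0, 1, 0⟩
  | .nw => ⟨0, 0, 1, 0⟩
  | .x => ⟨0, -2, 0, 0⟩
  | .y => ⟨-2, 1, 0, 0⟩

/-- the weight of a state of the hexagon in first order (times 4) -/
def W4 (t : Fin 3) (s c1 c2 : Cell) : Q4 :=
  if t = 0 then ((dq c1).mul (wq c2)).add ((wq c1).mul (dq c2)).neg else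
  if t = 1 then (jq s).mul ((wq c1).mul (wq c2)) else ((jq s).mul ((wq c1).mul (wq c2))).neg

/-! ### the table -/

/-- the cells -/
def cells : List Cell := [.o, .h, .v, .sw, .ne, .se, .nw, .x, .y]

/-- the states of the hexagon -/
def sts : List (Fin 3 × Cell × Cell × Cell) :=
  [0, 1, 2].flatMap fun t => cells.flatMap fun s => cells.flatMap fun c1 => cells.map fun c2 => (t, s, c1, c2)

/-- the good states of the hexagon with their codes and weights -/
def tb : List (ℕ × Q4) :=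
  (sts.filter fun x => good x.1 x.2.1 x.2.2.1 x.2.2.2).map fun x =>
    (cd (en x.1 x.2.1 x.2.2.1 x.2.2.2), W4 x.1 x.2.1 x.2.2.1 x.2.2.2)

/-- the sum of the weights with the code `n` -/
def sm (n : ℕ) : List (ℕ × Q4) → Q4
  | [] => ⟨0, 0, 0, 0⟩
  | e :: l => if e.1 = n then e.2.add (sm n l) else sm n l

theorem tb_all : (tb.all fun e => decide (sm e.1 tb = ⟨0, 0, 0, 0⟩)) = true := by decide +kernel

theorem ev_sm (z : ℝ) (n : ℕ) (l : List (ℕ × Q4)) :
    (sm n l).ev z = (l.map fun e => if e.1 = n then e.2.ev z else 0).sum := by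
  induction l with
  | nil => simp [sm, Q4.ev]
  | cons e l ih =>
    rw [sm, List.map_cons, List.sum_cons]
    split_ifs with h
    · rw [Q4.ev_add, ih]
    · rw [ih, zero_add]

theorem sum_flatMap' {β γ : Type*} (l : List β) (f : β → List γ) (g : γ → ℝ) :
    ((l.flatMap f).map g).sum = (l.map fun a => ((f a).map g).sum).sum := by
  induction l with
  | nil => rfl
  | cons x l ih => rw [List.flatMap_cons, List.map_append, List.sum_append, ih, List.map_cons, List.sum_cons]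

/-- the sum over the states of the hexagon -/
theorem sum_sts (f : Fin 3 → Cell → Cell → Cell → ℝ) :
    (sts.map fun x => f x.1 x.2.1 x.2.2.1 x.2.2.2).sum =
      ∑ t : Fin 3, ∑ s : Cell, ∑ c1 : Cell, ∑ c2 : Cell, f t s c1 c2 := by
  have hc : ∀ g : Cell → ℝ, ∑ c : Cell, g c = (cells.map g).sum := by
    intro g
    rw [← List.sum_toFinset g (by decide), show cells.toFinset = Finset.univ by decide]
  have ht : ∀ g : Fin 3 → ℝ, ∑ c : Fin 3, g c = (([0, 1, 2] : List (Fin 3)).map g).sum := by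
    intro g
    rw [← List.sum_toFinset g (by decide), show ([0, 1, 2] : List (Fin 3)).toFinset = Finset.univ by decide]
  simp only [ht, hc, sts, sum_flatMap', List.map_map, Function.comp_def]

theorem sum_filter (f : Fin 3 × Cell × Cell × Cell → ℝ) (g : Fin 3 × Cell × Cell × Cell → Bool)
    (l : List (Fin 3 × Cell × Cell × Cell)) :
    ((l.filter g).map f).sum = (l.map fun x => if g x then f x else 0).sum := by
  induction l with
  | nil => rfl
  | cons x l ih =>
    rw [List.filter_cons, List.map_cons, List.sum_cons]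
    split_ifs with h
    · rw [List.map_cons, List.sum_cons, ih]
    · rw [ih, zero_add]

/-- **the table** -/
theorem tab4 (z : ℝ) (q : Fin 6 → Fin 6) :
    ∑ t : Fin 3, ∑ s : Cell, ∑ c1 : Cell, ∑ c2 : Cell,
      (if conn t ![s, c1, c2] = some q then (W4 t s c1 c2).ev z else 0) = 0 := by
  have key : ∑ t : Fin 3, ∑ s : Cell, ∑ c1 : Cell, ∑ c2 : Cell,
      (if conn t ![s, c1, c2] = some q then (W4 t s c1 c2).ev z else 0) = (sm (cd q) tb).ev z := by
    rw [ev_sm, tb, List.map_map, sum_filter, ← sum_sts]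
    congr 1
    apply List.map_congr_left
    intro x _
    simp only [Function.comp]
    by_cases hg : good x.1 x.2.1 x.2.2.1 x.2.2.2
    · rw [if_pos hg]
      by_cases he : cd (en x.1 x.2.1 x.2.2.1 x.2.2.2) = cd q
      · rw [if_pos he, if_pos (conn_eq.2 ⟨hg, cd_inj he⟩)]
      · rw [if_neg he, if_neg]
        intro e
        exact he (by rw [(conn_eq.1 e).2])
    · rw [if_neg hg, if_neg fun e => hg (conn_eq.1 e).1]
  rw [key]
  by_cases h : ∃ e ∈ tb, e.1 = cd q
  · obtain ⟨e, he, hq⟩ := h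
    have h1 := List.all_eq_true.1 tb_all e he
    rw [decide_eq_true_eq, hq] at h1
    rw [h1]
    simp [Q4.ev]
  · rw [ev_sm]
    apply List.sum_eq_zero
    intro y hy
    obtain ⟨e, he, rfl⟩ := List.mem_map.1 hy
    exact if_neg fun e' => h ⟨e, he, e'⟩

/-! ### the real weights -/

open Pool.Agent.ROT.E (W0 W1 J1)

theorem xc2 : (2 * HexObs.xc) ^ 2 = 4 - 2 * √2 := by
  have h2 : √2 ^ 2 = 2 := Real.sq_sqrt (by norm_num)
  have h1 : HexObs.xc ^ 2 = 1 / (2 + √2) := by
    have hc : Real.cos (Real.pi / 8) ^ 2 = (2 + √2) / 4 := by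
      rw [Real.cos_pi_div_eight, div_pow, Real.sq_sqrt (by positivity)]
      norm_num
    unfold HexObs.xc
    rw [div_pow, mul_pow, hc]
    norm_num
  have h3 : (2 : ℝ) + √2 ≠ 0 := by positivity
  rw [mul_pow, h1]
  field_simp
  nlinarith

theorem W0_eq : W0 = Pool.Agent.EXL.hexW HexObs.xc := Pool.Agent.UNI.wR_hex

theorem wt_eq (c : Cell) : 2 * wt c = (wq c).ev HexObs.xc := by
  have h := xc2
  unfold wt
  rw [W0_eq]
  cases c <;> simp only [Cell.wt, wq, Q4.ev, Pool.Agent.EXL.hexW] <;> push_cast <;> nlinarith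

theorem tan8 : Real.tan (Real.pi / 8) = √2 - 1 := by
  have h2 : √2 ^ 2 = 2 := Real.sq_sqrt (by norm_num)
  have hc : 0 < Real.cos (Real.pi / 8) :=
    Real.cos_pos_of_mem_Ioo ⟨by linarith [Real.pi_pos], by linarith [Real.pi_pos]⟩
  have e1 : 2 * Real.sin (Real.pi / 8) * Real.cos (Real.pi / 8) = √2 / 2 := by
    rw [← Real.sin_two_mul, show 2 * (Real.pi / 8) = Real.pi / 4 by ring, Real.sin_pi_div_four]
  have e2 : 2 * Real.cos (Real.pi / 8) ^ 2 - 1 = √2 / 2 := by
    rw [← Real.cos_two_mul, show 2 * (Real.pi / 8) = Real.pi / 4 by ring, Real.cos_pi_div_four]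
  rw [Real.tan_eq_sin_div_cos, div_eq_iff hc.ne']
  have key : (Real.sin (Real.pi / 8) - (√2 - 1) * Real.cos (Real.pi / 8)) * (2 * Real.cos (Real.pi / 8)) = 0 := by
    linear_combination e1 - (√2 - 1) * e2 - (1 / 2) * h2
  rcases mul_eq_zero.1 key with h | h
  · linarith
  · exact absurd h (by positivity)

theorem dwt_eq (c : Cell) : 2 * dwt c = (dq c).ev HexObs.xc := by
  have h := xc2
  have h2 : √2 ^ 2 = 2 := Real.sq_sqrt (by norm_num)
  unfold dwt
  cases c
  · simp [dq, Q4.ev]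
  all_goals
    rw [if_neg (by simp)]
    simp only [Cell.wt, dq, Q4.ev, W1, W0_eq, Pool.Agent.EXL.hexW, tan8]
    push_cast
    nlinarith

theorem jw_eq (c : Cell) : jw c = (jq c).ev HexObs.xc := by
  have e : 1 / Real.cos (Real.pi / 8) = 2 * HexObs.xc := by
    unfold HexObs.xc
    have hc : 0 < Real.cos (Real.pi / 8) :=
      Real.cos_pos_of_mem_Ioo ⟨by linarith [Real.pi_pos], by linarith [Real.pi_pos]⟩
    field_simp
  unfold jw
  cases c
  · simp [jq, Q4.ev]
  all_goals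
    rw [if_neg (by simp)]
    simp only [Cell.wt, jq, Q4.ev, J1, e]
    push_cast
    ring

/-- the weight of a state of the hexagon in first order -/
noncomputable def Wx (t : Fin 3) (s c1 c2 : Cell) : ℝ :=
  if t = 0 then dwt c1 * wt c2 - wt c1 * dwt c2 else
  if t = 1 then jw s * (wt c1 * wt c2) else -(jw s * (wt c1 * wt c2))

theorem Wx_eq (t : Fin 3) (s c1 c2 : Cell) : 4 * Wx t s c1 c2 = (W4 t s c1 c2).ev HexObs.xc := by
  unfold Wx W4
  split_ifs
  · rw [Q4.ev_add, Q4.ev_neg, Q4.ev_mul xc2, Q4.ev_mul xc2, ← dwt_eq, ← dwt_eq, ← wt_eq, ← wt_eq]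
    ring
  · rw [Q4.ev_mul xc2, Q4.ev_mul xc2, ← jw_eq, ← wt_eq, ← wt_eq]
    ring
  · rw [Q4.ev_neg, Q4.ev_mul xc2, Q4.ev_mul xc2, ← jw_eq, ← wt_eq, ← wt_eq]
    ring

theorem tabx (q : Fin 6 → Fin 6) :
    ∑ t : Fin 3, ∑ s : Cell, ∑ c1 : Cell, ∑ c2 : Cell, (if conn t ![s, c1, c2] = some q then Wx t s c1 c2 else 0) = 0 := by
  have h := tab4 HexObs.xc q
  have e : ∀ (t : Fin 3) (s c1 c2 : Cell), (if conn t ![s, c1, c2] = some q then (W4 t s c1 c2).ev HexObs.xc else 0) =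
      4 * (if conn t ![s, c1, c2] = some q then Wx t s c1 c2 else 0) := by
    intro t s c1 c2
    split_ifs
    · exact (Wx_eq t s c1 c2).symm
    · rw [mul_zero]
  simp only [e, ← Finset.mul_sum] at h
  linarith

end Tb

open Tb

/-- **the local identity**: for every pairing `q` of the six ports; `c = (crossing, left cell, right cell)` -/
theorem tab (q : Fin 6 → Fin 6) : TabP q := by
  unfold TabP
  have h := tabx q
  rw [Fin.sum_univ_three] at h
  have e : ∀ (t : Fin 3) (f : Cell → Cell → Cell → ℝ), (∑ c : Cell × Cell × Cell,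
      if conn t ![c.1, c.2.1, c.2.2] = some q then f c.1 c.2.1 c.2.2 else 0) =
      ∑ s : Cell, ∑ c1 : Cell, ∑ c2 : Cell, if conn t ![s, c1, c2] = some q then f s c1 c2 else 0 := by
    intro t f
    rw [Fintype.sum_prod_type]
    refine Finset.sum_congr rfl fun s _ => ?_
    rw [Fintype.sum_prod_type]
  rw [e 0 fun _ c1 c2 => dwt c1 * wt c2 - wt c1 * dwt c2, e 1 fun s c1 c2 => jw s * (wt c1 * wt c2),
    e 2 fun s c1 c2 => jw s * (wt c1 * wt c2)]
  have h2 : ∑ s : Cell, ∑ c1 : Cell, ∑ c2 : Cell, (if conn 2 ![s, c1, c2] = some q then Wx 2 s c1 c2 else 0) =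
      -∑ s : Cell, ∑ c1 : Cell, ∑ c2 : Cell, if conn 2 ![s, c1, c2] = some q then jw s * (wt c1 * wt c2) else 0 := by
    simp only [← Finset.sum_neg_distrib]
    refine Finset.sum_congr rfl fun s _ => Finset.sum_congr rfl fun c1 _ => Finset.sum_congr rfl fun c2 _ => ?_
    split_ifs
    · simp [Wx]
    · rw [neg_zero]
  have h0 : ∑ s : Cell, ∑ c1 : Cell, ∑ c2 : Cell, (if conn 0 ![s, c1, c2] = some q then Wx 0 s c1 c2 else 0) =
      ∑ s : Cell, ∑ c1 : Cell, ∑ c2 : Cell, if conn 0 ![s, c1, c2] = some q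
        then dwt c1 * wt c2 - wt c1 * dwt c2 else 0 := by
    simp [Wx]
  have h1 : ∑ s : Cell, ∑ c1 : Cell, ∑ c2 : Cell, (if conn 1 ![s, c1, c2] = some q then Wx 1 s c1 c2 else 0) =
      ∑ s : Cell, ∑ c1 : Cell, ∑ c2 : Cell, if conn 1 ![s, c1, c2] = some q then jw s * (wt c1 * wt c2) else 0 := by
    simp [Wx]
  rw [h2, h0, h1] at h
  linarith

end Pool.Agent.ROT.L
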