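import Pool.Agent.ROT.LApi
import Pool.Agent.ROT.LExt
import Pool.Agent.ROT.LCap
import Pool.Agent.ROT.LHe
import Pool.Agent.ROT.LHeX
import Pool.Agent.ROT.LRow
import Pool.Agent.ROT.LTab
import Pool.Agent.ROT.LAbel

/-!
# ROT, block L, row L9: the derivative of the measure in the angle is the response of the extreme cells

**`EX_box`**: for a test function `t` (a function `f` of the heights of the members times a pattern) the derivative
`Mdf t.F` of the honeycomb measure in the angle of the columns is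
`Σ M χ0 Σ_i [kk (cT D_T f + cB D_B f) - ((L - 1) QL D_L f + R QR D_R f)]` up to the mass `t.er j s` of the families
which have a second member in the block of an extreme cell.
-/

set_option autoImplicit false

open Finset

namespace Pool.Agent.ROT.L

open Pool.Agent.EXL (Wt)
open Pool.Agent.YBC (Dir)
open Pool.Agent.ROT.E (Cell IsUn Pt W0 W1 J1)

namespace Ex

variable {I : Type}

/-! ### small facts -/

theorem nr_rfl (h : I → Fin 4 → ℤ) : Nr h h := fun i a => by simp

theorem nr_symm {h h' : I → Fin 4 → ℤ} (n : Nr h h') : Nr h' h := fun i a => by rw [abs_sub_comm]; exact n i a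

theorem nr_upd {h : I → Fin 4 → ℤ} {i : I} {a : Fin 4} {x : ℤ} (hx : |h i a - x| ≤ 1) : Nr h (upd h i a x) := by
  classical
  intro k b
  unfold upd
  by_cases hk : k = i
  · subst hk
    rw [Function.update_self]
    by_cases hb : b = a
    · subst hb
      rw [Function.update_self]
      exact hx
    · rw [Function.update_of_ne hb]
      simp
  · rw [Function.update_of_ne hk]
    simp

theorem upd_ne {h : I → Fin 4 → ℤ} {i : I} {a : Fin 4} {x : ℤ} (hx : h i a ≠ x) : upd h i a x ≠ h := by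
  classical
  intro e
  have := congrFun (congrFun e i) a
  unfold upd at this
  rw [Function.update_self, Function.update_self] at this
  exact hx this.symm

/-- the value vanishes off the neighbourhood -/
theorem f_zero (t : Tst I) {h h' : I → Fin 4 → ℤ} (n : Nr h h') (hd : ¬t.Dm h') : t.f h = 0 := by
  by_contra h0
  exact hd (t.dm h h' n h0)

theorem om_nn (t : Tst I) [Nonempty I] : 0 ≤ t.ω := (abs_nonneg _).trans (t.osc (fun _ _ => 0) (fun _ _ => 0) (nr_rfl _))

theorem om_nn' (t : Tst I) : 0 ≤ t.ω := (abs_nonneg _).trans (t.osc (fun _ _ => 0) (fun _ _ => 0) (nr_rfl _))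

theorem tau_abs (c : Cell) : |tau c| ≤ 4 := by
  have h2 : √2 ≤ 3 / 2 := by
    rw [Real.sqrt_le_left (by norm_num)]
    norm_num
  have h0 : 0 ≤ √2 := Real.sqrt_nonneg 2
  cases c <;> simp only [tau, abs_le] <;> constructor <;> linarith

theorem kk_bd : 0 ≤ kk ∧ kk ≤ 7 := by
  rw [kk_eq]
  have h2 : √2 ≤ 3 / 2 := by
    rw [Real.sqrt_le_left (by norm_num)]
    norm_num
  have h0 : 0 ≤ √2 := Real.sqrt_nonneg 2
  constructor <;> linarith

/-! ### the pieces -/

open Classical in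
/-- left and right terms -/
noncomputable def lr (t : Tst I) (j s : ℤ) (γ : FX I) (i : I) : ℝ :=
  (if ht γ i 0 = j + 1 ∧ γ (some (j + 1, s)) i ≠ .o then
    -(tau (γ (some (j + 1, s)) i)) * (t.f (ht γ) - t.f (upd (ht γ) i 0 j)) else 0) +
  (if ht γ i 1 = j ∧ γ (some (j, s)) i ≠ .o then
    tau (γ (some (j, s)) i) * (t.f (ht γ) - t.f (upd (ht γ) i 1 (j + 1))) else 0)

open Classical in
/-- top and bottom terms -/
noncomputable def tb (t : Tst I) (j s : ℤ) (γ : FX I) (i : I) : ℝ :=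
  (if CupT γ i j ∧ ht γ i 3 = s then kk * (t.f (ht γ) - t.f (upd (ht γ) i 3 (s - 1))) else 0) +
  (if CupB γ i j ∧ ht γ i 2 = s - 1 then kk * (t.f (upd (ht γ) i 2 s) - t.f (ht γ)) else 0)

open Classical in
noncomputable def pa (t : Tst I) (j s : ℤ) (γ : FX I) : ℝ :=
  if Fam g0 γ then (dM (j, s) γ - dM (j + 1, s) γ) * (t.F γ - t.G j s γ) else 0

open Classical in
noncomputable def pa0 [Fintype I] (t : Tst I) (j s : ℤ) (γ : FX I) : ℝ :=
  if Fam g0 γ then M γ * t.χ0 γ * ∑ i, lr t j s γ i else 0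

open Classical in
noncomputable def pc0 [Fintype I] (t : Tst I) (j s : ℤ) (γ : FX I) : ℝ :=
  if Fam g0 γ then M γ * t.χ0 γ * ∑ i, tb t j s γ i else 0

open Classical in
noncomputable def pb (t : Tst I) (j s : ℤ) (γ : FX I) : ℝ :=
  if Fam (gX j s) γ then Jw γ * (t.G j s γ - t.G j (s - 1) γ) else 0

open Classical in
/-- the caps, without the crossing -/
noncomputable def cpT (t : Tst I) (j s : ℤ) (i : I) (γ : FX I) : ℝ :=
  if γ ∈ CapS j s i then Jw γ * t.χ j γ * (t.f (upd (ht γ) i 3 s) - t.f (ht γ)) else 0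

open Classical in
noncomputable def cpB (t : Tst I) (j s : ℤ) (i : I) (γ : FX I) : ℝ :=
  if γ ∈ CapB j s i then Jw γ * t.χ j γ * (t.f (ht γ) - t.f (upd (ht γ) i 2 (s - 1))) else 0

open Classical in
noncomputable def cuT (t : Tst I) (j s : ℤ) (i : I) (γ : FX I) : ℝ :=
  if γ ∈ CupS j s i then M γ * t.χ0 γ * (kk * (t.f (ht γ) - t.f (upd (ht γ) i 3 (s - 1)))) else 0

open Classical in
noncomputable def cuB (t : Tst I) (j s : ℤ) (i : I) (γ : FX I) : ℝ :=
  if γ ∈ CupB' j s i then M γ * t.χ0 γ * (kk * (t.f (upd (ht γ) i 2 s) - t.f (ht γ))) else 0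

open Classical in
noncomputable def e0 (t : Tst I) (j s : ℤ) (γ : FX I) : ℝ :=
  if Fam g0 γ ∧ Bad j s γ ∧ t.Dm (ht γ) then M γ + |dM (j, s) γ| + |dM (j + 1, s) γ| else 0

open Classical in
noncomputable def eX (t : Tst I) (j s : ℤ) (γ : FX I) : ℝ :=
  if Fam (gX j s) γ ∧ Bad j s γ ∧ t.Dm (ht γ) then |Jw γ| else 0

theorem e0_nn (t : Tst I) (j s : ℤ) (γ : FX I) : 0 ≤ e0 t j s γ := by
  unfold e0
  split_ifs
  · have := M_nonneg γ
    positivity
  · exact le_rfl

theorem eX_nn (t : Tst I) (j s : ℤ) (γ : FX I) : 0 ≤ eX t j s γ := by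
  unfold eX
  split_ifs
  · positivity
  · exact le_rfl

/-- off the neighbourhood everything vanishes -/
theorem lr_zero (t : Tst I) {j s : ℤ} {γ : FX I} (hd : ¬t.Dm (ht γ)) (i : I) : lr t j s γ i = 0 := by
  have h0 := f_zero t (nr_rfl _) hd
  have h1 : ht γ i 0 = j + 1 → t.f (upd (ht γ) i 0 j) = 0 := fun h =>
    f_zero t (nr_symm (nr_upd (by rw [h]; simp))) hd
  have h2 : ht γ i 1 = j → t.f (upd (ht γ) i 1 (j + 1)) = 0 := fun h =>
    f_zero t (nr_symm (nr_upd (by rw [h]; simp))) hd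
  unfold lr
  split_ifs with a b b
  · rw [h0, h1 a.1, h2 b.1]; ring
  · rw [h0, h1 a.1]; ring
  · rw [h0, h2 b.1]; ring
  · ring

theorem tb_zero (t : Tst I) {j s : ℤ} {γ : FX I} (hd : ¬t.Dm (ht γ)) (i : I) : tb t j s γ i = 0 := by
  have h0 := f_zero t (nr_rfl _) hd
  have h1 : ht γ i 3 = s → t.f (upd (ht γ) i 3 (s - 1)) = 0 := fun h =>
    f_zero t (nr_symm (nr_upd (by rw [h]; simp))) hd
  have h2 : ht γ i 2 = s - 1 → t.f (upd (ht γ) i 2 s) = 0 := fun h =>
    f_zero t (nr_symm (nr_upd (by rw [h]; simp))) hd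
  unfold tb
  split_ifs with a b b
  · rw [h0, h1 a.2, h2 b.2]; ring
  · rw [h0, h1 a.2]; ring
  · rw [h0, h2 b.2]; ring
  · ring

theorem lr_abs (t : Tst I) (j s : ℤ) (γ : FX I) (i : I) : |lr t j s γ i| ≤ 8 * t.ω := by
  classical
  have hw := om_nn' t
  have key : ∀ (p : Prop) [Decidable p] (c : Cell) (x y : ℝ), (p → |x - y| ≤ t.ω) → ∀ e : ℝ, |e| = 1 →
      |(if p then (e * tau c) * (x - y) else 0)| ≤ 4 * t.ω := by
    intro p _ c x y h e he
    split_ifs with hp
    · rw [abs_mul, abs_mul, he, one_mul]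
      exact mul_le_mul (tau_abs c) (h hp) (abs_nonneg _) (by norm_num)
    · rw [abs_zero]; positivity
  unfold lr
  refine (abs_add_le _ _).trans ?_
  have k1 := key (ht γ i 0 = j + 1 ∧ γ (some (j + 1, s)) i ≠ .o) (γ (some (j + 1, s)) i) (t.f (ht γ))
    (t.f (upd (ht γ) i 0 j)) (fun h => t.osc _ _ (nr_upd (by rw [h.1]; simp))) (-1) (by simp)
  have k2 := key (ht γ i 1 = j ∧ γ (some (j, s)) i ≠ .o) (γ (some (j, s)) i) (t.f (ht γ))
    (t.f (upd (ht γ) i 1 (j + 1))) (fun h => t.osc _ _ (nr_upd (by rw [h.1]; simp))) 1 (by simp)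
  rw [neg_one_mul] at k1
  rw [one_mul] at k2
  refine (add_le_add (le_trans (le_of_eq ?_) k1) (le_trans (le_of_eq ?_) k2)).trans (by linarith)
  · congr
  · congr

theorem tb_abs (t : Tst I) (j s : ℤ) (γ : FX I) (i : I) : |tb t j s γ i| ≤ 14 * t.ω := by
  classical
  have hw := om_nn' t
  have hk := kk_bd
  have key : ∀ (p : Prop) [Decidable p] (x y : ℝ), (p → |x - y| ≤ t.ω) →
      |(if p then kk * (x - y) else 0)| ≤ 7 * t.ω := by
    intro p _ x y h
    split_ifs with hp
    · rw [abs_mul, abs_of_nonneg hk.1]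
      exact mul_le_mul hk.2 (h hp) (abs_nonneg _) (by norm_num)
    · rw [abs_zero]; positivity
  unfold tb
  refine (abs_add_le _ _).trans ?_
  have k1 := key (CupT γ i j ∧ ht γ i 3 = s) (t.f (ht γ)) (t.f (upd (ht γ) i 3 (s - 1)))
    (fun h => t.osc _ _ (nr_upd (by rw [h.2]; simp)))
  have k2 := key (CupB γ i j ∧ ht γ i 2 = s - 1) (t.f (upd (ht γ) i 2 s)) (t.f (ht γ))
    (fun h => t.osc _ _ (nr_symm (nr_upd (by rw [h.2]; simp))))
  refine (add_le_add (le_trans (le_of_eq ?_) k1) (le_trans (le_of_eq ?_) k2)).trans (by linarith)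
  · congr
  · congr

/-! ### the left and right terms -/

/-- others out of the block are out of the region -/
theorem rg_of_vb {j s : ℤ} {γ : FX I} {k : I} (h : ¬Vb j s γ k) : ∀ v ∈ Rg j s, γ v k = .o := by
  intro v hv
  unfold Vb at h
  push Not at h
  rcases hv with rfl | rfl | rfl
  · exact h.1
  · exact h.2 (j, s) (Or.inr (Or.inr (Or.inl rfl)))
  · exact h.2 (j + 1, s) (Or.inr (Or.inr (Or.inr rfl)))

theorem pa_eq [Fintype I] (t : Tst I) {j s : ℤ} {γ : FX I} (hn : ¬(Fam g0 γ ∧ Bad j s γ ∧ t.Dm (ht γ))) :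
    pa t j s γ = pa0 t j s γ := by
  classical
  unfold pa pa0
  by_cases hf : Fam g0 γ
  · rw [if_pos hf, if_pos hf]
    by_cases hd : t.Dm (ht γ)
    · have hb : ¬Bad j s γ := fun h => hn ⟨hf, h, hd⟩
      have hw := t.wd _ hd
      obtain ⟨hz, hg⟩ := wd_gd hf hw
      have hχ := t.c0 j γ hf hw
      -- a left or right term makes the block free
      have exL : ∀ i, ht γ i 0 = j + 1 → γ (some (j + 1, s)) i ≠ .o → ∀ k, k ≠ i → ¬Vb j s γ k := by
        intro i h1 h2 k hk hv
        refine hb ⟨i, k, hk.symm, ⟨Or.inr ⟨(j + 1, s), Or.inr (Or.inr (Or.inr rfl)), h2⟩,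
          Or.inl fun p _ hp => ?_⟩, hv⟩
        have : ht γ i 0 ≤ p.1 := hL_le (mem_cl.2 hp)
        omega
      have exR : ∀ i, ht γ i 1 = j → γ (some (j, s)) i ≠ .o → ∀ k, k ≠ i → ¬Vb j s γ k := by
        intro i h1 h2 k hk hv
        refine hb ⟨i, k, hk.symm, ⟨Or.inr ⟨(j, s), Or.inr (Or.inr (Or.inl rfl)), h2⟩,
          Or.inr (Or.inl fun p _ hp => ?_)⟩, hv⟩
        have : p.1 ≤ ht γ i 1 := le_hR (mem_cl.2 hp)
        omega
      -- one member alone
      have one : ∀ i, (∀ k, k ≠ i → ¬Vb j s γ k) → ∑ k, lr t j s γ k = lr t j s γ i := by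
        intro i hi
        refine Finset.sum_eq_single i (fun k _ hk => ?_) (fun h => (h (Finset.mem_univ _)).elim)
        have hr := rg_of_vb (hi k hk)
        unfold lr
        rw [if_neg fun h => h.2 (hr _ (Or.inr (Or.inr rfl))), if_neg fun h => h.2 (hr _ (Or.inr (Or.inl rfl))),
          add_zero]
      by_cases he0 : he j s γ = ht γ
      · have e1 : t.F γ - t.G j s γ = 0 := by
          unfold Tst.F Tst.G
          rw [he0, hχ, sub_self]
        rw [e1, mul_zero]
        have e2 : ∀ i, lr t j s γ i = 0 := by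
          intro i
          unfold lr
          rw [if_neg, if_neg, add_zero]
          · rintro ⟨h1, h2⟩
            have := he_right hf (hg j s) (exR i h1 h2) h1 h2
            rw [he0] at this
            exact upd_ne (by rw [h1]; omega) this.symm
          · rintro ⟨h1, h2⟩
            have := he_left hf (hg j s) (exL i h1 h2) h1 h2
            rw [he0] at this
            exact upd_ne (by rw [h1]; omega) this.symm
        rw [Finset.sum_eq_zero fun i _ => e2 i, mul_zero]
      · obtain ⟨i, hi, ⟨h1, h2, h3⟩ | ⟨h1, h2, h3⟩⟩ := he_F0 hf (hg j s) he0 hb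
        · rw [one i hi, dM_left hf h1 h2 (fun k hk v hv => rg_of_vb (hi k hk) v hv)]
          unfold Tst.F Tst.G lr
          rw [h3, hχ, if_pos ⟨h1, h2⟩, if_neg (by rintro ⟨h4, -⟩; have := (hw i).1; omega)]
          ring
        · rw [one i hi, dM_right hf h1 h2 (fun k hk v hv => rg_of_vb (hi k hk) v hv)]
          unfold Tst.F Tst.G lr
          rw [h3, hχ, if_neg (by rintro ⟨h4, -⟩; have := (hw i).1; omega), if_pos ⟨h1, h2⟩]
          ring
    · rw [Finset.sum_eq_zero fun i _ => lr_zero t hd i, mul_zero]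
      have e1 : t.F γ = 0 := by
        unfold Tst.F
        rw [f_zero t (nr_rfl _) hd, zero_mul]
      have e2 : t.G j s γ = 0 := by
        unfold Tst.G
        by_cases h0 : t.f (he j s γ) = 0
        · rw [h0, zero_mul]
        · exfalso
          have hg := wd_gdX (j := j) (r := s) (t.wd _ (t.dm _ _ (nr_rfl _) h0))
          exact hd (t.dm _ _ (he_nr0 hf hg) h0)
      rw [e1, e2]
      ring
  · rw [if_neg hf, if_neg hf]

theorem pa_bd [Fintype I] (t : Tst I) (j s : ℤ) (γ : FX I) :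
    |pa t j s γ - pa0 t j s γ| ≤ 8 * (Fintype.card I + 1) * t.ω * e0 t j s γ := by
  classical
  by_cases hn : Fam g0 γ ∧ Bad j s γ ∧ t.Dm (ht γ)
  · obtain ⟨hf, hb, hd⟩ := hn
    have hw := t.wd _ hd
    obtain ⟨hz, hg⟩ := wd_gd hf hw
    have hom := om_nn' t
    have hM := M_nonneg γ
    unfold pa pa0 e0
    rw [if_pos hf, if_pos hf, if_pos ⟨hf, hb, hd⟩]
    have h1 : |(dM (j, s) γ - dM (j + 1, s) γ) * (t.F γ - t.G j s γ)| ≤
        (|dM (j, s) γ| + |dM (j + 1, s) γ|) * t.ω := by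
      rw [abs_mul]
      refine mul_le_mul (abs_sub _ _) ?_ (abs_nonneg _) (by positivity)
      unfold Tst.F Tst.G
      rw [t.c0 j γ hf hw, ← sub_mul, abs_mul]
      have := t.osc _ _ (nr_symm (he_nr0 hf (hg j s)))
      calc _ ≤ t.ω * 1 := mul_le_mul this (t.b0 γ) (abs_nonneg _) hom
        _ = _ := mul_one _
    have h2 : |M γ * t.χ0 γ * ∑ i, lr t j s γ i| ≤ M γ * (Fintype.card I * (8 * t.ω)) := by
      rw [abs_mul, abs_mul, abs_of_nonneg hM]
      have h3 : |∑ i, lr t j s γ i| ≤ Fintype.card I * (8 * t.ω) := by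
        refine (Finset.abs_sum_le_sum_abs _ _).trans ?_
        refine (Finset.sum_le_sum fun i _ => lr_abs t j s γ i).trans ?_
        rw [Finset.sum_const, nsmul_eq_mul]
        rfl
      calc _ ≤ M γ * 1 * (Fintype.card I * (8 * t.ω)) := by
            gcongr
            exact t.b0 γ
        _ = _ := by ring
    refine (abs_sub _ _).trans ?_
    have hc : (0 : ℝ) ≤ Fintype.card I := Nat.cast_nonneg _
    have a1 := abs_nonneg (dM (j, s) γ)
    have a2 := abs_nonneg (dM (j + 1, s) γ)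
    have k1 : 0 ≤ Fintype.card I * t.ω * (|dM (j, s) γ| + |dM (j + 1, s) γ|) := by positivity
    have k2 : 0 ≤ t.ω * (|dM (j, s) γ| + |dM (j + 1, s) γ|) := by positivity
    have k3 : 0 ≤ t.ω * M γ := by positivity
    nlinarith [h1, h2]
  · rw [pa_eq t hn, sub_self, abs_zero]
    have := e0_nn t j s γ
    have := om_nn' t
    positivity

/-! ### the caps and cups -/

theorem pb_eq [Fintype I] (t : Tst I) {j s : ℤ} {γ : FX I} (hn : ¬(Fam (gX j s) γ ∧ Bad j s γ ∧ t.Dm (ht γ))) :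
    pb t j s γ = ∑ i, (cpT t j s i γ + cpB t j s i γ) := by
  classical
  have hfT : ∀ i, γ ∈ CapS j s i → Fam (gX j s) γ := fun i h => h.1
  have hfB : ∀ i, γ ∈ CapB j s i → Fam (gX j s) γ := fun i h => h.1
  by_cases hf : Fam (gX j s) γ
  · obtain ⟨n1, n2, n3⟩ := he_nrX hf
    by_cases hd : t.Dm (ht γ)
    · have hb : ¬Bad j s γ := fun h => hn ⟨hf, h, hd⟩
      unfold pb
      rw [if_pos hf]
      by_cases hx : γ none = 0
      · have hJ : Jw γ = 0 := by
          unfold Jw
          rw [hx]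
          have : wfg jw (0 : I → Cell) = 0 := by
            have := wfg_un (θ := jw) (E.Lab.un_zero (I := I))
            exact this.trans (by simp [jw])
          rw [this, mul_zero]
        rw [hJ, zero_mul, eq_comm]
        refine Finset.sum_eq_zero fun i _ => ?_
        unfold cpT cpB
        rw [hJ]
        simp
      · have one : ∀ i, (γ none i ≠ .o) → (∀ k, k ≠ i → ¬Vb j s γ k) →
            ∑ k, (cpT t j s k γ + cpB t j s k γ) = cpT t j s i γ + cpB t j s i γ := by
          intro i hi hk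
          refine Finset.sum_eq_single i (fun k _ hki => ?_) (fun h => (h (Finset.mem_univ _)).elim)
          have hr : γ none k = .o := rg_of_vb (hk k hki) none (Or.inl rfl)
          unfold cpT cpB
          rw [if_neg, if_neg, add_zero]
          · rintro ⟨-, h, -⟩
            rw [hr] at h
            exact absurd h (by decide)
          · rintro ⟨-, h, -⟩
            rw [hr] at h
            exact absurd h (by decide)
        by_cases heq : he j s γ = he j (s - 1) γ
        · have e1 : t.G j s γ - t.G j (s - 1) γ = 0 := by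
            unfold Tst.G
            rw [heq, sub_self]
          rw [e1, mul_zero, eq_comm]
          refine Finset.sum_eq_zero fun i _ => ?_
          unfold cpT cpB
          rw [if_neg, if_neg, add_zero]
          · rintro ⟨-, h1, h2, h3⟩
            obtain ⟨a, b⟩ := he_cup hf h3 h1 h2
            rw [a, b] at heq
            exact upd_ne (by rw [h2]; omega) heq.symm
          · rintro ⟨-, h1, h2, h3⟩
            obtain ⟨a, b⟩ := he_cap hf h3 h1 h2
            rw [a, b] at heq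
            exact upd_ne (by rw [h2]; omega) heq
        · obtain ⟨i, hi, ⟨h1, h2, h3, h4⟩ | ⟨h1, h2, h3, h4⟩⟩ := he_gX hf hx heq hb
          · rw [one i (by rw [h1]; decide) hi]
            unfold Tst.G cpT cpB
            rw [h3, h4, if_pos ⟨hf, h1, h2, hi⟩, if_neg]
            · ring
            · rintro ⟨-, h, -⟩
              rw [h1] at h
              exact absurd h (by decide)
          · rw [one i (by rw [h1]; decide) hi]
            unfold Tst.G cpT cpB
            rw [h3, h4, if_neg, if_pos ⟨hf, h1, h2, hi⟩]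
            · ring
            · rintro ⟨-, h, -⟩
              rw [h1] at h
              exact absurd h (by decide)
    · have z1 := f_zero t n1 hd
      have z2 := f_zero t n2 hd
      have z0 := f_zero t (nr_rfl _) hd
      unfold pb
      rw [if_pos hf]
      have e1 : t.G j s γ - t.G j (s - 1) γ = 0 := by
        unfold Tst.G
        rw [z1, z2]
        ring
      rw [e1, mul_zero, eq_comm]
      refine Finset.sum_eq_zero fun i _ => ?_
      unfold cpT cpB
      have z3 : γ ∈ CapS j s i → t.f (upd (ht γ) i 3 s) = 0 := fun h =>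
        f_zero t (nr_symm (nr_upd (by rw [h.2.2.1]; simp))) hd
      have z4 : γ ∈ CapB j s i → t.f (upd (ht γ) i 2 (s - 1)) = 0 := fun h =>
        f_zero t (nr_symm (nr_upd (by rw [h.2.2.1]; simp))) hd
      split_ifs with a b b
      · rw [z0, z3 a, z4 b]; ring
      · rw [z0, z3 a]; ring
      · rw [z0, z4 b]; ring
      · ring
  · unfold pb
    rw [if_neg hf, eq_comm]
    refine Finset.sum_eq_zero fun i _ => ?_
    unfold cpT cpB
    rw [if_neg fun h => hf (hfT i h), if_neg fun h => hf (hfB i h), add_zero]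

/-- in the bad event there is no clean cap -/
theorem bad_cp (t : Tst I) {j s : ℤ} {γ : FX I} (hb : Bad j s γ) (i : I) : cpT t j s i γ = 0 ∧ cpB t j s i γ = 0 := by
  have key : (∀ k, k ≠ i → ¬Vb j s γ k) → False := by
    intro h
    obtain ⟨a, b, hab, hx, hv⟩ := hb
    have hbi : b = i := by
      by_contra hne
      exact h b hne hv
    subst hbi
    exact h a hab hx.1
  constructor
  · unfold cpT
    rw [if_neg fun h => key h.2.2.2]
  · unfold cpB
    rw [if_neg fun h => key h.2.2.2]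

theorem pb_bd [Fintype I] (t : Tst I) (j s : ℤ) (γ : FX I) :
    |pb t j s γ - ∑ i, (cpT t j s i γ + cpB t j s i γ)| ≤ t.ω * eX t j s γ := by
  classical
  by_cases hn : Fam (gX j s) γ ∧ Bad j s γ ∧ t.Dm (ht γ)
  · obtain ⟨hf, hb, hd⟩ := hn
    rw [Finset.sum_eq_zero (fun i _ => by rw [(bad_cp t hb i).1, (bad_cp t hb i).2, add_zero]), sub_zero]
    unfold pb eX
    rw [if_pos hf, if_pos ⟨hf, hb, hd⟩, abs_mul, mul_comm]
    refine mul_le_mul_of_nonneg_right ?_ (abs_nonneg _)
    unfold Tst.G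
    rw [← sub_mul, abs_mul]
    have hom := om_nn' t
    calc _ ≤ t.ω * 1 := mul_le_mul (t.osc _ _ (he_nrX hf).2.2) (t.b1 j γ) (abs_nonneg _) hom
      _ = _ := mul_one _
  · rw [pb_eq t hn, sub_self, abs_zero]
    have := eX_nn t j s γ
    have := om_nn' t
    positivity

/-! ### from the caps to the minimal cups -/

theorem ht_nr3 {s : ℤ} {i : I} {γ γ' : FX I} (h3 : ht γ i 3 = s - 1) (h : ht γ' = upd (ht γ) i 3 s) :
    Nr (ht γ) (ht γ') := by
  rw [h]
  exact nr_upd (by rw [h3]; simp)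

theorem sum_cpT (t : Tst I) (j s : ℤ) (i : I) : ∑' γ, cpT t j s i γ = ∑' γ, cuT t j s i γ := by
  classical
  obtain ⟨e, he⟩ := cap_cup (I := I) j s i
  have e1 : ∑' γ, cpT t j s i γ = ∑' γ : CapS j s i, cpT t j s i γ := by
    rw [tsum_subtype (CapS j s i) (cpT t j s i)]
    refine tsum_congr fun γ => ?_
    by_cases h : γ ∈ CapS j s i
    · rw [Set.indicator_of_mem h]
    · rw [Set.indicator_of_notMem h, cpT, if_neg h]
  have e2 : ∑' γ, cuT t j s i γ = ∑' γ : CupS j s i, cuT t j s i γ := by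
    rw [tsum_subtype (CupS j s i) (cuT t j s i)]
    refine tsum_congr fun γ => ?_
    by_cases h : γ ∈ CupS j s i
    · rw [Set.indicator_of_mem h]
    · rw [Set.indicator_of_notMem h, cuT, if_neg h]
  rw [e1, e2, ← e.tsum_eq]
  refine tsum_congr fun γ => ?_
  obtain ⟨h1, h2, h3, h4⟩ := he γ
  have hT : ht γ.1 i 3 = s - 1 := γ.2.2.2.1
  have n := ht_nr3 hT h2
  unfold cpT cuT
  rw [if_pos γ.2, if_pos (e γ).2, h1, ← h3, ← h2]
  by_cases hd : t.Dm (ht (e γ).1)
  · have hg : t.χ j γ.1 = t.χ0 (e γ).1 := by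
      rw [← t.c0 j _ (e γ).2.1 (t.wd _ hd)]
      exact t.cst j s _ (Or.inr (Or.inl rfl)) _ (Or.inl rfl) _ _ h4
    rw [hg]
    ring
  · rw [f_zero t (nr_rfl _) hd, f_zero t n hd]
    ring

theorem sum_cpB (t : Tst I) (j s : ℤ) (i : I) : ∑' γ, cpB t j s i γ = ∑' γ, cuB t j s i γ := by
  classical
  obtain ⟨e, he⟩ := cap_cupB (I := I) j s i
  have e1 : ∑' γ, cpB t j s i γ = ∑' γ : CapB j s i, cpB t j s i γ := by
    rw [tsum_subtype (CapB j s i) (cpB t j s i)]
    refine tsum_congr fun γ => ?_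
    by_cases h : γ ∈ CapB j s i
    · rw [Set.indicator_of_mem h]
    · rw [Set.indicator_of_notMem h, cpB, if_neg h]
  have e2 : ∑' γ, cuB t j s i γ = ∑' γ : CupB' j s i, cuB t j s i γ := by
    rw [tsum_subtype (CupB' j s i) (cuB t j s i)]
    refine tsum_congr fun γ => ?_
    by_cases h : γ ∈ CupB' j s i
    · rw [Set.indicator_of_mem h]
    · rw [Set.indicator_of_notMem h, cuB, if_neg h]
  rw [e1, e2, ← e.tsum_eq]
  refine tsum_congr fun γ => ?_
  obtain ⟨h1, h2, h3, h4⟩ := he γ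
  have hB : ht γ.1 i 2 = s := γ.2.2.2.1
  have n : Nr (ht γ.1) (ht (e γ).1) := by
    rw [h2]
    exact nr_upd (by rw [hB]; simp)
  unfold cpB cuB
  rw [if_pos γ.2, if_pos (e γ).2, h1, ← h3, ← h2]
  by_cases hd : t.Dm (ht (e γ).1)
  · have hg : t.χ j γ.1 = t.χ0 (e γ).1 := by
      rw [← t.c0 j _ (e γ).2.1 (t.wd _ hd)]
      refine t.cst j (s - 1) _ (Or.inr (Or.inr ?_)) _ (Or.inl rfl) _ _ h4
      rw [sub_add_cancel]
      rfl
    rw [hg]
    ring
  · rw [f_zero t (nr_rfl _) hd, f_zero t n hd]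
    ring

open Classical in
theorem cuT_abs (t : Tst I) (j s : ℤ) (i : I) (γ : FX I) : |cuT t j s i γ| ≤ 7 * t.ω * M γ := by
  have hw := om_nn' t
  have hM := M_nonneg γ
  unfold cuT
  split_ifs with h
  · rw [abs_mul, abs_mul, abs_mul, abs_of_nonneg hM, abs_of_nonneg kk_bd.1]
    have h1 := t.osc _ _ (nr_upd (h := ht γ) (i := i) (a := 3) (x := s - 1) (by rw [h.2.2.1]; simp))
    calc _ ≤ M γ * 1 * (7 * t.ω) := mul_le_mul (mul_le_mul_of_nonneg_left (t.b0 γ) hM)
          (mul_le_mul kk_bd.2 h1 (abs_nonneg _) (by norm_num)) (mul_nonneg kk_bd.1 (abs_nonneg _))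
          (by simpa using hM)
      _ = _ := by ring
  · rw [abs_zero]; positivity

open Classical in
theorem cuB_abs (t : Tst I) (j s : ℤ) (i : I) (γ : FX I) : |cuB t j s i γ| ≤ 7 * t.ω * M γ := by
  have hw := om_nn' t
  have hM := M_nonneg γ
  unfold cuB
  split_ifs with h
  · rw [abs_mul, abs_mul, abs_mul, abs_of_nonneg hM, abs_of_nonneg kk_bd.1]
    have h1 := t.osc _ _ (nr_symm (nr_upd (h := ht γ) (i := i) (a := 2) (x := s) (by rw [h.2.2.1]; simp)))
    calc _ ≤ M γ * 1 * (7 * t.ω) := mul_le_mul (mul_le_mul_of_nonneg_left (t.b0 γ) hM)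
          (mul_le_mul kk_bd.2 h1 (abs_nonneg _) (by norm_num)) (mul_nonneg kk_bd.1 (abs_nonneg _))
          (by simpa using hM)
      _ = _ := by ring
  · rw [abs_zero]; positivity

theorem pc_eq [Fintype I] (t : Tst I) {j s : ℤ} {γ : FX I} (hn : ¬(Fam g0 γ ∧ Bad j s γ ∧ t.Dm (ht γ))) :
    ∑ i, (cuT t j s i γ + cuB t j s i γ) = pc0 t j s γ := by
  classical
  unfold pc0
  by_cases hf : Fam g0 γ
  · rw [if_pos hf]
    by_cases hd : t.Dm (ht γ)
    · have hb : ¬Bad j s γ := fun h => hn ⟨hf, h, hd⟩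
      rw [Finset.mul_sum]
      refine Finset.sum_congr rfl fun i _ => ?_
      have hT : γ ∈ CupS j s i ↔ CupT γ i j ∧ ht γ i 3 = s := by
        refine ⟨fun h => ⟨h.2.1, h.2.2.1⟩, fun h => ⟨hf, h.1, h.2, fun k hk hv => ?_⟩⟩
        have h1 := h.1.1
        rw [h.2] at h1
        refine hb ⟨i, k, hk.symm, ⟨Or.inr ⟨(j, s), Or.inr (Or.inr (Or.inl rfl)), by rw [h1]; decide⟩,
          Or.inr (Or.inr (Or.inl fun p hpb hp => ?_))⟩, hv⟩
        have h2 : p.2 ≤ ht γ i 3 := le_hT (mem_cl.2 hp)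
        by_contra h3
        have h4 : p.2 = ht γ i 3 := by omega
        rw [h.2] at h4
        rcases h.1.2.2 p hp (by rw [h4, h.2]) with h5 | h5
        · exact hpb (Or.inr (Or.inr (Or.inl (Prod.ext h5 h4))))
        · exact hpb (Or.inr (Or.inr (Or.inr (Prod.ext h5 h4))))
      have hB : γ ∈ CupB' j s i ↔ CupB γ i j ∧ ht γ i 2 = s - 1 := by
        refine ⟨fun h => ⟨h.2.1, h.2.2.1⟩, fun h => ⟨hf, h.1, h.2, fun k hk hv => ?_⟩⟩
        have h1 := h.1.1
        rw [h.2] at h1
        refine hb ⟨i, k, hk.symm, ⟨Or.inr ⟨(j, s - 1), Or.inl rfl, by rw [h1]; decide⟩,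
          Or.inr (Or.inr (Or.inr fun p hpb hp => ?_))⟩, hv⟩
        have h2 : ht γ i 2 ≤ p.2 := hB_le (mem_cl.2 hp)
        by_contra h3
        have h4 : p.2 = ht γ i 2 := by omega
        rw [h.2] at h4
        rcases h.1.2.2 p hp (by rw [h4, h.2]) with h5 | h5
        · exact hpb (Or.inl (Prod.ext h5 h4))
        · exact hpb (Or.inr (Or.inl (Prod.ext h5 h4)))
      unfold cuT cuB tb
      simp only [hT, hB]
      split_ifs <;> ring
    · rw [Finset.sum_eq_zero (fun i _ => tb_zero t hd i), mul_zero]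
      refine Finset.sum_eq_zero fun i _ => ?_
      have z0 := f_zero t (nr_rfl _) hd
      have z1 : γ ∈ CupS j s i → t.f (upd (ht γ) i 3 (s - 1)) = 0 := fun h =>
        f_zero t (nr_symm (nr_upd (by rw [h.2.2.1]; simp))) hd
      have z2 : γ ∈ CupB' j s i → t.f (upd (ht γ) i 2 s) = 0 := fun h =>
        f_zero t (nr_symm (nr_upd (by rw [h.2.2.1]; simp))) hd
      unfold cuT cuB
      split_ifs with a b b
      · rw [z0, z1 a, z2 b]; ring
      · rw [z0, z1 a]; ring
      · rw [z0, z2 b]; ring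
      · ring
  · rw [if_neg hf]
    refine Finset.sum_eq_zero fun i _ => ?_
    unfold cuT cuB
    rw [if_neg fun h => hf h.1, if_neg fun h => hf h.1, add_zero]

theorem pc_bd [Fintype I] (t : Tst I) (j s : ℤ) (γ : FX I) :
    |∑ i, (cuT t j s i γ + cuB t j s i γ) - pc0 t j s γ| ≤ 28 * Fintype.card I * t.ω * e0 t j s γ := by
  classical
  by_cases hn : Fam g0 γ ∧ Bad j s γ ∧ t.Dm (ht γ)
  · obtain ⟨hf, hb, hd⟩ := hn
    have hom := om_nn' t
    have hM := M_nonneg γ
    have h1 : |∑ i, (cuT t j s i γ + cuB t j s i γ)| ≤ Fintype.card I * (14 * t.ω * M γ) := by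
      refine (Finset.abs_sum_le_sum_abs _ _).trans ?_
      refine (Finset.sum_le_sum (g := fun _ => 14 * t.ω * M γ) fun i _ => ?_).trans ?_
      · refine (abs_add_le _ _).trans ?_
        have a := cuT_abs t j s i γ
        have b := cuB_abs t j s i γ
        linarith
      · rw [Finset.sum_const, nsmul_eq_mul]
        rfl
    have h2 : |pc0 t j s γ| ≤ Fintype.card I * (14 * t.ω * M γ) := by
      unfold pc0
      rw [if_pos hf, abs_mul, abs_mul, abs_of_nonneg hM]
      have h3 : |∑ i, tb t j s γ i| ≤ Fintype.card I * (14 * t.ω) := by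
        refine (Finset.abs_sum_le_sum_abs _ _).trans ?_
        refine (Finset.sum_le_sum fun i _ => tb_abs t j s γ i).trans ?_
        rw [Finset.sum_const, nsmul_eq_mul]
        rfl
      calc _ ≤ M γ * 1 * (Fintype.card I * (14 * t.ω)) := by
            gcongr
            exact t.b0 γ
        _ = _ := by ring
    refine (abs_sub _ _).trans ?_
    unfold e0
    rw [if_pos ⟨hf, hb, hd⟩]
    have hc : (0 : ℝ) ≤ Fintype.card I := Nat.cast_nonneg _
    have a1 := abs_nonneg (dM (j, s) γ)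
    have a2 := abs_nonneg (dM (j + 1, s) γ)
    have k1 : 0 ≤ Fintype.card I * t.ω * (|dM (j, s) γ| + |dM (j + 1, s) γ|) := by positivity
    nlinarith [h1, h2]
  · rw [pc_eq t hn, sub_self, abs_zero]
    have := e0_nn t j s γ
    have := om_nn' t
    positivity

/-! ### the sum over the columns and rows -/

section sums

variable (t : Tst I) {γ : FX I} (hd : t.Dm (ht γ)) {B : ℤ} (hB : t.K + 2 ≤ B) (i : I)

include hd in
theorem cell_bd {a b : ℤ} (h : γ (some (a, b)) i ≠ .o) : |a| ≤ t.K ∧ |b| ≤ t.K := by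
  have hb := t.bd _ hd
  refine box_of (S := fun i => cl γ i) (fun i => subset_rfl) (fun i => ⟨hb i 0, hb i 1, hb i 2, hb i 3⟩) a b ?_
  intro h0
  rw [h0] at h
  exact h rfl

include hd hB in
theorem QL_eq : QL γ i = ∑ r ∈ Finset.Icc (-B) B, tau (γ (some (ht γ i 0, r)) i) := by
  unfold QL
  refine tsum_eq_sum fun r hr => ?_
  by_contra h0
  have h1 : γ (some (ht γ i 0, r)) i ≠ .o := fun h => h0 (by rw [h]; rfl)
  have h2 := (cell_bd t hd i h1).2
  rw [abs_le] at h2
  exact hr (Finset.mem_Icc.2 ⟨by omega, by omega⟩)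

include hd hB in
theorem QR_eq : QR γ i = ∑ r ∈ Finset.Icc (-B) B, tau (γ (some (ht γ i 1, r)) i) := by
  unfold QR
  refine tsum_eq_sum fun r hr => ?_
  by_contra h0
  have h1 : γ (some (ht γ i 1, r)) i ≠ .o := fun h => h0 (by rw [h]; rfl)
  have h2 := (cell_bd t hd i h1).2
  rw [abs_le] at h2
  exact hr (Finset.mem_Icc.2 ⟨by omega, by omega⟩)

open Classical in
include hd hB in
theorem cT_eq : cT γ i = ∑ c ∈ Finset.Icc (-B) B, if CupT γ i c then (c : ℝ) else 0 := by
  unfold cT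
  refine tsum_eq_sum fun c hc => ?_
  rw [if_neg]
  intro h
  have h1 : γ (some (c, ht γ i 3)) i ≠ .o := by rw [h.1]; decide
  have h2 := (cell_bd t hd i h1).1
  rw [abs_le] at h2
  exact hc (Finset.mem_Icc.2 ⟨by omega, by omega⟩)

open Classical in
include hd hB in
theorem cB_eq : cB γ i = ∑ c ∈ Finset.Icc (-B) B, if CupB γ i c then (c : ℝ) else 0 := by
  unfold cB
  refine tsum_eq_sum fun c hc => ?_
  rw [if_neg]
  intro h
  have h1 : γ (some (c, ht γ i 2)) i ≠ .o := by rw [h.1]; decide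
  have h2 := (cell_bd t hd i h1).1
  rw [abs_le] at h2
  exact hc (Finset.mem_Icc.2 ⟨by omega, by omega⟩)

include hd hB in
theorem sum_lr : ∑ j ∈ Finset.Icc (-B) B, ∑ s ∈ Finset.Icc (-B) B, (j : ℝ) * lr t j s γ i =
    -((ht γ i 0 - 1) * QL γ i * (t.f (ht γ) - t.f (upd (ht γ) i 0 (ht γ i 0 - 1))) +
      ht γ i 1 * QR γ i * (t.f (upd (ht γ) i 1 (ht γ i 1 + 1)) - t.f (ht γ))) := by
  classical
  have b0 := t.bd _ hd i 0
  have b1 := t.bd _ hd i 1
  rw [abs_le] at b0 b1
  rw [QL_eq t hd hB i, QR_eq t hd hB i]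
  unfold lr
  simp only [mul_add, Finset.sum_add_distrib]
  have k1 : (∑ j ∈ Finset.Icc (-B) B, ∑ s ∈ Finset.Icc (-B) B, (j : ℝ) * (if ht γ i 0 = j + 1 ∧
      γ (some (j + 1, s)) i ≠ .o then
      -(tau (γ (some (j + 1, s)) i)) * (t.f (ht γ) - t.f (upd (ht γ) i 0 j)) else 0)) =
      -((ht γ i 0 - 1) * (∑ r ∈ Finset.Icc (-B) B, tau (γ (some (ht γ i 0, r)) i)) *
        (t.f (ht γ) - t.f (upd (ht γ) i 0 (ht γ i 0 - 1)))) := by
    rw [Finset.sum_eq_single (ht γ i 0 - 1)]
    · simp only [sub_add_cancel, true_and]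
      have e1 : ∀ s : ℤ, (if γ (some (ht γ i 0, s)) i ≠ .o then
          -(tau (γ (some (ht γ i 0, s)) i)) * (t.f (ht γ) - t.f (upd (ht γ) i 0 (ht γ i 0 - 1))) else 0) =
          -(tau (γ (some (ht γ i 0, s)) i)) * (t.f (ht γ) - t.f (upd (ht γ) i 0 (ht γ i 0 - 1))) := by
        intro s
        split_ifs with h
        · rfl
        · push Not at h
          rw [h]
          simp [tau]
      simp only [e1]
      rw [← Finset.mul_sum, ← Finset.sum_mul, Finset.sum_neg_distrib]
      push_cast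
      ring
    · intro j _ hj
      refine Finset.sum_eq_zero fun s _ => ?_
      rw [if_neg fun h => hj (by omega), mul_zero]
    · intro h
      exact (h (Finset.mem_Icc.2 ⟨by omega, by omega⟩)).elim
  have k2 : (∑ j ∈ Finset.Icc (-B) B, ∑ s ∈ Finset.Icc (-B) B, (j : ℝ) * (if ht γ i 1 = j ∧
      γ (some (j, s)) i ≠ .o then
      tau (γ (some (j, s)) i) * (t.f (ht γ) - t.f (upd (ht γ) i 1 (j + 1))) else 0)) =
      -(ht γ i 1 * (∑ r ∈ Finset.Icc (-B) B, tau (γ (some (ht γ i 1, r)) i)) *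
        (t.f (upd (ht γ) i 1 (ht γ i 1 + 1)) - t.f (ht γ))) := by
    rw [Finset.sum_eq_single (ht γ i 1)]
    · simp only [true_and]
      have e2 : ∀ s : ℤ, (if γ (some (ht γ i 1, s)) i ≠ .o then
          tau (γ (some (ht γ i 1, s)) i) * (t.f (ht γ) - t.f (upd (ht γ) i 1 (ht γ i 1 + 1))) else 0) =
          tau (γ (some (ht γ i 1, s)) i) * (t.f (ht γ) - t.f (upd (ht γ) i 1 (ht γ i 1 + 1))) := by
        intro s
        split_ifs with h
        · rfl
        · push Not at h
          rw [h]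
          simp [tau]
      simp only [e2]
      rw [← Finset.mul_sum, ← Finset.sum_mul]
      ring
    · intro j _ hj
      refine Finset.sum_eq_zero fun s _ => ?_
      rw [if_neg fun h => hj h.1.symm, mul_zero]
    · intro h
      exact (h (Finset.mem_Icc.2 ⟨by omega, by omega⟩)).elim
  rw [k1, k2]
  ring

include hd hB in
theorem sum_tb : ∑ j ∈ Finset.Icc (-B) B, ∑ s ∈ Finset.Icc (-B) B, (j : ℝ) * tb t j s γ i =
    kk * (cT γ i * (t.f (ht γ) - t.f (upd (ht γ) i 3 (ht γ i 3 - 1))) +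
      cB γ i * (t.f (upd (ht γ) i 2 (ht γ i 2 + 1)) - t.f (ht γ))) := by
  classical
  have b3 := t.bd _ hd i 3
  have b2 := t.bd _ hd i 2
  rw [abs_le] at b3 b2
  rw [cT_eq t hd hB i, cB_eq t hd hB i]
  unfold tb
  simp only [mul_add, Finset.sum_add_distrib]
  have e1 : ∀ j : ℤ, (∑ s ∈ Finset.Icc (-B) B, (j : ℝ) * (if CupT γ i j ∧ ht γ i 3 = s then
      kk * (t.f (ht γ) - t.f (upd (ht γ) i 3 (s - 1))) else 0)) =
      (if CupT γ i j then (j : ℝ) else 0) * (kk * (t.f (ht γ) - t.f (upd (ht γ) i 3 (ht γ i 3 - 1)))) := by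
    intro j
    rw [Finset.sum_eq_single (ht γ i 3)]
    · simp only [and_true]
      split_ifs <;> ring
    · intro s _ hs
      rw [if_neg fun h => hs h.2.symm, mul_zero]
    · intro h
      exact (h (Finset.mem_Icc.2 ⟨by omega, by omega⟩)).elim
  have e2 : ∀ j : ℤ, (∑ s ∈ Finset.Icc (-B) B, (j : ℝ) * (if CupB γ i j ∧ ht γ i 2 = s - 1 then
      kk * (t.f (upd (ht γ) i 2 s) - t.f (ht γ)) else 0)) =
      (if CupB γ i j then (j : ℝ) else 0) * (kk * (t.f (upd (ht γ) i 2 (ht γ i 2 + 1)) - t.f (ht γ))) := by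
    intro j
    rw [Finset.sum_eq_single (ht γ i 2 + 1)]
    · simp only [add_sub_cancel_right, and_true]
      split_ifs <;> ring
    · intro s _ hs
      rw [if_neg fun h => hs (by omega), mul_zero]
    · intro h
      exact (h (Finset.mem_Icc.2 ⟨by omega, by omega⟩)).elim
  simp only [e1, e2]
  rw [← Finset.sum_mul, ← Finset.sum_mul]
  ring

end sums

/-- the response from the pieces -/
theorem sum_pieces [Fintype I] (t : Tst I) {B : ℤ} (hB : t.K + 2 ≤ B) (γ : FX I) :
    ∑ j ∈ Finset.Icc (-B) B, ∑ s ∈ Finset.Icc (-B) B, (j : ℝ) * (pa0 t j s γ + pc0 t j s γ) =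
      open Classical in if Fam g0 γ then M γ * t.χ0 γ * ∑ i, Rs t.f γ i else 0 := by
  classical
  unfold pa0 pc0
  by_cases hf : Fam g0 γ
  · simp only [if_pos hf]
    have e : ∑ j ∈ Finset.Icc (-B) B, ∑ s ∈ Finset.Icc (-B) B, (j : ℝ) * (M γ * t.χ0 γ * ∑ i, lr t j s γ i +
        M γ * t.χ0 γ * ∑ i, tb t j s γ i) =
        M γ * t.χ0 γ * ∑ i, (∑ j ∈ Finset.Icc (-B) B, ∑ s ∈ Finset.Icc (-B) B, (j : ℝ) * lr t j s γ i +
          ∑ j ∈ Finset.Icc (-B) B, ∑ s ∈ Finset.Icc (-B) B, (j : ℝ) * tb t j s γ i) := by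
      rw [Finset.sum_add_distrib, mul_add]
      simp only [mul_add, Finset.sum_add_distrib]
      congr 1
      · rw [Finset.sum_comm (s := Finset.univ), Finset.mul_sum]
        refine Finset.sum_congr rfl fun j _ => ?_
        rw [Finset.sum_comm (s := Finset.univ), Finset.mul_sum]
        refine Finset.sum_congr rfl fun s _ => ?_
        rw [← Finset.mul_sum]
        ring
      · rw [Finset.sum_comm (s := Finset.univ), Finset.mul_sum]
        refine Finset.sum_congr rfl fun j _ => ?_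
        rw [Finset.sum_comm (s := Finset.univ), Finset.mul_sum]
        refine Finset.sum_congr rfl fun s _ => ?_
        rw [← Finset.mul_sum]
        ring
    rw [e]
    congr 1
    refine Finset.sum_congr rfl fun i _ => ?_
    by_cases hd : t.Dm (ht γ)
    · rw [sum_lr t hd hB i, sum_tb t hd hB i]
      unfold Rs
      ring
    · simp only [lr_zero t hd, tb_zero t hd, mul_zero, Finset.sum_const_zero, add_zero]
      have z : ∀ (a : Fin 4) (x : ℤ), |ht γ i a - x| ≤ 1 → t.f (upd (ht γ) i a x) = 0 := fun a x hx =>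
        f_zero t (nr_symm (nr_upd hx)) hd
      unfold Rs
      rw [f_zero t (nr_rfl _) hd, z 3 _ (by simp), z 2 _ (by simp), z 0 _ (by simp), z 1 _ (by simp)]
      ring
  · simp only [if_neg hf, add_zero, mul_zero, Finset.sum_const_zero]

/-! ### everything vanishes off the neighbourhood -/

section off

variable (t : Tst I) {j s : ℤ} {γ : FX I} (hd : ¬t.Dm (ht γ))

include hd in
theorem pa0_off [Fintype I] : pa0 t j s γ = 0 := by
  unfold pa0
  rw [Finset.sum_eq_zero fun i _ => lr_zero t hd i]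
  simp

include hd in
theorem pc0_off [Fintype I] : pc0 t j s γ = 0 := by
  unfold pc0
  rw [Finset.sum_eq_zero fun i _ => tb_zero t hd i]
  simp

include hd in
theorem pa_off [Fintype I] : pa t j s γ = 0 := by
  rw [pa_eq t fun h => hd h.2.2, pa0_off t hd]

include hd in
theorem cpT_off (i : I) : cpT t j s i γ = 0 := by
  unfold cpT
  split_ifs with h
  · rw [f_zero t (nr_rfl _) hd, f_zero t (nr_symm (nr_upd (by rw [h.2.2.1]; simp))) hd]
    ring
  · rfl

include hd in
theorem cpB_off (i : I) : cpB t j s i γ = 0 := by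
  unfold cpB
  split_ifs with h
  · rw [f_zero t (nr_rfl _) hd, f_zero t (nr_symm (nr_upd (by rw [h.2.2.1]; simp))) hd]
    ring
  · rfl

include hd in
theorem cuT_off (i : I) : cuT t j s i γ = 0 := by
  unfold cuT
  split_ifs with h
  · rw [f_zero t (nr_rfl _) hd, f_zero t (nr_symm (nr_upd (by rw [h.2.2.1]; simp))) hd]
    ring
  · rfl

include hd in
theorem cuB_off (i : I) : cuB t j s i γ = 0 := by
  unfold cuB
  split_ifs with h
  · rw [f_zero t (nr_rfl _) hd, f_zero t (nr_symm (nr_upd (by rw [h.2.2.1]; simp))) hd]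
    ring
  · rfl

include hd in
theorem pb_off [Fintype I] : pb t j s γ = 0 := by
  rw [pb_eq t fun h => hd h.2.2]
  exact Finset.sum_eq_zero fun i _ => by rw [cpT_off t hd, cpB_off t hd, add_zero]

include hd in
theorem e0_off : e0 t j s γ = 0 := by
  unfold e0
  rw [if_neg fun h => hd h.2.2]

include hd in
theorem eX_off : eX t j s γ = 0 := by
  unfold eX
  rw [if_neg fun h => hd h.2.2]

end off

theorem fin_dm [Finite I] (t : Tst I) : {γ : FX I | t.Dm (ht γ)}.Finite := by
  refine (fin_box t.K).subset fun γ hγ => ?_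
  have hb := t.bd _ hγ
  exact box_of (S := fun i => cl γ i) (fun i => subset_rfl) fun i => ⟨hb i 0, hb i 1, hb i 2, hb i 3⟩

theorem smm [Finite I] (t : Tst I) {g : FX I → ℝ} (h : ∀ γ, ¬t.Dm (ht γ) → g γ = 0) : Summable g := by
  refine summable_of_hasFiniteSupport ((fin_dm t).subset fun γ hγ => ?_)
  by_contra hd
  exact hγ (h γ hd)

theorem abs_tsum_le [Finite I] (t : Tst I) {f g e : FX I → ℝ} {C : ℝ} (hf : ∀ γ, ¬t.Dm (ht γ) → f γ = 0)
    (hg : ∀ γ, ¬t.Dm (ht γ) → g γ = 0) (he : ∀ γ, ¬t.Dm (ht γ) → e γ = 0) (h : ∀ γ, |f γ - g γ| ≤ C * e γ) :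
    |∑' γ, f γ - ∑' γ, g γ| ≤ C * ∑' γ, e γ := by
  have sf := smm t hf
  have sg := smm t hg
  have se := smm t he
  rw [← sf.tsum_sub sg, ← tsum_mul_left]
  have sd : Summable fun γ => |f γ - g γ| := smm t fun γ hd => by rw [hf γ hd, hg γ hd]; simp
  refine (?_ : |∑' γ, (f γ - g γ)| ≤ ∑' γ, |f γ - g γ|).trans (sd.tsum_le_tsum h (se.mul_left C))
  have := norm_tsum_le_tsum_norm (f := fun γ => f γ - g γ) (by simpa [Real.norm_eq_abs] using sd)
  simpa [Real.norm_eq_abs] using this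

/-- **the local derivative and the current of one row** -/
theorem row_bd [Fintype I] (t : Tst I) (j s : ℤ) :
    |(A j s (fun γ => t.F γ - t.G j s γ) + J j s (fun γ => t.G j s γ - t.G j (s - 1) γ)) -
      ∑' γ, (pa0 t j s γ + pc0 t j s γ)| ≤ 36 * (Fintype.card I + 1) * t.ω * t.er j s := by
  classical
  have eA : A j s (fun γ => t.F γ - t.G j s γ) = ∑' γ, pa t j s γ := rfl
  have eJ : J j s (fun γ => t.G j s γ - t.G j (s - 1) γ) = ∑' γ, pb t j s γ := rfl
  have eE : t.er j s = ∑' γ, e0 t j s γ + ∑' γ, eX t j s γ := rfl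
  have k1 := abs_tsum_le t (f := pa t j s) (g := pa0 t j s) (e := e0 t j s) (fun γ hd => pa_off t hd)
    (fun γ hd => pa0_off t hd) (fun γ hd => e0_off t hd) (pa_bd t j s)
  have k2 := abs_tsum_le t (f := pb t j s) (g := fun γ => ∑ i, (cpT t j s i γ + cpB t j s i γ)) (e := eX t j s)
    (fun γ hd => pb_off t hd)
    (fun γ hd => Finset.sum_eq_zero fun i _ => by rw [cpT_off t hd, cpB_off t hd, add_zero])
    (fun γ hd => eX_off t hd) (pb_bd t j s)
  have k3 := abs_tsum_le t (f := fun γ => ∑ i, (cuT t j s i γ + cuB t j s i γ)) (g := pc0 t j s) (e := e0 t j s)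
    (fun γ hd => Finset.sum_eq_zero fun i _ => by rw [cuT_off t hd, cuB_off t hd, add_zero])
    (fun γ hd => pc0_off t hd) (fun γ hd => e0_off t hd) (pc_bd t j s)
  have k4 : ∑' γ, ∑ i, (cpT t j s i γ + cpB t j s i γ) = ∑' γ, ∑ i, (cuT t j s i γ + cuB t j s i γ) := by
    rw [Summable.tsum_finsetSum, Summable.tsum_finsetSum]
    · refine Finset.sum_congr rfl fun i _ => ?_
      rw [Summable.tsum_add (smm t fun γ hd => cpT_off t hd i) (smm t fun γ hd => cpB_off t hd i),
        Summable.tsum_add (smm t fun γ hd => cuT_off t hd i) (smm t fun γ hd => cuB_off t hd i),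
        sum_cpT, sum_cpB]
    · exact fun i _ => smm t fun γ hd => by rw [cuT_off t hd, cuB_off t hd, add_zero]
    · exact fun i _ => smm t fun γ hd => by rw [cpT_off t hd, cpB_off t hd, add_zero]
  have n0 : 0 ≤ ∑' γ, e0 t j s γ := tsum_nonneg fun γ => e0_nn t j s γ
  have nX : 0 ≤ ∑' γ, eX t j s γ := tsum_nonneg fun γ => eX_nn t j s γ
  have hom := om_nn' t
  have hc : (0 : ℝ) ≤ Fintype.card I := Nat.cast_nonneg _
  rw [Summable.tsum_add (smm t fun γ hd => pa0_off t hd) (smm t fun γ hd => pc0_off t hd), eA, eJ, eE]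
  rw [k4] at k2
  have e : ∀ a b c d x : ℝ, (a + b) - (c + d) = (a - c) + (b - x) + (x - d) := fun a b c d x => by ring
  rw [e _ _ _ _ (∑' γ, ∑ i, (cuT t j s i γ + cuB t j s i γ))]
  refine (abs_add_le _ _).trans ((add_le_add (abs_add_le _ _) le_rfl).trans ?_)
  refine (add_le_add (add_le_add k1 k2) k3).trans ?_
  have p1 : 0 ≤ t.ω * ∑' γ, e0 t j s γ := by positivity
  have p2 : 0 ≤ t.ω * ∑' γ, eX t j s γ := by positivity
  have p3 : 0 ≤ Fintype.card I * (t.ω * ∑' γ, eX t j s γ) := by positivity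
  nlinarith

theorem G_gd (t : Tst I) (j r : ℤ) (γ : FX I) (h : t.G j r γ ≠ 0) : Gd (Rg j r) γ := by
  have hf : t.f (he j r γ) ≠ 0 := fun h0 => h (by simp [Tst.G, h0])
  exact wd_gdX (j := j) (r := r) (t.wd _ (t.dm _ _ (nr_rfl _) hf))

end Ex

open Ex in
open Classical in
/-- **the derivative of the measure in the angle (columns)**: the response of the extreme cells -/
theorem EX_box {I : Type} [Fintype I] (t : Tst I) {B : ℤ} (hB : t.K + 2 ≤ B) :
    |Mdf t.F - ∑' γ : FX I, if Fam g0 γ then M γ * t.χ0 γ * ∑ i, Rs t.f γ i else 0| ≤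
    36 * (Fintype.card I + 1) * t.ω * ∑ j ∈ Finset.Icc (-B) B, ∑ s ∈ Finset.Icc (-B) B, |(j : ℝ)| * t.er j s := by
  have h3 : ∀ j r, A j r (t.G j r) + J j (r + 1) (t.G j r) - J j r (t.G j r) = 0 := fun j r =>
    row_zero_tab tab (t.bdG j r).finite (G_gd t j r) (G_cst t j r)
  rw [Mdf_box t (by omega : t.K + 1 ≤ B) h3]
  have e1 : (∑' γ : FX I, if Fam g0 γ then M γ * t.χ0 γ * ∑ i, Rs t.f γ i else 0) =
      ∑ j ∈ Finset.Icc (-B) B, ∑ s ∈ Finset.Icc (-B) B, (j : ℝ) * ∑' γ, (pa0 t j s γ + pc0 t j s γ) := by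
    rw [tsum_congr fun γ => (sum_pieces t hB γ).symm, Summable.tsum_finsetSum]
    · refine Finset.sum_congr rfl fun j _ => ?_
      rw [Summable.tsum_finsetSum]
      · exact Finset.sum_congr rfl fun s _ => tsum_mul_left
      · exact fun s _ => smm t fun γ hd => by rw [pa0_off t hd, pc0_off t hd]; simp
    · exact fun j _ => smm t fun γ hd =>
        Finset.sum_eq_zero fun s _ => by rw [pa0_off t hd, pc0_off t hd]; simp
  rw [e1, ← Finset.sum_sub_distrib, Finset.mul_sum]
  refine (Finset.abs_sum_le_sum_abs _ _).trans (Finset.sum_le_sum fun j _ => ?_)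
  rw [← Finset.sum_sub_distrib, Finset.mul_sum]
  refine (Finset.abs_sum_le_sum_abs _ _).trans (Finset.sum_le_sum fun s _ => ?_)
  rw [← mul_sub, abs_mul]
  calc _ ≤ |(j : ℝ)| * (36 * (Fintype.card I + 1) * t.ω * t.er j s) :=
        mul_le_mul_of_nonneg_left (row_bd t j s) (abs_nonneg _)
    _ = _ := by ring

end Pool.Agent.ROT.L
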