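import Pool.Agent.ROT.A6T
import Pool.Agent.ROT.A7
import Pool.Agent.ROT.LEx

/-!
# ROT, row A7X: the discrete exact side for the honeycomb polygons

`exd_one`: from the exact identity `EX_box` (block L, columns), the transposition and the bound of the bad events: the
sum over the families of `Rs f - RsT f` (columns minus rows) is at most `72 (card I + 1) ε ω`.
**`hex_EXd`**: `EXd` of the instance `hexP`.
-/

set_option autoImplicit false

open Filter Topology Finset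

namespace Pool.Agent.ROT.L

open Pool.Agent.YBC (Dir)
open Pool.Agent.ROT.E (Cell IsUn Pt nx)
open Pool.Agent.ROT.A.PSys (Sd Nh)

variable {I : Type}

open Classical in
/-- the sum over the families of the lattice -/
noncomputable def fs (Θ : FX I → ℝ) : ℝ := ∑' γ : FX I, if Fam g0 γ then M γ * Θ γ else 0

/-- **the bad events have small mass** (31, 32, 85) -/
def ErN (I : Type) : Prop :=
  ∀ (K : ℕ) (δ ε : ℝ), 0 < δ → 0 < ε → ∀ᶠ N : ℕ in atTop, ∀ t : Tst I, (t.K : ℝ) ≤ K * N →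
    (∀ h, t.Dm h → ∀ i, δ * N ≤ ((h i 1 - h i 0 : ℤ) : ℝ)) →
    ∑ j ∈ Icc (-(t.K + 2)) (t.K + 2), ∑ s ∈ Icc (-(t.K + 2)) (t.K + 2), |(j : ℝ)| * t.er j s ≤ ε * N

section

variable {f : (I → Fin 4 → ℤ) → ℝ} {τ : I → I → Bool} {K : ℕ} {δ ω : ℝ} {N : ℕ}

theorem nr_sgh {h h' : I → Fin 4 → ℤ} (hh : Nr h h') : Nr (sgh h) (sgh h') := by
  intro i a
  fin_cases a
  · exact hh i 2
  · exact hh i 3
  · exact hh i 0
  · exact hh i 1

theorem sd_sgh {h : I → Fin 4 → ℤ} (hh : Sd (K : ℝ) δ N (sgh h)) : Sd (K : ℝ) δ N h := by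
  refine ⟨fun i u => ?_, fun i => ⟨(hh.2 i).2, (hh.2 i).1⟩⟩
  fin_cases u
  · exact hh.1 i 2
  · exact hh.1 i 3
  · exact hh.1 i 0
  · exact hh.1 i 1

theorem chi_tp {γ : FX I} (hf : Fam g0 γ) (w : Wd (ht γ)) : chi τ 0 (ax E.tpS γ) = chi τ 0 γ := by
  classical
  have h : (∀ i k, i ≠ k → pf 0 (ax E.tpS γ) k i = (if τ i k then 1 else 0)) ↔
      ∀ i k, i ≠ k → pf 0 γ k i = (if τ i k then 1 else 0) := by
    refine forall_congr' fun i => forall_congr' fun k => forall_congr' fun hik => ?_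
    rw [pf_tp hf w (Ne.symm hik) 0 0]
  unfold chi
  exact if_congr h rfl rfl

variable [Fintype I]

/-- **column form minus row form** -/
theorem exd_one (osc : ∀ h h', Nr h h' → |f h - f h'| ≤ ω / N)
    (sup : ∀ h, f h ≠ 0 → Sd (K : ℝ) δ N h) (hN : 6 ≤ δ * N) (h1 : 1 ≤ N) {a : ℝ}
    (er : ∀ t : Tst I, (t.K : ℝ) ≤ K * N → (∀ h, t.Dm h → ∀ i, δ / 2 * N ≤ ((h i 1 - h i 0 : ℤ) : ℝ)) →
      ∑ j ∈ Icc (-(t.K + 2)) (t.K + 2), ∑ s ∈ Icc (-(t.K + 2)) (t.K + 2), |(j : ℝ)| * t.er j s ≤ a * N) :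
    |fs (fun γ : FX I => chi τ 0 γ * ∑ i, Rs f γ i) - fs fun γ : FX I => chi τ 0 γ * ∑ i, RsT f γ i| ≤
      72 * (Fintype.card I + 1) * a * ω := by
  classical
  have hN0 : (0 : ℝ) < N := by exact_mod_cast h1
  have hω : 0 ≤ ω := by
    have := osc 0 0 Tst.nr_self
    rw [sub_self, abs_zero] at this
    have h2 := mul_nonneg this hN0.le
    rwa [div_mul_cancel₀ _ hN0.ne'] at h2
  set t : Tst I := tF f τ osc sup hN with ht
  set t' : Tst I := tF (fun h => f (sgh h)) τ (fun h h' hh => osc _ _ (nr_sgh hh))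
    (fun h hh => sd_sgh (sup _ hh)) hN with ht'
  have htp : Tp t t' := ⟨fun h => rfl, fun γ hf w => (chi_tp hf w).symm⟩
  have key : ∀ u : Tst I, u.Dm = DmN K δ N → u.K = (K : ℤ) * N → u.ω = ω / N →
      36 * (Fintype.card I + 1) * u.ω * ∑ j ∈ Icc (-(u.K + 2)) (u.K + 2), ∑ s ∈ Icc (-(u.K + 2)) (u.K + 2),
        |(j : ℝ)| * u.er j s ≤ 36 * (Fintype.card I + 1) * a * ω := by
    intro u hu hK hω'
    have e1 := er u (by rw [hK]; push_cast; exact le_rfl) (by
      intro h hh i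
      rw [hu] at hh
      have := (hh.2 i).1
      push_cast
      linarith)
    calc 36 * (Fintype.card I + 1) * u.ω * ∑ j ∈ Icc (-(u.K + 2)) (u.K + 2), ∑ s ∈ Icc (-(u.K + 2)) (u.K + 2),
        |(j : ℝ)| * u.er j s
        ≤ 36 * (Fintype.card I + 1) * u.ω * (a * N) := by
          refine mul_le_mul_of_nonneg_left e1 ?_
          rw [hω']
          positivity
      _ = 36 * (Fintype.card I + 1) * a * ω := by
          rw [hω']
          field_simp
  have h2 := (EX_box t (B := t.K + 2) le_rfl).trans (key t rfl rfl rfl)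
  have h3 := (EX_box t' (B := t'.K + 2) le_rfl).trans (key t' rfl rfl rfl)
  have h4 := htp.ex h2 h3
  have e1 : ∀ R : FX I → ℝ, (∑' γ : FX I, if Fam g0 γ then M γ * t.χ0 γ * R γ else 0) =
      fs fun γ : FX I => chi τ 0 γ * R γ := by
    intro R
    unfold fs
    refine tsum_congr fun γ => ?_
    rw [mul_assoc]
    rfl
  rw [e1 fun γ => ∑ i, Rs t.f γ i, e1 fun γ => ∑ i, RsT t.f γ i] at h4
  refine h4.trans (le_of_eq ?_)
  ring

omit [Fintype I] in
/-- no response off the neighbourhood of the support -/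
theorem RsT_zero (t : Tst I) {t' : Tst I} (hf : ∀ h, t'.f h = t.f (sgh h)) {γ : FX I}
    (hn : ¬ t'.Dm (sgh (ht γ))) (i : I) : RsT t.f γ i = 0 := by
  rw [← Rs_tp]
  have e : (fun h => t.f (sgh h)) = t'.f := funext fun h => (hf h).symm
  rw [e]
  refine Rs_zero t' ?_ i
  rw [ht_tp']
  exact hn

end

end Pool.Agent.ROT.L

namespace Pool.Agent.ROT.A6

open Pool.Agent.ROT.A.PSys (Sd Nh)

/-- **the discrete exact side for the honeycomb polygons** -/
theorem hex_EXd (er : ∀ (I : Type) [Fintype I], L.ErN I) : hexP.EXd := by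
  intro I _ _ τ K δ ε hδ hε
  have hc : (0 : ℝ) < 72 * (Fintype.card I + 1) := by positivity
  have h1 := er I K (δ / 2) (ε / (72 * (Fintype.card I + 1))) (by positivity) (by positivity)
  have h2 : ∀ᶠ N : ℕ in atTop, 6 ≤ δ * N := by
    filter_upwards [eventually_ge_atTop (⌈6 / δ⌉₊)] with N hN
    have h3 : 6 / δ ≤ N := (Nat.le_ceil _).trans (by exact_mod_cast hN)
    rw [div_le_iff₀ hδ] at h3
    linarith
  filter_upwards [h1, h2, eventually_ge_atTop 1] with N er' hN hN1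
  intro f ω osc sup
  have osc' : ∀ h h', L.Nr h h' → |f h - f h'| ≤ ω / N := osc
  have key := L.exd_one (τ := τ) osc' sup hN hN1 er'
  have sup' : ∀ h, f (L.sgh h) ≠ 0 → Sd (K : ℝ) δ N h := fun h hh => L.sd_sgh (sup _ hh)
  set t : L.Tst I := L.tF f τ osc' sup hN
  set t' : L.Tst I := L.tF (fun h => f (L.sgh h)) τ (fun h h' hh => osc _ _ (L.nr_sgh hh)) sup' hN
  have e1 : L.fs (fun γ : L.FX I => L.chi τ 0 γ * ∑ i, L.Rs f γ i) =
      hexP.fsum (K * N) τ fun g => ∑ i, L.Rs f (phi g) i := by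
    rw [← fsum_phi (K * N) τ (Θ := fun γ => ∑ i, L.Rs f γ i)]
    · unfold L.fs
      refine tsum_congr fun γ => ?_
      rw [mul_assoc]
    · intro γ _ hΘ
      have hd : t.Dm (L.ht γ) := by
        by_contra hn
        exact hΘ (Finset.sum_eq_zero fun i _ => L.Rs_zero t hn i)
      refine ⟨t.wd _ hd, fun i a => ?_⟩
      exact_mod_cast hd.1 i a
  have e2 : L.fs (fun γ : L.FX I => L.chi τ 0 γ * ∑ i, L.RsT f γ i) =
      hexP.fsum (K * N) τ fun g => ∑ i, L.RsT f (phi g) i := by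
    rw [← fsum_phi (K * N) τ (Θ := fun γ => ∑ i, L.RsT f γ i)]
    · unfold L.fs
      refine tsum_congr fun γ => ?_
      rw [mul_assoc]
    · intro γ _ hΘ
      have hd : t'.Dm (L.sgh (L.ht γ)) := by
        by_contra hn
        exact hΘ (Finset.sum_eq_zero fun i _ => L.RsT_zero t (t' := t') (fun h => rfl) hn i)
      refine ⟨L.wd_sgh.1 (t'.wd _ hd), fun i a => ?_⟩
      have h3 := hd.1 i (![2, 3, 0, 1] a)
      have h4 : L.sgh (L.ht γ) i (![2, 3, 0, 1] a) = L.ht γ i a := by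
        fin_cases a <;> rfl
      rw [h4] at h3
      exact_mod_cast h3
  rw [e1, e2, ← A.PSys.A7P.fsum_sub] at key
  have e3 : hexP.fsum (K * N) τ (fun g => (∑ i, L.Rs f (phi g) i) - ∑ i, L.RsT f (phi g) i) =
      hexP.fsum (K * N) τ fun g => ∑ i, hexP.Rd f g i := by
    congr 1
    funext g
    rw [← Finset.sum_sub_distrib]
    exact Finset.sum_congr rfl fun i _ => rd_phi f g i
  rw [e3] at key
  refine key.trans (le_of_eq ?_)
  field_simp

end Pool.Agent.ROT.A6
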