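import Pool.Agent.ROT.EDefs

/-!
# ROT, row L7 (bad terms): the block, the outer configurations of one member (literals of helper85)
-/

set_option autoImplicit false

namespace Pool.Agent.ROT.LB

open Pool.Agent.YBC (Dir)
open Pool.Agent.UNI (wR)
open Pool.Agent.ROT.E

/-- the block around the crossing between the rows `s - 1` and `s` of the columns `j`, `j + 1` -/
def Blk (j s : ℤ) : Set Pt := {(j, s - 1), (j + 1, s - 1), (j, s), (j + 1, s)}

/-- the honeycomb weight of one configuration -/
noncomputable def m1 (w : Cfg) : ℝ := w.prod fun _ c => c.wt (wR (Real.pi / 8))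

/-- the ports of `B`: the half edges outside whose other half is inside -/
def Prt (B : Set Pt) : Set He := {h | h.1 ∉ B ∧ (rv h).1 ∈ B}

/-- **the outer configuration of one member**: free on `B`, matched off `B`, every occupied half edge is connected off `B` with
an occupied port -/
structure OC (B : Set Pt) (w : Cfg) : Prop where
  off : ∀ v ∈ B, w v = 0
  mt : Mt w Bᶜ
  cn : ∀ h, oc w h → ∃ p ∈ Prt B, oc w p ∧ Cn w Bᶜ h p

end Pool.Agent.ROT.LB
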