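import Pool.Agent.ROT.ELab
import Pool.Agent.ROT.LBDefs
import Pool.Agent.HexObs.Lower

/-!
# ROT, linear response, row L7a: strands outside of a small block

A strand which ends at two ports of a free block of `2 × 2` vertices is closed inside the block to a true loop.
-/

set_option autoImplicit false

namespace Pool.Agent.ROT.LB

open Pool.Agent.EXL (Wt hexW)
open Pool.Agent.YBC (Dir)
open Pool.Agent.UNI (wR wR_hex)
open Pool.Agent.ROT.E
open Pool.Agent.ROT.E.Lab (cn_refl cn_symm cn_trans cn_vp cn_rv rv_rv vp_vp oc_vp mt_mono lk_symm)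

/-! ### the weight of one configuration -/

theorem wt0 (c : Cell) : c.wt (wR (Real.pi / 8)) = match c with
    | .o => 1
    | .h => HexObs.xc ^ 2
    | .v => HexObs.xc ^ 2
    | .sw => HexObs.xc
    | .ne => HexObs.xc
    | .se => HexObs.xc ^ 2
    | .nw => HexObs.xc ^ 2
    | .x => HexObs.xc ^ 2
    | .y => 0 := by
  rw [wR_hex]
  cases c <;> rfl

private theorem xc_le : HexObs.xc ≤ 1 := by
  have h0 := HexObs.xc_pos
  have h := HexObs.xc_sq
  have h2 : (1 : ℝ) / (2 + √2) ≤ 1 := by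
    have : (0 : ℝ) ≤ √2 := by positivity
    rw [div_le_one (by positivity)]
    linarith
  by_contra hc
  push Not at hc
  nlinarith

theorem wt0_nonneg (c : Cell) : 0 ≤ c.wt (wR (Real.pi / 8)) := by
  have := HexObs.xc_pos
  rw [wt0]
  cases c <;> simp only <;> positivity

theorem m1_nonneg (γ : Cfg) : 0 ≤ m1 γ := Finset.prod_nonneg fun _ _ => wt0_nonneg _

theorem m1_update {γ : Cfg} {v : Pt} (h : γ v = .o) (c : Cell) :
    m1 (γ.update v c) = m1 γ * c.wt (wR (Real.pi / 8)) := by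
  classical
  have h1 : ∀ δ : Cfg, δ.support ⊆ insert v γ.support → m1 δ = ∏ w ∈ insert v γ.support, (δ w).wt (wR (Real.pi / 8)) := by
    intro δ hδ
    exact Finsupp.prod_of_support_subset _ hδ _ fun _ _ => rfl
  have hv : v ∉ γ.support := by
    rw [Finsupp.mem_support_iff, not_not]
    exact h
  rw [h1 (γ.update v c) (by
    intro w hw
    by_cases e : w = v
    · simp [e]
    · rw [Finsupp.mem_support_iff, Finsupp.coe_update, Function.update_of_ne e] at hw
      simp [hw]), Finset.prod_insert hv, Finsupp.coe_update, Function.update_self, mul_comm]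
  congr 1
  refine Finset.prod_congr rfl fun w hw => ?_
  have e : w ≠ v := by rintro rfl; exact hv hw
  rw [Function.update_of_ne e]

/-! ### open paths -/

/-- the cell with one passage -/
def jn : Dir → Dir → Cell
  | .E, .W => .h
  | .W, .E => .h
  | .N, .S => .v
  | .S, .N => .v
  | .S, .W => .sw
  | .W, .S => .sw
  | .N, .E => .ne
  | .E, .N => .ne
  | .S, .E => .se
  | .E, .S => .se
  | .N, .W => .nw
  | .W, .N => .nw
  | _, _ => .o

theorem jn_p {d d' : Dir} (h : d ≠ d') : (jn d d').p d = d' := by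
  revert d d'; decide

theorem jn_oc {d d' : Dir} (h : d ≠ d') (e : Dir) : (jn d d').oc e ↔ e = d ∨ e = d' := by
  revert d d' e; decide

theorem jn_wt {d d' : Dir} : HexObs.xc ^ 2 ≤ (jn d d').wt (wR (Real.pi / 8)) := by
  have h1 := HexObs.xc_pos
  have h2 := xc_le
  have h3 : HexObs.xc ^ 2 ≤ HexObs.xc := by nlinarith
  have h4 : HexObs.xc ^ 2 ≤ 1 := by nlinarith
  rw [wt0]
  cases d <;> cases d' <;> simp only [jn] <;> first | exact h4 | exact le_rfl | exact h3

/-- an open path with the loose ends `a`, `b` -/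
structure Op (δ : Cfg) (a b : He) : Prop where
  oa : oc δ a
  ob : oc δ b
  mt : ∀ h, oc δ h → h ≠ a → h ≠ b → oc δ (rv h)
  cn : ∀ h k, oc δ h → oc δ k → Cn δ Set.univ h k

/-- one more cell at the end `a` -/
theorem Op.ext {δ : Cfg} {a b : He} (o : Op δ a b) (h0 : δ (rv a).1 = .o) {d : Dir} (hd : d ≠ (rv a).2) :
    Op (δ.update (rv a).1 (jn (rv a).2 d)) ((rv a).1, d) b := by
  set δ' := δ.update (rv a).1 (jn (rv a).2 d) with hδ'
  have e1 : δ' (rv a).1 = jn (rv a).2 d := by rw [hδ', Finsupp.coe_update, Function.update_self]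
  have e2 : ∀ v, v ≠ (rv a).1 → δ' v = δ v := fun v hv => by
    rw [hδ', Finsupp.coe_update, Function.update_of_ne hv]
  have n1 : ∀ h, oc δ h → h.1 ≠ (rv a).1 := by
    intro h ho e
    rw [oc, e, h0] at ho
    exact Lab.not_oc_o _ ho
  have o2 : ∀ h, oc δ h → oc δ' h := fun h ho => by rw [oc, e2 _ (n1 h ho)]; exact ho
  have o3 : oc δ' (rv a) := by rw [oc, e1, jn_oc hd.symm]; exact Or.inl rfl
  have o4 : oc δ' ((rv a).1, d) := by
    change (δ' (rv a).1).oc d
    rw [e1, jn_oc hd.symm]; exact Or.inr rfl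
  have cases' : ∀ h, oc δ' h → h = rv a ∨ h = ((rv a).1, d) ∨ oc δ h := by
    intro h ho
    by_cases e : h.1 = (rv a).1
    · rw [oc, e, e1, jn_oc hd.symm] at ho
      rcases ho with ho | ho
      · exact Or.inl (Prod.ext e ho)
      · exact Or.inr (Or.inl (Prod.ext e ho))
    · right; right
      rw [oc, e2 _ e] at ho
      exact ho
  have cm : ∀ h k, Cn δ Set.univ h k → Cn δ' Set.univ h k := by
    intro h k c
    refine Lab.cn_mono' (fun x y L => ?_) c
    refine ⟨o2 x L.1, Set.mem_univ _, ?_⟩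
    rcases L.2.2 with L' | L'
    · left
      rw [L', vp, vp, e2 _ (n1 x L.1)]
    · exact Or.inr L'
  have ca : ∀ h, oc δ' h → Cn δ' Set.univ a h := by
    have c1 : Cn δ' Set.univ a (rv a) := cn_rv (o2 a o.oa) (Set.mem_univ _) (Set.mem_univ _)
    have c2 : Cn δ' Set.univ (rv a) ((rv a).1, d) := by
      have := cn_vp (B := Set.univ) o3 (Set.mem_univ _)
      rwa [vp, e1, jn_p hd.symm] at this
    intro h ho
    rcases cases' h ho with rfl | rfl | ho
    · exact c1
    · exact cn_trans c1 c2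
    · exact cm _ _ (o.cn _ _ o.oa ho)
  refine ⟨o4, o2 b o.ob, fun h ho h1 h2 => ?_, fun h k hh hk => cn_trans (cn_symm (ca h hh)) (ca k hk)⟩
  rcases cases' h ho with rfl | rfl | ho
  · rw [rv_rv]
    exact o2 a o.oa
  · exact absurd rfl h1
  · by_cases e : h = a
    · rw [e]; exact o3
    · exact o2 _ (o.mt h ho e h2)

/-- the two ends meet -/
theorem Op.cls {δ : Cfg} {a b : He} (o : Op δ a b) (e : rv a = b) : Lp δ := by
  have key : ∀ h, oc δ h → oc δ (rv h) := by
    intro h ho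
    by_cases h1 : h = a
    · rw [h1, e]; exact o.ob
    by_cases h2 : h = b
    · rw [h2, ← e, rv_rv]; exact o.oa
    exact o.mt h ho h1 h2
  refine ⟨fun h _ _ => ⟨key h, fun h1 => by have := key _ h1; rwa [rv_rv] at this⟩, fun e0 => ?_, o.cn⟩
  have := o.oa
  rw [e0] at this
  exact Lab.not_oc_o _ this

/-! ### the block -/

theorem mem_Blk {j s : ℤ} {v : Pt} : v ∈ Blk j s ↔ (v.1 = j ∨ v.1 = j + 1) ∧ (v.2 = s - 1 ∨ v.2 = s) := by
  obtain ⟨x, y⟩ := v
  simp only [Blk, Set.mem_insert_iff, Set.mem_singleton_iff, Prod.mk.injEq]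
  constructor
  · rintro (h | h | h | h)
    · exact ⟨Or.inl h.1, Or.inl h.2⟩
    · exact ⟨Or.inr h.1, Or.inl h.2⟩
    · exact ⟨Or.inl h.1, Or.inr h.2⟩
    · exact ⟨Or.inr h.1, Or.inr h.2⟩
  · rintro ⟨h1 | h1, h2 | h2⟩
    · exact Or.inl ⟨h1, h2⟩
    · exact Or.inr (Or.inr (Or.inl ⟨h1, h2⟩))
    · exact Or.inr (Or.inl ⟨h1, h2⟩)
    · exact Or.inr (Or.inr (Or.inr ⟨h1, h2⟩))

/-- two vertices of the block: equal, adjacent or joined by a third one -/
theorem Blk.path {j s : ℤ} {v w : Pt} (hv : v ∈ Blk j s) (hw : w ∈ Blk j s) (hne : v ≠ w) :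
    (∃ D, nx v D = w) ∨ ∃ D D', nx (nx v D) D' = w ∧ nx v D ∈ Blk j s ∧ nx v D ≠ w ∧ nx v D ≠ v := by
  obtain ⟨x, y⟩ := v
  obtain ⟨x', y'⟩ := w
  obtain ⟨hx, hy⟩ := mem_Blk.1 hv
  obtain ⟨hx', hy'⟩ := mem_Blk.1 hw
  simp only at hx hy hx' hy'
  rcases hx with rfl | rfl <;> rcases hy with rfl | rfl <;> rcases hx' with rfl | rfl <;> rcases hy' with rfl | rfl
  · exact absurd rfl hne
  · exact Or.inl ⟨.N, by simp [nx]⟩
  · exact Or.inl ⟨.E, by simp [nx]⟩
  · exact Or.inr ⟨.N, .E, by simp [nx], mem_Blk.2 ⟨Or.inl rfl, Or.inr (by simp [nx])⟩, by simp [nx],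
      by simp [nx]; omega⟩
  · exact Or.inl ⟨.S, by simp [nx]⟩
  · exact absurd rfl hne
  · exact Or.inr ⟨.S, .E, by simp [nx], mem_Blk.2 ⟨Or.inl rfl, Or.inl (by simp [nx])⟩, by simp [nx], by simp [nx]⟩
  · exact Or.inl ⟨.E, by simp [nx]⟩
  · exact Or.inl ⟨.W, by simp [nx]⟩
  · exact Or.inr ⟨.N, .W, by simp [nx], mem_Blk.2 ⟨Or.inr rfl, Or.inr (by simp [nx])⟩, by simp [nx],
      by simp [nx]; omega⟩
  · exact absurd rfl hne
  · exact Or.inl ⟨.N, by simp [nx]⟩
  · exact Or.inr ⟨.S, .W, by simp [nx], mem_Blk.2 ⟨Or.inr rfl, Or.inl (by simp [nx])⟩, by simp [nx], by simp [nx]⟩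
  · exact Or.inl ⟨.W, by simp [nx]⟩
  · exact Or.inl ⟨.S, by simp [nx]⟩
  · exact absurd rfl hne

private theorem nx_op (v : Pt) (D : Dir) : nx (nx v D) D.op = v := by
  cases D <;> simp [nx, Dir.op]

private theorem upd_ne {δ : Cfg} {v w : Pt} {c : Cell} (h : w ≠ v) : (δ.update v c) w = δ w := by
  rw [Finsupp.coe_update, Function.update_of_ne h]

/-- **a strand closes inside the free block** -/
theorem Op.close {j s : ℤ} {δ : Cfg} {p q : He} (hp : p ∈ Prt (Blk j s)) (hq : q ∈ Prt (Blk j s)) (hpq : p ≠ q)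
    (o : Op δ p q) (h0 : ∀ v ∈ Blk j s, δ v = .o) :
    ∃ δ' : Cfg, Lp δ' ∧ (∀ v, v ∉ Blk j s → δ' v = δ v) ∧ (∃ v ∈ Blk j s, δ' v ≠ .o) ∧
      HexObs.xc ^ 6 * m1 δ ≤ m1 δ' := by
  have x1 := HexObs.xc_pos
  have x2 := xc_le
  have x3 : HexObs.xc ^ 2 ≤ 1 := by nlinarith
  have x0 : 0 ≤ HexObs.xc ^ 2 := by positivity
  have m0 := m1_nonneg δ
  have one : ∀ d d' : Dir, HexObs.xc ^ 2 ≤ (jn d d').wt (wR (Real.pi / 8)) := fun d d' => jn_wt
  have ne_o : ∀ {d d' : Dir}, d ≠ d' → jn d d' ≠ .o := by decide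
  -- the last step
  by_cases e1 : (rv p).1 = (rv q).1
  · have hd : (rv q).2 ≠ (rv p).2 := fun e => hpq (by
      have := Prod.ext e1 e.symm
      rw [← rv_rv p, this, rv_rv])
    have o1 := o.ext (h0 _ hp.2) hd
    refine ⟨_, o1.cls ?_, fun v hv => upd_ne (fun e => hv (by rw [e]; exact hp.2)), ⟨_, hp.2, ?_⟩, ?_⟩
    · have : (((rv p).1, (rv q).2) : He) = rv q := Prod.ext e1 rfl
      rw [this, rv_rv]
    · rw [Finsupp.coe_update, Function.update_self]
      exact ne_o hd.symm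
    · rw [m1_update (h0 _ hp.2)]
      have := one (rv p).2 (rv q).2
      have h6 : HexObs.xc ^ 6 ≤ (jn (rv p).2 (rv q).2).wt (wR (Real.pi / 8)) := by
        refine le_trans ?_ this
        calc HexObs.xc ^ 6 = HexObs.xc ^ 2 * (HexObs.xc ^ 2 * HexObs.xc ^ 2) := by ring
          _ ≤ HexObs.xc ^ 2 * 1 := by gcongr; nlinarith
          _ = _ := by ring
      rw [mul_comm (m1 δ)]
      exact mul_le_mul_of_nonneg_right h6 m0
  rcases Blk.path hp.2 hq.2 e1 with ⟨D, hD⟩ | ⟨D, D', hD, hm, hmq, hmp⟩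
  · have d1 : D ≠ (rv p).2 := by
      rintro rfl
      apply hp.1
      have : nx (rv p).1 (rv p).2 = p.1 := congrArg Prod.fst (rv_rv p)
      rw [← this, hD]
      exact hq.2
    have o1 := o.ext (h0 _ hp.2) d1
    have r1 : rv ((rv p).1, D) = ((rv q).1, D.op) := by
      rw [rv, hD]
    have f1 : (δ.update (rv p).1 (jn (rv p).2 D)) (rv ((rv p).1, D)).1 = .o := by
      rw [r1, upd_ne (Ne.symm e1)]
      exact h0 _ hq.2
    have d2 : (rv q).2 ≠ (rv ((rv p).1, D)).2 := by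
      rw [r1]
      intro e
      apply hq.1
      have : nx (rv q).1 (rv q).2 = q.1 := congrArg Prod.fst (rv_rv q)
      rw [← this, e, ← hD, nx_op]
      exact hp.2
    have o2 := o1.ext f1 d2
    refine ⟨_, o2.cls ?_, fun v hv => ?_, ⟨(rv q).1, hq.2, ?_⟩, ?_⟩
    · rw [r1]
      exact rv_rv q
    · rw [upd_ne (fun e => hv (by rw [e, r1]; exact hq.2)), upd_ne (fun e => hv (by rw [e]; exact hp.2))]
    · rw [r1, Finsupp.coe_update, Function.update_self]
      rw [r1] at d2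
      exact ne_o d2.symm
    · rw [m1_update f1, m1_update (h0 _ hp.2)]
      have a1 := one (rv p).2 D
      have a2 := one (rv ((rv p).1, D)).2 (rv q).2
      calc HexObs.xc ^ 6 * m1 δ = m1 δ * HexObs.xc ^ 2 * HexObs.xc ^ 2 * HexObs.xc ^ 2 := by ring
        _ ≤ m1 δ * HexObs.xc ^ 2 * HexObs.xc ^ 2 * 1 := by gcongr
        _ = m1 δ * HexObs.xc ^ 2 * HexObs.xc ^ 2 := by ring
        _ ≤ _ := mul_le_mul (mul_le_mul le_rfl a1 x0 m0) a2 x0 (mul_nonneg m0 (wt0_nonneg _))
  · have d1 : D ≠ (rv p).2 := by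
      rintro rfl
      apply hp.1
      have : nx (rv p).1 (rv p).2 = p.1 := congrArg Prod.fst (rv_rv p)
      rw [← this]
      exact hm
    have o1 := o.ext (h0 _ hp.2) d1
    have r1 : rv ((rv p).1, D) = (nx (rv p).1 D, D.op) := rfl
    have f1 : (δ.update (rv p).1 (jn (rv p).2 D)) (rv ((rv p).1, D)).1 = .o := by
      rw [r1, upd_ne hmp]
      exact h0 _ hm
    have d2 : D' ≠ (rv ((rv p).1, D)).2 := by
      rw [r1]
      intro e
      simp only at e
      rw [e, nx_op] at hD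
      exact e1 hD
    have o2 := o1.ext f1 d2
    have r2 : rv ((rv ((rv p).1, D)).1, D') = ((rv q).1, D'.op) := by
      rw [r1, rv]
      simp only [hD]
    have f2 : ((δ.update (rv p).1 (jn (rv p).2 D)).update (rv ((rv p).1, D)).1
        (jn (rv ((rv p).1, D)).2 D')) (rv ((rv ((rv p).1, D)).1, D')).1 = .o := by
      rw [r2, upd_ne (by rw [r1]; exact hmq.symm), upd_ne (Ne.symm e1)]
      exact h0 _ hq.2
    have d3 : (rv q).2 ≠ (rv ((rv ((rv p).1, D)).1, D')).2 := by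
      rw [r2]
      intro e
      simp only at e
      apply hq.1
      have : nx (rv q).1 (rv q).2 = q.1 := congrArg Prod.fst (rv_rv q)
      rw [← this, e, ← hD, nx_op]
      exact hm
    have o3 := o2.ext f2 d3
    refine ⟨_, o3.cls ?_, fun v hv => ?_, ⟨(rv q).1, hq.2, ?_⟩, ?_⟩
    · rw [r2]
      exact rv_rv q
    · rw [upd_ne (fun e => hv (by rw [e, r2]; exact hq.2)), upd_ne (fun e => hv (by rw [e, r1]; exact hm)),
        upd_ne (fun e => hv (by rw [e]; exact hp.2))]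
    · rw [r2, Finsupp.coe_update, Function.update_self]
      rw [r2] at d3
      exact ne_o d3.symm
    · rw [m1_update f2, m1_update f1, m1_update (h0 _ hp.2)]
      have a1 := one (rv p).2 D
      have a2 := one (rv ((rv p).1, D)).2 D'
      have a3 := one (rv ((rv ((rv p).1, D)).1, D')).2 (rv q).2
      calc HexObs.xc ^ 6 * m1 δ = m1 δ * HexObs.xc ^ 2 * HexObs.xc ^ 2 * HexObs.xc ^ 2 := by ring
        _ ≤ _ := mul_le_mul (mul_le_mul (mul_le_mul le_rfl a1 x0 m0) a2 x0 (mul_nonneg m0 (wt0_nonneg _))) a3 x0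
          (mul_nonneg (mul_nonneg m0 (wt0_nonneg _)) (wt0_nonneg _))

/-! ### the two ends of a component -/

private theorem even_inv {s : Finset He} (g : He → He) (h1 : ∀ a ∈ s, g a ∈ s) (h2 : ∀ a ∈ s, g (g a) = a)
    (h3 : ∀ a ∈ s, g a ≠ a) : (s.card : ZMod 2) = 0 := by
  have := Finset.sum_involution (s := s) (f := fun _ => (1 : ZMod 2)) (fun a _ => g a)
    (fun a _ => by decide) (fun a ha _ => h3 a ha) (fun a ha => h1 a ha) (fun a ha => h2 a ha)
  simpa using this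

private theorem rv_ne (h : He) : rv h ≠ h := by
  obtain ⟨v, d⟩ := h
  intro e
  have := congrArg Prod.snd e
  cases d <;> simp [rv, Dir.op] at this

private theorem oc_fin (γ : Cfg) : {h | oc γ h}.Finite := by
  refine (Set.Finite.subset ((γ.support.finite_toSet).prod (Set.finite_univ (α := Dir))) ?_)
  intro h ho
  refine ⟨?_, Set.mem_univ _⟩
  change h.1 ∈ γ.support
  rw [Finsupp.mem_support_iff]
  intro e
  apply ho
  rw [e]
  rfl

private def wk (γ : Cfg) (h : He) : He := rv (vp γ h)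

private theorem wk_inj (γ : Cfg) : Function.Injective (wk γ) := by
  intro h k e
  have e1 : vp γ h = vp γ k := by rw [← rv_rv (vp γ h), ← rv_rv (vp γ k)]; exact congrArg rv e
  rw [← vp_vp γ h, e1, vp_vp]

private theorem cn_oc' {γ : Cfg} {A : Set Pt} (hm : Mt γ A) {b k : He} (hb : oc γ b) (hA : b.1 ∈ A)
    (c : Cn γ A b k) : oc γ k ∧ k.1 ∈ A := by
  refine Lab.cn_of hm (P := fun k => oc γ k ∧ k.1 ∈ A) (fun x y hx L => ?_) c ⟨hb, hA⟩
  rcases L.2.2 with rfl | ⟨rfl, l⟩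
  · exact ⟨(oc_vp γ x).2 hx.1, hx.2⟩
  · exact ⟨(hm x hx.2 l).1 hx.1, l⟩

/-- **a component with one boundary half edge has exactly two** -/
theorem two_ends {γ : Cfg} {A : Set Pt} (hm : Mt γ A) {b : He} (hb : b.1 ∈ A) (hb2 : (rv b).1 ∉ A)
    (hob : oc γ b) : ∃ e : He, e.1 ∈ A ∧ (rv e).1 ∉ A ∧ e ≠ b ∧ Cn γ A b e ∧
      ∀ k : He, k.1 ∈ A → (rv k).1 ∉ A → Cn γ A b k → k = b ∨ k = e := by
  classical
  have orb : ∀ n, (∀ i < n, (rv (vp γ ((wk γ)^[i] b))).1 ∈ A) → oc γ ((wk γ)^[n] b) ∧ ((wk γ)^[n] b).1 ∈ A := by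
    intro n
    induction n with
    | zero => intro _; exact ⟨hob, hb⟩
    | succ n ih =>
      intro h
      obtain ⟨e1, e2⟩ := ih fun i hi => h i (Nat.lt_succ_of_lt hi)
      have e3 := h n (Nat.lt_succ_self n)
      rw [Function.iterate_succ_apply']
      refine ⟨?_, e3⟩
      exact (hm _ (by exact e2) e3).1 ((oc_vp γ _).2 e1)
  obtain ⟨n, hn1, hn2⟩ : ∃ n, (∀ i < n, (rv (vp γ ((wk γ)^[i] b))).1 ∈ A) ∧
      (rv (vp γ ((wk γ)^[n] b))).1 ∉ A := by
    by_contra hc
    push Not at hc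
    have hall : ∀ n, (rv (vp γ ((wk γ)^[n] b))).1 ∈ A := by
      intro n
      induction n using Nat.strong_induction_on with
      | _ n ih => exact hc n ih
    have hinj : Function.Injective fun n : ℕ => (wk γ)^[n] b := by
      have aux : ∀ p q : ℕ, (wk γ)^[p] b = (wk γ)^[p + q] b → q = 0 := by
        intro p q e
        by_contra hq
        rw [Function.iterate_add_apply] at e
        have e' : b = (wk γ)^[q] b := ((wk_inj γ).iterate p) e
        obtain ⟨q', rfl⟩ := Nat.exists_eq_succ_of_ne_zero hq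
        rw [Function.iterate_succ_apply'] at e'
        have : (rv b).1 = (vp γ ((wk γ)^[q'] b)).1 := by
          conv_lhs => rw [e']
          unfold wk
          rw [rv_rv]
        exact hb2 (by rw [this]; exact (orb q' fun i _ => hall i).2)
      intro p q e
      simp only at e
      rcases le_total p q with hpq | hpq
      · obtain ⟨d, rfl⟩ := Nat.exists_eq_add_of_le hpq
        have := aux p d e
        omega
      · obtain ⟨d, rfl⟩ := Nat.exists_eq_add_of_le hpq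
        have := aux q d e.symm
        omega
    exact (Set.infinite_range_of_injective hinj) ((oc_fin γ).subset (by
      rintro _ ⟨n, rfl⟩
      exact (orb n fun i _ => hall i).1))
  set C : Set He := {h | ∃ i ≤ n, h = (wk γ)^[i] b ∨ h = vp γ ((wk γ)^[i] b)} with hC
  have clo : ∀ h k, Lk γ A h k → h ∈ C → k ∈ C := by
    rintro h k ⟨-, -, l⟩ ⟨i, hi, hh⟩
    rcases l with rfl | ⟨rfl, l⟩
    · rcases hh with rfl | rfl
      · exact ⟨i, hi, Or.inr rfl⟩
      · exact ⟨i, hi, Or.inl (vp_vp _ _)⟩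
    · rcases hh with rfl | rfl
      · rcases i with _ | i
        · exact absurd l hb2
        · refine ⟨i, by omega, Or.inr ?_⟩
          rw [Function.iterate_succ_apply']
          exact rv_rv _
      · rcases Nat.lt_or_ge i n with h1 | h1
        · refine ⟨i + 1, h1, Or.inl ?_⟩
          rw [Function.iterate_succ_apply']
          rfl
        · have : i = n := le_antisymm hi h1
          subst this
          exact absurd l hn2
  have hbC : b ∈ C := ⟨0, Nat.zero_le _, Or.inl rfl⟩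
  have inC : ∀ k, Cn γ A b k → k ∈ C := fun k c => Lab.cn_of hm (P := fun k => k ∈ C)
    (fun x y hx L => clo x y L hx) c hbC
  have key : ∀ k ∈ C, (rv k).1 ∉ A → k ≠ b → k = vp γ ((wk γ)^[n] b) := by
    rintro k ⟨i, hi, hk⟩ hkb hne
    rcases hk with rfl | rfl
    · rcases i with _ | i
      · exact absurd rfl hne
      · exfalso
        apply hkb
        rw [Function.iterate_succ_apply']
        have : (rv (wk γ ((wk γ)^[i] b))).1 = ((wk γ)^[i] b).1 := by
          unfold wk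
          rw [rv_rv]
          rfl
        rw [this]
        exact (orb i fun i' hi' => hn1 i' (by omega)).2
    · rcases Nat.lt_or_ge i n with h1 | h1
      · exact absurd (hn1 i h1) hkb
      · rw [le_antisymm hi h1]
  -- another one exists by parity
  have so : ∀ k, Cn γ A b k → oc γ k ∧ k.1 ∈ A := fun k hk => cn_oc' hm hob hb hk
  have hfin : {k | Cn γ A b k}.Finite := (oc_fin γ).subset fun k hk => (so k hk).1
  set s : Finset He := hfin.toFinset with hs
  have ms : ∀ k, k ∈ s ↔ Cn γ A b k := fun k => by rw [hs, Set.Finite.mem_toFinset]; rfl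
  have e1 : (s.card : ZMod 2) = 0 := by
    refine even_inv (vp γ) (fun a ha => ?_) (fun a _ => vp_vp γ a) (fun a ha => ?_)
    · have h0 := so a ((ms a).1 ha)
      exact (ms _).2 (cn_trans ((ms a).1 ha) (cn_vp h0.1 h0.2))
    · have h0 := so a ((ms a).1 ha)
      exact fun e => h0.1 (congrArg Prod.snd e)
  have e2 : ((s.filter fun k => ¬ (rv k).1 ∉ A).card : ZMod 2) = 0 := by
    refine even_inv rv (fun a ha => ?_) (fun a _ => rv_rv a) (fun a _ => rv_ne a)
    obtain ⟨ha1, ha2⟩ := Finset.mem_filter.1 ha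
    rw [not_not] at ha2
    have h0 := so a ((ms a).1 ha1)
    refine Finset.mem_filter.2 ⟨(ms _).2 (cn_trans ((ms a).1 ha1) (cn_rv h0.1 h0.2 ha2)), ?_⟩
    rw [not_not, rv_rv]
    exact h0.2
  have e3 : ((s.filter fun k => (rv k).1 ∉ A).card : ZMod 2) = 0 := by
    have := Finset.card_filter_add_card_filter_not (s := s) (fun k => (rv k).1 ∉ A)
    rw [← this, Nat.cast_add, e2, add_zero] at e1
    exact e1
  have hbs : b ∈ s.filter fun k => (rv k).1 ∉ A := Finset.mem_filter.2 ⟨(ms b).2 (cn_refl b), hb2⟩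
  have two : 1 < (s.filter fun k => (rv k).1 ∉ A).card := by
    have h1 : 0 < (s.filter fun k => (rv k).1 ∉ A).card := Finset.card_pos.2 ⟨b, hbs⟩
    rcases Nat.lt_or_ge 1 (s.filter fun k => (rv k).1 ∉ A).card with h | h
    · exact h
    · have : (s.filter fun k => (rv k).1 ∉ A).card = 1 := le_antisymm h h1
      rw [this] at e3
      exact absurd e3 (by decide)
  obtain ⟨e, he, hne⟩ := Finset.exists_mem_ne two b
  obtain ⟨he1, he2⟩ := Finset.mem_filter.1 he
  have ce := (ms e).1 he1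
  refine ⟨e, (so e ce).2, he2, hne, ce, fun k hk hk2 ck => ?_⟩
  by_cases hkb : k = b
  · exact Or.inl hkb
  · right
    rw [key k (inC k ck) hk2 hkb, key e (inC e ce) he2 hne]

/-! ### outer configurations and their strands -/

theorem OC.em {B : Set Pt} {w : Cfg} (o : OC B w) (v : Pt) (hv : v ∈ B) : w v = .o := o.off v hv

open Classical in
/-- the strand of the half edge `p` -/
noncomputable def st (B : Set Pt) (w : Cfg) (p : He) : Cfg :=
  Finsupp.onFinset w.support (fun v => Lab.sub (fun d => Cn w Bᶜ p (v, d)) (w v)) (by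
    intro v hv
    rw [Finsupp.mem_support_iff]
    intro e
    apply hv
    rw [e]
    rfl)

section

variable {B : Set Pt} {w : Cfg}

theorem st_apply (p : He) (v : Pt) : st B w p v = Lab.sub (fun d => Cn w Bᶜ p (v, d)) (w v) := rfl

theorem OC.nB (o : OC B w) {h : He} (ho : oc w h) : h.1 ∈ Bᶜ := by
  intro hB
  rw [oc, o.em _ hB] at ho
  exact Lab.not_oc_o _ ho

theorem OC.clo (o : OC B w) {p : He} (hp : oc w p) (v : Pt) (d : Dir) (c : Cn w Bᶜ p (v, d)) :
    Cn w Bᶜ p (v, (w v).p d) := by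
  have h0 := cn_oc' o.mt hp (o.nB hp) c
  exact cn_trans c (cn_vp h0.1 h0.2)

theorem OC.st_oc (o : OC B w) {p : He} (hp : oc w p) (h : He) : oc (st B w p) h ↔ Cn w Bᶜ p h := by
  rw [oc, st_apply, Lab.sub_oc (fun d => o.clo hp h.1 d)]
  constructor
  · exact fun h => h.1
  · intro c
    exact ⟨c, (cn_oc' o.mt hp (o.nB hp) c).1⟩

theorem OC.st_vp (o : OC B w) {p : He} (hp : oc w p) {h : He} (c : Cn w Bᶜ p h) : vp (st B w p) h = vp w h := by
  rw [vp, st_apply, Lab.sub_p (fun d => o.clo hp h.1 d), if_pos c]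
  rfl

/-- **a strand is an open path between two ports** -/
theorem OC.st_op (o : OC B w) {p : He} (hp : oc w p) (hpB : p ∈ Prt B) :
    ∃ q ∈ Prt B, q ≠ p ∧ Op (st B w p) p q := by
  obtain ⟨q, q1, q2, q3, q4, q5⟩ := two_ends o.mt (o.nB hp) (fun h => h hpB.2) hp
  rw [Set.notMem_compl_iff] at q2
  have cm : ∀ h, Cn w Bᶜ p h → Cn (st B w p) Set.univ p h := by
    intro h c
    have key : ∀ x y, Cn w Bᶜ x y → Cn w Bᶜ p x → Cn (st B w p) Set.univ x y := by
      intro x y c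
      induction c with
      | rel x y L =>
        intro hx
        refine Relation.EqvGen.rel _ _ ⟨(o.st_oc hp x).2 hx, Set.mem_univ _, ?_⟩
        rcases L.2.2 with e | ⟨e, -⟩
        · left
          rw [e, o.st_vp hp hx]
        · exact Or.inr ⟨e, Set.mem_univ _⟩
      | refl x => intro _; exact cn_refl _
      | symm x y c ih => intro hx; exact cn_symm (ih (cn_trans hx (cn_symm c)))
      | trans x y z c c' ih1 ih2 => intro hx; exact cn_trans (ih1 hx) (ih2 (cn_trans hx c))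
    exact key p h c (cn_refl p)
  refine ⟨q, ⟨q1, q2⟩, q3, (o.st_oc hp p).2 (cn_refl p), (o.st_oc hp q).2 q4, fun h h1 h2 h3 => ?_,
    fun h k h1 h2 => cn_trans (cn_symm (cm h ((o.st_oc hp h).1 h1))) (cm k ((o.st_oc hp k).1 h2))⟩
  have c1 := (o.st_oc hp h).1 h1
  have h4 := cn_oc' o.mt hp (o.nB hp) c1
  have h5 : (rv h).1 ∈ Bᶜ := by
    by_contra hc
    rcases q5 h h4.2 hc c1 with e | e
    · exact h2 e
    · exact h3 e
  exact (o.st_oc hp _).2 (cn_trans c1 (cn_rv h4.1 h4.2 h5))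

end

/-! ### the eight ports of the block -/

/-- the ports of the block -/
def pts (j s : ℤ) : Fin 8 → He :=
  ![((j - 1, s - 1), .E), ((j - 1, s), .E), ((j + 2, s - 1), .W), ((j + 2, s), .W), ((j, s - 1 - 1), .N),
    ((j + 1, s - 1 - 1), .N), ((j, s + 1), .S), ((j + 1, s + 1), .S)]

theorem pts_mem (j s : ℤ) (i : Fin 8) : pts j s i ∈ Prt (Blk j s) := by
  fin_cases i <;> simp [pts, Prt, mem_Blk, rv, nx] <;> omega

theorem exists_pts {j s : ℤ} {h : He} (hh : h ∈ Prt (Blk j s)) : ∃ i, pts j s i = h := by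
  obtain ⟨⟨x, y⟩, d⟩ := h
  obtain ⟨h1, h2⟩ := hh
  simp only [mem_Blk] at h1
  cases d <;> simp only [mem_Blk, rv, nx] at h2
  · have hx : x = j - 1 := by omega
    subst hx
    rcases h2.2 with rfl | rfl
    · exact ⟨0, rfl⟩
    · exact ⟨1, rfl⟩
  · have hy : y = s - 1 - 1 := by omega
    subst hy
    rcases h2.1 with rfl | rfl
    · exact ⟨4, rfl⟩
    · exact ⟨5, rfl⟩
  · have hx : x = j + 2 := by omega
    subst hx
    rcases h2.2 with rfl | rfl
    · exact ⟨2, rfl⟩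
    · exact ⟨3, rfl⟩
  · have hy : y = s + 1 := by omega
    subst hy
    rcases h2.1 with rfl | rfl
    · exact ⟨6, rfl⟩
    · exact ⟨7, rfl⟩

/-- the port `i` is the first port of its strand -/
def Fst (j s : ℤ) (w : Cfg) (i : Fin 8) : Prop :=
  oc w (pts j s i) ∧ ∀ i' < i, ¬ (oc w (pts j s i') ∧ Cn w (Blk j s)ᶜ (pts j s i) (pts j s i'))

open Classical in
/-- **the strands** -/
noncomputable def Ts (j s : ℤ) (w : Cfg) (i : Fin 8) : Cfg :=
  if Fst j s w i then st (Blk j s) w (pts j s i) else 0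

section

variable {j s : ℤ} {w : Cfg}

theorem OC.Ts_oc (o : OC (Blk j s) w) (i : Fin 8) (h : He) :
    oc (Ts j s w i) h ↔ Fst j s w i ∧ Cn w (Blk j s)ᶜ (pts j s i) h := by
  unfold Ts
  split_ifs with hf
  · rw [o.st_oc hf.1]
    exact ⟨fun c => ⟨hf, c⟩, fun c => c.2⟩
  · constructor
    · intro c
      exact absurd c (Lab.not_oc_o _)
    · exact fun c => absurd c.1 hf

theorem OC.Ts_p (o : OC (Blk j s) w) {i : Fin 8} {v : Pt} {d : Dir} (h : oc (Ts j s w i) (v, d)) :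
    (Ts j s w i v).p d = (w v).p d := by
  have h1 := (o.Ts_oc i _).1 h
  unfold Ts
  rw [if_pos h1.1]
  exact congrArg Prod.snd (o.st_vp h1.1.1 h1.2)

theorem OC.Ts_ex (o : OC (Blk j s) w) {h : He} (ho : oc w h) : ∃ i, oc (Ts j s w i) h := by
  classical
  have ex : ∃ i : Fin 8, oc w (pts j s i) ∧ Cn w (Blk j s)ᶜ (pts j s i) h := by
    obtain ⟨k, k1, k2, k3⟩ := o.cn h ho
    obtain ⟨i, rfl⟩ := exists_pts k1
    exact ⟨i, k2, cn_symm k3⟩
  obtain ⟨i, hi⟩ : ∃ i : Fin 8, (oc w (pts j s i) ∧ Cn w (Blk j s)ᶜ (pts j s i) h) ∧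
      ∀ i' < i, ¬ (oc w (pts j s i') ∧ Cn w (Blk j s)ᶜ (pts j s i') h) := by
    obtain ⟨i, hi⟩ := (Finset.exists_minimal (s := Finset.univ.filter fun i : Fin 8 =>
      oc w (pts j s i) ∧ Cn w (Blk j s)ᶜ (pts j s i) h) (by
        obtain ⟨i, hi⟩ := ex
        exact ⟨i, Finset.mem_filter.2 ⟨Finset.mem_univ _, hi⟩⟩))
    refine ⟨i, (Finset.mem_filter.1 hi.1).2, fun i' hlt h' => ?_⟩
    exact absurd (hi.2 (Finset.mem_filter.2 ⟨Finset.mem_univ _, h'⟩) hlt.le) (not_le.2 hlt)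
  refine ⟨i, (o.Ts_oc i h).2 ⟨⟨hi.1.1, fun i' hlt h' => ?_⟩, hi.1.2⟩⟩
  exact hi.2 i' hlt ⟨h'.1, cn_trans (cn_symm h'.2) hi.1.2⟩

theorem OC.Ts_un (o : OC (Blk j s) w) {i i' : Fin 8} {h : He} (h1 : oc (Ts j s w i) h) (h2 : oc (Ts j s w i') h) :
    i = i' := by
  obtain ⟨f1, c1⟩ := (o.Ts_oc i h).1 h1
  obtain ⟨f2, c2⟩ := (o.Ts_oc i' h).1 h2
  rcases lt_trichotomy i i' with hlt | e | hlt
  · exact absurd ⟨f1.1, cn_trans c2 (cn_symm c1)⟩ (f2.2 i hlt)
  · exact e
  · exact absurd ⟨f2.1, cn_trans c1 (cn_symm c2)⟩ (f1.2 i' hlt)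

theorem OC.Ts_sub (o : OC (Blk j s) w) {i : Fin 8} {h : He} (h1 : oc (Ts j s w i) h) : oc w h := by
  obtain ⟨f1, c1⟩ := (o.Ts_oc i h).1 h1
  exact (cn_oc' o.mt f1.1 (o.nB f1.1) c1).1

/-- the strands determine the configuration -/
theorem OC.Ts_inj {w' : Cfg} (o : OC (Blk j s) w) (o' : OC (Blk j s) w') (e : Ts j s w = Ts j s w') : w = w' := by
  have key : ∀ {u u' : Cfg}, OC (Blk j s) u → OC (Blk j s) u' → Ts j s u = Ts j s u' → ∀ v d, oc u (v, d) →
      oc u' (v, d) ∧ (u v).p d = (u' v).p d := by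
    intro u u' hu hu' e v d h
    obtain ⟨i, hi⟩ := hu.Ts_ex h
    have h2 : oc (Ts j s u' i) (v, d) := by rw [← e]; exact hi
    refine ⟨hu'.Ts_sub h2, ?_⟩
    rw [← hu.Ts_p hi, ← hu'.Ts_p h2, e]
  refine Finsupp.ext fun v => Lab.ext_p fun d => ?_
  by_cases h : oc w (v, d)
  · exact (key o o' e v d h).2
  · have h' : ¬ oc w' (v, d) := fun h' => h (key o' o e.symm v d h').1
    simp only [oc, Cell.oc, ne_eq, not_not] at h h'
    rw [h, h']

private theorem prod_one {P : Fin 8 → Prop} [DecidablePred P] (a : ℝ) (h : ∃! i, P i) :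
    ∏ i, (if P i then a else 1) = a := by
  obtain ⟨i, hi, hu⟩ := h
  rw [Finset.prod_eq_single i (fun i' _ hne => if_neg fun h => hne (hu i' h)) (fun h => absurd (Finset.mem_univ _) h),
    if_pos hi]

open Classical in
/-- the weight of a cell against the weights of its parts -/
theorem wt_parts {c : Cell} {f : Fin 8 → Cell} (h1 : ∀ i d, (f i).oc d → c.oc d ∧ (f i).p d = c.p d)
    (h2 : ∀ d, c.oc d → ∃! i, (f i).oc d) :
    c.wt (wR (Real.pi / 8)) ≤ ∏ i, (f i).wt (wR (Real.pi / 8)) := by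
  have hx : (0 : ℝ) < HexObs.xc := HexObs.xc_pos
  have fo : ∀ i, (∀ d, ¬ c.oc d) → f i = .o := fun i h => Lab.eq_o.2 fun d hd => h d (h1 i d hd).1
  have tw : ∀ (c0 : Cell) (d0 : Dir), c = c0 → c0.oc d0 → (∀ d, c0.oc d → d = d0 ∨ d = c0.p d0) →
      c.wt (wR (Real.pi / 8)) ≤ ∏ i, (f i).wt (wR (Real.pi / 8)) := by
    rintro c0 d0 rfl ho hd
    have hi : ∀ i, f i = if (f i).oc d0 then c else .o := by
      intro i
      split_ifs with hi
      · refine Lab.ext_p fun d => ?_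
        by_cases hd1 : c.oc d
        · have h3 : (f i).oc d := by
            rcases hd d hd1 with rfl | rfl
            · exact hi
            · rw [← (h1 i d0 hi).2]
              exact (Lab.oc_p _ _).2 hi
          exact (h1 i d h3).2
        · have h3 : ¬ (f i).oc d := fun h => hd1 (h1 i d h).1
          simp only [Cell.oc, ne_eq, not_not] at hd1 h3
          rw [hd1, h3]
      · refine Lab.eq_o.2 fun d hd1 => hi ?_
        rcases hd d (h1 i d hd1).1 with rfl | e
        · exact hd1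
        · have := (Lab.oc_p (f i) d).2 hd1
          rw [(h1 i d hd1).2, e, Lab.p_p] at this
          exact this
    have hw : ∀ i, (f i).wt (wR (Real.pi / 8)) = if (f i).oc d0 then c.wt (wR (Real.pi / 8)) else 1 := by
      intro i
      conv_lhs => rw [hi i]
      split_ifs <;> rfl
    rw [Finset.prod_congr rfl fun i _ => hw i, prod_one _ (h2 d0 ho)]
  cases c with
  | o =>
    have : ∀ i, f i = .o := fun i => fo i (by decide)
    simp only [this]
    simp [Cell.wt]
  | h => exact tw .h .E rfl (by decide) (by decide)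
  | v => exact tw .v .N rfl (by decide) (by decide)
  | sw => exact tw .sw .S rfl (by decide) (by decide)
  | ne => exact tw .ne .N rfl (by decide) (by decide)
  | se => exact tw .se .S rfl (by decide) (by decide)
  | nw => exact tw .nw .N rfl (by decide) (by decide)
  | x =>
    have hw : ∀ i, (f i).wt (wR (Real.pi / 8)) = (if (f i).oc .S then HexObs.xc else 1) *
        (if (f i).oc .N then HexObs.xc else 1) := by
      intro i
      have a := h1 i
      rw [wt0]
      generalize f i = g at a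
      cases g
      · simp [Cell.oc, Cell.p]
      · exact absurd (a .E (by decide)).2 (by decide)
      · exact absurd (a .N (by decide)).2 (by decide)
      · simp [Cell.oc, Cell.p]
      · simp [Cell.oc, Cell.p]
      · exact absurd (a .S (by decide)).2 (by decide)
      · exact absurd (a .N (by decide)).2 (by decide)
      · simp [Cell.oc, Cell.p]; ring
      · exact absurd (a .S (by decide)).2 (by decide)
    rw [Finset.prod_congr rfl fun i _ => hw i, Finset.prod_mul_distrib, prod_one _ (h2 .S (by decide)),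
      prod_one _ (h2 .N (by decide)), wt0]
    simp only
    rw [sq]
  | y =>
    rw [wt0]
    exact Finset.prod_nonneg fun i _ => wt0_nonneg _

/-- **the weight of the configuration against the weights of its strands** -/
theorem OC.m1_le (o : OC (Blk j s) w) : m1 w ≤ ∏ i, m1 (Ts j s w i) := by
  have hs : ∀ i, m1 (Ts j s w i) = ∏ v ∈ w.support, (Ts j s w i v).wt (wR (Real.pi / 8)) := by
    intro i
    refine Finsupp.prod_of_support_subset _ (fun v hv => ?_) _ fun _ _ => rfl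
    rw [Finsupp.mem_support_iff] at hv ⊢
    obtain ⟨d, hd⟩ := Lab.ex_oc hv
    have := o.Ts_sub (h := (v, d)) hd
    intro e
    rw [oc, e] at this
    exact Lab.not_oc_o _ this
  rw [Finset.prod_congr rfl fun i _ => hs i, Finset.prod_comm]
  refine Finset.prod_le_prod (fun _ _ => wt0_nonneg _) fun v _ => ?_
  refine wt_parts (fun i d h => ⟨o.Ts_sub (h := (v, d)) h, o.Ts_p h⟩) fun d hd => ?_
  obtain ⟨i, hi⟩ := o.Ts_ex (h := (v, d)) hd
  exact ⟨i, hi, fun i' hi' => o.Ts_un (h := (v, d)) hi' hi⟩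

end

/-! ### the sums -/

open scoped ENNReal

/-- a strand of the port `p` -/
def Sd (B : Set Pt) (p : He) (τ : Cfg) : Prop := (∃ q ∈ Prt B, p ≠ q ∧ Op τ p q) ∧ ∀ v ∈ B, τ v = .o

open Classical in
/-- the mass of the strands of the port `p` -/
noncomputable def SK (B : Set Pt) (p : He) (Q : Cfg → Prop) : ℝ≥0∞ :=
  ∑' τ : Cfg, if Sd B p τ ∧ Q τ then ENNReal.ofReal (m1 τ) else 0

open Classical in
/-- **the mass of the loops through `B`** -/
noncomputable def KL (B : Set Pt) (Q : Cfg → Prop) : ℝ≥0∞ :=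
  ∑' δ : Cfg, if Lp δ ∧ (∃ v ∈ B, δ v ≠ .o) ∧ Q δ then ENNReal.ofReal (m1 δ) else 0

open Classical in
/-- **the mass of the outer configurations** -/
noncomputable def OK (B : Set Pt) (P : Cfg → Prop) : ℝ≥0∞ :=
  ∑' w : Cfg, if OC B w ∧ P w then ENNReal.ofReal (m1 w) else 0

theorem xc6_pos : 0 < HexObs.xc ^ 6 := pow_pos HexObs.xc_pos 6

/-- the constant of one closing -/
noncomputable def c6 : ℝ≥0∞ := ENNReal.ofReal (HexObs.xc ^ 6)⁻¹

theorem c6_ne_top : c6 ≠ ⊤ := ENNReal.ofReal_ne_top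

/-- **strands against loops** -/
theorem SK_le {j s : ℤ} {p : He} (hp : p ∈ Prt (Blk j s)) {Q Q' : Cfg → Prop}
    (hQ : ∀ τ δ : Cfg, (∀ v, v ∉ Blk j s → δ v = τ v) → (∀ v ∈ Blk j s, τ v = .o) → Q τ → Q' δ) :
    SK (Blk j s) p Q ≤ c6 * KL (Blk j s) Q' := by
  classical
  have ch : ∀ τ : {τ : Cfg // Sd (Blk j s) p τ ∧ Q τ}, ∃ δ : Cfg, Lp δ ∧ (∀ v, v ∉ Blk j s → δ v = τ.1 v) ∧
      (∃ v ∈ Blk j s, δ v ≠ .o) ∧ HexObs.xc ^ 6 * m1 τ.1 ≤ m1 δ := by
    rintro ⟨τ, ⟨⟨q, hq, hpq, o⟩, h0⟩, -⟩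
    exact o.close hp hq hpq h0
  choose f f1 f2 f3 f4 using ch
  have fQ : ∀ τ, Q' (f τ) := fun τ => hQ τ.1 (f τ) (f2 τ) τ.2.1.2 τ.2.2
  have finj : Function.Injective f := by
    intro τ τ' e
    refine Subtype.ext (Finsupp.ext fun v => ?_)
    by_cases hv : v ∈ Blk j s
    · rw [τ.2.1.2 v hv, τ'.2.1.2 v hv]
    · rw [← f2 τ v hv, ← f2 τ' v hv, e]
  unfold SK KL
  have e1 : ∑' τ : Cfg, (if Sd (Blk j s) p τ ∧ Q τ then ENNReal.ofReal (m1 τ) else 0) =
      ∑' τ : {τ : Cfg // Sd (Blk j s) p τ ∧ Q τ}, ENNReal.ofReal (m1 τ.1) := by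
    refine Eq.trans (tsum_congr fun τ => ?_)
      (tsum_subtype {τ : Cfg | Sd (Blk j s) p τ ∧ Q τ} fun τ => ENNReal.ofReal (m1 τ)).symm
    by_cases h : Sd (Blk j s) p τ ∧ Q τ
    · rw [if_pos h]
      exact (Set.indicator_of_mem (s := {τ : Cfg | Sd (Blk j s) p τ ∧ Q τ}) h
        fun τ => ENNReal.ofReal (m1 τ)).symm
    · rw [if_neg h]
      exact (Set.indicator_of_notMem (s := {τ : Cfg | Sd (Blk j s) p τ ∧ Q τ}) h
        fun τ => ENNReal.ofReal (m1 τ)).symm
  rw [e1, ← ENNReal.tsum_mul_left]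
  have e2 : ∀ τ : {τ : Cfg // Sd (Blk j s) p τ ∧ Q τ}, ENNReal.ofReal (m1 τ.1) ≤
      c6 * (if Lp (f τ) ∧ (∃ v ∈ Blk j s, f τ v ≠ .o) ∧ Q' (f τ) then ENNReal.ofReal (m1 (f τ)) else 0) := by
    intro τ
    rw [if_pos ⟨f1 τ, f3 τ, fQ τ⟩, c6, ← ENNReal.ofReal_mul (inv_nonneg.2 xc6_pos.le)]
    refine ENNReal.ofReal_le_ofReal ?_
    rw [inv_mul_eq_div, le_div_iff₀ xc6_pos, mul_comm]
    exact f4 τ
  exact (ENNReal.tsum_le_tsum e2).trans (ENNReal.tsum_comp_le_tsum_of_injective finj fun δ =>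
    c6 * (if Lp δ ∧ (∃ v ∈ Blk j s, δ v ≠ .o) ∧ Q' δ then ENNReal.ofReal (m1 δ) else 0))

theorem m1_zero : m1 0 = 1 := by simp [m1]

private theorem Ts_Sd {j s : ℤ} {w : Cfg} (o : OC (Blk j s) w) (i : Fin 8) (h : Ts j s w i ≠ 0) :
    Sd (Blk j s) (pts j s i) (Ts j s w i) := by
  unfold Ts at h ⊢
  split_ifs at h ⊢ with hf
  · obtain ⟨q, q1, q2, q3⟩ := o.st_op hf.1 (pts_mem j s i)
    refine ⟨⟨q, q1, q2.symm, q3⟩, fun v hv => ?_⟩
    rw [st_apply, o.em v hv]
    rfl
  · exact absurd rfl h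

/-- **(L7a) outer configurations against true loops** -/
theorem OK_le {j s : ℤ} {P Q Q' : Cfg → Prop} (h0 : ¬ Q 0)
    (hP : ∀ w : Cfg, OC (Blk j s) w → P w → ∃ i, Q (Ts j s w i))
    (hQ : ∀ τ δ : Cfg, (∀ v, v ∉ Blk j s → δ v = τ v) → (∀ v ∈ Blk j s, τ v = .o) → Q τ → Q' δ) :
    OK (Blk j s) P ≤ 8 * (c6 * KL (Blk j s) Q') * (1 + c6 * KL (Blk j s) fun _ => True) ^ 7 := by
  classical
  set a : ℝ≥0∞ := c6 * KL (Blk j s) Q' with ha
  set b : ℝ≥0∞ := 1 + c6 * KL (Blk j s) fun _ => True with hb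
  -- the factors
  set F : Fin 8 → Fin 8 → Cfg → ℝ≥0∞ := fun i0 i τ =>
    if i = i0 then (if Sd (Blk j s) (pts j s i) τ ∧ Q τ then ENNReal.ofReal (m1 τ) else 0)
    else (if τ = 0 then 1 else 0) + (if Sd (Blk j s) (pts j s i) τ then ENNReal.ofReal (m1 τ) else 0) with hF
  have hFa : ∀ i0, ∑' τ, F i0 i0 τ ≤ a := by
    intro i0
    simp only [hF, if_true]
    exact SK_le (pts_mem j s i0) hQ
  have hFb : ∀ i0 i, i ≠ i0 → ∑' τ, F i0 i τ ≤ b := by
    intro i0 i hne
    simp only [hF, if_neg hne]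
    rw [ENNReal.tsum_add, tsum_ite_eq]
    have := SK_le (Q := fun _ => True) (Q' := fun _ => True) (pts_mem j s i) fun _ _ _ _ _ => trivial
    refine add_le_add le_rfl (le_trans (le_of_eq (tsum_congr fun τ => ?_)) this)
    by_cases h : Sd (Blk j s) (pts j s i) τ
    · simp [h]
    · simp [h]
  have key : ∀ i0 : Fin 8, ∀ Ω : Finset Cfg, (∀ w ∈ Ω, OC (Blk j s) w ∧ Q (Ts j s w i0)) →
      ∑ w ∈ Ω, ENNReal.ofReal (m1 w) ≤ a * b ^ 7 := by
    intro i0 Ω hΩ
    have s1 : ∀ w ∈ Ω, ENNReal.ofReal (m1 w) ≤ ∏ i, F i0 i (Ts j s w i) := by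
      intro w hw
      obtain ⟨o, q⟩ := hΩ w hw
      refine (ENNReal.ofReal_le_ofReal o.m1_le).trans ?_
      rw [ENNReal.ofReal_prod_of_nonneg fun i _ => m1_nonneg _]
      refine Finset.prod_le_prod' fun i _ => ?_
      by_cases hi : i = i0
      · subst hi
        have hne : Ts j s w i ≠ 0 := fun e => h0 (e ▸ q)
        simp only [hF, if_true, if_pos (show Sd (Blk j s) (pts j s i) (Ts j s w i) ∧ Q (Ts j s w i) from
          ⟨Ts_Sd o i hne, q⟩)]
        exact le_rfl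
      · simp only [hF, if_neg hi]
        by_cases e : Ts j s w i = 0
        · rw [e, if_pos rfl, m1_zero, ENNReal.ofReal_one]
          exact le_self_add
        · rw [if_pos (Ts_Sd o i e)]
          exact le_add_self
    have s2 : ∑ w ∈ Ω, ∏ i, F i0 i (Ts j s w i) ≤
        ∑ g ∈ Fintype.piFinset fun i => Ω.image fun w => Ts j s w i, ∏ i, F i0 i (g i) := by
      rw [← Finset.sum_image (f := fun g : Fin 8 → Cfg => ∏ i, F i0 i (g i)) (g := fun w => Ts j s w) (s := Ω) (by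
        intro w hw w' hw' e
        exact (hΩ w hw).1.Ts_inj (hΩ w' hw').1 e)]
      refine Finset.sum_le_sum_of_subset fun g hg => ?_
      obtain ⟨w, hw, rfl⟩ := Finset.mem_image.1 hg
      exact Fintype.mem_piFinset.2 fun i => Finset.mem_image_of_mem _ hw
    refine (Finset.sum_le_sum s1).trans (s2.trans ?_)
    rw [← Finset.prod_univ_sum]
    have s3 : ∀ i ∈ (Finset.univ : Finset (Fin 8)), ∑ τ ∈ Ω.image (fun w => Ts j s w i), F i0 i τ ≤
        if i = i0 then a else b := by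
      intro i _
      refine (ENNReal.sum_le_tsum _).trans ?_
      split_ifs with hi
      · rw [hi]; exact hFa i0
      · exact hFb i0 i hi
    refine (Finset.prod_le_prod' s3).trans (le_of_eq ?_)
    rw [← Finset.mul_prod_erase Finset.univ _ (Finset.mem_univ i0), if_pos rfl]
    congr 1
    rw [Finset.prod_congr rfl fun i hi => if_neg (Finset.ne_of_mem_erase hi), Finset.prod_const,
      Finset.card_erase_of_mem (Finset.mem_univ _)]
    rfl
  unfold OK
  rw [ENNReal.tsum_eq_iSup_sum]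
  refine iSup_le fun Ω => ?_
  rw [← Finset.sum_filter]
  have s4 : ∑ w ∈ Ω.filter (fun w => OC (Blk j s) w ∧ P w), ENNReal.ofReal (m1 w) ≤
      ∑ i0 : Fin 8, ∑ w ∈ Ω.filter (fun w => OC (Blk j s) w ∧ Q (Ts j s w i0)), ENNReal.ofReal (m1 w) := by
    have : ∀ w ∈ Ω.filter (fun w => OC (Blk j s) w ∧ P w), ENNReal.ofReal (m1 w) ≤
        ∑ i0 : Fin 8, if OC (Blk j s) w ∧ Q (Ts j s w i0) then ENNReal.ofReal (m1 w) else 0 := by
      intro w hw
      obtain ⟨-, o, hp⟩ := Finset.mem_filter.1 hw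
      obtain ⟨i0, q⟩ := hP w o hp
      refine le_trans ?_ (Finset.single_le_sum (f := fun i0 => if OC (Blk j s) w ∧ Q (Ts j s w i0) then
        ENNReal.ofReal (m1 w) else 0) (fun _ _ => bot_le) (Finset.mem_univ i0))
      simp only [if_pos (show OC (Blk j s) w ∧ Q (Ts j s w i0) from ⟨o, q⟩)]
      exact le_rfl
    refine (Finset.sum_le_sum this).trans ?_
    rw [Finset.sum_comm]
    refine Finset.sum_le_sum fun i0 _ => ?_
    rw [← Finset.sum_filter]
    refine Finset.sum_le_sum_of_subset fun w hw => ?_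
    obtain ⟨h1, h2⟩ := Finset.mem_filter.1 hw
    exact Finset.mem_filter.2 ⟨(Finset.mem_filter.1 h1).1, h2⟩
  refine s4.trans ?_
  refine (Finset.sum_le_sum fun i0 _ => key i0 _ fun w hw => (Finset.mem_filter.1 hw).2).trans ?_
  rw [Finset.sum_const, Finset.card_univ, Fintype.card_fin, nsmul_eq_mul, ← mul_assoc]
  norm_num

/-- far from the block -/
def Far (j s n : ℤ) (w : Cfg) : Prop := ∃ v, w v ≠ .o ∧ (n ≤ |v.1 - j| ∨ n ≤ |v.2 - s|)

/-- **(L7a), the form of the plan**: the outer configurations inside `H` which go as far as `n` against the true loops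
through the block inside `H` and the block which go as far as `n` -/
theorem OK_far {j s n : ℤ} (H : Set Pt) (hn : 2 ≤ n) :
    OK (Blk j s) (fun w => (∀ v, w v ≠ .o → v ∈ H) ∧ Far j s n w) ≤
      8 * (c6 * KL (Blk j s) fun δ => (∀ v, δ v ≠ .o → v ∈ H ∪ Blk j s) ∧ Far j s n δ) *
        (1 + c6 * KL (Blk j s) fun _ => True) ^ 7 := by
  refine OK_le (Q := fun w => (∀ v, w v ≠ .o → v ∈ H) ∧ Far j s n w) ?_ ?_ ?_
  · rintro ⟨-, v, hv, -⟩
    exact hv rfl
  · rintro w o ⟨h1, v, hv, hf⟩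
    obtain ⟨d, hd⟩ := Lab.ex_oc hv
    obtain ⟨i, hi⟩ := o.Ts_ex (h := (v, d)) hd
    refine ⟨i, fun u hu => ?_, v, fun e => ?_, hf⟩
    · obtain ⟨d', hd'⟩ := Lab.ex_oc hu
      have := o.Ts_sub (h := (u, d')) hd'
      exact h1 u fun e => by rw [oc, e] at this; exact Lab.not_oc_o _ this
    · rw [oc, e] at hi
      exact Lab.not_oc_o _ hi
  · rintro τ δ e0 eB ⟨h1, v, hv, hf⟩
    refine ⟨fun u hu => ?_, v, ?_, hf⟩
    · by_cases hB : u ∈ Blk j s
      · exact Or.inr hB
      · exact Or.inl (h1 u (by rw [← e0 u hB]; exact hu))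
    · have hB : v ∉ Blk j s := fun hB => hv (eB v hB)
      rw [e0 v hB]
      exact hv

end Pool.Agent.ROT.LB
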