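import Pool.Agent.ROT.LOut
import Pool.Agent.ROT.LStrand
import Pool.Agent.ROT.LDefs

/-!
# ROT, row L7c, first part: the bad families at a block

`blk_sum`: the mass of the families (graph `g0` or `gX j s`) with two members at the block, one of them in a half plane of the
block, against the masses of the outer parts.
-/

set_option autoImplicit false

namespace Pool.Agent.ROT.LF

open Pool.Agent.YBC (Dir)
open Pool.Agent.ROT.E (Cell IsUn Pt Cfg)
open Pool.Agent.ROT.L (VX FX Gr g0 gX Fam co Vb Xb Bad Bk fac wfg wt dwt jw M dM Jw)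
open Pool.Agent.ROT.LB
open scoped ENNReal

variable {I : Type}

/-! ### one vertex -/

theorem wfg_un {θ : Cell → ℝ} {f : I → Cell} {c : Cell} (h : IsUn f c) : wfg θ f = θ c := by
  classical
  unfold wfg
  rw [Finset.sum_eq_single c]
  · rw [if_pos h]
  · intro b _ hb
    rw [if_neg fun h' => hb (E.Lab.un_unique h' h)]
  · intro h1
    exact (h1 (Finset.mem_univ _)).elim

/-- the sum of the absolute values -/
noncomputable def sb (θ : Cell → ℝ) : ℝ := ∑ c, |θ c|

theorem wfg_abs (θ : Cell → ℝ) (f : I → Cell) : |wfg θ f| ≤ sb θ := by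
  classical
  unfold wfg sb
  refine (Finset.abs_sum_le_sum_abs _ _).trans (Finset.sum_le_sum fun c _ => ?_)
  split_ifs
  · exact le_refl _
  · rw [abs_zero]
    exact abs_nonneg _

theorem wt_o : wt .o = 1 := rfl

theorem wt_nn (c : Cell) : 0 ≤ wt c := wt0_nonneg c

theorem one_le_sb : 1 ≤ sb wt := by
  unfold sb
  refine le_trans ?_ (Finset.single_le_sum (f := fun c => |wt c|) (fun _ _ => abs_nonneg _) (Finset.mem_univ Cell.o))
  simp [wt_o]

/-- **the weight of a vertex against the weights of the members** -/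
theorem wfg_le [Fintype I] {f : I → Cell} (h : ∃ c, IsUn f c) : wfg wt f ≤ ∏ l, wt (f l) := by
  classical
  obtain ⟨c, hc⟩ := h
  rw [wfg_un hc]
  have e0 : ∀ c : Cell, wt c = if c = .y then 0 else HexObs.xc ^ E.Hx.nv c := fun c => E.Hx.wt_hex c
  by_cases hy : c = .y
  · rw [e0, if_pos hy]
    exact Finset.prod_nonneg fun l _ => wt_nn _
  · obtain ⟨h1, h2⟩ := (E.Hx.ny_un hc 0).1 hy
    rw [e0, if_neg hy, ← E.Hx.vs_card 0 hy, E.Hx.un_vs hc 0, Finset.card_biUnion fun i _ k _ hik => h2 hik,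
      ← Finset.prod_pow_eq_pow_sum]
    refine le_of_eq (Finset.prod_congr rfl fun l _ => ?_)
    rw [e0, if_neg (h1 l), E.Hx.vs_card 0 (h1 l)]

/-! ### the weight of a family -/

/-- the vertices of the block and the crossing -/
def V5 (j s : ℤ) : Finset VX := {none, some (j, s - 1), some (j + 1, s - 1), some (j, s), some (j + 1, s)}

theorem mem_V5 {j s : ℤ} {x : VX} : x ∈ V5 j s ↔ ∀ v, x = some v → v ∈ Blk j s := by
  simp only [V5, Finset.mem_insert, Finset.mem_singleton, Blk, Set.mem_insert_iff, Set.mem_singleton_iff]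
  rcases x with _ | v
  · simp
  · simp

/-- the outer part of the member `l` -/
noncomputable def ot (B : Set Pt) (γ : FX I) (l : I) : Cfg := out B (co γ l)

theorem ot_off {B : Set Pt} {γ : FX I} {l : I} {v : Pt} (hv : v ∉ B) : ot B γ l v = γ (some v) l := out_off hv

theorem ot_on {B : Set Pt} {γ : FX I} {l : I} {v : Pt} (hv : v ∈ B) : ot B γ l v = .o := out_on hv

theorem wfg_zero {θ : Cell → ℝ} (h : θ .o = 1) : wfg θ (0 : I → Cell) = 1 := by
  show wfg θ (fun _ : I => Cell.o) = 1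
  rw [wfg_un (c := .o) E.Lab.un_zero, h]

theorem fac_zero (v : VX) : fac v (0 : I → Cell) = 1 := by
  cases v with
  | none => rfl
  | some p => exact wfg_zero wt_o

variable [Fintype I]

/-- the product of the outer weights -/
theorem prod_out (j s : ℤ) (γ : FX I) :
    ∏ l, m1 (ot (Blk j s) γ l) = ∏ v ∈ γ.support \ V5 j s, ∏ l, wt (γ v l) := by
  classical
  rw [Finset.prod_comm]
  refine Finset.prod_congr rfl fun l _ => ?_
  obtain ⟨T, hT⟩ : ∃ T : Finset Pt, T = (γ.support \ V5 j s).eraseNone := ⟨_, rfl⟩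
  have hmT : ∀ u, u ∈ T ↔ γ (some u) ≠ 0 ∧ u ∉ Blk j s := by
    intro u
    rw [hT, Finset.mem_eraseNone, Finset.mem_sdiff, Finsupp.mem_support_iff, mem_V5]
    constructor
    · rintro ⟨h1, h2⟩
      exact ⟨h1, fun h3 => h2 fun v hv => by cases hv; exact h3⟩
    · rintro ⟨h1, h2⟩
      exact ⟨h1, fun h3 => h2 (h3 u rfl)⟩
  have h1 : (ot (Blk j s) γ l).support ⊆ T := by
    intro u hu
    rw [Finsupp.mem_support_iff] at hu
    rw [hmT]
    by_cases hB : u ∈ Blk j s
    · exact absurd (ot_on hB) hu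
    · refine ⟨fun h0 => hu ?_, hB⟩
      rw [ot_off hB, h0]
      rfl
  have h2 : m1 (ot (Blk j s) γ l) = ∏ u ∈ T, wt (ot (Blk j s) γ l u) :=
    Finsupp.prod_of_support_subset _ h1 _ fun v _ => wt_o
  rw [h2]
  have h3 : γ.support \ V5 j s = T.map Function.Embedding.some := by
    rw [hT, Finset.map_some_eraseNone, Finset.erase_eq_of_notMem]
    intro h4
    rw [Finset.mem_sdiff, mem_V5] at h4
    exact h4.2 fun v hv => by cases hv
  rw [h3, Finset.prod_map]
  refine Finset.prod_congr rfl fun u hu => ?_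
  rw [ot_off ((hmT u).1 hu).2]
  rfl

/-- partial products -/
theorem prod_bd {j s : ℤ} {γ : FX I} (dj : ∀ v, ∃ c, IsUn (γ v) c) {S : Finset VX} (hS : S \ V5 j s = γ.support \ V5 j s) :
    |∏ v ∈ S, fac v (γ v)| ≤ sb wt ^ 5 * ∏ l, m1 (ot (Blk j s) γ l) := by
  classical
  rw [← Finset.prod_inter_mul_prod_sdiff S (V5 j s), abs_mul, prod_out, hS]
  have c1 := one_le_sb
  have h1 : |∏ v ∈ S ∩ V5 j s, fac v (γ v)| ≤ sb wt ^ 5 := by
    rw [Finset.abs_prod]
    calc ∏ v ∈ S ∩ V5 j s, |fac v (γ v)| ≤ ∏ v ∈ S ∩ V5 j s, sb wt := by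
          refine Finset.prod_le_prod (fun v _ => abs_nonneg _) fun v _ => ?_
          cases v with
          | none =>
            show |(1 : ℝ)| ≤ _
            rw [abs_one]
            exact c1
          | some p => exact wfg_abs _ _
      _ = sb wt ^ (S ∩ V5 j s).card := by rw [Finset.prod_const]
      _ ≤ sb wt ^ 5 := by
          refine pow_le_pow_right₀ c1 ((Finset.card_le_card Finset.inter_subset_right).trans ?_)
          exact Finset.card_le_five
  have h2 : |∏ v ∈ γ.support \ V5 j s, fac v (γ v)| ≤ ∏ v ∈ γ.support \ V5 j s, ∏ l, wt (γ v l) := by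
    rw [Finset.abs_prod]
    refine Finset.prod_le_prod (fun v _ => abs_nonneg _) fun v hv => ?_
    cases v with
    | none =>
      rw [Finset.mem_sdiff, mem_V5] at hv
      exact absurd (fun v hv => by cases hv) hv.2
    | some p =>
      show |wfg wt (γ (some p))| ≤ _
      obtain ⟨c, hc⟩ := dj (some p)
      rw [abs_of_nonneg]
      · exact wfg_le ⟨c, hc⟩
      · rw [wfg_un hc]
        exact wt_nn c
  have h3 : (0 : ℝ) ≤ ∏ v ∈ γ.support \ V5 j s, ∏ l, wt (γ v l) :=
    Finset.prod_nonneg fun v _ => Finset.prod_nonneg fun l _ => wt_nn _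
  exact mul_le_mul h1 h2 (abs_nonneg _) (by positivity)

theorem M_le {j s : ℤ} {γ : FX I} (dj : ∀ v, ∃ c, IsUn (γ v) c) :
    |M γ| ≤ sb wt ^ 5 * ∏ l, m1 (ot (Blk j s) γ l) := prod_bd dj rfl

theorem pm_nn (j s : ℤ) (γ : FX I) : 0 ≤ ∏ l, m1 (ot (Blk j s) γ l) := Finset.prod_nonneg fun l _ => m1_nonneg _

theorem dM_le {j s : ℤ} {γ : FX I} (dj : ∀ v, ∃ c, IsUn (γ v) c) {p : Pt} (hp : p ∈ Blk j s) :
    |dM p γ| ≤ sb dwt * (sb wt ^ 5 * ∏ l, m1 (ot (Blk j s) γ l)) := by
  classical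
  unfold dM
  rw [abs_mul]
  refine mul_le_mul (wfg_abs _ _) (prod_bd dj ?_) (abs_nonneg _) ?_
  · ext x
    simp only [Finset.mem_sdiff, Finset.mem_erase]
    constructor
    · rintro ⟨⟨-, h1⟩, h2⟩
      exact ⟨h1, h2⟩
    · rintro ⟨h1, h2⟩
      refine ⟨⟨fun h3 => h2 ?_, h1⟩, h2⟩
      rw [mem_V5, h3]
      intro v hv
      cases hv
      exact hp
  · exact Finset.sum_nonneg fun _ _ => abs_nonneg _

theorem Jw_le {j s : ℤ} {γ : FX I} (dj : ∀ v, ∃ c, IsUn (γ v) c) :
    |Jw γ| ≤ sb jw * (sb wt ^ 5 * ∏ l, m1 (ot (Blk j s) γ l)) := by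
  unfold Jw
  rw [abs_mul, mul_comm (|M γ|)]
  exact mul_le_mul (wfg_abs _ _) (M_le dj) (abs_nonneg _) (Finset.sum_nonneg fun _ _ => abs_nonneg _)

/-! ### sums over families -/

theorem tsum_pi_le {α : Type} (g : I → α → ℝ≥0∞) : ∑' θ : I → α, ∏ l, g l (θ l) ≤ ∏ l, ∑' w, g l w := by
  classical
  rw [ENNReal.tsum_eq_iSup_sum]
  refine iSup_le fun s => ?_
  calc ∑ θ ∈ s, ∏ l, g l (θ l) ≤ ∑ θ ∈ Fintype.piFinset (fun l => s.image fun θ => θ l), ∏ l, g l (θ l) := by
        refine Finset.sum_le_sum_of_subset fun θ hθ => ?_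
        rw [Fintype.mem_piFinset]
        exact fun l => Finset.mem_image_of_mem _ hθ
    _ = ∏ l, ∑ w ∈ s.image (fun θ => θ l), g l w := (Finset.prod_univ_sum _ _).symm
    _ ≤ ∏ l, ∑' w, g l w := Finset.prod_le_prod' fun l _ => ENNReal.sum_le_tsum _

open Classical in
/-- the number of the fillings of the block and the crossing -/
noncomputable def NI (I : Type) [Fintype I] (j s : ℤ) : ℝ≥0∞ := (Fintype.card (V5 j s → I → Cell) : ℝ≥0∞)

/-- a family from its outer parts and its block -/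
theorem fam_inj (j s : ℤ) : Function.Injective fun γ : FX I =>
    ((fun l => ot (Blk j s) γ l, fun v : V5 j s => γ v) : (I → Cfg) × (V5 j s → I → Cell)) := by
  intro γ γ' h
  obtain ⟨h1, h2⟩ := Prod.mk.inj h
  ext v l
  by_cases hv : v ∈ V5 j s
  · exact congrFun (congrFun h2 ⟨v, hv⟩) l
  · cases v with
    | none => exact absurd (mem_V5.2 fun v hv => by cases hv) hv
    | some p =>
      have hp : p ∉ Blk j s := fun hp => hv (mem_V5.2 fun v hv => by cases hv; exact hp)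
      have h3 := DFunLike.congr_fun (congrFun h1 l) p
      rw [ot_off hp, ot_off hp] at h3
      exact h3

theorem sum_fam (j s : ℤ) (h : FX I → ℝ≥0∞) (g : I → Cfg → ℝ≥0∞) (c : ℝ≥0∞)
    (hg : ∀ γ, h γ ≤ c * ∏ l, g l (ot (Blk j s) γ l)) : ∑' γ, h γ ≤ NI I j s * (c * ∏ l, ∑' w, g l w) := by
  classical
  calc ∑' γ, h γ ≤ ∑' γ : FX I, c * ∏ l, g l (ot (Blk j s) γ l) := ENNReal.tsum_le_tsum hg
    _ ≤ ∑' x : (I → Cfg) × (V5 j s → I → Cell), c * ∏ l, g l (x.1 l) :=
        ENNReal.tsum_comp_le_tsum_of_injective (fam_inj j s) fun x : (I → Cfg) × (V5 j s → I → Cell) => c * ∏ l, g l (x.1 l)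
    _ = ∑' θ : I → Cfg, NI I j s * (c * ∏ l, g l (θ l)) := by
        rw [ENNReal.tsum_prod']
        refine tsum_congr fun θ => ?_
        rw [tsum_fintype]
        show ∑ _b : (V5 j s → I → Cell), c * ∏ l, g l (θ l) = _
        rw [Finset.sum_const, Finset.card_univ, nsmul_eq_mul]
        unfold NI
        congr 2
    _ = NI I j s * (c * ∑' θ : I → Cfg, ∏ l, g l (θ l)) := by rw [ENNReal.tsum_mul_left, ENNReal.tsum_mul_left]
    _ ≤ _ := by
        gcongr
        exact tsum_pi_le g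

/-! ### the bad families -/

/-- the box -/
def Bx (K : ℤ) : Set Pt := {v | |v.1| ≤ K ∧ |v.2| ≤ K}

/-- the four half planes of the block -/
def Hp (j s : ℤ) : Fin 4 → Set Pt := ![{v | j + 1 ≤ v.1}, {v | v.1 ≤ j}, {v | v.2 ≤ s - 1}, {v | s ≤ v.2}]

/-- all members in the box, at least `n` columns apart -/
def Wb (K n : ℤ) (γ : FX I) : Prop := ∀ l, (∀ v : Pt, γ (some v) l ≠ .o → v ∈ Bx K) ∧
  ∃ v v' : Pt, γ (some v) l ≠ .o ∧ γ (some v') l ≠ .o ∧ n ≤ v'.1 - v.1

/-- the columns of a configuration -/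
def Ex (n : ℤ) (w : Cfg) : Prop := ∃ v v' : Pt, w v ≠ .o ∧ w v' ≠ .o ∧ n ≤ v'.1 - v.1

open Classical in
/-- the mass of the loops in the box -/
noncomputable def LM (K n : ℤ) : ℝ≥0∞ :=
  ∑' d : Cfg, if E.Lp d ∧ (∀ v, d v ≠ .o → v ∈ Bx K) ∧ Ex n d then ENNReal.ofReal (m1 d) else 0

/-- the masses of the members which are not extreme -/
noncomputable def RR (j s K n : ℤ) (n' : ℤ) : ℝ≥0∞ := 1 + OK (Blk j s) (Far j s n') + LM K n

theorem vi_of {j s : ℤ} {γ : FX I} {l : I} (h : Vb j s γ l) : Vi (Blk j s) (co γ l) := by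
  rcases h with h | ⟨p, hp, h⟩
  · exact ⟨none, fun v hv => (by cases hv), h⟩
  · refine ⟨some p, fun v hv => ?_, h⟩
    cases hv
    exact hp

theorem blk_near {j s : ℤ} {v : Pt} (hv : v ∈ Blk j s) : |v.1 - j| ≤ 1 ∧ |v.2 - s| ≤ 1 := by
  obtain ⟨a, b⟩ := v
  simp only [Blk, Set.mem_insert_iff, Set.mem_singleton_iff, Prod.mk.injEq] at hv
  rcases hv with ⟨rfl, rfl⟩ | ⟨rfl, rfl⟩ | ⟨rfl, rfl⟩ | ⟨rfl, rfl⟩ <;> simp [abs_le] <;> omega

/-- a wide member is far from the block -/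
theorem far_of {j s n n' : ℤ} {γ : FX I} {l : I} (hn : 2 ≤ n') (hn' : 2 * n' ≤ n)
    (h : ∃ v v' : Pt, γ (some v) l ≠ .o ∧ γ (some v') l ≠ .o ∧ n ≤ v'.1 - v.1) : Far j s n' (ot (Blk j s) γ l) := by
  obtain ⟨v, v', h1, h2, h3⟩ := h
  have h4 : n' ≤ |v.1 - j| ∨ n' ≤ |v'.1 - j| := by
    by_contra h5
    push Not at h5
    have h6 := abs_lt.1 h5.1
    have h7 := abs_lt.1 h5.2
    omega
  have key : ∀ v : Pt, γ (some v) l ≠ .o → n' ≤ |v.1 - j| → Far j s n' (ot (Blk j s) γ l) := by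
    intro v h1 h5
    have hB : v ∉ Blk j s := fun hB => by
      have := (blk_near hB).1
      omega
    exact ⟨v, by rw [ot_off hB]; exact h1, Or.inl h5⟩
  rcases h4 with h4 | h4
  · exact key v h1 h4
  · exact key v' h2 h4

open Classical in
/-- **the bad families at a block**: one choice of the two members and of the half plane -/
theorem blk_one {G : Gr VX} {j s : ℤ} (hG : Sq (Blk j s) G) (W : FX I → ℝ≥0∞) (c : ℝ≥0∞)
    (hW : ∀ γ, Fam G γ → W γ ≤ c * ∏ l, ENNReal.ofReal (m1 (ot (Blk j s) γ l))) {K n n' : ℤ} (hn : 2 ≤ n')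
    (hn' : 2 * n' ≤ n) {i k : I} (hik : i ≠ k) (a : Fin 4) :
    ∑' γ : FX I, (if Fam G γ ∧ Wb K n γ ∧ Vb j s γ i ∧ Vb j s γ k ∧
        (∀ p : Pt, p ∉ Blk j s → γ (some p) i ≠ .o → p ∈ Hp j s a) then W γ else 0) ≤
      NI I j s * (c * (OK (Blk j s) (fun w => (∀ v, w v ≠ .o → v ∈ Hp j s a ∩ Bx K) ∧ Far j s n' w) *
        (OK (Blk j s) (Far j s n') * RR j s K n n' ^ Fintype.card I))) := by
  obtain ⟨P, hP⟩ : ∃ P : Cfg → Prop, P = fun w => (∀ v, w v ≠ .o → v ∈ Hp j s a ∩ Bx K) ∧ Far j s n' w := ⟨_, rfl⟩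
  rw [← hP]
  obtain ⟨g, hg⟩ : ∃ g : I → Cfg → ℝ≥0∞, g = fun l w => if l = i then (if OC (Blk j s) w ∧ P w then ENNReal.ofReal (m1 w) else 0)
      else if l = k then (if OC (Blk j s) w ∧ Far j s n' w then ENNReal.ofReal (m1 w) else 0)
      else (if OC (Blk j s) w ∧ Far j s n' w then ENNReal.ofReal (m1 w) else 0) +
        (if E.Lp w ∧ (∀ v, w v ≠ .o → v ∈ Bx K) ∧ Ex n w then ENNReal.ofReal (m1 w) else 0) := ⟨_, rfl⟩
  refine (sum_fam j s _ g c ?_).trans ?_
  · intro γ
    by_cases h : Fam G γ ∧ Wb K n γ ∧ Vb j s γ i ∧ Vb j s γ k ∧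
        (∀ p : Pt, p ∉ Blk j s → γ (some p) i ≠ .o → p ∈ Hp j s a)
    · rw [if_pos h]
      obtain ⟨hf, hw, hi, hk, hH⟩ := h
      refine (hW γ hf).trans ?_
      gcongr with l
      have far := fun l => far_of (j := j) (s := s) hn hn' (hw l).2
      rw [hg]
      by_cases h1 : l = i
      · subst h1
        simp only [if_true]
        rw [if_pos]
        refine ⟨out_OC hG (hf.lp l) (vi_of hi), ?_⟩
        rw [hP]
        refine ⟨fun v hv => ?_, far l⟩
        by_cases hB : v ∈ Blk j s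
        · exact absurd (ot_on hB) hv
        · rw [ot_off hB] at hv
          exact ⟨hH v hB hv, (hw l).1 v hv⟩
      · by_cases h2 : l = k
        · subst h2
          simp only [if_neg h1, if_true]
          rw [if_pos]
          exact ⟨out_OC hG (hf.lp l) (vi_of hk), far l⟩
        · simp only [if_neg h1, if_neg h2]
          by_cases hv : Vi (Blk j s) (co γ l)
          · rw [if_pos ⟨out_OC hG (hf.lp l) hv, far l⟩]
            exact le_self_add
          · have h3 : E.Lp (ot (Blk j s) γ l) := out_Lp hG (hf.lp l) hv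
            have h4 : ∀ v : Pt, γ (some v) l ≠ .o → ot (Blk j s) γ l v ≠ .o := by
              intro v h5
              have hB : v ∉ Blk j s := fun hB => hv ⟨some v, fun u hu => by cases hu; exact hB, h5⟩
              rw [ot_off hB]
              exact h5
            have h5 : ∀ v : Pt, ot (Blk j s) γ l v ≠ .o → v ∈ Bx K := by
              intro v h6
              by_cases hB : v ∈ Blk j s
              · exact absurd (ot_on hB) h6
              · rw [ot_off hB] at h6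
                exact (hw l).1 v h6
            obtain ⟨v, v', h6, h7, h8⟩ := (hw l).2
            have h9 : E.Lp (ot (Blk j s) γ l) ∧ (∀ v, ot (Blk j s) γ l v ≠ .o → v ∈ Bx K) ∧ Ex n (ot (Blk j s) γ l) :=
              ⟨h3, h5, v, v', h4 v h6, h4 v' h7, h8⟩
            refine le_trans (le_of_eq ?_) le_add_self
            rw [if_pos h9]
    · rw [if_neg h]
      exact zero_le
  · gcongr
    have e1 : ∏ l, ∑' w, g l w = (∑' w, g i w) * ((∑' w, g k w) * ∏ l ∈ (Finset.univ.erase i).erase k, ∑' w, g l w) := by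
      rw [← Finset.mul_prod_erase Finset.univ (fun l => ∑' w, g l w) (Finset.mem_univ i),
        ← Finset.mul_prod_erase (Finset.univ.erase i) (fun l => ∑' w, g l w)
          (Finset.mem_erase.2 ⟨hik.symm, Finset.mem_univ k⟩)]
    rw [e1]
    have gi : ∑' w, g i w = OK (Blk j s) P := by
      rw [hg]
      unfold OK
      simp only [if_true]
    have gk : ∑' w, g k w = OK (Blk j s) (Far j s n') := by
      rw [hg]
      unfold OK
      simp only [if_neg hik.symm, if_true]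
    have gl : ∀ l ∈ (Finset.univ.erase i).erase k, ∑' w, g l w ≤ RR j s K n n' := by
      intro l hl
      rw [Finset.mem_erase, Finset.mem_erase] at hl
      rw [hg]
      simp only [if_neg hl.1, if_neg hl.2.1]
      rw [ENNReal.tsum_add]
      unfold RR OK LM
      rw [add_assoc]
      exact le_add_self
    rw [gi, gk]
    gcongr
    refine (Finset.prod_le_prod' gl).trans ?_
    rw [Finset.prod_const]
    refine pow_le_pow_right₀ ?_ (Finset.card_le_univ _)
    unfold RR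
    rw [add_assoc]
    exact le_self_add

open Classical in
/-- **the bad families at a block** -/
theorem blk_sum {G : Gr VX} {j s : ℤ} (hG : Sq (Blk j s) G) (W : FX I → ℝ≥0∞) (c : ℝ≥0∞)
    (hW : ∀ γ, Fam G γ → W γ ≤ c * ∏ l, ENNReal.ofReal (m1 (ot (Blk j s) γ l))) {K n n' : ℤ} (hn : 2 ≤ n')
    (hn' : 2 * n' ≤ n) :
    ∑' γ : FX I, (if Fam G γ ∧ Bad j s γ ∧ Wb K n γ then W γ else 0) ≤
      (Fintype.card I : ℝ≥0∞) ^ 2 * NI I j s * c * RR j s K n n' ^ Fintype.card I * OK (Blk j s) (Far j s n') *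
        ∑ a : Fin 4, OK (Blk j s) (fun w => (∀ v, w v ≠ .o → v ∈ Hp j s a ∩ Bx K) ∧ Far j s n' w) := by
  obtain ⟨X, hX⟩ : ∃ X : Fin 4 → ℝ≥0∞,
      X = fun a => OK (Blk j s) (fun w => (∀ v, w v ≠ .o → v ∈ Hp j s a ∩ Bx K) ∧ Far j s n' w) := ⟨_, rfl⟩
  obtain ⟨D, hD⟩ : ∃ D : I → I → Fin 4 → FX I → ℝ≥0∞, D = fun i k a γ => if i ≠ k then (if Fam G γ ∧ Wb K n γ ∧ Vb j s γ i ∧
      Vb j s γ k ∧ (∀ p : Pt, p ∉ Blk j s → γ (some p) i ≠ .o → p ∈ Hp j s a) then W γ else 0) else 0 := ⟨_, rfl⟩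
  have h1 : ∀ γ : FX I, (if Fam G γ ∧ Bad j s γ ∧ Wb K n γ then W γ else 0) ≤ ∑ i, ∑ k, ∑ a, D i k a γ := by
    intro γ
    by_cases h : Fam G γ ∧ Bad j s γ ∧ Wb K n γ
    · rw [if_pos h]
      obtain ⟨hf, ⟨i, k, hik, ⟨hi, hx⟩, hk⟩, hw⟩ := h
      have key : ∀ a : Fin 4, (∀ p : Pt, p ∉ Blk j s → γ (some p) i ≠ .o → p ∈ Hp j s a) → W γ ≤ ∑ i, ∑ k, ∑ a, D i k a γ := by
        intro a ha
        have e : D i k a γ = W γ := by
          rw [hD]
          simp only [if_pos hik]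
          rw [if_pos ⟨hf, hw, hi, hk, ha⟩]
        rw [← e]
        calc D i k a γ ≤ ∑ a, D i k a γ :=
              Finset.single_le_sum (f := fun a => D i k a γ) (fun _ _ => zero_le) (Finset.mem_univ a)
          _ ≤ ∑ k, ∑ a, D i k a γ :=
              Finset.single_le_sum (f := fun k => ∑ a, D i k a γ) (fun _ _ => zero_le) (Finset.mem_univ k)
          _ ≤ _ := Finset.single_le_sum (f := fun i => ∑ k, ∑ a, D i k a γ) (fun _ _ => zero_le) (Finset.mem_univ i)
      rcases hx with hx | hx | hx | hx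
      · exact key 0 hx
      · exact key 1 hx
      · exact key 2 hx
      · exact key 3 hx
    · rw [if_neg h]
      exact zero_le
  have h2 : ∀ i k a, ∑' γ, D i k a γ ≤
      NI I j s * (c * (X a * (OK (Blk j s) (Far j s n') * RR j s K n n' ^ Fintype.card I))) := by
    intro i k a
    rw [hD, hX]
    by_cases hik : i ≠ k
    · simp only [if_pos hik]
      exact blk_one hG W c hW hn hn' hik a
    · simp only [if_neg hik, tsum_zero]
      exact zero_le
  calc ∑' γ : FX I, (if Fam G γ ∧ Bad j s γ ∧ Wb K n γ then W γ else 0) ≤ ∑' γ, ∑ i, ∑ k, ∑ a, D i k a γ :=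
        ENNReal.tsum_le_tsum h1
    _ = ∑ i, ∑ k, ∑ a, ∑' γ, D i k a γ := by
        rw [Summable.tsum_finsetSum fun _ _ => ENNReal.summable]
        refine Finset.sum_congr rfl fun i _ => ?_
        rw [Summable.tsum_finsetSum fun _ _ => ENNReal.summable]
        refine Finset.sum_congr rfl fun k _ => ?_
        rw [Summable.tsum_finsetSum fun _ _ => ENNReal.summable]
    _ ≤ ∑ i : I, ∑ k : I, ∑ a, NI I j s * (c * (X a * (OK (Blk j s) (Far j s n') * RR j s K n n' ^ Fintype.card I))) :=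
        Finset.sum_le_sum fun i _ => Finset.sum_le_sum fun k _ => Finset.sum_le_sum fun a _ => h2 i k a
    _ = _ := by
        rw [Finset.sum_const, Finset.sum_const, Finset.card_univ, nsmul_eq_mul, nsmul_eq_mul, ← hX, ← Finset.mul_sum,
          ← Finset.mul_sum, ← Finset.sum_mul]
        ring

end Pool.Agent.ROT.LF
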