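import Pool.Agent.ROT.LMassW
import Pool.Agent.ROT.EHexS
import Pool.Agent.ROT.LBDefs

/-!
# ROT, row L7b: the mass of the honeycomb loops through a given place, all and large

* `FarP n p γ`: `γ` visits a vertex whose column or row differs from that of `p` by at least `n`;
* **`mass_all`**: `∑' γ (loops of the honeycomb with γ p ≠ 0), wl γ ≤ C`;
* **`mass_far`**: with `FarP n p`: `≤ C n ^ (-2/3)`;
* the same for `Lp` with the weight `m1` (`0` if a cell `y` occurs), and for loops that meet a finite set.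
-/

set_option autoImplicit false

namespace Pool.Agent.ROT.LB

open Pool.Agent.YBC (Dir)
open Pool.Agent.UNI (wR)
open Pool.Agent.ROT.E Pool.Agent.ROT.E.Hx
open scoped ENNReal

/-- `γ` visits a vertex far from `p` -/
def FarP (n : ℕ) (p : Pt) (γ : Cfg) : Prop := ∃ v, γ v ≠ 0 ∧ ((n : ℤ) ≤ |v.1 - p.1| ∨ (n : ℤ) ≤ |v.2 - p.2|)

/-! ### the words in a box -/

theorem row_bd {v : HexObs.Pt} {R : ℤ} (h : ∀ dir, |HexObs.SDN.row dir v| ≤ R) :
    |v.1| ≤ 3 * R + 2 ∧ |v.2| ≤ 3 * R + 2 := by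
  have h1 := h false
  have h2 := h true
  have e1 : HexObs.SDN.lvl false v = v.1 + 2 * v.2 := by
    simp [HexObs.SDN.lvl, HexObs.SDN.hd, HexObs.ip, HexObs.up]
    ring
  have e2 : HexObs.SDN.lvl true v = -(2 * v.1) - v.2 := by
    simp [HexObs.SDN.lvl, HexObs.SDN.hd, HexObs.ip]
    ring
  unfold HexObs.SDN.row at h1 h2
  rw [e1, abs_le] at h1
  rw [e2, abs_le] at h2
  rw [abs_le, abs_le]
  omega

theorem mulE_bd {u q : HexObs.Pt} (hu : u ∈ HexObs.dirs) {R : ℤ} (h1 : |q.1| ≤ R) (h2 : |q.2| ≤ R) :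
    |(HexObs.mulE u q).1| ≤ 2 * R ∧ |(HexObs.mulE u q).2| ≤ 2 * R := by
  rw [abs_le] at h1 h2 ⊢
  rw [abs_le]
  simp only [HexObs.dirs, Finset.mem_insert, Finset.mem_singleton] at hu
  rcases hu with rfl | rfl | rfl | rfl | rfl | rfl <;> simp [HexObs.mulE] <;> omega

theorem frame {d : HexObs.Pt} (hd : d ∈ HexObs.dirs) (v0 : HexObs.Pt) (t : List Bool) (i : ℕ) :
    ∃ u ∈ HexObs.dirs, HexObs.vx v0 d t i = v0 + HexObs.mulE u (HexObs.vx HexObs.oo HexObs.up t i) := by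
  obtain ⟨h1, h2⟩ := HexObs.SDN.frame_dir hd
  refine ⟨_, h1, ?_⟩
  conv_lhs => rw [h2]
  exact HexObs.SDN.vx_frameN _ _ _ _

/-- the loop of a word in the box is near its root -/
theorem near_root {e : Bo} {t : List Bool} (ht : t ∈ Wo) {K : ℕ} (hw : t ∈ HexObs.POL.WC t.length K) {v : Pt}
    (hv : lpw e t v ≠ 0) : |v.1 - e.1.1| ≤ 17 * 2 ^ K ∧ |v.2 - e.1.2| ≤ 17 * 2 ^ K := by
  have hc := (mem_wo e).1 ht
  have l : HL (lpw e t) := ⟨lp_lpw hc, ny_lpw e t⟩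
  obtain ⟨d, hd⟩ : ∃ d, (lpw e t v).oc d := Lab.ex_oc hv
  have h1 : ub (lpw e t) (v, bd d) := (ub_bd (h := (v, d))).2 hd
  have h2 : st (v, bd d) ∈ hs (lpw e t) := mem_hs.2 ⟨_, h1, rfl⟩
  rw [hs_lpw ht, Finset.mem_image] at h2
  obtain ⟨i, hi, h3⟩ := h2
  rw [Finset.mem_range] at hi
  obtain ⟨u, hu, h4⟩ := frame (dr_mem e.2) (st e) t i
  have h5 : ∀ dir, |HexObs.SDN.row dir (HexObs.vx HexObs.oo HexObs.up t i)| ≤ 2 ^ K := fun dir => by
    have := hw.2 [] t rfl i (by omega) dir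
    simpa using this
  obtain ⟨h6, h7⟩ := row_bd h5
  obtain ⟨h8, h9⟩ := mulE_bd hu h6 h7
  set q := HexObs.mulE u (HexObs.vx HexObs.oo HexObs.up t i) with hq
  rw [h4] at h3
  have h10 : st (v, bd d) = wh v ∨ st (v, bd d) = wh v + (0, 1) := by
    unfold st
    split_ifs
    · exact Or.inl rfl
    · right
      simp [bk, wh]
  have h11 : st e = wh e.1 ∨ st e = wh e.1 + (0, 1) := by
    unfold st
    split_ifs
    · exact Or.inl rfl
    · right
      simp [bk, wh]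
  have hK : (1 : ℤ) ≤ 2 ^ K := one_le_pow₀ (by norm_num)
  have e1 : q.1 = (v.1 - v.2) - (e.1.1 - e.1.2) := by
    have := congrArg Prod.fst h3
    rcases h10 with h | h <;> rcases h11 with h' | h' <;> rw [h, h'] at this <;>
      simp [wh] at this <;> omega
  have e2 : (v.1 + 2 * v.2) - (e.1.1 + 2 * e.1.2) - 1 ≤ q.2 ∧ q.2 ≤ (v.1 + 2 * v.2) - (e.1.1 + 2 * e.1.2) + 1 := by
    have := congrArg Prod.snd h3
    rcases h10 with h | h <;> rcases h11 with h' | h' <;> rw [h, h'] at this <;>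
      simp [wh] at this <;> constructor <;> omega
  rw [abs_le] at h8 h9
  rw [abs_le, abs_le]
  generalize (2 : ℤ) ^ K = R at *
  omega

/-! ### the masses -/

/-- the loops through `p` -/
theorem mass_le (p : Pt) (P : Cfg → Prop) (Q : List Bool → Prop)
    (hQ : ∀ (s : Sx) (t : List Bool), t ∈ Wo → P (lpw (p, s) t) → Q t) :
    ∑' γ : {γ : Cfg // HL γ ∧ γ p ≠ 0 ∧ P γ}, wl γ.1 ≤ 6 * ∑' t : {t : List Bool | t ∈ Wo ∧ Q t}, HexObs.wE (t : List Bool) := by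
  classical
  set F : Cfg → Bo → ℝ≥0∞ := fun γ e => if e.1 = p ∧ P γ then 1 else 0 with hF
  have h1 : ∀ γ : {γ : Cfg // HL γ ∧ γ p ≠ 0 ∧ P γ}, ∃ s : Sx, ub γ.1 (p, s) := by
    rintro ⟨γ, l, hp, -⟩
    obtain ⟨d, hd⟩ := Lab.ex_oc hp
    exact ⟨bd d, (ub_bd (h := (p, d))).2 hd⟩
  choose s hs using h1
  have h2 : ∑' γ : {γ : Cfg // HL γ ∧ γ p ≠ 0 ∧ P γ}, wl γ.1 ≤
      ∑' x : {x : Cfg × Bo // HL x.1 ∧ ub x.1 x.2}, wl x.1.1 * F x.1.1 x.1.2 := by
    have hi : Function.Injective fun γ : {γ : Cfg // HL γ ∧ γ p ≠ 0 ∧ P γ} =>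
        (⟨(γ.1, (p, s γ)), γ.2.1, hs γ⟩ : {x : Cfg × Bo // HL x.1 ∧ ub x.1 x.2}) := by
      intro a b h
      have := congrArg (fun x => x.1.1) h
      exact Subtype.ext this
    refine le_trans (le_of_eq (tsum_congr fun γ => ?_)) (ENNReal.tsum_comp_le_tsum_of_injective hi _)
    have h5 : F γ.1 (p, s γ) = 1 := if_pos ⟨rfl, γ.2.2.2⟩
    show wl γ.1 = wl γ.1 * F γ.1 (p, s γ)
    rw [h5, mul_one]
  refine h2.trans ?_
  rw [sum_root]
  have h3 : ∑' e : Bo, ∑' t : Wo, HexObs.wE t * F (lpw e t) e =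
      ∑' v : Pt, ∑' s : Sx, ∑' t : Wo, HexObs.wE t * F (lpw (v, s) t) (v, s) :=
    ENNReal.tsum_prod (f := fun (v : Pt) (s : Sx) => ∑' t : Wo, HexObs.wE t * F (lpw (v, s) t) (v, s))
  rw [h3, tsum_eq_single p]
  · rw [tsum_fintype]
    have h4 : ∀ s : Sx, ∑' t : Wo, HexObs.wE t * F (lpw (p, s) t) (p, s) ≤
        ∑' t : {t : List Bool | t ∈ Wo ∧ Q t}, HexObs.wE (t : List Bool) := by
      intro s
      have e1 := tsum_subtype (Wo : Set (List Bool)) (fun t => HexObs.wE t * F (lpw (p, s) t) (p, s))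
      have e2 := tsum_subtype {t : List Bool | t ∈ Wo ∧ Q t} (fun t => HexObs.wE t)
      refine e1.le.trans (le_trans (ENNReal.tsum_le_tsum fun t => ?_) e2.ge)
      by_cases ht : t ∈ Wo
      · rw [Set.indicator_of_mem ht]
        by_cases hP : P (lpw (p, s) t)
        · rw [Set.indicator_of_mem (show t ∈ {t : List Bool | t ∈ Wo ∧ Q t} from ⟨ht, hQ s t ht hP⟩)]
          have h5 : F (lpw (p, s) t) (p, s) = 1 := if_pos ⟨rfl, hP⟩
          rw [h5, mul_one]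
        · have h5 : F (lpw (p, s) t) (p, s) = 0 := if_neg fun h => hP h.2
          rw [h5, mul_zero]
          exact zero_le
      · rw [Set.indicator_of_notMem ht]
        exact zero_le
    refine (Finset.sum_le_sum fun s _ => h4 s).trans ?_
    rw [Finset.sum_const, nsmul_eq_mul]
    have : (Finset.univ : Finset Sx).card = 6 := rfl
    rw [this]
    rfl
  · intro v hv
    simp only [hF, hv, false_and, if_false, mul_zero, tsum_zero]

theorem wo_eq : (Wo : Set (List Bool)) = HexObs.PGA.WoN := rfl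

/-- the weight of a configuration -/
theorem m1_wl (γ : Cfg) : ENNReal.ofReal (m1 γ) = open Classical in if Ny γ then wl γ else 0 := by
  classical
  unfold m1 wl
  rw [prod_hex]
  by_cases h : Ny γ
  · rw [if_pos h, if_pos h]
  · rw [if_neg h, if_neg h, ENNReal.ofReal_zero]

open Classical in
/-- sums over `Lp` with the weight `m1` and sums over the loops of the honeycomb -/
theorem sum_m1 (P : Cfg → Prop) : ∑' γ : Cfg, (if Lp γ ∧ P γ then ENNReal.ofReal (m1 γ) else 0) =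
    ∑' γ : {γ : Cfg // HL γ ∧ P γ}, wl γ.1 := by
  have e2 := tsum_subtype {γ : Cfg | HL γ ∧ P γ} (fun γ => wl γ)
  refine Eq.trans ?_ e2.symm
  refine tsum_congr fun γ => ?_
  rw [Set.indicator_apply, m1_wl]
  by_cases h1 : Lp γ <;> by_cases h2 : P γ <;> by_cases h3 : Ny γ
  · rw [if_pos ⟨h1, h2⟩, if_pos h3, if_pos (show γ ∈ {γ : Cfg | HL γ ∧ P γ} from ⟨⟨h1, h3⟩, h2⟩)]
  · rw [if_pos ⟨h1, h2⟩, if_neg h3, if_neg (fun h : γ ∈ {γ : Cfg | HL γ ∧ P γ} => h3 h.1.ny)]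
  all_goals
    rw [if_neg (fun h => by tauto), if_neg]
    intro h
    exact absurd (And.intro h.1.lp h.2) (by tauto)

open Classical in
/-- **the loops of the honeycomb through a vertex have a finite mass** -/
theorem mass_all : ∃ C : ℝ, 0 ≤ C ∧ ∀ p : Pt,
    ∑' γ : Cfg, (if Lp γ ∧ γ p ≠ 0 then ENNReal.ofReal (m1 γ) else 0) ≤ ENNReal.ofReal C := by
  obtain ⟨C, hC, h⟩ := HexObs.PGA.all_words
  refine ⟨6 * C, by positivity, fun p => ?_⟩
  have h1 := mass_le p (fun _ => True) (fun _ => True) (fun _ _ _ _ => trivial)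
  have e1 : ∑' γ : Cfg, (if Lp γ ∧ γ p ≠ 0 then ENNReal.ofReal (m1 γ) else 0) =
      ∑' γ : {γ : Cfg // HL γ ∧ γ p ≠ 0 ∧ True}, wl γ.1 := by
    rw [← sum_m1 fun γ => γ p ≠ 0 ∧ True]
    simp only [and_true]
  have e2 : {t : List Bool | t ∈ Wo ∧ True} = {t : List Bool | t ∈ HexObs.PGA.WoN} := by
    ext t
    exact ⟨fun h => h.1, fun h => ⟨h, trivial⟩⟩
  rw [e1]
  rw [e2] at h1
  refine h1.trans ((mul_le_mul_right h _).trans (le_of_eq ?_))
  rw [ENNReal.ofReal_mul (by norm_num)]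
  norm_num

open Classical in
/-- **the loops of the honeycomb through `p` that go far** -/
theorem mass_far : ∃ C : ℝ, 0 ≤ C ∧ ∀ (p : Pt) (n : ℕ), 1 ≤ n →
    ∑' γ : Cfg, (if Lp γ ∧ γ p ≠ 0 ∧ FarP n p γ then ENNReal.ofReal (m1 γ) else 0) ≤
      ENNReal.ofReal (C * (n : ℝ) ^ (-(2 / 3) : ℝ)) := by
  obtain ⟨C0, hC0, h0⟩ := mass_all
  obtain ⟨C, hC, h⟩ := HexObs.PGA.far_words
  refine ⟨C0 * 32 + 6 * C * 64, by positivity, fun p n hn => ?_⟩
  have hn0 : (0 : ℝ) < n := by exact_mod_cast hn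
  have hp0 : (0 : ℝ) ≤ (n : ℝ) ^ (-(2 / 3) : ℝ) := by positivity
  have hl1 : 2 ^ Nat.log 2 n ≤ n := Nat.pow_log_le_self 2 (by omega)
  have hl2 : n < 2 ^ (Nat.log 2 n + 1) := Nat.lt_pow_succ_log_self (by norm_num) n
  rcases Nat.lt_or_ge (Nat.log 2 n) 5 with h5 | h5
  · have h6 : n < 32 := by
      refine lt_of_lt_of_le hl2 ?_
      calc 2 ^ (Nat.log 2 n + 1) ≤ 2 ^ 5 := Nat.pow_le_pow_right (by norm_num) (by omega)
        _ = 32 := by norm_num
    have h7 : ∑' γ : Cfg, (if Lp γ ∧ γ p ≠ 0 ∧ FarP n p γ then ENNReal.ofReal (m1 γ) else 0) ≤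
        ∑' γ : Cfg, (if Lp γ ∧ γ p ≠ 0 then ENNReal.ofReal (m1 γ) else 0) := by
      refine ENNReal.tsum_le_tsum fun γ => ?_
      split_ifs with h1 h2 h2
      · exact le_rfl
      · exact absurd ⟨h1.1, h1.2.1⟩ h2
      · exact zero_le
      · exact zero_le
    refine h7.trans ((h0 p).trans (ENNReal.ofReal_le_ofReal ?_))
    have h8 : (1 : ℝ) ≤ 32 * (n : ℝ) ^ (-(2 / 3) : ℝ) := by
      have h9 : (32 : ℝ)⁻¹ ≤ (n : ℝ) ^ (-(2 / 3) : ℝ) := by
        calc (32 : ℝ)⁻¹ = (32 : ℝ) ^ (-1 : ℝ) := by rw [Real.rpow_neg_one]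
          _ ≤ (32 : ℝ) ^ (-(2 / 3) : ℝ) := Real.rpow_le_rpow_of_exponent_le (by norm_num) (by norm_num)
          _ ≤ (n : ℝ) ^ (-(2 / 3) : ℝ) :=
            Real.rpow_le_rpow_of_nonpos hn0 (by exact_mod_cast h6.le) (by norm_num)
      have := mul_le_mul_of_nonneg_left h9 (by norm_num : (0 : ℝ) ≤ 32)
      norm_num at this ⊢
      exact this
    have h10 := mul_le_mul_of_nonneg_left h8 hC0
    nlinarith [mul_nonneg hC hp0]
  · obtain ⟨K, hK⟩ : ∃ K, Nat.log 2 n = K + 5 := ⟨Nat.log 2 n - 5, by omega⟩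
    rw [hK] at hl1 hl2
    have h1 := mass_le p (fun γ => FarP n p γ) (fun t => t ∉ HexObs.POL.WC t.length K) (by
      intro s t ht hP hw
      obtain ⟨v, hv, h⟩ := hP
      obtain ⟨h2, h3⟩ := near_root ht hw hv
      have h4 : (17 : ℤ) * 2 ^ K < n := by
        have h5 : ((2 ^ (K + 5) : ℕ) : ℤ) ≤ n := by exact_mod_cast hl1
        push_cast at h5
        have h6 : (0 : ℤ) < 2 ^ K := by positivity
        rw [pow_add] at h5
        norm_num at h5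
        linarith
      simp only at h2 h3
      rcases h with h | h
      · exact absurd (h.trans h2) (by linarith)
      · exact absurd (h.trans h3) (by linarith))
    have e1 : ∑' γ : Cfg, (if Lp γ ∧ γ p ≠ 0 ∧ FarP n p γ then ENNReal.ofReal (m1 γ) else 0) =
        ∑' γ : {γ : Cfg // HL γ ∧ γ p ≠ 0 ∧ FarP n p γ}, wl γ.1 := by
      rw [← sum_m1 fun γ => γ p ≠ 0 ∧ FarP n p γ]
      exact tsum_congr fun γ => by congr
    rw [e1]
    refine h1.trans ((mul_le_mul_right (h K) _).trans ?_)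
    have e6 : (6 : ℝ≥0∞) = ENNReal.ofReal 6 := by norm_num
    rw [e6, ← ENNReal.ofReal_mul (by norm_num)]
    apply ENNReal.ofReal_le_ofReal
    have h2 : (2 : ℝ) ^ (-(2 / 3) * (K : ℝ)) ≤ 64 * (n : ℝ) ^ (-(2 / 3) : ℝ) := by
      have h3 : (n : ℝ) / 64 ≤ (2 : ℝ) ^ (K : ℝ) := by
        rw [Real.rpow_natCast, div_le_iff₀ (by norm_num)]
        have h5 : (n : ℝ) < 2 ^ (K + 5 + 1) := by exact_mod_cast hl2
        rw [pow_add, pow_add] at h5
        norm_num at h5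
        linarith
      calc (2 : ℝ) ^ (-(2 / 3) * (K : ℝ)) = ((2 : ℝ) ^ (K : ℝ)) ^ (-(2 / 3) : ℝ) := by
            rw [← Real.rpow_mul two_pos.le]
            congr 1
            ring
        _ ≤ ((n : ℝ) / 64) ^ (-(2 / 3) : ℝ) :=
            Real.rpow_le_rpow_of_nonpos (by positivity) h3 (by norm_num)
        _ = (64 : ℝ) ^ (2 / 3 : ℝ) * (n : ℝ) ^ (-(2 / 3) : ℝ) := by
            rw [Real.div_rpow hn0.le (by norm_num), Real.rpow_neg (by norm_num : (0 : ℝ) ≤ 64), div_inv_eq_mul, mul_comm]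
        _ ≤ 64 * (n : ℝ) ^ (-(2 / 3) : ℝ) := by
            refine mul_le_mul_of_nonneg_right ?_ hp0
            calc (64 : ℝ) ^ (2 / 3 : ℝ) ≤ (64 : ℝ) ^ (1 : ℝ) :=
                  Real.rpow_le_rpow_of_exponent_le (by norm_num) (by norm_num)
              _ = 64 := Real.rpow_one _
    have h3 := mul_le_mul_of_nonneg_left h2 (by positivity : (0 : ℝ) ≤ 6 * C)
    nlinarith [mul_nonneg hC0 hp0]

/-! ### extents, finite sets -/

/-- the extent (of the columns or of the rows) is at least `n` -/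
def Ext (n : ℕ) (γ : Cfg) : Prop :=
  ∃ v v', γ v ≠ 0 ∧ γ v' ≠ 0 ∧ ((n : ℤ) ≤ v.1 - v'.1 ∨ (n : ℤ) ≤ v.2 - v'.2)

theorem Ext.farP {n m : ℕ} {γ : Cfg} (h : Ext n γ) (hm : 2 * m ≤ n) (p : Pt) : FarP m p γ := by
  obtain ⟨v, v', hv, hv', h⟩ := h
  have hm' : 2 * (m : ℤ) ≤ n := by exact_mod_cast hm
  by_contra hc
  have h1 : ¬ ((m : ℤ) ≤ |v.1 - p.1| ∨ (m : ℤ) ≤ |v.2 - p.2|) := fun h => hc ⟨v, hv, h⟩
  have h2 : ¬ ((m : ℤ) ≤ |v'.1 - p.1| ∨ (m : ℤ) ≤ |v'.2 - p.2|) := fun h => hc ⟨v', hv', h⟩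
  rw [not_or, not_le, not_le, abs_lt, abs_lt] at h1 h2
  rcases h with h | h <;> omega

open Classical in
/-- **the loops of the honeycomb through `p` of extent `≥ n`** -/
theorem mass_ext : ∃ C : ℝ, 0 ≤ C ∧ ∀ (p : Pt) (n : ℕ), 1 ≤ n →
    ∑' γ : Cfg, (if Lp γ ∧ γ p ≠ 0 ∧ Ext n γ then ENNReal.ofReal (m1 γ) else 0) ≤
      ENNReal.ofReal (C * (n : ℝ) ^ (-(2 / 3) : ℝ)) := by
  obtain ⟨C0, hC0, h0⟩ := mass_all
  obtain ⟨C, hC, h⟩ := mass_far
  refine ⟨C0 + 3 * C, by positivity, fun p n hn => ?_⟩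
  have hn0 : (0 : ℝ) < n := by exact_mod_cast hn
  have hp0 : (0 : ℝ) ≤ (n : ℝ) ^ (-(2 / 3) : ℝ) := by positivity
  rcases Nat.lt_or_ge n 2 with h2 | h2
  · have e : n = 1 := by omega
    subst e
    have h7 : ∑' γ : Cfg, (if Lp γ ∧ γ p ≠ 0 ∧ Ext 1 γ then ENNReal.ofReal (m1 γ) else 0) ≤
        ∑' γ : Cfg, (if Lp γ ∧ γ p ≠ 0 then ENNReal.ofReal (m1 γ) else 0) := by
      refine ENNReal.tsum_le_tsum fun γ => ?_
      split_ifs with h1 h2 h2
      · exact le_rfl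
      · exact absurd ⟨h1.1, h1.2.1⟩ h2
      · exact zero_le
      · exact zero_le
    refine h7.trans ((h0 p).trans (ENNReal.ofReal_le_ofReal ?_))
    rw [Nat.cast_one, Real.one_rpow, mul_one]
    linarith
  · have h7 : ∑' γ : Cfg, (if Lp γ ∧ γ p ≠ 0 ∧ Ext n γ then ENNReal.ofReal (m1 γ) else 0) ≤
        ∑' γ : Cfg, (if Lp γ ∧ γ p ≠ 0 ∧ FarP (n / 2) p γ then ENNReal.ofReal (m1 γ) else 0) := by
      refine ENNReal.tsum_le_tsum fun γ => ?_
      split_ifs with h1 h2 h2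
      · exact le_rfl
      · exact absurd ⟨h1.1, h1.2.1, h1.2.2.farP (by omega) p⟩ h2
      · exact zero_le
      · exact zero_le
    refine h7.trans ((h p (n / 2) (by omega)).trans (ENNReal.ofReal_le_ofReal ?_))
    have h3 : (n : ℝ) / 3 ≤ ((n / 2 : ℕ) : ℝ) := by
      have h4 : n ≤ 3 * (n / 2) := by omega
      have h5 : (n : ℝ) ≤ 3 * ((n / 2 : ℕ) : ℝ) := by exact_mod_cast h4
      linarith
    have h4 : ((n / 2 : ℕ) : ℝ) ^ (-(2 / 3) : ℝ) ≤ 3 * (n : ℝ) ^ (-(2 / 3) : ℝ) := by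
      calc ((n / 2 : ℕ) : ℝ) ^ (-(2 / 3) : ℝ) ≤ ((n : ℝ) / 3) ^ (-(2 / 3) : ℝ) :=
            Real.rpow_le_rpow_of_nonpos (by positivity) h3 (by norm_num)
        _ = (3 : ℝ) ^ (2 / 3 : ℝ) * (n : ℝ) ^ (-(2 / 3) : ℝ) := by
            rw [Real.div_rpow hn0.le (by norm_num), Real.rpow_neg (by norm_num : (0 : ℝ) ≤ 3), div_inv_eq_mul, mul_comm]
        _ ≤ 3 * (n : ℝ) ^ (-(2 / 3) : ℝ) := by
            refine mul_le_mul_of_nonneg_right ?_ hp0
            calc (3 : ℝ) ^ (2 / 3 : ℝ) ≤ (3 : ℝ) ^ (1 : ℝ) :=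
                  Real.rpow_le_rpow_of_exponent_le (by norm_num) (by norm_num)
              _ = 3 := Real.rpow_one _
    have h5 := mul_le_mul_of_nonneg_left h4 hC
    nlinarith [mul_nonneg hC0 hp0]

open Classical in
/-- loops that meet a finite set -/
theorem mass_meet (B : Finset Pt) (P : Cfg → Prop) :
    ∑' γ : Cfg, (if Lp γ ∧ (∃ p ∈ B, γ p ≠ 0) ∧ P γ then ENNReal.ofReal (m1 γ) else 0) ≤
      ∑ p ∈ B, ∑' γ : Cfg, (if Lp γ ∧ γ p ≠ 0 ∧ P γ then ENNReal.ofReal (m1 γ) else 0) := by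
  rw [← Summable.tsum_finsetSum fun p _ => ENNReal.summable]
  refine ENNReal.tsum_le_tsum fun γ => ?_
  by_cases h : Lp γ ∧ (∃ p ∈ B, γ p ≠ 0) ∧ P γ
  · rw [if_pos h]
    obtain ⟨h1, ⟨p, hp, h2⟩, h3⟩ := h
    refine le_trans (le_of_eq ?_) (Finset.single_le_sum (f := fun p => if Lp γ ∧ γ p ≠ 0 ∧ P γ then
      ENNReal.ofReal (m1 γ) else 0) (fun _ _ => zero_le) hp)
    exact (if_pos ⟨h1, h2, h3⟩).symm
  · rw [if_neg h]
    exact zero_le

open Classical in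
/-- **the loops of the honeycomb that meet a finite set, of extent `≥ n`** -/
theorem mass_meet_ext : ∃ C : ℝ, 0 ≤ C ∧ ∀ (B : Finset Pt) (n : ℕ), 1 ≤ n →
    ∑' γ : Cfg, (if Lp γ ∧ (∃ p ∈ B, γ p ≠ 0) ∧ Ext n γ then ENNReal.ofReal (m1 γ) else 0) ≤
      ENNReal.ofReal (C * B.card * (n : ℝ) ^ (-(2 / 3) : ℝ)) := by
  obtain ⟨C, hC, h⟩ := mass_ext
  refine ⟨C, hC, fun B n hn => (mass_meet B (Ext n)).trans ((Finset.sum_le_sum fun p _ => h p n hn).trans ?_)⟩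
  rw [Finset.sum_const, nsmul_eq_mul, ← ENNReal.ofReal_natCast, ← ENNReal.ofReal_mul (by positivity)]
  exact ENNReal.ofReal_le_ofReal (le_of_eq (by ring))

open Classical in
/-- **all the loops of the honeycomb that meet a finite set** -/
theorem mass_meet_all : ∃ C : ℝ, 0 ≤ C ∧ ∀ B : Finset Pt,
    ∑' γ : Cfg, (if Lp γ ∧ ∃ p ∈ B, γ p ≠ 0 then ENNReal.ofReal (m1 γ) else 0) ≤ ENNReal.ofReal (C * B.card) := by
  obtain ⟨C, hC, h⟩ := mass_all
  refine ⟨C, hC, fun B => ?_⟩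
  have h1 := mass_meet B fun _ => True
  simp only [and_true] at h1
  refine h1.trans ((Finset.sum_le_sum fun p _ => h p).trans ?_)
  rw [Finset.sum_const, nsmul_eq_mul, ← ENNReal.ofReal_natCast, ← ENNReal.ofReal_mul (by positivity)]
  exact ENNReal.ofReal_le_ofReal (le_of_eq (by ring))

end Pool.Agent.ROT.LB
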