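import Pool.Agent.ROT.NUI
import Pool.Agent.ROT.LMass
import Pool.Agent.ROT.LFam

/-!
# ROT, row L7c: the mass of the loops in a box, with the square of the number of cells of an extreme line
-/

set_option autoImplicit false

namespace Pool.Agent.ROT.LF

open Pool.Agent.ROT.E (Cell Pt Cfg)
open Pool.Agent.ROT.E.Hx (HL cor cor_trc trc wl exC exR nE nE_trc big big_trc mtp2 MassU uiE hl_trc)
open Pool.Agent.ROT.LB
open scoped ENNReal

/-- the sum over the loops with the corner `z` -/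
theorem sum_at (z : Pt) (G : Cfg → ℝ≥0∞) (hG : ∀ a γ, HL γ → G (trc a γ) = G γ) :
    ∑' γ : {γ : Cfg // HL γ ∧ cor γ = z}, wl γ.1 * G γ.1 = ∑' γ : {γ : Cfg // HL γ ∧ cor γ = 0}, wl γ.1 * G γ.1 := by
  rw [mtp2 (top := cor) (top' := fun γ => cor γ - z) cor_trc (by
    intro a γ h
    simp only [cor_trc a γ h]
    abel) G hG]
  have h4 := tsum_subtype {γ : Cfg | HL γ ∧ cor γ - z = 0} (fun γ => wl γ * G γ)
  have h5 := tsum_subtype {γ : Cfg | HL γ ∧ cor γ = z} (fun γ => wl γ * G γ)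
  have e : ({γ : Cfg | HL γ ∧ cor γ = z} : Set Cfg) = {γ : Cfg | HL γ ∧ cor γ - z = 0} := by
    ext γ
    simp only [Set.mem_setOf_eq, sub_eq_zero]
  refine h5.trans (Eq.trans ?_ h4.symm)
  rw [e]

open Classical in
/-- **the mass in a box** -/
theorem box_le (h : MassU) : ∃ C : ℝ, 0 < C ∧ ∀ (u : Fin 4) (K : ℕ) (R : ℝ), 1 ≤ R →
    ∑' d : Cfg, (if E.Lp d ∧ (∀ v, d v ≠ .o → v ∈ Bx K) ∧ (R ≤ exC d ∨ R ≤ exR d) then
      ENNReal.ofReal (m1 d) * (nE d u : ℝ≥0∞) ^ 2 else 0) ≤ ENNReal.ofReal ((2 * K + 1) ^ 2 * (C / R ^ 2)) := by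
  obtain ⟨C, hC, hU⟩ := uiE h
  refine ⟨C, hC, fun u K R hR => ?_⟩
  obtain ⟨G, hG⟩ : ∃ G : Cfg → ℝ≥0∞, G = fun γ => big R γ * (nE γ u : ℝ≥0∞) ^ 2 := ⟨_, rfl⟩
  have hGt : ∀ a γ, HL γ → G (trc a γ) = G γ := fun a γ h => by
    rw [hG]
    simp only [big_trc R a h, nE_trc a h]
  obtain ⟨Z, hZ⟩ : ∃ Z : Finset Pt, Z = (Finset.Icc (-(K : ℤ)) K) ×ˢ (Finset.Icc (-(K : ℤ)) K) := ⟨_, rfl⟩
  have h1 : ∀ d : Cfg, (if E.Lp d ∧ (∀ v, d v ≠ .o → v ∈ Bx K) ∧ (R ≤ exC d ∨ R ≤ exR d) then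
      ENNReal.ofReal (m1 d) * (nE d u : ℝ≥0∞) ^ 2 else 0) ≤
      ∑ z ∈ Z, ({γ : Cfg | HL γ ∧ cor γ = z}).indicator (fun γ => wl γ * G γ) d := by
    intro d
    by_cases h2 : E.Lp d ∧ (∀ v, d v ≠ .o → v ∈ Bx K) ∧ (R ≤ exC d ∨ R ≤ exR d)
    · rw [if_pos h2]
      obtain ⟨hl, hb, hx⟩ := h2
      by_cases hy : E.Hx.Ny d
      · have hH : HL d := ⟨hl, hy⟩
        have hne : d.support.Nonempty := E.Hx.lp_ne hl
        have hcz : cor d ∈ Z := by
          obtain ⟨v, hv, e1⟩ := L.hL_mem hne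
          obtain ⟨v', hv', e2⟩ := L.hB_mem hne
          have b1 := (hb v (Finsupp.mem_support_iff.1 hv)).1
          have b2 := (hb v' (Finsupp.mem_support_iff.1 hv')).2
          rw [hZ, Finset.mem_product, Finset.mem_Icc, Finset.mem_Icc]
          show (_ ≤ L.hL d.support ∧ L.hL d.support ≤ _) ∧ _ ≤ L.hB d.support ∧ L.hB d.support ≤ _
          rw [← e1, ← e2]
          exact ⟨abs_le.1 b1, abs_le.1 b2⟩
        refine le_trans (le_of_eq ?_) (Finset.single_le_sum (f := fun z => ({γ : Cfg | HL γ ∧ cor γ = z}).indicator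
          (fun γ => wl γ * G γ) d) (fun _ _ => zero_le) hcz)
        rw [Set.indicator_of_mem (show d ∈ {γ : Cfg | HL γ ∧ cor γ = cor d} from ⟨hH, rfl⟩), m1_wl, if_pos hy, hG]
        simp only
        unfold big
        rw [if_pos hx, one_mul]
      · rw [m1_wl, if_neg hy, zero_mul]
        exact zero_le
    · rw [if_neg h2]
      exact zero_le
  refine (ENNReal.tsum_le_tsum h1).trans ?_
  rw [Summable.tsum_finsetSum fun _ _ => ENNReal.summable]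
  have h3 : ∀ z ∈ Z, ∑' d : Cfg, ({γ : Cfg | HL γ ∧ cor γ = z}).indicator (fun γ => wl γ * G γ) d ≤
      ENNReal.ofReal (C / R ^ 2) := by
    intro z _
    have h4 := tsum_subtype {γ : Cfg | HL γ ∧ cor γ = z} (fun γ => wl γ * G γ)
    rw [← h4]
    have h5 := sum_at z G hGt
    have h6 : ∑' γ : {γ : Cfg // HL γ ∧ cor γ = 0}, wl γ.1 * G γ.1 ≤ ENNReal.ofReal (C / R ^ 2) := by
      rw [hG]
      exact hU u R hR
    exact (le_of_eq h5).trans h6
  refine (Finset.sum_le_sum h3).trans ?_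
  rw [Finset.sum_const, nsmul_eq_mul]
  have h7 : (Z.card : ℝ) = (2 * (K : ℝ) + 1) ^ 2 := by
    rw [hZ, Finset.card_product, Int.card_Icc]
    have : ((K : ℤ) + 1 - -(K : ℤ)).toNat = 2 * K + 1 := by omega
    rw [this]
    push_cast
    ring
  rw [← h7, ENNReal.ofReal_mul (Nat.cast_nonneg _), ENNReal.ofReal_natCast]

end Pool.Agent.ROT.LF
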