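import Pool.Agent.POL.Fin
import Pool.Agent.TIW.Base

/-!
# ROT, row N1 (helper56): the mass of the polygons of a window of sizes (K1, K2), closed words

`DU n R`: closed words with `n` letters and two vertices at distance `≥ R` (hexagonal norm `TIW.hn`);
`DL n κ R`: two vertices at distance `≥ κ R`, all at distance `≤ R`.
* **`massU`** : `∑ (1 / n) gf (DU n R) ≤ C / R ^ 2`, all `R > 0`;
* **`massLen`** : the part of `massU` with `n ≤ a R ^ (4/3)` is at most `C a / R ^ 2`.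
-/

set_option autoImplicit false

namespace HexObs

namespace NK

open Finset TS SDN NTW NTA SIM JNT POL

open scoped ENNReal

/-- closed words with two vertices at distance at least `R` -/
def DU (n : ℕ) (R : ℝ) : Set (List Bool) :=
  {t | t ∈ POL.Cy n ∧ ∃ i j, i ≤ n ∧ j ≤ n ∧ R ≤ ((TIW.hn (vx oo up t i - vx oo up t j) : ℤ) : ℝ)}

/-- closed words with diameter in `[κ R, R]` -/
def DL (n : ℕ) (κ R : ℝ) : Set (List Bool) :=
  {t | t ∈ POL.Cy n ∧ (∃ i j, i ≤ n ∧ j ≤ n ∧ κ * R ≤ ((TIW.hn (vx oo up t i - vx oo up t j) : ℤ) : ℝ)) ∧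
    ∀ i j, i ≤ n → j ≤ n → ((TIW.hn (vx oo up t i - vx oo up t j) : ℤ) : ℝ) ≤ R}

/-! ### 1. The box -/

/-- the hexagonal norm from the two levels -/
lemma hn_lvl {p : Pt} {a b : ℤ} (h1 : |lvl false p| ≤ a) (h2 : |lvl true p| ≤ b) : TIW.hn p ≤ a + b := by
  have e3 := ip_rot_sum p up
  have e1 : lvl false p = ip p up := rfl
  have e2 : lvl true p = -ip p (rotR up) := by
    simp only [lvl, hd, ip, rotR, up, if_true]
    ring
  rw [e1] at h1
  rw [e2, abs_neg] at h2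
  have ha : 0 ≤ a := (abs_nonneg _).trans h1
  have hb : 0 ≤ b := (abs_nonneg _).trans h2
  refine max_le (h1.trans (by linarith)) (max_le ?_ (h2.trans (by linarith)))
  rw [abs_le] at h1 h2 ⊢
  constructor <;> linarith [h1.1, h1.2, h2.1, h2.2]

lemma hn_WC {N K : ℕ} {t : List Bool} (h : t ∈ WC N K) {i : ℕ} (hi : i ≤ N) :
    TIW.hn (vx oo up t i) ≤ 6 * 2 ^ K + 4 := by
  have h0 := h.2 [] t rfl
  rw [List.append_nil] at h0
  have key : ∀ dir, |lvl dir (vx oo up t i)| ≤ 3 * 2 ^ K + 2 := by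
    intro dir
    have h1 := h0 i hi dir
    unfold row at h1
    generalize lvl dir (vx oo up t i) = x at h1 ⊢
    generalize (2 : ℤ) ^ K = N at h1 ⊢
    rw [abs_le] at h1 ⊢
    omega
  have h2 := hn_lvl (key false) (key true)
  linarith

lemma hn_WC2 {N K : ℕ} {t : List Bool} (h : t ∈ WC N K) {i j : ℕ} (hi : i ≤ N) (hj : j ≤ N) :
    ((TIW.hn (vx oo up t i - vx oo up t j) : ℤ) : ℝ) ≤ 20 * 2 ^ K := by
  have h1 := TIW.hn_sub (vx oo up t i) (vx oo up t j)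
  have h2 := hn_WC h hi
  have h3 := hn_WC h hj
  have h4 : (1 : ℤ) ≤ 2 ^ K := one_le_pow₀ (by norm_num)
  have h5 : TIW.hn (vx oo up t i - vx oo up t j) ≤ 20 * 2 ^ K := by linarith
  exact_mod_cast h5

lemma DU_sub {n K : ℕ} {R : ℝ} (h : 20 * 2 ^ K < R) : DU n R ⊆ POL.Cy n \ WC n K := by
  rintro t ⟨h1, i, j, hi, hj, h2⟩
  refine ⟨h1, fun h3 => ?_⟩
  have := hn_WC2 h3 hi hj
  linarith

/-- `P (k) = 2 ^ (10 k / 3)` -/
lemma p103 (k : ℕ) : (2 : ℝ) ^ (4 / 3 * (k : ℝ)) * 4 ^ k = 2 ^ (10 / 3 * (k : ℝ)) := by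
  rw [show (4 : ℝ) ^ k = 2 ^ (2 * (k : ℝ)) by
    rw [Real.rpow_mul (by norm_num), Real.rpow_natCast]
    norm_num, ← Real.rpow_add (by norm_num)]
  congr 1
  ring

/-- **closed words outside of a box** -/
theorem out_box : ∃ (C : ℝ) (k0 : ℕ), 0 < C ∧ ∀ n K : ℕ, 1 ≤ n → k0 ≤ K →
    gf (POL.Cy n \ WC n K) ≤ ENNReal.ofReal (C * (n : ℝ) / 2 ^ (10 / 3 * (K : ℝ))) := by
  obtain ⟨CU, kU, hCU, hU⟩ := upU
  obtain ⟨c1, hc1, hlow⟩ := VF.mLow VF.sharpZ
  refine ⟨2 * (CU / c1) + 1, kU, by positivity, fun n K hn hK => ?_⟩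
  have hn0 : (0 : ℝ) < n := by exact_mod_cast hn
  obtain ⟨P, hP⟩ : ∃ P : ℝ, P = 2 ^ (10 / 3 * (K : ℝ)) := ⟨_, rfl⟩
  have hP0 : 0 < P := by rw [hP]; positivity
  obtain ⟨q, hq⟩ : ∃ q : ℝ, q = (2 ^ (10 / 3 : ℝ))⁻¹ := ⟨_, rfl⟩
  have hq0 : 0 < q := by rw [hq]; positivity
  have hq12 : q ≤ 1 / 2 := by
    rw [hq, ← one_div]
    exact one_div_le_one_div_of_le (by norm_num) (two_rpow_ge (by norm_num))
  have hw : ∀ j : ℕ, CU * (n : ℝ) / w4 mM (K + j + 1) ≤ CU * (n : ℝ) / (c1 * P) * q ^ j := by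
    intro j
    have h1 := hlow (K + j + 1)
    have h2 : c1 * P * (2 ^ (10 / 3 : ℝ)) ^ j ≤ w4 mM (K + j + 1) := by
      unfold w4
      have e1 : c1 * P * (2 ^ (10 / 3 : ℝ)) ^ j = c1 * 2 ^ (10 / 3 * ((K + j : ℕ) : ℝ)) := by
        rw [hP, mul_assoc, ← Real.rpow_natCast (2 ^ (10 / 3 : ℝ)) j, ← Real.rpow_mul (by norm_num),
          ← Real.rpow_add (by norm_num)]
        congr 2
        push_cast
        ring
      rw [e1]
      calc c1 * 2 ^ (10 / 3 * ((K + j : ℕ) : ℝ)) ≤ c1 * 2 ^ (10 / 3 * ((K + j + 1 : ℕ) : ℝ)) := by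
            refine mul_le_mul_of_nonneg_left (Real.rpow_le_rpow_of_exponent_le (by norm_num) ?_) hc1.le
            push_cast
            linarith
        _ = c1 * 2 ^ (4 / 3 * ((K + j + 1 : ℕ) : ℝ)) * 4 ^ (K + j + 1) := by rw [mul_assoc, p103]
        _ ≤ _ := mul_le_mul_of_nonneg_right h1 (by positivity)
    calc CU * (n : ℝ) / w4 mM (K + j + 1) ≤ CU * (n : ℝ) / (c1 * P * (2 ^ (10 / 3 : ℝ)) ^ j) :=
          div_le_div_of_nonneg_left (by positivity) (by positivity) h2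
      _ = CU * (n : ℝ) / (c1 * P) * q ^ j := by
          rw [hq, inv_pow]
          field_simp
  have hcov : POL.Cy n \ WC n K ⊆ ⋃ j : ℕ, (WC n (K + j + 1) \ WC n (K + j)) := by
    rintro t ⟨h1, h2⟩
    rcases Cy_cover n K h1 with h | h
    · exact absurd h h2
    · exact h
  have h1 : gf (POL.Cy n \ WC n K) ≤ ∑' j : ℕ, gf (WC n (K + j + 1) \ WC n (K + j)) := by
    refine (gf_mono hcov).trans ?_
    unfold gf
    exact ENNReal.tsum_iUnion_le_tsum _ _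
  have hB0 : 0 ≤ CU * (n : ℝ) / (c1 * P) := by positivity
  refine h1.trans ((ENNReal.tsum_le_tsum fun j => ?_).trans ((geo_sum hq0.le hq12 _ hB0).trans
    (ENNReal.ofReal_le_ofReal ?_)))
  · exact (hU n (K + j) hn (by omega)).trans (ENNReal.ofReal_le_ofReal (hw j))
  · rw [← hP]
    calc 2 * (CU * (n : ℝ) / (c1 * P)) = 2 * (CU / c1) * n / P := by field_simp
      _ ≤ (2 * (CU / c1) + 1) * n / P := by gcongr; linarith

/-! ### 2. Sums -/

/-- the tail of the series `n ^ (-5/2)` -/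
lemma tail52 {X : ℝ} (hX : 1 ≤ X) (C : ℝ) (hC : 0 ≤ C) (f : ℕ → ℝ≥0∞)
    (hf : ∀ n : ℕ, 1 ≤ n → f n ≤ ENNReal.ofReal (C * (n : ℝ) ^ (-(5 / 2) : ℝ))) :
    ∑' n : ℕ, (if X < (n : ℝ) then f n else 0) ≤ ENNReal.ofReal (4 * C * X ^ (-(3 / 2) : ℝ)) := by
  have hX0 : 0 < X := by linarith
  rw [ENNReal.tsum_eq_iSup_nat]
  refine iSup_le fun M => ?_
  have h1 : ∀ n ∈ range M, (if X < (n : ℝ) then f n else 0) ≤
      if X < (n : ℝ) then ENNReal.ofReal (C * X ^ (-(1 / 2) : ℝ) * ((n : ℝ) ^ 2)⁻¹) else 0 := by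
    intro n _
    split_ifs with h
    · have hn1 : 1 ≤ n := by
        have : (1 : ℝ) < n := by linarith
        exact_mod_cast this.le
      have hn0 : (0 : ℝ) < n := by linarith
      refine (hf n hn1).trans (ENNReal.ofReal_le_ofReal ?_)
      rw [mul_assoc]
      refine mul_le_mul_of_nonneg_left ?_ hC
      have e : (n : ℝ) ^ (-(5 / 2) : ℝ) = (n : ℝ) ^ (-(1 / 2) : ℝ) * ((n : ℝ) ^ 2)⁻¹ := by
        rw [← Real.rpow_natCast, ← Real.rpow_neg hn0.le, ← Real.rpow_add hn0]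
        congr 1
        norm_num
      rw [e]
      refine mul_le_mul_of_nonneg_right ?_ (by positivity)
      rw [Real.rpow_neg hn0.le, Real.rpow_neg hX0.le]
      exact inv_anti₀ (by positivity) (Real.rpow_le_rpow hX0.le h.le (by norm_num))
    · exact le_rfl
  refine (sum_le_sum h1).trans ?_
  rw [← sum_filter, ← ENNReal.ofReal_sum_of_nonneg (fun n _ => by positivity), ← mul_sum]
  refine ENNReal.ofReal_le_ofReal ?_
  have h2 : ∑ n ∈ (range M).filter (fun n : ℕ => X < (n : ℝ)), ((n : ℝ) ^ 2)⁻¹ ≤ 4 / X := by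
    have h3 : (range M).filter (fun n : ℕ => X < (n : ℝ)) ⊆ Ioo (⌊X⌋₊) (M + 1) := by
      intro n hn
      rw [mem_filter, mem_range] at hn
      rw [mem_Ioo]
      exact ⟨(Nat.floor_lt hX0.le).2 hn.2, by omega⟩
    refine (sum_le_sum_of_subset_of_nonneg h3 fun n _ _ => by positivity).trans ?_
    refine (sum_Ioo_inv_sq_le _ _).trans ?_
    have h4 : X < (⌊X⌋₊ : ℝ) + 1 := Nat.lt_floor_add_one X
    rw [div_le_div_iff₀ (by positivity) hX0]
    linarith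
  have h5 : X ^ (-(3 / 2) : ℝ) = X ^ (-(1 / 2) : ℝ) * X⁻¹ := by
    rw [← Real.rpow_neg_one X, ← Real.rpow_add hX0]
    congr 1
    norm_num
  calc C * X ^ (-(1 / 2) : ℝ) * ∑ n ∈ (range M).filter (fun n : ℕ => X < (n : ℝ)), ((n : ℝ) ^ 2)⁻¹
      ≤ C * X ^ (-(1 / 2) : ℝ) * (4 / X) := mul_le_mul_of_nonneg_left h2 (by positivity)
    _ = 4 * C * X ^ (-(3 / 2) : ℝ) := by rw [h5]; ring

/-- the terms up to `X` -/
lemma head_sum {X B : ℝ} (hX : 1 ≤ X) (hB : 0 ≤ B) (f : ℕ → ℝ≥0∞) (hf : ∀ n : ℕ, f n ≤ ENNReal.ofReal B) :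
    ∑' n : ℕ, (if X < (n : ℝ) then 0 else f n) ≤ ENNReal.ofReal (2 * X * B) := by
  have hX0 : 0 < X := by linarith
  rw [tsum_eq_sum (s := range (⌊X⌋₊ + 1))]
  · calc ∑ n ∈ range (⌊X⌋₊ + 1), (if X < (n : ℝ) then 0 else f n) ≤ ∑ n ∈ range (⌊X⌋₊ + 1), ENNReal.ofReal B := by
          refine sum_le_sum fun n _ => ?_
          split_ifs
          · exact zero_le
          · exact hf n
      _ = ENNReal.ofReal (((⌊X⌋₊ : ℝ) + 1) * B) := by
          rw [sum_const, card_range, nsmul_eq_mul, ← ENNReal.ofReal_natCast, ← ENNReal.ofReal_mul (by positivity)]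
          push_cast
          rfl
      _ ≤ _ := by
          refine ENNReal.ofReal_le_ofReal (mul_le_mul_of_nonneg_right ?_ hB)
          have := Nat.floor_le hX0.le
          linarith
  · intro n hn
    rw [mem_range, not_lt] at hn
    rw [if_pos ((Nat.floor_lt hX0.le).1 (by omega))]

/-- the terms `1 ≤ n ≤ Y` -/
lemma head_one {Y B : ℝ} (hY : 0 ≤ Y) (hB : 0 ≤ B) (f : ℕ → ℝ≥0∞) (h0 : f 0 = 0)
    (hf : ∀ n : ℕ, 1 ≤ n → f n ≤ ENNReal.ofReal B) :
    ∑' n : ℕ, (if (n : ℝ) ≤ Y then f n else 0) ≤ ENNReal.ofReal (Y * B) := by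
  rw [tsum_eq_sum (s := Icc 1 ⌊Y⌋₊)]
  · calc ∑ n ∈ Icc 1 ⌊Y⌋₊, (if (n : ℝ) ≤ Y then f n else 0) ≤ ∑ n ∈ Icc 1 ⌊Y⌋₊, ENNReal.ofReal B := by
          refine sum_le_sum fun n hn => ?_
          split_ifs
          · exact hf n (mem_Icc.1 hn).1
          · exact zero_le
      _ = ENNReal.ofReal ((⌊Y⌋₊ : ℝ) * B) := by
          rw [sum_const, Nat.card_Icc, Nat.add_sub_cancel, nsmul_eq_mul, ← ENNReal.ofReal_natCast,
            ← ENNReal.ofReal_mul (by positivity)]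
      _ ≤ _ := ENNReal.ofReal_le_ofReal (mul_le_mul_of_nonneg_right (Nat.floor_le hY) hB)
  · intro n hn
    rw [mem_Icc, not_and_or, not_le, not_le] at hn
    rcases hn with hn | hn
    · have : n = 0 := by omega
      rw [this, h0]
      split_ifs <;> rfl
    · rw [if_neg]
      rw [not_le]
      exact (Nat.floor_lt hY).1 hn

/-! ### 3. The upper bound -/

lemma inv_mul_gf {n : ℕ} (hn : 1 ≤ n) {a : ℝ} {S : Set (List Bool)} (h : gf S ≤ ENNReal.ofReal a) :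
    ENNReal.ofReal (1 / n) * gf S ≤ ENNReal.ofReal (a / n) := by
  refine (mul_le_mul_right h _).trans ?_
  rw [← ENNReal.ofReal_mul (by positivity)]
  exact ENNReal.ofReal_le_ofReal (le_of_eq (by ring))

lemma P1' : ∃ C : ℝ, 0 < C ∧ ∀ n : ℕ, 1 ≤ n →
    ENNReal.ofReal (1 / n) * gf (POL.Cy n) ≤ ENNReal.ofReal (C * (n : ℝ) ^ (-(5 / 2) : ℝ)) := by
  obtain ⟨C, hC, h⟩ := P1
  refine ⟨C, hC, fun n hn => (inv_mul_gf hn (h n hn)).trans (ENNReal.ofReal_le_ofReal (le_of_eq ?_))⟩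
  have hn0 : (0 : ℝ) < n := by exact_mod_cast hn
  rw [mul_div_assoc, ← Real.rpow_sub_one hn0.ne']
  congr 2
  norm_num

/-- **the upper bound** -/
theorem massU : ∃ C : ℝ, 0 < C ∧ ∀ R : ℝ, 0 < R →
    ∑' n : ℕ, ENNReal.ofReal (1 / n) * gf (DU n R) ≤ ENNReal.ofReal (C / R ^ 2) := by
  obtain ⟨C1, hC1, h1⟩ := P1'
  obtain ⟨C2, k0, hC2, h2⟩ := out_box
  obtain ⟨R1, hR1⟩ : ∃ R1 : ℝ, R1 = 20 * 2 ^ (k0 + 1) := ⟨_, rfl⟩
  have hR10 : 0 < R1 := by rw [hR1]; positivity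
  refine ⟨6 * C1 * R1 ^ 2 + 1600 * (2 * C2 + 4 * C1), by positivity, fun R hR => ?_⟩
  have hf1 : ∀ n : ℕ, 1 ≤ n → ENNReal.ofReal (1 / n) * gf (DU n R) ≤ ENNReal.ofReal (C1 * (n : ℝ) ^ (-(5 / 2) : ℝ)) :=
    fun n hn => (mul_le_mul_right (gf_mono fun t ht => ht.1) _).trans (h1 n hn)
  have split : ∀ X : ℝ, ∑' n : ℕ, ENNReal.ofReal (1 / n) * gf (DU n R) =
      ∑' n : ℕ, (if X < (n : ℝ) then 0 else ENNReal.ofReal (1 / n) * gf (DU n R)) +
      ∑' n : ℕ, (if X < (n : ℝ) then ENNReal.ofReal (1 / n) * gf (DU n R) else 0) := by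
    intro X
    rw [← ENNReal.tsum_add]
    refine tsum_congr fun n => ?_
    split_ifs <;> simp
  rcases le_or_gt R R1 with h | h
  · rw [split 1]
    have a1 : ∑' n : ℕ, (if (1 : ℝ) < (n : ℝ) then 0 else ENNReal.ofReal (1 / n) * gf (DU n R)) ≤
        ENNReal.ofReal (2 * 1 * C1) := by
      refine head_sum le_rfl hC1.le _ fun n => ?_
      rcases Nat.eq_zero_or_pos n with rfl | hn
      · simp
      · refine (hf1 n hn).trans (ENNReal.ofReal_le_ofReal ?_)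
        have hn0 : (1 : ℝ) ≤ n := by exact_mod_cast hn
        have := Real.rpow_le_one_of_one_le_of_nonpos hn0 (show (-(5 / 2) : ℝ) ≤ 0 by norm_num)
        nlinarith
    have a2 := tail52 le_rfl C1 hC1.le _ hf1
    refine (add_le_add a1 a2).trans ?_
    rw [← ENNReal.ofReal_add (by positivity) (by positivity)]
    refine ENNReal.ofReal_le_ofReal ?_
    rw [le_div_iff₀ (by positivity), Real.one_rpow]
    have : R ^ 2 ≤ R1 ^ 2 := pow_le_pow_left₀ hR.le h 2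
    nlinarith
  · -- the scale
    have hex : ∃ k : ℕ, R ≤ 20 * 2 ^ k := by
      obtain ⟨k, hk⟩ := pow_unbounded_of_one_lt R (one_lt_two (α := ℝ))
      exact ⟨k, by have : (0 : ℝ) ≤ 2 ^ k := by positivity
                   linarith⟩
    classical
    obtain ⟨k', hk'⟩ : ∃ k', k' = Nat.find hex := ⟨_, rfl⟩
    have hk1 : R ≤ 20 * 2 ^ k' := by rw [hk']; exact Nat.find_spec hex
    have hk2 : ∀ k, k < k' → 20 * 2 ^ k < R := by
      intro k hk
      rw [hk'] at hk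
      exact not_le.1 (Nat.find_min hex hk)
    have hk3 : k0 + 1 < k' := by
      by_contra hc
      rw [not_lt] at hc
      have : (2 : ℝ) ^ k' ≤ 2 ^ (k0 + 1) := pow_le_pow_right₀ (by norm_num) hc
      linarith
    obtain ⟨k, rfl⟩ : ∃ k, k' = k + 1 := ⟨k' - 1, by omega⟩
    have hkR := hk2 k (by omega)
    obtain ⟨X, hX⟩ : ∃ X : ℝ, X = 2 ^ (4 / 3 * (k : ℝ)) := ⟨_, rfl⟩
    have hX1 : 1 ≤ X := by
      rw [hX]
      exact Real.one_le_rpow (by norm_num) (by positivity)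
    have hX0 : 0 < X := by linarith
    have hXP : X * 4 ^ k = 2 ^ (10 / 3 * (k : ℝ)) := by rw [hX, p103]
    have hX32 : X ^ (-(3 / 2) : ℝ) = ((4 : ℝ) ^ k)⁻¹ := by
      rw [hX, ← Real.rpow_mul (by norm_num), show (4 : ℝ) ^ k = 2 ^ (2 * (k : ℝ)) by
        rw [Real.rpow_mul (by norm_num), Real.rpow_natCast]
        norm_num, ← Real.rpow_neg (by norm_num)]
      congr 1
      ring
    rw [split X]
    have a1 : ∑' n : ℕ, (if X < (n : ℝ) then 0 else ENNReal.ofReal (1 / n) * gf (DU n R)) ≤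
        ENNReal.ofReal (2 * X * (C2 / (X * 4 ^ k))) := by
      refine head_sum hX1 (by positivity) _ fun n => ?_
      rcases Nat.eq_zero_or_pos n with rfl | hn
      · simp
      · have hn0 : (0 : ℝ) < n := by exact_mod_cast hn
        refine (inv_mul_gf hn ((gf_mono (DU_sub hkR)).trans (h2 n k hn (by omega)))).trans
          (ENNReal.ofReal_le_ofReal (le_of_eq ?_))
        rw [← hXP]
        field_simp
    have a2 := tail52 hX1 C1 hC1.le _ hf1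
    refine (add_le_add a1 a2).trans ?_
    rw [← ENNReal.ofReal_add (by positivity) (by positivity)]
    refine ENNReal.ofReal_le_ofReal ?_
    rw [hX32, le_div_iff₀ (by positivity)]
    have e1 : 2 * X * (C2 / (X * 4 ^ k)) + 4 * C1 * ((4 : ℝ) ^ k)⁻¹ = (2 * C2 + 4 * C1) / 4 ^ k := by
      field_simp
    rw [e1, div_mul_eq_mul_div, div_le_iff₀ (by positivity)]
    have e2 : R ^ 2 ≤ 1600 * 4 ^ k := by
      have h3 : R ^ 2 ≤ (20 * 2 ^ (k + 1)) ^ 2 := pow_le_pow_left₀ hR.le hk1 2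
      have h4 : ((20 : ℝ) * 2 ^ (k + 1)) ^ 2 = 1600 * 4 ^ k := by
        rw [mul_pow, ← pow_mul, mul_comm (k + 1) 2, pow_mul]
        norm_num
        rw [pow_succ]
        ring
      linarith
    have e3 : 0 ≤ 6 * C1 * R1 ^ 2 * 4 ^ k := by positivity
    nlinarith [mul_le_mul_of_nonneg_left e2 (show 0 ≤ 2 * C2 + 4 * C1 by positivity)]

/-- the scale of `R` -/
lemma scale_R {R : ℝ} {k0 : ℕ} (h : 20 * 2 ^ (k0 + 1) < R) :
    ∃ k : ℕ, k0 ≤ k ∧ 20 * 2 ^ k < R ∧ R ≤ 40 * 2 ^ k := by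
  have hex : ∃ k : ℕ, R ≤ 20 * 2 ^ k := by
    obtain ⟨k, hk⟩ := pow_unbounded_of_one_lt R (one_lt_two (α := ℝ))
    exact ⟨k, by have : (0 : ℝ) ≤ 2 ^ k := by positivity
                 linarith⟩
  classical
  obtain ⟨k', hk'⟩ : ∃ k', k' = Nat.find hex := ⟨_, rfl⟩
  have hk1 : R ≤ 20 * 2 ^ k' := by rw [hk']; exact Nat.find_spec hex
  have hk2 : ∀ k, k < k' → 20 * 2 ^ k < R := by
    intro k hk
    rw [hk'] at hk
    exact not_le.1 (Nat.find_min hex hk)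
  have hk3 : k0 + 1 < k' := by
    by_contra hc
    rw [not_lt] at hc
    have : (2 : ℝ) ^ k' ≤ 2 ^ (k0 + 1) := pow_le_pow_right₀ (by norm_num) hc
    linarith
  obtain ⟨k, rfl⟩ : ∃ k, k' = k + 1 := ⟨k' - 1, by omega⟩
  refine ⟨k, by omega, hk2 k (by omega), ?_⟩
  rw [pow_succ] at hk1
  linarith

/-- **short polygons of a given size** -/
theorem massLen : ∃ C : ℝ, 0 < C ∧ ∀ R a : ℝ, 0 < R → 0 < a →
    ∑' n : ℕ, (if (n : ℝ) ≤ a * R ^ (4 / 3 : ℝ) then ENNReal.ofReal (1 / n) * gf (DU n R) else 0) ≤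
      ENNReal.ofReal (C * a / R ^ 2) := by
  obtain ⟨C1, hC1, h1⟩ := P1'
  obtain ⟨C2, k0, hC2, h2⟩ := out_box
  obtain ⟨R1, hR1⟩ : ∃ R1 : ℝ, R1 = 20 * 2 ^ (k0 + 1) := ⟨_, rfl⟩
  have hR10 : 0 < R1 := by rw [hR1]; positivity
  refine ⟨C1 * R1 ^ (10 / 3 : ℝ) + (40 : ℝ) ^ (4 / 3 : ℝ) * 1600 * C2, by positivity, fun R a hR ha => ?_⟩
  have hf0 : ENNReal.ofReal (1 / (0 : ℕ)) * gf (DU 0 R) = 0 := by simp
  rcases le_or_gt R R1 with h | h
  · refine (head_one (B := C1) (by positivity) hC1.le (fun n : ℕ => ENNReal.ofReal (1 / n) * gf (DU n R)) hf0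
      fun n hn => ?_).trans (ENNReal.ofReal_le_ofReal ?_)
    · refine ((mul_le_mul_right (gf_mono fun t ht => ht.1) _).trans (h1 n hn)).trans (ENNReal.ofReal_le_ofReal ?_)
      have hn0 : (1 : ℝ) ≤ n := by exact_mod_cast hn
      have := Real.rpow_le_one_of_one_le_of_nonpos hn0 (show (-(5 / 2) : ℝ) ≤ 0 by norm_num)
      nlinarith
    · rw [le_div_iff₀ (by positivity)]
      have e : R ^ (4 / 3 : ℝ) * R ^ 2 = R ^ (10 / 3 : ℝ) := by
        rw [← Real.rpow_natCast R 2, ← Real.rpow_add hR]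
        norm_num
      have e2 : R ^ (10 / 3 : ℝ) ≤ R1 ^ (10 / 3 : ℝ) := Real.rpow_le_rpow hR.le h (by norm_num)
      calc a * R ^ (4 / 3 : ℝ) * C1 * R ^ 2 = C1 * a * (R ^ (4 / 3 : ℝ) * R ^ 2) := by ring
        _ ≤ C1 * a * R1 ^ (10 / 3 : ℝ) := by rw [e]; gcongr
        _ ≤ (C1 * R1 ^ (10 / 3 : ℝ) + (40 : ℝ) ^ (4 / 3 : ℝ) * 1600 * C2) * a := by
            have : 0 ≤ (40 : ℝ) ^ (4 / 3 : ℝ) * 1600 * C2 * a := by positivity
            linarith
  · rw [hR1] at h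
    obtain ⟨k, hk0, hk1, hk2⟩ := scale_R h
    obtain ⟨X, hX⟩ : ∃ X : ℝ, X = 2 ^ (4 / 3 * (k : ℝ)) := ⟨_, rfl⟩
    have hX0 : 0 < X := by rw [hX]; positivity
    have hXP : X * 4 ^ k = 2 ^ (10 / 3 * (k : ℝ)) := by rw [hX, p103]
    refine (head_one (B := C2 / (X * 4 ^ k)) (by positivity) (by positivity)
      (fun n : ℕ => ENNReal.ofReal (1 / n) * gf (DU n R)) hf0 fun n hn => ?_).trans (ENNReal.ofReal_le_ofReal ?_)
    · have hn0 : (0 : ℝ) < n := by exact_mod_cast hn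
      refine (inv_mul_gf hn ((gf_mono (DU_sub hk1)).trans (h2 n k hn hk0))).trans
        (ENNReal.ofReal_le_ofReal (le_of_eq ?_))
      rw [← hXP]
      field_simp
    · have e1 : R ^ (4 / 3 : ℝ) ≤ (40 : ℝ) ^ (4 / 3 : ℝ) * X := by
        have e2 : X = ((2 : ℝ) ^ k) ^ (4 / 3 : ℝ) := by
          rw [hX, ← Real.rpow_natCast 2 k, ← Real.rpow_mul (by norm_num)]
          congr 1
          ring
        rw [e2, ← Real.mul_rpow (by norm_num) (by positivity)]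
        exact Real.rpow_le_rpow hR.le hk2 (by norm_num)
      have e3 : R ^ 2 ≤ 1600 * 4 ^ k := by
        have h3 : R ^ 2 ≤ (40 * 2 ^ k) ^ 2 := pow_le_pow_left₀ hR.le hk2 2
        have h4 : ((40 : ℝ) * 2 ^ k) ^ 2 = 1600 * 4 ^ k := by
          rw [mul_pow, ← pow_mul, mul_comm k 2, pow_mul]
          norm_num
        linarith
      rw [le_div_iff₀ (by positivity)]
      calc a * R ^ (4 / 3 : ℝ) * (C2 / (X * 4 ^ k)) * R ^ 2
          ≤ a * ((40 : ℝ) ^ (4 / 3 : ℝ) * X) * (C2 / (X * 4 ^ k)) * (1600 * 4 ^ k) := by gcongr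
        _ = (40 : ℝ) ^ (4 / 3 : ℝ) * 1600 * C2 * a := by
            field_simp
        _ ≤ _ := by
            have : 0 ≤ C1 * R1 ^ (10 / 3 : ℝ) * a := by positivity
            linarith

end NK

end HexObs
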