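import Pool.Agent.ROT.LMassB
import Pool.Agent.ROT.LFam
import Pool.Agent.ROT.NUI
import Pool.Agent.ROT.NMassU

/-!
# ROT, row L7c: the half plane count

A true loop inside `half plane ∪ block` which meets the block has a cell of its extreme line in the block, a cell lies
in four blocks, and the first moment of the number of cells of the extreme line is finite:

* `half_count`: sum over the blocks against `4 × (number of cells of the extreme line)`;
* `loc_mass`: the located loops in a box with this factor: `≤ C (2 K + 1)² / R²`;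
* **`half_OK`**: `Σ_(j,s) OK (Blk j s) (w inside the half plane and the box K, far n) ≤ C ((K + 4) / n)²`.
-/

set_option autoImplicit false

namespace Pool.Agent.ROT.LB

open Pool.Agent.ROT.E Pool.Agent.ROT.E.Hx
open Pool.Agent.ROT.LF (Hp Bx)
open Pool.Agent.ROT.L (hL hR hB hT hL_le le_hR hB_le le_hT hL_mem hR_mem hB_mem hT_mem hL_eq hR_eq hB_eq hT_eq)
open scoped ENNReal

/-- the extreme line of the half plane -/
def ux : Fin 4 → Fin 4 := ![0, 1, 3, 2]

/-- the cells of the extreme line -/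
noncomputable def exl (γ : Cfg) (u : Fin 4) : Finset Pt :=
  ![γ.support.filter fun v => v.1 = hL γ.support, γ.support.filter fun v => v.1 = hR γ.support,
    γ.support.filter fun v => v.2 = hB γ.support, γ.support.filter fun v => v.2 = hT γ.support] u

theorem fin4 (u : Fin 4) : u = 0 ∨ u = 1 ∨ u = 2 ∨ u = 3 := by
  revert u
  decide

theorem exl_card (γ : Cfg) (u : Fin 4) : (exl γ u).card = nE γ u := by
  rcases fin4 u with rfl | rfl | rfl | rfl <;> rfl

theorem blk_cases {j s : ℤ} {v : Pt} (h : v ∈ Blk j s) : (v.1 = j ∨ v.1 = j + 1) ∧ (v.2 = s - 1 ∨ v.2 = s) := by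
  simp only [Blk, Set.mem_insert_iff, Set.mem_singleton_iff] at h
  rcases h with rfl | rfl | rfl | rfl <;> simp

/-- **an extreme cell in the block** -/
theorem exl_blk {j s K : ℤ} {a : Fin 4} {d : Cfg} (h1 : ∀ v, d v ≠ .o → v ∈ (Hp j s a ∩ Bx K) ∪ Blk j s)
    (h2 : ∃ v ∈ Blk j s, d v ≠ .o) : ∃ v ∈ Blk j s, v ∈ exl d (ux a) := by
  have hS : ∀ v, v ∈ d.support ↔ d v ≠ .o := fun v => Finsupp.mem_support_iff
  obtain ⟨w, hw, hd⟩ := h2
  have hne : d.support.Nonempty := ⟨w, (hS w).2 hd⟩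
  have hc := blk_cases hw
  rcases fin4 a with rfl | rfl | rfl | rfl
  · obtain ⟨v, hv, e⟩ := hL_mem hne
    by_cases hb : v ∈ Blk j s
    · exact ⟨v, hb, Finset.mem_filter.2 ⟨hv, e⟩⟩
    · have h3 : v ∈ Hp j s 0 := ((h1 v ((hS v).1 hv)).resolve_right hb).1
      have h4 : j + 1 ≤ v.1 := h3
      have h5 := hL_le ((hS w).2 hd)
      refine ⟨w, hw, Finset.mem_filter.2 ⟨(hS w).2 hd, ?_⟩⟩
      omega
  · obtain ⟨v, hv, e⟩ := hR_mem hne
    by_cases hb : v ∈ Blk j s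
    · exact ⟨v, hb, Finset.mem_filter.2 ⟨hv, e⟩⟩
    · have h3 : v ∈ Hp j s 1 := ((h1 v ((hS v).1 hv)).resolve_right hb).1
      have h4 : v.1 ≤ j := h3
      have h5 := le_hR ((hS w).2 hd)
      refine ⟨w, hw, Finset.mem_filter.2 ⟨(hS w).2 hd, ?_⟩⟩
      omega
  · obtain ⟨v, hv, e⟩ := hT_mem hne
    by_cases hb : v ∈ Blk j s
    · exact ⟨v, hb, Finset.mem_filter.2 ⟨hv, e⟩⟩
    · have h3 : v ∈ Hp j s 2 := ((h1 v ((hS v).1 hv)).resolve_right hb).1
      have h4 : v.2 ≤ s - 1 := h3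
      have h5 := le_hT ((hS w).2 hd)
      refine ⟨w, hw, Finset.mem_filter.2 ⟨(hS w).2 hd, ?_⟩⟩
      omega
  · obtain ⟨v, hv, e⟩ := hB_mem hne
    by_cases hb : v ∈ Blk j s
    · exact ⟨v, hb, Finset.mem_filter.2 ⟨hv, e⟩⟩
    · have h3 : v ∈ Hp j s 3 := ((h1 v ((hS v).1 hv)).resolve_right hb).1
      have h4 : s ≤ v.2 := h3
      have h5 := hB_le ((hS w).2 hd)
      refine ⟨w, hw, Finset.mem_filter.2 ⟨(hS w).2 hd, ?_⟩⟩
      omega

/-- the blocks of a cell -/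
def bks (v : Pt) : Finset Pt := {(v.1, v.2 + 1), (v.1 - 1, v.2 + 1), (v.1, v.2), (v.1 - 1, v.2)}

theorem mem_bks {v x : Pt} (h : v ∈ Blk x.1 x.2) : x ∈ bks v := by
  obtain ⟨j, s⟩ := x
  simp only [Blk, Set.mem_insert_iff, Set.mem_singleton_iff] at h
  rcases h with rfl | rfl | rfl | rfl <;> simp [bks]

/-- the blocks of the box -/
noncomputable def bxs (K : ℤ) : Finset Pt := Finset.Icc (-(K + 2)) (K + 2) ×ˢ Finset.Icc (-(K + 2)) (K + 2)

open Classical in
/-- the located loops with the number of the cells of an extreme line -/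
noncomputable def LE (K n : ℤ) (u : Fin 4) : ℝ≥0∞ :=
  ∑' d : Cfg, if Lp d ∧ (∀ v, d v ≠ .o → v ∈ Bx K) ∧ (n ≤ exC d ∨ n ≤ exR d) then ENNReal.ofReal (m1 d) * nE d u else 0

theorem far_ex {j s n : ℤ} {d : Cfg} (h2 : ∃ v ∈ Blk j s, d v ≠ .o) (h : Far j s n d) :
    n - 1 ≤ exC d ∨ n - 1 ≤ exR d := by
  have hS : ∀ v, v ∈ d.support ↔ d v ≠ .o := fun v => Finsupp.mem_support_iff
  obtain ⟨w, hw, hd⟩ := h2
  obtain ⟨v, hv, h3⟩ := h
  have hc := blk_cases hw
  have a1 := hL_le ((hS w).2 hd)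
  have a2 := le_hR ((hS w).2 hd)
  have a3 := hB_le ((hS w).2 hd)
  have a4 := le_hT ((hS w).2 hd)
  have b1 := hL_le ((hS v).2 hv)
  have b2 := le_hR ((hS v).2 hv)
  have b3 := hB_le ((hS v).2 hv)
  have b4 := le_hT ((hS v).2 hv)
  unfold exC exR
  rcases h3 with h3 | h3
  · left
    rw [le_abs] at h3
    omega
  · right
    rw [le_abs] at h3
    omega

/-- **the half plane count** -/
theorem half_count (a : Fin 4) (K n : ℤ) :
    ∑ x ∈ bxs K, KL (Blk x.1 x.2) (fun d => (∀ v, d v ≠ .o → v ∈ (Hp x.1 x.2 a ∩ Bx K) ∪ Blk x.1 x.2) ∧ Far x.1 x.2 n d) ≤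
      4 * LE (K + 3) (n - 1) (ux a) := by
  classical
  unfold KL LE
  rw [← Summable.tsum_finsetSum fun _ _ => ENNReal.summable, ← ENNReal.tsum_mul_left]
  refine ENNReal.tsum_le_tsum fun d => ?_
  obtain ⟨Q, hQ⟩ : ∃ Q : Pt → Prop, Q = fun x => Lp d ∧ (∃ v ∈ Blk x.1 x.2, d v ≠ .o) ∧
      (∀ v, d v ≠ .o → v ∈ (Hp x.1 x.2 a ∩ Bx K) ∪ Blk x.1 x.2) ∧ Far x.1 x.2 n d := ⟨_, rfl⟩
  have e1 : ∑ x ∈ bxs K, (if Q x then ENNReal.ofReal (m1 d) else 0) =
      ((bxs K).filter Q).card * ENNReal.ofReal (m1 d) := by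
    rw [← nsmul_eq_mul, ← Finset.sum_const, Finset.sum_filter]
  refine le_trans (le_of_eq (Eq.trans (Finset.sum_congr rfl fun x _ => ?_) e1)) ?_
  · rw [hQ]
    congr
  rcases Finset.eq_empty_or_nonempty ((bxs K).filter Q) with he | ⟨x, hx⟩
  · rw [he, Finset.card_empty, Nat.cast_zero, zero_mul]
    exact zero_le
  · have hx2 := (Finset.mem_filter.1 hx).2
    have hx1 := (Finset.mem_filter.1 hx).1
    rw [hQ] at hx2
    obtain ⟨l, hm, hs, hf⟩ := hx2
    rw [if_pos]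
    · have h1 : ((bxs K).filter Q) ⊆ (exl d (ux a)).biUnion bks := by
        intro y hy
        have hy2 := (Finset.mem_filter.1 hy).2
        rw [hQ] at hy2
        obtain ⟨v, hv, hv2⟩ := exl_blk hy2.2.2.1 hy2.2.1
        exact Finset.mem_biUnion.2 ⟨v, hv2, mem_bks hv⟩
      have h2 : ((bxs K).filter Q).card ≤ 4 * nE d (ux a) := by
        refine (Finset.card_le_card h1).trans (Finset.card_biUnion_le.trans ?_)
        rw [← exl_card]
        refine (Finset.sum_le_card_nsmul _ _ 4 fun v _ => Finset.card_le_four).trans ?_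
        rw [smul_eq_mul, mul_comm]
      calc (((bxs K).filter Q).card : ℝ≥0∞) * ENNReal.ofReal (m1 d)
          ≤ ((4 * nE d (ux a) : ℕ) : ℝ≥0∞) * ENNReal.ofReal (m1 d) := by gcongr
        _ = 4 * (ENNReal.ofReal (m1 d) * nE d (ux a)) := by
            push_cast
            ring
    · refine ⟨l, fun v hv => ?_, far_ex hm hf⟩
      have hx3 := Finset.mem_product.1 hx1
      rw [Finset.mem_Icc, Finset.mem_Icc] at hx3
      rcases hs v hv with h | h
      · have := h.2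
        simp only [Bx, Set.mem_ofPred_eq, abs_le] at this ⊢
        omega
      · have := blk_cases h
        simp only [Bx, Set.mem_ofPred_eq, abs_le]
        omega

/-! ### the located loops -/

/-- translation: the sum with the corner at `a` -/
theorem cor_sum (a : Pt) (G : Cfg → ℝ≥0∞) (hG : ∀ a γ, HL γ → G (trc a γ) = G γ) :
    ∑' γ : {γ : Cfg // HL γ}, wl γ.1 * (if cor γ.1 = a then G γ.1 else 0) =
      ∑' γ : {γ : Cfg // HL γ ∧ cor γ = 0}, wl γ.1 * G γ.1 := by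
  rw [mtp2 (top := cor) (top' := fun γ => cor γ - a) cor_trc (by
    intro b γ h
    simp only [cor_trc b γ h]
    abel) G hG]
  have h4 := tsum_subtype {γ : Cfg | HL γ ∧ cor γ - a = 0} (fun γ => wl γ * G γ)
  have h5 := tsum_subtype {γ : Cfg | HL γ} (fun γ => wl γ * (if cor γ = a then G γ else 0))
  refine h5.trans (Eq.trans ?_ h4.symm)
  apply tsum_congr
  intro γ
  simp only [sub_eq_zero]
  by_cases h6 : HL γ <;> by_cases h7 : cor γ = a <;> simp [h6, h7]

theorem massU' : MassU := by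
  obtain ⟨C, hC, h⟩ := HexObs.NK.massU
  exact ⟨C, hC, h⟩

/-- **the located loops in a box with the number of the cells of an extreme line** -/
theorem loc_mass : ∃ C : ℝ, 0 ≤ C ∧ ∀ (u : Fin 4) (K n : ℕ), 1 ≤ n →
    LE K n u ≤ ENNReal.ofReal (C * (2 * K + 1) ^ 2 / n ^ 2) := by
  classical
  obtain ⟨C, hC, h⟩ := uiE massU'
  refine ⟨C, hC.le, fun u K n hn => ?_⟩
  obtain ⟨P, hP⟩ : ∃ P : Finset Pt, P = Finset.Icc (-(K : ℤ)) K ×ˢ Finset.Icc (-(K : ℤ)) K := ⟨_, rfl⟩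
  have hcard : P.card = (2 * K + 1) ^ 2 := by
    rw [hP, Finset.card_product, Int.card_Icc]
    have : ((K : ℤ) + 1 - -(K : ℤ)).toNat = 2 * K + 1 := by omega
    rw [this]
    ring
  obtain ⟨G, hG⟩ : ∃ G : Cfg → ℝ≥0∞, G = fun γ => big n γ * (nE γ u : ℝ≥0∞) ^ 2 := ⟨_, rfl⟩
  have hGt : ∀ a γ, HL γ → G (trc a γ) = G γ := fun a γ hl => by
    simp only [hG]
    rw [big_trc _ a hl, nE_trc a hl]
  have h1 : LE K n u ≤ ∑' γ : {γ : Cfg // HL γ}, ∑ a ∈ P, wl γ.1 * (if cor γ.1 = a then G γ.1 else 0) := by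
    have h5 := tsum_subtype {γ : Cfg | HL γ} (fun γ => ∑ a ∈ P, wl γ * (if cor γ = a then G γ else 0))
    refine le_trans ?_ h5.ge
    unfold LE
    refine ENNReal.tsum_le_tsum fun γ => ?_
    by_cases hc : Lp γ ∧ (∀ v, γ v ≠ .o → v ∈ Bx K) ∧ ((n : ℤ) ≤ exC γ ∨ (n : ℤ) ≤ exR γ)
    · rw [if_pos hc, m1_wl]
      obtain ⟨l, hb, he⟩ := hc
      by_cases hy : Ny γ
      · rw [if_pos hy, Set.indicator_of_mem (show γ ∈ {γ : Cfg | HL γ} from ⟨l, hy⟩)]
        have hne := lp_ne l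
        have hcor : cor γ ∈ P := by
          obtain ⟨v, hv, e1⟩ := hL_mem hne
          obtain ⟨w, hw, e2⟩ := hB_mem hne
          have b1 := hb v (Finsupp.mem_support_iff.1 hv)
          have b2 := hb w (Finsupp.mem_support_iff.1 hw)
          simp only [Bx, Set.mem_ofPred_eq, abs_le] at b1 b2
          rw [hP, Finset.mem_product, Finset.mem_Icc, Finset.mem_Icc]
          unfold cor
          simp only
          omega
        refine le_trans ?_ (Finset.single_le_sum (f := fun a => wl γ * (if cor γ = a then G γ else 0))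
          (fun _ _ => zero_le) hcor)
        simp only [if_true]
        gcongr
        rw [hG]
        have hbig : big (n : ℝ) γ = 1 := by
          unfold big
          rw [if_pos]
          rcases he with he | he
          · left
            exact_mod_cast he
          · right
            exact_mod_cast he
        simp only [hbig, one_mul]
        have : nE γ u ≤ nE γ u ^ 2 := Nat.le_self_pow (by norm_num) _
        exact_mod_cast this
      · rw [if_neg hy, zero_mul]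
        exact zero_le
    · rw [if_neg hc]
      exact zero_le
  refine h1.trans ?_
  rw [Summable.tsum_finsetSum fun _ _ => ENNReal.summable]
  have h2 : ∀ a ∈ P, ∑' γ : {γ : Cfg // HL γ}, wl γ.1 * (if cor γ.1 = a then G γ.1 else 0) ≤
      ENNReal.ofReal (C / (n : ℝ) ^ 2) := by
    intro a _
    rw [cor_sum a G hGt, hG]
    exact h u n (by exact_mod_cast hn)
  refine (Finset.sum_le_sum h2).trans (le_of_eq ?_)
  rw [Finset.sum_const, nsmul_eq_mul, hcard, ← ENNReal.ofReal_natCast, ← ENNReal.ofReal_mul (by positivity)]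
  congr 1
  push_cast
  ring

/-! ### the outer configurations -/

/-- a block far from the box has no outer configuration in the box -/
theorem OK_off {a : Fin 4} {j s K n : ℤ} (h : (j, s) ∉ bxs K) :
    OK (Blk j s) (fun w => (∀ v, w v ≠ .o → v ∈ Hp j s a ∩ Bx K) ∧ Far j s n w) = 0 := by
  classical
  unfold OK
  refine ENNReal.tsum_eq_zero.2 fun w => if_neg ?_
  rintro ⟨o, hb, v, hv, -⟩
  obtain ⟨d, hd⟩ := Lab.ex_oc hv
  obtain ⟨p, ⟨-, hp2⟩, ho, -⟩ := o.cn (v, d) hd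
  have hw : w p.1 ≠ .o := fun e => by
    unfold E.oc at ho
    rw [e] at ho
    exact Lab.not_oc_o _ ho
  have h1 := (hb p.1 hw).2
  have h2 := blk_cases hp2
  apply h
  obtain ⟨⟨x, y⟩, d'⟩ := p
  simp only [Bx, Set.mem_ofPred_eq, abs_le] at h1
  unfold bxs
  rw [Finset.mem_product, Finset.mem_Icc, Finset.mem_Icc]
  cases d' <;> simp only [rv, nx] at h2 ⊢ <;> omega

/-- **the outer configurations of an extreme member, summed over all blocks** -/
theorem half_OK : ∃ C : ℝ, 0 ≤ C ∧ ∀ (a : Fin 4) (K n : ℕ), 2 ≤ n →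
    ∑' x : Pt, OK (Blk x.1 x.2) (fun w => (∀ v, w v ≠ .o → v ∈ Hp x.1 x.2 a ∩ Bx K) ∧ Far x.1 x.2 n w) ≤
      ENNReal.ofReal (C * (K + 4) ^ 2 / n ^ 2) := by
  classical
  obtain ⟨C0, hC0, h0⟩ := KL_all
  obtain ⟨C, hC, h⟩ := loc_mass
  obtain ⟨c, hc⟩ : ∃ c : ℝ, c = (HexObs.xc ^ 6)⁻¹ := ⟨_, rfl⟩
  have hc0 : 0 ≤ c := by rw [hc]; exact inv_nonneg.2 xc6_pos.le
  refine ⟨8 * c * (1 + c * C0) ^ 7 * (4 * (C * 16)), by positivity, fun a K n hn => ?_⟩
  have hn0 : (0 : ℝ) < n := by exact_mod_cast (by omega : 0 < n)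
  rw [tsum_eq_sum (s := bxs K) (fun x hx => OK_off hx)]
  have h4 : ∀ x : Pt, 1 + c6 * KL (Blk x.1 x.2) (fun _ => True) ≤ ENNReal.ofReal (1 + c * C0) := by
    intro x
    rw [ENNReal.ofReal_add zero_le_one (by positivity), ENNReal.ofReal_one, ENNReal.ofReal_mul hc0]
    gcongr
    · rw [c6, hc]
    · exact h0 x.1 x.2
  have h5 : ∀ x ∈ bxs K, OK (Blk x.1 x.2) (fun w => (∀ v, w v ≠ .o → v ∈ Hp x.1 x.2 a ∩ Bx K) ∧ Far x.1 x.2 n w) ≤
      8 * c6 * ENNReal.ofReal (1 + c * C0) ^ 7 *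
        KL (Blk x.1 x.2) (fun d => (∀ v, d v ≠ .o → v ∈ (Hp x.1 x.2 a ∩ Bx K) ∪ Blk x.1 x.2) ∧ Far x.1 x.2 n d) := by
    intro x _
    refine (OK_far _ (by exact_mod_cast hn)).trans ?_
    calc _ ≤ 8 * (c6 * KL (Blk x.1 x.2) fun d => (∀ v, d v ≠ .o → v ∈ (Hp x.1 x.2 a ∩ Bx K) ∪ Blk x.1 x.2) ∧
          Far x.1 x.2 n d) * ENNReal.ofReal (1 + c * C0) ^ 7 := by
          gcongr
          exact h4 x
      _ = _ := by ring
  refine (Finset.sum_le_sum h5).trans ?_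
  rw [← Finset.mul_sum]
  have h6 := half_count a K n
  have h7 : LE ((K : ℤ) + 3) ((n : ℤ) - 1) (ux a) ≤ ENNReal.ofReal (C * 16 * (K + 4) ^ 2 / n ^ 2) := by
    have h8 := h (ux a) (K + 3) (n - 1) (by omega)
    have e1 : (((K + 3 : ℕ) : ℤ)) = (K : ℤ) + 3 := by push_cast; ring
    have e2 : (((n - 1 : ℕ) : ℤ)) = (n : ℤ) - 1 := by omega
    rw [e1, e2] at h8
    refine h8.trans (ENNReal.ofReal_le_ofReal ?_)
    have h9 : (n : ℝ) / 2 ≤ ((n - 1 : ℕ) : ℝ) := by
      have h8 : n ≤ 2 * (n - 1) := by omega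
      have h9 : (n : ℝ) ≤ 2 * ((n - 1 : ℕ) : ℝ) := by exact_mod_cast h8
      linarith
    have h10 : (2 * (((K + 3 : ℕ) : ℝ)) + 1) ^ 2 ≤ 4 * (K + 4) ^ 2 := by
      push_cast
      nlinarith [(Nat.cast_nonneg K : (0 : ℝ) ≤ K)]
    calc C * (2 * (((K + 3 : ℕ) : ℝ)) + 1) ^ 2 / ((n - 1 : ℕ) : ℝ) ^ 2
        ≤ C * (4 * (K + 4) ^ 2) / ((n : ℝ) / 2) ^ 2 := by gcongr
      _ = C * 16 * (K + 4) ^ 2 / n ^ 2 := by field_simp; ring
  calc 8 * c6 * ENNReal.ofReal (1 + c * C0) ^ 7 * ∑ x ∈ bxs K, KL (Blk x.1 x.2)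
        (fun d => (∀ v, d v ≠ .o → v ∈ (Hp x.1 x.2 a ∩ Bx K) ∪ Blk x.1 x.2) ∧ Far x.1 x.2 n d)
      ≤ 8 * c6 * ENNReal.ofReal (1 + c * C0) ^ 7 * (4 * ENNReal.ofReal (C * 16 * (K + 4) ^ 2 / n ^ 2)) := by
        gcongr
        exact h6.trans (by gcongr)
    _ = ENNReal.ofReal (8 * c * (1 + c * C0) ^ 7 * (4 * (C * 16)) * (K + 4) ^ 2 / n ^ 2) := by
        have e : 8 * c * (1 + c * C0) ^ 7 * (4 * (C * 16)) * ((K : ℝ) + 4) ^ 2 / n ^ 2 =
            8 * c * (1 + c * C0) ^ 7 * (4 * (C * 16 * (K + 4) ^ 2 / n ^ 2)) := by ring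
        rw [e, ENNReal.ofReal_mul (by positivity), ENNReal.ofReal_mul (by positivity),
          ENNReal.ofReal_mul (by norm_num), ENNReal.ofReal_pow (by positivity), ENNReal.ofReal_mul (by norm_num),
          show ENNReal.ofReal 8 = 8 by norm_num, show ENNReal.ofReal 4 = 4 by norm_num, c6, hc]

end Pool.Agent.ROT.LB
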