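import Pool.Agent.ROT.LEr
import Pool.Agent.ROT.LBox
import Pool.Agent.ROT.LCount

/-!
# ROT, row L7c, assembly: the bad terms of the exact side tend to zero
-/

set_option autoImplicit false

namespace Pool.Agent.ROT.LF

open Filter Topology
open Pool.Agent.YBC (Dir)
open Pool.Agent.ROT.E (Cell IsUn Pt Cfg)
open Pool.Agent.ROT.E.Hx (exC exR nE MassU)
open Pool.Agent.ROT.L (VX FX Gr g0 gX Fam co Vb Xb Bad Bk fac wfg wt dwt jw M dM Jw Tst ht cl)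
open Pool.Agent.ROT.LB
open scoped ENNReal

variable {I : Type}

theorem nE_pos {d : Cfg} (h : E.Lp d) (u : Fin 4) : 1 ≤ nE d u := by
  have hne : d.support.Nonempty := E.Hx.lp_ne h
  have key : ∀ P : Pt → Prop, ∀ [DecidablePred P], (∃ v ∈ d.support, P v) → 1 ≤ (d.support.filter P).card := by
    intro P _ ⟨v, hv, hp⟩
    exact Finset.card_pos.2 ⟨v, Finset.mem_filter.2 ⟨hv, hp⟩⟩
  have hu : u = 0 ∨ u = 1 ∨ u = 2 ∨ u = 3 := by
    revert u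
    decide
  rcases hu with rfl | rfl | rfl | rfl
  · exact key _ (L.hL_mem hne)
  · exact key _ (L.hR_mem hne)
  · exact key _ (L.hB_mem hne)
  · exact key _ (L.hT_mem hne)

open Classical in
/-- the located mass -/
theorem LM_le (h : MassU) : ∃ C : ℝ, 0 < C ∧ ∀ (K n : ℕ), 1 ≤ n → LM K n ≤ ENNReal.ofReal ((2 * K + 1) ^ 2 * (C / (n : ℝ) ^ 2)) := by
  obtain ⟨C, hC, hb⟩ := box_le h
  refine ⟨C, hC, fun K n hn => ?_⟩
  have h1 := hb 0 K n (by exact_mod_cast hn)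
  refine le_trans (ENNReal.tsum_le_tsum fun d => ?_) h1
  by_cases h2 : E.Lp d ∧ (∀ v, d v ≠ .o → v ∈ Bx K) ∧ Ex n d
  · rw [if_pos h2]
    obtain ⟨hl, hb, v, v', h3, h4, h5⟩ := h2
    have h6 : (n : ℤ) ≤ exC d := by
      have e1 := L.hL_le (Finsupp.mem_support_iff.2 h3)
      have e2 := L.le_hR (Finsupp.mem_support_iff.2 h4)
      unfold exC
      omega
    rw [if_pos ⟨hl, hb, Or.inl (by exact_mod_cast h6)⟩]
    have h7 : (1 : ℝ≥0∞) ≤ (nE d 0 : ℝ≥0∞) ^ 2 := by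
      have : (1 : ℝ≥0∞) ≤ (nE d 0 : ℝ≥0∞) := by exact_mod_cast nE_pos hl 0
      exact one_le_pow₀ this
    exact le_mul_of_one_le_right' h7
  · rw [if_neg h2]
    exact zero_le

/-- **the position sum** (31's half plane count) -/
theorem pos_sum : ∃ D : ℝ, 0 ≤ D ∧ ∀ (a : Fin 4) (K n : ℕ) (S : Finset (ℤ × ℤ)), 2 ≤ n →
    ∑ x ∈ S, OK (Blk x.1 x.2) (fun w => (∀ v, w v ≠ .o → v ∈ Hp x.1 x.2 a ∩ Bx K) ∧ Far x.1 x.2 n w) ≤
      ENNReal.ofReal D * ENNReal.ofReal (((K : ℝ) + 4) ^ 2 / (n : ℝ) ^ 2) := by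
  obtain ⟨D, hD, h⟩ := half_OK
  refine ⟨D, hD, fun a K n S hn => (ENNReal.sum_le_tsum (f := fun x : Pt => OK (Blk x.1 x.2) (fun w =>
    (∀ v, w v ≠ .o → v ∈ Hp x.1 x.2 a ∩ Bx K) ∧ Far x.1 x.2 n w)) S).trans ((h a K n hn).trans (le_of_eq ?_))⟩
  rw [← ENNReal.ofReal_mul hD]
  congr 1
  ring

theorem Bx_mono {K K' : ℤ} (h : K ≤ K') : Bx K ⊆ Bx K' := fun _ hv => ⟨hv.1.trans h, hv.2.trans h⟩

theorem er_nn [Fintype I] (t : Tst I) (j s : ℤ) : 0 ≤ t.er j s := by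
  classical
  unfold Tst.er
  refine add_nonneg (tsum_nonneg fun γ => ?_) (tsum_nonneg fun γ => ?_)
  · split_ifs with h
    · obtain ⟨hf, -, -⟩ := h
      have : 0 ≤ M γ := by
        unfold M
        refine Finset.prod_nonneg fun v _ => ?_
        cases v with
        | none => exact zero_le_one
        | some p =>
          obtain ⟨c, hc⟩ := hf.dj (some p)
          show 0 ≤ wfg wt (γ (some p))
          rw [wfg_un hc]
          exact wt_nn c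
      positivity
    · exact le_refl _
  · split_ifs
    · exact abs_nonneg _
    · exact le_refl _

/-- **the sum over the blocks** -/
theorem sum_er [Fintype I] (K : ℕ) (δ : ℝ) (hδ : 0 < δ) : ∃ D : ℝ, 0 ≤ D ∧ ∀ᶠ N : ℕ in atTop,
    ∀ t : Tst I, (t.K : ℝ) ≤ K * N → (∀ h, t.Dm h → ∀ i, δ * N ≤ ((h i 1 - h i 0 : ℤ) : ℝ)) →
    ∑ j ∈ Finset.Icc (-(t.K + 2)) (t.K + 2), ∑ s ∈ Finset.Icc (-(t.K + 2)) (t.K + 2), t.er j s ≤
      D * ((⌊δ * N / 2⌋₊ : ℕ) : ℝ) ^ (-(2 / 3) : ℝ) := by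
  classical
  obtain ⟨CN, hCN, hNI⟩ := NI_le I
  obtain ⟨C1, hC1, hOK⟩ := OK_small
  obtain ⟨C2, hC2, hLM⟩ := LM_le massU'
  obtain ⟨D3, hD3, hpos⟩ := pos_sum
  obtain ⟨q1, hq1⟩ : ∃ q : ℝ, q = (2 * K + 1) * (2 / δ) := ⟨_, rfl⟩
  obtain ⟨q2, hq2⟩ : ∃ q : ℝ, q = (K + 4) * (4 / δ) := ⟨_, rfl⟩
  have hK0 : (0 : ℝ) ≤ K := Nat.cast_nonneg K
  have hq10 : 0 ≤ q1 := by rw [hq1]; positivity
  have hq20 : 0 ≤ q2 := by rw [hq2]; positivity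
  obtain ⟨Rc, hRc⟩ : ∃ R : ℝ≥0∞, R = 1 + ENNReal.ofReal C1 + ENNReal.ofReal (q1 ^ 2 * C2) := ⟨_, rfl⟩
  have hRct : Rc ≠ ⊤ := by rw [hRc]; finiteness
  obtain ⟨DD, hDD⟩ : ∃ D : ℝ≥0∞, D = 2 * ((Fintype.card I : ℝ≥0∞) ^ 2 * CN * cA * Rc ^ Fintype.card I) *
      (4 * (ENNReal.ofReal D3 * ENNReal.ofReal (q2 ^ 2))) := ⟨_, rfl⟩
  have hDDt : DD ≠ ⊤ := by
    rw [hDD]
    have h1 := cA_ne
    finiteness
  refine ⟨DD.toReal * C1, by positivity, ?_⟩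
  filter_upwards [eventually_ge_atTop (max 1 ⌈16 / δ⌉₊)] with N hN t htK hDm
  have hN1 : (1 : ℝ) ≤ N := by exact_mod_cast (le_max_left _ _).trans hN
  have hN2 : 16 / δ ≤ N := (Nat.le_ceil _).trans (by exact_mod_cast (le_max_right _ _).trans hN)
  rw [div_le_iff₀ hδ] at hN2
  obtain ⟨m, hm⟩ : ∃ m : ℕ, m = ⌊δ * N / 2⌋₊ := ⟨_, rfl⟩
  rw [← hm]
  have hm1 : (m : ℝ) ≤ δ * N / 2 := by rw [hm]; exact Nat.floor_le (by positivity)
  have hm2 : δ * N / 2 < m + 1 := by rw [hm]; exact Nat.lt_floor_add_one _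
  have hm3 : δ * N / 4 ≤ m := by nlinarith
  have hm4 : (4 : ℝ) ≤ m := by nlinarith
  have hm5 : 4 ≤ m := by exact_mod_cast hm4
  have hm0 : (0 : ℝ) < m := by linarith
  have hNp : (0 : ℝ) < N := by linarith
  have hp : (m : ℝ) ^ (-(2 / 3) : ℝ) ≤ 1 := Real.rpow_le_one_of_one_le_of_nonpos (by linarith) (by norm_num)
  have hp0 : (0 : ℝ) ≤ (m : ℝ) ^ (-(2 / 3) : ℝ) := Real.rpow_nonneg hm0.le _
  have hKN : t.K ≤ ((K * N : ℕ) : ℤ) := by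
    have : (t.K : ℝ) ≤ ((K * N : ℕ) : ℝ) := by push_cast; exact htK
    exact_mod_cast this
  have hBx : Bx t.K ⊆ Bx ((K * N : ℕ) : ℤ) := Bx_mono hKN
  -- the located mass
  have hL : LM t.K ((2 * m : ℕ) : ℤ) ≤ ENNReal.ofReal (q1 ^ 2 * C2) := by
    refine le_trans (ENNReal.tsum_le_tsum fun d => ?_) ((hLM (K * N) (2 * m) (by omega)).trans (ENNReal.ofReal_le_ofReal ?_))
    · by_cases h2 : E.Lp d ∧ (∀ v, d v ≠ .o → v ∈ Bx t.K) ∧ Ex ((2 * m : ℕ) : ℤ) d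
      · rw [if_pos h2, if_pos ⟨h2.1, fun v hv => hBx (h2.2.1 v hv), h2.2.2⟩]
      · rw [if_neg h2]
        exact zero_le
    · have e1 : (2 * ((K * N : ℕ) : ℝ) + 1) / ((2 * m : ℕ) : ℝ) ≤ q1 := by
        rw [hq1, div_le_iff₀ (by push_cast; linarith)]
        push_cast
        have e2 : (2 * (K : ℝ) + 1) * (2 / δ) * (2 * m) = (2 * K + 1) * (4 * m / δ) := by ring
        have e3 : (N : ℝ) ≤ 4 * m / δ := by
          rw [le_div_iff₀ hδ]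
          linarith
        rw [e2]
        calc 2 * ((K : ℝ) * N) + 1 ≤ (2 * K + 1) * N := by nlinarith
          _ ≤ _ := by gcongr
      have e2 : (2 * ((K * N : ℕ) : ℝ) + 1) ^ 2 * (C2 / ((2 * m : ℕ) : ℝ) ^ 2) =
          ((2 * ((K * N : ℕ) : ℝ) + 1) / ((2 * m : ℕ) : ℝ)) ^ 2 * C2 := by
        rw [div_pow]
        ring
      rw [e2]
      gcongr
  have hR : ∀ j s : ℤ, RR j s t.K ((2 * m : ℕ) : ℤ) m ≤ Rc := by
    intro j s
    unfold RR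
    rw [hRc]
    gcongr
    refine (hOK j s m (by omega)).trans (ENNReal.ofReal_le_ofReal ?_)
    nlinarith
  -- the sum over the blocks
  obtain ⟨S, hS⟩ : ∃ S : Finset (ℤ × ℤ), S = Finset.Icc (-(t.K + 2)) (t.K + 2) ×ˢ Finset.Icc (-(t.K + 2)) (t.K + 2) := ⟨_, rfl⟩
  have e0 : ∑ j ∈ Finset.Icc (-(t.K + 2)) (t.K + 2), ∑ s ∈ Finset.Icc (-(t.K + 2)) (t.K + 2), t.er j s =
      ∑ x ∈ S, t.er x.1 x.2 := by
    rw [hS, Finset.sum_product]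
  rw [e0]
  have h1 : ∀ x ∈ S, ENNReal.ofReal (t.er x.1 x.2) ≤
      2 * ((Fintype.card I : ℝ≥0∞) ^ 2 * CN * cA * Rc ^ Fintype.card I) * ENNReal.ofReal (C1 * (m : ℝ) ^ (-(2 / 3) : ℝ)) *
        ∑ a : Fin 4, OK (Blk x.1 x.2) (fun w => (∀ v, w v ≠ .o → v ∈ Hp x.1 x.2 a ∩ Bx ((K * N : ℕ) : ℤ)) ∧ Far x.1 x.2 m w) := by
    intro x _
    have h2 := er_le t x.1 x.2 (n := ((2 * m : ℕ) : ℤ)) (n' := m) (by exact_mod_cast (by omega : 2 ≤ m)) (by push_cast; omega)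
      (by
        intro h hh i
        have := hDm h hh i
        have h3 : ((2 * m : ℕ) : ℝ) ≤ ((h i 1 - h i 0 : ℤ) : ℝ) := by push_cast at this ⊢; linarith
        exact_mod_cast h3)
    refine h2.trans ?_
    calc 2 * ((Fintype.card I : ℝ≥0∞) ^ 2 * NI I x.1 x.2 * cA * RR x.1 x.2 t.K ((2 * m : ℕ) : ℤ) m ^ Fintype.card I *
          OK (Blk x.1 x.2) (Far x.1 x.2 m) *
          ∑ a : Fin 4, OK (Blk x.1 x.2) (fun w => (∀ v, w v ≠ .o → v ∈ Hp x.1 x.2 a ∩ Bx t.K) ∧ Far x.1 x.2 m w)) ≤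
        2 * ((Fintype.card I : ℝ≥0∞) ^ 2 * CN * cA * Rc ^ Fintype.card I *
          ENNReal.ofReal (C1 * (m : ℝ) ^ (-(2 / 3) : ℝ)) *
          ∑ a : Fin 4, OK (Blk x.1 x.2) (fun w => (∀ v, w v ≠ .o → v ∈ Hp x.1 x.2 a ∩ Bx ((K * N : ℕ) : ℤ)) ∧
            Far x.1 x.2 m w)) := by
          gcongr
          · exact hNI _ _
          · exact hR _ _
          · exact hOK _ _ m (by omega)
          · exact OK_mono fun w _ hw => ⟨fun v hv => ⟨(hw.1 v hv).1, hBx (hw.1 v hv).2⟩, hw.2⟩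
      _ = _ := by ring
  have h2 : ∑ x ∈ S, ENNReal.ofReal (t.er x.1 x.2) ≤ DD * ENNReal.ofReal (C1 * (m : ℝ) ^ (-(2 / 3) : ℝ)) := by
    refine (Finset.sum_le_sum h1).trans ?_
    rw [← Finset.mul_sum, Finset.sum_comm]
    have h3 : ∀ a : Fin 4, ∑ x ∈ S, OK (Blk x.1 x.2) (fun w => (∀ v, w v ≠ .o → v ∈ Hp x.1 x.2 a ∩ Bx ((K * N : ℕ) : ℤ)) ∧
        Far x.1 x.2 m w) ≤ ENNReal.ofReal D3 * ENNReal.ofReal (q2 ^ 2) := by
      intro a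
      refine (hpos a (K * N) m S (by omega)).trans ?_
      gcongr
      have e1 : (((K * N : ℕ) : ℝ) + 4) / (m : ℝ) ≤ q2 := by
        rw [hq2, div_le_iff₀ hm0]
        push_cast
        have e3 : (N : ℝ) ≤ 4 / δ * m := by
          rw [div_mul_eq_mul_div, le_div_iff₀ hδ]
          linarith
        calc (K : ℝ) * N + 4 ≤ (K + 4) * N := by nlinarith
          _ ≤ (K + 4) * (4 / δ * m) := by gcongr
          _ = _ := by ring
      have e2 : (((K * N : ℕ) : ℝ) + 4) ^ 2 / (m : ℝ) ^ 2 = ((((K * N : ℕ) : ℝ) + 4) / (m : ℝ)) ^ 2 := by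
        rw [div_pow]
      rw [e2]
      have e4 : (0 : ℝ) ≤ (((K * N : ℕ) : ℝ) + 4) / (m : ℝ) := div_nonneg (by positivity) hm0.le
      gcongr
    calc 2 * ((Fintype.card I : ℝ≥0∞) ^ 2 * CN * cA * Rc ^ Fintype.card I) * ENNReal.ofReal (C1 * (m : ℝ) ^ (-(2 / 3) : ℝ)) *
          ∑ a : Fin 4, ∑ x ∈ S, OK (Blk x.1 x.2) (fun w => (∀ v, w v ≠ .o → v ∈ Hp x.1 x.2 a ∩ Bx ((K * N : ℕ) : ℤ)) ∧
            Far x.1 x.2 m w) ≤
        2 * ((Fintype.card I : ℝ≥0∞) ^ 2 * CN * cA * Rc ^ Fintype.card I) * ENNReal.ofReal (C1 * (m : ℝ) ^ (-(2 / 3) : ℝ)) *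
          ∑ _a : Fin 4, ENNReal.ofReal D3 * ENNReal.ofReal (q2 ^ 2) := by
          gcongr with a
          exact h3 a
      _ = _ := by
          rw [Finset.sum_const, Finset.card_univ, Fintype.card_fin, nsmul_eq_mul, hDD]
          push_cast
          ring
  rw [← ENNReal.ofReal_sum_of_nonneg fun x _ => er_nn t x.1 x.2] at h2
  have h3 : DD * ENNReal.ofReal (C1 * (m : ℝ) ^ (-(2 / 3) : ℝ)) = ENNReal.ofReal (DD.toReal * C1 * (m : ℝ) ^ (-(2 / 3) : ℝ)) := by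
    rw [mul_assoc, ENNReal.ofReal_mul ENNReal.toReal_nonneg, ENNReal.ofReal_toReal hDDt]
  rw [h3, ENNReal.ofReal_le_ofReal_iff (by positivity)] at h2
  exact h2

/-- **ER**: the bad terms of the exact side are small -/
theorem ER [Fintype I] (K : ℕ) (δ ε : ℝ) (hδ : 0 < δ) (hε : 0 < ε) : ∀ᶠ N : ℕ in atTop,
    ∀ t : Tst I, (t.K : ℝ) ≤ K * N → (∀ h, t.Dm h → ∀ i, δ * N ≤ ((h i 1 - h i 0 : ℤ) : ℝ)) →
    ∑ j ∈ Finset.Icc (-(t.K + 2)) (t.K + 2), ∑ s ∈ Finset.Icc (-(t.K + 2)) (t.K + 2), |(j : ℝ)| * t.er j s ≤ ε * N := by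
  obtain ⟨D, hD, hs⟩ := sum_er (I := I) K δ hδ
  have hlim : Tendsto (fun N : ℕ => ((K : ℝ) + 2) * (D * ((⌊δ * N / 2⌋₊ : ℕ) : ℝ) ^ (-(2 / 3) : ℝ))) atTop (𝓝 0) := by
    have h1 : Tendsto (fun N : ℕ => ((⌊δ * N / 2⌋₊ : ℕ) : ℝ)) atTop atTop := by
      have h2 : Tendsto (fun N : ℕ => δ * (N : ℝ) / 2) atTop atTop := by
        have h3 : Tendsto (fun N : ℕ => (δ / 2) * (N : ℝ)) atTop atTop :=
          tendsto_natCast_atTop_atTop.const_mul_atTop (by positivity)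
        refine h3.congr fun N => by ring
      exact tendsto_natCast_atTop_atTop.comp (tendsto_nat_floor_atTop.comp h2)
    have h2 := (tendsto_rpow_neg_atTop (show (0 : ℝ) < 2 / 3 by norm_num)).comp h1
    have h3 := (h2.const_mul D).const_mul ((K : ℝ) + 2)
    simp only [mul_zero] at h3
    exact h3
  filter_upwards [hs, hlim.eventually_le_const hε, eventually_ge_atTop 1] with N hN hN2 hN1 t htK hDm
  have h1 := hN t htK hDm
  have hN1' : (1 : ℝ) ≤ N := by exact_mod_cast hN1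
  have hK0 : (0 : ℝ) ≤ K := Nat.cast_nonneg K
  have e1 : ∑ j ∈ Finset.Icc (-(t.K + 2)) (t.K + 2), ∑ s ∈ Finset.Icc (-(t.K + 2)) (t.K + 2), |(j : ℝ)| * t.er j s ≤
      ((K : ℝ) * N + 2) * ∑ j ∈ Finset.Icc (-(t.K + 2)) (t.K + 2), ∑ s ∈ Finset.Icc (-(t.K + 2)) (t.K + 2), t.er j s := by
    rw [Finset.mul_sum]
    refine Finset.sum_le_sum fun j hj => ?_
    rw [Finset.mul_sum]
    refine Finset.sum_le_sum fun s _ => ?_
    refine mul_le_mul_of_nonneg_right ?_ (er_nn t j s)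
    rw [Finset.mem_Icc] at hj
    have h2 : |j| ≤ t.K + 2 := abs_le.2 ⟨by omega, by omega⟩
    have h3 : |(j : ℝ)| ≤ (t.K : ℝ) + 2 := by exact_mod_cast h2
    linarith
  refine e1.trans ?_
  have h2 : (K : ℝ) * N + 2 ≤ (K + 2) * N := by nlinarith
  have h3 : 0 ≤ D * ((⌊δ * N / 2⌋₊ : ℕ) : ℝ) ^ (-(2 / 3) : ℝ) := mul_nonneg hD (Real.rpow_nonneg (Nat.cast_nonneg _) _)
  calc ((K : ℝ) * N + 2) * ∑ j ∈ Finset.Icc (-(t.K + 2)) (t.K + 2), ∑ s ∈ Finset.Icc (-(t.K + 2)) (t.K + 2), t.er j s ≤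
      ((K + 2) * N) * (D * ((⌊δ * N / 2⌋₊ : ℕ) : ℝ) ^ (-(2 / 3) : ℝ)) := by
        refine mul_le_mul h2 h1 ?_ (by positivity)
        exact Finset.sum_nonneg fun j _ => Finset.sum_nonneg fun s _ => er_nn t j s
    _ = ((K + 2) * (D * ((⌊δ * N / 2⌋₊ : ℕ) : ℝ) ^ (-(2 / 3) : ℝ))) * N := by ring
    _ ≤ ε * N := by gcongr

end Pool.Agent.ROT.LF
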