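import Pool.Agent.ROT.A7X
import Pool.Agent.ROT.LErA

/-!
# ROT, row A7Y: the discrete exact side for the honeycomb polygons, no hypothesis
-/

set_option autoImplicit false

namespace Pool.Agent.ROT.A6

/-- **the discrete exact side of linear response for the honeycomb polygons** -/
theorem hexP_EXd : hexP.EXd := hex_EXd fun _ _ => LF.ER

end Pool.Agent.ROT.A6
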