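import Pool.Agent.ROT.ADefs

/-!
# ROT, row A9: bounds of the constants `a N`, `b N` of LR3 (helper97)

`a_low`: `q / 2 ≤ a N` for large `N` if `Qf ≥ q > 0`; `b_bdd`: `|b N| ≤ k + 1` if `Cf ≤ k`; `a_up`: an upper bound
of `a N` from an upper bound of the first moment of `Qf` (`Q_sum`: from the moment with a root).
-/

set_option autoImplicit false

open Finset Filter Topology

namespace Pool.Agent.ROT.A.PSys

variable {S : PSys}

/-! ### the test function -/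

/-- the good heights: both extents in `[r, s]`, everything in `[-(s + 1), s + 1]` -/
def Gd (r s : ℝ) : Set (Fin 4 → ℝ) :=
  {h | (r ≤ h 1 - h 0 ∧ h 1 - h 0 ≤ s) ∧ (r ≤ h 3 - h 2 ∧ h 3 - h 2 ≤ s) ∧ ∀ u, |h u| ≤ s + 1}

/-- the test function: `1` on the good heights, `0` at distance `≥ r / 4` -/
noncomputable def tf (r s : ℝ) (h : Fin 4 → ℝ) : ℝ := max (1 - Metric.infDist h (Gd r s) * (4 / r)) 0

theorem Gd_ne {r s : ℝ} (hr : 0 < r) (hs : r < s) : (Gd r s).Nonempty := by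
  refine ⟨![0, r, 0, r], ?_, ?_, fun u => ?_⟩
  · simp [hs.le]
  · simp [hs.le]
  · fin_cases u <;> simp [abs_of_pos hr] <;> linarith

theorem tf_nn (r s : ℝ) (h : Fin 4 → ℝ) : 0 ≤ tf r s h := le_max_right _ _

theorem tf_le {r : ℝ} (hr : 0 < r) (s : ℝ) (h : Fin 4 → ℝ) : tf r s h ≤ 1 := by
  unfold tf
  refine max_le ?_ zero_le_one
  have : 0 ≤ Metric.infDist h (Gd r s) * (4 / r) := mul_nonneg Metric.infDist_nonneg (by positivity)
  linarith

theorem tf_one {r s : ℝ} {h : Fin 4 → ℝ} (hh : h ∈ Gd r s) : tf r s h = 1 := by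
  unfold tf
  rw [Metric.infDist_zero_of_mem hh]
  simp

theorem tf_sup {r s : ℝ} (hr : 0 < r) (hs : r < s) {h : Fin 4 → ℝ} (hh : tf r s h ≠ 0) :
    (∀ u, |h u| ≤ s + 1 + r) ∧ r / 2 ≤ h 1 - h 0 ∧ r / 2 ≤ h 3 - h 2 := by
  have h1 : Metric.infDist h (Gd r s) < r / 4 := by
    by_contra hc
    push Not at hc
    apply hh
    unfold tf
    rw [max_eq_right]
    have h3 : r / 4 * (4 / r) ≤ Metric.infDist h (Gd r s) * (4 / r) :=
      mul_le_mul_of_nonneg_right hc (by positivity)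
    have h4 : r / 4 * (4 / r) = 1 := by field_simp
    linarith
  obtain ⟨y, hy, hd⟩ := (Metric.infDist_lt_iff (Gd_ne hr hs)).1 h1
  have h2 : ∀ u, |h u - y u| < r / 4 := by
    intro u
    rw [← Real.dist_eq]
    exact (dist_le_pi_dist h y u).trans_lt hd
  obtain ⟨⟨a1, a2⟩, ⟨a3, a4⟩, a5⟩ := hy
  have c0 := abs_lt.1 (h2 0)
  have c1 := abs_lt.1 (h2 1)
  have c2 := abs_lt.1 (h2 2)
  have c3 := abs_lt.1 (h2 3)
  refine ⟨fun u => ?_, by linarith [c0.1, c1.2], by linarith [c2.1, c3.2]⟩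
  have c4 := h2 u
  have c5 := a5 u
  calc |h u| = |(h u - y u) + y u| := by rw [sub_add_cancel]
    _ ≤ |h u - y u| + |y u| := abs_add_le _ _
    _ ≤ s + 1 + r := by linarith

theorem tf_lip {r : ℝ} (hr : 0 < r) (s : ℝ) (h h' : Fin 4 → ℝ) : |tf r s h - tf r s h'| ≤ 4 / r * dist h h' := by
  unfold tf
  refine (abs_max_sub_max_le_abs _ _ _).trans ?_
  have h1 : (1 - Metric.infDist h (Gd r s) * (4 / r)) - (1 - Metric.infDist h' (Gd r s) * (4 / r)) =
      (Metric.infDist h' (Gd r s) - Metric.infDist h (Gd r s)) * (4 / r) := by ring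
  have h4 : (0 : ℝ) < 4 / r := by positivity
  rw [h1, abs_mul, abs_of_pos h4, mul_comm]
  refine mul_le_mul_of_nonneg_left ?_ h4.le
  rw [abs_le]
  have e1 := Metric.infDist_le_infDist_add_dist (x := h) (y := h') (s := Gd r s)
  have e2 := Metric.infDist_le_infDist_add_dist (x := h') (y := h) (s := Gd r s)
  rw [dist_comm h' h] at e2
  constructor <;> linarith

/-- the test function of the families of one polygon -/
noncomputable def tg (r s : ℝ) (x : (Unit → Fin 4 → ℝ) × ℝ) : ℝ := tf r s (x.1 ())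

theorem tg_lip {r : ℝ} (hr : 0 < r) (s : ℝ) : ∃ Λ : NNReal, LipschitzWith Λ (tg r s) ∧ ∀ x, |tg r s x| ≤ Λ := by
  refine ⟨⟨4 / r + 1, by positivity⟩, ?_, ?_⟩
  · refine LipschitzWith.of_dist_le_mul fun x y => ?_
    rw [Real.dist_eq]
    refine (tf_lip hr s _ _).trans ?_
    have h1 : dist (x.1 ()) (y.1 ()) ≤ dist x y :=
      (dist_le_pi_dist x.1 y.1 ()).trans (le_max_left _ _)
    have h2 : (0 : ℝ) < 4 / r := by positivity
    show 4 / r * dist (x.1 ()) (y.1 ()) ≤ (4 / r + 1) * dist x y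
    nlinarith [mul_le_mul_of_nonneg_left h1 h2.le, dist_nonneg (x := x) (y := y)]
  · intro x
    show |tf r s (x.1 ())| ≤ 4 / r + 1
    rw [abs_of_nonneg (tf_nn r s _)]
    have h2 : (0 : ℝ) < 4 / r := by positivity
    linarith [tf_le hr s (x.1 ())]

theorem tg_sup {r s : ℝ} (hr : 0 < r) (hs : r < s) {K : ℝ} (hK : s + 1 + r ≤ K) {h : Unit → Fin 4 → ℝ} {e : ℝ}
    (hh : tg r s (h, e) ≠ 0) : Sup K (r / 2) h := by
  obtain ⟨h1, h2⟩ := tf_sup hr hs (h := h ()) hh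
  exact ⟨fun i u => (h1 u).trans hK, fun i => h2⟩

/-! ### the mass -/

theorem fsum_unit (n : ℕ) (τ : Unit → Unit → Bool) (Θ : (Unit → S.P) → ℝ) :
    S.fsum n τ Θ = ∑ p ∈ S.box n, S.M p * Θ fun _ => p := by
  unfold fsum
  refine Finset.sum_bij' (fun γ _ => γ ()) (fun p _ => fun _ => p) ?_ ?_ ?_ ?_ ?_
  · intro γ hγ
    exact (Fintype.mem_piFinset.1 hγ) ()
  · intro p hp
    exact Fintype.mem_piFinset.2 fun _ => hp
  · intro γ _
    rfl
  · intro p _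
    rfl
  · intro γ _
    have h1 : S.Pt τ γ := ⟨fun i k hik => absurd (Subsingleton.elim i k) hik,
      fun i k hik => absurd (Subsingleton.elim i k) hik⟩
    rw [if_pos h1]
    simp

/-- the mass of the test function -/
theorem tf_low (hM : S.Mass) : ∃ (r s c : ℝ) (K : ℕ), 0 < r ∧ r < s ∧ 0 < c ∧ s + 1 + r ≤ K ∧ ∀ᶠ N : ℕ in atTop,
    c ≤ ∑ p ∈ S.box (K * N), S.M p * tf r s (S.hN N p) := by
  classical
  obtain ⟨⟨r, s, c, hr, hs, hc, N0, hN0⟩, -⟩ := hM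
  refine ⟨r, s, c, ⌈s + 1 + r⌉₊, hr, hs, hc, Nat.le_ceil _, ?_⟩
  set K := ⌈s + 1 + r⌉₊ with hK
  have hKs : s + 1 + r ≤ K := Nat.le_ceil _
  filter_upwards [eventually_ge_atTop ⌈N0⌉₊, eventually_ge_atTop 1] with N hN hN1
  have hN1' : (1 : ℝ) ≤ N := by exact_mod_cast hN1
  have hN0' : N0 ≤ (N : ℝ) := Nat.ceil_le.1 hN
  have h1 := hN0 N hN0' ⌈s * N⌉₊ (Nat.le_ceil _)
  set n := ⌈s * (N : ℝ)⌉₊ with hn
  set D := (S.box n).filter fun p => S.co p = 0 ∧ S.Win r s N p with hD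
  have e1 : S.mass r s N n = ∑ p ∈ D, S.M p := by
    unfold mass
    rw [hD, Finset.sum_filter]
  set Z : Finset Z2 := Finset.Icc (0 : ℤ) N ×ˢ Finset.Icc (0 : ℤ) N with hZ
  have e2 : ∑ x ∈ Z ×ˢ D, S.M x.2 = (N + 1 : ℝ) ^ 2 * S.mass r s N n := by
    rw [Finset.sum_product, e1]
    simp only [Finset.sum_const, nsmul_eq_mul]
    rw [hZ, Finset.card_product]
    simp only [Int.card_Icc]
    have : ((N : ℤ) + 1 - 0).toNat = N + 1 := by omega
    rw [this]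
    push_cast
    ring
  have hmass : 0 ≤ S.mass r s N n := by
    rw [e1]
    exact Finset.sum_nonneg fun p _ => S.M_nn p
  have e3 : c ≤ ∑ x ∈ Z ×ˢ D, S.M x.2 := by
    rw [e2]
    refine h1.trans ?_
    refine mul_le_mul_of_nonneg_right ?_ hmass
    nlinarith
  refine e3.trans ?_
  -- the translates
  have hmem : ∀ x ∈ Z ×ˢ D, S.tr x.1 x.2 ∈ S.box (K * N) ∧ S.hN N (S.tr x.1 x.2) ∈ Gd r s := by
    rintro ⟨z, p⟩ hx
    obtain ⟨hz, hp⟩ := Finset.mem_product.1 hx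
    rw [hZ, Finset.mem_product, Finset.mem_Icc, Finset.mem_Icc] at hz
    obtain ⟨⟨z1, z2⟩, z3, z4⟩ := hz
    rw [hD, Finset.mem_filter] at hp
    obtain ⟨-, hco, ⟨w1, w2⟩, w3, w4⟩ := hp
    have c0 : S.ht p 0 = 0 := congrArg Prod.fst hco
    have c2 : S.ht p 2 = 0 := congrArg Prod.snd hco
    obtain ⟨t0, t1, t2, t3⟩ := S.tr_ht z p
    dsimp only at z1 z2 z3 z4 ⊢
    have y1 : (0 : ℝ) ≤ z.1 := by exact_mod_cast z1
    have y2 : (z.1 : ℝ) ≤ N := by exact_mod_cast z2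
    have y3 : (0 : ℝ) ≤ z.2 := by exact_mod_cast z3
    have y4 : (z.2 : ℝ) ≤ N := by exact_mod_cast z4
    have rs : 0 < r * N := by positivity
    rw [c0] at w1 w2
    rw [c2] at w3 w4
    simp only [Int.cast_zero, sub_zero] at w1 w2 w3 w4
    have hb : ∀ u, |(S.ht (S.tr z p) u : ℝ)| ≤ (s + 1) * N := by
      intro u
      fin_cases u
      · show |(S.ht (S.tr z p) 0 : ℝ)| ≤ _
        rw [t0, c0, zero_add, abs_of_nonneg y1]
        nlinarith
      · show |(S.ht (S.tr z p) 1 : ℝ)| ≤ _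
        rw [t1]
        push_cast
        rw [abs_of_nonneg (by linarith)]
        nlinarith
      · show |(S.ht (S.tr z p) 2 : ℝ)| ≤ _
        rw [t2, c2, zero_add, abs_of_nonneg y3]
        nlinarith
      · show |(S.ht (S.tr z p) 3 : ℝ)| ≤ _
        rw [t3]
        push_cast
        rw [abs_of_nonneg (by linarith)]
        nlinarith
    have hNp : (0 : ℝ) < N := by linarith
    refine ⟨(S.mem_box _ _).2 fun u => ?_, ⟨?_, ?_⟩, ⟨?_, ?_⟩, fun u => ?_⟩
    · have h5 : (|S.ht (S.tr z p) u| : ℝ) ≤ ((K * N : ℕ) : ℝ) := by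
        refine (hb u).trans ?_
        push_cast
        nlinarith
      exact_mod_cast h5
    · show r ≤ (S.ht (S.tr z p) 1 : ℝ) / N - (S.ht (S.tr z p) 0 : ℝ) / N
      rw [← sub_div, le_div_iff₀ hNp, t0, t1, c0]
      push_cast
      linarith
    · show (S.ht (S.tr z p) 1 : ℝ) / N - (S.ht (S.tr z p) 0 : ℝ) / N ≤ s
      rw [← sub_div, div_le_iff₀ hNp, t0, t1, c0]
      push_cast
      linarith
    · show r ≤ (S.ht (S.tr z p) 3 : ℝ) / N - (S.ht (S.tr z p) 2 : ℝ) / N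
      rw [← sub_div, le_div_iff₀ hNp, t2, t3, c2]
      push_cast
      linarith
    · show (S.ht (S.tr z p) 3 : ℝ) / N - (S.ht (S.tr z p) 2 : ℝ) / N ≤ s
      rw [← sub_div, div_le_iff₀ hNp, t2, t3, c2]
      push_cast
      linarith
    · show |(S.ht (S.tr z p) u : ℝ) / N| ≤ s + 1
      rw [abs_div, abs_of_pos hNp, div_le_iff₀ hNp]
      exact hb u
  have hinj : Set.InjOn (fun x : Z2 × S.P => S.tr x.1 x.2) (Z ×ˢ D : Finset (Z2 × S.P)) := by
    rintro ⟨z, p⟩ hx ⟨z', p'⟩ hx' he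
    have hp := (Finset.mem_product.1 (Finset.mem_coe.1 hx)).2
    have hp' := (Finset.mem_product.1 (Finset.mem_coe.1 hx')).2
    rw [hD, Finset.mem_filter] at hp hp'
    have c0 : S.ht p 0 = 0 := congrArg Prod.fst hp.2.1
    have c2 : S.ht p 2 = 0 := congrArg Prod.snd hp.2.1
    have d0 : S.ht p' 0 = 0 := congrArg Prod.fst hp'.2.1
    have d2 : S.ht p' 2 = 0 := congrArg Prod.snd hp'.2.1
    have he' : S.tr z p = S.tr z' p' := he
    obtain ⟨t0, t1, t2, t3⟩ := S.tr_ht z p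
    obtain ⟨t0', t1', t2', t3'⟩ := S.tr_ht z' p'
    rw [he'] at t0 t2
    have hz : z = z' := Prod.ext (by omega) (by omega)
    subst hz
    rw [(S.tr z).injective he']
  calc ∑ x ∈ Z ×ˢ D, S.M x.2
      ≤ ∑ x ∈ Z ×ˢ D, S.M (S.tr x.1 x.2) * tf r s (S.hN N (S.tr x.1 x.2)) := by
        refine Finset.sum_le_sum fun x hx => ?_
        rw [tf_one (hmem x hx).2, mul_one, S.tr_M]
    _ = ∑ p ∈ (Z ×ˢ D).image (fun x : Z2 × S.P => S.tr x.1 x.2), S.M p * tf r s (S.hN N p) := by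
        rw [Finset.sum_image hinj]
    _ ≤ ∑ p ∈ S.box (K * N), S.M p * tf r s (S.hN N p) := by
        refine Finset.sum_le_sum_of_subset_of_nonneg ?_ fun p _ _ => mul_nonneg (S.M_nn p) (tf_nn _ _ _)
        intro p hp
        obtain ⟨x, hx, rfl⟩ := Finset.mem_image.1 hp
        exact (hmem x hx).1

/-- LR3 for one polygon and the test function -/
theorem lr_tf {a b : ℕ → ℝ} (hL : S.LR3F a b) {r s : ℝ} (hr : 0 < r) (hs : r < s) {K : ℕ} (hK : s + 1 + r ≤ K)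
    (u : Fin 4) :
    Tendsto (fun N : ℕ => ∑ p ∈ S.box (K * N), S.M p * ((S.Qf p u - a N) * tf r s (S.hN N p))) atTop (𝓝 0) ∧
    Tendsto (fun N : ℕ => ∑ p ∈ S.box (K * N), S.M p * ((S.Cf p u - b N) * tf r s (S.hN N p))) atTop (𝓝 0) := by
  have h1 := hL Unit (fun _ _ => false) () u K (r / 2) (tg r s) (by positivity) (tg_lip hr s)
    (fun h e he => tg_sup hr hs hK he)
  simp only [fsum_unit] at h1
  exact h1

theorem a_low {a b : ℕ → ℝ} (hM : S.Mass) (hL : S.LR3F a b) {q : ℝ} (hq : 0 < q) (hQ : ∀ p u, q ≤ S.Qf p u) :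
    ∀ᶠ N : ℕ in atTop, q / 2 ≤ a N := by
  obtain ⟨r, s, c, K, hr, hs, hc, hK, hlow⟩ := tf_low hM
  have h1 := (lr_tf hL hr hs hK 0).1
  have h2 := (tendsto_order.1 h1).2 (q / 2 * c) (by positivity)
  filter_upwards [hlow, h2] with N hN1 hN2
  by_contra hcon
  push Not at hcon
  have h3 : (q - a N) * ∑ p ∈ S.box (K * N), S.M p * tf r s (S.hN N p) ≤
      ∑ p ∈ S.box (K * N), S.M p * ((S.Qf p 0 - a N) * tf r s (S.hN N p)) := by
    rw [Finset.mul_sum]
    refine Finset.sum_le_sum fun p _ => ?_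
    have h4 : 0 ≤ S.M p * tf r s (S.hN N p) := mul_nonneg (S.M_nn p) (tf_nn _ _ _)
    nlinarith [mul_le_mul_of_nonneg_right (hQ p 0) h4]
  have h5 : q / 2 * c ≤ (q - a N) * ∑ p ∈ S.box (K * N), S.M p * tf r s (S.hN N p) :=
    mul_le_mul (by linarith) hN1 hc.le (by linarith)
  linarith

theorem b_bdd {a b : ℕ → ℝ} (hM : S.Mass) (hL : S.LR3F a b) {k : ℝ} (hC : ∀ p u, S.Cf p u ≤ k) :
    ∀ᶠ N : ℕ in atTop, -1 ≤ b N ∧ b N ≤ k + 1 := by
  obtain ⟨r, s, c, K, hr, hs, hc, hK, hlow⟩ := tf_low hM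
  have h1 := (lr_tf hL hr hs hK 0).2
  have h2 := (tendsto_order.1 h1).2 c hc
  have h2' := (tendsto_order.1 h1).1 (-c) (by linarith)
  filter_upwards [hlow, h2, h2'] with N hN1 hN2 hN3
  have hT : ∀ p, 0 ≤ S.M p * tf r s (S.hN N p) := fun p => mul_nonneg (S.M_nn p) (tf_nn _ _ _)
  constructor
  · by_contra hcon
    push Not at hcon
    have h3 : (0 - b N) * ∑ p ∈ S.box (K * N), S.M p * tf r s (S.hN N p) ≤
        ∑ p ∈ S.box (K * N), S.M p * ((S.Cf p 0 - b N) * tf r s (S.hN N p)) := by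
      rw [Finset.mul_sum]
      refine Finset.sum_le_sum fun p _ => ?_
      nlinarith [mul_le_mul_of_nonneg_right (S.C_nn p 0) (hT p)]
    have h5 : 1 * c ≤ (0 - b N) * ∑ p ∈ S.box (K * N), S.M p * tf r s (S.hN N p) :=
      mul_le_mul (by linarith) hN1 hc.le (by linarith)
    linarith
  · by_contra hcon
    push Not at hcon
    have h3 : ∑ p ∈ S.box (K * N), S.M p * ((S.Cf p 0 - b N) * tf r s (S.hN N p)) ≤
        (k - b N) * ∑ p ∈ S.box (K * N), S.M p * tf r s (S.hN N p) := by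
      rw [Finset.mul_sum]
      refine Finset.sum_le_sum fun p _ => ?_
      nlinarith [mul_le_mul_of_nonneg_right (hC p 0) (hT p)]
    have h5 : 1 * c ≤ (b N - k) * ∑ p ∈ S.box (K * N), S.M p * tf r s (S.hN N p) :=
      mul_le_mul (by linarith) hN1 hc.le (by linarith)
    nlinarith

/-- an upper bound of `a` from the first moment of `Qf` for one side, all windows -/
theorem a_up {a b : ℕ → ℝ} (hM : S.Mass) (hL : S.LR3F a b) {q : ℝ} (hq : 0 < q) (hQ : ∀ p u, q ≤ S.Qf p u)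
    (u : Fin 4) (hU : ∀ (K : ℕ) (δ : ℝ), 0 < δ → ∃ C : ℝ, ∀ᶠ N : ℕ in atTop, ∀ D ⊆ S.box (K * N),
      (∀ p ∈ D, δ * N ≤ (S.ht p 1 : ℝ) - S.ht p 0 ∧ δ * N ≤ (S.ht p 3 : ℝ) - S.ht p 2) →
        ∑ p ∈ D, S.M p * S.Qf p u ≤ C) :
    ∃ C : ℝ, ∀ᶠ N : ℕ in atTop, a N ≤ C := by
  classical
  obtain ⟨r, s, c, K, hr, hs, hc, hK, hlow⟩ := tf_low hM
  have h1 := (lr_tf hL hr hs hK u).1
  have h2 := (tendsto_order.1 h1).1 (-c) (by linarith)
  obtain ⟨C, hC⟩ := hU K (r / 2) (by positivity)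
  refine ⟨(C + c) / c, ?_⟩
  filter_upwards [hlow, h2, hC, a_low hM hL hq hQ, eventually_ge_atTop 1] with N hN1 hN2 hN3 hN4 hN5
  have hNp : (0 : ℝ) < N := by exact_mod_cast hN5
  have hT : ∀ p, 0 ≤ S.M p * tf r s (S.hN N p) := fun p => mul_nonneg (S.M_nn p) (tf_nn _ _ _)
  have e1 : ∑ p ∈ S.box (K * N), S.M p * (S.Qf p u * tf r s (S.hN N p)) ≤ C := by
    have e2 : ∑ p ∈ S.box (K * N), S.M p * (S.Qf p u * tf r s (S.hN N p)) =
        ∑ p ∈ (S.box (K * N)).filter (fun p => tf r s (S.hN N p) ≠ 0),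
          S.M p * (S.Qf p u * tf r s (S.hN N p)) := by
      symm
      apply Finset.sum_filter_of_ne
      intro p _ hne h0
      apply hne
      rw [h0, mul_zero, mul_zero]
    rw [e2]
    refine le_trans ?_ (hN3 ((S.box (K * N)).filter (fun p => tf r s (S.hN N p) ≠ 0)) (Finset.filter_subset _ _) ?_)
    · refine Finset.sum_le_sum fun p _ => ?_
      refine mul_le_mul_of_nonneg_left ?_ (S.M_nn p)
      have := mul_le_mul_of_nonneg_left (tf_le hr s (S.hN N p)) (S.Q_nn p u)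
      linarith
    · intro p hp
      have h5 := tf_sup hr hs (Finset.mem_filter.1 hp).2
      obtain ⟨-, h6, h7⟩ := h5
      have h6' : r / 2 ≤ (S.ht p 1 : ℝ) / N - (S.ht p 0 : ℝ) / N := h6
      have h7' : r / 2 ≤ (S.ht p 3 : ℝ) / N - (S.ht p 2 : ℝ) / N := h7
      rw [← sub_div, le_div_iff₀ hNp] at h6' h7'
      exact ⟨h6', h7'⟩
  have e3 : ∑ p ∈ S.box (K * N), S.M p * ((S.Qf p u - a N) * tf r s (S.hN N p)) =
      ∑ p ∈ S.box (K * N), S.M p * (S.Qf p u * tf r s (S.hN N p)) -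
        a N * ∑ p ∈ S.box (K * N), S.M p * tf r s (S.hN N p) := by
    rw [Finset.mul_sum, ← Finset.sum_sub_distrib]
    refine Finset.sum_congr rfl fun p _ => ?_
    ring
  rw [le_div_iff₀ hc]
  have h6 : a N * c ≤ a N * ∑ p ∈ S.box (K * N), S.M p * tf r s (S.hN N p) :=
    mul_le_mul_of_nonneg_left hN1 (by linarith)
  linarith

end Pool.Agent.ROT.A.PSys
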