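import Pool.Agent.ROT.ADefs

/-!
# Linear response, block A, rows A1, A1T, A1P (helper50): the calculus of the test function
-/

set_option autoImplicit false

open Finset Filter Topology

namespace Pool.Agent.ROT.A

namespace PSys

/-! ### A1P: the profiles exist -/

theorem a1P : A1P := by
  intro r s hr hs
  let gb : ContDiffBump ((r + s) / 2) := ⟨(s - r) / 2, (s - r) / 2 + r / 2, by linarith, by linarith⟩
  let cb : ContDiffBump (0 : ℝ) := ⟨1, 2, by norm_num, by norm_num⟩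
  refine ⟨fun t => gb t, fun t => cb t, fun t => Real.smoothTransition (t - 1), ?_⟩
  refine ⟨gb.contDiff, cb.contDiff, Real.smoothTransition.contDiff.comp (contDiff_id.sub contDiff_const),
    fun t => ⟨gb.nonneg, gb.le_one⟩, fun t => ⟨cb.nonneg, cb.le_one⟩,
    fun t => ⟨Real.smoothTransition.nonneg _, Real.smoothTransition.le_one _⟩, ?_, ?_, ?_, ?_, ?_, ?_⟩
  · intro t h1 h2
    apply gb.one_of_mem_closedBall
    rw [Metric.mem_closedBall, Real.dist_eq]
    show |t - (r + s) / 2| ≤ (s - r) / 2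
    rw [abs_le]; constructor <;> linarith
  · intro t h
    have h1 : t ∈ Function.support gb := h
    rw [gb.support_eq, Metric.mem_ball, Real.dist_eq] at h1
    have h2 : |t - (r + s) / 2| < (s - r) / 2 + r / 2 := h1
    rw [abs_lt] at h2
    constructor <;> linarith [h2.1, h2.2]
  · intro t h
    apply cb.one_of_mem_closedBall
    rw [Metric.mem_closedBall, Real.dist_eq, sub_zero]
    exact h
  · intro t h
    have h1 : t ∈ Function.support cb := h
    rw [cb.support_eq, Metric.mem_ball, Real.dist_eq, sub_zero] at h1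
    exact le_of_lt h1
  · intro t h
    exact Real.smoothTransition.zero_of_nonpos (by linarith)
  · intro t h
    exact Real.smoothTransition.one_of_one_le (by linarith)

/-! ### A1T: the test function -/

theorem cs_smooth {m : ℕ} : ContDiff ℝ 2 (cs : (Fin (m + 1) → Fin 4 → ℝ) → Fin m → ℝ × ℝ) := by
  refine contDiff_pi.2 fun i => ?_
  exact (contDiff_apply_apply ℝ ℝ i.succ (0 : Fin 4)).prodMk (contDiff_apply_apply ℝ ℝ i.succ (2 : Fin 4))

theorem ph_smooth {m : ℕ} {r s : ℝ} {g χ l : ℝ → ℝ} (hp : Prof r s g χ l) (η R : ℝ) {φ : (Fin m → ℝ × ℝ) → ℝ}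
    (hφ : ContDiff ℝ 2 φ) : ContDiff ℝ 2 (Ph r g χ l η R φ) := by
  have c : ∀ (i : Fin (m + 1)) (u : Fin 4), ContDiff ℝ 2 fun h : Fin (m + 1) → Fin 4 → ℝ => h i u := fun i u =>
    contDiff_apply_apply ℝ ℝ i u
  have h1 : ContDiff ℝ 2 fun h : Fin (m + 1) → Fin 4 → ℝ => φ (cs h) := hφ.comp cs_smooth
  have h2 : ContDiff ℝ 2 fun h : Fin (m + 1) → Fin 4 → ℝ => ∏ i : Fin m, G1 g η (h i.succ) := by
    refine contDiff_prod fun i _ => ?_
    exact (hp.gs.comp (((c i.succ 1).sub (c i.succ 0)).div_const η)).mul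
      (hp.gs.comp (((c i.succ 3).sub (c i.succ 2)).div_const η))
  have h3 : ContDiff ℝ 2 fun h : Fin (m + 1) → Fin 4 → ℝ => X1 χ R (h 0) := by
    refine contDiff_prod fun u _ => ?_
    exact hp.χs.comp ((c 0 u).div_const R)
  have h4 : ContDiff ℝ 2 fun h : Fin (m + 1) → Fin 4 → ℝ => l ((h 0 1 - h 0 0) / (r * η / 4)) :=
    hp.ls.comp (((c 0 1).sub (c 0 0)).div_const _)
  have h5 : ContDiff ℝ 2 fun h : Fin (m + 1) → Fin 4 → ℝ => l ((h 0 3 - h 0 2) / (r * η / 4)) :=
    hp.ls.comp (((c 0 3).sub (c 0 2)).div_const _)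
  exact ((h1.mul h2).mul h3).mul (h4.mul h5)

theorem a1T : A1T := by
  intro m r s R0 d g χ l φ hr hs hd hp hφ η R hη hR K hK1 hK2
  refine ⟨ph_smooth hp η R hφ.smooth, fun h hh => ?_⟩
  have n1 := left_ne_zero_of_mul hh
  have n2 := right_ne_zero_of_mul hh
  have n3 := left_ne_zero_of_mul n1
  have n4 := right_ne_zero_of_mul n1
  have n5 := left_ne_zero_of_mul n3
  have n6 := right_ne_zero_of_mul n3
  obtain ⟨s1, _⟩ := hφ.sup _ n5
  have t1 : ∀ i : Fin m, (r / 2 * η ≤ h i.succ 1 - h i.succ 0 ∧ h i.succ 1 - h i.succ 0 ≤ 2 * s * η) ∧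
      r / 2 * η ≤ h i.succ 3 - h i.succ 2 ∧ h i.succ 3 - h i.succ 2 ≤ 2 * s * η := fun i => by
    have := Finset.prod_ne_zero_iff.1 n6 i (Finset.mem_univ i)
    have g1 := hp.g0 _ (left_ne_zero_of_mul this)
    have g2 := hp.g0 _ (right_ne_zero_of_mul this)
    rw [le_div_iff₀ hη, div_le_iff₀ hη] at g1 g2
    exact ⟨g1, g2⟩
  have t2 : ∀ u, |h 0 u| ≤ 2 * R := fun u => by
    have := hp.χ0 _ (Finset.prod_ne_zero_iff.1 n4 u (Finset.mem_univ u))
    rwa [abs_div, abs_of_pos hR, div_le_iff₀ hR] at this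
  have hq : 0 < r * η / 4 := by positivity
  have t3 : r * η / 4 ≤ h 0 1 - h 0 0 := by
    by_contra hc
    push Not at hc
    exact left_ne_zero_of_mul n2 (hp.l0 _ (by rw [div_le_one hq]; exact hc.le))
  have t4 : r * η / 4 ≤ h 0 3 - h 0 2 := by
    by_contra hc
    push Not at hc
    exact right_ne_zero_of_mul n2 (hp.l0 _ (by rw [div_le_one hq]; exact hc.le))
  have hrη : 0 < r * η := mul_pos hr hη
  refine ⟨fun k => Fin.cases (fun u => (t2 u).trans hK1) (fun i u => ?_) k, fun k => Fin.cases ⟨t3, t4⟩ (fun i => ?_) k⟩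
  · have a5 := s1 i
    simp only [cs, Prod.norm_def, Real.norm_eq_abs, max_le_iff, abs_le] at a5
    obtain ⟨⟨a1, a2⟩, a3, a4⟩ := t1 i
    obtain ⟨⟨b1, b2⟩, b3, b4⟩ := a5
    rw [abs_le]
    fin_cases u <;> simp only [Fin.zero_eta, Fin.mk_one, Fin.reduceFinMk] <;> constructor <;> nlinarith
  · obtain ⟨⟨a1, a2⟩, a3, a4⟩ := t1 i
    constructor <;> nlinarith

/-! ### A1: the expansion -/

/-- the derivative vanishes off a closed set which contains the support -/
theorem deriv_off {f : ℝ → ℝ} {S : Set ℝ} (hS : IsClosed S) (hf : ∀ t, f t ≠ 0 → t ∈ S) {t : ℝ} (ht : t ∉ S) :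
    deriv f t = 0 := by
  have : f =ᶠ[𝓝 t] fun _ => (0 : ℝ) := by
    filter_upwards [hS.isOpen_compl.mem_nhds ht] with y hy
    by_contra h
    exact hy (hf y h)
  rw [this.deriv_eq]; simp

theorem fderiv_off {E : Type*} [NormedAddCommGroup E] [NormedSpace ℝ E] {f : E → ℝ} {S : Set E} (hS : IsClosed S)
    (hf : ∀ t, f t ≠ 0 → t ∈ S) {t : E} (ht : t ∉ S) : fderiv ℝ f t = 0 := by
  have : f =ᶠ[𝓝 t] fun _ => (0 : ℝ) := by
    filter_upwards [hS.isOpen_compl.mem_nhds ht] with y hy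
    by_contra h
    exact hy (hf y h)
  rw [this.fderiv_eq]; simp

/-- a C^2 function with a bounded support has a bounded derivative -/
theorem deriv_bd {f : ℝ → ℝ} {B : ℝ} (hs : ContDiff ℝ 2 f) (hf : ∀ t, f t ≠ 0 → |t| ≤ B) : ∃ C : ℝ, 0 ≤ C ∧ ∀ t, |deriv f t| ≤ C := by
  have hc : HasCompactSupport f := HasCompactSupport.intro (K := Metric.closedBall 0 B) (isCompact_closedBall _ _)
    fun x hx => by
      by_contra h
      exact hx (by simpa [Metric.mem_closedBall, dist_zero_right, Real.norm_eq_abs] using hf x h)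
  obtain ⟨C, hC⟩ := hc.deriv.exists_bound_of_continuous (hs.continuous_deriv (by norm_num))
  exact ⟨C, (norm_nonneg _).trans (hC 0), fun t => by simpa [Real.norm_eq_abs] using hC t⟩

theorem fderiv_bd {m : ℕ} {R0 d : ℝ} {φ : (Fin m → ℝ × ℝ) → ℝ} (hφ : Tp R0 d φ) :
    ∃ C : ℝ, 0 ≤ C ∧ (∀ y, |φ y| ≤ C) ∧ ∀ y, ‖fderiv ℝ φ y‖ ≤ C := by
  have hc : HasCompactSupport φ := HasCompactSupport.intro (K := Metric.closedBall 0 (max R0 0)) (isCompact_closedBall _ _)
    fun x hx => by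
      by_contra h
      apply hx
      rw [Metric.mem_closedBall, dist_zero_right, pi_norm_le_iff_of_nonneg (le_max_right _ _)]
      exact fun i => ((hφ.sup x h).1 i).trans (le_max_left _ _)
  obtain ⟨C, hC⟩ := hc.exists_bound_of_continuous hφ.smooth.continuous
  obtain ⟨C', hC'⟩ := (hc.fderiv ℝ).exists_bound_of_continuous (hφ.smooth.continuous_fderiv (by norm_num))
  exact ⟨max C C', (norm_nonneg _).trans ((hC 0).trans (le_max_left _ _)),
    fun y => (by simpa [Real.norm_eq_abs] using hC y : |φ y| ≤ C).trans (le_max_left _ _),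
    fun y => (hC' y).trans (le_max_right _ _)⟩

section

variable {m : ℕ} {r s : ℝ} {g χ l : ℝ → ℝ}

/-- the derivative of a composition with an affine function -/
theorem hd_aff {f : ℝ → ℝ} (hf : Differentiable ℝ f) (x v c : ℝ) :
    HasDerivAt (fun t : ℝ => f ((x + t * v) / c)) (deriv f (x / c) * (v / c)) 0 := by
  have h1 : HasDerivAt (fun t : ℝ => (x + t * v) / c) (v / c) 0 := by
    have := (((hasDerivAt_id (0 : ℝ)).mul_const v).const_add x).div_const c
    simpa using this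
  have h2 : HasDerivAt f (deriv f (x / c)) ((x + 0 * v) / c) := by
    simpa using (hf (x / c)).hasDerivAt
  exact h2.comp (0 : ℝ) h1

/-- derivative of the size factor of one tracer along v -/
theorem hd_G1 (hg : Differentiable ℝ g) (η : ℝ) (y v : Fin 4 → ℝ) :
    HasDerivAt (fun t : ℝ => G1 g η (y + t • v)) (deriv g ((y 1 - y 0) / η) * ((v 1 - v 0) / η) * g ((y 3 - y 2) / η) +
      g ((y 1 - y 0) / η) * (deriv g ((y 3 - y 2) / η) * ((v 3 - v 2) / η))) 0 := by
  have h1 := hd_aff hg (y 1 - y 0) (v 1 - v 0) η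
  have h2 := hd_aff hg (y 3 - y 2) (v 3 - v 2) η
  have h3 := h1.mul h2
  simp only [zero_mul, add_zero] at h3
  refine h3.congr_of_eventuallyEq (Eventually.of_forall fun t => ?_)
  simp only [G1, Pi.add_apply, Pi.smul_apply, smul_eq_mul, Pi.mul_apply]
  ring_nf

/-- derivative of the cutoff of w along v -/
theorem hd_X1 (hχ : Differentiable ℝ χ) (R : ℝ) (y v : Fin 4 → ℝ) :
    HasDerivAt (fun t : ℝ => X1 χ R (y + t • v))
      (∑ u, (∏ k ∈ univ.erase u, χ (y k / R)) * (deriv χ (y u / R) * (v u / R))) 0 := by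
  have h1 := HasDerivAt.fun_finsetProd (u := (univ : Finset (Fin 4))) (f := fun u (t : ℝ) => χ ((y u + t * v u) / R))
    (f' := fun u => deriv χ (y u / R) * (v u / R)) (x := 0) fun u _ => hd_aff hχ (y u) (v u) R
  simp only [zero_mul, add_zero, smul_eq_mul] at h1
  exact h1

/-- the sum of the derivatives in the coordinates is one derivative -/
theorem sum_pd {Φ : (Fin (m + 1) → Fin 4 → ℝ) → ℝ} (h v : Fin (m + 1) → Fin 4 → ℝ) :
    ∑ i, ∑ u, v i u * pd Φ h i u = fderiv ℝ Φ h v := by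
  have hv : v = ∑ i, ∑ u, v i u • (Pi.single i (Pi.single u 1) : Fin (m + 1) → Fin 4 → ℝ) := by
    funext i u
    simp only [Finset.sum_apply, Pi.smul_apply, smul_eq_mul]
    rw [Finset.sum_eq_single i (fun j _ hj => by
      refine Finset.sum_eq_zero fun k _ => ?_
      simp [Pi.single_eq_of_ne hj.symm]) (by simp)]
    rw [Finset.sum_eq_single u (fun j _ hj => by simp [Pi.single_eq_of_ne hj.symm]) (by simp)]
    simp
  conv_rhs => rw [hv]
  rw [map_sum]
  refine Finset.sum_congr rfl fun i _ => ?_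
  rw [map_sum]
  refine Finset.sum_congr rfl fun u _ => ?_
  rw [map_smul, smul_eq_mul, pd]

/-- the line of the test function -/
theorem ph_line (η R : ℝ) (φ : (Fin m → ℝ × ℝ) → ℝ) (h v : Fin (m + 1) → Fin 4 → ℝ) (t : ℝ) :
    Ph r g χ l η R φ (h + t • v) = φ (cs h + t • cs v) * (∏ i : Fin m, G1 g η (h i.succ + t • v i.succ)) *
      X1 χ R (h 0 + t • v 0) * (l (((h 0 1 - h 0 0) + t * (v 0 1 - v 0 0)) / (r * η / 4)) *
        l (((h 0 3 - h 0 2) + t * (v 0 3 - v 0 2)) / (r * η / 4))) := by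
  have e1 : cs (h + t • v) = cs h + t • cs v := rfl
  have e2 : (h + t • v) 0 1 - (h + t • v) 0 0 = (h 0 1 - h 0 0) + t * (v 0 1 - v 0 0) := by
    simp only [Pi.add_apply, Pi.smul_apply, smul_eq_mul]; ring
  have e3 : (h + t • v) 0 3 - (h + t • v) 0 2 = (h 0 3 - h 0 2) + t * (v 0 3 - v 0 2) := by
    simp only [Pi.add_apply, Pi.smul_apply, smul_eq_mul]; ring
  rw [Ph, e1, e2, e3]
  rfl

theorem l_deriv (hp : Prof r s g χ l) {t : ℝ} (ht : 2 ≤ t) : deriv l t = 0 := by
  have hc : IsClosed {t : ℝ | deriv l t = 0} := isClosed_eq (hp.ls.continuous_deriv (by norm_num)) continuous_const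
  have h1 : Set.Ioi (2 : ℝ) ⊆ {t : ℝ | deriv l t = 0} := fun y hy => by
    have : l =ᶠ[𝓝 y] fun _ => (1 : ℝ) := by
      filter_upwards [Ioi_mem_nhds hy] with z hz
      exact hp.l1 z (le_of_lt hz)
    show deriv l y = 0
    rw [this.deriv_eq]; simp
  have h2 := hc.closure_subset_iff.2 h1
  rw [closure_Ioi] at h2
  exact h2 ht

theorem χ_deriv_one (hp : Prof r s g χ l) {t : ℝ} (ht : |t| < 1) : deriv χ t = 0 := by
  have hU : IsOpen {t : ℝ | |t| < 1} := isOpen_lt continuous_abs continuous_const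
  have : χ =ᶠ[𝓝 t] fun _ => (1 : ℝ) := by
    filter_upwards [hU.mem_nhds ht] with z hz
    exact hp.χ1 z (le_of_lt hz)
  rw [this.deriv_eq]; simp

theorem χ_deriv_two (hp : Prof r s g χ l) {t : ℝ} (ht : 2 < |t|) : deriv χ t = 0 :=
  deriv_off (S := {t : ℝ | |t| ≤ 2}) (isClosed_le continuous_abs continuous_const) hp.χ0 (by simpa using ht)

theorem g_deriv (hp : Prof r s g χ l) {t : ℝ} (ht : t < r / 2 ∨ 2 * s < t) : deriv g t = 0 :=
  deriv_off (S := Set.Icc (r / 2) (2 * s)) isClosed_Icc (fun t h => hp.g0 t h) (by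
    rw [Set.mem_Icc, not_and_or, not_le, not_le]; exact ht)

theorem g_zero (hp : Prof r s g χ l) {t : ℝ} (ht : t < r / 2 ∨ 2 * s < t) : g t = 0 := by
  by_contra h
  have := hp.g0 t h
  rcases ht with ht | ht <;> linarith [this.1, this.2]

theorem φ_deriv {R0 d : ℝ} {φ : (Fin m → ℝ × ℝ) → ℝ} (hφ : Tp R0 d φ) {y : Fin m → ℝ × ℝ} (h : fderiv ℝ φ y ≠ 0) :
    (∀ i, ‖y i‖ ≤ R0) ∧ ∀ i k, i ≠ k → d ≤ ‖y i - y k‖ := by
  by_contra hc
  apply h
  refine fderiv_off (S := {y : Fin m → ℝ × ℝ | (∀ i, ‖y i‖ ≤ R0) ∧ ∀ i k, i ≠ k → d ≤ ‖y i - y k‖}) ?_ hφ.sup hc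
  have h1 : IsClosed {y : Fin m → ℝ × ℝ | ∀ i, ‖y i‖ ≤ R0} := by
    simp only [Set.ofPred_forall]
    exact isClosed_iInter fun i => isClosed_le ((continuous_apply i).norm) continuous_const
  have h2 : IsClosed {y : Fin m → ℝ × ℝ | ∀ i k, i ≠ k → d ≤ ‖y i - y k‖} := by
    simp only [Set.ofPred_forall]
    exact isClosed_iInter fun i => isClosed_iInter fun k => isClosed_iInter fun _ =>
      isClosed_le continuous_const (((continuous_apply i).sub (continuous_apply k)).norm)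
  exact h1.inter h2

theorem prod01 {ι : Type*} (S : Finset ι) (f : ι → ℝ) (hf : ∀ i, 0 ≤ f i ∧ f i ≤ 1) : 0 ≤ ∏ i ∈ S, f i ∧ ∏ i ∈ S, f i ≤ 1 :=
  ⟨Finset.prod_nonneg fun i _ => (hf i).1, Finset.prod_le_one (fun i _ => (hf i).1) fun i _ => (hf i).2⟩

theorem G1_01 (hp : Prof r s g χ l) (η : ℝ) (y : Fin 4 → ℝ) : 0 ≤ G1 g η y ∧ G1 g η y ≤ 1 :=
  ⟨mul_nonneg (hp.g01 _).1 (hp.g01 _).1, mul_le_one₀ (hp.g01 _).2 (hp.g01 _).1 (hp.g01 _).2⟩

/-- the derivative of the size factor along v is the shape term -/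
theorem G1_Psi (η a b : ℝ) (y e v : Fin 4 → ℝ) (hv : v = fun u => sg u * (a * y u + b * e u)) :
    deriv g ((y 1 - y 0) / η) * ((v 1 - v 0) / η) * g ((y 3 - y 2) / η) +
      g ((y 1 - y 0) / η) * (deriv g ((y 3 - y 2) / η) * ((v 3 - v 2) / η)) = Psi g η a b y e := by
  have s0 : sg 0 = -1 := by simp [sg]
  have s1 : sg 1 = -1 := by simp [sg]
  have s2 : sg 2 = 1 := by simp [sg]
  have s3 : sg 3 = 1 := by simp [sg]
  rw [hv]
  simp only [s0, s1, s2, s3, Psi]
  ring

/-- derivative of the cutoff of w: bound -/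
theorem X1_bd (hp : Prof r s g χ l) {Cχ : ℝ} (hCχ : 0 ≤ Cχ) (hχ1 : ∀ t, |deriv χ t| ≤ Cχ) {R : ℝ} (hR : 1 ≤ R) (a b : ℝ)
    (y e v : Fin 4 → ℝ) (hv : v = fun u => sg u * (a * y u + b * e u))
    (he : ((y 2 ≤ e 0 ∧ e 0 ≤ y 3) ∧ y 2 ≤ e 1 ∧ e 1 ≤ y 3) ∧ (y 0 ≤ e 2 ∧ e 2 ≤ y 1) ∧ y 0 ≤ e 3 ∧ e 3 ≤ y 1) :
    |∑ u, (∏ k ∈ univ.erase u, χ (y k / R)) * (deriv χ (y u / R) * (v u / R))| ≤
      8 * Cχ * (|a| + |b|) * (if (∀ u, |y u| ≤ 2 * R) ∧ ∃ u, R ≤ |y u| then 1 else 0) := by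
  have hR0 : 0 < R := lt_of_lt_of_le one_pos hR
  by_cases hall : ∀ u, |y u| ≤ 2 * R
  · have hex : ∀ u, |e u| ≤ 2 * R := fun u => by
      have q0 := abs_le.1 (hall 0)
      have q1 := abs_le.1 (hall 1)
      have q2 := abs_le.1 (hall 2)
      have q3 := abs_le.1 (hall 3)
      obtain ⟨⟨⟨b1, b2⟩, b3, b4⟩, ⟨b5, b6⟩, b7, b8⟩ := he
      rw [abs_le]
      fin_cases u <;> simp only [Fin.zero_eta, Fin.mk_one, Fin.reduceFinMk] <;> constructor <;> linarith
    have hvu : ∀ u, |v u / R| ≤ 2 * (|a| + |b|) := fun u => by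
      rw [abs_div, abs_of_pos hR0, div_le_iff₀ hR0, hv]
      have hs : |sg u| = 1 := by unfold sg; split_ifs <;> simp
      simp only [abs_mul, hs, one_mul]
      refine (abs_add_le _ _).trans ?_
      rw [abs_mul, abs_mul]
      have t1 := mul_le_mul_of_nonneg_left (hall u) (abs_nonneg a)
      have t2 := mul_le_mul_of_nonneg_left (hex u) (abs_nonneg b)
      linarith
    by_cases hsome : ∃ u, R ≤ |y u|
    · rw [if_pos ⟨hall, hsome⟩, mul_one]
      refine (Finset.abs_sum_le_sum_abs _ _).trans ?_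
      have : ∀ u ∈ (univ : Finset (Fin 4)), |(∏ k ∈ univ.erase u, χ (y k / R)) * (deriv χ (y u / R) * (v u / R))| ≤
          2 * Cχ * (|a| + |b|) := fun u _ => by
        have p1 := prod01 (univ.erase u) (fun k => χ (y k / R)) fun k => hp.χ01 _
        rw [abs_mul, abs_mul, abs_of_nonneg p1.1]
        have t1 := mul_le_mul (hχ1 (y u / R)) (hvu u) (abs_nonneg _) hCχ
        have t2 : 0 ≤ |deriv χ (y u / R)| * |v u / R| := by positivity
        calc (∏ k ∈ univ.erase u, χ (y k / R)) * (|deriv χ (y u / R)| * |v u / R|) ≤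
            1 * (|deriv χ (y u / R)| * |v u / R|) := mul_le_mul_of_nonneg_right p1.2 t2
          _ ≤ Cχ * (2 * (|a| + |b|)) := by rw [one_mul]; exact t1
          _ = _ := by ring
      refine (Finset.sum_le_sum this).trans ?_
      simp
      linarith
    · rw [if_neg fun h => hsome h.2, mul_zero]
      push Not at hsome
      rw [Finset.sum_eq_zero, abs_zero]
      intro u _
      rw [χ_deriv_one hp (by rw [abs_div, abs_of_pos hR0, div_lt_one hR0]; exact hsome u)]
      simp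
  · rw [if_neg fun h => hall h.1, mul_zero]
    push Not at hall
    obtain ⟨k, hk⟩ := hall
    have hk2 : 2 < |y k / R| := by rw [abs_div, abs_of_pos hR0, lt_div_iff₀ hR0]; exact hk
    rw [Finset.sum_eq_zero, abs_zero]
    intro u _
    rcases eq_or_ne k u with rfl | hku
    · rw [χ_deriv_two hp hk2]; simp
    · have : χ (y k / R) = 0 := by
        by_contra h
        exact absurd (hp.χ0 _ h) (not_le.2 hk2)
      rw [Finset.prod_eq_zero (Finset.mem_erase.2 ⟨hku, Finset.mem_univ k⟩) this, zero_mul]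

end

/-- **row A1** -/
theorem a1 : A1 := by
  classical
  intro m r s R0 d g χ l φ hr hs hd hp hφ
  obtain ⟨Cf, hCf, hf0, hf1⟩ := fderiv_bd hφ
  obtain ⟨Cχ, hCχ, hχ1⟩ := deriv_bd hp.χs hp.χ0
  have hs0 : 0 < s := hr.trans hs
  refine ⟨2 * s * Cf + 8 * (Cf * Cχ), by positivity, fun η R hη hη1 hR a b h e he hi => ?_⟩
  have hR0 : 0 < R := lt_of_lt_of_le one_pos hR
  have hab : 0 ≤ |a| + |b| := by positivity
  set v : Fin (m + 1) → Fin 4 → ℝ := fun i u => sg u * (a * h i u + b * e i u) with hv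
  have hsum : ∑ i, ∑ u, sg u * (a * h i u + b * e i u) * pd (Ph r g χ l η R φ) h i u =
      fderiv ℝ (Ph r g χ l η R φ) h v := sum_pd h v
  rw [hsum]
  have dg : Differentiable ℝ g := hp.gs.differentiable (by norm_num)
  have dχ : Differentiable ℝ χ := hp.χs.differentiable (by norm_num)
  have dl : Differentiable ℝ l := hp.ls.differentiable (by norm_num)
  have dPh := ((ph_smooth hp η R hφ.smooth).differentiable (by norm_num) h).hasFDerivAt.hasLineDerivAt v
  have dF := ((hφ.smooth.differentiable (by norm_num)) (cs h)).hasFDerivAt.hasLineDerivAt (cs v)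
  unfold HasLineDerivAt at dPh dF
  have dP := HasDerivAt.fun_finsetProd (u := (univ : Finset (Fin m)))
    (f := fun i (t : ℝ) => G1 g η (h i.succ + t • v i.succ)) (x := 0) fun i _ => hd_G1 dg η (h i.succ) (v i.succ)
  have dX := hd_X1 dχ R (h 0) (v 0)
  have dL := (hd_aff dl (h 0 1 - h 0 0) (v 0 1 - v 0 0) (r * η / 4)).mul
    (hd_aff dl (h 0 3 - h 0 2) (v 0 3 - v 0 2) (r * η / 4))
  have dA := ((dF.mul dP).mul dX).mul dL
  simp only [Pi.mul_apply, zero_smul, add_zero, zero_mul, smul_eq_mul] at dA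
  have hline : (fun t : ℝ => Ph r g χ l η R φ (h + t • v)) = fun t : ℝ => φ (cs h + t • cs v) *
      (∏ i : Fin m, G1 g η (h i.succ + t • v i.succ)) * X1 χ R (h 0 + t • v 0) *
      (l (((h 0 1 - h 0 0) + t * (v 0 1 - v 0 0)) / (r * η / 4)) *
        l (((h 0 3 - h 0 2) + t * (v 0 3 - v 0 2)) / (r * η / 4))) := by
    funext t; exact ph_line η R φ h v t
  rw [hline] at dPh
  have hD := dPh.unique dA
  rw [hD]
  have hPsi : ∀ i : Fin m, deriv g ((h i.succ 1 - h i.succ 0) / η) * ((v i.succ 1 - v i.succ 0) / η) *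
      g ((h i.succ 3 - h i.succ 2) / η) + g ((h i.succ 1 - h i.succ 0) / η) *
      (deriv g ((h i.succ 3 - h i.succ 2) / η) * ((v i.succ 3 - v i.succ 2) / η)) =
      Psi g η a b (h i.succ) (e i.succ) := fun i => G1_Psi η a b _ _ _ rfl
  simp only [hPsi]
  set P : ℝ := ∏ i : Fin m, G1 g η (h i.succ) with hP
  set X : ℝ := X1 χ R (h 0) with hX
  set DP : ℝ := ∑ x : Fin m, (∏ j ∈ univ.erase x, G1 g η (h j.succ)) * Psi g η a b (h x.succ) (e x.succ) with hDP
  have hDP' : ∑ i : Fin m, Psi g η a b (h i.succ) (e i.succ) * ∏ k ∈ univ.erase i, G1 g η (h k.succ) = DP :=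
    Finset.sum_congr rfl fun i _ => mul_comm _ _
  rw [hDP']
  set DX : ℝ := ∑ u, (∏ k ∈ univ.erase u, χ (h 0 k / R)) * (deriv χ (h 0 u / R) * (v 0 u / R)) with hDX
  clear_value DX
  clear hD dA dL dX dPh hline dP dF
  set I : ℝ := if Okh r η R s R0 d h then η + (if ∃ u, R ≤ |h 0 u| then 1 else 0) else 0 with hI
  have hI0 : 0 ≤ I := by rw [hI]; split_ifs <;> linarith
  have hC0 : 0 ≤ (2 * s * Cf + 8 * (Cf * Cχ)) * (|a| + |b|) * I := by positivity
  by_cases hbad : ∃ i : Fin m, (h i.succ 1 - h i.succ 0) / η < r / 2 ∨ (h i.succ 3 - h i.succ 2) / η < r / 2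
  · -- a tracer is too small: everything vanishes
    obtain ⟨i, hi1⟩ := hbad
    have hG : G1 g η (h i.succ) = 0 := by
      rcases hi1 with h1 | h1
      · rw [G1, g_zero hp (Or.inl h1), zero_mul]
      · rw [G1, g_zero hp (Or.inl h1), mul_zero]
    have hPs : Psi g η a b (h i.succ) (e i.succ) = 0 := by
      rcases hi1 with h1 | h1
      · rw [Psi, g_zero hp (Or.inl h1), g_deriv hp (Or.inl h1)]; ring
      · rw [Psi, g_zero hp (Or.inl h1), g_deriv hp (Or.inl h1)]; ring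
    have hP0 : P = 0 := Finset.prod_eq_zero (Finset.mem_univ i) hG
    have hDP0 : DP = 0 := by
      refine Finset.sum_eq_zero fun x _ => ?_
      rcases eq_or_ne i x with rfl | hx
      · rw [hPs, mul_zero]
      · rw [Finset.prod_eq_zero (Finset.mem_erase.2 ⟨hx, Finset.mem_univ i⟩) hG, zero_mul]
    rw [hP0, hDP0]
    simpa using hC0
  · push Not at hbad
    have hq : 0 < r * η / 4 := by positivity
    obtain ⟨i0, hi1, hi2⟩ := hi
    obtain ⟨g1, g2⟩ := hbad i0
    rw [le_div_iff₀ hη] at g1 g2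
    have L1 : 2 ≤ (h 0 1 - h 0 0) / (r * η / 4) := by rw [le_div_iff₀ hq]; nlinarith
    have L2 : 2 ≤ (h 0 3 - h 0 2) / (r * η / 4) := by rw [le_div_iff₀ hq]; nlinarith
    rw [hp.l1 _ L1, hp.l1 _ L2, l_deriv hp L1, l_deriv hp L2]
    have eq1 : ((fderiv ℝ φ (cs h) (cs v) * P + φ (cs h) * DP) * X + φ (cs h) * P * DX) * (1 * 1) +
        φ (cs h) * P * X * (0 * ((v 0 1 - v 0 0) / (r * η / 4)) * 1 + 1 * (0 * ((v 0 3 - v 0 2) / (r * η / 4)))) -
        ((fderiv ℝ φ (cs h) fun i => B1 a b (cs h i)) * P * X + φ (cs h) * DP * X) =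
        fderiv ℝ φ (cs h) (cs v - fun i => B1 a b (cs h i)) * (P * X) + φ (cs h) * P * DX := by
      rw [map_sub]; ring
    rw [eq1]
    have hP01 : 0 ≤ P ∧ P ≤ 1 := prod01 univ (fun i : Fin m => G1 g η (h i.succ)) fun i => G1_01 hp η _
    have hX01 : 0 ≤ X ∧ X ≤ 1 := prod01 univ (fun u => χ (h 0 u / R)) fun u => hp.χ01 _
    -- supports
    have sP : P ≠ 0 → ∀ i : Fin m, r * η / 2 ≤ h i.succ 1 - h i.succ 0 ∧ h i.succ 1 - h i.succ 0 ≤ 2 * s * η ∧
        r * η / 2 ≤ h i.succ 3 - h i.succ 2 ∧ h i.succ 3 - h i.succ 2 ≤ 2 * s * η := fun hP0 i => by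
      have h1 := Finset.prod_ne_zero_iff.1 hP0 i (Finset.mem_univ i)
      have k1 := hp.g0 _ (left_ne_zero_of_mul h1)
      have k2 := hp.g0 _ (right_ne_zero_of_mul h1)
      rw [le_div_iff₀ hη, div_le_iff₀ hη] at k1 k2
      refine ⟨by linarith [k1.1], k1.2, by linarith [k2.1], k2.2⟩
    have sX : X ≠ 0 → ∀ u, |h 0 u| ≤ 2 * R := fun hX0 u => by
      have h1 := hp.χ0 _ (Finset.prod_ne_zero_iff.1 hX0 u (Finset.mem_univ u))
      rwa [abs_div, abs_of_pos hR0, div_le_iff₀ hR0] at h1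
    -- first term
    have T1 : |fderiv ℝ φ (cs h) (cs v - fun i => B1 a b (cs h i)) * (P * X)| ≤ Cf * (2 * s * |b|) * I := by
      by_cases hz : fderiv ℝ φ (cs h) = 0 ∨ P = 0 ∨ X = 0
      · have : fderiv ℝ φ (cs h) (cs v - fun i => B1 a b (cs h i)) * (P * X) = 0 := by
          rcases hz with h1 | h1 | h1
          · rw [h1]; simp
          · rw [h1]; ring
          · rw [h1]; ring
        rw [this, abs_zero]
        positivity
      · push Not at hz
        obtain ⟨z1, z2, z3⟩ := hz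
        have o1 := φ_deriv hφ z1
        have o2 := sP z2
        have o3 := sX z3
        have hOk : Okh r η R s R0 d h := ⟨o1.1, o1.2, o2, o3⟩
        have hIη : η ≤ I := by rw [hI, if_pos hOk]; split_ifs <;> linarith
        have hw : ‖cs v - fun i => B1 a b (cs h i)‖ ≤ |b| * (2 * s * η) := by
          rw [pi_norm_le_iff_of_nonneg (by positivity)]
          intro i
          have hvi : (cs v - fun i => B1 a b (cs h i)) i = (-(b * (e i.succ 0 - h i.succ 2)), b * (e i.succ 2 - h i.succ 0)) := by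
            show ((v i.succ 0, v i.succ 2) : ℝ × ℝ) - B1 a b (h i.succ 0, h i.succ 2) = _
            have s0 : sg 0 = -1 := by simp [sg]
            have s2 : sg 2 = 1 := by simp [sg]
            simp only [hv, s0, s2, B1, Prod.mk_sub_mk]
            refine Prod.ext ?_ ?_
            · simp only; ring
            · simp only; ring
          rw [hvi, Prod.norm_def]
          obtain ⟨⟨⟨b1, b2⟩, b3, b4⟩, ⟨b5, b6⟩, b7, b8⟩ := he i.succ
          obtain ⟨c1, c2, c3, c4⟩ := o2 i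
          refine max_le ?_ ?_
          · rw [norm_neg, Real.norm_eq_abs, abs_mul]
            refine mul_le_mul_of_nonneg_left ?_ (abs_nonneg _)
            rw [abs_le]; constructor <;> nlinarith
          · rw [Real.norm_eq_abs, abs_mul]
            refine mul_le_mul_of_nonneg_left ?_ (abs_nonneg _)
            rw [abs_le]; constructor <;> nlinarith
        rw [abs_mul, abs_of_nonneg (mul_nonneg hP01.1 hX01.1)]
        have k1 : |fderiv ℝ φ (cs h) (cs v - fun i => B1 a b (cs h i))| ≤ Cf * (|b| * (2 * s * η)) :=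
          ((fderiv ℝ φ (cs h)).le_opNorm _).trans (mul_le_mul (hf1 _) hw (norm_nonneg _) hCf)
        have k2 : P * X ≤ 1 := mul_le_one₀ hP01.2 hX01.1 hX01.2
        calc _ ≤ Cf * (|b| * (2 * s * η)) * 1 := mul_le_mul k1 k2 (mul_nonneg hP01.1 hX01.1) (by positivity)
          _ = Cf * (2 * s * |b|) * η := by ring
          _ ≤ _ := mul_le_mul_of_nonneg_left hIη (by positivity)
    -- second term
    have T2 : |φ (cs h) * P * DX| ≤ Cf * (8 * Cχ * (|a| + |b|)) * I := by
      by_cases hz : φ (cs h) = 0 ∨ P = 0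
      · have : φ (cs h) * P * DX = 0 := by
          rcases hz with h1 | h1
          · rw [h1]; ring
          · rw [h1]; ring
        rw [this, abs_zero]
        positivity
      · push Not at hz
        have k1 := X1_bd hp hCχ hχ1 hR a b (h 0) (e 0) (v 0) rfl (he 0)
        rw [← hDX] at k1
        have k2 : |φ (cs h) * P| ≤ Cf := by
          rw [abs_mul, abs_of_nonneg hP01.1]
          exact (mul_le_of_le_one_right (abs_nonneg _) hP01.2).trans (hf0 _)
        rw [abs_mul]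
        refine (mul_le_mul k2 k1 (abs_nonneg _) hCf).trans ?_
        by_cases hcon : (∀ u, |h 0 u| ≤ 2 * R) ∧ ∃ u, R ≤ |h 0 u|
        · have hOk : Okh r η R s R0 d h := ⟨(hφ.sup _ hz.1).1, (hφ.sup _ hz.1).2, sP hz.2, hcon.1⟩
          have hI1 : 1 ≤ I := by rw [hI, if_pos hOk, if_pos hcon.2]; linarith
          rw [if_pos hcon, mul_one]
          exact le_mul_of_one_le_right (by positivity) hI1
        · rw [if_neg hcon]
          simp only [mul_zero]
          positivity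
    refine (abs_add_le _ _).trans ((add_le_add T1 T2).trans ?_)
    have k3 : 0 ≤ Cf * (2 * s) * |a| * I := by positivity
    nlinarith

end PSys

end Pool.Agent.ROT.A
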