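import Pool.Agent.ROT.A0c
import Pool.Agent.ROT.AOne
import Pool.Agent.ROT.A3
import Pool.Agent.ROT.A7
import Pool.Agent.ROT.A2Defs

/-!
# ROT, block A: the output (helper28)

`flow_out` : exact side in discrete form (`EXd`), first moments of the responses (`UI1`), (LR3) in families
(`A2Out`), `Near`, `Mass` ⇒ `Flow a b` with bounded `a`, `b`, `qm ≤ a`.
-/

set_option autoImplicit false

open Finset Filter Topology

namespace Pool.Agent.ROT.A

namespace PSys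

variable (S : PSys)

/-- **block A** -/
theorem flow_all {a b : ℕ → ℝ} (hE : S.EXd) (hU : S.UI1) (hL : S.LR3F a b) (hNr : S.Near) (hM : S.Mass)
    (hab : ∃ A : ℝ, ∀ᶠ N : ℕ in atTop, |a N| + |b N| ≤ A) : S.Flow a b :=
  S.flow_of (S.a7 hE hU) hL hNr hM a1 a1T a1P S.a3 hab

/-- **block A with the constants** -/
theorem flow_out {qm : ℝ} (hqm : 0 < qm) (hE : S.EXd) (hU : S.UI1) (hL : A2Out S qm) (hNr : S.Near) (hM : S.Mass) :
    ∃ (A : ℝ) (a b : ℕ → ℝ), (∀ N, qm ≤ a N ∧ a N ≤ A ∧ 0 ≤ b N ∧ b N ≤ A) ∧ S.Flow a b := by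
  obtain ⟨A, a, b, h, hL⟩ := hL
  refine ⟨A, a, b, h, S.flow_all hE hU hL hNr hM ⟨A + A, Eventually.of_forall fun N => ?_⟩⟩
  obtain ⟨h1, h2, h3, h4⟩ := h N
  rw [abs_of_nonneg (hqm.le.trans h1), abs_of_nonneg h3]
  exact add_le_add h2 h4

end PSys

end Pool.Agent.ROT.A
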