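import Pool.Agent.ROT.A5
import Pool.Agent.ROT.A6S
import Pool.Agent.ROT.A6T
import Pool.Agent.ROT.A2f
import Pool.Agent.ROT.UI1
import Pool.Agent.ROT.AFin

/-!
# ROT, block A for the honeycomb loops: the weak identity of block I (helper28)
-/

set_option autoImplicit false

open Finset Filter Topology

namespace Pool.Agent.ROT.A6

open Pool.Agent.ROT.I (Lps M1 Weak)
open Pool.Agent.ROT.E.Hx (HL hs Ny prod_hex)

/-- the honeycomb loops as loops of block I -/
def lps (p : hexP.P) : Lps := ⟨p.1, p.2.lp⟩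

open Classical in
theorem m1_eq (γ : E.Cfg) : M1 γ = if Ny γ then HexObs.xc ^ (hs γ).card else 0 := by
  unfold M1
  exact prod_hex γ

/-- **the link** -/
theorem lk : A5.Lk hexP lps := by
  classical
  refine ⟨?_, ?_, ?_, ?_⟩
  · intro p q h
    exact Subtype.ext (congrArg (fun γ : Lps => γ.1) h)
  · intro p
    have h : Ny (lps p).1 := p.2.ny
    rw [m1_eq, if_pos h]
    rfl
  · intro x p
    exact Iff.rfl
  · intro γ h
    rw [m1_eq, if_neg]
    intro hy
    exact h ⟨⟨γ.1, γ.2, hy⟩, rfl⟩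

/-- **block A for the honeycomb loops**: the exact side `EXd`, the inputs of A2 (outer structures, (LR3) for one
polygon, CAP, UI, symmetries, Near, Mass), the first moments ⇒ the weak identity of block I -/
theorem hex_weak {X : ∀ u, hexP.Side u} {qm kC : ℝ} (hI : A.PSys.A2In hexP X qm kC) (hE : hexP.EXd)
    (hU : hexP.UI0) :
    ∃ (A : ℝ) (a b : ℕ → ℝ), (∀ N, qm ≤ a N ∧ a N ≤ A ∧ 0 ≤ b N ∧ b N ≤ A) ∧ Weak a fun N => -b N := by
  obtain ⟨A, a, b, h1, h2⟩ := hexP.flow_out hI.qm_pos hE (hexP.ui1 hexP_Qtr hexP_Ctr hI.mass hU) (A.PSys.a2 hI)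
    hI.near hI.mass
  exact ⟨A, a, b, h1, A5.weak_of_flow lk h2⟩

end Pool.Agent.ROT.A6
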