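import Mathlib

/-!
# ROT/Arc (helper18): an arc does not separate the plane

`arc_compl`: the complement of the range of an injective path is connected (Tietze extension + no retraction of the
disc onto the circle, by lifting through the exponential map).
-/

set_option autoImplicit false

open Set Filter Topology Metric unitInterval

namespace RotJ

/-- the direction of the values of a map without zeros -/
private noncomputable def dirMap (F : ℂ → ℂ) (hF : Continuous F) (h0 : ∀ z, F z ≠ 0) : C(ℂ, Circle) where
  toFun z := ⟨F z / (‖F z‖ : ℂ), mem_sphere_zero_iff_norm.2 (by simp [norm_ne_zero_iff.2 (h0 z)])⟩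
  continuous_toFun := by
    refine Continuous.subtype_mk ?_ _
    exact hF.div (Complex.continuous_ofReal.comp hF.norm) fun z => by
      simpa using h0 z

private theorem coe_dirMap {F : ℂ → ℂ} (hF : Continuous F) (h0 : ∀ z, F z ≠ 0) (z : ℂ) :
    ((dirMap F hF h0 z : Circle) : ℂ) = F z / (‖F z‖ : ℂ) := rfl

/-- **No retraction**: a map of the plane without zeros is not the identity on a circle around 0. -/
theorem no_retr {F : ℂ → ℂ} (hF : Continuous F) {R : ℝ} (hR : 0 < R) (h0 : ∀ z, F z ≠ 0)
    (h2 : ∀ z, ‖z‖ = R → F z = z) : False := by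
  have cov := Circle.isCoveringMap_exp
  let G : C(ℂ, Circle) := dirMap F hF h0
  let L : C(I × I, ℂ) := ⟨fun x => ((x.1 : ℝ) * R : ℝ) * Complex.exp ((2 * Real.pi * (x.2 : ℝ) : ℝ) * Complex.I),
    by fun_prop⟩
  let H : C(I × I, Circle) := G.comp L
  obtain ⟨c, hc⟩ : ∃ c : ℝ, Circle.exp c = G 0 := by
    refine ⟨Complex.arg (G 0), ?_⟩
    exact Circle.exp_arg (G 0)
  have H0 : ∀ a : I, H (0, a) = Circle.exp ((ContinuousMap.const I c) a) := by
    intro a
    have : L (0, a) = 0 := by simp [L]
    simp only [H, ContinuousMap.comp_apply, this, ContinuousMap.const_apply, hc]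
  let T : C(I × I, ℝ) := cov.liftHomotopy H (ContinuousMap.const I c) H0
  have hT : ∀ x, Circle.exp (T x) = H x := fun x => congrFun (cov.liftHomotopy_lifts H _ H0) x
  have h01 : T (1, 0) = T (1, 1) := by
    have e : (H.comp <| (ContinuousMap.id I).prodMk <| .const I (0 : I)) =
        (H.comp <| (ContinuousMap.id I).prodMk <| .const I (1 : I)) := by
      ext1 t
      change G (L (t, 0)) = G (L (t, 1))
      congr 1
      simp [L, Complex.exp_two_pi_mul_I]
    simp only [T, IsCoveringMap.liftHomotopy_apply, ContinuousMap.const_apply]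
    congr 2
  have h1 : ∀ s : I, H (1, s) = Circle.exp (2 * Real.pi * (s : ℝ)) := by
    intro s
    apply Circle.coe_injective
    have hn : ‖L (1, s)‖ = R := by
      simp only [L, ContinuousMap.coe_mk, norm_mul, Complex.norm_exp_ofReal_mul_I, mul_one, Complex.norm_real]
      simp [abs_of_pos hR]
    have hv : F (L (1, s)) = L (1, s) := h2 _ hn
    change F (L (1, s)) / (‖F (L (1, s))‖ : ℂ) = _
    rw [hv, hn, Circle.coe_exp]
    have hR' : (R : ℂ) ≠ 0 := by exact_mod_cast hR.ne'
    simp only [L, ContinuousMap.coe_mk]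
    field_simp
    simp
  have key : (fun s : I => T (1, s)) = fun s : I => 2 * Real.pi * (s : ℝ) + T (1, 0) := by
    refine cov.eq_of_comp_eq (by fun_prop) (by fun_prop) ?_ 0 (by simp)
    funext s
    simp only [Function.comp_apply, hT, h1, Circle.exp_add]
    simp
  have := congrFun key 1
  simp only [Icc.coe_one, mul_one] at this
  rw [← h01] at this
  have := Real.pi_pos
  linarith

/-- an arc is a retract of the plane -/
private theorem retr_arc (α : C(I, ℂ)) (h : Function.Injective α) :
    ∃ r : C(ℂ, ℂ), (∀ z, r z ∈ range α) ∧ ∀ z ∈ range α, r z = z := by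
  have he : IsClosedEmbedding α := α.continuous.isClosedEmbedding h
  obtain ⟨g, hg, hgf⟩ := ContinuousMap.exists_extension_forall_mem_of_isClosedEmbedding
    (⟨fun t : I => (t : ℝ), by fun_prop⟩ : C(I, ℝ)) (t := Icc 0 1) (fun t => t.2) ⟨0, by simp⟩ he
  refine ⟨⟨fun z => α ⟨g z, hg z⟩, by fun_prop⟩, fun z => ⟨_, rfl⟩, ?_⟩
  rintro z ⟨t, rfl⟩
  have e : g (α t) = (t : ℝ) := congrFun hgf t
  simp only [ContinuousMap.coe_mk, e]

/-- the components of the complement of an arc are not bounded -/
private theorem unbdd (α : C(I, ℂ)) (h : Function.Injective α) {p : ℂ} (hp : p ∉ range α) (R : ℝ) :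
    ∃ z ∈ connectedComponentIn (range α)ᶜ p, R < ‖z‖ := by
  classical
  by_contra hcon
  push Not at hcon
  obtain ⟨r, hr, hrr⟩ := retr_arc α h
  have hA : IsClosed (range α) := (isCompact_range α.continuous).isClosed
  set U := connectedComponentIn (range α)ᶜ p with hU
  have hUo : IsOpen U := hA.isOpen_compl.connectedComponentIn
  have hpU : p ∈ U := mem_connectedComponentIn hp
  have hUA : U ⊆ (range α)ᶜ := connectedComponentIn_subset _ _
  have hfr : ∀ a ∈ frontier {z | z ∈ U}, r a = a := by
    intro a ha
    apply hrr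
    by_contra hn
    have h1 : a ∈ closure U := frontier_subset_closure ha
    have h2 : insert a U ⊆ U := by
      refine IsPreconnected.subset_connectedComponentIn ?_ (mem_insert_of_mem _ hpU) ?_
      · exact isPreconnected_connectedComponentIn.subset_closure (subset_insert _ _)
          (insert_subset h1 subset_closure)
      · exact insert_subset hn hUA
    have h3 : a ∈ U := h2 (mem_insert _ _)
    have h4 : a ∉ interior U := ha.2
    rw [hUo.interior_eq] at h4
    exact h4 h3
  let F : ℂ → ℂ := fun z => if z ∈ U then r z else z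
  have hF : Continuous F := Continuous.if hfr r.continuous continuous_id
  have hFp : ∀ z, F z ≠ p := by
    intro z hz
    by_cases hzU : z ∈ U
    · have e : F z = r z := if_pos hzU
      rw [e] at hz
      exact hp (hz ▸ hr z)
    · have e : F z = z := if_neg hzU
      rw [e] at hz
      exact hzU (hz ▸ hpU)
  have hR : 0 < |R| + ‖p‖ + 1 := by positivity
  refine no_retr (F := fun z => F (z + p) - p) (by fun_prop) hR (fun z => sub_ne_zero.2 (hFp _)) ?_
  intro z hz
  have hzU : z + p ∉ U := by
    intro hzU
    have h1 := hcon _ hzU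
    have h2 : ‖z‖ ≤ ‖z + p‖ + ‖p‖ := by
      have := norm_sub_le (z + p) p
      simpa using this
    have := le_abs_self R
    linarith
  change F (z + p) - p = z
  have e : F (z + p) = z + p := if_neg hzU
  rw [e]
  ring

private theorem out_conn {R : ℝ} (hR : 0 ≤ R) : IsPreconnected {z : ℂ | R < ‖z‖} := by
  have h1 : IsPreconnected (sphere (0 : ℂ) 1) :=
    isPreconnected_sphere (by rw [Complex.rank_real_complex]; exact Nat.one_lt_ofNat) 0 1
  have h2 : IsPreconnected (Ioi R ×ˢ sphere (0 : ℂ) 1) := isPreconnected_Ioi.prod h1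
  have h3 := h2.image (fun x : ℝ × ℂ => (x.1 : ℂ) * x.2) (by fun_prop)
  convert h3 using 1
  ext z
  simp only [mem_ofPred_eq, mem_image, mem_prod, mem_Ioi, mem_sphere_iff_norm, sub_zero, Prod.exists]
  constructor
  · intro hz
    have hz0 : z ≠ 0 := by
      rintro rfl
      simp at hz
      linarith
    refine ⟨‖z‖, z / ‖z‖, ⟨hz, by simp [hz0]⟩, ?_⟩
    have : (‖z‖ : ℂ) ≠ 0 := by simpa using hz0
    field_simp
  · rintro ⟨a, b, ⟨h1, h2⟩, rfl⟩
    rw [norm_mul, h2, mul_one, Complex.norm_real, Real.norm_eq_abs]
    exact h1.trans_le (le_abs_self a)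

/-- **An arc does not separate the plane.** -/
theorem arc_compl (α : C(I, ℂ)) (h : Function.Injective α) : IsConnected (range α)ᶜ := by
  have hb : Bornology.IsBounded (range α) := (isCompact_range α.continuous).isBounded
  obtain ⟨R, hR⟩ := hb.subset_closedBall 0
  have hR0 : 0 ≤ R := by
    have := hR ⟨0, rfl⟩
    rw [mem_closedBall, dist_zero_right] at this
    exact (norm_nonneg _).trans this
  have hV : {z : ℂ | R < ‖z‖} ⊆ (range α)ᶜ := by
    intro z hz hzA
    have := hR hzA
    rw [mem_closedBall, dist_zero_right] at this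
    exact absurd this (not_le.2 hz)
  have hv : ((R + 1 : ℝ) : ℂ) ∈ {z : ℂ | R < ‖z‖} := by
    rw [mem_ofPred_eq, Complex.norm_real, Real.norm_eq_abs, abs_of_nonneg (by linarith)]
    linarith
  refine ⟨⟨_, hV hv⟩, isPreconnected_of_forall ((R + 1 : ℝ) : ℂ) fun y hy => ?_⟩
  obtain ⟨z, hz, hzR⟩ := unbdd α h hy R
  refine ⟨connectedComponentIn (range α)ᶜ y, connectedComponentIn_subset _ _, ?_,
    mem_connectedComponentIn hy, isPreconnected_connectedComponentIn⟩
  have h1 := (out_conn hR0).subset_connectedComponentIn hzR hV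
  rw [connectedComponentIn_eq hz]
  exact h1 hv

end RotJ
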