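import Pool.Agent.HexPoly.Rho
import Pool.Agent.EXL.FinalPre
import Pool.Agent.EXL.GlFin
import Pool.Agent.Ex.P2Main

/-!
# ROT, statics (helper59): the pairs of disjoint bridges with adjacent tops, the gap of the feet from below

`t2 T n`: pairs of disjoint bridges of height `T`, feet at distance `n`, adjacent tops (the half of a polygon below a
level crossed exactly twice, seen from the level). From the inequalities `star_N`, `star2_N` for finitely many explorers: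

* **`arch_pt`** : `c N ^ (3/4) t2 T 1 ≤ t2 T (N + 1) + (1 / T) ∑ n < N, t2 T (n + 1)` for `2 N ≤ T`;
* **`arch_sum`** : `c D ^ (7/4) t2 T 1 ≤ ∑ n < 2 D, t2 T (n + 1)` for `4 D ≤ T`.
-/

set_option autoImplicit false

namespace Pool.Agent.ROT

open Finset HexObs HexObs.Ex

/-- two sided bounds of the bridges -/
theorem bT_two : ∃ C : ℝ, 0 < C ∧ ∀ T : ℕ, 1 ≤ T →
    (T : ℝ) ^ (-(1 / 4) : ℝ) / C ≤ bT T ∧ bT T ≤ C * (T : ℝ) ^ (-(1 / 4) : ℝ) := by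
  obtain ⟨C0, hC0, h0⟩ := Ex.P2.main (fun n => HexObs.bT_nonneg n) (fun _ _ h => Pool.Agent.EXL.bT_anti h)
    (fun _ => rfl) Pool.Agent.EXL.Glue.relE_bT
  exact ⟨C0, hC0, h0⟩

/-- the sum of the bridges of even heights from below -/
lemma VT_low : ∃ c : ℝ, 0 < c ∧ ∀ D : ℕ, 1 ≤ D →
    c * (D : ℝ) ^ (3 / 4 : ℝ) ≤ ∑ r ∈ range D, bT (2 * (r + 1)) ∧
    c * (D : ℝ) ^ (-(1 / 4) : ℝ) ≤ bT (2 * D) := by
  obtain ⟨C, hC, h⟩ := bT_two
  refine ⟨1 / (2 * C), by positivity, fun D hD => ?_⟩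
  have hD0 : (0 : ℝ) < D := by exact_mod_cast hD
  have h1 := (h (2 * D) (by omega)).1
  have h2 : (D : ℝ) ^ (-(1 / 4) : ℝ) / 2 ≤ ((2 * D : ℕ) : ℝ) ^ (-(1 / 4) : ℝ) := by
    push_cast
    rw [Real.mul_rpow (by norm_num) hD0.le]
    have h3 : (1 / 2 : ℝ) ≤ (2 : ℝ) ^ (-(1 / 4) : ℝ) := by
      have : (2 : ℝ) ^ (-1 : ℝ) ≤ (2 : ℝ) ^ (-(1 / 4) : ℝ) :=
        Real.rpow_le_rpow_of_exponent_le (by norm_num) (by norm_num)
      rw [Real.rpow_neg_one] at this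
      linarith
    have h4 : 0 ≤ (D : ℝ) ^ (-(1 / 4) : ℝ) := by positivity
    nlinarith
  have h5 : 1 / (2 * C) * (D : ℝ) ^ (-(1 / 4) : ℝ) ≤ bT (2 * D) := by
    calc 1 / (2 * C) * (D : ℝ) ^ (-(1 / 4) : ℝ) = ((D : ℝ) ^ (-(1 / 4) : ℝ) / 2) / C := by field_simp
      _ ≤ ((2 * D : ℕ) : ℝ) ^ (-(1 / 4) : ℝ) / C := by gcongr
      _ ≤ _ := h1
  refine ⟨?_, h5⟩
  have h6 := Ex.VT_ge hD
  have h7 : (D : ℝ) ^ (3 / 4 : ℝ) = D * (D : ℝ) ^ (-(1 / 4) : ℝ) := by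
    rw [show (3 / 4 : ℝ) = 1 + -(1 / 4) by norm_num, Real.rpow_add hD0, Real.rpow_one]
  have h8 : (D : ℝ) * bT (2 * D) ≤ ∑ r ∈ range D, bT (2 * (r + 1)) := h6
  rw [h7]
  calc 1 / (2 * C) * (D * (D : ℝ) ^ (-(1 / 4) : ℝ)) = D * (1 / (2 * C) * (D : ℝ) ^ (-(1 / 4) : ℝ)) := by ring
    _ ≤ D * bT (2 * D) := by gcongr
    _ ≤ _ := h8

lemma fin_num {c2 C0 T q b z S2 S3 D : ℝ} (hc2 : 0 < c2) (hC0 : 0 < C0) (hT0 : 0 < T) (hq : 0 < q) (hb0 : 0 < b)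
    (hz : 0 ≤ z) (hS2 : 0 ≤ S2) (hD : D ≤ T) (hb : b ≤ C0 * (q * (1 / T)))
    (h : S3 * (c2 * q) ≤ b * S2 + D * b * z) : S3 ≤ (C0 + C0) / c2 * (z + (1 / T) * S2) := by
  have h6 : b * S2 ≤ C0 * (q * (1 / T)) * S2 := mul_le_mul_of_nonneg_right hb hS2
  have h7 : D * b ≤ C0 * q := by
    calc D * b ≤ T * (C0 * (q * (1 / T))) := mul_le_mul hD hb hb0.le hT0.le
      _ = C0 * q * (T * (1 / T)) := by ring
      _ = C0 * q := by rw [mul_one_div_cancel hT0.ne', mul_one]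
  have h8 : D * b * z ≤ C0 * q * z := mul_le_mul_of_nonneg_right h7 hz
  have h9 : 0 ≤ C0 * q * z := by positivity
  have h10 : 0 ≤ C0 * (q * (1 / T)) * S2 := by positivity
  have h11 : q * (S3 * c2) ≤ q * ((C0 + C0) * (z + (1 / T) * S2)) := by
    calc q * (S3 * c2) = S3 * (c2 * q) := by ring
      _ ≤ b * S2 + D * b * z := h
      _ ≤ C0 * (q * (1 / T)) * S2 + C0 * q * z := by linarith
      _ ≤ 2 * (C0 * (q * (1 / T)) * S2) + 2 * (C0 * q * z) := by linarith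
      _ = _ := by ring
  have h12 := le_of_mul_le_mul_left h11 hq
  rw [div_mul_eq_mul_div, le_div_iff₀ hc2]
  exact h12

/-- the sum of the triples from above -/
theorem triples_le : ∃ C : ℝ, 0 < C ∧ ∀ T N : ℕ, 1 ≤ T →
    ∑ n ∈ range N, (t3 T (n + 1) 1).toReal ≤
      C * ((t2 T (N + 1)).toReal + (1 / T) * ∑ n ∈ range N, (t2 T (n + 1)).toReal) := by
  obtain ⟨C0, hC0, hb⟩ := bT_two
  obtain ⟨c1, hc1, hV⟩ := VT_low
  set κ : ℝ := (Real.sqrt 2 - 1) ^ 3 with hκ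
  have hκ0 : 0 < κ := k3_pos
  have hs3 : 0 < Real.sin (3 * Real.pi / 8) := by
    rw [NumP.sin_eq]
    exact W47.cos8_pos
  set s3 : ℝ := Real.sin (3 * Real.pi / 8) with hs3d
  -- the mesh
  set ε : ℝ := min (1 / 2) ((κ * c1 / (2 * C0)) ^ 4) with hε
  have hε0 : 0 < ε := by positivity
  have hε2 : ε ≤ 1 / 2 := min_le_left _ _
  have hε4 : ε ^ (1 / 4 : ℝ) ≤ κ * c1 / (2 * C0) := by
    calc ε ^ (1 / 4 : ℝ) ≤ ((κ * c1 / (2 * C0)) ^ 4) ^ (1 / 4 : ℝ) :=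
          Real.rpow_le_rpow hε0.le (min_le_right _ _) (by norm_num)
      _ = κ * c1 / (2 * C0) := by
          rw [← Real.rpow_natCast, ← Real.rpow_mul (by positivity)]
          norm_num
  set c2 : ℝ := min 1 (κ * c1 / 2) * ε ^ (3 / 4 : ℝ) / 2 with hc2
  have hc20 : 0 < c2 := by positivity
  refine ⟨(C0 + C0) / c2, by positivity, fun T N hT => ?_⟩
  have hT0 : (0 : ℝ) < T := by exact_mod_cast hT
  have hb0 := bT_pos hT
  set D : ℕ := ⌊ε * T⌋₊ with hD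
  have hD1 : (D : ℝ) ≤ ε * T := Nat.floor_le (by positivity)
  have hD2 : ε * T < D + 1 := Nat.lt_floor_add_one _
  have hDT : 2 * D ≤ T := by
    have : (2 * D : ℝ) ≤ T := by nlinarith
    exact_mod_cast this
  have h1 := star_N hT N D
  set S3 := ∑ n ∈ range N, (t3 T (n + 1) 1).toReal with hS3
  set S2 := ∑ n ∈ range N, (t2 T (n + 1)).toReal with hS2
  have hS30 : 0 ≤ S3 := Finset.sum_nonneg fun _ _ => ENNReal.toReal_nonneg
  have hS20 : 0 ≤ S2 := Finset.sum_nonneg fun _ _ => ENNReal.toReal_nonneg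
  have ht0 : 0 ≤ (t2 T (N + 1)).toReal := ENNReal.toReal_nonneg
  have h2 := NumP.tail_ge hT hDT
  set V := ∑ r ∈ range D, bT (2 * (r + 1)) with hVd
  -- the bracket
  have hbr : s3 * (c2 * (T : ℝ) ^ (3 / 4 : ℝ)) ≤
      (1 - 1 / Real.sqrt 2) * ∑ j ∈ range D, (tail T (j + 1)).toReal + s3 * (1 - D * bT T) := by
    have h3 : 2 * (D * bT T) ≤ κ * V := by
      rcases Nat.eq_zero_or_pos D with h0 | hD0
      · have hV0 : V = 0 := by rw [hVd, h0]; simp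
        rw [hV0, h0]
        simp
      · have hDp : (0 : ℝ) < D := by exact_mod_cast hD0
        have h4 : bT T ≤ C0 * (T : ℝ) ^ (-(1 / 4) : ℝ) := (hb T hT).2
        have h5 : (T : ℝ) ^ (-(1 / 4) : ℝ) ≤ ε ^ (1 / 4 : ℝ) * (D : ℝ) ^ (-(1 / 4) : ℝ) := by
          have h6 : ((D : ℝ) / ε) ^ (1 / 4 : ℝ) ≤ (T : ℝ) ^ (1 / 4 : ℝ) := by
            apply Real.rpow_le_rpow (by positivity) _ (by norm_num)
            rw [div_le_iff₀ hε0]
            linarith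
          rw [Real.rpow_neg hT0.le, Real.rpow_neg hDp.le]
          rw [Real.div_rpow hDp.le hε0.le, div_le_iff₀ (by positivity)] at h6
          have hTp : 0 < (T : ℝ) ^ (1 / 4 : ℝ) := by positivity
          have hDpp : 0 < (D : ℝ) ^ (1 / 4 : ℝ) := by positivity
          rw [inv_eq_one_div, div_le_iff₀ hTp, ← div_eq_mul_inv, div_mul_eq_mul_div, le_div_iff₀ hDpp]
          linarith
        have h7 := (hV D hD0).1
        have h8 : (D : ℝ) ^ (3 / 4 : ℝ) = D * (D : ℝ) ^ (-(1 / 4) : ℝ) := by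
          rw [show (3 / 4 : ℝ) = 1 + -(1 / 4) by norm_num, Real.rpow_add hDp, Real.rpow_one]
        rw [h8] at h7
        have hDq : 0 ≤ (D : ℝ) ^ (-(1 / 4) : ℝ) := by positivity
        calc 2 * (D * bT T) ≤ 2 * (D * (C0 * (ε ^ (1 / 4 : ℝ) * (D : ℝ) ^ (-(1 / 4) : ℝ)))) := by
              gcongr
              exact h4.trans (by gcongr)
          _ ≤ 2 * (D * (C0 * (κ * c1 / (2 * C0) * (D : ℝ) ^ (-(1 / 4) : ℝ)))) := by gcongr
          _ = κ * (c1 * (D * (D : ℝ) ^ (-(1 / 4) : ℝ))) := by field_simp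
          _ ≤ κ * V := by gcongr
    have h4 : s3 * (1 + κ * V / 2) ≤
        (1 - 1 / Real.sqrt 2) * ∑ j ∈ range D, (tail T (j + 1)).toReal + s3 * (1 - D * bT T) := by
      have h5 : s3 * (D * bT T) ≤ s3 * (κ * V / 2) := by
        apply mul_le_mul_of_nonneg_left _ hs3.le
        linarith
      have h6 : s3 * (κ * V) ≤ (1 - 1 / Real.sqrt 2) * ∑ j ∈ range D, (tail T (j + 1)).toReal := h2
      nlinarith
    refine le_trans ?_ h4
    apply mul_le_mul_of_nonneg_left _ hs3.le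
    -- 1 + κ V / 2 ≥ c2 T^(3/4)
    have h5 : min 1 (κ * c1 / 2) * (D : ℝ) ^ (3 / 4 : ℝ) ≤ κ * V / 2 := by
      rcases Nat.eq_zero_or_pos D with h0 | hD0
      · have hV0 : V = 0 := by rw [hVd, h0]; simp
        rw [hV0, h0, Nat.cast_zero, Real.zero_rpow (by norm_num)]
        simp
      · calc min 1 (κ * c1 / 2) * (D : ℝ) ^ (3 / 4 : ℝ) ≤ κ * c1 / 2 * (D : ℝ) ^ (3 / 4 : ℝ) := by
              gcongr
              exact min_le_right _ _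
          _ = κ / 2 * (c1 * (D : ℝ) ^ (3 / 4 : ℝ)) := by ring
          _ ≤ κ / 2 * V := by
              gcongr
              exact (hV D hD0).1
          _ = κ * V / 2 := by ring
    have h6 : (ε * T) ^ (3 / 4 : ℝ) ≤ 2 * (1 + (D : ℝ) ^ (3 / 4 : ℝ)) := by
      rcases le_or_gt (D : ℝ) 1 with h7 | h7
      · have h8 : (ε * T) ^ (3 / 4 : ℝ) ≤ 2 ^ (3 / 4 : ℝ) :=
          Real.rpow_le_rpow (by positivity) (by linarith) (by norm_num)
        have h9 : (2 : ℝ) ^ (3 / 4 : ℝ) ≤ 2 ^ (1 : ℝ) := Real.rpow_le_rpow_of_exponent_le (by norm_num) (by norm_num)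
        rw [Real.rpow_one] at h9
        have h10 : 0 ≤ (D : ℝ) ^ (3 / 4 : ℝ) := by positivity
        linarith
      · have hDp : (0 : ℝ) < D := by linarith
        have h8 : (ε * T) ^ (3 / 4 : ℝ) ≤ (2 * D) ^ (3 / 4 : ℝ) :=
          Real.rpow_le_rpow (by positivity) (by linarith) (by norm_num)
        rw [Real.mul_rpow (by norm_num) hDp.le] at h8
        have h9 : (2 : ℝ) ^ (3 / 4 : ℝ) ≤ 2 ^ (1 : ℝ) := Real.rpow_le_rpow_of_exponent_le (by norm_num) (by norm_num)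
        rw [Real.rpow_one] at h9
        have h10 : 0 ≤ (D : ℝ) ^ (3 / 4 : ℝ) := by positivity
        nlinarith
    have h7 : c2 * (T : ℝ) ^ (3 / 4 : ℝ) = min 1 (κ * c1 / 2) * ((ε * T) ^ (3 / 4 : ℝ) / 2) := by
      rw [hc2, Real.mul_rpow hε0.le hT0.le]
      ring
    rw [h7]
    have h8 : 0 < min 1 (κ * c1 / 2) := by positivity
    have h9 : min 1 (κ * c1 / 2) ≤ 1 := min_le_left _ _
    calc min 1 (κ * c1 / 2) * ((ε * T) ^ (3 / 4 : ℝ) / 2) ≤ min 1 (κ * c1 / 2) * (1 + (D : ℝ) ^ (3 / 4 : ℝ)) := by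
          apply mul_le_mul_of_nonneg_left _ h8.le
          linarith
      _ = min 1 (κ * c1 / 2) + min 1 (κ * c1 / 2) * (D : ℝ) ^ (3 / 4 : ℝ) := by ring
      _ ≤ 1 + κ * V / 2 := by linarith
  -- the end
  have h3 : S3 * (s3 * (c2 * (T : ℝ) ^ (3 / 4 : ℝ))) ≤
      s3 * (bT T * S2) + D * bT T * (s3 * (t2 T (N + 1)).toReal) :=
    (mul_le_mul_of_nonneg_left hbr hS30).trans h1
  have h4 : S3 * (c2 * (T : ℝ) ^ (3 / 4 : ℝ)) ≤ bT T * S2 + D * bT T * (t2 T (N + 1)).toReal := by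
    have h5 : s3 * (S3 * (c2 * (T : ℝ) ^ (3 / 4 : ℝ))) ≤
        s3 * (bT T * S2 + D * bT T * (t2 T (N + 1)).toReal) := by
      calc _ = S3 * (s3 * (c2 * (T : ℝ) ^ (3 / 4 : ℝ))) := by ring
        _ ≤ _ := h3
        _ = _ := by ring
    exact le_of_mul_le_mul_left h5 hs3
  have hTq : (0 : ℝ) < (T : ℝ) ^ (3 / 4 : ℝ) := by positivity
  have hTr : (T : ℝ) ^ (-(1 / 4) : ℝ) = (T : ℝ) ^ (3 / 4 : ℝ) * (1 / T) := by
    rw [show (-(1 / 4) : ℝ) = 3 / 4 - 1 by norm_num, Real.rpow_sub hT0, Real.rpow_one]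
    ring
  have hb2 : bT T ≤ C0 * ((T : ℝ) ^ (3 / 4 : ℝ) * (1 / T)) := by rw [← hTr]; exact (hb T hT).2
  have hD3 : (D : ℝ) ≤ T := by nlinarith
  obtain ⟨b, hbd⟩ : ∃ b : ℝ, b = bT T := ⟨_, rfl⟩
  obtain ⟨z, hz⟩ : ∃ z : ℝ, z = (t2 T (N + 1)).toReal := ⟨_, rfl⟩
  obtain ⟨q, hq⟩ : ∃ q : ℝ, q = (T : ℝ) ^ (3 / 4 : ℝ) := ⟨_, rfl⟩
  rw [← hbd, ← hz, ← hq] at h4
  rw [← hbd, ← hq] at hb2
  rw [← hbd] at hb0
  rw [← hz] at ht0
  rw [← hq] at hTq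
  rw [← hz]
  exact fin_num hc20 hC0 hT0 hTq hb0 ht0 hS20 hD3 hb2 h4

/-- **the lower bound, pointwise** -/
theorem arch_pt : ∃ c : ℝ, 0 < c ∧ ∀ T N : ℕ, 1 ≤ N → 2 * N ≤ T →
    c * (N : ℝ) ^ (3 / 4 : ℝ) * (t2 T 1).toReal ≤
      (t2 T (N + 1)).toReal + (1 / T) * ∑ n ∈ range N, (t2 T (n + 1)).toReal := by
  obtain ⟨C, hC, hS⟩ := triples_le
  obtain ⟨c1, hc1, hV⟩ := VT_low
  set κ : ℝ := (Real.sqrt 2 - 1) ^ 3 with hκ
  have hκ0 : 0 < κ := k3_pos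
  have hs3 : 0 < Real.sin (3 * Real.pi / 8) := by
    rw [NumP.sin_eq]
    exact W47.cos8_pos
  set s3 : ℝ := Real.sin (3 * Real.pi / 8) with hs3d
  refine ⟨κ * c1 / (1 + C), by positivity, fun T N hN hNT => ?_⟩
  have hT : 1 ≤ T := by omega
  have hT0 : (0 : ℝ) < T := by exact_mod_cast hT
  have h1 := star2_N hT N
  have h2 := hS T N hT
  have h3 := NumP.tail_ge hT hNT
  have h4 := (hV N hN).1
  set S3 := ∑ n ∈ range N, (t3 T (n + 1) 1).toReal with hS3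
  set S2 := ∑ n ∈ range N, (t2 T (n + 1)).toReal with hS2
  have hr0 : 0 ≤ (t2 T 1).toReal := ENNReal.toReal_nonneg
  have hS20 : 0 ≤ S2 := Finset.sum_nonneg fun _ _ => ENNReal.toReal_nonneg
  have ht0 : 0 ≤ (t2 T (N + 1)).toReal := ENNReal.toReal_nonneg
  have h5 : (t2 T 1).toReal * (s3 * (κ * (c1 * (N : ℝ) ^ (3 / 4 : ℝ)))) ≤
      s3 * ((t2 T (N + 1)).toReal + S3) := by
    refine le_trans ?_ h1
    apply mul_le_mul_of_nonneg_left _ hr0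
    have h6 : s3 * (κ * (c1 * (N : ℝ) ^ (3 / 4 : ℝ))) ≤
        s3 * (κ * ∑ r ∈ range N, bT (2 * (r + 1))) := by gcongr
    have h7 : s3 * (κ * ∑ r ∈ range N, bT (2 * (r + 1))) ≤
        (1 - 1 / Real.sqrt 2) * ∑ j ∈ range N, (tail T (j + 1)).toReal := h3
    linarith
  have h6 : (t2 T 1).toReal * (κ * (c1 * (N : ℝ) ^ (3 / 4 : ℝ))) ≤ (t2 T (N + 1)).toReal + S3 := by
    have h7 : s3 * ((t2 T 1).toReal * (κ * (c1 * (N : ℝ) ^ (3 / 4 : ℝ)))) ≤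
        s3 * ((t2 T (N + 1)).toReal + S3) := by
      calc _ = (t2 T 1).toReal * (s3 * (κ * (c1 * (N : ℝ) ^ (3 / 4 : ℝ)))) := by ring
        _ ≤ _ := h5
    exact le_of_mul_le_mul_left h7 hs3
  have h8 : (t2 T (N + 1)).toReal + S3 ≤ (1 + C) * ((t2 T (N + 1)).toReal + (1 / T) * S2) := by
    have h9 : 0 ≤ (1 / T : ℝ) * S2 := mul_nonneg (by positivity) hS20
    calc (t2 T (N + 1)).toReal + S3 ≤ (t2 T (N + 1)).toReal + C * ((t2 T (N + 1)).toReal + (1 / T) * S2) := by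
          linarith
      _ ≤ ((t2 T (N + 1)).toReal + (1 / T) * S2) + C * ((t2 T (N + 1)).toReal + (1 / T) * S2) := by linarith
      _ = _ := by ring
  calc κ * c1 / (1 + C) * (N : ℝ) ^ (3 / 4 : ℝ) * (t2 T 1).toReal
      = ((t2 T 1).toReal * (κ * (c1 * (N : ℝ) ^ (3 / 4 : ℝ)))) / (1 + C) := by ring
    _ ≤ ((1 + C) * ((t2 T (N + 1)).toReal + (1 / T) * S2)) / (1 + C) :=
        div_le_div_of_nonneg_right (h6.trans h8) (by linarith)
    _ = _ := mul_div_cancel_left₀ _ (by positivity)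

/-- **the lower bound, in the mean** -/
theorem arch_sum : ∃ c : ℝ, 0 < c ∧ ∀ T D : ℕ, 1 ≤ D → 4 * D ≤ T →
    c * (D : ℝ) ^ (7 / 4 : ℝ) * (t2 T 1).toReal ≤ ∑ n ∈ range (2 * D), (t2 T (n + 1)).toReal := by
  obtain ⟨c, hc, h⟩ := arch_pt
  refine ⟨c / 2, by positivity, fun T D hD hDT => ?_⟩
  have hD0 : (0 : ℝ) < D := by exact_mod_cast hD
  have hT0 : (0 : ℝ) < T := by exact_mod_cast (by omega : 1 ≤ T)
  have hr0 : 0 ≤ (t2 T 1).toReal := ENNReal.toReal_nonneg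
  set S := ∑ n ∈ range (2 * D), (t2 T (n + 1)).toReal with hS
  have hS0 : 0 ≤ S := Finset.sum_nonneg fun _ _ => ENNReal.toReal_nonneg
  have h1 : ∀ N ∈ Finset.Ico D (2 * D), c * (D : ℝ) ^ (3 / 4 : ℝ) * (t2 T 1).toReal ≤
      (t2 T (N + 1)).toReal + (1 / T) * S := by
    intro N hN
    rw [Finset.mem_Ico] at hN
    have h2 := h T N (by omega) (by omega)
    have h3 : (D : ℝ) ^ (3 / 4 : ℝ) ≤ (N : ℝ) ^ (3 / 4 : ℝ) :=
      Real.rpow_le_rpow hD0.le (by exact_mod_cast hN.1) (by norm_num)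
    have h4 : ∑ n ∈ range N, (t2 T (n + 1)).toReal ≤ S :=
      Finset.sum_le_sum_of_subset_of_nonneg (Finset.range_mono hN.2.le) (fun _ _ _ => ENNReal.toReal_nonneg)
    calc c * (D : ℝ) ^ (3 / 4 : ℝ) * (t2 T 1).toReal ≤ c * (N : ℝ) ^ (3 / 4 : ℝ) * (t2 T 1).toReal := by gcongr
      _ ≤ _ := h2
      _ ≤ _ := by gcongr
  have h2 := Finset.sum_le_sum h1
  rw [Finset.sum_const, Nat.card_Ico, nsmul_eq_mul, Finset.sum_add_distrib, Finset.sum_const, Nat.card_Ico,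
    nsmul_eq_mul] at h2
  have e1 : ((2 * D - D : ℕ) : ℝ) = D := by
    have : 2 * D - D = D := by omega
    rw [this]
  rw [e1] at h2
  have h3 : ∑ N ∈ Finset.Ico D (2 * D), (t2 T (N + 1)).toReal ≤ S := by
    apply Finset.sum_le_sum_of_subset_of_nonneg _ (fun _ _ _ => ENNReal.toReal_nonneg)
    intro n hn
    rw [Finset.mem_Ico] at hn
    rw [Finset.mem_range]
    omega
  have h4 : (D : ℝ) * (1 / T * S) ≤ S := by
    have h5 : (D : ℝ) ≤ T := by exact_mod_cast (by omega : D ≤ T)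
    calc (D : ℝ) * (1 / T * S) = (D / T) * S := by ring
      _ ≤ 1 * S := by
          apply mul_le_mul_of_nonneg_right _ hS0
          rw [div_le_one hT0]
          exact h5
      _ = S := one_mul _
  have h5 : (D : ℝ) ^ (7 / 4 : ℝ) = D * (D : ℝ) ^ (3 / 4 : ℝ) := by
    rw [show (7 / 4 : ℝ) = 1 + 3 / 4 by norm_num, Real.rpow_add hD0, Real.rpow_one]
  rw [h5]
  calc c / 2 * (D * (D : ℝ) ^ (3 / 4 : ℝ)) * (t2 T 1).toReal
      = (D * (c * (D : ℝ) ^ (3 / 4 : ℝ) * (t2 T 1).toReal)) / 2 := by ring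
    _ ≤ (S + S) / 2 := by
        gcongr
        linarith
    _ = S := by ring

end Pool.Agent.ROT
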