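import Pool.Agent.ROT.PTail

/-!
# ROT, row N2 (helper81): the windows of a closed word

* `base_tail`, **`win_tail`** : the first `c ml i` letters of a closed word leave the ball of radius `2 ^ (i + 2 m + 3)` with
  mass at most `A 2 ^ (- 5 m) n ^ (- 3 / 2)`, for all `m`.
-/

set_option autoImplicit false

namespace HexObs

namespace PMA

namespace Area

open Finset TS SDN HexObs.SIM NTA TIP ARM ARM.T2

open scoped ENNReal

lemma FR_mono {D D' : ℤ} {x x' : ℝ} {n : ℕ} (hD : D' ≤ D) (hx : x ≤ x') : FR D x n ⊆ FR D' x' n := by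
  rintro L ⟨h1, k, h2, h3, h4⟩
  exact ⟨h1, k, h2, h3.trans hx, hD.trans h4⟩

/-- from `root_pow` -/
lemma base_tail : ∃ (A c : ℝ) (J b0 : ℕ), 0 < A ∧ 0 < c ∧ c ≤ 1 ∧ ∀ n i m : ℕ, 1 ≤ n → b0 ≤ i → J ≤ m →
    ml (i + 3 * m) ≤ n →
      gf (FR (2 ^ (i + 2 * m + 3)) (c * ml i) n) ≤ ENNReal.ofReal (A * (1 / 2) ^ (45 * m) * (n : ℝ) ^ (-(3 / 2) : ℝ)) := by
  obtain ⟨κ, C, s, hB, hN, hE⟩ := rows_all ARM.t1
  obtain ⟨A1, J0, b0, hA1, h⟩ := root_pow hB hN hE 45 45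
  obtain ⟨c1, hc1, hlow⟩ := VF.mLow VF.sharpZ
  refine ⟨2 * A1, min (c1 / 16) 1, J0, b0 + 2, by positivity, by positivity, min_le_right _ _, fun n i m hn hi hm hml => ?_⟩
  have hn0 : (0 : ℝ) < n := by exact_mod_cast hn
  obtain ⟨d, rfl⟩ : ∃ d, i = d + 2 := ⟨i - 2, by omega⟩
  have h1 := h n (d + 2 + m) m hn (by omega) hm
  have hd := ml_pos d
  have hmm := ml_pos m
  have h2m : (2 : ℝ) ^ m ≤ ml m := ml_ge_two m
  have hx : min (c1 / 16) 1 * ml (d + 2) ≤ (1 / 2) ^ m * PW.mZ (2 ^ (d + 2 + m - 2)) := by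
    have h3 := hlow (d + 2 + m - 2)
    have h5 : (2 : ℝ) ^ (4 / 3 * ((d + 2 + m - 2 : ℕ) : ℝ)) = ml (d + 2 + m - 2) := rfl
    rw [h5, show d + 2 + m - 2 = d + m by omega, ml_add] at h3
    rw [show d + 2 + m - 2 = d + m by omega]
    have h6 : ml (d + 2) ≤ 16 * ml d := by
      rw [ml_add, mul_comm]
      refine mul_le_mul_of_nonneg_right ?_ hd.le
      have := ml_le_four 2
      norm_num at this
      exact this
    have h7 : min (c1 / 16) 1 ≤ c1 / 16 := min_le_left _ _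
    have h8 : min (c1 / 16) 1 * ml (d + 2) ≤ c1 / 16 * (16 * ml d) :=
      mul_le_mul h7 h6 (ml_pos _).le (by positivity)
    have h9 : c1 * ml d ≤ (1 / 2) ^ m * (c1 * (ml d * ml m)) := by
      have e : (1 / 2 : ℝ) ^ m * (c1 * (ml d * ml m)) = c1 * ml d * ((1 / 2) ^ m * ml m) := by ring
      rw [e]
      have h10 : 1 ≤ (1 / 2 : ℝ) ^ m * ml m := by
        calc (1 : ℝ) = (1 / 2) ^ m * 2 ^ m := by rw [← mul_pow]; norm_num
          _ ≤ _ := by gcongr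
      exact le_mul_of_one_le_right (by positivity) h10
    calc min (c1 / 16) 1 * ml (d + 2) ≤ c1 * ml d := by linarith
      _ ≤ _ := h9
      _ ≤ _ := mul_le_mul_of_nonneg_left h3 (by positivity)
  have hsub : FR (2 ^ (d + 2 + 2 * m + 3)) (min (c1 / 16) 1 * ml (d + 2)) n ⊆
      FR (2 ^ (d + 2 + m + m + 3)) ((1 / 2) ^ m * PW.mZ (2 ^ (d + 2 + m - 2))) n := by
    rw [show d + 2 + m + m + 3 = d + 2 + 2 * m + 3 by ring]
    exact FR_mono le_rfl hx
  refine (gf_mono hsub).trans (h1.trans (ENNReal.ofReal_le_ofReal ?_))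
  have h3 : ml (d + 2 + m + m) / n ≤ (1 / 2) ^ m := by
    rw [div_le_iff₀ hn0]
    have h4 : ml (d + 2 + 3 * m) = ml (d + 2 + m + m) * ml m := by
      rw [← ml_add]
      congr 1
      ring
    rw [h4] at hml
    have h5 : ml (d + 2 + m + m) * 2 ^ m ≤ n := (mul_le_mul_of_nonneg_left h2m (ml_pos _).le).trans hml
    calc ml (d + 2 + m + m) = (1 / 2) ^ m * (ml (d + 2 + m + m) * 2 ^ m) := by
          rw [mul_comm (ml _) (2 ^ m), ← mul_assoc, ← mul_pow]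
          norm_num
      _ ≤ _ := by gcongr
  have h4 : (ml (d + 2 + m + m) / n) ^ 45 ≤ (1 / 2 : ℝ) ^ (45 * m) := by
    rw [mul_comm 45 m, pow_mul]
    exact pow_le_pow_left₀ (div_nonneg (ml_pos _).le hn0.le) h3 45
  have h5 : 0 ≤ (n : ℝ) ^ (-(3 / 2) : ℝ) := by positivity
  refine mul_le_mul_of_nonneg_right ?_ h5
  calc A1 * ((1 / 2) ^ (45 * m) + (ml (d + 2 + m + m) / n) ^ 45) ≤ A1 * ((1 / 2) ^ (45 * m) + (1 / 2) ^ (45 * m)) := by gcongr
    _ = _ := by ring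

/-- **the windows**: all radii -/
theorem win_tail : ∃ (A c : ℝ) (J b0 : ℕ), 0 < A ∧ 0 < c ∧ c ≤ 1 ∧ ∀ n i m : ℕ, b0 ≤ i → J ≤ m →
    ml i ≤ n →
      gf (FR (2 ^ (i + 2 * m + 3)) (c * ml i) n) ≤ ENNReal.ofReal (A * (1 / 2) ^ (5 * m) * (n : ℝ) ^ (-(3 / 2) : ℝ)) := by
  obtain ⟨A1, c, J, b0, hA1, hc, hc1, hb⟩ := base_tail
  obtain ⟨A2, n0, hA2, ht⟩ := pol_tail 3
  obtain ⟨A3, hA3, hm0⟩ := S2.c0_mass
  refine ⟨A1 * 2 ^ 45 + A2 + A3 * 2 ^ (45 * J), c, J, b0 + n0, by positivity, hc, hc1, fun n i m hi hm hn => ?_⟩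
  have hmi := ml_pos i
  have hn0 : (0 : ℝ) < n := lt_of_lt_of_le hmi hn
  have hn1 : 1 ≤ n := by
    have : 0 < n := by exact_mod_cast hn0
    omega
  have hnn : n0 ≤ n := by
    have h1 : (n0 : ℝ) ≤ n := by
      calc (n0 : ℝ) ≤ (2 : ℝ) ^ n0 := by exact_mod_cast Nat.lt_two_pow_self.le
        _ ≤ 2 ^ i := pow_le_pow_right₀ (by norm_num) (by omega)
        _ ≤ ml i := ml_ge_two i
        _ ≤ n := hn
    exact_mod_cast h1
  obtain ⟨ν, hν⟩ : ∃ ν : ℝ, ν = (n : ℝ) ^ (-(3 / 2) : ℝ) := ⟨_, rfl⟩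
  have hν0 : 0 ≤ ν := by rw [hν]; positivity
  rw [← hν]
  -- the scale of n
  have hex : ∃ s, (n : ℝ) < ml (i + 3 * s) := by
    refine ⟨n, ?_⟩
    calc (n : ℝ) < 2 ^ n := by exact_mod_cast Nat.lt_two_pow_self
      _ ≤ 2 ^ (i + 3 * n) := pow_le_pow_right₀ (by norm_num) (by omega)
      _ ≤ _ := ml_ge_two _
  classical
  obtain ⟨s', hs'⟩ : ∃ s', s' = Nat.find hex := ⟨_, rfl⟩
  have hs1 : (n : ℝ) < ml (i + 3 * s') := by rw [hs']; exact Nat.find_spec hex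
  have hs2 : ∀ k, k < s' → ml (i + 3 * k) ≤ n := fun k hk => by
    rw [hs'] at hk
    exact not_lt.1 (Nat.find_min hex hk)
  have hs0 : s' ≠ 0 := by
    rintro h0
    rw [h0, mul_zero, add_zero] at hs1
    exact absurd hn (not_le.2 hs1)
  obtain ⟨s, rfl⟩ : ∃ s, s' = s + 1 := ⟨s' - 1, by omega⟩
  obtain ⟨g, hg⟩ : ∃ g : ℝ, g = (1 / 2 : ℝ) ^ (5 * m) := ⟨_, rfl⟩
  have hg0 : 0 < g := by rw [hg]; positivity
  have hAg : 0 ≤ A1 * 2 ^ 45 * g * ν := by positivity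
  have hAg2 : 0 ≤ A2 * g * ν := by positivity
  have hAg3 : 0 ≤ A3 * 2 ^ (45 * J) * g * ν := by positivity
  have etot : (A1 * 2 ^ 45 + A2 + A3 * 2 ^ (45 * J)) * g * ν = A1 * 2 ^ 45 * g * ν + A2 * g * ν + A3 * 2 ^ (45 * J) * g * ν := by
    ring
  rcases Nat.lt_or_ge s m with hsm | hsm
  swap
  · -- small radii
    have h1 := hb n i m hn1 (by omega) hm (hs2 m (by omega))
    rw [← hν] at h1
    refine h1.trans (ENNReal.ofReal_le_ofReal ?_)
    rw [← hg, etot]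
    have h2 : (1 / 2 : ℝ) ^ (45 * m) ≤ g := by
      rw [hg]
      exact pow_le_pow_of_le_one (by norm_num) (by norm_num) (by omega)
    have h3 : A1 * (1 / 2) ^ (45 * m) * ν ≤ A1 * 2 ^ 45 * g * ν := by
      refine mul_le_mul_of_nonneg_right ?_ hν0
      have : (1 : ℝ) ≤ 2 ^ 45 := by norm_num
      calc A1 * (1 / 2) ^ (45 * m) ≤ A1 * g := by gcongr
        _ ≤ A1 * 2 ^ 45 * g := by nlinarith [mul_pos hA1 hg0]
    linarith
  rcases Nat.lt_or_ge m (9 * (s + 1)) with hm6 | hm6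
  · rcases Nat.lt_or_ge s J with hsJ | hsJ
    · -- comparable to the whole polygon
      have h1 := hm0 n hn1
      rw [← hν] at h1
      refine (gf_mono fun L hL => hL.1).trans (h1.trans (ENNReal.ofReal_le_ofReal ?_))
      rw [← hg, etot]
      have h2 : 1 ≤ 2 ^ (45 * J) * g := by
        rw [hg]
        calc (1 : ℝ) = 2 ^ (5 * m) * (1 / 2) ^ (5 * m) := by rw [← mul_pow]; norm_num
          _ ≤ 2 ^ (45 * J) * (1 / 2) ^ (5 * m) := by
              refine mul_le_mul_of_nonneg_right (pow_le_pow_right₀ (by norm_num) (by omega)) (by positivity)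
      have h3 : A3 * ν ≤ A3 * 2 ^ (45 * J) * g * ν := by
        refine mul_le_mul_of_nonneg_right ?_ hν0
        rw [mul_assoc]
        exact le_mul_of_one_le_right hA3.le h2
      linarith
    · -- the largest good radius
      have h1 := hb n i s hn1 (by omega) hsJ (hs2 s (by omega))
      rw [← hν] at h1
      refine (gf_mono (FR_mono (pow_le_pow_right₀ (by norm_num) (by omega)) le_rfl)).trans
        (h1.trans (ENNReal.ofReal_le_ofReal ?_))
      rw [← hg, etot]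
      have h2 : (1 / 2 : ℝ) ^ (45 * s) ≤ 2 ^ 45 * g := by
        have e : (1 / 2 : ℝ) ^ (45 * s) = 2 ^ 45 * (1 / 2) ^ (45 * s + 45) := by
          have e0 : (2 : ℝ) ^ 45 * (1 / 2) ^ 45 = 1 := by norm_num
          rw [pow_add (1 / 2 : ℝ)]
          linear_combination (-(1 / 2 : ℝ) ^ (45 * s)) * e0
        rw [e, hg]
        refine mul_le_mul_of_nonneg_left (pow_le_pow_of_le_one (by norm_num) (by norm_num) (by omega)) (by norm_num)
      have h3 : A1 * (1 / 2) ^ (45 * s) * ν ≤ A1 * 2 ^ 45 * g * ν := by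
        refine mul_le_mul_of_nonneg_right ?_ hν0
        rw [mul_assoc]
        gcongr
      linarith
  · -- larger than the polygon
    have h1 : (n : ℝ) ^ (3 / 4 : ℝ) ≤ 2 ^ (i + 3 * (s + 1)) := by
      have h2 := Real.rpow_le_rpow hn0.le hs1.le (show (0 : ℝ) ≤ 3 / 4 by norm_num)
      refine h2.trans (le_of_eq ?_)
      rw [ml_eq, ← Real.rpow_mul (by positivity)]
      norm_num
    have h2 : (2 : ℝ) ^ (i + 3 * (s + 1)) ≤ 2 ^ (i + 2 * m + 3) := pow_le_pow_right₀ (by norm_num) (by omega)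
    have h3 := ht n (2 ^ (i + 2 * m + 3)) hnn (h1.trans h2)
    rw [← hν] at h3
    refine (gf_mono ?_).trans (h3.trans (ENNReal.ofReal_le_ofReal ?_))
    · rintro L ⟨hL, k, hk, -, hD⟩
      refine ⟨hL, k, ?_, ?_⟩
      · rw [(C0_mem hL).2.1] at hk
        exact hk
      · exact_mod_cast hD
    · rw [← hg, etot]
      have h5 : ((n : ℝ) ^ (3 / 4 : ℝ) / 2 ^ (i + 2 * m + 3)) ^ 3 ≤ g := by
        calc ((n : ℝ) ^ (3 / 4 : ℝ) / 2 ^ (i + 2 * m + 3)) ^ 3
            ≤ (2 ^ (i + 3 * (s + 1)) / 2 ^ (i + 2 * m + 3)) ^ 3 := by gcongr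
          _ ≤ g := by
              rw [div_pow, div_le_iff₀ (by positivity), hg, one_div, inv_pow, inv_mul_eq_div, le_div_iff₀ (by positivity),
                ← pow_mul, ← pow_mul, ← pow_add]
              exact pow_le_pow_right₀ (by norm_num) (by omega)
      have h6 : A2 * ((n : ℝ) ^ (3 / 4 : ℝ) / 2 ^ (i + 2 * m + 3)) ^ 3 * ν ≤ A2 * g * ν := by gcongr
      linarith

end Area

end PMA

end HexObs
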