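import Pool.Agent.ROT.AreaA

/-!
# ROT, row N2 (helper81): the number of the points near a closed word, one number of steps

* `ball_card`, `wd_bound` : the points near one window, in terms of the radius of the window;
* **`one_n`** : `n ≥ ml i`: the mean number of the points within `2 ^ i` of a closed word with n letters is at most
  `C (n / ml i) 4 ^ i`, times the mass `n ^ (- 3 / 2)`.
-/

set_option autoImplicit false

namespace HexObs

namespace PMA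

namespace Area

open Finset TS SDN HexObs.SIM NTA TIP ARM ARM.T2

open scoped ENNReal

lemma ball_card (v : Pt) (T : ℕ) : {p : Pt | TIW.hn (v - p) ≤ (T : ℤ)}.Finite ∧
    {p : Pt | TIW.hn (v - p) ≤ (T : ℤ)}.ncard ≤ (2 * T + 1) ^ 2 := by
  classical
  obtain ⟨f, hf⟩ : ∃ f : Pt → ℤ × ℤ, f = fun p => (ip (v - p) up, ip (v - p) (rotL up)) := ⟨_, rfl⟩
  have hinj : Function.Injective f := by
    rintro ⟨a, b⟩ ⟨c, d⟩ he
    rw [hf] at he
    obtain ⟨v1, v2⟩ := v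
    have e1 := congrArg Prod.fst he
    have e2 := congrArg Prod.snd he
    simp only [ip, up, rotL, Prod.fst_sub, Prod.snd_sub] at e1 e2
    ext <;> simp only <;> omega
  have hmap : Set.MapsTo f {p : Pt | TIW.hn (v - p) ≤ (T : ℤ)} (↑(Icc ((-(T : ℤ), -(T : ℤ)) : ℤ × ℤ) ((T : ℤ), (T : ℤ))) : Set (ℤ × ℤ)) := by
    intro p hp
    have hp' : TIW.hn (v - p) ≤ T := hp
    have hL : rotL up ∈ dirs := by decide
    have h2 := TIW.ip_le_hn (v - p) TIW.upd'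
    have h3 := TIW.neg_hn_le_ip (v - p) TIW.upd'
    have h4 := TIW.ip_le_hn (v - p) hL
    have h5 := TIW.neg_hn_le_ip (v - p) hL
    rw [hf, Finset.mem_coe, Finset.mem_Icc]
    refine ⟨⟨?_, ?_⟩, ⟨?_, ?_⟩⟩ <;> simp only <;> linarith
  have hfin : {p : Pt | TIW.hn (v - p) ≤ (T : ℤ)}.Finite :=
    Set.Finite.of_injOn hmap hinj.injOn (Finset.finite_toSet _)
  refine ⟨hfin, ?_⟩
  have h1 := Set.ncard_le_ncard_of_injOn f hmap hinj.injOn (Finset.finite_toSet _)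
  refine h1.trans (le_of_eq ?_)
  rw [Set.ncard_coe_finset, show (Icc ((-(T : ℤ), -(T : ℤ)) : ℤ × ℤ) ((T : ℤ), (T : ℤ))) =
    (Icc (-(T : ℤ)) (T : ℤ)) ×ˢ (Icc (-(T : ℤ)) (T : ℤ)) from rfl, Finset.card_product, Int.card_Icc, sq]
  have e : ((T : ℤ) + 1 - -(T : ℤ)).toNat = 2 * T + 1 := by omega
  rw [e]

/-- the points near the window that starts at `r` -/
def Wd (R : ℤ) (r ℓ n : ℕ) (L : List Bool) : Set Pt :=
  {p | ∃ k, r ≤ k ∧ k ≤ r + ℓ ∧ k ≤ n ∧ TIW.hn (vx oo up L k - p) ≤ R}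

/-- the radius of the window is at least `D` -/
def Gw (D : ℤ) (r ℓ n : ℕ) (L : List Bool) : Prop :=
  ∃ k, r ≤ k ∧ k ≤ r + ℓ ∧ k ≤ n ∧ D ≤ TIW.hn (vx oo up L k - vx oo up L r)

lemma wd_sub {i s r ℓ n : ℕ} {L : List Bool} (his : i ≤ s) (h : ¬ Gw (2 ^ s) r ℓ n L) :
    Wd (2 ^ i) r ℓ n L ⊆ {p : Pt | TIW.hn (vx oo up L r - p) ≤ ((2 ^ (s + 1) : ℕ) : ℤ)} := by
  rintro p ⟨k, h1, h2, h3, h4⟩
  have h5 : TIW.hn (vx oo up L k - vx oo up L r) < 2 ^ s := by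
    by_contra hc
    exact h ⟨k, h1, h2, h3, not_lt.1 hc⟩
  have h6 := TIW.hn_sub (vx oo up L k - p) (vx oo up L k - vx oo up L r)
  rw [sub_sub_sub_cancel_left] at h6
  have h7 : (2 : ℤ) ^ i ≤ 2 ^ s := pow_le_pow_right₀ (by norm_num) his
  show TIW.hn (vx oo up L r - p) ≤ _
  push_cast
  rw [pow_succ]
  linarith

lemma wd_fin (i r ℓ n : ℕ) (L : List Bool) : (Wd (2 ^ i) r ℓ n L).Finite := by
  have h1 : Wd (2 ^ i) r ℓ n L ⊆ ⋃ k ∈ Finset.range (n + 1), {p : Pt | TIW.hn (vx oo up L k - p) ≤ ((2 ^ i : ℕ) : ℤ)} := by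
    rintro p ⟨k, -, -, h3, h4⟩
    rw [Set.mem_iUnion₂]
    refine ⟨k, Finset.mem_range.2 (by omega), ?_⟩
    show TIW.hn (vx oo up L k - p) ≤ _
    push_cast
    exact h4
  exact ((Finset.range (n + 1)).finite_toSet.biUnion fun k _ => (ball_card _ _).1).subset h1

lemma wd_card {i s r ℓ n : ℕ} {L : List Bool} (his : i ≤ s) (h : ¬ Gw (2 ^ s) r ℓ n L) :
    (Wd (2 ^ i) r ℓ n L).ncard ≤ 4 ^ (s + 3) := by
  refine (Set.ncard_le_ncard (wd_sub his h) (ball_card _ _).1).trans ((ball_card _ _).2.trans ?_)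
  have e : (4 : ℕ) ^ (s + 3) = (2 ^ (s + 3)) ^ 2 := by
    rw [← pow_mul, mul_comm (s + 3) 2, pow_mul]
    norm_num
  rw [e]
  refine Nat.pow_le_pow_left ?_ 2
  have h1 : 1 ≤ 2 ^ (s + 2) := Nat.one_le_two_pow
  have h2 : 2 ^ (s + 3) = 2 * 2 ^ (s + 2) := by rw [← pow_succ']
  have h3 : 2 * 2 ^ (s + 1) = 2 ^ (s + 2) := by rw [← pow_succ']
  omega

open Classical in
/-- **the points near a window**, in terms of its radius -/
lemma wd_bound (i J r ℓ n : ℕ) (L : List Bool) : ((Wd (2 ^ i) r ℓ n L).ncard : ℝ≥0∞) ≤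
    4 ^ (i + 2 * J + 6) + ∑' m : ℕ, 4 ^ (i + 2 * (m + J) + 8) * (if Gw (2 ^ (i + 2 * (m + J) + 3)) r ℓ n L then 1 else 0) := by
  have hex : ∃ m, ¬ Gw (2 ^ (i + 2 * (m + J) + 3)) r ℓ n L := by
    obtain ⟨B, hB⟩ : ∃ B : ℤ, ∀ k, k ≤ n → TIW.hn (vx oo up L k - vx oo up L r) ≤ B := by
      refine ⟨∑ k ∈ Finset.range (n + 1), TIW.hn (vx oo up L k - vx oo up L r), fun k hk => ?_⟩
      exact Finset.single_le_sum (f := fun k => TIW.hn (vx oo up L k - vx oo up L r)) (fun j _ => TIW.hn_nonneg _)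
        (Finset.mem_range.2 (by omega))
    refine ⟨B.toNat, ?_⟩
    rintro ⟨k, -, -, h3, h4⟩
    have h5 := hB k h3
    have h6 : (B.toNat : ℤ) < 2 ^ (i + 2 * (B.toNat + J) + 3) := by
      calc (B.toNat : ℤ) < 2 ^ B.toNat := by exact_mod_cast Nat.lt_two_pow_self
        _ ≤ _ := pow_le_pow_right₀ (by norm_num) (by omega)
    have h7 : B ≤ B.toNat := Int.self_le_toNat B
    linarith
  obtain ⟨m, hm⟩ : ∃ m, m = Nat.find hex := ⟨_, rfl⟩
  have hm1 : ¬ Gw (2 ^ (i + 2 * (m + J) + 3)) r ℓ n L := by rw [hm]; exact Nat.find_spec hex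
  rcases Nat.eq_zero_or_pos m with h0 | h0
  · rw [h0, zero_add] at hm1
    refine le_trans ?_ le_self_add
    have h1 := wd_card (show i ≤ i + 2 * J + 3 by omega) hm1
    exact_mod_cast h1
  · obtain ⟨k, hk⟩ : ∃ k, m = k + 1 := ⟨m - 1, by omega⟩
    have hk1 : Gw (2 ^ (i + 2 * (k + J) + 3)) r ℓ n L := by
      have := Nat.find_min hex (m := k) (by omega)
      exact not_not.1 this
    refine le_trans ?_ le_add_self
    refine le_trans ?_ (ENNReal.le_tsum k)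
    rw [if_pos hk1, mul_one]
    rw [hk] at hm1
    have h1 := wd_card (show i ≤ i + 2 * (k + 1 + J) + 3 by omega) hm1
    rw [show i + 2 * (k + 1 + J) + 3 + 3 = i + 2 * (k + J) + 8 by ring] at h1
    exact_mod_cast h1

/-- the rotated word -/
lemma rot_hn {n : ℕ} {L : List Bool} {β : Bool} (hL : L ∈ C0 n) (hβ : L ++ [β] ∈ POL.Cy (n + 1)) (r : ℕ) :
    ((L ++ [β]).rotate r).dropLast ∈ C0 n ∧ ∀ k, r + k ≤ n →
      TIW.hn (vx oo up ((L ++ [β]).rotate r).dropLast k) = TIW.hn (vx oo up L (r + k) - vx oo up L r) := by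
  have hLl : L.length = n := (C0_mem hL).2.1
  obtain ⟨s, hs⟩ : ∃ s, s = L ++ [β] := ⟨_, rfl⟩
  have hsl : s.length = n + 1 := by rw [hs, List.length_append, hLl]; rfl
  rw [← hs] at hβ ⊢
  have hrot := POL.Cy.rot hβ r
  have hrl : (s.rotate r).length = n + 1 := by rw [List.length_rotate, hsl]
  have hne : s.rotate r ≠ [] := by
    intro h0
    rw [h0] at hrl
    simp at hrl
  have hdl := List.dropLast_append_getLast hne
  have hdlen : (s.rotate r).dropLast.length = n := by rw [List.length_dropLast, hrl]; rfl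
  have hv : ∀ k, k ≤ n → vx oo up (s.rotate r).dropLast k = mulE (rotTo (POL.pd s r) up) (POL.pv s (r + k) - POL.pv s r) := by
    intro k hk
    rw [← POL.rot_vx (by omega)]
    conv_rhs => rw [← hdl]
    exact (vx_append (by omega)).symm
  have hp : ∀ k, k ≤ n → POL.pv s k = vx oo up L k := by
    intro k hk
    rw [POL.pv_eq (by omega), hs, vx_append (by omega)]
  refine ⟨⟨_, by rw [hdl]; exact hrot⟩, fun k hk => ?_⟩
  rw [hv k (by omega), TIW.hn_mulE (POL.nrm_rotTo_pd _ _), hp _ hk, hp _ (by omega)]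

lemma gw_mass {n ℓ : ℕ} {D : ℤ} {x : ℝ} (hx : (ℓ : ℝ) ≤ x) (r : ℕ) :
    gf {L | L ∈ C0 n ∧ Gw D r ℓ n L} ≤ 2 * gf (FR D x n) := by
  refine (gf_mono ?_).trans (rot_one n r (FR D x n))
  rintro L ⟨hL, k, h1, h2, h3, h4⟩
  obtain ⟨β, hβ⟩ := id hL
  obtain ⟨h5, h6⟩ := rot_hn hL hβ r
  refine ⟨hL, β, hβ, h5, k - r, ?_, ?_, ?_⟩
  · rw [(C0_mem h5).2.1]
    omega
  · refine le_trans ?_ hx
    exact_mod_cast (show k - r ≤ ℓ by omega)
  · rw [h6 (k - r) (by omega), show r + (k - r) = k by omega]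
    exact h4

/-- the points within `R` of the word -/
def cov (R : ℤ) (L : List Bool) : Set Pt := {p | ∃ k, k ≤ L.length ∧ TIW.hn (vx oo up L k - p) ≤ R}

/-- sums over words with a weight -/
noncomputable def gs (S : Set (List Bool)) (f : List Bool → ℝ≥0∞) : ℝ≥0∞ := ∑' t : S, wE t * f t

lemma gs_ind (S : Set (List Bool)) (P : List Bool → Prop) [DecidablePred P] : gs S (fun t => if P t then 1 else 0) = gf {t | t ∈ S ∧ P t} := by
  unfold gs gf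
  rw [tsum_subtype S (fun t => wE t * if P t then 1 else 0), tsum_subtype {t | t ∈ S ∧ P t} wE]
  refine tsum_congr fun t => ?_
  by_cases h1 : t ∈ S
  · by_cases h2 : P t
    · rw [Set.indicator_of_mem h1, Set.indicator_of_mem (show t ∈ {t | t ∈ S ∧ P t} from ⟨h1, h2⟩), if_pos h2, mul_one]
    · rw [Set.indicator_of_mem h1, Set.indicator_of_notMem (show t ∉ {t | t ∈ S ∧ P t} from fun h => h2 h.2), if_neg h2,
        mul_zero]
  · rw [Set.indicator_of_notMem h1, Set.indicator_of_notMem (show t ∉ {t | t ∈ S ∧ P t} from fun h => h1 h.1)]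

lemma gs_mono {S : Set (List Bool)} {f g : List Bool → ℝ≥0∞} (h : ∀ t ∈ S, f t ≤ g t) : gs S f ≤ gs S g :=
  ENNReal.tsum_le_tsum fun t => mul_le_mul_right (h t t.2) _

lemma gs_add (S : Set (List Bool)) (f g : List Bool → ℝ≥0∞) : gs S (fun t => f t + g t) = gs S f + gs S g := by
  unfold gs
  rw [← ENNReal.tsum_add]
  exact tsum_congr fun t => mul_add _ _ _

lemma gs_sum {ι : Type*} (S : Set (List Bool)) (T : Finset ι) (f : ι → List Bool → ℝ≥0∞) :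
    gs S (fun t => ∑ j ∈ T, f j t) = ∑ j ∈ T, gs S (f j) := by
  unfold gs
  rw [← Summable.tsum_finsetSum (fun j _ => ENNReal.summable)]
  exact tsum_congr fun t => Finset.mul_sum _ _ _

lemma gs_tsum (S : Set (List Bool)) (f : ℕ → List Bool → ℝ≥0∞) : gs S (fun t => ∑' j, f j t) = ∑' j, gs S (f j) := by
  unfold gs
  rw [ENNReal.tsum_comm]
  exact tsum_congr fun t => ENNReal.tsum_mul_left.symm

lemma gs_mul (S : Set (List Bool)) (a : ℝ≥0∞) (f : List Bool → ℝ≥0∞) : gs S (fun t => a * f t) = a * gs S f := by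
  unfold gs
  rw [← ENNReal.tsum_mul_left]
  exact tsum_congr fun t => by ring

lemma gs_one (S : Set (List Bool)) : gs S (fun _ => 1) = gf S := by
  unfold gs gf
  exact tsum_congr fun t => mul_one _

/-- one window -/
lemma one_w : ∃ (C c : ℝ) (b0 : ℕ), 0 < C ∧ 0 < c ∧ c ≤ 1 ∧ ∀ n i ℓ r : ℕ, b0 ≤ i → ml i ≤ n →
    (ℓ : ℝ) ≤ c * ml i → gs (C0 n) (fun L => ((Wd (2 ^ i) r ℓ n L).ncard : ℝ≥0∞)) ≤
      ENNReal.ofReal (C * 4 ^ i * (n : ℝ) ^ (-(3 / 2) : ℝ)) := by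
  classical
  obtain ⟨A, c, J, b0, hA, hc, hc1, hw⟩ := win_tail
  obtain ⟨A3, hA3, hm0⟩ := S2.c0_mass
  refine ⟨4 ^ (2 * J + 6) * A3 + 4 * A * 4 ^ 8, c, b0, by positivity, hc, hc1, fun n i ℓ r hi hn hl => ?_⟩
  have hn0 : (0 : ℝ) < n := lt_of_lt_of_le (ml_pos i) hn
  have hn1 : 1 ≤ n := by
    have : 0 < n := by exact_mod_cast hn0
    omega
  obtain ⟨ν, hν⟩ : ∃ ν : ℝ, ν = (n : ℝ) ^ (-(3 / 2) : ℝ) := ⟨_, rfl⟩
  have hν0 : 0 ≤ ν := by rw [hν]; positivity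
  have h1 : gs (C0 n) (fun L => ((Wd (2 ^ i) r ℓ n L).ncard : ℝ≥0∞)) ≤ 4 ^ (i + 2 * J + 6) * gf (C0 n) +
      ∑' m : ℕ, 4 ^ (i + 2 * (m + J) + 8) * gf {L | L ∈ C0 n ∧ Gw (2 ^ (i + 2 * (m + J) + 3)) r ℓ n L} := by
    refine (gs_mono fun L _ => wd_bound i J r ℓ n L).trans (le_of_eq ?_)
    rw [gs_add, gs_tsum]
    congr 1
    · have := gs_mul (C0 n) (4 ^ (i + 2 * J + 6)) (fun _ => 1)
      simp only [mul_one] at this
      rw [this, gs_one]
    · refine tsum_congr fun m => ?_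
      rw [gs_mul, gs_ind]
  have e4 : ∀ k : ℕ, (4 : ℝ≥0∞) ^ k = ENNReal.ofReal (4 ^ k) := fun k => by
    rw [ENNReal.ofReal_pow (by norm_num)]
    norm_num
  have h2 : ∀ m : ℕ, 4 ^ (i + 2 * (m + J) + 8) * gf {L | L ∈ C0 n ∧ Gw (2 ^ (i + 2 * (m + J) + 3)) r ℓ n L} ≤
      ENNReal.ofReal (2 * A * 4 ^ 8 * 4 ^ i * ν) * (2⁻¹) ^ m := by
    intro m
    have h5 := (gw_mass (D := 2 ^ (i + 2 * (m + J) + 3)) hl r).trans (mul_le_mul_right (hw n i (m + J) hi (by omega) hn) 2)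
    refine (mul_le_mul_right h5 _).trans ?_
    have e2 : (2 : ℝ≥0∞) = ENNReal.ofReal 2 := by norm_num
    have e3 : (2⁻¹ : ℝ≥0∞) ^ m = ENNReal.ofReal ((1 / 2) ^ m) := by
      rw [ENNReal.ofReal_pow (by norm_num)]
      congr 1
      rw [one_div, ENNReal.ofReal_inv_of_pos (by norm_num)]
      norm_num
    rw [e4, e3, e2, ← ENNReal.ofReal_mul (by norm_num), ← ENNReal.ofReal_mul (by positivity), ← ENNReal.ofReal_mul (by positivity),
      ← hν]
    refine ENNReal.ofReal_le_ofReal ?_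
    have e5 : (4 : ℝ) ^ (i + 2 * (m + J) + 8) * (2 * (A * (1 / 2) ^ (5 * (m + J)) * ν)) =
        2 * A * 4 ^ 8 * 4 ^ i * ν * (16 ^ (m + J) * (1 / 32) ^ (m + J)) := by
      have e6 : (4 : ℝ) ^ (i + 2 * (m + J) + 8) = 4 ^ i * 16 ^ (m + J) * 4 ^ 8 := by
        rw [pow_add, pow_add, pow_mul]
        norm_num
      have e7 : (1 / 2 : ℝ) ^ (5 * (m + J)) = (1 / 32) ^ (m + J) := by
        rw [pow_mul]
        norm_num
      rw [e6, e7]
      ring
    rw [e5, ← mul_pow]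
    refine mul_le_mul_of_nonneg_left ?_ (by positivity)
    norm_num
    exact pow_le_pow_of_le_one (by norm_num) (by norm_num) (by omega)
  refine h1.trans ((add_le_add (mul_le_mul_right (hm0 n hn1) _) (ENNReal.tsum_le_tsum h2)).trans ?_)
  rw [ENNReal.tsum_mul_left, ENNReal.tsum_geometric_two, e4, ← hν, ← ENNReal.ofReal_mul (by positivity)]
  have e2 : (2 : ℝ≥0∞) = ENNReal.ofReal 2 := by norm_num
  rw [e2, ← ENNReal.ofReal_mul (by positivity), ← ENNReal.ofReal_add (by positivity) (by positivity)]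
  refine ENNReal.ofReal_le_ofReal (le_of_eq ?_)
  have e6 : (4 : ℝ) ^ (i + 2 * J + 6) = 4 ^ i * 4 ^ (2 * J + 6) := by
    rw [show i + 2 * J + 6 = i + (2 * J + 6) by ring, pow_add]
  rw [e6]
  ring

/-- **one number of steps**: the points within `2 ^ i` of a closed word -/
theorem one_n : ∃ (C : ℝ) (b0 : ℕ), 0 < C ∧ ∀ n i : ℕ, b0 ≤ i → ml i ≤ n →
    gs (C0 n) (fun L => ((cov (2 ^ i) L).ncard : ℝ≥0∞)) ≤
      ENNReal.ofReal (C * (n / ml i) * 4 ^ i * (n : ℝ) ^ (-(3 / 2) : ℝ)) := by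
  obtain ⟨C, c, b0, hC, hc, hc1, hw⟩ := one_w
  obtain ⟨b1, hb1⟩ : ∃ b1 : ℕ, 1 / c < (2 : ℝ) ^ b1 := pow_unbounded_of_one_lt _ (by norm_num)
  refine ⟨3 / c * C, b0 + b1, by positivity, fun n i hi hn => ?_⟩
  have hmi := ml_pos i
  have hn0 : (0 : ℝ) < n := lt_of_lt_of_le hmi hn
  have h1 : 1 ≤ c * ml i := by
    have h2 : 1 / c ≤ ml i := by
      calc 1 / c ≤ 2 ^ b1 := hb1.le
        _ ≤ 2 ^ i := pow_le_pow_right₀ (by norm_num) (by omega)
        _ ≤ ml i := ml_ge_two i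
    rwa [div_le_iff₀ hc, mul_comm] at h2
  obtain ⟨ℓ, hℓ⟩ : ∃ ℓ : ℕ, ℓ = ⌊c * ml i⌋₊ := ⟨_, rfl⟩
  have hl1 : (ℓ : ℝ) ≤ c * ml i := by rw [hℓ]; exact Nat.floor_le (by positivity)
  have hl2 : c * ml i < ℓ + 1 := by rw [hℓ]; exact Nat.lt_floor_add_one _
  have hl0 : 1 ≤ ℓ := by
    rw [hℓ]
    exact Nat.le_floor (by push_cast; exact h1)
  have hl0' : (1 : ℝ) ≤ ℓ := by exact_mod_cast hl0
  have hl3 : c * ml i / 2 ≤ ℓ := by linarith
  have hcov : ∀ L ∈ C0 n, ((cov (2 ^ i) L).ncard : ℝ≥0∞) ≤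
      ∑ q ∈ Finset.range (n / ℓ + 1), ((Wd (2 ^ i) (ℓ * q) ℓ n L).ncard : ℝ≥0∞) := by
    intro L hL
    have hLl : L.length = n := (C0_mem hL).2.1
    have h4 : cov (2 ^ i) L ⊆ ⋃ q ∈ Finset.range (n / ℓ + 1), Wd (2 ^ i) (ℓ * q) ℓ n L := by
      rintro p ⟨k, h5, h6⟩
      rw [hLl] at h5
      rw [Set.mem_iUnion₂]
      refine ⟨k / ℓ, ?_, k, Nat.mul_div_le k ℓ, ?_, h5, h6⟩
      · rw [Finset.mem_range]
        exact Nat.lt_succ_of_le (Nat.div_le_div_right h5)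
      · have := Nat.lt_mul_div_succ k (show 0 < ℓ by omega)
        have e : ℓ * (k / ℓ + 1) = ℓ * (k / ℓ) + ℓ := by ring
        omega
    have h5 : (cov (2 ^ i) L).ncard ≤ ∑ q ∈ Finset.range (n / ℓ + 1), (Wd (2 ^ i) (ℓ * q) ℓ n L).ncard := by
      refine (Set.ncard_le_ncard h4 ?_).trans (Finset.set_ncard_biUnion_le _ _)
      exact (Finset.range (n / ℓ + 1)).finite_toSet.biUnion fun q _ => wd_fin _ _ _ _ _
    exact_mod_cast h5
  refine (gs_mono hcov).trans ?_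
  rw [gs_sum]
  refine (Finset.sum_le_sum fun q _ => hw n i ℓ (ℓ * q) (by omega) hn hl1).trans ?_
  rw [Finset.sum_const, Finset.card_range, nsmul_eq_mul]
  have e : ((n / ℓ + 1 : ℕ) : ℝ≥0∞) = ENNReal.ofReal ((n / ℓ + 1 : ℕ) : ℝ) := by
    rw [ENNReal.ofReal_natCast]
  rw [e, ← ENNReal.ofReal_mul (by positivity)]
  refine ENNReal.ofReal_le_ofReal ?_
  have h6 : ((n / ℓ + 1 : ℕ) : ℝ) ≤ 3 / c * (n / ml i) := by
    have h7 : ((n / ℓ : ℕ) : ℝ) ≤ n / ℓ := Nat.cast_div_le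
    have h8 : (n : ℝ) / ℓ ≤ n / (c * ml i / 2) := by gcongr
    have h9 : (1 : ℝ) ≤ n / (c * ml i) := by
      rw [le_div_iff₀ (by positivity), one_mul]
      nlinarith
    have e1 : (n : ℝ) / (c * ml i / 2) + n / (c * ml i) = 3 / c * (n / ml i) := by
      field_simp
      ring
    push_cast
    linarith
  have h10 : 0 ≤ (n : ℝ) ^ (-(3 / 2) : ℝ) := by positivity
  calc ((n / ℓ + 1 : ℕ) : ℝ) * (C * 4 ^ i * (n : ℝ) ^ (-(3 / 2) : ℝ))
      ≤ 3 / c * (n / ml i) * (C * 4 ^ i * (n : ℝ) ^ (-(3 / 2) : ℝ)) := mul_le_mul_of_nonneg_right h6 (by positivity)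
    _ = _ := by ring

end Area

end PMA

end HexObs
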