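import Mathlib

/-!
# ROT, block C5: chaining of windows for a stationary system (helper47)

`θ` preserves `μ`; `X v` is the one step increment of the height `v`, `birkhoffSum θ (X v) k` its displacement
in `k` steps; the widths `W j` are cocycles of `X (e j) + X (f j)`; `R` (the size) depends on the widths in a
1-Lipschitz way.  If for ONE window length `t` the displacements are near `a v * t` in `L¹` on the set of the
sizes in `[lo, hi]`, and `a (e j) + a (f j)` is small, then **`chain_bad`**: up to the time `L` all the heights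
move linearly, outside a small set of the sizes in `[lo + d, hi - d]`.
-/

set_option autoImplicit false

open MeasureTheory Set
open scoped ENNReal

namespace Pool.Agent.ROT

variable {Ω V E : Type*} [Fintype V]

/-- errors of the first `J` windows of length `t` which start in `G` -/
noncomputable def chSum (θ : Ω → Ω) (X : V → Ω → ℝ) (a : V → ℝ) (G : Set Ω) (t J : ℕ) (ω : Ω) : ℝ :=
  ∑ i ∈ Finset.range J, ∑ v, G.indicator (fun ω => |birkhoffSum θ (X v) t ω - a v * t|) (θ^[i * t] ω)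

section path

variable {θ : Ω → Ω} {X : V → Ω → ℝ} {a : V → ℝ} {G : Set Ω} {W : E → Ω → ℝ} {R : Ω → ℝ} {e f : E → V}

theorem chSum_nonneg (t J : ℕ) (ω : Ω) : 0 ≤ chSum θ X a G t J ω :=
  Finset.sum_nonneg fun _ _ => Finset.sum_nonneg fun _ _ =>
    Set.indicator_nonneg (fun _ _ => abs_nonneg _) _

theorem chSum_mono (t : ℕ) (ω : Ω) {i j : ℕ} (h : i ≤ j) : chSum θ X a G t i ω ≤ chSum θ X a G t j ω :=
  Finset.sum_le_sum_of_subset_of_nonneg (Finset.range_subset_range.2 h) fun _ _ _ =>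
    Finset.sum_nonneg fun _ _ => Set.indicator_nonneg (fun _ _ => abs_nonneg _) _

omit [Fintype V] in
/-- a width moves by the sum of the two displacements -/
theorem width_iter (hco : ∀ j ω, W j (θ ω) - W j ω = X (e j) ω + X (f j) ω) (j : E) (k : ℕ) (ω : Ω) :
    W j (θ^[k] ω) - W j ω = birkhoffSum θ (X (e j)) k ω + birkhoffSum θ (X (f j)) k ω := by
  induction k with
  | zero => simp
  | succ k ih =>
    rw [birkhoffSum_succ, birkhoffSum_succ, Function.iterate_succ_apply']
    have := hco j (θ^[k] ω)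
    linarith

/-- **the path lemma** -/
theorem ch_path (hco : ∀ j ω, W j (θ ω) - W j ω = X (e j) ω + X (f j) ω)
    (hR : ∀ (ω ω' : Ω) (d : ℝ), 0 ≤ d → (∀ j, |W j ω - W j ω'| ≤ d) → |R ω - R ω'| ≤ d)
    {lo hi d α y : ℝ} (hα : ∀ j, |a (e j) + a (f j)| ≤ α) (hα0 : 0 ≤ α) (t J : ℕ) (ω : Ω)
    (hG : G = {ω | lo ≤ R ω ∧ R ω ≤ hi}) (h1 : lo + d ≤ R ω) (h2 : R ω ≤ hi - d)
    (hY : chSum θ X a G t J ω ≤ y) (hd : 2 * y + α * (J * t) ≤ d) (i : ℕ) (hi' : i ≤ J) :
    θ^[i * t] ω ∈ G ∧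
      ∑ v, |birkhoffSum θ (X v) (i * t) ω - a v * ((i * t : ℕ) : ℝ)| ≤ chSum θ X a G t i ω := by
  have hy0 : 0 ≤ y := (chSum_nonneg t J ω).trans hY
  have hd0 : 0 ≤ d := le_trans (by positivity) hd
  induction i with
  | zero =>
    refine ⟨?_, by simp [chSum]⟩
    rw [hG, Nat.zero_mul]
    exact ⟨by simpa using by linarith, by simpa using by linarith⟩
  | succ i ih =>
    obtain ⟨i1, i2⟩ := ih (by omega)
    have e0 : chSum θ X a G t (i + 1) ω = chSum θ X a G t i ω +
        ∑ v, |birkhoffSum θ (X v) t (θ^[i * t] ω) - a v * t| := by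
      rw [chSum, Finset.sum_range_succ]
      congr 1
      exact Finset.sum_congr rfl fun v _ => Set.indicator_of_mem i1 _
    have e1 : ∑ v, |birkhoffSum θ (X v) ((i + 1) * t) ω - a v * (((i + 1) * t : ℕ) : ℝ)| ≤
        chSum θ X a G t (i + 1) ω := by
      rw [e0]
      refine le_trans ?_ (add_le_add_left i2 _)
      rw [← Finset.sum_add_distrib]
      refine Finset.sum_le_sum fun v _ => ?_
      have e2 : birkhoffSum θ (X v) ((i + 1) * t) ω - a v * (((i + 1) * t : ℕ) : ℝ) =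
          (birkhoffSum θ (X v) (i * t) ω - a v * ((i * t : ℕ) : ℝ)) +
            (birkhoffSum θ (X v) t (θ^[i * t] ω) - a v * t) := by
        rw [Nat.succ_mul, birkhoffSum_add]
        push_cast
        ring
      rw [e2]
      exact abs_add_le _ _
    refine ⟨?_, e1⟩
    have e3 : ∑ v, |birkhoffSum θ (X v) ((i + 1) * t) ω - a v * (((i + 1) * t : ℕ) : ℝ)| ≤ y :=
      (e1.trans (chSum_mono t ω hi')).trans hY
    have e4 : ∀ v, |birkhoffSum θ (X v) ((i + 1) * t) ω - a v * (((i + 1) * t : ℕ) : ℝ)| ≤ y := fun v =>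
      (Finset.single_le_sum (f := fun v => |birkhoffSum θ (X v) ((i + 1) * t) ω -
        a v * (((i + 1) * t : ℕ) : ℝ)|) (fun v _ => abs_nonneg _) (Finset.mem_univ v)).trans e3
    have e5 : ∀ j, |W j (θ^[(i + 1) * t] ω) - W j ω| ≤ d := by
      intro j
      rw [width_iter hco]
      have q1 := e4 (e j)
      have q2 := e4 (f j)
      have q3 : |(a (e j) + a (f j)) * (((i + 1) * t : ℕ) : ℝ)| ≤ α * (J * t) := by
        rw [abs_mul, abs_of_nonneg (by positivity : (0 : ℝ) ≤ (((i + 1) * t : ℕ) : ℝ))]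
        refine mul_le_mul (hα j) ?_ (by positivity) hα0
        have : (i + 1) * t ≤ J * t := Nat.mul_le_mul_right t hi'
        exact_mod_cast this
      have q4 : birkhoffSum θ (X (e j)) ((i + 1) * t) ω + birkhoffSum θ (X (f j)) ((i + 1) * t) ω =
        (birkhoffSum θ (X (e j)) ((i + 1) * t) ω - a (e j) * (((i + 1) * t : ℕ) : ℝ)) +
        (birkhoffSum θ (X (f j)) ((i + 1) * t) ω - a (f j) * (((i + 1) * t : ℕ) : ℝ)) +
        (a (e j) + a (f j)) * (((i + 1) * t : ℕ) : ℝ) := by ring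
      rw [q4]
      refine (abs_add_three _ _ _).trans ?_
      linarith
    have e6 := abs_le.1 (hR _ _ d hd0 e5)
    rw [hG]
    exact ⟨by linarith [e6.1], by linarith [e6.2]⟩

end path

section meas

variable [MeasurableSpace Ω] {μ : Measure Ω} {θ : Ω → Ω} {X : V → Ω → ℝ} {a : V → ℝ} {G : Set Ω}

theorem meas_birk (hθ : Measurable θ) {g : Ω → ℝ} (hg : Measurable g) (k : ℕ) :
    Measurable (fun ω => birkhoffSum θ g k ω) := by
  unfold birkhoffSum
  exact Finset.measurable_sum _ fun i _ => hg.comp (hθ.iterate i)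

theorem chSum_lint (hmp : MeasurePreserving θ μ μ) (hX : ∀ v, Measurable (X v)) (hG : MeasurableSet G)
    (t J : ℕ) :
    ∫⁻ ω, ENNReal.ofReal (chSum θ X a G t J ω) ∂μ =
      J * ∑ v, ∫⁻ ω in G, ENNReal.ofReal |birkhoffSum θ (X v) t ω - a v * t| ∂μ := by
  have m0 : ∀ v, Measurable (fun ω => G.indicator (fun ω => |birkhoffSum θ (X v) t ω - a v * t|) ω) :=
    fun v => Measurable.indicator (((meas_birk hmp.measurable (hX v) t).sub_const _).norm) hG
  have m2 : ∀ (i : ℕ) (v : V), Measurable (fun ω =>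
      G.indicator (fun ω => |birkhoffSum θ (X v) t ω - a v * t|) (θ^[i * t] ω)) := fun i v =>
    (m0 v).comp (hmp.measurable.iterate _)
  have e1 : ∀ ω, ENNReal.ofReal (chSum θ X a G t J ω) = ∑ i ∈ Finset.range J, ∑ v,
      ENNReal.ofReal (G.indicator (fun ω => |birkhoffSum θ (X v) t ω - a v * t|) (θ^[i * t] ω)) := by
    intro ω
    rw [chSum, ENNReal.ofReal_sum_of_nonneg]
    · refine Finset.sum_congr rfl fun i _ => ?_
      rw [ENNReal.ofReal_sum_of_nonneg]
      exact fun _ _ => Set.indicator_nonneg (fun _ _ => abs_nonneg _) _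
    · exact fun _ _ => Finset.sum_nonneg fun _ _ =>
        Set.indicator_nonneg (fun _ _ => abs_nonneg _) _
  simp_rw [e1]
  rw [lintegral_finsetSum]
  swap
  · intro i _
    exact Finset.measurable_sum _ fun v _ => (m2 i v).ennreal_ofReal
  have e2 : ∀ i ∈ Finset.range J, ∫⁻ ω, ∑ v,
      ENNReal.ofReal (G.indicator (fun ω => |birkhoffSum θ (X v) t ω - a v * t|) (θ^[i * t] ω)) ∂μ =
      ∑ v, ∫⁻ ω in G, ENNReal.ofReal |birkhoffSum θ (X v) t ω - a v * t| ∂μ := by
    intro i _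
    rw [lintegral_finsetSum _ fun v _ => (m2 i v).ennreal_ofReal]
    refine Finset.sum_congr rfl fun v _ => ?_
    have e3 := (hmp.iterate (i * t)).lintegral_comp
      (f := fun ω => ENNReal.ofReal (G.indicator (fun ω => |birkhoffSum θ (X v) t ω - a v * t|) ω))
      (m0 v).ennreal_ofReal
    rw [e3, ← lintegral_indicator hG]
    refine lintegral_congr fun ω => ?_
    by_cases hω : ω ∈ G
    · rw [Set.indicator_of_mem hω, Set.indicator_of_mem hω]
    · rw [Set.indicator_of_notMem hω, Set.indicator_of_notMem hω, ENNReal.ofReal_zero]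
  rw [Finset.sum_congr rfl e2, Finset.sum_const, Finset.card_range, nsmul_eq_mul]

end meas

section bad

variable [MeasurableSpace Ω] {μ : Measure Ω} {θ : Ω → Ω} {X : V → Ω → ℝ} {a : V → ℝ} {W : E → Ω → ℝ}
  {R : Ω → ℝ} {e f : E → V}

/-- **chaining**: one window length in `L¹` gives all the times up to `L` -/
theorem chain_bad (hmp : MeasurePreserving θ μ μ) (hX : ∀ v, Measurable (X v)) (hRm : Measurable R)
    (hco : ∀ j ω, W j (θ ω) - W j ω = X (e j) ω + X (f j) ω)
    (hR : ∀ (ω ω' : Ω) (d : ℝ), 0 ≤ d → (∀ j, |W j ω - W j ω'| ≤ d) → |R ω - R ω'| ≤ d)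
    {lo hi d α y m τ s₀ A l : ℝ} (hα : ∀ j, |a (e j) + a (f j)| ≤ α) (hα0 : 0 ≤ α) {t : ℕ} (ht : 1 ≤ t)
    (L : ℕ) (hy : 0 < y) (hm0 : 0 ≤ m) (hτ0 : 0 ≤ τ) (hA : ∀ v, |a v| ≤ A) (hs₀ : 0 ≤ s₀) (hA0 : 0 ≤ A)
    (hm : ∀ v, ∫⁻ ω in {ω | lo ≤ R ω ∧ R ω ≤ hi}, ENNReal.ofReal |birkhoffSum θ (X v) t ω - a v * t| ∂μ ≤
      ENNReal.ofReal m)
    (hτ : ∀ v, μ {ω | s₀ ≤ |X v ω|} ≤ ENNReal.ofReal τ)
    (hd : 2 * y + α * L ≤ d) (hl : y + (s₀ + A) * t ≤ l) :
    μ {ω | lo + d ≤ R ω ∧ R ω ≤ hi - d ∧ ∃ v, ∃ k ≤ L, l < |birkhoffSum θ (X v) k ω - a v * k|} ≤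
      ENNReal.ofReal (Fintype.card V * ((L / t) * m / y + L * τ)) := by
  classical
  set G : Set Ω := {ω | lo ≤ R ω ∧ R ω ≤ hi} with hG
  have hGm : MeasurableSet G := (measurableSet_le measurable_const hRm).inter
    (measurableSet_le hRm measurable_const)
  set J : ℕ := L / t with hJ
  have hJL : J * t ≤ L := Nat.div_mul_le_self L t
  have ht0 : (0 : ℝ) < t := by exact_mod_cast ht
  have hJr : (J : ℝ) ≤ L / t := by
    rw [le_div_iff₀ ht0]
    exact_mod_cast hJL
  set B1 : Set Ω := {ω | ENNReal.ofReal y ≤ ENNReal.ofReal (chSum θ X a G t J ω)} with hB1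
  set B2 : Set Ω := ⋃ v : V, ⋃ k ∈ Finset.range L, (θ^[k]) ⁻¹' {ω | s₀ ≤ |X v ω|} with hB2
  have hsub : {ω | lo + d ≤ R ω ∧ R ω ≤ hi - d ∧ ∃ v, ∃ k ≤ L, l < |birkhoffSum θ (X v) k ω - a v * k|} ⊆
      B1 ∪ B2 := by
    rintro ω ⟨h1, h2, v, k, hk, hv⟩
    by_contra hB
    rw [Set.mem_union, not_or] at hB
    obtain ⟨b1, b2⟩ := hB
    have c1 : chSum θ X a G t J ω ≤ y := by
      by_contra hc
      exact b1 (ENNReal.ofReal_le_ofReal (le_of_lt (not_le.1 hc)))
    have c2 : ∀ k < L, |X v (θ^[k] ω)| < s₀ := by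
      intro k hk
      by_contra hc
      apply b2
      rw [hB2, Set.mem_iUnion]
      refine ⟨v, ?_⟩
      rw [Set.mem_iUnion₂]
      exact ⟨k, Finset.mem_range.2 hk, not_lt.1 hc⟩
    have hd' : 2 * y + α * (J * t) ≤ d := by
      refine le_trans ?_ hd
      have : (J : ℝ) * t ≤ L := by exact_mod_cast hJL
      have := mul_le_mul_of_nonneg_left this hα0
      linarith
    have hkJ : k / t ≤ J := Nat.div_le_div_right hk
    obtain ⟨-, c3⟩ := ch_path (G := G) hco hR hα hα0 t J ω hG h1 h2 c1 hd' (k / t) hkJ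
    have c4 : |birkhoffSum θ (X v) (k / t * t) ω - a v * ((k / t * t : ℕ) : ℝ)| ≤ y :=
      ((Finset.single_le_sum (f := fun v => |birkhoffSum θ (X v) (k / t * t) ω -
        a v * ((k / t * t : ℕ) : ℝ)|) (fun v _ => abs_nonneg _) (Finset.mem_univ v)).trans c3).trans
        ((chSum_mono t ω hkJ).trans c1)
    have c5 : |birkhoffSum θ (X v) (k % t) (θ^[k / t * t] ω)| ≤ s₀ * t := by
      rw [birkhoffSum]
      refine (Finset.abs_sum_le_sum_abs _ _).trans ?_
      have q1 : ∀ i ∈ Finset.range (k % t), |X v (θ^[i] (θ^[k / t * t] ω))| ≤ s₀ := by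
        intro i hi
        rw [← Function.iterate_add_apply]
        refine le_of_lt (c2 _ ?_)
        have := Finset.mem_range.1 hi
        have := Nat.div_add_mod' k t
        omega
      refine (Finset.sum_le_sum q1).trans ?_
      rw [Finset.sum_const, Finset.card_range, nsmul_eq_mul, mul_comm]
      refine mul_le_mul_of_nonneg_left ?_ hs₀
      exact_mod_cast (Nat.mod_lt k (by omega)).le
    have c6 : |a v * ((k % t : ℕ) : ℝ)| ≤ A * t := by
      rw [abs_mul, abs_of_nonneg (by positivity : (0 : ℝ) ≤ ((k % t : ℕ) : ℝ))]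
      refine mul_le_mul (hA v) ?_ (by positivity) hA0
      exact_mod_cast (Nat.mod_lt k (by omega)).le
    have c7 : birkhoffSum θ (X v) k ω - a v * k =
        (birkhoffSum θ (X v) (k / t * t) ω - a v * ((k / t * t : ℕ) : ℝ)) +
          birkhoffSum θ (X v) (k % t) (θ^[k / t * t] ω) - a v * ((k % t : ℕ) : ℝ) := by
      have q1 : birkhoffSum θ (X v) k ω = birkhoffSum θ (X v) (k / t * t + k % t) ω := by
        rw [Nat.div_add_mod']
      have q2 : (k : ℝ) = ((k / t * t : ℕ) : ℝ) + ((k % t : ℕ) : ℝ) := by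
        rw [← Nat.cast_add, Nat.div_add_mod']
      rw [q1, birkhoffSum_add, q2]
      ring
    rw [c7] at hv
    have c8 := abs_sub (birkhoffSum θ (X v) (k / t * t) ω - a v * ((k / t * t : ℕ) : ℝ) +
      birkhoffSum θ (X v) (k % t) (θ^[k / t * t] ω)) (a v * ((k % t : ℕ) : ℝ))
    have c9 := abs_add_le (birkhoffSum θ (X v) (k / t * t) ω - a v * ((k / t * t : ℕ) : ℝ))
      (birkhoffSum θ (X v) (k % t) (θ^[k / t * t] ω))
    nlinarith
  have e1 : μ B1 ≤ ENNReal.ofReal (Fintype.card V * ((L / t) * m / y)) := by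
    have q0 : Measurable fun ω => ENNReal.ofReal (chSum θ X a G t J ω) := by
      refine Measurable.ennreal_ofReal ?_
      unfold chSum
      refine Finset.measurable_sum _ fun i _ => Finset.measurable_sum _ fun v _ => ?_
      exact (Measurable.indicator (((meas_birk hmp.measurable (hX v) t).sub_const _).norm) hGm).comp
        (hmp.measurable.iterate _)
    have q1 := meas_ge_le_lintegral_div (μ := μ) q0.aemeasurable
      (ε := ENNReal.ofReal y) (by simpa using hy) ENNReal.ofReal_ne_top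
    refine q1.trans ?_
    rw [chSum_lint hmp hX hGm]
    have q2 : ∑ v, ∫⁻ ω in G, ENNReal.ofReal |birkhoffSum θ (X v) t ω - a v * t| ∂μ ≤
        Fintype.card V * ENNReal.ofReal m := by
      refine (Finset.sum_le_sum fun v _ => hm v).trans ?_
      rw [Finset.sum_const, nsmul_eq_mul]
      rfl
    have q3 : (J : ℝ≥0∞) ≤ ENNReal.ofReal (L / t) := by
      rw [← ENNReal.ofReal_natCast]
      exact ENNReal.ofReal_le_ofReal hJr
    have q4 : (J : ℝ≥0∞) * ∑ v, ∫⁻ ω in G, ENNReal.ofReal |birkhoffSum θ (X v) t ω - a v * t| ∂μ ≤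
        ENNReal.ofReal (Fintype.card V * ((L / t) * m)) := by
      refine (mul_le_mul' q3 q2).trans ?_
      rw [← ENNReal.ofReal_natCast, ← ENNReal.ofReal_mul (by positivity), ← ENNReal.ofReal_mul (by positivity)]
      exact ENNReal.ofReal_le_ofReal (le_of_eq (by ring))
    refine (ENNReal.div_le_div_right q4 _).trans ?_
    rw [← ENNReal.ofReal_div_of_pos hy]
    exact ENNReal.ofReal_le_ofReal (le_of_eq (by ring))
  have e2 : μ B2 ≤ ENNReal.ofReal (Fintype.card V * (L * τ)) := by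
    refine (measure_iUnion_fintype_le _ _).trans ?_
    have q1 : ∀ v, μ (⋃ k ∈ Finset.range L, (θ^[k]) ⁻¹' {ω | s₀ ≤ |X v ω|}) ≤ ENNReal.ofReal (L * τ) := by
      intro v
      refine (measure_biUnion_finset_le _ _).trans ?_
      have q2 : ∀ k ∈ Finset.range L, μ ((θ^[k]) ⁻¹' {ω | s₀ ≤ |X v ω|}) ≤ ENNReal.ofReal τ := by
        intro k _
        have q3 : MeasurableSet {ω | s₀ ≤ |X v ω|} := measurableSet_le measurable_const (hX v).norm
        rw [(hmp.iterate k).measure_preimage q3.nullMeasurableSet]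
        exact hτ v
      refine (Finset.sum_le_sum q2).trans ?_
      rw [Finset.sum_const, Finset.card_range, nsmul_eq_mul, ← ENNReal.ofReal_natCast,
        ← ENNReal.ofReal_mul (by positivity)]
    refine (Finset.sum_le_sum fun v _ => q1 v).trans ?_
    rw [Finset.sum_const, nsmul_eq_mul, ENNReal.ofReal_mul (by positivity : (0 : ℝ) ≤ Fintype.card V),
      ENNReal.ofReal_natCast]
    rfl
  refine (measure_mono hsub).trans ((measure_union_le _ _).trans ((add_le_add e1 e2).trans ?_))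
  rw [← ENNReal.ofReal_add (by positivity) (by positivity)]
  exact ENNReal.ofReal_le_ofReal (le_of_eq (by ring))

end bad

end Pool.Agent.ROT
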