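import Mathlib

/-!
# ROT, block C, core (helper28): telescoping + competitor, for ONE size

`D k` is the speed of the top over `2 ^ k` steps, `D' k` the speed over the next `2 ^ k` steps, so that
`D (k + 1) = (D k + D' k) / 2`.  If the two second moments agree up to a summable error, the variances of the
differences telescope, so in one of many blocks of scales the speed is persistent; the competitor inequality then
says that it is deterministic: `core`.
-/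

set_option autoImplicit false

open MeasureTheory Finset

namespace Pool.Agent.ROT

/-! ### blocks -/

theorem sum_range_mul (v : ℕ → ℝ) (J n : ℕ) :
    ∑ k ∈ range (J * n), v k = ∑ i ∈ range n, ∑ j ∈ range J, v (J * i + j) := by
  induction n with
  | zero => simp
  | succ n ih => rw [Nat.mul_succ, sum_range_add, ih, sum_range_succ]

/-- a block of `J` consecutive scales with small sum -/
theorem exists_block (v : ℕ → ℝ) (J n k0 : ℕ) (hn : 0 < n) (A : ℝ)
    (h : ∑ k ∈ range (J * n), v (k0 + k) ≤ A) :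
    ∃ k1, k0 ≤ k1 ∧ k1 + J ≤ k0 + J * n ∧ ∑ j ∈ range J, v (k1 + j) ≤ A / n := by
  by_contra hc
  push Not at hc
  have h1 : ∀ i ∈ range n, A / n < ∑ j ∈ range J, v (k0 + (J * i + j)) := by
    intro i hi
    have hi' := mem_range.1 hi
    have h2 := hc (k0 + J * i) (by omega) (by
      have : J * (i + 1) ≤ J * n := Nat.mul_le_mul_left J hi'
      rw [Nat.mul_succ] at this
      omega)
    simpa [add_assoc] using h2
  have h3 := sum_lt_sum_of_nonempty (nonempty_range_iff.2 hn.ne') h1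
  rw [← sum_range_mul (fun k => v (k0 + k))] at h3
  rw [sum_const, card_range, nsmul_eq_mul, mul_div_cancel₀ _ (by positivity)] at h3
  linarith

/-! ### telescoping -/

variable {Ω : Type*} [MeasurableSpace Ω]

/-- one step -/
theorem var_le {P : Measure Ω} {D D' D1 : Ω → ℝ} (h : ∀ ω, D1 ω = (D ω + D' ω) / 2) (h2 : MemLp D 2 P)
    (h2' : MemLp D' 2 P) {δ : ℝ} (hs : ∫ ω, D' ω ^ 2 ∂P ≤ ∫ ω, D ω ^ 2 ∂P + δ) :
    ∫ ω, (D' ω - D ω) ^ 2 ∂P ≤ 4 * (∫ ω, D ω ^ 2 ∂P - ∫ ω, D1 ω ^ 2 ∂P) + 2 * δ := by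
  have i1 := h2.integrable_sq
  have i2 := h2'.integrable_sq
  have i3 := (h2'.sub h2).integrable_sq
  have i4 := (h2'.add h2).integrable_sq
  have e1 : ∫ ω, D1 ω ^ 2 ∂P = (∫ ω, ((D' + D) ω) ^ 2 ∂P) / 4 := by
    rw [← integral_div]
    refine integral_congr_ae (Filter.Eventually.of_forall fun ω => ?_)
    simp only [h, Pi.add_apply]
    ring
  have e2 : ∫ ω, (D' ω - D ω) ^ 2 ∂P + ∫ ω, ((D' + D) ω) ^ 2 ∂P =
      2 * ∫ ω, D ω ^ 2 ∂P + 2 * ∫ ω, D' ω ^ 2 ∂P := by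
    rw [← integral_const_mul, ← integral_const_mul, ← integral_add (by exact i3) i4,
      ← integral_add (i1.const_mul 2) (i2.const_mul 2)]
    refine integral_congr_ae (Filter.Eventually.of_forall fun ω => ?_)
    simp only [Pi.add_apply]
    ring
  rw [e1]
  linarith

/-- the sum over all scales -/
theorem sum_var_le {P : Measure Ω} {D D' : ℕ → Ω → ℝ} (h : ∀ k ω, D (k + 1) ω = (D k ω + D' k ω) / 2)
    (k0 : ℕ) (δ : ℕ → ℝ) (L : ℕ) (h2 : ∀ k < L, MemLp (D (k0 + k)) 2 P) (h2' : ∀ k < L, MemLp (D' (k0 + k)) 2 P)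
    (hs : ∀ k < L, ∫ ω, D' (k0 + k) ω ^ 2 ∂P ≤ ∫ ω, D (k0 + k) ω ^ 2 ∂P + δ k) :
    ∑ k ∈ range L, ∫ ω, (D' (k0 + k) ω - D (k0 + k) ω) ^ 2 ∂P ≤
      4 * (∫ ω, D k0 ω ^ 2 ∂P - ∫ ω, D (k0 + L) ω ^ 2 ∂P) + 2 * ∑ k ∈ range L, δ k := by
  induction L with
  | zero => simp
  | succ L ih =>
    rw [sum_range_succ, sum_range_succ]
    have h3 := ih (fun k hk => h2 k (by omega)) (fun k hk => h2' k (by omega)) (fun k hk => hs k (by omega))
    have h4 := var_le (h (k0 + L)) (h2 L (by omega)) (h2' L (by omega)) (hs L (by omega))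
    rw [← add_assoc] at *
    linarith

/-- persistence over a block with small sum of the variances -/
theorem persist {P : Measure Ω} [IsFiniteMeasure P] {D D' : ℕ → Ω → ℝ}
    (h : ∀ k ω, D (k + 1) ω = (D k ω + D' k ω) / 2) (k1 J : ℕ)
    (h2 : ∀ k < J, MemLp (D (k1 + k)) 2 P) (h2' : ∀ k < J, MemLp (D' (k1 + k)) 2 P)
    {η A : ℝ} (hη : 0 < η) (hA : ∑ j ∈ range J, ∫ ω, (D' (k1 + j) ω - D (k1 + j) ω) ^ 2 ∂P ≤ A) :
    P.real {ω | η ≤ |D (k1 + J) ω - D k1 ω|} ≤ J * A / η ^ 2 := by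
  have e : ∀ ω, D (k1 + J) ω - D k1 ω = ∑ j ∈ range J, (D' (k1 + j) ω - D (k1 + j) ω) / 2 := by
    intro ω
    clear h2 h2' hA
    induction J with
    | zero => simp
    | succ J ih =>
      rw [sum_range_succ, ← ih, ← add_assoc, h]
      ring
  have i0 : ∀ j ∈ range J, Integrable (fun ω => (D' (k1 + j) ω - D (k1 + j) ω) ^ 2) P := fun j hj =>
    ((h2' j (mem_range.1 hj)).sub (h2 j (mem_range.1 hj))).integrable_sq
  have i1 : Integrable (fun ω => ∑ j ∈ range J, (D' (k1 + j) ω - D (k1 + j) ω) ^ 2) P := integrable_finsetSum _ i0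
  have h5 : ∀ ω, (D (k1 + J) ω - D k1 ω) ^ 2 ≤ J * ∑ j ∈ range J, (D' (k1 + j) ω - D (k1 + j) ω) ^ 2 := by
    intro ω
    rw [e]
    have := sq_sum_le_card_mul_sum_sq (s := range J) (f := fun j => (D' (k1 + j) ω - D (k1 + j) ω) / 2)
    rw [card_range] at this
    refine this.trans (mul_le_mul_of_nonneg_left (sum_le_sum fun j _ => ?_) (Nat.cast_nonneg _))
    nlinarith [sq_nonneg (D' (k1 + j) ω - D (k1 + j) ω)]
  have h6 : {ω | η ≤ |D (k1 + J) ω - D k1 ω|} ⊆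
      {ω | η ^ 2 ≤ J * ∑ j ∈ range J, (D' (k1 + j) ω - D (k1 + j) ω) ^ 2} := by
    intro ω hω
    change η ≤ _ at hω
    change η ^ 2 ≤ _
    refine le_trans ?_ (h5 ω)
    rw [← sq_abs (D (k1 + J) ω - D k1 ω)]
    exact pow_le_pow_left₀ hη.le hω 2
  have h7 := mul_meas_ge_le_integral_of_nonneg (μ := P)
    (f := fun ω => J * ∑ j ∈ range J, (D' (k1 + j) ω - D (k1 + j) ω) ^ 2)
    (Filter.Eventually.of_forall fun ω => by positivity) (i1.const_mul _) (η ^ 2)
  rw [le_div_iff₀ (by positivity), mul_comm]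
  refine (mul_le_mul_of_nonneg_left (measureReal_mono h6) (by positivity)).trans (h7.trans ?_)
  rw [integral_const_mul, integral_finsetSum _ i0]
  exact mul_le_mul_of_nonneg_left hA (Nat.cast_nonneg _)

/-! ### the competitor -/

/-- the competitor inequality at two times, for one level -/
theorem comp_level {P Q : Measure Ω} [IsFiniteMeasure P] (hQ : Q ≤ P) {D1 D2 : Ω → ℝ} {K η κJ C1 ε1 ε2 ε3 M m : ℝ}
    (hM : Q.real Set.univ ≤ M) (h2 : Q.real {ω | K < |D1 ω|} ≤ ε2) (h3 : P.real {ω | η ≤ |D2 ω - D1 ω|} ≤ ε3)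
    (hC1 : 0 ≤ C1) (hK : K ≤ m + κJ)
    (hcomp : Q.real {ω | D1 ω ≤ m} * Q.real {ω | D1 ω ≤ m + κJ ∧ m + 2 * η ≤ D2 ω} ≤
      C1 * P.real {ω | D1 ω ≤ m ∧ m + η ≤ D2 ω} + ε1) :
    Q.real {ω | D1 ω ≤ m} * Q.real {ω | m + 3 * η ≤ D1 ω} ≤ C1 * ε3 + ε1 + M * (ε2 + ε3) := by
  have : IsFiniteMeasure Q := isFiniteMeasure_of_le P hQ
  have a1 : P.real {ω | D1 ω ≤ m ∧ m + η ≤ D2 ω} ≤ ε3 := by
    refine (measureReal_mono fun ω hω => ?_).trans h3
    have h4 : D1 ω ≤ m := hω.1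
    have h5 : m + η ≤ D2 ω := hω.2
    exact le_trans (by linarith) (le_abs_self (D2 ω - D1 ω))
  have a2 : Q.real {ω | m + 3 * η ≤ D1 ω} ≤
      Q.real {ω | D1 ω ≤ m + κJ ∧ m + 2 * η ≤ D2 ω} + (ε2 + ε3) := by
    have h4 : {ω | m + 3 * η ≤ D1 ω} ⊆ {ω | D1 ω ≤ m + κJ ∧ m + 2 * η ≤ D2 ω} ∪
        ({ω | K < |D1 ω|} ∪ {ω | η ≤ |D2 ω - D1 ω|}) := by
      intro ω hω
      have h5 : m + 3 * η ≤ D1 ω := hω
      by_cases h6 : K < |D1 ω|
      · exact Or.inr (Or.inl h6)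
      by_cases h7 : η ≤ |D2 ω - D1 ω|
      · exact Or.inr (Or.inr h7)
      refine Or.inl ⟨?_, ?_⟩
      · exact ((le_abs_self _).trans (not_lt.1 h6)).trans hK
      · have := (abs_lt.1 (not_le.1 h7)).1
        linarith
    have h5 : Q.real {ω | η ≤ |D2 ω - D1 ω|} ≤ ε3 := by
      refine le_trans ?_ h3
      exact ENNReal.toReal_mono (measure_ne_top _ _) (hQ _)
    calc Q.real {ω | m + 3 * η ≤ D1 ω} ≤ _ := measureReal_mono h4
      _ ≤ _ := measureReal_union_le _ _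
      _ ≤ _ := by gcongr; exact (measureReal_union_le _ _).trans (add_le_add h2 h5)
  have a3 : Q.real {ω | D1 ω ≤ m} ≤ M := (measureReal_mono (Set.subset_univ _)).trans hM
  have a4 : 0 ≤ Q.real {ω | D1 ω ≤ m} := measureReal_nonneg
  have a5 : 0 ≤ ε2 + ε3 := by
    have : 0 ≤ Q.real {ω | K < |D1 ω|} := measureReal_nonneg
    have : 0 ≤ P.real {ω | η ≤ |D2 ω - D1 ω|} := measureReal_nonneg
    linarith
  calc Q.real {ω | D1 ω ≤ m} * Q.real {ω | m + 3 * η ≤ D1 ω} ≤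
        Q.real {ω | D1 ω ≤ m} * (Q.real {ω | D1 ω ≤ m + κJ ∧ m + 2 * η ≤ D2 ω} + (ε2 + ε3)) := by gcongr
    _ = Q.real {ω | D1 ω ≤ m} * Q.real {ω | D1 ω ≤ m + κJ ∧ m + 2 * η ≤ D2 ω} +
        Q.real {ω | D1 ω ≤ m} * (ε2 + ε3) := by ring
    _ ≤ (C1 * P.real {ω | D1 ω ≤ m ∧ m + η ≤ D2 ω} + ε1) + M * (ε2 + ε3) := by gcongr
    _ ≤ (C1 * ε3 + ε1) + M * (ε2 + ε3) := by gcongr
    _ = _ := by ring

/-- **concentration from the competitor inequality at all levels** (no median: a grid) -/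
theorem conc_of_levels {Q : Measure Ω} [IsFiniteMeasure Q] {D1 : Ω → ℝ} {K η e c ε2 : ℝ} (hη : 0 < η) (hc : 0 < c)
    (hcQ : c ≤ Q.real Set.univ) (h2 : Q.real {ω | K < |D1 ω|} ≤ ε2) (hε2 : ε2 < c / 2) (hK0 : 0 ≤ K)
    (hmeas : Measurable D1)
    (hlev : ∀ m, -(K + 1 + 5 * η) ≤ m → m ≤ K + 1 + 5 * η →
      Q.real {ω | D1 ω ≤ m} * Q.real {ω | m + 3 * η ≤ D1 ω} ≤ e) :
    ∃ a, |a| ≤ K + 1 + η ∧ Q.real {ω | 4 * η ≤ |D1 ω - a|} ≤ 4 * e / c := by
  set M := Q.real Set.univ with hMdef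
  have hcompl : ∀ m, Q.real {ω | D1 ω ≤ m} + Q.real {ω | m < D1 ω} = M := by
    intro m
    have hm : MeasurableSet {ω | D1 ω ≤ m} := measurableSet_le hmeas measurable_const
    have h4 := measureReal_add_measureReal_compl (μ := Q) hm
    have h5 : {ω | D1 ω ≤ m}ᶜ = {ω | m < D1 ω} := by
      ext ω
      exact not_le (a := D1 ω) (b := m)
    rw [h5] at h4
    exact h4
  have hex : ∃ j : ℕ, M / 2 ≤ Q.real {ω | D1 ω ≤ -(K + 1) + j * η} := by
    obtain ⟨j, hj⟩ := exists_nat_ge ((2 * K + 1) / η)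
    refine ⟨j, ?_⟩
    have h4 : K ≤ -(K + 1) + j * η := by
      rw [div_le_iff₀ hη] at hj
      linarith
    have h5 : Q.real {ω | -(K + 1) + j * η < D1 ω} ≤ ε2 := by
      refine (measureReal_mono fun ω hω => ?_).trans h2
      have h6 : -(K + 1) + j * η < D1 ω := hω
      exact lt_of_le_of_lt h4 (lt_of_lt_of_le h6 (le_abs_self _))
    have := hcompl (-(K + 1) + j * η)
    linarith
  classical
  set j0 := Nat.find hex with hj0
  have h0 : ¬ (M / 2 ≤ Q.real {ω | D1 ω ≤ -(K + 1) + ((0 : ℕ) : ℝ) * η}) := by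
    have h5 : Q.real {ω | D1 ω ≤ -(K + 1) + ((0 : ℕ) : ℝ) * η} ≤ ε2 := by
      refine (measureReal_mono fun ω hω => ?_).trans h2
      have h6 : D1 ω ≤ -(K + 1) + ((0 : ℕ) : ℝ) * η := hω
      rw [Nat.cast_zero, zero_mul, add_zero] at h6
      change K < |D1 ω|
      have := neg_le_abs (D1 ω)
      linarith
    intro h
    have h6 := h.trans h5
    linarith
  have hpos : 0 < j0 := by
    rcases Nat.eq_zero_or_pos j0 with h | h
    · have h4 := Nat.find_spec hex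
      rw [← hj0, h] at h4
      exact absurd h4 h0
    · exact h
  obtain ⟨j1, hj1⟩ : ∃ j1, j0 = j1 + 1 := ⟨j0 - 1, by omega⟩
  have hf0 := Nat.find_spec hex
  rw [← hj0] at hf0
  have hf1 : ¬ (M / 2 ≤ Q.real {ω | D1 ω ≤ -(K + 1) + (j1 : ℝ) * η}) :=
    Nat.find_min hex (by omega)
  have hj1K : -(K + 1) + (j1 : ℝ) * η < K := by
    by_contra hcon
    push Not at hcon
    refine hf1 ?_
    have h5 : Q.real {ω | -(K + 1) + j1 * η < D1 ω} ≤ ε2 := by
      refine (measureReal_mono fun ω hω => ?_).trans h2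
      have h6 : -(K + 1) + j1 * η < D1 ω := hω
      exact lt_of_le_of_lt hcon (lt_of_lt_of_le h6 (le_abs_self _))
    have := hcompl (-(K + 1) + j1 * η)
    linarith
  have hj1nn : (0 : ℝ) ≤ (j1 : ℝ) * η := by positivity
  set m := -(K + 1) + (j1 : ℝ) * η + η with hm
  have hm' : -(K + 1) + (j0 : ℝ) * η = m := by
    rw [hm, hj1]
    push_cast
    ring
  rw [hm'] at hf0
  refine ⟨m, ?_, ?_⟩
  · rw [abs_le]
    constructor <;> linarith
  · have u1 := hlev m (by linarith) (by linarith)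
    have u2 := hlev (m - 4 * η) (by linarith) (by linarith)
    have u3 : M / 2 ≤ Q.real {ω | m - 4 * η + 3 * η ≤ D1 ω} := by
      have h6 := hcompl (-(K + 1) + (j1 : ℝ) * η)
      have h7 : Q.real {ω | -(K + 1) + (j1 : ℝ) * η < D1 ω} ≤ Q.real {ω | m - 4 * η + 3 * η ≤ D1 ω} := by
        refine measureReal_mono fun ω hω => ?_
        have h8 : -(K + 1) + (j1 : ℝ) * η < D1 ω := hω
        change m - 4 * η + 3 * η ≤ D1 ω
        linarith
      linarith
    have he : 0 ≤ e := le_trans (mul_nonneg measureReal_nonneg measureReal_nonneg) u1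
    have v1 : Q.real {ω | m + 3 * η ≤ D1 ω} ≤ 2 * e / c := by
      rw [le_div_iff₀ hc]
      have : c / 2 * Q.real {ω | m + 3 * η ≤ D1 ω} ≤ e :=
        le_trans (mul_le_mul_of_nonneg_right (by linarith) measureReal_nonneg) u1
      linarith
    have v2 : Q.real {ω | D1 ω ≤ m - 4 * η} ≤ 2 * e / c := by
      rw [le_div_iff₀ hc]
      have : Q.real {ω | D1 ω ≤ m - 4 * η} * (c / 2) ≤ e :=
        le_trans (mul_le_mul_of_nonneg_left (by linarith) measureReal_nonneg) u2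
      linarith
    have h9 : {ω | 4 * η ≤ |D1 ω - m|} ⊆ {ω | m + 3 * η ≤ D1 ω} ∪ {ω | D1 ω ≤ m - 4 * η} := by
      intro ω hω
      have h10 : 4 * η ≤ |D1 ω - m| := hω
      rcases le_abs'.1 h10 with h | h
      · right
        change D1 ω ≤ m - 4 * η
        linarith
      · left
        change m + 3 * η ≤ D1 ω
        linarith
    calc Q.real {ω | 4 * η ≤ |D1 ω - m|} ≤ _ := measureReal_mono h9
      _ ≤ _ := measureReal_union_le _ _
      _ ≤ 2 * e / c + 2 * e / c := add_le_add v1 v2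
      _ = 4 * e / c := by ring

end Pool.Agent.ROT
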