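import Mathlib

/-!
# ROT, block C: the abstract system (helper28)

`Om b` = trajectories of the dynamics (passes of a column with parameter `b`) modulo translation, `μ b` the
critical measure (finite, invariant under one pass), `X b v` the increment of the height of the top in the
direction `v : Bool × Bool` (`(j, true)` is the direction `u_j`, `(j, false)` the direction `-u_j`), `W b j` the
width in the direction `u_j`.
-/

set_option autoImplicit false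

open MeasureTheory

namespace Pool.Agent.ROT

/-- the family of systems, `b : B` -/
structure Sys (B : Type*) (Om : B → Type*) [∀ b, MeasurableSpace (Om b)] where
  /-- the measure of the trajectories modulo translation -/
  μ : ∀ b, Measure (Om b)
  /-- one pass later -/
  th : ∀ b, Om b → Om b
  /-- one step increments of the four heights -/
  X : ∀ b, Bool × Bool → Om b → ℝ
  /-- the two widths -/
  W : ∀ b, Bool → Om b → ℝ
  fin : ∀ b, IsFiniteMeasure (μ b)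
  mp : ∀ b, MeasurePreserving (th b) (μ b) (μ b)
  mX : ∀ b v, Measurable (X b v)
  mW : ∀ b j, Measurable (W b j)
  Wpos : ∀ b j ω, 1 ≤ W b j ω
  cocyc : ∀ b j ω, W b j (th b ω) - W b j ω = X b (j, true) ω + X b (j, false) ω

namespace Sys

variable {B : Type*} {Om : B → Type*} [∀ b, MeasurableSpace (Om b)] (Y : Sys B Om)

/-- the increment of the height over `t` passes -/
def S (b : B) (v : Bool × Bool) (t : ℕ) (ω : Om b) : ℝ := birkhoffSum (Y.th b) (Y.X b v) t ω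

/-- the size -/
def R (b : B) (ω : Om b) : ℝ := max (Y.W b false ω) (Y.W b true ω)

/-- the window of sizes `[r N, N / r]` -/
def win (b : B) (r N : ℝ) : Set (Om b) := {ω | r * N ≤ Y.R b ω ∧ Y.R b ω ≤ N / r}

/-- **the hypotheses**; all the constants are uniform in `b` -/
structure Hyp : Prop where
  /-- lower bound of the masses -/
  mass_lo : ∃ c : ℝ, 0 < c ∧ ∃ N0 : ℝ, ∀ b j, ∀ N : ℝ, N0 ≤ N →
    c / N ^ 2 ≤ (Y.μ b).real {ω | N ≤ Y.W b j ω ∧ Y.W b j ω < 2 * N}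
  /-- upper bound of the masses -/
  mass_up : ∃ C : ℝ, ∀ b, ∀ N : ℝ, 1 ≤ N → (Y.μ b).real {ω | N ≤ Y.R b ω} ≤ C / N ^ 2
  /-- tail of one step, for the global measure -/
  tail : ∃ C c : ℝ, 0 < c ∧ ∀ b v, ∀ s : ℝ, 0 ≤ s → (Y.μ b).real {ω | s ≤ |Y.X b v ω|} ≤ C * Real.exp (-(c * s))
  /-- bounded speed at mesoscopic times -/
  mom : ∃ C N0 : ℝ, ∀ b v, ∀ N : ℝ, N0 ≤ N → ∀ t : ℕ, N ^ ((1 : ℝ) / 8) ≤ t → (t : ℝ) ≤ N ^ ((1 : ℝ) / 2) →
    ∫⁻ ω in {ω | N ≤ Y.R b ω}, ENNReal.ofReal (Y.S b v t ω ^ 4) ∂(Y.μ b) ≤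
      ENNReal.ofReal (C * (t : ℝ) ^ 4 / N ^ 2)

/-- **the competitor inequality** (local surgery + locality) in the direction `v`, for the window `[r N, N / r]` -/
def Comp (v : Bool × Bool) (r : ℝ) : Prop :=
  ∀ ε κ : ℝ, 0 < ε → 0 < κ → ∃ C N0 : ℝ, ∀ b, ∀ N : ℝ, N0 ≤ N → ∀ t1 t : ℕ, t1 ≤ t →
    N ^ ((1 : ℝ) / 4) ≤ t1 → (t : ℝ) ≤ N ^ ((3 : ℝ) / 8) → ∀ p q : ℝ,
      (N ^ 2 * (Y.μ b).real (Y.win b r N ∩ {ω | Y.S b v t1 ω ≤ p})) *
        (N ^ 2 * (Y.μ b).real (Y.win b r N ∩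
          {ω | Y.S b v t1 ω ≤ p + κ * t ∧ q + 2 * κ * t ≤ Y.S b v t ω})) ≤
      C * (N ^ 2 * (Y.μ b).real (Y.win b (r / 2) N ∩ {ω | Y.S b v t1 ω ≤ p ∧ q ≤ Y.S b v t ω})) + ε

/-- **output of C3 + C4**: at every large size there is one mesoscopic time at which the increment is
deterministic -/
def Lin (v : Bool × Bool) (r : ℝ) : Prop :=
  ∀ ε : ℝ, 0 < ε → ∃ N0 : ℝ, ∀ b, ∀ N : ℝ, N0 ≤ N → ∃ t : ℕ, N ^ ((1 : ℝ) / 4) ≤ t ∧
    (t : ℝ) ≤ N ^ ((3 : ℝ) / 8) ∧ ∃ a : ℝ,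
      ∫⁻ ω in Y.win b r N, ENNReal.ofReal |Y.S b v t ω - a * t| ∂(Y.μ b) ≤ ENNReal.ofReal (ε * t / N ^ 2)

end Sys

end Pool.Agent.ROT
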