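import Pool.Agent.ART.DCut

/-!
# ROT, row Ce (helper55): the feet of a cap

The arm R goes down on a fixed side of the arm S, because the first step is `up`: turning numbers.
-/

set_option autoImplicit false

namespace HexObs

namespace ART

open Finset

/-- the side of the state: a function of the direction only -/
def sig (d : Pt) : ℤ := if rotL (-d) = up then -1 else 1

namespace CSd

/-- the winding of an arc and the side of its end -/
lemma arc_side55 {v0 d0 : Pt} (h0 : d0 ∈ dirs) {t : List Bool}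
    (hinj : ∀ i k, i < k → k ≤ t.length → vx v0 d0 t i ≠ vx v0 d0 t k)
    (hhalf : ∀ i, 1 ≤ i → i ≤ t.length → 0 < ip (vx v0 d0 t i - v0) d0)
    (hd : dx d0 t t.length = -d0)
    (hexit : ∀ i, 1 ≤ i → i ≤ t.length → 0 < ip (tip v0 d0 t - vx v0 d0 t i) (-d0)) :
    (0 < cross d0 (tip v0 d0 t - v0) ∧ wind t = 3) ∨ (cross d0 (tip v0 d0 t - v0) < 0 ∧ wind t = -3) := by
  have hlen : 1 ≤ t.length := by
    by_contra hcon
    have hz : t.length = 0 := by omega
    rw [hz] at hd
    have hd' : d0 = -d0 := hd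
    obtain ⟨⟨_, _, _, _, a5⟩, _⟩ := dirs_distinct d0 h0
    exact a5 hd'.symm
  have hexit' : ∀ i, 1 ≤ i → i ≤ t.length → 0 < ip (tip v0 d0 t - vx v0 d0 t i) (dx d0 t t.length) := by
    intro i h1 h2
    rw [hd]
    exact hexit i h1 h2
  obtain ⟨_, _, hc⟩ := wind_bounds h0 hlen hinj hhalf hexit'
  have e : cross d0 (vx v0 d0 t t.length + tip v0 d0 t - (v0 + v0)) = 2 * cross d0 (tip v0 d0 t - v0) := by
    have h1 : vx v0 d0 t t.length = tip v0 d0 t + d0 := by
      show _ = vx v0 d0 t t.length + dx d0 t t.length + d0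
      rw [hd]
      abel
    rw [h1]
    simp only [cross, Prod.fst_sub, Prod.snd_sub, Prod.fst_add, Prod.snd_add]
    ring
  rw [e] at hc
  obtain ⟨⟨a1, a2, a3, a4, a5⟩, ⟨b1, b2, b3, b4⟩, ⟨c1, c2, c3⟩, ⟨e1, e2⟩, f1⟩ := dirs_distinct d0 h0
  rcases wind_exit h0 hinj hhalf hexit' with ⟨hd', hw⟩ | ⟨hd', hw⟩ | ⟨hd', hw⟩ | ⟨hd', hw⟩ | ⟨hd', hw⟩ | ⟨hd', hw⟩
  · exact absurd (hd.symm.trans hd') a5
  · exact absurd (hd.symm.trans hd') b4
  · exact absurd (hd.symm.trans hd') c3
  · exact absurd (hd.symm.trans hd') e2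
  · exact absurd (hd.symm.trans hd') f1
  · rcases hw with hw | hw
    · left
      exact ⟨by omega, hw⟩
    · right
      exact ⟨by omega, hw⟩

/-- a walk that leaves in the direction of its start has winding 0 -/
lemma wind0_55 {v0 d0 : Pt} (h0 : d0 ∈ dirs) {t : List Bool}
    (hinj : ∀ i k, i < k → k ≤ t.length → vx v0 d0 t i ≠ vx v0 d0 t k)
    (hhalf : ∀ i, 1 ≤ i → i ≤ t.length → 0 < ip (vx v0 d0 t i - v0) d0)
    (hd : dx d0 t t.length = d0)
    (hexit : ∀ i, 1 ≤ i → i ≤ t.length → 0 < ip (tip v0 d0 t - vx v0 d0 t i) d0) : wind t = 0 := by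
  have hexit' : ∀ i, 1 ≤ i → i ≤ t.length → 0 < ip (tip v0 d0 t - vx v0 d0 t i) (dx d0 t t.length) := by
    intro i h1 h2
    rw [hd]
    exact hexit i h1 h2
  obtain ⟨⟨a1, a2, a3, a4, a5⟩, ⟨b1, b2, b3, b4⟩, ⟨c1, c2, c3⟩, ⟨e1, e2⟩, f1⟩ := dirs_distinct d0 h0
  rcases wind_exit h0 hinj hhalf hexit' with ⟨hd', hw⟩ | ⟨hd', hw⟩ | ⟨hd', hw⟩ | ⟨hd', hw⟩ | ⟨hd', hw⟩ | ⟨hd', hw⟩
  · exact hw
  · exact absurd (hd'.symm.trans hd) a1
  · exact absurd (hd'.symm.trans hd) a2
  · exact absurd (hd'.symm.trans hd) a3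
  · exact absurd (hd'.symm.trans hd) a4
  · exact absurd (hd'.symm.trans hd) a5

/-- the directions at the top -/
lemma dir_top55 : ∀ d ∈ dirs, ∀ e ∈ dirs, ∀ b : Bool, turn b e = up → ip up d ≤ 0 → ip (-e) d ≤ 0 →
    ip up d = -1 ∧ turn (!b) e = d ∧ turn (!b) (-d) = up ∧ sig d = sgn b := by
  unfold sig
  decide

/-- no edge straight to the top -/
lemma dir_first55 : ∀ d ∈ dirs, ∀ b : Bool, turn b d = up → 0 < ip up d := by
  decide

end CSd

open CSd

/-- **the side of the feet of a cap** -/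
theorem cap_side {d : Pt} (hd : d ∈ dirs) {z : Pt × Pt} {R S : List Bool} (hC : Cap d z R S) :
    0 < sig d * cross d (z.1 - z.2) := by
  have hS := hC.posS hd
  obtain ⟨b, S0, rfl⟩ : ∃ b S0, S = S0 ++ [b] := by
    rcases List.eq_nil_or_concat S with h | ⟨S0, b, h⟩
    · rw [h] at hS
      exact absurd hS (by decide)
    · exact ⟨b, S0, by rw [h, List.concat_eq_append]⟩
  have hl : (S0 ++ [b]).length = S0.length + 1 := by simp
  have lz := hC.lev
  have h00 := hC.le0
  have lxb : ∀ {p : Pt}, LexB d p → ip p d ≤ 0 := by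
    rintro p (h | ⟨h, -⟩)
    · exact h.le
    · exact h.le
  -- the last turn
  obtain ⟨e, he⟩ : ∃ e, e = dx d S0 S0.length := ⟨_, rfl⟩
  have hed : e ∈ dirs := by
    rw [he]
    exact dx_mem hd S0 _
  have hdx : turn b e = up := by
    have h1 := hC.hdS
    rw [hl] at h1
    have h2 : dx d (S0 ++ [b]) (S0.length + 1) = dx (dx d S0 S0.length) [b] 1 := dx_apR d S0 [b] 1
    rw [h2, ← he] at h1
    exact h1
  -- the vertex before
  have hvx : vx (z.2 - d) d (S0 ++ [b]) S0.length + e = oo := by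
    have h1 := hC.enS
    rw [hl, vx_succ, dx_apL _ _ le_rfl, ← he] at h1
    exact h1
  have hup0 : ip up d ≤ 0 := by
    rcases Nat.eq_zero_or_pos R.length with h | h
    · have h1 := hC.hdR
      rw [h] at h1
      have h2 : up = -d := h1
      rw [h2, ip_negl, ip_dd hd]
      norm_num
    · have h1 := hC.tpR 1 h
      rw [vx_one'] at h1
      have h2 := lxb h1
      rw [ip_add_left, ip_oo, zero_add] at h2
      exact h2
  have hS0 : 1 ≤ S0.length := by
    rcases Nat.eq_zero_or_pos S0.length with h | h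
    · exfalso
      have h1 : S0 = [] := List.length_eq_zero_iff.1 h
      rw [h1] at he
      have h2 : e = d := he
      rw [h2] at hdx
      have := dir_first55 d hd b hdx
      omega
    · exact h
  have hme : ip (-e) d ≤ 0 := by
    have h1 := hC.tpS S0.length hS0 (by omega)
    have h2 := lxb h1
    have h3 : vx (z.2 - d) d (S0 ++ [b]) S0.length = -e := by
      have h4 : vx (z.2 - d) d (S0 ++ [b]) S0.length = oo - e := eq_sub_of_add_eq hvx
      rw [h4]
      exact zero_sub e
    rw [h3] at h2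
    exact h2
  obtain ⟨k1, k2, k3, k4⟩ := dir_top55 d hd e hed b hdx hup0 hme
  -- the arm R
  have hndir : -d ∈ dirs := neg_mem_dirs hd
  have gv : ∀ i, vx (oo + d) (-d) ([!b] ++ R) (1 + i) = vx oo up R i := by
    intro i
    have h1 := vx_apR (oo + d) (-d) [!b] R i
    have h2 : vx (oo + d) (-d) [!b] [!b].length = oo := by
      show oo + d + -d = oo
      abel
    have h3 : dx (-d) [!b] [!b].length = up := k3
    rw [h2, h3] at h1
    exact h1
  have gd : dx (-d) ([!b] ++ R) ([!b] ++ R).length = -d := by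
    have h1 := dx_apR (-d) [!b] R R.length
    have h3 : dx (-d) [!b] [!b].length = up := k3
    rw [h3, hC.hdR] at h1
    rw [List.length_append]
    exact h1
  have lR : ([!b] ++ R).length = R.length + 1 := by simp
  have ipn : ∀ p : Pt, ip p (-d) = - ip p d := by
    intro p
    unfold ip
    simp only [Prod.fst_neg, Prod.snd_neg]
    ring
  have ipod : ip (oo + d) d = 2 := by rw [ip_add_left, ip_oo, ip_dd hd, zero_add]
  have wR : wind ([!b] ++ R) = 0 := by
    apply wind0_55 (v0 := oo + d) hndir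
    · intro i k hik hk hEq
      rw [lR] at hk
      obtain ⟨k', rfl⟩ : ∃ k', k = 1 + k' := ⟨k - 1, by omega⟩
      rw [gv k'] at hEq
      rcases Nat.eq_zero_or_pos i with h | h
      · rw [h, vx_zero'] at hEq
        have h1 := lxb (hC.tpR k' (by omega))
        rw [← hEq, ipod] at h1
        omega
      · obtain ⟨i', rfl⟩ : ∃ i', i = 1 + i' := ⟨i - 1, by omega⟩
        rw [gv i'] at hEq
        have := hC.injR i' k' (by omega) (by omega) hEq
        omega
    · intro i h1 hi
      rw [lR] at hi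
      obtain ⟨i', rfl⟩ : ∃ i', i = 1 + i' := ⟨i - 1, by omega⟩
      rw [gv i', ipn, ip_sub_left, ipod]
      have h2 := lxb (hC.tpR i' (by omega))
      omega
    · exact gd
    · intro i h1 hi
      rw [lR] at hi
      obtain ⟨i', rfl⟩ : ∃ i', i = 1 + i' := ⟨i - 1, by omega⟩
      have ht : tip (oo + d) (-d) ([!b] ++ R) = z.1 - d := by
        show vx (oo + d) (-d) ([!b] ++ R) ([!b] ++ R).length + dx (-d) ([!b] ++ R) ([!b] ++ R).length = _
        rw [gd, lR, Nat.add_comm, gv, hC.enR]
        abel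
      rw [ht, gv i', ipn, ip_sub_left, ip_sub_d hd]
      have h2 := hC.loR i' (by omega)
      omega
  -- the arm S
  have vS : ∀ i, i ≤ S0.length + 1 → vx (z.2 - d) d (S0 ++ [!b]) i = vx (z.2 - d) d (S0 ++ [b]) i := by
    intro i hi
    rw [vx_apL _ _ _ hi, vx_apL _ _ _ hi]
  have l' : (S0 ++ [!b]).length = S0.length + 1 := by simp
  have dS : dx d (S0 ++ [!b]) (S0 ++ [!b]).length = d := by
    rw [l']
    have h2 : dx d (S0 ++ [!b]) (S0.length + 1) = dx (dx d S0 S0.length) [!b] 1 := dx_apR d S0 [!b] 1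
    rw [h2, ← he]
    exact k2
  have lowS : ∀ i, 1 ≤ i → i ≤ S0.length + 1 → ip z.1 d ≤ ip (vx (z.2 - d) d (S0 ++ [b]) i) d := fun i h1 h2 =>
    hC.loS i h1 (by omega)
  have wS : wind (S0 ++ [!b]) = 0 := by
    apply wind0_55 (v0 := z.2 - d) hd
    · intro i k hik hk hEq
      rw [l'] at hk
      rw [vS i (by omega), vS k (by omega)] at hEq
      rcases Nat.eq_zero_or_pos i with h | h
      · rw [h, vx_zero'] at hEq
        have h1 := lowS k (by omega) (by omega)
        rw [← hEq, ip_sub_d hd] at h1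
        omega
      · have := hC.injS i k h (by omega) (by omega) (by omega) hEq
        omega
    · intro i h1 hi
      rw [l'] at hi
      rw [vS i (by omega), ip_sub_left, ip_sub_d hd]
      have := lowS i h1 (by omega)
      omega
    · exact dS
    · intro i h1 hi
      rw [l'] at hi
      have ht : tip (z.2 - d) d (S0 ++ [!b]) = oo + d := by
        show vx (z.2 - d) d (S0 ++ [!b]) (S0 ++ [!b]).length + dx d (S0 ++ [!b]) (S0 ++ [!b]).length = _
        rw [dS, l', vS _ le_rfl]
        have h2 := hC.enS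
        rw [hl] at h2
        rw [h2]
      rw [ht, vS i (by omega), ip_sub_left, ipod]
      have h2 := lxb (hC.tpS i h1 (by omega))
      omega
  -- the arc
  have lA : ((S0 ++ [b]) ++ R).length = S0.length + 1 + R.length := by
    rw [List.length_append, hl]
  have aS : ∀ i, i ≤ S0.length + 1 → vx (z.2 - d) d ((S0 ++ [b]) ++ R) i = vx (z.2 - d) d (S0 ++ [b]) i := fun i hi =>
    vx_apL _ _ _ (by omega)
  have aR : ∀ i, vx (z.2 - d) d ((S0 ++ [b]) ++ R) (S0.length + 1 + i) = vx oo up R i := fun i => by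
    have h1 := vx_apR (z.2 - d) d (S0 ++ [b]) R i
    rw [hC.enS, hC.hdS, hl] at h1
    exact h1
  have aD : dx d ((S0 ++ [b]) ++ R) ((S0 ++ [b]) ++ R).length = -d := by
    have h1 := dx_apR d (S0 ++ [b]) R R.length
    rw [hC.hdS, hC.hdR, hl] at h1
    rw [lA]
    exact h1
  have aT : tip (z.2 - d) d ((S0 ++ [b]) ++ R) = z.1 - d := by
    show vx (z.2 - d) d ((S0 ++ [b]) ++ R) ((S0 ++ [b]) ++ R).length + dx d ((S0 ++ [b]) ++ R) ((S0 ++ [b]) ++ R).length = _
    rw [aD, lA, aR, hC.enR]
    abel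
  have kind : ∀ i, 1 ≤ i → i ≤ S0.length + 1 + R.length →
      (i ≤ S0.length + 1 ∧ vx (z.2 - d) d ((S0 ++ [b]) ++ R) i = vx (z.2 - d) d (S0 ++ [b]) i) ∨
      (∃ j, 1 ≤ j ∧ j ≤ R.length ∧ i = S0.length + 1 + j ∧ vx (z.2 - d) d ((S0 ++ [b]) ++ R) i = vx oo up R j) := by
    intro i h1 hi
    rcases Nat.lt_or_ge (S0.length + 1) i with h | h
    · right
      refine ⟨i - (S0.length + 1), by omega, by omega, by omega, ?_⟩
      conv_lhs => rw [show i = S0.length + 1 + (i - (S0.length + 1)) by omega]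
      exact aR _
    · exact Or.inl ⟨h, aS i h⟩
  have lowA : ∀ i, 1 ≤ i → i ≤ S0.length + 1 + R.length → ip z.1 d ≤ ip (vx (z.2 - d) d ((S0 ++ [b]) ++ R) i) d := by
    intro i h1 hi
    rcases kind i h1 hi with ⟨a1, a2⟩ | ⟨a, a1, a2, a3, a4⟩
    · rw [a2]
      exact lowS i h1 a1
    · rw [a4]
      exact hC.loR a a2
  have key := arc_side55 (v0 := z.2 - d) hd (t := (S0 ++ [b]) ++ R) ?_ ?_ aD ?_
  · rw [aT, wind_append, wind_append] at key
    have e0 : z.1 - d - (z.2 - d) = z.1 - z.2 := by abel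
    rw [e0] at key
    rw [wind_append] at wR wS
    have s1 : ∀ c : Bool, wind [c] = sgn c := by decide
    rw [s1] at wR wS key
    have s2 : sgn (!b) = - sgn b := by cases b <;> rfl
    rw [s2] at wR wS
    rw [k4]
    rcases key with ⟨c1, c2⟩ | ⟨c1, c2⟩
    · have : sgn b = 1 := by omega
      rw [this, one_mul]
      exact c1
    · have : sgn b = -1 := by omega
      rw [this]
      omega
  · intro i k hik hk hEq
    rw [lA] at hk
    rcases Nat.eq_zero_or_pos i with h | h
    · rw [h, vx_zero'] at hEq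
      have h1 := lowA k (by omega) hk
      rw [← hEq, ip_sub_d hd] at h1
      omega
    · rcases kind i h (by omega) with ⟨a1, a2⟩ | ⟨a, a1, a2, a3, a4⟩
      · rw [a2] at hEq
        rcases kind k (by omega) hk with ⟨b1, b2⟩ | ⟨j, b1, b2, b3, b4⟩
        · rw [b2] at hEq
          have := hC.injS i k h (by omega) (by omega) (by omega) hEq
          omega
        · rw [b4] at hEq
          rcases Nat.lt_or_ge i (S0.length + 1) with h' | h'
          · exact hC.dis j i b2 h (by omega) hEq.symm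
          · have h5 : i = S0.length + 1 := by omega
            have h6 := hC.enS
            rw [hl, ← h5, hEq] at h6
            have := hC.injR j 0 b2 (Nat.zero_le _) h6
            omega
      · rw [a4] at hEq
        rcases kind k (by omega) hk with ⟨b1, b2⟩ | ⟨j, b1, b2, b3, b4⟩
        · omega
        · rw [b4] at hEq
          have := hC.injR a j a2 b2 hEq
          omega
  · intro i h1 hi
    rw [lA] at hi
    rw [ip_sub_left, ip_sub_d hd]
    have := lowA i h1 hi
    omega
  · intro i h1 hi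
    rw [lA] at hi
    rw [aT, ipn, ip_sub_left, ip_sub_d hd]
    have := lowA i h1 hi
    omega

end ART

end HexObs
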