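import Pool.Agent.ROT.Kern

/-!
The column model (ROT, block E, abstract part): a configuration is a sequence of column contents `c : ℤ → C`, empty
(`e0`) outside a finite set; `P c` says that the contents fit together to one polygon; the datum of the strip of the
two columns `j - 1`, `j` is `sd (c (j-1)) (c j)` (boundary datum and inner pairing).  The strip identity for the pair
of weights (`u`, `v`) gives the fibre identity of the swap of the columns `j - 1` and `j`.
-/

set_option autoImplicit false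

open scoped ENNReal

namespace ROTK

variable {C SD : Type*}

/-- replace the contents of the columns `j - 1` and `j`. -/
def upd (c : ℤ → C) (j : ℤ) (x y : C) : ℤ → C := Function.update (Function.update c (j - 1) x) j y

theorem upd_l (c : ℤ → C) (j : ℤ) (x y : C) : upd c j x y (j - 1) = x := by
  simp [upd]

theorem upd_r (c : ℤ → C) (j : ℤ) (x y : C) : upd c j x y j = y := by
  simp [upd]

theorem upd_o (c : ℤ → C) (j : ℤ) (x y : C) {i : ℤ} (h1 : i ≠ j - 1) (h2 : i ≠ j) : upd c j x y i = c i := by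
  simp [upd, Function.update_of_ne h2, Function.update_of_ne h1]

theorem upd_upd (c : ℤ → C) (j : ℤ) (x y x' y' : C) : upd (upd c j x y) j x' y' = upd c j x' y' := by
  funext i
  by_cases h2 : i = j
  · subst h2; rw [upd_r, upd_r]
  · by_cases h1 : i = j - 1
    · subst h1; rw [upd_l, upd_l]
    · rw [upd_o _ _ _ _ h1 h2, upd_o _ _ _ _ h1 h2, upd_o _ _ _ _ h1 h2]

theorem upd_self (c : ℤ → C) (j : ℤ) : upd c j (c (j - 1)) (c j) = c := by
  funext i
  by_cases h2 : i = j
  · subst h2; rw [upd_r]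
  · by_cases h1 : i = j - 1
    · subst h1; rw [upd_l]
    · rw [upd_o _ _ _ _ h1 h2]

theorem upd_inj (c : ℤ → C) (j : ℤ) : Function.Injective fun p : C × C => upd c j p.1 p.2 := by
  rintro ⟨x, y⟩ ⟨x', y'⟩ h
  simp only at h
  have h1 := congrFun h (j - 1)
  have h2 := congrFun h j
  rw [upd_l, upd_l] at h1
  rw [upd_r, upd_r] at h2
  rw [h1, h2]

/-- the swapped sequence of weights. -/
def sww {α : Type*} (w : ℤ → α) (j : ℤ) : ℤ → α := w ∘ Equiv.swap (j - 1) j

theorem sww_l {α : Type*} (w : ℤ → α) (j : ℤ) : sww w j (j - 1) = w j := by simp [sww]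

theorem sww_r {α : Type*} (w : ℤ → α) (j : ℤ) : sww w j j = w (j - 1) := by simp [sww]

theorem sww_o {α : Type*} (w : ℤ → α) (j : ℤ) {i : ℤ} (h1 : i ≠ j - 1) (h2 : i ≠ j) : sww w j i = w i := by
  simp [sww, Equiv.swap_apply_of_ne_of_ne h1 h2]

theorem sww_sww {α : Type*} (w : ℤ → α) (j : ℤ) : sww (sww w j) j = w := by
  funext i
  simp [sww]

/-- finite support. -/
def Fs (e0 : C) (c : ℤ → C) : Prop := {j | c j ≠ e0}.Finite

theorem Fs.upd {e0 : C} {c : ℤ → C} (h : Fs e0 c) (j : ℤ) (x y : C) : Fs e0 (upd c j x y) := by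
  refine (h.union (Set.toFinite {j - 1, j})).subset fun i hi => ?_
  by_cases h2 : i = j
  · exact Or.inr (Or.inr h2)
  · by_cases h1 : i = j - 1
    · exact Or.inr (Or.inl h1)
    · refine Or.inl ?_
      have := hi
      rw [Set.mem_ofPred_eq, upd_o _ _ _ _ h1 h2] at this
      exact this

theorem fs_upd {e0 : C} {c : ℤ → C} {j : ℤ} {x y : C} : Fs e0 (upd c j x y) ↔ Fs e0 c := by
  constructor
  · intro h
    have := h.upd j (c (j - 1)) (c j)
    rwa [upd_upd, upd_self] at this
  · exact fun h => h.upd j x y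

open Classical in
/-- **the weight of a configuration**: the product of the weights of the columns. -/
noncomputable def cw (e0 : C) (P : (ℤ → C) → Prop) (w : ℤ → C → ℝ≥0∞) (c : ℤ → C) : ℝ≥0∞ :=
  if Fs e0 c ∧ P c then ∏ᶠ j, w j (c j) else 0

theorem prod_upd {e0 : C} {w : ℤ → C → ℝ≥0∞} (hw : ∀ j, w j e0 = 1) {c : ℤ → C} (h : Fs e0 c) (j : ℤ) (x y : C) :
    ∏ᶠ i, w i (upd c j x y i) = (∏ᶠ i, w i (upd c j e0 e0 i)) * (w (j - 1) x * w j y) := by
  classical
  have hne : j - 1 ≠ j := by omega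
  let s : Finset ℤ := h.toFinset ∪ {j - 1, j}
  have hs : ∀ x y : C, Function.mulSupport (fun i => w i (upd c j x y i)) ⊆ (s : Set ℤ) := by
    intro x y i hi
    rw [Function.mem_mulSupport] at hi
    simp only [s, Finset.coe_union, Set.mem_union, Finset.coe_insert, Finset.coe_singleton]
    by_cases h2 : i = j
    · exact Or.inr (Or.inr h2)
    · by_cases h1 : i = j - 1
      · exact Or.inr (Or.inl h1)
      · left
        rw [upd_o _ _ _ _ h1 h2] at hi
        rw [Set.Finite.coe_toFinset, Set.mem_ofPred_eq]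
        intro h3
        exact hi (by rw [h3, hw])
  rw [finprod_eq_prod_of_mulSupport_subset _ (hs x y), finprod_eq_prod_of_mulSupport_subset _ (hs e0 e0)]
  have hj : j ∈ s := by simp [s]
  have hj1 : j - 1 ∈ s.erase j := by simp [s, hne]
  rw [← Finset.mul_prod_erase s _ hj, ← Finset.mul_prod_erase s (fun i => w i (upd c j e0 e0 i)) hj,
    ← Finset.mul_prod_erase _ _ hj1, ← Finset.mul_prod_erase _ (fun i => w i (upd c j e0 e0 i)) hj1]
  rw [upd_r, upd_l, upd_r, upd_l, hw, hw, one_mul, one_mul]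
  have e : ∏ i ∈ (s.erase j).erase (j - 1), w i (upd c j x y i) =
      ∏ i ∈ (s.erase j).erase (j - 1), w i (upd c j e0 e0 i) := by
    refine Finset.prod_congr rfl fun i hi => ?_
    rw [Finset.mem_erase, Finset.mem_erase] at hi
    rw [upd_o _ _ _ _ hi.1 hi.2.1, upd_o _ _ _ _ hi.1 hi.2.1]
  rw [e]
  ring

/-- the strip sums. -/
noncomputable def ss (sd : C → C → SD) (u v : C → ℝ≥0∞) (s : SD) : ℝ≥0∞ :=
  open Classical in ∑' p : C × C, if sd p.1 p.2 = s then u p.1 * v p.2 else 0

/-- **the strip identity** for the pair of weights. -/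
structure SI (sd : C → C → SD) (Good : Set SD) (u v : C → ℝ≥0∞) : Prop where
  eq : ∀ s ∈ Good, ss sd u v s = ss sd v u s
  fin : ∀ s ∈ Good, ss sd u v s ≠ ∞

theorem SI.symm {sd : C → C → SD} {Good : Set SD} {u v : C → ℝ≥0∞} (h : SI sd Good u v) : SI sd Good v u :=
  ⟨fun s hs => (h.eq s hs).symm, fun s hs => (h.eq s hs) ▸ h.fin s hs⟩

theorem SI.refl {sd : C → C → SD} {Good : Set SD} {u : C → ℝ≥0∞} (h : ∀ s ∈ Good, ss sd u u s ≠ ∞) :
    SI sd Good u u := ⟨fun _ _ => rfl, h⟩

/-- the datum of the strip of the columns `j - 1`, `j`. -/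
def bj (e0 : C) (sd : C → C → SD) (j : ℤ) (c : ℤ → C) : (ℤ → C) × SD := (upd c j e0 e0, sd (c (j - 1)) (c j))

/-- the good data. -/
def Gj (Good : Set SD) : Set ((ℤ → C) × SD) := {β | β.2 ∈ Good}

/-- the condition `P` depends only on the datum of the strip. -/
def Inv (sd : C → C → SD) (Good : Set SD) (P : (ℤ → C) → Prop) : Prop :=
  ∀ (c : ℤ → C) (j : ℤ) (x y : C), sd (c (j - 1)) (c j) ∈ Good → sd x y = sd (c (j - 1)) (c j) → P c → P (upd c j x y)

theorem Inv.iff {sd : C → C → SD} {Good : Set SD} {P : (ℤ → C) → Prop} (h : Inv sd Good P) {c : ℤ → C} {j : ℤ}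
    {x y x' y' : C} (hG : sd x y ∈ Good) (he : sd x' y' = sd x y) : P (upd c j x y) ↔ P (upd c j x' y') := by
  constructor
  · intro hP
    have := h (upd c j x y) j x' y' (by rw [upd_l, upd_r]; exact hG) (by rw [upd_l, upd_r]; exact he) hP
    rwa [upd_upd] at this
  · intro hP
    have := h (upd c j x' y') j x y (by rw [upd_l, upd_r, he]; exact hG) (by rw [upd_l, upd_r]; exact he.symm) hP
    rwa [upd_upd] at this

open Classical in
/-- the mass of a fibre. -/
theorem fm_cw {e0 : C} {sd : C → C → SD} {Good : Set SD} {P : (ℤ → C) → Prop} (hP : Inv sd Good P)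
    {w : ℤ → C → ℝ≥0∞} (hw : ∀ j, w j e0 = 1) (j : ℤ) (o : ℤ → C) {s : SD} (hs : s ∈ Good) :
    fm (cw e0 P w) (bj e0 sd j) (o, s) =
      (if o = upd o j e0 e0 ∧ Fs e0 o ∧ ∃ x y, sd x y = s ∧ P (upd o j x y) then ∏ᶠ i, w i (o i) else 0)
        * ss sd (w (j - 1)) (w j) s := by
  by_cases ho : o = upd o j e0 e0
  · have hsup : Function.support (fun c => if bj e0 sd j c = (o, s) then cw e0 P w c else 0) ⊆
        Set.range fun p : C × C => upd o j p.1 p.2 := by
      intro c hc
      rw [Function.mem_support] at hc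
      have h1 : bj e0 sd j c = (o, s) := by
        by_contra h
        exact hc (if_neg h)
      refine ⟨(c (j - 1), c j), ?_⟩
      have h2 : upd c j e0 e0 = o := congrArg Prod.fst h1
      show upd o j (c (j - 1)) (c j) = c
      rw [← h2, upd_upd, upd_self]
    have e1 : fm (cw e0 P w) (bj e0 sd j) (o, s) =
        ∑' p : C × C, if bj e0 sd j (upd o j p.1 p.2) = (o, s) then cw e0 P w (upd o j p.1 p.2) else 0 := by
      have e2 := (upd_inj o j).tsum_eq hsup
      rw [e2]
      unfold fm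
      refine tsum_congr fun c => ?_
      congr
    rw [e1]
    unfold ss
    rw [← ENNReal.tsum_mul_left]
    refine tsum_congr fun p => ?_
    have hb : bj e0 sd j (upd o j p.1 p.2) = (o, sd p.1 p.2) := by
      unfold bj
      rw [upd_upd, upd_l, upd_r, ← ho]
    rw [hb]
    by_cases h1 : sd p.1 p.2 = s
    · rw [if_pos (by rw [h1]), if_pos h1]
      by_cases h2 : Fs e0 o ∧ ∃ x y, sd x y = s ∧ P (upd o j x y)
      · rw [if_pos ⟨ho, h2⟩]
        obtain ⟨h3, x, y, h4, h5⟩ := h2
        have h6 : P (upd o j p.1 p.2) := by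
          refine (hP.iff (x := x) (y := y) (by rw [h4]; exact hs) ?_).1 h5
          rw [h1, h4]
        rw [cw, if_pos ⟨h3.upd j _ _, h6⟩, prod_upd hw h3, ← ho]
      · rw [if_neg (fun h => h2 h.2), zero_mul, cw, if_neg]
        rintro ⟨h3, h4⟩
        exact h2 ⟨fs_upd.1 h3, _, _, h1, h4⟩
    · rw [if_neg h1, if_neg, mul_zero]
      intro h
      exact h1 (congrArg Prod.snd h)
  · have e1 : fm (cw e0 P w) (bj e0 sd j) (o, s) = 0 := by
      unfold fm
      rw [ENNReal.tsum_eq_zero]
      intro c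
      refine if_neg fun h => ho ?_
      have h2 : upd c j e0 e0 = o := congrArg Prod.fst h
      rw [← h2, upd_upd]
    rw [e1, if_neg (fun h => ho h.1), zero_mul]

/-- **the fibre identity of the swap of the columns `j - 1` and `j`.** -/
theorem fi_cw {e0 : C} {sd : C → C → SD} {Good : Set SD} {P : (ℤ → C) → Prop} (hP : Inv sd Good P)
    {w : ℤ → C → ℝ≥0∞} (hw : ∀ j, w j e0 = 1) (hfin : ∀ j x, w j x ≠ ∞) (j : ℤ)
    (hSI : SI sd Good (w (j - 1)) (w j)) :
    FI (cw e0 P w) (cw e0 P (sww w j)) (bj e0 sd j) (Gj Good) := by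
  classical
  have hw' : ∀ i, sww w j i e0 = 1 := fun i => by
    unfold sww
    exact hw _
  constructor
  · rintro ⟨o, s⟩ hs
    rw [fm_cw hP hw j o hs, fm_cw hP hw' j o hs, sww_l, sww_r, hSI.eq s hs]
    congr 1
    by_cases h : o = upd o j e0 e0 ∧ Fs e0 o ∧ ∃ x y, sd x y = s ∧ P (upd o j x y)
    · rw [if_pos h, if_pos h]
      refine finprod_congr fun i => ?_
      by_cases h2 : i = j
      · subst h2
        rw [h.1, upd_r, hw, hw']
      · by_cases h1 : i = j - 1
        · subst h1
          rw [h.1, upd_l, hw, hw']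
        · rw [sww_o _ _ h1 h2]
    · rw [if_neg h, if_neg h]
  · rintro ⟨o, s⟩ hs
    rw [fm_cw hP hw j o hs]
    refine ENNReal.mul_ne_top ?_ (hSI.fin s hs)
    split_ifs with h
    · have hsub : Function.mulSupport (fun i => w i (o i)) ⊆ (h.2.1.toFinset : Set ℤ) := by
        intro i hi
        rw [Function.mem_mulSupport] at hi
        rw [Set.Finite.coe_toFinset, Set.mem_ofPred_eq]
        intro h3
        exact hi (by rw [h3, hw])
      rw [finprod_eq_prod_of_mulSupport_subset _ hsub]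
      exact ENNReal.prod_ne_top fun i _ => hfin i _
    · exact ENNReal.zero_ne_top

/-- the heat bath kernel of the columns `j - 1`, `j` with the target weights `w'`. -/
noncomputable def Kj (e0 : C) (sd : C → C → SD) (Good : Set SD) (P : (ℤ → C) → Prop) (w' : ℤ → C → ℝ≥0∞) (j : ℤ) :
    (ℤ → C) → (ℤ → C) → ℝ≥0∞ := hb (cw e0 P w') (bj e0 sd j) (Gj Good)

open Classical in
/-- **the swap carries the measure of the lattice `w` to the measure of the swapped lattice** (outside the
configurations with a bad strip). -/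
theorem push_Kj {e0 : C} {sd : C → C → SD} {Good : Set SD} {P : (ℤ → C) → Prop} (hP : Inv sd Good P)
    {w : ℤ → C → ℝ≥0∞} (hw : ∀ j, w j e0 = 1) (hfin : ∀ j x, w j x ≠ ∞) (j : ℤ)
    (hSI : SI sd Good (w (j - 1)) (w j)) (c : ℤ → C) :
    push (cw e0 P w) (Kj e0 sd Good P (sww w j) j) c =
      if sd (c (j - 1)) (c j) ∈ Good then cw e0 P (sww w j) c else 0 :=
  hb_push (fi_cw hP hw hfin j hSI) c

end ROTK
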