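import Pool.Agent.EXL.Comm
import Pool.Agent.EXL.YBgen
import Pool.Agent.UNI.WtR
import Pool.Agent.EXL.BFactsC
import Pool.Agent.EXL.ScalInst

/-!
# ROT, block E: two vertical lines through the rows `-K, .., K`, exchange of the two lines

`col2 w' w d c L F`: the line `d` (weights `w'`), then the line `c` (weights `w`) cross the rows of the list.
**`col2_lim`**: for functions that do not vanish only if both lines and the far rows are empty, the limits `K → ∞`
for the two orders of the lines are the same.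
-/

set_option autoImplicit false

open Filter Topology

namespace Pool.Agent.ROT.E

open Pool.Agent.EXL Pool.Agent.EXL.Pat
open Pool.Agent.UNI (wR DR DR_pos wR_map wR_v_pos wR_nn)

variable {α : Type*} [DecidableEq α]

/-- the rows `-K, .., K` -/
def Lr (t : ℤ → α) (K : ℕ) : List α := (List.range (2 * K + 1)).map fun i : ℕ => t ((i : ℤ) - K)

/-- the two lines, `d` first -/
def col2 (w' w : Wt ℝ) (d c : α) (L : List α) (F : Pat α → ℝ) : Pat α → ℝ :=
  M (fun _ => w') d L (M (fun _ => w) c L F)

/-! ### lists -/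

omit [DecidableEq α] in
private theorem Lr_succ (t : ℤ → α) (K : ℕ) :
    Lr t (K + 1) = t (-((K + 1 : ℕ) : ℤ)) :: (Lr t K ++ [t ((K + 1 : ℕ) : ℤ)]) := by
  unfold Lr
  rw [show 2 * (K + 1) + 1 = (2 * K + 1 + 1) + 1 by ring, List.range_succ, List.range_succ_eq_map]
  have e1 : ((fun i : ℕ => t ((i : ℤ) - ((K + 1 : ℕ) : ℤ))) ∘ Nat.succ) = fun i : ℕ => t ((i : ℤ) - K) := by
    funext i
    simp only [Function.comp]
    congr 1
    push_cast
    ring
  have e2 : (((0 : ℕ) : ℤ) - ((K + 1 : ℕ) : ℤ)) = -((K + 1 : ℕ) : ℤ) := by push_cast; ring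
  have e3 : (((2 * K + 1 + 1 : ℕ) : ℤ) - ((K + 1 : ℕ) : ℤ)) = ((K + 1 : ℕ) : ℤ) := by push_cast; ring
  rw [List.map_append, List.map_cons, List.map_map, List.map_cons, List.map_nil, e1, e2, e3, List.cons_append]

omit [DecidableEq α] in
private theorem mem_Lr {t : ℤ → α} {K : ℕ} {x : α} (h : x ∈ Lr t K) : ∃ r : ℤ, |r| ≤ K ∧ x = t r := by
  unfold Lr at h
  obtain ⟨i, hi, rfl⟩ := List.mem_map.1 h
  rw [List.mem_range] at hi
  refine ⟨_, ?_, rfl⟩
  rw [abs_le]
  constructor <;> omega

omit [DecidableEq α] in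
private theorem Lr_notMem {t : ℤ → α} (ht : Function.Injective t) {K : ℕ} {r : ℤ} (h : (K : ℤ) < |r|) :
    t r ∉ Lr t K := by
  intro h1
  obtain ⟨r', h2, h3⟩ := mem_Lr h1
  have := ht h3
  subst this
  omega

omit [DecidableEq α] in
private theorem c_notMem {t : ℤ → α} {c : α} (hc : ∀ r, t r ≠ c) (K : ℕ) : c ∉ Lr t K := by
  intro h1
  obtain ⟨r', -, h3⟩ := mem_Lr h1
  exact hc r' h3.symm

/-! ### the operator of one row -/

variable {w' w : Wt ℝ} {c d k : α} {F G : Pat α → ℝ} {q p : Pat α}

/-- the row `k` -/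
private def T (w' w : Wt ℝ) (d c k : α) (F : Pat α → ℝ) : Pat α → ℝ := R w' d k (R w c k F)

private theorem M_comm {w w' : Wt ℝ} {L : List α} {a b : α} (hk : b ∉ L) (ha : a ∉ L) (hab : a ≠ b)
    {l : α} (hl : l ∉ L) (hbl : b ≠ l) (hal : a ≠ l) (F : Pat α → ℝ) :
    M (fun _ => w) a L (R w' b l F) = R w' b l (M (fun _ => w) a L F) := by
  have h : Com (R w' b l) (M (fun _ => w) a L : (Pat α → ℝ) → _) := by
    apply Com.M
    intro j hj F
    have h1 : a ≠ j := fun e => ha (e.symm ▸ hj)
    have h2 : j ≠ b := fun e => hk (e ▸ hj)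
    have h3 : j ≠ l := fun e => hl (e ▸ hj)
    exact R_comm w' w hbl h1 hab hal h2 h3 F
  exact (h F).symm

private theorem col2_cons {L : List α} (hkL : k ∉ L) (hc : c ∉ L) (hd : d ∉ L) (hcd : c ≠ d) (hck : c ≠ k)
    (hdk : d ≠ k) (F : Pat α → ℝ) : col2 w' w d c (k :: L) F = T w' w d c k (col2 w' w d c L F) := by
  unfold col2 T
  rw [M_cons, M_cons, M_comm hc hd hcd.symm hkL hck hdk]

private theorem col2_append {L : List α} (hkL : k ∉ L) (hc : c ∉ L) (hd : d ∉ L) (hcd : c ≠ d)
    (hck : c ≠ k) (hdk : d ≠ k) (F : Pat α → ℝ) :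
    col2 w' w d c (L ++ [k]) F = col2 w' w d c L (T w' w d c k F) := by
  unfold col2 T
  rw [M_append, M_append, M_cons, M_nil, M_cons, M_nil, M_comm hd hc hcd hkL hdk hck]

omit [DecidableEq α] in
private theorem Lr_nodup {t : ℤ → α} (ht : Function.Injective t) (K : ℕ) : (Lr t K).Nodup := by
  unfold Lr
  refine List.Nodup.map ?_ List.nodup_range
  intro a b h
  have := ht h
  omega

/-! ### states -/

private theorem e1 (hcd : c ≠ d) (hck : c ≠ k) (hdk : d ≠ k) (h1 : q k = k) (h2 : q c = c) (h3 : q d = d) :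
    swap c k (cup d k q) = cup c d q := by
  have inv : ∀ x, q (q x) = x := q.inv
  ext x
  show Equiv.swap c k (cup d k q (Equiv.swap c k x)) = cup c d q x
  rw [cup_apply ⟨h3, h1⟩, cup_apply ⟨h2, h3⟩]
  simp only [Equiv.swap_apply_def]
  grind

private theorem e2 (hcd : c ≠ d) (hck : c ≠ k) (hdk : d ≠ k) (h1 : q k = k) (h2 : q c ≠ c) (h3 : q d = d) :
    cut c k (cup d k q) = swap c d q := by
  have inv : ∀ x, q (q x) = x := q.inv
  have hk : cup d k q k = d := by rw [cup_apply ⟨h3, h1⟩]; simp [hdk.symm]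
  have hc : cup d k q c = q c := by rw [cup_apply ⟨h3, h1⟩]; simp [hcd, hck]
  have hck' : cup d k q c ≠ k := by
    rw [hc]
    intro e
    have := inv c
    rw [e, h1] at this
    exact hck this.symm
  have ok : CtOK c k (cup d k q) := ⟨hck, by rw [hc]; exact h2, by rw [hk]; exact hdk, hck'⟩
  ext x
  show cut c k (cup d k q) x = Equiv.swap c d (q (Equiv.swap c d x))
  rw [cut_apply ok, hk, hc, cup_apply ⟨h3, h1⟩]
  simp only [Equiv.swap_apply_def]
  grind

private theorem e3 (hcd : c ≠ d) (hck : c ≠ k) (hdk : d ≠ k) (h1 : q k = k) (h2 : q c = c) (h3 : q d ≠ d) :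
    swap c k (swap d k q) = swap c d q := by
  have inv : ∀ x, q (q x) = x := q.inv
  ext x
  show Equiv.swap c k (Equiv.swap d k (q (Equiv.swap d k (Equiv.swap c k x)))) = Equiv.swap c d (q (Equiv.swap c d x))
  simp only [Equiv.swap_apply_def]
  grind

private theorem e4 (hcd : c ≠ d) (hck : c ≠ k) (hdk : d ≠ k) (h1 : q k = k) (h2 : q c ≠ c) (h3 : q d ≠ d)
    (h4 : q c ≠ d) : cut c k (swap d k q) = cut c d q := by
  have inv : ∀ x, q (q x) = x := q.inv
  have hk : swap d k q k = q d := by
    show Equiv.swap d k (q (Equiv.swap d k k)) = q d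
    rw [Equiv.swap_apply_right, Equiv.swap_apply_of_ne_of_ne h3]
    intro e
    have := inv d
    rw [e, h1] at this
    exact hdk this.symm
  have hqc : q c ≠ k := by
    intro e
    have := inv c
    rw [e, h1] at this
    exact hck this.symm
  have hqd : q d ≠ k := by
    intro e
    have := inv d
    rw [e, h1] at this
    exact hdk this.symm
  have hdc : q d ≠ c := by
    intro e
    have := inv d
    rw [e] at this
    exact h4 this
  have hc : swap d k q c = q c := by
    show Equiv.swap d k (q (Equiv.swap d k c)) = q c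
    rw [Equiv.swap_apply_of_ne_of_ne hcd hck, Equiv.swap_apply_of_ne_of_ne h4 hqc]
  have ok : CtOK c k (swap d k q) := ⟨hck, by rw [hc]; exact h2, by rw [hk]; exact hqd, by rw [hc]; exact hqc⟩
  have ok' : CtOK c d q := ⟨hcd, h2, h3, h4⟩
  ext x
  show cut c k (swap d k q) x = cut c d q x
  rw [cut_apply ok, cut_apply ok', hk, hc, swap_apply]
  simp only [Equiv.swap_apply_def]
  grind

/-! ### an empty row -/

/-- the operator of a row that is empty at both ends -/
private def Q (w' w : Wt ℝ) (d c : α) (G : Pat α → ℝ) : Pat α → ℝ := fun q =>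
  if q d = d then
    if q c = c then G q + w'.u2 * w.u1 * G (cup c d q)
    else w.v * G q + w'.u2 * w.u2 * G (swap c d q)
  else if q c = c then w'.v * G q + w'.u1 * w.u1 * G (swap c d q)
  else if q c = d then w'.v * w.v * G q
  else w'.v * w.v * G q + w'.u1 * w.u2 * G (cut c d q)

private theorem T_eq (hcd : c ≠ d) (hck : c ≠ k) (hdk : d ≠ k) (hG : ∀ q, q k ≠ k → G q = 0) (h1 : q k = k) :
    T w' w d c k G q = Q w' w d c G q := by
  have inv : ∀ x, q (q x) = x := q.inv
  unfold T Q
  by_cases hd : q d = d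
  · have ok : CuOK d k q := ⟨hd, h1⟩
    have a1 : cup d k q k = d := by rw [cup_apply ok]; simp [hdk.symm]
    have a2 : cup d k q c = q c := by rw [cup_apply ok]; simp [hcd, hck]
    by_cases hc : q c = c
    · rw [R, if_pos hd, if_pos h1, if_pos hd, if_pos hc, R, if_pos hc, if_pos h1]
      rw [hG (cup c k q) (by rw [cup_apply ⟨hc, h1⟩]; simp [hck, hck.symm])]
      rw [R, if_pos (by rw [a2]; exact hc), if_neg (by rw [a1]; exact hdk)]
      rw [hG (cup d k q) (by rw [a1]; exact hdk), e1 hcd hck hdk h1 hc hd]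
      ring
    · have hck' : q c ≠ k := by
        intro e
        have := inv c
        rw [e, h1] at this
        exact hck this.symm
      have ok' : CtOK c k (cup d k q) := ⟨hck, by rw [a2]; exact hc, by rw [a1]; exact hdk, by rw [a2]; exact hck'⟩
      rw [R, if_pos hd, if_pos h1, if_pos hd, if_neg hc, R, if_neg hc, if_pos h1]
      have b1 : swap c k q k ≠ k := by
        rw [swap_apply, Equiv.swap_apply_right, Equiv.swap_apply_of_ne_of_ne hc hck']
        exact hck'
      rw [hG (swap c k q) b1]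
      rw [R, if_neg (by rw [a2]; exact hc), if_neg (by rw [a1]; exact hdk), if_neg (by rw [a2]; exact hck')]
      have b2 : swap c k (cup d k q) k ≠ k := by
        rw [swap_apply, Equiv.swap_apply_right, a2, Equiv.swap_apply_of_ne_of_ne hc hck']
        exact hck'
      have b3 : cut c k (cup d k q) c = c := by rw [cut_apply ok']; simp
      have b4 : cut c k (cup d k q) k = k := by rw [cut_apply ok']; simp [hck.symm]
      rw [hG _ b2, hG (cup c k (cut c k (cup d k q))) (by rw [cup_apply ⟨b3, b4⟩]; simp [hck, hck.symm]),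
        e2 hcd hck hdk h1 hc hd]
      ring
  · have hdk' : q d ≠ k := by
      intro e
      have := inv d
      rw [e, h1] at this
      exact hdk this.symm
    have a1 : swap d k q k = q d := by
      rw [swap_apply, Equiv.swap_apply_right, Equiv.swap_apply_of_ne_of_ne hd hdk']
    by_cases hc : q c = c
    · have hdc : q d ≠ c := by
        intro e
        have := inv d
        rw [e, hc] at this
        exact hcd this
      have a2 : swap d k q c = c := by
        rw [swap_apply, Equiv.swap_apply_of_ne_of_ne hcd hck, hc, Equiv.swap_apply_of_ne_of_ne hcd hck]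
      rw [R, if_neg hd, if_pos h1, if_neg hd, if_pos hc, R, if_pos hc, if_pos h1]
      rw [hG (cup c k q) (by rw [cup_apply ⟨hc, h1⟩]; simp [hck, hck.symm])]
      rw [R, if_pos a2, if_neg (by rw [a1]; exact hdk')]
      rw [hG (swap d k q) (by rw [a1]; exact hdk'), e3 hcd hck hdk h1 hc hd]
      ring
    · have hck' : q c ≠ k := by
        intro e
        have := inv c
        rw [e, h1] at this
        exact hck this.symm
      by_cases hcd' : q c = d
      · have a2 : swap d k q c = k := by
          rw [swap_apply, Equiv.swap_apply_of_ne_of_ne hcd hck, hcd', Equiv.swap_apply_left]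
        rw [R, if_neg hd, if_pos h1, if_neg hd, if_neg hc, if_pos hcd', R, if_neg hc, if_pos h1]
        have b1 : swap c k q k ≠ k := by
          rw [swap_apply, Equiv.swap_apply_right, Equiv.swap_apply_of_ne_of_ne hc hck']
          exact hck'
        rw [hG (swap c k q) b1]
        rw [R, if_neg (by rw [a2]; exact hck.symm), if_neg (by rw [a1]; exact hdk'), if_pos a2]
        rw [hG (swap d k q) (by rw [a1]; exact hdk')]
        ring
      · have a2 : swap d k q c = q c := by
          rw [swap_apply, Equiv.swap_apply_of_ne_of_ne hcd hck, Equiv.swap_apply_of_ne_of_ne hcd' hck']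
        rw [R, if_neg hd, if_pos h1, if_neg hd, if_neg hc, if_neg hcd', R, if_neg hc, if_pos h1]
        have b1 : swap c k q k ≠ k := by
          rw [swap_apply, Equiv.swap_apply_right, Equiv.swap_apply_of_ne_of_ne hc hck']
          exact hck'
        have ok' : CtOK c k (swap d k q) := ⟨hck, by rw [a2]; exact hc, by rw [a1]; exact hdk', by rw [a2]; exact hck'⟩
        rw [hG (swap c k q) b1]
        rw [R, if_neg (by rw [a2]; exact hc), if_neg (by rw [a1]; exact hdk'), if_neg (by rw [a2]; exact hck')]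
        have b2 : swap c k (swap d k q) k ≠ k := by
          rw [swap_apply, Equiv.swap_apply_right, a2, Equiv.swap_apply_of_ne_of_ne hc hck']
          exact hck'
        have b3 : cut c k (swap d k q) c = c := by rw [cut_apply ok']; simp
        have b4 : cut c k (swap d k q) k = k := by rw [cut_apply ok']; simp [hck.symm]
        rw [hG _ b2, hG (cup c k (cut c k (swap d k q))) (by rw [cup_apply ⟨b3, b4⟩]; simp [hck, hck.symm]),
          e4 hcd hck hdk h1 hc hd hcd']
        ring

/-! ### localization -/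

/-- commutes with the projection to an empty site -/
private theorem emp_R {i j : α} (hij : i ≠ j) (h1 : k ≠ i) (h2 : k ≠ j) (w : Wt ℝ) (F : Pat α → ℝ) :
    emp k (R w i j F) = R w i j (emp k F) := by
  refine (emp_isLoc k).comm (R_isLoc w hij) ?_ F
  rw [Set.disjoint_left]
  rintro a rfl (hb | hb)
  · exact h1 hb
  · exact h2 hb

private theorem emp_M {L : List α} (hcL : c ∉ L) (hk : k ∉ L) (hkc : k ≠ c) (w : Wt ℝ) (F : Pat α → ℝ) :
    emp k (M (fun _ => w) c L F) = M (fun _ => w) c L (emp k F) := by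
  induction L with
  | nil => rfl
  | cons j L ih =>
    rw [List.mem_cons, not_or] at hcL hk
    rw [M_cons, M_cons, emp_R hcL.1 hkc hk.1, ih hcL.2 hk.2]

private theorem emp_col2 {L : List α} (hcL : c ∉ L) (hdL : d ∉ L) (hk : k ∉ L) (hkc : k ≠ c) (hkd : k ≠ d)
    (F : Pat α → ℝ) : emp k (col2 w' w d c L F) = col2 w' w d c L (emp k F) := by
  unfold col2
  rw [emp_M hdL hk hkd, emp_M hcL hk hkc]

private theorem emp_of (hF : ∀ q, q k ≠ k → F q = 0) : emp k F = F := by
  funext q
  unfold emp
  split_ifs with h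
  · rfl
  · exact (hF q h).symm

private theorem of_emp (h : emp k F = F) (q : Pat α) (hq : q k ≠ k) : F q = 0 := by
  rw [← h]
  unfold emp
  rw [if_neg hq]

private theorem emp_T {l : α} (hcl : c ≠ l) (hdl : d ≠ l) (hkc : k ≠ c) (hkd : k ≠ d) (hkl : k ≠ l) (F : Pat α → ℝ) :
    emp k (T w' w d c l F) = T w' w d c l (emp k F) := by
  unfold T
  rw [emp_R hdl hkd hkl, emp_R hcl hkc hkl]

private theorem sw_inv {y z : α} (e : Equiv.swap c d y = z) : y = Equiv.swap c d z := by
  rw [← e, Equiv.swap_apply_self]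

private theorem swap_fix (hkc : k ≠ c) (hkd : k ≠ d) : swap c d q k = k ↔ q k = k := by
  rw [swap_apply, Equiv.swap_apply_of_ne_of_ne hkc hkd]
  constructor
  · intro h
    have h1 := sw_inv h
    rwa [Equiv.swap_apply_of_ne_of_ne hkc hkd] at h1
  · intro h
    rw [h, Equiv.swap_apply_of_ne_of_ne hkc hkd]

private theorem emp_Q (hkc : k ≠ c) (hkd : k ≠ d) (G : Pat α → ℝ) :
    emp k (Q w' w d c G) = Q w' w d c (emp k G) := by
  funext q
  have a1 : emp k G (cup c d q) = if q k = k then G (cup c d q) else 0 := by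
    unfold emp
    rw [cup_out q hkc hkd]
  have a2 : emp k G (swap c d q) = if q k = k then G (swap c d q) else 0 := by
    unfold emp
    simp only [swap_fix hkc hkd]
  have a3 : emp k G (cut c d q) = if q k = k then G (cut c d q) else 0 := by
    unfold emp
    simp only [cut_fix_out q hkc hkd]
  have a0 : emp k G q = if q k = k then G q else 0 := rfl
  have a4 : emp k (Q w' w d c G) q = if q k = k then Q w' w d c G q else 0 := rfl
  rw [a4]
  unfold Q
  rw [a0, a1, a2, a3]
  by_cases h : q k = k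
  · simp only [if_pos h]
  · simp only [if_neg h, mul_zero, add_zero, ite_self]

/-! ### the rows outside of `[-m, m]` -/

section rows

variable {t : ℤ → α} {m : ℕ}

private theorem Q_congr (hc : ∀ r, t r ≠ c) (hd : ∀ r, t r ≠ d) {G H : Pat α → ℝ}
    (h : ∀ p : Pat α, (∀ r : ℤ, (m : ℤ) < |r| → p (t r) = t r) → G p = H p) {p : Pat α}
    (hp : ∀ r : ℤ, (m : ℤ) < |r| → p (t r) = t r) : Q w' w d c G p = Q w' w d c H p := by
  have a1 : G (cup c d p) = H (cup c d p) := h _ fun r hr => by rw [cup_out p (hc r) (hd r), hp r hr]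
  have a2 : G (swap c d p) = H (swap c d p) := h _ fun r hr => (swap_fix (hc r) (hd r)).2 (hp r hr)
  have a3 : G (cut c d p) = H (cut c d p) := h _ fun r hr => (cut_fix_out p (hc r) (hd r)).2 (hp r hr)
  unfold Q
  rw [a1, a2, a3, h p hp]

/-- **the far rows** -/
private theorem far (ht : Function.Injective t) (hc : ∀ r, t r ≠ c) (hd : ∀ r, t r ≠ d) (hcd : c ≠ d) (n : ℕ) :
    ∀ F : Pat α → ℝ, (∀ r : ℤ, (m : ℤ) < |r| → ∀ q, q (t r) ≠ t r → F q = 0) →
      ∀ p : Pat α, (∀ r : ℤ, (m : ℤ) < |r| → p (t r) = t r) →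
        col2 w' w d c (Lr t (m + n)) F p = (Q w' w d c)^[n] (col2 w' w d c (Lr t m) ((Q w' w d c)^[n] F)) p := by
  induction n with
  | zero => intro F _ p _; rfl
  | succ n ih =>
    intro F hF p hp
    set k := t (-((m + n + 1 : ℕ) : ℤ)) with hk
    set k' := t ((m + n + 1 : ℕ) : ℤ) with hk'
    have r1 : ((m : ℕ) : ℤ) < |(-((m + n + 1 : ℕ) : ℤ))| := by rw [abs_neg, abs_of_nonneg (by positivity)]; push_cast; omega
    have r2 : ((m : ℕ) : ℤ) < |(((m + n + 1 : ℕ) : ℤ))| := by rw [abs_of_nonneg (by positivity)]; push_cast; omega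
    have s1 : ((m + n : ℕ) : ℤ) < |(-((m + n + 1 : ℕ) : ℤ))| := by
      rw [abs_neg, abs_of_nonneg (by positivity)]; push_cast; omega
    have s2 : ((m + n : ℕ) : ℤ) < |(((m + n + 1 : ℕ) : ℤ))| := by rw [abs_of_nonneg (by positivity)]; push_cast; omega
    have kk : k ≠ k' := by
      intro e
      have := ht e
      omega
    have hkL : k ∉ Lr t (m + n) := Lr_notMem ht s1
    have hkL' : k' ∉ Lr t (m + n) := Lr_notMem ht s2
    have hcL : c ∉ Lr t (m + n) := c_notMem hc _
    have hdL : d ∉ Lr t (m + n) := c_notMem hd _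
    have ck : c ≠ k := (hc _).symm
    have dk : d ≠ k := (hd _).symm
    have ck' : c ≠ k' := (hc _).symm
    have dk' : d ≠ k' := (hd _).symm
    have e0 : Lr t (m + (n + 1)) = k :: (Lr t (m + n) ++ [k']) := Lr_succ t (m + n)
    have e1 : col2 w' w d c (Lr t (m + (n + 1))) F = T w' w d c k (col2 w' w d c (Lr t (m + n)) (T w' w d c k' F)) := by
      rw [e0, col2_cons (by simp [hkL, kk]) (by simp [hcL, ck']) (by simp [hdL, dk']) hcd ck dk,
        col2_append hkL' hcL hdL hcd ck' dk']
    have hFk : emp k F = F := emp_of fun q hq => hF _ r1 q hq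
    have hG : emp k (col2 w' w d c (Lr t (m + n)) (T w' w d c k' F)) =
        col2 w' w d c (Lr t (m + n)) (T w' w d c k' F) := by
      rw [emp_col2 hcL hdL hkL ck.symm dk.symm, emp_T ck' dk' ck.symm dk.symm kk, hFk]
    rw [e1, T_eq hcd ck dk (of_emp hG) (hp _ r1)]
    -- the upper row
    have hT : emp k' (T w' w d c k' F) = emp k' (Q w' w d c F) := by
      funext q
      unfold emp
      split_ifs with h
      · exact T_eq hcd ck' dk' (fun q hq => hF _ r2 q hq) h
      · rfl
    have hG' : emp k' (col2 w' w d c (Lr t (m + n)) (T w' w d c k' F)) =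
        emp k' (col2 w' w d c (Lr t (m + n)) (Q w' w d c F)) := by
      rw [emp_col2 hcL hdL hkL' ck'.symm dk'.symm, hT, ← emp_col2 hcL hdL hkL' ck'.symm dk'.symm]
    have e2 : Q w' w d c (col2 w' w d c (Lr t (m + n)) (T w' w d c k' F)) p =
        Q w' w d c (col2 w' w d c (Lr t (m + n)) (Q w' w d c F)) p := by
      have a1 : ∀ X : Pat α → ℝ, Q w' w d c X p = Q w' w d c (emp k' X) p := by
        intro X
        rw [← emp_Q ck'.symm dk'.symm]
        unfold emp
        rw [if_pos (hp _ r2)]
      rw [a1, hG', ← a1]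
    rw [e2]
    have hQF : ∀ r : ℤ, (m : ℤ) < |r| → ∀ q, q (t r) ≠ t r → Q w' w d c F q = 0 := by
      intro r hr q hq
      have : emp (t r) (Q w' w d c F) = Q w' w d c F := by
        rw [emp_Q (hc r) (hd r), emp_of (hF r hr)]
      exact of_emp this q hq
    rw [Q_congr (m := m) hc hd (fun p hp => ih (Q w' w d c F) hQF p hp) hp]
    rw [← Function.iterate_succ_apply, ← Function.iterate_succ_apply' (Q w' w d c) n]

end rows

/-! ### the iterates -/

/-- both lines are occupied: they are joined -/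
private def Ct (d c : α) (F : Pat α → ℝ) : Pat α → ℝ := fun q =>
  if q d = d then 0 else if q c = c then 0 else if q c = d then 0 else F (cut c d q)

/-- the geometric sum -/
private def sg (ρ : ℝ) (n : ℕ) : ℝ := ∑ i ∈ Finset.range n, ρ ^ i

private theorem sg_succ (ρ : ℝ) (n : ℕ) : sg ρ (n + 1) = sg ρ n + ρ ^ n := Finset.sum_range_succ _ _

private theorem sg_succ' (ρ : ℝ) (n : ℕ) : sg ρ (n + 1) = 1 + ρ * sg ρ n := by
  unfold sg
  rw [Finset.sum_range_succ', Finset.mul_sum, add_comm, pow_zero]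
  congr 1
  exact Finset.sum_congr rfl fun i _ => by ring

private theorem it_pair (G : Pat α → ℝ) (hcd : c ≠ d) {q : Pat α} (hq : q c = d) (n : ℕ) :
    (Q w' w d c)^[n] G q = (w'.v * w.v) ^ n * G q := by
  have hd : q d = c := by rw [← hq]; exact q.inv c
  induction n with
  | zero => simp
  | succ n ih =>
    rw [Function.iterate_succ_apply', Q, if_neg (by rw [hd]; exact hcd), if_neg (by rw [hq]; exact hcd.symm), if_pos hq, ih]
    ring

private theorem it_empty (G : Pat α → ℝ) (hcd : c ≠ d) {p : Pat α} (hc : p c = c) (hd : p d = d) (n : ℕ) :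
    (Q w' w d c)^[n] G p = G p + w'.u2 * w.u1 * sg (w'.v * w.v) n * G (cup c d p) := by
  have h1 : cup c d p c = d := by rw [cup_apply ⟨hc, hd⟩]; simp
  induction n with
  | zero => simp [sg]
  | succ n ih =>
    rw [Function.iterate_succ_apply', Q, if_pos hd, if_pos hc, ih, it_pair G hcd h1, sg_succ]
    ring

private theorem it_F (hcd : c ≠ d) (hF : ∀ q, (q c ≠ c ∨ q d ≠ d) → F q = 0) (n : ℕ) :
    (Q w' w d c)^[n] F = fun q => 1 * F q + w'.u1 * w.u2 * sg (w'.v * w.v) n * Ct d c F q := by
  induction n with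
  | zero =>
    funext q
    simp [sg]
  | succ n ih =>
    rw [Function.iterate_succ_apply', ih]
    funext q
    unfold Q
    by_cases hd : q d = d
    · by_cases hc : q c = c
      · have h1 : cup c d q c = d := by rw [cup_apply ⟨hc, hd⟩]; simp
        have h2 : F (cup c d q) = 0 := hF _ (Or.inl (by rw [h1]; exact hcd.symm))
        simp [hd, hc, Ct, h1, h2]
      · have h2 : swap c d q c = c := by
          rw [swap_apply, Equiv.swap_apply_left, hd, Equiv.swap_apply_right]
        have h3 : swap c d q d ≠ d := by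
          rw [swap_apply, Equiv.swap_apply_right]
          intro e
          have e' := sw_inv e
          rw [Equiv.swap_apply_right] at e'
          exact hc e'
        have h4 : F (swap c d q) = 0 := hF _ (Or.inr h3)
        have h5 : F q = 0 := hF _ (Or.inl hc)
        simp [hd, hc, Ct, h2, h4, h5]
    · by_cases hc : q c = c
      · have h2 : swap c d q d = d := by
          rw [swap_apply, Equiv.swap_apply_right, hc, Equiv.swap_apply_left]
        have h3 : swap c d q c ≠ c := by
          rw [swap_apply, Equiv.swap_apply_left]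
          intro e
          have e' := sw_inv e
          rw [Equiv.swap_apply_left] at e'
          exact hd e'
        have h4 : F (swap c d q) = 0 := hF _ (Or.inl h3)
        have h5 : F q = 0 := hF _ (Or.inr hd)
        simp [hd, hc, Ct, h2, h4, h5]
      · by_cases h : q c = d
        · have h5 : F q = 0 := hF _ (Or.inr hd)
          simp [hd, h, hcd.symm, Ct, h5]
        · have ok : CtOK c d q := ⟨hcd, hc, hd, h⟩
          have h5 : F q = 0 := hF _ (Or.inr hd)
          have h6 : cut c d q d = d := by rw [cut_apply ok]; simp [hcd.symm]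
          have h7 : Ct d c F (cut c d q) = 0 := by rw [Ct, if_pos h6]
          have h8 : Ct d c F q = F (cut c d q) := by rw [Ct, if_neg hd, if_neg hc, if_neg h]
          rw [if_neg hd, if_neg hc, if_neg h]
          beta_reduce
          rw [h7, h8, h5, sg_succ']
          ring

private theorem it_Ct (hcd : c ≠ d) (n : ℕ) :
    (Q w' w d c)^[n] (Ct d c F) = fun q => (w'.v * w.v) ^ n * Ct d c F q := by
  induction n with
  | zero =>
    funext q
    simp
  | succ n ih =>
    rw [Function.iterate_succ_apply', ih]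
    funext q
    unfold Q
    by_cases hd : q d = d
    · by_cases hc : q c = c
      · have h1 : cup c d q c = d := by rw [cup_apply ⟨hc, hd⟩]; simp
        simp [hd, hc, Ct, h1]
      · have h2 : swap c d q c = c := by
          rw [swap_apply, Equiv.swap_apply_left, hd, Equiv.swap_apply_right]
        simp [hd, hc, Ct, h2]
    · by_cases hc : q c = c
      · have h2 : swap c d q d = d := by
          rw [swap_apply, Equiv.swap_apply_right, hc, Equiv.swap_apply_left]
        simp [hd, hc, Ct, h2]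
      · by_cases h : q c = d
        · simp [hd, h, hcd.symm, Ct]
        · have ok : CtOK c d q := ⟨hcd, hc, hd, h⟩
          have h6 : cut c d q d = d := by rw [cut_apply ok]; simp [hcd.symm]
          have h7 : Ct d c F (cut c d q) = 0 := by rw [Ct, if_pos h6]
          rw [if_neg hd, if_neg hc, if_neg h]
          beta_reduce
          rw [h7]
          ring

private theorem R_of (hcd : c ≠ d) (x : Wt ℝ) (hF : ∀ q, (q c ≠ c ∨ q d ≠ d) → F q = 0) :
    R x c d F = fun q => 1 * F q + x.u2 * Ct d c F q := by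
  funext q
  unfold R
  by_cases hd : q d = d
  · by_cases hc : q c = c
    · have h1 : cup c d q c = d := by rw [cup_apply ⟨hc, hd⟩]; simp
      have h2 : F (cup c d q) = 0 := hF _ (Or.inl (by rw [h1]; exact hcd.symm))
      simp [hd, hc, Ct, h2]
    · have h3 : swap c d q d ≠ d := by
        rw [swap_apply, Equiv.swap_apply_right]
        intro e
        have e' := sw_inv e
        rw [Equiv.swap_apply_right] at e'
        exact hc e'
      have h4 : F (swap c d q) = 0 := hF _ (Or.inr h3)
      have h5 : F q = 0 := hF _ (Or.inl hc)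
      simp [hd, hc, Ct, h4, h5]
  · by_cases hc : q c = c
    · have h3 : swap c d q c ≠ c := by
        rw [swap_apply, Equiv.swap_apply_left]
        intro e
        have e' := sw_inv e
        rw [Equiv.swap_apply_left] at e'
        exact hd e'
      have h4 : F (swap c d q) = 0 := hF _ (Or.inl h3)
      have h5 : F q = 0 := hF _ (Or.inr hd)
      simp [hd, hc, Ct, h4, h5]
    · by_cases h : q c = d
      · have h5 : F q = 0 := hF _ (Or.inr hd)
        simp [hd, h, hcd.symm, Ct, h5]
      · have ok : CtOK c d q := ⟨hcd, hc, hd, h⟩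
        have h5 : F q = 0 := hF _ (Or.inr hd)
        have h6 : cut c d q d = d := by rw [cut_apply ok]; simp [hcd.symm]
        have h6' : cut c d q c = c := by rw [cut_apply ok]; simp
        have h7 : cup c d (cut c d q) c = d := by rw [cup_apply ⟨h6', h6⟩]; simp
        have h8 : F (cup c d (cut c d q)) = 0 := hF _ (Or.inl (by rw [h7]; exact hcd.symm))
        have h9 : F (swap c d q) = 0 := by
          apply hF
          left
          rw [swap_apply, Equiv.swap_apply_left]
          intro e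
          have e' := sw_inv e
          rw [Equiv.swap_apply_left] at e'
          exact hd e'
        rw [if_neg hc, if_neg hd, if_neg h, h8, h9, h5, Ct, if_neg hd, if_neg hc, if_neg h]
        ring

/-! ### the Yang-Baxter equation -/

theorem YB_wR {x y : ℝ} (hx : -(Real.pi / 4) < x ∧ x < 5 * Real.pi / 8) (hy : -(Real.pi / 4) < y ∧ y < 5 * Real.pi / 8)
    (hxy : -(Real.pi / 4) < x + y ∧ x + y < 5 * Real.pi / 8) : YB (wR x) (wR (x + y)) (wR y) := by
  have h := Sc.sYB (u := (x : ℂ)) (w := (y : ℂ)) (okR_main hx.1 hx.2) (okR_main hy.1 hy.2)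
    (by have := okR_main hxy.1 hxy.2; push_cast at this; exact this)
  have e : ((x : ℂ) + (y : ℂ)) = ((x + y : ℝ) : ℂ) := by push_cast; rfl
  rw [e, ← wR_map, ← wR_map, ← wR_map] at h
  obtain ⟨h1, h2, h3, h4, h5, h6, h7, h8, h9, h10, h11, h12, h13, h14, h15, h16, h17, h18, h19, h20, h21, h22⟩ := h
  simp only [Wt.map, Complex.ofRealHom_eq_coe] at *
  exact ⟨by exact_mod_cast h1, by exact_mod_cast h2, by exact_mod_cast h3, by exact_mod_cast h4, by exact_mod_cast h5, by exact_mod_cast h6, by exact_mod_cast h7, by exact_mod_cast h8,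
    by exact_mod_cast h9, by exact_mod_cast h10, by exact_mod_cast h11, by exact_mod_cast h12, by exact_mod_cast h13, by exact_mod_cast h14, by exact_mod_cast h15, by exact_mod_cast h16,
    by exact_mod_cast h17, by exact_mod_cast h18, by exact_mod_cast h19, by exact_mod_cast h20, by exact_mod_cast h21, by exact_mod_cast h22⟩

private theorem col2_yb {x : Wt ℝ} (h : YB x w w') (hcd : c ≠ d) {L : List α} (hL : L.Nodup) (hc : c ∉ L) (hd : d ∉ L)
    (F : Pat α → ℝ) : col2 w' w d c L (R x c d F) = R x c d (col2 w w' c d L F) := by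
  induction L with
  | nil => rfl
  | cons k L ih =>
    rw [List.mem_cons, not_or] at hc hd
    rw [List.nodup_cons] at hL
    rw [col2_cons hL.1 hc.2 hd.2 hcd hc.1 hd.1, col2_cons hL.1 hd.2 hc.2 hcd.symm hd.1 hc.1, ih hL.2 hc.2 hd.2]
    unfold T
    exact ybe h hcd hc.1 hd.1 _

private theorem lin_M (c : α) (L : List α) (w : Wt ℝ) : Lin (M (fun _ => w) c L) := by
  induction L with
  | nil => intro a b F G; rfl
  | cons j L ih =>
    intro a b F G
    rw [M_cons, ih, lin_R]
    rfl

private theorem lin_col2 (L : List α) : Lin (col2 w' w d c L) := by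
  intro a b F G
  unfold col2
  rw [lin_M, lin_M]

/-! ### the limit -/

theorem wR_v_lt_one {u : ℝ} (h1 : Real.pi / 8 ≤ u) (h2 : u ≤ Real.pi / 4) : (wR u).v < 1 := by
  have hp := Real.pi_pos
  show Real.sin u * Real.sin (3 * Real.pi / 8 - u) / DR u < 1
  rw [div_lt_one (DR_pos (by linarith) (by linarith))]
  unfold DR
  have a0 : 0 < Real.sin u := Real.sin_pos_of_pos_of_lt_pi (by linarith) (by linarith)
  have b0 : 0 < Real.sin (3 * Real.pi / 8 - u) := Real.sin_pos_of_pos_of_lt_pi (by linarith) (by linarith)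
  have a1 : Real.sin u < Real.sin (u + Real.pi / 4) :=
    Real.sin_lt_sin_of_lt_of_le_pi_div_two (by linarith) (by linarith) (by linarith)
  have b1 : Real.sin (3 * Real.pi / 8 - u) < Real.sin (u + 3 * Real.pi / 8) := by
    have e : Real.sin (u + 3 * Real.pi / 8) = Real.sin (Real.pi - (u + 3 * Real.pi / 8)) := (Real.sin_pi_sub _).symm
    rw [e]
    exact Real.sin_lt_sin_of_lt_of_le_pi_div_two (by linarith) (by linarith) (by linarith)
  exact mul_lt_mul'' a1 b1 a0.le b0.le

private theorem tend_sg {ρ : ℝ} (h0 : 0 ≤ ρ) (h1 : ρ < 1) : Tendsto (sg ρ) atTop (𝓝 (1 - ρ)⁻¹) :=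
  (hasSum_geometric_of_lt_one h0 h1).tendsto_sum_nat

/-- convergence for general weights -/
theorem col2_conv {t : ℤ → α} (ht : Function.Injective t) (hc : ∀ r, t r ≠ c) (hd : ∀ r, t r ≠ d) (hcd : c ≠ d)
    (r0 : 0 ≤ w'.v * w.v) (r1 : w'.v * w.v < 1) {m : ℕ}
    (hF : ∀ q : Pat α, (q c ≠ c ∨ q d ≠ d ∨ ∃ r : ℤ, (m : ℤ) < |r| ∧ q (t r) ≠ t r) → F q = 0)
    (hp : p c = c ∧ p d = d ∧ ∀ r : ℤ, (m : ℤ) < |r| → p (t r) = t r) :
    ∃ z : ℝ, Tendsto (fun K => col2 w' w d c (Lr t K) F p) atTop (𝓝 z) := by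
  obtain ⟨pc, pd, pr⟩ := hp
  have hs := tend_sg r0 r1
  have hF2 : ∀ q : Pat α, (q c ≠ c ∨ q d ≠ d) → F q = 0 := fun q hq => hF q (by tauto)
  have hFo : ∀ r : ℤ, (m : ℤ) < |r| → ∀ q : Pat α, q (t r) ≠ t r → F q = 0 := fun r hr q hq =>
    hF q (Or.inr (Or.inr ⟨r, hr, hq⟩))
  have A1 : ∀ n, col2 w' w d c (Lr t (m + n)) F p =
      (col2 w' w d c (Lr t m) F p +
        w'.u1 * w.u2 * sg (w'.v * w.v) n * col2 w' w d c (Lr t m) (Ct d c F) p) +
      w'.u2 * w.u1 * sg (w'.v * w.v) n * (col2 w' w d c (Lr t m) F (cup c d p) +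
        w'.u1 * w.u2 * sg (w'.v * w.v) n * col2 w' w d c (Lr t m) (Ct d c F) (cup c d p)) := by
    intro n
    rw [far ht hc hd hcd n F hFo p pr, it_empty _ hcd pc pd, it_F hcd hF2, lin_col2]
    simp only [one_mul]
  have k1 := ((tendsto_const_nhds (x := w'.u1 * w.u2)).mul hs).mul
    (tendsto_const_nhds (x := col2 w' w d c (Lr t m) (Ct d c F) p))
  have k2 := ((tendsto_const_nhds (x := w'.u1 * w.u2)).mul hs).mul
    (tendsto_const_nhds (x := col2 w' w d c (Lr t m) (Ct d c F) (cup c d p)))
  have k3 := ((tendsto_const_nhds (x := col2 w' w d c (Lr t m) F p)).add k1).add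
    (((tendsto_const_nhds (x := w'.u2 * w.u1)).mul hs).mul
      ((tendsto_const_nhds (x := col2 w' w d c (Lr t m) F (cup c d p))).add k2))
  have hz : Tendsto (fun n => col2 w' w d c (Lr t (m + n)) F p) atTop (𝓝 _) := k3.congr fun n => (A1 n).symm
  refine ⟨_, (tendsto_add_atTop_iff_nat m).1 (hz.congr fun n => by rw [add_comm])⟩

/-- **Exchange of the two lines in the limit**. -/
theorem col2_lim {t : ℤ → α} (ht : Function.Injective t) (hc : ∀ r, t r ≠ c) (hd : ∀ r, t r ≠ d) (hcd : c ≠ d)
    {u v : ℝ} (hu : Real.pi / 8 ≤ u ∧ u ≤ Real.pi / 4) (hv : Real.pi / 8 ≤ v ∧ v ≤ Real.pi / 4) {m : ℕ}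
    (hF : ∀ q : Pat α, (q c ≠ c ∨ q d ≠ d ∨ ∃ r : ℤ, (m : ℤ) < |r| ∧ q (t r) ≠ t r) → F q = 0)
    (hp : p c = c ∧ p d = d ∧ ∀ r : ℤ, (m : ℤ) < |r| → p (t r) = t r) :
    ∃ z : ℝ, Tendsto (fun K => col2 (wR v) (wR u) d c (Lr t K) F p) atTop (𝓝 z) ∧
      Tendsto (fun K => col2 (wR u) (wR v) c d (Lr t K) F p) atTop (𝓝 z) := by
  have hpi := Real.pi_pos
  obtain ⟨pc, pd, pr⟩ := hp
  set ρ := (wR v).v * (wR u).v with hρ
  have r0 : 0 ≤ ρ := mul_nonneg (wR_v_pos (by linarith) (by linarith)).le (wR_v_pos (by linarith) (by linarith)).le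
  have r1 : ρ < 1 := by
    have a1 := wR_v_lt_one hu.1 hu.2
    have a2 := wR_v_lt_one hv.1 hv.2
    have a3 := (wR_v_pos (u := u) (by linarith) (by linarith)).le
    have a4 := (wR_v_pos (u := v) (by linarith) (by linarith)).le
    rw [hρ]
    nlinarith
  have hs := tend_sg r0 r1
  have hρn : Tendsto (fun n : ℕ => ρ ^ n) atTop (𝓝 0) := tendsto_pow_atTop_nhds_zero_of_lt_one r0 r1
  have hF2 : ∀ q : Pat α, (q c ≠ c ∨ q d ≠ d) → F q = 0 := fun q hq => hF q (by tauto)
  have hFo : ∀ r : ℤ, (m : ℤ) < |r| → ∀ q : Pat α, q (t r) ≠ t r → F q = 0 := fun r hr q hq =>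
    hF q (Or.inr (Or.inr ⟨r, hr, hq⟩))
  have hCo : ∀ r : ℤ, (m : ℤ) < |r| → ∀ q : Pat α, q (t r) ≠ t r → Ct d c F q = 0 := by
    intro r hr q hq
    unfold Ct
    split_ifs
    · rfl
    · rfl
    · rfl
    · exact hFo r hr _ (by rw [Ne, cut_fix_out q (hc r) (hd r)]; exact hq)
  have hcup : ∀ r : ℤ, (m : ℤ) < |r| → cup c d p (t r) = t r := fun r hr => by
    rw [cup_out p (hc r) (hd r), pr r hr]
  have cupc : cup c d p c = d := by rw [cup_apply ⟨pc, pd⟩]; simp
  have cupd : cup c d p d = c := by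
    have h := (cup c d p).inv c
    rwa [cupc] at h
  -- the first order
  have A1 : ∀ n, col2 (wR v) (wR u) d c (Lr t (m + n)) F p =
      (col2 (wR v) (wR u) d c (Lr t m) F p +
        (wR v).u1 * (wR u).u2 * sg ρ n * col2 (wR v) (wR u) d c (Lr t m) (Ct d c F) p) +
      (wR v).u2 * (wR u).u1 * sg ρ n * (col2 (wR v) (wR u) d c (Lr t m) F (cup c d p) +
        (wR v).u1 * (wR u).u2 * sg ρ n * col2 (wR v) (wR u) d c (Lr t m) (Ct d c F) (cup c d p)) := by
    intro n
    rw [far ht hc hd hcd n F hFo p pr, it_empty _ hcd pc pd, it_F hcd hF2, lin_col2]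
    simp only [one_mul, ← hρ]
  have A2 : ∀ n, col2 (wR v) (wR u) d c (Lr t (m + n)) (Ct d c F) p = ρ ^ n *
      (col2 (wR v) (wR u) d c (Lr t m) (Ct d c F) p +
        (wR v).u2 * (wR u).u1 * sg ρ n * col2 (wR v) (wR u) d c (Lr t m) (Ct d c F) (cup c d p)) := by
    intro n
    have e : (fun q => ((wR v).v * (wR u).v) ^ n * Ct d c F q) =
        fun q => ρ ^ n * Ct d c F q + 0 * Ct d c F q := by
      funext q
      rw [← hρ]
      ring
    rw [far ht hc hd hcd n (Ct d c F) hCo p pr, it_empty _ hcd pc pd, it_Ct hcd, e, lin_col2, ← hρ]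
    ring
  -- the second order
  have B1 : ∀ n, col2 (wR u) (wR v) c d (Lr t (m + n)) F (cup c d p) = ρ ^ n *
      (col2 (wR u) (wR v) c d (Lr t m) F (cup c d p) +
        (wR u).u1 * (wR v).u2 * sg ρ n * col2 (wR u) (wR v) c d (Lr t m) (Ct c d F) (cup c d p)) := by
    intro n
    have e : (wR u).v * (wR v).v = ρ := by rw [hρ]; ring
    rw [far ht hd hc hcd.symm n F hFo _ hcup, it_pair _ hcd.symm cupd,
      it_F hcd.symm (fun q hq => hF2 q hq.symm), lin_col2, e]
    beta_reduce
    rw [one_mul]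
  -- exchange
  have hx : YB (wR (u - v)) (wR u) (wR v) := by
    have := YB_wR (x := u - v) (y := v) ⟨by linarith, by linarith⟩ ⟨by linarith, by linarith⟩
      ⟨by linarith, by linarith⟩
    rwa [sub_add_cancel] at this
  have X : ∀ K, col2 (wR u) (wR v) c d (Lr t K) F p = col2 (wR v) (wR u) d c (Lr t K) F p +
      (wR (u - v)).u2 * (col2 (wR v) (wR u) d c (Lr t K) (Ct d c F) p -
        col2 (wR u) (wR v) c d (Lr t K) F (cup c d p)) := by
    intro K
    have h := congrFun (col2_yb hx hcd (Lr_nodup ht K) (c_notMem hc K) (c_notMem hd K) F) p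
    rw [R_of hcd _ hF2, lin_col2, R, if_pos pc, if_pos pd] at h
    beta_reduce at h
    linarith
  have k1 := ((tendsto_const_nhds (x := (wR v).u1 * (wR u).u2)).mul hs).mul
    (tendsto_const_nhds (x := col2 (wR v) (wR u) d c (Lr t m) (Ct d c F) p))
  have k2 := ((tendsto_const_nhds (x := (wR v).u1 * (wR u).u2)).mul hs).mul
    (tendsto_const_nhds (x := col2 (wR v) (wR u) d c (Lr t m) (Ct d c F) (cup c d p)))
  have k3 := ((tendsto_const_nhds (x := col2 (wR v) (wR u) d c (Lr t m) F p)).add k1).add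
    (((tendsto_const_nhds (x := (wR v).u2 * (wR u).u1)).mul hs).mul
      ((tendsto_const_nhds (x := col2 (wR v) (wR u) d c (Lr t m) F (cup c d p))).add k2))
  obtain ⟨z, hz⟩ : ∃ z, Tendsto (fun n => col2 (wR v) (wR u) d c (Lr t (m + n)) F p) atTop (𝓝 z) :=
    ⟨_, k3.congr fun n => (A1 n).symm⟩
  have hz2 : Tendsto (fun n => col2 (wR v) (wR u) d c (Lr t (m + n)) (Ct d c F) p) atTop (𝓝 0) := by
    have h := hρn.mul (tendsto_const_nhds (x := col2 (wR v) (wR u) d c (Lr t m) (Ct d c F) p) |>.add
      ((tendsto_const_nhds (x := (wR v).u2 * (wR u).u1)).mul hs |>.mul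
        (tendsto_const_nhds (x := col2 (wR v) (wR u) d c (Lr t m) (Ct d c F) (cup c d p)))))
    rw [zero_mul] at h
    exact h.congr fun n => (A2 n).symm
  have hz3 : Tendsto (fun n => col2 (wR u) (wR v) c d (Lr t (m + n)) F (cup c d p)) atTop (𝓝 0) := by
    have h := hρn.mul (tendsto_const_nhds (x := col2 (wR u) (wR v) c d (Lr t m) F (cup c d p)) |>.add
      ((tendsto_const_nhds (x := (wR u).u1 * (wR v).u2)).mul hs |>.mul
        (tendsto_const_nhds (x := col2 (wR u) (wR v) c d (Lr t m) (Ct c d F) (cup c d p)))))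
    rw [zero_mul] at h
    exact h.congr fun n => (B1 n).symm
  have hz4 : Tendsto (fun n => col2 (wR u) (wR v) c d (Lr t (m + n)) F p) atTop (𝓝 z) := by
    have h := hz.add ((tendsto_const_nhds (x := (wR (u - v)).u2)).mul (hz2.sub hz3))
    rw [sub_zero, mul_zero, add_zero] at h
    exact h.congr fun n => (X (m + n)).symm
  refine ⟨z, ?_, ?_⟩
  · rw [← tendsto_add_atTop_iff_nat m]
    exact hz.congr fun n => by rw [add_comm]
  · rw [← tendsto_add_atTop_iff_nat m]
    exact hz4.congr fun n => by rw [add_comm]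

end Pool.Agent.ROT.E
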