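import Pool.Agent.ROT.EDefs

/-!
# ROT, block E, row E3: the structure of one arc of a strip

`arc_ends`: the component of a boundary half edge contains exactly two boundary half edges.
`arc_vv`, `arc_top`: an overshoot above both ends is vertical in both columns and turns in its highest row.
-/

set_option autoImplicit false

namespace Pool.Agent.ROT.E

open Pool.Agent.YBC (Dir)

/-! ### elementary facts -/

private theorem nx_op (v : Pt) (d : Dir) : nx (nx v d) d.op = v := by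
  cases d <;> simp [nx, Dir.op]

private theorem op_op (d : Dir) : d.op.op = d := by cases d <;> rfl

private theorem rv_rv (h : He) : rv (rv h) = h := by
  obtain ⟨v, d⟩ := h
  simp only [rv, nx_op, op_op]

private theorem rv_ne (h : He) : rv h ≠ h := by
  obtain ⟨v, d⟩ := h
  intro e
  have := congrArg Prod.snd e
  cases d <;> simp [rv, Dir.op] at this

private theorem Cell.p_p (c : Cell) (d : Dir) : c.p (c.p d) = d := by
  cases c <;> cases d <;> rfl

private theorem Cell.oc_p (c : Cell) (d : Dir) : c.oc (c.p d) ↔ c.oc d := by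
  unfold Cell.oc
  rw [Cell.p_p]
  exact ne_comm

private theorem vp_vp (γ : Cfg) (h : He) : vp γ (vp γ h) = h := by
  simp only [vp, Cell.p_p]

private theorem oc_vp (γ : Cfg) (h : He) : oc γ (vp γ h) ↔ oc γ h := Cell.oc_p _ _

private theorem vp_ne {γ : Cfg} {h : He} (ho : oc γ h) : vp γ h ≠ h := fun e => ho (congrArg Prod.snd e)

private theorem oc_supp {γ : Cfg} {h : He} (ho : oc γ h) : h.1 ∈ γ.support := by
  rw [Finsupp.mem_support_iff]
  intro e
  apply ho
  rw [e]
  rfl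

private theorem oc_fin (γ : Cfg) : {h | oc γ h}.Finite := by
  refine (Set.Finite.subset ((γ.support.finite_toSet).prod (Set.finite_univ (α := Dir))) ?_)
  intro h ho
  exact ⟨oc_supp ho, Set.mem_univ _⟩

private theorem Lk.oc' {γ : Cfg} {A : Set Pt} (hm : Mt γ A) {h k : He} (l : Lk γ A h k) : oc γ k ∧ k.1 ∈ A := by
  obtain ⟨ho, hA, rfl | ⟨rfl, hk⟩⟩ := l
  · exact ⟨(oc_vp γ h).2 ho, hA⟩
  · exact ⟨(hm h hA hk).1 ho, hk⟩

private theorem Lk.symm' {γ : Cfg} {A : Set Pt} (hm : Mt γ A) {h k : He} (l : Lk γ A h k) : Lk γ A k h := by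
  have h2 := l.oc' hm
  obtain ⟨ho, hA, rfl | ⟨rfl, hk⟩⟩ := l
  · exact ⟨h2.1, h2.2, Or.inl (vp_vp γ h).symm⟩
  · exact ⟨h2.1, h2.2, Or.inr ⟨(rv_rv h).symm, by rw [rv_rv]; exact hA⟩⟩

private theorem Cn.oc_mem {γ : Cfg} {A : Set Pt} (hm : Mt γ A) {h k : He} (c : Cn γ A h k) :
    h = k ∨ ((oc γ h ∧ h.1 ∈ A) ∧ (oc γ k ∧ k.1 ∈ A)) := by
  induction c with
  | rel h k l => exact Or.inr ⟨⟨l.1, l.2.1⟩, l.oc' hm⟩
  | refl h => exact Or.inl rfl
  | symm h k _ ih =>
    rcases ih with rfl | ih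
    · exact Or.inl rfl
    · exact Or.inr ⟨ih.2, ih.1⟩
  | trans h k l _ _ ih1 ih2 =>
    rcases ih1 with rfl | ih1
    · exact ih2
    · rcases ih2 with rfl | ih2
      · exact Or.inr ih1
      · exact Or.inr ⟨ih1.1, ih2.2⟩

/-- a set closed under the links is closed under the connections -/
theorem Cn.closed {γ : Cfg} {A : Set Pt} (hm : Mt γ A) {C : Set He} (hC : ∀ h k, Lk γ A h k → h ∈ C → k ∈ C)
    {h k : He} (c : Cn γ A h k) : h ∈ C ↔ k ∈ C := by
  induction c with
  | rel h k l => exact ⟨hC h k l, hC k h (l.symm' hm)⟩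
  | refl h => exact Iff.rfl
  | symm h k _ ih => exact ih.symm
  | trans h k l _ _ ih1 ih2 => exact ih1.trans ih2

private theorem even_inv {s : Finset He} (g : He → He) (h1 : ∀ a ∈ s, g a ∈ s) (h2 : ∀ a ∈ s, g (g a) = a)
    (h3 : ∀ a ∈ s, g a ≠ a) : (s.card : ZMod 2) = 0 := by
  have := Finset.sum_involution (s := s) (f := fun _ => (1 : ZMod 2)) (fun a _ => g a)
    (fun a _ => by decide) (fun a ha _ => h3 a ha) (fun a ha => h1 a ha) (fun a ha => h2 a ha)
  simpa using this

/-! ### the two ends -/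

/-- the walk along the strand -/
def wk (γ : Cfg) (h : He) : He := rv (vp γ h)

private theorem wk_inj (γ : Cfg) : Function.Injective (wk γ) := by
  intro h k e
  have e1 : vp γ h = vp γ k := by rw [← rv_rv (vp γ h), ← rv_rv (vp γ k)]; exact congrArg rv e
  rw [← vp_vp γ h, e1, vp_vp]

/-- **the component of a boundary half edge has only one other boundary half edge** -/
theorem arc_ends {γ : Cfg} (hm : Mt γ Set.univ) {j : ℤ} {b b' b'' : He} (hb : b ∈ Bd j) (hb' : b' ∈ Bd j)
    (hb'' : b'' ∈ Bd j) (h1 : b' ≠ b) (h2 : b'' ≠ b) (c1 : Cn γ (Sp j) b b') (c2 : Cn γ (Sp j) b b'') : b' = b'' := by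
  classical
  have hmS : Mt γ (Sp j) := fun k _ _ => hm k (Set.mem_univ _) (Set.mem_univ _)
  have hob : oc γ b := by
    rcases c1.oc_mem hmS with e | e
    · exact absurd e.symm h1
    · exact e.1.1
  -- the walk
  have orb : ∀ n, (∀ i < n, (rv (vp γ ((wk γ)^[i] b))).1 ∈ Sp j) → oc γ ((wk γ)^[n] b) ∧ ((wk γ)^[n] b).1 ∈ Sp j := by
    intro n
    induction n with
    | zero => intro _; exact ⟨hob, hb.1⟩
    | succ n ih =>
      intro h
      obtain ⟨e1, e2⟩ := ih fun i hi => h i (Nat.lt_succ_of_lt hi)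
      have e3 := h n (Nat.lt_succ_self n)
      rw [Function.iterate_succ_apply']
      refine ⟨?_, e3⟩
      exact (hm _ (Set.mem_univ _) (Set.mem_univ _)).1 ((oc_vp γ _).2 e1)
  obtain ⟨n, hn1, hn2⟩ : ∃ n, (∀ i < n, (rv (vp γ ((wk γ)^[i] b))).1 ∈ Sp j) ∧
      (rv (vp γ ((wk γ)^[n] b))).1 ∉ Sp j := by
    by_contra hc
    push Not at hc
    have hall : ∀ n, (rv (vp γ ((wk γ)^[n] b))).1 ∈ Sp j := by
      intro n
      induction n using Nat.strong_induction_on with
      | _ n ih => exact hc n ih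
    have hinj : Function.Injective fun n : ℕ => (wk γ)^[n] b := by
      have aux : ∀ p q : ℕ, (wk γ)^[p] b = (wk γ)^[p + q] b → q = 0 := by
        intro p q e
        by_contra hq
        rw [Function.iterate_add_apply] at e
        have e' : b = (wk γ)^[q] b := ((wk_inj γ).iterate p) e
        obtain ⟨q', rfl⟩ := Nat.exists_eq_succ_of_ne_zero hq
        rw [Function.iterate_succ_apply'] at e'
        have : (rv b).1 = (vp γ ((wk γ)^[q'] b)).1 := by
          conv_lhs => rw [e']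
          unfold wk
          rw [rv_rv]
        exact hb.2 (by rw [this]; exact (orb q' fun i _ => hall i).2)
      intro p q e
      simp only at e
      rcases le_total p q with hpq | hpq
      · obtain ⟨d, rfl⟩ := Nat.exists_eq_add_of_le hpq
        have := aux p d e
        omega
      · obtain ⟨d, rfl⟩ := Nat.exists_eq_add_of_le hpq
        have := aux q d e.symm
        omega
    exact (Set.infinite_range_of_injective hinj) ((oc_fin γ).subset (by
      rintro _ ⟨n, rfl⟩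
      exact (orb n fun i _ => hall i).1))
  -- the closed set
  set C : Set He := {h | ∃ i ≤ n, h = (wk γ)^[i] b ∨ h = vp γ ((wk γ)^[i] b)} with hC
  have clo : ∀ h k, Lk γ (Sp j) h k → h ∈ C → k ∈ C := by
    rintro h k ⟨-, -, l⟩ ⟨i, hi, hh⟩
    rcases l with rfl | ⟨rfl, l⟩
    · rcases hh with rfl | rfl
      · exact ⟨i, hi, Or.inr rfl⟩
      · exact ⟨i, hi, Or.inl (vp_vp _ _)⟩
    · rcases hh with rfl | rfl
      · rcases i with _ | i
        · exact absurd l hb.2
        · refine ⟨i, by omega, Or.inr ?_⟩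
          rw [Function.iterate_succ_apply']
          exact rv_rv _
      · rcases Nat.lt_or_ge i n with h1 | h1
        · refine ⟨i + 1, h1, Or.inl ?_⟩
          rw [Function.iterate_succ_apply']
          rfl
        · have : i = n := le_antisymm hi h1
          subst this
          exact absurd l hn2
  have hbC : b ∈ C := ⟨0, Nat.zero_le _, Or.inl rfl⟩
  have key : ∀ k ∈ C, k ∈ Bd j → k ≠ b → k = vp γ ((wk γ)^[n] b) := by
    rintro k ⟨i, hi, hk⟩ hkb hne
    rcases hk with rfl | rfl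
    · rcases i with _ | i
      · exact absurd rfl hne
      · exfalso
        apply hkb.2
        rw [Function.iterate_succ_apply']
        have : (rv (wk γ ((wk γ)^[i] b))).1 = ((wk γ)^[i] b).1 := by
          unfold wk
          rw [rv_rv]
          rfl
        rw [this]
        exact (orb i fun i' hi' => hn1 i' (by omega)).2
    · rcases Nat.lt_or_ge i n with h1 | h1
      · exact absurd (hn1 i h1) hkb.2
      · rw [le_antisymm hi h1]
  rw [key b' ((Cn.closed hmS clo c1).1 hbC) hb' h1, key b'' ((Cn.closed hmS clo c2).1 hbC) hb'' h2]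

/-! ### the overshoot -/

/-- **every level of the overshoot is crossed in both columns** -/
theorem arc_lev {γ : Cfg} (hm : Mt γ Set.univ) {j : ℤ} {b b' : He} (hb : b ∈ Bd j) (hb' : b' ∈ Bd j) (hne : b' ≠ b)
    (c : Cn γ (Sp j) b b') {r : ℤ} (h1 : b.1.2 ≤ r) (h2 : b'.1.2 ≤ r) {h : He} (ch : Cn γ (Sp j) b h)
    (h3 : r < h.1.2) : Cn γ (Sp j) b ((j, r + 1), .S) ∧ Cn γ (Sp j) b ((j + 1, r + 1), .S) := by
  classical
  have hmS : Mt γ (Sp j) := fun k _ _ => hm k (Set.mem_univ _) (Set.mem_univ _)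
  have hob : oc γ b ∧ b.1 ∈ Sp j := by
    rcases c.oc_mem hmS with e | e
    · exact absurd e.symm hne
    · exact e.1
  have so : ∀ k, Cn γ (Sp j) b k → oc γ k ∧ k.1 ∈ Sp j := fun k hk => by
    rcases hk.oc_mem hmS with rfl | e
    · exact hob
    · exact e.2
  have hfin : {k | Cn γ (Sp j) b k ∧ r < k.1.2}.Finite := (oc_fin γ).subset fun k hk => (so k hk.1).1
  set s : Finset He := hfin.toFinset with hs
  have ms : ∀ k, k ∈ s ↔ (Cn γ (Sp j) b k ∧ r < k.1.2) := fun k => by rw [hs, Set.Finite.mem_toFinset]; rfl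
  have e1 : (s.card : ZMod 2) = 0 := by
    refine even_inv (vp γ) (fun a ha => ?_) (fun a _ => vp_vp γ a) (fun a ha => vp_ne (so a ((ms a).1 ha).1).1)
    have h0 := (ms a).1 ha
    exact (ms _).2 ⟨h0.1.trans _ _ _ (Relation.EqvGen.rel _ _ ⟨(so a h0.1).1, (so a h0.1).2, Or.inl rfl⟩), h0.2⟩
  -- the half edges of `s` whose other half is not in `s`
  set q : Finset He := s.filter fun k => k = ((j, r + 1), Dir.S) ∨ k = ((j + 1, r + 1), Dir.S) with hq
  have hB : ∀ k ∈ s, (rv k).1 ∈ Sp j := by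
    intro k hk
    by_contra hc
    have h0 := (ms k).1 hk
    have hkB : k ∈ Bd j := ⟨(so k h0.1).2, hc⟩
    have hkb : k ≠ b := fun e => by rw [e] at h0; omega
    have := arc_ends hm hb hb' hkB hne hkb c h0.1
    rw [← this] at h0
    omega
  have e2 : ((s.filter fun k => ¬ (k = ((j, r + 1), Dir.S) ∨ k = ((j + 1, r + 1), Dir.S))).card : ZMod 2) = 0 := by
    refine even_inv rv (fun a ha => ?_) (fun a _ => rv_rv a) (fun a _ => rv_ne a)
    obtain ⟨ha1, ha2⟩ := Finset.mem_filter.1 ha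
    have h0 := (ms a).1 ha1
    have hr := hB a ha1
    have hr2 : r < (rv a).1.2 := by
      obtain ⟨⟨x, y⟩, d⟩ := a
      have hx := (so _ h0.1).2
      simp only [Sp, Set.mem_setOf_eq] at hx
      have h02 := h0.2
      simp only at h02
      cases d <;> simp only [rv, nx] <;> try omega
      by_contra hc
      apply ha2
      rcases hx with hx | hx
      · left
        ext <;> simp <;> omega
      · right
        ext <;> simp <;> omega
    refine Finset.mem_filter.2 ⟨(ms _).2 ⟨h0.1.trans _ _ _ (Relation.EqvGen.rel _ _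
      ⟨(so a h0.1).1, (so a h0.1).2, Or.inr ⟨rfl, hr⟩⟩), hr2⟩, ?_⟩
    rintro (e | e)
    · have e' : a = ((j, r), Dir.N) := by
        rw [← rv_rv a, e]
        simp [rv, nx, Dir.op]
      rw [e'] at h0
      have := h0.2
      simp at this
    · have e' : a = ((j + 1, r), Dir.N) := by
        rw [← rv_rv a, e]
        simp [rv, nx, Dir.op]
      rw [e'] at h0
      have := h0.2
      simp at this
  have e3 : (q.card : ZMod 2) = 0 := by
    have := Finset.card_filter_add_card_filter_not (s := s)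
      (fun k => k = ((j, r + 1), Dir.S) ∨ k = ((j + 1, r + 1), Dir.S))
    rw [← this, Nat.cast_add, e2, add_zero] at e1
    exact e1
  have ne : q.Nonempty := by
    by_contra hc
    rw [Finset.not_nonempty_iff_eq_empty, hq, Finset.filter_eq_empty_iff] at hc
    have clo : ∀ h k, Lk γ (Sp j) h k → h ∈ s → k ∈ s := by
      intro h k l hh
      have h0 := (ms h).1 hh
      refine (ms k).2 ⟨h0.1.trans _ _ _ (Relation.EqvGen.rel _ _ l), ?_⟩
      rcases l.2.2 with rfl | ⟨rfl, hk⟩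
      · exact h0.2
      · by_contra hcc
        apply hc hh
        obtain ⟨⟨x, y⟩, d⟩ := h
        have hx := (so _ h0.1).2
        simp only [Sp, Set.mem_setOf_eq] at hx
        have h02 := h0.2
        simp only at h02
        cases d <;> simp only [rv, nx] at hcc <;> try omega
        rcases hx with hx | hx
        · left
          ext <;> simp <;> omega
        · right
          ext <;> simp <;> omega
    have hh : b ∈ s := (Cn.closed (C := {k | k ∈ s}) hmS clo ch).2 ((ms h).2 ⟨ch, h3⟩)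
    have := ((ms b).1 hh).2
    omega
  have two : 1 < q.card := by
    have h1 := ne.card_pos
    rcases Nat.lt_or_ge 1 q.card with h | h
    · exact h
    · have : q.card = 1 := le_antisymm h h1
      rw [this] at e3
      exact absurd e3 (by decide)
  have sub : q ⊆ {((j, r + 1), Dir.S), ((j + 1, r + 1), Dir.S)} := by
    intro k hk
    have := (Finset.mem_filter.1 hk).2
    simp only [Finset.mem_insert, Finset.mem_singleton]
    exact this
  have full : q = {((j, r + 1), Dir.S), ((j + 1, r + 1), Dir.S)} := by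
    refine Finset.eq_of_subset_of_card_le sub ?_
    refine le_trans (Finset.card_insert_le _ _) ?_
    simp only [Finset.card_singleton]
    exact two
  have g1 : (((j, r + 1), Dir.S) : He) ∈ q := by rw [full]; simp
  have g2 : (((j + 1, r + 1), Dir.S) : He) ∈ q := by rw [full]; simp
  exact ⟨((ms _).1 (Finset.mem_filter.1 g1).1).1, ((ms _).1 (Finset.mem_filter.1 g2).1).1⟩

/-- no boundary half edge of the component above both ends -/
theorem arc_nb {γ : Cfg} (hm : Mt γ Set.univ) {j : ℤ} {b b' : He} (hb : b ∈ Bd j) (hb' : b' ∈ Bd j) (hne : b' ≠ b)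
    (c : Cn γ (Sp j) b b') {k : He} (hk : k ∈ Bd j) (h1 : b.1.2 < k.1.2) (h2 : b'.1.2 < k.1.2) :
    ¬ Cn γ (Sp j) b k := by
  intro ck
  have hkb : k ≠ b := fun e => by rw [e] at h1; omega
  have := arc_ends hm hb hb' hk hne hkb c ck
  rw [← this] at h2
  omega

private theorem cn_oc {γ : Cfg} (hm : Mt γ Set.univ) {j : ℤ} {b b' : He} (hne : b' ≠ b)
    (c : Cn γ (Sp j) b b') {k : He} (ck : Cn γ (Sp j) b k) : oc γ k ∧ k.1 ∈ Sp j := by
  have hmS : Mt γ (Sp j) := fun k _ _ => hm k (Set.mem_univ _) (Set.mem_univ _)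
  rcases ck.oc_mem hmS with rfl | e
  · rcases c.oc_mem hmS with e | e
    · exact absurd e.symm hne
    · exact e.1
  · exact e.2

private theorem cell_l : ∀ c : Cell, c.oc .S → c.oc .N → c.p .S ≠ .W → c.p .N ≠ .W → c = .v := by decide

private theorem cell_r : ∀ c : Cell, c.oc .S → c.oc .N → c.p .S ≠ .E → c.p .N ≠ .E → c = .v := by decide

private theorem cell_tl : ∀ c : Cell, c.oc .S → c.p .S ≠ .W → c.p .S ≠ .N → c = .se ∨ c = .y := by decide

private theorem cell_tr : ∀ c : Cell, c.oc .S → c.p .S ≠ .E → c.p .S ≠ .N → c = .sw ∨ c = .x := by decide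

theorem mem_Sp0 (j r : ℤ) : ((j, r) : Pt) ∈ Sp j := Or.inl rfl

theorem mem_Sp1 (j r : ℤ) : ((j + 1, r) : Pt) ∈ Sp j := Or.inr rfl

theorem Bd_W (j r : ℤ) : (((j, r), .W) : He) ∈ Bd j := by
  refine ⟨mem_Sp0 j r, ?_⟩
  simp only [rv, nx, Sp, Set.mem_setOf_eq]
  omega

theorem Bd_E (j r : ℤ) : (((j + 1, r), .E) : He) ∈ Bd j := by
  refine ⟨mem_Sp1 j r, ?_⟩
  simp only [rv, nx, Sp, Set.mem_setOf_eq]
  omega

/-- the passage -/
theorem Cn.vp {γ : Cfg} {A : Set Pt} {b : He} {v : Pt} {d : Dir} (ck : Cn γ A b (v, d)) (ho : oc γ (v, d))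
    (hA : v ∈ A) : Cn γ A b (v, (γ v).p d) :=
  ck.trans _ _ _ (Relation.EqvGen.rel _ _ ⟨ho, hA, Or.inl rfl⟩)

/-- **the rows of the overshoot are vertical in both columns** -/
theorem arc_vv {γ : Cfg} (hm : Mt γ Set.univ) {j : ℤ} {b b' : He} (hb : b ∈ Bd j) (hb' : b' ∈ Bd j) (hne : b' ≠ b)
    (c : Cn γ (Sp j) b b') {r : ℤ} (h1 : b.1.2 < r) (h2 : b'.1.2 < r) {h : He} (ch : Cn γ (Sp j) b h)
    (h3 : r < h.1.2) : γ (j, r) = .v ∧ γ (j + 1, r) = .v := by
  obtain ⟨s1, s2⟩ := arc_lev hm hb hb' hne c (r := r - 1) (by omega) (by omega) ch (by omega)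
  obtain ⟨n1, n2⟩ := arc_lev hm hb hb' hne c (r := r) (by omega) (by omega) ch (by omega)
  rw [sub_add_cancel] at s1 s2
  have up : ∀ i : ℤ, (i, r) ∈ Sp j → Cn γ (Sp j) b ((i, r + 1), .S) → Cn γ (Sp j) b ((i, r), .N) := by
    intro i hi c1
    obtain ⟨o1, o2⟩ := cn_oc hm hne c c1
    refine c1.trans _ _ _ (Relation.EqvGen.rel _ _ ⟨o1, o2, Or.inr ⟨?_, ?_⟩⟩)
    · simp [rv, nx, Dir.op]
    · simpa [rv, nx, Dir.op] using hi
  have t1 := up j (mem_Sp0 j r) n1
  have t2 := up (j + 1) (mem_Sp1 j r) n2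
  have nW : ¬ Cn γ (Sp j) b ((j, r), .W) := arc_nb hm hb hb' hne c (Bd_W j r) h1 h2
  have nE : ¬ Cn γ (Sp j) b ((j + 1, r), .E) := arc_nb hm hb hb' hne c (Bd_E j r) h1 h2
  have o1 := cn_oc hm hne c s1
  have o2 := cn_oc hm hne c t1
  have o3 := cn_oc hm hne c s2
  have o4 := cn_oc hm hne c t2
  refine ⟨cell_l _ o1.1 o2.1 (fun e => nW ?_) (fun e => nW ?_), cell_r _ o3.1 o4.1 (fun e => nE ?_) (fun e => nE ?_)⟩
  · have := s1.vp o1.1 o1.2
    rwa [e] at this
  · have := t1.vp o2.1 o2.2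
    rwa [e] at this
  · have := s2.vp o3.1 o3.2
    rwa [e] at this
  · have := t2.vp o4.1 o4.2
    rwa [e] at this

/-- **the highest row of the overshoot** -/
theorem arc_top {γ : Cfg} (hm : Mt γ Set.univ) {j : ℤ} {b b' : He} (hb : b ∈ Bd j) (hb' : b' ∈ Bd j) (hne : b' ≠ b)
    (c : Cn γ (Sp j) b b') {T : ℤ} (h1 : b.1.2 < T) (h2 : b'.1.2 < T) (mx : ∀ k, Cn γ (Sp j) b k → k.1.2 ≤ T)
    {h : He} (ch : Cn γ (Sp j) b h) (h3 : h.1.2 = T) :
    (γ (j, T) = .se ∨ γ (j, T) = .y) ∧ (γ (j + 1, T) = .sw ∨ γ (j + 1, T) = .x) ∧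
      Cn γ (Sp j) b ((j, T), .S) ∧ Cn γ (Sp j) b ((j + 1, T), .S) := by
  obtain ⟨s1, s2⟩ := arc_lev hm hb hb' hne c (r := T - 1) (by omega) (by omega) ch (by omega)
  rw [sub_add_cancel] at s1 s2
  have nW : ¬ Cn γ (Sp j) b ((j, T), .W) := arc_nb hm hb hb' hne c (Bd_W j T) h1 h2
  have nE : ¬ Cn γ (Sp j) b ((j + 1, T), .E) := arc_nb hm hb hb' hne c (Bd_E j T) h1 h2
  have o1 := cn_oc hm hne c s1
  have o3 := cn_oc hm hne c s2
  have nN : ∀ i : ℤ, (i, T) ∈ Sp j → ¬ Cn γ (Sp j) b ((i, T), .N) := by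
    intro i hi c1
    obtain ⟨p1, p2⟩ := cn_oc hm hne c c1
    have hi' : (i, T + 1) ∈ Sp j := hi
    have c2 : Cn γ (Sp j) b ((i, T + 1), .S) :=
      c1.trans _ _ _ (Relation.EqvGen.rel _ _ ⟨p1, p2, Or.inr ⟨rfl, hi'⟩⟩)
    have := mx _ c2
    simp only at this
    omega
  refine ⟨cell_tl _ o1.1 (fun e => nW ?_) (fun e => nN j (mem_Sp0 j T) ?_),
    cell_tr _ o3.1 (fun e => nE ?_) (fun e => nN (j + 1) (mem_Sp1 j T) ?_), s1, s2⟩
  · have := s1.vp o1.1 o1.2
    rwa [e] at this
  · have := s1.vp o1.1 o1.2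
    rwa [e] at this
  · have := s2.vp o3.1 o3.2
    rwa [e] at this
  · have := s2.vp o3.1 o3.2
    rwa [e] at this

end Pool.Agent.ROT.E
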