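import Pool.Agent.ROT.EDefs
import Pool.Agent.EXL.Col

/-!
# ROT, block E: the sweep of the strip, definitions

The site `i` of a step is the track of the column (it comes from the south and goes on to the north), the site `k` the
track of the row (it comes from the east and goes on to the west).
-/

set_option autoImplicit false

namespace Pool.Agent.ROT.E

open Pool.Agent.EXL Pool.Agent.EXL.Pat
open Pool.Agent.YBC (Dir)

variable {α : Type*} [DecidableEq α]

/-- the pattern after the cell -/
def mv (i k : α) (p : Pat α) : Cell → Pat α
  | .o => p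
  | .h => p
  | .v => p
  | .sw => swap i k p
  | .ne => swap i k p
  | .x => swap i k p
  | .se => cut i k p
  | .nw => cup i k p
  | .y => cup i k (cut i k p)

/-- the cell fits the pattern and closes no loop -/
def fit (i k : α) (p : Pat α) (c : Cell) : Prop :=
  (c.oc .S ↔ p i ≠ i) ∧ (c.oc .E ↔ p k ≠ k) ∧ (c.p .S = .E → p i ≠ k)

/-- a step of the sweep -/
structure Stp (α : Type*) where
  /-- the vertex -/
  v : Pt
  /-- the column track -/
  i : α
  /-- the row track -/
  k : α
  /-- the weights -/
  w : Wt ℝ

/-- the operator of the sweep -/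
def op : List (Stp α) → (Pat α → ℝ) → Pat α → ℝ
  | [], F => F
  | s :: L, F => R s.w s.i s.k (op L F)

/-- the pattern after the sweep -/
def run : List (Stp α) → (Pt → Cell) → Pat α → Pat α
  | [], _, p => p
  | s :: L, δ, p => run L δ (mv s.i s.k p (δ s.v))

/-- the sweep is possible -/
def ok : List (Stp α) → (Pt → Cell) → Pat α → Prop
  | [], _, _ => True
  | s :: L, δ, p => fit s.i s.k p (δ s.v) ∧ ok L δ (mv s.i s.k p (δ s.v))

/-- the weight of the sweep -/
def wgt : List (Stp α) → (Pt → Cell) → ℝ
  | [], _ => 1
  | s :: L, δ => (δ s.v).wt s.w * wgt L δ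

open Classical in
/-- the configurations that agree with `γ` outside the list -/
noncomputable def bx : List Pt → Cfg → Finset Cfg
  | [], γ => {γ}
  | v :: V, γ => Finset.univ.biUnion fun c : Cell => bx V (γ.update v c)

/-- the rows `-K, …, K` -/
def rows (K : ℕ) : List ℤ := (List.range (2 * K + 1)).map fun i => (i : ℤ) - K

/-- **the sweep** of the strip: first the right column `j + 1` (track `d`, weights `w'`) from the bottom to the top, then
the left column `j` (track `c`, weights `w`); `t r` is the track of the row `r` -/
def swp (j : ℤ) (w' w : Wt ℝ) (d c : α) (t : ℤ → α) (K : ℕ) : List (Stp α) :=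
  ((rows K).map fun r => ⟨(j + 1, r), d, t r, w'⟩) ++ ((rows K).map fun r => ⟨(j, r), c, t r, w⟩)

end Pool.Agent.ROT.E
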