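import Pool.Agent.ROT.EInv
import Pool.Agent.ROT.EStep

/-!
# ROT, block E: one cell of the sweep keeps `pairing = connectivity`
-/

set_option autoImplicit false

namespace Pool.Agent.ROT.E

open Pool.Agent.EXL Pool.Agent.EXL.Pat
open Pool.Agent.YBC (Dir)

variable {α D : Type*} [DecidableEq α]

/-- the relation after a cell with the edges `s e n w` -/
def cel (Q : D → D → Prop) (s e n w : D) : Cell → D → D → Prop
  | .o => Q
  | .h => lnk Q e w
  | .v => lnk Q s n
  | .sw => lnk Q s w
  | .ne => lnk Q e n
  | .se => lnk Q s e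
  | .nw => lnk Q n w
  | .x => lnk (lnk Q s w) e n
  | .y => lnk (lnk Q s e) n w

private theorem upd_swap {i k : α} (hik : i ≠ k) (φ : α → D) (n w : D) :
    (Function.update (Function.update φ k n) i w) ∘ Equiv.swap i k =
      Function.update (Function.update φ i n) k w := by
  funext r
  by_cases h1 : r = i
  · subst h1
    simp [Function.update_of_ne hik, Function.update_of_ne hik.symm]
  · by_cases h2 : r = k
    · subst h2
      simp
    · simp [Equiv.swap_apply_of_ne_of_ne h1 h2, Function.update_of_ne h1, Function.update_of_ne h2]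

private theorem upd_comm {i k : α} (hik : i ≠ k) (φ : α → D) (n w : D) :
    Function.update (Function.update φ k n) i w = Function.update (Function.update φ i w) k n :=
  (Function.update_comm hik _ _ _).symm

private theorem upd_ne {i : α} {φ : α → D} {n w : D} (h : ∀ r, φ r ≠ w) (hn : n ≠ w) :
    ∀ r, Function.update φ i n r ≠ w := by
  intro r
  by_cases h1 : r = i
  · subst h1; rw [Function.update_self]; exact hn
  · rw [Function.update_of_ne h1]; exact h r

variable {Q : D → D → Prop} {φ : α → D} {p : Pat α} {i k : α} {n w : D} {c : Cell}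

/-- **one cell** -/
theorem Inv.cell (h : Inv Q φ p) (hik : i ≠ k) (hn : Iso Q n) (hw : Iso Q w)
    (hφn : ∀ r, φ r ≠ n) (hφw : ∀ r, φ r ≠ w) (hnw : n ≠ w) (hf : fit i k p c) :
    Inv (cel Q (φ i) (φ k) n w c) (Function.update (Function.update φ i n) k w) (mv i k p c) := by
  obtain ⟨f1, f2, f3⟩ := hf
  have ui : Function.update φ i n i = n := Function.update_self _ _ _
  have uk : Function.update φ i n k = φ k := Function.update_of_ne hik.symm _ _
  cases c with
  | o =>
    have hi : p i = i := by
      by_contra hc; exact (f1.2 hc) rfl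
    have hk : p k = k := by
      by_contra hc; exact (f2.2 hc) rfl
    exact (h.mov hi hn hφn).mov hk hw (upd_ne hφw hnw)
  | h =>
    have hi : p i = i := by
      by_contra hc; exact (f1.2 hc) rfl
    have hk : p k ≠ k := f2.1 (by decide)
    have := (h.mov hi hn hφn).ext hk hw (upd_ne hφw hnw)
    rw [uk] at this
    exact this
  | v =>
    have hi : p i ≠ i := f1.1 (by decide)
    have hk : p k = k := by
      by_contra hc; exact (f2.2 hc) rfl
    exact (h.ext hi hn hφn).mov hk (iso_lnk hw (hφw i).symm hnw.symm) (upd_ne hφw hnw)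
  | sw =>
    have hi : p i ≠ i := f1.1 (by decide)
    have hk : p k = k := by
      by_contra hc; exact (f2.2 hc) rfl
    have := ((h.mov hk hn hφn).ext hi hw (upd_ne hφw hnw)).swap i k
    rw [upd_swap hik, Function.update_of_ne hik] at this
    exact this
  | ne =>
    have hi : p i = i := by
      by_contra hc; exact (f1.2 hc) rfl
    have hk : p k ≠ k := f2.1 (by decide)
    have := ((h.ext hk hn hφn).mov hi (iso_lnk hw (hφw k).symm hnw.symm) (upd_ne hφw hnw)).swap i k
    rw [upd_swap hik] at this
    exact this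
  | se =>
    have hi : p i ≠ i := f1.1 (by decide)
    have hk : p k ≠ k := f2.1 (by decide)
    exact h.cut hik hi hk (f3 rfl) hn hφn hw hφw
  | nw =>
    have hi : p i = i := by
      by_contra hc; exact (f1.2 hc) rfl
    have hk : p k = k := by
      by_contra hc; exact (f2.2 hc) rfl
    have h1 := (h.mov hi hn hφn).mov hk hw (upd_ne hφw hnw)
    have e1 : Function.update (Function.update φ i n) k w i = n := by
      rw [Function.update_of_ne hik, ui]
    have e2 : Function.update (Function.update φ i n) k w k = w := Function.update_self _ _ _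
    have h2 := h1.cup (s := i) (t := k) hik hi hk (fun r hr => by
      rw [e1] at hr
      by_contra hc
      by_cases hk' : r = k
      · subst hk'; rw [e2] at hr; exact hnw hr.symm
      · rw [Function.update_of_ne hk', Function.update_of_ne hc] at hr; exact hφn r hr) (fun r hr => by
      rw [e2] at hr
      by_contra hc
      rw [Function.update_of_ne hc] at hr
      exact upd_ne hφw hnw r hr)
    rw [e1, e2] at h2
    exact h2
  | x =>
    have hi : p i ≠ i := f1.1 (by decide)
    have hk : p k ≠ k := f2.1 (by decide)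
    have h1 := h.ext hi hw hφw
    have h2 := (h1.ext hk (iso_lnk hn (hφn i).symm hnw) (upd_ne hφn hnw.symm)).swap i k
    rw [Function.update_of_ne hik.symm, ← upd_comm hik, upd_swap hik] at h2
    exact h2
  | y =>
    have hi : p i ≠ i := f1.1 (by decide)
    have hk : p k ≠ k := f2.1 (by decide)
    have hp : p i ≠ k := f3 rfl
    have h1 := h.cut hik hi hk hp hn hφn hw hφw
    have e1 : Function.update (Function.update φ i n) k w i = n := by
      rw [Function.update_of_ne hik, ui]
    have e2 : Function.update (Function.update φ i n) k w k = w := Function.update_self _ _ _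
    have c1 : Pat.cut i k p i = i := by rw [cut_apply ⟨hik, hi, hk, hp⟩, if_pos rfl]
    have c2 : Pat.cut i k p k = k := by rw [cut_apply ⟨hik, hi, hk, hp⟩, if_neg hik.symm, if_pos rfl]
    have h2 := h1.cup (s := i) (t := k) hik c1 c2 (fun r hr => by
      rw [e1] at hr
      by_contra hc
      by_cases hk' : r = k
      · subst hk'; rw [e2] at hr; exact hnw hr.symm
      · rw [Function.update_of_ne hk', Function.update_of_ne hc] at hr; exact hφn r hr) (fun r hr => by
      rw [e2] at hr
      by_contra hc
      rw [Function.update_of_ne hc] at hr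
      exact upd_ne hφw hnw r hr)
    rw [e1, e2] at h2
    exact h2

/-- which sites are used after the cell -/
theorem mv_occ (hik : i ≠ k) (hf : fit i k p c) :
    (mv i k p c i ≠ i ↔ c.oc .N) ∧ (mv i k p c k ≠ k ↔ c.oc .W) ∧
      ∀ r, r ≠ i → r ≠ k → (mv i k p c r ≠ r ↔ p r ≠ r) := by
  obtain ⟨f1, f2, f3⟩ := hf
  have si : Pat.swap i k p i = i ↔ p k = k := by
    rw [swap_apply, Equiv.swap_apply_left, Equiv.swap_apply_eq_iff, Equiv.swap_apply_left]
  have sk : Pat.swap i k p k = k ↔ p i = i := by
    rw [swap_apply, Equiv.swap_apply_right, Equiv.swap_apply_eq_iff, Equiv.swap_apply_right]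
  have so : ∀ r, r ≠ i → r ≠ k → (Pat.swap i k p r ≠ r ↔ p r ≠ r) := fun r h1 h2 =>
    not_congr (swap_eq_out p h1 h2 h1 h2)
  cases c with
  | o =>
    have hi : p i = i := by
      by_contra hc; exact (f1.2 hc) rfl
    have hk : p k = k := by
      by_contra hc; exact (f2.2 hc) rfl
    exact ⟨⟨fun e => absurd hi e, fun e => absurd rfl e⟩, ⟨fun e => absurd hk e, fun e => absurd rfl e⟩,
      fun r _ _ => Iff.rfl⟩
  | h =>
    have hi : p i = i := by
      by_contra hc; exact (f1.2 hc) rfl
    have hk : p k ≠ k := f2.1 (by decide)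
    exact ⟨⟨fun e => absurd hi e, fun e => absurd rfl e⟩, ⟨fun _ => by decide, fun _ => hk⟩,
      fun r _ _ => Iff.rfl⟩
  | v =>
    have hi : p i ≠ i := f1.1 (by decide)
    have hk : p k = k := by
      by_contra hc; exact (f2.2 hc) rfl
    exact ⟨⟨fun _ => by decide, fun _ => hi⟩, ⟨fun e => absurd hk e, fun e => absurd rfl e⟩,
      fun r _ _ => Iff.rfl⟩
  | sw =>
    have hi : p i ≠ i := f1.1 (by decide)
    have hk : p k = k := by
      by_contra hc; exact (f2.2 hc) rfl
    exact ⟨⟨fun e => absurd (si.2 hk) e, fun e => absurd rfl e⟩, ⟨fun _ => by decide, fun _ e => hi (sk.1 e)⟩, so⟩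
  | ne =>
    have hi : p i = i := by
      by_contra hc; exact (f1.2 hc) rfl
    have hk : p k ≠ k := f2.1 (by decide)
    exact ⟨⟨fun _ => by decide, fun _ e => hk (si.1 e)⟩, ⟨fun e => absurd (sk.2 hi) e, fun e => absurd rfl e⟩, so⟩
  | se =>
    have hi : p i ≠ i := f1.1 (by decide)
    have hk : p k ≠ k := f2.1 (by decide)
    have hp : p i ≠ k := f3 rfl
    have c1 : Pat.cut i k p i = i := by rw [cut_apply ⟨hik, hi, hk, hp⟩, if_pos rfl]
    have c2 : Pat.cut i k p k = k := by rw [cut_apply ⟨hik, hi, hk, hp⟩, if_neg hik.symm, if_pos rfl]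
    exact ⟨⟨fun e => absurd c1 e, fun e => absurd rfl e⟩, ⟨fun e => absurd c2 e, fun e => absurd rfl e⟩,
      fun r h1 h2 => not_congr (cut_fix_out p h1 h2)⟩
  | nw =>
    have hi : p i = i := by
      by_contra hc; exact (f1.2 hc) rfl
    have hk : p k = k := by
      by_contra hc; exact (f2.2 hc) rfl
    have c1 : Pat.cup i k p i = k := by rw [cup_apply ⟨hi, hk⟩, if_pos rfl]
    have c2 : Pat.cup i k p k = i := by rw [cup_apply ⟨hi, hk⟩, if_neg hik.symm, if_pos rfl]
    exact ⟨⟨fun _ => by decide, fun _ => by show Pat.cup i k p i ≠ i; rw [c1]; exact hik.symm⟩,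
      ⟨fun _ => by decide, fun _ => by show Pat.cup i k p k ≠ k; rw [c2]; exact hik⟩,
      fun r h1 h2 => by show Pat.cup i k p r ≠ r ↔ p r ≠ r; rw [cup_out p h1 h2]⟩
  | x =>
    have hi : p i ≠ i := f1.1 (by decide)
    have hk : p k ≠ k := f2.1 (by decide)
    exact ⟨⟨fun _ => by decide, fun _ e => hk (si.1 e)⟩, ⟨fun _ => by decide, fun _ e => hi (sk.1 e)⟩, so⟩
  | y =>
    have hi : p i ≠ i := f1.1 (by decide)
    have hk : p k ≠ k := f2.1 (by decide)
    have hp : p i ≠ k := f3 rfl
    have c1 : Pat.cut i k p i = i := by rw [cut_apply ⟨hik, hi, hk, hp⟩, if_pos rfl]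
    have c2 : Pat.cut i k p k = k := by rw [cut_apply ⟨hik, hi, hk, hp⟩, if_neg hik.symm, if_pos rfl]
    have d1 : Pat.cup i k (Pat.cut i k p) i = k := by rw [cup_apply ⟨c1, c2⟩, if_pos rfl]
    have d2 : Pat.cup i k (Pat.cut i k p) k = i := by rw [cup_apply ⟨c1, c2⟩, if_neg hik.symm, if_pos rfl]
    exact ⟨⟨fun _ => by decide, fun _ => by show Pat.cup i k (Pat.cut i k p) i ≠ i; rw [d1]; exact hik.symm⟩,
      ⟨fun _ => by decide, fun _ => by show Pat.cup i k (Pat.cut i k p) k ≠ k; rw [d2]; exact hik⟩,
      fun r h1 h2 => by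
        show Pat.cup i k (Pat.cut i k p) r ≠ r ↔ p r ≠ r
        rw [cup_out _ h1 h2]
        exact not_congr (cut_fix_out p h1 h2)⟩

end Pool.Agent.ROT.E
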