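import Pool.Agent.ROT.EStep
import Pool.Agent.ROT.EAlg

/-!
# ROT, block E: the operator of the sweep is the sum over the cells

* `R_cell`: one crossing = the sum over the nine cells;
* `mem_bx`, `op_sum`: the operator of a sweep = the sum over the configurations of the box;
* `col_op`: the two lines of `col2` are the sweep `swp`;
* `swp_nodup`, `mem_swp`, `wgt_W`, `wgt_ws`: the box and the weight of the strip;
* `hsum`: monotone exhaustion of a nonnegative sum.
-/

set_option autoImplicit false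

open Filter Topology

namespace Pool.Agent.ROT.E

open Pool.Agent.EXL Pool.Agent.EXL.Pat
open Pool.Agent.UNI (wR)

variable {α : Type*} [DecidableEq α]

/-! ### one crossing -/

/-- exchanging the ends of an arc -/
theorem swap_self {i k : α} {p : Pat α} (h : p i = k) : swap i k p = p := by
  have h' : p k = i := by rw [← h, p.inv]
  ext x
  show Equiv.swap i k (p (Equiv.swap i k x)) = p x
  by_cases h1 : x = i
  · subst h1; rw [Equiv.swap_apply_left, h', Equiv.swap_apply_left, h]
  · by_cases h2 : x = k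
    · subst h2; rw [Equiv.swap_apply_right, h, Equiv.swap_apply_right, h']
    · rw [Equiv.swap_apply_of_ne_of_ne h1 h2, Equiv.swap_apply_of_ne_of_ne]
      · intro h3; exact h2 (by rw [← h, ← h3, p.inv])
      · intro h3; exact h1 (by rw [← h', ← h3, p.inv])

private theorem sum_cell {f : Cell → ℝ} : ∑ c : Cell, f c =
    f .o + f .h + f .v + f .sw + f .ne + f .se + f .nw + f .x + f .y := by
  have : (Finset.univ : Finset Cell) = {.o, .h, .v, .sw, .ne, .se, .nw, .x, .y} := rfl
  rw [this]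
  repeat rw [Finset.sum_insert (by decide)]
  rw [Finset.sum_singleton]
  ring

open Classical in
/-- **one crossing is the sum over the cells** -/
theorem R_cell {w : Wt ℝ} {i k : α} (h : i ≠ k) (F : Pat α → ℝ) (p : Pat α) :
    R w i k F p = ∑ c : Cell, if fit i k p c then c.wt w * F (mv i k p c) else 0 := by
  rw [sum_cell]
  simp only [fit, mv, Cell.wt, Cell.oc, Cell.p, R]
  by_cases h1 : p i = i
  · by_cases h2 : p k = k
    · simp [h1, h2]
    · simp [h1, h2]
  · by_cases h2 : p k = k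
    · simp [h1, h2]
    · by_cases h3 : p i = k
      · simp [h2, h3, swap_self h3, h.symm]
      · simp [h1, h2, h3]
        ring

/-! ### the boxes -/

theorem mem_bx {V : List Pt} {g d : Cfg} : d ∈ bx V g ↔ ∀ v, v ∉ V → d v = g v := by
  classical
  induction V generalizing g with
  | nil =>
    simp only [bx, Finset.mem_singleton, List.not_mem_nil, not_false_eq_true, forall_const]
    exact Finsupp.ext_iff
  | cons v V ih =>
    simp only [bx, Finset.mem_biUnion, Finset.mem_univ, true_and, List.mem_cons, not_or]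
    constructor
    · rintro ⟨c, hc⟩ u ⟨h1, h2⟩
      rw [ih] at hc
      rw [hc u h2, Finsupp.update_apply, if_neg h1]
    · intro h
      refine ⟨d v, ih.2 fun u hu => ?_⟩
      rw [Finsupp.update_apply]
      by_cases h1 : u = v
      · rw [if_pos h1, h1]
      · rw [if_neg h1, h u ⟨h1, hu⟩]

open Classical in
/-- **the operator of a sweep is the sum over the configurations of the box** -/
theorem op_sum {L : List (Stp α)} (hL : ∀ s ∈ L, s.i ≠ s.k) (nd : (L.map Stp.v).Nodup) (F : Pat α → ℝ)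
    (p : Pat α) (g : Cfg) : op L F p =
      ∑ d ∈ bx (L.map Stp.v) g, if ok L d p then wgt L d * F (run L d p) else 0 := by
  induction L generalizing p g with
  | nil => simp [op, bx, ok, wgt, run]
  | cons s L ih =>
    rw [List.map_cons, List.nodup_cons] at nd
    have hs : ∀ (c : Cell) (d : Cfg), d ∈ bx (L.map Stp.v) (g.update s.v c) → d s.v = c := by
      intro c d hd
      rw [mem_bx] at hd
      rw [hd _ nd.1, Finsupp.update_apply, if_pos rfl]
    rw [List.map_cons, bx, Finset.sum_biUnion, op, R_cell (hL s (by simp))]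
    · refine Finset.sum_congr rfl fun c _ => ?_
      rw [ih (fun t ht => hL t (by simp [ht])) nd.2 _ (g.update s.v c)]
      by_cases hf : fit s.i s.k p c
      · rw [if_pos hf, Finset.mul_sum]
        refine Finset.sum_congr rfl fun d hd => ?_
        have hc := hs c d hd
        simp only [ok, wgt, run, hc, hf, true_and]
        by_cases ho : ok L d (mv s.i s.k p c)
        · rw [if_pos ho, if_pos ho]; ring
        · rw [if_neg ho, if_neg ho, mul_zero]
      · rw [if_neg hf]
        symm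
        refine Finset.sum_eq_zero fun d hd => ?_
        have hc := hs c d hd
        simp only [ok, hc, hf, false_and, if_false]
    · intro c _ c' _ hcc
      rw [Function.onFun, Finset.disjoint_left]
      intro d hd hd'
      exact hcc ((hs c d hd).symm.trans (hs c' d hd'))

/-! ### the two lines are the sweep -/

theorem op_append (L L' : List (Stp α)) (F : Pat α → ℝ) : op (L ++ L') F = op L (op L' F) := by
  induction L with
  | nil => rfl
  | cons s L ih => simp only [List.cons_append, op, ih]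

theorem M_op (q : ℤ) (w : Wt ℝ) (c : α) (t : ℤ → α) (L : List ℤ) (F : Pat α → ℝ) :
    EXL.M (fun _ => w) c (L.map t) F = op (L.map fun r => (⟨(q, r), c, t r, w⟩ : Stp α)) F := by
  induction L with
  | nil => rfl
  | cons r L ih => simp only [List.map_cons, M_cons, op, ih]

theorem rows_eq (K : ℕ) : rows K = (List.range (2 * K + 1)).map fun i : ℕ => (i : ℤ) - K := by
  have h : ∀ L : List ℕ, (L >>= fun a => pure (a : ℤ)) = L.map fun a : ℕ => (a : ℤ) := fun L => by
    induction L with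
    | nil => rfl
    | cons a L ih =>
      rw [List.map_cons, ← ih]
      rfl
  show List.map (fun i => i - (K : ℤ)) ((List.range (2 * K + 1)) >>= fun a => pure (a : ℤ)) = _
  rw [h, List.map_map]
  rfl

omit [DecidableEq α] in
theorem Lr_rows (t : ℤ → α) (K : ℕ) : Lr t K = (rows K).map t := by
  rw [rows_eq, Lr, List.map_map]
  rfl

/-- **the two lines are the sweep of the strip** -/
theorem col_op (j : ℤ) (w' w : Wt ℝ) (d c : α) (t : ℤ → α) (K : ℕ) (F : Pat α → ℝ) :
    col2 w' w d c (Lr t K) F = op (swp j w' w d c t K) F := by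
  rw [col2, Lr_rows, swp, op_append, M_op (j + 1), M_op j]

/-! ### the box of the sweep -/

theorem mem_rows {K : ℕ} {r : ℤ} : r ∈ rows K ↔ -(K : ℤ) ≤ r ∧ r ≤ K := by
  rw [rows_eq, List.mem_map]
  simp only [List.mem_range]
  constructor
  · rintro ⟨i, hi, rfl⟩
    constructor <;> omega
  · rintro ⟨h1, h2⟩
    exact ⟨(r + K).toNat, by omega, by omega⟩

theorem rows_nodup (K : ℕ) : (rows K).Nodup := by
  rw [rows_eq, List.nodup_map_iff_inj_on List.nodup_range]
  intro a _ b _ h
  omega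

omit [DecidableEq α] in
theorem swp_map_v (j : ℤ) (w' w : Wt ℝ) (d c : α) (t : ℤ → α) (K : ℕ) :
    (swp j w' w d c t K).map Stp.v =
      ((rows K).map fun r => ((j + 1, r) : Pt)) ++ ((rows K).map fun r => ((j, r) : Pt)) := by
  simp only [swp, List.map_append, List.map_map]
  rfl

omit [DecidableEq α] in
theorem mem_swp {j : ℤ} {w' w : Wt ℝ} {d c : α} {t : ℤ → α} {K : ℕ} {v : Pt} :
    v ∈ (swp j w' w d c t K).map Stp.v ↔ (v.1 = j ∨ v.1 = j + 1) ∧ -(K : ℤ) ≤ v.2 ∧ v.2 ≤ K := by
  rw [swp_map_v, List.mem_append, List.mem_map, List.mem_map]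
  constructor
  · rintro (⟨r, hr, rfl⟩ | ⟨r, hr, rfl⟩)
    · exact ⟨Or.inr rfl, mem_rows.1 hr⟩
    · exact ⟨Or.inl rfl, mem_rows.1 hr⟩
  · rintro ⟨h | h, hr⟩
    · exact Or.inr ⟨v.2, mem_rows.2 hr, Prod.ext h.symm rfl⟩
    · exact Or.inl ⟨v.2, mem_rows.2 hr, Prod.ext h.symm rfl⟩

omit [DecidableEq α] in
theorem swp_nodup (j : ℤ) (w' w : Wt ℝ) (d c : α) (t : ℤ → α) (K : ℕ) :
    ((swp j w' w d c t K).map Stp.v).Nodup := by
  rw [swp_map_v, List.nodup_append]
  refine ⟨(rows_nodup K).map fun a b h => congrArg Prod.snd h,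
    (rows_nodup K).map fun a b h => congrArg Prod.snd h, ?_⟩
  intro a ha b hb hab
  rw [List.mem_map] at ha hb
  obtain ⟨r, -, rfl⟩ := ha
  obtain ⟨r', -, rfl⟩ := hb
  have := congrArg Prod.fst hab
  simp at this

omit [DecidableEq α] in
/-- a step of the sweep -/
theorem mem_swp_stp {j : ℤ} {w' w : Wt ℝ} {d c : α} {t : ℤ → α} {K : ℕ} {s : Stp α}
    (h : s ∈ swp j w' w d c t K) :
    (∃ r ∈ rows K, s = ⟨(j + 1, r), d, t r, w'⟩) ∨ (∃ r ∈ rows K, s = ⟨(j, r), c, t r, w⟩) := by
  rw [swp, List.mem_append, List.mem_map, List.mem_map] at h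
  rcases h with ⟨r, hr, rfl⟩ | ⟨r, hr, rfl⟩
  · exact Or.inl ⟨r, hr, rfl⟩
  · exact Or.inr ⟨r, hr, rfl⟩

omit [DecidableEq α] in
theorem swp_ne {j : ℤ} {w' w : Wt ℝ} {d c : α} {t : ℤ → α} {K : ℕ} (hc : ∀ r, t r ≠ c) (hd : ∀ r, t r ≠ d) :
    ∀ s ∈ swp j w' w d c t K, s.i ≠ s.k := by
  intro s hs
  rcases mem_swp_stp hs with ⟨r, -, rfl⟩ | ⟨r, -, rfl⟩
  · exact (hd r).symm
  · exact (hc r).symm

/-! ### the weight -/

omit [DecidableEq α] in
theorem wgt_eq (L : List (Stp α)) (δ : Pt → Cell) : wgt L δ = (L.map fun s => (δ s.v).wt s.w).prod := by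
  induction L with
  | nil => rfl
  | cons s L ih => simp only [wgt, List.map_cons, List.prod_cons, ih]

omit [DecidableEq α] in
/-- the weight of the sweep, general weights of the columns -/
theorem wgt_prod (j : ℤ) (W : ℤ → Wt ℝ) (d c : α) (t : ℤ → α) (K : ℕ) (δ : Pt → Cell) :
    wgt (swp j (W (j + 1)) (W j) d c t K) δ =
      ∏ v ∈ ((swp j (W (j + 1)) (W j) d c t K).map Stp.v).toFinset, (δ v).wt (W v.1) := by
  rw [List.prod_toFinset _ (swp_nodup j _ _ d c t K), wgt_eq, List.map_map]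
  congr 1
  refine List.map_congr_left fun s hs => ?_
  rcases mem_swp_stp hs with ⟨r, -, rfl⟩ | ⟨r, -, rfl⟩ <;> rfl

omit [DecidableEq α] in
open Classical in
/-- the weight of the sweep is the weight of the strip, general weights of the columns -/
theorem wgt_W {j : ℤ} {W : ℤ → Wt ℝ} {d c : α} {t : ℤ → α} {K : ℕ} {δ : Cfg}
    (hδ : ∀ v ∈ Sp j, δ v ≠ 0 → -(K : ℤ) ≤ v.2 ∧ v.2 ≤ K) :
    wgt (swp j (W (j + 1)) (W j) d c t K) δ =
      δ.prod fun v e => if v ∈ Sp j then e.wt (W v.1) else 1 := by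
  rw [wgt_prod, Finsupp.prod]
  set B := ((swp j (W (j + 1)) (W j) d c t K).map Stp.v).toFinset with hB
  have hm : ∀ v, v ∈ B ↔ v ∈ Sp j ∧ -(K : ℤ) ≤ v.2 ∧ v.2 ≤ K := fun v => by
    rw [hB, List.mem_toFinset, mem_swp]; rfl
  have h1 : ∏ v ∈ B, (δ v).wt (W v.1) = ∏ v ∈ B ∩ δ.support, (δ v).wt (W v.1) := by
    refine (Finset.prod_subset Finset.inter_subset_left fun v hv hn => ?_).symm
    have h0 : δ v = 0 := by
      by_contra h
      exact hn (Finset.mem_inter.2 ⟨hv, Finsupp.mem_support_iff.2 h⟩)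
    rw [h0]
    rfl
  have h2 : ∏ v ∈ δ.support, (if v ∈ Sp j then (δ v).wt (W v.1) else 1) =
      ∏ v ∈ B ∩ δ.support, (if v ∈ Sp j then (δ v).wt (W v.1) else 1) := by
    refine (Finset.prod_subset Finset.inter_subset_right fun v hv hn => ?_).symm
    rw [if_neg]
    intro hs
    exact hn (Finset.mem_inter.2 ⟨(hm v).2 ⟨hs, hδ v hs (Finsupp.mem_support_iff.1 hv)⟩, hv⟩)
  rw [h1, h2]
  refine Finset.prod_congr rfl fun v hv => ?_
  rw [if_pos ((hm v).1 (Finset.mem_inter.1 hv).1).1]

omit [DecidableEq α] in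
/-- the weight of the sweep is the weight of the strip -/
theorem wgt_ws {j : ℤ} {u : ℤ → ℝ} {d c : α} {t : ℤ → α} {K : ℕ} {δ : Cfg}
    (hδ : ∀ v ∈ Sp j, δ v ≠ 0 → -(K : ℤ) ≤ v.2 ∧ v.2 ≤ K) :
    wgt (swp j (wR (u (j + 1))) (wR (u j)) d c t K) δ = ws1 j u δ :=
  wgt_W (W := fun i => wR (u i)) hδ

/-! ### the sum over all configurations -/

/-- monotone exhaustion of a nonnegative sum -/
theorem hsum {β : Type*} {f : β → ℝ} (f0 : ∀ d, 0 ≤ f d) {S : ℕ → Finset β} (mono : Monotone S)
    (cov : ∀ d, f d ≠ 0 → ∃ K, d ∈ S K) {z : ℝ} (lim : Tendsto (fun K => ∑ d ∈ S K, f d) atTop (𝓝 z)) :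
    HasSum f z := by
  classical
  have hm : Monotone fun K => ∑ d ∈ S K, f d := fun a b hab =>
    Finset.sum_le_sum_of_subset_of_nonneg (mono hab) fun d _ _ => f0 d
  refine hasSum_of_isLUB_of_nonneg z f0 ⟨?_, fun b hb => ?_⟩
  · rintro _ ⟨A, rfl⟩
    have h : ∃ K, ∀ d ∈ A, f d ≠ 0 → d ∈ S K := by
      choose! k hk using cov
      refine ⟨A.sup k, fun d hd h0 => mono (Finset.le_sup hd) (hk d h0)⟩
    obtain ⟨K, hK⟩ := h
    refine le_trans ?_ (hm.ge_of_tendsto lim K)
    have h2 : ∑ d ∈ A, f d = ∑ d ∈ A.filter fun d => f d ≠ 0, f d := (Finset.sum_filter_ne_zero A).symm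
    show ∑ d ∈ A, f d ≤ ∑ d ∈ S K, f d
    rw [h2]
    refine Finset.sum_le_sum_of_subset_of_nonneg (fun d hd => ?_) fun d _ _ => f0 d
    rw [Finset.mem_filter] at hd
    exact hK d hd.1 hd.2
  · exact le_of_tendsto' lim fun K => hb ⟨S K, rfl⟩

end Pool.Agent.ROT.E
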