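import Pool.Agent.UNI.WtR
import Pool.Agent.YBC.Def4

/-!
# ROT, block E (exact side): configurations, families of loops, strips, the heat bath of a swap

Square lattice `ℤ × ℤ` = (column, row); column `j` has the angle `u j` (`= 3 θ / 8`, honeycomb `π / 8`), weights
`wR (u j)`.  A configuration puts one of nine local states at every vertex.
-/

set_option autoImplicit false

namespace Pool.Agent.ROT.E

open Pool.Agent.EXL (Wt)
open Pool.Agent.YBC (Dir)
open Pool.Agent.UNI (wR)

/-- the vertices -/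
abbrev Pt := ℤ × ℤ

/-- the neighbour -/
def nx (v : Pt) : Dir → Pt
  | .E => (v.1 + 1, v.2)
  | .N => (v.1, v.2 + 1)
  | .W => (v.1 - 1, v.2)
  | .S => (v.1, v.2 - 1)

/-- the half edges -/
abbrev He := Pt × Dir

/-- the other half of the edge -/
def rv (h : He) : He := (nx h.1 h.2, h.2.op)

/-- the local states: empty, horizontal, vertical, the four turns, `x` = both turns sw and ne, `y` = both turns
se and nw -/
inductive Cell
  | o | h | v | sw | ne | se | nw | x | y
  deriving DecidableEq, Fintype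

instance : Zero Cell := ⟨.o⟩

namespace Cell

/-- the other end of the passage through the side `d` (`d` itself if the side is free) -/
def p : Cell → Dir → Dir
  | .h, .E => .W
  | .h, .W => .E
  | .v, .N => .S
  | .v, .S => .N
  | .sw, .S => .W
  | .sw, .W => .S
  | .ne, .N => .E
  | .ne, .E => .N
  | .se, .S => .E
  | .se, .E => .S
  | .nw, .N => .W
  | .nw, .W => .N
  | .x, .S => .W
  | .x, .W => .S
  | .x, .N => .E
  | .x, .E => .N
  | .y, .S => .E
  | .y, .E => .S
  | .y, .N => .W
  | .y, .W => .N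
  | _, d => d

/-- the side `d` is used -/
def oc (c : Cell) (d : Dir) : Prop := c.p d ≠ d

instance (c : Cell) (d : Dir) : Decidable (c.oc d) := inferInstanceAs (Decidable (_ ≠ _))

/-- the weight -/
def wt {K : Type*} [One K] (w : Wt K) : Cell → K
  | .o => 1
  | .h => w.v
  | .v => w.v
  | .sw => w.u1
  | .ne => w.u1
  | .se => w.u2
  | .nw => w.u2
  | .x => w.w1
  | .y => w.w2

end Cell

/-- configurations (finitely many visited vertices) -/
abbrev Cfg := Pt →₀ Cell

/-- the half edge is used -/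
def oc (γ : Cfg) (h : He) : Prop := (γ h.1).oc h.2

/-- the other half edge of the passage -/
def vp (γ : Cfg) (h : He) : He := (h.1, (γ h.1).p h.2)

/-- the two halves of every edge of `A` fit -/
def Mt (γ : Cfg) (A : Set Pt) : Prop := ∀ h : He, h.1 ∈ A → (rv h).1 ∈ A → (oc γ h ↔ oc γ (rv h))

/-- one link inside `A` -/
def Lk (γ : Cfg) (A : Set Pt) (h k : He) : Prop :=
  oc γ h ∧ h.1 ∈ A ∧ (k = vp γ h ∨ (k = rv h ∧ (rv h).1 ∈ A))

/-- connected inside `A` -/
def Cn (γ : Cfg) (A : Set Pt) : He → He → Prop := Relation.EqvGen (Lk γ A)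

/-- **a loop** (polygon): the configuration is one closed path -/
structure Lp (γ : Cfg) : Prop where
  mt : Mt γ Set.univ
  ne : γ ≠ 0
  cn : ∀ h k, oc γ h → oc γ k → Cn γ Set.univ h k

/-! ### families of loops with the labels `I` -/

/-- families -/
abbrev Fm (I : Type) := Pt →₀ (I → Cell)

variable {I : Type}

/-- the member `i` -/
noncomputable def co (γ : Fm I) (i : I) : Cfg := γ.mapRange (fun f => f i) rfl

/-- `c` is the union of the local states -/
def IsUn (f : I → Cell) (c : Cell) : Prop :=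
  (∀ i d, (f i).oc d → c.p d = (f i).p d) ∧ (∀ i i' d, (f i).oc d → (f i').oc d → i = i') ∧
    ∀ d, c.oc d → ∃ i, (f i).oc d

open Classical in
/-- the weight of a vertex of a family (0 if the local states are not disjoint) -/
noncomputable def wf (w : Wt ℝ) (f : I → Cell) : ℝ := ∑ c : Cell, if IsUn f c then c.wt w else 0

/-- **a family of disjoint loops** -/
structure Fam (γ : Fm I) : Prop where
  lp : ∀ i, Lp (co γ i)
  dj : ∀ v, ∃ c, IsUn (γ v) c

/-- **the weight** of a family -/
noncomputable def M (u : ℤ → ℝ) (γ : Fm I) : ℝ := γ.prod fun v f => wf (wR (u v.1)) f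

/-! ### the swap of the columns `j`, `j + 1` -/

/-- the strip -/
def Sp (j : ℤ) : Set Pt := {v | v.1 = j ∨ v.1 = j + 1}

/-- its boundary half edges -/
def Bd (j : ℤ) : Set He := {h | h.1 ∈ Sp j ∧ (rv h).1 ∉ Sp j}

/-- every member leaves the strip -/
def Gd (j : ℤ) (γ : Fm I) : Prop := ∀ i, ∃ v, v ∉ Sp j ∧ γ v i ≠ 0

/-- **same outside, same connections inside** -/
structure Sm (j : ℤ) (γ γ' : Fm I) : Prop where
  fam : Fam γ
  fam' : Fam γ'
  gd : Gd j γ
  out : ∀ v, v ∉ Sp j → γ v = γ' v
  pr : ∀ i, ∀ h ∈ Bd j, ∀ k ∈ Bd j, Cn (co γ i) (Sp j) h k ↔ Cn (co γ' i) (Sp j) h k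

open Classical in
/-- the weight of the strip -/
noncomputable def ws (j : ℤ) (u : ℤ → ℝ) (γ : Fm I) : ℝ :=
  γ.prod fun v f => if v ∈ Sp j then wf (wR (u v.1)) f else 1

/-- the angles after the swap -/
def sw (j : ℤ) (u : ℤ → ℝ) : ℤ → ℝ := fun i => if i = j then u (j + 1) else if i = j + 1 then u j else u i

open Classical in
/-- the partition function of the strip given the outside and the connections -/
noncomputable def Z (j : ℤ) (u : ℤ → ℝ) (γ : Fm I) : ℝ := ∑' γ' : Fm I, if Sm j γ γ' then ws j u γ' else 0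

open Classical in
/-- **the heat bath of the swap** -/
noncomputable def Kn (j : ℤ) (u : ℤ → ℝ) (γ γ' : Fm I) : ℝ := if Sm j γ γ' then ws j (sw j u) γ' / Z j u γ else 0

/-- the angles of the model -/
def An (u : ℤ → ℝ) : Prop := ∀ j, Real.pi / 8 ≤ u j ∧ u j ≤ Real.pi / 4

/-! ### without labels -/

/-- one local state at every vertex: same outside, same connections inside, no closed loop inside -/
structure Sm1 (j : ℤ) (γ δ : Cfg) : Prop where
  mt : Mt δ Set.univ
  out : ∀ v, v ∉ Sp j → γ v = δ v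
  op : ∀ h : He, h.1 ∈ Sp j → oc δ h → ∃ k ∈ Bd j, Cn δ (Sp j) h k
  pr : ∀ h ∈ Bd j, ∀ k ∈ Bd j, Cn γ (Sp j) h k ↔ Cn δ (Sp j) h k

open Classical in
/-- the weight of the strip -/
noncomputable def ws1 (j : ℤ) (u : ℤ → ℝ) (δ : Cfg) : ℝ :=
  δ.prod fun v c => if v ∈ Sp j then c.wt (wR (u v.1)) else 1

/-! ### the pass of a column with the angle `β` through the honeycomb -/

/-- the honeycomb with the angle `β` in the column `q` -/
noncomputable def hb (β : ℝ) (q : ℤ) : ℤ → ℝ := fun j => if j = q then β else Real.pi / 8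

open Classical in
/-- the swaps at the strips `Q + n - 1, …, Q`: the column `β` goes from `Q + n` to `Q` -/
noncomputable def PK (β : ℝ) (Q : ℤ) : ℕ → Fm I → Fm I → ℝ
  | 0, γ, γ' => if γ = γ' then 1 else 0
  | n + 1, γ, γ' => ∑' δ : Fm I, Kn (Q + n) (hb β (Q + n + 1)) γ δ * PK β Q n δ γ'

end Pool.Agent.ROT.E
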