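import Pool.Agent.ROT.EDefs

/-!
# ROT, exact side: the derivative of the Yang-Baxter weights at the honeycomb, and at the trivial crossing
-/

set_option autoImplicit false

open Filter Topology

namespace Pool.Agent.ROT.E

open Pool.Agent.EXL
open Pool.Agent.UNI (wR wR_nn DR DR_pos wR_v_pos wR_hex)

/-! ### the derivative of the weights -/

/-- the weights of the honeycomb -/
noncomputable def W0 : Wt ℝ := wR (Real.pi / 8)

/-- their derivative in the angle -/
noncomputable def W1 : Wt ℝ where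
  v := W0.v
  u1 := -√2 * W0.u1
  u2 := 2 * W0.u2
  w1 := -(1 + 2 * √2) * W0.w1
  w2 := Real.tan (Real.pi / 8)

private theorem sin8 : 0 < Real.sin (Real.pi / 8) :=
  Real.sin_pos_of_pos_of_lt_pi (by positivity) (by linarith [Real.pi_pos])

private theorem cos8 : 0 < Real.cos (Real.pi / 8) :=
  Real.cos_pos_of_mem_Ioo ⟨by linarith [Real.pi_pos], by linarith [Real.pi_pos]⟩

/-- `cos = (1 + √2) sin` at `π / 8` -/
private theorem cs8 : Real.cos (Real.pi / 8) = (1 + √2) * Real.sin (Real.pi / 8) := by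
  have h1 : Real.cos (Real.pi / 4) = 2 * Real.cos (Real.pi / 8) ^ 2 - 1 := by
    rw [show Real.pi / 4 = 2 * (Real.pi / 8) by ring, Real.cos_two_mul]
  have h2 : Real.sin (Real.pi / 4) = 2 * Real.sin (Real.pi / 8) * Real.cos (Real.pi / 8) := by
    rw [show Real.pi / 4 = 2 * (Real.pi / 8) by ring, Real.sin_two_mul]
  rw [Real.cos_pi_div_four] at h1
  rw [Real.sin_pi_div_four] at h2
  have hs := sin8
  have hc := cos8
  have h3 : √2 ^ 2 = 2 := Real.sq_sqrt (by norm_num)
  have h4 := Real.sin_sq_add_cos_sq (Real.pi / 8)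
  have h5 : (0 : ℝ) < √2 := by positivity
  -- multiply by 2 cos
  have key : (Real.cos (Real.pi / 8) - (1 + √2) * Real.sin (Real.pi / 8)) * (2 * Real.cos (Real.pi / 8)) = 0 := by
    nlinarith
  rcases mul_eq_zero.1 key with h | h
  · linarith
  · linarith

private theorem trig3 : Real.sin (3 * Real.pi / 8) = Real.cos (Real.pi / 8) ∧ Real.cos (3 * Real.pi / 8) = Real.sin (Real.pi / 8) := by
  constructor
  · rw [← Real.cos_pi_div_two_sub]
    congr 1
    ring
  · rw [← Real.sin_pi_div_two_sub]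
    congr 1
    ring

private theorem hasDeriv_DR : HasDerivAt (fun u => Real.sin (u + Real.pi / 4) * Real.sin (u + 3 * Real.pi / 8))
    (Real.cos (3 * Real.pi / 8)) (Real.pi / 8) := by
  have h1 : HasDerivAt (fun u : ℝ => Real.sin (u + Real.pi / 4)) (Real.cos (Real.pi / 8 + Real.pi / 4) * 1) (Real.pi / 8) :=
    (Real.hasDerivAt_sin _).comp (Real.pi / 8) ((hasDerivAt_id _).add_const _)
  have h2 : HasDerivAt (fun u : ℝ => Real.sin (u + 3 * Real.pi / 8)) (Real.cos (Real.pi / 8 + 3 * Real.pi / 8) * 1) (Real.pi / 8) :=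
    (Real.hasDerivAt_sin _).comp (Real.pi / 8) ((hasDerivAt_id _).add_const _)
  refine (h1.mul h2).congr_deriv ?_
  have e1 : Real.pi / 8 + Real.pi / 4 = 3 * Real.pi / 8 := by ring
  have e2 : Real.pi / 8 + 3 * Real.pi / 8 = Real.pi / 2 := by ring
  rw [e1, e2, Real.cos_pi_div_two, Real.sin_pi_div_two]
  ring

private theorem DR8 : DR (Real.pi / 8) = Real.cos (Real.pi / 8) := by
  unfold DR
  have e1 : Real.pi / 8 + Real.pi / 4 = 3 * Real.pi / 8 := by ring
  have e2 : Real.pi / 8 + 3 * Real.pi / 8 = Real.pi / 2 := by ring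
  rw [e1, e2, Real.sin_pi_div_two, mul_one, trig3.1]

private theorem hasDeriv_quot {f : ℝ → ℝ} {f' : ℝ} (hf : HasDerivAt f f' (Real.pi / 8)) :
    HasDerivAt (fun u => f u / DR u) ((f' * Real.cos (Real.pi / 8) - f (Real.pi / 8) * Real.sin (Real.pi / 8)) /
      Real.cos (Real.pi / 8) ^ 2) (Real.pi / 8) := by
  have h := hf.div hasDeriv_DR (by
    have := DR8
    unfold DR at this
    rw [this]
    exact cos8.ne')
  have e := DR8
  unfold DR at e
  rw [e, trig3.2] at h
  exact h

private theorem sin_c (c : ℝ) : HasDerivAt (fun u : ℝ => Real.sin (c - u)) (-Real.cos (c - Real.pi / 8)) (Real.pi / 8) := by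
  have h : HasDerivAt (fun u : ℝ => Real.sin (c - u)) (Real.cos (c - Real.pi / 8) * (-1)) (Real.pi / 8) :=
    (Real.hasDerivAt_sin _).comp (Real.pi / 8) ((hasDerivAt_id _).const_sub _)
  exact h.congr_deriv (by ring)

private theorem sin_s (c : ℝ) : HasDerivAt (fun u : ℝ => Real.sin (u - c)) (Real.cos (Real.pi / 8 - c)) (Real.pi / 8) := by
  have h : HasDerivAt (fun u : ℝ => Real.sin (u - c)) (Real.cos (Real.pi / 8 - c) * 1) (Real.pi / 8) :=
    (Real.hasDerivAt_sin _).comp (Real.pi / 8) ((hasDerivAt_id _).sub_const _)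
  exact h.congr_deriv (by ring)

private theorem s2 : √2 ^ 2 = 2 := Real.sq_sqrt (by norm_num)

private theorem r1 : 3 * Real.pi / 8 - Real.pi / 8 = Real.pi / 4 := by ring

theorem hasDeriv_v : HasDerivAt (fun u => (wR u).v) W1.v (Real.pi / 8) := by
  have h := hasDeriv_quot ((Real.hasDerivAt_sin (Real.pi / 8)).mul (sin_c (3 * Real.pi / 8)))
  refine h.congr_deriv ?_
  have hc := cos8
  show _ = Real.sin (Real.pi / 8) * Real.sin (3 * Real.pi / 8 - Real.pi / 8) / DR (Real.pi / 8)
  rw [DR8, r1]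
  simp only [Pi.mul_apply, r1]
  rw [Real.sin_pi_div_four, Real.cos_pi_div_four, cs8]
  have hs := sin8
  have h2 := s2
  have h3 : (0 : ℝ) < 1 + √2 := by positivity
  field_simp
  nlinarith

theorem hasDeriv_u1 : HasDerivAt (fun u => (wR u).u1) W1.u1 (Real.pi / 8) := by
  have h := hasDeriv_quot ((sin_c (3 * Real.pi / 8)).const_mul (Real.sin (Real.pi / 4)))
  refine h.congr_deriv ?_
  show _ = -√2 * (Real.sin (Real.pi / 4) * Real.sin (3 * Real.pi / 8 - Real.pi / 8) / DR (Real.pi / 8))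
  rw [DR8, r1]
  rw [Real.sin_pi_div_four, Real.cos_pi_div_four, cs8]
  have hs := sin8
  have h2 := s2
  have h3 : (0 : ℝ) < 1 + √2 := by positivity
  field_simp
  nlinarith

theorem hasDeriv_u2 : HasDerivAt (fun u => (wR u).u2) W1.u2 (Real.pi / 8) := by
  have h := hasDeriv_quot ((Real.hasDerivAt_sin (Real.pi / 8)).const_mul (Real.sin (Real.pi / 4)))
  refine h.congr_deriv ?_
  show _ = 2 * (Real.sin (Real.pi / 4) * Real.sin (Real.pi / 8) / DR (Real.pi / 8))
  rw [DR8, Real.sin_pi_div_four, cs8]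
  have hs := sin8
  have h2 := s2
  have h3 : (0 : ℝ) < 1 + √2 := by positivity
  field_simp
  nlinarith

private theorem r2 : Real.pi / 4 - Real.pi / 8 = Real.pi / 8 := by ring

theorem hasDeriv_w1 : HasDerivAt (fun u => (wR u).w1) W1.w1 (Real.pi / 8) := by
  have h := hasDeriv_quot ((sin_c (Real.pi / 4)).mul (sin_c (3 * Real.pi / 8)))
  refine h.congr_deriv ?_
  show _ = -(1 + 2 * √2) * (Real.sin (Real.pi / 4 - Real.pi / 8) * Real.sin (3 * Real.pi / 8 - Real.pi / 8) / DR (Real.pi / 8))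
  simp only [Pi.mul_apply]
  rw [DR8, r1, r2, Real.sin_pi_div_four, Real.cos_pi_div_four, cs8]
  have hs := sin8
  have h2 := s2
  have h3 : (0 : ℝ) < 1 + √2 := by positivity
  field_simp
  nlinarith

theorem hasDeriv_w2 : HasDerivAt (fun u => (wR u).w2) W1.w2 (Real.pi / 8) := by
  have h := hasDeriv_quot ((Real.hasDerivAt_sin (Real.pi / 8)).mul (sin_s (Real.pi / 8)))
  refine h.congr_deriv ?_
  show _ = Real.tan (Real.pi / 8)
  simp only [Pi.mul_apply]
  rw [sub_self, Real.sin_zero, Real.cos_zero, Real.tan_eq_sin_div_cos]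
  have hc := cos8
  field_simp
  ring

/-- the derivative of the weight of a cell -/
theorem hasDeriv_wt {c : Cell} (hc : c ≠ .o) : HasDerivAt (fun u => c.wt (wR u)) (c.wt W1) (Real.pi / 8) := by
  cases c
  · exact absurd rfl hc
  · exact hasDeriv_v
  · exact hasDeriv_v
  · exact hasDeriv_u1
  · exact hasDeriv_u1
  · exact hasDeriv_u2
  · exact hasDeriv_u2
  · exact hasDeriv_w1
  · exact hasDeriv_w2


/-! ### the trivial crossing -/

/-- the derivative of the weights at the angle `0` -/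
noncomputable def J1 : Wt ℝ where
  v := √2
  u1 := 1 - 2 * √2
  u2 := 1 / Real.cos (Real.pi / 8)
  w1 := -(2 * √2)
  w2 := √2 - 2

private theorem DR0 : DR 0 = √2 / 2 * Real.cos (Real.pi / 8) := by
  unfold DR
  rw [zero_add, zero_add, trig3.1, Real.sin_pi_div_four]

theorem wR_zero : wR 0 = ⟨0, 1, 0, 1, 0⟩ := by
  have hc := cos8
  have h2 : (0 : ℝ) < √2 := by positivity
  unfold wR
  simp only [Wt.mk.injEq]
  rw [DR0, sub_zero, sub_zero, zero_sub, Real.sin_zero, trig3.1, Real.sin_pi_div_four]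
  refine ⟨by simp, ?_, by simp, ?_, by simp⟩
  · field_simp
  · field_simp

private theorem hasDeriv_DR0 : HasDerivAt (fun u => Real.sin (u + Real.pi / 4) * Real.sin (u + 3 * Real.pi / 8))
    (Real.cos (Real.pi / 8)) 0 := by
  have h1 : HasDerivAt (fun u : ℝ => Real.sin (u + Real.pi / 4)) (Real.cos (0 + Real.pi / 4) * 1) 0 :=
    (Real.hasDerivAt_sin _).comp 0 ((hasDerivAt_id _).add_const _)
  have h2 : HasDerivAt (fun u : ℝ => Real.sin (u + 3 * Real.pi / 8)) (Real.cos (0 + 3 * Real.pi / 8) * 1) 0 :=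
    (Real.hasDerivAt_sin _).comp 0 ((hasDerivAt_id _).add_const _)
  refine (h1.mul h2).congr_deriv ?_
  rw [zero_add, zero_add, mul_one, mul_one, trig3.1, trig3.2, Real.sin_pi_div_four, Real.cos_pi_div_four, cs8]
  have h2 := s2
  nlinarith [sin8]

private theorem hasDeriv_quot0 {f : ℝ → ℝ} {f' : ℝ} (hf : HasDerivAt f f' 0) :
    HasDerivAt (fun u => f u / DR u) ((f' * (√2 / 2 * Real.cos (Real.pi / 8)) - f 0 * Real.cos (Real.pi / 8)) /
      (√2 / 2 * Real.cos (Real.pi / 8)) ^ 2) 0 := by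
  have e := DR0
  unfold DR at e
  have h := hf.div hasDeriv_DR0 (by
    rw [e]
    have := cos8
    positivity)
  rw [e] at h
  exact h

private theorem sin_c0 (c : ℝ) : HasDerivAt (fun u : ℝ => Real.sin (c - u)) (-Real.cos c) 0 := by
  have h : HasDerivAt (fun u : ℝ => Real.sin (c - u)) (Real.cos (c - 0) * (-1)) 0 :=
    (Real.hasDerivAt_sin _).comp 0 ((hasDerivAt_id _).const_sub _)
  exact h.congr_deriv (by rw [sub_zero]; ring)

private theorem sin_s0 (c : ℝ) : HasDerivAt (fun u : ℝ => Real.sin (u - c)) (Real.cos c) 0 := by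
  have h : HasDerivAt (fun u : ℝ => Real.sin (u - c)) (Real.cos (0 - c) * 1) 0 :=
    (Real.hasDerivAt_sin _).comp 0 ((hasDerivAt_id _).sub_const _)
  exact h.congr_deriv (by rw [zero_sub, Real.cos_neg]; ring)

theorem hasDeriv_v0 : HasDerivAt (fun u => (wR u).v) J1.v 0 := by
  have h := hasDeriv_quot0 ((Real.hasDerivAt_sin 0).mul (sin_c0 (3 * Real.pi / 8)))
  refine h.congr_deriv ?_
  have hc := cos8
  show _ = √2
  simp only [Pi.mul_apply]
  rw [sub_zero, Real.sin_zero, Real.cos_zero, trig3.1]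
  have h2 := s2
  have h3 : (0 : ℝ) < √2 := by positivity
  have h4 : √2 ^ 3 = 2 * √2 := by rw [pow_succ, h2]
  field_simp
  linear_combination (-Real.cos (Real.pi / 8)) * h4

theorem hasDeriv_u10 : HasDerivAt (fun u => (wR u).u1) J1.u1 0 := by
  have h := hasDeriv_quot0 ((sin_c0 (3 * Real.pi / 8)).const_mul (Real.sin (Real.pi / 4)))
  refine h.congr_deriv ?_
  show _ = 1 - 2 * √2
  rw [sub_zero, trig3.1, trig3.2, Real.sin_pi_div_four, cs8]
  have hs := sin8
  have h2 := s2
  have h3 : (0 : ℝ) < √2 := by positivity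
  have h4 : (0 : ℝ) < 1 + √2 := by positivity
  field_simp
  nlinarith

theorem hasDeriv_u20 : HasDerivAt (fun u => (wR u).u2) J1.u2 0 := by
  have h := hasDeriv_quot0 ((Real.hasDerivAt_sin 0).const_mul (Real.sin (Real.pi / 4)))
  refine h.congr_deriv ?_
  show _ = 1 / Real.cos (Real.pi / 8)
  rw [Real.sin_zero, Real.cos_zero, Real.sin_pi_div_four]
  have hc := cos8
  have h3 : (0 : ℝ) < √2 := by positivity
  field_simp
  ring

theorem hasDeriv_w10 : HasDerivAt (fun u => (wR u).w1) J1.w1 0 := by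
  have h := hasDeriv_quot0 ((sin_c0 (Real.pi / 4)).mul (sin_c0 (3 * Real.pi / 8)))
  refine h.congr_deriv ?_
  show _ = -(2 * √2)
  simp only [Pi.mul_apply]
  rw [sub_zero, sub_zero, trig3.1, trig3.2, Real.sin_pi_div_four, Real.cos_pi_div_four, cs8]
  have hs := sin8
  have h2 := s2
  have h3 : (0 : ℝ) < √2 := by positivity
  have h4 : (0 : ℝ) < 1 + √2 := by positivity
  field_simp
  nlinarith

theorem hasDeriv_w20 : HasDerivAt (fun u => (wR u).w2) J1.w2 0 := by
  have h := hasDeriv_quot0 ((Real.hasDerivAt_sin 0).mul (sin_s0 (Real.pi / 8)))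
  refine h.congr_deriv ?_
  show _ = √2 - 2
  simp only [Pi.mul_apply]
  rw [zero_sub, Real.sin_neg, Real.sin_zero, Real.cos_zero, cs8]
  have hs := sin8
  have h2 := s2
  have h3 : (0 : ℝ) < √2 := by positivity
  have h4 : (0 : ℝ) < 1 + √2 := by positivity
  field_simp
  nlinarith

/-- the derivative of the weight of a cell at the trivial crossing -/
theorem hasDeriv_wt0 {c : Cell} (hc : c ≠ .o) : HasDerivAt (fun u => c.wt (wR u)) (c.wt J1) 0 := by
  cases c
  · exact absurd rfl hc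
  · exact hasDeriv_v0
  · exact hasDeriv_v0
  · exact hasDeriv_u10
  · exact hasDeriv_u10
  · exact hasDeriv_u20
  · exact hasDeriv_u20
  · exact hasDeriv_w10
  · exact hasDeriv_w20

end Pool.Agent.ROT.E
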