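import Pool.Agent.ROT.EDefs

/-!
# ROT, block E: labels

The sum over the families with the same outside and the same connections inside a strip is the sum over the
configurations without labels: the labels of the arcs inside are the labels of their ends.
-/

set_option autoImplicit false

namespace Pool.Agent.ROT.E

open Pool.Agent.EXL (Wt)
open Pool.Agent.YBC (Dir)
open Pool.Agent.UNI (wR)

namespace Lab

/-! ### cells -/

theorem p_p (c : Cell) (d : Dir) : c.p (c.p d) = d := by cases c <;> cases d <;> rfl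

theorem ext_p {c c' : Cell} (h : ∀ d, c.p d = c'.p d) : c = c' := by
  revert c c'; decide

theorem oc_p (c : Cell) (d : Dir) : c.oc (c.p d) ↔ c.oc d := by
  simp only [Cell.oc, p_p, ne_eq, eq_comm]

theorem not_oc_o (d : Dir) : ¬Cell.oc .o d := fun h => h rfl

theorem eq_o {c : Cell} : c = .o ↔ ∀ d, ¬c.oc d := by
  constructor
  · rintro rfl d; exact not_oc_o d
  · intro h
    refine ext_p fun d => ?_
    have h1 := h d
    simp only [Cell.oc, ne_eq, not_not] at h1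
    rw [h1]; cases d <;> rfl

theorem ex_oc {c : Cell} (h : c ≠ .o) : ∃ d, c.oc d := by
  by_contra h1
  exact h (eq_o.2 fun d hd => h1 ⟨d, hd⟩)

open Classical in
/-- the part of the local state with the sides `S` -/
noncomputable def sub (S : Dir → Prop) : Cell → Cell
  | .o => .o
  | .h => if S .E then .h else .o
  | .v => if S .N then .v else .o
  | .sw => if S .S then .sw else .o
  | .ne => if S .N then .ne else .o
  | .se => if S .S then .se else .o
  | .nw => if S .N then .nw else .o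
  | .x => if S .S then (if S .N then .x else .sw) else (if S .N then .ne else .o)
  | .y => if S .S then (if S .N then .y else .se) else (if S .N then .nw else .o)

open Classical in
theorem sub_p {S : Dir → Prop} {c : Cell} (h : ∀ d, S d → S (c.p d)) (d : Dir) :
    (sub S c).p d = if S d then c.p d else d := by
  have h1 : ∀ d, S (c.p d) ↔ S d := fun d => ⟨fun hd => by simpa only [p_p] using h _ hd, h d⟩
  have hE := h1 .E
  have hN := h1 .N
  have hW := h1 .W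
  have hS := h1 .S
  cases c <;> cases d <;> simp only [Cell.p, sub] at * <;> split_ifs <;> simp_all

theorem sub_oc {S : Dir → Prop} {c : Cell} (h : ∀ d, S d → S (c.p d)) (d : Dir) :
    (sub S c).oc d ↔ S d ∧ c.oc d := by
  classical
  rw [Cell.oc, sub_p h]
  split_ifs with hd
  · simp only [Cell.oc, hd, true_and]
  · simp only [ne_eq, not_true_eq_false, hd, false_and]

/-! ### unions -/

variable {I : Type}

theorem un_unique {f : I → Cell} {c c' : Cell} (h : IsUn f c) (h' : IsUn f c') : c = c' := by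
  refine ext_p fun d => ?_
  by_cases hd : ∃ i, (f i).oc d
  · obtain ⟨i, hi⟩ := hd
    rw [h.1 i d hi, h'.1 i d hi]
  · have h1 : ¬c.oc d := fun h2 => hd (h.2.2 d h2)
    have h2 : ¬c'.oc d := fun h2 => hd (h'.2.2 d h2)
    simp only [Cell.oc, ne_eq, not_not] at h1 h2
    rw [h1, h2]

theorem un_oc {f : I → Cell} {c : Cell} (h : IsUn f c) (d : Dir) : c.oc d ↔ ∃ i, (f i).oc d := by
  refine ⟨h.2.2 d, ?_⟩
  rintro ⟨i, hi⟩
  rw [Cell.oc, h.1 i d hi]
  exact hi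

theorem un_zero : IsUn (fun _ : I => Cell.o) .o :=
  ⟨fun _ _ h => (h rfl).elim, fun _ _ _ h => (h rfl).elim, fun _ h => (h rfl).elim⟩

theorem un_o {f : I → Cell} {c : Cell} (h : IsUn f c) : c = .o ↔ ∀ i, f i = .o := by
  constructor
  · rintro rfl i
    rw [eq_o]
    intro d hd
    exact not_oc_o d ((un_oc h d).2 ⟨i, hd⟩)
  · intro h1
    rw [eq_o]
    intro d hd
    obtain ⟨i, hi⟩ := h.2.2 d hd
    rw [h1 i] at hi
    exact hi rfl

open Classical in
theorem wf_un {w : Wt ℝ} {f : I → Cell} {c : Cell} (h : IsUn f c) : wf w f = c.wt w := by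
  rw [wf, Finset.sum_eq_single c]
  · rw [if_pos h]
  · intro b _ hb
    rw [if_neg fun h' => hb (un_unique h' h)]
  · intro h1; exact (h1 (Finset.mem_univ _)).elim

/-! ### configurations -/

variable {γ γ' : Fm I} {δ : Cfg} {A : Set Pt} {j : ℤ}

theorem co_apply (γ : Fm I) (i : I) (v : Pt) : co γ i v = γ v i := rfl

/-- `δ` is the union of the family -/
def Un (γ : Fm I) (δ : Cfg) : Prop := ∀ v, IsUn (γ v) (δ v)

theorem ex_un (h : ∀ v, ∃ c, IsUn (γ v) c) : ∃ δ : Cfg, Un γ δ := by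
  classical
  choose c hc using h
  refine ⟨Finsupp.onFinset γ.support c fun v hv => ?_, fun v => ?_⟩
  · rw [Finsupp.mem_support_iff]
    intro h0
    apply hv
    refine (un_o (hc v)).2 fun i => ?_
    rw [h0]; rfl
  · exact hc v

theorem un_cfg_unique {δ δ' : Cfg} (h : Un γ δ) (h' : Un γ δ') : δ = δ' :=
  Finsupp.ext fun v => un_unique (h v) (h' v)

theorem Un.oc (h : Un γ δ) (k : He) : oc δ k ↔ ∃ i, oc (co γ i) k := un_oc (h k.1) k.2

theorem Un.oc' (h : Un γ δ) {k : He} {i : I} (hi : E.oc (co γ i) k) : E.oc δ k := (h.oc k).2 ⟨i, hi⟩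

theorem Un.vp (h : Un γ δ) {k : He} {i : I} (hi : E.oc (co γ i) k) : vp δ k = vp (co γ i) k := by
  simp only [E.vp]
  rw [(h k.1).1 i k.2 hi]; rfl

theorem Un.inj (h : Un γ δ) {k : He} {i i' : I} (hi : E.oc (co γ i) k) (hi' : E.oc (co γ i') k) :
    i = i' := (h k.1).2.1 i i' k.2 hi hi'

theorem vp_vp (δ : Cfg) (k : He) : vp δ (vp δ k) = k := by
  simp only [E.vp, p_p, Prod.mk.eta]

theorem oc_vp (δ : Cfg) (k : He) : E.oc δ (vp δ k) ↔ E.oc δ k := oc_p _ _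

theorem rv_rv (k : He) : rv (rv k) = k := by
  obtain ⟨⟨a, b⟩, d⟩ := k
  cases d <;> simp [rv, nx, Dir.op]


/-! ### connections -/

theorem lk_symm {B : Set Pt} (mt : Mt δ B) {h k : He} (l : Lk δ B h k) : Lk δ B k h := by
  obtain ⟨h1, h2, rfl | ⟨rfl, h3⟩⟩ := l
  · exact ⟨(oc_vp δ h).2 h1, h2, Or.inl (vp_vp δ h).symm⟩
  · refine ⟨(mt h h2 h3).1 h1, h3, Or.inr ⟨(rv_rv h).symm, ?_⟩⟩
    rw [rv_rv]; exact h2

theorem mt_mono {B : Set Pt} (mt : Mt δ Set.univ) : Mt δ B := fun h _ _ => mt h trivial trivial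

theorem cn_iff {B : Set Pt} {P : He → Prop} (hP : ∀ h k, Lk δ B h k → (P h ↔ P k)) {h k : He}
    (c : Cn δ B h k) : P h ↔ P k := by
  induction c with
  | rel x y h => exact hP _ _ h
  | refl x => exact Iff.rfl
  | symm x y _ ih => exact ih.symm
  | trans x y z _ _ ih1 ih2 => exact ih1.trans ih2

theorem cn_of {B : Set Pt} (mt : Mt δ B) {P : He → Prop} (hP : ∀ h k, P h → Lk δ B h k → P k) {h k : He}
    (c : Cn δ B h k) : P h → P k :=
  (cn_iff (fun _ _ l => ⟨fun h1 => hP _ _ h1 l, fun h1 => hP _ _ h1 (lk_symm mt l)⟩) c).1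

theorem cn_oc {B : Set Pt} (mt : Mt δ B) {h k : He} (c : Cn δ B h k) :
    h = k ∨ ((oc δ h ∧ h.1 ∈ B) ∧ (oc δ k ∧ k.1 ∈ B)) := by
  induction c with
  | rel x y h => exact Or.inr ⟨⟨h.1, h.2.1⟩, ⟨(lk_symm mt h).1, (lk_symm mt h).2.1⟩⟩
  | refl x => exact Or.inl rfl
  | symm x y _ ih =>
    rcases ih with h1 | h1
    · exact Or.inl h1.symm
    · exact Or.inr ⟨h1.2, h1.1⟩
  | trans x y z _ _ ih1 ih2 =>
    rcases ih1 with rfl | h1
    · exact ih2
    · rcases ih2 with rfl | h2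
      · exact Or.inr h1
      · exact Or.inr ⟨h1.1, h2.2⟩

theorem cn_refl {B : Set Pt} (h : He) : Cn δ B h h := Relation.EqvGen.refl _

theorem cn_symm {B : Set Pt} {h k : He} (c : Cn δ B h k) : Cn δ B k h := Relation.EqvGen.symm _ _ c

theorem cn_trans {B : Set Pt} {h k l : He} (c : Cn δ B h k) (c' : Cn δ B k l) : Cn δ B h l :=
  Relation.EqvGen.trans _ _ _ c c'

theorem cn_vp {B : Set Pt} {h : He} (h1 : oc δ h) (h2 : h.1 ∈ B) : Cn δ B h (vp δ h) :=
  Relation.EqvGen.rel _ _ ⟨h1, h2, Or.inl rfl⟩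

theorem cn_rv {B : Set Pt} {h : He} (h1 : oc δ h) (h2 : h.1 ∈ B) (h3 : (rv h).1 ∈ B) : Cn δ B h (rv h) :=
  Relation.EqvGen.rel _ _ ⟨h1, h2, Or.inr ⟨rfl, h3⟩⟩

theorem cn_mono' {δ' : Cfg} {B B' : Set Pt} (H : ∀ a b, Lk δ B a b → Lk δ' B' a b) {h k : He}
    (c : Cn δ B h k) : Cn δ' B' h k := by
  induction c with
  | rel x y h => exact Relation.EqvGen.rel _ _ (H _ _ h)
  | refl x => exact cn_refl _
  | symm x y _ ih => exact cn_symm ih
  | trans x y z _ _ ih1 ih2 => exact cn_trans ih1 ih2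

theorem cn_mono {B B' : Set Pt} (hB : B ⊆ B') {h k : He} (c : Cn δ B h k) : Cn δ B' h k :=
  cn_mono' (fun _ _ l => ⟨l.1, hB l.2.1, l.2.2.imp_right fun h => ⟨h.1, hB h.2⟩⟩) c

/-- a connection of a member is one of the union -/
theorem cn_un (u : Un γ δ) {i : I} {h k : He} (c : Cn (co γ i) A h k) : Cn δ A h k := by
  refine cn_mono' (fun a b l => ⟨u.oc' l.1, l.2.1, ?_⟩) c
  rw [u.vp l.1]
  exact l.2.2

/-- a connection of the union is one of a member -/
theorem un_cn (u : Un γ δ) (mt : ∀ i, Mt (co γ i) A) {h k : He} (c : Cn δ A h k) :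
    h = k ∨ ∃ i, oc (co γ i) h ∧ oc (co γ i) k ∧ Cn (co γ i) A h k := by
  induction c with
  | rel x y h =>
    right
    obtain ⟨h1, h2, h3⟩ := h
    obtain ⟨i, hi⟩ := (u.oc x).1 h1
    have l : Lk (co γ i) A x y := ⟨hi, h2, by rw [u.vp hi] at h3; exact h3⟩
    exact ⟨i, hi, (lk_symm (mt i) l).1, Relation.EqvGen.rel _ _ l⟩
  | refl x => exact Or.inl rfl
  | symm x y _ ih =>
    rcases ih with h1 | ⟨i, h1, h2, h3⟩
    · exact Or.inl h1.symm
    · exact Or.inr ⟨i, h2, h1, cn_symm h3⟩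
  | trans x y z _ _ ih1 ih2 =>
    rcases ih1 with rfl | ⟨i, h1, h2, h3⟩
    · exact ih2
    · rcases ih2 with rfl | ⟨i', h1', h2', h3'⟩
      · exact Or.inr ⟨i, h1, h2, h3⟩
      · obtain rfl := u.inj h2 h1'
        exact Or.inr ⟨i, h1, h2', cn_trans h3 h3'⟩

/-- the same with the member known -/
theorem un_cn' (u : Un γ δ) (mt : ∀ i, Mt (co γ i) A) {h k : He} (c : Cn δ A h k) {i : I}
    (hi : oc (co γ i) h) : oc (co γ i) k ∧ Cn (co γ i) A h k := by
  rcases un_cn u mt c with rfl | ⟨i', h1, h2, h3⟩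
  · exact ⟨hi, cn_refl _⟩
  · obtain rfl := u.inj hi h1
    exact ⟨h2, h3⟩

/-- a used half edge of a loop which leaves the strip is connected inside to the boundary -/
theorem esc (l : Lp δ) (lv : ∃ v, v ∉ Sp j ∧ δ v ≠ 0) {h : He} (h1 : h.1 ∈ Sp j) (ho : oc δ h) :
    ∃ b ∈ Bd j, Cn δ (Sp j) h b := by
  by_contra hno
  obtain ⟨v, hv, hv0⟩ := lv
  obtain ⟨d, hd⟩ := ex_oc hv0
  have hP := cn_of l.mt (P := fun k => k.1 ∈ Sp j ∧ oc δ k ∧ Cn δ (Sp j) h k) ?_ (l.cn h (v, d) ho hd)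
    ⟨h1, ho, cn_refl _⟩
  · exact hv hP.1
  · rintro a b ⟨ha1, ha2, ha3⟩ ⟨-, -, rfl | ⟨rfl, -⟩⟩
    · exact ⟨ha1, (oc_vp δ a).2 ha2, cn_trans ha3 (cn_vp ha2 ha1)⟩
    · by_cases hb : (rv a).1 ∈ Sp j
      · exact ⟨hb, (l.mt a trivial trivial).1 ha2, cn_trans ha3 (cn_rv ha2 ha1 hb)⟩
      · exact (hno ⟨a, ⟨ha1, hb⟩, ha3⟩).elim

/-- an occupied boundary half edge: its other half is outside -/
theorem bd_oc {δ δ' : Cfg} (mt : Mt δ Set.univ) (mt' : Mt δ' Set.univ) (out : ∀ v, v ∉ Sp j → δ v = δ' v)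
    {b : He} (hb : b ∈ Bd j) : oc δ b ↔ oc δ' b := by
  rw [mt b trivial trivial, mt' b trivial trivial]
  simp only [oc]
  rw [out _ hb.2]

/-! ### from families to configurations -/

theorem Fam.mt_un (f : ∀ i, Mt (co γ i) Set.univ) (u : Un γ δ) : Mt δ Set.univ := by
  intro h _ _
  rw [u.oc, u.oc]
  exact exists_congr fun i => f i h trivial trivial

theorem un_out {γ γ' : Fm I} {Γ δ : Cfg} (u : Un γ Γ) (u' : Un γ' δ) {v : Pt} (h : γ v = γ' v) :
    Γ v = δ v := un_unique (h ▸ u v) (u' v)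

theorem un_pr {γ γ' : Fm I} {Γ δ : Cfg} (u : Un γ Γ) (u' : Un γ' δ) (mt : ∀ i, Mt (co γ i) (Sp j))
    (pr : ∀ i, ∀ h ∈ Bd j, ∀ k ∈ Bd j, Cn (co γ i) (Sp j) h k → Cn (co γ' i) (Sp j) h k) :
    ∀ h ∈ Bd j, ∀ k ∈ Bd j, Cn Γ (Sp j) h k → Cn δ (Sp j) h k := by
  intro h hh k hk c
  rcases un_cn u mt c with rfl | ⟨i, -, -, h3⟩
  · exact cn_refl _
  · exact cn_un u' (pr i h hh k hk h3)

theorem co_pr {γ γ' : Fm I} {Γ δ : Cfg} (u : Un γ Γ) (u' : Un γ' δ) (mt : ∀ i, Mt (co γ i) (Sp j))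
    (mt' : ∀ i, Mt (co γ' i) (Sp j)) (ob : ∀ i, ∀ h ∈ Bd j, (oc (co γ i) h ↔ oc (co γ' i) h))
    (pr : ∀ h ∈ Bd j, ∀ k ∈ Bd j, Cn Γ (Sp j) h k → Cn δ (Sp j) h k) :
    ∀ i, ∀ h ∈ Bd j, ∀ k ∈ Bd j, Cn (co γ i) (Sp j) h k → Cn (co γ' i) (Sp j) h k := by
  intro i h hh k hk c
  rcases cn_oc (mt i) c with rfl | ⟨⟨h1, -⟩, -⟩
  · exact cn_refl _
  · exact (un_cn' u' mt' (pr h hh k hk (cn_un u c)) ((ob i h hh).1 h1)).2

theorem Sm.gd' {γ γ' : Fm I} (s : Sm j γ γ') : Gd j γ' := by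
  intro i
  obtain ⟨v, h1, h2⟩ := s.gd i
  exact ⟨v, h1, by rw [← s.out v h1]; exact h2⟩

theorem un_op (f : Fam γ) (g : Gd j γ) (u : Un γ δ) (h : He) (h1 : h.1 ∈ Sp j) (ho : oc δ h) :
    ∃ k ∈ Bd j, Cn δ (Sp j) h k := by
  obtain ⟨i, hi⟩ := (u.oc h).1 ho
  obtain ⟨b, hb, c⟩ := esc (f.lp i) (g i) h1 hi
  exact ⟨b, hb, cn_un u c⟩

theorem sm1_of {γ γ' : Fm I} {Γ δ : Cfg} (s : Sm j γ γ') (u : Un γ Γ) (u' : Un γ' δ) : Sm1 j Γ δ where
  mt := Fam.mt_un (fun i => (s.fam'.lp i).mt) u'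
  out v hv := un_out u u' (s.out v hv)
  op := un_op s.fam' (Sm.gd' s) u'
  pr h hh k hk :=
    ⟨un_pr u u' (fun i => mt_mono (s.fam.lp i).mt) (fun i h hh k hk => (s.pr i h hh k hk).1) h hh k hk,
      un_pr u' u (fun i => mt_mono (s.fam'.lp i).mt) (fun i h hh k hk => (s.pr i h hh k hk).2) h hh k hk⟩

/-! ### colouring -/

/-- the half edges which get the label `i` -/
def col (j : ℤ) (γ : Fm I) (δ : Cfg) (i : I) (h : He) : Prop :=
  oc δ h ∧ ((h.1 ∉ Sp j ∧ oc (co γ i) h) ∨ (h.1 ∈ Sp j ∧ ∃ b ∈ Bd j, oc (co γ i) b ∧ Cn δ (Sp j) h b))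

/-- the coloured configuration -/
noncomputable def cl (j : ℤ) (γ : Fm I) (δ : Cfg) : Fm I :=
  Finsupp.onFinset δ.support (fun v i => sub (fun d => col j γ δ i (v, d)) (δ v)) fun v hv => by
    rw [Finsupp.mem_support_iff]
    intro h0
    apply hv
    funext i
    rw [h0]
    rfl

theorem cl_apply (γ : Fm I) (δ : Cfg) (v : Pt) (i : I) :
    cl j γ δ v i = sub (fun d => col j γ δ i (v, d)) (δ v) := rfl

section

variable {Γ : Cfg} (f : Fam γ) (g : Gd j γ) (u : Un γ Γ) (s : Sm1 j Γ δ)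

include u s in
theorem col_vp (i : I) (v : Pt) (d : Dir) (h : col j γ δ i (v, d)) : col j γ δ i (v, (δ v).p d) := by
  have e : ((v, (δ v).p d) : He) = vp δ (v, d) := rfl
  rw [e]
  refine ⟨(oc_vp δ _).2 h.1, ?_⟩
  rcases h.2 with ⟨h1, h2⟩ | ⟨h1, b, hb, h2, h3⟩
  · left
    refine ⟨h1, ?_⟩
    have e1 : vp δ (v, d) = vp Γ (v, d) := by
      simp only [vp]
      rw [← s.out v h1]
    rw [e1, u.vp h2, oc_vp]
    exact h2
  · right
    exact ⟨h1, b, hb, h2, cn_trans (cn_symm (cn_vp h.1 h1)) h3⟩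

include u s in
theorem cl_oc (i : I) (h : He) : oc (co (cl j γ δ) i) h ↔ col j γ δ i h := by
  obtain ⟨v, d⟩ := h
  have e : oc (co (cl j γ δ) i) (v, d) ↔ col j γ δ i (v, d) ∧ (δ v).oc d :=
    sub_oc (S := fun d => col j γ δ i (v, d)) (c := δ v) (col_vp u s i v) d
  rw [e]
  exact ⟨fun h => h.1, fun h => ⟨h, h.1⟩⟩

include f u s in
theorem col_bd {i : I} {h b : He} (hh : h ∈ Bd j) (hb : b ∈ Bd j) (ho : oc (co γ i) b)
    (c : Cn δ (Sp j) h b) : oc (co γ i) h :=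
  (un_cn' u (fun i => mt_mono (f.lp i).mt) (cn_symm ((s.pr h hh b hb).2 c)) ho).1

include f u s in
theorem col_inj {i i' : I} {h : He} (h1 : col j γ δ i h) (h2 : col j γ δ i' h) : i = i' := by
  rcases h1.2 with ⟨a1, a2⟩ | ⟨a1, b, hb, a2, a3⟩
  · rcases h2.2 with ⟨b1, b2⟩ | ⟨b1, -⟩
    · exact u.inj a2 b2
    · exact (a1 b1).elim
  · rcases h2.2 with ⟨b1, b2⟩ | ⟨b1, b', hb', b2, b3⟩
    · exact (b1 a1).elim
    · exact u.inj a2 (col_bd f u s hb hb' b2 (cn_trans (cn_symm a3) b3))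

include f u s in
theorem col_ex {h : He} (ho : oc δ h) : ∃ i, col j γ δ i h := by
  by_cases h1 : h.1 ∈ Sp j
  · obtain ⟨b, hb, c⟩ := s.op h h1 ho
    have hob : oc δ b := by
      rcases cn_oc (mt_mono s.mt) c with rfl | ⟨-, h2, -⟩
      · exact ho
      · exact h2
    have hoΓ : oc Γ b := (bd_oc (Fam.mt_un (fun i => (f.lp i).mt) u) s.mt s.out hb).2 hob
    obtain ⟨i, hi⟩ := (u.oc b).1 hoΓ
    exact ⟨i, ho, Or.inr ⟨h1, b, hb, hi, c⟩⟩
  · have hoΓ : oc Γ h := by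
      simp only [oc] at ho ⊢
      rw [s.out _ h1]; exact ho
    obtain ⟨i, hi⟩ := (u.oc h).1 hoΓ
    exact ⟨i, ho, Or.inl ⟨h1, hi⟩⟩

include f u s in
/-- the coloured configuration has the union `δ` -/
theorem un_cl : Un (cl j γ δ) δ := by
  intro v
  refine ⟨fun i d h => ?_, fun i i' d h h' => ?_, fun d h => ?_⟩
  · have h1 : col j γ δ i (v, d) := (cl_oc u s i (v, d)).1 h
    rw [cl_apply, sub_p (col_vp u s i v), if_pos h1]
  · exact col_inj f u s ((cl_oc u s i (v, d)).1 h) ((cl_oc u s i' (v, d)).1 h')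
  · obtain ⟨i, hi⟩ := col_ex f u s (h := (v, d)) h
    exact ⟨i, (cl_oc u s i (v, d)).2 hi⟩

include f u s in
theorem mt_cl (i : I) : Mt (co (cl j γ δ) i) Set.univ := by
  have key : ∀ h : He, col j γ δ i h → col j γ δ i (rv h) := by
    rintro h ⟨h0, h1⟩
    have h0' : oc δ (rv h) := (s.mt h trivial trivial).1 h0
    refine ⟨h0', ?_⟩
    rcases h1 with ⟨a1, a2⟩ | ⟨a1, b, hb, a2, a3⟩
    · have a2' : oc (co γ i) (rv h) := ((f.lp i).mt h trivial trivial).1 a2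
      by_cases h2 : (rv h).1 ∈ Sp j
      · right
        refine ⟨h2, rv h, ⟨h2, ?_⟩, a2', cn_refl _⟩
        rw [rv_rv]; exact a1
      · exact Or.inl ⟨h2, a2'⟩
    · by_cases h2 : (rv h).1 ∈ Sp j
      · right
        exact ⟨h2, b, hb, a2, cn_trans (cn_symm (cn_rv h0 a1 h2)) a3⟩
      · left
        exact ⟨h2, ((f.lp i).mt h trivial trivial).1 (col_bd f u s ⟨a1, h2⟩ hb a2 a3)⟩
  intro h _ _
  rw [cl_oc u s, cl_oc u s]
  refine ⟨key h, fun h1 => ?_⟩
  have h2 := key _ h1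
  rwa [rv_rv] at h2

include u s in
theorem cl_out (v : Pt) (hv : v ∉ Sp j) : γ v = cl j γ δ v := by
  funext i
  refine ext_p fun d => ?_
  rw [cl_apply, sub_p (col_vp u s i v)]
  by_cases h : (γ v i).oc d
  · have h1 : oc (co γ i) (v, d) := h
    have h2 : col j γ δ i (v, d) := by
      refine ⟨?_, Or.inl ⟨hv, h1⟩⟩
      have h3 := u.oc' h1
      simp only [oc] at h3 ⊢
      rw [← s.out v hv]; exact h3
    rw [if_pos h2, ← s.out v hv]
    exact ((u v).1 i d h).symm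
  · rw [if_neg fun h2 : col j γ δ i (v, d) => h ?_]
    · simp only [Cell.oc, ne_eq, not_not] at h
      exact h
    · rcases h2.2 with ⟨-, a2⟩ | ⟨a1, -⟩
      · exact a2
      · exact (hv a1).elim

end

/-! ### replacing the inside of the strip -/

theorem glue_aux {γ γ' : Cfg} (l : Lp γ) (lv : ∃ v, v ∉ Sp j ∧ γ v ≠ 0)
    (out : ∀ v, v ∉ Sp j → γ v = γ' v) (mt : Mt γ' Set.univ)
    (op : ∀ h : He, h.1 ∈ Sp j → oc γ' h → ∃ k ∈ Bd j, Cn γ' (Sp j) h k)
    (pr : ∀ h ∈ Bd j, ∀ k ∈ Bd j, Cn γ (Sp j) h k ↔ Cn γ' (Sp j) h k) : Lp γ' := by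
  have hout : ∀ h : He, h.1 ∉ Sp j → (oc γ h ↔ oc γ' h) := fun h hh => by
    simp only [oc]; rw [out _ hh]
  have main : ∀ h k : He, h.1 ∉ Sp j → k.1 ∉ Sp j → oc γ' h → oc γ' k → Cn γ' Set.univ h k := by
    intro h0 k0 hh hk oh ok
    have hP := cn_of l.mt (P := fun h => oc γ h ∧ (h.1 ∉ Sp j → Cn γ' Set.univ h0 h) ∧
      (h.1 ∈ Sp j → ∀ b ∈ Bd j, Cn γ (Sp j) h b → Cn γ' Set.univ h0 b)) ?_
      (l.cn h0 k0 ((hout _ hh).2 oh) ((hout _ hk).2 ok))
      ⟨(hout _ hh).2 oh, fun _ => cn_refl _, fun h => (hh h).elim⟩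
    · exact hP.2.1 hk
    · rintro a b ⟨a1, a2, a3⟩ ⟨-, -, rfl | ⟨rfl, -⟩⟩
      · refine ⟨(oc_vp _ _).2 a1, fun hb => ?_, fun hb c hc cc => ?_⟩
        · have e : vp γ a = vp γ' a := by
            have hb' : a.1 ∉ Sp j := hb
            simp only [vp]
            rw [out _ hb']
          rw [e]
          exact cn_trans (a2 hb) (cn_vp ((hout a hb).1 a1) trivial)
        · exact a3 hb c hc (cn_trans (cn_vp a1 hb) cc)
      · refine ⟨(l.mt a trivial trivial).1 a1, fun hb => ?_, fun hb c hc cc => ?_⟩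
        · by_cases ha : a.1 ∈ Sp j
          · have hoa : oc γ' a := by
              rw [mt a trivial trivial, ← hout _ hb]
              exact (l.mt a trivial trivial).1 a1
            exact cn_trans (a3 ha a ⟨ha, hb⟩ (cn_refl _)) (cn_rv hoa trivial trivial)
          · exact cn_trans (a2 ha) (cn_rv ((hout a ha).1 a1) trivial trivial)
        · by_cases ha : a.1 ∈ Sp j
          · exact a3 ha c hc (cn_trans (cn_rv a1 ha hb) cc)
          · have hbd : rv a ∈ Bd j := ⟨hb, by rw [rv_rv]; exact ha⟩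
            exact cn_trans (cn_trans (a2 ha) (cn_rv ((hout a ha).1 a1) trivial trivial))
              (cn_mono (Set.subset_univ _) ((pr _ hbd c hc).1 cc))
  have ex : ∀ h : He, oc γ' h → ∃ k : He, k.1 ∉ Sp j ∧ oc γ' k ∧ Cn γ' Set.univ h k := by
    intro h oh
    by_cases hh : h.1 ∈ Sp j
    · obtain ⟨b, hb, c⟩ := op h hh oh
      have hob : oc γ' b := by
        rcases cn_oc (mt_mono mt) c with rfl | ⟨-, h2, -⟩
        · exact oh
        · exact h2
      exact ⟨rv b, hb.2, (mt b trivial trivial).1 hob,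
        cn_trans (cn_mono (Set.subset_univ _) c) (cn_rv hob trivial trivial)⟩
    · exact ⟨h, hh, oh, cn_refl _⟩
  refine ⟨mt, ?_, fun h k oh ok => ?_⟩
  · obtain ⟨v, hv, h0⟩ := lv
    rintro rfl
    exact h0 (out v hv)
  · obtain ⟨a, ha, oa, ca⟩ := ex h oh
    obtain ⟨b, hb, ob, cb⟩ := ex k ok
    exact cn_trans ca (cn_trans (main a b ha hb oa ob) (cn_symm cb))

section

variable {Γ : Cfg} (f : Fam γ) (g : Gd j γ) (u : Un γ Γ) (s : Sm1 j Γ δ)

include f g u s in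
/-- the coloured configuration is a family with the same outside and the same connections -/
theorem sm_cl : Sm j γ (cl j γ δ) := by
  have U := un_cl f u s
  have mt := mt_cl f u s
  have out := cl_out u s
  have ob : ∀ i, ∀ h ∈ Bd j, (oc (co γ i) h ↔ oc (co (cl j γ δ) i) h) := fun i h hh =>
    bd_oc (f.lp i).mt (mt i) (fun v hv => by rw [co_apply, co_apply, out v hv]) hh
  have pr : ∀ i, ∀ h ∈ Bd j, ∀ k ∈ Bd j, Cn (co γ i) (Sp j) h k ↔ Cn (co (cl j γ δ) i) (Sp j) h k :=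
    fun i h hh k hk =>
    ⟨co_pr u U (fun i => mt_mono (f.lp i).mt) (fun i => mt_mono (mt i)) ob
        (fun h hh k hk => (s.pr h hh k hk).1) i h hh k hk,
      co_pr U u (fun i => mt_mono (mt i)) (fun i => mt_mono (f.lp i).mt) (fun i h hh => (ob i h hh).symm)
        (fun h hh k hk => (s.pr h hh k hk).2) i h hh k hk⟩
  refine ⟨f, ⟨fun i => ?_, fun v => ⟨δ v, U v⟩⟩, g, out, pr⟩
  refine glue_aux (f.lp i) (g i) (fun v hv => by rw [co_apply, co_apply, out v hv]) (mt i) ?_ (pr i)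
  intro h hh ho
  obtain ⟨b, hb, c⟩ := s.op h hh (U.oc' ho)
  exact ⟨b, hb, (un_cn' U (fun i => mt_mono (mt i)) c ho).2⟩

end

/-- colouring the union gives the family back -/
theorem cl_un {γ γ' : Fm I} {Γ δ : Cfg} (s : Sm j γ γ') (u : Un γ Γ) (u' : Un γ' δ) : cl j γ δ = γ' := by
  have s1 := sm1_of s u u'
  have key : ∀ i h, col j γ δ i h ↔ oc (co γ' i) h := by
    intro i h
    constructor
    · rintro ⟨h0, ⟨a1, a2⟩ | ⟨a1, b, hb, a2, a3⟩⟩
      · have e : co γ i h.1 = co γ' i h.1 := by rw [co_apply, co_apply, s.out _ a1]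
        simp only [oc] at a2 ⊢
        rw [← e]; exact a2
      · have hob : oc (co γ' i) b := (bd_oc (s.fam.lp i).mt (s.fam'.lp i).mt
          (fun v hv => by rw [co_apply, co_apply, s.out v hv]) hb).1 a2
        exact (un_cn' u' (fun i => mt_mono (s.fam'.lp i).mt) (cn_symm a3) hob).1
    · intro ho
      refine ⟨u'.oc' ho, ?_⟩
      by_cases hh : h.1 ∈ Sp j
      · right
        obtain ⟨b, hb, c⟩ := esc (s.fam'.lp i) (Sm.gd' s i) hh ho
        have hob : oc (co γ' i) b := by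
          rcases cn_oc (mt_mono (s.fam'.lp i).mt) c with rfl | ⟨-, h2, -⟩
          · exact ho
          · exact h2
        exact ⟨hh, b, hb, (bd_oc (s.fam.lp i).mt (s.fam'.lp i).mt
          (fun v hv => by rw [co_apply, co_apply, s.out v hv]) hb).2 hob, cn_un u' c⟩
      · left
        refine ⟨hh, ?_⟩
        have e : co γ i h.1 = co γ' i h.1 := by rw [co_apply, co_apply, s.out _ hh]
        simp only [oc] at ho ⊢
        rw [e]; exact ho
  refine Finsupp.ext fun v => ?_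
  funext i
  refine ext_p fun d => ?_
  rw [cl_apply, sub_p (col_vp u s1 i v)]
  by_cases h : (γ' v i).oc d
  · rw [if_pos ((key i (v, d)).2 h)]
    exact (u' v).1 i d h
  · rw [if_neg fun h2 => h ((key i (v, d)).1 h2)]
    simp only [Cell.oc, ne_eq, not_not] at h
    exact h.symm

/-- the weights of the strip agree -/
theorem ws_un (u' : Un γ δ) (u : ℤ → ℝ) : ws j u γ = ws1 j u δ := by
  have hs : γ.support = δ.support := by
    ext v
    rw [Finsupp.mem_support_iff, Finsupp.mem_support_iff, not_iff_not]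
    refine Iff.trans ?_ (un_o (u' v)).symm
    exact ⟨fun h i => congrFun h i, fun h => funext h⟩
  rw [ws, ws1, Finsupp.prod, Finsupp.prod, hs]
  refine Finset.prod_congr rfl fun v _ => ?_
  split_ifs with h
  · exact wf_un (u' v)
  · rfl

end Lab

open Lab in
/-- **labels**: the families with the same outside and the same connections are the configurations without labels -/
theorem lab {I : Type} {j : ℤ} {γ : Fm I} [Finite I] (h : Fam γ) (g : Gd j γ) :
    ∃ Γ : Cfg, Sm1 j Γ Γ ∧ ∃ e : {γ' : Fm I // Sm j γ γ'} ≃ {δ : Cfg // Sm1 j Γ δ},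
      ∀ γ' u, ws j u γ'.1 = ws1 j u (e γ').1 ∧ (∀ v, IsUn (γ'.1 v) ((e γ').1 v)) := by
  classical
  obtain ⟨Γ, u⟩ := ex_un h.dj
  have s0 : Sm j γ γ := ⟨h, h, g, fun _ _ => rfl, fun _ _ _ _ _ => Iff.rfl⟩
  have ex : ∀ γ' : {γ' : Fm I // Sm j γ γ'}, ∃ δ : Cfg, Un γ'.1 δ := fun γ' => ex_un γ'.2.fam'.dj
  choose U hU using ex
  refine ⟨Γ, sm1_of s0 u u, ⟨fun γ' => ⟨U γ', sm1_of γ'.2 u (hU γ')⟩,
    fun δ => ⟨cl j γ δ.1, sm_cl h g u δ.2⟩, fun γ' => ?_, fun δ => ?_⟩, fun γ' v => ⟨?_, hU γ'⟩⟩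
  · exact Subtype.ext (cl_un γ'.2 u (hU γ'))
  · exact Subtype.ext (un_cfg_unique (hU _) (un_cl h u δ.2))
  · exact ws_un (hU γ') v

end Pool.Agent.ROT.E
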