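import Pool.Agent.ROT.ECel
import Pool.Agent.ROT.ELab

/-!
# ROT, block E: edges, the relation `connected through the visited vertices`
-/

set_option autoImplicit false

namespace Pool.Agent.ROT.E

open Pool.Agent.EXL Pool.Agent.EXL.Pat
open Pool.Agent.YBC (Dir)
open Pool.Agent.ROT.E.Lab (cn_oc cn_refl cn_symm cn_trans cn_vp cn_rv rv_rv vp_vp oc_vp)

/-- the edges: `(v, true)` goes up from `v`, `(v, false)` goes to the right from `v` -/
abbrev Ed := Pt × Bool

/-- the edge of a half edge -/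
def ed (h : He) : Ed :=
  match h.2 with
  | .N => (h.1, true)
  | .S => ((h.1.1, h.1.2 - 1), true)
  | .E => (h.1, false)
  | .W => ((h.1.1 - 1, h.1.2), false)

theorem ed_rv (h : He) : ed (rv h) = ed h := by
  obtain ⟨⟨x, y⟩, d⟩ := h
  cases d <;> simp [ed, rv, nx, Dir.op]

theorem ed_eq {h k : He} (e : ed h = ed k) : k = h ∨ k = rv h := by
  obtain ⟨⟨x, y⟩, d⟩ := h
  obtain ⟨⟨x', y'⟩, d'⟩ := k
  cases d <;> cases d' <;> simp [ed, rv, nx, Dir.op, Prod.ext_iff] at e ⊢ <;> omega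

/-- a passage through a vertex of `P`, as a link of two edges -/
def Gr (δ : Cfg) (P : Set Pt) (e f : Ed) : Prop :=
  ∃ v ∈ P, ∃ d, (δ v).oc d ∧ e = ed (v, d) ∧ f = ed (v, (δ v).p d)

/-- connected through the vertices of `P` -/
def Qr (δ : Cfg) (P : Set Pt) : Ed → Ed → Prop := Relation.EqvGen (Gr δ P)

theorem Qr_equiv (δ : Cfg) (P : Set Pt) : Equivalence (Qr δ P) := Relation.EqvGen.is_equivalence _

theorem iso_of {δ : Cfg} {P : Set Pt} {x : Ed} (h : ∀ k : He, ed k = x → k.1 ∉ P) : Iso (Qr δ P) x := by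
  have key : ∀ e f, Qr δ P e f → (e = x ↔ f = x) := by
    intro e f hq
    induction hq with
    | rel a b hab =>
      obtain ⟨v, hv, d, _, rfl, rfl⟩ := hab
      exact ⟨fun e => absurd hv (h (v, d) e), fun e => absurd hv (h (v, (δ v).p d) e)⟩
    | refl a => exact Iff.rfl
    | symm a b _ ih => exact ih.symm
    | trans a b c _ _ ih1 ih2 => exact ih1.trans ih2
  intro e he
  exact (key x e he).1 rfl

section

variable {D : Type*}

/-- one more link -/
def adl (G : D → D → Prop) (x y e f : D) : Prop := G e f ∨ (e = x ∧ f = y) ∨ (e = y ∧ f = x)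

theorem eqv_adl (G : D → D → Prop) (x y : D) :
    Relation.EqvGen (adl G x y) = lnk (Relation.EqvGen G) x y := by
  funext e f
  have h := eqv_lnk (G := G) (G' := adl G x y) (x := x) (y := y) (fun e f h => Or.inl h)
    (Relation.EqvGen.rel x y (Or.inr (Or.inl ⟨rfl, rfl⟩))) (fun e f h => by
      rcases h with h | h | h
      · exact Or.inl (.rel _ _ h)
      · exact Or.inr (Or.inl h)
      · exact Or.inr (Or.inr h)) e f
  exact propext h

theorem dir_ex {P : Dir → Prop} : (∃ d, P d) ↔ P .S ∨ P .E ∨ P .N ∨ P .W := by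
  constructor
  · rintro ⟨d, hd⟩
    cases d
    · exact Or.inr (Or.inl hd)
    · exact Or.inr (Or.inr (Or.inl hd))
    · exact Or.inr (Or.inr (Or.inr hd))
    · exact Or.inl hd
  · rintro (h | h | h | h)
    · exact ⟨_, h⟩
    · exact ⟨_, h⟩
    · exact ⟨_, h⟩
    · exact ⟨_, h⟩

theorem eqv_cell (G : D → D → Prop) (n : Dir → D) (c : Cell) :
    Relation.EqvGen (fun e f => G e f ∨ ∃ d, c.oc d ∧ e = n d ∧ f = n (c.p d)) =
      cel (Relation.EqvGen G) (n .S) (n .E) (n .N) (n .W) c := by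
  have o1 : ∀ d, ¬ Cell.oc .o d := by decide
  cases c with
  | o =>
    have : (fun e f => G e f ∨ ∃ d, Cell.oc .o d ∧ e = n d ∧ f = n (Cell.p .o d)) = G := by
      funext e f
      refine propext ⟨?_, Or.inl⟩
      rintro (h | ⟨d, h, _⟩)
      · exact h
      · exact absurd h (o1 d)
    rw [this]
    rfl
  | x =>
    have : (fun e f => G e f ∨ ∃ d, Cell.oc .x d ∧ e = n d ∧ f = n (Cell.p .x d)) =
        adl (adl G (n .S) (n .W)) (n .E) (n .N) := by
      funext e f
      rw [dir_ex]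
      refine propext ?_
      have a : Cell.oc .x .S ∧ Cell.oc .x .E ∧ Cell.oc .x .N ∧ Cell.oc .x .W := by decide
      simp only [a.1, a.2.1, a.2.2.1, a.2.2.2, true_and, adl, Cell.p]
      tauto
    rw [this, eqv_adl, eqv_adl]
    rfl
  | y =>
    have : (fun e f => G e f ∨ ∃ d, Cell.oc .y d ∧ e = n d ∧ f = n (Cell.p .y d)) =
        adl (adl G (n .S) (n .E)) (n .N) (n .W) := by
      funext e f
      rw [dir_ex]
      refine propext ?_
      have a : Cell.oc .y .S ∧ Cell.oc .y .E ∧ Cell.oc .y .N ∧ Cell.oc .y .W := by decide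
      simp only [a.1, a.2.1, a.2.2.1, a.2.2.2, true_and, adl, Cell.p]
      tauto
    rw [this, eqv_adl, eqv_adl]
    rfl
  | h =>
    have : (fun e f => G e f ∨ ∃ d, Cell.oc .h d ∧ e = n d ∧ f = n (Cell.p .h d)) =
        adl G (n .E) (n .W) := by
      funext e f
      rw [dir_ex]
      refine propext ?_
      have a : ¬ Cell.oc .h .S ∧ Cell.oc .h .E ∧ ¬ Cell.oc .h .N ∧ Cell.oc .h .W := by decide
      simp only [a.1, a.2.1, a.2.2.1, a.2.2.2, true_and, false_and, false_or, adl, Cell.p]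
    rw [this, eqv_adl]
    rfl
  | v =>
    have : (fun e f => G e f ∨ ∃ d, Cell.oc .v d ∧ e = n d ∧ f = n (Cell.p .v d)) =
        adl G (n .S) (n .N) := by
      funext e f
      rw [dir_ex]
      refine propext ?_
      have a : Cell.oc .v .S ∧ ¬ Cell.oc .v .E ∧ Cell.oc .v .N ∧ ¬ Cell.oc .v .W := by decide
      simp only [a.1, a.2.1, a.2.2.1, a.2.2.2, true_and, false_and, false_or, or_false, adl, Cell.p]
    rw [this, eqv_adl]
    rfl
  | sw =>
    have : (fun e f => G e f ∨ ∃ d, Cell.oc .sw d ∧ e = n d ∧ f = n (Cell.p .sw d)) =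
        adl G (n .S) (n .W) := by
      funext e f
      rw [dir_ex]
      refine propext ?_
      have a : Cell.oc .sw .S ∧ ¬ Cell.oc .sw .E ∧ ¬ Cell.oc .sw .N ∧ Cell.oc .sw .W := by decide
      simp only [a.1, a.2.1, a.2.2.1, a.2.2.2, true_and, false_and, false_or, adl, Cell.p]
    rw [this, eqv_adl]
    rfl
  | ne =>
    have : (fun e f => G e f ∨ ∃ d, Cell.oc .ne d ∧ e = n d ∧ f = n (Cell.p .ne d)) =
        adl G (n .E) (n .N) := by
      funext e f
      rw [dir_ex]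
      refine propext ?_
      have a : ¬ Cell.oc .ne .S ∧ Cell.oc .ne .E ∧ Cell.oc .ne .N ∧ ¬ Cell.oc .ne .W := by decide
      simp only [a.1, a.2.1, a.2.2.1, a.2.2.2, true_and, false_and, false_or, or_false, adl, Cell.p]
    rw [this, eqv_adl]
    rfl
  | se =>
    have : (fun e f => G e f ∨ ∃ d, Cell.oc .se d ∧ e = n d ∧ f = n (Cell.p .se d)) =
        adl G (n .S) (n .E) := by
      funext e f
      rw [dir_ex]
      refine propext ?_
      have a : Cell.oc .se .S ∧ Cell.oc .se .E ∧ ¬ Cell.oc .se .N ∧ ¬ Cell.oc .se .W := by decide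
      simp only [a.1, a.2.1, a.2.2.1, a.2.2.2, true_and, false_and, or_false, adl, Cell.p]
    rw [this, eqv_adl]
    rfl
  | nw =>
    have : (fun e f => G e f ∨ ∃ d, Cell.oc .nw d ∧ e = n d ∧ f = n (Cell.p .nw d)) =
        adl G (n .N) (n .W) := by
      funext e f
      rw [dir_ex]
      refine propext ?_
      have a : ¬ Cell.oc .nw .S ∧ ¬ Cell.oc .nw .E ∧ Cell.oc .nw .N ∧ Cell.oc .nw .W := by decide
      simp only [a.1, a.2.1, a.2.2.1, a.2.2.2, true_and, false_and, false_or, adl, Cell.p]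
    rw [this, eqv_adl]
    rfl

end

/-- one more vertex -/
theorem Qr_step {δ : Cfg} {P P' : Set Pt} {v : Pt} (h : ∀ w, w ∈ P' ↔ w = v ∨ w ∈ P) :
    Qr δ P' = cel (Qr δ P) (ed (v, .S)) (ed (v, .E)) (ed (v, .N)) (ed (v, .W)) (δ v) := by
  have e1 : Gr δ P' = fun e f => Gr δ P e f ∨ ∃ d, (δ v).oc d ∧ e = ed (v, d) ∧ f = ed (v, (δ v).p d) := by
    funext e f
    refine propext ⟨?_, ?_⟩
    · rintro ⟨w, hw, d, h1, h2, h3⟩
      rcases (h w).1 hw with rfl | hw
      · exact Or.inr ⟨d, h1, h2, h3⟩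
      · exact Or.inl ⟨w, hw, d, h1, h2, h3⟩
    · rintro (⟨w, hw, d, h1, h2, h3⟩ | ⟨d, h1, h2, h3⟩)
      · exact ⟨w, (h w).2 (Or.inr hw), d, h1, h2, h3⟩
      · exact ⟨v, (h v).2 (Or.inl rfl), d, h1, h2, h3⟩
  unfold Qr
  rw [e1]
  exact eqv_cell _ (fun d => ed (v, d)) _

/-- from the edges to the half edges -/
theorem cn_of_Qr {δ : Cfg} {P A : Set Pt} (hP : P ⊆ A) {h k : He} (hh : h.1 ∈ A) (hk : k.1 ∈ A)
    (oh : oc δ h) (ok : oc δ k) (q : Qr δ P (ed h) (ed k)) : Cn δ A h k := by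
  have same : ∀ {a b : He}, a.1 ∈ A → b.1 ∈ A → oc δ a → oc δ b → ed a = ed b → Cn δ A a b := by
    intro a b ha hb oa ob e
    rcases ed_eq e with rfl | rfl
    · exact cn_refl _
    · exact cn_rv oa ha hb
  have key : ∀ e f, Qr δ P e f → e = f ∨ ∃ a b : He, ed a = e ∧ ed b = f ∧ a.1 ∈ A ∧ b.1 ∈ A ∧ oc δ a ∧ oc δ b ∧
      Cn δ A a b := by
    intro e f hq
    induction hq with
    | rel a b hab =>
      obtain ⟨v, hv, d, h1, rfl, rfl⟩ := hab
      refine Or.inr ⟨(v, d), (v, (δ v).p d), rfl, rfl, hP hv, hP hv, h1, (oc_vp δ (v, d)).2 h1, ?_⟩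
      exact cn_vp (h := (v, d)) h1 (hP hv)
    | refl a => exact Or.inl rfl
    | symm a b _ ih =>
      rcases ih with ih | ⟨x, y, h1, h2, h3, h4, h5, h6, h7⟩
      · exact Or.inl ih.symm
      · exact Or.inr ⟨y, x, h2, h1, h4, h3, h6, h5, cn_symm h7⟩
    | trans a b c _ _ ih1 ih2 =>
      rcases ih1 with rfl | ⟨x, y, h1, h2, h3, h4, h5, h6, h7⟩
      · exact ih2
      rcases ih2 with rfl | ⟨x', y', g1, g2, g3, g4, g5, g6, g7⟩
      · exact Or.inr ⟨x, y, h1, h2, h3, h4, h5, h6, h7⟩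
      · exact Or.inr ⟨x, y', h1, g2, h3, g4, h5, g6,
          cn_trans h7 (cn_trans (same h4 g3 h6 g5 (h2.trans g1.symm)) g7)⟩
  rcases key _ _ q with e | ⟨x, y, h1, h2, h3, h4, h5, h6, h7⟩
  · exact same hh hk oh ok e
  · exact cn_trans (same hh h3 oh h5 h1.symm) (cn_trans h7 (same h4 hk h6 ok h2))

/-- from the half edges to the edges -/
theorem Qr_of_cn {δ : Cfg} {P A : Set Pt} (hP : ∀ v ∈ A, δ v ≠ .o → v ∈ P) {h k : He} (c : Cn δ A h k) :
    Qr δ P (ed h) (ed k) := by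
  induction c with
  | rel a b hab =>
    obtain ⟨h1, h2, h3 | ⟨h3, h4⟩⟩ := hab
    · have ne : δ a.1 ≠ .o := by
        intro e
        unfold oc at h1
        rw [e] at h1
        exact h1 rfl
      rw [h3]
      exact .rel _ _ ⟨a.1, hP _ h2 ne, a.2, h1, rfl, rfl⟩
    · rw [h3, ed_rv]
      exact .refl _
  | refl a => exact .refl _
  | symm a b _ ih => exact .symm _ _ ih
  | trans a b c _ _ ih1 ih2 => exact .trans _ _ _ ih1 ih2

end Pool.Agent.ROT.E
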