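import Pool.Agent.ROT.EHexC
import Pool.Agent.POL.Defs

/-!
# ROT, row E8: the dictionary between the loops of the square lattice (all columns at the honeycomb angle) and the
closed self-avoiding turn words of the honeycomb lattice (`HexObs.POL.Cy`)
-/

set_option autoImplicit false

namespace Pool.Agent.ROT.E.Hx

open Pool.Agent.YBC (Dir)
open Pool.Agent.UNI (wR wR_hex)
open scoped ENNReal

/-- **the loops of the honeycomb** -/
structure HL (γ : Cfg) : Prop where
  lp : Lp γ
  ny : Ny γ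

/-- closed words and the library -/
theorem cw_iff {v0 d0 : HexObs.Pt} (h0 : d0 ∈ HexObs.dirs) {t : List Bool} :
    CW v0 d0 t ↔ t ≠ [] ∧ t ∈ HexObs.POL.Cy t.length := by
  have hu : HexObs.up ∈ HexObs.dirs := by decide
  constructor
  · intro h
    have h1 := h.root (v1 := HexObs.oo) (d1 := HexObs.up) h0 hu
    exact ⟨h.ne, rfl, h1.vx, h1.dx, h1.inj⟩
  · rintro ⟨h1, -, h2, h3, h4⟩
    exact CW.root hu h0 ⟨h1, h2, h3, h4⟩

/-- the nonempty closed words -/
def Wo : Set (List Bool) := {t | t ≠ [] ∧ t ∈ HexObs.POL.Cy t.length}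

theorem mem_wo {t : List Bool} (e : Bo) : t ∈ Wo ↔ CW (st e) (dr e.2) t := (cw_iff (dr_mem _)).symm

/-- **the dictionary**: a honeycomb loop with a directed bond is a directed bond with a closed word -/
noncomputable def dic : {x : Cfg × Bo // HL x.1 ∧ ub x.1 x.2} ≃ Bo × Wo where
  toFun x := (x.1.2, ⟨wd x.1.1 x.1.2 (pd x.1.1 x.1.2), (mem_wo x.1.2).2 (cw_wd x.2.1.lp.mt x.2.1.ny x.2.2)⟩)
  invFun x := ⟨(lpw x.1 x.2.1, x.1), ⟨lp_lpw ((mem_wo x.1).1 x.2.2), ny_lpw _ _⟩,
    (ub_lpw ((mem_wo x.1).1 x.2.2) _).2 (os_bt ((mem_wo x.1).1 x.2.2) (i := 0) (Nat.zero_le _))⟩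
  left_inv := by
    rintro ⟨⟨γ, e⟩, h1, h2⟩
    apply Subtype.ext
    exact Prod.ext (lpw_wd h1.lp h1.ny h2) rfl
  right_inv := by
    rintro ⟨e, t, ht⟩
    refine Prod.ext rfl ?_
    apply Subtype.ext
    exact wd_lpw ((mem_wo e).1 ht)

theorem dic_fst (x : {x : Cfg × Bo // HL x.1 ∧ ub x.1 x.2}) : (dic x).1 = x.1.2 := rfl

theorem dic_snd (x : {x : Cfg × Bo // HL x.1 ∧ ub x.1 x.2}) : ((dic x).2 : List Bool) = wd x.1.1 x.1.2 (pd x.1.1 x.1.2) :=
  rfl

theorem dic_symm (e : Bo) (t : Wo) : (dic.symm (e, t)).1 = (lpw e t, e) := rfl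

/-! ### vertices -/

/-- the number of honeycomb vertices of a cell (4 for `y`, as the inner bond is used twice) -/
def nv : Cell → ℕ
  | .o => 0
  | .h => 2
  | .v => 2
  | .sw => 1
  | .ne => 1
  | .se => 2
  | .nw => 2
  | .x => 2
  | .y => 4

/-- the honeycomb vertices of a cell -/
def vs (v : Pt) (c : Cell) : Finset HexObs.Pt :=
  (if c.oc .W ∨ c.oc .S then {wh v} else ∅) ∪ (if c.oc .E ∨ c.oc .N then {bk v} else ∅)

/-- **the honeycomb vertices of a configuration** -/
def hs (γ : Cfg) : Finset HexObs.Pt := γ.support.biUnion fun v => vs v (γ v)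

theorem vs_iff {v : Pt} {c : Cell} {p : HexObs.Pt} : p ∈ vs v c ↔ ∃ s, us c s = true ∧ st (v, s) = p := by
  unfold vs
  rw [Finset.mem_union]
  constructor
  · rintro (h | h)
    · split_ifs at h with h1
      · rw [Finset.mem_singleton] at h
        rcases h1 with h1 | h1
        · exact ⟨.ww, by simpa [us] using h1, h.symm⟩
        · exact ⟨.ss, by simpa [us] using h1, h.symm⟩
      · simp at h
    · split_ifs at h with h1
      · rw [Finset.mem_singleton] at h
        rcases h1 with h1 | h1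
        · exact ⟨.ee, by simpa [us] using h1, h.symm⟩
        · exact ⟨.nn, by simpa [us] using h1, h.symm⟩
      · simp at h
  · rintro ⟨s, h1, rfl⟩
    have key : (wi s = true → c.oc .W ∨ c.oc .S) ∧ (wi s = false → c.oc .E ∨ c.oc .N) := by
      revert h1
      cases c <;> cases s <;> decide
    cases h2 : wi s
    · right
      rw [if_pos (key.2 h2), Finset.mem_singleton]
      unfold st
      simp [h2]
    · left
      rw [if_pos (key.1 h2), Finset.mem_singleton]
      unfold st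
      simp [h2]

theorem mem_hs {γ : Cfg} {p : HexObs.Pt} : p ∈ hs γ ↔ ∃ f, ub γ f ∧ st f = p := by
  unfold hs
  rw [Finset.mem_biUnion]
  constructor
  · rintro ⟨v, -, h⟩
    obtain ⟨s, h1, h2⟩ := vs_iff.1 h
    exact ⟨(v, s), h1, h2⟩
  · rintro ⟨⟨v, s⟩, h1, h2⟩
    exact ⟨v, ub_supp h1, vs_iff.2 ⟨s, h1, h2⟩⟩

theorem vs_card (v : Pt) {c : Cell} (h : c ≠ .y) : (vs v c).card = nv c := by
  have hd : wh v ≠ bk v := wh_ne_bk v v
  revert h
  cases c <;> intro h <;> first
    | exact absurd rfl h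
    | (simp [vs, nv, Cell.oc, Cell.p]; done)
    | simp [vs, nv, Cell.oc, Cell.p, Finset.card_pair hd]

theorem vs_disj {v v' : Pt} (h : v ≠ v') (c c' : Cell) : Disjoint (vs v c) (vs v' c') := by
  rw [Finset.disjoint_left]
  intro p h1 h2
  obtain ⟨s, -, h3⟩ := vs_iff.1 h1
  obtain ⟨s', -, h4⟩ := vs_iff.1 h2
  exact h (st_eq.1 (h3.trans h4.symm)).1

theorem hs_card {γ : Cfg} (y : Ny γ) : (hs γ).card = ∑ v ∈ γ.support, nv (γ v) := by
  unfold hs
  rw [Finset.card_biUnion (fun v _ v' _ h => vs_disj h _ _)]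
  exact Finset.sum_congr rfl fun v _ => vs_card v (y v)

/-- the vertices of a loop, in the order of the walk -/
theorem hs_it {γ : Cfg} (l : HL γ) {e : Bo} (he : ub γ e) :
    hs γ = (Finset.range (pd γ e)).image fun i => st ((nxt γ)^[i] e) := by
  ext p
  rw [mem_hs, Finset.mem_image]
  have hp := pd_pos l.lp.mt l.ny he
  constructor
  · rintro ⟨f, hf, rfl⟩
    obtain ⟨k, hk, h | h⟩ := (ub_iff l.lp l.ny he).1 hf
    · exact ⟨k, Finset.mem_range.2 hk, by rw [h]⟩
    · have h1 : f = rev ((nxt γ)^[k] e) := by rw [← h, rev_rev]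
      rcases Nat.lt_or_ge (k + 1) (pd γ e) with h2 | h2
      · exact ⟨k + 1, Finset.mem_range.2 h2, by rw [h1, Function.iterate_succ_apply', st_nxt']⟩
      · have h3 : k + 1 = pd γ e := by omega
        refine ⟨0, Finset.mem_range.2 hp, ?_⟩
        have h4 := it_pd γ e
        rw [← h3, Function.iterate_succ_apply'] at h4
        rw [h1, ← st_nxt' (γ := γ), h4]
        rfl
  · rintro ⟨k, -, rfl⟩
    exact ⟨_, it_ub l.lp.mt l.ny he k, rfl⟩

theorem hs_pd {γ : Cfg} (l : HL γ) {e : Bo} (he : ub γ e) : (hs γ).card = pd γ e := by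
  rw [hs_it l he, Finset.card_image_of_injOn, Finset.card_range]
  intro i hi k hk h
  rw [Finset.mem_coe, Finset.mem_range] at hi hk
  exact st_inj l.lp.mt l.ny he hi hk h

/-- **the length of the word is the number of vertices** -/
theorem dic_len (x : {x : Cfg × Bo // HL x.1 ∧ ub x.1 x.2}) : ((dic x).2 : List Bool).length = (hs x.1.1).card := by
  rw [dic_snd, wd_len, hs_pd x.2.1 x.2.2]

/-- **the vertices of the loop of a word** -/
theorem hs_lpw {e : Bo} {t : List Bool} (h : t ∈ Wo) :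
    hs (lpw e t) = (Finset.range t.length).image fun i => HexObs.vx (st e) (dr e.2) t i := by
  have h1 := (mem_wo e).1 h
  have l : HL (lpw e t) := ⟨lp_lpw h1, ny_lpw e t⟩
  have he : ub (lpw e t) e := (ub_lpw h1 e).2 (os_bt h1 (i := 0) (Nat.zero_le _))
  rw [hs_it l he, pd_lpw h1]
  apply Finset.image_congr
  intro i hi
  rw [Finset.mem_coe, Finset.mem_range] at hi
  simp only
  rw [it_lpw h1 hi.le, st_bt]

theorem card_lpw {e : Bo} {t : List Bool} (h : t ∈ Wo) : (hs (lpw e t)).card = t.length := by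
  have h1 := (mem_wo e).1 h
  have l : HL (lpw e t) := ⟨lp_lpw h1, ny_lpw e t⟩
  have he : ub (lpw e t) e := (ub_lpw h1 e).2 (os_bt h1 (i := 0) (Nat.zero_le _))
  rw [hs_pd l he, pd_lpw h1]

/-! ### weights -/

theorem wt_hex (c : Cell) : c.wt (wR (Real.pi / 8)) = if c = .y then 0 else HexObs.xc ^ nv c := by
  rw [wR_hex]
  cases c <;> simp [Cell.wt, EXL.hexW, nv]

/-- the weight of a configuration without labels -/
theorem prod_hex (δ : Cfg) : (δ.prod fun _ c => c.wt (wR (Real.pi / 8))) =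
    open Classical in if Ny δ then HexObs.xc ^ (hs δ).card else 0 := by
  classical
  split_ifs with h
  · rw [hs_card h, ← Finset.prod_pow_eq_pow_sum, Finsupp.prod]
    refine Finset.prod_congr rfl fun v _ => ?_
    rw [wt_hex, if_neg (h v)]
  · unfold Ny at h
    push Not at h
    obtain ⟨v, hv⟩ := h
    rw [Finsupp.prod]
    refine Finset.prod_eq_zero (i := v) ?_ ?_
    · rw [Finsupp.mem_support_iff, hv]
      decide
    · rw [wt_hex, if_pos hv]

variable {I : Type}

theorem M_un {γ : Fm I} {δ : Cfg} (u : Lab.Un γ δ) : M (fun _ => Real.pi / 8) γ =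
    open Classical in if Ny δ then HexObs.xc ^ (hs δ).card else 0 := by
  rw [← prod_hex]
  have h : γ.support = δ.support := by
    ext v
    rw [Finsupp.mem_support_iff, Finsupp.mem_support_iff, not_iff_not]
    refine Iff.trans ?_ (Lab.un_o (u v)).symm
    exact ⟨fun h i => congrFun h i, fun h => funext h⟩
  rw [M, Finsupp.prod, Finsupp.prod, h]
  exact Finset.prod_congr rfl fun v _ => Lab.wf_un (u v)

/-- one member -/
theorem un_one (γ : Fm Unit) : Lab.Un γ (co γ ()) := by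
  intro v
  refine ⟨fun i d _ => rfl, fun _ _ _ _ _ => rfl, fun d h => ⟨(), h⟩⟩

/-- **the weight of one loop** -/
theorem M_one (γ : Fm Unit) : M (fun _ => Real.pi / 8) γ =
    open Classical in if Ny (co γ ()) then HexObs.xc ^ (hs (co γ ())).card else 0 := M_un (un_one γ)

/-! ### families -/

theorem un_vs [Fintype I] {f : I → Cell} {c : Cell} (h : IsUn f c) (v : Pt) :
    vs v c = Finset.univ.biUnion fun i => vs v (f i) := by
  classical
  ext p
  rw [Finset.mem_biUnion]
  unfold vs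
  have hW := Lab.un_oc h .W
  have hS := Lab.un_oc h .S
  have hE := Lab.un_oc h .E
  have hN := Lab.un_oc h .N
  constructor
  · intro h1
    rw [Finset.mem_union] at h1
    rcases h1 with h1 | h1
    · split_ifs at h1 with h2
      · rcases h2 with h2 | h2
        · obtain ⟨i, hi⟩ := hW.1 h2
          exact ⟨i, Finset.mem_univ _, Finset.mem_union_left _ (by rw [if_pos (Or.inl hi)]; exact h1)⟩
        · obtain ⟨i, hi⟩ := hS.1 h2
          exact ⟨i, Finset.mem_univ _, Finset.mem_union_left _ (by rw [if_pos (Or.inr hi)]; exact h1)⟩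
      · simp at h1
    · split_ifs at h1 with h2
      · rcases h2 with h2 | h2
        · obtain ⟨i, hi⟩ := hE.1 h2
          exact ⟨i, Finset.mem_univ _, Finset.mem_union_right _ (by rw [if_pos (Or.inl hi)]; exact h1)⟩
        · obtain ⟨i, hi⟩ := hN.1 h2
          exact ⟨i, Finset.mem_univ _, Finset.mem_union_right _ (by rw [if_pos (Or.inr hi)]; exact h1)⟩
      · simp at h1
  · rintro ⟨i, -, h1⟩
    rw [Finset.mem_union] at h1 ⊢
    rcases h1 with h1 | h1
    · left
      split_ifs at h1 with h2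
      · rw [if_pos]
        · exact h1
        · rcases h2 with h2 | h2
          · exact Or.inl (hW.2 ⟨i, h2⟩)
          · exact Or.inr (hS.2 ⟨i, h2⟩)
      · simp at h1
    · right
      split_ifs at h1 with h2
      · rw [if_pos]
        · exact h1
        · rcases h2 with h2 | h2
          · exact Or.inl (hE.2 ⟨i, h2⟩)
          · exact Or.inr (hN.2 ⟨i, h2⟩)
      · simp at h1

theorem pair_aux {c : Cell} (hc : c ≠ .y) : (c.oc .W → c.oc .S → c.p .W = .S) ∧ (c.oc .E → c.oc .N → c.p .E = .N) := by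
  revert hc
  cases c <;> decide

theorem pair_aux' (a : Cell) : (a.p .W = .S → a.oc .S) ∧ (a.p .E = .N → a.oc .N) := by
  cases a <;> decide

theorem pair_white {a b c : Cell} (hc : c ≠ .y) (ha : ∀ d, a.oc d → c.p d = a.p d) (hb : ∀ d, b.oc d → c.p d = b.p d)
    (hab : ∀ d, ¬ (a.oc d ∧ b.oc d)) : ¬ ((a.oc .W ∨ a.oc .S) ∧ (b.oc .W ∨ b.oc .S)) ∧
      ¬ ((a.oc .E ∨ a.oc .N) ∧ (b.oc .E ∨ b.oc .N)) := by
  have oa : ∀ d, a.oc d → c.oc d := by
    intro d h
    unfold Cell.oc
    rw [ha d h]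
    exact h
  have ob : ∀ d, b.oc d → c.oc d := by
    intro d h
    unfold Cell.oc
    rw [hb d h]
    exact h
  obtain ⟨k1, k2⟩ := pair_aux hc
  constructor
  · rintro ⟨h1 | h1, h2 | h2⟩
    · exact hab _ ⟨h1, h2⟩
    · have h3 := k1 (oa _ h1) (ob _ h2)
      rw [ha _ h1] at h3
      exact hab _ ⟨(pair_aux' a).1 h3, h2⟩
    · have h3 := k1 (ob _ h2) (oa _ h1)
      rw [hb _ h2] at h3
      exact hab _ ⟨h1, (pair_aux' b).1 h3⟩
    · exact hab _ ⟨h1, h2⟩
  · rintro ⟨h1 | h1, h2 | h2⟩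
    · exact hab _ ⟨h1, h2⟩
    · have h3 := k2 (oa _ h1) (ob _ h2)
      rw [ha _ h1] at h3
      exact hab _ ⟨(pair_aux' a).2 h3, h2⟩
    · have h3 := k2 (ob _ h2) (oa _ h1)
      rw [hb _ h2] at h3
      exact hab _ ⟨h1, (pair_aux' b).2 h3⟩
    · exact hab _ ⟨h1, h2⟩

theorem ny_un {f : I → Cell} {c : Cell} (h : IsUn f c) (v : Pt) :
    c ≠ .y ↔ (∀ i, f i ≠ .y) ∧ Pairwise fun i k => Disjoint (vs v (f i)) (vs v (f k)) := by
  constructor
  · intro hc
    refine ⟨fun i hi => hc ?_, fun i k hik => ?_⟩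
    · have h1 := h.1 i .S (by rw [hi]; decide)
      rw [hi] at h1
      revert h1 hc
      have h2 := h.1 i .W (by rw [hi]; decide)
      rw [hi] at h2
      revert h2
      cases c <;> decide
    · show Disjoint _ _
      rw [Finset.disjoint_left]
      intro p hp hp'
      have key := pair_white hc (h.1 i) (h.1 k) (fun d hd => hik (h.2.1 i k d hd.1 hd.2))
      unfold vs at hp hp'
      rw [Finset.mem_union] at hp hp'
      rcases hp with hp | hp <;> rcases hp' with hp' | hp' <;> split_ifs at hp hp' with h1 h2 <;>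
        simp only [Finset.mem_singleton, Finset.notMem_empty] at hp hp'
      · exact key.1 ⟨h1, h2⟩
      · exact wh_ne_bk _ _ (hp.symm.trans hp')
      · exact wh_ne_bk _ _ (hp'.symm.trans hp)
      · exact key.2 ⟨h1, h2⟩
  · rintro ⟨h1, h2⟩ rfl
    obtain ⟨i, hi⟩ := h.2.2 .S (by decide)
    obtain ⟨k, hk⟩ := h.2.2 .W (by decide)
    have e1 := h.1 i .S hi
    have e2 := h.1 k .W hk
    rcases eq_or_ne i k with rfl | hik
    · apply h1 i
      revert e1 e2
      cases f i <;> decide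
    · have m1 : wh v ∈ vs v (f i) := Finset.mem_union_left _ (by rw [if_pos (Or.inr hi)]; exact Finset.mem_singleton_self _)
      have m2 : wh v ∈ vs v (f k) := Finset.mem_union_left _ (by rw [if_pos (Or.inl hk)]; exact Finset.mem_singleton_self _)
      have h3 : Disjoint (vs v (f i)) (vs v (f k)) := h2 hik
      exact Finset.disjoint_left.1 h3 m1 m2

theorem mem_hs' {γ : Cfg} {p : HexObs.Pt} : p ∈ hs γ ↔ ∃ v, p ∈ vs v (γ v) := by
  unfold hs
  rw [Finset.mem_biUnion]
  constructor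
  · rintro ⟨v, -, h⟩
    exact ⟨v, h⟩
  · rintro ⟨v, h⟩
    refine ⟨v, ?_, h⟩
    rw [Finsupp.mem_support_iff]
    intro h0
    rw [h0] at h
    have : vs v (0 : Cell) = ∅ := by
      show vs v .o = ∅
      simp [vs, Cell.oc, Cell.p]
    rw [this] at h
    simp at h

/-- the vertices of a union -/
theorem hs_un [Fintype I] {γ : Fm I} {δ : Cfg} (u : Lab.Un γ δ) : hs δ = Finset.univ.biUnion fun i => hs (co γ i) := by
  classical
  ext p
  rw [mem_hs', Finset.mem_biUnion]
  constructor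
  · rintro ⟨v, h⟩
    rw [un_vs (u v) v, Finset.mem_biUnion] at h
    obtain ⟨i, -, h⟩ := h
    exact ⟨i, Finset.mem_univ _, mem_hs'.2 ⟨v, h⟩⟩
  · rintro ⟨i, -, h⟩
    obtain ⟨v, h⟩ := mem_hs'.1 h
    refine ⟨v, ?_⟩
    rw [un_vs (u v) v, Finset.mem_biUnion]
    exact ⟨i, Finset.mem_univ _, h⟩

theorem ny_cfg {γ : Fm I} {δ : Cfg} (u : Lab.Un γ δ) :
    Ny δ ↔ (∀ i, Ny (co γ i)) ∧ Pairwise fun i k => Disjoint (hs (co γ i)) (hs (co γ k)) := by
  constructor
  · intro h
    refine ⟨fun i v => ((ny_un (u v) v).1 (h v)).1 i, fun i k hik => ?_⟩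
    show Disjoint _ _
    rw [Finset.disjoint_left]
    intro p h1 h2
    obtain ⟨v, h3⟩ := mem_hs'.1 h1
    obtain ⟨w, h4⟩ := mem_hs'.1 h2
    rcases eq_or_ne v w with rfl | hvw
    · exact Finset.disjoint_left.1 (((ny_un (u v) v).1 (h v)).2 hik) h3 h4
    · exact Finset.disjoint_left.1 (vs_disj hvw _ _) h3 h4
  · rintro ⟨h1, h2⟩ v
    refine (ny_un (u v) v).2 ⟨fun i => h1 i v, fun i k hik => ?_⟩
    show Disjoint _ _
    rw [Finset.disjoint_left]
    intro p h3 h4
    exact Finset.disjoint_left.1 (h2 hik) (mem_hs'.2 ⟨v, h3⟩) (mem_hs'.2 ⟨v, h4⟩)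

open Classical in
/-- **the weight of a family**: `xc` to the number of vertices if the members are disjoint honeycomb loops, else 0 -/
theorem M_fam [Fintype I] {γ : Fm I} (h : Fam γ) : M (fun _ => Real.pi / 8) γ =
    if (∀ i, HL (co γ i)) ∧ Pairwise (fun i k => Disjoint (hs (co γ i)) (hs (co γ k))) then
      ∏ i, HexObs.xc ^ (hs (co γ i)).card else 0 := by
  obtain ⟨δ, u⟩ := Lab.ex_un h.dj
  rw [M_un u]
  by_cases hy : Ny δ
  · obtain ⟨h1, h2⟩ := (ny_cfg u).1 hy
    rw [if_pos hy, if_pos ⟨fun i => ⟨h.lp i, h1 i⟩, h2⟩, hs_un u, Finset.card_biUnion (fun i _ k _ hik => h2 hik),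
      Finset.prod_pow_eq_pow_sum]
  · rw [if_neg hy, if_neg]
    rintro ⟨h1, h2⟩
    exact hy ((ny_cfg u).2 ⟨fun i => (h1 i).ny, h2⟩)

end Pool.Agent.ROT.E.Hx
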