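import Pool.Agent.ROT.EDefs
import Pool.Agent.HexObs.Rot

/-!
# ROT, row E8 (first part): the honeycomb bonds of a configuration and the walk along them

The square vertex `(c, r)` is the pair of the white honeycomb vertex `wh (c, r) = (c - r, c + 2 r)` (sides W, S) and
the black one `bk (c, r) = wh (c, r) + (0, 1)` (sides E, N), coordinates of `HexObs.Pt`.
-/

set_option autoImplicit false

namespace Pool.Agent.ROT.E.Hx

open Pool.Agent.YBC (Dir)

/-- the six directed bonds of a square vertex: `ww`, `ss`, `ii` (inner bond) start at the white vertex, `ee`, `nn`,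
`jj` (inner bond) at the black one -/
inductive Sx
  | ww | ss | ii | ee | nn | jj
  deriving DecidableEq

/-- the directed bonds of the honeycomb -/
abbrev Bo := Pt × Sx

/-- the reversed bond -/
def rev : Bo → Bo
  | (v, .ww) => ((v.1 - 1, v.2), .ee)
  | (v, .ss) => ((v.1, v.2 - 1), .nn)
  | (v, .ii) => (v, .jj)
  | (v, .ee) => ((v.1 + 1, v.2), .ww)
  | (v, .nn) => ((v.1, v.2 + 1), .ss)
  | (v, .jj) => (v, .ii)

/-- after the bond with the reverse `s`: the turn `b` (`true` = left) -/
def rt : Bool → Sx → Sx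
  | true, .ww => .ii
  | true, .ii => .ss
  | true, .ss => .ww
  | true, .ee => .jj
  | true, .jj => .nn
  | true, .nn => .ee
  | false, .ww => .ss
  | false, .ss => .ii
  | false, .ii => .ww
  | false, .ee => .nn
  | false, .nn => .jj
  | false, .jj => .ee

/-- the next bond -/
def tb (b : Bool) (e : Bo) : Bo := ((rev e).1, rt b (rev e).2)

/-- the white vertex -/
def wh (v : Pt) : HexObs.Pt := (v.1 - v.2, v.1 + 2 * v.2)

/-- the black vertex -/
def bk (v : Pt) : HexObs.Pt := (v.1 - v.2, v.1 + 2 * v.2 + 1)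

/-- the direction of a bond -/
def dr : Sx → HexObs.Pt
  | .ww => (-1, 0)
  | .ss => (1, -1)
  | .ii => (0, 1)
  | .ee => (1, 0)
  | .nn => (-1, 1)
  | .jj => (0, -1)

/-- white -/
def wi : Sx → Bool
  | .ww => true
  | .ss => true
  | .ii => true
  | _ => false

/-- the start of a bond -/
def st (e : Bo) : HexObs.Pt := if wi e.2 then wh e.1 else bk e.1

theorem rev_rev (e : Bo) : rev (rev e) = e := by
  obtain ⟨⟨a, b⟩, s⟩ := e
  cases s <;> simp [rev]

theorem rev_ne (e : Bo) : rev e ≠ e := by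
  obtain ⟨⟨a, b⟩, s⟩ := e
  cases s <;> simp [rev]

theorem rev_inj {e f : Bo} (h : rev e = rev f) : e = f := by
  rw [← rev_rev e, h, rev_rev]

theorem rt_rt (b : Bool) (s : Sx) : rt (!b) (rt b s) = s := by
  cases b <;> cases s <;> rfl

theorem rt_inj {b : Bool} {s s' : Sx} (h : rt b s = rt b s') : s = s' := by
  rw [← rt_rt b s, h, rt_rt]

theorem rt_ne (b : Bool) (s : Sx) : rt b s ≠ s := by
  cases b <;> cases s <;> decide

theorem rt_bne {b b' : Bool} {s : Sx} (h : rt b s = rt b' s) : b = b' := by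
  revert h
  cases b <;> cases b' <;> cases s <;> decide

theorem rt_wt (b : Bool) (s : Sx) : wi (rt b s) = wi s := by
  cases b <;> cases s <;> rfl

theorem rev_wt (e : Bo) : wi (rev e).2 = !wi e.2 := by
  obtain ⟨v, s⟩ := e
  cases s <;> rfl

theorem tb_ne_rev (b : Bool) (e : Bo) : tb b e ≠ rev e := by
  intro h
  exact rt_ne b _ (congrArg Prod.snd h)

theorem tb_bne {b b' : Bool} {e : Bo} (h : tb b e = tb b' e) : b = b' := rt_bne (congrArg Prod.snd h)

theorem st_rev (e : Bo) : st (rev e) = st e + dr e.2 := by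
  obtain ⟨⟨a, b⟩, s⟩ := e
  cases s <;> apply Prod.ext <;> simp only [st, rev, wi, dr, wh, bk, Prod.fst_add, Prod.snd_add, if_true, if_false,
    Bool.false_eq_true] <;> omega

theorem dr_rev (e : Bo) : dr (rev e).2 = -dr e.2 := by
  obtain ⟨v, s⟩ := e
  cases s <;> rfl

theorem dr_rt (b : Bool) (s : Sx) : dr (rt b s) = HexObs.turn b (-dr s) := by
  cases b <;> cases s <;> rfl

theorem st_rt (b : Bool) (v : Pt) (s : Sx) : st (v, rt b s) = st (v, s) := by
  unfold st
  rw [rt_wt]

theorem st_tb (b : Bool) (e : Bo) : st (tb b e) = st e + dr e.2 := by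
  unfold tb
  rw [st_rt, ← st_rev]

theorem dr_tb (b : Bool) (e : Bo) : dr (tb b e).2 = HexObs.turn b (dr e.2) := by
  unfold tb
  rw [dr_rt, dr_rev, neg_neg]

theorem dr_inj {s s' : Sx} (h : dr s = dr s') : s = s' := by
  revert h
  cases s <;> cases s' <;> decide

theorem dr_mem (s : Sx) : dr s ∈ HexObs.dirs := by
  cases s <;> decide

theorem wh_inj {v v' : Pt} (h : wh v = wh v') : v = v' := by
  unfold wh at h
  rw [Prod.mk.injEq] at h
  obtain ⟨h1, h2⟩ := h
  apply Prod.ext <;> omega

theorem bk_inj {v v' : Pt} (h : bk v = bk v') : v = v' := by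
  unfold bk at h
  rw [Prod.mk.injEq] at h
  obtain ⟨h1, h2⟩ := h
  apply Prod.ext <;> omega

theorem wh_ne_bk (v v' : Pt) : wh v ≠ bk v' := by
  unfold wh bk
  intro h
  rw [Prod.mk.injEq] at h
  obtain ⟨h1, h2⟩ := h
  omega

/-- bonds with the same start have the same square vertex and colour -/
theorem st_eq {e f : Bo} : st e = st f ↔ e.1 = f.1 ∧ wi e.2 = wi f.2 := by
  unfold st
  constructor
  · intro h
    cases h1 : wi e.2 <;> cases h2 : wi f.2 <;> simp only [h1, h2, if_true, if_false, Bool.false_eq_true] at h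
    · exact ⟨bk_inj h, rfl⟩
    · exact absurd h.symm (wh_ne_bk _ _)
    · exact absurd h (wh_ne_bk _ _)
    · exact ⟨wh_inj h, rfl⟩
  · rintro ⟨h1, h2⟩
    rw [h1, h2]

/-- the bonds with the same start are the bond and its two rotations -/
theorem st_eq' {e f : Bo} (h : st e = st f) : f = e ∨ ∃ b, f = (e.1, rt b e.2) := by
  obtain ⟨h1, h2⟩ := st_eq.1 h
  obtain ⟨v, s⟩ := e
  obtain ⟨v', s'⟩ := f
  simp only at h1 h2
  subst h1
  revert h2
  cases s <;> cases s' <;> simp [wi, rt]

theorem bo_eq {e f : Bo} (h1 : st e = st f) (h2 : dr e.2 = dr f.2) : e = f :=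
  Prod.ext (st_eq.1 h1).1 (dr_inj h2)

/-! ### the used bonds -/

/-- the inner bond is used -/
def inn : Cell → Bool
  | .h => true
  | .v => true
  | .se => true
  | .nw => true
  | _ => false

/-- the bond is used -/
def us (c : Cell) : Sx → Bool
  | .ww => decide (c.oc .W)
  | .ss => decide (c.oc .S)
  | .ii => inn c
  | .ee => decide (c.oc .E)
  | .nn => decide (c.oc .N)
  | .jj => inn c

/-- **the used bonds** of a configuration -/
def ub (γ : Cfg) (e : Bo) : Prop := us (γ e.1) e.2 = true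

theorem us_xor {c : Cell} (hy : c ≠ .y) {s : Sx} (h : us c s = true) : us c (rt false s) = !us c (rt true s) := by
  revert h hy
  cases c <;> cases s <;> decide

theorem us_inj {c c' : Cell} (hy : c ≠ .y) (hy' : c' ≠ .y) (h : ∀ s, us c s = us c' s) : c = c' := by
  have h1 := h .ww
  have h2 := h .ss
  have h3 := h .ii
  have h4 := h .ee
  have h5 := h .nn
  revert h1 h2 h3 h4 h5 hy hy'
  cases c <;> cases c' <;> decide

/-- the half edge of an outer bond -/
def sd : Sx → Option Dir
  | .ww => some .W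
  | .ss => some .S
  | .ii => none
  | .ee => some .E
  | .nn => some .N
  | .jj => none

/-- the bond of a half edge -/
def bd : Dir → Sx
  | .W => .ww
  | .S => .ss
  | .E => .ee
  | .N => .nn

theorem us_bd (c : Cell) (d : Dir) : us c (bd d) = decide (c.oc d) := by
  cases d <;> rfl

theorem rev_bd (v : Pt) (d : Dir) : rev (v, bd d) = ((nx v d), bd d.op) := by
  cases d <;> rfl

theorem ub_bd {γ : Cfg} {h : He} : ub γ (h.1, bd h.2) ↔ oc γ h := by
  unfold ub oc
  rw [us_bd]
  simp

theorem bo_cases (e : Bo) : (∃ h : He, e = (h.1, bd h.2)) ∨ e.2 = .ii ∨ e.2 = .jj := by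
  obtain ⟨v, s⟩ := e
  cases s
  · exact Or.inl ⟨(v, .W), rfl⟩
  · exact Or.inl ⟨(v, .S), rfl⟩
  · exact Or.inr (Or.inl rfl)
  · exact Or.inl ⟨(v, .E), rfl⟩
  · exact Or.inl ⟨(v, .N), rfl⟩
  · exact Or.inr (Or.inr rfl)

theorem ub_rev {γ : Cfg} (m : Mt γ Set.univ) {e : Bo} : ub γ (rev e) ↔ ub γ e := by
  rcases bo_cases e with ⟨h, rfl⟩ | h | h
  · have h1 := m h trivial trivial
    rw [rev_bd]
    have e1 : ((nx h.1 h.2, bd h.2.op) : Bo) = ((rv h).1, bd (rv h).2) := rfl
    rw [e1, ub_bd, ub_bd]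
    exact h1.symm
  · obtain ⟨v, s⟩ := e
    simp only at h
    subst h
    exact Iff.rfl
  · obtain ⟨v, s⟩ := e
    simp only at h
    subst h
    exact Iff.rfl

/-- the turn after the bond `e` -/
def tn (γ : Cfg) (e : Bo) : Bool := us (γ (rev e).1) (rt true (rev e).2)

/-- the next bond of the walk along `γ` -/
def nxt (γ : Cfg) (e : Bo) : Bo := tb (tn γ e) e

/-- no cell `y` -/
def Ny (γ : Cfg) : Prop := ∀ v, γ v ≠ .y

variable {γ : Cfg}

/-- the next bond is used, the other one is not -/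
theorem ub_nxt (m : Mt γ Set.univ) (y : Ny γ) {e : Bo} (h : ub γ e) (b : Bool) : ub γ (tb b e) ↔ b = tn γ e := by
  have h1 : us (γ (rev e).1) (rev e).2 = true := (ub_rev m).2 h
  have h2 := us_xor (y _) h1
  unfold ub tb tn
  simp only
  cases b
  · rw [h2]
    cases us (γ (rev e).1) (rt true (rev e).2) <;> simp
  · cases us (γ (rev e).1) (rt true (rev e).2) <;> simp

theorem nxt_ub (m : Mt γ Set.univ) (y : Ny γ) {e : Bo} (h : ub γ e) : ub γ (nxt γ e) :=
  (ub_nxt m y h _).2 rfl

theorem st_nxt (e : Bo) : st (nxt γ e) = st e + dr e.2 := st_tb _ _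

theorem st_nxt' (e : Bo) : st (nxt γ e) = st (rev e) := by rw [st_nxt, st_rev]

/-- the used bonds with the same start as `rev e`: `rev e` and `nxt e` -/
theorem ub_st (m : Mt γ Set.univ) (y : Ny γ) {e f : Bo} (h : ub γ e) (hf : ub γ f) (hs : st (rev e) = st f) :
    f = rev e ∨ f = nxt γ e := by
  rcases st_eq' hs with h1 | ⟨b, h1⟩
  · exact Or.inl h1
  · right
    have h2 : f = tb b e := h1
    rw [h2] at hf ⊢
    have := (ub_nxt m y h b).1 hf
    rw [this]
    rfl

/-- walking back -/
theorem nxt_rev (m : Mt γ Set.univ) (y : Ny γ) {e : Bo} (h : ub γ e) : nxt γ (rev (nxt γ e)) = rev e := by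
  have h1 := nxt_ub m y h
  have h2 : ub γ (rev (nxt γ e)) := (ub_rev m).2 h1
  have h3 : st (rev (rev (nxt γ e))) = st (rev e) := by rw [rev_rev, st_nxt']
  rcases ub_st m y h2 ((ub_rev m).2 h) h3 with h4 | h4
  · rw [rev_rev] at h4
    exact absurd h4.symm (tb_ne_rev _ _)
  · exact h4.symm

theorem nxt_inj (m : Mt γ Set.univ) (y : Ny γ) {e f : Bo} (h : ub γ e) (hf : ub γ f) (he : nxt γ e = nxt γ f) :
    e = f := by
  have h1 := nxt_rev m y h
  rw [he, nxt_rev m y hf] at h1
  exact (rev_inj h1).symm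

theorem it_ub (m : Mt γ Set.univ) (y : Ny γ) {e : Bo} (h : ub γ e) (k : ℕ) : ub γ ((nxt γ)^[k] e) := by
  induction k with
  | zero => exact h
  | succ k ih =>
    rw [Function.iterate_succ_apply']
    exact nxt_ub m y ih

theorem it_inj (m : Mt γ Set.univ) (y : Ny γ) {e f : Bo} (h : ub γ e) (hf : ub γ f) (k : ℕ)
    (he : (nxt γ)^[k] e = (nxt γ)^[k] f) : e = f := by
  induction k with
  | zero => exact he
  | succ k ih =>
    rw [Function.iterate_succ_apply', Function.iterate_succ_apply'] at he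
    exact ih (nxt_inj m y (it_ub m y h k) (it_ub m y hf k) he)

/-- the walk never meets the reverse of its bonds -/
theorem it_ne_rev (m : Mt γ Set.univ) (y : Ny γ) (k : ℕ) : ∀ {e : Bo}, ub γ e → (nxt γ)^[k] e ≠ rev e := by
  induction k using Nat.strong_induction_on with
  | _ k ih =>
    intro e h he
    match k, ih, he with
    | 0, _, he => exact rev_ne e he.symm
    | 1, _, he => exact tb_ne_rev _ _ he
    | k + 2, ih, he =>
      have hf := nxt_ub m y h
      rw [Function.iterate_succ_apply, ← nxt_rev m y h, Function.iterate_succ_apply'] at he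
      exact ih k (by omega) hf (nxt_inj m y (it_ub m y hf k) ((ub_rev m).2 hf) he)

end Pool.Agent.ROT.E.Hx
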