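import Pool.Agent.ROT.EHexA

/-!
# ROT, row E8 (second part): the closed walk along a loop
-/

set_option autoImplicit false

namespace Pool.Agent.ROT.E.Hx

open Pool.Agent.YBC (Dir)

variable {γ : Cfg}

/-- the word of the turns along `γ` from the bond `e` -/
def wd (γ : Cfg) (e : Bo) (n : ℕ) : List Bool := (List.range n).map fun i => tn γ ((nxt γ)^[i] e)

theorem wd_len (γ : Cfg) (e : Bo) (n : ℕ) : (wd γ e n).length = n := by
  simp [wd]

theorem tf_wd (γ : Cfg) (e : Bo) {n i : ℕ} (h : i < n) : HexObs.tf (wd γ e n) i = tn γ ((nxt γ)^[i] e) := by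
  unfold HexObs.tf
  rw [List.getD_eq_getElem _ _ (by rw [wd_len]; exact h)]
  simp [wd]

theorem dx_wd (γ : Cfg) (e : Bo) {n : ℕ} : ∀ {i : ℕ}, i ≤ n → HexObs.dx (dr e.2) (wd γ e n) i =
    dr ((nxt γ)^[i] e).2
  | 0, _ => rfl
  | i + 1, h => by
    have ih := dx_wd γ e (n := n) (i := i) (by omega)
    unfold HexObs.dx at ih ⊢
    rw [HexObs.ds_succ, ih, tf_wd γ e (by omega), Function.iterate_succ_apply']
    exact (dr_tb _ _).symm

theorem vx_wd (γ : Cfg) (e : Bo) {n : ℕ} : ∀ {i : ℕ}, i ≤ n + 1 → HexObs.vx (st e) (dr e.2) (wd γ e n) i =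
    st ((nxt γ)^[i] e)
  | 0, _ => rfl
  | i + 1, h => by
    have ih := vx_wd γ e (n := n) (i := i) (by omega)
    have h2 := dx_wd γ e (n := n) (i := i) (by omega)
    unfold HexObs.dx at h2
    unfold HexObs.vx at ih ⊢
    rw [HexObs.vs_succ, ih, h2, Function.iterate_succ_apply']
    exact (st_nxt _).symm

/-! ### the period -/

/-- all directions -/
def sxs : Finset Sx := {.ww, .ss, .ii, .ee, .nn, .jj}

theorem mem_sxs (s : Sx) : s ∈ sxs := by
  cases s <;> decide

theorem ub_supp {e : Bo} (h : ub γ e) : e.1 ∈ γ.support := by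
  rw [Finsupp.mem_support_iff]
  intro h0
  unfold ub at h
  rw [h0] at h
  revert h
  cases e.2 <;> decide

theorem ub_fin (γ : Cfg) : {e : Bo | ub γ e}.Finite := by
  refine (Finset.finite_toSet (γ.support ×ˢ sxs)).subset fun e h => ?_
  rw [Finset.mem_coe, Finset.mem_product]
  exact ⟨ub_supp h, mem_sxs _⟩

theorem per (m : Mt γ Set.univ) (y : Ny γ) {e : Bo} (h : ub γ e) : e ∈ Function.periodicPts (nxt γ) := by
  have h1 : ¬ Function.Injective fun k : ℕ => (⟨(nxt γ)^[k] e, it_ub m y h k⟩ : {e : Bo // ub γ e}) := by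
    intro hi
    have : Finite {e : Bo // ub γ e} := (ub_fin γ).to_subtype
    exact not_injective_infinite_finite _ hi
  unfold Function.Injective at h1
  push Not at h1
  obtain ⟨a, b, h2, h3⟩ := h1
  have h4 : (nxt γ)^[a] e = (nxt γ)^[b] e := congrArg Subtype.val h2
  rcases lt_or_gt_of_ne h3 with h5 | h5
  · refine ⟨b - a, by omega, ?_⟩
    have h6 : (nxt γ)^[a] ((nxt γ)^[b - a] e) = (nxt γ)^[a] e := by
      rw [← Function.iterate_add_apply, Nat.add_sub_cancel' h5.le, h4]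
    exact it_inj m y (it_ub m y h _) h a h6
  · refine ⟨a - b, by omega, ?_⟩
    have h6 : (nxt γ)^[b] ((nxt γ)^[a - b] e) = (nxt γ)^[b] e := by
      rw [← Function.iterate_add_apply, Nat.add_sub_cancel' h5.le, h4]
    exact it_inj m y (it_ub m y h _) h b h6

/-- the number of bonds of the closed walk -/
noncomputable def pd (γ : Cfg) (e : Bo) : ℕ := Function.minimalPeriod (nxt γ) e

theorem pd_pos (m : Mt γ Set.univ) (y : Ny γ) {e : Bo} (h : ub γ e) : 0 < pd γ e :=
  Function.minimalPeriod_pos_of_mem_periodicPts (per m y h)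

theorem it_pd (γ : Cfg) (e : Bo) : (nxt γ)^[pd γ e] e = e := Function.iterate_minimalPeriod

/-- a vertex is visited once in a period -/
theorem st_it (m : Mt γ Set.univ) (y : Ny γ) {f : Bo} (h : ub γ f) {k : ℕ} (hs : st ((nxt γ)^[k] f) = st f) :
    (nxt γ)^[k] f = f := by
  cases k with
  | zero => rfl
  | succ k =>
    rw [Function.iterate_succ_apply'] at hs ⊢
    have h1 := it_ub m y h k
    have h2 : st (rev ((nxt γ)^[k] f)) = st f := by rw [← hs, st_nxt']
    rcases ub_st m y h1 h h2 with h3 | h3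
    · exact absurd (rev_inj (by rw [rev_rev]; exact h3.symm)) (it_ne_rev m y k h)
    · exact h3.symm

theorem st_inj (m : Mt γ Set.univ) (y : Ny γ) {e : Bo} (h : ub γ e) {i k : ℕ} (hi : i < pd γ e) (hk : k < pd γ e)
    (hs : st ((nxt γ)^[i] e) = st ((nxt γ)^[k] e)) : i = k := by
  have key : ∀ a b : ℕ, a < b → b < pd γ e → st ((nxt γ)^[a] e) ≠ st ((nxt γ)^[b] e) := by
    intro a b hab hb he
    have h1 := it_ub m y h a
    have h2 : (nxt γ)^[b - a] ((nxt γ)^[a] e) = (nxt γ)^[b] e := by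
      rw [← Function.iterate_add_apply, Nat.sub_add_cancel hab.le]
    have h3 := st_it m y h1 (k := b - a) (by rw [h2, he])
    rw [h2] at h3
    have := Function.iterate_injOn_Iio_minimalPeriod (f := nxt γ) (x := e) (Set.mem_Iio.2 hb)
      (Set.mem_Iio.2 (hab.trans hb)) h3
    omega
  rcases lt_trichotomy i k with h1 | h1 | h1
  · exact absurd hs (key i k h1 hk)
  · exact h1
  · exact absurd hs.symm (key k i h1 hi)

/-! ### closed words -/

/-- a closed self-avoiding word started at `v0` in the direction `d0` -/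
structure CW (v0 d0 : HexObs.Pt) (t : List Bool) : Prop where
  ne : t ≠ []
  vx : HexObs.vx v0 d0 t t.length = v0
  dx : HexObs.dx d0 t t.length = d0
  inj : ∀ i j, i < t.length → j < t.length → HexObs.vx v0 d0 t i = HexObs.vx v0 d0 t j → i = j

/-- the root is not important -/
theorem CW.root {v0 d0 v1 d1 : HexObs.Pt} (h0 : d0 ∈ HexObs.dirs) (h1 : d1 ∈ HexObs.dirs) {t : List Bool}
    (h : CW v0 d0 t) : CW v1 d1 t := by
  have e0 := HexObs.rotTo_apply d1 h0
  have hn := HexObs.nrm_rotTo h0 h1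
  have hz : HexObs.mulE (HexObs.rotTo d0 d1) (0 : HexObs.Pt) = 0 := by simp [HexObs.mulE]
  have hv : ∀ i, HexObs.vx v1 d1 t i = v1 + HexObs.mulE (HexObs.rotTo d0 d1) (HexObs.vx v0 d0 t i - v0) := by
    intro i
    have := HexObs.vx_mulE (HexObs.rotTo d0 d1) v0 v1 d0 t i
    rwa [e0] at this
  have hd : ∀ i, HexObs.dx d1 t i = HexObs.mulE (HexObs.rotTo d0 d1) (HexObs.dx d0 t i) := by
    intro i
    have := HexObs.dx_mulE (HexObs.rotTo d0 d1) d0 t i
    rwa [e0] at this
  refine ⟨h.ne, ?_, ?_, ?_⟩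
  · rw [hv, h.vx, sub_self, hz, add_zero]
  · rw [hd, h.dx, e0]
  · intro i j hi hj hij
    rw [hv, hv] at hij
    exact h.inj i j hi hj (sub_left_injective (HexObs.mulE_inj hn (add_left_cancel hij)))

/-- **the word of a loop is closed and self-avoiding** -/
theorem cw_wd (m : Mt γ Set.univ) (y : Ny γ) {e : Bo} (h : ub γ e) : CW (st e) (dr e.2) (wd γ e (pd γ e)) := by
  have hp := pd_pos m y h
  refine ⟨?_, ?_, ?_, ?_⟩
  · intro h0
    have := congrArg List.length h0
    rw [wd_len] at this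
    simp only [List.length_nil] at this
    omega
  · rw [wd_len, vx_wd γ e (by omega), it_pd]
  · rw [wd_len, dx_wd γ e le_rfl, it_pd]
  · intro i j hi hj hij
    rw [wd_len] at hi hj
    rw [vx_wd γ e (by omega), vx_wd γ e (by omega)] at hij
    exact st_inj m y h hi hj hij

/-! ### the walk visits the whole loop -/

/-- the bonds of the orbit of `e` and their reverses -/
def Ob (γ : Cfg) (e f : Bo) : Prop := ∃ k, f = (nxt γ)^[k] e ∨ rev f = (nxt γ)^[k] e

theorem ob_rev {e f : Bo} : Ob γ e (rev f) ↔ Ob γ e f := by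
  unfold Ob
  constructor
  · rintro ⟨k, h | h⟩
    · exact ⟨k, Or.inr h⟩
    · rw [rev_rev] at h
      exact ⟨k, Or.inl h⟩
  · rintro ⟨k, h | h⟩
    · exact ⟨k, Or.inr (by rw [rev_rev]; exact h)⟩
    · exact ⟨k, Or.inl h⟩

theorem ob_nxt (m : Mt γ Set.univ) (y : Ny γ) {e f : Bo} (he : ub γ e) (h : Ob γ e f) : Ob γ e (nxt γ f) := by
  obtain ⟨k, h | h⟩ := h
  · exact ⟨k + 1, Or.inl (by rw [h, Function.iterate_succ_apply'])⟩
  · have hp := pd_pos m y he
    obtain ⟨k', hk'⟩ : ∃ k', rev f = (nxt γ)^[k' + 1] e := by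
      cases k with
      | zero =>
        refine ⟨pd γ e - 1, ?_⟩
        rw [Nat.sub_add_cancel hp, it_pd, h]
        rfl
      | succ k => exact ⟨k, h⟩
    rw [Function.iterate_succ_apply'] at hk'
    refine ⟨k', Or.inr ?_⟩
    have h1 := nxt_rev m y (it_ub m y he k')
    rw [← hk', rev_rev] at h1
    rw [h1, rev_rev]

theorem ob_nxt' (m : Mt γ Set.univ) (y : Ny γ) {e f : Bo} (he : ub γ e) (hf : ub γ f) (h : Ob γ e (nxt γ f)) :
    Ob γ e f := by
  have h1 := ob_nxt m y he (ob_rev.2 h)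
  rw [nxt_rev m y hf] at h1
  exact ob_rev.1 h1

/-- the next bond after the reverse of a bond, in the cell -/
theorem nxt_loc (γ : Cfg) (v : Pt) (s : Sx) : nxt γ (rev (v, s)) = (v, rt (us (γ v) (rt true s)) s) := by
  unfold nxt tb tn
  rw [rev_rev]

theorem nxt_ii (γ : Cfg) (v : Pt) : nxt γ (v, .ii) = (v, rt (us (γ v) .nn) .jj) := rfl

theorem nxt_jj (γ : Cfg) (v : Pt) : nxt γ (v, .jj) = (v, rt (us (γ v) .ss) .ii) := rfl

/-- through a vertex: one or two steps -/
theorem vp_nxt (y : Ny γ) {h : He} (o : oc γ h) :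
    nxt γ (rev (h.1, bd h.2)) = ((vp γ h).1, bd (vp γ h).2) ∨
      nxt γ (nxt γ (rev (h.1, bd h.2))) = ((vp γ h).1, bd (vp γ h).2) := by
  obtain ⟨v, d⟩ := h
  have hy := y v
  unfold oc at o
  unfold vp
  simp only at o ⊢
  rw [nxt_loc]
  generalize hc : γ v = c at o hy ⊢
  revert o hy
  cases c <;> cases d <;> intro o hy <;> first
    | exact absurd rfl hy
    | exact absurd o (by decide)
    | exact Or.inl rfl
    | exact Or.inr ((congrArg (nxt γ) (show _ = ((v, .ii) : Bo) from rfl)).trans (by rw [nxt_ii, hc]; rfl))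
    | exact Or.inr ((congrArg (nxt γ) (show _ = ((v, .jj) : Bo) from rfl)).trans (by rw [nxt_jj, hc]; rfl))

/-- the bonds of the half edges of a link -/
theorem lk_ob (m : Mt γ Set.univ) (y : Ny γ) {e : Bo} (he : ub γ e) {h k : He} (l : Lk γ Set.univ h k) :
    Ob γ e (h.1, bd h.2) ↔ Ob γ e (k.1, bd k.2) := by
  obtain ⟨o, -, rfl | ⟨rfl, -⟩⟩ := l
  · have hb : ub γ (h.1, bd h.2) := ub_bd.2 o
    have hr : ub γ (rev (h.1, bd h.2)) := (ub_rev m).2 hb
    rcases vp_nxt y o with h1 | h1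
    · rw [← h1]
      constructor
      · intro h2
        exact ob_nxt m y he (ob_rev.2 h2)
      · intro h2
        exact ob_rev.1 (ob_nxt' m y he hr h2)
    · rw [← h1]
      constructor
      · intro h2
        exact ob_nxt m y he (ob_nxt m y he (ob_rev.2 h2))
      · intro h2
        exact ob_rev.1 (ob_nxt' m y he hr (ob_nxt' m y he (nxt_ub m y hr) h2))
  · have e1 : (((rv h).1, bd (rv h).2) : Bo) = rev (h.1, bd h.2) := by
      rw [rev_bd]
      rfl
    rw [e1, ob_rev]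

theorem cn_ob (m : Mt γ Set.univ) (y : Ny γ) {e : Bo} (he : ub γ e) {h k : He} (l : Cn γ Set.univ h k) :
    Ob γ e (h.1, bd h.2) ↔ Ob γ e (k.1, bd k.2) := by
  induction l with
  | rel a b h => exact lk_ob m y he h
  | refl a => exact Iff.rfl
  | symm a b _ ih => exact ih.symm
  | trans a b c _ _ ih1 ih2 => exact ih1.trans ih2

/-- an inner bond is followed by an outer bond -/
theorem nxt_out (γ : Cfg) {e : Bo} (h : e.2 = .ii ∨ e.2 = .jj) : ∃ k : He, nxt γ e = (k.1, bd k.2) := by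
  obtain ⟨v, s⟩ := e
  simp only at h
  rcases h with rfl | rfl
  · rw [nxt_ii]
    cases us (γ v) .nn
    · exact ⟨(v, .E), rfl⟩
    · exact ⟨(v, .N), rfl⟩
  · rw [nxt_jj]
    cases us (γ v) .ss
    · exact ⟨(v, .W), rfl⟩
    · exact ⟨(v, .S), rfl⟩

/-- **every used bond is on the walk** -/
theorem all_ob (l : Lp γ) (y : Ny γ) {e f : Bo} (he : ub γ e) (hf : ub γ f) : Ob γ e f := by
  have m := l.mt
  -- an outer bond of the orbit
  obtain ⟨k0, o0, hk0⟩ : ∃ k : He, oc γ k ∧ Ob γ e (k.1, bd k.2) := by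
    have h0 : Ob γ e e := ⟨0, Or.inl rfl⟩
    rcases bo_cases e with ⟨h, h1⟩ | h
    · refine ⟨h, ub_bd.1 (h1 ▸ he), h1 ▸ h0⟩
    · obtain ⟨k, hk⟩ := nxt_out γ h
      refine ⟨k, ub_bd.1 (hk ▸ nxt_ub m y he), hk ▸ ob_nxt m y he h0⟩
  have out : ∀ k : He, oc γ k → Ob γ e (k.1, bd k.2) := fun k ok => (cn_ob m y he (l.cn k0 k o0 ok)).1 hk0
  rcases bo_cases f with ⟨h, h1⟩ | h
  · rw [h1]
    exact out h (ub_bd.1 (h1 ▸ hf))
  · obtain ⟨k, hk⟩ := nxt_out γ h
    apply ob_nxt' m y he hf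
    rw [hk]
    exact out k (ub_bd.1 (hk ▸ nxt_ub m y hf))

/-- the used bonds, in one period -/
theorem ub_iff (l : Lp γ) (y : Ny γ) {e f : Bo} (he : ub γ e) :
    ub γ f ↔ ∃ k, k < pd γ e ∧ (f = (nxt γ)^[k] e ∨ rev f = (nxt γ)^[k] e) := by
  constructor
  · intro hf
    obtain ⟨k, hk⟩ := all_ob l y he hf
    refine ⟨k % pd γ e, Nat.mod_lt _ (pd_pos l.mt y he), ?_⟩
    have : (nxt γ)^[k % pd γ e] e = (nxt γ)^[k] e := Function.iterate_mod_minimalPeriod_eq
    rw [this]
    exact hk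
  · rintro ⟨k, -, h | h⟩
    · rw [h]
      exact it_ub l.mt y he k
    · rw [← ub_rev l.mt, h]
      exact it_ub l.mt y he k

end Pool.Agent.ROT.E.Hx
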