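import Pool.Agent.ROT.EHexB
import Pool.Agent.ROT.ELab

/-!
# ROT, row E8 (third part): the loop of a closed word
-/

set_option autoImplicit false

namespace Pool.Agent.ROT.E.Hx

open Pool.Agent.YBC (Dir)

/-- the bond number `i` of the word `t` with the first bond `e` -/
def bt (e : Bo) (t : List Bool) : ℕ → Bo
  | 0 => e
  | i + 1 => tb (HexObs.tf t i) (bt e t i)

theorem dr_bt (e : Bo) (t : List Bool) (i : ℕ) : dr (bt e t i).2 = HexObs.dx (dr e.2) t i := by
  induction i with
  | zero => rfl
  | succ i ih =>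
    show dr (tb _ _).2 = _
    unfold HexObs.dx at ih ⊢
    rw [dr_tb, ih, HexObs.ds_succ]

theorem st_bt (e : Bo) (t : List Bool) (i : ℕ) : st (bt e t i) = HexObs.vx (st e) (dr e.2) t i := by
  induction i with
  | zero => rfl
  | succ i ih =>
    show st (tb _ _) = _
    have h2 := dr_bt e t i
    unfold HexObs.dx at h2
    unfold HexObs.vx at ih ⊢
    rw [st_tb, ih, h2, HexObs.vs_succ]

/-- the directed bonds of the word and their reverses -/
def Os (e : Bo) (t : List Bool) (f : Bo) : Prop := ∃ i, i < t.length ∧ (f = bt e t i ∨ rev f = bt e t i)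

theorem os_rev {e f : Bo} {t : List Bool} : Os e t (rev f) ↔ Os e t f := by
  unfold Os
  constructor
  · rintro ⟨k, hk, h | h⟩
    · exact ⟨k, hk, Or.inr h⟩
    · rw [rev_rev] at h
      exact ⟨k, hk, Or.inl h⟩
  · rintro ⟨k, hk, h | h⟩
    · exact ⟨k, hk, Or.inr (by rw [rev_rev]; exact h)⟩
    · exact ⟨k, hk, Or.inl h⟩

variable {e : Bo} {t : List Bool}

theorem bt_len (h : CW (st e) (dr e.2) t) : bt e t t.length = e := by
  apply bo_eq
  · rw [st_bt, h.vx]
  · rw [dr_bt, h.dx]

theorem bt_inj (h : CW (st e) (dr e.2) t) {i j : ℕ} (hi : i < t.length) (hj : j < t.length)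
    (hij : st (bt e t i) = st (bt e t j)) : i = j := by
  rw [st_bt, st_bt] at hij
  exact h.inj i j hi hj hij

theorem os_bt (h : CW (st e) (dr e.2) t) {i : ℕ} (hi : i ≤ t.length) : Os e t (bt e t i) := by
  rcases hi.lt_or_eq with h1 | rfl
  · exact ⟨i, h1, Or.inl rfl⟩
  · refine ⟨0, List.length_pos_iff.2 h.ne, Or.inl ?_⟩
    rw [bt_len h]
    rfl

/-- at the start of the reverse of a bond of the walk: the reverse and the next bond, nothing else -/
theorem os_st (h : CW (st e) (dr e.2) t) {i : ℕ} (hi : i < t.length) {f : Bo} (hf : Os e t f)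
    (hs : st f = st (rev (bt e t i))) : f = rev (bt e t i) ∨ f = bt e t (i + 1) := by
  have h0 : 0 < t.length := List.length_pos_iff.2 h.ne
  have hs' : st f = st (bt e t (i + 1)) := by
    rw [hs]
    show _ = st (tb _ _)
    rw [st_tb, st_rev]
  obtain ⟨k, hk, rfl | h1⟩ := hf
  · right
    rcases Nat.lt_or_ge (i + 1) t.length with h2 | h2
    · rw [bt_inj h hk h2 hs']
    · have h3 : i + 1 = t.length := by omega
      rw [h3, bt_len h] at hs' ⊢
      have := bt_inj h hk h0 hs'
      rw [this]
      rfl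
  · left
    have h2 : f = rev (bt e t k) := by rw [← h1, rev_rev]
    rw [h2] at hs' ⊢
    have h3 : st (bt e t (k + 1)) = st (bt e t (i + 1)) := by
      rw [← hs']
      show st (tb _ _) = _
      rw [st_tb, st_rev]
    have h4 : k = i := by
      rcases Nat.lt_or_ge (i + 1) t.length with h5 | h5
      · rcases Nat.lt_or_ge (k + 1) t.length with h6 | h6
        · have := bt_inj h h6 h5 h3
          omega
        · have h7 : k + 1 = t.length := by omega
          rw [h7, bt_len h] at h3
          have := bt_inj h h0 h5 h3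
          omega
      · have h7 : i + 1 = t.length := by omega
        rcases Nat.lt_or_ge (k + 1) t.length with h6 | h6
        · rw [h7, bt_len h] at h3
          have := bt_inj h h6 h0 h3
          omega
        · omega
    rw [h4]

/-- the degree of a used vertex is two -/
theorem os_xor (h : CW (st e) (dr e.2) t) {f : Bo} (hf : Os e t f) :
    ∃ b : Bool, ∀ b' : Bool, Os e t (f.1, rt b' f.2) ↔ b' = b := by
  have h0 : 0 < t.length := List.length_pos_iff.2 h.ne
  have key : ∀ i, i < t.length → ∀ b', Os e t ((rev (bt e t i)).1, rt b' (rev (bt e t i)).2) ↔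
      b' = HexObs.tf t i := by
    intro i hi b'
    constructor
    · intro h1
      rcases os_st h hi h1 (st_rt _ _ _) with h2 | h2
      · exact absurd (congrArg Prod.snd h2) (rt_ne _ _)
      · exact rt_bne (congrArg Prod.snd h2)
    · rintro rfl
      exact os_bt h (i := i + 1) hi
  obtain ⟨i, hi, h1 | h1⟩ := hf
  · -- f = bt i: it follows bt (i - 1)
    obtain ⟨k, hk, hk'⟩ : ∃ k, k < t.length ∧ bt e t i = bt e t (k + 1) := by
      cases i with
      | zero =>
        refine ⟨t.length - 1, by omega, ?_⟩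
        rw [Nat.sub_add_cancel h0, bt_len h]
        rfl
      | succ i => exact ⟨i, by omega, rfl⟩
    have h2 : f = ((rev (bt e t k)).1, rt (HexObs.tf t k) (rev (bt e t k)).2) := by
      rw [h1, hk']
      rfl
    refine ⟨!(HexObs.tf t k), fun b' => ?_⟩
    rw [h2]
    simp only
    -- two bonds of the three are used
    have h3 : Os e t (rev (bt e t k)) := os_rev.2 ⟨k, hk, Or.inl rfl⟩
    have hc : ∀ (b : Bool) (s : Sx), rt b (rt b s) = rt (!b) s := by
      intro b s
      cases b <;> cases s <;> rfl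
    rcases Bool.eq_or_eq_not b' (HexObs.tf t k) with rfl | rfl
    · rw [hc]
      constructor
      · intro h4
        have := (key k hk _).1 h4
        exact this.symm
      · intro h4
        exact (key k hk _).2 h4.symm
    · rw [rt_rt]
      exact ⟨fun _ => rfl, fun _ => h3⟩
  · have h2 : f = rev (bt e t i) := by rw [← h1, rev_rev]
    refine ⟨HexObs.tf t i, fun b' => ?_⟩
    rw [h2]
    exact key i hi b'

/-! ### the cell of a pattern of bonds -/

/-- the cell with the given used bonds -/
def ce (P : Sx → Bool) : Cell :=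
  if P .ii then (if P .ww then (if P .ee then .h else .nw) else (if P .ee then .se else .v))
  else (if P .ww then (if P .ee then .x else .sw) else (if P .ee then .ne else .o))

theorem ce_us {P : Sx → Bool} (h0 : P .ii = P .jj) (h : ∀ s, P s = true → P (rt false s) = !P (rt true s)) (s : Sx) :
    us (ce P) s = P s := by
  have h1 := h .ww
  have h2 := h .ss
  have h3 := h .ii
  have h4 := h .ee
  have h5 := h .nn
  have h6 := h .jj
  simp only [rt] at h1 h2 h3 h4 h5 h6
  have hS : P .ss = xor (P .ww) (P .ii) := by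
    revert h1 h2 h3
    cases P .ww <;> cases P .ss <;> cases P .ii <;> decide
  have hN : P .nn = xor (P .ee) (P .ii) := by
    rw [h0]
    revert h4 h5 h6
    cases P .ee <;> cases P .nn <;> cases P .jj <;> decide
  unfold ce
  cases s
  · cases P .ww <;> cases P .ii <;> cases P .ee <;> decide
  · rw [hS]
    cases P .ww <;> cases P .ii <;> cases P .ee <;> decide
  · cases P .ww <;> cases P .ii <;> cases P .ee <;> decide
  · cases P .ww <;> cases P .ii <;> cases P .ee <;> decide
  · rw [hN]
    cases P .ww <;> cases P .ii <;> cases P .ee <;> decide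
  · rw [← h0]
    cases P .ww <;> cases P .ii <;> cases P .ee <;> decide

theorem ce_ny {P : Sx → Bool} : ce P ≠ .y := by
  unfold ce
  split_ifs <;> decide

open Classical in
/-- the cell of the word at `v` -/
noncomputable def cel (e : Bo) (t : List Bool) (v : Pt) : Cell := ce fun s => decide (Os e t (v, s))

theorem cel_o {v : Pt} (h : ∀ s, ¬ Os e t (v, s)) : cel e t v = .o := by
  unfold cel ce
  simp [h]

/-- **the loop of a closed word** -/
noncomputable def lpw (e : Bo) (t : List Bool) : Cfg :=
  Finsupp.onFinset ((Finset.range t.length).image (fun i => (bt e t i).1) ∪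
    (Finset.range t.length).image (fun i => (rev (bt e t i)).1)) (cel e t) (by
    intro v hv
    by_contra hc
    apply hv
    apply cel_o
    rintro s ⟨i, hi, h | h⟩
    · apply hc
      rw [Finset.mem_union, Finset.mem_image]
      exact Or.inl ⟨i, Finset.mem_range.2 hi, by rw [← h]⟩
    · apply hc
      rw [Finset.mem_union, Finset.mem_image, Finset.mem_image]
      refine Or.inr ⟨i, Finset.mem_range.2 hi, ?_⟩
      rw [← h, rev_rev])

theorem lpw_apply (v : Pt) : lpw e t v = cel e t v := rfl

theorem ny_lpw (e : Bo) (t : List Bool) : Ny (lpw e t) := by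
  intro v
  rw [lpw_apply]
  exact ce_ny

/-- **the used bonds of the loop of a word** -/
theorem ub_lpw (h : CW (st e) (dr e.2) t) (f : Bo) : ub (lpw e t) f ↔ Os e t f := by
  classical
  unfold ub
  rw [lpw_apply]
  unfold cel
  rw [ce_us]
  · simp
  · have : Os e t (f.1, .ii) ↔ Os e t (f.1, .jj) := (os_rev (f := (f.1, .ii))).symm
    simp only [this]
  · intro s hs
    rw [decide_eq_true_eq] at hs
    obtain ⟨b, hb⟩ := os_xor h hs
    simp only at hb
    have h1 := hb true
    have h2 := hb false
    cases b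
    · have h3 : Os e t (f.1, rt false s) := h2.2 rfl
      have h4 : ¬ Os e t (f.1, rt true s) := fun h5 => absurd (h1.1 h5) (by decide)
      simp [h3, h4]
    · have h3 : Os e t (f.1, rt true s) := h1.2 rfl
      have h4 : ¬ Os e t (f.1, rt false s) := fun h5 => absurd (h2.1 h5) (by decide)
      simp [h3, h4]

theorem mt_lpw (h : CW (st e) (dr e.2) t) : Mt (lpw e t) Set.univ := by
  intro k _ _
  rw [← ub_bd, ← ub_bd, ub_lpw h, ub_lpw h]
  have e1 : (((rv k).1, bd (rv k).2) : Bo) = rev (k.1, bd k.2) := by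
    rw [rev_bd]
    rfl
  rw [e1, os_rev]

theorem nxt_lpw (h : CW (st e) (dr e.2) t) {i : ℕ} (hi : i < t.length) : nxt (lpw e t) (bt e t i) = bt e t (i + 1) := by
  have h1 : ub (lpw e t) (bt e t i) := (ub_lpw h _).2 (os_bt h hi.le)
  have h2 : ub (lpw e t) (tb (HexObs.tf t i) (bt e t i)) := (ub_lpw h _).2 (os_bt h (i := i + 1) hi)
  have h3 := (ub_nxt (mt_lpw h) (ny_lpw e t) h1 _).1 h2
  unfold nxt
  rw [← h3]
  rfl

theorem it_lpw (h : CW (st e) (dr e.2) t) {i : ℕ} (hi : i ≤ t.length) : (nxt (lpw e t))^[i] e = bt e t i := by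
  induction i with
  | zero => rfl
  | succ i ih => rw [Function.iterate_succ_apply', ih (by omega), nxt_lpw h (by omega)]

theorem tn_lpw (h : CW (st e) (dr e.2) t) {i : ℕ} (hi : i < t.length) :
    tn (lpw e t) ((nxt (lpw e t))^[i] e) = HexObs.tf t i := by
  rw [it_lpw h hi.le]
  exact tb_bne (nxt_lpw h hi)

/-! ### connectivity -/

variable {γ : Cfg}

/-- half edges of a bond -/
def As (f : Bo) (h : He) : Prop := f = (h.1, bd h.2) ∨ rev f = (h.1, bd h.2) ∨ ((f.2 = .ii ∨ f.2 = .jj) ∧ h.1 = f.1)

theorem bd_inj {d d' : Dir} (h : bd d = bd d') : d = d' := by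
  revert h
  cases d <;> cases d' <;> decide

theorem bd_ni {d : Dir} : bd d ≠ .ii ∧ bd d ≠ .jj := by
  cases d <;> decide

theorem cn_refl (h : He) : Cn γ Set.univ h h := Relation.EqvGen.refl h

theorem cn_symm {h k : He} (l : Cn γ Set.univ h k) : Cn γ Set.univ k h := Relation.EqvGen.symm _ _ l

theorem cn_trans {h k l : He} (a : Cn γ Set.univ h k) (b : Cn γ Set.univ k l) : Cn γ Set.univ h l :=
  Relation.EqvGen.trans _ _ _ a b

theorem cn_rv {h : He} (o : oc γ h) : Cn γ Set.univ h (rv h) :=
  Relation.EqvGen.rel _ _ ⟨o, trivial, Or.inr ⟨rfl, trivial⟩⟩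

theorem cn_vp {h : He} (o : oc γ h) : Cn γ Set.univ h (vp γ h) :=
  Relation.EqvGen.rel _ _ ⟨o, trivial, Or.inl rfl⟩

/-- two used sides of a cell with the inner bond are the two ends of its passage -/
theorem inn_two {c : Cell} (h : inn c = true) {d d' : Dir} (o : c.oc d) (o' : c.oc d') : d' = d ∨ d' = c.p d := by
  revert h o o'
  cases c <;> cases d <;> cases d' <;> decide

/-- the side of the half edge, up to an edge -/
theorem as_cases {f : Bo} {h : He} (a : As f h) :
    (∃ k : He, f = (k.1, bd k.2) ∧ (h = k ∨ h = rv k)) ∨ ((f.2 = .ii ∨ f.2 = .jj) ∧ h.1 = f.1) := by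
  rcases a with a | a | a
  · exact Or.inl ⟨h, a, Or.inl rfl⟩
  · left
    refine ⟨rv h, ?_, Or.inr ?_⟩
    · rw [← rev_rev f, a, rev_bd]
      rfl
    · exact (Lab.rv_rv h).symm
  · exact Or.inr a

/-- the half edges of a bond are connected -/
theorem as_cn {f : Bo} (hf : ub γ f) {h k : He} (oh : oc γ h) (ok : oc γ k) (a : As f h) (b : As f k) :
    Cn γ Set.univ h k := by
  rcases as_cases a with ⟨x, hx, hx'⟩ | ⟨hi, ha⟩
  · have ox : oc γ x := ub_bd.1 (hx ▸ hf)
    have h1 : Cn γ Set.univ x h := by
      rcases hx' with rfl | rfl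
      · exact cn_refl _
      · exact cn_rv ox
    rcases as_cases b with ⟨z, hz, hz'⟩ | ⟨hi, -⟩
    · have e1 : x = z := by
        rw [hx] at hz
        obtain ⟨q1, q2⟩ := Prod.mk.inj hz
        exact Prod.ext q1 (bd_inj q2)
      subst e1
      have h2 : Cn γ Set.univ x k := by
        rcases hz' with rfl | rfl
        · exact cn_refl _
        · exact cn_rv ox
      exact cn_trans (cn_symm h1) h2
    · rw [hx] at hi
      rcases hi with hi | hi
      · exact absurd hi bd_ni.1
      · exact absurd hi bd_ni.2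
  · rcases as_cases b with ⟨z, hz, hz'⟩ | ⟨-, hb⟩
    · rw [hz] at hi
      rcases hi with hi | hi
      · exact absurd hi bd_ni.1
      · exact absurd hi bd_ni.2
    · have hn : inn (γ h.1) = true := by
        rw [ha]
        unfold ub at hf
        rcases hi with hi | hi <;> rw [hi] at hf <;> exact hf
      have e2 : k.1 = h.1 := hb.trans ha.symm
      have ok' : (γ h.1).oc k.2 := by
        have := ok
        unfold oc at this
        rwa [e2] at this
      rcases inn_two hn oh ok' with h3 | h3
      · rw [show k = h from Prod.ext e2 h3]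
        exact cn_refl _
      · rw [show k = vp γ h from Prod.ext e2 h3]
        exact cn_vp oh

/-- consecutive bonds have connected half edges -/
theorem as_nxt (m : Mt γ Set.univ) (y : Ny γ) {f : Bo} (hf : ub γ f) :
    ∃ h k : He, oc γ h ∧ oc γ k ∧ As f h ∧ As (nxt γ f) k ∧ Cn γ Set.univ h k := by
  have hn := nxt_ub m y hf
  rcases bo_cases f with ⟨x, hx⟩ | hi
  · -- an outer bond: arrive at `rv x`
    have ox : oc γ x := ub_bd.1 (hx ▸ hf)
    have ox' : oc γ (rv x) := (m x trivial trivial).1 ox
    have a1 : As f (rv x) := by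
      right; left
      rw [hx, rev_bd]
      rfl
    have e1 : nxt γ f = ((rv x).1, rt (us (γ (rv x).1) (rt true (bd (rv x).2))) (bd (rv x).2)) := by
      rw [← nxt_loc]
      congr 1
      have : (((rv x).1, bd (rv x).2) : Bo) = rev (x.1, bd x.2) := by
        rw [rev_bd]
        rfl
      rw [this, rev_rev, hx]
    rcases bo_cases (nxt γ f) with ⟨k, hk⟩ | hi
    · -- a turn at one honeycomb vertex
      refine ⟨rv x, k, ox', ub_bd.1 (hk ▸ hn), a1, Or.inl hk, ?_⟩
      have hv : k.1 = (rv x).1 := by
        rw [hk] at e1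
        exact (Prod.mk.inj e1).1
      have hd : bd k.2 = rt (us (γ (rv x).1) (rt true (bd (rv x).2))) (bd (rv x).2) := by
        rw [hk] at e1
        exact (Prod.mk.inj e1).2
      have : k = vp γ (rv x) := by
        refine Prod.ext hv ?_
        show k.2 = (γ (rv x).1).p (rv x).2
        have hy := y (rv x).1
        have o1 : (γ (rv x).1).oc (rv x).2 := ox'
        revert hd o1 hy
        generalize γ (rv x).1 = c
        generalize (rv x).2 = d
        generalize k.2 = d'
        cases c <;> cases d <;> cases d' <;> decide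
      rw [this]
      exact cn_vp ox'
    · refine ⟨rv x, rv x, ox', ox', a1, Or.inr (Or.inr ⟨hi, ?_⟩), cn_refl _⟩
      rw [e1]
  · obtain ⟨k, hk⟩ := nxt_out γ hi
    have ok : oc γ k := ub_bd.1 (hk ▸ hn)
    refine ⟨k, k, ok, ok, Or.inr (Or.inr ⟨hi, ?_⟩), Or.inl hk, cn_refl _⟩
    have h1 : (nxt γ f).1 = (rev f).1 := rfl
    rw [hk] at h1
    rw [show k.1 = (rev f).1 from h1]
    obtain ⟨v, s⟩ := f
    simp only at hi
    rcases hi with rfl | rfl <;> rfl

/-- the half edges of the walk are connected -/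
theorem it_cn (m : Mt γ Set.univ) (y : Ny γ) {e : Bo} (he : ub γ e) {x : He} (ox : oc γ x) (a : As e x) (i : ℕ) :
    ∀ h, oc γ h → As ((nxt γ)^[i] e) h → Cn γ Set.univ x h := by
  induction i with
  | zero => exact fun h oh ah => as_cn he ox oh a ah
  | succ i ih =>
    intro h oh ah
    rw [Function.iterate_succ_apply'] at ah
    obtain ⟨u, w, ou, ow, au, aw, c⟩ := as_nxt m y (it_ub m y he i)
    exact cn_trans (cn_trans (ih u ou au) c) (as_cn (nxt_ub m y (it_ub m y he i)) ow oh aw ah)

/-- **the configuration of a closed word is a loop** -/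
theorem lp_lpw {e : Bo} {t : List Bool} (h : CW (st e) (dr e.2) t) : Lp (lpw e t) := by
  have m := mt_lpw h
  have y := ny_lpw e t
  have he : ub (lpw e t) e := (ub_lpw h e).2 (os_bt h (i := 0) (Nat.zero_le _))
  obtain ⟨x, -, ox, -, ax, -, -⟩ := as_nxt m y he
  refine ⟨m, ?_, ?_⟩
  · intro h0
    unfold ub at he
    rw [h0] at he
    revert he
    show us Cell.o e.2 = true → False
    cases e.2 <;> decide
  · have key : ∀ k, oc (lpw e t) k → Cn (lpw e t) Set.univ x k := by
      intro k ok
      obtain ⟨i, hi, h1⟩ := (ub_lpw h _).1 (ub_bd.2 ok)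
      rw [← it_lpw h hi.le] at h1
      apply it_cn m y he ox ax i k ok
      rcases h1 with h1 | h1
      · exact Or.inl h1.symm
      · right; left
        rw [← h1, rev_rev]
    exact fun k l ok ol => cn_trans (cn_symm (key k ok)) (key l ol)

/-- the period of the loop of a word -/
theorem pd_lpw {e : Bo} {t : List Bool} (h : CW (st e) (dr e.2) t) : pd (lpw e t) e = t.length := by
  have m := mt_lpw h
  have y := ny_lpw e t
  have he : ub (lpw e t) e := (ub_lpw h e).2 (os_bt h (i := 0) (Nat.zero_le _))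
  have h0 : 0 < t.length := List.length_pos_iff.2 h.ne
  have h1 : Function.IsPeriodicPt (nxt (lpw e t)) t.length e := by
    show (nxt (lpw e t))^[t.length] e = e
    rw [it_lpw h le_rfl, bt_len h]
  have h2 : pd (lpw e t) e ≤ t.length := h1.minimalPeriod_le h0
  have h3 := pd_pos m y he
  rcases h2.lt_or_eq with h4 | h4
  · exfalso
    have h5 := it_pd (lpw e t) e
    rw [it_lpw h h2] at h5
    have := bt_inj h (i := pd (lpw e t) e) (j := 0) h4 h0 (by rw [h5]; rfl)
    omega
  · exact h4

/-- word -> loop -> word -/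
theorem wd_lpw {e : Bo} {t : List Bool} (h : CW (st e) (dr e.2) t) : wd (lpw e t) e (pd (lpw e t) e) = t := by
  rw [pd_lpw h]
  apply List.ext_getElem
  · rw [wd_len]
  · intro i h1 h2
    rw [wd_len] at h1
    have h3 := tf_wd (lpw e t) e h1
    rw [tn_lpw h h1] at h3
    unfold HexObs.tf at h3
    rw [List.getD_eq_getElem _ _ (by rw [wd_len]; exact h1), List.getD_eq_getElem _ _ h2] at h3
    exact h3

/-- a configuration is given by its bonds -/
theorem ub_ext {γ γ' : Cfg} (y : Ny γ) (y' : Ny γ') (h : ∀ f, ub γ f ↔ ub γ' f) : γ = γ' := by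
  ext v
  apply us_inj (y v) (y' v)
  intro s
  have := h (v, s)
  unfold ub at this
  simp only at this
  cases h1 : us (γ v) s <;> cases h2 : us (γ' v) s <;> simp_all

/-- the bonds of the word of a loop -/
theorem bt_wd (γ : Cfg) (e : Bo) {n i : ℕ} (h : i ≤ n) : bt e (wd γ e n) i = (nxt γ)^[i] e := by
  apply bo_eq
  · rw [st_bt, vx_wd γ e (by omega)]
  · rw [dr_bt, dx_wd γ e h]

/-- loop -> word -> loop -/
theorem lpw_wd {γ : Cfg} (l : Lp γ) (y : Ny γ) {e : Bo} (he : ub γ e) : lpw e (wd γ e (pd γ e)) = γ := by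
  apply ub_ext (ny_lpw _ _) y
  intro f
  rw [ub_lpw (cw_wd l.mt y he), ub_iff l y he]
  unfold Os
  rw [wd_len]
  constructor
  · rintro ⟨i, hi, h⟩
    rw [bt_wd γ e hi.le] at h
    exact ⟨i, hi, h⟩
  · rintro ⟨i, hi, h⟩
    rw [← bt_wd γ e hi.le] at h
    exact ⟨i, hi, h⟩

end Pool.Agent.ROT.E.Hx
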