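import Pool.Agent.ROT.EHexS

/-!
# ROT, row E8: the symmetries of the honeycomb (D6 and translations) act on the loops
-/

set_option autoImplicit false

namespace Pool.Agent.ROT.E.Hx

open scoped ENNReal

/-- an automorphism of the honeycomb: a bijection of the directed bonds which commutes with the reversal, and with the
turns (`o = false`) or with the turns reflected (`o = true`) -/
structure Au where
  /-- the bonds -/
  b : Bo ≃ Bo
  /-- reflection -/
  o : Bool
  rev : ∀ e, b (rev e) = Hx.rev (b e)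
  tb : ∀ c e, b (tb c e) = Hx.tb (xor o c) (b e)

namespace Au

variable (A : Au)

/-- the action on the words -/
def wo (t : List Bool) : List Bool := t.map fun c => xor A.o c

theorem wo_len (t : List Bool) : (A.wo t).length = t.length := by
  simp [wo]

theorem tf_wo {t : List Bool} {i : ℕ} (h : i < t.length) : HexObs.tf (A.wo t) i = xor A.o (HexObs.tf t i) := by
  unfold HexObs.tf
  rw [List.getD_eq_getElem _ _ (by rw [wo_len]; exact h), List.getD_eq_getElem _ _ h]
  simp [wo]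

theorem bt_wo (e : Bo) (t : List Bool) {i : ℕ} (h : i ≤ t.length) : bt (A.b e) (A.wo t) i = A.b (bt e t i) := by
  induction i with
  | zero => rfl
  | succ i ih =>
    show Hx.tb _ _ = A.b (Hx.tb _ _)
    rw [ih (by omega), A.tf_wo (by omega), A.tb]

/-- bonds with the same start go to bonds with the same start -/
theorem st_b {e f : Bo} : st (A.b e) = st (A.b f) ↔ st e = st f := by
  have key : ∀ (c : Bool) (v : Pt) (s : Sx), A.b (v, rt c s) = ((A.b (v, s)).1, rt (xor A.o c) (A.b (v, s)).2) := by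
    intro c v s
    have h1 := A.tb c (Hx.rev (v, s))
    unfold Hx.tb at h1
    rw [rev_rev, A.rev, rev_rev] at h1
    exact h1
  constructor
  · intro h
    rcases st_eq' h with h1 | ⟨c, h1⟩
    · rw [A.b.injective h1]
    · have h2 : A.b f = A.b (e.1, rt (xor A.o c) e.2) := by
        rw [key, h1]
        have : xor A.o (xor A.o c) = c := by cases A.o <;> cases c <;> rfl
        rw [this]
      rw [A.b.injective h2, st_rt]
  · intro h
    rcases st_eq' h with h1 | ⟨c, h1⟩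
    · rw [h1]
    · rw [h1, key, st_rt]

/-- closed words go to closed words -/
theorem wo_cw {e : Bo} {t : List Bool} (h : CW (st e) (dr e.2) t) : CW (st (A.b e)) (dr (A.b e).2) (A.wo t) := by
  have h0 : 0 < t.length := List.length_pos_iff.2 h.ne
  refine ⟨?_, ?_, ?_, ?_⟩
  · intro h1
    have := congrArg List.length h1
    rw [wo_len] at this
    simp only [List.length_nil] at this
    omega
  · rw [wo_len, ← st_bt, A.bt_wo e t le_rfl, bt_len h]
  · rw [wo_len, ← dr_bt, A.bt_wo e t le_rfl, bt_len h]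
  · intro i j hi hj hij
    rw [wo_len] at hi hj
    rw [← st_bt, ← st_bt, A.bt_wo e t hi.le, A.bt_wo e t hj.le, A.st_b] at hij
    exact bt_inj h hi hj hij

open Classical in
/-- **the action on the configurations** -/
noncomputable def ac (γ : Cfg) : Cfg :=
  Finsupp.onFinset ((ub_fin γ).toFinset.image fun f => (A.b f).1)
    (fun v => ce fun s => decide (ub γ (A.b.symm (v, s)))) (by
      intro v hv
      by_contra hc
      apply hv
      have h : ∀ s, ¬ ub γ (A.b.symm (v, s)) := by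
        intro s hs
        apply hc
        rw [Finset.mem_image]
        exact ⟨A.b.symm (v, s), (Set.Finite.mem_toFinset _).2 hs, by rw [Equiv.apply_symm_apply]⟩
      show ce _ = Cell.o
      unfold ce
      simp [h])

open Classical in
theorem ac_apply (γ : Cfg) (v : Pt) : A.ac γ v = ce fun s => decide (ub γ (A.b.symm (v, s))) := rfl

theorem ny_ac (γ : Cfg) : Ny (A.ac γ) := fun v => by
  rw [ac_apply]
  exact ce_ny

/-- the loop of a word -/
theorem ac_lpw {e : Bo} {t : List Bool} (h : CW (st e) (dr e.2) t) : A.ac (lpw e t) = lpw (A.b e) (A.wo t) := by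
  classical
  have h' := A.wo_cw h
  have key : ∀ f, Os (A.b e) (A.wo t) (A.b f) ↔ Os e t f := by
    intro f
    unfold Os
    rw [wo_len]
    constructor
    · rintro ⟨i, hi, h1⟩
      rw [A.bt_wo e t hi.le, ← A.rev] at h1
      exact ⟨i, hi, h1.imp (fun h => A.b.injective h) (fun h => A.b.injective h)⟩
    · rintro ⟨i, hi, h1⟩
      refine ⟨i, hi, ?_⟩
      rw [A.bt_wo e t hi.le, ← A.rev]
      exact h1.imp (fun h => by rw [h]) (fun h => by rw [h])
  refine Finsupp.ext fun v => ?_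
  rw [ac_apply, lpw_apply, cel]
  congr 1
  funext s
  have h1 := key (A.b.symm (v, s))
  rw [Equiv.apply_symm_apply] at h1
  rw [decide_eq_decide, h1, ub_lpw h]

/-- **the bonds of the image** -/
theorem ub_ac {γ : Cfg} (l : HL γ) (f : Bo) : ub (A.ac γ) (A.b f) ↔ ub γ f := by
  obtain ⟨e, he⟩ := ex_ub l
  have hc := cw_wd l.lp.mt l.ny he
  have h1 := lpw_wd l.lp l.ny he
  rw [← h1, A.ac_lpw hc, ub_lpw (A.wo_cw hc), ub_lpw hc]
  unfold Os
  rw [wo_len]
  constructor
  · rintro ⟨i, hi, h2⟩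
    rw [A.bt_wo _ _ hi.le, ← A.rev] at h2
    exact ⟨i, hi, h2.imp (fun h => A.b.injective h) (fun h => A.b.injective h)⟩
  · rintro ⟨i, hi, h2⟩
    refine ⟨i, hi, ?_⟩
    rw [A.bt_wo _ _ hi.le, ← A.rev]
    exact h2.imp (fun h => by rw [h]) (fun h => by rw [h])

/-- **the image of a loop is a loop** -/
theorem hl_ac {γ : Cfg} (l : HL γ) : HL (A.ac γ) := by
  obtain ⟨e, he⟩ := ex_ub l
  have hc := cw_wd l.lp.mt l.ny he
  rw [← lpw_wd l.lp l.ny he, A.ac_lpw hc]
  exact ⟨lp_lpw (A.wo_cw hc), ny_lpw _ _⟩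

/-- the length is invariant -/
theorem card_ac {γ : Cfg} (l : HL γ) : (hs (A.ac γ)).card = (hs γ).card := by
  obtain ⟨e, he⟩ := ex_ub l
  have hc := cw_wd l.lp.mt l.ny he
  have h1 := lpw_wd l.lp l.ny he
  have h2 : wd γ e (pd γ e) ∈ Wo := (mem_wo e).2 hc
  have h3 : A.wo (wd γ e (pd γ e)) ∈ Wo := (mem_wo (A.b e)).2 (A.wo_cw hc)
  have h4 := card_lpw (e := e) h2
  have h5 := card_lpw (e := A.b e) h3
  rw [h1] at h4
  rw [← A.ac_lpw hc, h1] at h5
  rw [h4, h5, wo_len]

theorem wl_ac {γ : Cfg} (l : HL γ) : wl (A.ac γ) = wl γ := by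
  unfold wl
  rw [A.card_ac l]

/-- the inverse -/
def inv : Au where
  b := A.b.symm
  o := A.o
  rev := fun e => by
    apply A.b.injective
    rw [A.rev, Equiv.apply_symm_apply, Equiv.apply_symm_apply]
  tb := fun c e => by
    apply A.b.injective
    rw [A.tb, Equiv.apply_symm_apply, Equiv.apply_symm_apply]
    have : xor A.o (xor A.o c) = c := by cases A.o <;> cases c <;> rfl
    rw [this]

theorem inv_ac {γ : Cfg} (l : HL γ) : A.inv.ac (A.ac γ) = γ := by
  apply ub_ext (A.inv.ny_ac _) l.ny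
  intro f
  obtain ⟨g, rfl⟩ := A.inv.b.surjective f
  rw [A.inv.ub_ac (A.hl_ac l)]
  have : g = A.b (A.inv.b g) := (A.b.apply_symm_apply g).symm
  rw [← A.ub_ac l (A.inv.b g), ← this]

theorem ac_inv {γ : Cfg} (l : HL γ) : A.ac (A.inv.ac γ) = γ := by
  apply ub_ext (A.ny_ac _) l.ny
  intro f
  obtain ⟨g, rfl⟩ := A.b.surjective f
  rw [A.ub_ac (A.inv.hl_ac l)]
  have : g = A.inv.b (A.b g) := (A.b.symm_apply_apply g).symm
  rw [← A.inv.ub_ac l (A.b g), ← this]

/-- the action on the honeycomb loops -/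
noncomputable def eq : {γ : Cfg // HL γ} ≃ {γ : Cfg // HL γ} where
  toFun γ := ⟨A.ac γ.1, A.hl_ac γ.2⟩
  invFun γ := ⟨A.inv.ac γ.1, A.inv.hl_ac γ.2⟩
  left_inv γ := Subtype.ext (A.inv_ac γ.2)
  right_inv γ := Subtype.ext (A.ac_inv γ.2)

/-- **the measure is invariant** -/
theorem sum_ac (F : Cfg → ℝ≥0∞) :
    ∑' γ : {γ : Cfg // HL γ}, wl γ.1 * F (A.ac γ.1) = ∑' γ : {γ : Cfg // HL γ}, wl γ.1 * F γ.1 := by
  rw [← A.eq.tsum_eq fun γ : {γ : Cfg // HL γ} => wl γ.1 * F γ.1]
  apply tsum_congr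
  intro γ
  show _ = wl (A.ac γ.1) * F (A.ac γ.1)
  rw [A.wl_ac γ.2]

/-- the vertices of the image -/
theorem hs_ac {g : HexObs.Pt → HexObs.Pt} (hg : ∀ e, st (A.b e) = g (st e)) {γ : Cfg} (l : HL γ) :
    hs (A.ac γ) = (hs γ).image g := by
  ext p
  rw [mem_hs, Finset.mem_image]
  constructor
  · rintro ⟨f, hf, rfl⟩
    obtain ⟨e, rfl⟩ := A.b.surjective f
    rw [A.ub_ac l] at hf
    exact ⟨st e, mem_hs.2 ⟨e, hf, rfl⟩, (hg e).symm⟩
  · rintro ⟨q, hq, rfl⟩
    obtain ⟨e, he, rfl⟩ := mem_hs.1 hq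
    exact ⟨A.b e, (A.ub_ac l e).2 he, hg e⟩

end Au

/-! ### the generators -/

/-- the rotation by 60 degrees about the hexagon with the centre `(1, 0)` -/
def ro : Bo → Bo
  | (v, .ww) => ((-v.2, v.1 + v.2 - 1), .jj)
  | (v, .ss) => ((-v.2, v.1 + v.2 - 1), .ee)
  | (v, .ii) => ((-v.2, v.1 + v.2 - 1), .nn)
  | (v, .ee) => ((-v.2, v.1 + v.2), .ii)
  | (v, .nn) => ((-v.2, v.1 + v.2), .ww)
  | (v, .jj) => ((-v.2, v.1 + v.2), .ss)

/-- the inverse rotation -/
def ro' : Bo → Bo
  | (v, .jj) => ((v.1 + v.2 + 1, -v.1), .ww)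
  | (v, .ee) => ((v.1 + v.2 + 1, -v.1), .ss)
  | (v, .nn) => ((v.1 + v.2 + 1, -v.1), .ii)
  | (v, .ii) => ((v.1 + v.2, -v.1), .ee)
  | (v, .ww) => ((v.1 + v.2, -v.1), .nn)
  | (v, .ss) => ((v.1 + v.2, -v.1), .jj)

/-- **the rotation** -/
def roA : Au where
  b := ⟨ro, ro', by
    rintro ⟨⟨x, y⟩, s⟩
    cases s <;> refine Prod.ext (Prod.ext ?_ ?_) rfl <;> simp [ro, ro'] <;> ring, by
    rintro ⟨⟨x, y⟩, s⟩
    cases s <;> refine Prod.ext (Prod.ext ?_ ?_) rfl <;> simp [ro, ro'] <;> ring⟩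
  o := false
  rev := by
    rintro ⟨⟨x, y⟩, s⟩
    cases s <;> refine Prod.ext (Prod.ext ?_ ?_) rfl <;> simp [ro, Hx.rev] <;> ring
  tb := by
    rintro c ⟨⟨x, y⟩, s⟩
    cases c <;> cases s <;> refine Prod.ext (Prod.ext ?_ ?_) rfl <;> simp [ro, Hx.rev, Hx.tb, rt] <;> ring

/-- the rotation of the vertices -/
def rog (p : HexObs.Pt) : HexObs.Pt := (1 - p.2, p.1 + p.2 - 1)

theorem st_ro (e : Bo) : st (roA.b e) = rog (st e) := by
  obtain ⟨⟨x, y⟩, s⟩ := e
  show st (ro _) = _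
  cases s <;> refine Prod.ext ?_ ?_ <;> simp [ro, st, wi, wh, bk, rog] <;> ring

/-- the transposition -/
def tp : Bo → Bo
  | (v, .ww) => ((v.2, v.1), .ss)
  | (v, .ss) => ((v.2, v.1), .ww)
  | (v, .ii) => ((v.2, v.1), .ii)
  | (v, .ee) => ((v.2, v.1), .nn)
  | (v, .nn) => ((v.2, v.1), .ee)
  | (v, .jj) => ((v.2, v.1), .jj)

theorem tp_tp (e : Bo) : tp (tp e) = e := by
  obtain ⟨⟨x, y⟩, s⟩ := e
  cases s <;> rfl

/-- **the transposition** (the reflection which fixes the inner bonds) -/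
def tpA : Au where
  b := ⟨tp, tp, tp_tp, tp_tp⟩
  o := true
  rev := by
    rintro ⟨⟨x, y⟩, s⟩
    cases s <;> rfl
  tb := by
    rintro c ⟨⟨x, y⟩, s⟩
    cases c <;> cases s <;> rfl

/-- the reflection of the vertices -/
def tpg (p : HexObs.Pt) : HexObs.Pt := (-p.1, p.1 + p.2)

theorem st_tp (e : Bo) : st (tpA.b e) = tpg (st e) := by
  obtain ⟨⟨x, y⟩, s⟩ := e
  show st (tp _) = _
  cases s <;> refine Prod.ext ?_ ?_ <;> simp [tp, st, wi, wh, bk, tpg] <;> ring

/-- **the translations** -/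
def trA (a : Pt) : Au where
  b := ⟨trb a, trb (-a), by
    intro e
    unfold trb
    simp, trb_surj a⟩
  o := false
  rev := fun e => (rev_trb a e).symm
  tb := fun c e => by
    show trb a (Hx.tb c e) = Hx.tb (xor false c) (trb a e)
    rw [tb_trb, Bool.false_xor]

theorem st_tr (a : Pt) (e : Bo) : st ((trA a).b e) = st e + wh a := by
  obtain ⟨⟨x, y⟩, s⟩ := e
  show st (trb a _) = _
  cases s <;> refine Prod.ext ?_ ?_ <;> simp [st, trb, wi, wh, bk] <;> ring

theorem trA_ac (a : Pt) {γ : Cfg} (l : HL γ) : (trA a).ac γ = trc a γ := by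
  apply ub_ext ((trA a).ny_ac _) (ny_trc l.ny)
  intro f
  obtain ⟨g, rfl⟩ := (trA a).b.surjective f
  rw [(trA a).ub_ac l]
  exact (ub_trc a γ g).symm

/-- the vertices in the plane: the rotation -/
theorem emb_rog (p : HexObs.Pt) : HexObs.emb (rog p) = 1 + HexObs.zt * (HexObs.emb p - 1) := by
  have h3 : Real.sqrt 3 * Real.sqrt 3 = 3 := Real.mul_self_sqrt (by norm_num)
  apply Complex.ext
  · simp only [Complex.add_re, Complex.mul_re, Complex.sub_re, Complex.sub_im, Complex.one_re, Complex.one_im,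
      HexObs.emb_re, HexObs.emb_im, HexObs.zt, rog]
    push_cast
    linear_combination ((p.2 : ℝ) / 4) * h3
  · simp only [Complex.add_im, Complex.mul_im, Complex.sub_re, Complex.sub_im, Complex.one_re, Complex.one_im,
      HexObs.emb_re, HexObs.emb_im, HexObs.zt, rog]
    push_cast
    ring

/-- the vertices in the plane: the reflection -/
theorem emb_tpg (p : HexObs.Pt) : HexObs.emb (tpg p) = HexObs.zt ^ 2 * (starRingEnd ℂ) (HexObs.emb p) := by
  have h3 : Real.sqrt 3 * Real.sqrt 3 = 3 := Real.mul_self_sqrt (by norm_num)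
  apply Complex.ext
  · simp only [pow_two, Complex.mul_re, Complex.mul_im, Complex.conj_re, Complex.conj_im, HexObs.emb_re,
      HexObs.emb_im, HexObs.zt, tpg]
    push_cast
    linear_combination ((p.1 : ℝ) / 4 - (p.2 : ℝ) / 8) * h3
  · simp only [pow_two, Complex.mul_re, Complex.mul_im, Complex.conj_re, Complex.conj_im, HexObs.emb_re,
      HexObs.emb_im, HexObs.zt, tpg]
    push_cast
    linear_combination (-(p.2 : ℝ) * Real.sqrt 3 / 8) * h3

end Pool.Agent.ROT.E.Hx
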