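import Pool.Agent.EXL.Comm

/-!
# ROT, block E: the pairing of a sweep is the connectivity (abstract part)

`Q` is the relation `connected` on the edges, `φ s` the frontier edge of the site `s`, `p` the pairing of the sites.
-/

set_option autoImplicit false

namespace Pool.Agent.ROT.E

open Pool.Agent.EXL Pool.Agent.EXL.Pat

variable {α D : Type*}

/-- the equivalence relation after the link of `x` and `y` -/
def lnk (Q : D → D → Prop) (x y e f : D) : Prop := Q e f ∨ (Q e x ∧ Q y f) ∨ (Q e y ∧ Q x f)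

theorem lnk_equiv {Q : D → D → Prop} (h : Equivalence Q) (x y : D) : Equivalence (lnk Q x y) := by
  have h1 := h.refl
  have h2 : ∀ {a b}, Q a b → Q b a := h.symm
  have h3 : ∀ {a b c}, Q a b → Q b c → Q a c := h.trans
  refine ⟨fun a => Or.inl (h1 a), fun {a b} hab => ?_, fun {a b c} hab hbc => ?_⟩
  · rcases hab with q | ⟨q, q'⟩ | ⟨q, q'⟩
    · exact Or.inl (h2 q)
    · exact Or.inr (Or.inr ⟨h2 q', h2 q⟩)
    · exact Or.inr (Or.inl ⟨h2 q', h2 q⟩)
  · rcases hab with q | ⟨q, q'⟩ | ⟨q, q'⟩ <;> rcases hbc with r | ⟨r, r'⟩ | ⟨r, r'⟩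
    · exact Or.inl (h3 q r)
    · exact Or.inr (Or.inl ⟨h3 q r, r'⟩)
    · exact Or.inr (Or.inr ⟨h3 q r, r'⟩)
    · exact Or.inr (Or.inl ⟨q, h3 q' r⟩)
    · exact Or.inr (Or.inl ⟨q, r'⟩)
    · exact Or.inl (h3 q r')
    · exact Or.inr (Or.inr ⟨q, h3 q' r⟩)
    · exact Or.inl (h3 q r')
    · exact Or.inr (Or.inr ⟨q, r'⟩)

/-- generation with one more link -/
theorem eqv_lnk {G G' : D → D → Prop} {x y : D} (hG : ∀ e f, G e f → G' e f) (hx : Relation.EqvGen G' x y)
    (h' : ∀ e f, G' e f → Relation.EqvGen G e f ∨ (e = x ∧ f = y) ∨ (e = y ∧ f = x)) (e f : D) :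
    Relation.EqvGen G' e f ↔ lnk (Relation.EqvGen G) x y e f := by
  have hm : ∀ {a b}, Relation.EqvGen G a b → Relation.EqvGen G' a b := fun {a b} h => h.mono hG
  constructor
  · intro h
    have he := lnk_equiv (Relation.EqvGen.is_equivalence G) x y
    induction h with
    | rel a b hab =>
      rcases h' a b hab with q | ⟨rfl, rfl⟩ | ⟨rfl, rfl⟩
      · exact Or.inl q
      · exact Or.inr (Or.inl ⟨Relation.EqvGen.refl _, Relation.EqvGen.refl _⟩)
      · exact Or.inr (Or.inr ⟨Relation.EqvGen.refl _, Relation.EqvGen.refl _⟩)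
    | refl a => exact he.refl a
    | symm a b _ ih => exact he.symm ih
    | trans a b c _ _ ih1 ih2 => exact he.trans ih1 ih2
  · rintro (q | ⟨q, q'⟩ | ⟨q, q'⟩)
    · exact hm q
    · exact ((hm q).trans _ _ _ hx).trans _ _ _ (hm q')
    · exact ((hm q).trans _ _ _ (hx.symm _ _)).trans _ _ _ (hm q')

/-- only connected to itself -/
def Iso (Q : D → D → Prop) (f : D) : Prop := ∀ e, Q f e → e = f

/-- **the pairing is the connectivity** -/
structure Inv (Q : D → D → Prop) (φ : α → D) (p : Pat α) : Prop where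
  eq : Equivalence Q
  con : ∀ s, Q (φ s) (φ (p s))
  sep : ∀ s s', p s ≠ s → p s' ≠ s' → Q (φ s) (φ s') → s' = s ∨ s' = p s
  emp : ∀ s, p s = s → Iso Q (φ s)
  shr : ∀ s s', φ s = φ s' → p s ≠ s → p s' ≠ s'
  cov : ∀ e f, e ≠ f → Q e f → ∃ s, p s ≠ s ∧ Q e (φ s)

theorem Inv.congr {Q Q' : D → D → Prop} {φ : α → D} {p : Pat α} (h : Inv Q φ p) (hQ : ∀ e f, Q' e f ↔ Q e f) :
    Inv Q' φ p := by
  have : Q' = Q := by
    funext e f
    exact propext (hQ e f)
  rw [this]
  exact h

theorem iso_lnk {Q : D → D → Prop} {x y f : D} (h : Iso Q f) (hx : f ≠ x) (hy : f ≠ y) :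
    Iso (lnk Q x y) f := by
  intro e he
  rcases he with q | ⟨q, _⟩ | ⟨q, _⟩
  · exact h e q
  · exact absurd (h x q).symm hx
  · exact absurd (h y q).symm hy

variable [DecidableEq α]

section

variable {Q : D → D → Prop} {φ : α → D} {p : Pat α} {s t : α} {f g : D}

/-- the strand of the site goes on to a new edge -/
theorem Inv.ext (h : Inv Q φ p) (hs : p s ≠ s) (hf : Iso Q f) (hφ : ∀ r, φ r ≠ f) :
    Inv (lnk Q (φ s) f) (Function.update φ s f) p := by
  have hr := h.eq.refl
  have hsy : ∀ {a b}, Q a b → Q b a := h.eq.symm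
  have hf' : ∀ e, Q e f → e = f := fun e q => hf e (hsy q)
  have hE := lnk_equiv h.eq (φ s) f
  have hU : ∀ r, lnk Q (φ s) f (Function.update φ s f r) (φ r) := by
    intro r
    by_cases hrs : r = s
    · subst hrs
      rw [Function.update_self]
      exact Or.inr (Or.inr ⟨hr _, hr _⟩)
    · rw [Function.update_of_ne hrs]
      exact Or.inl (hr _)
  have key : ∀ r r', lnk Q (φ s) f (Function.update φ s f r) (Function.update φ s f r') → Q (φ r) (φ r') := by
    intro r r' q
    have q1 : lnk Q (φ s) f (φ r) (φ r') := hE.trans (hE.symm (hU r)) (hE.trans q (hU r'))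
    rcases q1 with q | ⟨_, q'⟩ | ⟨q, _⟩
    · exact q
    · exact absurd (hf _ q') (hφ r')
    · exact absurd (hf' _ q) (hφ r)
  refine ⟨hE, fun r => ?_, fun r r' h1 h2 q => h.sep r r' h1 h2 (key r r' q), fun r h1 => ?_,
    fun r r' e h1 => ?_, fun e e' hne q => ?_⟩
  · exact hE.trans (hU r) (hE.trans (Or.inl (h.con r)) (hE.symm (hU _)))
  · have hrs : r ≠ s := fun e => hs (e ▸ h1)
    rw [Function.update_of_ne hrs]
    exact iso_lnk (h.emp r h1) (fun e => h.shr s r e.symm hs h1) (hφ r)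
  · by_cases h2 : r' = s
    · rw [h2]; exact hs
    · by_cases h3 : r = s
      · rw [h3, Function.update_self, Function.update_of_ne h2] at e
        exact absurd e.symm (hφ r')
      · rw [Function.update_of_ne h2, Function.update_of_ne h3] at e
        exact h.shr r r' e h1
  · have hc : ∃ r, p r ≠ r ∧ lnk Q (φ s) f e (φ r) := by
      rcases q with q | ⟨q, _⟩ | ⟨q, _⟩
      · obtain ⟨r, h1, h2⟩ := h.cov e e' hne q
        exact ⟨r, h1, Or.inl h2⟩
      · exact ⟨s, hs, Or.inl q⟩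
      · exact ⟨s, hs, Or.inr (Or.inr ⟨q, hr _⟩)⟩
    obtain ⟨r, h1, h2⟩ := hc
    exact ⟨r, h1, hE.trans h2 (hE.symm (hU r))⟩

/-- an empty site moves to a new edge -/
theorem Inv.mov (h : Inv Q φ p) (hs : p s = s) (hf : Iso Q f) (hφ : ∀ r, φ r ≠ f) :
    Inv Q (Function.update φ s f) p := by
  have hr := h.eq.refl
  have hne : ∀ r, p r ≠ r → r ≠ s := fun r h1 e => h1 (e ▸ hs)
  refine ⟨h.eq, fun r => ?_, fun r r' h1 h2 q => ?_, fun r h1 => ?_, fun r r' e h1 => ?_, fun e e' he q => ?_⟩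
  · by_cases h1 : p r = r
    · rw [h1]; exact hr _
    · have h2 : p (p r) ≠ p r := fun e => h1 (p.inj e)
      rw [Function.update_of_ne (hne r h1), Function.update_of_ne (hne _ h2)]
      exact h.con r
  · rw [Function.update_of_ne (hne r h1), Function.update_of_ne (hne _ h2)] at q
    exact h.sep r r' h1 h2 q
  · by_cases h2 : r = s
    · rw [h2, Function.update_self]; exact hf
    · rw [Function.update_of_ne h2]; exact h.emp r h1
  · rw [Function.update_of_ne (hne r h1)] at e
    by_cases h2 : r' = s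
    · rw [h2, Function.update_self] at e
      exact absurd e (hφ r)
    · rw [Function.update_of_ne h2] at e
      exact h.shr r r' e h1
  · obtain ⟨r, h1, h2⟩ := h.cov e e' he q
    refine ⟨r, h1, ?_⟩
    rw [Function.update_of_ne (hne r h1)]
    exact h2

/-- a new arc between two empty sites -/
theorem Inv.cup (h : Inv Q φ p) (hst : s ≠ t) (hs : p s = s) (ht : p t = t) (hφs : ∀ r, φ r = φ s → r = s)
    (hφt : ∀ r, φ r = φ t → r = t) : Inv (lnk Q (φ s) (φ t)) φ (Pat.cup s t p) := by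
  have hr := h.eq.refl
  have hsy : ∀ {a b}, Q a b → Q b a := h.eq.symm
  have hE := lnk_equiv h.eq (φ s) (φ t)
  have hc : ∀ r, Pat.cup s t p r = if r = s then t else if r = t then s else p r := fun r =>
    cup_apply ⟨hs, ht⟩ r
  have cs : Pat.cup s t p s = t := by rw [hc, if_pos rfl]
  have ct : Pat.cup s t p t = s := by rw [hc, if_neg hst.symm, if_pos rfl]
  have co : ∀ r, r ≠ s → r ≠ t → Pat.cup s t p r = p r := fun r h1 h2 => by rw [hc, if_neg h1, if_neg h2]
  have is := h.emp s hs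
  have it := h.emp t ht
  have is' : ∀ e, Q e (φ s) → e = φ s := fun e q => is e (hsy q)
  have it' : ∀ e, Q e (φ t) → e = φ t := fun e q => it e (hsy q)
  have far : ∀ r, r ≠ s → r ≠ t → ∀ e, lnk Q (φ s) (φ t) (φ r) e → Q (φ r) e := by
    intro r h1 h2 e q
    rcases q with q | ⟨q, _⟩ | ⟨q, _⟩
    · exact q
    · exact absurd (hφs r (is' _ q)) h1
    · exact absurd (hφt r (it' _ q)) h2
  have nr : ∀ r, r ≠ s → r ≠ t → p r ≠ s ∧ p r ≠ t := fun r h1 h2 =>
    ⟨fun e => h1 (by rw [← p.inv r, e]; exact hs), fun e => h2 (by rw [← p.inv r, e]; exact ht)⟩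
  have hcl : ∀ r, r = s ∨ r = t → ∀ r', r' ≠ s → r' ≠ t → ¬ lnk Q (φ s) (φ t) (φ r) (φ r') := by
    intro r hrr r' h1 h2 q
    have q1 := far r' h1 h2 _ (hE.symm q)
    rcases hrr with rfl | rfl
    · exact h1 (hφs r' (is' _ q1))
    · exact h2 (hφt r' (it' _ q1))
  refine ⟨hE, fun r => ?_, fun r r' h1 h2 q => ?_, fun r h1 => ?_, fun r r' e h1 => ?_, fun e e' he q => ?_⟩
  · by_cases h1 : r = s
    · rw [h1, cs]; exact Or.inr (Or.inl ⟨hr _, hr _⟩)
    · by_cases h2 : r = t
      · rw [h2, ct]; exact Or.inr (Or.inr ⟨hr _, hr _⟩)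
      · rw [co r h1 h2]; exact Or.inl (h.con r)
  · by_cases a1 : r = s ∨ r = t
    · have a2 : r' = s ∨ r' = t := by
        by_contra hn
        rw [not_or] at hn
        exact hcl r a1 r' hn.1 hn.2 q
      rcases a1 with rfl | rfl <;> rcases a2 with rfl | rfl
      · exact Or.inl rfl
      · exact Or.inr cs.symm
      · exact Or.inr ct.symm
      · exact Or.inl rfl
    · rw [not_or] at a1
      have a2 : ¬ (r' = s ∨ r' = t) := fun a2 => hcl r' a2 r a1.1 a1.2 (hE.symm q)
      rw [not_or] at a2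
      rw [co r a1.1 a1.2] at h1 ⊢
      rw [co r' a2.1 a2.2] at h2
      exact h.sep r r' h1 h2 (far r a1.1 a1.2 _ q)
  · have a1 : r ≠ s := fun e => hst (by rw [← e, ← h1, e, cs])
    have a2 : r ≠ t := fun e => hst (by rw [← e, ← h1, e, ct] )
    rw [co r a1 a2] at h1
    exact iso_lnk (h.emp r h1) (fun e => a1 (hφs r e)) fun e => a2 (hφt r e)
  · by_cases a1 : r' = s
    · rw [a1, cs]; exact hst.symm
    · by_cases a2 : r' = t
      · rw [a2, ct]; exact hst
      · rw [co r' a1 a2]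
        have b1 : r ≠ s := fun e1 => a1 (hφs r' (by rw [← e, e1]))
        have b2 : r ≠ t := fun e1 => a2 (hφt r' (by rw [← e, e1]))
        rw [co r b1 b2] at h1
        exact h.shr r r' e h1
  · rcases q with q | ⟨q, _⟩ | ⟨q, _⟩
    · obtain ⟨r, h1, h2⟩ := h.cov e e' he q
      have b1 : r ≠ s := fun e1 => h1 (by rw [e1]; exact hs)
      have b2 : r ≠ t := fun e1 => h1 (by rw [e1]; exact ht)
      exact ⟨r, by rw [co r b1 b2]; exact h1, Or.inl h2⟩
    · exact ⟨s, by rw [cs]; exact hst.symm, Or.inl q⟩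
    · exact ⟨t, by rw [ct]; exact hst, Or.inl q⟩

/-- two strands are joined, the two sites go on empty -/
theorem Inv.cut (h : Inv Q φ p) (hst : s ≠ t) (hs : p s ≠ s) (ht : p t ≠ t) (hp : p s ≠ t)
    (hf : Iso Q f) (hφf : ∀ r, φ r ≠ f) (hg : Iso Q g) (hφg : ∀ r, φ r ≠ g) :
    Inv (lnk Q (φ s) (φ t)) (Function.update (Function.update φ s f) t g) (Pat.cut s t p) := by
  have hr := h.eq.refl
  have hsy : ∀ {a b}, Q a b → Q b a := h.eq.symm
  have hE := lnk_equiv h.eq (φ s) (φ t)
  have hc : ∀ r, Pat.cut s t p r = if r = s then s else if r = t then t else if r = p s then p t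
      else if r = p t then p s else p r := fun r => cut_apply ⟨hst, hs, ht, hp⟩ r
  have hp' : p t ≠ s := fun e => hp (by rw [← e, p.inv])
  have hpp : p s ≠ p t := fun e => hst (p.inj e)
  have cs : Pat.cut s t p s = s := by rw [hc, if_pos rfl]
  have ct : Pat.cut s t p t = t := by rw [hc, if_neg hst.symm, if_pos rfl]
  have cps : Pat.cut s t p (p s) = p t := by rw [hc, if_neg hs, if_neg hp, if_pos rfl]
  have cpt : Pat.cut s t p (p t) = p s := by rw [hc, if_neg hp', if_neg ht, if_neg hpp.symm, if_pos rfl]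
  have co : ∀ r, r ≠ s → r ≠ t → r ≠ p s → r ≠ p t → Pat.cut s t p r = p r := fun r h1 h2 h3 h4 => by
    rw [hc, if_neg h1, if_neg h2, if_neg h3, if_neg h4]
  set ψ := Function.update (Function.update φ s f) t g with hψ
  have us : ψ s = f := by rw [hψ, Function.update_of_ne hst, Function.update_self]
  have ut : ψ t = g := by rw [hψ, Function.update_self]
  have uo : ∀ r, r ≠ s → r ≠ t → ψ r = φ r := fun r h1 h2 => by
    rw [hψ, Function.update_of_ne h2, Function.update_of_ne h1]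
  have eps : ψ (p s) = φ (p s) := uo _ hs hp
  have ept : ψ (p t) = φ (p t) := uo _ hp' ht
  have hq : lnk Q (φ s) (φ t) (φ (p s)) (φ (p t)) := Or.inr (Or.inl ⟨hsy (h.con s), h.con t⟩)
  have occ : ∀ r, Pat.cut s t p r ≠ r → r ≠ s ∧ r ≠ t ∧ p r ≠ r := by
    intro r h1
    have a1 : r ≠ s := fun e => h1 (by rw [e]; exact cs)
    have a2 : r ≠ t := fun e => h1 (by rw [e]; exact ct)
    refine ⟨a1, a2, fun e => ?_⟩
    by_cases a3 : r = p s
    · exact a1 (by rw [← p.inv s, ← a3]; exact e.symm)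
    · by_cases a4 : r = p t
      · exact a2 (by rw [← p.inv t, ← a4]; exact e.symm)
      · exact h1 (by rw [co r a1 a2 a3 a4]; exact e)
  have occ' : ∀ r, r ≠ s → r ≠ t → p r ≠ r → Pat.cut s t p r ≠ r := by
    intro r a1 a2 h1
    by_cases a3 : r = p s
    · rw [a3, cps]; exact hpp.symm
    · by_cases a4 : r = p t
      · rw [a4, cpt]; exact hpp
      · rw [co r a1 a2 a3 a4]; exact h1
  have ic : ∀ {e}, lnk Q (φ s) (φ t) e (φ s) → lnk Q (φ s) (φ t) e (φ (p s)) := fun q => hE.trans q (Or.inl (h.con s))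
  refine ⟨hE, fun r => ?_, fun r r' h1 h2 q => ?_, fun r h1 => ?_, fun r r' e h1 => ?_, fun e e' he q => ?_⟩
  · by_cases a1 : r = s
    · rw [a1, cs]; exact hE.refl _
    by_cases a2 : r = t
    · rw [a2, ct]; exact hE.refl _
    by_cases a3 : r = p s
    · rw [a3, cps, eps, ept]; exact hq
    by_cases a4 : r = p t
    · rw [a4, cpt, eps, ept]; exact hE.symm hq
    · have b1 : p r ≠ s := fun e => a3 (by rw [← e, p.inv])
      have b2 : p r ≠ t := fun e => a4 (by rw [← e, p.inv])
      rw [co r a1 a2 a3 a4, uo r a1 a2, uo _ b1 b2]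
      exact Or.inl (h.con r)
  · obtain ⟨a1, a2, a3⟩ := occ r h1
    obtain ⟨b1, b2, b3⟩ := occ r' h2
    rw [uo r a1 a2, uo r' b1 b2] at q
    rcases q with q | ⟨q, q'⟩ | ⟨q, q'⟩
    · rcases h.sep r r' a3 b3 q with e | e
      · exact Or.inl e
      · refine Or.inr ?_
        have c3 : r ≠ p s := fun e1 => b1 (by rw [e, e1, p.inv])
        have c4 : r ≠ p t := fun e1 => b2 (by rw [e, e1, p.inv])
        rw [co r a1 a2 c3 c4]
        exact e
    · rcases h.sep r s a3 hs q with e | e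
      · exact absurd e.symm a1
      · rcases h.sep t r' ht b3 q' with e' | e'
        · exact absurd e' b2
        · refine Or.inr ?_
          have : r = p s := by rw [e, p.inv]
          rw [this, cps, e']
    · rcases h.sep r t a3 ht q with e | e
      · exact absurd e.symm a2
      · rcases h.sep s r' hs b3 q' with e' | e'
        · exact absurd e' b1
        · refine Or.inr ?_
          have : r = p t := by rw [e, p.inv]
          rw [this, cpt, e']
  · by_cases a1 : r = s
    · rw [a1, us]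
      exact iso_lnk hf (hφf s).symm (hφf t).symm
    by_cases a2 : r = t
    · rw [a2, ut]
      exact iso_lnk hg (hφg s).symm (hφg t).symm
    · rw [uo r a1 a2]
      have a3 : p r = r := by
        by_contra hn
        exact occ' r a1 a2 hn h1
      exact iso_lnk (h.emp r a3) (fun e => h.shr s r e.symm hs a3) (fun e => h.shr t r e.symm ht a3)
  · obtain ⟨a1, a2, a3⟩ := occ r h1
    rw [uo r a1 a2] at e
    have b1 : r' ≠ s := fun e1 => hφf r (by rw [e, e1, us])
    have b2 : r' ≠ t := fun e1 => hφg r (by rw [e, e1, ut])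
    rw [uo r' b1 b2] at e
    exact occ' r' b1 b2 (h.shr r r' e a3)
  · have hc1 : ∃ r, p r ≠ r ∧ lnk Q (φ s) (φ t) e (φ r) := by
      rcases q with q | ⟨q, _⟩ | ⟨q, _⟩
      · obtain ⟨r, h1, h2⟩ := h.cov e e' he q
        exact ⟨r, h1, Or.inl h2⟩
      · exact ⟨s, hs, Or.inl q⟩
      · exact ⟨t, ht, Or.inl q⟩
    obtain ⟨r, h1, h2⟩ := hc1
    by_cases a1 : r = s ∨ r = t
    · have h3 : lnk Q (φ s) (φ t) e (φ s) := by
        rcases a1 with rfl | rfl
        · exact h2
        · exact hE.trans h2 (Or.inr (Or.inr ⟨hr _, hr _⟩))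
      exact ⟨p s, by rw [cps]; exact hpp.symm, by rw [eps]; exact ic h3⟩
    · rw [not_or] at a1
      exact ⟨r, occ' r a1.1 a1.2 h1, by rw [uo r a1.1 a1.2]; exact h2⟩

/-- exchange of the names of two sites -/
theorem Inv.swap (h : Inv Q φ p) (s t : α) : Inv Q (φ ∘ Equiv.swap s t) (Pat.swap s t p) := by
  have e1 : ∀ r, Pat.swap s t p r = Equiv.swap s t (p (Equiv.swap s t r)) := fun r => rfl
  have e2 : ∀ r, Equiv.swap s t (Equiv.swap s t r) = r := fun r => by simp
  have e3 : ∀ r, Pat.swap s t p r = r ↔ p (Equiv.swap s t r) = Equiv.swap s t r := by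
    intro r
    rw [e1]
    constructor
    · intro hh
      rw [← e2 (p (Equiv.swap s t r)), hh]
    · intro hh
      rw [hh, e2]
  refine ⟨h.eq, fun r => ?_, fun r r' h1 h2 q => ?_, fun r h1 => ?_, fun r r' e h1 => ?_, fun e e' he q => ?_⟩
  · show Q (φ (Equiv.swap s t r)) (φ (Equiv.swap s t (Pat.swap s t p r)))
    rw [e1, e2]
    exact h.con _
  · rw [ne_eq, e3] at h1 h2
    rcases h.sep _ _ h1 h2 q with e | e
    · exact Or.inl ((Equiv.swap s t).injective e)
    · refine Or.inr ?_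
      rw [e1, ← e, e2]
  · exact h.emp _ ((e3 r).1 h1)
  · rw [ne_eq, e3] at h1 ⊢
    exact h.shr _ _ e h1
  · obtain ⟨r, h1, h2⟩ := h.cov e e' he q
    refine ⟨Equiv.swap s t r, ?_, ?_⟩
    · rw [ne_eq, e3, e2]; exact h1
    · show Q e (φ (Equiv.swap s t (Equiv.swap s t r)))
      rw [e2]; exact h2

end

end Pool.Agent.ROT.E
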