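import Pool.Agent.ROT.ELab

/-!
# ROT, block E, row E2: the heat bath of one swap

From the strip identity (`Strip1P`) and the labels (`LabP`): the partition function of the strip is positive and
does not change under the swap, the heat bath is a probability on the good families, it carries the weight of the
columns to the weight of the swapped columns, and the swap back is its adjoint.
-/

set_option autoImplicit false

namespace Pool.Agent.ROT.E

open Pool.Agent.EXL (Wt)
open Pool.Agent.YBC (Dir)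
open Pool.Agent.UNI (wR wR_nn)

/-- **the strip identity** without labels (row E1).  (The sum can be 0: `w2 (π / 8) = 0`.) -/
def Strip1P : Prop := ∀ (j : ℤ) (u : ℤ → ℝ) (γ : Cfg), An u → Sm1 j γ γ → ∃ z : ℝ,
  (open Classical in HasSum (fun δ : Cfg => if Sm1 j γ δ then ws1 j u δ else 0) z) ∧
  (open Classical in HasSum (fun δ : Cfg => if Sm1 j γ δ then ws1 j (sw j u) δ else 0) z)

/-- **the labels** (row E2L) -/
def LabP (I : Type) : Prop := ∀ (j : ℤ) (γ : Fm I), Fam γ → Gd j γ → ∃ Γ : Cfg, Sm1 j Γ Γ ∧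
  ∃ e : {γ' : Fm I // Sm j γ γ'} ≃ {δ : Cfg // Sm1 j Γ δ},
    ∀ γ' u, ws j u γ'.1 = ws1 j u (e γ').1 ∧ (∀ v, IsUn (γ'.1 v) ((e γ').1 v))

theorem labP {I : Type} [Finite I] : LabP I := fun _ _ h g => lab h g

variable {I : Type} {j : ℤ} {u : ℤ → ℝ} {γ γ' δ : Fm I}

/-! ### the angles -/

theorem sw_sw (j : ℤ) (u : ℤ → ℝ) : sw j (sw j u) = u := by
  funext i
  simp only [sw]
  split_ifs with h1 h2 h3 <;> first | rfl | (subst h1; first | rfl | omega) | omega | (subst h3; rfl)

theorem sw_out {v : Pt} (h : v ∉ Sp j) (u : ℤ → ℝ) : sw j u v.1 = u v.1 := by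
  have h' : ¬ (v.1 = j ∨ v.1 = j + 1) := h
  push Not at h'
  simp [sw, h'.1, h'.2]

theorem An.sw (h : An u) (j : ℤ) : An (sw j u) := by
  intro i
  simp only [E.sw]
  split_ifs <;> exact h _

/-! ### the weights -/

theorem IsUn_zero {c : Cell} : IsUn (0 : I → Cell) c ↔ c = .o := by
  have ho : ∀ d : Dir, ¬ (Cell.o).oc d := by
    intro d
    simp [Cell.oc, Cell.p]
  constructor
  · intro h
    by_contra hc
    have : ∃ d : Dir, c.oc d := by
      revert hc
      cases c <;> intro hc <;>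
        first
        | exact absurd rfl hc
        | exact ⟨.E, by decide⟩
        | exact ⟨.N, by decide⟩
        | exact ⟨.W, by decide⟩
    obtain ⟨d, hd⟩ := this
    obtain ⟨i, hi⟩ := h.2.2 d hd
    exact ho d hi
  · rintro rfl
    exact ⟨fun i d h => absurd h (ho d), fun i i' d h => absurd h (ho d), fun d h => absurd h (ho d)⟩

theorem wf_zero (w : Wt ℝ) : wf w (0 : I → Cell) = 1 := by
  classical
  simp only [wf, IsUn_zero]
  simp [Cell.wt]

theorem wf_nonneg {w : Wt ℝ} (hw : w.Nn) (f : I → Cell) : 0 ≤ wf w f := by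
  classical
  refine Finset.sum_nonneg fun c _ => ?_
  split_ifs
  · cases c <;> simp only [Cell.wt] <;> first | exact zero_le_one | exact hw.v | exact hw.u1 | exact hw.u2 | exact hw.w1 | exact hw.w2
  · exact le_rfl

theorem An.nn (h : An u) (i : ℤ) : (wR (u i)).Nn := wR_nn (h i).1 (h i).2

open Classical in
/-- the weight outside of the strip -/
noncomputable def wo (j : ℤ) (u : ℤ → ℝ) (γ : Fm I) : ℝ :=
  γ.prod fun v f => if v ∈ Sp j then 1 else wf (wR (u v.1)) f

theorem M_eq (j : ℤ) (u : ℤ → ℝ) (γ : Fm I) : M u γ = wo j u γ * ws j u γ := by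
  classical
  simp only [M, wo, ws, Finsupp.prod, ← Finset.prod_mul_distrib]
  refine Finset.prod_congr rfl fun v _ => ?_
  split_ifs <;> simp

theorem wo_sw (j : ℤ) (u : ℤ → ℝ) (γ : Fm I) : wo j (sw j u) γ = wo j u γ := by
  classical
  simp only [wo, Finsupp.prod]
  refine Finset.prod_congr rfl fun v _ => ?_
  split_ifs with h
  · rfl
  · rw [sw_out h]

theorem wo_out (h : ∀ v, v ∉ Sp j → γ v = γ' v) (u : ℤ → ℝ) : wo j u γ = wo j u γ' := by
  classical
  have h0 : ∀ v : Pt, (if v ∈ Sp j then 1 else wf (wR (u v.1)) (0 : I → Cell)) = 1 := by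
    intro v
    split_ifs
    · rfl
    · exact wf_zero _
  rw [wo, wo, Finsupp.prod_of_support_subset γ (s := γ.support ∪ γ'.support) Finset.subset_union_left _
    (fun v _ => h0 v), Finsupp.prod_of_support_subset γ' (s := γ.support ∪ γ'.support)
    Finset.subset_union_right _ (fun v _ => h0 v)]
  refine Finset.prod_congr rfl fun v _ => ?_
  split_ifs with hv
  · rfl
  · rw [h v hv]

theorem ws_nonneg (hu : An u) (j : ℤ) (γ : Fm I) : 0 ≤ ws j u γ := by
  classical
  refine Finset.prod_nonneg fun v _ => ?_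
  dsimp only
  split_ifs
  · exact wf_nonneg (hu.nn _) _
  · exact zero_le_one

theorem wo_nonneg (hu : An u) (j : ℤ) (γ : Fm I) : 0 ≤ wo j u γ := by
  classical
  refine Finset.prod_nonneg fun v _ => ?_
  dsimp only
  split_ifs
  · exact zero_le_one
  · exact wf_nonneg (hu.nn _) _

theorem M_nonneg (hu : An u) (γ : Fm I) : 0 ≤ M u γ :=
  Finset.prod_nonneg fun _ _ => wf_nonneg (hu.nn _) _

theorem M_zero (u : ℤ → ℝ) : M u (0 : Fm I) = 1 := by
  simp [M]

/-! ### the same outside and the same connections -/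

theorem Gd_of_out (h : ∀ v, v ∉ Sp j → γ v = γ' v) (g : Gd j γ) : Gd j γ' := by
  intro i
  obtain ⟨v, hv, hi⟩ := g i
  exact ⟨v, hv, by rw [← h v hv]; exact hi⟩

theorem Sm.gd' (h : Sm j γ γ') : Gd j γ' := Gd_of_out h.out h.gd

theorem Sm.symm (h : Sm j γ γ') : Sm j γ' γ :=
  ⟨h.fam', h.fam, h.gd', fun v hv => (h.out v hv).symm, fun i a ha b hb => (h.pr i a ha b hb).symm⟩

theorem Sm.trans (h : Sm j γ γ') (h' : Sm j γ' δ) : Sm j γ δ :=
  ⟨h.fam, h'.fam', h.gd, fun v hv => (h.out v hv).trans (h'.out v hv),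
    fun i a ha b hb => (h.pr i a ha b hb).trans (h'.pr i a ha b hb)⟩

theorem Sm.rfl' (h : Fam γ) (g : Gd j γ) : Sm j γ γ :=
  ⟨h, h, g, fun _ _ => rfl, fun _ _ _ _ _ => Iff.rfl⟩

theorem Sm.comm : Sm j γ γ' ↔ Sm j γ' γ := ⟨Sm.symm, Sm.symm⟩

theorem Sm.congr (h : Sm j γ γ') : Sm j γ δ ↔ Sm j γ' δ := ⟨h.symm.trans, h.trans⟩

theorem Z_congr (h : Sm j γ γ') (u : ℤ → ℝ) : Z j u γ = Z j u γ' := by
  classical
  simp only [Z]
  congr 1
  funext δ
  simp only [h.congr (δ := δ)]

/-! ### the heat bath -/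

theorem Z_nonneg (hu : An u) (j : ℤ) (γ : Fm I) : 0 ≤ Z j u γ := by
  classical
  refine tsum_nonneg fun δ => ?_
  split_ifs
  · exact ws_nonneg hu _ _
  · exact le_rfl

theorem Kn_nonneg (hu : An u) (γ γ' : Fm I) : 0 ≤ Kn j u γ γ' := by
  classical
  simp only [Kn]
  split_ifs
  · exact div_nonneg (ws_nonneg (hu.sw j) _ _) (Z_nonneg hu j γ)
  · exact le_rfl

theorem Kn_eq_zero (h : ¬ Sm j γ γ') : Kn j u γ γ' = 0 := by
  classical
  simp [Kn, h]

theorem Sm_of_Kn (h : Kn j u γ γ' ≠ 0) : Sm j γ γ' := by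
  by_contra k
  exact h (Kn_eq_zero k)

theorem Kn_bad (h : ¬ (Fam γ ∧ Gd j γ)) : Kn j u γ γ' = 0 :=
  Kn_eq_zero fun k => h ⟨k.fam, k.gd⟩

theorem Kn_bad' (h : ¬ (Fam γ' ∧ Gd j γ')) : Kn j u γ γ' = 0 :=
  Kn_eq_zero fun k => h ⟨k.fam', k.gd'⟩

section bath

variable [Finite I] (hs : Strip1P)

include hs

open Classical in
theorem sum_ws (hu : An u) (hf : Fam γ) (hg : Gd j γ) :
    HasSum (fun γ' : Fm I => if Sm j γ γ' then ws j u γ' else 0) (Z j u γ) ∧
    HasSum (fun γ' : Fm I => if Sm j γ γ' then ws j (sw j u) γ' else 0) (Z j u γ) := by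
  obtain ⟨Γ, hΓ, e, he⟩ := labP j γ hf hg
  obtain ⟨z, h1, h2⟩ := hs j u Γ hu hΓ
  have key : ∀ w : ℤ → ℝ, HasSum (fun δ : Cfg => if Sm1 j Γ δ then ws1 j w δ else 0) z →
      HasSum (fun γ' : Fm I => if Sm j γ γ' then ws j w γ' else 0) z := by
    intro w hw
    have e1 : (fun δ : Cfg => if Sm1 j Γ δ then ws1 j w δ else 0) =
        Set.indicator {δ : Cfg | Sm1 j Γ δ} (ws1 j w) := by
      funext δ
      simp [Set.indicator_apply]
    have e2 : (fun γ' : Fm I => if Sm j γ γ' then ws j w γ' else 0) =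
        Set.indicator {γ' : Fm I | Sm j γ γ'} (ws j w) := by
      funext δ
      simp [Set.indicator_apply]
    rw [e1, ← hasSum_subtype_iff_indicator] at hw
    rw [e2, ← hasSum_subtype_iff_indicator]
    have h3 : ws j w ∘ (Subtype.val : {γ' : Fm I // Sm j γ γ'} → Fm I) =
        (ws1 j w ∘ (Subtype.val : {δ : Cfg // Sm1 j Γ δ} → Cfg)) ∘ e := by
      funext γ'
      exact (he γ' w).1
    change HasSum (ws j w ∘ (Subtype.val : {γ' : Fm I // Sm j γ γ'} → Fm I)) z
    rw [h3]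
    exact (Equiv.hasSum_iff e).2 hw
  have hZ : Z j u γ = z := (key u h1).tsum_eq
  rw [hZ]
  exact ⟨key u h1, key (sw j u) h2⟩

/-- **the partition function of the strip does not change under the swap** -/
theorem Z_sw (hu : An u) (hf : Fam γ) (hg : Gd j γ) : Z j (sw j u) γ = Z j u γ := by
  classical
  exact (sum_ws hs hu hf hg).2.tsum_eq

theorem ws_le_Z (hu : An u) (h : Sm j γ γ') : ws j u γ' ≤ Z j u γ := by
  classical
  have := le_hasSum (sum_ws hs hu h.fam h.gd).1 γ' fun δ _ => by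
    split_ifs
    · exact ws_nonneg hu _ _
    · exact le_rfl
  rwa [if_pos h] at this

theorem ws_le_Z' (hu : An u) (h : Sm j γ γ') : ws j (sw j u) γ' ≤ Z j u γ := by
  classical
  have := le_hasSum (sum_ws hs hu h.fam h.gd).2 γ' fun δ _ => by
    split_ifs
    · exact ws_nonneg (hu.sw j) _ _
    · exact le_rfl
  rwa [if_pos h] at this

theorem Z_pos (hu : An u) (hf : Fam γ) (hg : Gd j γ) (hM : M u γ ≠ 0) : 0 < Z j u γ := by
  rw [M_eq j] at hM
  exact lt_of_lt_of_le (lt_of_le_of_ne (ws_nonneg hu j γ) (Ne.symm (right_ne_zero_of_mul hM)))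
    (ws_le_Z hs hu (Sm.rfl' hf hg))

theorem Z_pos' (hu : An u) (hf : Fam γ) (hg : Gd j γ) (hM : M (sw j u) γ ≠ 0) : 0 < Z j u γ := by
  rw [M_eq j] at hM
  exact lt_of_lt_of_le (lt_of_le_of_ne (ws_nonneg (hu.sw j) j γ) (Ne.symm (right_ne_zero_of_mul hM)))
    (ws_le_Z' hs hu (Sm.rfl' hf hg))

/-- the heat bath is a probability when the partition function of the strip is not 0 -/
theorem hasSum_Kn_Z (hu : An u) (hf : Fam γ) (hg : Gd j γ) (hz : Z j u γ ≠ 0) :
    HasSum (Kn j u γ) 1 := by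
  classical
  have h := (sum_ws hs hu hf hg).2.div_const (Z j u γ)
  rw [div_self hz] at h
  refine h.congr_fun ?_
  intro γ'
  simp only [Kn]
  split_ifs
  · rfl
  · simp

/-- **the heat bath is a probability** on the good families with a positive weight -/
theorem hasSum_Kn (hu : An u) (hf : Fam γ) (hg : Gd j γ) (hM : M u γ ≠ 0) : HasSum (Kn j u γ) 1 :=
  hasSum_Kn_Z hs hu hf hg (Z_pos hs hu hf hg hM).ne'

/-- the heat bath in all cases: mass 1 or 0 -/
theorem Kn_mass (hu : An u) (γ : Fm I) : HasSum (Kn j u γ) 1 ∨ Kn j u γ = 0 := by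
  by_cases h : Fam γ ∧ Gd j γ
  · by_cases hz : Z j u γ = 0
    · right
      funext γ'
      simp [Kn, hz]
    · exact Or.inl (hasSum_Kn_Z hs hu h.1 h.2 hz)
  · right
    funext γ'
    exact Kn_bad h

theorem summable_Kn (hu : An u) (γ : Fm I) : Summable (Kn j u γ) := by
  rcases Kn_mass (j := j) hs hu γ with h | h
  · exact h.summable
  · rw [h]
    exact summable_zero

theorem tsum_Kn_le (hu : An u) (γ : Fm I) : ∑' γ', Kn j u γ γ' ≤ 1 := by
  rcases Kn_mass (j := j) hs hu γ with h | h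
  · rw [h.tsum_eq]
  · rw [h]
    simp

theorem Kn_le_one (hu : An u) (γ γ' : Fm I) : Kn j u γ γ' ≤ 1 := by
  rcases Kn_mass (j := j) hs hu γ with h | h
  · exact le_hasSum h γ' fun δ _ => Kn_nonneg hu γ δ
  · rw [h]
    exact zero_le_one

/-- **the adjoint relation** -/
theorem adj (hu : An u) (γ γ' : Fm I) :
    M u γ * Kn j u γ γ' = M (sw j u) γ' * Kn j (sw j u) γ' γ := by
  classical
  by_cases h : Sm j γ γ'
  · have h1 : Z j (sw j u) γ' = Z j u γ := by
      rw [← Z_congr h, Z_sw hs hu h.fam h.gd]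
    simp only [Kn, if_pos h, if_pos h.symm, sw_sw, h1]
    rw [M_eq j u γ, M_eq j (sw j u) γ', wo_sw, wo_out h.out]
    ring
  · rw [Kn_eq_zero h, Kn_eq_zero (fun k => h k.symm), mul_zero, mul_zero]

/-- the chain started in the support stays in the support -/
theorem Kn_M (hu : An u) (hM : M u γ ≠ 0) (hK : Kn j u γ γ' ≠ 0) : M (sw j u) γ' ≠ 0 := by
  have h := adj (j := j) hs hu γ γ'
  intro h0
  rw [h0, zero_mul] at h
  exact (mul_ne_zero hM hK) h

open Classical in
/-- **the weight is carried to the weight of the swapped columns** -/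
theorem hasSum_push (hu : An u) (γ' : Fm I) : HasSum (fun γ : Fm I => M u γ * Kn j u γ γ')
    (if Fam γ' ∧ Gd j γ' then M (sw j u) γ' else 0) := by
  have e1 : (fun γ : Fm I => M u γ * Kn j u γ γ') = fun γ => M (sw j u) γ' * Kn j (sw j u) γ' γ := by
    funext γ
    exact adj hs hu γ γ'
  rw [e1]
  split_ifs with h
  · by_cases hM : M (sw j u) γ' = 0
    · simp only [hM, zero_mul]
      exact hasSum_zero
    · have := (hasSum_Kn hs (j := j) (hu.sw j) h.1 h.2 hM).mul_left (M (sw j u) γ')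
      rwa [mul_one] at this
  · have : (fun γ => M (sw j u) γ' * Kn j (sw j u) γ' γ) = fun _ => 0 := by
      funext γ
      rw [Kn_bad h, mul_zero]
    rw [this]
    exact hasSum_zero

end bath

end Pool.Agent.ROT.E
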