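import Pool.Agent.ROT.EDefs

/-!
# ROT, block E, row E3: the reflection of the rows

`rfc` reflects a configuration in the row `0`; the angle parameter `u` becomes `3 π / 8 - u`.  Everything of one strip
is transported: `Mt`, `Cn`, `Sm1`, `ws1`, and the partition functions.
-/

set_option autoImplicit false

namespace Pool.Agent.ROT.E

open Pool.Agent.EXL (Wt)
open Pool.Agent.YBC (Dir)
open Pool.Agent.UNI (wR DR)

/-! ### directions, cells -/

/-- the reflection of the directions -/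
def drf : Dir → Dir
  | .E => .E
  | .N => .S
  | .W => .W
  | .S => .N

theorem drf_drf (d : Dir) : drf (drf d) = d := by cases d <;> rfl

theorem drf_inj {d d' : Dir} : drf d = drf d' ↔ d = d' :=
  ⟨fun h => by rw [← drf_drf d, h, drf_drf], fun h => by rw [h]⟩

theorem drf_op (d : Dir) : (drf d).op = drf d.op := by cases d <;> rfl

/-- the reflection of the cells -/
def crf : Cell → Cell
  | .o => .o
  | .h => .h
  | .v => .v
  | .sw => .nw
  | .ne => .se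
  | .se => .ne
  | .nw => .sw
  | .x => .y
  | .y => .x

theorem crf_crf (c : Cell) : crf (crf c) = c := by cases c <;> rfl

theorem crf_p (c : Cell) (d : Dir) : (crf c).p (drf d) = drf (c.p d) := by
  cases c <;> cases d <;> rfl

theorem crf_oc (c : Cell) (d : Dir) : (crf c).oc (drf d) ↔ c.oc d := by
  unfold Cell.oc
  rw [crf_p, Ne, Ne, drf_inj]

theorem crf_oc' (c : Cell) (d : Dir) : (crf c).oc d ↔ c.oc (drf d) := by
  have h := crf_oc c (drf d)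
  rwa [drf_drf] at h

/-! ### weights -/

theorem DR_rf (u : ℝ) : DR (3 * Real.pi / 8 - u) = DR u := by
  unfold DR
  have h1 : 3 * Real.pi / 8 - u + Real.pi / 4 = Real.pi - (u + 3 * Real.pi / 8) := by ring
  have h2 : 3 * Real.pi / 8 - u + 3 * Real.pi / 8 = Real.pi - (u + Real.pi / 4) := by ring
  rw [h1, h2, Real.sin_pi_sub, Real.sin_pi_sub, mul_comm]

theorem wt_rf (u : ℝ) (c : Cell) : (crf c).wt (wR (3 * Real.pi / 8 - u)) = c.wt (wR u) := by
  have e1 : 3 * Real.pi / 8 - (3 * Real.pi / 8 - u) = u := by ring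
  have e2 : Real.pi / 4 - (3 * Real.pi / 8 - u) = u - Real.pi / 8 := by ring
  have e3 : 3 * Real.pi / 8 - u - Real.pi / 8 = Real.pi / 4 - u := by ring
  cases c <;> simp only [crf, Cell.wt, wR, DR_rf, e1, e2, e3] <;> ring

/-- the reflected angles -/
noncomputable def urf (u : ℤ → ℝ) : ℤ → ℝ := fun j => 3 * Real.pi / 8 - u j

theorem urf_urf (u : ℤ → ℝ) : urf (urf u) = u := by
  funext j
  simp only [urf]
  ring

theorem An.urf {u : ℤ → ℝ} (h : An u) : An (urf u) := fun j => by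
  have := h j
  simp only [E.urf]
  exact ⟨by linarith [this.2], by linarith [this.1]⟩

theorem sw_urf (j : ℤ) (u : ℤ → ℝ) : sw j (urf u) = urf (sw j u) := by
  funext i
  simp only [sw, urf]
  split_ifs <;> rfl

/-! ### points, half edges, configurations -/

/-- the reflection of the vertices -/
def pe : Pt ≃ Pt where
  toFun v := (v.1, -v.2)
  invFun v := (v.1, -v.2)
  left_inv v := by simp
  right_inv v := by simp

@[simp] theorem pe_fst (v : Pt) : (pe v).1 = v.1 := rfl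

@[simp] theorem pe_snd (v : Pt) : (pe v).2 = -v.2 := rfl

@[simp] theorem pe_pe (v : Pt) : pe (pe v) = v := by
  ext <;> simp [pe]

theorem pe_symm : pe.symm = pe := rfl

theorem nx_pe (v : Pt) (d : Dir) : nx (pe v) (drf d) = pe (nx v d) := by
  cases d <;> simp [nx, drf, pe, Prod.ext_iff] <;> ring

/-- the reflection of the half edges -/
def hr (h : He) : He := (pe h.1, drf h.2)

@[simp] theorem hr_hr (h : He) : hr (hr h) = h := by
  simp [hr, drf_drf]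

theorem hr_inj {h k : He} : hr h = hr k ↔ h = k :=
  ⟨fun e => by rw [← hr_hr h, e, hr_hr], fun e => by rw [e]⟩

@[simp] theorem hr_fst (h : He) : (hr h).1 = pe h.1 := rfl

theorem rv_hr (h : He) : rv (hr h) = hr (rv h) := by
  simp only [rv, hr, nx_pe, drf_op]

/-- the reflection of the configurations -/
noncomputable def rfc (γ : Cfg) : Cfg := (γ.equivMapDomain pe).mapRange crf rfl

@[simp] theorem rfc_apply (γ : Cfg) (v : Pt) : rfc γ v = crf (γ (pe v)) := by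
  simp [rfc, Finsupp.equivMapDomain_apply, pe_symm]

@[simp] theorem rfc_rfc (γ : Cfg) : rfc (rfc γ) = γ := by
  ext v
  simp [crf_crf]

theorem rfc_inj {γ δ : Cfg} : rfc γ = rfc δ ↔ γ = δ :=
  ⟨fun e => by rw [← rfc_rfc γ, e, rfc_rfc], fun e => by rw [e]⟩

/-- the reflection as a bijection -/
noncomputable def rfe : Cfg ≃ Cfg := ⟨rfc, rfc, rfc_rfc, rfc_rfc⟩

theorem oc_rfc (γ : Cfg) (h : He) : oc (rfc γ) (hr h) ↔ oc γ h := by
  simp only [oc, rfc_apply, hr, pe_pe, crf_oc]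

theorem vp_rfc (γ : Cfg) (h : He) : vp (rfc γ) (hr h) = hr (vp γ h) := by
  simp only [vp, rfc_apply, hr, pe_pe, crf_p]

theorem Mt_rfc {γ : Cfg} {A : Set Pt} (hA : ∀ v, pe v ∈ A ↔ v ∈ A) (m : Mt γ A) : Mt (rfc γ) A := by
  intro h h1 h2
  have e : h = hr (hr h) := (hr_hr h).symm
  rw [e] at h1 h2 ⊢
  rw [rv_hr] at h2 ⊢
  rw [oc_rfc, oc_rfc]
  exact m (hr h) ((hA _).1 h1) ((hA _).1 h2)

theorem Lk_rfc {γ : Cfg} {A : Set Pt} (hA : ∀ v, pe v ∈ A ↔ v ∈ A) {h k : He} (l : Lk γ A h k) :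
    Lk (rfc γ) A (hr h) (hr k) := by
  obtain ⟨l1, l2, l3⟩ := l
  refine ⟨(oc_rfc γ h).2 l1, (hA _).2 l2, ?_⟩
  rcases l3 with l3 | ⟨l3, l4⟩
  · left
    rw [l3, vp_rfc]
  · right
    rw [l3, rv_hr]
    exact ⟨rfl, (hA _).2 l4⟩

theorem Cn_rfc1 {γ : Cfg} {A : Set Pt} (hA : ∀ v, pe v ∈ A ↔ v ∈ A) {h k : He} (c : Cn γ A h k) :
    Cn (rfc γ) A (hr h) (hr k) := by
  induction c with
  | rel x y l => exact .rel _ _ (Lk_rfc hA l)
  | refl x => exact .refl _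
  | symm x y _ ih => exact .symm _ _ ih
  | trans x y z _ _ ih1 ih2 => exact .trans _ _ _ ih1 ih2

theorem Cn_rfc {γ : Cfg} {A : Set Pt} (hA : ∀ v, pe v ∈ A ↔ v ∈ A) {h k : He} :
    Cn (rfc γ) A (hr h) (hr k) ↔ Cn γ A h k := by
  refine ⟨fun c => ?_, Cn_rfc1 hA⟩
  have := Cn_rfc1 hA c
  rwa [rfc_rfc, hr_hr, hr_hr] at this

theorem Cn_rfc' {γ : Cfg} {A : Set Pt} (hA : ∀ v, pe v ∈ A ↔ v ∈ A) {h k : He} :
    Cn (rfc γ) A h k ↔ Cn γ A (hr h) (hr k) := by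
  have := Cn_rfc (γ := γ) hA (h := hr h) (k := hr k)
  rwa [hr_hr, hr_hr] at this

/-! ### strips -/

theorem Sp_pe (j : ℤ) (v : Pt) : pe v ∈ Sp j ↔ v ∈ Sp j := Iff.rfl

theorem Bd_hr {j : ℤ} {h : He} : hr h ∈ Bd j ↔ h ∈ Bd j := by
  unfold Bd
  simp only [Set.mem_setOf_eq, rv_hr, hr_fst, Sp_pe]

theorem Sm1_rfc1 {j : ℤ} {γ δ : Cfg} (s : Sm1 j γ δ) : Sm1 j (rfc γ) (rfc δ) := by
  refine ⟨Mt_rfc (fun v => by simp) s.mt, fun v hv => ?_, fun h h1 h2 => ?_, fun h h1 k k1 => ?_⟩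
  · rw [rfc_apply, rfc_apply, s.out (pe v) (fun hh => hv ((Sp_pe j v).1 hh))]
  · rw [← hr_hr h, oc_rfc] at h2
    obtain ⟨k, k1, k2⟩ := s.op (hr h) ((Sp_pe j _).2 h1) h2
    refine ⟨hr k, Bd_hr.2 k1, ?_⟩
    rw [Cn_rfc' (Sp_pe j), hr_hr]
    exact k2
  · rw [Cn_rfc' (Sp_pe j), Cn_rfc' (Sp_pe j)]
    exact s.pr _ (Bd_hr.2 h1) _ (Bd_hr.2 k1)

theorem Sm1_rfc {j : ℤ} {γ δ : Cfg} : Sm1 j (rfc γ) (rfc δ) ↔ Sm1 j γ δ := by
  refine ⟨fun s => ?_, Sm1_rfc1⟩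
  have := Sm1_rfc1 s
  rwa [rfc_rfc, rfc_rfc] at this

theorem Sm1_rfc' {j : ℤ} {γ δ : Cfg} : Sm1 j γ (rfc δ) ↔ Sm1 j (rfc γ) δ := by
  have := Sm1_rfc (j := j) (γ := rfc γ) (δ := δ)
  rwa [rfc_rfc] at this

open Classical in
theorem ws1_rfc (j : ℤ) (u : ℤ → ℝ) (δ : Cfg) : ws1 j (urf u) (rfc δ) = ws1 j u δ := by
  unfold ws1
  have hs : (rfc δ).support = δ.support.map pe.toEmbedding := by
    ext v
    simp only [Finsupp.mem_support_iff, rfc_apply, Finset.mem_map_equiv, pe_symm]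
    constructor
    · intro h e
      exact h (by rw [e]; rfl)
    · intro h e
      exact h (by rw [← crf_crf (δ (pe v)), e]; rfl)
  unfold Finsupp.prod
  rw [hs, Finset.prod_map]
  refine Finset.prod_congr rfl fun v _ => ?_
  simp only [Equiv.coe_toEmbedding, rfc_apply, pe_pe, Sp_pe, pe_fst]
  split_ifs with h
  · exact wt_rf (u v.1) (δ v)
  · rfl

open Classical in
theorem ws1_rfc' (j : ℤ) (u : ℤ → ℝ) (δ : Cfg) : ws1 j u (rfc δ) = ws1 j (urf u) δ := by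
  have := ws1_rfc j (urf u) δ
  rwa [urf_urf] at this

open Classical in
/-- **the reflection of a strip sum** -/
theorem tsum_rfc (j : ℤ) (u : ℤ → ℝ) (γ : Cfg) (P : Cfg → Prop) :
    ∑' δ, (if Sm1 j γ δ ∧ P δ then ws1 j u δ else 0) =
      ∑' δ, (if Sm1 j (rfc γ) δ ∧ P (rfc δ) then ws1 j (urf u) δ else 0) := by
  rw [← rfe.tsum_eq]
  refine tsum_congr fun δ => ?_
  change (if Sm1 j γ (rfc δ) ∧ P (rfc δ) then ws1 j u (rfc δ) else 0) = _
  simp only [Sm1_rfc', ws1_rfc']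

open Classical in
theorem tsum_rfc0 (j : ℤ) (u : ℤ → ℝ) (γ : Cfg) :
    ∑' δ, (if Sm1 j γ δ then ws1 j u δ else 0) =
      ∑' δ, (if Sm1 j (rfc γ) δ then ws1 j (urf u) δ else 0) := by
  rw [← rfe.tsum_eq]
  refine tsum_congr fun δ => ?_
  change (if Sm1 j γ (rfc δ) then ws1 j u (rfc δ) else 0) = _
  simp only [Sm1_rfc', ws1_rfc']

/-! ### the tails -/

open Classical in
/-- the top tail of the overshoot of one arc -/
def TopTail (C ρ : ℝ) : Prop :=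
  ∀ (j : ℤ) (u : ℤ → ℝ), An u → ∀ γ : Cfg, Sm1 j γ γ → ∀ b ∈ Bd j, ∀ b' ∈ Bd j, b ≠ b' → Cn γ (Sp j) b b' →
    ∀ s : ℕ, ∑' δ, (if Sm1 j γ δ ∧ ∃ h, Cn δ (Sp j) b h ∧ max b.1.2 b'.1.2 + s ≤ h.1.2 then ws1 j u δ else 0) ≤
      C * ρ ^ s * ∑' δ, (if Sm1 j γ δ then ws1 j u δ else 0)

open Classical in
/-- the bottom tail of the overshoot of one arc -/
def BotTail (C ρ : ℝ) : Prop :=
  ∀ (j : ℤ) (u : ℤ → ℝ), An u → ∀ γ : Cfg, Sm1 j γ γ → ∀ b ∈ Bd j, ∀ b' ∈ Bd j, b ≠ b' → Cn γ (Sp j) b b' →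
    ∀ s : ℕ, ∑' δ, (if Sm1 j γ δ ∧ ∃ h, Cn δ (Sp j) b h ∧ h.1.2 + s ≤ min b.1.2 b'.1.2 then ws1 j u δ else 0) ≤
      C * ρ ^ s * ∑' δ, (if Sm1 j γ δ then ws1 j u δ else 0)

open Classical in
/-- **the bottom tail is the reflected top tail** -/
theorem botTail {C ρ : ℝ} (T : TopTail C ρ) : BotTail C ρ := by
  intro j u hu γ hγ b hb b' hb' hbb hc s
  rw [tsum_rfc j u γ (fun δ => ∃ h, Cn δ (Sp j) b h ∧ h.1.2 + s ≤ min b.1.2 b'.1.2), tsum_rfc0 j u γ]
  have key := T j (urf u) hu.urf (rfc γ) (Sm1_rfc.2 hγ) (hr b) (Bd_hr.2 hb) (hr b') (Bd_hr.2 hb')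
    (fun e => hbb (hr_inj.1 e)) ((Cn_rfc (Sp_pe j)).2 hc) s
  refine le_trans (le_of_eq ?_) key
  refine tsum_congr fun δ => ?_
  have e : (∃ h, Cn (rfc δ) (Sp j) b h ∧ h.1.2 + (s : ℤ) ≤ min b.1.2 b'.1.2) ↔
      ∃ h, Cn δ (Sp j) (hr b) h ∧ max (hr b).1.2 (hr b').1.2 + (s : ℤ) ≤ h.1.2 := by
    constructor
    · rintro ⟨h, h1, h2⟩
      refine ⟨hr h, (Cn_rfc' (Sp_pe j)).1 h1, ?_⟩
      simp only [hr_fst, pe_snd]
      rcases le_total b.1.2 b'.1.2 with q | q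
      · rw [min_eq_left q] at h2
        rw [max_eq_left (by omega)]
        omega
      · rw [min_eq_right q] at h2
        rw [max_eq_right (by omega)]
        omega
    · rintro ⟨h, h1, h2⟩
      refine ⟨hr h, (Cn_rfc' (Sp_pe j)).2 (by rwa [hr_hr]), ?_⟩
      simp only [hr_fst, pe_snd] at h2 ⊢
      rcases le_total b.1.2 b'.1.2 with q | q
      · rw [min_eq_left q]
        rw [max_eq_left (by omega)] at h2
        omega
      · rw [min_eq_right q]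
        rw [max_eq_right (by omega)] at h2
        omega
  simp only [e]

end Pool.Agent.ROT.E
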