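import Pool.Agent.ROT.ESweep3
import Pool.Agent.ROT.ECell
import Pool.Agent.ROT.EKer

/-!
# ROT, block E, row E1: the strip identity (helper70)

The sum over the configurations of the box is the operator of the sweep (`op_sum`, `sweep`), the operators of the two
orders of the columns have the same limit (`col2_lim`).
-/

set_option autoImplicit false

namespace Pool.Agent.ROT.E

open Filter Topology
open Pool.Agent.EXL Pool.Agent.EXL.Pat
open Pool.Agent.YBC (Dir)
open Pool.Agent.UNI (wR)

theorem bx_mono {V V' : List Pt} (h : ∀ v, v ∈ V → v ∈ V') (γ : Cfg) : bx V γ ⊆ bx V' γ := by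
  intro d hd
  rw [mem_bx] at hd ⊢
  exact fun v hv => hd v fun h' => hv (h v h')

open Classical in
/-- the limit of the operators is the sum over the class of the strip -/
theorem strip_sum {j : ℤ} {γ : Cfg} {m : ℕ} {p0 q0 : Pat St} (u : ℤ → ℝ) (hn : ∀ i, (wR (u i)).Nn) (b : Bool)
    (hsup : ∀ v, γ v ≠ .o → |v.2| ≤ (m : ℤ))
    (hsw : ∀ K : ℕ, m ≤ K → ∀ δ : Cfg, (∀ v, v ∉ Sp j → γ v = δ v) →
      (∀ v ∈ Sp j, δ v ≠ .o → |v.2| ≤ (K : ℤ)) →
        ((ok (swp j (wR (u (j + 1))) (wR (u j)) (.a b) (.a (!b)) St.t K) δ p0 ∧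
          run (swp j (wR (u (j + 1))) (wR (u j)) (.a b) (.a (!b)) St.t K) δ p0 = q0) ↔ Sm1 j γ δ)) {z : ℝ}
    (hz : Tendsto (fun K => col2 (wR (u (j + 1))) (wR (u j)) (.a b) (.a (!b)) (Lr St.t K)
      (fun q => if q = q0 then 1 else 0) p0) atTop (𝓝 z)) :
    HasSum (fun δ : Cfg => if Sm1 j γ δ then ws1 j u δ else 0) z := by
  have hw : ∀ δ : Cfg, 0 ≤ ws1 j u δ := by
    intro δ
    refine Finset.prod_nonneg fun v _ => ?_
    dsimp only
    split_ifs
    · have h := hn v.1
      cases δ v <;> simp only [Cell.wt] <;>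
        first | exact zero_le_one | exact h.v | exact h.u1 | exact h.u2 | exact h.w1 | exact h.w2
    · exact zero_le_one
  refine hsum (S := fun K => bx ((swp j (wR (u (j + 1))) (wR (u j)) (St.a b) (St.a (!b)) St.t K).map Stp.v) γ)
    (fun δ => ?_) ?_ ?_ ?_
  · split_ifs
    · exact hw δ
    · exact le_rfl
  · intro K K' hK
    refine bx_mono (fun v hv => ?_) γ
    rw [mem_swp] at hv ⊢
    have : (K : ℤ) ≤ K' := by exact_mod_cast hK
    exact ⟨hv.1, by omega, by omega⟩
  · intro δ hδ
    have hs : Sm1 j γ δ := by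
      by_contra h
      exact hδ (if_neg h)
    obtain ⟨n, hnn⟩ : ∃ n : ℕ, ∀ v, δ v ≠ .o → |v.2| ≤ (n : ℤ) := by
      refine ⟨δ.support.sup fun v => v.2.natAbs, fun v hv => ?_⟩
      have h1 : v ∈ δ.support := Finsupp.mem_support_iff.2 hv
      have h2 : v.2.natAbs ≤ δ.support.sup fun v => v.2.natAbs :=
        Finset.le_sup (f := fun v : Pt => v.2.natAbs) h1
      have h3 : |v.2| = (v.2.natAbs : ℤ) := Int.abs_eq_natAbs _
      rw [h3]
      exact_mod_cast h2
    refine ⟨max m n, ?_⟩
    rw [mem_bx]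
    intro v hv
    by_cases hj : v ∈ Sp j
    · have hlt : ¬ |v.2| ≤ ((max m n : ℕ) : ℤ) := by
        intro h
        apply hv
        rw [mem_swp]
        have := abs_le.1 h
        exact ⟨hj, this.1, this.2⟩
      have e1 : δ v = .o := by
        by_contra h
        exact hlt (le_trans (hnn v h) (by exact_mod_cast le_max_right m n))
      have e2 : γ v = .o := by
        by_contra h
        exact hlt (le_trans (hsup v h) (by exact_mod_cast le_max_left m n))
      rw [e1, e2]
    · exact (hs.out v hj).symm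
  · refine hz.congr' ?_
    filter_upwards [eventually_ge_atTop m] with K hK
    rw [col_op, op_sum (swp_ne (fun r => by simp) (fun r => by simp)) (swp_nodup j _ _ _ _ _ K) _ p0 γ]
    refine Finset.sum_congr rfl fun δ hδ => ?_
    rw [mem_bx] at hδ
    have hout : ∀ v, v ∉ Sp j → γ v = δ v := by
      intro v hv
      refine (hδ v fun h => hv ?_).symm
      rw [mem_swp] at h
      exact h.1
    have hrow : ∀ v ∈ Sp j, δ v ≠ .o → |v.2| ≤ (K : ℤ) := by
      intro v hv ho
      by_cases h : v ∈ (swp j (wR (u (j + 1))) (wR (u j)) (St.a b) (St.a (!b)) St.t K).map Stp.v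
      · rw [mem_swp] at h
        exact abs_le.2 h.2
      · rw [hδ v h] at ho
        exact le_trans (hsup v ho) (by exact_mod_cast hK)
    have key := hsw K hK δ hout hrow
    by_cases h : Sm1 j γ δ
    · obtain ⟨h1, h2⟩ := key.2 h
      rw [if_pos h, if_pos h1, h2, if_pos rfl, mul_one, wgt_ws]
      intro v hv h0
      have := abs_le.1 (hrow v hv h0)
      exact this
    · rw [if_neg h]
      by_cases h1 : ok (swp j (wR (u (j + 1))) (wR (u j)) (St.a b) (St.a (!b)) St.t K) δ p0
      · rw [if_pos h1, if_neg fun h2 => h (key.1 ⟨h1, h2⟩), mul_zero]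
      · rw [if_neg h1]

/-- **the strip identity** -/
theorem strip1P : Strip1P := by
  intro j u γ hu hγ
  classical
  obtain ⟨m, p0, q0, hp0, hq0, hr, hsup, hsw⟩ := sweep hγ
  have ht : Function.Injective St.t := fun a b h => by injection h
  obtain ⟨z, h1, h2⟩ := col2_lim (t := St.t) ht (c := St.a false) (d := St.a true) (fun r => by simp) (fun r => by simp)
    (by simp) (hu j) (hu (j + 1)) (m := m) (F := fun q => if q = q0 then 1 else 0) (p := p0) (by
      intro q hq
      refine if_neg ?_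
      rintro rfl
      rcases hq with h | h | ⟨r, h1, h2⟩
      · exact h (hq0 _)
      · exact h (hq0 _)
      · exact h2 (hr r h1).2) ⟨hp0 _, hp0 _, fun r h => (hr r h).1⟩
  refine ⟨z, ?_, ?_⟩
  · exact strip_sum u (fun i => Pool.Agent.UNI.wR_nn (hu i).1 (hu i).2) true hsup
      (fun K hK δ h3 h4 => hsw true K hK δ h3 h4 _ _) h1
  · have e1 : sw j u (j + 1) = u j := by simp [sw]
    have e2 : sw j u j = u (j + 1) := by simp [sw]
    refine strip_sum (sw j u) (fun i => Pool.Agent.UNI.wR_nn (hu.sw j i).1 (hu.sw j i).2) false hsup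
      (fun K hK δ h3 h4 => hsw false K hK δ h3 h4 _ _) ?_
    rw [e1, e2]
    exact h2

end Pool.Agent.ROT.E
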