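import Pool.Agent.ROT.EEdge

/-!
# ROT, block E: the sweep of the strip

After `A - lo` vertices of the right column and `B - lo` vertices of the left column have been visited, the pairing of the
sites is the connectivity of the frontier edges.
-/

set_option autoImplicit false

namespace Pool.Agent.ROT.E

open Pool.Agent.EXL Pool.Agent.EXL.Pat
open Pool.Agent.YBC (Dir)
open Pool.Agent.ROT.E.Lab (cn_oc cn_refl cn_symm cn_trans cn_vp cn_rv rv_rv vp_vp oc_vp)

/-- the sites: the two column tracks, the ghosts of the right boundary, the row tracks -/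
inductive St
  | a (b : Bool)
  | g (r : ℤ)
  | t (r : ℤ)
  deriving DecidableEq

/-- the visited vertices -/
def Pv (j lo A B : ℤ) : Set Pt := {w | (w.1 = j + 1 ∧ lo ≤ w.2 ∧ w.2 < A) ∨ (w.1 = j ∧ lo ≤ w.2 ∧ w.2 < B)}

/-- the half edge of a site -/
def fh (b : Bool) (j lo A B : ℤ) : St → He
  | .a b' => if b' = b then ((j + 1, A - 1), .N) else ((j, B - 1), .N)
  | .g r => ((j + 2, r), .W)
  | .t r => if lo ≤ r ∧ r < B then ((j, r), .W) else if lo ≤ r ∧ r < A then ((j + 1, r), .W) else ((j + 2, r), .W)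

/-- the frontier edge of a site -/
def fe (b : Bool) (j lo A B : ℤ) (s : St) : Ed := ed (fh b j lo A B s)

/-- the state of the sweep -/
structure Stg (δ : Cfg) (b : Bool) (j lo A B : ℤ) (p : Pat St) : Prop where
  inv : Inv (Qr δ (Pv j lo A B)) (fe b j lo A B) p
  occ : ∀ s, p s ≠ s ↔ oc δ (fh b j lo A B s)

/-- one step, abstract -/
theorem step {δ : Cfg} {P P' : Set Pt} {f f' : St → He} {p : Pat St} {v : Pt} {i k : St}
    (h : Inv (Qr δ P) (fun s => ed (f s)) p) (ho : ∀ s, p s ≠ s ↔ oc δ (f s)) (hik : i ≠ k)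
    (hP' : ∀ w, w ∈ P' ↔ w = v ∨ w ∈ P) (hi : ed (f i) = ed (v, .S)) (hk : ed (f k) = ed (v, .E))
    (hN : ∀ s, ed (f s) ≠ ed (v, .N)) (hW : ∀ s, ed (f s) ≠ ed (v, .W))
    (uN : ∀ x : He, ed x = ed (v, .N) → x.1 ∉ P) (uW : ∀ x : He, ed x = ed (v, .W) → x.1 ∉ P)
    (fi : f' i = (v, .N)) (fk : f' k = (v, .W)) (fo : ∀ s, s ≠ i → s ≠ k → f' s = f s)
    (hf : fit i k p (δ v)) :
    Inv (Qr δ P') (fun s => ed (f' s)) (mv i k p (δ v)) ∧ ∀ s, mv i k p (δ v) s ≠ s ↔ oc δ (f' s) := by
  have hnw : ed (v, .N) ≠ ed (v, .W) := by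
    obtain ⟨x, y⟩ := v
    simp [ed]
  have h1 := h.cell hik (iso_of uN) (iso_of uW) hN hW hnw hf
  obtain ⟨m1, m2, m3⟩ := mv_occ hik hf
  constructor
  · rw [Qr_step hP']
    have e1 : (fun s => ed (f' s)) = Function.update (Function.update (fun s => ed (f s)) i (ed (v, .N))) k
        (ed (v, .W)) := by
      funext s
      by_cases s1 : s = k
      · subst s1; rw [Function.update_self, fk]
      · rw [Function.update_of_ne s1]
        by_cases s2 : s = i
        · subst s2; rw [Function.update_self, fi]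
        · rw [Function.update_of_ne s2, fo s s2 s1]
    rw [e1, ← hi, ← hk]
    exact h1
  · intro s
    by_cases s1 : s = k
    · subst s1; rw [fk]; exact m2
    · by_cases s2 : s = i
      · subst s2; rw [fi]; exact m1
      · rw [fo s s2 s1, m3 s s2 s1]; exact ho s

theorem mem_Pv {j lo A B : ℤ} {w : Pt} :
    w ∈ Pv j lo A B ↔ (w.1 = j + 1 ∧ lo ≤ w.2 ∧ w.2 < A) ∨ (w.1 = j ∧ lo ≤ w.2 ∧ w.2 < B) := Iff.rfl

section

variable {δ : Cfg} {b : Bool} {j lo A B : ℤ} {p : Pat St}

theorem fe_a {b' : Bool} : fe b j lo A B (.a b') = if b' = b then ((j + 1, A - 1), true) else ((j, B - 1), true) := by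
  simp only [fe, fh]
  split_ifs <;> rfl

theorem fe_g {r : ℤ} : fe b j lo A B (.g r) = ((j + 1, r), false) := by
  simp only [fe, fh, ed]
  congr 2
  omega

theorem fe_t {r : ℤ} : fe b j lo A B (.t r) = if lo ≤ r ∧ r < B then ((j - 1, r), false) else
    if lo ≤ r ∧ r < A then ((j, r), false) else ((j + 1, r), false) := by
  simp only [fe, fh]
  split_ifs
  · rfl
  · simp only [ed]; congr 2; omega
  · simp only [ed]; congr 2; omega

theorem ed_N (x y : ℤ) : ed ((x, y), .N) = ((x, y), true) := rfl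
theorem ed_S (x y : ℤ) : ed ((x, y), .S) = ((x, y - 1), true) := rfl
theorem ed_E (x y : ℤ) : ed ((x, y), .E) = ((x, y), false) := rfl
theorem ed_W (x y : ℤ) : ed ((x, y), .W) = ((x - 1, y), false) := rfl

/-- the vertices of an edge -/
theorem ed_true {x : He} {v : Pt} (h : ed x = (v, true)) : x.1 = v ∨ x.1 = (v.1, v.2 + 1) := by
  obtain ⟨⟨a, b⟩, d⟩ := x
  cases d <;> simp [ed, Prod.ext_iff] at h ⊢ <;> omega

theorem ed_false {x : He} {v : Pt} (h : ed x = (v, false)) : x.1 = v ∨ x.1 = (v.1 + 1, v.2) := by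
  obtain ⟨⟨a, b⟩, d⟩ := x
  cases d <;> simp [ed, Prod.ext_iff] at h ⊢ <;> omega

/-- a step in the right column -/
theorem Stg.right (h : Stg δ b j lo A lo p) (hA : lo ≤ A) (hf : fit (.a b) (.t A) p (δ (j + 1, A))) :
    Stg δ b j lo (A + 1) lo (mv (.a b) (.t A) p (δ (j + 1, A))) := by
  have h1 : ∀ w, w ∈ Pv j lo (A + 1) lo ↔ w = (j + 1, A) ∨ w ∈ Pv j lo A lo := by
    rintro ⟨x, y⟩
    simp only [mem_Pv, Prod.mk.injEq]
    omega
  have hs := step (P' := Pv j lo (A + 1) lo) (f' := fh b j lo (A + 1) lo) (v := (j + 1, A)) (i := .a b) (k := .t A)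
    h.inv h.occ (by simp) h1 ?_ ?_ ?_ ?_ ?_ ?_ ?_ ?_ ?_ hf
  · exact ⟨hs.1, hs.2⟩
  · show fe b j lo A lo (.a b) = _
    rw [fe_a, if_pos rfl]; rfl
  · show fe b j lo A lo (.t A) = _
    rw [fe_t, if_neg (by omega), if_neg (by omega)]; rfl
  · intro s
    show fe b j lo A lo s ≠ _
    rw [ed_N]
    cases s with
    | a b' => rw [fe_a]; split_ifs <;> simp
    | g r => rw [fe_g]; simp
    | t r => rw [fe_t]; split_ifs <;> simp
  · intro s
    show fe b j lo A lo s ≠ _
    rw [ed_W]
    cases s with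
    | a b' => rw [fe_a]; split_ifs <;> simp
    | g r => rw [fe_g]; simp
    | t r => rw [fe_t]; split_ifs <;> simp <;> omega
  · intro x hx
    rcases ed_true hx with e | e <;> rw [e, mem_Pv] <;> simp only <;> omega
  · intro x hx
    rcases ed_false hx with e | e <;> rw [e, mem_Pv] <;> simp only <;> omega
  · simp [fh]
  · show fh b j lo (A + 1) lo (.t A) = _
    simp only [fh]
    rw [if_neg (by omega), if_pos (by omega)]
  · intro s s1 s2
    cases s with
    | a b' =>
      have : b' ≠ b := fun e => s1 (by rw [e])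
      simp only [fh, if_neg this]
    | g r => rfl
    | t r =>
      have : r ≠ A := fun e => s2 (by rw [e])
      simp only [fh]
      have e1 : (lo ≤ r ∧ r < A + 1) ↔ (lo ≤ r ∧ r < A) := by omega
      simp only [e1]

/-- a step in the left column -/
theorem Stg.left (h : Stg δ b j lo A B p) (hB : lo ≤ B) (hBA : B < A)
    (hf : fit (.a (!b)) (.t B) p (δ (j, B))) : Stg δ b j lo A (B + 1) (mv (.a (!b)) (.t B) p (δ (j, B))) := by
  have hb : (!b) ≠ b := by cases b <;> simp
  have h1 : ∀ w, w ∈ Pv j lo A (B + 1) ↔ w = (j, B) ∨ w ∈ Pv j lo A B := by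
    rintro ⟨x, y⟩
    simp only [mem_Pv, Prod.mk.injEq]
    omega
  have hs := step (P' := Pv j lo A (B + 1)) (f' := fh b j lo A (B + 1)) (v := (j, B)) (i := .a (!b)) (k := .t B)
    h.inv h.occ (by simp) h1 ?_ ?_ ?_ ?_ ?_ ?_ ?_ ?_ ?_ hf
  · exact ⟨hs.1, hs.2⟩
  · show fe b j lo A B (.a (!b)) = _
    rw [fe_a, if_neg hb]; rfl
  · show fe b j lo A B (.t B) = _
    rw [fe_t, if_neg (by omega), if_pos (by omega)]; rfl
  · intro s
    show fe b j lo A B s ≠ _
    rw [ed_N]
    cases s with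
    | a b' => rw [fe_a]; split_ifs <;> simp
    | g r => rw [fe_g]; simp
    | t r => rw [fe_t]; split_ifs <;> simp
  · intro s
    show fe b j lo A B s ≠ _
    rw [ed_W]
    cases s with
    | a b' => rw [fe_a]; split_ifs <;> simp
    | g r => rw [fe_g]; (simp; omega)
    | t r => rw [fe_t]; split_ifs <;> simp <;> omega
  · intro x hx
    rcases ed_true hx with e | e <;> rw [e, mem_Pv] <;> simp only <;> omega
  · intro x hx
    rcases ed_false hx with e | e <;> rw [e, mem_Pv] <;> simp only <;> omega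
  · simp [fh, hb]
  · show fh b j lo A (B + 1) (.t B) = _
    simp only [fh]
    rw [if_pos (by omega)]
  · intro s s1 s2
    cases s with
    | a b' =>
      have : b' = b := by
        by_contra hc
        apply s1
        congr 1
        cases b <;> cases b' <;> simp_all
      simp only [fh, if_pos this]
    | g r => rfl
    | t r =>
      have : r ≠ B := fun e => s2 (by rw [e])
      simp only [fh]
      have e1 : (lo ≤ r ∧ r < B + 1) ↔ (lo ≤ r ∧ r < B) := by omega
      simp only [e1]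

end

/-- the edge of the half edge is at the frontier (not at `i`, `k`) or not yet visited -/
def Fr (P : Set Pt) (f : St → He) (i k : St) (v : Pt) (h : He) : Prop :=
  (∃ s, s ≠ i ∧ s ≠ k ∧ ed (f s) = ed h) ∨ ((∀ x : He, ed x = ed h → x.1 ∉ P) ∧ ed h ≠ ed (v, .S))

section

variable {δ : Cfg} {P A : Set Pt} {f : St → He} {p : Pat St} {v : Pt} {i k : St}

theorem far (h : Inv (Qr δ P) (fun s => ed (f s)) p) (hi : ed (f i) = ed (v, .S)) (hpi : p i ≠ i) (hpk : p i = k)
    {x : He} (hx : Fr P f i k v x) : ¬ Qr δ P (ed x) (ed (v, .S)) := by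
  intro q
  rcases hx with ⟨s, s1, s2, s3⟩ | ⟨s1, s2⟩
  · rw [← s3, ← hi] at q
    by_cases hs : p s = s
    · have e1 : ed (f i) = ed (f s) := h.emp s hs _ q
      exact h.shr i s e1 hpi hs
    · have q' : Qr δ P (ed (f i)) (ed (f s)) := (Qr_equiv δ P).symm q
      rcases h.sep i s hpi hs q' with e | e
      · exact s1 e
      · exact s2 (by rw [e, hpk])
  · exact s2 (iso_of s1 _ q).symm

theorem no_loop (mtA : Mt δ A) (h : Inv (Qr δ P) (fun s => ed (f s)) p) (hi : ed (f i) = ed (v, .S))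
    (hk : ed (f k) = ed (v, .E)) (hpi : p i ≠ i) (hpk : p i = k) (hc : (δ v).p .S = .E)
    (uN : ∀ x : He, ed x = ed (v, .N) → x.1 ∉ P) (uW : ∀ x : He, ed x = ed (v, .W) → x.1 ∉ P)
    (H1 : ∀ w ∈ A, w ∉ P → w ≠ v → δ w ≠ .o → ∀ d, Fr P f i k v (w, d)) {x : He} (c : Cn δ A (v, .S) x) :
    Qr δ P (ed x) (ed (v, .S)) := by
  have hE := Qr_equiv δ P
  have q0 : Qr δ P (ed (v, .S)) (ed (v, .E)) := by
    have := h.con i
    rw [hpk] at this
    rw [hi, hk] at this
    exact this
  have key : ∀ y z : He, Qr δ P (ed y) (ed (v, .S)) → Lk δ A y z → Qr δ P (ed z) (ed (v, .S)) := by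
    rintro ⟨w, d⟩ z q ⟨oy, hw, rfl | ⟨rfl, _⟩⟩
    · have ow : δ w ≠ .o := by
        intro e
        have : (δ w).oc d := oy
        rw [e] at this
        exact this rfl
      by_cases hwP : w ∈ P
      · have : Qr δ P (ed (w, d)) (ed (w, (δ w).p d)) := .rel _ _ ⟨w, hwP, d, oy, rfl, rfl⟩
        exact hE.trans (hE.symm this) q
      · by_cases hwv : w = v
        · subst hwv
          show Qr δ P (ed (w, (δ w).p d)) _
          cases d with
          | S => rw [hc]; exact hE.symm q0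
          | E =>
            have : (δ w).p .E = .S := by rw [← hc, Lab.p_p]
            rw [this]; exact hE.refl _
          | N =>
            have := congrArg (fun x => x.1.2) (iso_of uN _ q)
            simp only [ed] at this
            omega
          | W =>
            have := congrArg (fun x => x.2) (iso_of uW _ q)
            simp [ed] at this
        · exact absurd q (far h hi hpi hpk (H1 w hw hwP hwv ow d))
    · rw [ed_rv]; exact q
  exact Lab.cn_of mtA (P := fun y => Qr δ P (ed y) (ed (v, .S))) key c (hE.refl _)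

end

section

variable {δ : Cfg} {b : Bool} {j lo A B H : ℤ} {p : Pat St}

theorem bd_cases {h : He} (hb : h ∈ Bd j) : (∃ r, h = ((j + 1, r), .E)) ∨ ∃ r, h = ((j, r), .W) := by
  obtain ⟨⟨x, y⟩, d⟩ := h
  obtain ⟨h1, h2⟩ := hb
  cases d <;> simp [Sp, rv, nx, Prod.ext_iff] at h1 h2 ⊢ <;> omega

theorem bd_E (j r : ℤ) : ((j + 1, r), Dir.E) ∈ Bd j := by
  refine ⟨Or.inr rfl, ?_⟩
  simp [Sp, rv, nx]
  omega

theorem bd_W (j r : ℤ) : ((j, r), Dir.W) ∈ Bd j := by
  refine ⟨Or.inl rfl, ?_⟩
  simp [Sp, rv, nx]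
  omega

/-- the next cell of the right column fits -/
theorem Stg.fit_right (h : Stg δ b j lo A lo p) (mt : Mt δ Set.univ)
    (op : ∀ h : He, h.1 ∈ Sp j → oc δ h → ∃ k ∈ Bd j, Cn δ (Sp j) h k)
    (rg : ∀ v ∈ Sp j, δ v ≠ .o → lo ≤ v.2 ∧ v.2 < H) (hA : lo ≤ A) :
    fit (.a b) (.t A) p (δ (j + 1, A)) := by
  have e1 : fh b j lo A lo (.a b) = rv ((j + 1, A), .S) := by simp [fh, rv, nx, Dir.op]
  have e2 : fh b j lo A lo (.t A) = rv ((j + 1, A), .E) := by
    simp only [fh]
    rw [if_neg (by omega), if_neg (by omega)]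
    simp only [rv, nx, Dir.op]
    congr 2; omega
  have f1 : (δ (j + 1, A)).oc .S ↔ p (.a b) ≠ .a b := by
    rw [h.occ, e1]
    exact mt ((j + 1, A), .S) trivial trivial
  have f2 : (δ (j + 1, A)).oc .E ↔ p (.t A) ≠ .t A := by
    rw [h.occ, e2]
    exact mt ((j + 1, A), .E) trivial trivial
  refine ⟨f1, f2, fun hc hpk => ?_⟩
  have oS : (δ (j + 1, A)).oc .S := by
    show (δ (j + 1, A)).p .S ≠ .S
    rw [hc]; simp
  have hpi := f1.1 oS
  have hi : ed (fh b j lo A lo (.a b)) = ed ((j + 1, A), .S) := by rw [e1, ed_rv]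
  have hk : ed (fh b j lo A lo (.t A)) = ed ((j + 1, A), .E) := by rw [e2, ed_rv]
  have gR : ∀ r, Fr (Pv j lo A lo) (fh b j lo A lo) (.a b) (.t A) (j + 1, A) ((j + 1, r), .E) := by
    intro r
    refine Or.inl ⟨.g r, by simp, by simp, ?_⟩
    show fe b j lo A lo (.g r) = _
    rw [fe_g]; rfl
  have gW : ∀ r, Fr (Pv j lo A lo) (fh b j lo A lo) (.a b) (.t A) (j + 1, A) ((j, r), .W) := by
    intro r
    refine Or.inr ⟨fun x hx => ?_, by simp [ed]⟩
    rcases ed_false hx with e | e <;> rw [e, mem_Pv] <;> simp only <;> omega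
  have H1 : ∀ w ∈ Sp j, w ∉ Pv j lo A lo → w ≠ (j + 1, A) → δ w ≠ .o → ∀ d,
      Fr (Pv j lo A lo) (fh b j lo A lo) (.a b) (.t A) (j + 1, A) (w, d) := by
    rintro ⟨x, y⟩ hw hwP hwv hwo d
    have hr := rg _ hw hwo
    simp only [mem_Pv] at hwP
    simp only [ne_eq, Prod.mk.injEq] at hwv
    simp only at hr
    rcases hw with e | e
    · simp only at e
      subst e
      cases d with
      | W => exact gW y
      | E =>
        by_cases hy : y < A
        · refine Or.inl ⟨.t y, by simp, by simp; omega, ?_⟩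
          show fe b x lo A lo (.t y) = _
          rw [fe_t, if_neg (by omega), if_pos (by omega)]; rfl
        · refine Or.inr ⟨fun z hz => ?_, by simp [ed]⟩
          rcases ed_false hz with e | e <;> rw [e, mem_Pv] <;> simp only <;> omega
      | N =>
        refine Or.inr ⟨fun z hz => ?_, by simp [ed]⟩
        rcases ed_true hz with e | e <;> rw [e, mem_Pv] <;> simp only <;> omega
      | S =>
        refine Or.inr ⟨fun z hz => ?_, by simp [ed]⟩
        rcases ed_true hz with e | e <;> rw [e, mem_Pv] <;> simp only <;> omega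
    · simp only at e
      subst e
      cases d with
      | E => exact gR y
      | W =>
        refine Or.inr ⟨fun z hz => ?_, by simp [ed]⟩
        rcases ed_false hz with e | e <;> rw [e, mem_Pv] <;> simp only <;> omega
      | N =>
        refine Or.inr ⟨fun z hz => ?_, by simp [ed]; omega⟩
        rcases ed_true hz with e | e <;> rw [e, mem_Pv] <;> simp only <;> omega
      | S =>
        refine Or.inr ⟨fun z hz => ?_, by simp [ed]; omega⟩
        rcases ed_true hz with e | e <;> rw [e, mem_Pv] <;> simp only <;> omega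
  obtain ⟨x, hx, cx⟩ := op ((j + 1, A), .S) (Or.inr rfl) oS
  have q := no_loop (Lab.mt_mono mt) h.inv hi hk hpi hpk hc ?_ ?_ H1 cx
  · rcases bd_cases hx with ⟨r, rfl⟩ | ⟨r, rfl⟩
    · exact far h.inv hi hpi hpk (gR r) q
    · exact far h.inv hi hpi hpk (gW r) q
  · intro x hx
    rcases ed_true hx with e | e <;> rw [e, mem_Pv] <;> simp only <;> omega
  · intro x hx
    rcases ed_false hx with e | e <;> rw [e, mem_Pv] <;> simp only <;> omega

/-- the next cell of the left column fits -/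
theorem Stg.fit_left (h : Stg δ b j lo H B p) (mt : Mt δ Set.univ)
    (op : ∀ h : He, h.1 ∈ Sp j → oc δ h → ∃ k ∈ Bd j, Cn δ (Sp j) h k)
    (rg : ∀ v ∈ Sp j, δ v ≠ .o → lo ≤ v.2 ∧ v.2 < H) (hB : lo ≤ B) (hBH : B < H) :
    fit (.a (!b)) (.t B) p (δ (j, B)) := by
  have hb : (!b) ≠ b := by cases b <;> simp
  have e1 : fh b j lo H B (.a (!b)) = rv ((j, B), .S) := by simp [fh, rv, nx, Dir.op, hb]
  have e2 : fh b j lo H B (.t B) = rv ((j, B), .E) := by
    simp only [fh]
    rw [if_neg (by omega), if_pos (by omega)]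
    simp only [rv, nx, Dir.op]
  have f1 : (δ (j, B)).oc .S ↔ p (.a (!b)) ≠ .a (!b) := by
    rw [h.occ, e1]
    exact mt ((j, B), .S) trivial trivial
  have f2 : (δ (j, B)).oc .E ↔ p (.t B) ≠ .t B := by
    rw [h.occ, e2]
    exact mt ((j, B), .E) trivial trivial
  refine ⟨f1, f2, fun hc hpk => ?_⟩
  have oS : (δ (j, B)).oc .S := by
    show (δ (j, B)).p .S ≠ .S
    rw [hc]; simp
  have hpi := f1.1 oS
  have hi : ed (fh b j lo H B (.a (!b))) = ed ((j, B), .S) := by rw [e1, ed_rv]
  have hk : ed (fh b j lo H B (.t B)) = ed ((j, B), .E) := by rw [e2, ed_rv]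
  have gR : ∀ r, Fr (Pv j lo H B) (fh b j lo H B) (.a (!b)) (.t B) (j, B) ((j + 1, r), .E) := by
    intro r
    refine Or.inl ⟨.g r, by simp, by simp, ?_⟩
    show fe b j lo H B (.g r) = _
    rw [fe_g]; rfl
  have gW : ∀ r, Fr (Pv j lo H B) (fh b j lo H B) (.a (!b)) (.t B) (j, B) ((j, r), .W) := by
    intro r
    by_cases hr : lo ≤ r ∧ r < B
    · refine Or.inl ⟨.t r, by simp, by simp; omega, ?_⟩
      show fe b j lo H B (.t r) = _
      rw [fe_t, if_pos hr]; rfl
    · refine Or.inr ⟨fun x hx => ?_, by simp [ed]⟩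
      rcases ed_false hx with e | e <;> rw [e, mem_Pv] <;> simp only <;> omega
  have H1 : ∀ w ∈ Sp j, w ∉ Pv j lo H B → w ≠ (j, B) → δ w ≠ .o → ∀ d,
      Fr (Pv j lo H B) (fh b j lo H B) (.a (!b)) (.t B) (j, B) (w, d) := by
    rintro ⟨x, y⟩ hw hwP hwv hwo d
    have hr := rg _ hw hwo
    simp only [mem_Pv] at hwP
    simp only [ne_eq, Prod.mk.injEq] at hwv
    simp only at hr
    rcases hw with e | e
    · simp only at e
      subst e
      cases d with
      | W => exact gW y
      | E =>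
        refine Or.inl ⟨.t y, by simp, by simp; omega, ?_⟩
        show fe b x lo H B (.t y) = _
        rw [fe_t, if_neg (by omega), if_pos (by omega)]; rfl
      | N =>
        refine Or.inr ⟨fun z hz => ?_, by simp [ed]; omega⟩
        rcases ed_true hz with e | e <;> rw [e, mem_Pv] <;> simp only <;> omega
      | S =>
        refine Or.inr ⟨fun z hz => ?_, by simp [ed]; omega⟩
        rcases ed_true hz with e | e <;> rw [e, mem_Pv] <;> simp only <;> omega
    · simp only at e
      exfalso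
      omega
  obtain ⟨x, hx, cx⟩ := op ((j, B), .S) (Or.inl rfl) oS
  have q := no_loop (Lab.mt_mono mt) h.inv hi hk hpi hpk hc ?_ ?_ H1 cx
  · rcases bd_cases hx with ⟨r, rfl⟩ | ⟨r, rfl⟩
    · exact far h.inv hi hpi hpk (gR r) q
    · exact far h.inv hi hpi hpk (gW r) q
  · intro x hx
    rcases ed_true hx with e | e <;> rw [e, mem_Pv] <;> simp only <;> omega
  · intro x hx
    rcases ed_false hx with e | e <;> rw [e, mem_Pv] <;> simp only <;> omega

end

end Pool.Agent.ROT.E
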