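import Pool.Agent.ROT.ESweep
import Pool.Agent.ROT.ECell

/-!
# ROT, block E: the sweep of the strip, final form
-/

set_option autoImplicit false

namespace Pool.Agent.ROT.E

open Pool.Agent.EXL Pool.Agent.EXL.Pat
open Pool.Agent.YBC (Dir)
open Pool.Agent.ROT.E.Lab (cn_oc cn_refl cn_symm cn_trans cn_vp cn_rv rv_rv vp_vp oc_vp)

section

variable {α : Type*} [DecidableEq α]

theorem run_append (L L' : List (Stp α)) (δ : Pt → Cell) (p : Pat α) :
    run (L ++ L') δ p = run L' δ (run L δ p) := by
  induction L generalizing p with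
  | nil => rfl
  | cons s L ih => simp only [List.cons_append, run, ih]

theorem ok_append (L L' : List (Stp α)) (δ : Pt → Cell) (p : Pat α) :
    ok (L ++ L') δ p ↔ ok L δ p ∧ ok L' δ (run L δ p) := by
  induction L generalizing p with
  | nil => simp [ok, run]
  | cons s L ih => simp only [List.cons_append, ok, run, ih, and_assoc]

end

/-- consecutive integers -/
def cs (A : ℤ) (n : ℕ) : List ℤ := (List.range n).map fun i : ℕ => (i : ℤ) + A

theorem cs_zero (A : ℤ) : cs A 0 = [] := rfl

theorem cs_succ (A : ℤ) (n : ℕ) : cs A (n + 1) = A :: cs (A + 1) n := by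
  unfold cs
  rw [List.range_succ_eq_map, List.map_cons, List.map_map]
  congr 1
  · simp
  · apply List.map_congr_left
    intro i _
    simp only [Function.comp_apply, Nat.cast_succ]
    ring

theorem rows_cs (K : ℕ) : rows K = cs (-K) (2 * K + 1) := by
  rw [rows_eq, cs]
  apply List.map_congr_left
  intro i _
  ring

section

variable {δ : Cfg} {b : Bool} {j lo A B H : ℤ} {p : Pat St}

theorem right_m (h : Stg δ b j lo A lo p) (hf : fit (.a b) (.t A) p (δ (j + 1, A))) :
    (oc δ ((j + 1, A), .S) ↔ oc δ (rv ((j + 1, A), .S))) ∧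
      (oc δ ((j + 1, A), .E) ↔ oc δ (rv ((j + 1, A), .E))) := by
  have e1 : fh b j lo A lo (.a b) = rv ((j + 1, A), .S) := by simp [fh, rv, nx, Dir.op]
  have e2 : fh b j lo A lo (.t A) = rv ((j + 1, A), .E) := by
    simp only [fh]
    rw [if_neg (by omega), if_neg (by omega)]
    simp only [rv, nx, Dir.op]
    congr 2; omega
  rw [← e1, ← e2, ← h.occ, ← h.occ]
  exact ⟨hf.1, hf.2.1⟩

theorem left_m (h : Stg δ b j lo A B p) (hB : lo ≤ B) (hBA : B < A)
    (hf : fit (.a (!b)) (.t B) p (δ (j, B))) :
    (oc δ ((j, B), .S) ↔ oc δ (rv ((j, B), .S))) ∧ (oc δ ((j, B), .E) ↔ oc δ (rv ((j, B), .E))) := by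
  have hb : (!b) ≠ b := by cases b <;> simp
  have e1 : fh b j lo A B (.a (!b)) = rv ((j, B), .S) := by simp [fh, rv, nx, Dir.op, hb]
  have e2 : fh b j lo A B (.t B) = rv ((j, B), .E) := by
    simp only [fh]
    rw [if_neg (by omega), if_pos (by omega)]
    simp only [rv, nx, Dir.op]
  rw [← e1, ← e2, ← h.occ, ← h.occ]
  exact ⟨hf.1, hf.2.1⟩

/-- the steps of the right column -/
def sR (b : Bool) (j : ℤ) (w : Wt ℝ) (r : ℤ) : Stp St := ⟨(j + 1, r), .a b, .t r, w⟩

/-- the steps of the left column -/
def sL (b : Bool) (j : ℤ) (w : Wt ℝ) (r : ℤ) : Stp St := ⟨(j, r), .a (!b), .t r, w⟩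

theorem fwdR (w : Wt ℝ) (n : ℕ) (A : ℤ) (p : Pat St) (hA : lo ≤ A) (h : Stg δ b j lo A lo p)
    (hok : ok ((cs A n).map (sR b j w)) δ p) :
    Stg δ b j lo (A + n) lo (run ((cs A n).map (sR b j w)) δ p) ∧ ∀ r, A ≤ r → r < A + n →
      (oc δ ((j + 1, r), .S) ↔ oc δ (rv ((j + 1, r), .S))) ∧
      (oc δ ((j + 1, r), .E) ↔ oc δ (rv ((j + 1, r), .E))) := by
  induction n generalizing A p with
  | zero =>
    refine ⟨?_, fun r h1 h2 => ?_⟩
    · simpa [cs_zero, run] using h
    · exfalso; simp at h2; omega
  | succ n ih =>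
    rw [cs_succ, List.map_cons] at hok ⊢
    obtain ⟨h1, h2⟩ := hok
    have h3 := h.right hA h1
    obtain ⟨h4, h5⟩ := ih (A + 1) _ (by omega) h3 h2
    refine ⟨?_, fun r g1 g2 => ?_⟩
    · have e : A + ((n + 1 : ℕ) : ℤ) = A + 1 + n := by push_cast; ring
      rw [e]
      exact h4
    · by_cases hr : r = A
      · subst hr
        exact right_m h h1
      · exact h5 r (by omega) (by push_cast at g2; omega)

theorem fwdL (w : Wt ℝ) (n : ℕ) (B : ℤ) (p : Pat St) (hB : lo ≤ B) (hBA : B + n ≤ A) (h : Stg δ b j lo A B p)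
    (hok : ok ((cs B n).map (sL b j w)) δ p) :
    Stg δ b j lo A (B + n) (run ((cs B n).map (sL b j w)) δ p) ∧ ∀ r, B ≤ r → r < B + n →
      (oc δ ((j, r), .S) ↔ oc δ (rv ((j, r), .S))) ∧ (oc δ ((j, r), .E) ↔ oc δ (rv ((j, r), .E))) := by
  induction n generalizing B p with
  | zero =>
    refine ⟨?_, fun r h1 h2 => ?_⟩
    · simpa [cs_zero, run] using h
    · exfalso; simp at h2; omega
  | succ n ih =>
    rw [cs_succ, List.map_cons] at hok ⊢
    obtain ⟨h1, h2⟩ := hok
    have hlt : B < A := by push_cast at hBA; omega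
    have h3 := h.left hB hlt h1
    obtain ⟨h4, h5⟩ := ih (B + 1) _ (by omega) (by push_cast at hBA; omega) h3 h2
    refine ⟨?_, fun r g1 g2 => ?_⟩
    · have e : B + ((n + 1 : ℕ) : ℤ) = B + 1 + n := by push_cast; ring
      rw [e]
      exact h4
    · by_cases hr : r = B
      · subst hr
        exact left_m h hB hlt h1
      · exact h5 r (by omega) (by push_cast at g2; omega)

theorem bwdR (w : Wt ℝ) (mt : Mt δ Set.univ)
    (op : ∀ h : He, h.1 ∈ Sp j → oc δ h → ∃ k ∈ Bd j, Cn δ (Sp j) h k)
    (rg : ∀ v ∈ Sp j, δ v ≠ .o → lo ≤ v.2 ∧ v.2 < H) (n : ℕ) (A : ℤ) (p : Pat St) (hA : lo ≤ A)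
    (h : Stg δ b j lo A lo p) : ok ((cs A n).map (sR b j w)) δ p := by
  induction n generalizing A p with
  | zero => trivial
  | succ n ih =>
    rw [cs_succ, List.map_cons]
    have hf := h.fit_right mt op rg hA
    exact ⟨hf, ih (A + 1) _ (by omega) (h.right hA hf)⟩

theorem bwdL (w : Wt ℝ) (mt : Mt δ Set.univ)
    (op : ∀ h : He, h.1 ∈ Sp j → oc δ h → ∃ k ∈ Bd j, Cn δ (Sp j) h k)
    (rg : ∀ v ∈ Sp j, δ v ≠ .o → lo ≤ v.2 ∧ v.2 < H) (n : ℕ) (B : ℤ) (p : Pat St) (hB : lo ≤ B)
    (hBH : B + n ≤ H) (h : Stg δ b j lo H B p) : ok ((cs B n).map (sL b j w)) δ p := by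
  induction n generalizing B p with
  | zero => trivial
  | succ n ih =>
    rw [cs_succ, List.map_cons]
    have hlt : B < H := by push_cast at hBH; omega
    have hf := h.fit_left mt op rg hB hlt
    exact ⟨hf, ih (B + 1) _ (by omega) (by push_cast at hBH; omega) (h.left hB hlt hf)⟩

theorem swp_eq (b : Bool) (j : ℤ) (w' w : Wt ℝ) (K : ℕ) :
    swp j w' w (.a b) (.a (!b)) St.t K =
      (cs (-K) (2 * K + 1)).map (sR b j w') ++ (cs (-K) (2 * K + 1)).map (sL b j w) := by
  unfold swp
  rw [rows_cs]
  rfl

end

/-! ### the first pattern -/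

open Classical in
/-- the first pattern: the right boundary edges used by `γ` -/
noncomputable def pz (γ : Cfg) (j : ℤ) : Pat St where
  f s := match s with
    | .a b => .a b
    | .g r => if oc γ ((j + 2, r), .W) then .t r else .g r
    | .t r => if oc γ ((j + 2, r), .W) then .g r else .t r
  inv s := by
    cases s with
    | a b => rfl
    | g r => by_cases h : oc γ ((j + 2, r), .W) <;> simp [h]
    | t r => by_cases h : oc γ ((j + 2, r), .W) <;> simp [h]

section

variable {γ δ : Cfg} {b : Bool} {j lo : ℤ}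

theorem pz_a (b : Bool) : pz γ j (.a b) = .a b := rfl

theorem pz_g {r : ℤ} (h : oc γ ((j + 2, r), .W)) : pz γ j (.g r) = .t r := if_pos h
theorem pz_g' {r : ℤ} (h : ¬ oc γ ((j + 2, r), .W)) : pz γ j (.g r) = .g r := if_neg h
theorem pz_t {r : ℤ} (h : oc γ ((j + 2, r), .W)) : pz γ j (.t r) = .g r := if_pos h
theorem pz_t' {r : ℤ} (h : ¬ oc γ ((j + 2, r), .W)) : pz γ j (.t r) = .t r := if_neg h

theorem not_oc_of_o {v : Pt} {d : Dir} (h : δ v = .o) : ¬ oc δ (v, d) := by
  intro e
  have : (δ v).oc d := e
  rw [h] at this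
  exact this rfl

theorem Qr_empty {e f : Ed} (h : Qr δ (Pv j lo lo lo) e f) : e = f := by
  induction h with
  | rel a b hab =>
    obtain ⟨v, hv, _⟩ := hab
    rw [mem_Pv] at hv
    omega
  | refl a => rfl
  | symm a b _ ih => exact ih.symm
  | trans a b c _ _ ih1 ih2 => exact ih1.trans ih2

theorem stg_zero (hout : ∀ v, v ∉ Sp j → γ v = δ v) (rg : ∀ v ∈ Sp j, δ v ≠ .o → lo ≤ v.2) :
    Stg δ b j lo lo lo (pz γ j) := by
  have ro : ∀ r, oc γ ((j + 2, r), .W) ↔ oc δ ((j + 2, r), .W) := by
    intro r
    have : γ (j + 2, r) = δ (j + 2, r) := hout _ (by simp only [Sp, Set.mem_ofPred_eq]; omega)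
    simp only [oc, this]
  have fg : ∀ r, fe b j lo lo lo (.g r) = ((j + 1, r), false) := fun r => fe_g
  have ft : ∀ r, fe b j lo lo lo (.t r) = ((j + 1, r), false) := fun r => by
    rw [fe_t, if_neg (by omega), if_neg (by omega)]
  have fa : ∀ b', (fe b j lo lo lo (.a b')).2 = true := fun b' => by
    rw [fe_a]; split_ifs <;> rfl
  constructor
  · refine ⟨Qr_equiv _ _, fun s => ?_, fun s s' h1 h2 q => ?_, fun s _ e q => (Qr_empty q).symm,
      fun s s' e h1 => ?_, fun e f he q => absurd (Qr_empty q) he⟩
    · have : fe b j lo lo lo s = fe b j lo lo lo (pz γ j s) := by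
        cases s with
        | a b' => rfl
        | g r =>
          by_cases h : oc γ ((j + 2, r), .W)
          · rw [pz_g h, fg, ft]
          · rw [pz_g' h]
        | t r =>
          by_cases h : oc γ ((j + 2, r), .W)
          · rw [pz_t h, fg, ft]
          · rw [pz_t' h]
      rw [← this]
      exact .refl _
    · have q := Qr_empty q
      cases s with
      | a b' => exact absurd rfl h1
      | g r =>
        have hr : oc γ ((j + 2, r), .W) := by
          by_contra hc; exact h1 (pz_g' hc)
        cases s' with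
        | a b' => exact absurd rfl h2
        | g r' =>
          rw [fg, fg] at q
          left; simp at q; rw [q]
        | t r' =>
          rw [fg, ft] at q
          right; simp at q; rw [pz_g hr, q]
      | t r =>
        have hr : oc γ ((j + 2, r), .W) := by
          by_contra hc; exact h1 (pz_t' hc)
        cases s' with
        | a b' => exact absurd rfl h2
        | g r' =>
          rw [fg, ft] at q
          right; simp at q; rw [pz_t hr, q]
        | t r' =>
          rw [ft, ft] at q
          left; simp at q; rw [q]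
    · cases s with
      | a b' => exact absurd rfl h1
      | g r =>
        have hr : oc γ ((j + 2, r), .W) := by
          by_contra hc; exact h1 (pz_g' hc)
        cases s' with
        | a b' =>
          have := fa b'
          rw [← e, fg] at this
          exact absurd this (by simp)
        | g r' =>
          rw [fg, fg] at e
          simp at e
          rw [← e, pz_g hr]; simp
        | t r' =>
          rw [fg, ft] at e
          simp at e
          rw [← e, pz_t hr]; simp
      | t r =>
        have hr : oc γ ((j + 2, r), .W) := by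
          by_contra hc; exact h1 (pz_t' hc)
        cases s' with
        | a b' =>
          have := fa b'
          rw [← e, ft] at this
          exact absurd this (by simp)
        | g r' =>
          rw [fg, ft] at e
          simp at e
          rw [← e, pz_g hr]; simp
        | t r' =>
          rw [ft, ft] at e
          simp at e
          rw [← e, pz_t hr]; simp
  · intro s
    cases s with
    | a b' =>
      refine ⟨fun h => absurd rfl h, fun h => ?_⟩
      have hz : ∀ x, x = j ∨ x = j + 1 → δ (x, lo - 1) = .o := by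
        intro x hx
        by_contra hc
        have := rg (x, lo - 1) hx hc
        simp only at this
        omega
      simp only [fh] at h
      split_ifs at h
      · exact absurd h (not_oc_of_o (hz _ (Or.inr rfl)))
      · exact absurd h (not_oc_of_o (hz _ (Or.inl rfl)))
    | g r =>
      show _ ↔ oc δ ((j + 2, r), .W)
      rw [← ro]
      constructor
      · intro h
        by_contra hc
        exact h (pz_g' hc)
      · intro h
        rw [pz_g h]; simp
    | t r =>
      have : fh b j lo lo lo (.t r) = ((j + 2, r), .W) := by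
        simp only [fh]
        rw [if_neg (by omega), if_neg (by omega)]
      rw [this, ← ro]
      constructor
      · intro h
        by_contra hc
        exact h (pz_t' hc)
      · intro h
        rw [pz_t h]; simp

end

end Pool.Agent.ROT.E
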