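import Pool.Agent.ROT.ESweep2

/-!
# ROT, block E: the sweep of the strip = the class of the strip
-/

set_option autoImplicit false

namespace Pool.Agent.ROT.E

open Pool.Agent.EXL Pool.Agent.EXL.Pat
open Pool.Agent.YBC (Dir)
open Pool.Agent.ROT.E.Lab (cn_oc cn_refl cn_symm cn_trans cn_vp cn_rv rv_rv vp_vp oc_vp)

/-- the boundary half edge of a site -/
def bh (j : ℤ) : St → He
  | .a _ => ((j, 0), .N)
  | .g r => ((j + 1, r), .E)
  | .t r => ((j, r), .W)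

section

variable {δ : Cfg} {b : Bool} {j lo H : ℤ} {q : Pat St}

theorem o_of_not {P : Prop} {v : Pt} (rg : δ v ≠ .o → P) (h : ¬P) : δ v = .o := by
  by_contra hc
  exact h (rg hc)

theorem Stg.end_a (h : Stg δ b j lo H H q) (mt : Mt δ Set.univ)
    (rg : ∀ v ∈ Sp j, δ v ≠ .o → lo ≤ v.2 ∧ v.2 < H) (b' : Bool) : q (.a b') = .a b' := by
  by_contra hc
  have h1 := (h.occ _).1 hc
  simp only [fh] at h1
  split_ifs at h1
  · have h2 := (mt _ trivial trivial).1 h1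
    have e : rv ((j + 1, H - 1), Dir.N) = ((j + 1, H), .S) := by simp [rv, nx, Dir.op]
    rw [e] at h2
    refine not_oc_of_o (o_of_not (rg (j + 1, H) (Or.inr rfl)) ?_) h2
    simp
  · have h2 := (mt _ trivial trivial).1 h1
    have e : rv ((j, H - 1), Dir.N) = ((j, H), .S) := by simp [rv, nx, Dir.op]
    rw [e] at h2
    refine not_oc_of_o (o_of_not (rg (j, H) (Or.inl rfl)) ?_) h2
    simp

theorem rv_W2 (j r : ℤ) : rv ((j + 2, r), Dir.W) = ((j + 1, r), .E) := by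
  simp only [rv, nx, Dir.op]
  congr 2; omega

theorem rv_W (j r : ℤ) : rv ((j, r), Dir.W) = ((j - 1, r), .E) := rfl

theorem Stg.end_g (h : Stg δ b j lo H H q) (r : ℤ) : q (.g r) ≠ .g r ↔ oc δ ((j + 2, r), .W) := h.occ _

theorem Stg.end_t (h : Stg δ b j lo H H q) (mt : Mt δ Set.univ)
    (rg : ∀ v ∈ Sp j, δ v ≠ .o → lo ≤ v.2 ∧ v.2 < H) (r : ℤ) : q (.t r) ≠ .t r ↔ oc δ ((j - 1, r), .E) := by
  have e : oc δ ((j, r), .W) ↔ oc δ ((j - 1, r), .E) := by
    rw [← rv_W]; exact mt _ trivial trivial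
  rw [h.occ, ← e]
  by_cases hr : lo ≤ r ∧ r < H
  · simp only [fh, if_pos hr]
  · simp only [fh, if_neg hr]
    have h1 : ¬ oc δ ((j, r), .W) := not_oc_of_o (o_of_not (rg (j, r) (Or.inl rfl)) hr)
    have h2 : ¬ oc δ ((j + 2, r), .W) := by
      rw [mt _ trivial trivial, rv_W2]
      exact not_oc_of_o (o_of_not (rg (j + 1, r) (Or.inr rfl)) hr)
    exact ⟨fun x => absurd x h2, fun x => absurd x h1⟩

theorem Stg.end_bh (h : Stg δ b j lo H H q) (mt : Mt δ Set.univ)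
    (rg : ∀ v ∈ Sp j, δ v ≠ .o → lo ≤ v.2 ∧ v.2 < H) {s : St} (hs : q s ≠ s) :
    bh j s ∈ Bd j ∧ oc δ (bh j s) ∧ ed (bh j s) = fe b j lo H H s := by
  cases s with
  | a b' => exact absurd (h.end_a mt rg b') hs
  | g r =>
    refine ⟨bd_E j r, ?_, ?_⟩
    · rw [h.end_g, mt _ trivial trivial, rv_W2] at hs
      exact hs
    · rw [fe_g]; rfl
  | t r =>
    have h1 : oc δ ((j, r), .W) := by
      rw [h.end_t mt rg, ← rv_W, ← mt _ trivial trivial] at hs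
      exact hs
    refine ⟨bd_W j r, h1, ?_⟩
    have hr : lo ≤ r ∧ r < H := by
      by_contra hc
      exact not_oc_of_o (o_of_not (rg (j, r) (Or.inl rfl)) hc) h1
    rw [fe_t, if_pos hr]; rfl

theorem Stg.end_surj (h : Stg δ b j lo H H q) (mt : Mt δ Set.univ)
    (rg : ∀ v ∈ Sp j, δ v ≠ .o → lo ≤ v.2 ∧ v.2 < H) {k : He} (hk : k ∈ Bd j) (ok : oc δ k) :
    ∃ s, bh j s = k ∧ q s ≠ s := by
  rcases bd_cases hk with ⟨r, rfl⟩ | ⟨r, rfl⟩
  · refine ⟨.g r, rfl, ?_⟩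
    rw [h.end_g, mt _ trivial trivial, rv_W2]
    exact ok
  · refine ⟨.t r, rfl, ?_⟩
    rw [h.end_t mt rg, ← rv_W, ← mt _ trivial trivial]
    exact ok

theorem Pv_Sp {A B : ℤ} : Pv j lo A B ⊆ Sp j := by
  rintro ⟨x, y⟩ h
  rw [mem_Pv] at h
  rcases h with h | h
  · exact Or.inr h.1
  · exact Or.inl h.1

theorem Sp_Pv (rg : ∀ v ∈ Sp j, δ v ≠ .o → lo ≤ v.2 ∧ v.2 < H) : ∀ v ∈ Sp j, δ v ≠ .o → v ∈ Pv j lo H H := by
  intro v hv ho
  have := rg v hv ho
  rcases hv with e | e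
  · exact Or.inr ⟨e, this⟩
  · exact Or.inl ⟨e, this⟩

theorem Stg.end_cn (h : Stg δ b j lo H H q) (mt : Mt δ Set.univ)
    (rg : ∀ v ∈ Sp j, δ v ≠ .o → lo ≤ v.2 ∧ v.2 < H) {s s' : St} (hs : q s ≠ s) (hs' : q s' ≠ s') :
    Cn δ (Sp j) (bh j s) (bh j s') ↔ s' = s ∨ s' = q s := by
  obtain ⟨a1, a2, a3⟩ := h.end_bh mt rg hs
  obtain ⟨b1, b2, b3⟩ := h.end_bh mt rg hs'
  constructor
  · intro c
    have := Qr_of_cn (Sp_Pv rg) c
    rw [a3, b3] at this
    exact h.inv.sep s s' hs hs' this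
  · rintro (rfl | rfl)
    · exact cn_refl _
    · refine cn_of_Qr (P := Pv j lo H H) Pv_Sp a1.1 b1.1 a2 b2 ?_
      rw [a3, b3]
      exact h.inv.con s

end

section

variable {γ δ : Cfg} {b b' : Bool} {j lo H lo' H' : ℤ} {q q' : Pat St}

/-- the last patterns agree if the connections agree -/
theorem same (h : Stg γ b j lo H H q) (h' : Stg δ b' j lo' H' H' q') (mt : Mt γ Set.univ) (mt' : Mt δ Set.univ)
    (rg : ∀ v ∈ Sp j, γ v ≠ .o → lo ≤ v.2 ∧ v.2 < H) (rg' : ∀ v ∈ Sp j, δ v ≠ .o → lo' ≤ v.2 ∧ v.2 < H')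
    (out : ∀ v, v ∉ Sp j → γ v = δ v)
    (pr : ∀ x ∈ Bd j, ∀ y ∈ Bd j, Cn γ (Sp j) x y → Cn δ (Sp j) x y) : q = q' := by
  have occ : ∀ s, q s ≠ s ↔ q' s ≠ s := by
    intro s
    cases s with
    | a b'' => rw [h.end_a mt rg, h'.end_a mt' rg']
    | g r =>
      rw [h.end_g, h'.end_g]
      have : γ (j + 2, r) = δ (j + 2, r) := out _ (by simp only [Sp, Set.mem_ofPred_eq]; omega)
      simp only [oc, this]
    | t r =>
      rw [h.end_t mt rg, h'.end_t mt' rg']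
      have : γ (j - 1, r) = δ (j - 1, r) := out _ (by simp only [Sp, Set.mem_ofPred_eq]; omega)
      simp only [oc, this]
  refine Pat.ext (funext fun s => ?_)
  by_cases hs : q s = s
  · have : q' s = s := by
      by_contra hc
      exact ((occ s).2 hc) hs
    rw [hs, this]
  · have hs' : q (q s) ≠ q s := fun e => hs (q.inj e)
    have c := (h.end_cn mt rg hs hs').2 (Or.inr rfl)
    have c' := pr _ (h.end_bh mt rg hs).1 _ (h.end_bh mt rg hs').1 c
    rcases (h'.end_cn mt' rg' ((occ s).1 hs) ((occ _).1 hs')).1 c' with e | e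
    · exact absurd e hs
    · exact e

/-- the connections agree if the last patterns agree -/
theorem pr_of (h : Stg γ b j lo H H q) (h' : Stg δ b' j lo' H' H' q) (mt : Mt γ Set.univ) (mt' : Mt δ Set.univ)
    (rg : ∀ v ∈ Sp j, γ v ≠ .o → lo ≤ v.2 ∧ v.2 < H) (rg' : ∀ v ∈ Sp j, δ v ≠ .o → lo' ≤ v.2 ∧ v.2 < H')
    {x y : He} (hx : x ∈ Bd j) (hy : y ∈ Bd j) (c : Cn γ (Sp j) x y) : Cn δ (Sp j) x y := by
  rcases cn_oc (Lab.mt_mono mt) c with rfl | ⟨⟨ox, _⟩, ⟨oy, _⟩⟩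
  · exact cn_refl _
  · obtain ⟨s, rfl, hs⟩ := h.end_surj mt rg hx ox
    obtain ⟨s', rfl, hs'⟩ := h.end_surj mt rg hy oy
    exact (h'.end_cn mt' rg' hs hs').2 ((h.end_cn mt rg hs hs').1 c)

end

/-- **the sweep is the class of the strip** -/
theorem sweep {j : ℤ} {γ : Cfg} (h : Sm1 j γ γ) : ∃ (m : ℕ) (p0 q0 : Pat St),
    (∀ b, p0 (.a b) = .a b) ∧ (∀ b, q0 (.a b) = .a b) ∧
    (∀ r : ℤ, (m : ℤ) < |r| → p0 (.t r) = .t r ∧ q0 (.t r) = .t r) ∧
    (∀ v, γ v ≠ .o → |v.2| ≤ (m : ℤ)) ∧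
    ∀ (b : Bool) (K : ℕ), m ≤ K → ∀ δ : Cfg, (∀ v, v ∉ Sp j → γ v = δ v) →
      (∀ v ∈ Sp j, δ v ≠ .o → |v.2| ≤ (K : ℤ)) → ∀ w' w : Wt ℝ,
        ((ok (swp j w' w (.a b) (.a (!b)) St.t K) δ p0 ∧ run (swp j w' w (.a b) (.a (!b)) St.t K) δ p0 = q0) ↔
          Sm1 j γ δ) := by
  obtain ⟨m, hm⟩ : ∃ m : ℕ, ∀ v, γ v ≠ .o → |v.2| ≤ (m : ℤ) := by
    refine ⟨γ.support.sup fun v => v.2.natAbs, fun v hv => ?_⟩
    have h1 : v ∈ γ.support := Finsupp.mem_support_iff.2 hv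
    have h2 : v.2.natAbs ≤ γ.support.sup fun v => v.2.natAbs :=
      Finset.le_sup (f := fun v : Pt => v.2.natAbs) h1
    have h3 : |v.2| = (v.2.natAbs : ℤ) := Int.abs_eq_natAbs _
    rw [h3]
    exact_mod_cast h2
  have rgo : ∀ {δ : Cfg} {K : ℕ}, (∀ v ∈ Sp j, δ v ≠ .o → |v.2| ≤ (K : ℤ)) →
      ∀ v ∈ Sp j, δ v ≠ .o → -(K : ℤ) ≤ v.2 ∧ v.2 < (K : ℤ) + 1 := by
    intro δ K hK v hv ho
    have := abs_le.1 (hK v hv ho)
    omega
  have eH : ∀ K : ℕ, -(K : ℤ) + ((2 * K + 1 : ℕ) : ℤ) = (K : ℤ) + 1 := by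
    intro K; push_cast; ring
  have z0 : ∀ {δ : Cfg} {b : Bool} {K : ℕ}, (∀ v, v ∉ Sp j → γ v = δ v) →
      (∀ v ∈ Sp j, δ v ≠ .o → -(K : ℤ) ≤ v.2 ∧ v.2 < (K : ℤ) + 1) →
      Stg δ b j (-K) (-K) (-K) (pz γ j) := fun hout rg => stg_zero hout fun v hv ho => (rg v hv ho).1
  -- forward
  have fw : ∀ (b : Bool) (K : ℕ) (δ : Cfg), (∀ v, v ∉ Sp j → γ v = δ v) →
      (∀ v ∈ Sp j, δ v ≠ .o → -(K : ℤ) ≤ v.2 ∧ v.2 < (K : ℤ) + 1) → ∀ w' w : Wt ℝ,
      ok (swp j w' w (.a b) (.a (!b)) St.t K) δ (pz γ j) →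
      Stg δ b j (-K) (K + 1) (K + 1) (run (swp j w' w (.a b) (.a (!b)) St.t K) δ (pz γ j)) ∧
        ∀ r, -(K : ℤ) ≤ r → r < (K : ℤ) + 1 →
        ((oc δ ((j + 1, r), .S) ↔ oc δ (rv ((j + 1, r), .S))) ∧
          (oc δ ((j + 1, r), .E) ↔ oc δ (rv ((j + 1, r), .E)))) ∧
        (oc δ ((j, r), .S) ↔ oc δ (rv ((j, r), .S))) ∧ (oc δ ((j, r), .E) ↔ oc δ (rv ((j, r), .E))) := by
    intro b K δ hout rg w' w hok
    rw [swp_eq, ok_append] at hok
    rw [swp_eq, run_append]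
    obtain ⟨h1, h2⟩ := fwdR (lo := -(K : ℤ)) w' (2 * K + 1) (-(K : ℤ)) (pz γ j) le_rfl (z0 hout rg) hok.1
    rw [eH] at h1 h2
    obtain ⟨h3, h4⟩ := fwdL (lo := -(K : ℤ)) (A := (K : ℤ) + 1) w (2 * K + 1) (-(K : ℤ)) _ le_rfl
      (le_of_eq (eH K)) h1 hok.2
    rw [eH] at h3 h4
    exact ⟨h3, fun r g1 g2 => ⟨h2 r g1 g2, h4 r g1 g2⟩⟩
  -- backward
  have bw : ∀ (b : Bool) (K : ℕ) (δ : Cfg), (∀ v, v ∉ Sp j → γ v = δ v) →
      (∀ v ∈ Sp j, δ v ≠ .o → -(K : ℤ) ≤ v.2 ∧ v.2 < (K : ℤ) + 1) → Mt δ Set.univ →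
      (∀ h : He, h.1 ∈ Sp j → oc δ h → ∃ k ∈ Bd j, Cn δ (Sp j) h k) → ∀ w' w : Wt ℝ,
      ok (swp j w' w (.a b) (.a (!b)) St.t K) δ (pz γ j) := by
    intro b K δ hout rg mt op w' w
    have h1 := bwdR (b := b) (lo := -(K : ℤ)) (H := (K : ℤ) + 1) w' mt op rg (2 * K + 1) (-(K : ℤ)) (pz γ j) le_rfl
      (z0 hout rg)
    obtain ⟨h2, _⟩ := fwdR (lo := -(K : ℤ)) w' (2 * K + 1) (-(K : ℤ)) (pz γ j) le_rfl (z0 hout rg) h1
    rw [eH] at h2
    rw [swp_eq, ok_append]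
    exact ⟨h1, bwdL (lo := -(K : ℤ)) (H := (K : ℤ) + 1) w mt op rg (2 * K + 1) (-(K : ℤ)) _ le_rfl
      (le_of_eq (eH K)) h2⟩
  have gout : ∀ v, v ∉ Sp j → γ v = γ v := fun _ _ => rfl
  have grg : ∀ {K : ℕ}, m ≤ K → ∀ v ∈ Sp j, γ v ≠ .o → -(K : ℤ) ≤ v.2 ∧ v.2 < (K : ℤ) + 1 := by
    intro K hK v _ ho
    have := abs_le.1 (hm v ho)
    omega
  have w0 : Wt ℝ := ⟨0, 0, 0, 0, 0⟩
  set q0 := run (swp j w0 w0 (.a true) (.a (!true)) St.t m) γ (pz γ j) with hq0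
  have g0 : Stg γ true j (-m) (m + 1) (m + 1) q0 :=
    (fw true m γ gout (grg le_rfl) w0 w0 (bw true m γ gout (grg le_rfl) h.mt h.op w0 w0)).1
  refine ⟨m, pz γ j, q0, fun b => rfl, g0.end_a h.mt (grg le_rfl), fun r hr => ⟨?_, ?_⟩, hm, ?_⟩
  · refine pz_t' fun hc => ?_
    have := (h.mt _ trivial trivial).1 hc
    rw [rv_W2] at this
    refine not_oc_of_o (o_of_not (hm (j + 1, r)) ?_) this
    simp only
    omega
  · by_contra hc
    have := (g0.end_t h.mt (grg le_rfl) r).1 hc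
    rw [← rv_W, ← h.mt _ trivial trivial] at this
    refine not_oc_of_o (o_of_not (hm (j, r)) ?_) this
    simp only
    omega
  intro b K hK δ hout hin w' w
  have rg := rgo hin
  constructor
  · rintro ⟨hok, hrun⟩
    obtain ⟨h1, h2⟩ := fw b K δ hout rg w' w hok
    rw [hrun] at h1
    have oo : ∀ {v : Pt} {d : Dir}, v ∉ Sp j → (oc δ (v, d) ↔ oc γ (v, d)) := by
      intro v d hv
      simp only [oc, hout v hv]
    have ns : ∀ {x y : ℤ}, x ≠ j → x ≠ j + 1 → ((x, y) : Pt) ∉ Sp j := by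
      intro x y a1 a2 hc
      rcases hc with e | e
      · exact a1 e
      · exact a2 e
    have nu : ∀ {x y : ℤ} {d : Dir}, (x = j ∨ x = j + 1) → ¬(-(K : ℤ) ≤ y ∧ y < (K : ℤ) + 1) → ¬ oc δ ((x, y), d) :=
      fun hx hy => not_oc_of_o (o_of_not (rg _ hx) hy)
    have gu : ∀ {x y : ℤ} {d : Dir}, ¬(-(K : ℤ) ≤ y ∧ y < (K : ℤ) + 1) → ¬ oc γ ((x, y), d) := by
      intro x y d hy
      refine not_oc_of_o (o_of_not (hm (x, y)) fun hc => hy ?_)
      have := abs_le.1 hc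
      simp only at this
      omega
    have top : ∀ x, (x = j ∨ x = j + 1) → ¬ oc δ ((x, K), .N) := by
      intro x hx hc
      have hb : (!b) ≠ b := by cases b <;> simp
      rcases hx with rfl | rfl
      · have e1 := g0.end_a h.mt (grg le_rfl) (!b)
        have e2 := (h1.occ (.a (!b))).2
        apply e2 _ e1
        have : fh b x (-K) (K + 1) (K + 1) (.a (!b)) = ((x, (K : ℤ)), Dir.N) := by simp [fh, hb]
        rw [this]; exact hc
      · have e1 := g0.end_a h.mt (grg le_rfl) b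
        have e2 := (h1.occ (.a b)).2
        apply e2 _ e1
        have : fh b j (-K) (K + 1) (K + 1) (.a b) = ((j + 1, (K : ℤ)), Dir.N) := by simp [fh]
        rw [this]; exact hc
    have mS : ∀ x y : ℤ, oc δ ((x, y), .S) ↔ oc δ (rv ((x, y), .S)) := by
      intro x y
      have e : rv ((x, y), Dir.S) = ((x, y - 1), .N) := rfl
      by_cases hx : x = j ∨ x = j + 1
      · by_cases hy : -(K : ℤ) ≤ y ∧ y < (K : ℤ) + 1
        · have := h2 y hy.1 hy.2
          rcases hx with rfl | rfl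
          · exact this.2.1
          · exact this.1.1
        · rw [e]
          refine iff_of_false (nu hx hy) ?_
          by_cases hy' : y = K + 1
          · rw [hy']
            have : ((x, (K : ℤ) + 1 - 1) : Pt) = (x, (K : ℤ)) := by simp
            rw [this]
            exact top x hx
          · exact nu hx (by omega)
      · rw [not_or] at hx
        rw [e, oo (ns hx.1 hx.2), oo (ns hx.1 hx.2), ← e]
        exact h.mt _ trivial trivial
    have mE : ∀ x y : ℤ, oc δ ((x, y), .E) ↔ oc δ (rv ((x, y), .E)) := by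
      intro x y
      have e : rv ((x, y), Dir.E) = ((x + 1, y), .W) := rfl
      by_cases hx : x = j ∨ x = j + 1
      · by_cases hy : -(K : ℤ) ≤ y ∧ y < (K : ℤ) + 1
        · have := h2 y hy.1 hy.2
          rcases hx with rfl | rfl
          · exact this.2.2
          · exact this.1.2
        · rw [e]
          refine iff_of_false (nu hx hy) ?_
          rcases hx with rfl | rfl
          · exact nu (Or.inr rfl) hy
          · rw [oo (ns (by omega) (by omega))]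
            exact gu hy
      · rw [not_or] at hx
        by_cases hx' : x = j - 1
        · subst hx'
          have e' : rv ((j - 1, y), Dir.E) = ((j, y), .W) := by simp [rv, nx, Dir.op]
          rw [e', oo (ns hx.1 hx.2)]
          have g1 : oc γ ((j - 1, y), .E) ↔ q0 (.t y) ≠ .t y := (g0.end_t h.mt (grg le_rfl) y).symm
          rw [g1, h1.occ]
          by_cases hy : -(K : ℤ) ≤ y ∧ y < (K : ℤ) + 1
          · simp only [fh, if_pos hy]
          · refine iff_of_false ?_ (nu (Or.inl rfl) hy)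
            simp only [fh, if_neg hy]
            rw [oo (ns (by omega) (by omega))]
            exact gu hy
        · rw [e, oo (ns hx.1 hx.2), oo (ns (by omega) (by omega)), ← e]
          exact h.mt _ trivial trivial
    have mt : Mt δ Set.univ := by
      rintro ⟨⟨x, y⟩, d⟩ _ _
      cases d with
      | S => exact mS x y
      | E => exact mE x y
      | N =>
        have e : rv ((x, y), Dir.N) = ((x, y + 1), .S) := rfl
        have e' : rv ((x, y + 1), Dir.S) = ((x, y), .N) := by simp [rv, nx, Dir.op]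
        rw [e, mS, e']
      | W =>
        have e : rv ((x, y), Dir.W) = ((x - 1, y), .E) := rfl
        have e' : rv ((x - 1, y), Dir.E) = ((x, y), .W) := by simp [rv, nx, Dir.op]
        rw [e, mE, e']
    refine ⟨mt, hout, ?_, fun x hx y hy => ⟨fun c => ?_, fun c => ?_⟩⟩
    · rintro ⟨v, d⟩ hv ho
      have hP : v ∈ Pv j (-K) (K + 1) (K + 1) := by
        refine Sp_Pv rg v hv fun e => ?_
        exact not_oc_of_o e ho
      have hne : ed (v, d) ≠ ed (v, (δ v).p d) := by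
        intro e
        rcases ed_eq e with e1 | e1
        · have : (δ v).p d = d := congrArg Prod.snd e1
          exact ho this
        · have e2 : v = (rv (v, d)).1 := congrArg Prod.fst e1
          obtain ⟨x, y⟩ := v
          cases d <;> simp [rv, nx, Prod.ext_iff] at e2 <;> omega
      have hq : Qr δ (Pv j (-K) (K + 1) (K + 1)) (ed (v, d)) (ed (v, (δ v).p d)) :=
        .rel _ _ ⟨v, hP, d, ho, rfl, rfl⟩
      obtain ⟨s, hs, qs⟩ := h1.inv.cov _ _ hne hq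
      obtain ⟨a1, a2, a3⟩ := h1.end_bh mt rg hs
      refine ⟨bh j s, a1, cn_of_Qr (P := Pv j (-K) (K + 1) (K + 1)) Pv_Sp hv a1.1 ho a2 ?_⟩
      rw [a3]; exact qs
    · exact pr_of g0 h1 h.mt mt (grg le_rfl) rg hx hy c
    · exact pr_of h1 g0 mt h.mt rg (grg le_rfl) hx hy c
  · intro s
    have hok := bw b K δ hout rg s.mt s.op w' w
    refine ⟨hok, ?_⟩
    obtain ⟨h1, _⟩ := fw b K δ hout rg w' w hok
    exact (same g0 h1 h.mt s.mt (grg le_rfl) rg hout fun x hx y hy c => (s.pr x hx y hy).1 c).symm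

end Pool.Agent.ROT.E
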