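import Pool.Agent.ROT.ESym

/-!
# ROT, block E (helper68): the heat bath of a swap and the symmetries of the lattice

For a symmetry `S` with `S.e '' Sp j = Sp j'`: `Sm`, `ws`, `Z`, `Kn` are equivariant.
-/

set_option autoImplicit false

namespace Pool.Agent.ROT.E

open Pool.Agent.EXL (Wt)
open Pool.Agent.YBC (Dir)
open Pool.Agent.UNI (wR)

namespace Sy

variable (S : Sy) {I : Type}

/-- the weights fit -/
def Fit (u u' : ℤ → ℝ) : Prop := ∀ v c, (S.f c).wt (wR (u (S.e v).1)) = c.wt (wR (u' v.1))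

/-- the strip `j` is mapped to the strip `j'` -/
def St (j j' : ℤ) : Prop := ∀ v, S.e v ∈ Sp j' ↔ v ∈ Sp j

variable {S}

theorem St.image {j j' : ℤ} (h : S.St j j') : S.e '' Sp j = Sp j' := by
  ext v
  obtain ⟨v, rfl⟩ := S.e.surjective v
  rw [S.e.injective.mem_set_image]
  exact (h v).symm

theorem St.bd {j j' : ℤ} (h : S.St j j') (k : He) : S.he k ∈ Bd j' ↔ k ∈ Bd j := by
  unfold Bd
  rw [Set.mem_setOf_eq, Set.mem_setOf_eq, he_rv, he_fst, he_fst, h, h]

theorem St.gd {j j' : ℤ} (h : S.St j j') (γ : Fm I) : Gd j' (S.acF γ) ↔ Gd j γ := by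
  unfold Gd
  refine forall_congr' fun i => ?_
  constructor
  · rintro ⟨v, hv, hn⟩
    obtain ⟨v, rfl⟩ := S.e.surjective v
    refine ⟨v, fun h1 => hv ((h v).2 h1), fun h0 => hn ?_⟩
    rw [acF_apply]
    change S.f (γ v i) = 0
    rw [h0, S.f0]
  · rintro ⟨v, hv, hn⟩
    refine ⟨S.e v, fun h1 => hv ((h v).1 h1), fun h0 => hn ?_⟩
    rw [acF_apply] at h0
    have h1 : S.f (γ v i) = S.f 0 := by rw [S.f0]; exact h0
    exact S.f.injective h1

theorem acF_eq_iff (γ γ' : Fm I) (v : Pt) : S.acF γ (S.e v) = S.acF γ' (S.e v) ↔ γ v = γ' v := by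
  rw [acF_apply, acF_apply]
  constructor
  · intro h
    funext i
    exact S.f.injective (congrFun h i)
  · intro h
    rw [h]

/-- **same outside, same connections** -/
theorem St.sm {j j' : ℤ} (h : S.St j j') (γ γ' : Fm I) : Sm j' (S.acF γ) (S.acF γ') ↔ Sm j γ γ' := by
  constructor
  · intro H
    refine ⟨(S.fam_iff γ).1 H.fam, (S.fam_iff γ').1 H.fam', (h.gd γ).1 H.gd, fun v hv => ?_, fun i a ha b hb => ?_⟩
    · exact (acF_eq_iff γ γ' v).1 (H.out (S.e v) fun h1 => hv ((h v).1 h1))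
    · have h1 := H.pr i (S.he a) ((h.bd a).2 ha) (S.he b) ((h.bd b).2 hb)
      rw [← h.image, co_acF, co_acF, cn_iff, cn_iff] at h1
      exact h1
  · intro H
    refine ⟨(S.fam_iff γ).2 H.fam, (S.fam_iff γ').2 H.fam', (h.gd γ).2 H.gd, fun v hv => ?_, fun i a ha b hb => ?_⟩
    · obtain ⟨v, rfl⟩ := S.e.surjective v
      exact (acF_eq_iff γ γ' v).2 (H.out v fun h1 => hv ((h v).2 h1))
    · obtain ⟨a, rfl⟩ := S.he.surjective a
      obtain ⟨b, rfl⟩ := S.he.surjective b
      rw [← h.image, co_acF, co_acF, cn_iff, cn_iff]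
      exact H.pr i a ((h.bd a).1 ha) b ((h.bd b).1 hb)

theorem supp_acF (γ : Fm I) : (S.acF γ).support = γ.support.map S.e.toEmbedding := by
  classical
  ext v
  obtain ⟨w, rfl⟩ := S.e.surjective v
  rw [Finsupp.mem_support_iff, acF_apply, Finset.mem_map]
  constructor
  · intro hv
    refine ⟨w, ?_, rfl⟩
    rw [Finsupp.mem_support_iff]
    intro h0
    apply hv
    funext i
    rw [h0]
    exact S.f0
  · rintro ⟨w', hw', he⟩
    have := S.e.injective he
    subst this
    rw [Finsupp.mem_support_iff] at hw'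
    intro h0
    apply hw'
    funext i
    have h1 : S.f (γ w' i) = S.f 0 := by
      rw [S.f0]
      exact congrFun h0 i
    exact S.f.injective h1

/-- **the weight of the strip** -/
theorem St.ws {j j' : ℤ} (h : S.St j j') {u u' : ℤ → ℝ} (hw : S.Fit u u') (γ : Fm I) :
    ws j' u (S.acF γ) = ws j u' γ := by
  classical
  unfold E.ws
  rw [Finsupp.prod, Finsupp.prod, supp_acF, Finset.prod_map]
  refine Finset.prod_congr rfl fun v _ => ?_
  rw [Equiv.coe_toEmbedding]
  by_cases hv : v ∈ Sp j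
  · rw [if_pos hv, if_pos ((h v).2 hv), acF_apply]
    exact S.wf_eq (hw v) (γ v)
  · rw [if_neg hv, if_neg fun h1 => hv ((h v).1 h1)]

/-- **the partition function** -/
theorem St.Z {j j' : ℤ} (h : S.St j j') {u u' : ℤ → ℝ} (hw : S.Fit u u') (γ : Fm I) :
    Z j' u (S.acF γ) = Z j u' γ := by
  classical
  unfold E.Z
  rw [← Equiv.tsum_eq S.eqF]
  refine tsum_congr fun γ' => ?_
  change (if Sm j' (S.acF γ) (S.acF γ') then E.ws j' u (S.acF γ') else 0) = _
  rw [h.ws hw]
  exact if_congr (h.sm γ γ') rfl rfl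

/-- **the heat bath** -/
theorem St.Kn {j j' : ℤ} (h : S.St j j') {u u' : ℤ → ℝ} (hw : S.Fit u u') (hs : S.Fit (sw j' u) (sw j u')) (γ γ' : Fm I) :
    Kn j' u (S.acF γ) (S.acF γ') = Kn j u' γ γ' := by
  classical
  unfold E.Kn
  rw [h.ws hs, h.Z hw]
  exact if_congr (h.sm γ γ') rfl rfl

end Sy

/-! ### translations -/

theorem st_tr (a : Pt) (j : ℤ) : (trS a).St j (j + a.1) := by
  intro v
  unfold Sp
  rw [Set.mem_setOf_eq, Set.mem_setOf_eq, trS_e, Prod.fst_add]
  constructor <;> rintro (h | h)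
  · left; linarith
  · right; linarith
  · left; linarith
  · right; linarith

theorem fit_tr (a : Pt) (u : ℤ → ℝ) : (trS a).Fit u (fun j => u (j + a.1)) := fun _ _ => rfl

theorem sw_add (u : ℤ → ℝ) (j a : ℤ) : (fun i => sw (j + a) u (i + a)) = sw j (fun i => u (i + a)) := by
  funext i
  unfold sw
  by_cases h1 : i = j
  · subst h1
    rw [if_pos rfl, if_pos rfl]
    congr 1
    ring
  · by_cases h2 : i = j + 1
    · subst h2
      rw [if_neg (by omega), if_pos (by ring), if_neg (by omega), if_pos rfl]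
    · rw [if_neg (by omega), if_neg (by omega), if_neg h1, if_neg h2]

/-- **translations** -/
theorem Kn_tr {I : Type} (a : Pt) (j : ℤ) (u : ℤ → ℝ) (γ γ' : Fm I) :
    Kn (j + a.1) u ((trS a).acF γ) ((trS a).acF γ') = Kn j (fun i => u (i + a.1)) γ γ' :=
  (st_tr a j).Kn (fit_tr a u) (by
    rw [← sw_add u j a.1]
    exact fit_tr a _) γ γ'

theorem Sm_tr {I : Type} (a : Pt) (j : ℤ) (γ γ' : Fm I) :
    Sm (j + a.1) ((trS a).acF γ) ((trS a).acF γ') ↔ Sm j γ γ' := (st_tr a j).sm γ γ'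

/-! ### point reflection -/

theorem st_pr (j : ℤ) : prS.St j (-j - 1) := by
  intro v
  unfold Sp
  rw [Set.mem_setOf_eq, Set.mem_setOf_eq, prS_e, Prod.fst_neg]
  constructor <;> rintro (h | h)
  · right; linarith
  · left; linarith
  · right; linarith
  · left; linarith

theorem fit_pr (u : ℤ → ℝ) : prS.Fit u (fun j => u (-j)) := fun v c => pr_wt (wR (u (-v.1))) c

theorem sw_neg (u : ℤ → ℝ) (j : ℤ) : (fun i => sw (-j - 1) u (-i)) = sw j (fun i => u (-i)) := by
  funext i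
  unfold sw
  by_cases h1 : i = j
  · subst h1
    rw [if_neg (by omega), if_pos (by omega), if_pos rfl]
    congr 1
    ring
  · by_cases h2 : i = j + 1
    · subst h2
      rw [if_pos (by omega), if_neg (by omega), if_pos rfl]
      congr 1
      ring
    · rw [if_neg (by omega), if_neg (by omega), if_neg h1, if_neg h2]

/-- **point reflection** -/
theorem Kn_pr {I : Type} (j : ℤ) (u : ℤ → ℝ) (γ γ' : Fm I) :
    Kn (-j - 1) u (prS.acF γ) (prS.acF γ') = Kn j (fun i => u (-i)) γ γ' :=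
  (st_pr j).Kn (fit_pr u) (by
    rw [← sw_neg u j]
    exact fit_pr _) γ γ'

theorem Sm_pr {I : Type} (j : ℤ) (γ γ' : Fm I) : Sm (-j - 1) (prS.acF γ) (prS.acF γ') ↔ Sm j γ γ' := (st_pr j).sm γ γ'

/-! ### reflection in the horizontal line -/

theorem st_hr (j : ℤ) : hrS.St j j := fun _ => Iff.rfl

theorem fit_hr (u : ℤ → ℝ) : hrS.Fit (fun j => 3 * Real.pi / 8 - u j) u := fun v c => hr_wt (u v.1) c

/-- **reflection in the horizontal line** -/
theorem Kn_hr {I : Type} (j : ℤ) (u : ℤ → ℝ) (γ γ' : Fm I) :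
    Kn j (fun i => 3 * Real.pi / 8 - u i) (hrS.acF γ) (hrS.acF γ') = Kn j u γ γ' := by
  refine (st_hr j).Kn (fit_hr u) ?_ γ γ'
  have e : sw j (fun i => 3 * Real.pi / 8 - u i) = fun i => 3 * Real.pi / 8 - sw j u i := by
    funext i
    unfold sw
    split_ifs <;> rfl
  rw [e]
  exact fit_hr _

theorem Sm_hr {I : Type} (j : ℤ) (γ γ' : Fm I) : Sm j (hrS.acF γ) (hrS.acF γ') ↔ Sm j γ γ' := (st_hr j).sm γ γ'

/-! ### vertical translations and the pass -/

/-- the pass is equivariant under translations -/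
theorem PK_tr {I : Type} (β : ℝ) (a : Pt) (n : ℕ) : ∀ (Q : ℤ) (γ γ' : Fm I),
    PK β (Q + a.1) n ((trS a).acF γ) ((trS a).acF γ') = PK β Q n γ γ' := by
  classical
  induction n with
  | zero =>
    intro Q γ γ'
    change (if (trS a).acF γ = (trS a).acF γ' then (1 : ℝ) else 0) = if γ = γ' then 1 else 0
    exact if_congr (trS a).eqF.injective.eq_iff rfl rfl
  | succ n ih =>
    intro Q γ γ'
    change (∑' δ : Fm I, Kn (Q + a.1 + n) (hb β (Q + a.1 + n + 1)) ((trS a).acF γ) δ * PK β (Q + a.1) n δ ((trS a).acF γ')) =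
      ∑' δ : Fm I, Kn (Q + n) (hb β (Q + n + 1)) γ δ * PK β Q n δ γ'
    rw [← Equiv.tsum_eq (trS a).eqF]
    refine tsum_congr fun δ => ?_
    change Kn (Q + a.1 + n) (hb β (Q + a.1 + n + 1)) ((trS a).acF γ) ((trS a).acF δ) *
      PK β (Q + a.1) n ((trS a).acF δ) ((trS a).acF γ') = _
    rw [ih Q δ γ']
    congr 1
    have e1 : Q + a.1 + (n : ℤ) = (Q + n) + a.1 := by ring
    rw [e1, Kn_tr]
    congr 1
    funext i
    unfold hb
    exact if_congr (by constructor <;> intro h <;> linarith) rfl rfl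

end Pool.Agent.ROT.E
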