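import Pool.Agent.PMA.LimN
import Pool.Agent.PMA.DpW

/-!
# F3, absolute continuity at a cut of the closed words (helper95)

`mid a b L`: the word `L` without `a` letters at the start and `b` letters at the end; `avm W φ`: the mean of `φ (mid ..)` over the
two shifts in `[W, 2 W)`, for an arbitrary function `φ` of words; **`eqC`**: the closed words and the open words of the gap have the
same mean of `avm W φ` up to `ε`; **`acC`**: the mean over the closed words is at most `C` times the mean over all open words, plus `ε`.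
-/

set_option autoImplicit false

open Finset

open scoped Classical

namespace Pool.Agent.ROT.F3

open Pool.Agent.PMA Pool.Agent.PMA.Res Pool.Agent.NTS.Res

open HexObs hiding pos

open HexObs.SDN HexObs.TS HexObs.TIW HexObs.POLP NTSF.Mg NTF Pool.Agent.TSW.BP HexObs.MCP

/-- the word without `a` letters at the start and `b` letters at the end -/
def mid (a b : ℕ) (L : List Bool) : List Bool := (L.drop a).take (L.length - a - b)

/-- the mean of `φ` over the middle parts, the two shifts in `[W, 2 W)` -/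
noncomputable def avm (W : ℕ) (φ : List Bool → ℝ) (L : List Bool) : ℝ :=
  (∑ u ∈ range W, ∑ v ∈ range W, φ (mid (W + u) (W + v) L)) / ((W : ℝ) * W)

/-- the sum over the open words with `k` letters, `k` in the window -/
noncomputable def oS (n : ℕ) (r : ℝ) (f : List Bool → ℝ) : ℝ := ∑ k ∈ wdw n r, xc ^ k * ∑ t ∈ sawF k, f t

/-- the mean over the open words of the window -/
noncomputable def oM (n : ℕ) (r : ℝ) (f : List Bool → ℝ) : ℝ := oS n r f / oS n r fun _ => 1

/-- the mean over the closed words -/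
noncomputable def cM (N : ℕ) (f : List Bool → ℝ) : ℝ := (∑ t ∈ cyF N, f t) / ((cyF N).card : ℝ)

/-! ### 1. Shifts -/

lemma mid_app {X M Y : List Bool} {a b : ℕ} (ha : X.length ≤ a) (hb : Y.length ≤ b) :
    mid a b (X ++ (M ++ Y)) = mid (a - X.length) (b - Y.length) M := by
  obtain ⟨p, rfl⟩ := Nat.exists_eq_add_of_le ha
  obtain ⟨q, rfl⟩ := Nat.exists_eq_add_of_le hb
  unfold mid
  have e1 : (X ++ (M ++ Y)).drop (X.length + p) = (M ++ Y).drop p := by
    rw [List.drop_append, List.drop_eq_nil_of_le (by omega), List.nil_append, Nat.add_sub_cancel_left]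
  have e2 : (X ++ (M ++ Y)).length - (X.length + p) - (Y.length + q) = M.length - p - q := by
    rw [List.length_append, List.length_append]
    omega
  have e3 : X.length + p - X.length = p := by omega
  have e4 : Y.length + q - Y.length = q := by omega
  rw [e1, e2, e3, e4]
  rcases le_or_gt p M.length with h | h
  · rw [List.drop_append_of_le_length h, List.take_append_of_le_length (by rw [List.length_drop]; omega)]
  · have h0 : M.length - p - q = 0 := by omega
    rw [h0, List.take_zero, List.take_zero]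

lemma shift_le {h : ℕ → ℝ} (hh : ∀ i, |h i| ≤ 1) (W c s : ℕ) :
    |∑ u ∈ range W, h (c + s + u) - ∑ u ∈ range W, h (c + u)| ≤ 2 * s := by
  induction s with
  | zero => simp
  | succ s ih =>
    have e : ∑ u ∈ range W, h (c + (s + 1) + u) - ∑ u ∈ range W, h (c + s + u) = h (c + s + W) - h (c + s) := by
      have e1 : ∑ u ∈ range W, h (c + (s + 1) + u) = ∑ u ∈ range W, h (c + s + (u + 1)) :=
        sum_congr rfl fun u _ => by
          congr 1
          ring
      have e2 := sum_range_succ (fun u => h (c + s + u)) W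
      have e3 := sum_range_succ' (fun u => h (c + s + u)) W
      rw [e1]
      simp only [add_zero] at e3
      linarith
    have h1 := abs_sub_abs_le_abs_sub (h (c + s + W)) (h (c + s))
    have h2 : |h (c + s + W) - h (c + s)| ≤ 2 := (abs_sub _ _).trans (by linarith [hh (c + s + W), hh (c + s)])
    have e4 : ∑ u ∈ range W, h (c + (s + 1) + u) - ∑ u ∈ range W, h (c + u) =
        (h (c + s + W) - h (c + s)) + (∑ u ∈ range W, h (c + s + u) - ∑ u ∈ range W, h (c + u)) := by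
      rw [← e]
      ring
    rw [e4]
    push_cast
    exact (abs_add_le _ _).trans (by linarith)

lemma shift_two {h : ℕ → ℝ} (hh : ∀ i, |h i| ≤ 1) (W c c' s : ℕ) (h1 : c ≤ c' + s) (h2 : c' ≤ c + s) :
    |∑ u ∈ range W, h (c + u) - ∑ u ∈ range W, h (c' + u)| ≤ 2 * s := by
  rcases le_total c c' with h | h
  · obtain ⟨t, rfl⟩ := Nat.exists_eq_add_of_le h
    have h3 := shift_le hh W c t
    rw [abs_sub_comm] at h3
    refine h3.trans ?_
    have : (t : ℝ) ≤ s := by exact_mod_cast (by omega : t ≤ s)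
    linarith
  · obtain ⟨t, rfl⟩ := Nat.exists_eq_add_of_le h
    have h3 := shift_le hh W c' t
    refine h3.trans ?_
    have : (t : ℝ) ≤ s := by exact_mod_cast (by omega : t ≤ s)
    linarith

lemma sum_abs_le {W : ℕ} {g : ℕ → ℝ} {b : ℝ} (h : ∀ u ∈ range W, |g u| ≤ b) : |∑ u ∈ range W, g u| ≤ W * b := by
  refine (abs_sum_le_sum_abs _ _).trans ((sum_le_sum h).trans ?_)
  rw [sum_const, card_range, nsmul_eq_mul]

lemma avm_abs {W : ℕ} {φ : List Bool → ℝ} (hφ : ∀ L, |φ L| ≤ 1) (L : List Bool) : |avm W φ L| ≤ 1 := by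
  unfold avm
  rw [abs_div, abs_of_nonneg (by positivity : (0 : ℝ) ≤ (W : ℝ) * W)]
  refine div_le_one_of_le₀ ?_ (by positivity)
  have h : ∀ u ∈ range W, |∑ v ∈ range W, φ (mid (W + u) (W + v) L)| ≤ W := fun u _ => by
    refine (sum_abs_le fun v _ => hφ _).trans (le_of_eq (mul_one _))
  exact sum_abs_le h

lemma avm_nonneg {W : ℕ} {φ : List Bool → ℝ} (hφ : ∀ L, 0 ≤ φ L) (L : List Bool) : 0 ≤ avm W φ L :=
  div_nonneg (sum_nonneg fun _ _ => sum_nonneg fun _ _ => hφ _) (by positivity)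

/-- **only the common part matters** -/
lemma avm_near {W a : ℕ} (hW : 0 < W) {φ : List Bool → ℝ} (hφ : ∀ L, |φ L| ≤ 1) {X M Y A B : List Bool}
    (ha : a = X.length + Y.length + (A.length + B.length)) :
    |avm W φ (X ++ (M ++ Y)) - avm W φ (B ++ (M ++ A))| ≤ 2 * a / W := by
  have hW' : (0 : ℝ) < W := by exact_mod_cast hW
  rcases le_or_gt a W with h | h
  · have e : ∀ (X Y : List Bool), X.length ≤ W → Y.length ≤ W → avm W φ (X ++ (M ++ Y)) =
        (∑ u ∈ range W, ∑ v ∈ range W, φ (mid (W - X.length + u) (W - Y.length + v) M)) / ((W : ℝ) * W) := by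
      intro X Y hX hY
      unfold avm
      congr 1
      refine sum_congr rfl fun u _ => sum_congr rfl fun v _ => ?_
      rw [mid_app (by omega) (by omega)]
      congr 2 <;> omega
    rw [e X Y (by omega) (by omega), e B A (by omega) (by omega), ← sub_div, abs_div,
      abs_of_pos (by positivity : (0 : ℝ) < (W : ℝ) * W), div_le_div_iff₀ (by positivity) hW']
    have k1 : |∑ u ∈ range W, ∑ v ∈ range W, φ (mid (W - X.length + u) (W - Y.length + v) M) -
        ∑ u ∈ range W, ∑ v ∈ range W, φ (mid (W - X.length + u) (W - A.length + v) M)| ≤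
          W * (2 * (Y.length + A.length : ℕ)) := by
      rw [← sum_sub_distrib]
      exact sum_abs_le fun u _ => shift_two (h := fun i => φ (mid (W - X.length + u) i M)) (fun i => hφ _) W _ _ _
        (by omega) (by omega)
    have k2 : |∑ u ∈ range W, ∑ v ∈ range W, φ (mid (W - X.length + u) (W - A.length + v) M) -
        ∑ u ∈ range W, ∑ v ∈ range W, φ (mid (W - B.length + u) (W - A.length + v) M)| ≤
          W * (2 * (X.length + B.length : ℕ)) := by
      rw [sum_comm (s := range W) (t := range W) (f := fun u v => φ (mid (W - X.length + u) (W - A.length + v) M)),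
        sum_comm (s := range W) (t := range W) (f := fun u v => φ (mid (W - B.length + u) (W - A.length + v) M)),
        ← sum_sub_distrib]
      exact sum_abs_le fun v _ => shift_two (h := fun i => φ (mid i (W - A.length + v) M)) (fun i => hφ _) W _ _ _
        (by omega) (by omega)
    have k3 := abs_sub_le (∑ u ∈ range W, ∑ v ∈ range W, φ (mid (W - X.length + u) (W - Y.length + v) M))
      (∑ u ∈ range W, ∑ v ∈ range W, φ (mid (W - X.length + u) (W - A.length + v) M))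
      (∑ u ∈ range W, ∑ v ∈ range W, φ (mid (W - B.length + u) (W - A.length + v) M))
    have k4 : (W : ℝ) * (2 * (Y.length + A.length : ℕ)) + W * (2 * (X.length + B.length : ℕ)) = 2 * a * W := by
      rw [ha]
      push_cast
      ring
    have k5 : |∑ u ∈ range W, ∑ v ∈ range W, φ (mid (W - X.length + u) (W - Y.length + v) M) -
        ∑ u ∈ range W, ∑ v ∈ range W, φ (mid (W - B.length + u) (W - A.length + v) M)| ≤ 2 * a * W := by
      linarith
    calc _ ≤ 2 * (a : ℝ) * W * W := mul_le_mul_of_nonneg_right k5 hW'.le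
      _ = _ := by ring
  · have h1 := avm_abs (W := W) hφ (X ++ (M ++ Y))
    have h2 := avm_abs (W := W) hφ (B ++ (M ++ A))
    have h3 : (2 : ℝ) ≤ 2 * a / W := by
      rw [le_div_iff₀ hW']
      have : (W : ℝ) ≤ a := by exact_mod_cast h.le
      linarith
    exact (abs_sub _ _).trans (by linarith)

lemma avm_open {n W : ℕ} (hW : 0 < W) {φ : List Bool → ℝ} (hφ : ∀ L, |φ L| ≤ 1) {Cr : ℝ} (hCr : 4 * (n : ℝ) ≤ Cr * W)
    (hn : 0 < n) {X M Y A B : List Bool} : |avm W φ (X ++ (M ++ Y)) - avm W φ (B ++ (M ++ A))| ≤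
      Cr * (((X.length + Y.length + (A.length + B.length) : ℕ) : ℝ) / n) := by
  obtain ⟨a, ha⟩ : ∃ a, a = X.length + Y.length + (A.length + B.length) := ⟨_, rfl⟩
  refine (avm_near hW hφ ha).trans ?_
  rw [← ha]
  have hW' : (0 : ℝ) < W := by exact_mod_cast hW
  have hn' : (0 : ℝ) < n := by exact_mod_cast hn
  rw [← mul_div_assoc, div_le_div_iff₀ hW' hn']
  have ha0 : (0 : ℝ) ≤ a := Nat.cast_nonneg a
  have h2 := mul_le_mul_of_nonneg_left hCr ha0
  nlinarith [mul_nonneg ha0 hn'.le]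

lemma avm_rot {n W : ℕ} (hW : 0 < W) {φ : List Bool → ℝ} (hφ : ∀ L, |φ L| ≤ 1) {Cr : ℝ}
    (hCr : 4 * ((n + 1 : ℕ) : ℝ) ≤ Cr * W) {L : List Bool} (hL : L.length = n + 1) {u : ℕ} (hu : u < n + 1) :
    |avm W φ (L.rotate u) - avm W φ L| ≤ Cr * (u / ((n + 1 : ℕ) : ℝ)) := by
  have e1 : L.rotate u = [] ++ (L.drop u ++ L.take u) := by
    rw [List.rotate_eq_drop_append_take (by omega), List.nil_append]
  have e2 : L = L.take u ++ (L.drop u ++ []) := by
    rw [List.append_nil, List.take_append_drop]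
  have h1 := avm_near (W := W) (a := 2 * u) hW hφ (X := []) (M := L.drop u) (Y := L.take u) (A := []) (B := L.take u)
    (by rw [List.length_take, List.length_nil]; omega)
  rw [← e1, ← e2] at h1
  refine h1.trans ?_
  have hW' : (0 : ℝ) < W := by exact_mod_cast hW
  have hn' : (0 : ℝ) < ((n + 1 : ℕ) : ℝ) := by positivity
  rw [← mul_div_assoc, div_le_div_iff₀ hW' hn']
  have ha0 : (0 : ℝ) ≤ u := Nat.cast_nonneg u
  have h2 := mul_le_mul_of_nonneg_left hCr ha0
  push_cast at h2 ⊢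
  nlinarith

/-! ### 2. Closed words and open words -/

/-- **closed words and the open words of the gap**, arbitrary functions of the middle part -/
theorem eqC : ∀ ε δ K : ℝ, 0 < ε → 0 < δ → 1 ≤ K → ∃ r0 : ℝ, 0 < r0 ∧ ∀ r : ℝ, 0 < r → r ≤ r0 → ∃ n0 : ℕ,
    ∀ n : ℕ, n0 ≤ n → Odd n → ∀ ρ : ℝ, r / K ≤ ρ → ρ ≤ K * r → ∀ (W : ℕ) (φ : List Bool → ℝ), δ * n ≤ W → (∀ L, |φ L| ≤ 1) →
      |gS n r (ρ * nr n) (fun _ t => avm W φ t) / gS n r (ρ * nr n) (fun _ _ => 1) - cM (n + 1) (avm W φ)| ≤ ε := by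
  intro ε δ K hε hδ hK
  obtain ⟨r0, hr0, h⟩ := wpmG ε (8 / δ) hε (by positivity) K hK
  refine ⟨r0, hr0, fun r hr hrr => ?_⟩
  obtain ⟨n0, h⟩ := h r hr hrr
  refine ⟨n0 + 1, fun n hn ho ρ h1 h2 W φ hW hφ => ?_⟩
  have hn1 : 1 ≤ n := by omega
  have hn' : (1 : ℝ) ≤ n := by exact_mod_cast hn1
  have hW0 : 0 < W := by
    have : (0 : ℝ) < W := lt_of_lt_of_le (by positivity) hW
    exact_mod_cast this
  have hW1 : 8 * (n : ℝ) ≤ 8 / δ * W := by
    rw [div_mul_eq_mul_div, le_div_iff₀ hδ]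
    linarith
  exact h n (by omega) ho ρ h1 h2 (avm W φ) (avm W φ) (avm_abs hφ) (avm_abs hφ)
    (fun X M Y A B _ _ => avm_open hW0 hφ (by linarith) hn1)
    (fun L hL u hu => avm_rot hW0 hφ (by push_cast; linarith) (mem_cyF.1 hL).1 hu)

lemma oS_nonneg {n : ℕ} {r : ℝ} {f : List Bool → ℝ} (hf : ∀ L, 0 ≤ f L) : 0 ≤ oS n r f := by
  have hx := xc_pos
  exact sum_nonneg fun k _ => mul_nonneg (by positivity) (sum_nonneg fun t _ => hf t)

/-- the gap in the units of `nr` -/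
lemma size_rho {c0 C0 K r : ℝ} (hc0 : 0 < c0) (hsz : ∀ n : ℕ, 1 ≤ n → c0 * (n : ℝ) ^ (3 / 4 : ℝ) ≤ size n ∧
    size n ≤ C0 * (n : ℝ) ^ (3 / 4 : ℝ)) (hK1 : 1 ≤ K) (hK2 : C0 ≤ K) (hK3 : 1 / c0 ≤ K) (hr : 0 < r) {n : ℕ} (hn : 1 ≤ n) :
    ∃ ρ : ℝ, r / K ≤ ρ ∧ ρ ≤ K * r ∧ ρ * nr n = r * size n := by
  obtain ⟨R, hR⟩ : ∃ R : ℝ, R = nr n := ⟨_, rfl⟩
  have hR0 : 0 < R := hR ▸ nr_pos (by omega)
  have hsn := hsz n hn
  have hRe : (n : ℝ) ^ (3 / 4 : ℝ) = R := by
    rw [hR]
    rfl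
  rw [hRe] at hsn
  rw [← hR]
  refine ⟨r * size n / R, ?_, ?_, div_mul_cancel₀ _ hR0.ne'⟩
  · rw [div_le_div_iff₀ (by linarith) hR0, mul_assoc]
    refine mul_le_mul_of_nonneg_left ?_ hr.le
    have h2 : 1 ≤ K * c0 := by
      rw [div_le_iff₀ hc0] at hK3
      exact hK3
    have h3 := mul_le_mul_of_nonneg_left hsn.1 (by linarith : (0 : ℝ) ≤ K)
    have h4 := mul_le_mul_of_nonneg_right h2 hR0.le
    nlinarith
  · rw [div_le_iff₀ hR0]
    have h2 : size n ≤ K * R := hsn.2.trans (mul_le_mul_of_nonneg_right hK2 hR0.le)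
    have h3 := mul_le_mul_of_nonneg_left h2 hr.le
    linarith

lemma wdw_pos {n : ℕ} {r : ℝ} (hr : 0 < r) (hr2 : r ≤ 1 / 2) (hn : 0 < n) : ∀ k ∈ wdw n r, 1 ≤ k := by
  intro k hk
  have hnp : (0 : ℝ) < n := by exact_mod_cast hn
  have hq : r ^ (4 / 3 : ℝ) ≤ 1 / 2 := by
    calc r ^ (4 / 3 : ℝ) ≤ r ^ (1 : ℝ) := Real.rpow_le_rpow_of_exponent_ge hr (by linarith) (by norm_num)
      _ = r := Real.rpow_one r
      _ ≤ 1 / 2 := hr2
  unfold wdw at hk
  rw [mem_filter] at hk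
  have h2 := mul_le_mul_of_nonneg_right hq hnp.le
  have h3 : (0 : ℝ) < k := by linarith [hk.2]
  have h4 : 0 < k := by exact_mod_cast h3
  omega

lemma wdw_self {n : ℕ} {r : ℝ} (hr : 0 < r) : n ∈ wdw n r := by
  have hnp : (0 : ℝ) ≤ n := Nat.cast_nonneg n
  unfold wdw
  rw [mem_filter, mem_range]
  refine ⟨by omega, ?_⟩
  have h2 : (0 : ℝ) ≤ r ^ (4 / 3 : ℝ) := (Real.rpow_pos_of_pos hr _).le
  nlinarith

lemma oS_pos {n : ℕ} {r : ℝ} (hr : 0 < r) (hr2 : r ≤ 1 / 2) (hn : 0 < n) : 0 < oS n r (fun _ => 1) := by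
  have hx := xc_pos
  unfold oS
  refine sum_pos (fun k hk => mul_pos (pow_pos hx k) ?_) ⟨n, wdw_self hr⟩
  rw [sum_const, nsmul_eq_mul, mul_one, SLW.card_sawF]
  exact HexObs.TIP.cS_pos' (wdw_pos hr hr2 hn k hk)

/-- **the gap has a positive probability**: means over the open words of the gap are at most `1 / c` times the means over all -/
theorem gapM : ∃ r0 : ℝ, 0 < r0 ∧ ∀ r : ℝ, 0 < r → r ≤ r0 → ∃ (c : ℝ) (n0 : ℕ), 0 < c ∧ ∀ n : ℕ, n0 ≤ n →
    ∀ f : List Bool → ℝ, (∀ L, 0 ≤ f L) →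
      gS n r (r * size n) (fun _ t => f t) / gS n r (r * size n) (fun _ _ => 1) ≤ 1 / c * oM n r f := by
  obtain ⟨r1, hr1, hr12, h'⟩ := near_low
  refine ⟨r1, hr1, fun r hr hrr => ?_⟩
  obtain ⟨c, n1, hc, h'⟩ := h' r hr hrr
  refine ⟨c, n1 + 1, hc, fun n hn f h0 => ?_⟩
  have hx := xc_pos
  have hr2 : r ≤ 1 / 2 := hrr.trans hr12
  have e1 : gS n r (r * size n) (fun _ t => f t) ≤ oS n r f := by
    unfold gS oS
    refine sum_le_sum fun k _ => mul_le_mul_of_nonneg_left ?_ (by positivity)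
    exact sum_le_sum_of_subset_of_nonneg (filter_subset _ _) fun t _ _ => h0 t
  have e2 : c * oS n r (fun _ => 1) ≤ gS n r (r * size n) (fun _ _ => 1) := by
    unfold gS oS
    rw [mul_sum]
    refine sum_le_sum fun k hk => ?_
    have h2 := h' n (by omega) k hk
    have hk1 : 1 ≤ k := wdw_pos hr hr2 (by omega) k hk
    rw [near_card hk1] at h2
    rw [sum_const, sum_const, nsmul_eq_mul, nsmul_eq_mul, mul_one, mul_one, SLW.card_sawF]
    have h3 : (0 : ℝ) < cS k := HexObs.TIP.cS_pos' hk1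
    rw [le_div_iff₀ h3] at h2
    have h4 : (0 : ℝ) < xc ^ k := by positivity
    have h5 := mul_le_mul_of_nonneg_left h2 h4.le
    linarith
  have e3 : 0 < oS n r (fun _ => 1) := oS_pos hr hr2 (by omega)
  have e4 : 0 ≤ oS n r f := oS_nonneg h0
  unfold oM
  rw [one_div, ← div_eq_inv_mul, div_div, mul_comm (oS n r fun _ => 1) c]
  exact div_le_div₀ e4 e1 (by positivity) e2

/-- **absolute continuity at a cut of the closed words** -/
theorem acC : ∀ ε δ : ℝ, 0 < ε → 0 < δ → ∃ r0 : ℝ, 0 < r0 ∧ ∀ r : ℝ, 0 < r → r ≤ r0 → ∃ (C : ℝ) (n0 : ℕ), 0 < C ∧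
    ∀ n : ℕ, n0 ≤ n → Odd n → ∀ (W : ℕ) (φ : List Bool → ℝ), δ * n ≤ W → (∀ L, 0 ≤ φ L) → (∀ L, φ L ≤ 1) →
      cM (n + 1) (avm W φ) ≤ C * oM n r (avm W φ) + ε := by
  intro ε δ hε hδ
  obtain ⟨c0, C0, hc0, hsz⟩ := (NTSF.Mg.oneFacts NTSF.finE).sz
  obtain ⟨K, hK1, hK2, hK3⟩ : ∃ K : ℝ, 1 ≤ K ∧ C0 ≤ K ∧ 1 / c0 ≤ K :=
    ⟨max 1 (max C0 (1 / c0)), le_max_left _ _, (le_max_left _ _).trans (le_max_right _ _),
      (le_max_right _ _).trans (le_max_right _ _)⟩
  obtain ⟨r0, hr0, h⟩ := eqC ε δ K hε hδ hK1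
  obtain ⟨r1, hr1, h'⟩ := gapM
  refine ⟨min r0 r1, lt_min hr0 hr1, fun r hr hrr => ?_⟩
  obtain ⟨n0, h⟩ := h r hr (hrr.trans (min_le_left _ _))
  obtain ⟨c, n1, hc, h'⟩ := h' r hr (hrr.trans (min_le_right _ _))
  refine ⟨1 / c, n0 + n1 + 1, by positivity, fun n hn ho W φ hW h0 h1 => ?_⟩
  have hφ : ∀ L, |φ L| ≤ 1 := fun L => abs_le.2 ⟨by linarith [h0 L], h1 L⟩
  obtain ⟨ρ, hρ1, hρ2, hρ⟩ := size_rho hc0 hsz hK1 hK2 hK3 hr (show 1 ≤ n by omega)
  have key := h n (by omega) ho ρ hρ1 hρ2 W φ hW hφ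
  rw [hρ] at key
  have k2 := h' n (by omega) (avm W φ) (avm_nonneg h0)
  have k3 := (abs_le.1 key).1
  linarith

/-! ### 3. Windows with a fixed number of letters -/

/-- the mean of `φ` over the windows with `l` letters which start at `W + s`, `s < W` -/
noncomputable def avw (W l : ℕ) (φ : List Bool → ℝ) (L : List Bool) : ℝ :=
  (∑ s ∈ range W, φ ((L.drop (W + s)).take l)) / (W : ℝ)

lemma avw_abs {W l : ℕ} {φ : List Bool → ℝ} (hφ : ∀ L, |φ L| ≤ 1) (L : List Bool) : |avw W l φ L| ≤ 1 := by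
  unfold avw
  rw [abs_div, abs_of_nonneg (by positivity : (0 : ℝ) ≤ (W : ℝ))]
  refine div_le_one_of_le₀ ?_ (by positivity)
  exact (sum_abs_le fun s _ => hφ _).trans (le_of_eq (mul_one _))

lemma avw_nonneg {W l : ℕ} {φ : List Bool → ℝ} (hφ : ∀ L, 0 ≤ φ L) (L : List Bool) : 0 ≤ avw W l φ L :=
  div_nonneg (sum_nonneg fun _ _ => hφ _) (by positivity)

lemma avw_near {n W l a : ℕ} (hW : 0 < W) (hl : l + 3 * W ≤ n) {φ : List Bool → ℝ} (hφ : ∀ L, |φ L| ≤ 1)
    {X M Y A B : List Bool} (hN : (B ++ (M ++ A)).length = n + 1) (ha : a = X.length + Y.length + (A.length + B.length)) :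
    |avw W l φ (X ++ (M ++ Y)) - avw W l φ (B ++ (M ++ A))| ≤ 2 * a / W := by
  have hW' : (0 : ℝ) < W := by exact_mod_cast hW
  have hN' : B.length + (M.length + A.length) = n + 1 := by rw [← hN, List.length_append, List.length_append]
  rcases le_or_gt a W with h | h
  · have e : ∀ (X Y : List Bool), X.length ≤ W → avw W l φ (X ++ (M ++ Y)) =
        (∑ s ∈ range W, φ ((M.drop (W - X.length + s)).take l)) / (W : ℝ) := by
      intro X Y hX
      unfold avw
      congr 1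
      refine sum_congr rfl fun s hs => ?_
      rw [mem_range] at hs
      congr 1
      have e1 : (X ++ (M ++ Y)).drop (W + s) = (M ++ Y).drop (W - X.length + s) := by
        rw [List.drop_append, List.drop_eq_nil_of_le (by omega), List.nil_append]
        congr 1
        omega
      rw [e1, List.drop_append_of_le_length (by omega), List.take_append_of_le_length (by rw [List.length_drop]; omega)]
    rw [e X Y (by omega), e B A (by omega), ← sub_div, abs_div, abs_of_pos hW', div_le_div_iff₀ hW' hW']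
    have k1 := shift_two (h := fun i => φ ((M.drop i).take l)) (fun i => hφ _) W (W - X.length) (W - B.length)
      (X.length + B.length) (by omega) (by omega)
    have k2 : ((X.length + B.length : ℕ) : ℝ) ≤ a := by exact_mod_cast (by omega : X.length + B.length ≤ a)
    exact mul_le_mul_of_nonneg_right (k1.trans (by linarith)) hW'.le
  · have h1 := avw_abs (W := W) (l := l) hφ (X ++ (M ++ Y))
    have h2 := avw_abs (W := W) (l := l) hφ (B ++ (M ++ A))
    have h3 : (2 : ℝ) ≤ 2 * a / W := by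
      rw [le_div_iff₀ hW']
      have : (W : ℝ) ≤ a := by exact_mod_cast h.le
      linarith
    exact (abs_sub _ _).trans (by linarith)

/-- every window of the closed words has the same law -/
lemma cM_win {N i l : ℕ} (h : i + l ≤ N) (φ : List Bool → ℝ) :
    cM N (fun K => φ ((K.drop i).take l)) = cM N (fun K => φ (K.take l)) := by
  unfold cM
  congr 1
  rw [← Pool.Agent.PMA.sum_rot N i fun K => φ (K.take l)]
  refine sum_congr rfl fun K hK => ?_
  congr 1
  have hl : K.length = N := (mem_cyF.1 hK).1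
  rw [List.rotate_eq_drop_append_take (by omega), List.take_append_of_le_length (by rw [List.length_drop]; omega)]

lemma cM_avw {N W l : ℕ} (hW : 0 < W) (h : 2 * W + l ≤ N) (φ : List Bool → ℝ) :
    cM N (avw W l φ) = cM N (fun K => φ (K.take l)) := by
  have hW' : (0 : ℝ) < W := by exact_mod_cast hW
  have e1 : cM N (avw W l φ) = (∑ s ∈ range W, cM N (fun K => φ ((K.drop (W + s)).take l))) / (W : ℝ) := by
    unfold cM avw
    rw [← sum_div, ← sum_div, sum_comm]
    ring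
  rw [e1, sum_congr rfl fun s hs => cM_win (by rw [mem_range] at hs; omega) φ, sum_const, card_range, nsmul_eq_mul,
    mul_div_cancel_left₀ _ hW'.ne']

/-- **closed words and the open words of the gap**: arbitrary functions of `l` letters, the number of letters is exact, the start in
the open word is averaged -/
theorem eqW : ∀ ε δ K : ℝ, 0 < ε → 0 < δ → 1 ≤ K → ∃ r0 : ℝ, 0 < r0 ∧ ∀ r : ℝ, 0 < r → r ≤ r0 → ∃ n0 : ℕ,
    ∀ n : ℕ, n0 ≤ n → Odd n → ∀ ρ : ℝ, r / K ≤ ρ → ρ ≤ K * r → ∀ (W l : ℕ) (φ : List Bool → ℝ), δ * n ≤ W → l + 3 * W ≤ n →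
      (∀ L, |φ L| ≤ 1) → |gS n r (ρ * nr n) (fun _ t => avw W l φ t) / gS n r (ρ * nr n) (fun _ _ => 1) -
        cM (n + 1) (fun K => φ (K.take l))| ≤ ε := by
  intro ε δ K hε hδ hK
  obtain ⟨r0, hr0, h⟩ := wpmG ε (8 / δ) hε (by positivity) K hK
  refine ⟨r0, hr0, fun r hr hrr => ?_⟩
  obtain ⟨n0, h⟩ := h r hr hrr
  refine ⟨n0 + 1, fun n hn ho ρ h1 h2 W l φ hW hl hφ => ?_⟩
  have hn1 : 1 ≤ n := by omega
  have hn' : (1 : ℝ) ≤ n := by exact_mod_cast hn1
  have hn0 : (0 : ℝ) < n := by linarith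
  have hW' : (0 : ℝ) < W := lt_of_lt_of_le (by positivity) hW
  have hW0 : 0 < W := by exact_mod_cast hW'
  have hW1 : 8 * (n : ℝ) ≤ 8 / δ * W := by
    rw [div_mul_eq_mul_div, le_div_iff₀ hδ]
    linarith
  have key := h n (by omega) ho ρ h1 h2 (avw W l φ) (avw W l φ) (avw_abs hφ) (avw_abs hφ)
    (fun X M Y A B _ h4 => by
      obtain ⟨a, ha⟩ : ∃ a, a = X.length + Y.length + (A.length + B.length) := ⟨_, rfl⟩
      refine (avw_near hW0 hl hφ h4 ha).trans ?_
      rw [← ha, ← mul_div_assoc, div_le_div_iff₀ hW' hn0]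
      have ha0 : (0 : ℝ) ≤ a := Nat.cast_nonneg a
      have h5 := mul_le_mul_of_nonneg_left hW1 ha0
      nlinarith [mul_nonneg ha0 hn0.le])
    (fun L hL u hu => by
      have hL' : L.length = n + 1 := (mem_cyF.1 hL).1
      have e1 : L.rotate u = [] ++ (L.drop u ++ L.take u) := by
        rw [List.rotate_eq_drop_append_take (by omega), List.nil_append]
      have e2 : L = L.take u ++ (L.drop u ++ []) := by
        rw [List.append_nil, List.take_append_drop]
      have h5 := avw_near (n := n) (W := W) (l := l) (a := 2 * u) hW0 hl hφ (X := []) (M := L.drop u) (Y := L.take u)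
        (A := []) (B := L.take u) (by rw [← e2]; exact hL') (by rw [List.length_take, List.length_nil]; omega)
      rw [← e1, ← e2] at h5
      refine h5.trans ?_
      have hn2 : (0 : ℝ) < ((n + 1 : ℕ) : ℝ) := by positivity
      rw [← mul_div_assoc, div_le_div_iff₀ hW' hn2]
      have ha0 : (0 : ℝ) ≤ u := Nat.cast_nonneg u
      have h6 := mul_le_mul_of_nonneg_left hW1 ha0
      push_cast
      nlinarith)
  have e := cM_avw (N := n + 1) (W := W) (l := l) hW0 (by omega) φ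
  unfold cM at e
  unfold cM
  rw [← e]
  exact key

/-- **absolute continuity, windows with an exact number of letters** -/
theorem acW : ∀ ε δ : ℝ, 0 < ε → 0 < δ → ∃ r0 : ℝ, 0 < r0 ∧ ∀ r : ℝ, 0 < r → r ≤ r0 → ∃ (C : ℝ) (n0 : ℕ), 0 < C ∧
    ∀ n : ℕ, n0 ≤ n → Odd n → ∀ (W l : ℕ) (φ : List Bool → ℝ), δ * n ≤ W → l + 3 * W ≤ n → (∀ L, 0 ≤ φ L) →
      (∀ L, φ L ≤ 1) → cM (n + 1) (fun K => φ (K.take l)) ≤ C * oM n r (avw W l φ) + ε := by
  intro ε δ hε hδ
  obtain ⟨c0, C0, hc0, hsz⟩ := (NTSF.Mg.oneFacts NTSF.finE).sz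
  obtain ⟨K, hK1, hK2, hK3⟩ : ∃ K : ℝ, 1 ≤ K ∧ C0 ≤ K ∧ 1 / c0 ≤ K :=
    ⟨max 1 (max C0 (1 / c0)), le_max_left _ _, (le_max_left _ _).trans (le_max_right _ _),
      (le_max_right _ _).trans (le_max_right _ _)⟩
  obtain ⟨r0, hr0, h⟩ := eqW ε δ K hε hδ hK1
  obtain ⟨r1, hr1, h'⟩ := gapM
  refine ⟨min r0 r1, lt_min hr0 hr1, fun r hr hrr => ?_⟩
  obtain ⟨n0, h⟩ := h r hr (hrr.trans (min_le_left _ _))
  obtain ⟨c, n1, hc, h'⟩ := h' r hr (hrr.trans (min_le_right _ _))
  refine ⟨1 / c, n0 + n1 + 1, by positivity, fun n hn ho W l φ hW hl h0 h1 => ?_⟩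
  have hφ : ∀ L, |φ L| ≤ 1 := fun L => abs_le.2 ⟨by linarith [h0 L], h1 L⟩
  obtain ⟨ρ, hρ1, hρ2, hρ⟩ := size_rho hc0 hsz hK1 hK2 hK3 hr (show 1 ≤ n by omega)
  have key := h n (by omega) ho ρ hρ1 hρ2 W l φ hW hl hφ
  rw [hρ] at key
  have k2 := h' n (by omega) (avw W l φ) (avw_nonneg h0)
  have k3 := (abs_le.1 key).1
  linarith

/-! ### 4. Events -/

lemma le_avm {W : ℕ} (hW : 0 < W) {φ : List Bool → ℝ} {L : List Bool} {c : ℝ}
    (h : ∀ a b, W ≤ a → a < 2 * W → W ≤ b → b < 2 * W → c ≤ φ (mid a b L)) : c ≤ avm W φ L := by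
  have hW' : (0 : ℝ) < W := by exact_mod_cast hW
  unfold avm
  rw [le_div_iff₀ (by positivity)]
  calc c * ((W : ℝ) * W) = ∑ _u ∈ range W, ∑ _v ∈ range W, c := by
        rw [sum_const, sum_const, card_range, nsmul_eq_mul, nsmul_eq_mul]
        ring
    _ ≤ _ := sum_le_sum fun u hu => sum_le_sum fun v hv => by
        rw [mem_range] at hu hv
        exact h _ _ (by omega) (by omega) (by omega) (by omega)

lemma avm_le {W : ℕ} (hW : 0 < W) {φ : List Bool → ℝ} {L : List Bool} {c : ℝ}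
    (h : ∀ a b, W ≤ a → a < 2 * W → W ≤ b → b < 2 * W → φ (mid a b L) ≤ c) : avm W φ L ≤ c := by
  have hW' : (0 : ℝ) < W := by exact_mod_cast hW
  unfold avm
  rw [div_le_iff₀ (by positivity)]
  calc _ ≤ ∑ _u ∈ range W, ∑ _v ∈ range W, c := sum_le_sum fun u hu => sum_le_sum fun v hv => by
        rw [mem_range] at hu hv
        exact h _ _ (by omega) (by omega) (by omega) (by omega)
    _ = c * ((W : ℝ) * W) := by
        rw [sum_const, sum_const, card_range, nsmul_eq_mul, nsmul_eq_mul]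
        ring

/-- a bound for every number of letters -/
lemma oM_le {n : ℕ} {r η : ℝ} {f : List Bool → ℝ} (hη : 0 ≤ η)
    (h : ∀ k ∈ wdw n r, ∑ t ∈ sawF k, f t ≤ η * (sawF k).card) : oM n r f ≤ η := by
  have hx := xc_pos
  unfold oM
  refine div_le_of_le_mul₀ (oS_nonneg fun _ => zero_le_one) hη ?_
  unfold oS
  rw [mul_sum]
  refine sum_le_sum fun k hk => ?_
  rw [sum_const, nsmul_eq_mul, mul_one]
  have h1 := mul_le_mul_of_nonneg_left (h k hk) (by positivity : (0 : ℝ) ≤ xc ^ k)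
  linarith

/-- **events**: `E` of the closed words, `E'` of the open words; `φ` is `1` on the middle parts of the closed words of `E` and `0` on
those of the open words outside of `E'` -/
theorem evC : ∀ ε δ : ℝ, 0 < ε → 0 < δ → ∃ r0 : ℝ, 0 < r0 ∧ ∀ r : ℝ, 0 < r → r ≤ r0 → ∃ (C : ℝ) (n0 : ℕ), 0 < C ∧
    ∀ n : ℕ, n0 ≤ n → Odd n → ∀ (W : ℕ) (φ : List Bool → ℝ) (E E' : List Bool → Prop), δ * n ≤ W → (∀ L, 0 ≤ φ L) →
      (∀ L, φ L ≤ 1) →
      (∀ K ∈ cyF (n + 1), E K → ∀ a b, W ≤ a → a < 2 * W → W ≤ b → b < 2 * W → φ (mid a b K) = 1) →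
      (∀ k ∈ wdw n r, ∀ L ∈ sawF k, ¬ E' L → ∀ a b, W ≤ a → a < 2 * W → W ≤ b → b < 2 * W → φ (mid a b L) = 0) →
      (((cyF (n + 1)).filter E).card : ℝ) / ((cyF (n + 1)).card : ℝ) ≤ C * oM n r (fun L => if E' L then 1 else 0) + ε := by
  intro ε δ hε hδ
  obtain ⟨r0, hr0, h⟩ := acC ε δ hε hδ
  refine ⟨r0, hr0, fun r hr hrr => ?_⟩
  obtain ⟨C, n0, hC, h⟩ := h r hr hrr
  refine ⟨C, n0 + 1, hC, fun n hn ho W φ E E' hW h0 h1 hE hE' => ?_⟩
  have hn' : (0 : ℝ) < n := by
    have : 0 < n := by omega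
    exact_mod_cast this
  have hW0 : 0 < W := by
    have : (0 : ℝ) < W := lt_of_lt_of_le (by positivity) hW
    exact_mod_cast this
  have hx := xc_pos
  refine le_trans ?_ ((h n (by omega) ho W φ hW h0 h1).trans ?_)
  · unfold cM
    refine div_le_div_of_nonneg_right ?_ (Nat.cast_nonneg _)
    calc (((cyF (n + 1)).filter E).card : ℝ) = ∑ _t ∈ (cyF (n + 1)).filter E, (1 : ℝ) := by
          rw [sum_const, nsmul_eq_mul, mul_one]
      _ ≤ ∑ t ∈ (cyF (n + 1)).filter E, avm W φ t := sum_le_sum fun t ht => by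
          rw [mem_filter] at ht
          exact le_avm hW0 fun a b a1 a2 b1 b2 => (hE t ht.1 ht.2 a b a1 a2 b1 b2).ge
      _ ≤ _ := sum_le_sum_of_subset_of_nonneg (filter_subset _ _) fun t _ _ => avm_nonneg h0 t
  · have h2 : oM n r (avm W φ) ≤ oM n r (fun L => if E' L then 1 else 0) := by
      unfold oM
      refine div_le_div_of_nonneg_right ?_ (oS_nonneg fun _ => zero_le_one)
      unfold oS
      refine sum_le_sum fun k hk => mul_le_mul_of_nonneg_left (sum_le_sum fun t ht => ?_) (by positivity)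
      by_cases he : E' t
      · rw [if_pos he]
        exact avm_le hW0 fun a b _ _ _ _ => h1 _
      · rw [if_neg he]
        exact avm_le hW0 fun a b a1 a2 b1 b2 => (hE' k hk t ht he a b a1 a2 b1 b2).le
    have h3 := mul_le_mul_of_nonneg_left h2 hC.le
    linarith

/-! ### 5. Even starts -/

/-- the mean of `φ` over the windows with `l` letters which start at the even numbers `2 V + 2 s`, `s < V` -/
noncomputable def avE (V l : ℕ) (φ : List Bool → ℝ) (L : List Bool) : ℝ :=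
  (∑ s ∈ range V, φ ((L.drop (2 * V + 2 * s)).take l)) / (V : ℝ)

lemma avE_nonneg {V l : ℕ} {φ : List Bool → ℝ} (hφ : ∀ L, 0 ≤ φ L) (L : List Bool) : 0 ≤ avE V l φ L :=
  div_nonneg (sum_nonneg fun _ _ => hφ _) (by positivity)

lemma sum_even (h : ℕ → ℝ) (V : ℕ) : ∑ s ∈ range (2 * V), h s = ∑ s ∈ range V, h (2 * s) + ∑ s ∈ range V, h (2 * s + 1) := by
  induction V with
  | zero => simp
  | succ V ih =>
    have e : 2 * (V + 1) = 2 * V + 1 + 1 := by ring
    rw [e, sum_range_succ, sum_range_succ, ih, sum_range_succ, sum_range_succ]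
    ring

lemma avw_even {V l : ℕ} (hV : 0 < V) (φ : List Bool → ℝ) (L : List Bool) :
    avw (2 * V) l φ L = (avE V l φ L + avE V l φ L.tail) / 2 := by
  have hV' : (0 : ℝ) < V := by exact_mod_cast hV
  unfold avw avE
  rw [sum_even fun s => φ ((L.drop (2 * V + s)).take l)]
  have e : ∀ s, L.drop (2 * V + (2 * s + 1)) = L.tail.drop (2 * V + 2 * s) := by
    intro s
    rw [← List.drop_one, List.drop_drop]
    congr 1
    ring
  have e2 : ∑ s ∈ range V, φ ((L.drop (2 * V + (2 * s + 1))).take l) = ∑ s ∈ range V, φ ((L.tail.drop (2 * V + 2 * s)).take l) :=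
    sum_congr rfl fun s _ => by rw [e s]
  rw [e2, ← add_div, div_div, Nat.cast_mul, Nat.cast_ofNat, mul_comm (V : ℝ) 2]

/-- the first letter is dropped -/
lemma sum_tail {f : List Bool → ℝ} (hf : ∀ L, 0 ≤ f L) (k : ℕ) :
    ∑ t ∈ sawF (k + 1), f t.tail ≤ 2 * ∑ t ∈ sawF k, f t := by
  have hmap : ∀ t ∈ sawF (k + 1), t.tail ∈ sawF k := by
    intro t ht
    rw [mem_sawF] at ht ⊢
    rcases t with _ | ⟨b, t⟩
    · exact absurd ht.1 (by simp)
    · exact ⟨by simpa using ht.1, drop_SA (A := [b]) ht.2⟩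
  rw [← sum_fiberwise_of_maps_to hmap, mul_sum]
  refine sum_le_sum fun t' _ => ?_
  have e : ∑ t ∈ (sawF (k + 1)).filter (fun t => t.tail = t'), f t.tail =
      (((sawF (k + 1)).filter fun t => t.tail = t').card : ℝ) * f t' := by
    rw [sum_congr rfl fun t ht => by rw [(mem_filter.1 ht).2], sum_const, nsmul_eq_mul]
  rw [e]
  refine mul_le_mul_of_nonneg_right ?_ (hf t')
  have h1 : (sawF (k + 1)).filter (fun t => t.tail = t') ⊆ {true :: t', false :: t'} := by
    intro t ht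
    rw [mem_filter, mem_sawF] at ht
    rcases t with _ | ⟨b, t⟩
    · exact absurd ht.1.1 (by simp)
    · have h2 : t = t' := ht.2
      subst h2
      cases b <;> simp
  have h2 : ((sawF (k + 1)).filter fun t => t.tail = t').card ≤ 2 := (card_le_card h1).trans card_le_two
  exact_mod_cast h2

lemma cS_next : ∃ C : ℝ, 0 < C ∧ ∀ n : ℕ, 1 ≤ n → (cS n : ℝ) ≤ C * cS (n + 1) := by
  obtain ⟨C, hC, hup⟩ := cS_up
  obtain ⟨c, C', hc, hC', h⟩ := TPC.an_const TPC.xUp TPC.xLow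
  have hx := xc_pos
  have hmu : muB = 1 / xc := le_antisymm muB_le le_muB
  refine ⟨C * xc / (c * (2 / 3)), by positivity, fun n hn => ?_⟩
  have hxn : 0 < xc ^ n := by positivity
  have h1 := hup n hn
  have h2 := (h (n + 1) (by omega)).1
  have h3 : (2 : ℝ) * aB (n + 1) = 3 * cS (n + 1) := by exact_mod_cast aB_eq (by omega : 1 ≤ n + 1)
  have h4 : muB ^ (n + 1) * xc ^ (n + 1) = 1 := by
    rw [hmu, ← mul_pow, one_div, inv_mul_cancel₀ hx.ne', one_pow]
  have h5 : (n : ℝ) ^ (11 / 32 : ℝ) ≤ ((n + 1 : ℕ) : ℝ) ^ (11 / 32 : ℝ) :=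
    Real.rpow_le_rpow (Nat.cast_nonneg _) (by push_cast; linarith) (by norm_num)
  have h6 : c * ((n + 1 : ℕ) : ℝ) ^ (11 / 32 : ℝ) ≤ aB (n + 1) * xc ^ (n + 1) := by
    calc c * ((n + 1 : ℕ) : ℝ) ^ (11 / 32 : ℝ) =
          c * (muB ^ (n + 1) * ((n + 1 : ℕ) : ℝ) ^ ((11 : ℝ) / 32)) * xc ^ (n + 1) := by
          rw [show c * (muB ^ (n + 1) * ((n + 1 : ℕ) : ℝ) ^ ((11 : ℝ) / 32)) * xc ^ (n + 1) =
            c * ((n + 1 : ℕ) : ℝ) ^ ((11 : ℝ) / 32) * (muB ^ (n + 1) * xc ^ (n + 1)) by ring, h4, mul_one]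
      _ ≤ _ := mul_le_mul_of_nonneg_right h2 (by positivity)
  have h7 : (cS n : ℝ) * xc ^ n * (c * (2 / 3)) ≤ C * xc * cS (n + 1) * xc ^ n := by
    calc (cS n : ℝ) * xc ^ n * (c * (2 / 3)) ≤ C * (n : ℝ) ^ (11 / 32 : ℝ) * (c * (2 / 3)) :=
          mul_le_mul_of_nonneg_right h1 (by positivity)
      _ ≤ C * ((n + 1 : ℕ) : ℝ) ^ (11 / 32 : ℝ) * (c * (2 / 3)) := by gcongr
      _ = C * (2 / 3) * (c * ((n + 1 : ℕ) : ℝ) ^ (11 / 32 : ℝ)) := by ring
      _ ≤ C * (2 / 3) * (aB (n + 1) * xc ^ (n + 1)) := mul_le_mul_of_nonneg_left h6 (by positivity)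
      _ = C * xc * ((2 * aB (n + 1)) / 3) * xc ^ n := by
          rw [pow_succ]
          ring
      _ = _ := by
          rw [h3]
          ring
  rw [div_mul_eq_mul_div, le_div_iff₀ (by positivity)]
  nlinarith

/-- **absolute continuity, windows with an exact number of letters and an even start**: a bound for the open words with `k` letters,
`(1 - δ) n ≤ k ≤ n`, gives a bound for the closed words with `n + 1` letters -/
theorem acE : ∀ ε δ : ℝ, 0 < ε → 0 < δ → ∃ (C : ℝ) (n0 : ℕ), 0 < C ∧ ∀ n : ℕ, n0 ≤ n → Odd n → ∀ (V l : ℕ)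
    (φ : List Bool → ℝ) (η : ℝ), δ * n ≤ 2 * V → l + 6 * V ≤ n → (∀ L, 0 ≤ φ L) → (∀ L, φ L ≤ 1) → 0 ≤ η →
      (∀ k : ℕ, (1 - δ) * n ≤ k → k ≤ n → ∑ t ∈ sawF k, avE V l φ t ≤ η * (sawF k).card) →
        cM (n + 1) (fun K => φ (K.take l)) ≤ C * η + ε := by
  intro ε δ hε hδ
  obtain ⟨r0, hr0, h⟩ := acW ε δ hε hδ
  obtain ⟨r, hr, hrr, hr2, hrδ⟩ : ∃ r : ℝ, 0 < r ∧ r ≤ r0 ∧ r ≤ 1 / 2 ∧ r ^ (4 / 3 : ℝ) ≤ δ / 2 := by
    refine ⟨min r0 (min (1 / 2) (δ / 2)), by positivity, min_le_left _ _, (min_le_right _ _).trans (min_le_left _ _), ?_⟩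
    obtain ⟨r, hr⟩ : ∃ r : ℝ, r = min r0 (min (1 / 2) (δ / 2)) := ⟨_, rfl⟩
    have h1 : 0 < r := by rw [hr]; positivity
    have h2 : r ≤ 1 := by
      rw [hr]
      exact ((min_le_right _ _).trans (min_le_left _ _)).trans (by norm_num)
    rw [← hr]
    calc r ^ (4 / 3 : ℝ) ≤ r ^ (1 : ℝ) := Real.rpow_le_rpow_of_exponent_ge h1 h2 (by norm_num)
      _ = r := Real.rpow_one r
      _ ≤ δ / 2 := by
          rw [hr]
          exact (min_le_right _ _).trans (min_le_right _ _)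
  obtain ⟨C, n1, hC, h⟩ := h r hr hrr
  obtain ⟨C', hC', hnx⟩ := cS_next
  refine ⟨C * ((1 + 2 * C') / 2), n1 + 2 + ⌈2 / δ⌉₊, by positivity, fun n hn ho V l φ η hV hl h0 h1 hη hk => ?_⟩
  have hnp : (0 : ℝ) < n := by
    have : 0 < n := by omega
    exact_mod_cast this
  have hV0 : 0 < V := by
    have h2 : (0 : ℝ) < 2 * V := lt_of_lt_of_le (by positivity) hV
    have h3 : (0 : ℝ) < V := by linarith
    exact_mod_cast h3
  have hnδ : 1 ≤ δ / 2 * n := by
    have h2 : 2 / δ ≤ n := (Nat.le_ceil _).trans (by exact_mod_cast (by omega : ⌈2 / δ⌉₊ ≤ n))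
    rw [div_le_iff₀ hδ] at h2
    linarith
  have key := h n (by omega) ho (2 * V) l φ (by push_cast; exact hV) (by omega) h0 h1
  have h3 : oM n r (avw (2 * V) l φ) ≤ (1 + 2 * C') / 2 * η := by
    refine oM_le (by positivity) fun k hkw => ?_
    have hk1 := wdw_pos hr hr2 (by omega) k hkw
    have hkn : k ≤ n ∧ (1 - δ / 2) * n ≤ k := by
      unfold wdw at hkw
      rw [mem_filter, mem_range] at hkw
      refine ⟨by omega, ?_⟩
      have h5 := mul_le_mul_of_nonneg_right hrδ hnp.le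
      linarith [hkw.2]
    obtain ⟨k', rfl⟩ : ∃ k', k = k' + 1 := ⟨k - 1, by omega⟩
    have hk'1 : (1 - δ) * n ≤ k' := by
      have h5 := hkn.2
      push_cast at h5
      linarith
    have a1 := hk (k' + 1) (by push_cast; linarith) hkn.1
    have a2 := hk k' hk'1 (by omega)
    have a3 := sum_tail (avE_nonneg (V := V) (l := l) h0) k'
    have a4 : ∑ t ∈ sawF (k' + 1), avw (2 * V) l φ t =
        (∑ t ∈ sawF (k' + 1), avE V l φ t + ∑ t ∈ sawF (k' + 1), avE V l φ t.tail) / 2 := by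
      rw [sum_congr rfl fun t _ => avw_even hV0 φ t, ← sum_div, sum_add_distrib]
    rw [SLW.card_sawF] at a1 a2 ⊢
    have a5 : (cS k' : ℝ) ≤ C' * cS (k' + 1) := by
      rcases Nat.eq_zero_or_pos k' with h6 | h6
      · exfalso
        subst h6
        have h7 := hkn.2
        have h9 : ((l + 6 * V : ℕ) : ℝ) ≤ n := by exact_mod_cast hl
        push_cast at h9 h7
        have h10 : (0 : ℝ) ≤ l := Nat.cast_nonneg l
        have h11 : (2 : ℝ) ≤ n := by exact_mod_cast (by omega : 2 ≤ n)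
        nlinarith
      · exact hnx k' h6
    have a6 := mul_le_mul_of_nonneg_left a5 hη
    rw [a4]
    nlinarith
  have h4 := mul_le_mul_of_nonneg_left h3 hC.le
  linarith

end Pool.Agent.ROT.F3
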