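import Pool.Agent.ROT.F3AC

/-!
# F3, W4: absolute continuity of the closed words, pointwise in the start of the window (helper95)

**`acS`**: a bound for the windows with `l` letters of the open words with `k` letters, `(1 - δ) n ≤ k ≤ n`, that start at `i`,
`W ≤ i < 2 W`, gives a bound for the windows with `l` letters of the closed words with `n + 1` letters; `acS2`: the same with
the condition `δ n ≤ i`, `i + l + δ n ≤ k` on the windows and means `Eu k`.
-/

set_option autoImplicit false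

open Finset

open scoped Classical

namespace Pool.Agent.ROT.F3

open Pool.Agent.PMA Pool.Agent.PMA.Res Pool.Agent.NTS.Res

open HexObs hiding pos

open HexObs.SDN HexObs.TS HexObs.TIW HexObs.POLP NTSF.Mg NTF Pool.Agent.TSW.BP HexObs.MCP

/-! ### 6. Pointwise in the start -/

/-- the window `wdw n r` for small `r` -/
lemma wdw_lo {n : ℕ} {r δ : ℝ} (hrδ : r ^ (4 / 3 : ℝ) ≤ δ) : ∀ k ∈ wdw n r, k ≤ n ∧ (1 - δ) * n ≤ k := by
  intro k hk
  unfold wdw at hk
  rw [mem_filter, mem_range] at hk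
  refine ⟨by omega, ?_⟩
  have h5 := mul_le_mul_of_nonneg_right hrδ (Nat.cast_nonneg n : (0 : ℝ) ≤ n)
  linarith [hk.2]

lemma small_r {r0 δ : ℝ} (hr0 : 0 < r0) (hδ : 0 < δ) : ∃ r : ℝ, 0 < r ∧ r ≤ r0 ∧ r ≤ 1 / 2 ∧ r ^ (4 / 3 : ℝ) ≤ δ := by
  obtain ⟨r, hr⟩ : ∃ r : ℝ, r = min r0 (min (1 / 2) δ) := ⟨_, rfl⟩
  have h1 : 0 < r := by rw [hr]; positivity
  have h2 : r ≤ 1 / 2 := by
    rw [hr]
    exact (min_le_right _ _).trans (min_le_left _ _)
  refine ⟨r, h1, by rw [hr]; exact min_le_left _ _, h2, ?_⟩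
  calc r ^ (4 / 3 : ℝ) ≤ r ^ (1 : ℝ) := Real.rpow_le_rpow_of_exponent_ge h1 (by linarith) (by norm_num)
    _ = r := Real.rpow_one r
    _ ≤ δ := by
        rw [hr]
        exact (min_le_right _ _).trans (min_le_right _ _)

/-- **absolute continuity, pointwise in the start of the window**: a bound `η` for the window with `l` letters in the open words with
`k` letters, `(1 - δ) n ≤ k ≤ n`, starting at `i`, `W ≤ i < 2 W`, gives the bound `C η + ε` for the closed words with `n + 1` letters -/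
theorem acS : ∀ ε δ : ℝ, 0 < ε → 0 < δ → ∃ (C : ℝ) (n0 : ℕ), 0 < C ∧ ∀ n : ℕ, n0 ≤ n → Odd n → ∀ (W l : ℕ)
    (φ : List Bool → ℝ) (η : ℝ), δ * n ≤ W → l + 3 * W ≤ n → (∀ L, 0 ≤ φ L) → (∀ L, φ L ≤ 1) → 0 ≤ η →
      (∀ k i : ℕ, (1 - δ) * n ≤ k → k ≤ n → W ≤ i → i < 2 * W → ∑ t ∈ sawF k, φ ((t.drop i).take l) ≤ η * cS k) →
        cM (n + 1) (fun K => φ (K.take l)) ≤ C * η + ε := by
  intro ε δ hε hδ
  obtain ⟨r0, hr0, h⟩ := acW ε δ hε hδ
  obtain ⟨r, hr, hrr, hr2, hrδ⟩ := small_r hr0 hδ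
  obtain ⟨C, n1, hC, h⟩ := h r hr hrr
  refine ⟨C, n1 + 1, hC, fun n hn ho W l φ η hW hl h0 h1 hη hk => ?_⟩
  have hnp : (0 : ℝ) < n := by
    have : 0 < n := by omega
    exact_mod_cast this
  have hW' : (0 : ℝ) < W := lt_of_lt_of_le (by positivity) hW
  have key := h n (by omega) ho W l φ hW hl h0 h1
  have h3 : oM n r (avw W l φ) ≤ η := by
    refine oM_le hη fun k hkw => ?_
    obtain ⟨k1, k2⟩ := wdw_lo hrδ k hkw
    unfold avw
    rw [← sum_div, sum_comm, div_le_iff₀ hW', SLW.card_sawF]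
    calc ∑ s ∈ range W, ∑ t ∈ sawF k, φ ((t.drop (W + s)).take l) ≤ ∑ _s ∈ range W, η * cS k :=
          sum_le_sum fun s hs => by
            rw [mem_range] at hs
            exact hk k (W + s) k2 k1 (by omega) (by omega)
      _ = η * cS k * W := by
          rw [sum_const, card_range, nsmul_eq_mul]
          ring
  have h4 := mul_le_mul_of_nonneg_left h3 hC.le
  linarith

/-- **closed words from open words**, the form for windows away from the ends of the open words -/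
theorem acS2 : ∀ ε δ : ℝ, 0 < ε → 0 < δ → ∃ (C : ℝ) (n0 : ℕ), 0 < C ∧ ∀ n : ℕ, n0 ≤ n → Odd n → ∀ (l : ℕ)
    (φ : List Bool → ℝ) (η : ℝ), (l : ℝ) + 4 * δ * n ≤ n → (∀ L, 0 ≤ φ L) → (∀ L, φ L ≤ 1) → 0 ≤ η →
      (∀ k i : ℕ, (1 - δ) * n ≤ k → k ≤ n → δ * n ≤ i → (i : ℝ) + l + δ * n ≤ k → Even i →
        HexObs.MCP.Eu k (fun t => φ ((t.drop i).take l)) ≤ η) →
        ∀ j : ℕ, j + l ≤ n + 1 → cM (n + 1) (fun K => φ ((K.drop j).take l)) ≤ C * η + ε := by
  intro ε δ hε hδ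
  obtain ⟨δ', hδ'⟩ : ∃ δ' : ℝ, δ' = δ / 2 := ⟨_, rfl⟩
  have hδ'0 : 0 < δ' := by rw [hδ']; positivity
  obtain ⟨C, n1, hC, h⟩ := acE ε δ' hε hδ'0
  refine ⟨C, n1 + 2 + ⌈16 / δ⌉₊, hC, fun n hn ho l φ η hl h0 h1 hη hk j hj => ?_⟩
  have hnp : (0 : ℝ) < n := by
    have : 0 < n := by omega
    exact_mod_cast this
  have hnδ : 16 ≤ δ * n := by
    have h2 : 16 / δ ≤ n := (Nat.le_ceil _).trans (by exact_mod_cast (by omega : ⌈16 / δ⌉₊ ≤ n))
    rw [div_le_iff₀ hδ] at h2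
    linarith
  obtain ⟨V, hV⟩ : ∃ V : ℕ, V = ⌈δ * n / 2⌉₊ := ⟨_, rfl⟩
  have hV1 : δ * n / 2 ≤ V := hV ▸ Nat.le_ceil _
  have hV2 : (V : ℝ) < δ * n / 2 + 1 := hV ▸ Nat.ceil_lt_add_one (by positivity)
  have hV0 : 0 < V := by
    have : (0 : ℝ) < V := by linarith
    exact_mod_cast this
  have hV' : (0 : ℝ) < V := by exact_mod_cast hV0
  have hlV : l + 6 * V ≤ n := by
    have h2 : ((l + 6 * V : ℕ) : ℝ) ≤ n := by
      push_cast
      linarith
    exact_mod_cast h2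
  rw [cM_win hj]
  refine h n (by omega) ho V l φ η (by rw [hδ']; linarith) hlV h0 h1 hη fun k k1 k2 => ?_
  rw [hδ'] at k1
  have k3 : 1 ≤ k := by
    have h2 : (0 : ℝ) < k := by
      have h3 : 4 * (δ * n) ≤ n := by linarith [(Nat.cast_nonneg l : (0 : ℝ) ≤ l)]
      nlinarith
    exact_mod_cast h2
  have hck : (0 : ℝ) < cS k := HexObs.TIP.cS_pos' k3
  unfold avE
  rw [← sum_div, sum_comm, div_le_iff₀ hV', SLW.card_sawF]
  calc ∑ s ∈ range V, ∑ t ∈ sawF k, φ ((t.drop (2 * V + 2 * s)).take l) ≤ ∑ _s ∈ range V, η * cS k :=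
        sum_le_sum fun s hs => by
          rw [mem_range] at hs
          have hs' : ((s : ℕ) : ℝ) + 1 ≤ V := by exact_mod_cast hs
          have h2 := hk k (2 * V + 2 * s) (by linarith) k2 (by push_cast; linarith [(Nat.cast_nonneg s : (0 : ℝ) ≤ s)])
            (by
              have h3 : (l : ℝ) + 6 * V ≤ n := by exact_mod_cast hlV
              push_cast
              linarith) ⟨V + s, by ring⟩
          unfold HexObs.MCP.Eu at h2
          rw [div_le_iff₀ hck] at h2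
          exact h2
    _ = η * cS k * V := by
        rw [sum_const, card_range, nsmul_eq_mul]
        ring

end Pool.Agent.ROT.F3
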