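import Pool.Agent.ROT.F3K2F

/-!
# ROT, F3 (helper3, for helper36, helper59, helper86, helper2): the input of ONE strand

* **`AI1`** : helper4's `AIn` for one arm; `ain_iff`; **`ai1_sg`** : the gates `sgE`, `sgc`, `sgx` of one strand from `T3L`.
-/

set_option autoImplicit false
set_option linter.unusedSectionVars false

open Filter MeasureTheory Topology Set unitInterval

open scoped NNReal ENNReal BoundedContinuousFunction

namespace Pool.Agent.ROT.F3.CK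

open Pool.Agent.ROT.F3 Pool.Agent.ROT.F3.LF

/-- **the input of one strand**: the gates exist (event `A`), their times in units of the strand -/
structure AI1 (U : Filter ℕ) (b : ℝ) (PG : Measure CC.Gm) (k : Arm) (A : ℕ → W3 × ℕ → Prop) (c g : ℕ → W3 × ℕ → ℕ)
    (B : Set CC.Gm) (Pc Pg : CC.Gm → ℝ) : Prop where
  ev : Ev U (fun N => mwE N b) cN PG A B
  tc : Lm U (fun N => mwE N b) cN PG (fun N x => bi (A N x) * ((c N x : ℝ) / (arcw x.2 k x.1).length)) Pc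
  tg : Lm U (fun N => mwE N b) cN PG (fun N x => bi (A N x) * ((g N x : ℝ) / (arcw x.2 k x.1).length)) Pg
  pos : ∀ᶠ N in U, ∀ x, Spt x → A N x → Even (c N x) ∧ Even (g N x) ∧ c N x ≤ g N x ∧ g N x ≤ (arcw x.2 k x.1).length

section

variable {U : Filter ℕ} {b : ℝ} {PG : Measure CC.Gm} {A : Arm → ℕ → W3 × ℕ → Prop} {c g : Arm → ℕ → W3 × ℕ → ℕ}
  {B : Arm → Set CC.Gm} {Pc Pg : Arm → CC.Gm → ℝ}

theorem ain_iff : AIn U b PG A c g B Pc Pg ↔ ∀ k, AI1 U b PG k (A k) (c k) (g k) (B k) (Pc k) (Pg k) := by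
  constructor
  · intro h k
    refine ⟨h.ev k, h.tc k, h.tg k, ?_⟩
    filter_upwards [h.pos] with N hN x hx hA using hN x hx k hA
  · intro h
    refine ⟨fun k => (h k).ev, fun k => (h k).tc, fun k => (h k).tg, ?_⟩
    filter_upwards [(h .fp).pos, (h .bq).pos, (h .fq).pos, (h .bp).pos] with N h1 h2 h3 h4 x hx k hA
    cases k
    exacts [h1 x hx hA, h2 x hx hA, h3 x hx hA, h4 x hx hA]

end

/-- **the gates of one strand** -/
theorem ai1_sg {U : Ultrafilter ℕ} {b : ℝ} {PG : Measure CC.Gm} (hC : Cv (U : Filter ℕ) (fun N => mwE N b) cN PG)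
    {S : ℕ → ℝ} (hS0 : ∀ N, 0 < S N) (hS : ∀ᶠ N : ℕ in U, S N = N) {k : Arm} {G : GP} {T : LSym} {y : ℕ → W3 × ℕ → ℝ} {c0 : ℝ}
    {B : Set CC.Gm} {Pc Pg : CC.Gm → ℝ} (hm : 0 < G.m)
    (h : T3L (U : Filter ℕ) (fun N => mwE N b) cN PG (fun _ x => (aW k T x).length) (fun _ x => (aW k T x).get) S
      y (zN c0) G.l G.r1 G.ρ1 G.m G.r1' G.ρ' G.h G.r1'' G.ρ'' B Pc Pg) :
    AI1 (U : Filter ℕ) b PG k (fun N x => c0 < dst N x ∧ sgE G T (y N x) N k x)
      (fun N x => sgc G T (y N x) N k x) (fun N x => sgx G T (y N x) N k x) B Pc Pg := by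
  have eA : ∀ᶠ N in (U : Filter ℕ), ∀ x, Spt x → (c0 < dst N x ∧ sgE G T (y N x) N k x ↔
      zN c0 N x = 1 ∧ ∃ c x' z : ℕ, T3 (aW k T x).get (S N) (y N x) G.l G.r1 G.ρ1 G.m G.r1' G.ρ'
        G.h G.r1'' G.ρ'' c x' z) := by
    filter_upwards [hS] with N hN x _
    rw [zN_iff, hN, sgE_t3]
  have eT := h.tm (fun N x => sgc G T (y N x) (S N) k x) (fun N x => sgx G T (y N x) (S N) k x)
    fun N x _ hex => by
      obtain ⟨z, hz⟩ := sg_spec (sgE_t3.2 hex)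
      exact ⟨z, sgt_t3.1 hz⟩
  refine ⟨ev_spt hC h.ev eA, ?_, ?_, ?_⟩
  · refine lm_spt hC eT.1 ⟨1, fun N x => tm_le1 fun hA => (sg_lt hA.2).1⟩ ?_
    filter_upwards [hS, eA] with N hN hA x hx
    rw [LF.bi_congr (hA x hx)]
    congr 1
    rw [hN, aW_len]
  · refine lm_spt hC eT.2 ⟨1, fun N x => tm_le1 fun hA => (sg_lt hA.2).2⟩ ?_
    filter_upwards [hS, eA] with N hN hA x hx
    rw [LF.bi_congr (hA x hx)]
    congr 1
    rw [hN, aW_len]
  · filter_upwards [hS] with N hN x _ hA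
    have hN0 : (0 : ℝ) < N := by
      rw [← hN]
      exact hS0 N
    exact ⟨(sg_even hA.2).1, (sg_even hA.2).2, sg_le hm hN0 hA.2, (sg_lt hA.2).2.le⟩

end Pool.Agent.ROT.F3.CK
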