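import Pool.Agent.MC.Slow
import Pool.Agent.RMP.PubDefs

/-!
# ROT / F3AcT (helper83), literal: the beginning of a walk, from long walks to walks with a short tip

`TipIn R k' A`: all vertices of the word `A` from the number `k'` on are near the vertex number `k'`. **`AcT`**: the first `k'`
letters of a word with about `n` letters have at most `C` times the law of the first `k'` letters of a word with `m` letters,
`m` in `[k, (1 + d) k]`, `k` a bit greater than `k'`, and **a short tip**, up to `ε` (`κ` is given before `C` and `d`).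
-/

set_option autoImplicit false

namespace Pool.Agent.ROT.F3

open Finset

open HexObs hiding pos

open HexObs.SDN HexObs.TS HexObs.TIW HexObs.MCP

open Pool.Agent.RMP (win)

open NTF (JJ)

open scoped Classical

/-- all vertices from the number `k'` on are near the vertex number `k'` -/
def TipIn (R : ℝ) (k' : ℕ) (A : List Bool) : Prop :=
  ∀ j : ℕ, k' ≤ j → j ≤ A.length → ‖JJ (vx oo up A j) - JJ (vx oo up A k')‖ ≤ R

/-- the mean of `g` (first `k'` letters) over the words with `m ∈ [k, (1 + d) k]` letters and a short tip -/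
noncomputable def tipM (R d : ℝ) (k k' : ℕ) (g : List Bool → ℝ) : ℝ :=
  (∑ m ∈ win d k, xc ^ m * ∑ A ∈ sawF m, if TipIn R k' A then g (A.take k') else 0) / ∑ m ∈ win d k, xc ^ m * cS m

/-- **from long walks to walks with a short tip** -/
def AcT : Prop := ∀ ε κ t d1 : ℝ, 0 < ε → 0 < κ → 0 < t → 0 < d1 → ∃ (d ρ C : ℝ) (n0 : ℕ), 0 < d ∧ d ≤ d1 ∧ 0 < ρ ∧ ρ ≤ d ∧
  0 < C ∧ ∀ n k : ℕ, n0 ≤ n → t * n ≤ k → (k : ℝ) ≤ (1 - t) * n → ∃ u : ℕ → ℝ, (∀ i, 0 ≤ u i) ∧
    (∀ i, u i ≠ 0 → (1 - d) * n ≤ i ∧ (i : ℝ) ≤ (1 + 2 * d) * n) ∧ ∑ i ∈ range (4 * n), u i = 1 ∧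
    ∀ k' : ℕ, k' + ρ * n ≤ k → (k : ℝ) ≤ k' + 2 * (ρ * n) + 2 → ∀ g : List Bool → ℝ, (∀ t, 0 ≤ g t) → (∀ t, g t ≤ 1) →
      ∑ i ∈ range (4 * n), u i * Eu i (fun t => g (t.take k')) ≤ C * tipM (κ * (n : ℝ) ^ (3 / 4 : ℝ)) d k k' g + ε

end Pool.Agent.ROT.F3
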