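import Pool.Agent.RMP.All
import Pool.Agent.ROT.F3AcTLit

/-!
# ROT / F3AcT (helper83): the beginning of a long walk and the walks with a short tip

* `tip_small`: the pairs of the renormalisation map with a long tip are few (public form of the map, tightness);
* `Core1`: the first word of a pair against a free word; **`acT_of : Core1 → AcT`**.
-/

set_option autoImplicit false

namespace Pool.Agent.RMP

open Finset MeasureTheory Filter Topology

open HexObs hiding pos curve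

open HexObs.TOG HexObs.OneS HexObs.SDN HexObs.TS HexObs.TIW HexObs.MCP HexObs.RMP

open Pool.Agent.NTS.Res

open Pool.Agent.IW.Res (mean)

open Pool.Agent.TSW.BP (cr cr_norm)

open NTSF NTSF.Mg

open NTF (sw JJ)

open Pool.Agent.ROT.F3 (TipIn tipM AcT)

open scoped Classical ENNReal NNReal

/-! ### 1. The oscillation in an interval of times -/

/-- the curves with a small oscillation in the times `[a, b]` -/
def OscI (a b c : ℝ) : Set C(unitInterval, ℂ) :=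
  {γ | ∀ s t : unitInterval, a ≤ s → (s : ℝ) ≤ b → a ≤ t → (t : ℝ) ≤ b → ‖γ s - γ t‖ ≤ c}

lemma OscI_zero {a b c : ℝ} (hc : 0 ≤ c) : (0 : C(unitInterval, ℂ)) ∈ OscI a b c := by
  intro s t _ _ _ _
  show ‖(0 : ℂ) - 0‖ ≤ c
  rw [sub_zero, norm_zero]
  exact hc

/-- the cut-off of the oscillation -/
noncomputable def fO (a b c : ℝ) (γ : C(unitInterval, ℂ)) : ℝ := min (c / 2) (Metric.infDist γ (OscI a b c))

lemma fO_lip (a b c : ℝ) : LipschitzWith 1 (fO a b c) := (Metric.lipschitz_infDist_pt (OscI a b c)).const_min (c / 2)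

lemma fO_nonneg {a b c : ℝ} (hc : 0 ≤ c) (γ : C(unitInterval, ℂ)) : 0 ≤ fO a b c γ :=
  le_min (by linarith) Metric.infDist_nonneg

lemma fO_le (a b c : ℝ) (γ : C(unitInterval, ℂ)) : fO a b c γ ≤ c / 2 := min_le_left _ _

lemma fO_mem {a b c : ℝ} (hc : 0 ≤ c) {γ : C(unitInterval, ℂ)} (h : γ ∈ OscI a b c) : fO a b c γ = 0 := by
  unfold fO
  rw [Metric.infDist_zero_of_mem h]
  exact min_eq_right (by linarith)

lemma fO_big {a b c : ℝ} (hc : 0 ≤ c) {γ : C(unitInterval, ℂ)} {s t : unitInterval} (h1 : a ≤ s) (h2 : (s : ℝ) ≤ b)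
    (h3 : a ≤ t) (h4 : (t : ℝ) ≤ b) (h : 2 * c < ‖γ s - γ t‖) : fO a b c γ = c / 2 := by
  unfold fO
  refine min_eq_left ((Metric.le_infDist ⟨0, OscI_zero hc⟩).2 fun γ' hγ' => ?_)
  have h5 := hγ' s t h1 h2 h3 h4
  have h6 : ‖γ s - γ' s‖ ≤ dist γ γ' := by
    rw [← dist_eq_norm]
    exact ContinuousMap.dist_apply_le_dist s
  have h7 : ‖γ t - γ' t‖ ≤ dist γ γ' := by
    rw [← dist_eq_norm]
    exact ContinuousMap.dist_apply_le_dist t
  have h8 : ‖γ s - γ t‖ ≤ ‖γ s - γ' s‖ + ‖γ' s - γ' t‖ + ‖γ t - γ' t‖ := by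
    have e : γ s - γ t = (γ s - γ' s) + (γ' s - γ' t) - (γ t - γ' t) := by ring
    rw [e]
    refine (norm_sub_le _ _).trans ?_
    linarith [norm_add_le (γ s - γ' s) (γ' s - γ' t)]
  linarith

/-- the mean of the cut-off under the law of the walks is small for short intervals -/
lemma fO_law {ε c : ℝ} (hε : 0 < ε) (hc : 0 < c) : ∃ δ : ℝ, 0 < δ ∧ ∀ n : ℕ, 1 ≤ n → ∀ a b : ℝ, b ≤ a + δ →
    ∫ γ, fO a b c γ ∂(law n) ≤ c / 2 * ε := by
  obtain ⟨α, hα⟩ : ∃ α : NNReal, α = 1 / 2 := ⟨_, rfl⟩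
  have hα2 : (α : ℝ) = 1 / 2 := by
    rw [hα]
    norm_num
  obtain ⟨M, hM⟩ := (NTSF.conclE_false NTSF.finE).2.2.1 α (by rw [hα]; norm_num) (by rw [hα2]; norm_num) ε hε
  have hM0 : (0 : ℝ) ≤ M := M.2
  refine ⟨(c / (M + 1)) ^ 2, by positivity, fun n hn a b hab => ?_⟩
  obtain ⟨E, hE⟩ : ∃ E : Set C(unitInterval, ℂ), E = {γ : C(unitInterval, ℂ) | ¬ HolderWith M α γ} := ⟨_, rfl⟩
  have h2 : mean n (fun s => if curve s ∈ E then 1 else 0) ≤ ε := mean_law E hε.le (by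
    rw [hE]
    exact hM n hn)
  rw [show ∫ γ, fO a b c γ ∂(law n) = mean n (fun s => fO a b c (curve s)) from integral_law _]
  refine le_trans ?_ (mul_le_mul_of_nonneg_left h2 (by linarith : (0 : ℝ) ≤ c / 2))
  rw [Pool.Agent.TSW.mean_eq, Pool.Agent.TSW.mean_eq, ← mul_div_assoc, mul_sum]
  refine div_le_div_of_nonneg_right (sum_le_sum fun s _ => ?_) (Nat.cast_nonneg _)
  by_cases h : curve s ∈ E
  · rw [if_pos h, mul_one]
    exact fO_le _ _ _ _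
  · rw [if_neg h, mul_zero]
    rw [hE] at h
    have hH : HolderWith M α (curve s) := not_not.1 h
    refine (fO_mem hc.le fun x y hx1 hx2 hy1 hy2 => ?_).le
    have h1 := hH.dist_le x y
    rw [dist_eq_norm] at h1
    refine h1.trans ?_
    have h3 : dist x y ≤ (c / (M + 1)) ^ 2 := by
      rw [Subtype.dist_eq, Real.dist_eq, abs_le]
      constructor <;> linarith
    have h4 : dist x y ^ (α : ℝ) ≤ c / (M + 1) := by
      rw [hα2, ← Real.sqrt_eq_rpow]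
      refine (Real.sqrt_le_sqrt h3).trans ?_
      rw [Real.sqrt_sq (by positivity)]
    calc (M : ℝ) * dist x y ^ (α : ℝ) ≤ M * (c / (M + 1)) := mul_le_mul_of_nonneg_left h4 hM0
      _ = c * (M / (M + 1)) := by ring
      _ ≤ c * 1 := mul_le_mul_of_nonneg_left (by
          rw [div_le_one (by linarith)]
          linarith) hc.le
      _ = c := mul_one _

/-! ### 2. The tip of a pair -/

lemma poly_at {z : ℕ → ℂ} {N : ℕ} (hN : 1 ≤ N) {j : ℕ} (hj : j ≤ N) (h : ((j : ℝ) / N) ∈ Set.Icc (0 : ℝ) 1) :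
    Tight.poly z N ⟨(j : ℝ) / N, h⟩ = z j := by
  have hn0 : (0 : ℝ) < N := by exact_mod_cast hN
  rcases Nat.lt_or_ge j N with h2 | h2
  · rw [Tight.poly_apply (i := j) h2]
    · show z j + ((((j : ℝ) / N) * N - j : ℝ) : ℂ) * _ = _
      have : ((j : ℝ) / N) * N - j = 0 := by
        rw [div_mul_cancel₀ _ hn0.ne', sub_self]
      rw [this]
      simp
    · show (j : ℝ) ≤ (j : ℝ) / N * N
      rw [div_mul_cancel₀ _ hn0.ne']
    · show (j : ℝ) / N * N ≤ (j : ℝ) + 1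
      rw [div_mul_cancel₀ _ hn0.ne']
      linarith
  · have hkn : j = N := le_antisymm hj h2
    have e : (⟨(j : ℝ) / N, h⟩ : unitInterval) = 1 := by
      apply Subtype.ext
      show (j : ℝ) / N = 1
      rw [hkn, div_self hn0.ne']
    rw [e, Tight.poly_one, hkn]

/-- a pair with a long tip has a big oscillation near the time of the gap -/
lemma tip_osc {C0 κ c d : ℝ} (hc : 0 < c) (hcκ : 2 * c * C0 ≤ κ) (hd : 0 < d) {n k k' : ℕ} (hn : 1 ≤ n)
    (hsz : size n ≤ C0 * (n : ℝ) ^ (3 / 4 : ℝ)) (hdn : 3 ≤ d * n) (hkn : k ≤ n) (hk1 : (k : ℝ) ≤ k' + 2 * d * n + 2)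
    {S : Set Pt} {T : PT} (hT : T ∈ PR n k d S) (h : ¬ TipIn (κ * (n : ℝ) ^ (3 / 4 : ℝ)) k' T.1) (r : Fin 3) :
    fO ((k : ℝ) / n - 4 * d) ((k : ℝ) / n + 4 * d) c (W.wcv n r T) = c / 2 := by
  obtain ⟨-, -, -, -, -, p1, p2, p3, p4⟩ := hT
  have hn0 : (0 : ℝ) < n := by exact_mod_cast hn
  have hs := size_pos hn
  obtain ⟨N, hN⟩ : ∃ N, N = T.1.length + T.2.2.length + 1 := ⟨_, rfl⟩
  have hN1 : n + 1 ≤ N := by omega
  have hN2 : (N : ℝ) ≤ (1 + d) * n + 1 := by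
    rw [hN]
    push_cast
    linarith
  have hNp : (0 : ℝ) < N := by
    have : 0 < N := by omega
    exact_mod_cast this
  have hNn : (n : ℝ) ≤ N := by
    have : n ≤ N := by omega
    exact_mod_cast this
  unfold TipIn at h
  push Not at h
  obtain ⟨j, hj1, hj2, hj3⟩ := h
  have hx0 : 0 ≤ (k : ℝ) / n := by positivity
  have hx1 : (k : ℝ) / n ≤ 1 := by
    rw [div_le_one hn0]
    exact_mod_cast hkn
  have hxn : (k : ℝ) / n * n = k := div_mul_cancel₀ _ hn0.ne'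
  have tm : ∀ i : ℕ, k' ≤ i → i ≤ T.1.length → (k : ℝ) / n - 4 * d ≤ (i : ℝ) / N ∧ (i : ℝ) / N ≤ (k : ℝ) / n + 4 * d := by
    intro i hi1 hi2
    have i1 : (k' : ℝ) ≤ i := by exact_mod_cast hi1
    have i2 : (i : ℝ) ≤ T.1.length := by exact_mod_cast hi2
    obtain ⟨x, hx⟩ : ∃ x : ℝ, x = (k : ℝ) / n := ⟨_, rfl⟩
    rw [← hx] at hx0 hx1 hxn ⊢
    constructor
    · rw [le_div_iff₀ hNp]
      rcases le_or_gt (x - 4 * d) 0 with h5 | h5
      · have : (x - 4 * d) * N ≤ 0 := mul_nonpos_of_nonpos_of_nonneg h5 hNp.le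
        linarith [Nat.cast_nonneg (α := ℝ) i]
      · have h6 : (x - 4 * d) * N ≤ (x - 4 * d) * ((1 + d) * n + 1) := mul_le_mul_of_nonneg_left hN2 h5.le
        have h7 : (x - 4 * d) * ((1 + d) * n + 1) = x * n - 4 * (d * n) + (x - 4 * d) * (d * n + 1) := by ring
        have h8 : (x - 4 * d) * (d * n + 1) ≤ 1 * (d * n + 1) :=
          mul_le_mul_of_nonneg_right (by linarith) (by positivity)
        linarith
    · rw [div_le_iff₀ hNp]
      have h6 : (x + 4 * d) * n ≤ (x + 4 * d) * N := mul_le_mul_of_nonneg_left hNn (by positivity)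
      have h7 : (x + 4 * d) * n = x * n + 4 * (d * n) := by ring
      have h8 : d * k ≤ d * n := mul_le_mul_of_nonneg_left (by exact_mod_cast hkn) hd.le
      nlinarith
  have hI : ∀ i : ℕ, i ≤ T.1.length → ((i : ℝ) / N) ∈ Set.Icc (0 : ℝ) 1 := fun i hi =>
    ⟨by positivity, by
      rw [div_le_one hNp]
      have : i ≤ N := by omega
      exact_mod_cast this⟩
  have val : ∀ i : ℕ, ∀ hi : i ≤ T.1.length, W.wcv n r T ⟨(i : ℝ) / N, hI i hi⟩ =
      ((size n)⁻¹ : ℝ) • (cr r * JJ (vx oo up T.1 i)) := by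
    intro i hi
    rw [wcv_gTw]
    show ((size n)⁻¹ : ℝ) • Tight.poly (yT (cr r) T) (T.1.length + T.2.2.length + 1) ⟨(i : ℝ) / N, hI i hi⟩ = _
    have e : Tight.poly (yT (cr r) T) N ⟨(i : ℝ) / N, hI i hi⟩ = yT (cr r) T i := poly_at (by omega) (by omega) _
    rw [← hN, e]
    unfold yT
    rw [if_pos hi]
    rfl
  have hk'T : k' ≤ T.1.length := hj1.trans hj2
  refine fO_big hc.le (s := ⟨(j : ℝ) / N, hI j hj2⟩) (t := ⟨(k' : ℝ) / N, hI k' hk'T⟩) (tm j hj1 hj2).1 (tm j hj1 hj2).2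
    (tm k' le_rfl hk'T).1 (tm k' le_rfl hk'T).2 ?_
  rw [val j hj2, val k' hk'T, ← smul_sub, ← mul_sub, norm_smul, norm_mul, cr_norm, one_mul, Real.norm_eq_abs,
    abs_of_nonneg (inv_nonneg.2 hs.le), inv_mul_eq_div, lt_div_iff₀ hs]
  calc 2 * c * size n ≤ 2 * c * (C0 * (n : ℝ) ^ (3 / 4 : ℝ)) := mul_le_mul_of_nonneg_left hsz (by positivity)
    _ = 2 * c * C0 * (n : ℝ) ^ (3 / 4 : ℝ) := by ring
    _ ≤ κ * (n : ℝ) ^ (3 / 4 : ℝ) := mul_le_mul_of_nonneg_right hcκ (by positivity)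
    _ < _ := hj3

/-- **the pairs with a long tip are few** -/
theorem tip_small {ε κ t : ℝ} (hε : 0 < ε) (hκ : 0 < κ) (ht : 0 < t) : ∃ d0 : ℝ, 0 < d0 ∧ ∀ d : ℝ, 0 < d → d ≤ d0 →
    ∃ r0 : ℝ, 0 < r0 ∧ ∀ r : ℝ, 0 < r → r ≤ r0 → ∃ n0 : ℕ, ∀ n k k' : ℕ, n0 ≤ n → t * n ≤ k → (k : ℝ) ≤ (1 - t) * n →
      (k : ℝ) ≤ k' + 2 * d * n + 2 →
      gpF (fun T => if TipIn (κ * (n : ℝ) ^ (3 / 4 : ℝ)) k' T.1 then 0 else 1)
        (PR n k d (W.SR (r * (n : ℝ) ^ (3 / 4 : ℝ)))) ≤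
        ENNReal.ofReal ε * gp (PR n k d (W.SR (r * (n : ℝ) ^ (3 / 4 : ℝ)))) := by
  obtain ⟨c0, C1, hc0, hsz⟩ := (NTSF.conclE_false NTSF.finE).1
  obtain ⟨C0, hC0d⟩ : ∃ C0 : ℝ, C0 = max C1 1 := ⟨_, rfl⟩
  have hC0 : 0 < C0 := by
    rw [hC0d]
    exact lt_max_of_lt_right one_pos
  obtain ⟨c, hc⟩ : ∃ c : ℝ, c = min (κ / (2 * C0)) 1 := ⟨_, rfl⟩
  have hcp : 0 < c := by
    rw [hc]
    exact lt_min (by positivity) one_pos
  have hc1 : c ≤ 1 := by
    rw [hc]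
    exact min_le_right _ _
  have hcκ : 2 * c * C0 ≤ κ := by
    have h1 : c ≤ κ / (2 * C0) := by
      rw [hc]
      exact min_le_left _ _
    rw [le_div_iff₀ (by positivity)] at h1
    linarith
  obtain ⟨e, he⟩ : ∃ e : ℝ, e = ε / 6 := ⟨_, rfl⟩
  have hep : 0 < e := by
    rw [he]
    positivity
  obtain ⟨δ, hδ, hlaw⟩ := fO_law hep hcp
  obtain ⟨ε0, hε0⟩ : ∃ ε0 : ℝ, ε0 = min (c / 2 * e) t := ⟨_, rfl⟩
  have hε0p : 0 < ε0 := by
    rw [hε0]
    exact lt_min (by positivity) ht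
  have hε01 : ε0 ≤ c / 2 * e := by
    rw [hε0]
    exact min_le_left _ _
  have hε02 : ε0 ≤ t := by
    rw [hε0]
    exact min_le_right _ _
  obtain ⟨d1, hd1, hP⟩ := HexObs.RMP.All.rmPub ε0 hε0p
  obtain ⟨d2, hd2, k0, hG⟩ := W.psum_gpF (ε := 1 / 2) (by norm_num)
  refine ⟨min (min d1 d2) (δ / 8), lt_min (lt_min hd1 hd2) (by positivity), fun d hd hdd => ?_⟩
  have hdd1 : d ≤ d1 := hdd.trans ((min_le_left _ _).trans (min_le_left _ _))
  have hdd2 : d ≤ d2 := hdd.trans ((min_le_left _ _).trans (min_le_right _ _))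
  have hddδ : d ≤ δ / 8 := hdd.trans (min_le_right _ _)
  obtain ⟨r0, hr0, hP2⟩ := hP d hd hdd1
  refine ⟨r0, hr0, fun r hr hrr => ?_⟩
  obtain ⟨n1, hP3⟩ := hP2 r hr hrr
  obtain ⟨n2, hn2⟩ := exists_nat_ge (3 / d)
  obtain ⟨n3, hn3⟩ := exists_nat_ge (k0 / t)
  refine ⟨max (max n1 n2) (max n3 1), fun n k k' hnn hk1 hk2 hk3 => ?_⟩
  have g1 : n1 ≤ n := ((le_max_left _ _).trans (le_max_left _ _)).trans hnn
  have g2 : n2 ≤ n := ((le_max_right _ _).trans (le_max_left _ _)).trans hnn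
  have g3 : n3 ≤ n := ((le_max_left _ _).trans (le_max_right _ _)).trans hnn
  have g4 : 1 ≤ n := ((le_max_right _ _).trans (le_max_right _ _)).trans hnn
  have hn0 : (0 : ℝ) < n := by exact_mod_cast g4
  have hdn : 3 ≤ d * n := by
    have : (3 / d : ℝ) ≤ n := hn2.trans (by exact_mod_cast g2)
    rw [div_le_iff₀ hd] at this
    linarith
  have htn : (k0 : ℝ) ≤ t * n := by
    have : (k0 / t : ℝ) ≤ n := hn3.trans (by exact_mod_cast g3)
    rw [div_le_iff₀ ht] at this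
    linarith
  have hk0 : k0 ≤ k := by
    have : (k0 : ℝ) ≤ k := htn.trans hk1
    exact_mod_cast this
  have hk0' : k + k0 ≤ n := by
    have : ((k + k0 : ℕ) : ℝ) ≤ n := by
      push_cast
      linarith
    exact_mod_cast this
  have hkn : k ≤ n := by omega
  have hεn : ε0 * n ≤ t * n := mul_le_mul_of_nonneg_right hε02 hn0.le
  obtain ⟨hpos, hf⟩ := hP3 n k g1 (hεn.trans hk1) (by linarith)
  obtain ⟨R, hR⟩ : ∃ R : ℝ, R = r * (n : ℝ) ^ (3 / 4 : ℝ) := ⟨_, rfl⟩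
  rw [← hR] at hpos hf ⊢
  obtain ⟨f, hfd⟩ : ∃ f, f = fO ((k : ℝ) / n - 4 * d) ((k : ℝ) / n + 4 * d) c := ⟨_, rfl⟩
  have hf0 : ∀ γ, 0 ≤ f γ := fun γ => by
    rw [hfd]
    exact fO_nonneg hcp.le γ
  have hf1 : ∀ γ, f γ ≤ c / 2 := fun γ => by
    rw [hfd]
    exact fO_le _ _ _ γ
  have hf1' : ∀ γ, f γ ≤ 1 := fun γ => (hf1 γ).trans (by linarith)
  have hL : LipschitzWith 1 f := by
    rw [hfd]
    exact fO_lip _ _ _
  have hI : ∫ γ, f γ ∂(law n) ≤ c / 2 * e := by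
    rw [hfd]
    exact hlaw n g4 _ _ (by linarith)
  have h1 := (abs_le.1 (hf f (fun γ => ⟨hf0 γ, hf1' γ⟩) hL)).2
  have h2 : psum n k d R f ≤ c * e * psum n k d R fun _ => 1 := by
    have h3 : psum n k d R f / psum n k d R (fun _ => 1) ≤ c * e := by linarith
    rwa [div_le_iff₀ hpos] at h3
  -- the masses
  have hfin := W.gp_PR_ne n k d (W.SR_fin R)
  have p1 := (abs_le.1 (hG d hd.le hdd2 n k hk0 hk0' R (fun _ => 1) (fun _ => zero_le_one) fun _ => le_rfl)).2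
  have pf := (abs_le.1 (hG d hd.le hdd2 n k hk0 hk0' R f hf0 hf1')).1
  have hth := W.th_pos n k
  obtain ⟨Z, hZ⟩ : ∃ Z, Z = (gp (PR n k d (W.SR R))).toReal := ⟨_, rfl⟩
  have e1 : ∑ r : Fin 3, (gpF (fun T => (fun _ : C(unitInterval, ℂ) => (1 : ℝ)) (W.wcv n r T)) (PR n k d (W.SR R))).toReal =
      3 * Z := by
    have : gpF (fun _ : PT => (1 : ℝ)) (PR n k d (W.SR R)) = gp (PR n k d (W.SR R)) := by
      unfold gpF gp
      refine tsum_congr fun T => ?_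
      rw [ENNReal.ofReal_one, mul_one]
    rw [hZ, Fin.sum_univ_three]
    show (gpF (fun _ : PT => (1 : ℝ)) (PR n k d (W.SR R))).toReal + (gpF (fun _ : PT => (1 : ℝ)) (PR n k d (W.SR R))).toReal +
      (gpF (fun _ : PT => (1 : ℝ)) (PR n k d (W.SR R))).toReal = _
    rw [this]
    ring
  rw [e1] at p1
  obtain ⟨Φ, hΦ⟩ : ∃ Φ : PT → ℝ, Φ = fun T => if TipIn (κ * (n : ℝ) ^ (3 / 4 : ℝ)) k' T.1 then 0 else 1 := ⟨_, rfl⟩
  have hΦ1 : ∀ T, Φ T ≤ 1 := fun T => by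
    rw [hΦ]
    simp only
    split_ifs <;> norm_num
  have hXne := W.gpF_PR_ne hΦ1 n k d (W.SR_fin R)
  obtain ⟨X, hX⟩ : ∃ X, X = (gpF Φ (PR n k d (W.SR R))).toReal := ⟨_, rfl⟩
  have hszn : size n ≤ C0 * (n : ℝ) ^ (3 / 4 : ℝ) := by
    refine (hsz n g4).2.trans (mul_le_mul_of_nonneg_right ?_ (by positivity))
    rw [hC0d]
    exact le_max_left _ _
  have e2 : ∀ r : Fin 3, c / 2 * X ≤ (gpF (fun T => f (W.wcv n r T)) (PR n k d (W.SR R))).toReal := by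
    intro r
    have h3 := W.gpF_PR_ne (Φ := fun T => f (W.wcv n r T)) (fun T => hf1' _) n k d (W.SR_fin R)
    rw [hX, ← ENNReal.toReal_ofReal (by positivity : (0 : ℝ) ≤ c / 2), ← ENNReal.toReal_mul]
    refine ENNReal.toReal_mono h3 ?_
    unfold gpF
    rw [← ENNReal.tsum_mul_left]
    refine ENNReal.tsum_le_tsum fun T => ?_
    by_cases hT : TipIn (κ * (n : ℝ) ^ (3 / 4 : ℝ)) k' (T : PT).1
    · have : Φ T = 0 := by
        rw [hΦ]
        exact if_pos hT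
      rw [this, ENNReal.ofReal_zero, mul_zero, mul_zero]
      exact bot_le
    · have h4 : Φ T = 1 := by
        rw [hΦ]
        exact if_neg hT
      have h5 : f (W.wcv n r T) = c / 2 := by
        rw [hfd]
        exact tip_osc hcp hcκ hd g4 hszn hdn hkn hk3 T.2 hT r
      show ENNReal.ofReal (c / 2) * (wE (T : PT).1 * wE (T : PT).2.2 * ENNReal.ofReal (Φ T)) ≤
        wE (T : PT).1 * wE (T : PT).2.2 * ENNReal.ofReal (f (W.wcv n r T))
      rw [h4, h5, ENNReal.ofReal_one, mul_one, mul_comm]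
  have e3 : 3 * (c / 2 * X) ≤ ∑ r : Fin 3, (gpF (fun T => f (W.wcv n r T)) (PR n k d (W.SR R))).toReal := by
    rw [Fin.sum_univ_three]
    linarith [e2 0, e2 1, e2 2]
  obtain ⟨Xf, hXf⟩ : ∃ Xf, Xf = ∑ r : Fin 3, (gpF (fun T => f (W.wcv n r T)) (PR n k d (W.SR R))).toReal := ⟨_, rfl⟩
  rw [← hXf] at pf e3
  obtain ⟨θ, hθ⟩ : ∃ θ, θ = W.th n k := ⟨_, rfl⟩
  rw [← hθ] at p1 pf hth
  have hZ0 : 0 ≤ Z := by
    rw [hZ]
    exact ENNReal.toReal_nonneg
  -- θ Xf / 2 ≤ psum f ≤ c e psum 1 ≤ c e (3 / 2) θ 3 Z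
  have f1 : 1 / 2 * (θ * Xf) ≤ c * e * (3 / 2 * (θ * (3 * Z))) := by
    have a1 : 1 / 2 * (θ * Xf) ≤ psum n k d R f := by linarith
    have a2 : psum n k d R (fun _ => 1) ≤ 3 / 2 * (θ * (3 * Z)) := by linarith
    exact a1.trans (h2.trans (mul_le_mul_of_nonneg_left a2 (by positivity)))
  have f2 : θ * (3 * (c / 2 * X)) ≤ θ * Xf := mul_le_mul_of_nonneg_left e3 hth.le
  have f3 : X ≤ ε * Z := by
    have a1 : 1 / 2 * (θ * (3 * (c / 2 * X))) ≤ c * e * (3 / 2 * (θ * (3 * Z))) := by linarith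
    have a2 : θ * c * (3 / 4 * X) ≤ θ * c * (9 / 2 * (e * Z)) := by linarith
    have a3 : 3 / 4 * X ≤ 9 / 2 * (e * Z) := le_of_mul_le_mul_left a2 (by positivity)
    rw [he] at a3
    linarith
  have f4 : gpF Φ (PR n k d (W.SR R)) ≤ ENNReal.ofReal ε * gp (PR n k d (W.SR R)) := by
    rw [← ENNReal.ofReal_toReal hXne, ← hX, ← ENNReal.ofReal_toReal hfin, ← hZ, ← ENNReal.ofReal_mul hε.le]
    exact ENNReal.ofReal_le_ofReal f3
  rw [hΦ] at f4
  exact f4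

/-! ### 3. The beginning of a long walk -/

/-- the first word of a pair has at most `C` times the law of a free word -/
def Core1 : Prop := ∀ d t r : ℝ, 0 < d → d ≤ 1 → 0 < t → 0 < r → ∃ (C : ℝ) (n0 : ℕ), 0 < C ∧ ∀ n k : ℕ, n0 ≤ n → t * n ≤ k →
  (k : ℝ) ≤ (1 - t) * n → ∀ S : Set Pt, (∀ p : Pt, (hn p : ℝ) ≤ r * (n : ℝ) ^ (3 / 4 : ℝ) → p ∈ S) →
    (∀ p ∈ S, (hn p : ℝ) ≤ 4 * r * (n : ℝ) ^ (3 / 4 : ℝ)) → ∀ Φ : List Bool → ℝ, (∀ t, 0 ≤ Φ t) → (∀ t, Φ t ≤ 1) →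
      gpF (fun T => Φ T.1) (PR n k d S) ≤
        ENNReal.ofReal (C * ((∑ m ∈ win d k, xc ^ m * ∑ A ∈ sawF m, Φ A) / ∑ m ∈ win d k, xc ^ m * cS m)) * gp (PR n k d S)

/-- **the beginning of a long walk and the walks with a short tip** -/
theorem acT_of (hC : Core1) : AcT := by
  intro ε κ t d1 hε hκ ht hd1
  obtain ⟨d2, hd2, hT⟩ := tip_small (ε := ε / 4) (by positivity) hκ ht
  obtain ⟨d, hd⟩ : ∃ d, d = min (min d1 d2) 1 := ⟨_, rfl⟩
  have hdp : 0 < d := by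
    rw [hd]
    exact lt_min (lt_min hd1 hd2) one_pos
  have hdd1 : d ≤ d1 := by
    rw [hd]
    exact (min_le_left _ _).trans (min_le_left _ _)
  have hdd2 : d ≤ d2 := by
    rw [hd]
    exact (min_le_left _ _).trans (min_le_right _ _)
  have hd1' : d ≤ 1 := by
    rw [hd]
    exact min_le_right _ _
  obtain ⟨r1, hr1, hT2⟩ := hT d hdp hdd2
  obtain ⟨e, he⟩ : ∃ e, e = min (ε / 4) t := ⟨_, rfl⟩
  have hep : 0 < e := by
    rw [he]
    exact lt_min (by positivity) ht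
  have he1 : e ≤ ε / 4 := by
    rw [he]
    exact min_le_left _ _
  have he2 : e ≤ t := by
    rw [he]
    exact min_le_right _ _
  obtain ⟨τ, hτ, hW⟩ := HexObs.RMP.All.rmw e d hep hdp hd1'
  obtain ⟨r2, hr2, hW2⟩ := hW d hdp
  obtain ⟨r, hr⟩ : ∃ r, r = min r1 r2 := ⟨_, rfl⟩
  have hrp : 0 < r := by
    rw [hr]
    exact lt_min hr1 hr2
  obtain ⟨n1, hT3⟩ := hT2 r hrp (by
    rw [hr]
    exact min_le_left _ _)
  obtain ⟨n2, hW3⟩ := hW2 r hrp (by
    rw [hr]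
    exact min_le_right _ _)
  obtain ⟨C, n3, hCp, hC2⟩ := hC d t r hdp hd1' ht hrp
  refine ⟨d, d, C, max (max n1 n2) (max n3 1), hdp, hdd1, hdp, le_rfl, hCp, fun n k hnn hk1 hk2 => ?_⟩
  have g1 : n1 ≤ n := ((le_max_left _ _).trans (le_max_left _ _)).trans hnn
  have g2 : n2 ≤ n := ((le_max_right _ _).trans (le_max_left _ _)).trans hnn
  have g3 : n3 ≤ n := ((le_max_left _ _).trans (le_max_right _ _)).trans hnn
  have g4 : 1 ≤ n := ((le_max_right _ _).trans (le_max_right _ _)).trans hnn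
  have hn0 : (0 : ℝ) < n := by exact_mod_cast g4
  have hen : e * n ≤ t * n := mul_le_mul_of_nonneg_right he2 hn0.le
  obtain ⟨R, hR⟩ : ∃ R : ℝ, R = r * (n : ℝ) ^ (3 / 4 : ℝ) := ⟨_, rfl⟩
  have s1 : ∀ p : Pt, (hn p : ℝ) ≤ r * (n : ℝ) ^ (3 / 4 : ℝ) → p ∈ W.SR R := fun p hp => by
    rw [← hR] at hp
    exact (NTSF.Mg.JJ_le_hn p).trans hp
  have s2 : ∀ p ∈ W.SR R, (hn p : ℝ) ≤ 4 * r * (n : ℝ) ^ (3 / 4 : ℝ) := fun p hp => by
    have h5 : ‖JJ p‖ ≤ R := hp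
    have h6 := hn_le_JJ p
    have e : 4 * r * (n : ℝ) ^ (3 / 4 : ℝ) = 4 * R := by
      rw [hR]
      ring
    rw [e]
    have h7 : 0 ≤ R := (norm_nonneg _).trans h5
    linarith
  have s3 : ∀ v p : Pt, nrm v = 1 → p ∈ W.SR R → mulE v p ∈ W.SR R := fun v p hv hp => by
    show ‖JJ (mulE v p)‖ ≤ R
    rw [JJ_mulE_norm hv]
    exact hp
  obtain ⟨q1, q2, u, u0, u1, u2, hW4⟩ := hW3 n k g2 (hen.trans hk1) (by linarith) (W.SR R) s1 s2 s3
  refine ⟨u, u0, u1, u2, fun k' hk3 hk4 g hg0 hg1 => ?_⟩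
  obtain ⟨X, hX⟩ : ∃ X, X = ∑ i ∈ range (4 * n), u i * Eu i (fun t => g (t.take k')) := ⟨_, rfl⟩
  have a1 := hW4 (fun T => g (T.1.take k')) (fun H => g (H.take k')) ∅ (fun T => hg0 _) (fun T => hg1 _) (fun H => hg0 _)
    (fun H => hg1 _) (fun i _ _ => by
      refine le_trans (le_of_eq ?_) hτ.le
      unfold Eu
      simp) (fun T H hT hH hTH _ => by
      obtain ⟨A, Y1, g', B, Y2, Q, x, rfl, hH2, -, hD, -, -, -⟩ := hTH
      obtain ⟨-, -, -, -, -, p1, -⟩ := hT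
      have p2 : k ≤ A.length + Y1.length := by
        have : k ≤ (A ++ Y1).length := p1
        rwa [List.length_append] at this
      have p3 : k' ≤ A.length := by
        have h0 : Y1.length ≤ Y1.length + Y2.length + Q.length := by omega
        have h1 : ((Y1.length : ℕ) : ℝ) ≤ d * n := le_trans (by exact_mod_cast h0) hD
        have h2 : (k : ℝ) ≤ A.length + Y1.length := by exact_mod_cast p2
        have h3 : (k' : ℝ) ≤ A.length := by linarith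
        exact_mod_cast h3
      have e1 : (A ++ Y1).take k' = A.take k' := List.take_append_of_le_length p3
      have e2 : H.take k' = A.take k' := by
        rw [hH2]
        exact List.take_append_of_le_length p3
      show |g ((A ++ Y1).take k') - g (H.take k')| ≤ e / 16
      rw [e1, e2, sub_self, abs_zero]
      positivity)
  rw [← hX] at a1
  obtain ⟨Z, hZ⟩ : ∃ Z, Z = (gp (PR n k d (W.SR R))).toReal := ⟨_, rfl⟩
  have hZ0 : 0 < Z := by
    rw [hZ]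
    exact ENNReal.toReal_pos q1 q2
  rw [← hZ] at a1
  obtain ⟨M, hM⟩ : ∃ M, M = tipM (κ * (n : ℝ) ^ (3 / 4 : ℝ)) d k k' g := ⟨_, rfl⟩
  have hM0 : 0 ≤ M := by
    rw [hM]
    unfold tipM
    have hx := xc_pos
    refine div_nonneg (sum_nonneg fun m _ => mul_nonneg (by positivity) (sum_nonneg fun A _ => ?_))
      (sum_nonneg fun m _ => by positivity)
    split_ifs
    · exact hg0 _
    · exact le_rfl
  -- the split
  have a2 : gpF (fun T => g (T.1.take k')) (PR n k d (W.SR R)) ≤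
      gpF (fun T => if TipIn (κ * (n : ℝ) ^ (3 / 4 : ℝ)) k' T.1 then g (T.1.take k') else 0) (PR n k d (W.SR R)) +
        gpF (fun T => if TipIn (κ * (n : ℝ) ^ (3 / 4 : ℝ)) k' T.1 then 0 else 1) (PR n k d (W.SR R)) := by
    unfold gpF
    rw [← ENNReal.tsum_add]
    refine ENNReal.tsum_le_tsum fun T => ?_
    rw [← mul_add]
    refine mul_le_mul_right ?_ _
    show ENNReal.ofReal (g ((T : PT).1.take k')) ≤
      ENNReal.ofReal (if TipIn (κ * (n : ℝ) ^ (3 / 4 : ℝ)) k' (T : PT).1 then g ((T : PT).1.take k') else 0) +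
        ENNReal.ofReal (if TipIn (κ * (n : ℝ) ^ (3 / 4 : ℝ)) k' (T : PT).1 then 0 else 1)
    by_cases h : TipIn (κ * (n : ℝ) ^ (3 / 4 : ℝ)) k' (T : PT).1
    · rw [if_pos h, if_pos h, ENNReal.ofReal_zero, add_zero]
    · rw [if_neg h, if_neg h, ENNReal.ofReal_zero, zero_add]
      exact ENNReal.ofReal_le_ofReal (hg1 _)
  have a3 := hC2 n k g3 hk1 hk2 (W.SR R) s1 s2 (fun A => if TipIn (κ * (n : ℝ) ^ (3 / 4 : ℝ)) k' A then g (A.take k') else 0)
    (fun A => by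
      show 0 ≤ if TipIn (κ * (n : ℝ) ^ (3 / 4 : ℝ)) k' A then g (A.take k') else 0
      split_ifs
      · exact hg0 _
      · exact le_rfl) (fun A => by
      show (if TipIn (κ * (n : ℝ) ^ (3 / 4 : ℝ)) k' A then g (A.take k') else 0) ≤ 1
      split_ifs
      · exact hg1 _
      · exact zero_le_one)
  have a4 := hT3 n k k' g1 hk1 hk2 (by linarith)
  rw [← hR] at a4
  have a5 : gpF (fun T => g (T.1.take k')) (PR n k d (W.SR R)) ≤ ENNReal.ofReal ((C * M + ε / 4) * Z) := by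
    refine a2.trans ((add_le_add a3 a4).trans ?_)
    rw [← add_mul, ← ENNReal.ofReal_toReal q2, ← hZ]
    show (ENNReal.ofReal (C * tipM (κ * (n : ℝ) ^ (3 / 4 : ℝ)) d k k' g) + ENNReal.ofReal (ε / 4)) * ENNReal.ofReal Z ≤ _
    rw [← hM, ← ENNReal.ofReal_add (by positivity) (by positivity), ← ENNReal.ofReal_mul (by positivity)]
  have a6 : (gpF (fun T => g (T.1.take k')) (PR n k d (W.SR R))).toReal ≤ (C * M + ε / 4) * Z :=
    ENNReal.toReal_le_of_le_ofReal (by positivity) a5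
  have a7 : Z * X ≤ (C * M + ε / 4) * Z + e * Z := by
    have := (abs_le.1 a1).1
    linarith
  have a8 : X ≤ C * M + ε / 4 + e := by
    have : Z * X ≤ Z * (C * M + ε / 4 + e) := by linarith
    exact le_of_mul_le_mul_left this hZ0
  rw [← hX, ← hM]
  linarith

end Pool.Agent.RMP
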