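import Pool.Agent.RMP.LimLow
import Pool.Agent.TPC.AN
import Pool.Agent.TPC.XUp
import Pool.Agent.TPC.XLow

/-!
# ROT / F3S2A (helper85): the pairs of `RMW` are dominated by pairs of free words (row W4)

`PR n k d S` (RMP/DefsK): pairs of words, vertex disjoint, difference of the tips in `S`, lengths in `win d k`, `win d (n - k)`.

* `plc A B e y` : the place of `B` such that the difference of the tips is `y` and the frame is `e`;
* `frS Φ n k d S` : the sum over all pairs of words (without disjointness), all frames, all differences in `S`;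
* `gpF_frS` : `gpF Φ (PR n k d S) ≤ frS Φ n k d S`; `frS_one` : `frS 1 ≤ C gp (PR n k d S)`;
* **`core`** : `gpF Φ / gp ≤ C frS Φ / frS 1`; **`core1`** : the same for functions of the first word.
-/

set_option autoImplicit false

open Finset

open scoped ENNReal Classical

namespace Pool.Agent.ROT.F3

namespace S2

open HexObs hiding pos

open HexObs.SDN HexObs.RMP HexObs.TIW

open HexObs.TOG (wdN mem_wdN)

open Pool.Agent.RMP Pool.Agent.RMP.W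

/-! ### the free pairs -/

/-- the place of `B` : difference of the tips `y`, frame `e` -/
def plc (A B : List Bool) (e y : Pt) : Pt × Pt := (TIW.en A - y - mulE e (vx oo up B B.length), e)

lemma plc_en (A B : List Bool) (e y : Pt) : TIW.en A - pe (plc A B e y) B = y := by
  show TIW.en A - ((TIW.en A - y - mulE e (vx oo up B B.length)) + mulE e (vx oo up B B.length)) = y
  rw [sub_add_cancel, sub_sub_cancel]

lemma plc_inj (A B : List Bool) : Function.Injective fun q : Pt × Pt => plc A B q.1 q.2 := by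
  rintro ⟨e, y⟩ ⟨e', y'⟩ h
  have h2 : e = e' := congrArg Prod.snd h
  subst h2
  have h3 := plc_en A B e y
  have h4 := plc_en A B e y'
  have h5 : plc A B e y = plc A B e y' := h
  rw [h5, h4] at h3
  rw [h3]

/-- the free pairs of the lengths `m`, `l` -/
noncomputable def frY (Φ : PT → ℝ) (S : Finset Pt) (m l : ℕ) : ℝ :=
  ∑ A ∈ sawF m, ∑ B ∈ sawF l, ∑ e ∈ dirs, ∑ y ∈ S, Φ (A, (plc A B e y, B))

/-- the free pairs of the lengths in the windows, critical weights -/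
noncomputable def frS (Φ : PT → ℝ) (n k : ℕ) (d : ℝ) (S : Finset Pt) : ℝ :=
  ∑ m ∈ win d k, ∑ l ∈ win d (n - k), xc ^ (m + l) * frY Φ S m l

lemma frY_nonneg {Φ : PT → ℝ} (h0 : ∀ T, 0 ≤ Φ T) (S : Finset Pt) (m l : ℕ) : 0 ≤ frY Φ S m l :=
  sum_nonneg fun _ _ => sum_nonneg fun _ _ => sum_nonneg fun _ _ => sum_nonneg fun _ _ => h0 _

lemma frS_nonneg {Φ : PT → ℝ} (h0 : ∀ T, 0 ≤ Φ T) (n k : ℕ) (d : ℝ) (S : Finset Pt) : 0 ≤ frS Φ n k d S := by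
  have hx := xc_pos
  exact sum_nonneg fun _ _ => sum_nonneg fun _ _ => mul_nonneg (by positivity) (frY_nonneg h0 _ _ _)

lemma YY_le {Φ : PT → ℝ} (h0 : ∀ T, 0 ≤ Φ T) (S : Finset Pt) (m l : ℕ) :
    YY Φ (S : Set Pt) m l ≤ ENNReal.ofReal (frY Φ S m l) := by
  unfold YY frY
  rw [← EF.sawF_eq, ← EF.sawF_eq, ENNReal.ofReal_sum_of_nonneg fun A _ =>
    sum_nonneg fun _ _ => sum_nonneg fun _ _ => sum_nonneg fun _ _ => h0 _]
  refine sum_le_sum fun A _ => ?_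
  rw [ENNReal.ofReal_sum_of_nonneg fun B _ => sum_nonneg fun _ _ => sum_nonneg fun _ _ => h0 _]
  refine sum_le_sum fun B _ => ?_
  rw [← sum_product', ENNReal.ofReal_sum_of_nonneg fun q _ => h0 _]
  obtain ⟨f, hf⟩ : ∃ f : Pt × Pt → ℝ≥0∞, f = fun g => if Fr g ∧ Av (ob g B) A ∧ TIW.en A - pe g B ∈ (S : Set Pt) then
    ENNReal.ofReal (Φ (A, (g, B))) else 0 := ⟨_, rfl⟩
  have h1 : ∀ g ∉ (dirs ×ˢ S).image fun q : Pt × Pt => plc A B q.1 q.2, f g = 0 := by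
    intro g hg
    rw [hf]
    refine if_neg ?_
    rintro ⟨a1, a2, a3⟩
    refine hg (mem_image.2 ⟨(g.2, TIW.en A - pe g B), mem_product.2 ⟨a1.1, a3⟩, ?_⟩)
    have e : TIW.en A - (TIW.en A - pe g B) - mulE g.2 (vx oo up B B.length) = g.1 := by
      unfold pe pv
      abel
    show (TIW.en A - (TIW.en A - pe g B) - mulE g.2 (vx oo up B B.length), g.2) = g
    rw [e]
  have h2 : ∑' g : Pt × Pt, f g = ∑ q ∈ dirs ×ˢ S, f (plc A B q.1 q.2) := by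
    rw [tsum_eq_sum h1, sum_image fun a _ b _ h => plc_inj A B h]
  have h3 : ∑ q ∈ dirs ×ˢ S, f (plc A B q.1 q.2) ≤ ∑ q ∈ dirs ×ˢ S, ENNReal.ofReal (Φ (A, (plc A B q.1 q.2, B))) := by
    refine sum_le_sum fun q _ => ?_
    rw [hf]
    show (if _ then _ else _) ≤ _
    split_ifs
    · exact le_rfl
    · exact bot_le
  rw [← h2, hf] at h3
  refine le_trans (le_of_eq (tsum_congr fun g => ?_)) h3
  by_cases hg : Fr g ∧ Av (ob g B) A ∧ TIW.en A - pe g B ∈ (S : Set Pt)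
  · simp only [if_pos hg]
  · simp only [if_neg hg]

/-- **the mass of the pairs is at most the mass of the free pairs** -/
theorem gpF_frS {Φ : PT → ℝ} (h0 : ∀ T, 0 ≤ Φ T) (h1 : ∀ T, Φ T ≤ 1) {n k : ℕ} (hkn : k ≤ n) {d : ℝ} (hd : 0 ≤ d)
    (S : Finset Pt) : (gpF Φ (PR n k d (S : Set Pt))).toReal ≤ frS Φ n k d S := by
  have hx := xc_pos
  rw [gpF_real h1 hkn hd S.finite_toSet]
  unfold frS
  refine sum_le_sum fun m _ => sum_le_sum fun l _ => mul_le_mul_of_nonneg_left ?_ (by positivity)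
  exact ENNReal.toReal_le_of_le_ofReal (frY_nonneg h0 _ _ _) (YY_le h0 S m l)

/-! ### the total mass of the free pairs -/

/-- the number of the walks, in the critical weights -/
lemma cS_bd : ∃ c C : ℝ, 0 < c ∧ 0 < C ∧ ∀ n : ℕ, 1 ≤ n →
    c * (n : ℝ) ^ (11 / 32 : ℝ) ≤ (cS n : ℝ) * xc ^ n ∧ (cS n : ℝ) * xc ^ n ≤ C * (n : ℝ) ^ (11 / 32 : ℝ) := by
  obtain ⟨c, C, hc, hC, h⟩ := TPC.an_const TPC.xUp TPC.xLow
  have hx := xc_pos
  have hmu : muB = 1 / xc := le_antisymm muB_le le_muB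
  refine ⟨2 / 3 * c, C, by positivity, hC, fun n hn => ?_⟩
  have h1 : (2 : ℝ) * aB n = 3 * cS n := by exact_mod_cast aB_eq hn
  have h2 : (0 : ℝ) ≤ cS n := Nat.cast_nonneg _
  have h3 : muB ^ n * xc ^ n = 1 := by
    rw [hmu, ← mul_pow, one_div, inv_mul_cancel₀ hx.ne', one_pow]
  have hxn : 0 < xc ^ n := by positivity
  constructor
  · calc 2 / 3 * c * (n : ℝ) ^ ((11 : ℝ) / 32) = 2 / 3 * (c * (muB ^ n * (n : ℝ) ^ ((11 : ℝ) / 32))) * xc ^ n := by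
          rw [show 2 / 3 * (c * (muB ^ n * (n : ℝ) ^ ((11 : ℝ) / 32))) * xc ^ n =
            2 / 3 * c * (n : ℝ) ^ ((11 : ℝ) / 32) * (muB ^ n * xc ^ n) by ring, h3, mul_one]
      _ ≤ 2 / 3 * (aB n : ℝ) * xc ^ n :=
          mul_le_mul_of_nonneg_right (mul_le_mul_of_nonneg_left (h n hn).1 (by norm_num)) hxn.le
      _ = (cS n : ℝ) * xc ^ n := by rw [show (cS n : ℝ) = 2 / 3 * aB n by linarith]
  · calc (cS n : ℝ) * xc ^ n ≤ (aB n : ℝ) * xc ^ n := mul_le_mul_of_nonneg_right (by linarith) hxn.le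
      _ ≤ C * (muB ^ n * (n : ℝ) ^ ((11 : ℝ) / 32)) * xc ^ n := mul_le_mul_of_nonneg_right (h n hn).2 hxn.le
      _ = C * (n : ℝ) ^ ((11 : ℝ) / 32) * (muB ^ n * xc ^ n) := by ring
      _ = _ := by rw [h3, mul_one]

lemma card_sawF (n : ℕ) : (sawF n).card = cS n := by
  unfold cS
  rw [← Set.ncard_coe_finset]
  congr 1
  ext t
  rw [Finset.mem_coe, mem_sawF]

/-- the mass of the words with a number of letters in the window -/
noncomputable def wdM (d : ℝ) (k : ℕ) : ℝ := ∑ m ∈ win d k, xc ^ m * (cS m : ℝ)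

lemma wdM_nonneg (d : ℝ) (k : ℕ) : 0 ≤ wdM d k := by
  have hx := xc_pos
  exact sum_nonneg fun _ _ => by positivity

lemma cS_pos'' (m : ℕ) : (0 : ℝ) < cS m := by
  rcases Nat.eq_zero_or_pos m with h | h
  · subst h
    have h1 : (([] : List Bool)) ∈ SawN 0 := ⟨rfl, fun _ _ _ => Set.mem_univ _, fun i j hij hj => by
      rw [List.length_nil] at hj
      omega⟩
    have h2 : 0 < cS 0 := by
      unfold cS
      rw [Set.ncard_pos (PHWDict.SawN_fin 0)]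
      exact ⟨_, h1⟩
    exact_mod_cast h2
  · exact HexObs.TIP.cS_pos' h

lemma wdM_pos {d : ℝ} (hd : 0 ≤ d) (k : ℕ) : 0 < wdM d k := by
  have hx := xc_pos
  unfold wdM
  refine sum_pos (fun m _ => mul_pos (by positivity) (by exact cS_pos'' m)) ⟨k, ?_⟩
  rw [mem_win hd]
  refine ⟨le_rfl, ?_⟩
  have : (0 : ℝ) ≤ k := Nat.cast_nonneg k
  nlinarith

lemma frS_fst {Φ : List Bool → ℝ} (n k : ℕ) (d : ℝ) (S : Finset Pt) :
    frS (fun T => Φ T.1) n k d S = (∑ m ∈ win d k, xc ^ m * ∑ A ∈ sawF m, Φ A) * (wdM d (n - k) * (dirs.card * S.card)) := by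
  unfold frS frY wdM
  rw [sum_mul]
  refine sum_congr rfl fun m _ => ?_
  rw [sum_mul, mul_sum]
  refine sum_congr rfl fun l _ => ?_
  simp only [sum_const, nsmul_eq_mul, card_sawF]
  rw [pow_add]
  have h : ∑ x ∈ sawF m, (cS l : ℝ) * ((dirs.card : ℝ) * ((S.card : ℝ) * Φ x)) =
      cS l * (dirs.card * (S.card * ∑ x ∈ sawF m, Φ x)) := by
    rw [mul_sum, mul_sum, mul_sum]
  rw [h]
  ring

lemma frS_one (n k : ℕ) (d : ℝ) (S : Finset Pt) :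
    frS (fun _ => 1) n k d S = wdM d k * (wdM d (n - k) * (dirs.card * S.card)) := by
  have h := frS_fst (Φ := fun _ => 1) n k d S
  rw [h]
  unfold wdM
  simp only [sum_const, nsmul_eq_mul, mul_one, card_sawF]

lemma box_card {R : ℝ} (hR : 1 ≤ R) {S : Finset Pt} (hS : ∀ p ∈ S, (TIW.hn p : ℝ) ≤ R) : (S.card : ℝ) ≤ 9 * R ^ 2 := by
  obtain ⟨f, hf⟩ : ∃ f : Pt → ℤ × ℤ, f = fun p => (ip p up, ip p (rotL up)) := ⟨_, rfl⟩
  have hinj : Function.Injective f := by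
    rintro ⟨a, b⟩ ⟨c, d⟩ he
    rw [hf] at he
    have e1 := congrArg Prod.fst he
    have e2 := congrArg Prod.snd he
    simp only [ip, up, rotL] at e1 e2
    ext <;> simp only <;> omega
  obtain ⟨T, hT⟩ : ∃ T : ℕ, T = ⌊R⌋₊ := ⟨_, rfl⟩
  have hT1 : (T : ℝ) ≤ R := by rw [hT]; exact Nat.floor_le (by linarith)
  have hT2 : R < T + 1 := by rw [hT]; exact Nat.lt_floor_add_one R
  have hmap : ∀ p ∈ S, f p ∈ (Icc (-(T : ℤ)) (T : ℤ)) ×ˢ (Icc (-(T : ℤ)) (T : ℤ)) := by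
    intro p hp
    have h1 : TIW.hn p ≤ T := by
      have h2 : (TIW.hn p : ℝ) < ((T + 1 : ℤ) : ℝ) := by
        push_cast
        exact lt_of_le_of_lt (hS p hp) hT2
      have h3 : TIW.hn p < (T : ℤ) + 1 := by exact_mod_cast h2
      omega
    have hL : rotL up ∈ dirs := by decide
    have h2 := TIW.ip_le_hn p TIW.upd'
    have h3 := TIW.neg_hn_le_ip p TIW.upd'
    have h4 := TIW.ip_le_hn p hL
    have h5 := TIW.neg_hn_le_ip p hL
    rw [hf, mem_product, mem_Icc, mem_Icc]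
    refine ⟨⟨?_, ?_⟩, ⟨?_, ?_⟩⟩ <;> simp only <;> linarith
  have h1 := card_le_card_of_injOn f hmap hinj.injOn
  rw [card_product, Int.card_Icc] at h1
  have e : ((T : ℤ) + 1 - -(T : ℤ)).toNat = 2 * T + 1 := by omega
  rw [e] at h1
  have h2 : (S.card : ℝ) ≤ (2 * T + 1) * (2 * T + 1) := by exact_mod_cast h1
  refine h2.trans ?_
  have h3 : (0 : ℝ) ≤ T := Nat.cast_nonneg T
  have h4 : (2 * (T : ℝ) + 1) ≤ 3 * R := by linarith
  calc (2 * (T : ℝ) + 1) * (2 * T + 1) ≤ 3 * R * (3 * R) := mul_le_mul h4 h4 (by positivity) (by positivity)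
    _ = 9 * R ^ 2 := by ring

/-- **the total mass of the free pairs is at most the mass of the pairs** -/
theorem fr_low {t d r : ℝ} (ht : 0 < t) (hd : 0 < d) (hd1 : d ≤ 1) (hr : 0 < r) : ∃ (C : ℝ) (n0 : ℕ), 0 < C ∧
    ∀ n k : ℕ, n0 ≤ n → t * n ≤ k → (k : ℝ) ≤ (1 - t) * n → ∀ S : Finset Pt,
      (∀ p : Pt, (TIW.hn p : ℝ) ≤ r * (n : ℝ) ^ (3 / 4 : ℝ) → p ∈ S) →
      (∀ p ∈ S, (TIW.hn p : ℝ) ≤ 4 * r * (n : ℝ) ^ (3 / 4 : ℝ)) →
        frS (fun _ => 1) n k d S ≤ C * (gp (PR n k d (S : Set Pt))).toReal := by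
  obtain ⟨c0, C0, hc0, hC0, hcS⟩ := cS_bd
  obtain ⟨c, b0, hc, h⟩ := lowPR t d ht hd
  obtain ⟨r1, hr1⟩ : ∃ r1 : ℝ, r1 = min r (1 / 2 ^ b0) := ⟨_, rfl⟩
  have hr10 : 0 < r1 := by rw [hr1]; positivity
  have hr1r : r1 ≤ r := by rw [hr1]; exact min_le_left _ _
  have hr1b : r1 ≤ 1 / 2 ^ b0 := by rw [hr1]; exact min_le_right _ _
  have hr11 : r1 ≤ 1 := hr1b.trans (by
    rw [div_le_one (by positivity)]
    exact one_le_pow₀ (by norm_num))
  obtain ⟨n1, hn1⟩ := LimLow.big ((2 : ℝ) ^ b0) hr10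
  obtain ⟨n2, hn2⟩ := LimLow.big (1 : ℝ) (show (0 : ℝ) < 4 * r by positivity)
  obtain ⟨M, hM⟩ : ∃ M : ℝ, M = 3 * (C0 * (2 : ℝ) ^ (11 / 32 : ℝ)) := ⟨_, rfl⟩
  have hM0 : 0 < M := by rw [hM]; positivity
  obtain ⟨w, hw⟩ : ∃ w : ℝ, w = c * ((1 / 2 : ℝ) ^ (59 / 24 : ℝ) * r1 ^ (59 / 24 : ℝ)) := ⟨_, rfl⟩
  have hw0 : 0 < w := by rw [hw]; positivity
  refine ⟨M * (M * (dirs.card * (9 * (4 * r) ^ 2))) / w, n1 + n2 + 1, by
    have : 0 < dirs.card := by decide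
    positivity, fun n k hn hk1 hk2 S hS1 hS2 => ?_⟩
  have hnn : 1 ≤ n := by omega
  have hn0 : (0 : ℝ) < n := by exact_mod_cast hnn
  have hn1' : (1 : ℝ) ≤ n := by exact_mod_cast hnn
  have hR1 := hn1 n (by omega)
  have hR2 := hn2 n (by omega)
  obtain ⟨v, hv⟩ : ∃ v : ℝ, v = (n : ℝ) ^ (3 / 4 : ℝ) := ⟨_, rfl⟩
  have hv0 : 0 < v := by rw [hv]; positivity
  rw [← hv] at hR1 hR2 hS1 hS2
  have hkn : k < n := by
    have : (k : ℝ) < n := lt_of_le_of_lt hk2 (by nlinarith)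
    exact_mod_cast this
  have hkr : (k : ℝ) ≤ n := by exact_mod_cast hkn.le
  have hkr0 : (0 : ℝ) ≤ k := Nat.cast_nonneg k
  have hk0 : 0 < k := by
    have : (0 : ℝ) < k := lt_of_lt_of_le (by positivity) hk1
    exact_mod_cast this
  -- the mass of a window
  have hwin : ∀ q : ℕ, 1 ≤ q → q ≤ n → wdM d q ≤ M * ((n : ℝ) * (n : ℝ) ^ (11 / 32 : ℝ)) := by
    intro q hq1 hq
    have hqr : (q : ℝ) ≤ n := by exact_mod_cast hq
    have hq0 : (0 : ℝ) ≤ q := Nat.cast_nonneg q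
    have hlen : ∀ m ∈ win d q, xc ^ m * (cS m : ℝ) ≤ C0 * (2 : ℝ) ^ (11 / 32 : ℝ) * (n : ℝ) ^ (11 / 32 : ℝ) := by
      intro m hm
      obtain ⟨h1, h2⟩ := (mem_win hd.le).1 hm
      have h3 : (m : ℝ) ≤ 2 * n := by nlinarith
      calc xc ^ m * (cS m : ℝ) = (cS m : ℝ) * xc ^ m := mul_comm _ _
        _ ≤ C0 * (m : ℝ) ^ (11 / 32 : ℝ) := (hcS m (by omega)).2
        _ ≤ C0 * (2 * n : ℝ) ^ (11 / 32 : ℝ) :=
            mul_le_mul_of_nonneg_left (Real.rpow_le_rpow (Nat.cast_nonneg m) h3 (by norm_num)) hC0.le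
        _ = _ := by rw [Real.mul_rpow (by norm_num) hn0.le, mul_assoc]
    have hcard : ((win d q).card : ℝ) ≤ 3 * n := by
      have h1 : (RMP.win d q).card ≤ ⌊(1 + d) * q⌋₊ + 1 := by
        unfold RMP.win
        refine (card_filter_le _ _).trans ?_
        rw [card_range]
      have h2 : (⌊(1 + d) * q⌋₊ : ℝ) ≤ (1 + d) * q := Nat.floor_le (by positivity)
      have h3 : ((win d q).card : ℝ) ≤ (⌊(1 + d) * q⌋₊ : ℝ) + 1 := by exact_mod_cast h1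
      nlinarith
    unfold wdM
    calc ∑ m ∈ win d q, xc ^ m * (cS m : ℝ) ≤ ∑ m ∈ win d q, C0 * (2 : ℝ) ^ (11 / 32 : ℝ) * (n : ℝ) ^ (11 / 32 : ℝ) :=
          sum_le_sum hlen
      _ = ((win d q).card : ℝ) * (C0 * (2 : ℝ) ^ (11 / 32 : ℝ) * (n : ℝ) ^ (11 / 32 : ℝ)) := by
          rw [sum_const, nsmul_eq_mul]
      _ ≤ 3 * n * (C0 * (2 : ℝ) ^ (11 / 32 : ℝ) * (n : ℝ) ^ (11 / 32 : ℝ)) :=
          mul_le_mul_of_nonneg_right hcard (by positivity)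
      _ = _ := by rw [hM]; ring
  -- the level
  obtain ⟨j, hj1, hj2⟩ := LimLow.pow_near (show (1 : ℝ) ≤ r1 * v from (one_le_pow₀ (by norm_num)).trans hR1)
  have hbj : b0 ≤ j := by
    have h1 : (2 : ℝ) ^ b0 < 2 ^ (j + 1) := by
      rw [pow_succ]
      linarith
    have h2 := (pow_lt_pow_iff_right₀ (by norm_num : (1 : ℝ) < 2)).1 h1
    omega
  have hml : 2 ^ b0 * ARM.ml j ≤ n := by
    rw [LimLow.ml_eq]
    have h1 : ((2 : ℝ) ^ j) ^ (4 / 3 : ℝ) ≤ (r1 * v) ^ (4 / 3 : ℝ) := Real.rpow_le_rpow (by positivity) hj1 (by norm_num)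
    have h2 : (r1 * v) ^ (4 / 3 : ℝ) = r1 ^ (4 / 3 : ℝ) * n := by
      rw [Real.mul_rpow hr10.le hv0.le, hv, ← Real.rpow_mul hn0.le]
      norm_num
    have h3 : r1 ^ (4 / 3 : ℝ) ≤ r1 := by
      calc r1 ^ (4 / 3 : ℝ) ≤ r1 ^ (1 : ℝ) := Real.rpow_le_rpow_of_exponent_ge hr10 hr11 (by norm_num)
        _ = r1 := Real.rpow_one r1
    have h4 : 2 ^ b0 * r1 ≤ 1 := by
      have := mul_le_mul_of_nonneg_left hr1b (by positivity : (0 : ℝ) ≤ 2 ^ b0)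
      rwa [mul_one_div_cancel (by positivity)] at this
    calc 2 ^ b0 * ((2 : ℝ) ^ j) ^ (4 / 3 : ℝ) ≤ 2 ^ b0 * (r1 * n) :=
          mul_le_mul_of_nonneg_left ((h1.trans h2.le).trans (mul_le_mul_of_nonneg_right h3 hn0.le)) (by positivity)
      _ = 2 ^ b0 * r1 * n := by ring
      _ ≤ 1 * n := mul_le_mul_of_nonneg_right h4 hn0.le
      _ = n := one_mul _
  have hg := h n k j hbj hml hk1 hk2 (S : Set Pt) (fun p hp => by
    refine hS1 p ?_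
    have h2 : (TIW.hn p : ℝ) ≤ 2 ^ j := by exact_mod_cast hp
    nlinarith)
  rw [ENNReal.ofReal_le_iff_le_toReal (gp_PR_ne n k d S.finite_toSet)] at hg
  have h1 : (1 / 2 : ℝ) ^ (59 / 24 : ℝ) * (r1 ^ (59 / 24 : ℝ) * v ^ (59 / 24 : ℝ)) ≤ (2 : ℝ) ^ ((59 / 24 : ℝ) * (j : ℝ)) := by
    have h2 : (2 : ℝ) ^ ((59 / 24 : ℝ) * (j : ℝ)) = ((2 : ℝ) ^ j) ^ (59 / 24 : ℝ) := by
      rw [← Real.rpow_natCast, ← Real.rpow_mul (by norm_num)]
      congr 1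
      ring
    rw [h2, ← Real.mul_rpow hr10.le hv0.le, ← Real.mul_rpow (by norm_num) (by positivity)]
    exact Real.rpow_le_rpow (by positivity) (by linarith) (by norm_num)
  have e1 : v ^ (59 / 24 : ℝ) * (n : ℝ) ^ (75 / 32 : ℝ) =
      ((n : ℝ) * (n : ℝ) ^ (11 / 32 : ℝ)) * ((n : ℝ) * (n : ℝ) ^ (11 / 32 : ℝ)) * v ^ 2 := by
    have a1 : (n : ℝ) * (n : ℝ) ^ (11 / 32 : ℝ) = (n : ℝ) ^ (43 / 32 : ℝ) := by
      nth_rewrite 1 [← Real.rpow_one (n : ℝ)]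
      rw [← Real.rpow_add hn0]
      norm_num
    rw [a1, hv, ← Real.rpow_mul hn0.le, ← Real.rpow_add hn0, ← Real.rpow_natCast, ← Real.rpow_mul hn0.le,
      ← Real.rpow_add hn0, ← Real.rpow_add hn0]
    norm_num
  have hlow : w * (((n : ℝ) * (n : ℝ) ^ (11 / 32 : ℝ)) * ((n : ℝ) * (n : ℝ) ^ (11 / 32 : ℝ)) * v ^ 2) ≤
      (gp (PR n k d (S : Set Pt))).toReal := by
    refine le_trans ?_ hg
    rw [← e1, hw]
    calc c * ((1 / 2 : ℝ) ^ (59 / 24 : ℝ) * r1 ^ (59 / 24 : ℝ)) * (v ^ (59 / 24 : ℝ) * (n : ℝ) ^ (75 / 32 : ℝ)) =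
          c * ((1 / 2 : ℝ) ^ (59 / 24 : ℝ) * (r1 ^ (59 / 24 : ℝ) * v ^ (59 / 24 : ℝ)) * (n : ℝ) ^ (75 / 32 : ℝ)) := by ring
      _ ≤ _ := mul_le_mul_of_nonneg_left (mul_le_mul_of_nonneg_right h1 (by positivity)) hc.le
  have hSc : (S.card : ℝ) ≤ 9 * (4 * r) ^ 2 * v ^ 2 := by
    have := box_card hR2 hS2
    rw [mul_pow] at this
    linarith
  rw [frS_one]
  have b1 := hwin k hk0 hkn.le
  have b2 := hwin (n - k) (by omega) (Nat.sub_le _ _)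
  have b3 := wdM_nonneg d k
  have b4 := wdM_nonneg d (n - k)
  calc wdM d k * (wdM d (n - k) * (dirs.card * S.card)) ≤
      M * ((n : ℝ) * (n : ℝ) ^ (11 / 32 : ℝ)) * (M * ((n : ℝ) * (n : ℝ) ^ (11 / 32 : ℝ)) *
        (dirs.card * (9 * (4 * r) ^ 2 * v ^ 2))) :=
        mul_le_mul b1 (mul_le_mul b2 (mul_le_mul_of_nonneg_left hSc (Nat.cast_nonneg _)) (by positivity) (by positivity))
          (by positivity) (by positivity)
    _ = M * (M * (dirs.card * (9 * (4 * r) ^ 2))) / w *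
        (w * (((n : ℝ) * (n : ℝ) ^ (11 / 32 : ℝ)) * ((n : ℝ) * (n : ℝ) ^ (11 / 32 : ℝ)) * v ^ 2)) := by
        field_simp
    _ ≤ _ := mul_le_mul_of_nonneg_left hlow (by positivity)

/-! ### the theorems -/

/-- **core**: the pairs are dominated by the free pairs -/
theorem core {t d r : ℝ} (ht : 0 < t) (hd : 0 < d) (hd1 : d ≤ 1) (hr : 0 < r) : ∃ (C : ℝ) (n0 : ℕ), 0 < C ∧
    ∀ n k : ℕ, n0 ≤ n → t * n ≤ k → (k : ℝ) ≤ (1 - t) * n → ∀ S : Finset Pt,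
      (∀ p : Pt, (TIW.hn p : ℝ) ≤ r * (n : ℝ) ^ (3 / 4 : ℝ) → p ∈ S) →
      (∀ p ∈ S, (TIW.hn p : ℝ) ≤ 4 * r * (n : ℝ) ^ (3 / 4 : ℝ)) → ∀ Φ : PT → ℝ, (∀ T, 0 ≤ Φ T) → (∀ T, Φ T ≤ 1) →
        (gpF Φ (PR n k d (S : Set Pt))).toReal ≤
          C * (gp (PR n k d (S : Set Pt))).toReal * (frS Φ n k d S / frS (fun _ => 1) n k d S) := by
  obtain ⟨C, n0, hC, h⟩ := fr_low ht hd hd1 hr
  refine ⟨C, n0, hC, fun n k hn hk1 hk2 S hS1 hS2 Φ h0 h1 => ?_⟩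
  have hkn : k ≤ n := by
    have : (k : ℝ) ≤ n := hk2.trans (by nlinarith [(Nat.cast_nonneg n : (0 : ℝ) ≤ n)])
    exact_mod_cast this
  have h2 := gpF_frS h0 h1 hkn hd.le S
  have h3 := h n k hn hk1 hk2 S hS1 hS2
  have h4 := frS_nonneg h0 n k d S
  have h5 : 0 < frS (fun _ => 1) n k d S := by
    rw [frS_one]
    have a1 := wdM_pos hd.le k
    have a2 := wdM_pos hd.le (n - k)
    have a3 : 0 < S.card := card_pos.2 ⟨0, hS1 0 (by
      have : TIW.hn (0 : Pt) = 0 := by decide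
      rw [this]
      push_cast
      positivity)⟩
    have a4 : 0 < dirs.card := by decide
    positivity
  rw [← mul_div_assoc, le_div_iff₀ h5]
  calc (gpF Φ (PR n k d (S : Set Pt))).toReal * frS (fun _ => 1) n k d S ≤
        frS Φ n k d S * (C * (gp (PR n k d (S : Set Pt))).toReal) := mul_le_mul h2 h3 h5.le h4
    _ = _ := by ring

/-- **core1**: the same for functions of the first word -/
theorem core1 {t d r : ℝ} (ht : 0 < t) (hd : 0 < d) (hd1 : d ≤ 1) (hr : 0 < r) : ∃ (C : ℝ) (n0 : ℕ), 0 < C ∧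
    ∀ n k : ℕ, n0 ≤ n → t * n ≤ k → (k : ℝ) ≤ (1 - t) * n → ∀ S : Finset Pt,
      (∀ p : Pt, (TIW.hn p : ℝ) ≤ r * (n : ℝ) ^ (3 / 4 : ℝ) → p ∈ S) →
      (∀ p ∈ S, (TIW.hn p : ℝ) ≤ 4 * r * (n : ℝ) ^ (3 / 4 : ℝ)) → ∀ Φ : List Bool → ℝ, (∀ T, 0 ≤ Φ T) → (∀ T, Φ T ≤ 1) →
        (gpF (fun T => Φ T.1) (PR n k d (S : Set Pt))).toReal ≤
          C * (gp (PR n k d (S : Set Pt))).toReal * ((∑ m ∈ win d k, xc ^ m * ∑ A ∈ sawF m, Φ A) / wdM d k) := by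
  obtain ⟨C, n0, hC, h⟩ := core ht hd hd1 hr
  refine ⟨C, n0, hC, fun n k hn hk1 hk2 S hS1 hS2 Φ h0 h1 => ?_⟩
  refine (h n k hn hk1 hk2 S hS1 hS2 (fun T => Φ T.1) (fun _ => h0 _) (fun _ => h1 _)).trans (le_of_eq ?_)
  rw [frS_fst, frS_one]
  have a1 := wdM_pos hd.le k
  have a2 := wdM_pos hd.le (n - k)
  have a3 : 0 < S.card := card_pos.2 ⟨0, hS1 0 (by
    have : TIW.hn (0 : Pt) = 0 := by decide
    rw [this]
    push_cast
    positivity)⟩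
  have a4 : 0 < dirs.card := by decide
  rw [mul_div_mul_right _ _ (by positivity)]

end S2

end Pool.Agent.ROT.F3

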