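import Pool.Agent.ROT.F3AcT
import Pool.Agent.ROT.F3S2A

/-!
# ROT / F3AcTF (helper11): `acT : AcT`

`core1` of `F3S2A` (helper85) in the form `Core1` of `F3AcT` (helper83), and **`acT`**.
-/

set_option autoImplicit false

namespace Pool.Agent.RMP

open Finset MeasureTheory Filter Topology

open HexObs hiding pos curve

open HexObs.TOG HexObs.OneS HexObs.SDN HexObs.TS HexObs.TIW HexObs.MCP HexObs.RMP

open scoped ENNReal Classical

/-- the first word of a pair against a free word -/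
theorem core1F : Core1 := by
  intro d t r hd hd1 ht hr
  obtain ⟨C, n0, hC, h⟩ := Pool.Agent.ROT.F3.S2.core1 ht hd hd1 hr
  refine ⟨C, n0, hC, fun n k hn hk1 hk2 S hS1 hS2 Φ h0 h1 => ?_⟩
  have hSf : S.Finite := by
    refine (HexObs.TIW.hn_fin (⌊4 * r * (n : ℝ) ^ (3 / 4 : ℝ)⌋₊ + 1)).subset fun p hp => ?_
    have h3 : (TIW.hn p : ℝ) < (⌊4 * r * (n : ℝ) ^ (3 / 4 : ℝ)⌋₊ : ℝ) + 1 := (hS2 p hp).trans_lt (Nat.lt_floor_add_one _)
    show TIW.hn p < ((⌊4 * r * (n : ℝ) ^ (3 / 4 : ℝ)⌋₊ + 1 : ℕ) : ℤ)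
    exact_mod_cast h3
  obtain ⟨T, hT⟩ : ∃ T : Finset Pt, (T : Set Pt) = S := ⟨hSf.toFinset, hSf.coe_toFinset⟩
  subst hT
  have key := h n k hn hk1 hk2 T (fun p hp => Finset.mem_coe.1 (hS1 p hp)) (fun p hp => hS2 p (Finset.mem_coe.2 hp)) Φ h0 h1
  have hx := xc_pos
  have hq : (0 : ℝ) ≤ (∑ m ∈ win d k, xc ^ m * ∑ A ∈ sawF m, Φ A) /
      ∑ m ∈ win d k, xc ^ m * (cS m : ℝ) :=
    div_nonneg (sum_nonneg fun m _ => mul_nonneg (by positivity) (sum_nonneg fun A _ => h0 A))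
      (sum_nonneg fun m _ => by positivity)
  have e1 := W.gpF_PR_ne (fun T : PT => h1 T.1) n k d hSf
  have e2 := W.gp_PR_ne n k d hSf
  rw [← ENNReal.ofReal_toReal e1, ← ENNReal.ofReal_toReal e2, ← ENNReal.ofReal_mul (by positivity)]
  refine ENNReal.ofReal_le_ofReal (key.trans (le_of_eq ?_))
  unfold Pool.Agent.ROT.F3.S2.wdM
  ring

/-- **the beginning of a long walk and the walks with a short tip** -/
theorem acT : Pool.Agent.ROT.F3.AcT := acT_of core1F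

end Pool.Agent.RMP
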