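import Pool.Agent.ROT.F3One
import Pool.Agent.SCF.FarZ

/-!
# ROT, F3, row W9 (helper51): mixing at the two tips, discrete form, every step number

* **`mix2`** : start gate `Gp` (almost a function of the first `m ≤ δ n` letters, almost a Lipschitz functional of the curve),
  end gate `Gq` (almost a function of the last `m' ≤ δ' n` letters, `δ'` small depending on the Lipschitz constant):
  the mean of `Gp * Gq * F (curve)` is almost the product of the three means;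
* **`mix3`** : with one tip lower bounds `p ≤ E Gp`, `p ≤ E Gq`: `p ^ 2 / 2 ≤ E (Gp * Gq)` and
  `|E (Gp * Gq * F) - E (Gp * Gq) * E F| ≤ ε * E (Gp * Gq)`;
* `locS_of`, `locE_of` : a functional which is a function of the first (last) letters outside of a bad set;
* `farS`, `farE` : no return.
-/

set_option autoImplicit false

noncomputable section

open MeasureTheory Filter Topology Set
open scoped Classical

namespace Pool.Agent.ROT.F3

open Pool.Agent.NTS.Res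

open Pool.Agent.IW.Res (mean)

/-- `G` is up to `ε` (in mean, `n` steps) a function of the first `m` letters -/
def NearS (n m : ℕ) (ε : ℝ) (G : (Fin n → Fin 3) → ℝ) : Prop :=
  ∃ Φ : (Fin n → Fin 3) → ℝ, LocS m Φ ∧ (∀ s, |Φ s| ≤ 1) ∧ mean n (fun s => |G s - Φ s|) ≤ ε

/-- `G` is up to `ε` (in mean, `n` steps) a function of the last `m` letters -/
def NearE (n m : ℕ) (ε : ℝ) (G : (Fin n → Fin 3) → ℝ) : Prop :=
  ∃ Φ : (Fin n → Fin 3) → ℝ, LocE m Φ ∧ (∀ s, |Φ s| ≤ 1) ∧ mean n (fun s => |G s - Φ s|) ≤ ε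

/-- `G` is up to `ε` (in mean, `n` steps) an `L`-Lipschitz functional of the curve -/
def NearL (n : ℕ) (L : NNReal) (ε : ℝ) (G : (Fin n → Fin 3) → ℝ) : Prop :=
  ∃ φ : C(unitInterval, ℂ) → ℝ, LipschitzWith L φ ∧ (∀ γ, |φ γ| ≤ 1) ∧ mean n (fun s => |G s - φ (curve s)|) ≤ ε

lemma mean_dist {n : ℕ} {f g h : (Fin n → Fin 3) → ℝ} {ε : ℝ} (hfg : mean n (fun s => |f s - g s|) ≤ ε)
    (hh : ∀ s, |h s| ≤ 1) : |mean n (fun s => f s * h s) - mean n (fun s => g s * h s)| ≤ ε := by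
  rw [mean_sub]
  unfold mean at hfg ⊢
  rw [abs_div, abs_of_nonneg (Nat.cast_nonneg _ : (0 : ℝ) ≤ _)]
  refine le_trans (div_le_div_of_nonneg_right ?_ (Nat.cast_nonneg _)) hfg
  refine (Finset.abs_sum_le_sum_abs _ _).trans (Finset.sum_le_sum fun s _ => ?_)
  rw [← sub_mul, abs_mul]
  exact mul_le_of_le_one_right (abs_nonneg _) (hh s)

lemma mean_dist1 {n : ℕ} {f g : (Fin n → Fin 3) → ℝ} {ε : ℝ} (hfg : mean n (fun s => |f s - g s|) ≤ ε) :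
    |mean n f - mean n g| ≤ ε := by
  have h := mean_dist (h := fun _ => 1) hfg fun _ => by rw [abs_one]
  simpa only [mul_one] using h

lemma lip_mul {φ F : C(unitInterval, ℂ) → ℝ} {L K : NNReal} (h1 : LipschitzWith L φ) (h2 : LipschitzWith K F)
    (b1 : ∀ γ, |φ γ| ≤ 1) (b2 : ∀ γ, |F γ| ≤ 1) : LipschitzWith (L + K) fun γ => φ γ * F γ := by
  refine LipschitzWith.of_dist_le_mul fun x y => ?_
  have a1 := h1.dist_le_mul x y
  have a2 := h2.dist_le_mul x y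
  rw [Real.dist_eq] at a1 a2 ⊢
  have e : φ x * F x - φ y * F y = (φ x - φ y) * F x + φ y * (F x - F y) := by ring
  rw [e]
  refine (abs_add_le _ _).trans ?_
  rw [abs_mul, abs_mul]
  have e1 := mul_le_of_le_one_right (abs_nonneg (φ x - φ y)) (b2 x)
  have e2 := mul_le_of_le_one_left (abs_nonneg (F x - F y)) (b1 y)
  push_cast
  linarith

/-- **mixing at the two tips** -/
theorem mix2 {ε : ℝ} (hε : 0 < ε) (K : NNReal) : ∃ δ : ℝ, 0 < δ ∧ δ ≤ 1 ∧ ∀ L : NNReal, ∃ δ' : ℝ, 0 < δ' ∧ δ' ≤ 1 ∧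
    ∀ n m m' : ℕ, 1 ≤ n → (m : ℝ) ≤ δ * n → (m' : ℝ) ≤ δ' * n →
      ∀ Gp Gq : (Fin n → Fin 3) → ℝ, (∀ s, |Gp s| ≤ 1) → (∀ s, |Gq s| ≤ 1) →
        NearS n m ε Gp → NearL n L ε Gp → NearE n m' ε Gq →
          ∀ F : C(unitInterval, ℂ) → ℝ, LipschitzWith K F → (∀ γ, |F γ| ≤ 1) →
            |mean n (fun s => Gp s * Gq s * F (curve s)) - mean n Gp * mean n Gq * mean n (fun s => F (curve s))| ≤ 8 * ε := by
  obtain ⟨δ, hδ, hδ1, hS⟩ := mix1 hε K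
  refine ⟨δ, hδ, hδ1, fun L => ?_⟩
  obtain ⟨δ', hδ', hδ1', hE⟩ := mix1E hε (L + K)
  refine ⟨δ', hδ', hδ1', fun n m m' hn hm hm' Gp Gq bp bq => ?_⟩
  rintro ⟨Φ, hΦ, bΦ, dΦ⟩ ⟨φ, hφ, bφ, dφ⟩ ⟨Ψ, hΨ, bΨ, dΨ⟩ F hF bF
  have b2 : ∀ {a b : ℝ}, |a| ≤ 1 → |b| ≤ 1 → |a * b| ≤ 1 := fun {a b} ha hb => by
    rw [abs_mul]
    nlinarith [abs_nonneg a, abs_nonneg b]
  -- Gq → Ψ
  have s1 := mean_dist (h := fun s => Gp s * F (curve s)) dΨ fun s => b2 (bp s) (bF _)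
  -- Gp → φ
  have s2 := mean_dist (h := fun s => Ψ s * F (curve s)) dφ fun s => b2 (bΨ s) (bF _)
  -- mixing at the end
  have s3 := hE n m' hn hm' (fun γ => φ γ * F γ) (lip_mul hφ hF bφ bF) (fun γ => b2 (bφ γ) (bF γ)) Ψ hΨ bΨ
  -- φ → Gp
  have s4 := mean_dist (h := fun s => F (curve s)) dφ fun s => bF _
  -- Gp → Φ
  have s5 := mean_dist (h := fun s => F (curve s)) dΦ fun s => bF _
  -- mixing at the start
  have s6 := hS n m hn hm F hF bF Φ hΦ bΦ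
  have s7 := mean_dist1 dΦ
  have s8 := mean_dist1 dΨ
  have m1 : |mean n Ψ| ≤ 1 := abs_mean_le zero_le_one fun s _ => bΨ s
  have m2 : |mean n Gp| ≤ 1 := abs_mean_le zero_le_one fun s _ => bp s
  have m3 : |mean n fun s => F (curve s)| ≤ 1 := abs_mean_le zero_le_one fun s _ => bF _
  obtain ⟨A0, hA0⟩ : ∃ A, A = mean n (fun s => Gp s * Gq s * F (curve s)) := ⟨_, rfl⟩
  obtain ⟨A1, hA1⟩ : ∃ A, A = mean n (fun s => Ψ s * (Gp s * F (curve s))) := ⟨_, rfl⟩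
  obtain ⟨A2, hA2⟩ : ∃ A, A = mean n (fun s => Ψ s * (φ (curve s) * F (curve s))) := ⟨_, rfl⟩
  obtain ⟨A3, hA3⟩ : ∃ A, A = mean n (fun s => φ (curve s) * F (curve s)) := ⟨_, rfl⟩
  obtain ⟨A4, hA4⟩ : ∃ A, A = mean n (fun s => Gp s * F (curve s)) := ⟨_, rfl⟩
  obtain ⟨A5, hA5⟩ : ∃ A, A = mean n (fun s => Φ s * F (curve s)) := ⟨_, rfl⟩
  obtain ⟨f, hf⟩ : ∃ A, A = mean n (fun s => F (curve s)) := ⟨_, rfl⟩
  obtain ⟨gp, hgp⟩ : ∃ A, A = mean n Gp := ⟨_, rfl⟩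
  obtain ⟨gq, hgq⟩ : ∃ A, A = mean n Gq := ⟨_, rfl⟩
  obtain ⟨ph, hph⟩ : ∃ A, A = mean n Φ := ⟨_, rfl⟩
  obtain ⟨ps, hps⟩ : ∃ A, A = mean n Ψ := ⟨_, rfl⟩
  have e1 : (fun s => Gq s * (Gp s * F (curve s))) = fun s => Gp s * Gq s * F (curve s) := by
    funext s
    ring
  have e2 : (fun s => Gp s * (Ψ s * F (curve s))) = fun s => Ψ s * (Gp s * F (curve s)) := by
    funext s
    ring
  have e3 : (fun s => φ (curve s) * (Ψ s * F (curve s))) = fun s => Ψ s * (φ (curve s) * F (curve s)) := by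
    funext s
    ring
  rw [e1, ← hA0, ← hA1] at s1
  rw [e2, e3, ← hA1, ← hA2] at s2
  rw [← hA2, ← hps, ← hA3] at s3
  rw [← hA4, ← hA3] at s4
  rw [← hA4, ← hA5] at s5
  rw [← hA5, ← hph, ← hf] at s6
  rw [← hgp, ← hph] at s7
  rw [← hgq, ← hps] at s8
  rw [← hps] at m1
  rw [← hgp] at m2
  rw [← hf] at m3
  rw [← hA0, ← hgp, ← hgq, ← hf]
  have t4 : |ps * A3 - ps * A4| ≤ ε := by
    rw [← mul_sub, abs_mul, abs_sub_comm]
    exact (mul_le_of_le_one_left (abs_nonneg _) m1).trans s4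
  have t5 : |ps * A4 - ps * A5| ≤ ε := by
    rw [← mul_sub, abs_mul]
    exact (mul_le_of_le_one_left (abs_nonneg _) m1).trans s5
  have t6 : |ps * A5 - ps * (ph * f)| ≤ ε := by
    rw [← mul_sub, abs_mul]
    exact (mul_le_of_le_one_left (abs_nonneg _) m1).trans s6
  have t7 : |ps * (ph * f) - ps * (gp * f)| ≤ ε := by
    have e : ps * (ph * f) - ps * (gp * f) = (ps * f) * (ph - gp) := by ring
    rw [e, abs_mul, abs_sub_comm ph gp]
    exact (mul_le_of_le_one_left (abs_nonneg _) (b2 m1 m3)).trans s7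
  have t8 : |ps * (gp * f) - gp * gq * f| ≤ ε := by
    have e : ps * (gp * f) - gp * gq * f = (gp * f) * (ps - gq) := by ring
    rw [e, abs_mul, abs_sub_comm ps gq]
    exact (mul_le_of_le_one_left (abs_nonneg _) (b2 m2 m3)).trans s8
  rw [abs_le] at s1 s2 s3 t4 t5 t6 t7 t8 ⊢
  constructor <;> linarith [s1.1, s1.2, s2.1, s2.2, s3.1, s3.2, t4.1, t4.2, t5.1, t5.2, t6.1, t6.2, t7.1, t7.2, t8.1, t8.2]

/-- **the gates cost nothing**: one tip lower bounds suffice -/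
theorem mix3 {ε p : ℝ} (hε : 0 < ε) (hp : 0 < p) (K : NNReal) : ∃ e δ : ℝ, 0 < e ∧ 0 < δ ∧ δ ≤ 1 ∧ ∀ L : NNReal,
    ∃ δ' : ℝ, 0 < δ' ∧ δ' ≤ 1 ∧ ∀ n m m' : ℕ, 1 ≤ n → (m : ℝ) ≤ δ * n → (m' : ℝ) ≤ δ' * n →
      ∀ Gp Gq : (Fin n → Fin 3) → ℝ, (∀ s, |Gp s| ≤ 1) → (∀ s, |Gq s| ≤ 1) → p ≤ mean n Gp → p ≤ mean n Gq →
        NearS n m e Gp → NearL n L e Gp → NearE n m' e Gq →
          p ^ 2 / 2 ≤ mean n (fun s => Gp s * Gq s) ∧
          ∀ F : C(unitInterval, ℂ) → ℝ, LipschitzWith K F → (∀ γ, |F γ| ≤ 1) →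
            |mean n (fun s => Gp s * Gq s * F (curve s)) - mean n (fun s => Gp s * Gq s) * mean n (fun s => F (curve s))| ≤
              ε * mean n (fun s => Gp s * Gq s) := by
  obtain ⟨e, he⟩ : ∃ e : ℝ, e = min (p ^ 2 / 16) (ε * p ^ 2 / 32) := ⟨_, rfl⟩
  have he0 : 0 < e := by rw [he]; positivity
  have he1 : e ≤ p ^ 2 / 16 := by rw [he]; exact min_le_left _ _
  have he2 : e ≤ ε * p ^ 2 / 32 := by rw [he]; exact min_le_right _ _
  obtain ⟨δ, hδ, hδ1, h⟩ := mix2 he0 K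
  refine ⟨e, δ, he0, hδ, hδ1, fun L => ?_⟩
  obtain ⟨δ', hδ', hδ1', h⟩ := h L
  refine ⟨δ', hδ', hδ1', fun n m m' hn hm hm' Gp Gq bp bq pp pq n1 n2 n3 => ?_⟩
  have h1 := h n m m' hn hm hm' Gp Gq bp bq n1 n2 n3 (fun _ => 1) ((LipschitzWith.const 1).weaken bot_le)
    fun _ => by rw [abs_one]
  simp only [mul_one, mean_one] at h1
  have hpq : p ^ 2 ≤ mean n Gp * mean n Gq := by
    rw [sq]
    exact mul_le_mul pp pq hp.le (hp.le.trans pp)
  have h1' := abs_le.1 h1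
  have hlow : p ^ 2 / 2 ≤ mean n (fun s => Gp s * Gq s) := by linarith [h1'.1]
  refine ⟨hlow, fun F hF bF => ?_⟩
  have h2 := h n m m' hn hm hm' Gp Gq bp bq n1 n2 n3 F hF bF
  have m3 : |mean n fun s => F (curve s)| ≤ 1 := abs_mean_le zero_le_one fun s _ => bF _
  obtain ⟨g, hg⟩ : ∃ g, g = mean n (fun s => Gp s * Gq s) := ⟨_, rfl⟩
  obtain ⟨f, hf⟩ : ∃ f, f = mean n (fun s => F (curve s)) := ⟨_, rfl⟩
  obtain ⟨A, hA⟩ : ∃ A, A = mean n (fun s => Gp s * Gq s * F (curve s)) := ⟨_, rfl⟩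
  rw [← hg] at h1 hlow
  rw [← hA, ← hf] at h2
  rw [← hf] at m3
  rw [← hA, ← hg, ← hf]
  have h3 : |mean n Gp * mean n Gq * f - g * f| ≤ 8 * e := by
    rw [← sub_mul, abs_mul, abs_sub_comm]
    exact (mul_le_of_le_one_right (abs_nonneg _) m3).trans h1
  have h4 : |A - g * f| ≤ 16 * e := by
    rw [abs_le] at h2 h3 ⊢
    constructor <;> linarith [h2.1, h2.2, h3.1, h3.2]
  have h5 : ε * (p ^ 2 / 2) ≤ ε * g := mul_le_mul_of_nonneg_left hlow hε.le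
  linarith

/-! ### locality -/

lemma near_of_bad {n : ℕ} {ε : ℝ} {G Φ : (Fin n → Fin 3) → ℝ} {B : Set (Fin n → Fin 3)} (bG : ∀ s, |G s| ≤ 1)
    (bΦ : ∀ s, |Φ s| ≤ 1) (h : ∀ s, s ∉ B → G s = Φ s)
    (hB : (((saw n).filter fun s => s ∈ B).card : ℝ) ≤ ε * ((saw n).card : ℝ)) : mean n (fun s => |G s - Φ s|) ≤ 2 * ε := by
  have h0 : (0 : ℝ) < ((saw n).card : ℝ) := NTSF.saw_card_pos n
  show (∑ s ∈ saw n, |G s - Φ s|) / ((saw n).card : ℝ) ≤ _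
  rw [div_le_iff₀ h0]
  have h1 : ∀ s ∈ saw n, |G s - Φ s| ≤ if s ∈ B then 2 else 0 := by
    intro s _
    split_ifs with hs
    · refine (abs_sub _ _).trans ?_
      linarith [bG s, bΦ s]
    · rw [h s hs, sub_self, abs_zero]
  refine (Finset.sum_le_sum h1).trans ?_
  rw [← Finset.sum_filter, Finset.sum_const, nsmul_eq_mul]
  linarith

/-- **a functional which is a function of the first letters outside of a bad set** -/
theorem locS_of {n m : ℕ} {ε : ℝ} {G : (Fin n → Fin 3) → ℝ} {B : Set (Fin n → Fin 3)} (bG : ∀ s, |G s| ≤ 1)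
    (h : ∀ s s', s ∉ B → s' ∉ B → (∀ i : Fin n, (i : ℕ) < m → s i = s' i) → G s = G s')
    (hB : (((saw n).filter fun s => s ∈ B).card : ℝ) ≤ ε * ((saw n).card : ℝ)) : NearS n m (2 * ε) G := by
  obtain ⟨Φ, hΦ⟩ : ∃ Φ : (Fin n → Fin 3) → ℝ,
      Φ = fun s => if h : ∃ s', s' ∉ B ∧ ∀ i : Fin n, (i : ℕ) < m → s i = s' i then G h.choose else 0 := ⟨_, rfl⟩
  have b1 : ∀ s, |Φ s| ≤ 1 := by
    intro s
    rw [hΦ]
    dsimp only
    split_ifs with hs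
    · exact bG _
    · rw [abs_zero]
      exact zero_le_one
  refine ⟨Φ, ?_, b1, near_of_bad bG b1 (fun s hs => ?_) hB⟩
  · intro s s' hss
    have e : (fun t => t ∉ B ∧ ∀ i : Fin n, (i : ℕ) < m → s i = t i) = fun t => t ∉ B ∧ ∀ i : Fin n, (i : ℕ) < m → s' i = t i := by
      funext t
      refine propext (and_congr_right fun _ => forall₂_congr fun i hi => ?_)
      rw [hss i hi]
    rw [hΦ]
    dsimp only
    simp only [e]
  · have he : ∃ s', s' ∉ B ∧ ∀ i : Fin n, (i : ℕ) < m → s i = s' i := ⟨s, hs, fun _ _ => rfl⟩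
    rw [hΦ]
    dsimp only
    rw [dif_pos he]
    exact h _ _ hs he.choose_spec.1 he.choose_spec.2

/-- **a functional which is a function of the last letters outside of a bad set** -/
theorem locE_of {n m : ℕ} {ε : ℝ} {G : (Fin n → Fin 3) → ℝ} {B : Set (Fin n → Fin 3)} (bG : ∀ s, |G s| ≤ 1)
    (h : ∀ s s', s ∉ B → s' ∉ B → (∀ i : Fin n, n ≤ (i : ℕ) + m → s i = s' i) → G s = G s')
    (hB : (((saw n).filter fun s => s ∈ B).card : ℝ) ≤ ε * ((saw n).card : ℝ)) : NearE n m (2 * ε) G := by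
  obtain ⟨Φ, hΦ⟩ : ∃ Φ : (Fin n → Fin 3) → ℝ,
      Φ = fun s => if h : ∃ s', s' ∉ B ∧ ∀ i : Fin n, n ≤ (i : ℕ) + m → s i = s' i then G h.choose else 0 := ⟨_, rfl⟩
  have b1 : ∀ s, |Φ s| ≤ 1 := by
    intro s
    rw [hΦ]
    dsimp only
    split_ifs with hs
    · exact bG _
    · rw [abs_zero]
      exact zero_le_one
  refine ⟨Φ, ?_, b1, near_of_bad bG b1 (fun s hs => ?_) hB⟩
  · intro s s' hss
    have e : (fun t => t ∉ B ∧ ∀ i : Fin n, n ≤ (i : ℕ) + m → s i = t i) =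
        fun t => t ∉ B ∧ ∀ i : Fin n, n ≤ (i : ℕ) + m → s' i = t i := by
      funext t
      refine propext (and_congr_right fun _ => forall₂_congr fun i hi => ?_)
      rw [hss i hi]
    rw [hΦ]
    dsimp only
    simp only [e]
  · have he : ∃ s', s' ∉ B ∧ ∀ i : Fin n, n ≤ (i : ℕ) + m → s i = s' i := ⟨s, hs, fun _ _ => rfl⟩
    rw [hΦ]
    dsimp only
    rw [dif_pos he]
    exact h _ _ hs he.choose_spec.1 he.choose_spec.2

/-- no return to the start -/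
theorem farS {τ ε : ℝ} (hτ : 0 < τ) (hε : 0 < ε) : ∃ κ : ℝ, 0 < κ ∧ ∃ n0 : ℕ, ∀ n : ℕ, n0 ≤ n →
    (((saw n).filter fun s => ∃ j : ℕ, τ * n ≤ j ∧ j ≤ n ∧ ‖pos s j‖ ≤ κ * size n).card : ℝ) ≤ ε * ((saw n).card : ℝ) := by
  rcases lt_or_ge τ 1 with h1 | h1
  · exact Pool.Agent.SCF.Z.far1 τ ε hτ h1 hε
  · obtain ⟨κ, hκ, n0, h⟩ := Pool.Agent.SCF.Z.far1 (1 / 2) ε (by norm_num) (by norm_num) hε
    refine ⟨κ, hκ, n0, fun n hn => le_trans ?_ (h n hn)⟩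
    refine Nat.cast_le.2 (Finset.card_le_card fun s hs => ?_)
    rw [Finset.mem_filter] at hs ⊢
    obtain ⟨hs, j, h2, h3, h4⟩ := hs
    refine ⟨hs, j, le_trans ?_ h2, h3, h4⟩
    have : (0 : ℝ) ≤ n := Nat.cast_nonneg n
    nlinarith

open HexObs.SIM (rv rv_rv pos_rv rv_mem) in
/-- no return to the end -/
theorem farE {τ ε : ℝ} (hτ : 0 < τ) (hε : 0 < ε) : ∃ κ : ℝ, 0 < κ ∧ ∃ n0 : ℕ, ∀ n : ℕ, n0 ≤ n →
    (((saw n).filter fun s => ∃ j : ℕ, (j : ℝ) ≤ (1 - τ) * n ∧ ‖pos s j - pos s n‖ ≤ κ * size n).card : ℝ) ≤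
      ε * ((saw n).card : ℝ) := by
  obtain ⟨κ, hκ, n0, h⟩ := farS hτ hε
  refine ⟨κ, hκ, n0, fun n hn => le_trans ?_ (h n hn)⟩
  refine Nat.cast_le.2 (Finset.card_le_card_of_injOn rv (fun s hs => ?_) fun s _ s' _ hss => ?_)
  · rw [Finset.mem_coe, Finset.mem_filter] at hs ⊢
    obtain ⟨hs, j, h2, h4⟩ := hs
    have hn0 : (0 : ℝ) ≤ n := Nat.cast_nonneg n
    have hj : j ≤ n := by
      have : (j : ℝ) ≤ n := by nlinarith
      exact_mod_cast this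
    refine ⟨rv_mem hs, n - j, ?_, Nat.sub_le _ _, ?_⟩
    · rw [Nat.cast_sub hj]
      linarith
    · rw [pos_rv s (Nat.sub_le _ _), Nat.sub_sub_self hj, norm_mul, norm_pow, norm_neg, norm_one, one_pow, one_mul]
      exact h4
  · have := congrArg rv hss
    rwa [rv_rv, rv_rv] at this

end Pool.Agent.ROT.F3

end
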