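import Pool.Agent.ROT.F3Top
import Pool.Agent.ROT.F3App
import Pool.Agent.ROT.F3W9

/-!
# ROT, F3, row R11 (helper51): the relative mass of the bad sets

`wm th m` = the measure `m` of the rests with the weight `ct (4 th)` of the duration.
* `open_lim` : open sets in the limit;
* **`rel_one`** : one scale: if for every number of steps in `[N/2, 2N]` the proportion of the walks with a marked rest in `O` is at
  most `e2`, then the weighted mass of `O` is at most `e2 * Cw / p1` times the mass of the durations near 1;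
* **`rel_lim`** : the same in the limit, for open sets.
-/

set_option autoImplicit false

noncomputable section

open MeasureTheory Filter Topology Set
open scoped ENNReal NNReal BoundedContinuousFunction Classical

namespace Pool.Agent.ROT.F3E

open Pool.Agent.NTS.Res Pool.Agent.CRT Pool.Agent.ROT.F3

/-! ### 1. measure theory -/

/-- the weighted measure -/
def wm (th : ℝ) (m : Measure (CI3 × ℝ)) : Measure (CI3 × ℝ) := m.withDensity fun x => ENNReal.ofReal (ct (4 * th) x.2)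

lemma ctm (th : ℝ) : Measurable fun x : CI3 × ℝ => ct th x.2 := (ct_cont th).measurable.comp measurable_snd

instance wm_fin (th : ℝ) (m : Measure (CI3 × ℝ)) [IsFiniteMeasure m] : IsFiniteMeasure (wm th m) := by
  refine isFiniteMeasure_withDensity (lt_of_le_of_lt (lintegral_mono (g := fun _ => 1) fun x => ?_) ?_).ne
  · exact ENNReal.ofReal_le_one.2 (ct_le_one _ _)
  · rw [lintegral_one]
    exact measure_lt_top _ _

lemma int_wm (th : ℝ) (m : Measure (CI3 × ℝ)) (f : CI3 × ℝ → ℝ) : ∫ x, f x ∂(wm th m) = ∫ x, f x * ct (4 * th) x.2 ∂m := by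
  unfold wm
  rw [integral_withDensity_eq_integral_toReal_smul₀ (ctm (4 * th)).ennreal_ofReal.aemeasurable
    (Eventually.of_forall fun x => ENNReal.ofReal_lt_top)]
  refine integral_congr_ae (Eventually.of_forall fun x => ?_)
  show (ENNReal.ofReal (ct (4 * th) x.2)).toReal • f x = f x * ct (4 * th) x.2
  rw [ENNReal.toReal_ofReal (ct_nonneg _ _), smul_eq_mul, mul_comm]

lemma real_wm (th : ℝ) (m : Measure (CI3 × ℝ)) {O : Set (CI3 × ℝ)} (hO : MeasurableSet O) :
    (wm th m).real O = ∫ x, O.indicator (fun _ => (1 : ℝ)) x * ct (4 * th) x.2 ∂m := by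
  rw [← int_wm]
  exact (integral_indicator_one hO).symm

lemma lim_wm {U : Filter ℕ} {mN : ℕ → Measure (CI3 × ℝ)} {m : Measure (CI3 × ℝ)} (th : ℝ)
    (hm : ∀ g : (CI3 × ℝ) →ᵇ ℝ, Tendsto (fun N => ∫ x, g x ∂(mN N)) U (𝓝 (∫ x, g x ∂m))) (g : (CI3 × ℝ) →ᵇ ℝ) :
    Tendsto (fun N => ∫ x, g x ∂(wm th (mN N))) U (𝓝 (∫ x, g x ∂(wm th m))) := by
  simp only [int_wm]
  have h := hm (g * hct (4 * th))
  simpa only [BoundedContinuousFunction.coe_mul, Pi.mul_apply, hct_apply] using h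

/-- **open sets in the limit** -/
theorem open_lim {U : Filter ℕ} [U.NeBot] {mN : ℕ → Measure (CI3 × ℝ)} {m : Measure (CI3 × ℝ)} [IsFiniteMeasure m]
    [∀ N, IsFiniteMeasure (mN N)]
    (hm : ∀ g : (CI3 × ℝ) →ᵇ ℝ, Tendsto (fun N => ∫ x, g x ∂(mN N)) U (𝓝 (∫ x, g x ∂m))) {O : Set (CI3 × ℝ)}
    (hO : IsOpen O) {a : ℕ → ℝ} {a0 : ℝ} (ha : Tendsto a U (𝓝 a0)) (h : ∀ᶠ N in U, (mN N).real O ≤ a N) : m.real O ≤ a0 := by
  refine le_of_forall_pos_le_add fun ε hε => ?_
  obtain ⟨K, hKO, hK, hKm⟩ := hO.measurableSet.exists_isClosed_lt_add (μ := m) (measure_ne_top _ _)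
    (ENNReal.ofReal_pos.2 hε).ne'
  obtain ⟨f, f0, f1, f01⟩ := exists_continuous_zero_one_of_isClosed hO.isClosed_compl hK
    (Set.disjoint_left.2 fun x hx hx' => hx (hKO hx'))
  obtain ⟨g, hg⟩ : ∃ g : (CI3 × ℝ) →ᵇ ℝ, ∀ x, g x = f x := by
    refine ⟨BoundedContinuousFunction.ofNormedAddCommGroup f f.continuous 1 fun x => ?_, fun x => rfl⟩
    rw [Real.norm_eq_abs, abs_of_nonneg (f01 x).1]
    exact (f01 x).2
  have h1 : m.real K ≤ ∫ x, g x ∂m := by
    have e : ∫ x, K.indicator (fun _ => (1 : ℝ)) x ∂m = m.real K := integral_indicator_one hK.measurableSet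
    rw [← e]
    refine integral_mono ((integrable_const _).indicator hK.measurableSet) (g.integrable m) fun x => ?_
    by_cases hx : x ∈ K
    · rw [indicator_of_mem hx, hg, f1 hx]
      rfl
    · rw [indicator_of_notMem hx, hg]
      exact (f01 x).1
  have h2 : ∀ N, ∫ x, g x ∂(mN N) ≤ (mN N).real O := by
    intro N
    have e : ∫ x, O.indicator (fun _ => (1 : ℝ)) x ∂(mN N) = (mN N).real O := integral_indicator_one hO.measurableSet
    rw [← e]
    refine integral_mono (g.integrable _) ((integrable_const _).indicator hO.measurableSet) fun x => ?_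
    by_cases hx : x ∈ O
    · rw [indicator_of_mem hx, hg]
      exact (f01 x).2
    · rw [indicator_of_notMem hx, hg, f0 hx]
      rfl
  have h3 : ∫ x, g x ∂m ≤ a0 := le_of_tendsto_of_tendsto (hm g) ha (h.mono fun N hN => (h2 N).trans hN)
  have h4 : m.real O ≤ m.real K + ε := by
    have h5 : (m O).toReal ≤ (m K + ENNReal.ofReal ε).toReal :=
      ENNReal.toReal_mono (by finiteness) hKm.le
    rw [ENNReal.toReal_add (measure_ne_top _ _) ENNReal.ofReal_ne_top, ENNReal.toReal_ofReal hε.le] at h5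
    exact h5
  linarith

/-! ### 2. one scale -/

/-- a marked rest of the walk `s` is in `O` -/
def Bdo (G : W3 → ℕ → ℕ → ℝ) (N : ℕ) (O : Set (CI3 × ℝ)) {n : ℕ} (s : Fin n → Fin 3) : Prop :=
  ∃ i j : ℕ, G (List.ofFn s) i j ≠ 0 ∧ (crv ((List.ofFn s).drop i) (j - i) (size N), ((j - i : ℕ) : ℝ) / N) ∈ O

/-- the numbers of steps near `N` -/
def W2 (N : ℕ) : Finset ℕ := (Finset.range (2 * N + 1)).filter fun n => N ≤ 2 * n

theorem rel_one {th e p1 e2 Cw : ℝ} (hth : 0 < th) (hth16 : th ≤ 1 / 16) (he : e ≤ 1) (hp1 : 0 < p1) (he2 : 0 ≤ e2) {N : ℕ}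
    (hN : 1 ≤ N) {C : WCls} {c : ℝ≥0∞} (c0 : c ≠ 0) (c1 : c ≠ ∞) (hG : Gb e th (C.G N fun _ => 1) N)
    (hlow : p1 * ∑ n ∈ Wn N (2 * th), aN n ≤ SS (C.G N fun _ => 1) N th fun _ => 1)
    (hCw : ∑ n ∈ W2 N, aN n ≤ Cw * ∑ n ∈ Wn N (2 * th), aN n) (hW : 0 < ∑ n ∈ Wn N (2 * th), aN n)
    {O : Set (CI3 × ℝ)} (hO : MeasurableSet O)
    (h1 : ∀ n ∈ W2 N, (((saw n).filter fun s => Bdo (C.G N fun _ => 1) N O s).card : ℝ) ≤ e2 * (saw n).card) :
    (wm th (C.rm N c)).real O ≤ e2 * Cw / p1 * ∫ x, ct th x.2 ∂(C.rm N c) := by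
  rw [real_wm th _ hO]
  have hN0 : (0 : ℝ) < N := by exact_mod_cast hN
  have mH : Measurable fun x : CI3 × ℝ => O.indicator (fun _ => (1 : ℝ)) x * ct (4 * th) x.2 :=
    (measurable_const.indicator hO).mul (ctm _)
  have bH0 : ∀ (γ : CI3) (t : ℝ), 0 ≤ O.indicator (fun _ => (1 : ℝ)) (γ, t) * ct (4 * th) t := fun γ t =>
    mul_nonneg (indicator_nonneg (fun _ _ => zero_le_one) _) (ct_nonneg _ _)
  have bH1 : ∀ (γ : CI3) (t : ℝ), O.indicator (fun _ => (1 : ℝ)) (γ, t) * ct (4 * th) t ≤ 1 := fun γ t => by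
    have h2 : O.indicator (fun _ => (1 : ℝ)) (γ, t) ≤ 1 := by
      by_cases h : (γ, t) ∈ O
      · rw [indicator_of_mem h]
      · rw [indicator_of_notMem h]
        exact zero_le_one
    exact mul_le_one₀ h2 (ct_nonneg _ _) (ct_le_one _ _)
  obtain ⟨A, hA⟩ : ∃ A : ℝ, A = (ms C.T fun a => ENNReal.ofReal (C.f a)).toReal *
    (ms C.T' fun a => ENNReal.ofReal (C.f' a)).toReal / c.toReal := ⟨_, rfl⟩
  have hA0 : 0 ≤ A := by
    rw [hA]
    exact div_nonneg (mul_nonneg ENNReal.toReal_nonneg ENNReal.toReal_nonneg) ENNReal.toReal_nonneg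
  obtain ⟨s1, e1⟩ := tsum_SG C.cl C.nf C.nw C.nf' (ψ := fun _ => (1 : ℝ)) (fun _ => zero_le_one) (C := 1) measurable_const
    (fun _ => le_rfl) C.fT C.fR C.fT' N c0 c1 (H := fun γ t => O.indicator (fun _ => (1 : ℝ)) (γ, t) * ct (4 * th) t)
    bH0 (fun γ t => (bH1 γ t).trans one_le_two) mH
  have e2' := SS_rm C.cl C.nf C.nw C.nf' (ψ := fun _ => (1 : ℝ)) (fun _ => zero_le_one) (C := 1) measurable_const
    (fun _ => le_rfl) C.fT C.fR C.fT' N c0 c1 th (F := fun _ => 1) continuous_const (fun _ => by rw [abs_one])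
  rw [← hA] at e1 e2'
  obtain ⟨G, hGe⟩ : ∃ G, G = C.G N fun _ => 1 := ⟨_, rfl⟩
  have e3 : SS G N th (fun _ => 1) = A * ∫ x, ct th x.2 ∂(C.rm N c) := by
    rw [hGe]
    refine e2'.trans ?_
    congr 1
    refine integral_congr_ae (Eventually.of_forall fun x => ?_)
    show 1 * Hb (fun _ => 1) _ _ th x = ct th x.2
    rw [Hb_apply, one_mul, one_mul]
  have e4 : ∑' n, SG G N (fun γ t => O.indicator (fun _ => (1 : ℝ)) (γ, t) * ct (4 * th) t) n =
      A * ∫ x, O.indicator (fun _ => (1 : ℝ)) x * ct (4 * th) x.2 ∂(C.rm N c) := by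
    rw [hGe]
    refine e1.trans ?_
    congr 1
    refine integral_congr_ae (Eventually.of_forall fun x => ?_)
    show 1 * _ = _
    rw [one_mul]
  rw [← hGe] at hG hlow h1
  -- every number of steps
  have key : ∀ n, SG G N (fun γ t => O.indicator (fun _ => (1 : ℝ)) (γ, t) * ct (4 * th) t) n ≤
      if n ∈ W2 N then e2 * aN n else 0 := by
    intro n
    have hz : ∀ s ∈ saw n, ∀ i j : ℕ, G (List.ofFn s) i j * (O.indicator (fun _ => (1 : ℝ))
        (crv ((List.ofFn s).drop i) (j - i) (size N), ((j - i : ℕ) : ℝ) / N) * ct (4 * th) (((j - i : ℕ) : ℝ) / N)) ≠ 0 →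
        n ∈ W2 N ∧ Bdo G N O s := by
      intro s hs i j h
      have g0 : G (List.ofFn s) i j ≠ 0 := left_ne_zero_of_mul h
      have g1 := right_ne_zero_of_mul h
      have g2 := left_ne_zero_of_mul g1
      have g3 := right_ne_zero_of_mul g1
      have gO : (crv ((List.ofFn s).drop i) (j - i) (size N), ((j - i : ℕ) : ℝ) / N) ∈ O := by
        by_contra hc
        exact g2 (indicator_of_notMem hc _)
      refine ⟨?_, i, j, g0, gO⟩
      obtain ⟨-, hij, hj, hi, hn⟩ := hG.supp _ i j (SW_ofFn s |>.2 hs) g0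
      rw [List.length_ofFn] at hj hn
      have g4 : |((j - i : ℕ) : ℝ) / N - 1| < 4 * th := by
        by_contra hc
        exact g3 (ct_zero (by positivity) (not_lt.1 hc))
      rw [Nat.cast_sub hij] at g4
      rw [abs_lt] at g4
      have g5 : ((j : ℝ) - i) / N < 1 + 4 * th := by linarith [g4.2]
      have g6 : 1 - 4 * th < ((j : ℝ) - i) / N := by linarith [g4.1]
      rw [div_lt_iff₀ hN0] at g5
      rw [lt_div_iff₀ hN0] at g6
      have g7 : e * th * N ≤ th * N := by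
        have : e * (th * N) ≤ 1 * (th * N) := mul_le_mul_of_nonneg_right he (by positivity)
        linarith
      have g8 : th * N ≤ 1 / 16 * N := mul_le_mul_of_nonneg_right hth16 hN0.le
      have hjr : (j : ℝ) ≤ n := by exact_mod_cast hj
      unfold W2
      rw [Finset.mem_filter, Finset.mem_range]
      constructor
      · have : (n : ℝ) < 2 * N + 1 := by nlinarith
        exact_mod_cast this
      · have : (N : ℝ) ≤ 2 * n := by
          have hi0 : (0 : ℝ) ≤ i := Nat.cast_nonneg i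
          nlinarith
        exact_mod_cast this
    have hs : ∀ s ∈ saw n, ∑ i ∈ Finset.range (n + 1), ∑ j ∈ Finset.range (n + 1), G (List.ofFn s) i j *
        (O.indicator (fun _ => (1 : ℝ)) (crv ((List.ofFn s).drop i) (j - i) (size N), ((j - i : ℕ) : ℝ) / N) *
          ct (4 * th) (((j - i : ℕ) : ℝ) / N)) ≤ if n ∈ W2 N ∧ Bdo G N O s then 1 else 0 := by
      intro s hs
      split_ifs with hb
      · refine le_trans (Finset.sum_le_sum fun i _ => Finset.sum_le_sum fun j _ => ?_) ((Gam_ofFn G s).symm.le.trans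
          (hG.one _ (SW_ofFn s |>.2 hs)))
        exact mul_le_of_le_one_right (hG.nn _ _ _) (bH1 _ _)
      · refine le_of_eq (Finset.sum_eq_zero fun i _ => Finset.sum_eq_zero fun j _ => ?_)
        by_contra hc
        exact hb (hz s hs i j hc)
    unfold SG
    refine (mul_le_mul_of_nonneg_left (Finset.sum_le_sum hs) (fug_nn n)).trans ?_
    by_cases hn : n ∈ W2 N
    · simp only [hn, true_and, if_true]
      rw [← Finset.sum_filter, Finset.sum_const, nsmul_eq_mul, mul_one]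
      have h3 := mul_le_mul_of_nonneg_left (h1 n hn) (fug_nn n)
      refine h3.trans (le_of_eq ?_)
      unfold aN
      ring
    · simp only [hn, false_and, if_false]
      rw [Finset.sum_const_zero, mul_zero]
  have h5 : A * ∫ x, O.indicator (fun _ => (1 : ℝ)) x * ct (4 * th) x.2 ∂(C.rm N c) ≤ e2 * ∑ n ∈ W2 N, aN n := by
    rw [← e4]
    have s2 : Summable fun n => if n ∈ W2 N then e2 * aN n else 0 := by
      refine summable_of_ne_finset_zero (s := W2 N) fun n hn => ?_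
      rw [if_neg hn]
    have s1' : Summable (SG G N fun γ t => O.indicator (fun _ => (1 : ℝ)) (γ, t) * ct (4 * th) t) := by
      rw [hGe]
      exact s1
    refine (s1'.tsum_le_tsum key s2).trans ?_
    rw [tsum_eq_sum (s := W2 N) fun n hn => if_neg hn, Finset.mul_sum]
    exact le_of_eq (Finset.sum_congr rfl fun n hn => if_pos hn)
  rw [e3] at hlow
  have hA1 : 0 < A := by
    rcases hA0.lt_or_eq with h | h
    · exact h
    · rw [← h, zero_mul] at hlow
      have : 0 < p1 * ∑ n ∈ Wn N (2 * th), aN n := by positivity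
      linarith
  have h6 : A * ∫ x, O.indicator (fun _ => (1 : ℝ)) x * ct (4 * th) x.2 ∂(C.rm N c) ≤
      A * (e2 * Cw / p1 * ∫ x, ct th x.2 ∂(C.rm N c)) := by
    refine h5.trans ((mul_le_mul_of_nonneg_left hCw he2).trans ?_)
    have hCw0 : 0 ≤ Cw := by
      by_contra hc
      have h7 : 0 ≤ ∑ n ∈ W2 N, aN n := Finset.sum_nonneg fun n _ => aN_nonneg n
      have h8 := mul_neg_of_neg_of_pos (not_le.1 hc) hW
      linarith
    have h7 : e2 * Cw / p1 * (p1 * ∑ n ∈ Wn N (2 * th), aN n) ≤ e2 * Cw / p1 * (A * ∫ x, ct th x.2 ∂(C.rm N c)) :=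
      mul_le_mul_of_nonneg_left hlow (by positivity)
    have h8 : e2 * Cw / p1 * (p1 * ∑ n ∈ Wn N (2 * th), aN n) = e2 * (Cw * ∑ n ∈ Wn N (2 * th), aN n) := by
      field_simp
    rw [h8] at h7
    refine h7.trans (le_of_eq ?_)
    ring
  exact le_of_mul_le_mul_left h6 hA1

/-! ### 3. the limit -/

/-- **the relative mass of an open set in the limit** -/
theorem rel_lim {th e p1 e2 Cw : ℝ} (hth : 0 < th) (hth16 : th ≤ 1 / 16) (he : e ≤ 1) (hp1 : 0 < p1) (he2 : 0 ≤ e2)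
    {U : Filter ℕ} [U.NeBot] (hU : U ≤ atTop) {C : ℕ → WCls} {c : ℕ → ℝ≥0∞} (c0 : ∀ N, c N ≠ 0) (c1 : ∀ N, c N ≠ ∞)
    {m : Measure (CI3 × ℝ)} [IsFiniteMeasure m]
    (hm : ∀ g : (CI3 × ℝ) →ᵇ ℝ, Tendsto (fun N => ∫ x, g x ∂((C N).rm N (c N))) U (𝓝 (∫ x, g x ∂m)))
    (hG : ∀ᶠ N in U, Gb e th ((C N).G N fun _ => 1) N)
    (hlow : ∀ᶠ N in U, p1 * ∑ n ∈ Wn N (2 * th), aN n ≤ SS ((C N).G N fun _ => 1) N th fun _ => 1)
    (hCw : ∀ᶠ N in U, ∑ n ∈ W2 N, aN n ≤ Cw * ∑ n ∈ Wn N (2 * th), aN n ∧ 0 < ∑ n ∈ Wn N (2 * th), aN n)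
    {O : Set (CI3 × ℝ)} (hO : IsOpen O)
    (h1 : ∀ᶠ N in U, ∀ n ∈ W2 N, (((saw n).filter fun s => Bdo ((C N).G N fun _ => 1) N O s).card : ℝ) ≤ e2 * (saw n).card) :
    (wm th m).real O ≤ e2 * Cw / p1 * ∫ x, ct th x.2 ∂m := by
  have : ∀ N, IsFiniteMeasure ((C N).rm N (c N)) := fun N => (C N).fin N (c1 N)
  have h2 : Tendsto (fun N => e2 * Cw / p1 * ∫ x, ct th x.2 ∂((C N).rm N (c N))) U (𝓝 (e2 * Cw / p1 * ∫ x, ct th x.2 ∂m)) := by
    have h3 := hm (hct th)
    simp only [hct_apply] at h3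
    exact h3.const_mul _
  refine open_lim (lim_wm th hm) hO h2 ?_
  filter_upwards [hG, hlow, hCw, h1, hU (eventually_ge_atTop 1)] with N a1 a2 a3 a4 a5
  exact rel_one hth hth16 he hp1 he2 a5 (c0 N) (c1 N) a1 a2 a3.1 a3.2 hO.measurableSet a4

end Pool.Agent.ROT.F3E

end
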