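import Pool.Agent.ROT.F3AppW
import Pool.Agent.CRT.Mass

/-!
# ROT, F3, row R11 (helper51): late returns and far ends have a small relative mass

* `cw_ex` : the numbers of steps in `[N/2, 2N]` have a mass comparable with the window around `N`;
* `LateO τ κ`, `rvr ⁻¹' LateO τ κ`, `FarO D` : late returns to the start, to the end, far ends; open sets of rests;
* **`late_cnt`, `lateE_cnt`, `far_cnt`** : the walks with a marked rest in these sets have a small share;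
* `LimC` : the classes along `U` and their limit; **`late_lim`, `lateE_lim`, `far_lim`** : their relative weighted masses are small.
-/

set_option autoImplicit false

noncomputable section

open MeasureTheory Filter Topology Set
open scoped ENNReal NNReal BoundedContinuousFunction Classical

namespace Pool.Agent.ROT.F3E

open Pool.Agent.NTS.Res Pool.Agent.CRT Pool.Agent.ROT.F3

/-! ### 1. numbers -/

theorem cw_ex {th : ℝ} (hth : 0 < th) (h16 : th ≤ 1 / 16) : ∃ Cw : ℝ, 0 < Cw ∧ ∀ᶠ N : ℕ in atTop,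
    ∑ n ∈ W2 N, aN n ≤ Cw * ∑ n ∈ Wn N (2 * th), aN n ∧ 0 < ∑ n ∈ Wn N (2 * th), aN n := by
  obtain ⟨c, C, hc, hC, h⟩ := _root_.CRT.Mass.aN_bounds
  refine ⟨6 * C / (c * th), by positivity, ?_⟩
  filter_upwards [eventually_ge_atTop (max 2 ⌈1 / th⌉₊)] with N hN
  have hN2 : 2 ≤ N := (le_max_left _ _).trans hN
  have hN0 : (0 : ℝ) < N := by exact_mod_cast (show 0 < N by omega)
  have hN1 : (1 : ℝ) ≤ N := by exact_mod_cast (show 1 ≤ N by omega)
  have hNp : (0 : ℝ) < (N : ℝ) ^ (11 / 32 : ℝ) := Real.rpow_pos_of_pos hN0 _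
  have up : ∑ n ∈ W2 N, aN n ≤ 6 * C * (N * (N : ℝ) ^ (11 / 32 : ℝ)) := by
    have h1 : ∀ n ∈ W2 N, aN n ≤ 2 * C * (N : ℝ) ^ (11 / 32 : ℝ) := by
      intro n hn
      unfold W2 at hn
      rw [Finset.mem_filter, Finset.mem_range] at hn
      have hn1 : 1 ≤ n := by omega
      have hn2 : (n : ℝ) ≤ 2 * N := by exact_mod_cast (show n ≤ 2 * N by omega)
      refine (h n hn1).2.trans ?_
      have h2 : (n : ℝ) ^ (11 / 32 : ℝ) ≤ (2 * (N : ℝ)) ^ (11 / 32 : ℝ) :=
        Real.rpow_le_rpow (Nat.cast_nonneg _) hn2 (by norm_num)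
      have h3 : (2 : ℝ) ^ (11 / 32 : ℝ) ≤ 2 := by
        have := Real.rpow_le_rpow_of_exponent_le (x := 2) one_le_two (show (11 / 32 : ℝ) ≤ 1 by norm_num)
        rwa [Real.rpow_one] at this
      rw [Real.mul_rpow zero_le_two hN0.le] at h2
      have h4 : (2 : ℝ) ^ (11 / 32 : ℝ) * (N : ℝ) ^ (11 / 32 : ℝ) ≤ 2 * (N : ℝ) ^ (11 / 32 : ℝ) :=
        mul_le_mul_of_nonneg_right h3 hNp.le
      have h5 := mul_le_mul_of_nonneg_left (h2.trans h4) hC.le
      linarith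
    refine (Finset.sum_le_sum h1).trans ?_
    rw [Finset.sum_const, nsmul_eq_mul]
    have h6 : ((W2 N).card : ℝ) ≤ 3 * N := by
      have : (W2 N).card ≤ 2 * N + 1 := by
        unfold W2
        exact (Finset.card_filter_le _ _).trans (Finset.card_range _).le
      have : ((W2 N).card : ℝ) ≤ 2 * N + 1 := by exact_mod_cast this
      linarith
    have h7 := mul_le_mul_of_nonneg_right h6 (show 0 ≤ 2 * C * (N : ℝ) ^ (11 / 32 : ℝ) by positivity)
    refine h7.trans (le_of_eq ?_)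
    ring
  have low : c * th * (N * (N : ℝ) ^ (11 / 32 : ℝ)) ≤ ∑ n ∈ Wn N (2 * th), aN n := by
    obtain ⟨k, hk⟩ : ∃ k : ℕ, k = ⌊2 * th * N⌋₊ := ⟨_, rfl⟩
    have hk1 : (k : ℝ) ≤ 2 * th * N := by
      rw [hk]
      exact Nat.floor_le (by positivity)
    have hk2 : 2 * th * N < k + 1 := by
      rw [hk]
      exact Nat.lt_floor_add_one _
    have hsub : (Finset.range (k + 1)).image (fun i => N + i) ⊆ Wn N (2 * th) := by
      intro n hn
      rw [Finset.mem_image] at hn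
      obtain ⟨i, hi, rfl⟩ := hn
      rw [Finset.mem_range] at hi
      rw [mem_Wn (by omega) (by linarith)]
      have hi' : (i : ℝ) ≤ k := by exact_mod_cast (show i ≤ k by omega)
      have e : ((N + i : ℕ) : ℝ) / N - 1 = i / N := by
        push_cast
        field_simp
        ring
      rw [e, abs_of_nonneg (by positivity), div_le_iff₀ hN0]
      linarith
    refine le_trans ?_ (Finset.sum_le_sum_of_subset_of_nonneg hsub fun n _ _ => aN_nonneg n)
    rw [Finset.sum_image fun a _ b _ h => by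
      have : N + a = N + b := h
      omega]
    have h1 : ∀ i ∈ Finset.range (k + 1), c * (N : ℝ) ^ (11 / 32 : ℝ) ≤ aN (N + i) := by
      intro i _
      refine le_trans ?_ (h (N + i) (by omega)).1
      exact mul_le_mul_of_nonneg_left (Real.rpow_le_rpow hN0.le (by exact_mod_cast (show N ≤ N + i by omega)) (by norm_num)) hc.le
    refine le_trans ?_ (Finset.sum_le_sum h1)
    rw [Finset.sum_const, nsmul_eq_mul, Finset.card_range]
    have h2 : th * N ≤ ((k + 1 : ℕ) : ℝ) := by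
      push_cast
      have : 0 ≤ th * N := by positivity
      linarith
    have h3 := mul_le_mul_of_nonneg_right h2 (show 0 ≤ c * (N : ℝ) ^ (11 / 32 : ℝ) by positivity)
    refine le_trans (le_of_eq ?_) h3
    ring
  refine ⟨?_, lt_of_lt_of_le (by positivity) low⟩
  refine up.trans ?_
  have h1 := mul_le_mul_of_nonneg_left low (show 0 ≤ 6 * C / (c * th) by positivity)
  refine le_trans (le_of_eq ?_) h1
  field_simp

lemma size_cmp : ∃ c : ℝ, 0 < c ∧ ∀ N n : ℕ, 1 ≤ N → n ∈ W2 N → 1 ≤ n ∧ n ≤ 2 * N ∧ N ≤ 2 * n ∧ c * size N ≤ size n := by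
  obtain ⟨cs, Cs, hcs, hs, -⟩ := NTSF.finE
  have hCs : 0 < Cs := by
    have h1 := hs 1 le_rfl
    have h2 : ((1 : ℕ) : ℝ) ^ (3 / 4 : ℝ) = 1 := by rw [Nat.cast_one, Real.one_rpow]
    rw [h2] at h1
    linarith [h1.1, h1.2]
  refine ⟨cs / (2 * Cs), by positivity, fun N n hN hn => ?_⟩
  unfold W2 at hn
  rw [Finset.mem_filter, Finset.mem_range] at hn
  have hn1 : 1 ≤ n := by omega
  refine ⟨hn1, by omega, hn.2, ?_⟩
  have h1 := (hs n hn1).1
  have h2 := (hs N hN).2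
  have h3 : (N : ℝ) ^ (3 / 4 : ℝ) ≤ 2 * (n : ℝ) ^ (3 / 4 : ℝ) := by
    have h4 : (N : ℝ) ^ (3 / 4 : ℝ) ≤ (2 * (n : ℝ)) ^ (3 / 4 : ℝ) :=
      Real.rpow_le_rpow (Nat.cast_nonneg _) (by exact_mod_cast hn.2) (by norm_num)
    have h5 : (2 : ℝ) ^ (3 / 4 : ℝ) ≤ 2 := by
      have := Real.rpow_le_rpow_of_exponent_le (x := 2) one_le_two (show (3 / 4 : ℝ) ≤ 1 by norm_num)
      rwa [Real.rpow_one] at this
    rw [Real.mul_rpow zero_le_two (Nat.cast_nonneg _)] at h4
    exact h4.trans (mul_le_mul_of_nonneg_right h5 (Real.rpow_nonneg (Nat.cast_nonneg _) _))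
  have h6 : cs / (2 * Cs) * size N ≤ cs / (2 * Cs) * (Cs * (2 * (n : ℝ) ^ (3 / 4 : ℝ))) :=
    mul_le_mul_of_nonneg_left (h2.trans (mul_le_mul_of_nonneg_left h3 hCs.le)) (by positivity)
  refine h6.trans (le_trans (le_of_eq ?_) h1)
  field_simp

lemma size_ev (M : ℝ) : ∀ᶠ N : ℕ in atTop, M ≤ size N := by
  obtain ⟨cs, Cs, hcs, hs, -⟩ := NTSF.finE
  have h1 : Tendsto (fun N : ℕ => cs * (N : ℝ) ^ (3 / 4 : ℝ)) atTop atTop :=
    ((tendsto_rpow_atTop (by norm_num)).comp tendsto_natCast_atTop_atTop).const_mul_atTop hcs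
  filter_upwards [h1.eventually_ge_atTop M, eventually_ge_atTop 1] with N h2 h3
  exact h2.trans (hs N h3).1

/-! ### 2. the sets -/

/-- late visits to a neighbourhood of the start -/
def LateO (τ κ : ℝ) : Set (CI3 × ℝ) := {r | ∃ u : unitInterval, τ < u * r.2 ∧ ‖r.1 u‖ < κ}

/-- far ends -/
def FarO (D : ℝ) : Set (CI3 × ℝ) := {r | D < ‖r.1 1‖}

lemma LateO_open (τ κ : ℝ) : IsOpen (LateO τ κ) := by
  have e : LateO τ κ = ⋃ u : unitInterval, {r : CI3 × ℝ | τ < u * r.2} ∩ {r | ‖r.1 u‖ < κ} := by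
    ext r
    simp only [LateO, mem_setOf_eq, mem_iUnion, mem_inter_iff]
  rw [e]
  refine isOpen_iUnion fun u => (isOpen_lt continuous_const (continuous_const.mul continuous_snd)).inter ?_
  exact isOpen_lt ((continuous_eval_const u).comp continuous_fst).norm continuous_const

lemma LateE_open (τ κ : ℝ) : IsOpen (rvr ⁻¹' LateO τ κ) := (LateO_open τ κ).preimage rvr_cont

lemma FarO_open (D : ℝ) : IsOpen (FarO D) :=
  isOpen_lt continuous_const ((continuous_eval_const (1 : unitInterval)).comp continuous_fst).norm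

lemma LateO_mono {τ κ κ' : ℝ} (h : κ ≤ κ') : LateO τ κ ⊆ LateO τ κ' := fun _ ⟨u, h1, h2⟩ => ⟨u, h1, h2.trans_le h⟩

/-- the marks of the gates: the tips are in small balls -/
def TipB (κ : ℝ) (G : W3 → ℕ → ℕ → ℝ) (N : ℕ) : Prop := ∀ w i j, SW w → G w i j ≠ 0 → Even i ∧ i ≤ j ∧ j ≤ w.length ∧
  ‖ps w i‖ ≤ κ * size N ∧ ‖ps w j - en w‖ ≤ κ * size N

lemma TipB.mono {κ κ' : ℝ} (h : κ ≤ κ') {G : W3 → ℕ → ℕ → ℝ} {N : ℕ} (hG : TipB κ G N) (hN : 0 ≤ size N) : TipB κ' G N :=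
  fun w i j hw hne => by
    obtain ⟨h1, h2, h3, h4, h5⟩ := hG w i j hw hne
    exact ⟨h1, h2, h3, h4.trans (mul_le_mul_of_nonneg_right h hN), h5.trans (mul_le_mul_of_nonneg_right h hN)⟩

lemma crv_vertex {w : W3} {i j : ℕ} (hi : Even i) (hij : i ≤ j) (hj : j ≤ w.length) {d : ℝ} (hd : 0 < d) (u : unitInterval) :
    ∃ k : ℕ, k ≤ j - i ∧ |(u : ℝ) * ((j - i : ℕ) : ℝ) - k| ≤ 1 ∧
      ‖crv (w.drop i) (j - i) d u - (ps w (i + k) - ps w i) / d‖ ≤ 1 / d := by
  rcases Nat.eq_zero_or_pos (j - i) with h0 | h1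
  · refine ⟨0, Nat.zero_le _, ?_, ?_⟩
    · rw [h0]
      simp
    · rw [h0, crv_nil_steps, add_zero, sub_self, zero_div, sub_zero]
      show ‖(0 : ℂ)‖ ≤ _
      rw [norm_zero]
      positivity
  · obtain ⟨k, hk, q1, q2⟩ := Tight.th2_idx h1 u
    refine ⟨k, hk.le, abs_le.2 ⟨by linarith, by linarith⟩, ?_⟩
    have e : crv (w.drop i) (j - i) d u = ps (w.drop i) k / d +
        (((u : ℝ) * ((j - i : ℕ) : ℝ) - k : ℝ) : ℂ) * (ps (w.drop i) (k + 1) / d - ps (w.drop i) k / d) := by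
      show Tight.poly (fun k => ps (w.drop i) k / d) (j - i) u = _
      exact Tight.poly_apply hk q1 q2
    have hst : ‖ps (w.drop i) (k + 1) - ps (w.drop i) k‖ ≤ 1 := by
      rw [ps_succ, add_sub_cancel_left]
      by_cases hl : k < (w.drop i).length
      · rw [st_of_lt hl, Pool.Agent.PMA.LimR.norm_step']
      · rw [st_of_le (not_lt.1 hl), norm_zero]
        exact zero_le_one
    rw [e, ps_append_drop w (hij.trans hj) hi k, add_sub_cancel_left, ← sub_div, norm_mul, Complex.norm_real, norm_div,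
      Complex.norm_real, Real.norm_of_nonneg hd.le, Real.norm_of_nonneg (by linarith)]
    rw [← ps_append_drop w (hij.trans hj) hi k]
    calc ((u : ℝ) * ((j - i : ℕ) : ℝ) - k) * (‖ps (w.drop i) (k + 1) - ps (w.drop i) k‖ / d) ≤ 1 * (1 / d) := by
          refine mul_le_mul (by linarith) (div_le_div_of_nonneg_right hst hd.le) (by positivity) zero_le_one
      _ = 1 / d := one_mul _

lemma crv_end {w : W3} {i j : ℕ} (hi : Even i) (hij : i ≤ j) (hj : j ≤ w.length) (d : ℝ) :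
    crv (w.drop i) (j - i) d 1 = (ps w j - ps w i) / d := by
  have e1 : crv (w.drop i) (j - i) d 1 = ps (w.drop i) (j - i) / d := by
    rw [crv_ap]
    have h3 : ∀ l ∈ Finset.range (j - i), ((max 0 (min 1 (((1 : unitInterval) : ℝ) * ((j - i : ℕ) : ℝ) - l)) : ℝ) : ℂ) *
        (ps (w.drop i) (l + 1) / d - ps (w.drop i) l / d) = ps (w.drop i) (l + 1) / d - ps (w.drop i) l / d := by
      intro l hl
      have h4 : (l : ℝ) + 1 ≤ ((j - i : ℕ) : ℝ) := by exact_mod_cast Finset.mem_range.1 hl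
      rw [Set.Icc.coe_one, one_mul, min_eq_left (by linarith), max_eq_right zero_le_one]
      simp
    rw [Finset.sum_congr rfl h3, Finset.sum_range_sub fun l => ps (w.drop i) l / d]
    ring
  rw [e1, ps_append_drop w (hij.trans hj) hi]
  congr 3
  omega

/-! ### 3. the counts -/

/-- **late returns to the start** -/
theorem late_cnt {τ ε : ℝ} (hτ : 0 < τ) (hε : 0 < ε) : ∃ κ : ℝ, 0 < κ ∧ ∀ᶠ N : ℕ in atTop, ∀ G : W3 → ℕ → ℕ → ℝ,
    TipB κ G N → ∀ n ∈ W2 N, (((saw n).filter fun s => Bdo G N (LateO τ κ) s).card : ℝ) ≤ ε * (saw n).card := by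
  obtain ⟨κ1, hκ1, n0, h⟩ := farS (show (0 : ℝ) < τ / 4 by positivity) hε
  obtain ⟨c, hc, hcm⟩ := size_cmp
  refine ⟨κ1 * c / 3, by positivity, ?_⟩
  filter_upwards [eventually_ge_atTop (max (max 1 (2 * n0)) ⌈2 / τ⌉₊), size_ev (max 1 (3 / (κ1 * c)))] with N hN hS G hG n hn
  have hN1 : 1 ≤ N := (le_max_left _ _).trans ((le_max_left _ _).trans hN)
  have hN2 : 2 * n0 ≤ N := (le_max_right _ _).trans ((le_max_left _ _).trans hN)
  have hN3 : 2 / τ ≤ N := (Nat.le_ceil _).trans (by exact_mod_cast (le_max_right _ ⌈2 / τ⌉₊).trans hN)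
  have hN0 : (0 : ℝ) < N := by exact_mod_cast hN1
  have hS1 : 1 ≤ size N := (le_max_left _ _).trans hS
  have hS2 : 3 / (κ1 * c) ≤ size N := (le_max_right _ _).trans hS
  have hS0 : 0 < size N := by linarith
  obtain ⟨hn1, hn2, hn3, hn4⟩ := hcm N n hN1 hn
  have hτN : 2 ≤ τ * N := by rwa [div_le_iff₀' hτ] at hN3
  have hκS : 1 ≤ κ1 * c / 3 * size N := by
    have h1 : 3 ≤ κ1 * c * size N := by rwa [div_le_iff₀' (by positivity)] at hS2
    linarith
  refine le_trans ?_ (h n (by omega))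
  refine Nat.cast_le.2 (Finset.card_le_card fun s hs => ?_)
  rw [Finset.mem_filter] at hs ⊢
  obtain ⟨hs, i, j, hne, u, hu1, hu2⟩ := hs
  refine ⟨hs, ?_⟩
  obtain ⟨hi, hij, hj, t1, t2⟩ := hG _ i j (SW_ofFn s |>.2 hs) hne
  obtain ⟨k, hk, k1, k2⟩ := crv_vertex hi hij hj hS0 u
  rw [List.length_ofFn] at hj
  have hu2' : ‖crv ((List.ofFn s).drop i) (j - i) (size N) u‖ < κ1 * c / 3 := hu2
  have hu1' : τ * N < u * ((j - i : ℕ) : ℝ) := by
    have h1 : τ < u * (((j - i : ℕ) : ℝ) / N) := hu1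
    rw [mul_div_assoc', lt_div_iff₀ hN0] at h1
    exact h1
  refine ⟨i + k, ?_, by omega, ?_⟩
  · have h1 := (abs_le.1 k1).2
    have h2 : (n : ℝ) ≤ 2 * N := by exact_mod_cast hn2
    have h3 : τ / 4 * n ≤ τ / 4 * (2 * N) := mul_le_mul_of_nonneg_left h2 (by positivity)
    push_cast
    have h4 : (0 : ℝ) ≤ i := Nat.cast_nonneg i
    linarith
  · rw [← ps_ofFn]
    have h1 : ‖(ps (List.ofFn s) (i + k) - ps (List.ofFn s) i) / size N‖ ≤ κ1 * c / 3 + 1 / size N := by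
      have h2 := norm_sub_norm_le ((ps (List.ofFn s) (i + k) - ps (List.ofFn s) i) / (size N : ℂ))
        (crv ((List.ofFn s).drop i) (j - i) (size N) u)
      rw [norm_sub_rev] at h2
      linarith
    rw [norm_div, Complex.norm_real, Real.norm_of_nonneg hS0.le, div_le_iff₀ hS0, add_mul, one_div,
      inv_mul_cancel₀ hS0.ne'] at h1
    have h2 : ‖ps (List.ofFn s) (i + k)‖ ≤ ‖ps (List.ofFn s) (i + k) - ps (List.ofFn s) i‖ + ‖ps (List.ofFn s) i‖ := by
      have := norm_add_le (ps (List.ofFn s) (i + k) - ps (List.ofFn s) i) (ps (List.ofFn s) i)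
      rwa [sub_add_cancel] at this
    have h3 : 3 * (κ1 * c / 3 * size N) ≤ κ1 * size n := by
      have := mul_le_mul_of_nonneg_left hn4 hκ1.le
      linarith
    linarith

/-- **late returns to the end** -/
theorem lateE_cnt {τ ε : ℝ} (hτ : 0 < τ) (hε : 0 < ε) : ∃ κ : ℝ, 0 < κ ∧ ∀ᶠ N : ℕ in atTop, ∀ G : W3 → ℕ → ℕ → ℝ,
    TipB κ G N → ∀ n ∈ W2 N, (((saw n).filter fun s => Bdo G N (rvr ⁻¹' LateO τ κ) s).card : ℝ) ≤ ε * (saw n).card := by
  obtain ⟨κ1, hκ1, n0, h⟩ := farE (show (0 : ℝ) < τ / 4 by positivity) hε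
  obtain ⟨c, hc, hcm⟩ := size_cmp
  refine ⟨κ1 * c / 3, by positivity, ?_⟩
  filter_upwards [eventually_ge_atTop (max (max 1 (2 * n0)) ⌈2 / τ⌉₊), size_ev (max 1 (3 / (κ1 * c)))] with N hN hS G hG n hn
  have hN1 : 1 ≤ N := (le_max_left _ _).trans ((le_max_left _ _).trans hN)
  have hN2 : 2 * n0 ≤ N := (le_max_right _ _).trans ((le_max_left _ _).trans hN)
  have hN3 : 2 / τ ≤ N := (Nat.le_ceil _).trans (by exact_mod_cast (le_max_right _ ⌈2 / τ⌉₊).trans hN)
  have hN0 : (0 : ℝ) < N := by exact_mod_cast hN1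
  have hS1 : 1 ≤ size N := (le_max_left _ _).trans hS
  have hS2 : 3 / (κ1 * c) ≤ size N := (le_max_right _ _).trans hS
  have hS0 : 0 < size N := by linarith
  obtain ⟨hn1, hn2, hn3, hn4⟩ := hcm N n hN1 hn
  have hτN : 2 ≤ τ * N := by rwa [div_le_iff₀' hτ] at hN3
  have hκS : 1 ≤ κ1 * c / 3 * size N := by
    have h1 : 3 ≤ κ1 * c * size N := by rwa [div_le_iff₀' (by positivity)] at hS2
    linarith
  refine le_trans ?_ (h n (by omega))
  refine Nat.cast_le.2 (Finset.card_le_card fun s hs => ?_)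
  rw [Finset.mem_filter] at hs ⊢
  obtain ⟨hs, i, j, hne, u, hu1, hu2⟩ := hs
  refine ⟨hs, ?_⟩
  obtain ⟨hi, hij, hj, t1, t2⟩ := hG _ i j (SW_ofFn s |>.2 hs) hne
  obtain ⟨k, hk, k1, k2⟩ := crv_vertex hi hij hj hS0 (unitInterval.symm u)
  have hen : en (List.ofFn s) = pos s n := by rw [en, List.length_ofFn, ps_ofFn]
  have hu2' : ‖crv ((List.ofFn s).drop i) (j - i) (size N) (unitInterval.symm u) -
      crv ((List.ofFn s).drop i) (j - i) (size N) 1‖ < κ1 * c / 3 := hu2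
  rw [crv_end hi hij hj] at hu2'
  rw [List.length_ofFn] at hj
  have hu1' : τ * N < u * ((j - i : ℕ) : ℝ) := by
    have h1 : τ < u * (((j - i : ℕ) : ℝ) / N) := hu1
    rw [mul_div_assoc', lt_div_iff₀ hN0] at h1
    exact h1
  refine ⟨i + k, ?_, ?_⟩
  · have h1 := (abs_le.1 k1).1
    rw [unitInterval.coe_symm_eq] at h1
    have h2 : (n : ℝ) ≤ 2 * N := by exact_mod_cast hn2
    have h3 : τ / 4 * n ≤ τ / 4 * (2 * N) := mul_le_mul_of_nonneg_left h2 (by positivity)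
    have h5 : (((j - i : ℕ) : ℝ)) = j - i := by rw [Nat.cast_sub hij]
    have h6 : (j : ℝ) ≤ n := by exact_mod_cast hj
    rw [h5] at h1 hu1'
    push_cast
    nlinarith
  · rw [← ps_ofFn, ← hen]
    have h1 : ‖(ps (List.ofFn s) (i + k) - ps (List.ofFn s) j) / size N‖ ≤ κ1 * c / 3 + 1 / size N := by
      have e : (ps (List.ofFn s) (i + k) - ps (List.ofFn s) j) / (size N : ℂ) =
          (crv ((List.ofFn s).drop i) (j - i) (size N) (unitInterval.symm u) -
            (ps (List.ofFn s) j - ps (List.ofFn s) i) / size N) -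
          (crv ((List.ofFn s).drop i) (j - i) (size N) (unitInterval.symm u) -
            (ps (List.ofFn s) (i + k) - ps (List.ofFn s) i) / size N) := by
        have : (size N : ℂ) ≠ 0 := by exact_mod_cast hS0.ne'
        field_simp
        ring
      rw [e]
      refine (norm_sub_le _ _).trans ?_
      linarith
    rw [norm_div, Complex.norm_real, Real.norm_of_nonneg hS0.le, div_le_iff₀ hS0, add_mul, one_div,
      inv_mul_cancel₀ hS0.ne'] at h1
    have h2 : ‖ps (List.ofFn s) (i + k) - en (List.ofFn s)‖ ≤ ‖ps (List.ofFn s) (i + k) - ps (List.ofFn s) j‖ +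
        ‖ps (List.ofFn s) j - en (List.ofFn s)‖ := norm_sub_le_norm_sub_add_norm_sub _ _ _
    have h3 : 3 * (κ1 * c / 3 * size N) ≤ κ1 * size n := by
      have := mul_le_mul_of_nonneg_left hn4 hκ1.le
      linarith
    linarith

/-- far ends, one number of steps -/
lemma far_n {n : ℕ} (hn : 1 ≤ n) {A : ℝ} (hA : 0 < A) :
    (((saw n).filter fun s => A * size n ≤ ‖pos s n‖).card : ℝ) ≤ 1 / A ^ 2 * (saw n).card := by
  have hc : (0 : ℝ) < ((saw n).card : ℝ) := NTSF.saw_card_pos n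
  have hs : 0 < size n := NTSF.size_pos hn
  have e1 : size n ^ 2 * (saw n).card = ∑ s ∈ saw n, ‖pos s n‖ ^ 2 := by
    unfold size
    rw [Real.sq_sqrt (by positivity)]
    field_simp
  have h1 : (((saw n).filter fun s => A * size n ≤ ‖pos s n‖).card : ℝ) * (A * size n) ^ 2 ≤ ∑ s ∈ saw n, ‖pos s n‖ ^ 2 := by
    rw [← nsmul_eq_mul, ← Finset.sum_const]
    refine le_trans (Finset.sum_le_sum fun s hs => ?_)
      (Finset.sum_le_sum_of_subset_of_nonneg (Finset.filter_subset (fun s => A * size n ≤ ‖pos s n‖) _)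
        fun s _ _ => by positivity)
    have := (Finset.mem_filter.1 hs).2
    exact pow_le_pow_left₀ (by positivity) this 2
  rw [← e1] at h1
  have h2 : (((saw n).filter fun s => A * size n ≤ ‖pos s n‖).card : ℝ) * A ^ 2 ≤ (saw n).card := by
    have h3 : (((saw n).filter fun s => A * size n ≤ ‖pos s n‖).card : ℝ) * A ^ 2 * size n ^ 2 ≤ (saw n).card * size n ^ 2 := by
      linarith
    exact le_of_mul_le_mul_right h3 (by positivity)
  rw [div_mul_eq_mul_div, one_mul, le_div_iff₀ (by positivity)]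
  exact h2

/-- **far ends** -/
theorem far_cnt {ε : ℝ} (hε : 0 < ε) : ∃ D : ℝ, 0 < D ∧ ∀ᶠ N : ℕ in atTop, ∀ G : W3 → ℕ → ℕ → ℝ,
    TipB 1 G N → ∀ n ∈ W2 N, (((saw n).filter fun s => Bdo G N (FarO D) s).card : ℝ) ≤ ε * (saw n).card := by
  obtain ⟨cs, Cs, hcs, hs, -⟩ := NTSF.finE
  obtain ⟨A, hA⟩ : ∃ A : ℝ, A = 1 / Real.sqrt ε := ⟨_, rfl⟩
  have hε' : 0 < Real.sqrt ε := Real.sqrt_pos.2 hε
  have hA0 : 0 < A := by
    rw [hA]
    positivity
  have hAε : 1 / A ^ 2 = ε := by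
    rw [hA, div_pow, one_pow, Real.sq_sqrt hε.le, one_div_one_div]
  have hCs : 0 < Cs := by
    have h1 := hs 1 le_rfl
    have h2 : ((1 : ℕ) : ℝ) ^ (3 / 4 : ℝ) = 1 := by rw [Nat.cast_one, Real.one_rpow]
    rw [h2] at h1
    linarith [h1.1, h1.2]
  obtain ⟨B, hB⟩ : ∃ B : ℝ, B = 2 * Cs / cs := ⟨_, rfl⟩
  have hB0 : 0 < B := by
    rw [hB]
    positivity
  refine ⟨A * B + 2, by positivity, ?_⟩
  filter_upwards [eventually_ge_atTop 1, size_ev 1] with N hN1 hS1 G hG n hn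
  have hS0 : 0 < size N := by linarith
  unfold W2 at hn
  rw [Finset.mem_filter, Finset.mem_range] at hn
  have hn1 : 1 ≤ n := by omega
  have hsz : size n ≤ B * size N := by
    have h1 := (hs n hn1).2
    have h2 := (hs N hN1).1
    have h3 : (n : ℝ) ^ (3 / 4 : ℝ) ≤ 2 * (N : ℝ) ^ (3 / 4 : ℝ) := by
      have h4 : (n : ℝ) ^ (3 / 4 : ℝ) ≤ (2 * (N : ℝ)) ^ (3 / 4 : ℝ) :=
        Real.rpow_le_rpow (Nat.cast_nonneg _) (by exact_mod_cast (show n ≤ 2 * N by omega)) (by norm_num)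
      have h5 : (2 : ℝ) ^ (3 / 4 : ℝ) ≤ 2 := by
        have := Real.rpow_le_rpow_of_exponent_le (x := 2) one_le_two (show (3 / 4 : ℝ) ≤ 1 by norm_num)
        rwa [Real.rpow_one] at this
      rw [Real.mul_rpow zero_le_two (Nat.cast_nonneg _)] at h4
      exact h4.trans (mul_le_mul_of_nonneg_right h5 (Real.rpow_nonneg (Nat.cast_nonneg _) _))
    calc size n ≤ Cs * (2 * (N : ℝ) ^ (3 / 4 : ℝ)) := h1.trans (mul_le_mul_of_nonneg_left h3 hCs.le)
      _ = B * (cs * (N : ℝ) ^ (3 / 4 : ℝ)) := by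
        rw [hB]
        field_simp
      _ ≤ B * size N := mul_le_mul_of_nonneg_left h2 hB0.le
  have key := far_n hn1 hA0
  rw [hAε] at key
  refine le_trans ?_ key
  refine Nat.cast_le.2 (Finset.card_le_card fun s hs => ?_)
  rw [Finset.mem_filter] at hs ⊢
  obtain ⟨hs, i, j, hne, hD⟩ := hs
  refine ⟨hs, ?_⟩
  obtain ⟨hi, hij, hj, t1, t2⟩ := hG _ i j (SW_ofFn s |>.2 hs) hne
  have hD' : A * B + 2 < ‖crv ((List.ofFn s).drop i) (j - i) (size N) 1‖ := hD
  rw [crv_end hi hij hj, norm_div, Complex.norm_real, Real.norm_of_nonneg hS0.le, lt_div_iff₀ hS0] at hD'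
  have hen : en (List.ofFn s) = pos s n := by rw [en, List.length_ofFn, ps_ofFn]
  rw [← hen]
  have h1 : ‖ps (List.ofFn s) j - ps (List.ofFn s) i‖ ≤ ‖en (List.ofFn s)‖ + ‖ps (List.ofFn s) j - en (List.ofFn s)‖ +
      ‖ps (List.ofFn s) i‖ := by
    have e : ps (List.ofFn s) j - ps (List.ofFn s) i = en (List.ofFn s) + (ps (List.ofFn s) j - en (List.ofFn s)) -
        ps (List.ofFn s) i := by ring
    rw [e]
    refine (norm_sub_le _ _).trans ?_
    linarith [norm_add_le (en (List.ofFn s)) (ps (List.ofFn s) j - en (List.ofFn s))]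
  have h2 : A * size n ≤ A * (B * size N) := mul_le_mul_of_nonneg_left hsz hA0.le
  linarith

/-! ### 4. the limits -/

/-- the classes along `U` and their limit -/
structure LimC (p1 e th : ℝ) (U : Filter ℕ) (C : ℕ → WCls) (c : ℕ → ℝ≥0∞) (m : Measure (CI3 × ℝ)) : Prop where
  c0 : ∀ N, c N ≠ 0
  c1 : ∀ N, c N ≠ ∞
  hm : ∀ g : (CI3 × ℝ) →ᵇ ℝ, Tendsto (fun N => ∫ x, g x ∂((C N).rm N (c N))) U (𝓝 (∫ x, g x ∂m))
  hG : ∀ᶠ N in U, Gb e th ((C N).G N fun _ => 1) N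
  low : ∀ᶠ N in U, p1 * ∑ n ∈ Wn N (2 * th), aN n ≤ SS ((C N).G N fun _ => 1) N th fun _ => 1

/-- **late returns, far ends: the relative weighted masses**, all classes with small tips at once -/
theorem bad_lim {th p1 p2 τ δ : ℝ} (hth : 0 < th) (hth16 : th ≤ 1 / 16) (hp1 : 0 < p1) (hp2 : 0 < p2) (hτ : 0 < τ)
    (hδ : 0 < δ) : ∃ κ D : ℝ, 0 < κ ∧ 0 < D ∧ ∀ (e : ℝ), e ≤ 1 → ∀ (U : Filter ℕ) [U.NeBot], U ≤ atTop →
      ∀ (C : ℕ → WCls) (c : ℕ → ℝ≥0∞) (m : Measure (CI3 × ℝ)) [IsFiniteMeasure m], LimC p1 e th U C c m →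
        (∀ᶠ N in U, TipB κ ((C N).G N fun _ => 1) N) → ∀ S : Set (CI3 × ℝ),
          p2 * ∫ r, ct th r.2 ∂m ≤ ∫ r in S, ct th r.2 ∂m →
          (wm th m).real (LateO τ κ) ≤ δ * ∫ r in S, ct th r.2 ∂m ∧
          (wm th m).real (rvr ⁻¹' LateO τ κ) ≤ δ * ∫ r in S, ct th r.2 ∂m ∧
          (wm th m).real (FarO D) ≤ δ * ∫ r in S, ct th r.2 ∂m := by
  obtain ⟨Cw, hCw, hw⟩ := cw_ex hth hth16
  obtain ⟨e2, he2⟩ : ∃ e2 : ℝ, e2 = δ * p1 * p2 / Cw := ⟨_, rfl⟩
  have he20 : 0 < e2 := by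
    rw [he2]
    positivity
  obtain ⟨κ1, hκ1, n1⟩ := late_cnt hτ he20
  obtain ⟨κ2, hκ2, n2⟩ := lateE_cnt hτ he20
  obtain ⟨D, hD, n3⟩ := far_cnt he20
  refine ⟨min (min κ1 κ2) 1, D, lt_min (lt_min hκ1 hκ2) one_pos, hD, fun e he U _ hU C c m _ hL hT S hS => ?_⟩
  have hB : ∀ {G : W3 → ℕ → ℕ → ℝ} {N : ℕ} {O O' : Set (CI3 × ℝ)}, O ⊆ O' → ∀ {n : ℕ},
      (((saw n).filter fun s => Bdo G N O s).card : ℝ) ≤ (((saw n).filter fun s => Bdo G N O' s).card : ℝ) := by
    intro G N O O' h n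
    refine Nat.cast_le.2 (Finset.card_le_card fun s hs => ?_)
    rw [Finset.mem_filter] at hs ⊢
    obtain ⟨hs, i, j, hne, hO⟩ := hs
    exact ⟨hs, i, j, hne, h hO⟩
  have fin : ∀ O : Set (CI3 × ℝ), IsOpen O → (∀ᶠ N in U, ∀ n ∈ W2 N,
      (((saw n).filter fun s => Bdo ((C N).G N fun _ => 1) N O s).card : ℝ) ≤ e2 * (saw n).card) →
      (wm th m).real O ≤ δ * ∫ r in S, ct th r.2 ∂m := by
    intro O hO h
    have h1 := rel_lim hth hth16 he hp1 he20.le hU hL.c0 hL.c1 hL.hm hL.hG hL.low (hU hw) hO h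
    have e1 : e2 * Cw / p1 = δ * p2 := by
      rw [he2]
      field_simp
    rw [e1] at h1
    refine h1.trans ?_
    have h2 := mul_le_mul_of_nonneg_left hS hδ.le
    linarith
  have s0 : ∀ᶠ N in U, 0 ≤ size N := hU ((size_ev 0).mono fun N h => h)
  refine ⟨fin _ (LateO_open _ _) ?_, fin _ (LateE_open _ _) ?_, fin _ (FarO_open _) ?_⟩
  · filter_upwards [hU n1, hT, s0] with N a1 a2 a3 n hn
    exact (hB (LateO_mono ((min_le_left _ _).trans (min_le_left _ _)))).trans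
      (a1 _ (a2.mono ((min_le_left _ _).trans (min_le_left _ _)) a3) n hn)
  · filter_upwards [hU n2, hT, s0] with N a1 a2 a3 n hn
    exact (hB (preimage_mono (LateO_mono ((min_le_left _ _).trans (min_le_right _ _))))).trans
      (a1 _ (a2.mono ((min_le_left _ _).trans (min_le_right _ _)) a3) n hn)
  · filter_upwards [hU n3, hT, s0] with N a1 a2 a3 n hn
    exact a1 _ (a2.mono (min_le_right _ _) a3) n hn

end Pool.Agent.ROT.F3E

end
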