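import Pool.Agent.ROT.F3AppX

/-!
# ROT, F3, row R11 (helper51): the foreign gates by local products, gates which are known only for the rests with companions

* `cpt_in` : compact subsets; **`ae_img`** : the image of a set of full measure has full measure (for the image measure);
* **`app_T`** : `T` = rests with companions, `Ap`, `Aq` ⊆ `T` = rests with the foreign gate at the start, at the end.
-/

set_option autoImplicit false

noncomputable section

open MeasureTheory Filter Topology Set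
open scoped ENNReal NNReal BoundedContinuousFunction Classical

namespace Pool.Agent.ROT.F3E

open Pool.Agent.NTS.Res Pool.Agent.ROT.F3

section

variable {X : Type*} [TopologicalSpace X] [SecondCountableTopology X] [TopologicalSpace.IsCompletelyMetrizableSpace X]
  [MeasurableSpace X] [BorelSpace X]

/-- a compact subset of almost full mass in a set of full measure -/
lemma cpt_in {m : Measure X} [IsFiniteMeasure m] {A Gd : Set X} (hA : MeasurableSet A) (hGd : ∀ᵐ x ∂m, x ∈ Gd) {δ : ℝ}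
    (hδ : 0 < δ) : ∃ K, K ⊆ A ∩ Gd ∧ IsCompact K ∧ m.real (A \ K) ≤ δ := by
  obtain ⟨Z, hZ⟩ : ∃ Z, Z = toMeasurable m Gdᶜ := ⟨_, rfl⟩
  have hZ0 : m Z = 0 := by
    rw [hZ, measure_toMeasurable]
    exact hGd
  have hZG : Gdᶜ ⊆ Z := by
    rw [hZ]
    exact subset_toMeasurable _ _
  have hZm : MeasurableSet Z := by
    rw [hZ]
    exact measurableSet_toMeasurable _ _
  obtain ⟨K, hK1, hK2, hK3⟩ := (hA.diff hZm).exists_isCompact_lt_add (measure_ne_top m _) (ENNReal.ofReal_pos.2 hδ).ne'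
  refine ⟨K, fun x hx => ⟨(hK1 hx).1, ?_⟩, hK2, ?_⟩
  · by_contra hc
    exact (hK1 hx).2 (hZG hc)
  · have hKm : MeasurableSet K := hK2.measurableSet
    have h1 : A \ K ⊆ Z ∪ ((A \ Z) \ K) := by
      intro x hx
      by_cases hxZ : x ∈ Z
      · exact Or.inl hxZ
      · exact Or.inr ⟨⟨hx.1, hxZ⟩, hx.2⟩
    have h2 : m ((A \ Z) \ K) ≤ ENNReal.ofReal δ := by
      rw [measure_sdiff hK1 hKm.nullMeasurableSet (measure_ne_top _ _)]
      exact tsub_le_iff_left.2 hK3.le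
    have h3 : m (A \ K) ≤ ENNReal.ofReal δ := by
      refine (measure_mono h1).trans ((measure_union_le _ _).trans ?_)
      rw [hZ0, zero_add]
      exact h2
    exact ENNReal.toReal_le_of_le_ofReal hδ.le h3

end

/-- **the image of a set of full measure has full measure** -/
theorem ae_img {Y X : Type*} [MeasurableSpace Y] [StandardBorelSpace Y] [TopologicalSpace X] [T2Space X]
    [SecondCountableTopology X] [MeasurableSpace X] [BorelSpace X] {P : Measure Y} [IsFiniteMeasure P] {f : Y → X} (hf : Measurable f)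
    {G : Set Y} (hG : ∀ᵐ y ∂P, y ∈ G) : ∀ᵐ x ∂(P.map f), x ∈ f '' G := by
  let iY := upgradeStandardBorel Y
  obtain ⟨t', hle, hfc, hpol⟩ := hf.exists_continuous
  have hbor : @BorelSpace Y t' _ := by
    refine @BorelSpace.mk Y t' _ ?_
    rw [@borel_eq_borel_of_le Y t' iY.toTopologicalSpace hpol iY.toPolishSpace hle]
    exact iY.toBorelSpace.measurable_eq
  rw [ae_iff]
  have key : ∀ n : ℕ, (P.map f) {x | x ∉ f '' G} ≤ ENNReal.ofReal (1 / (n + 1)) := by
    intro n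
    obtain ⟨K, hK1, hK2, hK3⟩ := @cpt_in Y t' inferInstance inferInstance _ hbor P _ univ G MeasurableSet.univ hG
      (1 / ((n : ℝ) + 1)) (by positivity)
    have hKf : IsCompact (f '' K) := @IsCompact.image Y X t' _ K f hK2 hfc
    have h1 : {x | x ∉ f '' G} ⊆ (f '' K)ᶜ := fun x hx hx' => hx (image_mono (fun y hy => (hK1 hy).2) hx')
    refine (measure_mono h1).trans ?_
    rw [Measure.map_apply hf hKf.measurableSet.compl]
    have h2 : f ⁻¹' (f '' K)ᶜ ⊆ univ \ K := fun y hy => ⟨mem_univ _, fun hyK => hy (mem_image_of_mem f hyK)⟩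
    refine (measure_mono h2).trans ?_
    rw [← ENNReal.ofReal_toReal (measure_ne_top P _)]
    exact ENNReal.ofReal_le_ofReal hK3
  refine le_antisymm (ge_of_tendsto' (?_ : Tendsto (fun n : ℕ => ENNReal.ofReal (1 / ((n : ℝ) + 1))) atTop (𝓝 0)) key) bot_le
  have h3 : Tendsto (fun n : ℕ => (1 : ℝ) / ((n : ℝ) + 1)) atTop (𝓝 0) := tendsto_one_div_add_atTop_nhds_zero_nat
  have h4 := ENNReal.tendsto_ofReal h3
  rwa [ENNReal.ofReal_zero] at h4

/-- **the foreign gates by local Lipschitz products** -/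
theorem app_T {m : Measure (CI3 × ℝ)} [IsFiniteMeasure m] {τ t0 : ℝ} (ht : 0 < t0) {S T Ap Aq Gd B0 Bp Bq : Set (CI3 × ℝ)}
    (mS : MeasurableSet S) (mp : MeasurableSet Ap) (mq : MeasurableSet Aq) (m0 : MeasurableSet B0) (mBp : MeasurableSet Bp)
    (mBq : MeasurableSet Bq) (hGd : ∀ᵐ r ∂m, r ∈ Gd) (h1 : ∀ r ∈ Gd, r ∈ S → r ∈ Ap ∧ r ∈ Aq)
    (h2 : ∀ r ∈ Gd, r ∉ B0 → r ∈ T → r ∈ Ap → r ∈ Aq → r ∈ S)
    (hp : ∀ r ∈ Gd, ∀ r' ∈ Gd, r ∈ T → r' ∈ Ap → r ∉ Bp → r' ∉ Bp → lp τ t0 ht r = lp τ t0 ht r' → r ∈ Ap)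
    (hq : ∀ r ∈ Gd, ∀ r' ∈ Gd, r ∈ T → r' ∈ Aq → r ∉ Bq → r' ∉ Bq → lq τ t0 ht r = lq τ t0 ht r' → r ∈ Aq)
    (hT : ∀ r ∈ Gd, r ∉ B0 → r ∉ Bp → r ∉ Bq → (∃ r' ∈ Gd, r' ∈ Ap ∧ r' ∉ Bp ∧ lp τ t0 ht r = lp τ t0 ht r') →
      (∃ r' ∈ Gd, r' ∈ Aq ∧ r' ∉ Bq ∧ lq τ t0 ht r = lq τ t0 ht r') → r ∈ T)
    {δ : ℝ} (hδ : 0 < δ) (hmB : m.real B0 + (m.real Bp + m.real Bq) ≤ δ) :
    ∃ (K : ℝ≥0) (Fp Fq : CI3 → ℝ) (cp : Continuous Fp) (cq : Continuous Fq) (ep : ∀ y, 0 ≤ Fp y ∧ Fp y ≤ 1)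
      (eq : ∀ y, 0 ≤ Fq y ∧ Fq y ≤ 1), LipschitzWith K Fp ∧ LipschitzWith K Fq ∧
      ∫ x, |psB τ t0 ht Fp Fq cp cq ep eq x - S.indicator (fun _ => (1 : ℝ)) x| ∂m ≤ 2 * δ := by
  obtain ⟨Kp, kp1, kp2, kp3⟩ := cpt_in (mp.diff mBp) hGd (show 0 < δ / 4 by positivity)
  obtain ⟨Kq, kq1, kq2, kq3⟩ := cpt_in (mq.diff mBq) hGd (show 0 < δ / 4 by positivity)
  obtain ⟨Cp, hCp⟩ : ∃ C, C = lp τ t0 ht '' Kp := ⟨_, rfl⟩
  obtain ⟨Cq, hCq⟩ : ∃ C, C = lq τ t0 ht '' Kq := ⟨_, rfl⟩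
  have cCp : IsCompact Cp := by
    rw [hCp]
    exact kp2.image (lp_cont τ t0 ht)
  have cCq : IsCompact Cq := by
    rw [hCq]
    exact kq2.image (lq_cont τ t0 ht)
  obtain ⟨E, hE⟩ : ∃ E : Set (CI3 × ℝ), E = (B0 ∪ (Bp ∪ Bq)) ∪ (((Ap \ Bp) \ Kp) ∪ ((Aq \ Bq) \ Kq)) := ⟨_, rfl⟩
  have mE : MeasurableSet E := by
    rw [hE]
    exact (m0.union (mBp.union mBq)).union (((mp.diff mBp).diff kp2.measurableSet).union ((mq.diff mBq).diff kq2.measurableSet))
  have mE2 : m.real E ≤ 3 / 2 * δ := by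
    rw [hE]
    refine (measureReal_union_le _ _).trans ?_
    have g1 := measureReal_union_le (μ := m) B0 (Bp ∪ Bq)
    have g2 := measureReal_union_le (μ := m) Bp Bq
    have g3 := measureReal_union_le (μ := m) ((Ap \ Bp) \ Kp) ((Aq \ Bq) \ Kq)
    linarith
  obtain ⟨g, hg⟩ : ∃ g : CI3 × ℝ → ℝ, g = fun r => Cp.indicator (fun _ => (1 : ℝ)) (lp τ t0 ht r) *
    Cq.indicator (fun _ => (1 : ℝ)) (lq τ t0 ht r) := ⟨_, rfl⟩
  have key : ∀ r ∈ Gd, r ∉ E → g r = S.indicator (fun _ => (1 : ℝ)) r := by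
    intro r hr hrE
    rw [hE] at hrE
    simp only [mem_union, Set.mem_sdiff, not_or, not_and, not_not, and_imp] at hrE
    obtain ⟨⟨q0, qp, qq⟩, qkp, qkq⟩ := hrE
    rw [hg]
    dsimp only
    by_cases hS : r ∈ S
    · obtain ⟨ap, aq⟩ := h1 r hr hS
      have e1 : lp τ t0 ht r ∈ Cp := by
        rw [hCp]
        exact mem_image_of_mem _ (qkp ap qp)
      have e2 : lq τ t0 ht r ∈ Cq := by
        rw [hCq]
        exact mem_image_of_mem _ (qkq aq qq)
      rw [indicator_of_mem hS, indicator_of_mem e1, indicator_of_mem e2, one_mul]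
    · rw [indicator_of_notMem hS]
      by_contra hc
      have hc1 := left_ne_zero_of_mul hc
      have hc2 := right_ne_zero_of_mul hc
      have e1 : lp τ t0 ht r ∈ Cp := by
        by_contra h
        exact hc1 (indicator_of_notMem h _)
      have e2 : lq τ t0 ht r ∈ Cq := by
        by_contra h
        exact hc2 (indicator_of_notMem h _)
      rw [hCp] at e1
      rw [hCq] at e2
      obtain ⟨r1, k1, l1⟩ := e1
      obtain ⟨r2, k2, l2⟩ := e2
      obtain ⟨⟨a1, b1⟩, c1⟩ := kp1 k1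
      obtain ⟨⟨a2, b2⟩, c2⟩ := kq1 k2
      have hrT := hT r hr q0 qp qq ⟨r1, c1, a1, b1, l1.symm⟩ ⟨r2, c2, a2, b2, l2.symm⟩
      exact hS (h2 r hr q0 hrT (hp r hr r1 c1 hrT a1 qp b1 l1.symm) (hq r hr r2 c2 hrT a2 qq b2 l2.symm))
  -- the Lipschitz functions
  have hn0 : ∀ n : ℕ, (0 : ℝ) < 1 / ((n : ℝ) + 1) := fun n => by positivity
  obtain ⟨Fn, hFn⟩ : ∃ Fn : Set CI3 → ℕ → CI3 → ℝ, Fn = fun C n y => ((thickenedIndicator (hn0 n) C y : ℝ≥0) : ℝ) :=
    ⟨_, rfl⟩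
  have F01 : ∀ C n y, 0 ≤ Fn C n y ∧ Fn C n y ≤ 1 := by
    intro C n y
    rw [hFn]
    exact ⟨NNReal.coe_nonneg _, by exact_mod_cast thickenedIndicator_le_one _ _ _⟩
  have Flip : ∀ C n, ∃ K : ℝ≥0, LipschitzWith K (Fn C n) := by
    intro C n
    refine ⟨(1 / ((n : ℝ) + 1)).toNNReal⁻¹, ?_⟩
    rw [hFn]
    exact lipschitzWith_thickenedIndicator _ _
  have Fcont : ∀ C n, Continuous (Fn C n) := fun C n => (Flip C n).choose_spec.continuous
  have Flim : ∀ C, IsClosed C → ∀ y, Tendsto (fun n => Fn C n y) atTop (𝓝 (C.indicator (fun _ => (1 : ℝ)) y)) := by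
    intro C hC y
    have h := thickenedIndicator_tendsto_indicator_closure (δseq := fun n : ℕ => 1 / ((n : ℝ) + 1)) hn0
      tendsto_one_div_add_atTop_nhds_zero_nat C
    rw [tendsto_pi_nhds] at h
    have h5 := h y
    rw [hC.closure_eq] at h5
    rw [← NNReal.tendsto_coe] at h5
    have e : ((C.indicator (fun _ => (1 : ℝ≥0)) y : ℝ≥0) : ℝ) = C.indicator (fun _ => (1 : ℝ)) y := by
      by_cases hy : y ∈ C
      · rw [indicator_of_mem hy, indicator_of_mem hy, NNReal.coe_one]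
      · rw [indicator_of_notMem hy, indicator_of_notMem hy, NNReal.coe_zero]
    rw [e] at h5
    rw [hFn]
    exact h5
  have mg : Measurable g := by
    rw [hg]
    exact ((measurable_const.indicator cCp.measurableSet).comp (lp_cont τ t0 ht).measurable).mul
      ((measurable_const.indicator cCq.measurableSet).comp (lq_cont τ t0 ht).measurable)
  have i01 : ∀ (C : Set CI3) y, 0 ≤ C.indicator (fun _ => (1 : ℝ)) y ∧ C.indicator (fun _ => (1 : ℝ)) y ≤ 1 := by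
    intro C y
    by_cases hy : y ∈ C
    · rw [indicator_of_mem hy]
      exact ⟨zero_le_one, le_rfl⟩
    · rw [indicator_of_notMem hy]
      exact ⟨le_rfl, zero_le_one⟩
  have g01 : ∀ r, 0 ≤ g r ∧ g r ≤ 1 := by
    intro r
    rw [hg]
    exact ⟨mul_nonneg (i01 _ _).1 (i01 _ _).1, mul_le_one₀ (i01 _ _).2 (i01 _ _).1 (i01 _ _).2⟩
  have conv : Tendsto (fun n => ∫ r, |Fn Cp n (lp τ t0 ht r) * Fn Cq n (lq τ t0 ht r) - g r| ∂m) atTop (𝓝 0) := by
    have e0 : (0 : ℝ) = ∫ r, |g r - g r| ∂m := by simp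
    rw [e0]
    refine tendsto_integral_of_dominated_convergence (fun _ => 2) (fun n => ?_) (integrable_const _) (fun n => ?_) ?_
    · exact (continuous_abs.measurable.comp ((((Fcont Cp n).comp (lp_cont τ t0 ht)).mul
        ((Fcont Cq n).comp (lq_cont τ t0 ht))).measurable.sub mg)).aestronglyMeasurable
    · refine Eventually.of_forall fun r => ?_
      rw [Real.norm_eq_abs, abs_abs]
      refine (abs_sub _ _).trans ?_
      rw [abs_of_nonneg (mul_nonneg (F01 _ _ _).1 (F01 _ _ _).1), abs_of_nonneg (g01 r).1]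
      have := mul_le_one₀ (F01 Cp n (lp τ t0 ht r)).2 (F01 Cq n (lq τ t0 ht r)).1 (F01 Cq n (lq τ t0 ht r)).2
      linarith [(g01 r).2]
    · refine Eventually.of_forall fun r => ?_
      have h3 := (Flim Cp cCp.isClosed (lp τ t0 ht r)).mul (Flim Cq cCq.isClosed (lq τ t0 ht r))
      have h4 : g r = Cp.indicator (fun _ => (1 : ℝ)) (lp τ t0 ht r) * Cq.indicator (fun _ => (1 : ℝ)) (lq τ t0 ht r) := by
        rw [hg]
      rw [← h4] at h3
      exact (h3.sub_const (g r)).abs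
  obtain ⟨n, hn⟩ := (conv.eventually (gt_mem_nhds (show 0 < δ / 2 by positivity))).exists
  obtain ⟨K1, L1⟩ := Flip Cp n
  obtain ⟨K2, L2⟩ := Flip Cq n
  refine ⟨max K1 K2, Fn Cp n, Fn Cq n, Fcont _ _, Fcont _ _, F01 _ _, F01 _ _, L1.weaken (le_max_left _ _),
    L2.weaken (le_max_right _ _), ?_⟩
  have mSi : Measurable (S.indicator fun _ => (1 : ℝ)) := measurable_const.indicator mS
  have s01 : ∀ r, 0 ≤ S.indicator (fun _ => (1 : ℝ)) r ∧ S.indicator (fun _ => (1 : ℝ)) r ≤ 1 := by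
    intro r
    by_cases hy : r ∈ S
    · rw [indicator_of_mem hy]
      exact ⟨zero_le_one, le_rfl⟩
    · rw [indicator_of_notMem hy]
      exact ⟨le_rfl, zero_le_one⟩
  have mF : Measurable fun r => Fn Cp n (lp τ t0 ht r) * Fn Cq n (lq τ t0 ht r) :=
    (((Fcont Cp n).comp (lp_cont τ t0 ht)).mul ((Fcont Cq n).comp (lq_cont τ t0 ht))).measurable
  have ib : ∀ {f g : CI3 × ℝ → ℝ}, Measurable f → Measurable g → (∀ r, |f r| ≤ 1) → (∀ r, |g r| ≤ 1) →
      Integrable (fun r => |f r - g r|) m := by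
    intro f g hf hg hf1 hg1
    refine (integrable_const (2 : ℝ)).mono' (continuous_abs.measurable.comp (hf.sub hg)).aestronglyMeasurable
      (Eventually.of_forall fun r => ?_)
    rw [Real.norm_eq_abs, abs_abs]
    refine (abs_sub _ _).trans ?_
    linarith [hf1 r, hg1 r]
  have b1 : ∀ r, |Fn Cp n (lp τ t0 ht r) * Fn Cq n (lq τ t0 ht r)| ≤ 1 := fun r => by
    rw [abs_of_nonneg (mul_nonneg (F01 _ _ _).1 (F01 _ _ _).1)]
    exact mul_le_one₀ (F01 _ _ _).2 (F01 _ _ _).1 (F01 _ _ _).2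
  have b2 : ∀ r, |g r| ≤ 1 := fun r => by
    rw [abs_of_nonneg (g01 r).1]
    exact (g01 r).2
  have b3 : ∀ r, |S.indicator (fun _ => (1 : ℝ)) r| ≤ 1 := fun r => by
    rw [abs_of_nonneg (s01 r).1]
    exact (s01 r).2
  have i1 := ib mF mg b1 b2
  have i2 := ib mg mSi b2 b3
  have e1 : ∫ x, |g x - S.indicator (fun _ => (1 : ℝ)) x| ∂m ≤ m.real E := by
    have e : ∫ r, E.indicator (fun _ => (1 : ℝ)) r ∂m = m.real E := integral_indicator_one mE
    rw [← e]
    refine integral_mono_ae i2 ((integrable_const _).indicator mE) ?_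
    filter_upwards [hGd] with r hr
    by_cases h6 : r ∈ E
    · rw [indicator_of_mem h6]
      have h8 := s01 r
      have h9 := g01 r
      rw [abs_le]
      constructor <;> linarith
    · rw [key r hr h6, sub_self, abs_zero, indicator_of_notMem h6]
  calc ∫ x, |psB τ t0 ht (Fn Cp n) (Fn Cq n) (Fcont _ _) (Fcont _ _) (F01 _ _) (F01 _ _) x - S.indicator (fun _ => (1 : ℝ)) x| ∂m ≤
        ∫ x, (|Fn Cp n (lp τ t0 ht x) * Fn Cq n (lq τ t0 ht x) - g x| + |g x - S.indicator (fun _ => (1 : ℝ)) x|) ∂m := by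
        refine integral_mono (ib mF mSi b1 b3) (i1.add i2) fun r => ?_
        rw [psB_apply]
        exact abs_sub_le _ _ _
    _ = _ := integral_add i1 i2
    _ ≤ 2 * δ := by linarith

end Pool.Agent.ROT.F3E

end
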