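import Pool.Agent.ROT.F3N1P
import Pool.Agent.ROT.F3ArmC

/-!
# ROT / F3ArmP (helper48): from an arm with three cuts to the double gate (native and foreign)

`ArmC`, `CutA` of helper87 (F3ArmC). `Room P D δ` : the inequalities of the prefix half, `RoomF P D δ F` : those of the rest half.
* `first_cut` : the first cut of the arm with level at least `l`;
* **`arm_pm`** : the prefix half: `PreM e P S T (w.take k2) k1`;
* **`arm_pre`** : `w = p ++ R`, `PreM`, `EdQ`; **`arm_ot`** : `w = p ++ (b ++ R)`, `p ∈ Pre`, `b ∈ OtB`, `RestC (g S)`.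
-/

set_option autoImplicit false

namespace Pool.Agent.ROT.F3

open Finset ComplexConjugate
open scoped ENNReal Classical

section armc

variable {e : ℂ} {w : W3} {s : ℕ}

/-- **the first cut with level at least `l`** -/
theorem first_cut {l : ℝ} {c0 : ℕ} (hc : CutA e w s c0) (hl : l ≤ lv e (ps w c0)) :
    ∃ k : ℕ, CutA e w s k ∧ k ≤ c0 ∧ l ≤ lv e (ps w k) ∧ lv e (ps w k) ≤ lv e (ps w c0) ∧
      ∀ j : ℕ, CutA e w s j → l ≤ lv e (ps w j) → k ≤ j := by
  have hex : ∃ k : ℕ, CutA e w s k ∧ l ≤ lv e (ps w k) := ⟨c0, hc, hl⟩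
  obtain ⟨k1, k2⟩ := Nat.find_spec hex
  have hmin : Nat.find hex ≤ c0 := Nat.find_min' hex ⟨hc, hl⟩
  exact ⟨Nat.find hex, k1, hmin, k2, hc.2.2.1 _ hmin, fun j hj hj' => Nat.find_min' hex ⟨hj, hj'⟩⟩

/-- cuts of a prefix which ends at a cut are cuts -/
lemma cutA_of {k j : ℕ} (hs : s ≤ w.length) (hk : CutA e w s k) (ej : Even j) (hj : j < k) (h : CutC e (w.take k) j) :
    CutA e w s j := by
  obtain ⟨k1, k2, k3, k4⟩ := hk
  rw [cut_take (k2.trans hs) hj.le] at h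
  refine ⟨ej, hj.le.trans k2, h.1, fun i hi hi' => ?_⟩
  rcases Nat.lt_or_ge k i with h5 | h5
  · exact lt_of_le_of_lt (k3 j hj.le) (k4 i h5 hi')
  · exact h.2 i hi h5

/-- **the prefix up to the first cut** -/
theorem tip_cut (he : ‖e‖ = 1) {D r l : ℝ} (hs : s ≤ w.length) (hsw : ∀ i j : ℕ, i ≤ s → j ≤ s → ps w i = ps w j → i = j)
    (A : ArmC D e w s) {k : ℕ} (hk : CutA e w s k) (hl : 0 < l) (h1 : l ≤ lv e (ps w k))
    (hm : ∀ j : ℕ, CutA e w s j → l ≤ lv e (ps w j) → k ≤ j) (hr : lv e (ps w k) + 2 * D ≤ r) :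
    TipC e r (w.take k) ∧ FstC e l (w.take k) := by
  obtain ⟨k1, k2, k3, k4⟩ := hk
  have hkw : k ≤ w.length := k2.trans hs
  have hlen : (w.take k).length = k := by rw [List.length_take, min_eq_left hkw]
  have hk0 : 0 < k := by
    rcases Nat.eq_zero_or_pos k with h | h
    · rw [h, ps_zero, lv_zero] at h1
      linarith
    · exact h
  refine ⟨⟨?_, ?_, ?_, ?_, ?_⟩, ?_, ?_⟩
  · rw [hlen]
    exact k1
  · intro i j hi hj he'
    rw [hlen] at hi hj
    rw [ps_take w hi hkw, ps_take w hj hkw] at he'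
    exact hsw i j (by omega) (by omega) he'
  · rw [hlen]
    exact hk0
  · intro j hj
    rw [hlen] at hj
    rw [en_take w hkw, ps_take w hj hkw]
    exact k3 j hj
  · intro j hj
    rw [hlen] at hj
    rw [ps_take w hj hkw]
    obtain ⟨τ, t0, t1⟩ := A.near j (by omega)
    have := norm_near he t0 t1
    have := k3 j hj
    linarith
  · rw [en_take w hkw]
    exact h1
  · intro j hj hjk hj'
    rw [hlen] at hjk
    rw [ps_take w hjk.le hkw]
    by_contra hcon
    have := hm j (cutA_of hs ⟨k1, k2, k3, k4⟩ hj hjk hj') (not_lt.1 hcon)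
    omega

/-- **the block between two cuts**: `k'` = the first cut with level at least `m` over the cut `k` -/
theorem blk_cut (he : ‖e‖ = 1) {D r m : ℝ} (hs : s ≤ w.length) (hsw : ∀ i j : ℕ, i ≤ s → j ≤ s → ps w i = ps w j → i = j)
    (A : ArmC D e w s) {k k' : ℕ} (hk : CutA e w s k) (hk' : CutA e w s k') (hm : 0 < m)
    (h1 : m ≤ lv e (ps w k') - lv e (ps w k))
    (h2 : ∀ j : ℕ, CutA e w s j → m ≤ lv e (ps w j) - lv e (ps w k) → k' ≤ j)
    (hr : lv e (ps w k') - lv e (ps w k) + 4 * D ≤ r) :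
    k < k' ∧ BlkC e r ((w.take k').drop k) ∧ FstC e m ((w.take k').drop k) ∧
      ((w.take k').drop k).length = k' - k ∧ en ((w.take k').drop k) = ps w k' - ps w k ∧
      (∀ j : ℕ, j ≤ ((w.take k').drop k).length → ‖ps ((w.take k').drop k) j‖ ≤ lv e (ps ((w.take k').drop k) j) + 4 * D ∧
        |ltl e (ps ((w.take k').drop k) j)| ≤ 2 * D) ∧
      (∀ c : ℕ, CutA e w s c → lv e (ps w k) < lv e (ps w c) → lv e (ps w c) < lv e (ps w k') →
        ThC e (lv e (ps w c) - lv e (ps w k)) ((w.take k').drop k)) := by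
  obtain ⟨k1, k2, k3, k4⟩ := hk
  obtain ⟨g1, g2, g3, g4⟩ := hk'
  have hkk : k < k' := by
    by_contra hcon
    have := k3 k' (not_lt.1 hcon)
    linarith
  have hkw : k' ≤ w.length := g2.trans hs
  obtain ⟨l1, l2⟩ := drop_take (w := w) hkk.le hkw k1
  have hen : en ((w.take k').drop k) = ps w k' - ps w k := by rw [en, l1, l2 _ le_rfl, Nat.add_sub_cancel' hkk.le]
  obtain ⟨τ0, t0, n0⟩ := A.near k k2
  have hball : ∀ j : ℕ, j ≤ ((w.take k').drop k).length →
      ‖ps ((w.take k').drop k) j‖ ≤ lv e (ps ((w.take k').drop k) j) + 4 * D ∧ |ltl e (ps ((w.take k').drop k) j)| ≤ 2 * D := by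
    intro j hj
    rw [l1] at hj
    rw [l2 j hj, lv_sub]
    obtain ⟨τ, t1, n1⟩ := A.near (k + j) (by omega)
    refine ⟨near_two he n1 n0 ?_, ltl_near he n1 n0⟩
    rcases Nat.eq_zero_or_pos j with h | h
    · rw [h, add_zero]
    · exact (k4 (k + j) (by omega) (by omega)).le
  refine ⟨hkk, ⟨⟨?_, ?_, ?_, ?_, ?_⟩, ?_⟩, ⟨?_, ?_⟩, l1, hen, hball, ?_⟩
  · rw [l1]
    obtain ⟨x, hx⟩ := g1
    obtain ⟨y, hy⟩ := k1
    exact ⟨x - y, by omega⟩
  · intro i j hi hj he'
    rw [l1] at hi hj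
    rw [l2 i hi, l2 j hj, sub_left_inj] at he'
    have := hsw (k + i) (k + j) (by omega) (by omega) he'
    omega
  · rw [l1]
    omega
  · intro j hj
    rw [l1] at hj
    rw [hen, l2 j hj, lv_sub, lv_sub]
    have := g3 (k + j) (by omega)
    linarith
  · intro j hj
    have h3 := (hball j hj).1
    rw [l1] at hj
    rw [l2 j hj, lv_sub] at h3
    rw [l2 j hj]
    have := g3 (k + j) (by omega)
    linarith
  · intro j hj hj'
    rw [l1] at hj'
    rw [l2 j hj', lv_sub]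
    have := k4 (k + j) (by omega) (by omega)
    linarith
  · rw [hen, lv_sub]
    exact h1
  · intro j hj hj' hcj
    rw [l1] at hj'
    rw [l2 j hj'.le, lv_sub]
    by_contra hcon
    refine absurd (h2 (k + j) ⟨k1.add hj, by omega, fun i hi => ?_, fun i hi hi' => ?_⟩ (not_lt.1 hcon)) (by omega)
    · rcases Nat.le_total i k with h | h
      · have h3 := hcj.1 0 (Nat.zero_le _)
        rw [ps_zero, lv_zero, l2 j hj'.le, lv_sub] at h3
        linarith [k3 i h]
      · have h3 := hcj.1 (i - k) (by omega)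
        rw [l2 j hj'.le, l2 (i - k) (by omega), Nat.add_sub_cancel' h, lv_sub, lv_sub] at h3
        linarith
    · rcases Nat.lt_or_ge k' i with h | h
      · exact lt_of_le_of_lt (g3 (k + j) (by omega)) (g4 i h hi')
      · have h3 := hcj.2 (i - k) (by omega) (by rw [l1]; omega)
        rw [l2 j hj'.le, l2 (i - k) (by omega), Nat.add_sub_cancel' (by omega), lv_sub, lv_sub] at h3
        linarith
  · rintro c ⟨c1, c2, c3, c4⟩ h3 h4
    have hkc : k < c := by
      by_contra hcon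
      have := k3 c (not_lt.1 hcon)
      linarith
    have hck : c < k' := by
      by_contra hcon
      have := c3 k' (not_lt.1 hcon)
      linarith
    refine ⟨c - k, ?_, by omega, by rw [l1]; omega, ⟨fun j hj => ?_, fun j hj hj' => ?_⟩, ?_⟩
    · obtain ⟨x, hx⟩ := c1
      obtain ⟨y, hy⟩ := k1
      exact ⟨x - y, by omega⟩
    · rw [l2 j (by omega), l2 (c - k) (by omega), Nat.add_sub_cancel' hkc.le, lv_sub, lv_sub]
      have := c3 (k + j) (by omega)
      linarith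
    · rw [l1] at hj'
      rw [l2 j (by omega), l2 (c - k) (by omega), Nat.add_sub_cancel' hkc.le, lv_sub, lv_sub]
      have := c4 (k + j) (by omega) (by omega)
      linarith
    · rw [l2 (c - k) (by omega), Nat.add_sub_cancel' hkc.le, lv_sub]

/-- **the inequalities of the prefix half** (units `S`): `D` = width of the arm, `δ` = windows of the levels of the cuts -/
structure Room (P : Tp) (D δ : ℝ) : Prop where
  D0 : 0 ≤ D
  δ0 : 0 ≤ δ
  r : P.l + δ + 2 * D ≤ P.r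
  r2 : P.m + 2 * δ + 4 * D ≤ P.r2
  κ1 : 4 * D ≤ P.κ1
  κ : 4 * D ≤ P.κ
  e : P.e + 2 * D ≤ (1 - P.cs) * P.l

/-- **the inequalities of the rest half**: nothing behind the arm is in the ball `F` -/
structure RoomF (P : Tp) (D δ F : ℝ) : Prop where
  rg : P.l + P.m + 2 * δ + 2 * D + P.rg < F
  r0 : P.l + P.m + 2 * δ + 2 * D + P.r0 < F

/-- **the prefix half**: the double gate of an arm with three cuts -/
theorem arm_pm (he : ‖e‖ = 1) {P : Tp} (hP : P.Ok) {S T D δ : ℝ} (hS : 0 < S) (hs : s ≤ w.length)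
    (hsw : ∀ i j : ℕ, i ≤ s → j ≤ s → ps w i = ps w j → i = j) (A : ArmC (D * S) e w s) (hR : Room P D δ)
    (hla : (s : ℝ) ≤ P.la * T) (hlb : (s : ℝ) ≤ P.lb * T) {c1 c2 c3 : ℕ} (C1 : CutA e w s c1) (C2 : CutA e w s c2)
    (C3 : CutA e w s c3) (a1 : P.l * S ≤ lv e (ps w c1)) (a2 : lv e (ps w c1) ≤ (P.l + δ) * S)
    (b1 : (P.l + P.th * P.m + δ) * S ≤ lv e (ps w c2)) (b2 : lv e (ps w c2) < (P.l + P.m) * S)
    (d1 : (P.l + P.m + δ) * S ≤ lv e (ps w c3)) (d2 : lv e (ps w c3) ≤ (P.l + P.m + 2 * δ) * S) :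
    ∃ k1 k2 : ℕ, CutA e w s k1 ∧ CutA e w s k2 ∧ k1 < k2 ∧ k2 ≤ c3 ∧ P.l * S ≤ lv e (ps w k1) ∧
      lv e (ps w k1) ≤ (P.l + δ) * S ∧ P.m * S ≤ lv e (ps w k2) - lv e (ps w k1) ∧
      lv e (ps w k2) ≤ (P.l + P.m + 2 * δ) * S ∧ PreM e P S T (w.take k2) k1 := by
  have p1 : 0 < P.l * S := mul_pos hP.l hS
  have p2 : 0 < P.m * S := mul_pos hP.m hS
  obtain ⟨k1, K1, e1, e2, e3, e4⟩ := first_cut C1 a1
  obtain ⟨k2, K2, f1, f2, f3, f4⟩ := first_cut (l := lv e (ps w k1) + P.m * S) C3 (by nlinarith)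
  have hr := mul_le_mul_of_nonneg_right hR.r hS.le
  have hr2 := mul_le_mul_of_nonneg_right hR.r2 hS.le
  have hκ1 := mul_le_mul_of_nonneg_right hR.κ1 hS.le
  have he2 := mul_le_mul_of_nonneg_right hR.e hS.le
  have hDS : 0 ≤ D * S := mul_nonneg hR.D0 hS.le
  obtain ⟨g1, g2⟩ := tip_cut he (r := P.r * S) hs hsw A K1 p1 e2 e4 (by nlinarith)
  obtain ⟨h1, h2, h3, h4, h5, h6, h7⟩ := blk_cut he (r := P.r2 * S) hs hsw A K1 K2 p2 (by linarith)
    (fun j hj hj' => f4 j hj (by linarith)) (by nlinarith)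
  have hkw : k2 ≤ w.length := K2.2.1.trans hs
  have hlen : (w.take k2).length = k2 := by rw [List.length_take, min_eq_left hkw]
  have htt : (w.take k2).take k1 = w.take k1 := by rw [List.take_take, min_eq_left h1.le]
  have hcs : P.cs < 1 := by linarith [hP.c, hP.c1]
  have hl2 : lv e (ps w k2) ≤ (P.l + P.m + 2 * δ) * S := f3.trans d2
  refine ⟨k1, k2, K1, K2, h1, f1, e2, e3.trans a2, by linarith, hl2, ⟨⟨?_, ?_, ?_, ?_, ?_⟩, ?_, ?_, ?_, ?_, ?_⟩⟩
  · rw [hlen]
    exact h1.le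
  · rw [htt]
    exact g1
  · rw [htt]
    exact g2
  · exact h2
  · exact h3
  · obtain ⟨j, j1, j2, j3, j4, j5⟩ := h7 c2 C2 (by
      have : 0 < P.th * P.m * S := mul_pos (mul_pos hP.th hP.m) hS
      nlinarith) (by nlinarith)
    refine ⟨j, j1, j2, j3, j4, le_trans ?_ j5⟩
    nlinarith
  · rw [htt]
    unfold EndQ
    rw [en_take w (h1.le.trans hkw)]
    obtain ⟨τ, t0, t1⟩ := A.near k1 K1.2.1
    have i3 := norm_near he t0 t1
    have i5 : 1 / 2 < P.cs := hP.cs
    have i6 : P.cs * ‖ps w k1‖ ≤ P.cs * (lv e (ps w k1) + 2 * (D * S)) := mul_le_mul_of_nonneg_left i3 (by linarith)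
    have i7 : (1 - P.cs) * (P.l * S) ≤ (1 - P.cs) * lv e (ps w k1) := mul_le_mul_of_nonneg_left e2 (by linarith)
    have i8 : P.cs * (2 * (D * S)) ≤ 2 * (D * S) := mul_le_of_le_one_left (by linarith) hcs.le
    linarith
  · intro j hj
    have i3 := (h6 j hj).1
    unfold Kn
    have i6 : P.c * ‖ps ((w.take k2).drop k1) j‖ ≤ ‖ps ((w.take k2).drop k1) j‖ :=
      mul_le_of_le_one_left (norm_nonneg _) (by linarith [hP.c1])
    linarith
  · refine le_trans ?_ hla
    exact_mod_cast K1.2.1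
  · refine le_trans ?_ hlb
    have i3 : ((w.take k2).drop k1).length ≤ s := by
      rw [h4]
      have := K2.2.1
      omega
    exact_mod_cast i3

/-- the rest behind a cut `k` of the arm, if everything behind the arm is far -/
theorem rest_cut (he : ‖e‖ = 1) {D ρ g : ℝ} (hs : s ≤ w.length) (A : ArmC D e w s) {k : ℕ} (hk : CutA e w s k)
    (hfar : ∀ i : ℕ, s < i → i ≤ w.length → ρ ≤ ‖ps w i‖) (h1 : lv e (ps w k) + 2 * D + g < ρ) :
    RestC e g (w.drop k) := by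
  obtain ⟨k1, k2, k3, k4⟩ := hk
  obtain ⟨τ0, t0, n0⟩ := A.near k k2
  have hx := norm_near he t0 n0
  intro j hj hj' hn
  rw [List.length_drop] at hj'
  rw [ps_append_drop w (k2.trans hs) k1] at hn ⊢
  rcases Nat.lt_or_ge s (k + j) with h | h
  · exfalso
    have h3 := hfar (k + j) h (by omega)
    have h4 : ‖ps w (k + j)‖ ≤ ‖ps w (k + j) - ps w k‖ + ‖ps w k‖ := by
      have := norm_add_le (ps w (k + j) - ps w k) (ps w k)
      rwa [sub_add_cancel] at this
    linarith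
  · rw [lv_sub]
    have := k4 (k + j) (by omega) h
    linarith

/-- **the double gate and the rest** -/
theorem arm_pre (he : ‖e‖ = 1) {P : Tp} (hP : P.Ok) {S T D δ F : ℝ} (hS : 0 < S) (hev : Even w.length) (hSW : SW w)
    (hs : s ≤ w.length) (A : ArmC (D * S) e w s) (hfar : ∀ i : ℕ, s < i → i ≤ w.length → F * S ≤ ‖ps w i‖)
    (hR : Room P D δ) (hF : RoomF P D δ F)
    (hla : (s : ℝ) ≤ P.la * T) (hlb : (s : ℝ) ≤ P.lb * T) {c1 c2 c3 : ℕ} (C1 : CutA e w s c1) (C2 : CutA e w s c2)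
    (C3 : CutA e w s c3) (a1 : P.l * S ≤ lv e (ps w c1)) (a2 : lv e (ps w c1) ≤ (P.l + δ) * S)
    (b1 : (P.l + P.th * P.m + δ) * S ≤ lv e (ps w c2)) (b2 : lv e (ps w c2) < (P.l + P.m) * S)
    (d1 : (P.l + P.m + δ) * S ≤ lv e (ps w c3)) (d2 : lv e (ps w c3) ≤ (P.l + P.m + 2 * δ) * S) :
    ∃ (p : W3) (k : ℕ) (R : W3), w = p ++ R ∧ Even R.length ∧ PreM e P S T p k ∧ EdQ e P S R ∧ p.length ≤ c3 ∧
      CutA e w s k ∧ CutA e w s p.length ∧
      P.l * S ≤ lv e (ps w k) ∧ lv e (ps w k) ≤ (P.l + δ) * S ∧ lv e (en p) ≤ (P.l + P.m + 2 * δ) * S := by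
  obtain ⟨k1, k2, K1, K2, h1, h2, h3, h4, h5, h6, h7⟩ := arm_pm he hP hS hs
    (fun i j hi hj h => hSW i j (hi.trans hs) (hj.trans hs) h) A hR hla hlb C1 C2 C3 a1 a2 b1 b2 d1 d2
  have hkw : k2 ≤ w.length := K2.2.1.trans hs
  have hlen : (w.take k2).length = k2 := by rw [List.length_take, min_eq_left hkw]
  refine ⟨w.take k2, k1, w.drop k2, (List.take_append_drop _ _).symm, ?_, h7, ⟨?_, ?_⟩, by rw [hlen]; exact h2, K1,
    by rw [hlen]; exact K2, h3, h4, by rw [en_take w hkw]; exact h6⟩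
  · rw [List.length_drop]
    obtain ⟨x, hx⟩ := hev
    obtain ⟨y, hy⟩ := K2.1
    exact ⟨x - y, by omega⟩
  · refine rest_cut he hs A K2 hfar ?_
    have := mul_lt_mul_of_pos_right hF.rg hS
    linarith
  · intro j hj
    rw [List.length_drop] at hj
    rw [ps_append_drop w hkw K2.1]
    obtain ⟨τ0, t0, n0⟩ := A.near k2 K2.2.1
    have hx := norm_near he t0 n0
    rcases Nat.lt_or_ge s (k2 + j) with h | h
    · right
      have i3 := hfar (k2 + j) h (by omega)
      have i4 : ‖ps w (k2 + j)‖ ≤ ‖ps w (k2 + j) - ps w k2‖ + ‖ps w k2‖ := by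
        have := norm_add_le (ps w (k2 + j) - ps w k2) (ps w k2)
        rwa [sub_add_cancel] at this
      have i5 : 0 < P.κ * S := mul_pos hP.κ hS
      have i6 := mul_lt_mul_of_pos_right hF.r0 hS
      linarith
    · left
      obtain ⟨τ, t1, n1⟩ := A.near (k2 + j) h
      have i3 : lv e (ps w k2) ≤ lv e (ps w (k2 + j)) := by
        rcases Nat.eq_zero_or_pos j with h8 | h8
        · rw [h8, add_zero]
        · exact (K2.2.2.2 (k2 + j) (by omega) h).le
      have i4 := near_two he n1 n0 i3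
      unfold Kn
      rw [lv_sub]
      have i6 : P.c * ‖ps w (k2 + j) - ps w k2‖ ≤ ‖ps w (k2 + j) - ps w k2‖ :=
        mul_le_of_le_one_left (norm_nonneg _) (by linarith [hP.c1])
      have i7 := mul_le_mul_of_nonneg_right hR.κ hS.le
      linarith

/-- **the inequalities of the outer block** and the no return radius `g` behind it -/
structure RoomO (P : Tp) (O : Ot) (D δ g F : ℝ) : Prop where
  m : 0 < O.m
  r : O.m + 3 * δ + 4 * D ≤ O.r
  hw : 2 * D ≤ O.hw
  κ : 4 * D ≤ O.κ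
  c0 : 0 ≤ O.c
  c1 : O.c ≤ 1
  e : O.e + 4 * D ≤ (1 - O.c) * O.m
  far : P.l + P.m + O.m + 3 * δ + 2 * D + g < F

/-- **double gate, outer block, rest** -/
theorem arm_ot (he : ‖e‖ = 1) {P : Tp} (hP : P.Ok) {O : Ot} {S T D δ g F : ℝ} (hS : 0 < S) (hev : Even w.length) (hSW : SW w)
    (hs : s ≤ w.length) (A : ArmC (D * S) e w s) (hfar : ∀ i : ℕ, s < i → i ≤ w.length → F * S ≤ ‖ps w i‖)
    (hR : Room P D δ) (hO : RoomO P O D δ g F)
    (hla : (s : ℝ) ≤ P.la * T) (hlb : (s : ℝ) ≤ P.lb * T) (hlo : (s : ℝ) ≤ O.lb * T) {c1 c2 c3 c4 : ℕ}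
    (C1 : CutA e w s c1) (C2 : CutA e w s c2) (C3 : CutA e w s c3) (C4 : CutA e w s c4)
    (a1 : P.l * S ≤ lv e (ps w c1)) (a2 : lv e (ps w c1) ≤ (P.l + δ) * S)
    (b1 : (P.l + P.th * P.m + δ) * S ≤ lv e (ps w c2)) (b2 : lv e (ps w c2) < (P.l + P.m) * S)
    (d1 : (P.l + P.m + δ) * S ≤ lv e (ps w c3)) (d2 : lv e (ps w c3) ≤ (P.l + P.m + 2 * δ) * S)
    (f1 : (P.l + P.m + O.m + 2 * δ) * S ≤ lv e (ps w c4)) (f2 : lv e (ps w c4) ≤ (P.l + P.m + O.m + 3 * δ) * S) :
    ∃ p b R : W3, w = p ++ (b ++ R) ∧ Even R.length ∧ p ∈ Pre e P S T ∧ b ∈ OtB e O S T ∧ RestC e (g * S) R ∧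
      (∃ k1 : ℕ, PreM e P S T p k1 ∧ CutA e w s k1 ∧ P.l * S ≤ lv e (ps w k1) ∧ lv e (ps w k1) ≤ (P.l + δ) * S) ∧
      CutA e w s p.length ∧ CutA e w s (p.length + b.length) ∧ p.length ≤ c3 ∧ p.length + b.length ≤ c4 ∧
      lv e (en p) ≤ (P.l + P.m + 2 * δ) * S := by
  have p3 : 0 < O.m * S := mul_pos hO.m hS
  have hsw : ∀ i j : ℕ, i ≤ s → j ≤ s → ps w i = ps w j → i = j := fun i j hi hj h => hSW i j (hi.trans hs) (hj.trans hs) h
  obtain ⟨k1, k2, K1, K2, h1, h2, h3, h4, h5, h6, h7⟩ := arm_pm he hP hS hs hsw A hR hla hlb C1 C2 C3 a1 a2 b1 b2 d1 d2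
  obtain ⟨k3, K3, j1, j2, j3, j4⟩ := first_cut (l := lv e (ps w k2) + O.m * S) C4 (by linarith)
  have hr := mul_le_mul_of_nonneg_right hO.r hS.le
  have hDS : 0 ≤ D * S := mul_nonneg hR.D0 hS.le
  obtain ⟨i1, i2, i3, i4, i5, i6, i7⟩ := blk_cut he (r := O.r * S) hs hsw A K2 K3 p3 (by linarith)
    (fun j hj hj' => j4 j hj (by linarith)) (by linarith)
  have hkw : k2 ≤ w.length := K2.2.1.trans hs
  have hkw3 : k3 ≤ w.length := K3.2.1.trans hs
  have hlen : (w.take k2).length = k2 := by rw [List.length_take, min_eq_left hkw]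
  have hsum : (w.take k2).length + ((w.take k3).drop k2).length = k3 := by
    rw [hlen, i4]
    omega
  refine ⟨w.take k2, (w.take k3).drop k2, w.drop k3, ?_, ?_, ⟨k1, h7⟩, ⟨i2, i3, fun j hj => ?_, fun j hj => ?_, ?_, ?_⟩, ?_,
    ⟨k1, h7, K1, h3, h4⟩, by rw [hlen]; exact K2, by rw [hsum]; exact K3, by rw [hlen]; exact h2, by rw [hsum]; exact j1,
    by rw [en_take w hkw]; exact h6⟩
  · have e1 : w = w.take k3 ++ w.drop k3 := (List.take_append_drop _ _).symm
    have e3 : w.take k3 = (w.take k3).take k2 ++ (w.take k3).drop k2 := (List.take_append_drop _ _).symm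
    have e4 : (w.take k3).take k2 = w.take k2 := by rw [List.take_take, min_eq_left i1.le]
    rw [e4] at e3
    calc w = w.take k3 ++ w.drop k3 := e1
      _ = (w.take k2 ++ (w.take k3).drop k2) ++ w.drop k3 := by rw [← e3]
      _ = _ := List.append_assoc _ _ _
  · rw [List.length_drop]
    obtain ⟨x, hx⟩ := hev
    obtain ⟨y, hy⟩ := K3.1
    exact ⟨x - y, by omega⟩
  · have := mul_le_mul_of_nonneg_right hO.hw hS.le
    linarith [(i6 j hj).2]
  · have q3 := (i6 j hj).1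
    unfold Kn
    have q6 : O.c * ‖ps ((w.take k3).drop k2) j‖ ≤ ‖ps ((w.take k3).drop k2) j‖ :=
      mul_le_of_le_one_left (norm_nonneg _) hO.c1
    have := mul_le_mul_of_nonneg_right hO.κ hS.le
    linarith
  · unfold EndQ
    have q3 := (i6 _ le_rfl).1
    have q1 : ps ((w.take k3).drop k2) ((w.take k3).drop k2).length = en ((w.take k3).drop k2) := rfl
    rw [q1] at q3
    have q4 : O.m * S ≤ lv e (en ((w.take k3).drop k2)) := by
      rw [i5, lv_sub]
      linarith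
    have q5 : O.c * ‖en ((w.take k3).drop k2)‖ ≤ O.c * (lv e (en ((w.take k3).drop k2)) + 4 * (D * S)) :=
      mul_le_mul_of_nonneg_left q3 hO.c0
    have q6 : (1 - O.c) * (O.m * S) ≤ (1 - O.c) * lv e (en ((w.take k3).drop k2)) :=
      mul_le_mul_of_nonneg_left q4 (by linarith [hO.c1])
    have q7 : O.c * (4 * (D * S)) ≤ 4 * (D * S) := mul_le_of_le_one_left (by linarith) hO.c1
    have q8 := mul_le_mul_of_nonneg_right hO.e hS.le
    linarith
  · refine le_trans ?_ hlo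
    have q3 : ((w.take k3).drop k2).length ≤ s := by
      rw [i4]
      have := K3.2.1
      omega
    exact_mod_cast q3
  · refine rest_cut he hs A K3 hfar ?_
    have := mul_lt_mul_of_pos_right hO.far hS
    linarith

end armc

end Pool.Agent.ROT.F3
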