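import Pool.Agent.ROT.F3ArmP

/-!
# ROT / F3ArmQ (helper48): both strands at the root of a closed word

* `cl_rev`, `cl_inj`, `cl_inj_rev`, `cl_cross` : the vertices of a closed word and of its reversal;
* `paiM_arm` : two double gates on two arms => `PaiM`;
* `rest_two` : the rest between the two gates is strictly right of its start in a small ball;
* **`arms_word`** : `w = a1 ++ (R ++ a2.reverse)`, `(a1, a2) ∈ Pai`, `RsC d d' (ρ0 S) (ρ0 S) (δ0 S) R`.
-/

set_option autoImplicit false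

namespace Pool.Agent.ROT.F3

open Finset ComplexConjugate
open scoped ENNReal Classical

lemma cl_rev {w : W3} (hc : Cl w) {j : ℕ} (hj : j ≤ w.length) : ps w.reverse j = ps w (w.length - j) := by
  rw [ps_reverse hc.1 hj, hc.2.1, sub_zero]

lemma cl_inj {w : W3} (hc : Cl w) {s : ℕ} (hs : s < w.length) {i j : ℕ} (hi : i ≤ s) (hj : j ≤ s) (h : ps w i = ps w j) :
    i = j := hc.2.2 i j (by omega) (by omega) h

/-- a common vertex of the word and the reversed word -/
lemma cl_cross {w : W3} (hc : Cl w) {i j : ℕ} (hi : i < w.length) (hj : j ≤ w.length) (h : ps w i = ps w.reverse j) :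
    (i = 0 ∧ j = 0) ∨ (0 < j ∧ i + j = w.length) := by
  rw [cl_rev hc hj] at h
  rcases Nat.eq_zero_or_pos j with hj0 | hj0
  · left
    rw [hj0, Nat.sub_zero, show ps w w.length = en w from rfl, hc.2.1, ← ps_zero w] at h
    exact ⟨hc.2.2 i 0 hi (by omega) h, hj0⟩
  · right
    have := hc.2.2 i (w.length - j) hi (by omega) h
    exact ⟨hj0, by omega⟩

lemma cl_inj_rev {w : W3} (hc : Cl w) {t : ℕ} (ht : t < w.length) {i j : ℕ} (hi : i ≤ t) (hj : j ≤ t)
    (h : ps w.reverse i = ps w.reverse j) : i = j := by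
  rcases Nat.eq_zero_or_pos i with hi0 | hi0
  · rw [hi0, ps_zero, ← ps_zero w] at h
    rcases cl_cross hc (by omega : 0 < w.length) (hj.trans ht.le) h with ⟨-, h2⟩ | ⟨h2, h3⟩
    · omega
    · omega
  · rw [cl_rev hc (hi.trans ht.le)] at h
    rcases cl_cross hc (by omega : w.length - i < w.length) (hj.trans ht.le) h with ⟨h2, h3⟩ | ⟨h2, h3⟩
    · omega
    · omega

lemma cl_reverse {w : W3} (hc : Cl w) : Cl w.reverse := by
  refine ⟨by rw [List.length_reverse]; exact hc.1, by rw [en_reverse hc.1, hc.2.1, neg_zero], fun i j hi hj h => ?_⟩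
  rw [List.length_reverse] at hi hj
  rcases Nat.lt_or_ge i j with h1 | h1
  · exact cl_inj_rev hc hj h1.le le_rfl h
  · exact cl_inj_rev hc hi le_rfl h1 h

/-- the level of a vertex near the ray of the other direction -/
lemma near_other {d d' : ℂ} (hd : ‖d‖ = 1) (h : lv d d' ≤ 0) {z : ℂ} {τ D : ℝ} (t0 : 0 ≤ τ) (t1 : ‖z - τ * d'‖ ≤ D) :
    lv d z ≤ D := by
  have e1 : lv d z = τ * lv d d' + lv d (z - τ * d') := by
    rw [lv_sub]
    have : lv d ((τ : ℂ) * d') = τ * lv d d' := by
      unfold lv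
      rw [show conj d * ((τ : ℂ) * d') = (τ : ℂ) * (conj d * d') by ring, Complex.re_ofReal_mul]
    rw [this]
    ring
  have e2 := (abs_le.1 (abs_lv hd (z - τ * d'))).2
  have e3 : τ * lv d d' ≤ 0 := mul_nonpos_of_nonneg_of_nonpos t0 h
  linarith

/-- **two double gates on two arms** -/
theorem paiM_arm {d d' : ℂ} (hd : ‖d‖ = 1) (hd' : ‖d'‖ = 1) (h1 : lv d d' ≤ 0) (h2 : lv d' d ≤ 0) {P P' : Tp} {S T D D' : ℝ}
    {w : W3} (hc : Cl w) {s t : ℕ} (hst : s + t ≤ w.length) (A : ArmC D d w s) (B : ArmC D' d' w.reverse t)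
    (hD : D' ≤ P.w * S) (hD' : D ≤ P'.w * S) {k1 k2 j1 j2 : ℕ} (K : k1 < k2) (K2 : k2 ≤ s) (J : j1 < j2) (J2 : j2 ≤ t)
    (p1 : PreM d P S T (w.take k2) k1) (p2 : PreM d' P' S T (w.reverse.take j2) j1) :
    PaiM d d' P P' S T (w.take k2, w.reverse.take j2) k1 j1 := by
  have hlr : w.reverse.length = w.length := List.length_reverse
  refine ⟨p1, p2, fun j hj => ?_, fun j hj => ?_, fun i j hi hj he => ?_⟩
  · left
    rw [ps_take _ (by omega) (by rw [hlr]; omega)]
    obtain ⟨τ, t0, t1⟩ := B.near j (by omega)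
    exact (near_other hd h1 t0 t1).trans hD
  · left
    rw [ps_take _ (by omega) (by omega)]
    obtain ⟨τ, t0, t1⟩ := A.near j (by omega)
    exact (near_other hd' h2 t0 t1).trans hD'
  · rw [ps_take _ (by omega) (by omega), ps_take _ (by omega) (by rw [hlr]; omega)] at he
    rcases cl_cross hc (by omega) (by omega) he with h | h
    · exact h
    · omega

/-- **the rest between the two gates**: strictly right of its start in a small ball -/
theorem rest_two {d d' : ℂ} (hd : ‖d‖ = 1) (h1 : lv d d' ≤ 0) {D D' ρ F : ℝ} {w : W3} (hc : Cl w) {s t : ℕ}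
    (hst : s + t ≤ w.length) (A : ArmC D d w s) (B : ArmC D' d' w.reverse t)
    (hfar : ∀ i : ℕ, s < i → i + t < w.length → F ≤ ‖ps w i‖) {k2 j2 : ℕ} (K2 : CutA d w s k2) (J2 : j2 ≤ t)
    (hl : ρ + D' < lv d (ps w k2)) (hF : lv d (ps w k2) + 2 * D + ρ < F) :
    RestC d ρ ((w.take (w.length - j2)).drop k2) := by
  have hk : k2 ≤ s := K2.2.1
  obtain ⟨l1, l2⟩ := drop_take (w := w) (k := k2) (k' := w.length - j2) (by omega) (by omega) K2.1
  obtain ⟨τ0, t0, n0⟩ := A.near k2 hk
  have hx := norm_near hd t0 n0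
  intro j hj hj' hn
  rw [l1] at hj'
  rw [l2 j hj'] at hn ⊢
  rcases Nat.lt_or_ge s (k2 + j) with h | h
  · exfalso
    rcases Nat.lt_or_ge (k2 + j + t) w.length with h3 | h3
    · have h4 := hfar (k2 + j) h h3
      have h5 : ‖ps w (k2 + j)‖ ≤ ‖ps w (k2 + j) - ps w k2‖ + ‖ps w k2‖ := by
        have := norm_add_le (ps w (k2 + j) - ps w k2) (ps w k2)
        rwa [sub_add_cancel] at this
      linarith
    · have h4 : ps w (k2 + j) = ps w.reverse (w.length - (k2 + j)) := by
        rw [cl_rev hc (by omega)]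
        congr 1
        omega
      obtain ⟨τ, t1, n1⟩ := B.near (w.length - (k2 + j)) (by omega)
      have h5 := near_other hd h1 t1 n1
      rw [← h4] at h5
      have h6 := (abs_le.1 (abs_lv hd (ps w (k2 + j) - ps w k2))).1
      rw [lv_sub] at h6
      linarith
  · rw [lv_sub]
    have := K2.2.2.2 (k2 + j) (by omega) h
    linarith

/-- **both strands at the root of a closed word** -/
theorem arms_word {d d' : ℂ} (hd : ‖d‖ = 1) (hd' : ‖d'‖ = 1) (h1 : lv d d' ≤ 0) (h2 : lv d' d ≤ 0) {P P' : Tp}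
    {S T D D' F ρ0 ρ0' δ0 : ℝ} {w : W3} (hc : Cl w) {s t : ℕ} (hst : s + t ≤ w.length) (A : ArmC D d w s)
    (B : ArmC D' d' w.reverse t) (hfar : ∀ i : ℕ, s < i → i + t < w.length → F ≤ ‖ps w i‖) (hD : D' ≤ P.w * S)
    (hD' : D ≤ P'.w * S) {k1 k2 j1 j2 : ℕ} (K : k1 < k2) (K2 : CutA d w s k2) (J : j1 < j2) (J2 : CutA d' w.reverse t j2)
    (p1 : PreM d P S T (w.take k2) k1) (p2 : PreM d' P' S T (w.reverse.take j2) j1) (hl : ρ0 + D' < lv d (ps w k2))
    (hl' : ρ0' + D < lv d' (ps w.reverse j2)) (hF : lv d (ps w k2) + 2 * D + ρ0 < F)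
    (hF' : lv d' (ps w.reverse j2) + 2 * D' + ρ0' < F) (hδ : δ0 + D' ≤ lv d (ps w k2)) :
    ∃ a1 a2 R : W3, w = a1 ++ (R ++ a2.reverse) ∧ a1 = w.take k2 ∧ a2 = w.reverse.take j2 ∧
      PaiM d d' P P' S T (a1, a2) k1 j1 ∧ RsC d d' ρ0 ρ0' δ0 R := by
  have hlr : w.reverse.length = w.length := List.length_reverse
  have hk : k2 ≤ s := K2.2.1
  have hj : j2 ≤ t := J2.2.1
  obtain ⟨l1, l2⟩ := drop_take (w := w) (k := k2) (k' := w.length - j2) (by omega) (by omega) K2.1
  have hrev : ((w.take (w.length - j2)).drop k2).reverse = (w.reverse.take (w.reverse.length - k2)).drop j2 := by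
    rw [List.reverse_drop, List.length_take, min_eq_left (Nat.sub_le _ _), List.reverse_take, List.take_drop, hlr,
      Nat.sub_sub_self (by omega : j2 ≤ w.length)]
    congr 2
    omega
  refine ⟨w.take k2, w.reverse.take j2, (w.take (w.length - j2)).drop k2, ?_, rfl, rfl,
    paiM_arm hd hd' h1 h2 hc hst A B hD hD' K hk J hj p1 p2, ⟨?_, ?_, ?_, ?_, ?_⟩⟩
  · have e1 : (w.reverse.take j2).reverse = w.drop (w.length - j2) := by
      rw [List.reverse_take, List.reverse_reverse, hlr]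
    have e2 : w.take (w.length - j2) = (w.take (w.length - j2)).take k2 ++ (w.take (w.length - j2)).drop k2 :=
      (List.take_append_drop _ _).symm
    have e3 : (w.take (w.length - j2)).take k2 = w.take k2 := by rw [List.take_take, min_eq_left (by omega)]
    rw [e3] at e2
    rw [e1, ← List.append_assoc, ← e2, List.take_append_drop]
  · rw [l1]
    obtain ⟨x, hx⟩ := hc.1
    obtain ⟨y, hy⟩ := K2.1
    obtain ⟨z, hz⟩ := J2.1
    exact ⟨x - z - y, by omega⟩
  · intro i j hi hj' he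
    rw [l1] at hi hj'
    rw [l2 i hi, l2 j hj', sub_left_inj] at he
    have := cl_inj hc (s := w.length - j2) (by omega) (i := k2 + i) (j := k2 + j) (by omega) (by omega) he
    omega
  · exact rest_two hd h1 hc hst A B hfar K2 hj hl hF
  · rw [hrev]
    refine rest_two (w := w.reverse) (s := t) (t := s) (F := F) (D := D') (D' := D) hd' h2 (cl_reverse hc)
      (by rw [hlr]; omega) B (by rw [List.reverse_reverse]; exact A) (fun i hi hi' => ?_) J2 (by omega) hl' hF'
    rw [hlr] at hi'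
    rw [cl_rev hc (by omega)]
    exact hfar _ (by omega) (by omega)
  · have e1 : en ((w.take (w.length - j2)).drop k2) = ps w (w.length - j2) - ps w k2 := by
      rw [en, l1, l2 _ le_rfl, Nat.add_sub_cancel' (by omega)]
    have e2 : ps w (w.length - j2) = ps w.reverse j2 := (cl_rev hc (by omega)).symm
    obtain ⟨τ, t1, n1⟩ := B.near j2 hj
    have e3 := near_other hd h1 t1 n1
    have e4 := (abs_le.1 (abs_lv hd (ps w (w.length - j2) - ps w k2))).1
    rw [lv_sub, e2] at e4
    rw [e1, e2]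
    linarith

end Pool.Agent.ROT.F3
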