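import Pool.Agent.ROT.F3Tri

/-!
# F3, row N4: partition of unity by small cells with a collar, and the sum over the cells (helper48)

`lip_cover`: a compact set is covered by finitely many Lipschitz functions with small supports whose sum is at most one, and is
one near the compact set. `cell_sum`: from the product formulas of the three pairs in the cells to the comparison of the two laws
of the main arc.
-/

set_option autoImplicit false

open Finset

namespace HexObs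
namespace ROT
namespace F3

/-- the product of two Lipschitz functions with values in `[0, 1]` -/
theorem lip_mul {X : Type*} [PseudoMetricSpace X] {f g : X → ℝ} {K L : NNReal} (hf : LipschitzWith K f)
    (hg : LipschitzWith L g) (f0 : ∀ x, 0 ≤ f x ∧ f x ≤ 1) (g0 : ∀ x, 0 ≤ g x ∧ g x ≤ 1) :
    LipschitzWith (K + L) fun x => f x * g x := by
  refine LipschitzWith.of_dist_le_mul fun x y => ?_
  have h1 := hf.dist_le_mul x y
  have h2 := hg.dist_le_mul x y
  rw [Real.dist_eq] at h1 h2 ⊢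
  have e : f x * g x - f y * g y = (f x - f y) * g x + f y * (g x - g y) := by ring
  rw [e]
  refine (abs_add_le _ _).trans ?_
  rw [abs_mul, abs_mul, abs_of_nonneg (g0 x).1, abs_of_nonneg (f0 y).1]
  have a1 : |f x - f y| * g x ≤ |f x - f y| := mul_le_of_le_one_right (abs_nonneg _) (g0 x).2
  have a2 : f y * |g x - g y| ≤ |g x - g y| := mul_le_of_le_one_left (abs_nonneg _) (f0 y).2
  push_cast
  nlinarith

/-- the tent function: `1` up to the distance `3 / 4 r`, `0` from the distance `r` on -/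
noncomputable def tent {X : Type*} [PseudoMetricSpace X] (a : X) (r : ℝ) (x : X) : ℝ :=
  max 0 (min 1 (4 / r * (r - dist x a)))

theorem tent_mem {X : Type*} [PseudoMetricSpace X] (a : X) (r : ℝ) (x : X) : 0 ≤ tent a r x ∧ tent a r x ≤ 1 :=
  ⟨le_max_left _ _, max_le zero_le_one (min_le_left _ _)⟩

theorem tent_lip {X : Type*} [PseudoMetricSpace X] (a : X) (r : ℝ) (hr : 0 < r) :
    ∃ L : NNReal, LipschitzWith L (tent a r) := by
  refine ⟨Real.toNNReal (4 / r), ?_⟩
  have h1 : LipschitzWith (Real.toNNReal (4 / r)) fun x : X => 4 / r * (r - dist x a) := by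
    refine LipschitzWith.of_dist_le_mul fun x y => ?_
    rw [Real.dist_eq, Real.coe_toNNReal _ (by positivity)]
    have e : 4 / r * (r - dist x a) - 4 / r * (r - dist y a) = 4 / r * (dist y a - dist x a) := by ring
    rw [e, abs_mul, abs_of_pos (by positivity : (0 : ℝ) < 4 / r)]
    refine mul_le_mul_of_nonneg_left ?_ (by positivity)
    rw [dist_comm x y]
    exact abs_dist_sub_le y x a
  exact (h1.const_min 1).const_max 0

theorem tent_zero {X : Type*} [PseudoMetricSpace X] {a : X} {r : ℝ} (hr : 0 < r) {x : X} (h : r ≤ dist x a) :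
    tent a r x = 0 := by
  unfold tent
  refine max_eq_left ((min_le_right _ _).trans ?_)
  exact mul_nonpos_of_nonneg_of_nonpos (by positivity) (by linarith)

theorem tent_one {X : Type*} [PseudoMetricSpace X] {a : X} {r : ℝ} (hr : 0 < r) {x : X} (h : dist x a ≤ 3 / 4 * r) :
    tent a r x = 1 := by
  unfold tent
  have h1 : (1 : ℝ) ≤ 4 / r * (r - dist x a) := by
    rw [div_mul_eq_mul_div, le_div_iff₀ hr]
    linarith
  rw [min_eq_left h1]
  exact max_eq_right zero_le_one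

open Classical in
/-- the product partition of finitely many functions -/
theorem lip_split {X : Type*} [PseudoMetricSpace X] {ι : Type*} (T : Finset ι) (φ : ι → X → ℝ)
    (h0 : ∀ a ∈ T, ∀ x, 0 ≤ φ a x ∧ φ a x ≤ 1) (hl : ∀ a ∈ T, ∃ L : NNReal, LipschitzWith L (φ a)) :
    ∃ (u : ι → X → ℝ) (L : NNReal), (∀ a ∈ T, LipschitzWith L (u a)) ∧ (∀ a ∈ T, ∀ x, 0 ≤ u a x ∧ u a x ≤ φ a x) ∧
      (∀ x, ∑ a ∈ T, u a x = 1 - ∏ a ∈ T, (1 - φ a x)) ∧ LipschitzWith L (fun x => ∏ a ∈ T, (1 - φ a x)) := by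
  induction T using Finset.induction_on with
  | empty =>
    exact ⟨fun _ _ => 0, 0, by simp, by simp, by simp, by simp [LipschitzWith.const (1 : ℝ)]⟩
  | insert a T ha ih =>
    obtain ⟨u, L, h1, h2, h3, h4⟩ := ih (fun b hb => h0 b (mem_insert_of_mem hb)) fun b hb => hl b (mem_insert_of_mem hb)
    obtain ⟨K, hK⟩ := hl a (mem_insert_self a T)
    have hp : ∀ x, 0 ≤ ∏ b ∈ T, (1 - φ b x) ∧ ∏ b ∈ T, (1 - φ b x) ≤ 1 := by
      intro x
      have q0 : ∀ b ∈ T, 0 ≤ 1 - φ b x := fun b hb => by linarith [(h0 b (mem_insert_of_mem hb) x).2]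
      have q1 : ∀ b ∈ T, 1 - φ b x ≤ 1 := fun b hb => by linarith [(h0 b (mem_insert_of_mem hb) x).1]
      exact ⟨prod_nonneg q0, prod_le_one q0 q1⟩
    have ha0 := h0 a (mem_insert_self a T)
    have hKm : LipschitzWith K fun x => 1 - φ a x := by
      have := (LipschitzWith.const (α := X) (1 : ℝ)).sub hK
      simpa using this
    have hprod : LipschitzWith (K + L) fun x => φ a x * ∏ b ∈ T, (1 - φ b x) := lip_mul hK h4 ha0 hp
    have hprod2 : LipschitzWith (K + L) fun x => (1 - φ a x) * ∏ b ∈ T, (1 - φ b x) :=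
      lip_mul hKm h4 (fun x => ⟨by linarith [(ha0 x).2], by linarith [(ha0 x).1]⟩) hp
    refine ⟨fun b x => if b = a then φ a x * ∏ b ∈ T, (1 - φ b x) else u b x, K + L, ?_, ?_, ?_, ?_⟩
    · intro b hb
      by_cases hba : b = a
      · simp only [hba, if_true]
        exact hprod
      · simp only [hba, if_false]
        exact (h1 b ((mem_insert.1 hb).resolve_left hba)).weaken (by simp)
    · intro b hb x
      by_cases hba : b = a
      · simp only [hba, if_true]
        exact ⟨mul_nonneg (ha0 x).1 (hp x).1, mul_le_of_le_one_right (ha0 x).1 (hp x).2⟩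
      · simp only [hba, if_false]
        exact h2 b ((mem_insert.1 hb).resolve_left hba) x
    · intro x
      rw [sum_insert ha, prod_insert ha]
      beta_reduce
      rw [if_pos rfl]
      have e : ∑ b ∈ T, (if b = a then φ a x * ∏ b ∈ T, (1 - φ b x) else u b x) = ∑ b ∈ T, u b x := by
        refine sum_congr rfl fun b hb => ?_
        rw [if_neg]
        rintro rfl
        exact ha hb
      rw [e, h3 x]
      ring
    · have e : (fun x => ∏ b ∈ insert a T, (1 - φ b x)) = fun x => (1 - φ a x) * ∏ b ∈ T, (1 - φ b x) := by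
        funext x
        rw [prod_insert ha]
      rw [e]
      exact hprod2

/-- **partition of unity of a compact set by small cells, with a collar** -/
theorem lip_cover {X : Type*} [PseudoMetricSpace X] {S : Set X} (hS : IsCompact S) (r : X → ℝ) (hr : ∀ x ∈ S, 0 < r x) :
    ∃ (T : Finset X) (u : X → X → ℝ) (L : NNReal) (η : ℝ), 0 < η ∧ (∀ a ∈ T, a ∈ S) ∧ (∀ a ∈ T, LipschitzWith L (u a)) ∧
      (∀ a ∈ T, ∀ x, 0 ≤ u a x ∧ u a x ≤ 1) ∧ (∀ a ∈ T, ∀ x, r a ≤ dist x a → u a x = 0) ∧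
      (∀ x, ∑ a ∈ T, u a x ≤ 1) ∧ ∀ x, ∀ s ∈ S, dist x s ≤ η → ∑ a ∈ T, u a x = 1 := by
  classical
  obtain ⟨T, hT1, hT2⟩ := hS.elim_nhds_subcover (fun a => Metric.ball a (r a / 2)) fun a ha =>
    Metric.ball_mem_nhds a (half_pos (hr a ha))
  have hη : ∃ η : ℝ, 0 < η ∧ ∀ a ∈ T, η ≤ r a / 4 := by
    by_cases hne : T.Nonempty
    · refine ⟨T.inf' hne fun a => r a / 4, ?_, fun a ha => Finset.inf'_le _ ha⟩
      rw [Finset.lt_inf'_iff]
      intro a ha
      have := hr a (hT1 a ha)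
      positivity
    · refine ⟨1, one_pos, fun a ha => absurd ⟨a, ha⟩ hne⟩
  obtain ⟨η, hη0, hη1⟩ := hη
  obtain ⟨u, L, h1, h2, h3, -⟩ := lip_split T (fun a => tent a (r a)) (fun a _ x => tent_mem a (r a) x)
    fun a ha => tent_lip a (r a) (hr a (hT1 a ha))
  have hq : ∀ x, 0 ≤ ∏ a ∈ T, (1 - tent a (r a) x) := fun x =>
    prod_nonneg fun a _ => by linarith [(tent_mem a (r a) x).2]
  refine ⟨T, u, L, η, hη0, hT1, h1, fun a ha x => ⟨(h2 a ha x).1, (h2 a ha x).2.trans (tent_mem a (r a) x).2⟩, ?_, ?_, ?_⟩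
  · intro a ha x hx
    have := h2 a ha x
    rw [tent_zero (hr a (hT1 a ha)) hx] at this
    exact le_antisymm this.2 this.1
  · intro x
    rw [h3 x]
    linarith [hq x]
  · intro x s hs hxs
    rw [h3 x]
    obtain ⟨a, ha, has⟩ : ∃ a ∈ T, s ∈ Metric.ball a (r a / 2) := by
      have := hT2 hs
      simpa using this
    rw [Metric.mem_ball] at has
    have hd : dist x a ≤ 3 / 4 * r a := by
      have := dist_triangle x s a
      have := hη1 a ha
      linarith
    rw [prod_eq_zero ha (by rw [tent_one (hr a (hT1 a ha)) hd]; ring)]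
    ring

/-- **the sum over the cells**: `b k a`, `B k` = masses of the cell `a` of the main arc and total mass for the cell `k` of the end
pieces (lattice 0), `bt a`, `Bt` = the same for the rotated lattice; `y, z`, `y', z'` = companions; `p, q, r` = masses of pairs;
`Fm k`, `Ft` = the integrals of a function which is nearly `f a` on the cell `a`. -/
theorem cell_sum {κ ι : Type*} [DecidableEq κ] (K K0 : Finset κ) (A : Finset ι) (hK : K0 ⊆ K) {b : κ → ι → ℝ} {B : κ → ℝ} {bt : ι → ℝ}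
    {Bt : ℝ} {y y' z z' r : ι → ℝ} {p q : κ → ι → ℝ} {c d e e' δ ε η o : ℝ} {c' d' : κ → ℝ}
    (hc : 0 < c) (hd : 0 < d) (he : 0 < e) (he' : 0 < e') (hc' : ∀ k ∈ K0, 0 < c' k) (hd' : ∀ k ∈ K0, 0 < d' k)
    (hB : ∀ k ∈ K, 0 ≤ B k) (hB0 : ∀ k ∈ K0, 0 < B k) (hBt : 0 < Bt)
    (hb : ∀ k ∈ K0, ∀ a ∈ A, 0 ≤ b k a) (hbt : ∀ a ∈ A, 0 ≤ bt a)
    (hy : ∀ a ∈ A, 0 < y a) (hy' : ∀ a ∈ A, 0 < y' a) (hz : ∀ a ∈ A, 0 < z a) (hz' : ∀ a ∈ A, 0 < z' a)
    (s1 : ∀ k ∈ K0, ∑ a ∈ A, b k a ≤ B k) (s1' : ∑ a ∈ A, bt a ≤ Bt)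
    (s2 : ∀ k ∈ K0, (1 - ε) * B k ≤ ∑ a ∈ A, b k a) (s2' : (1 - ε) * Bt ≤ ∑ a ∈ A, bt a)
    (hδ : 0 ≤ δ) (hδ2 : δ ≤ 1 / 2)
    (h12 : ∀ k ∈ K0, ∀ a ∈ A, |p k a - c * b k a * y a| ≤ δ * (c * B k * y a))
    (h13 : ∀ k ∈ K0, ∀ a ∈ A, |q k a - d * b k a * z a| ≤ δ * (d * B k * z a))
    (h23 : ∀ a ∈ A, |r a - e * y a * z a| ≤ δ * (e * y a * z a))
    (h12' : ∀ k ∈ K0, ∀ a ∈ A, |p k a - c' k * bt a * y' a| ≤ δ * (c' k * Bt * y' a))
    (h13' : ∀ k ∈ K0, ∀ a ∈ A, |q k a - d' k * bt a * z' a| ≤ δ * (d' k * Bt * z' a))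
    (h23' : ∀ a ∈ A, |r a - e' * y' a * z' a| ≤ δ * (e' * y' a * z' a))
    (hη : (A.card : ℝ) * Real.sqrt (8 * δ) ≤ η) (hsm : ε + η ≤ 1 / 4)
    (hbad : ∑ k ∈ K \ K0, B k ≤ ε * ∑ k ∈ K, B k) (hpos : 0 < ∑ k ∈ K, B k)
    {f : ι → ℝ} {Fm : κ → ℝ} {Ft : ℝ} (hf : ∀ a ∈ A, |f a| ≤ 1) (hF : ∀ k ∈ K, |Fm k| ≤ B k) (hFt : |Ft| ≤ Bt)
    (hFm : ∀ k ∈ K0, |Fm k - ∑ a ∈ A, f a * b k a| ≤ o * B k) (hFt' : |Ft - ∑ a ∈ A, f a * bt a| ≤ o * Bt) :
    |(∑ k ∈ K, Fm k) / (∑ k ∈ K, B k) - Ft / Bt| ≤ 4 * ε + 6 * η + 2 * o := by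
  classical
  -- one cell of the end pieces
  have one : ∀ k ∈ K0, |Fm k / B k - Ft / Bt| ≤ 2 * ε + 6 * η + 2 * o := by
    intro k hk
    have hBk := hB0 k hk
    have t := tri_num A (x := fun a => b k a / B k) (x' := fun a => bt a / Bt) (y := y) (y' := y') (z := z) (z' := z')
      (p := p k) (q := q k) (r := r) (c := c * B k) (d := d * B k) (e := e) (c' := c' k * Bt) (d' := d' k * Bt) (e' := e')
      (δ := δ) (ε := ε) (η := η) (mul_pos hc hBk) (mul_pos hd hBk) he (mul_pos (hc' k hk) hBt) (mul_pos (hd' k hk) hBt) he'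
      (fun a ha => div_nonneg (hb k hk a ha) hBk.le) (fun a ha => div_nonneg (hbt a ha) hBt.le) hy hy' hz hz'
      (by rw [← Finset.sum_div, div_le_one hBk]; exact s1 k hk) (by rw [← Finset.sum_div, div_le_one hBt]; exact s1')
      (by rw [← Finset.sum_div, le_div_iff₀ hBk]; exact s2 k hk) (by rw [← Finset.sum_div, le_div_iff₀ hBt]; exact s2')
      hδ hδ2
      (fun a ha => by
        have e1 : c * B k * (b k a / B k) * y a = c * b k a * y a := by field_simp
        rw [e1]; exact h12 k hk a ha)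
      (fun a ha => by
        have e1 : d * B k * (b k a / B k) * z a = d * b k a * z a := by field_simp
        rw [e1]; exact h13 k hk a ha)
      h23
      (fun a ha => by
        have e1 : c' k * Bt * (bt a / Bt) * y' a = c' k * bt a * y' a := by field_simp
        rw [e1]; exact h12' k hk a ha)
      (fun a ha => by
        have e1 : d' k * Bt * (bt a / Bt) * z' a = d' k * bt a * z' a := by field_simp
        rw [e1]; exact h13' k hk a ha)
      h23' hη hsm
    have e1 : Fm k / B k - Ft / Bt = (Fm k - ∑ a ∈ A, f a * b k a) / B k - (Ft - ∑ a ∈ A, f a * bt a) / Bt +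
        ∑ a ∈ A, f a * (b k a / B k - bt a / Bt) := by
      have e2 : ∑ a ∈ A, f a * (b k a / B k - bt a / Bt) = (∑ a ∈ A, f a * b k a) / B k - (∑ a ∈ A, f a * bt a) / Bt := by
        rw [Finset.sum_div, Finset.sum_div, ← Finset.sum_sub_distrib]
        exact Finset.sum_congr rfl fun a _ => by ring
      rw [e2]
      ring
    rw [e1]
    have i1 : |(Fm k - ∑ a ∈ A, f a * b k a) / B k| ≤ o := by
      rw [abs_div, abs_of_pos hBk, div_le_iff₀ hBk]
      exact hFm k hk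
    have i2 : |(Ft - ∑ a ∈ A, f a * bt a) / Bt| ≤ o := by
      rw [abs_div, abs_of_pos hBt, div_le_iff₀ hBt]
      exact hFt'
    have i3 : |∑ a ∈ A, f a * (b k a / B k - bt a / Bt)| ≤ 2 * ε + 6 * η := by
      refine (Finset.abs_sum_le_sum_abs _ _).trans (le_trans (Finset.sum_le_sum fun a ha => ?_) t)
      rw [abs_mul]
      exact mul_le_of_le_one_left (abs_nonneg _) (hf a ha)
    calc _ ≤ |(Fm k - ∑ a ∈ A, f a * b k a) / B k - (Ft - ∑ a ∈ A, f a * bt a) / Bt| +
          |∑ a ∈ A, f a * (b k a / B k - bt a / Bt)| := abs_add_le _ _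
      _ ≤ (|(Fm k - ∑ a ∈ A, f a * b k a) / B k| + |(Ft - ∑ a ∈ A, f a * bt a) / Bt|) +
          |∑ a ∈ A, f a * (b k a / B k - bt a / Bt)| := add_le_add (abs_sub _ _) le_rfl
      _ ≤ _ := by linarith
  -- the sum
  have hε : 0 ≤ ε := by
    by_contra h
    rw [not_le] at h
    have h1 : 0 ≤ ∑ k ∈ K \ K0, B k := Finset.sum_nonneg fun k hk => hB k (Finset.mem_sdiff.1 hk).1
    nlinarith
  have hη0 : 0 ≤ η := le_trans (by positivity) hη
  have ho : 0 ≤ o := by
    have h1 := (abs_nonneg _).trans hFt'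
    by_contra h
    rw [not_le] at h
    nlinarith
  set S := ∑ k ∈ K, B k with hS
  have e3 : (∑ k ∈ K, Fm k) / S - Ft / Bt = (∑ k ∈ K, (Fm k - Ft / Bt * B k)) / S := by
    rw [Finset.sum_sub_distrib, ← Finset.mul_sum, ← hS]
    field_simp
  rw [e3, abs_div, abs_of_pos hpos, div_le_iff₀ hpos]
  have hr1 : |Ft / Bt| ≤ 1 := by
    rw [abs_div, abs_of_pos hBt, div_le_one hBt]
    exact hFt
  have e4 : ∑ k ∈ K, (Fm k - Ft / Bt * B k) = ∑ k ∈ K \ K0, (Fm k - Ft / Bt * B k) + ∑ k ∈ K0, (Fm k - Ft / Bt * B k) :=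
    (Finset.sum_sdiff hK).symm
  rw [e4]
  have g1 : |∑ k ∈ K \ K0, (Fm k - Ft / Bt * B k)| ≤ 2 * (ε * S) := by
    refine (Finset.abs_sum_le_sum_abs _ _).trans ?_
    have : ∑ k ∈ K \ K0, |Fm k - Ft / Bt * B k| ≤ ∑ k ∈ K \ K0, 2 * B k := by
      refine Finset.sum_le_sum fun k hk => ?_
      have hk' := (Finset.mem_sdiff.1 hk).1
      refine (abs_sub _ _).trans ?_
      rw [abs_mul, abs_of_nonneg (hB k hk')]
      have := mul_le_mul_of_nonneg_right hr1 (hB k hk')
      linarith [hF k hk']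
    refine this.trans ?_
    rw [← Finset.mul_sum]
    linarith
  have g2 : |∑ k ∈ K0, (Fm k - Ft / Bt * B k)| ≤ (2 * ε + 6 * η + 2 * o) * S := by
    refine (Finset.abs_sum_le_sum_abs _ _).trans ?_
    have : ∑ k ∈ K0, |Fm k - Ft / Bt * B k| ≤ ∑ k ∈ K0, (2 * ε + 6 * η + 2 * o) * B k := by
      refine Finset.sum_le_sum fun k hk => ?_
      have hBk := hB0 k hk
      have e5 : Fm k - Ft / Bt * B k = (Fm k / B k - Ft / Bt) * B k := by field_simp
      rw [e5, abs_mul, abs_of_pos hBk]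
      exact mul_le_mul_of_nonneg_right (one k hk) hBk.le
    refine this.trans ?_
    rw [← Finset.mul_sum]
    refine mul_le_mul_of_nonneg_left ?_ (by positivity)
    exact Finset.sum_le_sum_of_subset_of_nonneg hK fun k hk _ => hB k hk
  refine (abs_add_le _ _).trans ?_
  nlinarith

end F3
end ROT
end HexObs
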