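import Pool.Agent.ROT.F3Law

set_option autoImplicit false

/-!
The three-arc lemma in cells (row F8 of ROT/F3_PLAN): relative errors `δ` and absolute errors `τ`,
finitely many cells which cover all but a small part of the masses, sum over the offset cells with
weights.
-/

namespace HexObs
namespace ROT
namespace F3

open Finset

theorem cmp_of_sq2 {a b t s : ℝ} (ha : 0 ≤ a) (hb : 0 ≤ b) (ht : 0 ≤ t) (hs : 0 ≤ s)
    (h : |a ^ 2 - b ^ 2| ≤ t * (a ^ 2 + b ^ 2) + s ^ 2) : |a - b| ≤ t * (a + b) + s := by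
  have hab : 0 ≤ a + b := add_nonneg ha hb
  have h1 : |a - b| * (a + b) ≤ t * (a + b) ^ 2 + s ^ 2 := by
    calc |a - b| * (a + b) = |a ^ 2 - b ^ 2| := by
          rw [show a ^ 2 - b ^ 2 = (a - b) * (a + b) by ring, abs_mul, abs_of_nonneg hab]
      _ ≤ t * (a ^ 2 + b ^ 2) + s ^ 2 := h
      _ ≤ t * (a + b) ^ 2 + s ^ 2 := by
          have := mul_le_mul_of_nonneg_left
            (show a ^ 2 + b ^ 2 ≤ (a + b) ^ 2 by nlinarith [mul_nonneg ha hb]) ht
          linarith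
  rcases le_or_gt (a + b) s with hle | hgt
  · have : |a - b| ≤ a + b := by rw [abs_le]; constructor <;> linarith
    have h2 : 0 ≤ t * (a + b) := mul_nonneg ht hab
    linarith
  · have h3 : |a - b| * (a + b) ≤ (t * (a + b) + s) * (a + b) := by
      have : s ^ 2 ≤ s * (a + b) := by nlinarith
      nlinarith
    exact le_of_mul_le_mul_right h3 (by linarith)

/-- One cell: relative errors `δ`, absolute errors `τ X`. -/
theorem cell_rel2 {x X y z p q r c d e δ τ : ℝ} (hx : 0 ≤ x) (hxX : x ≤ X)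
    (hy : 0 < y) (hz : 0 < z) (hc : 0 < c) (hd : 0 < d) (he : 0 < e)
    (hδ : 0 ≤ δ) (hδ2 : δ ≤ 1 / 2) (hτ : 0 ≤ τ) (hτ2 : τ ≤ 1 / 2)
    (h12 : |p - c * x * y| ≤ (δ * x + τ * X) * (c * y))
    (h13 : |q - d * x * z| ≤ (δ * x + τ * X) * (d * z))
    (h23 : |r - e * y * z| ≤ δ * (e * y * z)) :
    |p * q / r / (c * d / e) - x ^ 2| ≤ 7 * δ * x ^ 2 + 7 * τ * X ^ 2 := by
  set u : ℝ := p / (c * y) with hu
  set v : ℝ := q / (d * z) with hv
  set w : ℝ := r / (e * y * z) with hw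
  have hX : 0 ≤ X := le_trans hx hxX
  have hcy : 0 < c * y := mul_pos hc hy
  have hdz : 0 < d * z := mul_pos hd hz
  have heyz : 0 < e * y * z := mul_pos (mul_pos he hy) hz
  have hu1 : |u - x| ≤ δ * x + τ * X := by
    have : u - x = (p - c * x * y) / (c * y) := by rw [hu]; field_simp
    rw [this, abs_div, abs_of_pos hcy, div_le_iff₀ hcy]; exact h12
  have hv1 : |v - x| ≤ δ * x + τ * X := by
    have : v - x = (q - d * x * z) / (d * z) := by rw [hv]; field_simp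
    rw [this, abs_div, abs_of_pos hdz, div_le_iff₀ hdz]; exact h13
  have hw1 : |w - 1| ≤ δ := by
    have : w - 1 = (r - e * y * z) / (e * y * z) := by rw [hw]; field_simp
    rw [this, abs_div, abs_of_pos heyz, div_le_iff₀ heyz]; exact h23
  have hwpos : 1 / 2 ≤ w := by
    rw [abs_le] at hw1; linarith [hw1.1]
  have hw0 : 0 < w := by linarith
  have key : p * q / r / (c * d / e) = u * v / w := by
    rw [hu, hv, hw]
    rcases eq_or_ne r 0 with h0 | h0
    · simp [h0]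
    · field_simp
  rw [key]
  set g : ℝ := δ * x + τ * X with hg
  have hg0 : 0 ≤ g := add_nonneg (mul_nonneg hδ hx) (mul_nonneg hτ hX)
  have h1 : |u * v - x ^ 2| ≤ g * g + 2 * (x * g) := by
    have : u * v - x ^ 2 = (u - x) * (v - x) + x * (u - x) + x * (v - x) := by ring
    rw [this]
    have a1 : |(u - x) * (v - x)| ≤ g * g := by
      rw [abs_mul]
      exact mul_le_mul hu1 hv1 (abs_nonneg _) hg0
    have a2 : |x * (u - x)| ≤ x * g := by
      rw [abs_mul, abs_of_nonneg hx]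
      exact mul_le_mul_of_nonneg_left hu1 hx
    have a3 : |x * (v - x)| ≤ x * g := by
      rw [abs_mul, abs_of_nonneg hx]
      exact mul_le_mul_of_nonneg_left hv1 hx
    have a4 := abs_add_three ((u - x) * (v - x)) (x * (u - x)) (x * (v - x))
    linarith
  have hxx : x * X ≤ X ^ 2 := by nlinarith
  have h1' : g * g + 2 * (x * g) ≤ 5 / 2 * δ * x ^ 2 + 7 / 2 * τ * X ^ 2 := by
    have e1 : g * g + 2 * (x * g)
        = δ * (δ * x ^ 2) + 2 * δ * (τ * (x * X)) + τ * (τ * X ^ 2) + 2 * (δ * x ^ 2)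
          + 2 * (τ * (x * X)) := by rw [hg]; ring
    have f1 : δ * (δ * x ^ 2) ≤ 1 / 2 * (δ * x ^ 2) :=
      mul_le_mul_of_nonneg_right hδ2 (mul_nonneg hδ (sq_nonneg x))
    have f2 : τ * (x * X) ≤ τ * X ^ 2 := mul_le_mul_of_nonneg_left hxx hτ
    have f3 : 2 * δ * (τ * (x * X)) ≤ 1 * (τ * X ^ 2) := by
      apply mul_le_mul (by linarith) f2 (mul_nonneg hτ (mul_nonneg hx hX)) (by norm_num)
    have f4 : τ * (τ * X ^ 2) ≤ 1 / 2 * (τ * X ^ 2) :=
      mul_le_mul_of_nonneg_right hτ2 (mul_nonneg hτ (sq_nonneg X))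
    rw [e1]
    linarith
  have h2 : u * v / w - x ^ 2 = ((u * v - x ^ 2) - x ^ 2 * (w - 1)) / w := by
    field_simp; ring
  rw [h2, abs_div, abs_of_pos hw0, div_le_iff₀ hw0]
  have h3 : |x ^ 2 * (w - 1)| ≤ x ^ 2 * δ := by
    rw [abs_mul, abs_of_nonneg (sq_nonneg x)]
    exact mul_le_mul_of_nonneg_left hw1 (sq_nonneg x)
  have h4 := abs_sub (u * v - x ^ 2) (x ^ 2 * (w - 1))
  have h5 : (7 * δ * x ^ 2 + 7 * τ * X ^ 2) * (1 / 2) ≤ (7 * δ * x ^ 2 + 7 * τ * X ^ 2) * w :=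
    mul_le_mul_of_nonneg_left hwpos (by positivity)
  nlinarith

/-- Three-arc data of one cell of the main arc: the masses `y z` of the two companions on the
first lattice, `y' z'` on the second one, and the common masses `p q r` of the three pairs.
`X`, `X'` are the total masses of the main arc, the absolute errors are relative to them. -/
def Trip (δ τ X X' c d e c' d' e' x x' : ℝ) : Prop :=
  ∃ y z y' z' p q r : ℝ, 0 < y ∧ 0 < z ∧ 0 < y' ∧ 0 < z' ∧
    |p - c * x * y| ≤ (δ * x + τ * X) * (c * y) ∧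
    |q - d * x * z| ≤ (δ * x + τ * X) * (d * z) ∧
    |r - e * y * z| ≤ δ * (e * y * z) ∧
    |p - c' * x' * y'| ≤ (δ * x' + τ * X') * (c' * y') ∧
    |q - d' * x' * z'| ≤ (δ * x' + τ * X') * (d' * z') ∧
    |r - e' * y' * z'| ≤ δ * (e' * y' * z')

/-- the constant of the comparison -/
noncomputable def kap (c d e c' d' e' : ℝ) : ℝ := Real.sqrt ((c' * d' / e') / (c * d / e))

theorem trip_cmp {δ τ X X' c d e c' d' e' x x' : ℝ}
    (hc : 0 < c) (hd : 0 < d) (he : 0 < e) (hc' : 0 < c') (hd' : 0 < d') (he' : 0 < e')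
    (hx : 0 ≤ x) (hx' : 0 ≤ x') (hxX : x ≤ X) (hxX' : x' ≤ X')
    (hδ : 0 ≤ δ) (hδ2 : δ ≤ 1 / 2) (hτ : 0 ≤ τ) (hτ2 : τ ≤ 1 / 2)
    (h : Trip δ τ X X' c d e c' d' e' x x') :
    |x - kap c d e c' d' e' * x'| ≤ 7 * δ * (x + kap c d e c' d' e' * x')
      + Real.sqrt (7 * τ) * (X + kap c d e c' d' e' * X') := by
  obtain ⟨y, z, y', z', p, q, r, hy, hz, hy', hz', h12, h13, h23, h12', h13', h23'⟩ := h
  set k2 : ℝ := (c' * d' / e') / (c * d / e) with hk2
  have hk2p : 0 < k2 := by rw [hk2]; positivity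
  set k : ℝ := kap c d e c' d' e' with hk
  have hkk : k = Real.sqrt k2 := rfl
  have hkp : 0 < k := by rw [hkk]; exact Real.sqrt_pos.mpr hk2p
  have hksq : k ^ 2 = k2 := by rw [hkk]; exact Real.sq_sqrt hk2p.le
  have hX : 0 ≤ X := le_trans hx hxX
  have hX' : 0 ≤ X' := le_trans hx' hxX'
  have e1 := cell_rel2 hx hxX hy hz hc hd he hδ hδ2 hτ hτ2 h12 h13 h23
  have e2 := cell_rel2 hx' hxX' hy' hz' hc' hd' he' hδ hδ2 hτ hτ2 h12' h13' h23'
  set m : ℝ := p * q / r with hm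
  have e3 : m / (c * d / e) = k2 * (m / (c' * d' / e')) := by
    rw [hk2]; field_simp
  have hR : 0 ≤ Real.sqrt (7 * τ) * (X + k * X') :=
    mul_nonneg (Real.sqrt_nonneg _) (add_nonneg hX (mul_nonneg hkp.le hX'))
  apply cmp_of_sq2 hx (mul_nonneg hkp.le hx') (by positivity) hR
  have e4 : x ^ 2 - (k * x') ^ 2
      = -(m / (c * d / e) - x ^ 2) + k2 * (m / (c' * d' / e') - x' ^ 2) := by
    rw [mul_pow, hksq, e3]; ring
  rw [e4]
  refine le_trans (abs_add_le _ _) ?_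
  rw [abs_neg, abs_mul, abs_of_pos hk2p, mul_pow, hksq, mul_pow, Real.sq_sqrt (by positivity)]
  have e5 := mul_le_mul_of_nonneg_left e2 hk2p.le
  have e6 : 7 * τ * (X ^ 2 + k2 * X' ^ 2) ≤ 7 * τ * (X + k * X') ^ 2 := by
    apply mul_le_mul_of_nonneg_left _ (by positivity)
    rw [← hksq]
    nlinarith [mul_nonneg hX (mul_nonneg hkp.le hX')]
  nlinarith

/-- Two families of masses which are comparable with one constant in total are close after
normalisation. -/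
theorem ratio_close {ι : Type*} (A : Finset ι) {m n : ι → ℝ} {M N k t ε : ℝ}
    (hM : 0 < M) (hN : 0 < N) (hk : 0 ≤ k) (ht : 0 ≤ t)
    (hn0 : ∀ a ∈ A, 0 ≤ n a)
    (hm1 : ∑ a ∈ A, m a ≤ M) (hn1 : ∑ a ∈ A, n a ≤ N)
    (hm2 : (1 - ε) * M ≤ ∑ a ∈ A, m a) (hn2 : (1 - ε) * N ≤ ∑ a ∈ A, n a)
    (tot : ∑ a ∈ A, |m a - k * n a| ≤ t * (M + k * N)) (hs : t + ε ≤ 1 / 2) :
    ∑ a ∈ A, |m a / M - n a / N| ≤ 8 * t + 4 * ε := by
  have hε : 0 ≤ ε := by nlinarith
  set Sm := ∑ a ∈ A, m a with hSm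
  set Sn := ∑ a ∈ A, n a with hSn
  have hSn0 : 0 ≤ Sn := Finset.sum_nonneg hn0
  have tot2 : |Sm - k * Sn| ≤ t * (M + k * N) := by
    have : Sm - k * Sn = ∑ a ∈ A, (m a - k * n a) := by
      rw [Finset.sum_sub_distrib, ← Finset.mul_sum]
    rw [this]
    exact le_trans (Finset.abs_sum_le_sum_abs _ _) tot
  have hkSn : k * Sn ≤ k * N := mul_le_mul_of_nonneg_left hn1 hk
  have hkN0 : 0 ≤ k * N := mul_nonneg hk hN.le
  have hkSn2 : (1 - ε) * (k * N) ≤ k * Sn := by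
    calc (1 - ε) * (k * N) = k * ((1 - ε) * N) := by ring
      _ ≤ k * Sn := mul_le_mul_of_nonneg_left hn2 hk
  have tot3 : |M - k * N| ≤ (t + ε) * (M + k * N) := by
    rw [abs_le] at tot2 ⊢
    constructor
    · nlinarith [tot2.1, mul_nonneg hε hkN0, mul_nonneg hε hM.le]
    · nlinarith [tot2.2, mul_nonneg hε hkN0, mul_nonneg hε hM.le]
  have hkN : k * N ≤ 3 * M := by
    have := (abs_le.mp tot3).1
    nlinarith [mul_le_mul_of_nonneg_right hs (by positivity : 0 ≤ M + k * N)]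
  have step : ∀ a ∈ A, |m a / M - n a / N| ≤ |m a - k * n a| / M + n a * (|M - k * N| / (M * N)) := by
    intro a ha
    have : m a / M - n a / N = (m a - k * n a) / M + n a * (-(M - k * N) / (M * N)) := by
      field_simp
      ring
    rw [this]
    refine le_trans (abs_add_le _ _) ?_
    rw [abs_div, abs_of_pos hM, abs_mul, abs_of_nonneg (hn0 a ha), abs_div, abs_neg,
      abs_of_pos (mul_pos hM hN)]
  calc ∑ a ∈ A, |m a / M - n a / N|
      ≤ ∑ a ∈ A, (|m a - k * n a| / M + n a * (|M - k * N| / (M * N))) := Finset.sum_le_sum step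
    _ = (∑ a ∈ A, |m a - k * n a|) / M + Sn * (|M - k * N| / (M * N)) := by
        rw [Finset.sum_add_distrib, ← Finset.sum_div, ← Finset.sum_mul]
    _ ≤ (t * (M + k * N)) / M + N * (((t + ε) * (M + k * N)) / (M * N)) := by
        apply add_le_add
        · exact div_le_div_of_nonneg_right tot hM.le
        · apply mul_le_mul hn1 _ (by positivity) hN.le
          exact div_le_div_of_nonneg_right tot3 (by positivity)
    _ = (2 * t + ε) * ((M + k * N) / M) := by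
        field_simp
        ring
    _ ≤ (2 * t + ε) * 4 := by
        apply mul_le_mul_of_nonneg_left _ (by positivity)
        rw [div_le_iff₀ hM]; linarith
    _ = 8 * t + 4 * ε := by ring

/-- The same for a functional which is almost constant on the cells. -/
theorem ratio_fun {ι : Type*} (A : Finset ι) {m n F : ι → ℝ} {M N k t ε mF nF : ℝ}
    (hM : 0 < M) (hN : 0 < N) (hk : 0 ≤ k) (ht : 0 ≤ t)
    (hn0 : ∀ a ∈ A, 0 ≤ n a)
    (hm1 : ∑ a ∈ A, m a ≤ M) (hn1 : ∑ a ∈ A, n a ≤ N)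
    (hm2 : (1 - ε) * M ≤ ∑ a ∈ A, m a) (hn2 : (1 - ε) * N ≤ ∑ a ∈ A, n a)
    (tot : ∑ a ∈ A, |m a - k * n a| ≤ t * (M + k * N)) (hs : t + ε ≤ 1 / 2)
    (hF : ∀ a ∈ A, |F a| ≤ 1) (hmF : |mF - ∑ a ∈ A, F a * m a| ≤ (t + ε) * M)
    (hnF : |nF - ∑ a ∈ A, F a * n a| ≤ (t + ε) * N) :
    |mF / M - nF / N| ≤ 10 * t + 6 * ε := by
  have h1 := ratio_close A hM hN hk ht hn0 hm1 hn1 hm2 hn2 tot hs
  have e1 : |mF / M - (∑ a ∈ A, F a * m a) / M| ≤ t + ε := by
    rw [← sub_div, abs_div, abs_of_pos hM, div_le_iff₀ hM]; exact hmF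
  have e2 : |nF / N - (∑ a ∈ A, F a * n a) / N| ≤ t + ε := by
    rw [← sub_div, abs_div, abs_of_pos hN, div_le_iff₀ hN]; exact hnF
  have e3 : |(∑ a ∈ A, F a * m a) / M - (∑ a ∈ A, F a * n a) / N| ≤ 8 * t + 4 * ε := by
    have : (∑ a ∈ A, F a * m a) / M - (∑ a ∈ A, F a * n a) / N
        = ∑ a ∈ A, F a * (m a / M - n a / N) := by
      rw [Finset.sum_div, Finset.sum_div, ← Finset.sum_sub_distrib]
      apply Finset.sum_congr rfl
      intro a _
      ring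
    rw [this]
    refine le_trans (Finset.abs_sum_le_sum_abs _ _) (le_trans (Finset.sum_le_sum ?_) h1)
    intro a ha
    rw [abs_mul]
    calc |F a| * |m a / M - n a / N| ≤ 1 * |m a / M - n a / N| :=
          mul_le_mul_of_nonneg_right (hF a ha) (abs_nonneg _)
      _ = _ := one_mul _
  rw [abs_le] at e1 e2 e3 ⊢
  constructor <;> linarith [e1.1, e1.2, e2.1, e2.2, e3.1, e3.2]

/-- **F8, (3) and (4).** `Js` = cells of the offsets and of the displacements of the short pieces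
`k` (with the constants `c j, ..`, weights `w j`, total masses `X j`), `A` = cells of the main arc.
`M = ∑ w X` and `N` are the total masses on the two lattices. -/
theorem tri_cells {J ι : Type*} (Js : Finset J) (A : Finset ι) {x : J → ι → ℝ} {x' F : ι → ℝ}
    {w X c d e c' d' e' : J → ℝ} {M N δ τ t ε mF nF : ℝ}
    (hw : ∀ j ∈ Js, 0 ≤ w j)
    (hc : ∀ j ∈ Js, 0 < c j) (hd : ∀ j ∈ Js, 0 < d j) (he : ∀ j ∈ Js, 0 < e j)
    (hc' : ∀ j ∈ Js, 0 < c' j) (hd' : ∀ j ∈ Js, 0 < d' j) (he' : ∀ j ∈ Js, 0 < e' j)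
    (hx : ∀ j ∈ Js, ∀ a ∈ A, 0 ≤ x j a) (hx' : ∀ a ∈ A, 0 ≤ x' a)
    (hxX : ∀ j ∈ Js, ∑ a ∈ A, x j a ≤ X j) (hxN : ∑ a ∈ A, x' a ≤ N)
    (hδ : 0 ≤ δ) (hτ : 0 ≤ τ) (ht : 7 * δ + A.card * Real.sqrt (7 * τ) ≤ t) (hs : t + ε ≤ 1 / 2)
    (hδ2 : δ ≤ 1 / 2) (hτ2 : τ ≤ 1 / 2)
    (hT : ∀ j ∈ Js, ∀ a ∈ A, Trip δ τ (X j) N (c j) (d j) (e j) (c' j) (d' j) (e' j) (x j a) (x' a))
    (hM : 0 < M) (hN : 0 < N) (hMX : ∑ j ∈ Js, w j * X j = M)
    (hm2 : (1 - ε) * M ≤ ∑ a ∈ A, ∑ j ∈ Js, w j * x j a) (hn2 : (1 - ε) * N ≤ ∑ a ∈ A, x' a)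
    (hF : ∀ a ∈ A, |F a| ≤ 1)
    (hmF : |mF - ∑ a ∈ A, F a * ∑ j ∈ Js, w j * x j a| ≤ (t + ε) * M)
    (hnF : |nF - ∑ a ∈ A, F a * x' a| ≤ (t + ε) * N) :
    |mF / M - nF / N| ≤ 10 * t + 6 * ε := by
  set k : J → ℝ := fun j => kap (c j) (d j) (e j) (c' j) (d' j) (e' j) with hk
  have hk0 : ∀ j, 0 ≤ k j := fun j => Real.sqrt_nonneg _
  set κ : ℝ := ∑ j ∈ Js, w j * k j with hκ
  have hκ0 : 0 ≤ κ := Finset.sum_nonneg fun j hj => mul_nonneg (hw j hj) (hk0 j)
  have hm1 : ∑ a ∈ A, ∑ j ∈ Js, w j * x j a ≤ M := by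
    rw [Finset.sum_comm, ← hMX]
    apply Finset.sum_le_sum
    intro j hj
    rw [← Finset.mul_sum]
    exact mul_le_mul_of_nonneg_left (hxX j hj) (hw j hj)
  set sτ : ℝ := Real.sqrt (7 * τ) with hsτ
  have hsτ0 : 0 ≤ sτ := Real.sqrt_nonneg _
  have hcmp : ∀ a ∈ A, |∑ j ∈ Js, w j * x j a - κ * x' a|
      ≤ 7 * δ * (∑ j ∈ Js, w j * x j a + κ * x' a) + sτ * (M + κ * N) := by
    intro a ha
    have e1 : ∑ j ∈ Js, w j * x j a - κ * x' a = ∑ j ∈ Js, w j * (x j a - k j * x' a) := by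
      rw [hκ, Finset.sum_mul, ← Finset.sum_sub_distrib]
      exact Finset.sum_congr rfl (fun j _ => by ring)
    have e2 : 7 * δ * (∑ j ∈ Js, w j * x j a + κ * x' a) + sτ * (M + κ * N)
        = ∑ j ∈ Js, w j * (7 * δ * (x j a + k j * x' a) + sτ * (X j + k j * N)) := by
      rw [hκ, ← hMX, Finset.sum_mul, Finset.sum_mul, ← Finset.sum_add_distrib, Finset.mul_sum,
        ← Finset.sum_add_distrib, Finset.mul_sum, ← Finset.sum_add_distrib]
      exact Finset.sum_congr rfl (fun j _ => by ring)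
    rw [e1, e2]
    refine le_trans (Finset.abs_sum_le_sum_abs _ _) (Finset.sum_le_sum ?_)
    intro j hj
    rw [abs_mul, abs_of_nonneg (hw j hj)]
    apply mul_le_mul_of_nonneg_left _ (hw j hj)
    have hxa : x j a ≤ X j := le_trans (Finset.single_le_sum (hx j hj) ha) (hxX j hj)
    have hxa' : x' a ≤ N := le_trans (Finset.single_le_sum hx' ha) hxN
    exact trip_cmp (hc j hj) (hd j hj) (he j hj) (hc' j hj) (hd' j hj) (he' j hj)
      (hx j hj a ha) (hx' a ha) hxa hxa' hδ hδ2 hτ hτ2 (hT j hj a ha)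
  have hMN : 0 ≤ M + κ * N := add_nonneg hM.le (mul_nonneg hκ0 hN.le)
  have tot : ∑ a ∈ A, |∑ j ∈ Js, w j * x j a - κ * x' a| ≤ t * (M + κ * N) := by
    calc ∑ a ∈ A, |∑ j ∈ Js, w j * x j a - κ * x' a|
        ≤ ∑ a ∈ A, (7 * δ * (∑ j ∈ Js, w j * x j a + κ * x' a) + sτ * (M + κ * N)) :=
          Finset.sum_le_sum hcmp
      _ = 7 * δ * (∑ a ∈ A, ∑ j ∈ Js, w j * x j a + κ * ∑ a ∈ A, x' a)
            + A.card * sτ * (M + κ * N) := by
          rw [Finset.sum_add_distrib, ← Finset.mul_sum, Finset.sum_add_distrib, ← Finset.mul_sum,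
            Finset.sum_const, nsmul_eq_mul]
          ring
      _ ≤ 7 * δ * (M + κ * N) + A.card * sτ * (M + κ * N) := by
          have : ∑ a ∈ A, ∑ j ∈ Js, w j * x j a + κ * ∑ a ∈ A, x' a ≤ M + κ * N :=
            add_le_add hm1 (mul_le_mul_of_nonneg_left hxN hκ0)
          have := mul_le_mul_of_nonneg_left this (by positivity : 0 ≤ 7 * δ)
          linarith
      _ = (7 * δ + A.card * sτ) * (M + κ * N) := by ring
      _ ≤ t * (M + κ * N) := mul_le_mul_of_nonneg_right ht hMN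
  exact ratio_fun A hM hN hκ0 (le_trans (by positivity) ht) hx' hm1 hxN hm2 hn2 tot hs hF hmF hnF

end F3
end ROT
end HexObs
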