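import Pool.Agent.ROT.F3Sel
import Pool.Agent.ROT.F3Cells
import Pool.Agent.ROT.F3Cell

/-!
# ROT / F3Asm (helper72): the inner theorem of route N

Test functions `Tf` on the space `X` of arcs, `y` = displacement. Lattice 0: masses `b1`, `b2`, `b3` (asymptotically positive linear
functionals, `APL`), rotated lattice: `bt1`, `bt2`, `bt3`; pair masses `I`, `It`.
* `Pr` : the rows P0 (lattice 0, relative error `δ`), PR (rotated lattice), M (equality of the pair masses) of one pair;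
* `Cov` : the cover of the main arcs by cells with companions (row W7);
* **`inner`** : the normalised masses of the functions `f * one` of the main arc agree up to `200 δ + ε`.
-/

set_option autoImplicit false

namespace Pool.Agent.ROT.F3A

open Filter Finset

variable {X : Type*}

/-- asymptotically positive linear functionals -/
structure APL (Tf : Set (X → ℝ)) (b : ℕ → (X → ℝ) → ℝ) : Prop where
  nn : ∀ N, ∀ u ∈ Tf, 0 ≤ b N u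
  pos : ∀ {ι : Type} [Fintype ι] (c : ι → ℝ) (u : ι → X → ℝ), (∀ i, u i ∈ Tf) → (∀ x, 0 ≤ ∑ i, c i * u i x) →
    ∀ τ : ℝ, 0 < τ → ∀ᶠ N in atTop, -τ ≤ ∑ i, c i * b N (u i)

/-- bounded masses -/
def Bd (Tf : Set (X → ℝ)) (b : ℕ → (X → ℝ) → ℝ) (C : ℝ) : Prop := ∀ u ∈ Tf, ∀ᶠ N in atTop, b N u ≤ C

/-- the difference of the displacements is near `Y` on the supports -/
def Loc (y : X → ℂ) (u v : X → ℝ) (Y : ℂ) (r : ℝ) : Prop := ∀ a b, u a ≠ 0 → v b ≠ 0 → ‖y a - y b - Y‖ ≤ r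

lemma Loc.mono {y : X → ℂ} {u v : X → ℝ} {Y : ℂ} {r r' : ℝ} (h : Loc y u v Y r) (hr : r ≤ r') : Loc y u v Y r' :=
  fun a b ha hb => (h a b ha hb).trans hr

/-- the rows P0, PR, M of one pair of arms; `Y0` = centre of the core, `c0` = its radius -/
structure Pr (Tf : Set (X → ℝ)) (y : X → ℂ) (Sep : (X → ℝ) → (X → ℝ) → Prop) (b b' bt bt' : ℕ → (X → ℝ) → ℝ)
    (I It : ℕ → (X → ℝ) → (X → ℝ) → ℝ) (g gt : ℕ → ℂ → ℝ) (Y0 : ℂ) (c0 r δ k C : ℝ) : Prop where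
  mono : ∀ u v u' v' : X → ℝ, Sep u v → (∀ x, u' x ≠ 0 → u x ≠ 0) → (∀ x, v' x ≠ 0 → v x ≠ 0) → Sep u' v'
  rng : ∀ᶠ N in atTop, ∀ Y, ‖Y - Y0‖ ≤ c0 → k ≤ g N Y ∧ g N Y ≤ C ∧ 0 ≤ gt N Y ∧ gt N Y ≤ C
  p0 : ∀ u ∈ Tf, ∀ v ∈ Tf, Sep u v → ∀ Y, ‖Y - Y0‖ ≤ c0 → Loc y u v Y r → ∀ τ : ℝ, 0 < τ → ∀ᶠ N in atTop,
    |I N u v - g N Y * (b N u * b' N v)| ≤ δ * (g N Y * (b N u * b' N v)) + τ
  pr : ∀ ω : ℝ, 0 < ω → ∃ η : ℝ, 0 < η ∧ ∀ u ∈ Tf, ∀ v ∈ Tf, Sep u v → ∀ Y, ‖Y - Y0‖ ≤ c0 → Loc y u v Y η →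
    ∀ τ : ℝ, 0 < τ → ∀ᶠ N in atTop, |It N u v - gt N Y * (bt N u * bt' N v)| ≤ ω * (bt N u * bt' N v) + τ
  mac : ∀ u ∈ Tf, ∀ v ∈ Tf, Sep u v → ∀ τ : ℝ, 0 < τ → ∀ᶠ N in atTop, |I N u v - It N u v| ≤ τ

/-- the companions `v`, `w` of the cell `u` for the differences `q.1`, `q.2` of the displacements -/
structure Cmp (Tf : Set (X → ℝ)) (y : X → ℂ) (Sep12 Sep13 Sep23 : (X → ℝ) → (X → ℝ) → Prop)
    (b2 b3 bt2 bt3 : ℕ → (X → ℝ) → ℝ) (r k2 : ℝ) (u : X → ℝ) (q : ℂ × ℂ) (v w : X → ℝ) : Prop where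
  hv : v ∈ Tf
  hw : w ∈ Tf
  s12 : Sep12 u v
  s13 : Sep13 u w
  s23 : Sep23 v w
  l12 : Loc y u v q.1 r
  l13 : Loc y u w q.2 r
  m : ∀ᶠ N in atTop, k2 ≤ b2 N v ∧ k2 ≤ b3 N w ∧ k2 ≤ bt2 N v ∧ k2 ≤ bt3 N w

/-- **row W7**: cells of the main arcs with companions -/
def Cov (Tf : Set (X → ℝ)) (y : X → ℂ) (one f : X → ℝ) (Sep12 Sep13 Sep23 : (X → ℝ) → (X → ℝ) → Prop)
    (b1 b2 b3 bt1 bt2 bt3 : ℕ → (X → ℝ) → ℝ) (P Q : ℂ) (c0 : ℝ) : Prop :=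
  ∀ ε : ℝ, 0 < ε → ∀ r : ℝ, 0 < r → ∀ Yn : Finset (ℂ × ℂ), (∀ q ∈ Yn, ‖q.1 - P‖ ≤ c0 ∧ ‖q.2 - Q‖ ≤ c0) →
    ∃ (n : ℕ) (u : Fin n → X → ℝ) (fa : Fin n → ℝ) (k2 : ℝ), 0 < k2 ∧ (∀ i, u i ∈ Tf) ∧ (∀ i, ∃ x, u i x ≠ 0) ∧
      (∀ x, ∑ i, u i x ≤ one x) ∧ (∀ i, |fa i| ≤ 1) ∧ (∀ i x, u i x ≠ 0 → |f x - fa i| ≤ ε) ∧
      (∀ᶠ N in atTop, b1 N one - ∑ i, b1 N (u i) ≤ ε ∧ bt1 N one - ∑ i, bt1 N (u i) ≤ ε) ∧
      ∀ i, ∀ q ∈ Yn, ∃ v w : X → ℝ, Cmp Tf y Sep12 Sep13 Sep23 b2 b3 bt2 bt3 r k2 (u i) q v w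

/-! ### asymptotically positive linear functionals -/

lemma APL.le_sum {Tf : Set (X → ℝ)} {b : ℕ → (X → ℝ) → ℝ} (h : APL Tf b) {ι : Type} [Fintype ι] {u : X → ℝ} {v : ι → X → ℝ}
    (hu : u ∈ Tf) (hv : ∀ i, v i ∈ Tf) (hle : ∀ x, u x ≤ ∑ i, v i x) {τ : ℝ} (hτ : 0 < τ) :
    ∀ᶠ N in atTop, b N u ≤ ∑ i, b N (v i) + τ := by
  have h1 := h.pos (ι := Option ι) (fun o => o.elim (-1) fun _ => 1) (fun o => o.elim u v) (by rintro (_ | i); exacts [hu, hv i])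
    (fun x => by
      rw [Fintype.sum_option]
      simp only [Option.elim_none, Option.elim_some, one_mul]
      have := hle x
      linarith) τ hτ
  filter_upwards [h1] with N hN
  rw [Fintype.sum_option] at hN
  simp only [Option.elim_none, Option.elim_some, one_mul] at hN
  linarith

lemma APL.sum_le {Tf : Set (X → ℝ)} {b : ℕ → (X → ℝ) → ℝ} (h : APL Tf b) {ι : Type} [Fintype ι] {u : X → ℝ} {v : ι → X → ℝ}
    (hu : u ∈ Tf) (hv : ∀ i, v i ∈ Tf) (hle : ∀ x, ∑ i, v i x ≤ u x) {τ : ℝ} (hτ : 0 < τ) :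
    ∀ᶠ N in atTop, ∑ i, b N (v i) ≤ b N u + τ := by
  have h1 := h.pos (ι := Option ι) (fun o => o.elim 1 fun _ => -1) (fun o => o.elim u v) (by rintro (_ | i); exacts [hu, hv i])
    (fun x => by
      rw [Fintype.sum_option]
      simp only [Option.elim_none, Option.elim_some, one_mul, neg_one_mul, sum_neg_distrib]
      have := hle x
      linarith) τ hτ
  filter_upwards [h1] with N hN
  rw [Fintype.sum_option] at hN
  simp only [Option.elim_none, Option.elim_some, one_mul, neg_one_mul, sum_neg_distrib] at hN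
  linarith

lemma APL.ne {Tf : Set (X → ℝ)} {b : ℕ → (X → ℝ) → ℝ} (h : APL Tf b) {v : X → ℝ} (hv : v ∈ Tf) {k : ℝ} (hk : 0 < k)
    (hm : ∀ᶠ N in atTop, k ≤ b N v) : ∃ x, v x ≠ 0 := by
  by_contra hcon
  push Not at hcon
  have h1 := h.le_sum (ι := PEmpty) (v := fun i => i.elim) hv (fun i => i.elim) (fun x => by rw [hcon x]; simp) (half_pos hk)
  obtain ⟨N, h2, h3⟩ := (h1.and hm).exists
  simp only [univ_eq_empty, sum_empty, zero_add] at h2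
  linarith

/-! ### the triple of one cell -/

section trip

variable {Tf : Set (X → ℝ)} {y : X → ℂ} {Sep12 Sep13 Sep23 : (X → ℝ) → (X → ℝ) → Prop} {b1 b2 b3 bt1 bt2 bt3 : ℕ → (X → ℝ) → ℝ}
  {I12 It12 I13 It13 I23 It23 : ℕ → (X → ℝ) → (X → ℝ) → ℝ} {g12 gt12 g13 gt13 g23 gt23 : ℕ → ℂ → ℝ} {P Q : ℂ}
  {c0 r δ k C : ℝ}

/-- companions have near displacements -/
lemma Cmp.l23 {r k2 : ℝ} {u : X → ℝ} {q : ℂ × ℂ} {v w : X → ℝ} (h : Cmp Tf y Sep12 Sep13 Sep23 b2 b3 bt2 bt3 r k2 u q v w)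
    (hu : ∃ x, u x ≠ 0) : Loc y v w (q.2 - q.1) (2 * r) := by
  obtain ⟨x, hx⟩ := hu
  intro a b ha hb
  have h1 := h.l12 x a hx ha
  have h2 := h.l13 x b hx hb
  have e : y a - y b - (q.2 - q.1) = (y x - y b - q.2) - (y x - y a - q.1) := by ring
  rw [e]
  calc _ ≤ ‖y x - y b - q.2‖ + ‖y x - y a - q.1‖ := norm_sub_le _ _
    _ ≤ 2 * r := by linarith

theorem trip_ev (A1 : APL Tf b1) (At1 : APL Tf bt1)
    (P12 : Pr Tf y Sep12 b1 b2 bt1 bt2 I12 It12 g12 gt12 P c0 r δ k C)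
    (P13 : Pr Tf y Sep13 b1 b3 bt1 bt3 I13 It13 g13 gt13 Q c0 r δ k C)
    (P23 : Pr Tf y Sep23 b2 b3 bt2 bt3 I23 It23 g23 gt23 (Q - P) c0 r δ k C) (hδ : 0 < δ) (hk : 0 < k) {κ ω η : ℝ} (hκ : 0 < κ)
    (hω : ω ≤ δ * κ)
    (e12 : ∀ u ∈ Tf, ∀ v ∈ Tf, Sep12 u v → ∀ Y, ‖Y - P‖ ≤ c0 → Loc y u v Y (2 * η) →
      ∀ τ : ℝ, 0 < τ → ∀ᶠ N in atTop, |It12 N u v - gt12 N Y * (bt1 N u * bt2 N v)| ≤ ω * (bt1 N u * bt2 N v) + τ)
    (e13 : ∀ u ∈ Tf, ∀ v ∈ Tf, Sep13 u v → ∀ Y, ‖Y - Q‖ ≤ c0 → Loc y u v Y (2 * η) →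
      ∀ τ : ℝ, 0 < τ → ∀ᶠ N in atTop, |It13 N u v - gt13 N Y * (bt1 N u * bt3 N v)| ≤ ω * (bt1 N u * bt3 N v) + τ)
    (e23 : ∀ u ∈ Tf, ∀ v ∈ Tf, Sep23 u v → ∀ Y, ‖Y - (Q - P)‖ ≤ c0 → Loc y u v Y (2 * η) →
      ∀ τ : ℝ, 0 < τ → ∀ᶠ N in atTop, |It23 N u v - gt23 N Y * (bt2 N u * bt3 N v)| ≤ ω * (bt2 N u * bt3 N v) + τ)
    (hη0 : 0 < η) (hη : 2 * η ≤ r) {u v w : X → ℝ} {q : ℂ × ℂ} {k2 : ℝ} (hk2 : 0 < k2) (hu : u ∈ Tf) (hu0 : ∃ x, u x ≠ 0)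
    (hc : Cmp Tf y Sep12 Sep13 Sep23 b2 b3 bt2 bt3 η k2 u q v w) (hq1 : ‖q.1 - P‖ ≤ c0) (hq2 : ‖q.2 - Q‖ ≤ c0)
    (hq3 : ‖q.2 - q.1 - (Q - P)‖ ≤ c0) {ρ τ : ℝ} (hρ : 0 < ρ) (hτ : 0 < τ) :
    ∀ᶠ N in atTop, κ ≤ gt12 N q.1 → κ ≤ gt13 N q.2 → κ ≤ gt23 N (q.2 - q.1) → ∀ Z Z' : ℝ, ρ ≤ Z → ρ ≤ Z' →
      HexObs.ROT.F3.Trip (2 * δ) τ Z Z' (g12 N q.1) (g13 N q.2) (g23 N (q.2 - q.1)) (gt12 N q.1) (gt13 N q.2)
        (gt23 N (q.2 - q.1)) (b1 N u) (bt1 N u) := by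
  -- the absolute error
  obtain ⟨σ, hσ0, hσ1, hσ2, hσ3, hσ4⟩ : ∃ σ : ℝ, 0 < σ ∧ σ ≤ τ * ρ * (k * k2) ∧ 2 * σ ≤ τ * ρ * (κ * k2) ∧
      σ ≤ δ * (k * (k2 * k2)) ∧ 2 * σ ≤ δ * (κ * (k2 * k2)) := by
    refine ⟨min (min (τ * ρ * (k * k2)) (τ * ρ * (κ * k2) / 2)) (min (δ * (k * (k2 * k2))) (δ * (κ * (k2 * k2)) / 2)),
      by positivity, ?_, ?_, ?_, ?_⟩
    · exact (min_le_left _ _).trans (min_le_left _ _)
    · have := (min_le_left (min (τ * ρ * (k * k2)) (τ * ρ * (κ * k2) / 2))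
        (min (δ * (k * (k2 * k2))) (δ * (κ * (k2 * k2)) / 2))).trans (min_le_right _ _)
      linarith
    · exact (min_le_right _ _).trans (min_le_left _ _)
    · have := (min_le_right (min (τ * ρ * (k * k2)) (τ * ρ * (κ * k2) / 2))
        (min (δ * (k * (k2 * k2))) (δ * (κ * (k2 * k2)) / 2))).trans (min_le_right _ _)
      linarith
  have l23 := hc.l23 hu0
  have hηr : η ≤ r := by linarith
  have h2η : η ≤ 2 * η := by linarith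
  filter_upwards [P12.rng, P13.rng, P23.rng, hc.m, P12.p0 u hu v hc.hv hc.s12 q.1 hq1 (hc.l12.mono hηr) σ hσ0,
    P13.p0 u hu w hc.hw hc.s13 q.2 hq2 (hc.l13.mono hηr) σ hσ0, P23.p0 v hc.hv w hc.hw hc.s23 (q.2 - q.1) hq3 (l23.mono hη) σ hσ0,
    e12 u hu v hc.hv hc.s12 q.1 hq1 (hc.l12.mono h2η) σ hσ0, e13 u hu w hc.hw hc.s13 q.2 hq2 (hc.l13.mono h2η) σ hσ0,
    e23 v hc.hv w hc.hw hc.s23 (q.2 - q.1) hq3 l23 σ hσ0, P12.mac u hu v hc.hv hc.s12 σ hσ0, P13.mac u hu w hc.hw hc.s13 σ hσ0,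
    P23.mac v hc.hv w hc.hw hc.s23 σ hσ0] with N r12 r13 r23 hm a12 a13 a23 t12 t13 t23 m12 m13 m23 k12 k13 k23 Z Z' hZ hZ'
  obtain ⟨m1, m2, m3, m4⟩ := hm
  have g1 := (r12 _ hq1).1
  have g2 := (r13 _ hq2).1
  have g3 := (r23 _ hq3).1
  have x0 := A1.nn N u hu
  have x0' := At1.nn N u hu
  have y0 : 0 < b2 N v := hk2.trans_le m1
  have z0 : 0 < b3 N w := hk2.trans_le m2
  have y0' : 0 < bt2 N v := hk2.trans_le m3
  have z0' : 0 < bt3 N w := hk2.trans_le m4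
  have c1 : 0 < g12 N q.1 := hk.trans_le g1
  have c2 : 0 < g13 N q.2 := hk.trans_le g2
  have c3 : 0 < g23 N (q.2 - q.1) := hk.trans_le g3
  have d1 : 0 < gt12 N q.1 := hκ.trans_le k12
  have d2 : 0 < gt13 N q.2 := hκ.trans_le k13
  have d3 : 0 < gt23 N (q.2 - q.1) := hκ.trans_le k23
  -- products from below
  have lo : ∀ {a b c Z0 : ℝ}, 0 ≤ c → c ≤ a → k2 ≤ b → ρ ≤ Z0 → τ * ρ * (c * k2) ≤ τ * Z0 * (a * b) := by
    intro a b c Z0 hc0 hca hb hZ0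
    have h1 : c * k2 ≤ a * b := mul_le_mul hca hb hk2.le (hc0.trans hca)
    have h2 : τ * ρ ≤ τ * Z0 := mul_le_mul_of_nonneg_left hZ0 hτ.le
    exact mul_le_mul h2 h1 (mul_nonneg hc0 hk2.le) (mul_nonneg hτ.le (hρ.le.trans hZ0))
  have lo3 : ∀ {a b b' c : ℝ}, 0 ≤ c → c ≤ a → k2 ≤ b → k2 ≤ b' → δ * (c * (k2 * k2)) ≤ δ * (a * (b * b')) := by
    intro a b b' c hc0 hca hb hb'
    have h1 : k2 * k2 ≤ b * b' := mul_le_mul hb hb' hk2.le (hk2.le.trans hb)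
    exact mul_le_mul_of_nonneg_left (mul_le_mul hca h1 (mul_nonneg hk2.le hk2.le) (hc0.trans hca)) hδ.le
  have hωd : ∀ {c x : ℝ}, κ ≤ c → 0 ≤ x → ω * x ≤ δ * (c * x) := by
    intro c x hc0 hx
    have h1 : ω ≤ δ * c := hω.trans (mul_le_mul_of_nonneg_left hc0 hδ.le)
    calc ω * x ≤ δ * c * x := mul_le_mul_of_nonneg_right h1 hx
      _ = δ * (c * x) := by ring
  refine ⟨b2 N v, b3 N w, bt2 N v, bt3 N w, I12 N u v, I13 N u w, I23 N v w, y0, z0, y0', z0', ?_, ?_, ?_, ?_, ?_, ?_⟩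
  · have h1 := lo hk.le g1 m1 hZ
    have h2 : 0 ≤ δ * (g12 N q.1 * (b1 N u * b2 N v)) := by positivity
    calc |I12 N u v - g12 N q.1 * b1 N u * b2 N v| = |I12 N u v - g12 N q.1 * (b1 N u * b2 N v)| := by ring_nf
      _ ≤ δ * (g12 N q.1 * (b1 N u * b2 N v)) + σ := a12
      _ ≤ 2 * (δ * (g12 N q.1 * (b1 N u * b2 N v))) + τ * Z * (g12 N q.1 * b2 N v) := by linarith
      _ = (2 * δ * b1 N u + τ * Z) * (g12 N q.1 * b2 N v) := by ring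
  · have h1 := lo hk.le g2 m2 hZ
    have h2 : 0 ≤ δ * (g13 N q.2 * (b1 N u * b3 N w)) := by positivity
    calc |I13 N u w - g13 N q.2 * b1 N u * b3 N w| = |I13 N u w - g13 N q.2 * (b1 N u * b3 N w)| := by ring_nf
      _ ≤ δ * (g13 N q.2 * (b1 N u * b3 N w)) + σ := a13
      _ ≤ 2 * (δ * (g13 N q.2 * (b1 N u * b3 N w))) + τ * Z * (g13 N q.2 * b3 N w) := by linarith
      _ = (2 * δ * b1 N u + τ * Z) * (g13 N q.2 * b3 N w) := by ring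
  · have h1 := lo3 hk.le g3 m1 m2
    calc |I23 N v w - g23 N (q.2 - q.1) * b2 N v * b3 N w| = |I23 N v w - g23 N (q.2 - q.1) * (b2 N v * b3 N w)| := by ring_nf
      _ ≤ δ * (g23 N (q.2 - q.1) * (b2 N v * b3 N w)) + σ := a23
      _ ≤ 2 * (δ * (g23 N (q.2 - q.1) * (b2 N v * b3 N w))) := by linarith
      _ = 2 * δ * (g23 N (q.2 - q.1) * b2 N v * b3 N w) := by ring
  · have h1 := lo hκ.le k12 m3 hZ'
    have h2 := hωd k12 (mul_nonneg x0' y0'.le)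
    have h3 : 0 ≤ δ * (gt12 N q.1 * (bt1 N u * bt2 N v)) := by positivity
    calc |I12 N u v - gt12 N q.1 * bt1 N u * bt2 N v|
        = |(I12 N u v - It12 N u v) + (It12 N u v - gt12 N q.1 * (bt1 N u * bt2 N v))| := by ring_nf
      _ ≤ σ + (ω * (bt1 N u * bt2 N v) + σ) := (abs_add_le _ _).trans (add_le_add m12 t12)
      _ ≤ 2 * (δ * (gt12 N q.1 * (bt1 N u * bt2 N v))) + τ * Z' * (gt12 N q.1 * bt2 N v) := by linarith
      _ = (2 * δ * bt1 N u + τ * Z') * (gt12 N q.1 * bt2 N v) := by ring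
  · have h1 := lo hκ.le k13 m4 hZ'
    have h2 := hωd k13 (mul_nonneg x0' z0'.le)
    have h3 : 0 ≤ δ * (gt13 N q.2 * (bt1 N u * bt3 N w)) := by positivity
    calc |I13 N u w - gt13 N q.2 * bt1 N u * bt3 N w|
        = |(I13 N u w - It13 N u w) + (It13 N u w - gt13 N q.2 * (bt1 N u * bt3 N w))| := by ring_nf
      _ ≤ σ + (ω * (bt1 N u * bt3 N w) + σ) := (abs_add_le _ _).trans (add_le_add m13 t13)
      _ ≤ 2 * (δ * (gt13 N q.2 * (bt1 N u * bt3 N w))) + τ * Z' * (gt13 N q.2 * bt3 N w) := by linarith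
      _ = (2 * δ * bt1 N u + τ * Z') * (gt13 N q.2 * bt3 N w) := by ring
  · have h1 := lo3 hκ.le k23 m3 m4
    have h2 := hωd k23 (mul_nonneg y0'.le z0'.le)
    calc |I23 N v w - gt23 N (q.2 - q.1) * bt2 N v * bt3 N w|
        = |(I23 N v w - It23 N v w) + (It23 N v w - gt23 N (q.2 - q.1) * (bt2 N v * bt3 N w))| := by ring_nf
      _ ≤ σ + (ω * (bt2 N v * bt3 N w) + σ) := (abs_add_le _ _).trans (add_le_add m23 t23)
      _ ≤ 2 * (δ * (gt23 N (q.2 - q.1) * (bt2 N v * bt3 N w))) := by linarith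
      _ = 2 * δ * (gt23 N (q.2 - q.1) * bt2 N v * bt3 N w) := by ring

end trip

/-! ### the last step at fixed `N` -/

/-- the numbers of the last step -/
theorem last {n : ℕ} {x x' F : Fin n → ℝ} {M0 M1 mF nF c d e c' d' e' δ τ e0 e1 e2 ρ : ℝ} (hρ : 0 < ρ) (hM : ρ ≤ M0) (hN : ρ ≤ M1)
    (hδ : 0 < δ) (hδ1 : δ ≤ 1 / 100) (hτ : 0 < τ) (hτ1 : n * Real.sqrt (7 * τ) ≤ 1 / 10) (hτ2 : τ ≤ 1 / 2) (he0 : 0 ≤ e0)
    (he2 : 0 ≤ e2) (he : e0 + e2 ≤ ρ / 10)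
    (hc : 0 < c) (hd : 0 < d) (he' : 0 < e) (hc' : 0 < c') (hd' : 0 < d') (he'' : 0 < e') (hx : ∀ a, 0 ≤ x a) (hx' : ∀ a, 0 ≤ x' a)
    (s1 : ∑ a, x a ≤ M0 + e0) (s2 : ∑ a, x' a ≤ M1 + e0) (s3 : M0 - e2 ≤ ∑ a, x a) (s4 : M1 - e2 ≤ ∑ a, x' a)
    (hT : ∀ a, HexObs.ROT.F3.Trip (2 * δ) τ (M0 + e0) (M1 + e0) c d e c' d' e' (x a) (x' a)) (hF : ∀ a, |F a| ≤ 1)
    (f1 : |mF - ∑ a, F a * x a| ≤ e1) (f2 : |nF - ∑ a, F a * x' a| ≤ e1) (he1 : e1 ≤ e0 + e2) (f3 : 0 ≤ mF) (f4 : mF ≤ M0 + e0)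
    (f5 : 0 ≤ nF) (f6 : nF ≤ M1 + e0) :
    |mF / M0 - nF / M1| ≤ 140 * δ + 10 * (n * Real.sqrt (7 * τ)) + 8 * ((e0 + e2) / ρ) := by
  have hM0 : 0 < M0 := hρ.trans_le hM
  have hM1 : 0 < M1 := hρ.trans_le hN
  obtain ⟨ε, hε⟩ : ∃ ε : ℝ, ε = (e0 + e2) / ρ := ⟨_, rfl⟩
  have hε0 : 0 ≤ ε := by
    rw [hε]
    positivity
  have hερ : ε * ρ = e0 + e2 := by
    rw [hε]
    field_simp
  have hε1 : ε ≤ 1 / 10 := by
    rw [hε, div_le_iff₀ hρ]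
    linarith
  obtain ⟨t, ht⟩ : ∃ t : ℝ, t = 7 * (2 * δ) + n * Real.sqrt (7 * τ) := ⟨_, rfl⟩
  have ht0 : 0 ≤ t := by
    rw [ht]
    positivity
  have hs : t + ε ≤ 1 / 2 := by linarith
  have cov : ∀ M S : ℝ, ρ ≤ M → M - e2 ≤ S → (1 - ε) * (M + e0) ≤ S := by
    intro M S h1 h2
    have h3 : ε * ρ ≤ ε * (M + e0) := mul_le_mul_of_nonneg_left (by linarith) hε0
    linarith
  have fe : ∀ M g S : ℝ, ρ ≤ M → |g - S| ≤ e1 → |g - S| ≤ (t + ε) * (M + e0) := by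
    intro M g S h1 h2
    have h3 : ε * ρ ≤ (t + ε) * (M + e0) := mul_le_mul (by linarith) (by linarith) hρ.le (by linarith)
    linarith
  have key := HexObs.ROT.F3.tri_cells (J := Unit) {()} (univ : Finset (Fin n)) (x := fun _ a => x a) (x' := x') (F := F)
    (w := fun _ => 1) (X := fun _ => M0 + e0) (c := fun _ => c) (d := fun _ => d) (e := fun _ => e) (c' := fun _ => c')
    (d' := fun _ => d') (e' := fun _ => e') (M := M0 + e0) (N := M1 + e0) (δ := 2 * δ) (τ := τ) (t := t) (ε := ε) (mF := mF)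
    (nF := nF) (fun _ _ => zero_le_one) (fun _ _ => hc) (fun _ _ => hd) (fun _ _ => he') (fun _ _ => hc') (fun _ _ => hd')
    (fun _ _ => he'') (fun _ _ a _ => hx a) (fun a _ => hx' a) (fun _ _ => s1) s2 (by linarith) hτ.le
    (by rw [ht, card_univ, Fintype.card_fin]) hs (by linarith) hτ2 (fun _ _ a _ => hT a) (by linarith) (by linarith)
    (by simp) (by simpa using cov M0 _ hM s3) (cov M1 _ hN s4) (fun a _ => hF a) (by simpa using fe M0 _ _ hM f1)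
    (fe M1 _ _ hN f2)
  -- the denominators
  have den : ∀ M g : ℝ, ρ ≤ M → 0 ≤ g → g ≤ M + e0 → |g / M - g / (M + e0)| ≤ e0 / ρ := by
    intro M g h1 h2 h3
    have hMp : 0 < M := hρ.trans_le h1
    have e : g / M - g / (M + e0) = g / (M + e0) * (e0 / M) := by
      field_simp
      ring
    have h4 : g / (M + e0) ≤ 1 := (div_le_one (by linarith)).2 h3
    have h5 : e0 / M ≤ e0 / ρ := div_le_div_of_nonneg_left he0 hρ h1
    rw [e, abs_of_nonneg (by positivity)]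
    calc g / (M + e0) * (e0 / M) ≤ 1 * (e0 / M) := mul_le_mul_of_nonneg_right h4 (by positivity)
      _ ≤ e0 / ρ := by rw [one_mul]; exact h5
  have d1 := den M0 mF hM f3 f4
  have d2 := den M1 nF hN f5 f6
  have h0 : e0 / ρ ≤ ε := by
    rw [hε]
    exact div_le_div_of_nonneg_right (by linarith) hρ.le
  have htri : |mF / M0 - nF / M1| ≤ |mF / M0 - mF / (M0 + e0)| + |mF / (M0 + e0) - nF / (M1 + e0)| +
      |nF / M1 - nF / (M1 + e0)| := by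
    have e : mF / M0 - nF / M1 = (mF / M0 - mF / (M0 + e0)) + (mF / (M0 + e0) - nF / (M1 + e0)) -
      (nF / M1 - nF / (M1 + e0)) := by ring
    rw [e]
    exact (abs_sub _ _).trans (add_le_add (abs_add_le _ _) le_rfl)
  rw [← hε]
  calc _ ≤ _ := htri
    _ ≤ ε + (10 * t + 6 * ε) + ε := add_le_add (add_le_add (d1.trans h0) key) (d2.trans h0)
    _ = 140 * δ + 10 * (n * Real.sqrt (7 * τ)) + 8 * ε := by
      rw [ht]
      ring

/-! ### pairs and partitions -/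

section parts

variable {Tf : Set (X → ℝ)} {y : X → ℂ}

theorem pair_ev {Sep : (X → ℝ) → (X → ℝ) → Prop} {b b' bt bt' : ℕ → (X → ℝ) → ℝ} {I It : ℕ → (X → ℝ) → (X → ℝ) → ℝ}
    {g gt : ℕ → ℂ → ℝ} {Y0 : ℂ} {c0 r δ k C : ℝ} (H : Pr Tf y Sep b b' bt bt' I It g gt Y0 c0 r δ k C) (A : APL Tf b)
    (A' : APL Tf b') (hδ1 : δ ≤ 1 / 2) (hk : 0 < k) {ω η : ℝ}
    (hη : ∀ u ∈ Tf, ∀ v ∈ Tf, Sep u v → ∀ Y, ‖Y - Y0‖ ≤ c0 → Loc y u v Y η →
      ∀ τ : ℝ, 0 < τ → ∀ᶠ N in atTop, |It N u v - gt N Y * (bt N u * bt' N v)| ≤ ω * (bt N u * bt' N v) + τ)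
    {u v : X → ℝ} (hu : u ∈ Tf) (hv : v ∈ Tf) (hs : Sep u v) {Y : ℂ} (hY : ‖Y - Y0‖ ≤ c0) (hl : Loc y u v Y r)
    (hl' : Loc y u v Y η) {τ : ℝ} (hτ : 0 < τ) : ∀ᶠ N in atTop, k / 2 * (b N u * b' N v) ≤ I N u v + τ ∧
      I N u v ≤ (gt N Y + ω) * (bt N u * bt' N v) + τ := by
  filter_upwards [H.rng, H.p0 u hu v hv hs Y hY hl τ hτ, hη u hu v hv hs Y hY hl' (τ / 2) (half_pos hτ),
    H.mac u hu v hv hs (τ / 2) (half_pos hτ)] with N h1 h2 h3 h4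
  obtain ⟨g1, -, -, -⟩ := h1 Y hY
  have x0 : 0 ≤ b N u * b' N v := mul_nonneg (A.nn N u hu) (A'.nn N v hv)
  have h5 : k * (b N u * b' N v) ≤ g N Y * (b N u * b' N v) := mul_le_mul_of_nonneg_right g1 x0
  have h6 : δ * (g N Y * (b N u * b' N v)) ≤ 1 / 2 * (g N Y * (b N u * b' N v)) :=
    mul_le_mul_of_nonneg_right hδ1 ((mul_nonneg hk.le x0).trans h5)
  have h2' := abs_le.1 h2
  have h3' := abs_le.1 h3
  have h4' := abs_le.1 h4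
  constructor
  · linarith [h2'.1]
  · have e : (gt N Y + ω) * (bt N u * bt' N v) = gt N Y * (bt N u * bt' N v) + ω * (bt N u * bt' N v) := by ring
    rw [e]
    linarith [h3'.2, h4'.2]

/-- the pieces of a test function which are not zero -/
noncomputable def Pc (y : X → ℂ) (h : ℂ → ℂ → ℝ) (T : Finset ℂ) (p : X → ℝ) : Finset ℂ :=
  by classical exact T.filter fun s => ∃ x, p x * h s (y x) ≠ 0

/-- the piece number `s` -/
def pc (y : X → ℂ) (h : ℂ → ℂ → ℝ) (p : X → ℝ) (s : ℂ) : X → ℝ := fun x => p x * h s (y x)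

lemma mem_Pc {h : ℂ → ℂ → ℝ} {T : Finset ℂ} {p : X → ℝ} {s : ℂ} : s ∈ Pc y h T p ↔ s ∈ T ∧ ∃ x, pc y h p s x ≠ 0 := by
  classical
  unfold Pc
  simp only [mem_filter]
  rfl

lemma pc_sum {h : ℂ → ℂ → ℝ} {T : Finset ℂ} {p : X → ℝ} (h1 : ∀ x, p x ≠ 0 → ∑ s ∈ T, h s (y x) = 1) (x : X) :
    ∑ s : {s // s ∈ Pc y h T p}, pc y h p s x = p x := by
  classical
  rw [Finset.sum_coe_sort (Pc y h T p) fun s => pc y h p s x]
  have e : ∑ s ∈ Pc y h T p, pc y h p s x = ∑ s ∈ T, pc y h p s x := by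
    refine sum_subset (fun s hs => (mem_Pc.1 hs).1) fun s hs hn => ?_
    by_contra h0
    exact hn (mem_Pc.2 ⟨hs, x, h0⟩)
  rw [e]
  unfold pc
  rw [← mul_sum]
  by_cases h0 : p x = 0
  · rw [h0, zero_mul]
  · rw [h1 x h0, mul_one]

theorem part_ev {b : ℕ → (X → ℝ) → ℝ} (A : APL Tf b) {h : ℂ → ℂ → ℝ} {T : Finset ℂ} {p : X → ℝ} (hp : p ∈ Tf)
    (hT : ∀ s ∈ T, pc y h p s ∈ Tf) (h1 : ∀ x, p x ≠ 0 → ∑ s ∈ T, h s (y x) = 1) {τ : ℝ} (hτ : 0 < τ) :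
    ∀ᶠ N in atTop, b N p ≤ ∑ s ∈ Pc y h T p, b N (pc y h p s) + τ ∧ ∑ s ∈ Pc y h T p, b N (pc y h p s) ≤ b N p + τ := by
  have a1 := A.le_sum (ι := {s // s ∈ Pc y h T p}) (v := fun s => pc y h p s) hp (fun s => hT s (mem_Pc.1 s.2).1)
    (fun x => (pc_sum h1 x).ge) hτ
  have a2 := A.sum_le (ι := {s // s ∈ Pc y h T p}) (v := fun s => pc y h p s) hp (fun s => hT s (mem_Pc.1 s.2).1)
    (fun x => (pc_sum h1 x).le) hτ
  filter_upwards [a1, a2] with N h2 h3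
  rw [Finset.sum_coe_sort (Pc y h T p) fun s => b N (pc y h p s)] at h2 h3
  exact ⟨h2, h3⟩

/-- the functional `f * one` and the cells -/
theorem fun_ev {b : ℕ → (X → ℝ) → ℝ} (A : APL Tf b) {one f : X → ℝ} (T1 : one ∈ Tf) (T2 : (fun x => f x * one x) ∈ Tf)
    (T3 : ∀ u ∈ Tf, ∀ x, 0 ≤ u x) (hf : ∀ x, 0 ≤ f x ∧ f x ≤ 1) {n : ℕ} {u : Fin n → X → ℝ} {fa : Fin n → ℝ} (hu : ∀ i, u i ∈ Tf)
    (hone : ∀ x, ∑ i, u i x ≤ one x) {ε : ℝ} (hfa : ∀ i x, u i x ≠ 0 → |f x - fa i| ≤ ε) {τ : ℝ} (hτ : 0 < τ) :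
    ∀ᶠ N in atTop, |b N (fun x => f x * one x) - ∑ i, fa i * b N (u i)| ≤
      (b N one - ∑ i, b N (u i)) + ε * ∑ i, b N (u i) + 2 * τ ∧ ∑ i, b N (u i) ≤ b N one + τ ∧
      b N (fun x => f x * one x) ≤ b N one + τ := by
  have hc : ∀ i x, |f x - fa i| * u i x ≤ ε * u i x := by
    intro i x
    by_cases h0 : u i x = 0
    · rw [h0]
      simp
    · exact mul_le_mul_of_nonneg_right (hfa i x h0) (T3 _ (hu i) x)
  -- upper bound
  have a1 := A.pos (ι := Option (Option (Fin n))) (fun o => o.elim 1 fun o' => o'.elim (-1) fun i => -1 + ε + fa i)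
    (fun o => o.elim one fun o' => o'.elim (fun x => f x * one x) u) (by rintro (_ | _ | i); exacts [T1, T2, hu i])
    (fun x => by
      rw [Fintype.sum_option, Fintype.sum_option]
      simp only [Option.elim_none, Option.elim_some]
      have h1 : (0 : ℝ) ≤ (1 - f x) * (one x - ∑ i, u i x) := mul_nonneg (by linarith [(hf x).2]) (by linarith [hone x])
      have h2 : ∑ i, f x * u i x ≤ ∑ i, (ε + fa i) * u i x := sum_le_sum fun i _ => by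
        have h3 := hc i x
        have h4 := mul_le_mul_of_nonneg_right (le_abs_self (f x - fa i)) (T3 _ (hu i) x)
        linarith
      have h5 : ∑ i, (-1 + ε + fa i) * u i x = ∑ i, (ε + fa i) * u i x - ∑ i, u i x := by
        rw [← sum_sub_distrib]
        exact sum_congr rfl fun i _ => by ring
      rw [h5]
      rw [← mul_sum] at h2
      linarith) τ hτ
  -- lower bound
  have a2 := A.pos (ι := Option (Option (Fin n))) (fun o => o.elim 0 fun o' => o'.elim 1 fun i => ε - fa i)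
    (fun o => o.elim one fun o' => o'.elim (fun x => f x * one x) u) (by rintro (_ | _ | i); exacts [T1, T2, hu i])
    (fun x => by
      rw [Fintype.sum_option, Fintype.sum_option]
      simp only [Option.elim_none, Option.elim_some, zero_mul, one_mul, zero_add]
      have h1 : (0 : ℝ) ≤ f x * (one x - ∑ i, u i x) := mul_nonneg (hf x).1 (by linarith [hone x])
      have h2 : ∑ i, (fa i - ε) * u i x ≤ ∑ i, f x * u i x := sum_le_sum fun i _ => by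
        have h3 := hc i x
        have h4 := mul_le_mul_of_nonneg_right (neg_abs_le (f x - fa i)) (T3 _ (hu i) x)
        linarith
      have h5 : ∑ i, (ε - fa i) * u i x = - ∑ i, (fa i - ε) * u i x := by
        rw [← sum_neg_distrib]
        exact sum_congr rfl fun i _ => by ring
      rw [h5]
      rw [← mul_sum] at h2
      linarith) τ hτ
  have a3 := A.sum_le (v := u) T1 hu hone hτ
  have a4 := A.sum_le (ι := Unit) (v := fun _ => fun x => f x * one x) T1 (fun _ => T2) (fun x => by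
    rw [Fintype.sum_unique]
    have h1 := mul_le_mul_of_nonneg_right (hf x).2 (T3 _ T1 x)
    linarith) hτ
  filter_upwards [a1, a2, a3, a4] with N h1 h2 h3 h4
  rw [Fintype.sum_option, Fintype.sum_option] at h1 h2
  simp only [Option.elim_none, Option.elim_some, zero_mul, one_mul, zero_add] at h1 h2
  rw [Fintype.sum_unique] at h4
  have e1 : ∑ i, (-1 + ε + fa i) * b N (u i) = ε * ∑ i, b N (u i) + ∑ i, fa i * b N (u i) - ∑ i, b N (u i) := by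
    rw [mul_sum, ← sum_add_distrib, ← sum_sub_distrib]
    exact sum_congr rfl fun i _ => by ring
  have e2 : ∑ i, (ε - fa i) * b N (u i) = ε * ∑ i, b N (u i) - ∑ i, fa i * b N (u i) := by
    rw [mul_sum, ← sum_sub_distrib]
    exact sum_congr rfl fun i _ => by ring
  rw [e1] at h1
  rw [e2] at h2
  refine ⟨?_, h3, h4⟩
  rw [abs_le]
  constructor <;> linarith

end parts

/-! ### the inner theorem -/

/-- supports are bounded -/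
lemma Cmp.bdd {Tf : Set (X → ℝ)} {y : X → ℂ} {Sep12 Sep13 Sep23 : (X → ℝ) → (X → ℝ) → Prop} {b2 b3 bt2 bt3 : ℕ → (X → ℝ) → ℝ}
    (A2 : APL Tf b2) {r k2 : ℝ} (hk2 : 0 < k2) {u : X → ℝ} {q : ℂ × ℂ} {v w : X → ℝ}
    (h : Cmp Tf y Sep12 Sep13 Sep23 b2 b3 bt2 bt3 r k2 u q v w) (hu : ∃ x, u x ≠ 0) :
    ∃ R : ℝ, 0 ≤ R ∧ ∀ x, (u x ≠ 0 ∨ v x ≠ 0 ∨ w x ≠ 0) → ‖y x‖ ≤ R := by
  obtain ⟨x0, hx0⟩ := hu
  obtain ⟨x1, hx1⟩ := A2.ne h.hv hk2 (h.m.mono fun N hN => hN.1)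
  have hr : 0 ≤ r := (norm_nonneg _).trans (h.l12 x0 x1 hx0 hx1)
  refine ⟨‖y x0‖ + ‖y x1‖ + ‖q.1‖ + ‖q.2‖ + r, by positivity, fun x hx => ?_⟩
  rcases hx with hx | hx | hx
  · have h1 := h.l12 x x1 hx hx1
    have e : y x = (y x - y x1 - q.1) + (y x1 + q.1) := by ring
    have h2 : ‖y x‖ ≤ ‖y x - y x1 - q.1‖ + (‖y x1‖ + ‖q.1‖) := by
      conv_lhs => rw [e]
      exact (norm_add_le _ _).trans (add_le_add le_rfl (norm_add_le _ _))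
    have := norm_nonneg (y x0)
    have := norm_nonneg q.2
    linarith
  · have h1 := h.l12 x0 x hx0 hx
    have e : y x = (y x0 - q.1) - (y x0 - y x - q.1) := by ring
    have h2 : ‖y x‖ ≤ (‖y x0‖ + ‖q.1‖) + ‖y x0 - y x - q.1‖ := by
      conv_lhs => rw [e]
      exact (norm_sub_le _ _).trans (add_le_add (norm_sub_le _ _) le_rfl)
    have := norm_nonneg (y x1)
    have := norm_nonneg q.2
    linarith
  · have h1 := h.l13 x0 x hx0 hx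
    have e : y x = (y x0 - q.2) - (y x0 - y x - q.2) := by ring
    have h2 : ‖y x‖ ≤ (‖y x0‖ + ‖q.2‖) + ‖y x0 - y x - q.2‖ := by
      conv_lhs => rw [e]
      exact (norm_sub_le _ _).trans (add_le_add (norm_sub_le _ _) le_rfl)
    have := norm_nonneg (y x1)
    have := norm_nonneg q.1
    linarith

/-- pieces near `s`, `t` -/
lemma pc_loc {y : X → ℂ} {h : ℂ → ℂ → ℝ} {T : Finset ℂ} {η : ℝ} (hh : ∀ a ∈ T, ∀ x, η / 2 ≤ dist x a → h a x = 0)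
    {u v : X → ℝ} {s t : ℂ} (hs : s ∈ T) (ht : t ∈ T) : Loc y (pc y h u s) (pc y h v t) (s - t) η := by
  intro a b ha hb
  have h1 : dist (y a) s < η / 2 := by
    by_contra hcon
    exact ha (by unfold pc; rw [hh s hs _ (not_lt.1 hcon), mul_zero])
  have h2 : dist (y b) t < η / 2 := by
    by_contra hcon
    exact hb (by unfold pc; rw [hh t ht _ (not_lt.1 hcon), mul_zero])
  rw [dist_eq_norm] at h1 h2
  have e : y a - y b - (s - t) = (y a - s) - (y b - t) := by ring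
  rw [e]
  exact (norm_sub_le _ _).trans (by linarith)

/-- the centres of two pieces -/
lemma pc_near {y : X → ℂ} {h : ℂ → ℂ → ℝ} {T : Finset ℂ} {η : ℝ} (hh : ∀ a ∈ T, ∀ x, η / 2 ≤ dist x a → h a x = 0)
    {u v : X → ℝ} {Y : ℂ} {r : ℝ} (hl : Loc y u v Y r) {s t : ℂ} (hs : s ∈ Pc y h T u) (ht : t ∈ Pc y h T v) :
    ‖s - t - Y‖ ≤ r + η := by
  obtain ⟨hs1, a, ha⟩ := mem_Pc.1 hs
  obtain ⟨ht1, b, hb⟩ := mem_Pc.1 ht
  have h1 := pc_loc hh (u := u) (v := v) hs1 ht1 a b ha hb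
  have h2 := hl a b (left_ne_zero_of_mul ha) (left_ne_zero_of_mul hb)
  have e : s - t - Y = (y a - y b - Y) - (y a - y b - (s - t)) := by ring
  rw [e]
  exact (norm_sub_le _ _).trans (add_le_add h2 h1)

section main

variable {Tf : Set (X → ℝ)} {y : X → ℂ} {Sep12 Sep13 Sep23 : (X → ℝ) → (X → ℝ) → Prop} {b1 b2 b3 bt1 bt2 bt3 : ℕ → (X → ℝ) → ℝ}
  {I12 It12 I13 It13 I23 It23 : ℕ → (X → ℝ) → (X → ℝ) → ℝ} {g12 gt12 g13 gt13 g23 gt23 : ℕ → ℂ → ℝ} {P Q : ℂ}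
  {c0 r δ k C : ℝ}

/-- **the inner theorem** -/
theorem inner {one f : X → ℝ} (T1 : one ∈ Tf) (T2 : (fun x => f x * one x) ∈ Tf) (T3 : ∀ u ∈ Tf, ∀ x, 0 ≤ u x)
    (T4 : ∀ u ∈ Tf, ∀ h : ℂ → ℝ, (∃ L, LipschitzWith L h) → (∀ z, 0 ≤ h z ∧ h z ≤ 1) → (fun x => u x * h (y x)) ∈ Tf)
    (hf : ∀ x, 0 ≤ f x ∧ f x ≤ 1) (A1 : APL Tf b1) (A2 : APL Tf b2) (A3 : APL Tf b3) (At1 : APL Tf bt1) (At2 : APL Tf bt2)
    (At3 : APL Tf bt3) (B1 : Bd Tf b1 C) (B2 : Bd Tf b2 C) (B3 : Bd Tf b3 C) (C1 : Bd Tf bt1 C) (C2 : Bd Tf bt2 C)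
    (C3 : Bd Tf bt3 C) (P12 : Pr Tf y Sep12 b1 b2 bt1 bt2 I12 It12 g12 gt12 P c0 r δ k C)
    (P13 : Pr Tf y Sep13 b1 b3 bt1 bt3 I13 It13 g13 gt13 Q c0 r δ k C)
    (P23 : Pr Tf y Sep23 b2 b3 bt2 bt3 I23 It23 g23 gt23 (Q - P) c0 r δ k C)
    (hcov : Cov Tf y one f Sep12 Sep13 Sep23 b1 b2 b3 bt1 bt2 bt3 P Q c0) (hδ : 0 < δ) (hδ1 : δ ≤ 1 / 100) (hk : 0 < k)
    (hr : 0 < r) (hc0 : 0 < c0) (hC : 0 < C) {εr ε : ℝ} (hεr : 0 < εr) (hε : 0 < ε) :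
    ∀ᶠ N in atTop, εr ≤ b1 N one →
      |b1 N (fun x => f x * one x) / b1 N one - bt1 N (fun x => f x * one x) / bt1 N one| ≤ 140 * δ + ε := by
  classical
  obtain ⟨ηA, hηA, eA⟩ := P12.pr 1 one_pos
  obtain ⟨r1, hr1, hr1a, hr1b, hr1c⟩ : ∃ r1 : ℝ, 0 < r1 ∧ r1 ≤ r ∧ r1 ≤ ηA ∧ r1 ≤ c0 / 8 :=
    ⟨min (min r ηA) (c0 / 8), by positivity, (min_le_left _ _).trans (min_le_left _ _),
      (min_le_left _ _).trans (min_le_right _ _), min_le_right _ _⟩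
  -- the coarse cover
  obtain ⟨n0, u0, fa0, k0, hk0, hu0, hne0, hone0, -, -, hcov0, hcmp0⟩ := hcov (εr / 2) (half_pos hεr) r1 hr1 {(P, Q)}
    (fun q hq => by
      rw [mem_singleton] at hq
      rw [hq]
      simp [hc0.le])
  have hcmp0' : ∀ i, ∃ v w : X → ℝ, Cmp Tf y Sep12 Sep13 Sep23 b2 b3 bt2 bt3 r1 k0 (u0 i) (P, Q) v w :=
    fun i => hcmp0 i _ (mem_singleton_self _)
  choose v0 w0 hc using hcmp0'
  have hl23 : ∀ i, Loc y (v0 i) (w0 i) (Q - P) (2 * r1) := fun i => (hc i).l23 (hne0 i)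
  -- constants
  obtain ⟨K, hKd⟩ : ∃ K : ℝ, K = k / 2 := ⟨_, rfl⟩
  have hK : 0 < K := by
    rw [hKd]
    positivity
  obtain ⟨m, hm0, hm1, hm2⟩ : ∃ m : ℝ, 0 < m ∧ m ≤ εr / (4 * ((n0 : ℝ) + 1)) ∧ m ≤ k0 / 2 :=
    ⟨min (εr / (4 * ((n0 : ℝ) + 1))) (k0 / 2), by positivity, min_le_left _ _, min_le_right _ _⟩
  obtain ⟨D, hD⟩ : ∃ D : ℝ, D = C + 1 := ⟨_, rfl⟩
  have hD0 : 0 < D := by
    rw [hD]
    positivity
  obtain ⟨κ2, hκ2⟩ : ∃ κ2 : ℝ, κ2 = K * m ^ 3 / (12 * D ^ 3) := ⟨_, rfl⟩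
  have hκ20 : 0 < κ2 := by
    rw [hκ2]
    positivity
  obtain ⟨κ, hκ⟩ : ∃ κ : ℝ, κ = κ2 / 2 := ⟨_, rfl⟩
  have hκ0 : 0 < κ := by
    rw [hκ]
    positivity
  obtain ⟨ω, hω⟩ : ∃ ω : ℝ, ω = δ * κ := ⟨_, rfl⟩
  have hω0 : 0 < ω := by
    rw [hω]
    positivity
  have hω1 : ω ≤ κ := by
    rw [hω]
    calc δ * κ ≤ 1 * κ := mul_le_mul_of_nonneg_right (by linarith) hκ0.le
      _ = κ := one_mul κ
  obtain ⟨η12, h12, e12⟩ := P12.pr ω hω0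
  obtain ⟨η13, h13, e13⟩ := P13.pr ω hω0
  obtain ⟨η23, h23, e23⟩ := P23.pr ω hω0
  obtain ⟨η, hη0, hηa, hηb, hηc, hηd, hηe⟩ : ∃ η : ℝ, 0 < η ∧ 2 * η ≤ η12 ∧ 2 * η ≤ η13 ∧ 2 * η ≤ η23 ∧ 2 * η ≤ r ∧ 8 * η ≤ c0 := by
    refine ⟨min (min η12 η13) (min η23 (min r c0)) / 16, by positivity, ?_, ?_, ?_, ?_, ?_⟩
    · have := (min_le_left (min η12 η13) (min η23 (min r c0))).trans (min_le_left _ _)
      linarith
    · have := (min_le_left (min η12 η13) (min η23 (min r c0))).trans (min_le_right _ _)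
      linarith
    · have := (min_le_right (min η12 η13) (min η23 (min r c0))).trans (min_le_left _ _)
      linarith
    · have := (min_le_right (min η12 η13) (min η23 (min r c0))).trans ((min_le_right _ _).trans (min_le_left _ _))
      linarith
    · have := (min_le_right (min η12 η13) (min η23 (min r c0))).trans ((min_le_right _ _).trans (min_le_right _ _))
      linarith
  -- the partition of the displacements
  have hbd : ∀ i, ∃ R : ℝ, 0 ≤ R ∧ ∀ x, (u0 i x ≠ 0 ∨ v0 i x ≠ 0 ∨ w0 i x ≠ 0) → ‖y x‖ ≤ R := fun i => (hc i).bdd A2 hk0 (hne0 i)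
  choose Ri hRi0 hRi using hbd
  obtain ⟨Rm, hRm⟩ : ∃ Rm : ℝ, Rm = ∑ i, Ri i := ⟨_, rfl⟩
  have hRm1 : ∀ i x, (u0 i x ≠ 0 ∨ v0 i x ≠ 0 ∨ w0 i x ≠ 0) → ‖y x‖ ≤ Rm := fun i x hx =>
    (hRi i x hx).trans (by rw [hRm]; exact single_le_sum (fun j _ => hRi0 j) (mem_univ i))
  obtain ⟨T, h, L, ηc, hηc0, hTS, hLip, hrng, hsupp, hsum1, hsum⟩ := HexObs.ROT.F3.lip_cover
    (isCompact_closedBall (0 : ℂ) Rm) (fun _ => η / 2) (fun _ _ => half_pos hη0)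
  have hpart : ∀ i (p : X → ℝ), (∀ x, p x ≠ 0 → (u0 i x ≠ 0 ∨ v0 i x ≠ 0 ∨ w0 i x ≠ 0)) → ∀ x, p x ≠ 0 → ∑ s ∈ T, h s (y x) = 1 :=
    fun i p hp x hx => hsum (y x) (y x) (mem_closedBall_zero_iff.2 (hRm1 i x (hp x hx))) (by rw [dist_self]; exact hηc0.le)
  have hTf : ∀ p ∈ Tf, ∀ s ∈ T, pc y h p s ∈ Tf := fun p hp s hs => T4 p hp (h s) ⟨L, hLip s hs⟩ (hrng s hs)
  -- the absolute errors
  obtain ⟨ρ, hρd⟩ : ∃ ρ : ℝ, ρ = min εr (K * m ^ 2 / (4 * D ^ 2)) := ⟨_, rfl⟩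
  have hρ : 0 < ρ := by
    rw [hρd]
    positivity
  have hε1 : 0 < min ε 1 := lt_min hε one_pos
  obtain ⟨s0, hs0⟩ : ∃ s0 : ℝ, s0 = min ε 1 * min ρ 1 / 100 := ⟨_, rfl⟩
  have hs00 : 0 < s0 := by
    rw [hs0]
    positivity
  have hs01 : s0 ≤ min ε 1 * ρ / 100 := by
    rw [hs0]
    exact div_le_div_of_nonneg_right (mul_le_mul_of_nonneg_left (min_le_left _ _) hε1.le) (by norm_num)
  have hs02 : s0 ≤ 1 / 100 := by
    rw [hs0]
    refine div_le_div_of_nonneg_right ?_ (by norm_num)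
    calc min ε 1 * min ρ 1 ≤ 1 * 1 := mul_le_mul (min_le_right _ _) (min_le_right _ _) (by positivity) zero_le_one
      _ = 1 := one_mul 1
  obtain ⟨ε2, hε2⟩ : ∃ ε2 : ℝ, ε2 = s0 / (C + 2) := ⟨_, rfl⟩
  have hε20 : 0 < ε2 := by
    rw [hε2]
    positivity
  have hε2C : ε2 + ε2 * (C + 1) = s0 := by
    rw [hε2]
    field_simp
    ring
  -- the fine cover
  obtain ⟨Yn, hYn⟩ : ∃ Yn : Finset (ℂ × ℂ), Yn = ((T ×ˢ (T ×ˢ T)).image fun a => (a.1 - a.2.1, a.1 - a.2.2)).filter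
    fun q => ‖q.1 - P‖ ≤ c0 ∧ ‖q.2 - Q‖ ≤ c0 ∧ ‖q.2 - q.1 - (Q - P)‖ ≤ c0 := ⟨_, rfl⟩
  have hYn1 : ∀ q ∈ Yn, ‖q.1 - P‖ ≤ c0 ∧ ‖q.2 - Q‖ ≤ c0 ∧ ‖q.2 - q.1 - (Q - P)‖ ≤ c0 := by
    intro q hq
    rw [hYn, mem_filter] at hq
    exact hq.2
  obtain ⟨n1, u1, fa1, k1, hk1, hu1, hne1, hone1, hfa1, hosc1, hcov1, hcmp1⟩ := hcov ε2 hε20 η hη0 Yn
    (fun q hq => ⟨(hYn1 q hq).1, (hYn1 q hq).2.1⟩)
  obtain ⟨τ, hτd⟩ : ∃ τ : ℝ, τ = (min ε 1 / (100 * ((n1 : ℝ) + 1))) ^ 2 / 7 := ⟨_, rfl⟩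
  have hτ0 : 0 < τ := by
    rw [hτd]
    positivity
  have hsq : Real.sqrt (7 * τ) = min ε 1 / (100 * ((n1 : ℝ) + 1)) := by
    rw [hτd, show 7 * ((min ε 1 / (100 * ((n1 : ℝ) + 1))) ^ 2 / 7) = (min ε 1 / (100 * ((n1 : ℝ) + 1))) ^ 2 by ring]
    exact Real.sqrt_sq (by positivity)
  have hnsq : n1 * Real.sqrt (7 * τ) ≤ min ε 1 / 100 := by
    rw [hsq, ← mul_div_assoc, div_le_div_iff₀ (by positivity) (by norm_num)]
    have : 0 ≤ min ε 1 * 100 := by positivity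
    linarith
  obtain ⟨nT, hnT⟩ : ∃ nT : ℕ, nT = T.card := ⟨_, rfl⟩
  obtain ⟨τ1, hτ10, hτ1a, hτ1b, hτ1c, hτ1d, hτ1e, hτ1f⟩ : ∃ τ1 : ℝ, 0 < τ1 ∧ τ1 ≤ m ∧ τ1 ≤ 1 ∧
      6 * D * τ1 * (nT * nT) ≤ K * m ^ 3 / 4 ∧ (D ^ 2 + 2) * τ1 ≤ K * m ^ 2 / 2 ∧ τ1 ≤ s0 / 4 ∧ 0 ≤ τ1 := by
    refine ⟨min (min m 1) (min (min (K * m ^ 3 / (24 * D * (nT * nT + 1))) (K * m ^ 2 / (2 * (D ^ 2 + 2)))) (s0 / 4)),
      by positivity, (min_le_left _ _).trans (min_le_left _ _), (min_le_left _ _).trans (min_le_right _ _), ?_, ?_,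
      (min_le_right _ _).trans (min_le_right _ _), by positivity⟩
    · have h1 : min (min m 1) (min (min (K * m ^ 3 / (24 * D * (nT * nT + 1))) (K * m ^ 2 / (2 * (D ^ 2 + 2)))) (s0 / 4)) ≤
        K * m ^ 3 / (24 * D * (nT * nT + 1)) := (min_le_right _ _).trans ((min_le_left _ _).trans (min_le_left _ _))
      set t := min (min m 1) (min (min (K * m ^ 3 / (24 * D * (nT * nT + 1))) (K * m ^ 2 / (2 * (D ^ 2 + 2)))) (s0 / 4))
      rw [le_div_iff₀ (by positivity)] at h1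
      have h2 : 0 ≤ t := by positivity
      have h3 : 0 ≤ D * t := by positivity
      linarith
    · have h1 : min (min m 1) (min (min (K * m ^ 3 / (24 * D * (nT * nT + 1))) (K * m ^ 2 / (2 * (D ^ 2 + 2)))) (s0 / 4)) ≤
        K * m ^ 2 / (2 * (D ^ 2 + 2)) := (min_le_right _ _).trans ((min_le_left _ _).trans (min_le_right _ _))
      rw [le_div_iff₀ (by positivity)] at h1
      linarith
  -- the events
  have evA : ∀ i, ∀ᶠ N in atTop, K * (b1 N (u0 i) * b2 N (v0 i)) ≤ I12 N (u0 i) (v0 i) + τ1 ∧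
      I12 N (u0 i) (v0 i) ≤ (gt12 N P + 1) * (bt1 N (u0 i) * bt2 N (v0 i)) + τ1 := fun i => by
    rw [hKd]
    exact pair_ev P12 A1 A2 (by linarith) hk eA (hu0 i) (hc i).hv (hc i).s12 (by simp [hc0.le]) ((hc i).l12.mono hr1a)
      ((hc i).l12.mono hr1b) hτ10
  have ev12 : ∀ i, ∀ s ∈ Pc y h T (u0 i), ∀ t ∈ Pc y h T (v0 i), ∀ᶠ N in atTop,
      K * (b1 N (pc y h (u0 i) s) * b2 N (pc y h (v0 i) t)) ≤ I12 N (pc y h (u0 i) s) (pc y h (v0 i) t) + τ1 ∧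
      I12 N (pc y h (u0 i) s) (pc y h (v0 i) t) ≤ (gt12 N (s - t) + ω) * (bt1 N (pc y h (u0 i) s) * bt2 N (pc y h (v0 i) t)) + τ1 := by
    intro i s hs t ht
    have hs1 := (mem_Pc.1 hs).1
    have ht1 := (mem_Pc.1 ht).1
    have hn := pc_near hsupp (hc i).l12 hs ht
    have hl := pc_loc hsupp (y := y) (u := u0 i) (v := v0 i) hs1 ht1
    rw [hKd]
    exact pair_ev P12 A1 A2 (by linarith) hk (fun u hu v hv hS Y hY hL => e12 u hu v hv hS Y hY hL) (hTf _ (hu0 i) s hs1)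
      (hTf _ (hc i).hv t ht1) (P12.mono _ _ _ _ (hc i).s12 (fun x hx => left_ne_zero_of_mul hx) fun x hx => left_ne_zero_of_mul hx)
      (hn.trans (by linarith)) (hl.mono (by linarith)) (hl.mono (by linarith)) hτ10
  have ev13 : ∀ i, ∀ s ∈ Pc y h T (u0 i), ∀ t ∈ Pc y h T (w0 i), ∀ᶠ N in atTop,
      K * (b1 N (pc y h (u0 i) s) * b3 N (pc y h (w0 i) t)) ≤ I13 N (pc y h (u0 i) s) (pc y h (w0 i) t) + τ1 ∧
      I13 N (pc y h (u0 i) s) (pc y h (w0 i) t) ≤ (gt13 N (s - t) + ω) * (bt1 N (pc y h (u0 i) s) * bt3 N (pc y h (w0 i) t)) + τ1 := by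
    intro i s hs t ht
    have hs1 := (mem_Pc.1 hs).1
    have ht1 := (mem_Pc.1 ht).1
    have hn := pc_near hsupp (hc i).l13 hs ht
    have hl := pc_loc hsupp (y := y) (u := u0 i) (v := w0 i) hs1 ht1
    rw [hKd]
    exact pair_ev P13 A1 A3 (by linarith) hk (fun u hu v hv hS Y hY hL => e13 u hu v hv hS Y hY hL) (hTf _ (hu0 i) s hs1)
      (hTf _ (hc i).hw t ht1) (P13.mono _ _ _ _ (hc i).s13 (fun x hx => left_ne_zero_of_mul hx) fun x hx => left_ne_zero_of_mul hx)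
      (hn.trans (by linarith)) (hl.mono (by linarith)) (hl.mono (by linarith)) hτ10
  have ev23 : ∀ i, ∀ s ∈ Pc y h T (v0 i), ∀ t ∈ Pc y h T (w0 i), ∀ᶠ N in atTop,
      K * (b2 N (pc y h (v0 i) s) * b3 N (pc y h (w0 i) t)) ≤ I23 N (pc y h (v0 i) s) (pc y h (w0 i) t) + τ1 ∧
      I23 N (pc y h (v0 i) s) (pc y h (w0 i) t) ≤ (gt23 N (s - t) + ω) * (bt2 N (pc y h (v0 i) s) * bt3 N (pc y h (w0 i) t)) + τ1 := by
    intro i s hs t ht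
    have hs1 := (mem_Pc.1 hs).1
    have ht1 := (mem_Pc.1 ht).1
    have hn := pc_near hsupp (hl23 i) hs ht
    have hl := pc_loc hsupp (y := y) (u := v0 i) (v := w0 i) hs1 ht1
    rw [hKd]
    exact pair_ev P23 A2 A3 (by linarith) hk (fun u hu v hv hS Y hY hL => e23 u hu v hv hS Y hY hL) (hTf _ (hc i).hv s hs1)
      (hTf _ (hc i).hw t ht1) (P23.mono _ _ _ _ (hc i).s23 (fun x hx => left_ne_zero_of_mul hx) fun x hx => left_ne_zero_of_mul hx)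
      (hn.trans (by linarith)) (hl.mono (by linarith)) (hl.mono (by linarith)) hτ10
  have pu : ∀ i, ∀ᶠ N in atTop, _ := fun i => part_ev A1 (hu0 i) (hTf _ (hu0 i)) (hpart i (u0 i) fun x hx => Or.inl hx) hτ10
  have pv : ∀ i, ∀ᶠ N in atTop, _ := fun i => part_ev A2 (hc i).hv (hTf _ (hc i).hv) (hpart i (v0 i) fun x hx => Or.inr (Or.inl hx)) hτ10
  have pw : ∀ i, ∀ᶠ N in atTop, _ := fun i => part_ev A3 (hc i).hw (hTf _ (hc i).hw) (hpart i (w0 i) fun x hx => Or.inr (Or.inr hx)) hτ10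
  have pu' : ∀ i, ∀ᶠ N in atTop, _ := fun i => part_ev At1 (hu0 i) (hTf _ (hu0 i)) (hpart i (u0 i) fun x hx => Or.inl hx) hτ10
  have pv' : ∀ i, ∀ᶠ N in atTop, _ := fun i => part_ev At2 (hc i).hv (hTf _ (hc i).hv) (hpart i (v0 i) fun x hx => Or.inr (Or.inl hx)) hτ10
  have pw' : ∀ i, ∀ᶠ N in atTop, _ := fun i => part_ev At3 (hc i).hw (hTf _ (hc i).hw) (hpart i (w0 i) fun x hx => Or.inr (Or.inr hx)) hτ10
  have hone0t : ∀ i, ∀ᶠ N in atTop, bt1 N (u0 i) ≤ bt1 N one + τ1 := fun i => by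
    have := At1.sum_le (ι := Unit) (v := fun _ => u0 i) T1 (fun _ => hu0 i) (fun x => by
      rw [Fintype.sum_unique]
      exact (single_le_sum (f := fun j => u0 j x) (fun j _ => T3 _ (hu0 j) x) (mem_univ i)).trans (hone0 x)) hτ10
    filter_upwards [this] with N hN
    rwa [Fintype.sum_unique] at hN
  have hτs : 0 < s0 / 4 := by positivity
  have f1 := fun_ev A1 T1 T2 T3 hf hu1 hone1 hosc1 hτs
  have f2 := fun_ev At1 T1 T2 T3 hf hu1 hone1 hosc1 hτs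
  have htrip : ∀ j, ∀ q ∈ Yn, ∀ᶠ N in atTop, κ ≤ gt12 N q.1 → κ ≤ gt13 N q.2 → κ ≤ gt23 N (q.2 - q.1) → ∀ Z Z' : ℝ, ρ ≤ Z → ρ ≤ Z' →
      HexObs.ROT.F3.Trip (2 * δ) τ Z Z' (g12 N q.1) (g13 N q.2) (g23 N (q.2 - q.1)) (gt12 N q.1) (gt13 N q.2)
        (gt23 N (q.2 - q.1)) (b1 N (u1 j)) (bt1 N (u1 j)) := by
    intro j q hq
    obtain ⟨v, w, hvw⟩ := hcmp1 j q hq
    obtain ⟨q1, q2, q3⟩ := hYn1 q hq
    exact trip_ev A1 At1 P12 P13 P23 hδ hk hκ0 hω.le (fun u hu v hv hS Y hY hL => e12 u hu v hv hS Y hY (hL.mono hηa))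
      (fun u hu v hv hS Y hY hL => e13 u hu v hv hS Y hY (hL.mono hηb)) (fun u hu v hv hS Y hY hL => e23 u hu v hv hS Y hY (hL.mono hηc))
      hη0 hηd hk1 (hu1 j) (hne1 j) hvw q1 q2 q3 hρ hτ0
  have bC : ∀ᶠ N in atTop, b1 N one ≤ C ∧ bt1 N one ≤ C := (B1 _ T1).and (C1 _ T1)
  have bCi : ∀ i, ∀ᶠ N in atTop, b1 N (u0 i) ≤ C ∧ b2 N (v0 i) ≤ C ∧ b3 N (w0 i) ≤ C ∧ bt1 N (u0 i) ≤ C ∧ bt2 N (v0 i) ≤ C ∧
      bt3 N (w0 i) ≤ C := fun i => by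
    filter_upwards [B1 _ (hu0 i), B2 _ (hc i).hv, B3 _ (hc i).hw, C1 _ (hu0 i), C2 _ (hc i).hv, C3 _ (hc i).hw] with N h1 h2 h3 h4 h5 h6
    exact ⟨h1, h2, h3, h4, h5, h6⟩
  have all12 : ∀ᶠ N in atTop, ∀ i, ∀ s ∈ Pc y h T (u0 i), ∀ t ∈ Pc y h T (v0 i), _ :=
    eventually_all.2 fun i => (eventually_all_finset _).2 fun s hs => (eventually_all_finset _).2 fun t ht => ev12 i s hs t ht
  have all13 : ∀ᶠ N in atTop, ∀ i, ∀ s ∈ Pc y h T (u0 i), ∀ t ∈ Pc y h T (w0 i), _ :=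
    eventually_all.2 fun i => (eventually_all_finset _).2 fun s hs => (eventually_all_finset _).2 fun t ht => ev13 i s hs t ht
  have all23 : ∀ᶠ N in atTop, ∀ i, ∀ s ∈ Pc y h T (v0 i), ∀ t ∈ Pc y h T (w0 i), _ :=
    eventually_all.2 fun i => (eventually_all_finset _).2 fun s hs => (eventually_all_finset _).2 fun t ht => ev23 i s hs t ht
  have alltrip : ∀ᶠ N in atTop, ∀ j, ∀ q ∈ Yn, _ := eventually_all.2 fun j => (eventually_all_finset _).2 fun q hq => htrip j q hq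
  filter_upwards [eventually_all.2 evA, all12, all13, all23, eventually_all.2 pu, eventually_all.2 pv, eventually_all.2 pw,
    eventually_all.2 pu', eventually_all.2 pv', eventually_all.2 pw', eventually_all.2 hone0t, f1, f2, alltrip, bC,
    eventually_all.2 bCi, hcov0, hcov1, P12.rng, P13.rng, P23.rng, eventually_all.2 fun i => (hc i).m] with N qA q12 q13 q23 qu qv qw qu' qv' qw'
      qo qf qf' qt qC qCi qc0 qc1 r12 r13 r23 qm hN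
  have hn00 : (0 : ℝ) < (n0 : ℝ) + 1 := by positivity
  -- the coarse cell
  obtain ⟨i, hi⟩ : ∃ i, εr / (2 * ((n0 : ℝ) + 1)) ≤ b1 N (u0 i) := by
    by_contra hcon
    push Not at hcon
    have h1 : ∑ i, b1 N (u0 i) ≤ ∑ _i : Fin n0, εr / (2 * ((n0 : ℝ) + 1)) := sum_le_sum fun i _ => (hcon i).le
    rw [sum_const, card_univ, Fintype.card_fin, nsmul_eq_mul] at h1
    have h2 : (n0 : ℝ) * (εr / (2 * ((n0 : ℝ) + 1))) < εr / 2 := by
      rw [← mul_div_assoc, div_lt_div_iff₀ (by positivity) (by norm_num)]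
      linarith
    linarith [qc0.1]
  have hi2 : 2 * m ≤ b1 N (u0 i) := by
    have e : εr / (2 * ((n0 : ℝ) + 1)) = 2 * (εr / (4 * ((n0 : ℝ) + 1))) := by
      field_simp
      norm_num
    rw [e] at hi
    linarith
  obtain ⟨mv, mw, mv', mw'⟩ := qm i
  obtain ⟨cu, cv, cw, cu', cv', cw'⟩ := qCi i
  obtain ⟨bu1, bu2⟩ := qu i
  obtain ⟨bv1, bv2⟩ := qv i
  obtain ⟨bw1, bw2⟩ := qw i
  have bu2' := (qu' i).2
  have bv2' := (qv' i).2
  have bw2' := (qw' i).2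
  have hPP : ‖P - P‖ ≤ c0 := by simp [hc0.le]
  -- the mass on the rotated side
  have hM1 : ρ ≤ bt1 N one := by
    obtain ⟨a1, a2⟩ := qA i
    have g0 := r12 P hPP
    have x0 : 0 ≤ bt1 N (u0 i) := At1.nn N _ (hu0 i)
    have z0 : 0 ≤ bt2 N (v0 i) := At2.nn N _ (hc i).hv
    have h1 : m * m ≤ b1 N (u0 i) * b2 N (v0 i) := mul_le_mul (by linarith) (by linarith) hm0.le (by linarith)
    have h2 : (gt12 N P + 1) * (bt1 N (u0 i) * bt2 N (v0 i)) ≤ D * ((bt1 N one + τ1) * D) := by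
      refine mul_le_mul (by rw [hD]; linarith [g0.2.2.2]) (mul_le_mul (qo i) (by rw [hD]; linarith) z0 (by linarith [qo i]))
        (mul_nonneg x0 z0) hD0.le
    have h3 := mul_le_mul_of_nonneg_left h1 hK.le
    have h4 : K * m ^ 2 ≤ D ^ 2 * bt1 N one + (D ^ 2 + 2) * τ1 := by
      calc K * m ^ 2 = K * (m * m) := by ring
        _ ≤ D * ((bt1 N one + τ1) * D) + 2 * τ1 := by linarith
        _ = D ^ 2 * bt1 N one + (D ^ 2 + 2) * τ1 := by ring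
    rw [hρd]
    refine (min_le_right _ _).trans ?_
    rw [div_le_iff₀ (by positivity)]
    have h5 : 0 < K * m ^ 2 := by positivity
    linarith
  -- the selection
  have hcard : ∀ p : X → ℝ, (Pc y h T p).card ≤ nT := fun p => by
    rw [hnT]
    exact card_le_card fun s hs => (mem_Pc.1 hs).1
  have nn : ∀ {b : ℕ → (X → ℝ) → ℝ}, APL Tf b → ∀ p ∈ Tf, ∀ s ∈ Pc y h T p, 0 ≤ b N (pc y h p s) := fun A p hp s hs =>
    A.nn N _ (hTf p hp s (mem_Pc.1 hs).1)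
  have hsel : 3 * D * (κ2 * (D * D) + 2 * τ1 * (nT * nT)) < K * m ^ 3 := by
    have e : 3 * D * (κ2 * (D * D)) = K * m ^ 3 / 4 := by
      rw [hκ2]
      field_simp
      norm_num
    have h1 : 0 < K * m ^ 3 := by positivity
    calc 3 * D * (κ2 * (D * D) + 2 * τ1 * (nT * nT)) = 3 * D * (κ2 * (D * D)) + 6 * D * τ1 * (nT * nT) := by ring
      _ ≤ K * m ^ 3 / 4 + K * m ^ 3 / 4 := by rw [e]; exact add_le_add le_rfl hτ1c
      _ < K * m ^ 3 := by linarith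
  obtain ⟨s, hs, t, ht, j, hj, k12, k13, k23⟩ := sel (Pc y h T (u0 i)) (Pc y h T (v0 i)) (Pc y h T (w0 i))
    (g12 := fun s t => gt12 N (s - t) + ω) (g13 := fun s t => gt13 N (s - t) + ω) (g23 := fun s t => gt23 N (s - t) + ω)
    (nn A1 _ (hu0 i)) (nn A2 _ (hc i).hv) (nn A3 _ (hc i).hw) (nn At1 _ (hu0 i)) (nn At2 _ (hc i).hv) (nn At3 _ (hc i).hw)
    hK hκ20.le hτ10.le hm0.le (hcard _) (hcard _) (hcard _) (fun s hs t ht => (q12 i s hs t ht).1)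
    (fun s hs t ht => (q12 i s hs t ht).2) (fun s hs t ht => (q13 i s hs t ht).1) (fun s hs t ht => (q13 i s hs t ht).2)
    (fun s hs t ht => (q23 i s hs t ht).1) (fun s hs t ht => (q23 i s hs t ht).2) (C := D) (m := m) (n := nT)
    (by rw [hD]; linarith) (by rw [hD]; linarith) (by rw [hD]; linarith) (by rw [hD]; linarith) (by rw [hD]; linarith)
    (by rw [hD]; linarith) (by linarith) (by linarith) (by linarith) hsel
  have n12 := pc_near hsupp (hc i).l12 hs ht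
  have n13 := pc_near hsupp (hc i).l13 hs hj
  have n23 := pc_near hsupp (hl23 i) ht hj
  have e23' : (s - j) - (s - t) = t - j := by ring
  have hq : (s - t, s - j) ∈ Yn := by
    rw [hYn, mem_filter]
    refine ⟨mem_image.2 ⟨(s, (t, j)), ?_, rfl⟩, ?_, ?_, ?_⟩
    · exact mem_product.2 ⟨(mem_Pc.1 hs).1, mem_product.2 ⟨(mem_Pc.1 ht).1, (mem_Pc.1 hj).1⟩⟩
    · exact n12.trans (by linarith)
    · exact n13.trans (by linarith)
    · show ‖(s - j) - (s - t) - (Q - P)‖ ≤ c0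
      rw [e23']
      exact n23.trans (by linarith)
  obtain ⟨q1, q2, q3⟩ := hYn1 _ hq
  have c12 : κ ≤ gt12 N (s - t) := by
    have : κ2 ≤ gt12 N (s - t) + ω := k12
    linarith
  have c13 : κ ≤ gt13 N (s - j) := by
    have : κ2 ≤ gt13 N (s - j) + ω := k13
    linarith
  have c23 : κ ≤ gt23 N ((s - j) - (s - t)) := by
    have : κ2 ≤ gt23 N (t - j) + ω := k23
    rw [e23']
    linarith
  obtain ⟨qf1, qf2, qf3⟩ := qf
  obtain ⟨qf1', qf2', qf3'⟩ := qf'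
  obtain ⟨qC1, qC2⟩ := qC
  have hm1' : min ε 1 ≤ 1 := min_le_right _ _
  have hm2' : min ε 1 ≤ ε := min_le_left _ _
  have hs03 : s0 ≤ ρ / 100 := by
    refine hs01.trans (div_le_div_of_nonneg_right ?_ (by norm_num))
    calc min ε 1 * ρ ≤ 1 * ρ := mul_le_mul_of_nonneg_right hm1' hρ.le
      _ = ρ := one_mul ρ
  have hε2s : ε2 ≤ s0 := by
    have : 0 ≤ ε2 * (C + 1) := by positivity
    linarith
  have hMρ : ρ ≤ b1 N one := by
    rw [hρd]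
    exact (min_le_left _ _).trans hN
  have hτ2 : τ ≤ 1 / 2 := by
    have h1 : Real.sqrt (7 * τ) ≤ 1 := by
      rw [hsq, div_le_one (by positivity)]
      have : (0 : ℝ) ≤ n1 := by positivity
      linarith
    have h2 := Real.sqrt_le_sqrt_iff (x := 7 * τ) (y := 1) zero_le_one |>.1 (by rw [Real.sqrt_one]; exact h1)
    linarith
  have hsum1 : ε2 * ∑ a, b1 N (u1 a) ≤ ε2 * (C + 1) := mul_le_mul_of_nonneg_left (by linarith) hε20.le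
  have hsum1' : ε2 * ∑ a, bt1 N (u1 a) ≤ ε2 * (C + 1) := mul_le_mul_of_nonneg_left (by linarith) hε20.le
  have key := last (n := n1) (x := fun a => b1 N (u1 a)) (x' := fun a => bt1 N (u1 a)) (F := fa1) (M0 := b1 N one) (M1 := bt1 N one)
    (mF := b1 N fun x => f x * one x) (nF := bt1 N fun x => f x * one x) (c := g12 N (s - t)) (d := g13 N (s - j))
    (e := g23 N ((s - j) - (s - t))) (c' := gt12 N (s - t)) (d' := gt13 N (s - j)) (e' := gt23 N ((s - j) - (s - t)))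
    (δ := δ) (τ := τ) (e0 := s0) (e1 := 2 * s0) (e2 := s0) hρ hMρ hM1 hδ hδ1 hτ0 (by linarith) hτ2 hs00.le hs00.le
    (by linarith) (hk.trans_le (r12 _ q1).1) (hk.trans_le (r13 _ q2).1) (hk.trans_le (r23 _ q3).1) (hκ0.trans_le c12)
    (hκ0.trans_le c13) (hκ0.trans_le c23) (fun a => A1.nn N _ (hu1 a)) (fun a => At1.nn N _ (hu1 a)) (by linarith) (by linarith)
    (by linarith [qc1.1]) (by linarith [qc1.2]) (fun a => qt a _ hq c12 c13 c23 _ _ (by linarith) (by linarith)) hfa1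
    (by linarith [qc1.1]) (by linarith [qc1.2]) (by linarith) (A1.nn N _ T2) (by linarith) (At1.nn N _ T2) (by linarith)
  refine key.trans ?_
  have h8 : (s0 + s0) / ρ ≤ min ε 1 / 50 := by
    rw [div_le_iff₀ hρ]
    linarith
  linarith

end main

end Pool.Agent.ROT.F3A
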