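import Pool.Agent.ROT.F3Near

/-!
# ROT / F3Bad (helper71): from one length to all lengths, closed words with two roots

* **`bad_sum`** : a function `f ≤ 1` whose mean over the polygons `pol n` is at most `e` for all lengths in
  `[a N ^ (4 / 3), B N ^ (4 / 3)]` has the mass at most `eps N ^ (2 / 3)` over the closed words with at most `B N ^ (4 / 3)`
  letters and a second root; `a`, `e` depend on `eps`, `B` only;
* **`bad_sumP`** : the same for a property; **`cls_bad`** : for the classes of closed words with two roots (`Uq`);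
* `mod_sum` : the modulus of continuity.
-/

set_option autoImplicit false

open Filter Topology Finset

open scoped Classical ENNReal

namespace Pool.Agent.ROT.F3

open Pool.Agent.NTS.Res (step pos saw fug)

open Pool.Agent.PMA.Res (pol)

open Pool.Agent.PMA (cyF mem_cyF)

lemma nr_fug_le : fug ≤ 1 := by
  have hf : fug = (Real.sqrt (2 + Real.sqrt 2))⁻¹ := rfl
  rw [hf]
  refine inv_le_one_of_one_le₀ (Real.one_le_sqrt.2 ?_)
  linarith [Real.sqrt_nonneg 2]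

lemma nr_fug_pos : 0 < fug := by
  rw [NTSF.fug_eq]
  exact HexObs.xc_pos

/-- the words of one length -/
lemma nr_lenf {n : ℕ} (ho : Odd n) (f : W3 → ℝ≥0∞) (c : ℝ≥0∞) :
    ∑' w : W3, (if w.length = n + 1 then (if Cl w then c * f w else 0) else 0) = c * ∑ s ∈ pol n, f (clw s) := by
  have h1 : ∀ w : W3, (if w.length = n + 1 then (if Cl w then c * f w else 0) else 0) =
      (Cln (n + 1)).indicator (fun w => c * f w) w := by
    intro w
    rw [Set.indicator_apply]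
    by_cases h : w.length = n + 1
    · rw [if_pos h]
      by_cases h2 : Cl w
      · rw [if_pos (show w ∈ Cln (n + 1) from ⟨h2, h⟩), if_pos h2]
      · rw [if_neg h2, if_neg fun h3 : w ∈ Cln (n + 1) => h2 h3.1]
    · rw [if_neg h, if_neg fun h3 : w ∈ Cln (n + 1) => h h3.2]
  simp_rw [h1]
  rw [← _root_.tsum_subtype, ← sum_pol' ho fun w => c * f w, mul_sum]

/-- the number of the polygons -/
lemma nr_pol_card {n : ℕ} (hn : 3 ≤ n) (ho : Odd n) : (pol n).card = 3 * (cyF (n + 1)).card := by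
  have h := pol_count hn ho (fun _ => True) (fun _ => Iff.rfl)
  simpa using h

/-- the short words -/
lemma nr_short (f : W3 → ℝ≥0∞) (hf : ∀ w, f w ≤ 1) (m : ℕ) :
    ∑' w : W3, (if w.length = m then (if Cl w then wx w * ((w.length + 1 : ℕ) : ℝ≥0∞) * f w else 0) else 0) ≤
      ENNReal.ofReal (3 ^ m * (m + 1)) := by
  have h1 : ∀ w : W3, (if w.length = m then (if Cl w then wx w * ((w.length + 1 : ℕ) : ℝ≥0∞) * f w else 0) else 0) ≤
      (if w.length = m then ((m + 1 : ℕ) : ℝ≥0∞) else 0) := by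
    intro w
    by_cases h : w.length = m
    · rw [if_pos h, if_pos h]
      split_ifs
      · rw [h]
        have h2 : wx w ≤ 1 := by
          unfold wx
          exact pow_le_one₀ bot_le (ENNReal.ofReal_le_one.2 nr_fug_le)
        calc wx w * ((m + 1 : ℕ) : ℝ≥0∞) * f w ≤ 1 * ((m + 1 : ℕ) : ℝ≥0∞) * 1 :=
              mul_le_mul' (mul_le_mul' h2 le_rfl) (hf w)
          _ = _ := by rw [one_mul, mul_one]
      · exact bot_le
    · rw [if_neg h, if_neg h]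
  refine (ENNReal.tsum_le_tsum h1).trans ?_
  have h2 : ∀ w : W3, (if w.length = m then ((m + 1 : ℕ) : ℝ≥0∞) else 0) =
      ({w : W3 | w.length = m}).indicator (fun _ => ((m + 1 : ℕ) : ℝ≥0∞)) w := fun w => by
    rw [Set.indicator_apply]
    rfl
  simp_rw [h2]
  rw [← _root_.tsum_subtype]
  have h3 : ∑' _ : {w : W3 | w.length = m}, ((m + 1 : ℕ) : ℝ≥0∞) = ∑' _ : Fin m → Fin 3, ((m + 1 : ℕ) : ℝ≥0∞) :=
    (Equiv.tsum_eq (Equiv.ofBijective (fun s : Fin m → Fin 3 => (⟨List.ofFn s, List.length_ofFn⟩ : {w : W3 | w.length = m}))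
      ⟨fun s t h => List.ofFn_injective (Subtype.ext_iff.1 h), fun w => by
        obtain ⟨s, hs⟩ := exists_ofFn w.2
        exact ⟨s, Subtype.ext hs⟩⟩) fun _ => ((m + 1 : ℕ) : ℝ≥0∞)).symm
  rw [h3, tsum_fintype, sum_const, card_univ, Fintype.card_fun, Fintype.card_fin, Fintype.card_fin, nsmul_eq_mul,
    ENNReal.ofReal_mul (by positivity)]
  refine mul_le_mul' (le_of_eq ?_) (le_of_eq ?_)
  · rw [← ENNReal.ofReal_natCast]
    push_cast
    rfl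
  · rw [← ENNReal.ofReal_natCast]
    push_cast
    rfl

/-- **from one length to all lengths** -/
theorem bad_sum (ε B : ℝ) (hε : 0 < ε) (hB : 0 < B) : ∃ a : ℝ, 0 < a ∧ ∃ e : ℝ, 0 < e ∧ ∃ N0 : ℕ, ∀ N : ℕ, N0 ≤ N →
    ∀ f : W3 → ℝ≥0∞, (∀ w, f w ≤ 1) →
      (∀ n : ℕ, Odd n → 3 ≤ n → a * (N : ℝ) ^ (4 / 3 : ℝ) ≤ n → ((n : ℝ) + 1) ≤ B * (N : ℝ) ^ (4 / 3 : ℝ) →
        ∑ s ∈ pol n, f (clw s) ≤ ENNReal.ofReal e * ((pol n).card : ℝ≥0∞)) →
      ∑' w : W3, (if Cl w ∧ (w.length : ℝ) ≤ B * (N : ℝ) ^ (4 / 3 : ℝ) then wx w * ((w.length + 1 : ℕ) : ℝ≥0∞) * f w else 0) ≤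
        ENNReal.ofReal (ε * (N : ℝ) ^ (2 / 3 : ℝ)) := by
  obtain ⟨C1, hC1, hP⟩ := cyF_le
  obtain ⟨a, ha⟩ : ∃ a : ℝ, a = (ε / (48 * C1)) ^ 2 := ⟨_, rfl⟩
  have ha0 : 0 < a := by
    rw [ha]
    positivity
  have ha1 : a ^ (1 / 2 : ℝ) = ε / (48 * C1) := by
    rw [ha, ← Real.sqrt_eq_rpow, Real.sqrt_sq (by positivity)]
  obtain ⟨e, he⟩ : ∃ e : ℝ, e = ε / (48 * C1 * B ^ (1 / 2 : ℝ)) := ⟨_, rfl⟩
  have he0 : 0 < e := by
    rw [he]
    positivity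
  obtain ⟨N1, hN1⟩ := exists_nat_ge (2 / a)
  obtain ⟨N2, hN2⟩ := ((tendsto_rpow_atTop (by norm_num : (0 : ℝ) < 2 / 3)).comp
    tendsto_natCast_atTop_atTop).eventually_ge_atTop (320 / ε) |>.exists_forall_of_atTop
  refine ⟨a / 2, by positivity, e, he0, max 1 (max N1 N2), fun N hNN f hf hfm => ?_⟩
  have b1 : 1 ≤ N := (le_max_left _ _).trans hNN
  have b2 : N1 ≤ N := (le_max_left _ _).trans ((le_max_right _ _).trans hNN)
  have b3 : N2 ≤ N := (le_max_right _ _).trans ((le_max_right _ _).trans hNN)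
  have hN0 : (0 : ℝ) < N := by exact_mod_cast b1
  have hN1' : (1 : ℝ) ≤ N := by exact_mod_cast b1
  obtain ⟨X, hX⟩ : ∃ X : ℝ, X = (N : ℝ) ^ (4 / 3 : ℝ) := ⟨_, rfl⟩
  have hX0 : 0 < X := by
    rw [hX]
    positivity
  have hNX : (N : ℝ) ≤ X := by
    rw [hX]
    calc (N : ℝ) = (N : ℝ) ^ (1 : ℝ) := (Real.rpow_one _).symm
      _ ≤ _ := Real.rpow_le_rpow_of_exponent_le hN1' (by norm_num)
  have hX12 : X ^ (1 / 2 : ℝ) = (N : ℝ) ^ (2 / 3 : ℝ) := by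
    rw [hX, ← Real.rpow_mul hN0.le]
    norm_num
  have haX : 2 ≤ a * X := by
    have h1 : 2 / a ≤ X := hN1.trans ((by exact_mod_cast b2 : (N1 : ℝ) ≤ N).trans hNX)
    rwa [div_le_iff₀' ha0] at h1
  have h23 : 320 ≤ ε * (N : ℝ) ^ (2 / 3 : ℝ) := by
    have h1 : 320 / ε ≤ (N : ℝ) ^ (2 / 3 : ℝ) := hN2 N b3
    rwa [div_le_iff₀' hε] at h1
  rw [nr_tsum]
  rw [← hX] at hfm ⊢
  -- one length
  have term : ∀ m : ℕ, ∑' w : W3, (if w.length = m then (if Cl w ∧ (w.length : ℝ) ≤ B * X then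
      wx w * ((w.length + 1 : ℕ) : ℝ≥0∞) * f w else 0) else 0) ≤
      (if m ∈ range 4 then ENNReal.ofReal (3 ^ m * (m + 1)) else 0) +
      ((if 1 ≤ m ∧ (m : ℝ) ≤ a * X then ENNReal.ofReal (6 * C1 * (m : ℝ) ^ (-(1 / 2) : ℝ)) else 0) +
      (if 1 ≤ m ∧ (m : ℝ) ≤ B * X then ENNReal.ofReal (6 * C1 * e * (m : ℝ) ^ (-(1 / 2) : ℝ)) else 0)) := by
    intro m
    by_cases hm : (m : ℝ) ≤ B * X
    swap
    · refine (le_of_eq (ENNReal.tsum_eq_zero.2 fun w => ?_)).trans (show (0 : ℝ≥0∞) ≤ _ from bot_le)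
      by_cases h1 : w.length = m
      · rw [if_pos h1, if_neg fun h => hm (h1 ▸ h.2)]
      · rw [if_neg h1]
    have e0 : ∑' w : W3, (if w.length = m then (if Cl w ∧ (w.length : ℝ) ≤ B * X then
        wx w * ((w.length + 1 : ℕ) : ℝ≥0∞) * f w else 0) else 0) =
        ∑' w : W3, (if w.length = m then (if Cl w then wx w * ((w.length + 1 : ℕ) : ℝ≥0∞) * f w else 0) else 0) := by
      refine tsum_congr fun w => ?_
      by_cases h1 : w.length = m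
      · rw [if_pos h1, if_pos h1]
        by_cases h2 : Cl w
        · rw [if_pos h2, if_pos ⟨h2, h1 ▸ hm⟩]
        · rw [if_neg h2, if_neg fun h => h2 h.1]
      · rw [if_neg h1, if_neg h1]
    rw [e0]
    by_cases hm4 : 4 ≤ m
    swap
    · refine le_trans (nr_short f hf m) ?_
      rw [if_pos (mem_range.2 (by omega))]
      exact le_self_add
    refine le_trans ?_ le_add_self
    by_cases hme : Even m
    swap
    · refine (le_of_eq (ENNReal.tsum_eq_zero.2 fun w => ?_)).trans (show (0 : ℝ≥0∞) ≤ _ from bot_le)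
      by_cases h1 : w.length = m
      · rw [if_pos h1, if_neg fun h => hme (h1 ▸ h.1)]
      · rw [if_neg h1]
    obtain ⟨n, rfl⟩ : ∃ n : ℕ, m = n + 1 := ⟨m - 1, by omega⟩
    have hn3 : 3 ≤ n := by omega
    have ho : Odd n := by
      rcases Nat.even_or_odd n with h | h
      · exact absurd hme (Nat.not_even_iff_odd.2 h.add_one)
      · exact h
    have hm0 : (0 : ℝ) < ((n + 1 : ℕ) : ℝ) := by positivity
    have e1 : ∑' w : W3, (if w.length = n + 1 then (if Cl w then wx w * ((w.length + 1 : ℕ) : ℝ≥0∞) * f w else 0) else 0) =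
        ∑' w : W3, (if w.length = n + 1 then (if Cl w then
          ENNReal.ofReal (fug ^ (n + 1) * ((n + 1 : ℕ) + 1)) * f w else 0) else 0) := by
      refine tsum_congr fun w => ?_
      by_cases h1 : w.length = n + 1
      · rw [if_pos h1, if_pos h1]
        by_cases h2 : Cl w
        · rw [if_pos h2, if_pos h2, ENNReal.ofReal_mul (pow_pos nr_fug_pos _).le]
          unfold wx
          rw [h1, ENNReal.ofReal_pow nr_fug_pos.le]
          congr 2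
          rw [show (((n + 1 : ℕ) : ℝ) + 1) = ((n + 1 + 1 : ℕ) : ℝ) by push_cast; ring, ENNReal.ofReal_natCast]
        · rw [if_neg h2, if_neg h2]
      · rw [if_neg h1, if_neg h1]
    rw [e1, nr_lenf ho]
    -- from a part of the words to the power
    have fin : ∀ e : ℝ, 0 ≤ e → ∑ s ∈ pol n, f (clw s) ≤ ENNReal.ofReal e * ((pol n).card : ℝ≥0∞) →
        ENNReal.ofReal (fug ^ (n + 1) * ((n + 1 : ℕ) + 1)) * ∑ s ∈ pol n, f (clw s) ≤
          ENNReal.ofReal (6 * C1 * e * ((n + 1 : ℕ) : ℝ) ^ (-(1 / 2) : ℝ)) := by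
      intro e he h
      refine (mul_le_mul' le_rfl h).trans ?_
      rw [← ENNReal.ofReal_natCast, ← ENNReal.ofReal_mul he, ← ENNReal.ofReal_mul (by have := nr_fug_pos; positivity)]
      refine ENNReal.ofReal_le_ofReal ?_
      have h1 := hP (n + 1) (by omega)
      have h2 : ((n + 1 : ℕ) : ℝ) ^ (-(1 / 2) : ℝ) = ((n + 1 : ℕ) : ℝ) ^ (-(3 / 2) : ℝ) * ((n + 1 : ℕ) : ℝ) := by
        rw [← Real.rpow_add_one hm0.ne']
        norm_num
      rw [h2, nr_pol_card hn3 ho]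
      have hm1 : (1 : ℝ) ≤ ((n + 1 : ℕ) : ℝ) := by
        push_cast
        have : (0 : ℝ) ≤ n := Nat.cast_nonneg n
        linarith
      have hpw : (0 : ℝ) < fug ^ (n + 1) := pow_pos nr_fug_pos _
      obtain ⟨M, hM⟩ : ∃ M : ℝ, M = ((n + 1 : ℕ) : ℝ) := ⟨_, rfl⟩
      obtain ⟨c, hc⟩ : ∃ c : ℝ, c = ((cyF (n + 1)).card : ℝ) := ⟨_, rfl⟩
      have hc0 : 0 ≤ c := by
        rw [hc]
        positivity
      rw [← hM, ← hc] at h1
      rw [← hM] at hm1 ⊢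
      push_cast
      rw [← hc]
      calc fug ^ (n + 1) * (M + 1) * (e * (3 * c)) ≤ fug ^ (n + 1) * (M + M) * (e * (3 * c)) :=
            mul_le_mul_of_nonneg_right (mul_le_mul_of_nonneg_left (by linarith) hpw.le) (by positivity)
        _ = 6 * e * M * (c * fug ^ (n + 1)) := by ring
        _ ≤ 6 * e * M * (C1 * M ^ (-(3 / 2) : ℝ)) := mul_le_mul_of_nonneg_left h1 (by positivity)
        _ = _ := by ring
    by_cases hlo : ((n + 1 : ℕ) : ℝ) ≤ a * X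
    · refine le_trans ?_ le_self_add
      rw [if_pos ⟨by omega, hlo⟩]
      refine (fin 1 zero_le_one ?_).trans (by rw [mul_one])
      rw [ENNReal.ofReal_one, one_mul]
      refine (sum_le_sum fun s _ => hf (clw s)).trans ?_
      rw [sum_const, nsmul_eq_mul, mul_one]
    · refine le_trans ?_ le_add_self
      rw [if_pos ⟨by omega, hm⟩]
      rw [not_le] at hlo
      push_cast at hlo hm
      exact fin e he0.le (hfm n ho hn3 (by linarith) hm)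
  refine (ENNReal.tsum_le_tsum term).trans ?_
  rw [ENNReal.tsum_add, ENNReal.tsum_add]
  refine (add_le_add (le_of_eq (tsum_eq_sum (s := range 4) fun m hm => if_neg hm))
    (add_le_add (nr_halft (by positivity) (by positivity)) (nr_halft (by positivity) (by positivity)))).trans ?_
  have e4 : ∑ m ∈ range 4, (if m ∈ range 4 then ENNReal.ofReal (3 ^ m * (m + 1)) else 0) = ENNReal.ofReal 142 := by
    rw [sum_congr rfl fun m hm => if_pos hm, ← ENNReal.ofReal_sum_of_nonneg fun m _ => by positivity]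
    congr 1
    norm_num [sum_range_succ]
  rw [e4, ← ENNReal.ofReal_add (by positivity) (by positivity), ← ENNReal.ofReal_add (by positivity) (by positivity)]
  refine ENNReal.ofReal_le_ofReal ?_
  rw [Real.mul_rpow ha0.le hX0.le, Real.mul_rpow hB.le hX0.le, hX12, ha1, he]
  have h5 : (0 : ℝ) < B ^ (1 / 2 : ℝ) := by positivity
  have h6 : 2 * (6 * C1) * (ε / (48 * C1) * (N : ℝ) ^ (2 / 3 : ℝ)) = ε / 4 * (N : ℝ) ^ (2 / 3 : ℝ) := by
    field_simp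
    norm_num
  have h7 : 2 * (6 * C1 * (ε / (48 * C1 * B ^ (1 / 2 : ℝ)))) * (B ^ (1 / 2 : ℝ) * (N : ℝ) ^ (2 / 3 : ℝ)) =
      ε / 4 * (N : ℝ) ^ (2 / 3 : ℝ) := by
    field_simp
    norm_num
  rw [h6, h7]
  linarith

/-- **the same for a property** -/
theorem bad_sumP (ε B : ℝ) (hε : 0 < ε) (hB : 0 < B) : ∃ a : ℝ, 0 < a ∧ ∃ e : ℝ, 0 < e ∧ ∃ N0 : ℕ, ∀ N : ℕ, N0 ≤ N →
    ∀ P : W3 → Prop, (∀ n : ℕ, Odd n → 3 ≤ n → a * (N : ℝ) ^ (4 / 3 : ℝ) ≤ n → ((n : ℝ) + 1) ≤ B * (N : ℝ) ^ (4 / 3 : ℝ) →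
        (((pol n).filter fun s => P (clw s)).card : ℝ) ≤ e * ((pol n).card : ℝ)) →
      ∑' w : W3, (if Cl w ∧ (w.length : ℝ) ≤ B * (N : ℝ) ^ (4 / 3 : ℝ) ∧ P w then wx w * ((w.length + 1 : ℕ) : ℝ≥0∞) else 0) ≤
        ENNReal.ofReal (ε * (N : ℝ) ^ (2 / 3 : ℝ)) := by
  obtain ⟨a, ha, e, he, N0, h⟩ := bad_sum ε B hε hB
  refine ⟨a, ha, e, he, N0, fun N hN P hP => ?_⟩
  have h1 := h N hN (fun w => if P w then 1 else 0) (fun w => by split_ifs <;> simp) fun n ho hn h3 h4 => by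
    have h5 := hP n ho hn h3 h4
    have h6 : ∑ s ∈ pol n, (if P (clw s) then (1 : ℝ≥0∞) else 0) = (((pol n).filter fun s => P (clw s)).card : ℝ≥0∞) := by
      rw [← sum_filter, sum_const, nsmul_eq_mul, mul_one]
    rw [h6, ← ENNReal.ofReal_natCast, ← ENNReal.ofReal_natCast, ← ENNReal.ofReal_mul he.le]
    exact ENNReal.ofReal_le_ofReal h5
  refine le_trans (le_of_eq (tsum_congr fun w => ?_)) h1
  by_cases h2 : Cl w ∧ (w.length : ℝ) ≤ B * (N : ℝ) ^ (4 / 3 : ℝ)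
  · by_cases h3 : P w
    · rw [if_pos ⟨h2.1, h2.2, h3⟩, if_pos h2, if_pos h3, mul_one]
    · rw [if_neg fun h => h3 h.2.2, if_pos h2, if_neg h3, mul_zero]
  · rw [if_neg fun h => h2 ⟨h.1, h.2.1⟩, if_neg h2]

/-- **bad events of the classes of closed words with two roots** -/
theorem cls_bad (ε B : ℝ) (hε : 0 < ε) (hB : 0 < B) : ∃ a : ℝ, 0 < a ∧ ∃ e : ℝ, 0 < e ∧ ∃ N0 : ℕ, ∀ N : ℕ, N0 ≤ N →
    ∀ P : W3 → Prop, (∀ n : ℕ, Odd n → 3 ≤ n → a * (N : ℝ) ^ (4 / 3 : ℝ) ≤ n → ((n : ℝ) + 1) ≤ B * (N : ℝ) ^ (4 / 3 : ℝ) →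
        (((pol n).filter fun s => P (clw s)).card : ℝ) ≤ e * ((pol n).card : ℝ)) →
    ∀ (C C' : Set (W3 × W3)) (RA RB : Set W3), Uq C C' RA RB →
    ∑' (a : W3 × W3) (R : W3) (b : W3 × W3) (S : W3), (if a ∈ C ∧ R ∈ RA ∧ b ∈ C' ∧ S ∈ RB ∧ Cl (G6 a R b S) ∧
      ((G6 a R b S).length : ℝ) ≤ B * (N : ℝ) ^ (4 / 3 : ℝ) ∧ P (G6 a R b S) then wx (G6 a R b S) else 0) ≤
        ENNReal.ofReal (ε * (N : ℝ) ^ (2 / 3 : ℝ)) := by
  obtain ⟨a, ha, e, he, N0, h⟩ := bad_sumP ε B hε hB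
  refine ⟨a, ha, e, he, N0, fun N hN P hP C C' RA RB hU => ?_⟩
  refine le_trans ?_ (h N hN P hP)
  refine le_trans (le_of_eq (tsum_congr fun a => tsum_congr fun R => tsum_congr fun b => tsum_congr fun S => ?_))
    ((cls_le hU fun w => (w.length : ℝ) ≤ B * (N : ℝ) ^ (4 / 3 : ℝ) ∧ P w).trans (le_of_eq (tsum_congr fun w => ?_)))
  · by_cases h1 : a ∈ C ∧ R ∈ RA ∧ b ∈ C' ∧ S ∈ RB ∧ Cl (G6 a R b S) ∧
      ((G6 a R b S).length : ℝ) ≤ B * (N : ℝ) ^ (4 / 3 : ℝ) ∧ P (G6 a R b S)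
    · rw [if_pos h1, if_pos h1]
    · rw [if_neg h1, if_neg h1]
  · by_cases h1 : Cl w ∧ (w.length : ℝ) ≤ B * (N : ℝ) ^ (4 / 3 : ℝ) ∧ P w
    · rw [if_pos h1, if_pos h1]
    · rw [if_neg h1, if_neg h1]

/-! ### events seen from the second root -/

/-- **a class with a functional of the closed word and of the place of the second root** -/
theorem cls_le2 {C C' : Set (W3 × W3)} {RA RB : Set W3} (hU : Uq C C' RA RB) (f : W3 → ℕ → ℝ≥0∞) :
    ∑' (a : W3 × W3) (R : W3) (b : W3 × W3) (S : W3), (if a ∈ C ∧ R ∈ RA ∧ b ∈ C' ∧ S ∈ RB ∧ Cl (G6 a R b S) then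
      wx (G6 a R b S) * f (G6 a R b S) (a.1 ++ (R ++ b.1.reverse)).length else 0) ≤
    ∑' w : W3, (if Cl w then wx w * ∑ m ∈ range (w.length + 1), f w m else 0) := by
  rw [nr_quad]
  obtain ⟨K, hK⟩ : ∃ K : Set ((W3 × W3) × (W3 × ((W3 × W3) × W3))), K = {x | x.1 ∈ C ∧ x.2.1 ∈ RA ∧ x.2.2.1 ∈ C' ∧
    x.2.2.2 ∈ RB ∧ Cl (G6 x.1 x.2.1 x.2.2.1 x.2.2.2)} := ⟨_, rfl⟩
  obtain ⟨Φ, hΦ⟩ : ∃ Φ : (W3 × W3) × (W3 × ((W3 × W3) × W3)) → W3 × ℕ, Φ = fun x =>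
    (G6 x.1 x.2.1 x.2.2.1 x.2.2.2, (x.1.1 ++ (x.2.1 ++ x.2.2.1.1.reverse)).length) := ⟨_, rfl⟩
  obtain ⟨g, hg⟩ : ∃ g : W3 × ℕ → ℝ≥0∞, g = fun y => if y.2 ∈ range (y.1.length + 1) then
    (if Cl y.1 then wx y.1 * f y.1 y.2 else 0) else 0 := ⟨_, rfl⟩
  have hinj : Function.Injective fun x : K => Φ x := by
    rintro ⟨x, hx⟩ ⟨y, hy⟩ h
    rw [hK] at hx hy
    rw [hΦ] at h
    obtain ⟨h1, h2⟩ := Prod.ext_iff.1 h
    obtain ⟨k1, k2, k3, k4⟩ := hU x.1 hx.1 y.1 hy.1 x.2.1 hx.2.1 y.2.1 hy.2.1 x.2.2.1 hx.2.2.1 y.2.2.1 hy.2.2.1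
      x.2.2.2 hx.2.2.2.1 y.2.2.2 hy.2.2.2.1 h2 h1
    exact Subtype.ext (Prod.ext k1 (Prod.ext k2 (Prod.ext k3 k4)))
  have e1 : ∑' x : (W3 × W3) × (W3 × ((W3 × W3) × W3)), (if x.1 ∈ C ∧ x.2.1 ∈ RA ∧ x.2.2.1 ∈ C' ∧ x.2.2.2 ∈ RB ∧
      Cl (G6 x.1 x.2.1 x.2.2.1 x.2.2.2) then wx (G6 x.1 x.2.1 x.2.2.1 x.2.2.2) *
        f (G6 x.1 x.2.1 x.2.2.1 x.2.2.2) (x.1.1 ++ (x.2.1 ++ x.2.2.1.1.reverse)).length else 0) =
      ∑' x : K, g (Φ x) := by
    rw [_root_.tsum_subtype K fun x => g (Φ x)]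
    refine tsum_congr fun x => ?_
    rw [Set.indicator_apply]
    by_cases hx : x ∈ K
    · rw [if_pos hx]
      have hx' : x.1 ∈ C ∧ x.2.1 ∈ RA ∧ x.2.2.1 ∈ C' ∧ x.2.2.2 ∈ RB ∧ Cl (G6 x.1 x.2.1 x.2.2.1 x.2.2.2) := by
        rw [hK] at hx
        exact hx
      rw [if_pos hx', hg, hΦ]
      simp only
      rw [if_pos, if_pos hx'.2.2.2.2]
      rw [mem_range]
      unfold G6
      simp only [List.length_append, List.length_reverse]
      omega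
    · rw [if_neg hx, if_neg fun h => hx (by rw [hK]; exact h)]
  have e2 : ∑' w : W3, (if Cl w then wx w * ∑ m ∈ range (w.length + 1), f w m else 0) = ∑' y : W3 × ℕ, g y := by
    rw [ENNReal.tsum_prod']
    refine tsum_congr fun w => ?_
    rw [hg]
    simp only
    rw [tsum_eq_sum (s := range (w.length + 1)) fun k hk => if_neg hk]
    rw [sum_congr rfl fun k hk => if_pos hk]
    split_ifs
    · rw [mul_sum]
    · rw [sum_const_zero]
  rw [e1, e2]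
  exact ENNReal.tsum_comp_le_tsum_of_injective hinj g

/-- the sum over the words as a sum over the lengths and the closed words of this length -/
lemma nr_tsum_Cl (f : W3 → ℝ≥0∞) : ∑' w : W3, (if Cl w then f w else 0) = ∑' (m : ℕ) (w : Cln m), f w := by
  rw [nr_tsum]
  refine tsum_congr fun m => ?_
  rw [_root_.tsum_subtype (Cln m) f]
  refine tsum_congr fun w => ?_
  rw [Set.indicator_apply]
  by_cases h : w.length = m
  · rw [if_pos h]
    by_cases h2 : Cl w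
    · rw [if_pos h2, if_pos (show w ∈ Cln m from ⟨h2, h⟩)]
    · rw [if_neg h2, if_neg fun h3 : w ∈ Cln m => h2 h3.1]
  · rw [if_neg h, if_neg fun h3 : w ∈ Cln m => h h3.2]

/-- **events seen from the second root have the mass of the events seen from the first root** -/
theorem rot_sum (c : ℕ → ℝ≥0∞) (g : W3 → ℝ≥0∞) :
    ∑' w : W3, (if Cl w then wx w * ∑ m ∈ range (w.length + 1), (if Even m then c w.length * g (w.rotate m) else 0) else 0) ≤
      ∑' w : W3, (if Cl w then wx w * (((w.length + 1 : ℕ) : ℝ≥0∞) * (c w.length * g w)) else 0) := by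
  rw [nr_tsum_Cl, nr_tsum_Cl]
  refine ENNReal.tsum_le_tsum fun L => ?_
  have hw : ∀ w : Cln L, wx (w : W3) = ENNReal.ofReal fug ^ L := fun w => by
    unfold wx
    rw [w.2.2]
  have h1 : ∀ w : Cln L, wx (w : W3) * ∑ m ∈ range ((w : W3).length + 1), (if Even m then c (w : W3).length *
      g ((w : W3).rotate m) else 0) = ∑ m ∈ range (L + 1), ENNReal.ofReal fug ^ L * (if Even m then c L *
      g ((w : W3).rotate m) else 0) := fun w => by
    rw [hw, w.2.2, mul_sum]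
  have h2 : ∀ w : Cln L, wx (w : W3) * ((((w : W3).length + 1 : ℕ) : ℝ≥0∞) * (c (w : W3).length * g w)) =
      ENNReal.ofReal fug ^ L * (((L + 1 : ℕ) : ℝ≥0∞) * (c L * g w)) := fun w => by rw [hw, w.2.2]
  simp_rw [h1, h2]
  rw [Summable.tsum_finsetSum fun m _ => ENNReal.summable]
  have h3 : ∀ m ∈ range (L + 1), ∑' w : Cln L, ENNReal.ofReal fug ^ L * (if Even m then c L * g ((w : W3).rotate m) else 0) ≤
      ∑' w : Cln L, ENNReal.ofReal fug ^ L * (c L * g w) := by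
    intro m _
    by_cases hm : Even m
    · simp_rw [if_pos hm]
      exact le_of_eq (tsum_rotate L m hm fun w => ENNReal.ofReal fug ^ L * (c L * g w))
    · refine ENNReal.tsum_le_tsum fun w => ?_
      rw [if_neg hm, mul_zero]
      exact bot_le
  refine (sum_le_sum h3).trans (le_of_eq ?_)
  rw [sum_const, card_range, nsmul_eq_mul, ← ENNReal.tsum_mul_left]
  exact tsum_congr fun w => by ring

/-! ### the modulus of continuity -/

/-- the vertices of a rotated root: the distance of two vertices of the closed curve -/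
def Mdv (N : ℕ) (p : ℕ → ℂ) (t : ℝ) (D : ℝ) : Prop := ∃ i j : ℕ, i ≤ j ∧ (j : ℝ) ≤ i + t ∧ D ≤ ‖p (i % N) - p (j % N)‖

lemma Mdv.congr {N : ℕ} (hN : 0 < N) {p q : ℕ → ℂ} (h : ∀ k : ℕ, k < N → p k = q k) (t D : ℝ) : Mdv N p t D ↔ Mdv N q t D := by
  unfold Mdv
  refine exists_congr fun i => exists_congr fun j => ?_
  rw [h _ (Nat.mod_lt i hN), h _ (Nat.mod_lt j hN)]

lemma Mdv.mul {N : ℕ} {p : ℕ → ℂ} {c : ℂ} (hc : ‖c‖ = 1) (t D : ℝ) : Mdv N (fun k => c * p k) t D ↔ Mdv N p t D := by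
  unfold Mdv
  refine exists_congr fun i => exists_congr fun j => ?_
  rw [← mul_sub, norm_mul, hc, one_mul]

lemma Mdv_iff {n : ℕ} {H : List Bool} (hH : H ∈ HexObs.POL.Cy (n + 1)) (t D : ℝ) :
    Mdv (n + 1) (pos (NTF.sw n H)) t D ↔ ∃ a b : ℕ, a ≤ b ∧ (b : ℝ) ≤ a + t ∧ D ≤ N.gap H a b := by
  have key : ∀ a : ℕ, NTF.JJ (HexObs.POL.pv H a) = pos (NTF.sw n H) (a % (n + 1)) := by
    intro a
    have h1 := HexObs.POL.pv_mod (HexObs.POL.Cy.clo hH) a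
    rw [hH.1] at h1
    have h2 := Nat.mod_lt a (show 0 < n + 1 by omega)
    rw [h1, HexObs.POL.pv_eq (by rw [hH.1]; omega), NTSF.pos_sw n H _ (by omega)]
  unfold N.gap Mdv
  refine exists_congr fun i => exists_congr fun j => ?_
  rw [key, key]

/-- **the modulus of continuity of the polygons, any place, one length** -/
theorem mod_pol (ε ρ : ℝ) (hε : 0 < ε) (hρ : 0 < ρ) : ∃ κ : ℝ, 0 < κ ∧ ∃ n0 : ℕ, ∀ n : ℕ, n0 ≤ n → Odd n →
    (((pol n).filter fun s => Mdv (n + 1) (ps (clw s)) (κ * n) (ρ * (n : ℝ) ^ (3 / 4 : ℝ))).card : ℝ) ≤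
      ε * ((pol n).card : ℝ) := by
  obtain ⟨κ, hκ, n0, h⟩ := N.cyc_mod ε ρ hε hρ
  refine ⟨κ, hκ, max n0 3, fun n hn ho => ?_⟩
  have hn3 : 3 ≤ n := (le_max_right _ _).trans hn
  have h1 := h n ((le_max_left _ _).trans hn) ho
  have h2 : ∀ s : Fin n → Fin 3, Mdv (n + 1) (ps (clw s)) (κ * n) (ρ * (n : ℝ) ^ (3 / 4 : ℝ)) ↔
      Mdv (n + 1) (pos s) (κ * n) (ρ * (n : ℝ) ^ (3 / 4 : ℝ)) := fun s =>
    Mdv.congr (by omega) (fun k hk => ps_clw s (by omega)) _ _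
  simp_rw [h2]
  have h3 : ((pol n).filter fun s => Mdv (n + 1) (pos s) (κ * n) (ρ * (n : ℝ) ^ (3 / 4 : ℝ))).card =
      3 * ((cyF (n + 1)).filter fun H => ∃ a b : ℕ, a ≤ b ∧ (b : ℝ) ≤ a + κ * n ∧
        ρ * (n : ℝ) ^ (3 / 4 : ℝ) ≤ N.gap H a b).card := by
    rw [pol_count hn3 ho (fun s => Mdv (n + 1) (pos s) (κ * n) (ρ * (n : ℝ) ^ (3 / 4 : ℝ))) fun s => ?_]
    · congr 2
      exact filter_congr fun H hH => Mdv_iff (mem_cyF.1 hH) _ _
    · have h : (pos (NTSF.rot s)) = fun k => NTSF.om * pos s k := funext fun k => NTSF.pos_rot s k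
      rw [h]
      exact Mdv.mul NTSF.om_norm _ _
  rw [h3, nr_pol_card hn3 ho]
  push_cast
  linarith

/-- **the modulus of continuity, all lengths** -/
theorem mod_sum (ε ρ B : ℝ) (hε : 0 < ε) (hρ : 0 < ρ) (hB : 0 < B) : ∃ κ : ℝ, 0 < κ ∧ ∃ N0 : ℕ, ∀ N : ℕ, N0 ≤ N →
    ∑' w : W3, (if Cl w ∧ (w.length : ℝ) ≤ B * (N : ℝ) ^ (4 / 3 : ℝ) ∧
      Mdv w.length (ps w) (κ * (N : ℝ) ^ (4 / 3 : ℝ)) (ρ * N) then wx w * ((w.length + 1 : ℕ) : ℝ≥0∞) else 0) ≤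
        ENNReal.ofReal (ε * (N : ℝ) ^ (2 / 3 : ℝ)) := by
  obtain ⟨a, ha, e, he, N0, h⟩ := bad_sumP ε B hε hB
  obtain ⟨ρ', hρ'⟩ : ∃ ρ' : ℝ, ρ' = ρ / B ^ (3 / 4 : ℝ) := ⟨_, rfl⟩
  have hρ'0 : 0 < ρ' := by
    rw [hρ']
    positivity
  obtain ⟨κ, hκ, n0, hm⟩ := mod_pol e ρ' he hρ'0
  obtain ⟨N1, hN1⟩ := exists_nat_ge ((n0 : ℝ) / a)
  refine ⟨κ * a, by positivity, max (max N0 1) N1, fun N hN => ?_⟩
  have b0 : N0 ≤ N := (le_max_left _ _).trans ((le_max_left _ _).trans hN)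
  have b1 : 1 ≤ N := (le_max_right _ _).trans ((le_max_left _ _).trans hN)
  have b2 : N1 ≤ N := (le_max_right _ _).trans hN
  have hN0 : (0 : ℝ) < N := by exact_mod_cast b1
  have hN1' : (1 : ℝ) ≤ N := by exact_mod_cast b1
  obtain ⟨X, hX⟩ : ∃ X : ℝ, X = (N : ℝ) ^ (4 / 3 : ℝ) := ⟨_, rfl⟩
  have hX0 : 0 < X := by
    rw [hX]
    positivity
  have hNX : (N : ℝ) ≤ X := by
    rw [hX]
    calc (N : ℝ) = (N : ℝ) ^ (1 : ℝ) := (Real.rpow_one _).symm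
      _ ≤ _ := Real.rpow_le_rpow_of_exponent_le hN1' (by norm_num)
  have hX34 : X ^ (3 / 4 : ℝ) = N := by
    rw [hX, ← Real.rpow_mul hN0.le]
    norm_num
  have haX : (n0 : ℝ) ≤ a * X := by
    have h1 : (n0 : ℝ) / a ≤ X := hN1.trans ((by exact_mod_cast b2 : (N1 : ℝ) ≤ N).trans hNX)
    rwa [div_le_iff₀' ha] at h1
  refine h N b0 (fun w => Mdv w.length (ps w) (κ * a * (N : ℝ) ^ (4 / 3 : ℝ)) (ρ * N)) fun n ho hn3 h3 h4 => ?_
  rw [← hX] at h3 h4 ⊢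
  have hnn : n0 ≤ n := by
    have : (n0 : ℝ) ≤ n := haX.trans h3
    exact_mod_cast this
  refine le_trans ?_ (hm n hnn ho)
  have hn0 : (0 : ℝ) ≤ n := Nat.cast_nonneg n
  have k1 : κ * a * X ≤ κ * n := by
    rw [mul_assoc]
    exact mul_le_mul_of_nonneg_left h3 hκ.le
  have k2 : ρ' * (n : ℝ) ^ (3 / 4 : ℝ) ≤ ρ * N := by
    have h5 : (n : ℝ) ^ (3 / 4 : ℝ) ≤ B ^ (3 / 4 : ℝ) * N := by
      rw [← hX34, ← Real.mul_rpow hB.le hX0.le]
      exact Real.rpow_le_rpow hn0 (by linarith) (by norm_num)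
    calc ρ' * (n : ℝ) ^ (3 / 4 : ℝ) ≤ ρ' * (B ^ (3 / 4 : ℝ) * N) := mul_le_mul_of_nonneg_left h5 hρ'0.le
      _ = ρ * N := by
          rw [hρ']
          field_simp
  refine Nat.cast_le.2 (card_le_card fun s hs => ?_)
  rw [mem_filter] at hs ⊢
  refine ⟨hs.1, ?_⟩
  obtain ⟨i, j, a1, a2, a3⟩ := hs.2
  rw [length_clw] at a3
  exact ⟨i, j, a1, a2.trans (by linarith), k2.trans a3⟩

end Pool.Agent.ROT.F3
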