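import Pool.Agent.ROT.F3Sym
import Pool.Agent.ROT.F3Cut

/-!
# ROT / F3SymX (helper25): the sums of F3Ex under the symmetries of the lattice

`wx_mp`, `ms_mp`, `gam_mp`, `Cn_mp`, `Nr_mp`, `Far_mp`, `Dj_mp`, `Hyp_mp`, `seg_mp`; swap of the two strands of a connection:
`gam_swap`; conjugate class: `pre S A` = `{w | mp S w ∈ A}`, `pre2` for pairs.
-/

set_option autoImplicit false

namespace Pool.Agent.ROT.F3

open Finset
open scoped ENNReal Classical
open Pool.Agent.NTS.Res (step pos saw fug)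

lemma wx_mp (S : LSym) (w : W3) : wx (mp S w) = wx w := by
  unfold wx
  rw [mp_length]

/-- a pair of words -/
def mp2 (S : LSym) (a : W3 × W3) : W3 × W3 := (mp S a.1, mp S a.2)

lemma mp2_swap (S : LSym) (a : W3 × W3) : (mp2 S a).swap = mp2 S a.swap := rfl

/-- pairs, as a bijection -/
noncomputable def mpe2 (S : LSym) : W3 × W3 ≃ W3 × W3 := (mpe S).prodCongr (mpe S)

lemma mpe2_apply (S : LSym) (a : W3 × W3) : mpe2 S a = mp2 S a := rfl

/-- the classes moved by the inverse of `S` -/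
def pre (S : LSym) (A : Set W3) : Set W3 := {w | mp S w ∈ A}

/-- the classes of pairs moved by the inverse of `S` -/
def pre2 (S : LSym) (C : Set (W3 × W3)) : Set (W3 × W3) := {a | mp2 S a ∈ C}

lemma mem_pre {S : LSym} {A : Set W3} {w : W3} : w ∈ pre S A ↔ mp S w ∈ A := Iff.rfl

lemma mem_pre2 {S : LSym} {C : Set (W3 × W3)} {a : W3 × W3} : a ∈ pre2 S C ↔ mp2 S a ∈ C := Iff.rfl

/-- **masses** -/
theorem ms_mp (S : LSym) (T : Set W3) (f : W3 → ℝ≥0∞) : ms (pre S T) (fun w => f (mp S w)) = ms T f := by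
  unfold ms
  rw [← (mpe S).tsum_eq fun a => if a ∈ T then wx a * f a else 0]
  refine tsum_congr fun a => ?_
  show (if mp S a ∈ T then wx a * f (mp S a) else 0) = if mp S a ∈ T then wx (mp S a) * f (mp S a) else 0
  rw [wx_mp]

/-- **the weight of the connections** -/
theorem gam_mp (S : LSym) (C : Set (W3 × W3)) (e : W3 × W3 → ℝ≥0∞) (z : ℂ) :
    gam (pre2 S C) (fun a => e (mp2 S a)) z = gam C e (S.L z) := by
  unfold gam
  rw [← (mpe2 S).tsum_eq fun a => if a ∈ C ∧ en a.1 - en a.2 = S.L z then wx a.1 * wx a.2 * e a else 0]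
  refine tsum_congr fun a => ?_
  show (if mp2 S a ∈ C ∧ en a.1 - en a.2 = z then wx a.1 * wx a.2 * e (mp2 S a) else 0) =
    if mp2 S a ∈ C ∧ en (mp S a.1) - en (mp S a.2) = S.L z then wx (mp S a.1) * wx (mp S a.2) * e (mp2 S a) else 0
  rw [wx_mp, wx_mp, en_mp, en_mp, ← map_sub]
  exact if_congr (and_congr Iff.rfl S.L.injective.eq_iff.symm) rfl rfl

/-- the two strands exchanged -/
theorem gam_swap (C : Set (W3 × W3)) (e : W3 × W3 → ℝ≥0∞) (z : ℂ) :
    gam {a | a.swap ∈ C} (fun a => e a.swap) z = gam C e (-z) := by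
  unfold gam
  rw [← (Equiv.prodComm W3 W3).tsum_eq fun a => if a ∈ C ∧ en a.1 - en a.2 = -z then wx a.1 * wx a.2 * e a else 0]
  refine tsum_congr fun a => ?_
  show (if a.swap ∈ C ∧ en a.1 - en a.2 = z then wx a.1 * wx a.2 * e a.swap else 0) =
    if a.swap ∈ C ∧ en a.2 - en a.1 = -z then wx a.2 * wx a.1 * e a.swap else 0
  have h : (en a.2 - en a.1 = -z) ↔ (en a.1 - en a.2 = z) := by
    constructor <;> intro h <;> linear_combination -h
  rw [mul_comm (wx a.2)]
  exact if_congr (and_congr Iff.rfl h.symm) rfl rfl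

lemma Cn_mp {S : LSym} {a : W3 × W3} : Cn (mp2 S a) ↔ Cn a := by
  constructor
  · rintro ⟨h1, h2, h3, h4, h5⟩
    refine ⟨?_, ?_, SW_mp.1 h3, SW_mp.1 h4, ?_⟩
    · simpa [mp2] using h1
    · simpa [mp2] using h2
    · intro j k hj hk he
      exact h5 j k (by simpa [mp2] using hj) (by simpa [mp2] using hk) (by
        show ps (mp S a.1) j = ps (mp S a.2) k
        rw [ps_mp, ps_mp, he])
  · rintro ⟨h1, h2, h3, h4, h5⟩
    refine ⟨?_, ?_, SW_mp.2 h3, SW_mp.2 h4, ?_⟩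
    · simpa [mp2] using h1
    · simpa [mp2] using h2
    · intro j k hj hk he
      refine h5 j k (by simpa [mp2] using hj) (by simpa [mp2] using hk) (S.L.injective ?_)
      rw [← ps_mp, ← ps_mp]
      exact he

lemma Nr_mp {S : LSym} {a : W3 × W3} {R : W3} : Nr (mp2 S a) (mp S R) ↔ Nr a R := by
  have e1 : ∀ (u : W3) (j k : ℕ), (ps (mp S u) j ≠ en (mp S a.1) + ps (mp S R) k) ↔ (ps u j ≠ en a.1 + ps R k) := by
    intro u j k
    rw [ps_mp, en_mp, ps_mp, ← map_add, S.L.injective.ne_iff]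
  constructor
  · rintro ⟨h1, h2⟩
    exact ⟨fun j k hj hk => (e1 _ _ _).1 (h1 j k (by simpa [mp2] using hj) (by simpa using hk)),
      fun j k hj hk => (e1 _ _ _).1 (h2 j k (by simpa [mp2] using hj) (by simpa using hk))⟩
  · rintro ⟨h1, h2⟩
    exact ⟨fun j k hj hk => (e1 _ _ _).2 (h1 j k (by simpa [mp2] using hj) (by simpa using hk)),
      fun j k hj hk => (e1 _ _ _).2 (h2 j k (by simpa [mp2] using hj) (by simpa using hk))⟩

lemma Far_mp {S : LSym} {a : W3 × W3} {R : W3} {b : W3 × W3} : Far (mp2 S a) (mp S R) (mp2 S b) ↔ Far a R b := by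
  have e1 : ∀ (u v : W3) (j k : ℕ), (ps (mp S u) j ≠ en (mp S a.1) + en (mp S R) - en (mp S b.1) + ps (mp S v) k) ↔
      (ps u j ≠ en a.1 + en R - en b.1 + ps v k) := by
    intro u v j k
    rw [ps_mp, en_mp, en_mp, en_mp, ps_mp, ← map_add, ← map_sub, ← map_add, S.L.injective.ne_iff]
  constructor
  · intro h u v hu hv j k hj hk
    refine (e1 u v j k).1 (h (mp S u) (mp S v) ?_ ?_ j k (by simpa using hj) (by simpa using hk))
    · rcases hu with rfl | rfl
      · exact Or.inl rfl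
      · exact Or.inr rfl
    · rcases hv with rfl | rfl
      · exact Or.inl rfl
      · exact Or.inr rfl
  · intro h u v hu hv j k hj hk
    rcases hu with rfl | rfl <;> rcases hv with rfl | rfl
    · exact (e1 a.1 b.1 j k).2 (h _ _ (Or.inl rfl) (Or.inl rfl) j k (by simpa [mp2] using hj) (by simpa [mp2] using hk))
    · exact (e1 a.1 b.2 j k).2 (h _ _ (Or.inl rfl) (Or.inr rfl) j k (by simpa [mp2] using hj) (by simpa [mp2] using hk))
    · exact (e1 a.2 b.1 j k).2 (h _ _ (Or.inr rfl) (Or.inl rfl) j k (by simpa [mp2] using hj) (by simpa [mp2] using hk))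
    · exact (e1 a.2 b.2 j k).2 (h _ _ (Or.inr rfl) (Or.inr rfl) j k (by simpa [mp2] using hj) (by simpa [mp2] using hk))

lemma Dj_mp {S : LSym} {RA RB : W3} {z : ℂ} : Dj (mp S RA) (mp S RB) (S.L z) ↔ Dj RA RB z := by
  unfold Dj
  simp only [mp_length, ps_mp, ← map_sub, S.L.injective.ne_iff]

lemma G6_mp (S : LSym) (a : W3 × W3) (RA : W3) (b : W3 × W3) (RB : W3) :
    G6 (mp2 S a) (mp S RA) (mp2 S b) (mp S RB) = mp S (G6 a RA b RB) := by
  unfold G6 mp2
  simp only [mp_append, mp_reverse]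

lemma seg_mp (S : LSym) (w : W3) (a b : ℕ) : seg (mp S w) a b = mp S (seg w a b) := by
  unfold seg
  rw [mp_take, mp_drop]

/-- the hypotheses on the classes are invariant -/
theorem Hyp_mp (S : LSym) {C C' : Set (W3 × W3)} {RA RB : Set W3} (H : Hyp C C' RA RB) :
    Hyp (pre2 S C) (pre2 S C') (pre S RA) (pre S RB) where
  cn a ha := Cn_mp.1 (H.cn _ ha)
  cn' b hb := Cn_mp.1 (H.cn' _ hb)
  rA R hR := ⟨by simpa using (H.rA _ hR).1, SW_mp.1 (H.rA _ hR).2⟩
  rB R hR := ⟨by simpa using (H.rB _ hR).1, SW_mp.1 (H.rB _ hR).2⟩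
  n1 a ha R hR := Nr_mp.1 (H.n1 _ ha _ hR)
  n2 a ha R hR := Nr_mp.1 (H.n2 _ ha _ hR)
  n3 b hb R hR := Nr_mp.1 (by rw [mp_reverse]; exact H.n3 _ hb _ hR)
  n4 b hb R hR := Nr_mp.1 (by rw [mp_reverse]; exact H.n4 _ hb _ hR)
  far a ha R hR b hb := Far_mp.1 (H.far _ ha _ hR _ hb)

end Pool.Agent.ROT.F3
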