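import Pool.Agent.ARM.TipS

/-!
ROT, row W8 (helper84 for helper94): short narrow half plane words without cuts with a prescribed parity of the number of letters
(`ARM.shE_mass` is the even case).
-/

set_option autoImplicit false

namespace Pool.Agent.ROT.W8

open HexObs HexObs.ARM Finset HexObs.TS HexObs.SDN HexObs.NTW HexObs.NTA HexObs.SIM HexObs.TIP

open scoped ENNReal

/-- **short narrow half plane words without cuts of the scale k, both parities** -/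
theorem shb_mass (bb : Bool) : ∃ (c : ℝ) (k0 : ℕ), 0 < c ∧ ∀ k, k0 ≤ k → ENNReal.ofReal c * Xb k ≤
    gf {e | e ∈ TPF.NAb bb (2 ^ k) ∧ BX ((2 ^ k : ℕ) : ℤ) e ∧ (e.length : ℝ) ≤ PW.mZ (2 ^ k)} := by
  have hm : MLow (fun k => PW.mZ (2 ^ k)) := mlow_M
  obtain ⟨lam, hl1, hlam⟩ := JNT.half_shortb hm EN.ht_M
  obtain ⟨D, hD⟩ := JNT.na_far hm tb_M EN.ht_M EN.asm_M hl1 (show (0 : ℝ) < 1 / 32 by norm_num) hlam
  obtain ⟨CX, hCX, hXd⟩ := XDbl.pow xDbl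
  have hCX0 : 0 < CX := by linarith
  obtain ⟨i0, hi0⟩ := pow_unbounded_of_one_lt lam (one_lt_two (α := ℝ))
  obtain ⟨i, hi⟩ : ∃ i, i = i0 + D := ⟨_, rfl⟩
  have hlami : lam ≤ 2 ^ i := hi0.le.trans (pow_le_pow_right₀ (by norm_num) (by omega))
  refine ⟨1 / (32 * CX ^ i), i, by positivity, fun k hk => ?_⟩
  obtain ⟨k', rfl⟩ : ∃ k', k = k' + i := ⟨k - i, by omega⟩
  obtain ⟨G, hG⟩ : ∃ G, G = gf {W | W ∈ TPF.NAb bb (2 ^ k') ∧ (W.length : ℝ) ≤ lam * PW.mZ (2 ^ k') ∧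
    W ∈ WL (k' + D)} := ⟨_, rfl⟩
  have h1 : ENNReal.ofReal (1 / 16) * Xb k' ≤ G + ENNReal.ofReal (1 / 32) * Xb k' := by
    have h2 : {W | W ∈ TPF.NAb bb (2 ^ k') ∧ (W.length : ℝ) ≤ lam * PW.mZ (2 ^ k')} ⊆
        {W | W ∈ TPF.NAb bb (2 ^ k') ∧ (W.length : ℝ) ≤ lam * PW.mZ (2 ^ k') ∧ W ∈ WL (k' + D)} ∪
        {W | W ∈ TPF.NAb bb (2 ^ k') ∧ (W.length : ℝ) ≤ lam * PW.mZ (2 ^ k') ∧ W ∉ WL (k' + D)} := by
      rintro W ⟨h1, h2⟩
      by_cases h : W ∈ WL (k' + D)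
      · exact Or.inl ⟨h1, h2, h⟩
      · exact Or.inr ⟨h1, h2, h⟩
    rw [hG]
    exact (hlam k' bb).trans (((gf_mono h2).trans (gf_union_le _ _)).trans (add_le_add le_rfl (hD k' bb)))
  have h2 : ENNReal.ofReal (1 / 32) * Xb k' ≤ G := by
    have e1 : ENNReal.ofReal (1 / 16) * Xb k' = ENNReal.ofReal (1 / 32) * Xb k' + ENNReal.ofReal (1 / 32) * Xb k' := by
      rw [← add_mul, ← ENNReal.ofReal_add (by norm_num) (by norm_num)]
      norm_num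
    rw [e1] at h1
    exact (ENNReal.add_le_add_iff_right (ENNReal.mul_ne_top ENNReal.ofReal_ne_top (NTA.Xb_ne_top k'))).1 h1
  have h3 : ENNReal.ofReal (1 / (32 * CX ^ i)) * Xb (k' + i) ≤ G := by
    refine le_trans (mul_le_mul' le_rfl (hXd k' i)) (le_trans (le_of_eq ?_) h2)
    rw [← mul_assoc, ← ENNReal.ofReal_mul (by positivity)]
    congr 2
    field_simp
  refine h3.trans ?_
  rw [hG]
  refine gf_mono ?_
  rintro W ⟨⟨h4, h5⟩, h6, h7⟩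
  refine ⟨⟨⟨BAR.SSt_mono (Nat.pow_le_pow_right (by norm_num) (by omega)) h4.1, h4.2⟩, h5⟩, fun n hn dir => ?_, ?_⟩
  · refine (h7.2 n hn dir).trans ?_
    push_cast
    exact pow_le_pow_right₀ (by norm_num) (by omega)
  · have h9 := EN.m_two hm k' i
    have hmk := hm.pos k'
    calc (W.length : ℝ) ≤ lam * PW.mZ (2 ^ k') := h6
      _ ≤ 2 ^ i * PW.mZ (2 ^ k') := mul_le_mul_of_nonneg_right hlami hmk.le
      _ ≤ PW.mZ (2 ^ (k' + i)) := h9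

theorem shO_mass : ∃ (c : ℝ) (k0 : ℕ), 0 < c ∧ ∀ k, k0 ≤ k → ENNReal.ofReal c * Xb k ≤
    gf {e | e ∈ TPF.NAb true (2 ^ k) ∧ BX ((2 ^ k : ℕ) : ℤ) e ∧ (e.length : ℝ) ≤ PW.mZ (2 ^ k)} := shb_mass true

end Pool.Agent.ROT.W8
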