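import Pool.Agent.ROT.W8Up
import Pool.Agent.ROT.W8Odd
import Pool.Agent.ARM.ShortG

/-!
# ROT, F3, row W8 (walks), part 2 (helper84 for helper94): the mass of the start pieces without cuts from below

* `NC0 R s k` : start piece without any cut, `nc0m R k` : its mass;
* **`alow`** : for all `e > 0` the mass of the start pieces without cuts in the ball of radius `R` with at most `e * R ^ (4/3)` steps is
  at least `c * Xb K` if `2 ^ K ≤ 2 * R`.
-/

set_option autoImplicit false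

open Set Filter Topology

namespace Pool.Agent.ROT.F3.W8

open HexObs hiding pos curve

open HexObs.TS HexObs.SDN HexObs.ARM HexObs.BAR HexObs.NTA

open Pool.Agent.NTS.Res (pos saw fug step)

open NTF (sw JJ)

open NTSF (pos_zero pos_succ mem_saw pos_sw)

open Pool.Agent.SCF.Z (SCut rvw pos_rvw rvw_mem rvw_rvw cutw pos_cutw cutw_mem)

open scoped ENNReal

/-- start piece without any cut -/
def NC0 (R : ℝ) {n : ℕ} (s : Fin n → Fin 3) (k : ℕ) : Prop :=
  Even k ∧ (∀ i : ℕ, i ≤ k → (pos s i).re ≤ (pos s k).re) ∧ (∀ i : ℕ, i ≤ k → ‖pos s i - pos s k‖ ≤ R) ∧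
    ∀ k' : ℕ, ¬ SCut s 0 k' k

open Classical in
/-- its mass -/
noncomputable def nc0m (R : ℝ) (k : ℕ) : ℝ := (((saw k).filter fun s => NC0 R s k).card : ℝ) * fug ^ k

lemma nc0m_nonneg (R : ℝ) (k : ℕ) : 0 ≤ nc0m R k := by
  unfold nc0m fug
  positivity

lemma JJ_row {p : Pt} {A : ℝ} (hA : 1 ≤ A) (h0 : |((row false p : ℤ) : ℝ)| ≤ A) (h1 : |((row true p : ℤ) : ℝ)| ≤ A) :
    ‖JJ p‖ ≤ 8 * A := by
  have e0 : row false p = (p.1 + 2 * p.2) / 3 := by
    show ip p up / 3 = _
    congr 1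
    unfold ip up
    ring
  have e1 : row true p = (-(2 * p.1 + p.2)) / 3 := by
    show ip p (-1, 0) / 3 = _
    congr 1
    unfold ip
    ring
  obtain ⟨x, hx⟩ : ∃ x, x = row false p := ⟨_, rfl⟩
  obtain ⟨y, hy⟩ : ∃ y, y = row true p := ⟨_, rfl⟩
  rw [← hx] at h0 e0
  rw [← hy] at h1 e1
  have a1 : 3 * x ≤ p.1 + 2 * p.2 := by omega
  have a2 : p.1 + 2 * p.2 ≤ 3 * x + 2 := by omega
  have b1 : 3 * y ≤ -(2 * p.1 + p.2) := by omega
  have b2 : -(2 * p.1 + p.2) ≤ 3 * y + 2 := by omega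
  have a1' : 3 * (x : ℝ) ≤ p.1 + 2 * p.2 := by exact_mod_cast a1
  have a2' : (p.1 : ℝ) + 2 * p.2 ≤ 3 * x + 2 := by exact_mod_cast a2
  have b1' : 3 * (y : ℝ) ≤ -(2 * p.1 + p.2) := by exact_mod_cast b1
  have b2' : -(2 * (p.1 : ℝ) + p.2) ≤ 3 * y + 2 := by exact_mod_cast b2
  obtain ⟨c1, c2⟩ := abs_le.1 h0
  obtain ⟨d1, d2⟩ := abs_le.1 h1
  have hre : |(JJ p).re| ≤ (3 * A + 2) / 2 := by
    rw [NTF.JJ_re, abs_le]
    constructor <;> linarith
  have h3 : Real.sqrt 3 ≤ 2 := by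
    rw [Real.sqrt_le_left (by norm_num)]
    norm_num
  have h30 : 0 ≤ Real.sqrt 3 := Real.sqrt_nonneg 3
  have hp : |(p.1 : ℝ)| ≤ 3 * A + 2 := by
    rw [abs_le]
    constructor <;> linarith
  have him : |(JJ p).im| ≤ 3 * A + 2 := by
    rw [NTF.JJ_im, abs_neg, abs_mul, abs_of_nonneg (by positivity : 0 ≤ Real.sqrt 3 / 2)]
    calc Real.sqrt 3 / 2 * |(p.1 : ℝ)| ≤ 1 * |(p.1 : ℝ)| := mul_le_mul_of_nonneg_right (by linarith) (abs_nonneg _)
      _ ≤ _ := by linarith
  calc ‖JJ p‖ ≤ |(JJ p).re| + |(JJ p).im| := Complex.norm_le_abs_re_add_abs_im _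
    _ ≤ (3 * A + 2) / 2 + (3 * A + 2) := add_le_add hre him
    _ ≤ 8 * A := by linarith

/-- the start piece of a word: read backwards, without the last step -/
def spw (k : ℕ) (U : List Bool) : Fin k → Fin 3 := cutw (rvw (sw (k + 1) U))

lemma pos_spw {k : ℕ} (hk : Even k) (U : List Bool) {j : ℕ} (hj : j ≤ k) :
    pos (spw k U) j = JJ (vx oo up U (k + 1)) - JJ (vx oo up U (k + 1 - j)) := by
  unfold spw
  rw [pos_cutw _ hj, pos_rvw hk.add_one _ (by omega), pos_sw _ _ _ le_rfl, pos_sw _ _ _ (by omega)]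

/-- **half plane words without cuts give start pieces without cuts** -/
theorem nc0_spw {m k : ℕ} (hk : Even k) {U : List Bool} (hU : U ∈ NA m) {A : ℝ} (hA : 1 ≤ A)
    (hb : ∀ i, i ≤ U.length → ∀ dir, |((row dir (vx oo up U i) : ℤ) : ℝ)| ≤ A) (hl : U.length = k + 1) {R : ℝ} (hR : 16 * A ≤ R) :
    spw k U ∈ saw k ∧ NC0 R (spw k U) k := by
  obtain ⟨hS, hno⟩ := hU
  have hpos := BAR.pos_SSt hS
  have hSA : U ∈ SawN (k + 1) := ⟨hl, fun i _ hi => Set.mem_univ _, hS.inj⟩
  have hre : ∀ i : ℕ, (JJ (vx oo up U i)).re = ((lev U i : ℤ) : ℝ) / 2 := fun i => re_JJ _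
  have hn : ∀ i, i ≤ U.length → ‖JJ (vx oo up U i)‖ ≤ 8 * A := fun i hi => JJ_row hA (hb i hi false) (hb i hi true)
  have hl2 : ∀ i, 1 ≤ i → i ≤ U.length → 2 ≤ lev U i := by
    intro i h1 h2
    have h3 := hpos i h1 h2
    obtain ⟨y, hy⟩ := Pool.Agent.SCF.Z.lev_mod U h2
    rw [hy] at h3 ⊢
    split_ifs at h3 ⊢ <;> omega
  have hl1 : lev U 1 = 2 := by
    have h1 : vx oo up U 1 = oo + up := rfl
    unfold lev
    rw [h1]
    decide
  refine ⟨cutw_mem ((rvw_mem hk.add_one).2 (NTSF.sw_mem hSA)), hk, fun i hi => ?_, fun i hi => ?_, ?_⟩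
  · rw [pos_spw hk U hi, pos_spw hk U le_rfl, Complex.sub_re, Complex.sub_re, hre, hre, hre, show k + 1 - k = 1 by omega, hl1]
    have h1 := hl2 (k + 1 - i) (by omega) (by omega)
    have h2 : (2 : ℝ) ≤ ((lev U (k + 1 - i) : ℤ) : ℝ) := by exact_mod_cast h1
    push_cast
    linarith
  · rw [pos_spw hk U hi, pos_spw hk U le_rfl]
    have e : JJ (vx oo up U (k + 1)) - JJ (vx oo up U (k + 1 - i)) - (JJ (vx oo up U (k + 1)) - JJ (vx oo up U (k + 1 - k))) =
        JJ (vx oo up U (k + 1 - k)) - JJ (vx oo up U (k + 1 - i)) := by ring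
    rw [e]
    have h1 := hn (k + 1 - k) (by omega)
    have h2 := hn (k + 1 - i) (by omega)
    exact (norm_sub_le _ _).trans (by linarith)
  · rintro k' ⟨-, hk1, hev, hst, hle, hge⟩
    obtain ⟨q, hq⟩ : ∃ q, q = k - k' := ⟨_, rfl⟩
    have hqe : Even q := by
      rw [hq]
      exact (Nat.even_sub hk1.le).2 ⟨fun _ => hev, fun _ => hk⟩
    have hq1 : 1 ≤ q := by omega
    -- the step
    have hd : dx up U q = up := by
      rw [pos_spw hk U (by omega), pos_spw hk U (by omega), show k + 1 - (k' + 1) = q by omega,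
        show k + 1 - k' = q + 1 by omega] at hst
      have h7 : JJ up = 1 := by
        apply Complex.ext
        · rw [NTF.JJ_re, Complex.one_re]
          simp only [up]
          norm_num
        · rw [NTF.JJ_im, Complex.one_im]
          simp only [up]
          norm_num
      have h8 : vx oo up U (q + 1) = vx oo up U q + dx up U q := rfl
      rw [h8, NTF.JJ_add] at hst
      have h9 : JJ (dx up U q) = JJ up := by
        rw [h7]
        linear_combination hst
      exact NTF.JJ_inj h9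
    -- the levels
    have g1 : ∀ i, 1 ≤ i → i ≤ q → lev U i ≤ lev U q := by
      intro i hi1 hi2
      have h1 := hge (k + 1 - i) (by omega) (by omega)
      rw [pos_spw hk U (by omega), pos_spw hk U (by omega), Complex.sub_re, Complex.sub_re, hre, hre, hre,
        show k + 1 - (k + 1 - i) = i by omega, show k + 1 - k' = q + 1 by omega] at h1
      have h2 : lev U (q + 1) = lev U q + 2 := by
        have h8 : vx oo up U (q + 1) = vx oo up U q + dx up U q := rfl
        unfold lev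
        rw [h8, hd, ip_add_left]
        congr 1
      rw [h2] at h1
      push_cast at h1
      have h3 : ((lev U i : ℤ) : ℝ) ≤ ((lev U q : ℤ) : ℝ) := by linarith
      exact_mod_cast h3
    have g2 : ∀ i, q < i → i ≤ U.length → lev U q < lev U i := by
      intro i hi1 hi2
      have h1 := hle (k + 1 - i) (Nat.zero_le _) (by omega)
      rw [pos_spw hk U (by omega), pos_spw hk U (by omega), Complex.sub_re, Complex.sub_re, hre, hre, hre,
        show k + 1 - (k + 1 - i) = i by omega, show k + 1 - k' = q + 1 by omega] at h1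
      have h2 : lev U (q + 1) = lev U q + 2 := by
        have h8 : vx oo up U (q + 1) = vx oo up U q + dx up U q := rfl
        unfold lev
        rw [h8, hd, ip_add_left]
        congr 1
      rw [h2] at h1
      push_cast at h1
      have h3 : ((lev U q : ℤ) : ℝ) < ((lev U i : ℤ) : ℝ) := by linarith
      exact_mod_cast h3
    -- the bridge
    have hlq := hl2 q hq1 (by omega)
    obtain ⟨y, hy⟩ := Pool.Agent.SCF.Z.lev_mod U (k := q) (by omega)
    rw [if_pos hqe, add_zero] at hy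
    obtain ⟨r, hr⟩ : ∃ r : ℕ, y = r := ⟨y.toNat, by omega⟩
    rw [hr] at hy
    have htl : (U.take q).length = q := by
      rw [List.length_take]
      omega
    have hsplit : U.take q ++ U.drop q = U := List.take_append_drop q U
    have hvx : ∀ i, i ≤ q → vx oo up (U.take q) i = vx oo up U i := by
      intro i hi
      conv_rhs => rw [← hsplit]
      rw [vx_append (by omega)]
    have hlv : ∀ i, i ≤ q → lev (U.take q) i = lev U i := by
      intro i hi
      unfold lev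
      rw [hvx i hi]
    have hdx : dx up (U.take q) (U.take q).length = up := by
      have h1 : dx up (U.take q ++ U.drop q) q = dx up (U.take q) q := dx_append (by omega)
      rw [hsplit] at h1
      rw [htl, ← h1]
      exact hd
    have hB : U.take q ∈ Brd r := by
      rw [mem_Brd]
      refine ⟨fun i h1 h2 => ?_, fun i j h1 h2 => ?_, hdx, ?_⟩
      · rw [htl] at h2
        rw [hlv i h2]
        have h3 := hpos i h1 (by omega)
        have h4 := g1 i h1 h2
        omega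
      · rw [htl] at h2
        rw [hvx i (by omega), hvx j h2]
        exact hS.inj i j h1 (by omega)
      · rw [htl, hlv q le_rfl, hy]
    refine hno r (by omega) ⟨U.take q, U.drop q, hB, fun i h1 h2 => ?_, hsplit.symm⟩
    rw [List.length_drop] at h2
    have h3 := g2 (q + i) (by omega) (by omega)
    have h4 : lev (U.take q ++ U.drop q) ((U.take q).length + i) = lev (U.take q) (U.take q).length + lev (U.drop q) i :=
      lev_cat hdx i
    rw [hsplit, htl, hlv q le_rfl] at h4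
    rw [h4] at h3
    linarith

/-- the half plane words without cuts, odd, narrow, short -/
def NO (k0 : ℕ) : Set (List Bool) :=
  {e | e ∈ TPF.NAb true (2 ^ k0) ∧ BX ((2 ^ k0 : ℕ) : ℤ) e ∧ (e.length : ℝ) ≤ PW.mZ (2 ^ k0)}

lemma no_len {k0 : ℕ} {U : List Bool} (hU : U ∈ NO k0) : ∃ k, Even k ∧ U.length = k + 1 := by
  have h1 : U.length.bodd = true := hU.1.2
  have h2 : U.length % 2 = 1 := by
    rw [Nat.mod_two_of_bodd, h1]
    rfl
  exact ⟨U.length - 1, by rw [Nat.even_iff]; omega, by omega⟩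

open Classical in
/-- the mass of the words with `k + 1` letters -/
lemma no_le {k0 k : ℕ} {R : ℝ} (hR : 16 * (2 : ℝ) ^ k0 ≤ R) :
    gf {U | U ∈ NO k0 ∧ U.length = k + 1} ≤ ENNReal.ofReal (2 * fug * nc0m R k) := by
  have hlen : ∀ t ∈ {U | U ∈ NO k0 ∧ U.length = k + 1}, t.length = k + 1 := fun t ht => ht.2
  rw [NTF.gf_card hlen]
  have hcard : {U | U ∈ NO k0 ∧ U.length = k + 1}.ncard ≤
      (((saw k).filter fun s => NC0 R s k) ×ˢ (Finset.univ : Finset Bool)).card := by
    rw [← Set.ncard_coe_finset]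
    refine Set.ncard_le_ncard_of_injOn (fun U => (spw k U, tf U k)) ?_ ?_ (Finset.finite_toSet _)
    · rintro U ⟨hU, hl⟩
      obtain ⟨k', hk', hl'⟩ := no_len hU
      have hk : Even k := by
        have : k = k' := by omega
        rwa [this]
      rw [Finset.mem_coe, Finset.mem_product, Finset.mem_filter]
      have h1 := nc0_spw hk hU.1.1 (A := (2 : ℝ) ^ k0) (one_le_pow₀ (by norm_num)) (fun i hi dir => by
        have h2 := hU.2.1 i hi dir
        exact_mod_cast h2) hl hR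
      exact ⟨⟨h1.1, h1.2⟩, Finset.mem_univ _⟩
    · rintro U ⟨hU, hl⟩ V ⟨hV, hl'⟩ he
      obtain ⟨k', hk', hlk'⟩ := no_len hU
      have hk : Even k := by
        have : k = k' := by omega
        rwa [this]
      have he1 : spw k U = spw k V := congrArg Prod.fst he
      have he2 : tf U k = tf V k := congrArg Prod.snd he
      refine NTSF.sw_inj hl hl' ?_ (by rwa [Nat.add_sub_cancel])
      have h3 : rvw (sw (k + 1) U) = rvw (sw (k + 1) V) := by
        funext i
        refine Fin.lastCases ?_ (fun i => congrFun he1 i) i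
        show sw (k + 1) U (Fin.rev (Fin.last k)) = sw (k + 1) V (Fin.rev (Fin.last k))
        rw [Fin.rev_last]
        rfl
      have h4 := congrArg rvw h3
      rwa [rvw_rvw, rvw_rvw] at h4
  rw [Finset.card_product, Finset.card_univ, Fintype.card_bool] at hcard
  have e : 2 * fug * nc0m R k = ((((saw k).filter fun s => NC0 R s k).card * 2 : ℕ) : ℝ) * fug ^ (k + 1) := by
    unfold nc0m
    push_cast
    ring
  rw [e, ENNReal.ofReal_mul (Nat.cast_nonneg _), ENNReal.ofReal_natCast, NTSF.fug_eq]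
  refine mul_le_mul' ?_ le_rfl
  exact_mod_cast hcard

/-- **the mass of the start pieces without cuts from below** -/
theorem alow : ∀ e : ℝ, 0 < e → ∃ (c R0 : ℝ), 0 < c ∧ ∀ R : ℝ, R0 ≤ R → ∀ M : ℕ, e * R ^ (4 / 3 : ℝ) ≤ M →
    ∀ K : ℕ, (2 : ℝ) ^ K ≤ 2 * R → ENNReal.ofReal c * Xb K ≤ ENNReal.ofReal (∑ k ∈ Finset.range (M + 1), nc0m R k) := by
  intro e he
  obtain ⟨c0, k0, hc0, hmass⟩ := Pool.Agent.ROT.W8.shO_mass
  obtain ⟨Cm, hCm, hmZ⟩ := BM.mZ_le
  obtain ⟨CX, hCX, hXd⟩ := XDbl.pow xDbl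
  have hCX0 : 0 < CX := by linarith
  have hf : 0 < fug := by
    unfold fug
    positivity
  -- the shift
  obtain ⟨j0, hj0⟩ := pow_unbounded_of_one_lt (Cm * 4 / e) (one_lt_two (α := ℝ))
  obtain ⟨j, hj⟩ : ∃ j, j = j0 + 5 := ⟨_, rfl⟩
  refine ⟨c0 / CX ^ j / (2 * fug), 2 ^ (k0 + j + 1), by positivity, fun R hR M hM K hK => ?_⟩
  have hR1 : (1 : ℝ) ≤ R := (one_le_pow₀ (by norm_num)).trans hR
  obtain ⟨K', hK1, hK2⟩ := exists_nat_pow_near (show (1 : ℝ) ≤ 2 * R by linarith) one_lt_two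
  have hKK : K ≤ K' := by
    by_contra hcon
    push Not at hcon
    have h1 : (2 : ℝ) ^ (K' + 1) ≤ 2 ^ K := pow_le_pow_right₀ (by norm_num) (by omega)
    linarith
  have hk0 : k0 + j ≤ K' := by
    by_contra hcon
    push Not at hcon
    have h1 : (2 : ℝ) ^ (K' + 1) ≤ 2 ^ (k0 + j + 1) := pow_le_pow_right₀ (by norm_num) (by omega)
    linarith
  obtain ⟨k, hk⟩ : ∃ k, K' = k + j := ⟨K' - j, by omega⟩
  have h16 : 16 * (2 : ℝ) ^ k ≤ R := by
    have h1 : (2 : ℝ) ^ K' = 2 ^ k * 2 ^ j := by rw [hk, pow_add]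
    have h2 : (32 : ℝ) ≤ 2 ^ j := by
      calc (32 : ℝ) = 2 ^ 5 := by norm_num
        _ ≤ 2 ^ j := pow_le_pow_right₀ (by norm_num) (by omega)
    have h3 : (0 : ℝ) < 2 ^ k := by positivity
    nlinarith
  -- the lengths
  have hlenM : PW.mZ (2 ^ k) ≤ M := by
    refine (hmZ k).trans (le_trans ?_ hM)
    have h1 : ml k = ((2 : ℝ) ^ k) ^ (4 / 3 : ℝ) := by
      unfold ml
      rw [← Real.rpow_natCast, ← Real.rpow_mul (by norm_num)]
      congr 1
      ring
    have h2 : (2 : ℝ) ^ k ≤ 2 * R / 2 ^ j := by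
      rw [le_div_iff₀ (by positivity), ← pow_add, ← hk]
      exact hK1
    have h3 : ((2 : ℝ) ^ k) ^ (4 / 3 : ℝ) ≤ (2 * R / 2 ^ j) ^ (4 / 3 : ℝ) := Real.rpow_le_rpow (by positivity) h2 (by norm_num)
    have h4 : (2 * R / 2 ^ j) ^ (4 / 3 : ℝ) = (2 / 2 ^ j : ℝ) ^ (4 / 3 : ℝ) * R ^ (4 / 3 : ℝ) := by
      rw [← Real.mul_rpow (by positivity) (by linarith)]
      congr 1
      ring
    have hjb : (1 : ℝ) ≤ 2 ^ j0 := one_le_pow₀ (by norm_num)
    have hj2 : (2 : ℝ) ^ j = 2 ^ j0 * 32 := by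
      rw [hj, pow_add]
      norm_num
    have h5 : (2 / 2 ^ j : ℝ) ≤ 1 := by
      rw [div_le_one (by positivity), hj2]
      linarith
    have h6 : (2 / 2 ^ j : ℝ) ^ (4 / 3 : ℝ) ≤ 2 / 2 ^ j := by
      calc (2 / 2 ^ j : ℝ) ^ (4 / 3 : ℝ) ≤ (2 / 2 ^ j : ℝ) ^ (1 : ℝ) :=
            Real.rpow_le_rpow_of_exponent_ge (by positivity) h5 (by norm_num)
        _ = _ := Real.rpow_one _
    have h7 : Cm * (2 / 2 ^ j : ℝ) ≤ e := by
      rw [mul_div_assoc', div_le_iff₀ (by positivity)]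
      rw [div_lt_iff₀ he] at hj0
      rw [hj2]
      nlinarith
    have hRp : 0 ≤ R ^ (4 / 3 : ℝ) := by positivity
    calc Cm * ml k ≤ Cm * ((2 / 2 ^ j : ℝ) * R ^ (4 / 3 : ℝ)) := by
          refine mul_le_mul_of_nonneg_left ?_ (by linarith)
          rw [h1]
          refine h3.trans ?_
          rw [h4]
          exact mul_le_mul_of_nonneg_right h6 hRp
      _ = Cm * (2 / 2 ^ j : ℝ) * R ^ (4 / 3 : ℝ) := by ring
      _ ≤ e * R ^ (4 / 3 : ℝ) := mul_le_mul_of_nonneg_right h7 hRp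
  -- the sum
  have hsum : gf (NO k) ≤ ENNReal.ofReal (2 * fug * ∑ i ∈ Finset.range (M + 1), nc0m R i) := by
    have h1 : NO k ⊆ ⋃ i ∈ (Finset.range (M + 1)), {U | U ∈ NO k ∧ U.length = i + 1} := by
      intro U hU
      obtain ⟨i, -, hi⟩ := no_len hU
      simp only [Set.mem_iUnion, exists_prop, Finset.mem_range]
      refine ⟨i, ?_, hU, hi⟩
      have h2 := hU.2.2
      rw [hi] at h2
      have h3 : ((i + 1 : ℕ) : ℝ) ≤ M := h2.trans hlenM
      have h4 : i + 1 ≤ M := by exact_mod_cast h3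
      omega
    refine (gf_mono h1).trans ((BAR.gf_bi_le _ _).trans ?_)
    rw [Finset.mul_sum, ENNReal.ofReal_sum_of_nonneg fun i _ => mul_nonneg (by positivity) (nc0m_nonneg R i)]
    exact Finset.sum_le_sum fun i _ => no_le h16
  have h1 := hmass k (by omega)
  have h2 : Xb K ≤ ENNReal.ofReal (CX ^ j) * Xb k := (NTA.Xb_mono hKK).trans (hk ▸ hXd k j)
  have hs0 : 0 ≤ ∑ i ∈ Finset.range (M + 1), nc0m R i := Finset.sum_nonneg fun i _ => nc0m_nonneg R i
  calc ENNReal.ofReal (c0 / CX ^ j / (2 * fug)) * Xb K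
      ≤ ENNReal.ofReal (c0 / CX ^ j / (2 * fug)) * (ENNReal.ofReal (CX ^ j) * Xb k) := mul_le_mul' le_rfl h2
    _ = ENNReal.ofReal (1 / (2 * fug)) * (ENNReal.ofReal c0 * Xb k) := by
        rw [← mul_assoc, ← mul_assoc, ← ENNReal.ofReal_mul (by positivity), ← ENNReal.ofReal_mul (by positivity)]
        congr 2
        field_simp
    _ ≤ ENNReal.ofReal (1 / (2 * fug)) * ENNReal.ofReal (2 * fug * ∑ i ∈ Finset.range (M + 1), nc0m R i) :=
        mul_le_mul' le_rfl (h1.trans hsum)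
    _ = _ := by
        rw [← ENNReal.ofReal_mul (by positivity)]
        congr 1
        field_simp

end Pool.Agent.ROT.F3.W8
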