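import Pool.Agent.ROT.F3Norm
import Pool.Agent.ROT.F3SymX
import Pool.Agent.ROT.W8Lo
import Pool.Agent.TPC.XLow

/-!
# ROT / F3NormT (helper56): the mass of the tip pieces without cuts, the upper bound for the mass of the rests

* **`tip_low`** : `ms (TN (ev a) r (r ^ (4 / 3))) 1 ≥ c r ^ (25 / 48)` for the three directions;
* **`beta_up`** : the mass of the rests (`RsC`) with at most `B N ^ (4 / 3)` letters is at most `C N ^ (3 / 4)`.
-/

set_option autoImplicit false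

namespace Pool.Agent.ROT.F3.Nm

open Finset ComplexConjugate
open Pool.Agent.NTS.Res (step pos saw fug)
open Pool.Agent.ROT.F3.W8 (NC0 nc0m nc0m_nonneg alow)
open NTSF (om)
open HexObs.NTA (Xb)
open scoped ENNReal Classical

/-! ### 1. levels -/

lemma om_pow_re (a : Fin 3) : (om ^ (a : ℕ)).re = if a = 0 then 1 else -(1 / 2) := by
  have h1 := Pool.Agent.PMA.LimR.om_re
  have h2 := Pool.Agent.PMA.LimR.om_sq
  fin_cases a
  · show (om ^ 0).re = _
    rw [pow_zero, Complex.one_re]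
    simp
  · show (om ^ 1).re = _
    rw [pow_one, h1]
    norm_num
  · show (om ^ 2).re = _
    rw [h2, Complex.sub_re, Complex.neg_re, Complex.one_re, h1]
    norm_num

lemma step_re (i : ℕ) (a : Fin 3) : (step i a).re = (if Even i then 1 else -1) * if a = 0 then 1 else -(1 / 2) := by
  rw [Pool.Agent.PMA.LimR.step_om]
  rcases Nat.even_or_odd i with h | h
  · rw [h.neg_one_pow, one_mul, om_pow_re, if_pos h, one_mul]
  · rw [h.neg_one_pow, neg_one_mul, Complex.neg_re, om_pow_re, if_neg (Nat.not_even_iff_odd.2 h), neg_one_mul]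

lemma ps_succ_re {w : W3} {k : ℕ} (hk : k < w.length) : (ps w (k + 1)).re = (ps w k).re +
    (if Even k then 1 else -1) * if w.get ⟨k, hk⟩ = 0 then 1 else -(1 / 2) := by
  unfold ps
  rw [sum_range_succ, Complex.add_re, st_of_lt hk, step_re]

lemma re_ps (w : W3) : ∀ k : ℕ, k ≤ w.length → ∃ m : ℤ, (ps w k).re = 3 / 2 * m + if Even k then 0 else 1 := by
  intro k
  induction k with
  | zero =>
    intro _
    refine ⟨0, ?_⟩
    rw [ps_zero, if_pos Even.zero]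
    simp
  | succ k ih =>
    intro hk
    obtain ⟨m, hm⟩ := ih (by omega)
    rw [ps_succ_re (by omega), hm]
    rcases Nat.even_or_odd k with h | h
    · have h1 : ¬ Even (k + 1) := Nat.not_even_iff_odd.2 h.add_one
      rw [if_pos h, if_pos h, if_neg h1]
      split_ifs
      · exact ⟨m, by ring⟩
      · exact ⟨m - 1, by push_cast; ring⟩
    · have h1 : Even (k + 1) := h.add_one
      have h2 : ¬ Even k := Nat.not_even_iff_odd.2 h
      rw [if_neg h2, if_neg h2, if_pos h1]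
      split_ifs
      · exact ⟨m, by ring⟩
      · exact ⟨m + 1, by push_cast; ring⟩

/-- a level strictly above an even vertex is above by at least one -/
lemma re_gap {w : W3} {j i : ℕ} (hj : j ≤ w.length) (hi : i ≤ w.length) (he : Even j) (h : (ps w j).re < (ps w i).re) :
    (ps w j).re + 1 ≤ (ps w i).re := by
  obtain ⟨m, hm⟩ := re_ps w j hj
  obtain ⟨m', hm'⟩ := re_ps w i hi
  rw [if_pos he, add_zero] at hm
  rw [hm, hm'] at h ⊢
  split_ifs at h ⊢ with h1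
  · have h2 : (m : ℝ) < m' := by linarith
    have h3 : m + 1 ≤ m' := by exact_mod_cast h2
    have h4 : (m : ℝ) + 1 ≤ m' := by exact_mod_cast h3
    linarith
  · have h2 : (m : ℝ) < m' + 1 := by linarith
    have h3 : m < m' + 1 := by exact_mod_cast h2
    have h4 : (m : ℝ) ≤ m' := by exact_mod_cast (by omega : m ≤ m')
    linarith

lemma lv_one (z : ℂ) : lv 1 z = z.re := by
  unfold lv
  rw [map_one, one_mul]

/-- a start piece without cuts, as a tip piece -/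
lemma tn_of {k : ℕ} (hk : 0 < k) {s : Fin k → Fin 3} (hs : s ∈ saw k) {R M : ℝ} (h : NC0 R s k) (hM : (k : ℝ) ≤ M) :
    List.ofFn s ∈ TN 1 (2 * R) M := by
  obtain ⟨h1, h2, h3, h4⟩ := h
  have hen : en (List.ofFn s) = pos s k := by
    unfold en
    rw [List.length_ofFn, ps_ofFn]
  refine ⟨⟨by rw [List.length_ofFn]; exact h1, (SW_ofFn s).2 hs, by rw [List.length_ofFn]; exact hk, ?_, ?_⟩, ?_, ?_⟩
  · intro j hj
    rw [List.length_ofFn] at hj
    rw [lv_one, lv_one, ps_ofFn, hen]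
    exact h2 j hj
  · intro j hj
    rw [List.length_ofFn] at hj
    rw [ps_ofFn]
    have e1 := h3 j hj
    have e2 := h3 0 (Nat.zero_le _)
    have e3 : pos s 0 = 0 := NTSF.pos_zero s
    rw [e3, zero_sub, norm_neg] at e2
    have e4 : pos s j = (pos s j - pos s k) + pos s k := by ring
    rw [e4]
    linarith [norm_add_le (pos s j - pos s k) (pos s k)]
  · intro j he hj0 hj hc
    rw [List.length_ofFn] at hj
    refine h4 j ⟨Nat.zero_le _, hj, he, ?_, fun i _ hi => ?_, fun i hi hik => ?_⟩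
    · have e1 := hc.2 (j + 1) (Nat.lt_succ_self _) (by rw [List.length_ofFn]; omega)
      rw [lv_one, lv_one, ps_succ_re (by rw [List.length_ofFn]; exact hj), if_pos he, one_mul] at e1
      by_cases h5 : (List.ofFn s).get ⟨j, by rw [List.length_ofFn]; exact hj⟩ = 0
      · have e2 : ps (List.ofFn s) (j + 1) = ps (List.ofFn s) j + 1 := by
          unfold ps
          rw [sum_range_succ, st_of_lt (by rw [List.length_ofFn]; exact hj), h5, Pool.Agent.PMA.LimR.step_om, he.neg_one_pow]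
          simp
        rw [← ps_ofFn, ← ps_ofFn]
        exact e2
      · rw [if_neg h5] at e1
        linarith
    · have e1 := hc.1 i hi
      rw [lv_one, lv_one, ps_ofFn, ps_ofFn] at e1
      exact e1
    · have e1 := hc.2 i hi (by rw [List.length_ofFn]; exact hik)
      rw [lv_one, lv_one] at e1
      have e2 := re_gap (by rw [List.length_ofFn]; omega) (by rw [List.length_ofFn]; exact hik) he e1
      rw [ps_ofFn, ps_ofFn] at e2
      exact e2
  · rw [List.length_ofFn]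
    exact hM

/-! ### 2. the mass of the tip pieces -/

lemma nc0m_le (R M : ℝ) (m : ℕ) (hm : (m : ℝ) ≤ M) :
    ENNReal.ofReal (∑ k ∈ range (m + 1), nc0m R k) ≤ 1 + ms (TN 1 (2 * R) M) fun _ => 1 := by
  rw [sum_range_succ', ENNReal.ofReal_add (sum_nonneg fun k _ => nc0m_nonneg R _) (nc0m_nonneg R 0), add_comm]
  refine add_le_add ?_ ?_
  · unfold nc0m
    rw [pow_zero, mul_one, ← ENNReal.ofReal_one]
    refine ENNReal.ofReal_le_ofReal ?_
    have h3 : ((saw 0).filter fun s => NC0 R s 0).card ≤ (univ : Finset (Fin 0 → Fin 3)).card := card_le_card (subset_univ _)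
    rw [card_univ, Fintype.card_fun, Fintype.card_fin, Fintype.card_fin, pow_zero] at h3
    exact_mod_cast h3
  · unfold ms
    rw [tsum_len, ENNReal.ofReal_sum_of_nonneg fun k _ => nc0m_nonneg R _]
    refine le_trans ?_ (ENNReal.sum_le_tsum ((range m).image fun k => k + 1))
    rw [sum_image fun x _ y _ h => Nat.succ_injective h]
    refine sum_le_sum fun k hk => ?_
    have h1 : ∀ s ∈ (saw (k + 1)).filter fun s => NC0 R s (k + 1), (if List.ofFn s ∈ TN 1 (2 * R) M then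
        wx (List.ofFn s) * 1 else 0) = ENNReal.ofReal (fug ^ (k + 1)) := by
      intro s hs
      obtain ⟨h2, h3⟩ := mem_filter.1 hs
      have h4 : ((k + 1 : ℕ) : ℝ) ≤ M := by
        refine le_trans ?_ hm
        exact_mod_cast mem_range.1 hk
      rw [if_pos (tn_of (Nat.succ_pos _) h2 h3 h4), mul_one]
      unfold wx
      rw [List.length_ofFn, ENNReal.ofReal_pow fug_nn]
    calc ENNReal.ofReal (nc0m R (k + 1)) = ∑ s ∈ (saw (k + 1)).filter fun s => NC0 R s (k + 1),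
          (if List.ofFn s ∈ TN 1 (2 * R) M then wx (List.ofFn s) * 1 else 0) := by
          rw [sum_congr rfl h1, sum_const, nsmul_eq_mul]
          unfold nc0m
          rw [ENNReal.ofReal_mul (Nat.cast_nonneg _), ENNReal.ofReal_natCast]
      _ ≤ _ := sum_le_sum_of_subset (subset_univ _)

lemma lv_rot (a : Fin 3) (z : ℂ) : lv (ev a) ((rS a).L z) = lv 1 z := by
  rw [rS_L]
  unfold lv ev
  have h1 : conj (om ^ (a : ℕ)) * (om ^ (a : ℕ) * z) = z := by
    rw [← mul_assoc, mul_comm (conj (om ^ (a : ℕ))), Complex.mul_conj, Complex.normSq_eq_norm_sq, norm_pow, NTSF.om_norm]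
    simp
  rw [h1, map_one, one_mul]

lemma tn_mp (a : Fin 3) (r M : ℝ) (w : W3) : mp (rS a) w ∈ TN (ev a) r M ↔ w ∈ TN 1 r M := by
  have hen : en (mp (rS a) w) = (rS a).L (en w) := en_mp _ _
  have hc : ∀ k : ℕ, CutC (ev a) (mp (rS a) w) k ↔ CutC 1 w k := by
    intro k
    unfold CutC
    simp only [ps_mp, lv_rot, mp_length]
  constructor
  · rintro ⟨⟨h1, h2, h3, h4, h5⟩, h6, h7⟩
    rw [mp_length] at h1 h3 h7
    refine ⟨⟨h1, SW_mp.1 h2, h3, fun k hk => ?_, fun k hk => ?_⟩, fun k he h0 hk hc' => ?_, h7⟩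
    · have := h4 k (by rw [mp_length]; exact hk)
      rwa [ps_mp, hen, lv_rot, lv_rot] at this
    · have := h5 k (by rw [mp_length]; exact hk)
      rwa [ps_mp, LinearIsometryEquiv.norm_map] at this
    · exact h6 k he h0 (by rw [mp_length]; exact hk) ((hc k).2 hc')
  · rintro ⟨⟨h1, h2, h3, h4, h5⟩, h6, h7⟩
    refine ⟨⟨by rw [mp_length]; exact h1, SW_mp.2 h2, by rw [mp_length]; exact h3, fun k hk => ?_, fun k hk => ?_⟩,
      fun k he h0 hk hc' => ?_, by rw [mp_length]; exact h7⟩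
    · rw [mp_length] at hk
      rw [ps_mp, hen, lv_rot, lv_rot]
      exact h4 k hk
    · rw [mp_length] at hk
      rw [ps_mp, LinearIsometryEquiv.norm_map]
      exact h5 k hk
    · rw [mp_length] at hk
      exact h6 k he h0 hk ((hc k).1 hc')

lemma ms_tn (a : Fin 3) (r M : ℝ) : ms (TN (ev a) r M) (fun _ => 1) = ms (TN 1 r M) fun _ => 1 := by
  unfold ms
  rw [← tsum_mp (rS a)]
  refine tsum_congr fun w => ?_
  rw [wx_mp]
  by_cases h : w ∈ TN 1 r M
  · rw [if_pos ((tn_mp a r M w).2 h), if_pos h]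
  · rw [if_neg fun h' => h ((tn_mp a r M w).1 h'), if_neg h]

/-- **the mass of the tip pieces without cuts** -/
theorem tip_low : ∃ c r0 : ℝ, 0 < c ∧ 1 ≤ r0 ∧ ∀ r : ℝ, r0 ≤ r → ∀ a : Fin 3,
    ENNReal.ofReal (c * r ^ (25 / 48 : ℝ)) ≤ ms (TN (ev a) r (r ^ (4 / 3 : ℝ))) fun _ => 1 := by
  obtain ⟨c1, R0, hc1, h1⟩ := alow 1 one_pos
  obtain ⟨c2, hc2, h2⟩ := HexObs.TPC.xLow
  obtain ⟨c3, hc3⟩ : ∃ c3 : ℝ, c3 = Real.sqrt c2 := ⟨_, rfl⟩
  have hc30 : 0 < c3 := hc3 ▸ Real.sqrt_pos.2 hc2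
  have hX : ∀ k : ℕ, ENNReal.ofReal (c3 * (2 : ℝ) ^ (25 / 48 * (k : ℝ))) ≤ Xb k := by
    intro k
    have h3 := h2 k
    have h4 : c2 * (2 : ℝ) ^ (25 / 24 * (k : ℝ)) = (c3 * (2 : ℝ) ^ (25 / 48 * (k : ℝ))) ^ 2 := by
      rw [hc3, mul_pow, Real.sq_sqrt hc2.le, ← Real.rpow_natCast, ← Real.rpow_mul (by norm_num)]
      congr 2
      push_cast
      ring
    rw [h4, ENNReal.ofReal_pow (by positivity)] at h3
    exact (ENNReal.pow_le_pow_left_iff two_ne_zero).1 h3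
  obtain ⟨c4, hc4⟩ : ∃ c4 : ℝ, c4 = c1 * c3 / 2 := ⟨_, rfl⟩
  have hc40 : 0 < c4 := by rw [hc4]; positivity
  have hlim : Filter.Tendsto (fun r : ℝ => c4 / 2 * r ^ (25 / 48 : ℝ)) Filter.atTop Filter.atTop :=
    (tendsto_rpow_atTop (by norm_num : (0 : ℝ) < 25 / 48)).const_mul_atTop (by positivity)
  obtain ⟨r1, hr1⟩ := (hlim.eventually_ge_atTop 1).exists_forall_of_atTop
  refine ⟨c4 / 2, max (max r1 (2 * R0)) 4, by positivity, by
    refine le_trans ?_ (le_max_right _ _)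
    norm_num, fun r hr a => ?_⟩
  have hr4 : 4 ≤ r := (le_max_right _ _).trans hr
  have hr0 : 0 < r := by linarith
  have hrR : R0 ≤ r / 2 := by
    have := ((le_max_right _ _).trans (le_max_left _ _)).trans hr
    linarith
  have hrr : 1 ≤ c4 / 2 * r ^ (25 / 48 : ℝ) := hr1 r (((le_max_left _ _).trans (le_max_left _ _)).trans hr)
  rw [ms_tn]
  -- the scale
  obtain ⟨K, hK1, hK2⟩ : ∃ K : ℕ, (2 : ℝ) ^ K ≤ r ∧ r < 2 ^ (K + 1) := by
    have := exists_nat_pow_near (by linarith : 1 ≤ r) (one_lt_two (α := ℝ))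
    exact this
  obtain ⟨m, hm⟩ : ∃ m : ℕ, m = ⌊r ^ (4 / 3 : ℝ)⌋₊ := ⟨_, rfl⟩
  have hr43 : r ≤ r ^ (4 / 3 : ℝ) := by
    conv_lhs => rw [← Real.rpow_one r]
    exact Real.rpow_le_rpow_of_exponent_le (by linarith) (by norm_num)
  have hm1 : 1 * (r / 2) ^ (4 / 3 : ℝ) ≤ m := by
    have h3 := Nat.lt_floor_add_one (r ^ (4 / 3 : ℝ))
    rw [← hm] at h3
    have h4 : (r / 2) ^ (4 / 3 : ℝ) ≤ r ^ (4 / 3 : ℝ) / 2 := by
      rw [Real.div_rpow hr0.le (by norm_num)]
      refine div_le_div_of_nonneg_left (by positivity) (by norm_num) ?_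
      conv_lhs => rw [← Real.rpow_one (2 : ℝ)]
      exact Real.rpow_le_rpow_of_exponent_le (by norm_num) (by norm_num)
    linarith
  have hm2 : (m : ℝ) ≤ r ^ (4 / 3 : ℝ) := by
    rw [hm]
    exact Nat.floor_le (by positivity)
  have h3 := h1 (r / 2) hrR m hm1 K (by linarith)
  have h4 := nc0m_le (r / 2) (r ^ (4 / 3 : ℝ)) m hm2
  rw [show 2 * (r / 2) = r by ring] at h4
  have h5 : ENNReal.ofReal (c4 * r ^ (25 / 48 : ℝ)) ≤ ENNReal.ofReal c1 * Xb K := by
    refine le_trans ?_ (mul_le_mul_right (hX K) _)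
    rw [← ENNReal.ofReal_mul hc1.le]
    refine ENNReal.ofReal_le_ofReal ?_
    have h6 : r ^ (25 / 48 : ℝ) ≤ 2 * (2 : ℝ) ^ (25 / 48 * (K : ℝ)) := by
      calc r ^ (25 / 48 : ℝ) ≤ ((2 : ℝ) ^ (K + 1)) ^ (25 / 48 : ℝ) := Real.rpow_le_rpow hr0.le hK2.le (by norm_num)
        _ = (2 : ℝ) ^ (25 / 48 : ℝ) * (2 : ℝ) ^ (25 / 48 * (K : ℝ)) := by
            rw [← Real.rpow_natCast, ← Real.rpow_mul (by norm_num), ← Real.rpow_add (by norm_num)]
            congr 1
            push_cast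
            ring
        _ ≤ 2 * (2 : ℝ) ^ (25 / 48 * (K : ℝ)) := by
            refine mul_le_mul_of_nonneg_right ?_ (by positivity)
            conv_rhs => rw [← Real.rpow_one (2 : ℝ)]
            exact Real.rpow_le_rpow_of_exponent_le (by norm_num) (by norm_num)
    rw [hc4]
    calc c1 * c3 / 2 * r ^ (25 / 48 : ℝ) ≤ c1 * c3 / 2 * (2 * (2 : ℝ) ^ (25 / 48 * (K : ℝ))) :=
          mul_le_mul_of_nonneg_left h6 (by positivity)
      _ = c1 * (c3 * (2 : ℝ) ^ (25 / 48 * (K : ℝ))) := by ring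
  have h6 := h5.trans (h3.trans h4)
  have h7 : c4 * r ^ (25 / 48 : ℝ) = c4 / 2 * r ^ (25 / 48 : ℝ) + c4 / 2 * r ^ (25 / 48 : ℝ) := by ring
  rw [h7, ENNReal.ofReal_add (by positivity) (by positivity)] at h6
  have h8 : (1 : ℝ≥0∞) ≤ ENNReal.ofReal (c4 / 2 * r ^ (25 / 48 : ℝ)) := by
    rw [← ENNReal.ofReal_one]
    exact ENNReal.ofReal_le_ofReal hrr
  have h9 : 1 + ENNReal.ofReal (c4 / 2 * r ^ (25 / 48 : ℝ)) ≤ 1 + ms (TN 1 r (r ^ (4 / 3 : ℝ))) fun _ => 1 :=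
    (add_le_add h8 le_rfl).trans h6
  exact (ENNReal.add_le_add_iff_left ENNReal.one_ne_top).1 h9

/-- **the mass of the rests** -/
theorem beta_up : ∀ ρ δ B : ℝ, 0 < ρ → 0 < δ → 0 < B → ∃ C N0 : ℝ, 0 < C ∧ 1 ≤ N0 ∧ ∀ N : ℝ, N0 ≤ N → ∀ (i j : Fin 3) (Rs : Set W3),
    (∀ R ∈ Rs, RsC (ev i) (ev j) (ρ * N) (ρ * N) (δ * N) R ∧ (R.length : ℝ) ≤ B * N ^ (4 / 3 : ℝ)) →
      ms Rs (fun _ => 1) ≤ ENNReal.ofReal (C * N ^ (3 / 4 : ℝ)) := by
  intro ρ δ B hρ hδ hB
  obtain ⟨c, r0, hc, hr0, htip⟩ := tip_low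
  obtain ⟨C, hC, hsaw⟩ := saw_mass
  obtain ⟨q, hq⟩ : ∃ q : ℝ, q = min (ρ / 2) (δ / 5) := ⟨_, rfl⟩
  have hq0 : 0 < q := by rw [hq]; positivity
  have hq1 : q ≤ ρ / 2 := hq ▸ min_le_left _ _
  have hq2 : q ≤ δ / 5 := hq ▸ min_le_right _ _
  obtain ⟨E, hE⟩ : ∃ E : ℝ, E = 2 * q ^ (4 / 3 : ℝ) + B := ⟨_, rfl⟩
  have hE0 : 0 < E := by rw [hE]; positivity
  refine ⟨C * E ^ (43 / 32 : ℝ) / (c * q ^ (25 / 48 : ℝ)) ^ 2, max (r0 / q) (max 1 (1 / E)), by positivity,
    (le_max_left _ _).trans (le_max_right _ _), fun N hN i j Rs hRs => ?_⟩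
  have hN1 : 1 ≤ N := ((le_max_left _ _).trans (le_max_right _ _)).trans hN
  have hN0 : 0 < N := by linarith
  have hqN : r0 ≤ q * N := by
    have := (le_max_left _ _).trans hN
    rwa [div_le_iff₀' hq0] at this
  have hEN : 1 ≤ E * N ^ (4 / 3 : ℝ) := by
    have h1 := ((le_max_right _ _).trans (le_max_right _ _)).trans hN
    rw [div_le_iff₀' hE0] at h1
    have h2 : N ≤ N ^ (4 / 3 : ℝ) := by
      conv_lhs => rw [← Real.rpow_one N]
      exact Real.rpow_le_rpow_of_exponent_le hN1 (by norm_num)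
    exact h1.trans (mul_le_mul_of_nonneg_left h2 hE0.le)
  obtain ⟨M, hM⟩ : ∃ M : ℝ, M = (q * N) ^ (4 / 3 : ℝ) := ⟨_, rfl⟩
  have h1 := rest_le (d := ev i) (d' := ev j) (r := q * N) (r' := q * N) (r0 := ρ * N) (r0' := ρ * N) (D := δ * N) (M := M)
    (B := B * N ^ (4 / 3 : ℝ)) hRs (by nlinarith) (by nlinarith) (by nlinarith) (by positivity) (by positivity)
  have h2 := htip (q * N) hqN
  rw [← hM] at h2
  have h3 : 2 * M + B * N ^ (4 / 3 : ℝ) = E * N ^ (4 / 3 : ℝ) := by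
    rw [hM, hE, Real.mul_rpow hq0.le hN0.le]
    ring
  rw [h3] at h1
  have h4 := h1.trans (hsaw _ hEN)
  obtain ⟨α, hα⟩ : ∃ α : ℝ, α = c * (q * N) ^ (25 / 48 : ℝ) := ⟨_, rfl⟩
  have hα0 : 0 < α := by rw [hα]; positivity
  rw [← hα] at h2
  have h5 : ENNReal.ofReal α * (ms Rs (fun _ => 1) * ENNReal.ofReal α) ≤ ENNReal.ofReal (C * (E * N ^ (4 / 3 : ℝ)) ^ (43 / 32 : ℝ)) :=
    (mul_le_mul' (h2 i) (mul_le_mul' le_rfl (h2 j))).trans h4
  have h6 : ENNReal.ofReal α * (ms Rs (fun _ => 1) * ENNReal.ofReal α) = ENNReal.ofReal (α ^ 2) * ms Rs fun _ => 1 := by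
    rw [pow_two, ENNReal.ofReal_mul hα0.le]
    ring
  rw [h6] at h5
  have h7 : ms Rs (fun _ => 1) ≤ ENNReal.ofReal (C * (E * N ^ (4 / 3 : ℝ)) ^ (43 / 32 : ℝ)) / ENNReal.ofReal (α ^ 2) := by
    rw [ENNReal.le_div_iff_mul_le (Or.inl (by rw [Ne, ENNReal.ofReal_eq_zero, not_le]; positivity)) (Or.inl ENNReal.ofReal_ne_top),
      mul_comm]
    exact h5
  refine h7.trans ?_
  rw [← ENNReal.ofReal_div_of_pos (by positivity)]
  refine ENNReal.ofReal_le_ofReal (le_of_eq ?_)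
  have e1 : (E * N ^ (4 / 3 : ℝ)) ^ (43 / 32 : ℝ) = E ^ (43 / 32 : ℝ) * N ^ (43 / 24 : ℝ) := by
    rw [Real.mul_rpow hE0.le (by positivity), ← Real.rpow_mul hN0.le]
    norm_num
  have e2 : α ^ 2 = (c * q ^ (25 / 48 : ℝ)) ^ 2 * N ^ (25 / 24 : ℝ) := by
    rw [hα, Real.mul_rpow hq0.le hN0.le, ← mul_assoc, mul_pow, ← Real.rpow_natCast (N ^ (25 / 48 : ℝ)), ← Real.rpow_mul hN0.le]
    norm_num
  have e3 : N ^ (43 / 24 : ℝ) = N ^ (3 / 4 : ℝ) * N ^ (25 / 24 : ℝ) := by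
    rw [← Real.rpow_add hN0]
    norm_num
  rw [e1, e2, e3]
  have : N ^ (25 / 24 : ℝ) ≠ 0 := by positivity
  field_simp

end Pool.Agent.ROT.F3.Nm
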