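import Mathlib

/-!
# F3 (helper62): the limit measures of the rests are carried by good arcs

* **`good_lim`** : `b N` measures on `X` whose integrals of Lipschitz functions `≤ χ` converge to those of `β`, and for every `ε` a
  compact `S ⊆ G` such that the `b N`-mass of `{χ ≠ 0, dist (g x, S) ≥ η}` is at most `ε` for every `η` and late `N`; then
  `g x ∈ G` for `β`-almost every `x` with `χ x ≠ 0`;
* **`good_closed`** : closed conditions pass to the limit.
-/

set_option autoImplicit false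

open MeasureTheory Filter Topology Set
open scoped ENNReal NNReal

namespace Pool.Agent.ROT.F3

section

variable {X Y ι : Type*} [PseudoMetricSpace X] [MeasurableSpace X] [OpensMeasurableSpace X] [PseudoMetricSpace Y]

/-- the weight `χ x * min 1 (dist (g x, S) / η)` -/
noncomputable def gwt (χ : X → ℝ) (g : X → Y) (S : Set Y) (η : ℝ) (x : X) : ℝ := χ x * min 1 (Metric.infDist (g x) S / η)

omit [MeasurableSpace X] [OpensMeasurableSpace X] in
lemma gwt_lip {χ : X → ℝ} {g : X → Y} {K0 K1 : ℝ≥0} (hg : LipschitzWith K0 g) (hχ : LipschitzWith K1 χ)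
    (h0 : ∀ x, 0 ≤ χ x ∧ χ x ≤ 1) (S : Set Y) {η : ℝ} (hη : 0 < η) : ∃ K : ℝ≥0, LipschitzWith K (gwt χ g S η) := by
  have h1 : LipschitzWith (1 * K0) fun x => Metric.infDist (g x) S := (Metric.lipschitz_infDist_pt S).comp hg
  have h2 : ∀ x y, |min 1 (Metric.infDist (g x) S / η) - min 1 (Metric.infDist (g y) S / η)| ≤ K0 / η * dist x y := by
    intro x y
    have a := h1.dist_le_mul x y
    rw [one_mul, Real.dist_eq] at a
    calc |min 1 (Metric.infDist (g x) S / η) - min 1 (Metric.infDist (g y) S / η)|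
        ≤ |Metric.infDist (g x) S / η - Metric.infDist (g y) S / η| := by
          have := abs_min_sub_min_le_max 1 (Metric.infDist (g x) S / η) 1 (Metric.infDist (g y) S / η)
          rwa [sub_self, abs_zero, max_eq_right (abs_nonneg _)] at this
      _ = |Metric.infDist (g x) S - Metric.infDist (g y) S| / η := by
          rw [← sub_div, abs_div, abs_of_pos hη]
      _ ≤ K0 / η * dist x y := by
          rw [div_mul_eq_mul_div]
          exact div_le_div_of_nonneg_right a hη.le
  refine ⟨K1 + Real.toNNReal (K0 / η), LipschitzWith.of_dist_le_mul fun x y => ?_⟩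
  have h3 := hχ.dist_le_mul x y
  have m0 : ∀ x, 0 ≤ min 1 (Metric.infDist (g x) S / η) := fun x =>
    le_min zero_le_one (div_nonneg Metric.infDist_nonneg hη.le)
  have m1 : ∀ x, min 1 (Metric.infDist (g x) S / η) ≤ 1 := fun x => min_le_left _ _
  rw [NNReal.coe_add, Real.coe_toNNReal _ (by positivity), Real.dist_eq] at *
  unfold gwt
  have e : χ x * min 1 (Metric.infDist (g x) S / η) - χ y * min 1 (Metric.infDist (g y) S / η) =
      (χ x - χ y) * min 1 (Metric.infDist (g x) S / η) +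
      χ y * (min 1 (Metric.infDist (g x) S / η) - min 1 (Metric.infDist (g y) S / η)) := by ring
  rw [e, add_mul]
  refine (abs_add_le _ _).trans (add_le_add ?_ ?_)
  · rw [abs_mul, abs_of_nonneg (m0 x)]
    exact (mul_le_of_le_one_right (abs_nonneg _) (m1 x)).trans h3
  · rw [abs_mul, abs_of_nonneg (h0 y).1]
    exact (mul_le_of_le_one_left (abs_nonneg _) (h0 y).2).trans (h2 x y)

omit [PseudoMetricSpace X] [MeasurableSpace X] [OpensMeasurableSpace X] in
lemma gwt_nonneg {χ : X → ℝ} {g : X → Y} (h0 : ∀ x, 0 ≤ χ x) (S : Set Y) {η : ℝ} (hη : 0 < η) (x : X) :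
    0 ≤ gwt χ g S η x :=
  mul_nonneg (h0 x) (le_min zero_le_one (div_nonneg Metric.infDist_nonneg hη.le))

omit [PseudoMetricSpace X] [MeasurableSpace X] [OpensMeasurableSpace X] in
lemma gwt_le {χ : X → ℝ} {g : X → Y} (h0 : ∀ x, 0 ≤ χ x) (S : Set Y) (η : ℝ) (x : X) : gwt χ g S η x ≤ χ x :=
  mul_le_of_le_one_right (h0 x) (min_le_left _ _)

/-- **the limit is carried by good arcs** -/
theorem good_lim {l : Filter ι} [l.NeBot] {b : ι → Measure X} {β : Measure X} {g : X → Y} {K0 K1 : ℝ≥0}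
    (hg : LipschitzWith K0 g) {χ : X → ℝ} (hχ : LipschitzWith K1 χ) (h0 : ∀ x, 0 ≤ χ x ∧ χ x ≤ 1)
    (hβ : Integrable χ β) (hb : ∀ᶠ N in l, Integrable χ (b N))
    (hw : ∀ f : X → ℝ, (∀ x, 0 ≤ f x ∧ f x ≤ χ x) → (∃ K : ℝ≥0, LipschitzWith K f) →
      Tendsto (fun N => ∫ x, f x ∂(b N)) l (𝓝 (∫ x, f x ∂β)))
    {G : Set Y} (ht : ∀ ε : ℝ, 0 < ε → ∃ S : Set Y, IsClosed S ∧ S ⊆ G ∧ ∀ η : ℝ, 0 < η → ∀ᶠ N in l,
      b N {x | χ x ≠ 0 ∧ ∀ s ∈ S, η ≤ dist (g x) s} ≤ ENNReal.ofReal ε) :
    ∀ᵐ x ∂β, χ x ≠ 0 → g x ∈ G := by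
  -- for every `ε` the mass outside `S` is at most `ε`
  have key : ∀ ε : ℝ, 0 < ε → ∃ S : Set Y, IsClosed S ∧ S ⊆ G ∧ ∫⁻ x in (g ⁻¹' S)ᶜ, ENNReal.ofReal (χ x) ∂β ≤ ENNReal.ofReal ε := by
    intro ε hε
    obtain ⟨S, hS, hSG, hSη⟩ := ht ε hε
    rcases S.eq_empty_or_nonempty with hSe | hSn
    · -- no point at all
      refine ⟨S, hS, hSG, ?_⟩
      subst hSe
      have h1 : ∀ᶠ N in l, ∫ x, χ x ∂(b N) ≤ ε := by
        filter_upwards [hSη 1 one_pos, hb] with N h2 h3
        have h4 : ∫ x, χ x ∂(b N) = ENNReal.toReal (∫⁻ x, ENNReal.ofReal (χ x) ∂(b N)) :=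
          integral_eq_lintegral_of_nonneg_ae (Eventually.of_forall fun x => (h0 x).1) h3.aestronglyMeasurable
        rw [h4]
        refine ENNReal.toReal_le_of_le_ofReal hε.le (le_trans ?_ h2)
        have hms : MeasurableSet {x | χ x ≠ 0} := by
          have : IsOpen {x | χ x ≠ 0} := isOpen_ne_fun hχ.continuous continuous_const
          exact this.measurableSet
        calc ∫⁻ x, ENNReal.ofReal (χ x) ∂(b N) ≤ ∫⁻ x, {x | χ x ≠ 0}.indicator (fun _ => (1 : ℝ≥0∞)) x ∂(b N) := by
              refine lintegral_mono fun x => ?_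
              by_cases hx : χ x = 0
              · simp [hx]
              · rw [indicator_of_mem (show x ∈ {x | χ x ≠ 0} from hx)]
                exact ENNReal.ofReal_le_one.2 (h0 x).2
          _ = b N {x | χ x ≠ 0} := by rw [lintegral_indicator hms, setLIntegral_one]
          _ ≤ b N {x | χ x ≠ 0 ∧ ∀ s ∈ (∅ : Set Y), (1 : ℝ) ≤ dist (g x) s} :=
              measure_mono fun x hx => ⟨hx, fun s hs => absurd hs (notMem_empty s)⟩
      have h2 := hw χ (fun x => ⟨(h0 x).1, le_rfl⟩) ⟨K1, hχ⟩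
      have h3 : ∫ x, χ x ∂β ≤ ε := le_of_tendsto h2 h1
      rw [integral_eq_lintegral_of_nonneg_ae (Eventually.of_forall fun x => (h0 x).1) hβ.aestronglyMeasurable] at h3
      rw [preimage_empty, compl_empty, Measure.restrict_univ]
      refine (ENNReal.le_ofReal_iff_toReal_le ?_ hε.le).2 h3
      exact (hβ.lintegral_lt_top).ne
    -- the weights
    refine ⟨S, hS, hSG, ?_⟩
    have hχm : ∀ᶠ N in l, ∫ x, χ x ∂(b N) ≤ ∫ x, χ x ∂β + 1 :=
      (hw χ (fun x => ⟨(h0 x).1, le_rfl⟩) ⟨K1, hχ⟩).eventually_le_const (by linarith)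
    have h1 : ∀ η : ℝ, 0 < η → ∫ x, gwt χ g S η x ∂β ≤ ε := by
      intro η hη
      refine le_of_forall_pos_le_add fun δ hδ => ?_
      obtain ⟨C, hC⟩ : ∃ C : ℝ, C = ∫ x, χ x ∂β + 1 := ⟨_, rfl⟩
      have hC0 : 0 < C := by
        have : 0 ≤ ∫ x, χ x ∂β := integral_nonneg fun x => (h0 x).1
        rw [hC]
        linarith
      obtain ⟨η1, hη1, hη2⟩ : ∃ η1 : ℝ, 0 < η1 ∧ η1 / η * C ≤ δ := by
        refine ⟨δ * η / C, by positivity, le_of_eq ?_⟩
        field_simp
      have h2 := hw (gwt χ g S η) (fun x => ⟨gwt_nonneg (fun x => (h0 x).1) S hη x, gwt_le (fun x => (h0 x).1) S η x⟩)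
        (gwt_lip hg hχ h0 S hη)
      refine le_of_tendsto h2 ?_
      filter_upwards [hSη η1 hη1, hb, hχm] with N h3 h4 h5
      -- the pointwise bound
      obtain ⟨E, hE⟩ : ∃ E : Set X, E = {x | χ x ≠ 0 ∧ ∀ s ∈ S, η1 ≤ dist (g x) s} := ⟨_, rfl⟩
      have hEm : MeasurableSet E := by
        have e : E = {x | χ x ≠ 0} ∩ {x | η1 ≤ Metric.infDist (g x) S} := by
          rw [hE]
          ext x
          simp only [mem_ofPred_eq, mem_inter_iff]
          rw [Metric.le_infDist hSn]
          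
        rw [e]
        have c1 : IsOpen {x | χ x ≠ 0} := isOpen_ne_fun hχ.continuous continuous_const
        have c2 : IsClosed {x | η1 ≤ Metric.infDist (g x) S} :=
          isClosed_le continuous_const ((Metric.continuous_infDist_pt S).comp hg.continuous)
        exact c1.measurableSet.inter c2.measurableSet
      rw [← hE] at h3
      have h6 : ∀ x, gwt χ g S η x ≤ η1 / η * χ x + E.indicator (fun _ => (1 : ℝ)) x := by
        intro x
        by_cases hx : x ∈ E
        · rw [indicator_of_mem hx]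
          have := gwt_le (g := g) (fun x => (h0 x).1) S η x
          have h7 := (h0 x).2
          have h8 : 0 ≤ η1 / η * χ x := mul_nonneg (by positivity) (h0 x).1
          linarith
        · rw [indicator_of_notMem hx, add_zero]
          by_cases hx0 : χ x = 0
          · unfold gwt
            rw [hx0, zero_mul, mul_zero]
          · have h7 : Metric.infDist (g x) S < η1 := by
              by_contra h
              refine hx ?_
              rw [hE]
              exact ⟨hx0, (Metric.le_infDist hSn).1 (not_lt.1 h)⟩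
            unfold gwt
            rw [mul_comm (η1 / η)]
            refine mul_le_mul_of_nonneg_left ((min_le_right _ _).trans ?_) (h0 x).1
            exact div_le_div_of_nonneg_right h7.le hη.le
      have hbE : b N E ≠ ⊤ := (lt_of_le_of_lt h3 ENNReal.ofReal_lt_top).ne
      have i1 : Integrable (E.indicator fun _ => (1 : ℝ)) (b N) := by
        rw [integrable_indicator_iff hEm]
        exact integrableOn_const hbE
      have i2 : Integrable (fun x => η1 / η * χ x) (b N) := h4.const_mul _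
      have i3 : Integrable (gwt χ g S η) (b N) := by
        obtain ⟨K, hK⟩ := gwt_lip hg hχ h0 S hη
        refine h4.mono' hK.continuous.aestronglyMeasurable (Eventually.of_forall fun x => ?_)
        rw [Real.norm_eq_abs, abs_of_nonneg (gwt_nonneg (fun x => (h0 x).1) S hη x)]
        exact gwt_le (fun x => (h0 x).1) S η x
      calc ∫ x, gwt χ g S η x ∂(b N) ≤ ∫ x, (η1 / η * χ x + E.indicator (fun _ => (1 : ℝ)) x) ∂(b N) :=
            integral_mono i3 (i2.add i1) h6
        _ = η1 / η * ∫ x, χ x ∂(b N) + (b N E).toReal := by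
            rw [integral_add i2 i1, integral_const_mul, integral_indicator hEm, setIntegral_const, smul_eq_mul, mul_one]
            rfl
        _ ≤ η1 / η * C + ε := by
            refine add_le_add (mul_le_mul_of_nonneg_left (by rw [hC]; exact h5) (by positivity)) ?_
            exact ENNReal.toReal_le_of_le_ofReal hε.le h3
        _ ≤ ε + δ := by linarith
    -- the limit `η → 0`
    have h2 : ∀ m : ℕ, ∫⁻ x, ENNReal.ofReal (gwt χ g S (1 / ((m : ℝ) + 1)) x) ∂β ≤ ENNReal.ofReal ε := by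
      intro m
      have hm : (0 : ℝ) < 1 / ((m : ℝ) + 1) := by positivity
      have i3 : Integrable (gwt χ g S (1 / ((m : ℝ) + 1))) β := by
        obtain ⟨K, hK⟩ := gwt_lip hg hχ h0 S hm
        refine hβ.mono' hK.continuous.aestronglyMeasurable (Eventually.of_forall fun x => ?_)
        rw [Real.norm_eq_abs, abs_of_nonneg (gwt_nonneg (fun x => (h0 x).1) S hm x)]
        exact gwt_le (fun x => (h0 x).1) S _ x
      rw [← ofReal_integral_eq_lintegral_ofReal i3 (Eventually.of_forall fun x => gwt_nonneg (fun x => (h0 x).1) S hm x)]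
      exact ENNReal.ofReal_le_ofReal (h1 _ hm)
    have h3 : ∀ x, (g ⁻¹' S)ᶜ.indicator (fun x => ENNReal.ofReal (χ x)) x ≤
        liminf (fun m : ℕ => ENNReal.ofReal (gwt χ g S (1 / ((m : ℝ) + 1)) x)) atTop := by
      intro x
      by_cases hx : g x ∈ S
      · rw [indicator_of_notMem (by simpa using hx)]
        exact zero_le
      · rw [indicator_of_mem (show x ∈ (g ⁻¹' S)ᶜ from hx)]
        have hd : 0 < Metric.infDist (g x) S := (hS.notMem_iff_infDist_pos hSn).1 hx
        obtain ⟨m0, hm0⟩ := exists_nat_one_div_lt hd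
        have : ∀ᶠ m : ℕ in atTop, ENNReal.ofReal (χ x) = ENNReal.ofReal (gwt χ g S (1 / ((m : ℝ) + 1)) x) := by
          filter_upwards [eventually_ge_atTop m0] with m hm
          have h4 : 1 / ((m : ℝ) + 1) ≤ Metric.infDist (g x) S := by
            refine le_trans ?_ hm0.le
            gcongr
          have h5 : 1 ≤ Metric.infDist (g x) S / (1 / ((m : ℝ) + 1)) := by
            rw [le_div_iff₀ (by positivity), one_mul]
            exact h4
          unfold gwt
          rw [min_eq_left h5, mul_one]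
        rw [liminf_congr (this.mono fun m hm => hm.symm), liminf_const]
    rw [← lintegral_indicator (show MeasurableSet (g ⁻¹' S)ᶜ from (hS.preimage hg.continuous).isOpen_compl.measurableSet)]
    calc ∫⁻ x, (g ⁻¹' S)ᶜ.indicator (fun x => ENNReal.ofReal (χ x)) x ∂β
        ≤ ∫⁻ x, liminf (fun m : ℕ => ENNReal.ofReal (gwt χ g S (1 / ((m : ℝ) + 1)) x)) atTop ∂β := lintegral_mono h3
      _ ≤ liminf (fun m : ℕ => ∫⁻ x, ENNReal.ofReal (gwt χ g S (1 / ((m : ℝ) + 1)) x) ∂β) atTop := by
          refine lintegral_liminf_le fun m => ?_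
          obtain ⟨K, hK⟩ := gwt_lip hg hχ h0 S (show (0 : ℝ) < 1 / ((m : ℝ) + 1) by positivity)
          exact hK.continuous.measurable.ennreal_ofReal
      _ ≤ liminf (fun _ : ℕ => ENNReal.ofReal ε) atTop := liminf_le_liminf (Eventually.of_forall h2)
      _ = _ := liminf_const _
  -- countably many `ε`
  have h1 : ∀ m : ℕ, ∃ S : Set Y, IsClosed S ∧ S ⊆ G ∧
      ∫⁻ x in (g ⁻¹' S)ᶜ, ENNReal.ofReal (χ x) ∂β ≤ ENNReal.ofReal (1 / ((m : ℝ) + 1)) := fun m => key _ (by positivity)
  choose S hS hSG hSm using h1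
  obtain ⟨T, hT⟩ : ∃ T : Set X, T = ⋂ m, (g ⁻¹' S m)ᶜ := ⟨_, rfl⟩
  have hTm : MeasurableSet T := by
    rw [hT]
    exact MeasurableSet.iInter fun m => ((hS m).preimage hg.continuous).isOpen_compl.measurableSet
  have h2 : ∫⁻ x in T, ENNReal.ofReal (χ x) ∂β = 0 := by
    have h3 : ∀ m : ℕ, ∫⁻ x in T, ENNReal.ofReal (χ x) ∂β ≤ ENNReal.ofReal (1 / ((m : ℝ) + 1)) := by
      intro m
      refine le_trans (lintegral_mono' (Measure.restrict_mono ?_ le_rfl) le_rfl) (hSm m)
      rw [hT]
      exact iInter_subset _ m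
    have h4 : Tendsto (fun m : ℕ => ENNReal.ofReal (1 / ((m : ℝ) + 1))) atTop (𝓝 0) := by
      have := ENNReal.tendsto_ofReal (tendsto_one_div_add_atTop_nhds_zero_nat (𝕜 := ℝ))
      rwa [ENNReal.ofReal_zero] at this
    exact le_antisymm (ge_of_tendsto' h4 h3) zero_le
  rw [setLIntegral_eq_zero_iff hTm (by exact hχ.continuous.measurable.ennreal_ofReal)] at h2
  filter_upwards [h2] with x hx hx0
  by_contra hG
  have hxT : x ∈ T := by
    rw [hT, mem_iInter]
    intro m hm
    exact hG (hSG m hm)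
  have := hx hxT
  rw [ENNReal.ofReal_eq_zero] at this
  exact hx0 (le_antisymm this (h0 x).1)

/-- **closed conditions pass to the limit** -/
theorem good_closed {l : Filter ι} [l.NeBot] {b : ι → Measure X} {β : Measure X} {g : X → Y} {K0 K1 : ℝ≥0}
    (hg : LipschitzWith K0 g) {χ : X → ℝ} (hχ : LipschitzWith K1 χ) (h0 : ∀ x, 0 ≤ χ x ∧ χ x ≤ 1)
    (hβ : Integrable χ β) (hb : ∀ᶠ N in l, Integrable χ (b N))
    (hw : ∀ f : X → ℝ, (∀ x, 0 ≤ f x ∧ f x ≤ χ x) → (∃ K : ℝ≥0, LipschitzWith K f) →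
      Tendsto (fun N => ∫ x, f x ∂(b N)) l (𝓝 (∫ x, f x ∂β)))
    {C : Set Y} (hC : IsClosed C) (hN : ∀ η ε : ℝ, 0 < η → 0 < ε → ∀ᶠ N in l,
      b N {x | χ x ≠ 0 ∧ ∀ s ∈ C, η ≤ dist (g x) s} ≤ ENNReal.ofReal ε) :
    ∀ᵐ x ∂β, χ x ≠ 0 → g x ∈ C :=
  good_lim hg hχ h0 hβ hb hw fun ε hε => ⟨C, hC, subset_rfl, fun η hη => hN η ε hη hε⟩

end

end Pool.Agent.ROT.F3
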