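import Pool.Agent.ROT.F3Piece
import Pool.Agent.ROT.F3ExP
import Pool.Agent.ROT.F3Tight
import Pool.Agent.ROT.F3Good

/-!
# ROT / F3RestT (helper62): the rests of the walk classes are near a compact set of simple curves

* `piece_part` : the curve of a rest inside of a walk is a rescaled piece of the curve of the walk;
* **`rest_tight`** : (mass of the first tips) x (mass of the bad rests) x (mass of the last tips) is at most `ε` times the mass of all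
  walks with lengths in the window.
-/

set_option autoImplicit false

open MeasureTheory
open scoped ENNReal Classical

namespace Pool.Agent.ROT.F3

open Finset
open Pool.Agent.NTS.Res Pool.Agent.TSW

lemma ps_take_le (w : W3) {k m : ℕ} (h : k ≤ m) : ps (w.take m) k = ps w k := by
  rcases Nat.lt_or_ge m w.length with hm | hm
  · conv_rhs => rw [← List.take_append_drop m w]
    exact (ps_append_left (by rw [List.length_take]; omega)).symm
  · rw [List.take_of_length_le hm]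

lemma crv_take' (w : W3) {l m : ℕ} (h : l ≤ m) (d : ℝ) : crv (w.take m) l d = crv w l d := by
  unfold crv
  ext u
  show ps (w.take m) 0 / d + ∑ i ∈ range l, ((max 0 (min 1 ((u : ℝ) * l - i)) : ℝ) : ℂ) *
      (ps (w.take m) (i + 1) / d - ps (w.take m) i / d) =
    ps w 0 / d + ∑ i ∈ range l, ((max 0 (min 1 ((u : ℝ) * l - i)) : ℝ) : ℂ) * (ps w (i + 1) / d - ps w i / d)
  rw [ps_zero, ps_zero]
  congr 1
  refine sum_congr rfl fun i hi => ?_
  have := mem_range.1 hi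
  rw [ps_take_le w (show i + 1 ≤ m by omega), ps_take_le w (show i ≤ m by omega)]

theorem piece_part {n : ℕ} (s : Fin n → Fin 3) {i l : ℕ} (hi : Even i) (hl : i + l ≤ n) (hn : 1 ≤ n) {d : ℝ} (hd : 0 < d) :
    crv (((List.ofFn s).drop i).take l) l d = ((size n / d : ℝ) : ℂ) • part ((i : ℝ) / n) ((l : ℝ) / n) (curve s) := by
  have hn0 : (0 : ℝ) < n := by exact_mod_cast hn
  have hln : (i : ℝ) + l ≤ n := by exact_mod_cast hl
  have hi0 : (0 : ℝ) ≤ i := Nat.cast_nonneg i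
  have hl0 : (0 : ℝ) ≤ l := Nat.cast_nonneg l
  rw [crv_take' _ le_rfl]
  ext t
  have ht0 : (0 : ℝ) ≤ t := t.2.1
  have ht1 : (t : ℝ) ≤ 1 := t.2.2
  have htl : (t : ℝ) * l ≤ l := mul_le_of_le_one_left hl0 ht1
  obtain ⟨a, ha⟩ : ∃ a : unitInterval, (a : ℝ) = (i : ℝ) / n + l / n * t := by
    refine ⟨⟨(i : ℝ) / n + l / n * t, by positivity, ?_⟩, rfl⟩
    rw [← mul_div_right_comm, ← add_div, div_le_one hn0]
    nlinarith
  obtain ⟨b, hb⟩ : ∃ b : unitInterval, (b : ℝ) = (i : ℝ) / n :=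
    ⟨⟨(i : ℝ) / n, by positivity, by rw [div_le_one hn0]; linarith⟩, rfl⟩
  have h1 := crv_drop (w := List.ofFn s) (i := i) (j := i + l) (n := n) hi (by omega) hl (by rw [List.length_ofFn])
    (d := d) (s := size n) hd (NTSF.size_pos hn) t a b
    (by
      rw [ha, Nat.add_sub_cancel_left]
      field_simp) (by rw [hb, div_mul_cancel₀ _ hn0.ne'])
  rw [Nat.add_sub_cancel_left] at h1
  rw [h1, ← curve_ofFn]
  show _ = ((size n / d : ℝ) : ℂ) * part ((i : ℝ) / n) ((l : ℝ) / n) (curve s) t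
  rw [part_apply, ← ha, ← hb, Set.projIcc_val, Set.projIcc_val]

/-- a bad rest gives a bad piece -/
theorem bad_piece {n : ℕ} (s : Fin n → Fin 3) {i l : ℕ} (hi : Even i) (hl : i + l ≤ n) (hn : 1 ≤ n) {d c₀ l₀ l₁ η : ℝ}
    (hd : 0 < d) (hc : c₀ * n ≤ l) (h0 : l₀ ≤ size n / d) (h1 : size n / d ≤ l₁) {z : ℂ} (hz : ‖z‖ = 1)
    {S : Set C(unitInterval, ℂ)} (hR : ∀ x ∈ S, η ≤ dist (z • crv (((List.ofFn s).drop i).take l) l d) x) :
    ∃ q ∈ PieceP c₀ l₀ l₁, ∀ x ∈ S, η ≤ dist (q.1 • part q.2.1 q.2.2 (curve s)) x := by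
  have hn0 : (0 : ℝ) < n := by exact_mod_cast hn
  have hln : (i : ℝ) + l ≤ n := by exact_mod_cast hl
  have hi0 : (0 : ℝ) ≤ i := Nat.cast_nonneg i
  have hl0 : (0 : ℝ) ≤ l := Nat.cast_nonneg l
  have hsz : 0 < size n / d := div_pos (NTSF.size_pos hn) hd
  have hnorm : ‖z * ((size n / d : ℝ) : ℂ)‖ = size n / d := by
    rw [norm_mul, hz, one_mul, Complex.norm_real, Real.norm_eq_abs, abs_of_pos hsz]
  refine ⟨(z * ((size n / d : ℝ) : ℂ), (i : ℝ) / n, (l : ℝ) / n), ⟨?_, ?_, ?_, ?_, ?_, ?_, ?_⟩, fun x hx => ?_⟩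
  · show l₀ ≤ ‖z * ((size n / d : ℝ) : ℂ)‖
    rwa [hnorm]
  · show ‖z * ((size n / d : ℝ) : ℂ)‖ ≤ l₁
    rwa [hnorm]
  · show 0 ≤ (i : ℝ) / n
    positivity
  · show (i : ℝ) / n ≤ 1
    rw [div_le_one hn0]
    linarith
  · show c₀ ≤ |(l : ℝ) / n|
    rw [abs_of_nonneg (by positivity), le_div_iff₀ hn0]
    exact hc
  · show 0 ≤ (i : ℝ) / n + l / n
    positivity
  · show (i : ℝ) / n + l / n ≤ 1
    rw [← add_div, div_le_one hn0]
    exact hln
  · have h2 := hR x hx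
    rw [piece_part s hi hl hn hd, smul_smul] at h2
    exact h2

/-- **the mass of the bad rests** -/
theorem rest_tight {T Rs T' : Set W3} (hT : ∀ a ∈ T, Even a.length ∧ SW a) (hR : ∀ R ∈ Rs, Even R.length ∧ SW R)
    (hT' : ∀ b ∈ T', Even b.length ∧ SW b)
    (d1 : ∀ a ∈ T, ∀ R ∈ Rs, ∀ j k : ℕ, j < a.length → k ≤ R.length → ps a j ≠ en a + ps R k)
    (d2 : ∀ b ∈ T', ∀ R ∈ Rs, ∀ j k : ℕ, j < b.length → k ≤ R.length → ps b j ≠ en b + ps R.reverse k)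
    (d3 : ∀ a ∈ T, ∀ R ∈ Rs, ∀ b ∈ T', ∀ j k : ℕ, j < a.length → k < b.length → ps a j ≠ en a + en R + (ps b k - en b))
    {f F f' : W3 → ℝ} (hf : ∀ a, 0 ≤ f a) (hF : ∀ a, 0 ≤ F a) (hf' : ∀ a, 0 ≤ f' a)
    (hu : ∀ w, SW w → PhiW T Rs T' f F f' w ≤ 1)
    {n₁ n₂ : ℕ} (hn₁ : 1 ≤ n₁) {d c₀ l₀ l₁ η ε : ℝ} (hd : 0 < d) {z : ℂ} (hz : ‖z‖ = 1) {S : Set C(unitInterval, ℂ)}
    (hlen : ∀ a ∈ T, ∀ R ∈ Rs, ∀ b ∈ T', f a ≠ 0 → F R ≠ 0 → f' b ≠ 0 → n₁ ≤ a.length + R.length + b.length ∧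
      a.length + R.length + b.length ≤ n₂ ∧ c₀ * ((a.length + R.length + b.length : ℕ) : ℝ) ≤ R.length)
    (hfar : ∀ R ∈ Rs, F R ≠ 0 → ∀ x ∈ S, η ≤ dist (z • crv R R.length d) x)
    (hsz : ∀ n : ℕ, n₁ ≤ n → n ≤ n₂ → l₀ ≤ size n / d ∧ size n / d ≤ l₁)
    (hcard : ∀ n : ℕ, n₁ ≤ n → n ≤ n₂ → ∀ B : Finset (Fin n → Fin 3), B ⊆ saw n →
      (∀ s ∈ B, ∃ q ∈ PieceP c₀ l₀ l₁, ∀ x ∈ S, η ≤ dist (q.1 • part q.2.1 q.2.2 (curve s)) x) →
        (B.card : ℝ) ≤ ε * ((saw n).card : ℝ)) :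
    ms T (fun a => ENNReal.ofReal (f a)) * (ms Rs (fun a => ENNReal.ofReal (F a)) * ms T' fun a => ENNReal.ofReal (f' a)) ≤
      ∑ n ∈ Icc n₁ n₂, ENNReal.ofReal (ε * (fug ^ n * ((saw n).card : ℝ))) := by
  rw [← exW_ofReal hT hR hT' d1 d2 d3 hf hF hf']
  -- a word with a mark
  have key : ∀ (n : ℕ) (s : Fin n → Fin 3), PhiW T Rs T' f F f' (List.ofFn s) ≠ 0 → ∃ k l : ℕ, k + l ≤ n ∧
      (List.ofFn s).take k ∈ T ∧ ((List.ofFn s).drop k).take l ∈ Rs ∧ ((List.ofFn s).drop (k + l)).reverse ∈ T' ∧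
      f ((List.ofFn s).take k) ≠ 0 ∧ F (((List.ofFn s).drop k).take l) ≠ 0 ∧
      f' ((List.ofFn s).drop (k + l)).reverse ≠ 0 := by
    intro n s h
    unfold PhiW at h
    obtain ⟨k, hk, h1⟩ := Finset.exists_ne_zero_of_sum_ne_zero h
    obtain ⟨l, hl, h2⟩ := Finset.exists_ne_zero_of_sum_ne_zero h1
    rw [mem_range, List.length_ofFn] at hk hl
    by_cases h3 : (List.ofFn s).take k ∈ T ∧ ((List.ofFn s).drop k).take l ∈ Rs ∧ ((List.ofFn s).drop (k + l)).reverse ∈ T'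
    · rw [if_pos h3] at h2
      have h4 := left_ne_zero_of_mul h2
      have h5 := right_ne_zero_of_mul h2
      exact ⟨k, l, by omega, h3.1, h3.2.1, h3.2.2, h4, left_ne_zero_of_mul h5, right_ne_zero_of_mul h5⟩
    · rw [if_neg h3] at h2
      exact absurd rfl h2
  have len : ∀ (n : ℕ) (s : Fin n → Fin 3), PhiW T Rs T' f F f' (List.ofFn s) ≠ 0 → ∃ k l : ℕ, k + l ≤ n ∧ Even k ∧
      n₁ ≤ n ∧ n ≤ n₂ ∧ c₀ * (n : ℝ) ≤ l ∧ ∀ x ∈ S, η ≤ dist (z • crv (((List.ofFn s).drop k).take l) l d) x := by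
    intro n s h
    obtain ⟨k, l, hkl, a1, a2, a3, a4, a5, a6⟩ := key n s h
    have e1 : ((List.ofFn s).take k).length = k := by rw [List.length_take, List.length_ofFn]; omega
    have e2 : (((List.ofFn s).drop k).take l).length = l := by rw [List.length_take, List.length_drop, List.length_ofFn]; omega
    have e3 : ((List.ofFn s).drop (k + l)).reverse.length = n - (k + l) := by
      rw [List.length_reverse, List.length_drop, List.length_ofFn]
    have h1 := hlen _ a1 _ a2 _ a3 a4 a5 a6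
    rw [e1, e2, e3, show k + l + (n - (k + l)) = n by omega] at h1
    have h2 := hfar _ a2 a5
    rw [e2] at h2
    have h3 := (hT _ a1).1
    rw [e1] at h3
    exact ⟨k, l, hkl, h3, h1.1, h1.2.1, h1.2.2, h2⟩
  rw [tsum_eq_sum (s := Icc n₁ n₂)]
  · refine sum_le_sum fun n hn => ENNReal.ofReal_le_ofReal ?_
    obtain ⟨hn1, hn2⟩ := mem_Icc.1 hn
    have h1 : ∑ s ∈ saw n, PhiW T Rs T' f F f' (List.ofFn s) ≤
        (((saw n).filter fun s => PhiW T Rs T' f F f' (List.ofFn s) ≠ 0).card : ℝ) := by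
      rw [card_filter]
      push_cast
      refine sum_le_sum fun s hs => ?_
      by_cases h : PhiW T Rs T' f F f' (List.ofFn s) = 0
      · rw [h]
        split_ifs <;> norm_num
      · rw [if_pos h]
        refine hu _ ?_
        exact (SW_ofFn s).2 hs
    have h2 := hcard n hn1 hn2 ((saw n).filter fun s => PhiW T Rs T' f F f' (List.ofFn s) ≠ 0) (filter_subset _ _) fun s hs => by
      obtain ⟨k, l, b1, b2, b3, b4, b5, b6⟩ := len n s (mem_filter.1 hs).2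
      exact bad_piece s b2 b1 (hn₁.trans hn1) hd b5 (hsz n hn1 hn2).1 (hsz n hn1 hn2).2 hz b6
    calc fug ^ n * ∑ s ∈ saw n, PhiW T Rs T' f F f' (List.ofFn s) ≤ fug ^ n * (ε * ((saw n).card : ℝ)) :=
          mul_le_mul_of_nonneg_left (h1.trans h2) (pow_nonneg fug_nn _)
      _ = ε * (fug ^ n * ((saw n).card : ℝ)) := by ring
  · intro n hn
    have : ∑ s ∈ saw n, PhiW T Rs T' f F f' (List.ofFn s) = 0 := by
      refine sum_eq_zero fun s _ => ?_
      by_contra h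
      obtain ⟨k, l, -, -, b3, b4, -⟩ := len n s h
      exact hn (mem_Icc.2 ⟨b3, b4⟩)
    rw [this, mul_zero, ENNReal.ofReal_zero]

end Pool.Agent.ROT.F3
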