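import Pool.Agent.ROT.F3BetaA
import Pool.Agent.ROT.F3NormT
import Pool.Agent.ROT.F3RestT
import Pool.Agent.ROT.F3MidW
import Pool.Agent.ROT.F3ClsG

/-!
# ROT / F3Beta (helper56): the limits of the measures of the rests

* `div_tips` : from a bound of tips x rests x tips to the rests; `beta_short` : rests with few letters;
* **`beta_near`** : the curves of the rests are near a compact set of simple curves, off a small mass;
* **`beta_lim`** : the limit of the laws of (curve, duration) along an ultrafilter.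
-/

set_option autoImplicit false

open MeasureTheory Filter Topology
open scoped ENNReal NNReal Classical BoundedContinuousFunction

namespace Pool.Agent.ROT.F3.Bt

open Finset
open Nm
open Pool.Agent.NTS.Res (step pos saw fug size curve)
open Pool.Agent.TSW

/-- **division by the two tips** -/
theorem div_tips : ∃ c r0 : ℝ, 0 < c ∧ 1 ≤ r0 ∧ ∀ q N : ℝ, 0 < q → 0 < N → r0 ≤ q * N → ∀ (i j : Fin 3) (X : ℝ≥0∞) (Y : ℝ),
    ms (Nm.TN (ev i) (q * N) ((q * N) ^ (4 / 3 : ℝ))) (fun _ => 1) * (X * ms (Nm.TN (ev j) (q * N) ((q * N) ^ (4 / 3 : ℝ))) fun _ => 1) ≤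
      ENNReal.ofReal (Y * N ^ (43 / 24 : ℝ)) → X ≤ ENNReal.ofReal (Y / (c * q ^ (25 / 24 : ℝ)) * N ^ (3 / 4 : ℝ)) := by
  obtain ⟨c, r0, hc, hr0, htip⟩ := tip_low
  refine ⟨c ^ 2, r0, by positivity, hr0, fun q N hq hN hqN i j X Y h => ?_⟩
  have h2 := htip (q * N) hqN
  obtain ⟨α, hα⟩ : ∃ α : ℝ, α = c * (q * N) ^ (25 / 48 : ℝ) := ⟨_, rfl⟩
  have hα0 : 0 < α := by rw [hα]; positivity
  rw [← hα] at h2
  have h5 : ENNReal.ofReal α * (X * ENNReal.ofReal α) ≤ ENNReal.ofReal (Y * N ^ (43 / 24 : ℝ)) :=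
    (mul_le_mul' (h2 i) (mul_le_mul' le_rfl (h2 j))).trans h
  have h6 : ENNReal.ofReal α * (X * ENNReal.ofReal α) = ENNReal.ofReal (α ^ 2) * X := by
    rw [pow_two, ENNReal.ofReal_mul hα0.le]
    ring
  rw [h6] at h5
  have h7 : X ≤ ENNReal.ofReal (Y * N ^ (43 / 24 : ℝ)) / ENNReal.ofReal (α ^ 2) := by
    rw [ENNReal.le_div_iff_mul_le (Or.inl (by rw [Ne, ENNReal.ofReal_eq_zero, not_le]; positivity)) (Or.inl ENNReal.ofReal_ne_top),
      mul_comm]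
    exact h5
  refine h7.trans ?_
  rw [← ENNReal.ofReal_div_of_pos (by positivity)]
  refine ENNReal.ofReal_le_ofReal (le_of_eq ?_)
  have e2 : α ^ 2 = c ^ 2 * q ^ (25 / 24 : ℝ) * N ^ (25 / 24 : ℝ) := by
    rw [hα, Real.mul_rpow hq.le hN.le, mul_pow, mul_pow, ← Real.rpow_natCast (q ^ (25 / 48 : ℝ)), ← Real.rpow_mul hq.le,
      ← Real.rpow_natCast (N ^ (25 / 48 : ℝ)), ← Real.rpow_mul hN.le]
    norm_num
    ring
  have e3 : N ^ (43 / 24 : ℝ) = N ^ (3 / 4 : ℝ) * N ^ (25 / 24 : ℝ) := by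
    rw [← Real.rpow_add hN]
    norm_num
  rw [e2, e3]
  have : N ^ (25 / 24 : ℝ) ≠ 0 := by positivity
  have : q ^ (25 / 24 : ℝ) ≠ 0 := by positivity
  field_simp

/-- **rests with few letters** -/
theorem beta_short : ∀ ρ δ ε : ℝ, 0 < ρ → 0 < δ → 0 < ε → ∃ η N0 : ℝ, 0 < η ∧ 1 ≤ N0 ∧ ∀ N : ℝ, N0 ≤ N → ∀ (i j : Fin 3) (Rs : Set W3),
    (∀ R ∈ Rs, RsC (ev i) (ev j) (ρ * N) (ρ * N) (δ * N) R ∧ (R.length : ℝ) ≤ η * N ^ (4 / 3 : ℝ)) →
      ms Rs (fun _ => 1) ≤ ENNReal.ofReal (ε * N ^ (3 / 4 : ℝ)) := by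
  intro ρ δ ε hρ hδ hε
  obtain ⟨c, r0, hc, hr0, hdiv⟩ := div_tips
  obtain ⟨C, hC, hsaw⟩ := saw_mass
  obtain ⟨q1, hq1⟩ : ∃ q1 : ℝ, q1 = min (ρ / 2) (δ / 5) := ⟨_, rfl⟩
  have hq10 : 0 < q1 := by rw [hq1]; positivity
  obtain ⟨A, hA⟩ : ∃ A : ℝ, A = C * (3 : ℝ) ^ (43 / 32 : ℝ) / c := ⟨_, rfl⟩
  have hA0 : 0 < A := by rw [hA]; positivity
  obtain ⟨q, hq⟩ : ∃ q : ℝ, q = min q1 ((ε / A) ^ (4 / 3 : ℝ)) := ⟨_, rfl⟩
  have hq0 : 0 < q := by rw [hq]; positivity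
  have hqa : q ≤ ρ / 2 := (hq ▸ min_le_left _ _ : q ≤ q1).trans (hq1 ▸ min_le_left _ _)
  have hqb : q ≤ δ / 5 := (hq ▸ min_le_left _ _ : q ≤ q1).trans (hq1 ▸ min_le_right _ _)
  have hqc : A * q ^ (3 / 4 : ℝ) ≤ ε := by
    have h1 : q ^ (3 / 4 : ℝ) ≤ ((ε / A) ^ (4 / 3 : ℝ)) ^ (3 / 4 : ℝ) := Real.rpow_le_rpow hq0.le (hq ▸ min_le_right _ _) (by norm_num)
    rw [← Real.rpow_mul (by positivity)] at h1
    norm_num at h1
    calc A * q ^ (3 / 4 : ℝ) ≤ A * (ε / A) := mul_le_mul_of_nonneg_left h1 hA0.le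
      _ = ε := by field_simp
  refine ⟨q ^ (4 / 3 : ℝ), max (r0 / q) (max 1 (1 / (3 * q ^ (4 / 3 : ℝ)))), by positivity,
    (le_max_left _ _).trans (le_max_right _ _), fun N hN i j Rs hRs => ?_⟩
  have hN1 : 1 ≤ N := ((le_max_left _ _).trans (le_max_right _ _)).trans hN
  have hN0 : 0 < N := by linarith
  have hqN : r0 ≤ q * N := by
    have := (le_max_left _ _).trans hN
    rwa [div_le_iff₀' hq0] at this
  have hEN : 1 ≤ 3 * q ^ (4 / 3 : ℝ) * N ^ (4 / 3 : ℝ) := by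
    have h1 := ((le_max_right _ _).trans (le_max_right _ _)).trans hN
    rw [div_le_iff₀' (by positivity)] at h1
    have h2 : N ≤ N ^ (4 / 3 : ℝ) := by
      conv_lhs => rw [← Real.rpow_one N]
      exact Real.rpow_le_rpow_of_exponent_le hN1 (by norm_num)
    exact h1.trans (mul_le_mul_of_nonneg_left h2 (by positivity))
  have h1 := rest_le (d := ev i) (d' := ev j) (r := q * N) (r' := q * N) (r0 := ρ * N) (r0' := ρ * N) (D := δ * N)
    (M := (q * N) ^ (4 / 3 : ℝ)) (B := q ^ (4 / 3 : ℝ) * N ^ (4 / 3 : ℝ)) hRs (by nlinarith) (by nlinarith) (by nlinarith)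
    (by positivity) (by positivity)
  have h3 : 2 * (q * N) ^ (4 / 3 : ℝ) + q ^ (4 / 3 : ℝ) * N ^ (4 / 3 : ℝ) = 3 * q ^ (4 / 3 : ℝ) * N ^ (4 / 3 : ℝ) := by
    rw [Real.mul_rpow hq0.le hN0.le]
    ring
  rw [h3] at h1
  have h4 := h1.trans (hsaw _ hEN)
  have e1 : C * (3 * q ^ (4 / 3 : ℝ) * N ^ (4 / 3 : ℝ)) ^ (43 / 32 : ℝ) =
      C * (3 : ℝ) ^ (43 / 32 : ℝ) * q ^ (43 / 24 : ℝ) * N ^ (43 / 24 : ℝ) := by
    rw [Real.mul_rpow (by positivity) (by positivity), Real.mul_rpow (by norm_num) (by positivity), ← Real.rpow_mul hN0.le,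
      ← Real.rpow_mul hq0.le]
    norm_num
    ring
  rw [e1] at h4
  refine (hdiv q N hq0 hN0 hqN i j _ _ h4).trans (ENNReal.ofReal_le_ofReal (mul_le_mul_of_nonneg_right ?_ (by positivity)))
  refine le_trans (le_of_eq ?_) hqc
  have e3 : q ^ (43 / 24 : ℝ) = q ^ (3 / 4 : ℝ) * q ^ (25 / 24 : ℝ) := by
    rw [← Real.rpow_add hq0]
    norm_num
  rw [e3, hA]
  have : q ^ (25 / 24 : ℝ) ≠ 0 := by positivity
  field_simp

/-- a double sum with at most one term, real -/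
lemma sum_oneR {n : ℕ} {g : ℕ → ℕ} {P : ℕ → ℕ → Prop} [∀ k l, Decidable (P k l)]
    (h : ∀ k l k' l', k < n → l < g k → k' < n → l' < g k' → P k l → P k' l' → k = k' ∧ l = l') :
    ∑ k ∈ range n, ∑ l ∈ range (g k), (if P k l then (1 : ℝ) else 0) ≤ 1 := by
  by_cases hx : ∃ k l, k < n ∧ l < g k ∧ P k l
  · obtain ⟨k0, l0, hk0, hl0, hP⟩ := hx
    rw [sum_eq_single_of_mem k0 (mem_range.2 hk0) fun k hk hne => sum_eq_zero fun l hl => if_neg fun h1 =>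
      hne (h k l k0 l0 (mem_range.1 hk) (mem_range.1 hl) hk0 hl0 h1 hP).1,
      sum_eq_single_of_mem l0 (mem_range.2 hl0) fun l hl hne => if_neg fun h1 =>
      hne (h k0 l k0 l0 hk0 (mem_range.1 hl) hk0 hl0 h1 hP).2, if_pos hP]
  · rw [sum_eq_zero fun k hk => sum_eq_zero fun l hl => if_neg fun h1 => hx ⟨k, l, mem_range.1 hk, mem_range.1 hl, h1⟩]
    exact zero_le_one

/-- the marks of the tips without cuts are unique -/
lemma phi_le {d d' : ℂ} {r r' r0 r0' D M : ℝ} {Rs : Set W3} (hR : ∀ R ∈ Rs, RsC d d' r0 r0' D R)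
    (h0 : 2 * r ≤ r0) (h0' : 2 * r' ≤ r0') (hD : 2 * (r + r') < D) (hr : 0 ≤ r) (hr' : 0 ≤ r') (w : W3) :
    PhiW (Nm.TN d r M) Rs (Nm.TN d' r' M) (fun _ => 1) (fun _ => 1) (fun _ => 1) w ≤ 1 := by
  unfold PhiW
  simp only [mul_one]
  refine sum_oneR fun k l k' l' hk hl hk' hl' h1 h2 => ?_
  obtain ⟨a1, a2, a3⟩ := h1
  obtain ⟨b1, b2, b3⟩ := h2
  have e1 : w.take k ++ ((w.drop k).take l ++ w.drop (k + l)) = w := by
    rw [← List.drop_drop, List.take_append_drop, List.take_append_drop]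
  have e2 : w.take k' ++ ((w.drop k').take l' ++ w.drop (k' + l')) = w := by
    rw [← List.drop_drop, List.take_append_drop, List.take_append_drop]
  have c1 := hR _ a2
  have c2 := hR _ b2
  have h3 := nc_unique a1.1 b1.1 a1.2.1 b1.2.1 c1.s c2.s c1.ev c2.ev h0 (by linarith) c1.far c2.far (e1.trans e2.symm)
  have h4 : k = k' := by
    have := congrArg List.length h3
    rw [List.length_take, List.length_take] at this
    omega
  have e3 : (w.drop (k + l)).reverse ++ (((w.drop k).take l).reverse ++ (w.take k).reverse) = w.reverse := by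
    rw [← List.reverse_append, ← List.reverse_append, List.append_assoc, e1]
  have e4 : (w.drop (k' + l')).reverse ++ (((w.drop k').take l').reverse ++ (w.take k').reverse) = w.reverse := by
    rw [← List.reverse_append, ← List.reverse_append, List.append_assoc, e2]
  have f1 : D ≤ ‖en ((w.drop k).take l).reverse‖ := by
    rw [en_reverse c1.ev, norm_neg]
    exact c1.far
  have f2 : D ≤ ‖en ((w.drop k').take l').reverse‖ := by
    rw [en_reverse c2.ev, norm_neg]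
    exact c2.far
  have h5 := nc_unique a3.1 b3.1 a3.2.1 b3.2.1 c1.e c2.e (by rw [List.length_reverse]; exact c1.ev)
    (by rw [List.length_reverse]; exact c2.ev) h0' (by linarith) f1 f2 (e3.trans e4.symm)
  refine ⟨h4, ?_⟩
  have := congrArg List.length h5
  rw [List.length_reverse, List.length_reverse, List.length_drop, List.length_drop] at this
  omega

lemma ms_split (A B : Set W3) (f : W3 → ℝ≥0∞) : ms (A ∪ B) f ≤ ms A f + ms B f := by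
  unfold ms
  rw [← ENNReal.tsum_add]
  refine ENNReal.tsum_le_tsum fun w => ?_
  by_cases h1 : w ∈ A
  · rw [if_pos (Set.mem_union_left _ h1), if_pos h1]
    exact le_self_add
  · by_cases h2 : w ∈ B
    · rw [if_pos (Set.mem_union_right _ h2), if_pos h2]
      exact le_add_self
    · rw [if_neg fun h => h.elim h1 h2]
      exact zero_le

lemma ms_subset {A B : Set W3} (h : A ⊆ B) (f : W3 → ℝ≥0∞) : ms A f ≤ ms B f := by
  unfold ms
  refine ENNReal.tsum_le_tsum fun w => ?_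
  by_cases h1 : w ∈ A
  · rw [if_pos h1, if_pos (h h1)]
  · rw [if_neg h1]
    exact zero_le

/-- **the curves of the rests are near a compact set of simple curves** -/
theorem beta_near : ∀ ρ δ B K ε : ℝ, 0 < ρ → 0 < δ → 0 < B → 1 ≤ K → 0 < ε → ∃ S : Set C(unitInterval, ℂ), IsCompact S ∧
    (∀ γ ∈ S, Function.Injective γ ∧ γ 0 = 0) ∧ ∀ η : ℝ, 0 < η → ∃ N0 : ℝ, 1 ≤ N0 ∧ ∀ N : ℝ, N0 ≤ N → ∀ d : ℝ, N / K ≤ d → d ≤ K * N →
      ∀ z : ℂ, ‖z‖ = 1 → ∀ (i j : Fin 3) (Rs : Set W3),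
        (∀ R ∈ Rs, RsC (ev i) (ev j) (ρ * N) (ρ * N) (δ * N) R ∧ (R.length : ℝ) ≤ B * N ^ (4 / 3 : ℝ)) →
        (∀ R ∈ Rs, ∀ x ∈ S, η ≤ dist (z • crv R R.length d) x) →
        ms Rs (fun _ => 1) ≤ ENNReal.ofReal (ε * N ^ (3 / 4 : ℝ)) := by
  intro ρ δ B K ε hρ hδ hB hK hε
  obtain ⟨c, r0, hc, hr0, hdiv⟩ := div_tips
  obtain ⟨η1, N1, hη1, hN1, hsh⟩ := beta_short ρ δ (ε / 2) hρ hδ (by positivity)
  obtain ⟨c1, C1, hc1, hC1, hsz⟩ := F.size_bd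
  obtain ⟨_, C3, _, hC3, haN⟩ := CRT.Mass.aN_bounds
  obtain ⟨q, hq⟩ : ∃ q : ℝ, q = min (ρ / 2) (δ / 5) := ⟨_, rfl⟩
  have hq0 : 0 < q := by rw [hq]; positivity
  have hqa : q ≤ ρ / 2 := hq ▸ min_le_left _ _
  have hqb : q ≤ δ / 5 := hq ▸ min_le_right _ _
  obtain ⟨E, hE⟩ : ∃ E : ℝ, E = 2 * q ^ (4 / 3 : ℝ) + B := ⟨_, rfl⟩
  have hE0 : 0 < E := by rw [hE]; positivity
  obtain ⟨ε', hε'⟩ : ∃ ε' : ℝ, ε' = ε / 2 * (c * q ^ (25 / 24 : ℝ)) / (C3 * E ^ (43 / 32 : ℝ)) := ⟨_, rfl⟩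
  have hε'0 : 0 < ε' := by rw [hε']; positivity
  obtain ⟨l₀, hl₀⟩ : ∃ l₀ : ℝ, l₀ = c1 * η1 ^ (3 / 4 : ℝ) / K := ⟨_, rfl⟩
  obtain ⟨l₁, hl₁⟩ : ∃ l₁ : ℝ, l₁ = C1 * E ^ (3 / 4 : ℝ) * K := ⟨_, rfl⟩
  have hK0 : 0 < K := by linarith
  have hl₀0 : 0 < l₀ := by rw [hl₀]; positivity
  obtain ⟨S, hS, hSi, hSη⟩ := piece_card (l₁ := l₁) hε'0 (show 0 < η1 / E by positivity) hl₀0
  refine ⟨S, hS, hSi, fun η hη => ?_⟩
  obtain ⟨n0, hn0⟩ := hSη η hη
  refine ⟨max N1 (max (r0 / q) (max 1 (max ((n0 + 1) / η1) (1 / η1)))), hN1.trans (le_max_left _ _),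
    fun N hN d hd1 hd2 z hz i j Rs hRs hfar => ?_⟩
  have hNN1 := (le_max_left _ _).trans hN
  have hN2 := (le_max_right _ _).trans hN
  have hqN : r0 ≤ q * N := by
    have := (le_max_left _ _).trans hN2
    rwa [div_le_iff₀' hq0] at this
  have hN3 := (le_max_right _ _).trans hN2
  have hN1' : 1 ≤ N := (le_max_left _ _).trans hN3
  have hN4 := (le_max_right _ _).trans hN3
  have hN0 : 0 < N := by linarith
  have h43 : N ≤ N ^ (4 / 3 : ℝ) := by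
    conv_lhs => rw [← Real.rpow_one N]
    exact Real.rpow_le_rpow_of_exponent_le hN1' (by norm_num)
  have hX0 : 0 < N ^ (4 / 3 : ℝ) := by positivity
  have hnN : (n0 : ℝ) + 1 ≤ η1 * N ^ (4 / 3 : ℝ) := by
    have h1 := (le_max_left _ _).trans hN4
    rw [div_le_iff₀' hη1] at h1
    exact h1.trans (mul_le_mul_of_nonneg_left h43 hη1.le)
  have hnN1 : 1 ≤ η1 * N ^ (4 / 3 : ℝ) := by
    have h1 := (le_max_right _ _).trans hN4
    rw [div_le_iff₀' hη1] at h1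
    exact h1.trans (mul_le_mul_of_nonneg_left h43 hη1.le)
  have hd0 : 0 < d := lt_of_lt_of_le (by positivity) hd1
  -- short and long rests
  have hsplit : Rs ⊆ {R | R ∈ Rs ∧ (R.length : ℝ) ≤ η1 * N ^ (4 / 3 : ℝ)} ∪ {R | R ∈ Rs ∧ η1 * N ^ (4 / 3 : ℝ) < R.length} := by
    intro R hR
    rcases le_or_gt (R.length : ℝ) (η1 * N ^ (4 / 3 : ℝ)) with h | h
    · exact Or.inl ⟨hR, h⟩
    · exact Or.inr ⟨hR, h⟩
  have h1 : ms {R | R ∈ Rs ∧ (R.length : ℝ) ≤ η1 * N ^ (4 / 3 : ℝ)} (fun _ => 1) ≤ ENNReal.ofReal (ε / 2 * N ^ (3 / 4 : ℝ)) :=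
    hsh N hNN1 i j _ fun R hR => ⟨(hRs R hR.1).1, hR.2⟩
  have h2 : ms {R | R ∈ Rs ∧ η1 * N ^ (4 / 3 : ℝ) < R.length} (fun _ => 1) ≤ ENNReal.ofReal (ε / 2 * N ^ (3 / 4 : ℝ)) := by
    obtain ⟨L, hL⟩ : ∃ L : Set W3, L = {R | R ∈ Rs ∧ η1 * N ^ (4 / 3 : ℝ) < R.length} := ⟨_, rfl⟩
    rw [← hL]
    have hLR : ∀ R ∈ L, RsC (ev i) (ev j) (ρ * N) (ρ * N) (δ * N) R := fun R hR => by
      rw [hL] at hR
      exact (hRs R hR.1).1
    have hLl : ∀ R ∈ L, η1 * N ^ (4 / 3 : ℝ) < R.length := fun R hR => by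
      rw [hL] at hR
      exact hR.2
    have hLB : ∀ R ∈ L, (R.length : ℝ) ≤ B * N ^ (4 / 3 : ℝ) := fun R hR => by
      rw [hL] at hR
      exact (hRs R hR.1).2
    have hLf : ∀ R ∈ L, ∀ x ∈ S, η ≤ dist (z • crv R R.length d) x := fun R hR => by
      rw [hL] at hR
      exact hfar R hR.1
    obtain ⟨M, hM⟩ : ∃ M : ℝ, M = (q * N) ^ (4 / 3 : ℝ) := ⟨_, rfl⟩
    have hM1 : 2 * M + B * N ^ (4 / 3 : ℝ) = E * N ^ (4 / 3 : ℝ) := by
      rw [hM, hE, Real.mul_rpow hq0.le hN0.le]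
      ring
    have g0 : 2 * (q * N) ≤ ρ * N := by nlinarith
    have gD : 2 * (q * N + q * N) < δ * N := by nlinarith
    have gq : 0 ≤ q * N := by positivity
    obtain ⟨n₁, hn₁⟩ : ∃ n₁ : ℕ, n₁ = ⌈η1 * N ^ (4 / 3 : ℝ)⌉₊ := ⟨_, rfl⟩
    obtain ⟨n₂, hn₂⟩ : ∃ n₂ : ℕ, n₂ = ⌊E * N ^ (4 / 3 : ℝ)⌋₊ := ⟨_, rfl⟩
    have hn₁a : η1 * N ^ (4 / 3 : ℝ) ≤ n₁ := by rw [hn₁]; exact Nat.le_ceil _
    have hn₂a : (n₂ : ℝ) ≤ E * N ^ (4 / 3 : ℝ) := by rw [hn₂]; exact Nat.floor_le (by positivity)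
    have hn₁1 : 1 ≤ n₁ := by
      have : (1 : ℝ) ≤ n₁ := hnN1.trans hn₁a
      exact_mod_cast this
    have hn₁0 : n0 ≤ n₁ := by
      have : (n0 : ℝ) ≤ n₁ := by linarith
      exact_mod_cast this
    have h3 := rest_tight (T := Nm.TN (ev i) (q * N) M) (Rs := L) (T' := Nm.TN (ev j) (q * N) M)
      (fun a ha => ⟨ha.1.ev, ha.1.sw⟩) (fun R hR => ⟨(hLR R hR).ev, (hLR R hR).sw⟩) (fun b hb => ⟨hb.1.ev, hb.1.sw⟩)
      (fun a ha R hR => tip_rest ha.1 (hLR R hR).s g0)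
      (fun b hb R hR jj k hj hk => tip_rest hb.1 (hLR R hR).e g0 jj k hj (by rw [List.length_reverse]; exact hk))
      (fun a ha R hR b hb jj k hj hk he => by
        have a1 := ha.1.ball jj hj.le
        have a2 := hb.1.ball k hk.le
        have a3 : en R = ps a jj - en a + en b - ps b k := by rw [he]; ring
        have a4 : ‖en R‖ ≤ ‖ps a jj‖ + ‖en a‖ + ‖en b‖ + ‖ps b k‖ := by
          rw [a3]
          calc ‖ps a jj - en a + en b - ps b k‖ ≤ ‖ps a jj - en a + en b‖ + ‖ps b k‖ := norm_sub_le _ _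
            _ ≤ ‖ps a jj - en a‖ + ‖en b‖ + ‖ps b k‖ := by linarith [norm_add_le (ps a jj - en a) (en b)]
            _ ≤ _ := by linarith [norm_sub_le (ps a jj) (en a)]
        linarith [norm_en_le ha.1, norm_en_le hb.1, (hLR R hR).far])
      (f := fun _ => 1) (F := fun _ => 1) (f' := fun _ => 1) (fun _ => zero_le_one) (fun _ => zero_le_one) (fun _ => zero_le_one)
      (fun w _ => phi_le hLR g0 g0 gD gq gq w) hn₁1 (n₂ := n₂) hd0 (c₀ := η1 / E) (l₀ := l₀) (l₁ := l₁) (η := η) (ε := ε') hz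
      (S := S)
      (fun a ha R hR b hb _ _ _ => by
        have b1 := ha.2.2
        have b2 := hb.2.2
        have b3 := hLl R hR
        have b4 := hLB R hR
        have b5 : ((a.length + R.length + b.length : ℕ) : ℝ) ≤ E * N ^ (4 / 3 : ℝ) := by
          push_cast
          linarith
        refine ⟨?_, ?_, ?_⟩
        · rw [hn₁]
          refine Nat.ceil_le.2 ?_
          push_cast
          have : (0 : ℝ) ≤ a.length := Nat.cast_nonneg _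
          have : (0 : ℝ) ≤ b.length := Nat.cast_nonneg _
          linarith
        · rw [hn₂]
          exact Nat.le_floor b5
        · calc η1 / E * ((a.length + R.length + b.length : ℕ) : ℝ) ≤ η1 / E * (E * N ^ (4 / 3 : ℝ)) :=
                mul_le_mul_of_nonneg_left b5 (by positivity)
            _ = η1 * N ^ (4 / 3 : ℝ) := by field_simp
            _ ≤ R.length := b3.le)
      (fun R hR _ => hLf R hR)
      (fun n hn1 hn2 => by
        have b1 : 1 ≤ n := hn₁1.trans hn1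
        have b2 : η1 * N ^ (4 / 3 : ℝ) ≤ n := hn₁a.trans (by exact_mod_cast hn1)
        have b3 : (n : ℝ) ≤ E * N ^ (4 / 3 : ℝ) := le_trans (by exact_mod_cast hn2) hn₂a
        obtain ⟨s1, s2⟩ := hsz n b1
        have b4 : η1 ^ (3 / 4 : ℝ) * N ≤ (n : ℝ) ^ (3 / 4 : ℝ) := by
          have := Real.rpow_le_rpow (by positivity) b2 (show (0 : ℝ) ≤ 3 / 4 by norm_num)
          rw [Real.mul_rpow hη1.le hX0.le, ← Real.rpow_mul hN0.le] at this
          norm_num at this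
          exact this
        have b5 : (n : ℝ) ^ (3 / 4 : ℝ) ≤ E ^ (3 / 4 : ℝ) * N := by
          have := Real.rpow_le_rpow (Nat.cast_nonneg n) b3 (show (0 : ℝ) ≤ 3 / 4 by norm_num)
          rw [Real.mul_rpow hE0.le hX0.le, ← Real.rpow_mul hN0.le] at this
          norm_num at this
          exact this
        constructor
        · rw [le_div_iff₀ hd0, hl₀]
          calc c1 * η1 ^ (3 / 4 : ℝ) / K * d ≤ c1 * η1 ^ (3 / 4 : ℝ) / K * (K * N) :=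
                mul_le_mul_of_nonneg_left hd2 (by positivity)
            _ = c1 * (η1 ^ (3 / 4 : ℝ) * N) := by field_simp
            _ ≤ c1 * (n : ℝ) ^ (3 / 4 : ℝ) := mul_le_mul_of_nonneg_left b4 hc1.le
            _ ≤ size n := s1
        · rw [div_le_iff₀ hd0, hl₁]
          calc size n ≤ C1 * (n : ℝ) ^ (3 / 4 : ℝ) := s2
            _ ≤ C1 * (E ^ (3 / 4 : ℝ) * N) := mul_le_mul_of_nonneg_left b5 hC1.le
            _ = C1 * E ^ (3 / 4 : ℝ) * K * (N / K) := by field_simp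
            _ ≤ C1 * E ^ (3 / 4 : ℝ) * K * d := mul_le_mul_of_nonneg_left hd1 (by positivity))
      (fun n hn1 _ => hn0 n (hn₁0.trans hn1))
    simp only [ENNReal.ofReal_one] at h3
    -- the mass of the walks
    have h4 : ∑ n ∈ Icc n₁ n₂, ENNReal.ofReal (ε' * (fug ^ n * ((saw n).card : ℝ))) ≤
        ENNReal.ofReal (ε' * (C3 * E ^ (43 / 32 : ℝ)) * N ^ (43 / 24 : ℝ)) := by
      have b0 : ∀ n ∈ Icc n₁ n₂, ENNReal.ofReal (ε' * (fug ^ n * ((saw n).card : ℝ))) ≤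
          ENNReal.ofReal (ε' * (C3 * (E * N ^ (4 / 3 : ℝ)) ^ (11 / 32 : ℝ))) := by
        intro n hn
        obtain ⟨hn1, hn2⟩ := mem_Icc.1 hn
        have b3 : (n : ℝ) ≤ E * N ^ (4 / 3 : ℝ) := le_trans (by exact_mod_cast hn2) hn₂a
        refine ENNReal.ofReal_le_ofReal (mul_le_mul_of_nonneg_left ?_ hε'0.le)
        rw [mul_comm]
        refine ((haN n (hn₁1.trans hn1)).2).trans (mul_le_mul_of_nonneg_left ?_ hC3.le)
        exact Real.rpow_le_rpow (Nat.cast_nonneg n) b3 (by norm_num)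
      refine (sum_le_sum b0).trans ?_
      rw [sum_const, Nat.card_Icc, nsmul_eq_mul, ← ENNReal.ofReal_natCast, ← ENNReal.ofReal_mul (Nat.cast_nonneg _)]
      refine ENNReal.ofReal_le_ofReal ?_
      have b5 : ((n₂ + 1 - n₁ : ℕ) : ℝ) ≤ E * N ^ (4 / 3 : ℝ) := by
        have : n₂ + 1 - n₁ ≤ n₂ := by omega
        exact le_trans (by exact_mod_cast this) hn₂a
      calc ((n₂ + 1 - n₁ : ℕ) : ℝ) * (ε' * (C3 * (E * N ^ (4 / 3 : ℝ)) ^ (11 / 32 : ℝ))) ≤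
            (E * N ^ (4 / 3 : ℝ)) * (ε' * (C3 * (E * N ^ (4 / 3 : ℝ)) ^ (11 / 32 : ℝ))) :=
            mul_le_mul_of_nonneg_right b5 (by positivity)
        _ = ε' * C3 * ((E * N ^ (4 / 3 : ℝ)) * (E * N ^ (4 / 3 : ℝ)) ^ (11 / 32 : ℝ)) := by ring
        _ = ε' * C3 * (E * N ^ (4 / 3 : ℝ)) ^ (43 / 32 : ℝ) := by
            rw [show (43 / 32 : ℝ) = 1 + 11 / 32 by norm_num, Real.rpow_add (by positivity), Real.rpow_one]
        _ = ε' * (C3 * E ^ (43 / 32 : ℝ)) * N ^ (43 / 24 : ℝ) := by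
            rw [Real.mul_rpow hE0.le hX0.le, ← Real.rpow_mul hN0.le]
            norm_num
            ring
    rw [hM] at h3
    refine (hdiv q N hq0 hN0 hqN i j _ _ (h3.trans h4)).trans (ENNReal.ofReal_le_ofReal (mul_le_mul_of_nonneg_right ?_ (by positivity)))
    rw [hε']
    have : q ^ (25 / 24 : ℝ) ≠ 0 := by positivity
    have : E ^ (43 / 32 : ℝ) ≠ 0 := by positivity
    exact le_of_eq (by field_simp)
  calc ms Rs (fun _ => 1) ≤ _ := ms_subset hsplit _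
    _ ≤ _ := ms_split _ _ _
    _ ≤ ENNReal.ofReal (ε / 2 * N ^ (3 / 4 : ℝ)) + ENNReal.ofReal (ε / 2 * N ^ (3 / 4 : ℝ)) := add_le_add h1 h2
    _ = ENNReal.ofReal (ε * N ^ (3 / 4 : ℝ)) := by
        rw [← ENNReal.ofReal_add (by positivity) (by positivity)]
        congr 1
        ring

/-- the mass of a set -/
lemma rm_le {c : ℝ≥0∞} {s t : ℝ} {Rs : Set W3} {w : W3 → ℝ} (hw : ∀ R ∈ Rs, w R ≤ 1) (E : Set (CI3 × ℝ)) :
    rm c s t Rs w E ≤ c * ms {R | R ∈ Rs ∧ cr s t R ∈ E} fun _ => 1 := by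
  unfold rm ms
  rw [Measure.sum_apply_of_countable, ← ENNReal.tsum_mul_left]
  refine ENNReal.tsum_le_tsum fun R => ?_
  rw [Measure.smul_apply, smul_eq_mul, Measure.dirac_apply]
  by_cases h1 : R ∈ Rs
  · by_cases h2 : cr s t R ∈ E
    · rw [Set.indicator_of_mem h2, if_pos h1, if_pos (show R ∈ {R | R ∈ Rs ∧ cr s t R ∈ E} from ⟨h1, h2⟩), Pi.one_apply, mul_one,
        mul_one]
      refine mul_le_mul_right ?_ _
      calc wx R * ENNReal.ofReal (w R) ≤ wx R * ENNReal.ofReal 1 := mul_le_mul_right (ENNReal.ofReal_le_ofReal (hw R h1)) _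
        _ = wx R := by rw [ENNReal.ofReal_one, mul_one]
    · rw [Set.indicator_of_notMem h2, mul_zero]
      exact zero_le
  · rw [if_neg h1, mul_zero, zero_mul]
    exact zero_le

lemma nrm_mul {A C x : ℝ} (hA : 0 ≤ A) (hx : 0 < x) : ENNReal.ofReal (A * x ^ (-(3 / 4) : ℝ)) * ENNReal.ofReal (C * x ^ (3 / 4 : ℝ)) =
    ENNReal.ofReal (A * C) := by
  rw [← ENNReal.ofReal_mul (by positivity)]
  congr 1
  have : x ^ (-(3 / 4) : ℝ) * x ^ (3 / 4 : ℝ) = 1 := by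
    rw [← Real.rpow_add hx]
    norm_num
  linear_combination A * C * this

/-- **the limits of the laws of the rests** -/
theorem beta_lim {ρ δ B K A : ℝ} (hρ : 0 < ρ) (hδ : 0 < δ) (hB : 0 < B) (hK : 1 ≤ K) (hA : 0 < A)
    {i j : Fin 3} {Rs : ℕ → Set W3} {w : ℕ → W3 → ℝ} {c : ℕ → ℝ≥0∞} {σ s t : ℕ → ℝ} (hσ : Tendsto σ atTop atTop)
    (hs : ∀ᶠ N in atTop, σ N / K ≤ s N ∧ s N ≤ K * σ N) (ht : ∀ᶠ N in atTop, σ N ^ (4 / 3 : ℝ) ≤ K * t N)
    (hR : ∀ᶠ N in atTop, ∀ R ∈ Rs N, RsC (ev i) (ev j) (ρ * σ N) (ρ * σ N) (δ * σ N) R ∧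
      (R.length : ℝ) ≤ B * σ N ^ (4 / 3 : ℝ))
    (hw : ∀ᶠ N in atTop, ∀ R ∈ Rs N, w N R ≤ 1)
    (hc : ∀ᶠ N in atTop, c N ≤ ENNReal.ofReal (A * σ N ^ (-(3 / 4) : ℝ)))
    (U : Ultrafilter ℕ) (hU : (U : Filter ℕ) ≤ atTop) :
    ∃ m : Measure (CI3 × ℝ), WLim (U : Filter ℕ) (fun N => rm (c N) (s N) (t N) (Rs N) (w N)) m ∧
      (∀ g : (CI3 × ℝ) →ᵇ ℝ, Tendsto (fun N => ∫ x, g x ∂(rm (c N) (s N) (t N) (Rs N) (w N))) U (𝓝 (∫ x, g x ∂m))) ∧
      ∀ᵐ x ∂m, Function.Injective x.1 ∧ x.1 0 = 0 ∧ 0 ≤ x.2 ∧ x.2 ≤ B * K := by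
  have hK0 : 0 < K := by linarith
  obtain ⟨μ, hμ⟩ : ∃ μ : ℕ → Measure (CI3 × ℝ), μ = fun N => rm (c N) (s N) (t N) (Rs N) (w N) := ⟨_, rfl⟩
  -- the masses
  obtain ⟨C, N0, hC, hN0, hup⟩ := beta_up ρ δ B hρ hδ hB
  have hmass : ∀ᶠ N in atTop, μ N Set.univ ≤ ((A * C).toNNReal : ℝ≥0∞) := by
    filter_upwards [hR, hw, hc, hσ.eventually_ge_atTop N0] with N h1 h2 h3 h4
    have h5 : 0 < σ N := by linarith
    rw [hμ]
    refine (rm_le h2 _).trans ?_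
    refine (mul_le_mul' h3 ((ms_subset (fun R hR => hR.1) _).trans (hup (σ N) h4 i j (Rs N) h1))).trans ?_
    rw [nrm_mul hA.le h5]
    exact le_rfl
  -- near compact sets
  have hnear : ∀ ε : ℝ≥0, 0 < ε → ∃ S : Set (CI3 × ℝ), IsCompact S ∧
      (∀ x ∈ S, Function.Injective x.1 ∧ x.1 0 = 0 ∧ 0 ≤ x.2 ∧ x.2 ≤ B * K) ∧
      ∀ η : ℝ, 0 < η → ∀ᶠ N in atTop, μ N {x | ∀ y ∈ S, η ≤ dist x y} ≤ ε := by
    intro ε hε
    obtain ⟨S, hS, hSi, hSη⟩ := beta_near ρ δ B K (ε / A) hρ hδ hB hK (div_pos (by exact_mod_cast hε) hA)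
    refine ⟨S ×ˢ Set.Icc 0 (B * K), hS.prod isCompact_Icc, fun x hx => ⟨(hSi _ hx.1).1, (hSi _ hx.1).2, hx.2.1, hx.2.2⟩,
      fun η hη => ?_⟩
    obtain ⟨N1, hN1, h1⟩ := hSη η hη
    filter_upwards [hR, hw, hc, hσ.eventually_ge_atTop N1, hs, ht] with N g1 g2 g3 g4 g5 g6
    have h5 : 0 < σ N := by linarith
    have h6 : 0 < t N := by
      have : 0 < σ N ^ (4 / 3 : ℝ) := by positivity
      exact (mul_pos_iff_of_pos_left hK0).1 (lt_of_lt_of_le this g6)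
    rw [hμ]
    refine (rm_le g2 _).trans ?_
    refine (mul_le_mul' g3 (h1 (σ N) g4 (s N) g5.1 g5.2 1 norm_one i j _ (fun R hR => g1 R hR.1) fun R hR x hx => ?_)).trans ?_
    · rw [one_smul]
      have h7 := hR.2 (x, (R.length : ℝ) / t N) ⟨hx, by positivity, by
        rw [div_le_iff₀ h6]
        calc (R.length : ℝ) ≤ B * σ N ^ (4 / 3 : ℝ) := (g1 R hR.1).2
          _ ≤ B * (K * t N) := mul_le_mul_of_nonneg_left g6 hB.le
          _ = B * K * t N := by ring⟩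
      unfold cr at h7
      rw [Prod.dist_eq] at h7
      simp only [dist_self] at h7
      rwa [max_eq_left dist_nonneg] at h7
    · rw [nrm_mul hA.le h5, mul_div_cancel₀ _ hA.ne', ENNReal.ofReal_coe_nnreal]
  obtain ⟨P, hP, hl⟩ := near_lim μ hmass (fun ε hε => by
    obtain ⟨S, hS, -, h⟩ := hnear ε hε
    exact ⟨S, hS, h⟩) U hU
  have hfin : ∀ᶠ N in (U : Filter ℕ), IsFiniteMeasure (μ N) := by
    filter_upwards [hU hmass] with N hN
    exact ⟨lt_of_le_of_lt hN ENNReal.coe_lt_top⟩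
  rw [hμ] at hl
  refine ⟨P, ⟨hP, by rw [hμ] at hfin; exact hfin, fun f hf ⟨Kf, hKf⟩ => ?_⟩, hl, ?_⟩
  · exact hl (BoundedContinuousFunction.ofNormedAddCommGroup f hKf.continuous 1 fun x => by
      rw [Real.norm_eq_abs, abs_le]
      constructor <;> linarith [(hf x).1, (hf x).2])
  · rw [ae_iff]
    refine le_antisymm (ENNReal.le_of_forall_pos_le_add fun ε hε _ => ?_) zero_le
    rw [zero_add]
    obtain ⟨S, hS, hSi, h⟩ := hnear ε hε
    have hsub : {x : CI3 × ℝ | ¬(Function.Injective x.1 ∧ x.1 0 = 0 ∧ 0 ≤ x.2 ∧ x.2 ≤ B * K)} ⊆ Sᶜ :=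
      fun x hx hxS => hx (hSi x hxS)
    refine (measure_mono hsub).trans (lim_near hl hS.isClosed fun η hη => ?_)
    filter_upwards [hfin, hU (h η hη)] with N h1 h2
    rw [hμ] at h1 h2
    exact ⟨h1, h2⟩

end Pool.Agent.ROT.F3.Bt
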