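import Pool.Agent.ROT.F3SysL

/-!
# ROT / F3BetaA (helper56): limits of finite measures which are near compact sets

* `near_tight` : for every `ε` a compact set such that for every `η` the points at distance at least `η` from it have mass at most
  `ε`, for all large `N` ==> tight;
* **`near_lim`** : the same with bounded masses ==> the limit along an ultrafilter;
* `lim_supp` : closed sets; `lim_near` : the limit is carried by the compact sets.
-/

set_option autoImplicit false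

open MeasureTheory Filter Topology Set
open scoped ENNReal NNReal BoundedContinuousFunction

namespace Pool.Agent.ROT.F3.Bt

/-- near a sequence of compact sets -/
lemma near_compact {X : Type*} [MetricSpace X] [CompleteSpace X] {K : ℕ → Set X} (hK : ∀ j, IsCompact (K j)) :
    IsCompact (⋂ j : ℕ, Metric.cthickening (1 / ((j : ℝ) + 1)) (K j)) := by
  refine isCompact_iff_totallyBounded_isComplete.2 ⟨?_, ?_⟩
  · rw [Metric.totallyBounded_iff]
    intro ε hε
    obtain ⟨j, hj⟩ := exists_nat_one_div_lt (show (0 : ℝ) < ε / 2 by positivity)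
    obtain ⟨t, ht, ht2⟩ := Metric.totallyBounded_iff.1 (hK j).totallyBounded (ε / 2) (by positivity)
    refine ⟨t, ht, fun x hx => ?_⟩
    have h1 := mem_iInter.1 hx j
    rw [(hK j).cthickening_eq_biUnion_closedBall (by positivity)] at h1
    obtain ⟨y, hy, hxy⟩ := mem_iUnion₂.1 h1
    obtain ⟨z, hz, hyz⟩ := mem_iUnion₂.1 (ht2 hy)
    refine mem_iUnion₂.2 ⟨z, hz, ?_⟩
    rw [Metric.mem_ball] at hyz ⊢
    rw [Metric.mem_closedBall] at hxy
    linarith [dist_triangle x y z]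
  · exact (isClosed_iInter fun j => Metric.isClosed_cthickening).isComplete

/-- **near compact sets ==> tight** -/
theorem near_tight {X : Type*} [MetricSpace X] [CompleteSpace X] [SecondCountableTopology X] [MeasurableSpace X] [BorelSpace X]
    (μ : ℕ → Measure X) [∀ N, IsFiniteMeasure (μ N)]
    (h : ∀ ε : ℝ≥0, 0 < ε → ∃ S : Set X, IsCompact S ∧ ∀ η : ℝ, 0 < η → ∀ᶠ N in atTop, μ N {x | ∀ y ∈ S, η ≤ dist x y} ≤ ε) :
    ∀ ε : ℝ≥0, 0 < ε → ∃ K : Set X, IsCompact K ∧ ∀ N, μ N Kᶜ ≤ ε := by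
  intro ε hε
  obtain ⟨e, he, hes⟩ := ENNReal.exists_pos_sum_of_countable (ε := (ε : ℝ≥0∞)) (by simpa using hε.ne') ℕ
  choose S hS hSη using fun j : ℕ => h (e j) (he j)
  have h1 : ∀ j : ℕ, ∃ N0 : ℕ, ∀ N : ℕ, N0 ≤ N → μ N {x | ∀ y ∈ S j, 1 / ((j : ℝ) + 1) ≤ dist x y} ≤ e j := fun j =>
    eventually_atTop.1 (hSη j (1 / ((j : ℝ) + 1)) (by positivity))
  choose N0 hN0 using h1
  have h2 : ∀ j N : ℕ, ∃ L : Set X, IsCompact L ∧ μ N Lᶜ ≤ e j := by
    intro j N
    obtain ⟨L, hL, hL2⟩ := isTightMeasureSet_iff_exists_isCompact_measure_compl_le.1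
      (isTightMeasureSet_singleton (μ := μ N)) (e j) (by exact_mod_cast he j)
    exact ⟨L, hL, hL2 _ rfl⟩
  choose L hL hL2 using h2
  have hK : ∀ j : ℕ, IsCompact (S j ∪ ⋃ N ∈ Finset.range (N0 j), L j N) := fun j =>
    (hS j).union ((Finset.range (N0 j)).isCompact_biUnion fun N _ => hL j N)
  refine ⟨_, near_compact hK, fun N => ?_⟩
  rw [compl_iInter]
  refine (measure_iUnion_le _).trans (le_trans (ENNReal.tsum_le_tsum fun j => ?_) hes.le)
  by_cases hN : N0 j ≤ N
  · refine (measure_mono fun x hx y hy => ?_).trans (hN0 j N hN)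
    by_contra hlt
    rw [not_le] at hlt
    refine hx (Metric.mem_cthickening_of_dist_le x y _ _ (Or.inl hy) hlt.le)
  · have h3 : (Metric.cthickening (1 / ((j : ℝ) + 1)) (S j ∪ ⋃ N ∈ Finset.range (N0 j), L j N))ᶜ ⊆ (L j N)ᶜ := by
      refine compl_subset_compl.2 fun x hx => ?_
      refine Metric.self_subset_cthickening _ (Or.inr (mem_iUnion₂.2 ⟨N, ?_, hx⟩))
      rw [Finset.mem_range]
      omega
    exact (measure_mono h3).trans (hL2 j N)

/-- **limits along the ultrafilters, bounded masses near compact sets** -/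
theorem near_lim {X : Type*} [MetricSpace X] [CompleteSpace X] [SecondCountableTopology X] [MeasurableSpace X] [BorelSpace X]
    (μ : ℕ → Measure X) {C : ℝ≥0} (hC : ∀ᶠ N in atTop, μ N univ ≤ C)
    (h : ∀ ε : ℝ≥0, 0 < ε → ∃ S : Set X, IsCompact S ∧ ∀ η : ℝ, 0 < η → ∀ᶠ N in atTop, μ N {x | ∀ y ∈ S, η ≤ dist x y} ≤ ε)
    (U : Ultrafilter ℕ) (hU : (U : Filter ℕ) ≤ atTop) :
    ∃ P : Measure X, IsFiniteMeasure P ∧ ∀ G : X →ᵇ ℝ, Tendsto (fun N => ∫ x, G x ∂(μ N)) U (𝓝 (∫ x, G x ∂P)) := by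
  obtain ⟨N0, hN0⟩ := eventually_atTop.1 hC
  obtain ⟨ν, hν⟩ : ∃ ν : ℕ → Measure X, ν = fun N => if N0 ≤ N then μ N else 0 := ⟨_, rfl⟩
  have e1 : ∀ N, N0 ≤ N → ν N = μ N := fun N hN => by rw [hν]; exact if_pos hN
  have e2 : ∀ N, ν N univ ≤ C := fun N => by
    by_cases hN : N0 ≤ N
    · rw [e1 N hN]
      exact hN0 N hN
    · rw [hν]
      simp only [if_neg hN]
      simp
  have hf : ∀ N, IsFiniteMeasure (ν N) := fun N => ⟨lt_of_le_of_lt (e2 N) ENNReal.coe_lt_top⟩
  obtain ⟨P, hP, hl⟩ := fin_lim ν e2 (near_tight ν fun ε hε => by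
    obtain ⟨S, hS, h1⟩ := h ε hε
    refine ⟨S, hS, fun η hη => ?_⟩
    filter_upwards [h1 η hη, eventually_ge_atTop N0] with N h2 h3
    rw [e1 N h3]
    exact h2) U
  refine ⟨P, hP, fun G => (hl G).congr' ?_⟩
  filter_upwards [hU (eventually_ge_atTop N0)] with N hN
  rw [e1 N hN]

/-- mass of the limit off a closed set -/
theorem lim_open {X : Type*} [MetricSpace X] [MeasurableSpace X] [BorelSpace X] {U : Filter ℕ} [U.NeBot] {μ : ℕ → Measure X}
    {P : Measure X} [IsFiniteMeasure P] (hl : ∀ G : X →ᵇ ℝ, Tendsto (fun N => ∫ x, G x ∂(μ N)) U (𝓝 (∫ x, G x ∂P)))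
    {O : Set X} (hO : IsOpen O) {ε : ℝ≥0} (h : ∀ᶠ N in U, IsFiniteMeasure (μ N) ∧ μ N O ≤ ε) : P O ≤ ε := by
  -- continuous functions below the indicator
  have key : ∀ G : X →ᵇ ℝ, (∀ x, 0 ≤ G x) → (∀ x, G x ≤ O.indicator (fun _ => (1 : ℝ)) x) → ∫ x, G x ∂P ≤ ε := by
    intro G h0 h1
    refine le_of_tendsto (hl G) ?_
    filter_upwards [h] with N hN
    have := hN.1
    calc ∫ x, G x ∂(μ N) ≤ ∫ x, O.indicator (fun _ => (1 : ℝ)) x ∂(μ N) :=
          integral_mono (G.integrable _) ((integrable_const (1 : ℝ)).indicator hO.measurableSet) h1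
      _ = (μ N).real O := by
          rw [integral_indicator hO.measurableSet, setIntegral_const, smul_eq_mul, mul_one]
      _ ≤ ε := ENNReal.toReal_le_of_le_ofReal ε.2 (by rw [ENNReal.ofReal_coe_nnreal]; exact hN.2)
  -- the approximation from inside
  have hF : IsClosed Oᶜ := hO.isClosed_compl
  have hc : ∀ n : ℕ, Continuous fun x => (1 : ℝ) - (thickenedIndicator (δ := (1 : ℝ) / (n + 1)) Nat.one_div_pos_of_nat Oᶜ x : ℝ) :=
    fun n => continuous_const.sub (NNReal.continuous_coe.comp (thickenedIndicator Nat.one_div_pos_of_nat Oᶜ).continuous)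
  have hb : ∀ (n : ℕ) (x : X), (0 : ℝ) ≤ 1 - (thickenedIndicator (δ := (1 : ℝ) / (n + 1)) Nat.one_div_pos_of_nat Oᶜ x : ℝ) ∧
      1 - (thickenedIndicator (δ := (1 : ℝ) / (n + 1)) Nat.one_div_pos_of_nat Oᶜ x : ℝ) ≤ 1 := by
    intro n x
    have h3 : (thickenedIndicator (δ := (1 : ℝ) / (n + 1)) Nat.one_div_pos_of_nat Oᶜ x : ℝ) ≤ 1 := by
      exact_mod_cast thickenedIndicator_le_one Nat.one_div_pos_of_nat Oᶜ x
    have h4 : (0 : ℝ) ≤ (thickenedIndicator (δ := (1 : ℝ) / (n + 1)) Nat.one_div_pos_of_nat Oᶜ x : ℝ) := NNReal.coe_nonneg _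
    constructor <;> linarith
  have h1 : ∀ n : ℕ, P.real univ - ∫ x, (thickenedIndicator (δ := (1 : ℝ) / (n + 1)) Nat.one_div_pos_of_nat Oᶜ x : ℝ) ∂P ≤ ε := by
    intro n
    have h2 := key (BoundedContinuousFunction.ofNormedAddCommGroup _ (hc n) 1 fun x => by
        rw [Real.norm_eq_abs, abs_le]
        constructor <;> linarith [(hb n x).1, (hb n x).2]) (fun x => (hb n x).1) fun x => by
      by_cases hx : x ∈ O
      · rw [Set.indicator_of_mem hx]
        exact (hb n x).2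
      · rw [Set.indicator_of_notMem hx]
        show (1 : ℝ) - (thickenedIndicator (δ := (1 : ℝ) / (n + 1)) Nat.one_div_pos_of_nat Oᶜ x : ℝ) ≤ 0
        rw [thickenedIndicator_one _ _ (show x ∈ Oᶜ from hx)]
        simp
    have h3 : ∫ x, ((1 : ℝ) - (thickenedIndicator (δ := (1 : ℝ) / (n + 1)) Nat.one_div_pos_of_nat Oᶜ x : ℝ)) ∂P =
        P.real univ - ∫ x, (thickenedIndicator (δ := (1 : ℝ) / (n + 1)) Nat.one_div_pos_of_nat Oᶜ x : ℝ) ∂P := by
      rw [integral_sub (integrable_const _) (integrable_thickenedIndicator _ _)]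
      simp
    rw [← h3]
    exact h2
  have h4 := tendsto_integral_thickenedIndicator_of_isClosed P hF (fun n => Nat.one_div_pos_of_nat (α := ℝ) (n := n))
    tendsto_one_div_add_atTop_nhds_zero_nat
  have h5 : P.real univ - P.real Oᶜ ≤ ε := le_of_tendsto (tendsto_const_nhds.sub h4) (Eventually.of_forall h1)
  have h6 : P.real O = P.real univ - P.real Oᶜ := by
    rw [measureReal_compl hO.measurableSet]
    ring
  rw [← h6] at h5
  rw [← ENNReal.ofReal_coe_nnreal]
  exact (ENNReal.le_ofReal_iff_toReal_le (measure_ne_top P O) ε.2).2 h5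

/-- **the limit is carried by the compact sets** -/
theorem lim_near {X : Type*} [MetricSpace X] [MeasurableSpace X] [BorelSpace X] {U : Filter ℕ} [U.NeBot] {μ : ℕ → Measure X}
    {P : Measure X} [IsFiniteMeasure P] (hl : ∀ G : X →ᵇ ℝ, Tendsto (fun N => ∫ x, G x ∂(μ N)) U (𝓝 (∫ x, G x ∂P)))
    {S : Set X} (hS : IsClosed S) {ε : ℝ≥0}
    (h : ∀ η : ℝ, 0 < η → ∀ᶠ N in U, IsFiniteMeasure (μ N) ∧ μ N {x | ∀ y ∈ S, η ≤ dist x y} ≤ ε) : P Sᶜ ≤ ε := by
  have h1 : Sᶜ = ⋃ n : ℕ, (Metric.cthickening (1 / ((n : ℝ) + 1)) S)ᶜ := by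
    rw [← compl_iInter]
    congr 1
    refine subset_antisymm (subset_iInter fun n => Metric.self_subset_cthickening _) fun x hx => ?_
    rw [← hS.closure_eq, Metric.closure_eq_iInter_cthickening]
    refine mem_iInter₂.2 fun δ hδ => ?_
    obtain ⟨n, hn⟩ := exists_nat_one_div_lt hδ
    exact Metric.cthickening_mono hn.le _ (mem_iInter.1 hx n)
  have hm : Monotone fun n : ℕ => (Metric.cthickening (1 / ((n : ℝ) + 1)) S)ᶜ := by
    intro n n' hn
    refine compl_subset_compl.2 (Metric.cthickening_mono ?_ _)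
    exact Nat.one_div_le_one_div hn
  rw [h1, hm.measure_iUnion]
  refine iSup_le fun n => lim_open hl Metric.isClosed_cthickening.isOpen_compl ?_
  filter_upwards [h (1 / ((n : ℝ) + 1)) (by positivity)] with N hN
  refine ⟨hN.1, (measure_mono fun x hx y hy => ?_).trans hN.2⟩
  by_contra hlt
  rw [not_le] at hlt
  exact hx (Metric.mem_cthickening_of_dist_le x y _ _ hy hlt.le)

end Pool.Agent.ROT.F3.Bt
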