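import Pool.Agent.ROT.F3FP
import Pool.Agent.ROT.LocalF
import Pool.Agent.BAR1.KLow

/-!
# ROT, F3 (B), LOW (helper55): the blocks between two native gates from below

* `kk_win` : the irreducible pieces with a height in `(n, K n]` have a mass of the order `n ^ (-3/4)`;
* `irr_lat` : those of height `≥ n` which are wider than `2 R n` have a small fraction of it;
* `irr_box` : the same from below inside of the box;
* **`blk_low`** : blocks `b ∈ FB m` with exact height T, exact lateral end x, in the tube `η m` around a Lipschitz graph, with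
  a cut in `[(1 - η) m, m)`: mass at least `c / m ^ 2`.
-/

set_option autoImplicit false

namespace HexObs

namespace ROT

namespace FP

open Finset ENNReal

/-! ### 1. irreducible pieces -/

/-- the irreducible pieces with a height in (n, K n] -/
theorem kk_win : ∃ (K : ℕ) (c : ℝ), 2 ≤ K ∧ 0 < c ∧ ∀ n : ℕ, 1 ≤ n →
    c * (n : ℝ) ^ (-(3 / 4) : ℝ) ≤ KK' (n + 1) - KK' (K * n + 1) := by
  obtain ⟨C, hC1, hlow⟩ := BAR.KK_low
  obtain ⟨c0, hc0, hU⟩ := GLow.UU_low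
  have hC : 0 < C := by linarith
  -- K ^ (-3/4) small
  obtain ⟨K, hK2, hK⟩ : ∃ K : ℕ, 2 ≤ K ∧ (K : ℝ) ^ (-(3 / 4) : ℝ) ≤ c0 / (4 * C) := by
    have h1 : Filter.Tendsto (fun A : ℕ => (A : ℝ) ^ (-(3 / 4) : ℝ)) Filter.atTop (nhds 0) :=
      (tendsto_rpow_neg_atTop (by norm_num : (0 : ℝ) < 3 / 4)).comp tendsto_natCast_atTop_atTop
    obtain ⟨K, h2, h3⟩ := ((h1.eventually_lt_const (show 0 < c0 / (4 * C) by positivity)).and
      (Filter.eventually_ge_atTop 2)).exists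
    exact ⟨K, h3, h2.le⟩
  refine ⟨K, 1 / (4 * C), hK2, by positivity, fun n hn => ?_⟩
  have hn0 : (0 : ℝ) < n := by exact_mod_cast hn
  have hK0 : (0 : ℝ) < K := by exact_mod_cast (show 0 < K by omega)
  -- lower bound
  have a1 : (n : ℝ) ^ (-(3 / 4) : ℝ) / (2 * C) ≤ KK' (n + 1) := by
    refine le_trans ?_ (hlow n)
    have h1 : (n : ℝ) ^ (-(3 / 4) : ℝ) / 2 ≤ ((n : ℝ) + 1) ^ (-(3 / 4 : ℝ)) := by
      have h2 : ((n : ℝ) + 1) ≤ 2 * n := by
        have : (1 : ℝ) ≤ n := by exact_mod_cast hn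
        linarith
      have h3 : (2 * (n : ℝ)) ^ (-(3 / 4) : ℝ) ≤ ((n : ℝ) + 1) ^ (-(3 / 4 : ℝ)) :=
        Real.rpow_le_rpow_of_nonpos (by positivity) h2 (by norm_num)
      refine le_trans ?_ h3
      rw [Real.mul_rpow (by norm_num) hn0.le]
      have h4 : (1 / 2 : ℝ) ≤ (2 : ℝ) ^ (-(3 / 4) : ℝ) := by
        have : (2 : ℝ) ^ (-1 : ℝ) ≤ (2 : ℝ) ^ (-(3 / 4) : ℝ) :=
          Real.rpow_le_rpow_of_exponent_le (by norm_num) (by norm_num)
        rw [Real.rpow_neg_one] at this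
        linarith
      have h5 : 0 ≤ (n : ℝ) ^ (-(3 / 4) : ℝ) := by positivity
      nlinarith
    calc (n : ℝ) ^ (-(3 / 4) : ℝ) / (2 * C) = (n : ℝ) ^ (-(3 / 4) : ℝ) / 2 / C := by field_simp
      _ ≤ ((n : ℝ) + 1) ^ (-(3 / 4 : ℝ)) / C := by gcongr
  -- upper bound
  have a2 : KK' (K * n + 1) ≤ (n : ℝ) ^ (-(3 / 4) : ℝ) / (4 * C) := by
    have hKn : 1 ≤ K * n := Nat.one_le_iff_ne_zero.2 (by positivity)
    have h1 := UU_mul_KK (K * n)
    have h2 := hU (K * n) hKn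
    have h3 : (0 : ℝ) < c0 * ((K * n : ℕ) : ℝ) ^ (3 / 4 : ℝ) := by positivity
    have h4 : c0 * ((K * n : ℕ) : ℝ) ^ (3 / 4 : ℝ) * KK' (K * n + 1) ≤ 1 :=
      (mul_le_mul_of_nonneg_right h2 (KK_nonneg _)).trans h1
    have h5 : KK' (K * n + 1) ≤ 1 / (c0 * ((K * n : ℕ) : ℝ) ^ (3 / 4 : ℝ)) := by
      rw [le_div_iff₀ h3]
      linarith
    refine h5.trans ?_
    have e1 : 1 / (c0 * ((K * n : ℕ) : ℝ) ^ (3 / 4 : ℝ)) =
        (K : ℝ) ^ (-(3 / 4) : ℝ) * (n : ℝ) ^ (-(3 / 4) : ℝ) / c0 := by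
      push_cast
      rw [Real.mul_rpow hK0.le hn0.le, Real.rpow_neg hK0.le, Real.rpow_neg hn0.le]
      field_simp
    rw [e1]
    calc (K : ℝ) ^ (-(3 / 4) : ℝ) * (n : ℝ) ^ (-(3 / 4) : ℝ) / c0
        ≤ c0 / (4 * C) * (n : ℝ) ^ (-(3 / 4) : ℝ) / c0 := by gcongr
      _ = (n : ℝ) ^ (-(3 / 4) : ℝ) / (4 * C) := by field_simp
  have e2 : (n : ℝ) ^ (-(3 / 4) : ℝ) / (2 * C) - (n : ℝ) ^ (-(3 / 4) : ℝ) / (4 * C) =
      1 / (4 * C) * (n : ℝ) ^ (-(3 / 4) : ℝ) := by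
    field_simp
    ring
  linarith

/-- the wide pieces -/
def Wide (B : ℕ) : Set (List Bool) := {i | ∃ j, j ≤ i.length ∧ (B : ℤ) < |lat i j|}

/-- the wide irreducible pieces of height at least n -/
theorem irr_lat {ε : ℝ} (hε : 0 < ε) : ∃ R : ℕ, ∀ n : ℕ, 1 ≤ n →
    gf {i | i ∈ IG n ∧ i ∈ Wide (2 * R * n)} ≤ ENNReal.ofReal (ε * (n : ℝ) ^ (-(3 / 4) : ℝ)) := by
  classical
  obtain ⟨c0, hc0, hU⟩ := GLow.UU_low
  obtain ⟨R, hR⟩ := fb_tail (show 0 < ε * c0 / 2 by positivity)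
  refine ⟨R, fun n hn => ?_⟩
  have hn0 : (0 : ℝ) < n := by exact_mod_cast hn
  have h1 := hR n hn
  obtain ⟨Bad, hBad⟩ : ∃ Bad : Set (List Bool), Bad = {k | ∃ i, i ≤ k.length ∧ (R * n : ℤ) < |lat k i|} := ⟨_, rfl⟩
  have h2 : gf {k | k ∈ FB n ∧ k ∈ Bad} ≤ ENNReal.ofReal (ε * c0 / 2) := by
    refine le_trans (gf_mono ?_) h1
    rintro k ⟨a, b⟩
    refine ⟨a, Or.inr ?_⟩
    rw [hBad] at b
    exact b
  -- the exact sum
  have h3 := fb_sum hn fun k => if k ∈ Bad then 1 else 0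
  have h4 : ∑' k : FB n, wE k.1 * (if k.1 ∈ Bad then 1 else 0) = gf {k | k ∈ FB n ∧ k ∈ Bad} := by
    unfold gf
    rw [tsum_subtype (FB n) (fun k => wE k * (if k ∈ Bad then 1 else 0)),
      tsum_subtype {k | k ∈ FB n ∧ k ∈ Bad} (fun k => wE k)]
    refine tsum_congr fun k => ?_
    by_cases a : k ∈ FB n
    · rw [Set.indicator_of_mem a]
      by_cases b : k ∈ Bad
      · rw [if_pos b, mul_one, Set.indicator_of_mem (show k ∈ {k | k ∈ FB n ∧ k ∈ Bad} from ⟨a, b⟩)]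
      · rw [if_neg b, mul_zero, Set.indicator_of_notMem fun h => b h.2]
    · rw [Set.indicator_of_notMem a, Set.indicator_of_notMem fun h => a h.1]
  rw [h4] at h3
  rw [h3] at h2
  -- the terms
  obtain ⟨g, hg⟩ : ∃ g, g = gf {i | i ∈ IG n ∧ i ∈ Wide (2 * R * n)} := ⟨_, rfl⟩
  have h5 : ∀ h ∈ range n, ENNReal.ofReal (uu h) * g ≤
      ∑' i : IG (n - h), ∑' a : Brd h, wE a.1 * (wE i.1 * (if a.1 ++ i.1 ∈ Bad then 1 else 0)) := by
    intro h _
    have h6 : g ≤ ∑' i : IG (n - h), (if i.1 ∈ IG n ∧ i.1 ∈ Wide (2 * R * n) then wE i.1 else 0) := by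
      rw [hg]
      unfold gf
      rw [tsum_subtype {i | i ∈ IG n ∧ i ∈ Wide (2 * R * n)} (fun k => wE k),
        tsum_subtype (IG (n - h)) (fun i => if i ∈ IG n ∧ i ∈ Wide (2 * R * n) then wE i else 0)]
      refine ENNReal.tsum_le_tsum fun k => ?_
      by_cases a : k ∈ {i | i ∈ IG n ∧ i ∈ Wide (2 * R * n)}
      · have b : k ∈ IG (n - h) := by
          obtain ⟨⟨r, hr, hi⟩, -⟩ := a
          exact ⟨r, by omega, hi⟩
        have a' : k ∈ IG n ∧ k ∈ Wide (2 * R * n) := a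
        rw [Set.indicator_of_mem a, Set.indicator_of_mem b, if_pos a']
      · rw [Set.indicator_of_notMem a]
        exact zero_le
    refine (mul_le_mul_right h6 _).trans ?_
    rw [← ENNReal.tsum_mul_left]
    refine ENNReal.tsum_le_tsum fun i => ?_
    by_cases a : i.1 ∈ IG n ∧ i.1 ∈ Wide (2 * R * n)
    swap
    · rw [if_neg a, mul_zero]
      exact zero_le
    rw [if_pos a]
    have h7 : ENNReal.ofReal (uu h) * wE i.1 = ∑' b : Brd h, wE b.1 * (wE i.1 * 1) := by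
      rw [mul_one, ENNReal.tsum_mul_right, ← BT_eq_uu, ← gf_Brd]
      rfl
    rw [h7]
    refine ENNReal.tsum_le_tsum fun b => ?_
    have h8 : b.1 ++ i.1 ∈ Bad := by
      obtain ⟨j, hj, hlt⟩ := a.2
      have hb := (mem_Brd.1 b.2).2.2.1
      rw [hBad]
      by_cases hc : (R * n : ℤ) < |latE b.1|
      · refine ⟨b.1.length, by rw [List.length_append]; omega, ?_⟩
        rw [lat_append (by omega)]
        exact hc
      · refine ⟨b.1.length + j, by rw [List.length_append]; omega, ?_⟩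
        rw [lat_cat hb]
        rw [not_lt] at hc
        push_cast at hlt
        have h9 : |lat i.1 j| ≤ |latE b.1 + lat i.1 j| + |latE b.1| := by
          have := abs_sub (latE b.1 + lat i.1 j) (latE b.1)
          rwa [add_sub_cancel_left] at this
        linarith
    rw [if_pos h8]
  have h6 : ∑ h ∈ range n, ENNReal.ofReal (uu h) * g ≤ ENNReal.ofReal (ε * c0 / 2) := (sum_le_sum h5).trans h2
  rw [← sum_mul, ← ENNReal.ofReal_sum_of_nonneg fun h _ => (uu_pos h).le] at h6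
  obtain ⟨N, rfl⟩ : ∃ N, n = N + 1 := ⟨n - 1, by omega⟩
  have h7 : c0 / 2 * ((N + 1 : ℕ) : ℝ) ^ (3 / 4 : ℝ) ≤ ∑ h ∈ range (N + 1), uu h := by
    have h8 : ∑ h ∈ range (N + 1), uu h = UU N := rfl
    rw [h8]
    rcases Nat.eq_zero_or_pos N with h0 | h0
    · subst h0
      have h9 := hU 1 le_rfl
      have h10 : UU 1 = UU 0 + uu 1 := by
        unfold UU
        rw [sum_range_succ]
      have h11 : UU 0 = 1 := by
        unfold UU
        rw [sum_range_one, uu_zero]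
      have h12 : uu 1 ≤ 1 := by
        have := uu_anti (Nat.zero_le 1)
        rwa [uu_zero] at this
      simp only [Nat.cast_one, Real.one_rpow, mul_one, zero_add] at h9 ⊢
      linarith
    · have h9 := hU (2 * N) (by omega)
      have h10 : ((N + 1 : ℕ) : ℝ) ^ (3 / 4 : ℝ) ≤ ((2 * N : ℕ) : ℝ) ^ (3 / 4 : ℝ) := by
        refine Real.rpow_le_rpow (by positivity) ?_ (by norm_num)
        exact_mod_cast (show N + 1 ≤ 2 * N by omega)
      have h11 : UU (2 * N) ≤ 2 * UU N := by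
        unfold UU
        have h12 : ∑ t ∈ range (2 * N + 1), uu t = ∑ t ∈ range (N + 1), uu t + ∑ t ∈ range N, uu (N + 1 + t) := by
          rw [← sum_range_add]
          congr 2
          omega
        have h13 : ∑ t ∈ range N, uu (N + 1 + t) ≤ ∑ t ∈ range (N + 1), uu t := by
          calc ∑ t ∈ range N, uu (N + 1 + t) ≤ ∑ t ∈ range N, uu t := sum_le_sum fun t _ => uu_anti (by omega)
            _ ≤ ∑ t ∈ range (N + 1), uu t := sum_le_sum_of_subset_of_nonneg (range_subset_range.2 (by omega)) fun t _ _ => (uu_pos t).le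
        rw [h12]
        linarith
      have h12 : c0 * ((N + 1 : ℕ) : ℝ) ^ (3 / 4 : ℝ) ≤ 2 * UU N :=
        (mul_le_mul_of_nonneg_left h10 hc0.le).trans (h9.trans h11)
      linarith
  have hp : 0 < c0 / 2 * ((N + 1 : ℕ) : ℝ) ^ (3 / 4 : ℝ) := by positivity
  have h8 : ENNReal.ofReal (c0 / 2 * ((N + 1 : ℕ) : ℝ) ^ (3 / 4 : ℝ)) * g ≤ ENNReal.ofReal (ε * c0 / 2) :=
    (mul_le_mul_left (ENNReal.ofReal_le_ofReal h7) _).trans h6
  rw [← hg]
  have h9 : ENNReal.ofReal (ε * c0 / 2) = ENNReal.ofReal (c0 / 2 * ((N + 1 : ℕ) : ℝ) ^ (3 / 4 : ℝ)) *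
      ENNReal.ofReal (ε * ((N + 1 : ℕ) : ℝ) ^ (-(3 / 4) : ℝ)) := by
    rw [← ENNReal.ofReal_mul hp.le]
    congr 1
    rw [Real.rpow_neg (by positivity)]
    field_simp
  rw [h9] at h8
  exact (ENNReal.mul_le_mul_iff_right (ENNReal.ofReal_pos.2 hp).ne' ENNReal.ofReal_ne_top).1 h8

/-- **the narrow irreducible pieces with a height in (n, K n]** -/
lemma brd_par {t : List Bool} {r : ℕ} (ht : t ∈ Brd r) : Even (latE t - (r : ℤ)) := by
  have h1 := (mem_Brd.1 ht).2.2.2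
  have h2 : Even (latE t + lev t t.length) := by
    unfold latE lat lev
    refine ⟨(vx oo up t t.length).1 * up.1 + (vx oo up t t.length).1 * up.2 +
      (vx oo up t t.length).2 * up.2, ?_⟩
    unfold cross ip
    ring
  rw [Int.even_iff] at h2 ⊢
  omega

theorem irr_box : ∃ (K R : ℕ) (c : ℝ), 2 ≤ K ∧ 0 < c ∧ ∀ n : ℕ, 1 ≤ n →
    ENNReal.ofReal (c * (n : ℝ) ^ (-(3 / 4) : ℝ)) ≤
      ∑ r ∈ Ioc n (K * n), gf {i | i ∈ Irr r ∧ i ∉ Wide (2 * R * n)} := by
  classical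
  obtain ⟨K, c, hK, hc, hwin⟩ := kk_win
  obtain ⟨R, hR⟩ := irr_lat (show 0 < c / 2 by positivity)
  refine ⟨K, R, c / 2, hK, by positivity, fun n hn => ?_⟩
  have hn0 : (0 : ℝ) < n := by exact_mod_cast hn
  have hp : 0 ≤ (n : ℝ) ^ (-(3 / 4) : ℝ) := by positivity
  have h1 : ENNReal.ofReal (c * (n : ℝ) ^ (-(3 / 4) : ℝ)) ≤ ∑ r ∈ Ioc n (K * n), gf (Irr r) := by
    have e1 : ∑ r ∈ Ioc n (K * n), gf (Irr r) = ENNReal.ofReal (∑ r ∈ Ioc n (K * n), kk r) := by
      rw [ENNReal.ofReal_sum_of_nonneg fun r _ => kk_nonneg r]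
      exact sum_congr rfl fun r _ => kap'_eq r
    rw [e1]
    refine ENNReal.ofReal_le_ofReal ((hwin n hn).trans (le_of_eq ?_))
    have e2 : ∑ r ∈ Ioc n (K * n), kk r = ∑ r ∈ Ico (n + 1) (K * n + 1), kk r := by
      congr 1
      ext r
      rw [mem_Ioc, mem_Ico]
      omega
    have h2 : n + 1 ≤ K * n + 1 := by nlinarith
    rw [e2, sum_Ico_eq_sub _ h2]
    unfold KK'
    ring
  have h2 : ∑ r ∈ Ioc n (K * n), gf (Irr r) ≤ ∑ r ∈ Ioc n (K * n), gf {i | i ∈ Irr r ∧ i ∉ Wide (2 * R * n)} +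
      ∑ r ∈ Ioc n (K * n), gf {i | i ∈ Irr r ∧ i ∈ Wide (2 * R * n)} := by
    rw [← sum_add_distrib]
    refine sum_le_sum fun r _ => (gf_mono fun i hi => ?_).trans (gf_union_le _ _)
    by_cases a : i ∈ Wide (2 * R * n)
    · exact Or.inr ⟨hi, a⟩
    · exact Or.inl ⟨hi, a⟩
  have h3 : ∑ r ∈ Ioc n (K * n), gf {i | i ∈ Irr r ∧ i ∈ Wide (2 * R * n)} ≤
      ENNReal.ofReal (c / 2 * (n : ℝ) ^ (-(3 / 4) : ℝ)) := by
    refine le_trans ?_ (hR n hn)
    have e3 : ∑ r ∈ Ioc n (K * n), gf {i | i ∈ Irr r ∧ i ∈ Wide (2 * R * n)} =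
        gf (⋃ r : Ioc n (K * n), {i | i ∈ Irr (r : ℕ) ∧ i ∈ Wide (2 * R * n)}) := by
      rw [K1.gf_iUnion, tsum_fintype, ← sum_coe_sort (Ioc n (K * n))]
      rintro ⟨i, hi⟩ ⟨j, hj⟩ t h7 h8
      exact Subtype.ext (Brd_height h7.1.1 h8.1.1)
    rw [e3]
    refine gf_mono fun i hi => ?_
    obtain ⟨⟨r, hr⟩, h4, h5⟩ := Set.mem_iUnion.1 hi
    exact ⟨⟨r, by have := (mem_Ioc.1 hr).1; omega, h4⟩, h5⟩
  obtain ⟨S, hS⟩ : ∃ S, S = ∑ r ∈ Ioc n (K * n), gf {i | i ∈ Irr r ∧ i ∉ Wide (2 * R * n)} := ⟨_, rfl⟩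
  rw [← hS] at h2 ⊢
  have h4 : ENNReal.ofReal (c / 2 * (n : ℝ) ^ (-(3 / 4) : ℝ)) + ENNReal.ofReal (c / 2 * (n : ℝ) ^ (-(3 / 4) : ℝ)) ≤
      S + ENNReal.ofReal (c / 2 * (n : ℝ) ^ (-(3 / 4) : ℝ)) := by
    rw [← ENNReal.ofReal_add (by positivity) (by positivity)]
    have e4 : c / 2 * (n : ℝ) ^ (-(3 / 4) : ℝ) + c / 2 * (n : ℝ) ^ (-(3 / 4) : ℝ) = c * (n : ℝ) ^ (-(3 / 4) : ℝ) := by
      ring
    rw [e4]
    exact h1.trans (h2.trans (add_le_add le_rfl h3))
  exact (ENNReal.add_le_add_iff_right ENNReal.ofReal_ne_top).1 h4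

/-! ### 2. the blocks -/

/-- the blocks in the tube of a graph with the end prescribed -/
def TB (m T : ℕ) (x : ℤ) (f : ℝ → ℝ) (η : ℝ) : Set (List Bool) :=
  {b | b ∈ FB m ∧ b ∈ Brd T ∧ latE b = x ∧ (∀ i, i ≤ b.length → |(lat b i : ℝ) - f ((lev b i : ℝ) / 3)| ≤ η * m) ∧
    ∃ h : ℕ, (1 - η) * m ≤ h ∧ h < m ∧ Cut b h}

/-- **the blocks between two native gates from below** -/
theorem blk_low (R : ℕ) {η : ℝ} (hη : 0 < η) : ∃ (α c : ℝ) (m0 : ℕ), 0 < α ∧ α ≤ η ∧ 0 < c ∧ ∀ f : ℝ → ℝ,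
    (∀ a b, |f a - f b| ≤ R * |a - b|) → f 0 = 0 → ∀ (m T : ℕ) (x : ℤ), m0 ≤ m → (1 + α) * m ≤ T →
    (T : ℝ) ≤ (1 + 2 * α) * m → Even (x - T) → |(x : ℝ) - f m| ≤ α * m →
      ENNReal.ofReal (c / (m : ℝ) ^ 2) ≤ gf (TB m T x f η) := by
  classical
  obtain ⟨K, R1, cI, hK2, hcI, hI⟩ := irr_box
  obtain ⟨cL, t0, hcL, htube⟩ := RP.localTubeF (R + 1) (show (0 : ℝ) < η / 4 by positivity)
  obtain ⟨cu, hcu, hu⟩ := GLow.uu_low
  have hRr : (0 : ℝ) ≤ R := Nat.cast_nonneg R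
  have hR1r : (0 : ℝ) ≤ R1 := Nat.cast_nonneg R1
  have hKr : (2 : ℝ) ≤ K := by exact_mod_cast hK2
  obtain ⟨η0, hη0⟩ : ∃ η0 : ℝ, η0 = min η (1 / 2) := ⟨_, rfl⟩
  have h00 : 0 < η0 := by rw [hη0]; exact lt_min hη (by norm_num)
  have h01 : η0 ≤ η := by rw [hη0]; exact min_le_left _ _
  have h02 : η0 ≤ 1 / 2 := by rw [hη0]; exact min_le_right _ _
  obtain ⟨D, hD⟩ : ∃ D : ℝ, D = 8 * ((K + 1) * (R + 1) * (R1 + 1)) := ⟨_, rfl⟩
  have hDp : 0 < D := by rw [hD]; positivity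
  obtain ⟨α, hα⟩ : ∃ α : ℝ, α = η0 / D := ⟨_, rfl⟩
  have hα0 : 0 < α := by rw [hα]; positivity
  have hαD : α * D = η0 := by rw [hα]; field_simp
  -- the small quantities
  have s0 : 8 * (α * (K + 1)) ≤ η0 := by
    have h1 : (K : ℝ) + 1 ≤ (K + 1) * (R + 1) * (R1 + 1) := by
      have h2 : (1 : ℝ) ≤ (R + 1) * (R1 + 1) := by nlinarith [mul_nonneg hRr hR1r]
      nlinarith
    have h3 := mul_le_mul_of_nonneg_left h1 hα0.le
    rw [hD] at hαD
    linarith
  have s1 : 8 * (α * (R * K)) ≤ η0 := by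
    have h1 : (R : ℝ) * K ≤ (K + 1) * (R + 1) * (R1 + 1) := by
      have h2 : (R : ℝ) * K ≤ (K + 1) * (R + 1) := by nlinarith
      have h3 : (0 : ℝ) ≤ (K + 1) * (R + 1) * R1 := by positivity
      nlinarith
    have h3 := mul_le_mul_of_nonneg_left h1 hα0.le
    rw [hD] at hαD
    linarith
  have s2 : 24 * (α * R1) ≤ η0 := by
    have h1 : 3 * (R1 : ℝ) ≤ (K + 1) * (R + 1) * (R1 + 1) := by
      have h2 : (3 : ℝ) ≤ (K + 1) * (R + 1) := by nlinarith
      nlinarith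
    have h3 := mul_le_mul_of_nonneg_left h1 hα0.le
    rw [hD] at hαD
    linarith
  have s3 : 24 * α ≤ η0 := by nlinarith
  obtain ⟨c, hc⟩ : ∃ c : ℝ, c = cL * cu * cI * (2 * α) ^ (-(3 / 4) : ℝ) := ⟨_, rfl⟩
  have hc0 : 0 < c := by rw [hc]; positivity
  refine ⟨α, c, 2 * t0 + ⌈1 / α⌉₊ + 1, hα0, by linarith, hc0, ?_⟩
  intro f hf f0 m T x hm hT1 hT2 hev hx
  have hm1 : 1 ≤ m := by omega
  have hmr : (0 : ℝ) < m := by exact_mod_cast hm1
  have hmα : 1 ≤ α * m := by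
    have h1 := Nat.le_ceil (1 / α)
    have h2 : (⌈1 / α⌉₊ : ℝ) ≤ m := by exact_mod_cast (show ⌈1 / α⌉₊ ≤ m by omega)
    have h3 : 1 / α ≤ m := h1.trans h2
    rw [div_le_iff₀ hα0] at h3
    linarith
  have hTm : m < T := by
    have : (m : ℝ) < T := by nlinarith
    exact_mod_cast this
  obtain ⟨n, rfl⟩ : ∃ n, T = m + n := ⟨T - m, by omega⟩
  push_cast at hT1 hT2
  have hn1 : α * m ≤ n := by linarith
  have hn2 : (n : ℝ) ≤ 2 * (α * m) := by linarith
  have hn : 1 ≤ n := by omega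
  have hnr : (0 : ℝ) < n := by exact_mod_cast hn
  have hKn : (K : ℝ) * n ≤ η0 / 4 * m := by
    have h1 : (K : ℝ) * n ≤ K * (2 * (α * m)) := by gcongr
    nlinarith
  have hKm : K * n ≤ m := by
    have : ((K * n : ℕ) : ℝ) ≤ m := by
      push_cast
      nlinarith
    exact_mod_cast this
  -- the exact sum
  have h3 := fb_sum hm1 fun k => if k ∈ TB m (m + n) x f η then 1 else 0
  have h4 : ∑' k : FB m, wE k.1 * (if k.1 ∈ TB m (m + n) x f η then 1 else 0) = gf (TB m (m + n) x f η) := by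
    unfold gf
    rw [tsum_subtype (FB m) (fun k => wE k * (if k ∈ TB m (m + n) x f η then 1 else 0)),
      tsum_subtype (TB m (m + n) x f η) (fun k => wE k)]
    refine tsum_congr fun k => ?_
    by_cases b : k ∈ TB m (m + n) x f η
    · rw [Set.indicator_of_mem b, Set.indicator_of_mem (show k ∈ FB m from b.1), if_pos b, mul_one]
    · rw [Set.indicator_of_notMem b]
      by_cases a : k ∈ FB m
      · rw [Set.indicator_of_mem a, if_neg b, mul_zero]
      · rw [Set.indicator_of_notMem a]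
  rw [h4] at h3
  rw [h3]
  -- one irreducible piece
  have key : ∀ r ∈ Ioc n (K * n), ∀ i ∈ {i | i ∈ Irr r ∧ i ∉ Wide (2 * R1 * n)},
      ENNReal.ofReal (cL * (uu m / m)) * wE i ≤
        ∑' a : Brd (m + n - r), wE a.1 * (wE i * (if a.1 ++ i ∈ TB m (m + n) x f η then 1 else 0)) := by
    rintro r hr i ⟨hi, hw⟩
    obtain ⟨hr1, hr2⟩ := mem_Ioc.1 hr
    obtain ⟨h, hh⟩ : ∃ h, h = m + n - r := ⟨_, rfl⟩
    rw [← hh]
    have hhm : h < m := by omega
    have hhT : h + r = m + n := by omega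
    have hrr : (r : ℝ) ≤ K * n := by exact_mod_cast hr2
    have hhr : (h : ℝ) = m + n - r := by
      have : (h : ℝ) + r = m + n := by exact_mod_cast hhT
      linarith
    have hh1 : (m : ℝ) - K * n ≤ h := by rw [hhr]; linarith
    have hh2 : (m : ℝ) / 2 ≤ h := by nlinarith
    have hh0 : (0 : ℝ) < h := by linarith
    have hht : t0 ≤ h := by
      have h5 : ((2 * t0 : ℕ) : ℝ) ≤ m := by exact_mod_cast (show 2 * t0 ≤ m by omega)
      push_cast at h5
      have : (t0 : ℝ) ≤ h := by linarith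
      exact_mod_cast this
    have hhm' : (h : ℝ) ≤ m := by exact_mod_cast hhm.le
    have hib := (mem_Brd.1 hi.1)
    have hwi : ∀ j, j ≤ i.length → |(lat i j : ℝ)| ≤ 2 * R1 * n := by
      intro j hj
      by_contra hcon
      rw [not_le] at hcon
      refine hw ⟨j, hj, ?_⟩
      have : ((2 * R1 * n : ℕ) : ℝ) < ((|lat i j| : ℤ) : ℝ) := by
        push_cast
        exact hcon
      exact_mod_cast this
    obtain ⟨x', hx'⟩ : ∃ x' : ℤ, x' = x - latE i := ⟨_, rfl⟩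
    have hw0 : |(latE i : ℝ)| ≤ 2 * R1 * n := hwi _ le_rfl
    have hRn : 2 * (R1 : ℝ) * n ≤ η0 / 6 * m := by
      have h1 : 2 * (R1 : ℝ) * n ≤ 2 * R1 * (2 * (α * m)) := by gcongr
      nlinarith
    have hRKn : (R : ℝ) * (K * n) ≤ η0 / 4 * m := by
      have h1 : (R : ℝ) * (K * n) ≤ R * (K * (2 * (α * m))) := by gcongr
      nlinarith
    have hfm : |f m - f h| ≤ η0 / 4 * m := by
      refine (hf m h).trans (le_trans ?_ hRKn)
      refine mul_le_mul_of_nonneg_left ?_ hRr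
      rw [abs_of_nonneg (by linarith)]
      linarith
    have hx'f : |(x' : ℝ) - f h| ≤ η0 * (13 / 24) * m := by
      have e1 : (x' : ℝ) - f h = (x - f m) + (f m - f h) - latE i := by
        rw [hx']
        push_cast
        ring
      rw [e1]
      have h5 := abs_sub ((x : ℝ) - f m + (f m - f h)) (latE i)
      have h6 := abs_add_le ((x : ℝ) - f m) (f m - f h)
      have h7 : α * m ≤ η0 / 24 * m := by nlinarith
      nlinarith
    -- the profile
    obtain ⟨s, hs⟩ : ∃ s : ℝ, s = ((x' : ℝ) - f h) / h := ⟨_, rfl⟩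
    have hsh : s * h = x' - f h := by rw [hs]; field_simp
    have hs1 : |s| ≤ 1 := by
      rw [hs, abs_div, abs_of_pos hh0, div_le_one hh0]
      refine hx'f.trans ?_
      nlinarith
    have hparity : Even (x' - (h : ℤ)) := by
      have h5 := brd_par hi.1
      have h6 : (h : ℤ) + r = m + n := by exact_mod_cast hhT
      rw [hx']
      rw [Int.even_iff] at hev h5 ⊢
      push_cast at hev
      omega
    have hloc := htube (fun y => f y + s * y) (by
      intro a b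
      have e1 : (fun y : ℝ => f y + s * y) a - (fun y : ℝ => f y + s * y) b = (f a - f b) + s * (a - b) := by
        simp only
        ring
      rw [e1]
      refine (abs_add_le _ _).trans ?_
      rw [abs_mul]
      have h5 := hf a b
      have h6 := mul_le_mul_of_nonneg_right hs1 (abs_nonneg (a - b))
      push_cast
      linarith) (by
        show f 0 + s * 0 = 0
        rw [f0]
        ring) h x' hht hparity (by
        show f h + s * h = (x' : ℝ)
        rw [hsh]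
        ring)
    have h5 : ENNReal.ofReal (cL * (uu m / m)) ≤ ENNReal.ofReal (cL * (uu h / h)) := by
      refine ENNReal.ofReal_le_ofReal (mul_le_mul_of_nonneg_left ?_ hcL.le)
      exact div_le_div₀ (uu_pos h).le (uu_anti hhm.le) hh0 hhm'
    refine (mul_le_mul_left (h5.trans hloc) _).trans ?_
    unfold gf
    rw [← ENNReal.tsum_mul_right,
      tsum_subtype {b | b ∈ RP.EndB h x' ∧ ∀ i, i ≤ b.length →
        |(lat b i : ℝ) - (fun y => f y + s * y) ((lev b i : ℝ) / 3)| ≤ η / 4 * h} (fun a => wE a * wE i),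
      tsum_subtype (Brd h) (fun a => wE a * (wE i * (if a ++ i ∈ TB m (m + n) x f η then 1 else 0)))]
    refine ENNReal.tsum_le_tsum fun a => ?_
    by_cases ha : a ∈ {b | b ∈ RP.EndB h x' ∧ ∀ i, i ≤ b.length →
        |(lat b i : ℝ) - (fun y => f y + s * y) ((lev b i : ℝ) / 3)| ≤ η / 4 * h}
    swap
    · rw [Set.indicator_of_notMem ha]
      exact zero_le
    obtain ⟨⟨ha1, ha2⟩, ha3⟩ := ha
    have hab := mem_Brd.1 ha1
    rw [Set.indicator_of_mem (show a ∈ Brd h from ha1), Set.indicator_of_mem (show a ∈ {b | b ∈ RP.EndB h x' ∧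
      ∀ i, i ≤ b.length → |(lat b i : ℝ) - (fun y => f y + s * y) ((lev b i : ℝ) / 3)| ≤ η / 4 * h}
      from ⟨⟨ha1, ha2⟩, ha3⟩)]
    have hmem : a ++ i ∈ TB m (m + n) x f η := by
      refine ⟨(fb_dec hm1 _).2 ⟨h, a, i, hhm, ha1, ⟨r, by omega, hi⟩, rfl⟩, ?_, ?_, ?_, ?_⟩
      · rw [← hhT]
        exact Brd_append ha1 hi.1
      · rw [latE_cat hab.2.2.1, ha2, hx']
        ring
      · intro j hj
        rcases Nat.lt_or_ge a.length j with h6 | h6
        · obtain ⟨k, rfl⟩ := Nat.exists_eq_add_of_le h6.le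
          have hk : k ≤ i.length := by
            rw [List.length_append] at hj
            omega
          rw [lat_cat hab.2.2.1, lev_cat hab.2.2.1, ha2, hab.2.2.2]
          obtain ⟨l1, l2⟩ := Ex.lev_range hi.1 hk
          have hl := hwi k hk
          have h7 : |f h - f (((3 * (h : ℤ) + lev i k : ℤ) : ℝ) / 3)| ≤ η0 / 4 * m := by
            refine (hf _ _).trans (le_trans ?_ hRKn)
            refine mul_le_mul_of_nonneg_left ?_ hRr
            push_cast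
            have e2 : (h : ℝ) - (3 * (h : ℝ) + lev i k) / 3 = -((lev i k : ℝ) / 3) := by ring
            rw [e2, abs_neg, abs_of_nonneg l1]
            exact l2.trans hrr
          have e3 : (((x' + lat i k : ℤ) : ℝ)) - f (((3 * (h : ℤ) + lev i k : ℤ) : ℝ) / 3) =
              (x' - f h) + (f h - f (((3 * (h : ℤ) + lev i k : ℤ) : ℝ) / 3)) + lat i k := by
            push_cast
            ring
          rw [e3]
          have h8 := abs_add_le (((x' : ℝ) - f h) + (f h - f (((3 * (h : ℤ) + lev i k : ℤ) : ℝ) / 3))) (lat i k)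
          have h9 := abs_add_le ((x' : ℝ) - f h) (f h - f (((3 * (h : ℤ) + lev i k : ℤ) : ℝ) / 3))
          nlinarith
        · rw [lat_append (by omega), lev_append (by omega)]
          obtain ⟨l1, l2⟩ := Ex.lev_range ha1 h6
          have h7 := ha3 j h6
          simp only at h7
          have h8 : |s * ((lev a j : ℝ) / 3)| ≤ |(x' : ℝ) - f h| := by
            rw [← hsh, abs_mul, abs_mul, abs_of_pos hh0, abs_of_nonneg l1]
            exact mul_le_mul_of_nonneg_left l2 (abs_nonneg _)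
          have e3 : (lat a j : ℝ) - f ((lev a j : ℝ) / 3) =
              ((lat a j : ℝ) - (f ((lev a j : ℝ) / 3) + s * ((lev a j : ℝ) / 3))) + s * ((lev a j : ℝ) / 3) := by
            ring
          rw [e3]
          have h9 := abs_add_le ((lat a j : ℝ) - (f ((lev a j : ℝ) / 3) + s * ((lev a j : ℝ) / 3)))
            (s * ((lev a j : ℝ) / 3))
          nlinarith
      · refine ⟨h, ?_, hhm, ⟨a, i, r, ha1, hi.1, rfl⟩⟩
        nlinarith
    rw [if_pos hmem, mul_one]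
  -- the sum over the heights
  obtain ⟨t, ht⟩ : ∃ t : ℕ → ℝ≥0∞, t = fun h => ∑' i : IG (m - h), ∑' a : Brd h,
      wE a.1 * (wE i.1 * (if a.1 ++ i.1 ∈ TB m (m + n) x f η then 1 else 0)) := ⟨_, rfl⟩
  have h5 : ∀ r ∈ Ioc n (K * n), ENNReal.ofReal (cL * (uu m / m)) * gf {i | i ∈ Irr r ∧ i ∉ Wide (2 * R1 * n)} ≤
      t (m + n - r) := by
    intro r hr
    have hk := key r hr
    obtain ⟨hr1, hr2⟩ := mem_Ioc.1 hr
    rw [ht]
    unfold gf
    simp only
    rw [← ENNReal.tsum_mul_left,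
      tsum_subtype {i | i ∈ Irr r ∧ i ∉ Wide (2 * R1 * n)} (fun i => ENNReal.ofReal (cL * (uu m / m)) * wE i),
      tsum_subtype (IG (m - (m + n - r))) (fun i => ∑' a : Brd (m + n - r),
        wE a.1 * (wE i * (if a.1 ++ i ∈ TB m (m + n) x f η then 1 else 0)))]
    refine ENNReal.tsum_le_tsum fun i => ?_
    by_cases hi : i ∈ {i | i ∈ Irr r ∧ i ∉ Wide (2 * R1 * n)}
    · rw [Set.indicator_of_mem hi, Set.indicator_of_mem (show i ∈ IG (m - (m + n - r)) from ⟨r, by omega, hi.1⟩)]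
      exact hk i hi
    · rw [Set.indicator_of_notMem hi]
      exact zero_le
  have h6 : ∑ r ∈ Ioc n (K * n), t (m + n - r) ≤ ∑ h ∈ range m, t h := by
    have hinj : ∀ r ∈ Ioc n (K * n), ∀ r' ∈ Ioc n (K * n), m + n - r = m + n - r' → r = r' := by
      intro r hr r' hr' he
      have h1 := mem_Ioc.1 hr
      have h2 := mem_Ioc.1 hr'
      omega
    rw [← sum_image (f := t) (g := fun r => m + n - r) hinj]
    refine sum_le_sum_of_subset_of_nonneg (fun h hh => ?_) fun _ _ _ => zero_le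
    obtain ⟨r, hr, rfl⟩ := mem_image.1 hh
    have h1 := mem_Ioc.1 hr
    rw [mem_range]
    omega
  rw [ht] at h6
  refine le_trans ?_ h6
  rw [ht] at h5
  refine le_trans ?_ (sum_le_sum h5)
  rw [← mul_sum]
  refine le_trans ?_ (mul_le_mul_right (hI n hn) _)
  rw [← ENNReal.ofReal_mul (by have := uu_pos m; positivity)]
  refine ENNReal.ofReal_le_ofReal ?_
  have hum := hu m hm1
  have h7 : (2 * α) ^ (-(3 / 4) : ℝ) * (m : ℝ) ^ (-(3 / 4) : ℝ) ≤ (n : ℝ) ^ (-(3 / 4) : ℝ) := by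
    rw [← Real.mul_rpow (by positivity) hmr.le]
    exact Real.rpow_le_rpow_of_nonpos hnr (by linarith) (by norm_num)
  have h8 : (m : ℝ) ^ (-(1 / 4) : ℝ) / m * (m : ℝ) ^ (-(3 / 4) : ℝ) = 1 / (m : ℝ) ^ 2 := by
    have e1 : (m : ℝ) ^ (-(1 / 4) : ℝ) * (m : ℝ) ^ (-(3 / 4) : ℝ) = 1 / m := by
      rw [← Real.rpow_add hmr]
      norm_num
      rw [Real.rpow_neg_one]
    calc (m : ℝ) ^ (-(1 / 4) : ℝ) / m * (m : ℝ) ^ (-(3 / 4) : ℝ)
        = ((m : ℝ) ^ (-(1 / 4) : ℝ) * (m : ℝ) ^ (-(3 / 4) : ℝ)) / m := by ring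
      _ = 1 / (m : ℝ) ^ 2 := by rw [e1]; field_simp
  calc c / (m : ℝ) ^ 2 = cL * cu * cI * (2 * α) ^ (-(3 / 4) : ℝ) * (1 / (m : ℝ) ^ 2) := by rw [hc]; ring
    _ = cL * ((cu * (m : ℝ) ^ (-(1 / 4) : ℝ)) / m) * (cI * ((2 * α) ^ (-(3 / 4) : ℝ) * (m : ℝ) ^ (-(3 / 4) : ℝ))) := by
        rw [← h8]
        ring
    _ ≤ cL * (uu m / m) * (cI * (n : ℝ) ^ (-(3 / 4) : ℝ)) := by
        have hum0 := uu_pos m
        have h9 : 0 ≤ cL * (uu m / m) := by positivity
        gcongr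

end FP

end ROT

end HexObs
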