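import Pool.Agent.ROT.F3Len
import Pool.Agent.EN.GBM
import Pool.Agent.NT.FactB
import Pool.Agent.NT.SeqEx
import Pool.Agent.NTA.Quan

/-!
# ROT / F3BlkM (helper69): the modulus of continuity of a block

* `lz` : the natural scales `l k ≍ 2 ^ (4 k / 3)`, good at every scale;
* `BMx x y` : the words with two positions at distance at most `x` letters, whose levels differ by `y` or more;
* `brd_mod` : bridges of some height in `[R m, 2 R m]`;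
* **`fb_mod`** : the blocks `FB m` in `BMx (δ m ^ (4 / 3)) (ρ m)` have mass at most `ε`.
-/

set_option autoImplicit false

namespace HexObs

namespace ROT

namespace FP

open Finset ENNReal SDN TS

/-- the natural scales -/
theorem lz : ∃ (l : ℕ → ℕ) (θ c : ℝ), 0 < c ∧ NTm.Seq θ l ∧ NTm.Good l Set.univ ∧
    ∀ k, c * ((2 : ℝ) ^ k) ^ (4 / 3 : ℝ) ≤ l k := by
  obtain ⟨c, c', hc, hc', h1⟩ := EN.c1_M
  obtain ⟨θ, hθ⟩ : ∃ θ : ℝ, θ = min (c' / 2) (1 / 2) := ⟨_, rfl⟩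
  have h0 : 0 < θ := by
    rw [hθ]
    exact lt_min (by positivity) (by norm_num)
  have h2 : θ < c' := lt_of_le_of_lt (hθ.le.trans (min_le_left _ _)) (by linarith)
  have h3 : θ < 1 := lt_of_le_of_lt (hθ.le.trans (min_le_right _ _)) (by norm_num)
  obtain ⟨l, hl⟩ := NTm.seq_exists h0 h3
  obtain ⟨C, hC, hu⟩ := NTA.quan_up hl NTA.mlow_M NTA.mup_M NTA.tb_M
  have hlo := NTA.quan_low (m := fun k => PW.mZ (2 ^ k)) hl h0.le h1 h2
  obtain ⟨cz, Cz, hcz, hCz, hz⟩ := JNT.shp_M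
  refine ⟨l, θ, c * cz / 2, by positivity, hl, NTA.good_univ NTA.mup_M hC hc hu hlo, fun k => ?_⟩
  have e1 := hlo k
  have e2 := (hz k).1
  have e3 : c * (cz * ((2 : ℝ) ^ k) ^ (4 / 3 : ℝ)) ≤ c * PW.mZ (2 ^ k) := mul_le_mul_of_nonneg_left e2 hc.le
  have e4 : c * PW.mZ (2 ^ k) ≤ 2 * l k := e1
  linarith

/-- two positions at distance at most `x` letters, whose levels (in one of two directions) differ by `y` or more -/
def BMx (x y : ℝ) : Set (List Bool) := {t | ∃ (dir : Bool) (i j : ℕ), i ≤ j ∧ j ≤ t.length ∧ (j : ℝ) - i ≤ x ∧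
  y ≤ |((lvl dir (vx oo up t j) - lvl dir (vx oo up t i) : ℤ) : ℝ)|}

lemma BMx_append {x y : ℝ} {a : List Bool} (u : List Bool) (h : a ∈ BMx x y) : a ++ u ∈ BMx x y := by
  obtain ⟨dir, i, j, hij, hj, h1, h2⟩ := h
  refine ⟨dir, i, j, hij, hj.trans (by rw [List.length_append]; omega), h1, ?_⟩
  rwa [vx_append (by omega), vx_append (by omega)]

/-- bridges of some height in `[R m, 2 R m]` -/
theorem brd_mod {ρ ε : ℝ} (hρ : 0 < ρ) (hε : 0 < ε) {R : ℕ} (hR : 1 ≤ R) : ∃ (δ : ℝ) (m0 : ℕ), 0 < δ ∧ ∀ m : ℕ, m0 ≤ m →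
    ∃ n : ℕ, R * m ≤ n ∧ n ≤ 2 * (R * m) ∧
      gf {t | t ∈ Brd n ∧ t ∈ BMx (δ * (m : ℝ) ^ (4 / 3 : ℝ)) (ρ * m)} ≤ ENNReal.ofReal (ε * bT n) := by
  obtain ⟨K, hK, hlen⟩ := brd_len
  obtain ⟨l, θ, c, hc, hl, hG, hlo⟩ := lz
  obtain ⟨cq, hcq, hq⟩ := GLow.uu_low
  obtain ⟨CU, hCU, hU⟩ := GLow.UU_up
  have hR0 : (0 : ℝ) < R := by exact_mod_cast hR
  obtain ⟨A, hA⟩ : ∃ A : ℝ, A = 2 * K / ε := ⟨_, rfl⟩
  have hA0 : 0 < A := by
    rw [hA]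
    positivity
  -- the scale
  obtain ⟨B, hB1, hB⟩ : ∃ B : ℕ, 1 ≤ B ∧ A * (2 * R : ℝ) ^ (4 / 3 : ℝ) ≤ c * (B : ℝ) ^ (4 / 3 : ℝ) := by
    obtain ⟨B, hB⟩ := exists_nat_ge (max 1 (A * (2 * R : ℝ) ^ (4 / 3 : ℝ) / c))
    have h1 : (1 : ℝ) ≤ B := (le_max_left _ _).trans hB
    have h2 : A * (2 * R : ℝ) ^ (4 / 3 : ℝ) / c ≤ B := (le_max_right _ _).trans hB
    refine ⟨B, by exact_mod_cast h1, ?_⟩
    rw [div_le_iff₀ hc] at h2
    have h3 : (B : ℝ) ≤ (B : ℝ) ^ (4 / 3 : ℝ) := by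
      calc (B : ℝ) = (B : ℝ) ^ (1 : ℝ) := (Real.rpow_one _).symm
        _ ≤ _ := Real.rpow_le_rpow_of_exponent_le h1 (by norm_num)
    nlinarith
  have hB0 : (0 : ℝ) < B := by exact_mod_cast hB1
  obtain ⟨ε1, hε1⟩ : ∃ ε1 : ℝ, ε1 = ε / 2 * cq * (2 * R : ℝ) ^ (-(1 / 4) : ℝ) * R / (CU * (2 * B : ℝ) ^ (3 / 4 : ℝ)) :=
    ⟨_, rfl⟩
  have hε10 : 0 < ε1 := by
    rw [hε1]
    positivity
  obtain ⟨ρ0, L0, hρ0, hmod⟩ := NTm.facts_modu hl hG (ρ / (2 * B)) ε1 (by positivity) hε10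
  refine ⟨ρ0 * c, max 2 (2 ^ L0), by positivity, fun m hm => ?_⟩
  have hm2 : 2 ≤ m := (le_max_left _ _).trans hm
  have hmL : 2 ^ L0 ≤ m := (le_max_right _ _).trans hm
  have hm0 : (0 : ℝ) < m := by
    have : 0 < m := by omega
    exact_mod_cast this
  obtain ⟨L, hL⟩ : ∃ L : ℕ, L = Nat.clog 2 (B * m) := ⟨_, rfl⟩
  have hBm : m ≤ B * m := Nat.le_mul_of_pos_left m (by omega)
  have hL1 : B * m ≤ 2 ^ L := by
    rw [hL]
    exact Nat.le_pow_clog (by norm_num) _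
  have hL2 : 2 ^ L ≤ 2 * (B * m) := by
    have h1 := Nat.pow_pred_clog_lt_self (b := 2) (by norm_num) (x := B * m) (by omega)
    rw [← hL] at h1
    have h2 : L ≠ 0 := by
      intro h
      rw [h, pow_zero] at hL1
      omega
    obtain ⟨L', rfl⟩ := Nat.exists_eq_succ_of_ne_zero h2
    rw [Nat.pred_succ] at h1
    rw [Nat.succ_eq_add_one, pow_succ]
    omega
  have hL3 : L0 ≤ L := (Nat.pow_le_pow_iff_right (by norm_num : 1 < 2)).1 (hmL.trans (hBm.trans hL1))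
  have hL1' : (B : ℝ) * m ≤ (2 : ℝ) ^ L := by exact_mod_cast hL1
  have hL2' : (2 : ℝ) ^ L ≤ 2 * (B * m) := by exact_mod_cast hL2
  have hlL : c * ((B : ℝ) * m) ^ (4 / 3 : ℝ) ≤ l L :=
    (mul_le_mul_of_nonneg_left (Real.rpow_le_rpow (by positivity) hL1' (by norm_num)) hc.le).trans (hlo L)
  -- the set
  obtain ⟨P, hP⟩ : ∃ P : Set (List Bool), P = BMx (ρ0 * c * (m : ℝ) ^ (4 / 3 : ℝ)) (ρ * m) := ⟨_, rfl⟩
  rw [← hP]
  have hPmod : gf {t | t ∈ BU ∧ (t.length : ℝ) < (l L : ℝ) + 1 ∧ t ∈ P} ≤ ENNReal.ofReal (ε1 * Ub L) := by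
    refine le_trans (gf_mono ?_) (hmod L (Set.mem_univ L) hL3)
    rintro t ⟨h1, h2, h3⟩
    rw [hP] at h3
    obtain ⟨dir, i, j, hij, hj, h4, h5⟩ := h3
    refine ⟨h1, h2, dir, i, j, hij, hj, h4.trans ?_, ?_⟩
    · rw [mul_assoc]
      refine mul_le_mul_of_nonneg_left (le_trans ?_ hlL) hρ0.le
      refine mul_le_mul_of_nonneg_left (Real.rpow_le_rpow hm0.le ?_ (by norm_num)) hc.le
      have h1B : (1 : ℝ) ≤ B := by exact_mod_cast hB1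
      nlinarith
    · refine le_trans ?_ h5
      rw [div_mul_eq_mul_div, div_le_iff₀ (by positivity)]
      nlinarith
  -- the average over the heights
  have hRm : 0 < R * m := Nat.mul_pos (by omega) (by omega)
  have hRm0 : (0 : ℝ) < (R : ℝ) * m := by positivity
  obtain ⟨n, hn, hnP⟩ : ∃ n ∈ Finset.Ico (R * m) (2 * (R * m)),
      gf {t | t ∈ Brd n ∧ (t.length : ℝ) < (l L : ℝ) + 1 ∧ t ∈ P} ≤ ENNReal.ofReal (ε1 * Ub L / (R * m)) := by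
    refine ENNReal.exists_le_of_sum_le ⟨R * m, Finset.mem_Ico.2 ⟨le_rfl, by omega⟩⟩ ?_
    rw [Finset.sum_const, Nat.card_Ico, nsmul_eq_mul]
    have e1 : ((2 * (R * m) - R * m : ℕ) : ℝ≥0∞) * ENNReal.ofReal (ε1 * Ub L / (R * m)) = ENNReal.ofReal (ε1 * Ub L) := by
      rw [show 2 * (R * m) - R * m = R * m by omega, ← ENNReal.ofReal_natCast, ← ENNReal.ofReal_mul (by positivity)]
      congr 1
      push_cast
      field_simp
    rw [e1]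
    refine le_trans (le_of_eq ?_) ((gf_mono (P := ⋃ n : Finset.Ico (R * m) (2 * (R * m)),
      {t | t ∈ Brd (n : ℕ) ∧ (t.length : ℝ) < (l L : ℝ) + 1 ∧ t ∈ P}) ?_).trans hPmod)
    · rw [K1.gf_iUnion, tsum_fintype, ← Finset.sum_coe_sort (Finset.Ico (R * m) (2 * (R * m)))]
      rintro ⟨i, hi⟩ ⟨j, hj⟩ t h7 h8
      exact Subtype.ext (Brd_height h7.1 h8.1)
    · intro t ht
      obtain ⟨⟨n, hn⟩, h1, h2, h3⟩ := Set.mem_iUnion.1 ht
      exact ⟨⟨n, h1⟩, h2, h3⟩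
  rw [Finset.mem_Ico] at hn
  have hn1 : 1 ≤ n := by omega
  have hn0 : (0 : ℝ) < n := by exact_mod_cast hn1
  have hn2 : (n : ℝ) ≤ 2 * R * m := by
    have : n ≤ 2 * (R * m) := hn.2.le
    have h : (n : ℝ) ≤ ((2 * (R * m) : ℕ) : ℝ) := by exact_mod_cast this
    push_cast at h
    linarith
  refine ⟨n, hn.1, hn.2.le, ?_⟩
  have hun : 0 < uu n := uu_pos n
  -- the long ones
  have h1 := hlen n A hn1 hA0
  have h2 : K / A = ε / 2 := by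
    rw [hA]
    field_simp
  rw [h2] at h1
  have h3 : A * (n : ℝ) ^ (4 / 3 : ℝ) ≤ l L := by
    calc A * (n : ℝ) ^ (4 / 3 : ℝ) ≤ A * (2 * R * m) ^ (4 / 3 : ℝ) :=
          mul_le_mul_of_nonneg_left (Real.rpow_le_rpow hn0.le hn2 (by norm_num)) hA0.le
      _ = A * (2 * R : ℝ) ^ (4 / 3 : ℝ) * (m : ℝ) ^ (4 / 3 : ℝ) := by
          rw [Real.mul_rpow (by positivity) hm0.le]
          ring
      _ ≤ c * (B : ℝ) ^ (4 / 3 : ℝ) * (m : ℝ) ^ (4 / 3 : ℝ) := mul_le_mul_of_nonneg_right hB (by positivity)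
      _ = c * ((B : ℝ) * m) ^ (4 / 3 : ℝ) := by
          rw [Real.mul_rpow hB0.le hm0.le]
          ring
      _ ≤ l L := hlL
  -- the bound at the height n
  have h4 : ε1 * Ub L / (R * m) ≤ ε / 2 * uu n := by
    have e1 : Ub L ≤ CU * ((2 * B : ℝ) ^ (3 / 4 : ℝ) * (m : ℝ) ^ (3 / 4 : ℝ)) := by
      refine (hU (2 ^ L) Nat.one_le_two_pow).trans (mul_le_mul_of_nonneg_left ?_ hCU.le)
      rw [← Real.mul_rpow (by positivity) hm0.le]
      refine Real.rpow_le_rpow (by positivity) ?_ (by norm_num)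
      push_cast
      linarith
    have e2 : cq * ((2 * R : ℝ) ^ (-(1 / 4) : ℝ) * (m : ℝ) ^ (-(1 / 4) : ℝ)) ≤ uu n := by
      refine le_trans (mul_le_mul_of_nonneg_left ?_ hcq.le) (hq n hn1)
      rw [← Real.mul_rpow (by positivity) hm0.le]
      exact Real.rpow_le_rpow_of_nonpos hn0 hn2 (by norm_num)
    have e3 : (m : ℝ) ^ (3 / 4 : ℝ) = m * (m : ℝ) ^ (-(1 / 4) : ℝ) := by
      nth_rewrite 2 [← Real.rpow_one (m : ℝ)]
      rw [← Real.rpow_add hm0]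
      norm_num
    have hx : 0 < (m : ℝ) ^ (-(1 / 4) : ℝ) := by positivity
    have hy : 0 < (2 * R : ℝ) ^ (-(1 / 4) : ℝ) := by positivity
    have hz : 0 < (2 * B : ℝ) ^ (3 / 4 : ℝ) := by positivity
    rw [div_le_iff₀ hRm0]
    calc ε1 * Ub L ≤ ε1 * (CU * ((2 * B : ℝ) ^ (3 / 4 : ℝ) * (m : ℝ) ^ (3 / 4 : ℝ))) :=
          mul_le_mul_of_nonneg_left e1 hε10.le
      _ = ε / 2 * (cq * ((2 * R : ℝ) ^ (-(1 / 4) : ℝ) * (m : ℝ) ^ (-(1 / 4) : ℝ))) * (R * m) := by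
          rw [e3, hε1]
          field_simp
      _ ≤ ε / 2 * uu n * (R * m) := by
          refine mul_le_mul_of_nonneg_right (mul_le_mul_of_nonneg_left e2 (by positivity)) hRm0.le
  calc gf {t | t ∈ Brd n ∧ t ∈ P} ≤ gf ({t | t ∈ Brd n ∧ (t.length : ℝ) < (l L : ℝ) + 1 ∧ t ∈ P} ∪
        {t | t ∈ Brd n ∧ A * (n : ℝ) ^ (4 / 3 : ℝ) < (t.length : ℝ)}) := by
        refine gf_mono ?_
        rintro t ⟨ht, htP⟩
        rcases lt_or_ge (t.length : ℝ) ((l L : ℝ) + 1) with h | h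
        · exact Or.inl ⟨ht, h, htP⟩
        · exact Or.inr ⟨ht, by linarith⟩
    _ ≤ ENNReal.ofReal (ε / 2 * uu n) + ENNReal.ofReal (ε / 2 * uu n) := (gf_union_le _ _).trans
        (add_le_add (hnP.trans (ENNReal.ofReal_le_ofReal h4)) h1)
    _ = ENNReal.ofReal (ε * bT n) := by
        rw [← ENNReal.ofReal_add (by positivity) (by positivity), show bT n = uu n from rfl]
        congr 1
        ring

/-- **the modulus of continuity of the blocks** -/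
theorem fb_mod {ρ ε : ℝ} (hρ : 0 < ρ) (hε : 0 < ε) : ∃ (δ : ℝ) (m0 : ℕ), 0 < δ ∧ ∀ m : ℕ, m0 ≤ m →
    gf {k | k ∈ FB m ∧ k ∈ BMx (δ * (m : ℝ) ^ (4 / 3 : ℝ)) (ρ * m)} ≤ ENNReal.ofReal ε := by
  obtain ⟨R0, hR0⟩ := fb_tail (ε := ε / 2) (by positivity)
  obtain ⟨δ, m0, hδ, h1⟩ := brd_mod hρ (half_pos hε) (R := R0 + 1) (by omega)
  refine ⟨δ, max 1 m0, hδ, fun m hm => ?_⟩
  have hm1 : 1 ≤ m := (le_max_left _ _).trans hm
  obtain ⟨n, hn1, hn2, h2⟩ := h1 m ((le_max_right _ _).trans hm)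
  have hmn : m ≤ n := le_trans (Nat.le_mul_of_pos_left m (by omega)) hn1
  have h3 := fb_inh hmn (BMx (δ * (m : ℝ) ^ (4 / 3 : ℝ)) (ρ * m)) (fun a u ha => BMx_append u ha) h2
  refine le_trans (gf_mono (Q := {k | k ∈ FB m ∧ ((∃ T, R0 * m < T ∧ k ∈ Brd T) ∨ ∃ i, i ≤ k.length ∧ (R0 * m : ℤ) < |lat k i|)} ∪
    {k | k ∈ FB m ∧ (∃ T, T ≤ n ∧ k ∈ Brd T) ∧ k ∈ BMx (δ * (m : ℝ) ^ (4 / 3 : ℝ)) (ρ * m)}) ?_) ?_
  · rintro k ⟨hk, hl⟩
    obtain ⟨T, hT⟩ := id hk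
    rcases Nat.lt_or_ge n T with h4 | h4
    · refine Or.inl ⟨hk, Or.inl ⟨T, ?_, hT.1⟩⟩
      have h5 : R0 * m ≤ (R0 + 1) * m := Nat.mul_le_mul_right m (by omega)
      omega
    · exact Or.inr ⟨hk, ⟨T, h4, hT.1⟩, hl⟩
  · refine (gf_union_le _ _).trans ((add_le_add (hR0 m hm1) h3).trans (le_of_eq ?_))
    rw [← ENNReal.ofReal_add (by positivity) (by positivity), add_halves]

end FP

end ROT

end HexObs
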