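import Pool.Agent.ROT.F3C4b

/-!
# ROT, F3, row L4, joints of `c4` (helper80)

The hypotheses `β_i.snd ≪ b_i` and `hO` of `c4` are consequences of the form (PP) with densities which do not vanish, and of the support of
the laws `b_i` of the own lattice (no support theorem for the other lattice is needed).

* `par_pos` : the density of (PP) does not vanish, if the density of the own lattice does not;
* `box_pos` : boxes `U × T × Z` in `D` with own mass have mass for the other lattice;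
* `ac_box1`, `ac_box2` : absolute continuity of both arcs;
* `hO_of` : the hypothesis `hO` of `c4`;
* **`c4_box`** : `c4` with these inputs.
-/

set_option autoImplicit false
set_option linter.unusedSectionVars false

namespace Pool.Agent.ROT.F3

open MeasureTheory Set
open scoped ENNReal

section

variable {A B C E : Type*} [MeasurableSpace A] [MeasurableSpace B] [MeasurableSpace C] [MeasurableSpace E]
  [AddCommGroup E] [MeasurableAdd₂ E] [MeasurableNeg E]

/-- the density does not vanish on the pairs of `D` -/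
def Pos (t : E × E → ℝ≥0∞) (b1 : Measure A) (b2 : Measure B) (v : Measure E) (D : Set (A × B × E)) (y1 : A → E)
    (y2 : B → E) : Prop :=
  ∀ᵐ p ∂((b1.prod (b2.prod v)).restrict D), t (zw y1 y2 p) ≠ 0

/-- boxes in `D` with own mass have mass for the other lattice -/
lemma box_pos {t : E × E → ℝ≥0∞} {m b1 : Measure A} {n b2 : Measure B} {v : Measure E} [SFinite m] [SFinite n]
    [SFinite b1] [SFinite b2] [SFinite v] {D : Set (A × B × E)} {y1 : A → E} {y2 : B → E}
    (h1 : Measurable y1) (h2 : Measurable y2) (h : Par t m b1 n b2 v D y1 y2) (ht : Pos t b1 b2 v D y1 y2) {U : Set A}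
    {T : Set B} {Z : Set E} (hU : MeasurableSet U) (hT : MeasurableSet T) (hZ : MeasurableSet Z)
    (hb : U ×ˢ T ×ˢ Z ⊆ D) (bU : b1 U ≠ 0) (bT : b2 T ≠ 0) (bZ : v Z ≠ 0) : m U ≠ 0 ∧ n T ≠ 0 := by
  have hm : MeasurableSet (U ×ˢ T ×ˢ Z) := hU.prod (hT.prod hZ)
  have e1 : ((m.prod (n.prod v)).restrict D) (U ×ˢ T ×ˢ Z) = m U * (n T * v Z) := by
    rw [Measure.restrict_apply hm, inter_eq_left.2 hb, Measure.prod_prod, Measure.prod_prod]
  have e2 : ((b1.prod (b2.prod v)).restrict D) (U ×ˢ T ×ˢ Z) ≠ 0 := by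
    rw [Measure.restrict_apply hm, inter_eq_left.2 hb, Measure.prod_prod, Measure.prod_prod]
    exact mul_ne_zero bU (mul_ne_zero bT bZ)
  have e3 : ((m.prod (n.prod v)).restrict D) (U ×ˢ T ×ˢ Z) ≠ 0 := by
    rw [h.2]
    intro h0
    have h3 := (withDensity_apply_eq_zero (par_meas h.1 h1 h2)).1 h0
    apply e2
    have h4 : ((b1.prod (b2.prod v)).restrict D) {p | ¬ t (zw y1 y2 p) ≠ 0} = 0 := ht
    refine measure_mono_null ?_ (measure_union_null h3 h4)
    intro p hp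
    by_cases hq : t (zw y1 y2 p) = 0
    · exact Or.inr (not_not.2 hq)
    · exact Or.inl ⟨hq, hp⟩
  rw [e1] at e3
  exact ⟨left_ne_zero_of_mul e3, left_ne_zero_of_mul (right_ne_zero_of_mul e3)⟩

/-- boxes which see the arcs of both classes -/
structure Box (b1 : Measure A) (b2 : Measure B) (v : Measure E) (D : Set (A × B × E)) (U : ℕ → Set A) (T : ℕ → Set B)
    (Z : ℕ → Set E) : Prop where
  mU : ∀ i, MeasurableSet (U i)
  mT : ∀ i, MeasurableSet (T i)
  mZ : ∀ i, MeasurableSet (Z i)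
  sub : ∀ i, U i ×ˢ T i ×ˢ Z i ⊆ D
  pU : ∀ i, b1 (U i) ≠ 0
  pT : ∀ i, b2 (T i) ≠ 0
  pZ : ∀ i, v (Z i) ≠ 0

/-- a null set of the own lattice is a null set of the pairs -/
lemma par_null1 {t : E × E → ℝ≥0∞} {m b1 : Measure A} {n b2 : Measure B} {v : Measure E} [SFinite m] [SFinite n]
    [SFinite b1] [SFinite b2] [SFinite v] {D : Set (A × B × E)} {y1 : A → E} {y2 : B → E}
    (h : Par t m b1 n b2 v D y1 y2) {V : Set A} {W : Set B} (hV : MeasurableSet V) (hW : MeasurableSet W)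
    (h0 : b1 V * b2 W = 0) {Z : Set E} (hZ : MeasurableSet Z) (hb : V ×ˢ W ×ˢ Z ⊆ D) : m V * (n W * v Z) = 0 := by
  have hm : MeasurableSet (V ×ˢ W ×ˢ Z) := hV.prod (hW.prod hZ)
  have e1 : ((m.prod (n.prod v)).restrict D) (V ×ˢ W ×ˢ Z) = m V * (n W * v Z) := by
    rw [Measure.restrict_apply hm, inter_eq_left.2 hb, Measure.prod_prod, Measure.prod_prod]
  rw [← e1, h.2]
  refine withDensity_absolutelyContinuous _ _ ?_
  rw [Measure.restrict_apply hm, inter_eq_left.2 hb, Measure.prod_prod, Measure.prod_prod, ← mul_assoc, h0, zero_mul]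

/-- **absolute continuity of the first arc** -/
theorem ac_box1 {t : E × E → ℝ≥0∞} {m b1 : Measure A} {n b2 : Measure B} {v : Measure E} [SFinite m] [SFinite n]
    [SFinite b1] [SFinite b2] [SFinite v] {D : Set (A × B × E)} {y1 : A → E} {y2 : B → E}
    (h1 : Measurable y1) (h2 : Measurable y2) (h : Par t m b1 n b2 v D y1 y2) (ht : Pos t b1 b2 v D y1 y2)
    {U : ℕ → Set A} {T : ℕ → Set B} {Z : ℕ → Set E} (hB : Box b1 b2 v D U T Z) (hc : ∀ᵐ x ∂m, ∃ i, x ∈ U i) :
    m ≪ b1 := by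
  refine Measure.AbsolutelyContinuous.mk fun V hV h0 => ?_
  have e : ∀ i, m (V ∩ U i) = 0 := by
    intro i
    have g := par_null1 h (hV.inter (hB.mU i)) (hB.mT i)
      (by rw [measure_mono_null inter_subset_left h0, zero_mul]) (hB.mZ i)
      ((prod_mono inter_subset_right subset_rfl).trans (hB.sub i))
    have g2 := (box_pos h1 h2 h ht (hB.mU i) (hB.mT i) (hB.mZ i) (hB.sub i) (hB.pU i) (hB.pT i) (hB.pZ i)).2
    rcases mul_eq_zero.1 g with g | g
    · exact g
    · exact absurd g (mul_ne_zero g2 (hB.pZ i))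
  have e2 : V ⊆ (⋃ i, V ∩ U i) ∪ {x | ¬ ∃ i, x ∈ U i} := by
    intro x hx
    by_cases h : ∃ i, x ∈ U i
    · obtain ⟨i, hi⟩ := h
      exact Or.inl (mem_iUnion.2 ⟨i, hx, hi⟩)
    · exact Or.inr h
  exact measure_mono_null e2 (measure_union_null (measure_iUnion_null e) hc)

/-- **absolute continuity of the second arc** -/
theorem ac_box2 {t : E × E → ℝ≥0∞} {m b1 : Measure A} {n b2 : Measure B} {v : Measure E} [SFinite m] [SFinite n]
    [SFinite b1] [SFinite b2] [SFinite v] {D : Set (A × B × E)} {y1 : A → E} {y2 : B → E}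
    (h1 : Measurable y1) (h2 : Measurable y2) (h : Par t m b1 n b2 v D y1 y2) (ht : Pos t b1 b2 v D y1 y2)
    {U : ℕ → Set A} {T : ℕ → Set B} {Z : ℕ → Set E} (hB : Box b1 b2 v D U T Z) (hc : ∀ᵐ x ∂n, ∃ i, x ∈ T i) :
    n ≪ b2 := by
  refine Measure.AbsolutelyContinuous.mk fun V hV h0 => ?_
  have e : ∀ i, n (V ∩ T i) = 0 := by
    intro i
    have g := par_null1 h (hB.mU i) (hV.inter (hB.mT i))
      (by rw [measure_mono_null inter_subset_left h0, mul_zero]) (hB.mZ i)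
      ((prod_mono subset_rfl (prod_mono inter_subset_right subset_rfl)).trans (hB.sub i))
    have g2 := (box_pos h1 h2 h ht (hB.mU i) (hB.mT i) (hB.mZ i) (hB.sub i) (hB.pU i) (hB.pT i) (hB.pZ i)).1
    rcases mul_eq_zero.1 g with g | g
    · exact absurd g g2
    · rcases mul_eq_zero.1 g with g | g
      · exact g
      · exact absurd g (hB.pZ i)
  have e2 : V ⊆ (⋃ i, V ∩ T i) ∪ {x | ¬ ∃ i, x ∈ T i} := by
    intro x hx
    by_cases h : ∃ i, x ∈ T i
    · obtain ⟨i, hi⟩ := h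
      exact Or.inl (mem_iUnion.2 ⟨i, hx, hi⟩)
    · exact Or.inr h
  exact measure_mono_null e2 (measure_union_null (measure_iUnion_null e) hc)

/-- **the hypothesis `hO` of `c4`** -/
theorem hO_of {b1 : Measure A} {b2 : Measure B} {b3 : Measure C} {v : Measure E} [SFinite b1] [SFinite b2] [SFinite b3]
    [SFinite v] [v.IsAddLeftInvariant] {D12 : Set (A × B × E)} {D13 : Set (A × C × E)} {D23 : Set (B × C × E)}
    (hD12 : MeasurableSet D12) (hD23 : MeasurableSet D23) {y1 : A → E} {y2 : B → E} {y3 : C → E}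
    {O : Set (E × E × E × E)} {t12 t23 : E × E → ℝ≥0∞} (k12 : Measurable t12) (k23 : Measurable t23)
    (hb : b1 ≠ 0) (hS : Sup b1 b2 b3 v D12 D13 D23 y1 y2 y3 O) (p12 : Pos t12 b1 b2 v D12 y1 y2)
    (p23 : Pos t23 b2 b3 v D23 y2 y3) (vO : (v.prod (v.prod (v.prod v))) O ≠ 0) :
    (v.prod (v.prod (v.prod v))) ({o | t12 (o12 o) ≠ 0 ∧ t23 (o23 o) ≠ 0} ∩ O) ≠ 0 := by
  have g12 : ∀ᵐ p ∂(b1.prod (b2.prod v)), p ∈ D12 → t12 (zw y1 y2 p) ≠ 0 := (ae_restrict_iff' hD12).1 p12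
  have g23 : ∀ᵐ p ∂(b2.prod (b3.prod v)), p ∈ D23 → t23 (zw y2 y3 p) ≠ 0 := (ae_restrict_iff' hD23).1 p23
  have e23 := (q23 b2 b3 v).ae g23
  obtain ⟨N, hN⟩ : ∃ N : Set (E × E × E × E), N = {o | t12 (o12 o) = 0} ∪ {o | t23 (o23 o) = 0} := ⟨_, rfl⟩
  have mN : MeasurableSet N := by
    rw [hN]
    exact (measurableSet_eq_fun (k12.comp m12) measurable_const).union
      (measurableSet_eq_fun (k23.comp m23) measurable_const)
  have hne : (ae b1).NeBot := ae_neBot.2 hb
  obtain ⟨a, ha, h12⟩ := (hS.and (Measure.ae_ae_of_ae_prod g12)).exists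
  have e12 := (q12 b2 b3 v).ae h12
  have h0 : (b2.prod (b3.prod (v.prod v))) (Cp D12 D13 D23 a ∩ cor y1 y2 y3 a ⁻¹' N) = 0 := by
    rw [← compl_mem_ae_iff]
    filter_upwards [e12, e23] with q f12 f23
    rintro ⟨⟨d12, _, d23⟩, hq⟩
    rw [mem_preimage, hN] at hq
    rcases hq with hq | hq
    · exact f12 d12 hq
    · refine f23 d23 ?_
      have w : q.2.2.2 - q.2.2.1 + y2 q.1 - y3 q.2.1 =
          q.2.2.2 + y1 a - y3 q.2.1 - (q.2.2.1 + y1 a - y2 q.1) := by abel
      show t23 (q.2.2.2 - q.2.2.1, q.2.2.2 - q.2.2.1 + y2 q.1 - y3 q.2.1) = 0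
      rw [w]
      exact hq
  have h1 := ha N mN h0
  intro h2
  apply vO
  refine measure_mono_null ?_ (measure_union_null h1 h2)
  intro o ho
  by_cases h : o ∈ N
  · exact Or.inl ⟨h, ho⟩
  · refine Or.inr ⟨?_, ho⟩
    rw [hN] at h
    exact ⟨fun h3 => h (Or.inl h3), fun h3 => h (Or.inr h3)⟩

/-- **C4 with positive densities and boxes** -/
theorem c4_box {K1 K2 K3 : Type*} [MeasurableSpace K1] [MeasurableSpace K2] [MeasurableSpace K3]
    {β1 : Measure (K1 × A)} {β2 : Measure (K2 × B)} {β3 : Measure (K3 × C)} {b1 : Measure A} {b2 : Measure B}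
    {b3 : Measure C} {v : Measure E} [SigmaFinite β1.snd] [SigmaFinite b1] [SigmaFinite β2.snd] [SigmaFinite b2]
    [SigmaFinite β3.snd] [SigmaFinite b3] [SigmaFinite v] [v.IsAddLeftInvariant] {D12 : Set (A × B × E)}
    {D13 : Set (A × C × E)} {D23 : Set (B × C × E)} (hD12 : MeasurableSet D12) (hD13 : MeasurableSet D13)
    (hD23 : MeasurableSet D23) {y1 : A → E} {y2 : B → E} {y3 : C → E} (hy1 : Measurable y1) (hy2 : Measurable y2)
    (hy3 : Measurable y3) {O : Set (E × E × E × E)} (vO : (v.prod (v.prod (v.prod v))) O ≠ 0)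
    {t12 t13 t23 : E × E → ℝ≥0∞} (hS : Sup b1 b2 b3 v D12 D13 D23 y1 y2 y3 O)
    (p12 : Par t12 β1.snd b1 β2.snd b2 v D12 y1 y2) (p13 : Par t13 β1.snd b1 β3.snd b3 v D13 y1 y3)
    (p23 : Par t23 β2.snd b2 β3.snd b3 v D23 y2 y3) (z12 : Pos t12 b1 b2 v D12 y1 y2)
    (z23 : Pos t23 b2 b3 v D23 y2 y3) {U12 : ℕ → Set A} {T12 : ℕ → Set B} {Z12 : ℕ → Set E}
    (hB12 : Box b1 b2 v D12 U12 T12 Z12) (c1 : ∀ᵐ x ∂β1.snd, ∃ i, x ∈ U12 i) (c2 : ∀ᵐ x ∂β2.snd, ∃ i, x ∈ T12 i)
    {U23 : ℕ → Set B} {T23 : ℕ → Set C} {Z23 : ℕ → Set E} (hB23 : Box b2 b3 v D23 U23 T23 Z23)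
    (c3 : ∀ᵐ x ∂β3.snd, ∃ i, x ∈ T23 i)
    (pS : ∀ S : Set K1, MeasurableSet S → ∃ tS, Par tS (sec β1 S) b1 β2.snd b2 v D12 y1 y2) :
    ∃ ν : Measure K1, IsFiniteMeasure ν ∧ β1 = ν.prod b1 := by
  by_cases hb : b1 = 0
  · have h1 := ac_box1 hy1 hy2 p12 z12 hB12 c1
    refine prod_of_sec fun S _ => ⟨0, ?_⟩
    have h2 : β1.snd = 0 := by
      rw [hb] at h1
      exact Measure.absolutelyContinuous_zero_iff.1 h1
    have h3 : sec β1 S ≤ 0 := h2 ▸ sec_le β1 S
    rw [zero_smul]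
    exact le_antisymm h3 (Measure.zero_le _)
  · exact c4 hD12 hD13 hD23 hy1 hy2 hy3 (hO_of hD12 hD23 p12.1 p23.1 hb hS z12 z23 vO) hS
      (ac_box1 hy1 hy2 p12 z12 hB12 c1) (ac_box2 hy1 hy2 p12 z12 hB12 c2) (ac_box2 hy2 hy3 p23 z23 hB23 c3) p12 p13
      p23 pS

end

section pos

variable {A B E K1 K2 : Type*} [MeasurableSpace A] [MeasurableSpace B] [MeasurableSpace E] [MeasurableSpace K1]
  [MeasurableSpace K2] [AddCommGroup E] [MeasurableAdd₂ E] [MeasurableNeg E]

/-- **the density of (PP) does not vanish** as soon as the density `g` of the own lattice does not -/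
theorem par_pos {β1 : Measure (K1 × A)} {β2 : Measure (K2 × B)} {b1 : Measure A} {b2 : Measure B} {v : Measure E}
    [SFinite β1] [SFinite β2] [SigmaFinite b1] [SigmaFinite b2] [SigmaFinite v] {D : Set (A × B × E)}
    (hD : MeasurableSet D) {y1 : A → E} {y2 : B → E} (h1 : Measurable y1) (h2 : Measurable y2)
    {P : Measure ((K1 × A) × ((K2 × B) × E))} {G0 : K1 × K2 × (E × E) → ℝ≥0∞}
    (h0 : P = ((β1.prod (β2.prod v)).restrict (pi3 ⁻¹' D)).withDensity (G0 ∘ cc y1 y2)) {g : E × E → ℝ≥0∞}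
    (mg : Measurable g) (hg : P.map pi3 = ((b1.prod (b2.prod v)).restrict D).withDensity (g ∘ zw y1 y2))
    (gp : Pos g b1 b2 v D y1 y2) {t : E × E → ℝ≥0∞} (ht : Par t β1.snd b1 β2.snd b2 v D y1 y2) :
    Pos t b1 b2 v D y1 y2 := by
  have hq := zw_meas (A := A) (B := B) h1 h2
  have hπ := pi3_meas (A := A) (B := B) (E := E) (K1 := K1) (K2 := K2)
  -- `P.map pi3` is absolutely continuous with respect to the pairs of the other lattice
  have e1 : (((β1.prod (β2.prod v)).restrict (pi3 ⁻¹' D)).map pi3) = ((β1.snd).prod (β2.snd.prod v)).restrict D := by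
    rw [← Measure.restrict_map hπ hD]
    congr 1
    have f3 : (pi3 : (K1 × A) × ((K2 × B) × E) → A × B × E) = Prod.map Prod.snd (Prod.map Prod.snd id) := rfl
    rw [f3, ← Measure.map_prod_map _ _ measurable_snd (by fun_prop), ← Measure.map_prod_map _ _ measurable_snd
      measurable_id, Measure.map_id]
    rfl
  have e2 : P.map pi3 ≪ ((β1.snd).prod (β2.snd.prod v)).restrict D := by
    rw [← e1, h0]
    exact (withDensity_absolutelyContinuous _ _).map hπ
  have mN : MeasurableSet {p : A × B × E | t (zw y1 y2 p) = 0} :=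
    measurableSet_eq_fun (ht.1.comp hq) measurable_const
  have e3 : ((β1.snd).prod (β2.snd.prod v)).restrict D {p : A × B × E | t (zw y1 y2 p) = 0} = 0 := by
    rw [ht.2]
    rw [withDensity_apply _ mN]
    refine (setLIntegral_congr_fun mN (g := fun _ => 0) ?_).trans (by simp)
    intro p hp
    exact hp
  have e4 := e2 e3
  rw [hg] at e4
  have e5 := (withDensity_apply_eq_zero (mg.comp hq)).1 e4
  have e6 : ((b1.prod (b2.prod v)).restrict D) {p | ¬ g (zw y1 y2 p) ≠ 0} = 0 := gp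
  show ((b1.prod (b2.prod v)).restrict D) {p | ¬ t (zw y1 y2 p) ≠ 0} = 0
  refine measure_mono_null ?_ (measure_union_null e5 e6)
  intro p hp
  by_cases hq : g (zw y1 y2 p) = 0
  · exact Or.inr (not_not.2 hq)
  · exact Or.inl ⟨hq, not_not.1 hp⟩

end pos

end Pool.Agent.ROT.F3
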