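import Pool.Agent.ROT.F3Sup
import Pool.Agent.ROT.F3C4r

/-!
# ROT, F3, row W7, route L (helper63): the boxes of `c4_box` from channels

* `box_cover` : countably many boxes which see all good arcs of the first class (Lindelöf); `box_cover2` : of the second class;
* `box_join` : two families of boxes; **`box_two`** : both classes;
* **`chan_box1`** : the box at one good arc `a` from a channel `K`.
-/

set_option autoImplicit false

namespace Pool.Agent.ROT.F3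

open MeasureTheory Set Topology
open scoped ENNReal

section

variable {A B E : Type*} [MeasurableSpace A] [MeasurableSpace B] [MeasurableSpace E]

/-- a countable choice of boxes -/
lemma count_cover {A X Y : Type*} [TopologicalSpace X] [SecondCountableTopology X] {g : A → X} {G : Set A} (hG : G.Nonempty)
    {P : Set X → Y → Prop} (h : ∀ a ∈ G, ∃ (O : Set X) (y : Y), IsOpen O ∧ g a ∈ O ∧ P O y) :
    ∃ (O : ℕ → Set X) (y : ℕ → Y), (∀ i, IsOpen (O i)) ∧ (∀ i, P (O i) (y i)) ∧ ∀ a ∈ G, ∃ i, g a ∈ O i := by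
  classical
  choose O y hO hg hP using h
  obtain ⟨T, hT, hTU⟩ := TopologicalSpace.isOpen_iUnion_countable (fun a : G => O a a.2) (fun a => hO a a.2)
  obtain ⟨a0, ha0⟩ := hG
  have hT' : (insert (⟨a0, ha0⟩ : G) T).Countable := hT.insert _
  obtain ⟨f, hf⟩ := hT'.exists_eq_range ⟨_, mem_insert _ _⟩
  refine ⟨fun i => O (f i) (f i).2, fun i => y (f i) (f i).2, fun i => hO _ (f i).2, fun i => hP _ (f i).2, fun a ha => ?_⟩
  have h1 : g a ∈ ⋃ b : G, O b b.2 := mem_iUnion.2 ⟨⟨a, ha⟩, hg a ha⟩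
  rw [← hTU] at h1
  obtain ⟨b, hb⟩ := mem_iUnion.1 h1
  obtain ⟨hbT, hab⟩ := mem_iUnion.1 hb
  have h2 : b ∈ insert (⟨a0, ha0⟩ : G) T := mem_insert_of_mem _ hbT
  rw [hf] at h2
  obtain ⟨i, hi⟩ := h2
  refine ⟨i, ?_⟩
  show g a ∈ O (f i) (f i).2
  subst hi
  exact hab

/-- **boxes which see the good arcs of the first class** -/
theorem box_cover {b1 : Measure A} {b2 : Measure B} {v : Measure E} {D : Set (A × B × E)} {X : Type*} [TopologicalSpace X]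
    [SecondCountableTopology X] [MeasurableSpace X] [OpensMeasurableSpace X] {g : A → X} (hg : Measurable g) {G : Set A}
    (hG : G.Nonempty)
    (h : ∀ a ∈ G, ∃ (O : Set X) (T : Set B) (Z : Set E), IsOpen O ∧ g a ∈ O ∧ MeasurableSet T ∧ MeasurableSet Z ∧
      (g ⁻¹' O) ×ˢ T ×ˢ Z ⊆ D ∧ b1 (g ⁻¹' O) ≠ 0 ∧ b2 T ≠ 0 ∧ v Z ≠ 0) :
    ∃ (U : ℕ → Set A) (T : ℕ → Set B) (Z : ℕ → Set E), Box b1 b2 v D U T Z ∧ ∀ a ∈ G, ∃ i, a ∈ U i := by
  obtain ⟨O, y, hO, hP, hc⟩ := count_cover (g := g) hG (P := fun (O : Set X) (y : Set B × Set E) => MeasurableSet y.1 ∧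
    MeasurableSet y.2 ∧ (g ⁻¹' O) ×ˢ y.1 ×ˢ y.2 ⊆ D ∧ b1 (g ⁻¹' O) ≠ 0 ∧ b2 y.1 ≠ 0 ∧ v y.2 ≠ 0) (fun a ha => by
      obtain ⟨O, T, Z, h1, h2, h3⟩ := h a ha
      exact ⟨O, (T, Z), h1, h2, h3⟩)
  exact ⟨fun i => g ⁻¹' O i, fun i => (y i).1, fun i => (y i).2,
    ⟨fun i => hg (hO i).measurableSet, fun i => (hP i).1, fun i => (hP i).2.1, fun i => (hP i).2.2.1,
      fun i => (hP i).2.2.2.1, fun i => (hP i).2.2.2.2.1, fun i => (hP i).2.2.2.2.2⟩, hc⟩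

/-- **boxes which see the good arcs of the second class** -/
theorem box_cover2 {b1 : Measure A} {b2 : Measure B} {v : Measure E} {D : Set (A × B × E)} {X : Type*} [TopologicalSpace X]
    [SecondCountableTopology X] [MeasurableSpace X] [OpensMeasurableSpace X] {g : B → X} (hg : Measurable g) {G : Set B}
    (hG : G.Nonempty)
    (h : ∀ a ∈ G, ∃ (O : Set X) (U : Set A) (Z : Set E), IsOpen O ∧ g a ∈ O ∧ MeasurableSet U ∧ MeasurableSet Z ∧
      U ×ˢ (g ⁻¹' O) ×ˢ Z ⊆ D ∧ b1 U ≠ 0 ∧ b2 (g ⁻¹' O) ≠ 0 ∧ v Z ≠ 0) :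
    ∃ (U : ℕ → Set A) (T : ℕ → Set B) (Z : ℕ → Set E), Box b1 b2 v D U T Z ∧ ∀ a ∈ G, ∃ i, a ∈ T i := by
  obtain ⟨O, y, hO, hP, hc⟩ := count_cover (g := g) hG (P := fun (O : Set X) (y : Set A × Set E) => MeasurableSet y.1 ∧
    MeasurableSet y.2 ∧ y.1 ×ˢ (g ⁻¹' O) ×ˢ y.2 ⊆ D ∧ b1 y.1 ≠ 0 ∧ b2 (g ⁻¹' O) ≠ 0 ∧ v y.2 ≠ 0) (fun a ha => by
      obtain ⟨O, T, Z, h1, h2, h3⟩ := h a ha
      exact ⟨O, (T, Z), h1, h2, h3⟩)
  exact ⟨fun i => (y i).1, fun i => g ⁻¹' O i, fun i => (y i).2,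
    ⟨fun i => (hP i).1, fun i => hg (hO i).measurableSet, fun i => (hP i).2.1, fun i => (hP i).2.2.1,
      fun i => (hP i).2.2.2.1, fun i => (hP i).2.2.2.2.1, fun i => (hP i).2.2.2.2.2⟩, hc⟩

/-- two families of boxes -/
theorem box_join {b1 : Measure A} {b2 : Measure B} {v : Measure E} {D : Set (A × B × E)} {U U' : ℕ → Set A}
    {T T' : ℕ → Set B} {Z Z' : ℕ → Set E} (h : Box b1 b2 v D U T Z) (h' : Box b1 b2 v D U' T' Z') :
    ∃ (V : ℕ → Set A) (S : ℕ → Set B) (Y : ℕ → Set E), Box b1 b2 v D V S Y ∧ (∀ i, ∃ j, V j = U i ∧ S j = T i ∧ Y j = Z i) ∧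
      ∀ i, ∃ j, V j = U' i ∧ S j = T' i ∧ Y j = Z' i := by
  classical
  refine ⟨fun n => if n % 2 = 0 then U (n / 2) else U' (n / 2), fun n => if n % 2 = 0 then T (n / 2) else T' (n / 2),
    fun n => if n % 2 = 0 then Z (n / 2) else Z' (n / 2), ?_, fun i => ⟨2 * i, ?_, ?_, ?_⟩, fun i => ⟨2 * i + 1, ?_, ?_, ?_⟩⟩
  · constructor
    · intro i
      show MeasurableSet (if i % 2 = 0 then U (i / 2) else U' (i / 2))
      split_ifs
      · exact h.mU _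
      · exact h'.mU _
    · intro i
      show MeasurableSet (if i % 2 = 0 then T (i / 2) else T' (i / 2))
      split_ifs
      · exact h.mT _
      · exact h'.mT _
    · intro i
      show MeasurableSet (if i % 2 = 0 then Z (i / 2) else Z' (i / 2))
      split_ifs
      · exact h.mZ _
      · exact h'.mZ _
    · intro i
      show (if i % 2 = 0 then U (i / 2) else U' (i / 2)) ×ˢ (if i % 2 = 0 then T (i / 2) else T' (i / 2)) ×ˢ
        (if i % 2 = 0 then Z (i / 2) else Z' (i / 2)) ⊆ D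
      split_ifs
      · exact h.sub _
      · exact h'.sub _
    · intro i
      show b1 (if i % 2 = 0 then U (i / 2) else U' (i / 2)) ≠ 0
      split_ifs
      · exact h.pU _
      · exact h'.pU _
    · intro i
      show b2 (if i % 2 = 0 then T (i / 2) else T' (i / 2)) ≠ 0
      split_ifs
      · exact h.pT _
      · exact h'.pT _
    · intro i
      show v (if i % 2 = 0 then Z (i / 2) else Z' (i / 2)) ≠ 0
      split_ifs
      · exact h.pZ _
      · exact h'.pZ _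
  · show (if (2 * i) % 2 = 0 then U (2 * i / 2) else U' (2 * i / 2)) = U i
    rw [if_pos (by omega), show 2 * i / 2 = i by omega]
  · show (if (2 * i) % 2 = 0 then T (2 * i / 2) else T' (2 * i / 2)) = T i
    rw [if_pos (by omega), show 2 * i / 2 = i by omega]
  · show (if (2 * i) % 2 = 0 then Z (2 * i / 2) else Z' (2 * i / 2)) = Z i
    rw [if_pos (by omega), show 2 * i / 2 = i by omega]
  · show (if (2 * i + 1) % 2 = 0 then U ((2 * i + 1) / 2) else U' ((2 * i + 1) / 2)) = U' i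
    rw [if_neg (by omega), show (2 * i + 1) / 2 = i by omega]
  · show (if (2 * i + 1) % 2 = 0 then T ((2 * i + 1) / 2) else T' ((2 * i + 1) / 2)) = T' i
    rw [if_neg (by omega), show (2 * i + 1) / 2 = i by omega]
  · show (if (2 * i + 1) % 2 = 0 then Z ((2 * i + 1) / 2) else Z' ((2 * i + 1) / 2)) = Z' i
    rw [if_neg (by omega), show (2 * i + 1) / 2 = i by omega]

/-- **boxes for both classes** -/
theorem box_two {b1 : Measure A} {b2 : Measure B} {v : Measure E} {D : Set (A × B × E)} {X : Type*} [TopologicalSpace X]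
    [SecondCountableTopology X] [MeasurableSpace X] [OpensMeasurableSpace X] {g1 : A → X} {g2 : B → X} (m1 : Measurable g1)
    (m2 : Measurable g2) {G1 : Set A} {G2 : Set B} (hG1 : G1.Nonempty) (hG2 : G2.Nonempty)
    (h1 : ∀ a ∈ G1, ∃ (O : Set X) (T : Set B) (Z : Set E), IsOpen O ∧ g1 a ∈ O ∧ MeasurableSet T ∧ MeasurableSet Z ∧
      (g1 ⁻¹' O) ×ˢ T ×ˢ Z ⊆ D ∧ b1 (g1 ⁻¹' O) ≠ 0 ∧ b2 T ≠ 0 ∧ v Z ≠ 0)
    (h2 : ∀ a ∈ G2, ∃ (O : Set X) (U : Set A) (Z : Set E), IsOpen O ∧ g2 a ∈ O ∧ MeasurableSet U ∧ MeasurableSet Z ∧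
      U ×ˢ (g2 ⁻¹' O) ×ˢ Z ⊆ D ∧ b1 U ≠ 0 ∧ b2 (g2 ⁻¹' O) ≠ 0 ∧ v Z ≠ 0) :
    ∃ (U : ℕ → Set A) (T : ℕ → Set B) (Z : ℕ → Set E), Box b1 b2 v D U T Z ∧ (∀ a ∈ G1, ∃ i, a ∈ U i) ∧
      ∀ a ∈ G2, ∃ i, a ∈ T i := by
  obtain ⟨U, T, Z, hB, hc⟩ := box_cover (b1 := b1) (b2 := b2) (v := v) (D := D) m1 hG1 h1
  obtain ⟨U', T', Z', hB', hc'⟩ := box_cover2 (b1 := b1) (b2 := b2) (v := v) (D := D) m2 hG2 h2
  obtain ⟨V, S, Y, hV, j1, j2⟩ := box_join hB hB'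
  refine ⟨V, S, Y, hV, fun a ha => ?_, fun a ha => ?_⟩
  · obtain ⟨i, hi⟩ := hc a ha
    obtain ⟨j, e1, -, -⟩ := j1 i
    exact ⟨j, by rw [e1]; exact hi⟩
  · obtain ⟨i, hi⟩ := hc' a ha
    obtain ⟨j, -, e2, -⟩ := j2 i
    exact ⟨j, by rw [e2]; exact hi⟩

end

/-! ### the box at one arc, from a channel -/

section

variable {A B : Type*} [MeasurableSpace A] [MeasurableSpace B]

/-- the curves which stay within `η` of the range of `γ` and end within `η` of its end -/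
def Nbh (γ : C(unitInterval, ℂ)) (η : ℝ) : Set C(unitInterval, ℂ) :=
  {γ' | (∀ s, ∃ t, dist (γ' s) (γ t) < η) ∧ dist (γ' 1) (γ 1) < η}

lemma nbh_open (γ : C(unitInterval, ℂ)) (η : ℝ) : IsOpen (Nbh γ η) := by
  have h1 : IsOpen {γ' : C(unitInterval, ℂ) | ∀ s, ∃ t, dist (γ' s) (γ t) < η} := by
    have hO : IsOpen (⋃ t, Metric.ball (γ t) η) := isOpen_iUnion fun t => Metric.isOpen_ball
    have h := ContinuousMap.isOpen_setOfPred_mapsTo (X := unitInterval) (Y := ℂ) isCompact_univ hO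
    have e : {γ' : C(unitInterval, ℂ) | ∀ s, ∃ t, dist (γ' s) (γ t) < η} = {γ' : C(unitInterval, ℂ) | MapsTo γ' univ (⋃ t, Metric.ball (γ t) η)} := by
      ext γ'
      constructor
      · intro h s _
        obtain ⟨t, ht⟩ := h s
        exact mem_iUnion.2 ⟨t, ht⟩
      · intro h s
        obtain ⟨t, ht⟩ := mem_iUnion.1 (h (mem_univ s))
        exact ⟨t, ht⟩
    rw [e]
    exact h
  have h2 : IsOpen {γ' : C(unitInterval, ℂ) | dist (γ' 1) (γ 1) < η} :=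
    Metric.isOpen_ball.preimage (continuous_eval_const (F := C(unitInterval, ℂ)) (1 : unitInterval))
  exact h1.inter h2

lemma nbh_self (γ : C(unitInterval, ℂ)) {η : ℝ} (hη : 0 < η) : γ ∈ Nbh γ η :=
  ⟨fun s => ⟨s, by rw [dist_self]; exact hη⟩, by rw [dist_self]; exact hη⟩

/-- **the box at the arc `a` of the first class**, from the channel `K` of the companions; the displacement is the end of the curve -/
theorem chan_box1 {b1 : Measure A} {b2 : Measure B} {v : Measure ℂ} [v.IsOpenPosMeasure] {g1 : A → C(unitInterval, ℂ)}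
    {g2 : B → C(unitInterval, ℂ)} (m2 : Measurable g2) {y1 : A → ℂ} {y2 : B → ℂ} (n2 : Measurable y2)
    (e1 : ∀ a, y1 a = g1 a 1) {z0 w0 : ℂ} {η : ℝ} (hη : 0 < η) {Z W : Set ℂ} (hZ : Metric.closedBall z0 η ⊆ Z)
    (hW : Metric.closedBall w0 (4 * η) ⊆ W) {a : A} {K : Set ℂ} (cK : IsClosed K) (hK : ∀ s, ∀ k ∈ K, 2 * η < dist (g1 a s) k)
    (hs : b1 (g1 ⁻¹' Nbh (g1 a) η) ≠ 0)
    (hT : b2 (Inn g2 z0 K ∩ {x | dist (y2 x) (z0 + y1 a - w0) ≤ 2 * η}) ≠ 0) :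
    ∃ (O : Set C(unitInterval, ℂ)) (T : Set B) (Z' : Set ℂ), IsOpen O ∧ g1 a ∈ O ∧ MeasurableSet T ∧ MeasurableSet Z' ∧
      (g1 ⁻¹' O) ×ˢ T ×ˢ Z' ⊆ DD g1 g2 y1 y2 Z W ∧ b1 (g1 ⁻¹' O) ≠ 0 ∧ b2 T ≠ 0 ∧ v Z' ≠ 0 := by
  refine ⟨Nbh (g1 a) η, Inn g2 z0 K ∩ {x | dist (y2 x) (z0 + y1 a - w0) ≤ 2 * η}, Metric.ball z0 η, nbh_open _ _,
    nbh_self _ hη, ?_, measurableSet_ball, ?_, hs, hT, ?_⟩
  · exact (inn_meas m2 z0 cK).inter (n2 Metric.isClosed_closedBall.measurableSet)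
  · rintro ⟨a', x, z⟩ ⟨ha', ⟨hx, tx⟩, hz⟩
    obtain ⟨hd, h5⟩ : (∀ s, ∃ t, dist (g1 a' s) (g1 a t) < η) ∧ dist (g1 a' 1) (g1 a 1) < η := ha'
    have hz' : dist z z0 < η := hz
    have tx' : dist (y2 x) (z0 + y1 a - w0) ≤ 2 * η := tx
    refine ⟨fun s t e => ?_, hZ hz'.le, hW ?_⟩
    · obtain ⟨s', h2⟩ := hd s
      have h1 := hK s' _ (hx t)
      have h3 : dist (g2 x t + z) (g2 x t + z0) < η := by rwa [dist_add_left]
      have h4 := dist_triangle4 (g1 a s') (g1 a' s) (g2 x t + z) (g2 x t + z0)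
      simp only at e
      rw [e, dist_self, add_zero] at h4
      rw [e, dist_comm] at h2
      linarith
    · show dist (z + y1 a' - y2 x) w0 ≤ 4 * η
      rw [← e1, ← e1] at h5
      have e2 : z + y1 a' - y2 x - w0 = (z - z0) + (y1 a' - y1 a) - (y2 x - (z0 + y1 a - w0)) := by ring
      rw [dist_eq_norm] at hz' tx' h5 ⊢
      rw [e2]
      refine (norm_sub_le _ _).trans ?_
      have := norm_add_le (z - z0) (y1 a' - y1 a)
      linarith
  · exact (Metric.isOpen_ball.measure_pos v ⟨z0, Metric.mem_ball_self hη⟩).ne'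

/-- **the box at the arc `x` of the second class**, from the channel `K` of the first class -/
theorem chan_box2 {b1 : Measure A} {b2 : Measure B} {v : Measure ℂ} [v.IsOpenPosMeasure] {g1 : A → C(unitInterval, ℂ)}
    {g2 : B → C(unitInterval, ℂ)} (m1 : Measurable g1) {y1 : A → ℂ} {y2 : B → ℂ} (n1 : Measurable y1)
    (e2 : ∀ x, y2 x = g2 x 1) {z0 w0 : ℂ} {η : ℝ} (hη : 0 < η) {Z W : Set ℂ} (hZ : Metric.closedBall z0 η ⊆ Z)
    (hW : Metric.closedBall w0 (4 * η) ⊆ W) {x : B} {K : Set ℂ} (cK : IsClosed K)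
    (hK : ∀ t, ∀ k ∈ K, 2 * η < dist (g2 x t + z0) k)
    (hs : b2 (g2 ⁻¹' Nbh (g2 x) η) ≠ 0)
    (hT : b1 (Inn g1 0 K ∩ {a | dist (y1 a) (w0 + y2 x - z0) ≤ 2 * η}) ≠ 0) :
    ∃ (O : Set C(unitInterval, ℂ)) (U : Set A) (Z' : Set ℂ), IsOpen O ∧ g2 x ∈ O ∧ MeasurableSet U ∧ MeasurableSet Z' ∧
      U ×ˢ (g2 ⁻¹' O) ×ˢ Z' ⊆ DD g1 g2 y1 y2 Z W ∧ b1 U ≠ 0 ∧ b2 (g2 ⁻¹' O) ≠ 0 ∧ v Z' ≠ 0 := by
  refine ⟨Nbh (g2 x) η, Inn g1 0 K ∩ {a | dist (y1 a) (w0 + y2 x - z0) ≤ 2 * η}, Metric.ball z0 η, nbh_open _ _,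
    nbh_self _ hη, ?_, measurableSet_ball, ?_, hT, hs, ?_⟩
  · exact (inn_meas m1 0 cK).inter (n1 Metric.isClosed_closedBall.measurableSet)
  · rintro ⟨a, x', z⟩ ⟨⟨ha, ta⟩, hx', hz⟩
    obtain ⟨hd, h5⟩ : (∀ s, ∃ t, dist (g2 x' s) (g2 x t) < η) ∧ dist (g2 x' 1) (g2 x 1) < η := hx'
    have hz' : dist z z0 < η := hz
    have ta' : dist (y1 a) (w0 + y2 x - z0) ≤ 2 * η := ta
    refine ⟨fun s t e => ?_, hZ hz'.le, hW ?_⟩
    · have h0 := ha s
      rw [add_zero] at h0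
      obtain ⟨t', h6⟩ := hd t
      have h1 := hK t' _ h0
      have h2 : dist (g2 x t' + z0) (g2 x' t + z0) < η := by
        rw [dist_add_right, dist_comm]
        exact h6
      have h3 : dist (g2 x' t + z0) (g2 x' t + z) < η := by
        rw [dist_add_left, dist_comm]
        exact hz'
      have h4 := dist_triangle (g2 x t' + z0) (g2 x' t + z0) (g2 x' t + z)
      simp only at e
      rw [e] at h1
      linarith
    · show dist (z + y1 a - y2 x') w0 ≤ 4 * η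
      rw [← e2, ← e2] at h5
      have e3 : z + y1 a - y2 x' - w0 = (z - z0) + (y1 a - (w0 + y2 x - z0)) - (y2 x' - y2 x) := by ring
      rw [dist_eq_norm] at hz' ta' h5 ⊢
      rw [e3]
      refine (norm_sub_le _ _).trans ?_
      have := norm_add_le (z - z0) (y1 a - (w0 + y2 x - z0))
      linarith
  · exact (Metric.isOpen_ball.measure_pos v ⟨z0, Metric.mem_ball_self hη⟩).ne'

end

end Pool.Agent.ROT.F3
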