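import Pool.Agent.RSWP.Local
import Pool.Agent.HexWall.FlatC

/-!
ROT/F3Ker: the kernel of the ends of bridges is smooth in the lateral shift, in L1.
-/

set_option autoImplicit false

namespace HexObs

namespace RP

open Finset ENNReal

namespace F3Ker

open Classical in
/-- sums over the lateral end. -/
lemma sum_end (T : ℕ) (S : Set (List Bool)) (A : Set ℤ) :
    ∑' x : ℤ, (if x ∈ A then gf {t | t ∈ EndB T x ∧ t ∈ S} else 0) =
      gf {t | t ∈ Brd T ∧ t ∈ S ∧ latE t ∈ A} := by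
  rw [HexObs.gf_ind]
  have h1 : ∀ x : ℤ, (if x ∈ A then gf {t | t ∈ EndB T x ∧ t ∈ S} else 0) =
      ∑' t : List Bool, (if x ∈ A ∧ t ∈ Brd T ∧ latE t = x ∧ t ∈ S then wE t else 0) := by
    intro x
    by_cases hx : x ∈ A
    · rw [if_pos hx, HexObs.gf_ind]
      refine tsum_congr fun t => ?_
      by_cases ht : t ∈ {t | t ∈ EndB T x ∧ t ∈ S}
      · rw [if_pos ht, if_pos ⟨hx, ht.1.1, ht.1.2, ht.2⟩]
      · rw [if_neg ht, if_neg]
        rintro ⟨_, h2, h3, h4⟩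
        exact ht ⟨⟨h2, h3⟩, h4⟩
    · rw [if_neg hx]
      symm
      rw [ENNReal.tsum_eq_zero]
      intro t
      exact if_neg fun h => hx h.1
  rw [tsum_congr h1, ENNReal.tsum_comm]
  refine tsum_congr fun t => ?_
  rw [tsum_eq_single (latE t)]
  · by_cases ht : t ∈ {t | t ∈ Brd T ∧ t ∈ S ∧ latE t ∈ A}
    · rw [if_pos ht, if_pos ⟨ht.2.2, ht.1, rfl, ht.2.1⟩]
    · rw [if_neg ht, if_neg]
      rintro ⟨h1, h2, _, h3⟩
      exact ht ⟨h2, h3, h1⟩
  · intro x hx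
    exact if_neg fun h => hx h.2.2.1.symm

/-- sums over all lateral ends. -/
lemma sum_all (T : ℕ) (S : Set (List Bool)) :
    ∑' x : ℤ, gf {t | t ∈ EndB T x ∧ t ∈ S} = gf {t | t ∈ Brd T ∧ t ∈ S} := by
  classical
  have h := sum_end T S Set.univ
  simpa using h

end F3Ker

/-- the kernel of the bridges of the set S. -/
noncomputable def HS (S : Set (List Bool)) (T : ℕ) (x : ℤ) : ℝ := (gf {t | t ∈ EndB T x ∧ t ∈ S}).toReal

lemma HS_univ (T : ℕ) (x : ℤ) : HS Set.univ T x = H T x := by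
  unfold HS H
  simp

lemma HS_nonneg (S : Set (List Bool)) (T : ℕ) (x : ℤ) : 0 ≤ HS S T x := ENNReal.toReal_nonneg

lemma ofReal_HS (S : Set (List Bool)) (T : ℕ) (x : ℤ) :
    ENNReal.ofReal (HS S T x) = gf {t | t ∈ EndB T x ∧ t ∈ S} :=
  ENNReal.ofReal_toReal (ne_top_of_le_ne_top (EndB_ne_top T x) (gf_mono fun _ h => h.1))

lemma ofReal_H (T : ℕ) (x : ℤ) : ENNReal.ofReal (H T x) = gf (EndB T x) :=
  ENNReal.ofReal_toReal (EndB_ne_top T x)

lemma gf_Brd_uu' {h : ℕ} (hh : 1 ≤ h) : gf (Brd h) = ENNReal.ofReal (uu h) := by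
  rw [gf_Brd]
  unfold uu
  rw [ENNReal.ofReal_toReal (BT_ne_top hh)]

lemma F3Ker.abs_le_add {a b : ℝ} (ha : 0 ≤ a) (hb : 0 ≤ b) : |a - b| ≤ a + b := by
  rw [abs_le]
  constructor <;> linarith

lemma F3Ker.shift (f : ℤ → ℝ≥0∞) (e : ℤ) : ∑' x : ℤ, f (x + e) = ∑' x : ℤ, f x :=
  (Equiv.addRight e).tsum_eq f

/-- the kernel of the ends of bridges is smooth in the lateral shift, in L1. -/
theorem ker_l1 (ε : ℝ) (hε : 0 < ε) : ∃ η : ℝ, 0 < η ∧ ∀ h : ℕ, 1 ≤ h → ∀ e : ℤ, Even e →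
    ((|e| : ℤ) : ℝ) ≤ η * h →
    ∑' x : ℤ, ENNReal.ofReal |H h x - H h (x + e)| ≤ ENNReal.ofReal (ε * uu h) := by
  classical
  obtain ⟨C, κ, hC, hκ, hol⟩ := hoelder
  obtain ⟨M, hM⟩ := Wall.lat0 (ε / 4) (by positivity)
  obtain ⟨η0, hη0, hη1⟩ : ∃ η0 : ℝ, 0 < η0 ∧ (2 * (M + 1) + 1) * (C * η0 ^ κ) ≤ ε / 2 := by
    refine ⟨(ε / 2 / ((2 * (M + 1) + 1) * C)) ^ (1 / κ), by positivity, ?_⟩
    rw [← Real.rpow_mul (by positivity), one_div_mul_cancel hκ.ne', Real.rpow_one]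
    apply le_of_eq
    have h1 : ((2 * ((M : ℝ) + 1) + 1) * C) ≠ 0 := by positivity
    field_simp
  refine ⟨min η0 1, lt_min hη0 one_pos, fun h hh e he1 he2 => ?_⟩
  have hhr : (0 : ℝ) < h := by exact_mod_cast hh
  have hu := uu_pos h
  have he3 : ((|e| : ℤ) : ℝ) ≤ η0 * h := he2.trans (mul_le_mul_of_nonneg_right (min_le_left _ _) hhr.le)
  have he4 : |e| ≤ (h : ℤ) := by
    have h1 : ((|e| : ℤ) : ℝ) ≤ 1 * h := he2.trans (mul_le_mul_of_nonneg_right (min_le_right _ _) hhr.le)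
    rw [one_mul] at h1
    exact_mod_cast h1
  -- the middle
  have hmid : ∀ x : ℤ, ENNReal.ofReal |H h x - H h (x + e)| ≤ ENNReal.ofReal (C * η0 ^ κ * (uu h / h)) := by
    intro x
    apply ENNReal.ofReal_le_ofReal
    have hev : Even (x - (x + e)) := by
      have : x - (x + e) = -e := by ring
      rw [this]
      exact he1.neg
    refine (hol h x (x + e) hh hev).trans ?_
    have h2 : x - (x + e) = -e := by ring
    rw [h2, abs_neg]
    have h3 : ((|e| : ℤ) : ℝ) / h ≤ η0 := by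
      rw [div_le_iff₀ hhr]
      exact he3
    have h4 : (0 : ℝ) ≤ ((|e| : ℤ) : ℝ) / h := div_nonneg (by exact_mod_cast abs_nonneg e) hhr.le
    have h5 : (((|e| : ℤ) : ℝ) / h) ^ κ ≤ η0 ^ κ := Real.rpow_le_rpow h4 h3 hκ.le
    have h6 : 0 ≤ uu h / h := div_nonneg hu.le hhr.le
    exact mul_le_mul_of_nonneg_right (mul_le_mul_of_nonneg_left h5 hC.le) h6
  obtain ⟨N, hN⟩ : ∃ N : ℕ, N = (M + 1) * h := ⟨_, rfl⟩
  have htail : ∀ x : ℤ, ENNReal.ofReal |H h x - H h (x + e)| ≤ gf (EndB h x) + gf (EndB h (x + e)) := by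
    intro x
    have h0 : ∀ y : ℤ, 0 ≤ H h y := fun y => ENNReal.toReal_nonneg
    rw [← ofReal_H, ← ofReal_H, ← ENNReal.ofReal_add (h0 _) (h0 _)]
    exact ENNReal.ofReal_le_ofReal (F3Ker.abs_le_add (h0 _) (h0 _))
  have hsp : ∀ x : ℤ, ENNReal.ofReal |H h x - H h (x + e)| ≤
      (if x ∈ Finset.Icc (-(N : ℤ)) N then ENNReal.ofReal (C * η0 ^ κ * (uu h / h)) else 0) +
      ((if x ∈ {x : ℤ | (M * h : ℤ) < |x|} then gf (EndB h x) else 0) +
        (if x + e ∈ {x : ℤ | (M * h : ℤ) < |x|} then gf (EndB h (x + e)) else 0)) := by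
    intro x
    by_cases hx : x ∈ Finset.Icc (-(N : ℤ)) N
    · rw [if_pos hx]
      exact (hmid x).trans le_self_add
    · rw [if_neg hx, zero_add]
      have hx1 : (N : ℤ) < |x| := by
        by_contra hc
        push Not at hc
        exact hx (Finset.mem_Icc.2 (abs_le.1 hc))
      have hN2 : (N : ℤ) = M * h + h := by
        rw [hN]
        push_cast
        ring
      have hx2 : (M * h : ℤ) < |x| := by
        have : (0 : ℤ) ≤ h := by positivity
        linarith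
      have hx3 : (M * h : ℤ) < |x + e| := by
        have h1 : |x| ≤ |x + e| + |e| := by
          have := abs_sub (x + e) e
          simpa using this
        linarith
      have hx2' : x ∈ {x : ℤ | (M * h : ℤ) < |x|} := hx2
      have hx3' : x + e ∈ {x : ℤ | (M * h : ℤ) < |x|} := hx3
      rw [if_pos hx2', if_pos hx3']
      exact htail x
  refine (ENNReal.tsum_le_tsum hsp).trans ?_
  rw [ENNReal.tsum_add, ENNReal.tsum_add]
  have hT1 : ∑' x : ℤ, (if x ∈ {x : ℤ | (M * h : ℤ) < |x|} then gf (EndB h x) else 0) ≤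
      ENNReal.ofReal (ε / 4 * uu h) := by
    have h1 := F3Ker.sum_end h Set.univ {x : ℤ | (M * h : ℤ) < |x|}
    have h2 : ∀ x : ℤ, {t | t ∈ EndB h x ∧ t ∈ (Set.univ : Set (List Bool))} = EndB h x := by
      intro x
      ext t
      simp
    simp only [h2] at h1
    rw [h1]
    refine le_trans (gf_mono ?_) (hM h hh)
    rintro t ⟨ht1, _, ht2⟩
    exact ⟨ht1, t.length, le_rfl, ht2⟩
  have hT2 : ∑' x : ℤ, (if x + e ∈ {x : ℤ | (M * h : ℤ) < |x|} then gf (EndB h (x + e)) else 0) ≤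
      ENNReal.ofReal (ε / 4 * uu h) := by
    rw [F3Ker.shift (fun x => if x ∈ {x : ℤ | (M * h : ℤ) < |x|} then gf (EndB h x) else 0) e]
    exact hT1
  have hT0 : ∑' x : ℤ, (if x ∈ Finset.Icc (-(N : ℤ)) N then ENNReal.ofReal (C * η0 ^ κ * (uu h / h)) else 0) ≤
      ENNReal.ofReal (ε / 2 * uu h) := by
    rw [tsum_eq_sum (s := Finset.Icc (-(N : ℤ)) N) (fun x hx => if_neg hx)]
    rw [Finset.sum_congr rfl (fun x hx => if_pos hx), Finset.sum_const, nsmul_eq_mul]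
    have hcard : (Finset.Icc (-(N : ℤ)) N).card = 2 * N + 1 := by
      rw [Int.card_Icc]
      omega
    rw [hcard, ← ENNReal.ofReal_natCast, ← ENNReal.ofReal_mul (by positivity)]
    apply ENNReal.ofReal_le_ofReal
    have h1 : ((2 * N + 1 : ℕ) : ℝ) ≤ (2 * (M + 1) + 1) * h := by
      rw [hN]
      push_cast
      have : (1 : ℝ) ≤ h := by exact_mod_cast hh
      nlinarith
    have h2 : 0 ≤ C * η0 ^ κ * (uu h / h) := by positivity
    calc ((2 * N + 1 : ℕ) : ℝ) * (C * η0 ^ κ * (uu h / h))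
        ≤ ((2 * (M + 1) + 1) * h) * (C * η0 ^ κ * (uu h / h)) := mul_le_mul_of_nonneg_right h1 h2
      _ = (2 * (M + 1) + 1) * (C * η0 ^ κ) * uu h := by
          field_simp
      _ ≤ ε / 2 * uu h := mul_le_mul_of_nonneg_right hη1 hu.le
  refine (add_le_add hT0 (add_le_add hT1 hT2)).trans ?_
  rw [← ENNReal.ofReal_add (by positivity) (by positivity), ← ENNReal.ofReal_add (by positivity) (by positivity)]
  apply ENNReal.ofReal_le_ofReal
  linarith

/-- the same for the bridges of a set S: the rest of the bridges is the error. -/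
theorem ker_set (ε : ℝ) (hε : 0 < ε) : ∃ η : ℝ, 0 < η ∧ ∀ h : ℕ, 1 ≤ h → ∀ e : ℤ, Even e →
    ((|e| : ℤ) : ℝ) ≤ η * h → ∀ S : Set (List Bool),
    ∑' x : ℤ, ENNReal.ofReal |HS S h x - HS S h (x + e)| ≤
      ENNReal.ofReal (ε * uu h) + 2 * gf {t | t ∈ Brd h ∧ t ∉ S} := by
  obtain ⟨η, hη, hker⟩ := ker_l1 ε hε
  refine ⟨η, hη, fun h hh e he1 he2 S => ?_⟩
  have hd : ∀ x : ℤ, H h x = HS S h x + HS Sᶜ h x := by
    intro x
    unfold H HS
    rw [← ENNReal.toReal_add]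
    · congr 1
      rw [← gf_union]
      · congr 1
        ext t
        constructor
        · intro ht
          by_cases hS : t ∈ S
          · exact Or.inl ⟨ht, hS⟩
          · exact Or.inr ⟨ht, hS⟩
        · rintro (ht | ht)
          · exact ht.1
          · exact ht.1
      · rw [Set.disjoint_left]
        rintro t ht1 ht2
        exact ht2.2 ht1.2
    · exact ne_top_of_le_ne_top (EndB_ne_top h x) (gf_mono fun _ h => h.1)
    · exact ne_top_of_le_ne_top (EndB_ne_top h x) (gf_mono fun _ h => h.1)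
  have hb : ∀ x : ℤ, ENNReal.ofReal |HS S h x - HS S h (x + e)| ≤ ENNReal.ofReal |H h x - H h (x + e)| +
      (gf {t | t ∈ EndB h x ∧ t ∈ Sᶜ} + gf {t | t ∈ EndB h (x + e) ∧ t ∈ Sᶜ}) := by
    intro x
    rw [← ofReal_HS, ← ofReal_HS, ← ENNReal.ofReal_add (HS_nonneg _ _ _) (HS_nonneg _ _ _),
      ← ENNReal.ofReal_add (abs_nonneg _) (add_nonneg (HS_nonneg _ _ _) (HS_nonneg _ _ _))]
    apply ENNReal.ofReal_le_ofReal
    rw [hd x, hd (x + e)]
    have h1 : HS S h x - HS S h (x + e) = (HS S h x + HS Sᶜ h x - (HS S h (x + e) + HS Sᶜ h (x + e))) -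
        (HS Sᶜ h x - HS Sᶜ h (x + e)) := by ring
    rw [h1]
    refine (abs_sub _ _).trans ?_
    have h2 := F3Ker.abs_le_add (HS_nonneg Sᶜ h x) (HS_nonneg Sᶜ h (x + e))
    linarith
  refine (ENNReal.tsum_le_tsum hb).trans ?_
  rw [ENNReal.tsum_add, ENNReal.tsum_add, F3Ker.shift (fun x => gf {t | t ∈ EndB h x ∧ t ∈ Sᶜ}) e,
    F3Ker.sum_all, two_mul]
  exact add_le_add (hker h hh e he1 he2) le_rfl

/-- the same for the bridges in a box that is wide enough. -/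
theorem ker_box (ε : ℝ) (hε : 0 < ε) : ∃ (η : ℝ) (M : ℕ), 0 < η ∧ ∀ h : ℕ, 1 ≤ h → ∀ e : ℤ, Even e →
    ((|e| : ℤ) : ℝ) ≤ η * h → ∀ S : Set (List Bool), {t | t ∈ Brd h ∧ ∀ i, i ≤ t.length → |lat t i| ≤ M * h} ⊆ S →
    ∑' x : ℤ, ENNReal.ofReal |HS S h x - HS S h (x + e)| ≤ ENNReal.ofReal (ε * uu h) := by
  obtain ⟨η, hη, hker⟩ := ker_set (ε / 2) (by positivity)
  obtain ⟨M, hM⟩ := Wall.lat0 (ε / 4) (by positivity)
  refine ⟨η, M, hη, fun h hh e he1 he2 S hS => ?_⟩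
  have hu := uu_pos h
  refine (hker h hh e he1 he2 S).trans ?_
  have h1 : gf {t | t ∈ Brd h ∧ t ∉ S} ≤ ENNReal.ofReal (ε / 4 * uu h) := by
    refine le_trans (gf_mono ?_) (hM h hh)
    rintro t ⟨ht1, ht2⟩
    refine ⟨ht1, ?_⟩
    by_contra hc
    push Not at hc
    exact ht2 (hS ⟨ht1, hc⟩)
  calc ENNReal.ofReal (ε / 2 * uu h) + 2 * gf {t | t ∈ Brd h ∧ t ∉ S}
      ≤ ENNReal.ofReal (ε / 2 * uu h) + 2 * ENNReal.ofReal (ε / 4 * uu h) := by gcongr
    _ = ENNReal.ofReal (ε * uu h) := by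
        rw [two_mul, ← ENNReal.ofReal_add (by positivity) (by positivity),
          ← ENNReal.ofReal_add (by positivity) (by positivity)]
        congr 1
        ring

end RP

end HexObs
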