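import Pool.Agent.PHW.FirstCut
import Pool.Agent.PHW.IrrDec
import Pool.Agent.PHW.ViaE
import Pool.Agent.PHW.Mirror
import Pool.Agent.PHW.Num3
import Pool.Agent.GLow.Alpha
import Pool.Agent.ROT.F3Ker

/-!
# ROT, F3: the pieces up to the first cut (helper38)

`FB m` = bridges which end at their first cut at height `m` or more.

* `fb_dec`, `fb_unique`, `fb_sum` : `FB m` = (any bridge of height `h < m`) ++ (an irreducible one of height
  `≥ m - h`), exactly, with weights;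
* `fb_mass` : the weights sum up to 1;
* `fb_tail` : height and lateral extent are `O (m)` with high probability;
* `fb_smooth` : the joint law of (height, lateral end) is almost invariant under lateral shifts by `e` even,
  `|e| ≤ η m`, in total variation.
-/

set_option autoImplicit false

namespace HexObs

namespace ROT

namespace FP

open Finset ENNReal

/-- the pieces up to the first cut at height m or more -/
def FB (m : ℕ) : Set (List Bool) := {t | ∃ T, t ∈ FC m T}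

/-- irreducible pieces of height at least n -/
def IG (n : ℕ) : Set (List Bool) := {t | ∃ r, n ≤ r ∧ t ∈ Irr r}

private lemma brd_pos {b : ℕ} {t : List Bool} (ht : t ∈ Brd b) (h : t ≠ []) : 1 ≤ b := by
  rcases Nat.eq_zero_or_pos b with rfl | h0
  · rw [Brd_zero] at ht
    exact absurd ht h
  · exact h0

private lemma brd_nil {b : ℕ} (ht : ([] : List Bool) ∈ Brd b) : b = 0 := Brd_height ht nil_mem_Brd

private lemma ig_pos {n : ℕ} {i : List Bool} (h : i ∈ IG n) : i ≠ [] := by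
  obtain ⟨r, -, hr⟩ := h
  exact hr.2.1

theorem fb_dec {m : ℕ} (hm : 1 ≤ m) (k : List Bool) :
    k ∈ FB m ↔ ∃ h a i, h < m ∧ a ∈ Brd h ∧ i ∈ IG (m - h) ∧ k = a ++ i := by
  classical
  constructor
  · rintro ⟨T, hk, hmT, hno⟩
    have h0 : Cut k 0 := ⟨[], k, T, nil_mem_Brd, hk, rfl⟩
    set h := Nat.findGreatest (fun c => Cut k c) (T - 1) with hh
    have hc : Cut k h := Nat.findGreatest_spec (P := fun c => Cut k c) (Nat.zero_le _) h0
    have hle : h ≤ T - 1 := Nat.findGreatest_le _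
    have hmax : ∀ c, h < c → c ≤ T - 1 → ¬ Cut k c := fun c h1 h2 => Nat.findGreatest_is_greatest h1 h2
    have hhm : h < m := by
      by_contra hcon
      exact hno h (by omega) (by omega) hc
    obtain ⟨a, i, b, ha, hi, hai⟩ := hc
    have hT : T = h + b := Brd_height hk (hai ▸ Brd_append ha hi)
    refine ⟨h, a, i, hhm, ha, ⟨b, by omega, hi, ?_, ?_⟩, hai⟩
    · rintro rfl
      have := brd_nil hi
      omega
    · intro a' b' s u hs hu hsu
      by_contra hcon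
      rw [not_or] at hcon
      have h1 := brd_pos hs hcon.1
      have h2 := brd_pos hu hcon.2
      have h3 : b = a' + b' := Brd_height hi (hsu ▸ Brd_append hs hu)
      exact hmax (h + a') (by omega) (by omega)
        ⟨a ++ s, u, b', Brd_append ha hs, hu, by rw [hai, hsu, List.append_assoc]⟩
  · rintro ⟨h, a, i, hh, ha, ⟨r, hr, hi⟩, rfl⟩
    refine ⟨h + r, Brd_append ha hi.1, by omega, ?_⟩
    rintro c hc hlt ⟨s', u', b', hs', hu', heq⟩
    obtain ⟨v, hv, h1, h2⟩ := FCaux.nested ha hs' hi.1 hu' (by omega) heq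
    rcases hi.2.2 _ _ v u' hv hu' h2 with h3 | h3
    · rw [h3] at hv
      have := brd_nil hv
      omega
    · rw [h3] at hu' h2
      have h4 := brd_nil hu'
      have h5 := Brd_append hs' hu'
      have h6 : h + r = c + b' := Brd_height (Brd_append ha hi.1) (by rw [heq, h3]; exact h5)
      omega

theorem fb_unique {h h' n n' : ℕ} {a a' i i' : List Bool} (ha : a ∈ Brd h) (ha' : a' ∈ Brd h') (hi : i ∈ IG n)
    (hi' : i' ∈ IG n') (heq : a ++ i = a' ++ i') : h = h' ∧ a = a' ∧ i = i' := by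
  have key : ∀ {h h' n n' : ℕ} {a a' i i' : List Bool}, a ∈ Brd h → a' ∈ Brd h' → i ∈ IG n → i' ∈ IG n' →
      a ++ i = a' ++ i' → h ≤ h' → h = h' ∧ a = a' ∧ i = i' := by
    intro h h' n n' a a' i i' ha ha' hi hi' heq hle
    obtain ⟨r, hr, hir⟩ := hi
    obtain ⟨r', hr', hir'⟩ := hi'
    obtain ⟨v, hv, h1, h2⟩ := FCaux.nested ha ha' hir.1 hir'.1 hle heq
    rcases hir.2.2 _ _ v i' hv hir'.1 h2 with h3 | h3
    · rw [h3] at hv h1 h2
      have := brd_nil hv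
      rw [List.append_nil] at h1
      rw [List.nil_append] at h2
      exact ⟨by omega, h1.symm, h2⟩
    · exact absurd h3 hir'.2.1
  rcases Nat.le_total h h' with hle | hle
  · exact key ha ha' hi hi' heq hle
  · obtain ⟨h1, h2, h3⟩ := key ha' ha hi' hi heq.symm hle
    exact ⟨h1.symm, h2.symm, h3.symm⟩

/-- the exact sum over the pieces up to the first cut -/
theorem fb_sum {m : ℕ} (hm : 1 ≤ m) (F : List Bool → ℝ≥0∞) :
    ∑' k : FB m, wE k.1 * F k.1 =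
      ∑ h ∈ range m, ∑' i : IG (m - h), ∑' a : Brd h, wE a.1 * (wE i.1 * F (a.1 ++ i.1)) := by
  let f : (Σ h : Fin m, IG (m - h) × Brd (h : ℕ)) → FB m := fun x =>
    ⟨x.2.2.1 ++ x.2.1.1, (fb_dec hm _).2 ⟨x.1, x.2.2.1, x.2.1.1, x.1.2, x.2.2.2, x.2.1.2, rfl⟩⟩
  have hf : Function.Bijective f := by
    constructor
    · rintro ⟨h, i, a⟩ ⟨h', i', a'⟩ hxy
      have h1 : a.1 ++ i.1 = a'.1 ++ i'.1 := congrArg Subtype.val hxy
      obtain ⟨h2, h3, h4⟩ := fb_unique a.2 a'.2 i.2 i'.2 h1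
      obtain rfl : h = h' := Fin.ext h2
      obtain rfl : a = a' := Subtype.ext h3
      obtain rfl : i = i' := Subtype.ext h4
      rfl
    · rintro ⟨k, hk⟩
      obtain ⟨h, a, i, hh, ha, hi, hai⟩ := (fb_dec hm k).1 hk
      exact ⟨⟨⟨h, hh⟩, ⟨i, hi⟩, ⟨a, ha⟩⟩, Subtype.ext hai.symm⟩
  rw [← (Equiv.ofBijective f hf).tsum_eq, ENNReal.tsum_sigma', tsum_fintype, Finset.sum_range]
  refine Finset.sum_congr rfl fun h _ => ?_
  rw [ENNReal.tsum_prod']
  refine tsum_congr fun i => tsum_congr fun a => ?_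
  show wE (a.1 ++ i.1) * F (a.1 ++ i.1) = wE a.1 * (wE i.1 * F (a.1 ++ i.1))
  rw [wE_append, mul_assoc]

/-! ## masses -/

theorem gf_IG (n : ℕ) : gf (IG n) = ENNReal.ofReal (KK' n) := by
  have h1 : IG n = ⋃ j : ℕ, Irr (j + n) := by
    ext t
    rw [Set.mem_iUnion]
    constructor
    · rintro ⟨r, hr, ht⟩
      exact ⟨r - n, by rw [Nat.sub_add_cancel hr]; exact ht⟩
    · rintro ⟨j, ht⟩
      exact ⟨j + n, Nat.le_add_left _ _, ht⟩
  have h2 : ∀ i j : ℕ, ∀ t, t ∈ Irr (i + n) → t ∈ Irr (j + n) → i = j := by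
    intro i j t hi hj
    have := Brd_height hi.1 hj.1
    omega
  have h3 : ∀ j : ℕ, gf (Irr (j + n)) = ENNReal.ofReal (kk (j + n)) := fun j => kap'_eq (j + n)
  rw [h1, K1.gf_iUnion _ h2, tsum_congr h3,
    ← ENNReal.ofReal_tsum_of_nonneg (fun j => kk_nonneg _) ((summable_nat_add_iff n).2 summable_kk)]
  congr 1
  have h4 := summable_kk.sum_add_tsum_nat_add n
  rw [tsum_kk] at h4
  unfold KK'
  linarith

private lemma sum_ofReal {s : Finset ℕ} {f g : ℕ → ℝ} (hf : ∀ h, 0 ≤ f h) (hg : ∀ h, 0 ≤ g h) :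
    ∑ h ∈ s, ENNReal.ofReal (f h) * ENNReal.ofReal (g h) = ENNReal.ofReal (∑ h ∈ s, f h * g h) := by
  rw [ENNReal.ofReal_sum_of_nonneg fun h _ => mul_nonneg (hf h) (hg h)]
  exact Finset.sum_congr rfl fun h _ => (ENNReal.ofReal_mul (hf h)).symm

/-- the weight of the words (bridge of height h) ++ (irreducible piece of height n h or more), h in s -/
theorem fb_rect (s : Finset ℕ) (n : ℕ → ℕ) :
    gf {k | ∃ h a i, h ∈ s ∧ a ∈ Brd h ∧ i ∈ IG (n h) ∧ k = a ++ i} ≤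
      ENNReal.ofReal (∑ h ∈ s, uu h * KK' (n h)) := by
  rw [← sum_ofReal (fun h => (uu_pos h).le) fun h => KK_nonneg _]
  have h1 : {k | ∃ h a i, h ∈ s ∧ a ∈ Brd h ∧ i ∈ IG (n h) ∧ k = a ++ i} =
      ⋃ h : s, {k | ∃ a i, a ∈ Brd (h : ℕ) ∧ i ∈ IG (n h) ∧ k = a ++ i} := by
    ext k
    rw [Set.mem_iUnion]
    constructor
    · rintro ⟨h, a, i, h1, h2, h3, h4⟩
      exact ⟨⟨h, h1⟩, a, i, h2, h3, h4⟩
    · rintro ⟨⟨h, h1⟩, a, i, h2, h3, h4⟩
      exact ⟨h, a, i, h1, h2, h3, h4⟩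
  rw [h1, K1.gf_iUnion, tsum_fintype, ← Finset.sum_coe_sort s]
  · refine Finset.sum_le_sum fun h _ => ?_
    rw [← BT_eq_uu, ← gf_Brd, ← gf_IG]
    exact gf_le_mul fun k hk => by
      obtain ⟨a, i, ha, hi, hk⟩ := hk
      exact ⟨a, ha, i, hi, hk⟩
  · rintro ⟨h, hh⟩ ⟨h', hh'⟩ k ⟨a, i, ha, hi, rfl⟩ ⟨a', i', ha', hi', heq⟩
    exact Subtype.ext (fb_unique ha ha' hi hi' heq).1

theorem fb_mass {m : ℕ} (hm : 1 ≤ m) : gf (FB m) = 1 := by
  have h1 := fb_sum hm (fun _ => 1)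
  simp only [mul_one] at h1
  have h2 : gf (FB m) = ∑' k : FB m, wE k.1 := rfl
  rw [h2, h1]
  have h3 : ∀ h ∈ range m, (∑' i : IG (m - h), ∑' a : Brd h, wE a.1 * wE i.1) =
      ENNReal.ofReal (uu h) * ENNReal.ofReal (KK' (m - h)) := by
    intro h _
    rw [← BT_eq_uu, ← gf_Brd, ← gf_IG]
    unfold gf
    rw [← ENNReal.tsum_mul_left]
    exact tsum_congr fun i => ENNReal.tsum_mul_right
  rw [Finset.sum_congr rfl h3, sum_ofReal (fun h => (uu_pos h).le) fun h => KK_nonneg _]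
  obtain ⟨N, rfl⟩ : ∃ N, m = N + 1 := ⟨m - 1, by omega⟩
  rw [KK_renewal, ENNReal.ofReal_one]

/-! ## tails -/

theorem fb_high {m N : ℕ} (hm : 1 ≤ m) (hN : m - 1 ≤ N) :
    gf {k | k ∈ FB m ∧ ∃ T, N < T ∧ k ∈ Brd T} ≤ ENNReal.ofReal (UU (m - 1) / UU (N - (m - 1))) := by
  have h1 : {k | k ∈ FB m ∧ ∃ T, N < T ∧ k ∈ Brd T} ⊆
      {k | ∃ h a i, h ∈ range m ∧ a ∈ Brd h ∧ i ∈ IG (N + 1 - h) ∧ k = a ++ i} := by
    rintro k ⟨hk, T, hT, hkT⟩
    obtain ⟨h, a, i, hh, ha, ⟨r, hr, hi⟩, rfl⟩ := (fb_dec hm k).1 hk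
    have h2 : T = h + r := Brd_height hkT (Brd_append ha hi.1)
    exact ⟨h, a, i, mem_range.2 hh, ha, ⟨r, by omega, hi⟩, rfl⟩
  refine (gf_mono h1).trans ((fb_rect _ _).trans (ENNReal.ofReal_le_ofReal ?_))
  have h2 := no_cut hN
  rwa [Nat.sub_add_cancel hm] at h2

theorem fb_lat {δ : ℝ} {M m n : ℕ} (hmn : m ≤ n)
    (hM : gf {t | t ∈ Brd n ∧ ∃ i, i ≤ t.length ∧ (M * n : ℤ) < |lat t i|} ≤ ENNReal.ofReal (δ * bT n)) :
    gf {k | k ∈ FB m ∧ (∃ T, T ≤ n ∧ k ∈ Brd T) ∧ ∃ i, i ≤ k.length ∧ (M * n : ℤ) < |lat k i|} ≤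
      ENNReal.ofReal δ := by
  set P : Set (List Bool) := {k | ∃ i, i ≤ k.length ∧ (M * n : ℤ) < |lat k i|} with hP
  have h1 := gf_FC P hmn
  have h2 : gf {t | t ∈ Brd n ∧ ∃ j a u, j ≤ n ∧ a ∈ FC m j ∧ a ∈ P ∧ u ∈ Brd (n - j) ∧ t = a ++ u} ≤
      ENNReal.ofReal (δ * bT n) := by
    refine (gf_mono ?_).trans hM
    rintro t ⟨ht, j, a, u, hj, ha, ⟨i, hi, hia⟩, hu, rfl⟩
    refine ⟨ht, i, by rw [List.length_append]; omega, ?_⟩
    rwa [lat_append (by omega)]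
  have hu : 0 < uu n := uu_pos n
  have h3 : (∑ j ∈ Finset.Icc m n, gf (FC m j ∩ P)) * BT n ≤ ENNReal.ofReal δ * BT n := by
    rw [Finset.sum_mul]
    have h4 : ENNReal.ofReal δ * BT n = ENNReal.ofReal (δ * bT n) := by
      rw [BT_eq_uu, show bT n = uu n from rfl, ENNReal.ofReal_mul' hu.le]
    rw [h4]
    refine le_trans (Finset.sum_le_sum fun j hj => ?_) (h1 ▸ h2)
    rw [BT_eq_uu n, BT_eq_uu (n - j)]
    exact mul_le_mul_right (ENNReal.ofReal_le_ofReal (uu_anti (Nat.sub_le n j))) _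
  have h4 : BT n ≠ 0 := by
    rw [BT_eq_uu n]
    exact (ENNReal.ofReal_pos.2 hu).ne'
  have h5 : ∑ j ∈ Finset.Icc m n, gf (FC m j ∩ P) ≤ ENNReal.ofReal δ :=
    (ENNReal.mul_le_mul_iff_left h4 (ViaEaux.BT_ne_top0 n)).1 h3
  refine le_trans ?_ h5
  have h6 : {k | k ∈ FB m ∧ (∃ T, T ≤ n ∧ k ∈ Brd T) ∧ ∃ i, i ≤ k.length ∧ (M * n : ℤ) < |lat k i|} ⊆
      ⋃ j : Finset.Icc m n, FC m (j : ℕ) ∩ P := by
    rintro k ⟨⟨T, hT⟩, ⟨T', hT', hk⟩, hi⟩
    have h7 := Brd_height hT.1 hk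
    exact Set.mem_iUnion.2 ⟨⟨T, Finset.mem_Icc.2 ⟨hT.2.1, by omega⟩⟩, hT, hi⟩
  refine (gf_mono h6).trans ?_
  rw [K1.gf_iUnion, tsum_fintype, ← Finset.sum_coe_sort (Finset.Icc m n)]
  rintro ⟨i, hi⟩ ⟨j, hj⟩ t h7 h8
  exact Subtype.ext (Brd_height h7.1.1 h8.1.1)

/-- the ratio of the partial sums -/
theorem UU_ratio : ∃ C : ℝ, 0 < C ∧ ∀ s S : ℕ, 1 ≤ s → 1 ≤ S → UU s / UU S ≤ C * ((s : ℝ) / S) ^ (3 / 4 : ℝ) := by
  obtain ⟨C, hC, h1⟩ := GLow.UU_up
  obtain ⟨c, hc, h2⟩ := GLow.UU_low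
  refine ⟨C / c, by positivity, fun s S hs hS => ?_⟩
  have hs0 : (0 : ℝ) < s := by exact_mod_cast hs
  have hS0 : (0 : ℝ) < S := by exact_mod_cast hS
  have h3 : 0 < c * (S : ℝ) ^ (3 / 4 : ℝ) := by positivity
  calc UU s / UU S ≤ (C * (s : ℝ) ^ (3 / 4 : ℝ)) / (c * (S : ℝ) ^ (3 / 4 : ℝ)) :=
        div_le_div₀ (by positivity) (h1 s hs) h3 (h2 S hS)
    _ = C / c * ((s : ℝ) / S) ^ (3 / 4 : ℝ) := by
        rw [Real.div_rpow hs0.le hS0.le]
        field_simp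

/-- height and lateral extent of the piece up to the first cut at or above m are `O (m)`. -/
theorem fb_tail {ε : ℝ} (hε : 0 < ε) : ∃ R : ℕ, ∀ m : ℕ, 1 ≤ m →
    gf {k | k ∈ FB m ∧ ((∃ T, R * m < T ∧ k ∈ Brd T) ∨ ∃ i, i ≤ k.length ∧ (R * m : ℤ) < |lat k i|)} ≤
      ENNReal.ofReal ε := by
  obtain ⟨C, hC, hr⟩ := UU_ratio
  obtain ⟨A, hA, hA2⟩ : ∃ A : ℕ, 1 ≤ A ∧ C * (1 / (A : ℝ)) ^ (3 / 4 : ℝ) ≤ ε / 2 := by
    have h1 : Filter.Tendsto (fun A : ℕ => C * (1 / (A : ℝ)) ^ (3 / 4 : ℝ)) Filter.atTop (nhds 0) := by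
      have h2 : Filter.Tendsto (fun A : ℕ => (1 / (A : ℝ))) Filter.atTop (nhds 0) :=
        tendsto_one_div_atTop_nhds_zero_nat
      have h3 := (h2.rpow_const (Or.inr (by norm_num : (0 : ℝ) ≤ 3 / 4))).const_mul C
      rwa [Real.zero_rpow (by norm_num), mul_zero] at h3
    obtain ⟨A, h2, h3⟩ := ((h1.eventually_lt_const (by positivity : 0 < ε / 2)).and
      (Filter.eventually_ge_atTop 1)).exists
    exact ⟨A, h3, h2.le⟩
  obtain ⟨M, hM⟩ := Ex.lat0 (ε / 2) (by positivity)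
  refine ⟨(M + 1) * (A + 1), fun m hm => ?_⟩
  set n := (A + 1) * m with hn
  have hn1 : m ≤ n := by rw [hn]; nlinarith
  have h1 : gf {k | k ∈ FB m ∧ ∃ T, n < T ∧ k ∈ Brd T} ≤ ENNReal.ofReal (ε / 2) := by
    refine (fb_high hm (by omega)).trans (ENNReal.ofReal_le_ofReal ?_)
    have h2 : A * m ≤ n - (m - 1) := by
      have : n = A * m + m := by rw [hn]; ring
      omega
    have h3 : 1 ≤ A * m := Nat.one_le_iff_ne_zero.2 (by positivity)
    have h4 : 0 < UU (A * m) := Num2Aux.UU_pos _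
    calc UU (m - 1) / UU (n - (m - 1)) ≤ UU m / UU (A * m) :=
          div_le_div₀ (Num2Aux.UU_pos _).le (Num2Aux.UU_mono (by omega)) h4 (Num2Aux.UU_mono h2)
      _ ≤ C * ((m : ℝ) / (A * m : ℕ)) ^ (3 / 4 : ℝ) := hr m _ hm h3
      _ = C * (1 / (A : ℝ)) ^ (3 / 4 : ℝ) := by
          congr 2
          have hm0 : (m : ℝ) ≠ 0 := by positivity
          push_cast
          field_simp
      _ ≤ ε / 2 := hA2
  have h2 := fb_lat hn1 (hM n (by omega))
  have h3 : {k | k ∈ FB m ∧ ((∃ T, (M + 1) * (A + 1) * m < T ∧ k ∈ Brd T) ∨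
      ∃ i, i ≤ k.length ∧ (((M + 1) * (A + 1) : ℕ) * m : ℤ) < |lat k i|)} ⊆
      {k | k ∈ FB m ∧ ∃ T, n < T ∧ k ∈ Brd T} ∪
      {k | k ∈ FB m ∧ (∃ T, T ≤ n ∧ k ∈ Brd T) ∧ ∃ i, i ≤ k.length ∧ (M * n : ℤ) < |lat k i|} := by
    have h4 : (M + 1) * (A + 1) * m = (M + 1) * n := by rw [hn]; ring
    have h5 : (((M + 1) * (A + 1) : ℕ) * m : ℤ) = (M + 1) * n := by
      rw [hn]; push_cast; ring
    rintro k ⟨hk, h6⟩
    rcases h6 with ⟨T, hT, hkT⟩ | ⟨i, hi, hia⟩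
    · refine Or.inl ⟨hk, T, ?_, hkT⟩
      rw [h4] at hT
      nlinarith
    · obtain ⟨T, hT⟩ := hk
      rcases Nat.lt_or_ge n T with h7 | h7
      · exact Or.inl ⟨⟨T, hT⟩, T, h7, hT.1⟩
      · refine Or.inr ⟨⟨T, hT⟩, ⟨T, h7, hT.1⟩, i, hi, ?_⟩
        rw [h5] at hia
        have : (0 : ℤ) ≤ n := Int.natCast_nonneg n
        linarith
  calc _ ≤ _ := gf_mono h3
    _ ≤ _ := gf_union_le _ _
    _ ≤ ENNReal.ofReal (ε / 2) + ENNReal.ofReal (ε / 2) := add_le_add h1 h2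
    _ = ENNReal.ofReal ε := by
        rw [← ENNReal.ofReal_add (by positivity) (by positivity), add_halves]

/-! ## smoothness -/

private lemma sum_lat (h : ℕ) (Ψ : ℤ → ℝ≥0∞) :
    ∑' a : Brd h, wE a.1 * Ψ (latE a.1) = ∑' x : ℤ, gf (RP.EndB h x) * Ψ x := by
  have h1 : ∀ x : ℤ, gf (RP.EndB h x) * Ψ x =
      ∑' a : Brd h, if latE a.1 = x then wE a.1 * Ψ (latE a.1) else 0 := by
    intro x
    unfold gf
    rw [← ENNReal.tsum_mul_right, tsum_subtype (RP.EndB h x) (fun t => wE t * Ψ x),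
      tsum_subtype (Brd h) (fun t => if latE t = x then wE t * Ψ (latE t) else 0)]
    refine tsum_congr fun t => ?_
    by_cases ht : t ∈ RP.EndB h x
    · rw [Set.indicator_of_mem ht, Set.indicator_of_mem ht.1, if_pos ht.2, ht.2]
    · rw [Set.indicator_of_notMem ht]
      by_cases ht2 : t ∈ Brd h
      · rw [Set.indicator_of_mem ht2, if_neg fun h3 => ht ⟨ht2, h3⟩]
      · rw [Set.indicator_of_notMem ht2]
  rw [tsum_congr h1, ENNReal.tsum_comm]
  refine tsum_congr fun a => ?_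
  rw [tsum_eq_single (latE a.1) fun x hx => if_neg (Ne.symm hx), if_pos rfl]

/-- shift of a test function at the end of a bridge of height h -/
private lemma shift_one (h : ℕ) (e : ℤ) (Ψ : ℤ → ℝ≥0∞) (hΨ : ∀ x, Ψ x ≤ 1) :
    ∑' a : Brd h, wE a.1 * Ψ (latE a.1 - e) ≤
      ∑' a : Brd h, wE a.1 * Ψ (latE a.1) + ∑' x : ℤ, (gf (RP.EndB h (x + e)) - gf (RP.EndB h x)) := by
  rw [sum_lat h Ψ, sum_lat h (fun x => Ψ (x - e)), ← ENNReal.tsum_add]
  have h1 : ∑' x : ℤ, gf (RP.EndB h x) * Ψ (x - e) = ∑' x : ℤ, gf (RP.EndB h (x + e)) * Ψ x := by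
    rw [← (Equiv.addRight e).tsum_eq (fun x => gf (RP.EndB h x) * Ψ (x - e))]
    refine tsum_congr fun x => ?_
    show gf (RP.EndB h (x + e)) * Ψ (x + e - e) = _
    rw [add_sub_cancel_right]
  rw [h1]
  refine ENNReal.tsum_le_tsum fun x => ?_
  calc gf (RP.EndB h (x + e)) * Ψ x
      ≤ (gf (RP.EndB h x) + (gf (RP.EndB h (x + e)) - gf (RP.EndB h x))) * Ψ x :=
        mul_le_mul_left le_add_tsub _
    _ = gf (RP.EndB h x) * Ψ x + (gf (RP.EndB h (x + e)) - gf (RP.EndB h x)) * Ψ x := add_mul _ _ _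
    _ ≤ _ := add_le_add le_rfl (mul_le_of_le_one_right' (hΨ x))

private lemma dist_le_uu (h : ℕ) (e : ℤ) :
    ∑' x : ℤ, (gf (RP.EndB h (x + e)) - gf (RP.EndB h x)) ≤ ENNReal.ofReal (uu h) := by
  have h1 := sum_lat h (fun _ => 1)
  simp only [mul_one] at h1
  have h2 : gf (Brd h) = ENNReal.ofReal (uu h) := by rw [gf_Brd, BT_eq_uu]
  have h3 : ∑' x : ℤ, gf (RP.EndB h (x + e)) = ∑' x : ℤ, gf (RP.EndB h x) :=
    (Equiv.addRight e).tsum_eq fun x => gf (RP.EndB h x)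
  rw [← h2]
  calc _ ≤ ∑' x : ℤ, gf (RP.EndB h (x + e)) := ENNReal.tsum_le_tsum fun x => tsub_le_self
    _ = gf (Brd h) := by rw [h3, ← h1]; rfl

private lemma dist_le_ker {h : ℕ} {e : ℤ} {δ : ℝ≥0∞}
    (hk : ∑' x : ℤ, ENNReal.ofReal |RP.H h x - RP.H h (x + e)| ≤ δ) :
    ∑' x : ℤ, (gf (RP.EndB h (x + e)) - gf (RP.EndB h x)) ≤ δ := by
  refine le_trans (ENNReal.tsum_le_tsum fun x => ?_) hk
  rw [← RP.ofReal_H, ← RP.ofReal_H, ← ENNReal.ofReal_sub _ (show 0 ≤ RP.H h x from ENNReal.toReal_nonneg)]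
  refine ENNReal.ofReal_le_ofReal ?_
  rw [abs_sub_comm]
  exact le_abs_self _

/-- one shift: the loss is the sum over the heights of the bridge part. -/
theorem fb_shift {m : ℕ} (hm : 1 ≤ m) (e : ℤ) (Φ : ℤ → ℤ → ℝ≥0∞) (hΦ : ∀ l x, Φ l x ≤ 1) :
    ∑' k : FB m, wE k.1 * Φ (lev k.1 k.1.length) (latE k.1 - e) ≤
      ∑' k : FB m, wE k.1 * Φ (lev k.1 k.1.length) (latE k.1) +
        ∑ h ∈ range m, (∑' x : ℤ, (gf (RP.EndB h (x + e)) - gf (RP.EndB h x))) * gf (IG (m - h)) := by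
  rw [fb_sum hm fun k => Φ (lev k k.length) (latE k - e), fb_sum hm fun k => Φ (lev k k.length) (latE k),
    ← Finset.sum_add_distrib]
  refine Finset.sum_le_sum fun h _ => ?_
  set D := ∑' x : ℤ, (gf (RP.EndB h (x + e)) - gf (RP.EndB h x)) with hD
  have h1 : D * gf (IG (m - h)) = ∑' i : IG (m - h), wE i.1 * D := by
    unfold gf
    rw [mul_comm, ENNReal.tsum_mul_right]
  rw [h1, ← ENNReal.tsum_add]
  refine ENNReal.tsum_le_tsum fun i => ?_
  have e1 : ∀ (c : ℤ) (a : Brd h), Φ (lev (a.1 ++ i.1) (a.1 ++ i.1).length) (latE (a.1 ++ i.1) - c) =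
      Φ (3 * h + lev i.1 i.1.length) (latE a.1 - c + latE i.1) := by
    intro c a
    have ha := mem_Brd.1 a.2
    rw [List.length_append, lev_cat ha.2.2.1, latE_cat ha.2.2.1, ha.2.2.2]
    congr 1
    ring
  have h2 := shift_one h e (fun x => Φ (3 * h + lev i.1 i.1.length) (x + latE i.1)) (fun x => hΦ _ _)
  have h3 : ∀ c : ℤ, ∑' a : Brd h, wE a.1 * (wE i.1 *
      Φ (lev (a.1 ++ i.1) (a.1 ++ i.1).length) (latE (a.1 ++ i.1) - c)) =
      wE i.1 * ∑' a : Brd h, wE a.1 * Φ (3 * h + lev i.1 i.1.length) (latE a.1 - c + latE i.1) := by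
    intro c
    rw [← ENNReal.tsum_mul_left]
    refine tsum_congr fun a => ?_
    rw [e1 c a]
    ring
  have h4 := h3 0
  simp only [sub_zero] at h4
  rw [h3 e, h4, ← mul_add]
  exact mul_le_mul_right h2 _

/-- **Smoothness**: the joint law of the height and of the lateral end of the piece up to the first cut at or above m
is almost invariant under lateral shifts. -/
theorem fb_smooth {ε : ℝ} (hε : 0 < ε) : ∃ (η : ℝ) (m0 : ℕ), 0 < η ∧ 1 ≤ m0 ∧ ∀ m : ℕ, m0 ≤ m → ∀ e : ℤ, Even e →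
    ((|e| : ℤ) : ℝ) ≤ η * m → ∀ Φ : ℤ → ℤ → ℝ≥0∞, (∀ l x, Φ l x ≤ 1) →
      ∑' k : FB m, wE k.1 * Φ (lev k.1 k.1.length) (latE k.1 - e) ≤
        ∑' k : FB m, wE k.1 * Φ (lev k.1 k.1.length) (latE k.1) + ENNReal.ofReal ε := by
  obtain ⟨η, hη, hker⟩ := RP.ker_l1 (ε / 2) (by positivity)
  obtain ⟨C, hC, hr⟩ := UU_ratio
  obtain ⟨A, hA, hA2⟩ : ∃ A : ℕ, 4 ≤ A ∧ C * (2 * (1 / (A : ℝ))) ^ (3 / 4 : ℝ) ≤ ε / 2 := by
    have h1 : Filter.Tendsto (fun A : ℕ => C * (2 * (1 / (A : ℝ))) ^ (3 / 4 : ℝ)) Filter.atTop (nhds 0) := by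
      have h2 : Filter.Tendsto (fun A : ℕ => (2 * (1 / (A : ℝ)))) Filter.atTop (nhds 0) := by
        have := (tendsto_one_div_atTop_nhds_zero_nat (𝕜 := ℝ)).const_mul 2
        rwa [mul_zero] at this
      have h3 := (h2.rpow_const (Or.inr (by norm_num : (0 : ℝ) ≤ 3 / 4))).const_mul C
      rwa [Real.zero_rpow (by norm_num), mul_zero] at h3
    obtain ⟨A, h2, h3⟩ := ((h1.eventually_lt_const (by positivity : 0 < ε / 2)).and
      (Filter.eventually_ge_atTop 4)).exists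
    exact ⟨A, h3, h2.le⟩
  have hA0 : (0 : ℝ) < A := by positivity
  refine ⟨η / A, A, by positivity, by omega, fun m hm e he hem Φ hΦ => ?_⟩
  have hm1 : 1 ≤ m := by omega
  refine (fb_shift hm1 e Φ hΦ).trans (add_le_add le_rfl ?_)
  set s := m / A with hs
  have hs1 : 1 ≤ s := (Nat.one_le_div_iff (by omega)).2 hm
  have hsA : s * A ≤ m := Nat.div_mul_le_self m A
  have hlt : m < (s + 1) * A := by
    have h1 := Nat.div_add_mod m A
    have h2 := Nat.mod_lt m (by omega : 0 < A)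
    rw [← hs] at h1
    have h3 : (s + 1) * A = A * s + A := by ring
    omega
  -- each height
  have h1 : ∀ h ∈ range m, (∑' x : ℤ, (gf (RP.EndB h (x + e)) - gf (RP.EndB h x))) * gf (IG (m - h)) ≤
      ENNReal.ofReal ((if h ≤ s then uu h * KK' (m - h) else 0) + ε / 2 * (uu h * KK' (m - h))) := by
    intro h hh
    rw [gf_IG]
    have hu := (uu_pos h).le
    have hK := KK_nonneg (m - h)
    by_cases hc : h ≤ s
    · rw [if_pos hc]
      calc _ ≤ ENNReal.ofReal (uu h) * ENNReal.ofReal (KK' (m - h)) := mul_le_mul_left (dist_le_uu h e) _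
        _ = ENNReal.ofReal (uu h * KK' (m - h)) := (ENNReal.ofReal_mul hu).symm
        _ ≤ _ := ENNReal.ofReal_le_ofReal (le_add_of_nonneg_right (by positivity))
    · rw [if_neg hc, zero_add]
      have h2 : ((|e| : ℤ) : ℝ) ≤ η * h := by
        refine hem.trans ?_
        have h3 : m ≤ h * A := by nlinarith
        have h4 : (m : ℝ) ≤ h * A := by exact_mod_cast h3
        calc η / A * m ≤ η / A * (h * A) := mul_le_mul_of_nonneg_left h4 (by positivity)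
          _ = η * h := by field_simp
      have h5 := dist_le_ker (hker h (by omega) e he h2)
      calc _ ≤ ENNReal.ofReal (ε / 2 * uu h) * ENNReal.ofReal (KK' (m - h)) := mul_le_mul_left h5 _
        _ = ENNReal.ofReal (ε / 2 * (uu h * KK' (m - h))) := by
            rw [← ENNReal.ofReal_mul (by positivity), mul_assoc]
  have h2 : ∑ h ∈ range m, ((if h ≤ s then uu h * KK' (m - h) else 0) + ε / 2 * (uu h * KK' (m - h))) ≤ ε := by
    rw [Finset.sum_add_distrib, ← Finset.mul_sum]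
    obtain ⟨N, rfl⟩ : ∃ N, m = N + 1 := ⟨m - 1, by omega⟩
    rw [KK_renewal, mul_one]
    have h3 : ∑ h ∈ range (N + 1), (if h ≤ s then uu h * KK' (N + 1 - h) else 0) =
        ∑ h ∈ range (s + 1), uu h * KK' (N + 1 - h) := by
      rw [← Finset.sum_filter]
      congr 1
      ext h
      rw [mem_filter, mem_range, mem_range]
      constructor
      · rintro ⟨_, h4⟩
        omega
      · intro h4
        refine ⟨?_, by omega⟩
        have : s * 4 ≤ s * A := Nat.mul_le_mul_left _ hA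
        omega
    rw [h3]
    have h4 : s ≤ N := by
      have : s * 4 ≤ s * A := Nat.mul_le_mul_left _ hA
      omega
    have h5 : s * A ≤ 2 * (N - s) := by
      have : s * 4 ≤ s * A := Nat.mul_le_mul_left _ hA
      omega
    have h6 : 1 ≤ N - s := by
      have : s * 4 ≤ s * A := Nat.mul_le_mul_left _ hA
      omega
    have h7 : UU s / UU (N - s) ≤ ε / 2 := by
      refine (hr s (N - s) hs1 h6).trans (le_trans ?_ hA2)
      have h8 : (0 : ℝ) < (N - s : ℕ) := by exact_mod_cast h6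
      have h9 : (s : ℝ) / (N - s : ℕ) ≤ 2 * (1 / (A : ℝ)) := by
        rw [div_le_iff₀ h8]
        have h10 : (s : ℝ) * A ≤ 2 * (N - s : ℕ) := by exact_mod_cast h5
        rw [mul_one_div, div_mul_eq_mul_div, le_div_iff₀ hA0]
        exact h10
      exact mul_le_mul_of_nonneg_left (Real.rpow_le_rpow (by positivity) h9 (by norm_num)) hC.le
    have h8 := no_cut h4
    linarith
  calc _ ≤ ∑ h ∈ range m,
        ENNReal.ofReal ((if h ≤ s then uu h * KK' (m - h) else 0) + ε / 2 * (uu h * KK' (m - h))) :=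
        Finset.sum_le_sum h1
    _ = ENNReal.ofReal (∑ h ∈ range m,
        ((if h ≤ s then uu h * KK' (m - h) else 0) + ε / 2 * (uu h * KK' (m - h)))) := by
        rw [ENNReal.ofReal_sum_of_nonneg]
        intro h _
        have hu := (uu_pos h).le
        have hK := KK_nonneg (m - h)
        split_ifs <;> positivity
    _ ≤ ENNReal.ofReal ε := ENNReal.ofReal_le_ofReal h2

end FP

end ROT

end HexObs
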