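import Pool.Agent.ROT.F3Ex
import Pool.Agent.ROT.F3FP
import Pool.Agent.NTS.Dict

/-!
# ROT / F3Brd (helper69): the blocks between real cuts in the frame `W3`

`wl t` = the word of the turning word `t` (first step up); `ps (wl t) k` = `lev t k / 2 - i (√3 / 2) lat t k`; `rt i w` = the word
rotated to the axis `i` (`ax i = step 0 i`, `ps (rt i w) k = ax i * ps w k`); `lvi i w k` = level of the vertex number `k`.

* `wl_append`, `wl_inj`, `SW_wl`, `wx_wl` : concatenation at cuts, injectivity, self-avoiding, the same weight;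
* `BrW h`, `Bri i h` : the bridges of height `h` (predicates of the positions); **`mem_BrW`, `mem_Bri`** : `= rt i '' (wl '' Brd h)`;
* `cutW_iff`, `cuti_iff` : cuts in terms of the levels of the vertices;
* `FbW m`, `Fbi i m` : the blocks which end at their first cut at height `m` or more; **`mem_FbW`, `mem_Fbi`** : `= rt i (wl '' FB m)`;
* `sum_wl`, `sum_BrW`, `sum_Bri`, **`sum_FbW`, `sum_Fbi`, `mass_Fbi`** : the sums; `fbw_smooth`, `fbw_tail`;
* `CV i w k` : cut of a whole word; **`gate_iff`** : the block between two successive gates (the first cut over the last gate at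
  distance `3 m / 2` or more) is exactly an element of `Fbi i m`.
-/

set_option autoImplicit false

namespace Pool.Agent.ROT.F3

open Finset
open Pool.Agent.NTS.Res (step pos saw fug)
open HexObs (oo up vx dx lev lat latE Brd BT Cut wE gf tf)
open HexObs.ROT.FP (FB)
open NTF (JJ sw)
open scoped ENNReal Classical

/-! ### the word of a turning word -/

/-- the word of a turning word (first step up) -/
def wl (t : List Bool) : W3 := List.ofFn (sw t.length t)

@[simp] lemma wl_length (t : List Bool) : (wl t).length = t.length := List.length_ofFn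

@[simp] lemma wl_nil : wl [] = [] := rfl

lemma ps_wl (t : List Bool) {k : ℕ} (hk : k ≤ t.length) : ps (wl t) k = JJ (vx oo up t k) := by
  unfold wl
  rw [ps_ofFn, NTSF.pos_sw _ _ _ hk]

lemma re_wl (t : List Bool) {k : ℕ} (hk : k ≤ t.length) : (ps (wl t) k).re = (lev t k : ℝ) / 2 := by
  rw [ps_wl t hk, NTF.JJ_lvl]
  rfl

lemma im_wl (t : List Bool) {k : ℕ} (hk : k ≤ t.length) : (ps (wl t) k).im = -(Real.sqrt 3 / 2 * lat t k) := by
  rw [ps_wl t hk, NTF.JJ_im]
  congr 3
  unfold HexObs.lat HexObs.cross HexObs.up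
  simp

lemma en_wl (t : List Bool) : en (wl t) = JJ (vx oo up t t.length) := by
  unfold en
  rw [wl_length, ps_wl t le_rfl]

lemma en_wl_re (t : List Bool) : (en (wl t)).re = (lev t t.length : ℝ) / 2 := by
  unfold en
  rw [wl_length, re_wl t le_rfl]

lemma en_wl_im (t : List Bool) : (en (wl t)).im = -(Real.sqrt 3 / 2 * latE t) := by
  unfold en HexObs.latE
  rw [wl_length, im_wl t le_rfl]

lemma fug_xc : fug = HexObs.xc := by
  unfold fug HexObs.xc
  rw [Real.cos_pi_div_eight, one_div]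
  congr 1
  ring

lemma wx_wl (t : List Bool) : wx (wl t) = wE t := by
  unfold wx HexObs.wE
  rw [wl_length, fug_xc, ENNReal.ofReal_pow HexObs.xc_pos.le]

lemma wl_get (t : List Bool) {i : ℕ} (h : i < (wl t).length) : (wl t)[i] = NTF.aa (dx up t i) := by
  unfold wl
  rw [List.getElem_ofFn]
  rfl

/-- concatenation at a cut -/
lemma wl_append {s t : List Bool} (hs : dx up s s.length = up) : wl (s ++ t) = wl s ++ wl t := by
  apply List.ext_getElem
  · simp
  · intro i h1 h2
    rw [wl_get]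
    rcases lt_or_ge i s.length with h | h
    · rw [List.getElem_append_left (by rw [wl_length]; exact h), wl_get, HexObs.dx_append h.le]
    · rw [List.getElem_append_right (by rw [wl_length]; exact h), wl_get]
      congr 1
      rw [wl_length]
      have h3 := HexObs.dx_cat (t := t) hs (i - s.length)
      rwa [show s.length + (i - s.length) = i by omega] at h3

/-- the word determines the turning word, if the last direction is up -/
lemma wl_inj {s t : List Bool} (hs : dx up s s.length = up) (ht : dx up t t.length = up) (he : wl s = wl t) : s = t := by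
  have hl : s.length = t.length := by rw [← wl_length s, he, wl_length]
  rcases Nat.eq_zero_or_pos s.length with h0 | h0
  · have a1 : s = [] := List.length_eq_zero_iff.1 h0
    have a2 : t = [] := List.length_eq_zero_iff.1 (by rw [← hl, h0])
    rw [a1, a2]
  have e0 : ∀ i, i < s.length → dx up s i = dx up t i := by
    intro i hi
    have h1 : (wl s)[i]'(by rw [wl_length]; exact hi) = (wl t)[i]'(by rw [wl_length, ← hl]; exact hi) := by
      simp only [he]
    rw [wl_get, wl_get] at h1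
    rw [← NTSF.step_sw' s.length s i hi, ← NTSF.step_sw' s.length t i hi]
    show NTF.de i (NTF.aa (dx up s i)) = NTF.de i (NTF.aa (dx up t i))
    rw [h1]
  have hturn : ∀ d ∈ HexObs.dirs, ∀ b b' : Bool, HexObs.turn b d = HexObs.turn b' d → b = b' := by decide
  have e1 : ∀ i, i ≤ s.length → dx up s i = dx up t i := by
    intro i hi
    rcases Nat.lt_or_eq_of_le hi with h | h
    · exact e0 i h
    · rw [h, hs, hl, ht]
  apply List.ext_getElem hl
  intro i h5 h6
  have a1 := e1 (i + 1) h5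
  rw [HexObs.dx_succ, HexObs.dx_succ, e1 i (by omega)] at a1
  have a2 := hturn _ (HexObs.dx_mem HexObs.upd t i) _ _ a1
  have b1 : tf s i = s[i] := by
    unfold HexObs.tf
    rw [List.getD_eq_getElem _ _ h5]
  have b2 : tf t i = t[i] := by
    unfold HexObs.tf
    rw [List.getD_eq_getElem _ _ h6]
  rw [← b1, ← b2, a2]

lemma SW_wl {t : List Bool} : SW (wl t) ↔ ∀ i k, i < k → k ≤ t.length → vx oo up t i ≠ vx oo up t k := by
  unfold SW
  simp only [wl_length]
  constructor
  · intro h i k hik hk he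
    have := h i k (by omega) hk (by rw [ps_wl t (by omega), ps_wl t hk, he])
    omega
  · intro h j k hj hk he
    rw [ps_wl t hj, ps_wl t hk] at he
    have he := NTF.JJ_inj he
    rcases lt_trichotomy j k with h5 | h5 | h5
    · exact absurd he (h j k h5 hk)
    · exact h5
    · exact absurd he.symm (h k j h5 hj)

/-! ### bridges -/

/-- the bridges of height `h` in the direction `e_0 = 1` -/
def BrW (h : ℕ) : Set W3 := {w | Even w.length ∧ SW w ∧
  (∀ k : ℕ, 1 ≤ k → k ≤ w.length → 0 < (ps w k).re ∧ (ps w k).re ≤ 3 * h / 2) ∧ (en w).re = 3 * h / 2}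

lemma even_of_Brd {h : ℕ} {t : List Bool} (ht : t ∈ Brd h) : Even t.length :=
  NTF.even_of_mem ⟨⟨h, ht⟩, rfl⟩

lemma wl_mem {h : ℕ} {t : List Bool} (ht : t ∈ Brd h) : wl t ∈ BrW h := by
  have h0 := even_of_Brd ht
  obtain ⟨h1, h2, h3, h4⟩ := HexObs.mem_Brd.1 ht
  refine ⟨by rw [wl_length]; exact h0, SW_wl.2 h2, ?_, ?_⟩
  · intro k hk1 hk
    rw [wl_length] at hk
    rw [re_wl t hk]
    obtain ⟨h5, h6⟩ := h1 k hk1 hk
    have h7 : (0 : ℝ) < lev t k := by exact_mod_cast h5
    have h8 : (lev t k : ℝ) ≤ 3 * h := by exact_mod_cast h6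
    constructor <;> linarith
  · rw [en_wl_re, h4]
    push_cast
    ring

/-- **the bridges are the words of the turning words of `Brd h`** -/
theorem mem_BrW {h : ℕ} {w : W3} : w ∈ BrW h ↔ ∃ t ∈ Brd h, wl t = w := by
  constructor
  · rintro ⟨h0, h1, h2, h3⟩
    obtain ⟨s, hs⟩ : ∃ s : Fin w.length → Fin 3, List.ofFn s = w := ⟨w.get, List.ofFn_get w⟩
    have hp : ∀ k, ps w k = pos s k := fun k => by
      conv_lhs => rw [← hs]
      exact ps_ofFn s k
    have hb : s ∈ Pool.Agent.NT.ResNat.bridges w.length := by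
      rw [NTF.mem_bridges]
      refine ⟨fun j k hj hk he => h1 j k hj hk (by rw [hp, hp]; exact he), fun k hk1 hk => ?_⟩
      have h4 := h2 k hk1 hk
      rw [show 3 * (h : ℝ) / 2 = (ps w w.length).re from h3.symm, hp, hp] at h4
      exact h4
    obtain ⟨t, ⟨⟨q, ht⟩, hl⟩, e⟩ := NTF.sw_surj h0 hb
    have hw : wl t = w := by
      rw [← hs]
      unfold wl
      rw [hl, e]
    have h4 : (lev t t.length : ℝ) = 3 * h := by
      have := en_wl_re t
      rw [hw, h3] at this
      linarith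
    rw [(HexObs.mem_Brd.1 ht).2.2.2] at h4
    have h5 : q = h := by
      have : (3 : ℝ) * q = 3 * h := by exact_mod_cast h4
      have : (q : ℝ) = h := by linarith
      exact_mod_cast this
    exact ⟨t, h5 ▸ ht, hw⟩
  · rintro ⟨t, ht, rfl⟩
    exact wl_mem ht

lemma BrW_image (h : ℕ) : BrW h = wl '' Brd h := Set.ext fun _ => mem_BrW

lemma up_of_Brd {h : ℕ} {t : List Bool} (ht : t ∈ Brd h) : dx up t t.length = up := (HexObs.mem_Brd.1 ht).2.2.1

/-! ### cuts -/

/-- a cut at the height `c` -/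
def CutW (w : W3) (c : ℕ) : Prop := ∃ a b : W3, ∃ T : ℕ, a ∈ BrW c ∧ b ∈ BrW T ∧ w = a ++ b

lemma cutW_wl {h : ℕ} {t : List Bool} (ht : t ∈ Brd h) (c : ℕ) : CutW (wl t) c ↔ Cut t c := by
  constructor
  · rintro ⟨a, b, T, ha, hb, he⟩
    obtain ⟨a', ha', rfl⟩ := mem_BrW.1 ha
    obtain ⟨b', hb', rfl⟩ := mem_BrW.1 hb
    rw [← wl_append (up_of_Brd ha')] at he
    exact ⟨a', b', T, ha', hb', wl_inj (up_of_Brd ht) (up_of_Brd (HexObs.Brd_append ha' hb')) he⟩
  · rintro ⟨a', b', T, ha', hb', rfl⟩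
    exact ⟨wl a', wl b', T, wl_mem ha', wl_mem hb', wl_append (up_of_Brd ha')⟩

/-- cuts in terms of the position function -/
theorem cutW_iff {h c : ℕ} {w : W3} (hw : w ∈ BrW h) : CutW w c ↔ ∃ k : ℕ, k ≤ w.length ∧ Even k ∧ (ps w k).re = 3 * c / 2 ∧
    (∀ j : ℕ, j ≤ k → (ps w j).re ≤ 3 * c / 2) ∧ ∀ j : ℕ, k < j → j ≤ w.length → 3 * c / 2 < (ps w j).re := by
  obtain ⟨w1, w2, w3, w4⟩ := hw
  constructor
  · rintro ⟨a, b, T, ⟨a1, a2, a3, a4⟩, ⟨b1, b2, b3, b4⟩, rfl⟩
    refine ⟨a.length, by rw [List.length_append]; omega, a1, ?_, fun j hj => ?_, fun j hj hj2 => ?_⟩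
    · rw [ps_append_left le_rfl]
      exact a4
    · rw [ps_append_left hj]
      rcases Nat.eq_zero_or_pos j with h0 | h0
      · rw [h0, ps_zero, Complex.zero_re]
        positivity
      · exact (a3 j h0 hj).2
    · rw [List.length_append] at hj2
      rw [ps_append_right' a1 hj.le, Complex.add_re, a4]
      have := (b3 (j - a.length) (by omega) (by omega)).1
      linarith
  · rintro ⟨k, hk, he, h1, h2, h3⟩
    have hwl : (en w).re = 3 * h / 2 := w4
    have hch : c ≤ h := by
      have h4 : (3 * c / 2 : ℝ) ≤ 3 * h / 2 := by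
        rw [← h1]
        rcases Nat.eq_zero_or_pos k with h0 | h0
        · rw [h0, ps_zero, Complex.zero_re]
          positivity
        · exact (w3 k h0 hk).2
      have : (c : ℝ) ≤ h := by linarith
      exact_mod_cast this
    have hl : (w.take k).length = k := by rw [List.length_take]; omega
    have hl2 : (w.drop k).length = w.length - k := List.length_drop
    have hsw := (SW_append (u := w.take k) (v := w.drop k) (by rw [hl]; exact he)).1 (by rw [List.take_append_drop]; exact w2)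
    refine ⟨w.take k, w.drop k, h - c, ⟨by rw [hl]; exact he, hsw.1, fun j hj1 hj2 => ?_, ?_⟩,
      ⟨by rw [hl2]; exact (Nat.even_sub hk).2 (by simp [w1, he]), hsw.2.1, fun j hj1 hj2 => ?_, ?_⟩, (List.take_append_drop k w).symm⟩
    · rw [hl] at hj2
      rw [ps_take w hj2 hk]
      exact ⟨(w3 j hj1 (by omega)).1, h2 j hj2⟩
    · rw [en_take w hk, h1]
    · rw [hl2] at hj2
      rw [ps_append_drop w hk he, Complex.sub_re, h1, Nat.cast_sub hch]
      have h4 := h3 (k + j) (by omega) (by omega)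
      have h5 := (w3 (k + j) (by omega) (by omega)).2
      constructor
      · linarith
      · linarith
    · have h6 : en (w.drop k) = en w - ps w k := by
        have h7 := en_append (u := w.take k) (v := w.drop k) (by rw [hl]; exact he)
        rw [List.take_append_drop, en_take w hk] at h7
        rw [h7]
        ring
      rw [h6, Complex.sub_re, hwl, h1, Nat.cast_sub hch]
      ring

/-! ### the blocks which end at their first cut at height `m` or more -/

/-- the blocks -/
def FbW (m : ℕ) : Set W3 := {w | ∃ T : ℕ, m ≤ T ∧ w ∈ BrW T ∧ ∀ c : ℕ, m ≤ c → c < T → ¬ CutW w c}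

/-- **the blocks are the words of the turning words of `FB m`** -/
theorem mem_FbW {m : ℕ} {w : W3} : w ∈ FbW m ↔ ∃ t ∈ FB m, wl t = w := by
  constructor
  · rintro ⟨T, h1, h2, h3⟩
    obtain ⟨t, ht, rfl⟩ := mem_BrW.1 h2
    exact ⟨t, ⟨T, ht, h1, fun c hc hcT => (cutW_wl ht c).not.1 (h3 c hc hcT)⟩, rfl⟩
  · rintro ⟨t, ⟨T, ht, h1, h3⟩, rfl⟩
    exact ⟨T, h1, wl_mem ht, fun c hc hcT => (cutW_wl ht c).not.2 (h3 c hc hcT)⟩

lemma FbW_image (m : ℕ) : FbW m = wl '' FB m := Set.ext fun _ => mem_FbW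

lemma up_of_FB {m : ℕ} {t : List Bool} (ht : t ∈ FB m) : dx up t t.length = up := by
  obtain ⟨T, ht, -⟩ := ht
  exact up_of_Brd ht

/-! ### sums -/

/-- the sum over the words of a set of turning words whose last direction is up -/
theorem sum_wl {M : Type*} [AddCommMonoid M] [TopologicalSpace M] {S : Set (List Bool)} (hS : ∀ t ∈ S, dx up t t.length = up)
    (f : W3 → M) : ∑' w : (wl '' S), f w = ∑' t : S, f (wl t) := by
  have hi : Set.InjOn wl S := fun s hs t ht he => wl_inj (hS s hs) (hS t ht) he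
  exact ((Equiv.Set.imageOfInjOn wl S hi).tsum_eq fun w : (wl '' S) => f w).symm

lemma tsum_ind (A : Set W3) (f : W3 → ℝ≥0∞) : (∑' w : W3, if w ∈ A then f w else 0) = ∑' w : A, f w := by
  rw [_root_.tsum_subtype A f]
  exact tsum_congr fun w => by rw [Set.indicator_apply]

/-- **the sum over the bridges of height `h`** -/
theorem sum_BrW (h : ℕ) (F : W3 → ℝ≥0∞) : ∑' w : BrW h, wx w * F w = ∑' t : Brd h, wE t.1 * F (wl t) := by
  rw [BrW_image]
  exact (sum_wl (fun t ht => up_of_Brd ht) fun w => wx w * F w).trans (tsum_congr fun t => by rw [wx_wl])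

/-- **the sum over the blocks** -/
theorem sum_FbW (m : ℕ) (F : W3 → ℝ≥0∞) : ∑' w : FbW m, wx w * F w = ∑' t : FB m, wE t.1 * F (wl t) := by
  rw [FbW_image]
  exact (sum_wl (fun t ht => up_of_FB ht) fun w => wx w * F w).trans (tsum_congr fun t => by rw [wx_wl])

/-- the mass of the bridges -/
theorem mass_BrW (h : ℕ) : ∑' w : BrW h, wx w = BT h := by
  have h1 := sum_BrW h fun _ => 1
  simp only [mul_one] at h1
  rw [h1, ← HexObs.gf_Brd]
  rfl

/-- the mass of the blocks -/
theorem mass_FbW {m : ℕ} (hm : 1 ≤ m) : ∑' w : FbW m, wx w = 1 := by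
  have h1 := sum_FbW m fun _ => 1
  simp only [mul_one] at h1
  rw [h1, ← HexObs.ROT.FP.fb_mass hm]
  rfl

/-- the end of a block in terms of level and lateral position -/
lemma en_wl_eq (t : List Bool) : en (wl t) = ⟨(lev t t.length : ℝ) / 2, -(Real.sqrt 3 / 2 * latE t)⟩ :=
  Complex.ext (en_wl_re t) (en_wl_im t)

/-- **smoothness**: the law of the end of a block is almost invariant under the shifts by `i √3 e` -/
theorem fbw_smooth {ε : ℝ} (hε : 0 < ε) : ∃ (η : ℝ) (m0 : ℕ), 0 < η ∧ 1 ≤ m0 ∧ ∀ m : ℕ, m0 ≤ m → ∀ e : ℤ,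
    ((|e| : ℤ) : ℝ) ≤ η * m → ∀ Φ : ℂ → ℝ≥0∞, (∀ z, Φ z ≤ 1) →
      ∑' w : FbW m, wx w * Φ (en w + ⟨0, Real.sqrt 3 * e⟩) ≤ ∑' w : FbW m, wx w * Φ (en w) + ENNReal.ofReal ε := by
  obtain ⟨η, m0, hη, hm0, h⟩ := HexObs.ROT.FP.fb_smooth hε
  refine ⟨η / 2, m0, by positivity, hm0, fun m hm e he Φ hΦ => ?_⟩
  have h1 := h m hm (2 * e) (even_two_mul e) (by
    rw [abs_mul]
    push_cast
    rw [abs_two]
    have h2 : |(e : ℝ)| ≤ η / 2 * m := by exact_mod_cast he
    linarith) (fun l x => Φ ⟨(l : ℝ) / 2, -(Real.sqrt 3 / 2 * x)⟩) fun l x => hΦ _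
  rw [sum_FbW m fun w => Φ (en w + ⟨0, Real.sqrt 3 * e⟩), sum_FbW m fun w => Φ (en w)]
  refine le_trans (le_of_eq (tsum_congr fun t => ?_)) (h1.trans (le_of_eq ?_))
  · rw [en_wl_eq]
    congr 2
    apply Complex.ext
    · rw [Complex.add_re, add_zero]
    · rw [Complex.add_im]
      push_cast
      ring
  · congr 1
    exact tsum_congr fun t => by rw [en_wl_eq]

/-- **tails**: all vertices of a block are in the ball of radius `R m` around its start, up to the mass `ε` -/
theorem fbw_tail {ε : ℝ} (hε : 0 < ε) : ∃ R : ℕ, 1 ≤ R ∧ ∀ m : ℕ, 1 ≤ m →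
    ∑' w : FbW m, (if ∃ k : ℕ, k ≤ (w : W3).length ∧ (R : ℝ) * m < ‖ps w k‖ then wx w else 0) ≤ ENNReal.ofReal ε := by
  obtain ⟨R, hR⟩ := HexObs.ROT.FP.fb_tail hε
  refine ⟨3 * R + 1, by omega, fun m hm => ?_⟩
  have h1 := sum_FbW m fun w => if ∃ k : ℕ, k ≤ w.length ∧ ((3 * R + 1 : ℕ) : ℝ) * m < ‖ps w k‖ then 1 else 0
  have h2 : ∀ w : W3, wx w * (if ∃ k : ℕ, k ≤ w.length ∧ ((3 * R + 1 : ℕ) : ℝ) * m < ‖ps w k‖ then (1 : ℝ≥0∞) else 0) =
      if ∃ k : ℕ, k ≤ w.length ∧ ((3 * R + 1 : ℕ) : ℝ) * m < ‖ps w k‖ then wx w else 0 := fun w => by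
    split_ifs
    · rw [mul_one]
    · rw [mul_zero]
  simp only [h2] at h1
  rw [h1]
  refine le_trans ?_ (hR m hm)
  unfold HexObs.gf
  rw [_root_.tsum_subtype (FB m) fun t => wE t * (if ∃ k : ℕ, k ≤ (wl t).length ∧ ((3 * R + 1 : ℕ) : ℝ) * m < ‖ps (wl t) k‖ then 1 else 0),
    _root_.tsum_subtype _ wE]
  refine ENNReal.tsum_le_tsum fun t => ?_
  by_cases ht : t ∈ FB m
  · rw [Set.indicator_of_mem ht]
    split_ifs with hk
    · rw [mul_one, Set.indicator_of_mem]
      refine ⟨ht, ?_⟩
      by_contra hcon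
      rw [not_or] at hcon
      obtain ⟨h3, h4⟩ := hcon
      obtain ⟨T, hT, -⟩ := ht
      have h5 : T ≤ R * m := by
        by_contra h6
        exact h3 ⟨T, by omega, hT⟩
      obtain ⟨k, hk1, hk2⟩ := hk
      rw [wl_length] at hk1
      have h6 : |(ps (wl t) k).re| ≤ 3 / 2 * (R * m) := by
        rw [re_wl t hk1]
        have h7 : (0 : ℤ) ≤ lev t k ∧ lev t k ≤ 3 * T := by
          rcases Nat.eq_zero_or_pos k with h0 | h0
          · rw [h0, HexObs.lev_zero]
            constructor <;> omega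
          · have := (HexObs.mem_Brd.1 hT).1 k h0 hk1
            exact ⟨this.1.le, this.2⟩
        have h8 : (0 : ℝ) ≤ lev t k := by exact_mod_cast h7.1
        have h9 : (lev t k : ℝ) ≤ 3 * T := by exact_mod_cast h7.2
        have h10 : (T : ℝ) ≤ R * m := by exact_mod_cast h5
        rw [abs_of_nonneg (by linarith)]
        linarith
      have h7 : |(ps (wl t) k).im| ≤ R * m := by
        have h8 : ¬ ((R * m : ℤ) < |lat t k|) := fun h8 => h4 ⟨k, hk1, h8⟩
        have h9 : |lat t k| ≤ R * m := not_lt.1 h8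
        have h10 : |(lat t k : ℝ)| ≤ R * m := by exact_mod_cast h9
        rw [im_wl t hk1, abs_neg, abs_mul, abs_of_nonneg (by positivity)]
        have h11 : Real.sqrt 3 ≤ 2 := Real.sqrt_le_iff.2 ⟨by norm_num, by norm_num⟩
        have h12 := abs_nonneg (lat t k : ℝ)
        nlinarith
      have h8 := Complex.norm_le_abs_re_add_abs_im (ps (wl t) k)
      push_cast at hk2
      have h9 : (0 : ℝ) ≤ R * m := by positivity
      have h10 : (0 : ℝ) ≤ m := by positivity
      nlinarith
    · rw [mul_zero]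
      exact zero_le
  · rw [Set.indicator_of_notMem ht]
    exact zero_le

/-! ### the other axes -/

/-- the rotation of the words: every letter `a` becomes `a + i` (`= mp (rS i)` of F3Sym) -/
def rt (i : Fin 3) (w : W3) : W3 := w.map (· + i)

/-- the direction of the axis `i` -/
noncomputable def ax (i : Fin 3) : ℂ := step 0 i

lemma ax_zero : ax 0 = 1 := by
  unfold ax step
  simp

lemma ax_succ (i : Fin 3) : ax (i + 1) = NTSF.om * ax i := NTSF.step_rot 0 i

lemma norm_step (k : ℕ) (a : Fin 3) : ‖step k a‖ = 1 := by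
  unfold step
  rw [norm_mul, norm_pow, norm_neg, norm_one, one_pow, one_mul,
    show 2 * (Real.pi : ℂ) * Complex.I * ((a : ℕ) : ℂ) / 3 = ((2 * Real.pi * (a : ℕ) / 3 : ℝ) : ℂ) * Complex.I by
      push_cast
      ring]
  exact Complex.norm_exp_ofReal_mul_I _

lemma norm_ax (i : Fin 3) : ‖ax i‖ = 1 := norm_step 0 i

lemma ax_ne (i : Fin 3) : ax i ≠ 0 := fun h => by
  have := norm_ax i
  rw [h, norm_zero] at this
  exact zero_ne_one this

lemma ax_conj (i : Fin 3) : ax i * (starRingEnd ℂ) (ax i) = 1 := by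
  rw [Complex.mul_conj, Complex.normSq_eq_norm_sq, norm_ax]
  norm_num

lemma conj_ax (i : Fin 3) : (starRingEnd ℂ) (ax i) * ax i = 1 := by
  rw [mul_comm, ax_conj]

lemma step_add_ax (k : ℕ) (a i : Fin 3) : step k (a + i) = ax i * step k a := by
  have h1 := NTSF.step_rot k a
  have h2 := NTSF.step_rot k (a + 1)
  have e1 : ax 1 = NTSF.om := by
    have := ax_succ 0
    rwa [zero_add, ax_zero, mul_one] at this
  have e2 : ax 2 = NTSF.om * NTSF.om := by
    have := ax_succ 1
    rwa [e1] at this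
  fin_cases i
  · show step k (a + 0) = ax 0 * step k a
    rw [ax_zero, one_mul, add_zero]
  · show step k (a + 1) = ax 1 * step k a
    rw [h1, e1]
  · show step k (a + 2) = ax 2 * step k a
    rw [show a + 2 = a + 1 + 1 by rw [add_assoc]; rfl, h2, h1, e2, mul_assoc]

@[simp] lemma rt_length (i : Fin 3) (w : W3) : (rt i w).length = w.length := List.length_map _

@[simp] lemma rt_nil (i : Fin 3) : rt i [] = [] := rfl

lemma rt_append (i : Fin 3) (u v : W3) : rt i (u ++ v) = rt i u ++ rt i v := List.map_append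

lemma rt_zero (w : W3) : rt 0 w = w := by
  unfold rt
  simp

lemma rt_rt (i j : Fin 3) (w : W3) : rt i (rt j w) = rt (j + i) w := by
  unfold rt
  rw [List.map_map]
  congr 1
  funext a
  exact add_assoc a j i

lemma rt_neg_rt (i : Fin 3) (w : W3) : rt (-i) (rt i w) = w := by
  rw [rt_rt, add_neg_cancel, rt_zero]

lemma rt_rt_neg (i : Fin 3) (w : W3) : rt i (rt (-i) w) = w := by
  rw [rt_rt, neg_add_cancel, rt_zero]

lemma rt_inj {i : Fin 3} {u v : W3} (h : rt i u = rt i v) : u = v := by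
  rw [← rt_neg_rt i u, h, rt_neg_rt]

lemma wx_rt (i : Fin 3) (w : W3) : wx (rt i w) = wx w := by
  unfold wx
  rw [rt_length]

lemma st_rt (i : Fin 3) (w : W3) (k : ℕ) : st (rt i w) k = ax i * st w k := by
  by_cases h : k < w.length
  · rw [st_of_lt h, st_of_lt (by rw [rt_length]; exact h), ← step_add_ax]
    congr 1
    simp [rt]
  · rw [st_of_le (w := w) (by omega), st_of_le (w := rt i w) (by rw [rt_length]; omega), mul_zero]

lemma ps_rt (i : Fin 3) (w : W3) (k : ℕ) : ps (rt i w) k = ax i * ps w k := by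
  unfold ps
  rw [mul_sum]
  exact sum_congr rfl fun j _ => st_rt i w j

lemma en_rt (i : Fin 3) (w : W3) : en (rt i w) = ax i * en w := by
  rw [en, rt_length, ps_rt, ← en]

lemma SW_rt {i : Fin 3} {w : W3} : SW (rt i w) ↔ SW w := by
  unfold SW
  simp only [rt_length, ps_rt, mul_right_inj' (ax_ne i)]

/-- the rotation as a bijection of the words -/
def rtE (i : Fin 3) : W3 ≃ W3 := ⟨rt i, rt (-i), rt_neg_rt i, rt_rt_neg i⟩

/-- the level of the vertex number `k` in the direction of the axis `i` -/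
noncomputable def lvi (i : Fin 3) (w : W3) (k : ℕ) : ℝ := ((starRingEnd ℂ) (ax i) * ps w k).re

lemma lvi_zero (w : W3) (k : ℕ) : lvi 0 w k = (ps w k).re := by
  unfold lvi
  rw [ax_zero, map_one, one_mul]

lemma lvi_rt (i : Fin 3) (w : W3) (k : ℕ) : lvi i (rt i w) k = (ps w k).re := by
  unfold lvi
  rw [ps_rt, ← mul_assoc, conj_ax, one_mul]

/-- the bridges of height `h` in the direction of the axis `i` -/
def Bri (i : Fin 3) (h : ℕ) : Set W3 := {w | Even w.length ∧ SW w ∧
  (∀ k : ℕ, 1 ≤ k → k ≤ w.length → 0 < lvi i w k ∧ lvi i w k ≤ 3 * h / 2) ∧ lvi i w w.length = 3 * h / 2}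

lemma rt_mem_Bri {i : Fin 3} {h : ℕ} {w : W3} : rt i w ∈ Bri i h ↔ w ∈ BrW h := by
  unfold Bri BrW
  simp only [Set.mem_ofPred_eq, rt_length, SW_rt, lvi_rt, en]

/-- a cut at the height `c`, axis `i` -/
def Cuti (i : Fin 3) (w : W3) (c : ℕ) : Prop := ∃ a b : W3, ∃ T : ℕ, a ∈ Bri i c ∧ b ∈ Bri i T ∧ w = a ++ b

lemma cuti_rt {i : Fin 3} {w : W3} {c : ℕ} : Cuti i (rt i w) c ↔ CutW w c := by
  constructor
  · rintro ⟨a, b, T, ha, hb, he⟩
    refine ⟨rt (-i) a, rt (-i) b, T, rt_mem_Bri.1 (by rw [rt_rt_neg]; exact ha), rt_mem_Bri.1 (by rw [rt_rt_neg]; exact hb), ?_⟩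
    rw [← rt_append, ← he, rt_neg_rt]
  · rintro ⟨a, b, T, ha, hb, rfl⟩
    exact ⟨rt i a, rt i b, T, rt_mem_Bri.2 ha, rt_mem_Bri.2 hb, rt_append i a b⟩

/-- cuts in terms of the levels of the vertices -/
theorem cuti_iff {i : Fin 3} {h c : ℕ} {w : W3} (hw : w ∈ Bri i h) : Cuti i w c ↔ ∃ k : ℕ, k ≤ w.length ∧ Even k ∧
    lvi i w k = 3 * c / 2 ∧ (∀ j : ℕ, j ≤ k → lvi i w j ≤ 3 * c / 2) ∧ ∀ j : ℕ, k < j → j ≤ w.length → 3 * c / 2 < lvi i w j := by
  obtain ⟨v, rfl⟩ : ∃ v, rt i v = w := ⟨rt (-i) w, rt_rt_neg i w⟩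
  rw [cuti_rt, cutW_iff (rt_mem_Bri.1 hw)]
  simp only [rt_length, lvi_rt]

/-- the blocks of the axis `i`: they end at their first cut at height `m` or more -/
def Fbi (i : Fin 3) (m : ℕ) : Set W3 := {w | ∃ T : ℕ, m ≤ T ∧ w ∈ Bri i T ∧ ∀ c : ℕ, m ≤ c → c < T → ¬ Cuti i w c}

lemma rt_mem_Fbi {i : Fin 3} {m : ℕ} {w : W3} : rt i w ∈ Fbi i m ↔ w ∈ FbW m := by
  unfold Fbi FbW
  simp only [Set.mem_ofPred_eq, rt_mem_Bri, cuti_rt]

/-- **the bridges of the axis `i`** -/
theorem mem_Bri {i : Fin 3} {h : ℕ} {w : W3} : w ∈ Bri i h ↔ ∃ t ∈ Brd h, rt i (wl t) = w := by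
  obtain ⟨v, rfl⟩ : ∃ v, rt i v = w := ⟨rt (-i) w, rt_rt_neg i w⟩
  rw [rt_mem_Bri, mem_BrW]
  constructor
  · rintro ⟨t, ht, rfl⟩
    exact ⟨t, ht, rfl⟩
  · rintro ⟨t, ht, he⟩
    exact ⟨t, ht, rt_inj he⟩

/-- **the blocks of the axis `i`** -/
theorem mem_Fbi {i : Fin 3} {m : ℕ} {w : W3} : w ∈ Fbi i m ↔ ∃ t ∈ FB m, rt i (wl t) = w := by
  obtain ⟨v, rfl⟩ : ∃ v, rt i v = w := ⟨rt (-i) w, rt_rt_neg i w⟩
  rw [rt_mem_Fbi, mem_FbW]
  constructor
  · rintro ⟨t, ht, rfl⟩
    exact ⟨t, ht, rfl⟩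
  · rintro ⟨t, ht, he⟩
    exact ⟨t, ht, rt_inj he⟩

lemma rt_image {A B : Set W3} {i : Fin 3} (h : ∀ w, rt i w ∈ B ↔ w ∈ A) : B = rt i '' A := by
  ext w
  constructor
  · intro hw
    exact ⟨rt (-i) w, (h _).1 (by rw [rt_rt_neg]; exact hw), rt_rt_neg i w⟩
  · rintro ⟨v, hv, rfl⟩
    exact (h v).2 hv

lemma sum_rt {A B : Set W3} {i : Fin 3} (h : ∀ w, rt i w ∈ B ↔ w ∈ A) (f : W3 → ℝ≥0∞) :
    ∑' w : B, f w = ∑' w : A, f (rt i w) := by
  rw [rt_image h]
  exact ((Equiv.Set.imageOfInjOn (rt i) A fun u _ v _ he => rt_inj he).tsum_eq fun w : (rt i '' A) => f w).symm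

/-- **the sum over the bridges of height `h`, axis `i`** -/
theorem sum_Bri (i : Fin 3) (h : ℕ) (F : W3 → ℝ≥0∞) :
    ∑' w : Bri i h, wx w * F w = ∑' t : Brd h, wE t.1 * F (rt i (wl t)) := by
  rw [sum_rt (fun w => rt_mem_Bri) fun w => wx w * F w, ← sum_BrW h fun w => F (rt i w)]
  exact tsum_congr fun w => by rw [wx_rt]

/-- **the sum over the blocks of the axis `i`** -/
theorem sum_Fbi (i : Fin 3) (m : ℕ) (F : W3 → ℝ≥0∞) :
    ∑' w : Fbi i m, wx w * F w = ∑' t : FB m, wE t.1 * F (rt i (wl t)) := by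
  rw [sum_rt (fun w => rt_mem_Fbi) fun w => wx w * F w, ← sum_FbW m fun w => F (rt i w)]
  exact tsum_congr fun w => by rw [wx_rt]

/-- the end of a block -/
lemma en_rt_wl (i : Fin 3) (t : List Bool) :
    en (rt i (wl t)) = ax i * ⟨(lev t t.length : ℝ) / 2, -(Real.sqrt 3 / 2 * latE t)⟩ := by
  rw [en_rt, en_wl_eq]

/-- the mass of the blocks -/
theorem mass_Fbi (i : Fin 3) {m : ℕ} (hm : 1 ≤ m) : ∑' w : Fbi i m, wx w = 1 := by
  have h1 := sum_Fbi i m fun _ => 1
  simp only [mul_one] at h1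
  rw [h1, ← HexObs.ROT.FP.fb_mass hm]
  rfl

/-! ### gates -/

lemma lvi_append_left (i : Fin 3) {u v : W3} {k : ℕ} (h : k ≤ u.length) : lvi i (u ++ v) k = lvi i u k := by
  unfold lvi
  rw [ps_append_left h]

lemma lvi_append_right (i : Fin 3) {u v : W3} (hu : Even u.length) (k : ℕ) :
    lvi i (u ++ v) (u.length + k) = lvi i u u.length + lvi i v k := by
  unfold lvi
  rw [ps_append_right hu, mul_add, Complex.add_re]
  rfl

lemma lvi_start (i : Fin 3) (w : W3) : lvi i w 0 = 0 := by
  unfold lvi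
  rw [ps_zero, mul_zero, Complex.zero_re]

lemma step_re (k : ℕ) (a : Fin 3) : (step k a).re = (if Even k then 1 else -1) * (if a = 0 then (1 : ℝ) else -(1 / 2)) := by
  rw [NTSF.step_eq, ← NTF.JJ_de, NTF.JJ_re]
  unfold NTF.de
  by_cases he : Even k
  · rw [if_pos he, if_pos he]
    fin_cases a <;> (simp [NTF.Ed]; try norm_num)
  · rw [if_neg he, if_neg he]
    fin_cases a <;> (simp [NTF.Ed]; try norm_num)

/-- the levels of the vertices are multiples of `1 / 2`, the class mod 3 depends on the parity -/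
lemma lev_int (w : W3) {k : ℕ} (hk : k ≤ w.length) :
    ∃ q : ℤ, 2 * (ps w k).re = 3 * q + if Even k then (0 : ℝ) else 2 := by
  induction k with
  | zero => exact ⟨0, by simp⟩
  | succ k ih =>
    obtain ⟨q, hq⟩ := ih (by omega)
    rw [ps_succ, st_of_lt (show k < w.length by omega), Complex.add_re, mul_add, hq]
    obtain ⟨a, ha⟩ : ∃ a, a = w.get ⟨k, by omega⟩ := ⟨_, rfl⟩
    rw [← ha]
    rw [step_re]
    by_cases he : Even k
    · have he2 : ¬ Even (k + 1) := by
        rw [Nat.even_add_one]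
        exact fun h => h he
      rw [if_pos he, if_pos he, if_neg he2]
      by_cases h0 : a = 0
      · exact ⟨q, by rw [if_pos h0]; ring⟩
      · exact ⟨q - 1, by rw [if_neg h0]; push_cast; ring⟩
    · have he2 : Even (k + 1) := by
        rw [Nat.even_add_one]
        exact he
      rw [if_neg he, if_neg he, if_pos he2]
      by_cases h0 : a = 0
      · exact ⟨q, by rw [if_pos h0]; ring⟩
      · exact ⟨q + 1, by rw [if_neg h0]; push_cast; ring⟩

lemma lvi_even (i : Fin 3) (w : W3) {k : ℕ} (hk : k ≤ w.length) (he : Even k) : ∃ q : ℤ, lvi i w k = 3 * q / 2 := by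
  have hk' : k ≤ (rt (-i) w).length := by
    rw [rt_length]
    exact hk
  obtain ⟨q, hq⟩ := lev_int (rt (-i) w) hk'
  rw [if_pos he, add_zero] at hq
  refine ⟨q, ?_⟩
  have h1 := lvi_rt i (rt (-i) w) k
  rw [rt_rt_neg] at h1
  rw [h1]
  linarith

/-- the vertex number `k` is a cut of the axis `i` of the whole word -/
def CV (i : Fin 3) (w : W3) (k : ℕ) : Prop := k ≤ w.length ∧ Even k ∧ (∀ j : ℕ, j ≤ k → lvi i w j ≤ lvi i w k) ∧
  ∀ j : ℕ, k < j → j ≤ w.length → lvi i w k < lvi i w j

/-- **the block between two successive gates**: `|u|` is a cut of the word; `|u| + |b|` is the first cut whose level over the level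
of `|u|` is at least `3 m / 2` iff `b` is a block (of mass one) and the rest stays above its start -/
theorem gate_iff {i : Fin 3} {m : ℕ} {u b v : W3} (hu : Even u.length) (hb : Even b.length) (hs : SW b)
    (hc : CV i (u ++ (b ++ v)) u.length) :
    (CV i (u ++ (b ++ v)) (u.length + b.length) ∧
      lvi i (u ++ (b ++ v)) u.length + 3 * m / 2 ≤ lvi i (u ++ (b ++ v)) (u.length + b.length) ∧
      ∀ k : ℕ, u.length ≤ k → k < u.length + b.length → CV i (u ++ (b ++ v)) k →
        lvi i (u ++ (b ++ v)) k < lvi i (u ++ (b ++ v)) u.length + 3 * m / 2) ↔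
    b ∈ Fbi i m ∧ ∀ j : ℕ, 1 ≤ j → j ≤ v.length → 0 < lvi i v j := by
  obtain ⟨-, -, c3, c4⟩ := hc
  -- levels in the three parts
  have e0 : lvi i (u ++ (b ++ v)) u.length = lvi i u u.length := lvi_append_left i le_rfl
  have e1 : ∀ j, j ≤ b.length → lvi i (u ++ (b ++ v)) (u.length + j) = lvi i u u.length + lvi i b j := fun j hj => by
    rw [lvi_append_right i hu, lvi_append_left i hj]
  have e2 : ∀ j, lvi i (u ++ (b ++ v)) (u.length + (b.length + j)) = lvi i u u.length + (lvi i b b.length + lvi i v j) := fun j => by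
    rw [lvi_append_right i hu, lvi_append_right i hb]
  have hl : (u ++ (b ++ v)).length = u.length + (b.length + v.length) := by rw [List.length_append, List.length_append]
  rw [hl] at c4
  rw [e0] at c3 c4
  rw [e0, e1 b.length le_rfl]
  constructor
  · rintro ⟨⟨-, -, g3, g4⟩, g5, g6⟩
    rw [hl] at g4
    rw [e1 b.length le_rfl] at g3 g4
    have hv : ∀ j : ℕ, 1 ≤ j → j ≤ v.length → 0 < lvi i v j := by
      intro j hj1 hj2
      have h1 := g4 (u.length + (b.length + j)) (by omega) (by omega)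
      rw [e2] at h1
      linarith
    refine ⟨?_, hv⟩
    obtain ⟨q, hq⟩ := lvi_even i b le_rfl hb
    have hmq : (m : ℝ) ≤ q := by linarith
    have hmq2 : (m : ℤ) ≤ q := by exact_mod_cast hmq
    have hq0 : ((q.toNat : ℕ) : ℤ) = q := Int.toNat_of_nonneg (by omega)
    have hq1 : ((q.toNat : ℕ) : ℝ) = q := by exact_mod_cast hq0
    have hbr : b ∈ Bri i q.toNat := by
      refine ⟨hb, hs, fun k hk1 hk2 => ?_, by rw [hq, hq1]⟩
      rw [hq1, ← hq]
      have h1 := c4 (u.length + k) (by omega) (by omega)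
      have h2 := g3 (u.length + k) (by omega)
      rw [e1 k hk2] at h1 h2
      constructor <;> linarith
    refine ⟨q.toNat, by omega, hbr, fun c hc1 hc2 hcut => ?_⟩
    obtain ⟨k, hk, hke, k1, k2, k3⟩ := (cuti_iff hbr).1 hcut
    have hc3 : (c : ℝ) < q := by
      rw [← hq1]
      exact_mod_cast hc2
    have hkb : k < b.length := by
      rcases Nat.lt_or_eq_of_le hk with h | h
      · exact h
      · rw [h, hq] at k1
        linarith
    have h1 := g6 (u.length + k) (by omega) (by omega) ⟨by rw [hl]; omega, hu.add hke, fun j hj => ?_, fun j hj1 hj2 => ?_⟩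
    · rw [e1 k hk, k1] at h1
      have : (m : ℝ) ≤ c := by exact_mod_cast hc1
      linarith
    · rw [e1 k hk, k1]
      rcases Nat.lt_or_ge j u.length with h | h
      · have h2 := c3 j h.le
        have : (0 : ℝ) ≤ c := by positivity
        linarith
      · have h2 := k2 (j - u.length) (by omega)
        have h3 := e1 (j - u.length) (by omega)
        rw [show u.length + (j - u.length) = j by omega] at h3
        rw [h3]
        linarith
    · rw [hl] at hj2
      rw [e1 k hk, k1]
      rcases Nat.lt_or_ge b.length (j - u.length) with h | h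
      · have h2 := hv (j - u.length - b.length) (by omega) (by omega)
        have h3 := e2 (j - u.length - b.length)
        rw [show u.length + (b.length + (j - u.length - b.length)) = j by omega] at h3
        rw [h3, hq]
        linarith
      · have h2 := k3 (j - u.length) (by omega) h
        have h3 := e1 (j - u.length) h
        rw [show u.length + (j - u.length) = j by omega] at h3
        rw [h3]
        linarith
  · rintro ⟨⟨T, hmT, hbr, hno⟩, hv⟩
    obtain ⟨-, -, b3, b4⟩ := id hbr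
    have hmT' : (m : ℝ) ≤ T := by exact_mod_cast hmT
    refine ⟨⟨by rw [hl]; omega, hu.add hb, fun j hj => ?_, fun j hj1 hj2 => ?_⟩, by rw [b4]; linarith, fun k hk1 hk2 hcv => ?_⟩
    · rw [e1 b.length le_rfl, b4]
      have hT0 : (0 : ℝ) ≤ T := by positivity
      rcases Nat.lt_or_ge u.length j with h | h
      · have h2 := (b3 (j - u.length) (by omega) (by omega)).2
        have h3 := e1 (j - u.length) (by omega)
        rw [show u.length + (j - u.length) = j by omega] at h3
        rw [h3]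
        linarith
      · have h2 := c3 j h
        linarith
    · rw [hl] at hj2
      rw [e1 b.length le_rfl]
      have h2 := hv (j - u.length - b.length) (by omega) (by omega)
      have h3 := e2 (j - u.length - b.length)
      rw [show u.length + (b.length + (j - u.length - b.length)) = j by omega] at h3
      rw [h3]
      linarith
    · obtain ⟨-, d2, d3, d4⟩ := hcv
      rw [hl] at d4
      have h3 := e1 (k - u.length) (by omega)
      rw [show u.length + (k - u.length) = k by omega] at h3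
      by_contra hcon
      rw [not_lt, h3] at hcon
      have hke : Even (k - u.length) := (Nat.even_sub hk1).2 (by simp [d2, hu])
      obtain ⟨q, hq⟩ := lvi_even i b (show k - u.length ≤ b.length by omega) hke
      have hmq : (m : ℝ) ≤ q := by linarith
      have hmq2 : (m : ℤ) ≤ q := by exact_mod_cast hmq
      have hq0 : ((q.toNat : ℕ) : ℤ) = q := Int.toNat_of_nonneg (by omega)
      have hq1 : ((q.toNat : ℕ) : ℝ) = q := by exact_mod_cast hq0
      have hqT : q.toNat < T := by
        have h4 := d4 (u.length + b.length) hk2 (by omega)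
        rw [e1 b.length le_rfl, b4, h3, hq] at h4
        have : (q : ℝ) < T := by linarith
        rw [← hq1] at this
        exact_mod_cast this
      refine hno q.toNat (by omega) hqT ((cuti_iff hbr).2 ⟨k - u.length, by omega, hke, by rw [hq, hq1], fun j hj => ?_,
        fun j hj1 hj2 => ?_⟩)
      · have h4 := d3 (u.length + j) (by omega)
        rw [e1 j (by omega), h3, hq] at h4
        rw [hq1]
        linarith
      · have h4 := d4 (u.length + j) (by omega) (by omega)
        rw [e1 j hj2, h3, hq] at h4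
        rw [hq1]
        linarith

end Pool.Agent.ROT.F3
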