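import Pool.Agent.ROT.F3Brd
import Pool.Agent.HexLim.TubeT
import Pool.Agent.GLow.Alpha

/-!
# ROT / F3BriM (helper29): the mass of the bridges of height at most `H` (frame W3, axis `i`)

* `bri_up` : at most `C H ^ (3/4)`;
* **`bri_low`** : those which stay in the ball of radius `M H` have mass at least `c H ^ (3/4)`.
-/

set_option autoImplicit false

namespace Pool.Agent.ROT.F3

open Finset
open Pool.Agent.NTS.Res (step pos saw fug)
open HexObs (Brd gf wE uu UU lev lat BT)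
open scoped ENNReal Classical

/-- the mass of the bridges of height `h`, axis `i` -/
theorem mass_Bri (i : Fin 3) (h : ℕ) : ∑' w : Bri i h, wx w = BT h := by
  have h1 := sum_Bri i h fun _ => 1
  simp only [mul_one] at h1
  rw [h1, ← HexObs.gf_Brd]
  rfl

/-- a vertex of a bridge, from its level and lateral position -/
lemma norm_rt_wl (i : Fin 3) (t : List Bool) {k : ℕ} (hk : k ≤ t.length) {A : ℝ} (h1 : |(lev t k : ℝ)| ≤ A)
    (h2 : |(lat t k : ℝ)| ≤ A) : ‖ps (rt i (wl t)) k‖ ≤ 2 * A := by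
  rw [ps_rt, norm_mul, norm_ax, one_mul]
  refine (Complex.norm_le_abs_re_add_abs_im _).trans ?_
  rw [re_wl t hk, im_wl t hk, abs_div, abs_neg, abs_mul]
  have h3 : Real.sqrt 3 ≤ 2 := by
    rw [Real.sqrt_le_left (by norm_num)]
    norm_num
  have h4 : |Real.sqrt 3 / 2| ≤ 1 := by
    rw [abs_of_nonneg (by positivity)]
    linarith
  have h5 : |(2 : ℝ)| = 2 := abs_of_pos two_pos
  rw [h5]
  have h6 : |Real.sqrt 3 / 2| * |(lat t k : ℝ)| ≤ 1 * A :=
    mul_le_mul h4 h2 (abs_nonneg _) zero_le_one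
  have h7 : 0 ≤ A := (abs_nonneg _).trans h1
  linarith

/-- **upper bound** -/
theorem bri_up : ∃ C : ℝ, 0 < C ∧ ∀ (i : Fin 3) (H : ℕ), 1 ≤ H →
    ∑ h ∈ Icc 1 H, ∑' b : Bri i h, wx b ≤ ENNReal.ofReal (C * (H : ℝ) ^ (3 / 4 : ℝ)) := by
  obtain ⟨C, hC, h⟩ := HexObs.GLow.UU_up
  refine ⟨C, hC, fun i H hH => ?_⟩
  have h1 : ∀ h ∈ Icc 1 H, (∑' b : Bri i h, wx b) = ENNReal.ofReal (uu h) := by
    intro h _
    rw [mass_Bri]
    exact HexObs.Ex.BT_eq h
  rw [sum_congr rfl h1, ← ENNReal.ofReal_sum_of_nonneg fun h _ => (HexObs.uu_pos h).le]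
  refine ENNReal.ofReal_le_ofReal (le_trans ?_ (h H hH))
  unfold HexObs.UU
  refine sum_le_sum_of_subset_of_nonneg ?_ fun h _ _ => (HexObs.uu_pos h).le
  intro h hh
  rw [mem_Icc] at hh
  rw [mem_range]
  omega

/-- **lower bound, in a ball** -/
theorem bri_low : ∃ (c : ℝ) (M H0 : ℕ), 0 < c ∧ 1 ≤ H0 ∧ ∀ (i : Fin 3) (H : ℕ), H0 ≤ H →
    ENNReal.ofReal (c * (H : ℝ) ^ (3 / 4 : ℝ)) ≤
      ∑ h ∈ Icc 1 H, ∑' b : Bri i h, if (∀ k, k ≤ (b : W3).length → ‖ps b k‖ ≤ M * H) then wx b else 0 := by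
  obtain ⟨c, hc, hU⟩ := HexObs.GLow.uu_low
  obtain ⟨M0, hM0⟩ := HexObs.Ex.box_half
  refine ⟨c / 4, 2 * (M0 + 3), 1, by positivity, le_rfl, fun i H hH => ?_⟩
  have hH0 : (1 : ℝ) ≤ H := by exact_mod_cast hH
  have key : ∀ h ∈ Icc 1 H, ENNReal.ofReal (1 / 2 * uu h) ≤
      ∑' b : Bri i h, if (∀ k, k ≤ (b : W3).length → ‖ps b k‖ ≤ (2 * (M0 + 3) : ℕ) * H) then wx b else 0 := by
    intro h hh
    rw [mem_Icc] at hh
    refine (hM0 h hh.1).trans ?_
    have h1 := sum_Bri i h fun w => if (∀ k, k ≤ w.length → ‖ps w k‖ ≤ (2 * (M0 + 3) : ℕ) * H) then 1 else 0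
    have h2 : (∑' b : Bri i h, if (∀ k, k ≤ (b : W3).length → ‖ps b k‖ ≤ (2 * (M0 + 3) : ℕ) * H) then wx b else 0) =
        ∑' w : Bri i h, wx w * (if (∀ k, k ≤ (w : W3).length → ‖ps w k‖ ≤ (2 * (M0 + 3) : ℕ) * H) then 1 else 0) := by
      refine tsum_congr fun b => ?_
      split_ifs <;> simp
    rw [h2, h1]
    unfold gf
    rw [tsum_subtype {t | t ∈ Brd h ∧ ∀ i, i ≤ t.length → |lat t i| ≤ M0 * h} fun t => wE t,
      tsum_subtype (Brd h) fun t => wE t *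
        (if (∀ k, k ≤ (rt i (wl t)).length → ‖ps (rt i (wl t)) k‖ ≤ (2 * (M0 + 3) : ℕ) * H) then 1 else 0)]
    refine ENNReal.tsum_le_tsum fun t => ?_
    by_cases ht : t ∈ {t | t ∈ Brd h ∧ ∀ i, i ≤ t.length → |lat t i| ≤ M0 * h}
    · rw [Set.indicator_of_mem ht, Set.indicator_of_mem ht.1, if_pos, mul_one]
      intro k hk
      rw [rt_length, wl_length] at hk
      have hhH : (h : ℝ) ≤ H := by exact_mod_cast hh.2
      obtain ⟨l1, l2⟩ := HexObs.Ex.lev_range ht.1 hk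
      have a1 : |(lev t k : ℝ)| ≤ (M0 + 3) * H := by
        have e1 : (lev t k : ℝ) = 3 * ((lev t k : ℝ) / 3) := by ring
        rw [e1, abs_mul, abs_of_nonneg l1, abs_of_nonneg (by norm_num : (0 : ℝ) ≤ 3)]
        have : (0 : ℝ) ≤ M0 := Nat.cast_nonneg _
        nlinarith
      have a2 : |(lat t k : ℝ)| ≤ (M0 + 3) * H := by
        have e1 : |(lat t k : ℝ)| ≤ (M0 : ℝ) * h := by exact_mod_cast ht.2 k hk
        have : (0 : ℝ) ≤ M0 := Nat.cast_nonneg _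
        nlinarith
      have := norm_rt_wl i t hk a1 a2
      push_cast
      linarith
    · rw [Set.indicator_of_notMem ht]
      exact zero_le
  refine le_trans ?_ (sum_le_sum key)
  rw [← ENNReal.ofReal_sum_of_nonneg fun h _ => by
    have := HexObs.uu_pos h
    positivity]
  refine ENNReal.ofReal_le_ofReal ?_
  have h3 : ∀ h ∈ Icc 1 H, c / 2 * (H : ℝ) ^ (-(1 / 4) : ℝ) ≤ 1 / 2 * uu h := by
    intro h hh
    rw [mem_Icc] at hh
    have h4 := hU h hh.1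
    have h5 : (H : ℝ) ^ (-(1 / 4) : ℝ) ≤ (h : ℝ) ^ (-(1 / 4) : ℝ) :=
      Real.rpow_le_rpow_of_nonpos (by exact_mod_cast hh.1) (by exact_mod_cast hh.2) (by norm_num)
    nlinarith
  refine le_trans ?_ (sum_le_sum h3)
  rw [sum_const, Nat.card_Icc, nsmul_eq_mul, Nat.add_sub_cancel]
  have e : (H : ℝ) ^ (3 / 4 : ℝ) = H * (H : ℝ) ^ (-(1 / 4) : ℝ) := by
    conv_rhs => rw [← Real.rpow_one_add' (by positivity) (by norm_num)]
    norm_num
  rw [e]
  have h6 : 0 ≤ (H : ℝ) * (H : ℝ) ^ (-(1 / 4) : ℝ) := by positivity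
  nlinarith

end Pool.Agent.ROT.F3
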