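import Pool.Agent.ROT.F3LimEv

/-!
# ROT, F3 (B), row C0At (helper86): native and foreign marks together, limit side

`P i` = laws of words, `c i` = their curves, `c' i` = the curves of the words of the ROTATED lattice (same limit law `ν`).

* **`c0_low`** : `A` = the native marks, `F` = the foreign marks (a class of the rotated lattice), `J` = the grid means of single gates;
  `G` = a functional of the limit curve (window, tube, level of the native mark `x`), approximated by `g` on the words of lattice 0 and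
  by `g'` on the words of the rotated lattice. If `g' > 0`, `J > 0` imply `F` (deterministic), then the native and the foreign marks
  occur together with the mass `∫ A g J` of lattice 0, up to `∫ G |J' - J|`;
* **`rot_le`** : `∫ W |J (R x) - J x|` is small, if `J` has a Lipschitz approximation.
-/

set_option autoImplicit false

open MeasureTheory Filter Topology Set
open scoped ENNReal NNReal

namespace Pool.Agent.ROT.F3.LF

variable {ι : Type*} {l : Filter ι} {Ω : ι → Type*} [∀ i, MeasurableSpace (Ω i)] {P : ∀ i, Measure (Ω i)}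
  {X : Type*} [PseudoMetricSpace X] [MeasurableSpace X] [BorelSpace X] [CompleteSpace X] [SecondCountableTopology X]
  {c c' : ∀ i, Ω i → X} {ν : Measure X}

/-- **native and foreign marks together** -/
theorem c0_low [l.NeBot] (hC : Cv l P c ν) (hC' : Cv l P c' ν) {J g g' : ∀ i, Ω i → ℝ} {J0 J0' G : X → ℝ}
    (hJ : Lm l P c ν J J0) (hJ' : Lm l P c' ν J J0') (hg : Lm l P c ν g G) (hg' : Lm l P c' ν g' G)
    {A F : ∀ i, Ω i → Prop} {𝒜 ℱ : Set X} (hA : Ev l P c ν A 𝒜) (hF : Ev l P c' ν F ℱ)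
    (hG : ∀ x, 0 ≤ G x) (hJ1 : ∀ i ω, J i ω ≤ 1) (hJ0 : ∀ i ω, 0 ≤ J i ω)
    (det : ∀ᶠ i in l, ∀ ω, 0 < g' i ω → 0 < J i ω → F i ω) (hg0 : ∀ i ω, 0 ≤ g' i ω) {a ε : ℝ}
    (low : ∀ᶠ i in l, a ≤ ∫ ω, bi (A i ω) * (g i ω * J i ω) ∂P i) (rot : ∫ x, G x * |J0' x - J0 x| ∂ν ≤ ε) :
    a - ε ≤ ∫ x, bi (x ∈ 𝒜 ∩ ℱ) * G x ∂ν := by
  have := hC.fin'
  -- the foreign marks exist where `G J0'` is positive
  have h1 : ∀ᵐ x ∂ν, bi (x ∈ ℱᶜ) * (G x * J0' x) ≤ 0 := by
    have h2 : Lm l P c' ν (fun i ω => bi (¬ F i ω) * (g' i ω * J i ω)) fun x => bi (x ∈ ℱᶜ) * (G x * J0' x) :=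
      (hF.not hC').mul hC' (Lm.mul hC' hg' hJ')
    refine Lm.le hC' h2 (Lm.const hC' 0) ?_
    filter_upwards [det] with i hi ω
    by_cases h3 : F i ω
    · rw [bi_neg (not_not.2 h3), zero_mul]
    · rcases (hg0 i ω).eq_or_lt with h4 | h4
      · rw [← h4, zero_mul, mul_zero]
      · rcases (hJ0 i ω).eq_or_lt with h5 | h5
        · rw [← h5, mul_zero, mul_zero]
        · exact absurd (hi ω h4 h5) h3
  have h1' : ∀ᵐ x ∂ν, J0' x ≤ 1 := Lm.le hC' hJ' (Lm.const hC' 1) (Eventually.of_forall fun i ω => hJ1 i ω)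
  have h0' : ∀ᵐ x ∂ν, 0 ≤ J0' x := Lm.nonneg hC' hJ' (Eventually.of_forall fun i ω => hJ0 i ω)
  -- the native side
  have h3 : a ≤ ∫ x, bi (x ∈ 𝒜) * (G x * J0 x) ∂ν := by
    have h4 : Lm l P c ν (fun i ω => bi (A i ω) * (g i ω * J i ω)) fun x => bi (x ∈ 𝒜) * (G x * J0 x) :=
      hA.mul hC (Lm.mul hC hg hJ)
    exact ge_of_tendsto (h4.tendsto hC) low
  obtain ⟨CG, hCG⟩ := hg.bd'
  obtain ⟨CJ, hCJ⟩ := hJ.bd'
  obtain ⟨CJ', hCJ'⟩ := hJ'.bd'
  have mA : Measurable fun x => bi (x ∈ 𝒜) := bi_ms hA.ms'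
  have mF : Measurable fun x => bi (x ∈ 𝒜 ∩ ℱ) := bi_ms (hA.ms'.inter hF.ms')
  have i1 : Integrable (fun x => bi (x ∈ 𝒜) * (G x * J0 x)) ν := by
    refine itg (mA.mul (hg.ms'.mul hJ.ms')) (C := 1 * (CG * CJ)) fun x => ?_
    rw [abs_mul, abs_mul]
    exact mul_le_mul (bi_abs _) (mul_le_mul (hCG x) (hCJ x) (abs_nonneg _) ((abs_nonneg _).trans (hCG x)))
      (mul_nonneg (abs_nonneg _) (abs_nonneg _)) zero_le_one
  have i2 : Integrable (fun x => bi (x ∈ 𝒜 ∩ ℱ) * G x) ν := by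
    refine itg (mF.mul hg.ms') (C := 1 * CG) fun x => ?_
    rw [abs_mul]
    exact mul_le_mul (bi_abs _) (hCG x) (abs_nonneg _) zero_le_one
  have i3 : Integrable (fun x => G x * |J0' x - J0 x|) ν := by
    refine itg (hg.ms'.mul (hJ'.ms'.sub hJ.ms').abs) (C := CG * (CJ' + CJ)) fun x => ?_
    rw [abs_mul, abs_abs]
    refine mul_le_mul (hCG x) ?_ (abs_nonneg _) ((abs_nonneg _).trans (hCG x))
    exact (abs_sub _ _).trans (add_le_add (hCJ' x) (hCJ x))
  have h5 : ∫ x, bi (x ∈ 𝒜) * (G x * J0 x) ∂ν ≤ ∫ x, (bi (x ∈ 𝒜 ∩ ℱ) * G x + G x * |J0' x - J0 x|) ∂ν := by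
    refine integral_mono_ae i1 (i2.add i3) ?_
    filter_upwards [h1, h1', h0'] with x x1 x2 x3
    have y1 : J0 x ≤ J0' x + |J0' x - J0 x| := by
      linarith [le_abs_self (J0' x - J0 x), neg_abs_le (J0' x - J0 x)]
    have y2 : G x * J0 x ≤ G x * J0' x + G x * |J0' x - J0 x| := by
      rw [← mul_add]
      exact mul_le_mul_of_nonneg_left y1 (hG x)
    have y3 : 0 ≤ G x * |J0' x - J0 x| := mul_nonneg (hG x) (abs_nonneg _)
    show bi (x ∈ 𝒜) * (G x * J0 x) ≤ bi (x ∈ 𝒜 ∩ ℱ) * G x + G x * |J0' x - J0 x|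
    by_cases hxA : x ∈ 𝒜
    · rw [bi_pos hxA, one_mul]
      by_cases hxF : x ∈ ℱ
      · rw [bi_pos (show x ∈ 𝒜 ∩ ℱ from ⟨hxA, hxF⟩), one_mul]
        have : G x * J0' x ≤ G x := mul_le_of_le_one_right (hG x) x2
        linarith
      · rw [bi_neg fun h : x ∈ 𝒜 ∩ ℱ => hxF h.2, zero_mul]
        rw [bi_pos (show x ∈ ℱᶜ from hxF), one_mul] at x1
        linarith
    · rw [bi_neg hxA, bi_neg fun h : x ∈ 𝒜 ∩ ℱ => hxA h.1, zero_mul, zero_mul]
      linarith
  rw [integral_add i2 i3] at h5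
  linarith

omit [PseudoMetricSpace X] [BorelSpace X] [CompleteSpace X] [SecondCountableTopology X] in
/-- **small rotations on a window** -/
theorem rot_le (hν : IsFiniteMeasure ν) {W J φ : X → ℝ} {R : X → X} {n : X → ℝ} {CW K θ B e1 e2 m : ℝ} (hR : Measurable R)
    (hν' : ν.map R = ν) (hW : Measurable W) (hW0 : ∀ x, 0 ≤ W x) (hW1 : ∀ x, W x ≤ CW) (hWR : ∀ x, W (R x) = W x)
    (hJ : Measurable J) (hJ1 : ∀ x, |J x| ≤ 1) (hφ : Measurable φ) (hφ1 : ∀ x, |φ x| ≤ 1) (hn : Measurable n) (hK : 0 ≤ K) (hθ : 0 ≤ θ)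
    (hB : 0 ≤ B) (h1 : ∫ x, W x * |J x - φ x| ∂ν ≤ e1) (h2 : ∀ x, |φ (R x) - φ x| ≤ K * (θ * n x))
    (h3 : ∫ x, W x * bi (B < n x) ∂ν ≤ e2) (h4 : ∫ x, W x ∂ν ≤ m) :
    ∫ x, W x * |J (R x) - J x| ∂ν ≤ 2 * e1 + 2 * e2 + K * (θ * B) * m := by
  have bd : ∀ {f : X → ℝ}, Measurable f → (∀ x, 0 ≤ f x) → (∀ x, f x ≤ 2) → Integrable (fun x => W x * f x) ν := by
    intro f hf f0 f1
    refine itg (hW.mul hf) (C := CW * 2) fun x => ?_
    rw [abs_of_nonneg (mul_nonneg (hW0 x) (f0 x))]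
    exact mul_le_mul (hW1 x) (f1 x) (f0 x) ((hW0 x).trans (hW1 x))
  have t2 : ∀ a b : ℝ, |a| ≤ 1 → |b| ≤ 1 → |a - b| ≤ 2 := fun a b ha hb => (abs_sub _ _).trans (by linarith)
  have j1 : Integrable (fun x => W x * |J x - φ x|) ν :=
    bd (hJ.sub hφ).abs (fun x => abs_nonneg _) fun x => t2 _ _ (hJ1 x) (hφ1 x)
  have j1' : Integrable (fun x => W x * |J (R x) - φ (R x)|) ν :=
    bd ((hJ.comp hR).sub (hφ.comp hR)).abs (fun x => abs_nonneg _) fun x => t2 _ _ (hJ1 _) (hφ1 _)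
  have hbi : Measurable fun x => bi (B < n x) := bi_ms (measurableSet_lt measurable_const hn)
  have j2 : Integrable (fun x => W x * bi (B < n x)) ν := bd hbi (fun x => bi_nonneg _) fun x => (bi_le _).trans (by norm_num)
  have j3 : Integrable W ν := itg hW (C := CW) fun x => by rw [abs_of_nonneg (hW0 x)]; exact hW1 x
  have j4 : Integrable (fun x => W x * |J (R x) - J x|) ν :=
    bd ((hJ.comp hR).sub hJ).abs (fun x => abs_nonneg _) fun x => t2 _ _ (hJ1 _) (hJ1 _)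
  have e1' : ∫ x, W x * |J (R x) - φ (R x)| ∂ν = ∫ x, W x * |J x - φ x| ∂ν := by
    have hm : Measurable fun x => W x * |J x - φ x| := hW.mul (hJ.sub hφ).abs
    have h5 : ∫ x, W x * |J x - φ x| ∂(ν.map R) = ∫ x, W (R x) * |J (R x) - φ (R x)| ∂ν :=
      integral_map hR.aemeasurable hm.aestronglyMeasurable
    rw [hν'] at h5
    rw [h5]
    exact integral_congr_ae (Eventually.of_forall fun x => by
      show W x * _ = W (R x) * _
      rw [hWR])
  have h6 : ∫ x, W x * |J (R x) - J x| ∂ν ≤ ∫ x, (W x * |J (R x) - φ (R x)| + W x * |J x - φ x| +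
      (2 * (W x * bi (B < n x)) + K * (θ * B) * W x)) ∂ν := by
    refine integral_mono j4 ((j1'.add j1).add ((j2.const_mul 2).add (j3.const_mul _))) fun x => ?_
    show W x * |J (R x) - J x| ≤ W x * |J (R x) - φ (R x)| + W x * |J x - φ x| + (2 * (W x * bi (B < n x)) + K * (θ * B) * W x)
    have y1 : |φ (R x) - φ x| ≤ 2 * bi (B < n x) + K * (θ * B) := by
      by_cases hb : B < n x
      · rw [bi_pos hb]
        have := t2 _ _ (hφ1 (R x)) (hφ1 x)
        have : 0 ≤ K * (θ * B) := by positivity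
        linarith
      · rw [bi_neg hb]
        have := h2 x
        have : K * (θ * n x) ≤ K * (θ * B) := mul_le_mul_of_nonneg_left (mul_le_mul_of_nonneg_left (not_lt.1 hb) hθ) hK
        linarith
    have y2 : |J (R x) - J x| ≤ |J (R x) - φ (R x)| + |J x - φ x| + (2 * bi (B < n x) + K * (θ * B)) := by
      calc |J (R x) - J x| = |(J (R x) - φ (R x)) + (φ (R x) - φ x) - (J x - φ x)| := by ring_nf
        _ ≤ |(J (R x) - φ (R x)) + (φ (R x) - φ x)| + |J x - φ x| := abs_sub _ _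
        _ ≤ |J (R x) - φ (R x)| + |φ (R x) - φ x| + |J x - φ x| := by
            gcongr
            exact abs_add_le _ _
        _ ≤ _ := by linarith
    calc W x * |J (R x) - J x| ≤ W x * (|J (R x) - φ (R x)| + |J x - φ x| + (2 * bi (B < n x) + K * (θ * B))) :=
          mul_le_mul_of_nonneg_left y2 (hW0 x)
      _ = _ := by ring
  have e7 : ∫ x, (W x * |J (R x) - φ (R x)| + W x * |J x - φ x| + (2 * (W x * bi (B < n x)) + K * (θ * B) * W x)) ∂ν =
      ∫ x, W x * |J (R x) - φ (R x)| ∂ν + ∫ x, W x * |J x - φ x| ∂ν + (2 * ∫ x, W x * bi (B < n x) ∂ν + K * (θ * B) * ∫ x, W x ∂ν) := by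
    have k1 : Integrable (fun x => W x * |J (R x) - φ (R x)| + W x * |J x - φ x|) ν := j1'.add j1
    have k2 : Integrable (fun x => 2 * (W x * bi (B < n x))) ν := j2.const_mul 2
    have k3 : Integrable (fun x => K * (θ * B) * W x) ν := j3.const_mul _
    have k4 : Integrable (fun x => 2 * (W x * bi (B < n x)) + K * (θ * B) * W x) ν := k2.add k3
    rw [integral_add k1 k4, integral_add j1' j1, integral_add k2 k3, integral_const_mul, integral_const_mul]
  rw [e7, e1'] at h6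
  have h7 : K * (θ * B) * ∫ x, W x ∂ν ≤ K * (θ * B) * m := mul_le_mul_of_nonneg_left h4 (by positivity)
  linarith

end Pool.Agent.ROT.F3.LF
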