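import Pool.Agent.ROT.F3C0
import Pool.Agent.ROT.F3SysV

/-!
# ROT, F3 (B), row C0At (helper86): small rotations, uniformly in the scale

`ρ` = the scale (the words of the window have about `(ρ N) ^ (4 / 3)` letters), `W` = a weight of the window.
**`rot_unif`** : if the functional `J` of the words has Lipschitz approximations in the unit `ρ N`, then the limit functional `J0` is
close to its rotation: the bound depends on the Lipschitz constant, on the tightness and on the mass only.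
-/

set_option autoImplicit false

open MeasureTheory Filter Topology Set
open scoped ENNReal NNReal BoundedContinuousFunction

namespace Pool.Agent.ROT.F3

open Pool.Agent.ROT.F (QB)

/-- the data in the unit `ρ` -/
noncomputable def scX (ρ : ℝ) (y : ℝ × ℝ × C(unitInterval, ℂ)) : ℝ × ℝ × C(unitInterval, ℂ) :=
  (y.1 / ρ ^ (4 / 3 : ℝ), y.2.1 / ρ ^ (4 / 3 : ℝ), ((ρ⁻¹ : ℝ) : ℂ) • y.2.2)

lemma scX_lip {ρ : ℝ} (hρ : 0 < ρ) : ∃ C : ℝ≥0, LipschitzWith C (scX ρ) := by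
  have hp : 0 < ρ ^ (4 / 3 : ℝ) := Real.rpow_pos_of_pos hρ _
  refine ⟨⟨max (ρ ^ (4 / 3 : ℝ))⁻¹ ρ⁻¹, le_max_of_le_left (by positivity)⟩, LipschitzWith.of_dist_le_mul fun x y => ?_⟩
  have h1 : dist x.1 y.1 ≤ dist x y := le_max_left _ _
  have h2 : dist x.2.1 y.2.1 ≤ dist x y := (le_max_left _ _).trans (le_max_right _ _)
  have h3 : dist x.2.2 y.2.2 ≤ dist x y := (le_max_right _ _).trans (le_max_right _ _)
  have hd : ∀ a a' : ℝ, dist (a / ρ ^ (4 / 3 : ℝ)) (a' / ρ ^ (4 / 3 : ℝ)) = (ρ ^ (4 / 3 : ℝ))⁻¹ * dist a a' := by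
    intro a a'
    rw [Real.dist_eq, Real.dist_eq, ← sub_div, abs_div, abs_of_pos hp]
    field_simp
  have hc : dist (((ρ⁻¹ : ℝ) : ℂ) • x.2.2) (((ρ⁻¹ : ℝ) : ℂ) • y.2.2) = ρ⁻¹ * dist x.2.2 y.2.2 := by
    have e : ((ρ⁻¹ : ℝ) : ℂ) • x.2.2 - ((ρ⁻¹ : ℝ) : ℂ) • y.2.2 = ((ρ⁻¹ : ℝ) : ℂ) • (x.2.2 - y.2.2) := by
      ext t
      simp only [ContinuousMap.sub_apply, ContinuousMap.smul_apply, smul_eq_mul]
      ring
    rw [dist_eq_norm, e, norm_smul, Complex.norm_real, Real.norm_eq_abs, abs_of_pos (inv_pos.2 hρ), ← dist_eq_norm]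
  show max _ (max _ _) ≤ max (ρ ^ (4 / 3 : ℝ))⁻¹ ρ⁻¹ * dist x y
  refine max_le ?_ (max_le ?_ ?_)
  · show dist (x.1 / ρ ^ (4 / 3 : ℝ)) (y.1 / ρ ^ (4 / 3 : ℝ)) ≤ _
    rw [hd]
    exact mul_le_mul (le_max_left _ _) h1 dist_nonneg (le_max_of_le_left (by positivity))
  · show dist (x.2.1 / ρ ^ (4 / 3 : ℝ)) (y.2.1 / ρ ^ (4 / 3 : ℝ)) ≤ _
    rw [hd]
    exact mul_le_mul (le_max_left _ _) h2 dist_nonneg (le_max_of_le_left (by positivity))
  · show dist (((ρ⁻¹ : ℝ) : ℂ) • x.2.2) (((ρ⁻¹ : ℝ) : ℂ) • y.2.2) ≤ _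
    rw [hc]
    exact mul_le_mul (le_max_right _ _) h3 dist_nonneg (le_max_of_le_left (by positivity))

lemma scX_rot {ρ : ℝ} (hρ : 0 < ρ) {z : ℂ} (y : ℝ × ℝ × C(unitInterval, ℂ)) :
    dist (scX ρ (rotX z y)) (scX ρ y) ≤ ‖z - 1‖ * (‖y.2.2‖ / ρ) := by
  have e3 : dist (((ρ⁻¹ : ℝ) : ℂ) • (z • y.2.2)) (((ρ⁻¹ : ℝ) : ℂ) • y.2.2) = ‖z - 1‖ * (‖y.2.2‖ / ρ) := by
    have e : ((ρ⁻¹ : ℝ) : ℂ) • (z • y.2.2) - ((ρ⁻¹ : ℝ) : ℂ) • y.2.2 = ((ρ⁻¹ : ℝ) : ℂ) • ((z - 1) • y.2.2) := by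
      ext t
      simp only [ContinuousMap.sub_apply, ContinuousMap.smul_apply, smul_eq_mul]
      ring
    rw [dist_eq_norm, e, norm_smul, norm_smul, Complex.norm_real, Real.norm_eq_abs, abs_of_pos (inv_pos.2 hρ)]
    field_simp
  have hpos : 0 ≤ ‖z - 1‖ * (‖y.2.2‖ / ρ) := by positivity
  show max (dist _ _) (max (dist _ _) (dist _ _)) ≤ _
  refine max_le ?_ (max_le ?_ e3.le)
  · show dist (y.1 / ρ ^ (4 / 3 : ℝ)) (y.1 / ρ ^ (4 / 3 : ℝ)) ≤ _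
    rw [dist_self]
    exact hpos
  · show dist (y.2.1 / ρ ^ (4 / 3 : ℝ)) (y.2.1 / ρ ^ (4 / 3 : ℝ)) ≤ _
    rw [dist_self]
    exact hpos

lemma clamp1_abs (t : ℝ) : |max (-1) (min 1 t)| ≤ 1 := abs_le.2 ⟨le_max_left _ _, max_le (by norm_num) (min_le_left _ _)⟩

lemma clamp1_of {t : ℝ} (h : |t| ≤ 1) : max (-1) (min 1 t) = t := by
  have := abs_le.1 h
  rw [min_eq_right this.2, max_eq_right this.1]

/-- **small rotations, uniformly in the scale** -/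
theorem rot_unif (hQ : QB) {b : ℝ} (hb : 0 ≤ b) {U : Ultrafilter ℕ} (hU : (U : Filter ℕ) ≤ atTop)
    {P : Measure (ℝ × ℝ × C(unitInterval, ℂ))} (hC : LF.Cv (U : Filter ℕ) (fun N => mwE N b) cN P) {z : ℂ}
    (hinv : P.map (rotX z) = P) {J : ℕ → W3 × ℕ → ℝ} {J0 : ℝ × ℝ × C(unitInterval, ℂ) → ℝ}
    (hJ : LF.Lm (U : Filter ℕ) (fun N => mwE N b) cN P J J0) (hJ1 : ∀ N x, |J N x| ≤ 1) {ρ : ℝ} (hρ : 0 < ρ)
    {W : ℝ × ℝ × C(unitInterval, ℂ) → ℝ} (hW : Continuous W) (hW0 : ∀ x, 0 ≤ W x) (hW1 : ∀ x, W x ≤ 1)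
    (hWR : ∀ x, W (rotX z x) = W x) {K : ℝ≥0} {e1 e2 B m : ℝ} (hB : 0 ≤ B)
    (hA : ∀ᶠ N in (U : Filter ℕ), ∃ Φ : ℝ × ℝ × C(unitInterval, ℂ) → ℝ, LipschitzWith K Φ ∧ (∀ x, |Φ x| ≤ 1) ∧
      ∫ x, W (cN N x) * |J N x - Φ (scX ρ (cN N x))| ∂(mwE N b) ≤ e1)
    (hT : ∀ᶠ N in (U : Filter ℕ), ∫ x, W (cN N x) * LF.bi (B < ‖(cN N x).2.2‖ / ρ) ∂(mwE N b) ≤ e2)
    (hm : ∀ᶠ N in (U : Filter ℕ), ∫ x, W (cN N x) ∂(mwE N b) ≤ m) :
    ∫ x, W x * |J0 (rotX z x) - J0 x| ∂P ≤ 2 * e1 + 2 * e2 + K * (‖z - 1‖ * (B + 1)) * m := by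
  have hfin := hC.fin'
  have hfinN := hC.fin
  -- one functional
  obtain ⟨Φ, hΦ⟩ : ∃ Φ : ℕ → ℝ × ℝ × C(unitInterval, ℂ) → ℝ, ∀ N, LipschitzWith K (Φ N) ∧ (∀ x, |Φ N x| ≤ 1) ∧
      ((∃ Φ' : ℝ × ℝ × C(unitInterval, ℂ) → ℝ, LipschitzWith K Φ' ∧ (∀ x, |Φ' x| ≤ 1) ∧
        ∫ x, W (cN N x) * |J N x - Φ' (scX ρ (cN N x))| ∂(mwE N b) ≤ e1) →
        ∫ x, W (cN N x) * |J N x - Φ N (scX ρ (cN N x))| ∂(mwE N b) ≤ e1) := by
    have h1 : ∀ N : ℕ, ∃ Φ : ℝ × ℝ × C(unitInterval, ℂ) → ℝ, LipschitzWith K Φ ∧ (∀ x, |Φ x| ≤ 1) ∧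
      ((∃ Φ' : ℝ × ℝ × C(unitInterval, ℂ) → ℝ, LipschitzWith K Φ' ∧ (∀ x, |Φ' x| ≤ 1) ∧
        ∫ x, W (cN N x) * |J N x - Φ' (scX ρ (cN N x))| ∂(mwE N b) ≤ e1) →
        ∫ x, W (cN N x) * |J N x - Φ (scX ρ (cN N x))| ∂(mwE N b) ≤ e1) := by
      intro N
      by_cases hc : ∃ Φ' : ℝ × ℝ × C(unitInterval, ℂ) → ℝ, LipschitzWith K Φ' ∧ (∀ x, |Φ' x| ≤ 1) ∧
        ∫ x, W (cN N x) * |J N x - Φ' (scX ρ (cN N x))| ∂(mwE N b) ≤ e1
      · obtain ⟨Φ', a1, a2, a3⟩ := hc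
        exact ⟨Φ', a1, a2, fun _ => a3⟩
      · exact ⟨fun _ => 0, LipschitzWith.const' 0, fun x => by simp, fun h => absurd h hc⟩
    choose Φ hΦ using h1
    exact ⟨Φ, hΦ⟩
  obtain ⟨C, hsc⟩ := scX_lip hρ
  obtain ⟨ψ, p1, p2, p3, p4⟩ := mwE_sel hQ hb U hU (fun N y => Φ N (scX ρ y)) (fun N => (hΦ N).1.comp hsc)
    fun N x => (hΦ N).2.1 _
  have hψc : Continuous ψ := p1.continuous
  -- the limit of the functionals
  obtain ⟨CW, hCW⟩ : ∃ CW : ℝ, CW = 1 := ⟨_, rfl⟩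
  have hWb : ∀ x, ‖W x‖ ≤ 1 := fun x => by rw [Real.norm_eq_abs, abs_of_nonneg (hW0 x)]; exact hW1 x
  have hψb : ∀ x, ‖ψ x‖ ≤ 1 := fun x => by rw [Real.norm_eq_abs]; exact p2 x
  have lW : LF.Lm (U : Filter ℕ) (fun N => mwE N b) cN P (fun N x => W (cN N x)) W :=
    LF.Lm.cont hC (BoundedContinuousFunction.ofNormedAddCommGroup W hW 1 hWb)
  have lψ : LF.Lm (U : Filter ℕ) (fun N => mwE N b) cN P (fun N x => ψ (cN N x)) ψ :=
    LF.Lm.cont hC (BoundedContinuousFunction.ofNormedAddCommGroup ψ hψc 1 hψb)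
  have lΦ : LF.Lm (U : Filter ℕ) (fun N => mwE N b) cN P (fun N x => Φ N (scX ρ (cN N x))) ψ := by
    refine LF.Lm.closed hC (fun N => Measurable.of_discrete) ⟨1, fun N x => (hΦ N).2.1 _⟩ hψc.measurable ⟨1, p2⟩ fun ε hε => ?_
    refine ⟨fun N x => ψ (cN N x), ψ, lψ, by simpa using hε.le, ?_⟩
    exact p4 ε hε
  have d1 : ∫ x, W x * |J0 x - ψ x| ∂P ≤ e1 := by
    have h1 := LF.Lm.dist_le hC (LF.Lm.mul hC lW hJ) (LF.Lm.mul hC lW lΦ) (e := e1) (by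
      filter_upwards [hA] with N hN
      refine le_trans (le_of_eq (integral_congr_ae (Eventually.of_forall fun x => ?_))) ((hΦ N).2.2 hN)
      show |W (cN N x) * J N x - W (cN N x) * Φ N (scX ρ (cN N x))| = _
      rw [← mul_sub, abs_mul, abs_of_nonneg (hW0 _)])
    refine le_trans (le_of_eq (integral_congr_ae (Eventually.of_forall fun x => ?_))) h1
    show W x * |J0 x - ψ x| = |W x * J0 x - W x * ψ x|
    rw [← mul_sub, abs_mul, abs_of_nonneg (hW0 _)]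
  have d4 : ∫ x, W x ∂P ≤ m := le_of_tendsto (lW.tendsto hC) hm
  have hn : Continuous fun y : ℝ × ℝ × C(unitInterval, ℂ) => ‖y.2.2‖ / ρ := by fun_prop
  have d3 : ∫ x, W x * LF.bi (B + 1 < ‖x.2.2‖ / ρ) ∂P ≤ e2 := by
    obtain ⟨g, hg⟩ : ∃ g : ℝ × ℝ × C(unitInterval, ℂ) → ℝ, g = fun y => min 1 (max 0 (‖y.2.2‖ / ρ - B)) := ⟨_, rfl⟩
    have hgc : Continuous g := by
      rw [hg]
      exact continuous_const.min (continuous_const.max (hn.sub continuous_const))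
    have hg0 : ∀ x, 0 ≤ g x := fun x => by
      rw [hg]
      exact le_min zero_le_one (le_max_left _ _)
    have hg1 : ∀ x, g x ≤ 1 := fun x => by
      rw [hg]
      exact min_le_left _ _
    have hgb : ∀ x, ‖g x‖ ≤ 1 := fun x => by rw [Real.norm_eq_abs, abs_of_nonneg (hg0 x)]; exact hg1 x
    have lg : LF.Lm (U : Filter ℕ) (fun N => mwE N b) cN P (fun N x => g (cN N x)) g :=
      LF.Lm.cont hC (BoundedContinuousFunction.ofNormedAddCommGroup g hgc 1 hgb)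
    have h1 : ∫ x, W x * g x ∂P ≤ e2 := by
      refine le_of_tendsto ((LF.Lm.mul hC lW lg).tendsto hC) ?_
      filter_upwards [hT] with N hN
      refine le_trans (integral_mono_of_nonneg (Eventually.of_forall fun x => mul_nonneg (hW0 _) (hg0 _)) ?_
        (Eventually.of_forall fun x => ?_)) hN
      · exact LF.itg Measurable.of_discrete (C := 1) fun x => by
          rw [abs_of_nonneg (mul_nonneg (hW0 _) (LF.bi_nonneg _))]
          exact mul_le_one₀ (hW1 _) (LF.bi_nonneg _) (LF.bi_le _)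
      · show W (cN N x) * g (cN N x) ≤ W (cN N x) * LF.bi (B < ‖(cN N x).2.2‖ / ρ)
        refine mul_le_mul_of_nonneg_left ?_ (hW0 _)
        by_cases h2 : B < ‖(cN N x).2.2‖ / ρ
        · rw [LF.bi_pos h2]
          exact hg1 _
        · rw [LF.bi_neg h2, hg]
          show min 1 (max 0 (‖(cN N x).2.2‖ / ρ - B)) ≤ 0
          rw [max_eq_left (by linarith [not_lt.1 h2])]
          exact min_le_right _ _
    refine le_trans (integral_mono_of_nonneg (Eventually.of_forall fun x => mul_nonneg (hW0 _) (LF.bi_nonneg _)) ?_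
        (Eventually.of_forall fun x => ?_)) h1
    · exact LF.itg (hW.mul hgc).measurable (C := 1) fun x => by
        rw [abs_of_nonneg (mul_nonneg (hW0 _) (hg0 _))]
        exact mul_le_one₀ (hW1 _) (hg0 _) (hg1 _)
    · show W x * LF.bi (B + 1 < ‖x.2.2‖ / ρ) ≤ W x * g x
      refine mul_le_mul_of_nonneg_left ?_ (hW0 _)
      by_cases h2 : B + 1 < ‖x.2.2‖ / ρ
      · rw [LF.bi_pos h2, hg]
        show 1 ≤ min 1 (max 0 (‖x.2.2‖ / ρ - B))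
        exact le_min le_rfl (le_max_of_le_right (by linarith))
      · rw [LF.bi_neg h2]
        exact hg0 x
  -- small rotations of the limit functional
  have d2 : ∀ x, |ψ (rotX z x) - ψ x| ≤ K * (‖z - 1‖ * (‖x.2.2‖ / ρ)) := by
    intro x
    refine le_of_tendsto ((p3 (rotX z x)).sub (p3 x)).abs (Eventually.of_forall fun N => ?_)
    have h1 := (hΦ N).1.dist_le_mul (scX ρ (rotX z x)) (scX ρ x)
    rw [Real.dist_eq] at h1
    exact h1.trans (mul_le_mul_of_nonneg_left (scX_rot hρ x) K.coe_nonneg)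
  -- `J0` is bounded by `1` a.e.
  obtain ⟨J1, hJ1d⟩ : ∃ J1 : ℝ × ℝ × C(unitInterval, ℂ) → ℝ, J1 = fun x => max (-1) (min 1 (J0 x)) := ⟨_, rfl⟩
  have hJ1m : Measurable J1 := by
    rw [hJ1d]
    exact measurable_const.max (measurable_const.min hJ.ms')
  have hae : ∀ᵐ x ∂P, J0 x = J1 x := by
    have h1 := LF.Lm.le hC hJ (LF.Lm.const hC 1) (Eventually.of_forall fun N x => (abs_le.1 (hJ1 N x)).2)
    have h2 := LF.Lm.le hC (LF.Lm.const hC (-1)) hJ (Eventually.of_forall fun N x => (abs_le.1 (hJ1 N x)).1)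
    filter_upwards [h1, h2] with x x1 x2
    rw [hJ1d]
    exact (clamp1_of (abs_le.2 ⟨x2, x1⟩)).symm
  have hRm : Measurable (rotX z) := (rotX_cont z).measurable
  have hae' : ∀ᵐ x ∂P, J0 (rotX z x) = J1 (rotX z x) := by
    have h1 : ∀ᵐ x ∂(P.map (rotX z)), J0 x = J1 x := by rw [hinv]; exact hae
    exact ae_of_ae_map hRm.aemeasurable h1
  have h1 := LF.rot_le hfin (W := W) (J := J1) (φ := ψ) (R := rotX z) (n := fun x => ‖x.2.2‖ / ρ) (CW := 1) (K := K)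
    (θ := ‖z - 1‖) (B := B + 1) (e1 := e1) (e2 := e2) (m := m) hRm hinv hW.measurable hW0 hW1 hWR hJ1m
    (fun x => by rw [hJ1d]; exact clamp1_abs _) hψc.measurable p2 hn.measurable K.coe_nonneg (norm_nonneg _) (by linarith)
    (by
      refine le_trans (le_of_eq (integral_congr_ae ?_)) d1
      filter_upwards [hae] with x hx
      rw [hx]) d2 d3 d4
  refine le_trans (le_of_eq (integral_congr_ae ?_)) h1
  filter_upwards [hae, hae'] with x x1 x2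
  rw [x1, x2]

end Pool.Agent.ROT.F3
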