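import Pool.Agent.ROT.F3SysV

/-!
# ROT, F3 (B), row C0At (helper86): the cut-off of the window

`wc l1 l2 dl ρ` : continuous, invariant under rotations, `= 1` if `x.1 ∈ [l1, l2] ρ ^ (4 / 3)` and `dl x.1 ≤ x.2.1 ≤ (1 - dl) x.1`,
`= 0` unless `x.1 ∈ [l1 / 2, 2 l2] ρ ^ (4 / 3)` and `dl / 2 x.1 ≤ x.2.1 ≤ (1 - dl / 2) x.1`.
-/

set_option autoImplicit false

open MeasureTheory Filter Topology Set

namespace Pool.Agent.ROT.F3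

/-- the clamp -/
noncomputable def cu (t : ℝ) : ℝ := max 0 (min 1 t)

lemma cu_nn (t : ℝ) : 0 ≤ cu t := le_max_left _ _

lemma cu_le (t : ℝ) : cu t ≤ 1 := max_le zero_le_one (min_le_left _ _)

lemma cu_one {t : ℝ} (h : 1 ≤ t) : cu t = 1 := by
  unfold cu
  rw [min_eq_left h, max_eq_right zero_le_one]

lemma cu_pos {t : ℝ} (h : 0 < cu t) : 0 < t := by
  unfold cu at h
  rcases lt_max_iff.1 h with h | h
  · exact absurd h (lt_irrefl _)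
  · exact (lt_min_iff.1 h).2

lemma cu_cont : Continuous cu := by
  unfold cu
  fun_prop

/-- **the cut-off of the window** -/
noncomputable def wc (l1 l2 dl ρ : ℝ) (x : ℝ × ℝ × C(unitInterval, ℂ)) : ℝ :=
  cu ((x.1 / ρ ^ (4 / 3 : ℝ) - l1 / 2) / (l1 / 2)) * cu ((2 * l2 - x.1 / ρ ^ (4 / 3 : ℝ)) / l2) *
    (cu ((x.2.1 / ρ ^ (4 / 3 : ℝ) - dl / 2 * (x.1 / ρ ^ (4 / 3 : ℝ))) / (dl / 2 * l1)) *
      cu (((1 - dl / 2) * (x.1 / ρ ^ (4 / 3 : ℝ)) - x.2.1 / ρ ^ (4 / 3 : ℝ)) / (dl / 2 * l1)))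

variable {l1 l2 dl ρ : ℝ}

lemma wc_nn (x : ℝ × ℝ × C(unitInterval, ℂ)) : 0 ≤ wc l1 l2 dl ρ x :=
  mul_nonneg (mul_nonneg (cu_nn _) (cu_nn _)) (mul_nonneg (cu_nn _) (cu_nn _))

lemma wc_le (x : ℝ × ℝ × C(unitInterval, ℂ)) : wc l1 l2 dl ρ x ≤ 1 :=
  mul_le_one₀ (mul_le_one₀ (cu_le _) (cu_nn _) (cu_le _)) (mul_nonneg (cu_nn _) (cu_nn _)) (mul_le_one₀ (cu_le _) (cu_nn _) (cu_le _))

lemma wc_cont : Continuous (wc l1 l2 dl ρ) := by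
  unfold wc
  have h := cu_cont
  fun_prop

lemma wc_rot (z : ℂ) (x : ℝ × ℝ × C(unitInterval, ℂ)) : wc l1 l2 dl ρ (rotX z x) = wc l1 l2 dl ρ x := rfl

/-- the data of the window -/
structure InW (l1 l2 dl ρ : ℝ) (x : ℝ × ℝ × C(unitInterval, ℂ)) : Prop where
  lo : l1 * ρ ^ (4 / 3 : ℝ) ≤ x.1
  hi : x.1 ≤ l2 * ρ ^ (4 / 3 : ℝ)
  mlo : dl * x.1 ≤ x.2.1
  mhi : x.2.1 ≤ (1 - dl) * x.1

/-- `1` in the window -/
theorem wc_one (hl1 : 0 < l1) (hl2 : 0 < l2) (hd : 0 < dl) (hρ : 0 < ρ) {x : ℝ × ℝ × C(unitInterval, ℂ)} (h : InW l1 l2 dl ρ x) :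
    wc l1 l2 dl ρ x = 1 := by
  have hp : 0 < ρ ^ (4 / 3 : ℝ) := Real.rpow_pos_of_pos hρ _
  have h1 : l1 ≤ x.1 / ρ ^ (4 / 3 : ℝ) := (le_div_iff₀ hp).2 h.lo
  have h2 : x.1 / ρ ^ (4 / 3 : ℝ) ≤ l2 := (div_le_iff₀ hp).2 h.hi
  have h3 : dl * (x.1 / ρ ^ (4 / 3 : ℝ)) ≤ x.2.1 / ρ ^ (4 / 3 : ℝ) := by
    rw [← mul_div_assoc]
    exact div_le_div_of_nonneg_right h.mlo hp.le
  have h4 : x.2.1 / ρ ^ (4 / 3 : ℝ) ≤ (1 - dl) * (x.1 / ρ ^ (4 / 3 : ℝ)) := by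
    rw [← mul_div_assoc]
    exact div_le_div_of_nonneg_right h.mhi hp.le
  unfold wc
  rw [cu_one ((le_div_iff₀ (by positivity)).2 (by linarith)), cu_one ((le_div_iff₀ hl2).2 (by linarith)),
    cu_one ((le_div_iff₀ (by positivity)).2 (by nlinarith)), cu_one ((le_div_iff₀ (by positivity)).2 (by nlinarith))]
  norm_num

/-- the wider window, if it is positive -/
theorem wc_pos (hl1 : 0 < l1) (hl2 : 0 < l2) (hd : 0 < dl) (hρ : 0 < ρ) {x : ℝ × ℝ × C(unitInterval, ℂ)}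
    (h : 0 < wc l1 l2 dl ρ x) : InW (l1 / 2) (2 * l2) (dl / 2) ρ x := by
  have hp : 0 < ρ ^ (4 / 3 : ℝ) := Real.rpow_pos_of_pos hρ _
  have pos : ∀ a b : ℝ, 0 ≤ a → 0 ≤ b → 0 < a * b → 0 < a ∧ 0 < b := fun a b ha hb hab =>
    ⟨ha.lt_of_ne fun h => by rw [← h, zero_mul] at hab; exact lt_irrefl _ hab,
      hb.lt_of_ne fun h => by rw [← h, mul_zero] at hab; exact lt_irrefl _ hab⟩
  unfold wc at h
  obtain ⟨h12, h34⟩ := pos _ _ (mul_nonneg (cu_nn _) (cu_nn _)) (mul_nonneg (cu_nn _) (cu_nn _)) h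
  obtain ⟨h1, h2⟩ := pos _ _ (cu_nn _) (cu_nn _) h12
  obtain ⟨h3, h4⟩ := pos _ _ (cu_nn _) (cu_nn _) h34
  have k1 := (div_pos_iff_of_pos_right (by positivity)).1 (cu_pos h1)
  have k2 := (div_pos_iff_of_pos_right hl2).1 (cu_pos h2)
  have k3 := (div_pos_iff_of_pos_right (by positivity)).1 (cu_pos h3)
  have k4 := (div_pos_iff_of_pos_right (by positivity)).1 (cu_pos h4)
  refine ⟨(le_div_iff₀ hp).1 (by linarith), (div_le_iff₀ hp).1 (by linarith), ?_, ?_⟩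
  · have : dl / 2 * (x.1 / ρ ^ (4 / 3 : ℝ)) ≤ x.2.1 / ρ ^ (4 / 3 : ℝ) := by linarith
    rw [← mul_div_assoc] at this
    exact (div_le_div_iff_of_pos_right hp).1 this
  · have : x.2.1 / ρ ^ (4 / 3 : ℝ) ≤ (1 - dl / 2) * (x.1 / ρ ^ (4 / 3 : ℝ)) := by linarith
    rw [← mul_div_assoc] at this
    exact (div_le_div_iff_of_pos_right hp).1 this

lemma InW.pos (hl1 : 0 < l1) (hρ : 0 < ρ) {x : ℝ × ℝ × C(unitInterval, ℂ)} (h : InW l1 l2 dl ρ x) : 0 < x.1 :=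
  lt_of_lt_of_le (mul_pos hl1 (Real.rpow_pos_of_pos hρ _)) h.lo

lemma InW.mono {a1 a2 a3 : ℝ} (hρ : 0 < ρ) (ha1 : a1 ≤ l1) (ha2 : l2 ≤ a2) (ha3 : a3 ≤ dl) {x : ℝ × ℝ × C(unitInterval, ℂ)}
    (h : InW l1 l2 dl ρ x) (hx : 0 ≤ x.1) : InW a1 a2 a3 ρ x := by
  have hp : 0 < ρ ^ (4 / 3 : ℝ) := Real.rpow_pos_of_pos hρ _
  exact ⟨(mul_le_mul_of_nonneg_right ha1 hp.le).trans h.lo, h.hi.trans (mul_le_mul_of_nonneg_right ha2 hp.le),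
    (mul_le_mul_of_nonneg_right ha3 hx).trans h.mlo, h.mhi.trans (mul_le_mul_of_nonneg_right (by linarith) hx)⟩

/-- the window of the words -/
lemma inW_cN {N : ℕ} (hN : 1 ≤ N) (hρ : 0 < ρ) {x : W3 × ℕ} : InW l1 l2 dl ρ (cN N x) ↔ l1 * (ρ * N) ^ (4 / 3 : ℝ) ≤ x.1.length ∧
    (x.1.length : ℝ) ≤ l2 * (ρ * N) ^ (4 / 3 : ℝ) ∧ dl * x.1.length ≤ x.2 ∧ (x.2 : ℝ) ≤ (1 - dl) * x.1.length := by
  have hN0 : (0 : ℝ) < N := by exact_mod_cast hN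
  have hX : (0 : ℝ) < (N : ℝ) ^ (4 / 3 : ℝ) := by positivity
  have e : (ρ * N) ^ (4 / 3 : ℝ) = ρ ^ (4 / 3 : ℝ) * (N : ℝ) ^ (4 / 3 : ℝ) := Real.mul_rpow hρ.le hN0.le
  have c1 : (cN N x).1 = (x.1.length : ℝ) / (N : ℝ) ^ (4 / 3 : ℝ) := rfl
  have c2 : (cN N x).2.1 = (x.2 : ℝ) / (N : ℝ) ^ (4 / 3 : ℝ) := rfl
  rw [e]
  constructor
  · rintro ⟨h1, h2, h3, h4⟩
    rw [c1, le_div_iff₀ hX] at h1
    rw [c1, div_le_iff₀ hX] at h2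
    rw [c1, c2, ← mul_div_assoc] at h3 h4
    rw [div_le_div_iff_of_pos_right hX] at h3 h4
    exact ⟨by rw [← mul_assoc]; exact h1, by rw [← mul_assoc]; exact h2, h3, h4⟩
  · rintro ⟨h1, h2, h3, h4⟩
    rw [← mul_assoc] at h1 h2
    refine ⟨?_, ?_, ?_, ?_⟩
    · rw [c1, le_div_iff₀ hX]
      exact h1
    · rw [c1, div_le_iff₀ hX]
      exact h2
    · rw [c1, c2, ← mul_div_assoc]
      exact div_le_div_of_nonneg_right h3 hX.le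
    · rw [c1, c2, ← mul_div_assoc]
      exact div_le_div_of_nonneg_right h4 hX.le

end Pool.Agent.ROT.F3
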