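import Pool.Agent.ROT.F3C0L
import Pool.Agent.ROT.F3C0W
import Pool.Agent.ROT.F3C0R

/-!
# ROT, block F3, row C0At (helper3): small rotations of the products of the functionals of the arcs, uniformly in the scale

`ρ` = the scale, `S = ρ N` = the unit of length, `wc l1 l2 dl ρ` = the cut-off of the window (helper86).
* `cUn_scX` : the unit `ρ N`; `int_wc` : the weight against the window; `win_tail` : the tails of the closed curves in the window, every unit;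
* `l1a_win`, **`lm_win`** : the products over the arcs in the unit `ρ N`, cut off at the window, have a limit functional, for every choice
  `a : ℕ → α` which follows the filter of `ArcJ`;
* **`rot_small`** : the limit functional is close to its rotation: the angle depends on `e`, on the window and on the family only, not on
  the scale `ρ`, on `b`, on the ultrafilter and on the choice `a`; **`rot_smallN`** : the form with numbers `M N`.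
-/

set_option autoImplicit false

open Filter MeasureTheory Topology Set

open scoped NNReal BoundedContinuousFunction ENNReal

namespace Pool.Agent.ROT.F3

open Pool.Agent.NTS.Res (step pos saw fug size curve)
open Pool.Agent.PMA.Res (pol pmean)
open Pool.Agent.PMA (plaw tightP LT.plaw_apply)
open Pool.Agent.ROT.F (QB sN sN_curve crv_dist)

variable {α : Type*}

/-! ### the unit `ρ N` -/

lemma cUn_scX {ρ : ℝ} (hρ : 0 < ρ) (N : ℕ) (x : W3 × ℕ) : cUn (ρ * N) x = scX ρ (cN N x) := by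
  have e : (ρ * N) ^ (4 / 3 : ℝ) = (N : ℝ) ^ (4 / 3 : ℝ) * ρ ^ (4 / 3 : ℝ) := by
    rw [Real.mul_rpow hρ.le (Nat.cast_nonneg N), mul_comm]
  have e1 : crv x.1 x.1.length (ρ * N) = ((ρ⁻¹ : ℝ) : ℂ) • crv x.1 x.1.length N := by
    rw [crv_scale, Complex.ofReal_inv]
  unfold cUn scX cN
  simp only
  rw [e, e1, div_div, div_div]

lemma norm_cN {ρ : ℝ} (hρ : 0 < ρ) (N : ℕ) (x : W3 × ℕ) : ‖(cN N x).2.2‖ / ρ = ‖crv x.1 x.1.length (ρ * N)‖ := by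
  have e1 : crv x.1 x.1.length (ρ * N) = ((ρ⁻¹ : ℝ) : ℂ) • crv x.1 x.1.length N := by
    rw [crv_scale, Complex.ofReal_inv]
  rw [e1, norm_smul, Complex.norm_real, Real.norm_of_nonneg (inv_pos.2 hρ).le]
  show ‖crv x.1 x.1.length N‖ / ρ = _
  rw [div_eq_inv_mul]

lemma win_of_wc {l1 l2 dl ρ : ℝ} (hl1 : 0 < l1) (hl2 : 0 < l2) (hd : 0 < dl) (hρ : 0 < ρ) {N : ℕ} (hN : 1 ≤ N) {x : W3 × ℕ}
    (h : 0 < wc l1 l2 dl ρ (cN N x)) : x ∈ WdL (l1 / 2) (2 * l2) (dl / 2) (ρ * N) :=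
  (inW_cN hN hρ).1 (wc_pos hl1 hl2 hd hρ h)

lemma mwE_itg (N : ℕ) (b : ℝ) (f : W3 × ℕ → ℝ) : Integrable f (mwE N b) := (mw_integrable f).mono_measure (mwE_le N b)

/-- the weight against the window -/
lemma int_wc {l1 l2 dl ρ b : ℝ} (hl1 : 0 < l1) (hl2 : 0 < l2) (hd : 0 < dl) (hρ : 0 < ρ) {N : ℕ} (hN : 1 ≤ N) {f : W3 × ℕ → ℝ}
    (hf : ∀ x, 0 ≤ f x) : ∫ x, wc l1 l2 dl ρ (cN N x) * f x ∂(mwE N b) ≤
      ∫ x in WdL (l1 / 2) (2 * l2) (dl / 2) (ρ * N), f x ∂(mwE N b) := by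
  rw [← integral_indicator (MeasurableSet.of_discrete (s := WdL (l1 / 2) (2 * l2) (dl / 2) (ρ * N)))]
  refine integral_mono (mwE_itg _ _ _) (mwE_itg _ _ _) fun x => ?_
  show wc l1 l2 dl ρ (cN N x) * f x ≤ (WdL (l1 / 2) (2 * l2) (dl / 2) (ρ * N)).indicator f x
  rcases (wc_nn (l1 := l1) (l2 := l2) (dl := dl) (ρ := ρ) (cN N x)).lt_or_eq with h | h
  · rw [indicator_of_mem (win_of_wc hl1 hl2 hd hρ hN h)]
    exact mul_le_of_le_one_left (hf x) (wc_le _)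
  · rw [← h, zero_mul]
    exact indicator_nonneg (fun x _ => hf x) x

/-! ### the tails -/

lemma crv_nrm {n : ℕ} (hn : 1 ≤ n) (s : Fin n → Fin 3) {S : ℝ} (hS : 0 < S) :
    ‖crv (clw s) (n + 1) S‖ ≤ (size n * ‖curve s‖ + 5) / S := by
  have hs := NTSF.size_pos hn
  have h1 : crv (clw s) (n + 1) S = ((S : ℂ)⁻¹) • crv (clw s) (n + 1) 1 := by
    have := crv_scale (clw s) (n + 1) 1 (κ := S)
    rwa [mul_one] at this
  have h2 := crv_dist (w := clw s) (N := 1) hn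
  have h3 := sN_curve (N := 1) hn s
  rw [Nat.cast_one, div_one] at h2
  rw [Nat.cast_one] at h3
  have h4 : ‖crv (clw s) n 1‖ = size n * ‖curve s‖ := by
    rw [← h3]
    show ‖((size n / ((1 : ℕ) : ℝ) : ℝ)) • curve s‖ = _
    rw [norm_smul, Nat.cast_one, div_one, Real.norm_of_nonneg hs.le]
  have h5 : ‖crv (clw s) (n + 1) 1‖ ≤ size n * ‖curve s‖ + 5 := by
    have e : crv (clw s) (n + 1) 1 = crv (clw s) n 1 - (crv (clw s) n 1 - crv (clw s) (n + 1) 1) := by abel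
    rw [e]
    refine (norm_sub_le _ _).trans ?_
    rw [h4, ← dist_eq_norm]
    linarith
  rw [h1, norm_smul, norm_inv, Complex.norm_real, Real.norm_of_nonneg hS.le, div_eq_inv_mul]
  exact mul_le_mul_of_nonneg_left h5 (inv_pos.2 hS).le

/-- **the tails of the closed curves in the window, every unit** -/
theorem win_tail (hQ : QB) {l1 l2 dl : ℝ} (hl1 : 0 < l1) (hl2 : 0 < l2) : ∀ ε : ℝ, 0 < ε → ∃ B S0 : ℝ, 0 ≤ B ∧ 0 < S0 ∧
    ∀ S : ℝ, S0 ≤ S → ∀ (N : ℕ) (b : ℝ) (A : Set (W3 × ℕ)), 1 ≤ N → A ⊆ WdL l1 l2 dl S →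
      ∫ x in A, LF.bi (B < ‖crv x.1 x.1.length S‖) ∂(mwE N b) ≤ ε * (S / N) ^ (2 / 3 : ℝ) := by
  classical
  intro ε hε
  obtain ⟨C, hC, hwin⟩ := win_intL hQ
  have hsl : 0 < √l2 := Real.sqrt_pos.2 hl2
  obtain ⟨e, he⟩ : ∃ e : ℝ, e = ε / (C * √l2) := ⟨_, rfl⟩
  have he0 : 0 < e := by
    rw [he]
    positivity
  have heC : C * (e * √l2) = ε := by
    rw [he]
    field_simp
  obtain ⟨c1, C1, -, hC1, hsz⟩ := F.size_bd
  obtain ⟨n0, ht⟩ := tightP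
  obtain ⟨K, hK, hKn⟩ := isTightMeasureSet_iff_exists_isCompact_measure_compl_le.1 ht (ENNReal.ofReal e) (by positivity)
  obtain ⟨R, hR⟩ := hK.isBounded.subset_closedBall (0 : C(unitInterval, ℂ))
  have hR' : ∀ γ ∈ K, ‖γ‖ ≤ |R| := fun γ hγ => by
    have := hR hγ
    rw [mem_closedBall_zero_iff] at this
    exact this.trans (le_abs_self R)
  obtain ⟨D, hD⟩ : ∃ D : ℝ, D = C1 * l2 ^ (3 / 4 : ℝ) := ⟨_, rfl⟩
  have hD0 : 0 < D := by
    rw [hD]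
    positivity
  obtain ⟨S0, hS0⟩ : ∃ S0 : ℝ, S0 = (((n0 : ℝ) + 2) / l1) ^ (3 / 4 : ℝ) := ⟨_, rfl⟩
  have hS00 : 0 < S0 := by
    rw [hS0]
    positivity
  refine ⟨D * |R| + 5, S0 + 1, by positivity, by positivity, fun S hS N b A hN hA => ?_⟩
  have hS1 : 1 ≤ S := by linarith
  have hSp : 0 < S := by linarith
  have hY : ((n0 : ℝ) + 2) / l1 ≤ S ^ (4 / 3 : ℝ) := by
    have h4 := Real.rpow_le_rpow hS00.le (show S0 ≤ S by linarith) (show (0 : ℝ) ≤ 4 / 3 by norm_num)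
    rw [hS0, ← Real.rpow_mul (by positivity)] at h4
    norm_num at h4
    exact h4
  rw [div_le_iff₀ hl1] at hY
  have hS34 : (S ^ (4 / 3 : ℝ)) ^ (3 / 4 : ℝ) = S := by
    rw [← Real.rpow_mul hSp.le]
    norm_num
  obtain ⟨Y, hYe⟩ : ∃ Y : ℝ, Y = S ^ (4 / 3 : ℝ) := ⟨_, rfl⟩
  rw [← hYe] at hY hS34
  have hY0 : 0 < Y := by
    rw [hYe]
    positivity
  have h4 := hwin N b l1 l2 dl S e A (fun x => LF.bi (D * |R| + 5 < ‖crv x.1 x.1.length S‖)) hN hl2 hSp he0.le hA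
    (fun x => LF.bi_nonneg _) (by
      intro n m hn _ a1 a2 _ _
      rw [← hYe] at a1 a2
      have hn0r : (n0 : ℝ) + 1 ≤ n := by linarith
      have hn0 : n0 ≤ n := by
        have : (n0 : ℝ) ≤ n := by linarith
        exact_mod_cast this
      have hn1 : 1 ≤ n := by
        have h0 : (0 : ℝ) ≤ n0 := Nat.cast_nonneg n0
        have : (1 : ℝ) ≤ n := by linarith
        exact_mod_cast this
      have h3 := hKn _ ⟨n, hn0, hn, rfl⟩
      rw [LT.plaw_apply] at h3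
      have h4' := (ENNReal.ofReal_le_ofReal_iff he0.le).1 h3
      unfold pmean at h4'
      have h5 : size n ≤ D * S := by
        have h6 : (n : ℝ) ≤ l2 * Y := by linarith
        have h7 := Real.rpow_le_rpow (Nat.cast_nonneg n) h6 (show (0 : ℝ) ≤ 3 / 4 by norm_num)
        rw [Real.mul_rpow hl2.le hY0.le, hS34] at h7
        calc size n ≤ C1 * (n : ℝ) ^ (3 / 4 : ℝ) := (hsz n hn1).2
          _ ≤ C1 * (l2 ^ (3 / 4 : ℝ) * S) := mul_le_mul_of_nonneg_left h7 hC1.le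
          _ = D * S := by rw [hD]; ring
      have h8 : ∀ s : Fin n → Fin 3, curve s ∈ K → ‖crv (clw s) (n + 1) S‖ ≤ D * |R| + 5 := by
        intro s hs
        refine (crv_nrm hn1 s hSp).trans ?_
        rw [div_le_iff₀ hSp]
        have h9 : size n * ‖curve s‖ ≤ D * S * |R| :=
          mul_le_mul h5 (hR' _ hs) (norm_nonneg _) (by positivity)
        nlinarith
      have h10 : ∑ s ∈ pol n, LF.bi (D * |R| + 5 < ‖crv (clw s) (clw s).length S‖) ≤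
          ∑ s ∈ pol n, (if curve s ∈ Kᶜ then (1 : ℝ) else 0) := by
        refine Finset.sum_le_sum fun s _ => ?_
        rw [length_clw]
        by_cases h6 : curve s ∈ K
        · rw [LF.bi_neg (not_lt.2 (h8 s h6))]
          split_ifs <;> norm_num
        · rw [if_pos (show curve s ∈ Kᶜ from h6)]
          exact LF.bi_le _
      refine h10.trans ?_
      have h4 : (∑ s ∈ pol n, (if curve s ∈ Kᶜ then (1 : ℝ) else 0)) / (pol n).card ≤ e := by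
        refine le_trans (le_of_eq ?_) h4'
        congr 1
        refine Finset.sum_congr rfl fun s _ => ?_
        by_cases h6 : curve s ∈ Kᶜ
        · simp only [if_pos h6]
        · simp only [if_neg h6]
      rcases (Nat.cast_nonneg (α := ℝ) (pol n).card).lt_or_eq with h6 | h6
      · exact (div_le_iff₀ h6).1 h4
      · have h7 : (pol n).card = 0 := by exact_mod_cast h6.symm
        rw [Finset.card_eq_zero.1 h7]
        simp)
  rw [heC] at h4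
  exact h4

/-! ### the limit functional -/

section lim

variable {ι : Type*} (J : Finset ι) (k : ι → Arm) {l : Filter α} {G : ι → α → ℝ → W3 → ℝ}

/-- the product over the arcs in the unit `ρ N`, cut off at the window -/
noncomputable def pwc (G : ι → α → ℝ → W3 → ℝ) (l1 l2 dl ρ : ℝ) (a : ℕ → α) (N : ℕ) (x : W3 × ℕ) : ℝ :=
  wc l1 l2 dl ρ (cN N x) * ∏ i ∈ J, G i (a N) (ρ * N) (arcw x.2 (k i) x.1)

lemma wc_zero {l1 l2 dl ρ : ℝ} (hl1 : 0 < l1) (x : W3 × ℕ) : wc l1 l2 dl ρ (cN 0 x) = 0 := by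
  have e : (cN 0 x).1 = 0 := by
    show (x.1.length : ℝ) / ((0 : ℕ) : ℝ) ^ (4 / 3 : ℝ) = 0
    rw [Nat.cast_zero, Real.zero_rpow (by norm_num), div_zero]
  have h : cu (((cN 0 x).1 / ρ ^ (4 / 3 : ℝ) - l1 / 2) / (l1 / 2)) = 0 := by
    refine le_antisymm ?_ (cu_nn _)
    by_contra hc
    have h1 := cu_pos (not_le.1 hc)
    rw [e, zero_div, zero_sub, neg_div, div_self (by positivity)] at h1
    linarith
  unfold wc
  rw [h, zero_mul, zero_mul]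

lemma pwc_le (hG : ∀ i ∈ J, ∀ (a : α) (S : ℝ), 0 < S → ∀ w, |G i a S w| ≤ 1) {l1 l2 dl ρ : ℝ} (hl1 : 0 < l1) (hρ : 0 < ρ)
    (a : ℕ → α) (N : ℕ) (x : W3 × ℕ) : |pwc J k G l1 l2 dl ρ a N x| ≤ 1 := by
  unfold pwc
  rcases Nat.eq_zero_or_pos N with rfl | hN
  · rw [wc_zero hl1, zero_mul, abs_zero]
    exact zero_le_one
  · have hS : 0 < ρ * N := mul_pos hρ (by exact_mod_cast hN)
    rw [abs_mul, abs_of_nonneg (wc_nn _), Finset.abs_prod]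
    exact mul_le_one₀ (wc_le _) (Finset.prod_nonneg fun i _ => abs_nonneg _)
      (Finset.prod_le_one (fun i _ => abs_nonneg _) fun i hi => hG i hi _ _ hS _)

/-- the approximation in the window, in the form of the weight -/
lemma app_wc (hQ : QB) (hG : ∀ i ∈ J, ∀ (a : α) (S : ℝ), 0 < S → ∀ w, |G i a S w| ≤ 1) (h : ∀ i ∈ J, ArcJ l (G i))
    {l1 l2 dl : ℝ} (hl1 : 0 < l1) (hl2 : 0 < l2) (hd : 0 < dl) {ε : ℝ} (hε : 0 < ε) : ∃ K : ℝ≥0, ∀ ρ : ℝ, 0 < ρ →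
      ∀ (U : Ultrafilter ℕ), (U : Filter ℕ) ≤ atTop → ∀ a : ℕ → α, Tendsto a U l → ∀ᶠ N in (U : Filter ℕ),
        ∃ Φ : ℝ × ℝ × C(unitInterval, ℂ) → ℝ, LipschitzWith K Φ ∧ (∀ x, |Φ x| ≤ 1) ∧ ∀ b : ℝ,
          ∫ x, wc l1 l2 dl ρ (cN N x) * |∏ i ∈ J, G i (a N) (ρ * N) (arcw x.2 (k i) x.1) - Φ (scX ρ (cN N x))| ∂(mwE N b) ≤
            ε * ρ ^ (2 / 3 : ℝ) := by
  obtain ⟨K, S0, hS0, h1⟩ := mac_winL hQ J k (Eventually.of_forall fun a i hi S hS w => hG i hi a S hS w) h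
    (show 0 < l1 / 2 by positivity) (show 0 < 2 * l2 by positivity) (show 0 < dl / 2 by positivity) ε hε
  refine ⟨K, fun ρ hρ U hU a ha => ?_⟩
  obtain ⟨N0, hN0⟩ := exists_nat_ge (S0 / ρ)
  filter_upwards [ha.eventually h1, hU (eventually_ge_atTop (N0 + 1))] with N hN1 hN2
  have hNp : (0 : ℝ) < N := by exact_mod_cast (by omega : 0 < N)
  have h2 : S0 ≤ ρ * N := by
    have h3 : S0 / ρ ≤ N := hN0.trans (by exact_mod_cast (by omega : N0 ≤ N))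
    rw [div_le_iff₀ hρ] at h3
    linarith
  obtain ⟨Φ, b1, b2, b3⟩ := hN1 (ρ * N) h2
  refine ⟨Φ, b1, b2, fun b => ?_⟩
  have h4 := b3 N b _ (by omega) Subset.rfl
  rw [mul_div_assoc, div_self hNp.ne', mul_one] at h4
  refine le_trans (int_wc hl1 hl2 hd hρ (by omega) fun x => abs_nonneg _) ?_
  refine le_trans (le_of_eq ?_) h4
  refine integral_congr_ae (Eventually.of_forall fun x => ?_)
  show |∏ i ∈ J, G i (a N) (ρ * N) (arcw x.2 (k i) x.1) - Φ (scX ρ (cN N x))| = _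
  rw [← cUn_scX hρ]

/-- **macroscopic** -/
theorem l1a_win (hQ : QB) (hG : ∀ i ∈ J, ∀ (a : α) (S : ℝ), 0 < S → ∀ w, |G i a S w| ≤ 1) (h : ∀ i ∈ J, ArcJ l (G i))
    {l1 l2 dl : ℝ} (hl1 : 0 < l1) (hl2 : 0 < l2) (hd : 0 < dl) {ρ b : ℝ} (hρ : 0 < ρ) (hb : 0 ≤ b) (U : Ultrafilter ℕ)
    (hU : (U : Filter ℕ) ≤ atTop) {a : ℕ → α} (ha : Tendsto a U l) :
    LF.L1A (U : Filter ℕ) (fun N => mwE N b) cN (pwc J k G l1 l2 dl ρ a) := by
  refine ⟨fun _ => Measurable.of_discrete, ⟨1, fun N x => pwc_le J k hG hl1 hρ a N x⟩, fun ε hε => ?_⟩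
  have hp : 0 < ρ ^ (2 / 3 : ℝ) := by positivity
  obtain ⟨K, hK⟩ := app_wc J k hQ hG h hl1 hl2 hd (ε := ε / 2 / ρ ^ (2 / 3 : ℝ)) (by positivity)
  have h1 := hK ρ hρ U hU a ha
  have e0 : ε / 2 / ρ ^ (2 / 3 : ℝ) * ρ ^ (2 / 3 : ℝ) = ε / 2 := by field_simp
  rw [e0] at h1
  -- the functionals
  have hex : ∀ N : ℕ, ∃ Φ : ℝ × ℝ × C(unitInterval, ℂ) → ℝ, LipschitzWith K Φ ∧ (∀ x, |Φ x| ≤ 1) ∧
      ((∃ Φ' : ℝ × ℝ × C(unitInterval, ℂ) → ℝ, LipschitzWith K Φ' ∧ (∀ x, |Φ' x| ≤ 1) ∧ ∀ b : ℝ,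
        ∫ x, wc l1 l2 dl ρ (cN N x) * |∏ i ∈ J, G i (a N) (ρ * N) (arcw x.2 (k i) x.1) - Φ' (scX ρ (cN N x))| ∂(mwE N b) ≤ ε / 2) →
        ∫ x, wc l1 l2 dl ρ (cN N x) * |∏ i ∈ J, G i (a N) (ρ * N) (arcw x.2 (k i) x.1) - Φ (scX ρ (cN N x))| ∂(mwE N b) ≤ ε / 2) := by
    intro N
    by_cases hc : ∃ Φ' : ℝ × ℝ × C(unitInterval, ℂ) → ℝ, LipschitzWith K Φ' ∧ (∀ x, |Φ' x| ≤ 1) ∧ ∀ b : ℝ,
        ∫ x, wc l1 l2 dl ρ (cN N x) * |∏ i ∈ J, G i (a N) (ρ * N) (arcw x.2 (k i) x.1) - Φ' (scX ρ (cN N x))| ∂(mwE N b) ≤ ε / 2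
    · obtain ⟨Φ', c1, c2, c3⟩ := hc
      exact ⟨Φ', c1, c2, fun _ => c3 b⟩
    · exact ⟨fun _ => 0, LipschitzWith.const' 0, fun _ => by simp, fun hc' => absurd hc' hc⟩
  choose Φ c1 c2 c3 using hex
  obtain ⟨C, hsc⟩ := scX_lip hρ
  obtain ⟨ψ, d1, d2, -, d3⟩ := mwE_sel hQ hb U hU (fun N y => Φ N (scX ρ y)) (fun N => (c1 N).comp hsc) fun N x => c2 N _
  have hψc : Continuous ψ := d1.continuous
  have hφ : Continuous fun y => wc l1 l2 dl ρ y * ψ y := wc_cont.mul hψc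
  refine ⟨BoundedContinuousFunction.ofNormedAddCommGroup _ hφ 1 fun x => ?_, ?_⟩
  · rw [Real.norm_eq_abs, abs_mul, abs_of_nonneg (wc_nn _)]
    exact mul_le_one₀ (wc_le _) (abs_nonneg _) (d2 x)
  filter_upwards [h1, d3 (ε / 2) (by positivity)] with N e1 e2
  have e3 := c3 N e1
  show ∫ x, |pwc J k G l1 l2 dl ρ a N x - wc l1 l2 dl ρ (cN N x) * ψ (cN N x)| ∂(mwE N b) ≤ ε
  have e4 : ∫ x, |pwc J k G l1 l2 dl ρ a N x - wc l1 l2 dl ρ (cN N x) * ψ (cN N x)| ∂(mwE N b) ≤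
      ∫ x, (wc l1 l2 dl ρ (cN N x) * |∏ i ∈ J, G i (a N) (ρ * N) (arcw x.2 (k i) x.1) - Φ N (scX ρ (cN N x))| +
        |Φ N (scX ρ (cN N x)) - ψ (cN N x)|) ∂(mwE N b) := by
    refine integral_mono (mwE_itg _ _ _) (mwE_itg _ _ _) fun x => ?_
    show |wc l1 l2 dl ρ (cN N x) * ∏ i ∈ J, G i (a N) (ρ * N) (arcw x.2 (k i) x.1) - wc l1 l2 dl ρ (cN N x) * ψ (cN N x)| ≤ _
    rw [← mul_sub, abs_mul, abs_of_nonneg (wc_nn _)]
    have g1 := abs_sub_le (∏ i ∈ J, G i (a N) (ρ * N) (arcw x.2 (k i) x.1)) (Φ N (scX ρ (cN N x))) (ψ (cN N x))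
    have g2 := mul_le_mul_of_nonneg_left g1 (wc_nn (l1 := l1) (l2 := l2) (dl := dl) (ρ := ρ) (cN N x))
    have g3 := mul_le_of_le_one_left (abs_nonneg (Φ N (scX ρ (cN N x)) - ψ (cN N x))) (wc_le (l1 := l1) (l2 := l2) (dl := dl)
      (ρ := ρ) (cN N x))
    rw [mul_add] at g2
    show _ ≤ wc l1 l2 dl ρ (cN N x) * |∏ i ∈ J, G i (a N) (ρ * N) (arcw x.2 (k i) x.1) - Φ N (scX ρ (cN N x))| +
      |Φ N (scX ρ (cN N x)) - ψ (cN N x)|
    linarith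
  rw [integral_add (mwE_itg _ _ _) (mwE_itg _ _ _)] at e4
  linarith

/-- **the limit functional** -/
theorem lm_win (hQ : QB) (hG : ∀ i ∈ J, ∀ (a : α) (S : ℝ), 0 < S → ∀ w, |G i a S w| ≤ 1) (h : ∀ i ∈ J, ArcJ l (G i))
    {l1 l2 dl : ℝ} (hl1 : 0 < l1) (hl2 : 0 < l2) (hd : 0 < dl) {ρ b : ℝ} (hρ : 0 < ρ) (hb : 0 ≤ b) (U : Ultrafilter ℕ)
    (hU : (U : Filter ℕ) ≤ atTop) {a : ℕ → α} (ha : Tendsto a U l) {P : Measure (ℝ × ℝ × C(unitInterval, ℂ))}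
    (hC : LF.Cv (U : Filter ℕ) (fun N => mwE N b) cN P) :
    ∃ J0, LF.Lm (U : Filter ℕ) (fun N => mwE N b) cN P (pwc J k G l1 l2 dl ρ a) J0 :=
  (l1a_win J k hQ hG h hl1 hl2 hd hρ hb U hU ha).lim hC

/-- **small rotations, uniformly in the scale** -/
theorem rot_small (hQ : QB) (hG : ∀ i ∈ J, ∀ (a : α) (S : ℝ), 0 < S → ∀ w, |G i a S w| ≤ 1) (h : ∀ i ∈ J, ArcJ l (G i))
    {l1 l2 dl : ℝ} (hl1 : 0 < l1) (hl2 : 0 < l2) (hd : 0 < dl) : ∀ e : ℝ, 0 < e → ∃ φ0 : ℝ, 0 < φ0 ∧ ∀ z : ℂ, ‖z - 1‖ ≤ φ0 →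
      ∀ (ρ b : ℝ), 0 < ρ → 0 ≤ b → ∀ (U : Ultrafilter ℕ), (U : Filter ℕ) ≤ atTop → ∀ P : Measure (ℝ × ℝ × C(unitInterval, ℂ)),
        LF.Cv (U : Filter ℕ) (fun N => mwE N b) cN P → P.map (rotX z) = P → ∀ a : ℕ → α, Tendsto a U l →
          ∀ J0 : ℝ × ℝ × C(unitInterval, ℂ) → ℝ,
            LF.Lm (U : Filter ℕ) (fun N => mwE N b) cN P (pwc J k G (l1 / 2) (2 * l2) (dl / 2) ρ a) J0 →
              ∫ x, wc l1 l2 dl ρ x * |J0 (rotX z x) - J0 x| ∂P ≤ e * ρ ^ (2 / 3 : ℝ) := by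
  intro e he
  obtain ⟨K, hK⟩ := app_wc J k hQ hG h hl1 hl2 hd (ε := e / 8) (by positivity)
  obtain ⟨B, S0, hB, hS0, htail⟩ := win_tail (dl := dl / 2) hQ (show 0 < l1 / 2 by positivity) (show 0 < 2 * l2 by positivity) (e / 8)
    (by positivity)
  obtain ⟨C, hC, hmass⟩ := win_massL hQ
  obtain ⟨m, hm⟩ : ∃ m : ℝ, m = C * √(2 * l2) := ⟨_, rfl⟩
  have hm0 : 0 < m := by
    rw [hm]
    positivity
  have hK0 : (0 : ℝ) ≤ K := K.coe_nonneg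
  refine ⟨e / (4 * ((K + 1) * (B + 1) * m)), by positivity, fun z hz ρ b hρ hb U hU P hCv hinv a ha J0 hJ0 => ?_⟩
  have hp : 0 < ρ ^ (2 / 3 : ℝ) := by positivity
  obtain ⟨N0, hN0⟩ := exists_nat_ge (S0 / ρ)
  have hSN : ∀ N : ℕ, N0 + 1 ≤ N → S0 ≤ ρ * N ∧ 1 ≤ N ∧ (0 : ℝ) < N := by
    intro N hN
    refine ⟨?_, by omega, by exact_mod_cast (by omega : 0 < N)⟩
    have h3 : S0 / ρ ≤ N := hN0.trans (by exact_mod_cast (by omega : N0 ≤ N))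
    rw [div_le_iff₀ hρ] at h3
    linarith
  have h1 := rot_unif hQ hb hU hCv hinv hJ0 (fun N x => pwc_le J k hG (by positivity) hρ a N x) hρ
    (W := wc l1 l2 dl ρ) wc_cont wc_nn wc_le (wc_rot z) (K := K) (e1 := e / 8 * ρ ^ (2 / 3 : ℝ)) (e2 := e / 8 * ρ ^ (2 / 3 : ℝ))
    (B := B) (m := m * ρ ^ (2 / 3 : ℝ)) hB (by
      filter_upwards [hK ρ hρ U hU a ha, hU (eventually_ge_atTop 1)] with N hN hN1
      obtain ⟨Φ, b1, b2, b3⟩ := hN
      refine ⟨Φ, b1, b2, le_trans (le_of_eq (integral_congr_ae (Eventually.of_forall fun x => ?_))) (b3 b)⟩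
      show wc l1 l2 dl ρ (cN N x) * |pwc J k G (l1 / 2) (2 * l2) (dl / 2) ρ a N x - Φ (scX ρ (cN N x))| = _
      rcases (wc_nn (l1 := l1) (l2 := l2) (dl := dl) (ρ := ρ) (cN N x)).lt_or_eq with h2 | h2
      · unfold pwc
        rw [wc_one (show 0 < l1 / 2 by positivity) (show 0 < 2 * l2 by positivity) (show 0 < dl / 2 by positivity) hρ
          (wc_pos hl1 hl2 hd hρ h2), one_mul]
      · rw [← h2, zero_mul, zero_mul]) (by
      filter_upwards [hU (eventually_ge_atTop (N0 + 1))] with N hN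
      obtain ⟨s1, s2, s3⟩ := hSN N hN
      have h2 := htail (ρ * N) s1 N b _ s2 Subset.rfl
      rw [mul_div_assoc, div_self s3.ne', mul_one] at h2
      refine le_trans (le_of_eq (integral_congr_ae (Eventually.of_forall fun x => ?_)))
        ((int_wc (b := b) hl1 hl2 hd hρ s2 fun x => LF.bi_nonneg _).trans h2)
      show wc l1 l2 dl ρ (cN N x) * LF.bi (B < ‖(cN N x).2.2‖ / ρ) = _
      rw [norm_cN hρ]) (by
      filter_upwards [hU (eventually_ge_atTop (N0 + 1))] with N hN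
      obtain ⟨s1, s2, s3⟩ := hSN N hN
      have h2 := hmass N b (l1 / 2) (2 * l2) (dl / 2) (ρ * N) _ s2 (by positivity) (by positivity) Subset.rfl
      rw [mul_div_assoc, div_self s3.ne', mul_one] at h2
      have h3 := int_wc (b := b) hl1 hl2 hd hρ s2 (f := fun _ => 1) fun x => zero_le_one
      rw [setIntegral_const, smul_eq_mul, mul_one] at h3
      simp only [mul_one] at h3
      rw [hm]
      exact h3.trans h2)
  refine h1.trans ?_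
  have h2 : K * (‖z - 1‖ * (B + 1)) * (m * ρ ^ (2 / 3 : ℝ)) ≤ e / 4 * ρ ^ (2 / 3 : ℝ) := by
    have h3 : K * (‖z - 1‖ * (B + 1)) * m ≤ e / 4 := by
      have h4 : ‖z - 1‖ * (4 * ((K + 1) * (B + 1) * m)) ≤ e := (le_div_iff₀ (by positivity)).1 hz
      have h5 : K * (‖z - 1‖ * (B + 1)) * m ≤ (K + 1) * (‖z - 1‖ * (B + 1)) * m := by
        refine mul_le_mul_of_nonneg_right (mul_le_mul_of_nonneg_right (by linarith) ?_) hm0.le
        positivity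
      have h6 : ‖z - 1‖ * (4 * ((K + 1) * (B + 1) * m)) = 4 * ((K + 1) * (‖z - 1‖ * (B + 1)) * m) := by ring
      linarith
    calc K * (‖z - 1‖ * (B + 1)) * (m * ρ ^ (2 / 3 : ℝ)) = K * (‖z - 1‖ * (B + 1)) * m * ρ ^ (2 / 3 : ℝ) := by ring
      _ ≤ _ := mul_le_mul_of_nonneg_right h3 hp.le
  have h3 : 0 < e * ρ ^ (2 / 3 : ℝ) := by positivity
  have h4 : 2 * (e / 8 * ρ ^ (2 / 3 : ℝ)) + 2 * (e / 8 * ρ ^ (2 / 3 : ℝ)) + e / 4 * ρ ^ (2 / 3 : ℝ) = 3 / 4 * (e * ρ ^ (2 / 3 : ℝ)) := by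
    ring
  linarith

end lim

/-- **the form with numbers `M N`** -/
theorem rot_smallN (hQ : QB) {ι : Type*} (J : Finset ι) (k : ι → Arm) {G : ι → ℕ → ℝ → W3 → ℝ}
    (hG : ∀ i ∈ J, ∀ (M : ℕ) (S : ℝ), 0 < S → ∀ w, |G i M S w| ≤ 1) (h : ∀ i ∈ J, ArcJ atTop (G i))
    {l1 l2 dl : ℝ} (hl1 : 0 < l1) (hl2 : 0 < l2) (hd : 0 < dl) : ∀ e : ℝ, 0 < e → ∃ φ0 : ℝ, 0 < φ0 ∧ ∀ z : ℂ, ‖z - 1‖ ≤ φ0 →
      ∀ (ρ b : ℝ), 0 < ρ → 0 ≤ b → ∀ (U : Ultrafilter ℕ), (U : Filter ℕ) ≤ atTop → ∀ P : Measure (ℝ × ℝ × C(unitInterval, ℂ)),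
        LF.Cv (U : Filter ℕ) (fun N => mwE N b) cN P → P.map (rotX z) = P → ∃ M : ℕ → ℕ, (∀ N, 0 < M N) ∧
          ∃ J0 : ℝ × ℝ × C(unitInterval, ℂ) → ℝ,
            LF.Lm (U : Filter ℕ) (fun N => mwE N b) cN P (fun N x => wc (l1 / 2) (2 * l2) (dl / 2) ρ (cN N x) *
              ∏ i ∈ J, G i (M N) (ρ * N) (arcw x.2 (k i) x.1)) J0 ∧
              ∫ x, wc l1 l2 dl ρ x * |J0 (rotX z x) - J0 x| ∂P ≤ e * ρ ^ (2 / 3 : ℝ) := by
  intro e he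
  obtain ⟨φ0, h0, h1⟩ := rot_small J k hQ hG h hl1 hl2 hd e he
  refine ⟨φ0, h0, fun z hz ρ b hρ hb U hU P hC hP => ?_⟩
  have ha : Tendsto (fun N : ℕ => N + 1) (U : Filter ℕ) atTop := (tendsto_add_atTop_nat 1).mono_left hU
  obtain ⟨J0, hJ⟩ := lm_win J k hQ hG h (show 0 < l1 / 2 by positivity) (show 0 < 2 * l2 by positivity)
    (show 0 < dl / 2 by positivity) hρ hb U hU ha hC
  exact ⟨fun N => N + 1, fun N => Nat.succ_pos N, J0, hJ, h1 z hz ρ b hρ hb U hU P hC hP _ ha J0 hJ⟩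

end Pool.Agent.ROT.F3
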