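import Pool.Agent.ROT.F3LimEv

/-!
# ROT, F3 (B), row C0At (helper80, literal of helper86): words and limits, abstract part

`S i` = a set of words which carries everything (`Spt`).
* `Lm.ae_le` : inequalities for the words of `S` pass to the limit;
* **`det_lm`** : deterministic statements `g > 0, J > 0, x0 ≤ p ≤ x1 ⟹ A and Ψ (curve, marks) ≤ err` pass to the limit, the marks
  `q k` are functionals on the event `A`;
* **`Lm.mark`** : `M` = the limit of the laws of (curve, marks) of the words of `A i`: if on `A i` the functional `q` is a continuous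
  function `G` of (curve, marks), then `Φ y.1 = G y` for `M`-almost every `y`; `Ev.mark` : the same for events.
-/

set_option autoImplicit false

open MeasureTheory Filter Topology Set
open scoped ENNReal NNReal BoundedContinuousFunction

namespace Pool.Agent.ROT.F3.LF

variable {ι : Type*} {l : Filter ι} {Ω : ι → Type*} [∀ i, MeasurableSpace (Ω i)] {P : ∀ i, Measure (Ω i)}
  {X : Type*} [PseudoMetricSpace X] [MeasurableSpace X] [BorelSpace X] {c : ∀ i, Ω i → X} {ν : Measure X}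
  [CompleteSpace X] [SecondCountableTopology X]

/-- **inequalities for the words of `S` pass to the limit** -/
theorem Lm.ae_le [l.NeBot] (hC : Cv l P c ν) {p p' : ∀ i, Ω i → ℝ} {Φ Φ' : X → ℝ} (h : Lm l P c ν p Φ) (h' : Lm l P c ν p' Φ')
    {S : ∀ i, Ω i → Prop} (hS : ∀ᶠ i in l, ∀ᵐ ω ∂(P i), S i ω) (hle : ∀ᶠ i in l, ∀ ω, S i ω → p i ω ≤ p' i ω) : Φ ≤ᵐ[ν] Φ' := by
  have hfin' := hC.fin'
  have h1 : Lm l P c ν (fun i ω => min (p i ω) (p' i ω)) fun x => min (Φ x) (Φ' x) :=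
    Lm.comp2 hC h h' (f := fun a b => min a b) (by fun_prop)
  have h2 : ∫ x, |Φ x - min (Φ x) (Φ' x)| ∂ν ≤ 0 := by
    refine Lm.dist_le hC h h1 ?_
    filter_upwards [hS, hle] with i hi hi'
    refine le_of_eq (integral_eq_zero_of_ae ?_)
    filter_upwards [hi] with ω hω
    show |p i ω - min (p i ω) (p' i ω)| = 0
    rw [min_eq_left (hi' ω hω), sub_self, abs_zero]
  have h3 : ∫ x, |Φ x - min (Φ x) (Φ' x)| ∂ν = 0 := le_antisymm h2 (integral_nonneg fun x => abs_nonneg _)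
  have h4 := (integral_eq_zero_iff_of_nonneg (fun x => abs_nonneg _) ((h.int' hC).sub (h1.int' hC)).abs).1 h3
  filter_upwards [h4] with x hx
  have h5 : |Φ x - min (Φ x) (Φ' x)| = 0 := hx
  have h6 : Φ x = min (Φ x) (Φ' x) := by linarith [abs_eq_zero.1 h5]
  rw [h6]
  exact min_le_right _ _

/-- **deterministic statements pass to the limit**; the marks `q k` are functionals on the event `A` -/
theorem det_lm [l.NeBot] (hC : Cv l P c ν) {S : ∀ i, Ω i → Prop} (hS : ∀ᶠ i in l, ∀ᵐ ω ∂(P i), S i ω)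
    {g J p : ∀ i, Ω i → ℝ} {g0 J0 Λ : X → ℝ} (hg : Lm l P c ν g g0) (hJ : Lm l P c ν J J0) (hp : Lm l P c ν p Λ)
    {A : ∀ i, Ω i → Prop} {B : Set X} (hA : Ev l P c ν A B) {κ : Type*} [Fintype κ] {q : ∀ i, Ω i → κ → ℝ} {Φ : X → κ → ℝ}
    (hq : ∀ k, Lm l P c ν (fun i ω => bi (A i ω) * q i ω k) fun x => Φ x k) {Ψ : X × (κ → ℝ) → ℝ} (hΨ : Continuous Ψ)
    {x0 x1 : ℝ} {err : ι → ℝ} (herr : Tendsto err l (𝓝 0))
    (det : ∀ᶠ i in l, ∀ ω, S i ω → 0 < g i ω → 0 < J i ω → x0 ≤ p i ω → p i ω ≤ x1 → A i ω ∧ Ψ (c i ω, q i ω) ≤ err i) :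
    ∀ᵐ y ∂ν, 0 < g0 y → 0 < J0 y → x0 < Λ y → Λ y < x1 → y ∈ B ∧ Ψ (y, Φ y) ≤ 0 := by
  have hfin' := hC.fin'
  -- the weight: positive exactly on the words of the hypothesis
  obtain ⟨ps, hps⟩ : ∃ ps : ℝ → ℝ, ps = fun a => max 0 a := ⟨_, rfl⟩
  have psc : Continuous ps := by
    rw [hps]
    fun_prop
  have ps0 : ∀ a, 0 ≤ ps a := fun a => by
    rw [hps]
    exact le_max_left _ _
  have psp : ∀ a, 0 < a → 0 < ps a := fun a ha => by
    rw [hps]
    exact lt_max_of_lt_right ha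
  have psn : ∀ a, 0 < ps a → 0 < a := fun a ha => by
    rw [hps] at ha
    rcases lt_max_iff.1 ha with h | h
    · exact absurd h (lt_irrefl _)
    · exact h
  obtain ⟨W, hW⟩ : ∃ W : ∀ i, Ω i → ℝ, W = fun i ω => ps (g i ω) * ps (J i ω) * (ps (p i ω - x0) * ps (x1 - p i ω)) := ⟨_, rfl⟩
  obtain ⟨W0, hW0⟩ : ∃ W0 : X → ℝ, W0 = fun y => ps (g0 y) * ps (J0 y) * (ps (Λ y - x0) * ps (x1 - Λ y)) := ⟨_, rfl⟩
  have hWL : Lm l P c ν W W0 := by
    rw [hW, hW0]
    refine Lm.mul hC (Lm.mul hC (Lm.comp1 hC hg psc) (Lm.comp1 hC hJ psc)) (Lm.mul hC ?_ ?_)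
    · exact Lm.comp1 hC hp (f := fun a => ps (a - x0)) (psc.comp (by fun_prop))
    · exact Lm.comp1 hC hp (f := fun a => ps (x1 - a)) (psc.comp (by fun_prop))
  have W0n : ∀ i ω, 0 ≤ W i ω := fun i ω => by
    rw [hW]
    exact mul_nonneg (mul_nonneg (ps0 _) (ps0 _)) (mul_nonneg (ps0 _) (ps0 _))
  have pos4 : ∀ a b d e : ℝ, 0 < ps a * ps b * (ps d * ps e) → 0 < a ∧ 0 < b ∧ 0 < d ∧ 0 < e := by
    intro a b d e h
    have h1 : ps a * ps b ≠ 0 := fun h0 => by rw [h0, zero_mul] at h; exact lt_irrefl _ h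
    have h2 : ps d * ps e ≠ 0 := fun h0 => by rw [h0, mul_zero] at h; exact lt_irrefl _ h
    obtain ⟨a1, a2⟩ := mul_ne_zero_iff.1 h1
    obtain ⟨a3, a4⟩ := mul_ne_zero_iff.1 h2
    exact ⟨psn _ ((ps0 _).lt_of_ne a1.symm), psn _ ((ps0 _).lt_of_ne a2.symm), psn _ ((ps0 _).lt_of_ne a3.symm),
      psn _ ((ps0 _).lt_of_ne a4.symm)⟩
  have det' : ∀ᶠ i in l, ∀ ω, S i ω → 0 < W i ω → A i ω ∧ Ψ (c i ω, q i ω) ≤ err i := by
    filter_upwards [det] with i hi ω hω h
    rw [hW] at h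
    obtain ⟨a1, a2, a3, a4⟩ := pos4 _ _ _ _ h
    exact hi ω hω a1 a2 (by linarith) (by linarith)
  obtain ⟨CW, hCW⟩ := hWL.bd
  have hCW0 : ∀ i ω, W i ω ≤ |CW| := fun i ω => (le_abs_self _).trans ((hCW i ω).trans (le_abs_self _))
  -- the event
  have e1 : ∀ᵐ y ∂ν, bi (y ∈ Bᶜ) * W0 y ≤ 0 := by
    refine Lm.ae_le hC ((hA.not hC).mul hC hWL) (Lm.const hC 0) hS ?_
    filter_upwards [det'] with i hi ω hω
    by_cases h3 : A i ω
    · rw [bi_neg (not_not.2 h3), zero_mul]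
    · rcases (W0n i ω).eq_or_lt with h4 | h4
      · rw [← h4, mul_zero]
      · exact absurd (hi ω hω h4).1 h3
  -- the condition
  obtain ⟨F, hF⟩ : ∃ F : X × (κ → ℝ) → ℝ, F = fun z => min 1 (max 0 (Ψ z)) := ⟨_, rfl⟩
  have hFc : Continuous F := by
    rw [hF]
    fun_prop
  have hF0 : ∀ z, 0 ≤ F z := fun z => by
    rw [hF]
    exact le_min zero_le_one (le_max_left _ _)
  have hF1 : ∀ z, |F z| ≤ 1 := fun z => by
    rw [abs_of_nonneg (hF0 z), hF]
    exact min_le_left _ _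
  have hFL : Lm l P c ν (fun i ω => F (c i ω, fun k => bi (A i ω) * q i ω k)) fun x => F (x, Φ x) :=
    Lm.comp hC (p := fun i ω k => bi (A i ω) * q i ω k) (Φ := Φ) hq hFc hF1
  have hT : Lm l P c ν (fun i ω => W i ω * F (c i ω, fun k => bi (A i ω) * q i ω k)) fun x => W0 x * F (x, Φ x) :=
    Lm.mul hC hWL hFL
  have e2 : ∀ n : ℕ, ∀ᵐ y ∂ν, W0 y * F (y, Φ y) ≤ |CW| * (1 / ((n : ℝ) + 1)) := by
    intro n
    refine Lm.ae_le hC hT (Lm.const hC _) hS ?_
    have hn : (0 : ℝ) < 1 / ((n : ℝ) + 1) := by positivity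
    filter_upwards [det', herr.eventually (gt_mem_nhds hn)] with i hi hi2 ω hω
    rcases (W0n i ω).eq_or_lt with h4 | h4
    · rw [← h4, zero_mul]
      positivity
    · obtain ⟨h5, h6⟩ := hi ω hω h4
      have h7 : (fun k => bi (A i ω) * q i ω k) = q i ω := by
        funext k
        rw [bi_pos h5, one_mul]
      rw [h7]
      refine mul_le_mul (hCW0 i ω) ?_ (hF0 _) (abs_nonneg _)
      rw [hF]
      exact (min_le_right _ _).trans (max_le hn.le (h6.trans hi2.le))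
  have e3 : ∀ᵐ y ∂ν, ∀ n : ℕ, W0 y * F (y, Φ y) ≤ |CW| * (1 / ((n : ℝ) + 1)) := ae_all_iff.2 e2
  filter_upwards [e1, e3] with y y1 y2 a1 a2 a3 a4
  have hW0y : 0 < W0 y := by
    rw [hW0]
    exact mul_pos (mul_pos (psp _ a1) (psp _ a2)) (mul_pos (psp _ (by linarith)) (psp _ (by linarith)))
  have hyB : y ∈ B := by
    by_contra h
    rw [bi_pos (show y ∈ Bᶜ from h), one_mul] at y1
    exact absurd y1 (not_le.2 hW0y)
  refine ⟨hyB, ?_⟩
  have h8 : W0 y * F (y, Φ y) ≤ 0 := by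
    refine ge_of_tendsto' (x := atTop) ?_ y2
    have h9 : Tendsto (fun n : ℕ => |CW| * (1 / ((n : ℝ) + 1))) atTop (𝓝 (|CW| * 0)) :=
      tendsto_one_div_add_atTop_nhds_zero_nat.const_mul _
    rwa [mul_zero] at h9
  have h9 : F (y, Φ y) ≤ 0 := by
    by_contra h
    exact absurd h8 (not_le.2 (mul_pos hW0y (not_le.1 h)))
  rw [hF] at h9
  by_contra h
  have h10 := not_le.1 h
  have h11 : 0 < min 1 (max 0 (Ψ (y, Φ y))) := lt_min one_pos (lt_max_of_lt_right h10)
  exact absurd h9 (not_le.2 h11)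

section mark

variable {T : Type*} [PseudoMetricSpace T] [MeasurableSpace T] [BorelSpace T] [SecondCountableTopology T]

omit [CompleteSpace X] [SecondCountableTopology X] in
/-- **marked words**: on `A i` the functional `q` is a continuous function of (curve, marks) -/
theorem Lm.mark [l.NeBot] (hC : Cv l P c ν) {M : Measure (X × T)} (hfM : IsFiniteMeasure M) (hM : M.map Prod.fst ≤ ν)
    {A : ∀ i, Set (Ω i)} (mA : ∀ i, MeasurableSet (A i)) {t : ∀ i, Ω i → T} (mt : ∀ i, Measurable (t i))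
    (lim : ∀ f : (X × T) →ᵇ ℝ, Tendsto (fun i => ∫ ω in A i, f (c i ω, t i ω) ∂P i) l (𝓝 (∫ y, f y ∂M)))
    {S : ∀ i, Ω i → Prop} (hS : ∀ᶠ i in l, ∀ᵐ ω ∂(P i), S i ω) {q : ∀ i, Ω i → ℝ} {Φ : X → ℝ} (hq : Lm l P c ν q Φ)
    {G : X × T → ℝ} (hG : Continuous G) {err : ι → ℝ} (herr : Tendsto err l (𝓝 0))
    (h : ∀ᶠ i in l, ∀ ω ∈ A i, S i ω → |q i ω - G (c i ω, t i ω)| ≤ err i) : ∀ᵐ y ∂M, Φ y.1 = G y := by
  have hfin' := hC.fin'
  obtain ⟨B, hB0, -, hB⟩ := hC.bd
  have mΨ : Measurable fun y : X × T => min 1 |Φ y.1 - G y| :=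
    measurable_const.min ((hq.ms'.comp measurable_fst).sub hG.measurable).abs
  have n1 : ∀ a : ℝ, 0 ≤ min 1 |a| := fun a => le_min zero_le_one (abs_nonneg _)
  have n2 : ∀ a : ℝ, |(min 1 |a| : ℝ)| ≤ 1 := fun a => by
    rw [abs_of_nonneg (n1 a)]
    exact min_le_left _ _
  have key : ∀ ε : ℝ, 0 < ε → ∫ y, min 1 |Φ y.1 - G y| ∂M ≤ 3 * ε := by
    intro ε hε
    obtain ⟨φ, a1, a2⟩ := hq.ap ε hε
    have fc : Continuous fun y : X × T => min 1 |φ y.1 - G y| :=
      continuous_const.min ((φ.continuous.comp continuous_fst).sub hG).abs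
    have fb : ∀ y : X × T, ‖min 1 |φ y.1 - G y|‖ ≤ 1 := fun y => by
      rw [Real.norm_eq_abs]
      exact n2 _
    have h1 := lim (BoundedContinuousFunction.ofNormedAddCommGroup _ fc 1 fb)
    have h2 : ∫ y, min 1 |φ y.1 - G y| ∂M ≤ 2 * ε := by
      have hε2 : 0 < ε / B := by positivity
      refine le_of_tendsto h1 ?_
      filter_upwards [a2, hB, h, hS, herr.eventually (gt_mem_nhds hε2)] with i i1 i2 i3 i4 i5
      have hfi := hC.fin i
      have j1 : Integrable (fun ω => |q i ω - φ (c i ω)|) (P i) := ((hq.int hC i).sub (hC.int_c φ i)).abs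
      have j2 : Integrable (fun ω => |q i ω - φ (c i ω)| + ε / B) (P i) := j1.add (integrable_const _)
      have mf : Measurable fun ω => min 1 |φ (c i ω) - G (c i ω, t i ω)| :=
        fc.measurable.comp ((hC.ms i).prodMk (mt i))
      have h3 : ∫ ω in A i, min 1 |φ (c i ω) - G (c i ω, t i ω)| ∂P i ≤ ∫ ω in A i, (|q i ω - φ (c i ω)| + ε / B) ∂P i := by
        refine integral_mono_ae (itg mf fun ω => n2 _) j2.integrableOn ?_
        filter_upwards [ae_restrict_mem (mA i), ae_restrict_of_ae i4] with ω hω hω'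
        have k1 := i3 ω hω hω'
        have k2 := abs_sub_le (φ (c i ω)) (q i ω) (G (c i ω, t i ω))
        rw [abs_sub_comm (φ (c i ω)) (q i ω)] at k2
        have k3 : min 1 |φ (c i ω) - G (c i ω, t i ω)| ≤ |φ (c i ω) - G (c i ω, t i ω)| := min_le_right _ _
        show min 1 |φ (c i ω) - G (c i ω, t i ω)| ≤ |q i ω - φ (c i ω)| + ε / B
        linarith
      have h4 : ∫ ω in A i, (|q i ω - φ (c i ω)| + ε / B) ∂P i ≤ ∫ ω, (|q i ω - φ (c i ω)| + ε / B) ∂P i :=
        setIntegral_le_integral j2 (Eventually.of_forall fun ω => by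
          show 0 ≤ |q i ω - φ (c i ω)| + ε / B
          positivity)
      have h5 : ∫ ω, (|q i ω - φ (c i ω)| + ε / B) ∂P i = ∫ ω, |q i ω - φ (c i ω)| ∂P i + (P i).real univ * (ε / B) := by
        rw [integral_add j1 (integrable_const _), integral_const, smul_eq_mul]
      have h6 : (P i).real univ * (ε / B) ≤ ε := by
        calc (P i).real univ * (ε / B) ≤ B * (ε / B) := mul_le_mul_of_nonneg_right i2 hε2.le
          _ = ε := by field_simp
      show ∫ ω in A i, min 1 |φ (c i ω) - G (c i ω, t i ω)| ∂P i ≤ 2 * ε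
      linarith
    have hfm : IsFiniteMeasure (M.map Prod.fst) := Measure.isFiniteMeasure_map M _
    have m3 : Measurable fun x => |Φ x - φ x| := (hq.ms'.sub φ.continuous.measurable).abs
    have h3 : ∫ y, |Φ y.1 - φ y.1| ∂M ≤ ε := by
      rw [← integral_map (φ := Prod.fst) measurable_fst.aemeasurable m3.aestronglyMeasurable]
      exact (integral_mono_measure hM (Eventually.of_forall fun x => abs_nonneg _) ((hq.int' hC).sub (int_bcf hC.fin' φ)).abs).trans a1
    obtain ⟨C1, hC1⟩ := hq.bd'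
    have i1 : Integrable (fun y : X × T => |Φ y.1 - φ y.1|) M := by
      refine itg (m3.comp measurable_fst) (C := C1 + ‖φ‖) fun y => ?_
      rw [abs_abs]
      exact (abs_sub _ _).trans (add_le_add (hC1 _) (bcf_bd φ _))
    have i2 : Integrable (fun y : X × T => min 1 |φ y.1 - G y|) M := itg fc.measurable fun y => n2 _
    have h4 : ∫ y, min 1 |Φ y.1 - G y| ∂M ≤ ∫ y, (|Φ y.1 - φ y.1| + min 1 |φ y.1 - G y|) ∂M := by
      refine integral_mono (itg mΨ fun y => n2 _) (i1.add i2) fun y => ?_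
      show min 1 |Φ y.1 - G y| ≤ |Φ y.1 - φ y.1| + min 1 |φ y.1 - G y|
      have k1 := abs_sub_le (Φ y.1) (φ y.1) (G y)
      rcases le_total 1 |φ y.1 - G y| with hc | hc
      · rw [min_eq_left hc]
        have := abs_nonneg (Φ y.1 - φ y.1)
        linarith [min_le_left 1 |Φ y.1 - G y|]
      · rw [min_eq_right hc]
        exact (min_le_right _ _).trans k1
    rw [integral_add i1 i2] at h4
    linarith
  have h0 : ∫ y, min 1 |Φ y.1 - G y| ∂M = 0 := by
    refine le_antisymm (le_of_forall_pos_le_add fun ε hε => ?_) (integral_nonneg fun y => n1 _)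
    have := key (ε / 3) (by positivity)
    linarith
  have h1 := (integral_eq_zero_iff_of_nonneg (fun y => n1 _) (itg mΨ fun y => n2 _)).1 h0
  filter_upwards [h1] with y hy
  have h2 : min 1 |Φ y.1 - G y| = 0 := hy
  have h3 : |Φ y.1 - G y| = 0 := by
    rcases min_choice 1 |Φ y.1 - G y| with h | h
    · rw [h] at h2
      exact absurd h2 one_ne_zero
    · rw [h] at h2
      exact h2
  linarith [abs_eq_zero.1 h3]

omit [CompleteSpace X] [SecondCountableTopology X] in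
/-- **marked words**, events: if the words of `A i` are in the event, then the marked curves are in its limit -/
theorem Ev.mark [l.NeBot] (hC : Cv l P c ν) {M : Measure (X × T)} (hfM : IsFiniteMeasure M) (hM : M.map Prod.fst ≤ ν)
    {A : ∀ i, Set (Ω i)} (mA : ∀ i, MeasurableSet (A i)) {t : ∀ i, Ω i → T} (mt : ∀ i, Measurable (t i))
    (lim : ∀ f : (X × T) →ᵇ ℝ, Tendsto (fun i => ∫ ω in A i, f (c i ω, t i ω) ∂P i) l (𝓝 (∫ y, f y ∂M)))
    {S : ∀ i, Ω i → Prop} (hS : ∀ᶠ i in l, ∀ᵐ ω ∂(P i), S i ω) {E : ∀ i, Ω i → Prop} {ℰ : Set X} (hE : Ev l P c ν E ℰ)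
    (h : ∀ᶠ i in l, ∀ ω ∈ A i, S i ω → E i ω) : ∀ᵐ y ∂M, y.1 ∈ ℰ := by
  have h1 := Lm.mark hC hfM hM mA mt lim hS hE (G := fun _ => 1) continuous_const (err := fun _ => 0) tendsto_const_nhds (by
    filter_upwards [h] with i hi ω hω hω'
    rw [bi_pos (hi ω hω hω'), sub_self, abs_zero])
  filter_upwards [h1] with y hy
  exact bi_ne (by rw [hy]; exact one_ne_zero)

end mark

end Pool.Agent.ROT.F3.LF
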