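import Pool.Agent.ROT.F3C0G1
import Pool.Agent.ROT.F3K3S
import Pool.Agent.ROT.F3C0K

/-!
# ROT, F3 (B), row C0At (helper80, literal (G) of helper86): foreign gates of the rotated lattice, native gates of the marked words

* **`det_mkP`**, **`det_mk`** : deterministic statements about the gates of one arm (system `AIn` of helper4) for the words of the
  rotated lattice give: for almost every curve of the lattice 0 the gates of the curve turned back exist, with the closed condition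
  `Ψ ≤ 0` (`Ψ` reads the curve, the level `p`, the times of the two gates in units of the arm);
* **`mk_lm`**, `mk_ev` : marked words of helper87: functionals which are continuous functions of (curve, marks) on `A N`;
* **`mk_native`** : the first mark is the gate `x` of the arm `fp`.
-/

set_option autoImplicit false

open MeasureTheory Filter Topology Set unitInterval
open scoped ENNReal NNReal Classical BoundedContinuousFunction

namespace Pool.Agent.ROT.F3.CK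

open Pool.Agent.ROT.F3 Pool.Agent.ROT.F3.LF

section det

variable {U : Ultrafilter ℕ} {b : ℝ} {P : Measure CC.Gm} {A : Arm → ℕ → W3 × ℕ → Prop} {c g : Arm → ℕ → W3 × ℕ → ℕ}
  {B : Arm → Set CC.Gm} {Pc Pg : Arm → CC.Gm → ℝ}

/-- the curve turned and turned back -/
lemma rotX_inv {u : ℂ} (hu : ‖u‖ = 1) (y : CC.Gm) : rotX u⁻¹ (rotX u y) = y := by
  have h0 : u ≠ 0 := fun h => by rw [h, norm_zero] at hu; exact zero_ne_one hu
  show (y.1, y.2.1, u⁻¹ • (u • y.2.2)) = y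
  rw [smul_smul, inv_mul_cancel₀ h0, one_smul]

/-- statements about almost every curve turned back -/
lemma ae_back {u : ℂ} (hu : ‖u‖ = 1) (hinv : P.map (rotX u) = P) {Q : CC.Gm → Prop} (h : ∀ᵐ y ∂P, Q y) :
    ∀ᵐ y ∂P, Q (rotX u⁻¹ y) := by
  have m1 : Measurable (rotX u) := (rotX_cont u).measurable
  have m2 : Measurable (rotX u⁻¹) := (rotX_cont u⁻¹).measurable
  have h1 : P.map (rotX u⁻¹) = P := by
    conv_lhs => rw [← hinv]
    rw [Measure.map_map m2 m1]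
    have h2 : rotX u⁻¹ ∘ rotX u = id := funext fun y => rotX_inv hu y
    rw [h2, Measure.map_id]
  rw [← h1] at h
  exact ae_of_ae_map m2.aemeasurable h

/-- **foreign gates**, words: the condition `Ψ` reads (curve, level, time of `c`, time of `x`) -/
theorem det_mk0 (hC : Cv (U : Filter ℕ) (fun N => mwE N b) cN P)
    (H : AIn U b P A c g B Pc Pg) (k : Arm) {p J gx : ℕ → W3 × ℕ → ℝ} {Λ J0 g0 : CC.Gm → ℝ}
    (hp : Lm (U : Filter ℕ) (fun N => mwE N b) cN P p Λ) (hJ : Lm (U : Filter ℕ) (fun N => mwE N b) cN P J J0)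
    (hg : Lm (U : Filter ℕ) (fun N => mwE N b) cN P gx g0)
    {Ψ : CC.Gm → ℝ → ℝ → ℝ → ℝ} (hΨ : Continuous fun z : CC.Gm × (ℝ × ℝ × ℝ) => Ψ z.1 z.2.1 z.2.2.1 z.2.2.2) {x0 x1 : ℝ}
    {err : ℕ → ℝ} (herr : Tendsto err U (𝓝 0))
    (det : ∀ᶠ N in (U : Filter ℕ), ∀ x, Spt x → 0 < gx N x → 0 < J N x → x0 ≤ p N x → p N x ≤ x1 →
      A k N x ∧ Ψ (cN N x) (p N x) ((c k N x : ℝ) / (arcw x.2 k x.1).length) ((g k N x : ℝ) / (arcw x.2 k x.1).length) ≤ err N) :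
    ∀ᵐ y ∂P, 0 < g0 y → 0 < J0 y → x0 < Λ y → Λ y < x1 → y ∈ B k ∧ Ψ y (Λ y) (Pc k y) (Pg k y) ≤ 0 := by
  have h1 := det_lm hC (S := fun _ => Spt) (Eventually.of_forall fun N => spt_ae N b) hg hJ hp (H.ev k) (κ := Fin 3)
    (q := fun N x => ![p N x, (c k N x : ℝ) / (arcw x.2 k x.1).length, (g k N x : ℝ) / (arcw x.2 k x.1).length])
    (Φ := fun y => ![bi (y ∈ B k) * Λ y, Pc k y, Pg k y]) (by
      intro j
      fin_cases j
      · exact (H.ev k).mul hC hp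
      · exact H.tc k
      · exact H.tg k)
    (Ψ := fun z => Ψ z.1 (z.2 0) (z.2 1) (z.2 2)) (by
      have e : Continuous fun z : CC.Gm × (Fin 3 → ℝ) => ((z.1, (z.2 0, z.2 1, z.2 2)) : CC.Gm × (ℝ × ℝ × ℝ)) := by fun_prop
      exact hΨ.comp e) (x0 := x0) (x1 := x1) herr det
  filter_upwards [h1] with y hy a1 a2 a3 a4
  obtain ⟨b1, b2⟩ := hy a1 a2 a3 a4
  refine ⟨b1, ?_⟩
  have b3 : Ψ y (bi (y ∈ B k) * Λ y) (Pc k y) (Pg k y) ≤ 0 := b2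
  rwa [bi_pos b1, one_mul] at b3

/-- **foreign gates of the rotated lattice**, the condition reads the level too -/
theorem det_mkP (hC : Cv (U : Filter ℕ) (fun N => mwE N b) cN P) {u : ℂ} (hu : ‖u‖ = 1) (hinv : P.map (rotX u) = P)
    (H : AIn U b P A c g B Pc Pg) (k : Arm) {p J : ℕ → W3 × ℕ → ℝ} {Λ J0 : CC.Gm → ℝ}
    (hp : Lm (U : Filter ℕ) (fun N => mwE N b) cN P p Λ) (hJ : Lm (U : Filter ℕ) (fun N => mwE N b) cN P J J0)
    (gx : CC.Gm →ᵇ ℝ) {Ψ : CC.Gm → ℝ → ℝ → ℝ → ℝ}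
    (hΨ : Continuous fun z : CC.Gm × (ℝ × ℝ × ℝ) => Ψ z.1 z.2.1 z.2.2.1 z.2.2.2) {x0 x1 : ℝ}
    {err : ℕ → ℝ} (herr : Tendsto err U (𝓝 0))
    (det : ∀ᶠ N in (U : Filter ℕ), ∀ x, Spt x → 0 < gx (rotX u (cN N x)) → 0 < J N x → x0 ≤ p N x → p N x ≤ x1 →
      A k N x ∧ Ψ (cN N x) (p N x) ((c k N x : ℝ) / (arcw x.2 k x.1).length) ((g k N x : ℝ) / (arcw x.2 k x.1).length) ≤ err N) :
    ∀ᵐ y ∂P, 0 < gx y → 0 < J0 (rotX u⁻¹ y) → x0 < Λ (rotX u⁻¹ y) → Λ (rotX u⁻¹ y) < x1 → rotX u⁻¹ y ∈ B k ∧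
      Ψ (rotX u⁻¹ y) (Λ (rotX u⁻¹ y)) (Pc k (rotX u⁻¹ y)) (Pg k (rotX u⁻¹ y)) ≤ 0 := by
  have hg : Lm (U : Filter ℕ) (fun N => mwE N b) cN P (fun N x => gx (rotX u (cN N x))) fun y => gx (rotX u y) :=
    Lm.cont hC (gx.compContinuous ⟨rotX u, rotX_cont u⟩)
  have h1 := ae_back hu hinv (det_mk0 hC H k hp hJ hg hΨ herr det)
  have h0 : u ≠ 0 := fun h => by rw [h, norm_zero] at hu; exact zero_ne_one hu
  filter_upwards [h1] with y hy a1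
  have e : rotX u (rotX u⁻¹ y) = y := by
    show (y.1, y.2.1, u • (u⁻¹ • y.2.2)) = y
    rw [smul_smul, mul_inv_cancel₀ h0, one_smul]
  exact hy (by rw [e]; exact a1)

/-- **foreign gates of the rotated lattice** -/
theorem det_mk (hC : Cv (U : Filter ℕ) (fun N => mwE N b) cN P) {u : ℂ} (hu : ‖u‖ = 1) (hinv : P.map (rotX u) = P)
    (H : AIn U b P A c g B Pc Pg) (k : Arm) {p J : ℕ → W3 × ℕ → ℝ} {Λ J0 : CC.Gm → ℝ}
    (hp : Lm (U : Filter ℕ) (fun N => mwE N b) cN P p Λ) (hJ : Lm (U : Filter ℕ) (fun N => mwE N b) cN P J J0)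
    (gx : CC.Gm →ᵇ ℝ) {Ψ : CC.Gm → ℝ → ℝ → ℝ}
    (hΨ : Continuous fun z : CC.Gm × (ℝ × ℝ) => Ψ z.1 z.2.1 z.2.2) {x0 x1 : ℝ}
    {err : ℕ → ℝ} (herr : Tendsto err U (𝓝 0))
    (det : ∀ᶠ N in (U : Filter ℕ), ∀ x, Spt x → 0 < gx (rotX u (cN N x)) → 0 < J N x → x0 ≤ p N x → p N x ≤ x1 →
      A k N x ∧ Ψ (cN N x) ((c k N x : ℝ) / (arcw x.2 k x.1).length) ((g k N x : ℝ) / (arcw x.2 k x.1).length) ≤ err N) :
    ∀ᵐ y ∂P, 0 < gx y → 0 < J0 (rotX u⁻¹ y) → x0 < Λ (rotX u⁻¹ y) → Λ (rotX u⁻¹ y) < x1 → rotX u⁻¹ y ∈ B k ∧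
      Ψ (rotX u⁻¹ y) (Pc k (rotX u⁻¹ y)) (Pg k (rotX u⁻¹ y)) ≤ 0 :=
  det_mkP hC hu hinv H k hp hJ gx (Ψ := fun y _ s t => Ψ y s t) (by
    have e : Continuous fun z : CC.Gm × (ℝ × ℝ × ℝ) => ((z.1, (z.2.2.1, z.2.2.2)) : CC.Gm × (ℝ × ℝ)) := by fun_prop
    exact hΨ.comp e) herr det

end det

section mark

variable {U : Ultrafilter ℕ} {b : ℝ} {P : Measure CC.Gm} {M : Measure C0K.XM} {A : ℕ → Set (W3 × ℕ)}
  {yy : ℕ → W3 × ℕ → W3 × (W3 × W3)}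

/-- **functionals of the marked words** (`M`, `lim` from `C0K.mk_lim`) -/
theorem mk_lm (hC : Cv (U : Filter ℕ) (fun N => mwE N b) cN P) (hfM : IsFiniteMeasure M) (hM : M.map Prod.fst ≤ P)
    (lim : ∀ f : C0K.XM →ᵇ ℝ, Tendsto (fun N => ∫ x in A N, f (cN N x, C0K.tt (yy N x) x.1) ∂(mwE N b)) U (𝓝 (∫ y, f y ∂M)))
    {q : ℕ → W3 × ℕ → ℝ} {Φ : CC.Gm → ℝ} (hq : Lm (U : Filter ℕ) (fun N => mwE N b) cN P q Φ) {G : C0K.XM → ℝ}
    (hG : Continuous G) {err : ℕ → ℝ} (herr : Tendsto err U (𝓝 0))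
    (h : ∀ᶠ N in (U : Filter ℕ), ∀ x ∈ A N, Spt x → |q N x - G (cN N x, C0K.tt (yy N x) x.1)| ≤ err N) :
    ∀ᵐ y ∂M, Φ y.1 = G y :=
  Lm.mark hC hfM hM (fun _ => MeasurableSet.of_discrete) (t := fun N x => C0K.tt (yy N x) x.1) (fun _ => Measurable.of_discrete)
    lim (S := fun _ => Spt) (Eventually.of_forall fun N => spt_ae N b) hq hG herr h

/-- **events of the marked words** -/
theorem mk_ev (hC : Cv (U : Filter ℕ) (fun N => mwE N b) cN P) (hfM : IsFiniteMeasure M) (hM : M.map Prod.fst ≤ P)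
    (lim : ∀ f : C0K.XM →ᵇ ℝ, Tendsto (fun N => ∫ x in A N, f (cN N x, C0K.tt (yy N x) x.1) ∂(mwE N b)) U (𝓝 (∫ y, f y ∂M)))
    {E : ℕ → W3 × ℕ → Prop} {ℰ : Set CC.Gm} (hE : Ev (U : Filter ℕ) (fun N => mwE N b) cN P E ℰ)
    (h : ∀ᶠ N in (U : Filter ℕ), ∀ x ∈ A N, Spt x → E N x) : ∀ᵐ y ∂M, y.1 ∈ ℰ :=
  Ev.mark hC hfM hM (fun _ => MeasurableSet.of_discrete) (t := fun N x => C0K.tt (yy N x) x.1) (fun _ => Measurable.of_discrete)
    lim (S := fun _ => Spt) (Eventually.of_forall fun N => spt_ae N b) hE h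

/-- **the first mark is the gate `x` of the arm `fp`** -/
theorem mk_native (hC : Cv (U : Filter ℕ) (fun N => mwE N b) cN P) (hP : ∀ᵐ y ∂P, 0 < y.1) (hfM : IsFiniteMeasure M)
    (hM : M.map Prod.fst ≤ P)
    (lim : ∀ f : C0K.XM →ᵇ ℝ, Tendsto (fun N => ∫ x in A N, f (cN N x, C0K.tt (yy N x) x.1) ∂(mwE N b)) U (𝓝 (∫ y, f y ∂M)))
    {A0 : Arm → ℕ → W3 × ℕ → Prop} {c0 g0 : Arm → ℕ → W3 × ℕ → ℕ} {B0 : Arm → Set CC.Gm} {Pc0 Pg0 : Arm → CC.Gm → ℝ}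
    (H : AIn U b P A0 c0 g0 B0 Pc0 Pg0)
    (h : ∀ᶠ N in (U : Filter ℕ), ∀ x ∈ A N, Spt x → A0 .fp N x ∧ g0 .fp N x = (yy N x).1.length) :
    ∀ᵐ y ∂M, y.1 ∈ B0 .fp ∧ Pg0 .fp y.1 * muG y.1 = y.2.1 := by
  have h1 : ∀ᵐ y ∂M, y.1 ∈ B0 .fp := mk_ev hC hfM hM lim (H.ev .fp) (by
    filter_upwards [h] with N hN x hx hx'
    exact (hN x hx hx').1)
  have h2 : ∀ᵐ y ∂M, Pg0 .fp y.1 * muG y.1 = y.2.1 := by
    refine mk_lm hC hfM hM lim (Lm.mul hC (H.tg .fp) (lm_mu hC hP)) (G := fun y => y.2.1) (by fun_prop) (err := fun _ => 0)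
      tendsto_const_nhds ?_
    filter_upwards [h, H.pos] with N hN hN2 x hx hx'
    obtain ⟨a1, a2⟩ := hN x hx hx'
    obtain ⟨-, -, -, a3⟩ := hN2 x hx' .fp a1
    rw [al_fp hx'.2.2.le] at a3
    show |bi (A0 .fp N x) * ((g0 .fp N x : ℝ) / (arcw x.2 .fp x.1).length) * muN x - (((yy N x).1.length : ℝ) / x.1.length)| ≤ 0
    rw [bi_pos a1, one_mul, muN_eq hx'.2.2, al_fp hx'.2.2.le, ← a2]
    have h3 : (g0 .fp N x : ℝ) / x.2 * ((x.2 : ℝ) / x.1.length) = (g0 .fp N x : ℝ) / x.1.length := by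
      by_cases hm : x.2 = 0
      · have h4 : g0 .fp N x = 0 := by omega
        rw [h4]
        simp
      · have h5 : (x.2 : ℝ) ≠ 0 := by exact_mod_cast hm
        rw [div_mul_div_comm, mul_comm (g0 .fp N x : ℝ) (x.2 : ℝ), mul_div_mul_left _ _ h5]
    rw [h3, sub_self, abs_zero]
  filter_upwards [h1, h2] with y a1 a2
  exact ⟨a1, a2⟩

end mark

end Pool.Agent.ROT.F3.CK
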