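import Pool.Agent.ROT.F3C0S

/-!
# ROT, F3 (B), row C0At (helper86): marked words and the set of the blocks

* **`c0_lowM`** : `c0_lowW` for the marked words: `M` = the limit of the laws of (curve, marks), `E` = a set of marked curves;
* **`s_im`** : a Borel set `S` of images of points of `E`, such that almost everywhere `y ∈ E → T y ∈ S`;
* `s_mass` : the mass of `S`.
-/

set_option autoImplicit false

open MeasureTheory Filter Topology Set
open scoped ENNReal NNReal BoundedContinuousFunction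

namespace Pool.Agent.ROT.F3.LF

variable {ι : Type*} {l : Filter ι} {Ω : ι → Type*} [∀ i, MeasurableSpace (Ω i)] {P : ∀ i, Measure (Ω i)}
  {X : Type*} [PseudoMetricSpace X] [MeasurableSpace X] [BorelSpace X] {c : ∀ i, Ω i → X} {ν : Measure X}
  [CompleteSpace X] [SecondCountableTopology X]

/-- **native and foreign marks together**: `A i` = the words with native marks, `M` = the limit of the laws of (curve, marks) -/
theorem c0_lowM (hC : Cv l P c ν) [l.NeBot] {J g : ∀ i, Ω i → ℝ} {J0 J0' G : X → ℝ} (hJ : Lm l P c ν J J0) (hg : Lm l P c ν g G)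
    (mJ' : Measurable J0') (bJ' : ∃ C : ℝ, ∀ x, |J0' x| ≤ C) (hJ' : ∀ᵐ x ∂ν, J0' x ≤ 1) (hG : ∀ x, 0 ≤ G x) (hG1 : ∀ x, G x ≤ 1)
    {T : Type*} [MeasurableSpace T] {M : Measure (X × T)} (hfM : IsFiniteMeasure M) (hM : M.map Prod.fst ≤ ν)
    {A : ∀ i, Set (Ω i)}
    (lim : ∀ f : X →ᵇ ℝ, Tendsto (fun i => ∫ ω in A i, f (c i ω) ∂P i) l (𝓝 (∫ y, f y.1 ∂M)))
    {E : Set (X × T)} (mE : MeasurableSet E) (det : ∀ᵐ y ∂M, 0 < G y.1 → 0 < J0' y.1 → y ∈ E) {a ε : ℝ}
    (low : ∀ᶠ i in l, a ≤ ∫ ω in A i, g i ω * J i ω ∂P i) (rot : ∫ x, G x * |J0' x - J0 x| ∂ν ≤ ε) :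
    a - ε ≤ M.real E := by
  have hfν := hC.fin'
  have hfP := hC.fin
  obtain ⟨ν', hν'⟩ : ∃ ν' : Measure X, ν' = M.map Prod.fst := ⟨_, rfl⟩
  have hfν' : IsFiniteMeasure ν' := by
    rw [hν']
    exact Measure.isFiniteMeasure_map M _
  have hle : ν' ≤ ν := by
    rw [hν']
    exact hM
  have hmap : ∀ f : X → ℝ, Measurable f → ∫ x, f x ∂ν' = ∫ y, f y.1 ∂M := by
    intro f hf
    rw [hν']
    exact integral_map measurable_fst.aemeasurable hf.aestronglyMeasurable
  have hD : Cv l (fun i => (P i).restrict (A i)) c ν' :=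
    ⟨fun i => inferInstance, hfν', hC.ms, fun f => by
      rw [hmap _ f.continuous.measurable]
      exact lim f⟩
  -- the native side
  have h3 : a ≤ ∫ x, G x * J0 x ∂ν' := by
    have h4 : Lm l (fun i => (P i).restrict (A i)) c ν' (fun i ω => g i ω * J i ω) fun x => G x * J0 x :=
      (Lm.mul hC hg hJ).le_ms hC hle fun i => Measure.restrict_le_self
    exact ge_of_tendsto (h4.tendsto hD) low
  obtain ⟨CG, hCG⟩ := hg.bd'
  obtain ⟨CJ, hCJ⟩ := hJ.bd'
  obtain ⟨CJ', hCJ'⟩ := bJ'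
  have i3 : Integrable (fun x => G x * |J0' x - J0 x|) ν := by
    refine itg (hg.ms'.mul (mJ'.sub hJ.ms').abs) (C := CG * (CJ' + CJ)) fun x => ?_
    rw [abs_mul, abs_abs]
    refine mul_le_mul (hCG x) ?_ (abs_nonneg _) ((abs_nonneg _).trans (hCG x))
    exact (abs_sub _ _).trans (add_le_add (hCJ' x) (hCJ x))
  have hac : ν' ≪ ν := Measure.absolutelyContinuous_of_le hle
  have hJM : ∀ᵐ y ∂M, J0' y.1 ≤ 1 := by
    have h5 := hac.ae_le hJ'
    rw [hν'] at h5
    exact ae_of_ae_map measurable_fst.aemeasurable h5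
  rw [hmap (fun x => G x * J0 x) (hg.ms'.mul hJ.ms')] at h3
  have m1 : Measurable fun y : X × T => G y.1 * J0 y.1 := (hg.ms'.mul hJ.ms').comp measurable_fst
  have m2 : Measurable fun y : X × T => G y.1 * |J0' y.1 - J0 y.1| :=
    (hg.ms'.mul (mJ'.sub hJ.ms').abs).comp measurable_fst
  have mb : Measurable fun y : X × T => bi (y ∈ E) := bi_ms mE
  have i1 : Integrable (fun y : X × T => G y.1 * J0 y.1) M := by
    refine itg m1 (C := CG * CJ) fun y => ?_
    rw [abs_mul]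
    exact mul_le_mul (hCG _) (hCJ _) (abs_nonneg _) ((abs_nonneg _).trans (hCG y.1))
  have i2 : Integrable (fun y : X × T => bi (y ∈ E)) M := itg mb (C := 1) fun y => bi_abs _
  have i3' : Integrable (fun y : X × T => G y.1 * |J0' y.1 - J0 y.1|) M := by
    refine itg m2 (C := CG * (CJ' + CJ)) fun y => ?_
    rw [abs_mul, abs_abs]
    refine mul_le_mul (hCG _) ?_ (abs_nonneg _) ((abs_nonneg _).trans (hCG y.1))
    exact (abs_sub _ _).trans (add_le_add (hCJ' _) (hCJ _))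
  have h5 : ∫ y, G y.1 * J0 y.1 ∂M ≤ ∫ y, (bi (y ∈ E) + G y.1 * |J0' y.1 - J0 y.1|) ∂M := by
    refine integral_mono_ae i1 (i2.add i3') ?_
    filter_upwards [det, hJM] with y x1 x2
    have y2 : G y.1 * J0 y.1 ≤ G y.1 * J0' y.1 + G y.1 * |J0' y.1 - J0 y.1| := by
      rw [← mul_add]
      refine mul_le_mul_of_nonneg_left ?_ (hG y.1)
      linarith [le_abs_self (J0' y.1 - J0 y.1), neg_abs_le (J0' y.1 - J0 y.1)]
    show G y.1 * J0 y.1 ≤ bi (y ∈ E) + G y.1 * |J0' y.1 - J0 y.1|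
    by_cases hyE : y ∈ E
    · rw [bi_pos hyE]
      have : G y.1 * J0' y.1 ≤ G y.1 := mul_le_of_le_one_right (hG y.1) x2
      linarith [hG1 y.1]
    · rw [bi_neg hyE]
      have : G y.1 * J0' y.1 ≤ 0 := by
        rcases (hG y.1).eq_or_lt with h6 | h6
        · rw [← h6, zero_mul]
        · exact mul_nonpos_of_nonneg_of_nonpos h6.le (le_of_not_gt fun h7 => hyE (x1 h6 h7))
      linarith
  have e1 : ∫ y, bi (y ∈ E) ∂M = M.real E := by
    have e : (fun y : X × T => bi (y ∈ E)) = E.indicator fun _ => (1 : ℝ) := rfl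
    rw [e, integral_indicator_const _ mE, smul_eq_mul, mul_one]
  rw [integral_add i2 i3', e1] at h5
  have h6 : ∫ y, G y.1 * |J0' y.1 - J0 y.1| ∂M ≤ ε := by
    rw [← hmap (fun x => G x * |J0' x - J0 x|) (hg.ms'.mul (mJ'.sub hJ.ms').abs)]
    exact (integral_mono_measure hle (Eventually.of_forall fun x => mul_nonneg (hG x) (abs_nonneg _)) i3).trans rot
  linarith

end Pool.Agent.ROT.F3.LF

namespace Pool.Agent.ROT.F3

/-- **a Borel set of images**: `S ⊆ T '' E`, almost everywhere `y ∈ E → T y ∈ S` -/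
theorem s_im {Z Y : Type*} [MetricSpace Z] [CompleteSpace Z] [SecondCountableTopology Z] [MeasurableSpace Z] [BorelSpace Z]
    [TopologicalSpace Y] [T2Space Y] [MeasurableSpace Y] [BorelSpace Y] {M : Measure Z} (hM : IsFiniteMeasure M) {E : Set Z}
    (hE : MeasurableSet E) {T : Z → Y} (hT : Continuous T) :
    ∃ S : Set Y, MeasurableSet S ∧ S ⊆ T '' E ∧ ∀ᵐ z ∂M, z ∈ E → T z ∈ S := by
  have h1 : ∀ n : ℕ, ∃ K : Set Z, K ⊆ E ∧ IsCompact K ∧ M (E \ K) < ((n : ℝ≥0∞) + 1)⁻¹ := by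
    intro n
    obtain ⟨K, k1, k2, k3⟩ := hE.exists_isCompact_sdiff_lt (μ := M) (measure_ne_top M E) (ε := ((n : ℝ≥0∞) + 1)⁻¹)
      (ENNReal.inv_ne_zero.2 (by finiteness))
    exact ⟨K, k1, k2, k3⟩
  choose K k1 k2 k3 using h1
  refine ⟨⋃ n, T '' K n, MeasurableSet.iUnion fun n => ((k2 n).image hT).isClosed.measurableSet, ?_, ?_⟩
  · exact iUnion_subset fun n => image_mono (k1 n)
  · rw [ae_iff]
    have h2 : {z | ¬ (z ∈ E → T z ∈ ⋃ n, T '' K n)} ⊆ ⋂ n, E \ K n := by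
      intro z hz
      rw [mem_ofPred_eq, Classical.not_imp] at hz
      refine mem_iInter.2 fun n => ⟨hz.1, fun h => hz.2 (mem_iUnion.2 ⟨n, z, h, rfl⟩)⟩
    refine measure_mono_null h2 ?_
    refine le_antisymm (le_of_forall_pos_le_add fun ε hε => ?_) zero_le
    rw [zero_add]
    obtain ⟨n, hn⟩ := ENNReal.exists_inv_nat_lt hε.ne'
    refine (measure_mono (iInter_subset _ n)).trans ((k3 n).le.trans (le_trans ?_ hn.le))
    exact ENNReal.inv_le_inv.2 le_self_add

/-- the mass of the blocks -/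
theorem s_mass {Z Y : Type*} [MeasurableSpace Z] [MeasurableSpace Y] {M : Measure Z} (hM : IsFiniteMeasure M) {E : Set Z}
    {T : Z → Y} (hT : Measurable T) {S : Set Y} (hS : MeasurableSet S) (h : ∀ᵐ z ∂M, z ∈ E → T z ∈ S) :
    M.real E ≤ (M.map T).real S := by
  unfold Measure.real
  rw [Measure.map_apply hT hS]
  refine ENNReal.toReal_mono (measure_ne_top _ _) (measure_mono_ae ?_)
  filter_upwards [h] with z hz hzE
  exact hz hzE

end Pool.Agent.ROT.F3
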