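import Pool.Agent.ROT.F3Cut

/-!
# ROT / F3Inst (helper82): half plane and ball conditions give the hypotheses of `exW`, `exP`; the marks are unique

`lv d z` = level of `z` in the direction `d` (a unit vector). `TipC d r` : tip pieces (weakly left of their end, in the ball `r`);
`ConC d d' r` : connections (two tip pieces, both left of both cuts); `RestC d r0 R` : in the ball `r0` the rest is right of its
start; `RsC` : rests with both ends and a long displacement. `FstC d l p` : the end of `p` is the first cut of its own prefix with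
level at least `l`.
* **`hyp_of`** : `Hyp` for subclasses of these; `exW_of` : the hypotheses of `exW`;
* **`tip_unique`** : the first mark of a word is unique; `marks_walk`, `marks_closed`.
-/

set_option autoImplicit false

namespace Pool.Agent.ROT.F3

open Finset ComplexConjugate
open scoped ENNReal Classical

/-- level in the direction `d` -/
noncomputable def lv (d z : ℂ) : ℝ := (conj d * z).re

lemma lv_add (d z z' : ℂ) : lv d (z + z') = lv d z + lv d z' := by
  unfold lv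
  rw [mul_add, Complex.add_re]

lemma lv_sub (d z z' : ℂ) : lv d (z - z') = lv d z - lv d z' := by
  unfold lv
  rw [mul_sub, Complex.sub_re]

@[simp] lemma lv_zero (d : ℂ) : lv d 0 = 0 := by simp [lv]

/-- tip pieces: even, self-avoiding, not empty, weakly left of the end, in the ball `r` around the tip -/
structure TipC (d : ℂ) (r : ℝ) (p : W3) : Prop where
  ev : Even p.length
  sw : SW p
  pos : 0 < p.length
  left : ∀ k : ℕ, k ≤ p.length → lv d (ps p k) ≤ lv d (en p)
  ball : ∀ k : ℕ, k ≤ p.length → ‖ps p k‖ ≤ r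

/-- connections: two tip pieces with the same root, disjoint, both left of both cuts -/
structure ConC (d d' : ℂ) (r : ℝ) (a : W3 × W3) : Prop where
  t1 : TipC d r a.1
  t2 : TipC d' r a.2
  l2 : ∀ k : ℕ, k ≤ a.2.length → lv d (ps a.2 k) ≤ lv d (en a.1)
  l1 : ∀ k : ℕ, k ≤ a.1.length → lv d' (ps a.1 k) ≤ lv d' (en a.2)
  dj : ∀ j k : ℕ, j ≤ a.1.length → k ≤ a.2.length → ps a.1 j = ps a.2 k → j = 0 ∧ k = 0

/-- in the ball `r0` around its start the rest is right of its start -/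
def RestC (d : ℂ) (r0 : ℝ) (R : W3) : Prop := ∀ k : ℕ, 0 < k → k ≤ R.length → ‖ps R k‖ ≤ r0 → 0 < lv d (ps R k)

/-- rests between two cuts -/
structure RsC (d d' : ℂ) (r0 r0' D : ℝ) (R : W3) : Prop where
  ev : Even R.length
  sw : SW R
  s : RestC d r0 R
  e : RestC d' r0' R.reverse
  far : D ≤ ‖en R‖

lemma ConC.swap {d d' : ℂ} {r : ℝ} {a : W3 × W3} (h : ConC d d' r a) : ConC d' d r a.swap :=
  ⟨h.t2, h.t1, h.l1, h.l2, fun j k hj hk he => (h.dj k j hk hj he.symm).symm⟩

lemma ConC.cn {d d' : ℂ} {r : ℝ} {a : W3 × W3} (h : ConC d d' r a) : Cn a :=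
  ⟨h.t1.ev, h.t2.ev, h.t1.sw, h.t2.sw, h.dj⟩

lemma norm_en_le {d : ℂ} {r : ℝ} {p : W3} (h : TipC d r p) : ‖en p‖ ≤ r := h.ball _ le_rfl

/-- a tip piece and a rest placed at its end are disjoint -/
lemma tip_rest {d : ℂ} {r r0 : ℝ} {p R : W3} (h : TipC d r p) (hR : RestC d r0 R) (hr : 2 * r ≤ r0) :
    ∀ j k : ℕ, j < p.length → k ≤ R.length → ps p j ≠ en p + ps R k := by
  intro j k hj hk he
  rcases Nat.eq_zero_or_pos k with hk0 | hk0
  · subst hk0
    rw [ps_zero, add_zero] at he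
    have := h.sw j p.length hj.le le_rfl he
    omega
  · have h1 : ps R k = ps p j - en p := by rw [he]; ring
    have h2 : ‖ps R k‖ ≤ r0 := by
      rw [h1]
      calc ‖ps p j - en p‖ ≤ ‖ps p j‖ + ‖en p‖ := norm_sub_le _ _
        _ ≤ r0 := by linarith [h.ball j hj.le, norm_en_le h]
    have h3 := hR k hk0 hk h2
    rw [h1, lv_sub] at h3
    linarith [h.left j hj.le]

/-- **a connection and a rest placed at its first cut are disjoint** -/
lemma ConC.nr {d d' : ℂ} {r r0 : ℝ} {a : W3 × W3} {R : W3} (h : ConC d d' r a) (hR : RestC d r0 R) (hr : 2 * r ≤ r0) :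
    Nr a R := by
  refine ⟨tip_rest h.t1 hR hr, fun j k hj hk he => ?_⟩
  rcases Nat.eq_zero_or_pos k with hk0 | hk0
  · subst hk0
    rw [ps_zero, add_zero] at he
    have := h.dj a.1.length j le_rfl hj he.symm
    have := h.t1.pos
    omega
  · have h1 : ps R k = ps a.2 j - en a.1 := by rw [he]; ring
    have h2 : ‖ps R k‖ ≤ r0 := by
      rw [h1]
      calc ‖ps a.2 j - en a.1‖ ≤ ‖ps a.2 j‖ + ‖en a.1‖ := norm_sub_le _ _
        _ ≤ r0 := by linarith [h.t2.ball j hj, norm_en_le h.t1]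
    have h3 := hR k hk0 hk h2
    rw [h1, lv_sub] at h3
    linarith [h.l2 j hj]

lemma far_of {d1 d2 d1' d2' : ℂ} {r r' D : ℝ} {a b : W3 × W3} {R : W3} (ha : ConC d1 d2 r a) (hb : ConC d1' d2' r' b)
    (hD : 2 * (r + r') < D) (hR : D ≤ ‖en R‖) : Far a R b := by
  intro u v hu hv j k hj hk he
  have h1 : ‖ps u j‖ ≤ r := by
    rcases hu with rfl | rfl
    · exact ha.t1.ball j hj
    · exact ha.t2.ball j hj
  have h2 : ‖ps v k‖ ≤ r' := by
    rcases hv with rfl | rfl
    · exact hb.t1.ball k hk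
    · exact hb.t2.ball k hk
  have h3 : en R = ps u j - en a.1 + en b.1 - ps v k := by rw [he]; ring
  have h4 : ‖en R‖ ≤ ‖ps u j‖ + ‖en a.1‖ + ‖en b.1‖ + ‖ps v k‖ := by
    rw [h3]
    calc ‖ps u j - en a.1 + en b.1 - ps v k‖ ≤ ‖ps u j - en a.1 + en b.1‖ + ‖ps v k‖ := norm_sub_le _ _
      _ ≤ ‖ps u j - en a.1‖ + ‖en b.1‖ + ‖ps v k‖ := by linarith [norm_add_le (ps u j - en a.1) (en b.1)]
      _ ≤ _ := by linarith [norm_sub_le (ps u j) (en a.1)]
  linarith [norm_en_le ha.t1, norm_en_le hb.t1]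

/-- **the hypotheses of `exP`** -/
theorem hyp_of {C C' : Set (W3 × W3)} {RA RB : Set W3} {d1 d2 d1' d2' : ℂ} {r r' r0 r0' D : ℝ}
    (hC : ∀ a ∈ C, ConC d1 d2 r a) (hC' : ∀ b ∈ C', ConC d1' d2' r' b) (hA : ∀ R ∈ RA, RsC d1 d1' r0 r0' D R)
    (hB : ∀ R ∈ RB, RsC d2 d2' r0 r0' D R) (h0 : 2 * r ≤ r0) (h0' : 2 * r' ≤ r0') (hD : 2 * (r + r') < D) :
    Hyp C C' RA RB where
  cn a ha := (hC a ha).cn
  cn' b hb := (hC' b hb).cn
  rA R hR := ⟨(hA R hR).ev, (hA R hR).sw⟩
  rB R hR := ⟨(hB R hR).ev, (hB R hR).sw⟩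
  n1 a ha R hR := (hC a ha).nr (hA R hR).s h0
  n2 a ha R hR := (hC a ha).swap.nr (hB R hR).s h0
  n3 b hb R hR := (hC' b hb).nr (hA R hR).e h0'
  n4 b hb R hR := (hC' b hb).swap.nr (hB R hR).e h0'
  far a ha R hR b hb := far_of (hC a ha) (hC' b hb) hD (hA R hR).far

/-- **the exact product for the walks** -/
theorem exW_of {T Rs T' : Set W3} {d d' : ℂ} {r r' r0 r0' D : ℝ} (hT : ∀ a ∈ T, TipC d r a) (hT' : ∀ b ∈ T', TipC d' r' b)
    (hR : ∀ R ∈ Rs, RsC d d' r0 r0' D R) (h0 : 2 * r ≤ r0) (h0' : 2 * r' ≤ r0') (hD : 2 * (r + r') < D)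
    (f F f' : W3 → ℝ≥0∞) :
    ∑' w : W3, ∑ k ∈ range (w.length + 1), ∑ l ∈ range (w.length - k + 1),
      (if SW w ∧ w.take k ∈ T ∧ (w.drop k).take l ∈ Rs ∧ (w.drop (k + l)).reverse ∈ T' then
        wx w * (f (w.take k) * (F ((w.drop k).take l) * f' (w.drop (k + l)).reverse)) else 0) =
      ms T f * (ms Rs F * ms T' f') := by
  refine exW (fun a ha => ⟨(hT a ha).ev, (hT a ha).sw⟩) (fun R h => ⟨(hR R h).ev, (hR R h).sw⟩)
    (fun b hb => ⟨(hT' b hb).ev, (hT' b hb).sw⟩) (fun a ha R h => tip_rest (hT a ha) (hR R h).s h0)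
    (fun b hb R h j k hj hk => tip_rest (hT' b hb) (hR R h).e h0' j k hj (by rw [List.length_reverse]; exact hk))
    (fun a ha R h b hb j k hj hk he => ?_) f F f'
  have h1 := (hT a ha).ball j hj.le
  have h2 := (hT' b hb).ball k hk.le
  have h3 : en R = ps a j - en a + en b - ps b k := by rw [he]; ring
  have h4 : ‖en R‖ ≤ ‖ps a j‖ + ‖en a‖ + ‖en b‖ + ‖ps b k‖ := by
    rw [h3]
    calc ‖ps a j - en a + en b - ps b k‖ ≤ ‖ps a j - en a + en b‖ + ‖ps b k‖ := norm_sub_le _ _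
      _ ≤ ‖ps a j - en a‖ + ‖en b‖ + ‖ps b k‖ := by linarith [norm_add_le (ps a j - en a) (en b)]
      _ ≤ _ := by linarith [norm_sub_le (ps a j) (en a)]
  linarith [norm_en_le (hT a ha), norm_en_le (hT' b hb), (hR R h).far]

/-! ### uniqueness of the marks -/

/-- `k` is a cut of the word `p` (strictly inside) -/
def CutC (d : ℂ) (p : W3) (k : ℕ) : Prop :=
  (∀ j : ℕ, j ≤ k → lv d (ps p j) ≤ lv d (ps p k)) ∧ ∀ j : ℕ, k < j → j ≤ p.length → lv d (ps p k) < lv d (ps p j)

/-- the end of `p` is the first cut of its own prefix with level at least `l` -/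
def FstC (d : ℂ) (l : ℝ) (p : W3) : Prop :=
  l ≤ lv d (en p) ∧ ∀ k : ℕ, Even k → k < p.length → CutC d p k → lv d (ps p k) < l

/-- **the first mark is unique** -/
theorem tip_unique {d : ℂ} {r r0 l D : ℝ} {p p' R R' t t' : W3} (hp : TipC d r p) (hp' : TipC d r p') (f : FstC d l p)
    (f' : FstC d l p') (hR : RestC d r0 R) (hR' : RestC d r0 R') (eR : Even R.length) (eR' : Even R'.length)
    (hr : 2 * r ≤ r0) (hD : 2 * r < D) (fR : D ≤ ‖en R‖) (fR' : D ≤ ‖en R'‖) (h : p ++ (R ++ t) = p' ++ (R' ++ t')) :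
    p = p' := by
  have key : ∀ {p p' R R' t t' : W3}, TipC d r p → TipC d r p' → FstC d l p → FstC d l p' → RestC d r0 R → Even R.length →
      D ≤ ‖en R‖ → p ++ (R ++ t) = p' ++ (R' ++ t') → ¬ p.length < p'.length := by
    intro p p' R R' t t' hp hp' f f' hR eR fR h hl
    -- the vertices of p' are vertices of p ++ (R ++ t)
    have hv : ∀ j, j ≤ p'.length → ps p' j = ps (p ++ (R ++ t)) j := by
      intro j hj
      rw [h, ps_append_left hj]
    -- p' ends inside of R
    have h1 : p'.length ≤ p.length + R.length := by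
      by_contra hc
      push Not at hc
      have h2 := hp'.ball (p.length + R.length) hc.le
      rw [hv _ hc.le, ps_append_right hp.ev, ps_append_left le_rfl] at h2
      have h3 : ps R R.length = en R := rfl
      rw [h3] at h2
      have h4 : ‖en R‖ ≤ ‖en p + en R‖ + ‖en p‖ := by
        calc ‖en R‖ = ‖(en p + en R) - en p‖ := by ring_nf
          _ ≤ _ := norm_sub_le _ _
      linarith [norm_en_le hp]
    have h5 : ∀ j, p.length ≤ j → j ≤ p'.length → ps p' j = en p + ps R (j - p.length) := by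
      intro j hj hj'
      rw [hv j hj', ps_append_right' hp.ev hj, ps_append_left (by omega)]
    have h6 : ∀ j, j ≤ p.length → ps p' j = ps p j := fun j hj => by rw [hv j (by omega), ps_append_left hj]
    have h7 : ps p' p.length = en p := h6 _ le_rfl
    have hcut : CutC d p' p.length := by
      refine ⟨fun j hj => ?_, fun j hj hj' => ?_⟩
      · rw [h6 j hj, h7]
        exact hp.left j hj
      · rw [h7, h5 j hj.le hj', lv_add]
        have h8 : ‖ps R (j - p.length)‖ ≤ r0 := by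
          have h9 : ps R (j - p.length) = ps p' j - en p := by rw [h5 j hj.le hj']; ring
          rw [h9]
          calc ‖ps p' j - en p‖ ≤ ‖ps p' j‖ + ‖en p‖ := norm_sub_le _ _
            _ ≤ r0 := by linarith [hp'.ball j hj', norm_en_le hp]
        linarith [hR (j - p.length) (by omega) (by omega) h8]
    have h8 := f'.2 p.length hp.ev hl hcut
    rw [h7] at h8
    linarith [f.1]
  have k1 := key hp hp' f f' hR eR fR h
  have k2 := key hp' hp f' f hR' eR' fR' h.symm
  have hl : p.length = p'.length := by omega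
  exact (List.append_inj h hl).1

/-- **the two marks of a walk are unique** -/
theorem marks_walk {d d' : ℂ} {r r' r0 r0' l l' D : ℝ} {p p' R R' q q' : W3} (hp : TipC d r p) (hp' : TipC d r p')
    (f : FstC d l p) (f' : FstC d l p') (hq : TipC d' r' q) (hq' : TipC d' r' q') (g : FstC d' l' q) (g' : FstC d' l' q')
    (hR : RsC d d' r0 r0' D R) (hR' : RsC d d' r0 r0' D R') (h0 : 2 * r ≤ r0) (h0' : 2 * r' ≤ r0') (hD : 2 * r < D)
    (hD' : 2 * r' < D) (h : p ++ (R ++ q.reverse) = p' ++ (R' ++ q'.reverse)) : p = p' ∧ R = R' ∧ q = q' := by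
  have h1 := tip_unique hp hp' f f' hR.s hR'.s hR.ev hR'.ev h0 hD hR.far hR'.far h
  have e1 : ‖en R.reverse‖ = ‖en R‖ := by rw [en_reverse hR.ev, norm_neg]
  have e2 : ‖en R'.reverse‖ = ‖en R'‖ := by rw [en_reverse hR'.ev, norm_neg]
  have h2 : q ++ (R.reverse ++ p.reverse) = q' ++ (R'.reverse ++ p'.reverse) := by
    have := congrArg List.reverse h
    simpa [List.reverse_append] using this
  have h3 := tip_unique hq hq' g g' hR.e hR'.e (by rw [List.length_reverse]; exact hR.ev)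
    (by rw [List.length_reverse]; exact hR'.ev) h0' hD' (by rw [e1]; exact hR.far) (by rw [e2]; exact hR'.far) h2
  subst h1
  subst h3
  have h4 := List.append_cancel_left h
  exact ⟨rfl, List.append_cancel_right h4, rfl⟩

/-- **the marks of a closed word with the roots `0` and `m` are unique** -/
theorem marks_closed {d1 d2 d1' d2' : ℂ} {r r' r0 r0' l1 l2 l1' l2' D : ℝ} {a a' b b' : W3 × W3} {R R' S S' : W3}
    (ha : ConC d1 d2 r a) (ha' : ConC d1 d2 r a') (hb : ConC d1' d2' r' b) (hb' : ConC d1' d2' r' b')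
    (fa : FstC d1 l1 a.1 ∧ FstC d2 l2 a.2) (fa' : FstC d1 l1 a'.1 ∧ FstC d2 l2 a'.2)
    (fb : FstC d1' l1' b.1 ∧ FstC d2' l2' b.2) (fb' : FstC d1' l1' b'.1 ∧ FstC d2' l2' b'.2)
    (hR : RsC d1 d1' r0 r0' D R) (hR' : RsC d1 d1' r0 r0' D R') (hS : RsC d2 d2' r0 r0' D S) (hS' : RsC d2 d2' r0 r0' D S')
    (h0 : 2 * r ≤ r0) (h0' : 2 * r' ≤ r0') (hD : 2 * r < D) (hD' : 2 * r' < D)
    (hm : (a.1 ++ (R ++ b.1.reverse)).length = (a'.1 ++ (R' ++ b'.1.reverse)).length)
    (h : G6 a R b S = G6 a' R' b' S') : a = a' ∧ R = R' ∧ b = b' ∧ S = S' := by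
  have e : ∀ (a : W3 × W3) (R : W3) (b : W3 × W3) (S : W3),
      G6 a R b S = (a.1 ++ (R ++ b.1.reverse)) ++ (b.2 ++ (S.reverse ++ a.2.reverse)) := fun a R b S => by
    simp [G6, List.append_assoc]
  rw [e, e] at h
  obtain ⟨h1, h2⟩ := List.append_inj h hm
  obtain ⟨k1, k2, k3⟩ := marks_walk ha.t1 ha'.t1 fa.1 fa'.1 hb.t1 hb'.t1 fb.1 fb'.1 hR hR' h0 h0' hD hD' h1
  have h3 : a.2 ++ (S ++ b.2.reverse) = a'.2 ++ (S' ++ b'.2.reverse) := by
    have := congrArg List.reverse h2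
    simpa [List.reverse_append] using this
  obtain ⟨k4, k5, k6⟩ := marks_walk ha.t2 ha'.t2 fa.2 fa'.2 hb.t2 hb'.t2 fb.2 fb'.2 hS hS' h0 h0' hD hD' h3
  exact ⟨Prod.ext k1 k4, k2, Prod.ext k3 k6, k5⟩

end Pool.Agent.ROT.F3
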