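import Pool.Agent.ROT.F3Ex
import Pool.Agent.ARM.PlcA
import Pool.Agent.TSW.BC1Pub

/-!
# ROT, F3 (B), row W7 (helper79): tube words as rests, in the frame of the lists of letters

* `wd a t`: the walk of the word `t : List Bool`, turned by `a` third turns, the last direction of `t` is its last step;
  `length_wd`, `ps_wd`, `en_wd`, `wd_inj`, `wx_wd`, `SW_wd`;
* `PathB`: paths with two straight ends that keep away from the two balls; `tub_start`, `tub_stop`: the vertices in the balls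
  are in front of the start and near the half line, and the same at the end, read backwards; `tub_SW`: self-avoiding;
* `ms_wd`: lower bound of the mass of a class of rests.
-/

set_option autoImplicit false

namespace Pool.Agent.ROT.F3.Tb

open Finset
open HexObs (Pt vx dx oo up dirs ip nrm cl rotL rotR wE gf tf)
open NTF (sw JJ aa)
open Pool.Agent.TSW.BP (rt3 cr pos_rt3 cr_norm)
open Pool.Agent.NTS.Res (step pos saw fug)

open scoped ENNReal

/-! ### 1. The words -/

/-- **the walk of a word**, turned by `a` third turns; its last step is the last direction of the word -/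
noncomputable def wd (a : Fin 3) (t : List Bool) : W3 := List.ofFn (rt3 a (sw (t.length + 1) t))

lemma length_wd (a : Fin 3) (t : List Bool) : (wd a t).length = t.length + 1 := List.length_ofFn

lemma ps_wd (a : Fin 3) (t : List Bool) {k : ℕ} (hk : k ≤ t.length + 1) : ps (wd a t) k = cr a * JJ (vx oo up t k) := by
  unfold wd
  rw [ps_ofFn, pos_rt3, NTSF.pos_sw _ _ _ hk]

/-- the last vertex in the triangular lattice -/
def enp (t : List Bool) : Pt := HexObs.TIW.en t + HexObs.TIW.de t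

lemma vx_last (t : List Bool) : vx oo up t (t.length + 1) = enp t := HexObs.vx_succ _ _ _ _

lemma en_wd (a : Fin 3) (t : List Bool) : en (wd a t) = cr a * JJ (enp t) := by
  rw [en, length_wd, ps_wd a t le_rfl, vx_last]

lemma cr_ne (a : Fin 3) : cr a ≠ 0 := by
  intro h
  have := cr_norm a
  rw [h, norm_zero] at this
  exact zero_ne_one this

lemma sw_inj' {n : ℕ} {t t' : List Bool} (ht : t.length = n) (ht' : t'.length = n) (he : sw (n + 1) t = sw (n + 1) t') :
    t = t' := by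
  have e1 : ∀ i, i ≤ n → dx up t i = dx up t' i := by
    intro i hi
    have h6 : aa (dx up t i) = aa (dx up t' i) := congrFun he ⟨i, by omega⟩
    have a1 := NTF.de_aa _ (HexObs.dx_mem HexObs.TIW.upd' t i)
    have a2 := NTF.de_aa _ (HexObs.dx_mem HexObs.TIW.upd' t' i)
    have b1 := HexObs.cl_dx up t i
    have b2 := HexObs.cl_dx up t' i
    split_ifs at b1 b2
    · rw [← a1.1 b1, ← a2.1 b2, h6]
    · rw [← a1.2 b1, ← a2.2 b2, h6]
  have hturn : ∀ d ∈ dirs, ∀ b b' : Bool, HexObs.turn b d = HexObs.turn b' d → b = b' := by decide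
  apply List.ext_getElem (by rw [ht, ht'])
  intro i h5 h6
  have a1 := e1 (i + 1) (by omega)
  rw [HexObs.dx_succ, HexObs.dx_succ, e1 i (by omega)] at a1
  have a2 := hturn _ (HexObs.dx_mem HexObs.TIW.upd' t' i) _ _ a1
  have b1 : tf t i = t[i] := by
    unfold HexObs.tf
    rw [List.getD_eq_getElem _ _ h5]
  have b2 : tf t' i = t'[i] := by
    unfold HexObs.tf
    rw [List.getD_eq_getElem _ _ h6]
  rw [← b1, ← b2, a2]

lemma wd_inj (a : Fin 3) : Function.Injective (wd a) := by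
  intro t t' h
  have hl := congrArg List.length h
  rw [length_wd, length_wd] at hl
  obtain ⟨n, hn⟩ : ∃ n, n = t.length := ⟨_, rfl⟩
  have hn' : n = t'.length := by omega
  unfold wd at h
  rw [← hn, ← hn'] at h
  have h1 := List.ofFn_injective h
  refine sw_inj' (n := n) hn.symm hn'.symm ?_
  funext i
  have h2 : sw (n + 1) t i + a = sw (n + 1) t' i + a := congrFun h1 i
  exact add_right_cancel h2

lemma wx_wd (a : Fin 3) (t : List Bool) : wx (wd a t) = ENNReal.ofReal HexObs.xc * wE t := by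
  unfold wx HexObs.wE
  rw [length_wd, NTSF.fug_eq, pow_succ, mul_comm, ENNReal.ofReal_pow HexObs.xc_pos.le]

/-! ### 2. The plane -/

lemma JJ_smul (t : ℤ) (v : Pt) : JJ (t • v) = (t : ℂ) * JJ v := by
  apply Complex.ext
  · rw [NTF.JJ_re, Complex.mul_re, NTF.JJ_re, NTF.JJ_im, Prod.smul_fst, Prod.smul_snd]
    simp only [smul_eq_mul, Complex.intCast_re, Complex.intCast_im, zero_mul, sub_zero]
    push_cast
    ring
  · rw [NTF.JJ_im, Complex.mul_im, NTF.JJ_re, NTF.JJ_im, Prod.smul_fst]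
    simp only [smul_eq_mul, Complex.intCast_re, Complex.intCast_im, zero_mul, add_zero]
    push_cast
    ring

lemma JJ_up : JJ up = 1 := by
  apply Complex.ext
  · rw [NTF.JJ_re]
    simp [up]
  · rw [NTF.JJ_im]
    simp [up]

lemma JJ_re_ip (v : Pt) : (JJ v).re = (ip v up : ℝ) / 2 := by
  rw [NTF.JJ_re]
  unfold HexObs.ip HexObs.up
  push_cast
  ring

lemma JJ_zero : JJ 0 = 0 := by
  have := NTF.JJ_sub 0 0
  rwa [sub_zero, sub_self] at this

lemma norm_JJ_le (v : Pt) : ‖JJ v‖ ≤ (HexObs.TIW.hn v : ℝ) := by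
  refine le_of_sq_le_sq ?_ (by exact_mod_cast HexObs.TIW.hn_nonneg v)
  rw [NTF.JJ_norm]
  exact_mod_cast HexObs.TIW.nrm_le_hn v

lemma norm_JJ_dir {d : Pt} (hd : d ∈ dirs) : ‖JJ d‖ = 1 := by
  have h := NTF.JJ_norm d
  rw [HexObs.mem_dirs.1 hd] at h
  have h0 := norm_nonneg (JJ d)
  push_cast at h
  nlinarith

/-! ### 3. Tube words with straight ends -/

/-- **paths with straight ends** (`s` resp. `s'` steps), whose other nodes keep away from the two ends -/
structure PathB (E : ℕ → Pt) (D : ℤ) (n s s' : ℕ) (R0 R1 : ℝ) : Prop where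
  ip : HexObs.AR.IPath E n
  s1 : 1 ≤ s
  s1' : 1 ≤ s'
  le : s + s' ≤ n
  fst : ∀ i, i < s → E i = up
  lst : ∀ i, n - s' ≤ i → i < n → E i = E (n - 1)
  far0 : ∀ i, s ≤ i → i ≤ n → R0 ≤ ‖JJ (HexObs.AR.pv E D i)‖
  far1 : ∀ i, i + s' ≤ n → R1 ≤ ‖JJ (HexObs.AR.pv E D i - HexObs.AR.pv E D n)‖

section tubes

variable {E : ℕ → Pt} {D w B : ℤ} {n s s' : ℕ} {R0 R1 : ℝ} {z : Pt} {Q : List Bool}

lemma PathB.pv0 (h : PathB E D n s s' R0 R1) {j : ℕ} (hj : j ≤ s) : HexObs.AR.pv E D j = (D * j) • up := by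
  induction j with
  | zero =>
    unfold HexObs.AR.pv
    rw [HexObs.ARM.G3.ps_zero, Nat.cast_zero, mul_zero, smul_zero, zero_smul]
  | succ j ih =>
    rw [HexObs.AR.pv_succ, ih (by omega), h.fst j (by omega), ← add_smul]
    congr 1
    push_cast
    ring

lemma PathB.pv1 (h : PathB E D n s s' R0 R1) {j : ℕ} (hj : j ≤ s') :
    HexObs.AR.pv E D (n - j) = HexObs.AR.pv E D n - (D * j) • E (n - 1) := by
  have hle := h.le
  induction j with
  | zero => rw [Nat.sub_zero, Nat.cast_zero, mul_zero, zero_smul, sub_zero]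
  | succ j ih =>
    have h1 := ih (by omega)
    have h2 : n - j = n - (j + 1) + 1 := by omega
    rw [h2, HexObs.AR.pv_succ, h.lst (n - (j + 1)) (by omega) (by omega)] at h1
    rw [eq_sub_iff_add_eq] at h1 ⊢
    rw [← h1, add_assoc, ← add_smul]
    congr 2
    push_cast
    ring

/-- a point near a segment is near one of its nodes -/
lemma near_node {c d y : Pt} (hd : d ∈ dirs) (h : HexObs.AR.NS c d D w y) : ‖JJ (y - c)‖ ≤ D + w := by
  obtain ⟨t, t0, tD, ht⟩ := h
  have e1 : y - c = (y - (c + t • d)) + t • d := by abel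
  rw [e1, NTF.JJ_add]
  refine (norm_add_le _ _).trans ?_
  have h1 := norm_JJ_le (y - (c + t • d))
  have h2 : ‖JJ (t • d)‖ ≤ D := by
    rw [JJ_smul, norm_mul, norm_JJ_dir hd, mul_one, Complex.norm_intCast, abs_of_nonneg (by exact_mod_cast t0)]
    exact_mod_cast tD
  have h3 : (HexObs.TIW.hn (y - (c + t • d)) : ℝ) ≤ w := by exact_mod_cast ht
  linarith

/-- near the start only the straight beginning -/
lemma PathB.seg0 (h : PathB E D n s s' R0 R1) {j : ℕ} (hj : j < n) {y : Pt} (hy : HexObs.ARM.Nr E D w j y)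
    (hb : ‖JJ y‖ < R0 - (D + w)) : j < s := by
  by_contra hc
  have h1 := h.far0 j (by omega) hj.le
  have h2 := near_node (h.ip.dir j hj) hy
  have h3 : ‖JJ (HexObs.AR.pv E D j)‖ ≤ ‖JJ y‖ + ‖JJ (y - HexObs.AR.pv E D j)‖ := by
    have e1 : JJ (HexObs.AR.pv E D j) = JJ y - JJ (y - HexObs.AR.pv E D j) := by
      rw [NTF.JJ_sub]
      ring
    rw [e1]
    exact norm_sub_le _ _
  linarith

/-- near the end only the straight end -/
lemma PathB.seg1 (h : PathB E D n s s' R0 R1) {j : ℕ} (hj : j < n) {y : Pt} (hy : HexObs.ARM.Nr E D w j y)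
    (hb : ‖JJ (y - HexObs.AR.pv E D n)‖ < R1 - (D + w)) : n - s' ≤ j := by
  by_contra hc
  have h1 := h.far1 j (by omega)
  have h2 := near_node (h.ip.dir j hj) hy
  have h3 : ‖JJ (HexObs.AR.pv E D j - HexObs.AR.pv E D n)‖ ≤ ‖JJ (y - HexObs.AR.pv E D n)‖ + ‖JJ (y - HexObs.AR.pv E D j)‖ := by
    have e1 : JJ (HexObs.AR.pv E D j - HexObs.AR.pv E D n) =
        JJ (y - HexObs.AR.pv E D n) - JJ (y - HexObs.AR.pv E D j) := by
      rw [← NTF.JJ_sub]
      congr 1
      abel
    rw [e1]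
    exact norm_sub_le _ _
  linarith

/-- a point near a straight beginning -/
lemma cone_seg {c d y : Pt} {x : ℤ} (h : HexObs.AR.NS (c + x • d) d D w y) :
    ∃ x' : ℤ, x ≤ x' ∧ HexObs.TIW.hn (y - (c + x' • d)) ≤ w := by
  obtain ⟨t, t0, tD, ht⟩ := h
  refine ⟨x + t, by linarith, ?_⟩
  rw [add_smul, ← add_assoc]
  exact ht

/-- **the start**: the vertices in the ball are in front of the start and near the half line -/
theorem tub_start (h : PathB E D n s s' R0 R1) (hD : w < 2 * D) (hD0 : 0 ≤ D) (hQ : HexObs.ARM.TubeQ E D w n z Q) {i : ℕ}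
    (h1 : 1 ≤ i) (hi : i ≤ Q.length) (hb : ‖JJ (vx oo up Q i)‖ < R0 - (D + w)) :
    0 < ip (vx oo up Q i) up ∧ ∃ x : ℝ, 0 ≤ x ∧ ‖JJ (vx oo up Q i) - x‖ ≤ w := by
  have key : ∀ j, j < n → HexObs.ARM.Nr E D w j (vx oo up Q i) →
      ∃ x : ℤ, D * j ≤ x ∧ HexObs.TIW.hn (vx oo up Q i - x • up) ≤ w := by
    intro j hj hy
    have hjs := h.seg0 hj hy hb
    unfold HexObs.ARM.Nr at hy
    rw [h.pv0 hjs.le, h.fst j hjs, ← zero_add ((D * (j : ℤ)) • up)] at hy
    obtain ⟨x, hx, hx'⟩ := cone_seg hy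
    rw [zero_add] at hx'
    exact ⟨x, hx, hx'⟩
  refine ⟨?_, ?_⟩
  · rcases hQ.st i h1 hi with g | ⟨j, g1, g2, g3⟩
    · exact g
    · obtain ⟨x, hx, hx'⟩ := key j g2 g3
      have h2 := HexObs.TIW.neg_hn_le_ip (vx oo up Q i - x • up) HexObs.TIW.upd'
      rw [HexObs.AR.ip_sub_left, HexObs.AR.ip_smul_self HexObs.TIW.upd'] at h2
      have h3 : D ≤ D * j := by
        have : (1 : ℤ) ≤ j := by exact_mod_cast g1
        nlinarith
      linarith
  · obtain ⟨j, g1, g2⟩ := hQ.rg i hi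
    obtain ⟨x, hx, hx'⟩ := key j g1 g2
    refine ⟨x, by exact_mod_cast (mul_nonneg hD0 (Nat.cast_nonneg j)).trans hx, ?_⟩
    have h2 := norm_JJ_le (vx oo up Q i - x • up)
    rw [NTF.JJ_sub, JJ_smul, JJ_up, mul_one] at h2
    have h3 : (HexObs.TIW.hn (vx oo up Q i - x • up) : ℝ) ≤ w := by exact_mod_cast hx'
    have e1 : ((x : ℝ) : ℂ) = (x : ℂ) := by push_cast; rfl
    rw [e1]
    linarith

lemma enp_near (hQ : HexObs.ARM.TubeQ E D w n z Q) (hz : HexObs.TIW.hn (z - HexObs.AR.pv E D n) ≤ B) :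
    HexObs.TIW.hn (enp Q - HexObs.AR.pv E D n) ≤ B + 2 := by
  have e1 : enp Q - HexObs.AR.pv E D n = (z - HexObs.AR.pv E D n) + HexObs.TIW.de Q := by
    unfold enp
    rw [hQ.en]
    abel
  rw [e1]
  have h1 := HexObs.TIW.hn_add (z - HexObs.AR.pv E D n) (HexObs.TIW.de Q)
  have h2 := HexObs.TIW.hn_dir (HexObs.TIW.de_mem Q)
  linarith

/-- **the end, read backwards** -/
theorem tub_stop (h : PathB E D n s s' R0 R1) (hD : w + B + 2 < 2 * D) (hD0 : 0 ≤ D) (hQ : HexObs.ARM.TubeQ E D w n z Q)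
    (hz : HexObs.TIW.hn (z - HexObs.AR.pv E D n) ≤ B) {i : ℕ} (hi : i ≤ Q.length)
    (hb : ‖JJ (vx oo up Q i - enp Q)‖ < R1 - (D + w) - (B + 2)) :
    ip (vx oo up Q i - enp Q) (E (n - 1)) < 0 ∧
      ∃ x : ℝ, 0 ≤ x ∧ ‖JJ (vx oo up Q i - enp Q) - x * JJ (-E (n - 1))‖ ≤ w + (B + 2) := by
  have hle := h.le
  have hs1 := h.s1
  have hd : E (n - 1) ∈ dirs := h.ip.dir _ (by omega)
  have he := enp_near hQ hz
  have heR : ‖JJ (enp Q - HexObs.AR.pv E D n)‖ ≤ B + 2 := by
    refine (norm_JJ_le _).trans ?_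
    exact_mod_cast he
  have hb' : ‖JJ (vx oo up Q i - HexObs.AR.pv E D n)‖ < R1 - (D + w) := by
    have e1 : JJ (vx oo up Q i - HexObs.AR.pv E D n) =
        JJ (vx oo up Q i - enp Q) + JJ (enp Q - HexObs.AR.pv E D n) := by
      rw [← NTF.JJ_add]
      congr 1
      abel
    rw [e1]
    have := norm_add_le (JJ (vx oo up Q i - enp Q)) (JJ (enp Q - HexObs.AR.pv E D n))
    linarith
  have key : ∀ j, j < n → HexObs.ARM.Nr E D w j (vx oo up Q i) → ∃ x : ℤ, D * ((n : ℤ) - j) - D ≤ x ∧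
      HexObs.TIW.hn (vx oo up Q i - HexObs.AR.pv E D n + x • E (n - 1)) ≤ w := by
    intro j hj hy
    have hjs := h.seg1 hj hy hb'
    obtain ⟨t, t0, tD, ht⟩ := hy
    have e1 : HexObs.AR.pv E D j = HexObs.AR.pv E D n - (D * (n - j : ℕ)) • E (n - 1) := by
      rw [← h.pv1 (by omega : n - j ≤ s')]
      congr 1
      omega
    rw [e1, h.lst j hjs hj] at ht
    refine ⟨D * (n - j : ℕ) - t, ?_, ?_⟩
    · rw [Nat.cast_sub hj.le]
      linarith
    · have e2 : vx oo up Q i - HexObs.AR.pv E D n + (D * ((n - j : ℕ) : ℤ) - t) • E (n - 1) =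
          vx oo up Q i - (HexObs.AR.pv E D n - (D * ((n - j : ℕ) : ℤ)) • E (n - 1) + t • E (n - 1)) := by
        rw [sub_smul]
        abel
      rw [e2]
      exact ht
  have hee : ∀ y : Pt, ip (y - enp Q) (E (n - 1)) = ip (y - z) (E (n - 1)) - 2 := by
    intro y
    have e1 : y - enp Q = (y - z) - E (n - 1) := by
      unfold enp
      rw [hQ.en, hQ.de]
      abel
    rw [e1, HexObs.AR.ip_sub_left]
    have h2 : ip (E (n - 1)) (E (n - 1)) = 2 := by
      have := HexObs.AR.ip_smul_self hd 1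
      rwa [one_smul, mul_one] at this
    rw [h2]
  refine ⟨?_, ?_⟩
  · rcases hQ.bd i hi with g | ⟨j, g1, g3⟩
    · rw [hee]
      linarith
    · obtain ⟨x, hx, hx'⟩ := key j (by omega) g3
      have h2 := HexObs.TIW.ip_le_hn (vx oo up Q i - HexObs.AR.pv E D n + x • E (n - 1)) hd
      rw [HexObs.ip_add_left, HexObs.AR.ip_smul_self hd] at h2
      have h3 := HexObs.TIW.ip_le_hn (-(enp Q - HexObs.AR.pv E D n)) hd
      rw [HexObs.TIW.hn_neg] at h3
      have e1 : vx oo up Q i - enp Q = (vx oo up Q i - HexObs.AR.pv E D n) + (-(enp Q - HexObs.AR.pv E D n)) := by abel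
      rw [e1, HexObs.ip_add_left]
      have h4 : 2 * D ≤ D * ((n : ℤ) - j) := by
        have : (2 : ℤ) ≤ (n : ℤ) - j := by omega
        nlinarith
      linarith
  · obtain ⟨j, g1, g2⟩ := hQ.rg i hi
    obtain ⟨x, hx, hx'⟩ := key j g1 g2
    have hx0 : 0 ≤ x := by
      have : (1 : ℤ) ≤ (n : ℤ) - j := by omega
      nlinarith
    refine ⟨x, by exact_mod_cast hx0, ?_⟩
    have e1 : JJ (vx oo up Q i - enp Q) - (x : ℝ) * JJ (-E (n - 1)) =
        JJ (vx oo up Q i - HexObs.AR.pv E D n + x • E (n - 1)) - JJ (enp Q - HexObs.AR.pv E D n) := by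
      have e2 : ((x : ℝ) : ℂ) = (x : ℂ) := by push_cast; rfl
      rw [e2, ← JJ_smul, ← NTF.JJ_sub, ← NTF.JJ_sub]
      congr 1
      rw [smul_neg]
      abel
    rw [e1]
    have h2 := norm_JJ_le (vx oo up Q i - HexObs.AR.pv E D n + x • E (n - 1))
    have h3 : (HexObs.TIW.hn (vx oo up Q i - HexObs.AR.pv E D n + x • E (n - 1)) : ℝ) ≤ w := by exact_mod_cast hx'
    have := norm_sub_le (JJ (vx oo up Q i - HexObs.AR.pv E D n + x • E (n - 1))) (JJ (enp Q - HexObs.AR.pv E D n))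
    linarith

/-- **self-avoiding, with the last step** -/
theorem tub_SW (h : PathB E D n s s' R0 R1) (hD : w + B + 2 < 2 * D) (hD0 : 0 ≤ D) (hR : (D : ℝ) + w + (B + 2) < R1)
    (hQ : HexObs.ARM.TubeQ E D w n z Q) (hz : HexObs.TIW.hn (z - HexObs.AR.pv E D n) ≤ B) (a : Fin 3) : SW (wd a Q) := by
  have key : ∀ i, i ≤ Q.length → vx oo up Q i ≠ vx oo up Q (Q.length + 1) := by
    intro i hi he
    rw [vx_last] at he
    have h1 := (tub_stop h hD hD0 hQ hz hi (by
      rw [he, sub_self, JJ_zero, norm_zero]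
      linarith)).1
    rw [he, sub_self] at h1
    simp [HexObs.ip] at h1
  have key2 : ∀ i k, i < k → k ≤ Q.length + 1 → vx oo up Q i ≠ vx oo up Q k := by
    intro i k hik hk
    rcases Nat.lt_or_ge Q.length k with h1 | h1
    · have : k = Q.length + 1 := by omega
      rw [this]
      exact key i (by omega)
    · exact hQ.sa.inj i k hik h1
  intro j k hj hk he
  rw [length_wd] at hj hk
  rw [ps_wd a Q hj, ps_wd a Q hk] at he
  have he' := NTF.JJ_inj (mul_left_cancel₀ (cr_ne a) he)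
  rcases lt_trichotomy j k with h1 | h1 | h1
  · exact absurd he' (key2 j k h1 hk)
  · exact h1
  · exact absurd he'.symm (key2 k j h1 hj)

end tubes

/-! ### 4. The mass -/

/-- **lower bound of the mass of a class of rests** -/
theorem ms_wd (a : Fin 3) {S : Set (List Bool)} {T : Set W3} {f : W3 → ℝ≥0∞} (hT : ∀ t ∈ S, wd a t ∈ T)
    (hf : ∀ t ∈ S, 1 ≤ f (wd a t)) : ENNReal.ofReal HexObs.xc * gf S ≤ ms T f := by
  classical
  unfold ms HexObs.gf
  rw [← ENNReal.tsum_mul_left]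
  refine le_trans (ENNReal.tsum_le_tsum fun t => ?_) (ENNReal.tsum_comp_le_tsum_of_injective
    (f := fun t : S => wd a (t : List Bool)) (fun t t' h => Subtype.ext (wd_inj a h))
    (fun w : W3 => if w ∈ T then wx w * f w else 0))
  rw [if_pos (hT _ t.2), wx_wd]
  calc ENNReal.ofReal HexObs.xc * wE (t : List Bool) = ENNReal.ofReal HexObs.xc * wE (t : List Bool) * 1 := (mul_one _).symm
    _ ≤ _ := mul_le_mul' le_rfl (hf _ t.2)

end Pool.Agent.ROT.F3.Tb
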