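import Pool.Agent.ROT.FLoopC
set_option autoImplicit false
open Set Filter Topology MeasureTheory
namespace Pool.Agent.ROT.F
open Pool.Agent.NPR

/-- the time of the curve is the number of its pieces, up to the factors `h i` -/
def Ck (ρ h : ℕ → ℝ) (t : ℝ) (γ : C(unitInterval, ℂ)) : Prop :=
  ∀ u : unitInterval, Tendsto (fun i => h i * vb (ρ i) γ u / ρ i) atTop (𝓝 (t * u))

lemma pcs_dist {s : ℝ} (hs : 0 < s) (γ : C(unitInterval, ℂ)) (u : unitInterval) :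
    dist (γ 0) (γ u) ≤ pcs s γ 0 u * s := by
  obtain ⟨h1, v, hv, h0, hk, hd⟩ := pcs_spec hs γ (a := 0) (b := u) unitInterval.nonneg'
  obtain ⟨k, hkk⟩ : ∃ k, k = pcs s γ 0 u := ⟨_, rfl⟩
  rw [← hkk] at h1 hk hd ⊢
  have : ∀ i, i ≤ k → dist (γ 0) (γ (v i)) ≤ i * s := by
    intro i
    induction i with
    | zero =>
      intro _
      rw [h0, dist_self, Nat.cast_zero, zero_mul]
    | succ i ih =>
      intro hi
      have e1 := ih (by omega)
      have e2 := hd i (by omega) (v i) ⟨le_rfl, hv (Nat.le_succ i)⟩ (v (i + 1)) ⟨hv (Nat.le_succ i), le_rfl⟩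
      have e3 := dist_triangle (γ 0) (γ (v i)) (γ (v (i + 1)))
      push_cast
      linarith
  have h2 := this k le_rfl
  rwa [hk] at h2

lemma vb_low {ρ : ℝ} (hρ : 0 < ρ) (γ : C(unitInterval, ℂ)) (u : unitInterval) :
    dist (γ 0) (γ u) / 2 ≤ vb ρ γ 1 := by
  have h1 : ∫ _s in ρ..2 * ρ, dist (γ 0) (γ u) / (2 * ρ) ≤ ∫ s in ρ..2 * ρ, (pcs s γ 0 1 : ℝ) := by
    refine intervalIntegral.integral_mono_on (by linarith) (by simp) (pcs_int γ 1 hρ (by linarith)) fun s hs => ?_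
    have hs0 : 0 < s := lt_of_lt_of_le hρ hs.1
    have e1 := pcs_dist hs0 γ u
    have e2 : (pcs s γ 0 u : ℝ) ≤ pcs s γ 0 1 := by
      exact_mod_cast pcs_mono_right hs0 γ (a := 0) (b := 1) unitInterval.nonneg' unitInterval.le_one'
    rw [div_le_iff₀ (by linarith)]
    have e3 : (0 : ℝ) ≤ pcs s γ 0 1 := Nat.cast_nonneg _
    have e4 := hs.2
    nlinarith
  rw [intervalIntegral.integral_const, smul_eq_mul] at h1
  have e : (2 * ρ - ρ) * (dist (γ 0) (γ u) / (2 * ρ)) = dist (γ 0) (γ u) / 2 := by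
    field_simp
    ring
  rw [e] at h1
  exact h1

lemma Ck.h_zero {ρ h : ℕ → ℝ} {t : ℝ} {γ : C(unitInterval, ℂ)} (hρ : ∀ i, 0 < ρ i) (hρ0 : Tendsto ρ atTop (𝓝 0))
    (hc : Ck ρ h t γ) (u : unitInterval) (hu : γ 0 ≠ γ u) : Tendsto h atTop (𝓝 0) := by
  have hd : 0 < dist (γ 0) (γ u) := dist_pos.2 hu
  have h1 := hc 1
  have h2 : Tendsto (fun i => |h i * vb (ρ i) γ 1 / ρ i| * (ρ i * (2 / dist (γ 0) (γ u)))) atTop (𝓝 0) := by
    have := h1.abs.mul (hρ0.mul_const (2 / dist (γ 0) (γ u)))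
    simpa using this
  refine squeeze_zero_norm (fun i => ?_) h2
  have e1 := vb_low (hρ i) γ u
  have e2 := hρ i
  have e3 : 0 ≤ |h i| := abs_nonneg _
  rw [Real.norm_eq_abs, abs_div, abs_mul, abs_of_pos e2, abs_of_pos (vb_pos e2 γ 1)]
  have e4 : |h i| * vb (ρ i) γ 1 / ρ i * (ρ i * (2 / dist (γ 0) (γ u))) =
      |h i| * (vb (ρ i) γ 1 / (dist (γ 0) (γ u) / 2)) := by
    field_simp
  rw [e4]
  refine le_mul_of_one_le_right e3 ?_
  rw [le_div_iff₀ (by positivity), one_mul]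
  exact e1

/-- transfer of the clock -/
lemma Ck.lin {ρ h : ℕ → ℝ} {t α β c : ℝ} {γ γ' : C(unitInterval, ℂ)} (hρ : ∀ i, 0 < ρ i) (hc : Ck ρ h t γ)
    (hh : Tendsto h atTop (𝓝 0)) {w v u x : unitInterval}
    (H : ∀ s, 0 < s → α * pcs s γ 0 v - pcs s γ 0 u + β * pcs s γ 0 x - c ≤ pcs s γ' 0 w ∧
      (pcs s γ' 0 w : ℝ) ≤ α * pcs s γ 0 v - pcs s γ 0 u + β * pcs s γ 0 x + c) :
    Tendsto (fun i => h i * vb (ρ i) γ' w / ρ i) atTop (𝓝 (α * (t * v) - t * u + β * (t * x))) := by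
  have h1 : Tendsto (fun i => α * (h i * vb (ρ i) γ v / ρ i) - h i * vb (ρ i) γ u / ρ i +
      β * (h i * vb (ρ i) γ x / ρ i)) atTop (𝓝 (α * (t * v) - t * u + β * (t * x))) :=
    (((hc v).const_mul α).sub (hc u)).add ((hc x).const_mul β)
  have h2 : Tendsto (fun i => h i * vb (ρ i) γ' w / ρ i - (α * (h i * vb (ρ i) γ v / ρ i) - h i * vb (ρ i) γ u / ρ i +
      β * (h i * vb (ρ i) γ x / ρ i))) atTop (𝓝 0) := by
    have h3 : Tendsto (fun i => |h i| * c) atTop (𝓝 0) := by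
      have := hh.abs.mul_const c
      simpa using this
    refine squeeze_zero_norm (fun i => ?_) h3
    have e1 := vb_lin (hρ i) (H)
    have e2 := hρ i
    have e3 : h i * vb (ρ i) γ' w / ρ i - (α * (h i * vb (ρ i) γ v / ρ i) - h i * vb (ρ i) γ u / ρ i +
        β * (h i * vb (ρ i) γ x / ρ i)) =
        h i * ((vb (ρ i) γ' w - (α * vb (ρ i) γ v - vb (ρ i) γ u + β * vb (ρ i) γ x)) / ρ i) := by
      field_simp
    rw [e3, Real.norm_eq_abs, abs_mul, abs_div, abs_of_pos e2]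
    refine mul_le_mul_of_nonneg_left ?_ (abs_nonneg _)
    rwa [div_le_iff₀ e2]
  have h3 := h2.add h1
  simpa using h3

lemma Ck.rt {ρ h : ℕ → ℝ} {t : ℝ} {γ : C(unitInterval, ℂ)} (hρ : ∀ i, 0 < ρ i) (hc : Ck ρ h t γ)
    (hh : Tendsto h atTop (𝓝 0)) (h01 : γ 0 = γ 1) (u : unitInterval) : Ck ρ h t (rt u γ) := by
  intro w
  obtain ⟨x, -, hx⟩ := rt_pt h01 u w
  have k1 : ((1 : unitInterval) : ℝ) = 1 := rfl
  rcases hx with ⟨hx, -⟩ | ⟨hx, -⟩
  · have := Ck.lin (α := 0) (β := 1) (c := 1) hρ hc hh (γ' := Pool.Agent.ROT.F.rt u γ) (w := w) (v := 1) (u := u) (x := x) fun s hs => by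
      have e := pcs_rt_lo hs γ hx
      constructor <;> linarith [e.1, e.2]
    have e : (0 : ℝ) * (t * ((1 : unitInterval) : ℝ)) - t * u + 1 * (t * x) = t * w := by
      rw [hx]
      ring
    rwa [e] at this
  · have := Ck.lin (α := 1) (β := 1) (c := 1) hρ hc hh (γ' := Pool.Agent.ROT.F.rt u γ) (w := w) (v := 1) (u := u) (x := x) fun s hs => by
      have e := pcs_rt_hi hs h01 hx
      constructor <;> linarith [e.1, e.2]
    have e : (1 : ℝ) * (t * ((1 : unitInterval) : ℝ)) - t * u + 1 * (t * x) = t * w := by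
      rw [hx, k1]
      ring
    rwa [e] at this

lemma Ck.rv {ρ h : ℕ → ℝ} {t : ℝ} {γ : C(unitInterval, ℂ)} (hρ : ∀ i, 0 < ρ i) (hc : Ck ρ h t γ)
    (hh : Tendsto h atTop (𝓝 0)) : Ck ρ h t (rv γ) := by
  intro w
  have k1 : ((1 : unitInterval) : ℝ) = 1 := rfl
  have := Ck.lin (α := 1) (β := 0) (c := 1) hρ hc hh (γ' := Pool.Agent.ROT.F.rv γ) (w := w) (v := 1)
    (u := unitInterval.symm w) (x := 1) fun s hs => by
      have e := pcs_rv0 hs γ w
      constructor <;> linarith [e.1, e.2]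
  have e : (1 : ℝ) * (t * ((1 : unitInterval) : ℝ)) - t * (unitInterval.symm w) + 0 * (t * ((1 : unitInterval) : ℝ)) = t * w := by
    rw [k1, unitInterval.coe_symm_eq]
    ring
  rwa [e] at this

lemma Ck.comp {ρ h : ℕ → ℝ} {t t' : ℝ} {γ γ' : C(unitInterval, ℂ)} (ht : t ≠ 0) (hc : Ck ρ h t γ) (hc' : Ck ρ h t' γ')
    (φ : unitInterval ≃o unitInterval) (hφ : ∀ x, γ x = γ' (φ x)) : t = t' ∧ γ = γ' := by
  have key : ∀ u, t * u = t' * (φ u : ℝ) := by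
    intro u
    have e1 := hc u
    have e2 := hc' (φ u)
    have e3 : (fun i => h i * vb (ρ i) γ u / ρ i) = fun i => h i * vb (ρ i) γ' (φ u) / ρ i := by
      funext i
      rw [vb_comp (ρ i) γ γ' φ hφ u]
    rw [e3] at e1
    exact tendsto_nhds_unique e1 e2
  have k1 : ((1 : unitInterval) : ℝ) = 1 := rfl
  have e1 := key 1
  have h1 : φ 1 = 1 := φ.map_top
  rw [h1, k1, mul_one, mul_one] at e1
  refine ⟨e1, ?_⟩
  ext u
  have e2 := key u
  rw [← e1] at e2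
  have e3 : (u : ℝ) = φ u := mul_left_cancel₀ ht e2
  rw [hφ u, ← Subtype.ext e3]

/-- **(d)** two simple closed curves with the same trace and the same clock: the same time and the same curve, up to the root and
the direction -/
theorem loop_eq {ρ h : ℕ → ℝ} {t t' : ℝ} {γ γ' : C(unitInterval, ℂ)} (hρ : ∀ i, 0 < ρ i) (hρ0 : Tendsto ρ atTop (𝓝 0))
    (ht : t ≠ 0) (hl : SL γ) (hl' : SL γ') (hc : Ck ρ h t γ) (hc' : Ck ρ h t' γ') (hr : range γ = range γ') :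
    t = t' ∧ ∃ u : unitInterval, γ = rt u γ' ∨ γ = rv (rt u γ') := by
  obtain ⟨u, hu⟩ : γ 0 ∈ range γ' := hr ▸ ⟨0, rfl⟩
  have k0 : ((0 : unitInterval) : ℝ) = 0 := rfl
  obtain ⟨m, hm0, hm1⟩ : ∃ m : unitInterval, 0 < m ∧ m < 1 :=
    ⟨⟨1 / 2, by norm_num, by norm_num⟩, by
      show (0 : ℝ) < 1 / 2
      norm_num, by
      show (1 / 2 : ℝ) < 1
      norm_num⟩
  have hh : Tendsto h atTop (𝓝 0) := hc.h_zero hρ hρ0 m fun e => hm0.ne' (hl.inj hm0 hm1 e.symm)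
  have hl2 := hl'.rt u
  have hc2 := hc'.rt hρ hh hl'.1 u
  have hr2 : range γ = range (rt u γ') := by rw [range_rt hl'.1, hr]
  obtain ⟨φ, hφ | hφ⟩ := hl.same hl2 (by rw [rt_zero, hu]) hr2
  · obtain ⟨h1, h2⟩ := Ck.comp ht hc hc2 φ hφ
    exact ⟨h1, u, Or.inl h2⟩
  · obtain ⟨h1, h2⟩ := Ck.comp ht hc (hc2.rv hρ hh) φ hφ
    exact ⟨h1, u, Or.inr h2⟩

end Pool.Agent.ROT.F
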