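import Pool.Agent.ROT.FClk3
import Pool.Agent.ROT.FLoopD
import Pool.Agent.PMA.FinP

/-!
# ROT, block F1: literals (helper5, after helper41's page ROT/F1_41)

* `qn`, `sN`, `pmn`, `ML` : the critical mass of the polygons up to translations, lattice scale `N`;
* `TC` : the test functions of the trace;
* **`RotN`** : row (c), from `RotM`; **`Fast`** : row (T); **`QB`** : the weights; **`LDp`** : row (l); **`PSlow`** : row (g);
  **`PRev`** : row (r).
-/

set_option autoImplicit false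

open MeasureTheory Filter Topology Set

open scoped Classical

namespace Pool.Agent.ROT.F

open Pool.Agent.NTS.Res Pool.Agent.PMA Pool.Agent.PMA.Res

open Pool.Agent.NPR (tr nb vb)

/-- the weight of the polygons with `n + 1` edges, up to translations (`#(pol n) = (n + 1) #(polygons up to translations)`) -/
noncomputable def qn (n : ℕ) : ℝ := if Odd n ∧ 3 ≤ n then HexObs.xc ^ (n + 1) * ((pol n).card : ℝ) / (n + 1) else 0

/-- the curve at the lattice scale `N`: `pos / N` -/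
noncomputable def sN (N n : ℕ) (γ : C(unitInterval, ℂ)) : C(unitInterval, ℂ) := (size n / N : ℝ) • γ

/-- the mean over the polygons with `n + 1` edges and their images under `-1`, lattice scale `N` -/
noncomputable def pmn (N n : ℕ) (G : C(unitInterval, ℂ) → ℝ) : ℝ := pmean n fun γ => (G (sN N n γ) + G (-(sN N n γ))) / 2

/-- the critical mass of the polygons up to translations, lattice scale `N` -/
noncomputable def ML (N : ℕ) (G : ℕ → C(unitInterval, ℂ) → ℝ) : ℝ :=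
  (N : ℝ) ^ 2 * ∑ n ∈ Finset.range (N ^ 2), qn n * pmn N n (G n)

/-- test functions of the trace: bounded, Lipschitz, invariant under the translations, zero for small diameters -/
structure TC (F : TopologicalSpace.NonemptyCompacts ℂ → ℝ) (C L r : ℝ) : Prop where
  bdd : ∀ K, |F K| ≤ C
  lip : ∀ K K', |F K - F K'| ≤ L * dist K K'
  ti : ∀ (K K' : TopologicalSpace.NonemptyCompacts ℂ) (v : ℂ), (K' : Set ℂ) = (fun z => z + v) '' (K : Set ℂ) → F K' = F K
  z : ∀ K : TopologicalSpace.NonemptyCompacts ℂ, Metric.diam (K : Set ℂ) < r → F K = 0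

/-- **row (c)**: `RotM → Mass → RotN` -/
def RotN : Prop := ∀ (F : TopologicalSpace.NonemptyCompacts ℂ → ℝ) (C L r : ℝ), 0 < r → TC F C L r → ∀ z : ℂ, ‖z‖ = 1 →
  Tendsto (fun N : ℕ => ML N (fun _ γ => F (tr (z • γ))) - ML N (fun _ γ => F (tr γ))) atTop (𝓝 0)

/-- **row (T)**: short polygons are small -/
def Fast : Prop := ∀ r ε : ℝ, 0 < r → 0 < ε → ∃ (a : ℝ) (N0 : ℕ), 0 < a ∧ ∀ N : ℕ, N0 ≤ N →
  ML N (fun n γ => if (n : ℝ) ≤ a * (N : ℝ) ^ (4 / 3 : ℝ) ∧ r ≤ Metric.diam (range γ) then 1 else 0) ≤ ε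

/-- **the weights** -/
def QB : Prop := ∃ (c C : ℝ) (n0 : ℕ), 0 < c ∧ (∀ n : ℕ, n0 ≤ n → Odd n → c * (n : ℝ) ^ (-(5 / 2) : ℝ) ≤ qn n) ∧
  ∀ n : ℕ, 1 ≤ n → qn n ≤ C * (n : ℝ) ^ (-(5 / 2) : ℝ)

/-- **row (l)**: no near double points, also near the root -/
def LDp : Prop := ∀ ε κ : ℝ, 0 < ε → 0 < κ → ∃ (δ : ℝ) (n0 : ℕ), 0 < δ ∧ ∀ n : ℕ, n0 ≤ n → Odd n →
  plaw n {γ : C(unitInterval, ℂ) | ∃ p q : unitInterval, (p : ℝ) + κ ≤ q ∧ (q : ℝ) + κ ≤ p + 1 ∧ dist (γ q) (γ p) < δ} ≤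
    ENNReal.ofReal ε

/-- **row (g)**: the laws and the sizes of the polygons change slowly with the number of the steps -/
def PSlow : Prop := ∀ ε : ℝ, 0 < ε → ∃ (δ : ℝ) (n0 : ℕ), 0 < δ ∧ ∀ n n' : ℕ, n0 ≤ n → Odd n → Odd n' → |(n' : ℝ) - n| ≤ δ * n →
  |size n' / size n - 1| ≤ ε ∧ ∀ F : C(unitInterval, ℂ) → ℝ, (∀ γ, |F γ| ≤ 1) → LipschitzWith 1 F → |pmean n' F - pmean n F| ≤ ε

/-- the reversed curve, from its end -/
noncomputable def rv0 (γ : C(unitInterval, ℂ)) : C(unitInterval, ℂ) := rv γ - ContinuousMap.const _ (γ 1)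

/-- **row (r)**: the limits of the polygons are invariant under the reversal -/
def PRev : Prop := ∀ (φ : ℕ → ℕ) (π : ProbabilityMeasure C(unitInterval, ℂ)), Tendsto φ atTop atTop → (∀ k, Odd (φ k)) →
  PolTo φ (π : Measure C(unitInterval, ℂ)) → (π : Measure C(unitInterval, ℂ)).map rv0 = (π : Measure C(unitInterval, ℂ))

/-- the clock of a curve at the scales `2 ^ (- i)`: `Ck` of FLoopD with `ρ i = 2 ^ (- i)` -/
def ClkG (h : ℕ → ℝ) (t : ℝ) (γ : C(unitInterval, ℂ)) : Prop := Ck (fun i => (1 / 2 : ℝ) ^ i) h t γ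

end Pool.Agent.ROT.F
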