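import Pool.Agent.PMA.H7
import Pool.Agent.ROT.FLit
import Pool.Agent.ROT.NMassU

/-!
# ROT, block F, row (T) (helper56): the short polygons with a large diameter

* **`fast_sum`** : the polygons of diameter at least `R` with at most `a R ^ (4 / 3)` edges have the mass `C a / R ^ 2`;
* `pol_card` : the number of the polygons; **`qb : QB`** : the weights;
* **`fast : Fast`** : row (T).
-/

set_option autoImplicit false

open Set Filter Topology MeasureTheory

open scoped Classical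

namespace Pool.Agent.ROT.F

open Pool.Agent.PMA Pool.Agent.PMA.Res Pool.Agent.NTS.Res

open HexObs hiding pos curve vb

open HexObs.TIW HexObs.POLP NTSF.Mg HexObs.MCP

open NTF (JJ sw)

open NTSF (size_pos om om_norm)

open Pool.Agent.TSW.BP (cr cr_norm rt3 curve_rt sg_pos rt3_zero rt3_one rt3_two pos_rt3)

/-- the diameter of the curve is a distance of two vertices -/
lemma diam_vtx {n : ℕ} (hn : 1 ≤ n) (s : Fin n → Fin 3) (p q : unitInterval) :
    ∃ i j : ℕ, i ≤ n ∧ j ≤ n ∧ size n * dist (curve s p) (curve s q) ≤ ‖pos s i - pos s j‖ := by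
  have hs := size_pos hn
  obtain ⟨i, a, hi, ha0, ha1, -, -, ea⟩ := NTSF.curve_apply hn s p
  obtain ⟨j, b, hj, hb0, hb1, -, -, eb⟩ := NTSF.curve_apply hn s q
  obtain ⟨x, hx⟩ : ∃ x : ℂ, x = ((1 - a : ℝ) : ℂ) * pos s i + (a : ℂ) * pos s (i + 1) := ⟨_, rfl⟩
  obtain ⟨y, hy⟩ : ∃ y : ℂ, y = ((1 - b : ℝ) : ℂ) * pos s j + (b : ℂ) * pos s (j + 1) := ⟨_, rfl⟩
  have hx1 : x ∈ convexHull ℝ ({pos s i, pos s (i + 1)} : Set ℂ) := by
    rw [convexHull_pair]
    refine ⟨1 - a, a, by linarith, ha0, by ring, ?_⟩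
    rw [hx, Complex.real_smul, Complex.real_smul]
  have hy1 : y ∈ convexHull ℝ ({pos s j, pos s (j + 1)} : Set ℂ) := by
    rw [convexHull_pair]
    refine ⟨1 - b, b, by linarith, hb0, by ring, ?_⟩
    rw [hy, Complex.real_smul, Complex.real_smul]
  obtain ⟨x', hx', y', hy', hd⟩ := convexHull_exists_dist_ge2 hx1 hy1
  have e : size n * dist (curve s p) (curve s q) = dist x y := by
    rw [ea, eb, ← hx, ← hy, dist_eq_norm, ← sub_div, norm_div, Complex.norm_of_nonneg hs.le, dist_eq_norm]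
    field_simp
  have hpt : ∀ (z : ℂ) (k : ℕ), k < n → z ∈ ({pos s k, pos s (k + 1)} : Set ℂ) → ∃ l : ℕ, l ≤ n ∧ z = pos s l := by
    rintro z k hk (h | h)
    · exact ⟨k, hk.le, h⟩
    · exact ⟨k + 1, hk, h⟩
  obtain ⟨k, hk, ek⟩ := hpt x' i hi hx'
  obtain ⟨l, hl, el⟩ := hpt y' j hj hy'
  refine ⟨k, l, hk, hl, ?_⟩
  rw [e, ← ek, ← el, ← dist_eq_norm]
  exact hd

/-- the event: the polygon has the diameter at least `R` -/
def BigC (n : ℕ) (R : ℝ) : Set C(unitInterval, ℂ) := {γ | ∃ p q : unitInterval, R ≤ size n * dist (γ p) (γ q)}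

lemma big_word {n : ℕ} (hn : 1 ≤ n) (a : Fin 3) {t : List Bool} (ht : t.length = n + 1) {R : ℝ}
    (h : ((sg n)⁻¹ : ℝ) • pT (cr a) t n ∈ BigC n R) :
    ∃ i j, i ≤ n + 1 ∧ j ≤ n + 1 ∧ R ≤ ((TIW.hn (vx oo up t i - vx oo up t j) : ℤ) : ℝ) := by
  obtain ⟨p, q, h1⟩ := h
  rw [pT_of_le (by omega), ← curve_rt hn a t, smul_smul, inv_mul_cancel₀ (sg_pos hn).ne', one_smul] at h1
  obtain ⟨i, j, hi, hj, h2⟩ := diam_vtx hn (rt3 a (sw n t)) p q
  rw [pos_rt3, pos_rt3, NTSF.pos_sw n t i hi, NTSF.pos_sw n t j hj, ← mul_sub, norm_mul, cr_norm, one_mul, ← NTF.JJ_sub] at h2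
  exact ⟨i, j, by omega, by omega, h1.trans (h2.trans (NTSF.Mg.JJ_le_hn _))⟩

/-- no closed word with two letters -/
lemma cyF_two : (cyF 2).card = 0 := by
  rw [Finset.card_eq_zero, Finset.eq_empty_iff_forall_notMem]
  intro t ht
  have h := (Set.Finite.mem_toFinset _).1 ht
  obtain ⟨h1, h2, -, -⟩ := h
  obtain ⟨a, b, rfl⟩ := List.length_eq_two.1 h1
  revert h2
  cases a <;> cases b <;> decide

/-- **the polygons of diameter at least `R` with few edges** -/
theorem fast_sum : ∃ C : ℝ, 0 < C ∧ ∀ R a : ℝ, 0 < R → 0 < a → ∀ M : ℕ, (M : ℝ) ≤ a * R ^ (4 / 3 : ℝ) →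
    ∑ n ∈ (Finset.range M).filter Odd, 3 * xc ^ (n + 1) * ((cyF (n + 1)).card : ℝ) / (n + 1) *
      pmean n (fun γ => if γ ∈ BigC n R then 1 else 0) ≤ C * a / R ^ 2 := by
  obtain ⟨C, hC, h⟩ := HexObs.NK.massLen
  refine ⟨3 * C, by positivity, fun R a hR ha M hM => ?_⟩
  have hx := xc_pos
  obtain ⟨P, hP⟩ : ∃ P : ℕ → List Bool → Prop, P = fun n t => ∃ i j, i ≤ n ∧ j ≤ n ∧
    R ≤ ((TIW.hn (vx oo up t i - vx oo up t j) : ℤ) : ℝ) := ⟨_, rfl⟩
  have hDU : ∀ n, HexObs.NK.DU n R = {t | t ∈ POL.Cy n ∧ P n t} := fun n => by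
    rw [hP]
    rfl
  -- one number of edges
  have h1 : ∀ n ∈ (Finset.range M).filter Odd, 3 * xc ^ (n + 1) * ((cyF (n + 1)).card : ℝ) / (n + 1) *
      pmean n (fun γ => if γ ∈ BigC n R then 1 else 0) ≤
      3 * (1 / ((n + 1 : ℕ) : ℝ) * ((((cyF (n + 1)).filter (P (n + 1))).card : ℝ) * xc ^ (n + 1))) := by
    intro n hn
    obtain ⟨hnM, ho⟩ := Finset.mem_filter.1 hn
    have hn0 : (0 : ℝ) < (n : ℝ) + 1 := by positivity
    rcases Nat.lt_or_ge n 3 with h3 | h3
    · have h4 : n = 1 := by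
        obtain ⟨k, hk⟩ := ho
        omega
      subst h4
      rw [show (1 : ℕ) + 1 = 2 from rfl, cyF_two]
      simp only [Nat.cast_zero, mul_zero, zero_div, zero_mul]
      positivity
    · have hn1 : 1 ≤ n := by omega
      rw [pmean_words h3 ho]
      have hcard : (0 : ℝ) ≤ ((cyF (n + 1)).card : ℝ) := Nat.cast_nonneg _
      have key : ∑ t ∈ cyF (n + 1), f3 (fun γ => (fun γ => if γ ∈ BigC n R then (1 : ℝ) else 0) (((sg n)⁻¹ : ℝ) • γ)) n t ≤
          (((cyF (n + 1)).filter (P (n + 1))).card : ℝ) := by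
        rw [Finset.card_filter]
        push_cast
        refine Finset.sum_le_sum fun t ht => ?_
        have htc : t ∈ POL.Cy (n + 1) := (Set.Finite.mem_toFinset _).1 ht
        have htl : t.length = n + 1 := htc.1
        unfold f3
        have h5 : ∀ a : Fin 3, (if ((sg n)⁻¹ : ℝ) • pT (cr a) t n ∈ BigC n R then (1 : ℝ) else 0) ≤
            if P (n + 1) t then 1 else 0 := by
          intro a
          by_cases h6 : ((sg n)⁻¹ : ℝ) • pT (cr a) t n ∈ BigC n R
          · have h7 : P (n + 1) t := by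
              rw [hP]
              exact big_word hn1 a htl h6
            rw [if_pos h6, if_pos h7]
          · rw [if_neg h6]
            split_ifs <;> norm_num
        rw [div_le_iff₀ (by norm_num)]
        refine (Finset.sum_le_sum fun a _ => h5 a).trans ?_
        rw [Finset.sum_const, Finset.card_univ, Fintype.card_fin, nsmul_eq_mul]
        push_cast
        linarith
      rcases hcard.eq_or_lt with h0 | h0
      · rw [← h0]
        simp only [mul_zero, zero_div, zero_mul]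
        positivity
      · calc 3 * xc ^ (n + 1) * ((cyF (n + 1)).card : ℝ) / (n + 1) *
              ((∑ t ∈ cyF (n + 1), f3 (fun γ => (fun γ => if γ ∈ BigC n R then (1 : ℝ) else 0) (((sg n)⁻¹ : ℝ) • γ)) n t) /
                ((cyF (n + 1)).card : ℝ))
            = 3 * xc ^ (n + 1) / (n + 1) *
              ∑ t ∈ cyF (n + 1), f3 (fun γ => (fun γ => if γ ∈ BigC n R then (1 : ℝ) else 0) (((sg n)⁻¹ : ℝ) • γ)) n t := by
              field_simp
          _ ≤ 3 * xc ^ (n + 1) / (n + 1) * (((cyF (n + 1)).filter (P (n + 1))).card : ℝ) :=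
              mul_le_mul_of_nonneg_left key (by positivity)
          _ = _ := by
              push_cast
              ring
  refine (Finset.sum_le_sum h1).trans ?_
  rw [← Finset.mul_sum]
  have hpos : ∀ n : ℕ, 0 ≤ 1 / ((n + 1 : ℕ) : ℝ) * ((((cyF (n + 1)).filter (P (n + 1))).card : ℝ) * xc ^ (n + 1)) := fun n => by
    positivity
  have h2 : ∑ n ∈ (Finset.range M).filter Odd, 1 / ((n + 1 : ℕ) : ℝ) * ((((cyF (n + 1)).filter (P (n + 1))).card : ℝ) *
      xc ^ (n + 1)) ≤ ∑ n ∈ Finset.range M, 1 / ((n + 1 : ℕ) : ℝ) * ((((cyF (n + 1)).filter (P (n + 1))).card : ℝ) *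
      xc ^ (n + 1)) := Finset.sum_le_sum_of_subset_of_nonneg (Finset.filter_subset _ _) fun n _ _ => hpos n
  have h3 : ENNReal.ofReal (∑ n ∈ Finset.range M, 1 / ((n + 1 : ℕ) : ℝ) * ((((cyF (n + 1)).filter (P (n + 1))).card : ℝ) *
      xc ^ (n + 1))) ≤ ENNReal.ofReal (C * a / R ^ 2) := by
    refine le_trans ?_ (h R a hR ha)
    rw [ENNReal.ofReal_sum_of_nonneg fun n _ => hpos n]
    refine le_trans ?_ (ENNReal.sum_le_tsum ((Finset.range M).image fun n => n + 1))
    rw [Finset.sum_image fun x _ y _ hxy => Nat.succ_injective hxy]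
    refine Finset.sum_le_sum fun n hn => ?_
    have h4 : ((n + 1 : ℕ) : ℝ) ≤ a * R ^ (4 / 3 : ℝ) := by
      refine le_trans ?_ hM
      exact_mod_cast Finset.mem_range.1 hn
    rw [if_pos h4, ENNReal.ofReal_mul (by positivity), hDU, Pool.Agent.PMA.gf_filter]
  have h4 := (ENNReal.ofReal_le_ofReal_iff (by positivity)).1 h3
  calc 3 * ∑ n ∈ (Finset.range M).filter Odd, 1 / ((n + 1 : ℕ) : ℝ) * ((((cyF (n + 1)).filter (P (n + 1))).card : ℝ) *
      xc ^ (n + 1)) ≤ 3 * (C * a / R ^ 2) := by linarith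
    _ = 3 * C * a / R ^ 2 := by ring

/-- the number of the polygons -/
theorem pol_card {n : ℕ} (hn : 3 ≤ n) (ho : Odd n) : ((pol n).card : ℝ) = 3 * ((cyF (n + 1)).card : ℝ) := by
  have hn1 : 1 ≤ n := by omega
  have h1 := mean_end hn1 (fun x => x = 1) fun _ => 1
  have h2 := sum_cy hn ho (fun _ => (1 : ℝ)) fun t => rfl
  simp only [f3_one, Finset.sum_const, nsmul_eq_mul, mul_one] at h1 h2
  rw [h2] at h1
  have hs : (0 : ℝ) < (saw n).card := NTSF.saw_card_pos n
  have h4 : (2 : ℝ) * (saw n).card = 3 * cS n := by exact_mod_cast card_three (n := n) hn1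
  have hc : (0 : ℝ) < cS n := by linarith
  rw [div_eq_div_iff hs.ne' hc.ne'] at h1
  have h5 : ((pol n).card : ℝ) * cS n = 2 * ((cyF (n + 1)).card : ℝ) * (saw n).card := h1
  have h6 : ((pol n).card : ℝ) * cS n = 3 * ((cyF (n + 1)).card : ℝ) * cS n := by
    rw [h5]
    linear_combination ((cyF (n + 1)).card : ℝ) * h4
  exact mul_right_cancel₀ hc.ne' h6

lemma qn_eq {n : ℕ} (hn : 3 ≤ n) (ho : Odd n) : qn n = 3 * xc ^ (n + 1) * ((cyF (n + 1)).card : ℝ) / (n + 1) := by
  unfold qn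
  rw [if_pos ⟨ho, hn⟩, pol_card hn ho]
  ring

lemma cy_mass (n : ℕ) : gf (POL.Cy n) = ENNReal.ofReal (((cyF n).card : ℝ) * xc ^ n) := by
  have h := Pool.Agent.PMA.gf_filter n fun _ => True
  simp only [and_true, Finset.filter_true, Set.ofPred_mem_eq] at h
  exact h

/-- **the weights** -/
theorem qb : QB := by
  obtain ⟨c, N0, hc, hlow⟩ := Pool.Agent.PMA.cy_low
  obtain ⟨C, hC, hup⟩ := HexObs.NK.P1'
  have hx := xc_pos
  refine ⟨3 * c * 2 ^ (-(5 / 2) : ℝ), 3 * C, N0 + 3, by positivity, fun n hn ho => ?_, fun n hn => ?_⟩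
  · have hn0 : (0 : ℝ) < n := by exact_mod_cast (by omega : 0 < n)
    have h1 := hlow (n + 1) (by omega) (ho.add_one)
    have h3 : (2 * (n : ℝ)) ^ (-(5 / 2) : ℝ) ≤ ((n : ℝ) + 1) ^ (-(5 / 2) : ℝ) :=
      Real.rpow_le_rpow_of_nonpos (by positivity) (by
        have : (1 : ℝ) ≤ n := by exact_mod_cast (by omega : 1 ≤ n)
        linarith) (by norm_num)
    rw [qn_eq (by omega) ho]
    push_cast at h1
    calc 3 * c * 2 ^ (-(5 / 2) : ℝ) * (n : ℝ) ^ (-(5 / 2) : ℝ) = 3 * c * (2 * (n : ℝ)) ^ (-(5 / 2) : ℝ) := by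
          rw [Real.mul_rpow (by norm_num) hn0.le]
          ring
      _ ≤ 3 * c * ((n : ℝ) + 1) ^ (-(5 / 2) : ℝ) := mul_le_mul_of_nonneg_left h3 (by positivity)
      _ = 3 * (c * ((n : ℝ) + 1) ^ (-(3 / 2) : ℝ)) / ((n : ℝ) + 1) := by
          rw [show (-(5 / 2) : ℝ) = -(3 / 2) - 1 by norm_num, Real.rpow_sub_one (by positivity)]
          ring
      _ ≤ 3 * (((cyF (n + 1)).card : ℝ) * xc ^ (n + 1)) / ((n : ℝ) + 1) := by
          refine div_le_div_of_nonneg_right ?_ (by positivity)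
          linarith
      _ = _ := by ring
  · by_cases h : Odd n ∧ 3 ≤ n
    · have hn0 : (0 : ℝ) < n := by exact_mod_cast hn
      have h1 := hup (n + 1) (by omega)
      rw [cy_mass, ← ENNReal.ofReal_mul (by positivity), ENNReal.ofReal_le_ofReal_iff (by positivity)] at h1
      rw [qn_eq h.2 h.1]
      push_cast at h1
      have h3 : ((n : ℝ) + 1) ^ (-(5 / 2) : ℝ) ≤ (n : ℝ) ^ (-(5 / 2) : ℝ) :=
        Real.rpow_le_rpow_of_nonpos hn0 (by linarith) (by norm_num)
      calc 3 * xc ^ (n + 1) * ((cyF (n + 1)).card : ℝ) / (n + 1) =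
            3 * (1 / ((n : ℝ) + 1) * (((cyF (n + 1)).card : ℝ) * xc ^ (n + 1))) := by ring
        _ ≤ 3 * (C * (n : ℝ) ^ (-(5 / 2) : ℝ)) := by
            refine mul_le_mul_of_nonneg_left (h1.trans (mul_le_mul_of_nonneg_left h3 hC.le)) (by norm_num)
        _ = _ := by ring
    · unfold qn
      rw [if_neg h]
      positivity

lemma big_of_diam {N n : ℕ} (hN : 0 < N) {r : ℝ} {γ γ' : C(unitInterval, ℂ)} (hγ : ∀ p q, dist (γ' p) (γ' q) = size n / N * dist (γ p) (γ q))
    (h : r ≤ Metric.diam (range γ')) : γ ∈ BigC n (r * N) := by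
  have hN0 : (0 : ℝ) < N := by exact_mod_cast hN
  obtain ⟨⟨p, q⟩, -, hpq⟩ := (isCompact_univ (X := unitInterval × unitInterval)).exists_isMaxOn univ_nonempty
    (f := fun x => dist (γ' x.1) (γ' x.2)) (by fun_prop)
  refine ⟨p, q, ?_⟩
  have h1 : Metric.diam (range γ') ≤ dist (γ' p) (γ' q) := by
    refine Metric.diam_le_of_forall_dist_le dist_nonneg ?_
    rintro _ ⟨x, rfl⟩ _ ⟨y, rfl⟩
    exact hpq (mem_univ (x, y))
  have h2 := h.trans h1
  rw [hγ, div_mul_eq_mul_div, le_div_iff₀ hN0] at h2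
  exact h2

/-- **row (T)** -/
theorem fast : Fast := by
  intro r ε hr hε
  obtain ⟨C, hC, h⟩ := fast_sum
  have hx := xc_pos
  obtain ⟨a, ha⟩ : ∃ a : ℝ, a = ε * r ^ 2 * r ^ (4 / 3 : ℝ) / (2 * C) := ⟨_, rfl⟩
  have ha0 : 0 < a := by
    rw [ha]
    positivity
  have hlim : Tendsto (fun N : ℕ => a * (N : ℝ) ^ (4 / 3 : ℝ)) atTop atTop :=
    ((tendsto_rpow_atTop (by norm_num : (0 : ℝ) < 4 / 3)).comp tendsto_natCast_atTop_atTop).const_mul_atTop ha0
  obtain ⟨N1, hN1⟩ := (hlim.eventually_ge_atTop 1).exists_forall_of_atTop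
  refine ⟨a, N1 + 1, ha0, fun N hN => ?_⟩
  have hN0 : (0 : ℝ) < N := by exact_mod_cast (by omega : 0 < N)
  obtain ⟨X, hX⟩ : ∃ X : ℝ, X = a * (N : ℝ) ^ (4 / 3 : ℝ) := ⟨_, rfl⟩
  have hX1 : 1 ≤ X := hX ▸ hN1 N (by omega)
  rw [← hX]
  obtain ⟨M, hM⟩ : ∃ M : ℕ, M = ⌊X⌋₊ + 1 := ⟨_, rfl⟩
  have hMX : (M : ℝ) ≤ 2 * X := by
    rw [hM]
    push_cast
    have := Nat.floor_le (by linarith : 0 ≤ X)
    linarith
  have h1 := h (r * N) (2 * a / r ^ (4 / 3 : ℝ)) (by positivity) (by positivity) M (hMX.trans (by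
    rw [Real.mul_rpow hr.le hN0.le, hX]
    refine le_of_eq ?_
    field_simp))
  have hpm : ∀ n, pmean n (fun γ => if γ ∈ BigC n (r * N) then (1 : ℝ) else 0) ≥ 0 := fun n => by
    unfold pmean
    refine div_nonneg (Finset.sum_nonneg fun s _ => ?_) (Nat.cast_nonneg _)
    show (0 : ℝ) ≤ if curve s ∈ BigC n (r * N) then (1 : ℝ) else 0
    split_ifs <;> norm_num
  have h2 : ∑ n ∈ Finset.range (N ^ 2), qn n * pmn N n (fun γ => if (n : ℝ) ≤ X ∧ r ≤ Metric.diam (range γ) then 1 else 0) ≤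
      ∑ n ∈ (Finset.range M).filter Odd, 3 * xc ^ (n + 1) * ((cyF (n + 1)).card : ℝ) / (n + 1) *
        pmean n (fun γ => if γ ∈ BigC n (r * N) then 1 else 0) := by
    have h3 : ∀ n ∈ Finset.range (N ^ 2), qn n * pmn N n (fun γ => if (n : ℝ) ≤ X ∧ r ≤ Metric.diam (range γ) then 1 else 0) ≤
        if n ∈ (Finset.range M).filter Odd then 3 * xc ^ (n + 1) * ((cyF (n + 1)).card : ℝ) / (n + 1) *
          pmean n (fun γ => if γ ∈ BigC n (r * N) then 1 else 0) else 0 := by
      intro n _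
      have hrhs : 0 ≤ 3 * xc ^ (n + 1) * ((cyF (n + 1)).card : ℝ) / (n + 1) *
          pmean n (fun γ => if γ ∈ BigC n (r * N) then 1 else 0) := mul_nonneg (by positivity) (hpm n)
      by_cases ho : Odd n ∧ 3 ≤ n
      · by_cases hnX : (n : ℝ) ≤ X
        · have hmem : n ∈ (Finset.range M).filter Odd := by
            refine Finset.mem_filter.2 ⟨Finset.mem_range.2 ?_, ho.1⟩
            rw [hM]
            exact Nat.lt_succ_of_le (Nat.le_floor hnX)
          rw [if_pos hmem, qn_eq ho.2 ho.1]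
          refine mul_le_mul_of_nonneg_left ?_ (by positivity)
          unfold pmn
          refine LT.pmean_mono fun s _ => ?_
          show ((if (n : ℝ) ≤ X ∧ r ≤ Metric.diam (range (sN N n (curve s))) then (1 : ℝ) else 0) +
            (if (n : ℝ) ≤ X ∧ r ≤ Metric.diam (range (-(sN N n (curve s)))) then (1 : ℝ) else 0)) / 2 ≤
            if curve s ∈ BigC n (r * N) then 1 else 0
          have hs := size_pos (by omega : 1 ≤ n)
          have hsN : 0 ≤ size n / N := by positivity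
          have e1 : ∀ p q, dist (sN N n (curve s) p) (sN N n (curve s) q) = size n / N * dist (curve s p) (curve s q) := by
            intro p q
            show dist ((size n / N : ℝ) • curve s p) ((size n / N : ℝ) • curve s q) = _
            rw [dist_smul₀, Real.norm_of_nonneg hsN]
          have e2 : ∀ p q, dist ((-(sN N n (curve s))) p) ((-(sN N n (curve s))) q) =
              size n / N * dist (curve s p) (curve s q) := by
            intro p q
            show dist (-(sN N n (curve s) p)) (-(sN N n (curve s) q)) = _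
            rw [dist_neg_neg, e1]
          by_cases hb : curve s ∈ BigC n (r * N)
          · rw [if_pos hb]
            split_ifs <;> norm_num
          · rw [if_neg hb, if_neg fun h => hb (big_of_diam (by omega) e1 h.2), if_neg fun h => hb (big_of_diam (by omega) e2 h.2)]
            norm_num
        · have h0 : pmn N n (fun γ => if (n : ℝ) ≤ X ∧ r ≤ Metric.diam (range γ) then 1 else 0) = 0 := by
            unfold pmn pmean
            simp only [hnX, false_and, if_false, add_zero, zero_div, Finset.sum_const_zero]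
          rw [h0, mul_zero]
          split_ifs
          · exact hrhs
          · exact le_rfl
      · have h0 : qn n = 0 := by
          unfold qn
          rw [if_neg ho]
        rw [h0, zero_mul]
        split_ifs
        · exact hrhs
        · exact le_rfl
    refine (Finset.sum_le_sum h3).trans ?_
    rw [← Finset.sum_filter]
    refine Finset.sum_le_sum_of_subset_of_nonneg (fun n hn => (Finset.mem_filter.1 hn).2) fun n _ _ =>
      mul_nonneg (by positivity) (hpm n)
  unfold ML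
  calc (N : ℝ) ^ 2 * _ ≤ (N : ℝ) ^ 2 * (C * (2 * a / r ^ (4 / 3 : ℝ)) / (r * N) ^ 2) :=
        mul_le_mul_of_nonneg_left (h2.trans h1) (by positivity)
    _ = ε := by
        rw [ha]
        field_simp

end Pool.Agent.ROT.F
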