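import Pool.Agent.PMA.PolMod
import Pool.Agent.ARM.T2S

/-!
# ROT, block F (helper5): the tail of the diameter of the closed words

* **`pol_tail`** : the closed words with `n` letters that reach the distance `D ≥ n ^ (3 / 4)` are a part
  `A (n ^ (3 / 4) / D) ^ q` of the closed words, for every power `q`.
-/

set_option autoImplicit false

namespace HexObs

namespace PMA

open Finset TS SDN HexObs.SIM NTA TIP ARM ARM.T2

open scoped ENNReal

lemma hn_lin (L : List Bool) (k : ℕ) : TIW.hn (vx oo up L k) ≤ 2 * k := by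
  induction k with
  | zero =>
    have h : vx oo up L 0 = oo := rfl
    rw [h]
    decide
  | succ k ih =>
    have h : vx oo up L (k + 1) = vx oo up L k + dx up L k := rfl
    have h1 : ∀ d ∈ dirs, TIW.hn d ≤ 2 := by decide
    have h2 := h1 _ (dx_mem TIW.upd' L k)
    rw [h]
    have h3 := TIW.hn_add (vx oo up L k) (dx up L k)
    push_cast
    linarith

/-- no displacement of a window: small displacement -/
lemma win_disp {L : List Bool} {n ℓ : ℕ} {D : ℤ}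
    (h : ∀ x y : ℕ, x ≤ y → y ≤ n → y ≤ x + ℓ → TIW.hn (vx oo up L y - vx oo up L x) ≤ D) :
    ∀ j k : ℕ, k ≤ j * ℓ → k ≤ n → TIW.hn (vx oo up L k) ≤ j * D := by
  intro j
  induction j with
  | zero =>
    intro k hk _
    have hk0 : k = 0 := by omega
    rw [hk0]
    have h0 : vx oo up L 0 = oo := rfl
    rw [h0]
    have h1 : TIW.hn oo = 0 := by decide
    rw [h1]
    simp
  | succ j ih =>
    intro k hk hkn
    have h1 : k - ℓ ≤ j * ℓ := by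
      rw [Nat.succ_mul] at hk
      omega
    have h2 := ih (k - ℓ) h1 (by omega)
    have h3 := h (k - ℓ) k (by omega) hkn (by omega)
    have h4 := TIW.hn_add (vx oo up L k - vx oo up L (k - ℓ)) (vx oo up L (k - ℓ))
    rw [sub_add_cancel] at h4
    push_cast
    linarith

theorem pol_tail_of {κ : ℝ} {C s : ℕ} (hB : RootB κ C) (hN : RootN κ C) (hE : E2G κ C s) (q : ℕ) :
    ∃ (A : ℝ) (n0 : ℕ), 0 < A ∧ ∀ (n : ℕ) (D : ℝ), n0 ≤ n → (n : ℝ) ^ (3 / 4 : ℝ) ≤ D →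
      gf {L | L ∈ C0 n ∧ ∃ k : ℕ, k ≤ n ∧ D ≤ TIW.hn (vx oo up L k)} ≤
        ENNReal.ofReal (A * ((n : ℝ) ^ (3 / 4 : ℝ) / D) ^ q * (n : ℝ) ^ (-(3 / 2) : ℝ)) := by
  obtain ⟨A, J0, b0, hA, h⟩ := root_pow hB hN hE (3 * q + 5) (3 * q + 5)
  obtain ⟨c1, hc1, hlow⟩ := VF.mLow VF.sharpZ
  obtain ⟨C2, hC2, hup⟩ := VF.mUp VF.sharpZ
  obtain ⟨A0, hA0, hmass⟩ := ARM.S2.c0_mass
  obtain ⟨m0, hm0⟩ : ∃ m0 : ℕ, C2 < (2 : ℝ) ^ m0 := pow_unbounded_of_one_lt _ (by norm_num)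
  obtain ⟨J, hJ⟩ : ∃ J, J = m0 + J0 := ⟨_, rfl⟩
  obtain ⟨K, hK⟩ : ∃ K : ℝ, K = 4096 / c1 + 1 := ⟨_, rfl⟩
  have hKc : 0 < 4096 / c1 := by positivity
  have hK1 : 1 ≤ K := by rw [hK]; linarith
  have hK0 : 0 < K := by linarith
  have hKc1 : 4096 / c1 < K := by rw [hK]; linarith
  obtain ⟨n1, hn1⟩ := exists_nat_ge ((16 * 2 ^ (b0 + 2 : ℕ)) ^ 2 + (4096 / c1) ^ 2 + 1 : ℝ)
  refine ⟨A0 * (K * 8 ^ J) ^ q + 8192 * A / c1 * (8 * K) ^ q, n1, by positivity, fun n D hn hD => ?_⟩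
  have hnn : (16 * 2 ^ (b0 + 2 : ℕ)) ^ 2 + (4096 / c1) ^ 2 + 1 ≤ (n : ℝ) := hn1.trans (by exact_mod_cast hn)
  have hp1 : (0 : ℝ) ≤ (16 * 2 ^ (b0 + 2 : ℕ)) ^ 2 := by positivity
  have hp2 : (0 : ℝ) ≤ (4096 / c1) ^ 2 := by positivity
  have hn1' : (1 : ℝ) ≤ n := by linarith
  have hn0 : (0 : ℝ) < n := by linarith
  have hnat : 1 ≤ n := by exact_mod_cast hn1'
  obtain ⟨N, hNn⟩ : ∃ N : ℝ, N = (n : ℝ) ^ (3 / 4 : ℝ) := ⟨_, rfl⟩
  obtain ⟨S, hS⟩ : ∃ S : ℝ, S = (n : ℝ) ^ (1 / 2 : ℝ) := ⟨_, rfl⟩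
  have hS0 : 0 < S := by rw [hS]; positivity
  have hSS : S * S = n := by
    rw [hS, ← Real.rpow_add hn0]
    norm_num
  have hN0 : 0 < N := by rw [hNn]; positivity
  have hN43 : N ^ (4 / 3 : ℝ) = n := by
    rw [hNn, ← Real.rpow_mul hn0.le]
    norm_num
  have hNN : N * N = n * S := by
    rw [hNn, hS, ← Real.rpow_add hn0]
    nth_rw 2 [← Real.rpow_one (n : ℝ)]
    rw [← Real.rpow_add hn0]
    norm_num
  have hS1 : 16 * 2 ^ (b0 + 2 : ℕ) ≤ S := by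
    refine le_of_sq_le_sq ?_ hS0.le
    rw [sq S, hSS]
    linarith
  have hS2 : 4096 / c1 ≤ S := by
    refine le_of_sq_le_sq ?_ hS0.le
    rw [sq S, hSS]
    linarith
  rw [← hNn] at hD ⊢
  have hD0 : 0 < D := lt_of_lt_of_le hN0 hD
  have hr0 : 0 < N / D := by positivity
  obtain ⟨ν, hν⟩ : ∃ ν : ℝ, ν = (n : ℝ) ^ (-(3 / 2) : ℝ) := ⟨_, rfl⟩
  have hν0 : 0 ≤ ν := by rw [hν]; positivity
  rw [← hν]
  have hT2 : 0 ≤ 8192 * A / c1 * (8 * K) ^ q := by positivity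
  have hT1 : 0 ≤ A0 * (K * 8 ^ J) ^ q := by positivity
  rcases lt_or_ge D (K * 8 ^ J * N) with hcase | hcase
  · -- the trivial case
    have h1 : gf {L | L ∈ C0 n ∧ ∃ k : ℕ, k ≤ n ∧ D ≤ TIW.hn (vx oo up L k)} ≤ ENNReal.ofReal (A0 * ν) := by
      rw [hν]
      exact (gf_mono fun L hL => hL.1).trans (hmass n hnat)
    refine h1.trans (ENNReal.ofReal_le_ofReal ?_)
    have h2 : 1 ≤ (K * 8 ^ J) ^ q * (N / D) ^ q := by
      rw [← mul_pow]
      refine one_le_pow₀ ?_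
      rw [← mul_div_assoc, one_le_div hD0]
      exact hcase.le
    calc A0 * ν = A0 * 1 * ν := by ring
      _ ≤ A0 * ((K * 8 ^ J) ^ q * (N / D) ^ q) * ν := by gcongr
      _ ≤ (A0 * (K * 8 ^ J) ^ q + 8192 * A / c1 * (8 * K) ^ q) * (N / D) ^ q * ν := by
          refine mul_le_mul_of_nonneg_right ?_ hν0
          have : 0 ≤ (N / D) ^ q := by positivity
          nlinarith
  rcases lt_or_ge (2 * (n : ℝ)) D with hbig | hbig
  · -- nothing
    have h1 : {L : List Bool | L ∈ C0 n ∧ ∃ k : ℕ, k ≤ n ∧ D ≤ TIW.hn (vx oo up L k)} = ∅ := by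
      rw [Set.eq_empty_iff_forall_notMem]
      rintro L ⟨-, k, hk, hd⟩
      have h2 : ((TIW.hn (vx oo up L k) : ℤ) : ℝ) ≤ 2 * k := by exact_mod_cast hn_lin L k
      have h3 : (k : ℝ) ≤ n := by exact_mod_cast hk
      linarith
    rw [h1]
    have h2 : gf (∅ : Set (List Bool)) = 0 := by
      unfold gf
      simp
    rw [h2]
    exact zero_le
  -- the main case
  have hl : 8 ^ J ≤ D / (K * N) := by
    rw [le_div_iff₀ (by positivity)]
    calc (8 : ℝ) ^ J * (K * N) = K * 8 ^ J * N := by ring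
      _ ≤ D := hcase
  have hl1 : 1 ≤ D / (K * N) := (one_le_pow₀ (by norm_num)).trans hl
  obtain ⟨m, hm1, hm2⟩ := exists_nat_pow_near (x := D / (K * N)) (y := (8 : ℝ)) hl1 (by norm_num)
  have hmJ : J ≤ m := by
    have h1 := (pow_lt_pow_iff_right₀ (show (1 : ℝ) < 8 by norm_num)).1 (lt_of_le_of_lt hl hm2)
    omega
  rw [le_div_iff₀ (by positivity)] at hm1
  rw [div_lt_iff₀ (by positivity)] at hm2
  have h8 : (0 : ℝ) < 8 ^ m := by positivity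
  -- the number 8 ^ m is at most 2 S ^ (1/2)
  have h8N : (8 : ℝ) ^ m * N ≤ 2 * n := by
    calc (8 : ℝ) ^ m * N = 8 ^ m * (1 * N) := by ring
      _ ≤ 8 ^ m * (K * N) := by gcongr
      _ ≤ 2 * n := hm1.trans hbig
  have h64 : (8 : ℝ) ^ m * 8 ^ m * S ≤ 4 * n := by
    have h1 : (8 : ℝ) ^ m * N * (8 ^ m * N) ≤ 2 * n * (2 * n) := by gcongr
    have h2 : (8 : ℝ) ^ m * N * (8 ^ m * N) = 8 ^ m * 8 ^ m * S * n := by
      calc (8 : ℝ) ^ m * N * (8 ^ m * N) = 8 ^ m * 8 ^ m * (N * N) := by ring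
        _ = _ := by rw [hNN]; ring
    rw [h2] at h1
    have h3 : 2 * (n : ℝ) * (2 * n) = 4 * n * n := by ring
    rw [h3] at h1
    exact le_of_mul_le_mul_right h1 hn0
  have h64' : (8 : ℝ) ^ m * 8 ^ m ≤ 4 * S := by
    have h1 : (8 : ℝ) ^ m * 8 ^ m * S ≤ 4 * S * S := by
      rw [mul_assoc 4 S S, hSS]
      exact h64
    exact le_of_mul_le_mul_right h1 hS0
  have hNS : S / 2 ≤ N / 8 ^ m := by
    rw [le_div_iff₀ h8]
    have h1 : S / 2 * 8 ^ m * N ≤ N * N := by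
      rw [hNN]
      calc S / 2 * 8 ^ m * N = S / 2 * (8 ^ m * N) := by ring
        _ ≤ S / 2 * (2 * n) := by gcongr
        _ = n * S := by ring
    exact le_of_mul_le_mul_right h1 hN0
  have hT : (2 : ℝ) ^ (b0 + 2 : ℕ) ≤ N / 8 ^ (m + 1) := by
    rw [pow_succ (8 : ℝ) m, ← div_div, le_div_iff₀ (by norm_num)]
    linarith
  obtain ⟨b, hb1, hb2⟩ := exists_nat_pow_near (x := N / 8 ^ (m + 1)) (y := (2 : ℝ)) ((one_le_pow₀ (by norm_num)).trans hT) (by norm_num)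
  have hbb : b0 + 2 ≤ b := by
    have h1 : (2 : ℝ) ^ (b0 + 2) < 2 ^ (b + 1) := hT.trans_lt hb2
    have h2 := (pow_lt_pow_iff_right₀ (show (1 : ℝ) < 2 by norm_num)).1 h1
    omega
  obtain ⟨x, hx⟩ : ∃ x : ℝ, x = (1 / 2 : ℝ) ^ m * PW.mZ (2 ^ (b - 2)) := ⟨_, rfl⟩
  -- the displacement
  have hDb : (2 : ℝ) ^ (b + m + 3) * 4 ^ m ≤ N := by
    rw [le_div_iff₀ (by positivity)] at hb1
    refine le_trans (le_of_eq ?_) hb1
    rw [show (8 : ℝ) = 2 ^ 3 by norm_num, show (4 : ℝ) = 2 ^ 2 by norm_num, ← pow_mul, ← pow_mul, ← pow_add, ← pow_add]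
    congr 1
    ring
  -- lower bound of x
  have hxlow : c1 * n ≤ 256 * 32 ^ m * x := by
    have h1 := hlow (b - 2)
    have h5 : (2 : ℝ) ^ (4 / 3 * ((b - 2 : ℕ) : ℝ)) = ml (b - 2) := rfl
    rw [h5] at h1
    have h2 : N ≤ 64 * 8 ^ m * 2 ^ (b - 2) := by
      rw [div_lt_iff₀ (by positivity)] at hb2
      refine hb2.le.trans (le_of_eq ?_)
      rw [show b + 1 = (b - 2) + 3 by omega, pow_add (2 : ℝ) (b - 2) 3, pow_succ (8 : ℝ) m]
      ring
    have h3 : (n : ℝ) ≤ 256 * 16 ^ m * ml (b - 2) := by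
      rw [ml_eq]
      calc (n : ℝ) = N ^ (4 / 3 : ℝ) := hN43.symm
        _ ≤ (64 * 8 ^ m * 2 ^ (b - 2)) ^ (4 / 3 : ℝ) := Real.rpow_le_rpow hN0.le h2 (by norm_num)
        _ = 64 ^ (4 / 3 : ℝ) * (8 ^ m) ^ (4 / 3 : ℝ) * (2 ^ (b - 2)) ^ (4 / 3 : ℝ) := by
            rw [Real.mul_rpow (by positivity) (by positivity), Real.mul_rpow (by positivity) (by positivity)]
        _ = 256 * 16 ^ m * (2 ^ (b - 2)) ^ (4 / 3 : ℝ) := by
            have e1 : (64 : ℝ) ^ (4 / 3 : ℝ) = 256 := by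
              rw [show (64 : ℝ) = 2 ^ (6 : ℝ) by norm_num, ← Real.rpow_mul (by norm_num)]
              norm_num
            have e2 : ((8 : ℝ) ^ m) ^ (4 / 3 : ℝ) = 16 ^ m := by
              rw [← Real.rpow_natCast, ← Real.rpow_mul (by norm_num), mul_comm (m : ℝ), Real.rpow_mul (by norm_num),
                Real.rpow_natCast]
              congr 1
              rw [show (8 : ℝ) = 2 ^ (3 : ℝ) by norm_num, ← Real.rpow_mul (by norm_num)]
              norm_num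
            rw [e1, e2]
    have h4 : c1 * n ≤ 256 * 16 ^ m * PW.mZ (2 ^ (b - 2)) := by
      calc c1 * n ≤ c1 * (256 * 16 ^ m * ml (b - 2)) := by gcongr
        _ = 256 * 16 ^ m * (c1 * ml (b - 2)) := by ring
        _ ≤ _ := by gcongr
    refine h4.trans (le_of_eq ?_)
    rw [hx, show (32 : ℝ) = 16 * 2 by norm_num, mul_pow (16 : ℝ) 2 m]
    have e3 : (2 : ℝ) ^ m * (1 / 2) ^ m = 1 := by
      rw [← mul_pow]
      norm_num
    calc 256 * (16 : ℝ) ^ m * PW.mZ (2 ^ (b - 2)) = 256 * 16 ^ m * (2 ^ m * (1 / 2) ^ m) * PW.mZ (2 ^ (b - 2)) := by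
          rw [e3, mul_one]
      _ = _ := by ring
  have h32 : (32 : ℝ) ^ m ≤ 4 * S := by
    refine le_trans ?_ h64'
    rw [← mul_pow]
    exact pow_le_pow_left₀ (by norm_num) (by norm_num) m
  have hx4 : 4 ≤ x := by
    have h1 : c1 * n ≤ 256 * (4 * S) * x := by
      have hx0 : 0 ≤ x := by
        by_contra hneg
        push Not at hneg
        have : 256 * (32 : ℝ) ^ m * x < 0 := by
          have : (0 : ℝ) < 256 * 32 ^ m := by positivity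
          nlinarith
        nlinarith
      refine hxlow.trans ?_
      gcongr
    have h2 : c1 * S ≤ 1024 * x := by
      have h3 : c1 * S * S ≤ 1024 * x * S := by
        rw [mul_assoc, hSS]
        linarith
      exact le_of_mul_le_mul_right h3 hS0
    have h3 : 4096 ≤ c1 * S := by
      rw [div_le_iff₀ hc1] at hS2
      linarith
    linarith
  have hx0 : 0 < x := by linarith
  -- the scale b + m
  have hbm : ml (b + m) ≤ (1 / 2) ^ m * n := by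
    have h1 : (2 : ℝ) ^ (b + m) ≤ N * (1 / 2) ^ m := by
      have h2 : (2 : ℝ) ^ (b + m) * 2 ^ m ≤ N := by
        refine le_trans ?_ hDb
        have h3 : (2 : ℝ) ^ m ≤ 4 ^ m := pow_le_pow_left₀ (by norm_num) (by norm_num) m
        have h4 : (2 : ℝ) ^ (b + m) ≤ 2 ^ (b + m + 3) := pow_le_pow_right₀ (by norm_num) (by omega)
        exact mul_le_mul h4 h3 (by positivity) (by positivity)
      rw [one_div, inv_pow, ← div_eq_mul_inv, le_div_iff₀ (by positivity)]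
      exact h2
    rw [ml_eq]
    calc ((2 : ℝ) ^ (b + m)) ^ (4 / 3 : ℝ) ≤ (N * (1 / 2) ^ m) ^ (4 / 3 : ℝ) :=
          Real.rpow_le_rpow (by positivity) h1 (by norm_num)
      _ = n * ((1 / 2) ^ m) ^ (4 / 3 : ℝ) := by rw [Real.mul_rpow hN0.le (by positivity), hN43]
      _ ≤ n * ((1 / 2) ^ m) ^ (1 : ℝ) := by
          refine mul_le_mul_of_nonneg_left ?_ hn0.le
          exact Real.rpow_le_rpow_of_exponent_ge (by positivity) (pow_le_one₀ (by norm_num) (by norm_num)) (by norm_num)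
      _ = _ := by rw [Real.rpow_one]; ring
  have hmbp := ml_pos (b + m)
  have hmC : C2 ≤ 2 ^ m := hm0.le.trans (pow_le_pow_right₀ (by norm_num) (by omega))
  -- upper bound of x
  have hxup : x ≤ n := by
    have h1 := hup (b - 2)
    have h5 : (2 : ℝ) ^ (4 / 3 * ((b - 2 : ℕ) : ℝ)) = ml (b - 2) := rfl
    rw [h5] at h1
    have h2 : ml (b - 2) ≤ ml (b + m) := ARM.ml_mono (by omega)
    have h3 : PW.mZ (2 ^ (b - 2)) ≤ 2 ^ m * ((1 / 2) ^ m * n) :=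
      h1.trans (mul_le_mul hmC (h2.trans hbm) (ml_pos _).le (by positivity))
    have e : (2 : ℝ) ^ m * ((1 / 2) ^ m * n) = n := by
      rw [← mul_assoc, ← mul_pow]
      norm_num
    rw [e] at h3
    rw [hx]
    have h4 : (1 / 2 : ℝ) ^ m ≤ 1 := pow_le_one₀ (by norm_num) (by norm_num)
    calc (1 / 2 : ℝ) ^ m * PW.mZ (2 ^ (b - 2)) ≤ (1 / 2) ^ m * n := mul_le_mul_of_nonneg_left h3 (by positivity)
      _ ≤ 1 * n := mul_le_mul_of_nonneg_right h4 hn0.le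
      _ = n := one_mul _
  obtain ⟨ℓ, hℓ⟩ : ∃ ℓ : ℕ, ℓ = ⌊x / 2⌋₊ := ⟨_, rfl⟩
  have hl1 : (ℓ : ℝ) ≤ x / 2 := by rw [hℓ]; exact Nat.floor_le (by linarith)
  have hl2 : x / 2 < ℓ + 1 := by rw [hℓ]; exact Nat.lt_floor_add_one _
  have hl3 : x / 4 ≤ ℓ := by linarith
  have hlpos : (0 : ℝ) < ℓ := by linarith
  have hl4 : 1 ≤ ℓ := by
    have : 0 < ℓ := by exact_mod_cast hlpos
    omega
  have hl5 : 2 * ℓ ≤ n := by
    have : (2 : ℝ) * ℓ ≤ n := by linarith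
    exact_mod_cast this
  -- the number of the windows
  have hcnt : ((n / ℓ + 1 : ℕ) : ℝ) ≤ 2048 * 32 ^ m / c1 := by
    have h5 : ((n / ℓ : ℕ) : ℝ) ≤ n / ℓ := Nat.cast_div_le
    have h6 : (1 : ℝ) ≤ n / ℓ := by
      rw [le_div_iff₀ hlpos]
      linarith
    have h7 : (n : ℝ) / ℓ ≤ 1024 * 32 ^ m / c1 := by
      rw [div_le_div_iff₀ hlpos hc1]
      have h8 : 256 * (32 : ℝ) ^ m * x ≤ 256 * 32 ^ m * (4 * ℓ) := by
        have : x ≤ 4 * ℓ := by linarith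
        gcongr
      linarith
    push_cast
    calc ((n / ℓ : ℕ) : ℝ) + 1 ≤ 1024 * 32 ^ m / c1 + 1024 * 32 ^ m / c1 := by linarith
      _ = _ := by ring
  have h1 := rot_union hl4 hl5 (2 ^ (b + m + 3))
  have h2 := h n b m hnat (by omega) (by omega)
  rw [← hx] at h2
  refine (gf_mono ?_).trans (h1.trans ?_)
  · rintro L ⟨hL, k, hk, hd⟩
    by_contra hcon
    have h3 : ∀ x' y' : ℕ, x' ≤ y' → y' ≤ n → y' ≤ x' + ℓ →
        TIW.hn (vx oo up L y' - vx oo up L x') ≤ 2 * 2 ^ (b + m + 3) := by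
      intro x' y' a1 a2 a3
      by_contra h4
      push Not at h4
      exact hcon ⟨hL, x', y', a1, a2, a3, h4.le⟩
    have hkl : k ≤ (n / ℓ + 1) * ℓ := by
      have := Nat.lt_div_mul_add (a := n) (b := ℓ) (by omega)
      rw [Nat.succ_mul]
      omega
    have h4 := win_disp h3 (n / ℓ + 1) k hkl hk
    have h5 : ((TIW.hn (vx oo up L k) : ℤ) : ℝ) ≤ ((n / ℓ + 1 : ℕ) : ℝ) * (2 * 2 ^ (b + m + 3)) := by
      obtain ⟨j, hj⟩ : ∃ j : ℕ, j = n / ℓ + 1 := ⟨_, rfl⟩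
      rw [← hj] at h4 ⊢
      exact_mod_cast h4
    have h6 : D ≤ 2048 * 32 ^ m / c1 * (2 * 2 ^ (b + m + 3)) := by
      refine hd.trans (h5.trans ?_)
      gcongr
    have h7 : 2048 * (32 : ℝ) ^ m / c1 * (2 * 2 ^ (b + m + 3)) * 4 ^ m ≤ 4096 / c1 * 32 ^ m * N := by
      calc 2048 * (32 : ℝ) ^ m / c1 * (2 * 2 ^ (b + m + 3)) * 4 ^ m = 4096 / c1 * 32 ^ m * (2 ^ (b + m + 3) * 4 ^ m) := by ring
        _ ≤ _ := by gcongr
    have h9 : (32 : ℝ) ^ m = 8 ^ m * 4 ^ m := by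
      rw [← mul_pow]
      norm_num
    have h10 : D * 4 ^ m ≤ 4096 / c1 * (8 ^ m * N) * 4 ^ m := by
      calc D * 4 ^ m ≤ 2048 * 32 ^ m / c1 * (2 * 2 ^ (b + m + 3)) * 4 ^ m := by gcongr
        _ ≤ 4096 / c1 * 32 ^ m * N := h7
        _ = _ := by rw [h9]; ring
    have h11 : D ≤ 4096 / c1 * (8 ^ m * N) := le_of_mul_le_mul_right h10 (by positivity)
    have h12 : 4096 / c1 * (8 ^ m * N) < K * (8 ^ m * N) := by
      have : 0 < (8 : ℝ) ^ m * N := by positivity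
      exact mul_lt_mul_of_pos_right hKc1 this
    have h13 : K * (8 ^ m * N) = 8 ^ m * (K * N) := by ring
    linarith
  · have h3 : gf (FR (2 ^ (b + m + 3)) ((2 * ℓ : ℕ) : ℝ) n) ≤
        ENNReal.ofReal (A * ((1 / 2) ^ ((3 * q + 5) * m) + (ml (b + m) / n) ^ (3 * q + 5)) * ν) := by
      rw [hν]
      refine (gf_mono ?_).trans h2
      rintro L ⟨hL, i, hi, hix, hD⟩
      refine ⟨hL, i, hi, ?_, hD⟩
      push_cast at hix
      linarith
    have h4 : (2 : ℝ≥0∞) * ((n / ℓ + 1 : ℕ) : ℝ≥0∞) = ENNReal.ofReal (2 * ((n / ℓ + 1 : ℕ) : ℝ)) := by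
      rw [ENNReal.ofReal_mul (by norm_num), ENNReal.ofReal_natCast]
      norm_num
    rw [h4]
    refine (mul_le_mul_right h3 _).trans ?_
    rw [← ENNReal.ofReal_mul (by positivity)]
    refine ENNReal.ofReal_le_ofReal ?_
    have hg : (1 / 2 : ℝ) ^ ((3 * q + 5) * m) + (ml (b + m) / n) ^ (3 * q + 5) ≤ 2 * (1 / 2) ^ ((3 * q + 5) * m) := by
      have h5 : ml (b + m) / n ≤ (1 / 2) ^ m := by
        rw [div_le_iff₀ hn0]
        exact hbm
      have h6 : (ml (b + m) / n) ^ (3 * q + 5) ≤ ((1 / 2 : ℝ) ^ m) ^ (3 * q + 5) := pow_le_pow_left₀ (by positivity) h5 _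
      rw [← pow_mul, mul_comm m (3 * q + 5)] at h6
      linarith
    have hpw : (32 : ℝ) ^ m * (1 / 2) ^ ((3 * q + 5) * m) = ((1 / 8) ^ m) ^ q := by
      have e1 : (1 / 2 : ℝ) ^ ((3 * q + 5) * m) = ((1 / 8) ^ m) ^ q * (1 / 32) ^ m := by
        rw [show (1 / 8 : ℝ) = (1 / 2) ^ 3 by norm_num, show (1 / 32 : ℝ) = (1 / 2) ^ 5 by norm_num, ← pow_mul, ← pow_mul,
          ← pow_mul, ← pow_add]
        congr 1
        ring
      rw [e1]
      calc (32 : ℝ) ^ m * (((1 / 8) ^ m) ^ q * (1 / 32) ^ m) = ((1 / 8) ^ m) ^ q * (32 * (1 / 32)) ^ m := by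
            rw [mul_pow (32 : ℝ)]
            ring
        _ = _ := by norm_num
    have h8l : (1 / 8 : ℝ) ^ m ≤ 8 * K * (N / D) := by
      rw [one_div, inv_pow, inv_le_iff_one_le_mul₀ h8, ← mul_div_assoc, div_mul_eq_mul_div, one_le_div hD0]
      rw [pow_succ] at hm2
      calc D ≤ 8 ^ m * 8 * (K * N) := hm2.le
        _ = 8 * K * N * 8 ^ m := by ring
    have hfin : 2 * ((n / ℓ + 1 : ℕ) : ℝ) * (A * ((1 / 2) ^ ((3 * q + 5) * m) + (ml (b + m) / n) ^ (3 * q + 5))) ≤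
        8192 * A / c1 * (8 * K) ^ q * (N / D) ^ q := by
      calc 2 * ((n / ℓ + 1 : ℕ) : ℝ) * (A * ((1 / 2) ^ ((3 * q + 5) * m) + (ml (b + m) / n) ^ (3 * q + 5)))
          ≤ 2 * (2048 * 32 ^ m / c1) * (A * (2 * (1 / 2) ^ ((3 * q + 5) * m))) := by gcongr
        _ = 8192 * A / c1 * (32 ^ m * (1 / 2) ^ ((3 * q + 5) * m)) := by ring
        _ = 8192 * A / c1 * ((1 / 8) ^ m) ^ q := by rw [hpw]
        _ ≤ 8192 * A / c1 * (8 * K * (N / D)) ^ q := by gcongr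
        _ = _ := by rw [mul_pow (8 * K)]; ring
    calc 2 * ((n / ℓ + 1 : ℕ) : ℝ) * (A * ((1 / 2) ^ ((3 * q + 5) * m) + (ml (b + m) / n) ^ (3 * q + 5)) * ν)
        = 2 * ((n / ℓ + 1 : ℕ) : ℝ) * (A * ((1 / 2) ^ ((3 * q + 5) * m) + (ml (b + m) / n) ^ (3 * q + 5))) * ν := by ring
      _ ≤ 8192 * A / c1 * (8 * K) ^ q * (N / D) ^ q * ν := mul_le_mul_of_nonneg_right hfin hν0
      _ ≤ _ := by
          refine mul_le_mul_of_nonneg_right ?_ hν0
          have : 0 ≤ (N / D) ^ q := by positivity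
          nlinarith

/-- **the tail of the diameter of the closed words** -/
theorem pol_tail (q : ℕ) :
    ∃ (A : ℝ) (n0 : ℕ), 0 < A ∧ ∀ (n : ℕ) (D : ℝ), n0 ≤ n → (n : ℝ) ^ (3 / 4 : ℝ) ≤ D →
      gf {L | L ∈ C0 n ∧ ∃ k : ℕ, k ≤ n ∧ D ≤ TIW.hn (vx oo up L k)} ≤
        ENNReal.ofReal (A * ((n : ℝ) ^ (3 / 4 : ℝ) / D) ^ q * (n : ℝ) ^ (-(3 / 2) : ℝ)) := by
  obtain ⟨κ, C, s, h1, h2, h3⟩ := rows_all ARM.t1
  exact pol_tail_of h1 h2 h3 q

end PMA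

end HexObs
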