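import Pool.Agent.ROT.PNt
import Pool.Agent.ROT.PTail
import Pool.Agent.ROT.ISt

/-!
# ROT, row NTS (helper71): near self touches, all lengths

`tail_sum`, `head_sum`: the sums over the lengths; **`wnt`**: the closed words of size `≥ r R` with a near self touch at the
scale `δ R` between two arcs of size `≥ ρ R` have the mass `≤ ε / R ^ 2` (weights `1 / n` = modulo translation).
-/

set_option autoImplicit false

open Filter Topology Finset

open scoped Classical ENNReal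

namespace Pool.Agent.ROT.N

open Pool.Agent.PMA

open HexObs hiding pos curve

open HexObs.TIW NTF HexObs.PMA

open HexObs.ARM (C0)

/-! ### sums over the lengths -/

/-- one step -/
lemma pow_step {n : ℕ} (hn : 1 ≤ n) : (n : ℝ) ^ (-(5 / 2) : ℝ) ≤
    2 * ((n : ℝ) ^ (-(3 / 2) : ℝ) - ((n + 1 : ℕ) : ℝ) ^ (-(3 / 2) : ℝ)) := by
  have h0 : (0 : ℝ) < n := by exact_mod_cast hn
  have h1 : (1 : ℝ) ≤ n := by exact_mod_cast hn
  obtain ⟨x, hx⟩ : ∃ x : ℝ, x = 1 / (n : ℝ) := ⟨_, rfl⟩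
  have hx0 : 0 < x := by rw [hx]; positivity
  have hx1 : x ≤ 1 := by rw [hx, div_le_one h0]; exact h1
  have h2 : 1 + 3 / 2 * x ≤ (1 + x) ^ (3 / 2 : ℝ) :=
    one_add_mul_self_le_rpow_one_add (by linarith) (by norm_num)
  have h3 : ((n + 1 : ℕ) : ℝ) = n * (1 + x) := by
    rw [hx]
    push_cast
    field_simp
  have h4 : (1 + x) ^ (-(3 / 2) : ℝ) ≤ 1 - x / 2 := by
    rw [Real.rpow_neg (by linarith)]
    have h5 : 0 < 1 + 3 / 2 * x := by linarith
    calc ((1 + x) ^ (3 / 2 : ℝ))⁻¹ ≤ (1 + 3 / 2 * x)⁻¹ := inv_anti₀ h5 h2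
      _ ≤ 1 - x / 2 := by
          rw [inv_le_iff_one_le_mul₀ h5]
          nlinarith
  have h5 : (n : ℝ) ^ (-(5 / 2) : ℝ) = (n : ℝ) ^ (-(3 / 2) : ℝ) * x := by
    rw [hx, one_div, ← Real.rpow_neg_one, ← Real.rpow_add h0]
    norm_num
  rw [h3, Real.mul_rpow h0.le (by linarith), h5]
  have h6 : 0 < (n : ℝ) ^ (-(3 / 2) : ℝ) := Real.rpow_pos_of_pos h0 _
  nlinarith

/-- **the long words** -/
lemma tail_sum {M : ℝ} (hM : 0 < M) : ∑' n : ℕ, (if M ≤ n then ENNReal.ofReal ((n : ℝ) ^ (-(5 / 2) : ℝ)) else 0) ≤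
    ENNReal.ofReal (2 * M ^ (-(3 / 2) : ℝ)) := by
  rw [ENNReal.tsum_eq_iSup_nat]
  refine iSup_le fun K => ?_
  obtain ⟨m, hm⟩ : ∃ m : ℕ, m = ⌈M⌉₊ := ⟨_, rfl⟩
  have hm1 : 1 ≤ m := by
    rw [hm]
    exact Nat.one_le_ceil_iff.2 hM
  have hMm : M ≤ m := by
    rw [hm]
    exact Nat.le_ceil M
  have key : ∀ K : ℕ, ∑ n ∈ range K, (if M ≤ n then (n : ℝ) ^ (-(5 / 2) : ℝ) else 0) ≤
      2 * ((m : ℝ) ^ (-(3 / 2) : ℝ) - ((max m K : ℕ) : ℝ) ^ (-(3 / 2) : ℝ)) := by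
    intro K
    induction K with
    | zero =>
      rw [range_zero, sum_empty, Nat.max_zero, sub_self, mul_zero]
    | succ K ih =>
      rw [sum_range_succ]
      by_cases h : M ≤ K
      · have h1 : m ≤ K := by
          rw [hm]
          exact Nat.ceil_le.2 h
        rw [if_pos h, max_eq_right (by omega : m ≤ K + 1)]
        rw [max_eq_right h1] at ih
        have h2 := pow_step (hm1.trans h1)
        linarith
      · have h1 : K + 1 ≤ m := by
          by_contra h2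
          exact h (hMm.trans (by exact_mod_cast (by omega : m ≤ K)))
        rw [if_neg h, add_zero, max_eq_left (by omega : K + 1 ≤ m)]
        rw [max_eq_left (by omega : K ≤ m)] at ih
        exact ih
  have h1 : ∑ n ∈ range K, (if M ≤ n then ENNReal.ofReal ((n : ℝ) ^ (-(5 / 2) : ℝ)) else 0) =
      ENNReal.ofReal (∑ n ∈ range K, (if M ≤ n then (n : ℝ) ^ (-(5 / 2) : ℝ) else 0)) := by
    rw [ENNReal.ofReal_sum_of_nonneg]
    · refine sum_congr rfl fun n _ => ?_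
      split_ifs
      · rfl
      · exact ENNReal.ofReal_zero.symm
    · intro n _
      split_ifs
      · positivity
      · exact le_rfl
  rw [h1]
  refine ENNReal.ofReal_le_ofReal ((key K).trans ?_)
  have h2 : (m : ℝ) ^ (-(3 / 2) : ℝ) ≤ M ^ (-(3 / 2) : ℝ) := Real.rpow_le_rpow_of_nonpos hM hMm (by norm_num)
  have h3 : 0 ≤ ((max m K : ℕ) : ℝ) ^ (-(3 / 2) : ℝ) := by positivity
  linarith

/-- **the short words** -/
lemma head_sum {X : ℝ} (hX : 0 ≤ X) {c : ℝ} (hc : 0 ≤ c) :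
    ∑' n : ℕ, (if 1 ≤ n ∧ (n : ℝ) ≤ X then ENNReal.ofReal (c * (n : ℝ) ^ (1 / 2 : ℝ)) else 0) ≤
      ENNReal.ofReal (c * X ^ (3 / 2 : ℝ)) := by
  have h1 : ∀ n ∉ Icc 1 ⌊X⌋₊, (if 1 ≤ n ∧ (n : ℝ) ≤ X then ENNReal.ofReal (c * (n : ℝ) ^ (1 / 2 : ℝ)) else 0) = 0 := by
    intro n hn
    refine if_neg fun h => hn (mem_Icc.2 ⟨h.1, Nat.le_floor h.2⟩)
  rw [tsum_eq_sum h1]
  have h2 : ∀ n ∈ Icc 1 ⌊X⌋₊, (if 1 ≤ n ∧ (n : ℝ) ≤ X then ENNReal.ofReal (c * (n : ℝ) ^ (1 / 2 : ℝ)) else 0) ≤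
      ENNReal.ofReal (c * X ^ (1 / 2 : ℝ)) := by
    intro n hn
    split_ifs with h
    · refine ENNReal.ofReal_le_ofReal (mul_le_mul_of_nonneg_left ?_ hc)
      exact Real.rpow_le_rpow (Nat.cast_nonneg _) h.2 (by norm_num)
    · exact zero_le
  refine (sum_le_sum h2).trans ?_
  rw [sum_const, nsmul_eq_mul, Nat.card_Icc, Nat.add_sub_cancel, ← ENNReal.ofReal_natCast, ← ENNReal.ofReal_mul (by positivity)]
  refine ENNReal.ofReal_le_ofReal ?_
  have h3 : X ^ (3 / 2 : ℝ) = X * X ^ (1 / 2 : ℝ) := by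
    rcases hX.eq_or_lt with h | h
    · rw [← h]
      norm_num
    · conv_rhs => rw [← Real.rpow_one X]
      rw [← Real.rpow_mul hX, ← Real.rpow_add h]
      norm_num
  rw [h3]
  have h4 : (⌊X⌋₊ : ℝ) ≤ X := Nat.floor_le hX
  have h5 : 0 ≤ X ^ (1 / 2 : ℝ) := Real.rpow_nonneg hX _
  calc (⌊X⌋₊ : ℝ) * (c * X ^ (1 / 2 : ℝ)) ≤ X * (c * X ^ (1 / 2 : ℝ)) :=
        mul_le_mul_of_nonneg_right h4 (mul_nonneg hc h5)
    _ = c * (X * X ^ (1 / 2 : ℝ)) := by ring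

/-! ### the mass of the near self touches -/

/-- from the numbers to the masses -/
lemma gf_of_card {N : ℕ} {p : List Bool → Prop} {e : ℝ} (he : 0 ≤ e)
    (h : (((cyF N).filter p).card : ℝ) ≤ e * ((cyF N).card : ℝ)) :
    gf {K | K ∈ POL.Cy N ∧ p K} ≤ ENNReal.ofReal e * gf (POL.Cy N) := by
  have hf : {K | K ∈ POL.Cy N ∧ p K}.Finite := (cy_fin N).subset fun K h => h.1
  rw [← ENNReal.ofReal_toReal (gf_top hf), ← ENNReal.ofReal_toReal (gf_top (cy_fin N)), ← ENNReal.ofReal_mul he]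
  refine ENNReal.ofReal_le_ofReal ?_
  rw [card_filt, card_all]
  have hx : 0 < xc ^ N := pow_pos xc_pos N
  have h3 : (((cyF N).filter p).card : ℝ) =
      ((@Finset.filter _ p (fun a => Classical.propDecidable (p a)) (cyF N)).card : ℝ) := by
    congr 2
  rw [← h3, ← mul_assoc]
  exact mul_le_mul_of_nonneg_right h hx.le

/-- a closed word has an even number of letters -/
lemma cy_even {N : ℕ} {t : List Bool} (h : t ∈ POL.Cy N) : Even N := by
  have h1 := cl_dx up t t.length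
  rw [h.1] at h1
  by_contra h2
  rw [if_neg h2, h.2.2.1] at h1
  have h3 : cl up = -cl up := h1
  have h4 : cl up ≠ -cl up := by decide
  exact h4 h3

/-- the size of a closed word seen from the root -/
lemma size_root {m : ℕ} {t : List Bool} (ht : t ∈ POL.Cy (m + 1)) {D : ℝ} (hD : 0 < D)
    (h : ∃ i j, i ≤ m + 1 ∧ j ≤ m + 1 ∧ 2 * D ≤ (hn (vx oo up t i - vx oo up t j) : ℝ)) :
    t.dropLast ∈ {L : List Bool | ∃ k : ℕ, k ≤ m ∧ D ≤ (hn (vx oo up L k) : ℝ)} := by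
  obtain ⟨i, j, hi, hj, h1⟩ := h
  have key : ∀ k : ℕ, k ≤ m + 1 → D ≤ (hn (vx oo up t k) : ℝ) →
      t.dropLast ∈ {L : List Bool | ∃ k : ℕ, k ≤ m ∧ D ≤ (hn (vx oo up L k) : ℝ)} := by
    intro k hk h2
    have h3 : k ≠ m + 1 := by
      rintro rfl
      rw [ht.2.1] at h2
      have h4 : hn oo = 0 := by decide
      rw [h4] at h2
      push_cast at h2
      linarith
    refine ⟨k, by omega, ?_⟩
    rw [HexObs.PMA.vx_dropLast ht.1 (by omega)]
    exact h2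
  have h2 : (hn (vx oo up t i - vx oo up t j) : ℝ) ≤ hn (vx oo up t i) + hn (vx oo up t j) := by
    have h3 := hn_add (vx oo up t i) (-(vx oo up t j))
    rw [hn_neg, ← sub_eq_add_neg] at h3
    exact_mod_cast h3
  by_cases h3 : D ≤ (hn (vx oo up t i) : ℝ)
  · exact key i hi h3
  · exact key j hj (by linarith)

/-- more near self touches -/
lemma NTw.mono {N : ℕ} {t : List Bool} {d d' D D' : ℝ} (hd : d ≤ d') (hD : D' ≤ D) (h : NTw N t d D) : NTw N t d' D' := by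
  obtain ⟨i, k, j, l, a1, a2, a3, a4, a5, a6, a7⟩ := h
  exact ⟨i, k, j, l, a1, a2, a3, a4, a5.trans hd, hD.trans a6, hD.trans a7⟩

/-- **near self touches of the closed words of size `≥ r R`, all lengths** -/
theorem wnt (r ρ ε : ℝ) (hr : 0 < r) (hρ : 0 < ρ) (hε : 0 < ε) : ∃ δ : ℝ, 0 < δ ∧ ∃ R0 : ℝ, ∀ R : ℝ, R0 ≤ R →
    ∑' n : ℕ, ENNReal.ofReal (1 / n) * gf {t | t ∈ POL.Cy n ∧
      (∃ i j, i ≤ n ∧ j ≤ n ∧ r * R ≤ (hn (vx oo up t i - vx oo up t j) : ℝ)) ∧ NTw n t (δ * R) (ρ * R)} ≤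
      ENNReal.ofReal (ε / R ^ 2) := by
  obtain ⟨C1, hC1, hP⟩ := POL.P1
  obtain ⟨A, n1, hA, hT⟩ := HexObs.PMA.pol_tail 4
  -- the upper cut
  obtain ⟨b, hb0, hb⟩ : ∃ b : ℝ, 0 < b ∧ 2 * C1 * b ^ (-(3 / 2) : ℝ) = ε / 3 := by
    refine ⟨(ε / (6 * C1)) ^ (-(2 / 3) : ℝ), by positivity, ?_⟩
    rw [← Real.rpow_mul (by positivity)]
    norm_num
    field_simp
    norm_num
  -- the lower cut
  obtain ⟨a, ha0, ha1, ha2⟩ : ∃ a : ℝ, 0 < a ∧ a ^ (3 / 4 : ℝ) ≤ r / 2 ∧ 32 * A / r ^ 4 * a ^ (3 / 2 : ℝ) ≤ ε / 3 := by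
    obtain ⟨v, hv⟩ : ∃ v : ℝ, v = min ((r / 2) ^ (4 / 3 : ℝ)) ((ε * r ^ 4 / (96 * A)) ^ (2 / 3 : ℝ)) := ⟨_, rfl⟩
    have hv0 : 0 < v := by
      rw [hv]
      positivity
    refine ⟨v, hv0, ?_, ?_⟩
    · calc v ^ (3 / 4 : ℝ) ≤ ((r / 2) ^ (4 / 3 : ℝ)) ^ (3 / 4 : ℝ) :=
            Real.rpow_le_rpow hv0.le (hv ▸ min_le_left _ _) (by norm_num)
        _ = r / 2 := by
            rw [← Real.rpow_mul (by positivity)]
            norm_num
    · have h1 : v ^ (3 / 2 : ℝ) ≤ ε * r ^ 4 / (96 * A) := by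
        calc v ^ (3 / 2 : ℝ) ≤ ((ε * r ^ 4 / (96 * A)) ^ (2 / 3 : ℝ)) ^ (3 / 2 : ℝ) :=
              Real.rpow_le_rpow hv0.le (hv ▸ min_le_right _ _) (by norm_num)
          _ = ε * r ^ 4 / (96 * A) := by
              rw [← Real.rpow_mul (by positivity)]
              norm_num
      calc 32 * A / r ^ 4 * v ^ (3 / 2 : ℝ) ≤ 32 * A / r ^ 4 * (ε * r ^ 4 / (96 * A)) :=
            mul_le_mul_of_nonneg_left h1 (by positivity)
        _ = ε / 3 := by
            field_simp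
            norm_num
  -- the middle
  obtain ⟨ε', hε'⟩ : ∃ ε' : ℝ, ε' = ε / (6 * C1) * a ^ (3 / 2 : ℝ) := ⟨_, rfl⟩
  have hε'0 : 0 < ε' := by
    rw [hε']
    positivity
  obtain ⟨ρ', hρ'⟩ : ∃ ρ' : ℝ, ρ' = ρ / b ^ (3 / 4 : ℝ) := ⟨_, rfl⟩
  have hρ'0 : 0 < ρ' := by
    rw [hρ']
    positivity
  obtain ⟨δ', hδ', n2, hN⟩ := nt_cy ε' ρ' hε'0 hρ'0
  obtain ⟨δ, hδ⟩ : ∃ δ : ℝ, δ = δ' * (a / 2) ^ (3 / 4 : ℝ) := ⟨_, rfl⟩
  have hδ0 : 0 < δ := by
    rw [hδ]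
    positivity
  refine ⟨δ, hδ0, max 1 (max ((4 * (n1 + 1)) / r) (((2 * (n2 + 2)) / a) ^ (3 / 4 : ℝ))), fun R hR => ?_⟩
  have hR1 : 1 ≤ R := (le_max_left _ _).trans hR
  have hR2 : (4 * (n1 + 1)) / r ≤ R := (le_max_left _ _).trans ((le_max_right _ _).trans hR)
  have hR3 : ((2 * ((n2 : ℝ) + 2)) / a) ^ (3 / 4 : ℝ) ≤ R := (le_max_right _ _).trans ((le_max_right _ _).trans hR)
  have hR0 : 0 < R := by linarith
  obtain ⟨Y, hY⟩ : ∃ Y : ℝ, Y = R ^ (4 / 3 : ℝ) := ⟨_, rfl⟩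
  have hY0 : 0 < Y := by
    rw [hY]
    positivity
  have hYR : Y ^ (3 / 4 : ℝ) = R := by
    rw [hY, ← Real.rpow_mul hR0.le]
    norm_num
  have hY2 : Y ^ (3 / 2 : ℝ) = R ^ 2 := by
    rw [hY, ← Real.rpow_mul hR0.le]
    norm_num
  have hYm : Y ^ (-(3 / 2) : ℝ) = 1 / R ^ 2 := by
    rw [Real.rpow_neg hY0.le, hY2, one_div]
  have hbig : 2 * ((n2 : ℝ) + 2) ≤ a * Y := by
    have h1 : (2 * ((n2 : ℝ) + 2)) / a ≤ Y := by
      rw [hY]
      calc (2 * ((n2 : ℝ) + 2)) / a = (((2 * ((n2 : ℝ) + 2)) / a) ^ (3 / 4 : ℝ)) ^ (4 / 3 : ℝ) := by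
            rw [← Real.rpow_mul (by positivity)]
            norm_num
        _ ≤ R ^ (4 / 3 : ℝ) := Real.rpow_le_rpow (by positivity) hR3 (by norm_num)
    rwa [div_le_iff₀' ha0] at h1
  obtain ⟨D, hD⟩ : ∃ D : ℝ, D = r * R / 2 := ⟨_, rfl⟩
  have hD0 : 0 < D := by
    rw [hD]
    positivity
  have hDn : 2 * ((n1 : ℝ) + 1) ≤ D := by
    rw [div_le_iff₀ hr] at hR2
    rw [hD]
    linarith
  obtain ⟨c, hc⟩ : ∃ c : ℝ, c = 2 * A / D ^ 4 := ⟨_, rfl⟩
  have hc0 : 0 < c := by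
    rw [hc]
    positivity
  -- one length
  have term : ∀ n : ℕ, ENNReal.ofReal (1 / n) * gf {t | t ∈ POL.Cy n ∧
      (∃ i j, i ≤ n ∧ j ≤ n ∧ r * R ≤ (hn (vx oo up t i - vx oo up t j) : ℝ)) ∧ NTw n t (δ * R) (ρ * R)} ≤
      (if 1 ≤ n ∧ (n : ℝ) ≤ a * Y then ENNReal.ofReal (c * (n : ℝ) ^ (1 / 2 : ℝ)) else 0) +
      (ENNReal.ofReal C1 * (if b * Y ≤ n then ENNReal.ofReal ((n : ℝ) ^ (-(5 / 2) : ℝ)) else 0) +
      ENNReal.ofReal (ε' * C1) * (if a * Y ≤ n then ENNReal.ofReal ((n : ℝ) ^ (-(5 / 2) : ℝ)) else 0)) := by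
    intro n
    rcases Nat.eq_zero_or_pos n with h0 | h0
    · subst h0
      simp
    have hn0 : (0 : ℝ) < n := by exact_mod_cast h0
    have e52 : ∀ x : ℝ, 0 ≤ x → ENNReal.ofReal (1 / n) * ENNReal.ofReal (x * (n : ℝ) ^ (-(3 / 2) : ℝ)) =
        ENNReal.ofReal x * ENNReal.ofReal ((n : ℝ) ^ (-(5 / 2) : ℝ)) := by
      intro x hx
      rw [← ENNReal.ofReal_mul (by positivity), ← ENNReal.ofReal_mul hx]
      congr 1
      have h1 : (n : ℝ) ^ (-(5 / 2) : ℝ) = (n : ℝ) ^ (-(3 / 2) : ℝ) * (1 / n) := by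
        rw [one_div, ← Real.rpow_neg_one, ← Real.rpow_add hn0]
        norm_num
      rw [h1]
      ring
    obtain ⟨m, rfl⟩ : ∃ m : ℕ, n = m + 1 := ⟨n - 1, by omega⟩
    by_cases hb1 : b * Y ≤ ((m + 1 : ℕ) : ℝ)
    · -- long words
      refine le_trans ?_ (le_self_add.trans le_add_self)
      · rw [if_pos hb1, ← e52 C1 hC1.le]
        exact mul_le_mul' le_rfl ((gf_mono fun t h => h.1).trans (hP _ (by omega)))
    by_cases ha3 : ((m + 1 : ℕ) : ℝ) ≤ a * Y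
    · -- short words
      refine le_trans ?_ le_self_add
      rw [if_pos ⟨by omega, ha3⟩]
      have h1 : gf {t | t ∈ POL.Cy (m + 1) ∧
          (∃ i j, i ≤ m + 1 ∧ j ≤ m + 1 ∧ r * R ≤ (hn (vx oo up t i - vx oo up t j) : ℝ)) ∧ NTw (m + 1) t (δ * R) (ρ * R)} ≤
          2 * gf {L | L ∈ C0 m ∧ ∃ k : ℕ, k ≤ m ∧ D ≤ (hn (vx oo up L k) : ℝ)} := by
        refine le_trans (gf_mono fun t h => ?_) (HexObs.PMA.cy_C0 m {L | ∃ k : ℕ, k ≤ m ∧ D ≤ (hn (vx oo up L k) : ℝ)})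
        refine ⟨h.1, size_root h.1 hD0 ?_⟩
        obtain ⟨i, j, b1, b2, b3⟩ := h.2.1
        exact ⟨i, j, b1, b2, by rw [hD]; linarith⟩
      rcases lt_or_ge m n1 with h2 | h2
      · -- very short words do not reach the distance
        have h3 : {L | L ∈ C0 m ∧ ∃ k : ℕ, k ≤ m ∧ D ≤ (hn (vx oo up L k) : ℝ)} = ∅ := by
          rw [Set.eq_empty_iff_forall_notMem]
          rintro L ⟨-, k, hk, h4⟩
          have h5 := HexObs.PMA.hn_lin L k
          have h6 : (hn (vx oo up L k) : ℝ) ≤ 2 * k := by exact_mod_cast h5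
          have h7 : (k : ℝ) ≤ n1 := by exact_mod_cast (by omega : k ≤ n1)
          linarith
        rw [h3] at h1
        have h4 : gf (∅ : Set (List Bool)) = 0 := by
          unfold gf
          simp
        rw [h4, mul_zero] at h1
        rw [nonpos_iff_eq_zero.1 h1, mul_zero]
        exact zero_le
      · have h3 : ((m : ℝ)) ^ (3 / 4 : ℝ) ≤ D := by
          calc ((m : ℝ)) ^ (3 / 4 : ℝ) ≤ (a * Y) ^ (3 / 4 : ℝ) := by
                refine Real.rpow_le_rpow (Nat.cast_nonneg _) ?_ (by norm_num)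
                push_cast at ha3
                linarith
            _ = a ^ (3 / 4 : ℝ) * R := by rw [Real.mul_rpow ha0.le hY0.le, hYR]
            _ ≤ r / 2 * R := mul_le_mul_of_nonneg_right ha1 hR0.le
            _ = D := by rw [hD]; ring
        have h4 := hT m D h2 h3
        have h5 : A * ((m : ℝ) ^ (3 / 4 : ℝ) / D) ^ 4 * (m : ℝ) ^ (-(3 / 2) : ℝ) ≤ A / D ^ 4 * ((m + 1 : ℕ) : ℝ) ^ (3 / 2 : ℝ) := by
          rcases Nat.eq_zero_or_pos m with h6 | h6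
          · subst h6
            rw [Nat.cast_zero, Real.zero_rpow (by norm_num), zero_div]
            have : (0 : ℝ) ^ 4 = 0 := by norm_num
            rw [this, mul_zero, zero_mul]
            positivity
          · have hm0 : (0 : ℝ) < m := by exact_mod_cast h6
            have h7 : ((m : ℝ) ^ (3 / 4 : ℝ)) ^ 4 * (m : ℝ) ^ (-(3 / 2) : ℝ) = (m : ℝ) ^ (3 / 2 : ℝ) := by
              rw [← Real.rpow_natCast, ← Real.rpow_mul hm0.le, ← Real.rpow_add hm0]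
              norm_num
            calc A * ((m : ℝ) ^ (3 / 4 : ℝ) / D) ^ 4 * (m : ℝ) ^ (-(3 / 2) : ℝ) =
                A / D ^ 4 * (((m : ℝ) ^ (3 / 4 : ℝ)) ^ 4 * (m : ℝ) ^ (-(3 / 2) : ℝ)) := by
                  rw [div_pow]
                  ring
              _ = A / D ^ 4 * (m : ℝ) ^ (3 / 2 : ℝ) := by rw [h7]
              _ ≤ _ := by
                  refine mul_le_mul_of_nonneg_left ?_ (by positivity)
                  exact Real.rpow_le_rpow hm0.le (by push_cast; linarith) (by norm_num)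
        calc ENNReal.ofReal (1 / ((m + 1 : ℕ) : ℝ)) * _ ≤ ENNReal.ofReal (1 / ((m + 1 : ℕ) : ℝ)) *
              (2 * ENNReal.ofReal (A / D ^ 4 * ((m + 1 : ℕ) : ℝ) ^ (3 / 2 : ℝ))) :=
              mul_le_mul' le_rfl (h1.trans (mul_le_mul' le_rfl (h4.trans (ENNReal.ofReal_le_ofReal h5))))
          _ = ENNReal.ofReal (c * ((m + 1 : ℕ) : ℝ) ^ (1 / 2 : ℝ)) := by
              have h6 : (2 : ℝ≥0∞) = ENNReal.ofReal 2 := by simp
              rw [h6, ← ENNReal.ofReal_mul (by norm_num), ← ENNReal.ofReal_mul (by positivity)]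
              congr 1
              have h7 : ((m + 1 : ℕ) : ℝ) ^ (3 / 2 : ℝ) = ((m + 1 : ℕ) : ℝ) * ((m + 1 : ℕ) : ℝ) ^ (1 / 2 : ℝ) := by
                conv_rhs => rw [← Real.rpow_one ((m + 1 : ℕ) : ℝ)]
                rw [← Real.rpow_mul hn0.le, ← Real.rpow_add hn0]
                norm_num
              rw [h7, hc]
              have h8 : ((m + 1 : ℕ) : ℝ) ≠ 0 := hn0.ne'
              field_simp
    · -- the middle
      push Not at hb1 ha3
      refine le_trans ?_ (le_add_self.trans le_add_self)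
      rw [if_pos ha3.le, ← e52 (ε' * C1) (by positivity)]
      refine mul_le_mul' le_rfl ?_
      rcases Set.eq_empty_or_nonempty (POL.Cy (m + 1)) with he | ⟨t0, ht0⟩
      · have h1 : {t | t ∈ POL.Cy (m + 1) ∧
            (∃ i j, i ≤ m + 1 ∧ j ≤ m + 1 ∧ r * R ≤ (hn (vx oo up t i - vx oo up t j) : ℝ)) ∧ NTw (m + 1) t (δ * R) (ρ * R)} = ∅ := by
          rw [Set.eq_empty_iff_forall_notMem]
          rintro t ⟨ht, -⟩
          rw [he] at ht
          exact ht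
        rw [h1]
        unfold gf
        simp
      have hev := cy_even ht0
      have hodd : Odd m := by
        rcases Nat.even_or_odd m with h1 | h1
        · exact absurd hev (by
            rw [Nat.even_add_one]
            exact not_not.2 h1)
        · exact h1
      have ha4 : a * Y < (m : ℝ) + 1 := by
        push_cast at ha3
        exact ha3
      have hm2 : n2 ≤ m := by
        have h1 : (n2 : ℝ) < m := by linarith
        exact_mod_cast h1.le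
      have hm1 : a / 2 * Y ≤ m := by linarith
      have hm0 : (0 : ℝ) ≤ m := Nat.cast_nonneg _
      have hlow : δ * R ≤ δ' * (m : ℝ) ^ (3 / 4 : ℝ) := by
        rw [hδ, mul_assoc]
        refine mul_le_mul_of_nonneg_left ?_ hδ'.le
        calc (a / 2) ^ (3 / 4 : ℝ) * R = (a / 2 * Y) ^ (3 / 4 : ℝ) := by rw [Real.mul_rpow (by positivity) hY0.le, hYR]
          _ ≤ (m : ℝ) ^ (3 / 4 : ℝ) := Real.rpow_le_rpow (by positivity) hm1 (by norm_num)
      have hupp : ρ' * (m : ℝ) ^ (3 / 4 : ℝ) ≤ ρ * R := by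
        have h1 : (m : ℝ) ^ (3 / 4 : ℝ) ≤ b ^ (3 / 4 : ℝ) * R := by
          calc (m : ℝ) ^ (3 / 4 : ℝ) ≤ (b * Y) ^ (3 / 4 : ℝ) := by
                refine Real.rpow_le_rpow hm0 ?_ (by norm_num)
                push_cast at hb1
                linarith
            _ = b ^ (3 / 4 : ℝ) * R := by rw [Real.mul_rpow hb0.le hY0.le, hYR]
        calc ρ' * (m : ℝ) ^ (3 / 4 : ℝ) ≤ ρ' * (b ^ (3 / 4 : ℝ) * R) := mul_le_mul_of_nonneg_left h1 hρ'0.le
          _ = ρ * R := by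
              rw [hρ']
              have : b ^ (3 / 4 : ℝ) ≠ 0 := (Real.rpow_pos_of_pos hb0 _).ne'
              field_simp
      have h1 := gf_of_card (p := fun t => NTw (m + 1) t (δ' * (m : ℝ) ^ (3 / 4 : ℝ)) (ρ' * (m : ℝ) ^ (3 / 4 : ℝ))) hε'0.le
        (hN m hm2 hodd)
      refine le_trans (gf_mono fun t h => ?_) (h1.trans (mul_le_mul' le_rfl (hP (m + 1) (by omega)))) |>.trans ?_
      · exact ⟨h.1, h.2.2.mono hlow hupp⟩
      · rw [← ENNReal.ofReal_mul hε'0.le, mul_assoc]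
  refine (ENNReal.tsum_le_tsum term).trans ?_
  rw [ENNReal.tsum_add, ENNReal.tsum_add, ENNReal.tsum_mul_left, ENNReal.tsum_mul_left]
  have s1 := head_sum (X := a * Y) (by positivity) hc0.le
  have s2 := tail_sum (M := b * Y) (by positivity)
  have s3 := tail_sum (M := a * Y) (by positivity)
  have hRR : 0 < R ^ 2 := by positivity
  have t1 : c * (a * Y) ^ (3 / 2 : ℝ) ≤ ε / 3 / R ^ 2 := by
    rw [Real.mul_rpow ha0.le hY0.le, hY2, hc, hD]
    have h1 : 2 * A / (r * R / 2) ^ 4 * (a ^ (3 / 2 : ℝ) * R ^ 2) = 32 * A / r ^ 4 * a ^ (3 / 2 : ℝ) / R ^ 2 := by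
      field_simp
      norm_num
    rw [h1]
    exact div_le_div_of_nonneg_right ha2 hRR.le
  have t2 : C1 * (2 * (b * Y) ^ (-(3 / 2) : ℝ)) ≤ ε / 3 / R ^ 2 := by
    rw [Real.mul_rpow hb0.le hY0.le, hYm]
    have h1 : C1 * (2 * (b ^ (-(3 / 2) : ℝ) * (1 / R ^ 2))) = 2 * C1 * b ^ (-(3 / 2) : ℝ) / R ^ 2 := by ring
    rw [h1, hb]
  have t3 : ε' * C1 * (2 * (a * Y) ^ (-(3 / 2) : ℝ)) ≤ ε / 3 / R ^ 2 := by
    rw [Real.mul_rpow ha0.le hY0.le, hYm, hε']
    have h2 : a ^ (3 / 2 : ℝ) * a ^ (-(3 / 2) : ℝ) = 1 := by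
      rw [← Real.rpow_add ha0]
      norm_num
    have h1 : ε / (6 * C1) * a ^ (3 / 2 : ℝ) * C1 * (2 * (a ^ (-(3 / 2) : ℝ) * (1 / R ^ 2))) =
        ε / 3 / R ^ 2 * (a ^ (3 / 2 : ℝ) * a ^ (-(3 / 2) : ℝ)) := by
      field_simp
      norm_num
    rw [h1, h2, mul_one]
  calc _ ≤ ENNReal.ofReal (ε / 3 / R ^ 2) + (ENNReal.ofReal (ε / 3 / R ^ 2) + ENNReal.ofReal (ε / 3 / R ^ 2)) := by
        refine add_le_add (s1.trans (ENNReal.ofReal_le_ofReal t1)) (add_le_add ?_ ?_)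
        · refine (mul_le_mul' le_rfl s2).trans ?_
          rw [← ENNReal.ofReal_mul hC1.le]
          exact ENNReal.ofReal_le_ofReal t2
        · refine (mul_le_mul' le_rfl s3).trans ?_
          rw [← ENNReal.ofReal_mul (by positivity)]
          exact ENNReal.ofReal_le_ofReal t3
    _ = ENNReal.ofReal (ε / R ^ 2) := by
        rw [← ENNReal.ofReal_add (by positivity) (by positivity), ← ENNReal.ofReal_add (by positivity) (by positivity)]
        congr 1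
        ring

end Pool.Agent.ROT.N
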