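import Pool.Agent.PMA.H7
import Pool.Agent.PMA.PubA
import Pool.Agent.TSW.StE

/-!
# ROT, block F2 (helper83), part a: the windows of the turns of the polygons have the law of the two-sided infinite walk

* `rho_qm` : the densities of the windows of the walks are the `Q`-means;
* **`pol_den`** : the densities of the windows at the start of the polygons are the `Q`-means, up to `ε`, uniformly over the
  windows of at most `n / R` turns and their functionals.
-/

set_option autoImplicit false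

open Set Filter Topology MeasureTheory

open scoped ENNReal

namespace Pool.Agent.ROT

open Pool.Agent.TSW Pool.Agent.TSW.Sym Pool.Agent.TSW.E Pool.Agent.NTS.Res Pool.Agent.PMA Pool.Agent.PMA.Res

variable {Q : Measure (ℤ → Bool)}

/-- the densities of the walks are the Q-means -/
lemma rho_qm (hQ : QOk Q) {ρ : (m : ℕ) → ((Fin m → Bool) → ℝ) → ℝ}
    (h0 : ∀ (m : ℕ) (Φ : (Fin m → Bool) → ℝ), (∀ x, 0 ≤ Φ x ∧ Φ x ≤ 1) → 0 ≤ ρ m Φ ∧ ρ m Φ ≤ 2)
    (h2 : ∀ ε : ℝ, 0 < ε → ∃ R : ℕ, ∀ (m : ℕ) (Φ : (Fin m → Bool) → ℝ), (∀ x, 0 ≤ Φ x ∧ Φ x ≤ 1) → ∀ n : ℕ, R * (m + 1) ≤ n →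
      ∀ (P : (Fin n → Fin 3) → Prop) [DecidablePred P], (∀ s, P s ↔ ∃ a b : ℕ, a ≤ b ∧ b ≤ n ∧
        ε * n < |hitw s Φ a b - ρ m Φ * ((b : ℝ) - a)|) → (((saw n).filter P).card : ℝ) ≤ ε * (saw n).card)
    (m : ℕ) (Φ : (Fin m → Bool) → ℝ) (hΦ : ∀ x, 0 ≤ Φ x ∧ Φ x ≤ 1) : ρ m Φ = qm Q Φ := by
  classical
  have key : ∀ e : ℝ, 0 < e → ∃ R : ℕ, ∀ n : ℕ, 1 ≤ n → R * (m + 1) ≤ n →
      |(∑ s ∈ saw n, hitw s Φ 0 n) / (n * (saw n).card) - ρ m Φ| ≤ 3 * e := by
    intro e he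
    obtain ⟨R, hR⟩ := h2 e he
    refine ⟨R, fun n hn1 hn => ?_⟩
    have hn0 : (0 : ℝ) < n := by exact_mod_cast hn1
    have hc := NTSF.saw_card_pos n
    have hd : (0 : ℝ) < n * (saw n).card := by positivity
    obtain ⟨P, hP⟩ : ∃ P : (Fin n → Fin 3) → Prop, P = fun s => ∃ a b : ℕ, a ≤ b ∧ b ≤ n ∧
      e * n < |hitw s Φ a b - ρ m Φ * ((b : ℝ) - a)| := ⟨_, rfl⟩
    have h3 := hR m Φ hΦ n hn P (fun s => by rw [hP])
    have hρ := h0 m Φ hΦ
    have h4 : ∀ s ∈ saw n, |hitw s Φ 0 n - ρ m Φ * n| ≤ e * n + if P s then 2 * (n : ℝ) else 0 := by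
      intro s _
      split_ifs with h5
      · have h6 := hitw_bd s hΦ
        have h7 : ρ m Φ * n ≤ 2 * n := mul_le_mul_of_nonneg_right hρ.2 hn0.le
        have h8 : 0 ≤ ρ m Φ * n := mul_nonneg hρ.1 hn0.le
        have h9 : 0 ≤ e * n := by positivity
        rw [abs_le]
        constructor <;> linarith [h6.1, h6.2]
      · rw [hP] at h5
        push Not at h5
        have := h5 0 n (Nat.zero_le _) le_rfl
        rw [Nat.cast_zero, sub_zero] at this
        linarith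
    have e1 : (∑ s ∈ saw n, hitw s Φ 0 n) / (n * (saw n).card) - ρ m Φ =
        (∑ s ∈ saw n, (hitw s Φ 0 n - ρ m Φ * n)) / (n * (saw n).card) := by
      rw [Finset.sum_sub_distrib, Finset.sum_const, nsmul_eq_mul, sub_div]
      congr 1
      field_simp
    rw [e1, abs_div, abs_of_pos hd, div_le_iff₀ hd]
    refine (Finset.abs_sum_le_sum_abs _ _).trans ((Finset.sum_le_sum h4).trans ?_)
    rw [Finset.sum_add_distrib, Finset.sum_const, nsmul_eq_mul, ← Finset.sum_filter, Finset.sum_const, nsmul_eq_mul]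
    have h5 := mul_le_mul_of_nonneg_right h3 (show (0 : ℝ) ≤ 2 * n by positivity)
    linarith
  by_contra hne
  have hpos : 0 < |ρ m Φ - qm Q Φ| := abs_pos.2 (sub_ne_zero.2 hne)
  obtain ⟨R, hR⟩ := key (|ρ m Φ - qm Q Φ| / 12) (by positivity)
  have h3 := (Metric.tendsto_atTop.1 (hitw_mean hQ Φ)) (|ρ m Φ - qm Q Φ| / 4) (by positivity)
  obtain ⟨N, hN⟩ := h3
  have h4 := hN (N + R * (m + 1) + 1) (by omega)
  have h5 := hR (N + R * (m + 1) + 1) (by omega) (by omega)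
  rw [Real.dist_eq] at h4
  rw [abs_le] at h5
  rw [abs_lt] at h4
  have h6 : |ρ m Φ - qm Q Φ| ≤ |ρ m Φ - qm Q Φ| / 2 := by
    rw [abs_le]
    constructor <;> linarith [h4.1, h4.2, h5.1, h5.2]
  linarith

/-! ### the polygons as closed words -/

private lemma sw_take {n : ℕ} (t : List Bool) : NTF.sw n t = NTF.sw n (t.take (n - 1)) := by
  funext i
  unfold NTF.sw
  congr 1
  have h := i.2
  rcases Nat.lt_or_ge t.length (n - 1) with h1 | h1
  · rw [List.take_of_length_le h1.le]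
  · have h2 : t = t.take (n - 1) ++ t.drop (n - 1) := (List.take_append_drop _ _).symm
    have h3 : (t.take (n - 1)).length = n - 1 := by
      rw [List.length_take]
      omega
    conv_lhs => rw [h2]
    exact HexObs.dx_append (by omega)

open Classical in
/-- the number of the polygons with a property -/
lemma pol_count {n : ℕ} (hn : 3 ≤ n) (ho : Odd n) (P : (Fin n → Fin 3) → Prop) (hP : ∀ s, P (NTSF.rot s) ↔ P s) :
    ((pol n).filter P).card = 3 * ((cyF (n + 1)).filter fun H => P (NTF.sw n H)).card := by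
  have hrot : ∀ s : Fin n → Fin 3, ‖pos (NTSF.rot s) n‖ = ‖pos s n‖ := fun s => NTSF.norm_rot' s n
  have h1 := NTSF.card_saw (n := n) (by omega) (fun s => ‖pos s n‖ = 1 ∧ P s) (fun s => by rw [hrot, hP])
  have e1 : (saw n).filter (fun s => ‖pos s n‖ = 1 ∧ P s) = (pol n).filter P := by
    unfold pol
    rw [Finset.filter_filter]
  rw [e1] at h1
  have e2 : {t | t ∈ HexObs.SawN n ∧ (‖pos (NTF.sw n t) n‖ = 1 ∧ P (NTF.sw n t))} =
      (((HexObs.TIW.sawF n).filter (fun t => ‖NTF.JJ (HexObs.vx HexObs.oo HexObs.up t n)‖ = 1)).filter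
        fun t => P (NTF.sw n t) : Finset (List Bool)) := by
    ext t
    rw [Set.mem_ofPred_eq, Finset.mem_coe, Finset.mem_filter, Finset.mem_filter, HexObs.TIW.mem_sawF,
      NTSF.pos_sw n t n le_rfl]
    tauto
  rw [e2, Set.ncard_coe_finset] at h1
  have h2 := sum_cy hn ho (fun t => if P (NTF.sw n t) then 1 else 0) (fun t => by
    simp only [← sw_take (n := n) t])
  rw [← Finset.sum_filter, ← Finset.sum_filter, Finset.sum_const, Finset.sum_const, nsmul_eq_mul, nsmul_eq_mul, mul_one,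
    mul_one] at h2
  have h3 : (((HexObs.TIW.sawF n).filter (fun t => ‖NTF.JJ (HexObs.vx HexObs.oo HexObs.up t n)‖ = 1)).filter
        fun t => P (NTF.sw n t)).card = 2 * ((cyF (n + 1)).filter fun H => P (NTF.sw n H)).card := by
    exact_mod_cast h2
  rw [h3] at h1
  omega

lemma hitw_bd' {n m : ℕ} (s : Fin n → Fin 3) {Φ : (Fin m → Bool) → ℝ} (hΦ : ∀ x, 0 ≤ Φ x ∧ Φ x ≤ 1) (y : ℕ) :
    0 ≤ hitw s Φ 0 y ∧ hitw s Φ 0 y ≤ y := by
  unfold hitw
  refine ⟨Finset.sum_nonneg fun i _ => ?_, (Finset.sum_le_card_nsmul _ _ 1 fun i _ => ?_).trans ?_⟩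
  · split_ifs
    · exact (hΦ _).1
    · exact le_rfl
  · split_ifs
    · exact (hΦ _).2
    · exact zero_le_one
  · rw [Nat.card_Ico, Nat.sub_zero, nsmul_eq_mul, mul_one]

/-- **the density at the start of the polygons** -/
theorem pol_den (hQ : QOk Q) : ∀ ε : ℝ, 0 < ε → ∃ η0 : ℝ, 0 < η0 ∧ η0 ≤ 1 / 2 ∧ ∀ e : ℝ, 0 < e → ∃ R : ℕ, ∀ n : ℕ,
    R ≤ n → Odd n → 0 < (pol n).card ∧ ∀ (m : ℕ) (Φ : (Fin m → Bool) → ℝ), (∀ x, 0 ≤ Φ x ∧ Φ x ≤ 1) → R * (m + 1) ≤ n →
      ∀ y : ℕ, (y : ℝ) ≤ η0 * n →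
        |(∑ s ∈ pol n, hitw s Φ 0 y) / ((pol n).card : ℝ) - qm Q Φ * y| ≤ ε * y + e * n := by
  classical
  intro ε hε
  obtain ⟨C, N0, hC, hN0, hbad⟩ := bad_count
  obtain ⟨ρ, hρ, hwalk, hpol⟩ := HexObs.PMA.denV Pool.Agent.TSW.exR HexObs.ARM.t1
  have hρQ := fun m Φ hΦ => rho_qm hQ hρ hwalk m Φ hΦ
  obtain ⟨η1, hη1, hd⟩ := hpol (ε / (3 * C)) (by positivity)
  refine ⟨min η1 (1 / 2), lt_min hη1 (by norm_num), min_le_right _ _, fun e he => ?_⟩
  obtain ⟨R0, hR0⟩ := hd (e / 2) (by positivity)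
  obtain ⟨R1, hR1⟩ := exists_nat_ge (2 / e)
  refine ⟨R0 + R1 + N0 + 3, fun n hn ho => ?_⟩
  have hn3 : 3 ≤ n := by omega
  have hnp : (0 : ℝ) < n := by
    have : 0 < n := by omega
    exact_mod_cast this
  have hev : Even (n + 1) := ho.add_one
  obtain ⟨hcard, hbad⟩ := hbad (n + 1) (by omega) hev
  have hpc : (pol n).card = 3 * (cyF (n + 1)).card := by
    have h := pol_count hn3 ho (fun _ => True) (fun _ => Iff.rfl)
    simpa using h
  refine ⟨by omega, fun m Φ hΦ hm y hy => ?_⟩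
  have hm0 : R0 * (m + 1) ≤ n := (Nat.mul_le_mul_right _ (by omega)).trans hm
  have hm1 : R1 * (m + 1) ≤ n := (Nat.mul_le_mul_right _ (by omega)).trans hm
  have hme : (m : ℝ) ≤ e / 2 * n := by
    have k1 : ((R1 * (m + 1) : ℕ) : ℝ) ≤ n := by exact_mod_cast hm1
    push_cast at k1
    have hm' : (0 : ℝ) ≤ m := Nat.cast_nonneg m
    have k2 : 2 / e * ((m : ℝ) + 1) ≤ R1 * (m + 1) := mul_le_mul_of_nonneg_right hR1 (by positivity)
    have k3 := mul_le_mul_of_nonneg_left (k2.trans k1) (show 0 ≤ e / 2 by positivity)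
    have k4 : e / 2 * (2 / e * ((m : ℝ) + 1)) = m + 1 := by field_simp
    linarith
  have hy1 : (y : ℝ) ≤ η1 * n := hy.trans (mul_le_mul_of_nonneg_right (min_le_left _ _) hnp.le)
  have hy2 : (y : ℝ) ≤ 1 / 2 * n := hy.trans (mul_le_mul_of_nonneg_right (min_le_right _ _) hnp.le)
  have hyn : y ≤ n := by
    have : (y : ℝ) ≤ n := by linarith
    exact_mod_cast this
  have hρ2 := hρ m Φ hΦ
  rw [← hρQ m Φ hΦ]
  obtain ⟨r, hr⟩ : ∃ r : ℝ, r = ρ m Φ := ⟨_, rfl⟩
  rw [← hr] at hρ2 ⊢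
  -- the exceptional polygons
  obtain ⟨S, hS⟩ : ∃ S : Set (List Bool), S = {L | L ∈ HexObs.ARM.C0 n ∧ ∃ x y : ℕ, x ≤ y ∧ (y : ℝ) ≤ η1 * n ∧
    e / 2 * n < |VW Φ (HexObs.NPR.wd L x y) - r * ((y : ℝ) - x)|} := ⟨_, rfl⟩
  have g2 : HexObs.gf S ≤ ENNReal.ofReal (ε / (3 * C) * (n : ℝ) ^ (-(3 / 2) : ℝ)) := by
    rw [hS, hr]
    exact hR0 m Φ hΦ n hm0
  have c2 := hbad S (ε / (3 * C)) (by positivity) (by rwa [Nat.add_sub_cancel])
  obtain ⟨P, hP⟩ : ∃ P : (Fin n → Fin 3) → Prop, P = fun s => e * n < |hitw s Φ 0 y - r * y| := ⟨_, rfl⟩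
  have hrot : ∀ s, P (NTSF.rot s) ↔ P s := fun s => by
    rw [hP]
    simp only [hitw_rot]
  have hcnt := pol_count hn3 ho P hrot
  have hsub : ((cyF (n + 1)).filter fun H => P (NTF.sw n H)) ⊆ (cyF (n + 1)).filter fun K => K.dropLast ∈ S := by
    intro H hH
    rw [Finset.mem_filter] at hH ⊢
    refine ⟨hH.1, ?_⟩
    have hK' := mem_cyF.1 hH.1
    have hl : H.length = n + 1 := hK'.1
    have hdl : H.dropLast.length = n := by
      rw [List.length_dropLast, hl, Nat.add_sub_cancel]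
    have hne : H ≠ [] := by
      rintro rfl
      simp at hl
    have hC0 : H.dropLast ∈ HexObs.ARM.C0 n := by
      refine ⟨H.getLast hne, ?_⟩
      rw [List.dropLast_append_getLast hne]
      exact hK'
    have hsw : NTF.sw n H = NTF.sw n H.dropLast := by
      rw [sw_take H, sw_take H.dropLast, List.dropLast_eq_take, List.take_take, hl]
      congr 2
      omega
    have h1 := hH.2
    rw [hP, hsw] at h1
    have h2 := hitw_VW hΦ hdl (Nat.zero_le y) hyn
    rw [hS]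
    refine ⟨hC0, 0, y, Nat.zero_le _, hy1, ?_⟩
    rw [Nat.cast_zero, sub_zero]
    have h3 : e * n < |hitw (NTF.sw n H.dropLast) Φ 0 y - r * y| := h1
    rw [abs_le] at h2
    rw [lt_abs] at h3 ⊢
    rcases h3 with h3 | h3
    · left
      linarith [h2.2]
    · right
      linarith [h2.1]
  have hbd : (((pol n).filter P).card : ℝ) ≤ ε / 3 * (pol n).card := by
    have h1 : (((pol n).filter P).card : ℝ) = 3 * ((cyF (n + 1)).filter fun H => P (NTF.sw n H)).card := by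
      exact_mod_cast hcnt
    have h2 : (((cyF (n + 1)).filter fun H => P (NTF.sw n H)).card : ℝ) ≤
        ((cyF (n + 1)).filter fun K => K.dropLast ∈ S).card := by
      exact_mod_cast Finset.card_le_card hsub
    have h3 : ((pol n).card : ℝ) = 3 * (cyF (n + 1)).card := by exact_mod_cast hpc
    rw [h1, h3]
    have h4 : C * (ε / (3 * C)) * ((cyF (n + 1)).card : ℝ) = ε / 3 * (cyF (n + 1)).card := by
      field_simp
    linarith
  have hpp : (0 : ℝ) < (pol n).card := by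
    have : 0 < (pol n).card := by omega
    exact_mod_cast this
  have hy0 : (0 : ℝ) ≤ y := Nat.cast_nonneg y
  have key : ∀ s ∈ pol n, |hitw s Φ 0 y - r * y| ≤ e * n + if P s then 3 * (y : ℝ) else 0 := by
    intro s _
    split_ifs with h5
    · have h6 := hitw_bd' s hΦ y
      have h7 : r * y ≤ 2 * y := mul_le_mul_of_nonneg_right hρ2.2 hy0
      have h8 : 0 ≤ r * y := mul_nonneg hρ2.1 hy0
      have h9 : 0 ≤ e * n := by positivity
      rw [abs_le]
      constructor <;> linarith [h6.1, h6.2]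
    · rw [hP] at h5
      rw [add_zero]
      exact not_lt.1 h5
  have e1 : (∑ s ∈ pol n, hitw s Φ 0 y) / ((pol n).card : ℝ) - r * y = (∑ s ∈ pol n, (hitw s Φ 0 y - r * y)) / (pol n).card := by
    rw [Finset.sum_sub_distrib, Finset.sum_const, nsmul_eq_mul, sub_div, mul_div_cancel_left₀ _ hpp.ne']
  rw [e1, abs_div, abs_of_pos hpp, div_le_iff₀ hpp]
  refine (Finset.abs_sum_le_sum_abs _ _).trans ((Finset.sum_le_sum key).trans ?_)
  rw [Finset.sum_add_distrib, Finset.sum_const, nsmul_eq_mul, ← Finset.sum_filter, Finset.sum_const, nsmul_eq_mul]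
  have h5 := mul_le_mul_of_nonneg_right hbd (show (0 : ℝ) ≤ 3 * y by positivity)
  linarith

end Pool.Agent.ROT
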