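import Pool.Agent.ROT.F3N1
import Pool.Agent.ROT.F3Dic
import Pool.Agent.ROT.F3Tb
import Pool.Agent.ROT.F3Inst
import Pool.Agent.ROT.F3Brd
import Pool.Agent.ROT.TwoA
import Pool.Agent.ROT.FFast
import Pool.Agent.ROT.PNtS

/-!
# ROT, F3, row F10 (N1) (helper87): native gates at the root, in the frame of the lists of letters

* `ArmW`, `REvW`: the two arms of a closed word `w : W3`;
* **`n1W`**: the mass of these closed words in a window of lengths, all directions `ax i`, `ax j`, `i ≠ j`;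
* **`n1C`**: in every window of lengths there is an odd `N` such that the share of these words in `Cln (N + 1)` is at least `c`.
-/

set_option autoImplicit false

namespace Pool.Agent.ROT.F3.N1W

open Finset
open HexObs (Pt vx dx oo up dirs ip nrm cl rotL rotR turn wE gf xc)
open NTF (sw JJ aa Ed)
open Pool.Agent.TSW.BP (rt3 cr pos_rt3 cr_norm)
open Pool.Agent.NTS.Res (step pos saw fug)
open Pool.Agent.PMA.Res (pol)
open Pool.Agent.PMA (cyF mem_cyF)

open scoped ENNReal Classical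

/-! ### 1. The event -/

/-- **an arm in the direction e** with the vertices p 0 = 0, .., p s: near the ray, with a level cut in every window of levels
up to the distance 2 K d -/
structure ArmW (K d : ℝ) (e : ℂ) (p : ℕ → ℂ) (s : ℕ) : Prop where
  near : ∀ i, i ≤ s → ∃ τ : ℝ, 0 ≤ τ ∧ ‖p i - τ * e‖ ≤ 8 * d
  cut : ∀ y : ℝ, 4 * d ≤ y → y ≤ 2 * (K * d) → ∃ c, c < s ∧ y ≤ lv e (p c) ∧ lv e (p c) ≤ y + 5 * d ∧
    p (c + 1) = p c + e ∧ (∀ i, i ≤ c → lv e (p i) ≤ lv e (p c)) ∧ ∀ i, c < i → i ≤ s → lv e (p c) < lv e (p i)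

/-- **two straight arms with at most x letters at the root**, nothing else in the ball of radius K d -/
def REvW (K d : ℝ) (e f : ℂ) (x : ℝ) (w : W3) : Prop := ∃ s t : ℕ, (s : ℝ) ≤ x ∧ (t : ℝ) ≤ x ∧ s + t ≤ w.length ∧
  ArmW K d e (ps w) s ∧ ArmW K d f (fun i => ps w (w.length - i)) t ∧
  ∀ i, s < i → i + t < w.length → K * d ≤ ‖ps w i‖

/-! ### 2. The plane -/

/-- the level in the plane -/
lemma lv_JJ {c : ℂ} (hc : ‖c‖ = 1) (e v : Pt) : lv (c * JJ e) (c * JJ v) = (ip v e : ℝ) / 2 := by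
  have h1 : (starRingEnd ℂ) (c * JJ e) * (c * JJ v) = (starRingEnd ℂ) (JJ e) * JJ v := by
    have h2 : (starRingEnd ℂ) c * c = 1 := by
      rw [mul_comm, Complex.mul_conj, Complex.normSq_eq_norm_sq, hc]
      norm_num
    rw [map_mul]
    linear_combination ((starRingEnd ℂ) (JJ e) * JJ v) * h2
  unfold lv
  rw [h1, Complex.mul_re, Complex.conj_re, Complex.conj_im, NTF.JJ_re, NTF.JJ_re, NTF.JJ_im, NTF.JJ_im]
  have h3 : Real.sqrt 3 * Real.sqrt 3 = 3 := Real.mul_self_sqrt (by norm_num)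
  unfold HexObs.ip
  push_cast
  linear_combination ((e.1 : ℝ) * v.1 / 4) * h3

lemma lv_le_norm {c z : ℂ} (hc : ‖c‖ = 1) : lv c z ≤ ‖z‖ := by
  unfold lv
  refine (Complex.re_le_norm _).trans ?_
  rw [norm_mul, RCLike.norm_conj, hc, one_mul]

/-- the two norms -/
lemma hn_le_JJ (v : Pt) : (HexObs.TIW.hn v : ℝ) ≤ 2 * ‖JJ v‖ := by
  obtain ⟨d, hd, he⟩ := HexObs.AR.exists_hn v
  have h1 := lv_JJ (c := 1) norm_one d v
  rw [one_mul, one_mul] at h1
  have h2 := lv_le_norm (z := JJ v) (Tb.norm_JJ_dir hd)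
  rw [h1] at h2
  rw [← he]
  linarith

/-- the arm in the plane -/
lemma arm_W {K K' : ℕ} {D : ℤ} {d : ℝ} {e : Pt} {v : ℕ → Pt} {s : ℕ} {c : ℂ} (hc : ‖c‖ = 1)
    (h : HexObs.ART.N1.Arm K' D e v s) (hK : K' = 4 * (K + 1)) (hD : (D : ℝ) ≤ d) (hD' : d ≤ D + 1) (hD4 : 4 ≤ D)
    {p : ℕ → ℂ} (hp : ∀ i, i ≤ s → p i = c * JJ (v i)) : ArmW K d (c * JJ e) p s := by
  have hD4' : (4 : ℝ) ≤ D := by exact_mod_cast hD4
  constructor
  · intro i hi
    obtain ⟨τ, h1, h2⟩ := h.near i hi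
    refine ⟨τ, by exact_mod_cast h1, ?_⟩
    have e1 : p i - (τ : ℝ) * (c * JJ e) = c * JJ (v i - τ • e) := by
      rw [hp i hi, NTF.JJ_sub, Tb.JJ_smul]
      push_cast
      ring
    rw [e1, norm_mul, hc, one_mul]
    refine (Tb.norm_JJ_le _).trans ?_
    have h3 : (HexObs.TIW.hn (v i - τ • e) : ℝ) ≤ 8 * D := by exact_mod_cast h2
    linarith
  · intro y hy1 hy2
    obtain ⟨Y, hY⟩ : ∃ Y : ℤ, Y = ⌈2 * y⌉ := ⟨_, rfl⟩
    have hY1 : 2 * y ≤ Y := by
      rw [hY]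
      exact Int.le_ceil _
    have hY2 : (Y : ℝ) < 2 * y + 1 := by
      rw [hY]
      exact Int.ceil_lt_add_one _
    have a1 : 8 * D ≤ Y := by
      have : (8 : ℝ) * D ≤ Y := by linarith
      exact_mod_cast this
    have a2 : Y ≤ 2 * (K' * D) := by
      have hK0 : (0 : ℝ) ≤ K := Nat.cast_nonneg _
      have h3 : (Y : ℝ) ≤ 2 * ((4 * (K + 1)) * D) := by
        have h4 : (K : ℝ) * d ≤ K * (D + 1) := mul_le_mul_of_nonneg_left hD' hK0
        nlinarith
      rw [hK]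
      push_cast
      exact_mod_cast h3
    obtain ⟨q, c1, c2, c3, c4, c5, c6⟩ := h.cut Y a1 a2
    have hlv : ∀ i, i ≤ s → lv (c * JJ e) (p i) = (ip (v i) e : ℝ) / 2 := by
      intro i hi
      rw [hp i hi, lv_JJ hc]
    have c2' : (Y : ℝ) ≤ ip (v q) e := by exact_mod_cast c2
    have c3' : (ip (v q) e : ℝ) ≤ Y + 8 * D := by exact_mod_cast c3
    refine ⟨q, c1, ?_, ?_, ?_, fun i hi => ?_, fun i hi hi' => ?_⟩
    · rw [hlv q c1.le]
      linarith
    · rw [hlv q c1.le]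
      linarith
    · rw [hp q c1.le, hp (q + 1) c1, c4, NTF.JJ_add, mul_add]
    · rw [hlv q c1.le, hlv i (by omega)]
      have : (ip (v i) e : ℝ) ≤ ip (v q) e := by exact_mod_cast c5 i hi
      linarith
    · rw [hlv q c1.le, hlv i hi']
      have : (ip (v q) e : ℝ) < ip (v i) e := by exact_mod_cast c6 i hi hi'
      linarith

/-! ### 3. Closed words -/

/-- the closed word of a word with turns -/
noncomputable def cw (N : ℕ) (a : Fin 3) (t : List Bool) : W3 := clw (rt3 a (sw N t))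

section cw

variable {N : ℕ} {t : List Bool}

lemma cy_pol (ht : t ∈ HexObs.POL.Cy (N + 1)) (a : Fin 3) : rt3 a (sw N t) ∈ pol N := by
  obtain ⟨h1, h2, h3, h4⟩ := ht
  have hpos : ∀ k, k ≤ N → pos (rt3 a (sw N t)) k = cr a * JJ (vx oo up t k) := by
    intro k hk
    rw [pos_rt3, NTSF.pos_sw N t k hk]
  refine Pool.Agent.PMA.LimR.mem_pol.2 ⟨NTSF.mem_saw.2 fun j k hj hk he => ?_, ?_⟩
  · rw [hpos j hj, hpos k hk] at he
    exact h4 j k (by omega) (by omega) (NTF.JJ_inj (mul_left_cancel₀ (Tb.cr_ne a) he))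
  · rw [hpos N le_rfl, norm_mul, cr_norm, one_mul]
    have e1 : vx oo up t N = -dx up t N := by
      have h5 : vx oo up t (N + 1) = vx oo up t N + dx up t N := HexObs.vx_succ _ _ _ _
      rw [h2] at h5
      exact eq_neg_of_add_eq_zero_left h5.symm
    rw [e1, NTF.JJ_neg, norm_neg]
    exact Tb.norm_JJ_dir (HexObs.dx_mem HexObs.TIW.upd' t N)

lemma cw_mem (ho : Odd N) (ht : t ∈ HexObs.POL.Cy (N + 1)) (a : Fin 3) : cw N a t ∈ Cln (N + 1) := clw_mem ho (cy_pol ht a)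

lemma ps_cw (ho : Odd N) (ht : t ∈ HexObs.POL.Cy (N + 1)) (a : Fin 3) {k : ℕ} (hk : k ≤ N + 1) :
    ps (cw N a t) k = cr a * JJ (vx oo up t k) := by
  rcases Nat.lt_or_ge N k with h | h
  · have hk' : k = N + 1 := by omega
    have h1 := cw_mem ho ht a
    have h2 := h1.1.2.1
    rw [en, h1.2] at h2
    rw [hk', h2, ht.2.1]
    have : JJ oo = 0 := Tb.JJ_zero
    rw [this, mul_zero]
  · unfold cw
    rw [ps_clw _ h, pos_rt3, NTSF.pos_sw N t k h]

lemma cw_inj (hN : 1 ≤ N) {t' : List Bool} {a a' : Fin 3} (ht : t ∈ HexObs.POL.Cy (N + 1))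
    (ht' : t' ∈ HexObs.POL.Cy (N + 1)) (he : cw N a t = cw N a' t') : t = t' := by
  have h1 : rt3 a (sw N t) = rt3 a' (sw N t') := clw_inj he
  have h2 : ∀ i : Fin N, sw N t i + a = sw N t' i + a' := fun i => congrFun h1 i
  have h0 := h2 ⟨0, hN⟩
  have e0 : ∀ u : List Bool, sw N u ⟨0, hN⟩ = aa up := fun _ => rfl
  rw [e0, e0] at h0
  have haa : a = a' := add_left_cancel h0
  obtain ⟨a1, a2, a3, a4⟩ := ht
  obtain ⟨b1, b2, b3, b4⟩ := ht'
  have hdx : ∀ i, i < N → dx up t i = dx up t' i := by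
    intro i hi
    have h3 := h2 ⟨i, hi⟩
    rw [haa] at h3
    have h6 : aa (dx up t i) = aa (dx up t' i) := add_right_cancel h3
    have c1 := NTF.de_aa _ (HexObs.dx_mem HexObs.TIW.upd' t i)
    have c2 := NTF.de_aa _ (HexObs.dx_mem HexObs.TIW.upd' t' i)
    have d1 := HexObs.cl_dx up t i
    have d2 := HexObs.cl_dx up t' i
    split_ifs at d1 d2
    · rw [← c1.1 d1, ← c2.1 d2, h6]
    · rw [← c1.2 d1, ← c2.2 d2, h6]
  have hvx : ∀ i, i ≤ N → vx oo up t i = vx oo up t' i := by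
    intro i
    induction i with
    | zero => intro _; rfl
    | succ i ih =>
      intro hi
      rw [HexObs.vx_succ, HexObs.vx_succ, ih (by omega), hdx i (by omega)]
  have hN1 : dx up t N = dx up t' N := by
    have h5 : vx oo up t (N + 1) = vx oo up t N + dx up t N := HexObs.vx_succ _ _ _ _
    have h6 : vx oo up t' (N + 1) = vx oo up t' N + dx up t' N := HexObs.vx_succ _ _ _ _
    have h7 : vx oo up t N + dx up t N = vx oo up t' N + dx up t' N := h5.symm.trans ((a2.trans b2.symm).trans h6)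
    rw [hvx N le_rfl] at h7
    exact add_left_cancel h7
  have hall : ∀ i, i ≤ N + 1 → dx up t i = dx up t' i := by
    intro i hi
    rcases Nat.lt_or_ge i N with h | h
    · exact hdx i h
    · rcases Nat.eq_or_lt_of_le h with h | h
      · rw [← h, hN1]
      · rw [show i = N + 1 by omega, a3, b3]
  have hturn : ∀ d ∈ dirs, ∀ b b' : Bool, turn b d = turn b' d → b = b' := by decide
  apply List.ext_getElem (by rw [a1, b1])
  intro i h5 h6
  have c1 := hall (i + 1) (by omega)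
  rw [HexObs.dx_succ, HexObs.dx_succ, hall i (by omega)] at c1
  have c2 := hturn _ (HexObs.dx_mem HexObs.TIW.upd' t' i) _ _ c1
  have d1 : HexObs.tf t i = t[i] := by
    unfold HexObs.tf
    rw [List.getD_eq_getElem _ _ h5]
  have d2 : HexObs.tf t' i = t'[i] := by
    unfold HexObs.tf
    rw [List.getD_eq_getElem _ _ h6]
  rw [← d1, ← d2, c2]

/-- the difference of the two directions -/
def dl (σ : Bool) : Fin 3 := aa (-turn σ up)

lemma turn_Ed : ∀ σ : Bool, ∀ b : Fin 3, -turn σ (Ed b) = Ed (b + dl σ) := by decide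

lemma exists_dl {i j : Fin 3} (h : i ≠ j) : ∃ σ : Bool, j = i + dl σ := by
  revert h
  revert i j
  decide

lemma even_dir {e : Pt} (h : e = up ∨ e = rotL (rotL up) ∨ e = rotR (rotR up)) : ∃ b : Fin 3, e = Ed b := by
  rcases h with rfl | rfl | rfl <;> decide

lemma cr_Ed (a b : Fin 3) : cr a * JJ (Ed b) = ax (b + a) := by
  have h1 : JJ (Ed b) = step 0 b := by
    have := NTF.JJ_de 0 b
    rwa [show NTF.de 0 b = Ed b from if_pos (by decide)] at this
  rw [h1]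
  unfold cr ax
  have key : ∀ c : Fin 3, step 0 (c + 1) = NTSF.om * step 0 c := fun c => NTSF.step_rot 0 c
  fin_cases a
  · show NTSF.om ^ 0 * step 0 b = step 0 (b + 0)
    rw [pow_zero, one_mul, add_zero]
  · show NTSF.om ^ 1 * step 0 b = step 0 (b + 1)
    rw [pow_one, key]
  · show NTSF.om ^ 2 * step 0 b = step 0 (b + 2)
    rw [show b + 2 = b + 1 + 1 by rw [add_assoc]; rfl, key, key, pow_two, mul_assoc]

/-- **the event in the frame of the lists of letters** -/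
theorem revL_W {K : ℕ} {D : ℤ} {d x : ℝ} {σ : Bool} {e : Pt} {i : Fin 3} (ho : Odd N)
    (ht : t ∈ HexObs.POL.Cy (N + 1)) (he : e = up ∨ e = rotL (rotL up) ∨ e = rotR (rotR up))
    (h : HexObs.ART.N1.REvL (4 * (K + 1)) D e (-(turn σ e)) x t) (hD : (D : ℝ) ≤ d) (hD' : d ≤ D + 1) (hD4 : 4 ≤ D) :
    ∃ a : Fin 3, REvW K d (ax i) (ax (i + dl σ)) x (cw N a t) := by
  obtain ⟨b, rfl⟩ := even_dir he
  refine ⟨i - b, ?_⟩
  obtain ⟨s, t', h1, h2, h3, h4, h5, h6⟩ := h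
  have hlt : t.length = N + 1 := ht.1
  have hlw : (cw N (i - b) t).length = N + 1 := (cw_mem ho ht (i - b)).2
  rw [hlt] at h3 h6
  have e1 : cr (i - b) * JJ (Ed b) = ax i := by
    rw [cr_Ed]
    congr 1
    abel
  have e2 : cr (i - b) * JJ (-(turn σ (Ed b))) = ax (i + dl σ) := by
    rw [turn_Ed, cr_Ed]
    congr 1
    abel
  refine ⟨s, t', h1, h2, by rw [hlw]; exact h3, ?_, ?_, fun k hk hk' => ?_⟩
  · rw [← e1]
    exact arm_W (cr_norm _) h4 rfl hD hD' hD4 fun k hk => ps_cw ho ht _ (by omega)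
  · rw [← e2]
    refine arm_W (cr_norm _) h5 rfl hD hD' hD4 fun k hk => ?_
    show ps (cw N (i - b) t) ((cw N (i - b) t).length - k) = cr (i - b) * JJ (vx oo up t (t.length - k))
    rw [hlw, hlt, ps_cw ho ht _ (by omega)]
  · rw [hlw] at hk'
    have h7 := h6 k hk hk'
    rw [ps_cw ho ht _ (by omega), norm_mul, cr_norm, one_mul]
    have h8 := hn_le_JJ (vx oo up t k)
    have h9 : (((4 * (K + 1) : ℕ) : ℤ) * D : ℝ) ≤ HexObs.TIW.hn (vx oo up t k) := by exact_mod_cast h7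
    push_cast at h9
    have hD4' : (4 : ℝ) ≤ D := by exact_mod_cast hD4
    have hK0 : (0 : ℝ) ≤ K := Nat.cast_nonneg _
    have h10 : (K : ℝ) * d ≤ K * (D + 1) := mul_le_mul_of_nonneg_left hD' hK0
    nlinarith

end cw

/-! ### 4. The mass -/

lemma REvW.mono {K d : ℝ} {e f : ℂ} {x y : ℝ} {w : W3} (h : REvW K d e f x w) (hxy : x ≤ y) : REvW K d e f y w := by
  obtain ⟨s, t, h1, h2, h3⟩ := h
  exact ⟨s, t, h1.trans hxy, h2.trans hxy, h3⟩

/-- the closed words with m letters and the event -/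
def RW (K d x : ℝ) (i j : Fin 3) (m : ℕ) : Set W3 := {w | w ∈ Cln m ∧ REvW K d (ax i) (ax j) x w}

lemma RW_fin (K d x : ℝ) (i j : Fin 3) (m : ℕ) : (RW K d x i j m).Finite := (Cln_finite m).subset fun _ h => h.1

/-- the words with turns and the event -/
def PW (K' : ℕ) (D : ℤ) (σ : Bool) (x : ℝ) (t : List Bool) : Prop :=
  ∃ e, (e = up ∨ e = rotL (rotL up) ∨ e = rotR (rotR up)) ∧ HexObs.ART.N1.REvL K' D e (-(turn σ e)) x t

lemma card_le {K : ℕ} {D : ℤ} {d x : ℝ} {σ : Bool} (i : Fin 3) {N : ℕ} (ho : Odd N) (hD : (D : ℝ) ≤ d)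
    (hD' : d ≤ D + 1) (hD4 : 4 ≤ D) :
    ((cyF (N + 1)).filter (PW (4 * (K + 1)) D σ x)).card ≤ (RW K d x i (i + dl σ) (N + 1)).ncard := by
  have key : ∀ t, ∃ a : Fin 3, t ∈ HexObs.POL.Cy (N + 1) → PW (4 * (K + 1)) D σ x t →
      REvW K d (ax i) (ax (i + dl σ)) x (cw N a t) := by
    intro t
    by_cases h1 : t ∈ HexObs.POL.Cy (N + 1)
    · by_cases h2 : PW (4 * (K + 1)) D σ x t
      · obtain ⟨e, he, hr⟩ := h2
        obtain ⟨a, ha⟩ := revL_W (K := K) (i := i) ho h1 he hr hD hD' hD4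
        exact ⟨a, fun _ _ => ha⟩
      · exact ⟨0, fun _ h => absurd h h2⟩
    · exact ⟨0, fun h => absurd h h1⟩
  choose a ha using key
  rw [← Set.ncard_coe_finset]
  refine Set.ncard_le_ncard_of_injOn (fun t => cw N (a t) t) ?_ ?_ (RW_fin _ _ _ _ _ _)
  · intro t ht
    rw [mem_coe, mem_filter, mem_cyF] at ht
    exact ⟨cw_mem ho ht.1 _, ha t ht.1 ht.2⟩
  · intro t ht t' ht' he
    rw [mem_coe, mem_filter, mem_cyF] at ht ht'
    exact cw_inj ho.pos ht.1 ht'.1 he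

/-- one length -/
lemma gf_PW_le {K : ℕ} {D : ℤ} {d x : ℝ} {σ : Bool} (i : Fin 3) {m : ℕ} (hm : 1 ≤ m) (hD : (D : ℝ) ≤ d)
    (hD' : d ≤ D + 1) (hD4 : 4 ≤ D) :
    HexObs.gf {L | L ∈ HexObs.POL.Cy m ∧ PW (4 * (K + 1)) D σ x L} ≤
      ENNReal.ofReal (((RW K d x i (i + dl σ) m).ncard : ℝ) * fug ^ m) := by
  have hx := HexObs.xc_pos
  by_cases ho : Even m
  · obtain ⟨N, rfl⟩ : ∃ N, m = N + 1 := ⟨m - 1, by omega⟩
    have hN : Odd N := by
      rcases Nat.even_or_odd N with h | h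
      · exact absurd ho (Nat.not_even_iff_odd.2 h.add_one)
      · exact h
    rw [Pool.Agent.PMA.gf_filter, NTSF.fug_eq]
    refine ENNReal.ofReal_le_ofReal (mul_le_mul_of_nonneg_right ?_ (by positivity))
    exact_mod_cast card_le i hN hD hD' hD4
  · have h1 : {L | L ∈ HexObs.POL.Cy m ∧ PW (4 * (K + 1)) D σ x L} = ∅ := by
      ext L
      simp only [Set.mem_ofPred_eq, Set.mem_empty_iff_false, iff_false]
      rintro ⟨h, -⟩
      exact ho (N.cy_even h)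
    rw [h1]
    have h2 : HexObs.gf (∅ : Set (List Bool)) = 0 := by
      unfold HexObs.gf
      exact tsum_empty
    rw [h2]
    exact zero_le

/-- **N1 in the frame of the lists of letters** -/
theorem n1W (K : ℕ) {i j : Fin 3} (hij : i ≠ j) : ∃ c A b d0 : ℝ, 0 < c ∧ 0 < A ∧ 0 < b ∧ 0 < d0 ∧
    ∀ (d : ℝ) (n : ℕ), d0 ≤ d → b * d ^ (4 / 3 : ℝ) ≤ n →
      c * (n : ℝ) ^ (-(1 / 2) : ℝ) ≤
        ∑ m ∈ Icc n (2 * n), ((RW K d (A * d ^ (4 / 3 : ℝ)) i j m).ncard : ℝ) * fug ^ m := by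
  obtain ⟨σ, rfl⟩ := exists_dl hij
  obtain ⟨c, A, b, d0, hc, hA, hd0, h⟩ := HexObs.ART.N1.n1L (4 * (K + 1)) σ
  have hf : (0 : ℝ) < fug := by
    rw [NTSF.fug_eq]
    exact HexObs.xc_pos
  refine ⟨c, A, b + 1, d0 + 5, hc, hA, by positivity, by
    have : (0 : ℝ) < d0 := by exact_mod_cast hd0
    linarith, fun d n hd hn => ?_⟩
  have hd0' : (1 : ℝ) ≤ d0 := by exact_mod_cast (by omega : (1 : ℤ) ≤ d0)
  obtain ⟨D, hD⟩ : ∃ D : ℤ, D = ⌊d⌋ := ⟨_, rfl⟩
  have hD1 : (D : ℝ) ≤ d := by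
    rw [hD]
    exact Int.floor_le _
  have hD2 : d < D + 1 := by
    rw [hD]
    exact Int.lt_floor_add_one _
  have hDd : d0 ≤ D := by
    have : (d0 : ℝ) < D + 1 := by linarith
    have : d0 < D + 1 := by exact_mod_cast this
    omega
  have hD4 : 4 ≤ D := by
    have : (4 : ℝ) < D + 1 := by linarith
    have : (4 : ℤ) < D + 1 := by exact_mod_cast this
    omega
  have hD0 : (0 : ℝ) ≤ D := by
    have : (0 : ℤ) ≤ D := by omega
    exact_mod_cast this
  have hpow : (D : ℝ) ^ (4 / 3 : ℝ) ≤ d ^ (4 / 3 : ℝ) := Real.rpow_le_rpow hD0 hD1 (by norm_num)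
  have hd1 : (1 : ℝ) ≤ d ^ (4 / 3 : ℝ) := Real.one_le_rpow (by linarith) (by norm_num)
  have hn1 : 1 ≤ n := by
    have h1 : (0 : ℝ) < n := by
      refine lt_of_lt_of_le ?_ hn
      positivity
    exact_mod_cast h1
  have h1 := h D n hDd (by
    have h2 : (b : ℝ) * (D : ℝ) ^ (4 / 3 : ℝ) ≤ b * d ^ (4 / 3 : ℝ) := mul_le_mul_of_nonneg_left hpow (Nat.cast_nonneg _)
    nlinarith)
  have h2 : HexObs.ART.N1.AA (4 * (K + 1)) σ D (A * (D : ℝ) ^ (4 / 3 : ℝ)) n (2 * n) ⊆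
      ⋃ m ∈ Icc n (2 * n), {L | L ∈ HexObs.POL.Cy m ∧ PW (4 * (K + 1)) D σ (A * d ^ (4 / 3 : ℝ)) L} := by
    rintro L ⟨a1, a2, a3, e, a4, a5⟩
    rw [Set.mem_iUnion₂]
    exact ⟨L.length, mem_Icc.2 ⟨a1, a2⟩, a3, e, a4, a5.mono (mul_le_mul_of_nonneg_left hpow hA.le)⟩
  have hdis : ∀ m ∈ Icc n (2 * n), ∀ m' ∈ Icc n (2 * n), m ≠ m' →
      Disjoint {L | L ∈ HexObs.POL.Cy m ∧ PW (4 * (K + 1)) D σ (A * d ^ (4 / 3 : ℝ)) L}
        {L | L ∈ HexObs.POL.Cy m' ∧ PW (4 * (K + 1)) D σ (A * d ^ (4 / 3 : ℝ)) L} := by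
    intro m _ m' _ hne
    rw [Set.disjoint_left]
    rintro L ⟨a1, -⟩ ⟨b1, -⟩
    exact hne (a1.1.symm.trans b1.1)
  have h3 := h1.trans (HexObs.gf_mono h2)
  rw [HexObs.gf_biUnion _ _ hdis] at h3
  have h4 := h3.trans (sum_le_sum fun m hm => gf_PW_le (K := K) (d := d) i (hn1.trans (mem_Icc.1 hm).1) hD1 hD2.le hD4)
  rw [← ENNReal.ofReal_sum_of_nonneg (fun m _ => by positivity)] at h4
  refine (ENNReal.ofReal_le_ofReal_iff ?_).1 h4
  exact sum_nonneg fun m _ => by positivity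

/-- the number of closed words -/
lemma cln_card {m : ℕ} (hm : 4 ≤ m) (he : Even m) : (Cln m).ncard = 3 * (cyF m).card := by
  obtain ⟨N, rfl⟩ : ∃ N, m = N + 1 := ⟨m - 1, by omega⟩
  have hN : Odd N := by
    rcases Nat.even_or_odd N with h | h
    · exact absurd he (Nat.not_even_iff_odd.2 h.add_one)
    · exact h
  rw [Cln_eq hN, Set.ncard_coe_finset, Finset.card_map]
  have h1 := F.pol_card (n := N) (by omega) hN
  exact_mod_cast h1

/-- the upper bound -/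
lemma cln_up : ∃ C : ℝ, 0 < C ∧ ∀ m : ℕ, 4 ≤ m → ((Cln m).ncard : ℝ) * fug ^ m ≤ C * (m : ℝ) ^ (-(3 / 2) : ℝ) := by
  obtain ⟨C, hC, h⟩ := HexObs.POL.P1
  refine ⟨3 * C, by positivity, fun m hm => ?_⟩
  have hx := HexObs.xc_pos
  by_cases he : Even m
  · have h1 := h m (by omega)
    rw [F.cy_mass, ENNReal.ofReal_le_ofReal_iff (by positivity)] at h1
    rw [cln_card hm he, NTSF.fug_eq]
    push_cast
    linarith
  · rw [Cln_empty he, Set.ncard_empty]
    simp only [Nat.cast_zero, zero_mul]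
    positivity

/-- **N1 as a share**: in every window of lengths there is an odd N such that a closed word with N + 1 letters has the event
with probability at least c -/
theorem n1C (K : ℕ) {i j : Fin 3} (hij : i ≠ j) : ∃ c A b d0 : ℝ, 0 < c ∧ 0 < A ∧ 0 < b ∧ 0 < d0 ∧
    ∀ (d : ℝ) (N0 : ℕ), d0 ≤ d → b * d ^ (4 / 3 : ℝ) ≤ N0 → ∃ N : ℕ, Odd N ∧ N0 ≤ N ∧ N ≤ 2 * N0 + 1 ∧
      c * ((Cln (N + 1)).ncard : ℝ) ≤ ((RW K d (A * d ^ (4 / 3 : ℝ)) i j (N + 1)).ncard : ℝ) := by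
  obtain ⟨c, A, b, d0, hc, hA, hb, hd0, h⟩ := n1W K hij
  obtain ⟨C, hC, hup⟩ := cln_up
  have hf : (0 : ℝ) < fug := by
    rw [NTSF.fug_eq]
    exact HexObs.xc_pos
  refine ⟨c / (4 * C), A, b + 4, d0 + 1, by positivity, hA, by positivity, by positivity, fun d N0 hd hN => ?_⟩
  have hd1 : (1 : ℝ) ≤ d ^ (4 / 3 : ℝ) := Real.one_le_rpow (by linarith) (by norm_num)
  have hN4 : (4 : ℝ) ≤ N0 := by nlinarith
  have hN4' : 4 ≤ N0 := by exact_mod_cast hN4
  have h1 := h d (N0 + 1) (by linarith) (by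
    push_cast
    nlinarith)
  by_contra hcon
  push Not at hcon
  have h2 : ∀ m ∈ Icc (N0 + 1) (2 * (N0 + 1)), ((RW K d (A * d ^ (4 / 3 : ℝ)) i j m).ncard : ℝ) * fug ^ m ≤
      c / 4 * ((N0 + 1 : ℕ) : ℝ) ^ (-(3 / 2) : ℝ) := by
    intro m hm
    rw [mem_Icc] at hm
    have hm0 : (0 : ℝ) < m := by exact_mod_cast (by omega : 0 < m)
    by_cases he : Even m
    · obtain ⟨N, rfl⟩ : ∃ N, m = N + 1 := ⟨m - 1, by omega⟩
      have hNo : Odd N := by
        rcases Nat.even_or_odd N with h | h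
        · exact absurd he (Nat.not_even_iff_odd.2 h.add_one)
        · exact h
      have h3 := (hcon N hNo (by omega) (by omega)).le
      have h4 := hup (N + 1) (by omega)
      have h5 : ((N + 1 : ℕ) : ℝ) ^ (-(3 / 2) : ℝ) ≤ ((N0 + 1 : ℕ) : ℝ) ^ (-(3 / 2) : ℝ) :=
        Real.rpow_le_rpow_of_nonpos (by positivity) (by exact_mod_cast hm.1) (by norm_num)
      calc _ ≤ c / (4 * C) * ((Cln (N + 1)).ncard : ℝ) * fug ^ (N + 1) := mul_le_mul_of_nonneg_right h3 (by positivity)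
        _ = c / (4 * C) * (((Cln (N + 1)).ncard : ℝ) * fug ^ (N + 1)) := by ring
        _ ≤ c / (4 * C) * (C * ((N0 + 1 : ℕ) : ℝ) ^ (-(3 / 2) : ℝ)) :=
          mul_le_mul_of_nonneg_left (h4.trans (mul_le_mul_of_nonneg_left h5 hC.le)) (by positivity)
        _ = _ := by
          field_simp
    · have h3 : RW K d (A * d ^ (4 / 3 : ℝ)) i j m = ∅ := by
        ext w
        simp only [Set.mem_empty_iff_false, iff_false]
        rintro ⟨h, -⟩
        rw [Cln_empty he] at h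
        exact h
      rw [h3, Set.ncard_empty]
      simp only [Nat.cast_zero, zero_mul]
      positivity
  have h3 := h1.trans (sum_le_sum h2)
  rw [sum_const, Nat.card_Icc, nsmul_eq_mul] at h3
  have e1 : 2 * (N0 + 1) + 1 - (N0 + 1) = N0 + 2 := by omega
  rw [e1] at h3
  obtain ⟨n, hn⟩ : ∃ n : ℝ, n = ((N0 + 1 : ℕ) : ℝ) := ⟨_, rfl⟩
  rw [← hn] at h3
  have hn5 : 5 ≤ n := by
    rw [hn]
    push_cast
    linarith
  have hn0 : 0 < n := by linarith
  have e2 : n ^ (-(1 / 2) : ℝ) = n * n ^ (-(3 / 2) : ℝ) := by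
    have h1 : n ^ (-(1 / 2) : ℝ) = n ^ (1 + -(3 / 2) : ℝ) := by norm_num
    rw [h1, Real.rpow_add hn0, Real.rpow_one]
  have hy : 0 < n ^ (-(3 / 2) : ℝ) := by positivity
  have e3 : (((N0 + 2 : ℕ) : ℝ)) = n + 1 := by
    rw [hn]
    push_cast
    ring
  rw [e2, e3] at h3
  have h5 : c * n ≤ (n + 1) * (c / 4) := by
    refine le_of_mul_le_mul_right ?_ hy
    linarith
  nlinarith

end Pool.Agent.ROT.F3.N1W

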