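import Pool.Agent.ROT.F3SymX
import Pool.Agent.ROT.F3Cls

/-!
# ROT / F3SymD (helper25): the classes of F3Cls under the symmetries of the lattice

`lv_L`, `ltl_L` (absolute value), `Kn_L`; `CutC_mp`, `FstC_mp`, `TipC_mp`, `BlkC_mp`, `DblC_mp`, `RestC_mp`, `ThC_mp`, `EndQ_mp`,
`ConeQ_mp`, `ConeR_mp`; **`PreM_mp`, `PaiM_mp`, `EdQ_mp`, `RsQ_mp`, `NRt_mp`, `MnQ_mp`, `KcM_mp`, `OtM_mp`**: a class with the
directions `S.L d` read on `mp S w` is the class with the directions `d` read on `w`; as sets `pre_Pre`, `pre_Pai`, `pre_Rst`,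
`pre_Man`, `pre_OtB`; native directions: `rS_ev : (rS r).L (ev a) = ev (a + r)`, `cS_ev : cS.L (ev a) = ev (-a)`; masses
`ms_Pre`, `ms_Rst`, `ms_Man`, `gam_Pai`.
-/

set_option autoImplicit false

namespace Pool.Agent.ROT.F3

open Finset ComplexConjugate
open scoped ENNReal Classical

/-! ### one vector -/

private lemma lv_dt (d z : ℂ) : lv d z = dt z d := by
  rw [lv, dt_mul_conj, mul_comm]

lemma lv_L (S : LSym) (d z : ℂ) : lv (S.L d) (S.L z) = lv d z := by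
  rw [lv_dt, lv_dt, dt_map]

lemma ltl_sq (d z : ℂ) : ltl d z ^ 2 = ‖d‖ ^ 2 * ‖z‖ ^ 2 - lv d z ^ 2 := by
  have h := Complex.sq_norm (conj d * z)
  rw [norm_mul, RCLike.norm_conj, Complex.normSq_apply] at h
  unfold ltl lv
  nlinarith [h]

lemma ltl_L (S : LSym) (d z : ℂ) : |ltl (S.L d) (S.L z)| = |ltl d z| := by
  rw [← sq_eq_sq_iff_abs_eq_abs, ltl_sq, ltl_sq, lv_L, S.L.norm_map, S.L.norm_map]

lemma Kn_L {S : LSym} {d : ℂ} {c κ : ℝ} {v : ℂ} : Kn (S.L d) c κ (S.L v) ↔ Kn d c κ v := by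
  unfold Kn
  rw [lv_L, S.L.norm_map]

lemma rS_ev (r a : Fin 3) : (rS r).L (ev a) = ev (a + r) := L_ev _ _

lemma cS_ev (a : Fin 3) : cS.L (ev a) = ev (-a) := L_ev _ _

/-! ### words -/

variable {S : LSym} {d d' : ℂ} {p q w R : W3} {k j : ℕ}

lemma CutC_mp : CutC (S.L d) (mp S p) k ↔ CutC d p k := by
  unfold CutC
  simp only [mp_length, ps_mp, lv_L]

lemma FstC_mp {l : ℝ} : FstC (S.L d) l (mp S p) ↔ FstC d l p := by
  unfold FstC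
  simp only [mp_length, ps_mp, en_mp, lv_L, CutC_mp]

lemma TipC_mp {r : ℝ} : TipC (S.L d) r (mp S p) ↔ TipC d r p := by
  constructor
  · rintro ⟨h1, h2, h3, h4, h5⟩
    simp only [mp_length, ps_mp, en_mp, lv_L, S.L.norm_map, SW_mp] at h1 h2 h3 h4 h5
    exact ⟨h1, h2, h3, h4, h5⟩
  · rintro ⟨h1, h2, h3, h4, h5⟩
    constructor <;> simp only [mp_length, ps_mp, en_mp, lv_L, S.L.norm_map, SW_mp] <;> assumption

lemma BlkC_mp {r : ℝ} : BlkC (S.L d) r (mp S p) ↔ BlkC d r p := by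
  constructor
  · rintro ⟨h1, h2⟩
    simp only [mp_length, ps_mp, lv_L] at h2
    exact ⟨TipC_mp.1 h1, h2⟩
  · rintro ⟨h1, h2⟩
    refine ⟨TipC_mp.2 h1, ?_⟩
    simp only [mp_length, ps_mp, lv_L]
    exact h2

lemma DblC_mp {r l r2 m : ℝ} : DblC (S.L d) r l r2 m (mp S p) k ↔ DblC d r l r2 m p k := by
  constructor
  · rintro ⟨h1, h2, h3, h4, h5⟩
    rw [← mp_take, TipC_mp] at h2
    rw [← mp_take, FstC_mp] at h3
    rw [← mp_drop, BlkC_mp] at h4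
    rw [← mp_drop, FstC_mp] at h5
    exact ⟨by simpa using h1, h2, h3, h4, h5⟩
  · rintro ⟨h1, h2, h3, h4, h5⟩
    refine ⟨by simpa using h1, ?_, ?_, ?_, ?_⟩
    · rwa [← mp_take, TipC_mp]
    · rwa [← mp_take, FstC_mp]
    · rwa [← mp_drop, BlkC_mp]
    · rwa [← mp_drop, FstC_mp]

lemma RestC_mp {r : ℝ} : RestC (S.L d) r (mp S R) ↔ RestC d r R := by
  unfold RestC
  simp only [mp_length, ps_mp, lv_L, S.L.norm_map]

lemma ThC_mp {h : ℝ} : ThC (S.L d) h (mp S p) ↔ ThC d h p := by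
  unfold ThC
  simp only [mp_length, ps_mp, lv_L, CutC_mp]

lemma EndQ_mp {c e : ℝ} : EndQ (S.L d) c e (mp S p) ↔ EndQ d c e p := by
  unfold EndQ
  rw [en_mp, lv_L, S.L.norm_map]

lemma ConeQ_mp {c κ : ℝ} : ConeQ (S.L d) c κ (mp S p) ↔ ConeQ d c κ p := by
  unfold ConeQ
  simp only [mp_length, ps_mp, Kn_L]

lemma ConeR_mp {c r0 κ : ℝ} : ConeR (S.L d) c r0 κ (mp S R) ↔ ConeR d c r0 κ R := by
  unfold ConeR
  simp only [mp_length, ps_mp, Kn_L, S.L.norm_map]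

/-! ### the classes -/

variable {P P' Q : Tp} {W : Wn} {s s' : Sr} {E : En} {O : Ot} {σ T : ℝ}

lemma PreM_mp : PreM (S.L d) P σ T (mp S p) k ↔ PreM d P σ T p k := by
  constructor
  · rintro ⟨h1, h2, h3, h4, h5, h6⟩
    rw [← mp_drop] at h2 h4 h6
    rw [← mp_take] at h3
    exact ⟨DblC_mp.1 h1, ThC_mp.1 h2, EndQ_mp.1 h3, ConeQ_mp.1 h4, h5, by simpa using h6⟩
  · rintro ⟨h1, h2, h3, h4, h5, h6⟩
    refine ⟨DblC_mp.2 h1, ?_, ?_, ?_, h5, ?_⟩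
    · rw [← mp_drop]; exact ThC_mp.2 h2
    · rw [← mp_take]; exact EndQ_mp.2 h3
    · rw [← mp_drop]; exact ConeQ_mp.2 h4
    · rw [← mp_drop, mp_length]; exact h6

lemma PaiM_mp {a : W3 × W3} {k1 k2 : ℕ} : PaiM (S.L d) (S.L d') P P' σ T (mp2 S a) k1 k2 ↔ PaiM d d' P P' σ T a k1 k2 := by
  constructor
  · rintro ⟨h1, h2, h3, h4, h5⟩
    simp only [mp2, ps_mp, lv_L, Kn_L, S.L.injective.eq_iff] at h3 h4 h5
    exact ⟨PreM_mp.1 h1, PreM_mp.1 h2, h3, h4, h5⟩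
  · rintro ⟨h1, h2, h3, h4, h5⟩
    refine ⟨PreM_mp.2 h1, PreM_mp.2 h2, ?_, ?_, ?_⟩
    · simp only [mp2, ps_mp, lv_L, Kn_L]; exact h3
    · simp only [mp2, ps_mp, lv_L, Kn_L]; exact h4
    · simp only [mp2, ps_mp, S.L.injective.eq_iff]; exact h5

lemma EdQ_mp : EdQ (S.L d) P σ (mp S R) ↔ EdQ d P σ R :=
  ⟨fun h => ⟨RestC_mp.1 h.right, ConeR_mp.1 h.cone⟩, fun h => ⟨RestC_mp.2 h.right, ConeR_mp.2 h.cone⟩⟩

lemma RsQ_mp : RsQ (S.L d) (S.L d') P Q W σ T (mp S R) ↔ RsQ d d' P Q W σ T R := by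
  constructor
  · rintro ⟨h1, h2, h3, h4, h5, h6, h7, h8⟩
    rw [← mp_reverse] at h4
    simp only [mp_length, en_mp, S.L.norm_map] at h1 h5 h6 h7 h8
    exact ⟨h1, SW_mp.1 h2, EdQ_mp.1 h3, EdQ_mp.1 h4, h5, h6, h7, h8⟩
  · rintro ⟨h1, h2, h3, h4, h5, h6, h7, h8⟩
    refine ⟨?_, SW_mp.2 h2, EdQ_mp.2 h3, ?_, ?_, ?_, ?_, ?_⟩
    · rw [mp_length]; exact h1
    · rw [← mp_reverse]; exact EdQ_mp.2 h4
    · rw [en_mp, S.L.norm_map]; exact h5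
    · rw [en_mp, S.L.norm_map]; exact h6
    · rw [mp_length]; exact h7
    · rw [mp_length]; exact h8

lemma NRt_mp : NRt (S.L d) s σ (mp S R) ↔ NRt d s σ R := by
  unfold NRt
  simp only [mp_length, ps_mp, lv_L, ltl_L, S.L.norm_map]

lemma MnQ_mp : MnQ (S.L d) (S.L d') P Q W s s' σ T (mp S R) ↔ MnQ d d' P Q W s s' σ T R := by
  constructor
  · rintro ⟨h1, h2, h3⟩
    rw [← mp_reverse] at h3
    exact ⟨RsQ_mp.1 h1, NRt_mp.1 h2, NRt_mp.1 h3⟩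
  · rintro ⟨h1, h2, h3⟩
    refine ⟨RsQ_mp.2 h1, NRt_mp.2 h2, ?_⟩
    rw [← mp_reverse]
    exact NRt_mp.2 h3

lemma L_real (S : LSym) (x : ℝ) (z : ℂ) : S.L ((x : ℂ) * z) = (x : ℂ) * S.L z := by
  rw [← Complex.real_smul, map_smul, Complex.real_smul]

lemma KcM_mp {t : ℂ} : KcM (S.L d) (S.L t) E σ T (mp S w) j ↔ KcM d t E σ T w j := by
  constructor
  · rintro ⟨h1, h2, h3, h4, h5, h6, h7, h8, h9⟩
    rw [← L_real, en_mp, ← map_sub] at h7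
    simp only [mp_length, ps_mp, en_mp, lv_L, ← map_sub, Kn_L, S.L.norm_map] at h1 h2 h3 h5 h6 h7 h8 h9
    exact ⟨h1, h2, h3, ConeQ_mp.1 h4, h5, h6, h7, h8, h9⟩
  · rintro ⟨h1, h2, h3, h4, h5, h6, h7, h8, h9⟩
    refine ⟨?_, ?_, ?_, ConeQ_mp.2 h4, ?_, ?_, ?_, ?_, ?_⟩
    · rw [mp_length]; exact h1
    · simp only [ps_mp, S.L.norm_map]; exact h2
    · simp only [mp_length, ps_mp, ← map_sub, S.L.norm_map]; exact h3
    · simp only [mp_length, ps_mp, ← map_sub, Kn_L]; exact h5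
    · rw [en_mp, lv_L, S.L.norm_map]; exact h6
    · rw [← L_real, en_mp, ← map_sub, S.L.norm_map]; exact h7
    · simp only [mp_length, ps_mp, lv_L]; exact h8
    · rw [mp_length]; exact h9

lemma OtM_mp : OtM (S.L d) O σ T (mp S w) ↔ OtM d O σ T w := by
  constructor
  · rintro ⟨h1, h2, h3, h4, h5, h6⟩
    simp only [mp_length, ps_mp, ltl_L] at h3 h6
    exact ⟨BlkC_mp.1 h1, FstC_mp.1 h2, h3, ConeQ_mp.1 h4, EndQ_mp.1 h5, h6⟩
  · rintro ⟨h1, h2, h3, h4, h5, h6⟩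
    refine ⟨BlkC_mp.2 h1, FstC_mp.2 h2, ?_, ConeQ_mp.2 h4, EndQ_mp.2 h5, ?_⟩
    · simp only [mp_length, ps_mp, ltl_L]; exact h3
    · rw [mp_length]; exact h6

/-! ### the sets -/

variable (S)

theorem pre_Pre (d : ℂ) (P : Tp) (σ T : ℝ) : pre S (Pre (S.L d) P σ T) = Pre d P σ T := by
  ext w
  show (∃ k, PreM (S.L d) P σ T (mp S w) k) ↔ ∃ k, PreM d P σ T w k
  simp only [PreM_mp]

theorem pre_Pai (d d' : ℂ) (P P' : Tp) (σ T : ℝ) : pre2 S (Pai (S.L d) (S.L d') P P' σ T) = Pai d d' P P' σ T := by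
  ext a
  show (∃ k1 k2, PaiM (S.L d) (S.L d') P P' σ T (mp2 S a) k1 k2) ↔ ∃ k1 k2, PaiM d d' P P' σ T a k1 k2
  simp only [PaiM_mp]

theorem pre_Rst (d d' : ℂ) (P Q : Tp) (W : Wn) (σ T : ℝ) : pre S (Rst (S.L d) (S.L d') P Q W σ T) = Rst d d' P Q W σ T := by
  ext w
  exact RsQ_mp

theorem pre_Man (d d' : ℂ) (P Q : Tp) (W : Wn) (s s' : Sr) (σ T : ℝ) :
    pre S (Man (S.L d) (S.L d') P Q W s s' σ T) = Man d d' P Q W s s' σ T := by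
  ext w
  exact MnQ_mp

theorem pre_OtB (d : ℂ) (O : Ot) (σ T : ℝ) : pre S (OtB (S.L d) O σ T) = OtB d O σ T := by
  ext w
  exact OtM_mp

/-! ### masses -/

/-- the mass of the prefixes does not depend on the native direction -/
theorem ms_Pre (d : ℂ) (P : Tp) (σ T : ℝ) (f : W3 → ℝ≥0∞) :
    ms (Pre (S.L d) P σ T) f = ms (Pre d P σ T) fun w => f (mp S w) := by
  rw [← ms_mp S, pre_Pre]

theorem ms_Rst (d d' : ℂ) (P Q : Tp) (W : Wn) (σ T : ℝ) (f : W3 → ℝ≥0∞) :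
    ms (Rst (S.L d) (S.L d') P Q W σ T) f = ms (Rst d d' P Q W σ T) fun w => f (mp S w) := by
  rw [← ms_mp S, pre_Rst]

theorem ms_Man (d d' : ℂ) (P Q : Tp) (W : Wn) (s s' : Sr) (σ T : ℝ) (f : W3 → ℝ≥0∞) :
    ms (Man (S.L d) (S.L d') P Q W s s' σ T) f = ms (Man d d' P Q W s s' σ T) fun w => f (mp S w) := by
  rw [← ms_mp S, pre_Man]

theorem ms_OtB (d : ℂ) (O : Ot) (σ T : ℝ) (f : W3 → ℝ≥0∞) :
    ms (OtB (S.L d) O σ T) f = ms (OtB d O σ T) fun w => f (mp S w) := by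
  rw [← ms_mp S, pre_OtB]

theorem gam_Pai (d d' : ℂ) (P P' : Tp) (σ T : ℝ) (e : W3 × W3 → ℝ≥0∞) (z : ℂ) :
    gam (Pai (S.L d) (S.L d') P P' σ T) e (S.L z) = gam (Pai d d' P P' σ T) (fun a => e (mp2 S a)) z := by
  rw [← gam_mp S, pre_Pai]

end Pool.Agent.ROT.F3
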