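import Pool.Agent.ROT.F3MacU
import Pool.Agent.ROT.F3NormT
import Pool.Agent.ROT.F3N1W
import Pool.Agent.ROT.F3ArmC
import Pool.Agent.ROT.F3SysV
import Pool.Agent.ROT.F3SymD
import Pool.Agent.ROT.W4M

/-!
# ROT, F3, row C0At (L2) (helper87, literals of helper86)

* **`rev_ps`** : on the words with two straight arms the average of the start gates over a narrow box is 1;
* **`ps_cut`** : if the average is positive and the arm is thin, then there is a cut in the range of the box;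
* **`n1_mw`** : the mass of the words with two straight arms at every scale, for the closed words with two roots (`mwE N b`);
  `win_up` : the upper bound for the window.
-/

set_option autoImplicit false

namespace Pool.Agent.ROT.F3.C0N

open Finset
open Pool.Agent.NTS.Res (step pos saw fug size)
open Pool.Agent.PMA.Res (pol)
open Pool.Agent.SCF.M (Box TP inP psP psV inP_eq grid0)
open Pool.Agent.SCF.Z (SCut GC gp gp_mem)
open Pool.Agent.ROT.F3.N1W (ArmW REvW RW)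
open Pool.Agent.ROT.F3.Nm (re_gap lv_one ps_succ_re)
open scoped ENNReal Classical

/-! ### 1. The start gates of a word -/

lemma pos_get (t : W3) (k : ℕ) : pos t.get k = ps t k := by
  rw [← ps_ofFn, List.ofFn_get]

/-- a cut of the first s letters -/
def Ct (p : ℕ → ℂ) (s c : ℕ) : Prop := Even c ∧ c < s ∧ (∀ i, i ≤ c → (p i).re ≤ (p c).re) ∧
  ∀ i, c < i → i ≤ s → (p c).re < (p i).re

/-- the step behind a cut -/
lemma step_one {t : W3} {c : ℕ} (hc : c < t.length) (he : Even c) (h : (ps t c).re < (ps t (c + 1)).re) :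
    ps t (c + 1) = ps t c + 1 := by
  rw [ps_succ_re hc, if_pos he, one_mul] at h
  by_cases h5 : t.get ⟨c, hc⟩ = 0
  · unfold ps
    rw [sum_range_succ, st_of_lt hc, h5, Pool.Agent.PMA.LimR.step_om, he.neg_one_pow]
    simp
  · rw [if_neg h5] at h
    linarith

/-- the start gate at the first cut -/
lemma tp_of_cut {t : W3} {s c : ℕ} {a r ρ : ℝ} (hs : s ≤ t.length) (hc : Ct (ps t) s c) (ha : a ≤ (ps t c).re)
    (hmin : ∀ c', c' < c → Ct (ps t) s c' → (ps t c').re < a)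
    (hdiam : ∀ i j, i ≤ c → j ≤ c → ‖ps t i - ps t j‖ ≤ r)
    (far : ∀ j, s < j → j ≤ t.length → ρ < ‖ps t j - ps t c‖) :
    TP (fun a k => SCF.M.LG a t.length t.get k) a r ρ t.get c := by
  obtain ⟨h1, h2, h3, h4⟩ := hc
  refine ⟨⟨h1, fun i hi => ?_, fun i j hi hj => ?_, ?_, fun k' hk' hL => ?_⟩, ?_, ?_, fun j hj hjn hρ => ?_⟩
  · rw [pos_get, pos_get]
    exact h3 i hi
  · rw [pos_get, pos_get]
    exact hdiam i j hi hj
  · show a ≤ (pos t.get c).re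
    rw [pos_get]
    exact ha
  · have hL' : a ≤ (pos t.get k').re := hL
    rw [pos_get] at hL'
    obtain ⟨-, q2, q3, q4, q5, q6⟩ := hk'
    refine absurd (hmin k' q2 ⟨q3, by omega, fun i hi => ?_, fun i hi hi' => ?_⟩) (not_lt.2 hL')
    · have := q5 i (Nat.zero_le _) hi
      rwa [pos_get, pos_get] at this
    · rcases Nat.lt_or_ge c i with h | h
      · have e1 := h3 k' q2.le
        have e2 := h4 i h hi'
        linarith
      · have := q6 i hi h
        rw [pos_get, pos_get] at this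
        linarith
  · omega
  · rw [pos_get, pos_get]
    exact step_one (by omega) h1 (h4 (c + 1) (by omega) (by omega))
  · rw [pos_get, pos_get] at hρ ⊢
    rcases Nat.lt_or_ge s j with h | h
    · exact absurd hρ (not_le.2 (far j h hjn))
    · exact re_gap (by omega) hjn h1 (h4 j hj h)

/-- the average over the grid -/
lemma psV_one {t : W3} {M : ℕ} {B : Box} {R S : ℝ} (hM : 0 < M) (hB : B.Ok R) (hR : 0 ≤ R) (hS : 0 ≤ S)
    (h : ∀ a r ρ : ℝ, B.a0 ≤ a → a ≤ B.a1 → B.r0 ≤ r → r ≤ B.r1 → B.p0 ≤ ρ → ρ ≤ B.p1 →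
      ∃ c, TP (fun a k => SCF.M.LG a t.length t.get k) (a * S) (r * S) (ρ * S) t.get c) :
    psV SCF.M.LG M B S (fun _ _ _ => 1) t.get = 1 := by
  have hM' : (0 : ℝ) < M := by exact_mod_cast hM
  unfold psV psP
  have h1 : ∀ i2 ∈ Finset.range M, ∀ i3 ∈ Finset.range M, ∀ i5 ∈ Finset.range M,
      inP (fun a k => SCF.M.LG a t.length t.get k) (gp M B.a0 B.a1 i3 * S) (gp M B.r0 B.r1 i2 * S) (gp M B.p0 B.p1 i5 * S)
        (fun _ => 1) t.get = 1 := by
    intro i2 h2 i3 h3 i5 h5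
    rw [Finset.mem_range] at h2 h3 h5
    obtain ⟨c, hc⟩ := h _ _ _ (gp_mem h3 hB.a'.le).1 (gp_mem h3 hB.a'.le).2 (gp_mem h2 hB.r.le).1 (gp_mem h2 hB.r.le).2
      (gp_mem h5 hB.p'.le).1 (gp_mem h5 hB.p'.le).2
    rw [inP_eq (grid0 hB hR hS h2 h5) hc]
  rw [Finset.sum_congr rfl fun i2 h2 => Finset.sum_congr rfl fun i3 h3 => Finset.sum_congr rfl fun i5 h5 => h1 i2 h2 i3 h3 i5 h5]
  simp only [Finset.sum_const, Finset.card_range, nsmul_eq_mul, mul_one]
  rw [div_eq_one_iff_eq (by positivity)]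
  ring

/-- a vector in a thin rectangle -/
lemma norm_thin {z : ℂ} {X d : ℝ} (hd : 0 ≤ d) (hX : 4 * d ≤ X) (h1 : |z.re| ≤ X + 13 * d) (h2 : |z.im| ≤ 16 * d) :
    ‖z‖ ≤ X + 24 * d := by
  have h3 : ‖z‖ ^ 2 ≤ (X + 24 * d) ^ 2 := by
    rw [← Complex.normSq_eq_norm_sq, Complex.normSq_apply]
    have h4 : z.re * z.re ≤ (X + 13 * d) * (X + 13 * d) := by
      rw [← abs_mul_abs_self z.re]
      exact mul_self_le_mul_self (abs_nonneg _) h1
    have h5 : z.im * z.im ≤ (16 * d) * (16 * d) := by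
      rw [← abs_mul_abs_self z.im]
      exact mul_self_le_mul_self (abs_nonneg _) h2
    nlinarith
  exact (sq_le_sq₀ (norm_nonneg _) (by linarith)).1 h3

/-- **on the words with two straight arms the start gates of a narrow box exist** -/
theorem rev_ps {K d x R S : ℝ} {f : ℂ} {w : W3} {m M : ℕ} {B : Box} (h : REvW K d (ax 0) f x w) (hd : 0 < d) (hS : 0 < S)
    (hR : 0 < R) (hB : B.Ok R) (hM : 0 < M) (hxm : x ≤ m) (hmw : (m : ℝ) + x < w.length)
    (hu : 4 * d ≤ B.a0 * S) (ha : B.a1 * S ≤ B.a0 * S + d) (hr : B.a0 * S + 25 * d ≤ B.r0 * S) (hK : 130 * R * S ≤ K * d) :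
    psV SCF.M.LG M B S (fun _ _ _ => 1) (w.take m).get = 1 := by
  obtain ⟨s, t, h1, h2, h3, h4, h5, h6⟩ := h
  have hx0 : 0 ≤ x := le_trans (Nat.cast_nonneg s) h1
  have hml : m ≤ w.length := by
    have : (m : ℝ) ≤ w.length := by linarith
    exact_mod_cast this
  have hsm : s ≤ m := by
    have : (s : ℝ) ≤ m := by linarith
    exact_mod_cast this
  have htl : (w.take m).length = m := by rw [List.length_take]; omega
  have hps : ∀ k, k ≤ m → ps (w.take m) k = ps w k := fun k hk => ps_take w hk hml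
  have hB1 := hB.r'
  have hB2 := hB.r
  have hB3 := hB.p''
  have hRS : B.r1 * S ≤ 2 * R * S := mul_le_mul_of_nonneg_right hB1 hS.le
  have hrS : B.r0 * S < B.r1 * S := mul_lt_mul_of_pos_right hB2 hS
  have hRS0 : 0 < R * S := mul_pos hR hS
  have hax : ax 0 = 1 := ax_zero
  rw [hax] at h4
  refine psV_one hM hB hR.le hS.le fun a r ρ ha0 ha1 hr0 hr1 hp0 hp1 => ?_
  have haS : B.a0 * S ≤ a * S := mul_le_mul_of_nonneg_right ha0 hS.le
  have haS1 : a * S ≤ B.a1 * S := mul_le_mul_of_nonneg_right ha1 hS.le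
  have hrS0 : B.r0 * S ≤ r * S := mul_le_mul_of_nonneg_right hr0 hS.le
  have hpS : ρ * S ≤ 128 * R * S := mul_le_mul_of_nonneg_right (hp1.trans hB3) hS.le
  -- a cut
  obtain ⟨q, q1, q2, q3, q4, q5, q6⟩ := h4.cut (a * S) (by linarith) (by nlinarith)
  simp only [lv_one] at q2 q3 q5 q6
  have hqm : q < m := by omega
  have hqe : Even q := by
    by_contra hcon
    have e1 := ps_succ_re (w := w) (k := q) (by omega)
    rw [q4, if_neg hcon, Complex.add_re, Complex.one_re] at e1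
    split_ifs at e1 <;> linarith
  have hq : Ct (ps (w.take m)) s q := by
    refine ⟨hqe, q1, fun i hi => ?_, fun i hi hi' => ?_⟩
    · rw [hps i (by omega), hps q (by omega)]
      exact q5 i hi
    · rw [hps i (by omega), hps q (by omega)]
      exact q6 i hi hi'
  have hex : ∃ c, Ct (ps (w.take m)) s c ∧ a * S ≤ (ps (w.take m) c).re := ⟨q, hq, by rw [hps q (by omega)]; exact q2⟩
  obtain ⟨c, hc, hca, hcm, hcq⟩ : ∃ c, Ct (ps (w.take m)) s c ∧ a * S ≤ (ps (w.take m) c).re ∧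
      (∀ c', c' < c → Ct (ps (w.take m)) s c' → (ps (w.take m) c').re < a * S) ∧ c ≤ q := by
    refine ⟨Nat.find hex, (Nat.find_spec hex).1, (Nat.find_spec hex).2, fun c' hc' h7 => ?_, Nat.find_min' hex ⟨hq, by rw [hps q (by omega)]; exact q2⟩⟩
    have := Nat.find_min hex hc'
    rw [not_and, not_le] at this
    exact this h7
  have hlev : (ps w c).re ≤ a * S + 5 * d := (q5 c hcq).trans q3
  -- the vertices up to the cut
  have hbox : ∀ i, i ≤ c → -(8 * d) ≤ (ps w i).re ∧ (ps w i).re ≤ a * S + 5 * d ∧ |(ps w i).im| ≤ 8 * d := by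
    intro i hi
    obtain ⟨τ, h7, h8⟩ := h4.near i (by have := hc.2.1; omega)
    have h9 := hc.2.2.1 i hi
    rw [hps i (by omega), hps c (by omega)] at h9
    have e1 : |(ps w i - (τ : ℂ) * 1).re| ≤ 8 * d := (Complex.abs_re_le_norm _).trans h8
    have e2 : |(ps w i - (τ : ℂ) * 1).im| ≤ 8 * d := (Complex.abs_im_le_norm _).trans h8
    rw [mul_one, Complex.sub_re, Complex.ofReal_re] at e1
    rw [mul_one, Complex.sub_im, Complex.ofReal_im, sub_zero] at e2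
    rw [abs_le] at e1
    exact ⟨by linarith, by linarith, e2⟩
  have hdiam : ∀ i j, i ≤ c → j ≤ c → ‖ps (w.take m) i - ps (w.take m) j‖ ≤ a * S + 24 * d := by
    intro i j hi hj
    rw [hps i (by omega), hps j (by omega)]
    obtain ⟨a1, a2, a3⟩ := hbox i hi
    obtain ⟨b1, b2, b3⟩ := hbox j hj
    refine norm_thin hd.le (by linarith) ?_ ?_
    · rw [Complex.sub_re, abs_le]
      constructor <;> linarith
    · rw [Complex.sub_im]
      rw [abs_le] at a3 b3 ⊢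
      constructor <;> linarith
  have hcn : ‖ps (w.take m) c‖ ≤ a * S + 24 * d := by
    have := hdiam c 0 le_rfl (Nat.zero_le _)
    rwa [ps_zero, sub_zero] at this
  refine ⟨c, tp_of_cut (s := s) (by rw [htl]; exact hsm) hc hca hcm (fun i j hi hj => (hdiam i j hi hj).trans (by linarith))
    fun j hj hj' => ?_⟩
  rw [htl] at hj'
  have h7 : j + t < w.length := by
    have : ((j + t : ℕ) : ℝ) < w.length := by
      push_cast
      have : (j : ℝ) ≤ m := by exact_mod_cast hj'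
      linarith
    exact_mod_cast this
  have h8 := h6 j hj h7
  have h9 : ‖ps w j‖ ≤ ‖ps (w.take m) j - ps (w.take m) c‖ + ‖ps (w.take m) c‖ := by
    rw [← hps j hj']
    have : ps (w.take m) j = (ps (w.take m) j - ps (w.take m) c) + ps (w.take m) c := by ring
    exact (congrArg norm this).le.trans (norm_add_le _ _)
  linarith

/-- **thin arms: if the average is positive there is a cut in the range of the box** -/
theorem ps_cut {D F R S : ℝ} {t : W3} {s M : ℕ} {B : Box} (h : ArmC D 1 t s) (hS : 0 < S) (hB : B.Ok R)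
    (hF : 2 * R * S < F) (hD : 5 * D < 64 * R * S)
    (far : ∀ i, s < i → i ≤ t.length → F ≤ ‖ps t i‖) (hst : s ≤ t.length)
    (hp : 0 < psV SCF.M.LG M B S (fun _ _ _ => 1) t.get) :
    ∃ c, CutA 1 t s c ∧ B.a0 * S ≤ lv 1 (ps t c) ∧ lv 1 (ps t c) ≤ B.r1 * S ∧
      ∀ i, i ≤ c → ‖ps t i‖ ≤ B.r1 * S := by
  have hex : ∃ i2 < M, ∃ i3 < M, ∃ i5 < M, ∃ k,
      TP (fun a k => SCF.M.LG a t.length t.get k) (gp M B.a0 B.a1 i3 * S) (gp M B.r0 B.r1 i2 * S) (gp M B.p0 B.p1 i5 * S) t.get k := by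
    by_contra hcon
    push Not at hcon
    refine hp.ne' ?_
    unfold psV psP
    rw [Finset.sum_eq_zero, zero_div]
    intro i2 h2
    refine Finset.sum_eq_zero fun i3 h3 => Finset.sum_eq_zero fun i5 h5 => ?_
    rw [Finset.mem_range] at h2 h3 h5
    exact Pool.Agent.SCF.M.inP_zero fun k => hcon i2 h2 i3 h3 i5 h5 k
  obtain ⟨i2, h2, i3, h3, i5, h5, k, ⟨k1, k2, k3, k4, -⟩, k6, k7, k8⟩ := hex
  have g1 := (gp_mem h3 hB.a'.le).1
  have g2 := (gp_mem h2 hB.r.le).2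
  have g3 := (gp_mem h5 hB.p'.le).1
  have b1 := hB.r'
  have b2 := hB.p
  have c1 : B.a0 * S ≤ gp M B.a0 B.a1 i3 * S := mul_le_mul_of_nonneg_right g1 hS.le
  have c2 : gp M B.r0 B.r1 i2 * S ≤ B.r1 * S := mul_le_mul_of_nonneg_right g2 hS.le
  have c3 : 64 * R * S ≤ gp M B.p0 B.p1 i5 * S := mul_le_mul_of_nonneg_right (b2.trans g3) hS.le
  have c4 : B.r1 * S ≤ 2 * R * S := mul_le_mul_of_nonneg_right b1 hS.le
  have hball : ∀ i, i ≤ k → ‖ps t i‖ ≤ B.r1 * S := by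
    intro i hi
    have := k3 i 0 hi (Nat.zero_le _)
    rw [pos_get, pos_get, ps_zero, sub_zero] at this
    exact this.trans c2
  have hks : k ≤ s := by
    by_contra hcon
    have e1 := far k (by omega) k6.le
    have e2 := hball k le_rfl
    linarith
  refine ⟨k, ⟨k1, hks, fun i hi => ?_, fun i hi hi' => ?_⟩, ?_, ?_, hball⟩
  · have := k2 i hi
    rw [pos_get, pos_get] at this
    rwa [lv_one, lv_one]
  · rw [lv_one, lv_one]
    by_cases hd : ‖pos t.get i - pos t.get k‖ ≤ gp M B.p0 B.p1 i5 * S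
    · have := k8 i hi (by omega) hd
      rw [pos_get, pos_get] at this
      linarith
    · rw [not_le, pos_get, pos_get] at hd
      obtain ⟨τ, a1, a2⟩ := h.near i hi'
      obtain ⟨τ', b1, b2⟩ := h.near k hks
      have e1 := h.back k i hi.le hi'
      rw [lv_one, lv_one] at e1
      have r1 : |(ps t i - (τ : ℂ) * 1).re| ≤ D := (Complex.abs_re_le_norm _).trans a2
      have r2 : |(ps t k - (τ' : ℂ) * 1).re| ≤ D := (Complex.abs_re_le_norm _).trans b2
      rw [mul_one, Complex.sub_re, Complex.ofReal_re, abs_le] at r1 r2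
      have e2 : ‖ps t i - ps t k‖ ≤ |τ - τ'| + 2 * D := by
        have e3 : ps t i - ps t k = (ps t i - (τ : ℂ) * 1) + (((τ - τ' : ℝ)) : ℂ) - (ps t k - (τ' : ℂ) * 1) := by
          push_cast
          ring
        rw [e3]
        refine (norm_sub_le _ _).trans ?_
        have e4 := norm_add_le (ps t i - (τ : ℂ) * 1) (((τ - τ' : ℝ)) : ℂ)
        rw [Complex.norm_real, Real.norm_eq_abs] at e4
        linarith
      have e5 : 64 * R * S - 2 * D < |τ - τ'| := by linarith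
      rcases le_total τ' τ with h7 | h7
      · rw [abs_of_nonneg (by linarith)] at e5
        linarith
      · rw [abs_of_nonpos (by linarith)] at e5
        linarith
  · have : gp M B.a0 B.a1 i3 * S ≤ (pos t.get k).re := k4
    rw [pos_get] at this
    rw [lv_one]
    linarith
  · rw [lv_one]
    have e1 := hball k le_rfl
    exact ((le_abs_self _).trans (Complex.abs_re_le_norm _)).trans e1

/-! ### 2. Masses -/

lemma real_sum {N : ℕ} {b : ℝ} (S : Set (W3 × ℕ)) : (mwE N b).real S =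
    ∑ x ∈ TN N b, wN N x.1 * if Even x.2 ∧ x ∈ S then 1 else 0 := by
  have h1 : (mwE N b).real S = ∫ x, (if x ∈ S then (1 : ℝ) else 0) ∂(mwE N b) := by
    rw [← MeasureTheory.integral_indicator_one (MeasurableSet.of_discrete)]
    rfl
  rw [h1, mwE_int, mw_int]
  refine sum_congr rfl fun x _ => ?_
  by_cases h2 : Even x.2
  · by_cases h3 : x ∈ S
    · rw [if_pos h2, if_pos h3, if_pos ⟨h2, h3⟩]
    · rw [if_pos h2, if_neg h3, if_neg fun h => h3 h.2]
  · rw [if_neg h2, if_neg fun h => h2 h.1]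

/-- **the upper bound for the window** -/
theorem win_up : ∃ C : ℝ, 0 < C ∧ ∀ (N : ℕ) (b l2 ρ : ℝ), 1 ≤ N → 0 ≤ b → 0 ≤ l2 → 0 ≤ ρ →
    (mwE N b).real {x | (x.1.length : ℝ) ≤ l2 * (ρ * N) ^ (4 / 3 : ℝ)} ≤ C * √l2 * ρ ^ (2 / 3 : ℝ) := by
  obtain ⟨C, hC, h⟩ := mw_le F.qb
  refine ⟨C, hC, fun N b l2 ρ hN hb hl hρ => ?_⟩
  obtain ⟨a, ha⟩ : ∃ a : ℝ, a = l2 * ρ ^ (4 / 3 : ℝ) := ⟨_, rfl⟩
  have ha0 : 0 ≤ a := by
    rw [ha]
    positivity
  have e1 : l2 * (ρ * N) ^ (4 / 3 : ℝ) = a * (N : ℝ) ^ (4 / 3 : ℝ) := by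
    rw [Real.mul_rpow hρ (Nat.cast_nonneg _), ha]
    ring
  have e2 : √a = √l2 * ρ ^ (2 / 3 : ℝ) := by
    rw [ha, Real.sqrt_mul hl, Real.sqrt_eq_rpow (ρ ^ (4 / 3 : ℝ)), ← Real.rpow_mul hρ]
    norm_num
  have h1 := h N a b 0 (fun x => if Even x.2 ∧ x ∈ {x : W3 × ℕ | (x.1.length : ℝ) ≤ l2 * (ρ * N) ^ (4 / 3 : ℝ)} then 1 else 0)
    hN ha0 hb le_rfl (fun n _ _ => by
      by_cases h3 : ((n : ℝ) + 1) ≤ a * (N : ℝ) ^ (4 / 3 : ℝ)
      · rw [if_pos h3, one_mul]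
        refine (sum_le_sum fun s _ => sum_le_sum fun m _ => show _ ≤ (1 : ℝ) from ?_).trans (le_of_eq ?_)
        · split_ifs <;> norm_num
        · simp only [sum_const, card_range, nsmul_eq_mul, mul_one]
          push_cast
          ring
      · rw [if_neg h3, zero_mul]
        refine (sum_eq_zero fun s _ => sum_eq_zero fun m _ => if_neg fun h4 => h3 ?_).le
        have h5 : (((clw s).length : ℕ) : ℝ) ≤ l2 * (ρ * N) ^ (4 / 3 : ℝ) := h4.2
        rw [length_clw, e1] at h5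
        push_cast at h5
        exact h5)
  rw [mw_int, zero_mul, add_zero, e2, ← mul_assoc] at h1
  rw [real_sum]
  exact h1

/-- the number of the even places in the window of an arm -/
lemma even_count {dl : ℝ} (hdl : 0 < dl) (hdl' : dl < 1 / 2) {l : ℕ} (hl : 8 / (1 / 2 - dl) ≤ l) :
    ∃ T : Finset ℕ, (∀ m ∈ T, Even m ∧ m < l ∧ (l : ℝ) ≤ 2 * m ∧ (m : ℝ) ≤ (1 - dl) * l) ∧
      (1 / 2 - dl) / 4 * l ≤ T.card := by
  have hg : 0 < 1 / 2 - dl := by linarith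
  rw [div_le_iff₀ hg] at hl
  have hl0 : (0 : ℝ) < l := by nlinarith
  obtain ⟨a, ha⟩ : ∃ a : ℕ, a = ⌈(l : ℝ) / 4⌉₊ := ⟨_, rfl⟩
  obtain ⟨b, hb⟩ : ∃ b : ℕ, b = ⌊(1 - dl) * l / 2⌋₊ := ⟨_, rfl⟩
  have a1 : (l : ℝ) / 4 ≤ a := by
    rw [ha]
    exact Nat.le_ceil _
  have a2 : (a : ℝ) < l / 4 + 1 := by
    rw [ha]
    exact Nat.ceil_lt_add_one (by positivity)
  have b1 : (b : ℝ) ≤ (1 - dl) * l / 2 := by
    rw [hb]
    refine Nat.floor_le (div_nonneg (mul_nonneg (by linarith) hl0.le) (by norm_num))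
  have b2 : (1 - dl) * l / 2 < b + 1 := by
    rw [hb]
    exact Nat.lt_floor_add_one _
  refine ⟨(Icc a b).image fun k => 2 * k, fun m hm => ?_, ?_⟩
  · rw [mem_image] at hm
    obtain ⟨k, hk, rfl⟩ := hm
    rw [mem_Icc] at hk
    have k1 : (a : ℝ) ≤ k := by exact_mod_cast hk.1
    have k2 : (k : ℝ) ≤ b := by exact_mod_cast hk.2
    refine ⟨even_two_mul k, ?_, ?_, ?_⟩
    · have : ((2 * k : ℕ) : ℝ) < l := by
        push_cast
        nlinarith
      exact_mod_cast this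
    · push_cast
      linarith
    · push_cast
      linarith
  · rw [card_image_of_injective _ (fun x y h => by
      have : 2 * x = 2 * y := h
      omega), Nat.card_Icc]
    have h1 : (b : ℝ) + 1 - a ≤ ((b + 1 - a : ℕ) : ℝ) := by
      have h2 : (b + 1 : ℕ) ≤ (b + 1 - a) + a := by omega
      have h3 : ((b + 1 : ℕ) : ℝ) ≤ ((b + 1 - a : ℕ) : ℝ) + a := by exact_mod_cast h2
      push_cast at h3
      linarith
    nlinarith

/-- **the words with two straight arms, with a second root, all scales**: a positive share of the window; `c`, `A` do not depend on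
the window -/
theorem n1_mw (K : ℕ) {i j : Fin 3} (hij : i ≠ j) {d1 dl : ℝ} (hd1 : 0 < d1) (hdl : 0 < dl) (hdl' : dl < 1 / 2) :
    ∃ A l0 c : ℝ, 0 < A ∧ 0 < l0 ∧ 0 < c ∧ ∀ l1 l2 : ℝ, l0 ≤ l1 → 3 * l1 ≤ l2 → ∀ ρ : ℝ, 0 < ρ → ∃ N0 : ℕ, ∀ N : ℕ,
      N0 ≤ N → ∀ b : ℝ, l2 * ρ ^ (4 / 3 : ℝ) ≤ b → c * √l1 * ρ ^ (2 / 3 : ℝ) ≤
        (mwE N b).real {x | l1 * (ρ * N) ^ (4 / 3 : ℝ) ≤ x.1.length ∧ (x.1.length : ℝ) ≤ l2 * (ρ * N) ^ (4 / 3 : ℝ) ∧
          (x.1.length : ℝ) ≤ 2 * x.2 ∧ (x.2 : ℝ) ≤ (1 - dl) * x.1.length ∧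
          x.1 ∈ RW K (d1 * (ρ * N)) (A * (ρ * N) ^ (4 / 3 : ℝ)) i j x.1.length} := by
  obtain ⟨c, A, b0, d0, hc, hA, hb0, hd0, h⟩ := N1W.n1W K hij
  have hg : 0 < 1 / 2 - dl := by linarith
  refine ⟨A * d1 ^ (4 / 3 : ℝ), b0 * d1 ^ (4 / 3 : ℝ), (1 / 2 - dl) / 4 * c, by positivity, by positivity, by positivity,
    fun l1 l2 hl1 hl2 ρ hρ => ?_⟩
  have hl10 : 0 < l1 := lt_of_lt_of_le (by positivity) hl1
  obtain ⟨N0, hN0⟩ : ∃ N0 : ℕ, N0 = ⌈1 / ρ⌉₊ + ⌈d0 / (d1 * ρ)⌉₊ + ⌈(2 / l1 + 8 / (1 / 2 - dl) / l1) / ρ⌉₊ + 1 := ⟨_, rfl⟩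
  refine ⟨N0, fun N hN b hb => ?_⟩
  have hN1 : (1 : ℝ) ≤ N := by exact_mod_cast (by omega : 1 ≤ N)
  have hNp : (0 : ℝ) < N := by linarith
  have hx1 : 1 ≤ ρ * N := by
    have e1 : 1 / ρ ≤ N := by
      refine (Nat.le_ceil _).trans ?_
      exact_mod_cast (by omega : ⌈1 / ρ⌉₊ ≤ N)
    rw [div_le_iff₀ hρ] at e1
    linarith
  have hx2 : d0 ≤ d1 * (ρ * N) := by
    have e1 : d0 / (d1 * ρ) ≤ N := by
      refine (Nat.le_ceil _).trans ?_
      exact_mod_cast (by omega : ⌈d0 / (d1 * ρ)⌉₊ ≤ N)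
    rw [div_le_iff₀ (by positivity)] at e1
    linarith
  have hx3 : 2 / l1 + 8 / (1 / 2 - dl) / l1 ≤ ρ * N := by
    have e1 : (2 / l1 + 8 / (1 / 2 - dl) / l1) / ρ ≤ N := by
      refine (Nat.le_ceil _).trans ?_
      exact_mod_cast (by omega : ⌈(2 / l1 + 8 / (1 / 2 - dl) / l1) / ρ⌉₊ ≤ N)
    rw [div_le_iff₀ hρ] at e1
    linarith
  obtain ⟨L, hL⟩ : ∃ L : ℝ, L = (ρ * N) ^ (4 / 3 : ℝ) := ⟨_, rfl⟩
  have hLx : ρ * N ≤ L := by
    rw [hL]
    calc ρ * N = (ρ * N) ^ (1 : ℝ) := (Real.rpow_one _).symm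
      _ ≤ _ := Real.rpow_le_rpow_of_exponent_le hx1 (by norm_num)
  have hL0 : 0 < L := by linarith
  have hL2 : 2 + 8 / (1 / 2 - dl) ≤ l1 * L := by
    have e1 : 2 / l1 + 8 / (1 / 2 - dl) / l1 ≤ L := hx3.trans hLx
    have e2 : l1 * (2 / l1 + 8 / (1 / 2 - dl) / l1) ≤ l1 * L := mul_le_mul_of_nonneg_left e1 hl10.le
    have e3 : l1 * (2 / l1 + 8 / (1 / 2 - dl) / l1) = 2 + 8 / (1 / 2 - dl) := by
      field_simp
    linarith
  have h8 : 0 < 8 / (1 / 2 - dl) := by positivity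
  obtain ⟨n, hn⟩ : ∃ n : ℕ, n = ⌈l1 * L⌉₊ := ⟨_, rfl⟩
  have n1 : l1 * L ≤ n := by
    rw [hn]
    exact Nat.le_ceil _
  have n2 : (n : ℝ) < l1 * L + 1 := by
    rw [hn]
    exact Nat.ceil_lt_add_one (by positivity)
  have n3 : 2 * (n : ℝ) ≤ l2 * L := by
    have : 3 * l1 * L ≤ l2 * L := mul_le_mul_of_nonneg_right hl2 hL0.le
    linarith
  have n4 : (0 : ℝ) < n := by linarith
  have edL : (d1 * (ρ * N)) ^ (4 / 3 : ℝ) = d1 ^ (4 / 3 : ℝ) * L := by
    rw [hL, Real.mul_rpow hd1.le (by positivity)]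
  have h1 := h (d1 * (ρ * N)) n hx2 (by
    rw [edL]
    have : b0 * d1 ^ (4 / 3 : ℝ) * L ≤ l1 * L := mul_le_mul_of_nonneg_right hl1 hL0.le
    linarith)
  rw [edL, ← mul_assoc A (d1 ^ (4 / 3 : ℝ)) L] at h1
  have hcnt : ∀ l : ℕ, ∃ T : Finset ℕ, l ∈ Icc n (2 * n) → (∀ m ∈ T, Even m ∧ m < l ∧ (l : ℝ) ≤ 2 * m ∧ (m : ℝ) ≤ (1 - dl) * l) ∧
      (1 / 2 - dl) / 4 * l ≤ T.card := by
    intro l
    by_cases hl : l ∈ Icc n (2 * n)
    · obtain ⟨T, hT⟩ := even_count hdl hdl' (l := l) (by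
        rw [mem_Icc] at hl
        have : (n : ℝ) ≤ l := by exact_mod_cast hl.1
        linarith)
      exact ⟨T, fun _ => hT⟩
    · exact ⟨∅, fun h => absurd h hl⟩
  choose T hT using hcnt
  rw [← hL, real_sum]
  obtain ⟨X, hX⟩ : ∃ X : Finset (W3 × ℕ), X = (Icc n (2 * n)).biUnion fun l =>
      (N1W.RW_fin K (d1 * (ρ * N)) (A * d1 ^ (4 / 3 : ℝ) * L) i j l).toFinset ×ˢ T l := ⟨_, rfl⟩
  have hXm : ∀ x ∈ X, x.1 ∈ RW K (d1 * (ρ * N)) (A * d1 ^ (4 / 3 : ℝ) * L) i j x.1.length ∧ x.1.length ∈ Icc n (2 * n) ∧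
      x.2 ∈ T x.1.length := by
    intro x hx
    rw [hX, mem_biUnion] at hx
    obtain ⟨l, hl, hx⟩ := hx
    rw [mem_product, Set.Finite.mem_toFinset] at hx
    have e : x.1.length = l := hx.1.1.2
    rw [e]
    exact ⟨hx.1, hl, hx.2⟩
  have hfug : (0 : ℝ) < fug := by
    rw [NTSF.fug_eq]
    exact HexObs.xc_pos
  have hNN : (0 : ℝ) < (N : ℝ) ^ (-(2 / 3) : ℝ) := by positivity
  have hsub : X ⊆ TN N b := by
    intro x hx
    obtain ⟨a1, a2, a3⟩ := hXm x hx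
    rw [mem_TN]
    refine ⟨a1.1.1, ((hT _ a2).1 _ a3).2.1, ?_⟩
    rw [mem_Icc] at a2
    have e1 : (x.1.length : ℝ) ≤ 2 * n := by exact_mod_cast a2.2
    have e2 : l2 * L ≤ b * (N : ℝ) ^ (4 / 3 : ℝ) := by
      rw [hL, Real.mul_rpow hρ.le hNp.le, ← mul_assoc]
      exact mul_le_mul_of_nonneg_right hb (by positivity)
    linarith
  refine le_trans ?_ (sum_le_sum_of_subset_of_nonneg hsub fun x _ _ => mul_nonneg (wN_nonneg _ _) (by split_ifs <;> norm_num))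
  refine le_trans ?_ (sum_le_sum (f := fun x => wN N x.1) fun x hx => ?_)
  swap
  · obtain ⟨a1, a2, a3⟩ := hXm x hx
    obtain ⟨b1, b2, b3, b4⟩ := (hT _ a2).1 _ a3
    rw [mem_Icc] at a2
    have c1 : (n : ℝ) ≤ x.1.length := by exact_mod_cast a2.1
    have c2 : (x.1.length : ℝ) ≤ 2 * n := by exact_mod_cast a2.2
    rw [if_pos ⟨b1, show l1 * L ≤ x.1.length by linarith, by linarith, b3, b4, a1⟩, mul_one]
  rw [hX, sum_biUnion]
  swap
  · intro l _ l' _ hne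
    rw [Function.onFun, disjoint_left]
    intro x hx hx'
    rw [mem_product, Set.Finite.mem_toFinset] at hx hx'
    exact hne (hx.1.1.2.symm.trans hx'.1.1.2)
  have e2 : ∀ l ∈ Icc n (2 * n), (N : ℝ) ^ (-(2 / 3) : ℝ) * ((1 / 2 - dl) / 4 * n) *
      (((RW K (d1 * (ρ * N)) (A * d1 ^ (4 / 3 : ℝ) * L) i j l).ncard : ℝ) * fug ^ l) ≤
      ∑ x ∈ (N1W.RW_fin K (d1 * (ρ * N)) (A * d1 ^ (4 / 3 : ℝ) * L) i j l).toFinset ×ˢ T l, wN N x.1 := by
    intro l hl
    have f1 := (hT l hl).2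
    have f2 : (n : ℝ) ≤ l := by exact_mod_cast (mem_Icc.1 hl).1
    have f3 : ∑ x ∈ (N1W.RW_fin K (d1 * (ρ * N)) (A * d1 ^ (4 / 3 : ℝ) * L) i j l).toFinset ×ˢ T l, wN N x.1 =
        ∑ x ∈ (N1W.RW_fin K (d1 * (ρ * N)) (A * d1 ^ (4 / 3 : ℝ) * L) i j l).toFinset ×ˢ T l,
          (N : ℝ) ^ (-(2 / 3) : ℝ) * fug ^ l := by
      refine sum_congr rfl fun x hx => ?_
      rw [mem_product, Set.Finite.mem_toFinset] at hx
      unfold wN
      rw [hx.1.1.2]
    rw [f3, sum_const, card_product, nsmul_eq_mul,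
      ← Set.ncard_eq_toFinset_card _ (N1W.RW_fin K (d1 * (ρ * N)) (A * d1 ^ (4 / 3 : ℝ) * L) i j l)]
    push_cast
    have f4 : (1 / 2 - dl) / 4 * n ≤ (T l).card := by
      refine le_trans ?_ f1
      exact mul_le_mul_of_nonneg_left f2 (by positivity)
    calc _ = ((RW K (d1 * (ρ * N)) (A * d1 ^ (4 / 3 : ℝ) * L) i j l).ncard : ℝ) * ((1 / 2 - dl) / 4 * n) *
          ((N : ℝ) ^ (-(2 / 3) : ℝ) * fug ^ l) := by ring
      _ ≤ _ := mul_le_mul_of_nonneg_right (mul_le_mul_of_nonneg_left f4 (Nat.cast_nonneg _)) (by positivity)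
  refine le_trans ?_ (sum_le_sum e2)
  rw [← mul_sum]
  have e3 : (N : ℝ) ^ (-(2 / 3) : ℝ) * ((1 / 2 - dl) / 4 * n) * (c * (n : ℝ) ^ (-(1 / 2) : ℝ)) ≤
      (N : ℝ) ^ (-(2 / 3) : ℝ) * ((1 / 2 - dl) / 4 * n) * ∑ m ∈ Icc n (2 * n),
        ((RW K (d1 * (ρ * N)) (A * d1 ^ (4 / 3 : ℝ) * L) i j m).ncard : ℝ) * fug ^ m :=
    mul_le_mul_of_nonneg_left h1 (by positivity)
  refine le_trans ?_ e3
  have e4 : (n : ℝ) * (n : ℝ) ^ (-(1 / 2) : ℝ) = √n := by
    rw [Real.sqrt_eq_rpow, ← Real.rpow_one_add' n4.le (by norm_num)]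
    norm_num
  have e5 : √l1 * √L ≤ √n := by
    rw [← Real.sqrt_mul hl10.le]
    exact Real.sqrt_le_sqrt n1
  have e6 : (N : ℝ) ^ (-(2 / 3) : ℝ) * √L = ρ ^ (2 / 3 : ℝ) := by
    rw [Real.sqrt_eq_rpow, hL, ← Real.rpow_mul (by positivity), Real.mul_rpow hρ.le hNp.le]
    norm_num
    rw [mul_comm, mul_assoc, ← Real.rpow_add hNp]
    norm_num
  calc (1 / 2 - dl) / 4 * c * √l1 * ρ ^ (2 / 3 : ℝ) = (N : ℝ) ^ (-(2 / 3) : ℝ) * ((1 / 2 - dl) / 4) * c * (√l1 * √L) := by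
        rw [← e6]
        ring
    _ ≤ (N : ℝ) ^ (-(2 / 3) : ℝ) * ((1 / 2 - dl) / 4) * c * √n := mul_le_mul_of_nonneg_left e5 (by positivity)
    _ = _ := by
        rw [← e4]
        ring

/-! ### 3. Symmetries -/

/-- the arm under a symmetry of the lattice -/
lemma ArmW_L (T : LSym) {K d : ℝ} {e : ℂ} {p : ℕ → ℂ} {s : ℕ} (h : ArmW K d e p s) :
    ArmW K d (T.L e) (fun i => T.L (p i)) s := by
  constructor
  · intro i hi
    obtain ⟨τ, h1, h2⟩ := h.near i hi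
    refine ⟨τ, h1, ?_⟩
    have e1 : T.L (p i) - (τ : ℂ) * T.L e = T.L (p i - (τ : ℂ) * e) := by
      have e2 : (τ : ℂ) * e = τ • e := (Complex.real_smul).symm
      have e3 : (τ : ℂ) * T.L e = τ • T.L e := (Complex.real_smul).symm
      rw [e2, e3, map_sub, map_smul]
    rw [e1, T.L.norm_map]
    exact h2
  · intro y hy hy'
    obtain ⟨c, c1, c2, c3, c4, c5, c6⟩ := h.cut y hy hy'
    refine ⟨c, c1, ?_, ?_, ?_, fun i hi => ?_, fun i hi hi' => ?_⟩
    · rw [lv_L]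
      exact c2
    · rw [lv_L]
      exact c3
    · show T.L (p (c + 1)) = T.L (p c) + T.L e
      rw [c4, map_add]
    · rw [lv_L, lv_L]
      exact c5 i hi
    · rw [lv_L, lv_L]
      exact c6 i hi hi'

/-- **the two straight arms under a symmetry of the lattice** -/
theorem REvW_mp (T : LSym) {K d x : ℝ} {e f : ℂ} {w : W3} (h : REvW K d e f x w) : REvW K d (T.L e) (T.L f) x (mp T w) := by
  obtain ⟨s, t, h1, h2, h3, h4, h5, h6⟩ := h
  have e1 : ps (mp T w) = fun i => T.L (ps w i) := funext fun i => ps_mp T w i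
  refine ⟨s, t, h1, h2, by rw [mp_length]; exact h3, ?_, ?_, fun i hi hi' => ?_⟩
  · rw [e1]
    exact ArmW_L T h4
  · rw [mp_length, e1]
    exact ArmW_L T h5
  · rw [mp_length] at hi'
    rw [ps_mp, T.L.norm_map]
    exact h6 i hi hi'

/-- the words with two straight arms, all directions -/
theorem RW_mp (T : LSym) {K d x : ℝ} {i j : Fin 3} {m : ℕ} {w : W3} (h : w ∈ RW K d x i j m) :
    mp T w ∈ RW K d x (T.σ i) (T.σ j) m := by
  obtain ⟨⟨h1, h2⟩, h3⟩ := h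
  have h4 := REvW_mp T h3
  have e1 : ∀ a : Fin 3, T.L (ax a) = ax (T.σ a) := fun a => by
    have := L_ev T a
    rwa [ev_step, ev_step] at this
  rw [e1, e1] at h4
  exact ⟨⟨Cl_mp.2 h1, by rw [mp_length]; exact h2⟩, h4⟩

/-- the integral over the numbers of letters -/
lemma mwE_cln {N : ℕ} {b : ℝ} (f : W3 × ℕ → ℝ) : ∫ x, f x ∂(mwE N b) = (N : ℝ) ^ (-(2 / 3) : ℝ) *
    ∑ n ∈ (Finset.range ⌊b * (N : ℝ) ^ (4 / 3 : ℝ)⌋₊).filter Odd, fug ^ (n + 1) *
      ∑ m ∈ (Finset.range (n + 1)).filter Even, ∑' w : Cln (n + 1), f (w, m) := by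
  rw [mwE_int, mw_pol]
  congr 1
  refine sum_congr rfl fun n hn => ?_
  rw [mem_filter] at hn
  congr 1
  rw [sum_comm, sum_filter]
  refine sum_congr rfl fun m _ => ?_
  by_cases hm : Even m
  · rw [if_pos hm, ← sum_pol' hn.2 fun w => f (w, m)]
    refine sum_congr rfl fun s _ => ?_
    rw [if_pos hm]
  · rw [if_neg hm]
    exact sum_eq_zero fun s _ => if_neg hm

/-- **the closed words with two roots are invariant under the symmetries of the lattice** -/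
theorem mwE_mp (T : LSym) {N : ℕ} {b : ℝ} (f : W3 × ℕ → ℝ) : ∫ x, f (mp T x.1, x.2) ∂(mwE N b) = ∫ x, f x ∂(mwE N b) := by
  rw [mwE_cln, mwE_cln]
  congr 1
  refine sum_congr rfl fun n _ => ?_
  congr 1
  refine sum_congr rfl fun m _ => ?_
  exact tsum_mp_Cln T (n + 1) fun w => f (w, m)

/-- **the same arc read from the other root** -/
theorem mwE_bq {N : ℕ} {b : ℝ} (f : W3 × ℕ → ℝ) :
    ∫ x, f ((x.1.rotate x.2).reverse, x.2) ∂(mwE N b) = ∫ x, f x ∂(mwE N b) := by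
  rw [mwE_cln, mwE_cln]
  congr 1
  refine sum_congr rfl fun n _ => ?_
  congr 1
  refine sum_congr rfl fun m hm => ?_
  rw [mem_filter] at hm
  exact tsum_mv Arm.bq hm.2 fun w => f (w, m)

/-- the arc read from the other root -/
lemma take_bq {w : W3} {m : ℕ} (hm : m ≤ w.length) : (w.rotate m).reverse.take m = (w.take m).reverse := by
  rw [List.rotate_eq_drop_append_take hm, List.reverse_append]
  exact List.take_left' (by simp; omega)

end Pool.Agent.ROT.F3.C0N
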