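import Pool.Agent.ROT.F3Dbl
import Pool.Agent.ROT.F3Sym

/-!
# ROT / F3GW (helper82): gates of words, drops and takes (word part of the row JM)

Frame W3, any unit vector `d` (native direction: `ev a`).
* `lv_ev_ps` : the levels of the vertices in a native direction; `one_le_lv` : strictly right = at least one; `cutC_iff`, `restC_iff` :
  cuts and rests in the form of SCF (first step = `ev a`, levels at least + 1);
* `GPr d a w k` : the end of `w.take k` is the first cut (own prefix) with level at least `a`; `GW d a r ρ w k` : start gate;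
* **`gp_drop`** : if all vertices up to `i` (even) have levels `< a`, then the gates of `w` at the level `a` are the gates of `w.drop i`
  at the level `a - level (i)`; `gp_take`, `rest_take` : the gates of `w.take j`;
* `gw_iff` : the product form.
-/

set_option autoImplicit false

namespace Pool.Agent.ROT.F3

open Finset ComplexConjugate
open scoped ENNReal Classical
open Pool.Agent.NTS.Res (step pos saw fug)
open NTSF (om)

/-! ### levels in the native directions -/

lemma lv_ev (a : Fin 3) (z : ℂ) : lv (ev a) z = ((rS (-a)).L z).re := by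
  rw [← dt_ev, dt_mul_conj, mul_comm]
  rfl

lemma lv_one (z : ℂ) : lv 1 z = z.re := by
  unfold lv
  rw [map_one, one_mul]

lemma lv_ev_ev (a b : Fin 3) : lv (ev a) (ev b) = if a = b then 1 else -1 / 2 := by
  rw [lv_ev, L_ev, rS_σ]
  have h0 : (ev 0).re = 1 := by rw [ev_zero, Complex.one_re]
  have h1 : (ev 1).re = -1 / 2 := by
    unfold ev
    rw [show ((1 : Fin 3) : ℕ) = 1 from rfl, pow_one, Pool.Agent.PMA.LimR.om_re]
  have h2 : (ev 2).re = -1 / 2 := by
    unfold ev
    rw [show ((2 : Fin 3) : ℕ) = 2 from rfl, Pool.Agent.PMA.LimR.om_sq, Complex.sub_re, Complex.neg_re, Complex.one_re,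
      Pool.Agent.PMA.LimR.om_re]
    norm_num
  fin_cases a <;> fin_cases b <;> first | exact h0 | exact h1 | exact h2

lemma lv_neg (d z : ℂ) : lv d (-z) = -lv d z := by
  unfold lv
  rw [mul_neg, Complex.neg_re]

/-- **the levels of the vertices** -/
lemma lv_ev_ps (a : Fin 3) (w : W3) : ∀ j : ℕ, j ≤ w.length →
    (Even j → ∃ z : ℤ, lv (ev a) (ps w j) = 3 / 2 * z) ∧ (Odd j → ∃ z : ℤ, lv (ev a) (ps w j) = 1 + 3 / 2 * z) := by
  intro j
  induction j with
  | zero =>
    intro _
    refine ⟨fun _ => ⟨0, by simp⟩, fun h => ?_⟩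
    exact absurd h (by decide)
  | succ j ih =>
    intro hj
    obtain ⟨i1, i2⟩ := ih (by omega)
    have hs : ps w (j + 1) = ps w j + step j (w.get ⟨j, hj⟩) := by rw [ps_succ, st_of_lt (by omega)]
    obtain ⟨b, hb⟩ : ∃ b : Fin 3, b = w.get ⟨j, hj⟩ := ⟨_, rfl⟩
    rw [← hb] at hs
    refine ⟨fun h => ?_, fun h => ?_⟩
    · have ho : Odd j := by
        rcases Nat.even_or_odd j with h1 | h1
        · exact absurd h (by rw [Nat.even_add_one]; exact not_not.2 h1)
        · exact h1
      obtain ⟨z, hz⟩ := i2 ho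
      rw [hs, lv_add, hz, step_odd ho, lv_neg, lv_ev_ev]
      by_cases hab : a = b
      · exact ⟨z, by rw [if_pos hab]; ring⟩
      · exact ⟨z + 1, by rw [if_neg hab]; push_cast; ring⟩
    · have he : Even j := by
        rcases Nat.even_or_odd j with h1 | h1
        · exact h1
        · exact absurd h (by rw [Nat.odd_add_one]; exact not_not.2 h1)
      obtain ⟨z, hz⟩ := i1 he
      rw [hs, lv_add, hz, step_even he, lv_ev_ev]
      by_cases hab : a = b
      · exact ⟨z, by rw [if_pos hab]; ring⟩
      · exact ⟨z - 1, by rw [if_neg hab]; push_cast; ring⟩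

/-- **strictly right of an even vertex = at least one level right of it** -/
lemma one_le_lv (a : Fin 3) {w : W3} {k j : ℕ} (ek : Even k) (hk : k ≤ w.length) (hj : j ≤ w.length)
    (h : lv (ev a) (ps w k) < lv (ev a) (ps w j)) : lv (ev a) (ps w k) + 1 ≤ lv (ev a) (ps w j) := by
  obtain ⟨z, hz⟩ := (lv_ev_ps a w k hk).1 ek
  rcases Nat.even_or_odd j with hj1 | hj1
  · obtain ⟨z', hz'⟩ := (lv_ev_ps a w j hj).1 hj1
    rw [hz, hz'] at h ⊢
    have h1 : (z : ℝ) < z' := by linarith
    have h2 : z + 1 ≤ z' := by exact_mod_cast h1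
    have h3 : (z : ℝ) + 1 ≤ z' := by exact_mod_cast h2
    linarith
  · obtain ⟨z', hz'⟩ := (lv_ev_ps a w j hj).2 hj1
    rw [hz, hz'] at h ⊢
    have h1 : (z : ℝ) < z' + 1 := by linarith
    have h2 : z < z' + 1 := by exact_mod_cast h1
    have h3 : (z : ℝ) ≤ z' := by exact_mod_cast (by omega : z ≤ z')
    linarith

/-- the first step behind a cut -/
lemma first_step (a : Fin 3) {w : W3} {k : ℕ} (ek : Even k) (hk : k < w.length)
    (h : lv (ev a) (ps w k) < lv (ev a) (ps w (k + 1))) : ps w (k + 1) = ps w k + ev a := by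
  obtain ⟨b, hb⟩ : ∃ b : Fin 3, b = w.get ⟨k, hk⟩ := ⟨_, rfl⟩
  have hs : ps w (k + 1) = ps w k + ev b := by rw [ps_succ, st_of_lt hk, ← hb, step_even ek]
  rw [hs, lv_add, lv_ev_ev] at h
  by_cases hab : a = b
  · rw [hs, hab]
  · rw [if_neg hab] at h
    linarith

/-- **cuts, the form of SCF** -/
lemma cutC_iff (a : Fin 3) {p : W3} {k : ℕ} (ek : Even k) (hk : k < p.length) :
    CutC (ev a) p k ↔ (∀ j : ℕ, j ≤ k → lv (ev a) (ps p j) ≤ lv (ev a) (ps p k)) ∧ ps p (k + 1) = ps p k + ev a ∧
      ∀ j : ℕ, k < j → j ≤ p.length → lv (ev a) (ps p k) + 1 ≤ lv (ev a) (ps p j) := by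
  constructor
  · intro h
    exact ⟨h.1, first_step a ek hk (h.2 (k + 1) (by omega) (by omega)),
      fun j h1 h2 => one_le_lv a ek hk.le h2 (h.2 j h1 h2)⟩
  · rintro ⟨h1, -, h3⟩
    exact ⟨h1, fun j h4 h5 => by linarith [h3 j h4 h5]⟩

/-- **rests, the form of SCF** -/
lemma restC_iff (a : Fin 3) {ρ : ℝ} (hρ : 1 ≤ ρ) {R : W3} (h0 : 0 < R.length) :
    RestC (ev a) ρ R ↔ ps R 1 = ev a ∧ ∀ k : ℕ, 0 < k → k ≤ R.length → ‖ps R k‖ ≤ ρ → 1 ≤ lv (ev a) (ps R k) := by
  constructor
  · intro h
    have h1 : ‖ps R 1‖ = 1 := by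
      rw [ps_succ, ps_zero, zero_add, st_of_lt h0, step_even Even.zero, ev_norm]
    have h2 : ps R 1 = ev a := by
      have h3 := first_step a (w := R) Even.zero h0 (by
        rw [ps_zero, lv_zero]
        exact h 1 (by omega) (by omega) (by rw [h1]; exact hρ))
      rw [ps_zero, zero_add, zero_add] at h3
      exact h3
    refine ⟨h2, fun k h3 h4 h5 => ?_⟩
    have := one_le_lv a (w := R) Even.zero (Nat.zero_le _) h4 (by
      rw [ps_zero, lv_zero]
      exact h k h3 h4 h5)
    rwa [ps_zero, lv_zero, zero_add] at this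
  · rintro ⟨-, h⟩ k h3 h4 h5
    linarith [h k h3 h4 h5]

/-! ### gates -/

/-- **first cut of the own prefix with level at least `a`** -/
structure GPr (d : ℂ) (a : ℝ) (w : W3) (k : ℕ) : Prop where
  ev : Even k
  le : k ≤ w.length
  left : ∀ i : ℕ, i ≤ k → lv d (ps w i) ≤ lv d (ps w k)
  lev : a ≤ lv d (ps w k)
  fst : ∀ k' : ℕ, Even k' → k' < k → CutC d (w.take k) k' → lv d (ps w k') < a

/-- **start gate**: `GPr`, the prefix has diameter at most `r`, the rest is strictly right in the ball `ρ` -/
structure GW (d : ℂ) (a r ρ : ℝ) (w : W3) (k : ℕ) : Prop where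
  g : GPr d a w k
  lt : k < w.length
  dm : ∀ i j : ℕ, i ≤ k → j ≤ k → ‖ps w i - ps w j‖ ≤ r
  rest : RestC d ρ (w.drop k)

lemma ps_drp (w : W3) {i : ℕ} (ei : Even i) (hi : i ≤ w.length) (j : ℕ) : ps (w.drop i) j = ps w (i + j) - ps w i :=
  ps_append_drop w hi ei j

lemma cutC_take {d : ℂ} {w : W3} {j k : ℕ} (hk : k ≤ j) (hj : j ≤ w.length) : CutC d (w.take j) k ↔
    (∀ i : ℕ, i ≤ k → lv d (ps w i) ≤ lv d (ps w k)) ∧ ∀ i : ℕ, k < i → i ≤ j → lv d (ps w k) < lv d (ps w i) := by
  have hl : (w.take j).length = j := by rw [List.length_take, min_eq_left hj]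
  unfold CutC
  rw [hl, ps_take _ hk hj]
  constructor
  · rintro ⟨h1, h2⟩
    refine ⟨fun i hi => ?_, fun i hi hi' => ?_⟩
    · rw [← ps_take w (hi.trans hk) hj]
      exact h1 i hi
    · rw [← ps_take w hi' hj]
      exact h2 i hi hi'
  · rintro ⟨h1, h2⟩
    refine ⟨fun i hi => ?_, fun i hi hi' => ?_⟩
    · rw [ps_take w (hi.trans hk) hj]
      exact h1 i hi
    · rw [ps_take w hi' hj]
      exact h2 i hi hi'

/-- the cuts of a suffix -/
lemma cutC_drop_take {d : ℂ} {w : W3} {i k k' : ℕ} (ei : Even i) (hi : i ≤ k') (hk' : k' ≤ k) (hk : k ≤ w.length)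
    (h : ∀ j : ℕ, j ≤ i → lv d (ps w j) ≤ lv d (ps w k')) :
    CutC d (w.take k) k' ↔ CutC d ((w.drop i).take (k - i)) (k' - i) := by
  have hl : (w.drop i).length = w.length - i := List.length_drop
  have hp : ∀ j, ps (w.drop i) j = ps w (i + j) - ps w i := ps_drp w ei (by omega)
  rw [cutC_take hk' hk, cutC_take (by omega) (by omega)]
  simp only [hp, lv_sub, show i + (k' - i) = k' by omega]
  constructor
  · rintro ⟨h1, h2⟩
    exact ⟨fun j hj => by linarith [h1 (i + j) (by omega)], fun j hj hj' => by linarith [h2 (i + j) (by omega) (by omega)]⟩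
  · rintro ⟨h1, h2⟩
    refine ⟨fun j hj => ?_, fun j hj hj' => ?_⟩
    · rcases le_or_gt j i with h3 | h3
      · exact h j h3
      · have := h1 (j - i) (by omega)
        rw [show i + (j - i) = j by omega] at this
        linarith
    · have := h2 (j - i) (by omega) (by omega)
      rw [show i + (j - i) = j by omega] at this
      linarith

/-- a gate with level at least `a` is behind all the vertices up to `i`, if their levels are smaller than `a` -/
lemma GPr.gt {d : ℂ} {a : ℝ} {w : W3} {i k : ℕ} (h : GPr d a w k) (hi : ∀ j : ℕ, j ≤ i → lv d (ps w j) < a) : i < k := by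
  by_contra hc
  push Not at hc
  linarith [hi k hc, h.lev]

/-- **drops**: all vertices up to `i` have levels `< a`: the gates of `w` at the level `a` are the gates of `w.drop i` -/
theorem gp_drop {d : ℂ} {a : ℝ} {w : W3} {i k : ℕ} (ei : Even i) (hik : i ≤ k) (hk : k ≤ w.length)
    (h : ∀ j : ℕ, j ≤ i → lv d (ps w j) < a) :
    GPr d a w k ↔ GPr d (a - lv d (ps w i)) (w.drop i) (k - i) := by
  have hl : (w.drop i).length = w.length - i := List.length_drop
  have hp : ∀ j, ps (w.drop i) j = ps w (i + j) - ps w i := ps_drp w ei (by omega)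
  have hpk : lv d (ps (w.drop i) (k - i)) = lv d (ps w k) - lv d (ps w i) := by
    rw [hp, lv_sub, show i + (k - i) = k by omega]
  constructor
  · intro g
    refine ⟨(Nat.even_sub hik).2 ⟨fun _ => ei, fun _ => g.ev⟩, by omega, fun j hj => ?_, ?_, fun k' ek' hk' hc => ?_⟩
    · rw [hpk, hp, lv_sub]
      linarith [g.left (i + j) (by omega)]
    · rw [hpk]
      linarith [g.lev]
    · by_contra hlt
      push Not at hlt
      rw [hp, lv_sub] at hlt
      have h1 : a ≤ lv d (ps w (i + k')) := by linarith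
      have h2 := (cutC_drop_take (d := d) (w := w) (i := i) (k := k) (k' := i + k') ei (by omega) (by omega) hk
        (fun j hj => by linarith [h j hj])).2 (by rwa [show i + k' - i = k' by omega])
      linarith [g.fst (i + k') (ei.add ek') (by omega) h2]
  · intro g
    have h0 : a ≤ lv d (ps w k) := by
      have := g.lev
      rw [hpk] at this
      linarith
    have ek : Even k := by
      have := ei.add g.ev
      rwa [show i + (k - i) = k by omega] at this
    refine ⟨ek, hk, fun j hj => ?_, h0, fun k' ek' hk' hc => ?_⟩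
    · rcases le_or_gt j i with h1 | h1
      · linarith [h j h1]
      · have := g.left (j - i) (by omega)
        rw [hpk, hp, lv_sub, show i + (j - i) = j by omega] at this
        linarith
    · by_contra hlt
      push Not at hlt
      have h1 : i < k' := by
        by_contra h1
        push Not at h1
        linarith [h k' h1]
      have h2 := (cutC_drop_take (d := d) (w := w) (i := i) (k := k) (k' := k') ei h1.le hk'.le hk
        (fun j hj => by linarith [h j hj])).1 hc
      have h3 := g.fst (k' - i) ((Nat.even_sub h1.le).2 ⟨fun _ => ei, fun _ => ek'⟩) (by omega) h2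
      rw [hp, lv_sub, show i + (k' - i) = k' by omega] at h3
      linarith

/-- drops, the level over the vertex `i` -/
theorem gp_drop' {d : ℂ} {m : ℝ} {w : W3} {i k : ℕ} (ei : Even i) (hik : i ≤ k) (hk : k ≤ w.length)
    (h : ∀ j : ℕ, j ≤ i → lv d (ps w j) < lv d (ps w i) + m) :
    GPr d (lv d (ps w i) + m) w k ↔ GPr d m (w.drop i) (k - i) := by
  have := gp_drop (d := d) (a := lv d (ps w i) + m) ei hik hk h
  rwa [show lv d (ps w i) + m - lv d (ps w i) = m by ring] at this

/-- **the second gate over a first gate `c`** is the first cut of the suffix -/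
theorem GPr.next {d : ℂ} {a m : ℝ} {w : W3} {c k : ℕ} (hc : GPr d a w c) (hm : 0 < m) (hck : c ≤ k) (hk : k ≤ w.length) :
    GPr d (lv d (ps w c) + m) w k ↔ GPr d m (w.drop c) (k - c) :=
  gp_drop' hc.ev hck hk fun j hj => by linarith [hc.left j hj]

/-- **two words which agree behind a vertex**: the gates at the levels above the prefixes are the same -/
theorem gp_common {d : ℂ} {m : ℝ} {w w' : W3} {i i' : ℕ} (ei : Even i) (ei' : Even i') (hi : i ≤ w.length) (hi' : i' ≤ w'.length)
    (he : w.drop i = w'.drop i') (h : ∀ j : ℕ, j ≤ i → lv d (ps w j) < lv d (ps w i) + m)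
    (h' : ∀ j : ℕ, j ≤ i' → lv d (ps w' j) < lv d (ps w' i') + m) (k : ℕ) :
    GPr d (lv d (ps w i) + m) w (i + k) ↔ GPr d (lv d (ps w' i') + m) w' (i' + k) := by
  have hl : w.length - i = w'.length - i' := by
    have := congrArg List.length he
    rwa [List.length_drop, List.length_drop] at this
  rcases le_or_gt (i + k) w.length with hk | hk
  · rw [gp_drop' ei (by omega) hk h, gp_drop' ei' (by omega) (by omega) h', he, show i + k - i = i' + k - i' by omega]
  · exact ⟨fun g => absurd g.le (by omega), fun g => absurd g.le (by omega)⟩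

/-- takes: the own prefix -/
theorem gp_take {d : ℂ} {a : ℝ} {w : W3} {j k : ℕ} (hk : k ≤ j) (hj : j ≤ w.length) :
    GPr d a (w.take j) k ↔ GPr d a w k := by
  have hl : (w.take j).length = j := by rw [List.length_take, min_eq_left hj]
  have ht : (w.take j).take k = w.take k := by rw [List.take_take, min_eq_left hk]
  have hp : ∀ i, i ≤ k → ps (w.take j) i = ps w i := fun i hi => ps_take w (hi.trans hk) hj
  constructor
  · intro g
    refine ⟨g.ev, by omega, fun i hi => ?_, ?_, fun k' e1 e2 e3 => ?_⟩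
    · rw [← hp i hi, ← hp k le_rfl]
      exact g.left i hi
    · rw [← hp k le_rfl]
      exact g.lev
    · rw [← hp k' e2.le]
      exact g.fst k' e1 e2 (by rwa [ht])
  · intro g
    refine ⟨g.ev, by omega, fun i hi => ?_, ?_, fun k' e1 e2 e3 => ?_⟩
    · rw [hp i hi, hp k le_rfl]
      exact g.left i hi
    · rw [hp k le_rfl]
      exact g.lev
    · rw [hp k' e2.le]
      exact g.fst k' e1 e2 (by rwa [ht] at e3)

/-- takes: the rest, if `w` never comes back behind `j` -/
theorem rest_take {d : ℂ} {ρ : ℝ} {w : W3} {j k : ℕ} (ek : Even k) (hk : k ≤ j) (hj : j ≤ w.length)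
    (h : ∀ i : ℕ, j ≤ i → i ≤ w.length → ρ < ‖ps w i - ps w k‖) :
    RestC d ρ ((w.take j).drop k) ↔ RestC d ρ (w.drop k) := by
  have hl : (w.take j).length = j := by rw [List.length_take, min_eq_left hj]
  have h1 : ∀ i, i ≤ j - k → ps ((w.take j).drop k) i = ps (w.drop k) i := fun i hi => by
    rw [ps_drp _ ek (by omega), ps_drp _ ek (by omega), ps_take w (by omega) hj, ps_take w hk hj]
  have l1 : ((w.take j).drop k).length = j - k := by rw [List.length_drop, hl]
  have l2 : (w.drop k).length = w.length - k := List.length_drop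
  constructor
  · intro g i h0 hi hn
    rcases lt_or_ge i (j - k) with h2 | h2
    · rw [← h1 i h2.le] at hn ⊢
      exact g i h0 (by omega) hn
    · exfalso
      have := h (k + i) (by omega) (by omega)
      rw [ps_drp _ ek (by omega)] at hn
      linarith
  · intro g i h0 hi hn
    rw [h1 i (by omega)] at hn ⊢
    exact g i h0 (by omega) hn

/-! ### the product form -/

/-- `GPr` reads the prefix -/
lemma gp_iff {d : ℂ} {a : ℝ} {w : W3} {k : ℕ} (hk : k ≤ w.length) : GPr d a w k ↔
    Even (w.take k).length ∧ (∀ i : ℕ, i ≤ (w.take k).length → lv d (ps (w.take k) i) ≤ lv d (en (w.take k))) ∧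
      FstC d a (w.take k) := by
  have hl : (w.take k).length = k := by rw [List.length_take, min_eq_left hk]
  have hp : ∀ i, i ≤ k → ps (w.take k) i = ps w i := fun i hi => ps_take w hi hk
  have he : en (w.take k) = ps w k := by rw [en, hl, hp k le_rfl]
  unfold FstC
  rw [hl, he]
  constructor
  · intro g
    exact ⟨g.ev, fun i hi => by rw [hp i hi]; exact g.left i hi, g.lev,
      fun k' e1 e2 e3 => by rw [hp k' e2.le]; exact g.fst k' e1 e2 e3⟩
  · rintro ⟨g1, g2, g3, g4⟩
    exact ⟨g1, hk, fun i hi => by rw [← hp i hi]; exact g2 i hi, g3,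
      fun k' e1 e2 e3 => by rw [← hp k' e2.le]; exact g4 k' e1 e2 e3⟩

/-- the tip pieces of start gates: `TipC`, diameter, first cut -/
structure TipG (d : ℂ) (a r : ℝ) (p : W3) : Prop where
  t : TipC d r p
  dm : ∀ i j : ℕ, i ≤ p.length → j ≤ p.length → ‖ps p i - ps p j‖ ≤ r
  f : FstC d a p

/-- **the product form**: a start gate = a tip piece in the class `TipG` and a rest in the class `RestC` -/
theorem gw_iff {d : ℂ} {a r ρ : ℝ} {w : W3} {k : ℕ} (ha : 0 < a) (hw : SW w) (hk : k < w.length) :
    GW d a r ρ w k ↔ TipG d a r (w.take k) ∧ RestC d ρ (w.drop k) := by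
  have hl : (w.take k).length = k := by rw [List.length_take, min_eq_left hk.le]
  have hp : ∀ i, i ≤ k → ps (w.take k) i = ps w i := fun i hi => ps_take w hi hk.le
  have he : en (w.take k) = ps w k := by rw [en, hl, hp k le_rfl]
  constructor
  · rintro ⟨g, -, g2, g3⟩
    have h1 := (gp_iff hk.le).1 g
    refine ⟨⟨⟨h1.1, fun i j hi hj h => ?_, ?_, h1.2.1, fun i hi => ?_⟩, fun i j hi hj => ?_, h1.2.2⟩, g3⟩
    · rw [hl] at hi hj
      rw [hp i hi, hp j hj] at h
      exact hw i j (by omega) (by omega) h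
    · rw [hl]
      rcases Nat.eq_zero_or_pos k with h0 | h0
      · subst h0
        have := g.lev
        rw [ps_zero, lv_zero] at this
        linarith
      · exact h0
    · rw [hl] at hi
      rw [hp i hi]
      have := g2 i 0 hi (Nat.zero_le _)
      rwa [ps_zero, sub_zero] at this
    · rw [hl] at hi hj
      rw [hp i hi, hp j hj]
      exact g2 i j hi hj
  · rintro ⟨g, g3⟩
    refine ⟨(gp_iff hk.le).2 ⟨g.t.ev, g.t.left, g.f⟩, hk, fun i j hi hj => ?_, g3⟩
    have := g.dm i j (by omega) (by omega)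
    rwa [hp i hi, hp j hj] at this

end Pool.Agent.ROT.F3
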