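import Pool.Agent.ROT.F3N1P
import Pool.Agent.ROT.F3GW
import Pool.Agent.ROT.F3N1W

/-!
# ROT / F3N1Q (helper48): row N1, from the two arms at the root (helper87) to the native gates

* `armG_of` : `ArmW` => `ArmG`; `ArmI` : the inequalities between the data and the scale `d` of the arms, `armI_ex` : `d = κ0 S`,
  `K ≥ K0` satisfy them;
* **`dcp_rev`** : for a closed word with `REvW`: `w.take M = p ++ (b ++ R)`, `p ∈ Pre`, `b ∈ OtB`, `Even |R|`, `RestC (g S)`, the same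
  `p`, `b` for all even `M`, `x ≤ M`, `2 M < |w|`.
-/

set_option autoImplicit false

namespace Pool.Agent.ROT.F3.N1W

open Finset
open Pool.Agent.NTS.Res (step pos saw fug)
open scoped ENNReal Classical

/-! ### the arms -/

/-- a step in a native direction starts at an even vertex -/
lemma even_of_step {a : Fin 3} {w : W3} {c : ℕ} (hc : c < w.length) (h : ps w (c + 1) = ps w c + ev a) : Even c := by
  by_contra hcon
  have ho : Odd c := Nat.not_even_iff_odd.1 hcon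
  obtain ⟨b, hb⟩ : ∃ b : Fin 3, b = w.get ⟨c, hc⟩ := ⟨_, rfl⟩
  have hs : ps w (c + 1) = ps w c + step c b := by rw [ps_succ, st_of_lt hc, hb]
  rw [step_odd ho] at hs
  have h1 : ev a = -ev b := by
    have := h.symm.trans hs
    exact add_left_cancel this
  have h2 : lv (ev a) (ev a) = lv (ev a) (-ev b) := by rw [← h1]
  rw [lv_neg, lv_ev_ev, lv_ev_ev, if_pos rfl] at h2
  by_cases hab : a = b
  · rw [if_pos hab] at h2
    norm_num at h2
  · rw [if_neg hab] at h2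
    norm_num at h2

/-- **the arms of 87 are arms** -/
theorem armG_of {a : Fin 3} {K d : ℝ} (hd : 0 < d) {w : W3} {s : ℕ} {p : ℕ → ℂ} (h : ArmW K d (ev a) p s)
    (hp : ∀ i, i ≤ s → p i = ps w i) (hs : s ≤ w.length) : ArmG (ev a) (8 * d) (2 * (K * d)) w s := by
  refine ⟨hs, fun i hi => ?_, fun y h1 h2 => ?_⟩
  · obtain ⟨τ, t0, t1⟩ := h.near i hi
    rw [hp i hi] at t1
    exact ⟨τ, t0, t1⟩
  · obtain ⟨c, c1, c2, c3, c4, c5, c6⟩ := h.cut y (by linarith) h2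
    rw [hp c c1.le] at c2 c3 c4
    rw [hp (c + 1) c1] at c4
    refine ⟨c, even_of_step (by omega) c4, c1, c2, by linarith, (cut_take hs c1.le).2 ⟨fun i hi => ?_, fun i hi hi' => ?_⟩⟩
    · have := c5 i hi
      rwa [hp i (by omega), hp c c1.le] at this
    · have := c6 i hi hi'
      rwa [hp i hi', hp c c1.le] at this

/-- **the inequalities** between the data of the gates, the scale `d` of the arms, the free ball `K d` and the numbers `x` of
letters -/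
structure ArmI (E : Tp) (O : Ot) (S T g K d x : ℝ) : Prop where
  S0 : 0 < S
  d0 : 0 < d
  l : 8 * d ≤ E.l * S
  r : E.l * S + 24 * d ≤ E.r * S
  r2 : E.m * S + 40 * d ≤ E.r2 * S
  th : E.th * E.m * S + 8 * d < E.m * S
  κ1 : 32 * d ≤ E.κ1 * S
  κ : 32 * d ≤ E.κ * S
  e : E.e * S + 16 * d ≤ (1 - E.cs) * (E.l * S)
  w : 8 * d ≤ E.w * S
  la : x ≤ E.la * T
  lb : x ≤ E.lb * T
  m0 : 0 < O.m
  Λ : E.l * S + E.m * S + O.m * S + 16 * d ≤ 2 * (K * d)
  Or : O.m * S + 40 * d ≤ O.r * S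
  hw : 16 * d ≤ O.hw * S
  Oκ : 32 * d ≤ O.κ * S
  c0 : 0 ≤ O.c
  c1 : O.c ≤ 1
  Oe : O.e * S + 32 * d ≤ (1 - O.c) * (O.m * S)
  Olb : x ≤ O.lb * T
  far : E.l * S + E.m * S + O.m * S + 40 * d + g * S < K * d

/-- **row N1, last step**: `w.take M = p ++ (b ++ R)`, `p` a native double gate, `b` an outer block, the same `p`, `b` for all `M` -/
theorem dcp_rev {E : Tp} (hE : E.Ok) {O : Ot} {S T g K d x : ℝ} (I : ArmI E O S T g K d x) {a : Fin 3} {f : ℂ} {w : W3}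
    (hc : Cl w) (h : REvW K d (ev a) f x w) :
    ∃ p ∈ Pre (ev a) E S T, ∃ b ∈ OtB (ev a) O S T, ∀ M : ℕ, Even M → x ≤ M → 2 * M < w.length →
      ∃ R : W3, w.take M = p ++ (b ++ R) ∧ Even R.length ∧ RestC (ev a) (g * S) R := by
  obtain ⟨s, t, h1, h2, h3, h4, h5, h6⟩ := h
  obtain ⟨c1, c2, c3⟩ := hc
  have hd := I.d0
  have A := armG_of hd h4 (fun _ _ => rfl) (by omega : s ≤ w.length)
  have hΛ := I.Λ
  have hm : 0 < E.m * S := mul_pos hE.m I.S0
  have hm' : 0 < O.m * S := mul_pos I.m0 I.S0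
  have hws : s < w.length := by
    by_contra hcon
    have ht : t = 0 := by omega
    obtain ⟨c, d1, -⟩ := h5.cut (E.l * S) (by linarith [I.l]) (by linarith)
    omega
  have hsw : ∀ i j : ℕ, i ≤ s → j ≤ s → ps w i = ps w j → i = j := fun i j hi hj he => c3 i j (by omega) (by omega) he
  have hA : ArmP E S T (8 * d) (2 * (K * d)) s :=
    ⟨I.S0, by linarith, I.l, by linarith, by linarith [I.r], by linarith [I.r2], I.th, by linarith [I.κ1], by linarith [I.κ],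
      by linarith [I.e], I.w, h1.trans I.la, h1.trans I.lb⟩
  have hO : ArmO E O S T g (8 * d) (2 * (K * d)) (K * d) s :=
    ⟨I.m0, by linarith, by linarith [I.Or], by linarith [I.hw], by linarith [I.Oκ], I.c0, I.c1, by linarith [I.Oe],
      h1.trans I.Olb, by linarith [I.far]⟩
  obtain ⟨k2, k3, -, -, -, -, g1, g2, g3⟩ := dcp_arm (ev_norm a) hE A hA hO hsw
  refine ⟨_, g1, _, g2, fun M hM hxM hMw => ?_⟩
  have hsM : s ≤ M := by
    have : (s : ℝ) ≤ M := h1.trans hxM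
    exact_mod_cast this
  have htM : t ≤ M := by
    have : (t : ℝ) ≤ M := h2.trans hxM
    exact_mod_cast this
  obtain ⟨e1, e2, e3⟩ := g3 M hM hsM (by omega) fun i hi hi' => h6 i hi (by omega)
  exact ⟨_, e1, e2, e3⟩

/-- the inequalities of the outer block -/
structure OtI (O : Ot) : Prop where
  m : 0 < O.m
  r : O.m < O.r
  hw : 0 < O.hw
  κ : 0 < O.κ
  c0 : 0 ≤ O.c
  c1 : O.c < 1
  e : O.e < (1 - O.c) * O.m

/-- **the choice of the scale of the arms** -/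
theorem armI_ex {E : Tp} (hE : E.Ok) (hlr : E.l < E.r) {O : Ot} (hO : OtI O) {g : ℝ} (hg : 0 ≤ g) :
    ∃ κ0 K0 : ℝ, 0 < κ0 ∧ 0 < K0 ∧ ∀ K S T x : ℝ, K0 ≤ K → 0 < S → x ≤ E.la * T → x ≤ E.lb * T → x ≤ O.lb * T →
      ArmI E O S T g K (κ0 * S) x := by
  have pos : ∀ y : ℝ, 0 < y → ∃ κ : ℝ, 0 < κ ∧ ∀ κ' : ℝ, 0 < κ' → κ' ≤ κ → 40 * κ' < y := fun y hy =>
    ⟨y / 41, by positivity, fun κ' _ h' => by
      have : 40 * κ' ≤ 40 * (y / 41) := by linarith
      linarith⟩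
  have h22 : E.m < E.r2 := by
    have := hE.m22
    have := hE.m
    linarith
  obtain ⟨k1, p1, q1⟩ := pos E.l hE.l
  obtain ⟨k2, p2, q2⟩ := pos (E.r - E.l) (by linarith)
  obtain ⟨k3, p3, q3⟩ := pos (E.r2 - E.m) (by linarith)
  obtain ⟨k4, p4, q4⟩ := pos ((1 - E.th) * E.m) (mul_pos (by linarith [hE.th1]) hE.m)
  obtain ⟨k5, p5, q5⟩ := pos E.κ1 hE.κ1
  obtain ⟨k6, p6, q6⟩ := pos E.κ hE.κ
  obtain ⟨k7, p7, q7⟩ := pos ((1 - E.cs) * E.l - E.e) (by linarith [hE.e1])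
  obtain ⟨k8, p8, q8⟩ := pos E.w hE.w0
  obtain ⟨k9, p9, q9⟩ := pos (O.r - O.m) (by linarith [hO.r])
  obtain ⟨k10, p10, q10⟩ := pos O.hw hO.hw
  obtain ⟨k11, p11, q11⟩ := pos O.κ hO.κ
  obtain ⟨k12, p12, q12⟩ := pos ((1 - O.c) * O.m - O.e) (by linarith [hO.e])
  obtain ⟨k, hk⟩ : ∃ k : ℝ, k = min (min (min k1 k2) (min k3 k4)) (min (min (min k5 k6) (min k7 k8))
    (min (min k9 k10) (min k11 k12))) := ⟨_, rfl⟩
  have hk0 : 0 < k := by
    rw [hk]
    simp only [lt_min_iff]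
    exact ⟨⟨⟨p1, p2⟩, p3, p4⟩, ⟨⟨p5, p6⟩, p7, p8⟩, ⟨p9, p10⟩, p11, p12⟩
  have hkl : ((k ≤ k1 ∧ k ≤ k2) ∧ k ≤ k3 ∧ k ≤ k4) ∧ ((k ≤ k5 ∧ k ≤ k6) ∧ k ≤ k7 ∧ k ≤ k8) ∧ (k ≤ k9 ∧ k ≤ k10) ∧
      k ≤ k11 ∧ k ≤ k12 := by
    rw [← le_min_iff, ← le_min_iff, ← le_min_iff, ← le_min_iff, ← le_min_iff, ← le_min_iff, ← le_min_iff, ← le_min_iff,
      ← le_min_iff, ← le_min_iff, ← le_min_iff, hk]
  obtain ⟨⟨⟨l1, l2⟩, l3, l4⟩, ⟨⟨l5, l6⟩, l7, l8⟩, ⟨l9, l10⟩, l11, l12⟩ := hkl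
  have m1 := q1 k hk0 l1
  have m2 := q2 k hk0 l2
  have m3 := q3 k hk0 l3
  have m4 := q4 k hk0 l4
  have m5 := q5 k hk0 l5
  have m6 := q6 k hk0 l6
  have m7 := q7 k hk0 l7
  have m8 := q8 k hk0 l8
  have m9 := q9 k hk0 l9
  have m10 := q10 k hk0 l10
  have m11 := q11 k hk0 l11
  have m12 := q12 k hk0 l12
  have hsum : 0 < E.l + E.m + O.m + g := by linarith [hE.l, hE.m, hO.m]
  refine ⟨k, (E.l + E.m + O.m + g) / k + 41, hk0, by positivity, fun K S T x hK hS h1 h2 h3 => ?_⟩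
  have hKk : E.l + E.m + O.m + g + 41 * k ≤ K * k := by
    have := mul_le_mul_of_nonneg_right hK hk0.le
    rw [add_mul, div_mul_cancel₀ _ hk0.ne'] at this
    exact this
  have sc : ∀ {u v : ℝ}, u ≤ v → u * S ≤ v * S := fun h => mul_le_mul_of_nonneg_right h hS.le
  have scl : ∀ {u v : ℝ}, u < v → u * S < v * S := fun h => mul_lt_mul_of_pos_right h hS
  have b1 := sc (show 8 * k ≤ E.l by linarith)
  have b2 := sc (show E.l + 24 * k ≤ E.r by linarith)
  have b3 := sc (show E.m + 40 * k ≤ E.r2 by linarith)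
  have b4 := scl (show E.th * E.m + 8 * k < E.m by linarith)
  have b5 := sc (show 32 * k ≤ E.κ1 by linarith)
  have b6 := sc (show 32 * k ≤ E.κ by linarith)
  have b7 := sc (show E.e + 16 * k ≤ (1 - E.cs) * E.l by linarith)
  have b8 := sc (show 8 * k ≤ E.w by linarith)
  have b9 := sc (show O.m + 40 * k ≤ O.r by linarith)
  have b10 := sc (show 16 * k ≤ O.hw by linarith)
  have b11 := sc (show 32 * k ≤ O.κ by linarith)
  have b12 := sc (show O.e + 32 * k ≤ (1 - O.c) * O.m by linarith)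
  have b13 := sc (show E.l + E.m + O.m + 16 * k ≤ 2 * (K * k) by linarith)
  have b14 := scl (show E.l + E.m + O.m + 40 * k + g < K * k by linarith)
  exact ⟨hS, mul_pos hk0 hS, by linarith, by linarith, by linarith, by linarith, by linarith, by linarith, by linarith,
    by linarith, h1, h2, hO.m, by linarith, by linarith, by linarith, by linarith, hO.c0, hO.c1.le, by linarith, h3,
    by linarith⟩

end Pool.Agent.ROT.F3.N1W
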