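import Pool.Agent.ROT.F3C0M
import Pool.Agent.ROT.F3C0N
import Pool.Agent.ROT.F3N1Q
import Pool.Agent.ROT.F3C0T
import Pool.Agent.ROT.F3GtC

/-!
# ROT, F3 (B), row C0At (helper83): the words with two straight arms have the native marks

* `armC_of` : a straight arm of helper87 is a thin arm with backtracking at most `18 d`, and far away behind it;
* `dcp_armX` : `dcp_arm` of helper48 with the numbers and the levels of the gates;
* `NatW` : the native marks of a word: `w.take m = p ++ (b ++ R)`, the gates, the levels, the strand behind them;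
  **`nat_rev`** : the words with two straight arms have them, the same `p`, `b` for all `m`;
* `NatW.stg`, **`NatW.sg`** : the dictionary of helper61: `sgE`, `sgc`, `sgx` of the strand `fp`;
* `WdR`, **`low_mw`** : the mass of these words in the window, constants before the window and the scale;
* **`nat_yy`** : the marks of all the words of the window; `mkD_of` : they are marked words in the sense of `MkD`;
* `tbs_rev` : the statistic of helper88.
-/

set_option autoImplicit false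

namespace Pool.Agent.ROT.F3

open Finset MeasureTheory Filter Topology
open Pool.Agent.ROT.F3.N1W (ArmW REvW RW ArmI armG_of)

/-! ### 1. The arms -/

/-- **a straight arm is a thin arm** -/
theorem armC_of {K d : ℝ} {e : ℂ} (he : ‖e‖ = 1) (hd : 0 < d) (hK : 5 ≤ K) {w : W3} {s : ℕ} (h : ArmW K d e (ps w) s) :
    ∃ c : ℕ, c < s ∧ ArmC (18 * d) e w c ∧ 2 * (K * d) ≤ lv e (ps w c) ∧
      (∀ i : ℕ, c < i → i ≤ s → lv e (ps w c) < lv e (ps w i)) ∧ ∀ i : ℕ, c < i → i ≤ s → K * d ≤ ‖ps w i‖ := by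
  have hKd : 5 * d ≤ K * d := mul_le_mul_of_nonneg_right hK hd.le
  obtain ⟨c, c1, c2, c3, -, c5, c6⟩ := h.cut (2 * (K * d)) (by linarith) le_rfl
  refine ⟨c, c1, ⟨fun i hi => ?_, fun i j hij hj => ?_⟩, c2, c6, fun i hi hi' => ?_⟩
  · obtain ⟨τ, t0, t1⟩ := h.near i (by omega)
    exact ⟨τ, t0, t1.trans (by linarith)⟩
  · obtain ⟨τ, t0, t1⟩ := h.near j (by omega)
    have h1 := (abs_le.1 (near_lv he t1)).1
    rcases lt_or_ge (lv e (ps w i)) (10 * d) with h2 | h2
    · linarith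
    · have h3 := c5 i (by omega)
      obtain ⟨k, k1, k2, k3, -, k5, k6⟩ := h.cut (lv e (ps w i) - 6 * d) (by linarith) (by linarith)
      rcases Nat.lt_or_ge k i with h4 | h4
      · have := k6 j (by omega) (by omega)
        linarith
      · have := k5 i h4
        linarith
  · have h1 := c6 i hi hi'
    have h2 := (le_abs_self _).trans (abs_lv he (ps w i))
    linarith

section arm

variable {d : ℂ} {δ Λ : ℝ} {w : W3} {s : ℕ}

/-- **the gates of an arm**, with their numbers and levels -/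
theorem dcp_armX (hd : ‖d‖ = 1) {P : Tp} (hP : P.Ok) {O : Ot} {S T g ρ : ℝ} (A : ArmG d δ Λ w s) (hA : ArmP P S T δ Λ s)
    (hO : ArmO P O S T g δ Λ ρ s) (hsw : ∀ i j : ℕ, i ≤ s → j ≤ s → ps w i = ps w j → i = j) :
    ∃ k1 k2 k3 : ℕ, Even k1 ∧ Even k2 ∧ Even k3 ∧ 0 < k1 ∧ k1 < k2 ∧ k2 < k3 ∧ k3 < s ∧
      CutC d (w.take s) k2 ∧ CutC d (w.take s) k3 ∧
      (P.l * S ≤ lv d (ps w k1) ∧ lv d (ps w k1) ≤ P.l * S + δ) ∧
      (P.m * S ≤ lv d (ps w k2) - lv d (ps w k1) ∧ lv d (ps w k2) - lv d (ps w k1) ≤ P.m * S + δ) ∧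
      (O.m * S ≤ lv d (ps w k3) - lv d (ps w k2) ∧ lv d (ps w k3) - lv d (ps w k2) ≤ O.m * S + δ) ∧
      PreM d P S T (w.take k2) k1 ∧ (w.take k3).drop k2 ∈ OtB d O S T ∧
      ∀ M : ℕ, Even M → s ≤ M → M ≤ w.length → (∀ i : ℕ, s < i → i ≤ M → ρ ≤ ‖ps w i‖) →
        w.take M = w.take k2 ++ ((w.take k3).drop k2 ++ (w.take M).drop k3) ∧ Even ((w.take M).drop k3).length ∧
        RestC d (g * S) ((w.take M).drop k3) := by
  have hS := hA.S0
  have hδ := hA.δ0
  have p1 : 0 < P.l * S := mul_pos hP.l hS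
  have p2 : 0 < P.m * S := mul_pos hP.m hS
  have p3 : 0 < O.m * S := mul_pos hO.m0 hS
  obtain ⟨k1, k2, a1, a2, a3, a4, a5, a6, a7, a8, a9, a10, a11, a12⟩ := preM_arm hd hP A hA hsw
  obtain ⟨k3, b1, b2, b3, b4, b5, b6, b7, b8, b9, b10⟩ := blk_arm hd hδ A hsw a2 a5 a7 p3 (by linarith [hA.l])
    (by linarith [hO.Λ])
  have hkw : k3 ≤ w.length := b3.le.trans A.le
  obtain ⟨l1, l2⟩ := drop_take (w := w) b2.le hkw a2
  obtain ⟨τ0, t0, n0⟩ := A.near k2 a5.le
  have hcut3 := (cut_take A.le b3.le).1 b6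
  refine ⟨k1, k2, k3, a1, a2, b1, a3, a4, b2, b3, a7, b6, ⟨a8, a9⟩, ⟨a10, a11⟩, ⟨b4, b5⟩, a12,
    ⟨b7.mono hO.r, b8, fun j hj => ?_, fun j hj => ?_, ?_, ?_⟩, ?_⟩
  · rw [l1] at hj
    rw [l2 j hj]
    obtain ⟨τ, t1, n1⟩ := A.near (k2 + j) (by omega)
    exact (ltl_near hd n1 n0).trans hO.hw
  · have h3 := b9 j hj
    unfold Kn
    have h6 : O.c * ‖ps ((w.take k3).drop k2) j‖ ≤ ‖ps ((w.take k3).drop k2) j‖ :=
      mul_le_of_le_one_left (norm_nonneg _) hO.c1
    linarith [hO.κ]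
  · unfold EndQ
    have h3 := b9 _ le_rfl
    have e1 : ps ((w.take k3).drop k2) ((w.take k3).drop k2).length = en ((w.take k3).drop k2) := rfl
    have e2 : en ((w.take k3).drop k2) = ps w k3 - ps w k2 := by rw [en, l1, l2 _ le_rfl, Nat.add_sub_cancel' b2.le]
    rw [e1] at h3
    have h4 : O.m * S ≤ lv d (en ((w.take k3).drop k2)) := by
      rw [e2, lv_sub]
      exact b4
    have h5 : O.c * ‖en ((w.take k3).drop k2)‖ ≤ O.c * (lv d (en ((w.take k3).drop k2)) + 4 * δ) :=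
      mul_le_mul_of_nonneg_left h3 hO.c0
    have h6 : (1 - O.c) * (O.m * S) ≤ (1 - O.c) * lv d (en ((w.take k3).drop k2)) :=
      mul_le_mul_of_nonneg_left h4 (by linarith [hO.c1])
    have h7 : O.c * (4 * δ) ≤ 4 * δ := mul_le_of_le_one_left (by linarith) hO.c1
    have h8 := hO.e
    linarith
  · refine le_trans ?_ hO.lb
    have h3 : ((w.take k3).drop k2).length ≤ s := by
      rw [l1]
      omega
    exact_mod_cast h3
  · intro M hM hsM hMw hfar
    obtain ⟨m1, m2⟩ := drop_take (w := w) (k := k3) (k' := M) (by omega) hMw b1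
    refine ⟨?_, ?_, fun j hj hj' hn => ?_⟩
    · have e1 : w.take M = (w.take M).take k3 ++ (w.take M).drop k3 := (List.take_append_drop _ _).symm
      have e2 : (w.take M).take k3 = w.take k3 := by rw [List.take_take, min_eq_left (by omega)]
      have e3 : w.take k3 = (w.take k3).take k2 ++ (w.take k3).drop k2 := (List.take_append_drop _ _).symm
      have e4 : (w.take k3).take k2 = w.take k2 := by rw [List.take_take, min_eq_left b2.le]
      rw [e4] at e3
      rw [e2] at e1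
      calc w.take M = w.take k3 ++ (w.take M).drop k3 := e1
        _ = (w.take k2 ++ (w.take k3).drop k2) ++ (w.take M).drop k3 := by rw [← e3]
        _ = _ := List.append_assoc _ _ _
    · rw [m1]
      obtain ⟨x, hx⟩ := hM
      obtain ⟨y, hy⟩ := b1
      exact ⟨x - y, by omega⟩
    · rw [m1] at hj'
      rw [m2 j hj'] at hn ⊢
      rcases Nat.lt_or_ge s (k3 + j) with h | h
      · exfalso
        obtain ⟨τ, t1, n1⟩ := A.near k3 b3.le
        have h3 := hfar (k3 + j) h (by omega)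
        have h4 : ‖ps w (k3 + j)‖ ≤ ‖ps w (k3 + j) - ps w k3‖ + ‖ps w k3‖ := by
          have := norm_add_le (ps w (k3 + j) - ps w k3) (ps w k3)
          rwa [sub_add_cancel] at this
        have h5 := norm_near hd t1 n1
        linarith [hO.far]
      · rw [lv_sub]
        have := hcut3.2 (k3 + j) (by omega) h
        linarith

end arm

/-! ### 2. The native marks -/

/-- **the native marks of the prefix `w.take m`**: `y = (p, (b, R))`, `k` = number of the gate `c`; `Kd` = radius of the free ball -/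
structure NatW (a : Fin 3) (E : Tp) (O : Ot) (S T g d Kd x : ℝ) (w : W3) (m : ℕ) (y : W3 × (W3 × W3)) (k : ℕ) : Prop where
  e : w.take m = y.1 ++ (y.2.1 ++ y.2.2)
  e1 : Even y.1.length
  e2 : Even y.2.1.length
  e3 : Even y.2.2.length
  pre : PreM (ev a) E S T y.1 k
  b : y.2.1 ∈ OtB (ev a) O S T
  rest : RestC (ev a) (g * S) y.2.2
  ed : EdQ (ev a) E S (y.2.1 ++ y.2.2)
  k0 : 0 < k
  k1 : k < y.1.length
  bl : 0 < y.2.1.length
  len : ((y.1.length + y.2.1.length : ℕ) : ℝ) ≤ x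
  lt : y.1.length + y.2.1.length < m
  lc : E.l * S ≤ lv (ev a) (ps w k) ∧ lv (ev a) (ps w k) ≤ E.l * S + 8 * d
  lx : E.m * S ≤ lv (ev a) (en y.1) - lv (ev a) (ps w k) ∧ lv (ev a) (en y.1) - lv (ev a) (ps w k) ≤ E.m * S + 8 * d
  ly : O.m * S ≤ lv (ev a) (en y.2.1) ∧ lv (ev a) (en y.2.1) ≤ O.m * S + 8 * d
  nx : ‖en y.1‖ ≤ lv (ev a) (en y.1) + 16 * d
  far : ∀ j : ℕ, y.1.length + y.2.1.length ≤ j → j ≤ m → O.m * S ≤ ‖ps w j - en y.1‖
  arm : ∃ s : ℕ, y.1.length + y.2.1.length ≤ s ∧ s < m ∧ ArmC (18 * d) (ev a) w s ∧ ∀ i : ℕ, s < i → i ≤ m → Kd ≤ ‖ps w i‖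

/-- **the words with two straight arms have the native marks** -/
theorem nat_rev {E : Tp} (hE : E.Ok) {O : Ot} {S T g K d x : ℝ} (I : ArmI E O S T g K d x) (hg : 0 ≤ g) (hK : 5 ≤ K)
    (hrg : E.l * S + E.m * S + 40 * d + E.rg * S < K * d) (hr0 : E.l * S + E.m * S + 40 * d + E.r0 * S < K * d)
    {a : Fin 3} {f : ℂ} {w : W3} (hc : Cl w) (h : REvW K d (ev a) f x w) :
    ∃ p b : W3, ∃ k : ℕ, ∀ m : ℕ, Even m → x ≤ m → (m : ℝ) + x < w.length →
      NatW a E O S T g d (K * d) x w m (p, (b, w.drop (p.length + b.length) |>.take (m - (p.length + b.length)))) k := by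
  obtain ⟨s, t, h1, h2, h3, h4, h5, h6⟩ := h
  obtain ⟨c1, c2, c3⟩ := hc
  have hd := I.d0
  have hS := I.S0
  have A := armG_of hd h4 (fun _ _ => rfl) (by omega : s ≤ w.length)
  have hΛ := I.Λ
  have hl : 0 < E.l * S := mul_pos hE.l I.S0
  have hm : 0 < E.m * S := mul_pos hE.m I.S0
  have hm' : 0 < O.m * S := mul_pos I.m0 I.S0
  have hws : s < w.length := by
    by_contra hcon
    have ht : t = 0 := by omega
    obtain ⟨c, d1, -⟩ := h5.cut (E.l * S) (by linarith [I.l]) (by linarith)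
    omega
  have hsw : ∀ i j : ℕ, i ≤ s → j ≤ s → ps w i = ps w j → i = j := fun i j hi hj he => c3 i j (by omega) (by omega) he
  have hA : ArmP E S T (8 * d) (2 * (K * d)) s :=
    ⟨I.S0, by linarith, I.l, by linarith, by linarith [I.r], by linarith [I.r2], I.th, by linarith [I.κ1], by linarith [I.κ],
      by linarith [I.e], I.w, h1.trans I.la, h1.trans I.lb⟩
  have hO : ArmO E O S T g (8 * d) (2 * (K * d)) (K * d) s :=
    ⟨I.m0, by linarith, by linarith [I.Or], by linarith [I.hw], by linarith [I.Oκ], I.c0, I.c1, by linarith [I.Oe],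
      h1.trans I.Olb, by linarith [I.far]⟩
  obtain ⟨k1, k2, k3, f1, f2, f3, f01, f12, f23, f3s, cut2, cut3, lc, lx, ly, g1, g2, g3⟩ := dcp_armX (ev_norm a) hE A hA hO hsw
  obtain ⟨c, q1, q2, q3, q4, q5⟩ := armC_of (ev_norm a) hd hK h4
  have hk3w : k3 ≤ w.length := by omega
  have l2 : (w.take k2).length = k2 := by rw [List.length_take, min_eq_left (by omega)]
  have l3 : ((w.take k3).drop k2).length = k3 - k2 := by rw [List.length_drop, List.length_take, min_eq_left (by omega)]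
  have l23 : (w.take k2).length + ((w.take k3).drop k2).length = k3 := by rw [l2, l3]; omega
  have e2 : en (w.take k2) = ps w k2 := en_take w (by omega)
  have e3 : en ((w.take k3).drop k2) = ps w k3 - ps w k2 := by
    obtain ⟨m1, m2⟩ := drop_take (w := w) f23.le hk3w f2
    rw [en, m1, m2 _ le_rfl, Nat.add_sub_cancel' f23.le]
  have hlv3 : lv (ev a) (ps w k3) ≤ E.l * S + E.m * S + O.m * S + 24 * d := by linarith [lc.2, lx.2, ly.2]
  have hk3c : k3 ≤ c := by
    by_contra hcon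
    have := q4 k3 (by omega) f3s.le
    have := I.far
    have hgS : 0 ≤ g * S := mul_nonneg hg hS.le
    linarith
  obtain ⟨τ, t0, n0⟩ := A.near k2 (by omega)
  have nx2 := norm_near (ev_norm a) t0 n0
  have hcut3 := (cut_take A.le f3s.le).1 cut3
  refine ⟨w.take k2, (w.take k3).drop k2, k1, fun M hM hxM hMw => ?_⟩
  have hsM : s ≤ M := by
    have : (s : ℝ) ≤ M := h1.trans hxM
    exact_mod_cast this
  have hMt : M + t < w.length := by
    have : ((M + t : ℕ) : ℝ) < w.length := by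
      push_cast
      linarith
    exact_mod_cast this
  have hfar : ∀ i : ℕ, s < i → i ≤ M → K * d ≤ ‖ps w i‖ := fun i hi hi' => h6 i hi (by omega)
  obtain ⟨r1, r2, r3⟩ := g3 M hM hsM (by omega) hfar
  have hR : (w.drop ((w.take k2).length + ((w.take k3).drop k2).length)).take (M - ((w.take k2).length +
      ((w.take k3).drop k2).length)) = (w.take M).drop k3 := by
    rw [l23, List.drop_take]
  have hed : EdQ (ev a) E S ((w.take M).drop k2) :=
    edQ_arm (ev_norm a) hE A hA f2 (by omega) (by omega) (by omega) cut2 hfar (by linarith [lc.2, lx.2]) (by linarith [lc.2, lx.2])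
  have hcat : (w.take k3).drop k2 ++ (w.take M).drop k3 = (w.take M).drop k2 := by
    have e1 : (w.take M).drop k2 = (w.take k2 ++ ((w.take k3).drop k2 ++ (w.take M).drop k3)).drop k2 := by rw [← r1]
    rw [e1, List.drop_left' l2]
  rw [hR]
  exact
    { e := r1
      e1 := by rw [l2]; exact f2
      e2 := by
        show Even ((w.take k3).drop k2).length
        rw [l3]
        obtain ⟨x, hx⟩ := f2
        obtain ⟨y, hy⟩ := f3
        exact ⟨y - x, by omega⟩
      e3 := r2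
      pre := g1
      b := g2
      rest := r3
      ed := by
        show EdQ (ev a) E S ((w.take k3).drop k2 ++ (w.take M).drop k3)
        rw [hcat]
        exact hed
      k0 := f01
      k1 := by
        show k1 < (w.take k2).length
        rw [l2]
        exact f12
      bl := by
        show 0 < ((w.take k3).drop k2).length
        rw [l3]
        omega
      len := by
        show (((w.take k2).length + ((w.take k3).drop k2).length : ℕ) : ℝ) ≤ x
        rw [l23]
        refine le_trans ?_ h1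
        exact_mod_cast f3s.le
      lt := by
        show (w.take k2).length + ((w.take k3).drop k2).length < M
        rw [l23]
        omega
      lc := lc
      lx := by
        show E.m * S ≤ lv (ev a) (en (w.take k2)) - lv (ev a) (ps w k1) ∧
          lv (ev a) (en (w.take k2)) - lv (ev a) (ps w k1) ≤ E.m * S + 8 * d
        rw [e2]
        exact lx
      ly := by
        show O.m * S ≤ lv (ev a) (en ((w.take k3).drop k2)) ∧ lv (ev a) (en ((w.take k3).drop k2)) ≤ O.m * S + 8 * d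
        rw [e3, lv_sub]
        exact ly
      nx := by
        show ‖en (w.take k2)‖ ≤ lv (ev a) (en (w.take k2)) + 16 * d
        rw [e2]
        linarith
      far := by
        intro j hj hjM
        have hj' : k3 ≤ j := by
          have : (w.take k2).length + ((w.take k3).drop k2).length ≤ j := hj
          omega
        show O.m * S ≤ ‖ps w j - en (w.take k2)‖
        rw [e2]
        rcases Nat.lt_or_ge s j with h7 | h7
        · have h8 := hfar j h7 hjM
          have h9 : ‖ps w j‖ ≤ ‖ps w j - ps w k2‖ + ‖ps w k2‖ := by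
            have := norm_add_le (ps w j - ps w k2) (ps w k2)
            rwa [sub_add_cancel] at this
          have := I.far
          have hgS : 0 ≤ g * S := mul_nonneg hg hS.le
          linarith [lc.2, lx.2]
        · have h8 : lv (ev a) (ps w k3) ≤ lv (ev a) (ps w j) := by
            rcases eq_or_lt_of_le hj' with h9 | h9
            · rw [h9]
            · exact (hcut3.2 j h9 h7).le
          have h9 := (le_abs_self _).trans (abs_lv (ev_norm a) (ps w j - ps w k2))
          rw [lv_sub] at h9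
          linarith [ly.1]
      arm := by
        refine ⟨c, ?_, by omega, q2, fun i hi hi' => ?_⟩
        · show (w.take k2).length + ((w.take k3).drop k2).length ≤ c
          rw [l23]
          exact hk3c
        · rcases Nat.lt_or_ge s i with h7 | h7
          · exact hfar i h7 hi'
          · exact q5 i hi h7 }

section nat

variable {a : Fin 3} {E : Tp} {O : Ot} {S T g d Kd x : ℝ} {w : W3} {m : ℕ} {y : W3 × (W3 × W3)} {k : ℕ}

lemma NatW.lens (h : NatW a E O S T g d Kd x w m y k) :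
    (w.take m).length = y.1.length + (y.2.1.length + y.2.2.length) := by
  rw [h.e, List.length_append, List.length_append]

/-- the level of the gate `x` -/
lemma NatW.lvx (h : NatW a E O S T g d Kd x w m y k) :
    E.l * S + E.m * S ≤ lv (ev a) (en y.1) ∧ lv (ev a) (en y.1) ≤ E.l * S + E.m * S + 16 * d := by
  have h1 := h.lc
  have h2 := h.lx
  constructor <;> linarith [h1.1, h1.2, h2.1, h2.2]

/-- **the gate part of the strand** -/
theorem NatW.stg (h : NatW a E O S T g d Kd x w m y k) :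
    StG (ev a) (E.r * S) (E.l * S) (E.r2 * S) (E.m * S) (E.th * E.m * S) (E.rg * S) (w.take m) k y.1.length := by
  have e1 : (w.take m).take y.1.length = y.1 := by rw [h.e, List.take_left' rfl]
  have e2 : (w.take m).drop y.1.length = y.2.1 ++ y.2.2 := by rw [h.e, List.drop_left' rfl]
  refine ⟨?_, ?_, ?_, ?_⟩
  · rw [h.lens]
    have := h.bl
    omega
  · rw [e1]
    exact h.pre.g
  · rw [e1]
    exact h.pre.th
  · rw [e2]
    exact h.ed.right

/-- the prefixes of closed words are self-avoiding -/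
lemma sw_take_cl {w : W3} (hc : Cl w) {m : ℕ} (hm : m < w.length) : SW (w.take m) := by
  intro i j hi hj he
  rw [List.length_take, min_eq_left hm.le] at hi hj
  rw [ps_take w hi hm.le, ps_take w hj hm.le] at he
  exact hc.2.2 i j (by omega) (by omega) he

/-- **the start gates of the turned strand** are the native marks -/
theorem NatW.sg (h : NatW a E O S T g d Kd x w m y k) (hc : Cl w) (hm : m < w.length) (hE : E.Ok) {G : GP} (hG : G.Ok E)
    {T' : LSym} (hT : T'.L (ev a) = 1) (hS : 0 < S) (h1 : 1 ≤ G.ρ1 * S) (h2 : 1 ≤ G.ρ'' * S) :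
    sgE G T' 0 S .fp (w, m) ∧ sgc G T' 0 S .fp (w, m) = k ∧ sgx G T' 0 S .fp (w, m) = y.1.length := by
  have h3 := h.stg
  have h4 := h.lens
  have h5 : StG (ev a) (E.r * S) ((E.l + 0) * S) (E.r2 * S) (E.m * S) (E.th * E.m * S) (E.rg * S) (arcw m .fp w) k y.1.length := by
    rw [add_zero]
    exact h3
  have h6 := (arm_iff (w := w) (m := m) (k := .fp) hT (sw_take_cl hc hm) hE hG le_rfl hS h1 h2 h.k1.le (by
    show y.1.length < (w.take m).length
    have := h.bl
    omega)).1 h5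
  exact ⟨h6.1.1, h6.1.2.1.symm, h6.1.2.2.symm⟩

end nat

/-! ### 3. The mass -/

/-- the words of the window with two straight arms of at most `A S ^ (4 / 3)` letters -/
def WdR (K : ℕ) (d1 A l1 dl : ℝ) (i j : Fin 3) (S : ℝ) : Set (W3 × ℕ) :=
  {x | x ∈ WdP l1 (3 * l1) dl S ∧ Even x.2 ∧ x.1 ∈ RW K (d1 * S) (A * S ^ (4 / 3 : ℝ)) i j x.1.length}

/-- **the mass of the words with two straight arms** -/
theorem low_mw (K : ℕ) {i j : Fin 3} (hij : i ≠ j) {d1 dl : ℝ} (hd1 : 0 < d1) (hdl : 0 < dl) (hdl' : dl < 1 / 2) :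
    ∃ A l0 c : ℝ, 0 < A ∧ 0 < l0 ∧ 0 < c ∧ ∀ l1 : ℝ, l0 ≤ l1 → (A < dl * l1 ∧ 2 * A ≤ l1) ∧ ∀ ρ : ℝ, 0 < ρ → ∃ N0 : ℕ, ∀ N : ℕ,
      N0 ≤ N → ∀ b : ℝ, 3 * l1 * ρ ^ (4 / 3 : ℝ) ≤ b →
        c * √l1 * ρ ^ (2 / 3 : ℝ) ≤ (mwE N b).real (WdR K d1 A l1 dl i j (ρ * N)) := by
  obtain ⟨A, l0, c, hA, hl0, hc, h⟩ := C0N.n1_mw K hij hd1 hdl hdl'
  refine ⟨A, max l0 (2 * A / dl), c, hA, lt_max_of_lt_left hl0, hc, fun l1 hl1 => ⟨?_, fun ρ hρ => ?_⟩⟩
  · have h1 : 2 * A / dl ≤ l1 := (le_max_right _ _).trans hl1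
    rw [div_le_iff₀ hdl] at h1
    have h2 : 0 < l1 := hl0.trans_le ((le_max_left _ _).trans hl1)
    constructor
    · linarith
    · nlinarith
  · obtain ⟨N0, hN0⟩ := h l1 (3 * l1) ((le_max_left _ _).trans hl1) le_rfl ρ hρ
    refine ⟨N0, fun N hN b hb => (hN0 N hN b hb).trans (le_of_eq ?_)⟩
    rw [mwE_real, mwE_real]
    refine sum_congr rfl fun x _ => ?_
    by_cases hx : Even x.2
    · rw [if_pos hx, if_pos hx]
      congr 1
      refine Set.indicator_eq_indicator ?_ rfl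
      exact ⟨fun ⟨a1, a2, a3, a4, a5⟩ => ⟨⟨a1, a2, a3, a4⟩, hx, a5⟩, fun ⟨⟨a1, a2, a3, a4⟩, _, a5⟩ => ⟨a1, a2, a3, a4, a5⟩⟩
    · rw [if_neg hx, if_neg hx]

/-- the position of the second root of a word of the window -/
lemma wdp_pos {l1 dl A S : ℝ} (hS : 0 < S) (h1 : A < dl * l1) (h2 : 2 * A ≤ l1) (hdl : 0 < dl) {x : W3 × ℕ}
    (hx : x ∈ WdP l1 (3 * l1) dl S) : A * S ^ (4 / 3 : ℝ) ≤ x.2 ∧ (x.2 : ℝ) + A * S ^ (4 / 3 : ℝ) < x.1.length := by
  obtain ⟨a1, a2, a3, a4⟩ := hx
  have hS' : 0 < S ^ (4 / 3 : ℝ) := Real.rpow_pos_of_pos hS _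
  constructor
  · nlinarith
  · have h3 : A * S ^ (4 / 3 : ℝ) < dl * l1 * S ^ (4 / 3 : ℝ) := mul_lt_mul_of_pos_right h1 hS'
    have h4 : dl * (l1 * S ^ (4 / 3 : ℝ)) ≤ dl * x.1.length := mul_le_mul_of_nonneg_left a1 hdl.le
    linarith

/-- **the marks of all the words** -/
theorem nat_yy {E : Tp} (hE : E.Ok) {O : Ot} {N T g : ℝ} {K : ℕ} {d1 A l1 dl S : ℝ} (hS : 0 < S) (h1 : A < dl * l1)
    (h2 : 2 * A ≤ l1) (hdl : 0 < dl) (hA : 0 < A) (I : ArmI E O N T g K (d1 * S) (A * S ^ (4 / 3 : ℝ))) (hg : 0 ≤ g)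
    (hK : (5 : ℝ) ≤ K) (hrg : E.l * N + E.m * N + 40 * (d1 * S) + E.rg * N < K * (d1 * S))
    (hr0 : E.l * N + E.m * N + 40 * (d1 * S) + E.r0 * N < K * (d1 * S)) (i j : Fin 3) :
    ∃ (yy : W3 × ℕ → W3 × (W3 × W3)) (kk : W3 × ℕ → ℕ), ∀ x ∈ WdR K d1 A l1 dl i j S, Cl x.1 ∧ x.2 < x.1.length ∧
      NatW i E O N T g (d1 * S) (K * (d1 * S)) (A * S ^ (4 / 3 : ℝ)) x.1 x.2 (yy x) (kk x) := by
  have h : ∀ x : W3 × ℕ, ∃ y : (W3 × (W3 × W3)) × ℕ, x ∈ WdR K d1 A l1 dl i j S → Cl x.1 ∧ x.2 < x.1.length ∧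
      NatW i E O N T g (d1 * S) (K * (d1 * S)) (A * S ^ (4 / 3 : ℝ)) x.1 x.2 y.1 y.2 := by
    intro x
    by_cases hx : x ∈ WdR K d1 A l1 dl i j S
    · obtain ⟨k1, k2, k3⟩ := hx
      have k5 := k3.2
      have e0 : ax i = ev i := by
        rw [ev_step]
        rfl
      rw [e0] at k5
      obtain ⟨p, b, k, hk⟩ := nat_rev hE I hg hK hrg hr0 k3.1.1 k5
      obtain ⟨m1, m2⟩ := wdp_pos hS h1 h2 hdl k1
      refine ⟨(_, k), fun _ => ⟨k3.1.1, ?_, hk x.2 k2 m1 m2⟩⟩
      have h3 : 0 < A * S ^ (4 / 3 : ℝ) := mul_pos hA (Real.rpow_pos_of_pos hS _)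
      have : (x.2 : ℝ) < x.1.length := by linarith
      exact_mod_cast this
    · exact ⟨(([], ([], [])), 0), fun h4 => absurd h4 hx⟩
  choose f hf using h
  exact ⟨fun x => (f x).1, fun x => (f x).2, hf⟩

/-- **they are marked words** -/
theorem mkD_of {E : Tp} {O : Ot} {N T g : ℝ} {K : ℕ} {d1 A l1 dl S Kd : ℝ} {i j : Fin 3} {yy : W3 × ℕ → W3 × (W3 × W3)}
    {kk : W3 × ℕ → ℕ} (h : ∀ x ∈ WdR K d1 A l1 dl i j S, Cl x.1 ∧ x.2 < x.1.length ∧
      NatW i E O N T g (d1 * S) Kd (A * S ^ (4 / 3 : ℝ)) x.1 x.2 (yy x) (kk x)) :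
    MkD (ev i) (g * N) A S (Pre (ev i) E N T) (OtB (ev i) O N T) (WdP l1 (3 * l1) dl S) (WdR K d1 A l1 dl i j S)
      fun x => (yy x).2.1 := by
  refine ⟨fun x hx => hx.1, fun x hx _ _ => ⟨?_, ?_⟩⟩
  · have := hx.1.2.2.1
    exact_mod_cast this
  · obtain ⟨-, -, n⟩ := h x hx
    exact ⟨(yy x).1, (yy x).2.2, n.e, ⟨kk x, n.pre⟩, n.b, n.rest, n.e1.add n.e2, n.len⟩

/-- **the statistic of the tube** on the marked words -/
theorem NatW.tbs {a : Fin 3} {E : Tp} {O : Ot} {N T g d1 K x S : ℝ} {w : W3} {m : ℕ} {y : W3 × (W3 × W3)} {k : ℕ} (hS : 0 < S)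
    (hm : m ≤ w.length) (h : NatW a E O N T g (d1 * S) (K * (d1 * S)) x w m y k) :
    TbS ((K + 18) * d1) (ev a) (crv (w.take m) m S) ≤ 18 * d1 + 3 / S := by
  obtain ⟨c, c0, c1, c2, c3⟩ := h.arm
  have hps : ∀ k, k ≤ m → ps (w.take m) k = ps w k := fun k hk => ps_take w hk hm
  refine tbs_of_arm (ev_norm a) hS (s := c) c1 ⟨fun i hi => ?_, fun i j hij hj => ?_⟩ fun i hi hi' => ?_
  · rw [hps i (by omega)]
    obtain ⟨τ, t0, t1⟩ := c2.near i hi
    exact ⟨τ, t0, t1.trans (by linarith)⟩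
  · rw [hps i (by omega), hps j (by omega)]
    have := c2.back i j hij hj
    linarith
  · rw [hps i hi']
    have e1 : ((K + 18) * d1 - 18 * d1) * S = K * (d1 * S) := by ring
    rw [e1]
    exact c3 i hi hi'

end Pool.Agent.ROT.F3
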