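import Pool.Agent.ROT.F3Gate
import Pool.Agent.ROT.F3Dic

/-!
# ROT / F3C0Lit (helper83): the input of row W8s from the closed words

`shr N M d r r0 l B ψ` = the share of the closed words with `N + 1` letters whose first `M` letters are `p ++ (b ++ R)` with a
start piece `p` up to the first gate, a block `b ∈ B`, no return near the second gate in `R`; weight `ψ b`, cut off at 1.

**`C0L c0 C' ra rb la B ψ`**: at the scale `L` the closed words with about `lam * L ^ (4 / 3)` letters have a share at least `c0`,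
for every large `lam` (`c0`, `C'` do not depend on `lam`). **`W8s`** : then the mass of the blocks with the weight is at least `c1`.
-/

set_option autoImplicit false

namespace Pool.Agent.ROT.F3

open scoped ENNReal Classical

/-- the share of the closed words with a first gate, a block in `B` with the weight `ψ`, a second gate -/
noncomputable def shr (N M : ℕ) (d : ℂ) (r r0 l : ℝ) (B : Set W3) (ψ : W3 → ℝ≥0∞) : ℝ :=
  (∑' K : Cln (N + 1), (min 1 (gsum d r r0 l B ψ ((K : W3).take M))).toReal) / (Cln (N + 1)).ncard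

/-- **the input from the closed words** -/
def C0L (c0 C' ra rb la : ℝ) (d : ℂ) (B : ℝ → Set W3) (ψ : ℝ → W3 → ℝ≥0∞) : Prop :=
  ∀ lam : ℝ, C' ≤ lam → ∃ L0 : ℝ, ∀ L : ℝ, L0 ≤ L → ∃ N : ℕ, Odd N ∧ lam * L ^ (4 / 3 : ℝ) ≤ N ∧
    (N : ℝ) ≤ 4 * (lam * L ^ (4 / 3 : ℝ)) ∧ ∀ M : ℕ, Even M → C' * L ^ (4 / 3 : ℝ) ≤ M → 2 * M ≤ N →
      c0 ≤ shr N M d (ra * L) (rb * L) (la * L) (B L) (ψ L)

/-- **the share is bounded by the mass of the blocks** (row T12; `K1` is arbitrary large, `C` and `δ` depend on it) -/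
def T12 : Prop := ∀ ε a : ℝ, 0 < ε → 0 < a → ∃ K0 : ℝ, ∀ K1 : ℝ, K0 ≤ K1 → ∃ C δ s0 : ℝ, 0 < C ∧ 0 < δ ∧
  ∀ (s : ℝ) (M N : ℕ), s0 ≤ s → K1 * s ^ (4 / 3 : ℝ) ≤ M → (M : ℝ) ≤ 2 * (K1 * s ^ (4 / 3 : ℝ)) → Even M → Odd N →
    (M : ℝ) ≤ δ * N → ∀ (d : ℂ) (r r0 l : ℝ) (B : Set W3) (ψ : W3 → ℝ≥0∞), ‖d‖ = 1 → 2 * r ≤ r0 → r + a * s ≤ r0 →
      a * s < l → r0 ≤ s → (∀ b ∈ B, Even b.length ∧ ‖en b‖ ≤ s) → Sb B ψ ≠ ⊤ →
        shr N M d r r0 l B ψ ≤ C * (Sb B ψ).toReal + ε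

end Pool.Agent.ROT.F3
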