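import Pool.Agent.ROT.F3W8u
import Pool.Agent.ROT.F3SysV

/-!
# ROT / F3C0M (helper83): from the closed words of a window to row W8s

* `mkW` : the weight of the marks of a word (cut off at 1); `mkW_dec` : it is the same for all longer prefixes;
* **`c0_win`** : if the integral over a window of a function bounded by the weights of the marks is more than `c` times the mass of
  the window, then `C0At c C' lam` at this scale;
* **`c0_lim`** : the limit form, for the laws of the blocks;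
* **`kap_low`** : `c1 ≤ κ X` for the blocks of the classes `OtB`, from the mass of `X` in the limit law of the blocks of the marked closed words;
  `c1` and the least window `l0` depend on `c0`, `C'` and the ratios of the data only.
-/

set_option autoImplicit false

open MeasureTheory Filter Topology Finset

open scoped ENNReal Classical BoundedContinuousFunction

namespace Pool.Agent.ROT.F3

/-! ### 1. One word -/

/-- the weight of the marks, cut off at 1 -/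
noncomputable def mkW (d : ℂ) (r0 : ℝ) (P B : Set W3) (ψ : W3 → ℝ≥0∞) (q : W3) : ℝ := (min 1 (gsP d r0 P B ψ q)).toReal

lemma mkW_nonneg (d : ℂ) (r0 : ℝ) (P B : Set W3) (ψ : W3 → ℝ≥0∞) (q : W3) : 0 ≤ mkW d r0 P B ψ q := ENNReal.toReal_nonneg

/-- a rest stays a rest if it is shortened -/
lemma restC_take {d : ℂ} {r0 : ℝ} {R : W3} (h : RestC d r0 R) (k : ℕ) : RestC d r0 (R.take k) := by
  intro j hj hj2 hj3
  rw [List.length_take] at hj2
  by_cases hk : k ≤ R.length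
  · rw [ps_take R (by omega : j ≤ k) hk] at hj3 ⊢
    exact h j hj (by omega) hj3
  · rw [List.take_of_length_le (by omega : R.length ≤ k)] at hj3 ⊢
    exact h j hj (by omega) hj3

/-- **the marks of a prefix are marks of all the longer ones, and of the shorter ones behind the block** -/
lemma mkW_dec {d : ℂ} {r0 : ℝ} {P B : Set W3} {ψ : W3 → ℝ≥0∞} {w p b R : W3} {m M : ℕ} (e : w.take m = p ++ (b ++ R))
    (hp : p ∈ P) (hb : b ∈ B) (hR : RestC d r0 R) (ep : Even (p.length + b.length)) (hM : p.length + b.length ≤ M) (hMm : M ≤ m)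
    (hMw : M ≤ w.length) (eM : Even M) {y : ℝ} (hy : y ≤ 1) (hψ : ENNReal.ofReal y ≤ ψ b) : y ≤ mkW d r0 P B ψ (w.take M) := by
  obtain ⟨k, hk⟩ : ∃ k, k = M - (p.length + b.length) := ⟨_, rfl⟩
  have hl := congrArg List.length e
  rw [List.length_take, List.length_append, List.length_append] at hl
  have hkR : k ≤ R.length := by omega
  have e1 : w.take M = p ++ (b ++ R.take k) := by
    have h1 : w.take M = (w.take m).take M := by rw [List.take_take, min_eq_left hMm]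
    rw [h1, e, List.take_append, List.take_of_length_le (by omega), List.take_append,
      List.take_of_length_le (by omega : b.length ≤ M - p.length)]
    congr 3
    omega
  have hdc : DcP d r0 P B (w.take M) p b (R.take k) := by
    refine ⟨e1, hp, hb, ?_, restC_take hR k⟩
    rw [List.length_take, min_eq_left hkR, hk]
    rw [Nat.even_sub hM]
    exact ⟨fun _ => ep, fun _ => eM⟩
  have h2 : ψ b ≤ gsP d r0 P B ψ (w.take M) := by
    unfold gsP
    refine le_trans ?_ (ENNReal.le_tsum (p, b, R.take k))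
    show ψ b ≤ if DcP d r0 P B (w.take M) p b (R.take k) then ψ b else 0
    rw [if_pos hdc]
  have h3 : ENNReal.ofReal y ≤ min 1 (gsP d r0 P B ψ (w.take M)) :=
    le_min (ENNReal.ofReal_le_one.2 hy) (hψ.trans h2)
  unfold mkW
  exact (ENNReal.ofReal_le_iff_le_toReal (ne_top_of_le_ne_top ENNReal.one_ne_top (min_le_left _ _))).1 h3

/-! ### 2. One window -/

lemma tsum_cln (n : ℕ) (f : W3 → ℝ) : ∑' K : Cln n, f K = ∑ w ∈ (Cln_finite n).toFinset, f w := by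
  rw [tsum_subtype (Cln n) f, tsum_eq_sum (s := (Cln_finite n).toFinset)]
  · exact Finset.sum_congr rfl fun w hw => Set.indicator_of_mem ((Cln_finite n).mem_toFinset.1 hw) f
  · intro w hw
    exact Set.indicator_of_notMem (fun h => hw ((Cln_finite n).mem_toFinset.2 h)) f

lemma sum_TN {N : ℕ} {b : ℝ} (f : W3 × ℕ → ℝ) : ∑ x ∈ TN N b, f x =
    ∑ l ∈ Finset.range (⌊b * (N : ℝ) ^ (4 / 3 : ℝ)⌋₊ + 1), ∑ m ∈ Finset.range l, ∑ w ∈ (Cln_finite l).toFinset, f (w, m) := by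
  unfold TN
  rw [Finset.sum_biUnion]
  · refine Finset.sum_congr rfl fun l _ => ?_
    rw [Finset.sum_product, Finset.sum_comm]
  · intro l _ l' _ hl
    rw [Function.onFun, Finset.disjoint_left]
    intro x hx hx'
    rw [Finset.mem_product, Set.Finite.mem_toFinset] at hx hx'
    exact hl (hx.1.2.symm.trans hx'.1.2)

lemma mwE_set {N : ℕ} {b : ℝ} (W : Set (W3 × ℕ)) (f : W3 × ℕ → ℝ) :
    ∫ x in W, f x ∂(mwE N b) = ∑ x ∈ TN N b, wN N x.1 * (if Even x.2 then W.indicator f x else 0) := by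
  rw [← integral_indicator (MeasurableSet.of_discrete (s := W)), mwE_int, mw_int]

lemma mwE_real {N : ℕ} {b : ℝ} (W : Set (W3 × ℕ)) :
    (mwE N b).real W = ∑ x ∈ TN N b, wN N x.1 * (if Even x.2 then W.indicator (fun _ => 1) x else 0) := by
  rw [← mwE_set, setIntegral_const, smul_eq_mul, mul_one]

/-- **one window**: a function below the weights of the marks -/
theorem c0_win {d : ℂ} {r0 c C' lam S b : ℝ} {P B : Set W3} {ψ : W3 → ℝ≥0∞} {N : ℕ} {V : Set (ℕ × ℕ)}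
    {W : Set (W3 × ℕ)} (hW : ∀ x, x ∈ W ↔ (x.1.length, x.2) ∈ V)
    (hV : ∀ n m : ℕ, (n, m) ∈ V → lam * S ^ (4 / 3 : ℝ) + 1 ≤ n ∧ (n : ℝ) ≤ 4 * (lam * S ^ (4 / 3 : ℝ)))
    {G : W3 × ℕ → ℝ} (hG : ∀ x ∈ W, Cl x.1 → Even x.2 → ∀ M : ℕ, Even M → C' * S ^ (4 / 3 : ℝ) ≤ M → 2 * M < x.1.length →
      G x ≤ mkW d r0 P B ψ (x.1.take M))
    (h : c * (mwE N b).real W < ∫ x in W, G x ∂(mwE N b)) : C0At c C' lam r0 d P B ψ S := by
  by_contra hC
  unfold C0At at hC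
  push Not at hC
  rw [mwE_set, mwE_real, sum_TN, sum_TN, Finset.mul_sum] at h
  refine absurd h (not_lt.2 (Finset.sum_le_sum fun l _ => ?_))
  rw [Finset.mul_sum]
  refine Finset.sum_le_sum fun m _ => ?_
  by_cases hm : Even m
  swap
  · simp only [if_neg hm, mul_zero, Finset.sum_const_zero, le_refl]
  by_cases hl : (l, m) ∈ V
  swap
  · have e0 : ∀ (g : W3 × ℕ → ℝ), ∀ w ∈ (Cln_finite l).toFinset, wN N w * (if Even m then W.indicator g (w, m) else 0) = 0 := by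
      intro g w hw
      rw [Set.Finite.mem_toFinset] at hw
      rw [Set.indicator_of_notMem, ite_self, mul_zero]
      rw [hW]
      show ((w.length, m) : ℕ × ℕ) ∉ V
      rw [hw.2]
      exact hl
    show ∑ w ∈ (Cln_finite l).toFinset, wN N w * (if Even m then W.indicator G (w, m) else 0) ≤
      c * ∑ w ∈ (Cln_finite l).toFinset, wN N w * (if Even m then W.indicator (fun _ => 1) (w, m) else 0)
    rw [Finset.sum_eq_zero (e0 G), Finset.sum_eq_zero (e0 fun _ => 1), mul_zero]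
  obtain ⟨v1, v2⟩ := hV l m hl
  by_cases el : Even l
  swap
  · have e0 : (Cln_finite l).toFinset = ∅ := by
      rw [← Finset.coe_inj, Set.Finite.coe_toFinset, Finset.coe_empty, Cln_empty el]
    rw [e0, Finset.sum_empty, Finset.sum_empty, mul_zero]
  -- the bad prefix
  have hl1 : 1 ≤ l := by
    by_contra hc0
    have h0 : l = 0 := by omega
    rw [h0] at v1 v2
    simp only [Nat.cast_zero] at v1 v2
    linarith
  obtain ⟨n, hn⟩ : ∃ n, l = n + 1 := ⟨l - 1, by omega⟩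
  have on : Odd n := by
    rw [hn] at el
    rw [Nat.even_add_one] at el
    exact Nat.not_even_iff_odd.1 el
  have hnl : (l : ℝ) = n + 1 := by
    rw [hn]
    push_cast
    rfl
  obtain ⟨M, m1, m2, m3, m4⟩ := hC n on (by linarith) (by linarith)
  have key : ∑ w ∈ (Cln_finite l).toFinset, mkW d r0 P B ψ (w.take M) ≤ c * ((Cln_finite l).toFinset.card : ℝ) := by
    unfold shP at m4
    have e1 : ∑' K : Cln (n + 1), (min 1 (gsP d r0 P B ψ ((K : W3).take M))).toReal =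
        ∑ w ∈ (Cln_finite (n + 1)).toFinset, mkW d r0 P B ψ (w.take M) :=
      tsum_cln (n + 1) fun w => (min 1 (gsP d r0 P B ψ (w.take M))).toReal
    rw [e1, Set.ncard_eq_toFinset_card (Cln (n + 1)) (Cln_finite (n + 1)), ← hn] at m4
    rcases Nat.eq_zero_or_pos (Cln_finite l).toFinset.card with h0 | h0
    · rw [Finset.card_eq_zero] at h0
      rw [h0, Finset.sum_empty, Finset.card_empty, Nat.cast_zero, mul_zero]
    · rw [div_lt_iff₀ (by exact_mod_cast h0)] at m4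
      exact m4.le
  have hwN : ∀ w ∈ (Cln_finite l).toFinset, wN N w = (N : ℝ) ^ (-(2 / 3) : ℝ) * Pool.Agent.NTS.Res.fug ^ l := by
    intro w hw
    rw [Set.Finite.mem_toFinset] at hw
    unfold wN
    rw [hw.2]
  obtain ⟨ω, hω⟩ : ∃ ω : ℝ, ω = (N : ℝ) ^ (-(2 / 3) : ℝ) * Pool.Agent.NTS.Res.fug ^ l := ⟨_, rfl⟩
  have hω0 : 0 ≤ ω := by
    rw [hω]
    have h1 : (0 : ℝ) ≤ Pool.Agent.NTS.Res.fug := inv_nonneg.2 (Real.sqrt_nonneg _)
    positivity
  have hin : ∀ w ∈ (Cln_finite l).toFinset, (w, m) ∈ W := by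
    intro w hw
    rw [Set.Finite.mem_toFinset] at hw
    rw [hW]
    show ((w.length, m) : ℕ × ℕ) ∈ V
    rw [hw.2]
    exact hl
  have s1 : ∑ w ∈ (Cln_finite l).toFinset, wN N w * (if Even m then W.indicator G (w, m) else 0) ≤
      ∑ w ∈ (Cln_finite l).toFinset, ω * mkW d r0 P B ψ (w.take M) := by
    refine Finset.sum_le_sum fun w hw => ?_
    rw [hwN w hw, ← hω, if_pos hm, Set.indicator_of_mem (hin w hw)]
    refine mul_le_mul_of_nonneg_left ?_ hω0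
    have hw' := hw
    rw [Set.Finite.mem_toFinset] at hw'
    refine hG (w, m) (hin w hw) hw'.1 hm M m1 m2 ?_
    show 2 * M < w.length
    rw [hw'.2]
    omega
  have s2 : ∑ w ∈ (Cln_finite l).toFinset, wN N w * (if Even m then W.indicator (fun _ => 1) (w, m) else 0) =
      ω * ((Cln_finite l).toFinset.card : ℝ) := by
    rw [Finset.sum_congr rfl fun w hw => by
      rw [hwN w hw, ← hω, if_pos hm, Set.indicator_of_mem (hin w hw), mul_one]]
    rw [Finset.sum_const, nsmul_eq_mul, mul_comm]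
  refine s1.trans ?_
  show _ ≤ c * ∑ w ∈ (Cln_finite l).toFinset, wN N w * (if Even m then W.indicator (fun _ => 1) (w, m) else 0)
  rw [s2, ← Finset.mul_sum]
  calc ω * ∑ w ∈ (Cln_finite l).toFinset, mkW d r0 P B ψ (w.take M)
      ≤ ω * (c * ((Cln_finite l).toFinset.card : ℝ)) := mul_le_mul_of_nonneg_left key hω0
    _ = c * (ω * ((Cln_finite l).toFinset.card : ℝ)) := by ring

/-! ### 3. The limit form -/

/-- the marked words `A` of a window: `bb x` = the block of `x` -/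
def MkD (d : ℂ) (r0 C' S : ℝ) (P B : Set W3) (W A : Set (W3 × ℕ)) (bb : W3 × ℕ → W3) : Prop :=
  A ⊆ W ∧ ∀ x ∈ A, Cl x.1 → Even x.2 → x.1.length ≤ 2 * x.2 ∧ ∃ p R : W3, x.1.take x.2 = p ++ (bb x ++ R) ∧ p ∈ P ∧ bb x ∈ B ∧
    RestC d r0 R ∧ Even (p.length + (bb x).length) ∧ ((p.length + (bb x).length : ℕ) : ℝ) ≤ C' * S ^ (4 / 3 : ℝ)

/-- **the limit form** -/
theorem c0_lim {c C' lam b mass η : ℝ} (hc : 0 < c) {U : Ultrafilter ℕ} {S r0 s t : ℕ → ℝ} {d : ℕ → ℂ} {P B : ℕ → Set W3}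
    {V : ℕ → Set (ℕ × ℕ)} {W A : ℕ → Set (W3 × ℕ)} {bb : ℕ → W3 × ℕ → W3} {μ : Measure (CI3 × ℝ)} {X : Set (CI3 × ℝ)}
    (hW : ∀ N x, x ∈ W N ↔ (x.1.length, x.2) ∈ V N)
    (hV : ∀ᶠ N in (U : Filter ℕ), ∀ n m : ℕ, (n, m) ∈ V N → lam * S N ^ (4 / 3 : ℝ) + 1 ≤ n ∧
      (n : ℝ) ≤ 4 * (lam * S N ^ (4 / 3 : ℝ)))
    (hA : ∀ᶠ N in (U : Filter ℕ), MkD (d N) (r0 N) C' (S N) (P N) (B N) (W N) (A N) (bb N))
    (hm : ∀ᶠ N in (U : Filter ℕ), (mwE N b).real (W N) ≤ mass)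
    (hlim : ∀ h : (CI3 × ℝ) →ᵇ ℝ, Tendsto (fun N => ∫ x in A N, h (cr (s N) (t N) (bb N x)) ∂(mwE N b)) (U : Filter ℕ)
      (𝓝 (∫ x, h x ∂μ)))
    (hμ : IsFiniteMeasure μ) (hX : MeasurableSet X) (hη : c * mass + η < μ.real X)
    {ψ : (CI3 × ℝ) →ᵇ ℝ} (h1 : ∀ x, ψ x ≤ 1) (hψ : ∫ x, |ψ x - X.indicator (fun _ => (1 : ℝ)) x| ∂μ ≤ η) :
    ∀ᶠ N in (U : Filter ℕ), C0At c C' lam (r0 N) (d N) (P N) (B N) (fun b => ENNReal.ofReal (ψ (cr (s N) (t N) b))) (S N) := by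
  have h2 : c * mass < ∫ x, ψ x ∂μ := by
    have e1 : μ.real X = ∫ x, X.indicator (fun _ => (1 : ℝ)) x ∂μ := by
      rw [integral_indicator hX, setIntegral_const, smul_eq_mul, mul_one]
    have iX : Integrable (X.indicator fun _ => (1 : ℝ)) μ := (integrable_const (1 : ℝ)).indicator hX
    have e2 : ∫ x, X.indicator (fun _ => (1 : ℝ)) x ∂μ - ∫ x, ψ x ∂μ ≤ ∫ x, |ψ x - X.indicator (fun _ => (1 : ℝ)) x| ∂μ := by
      rw [← integral_sub iX (ψ.integrable μ)]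
      refine integral_mono (iX.sub (ψ.integrable μ)) ((ψ.integrable μ).sub iX).abs fun x => ?_
      rw [abs_sub_comm]
      exact le_abs_self _
    linarith
  filter_upwards [hV, hA, hm, (hlim ψ).eventually (eventually_gt_nhds h2)] with N g1 g2 g3 g4
  obtain ⟨G, hG⟩ : ∃ G : W3 × ℕ → ℝ, G = (A N).indicator fun x => ψ (cr (s N) (t N) (bb N x)) := ⟨_, rfl⟩
  have hGi : ∫ x in W N, G x ∂(mwE N b) = ∫ x in A N, ψ (cr (s N) (t N) (bb N x)) ∂(mwE N b) := by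
    rw [← integral_indicator (MeasurableSet.of_discrete (s := W N)), ← integral_indicator (MeasurableSet.of_discrete (s := A N)), hG]
    congr 1
    rw [Set.indicator_indicator, Set.inter_eq_right.2 g2.1]
  refine c0_win (N := N) (b := b) (V := V N) (W := W N) (G := G) (hW N) g1 (fun x hx hcl he M hM1 hM2 hM3 => ?_) ?_
  · by_cases hxA : x ∈ A N
    · obtain ⟨k0, p, R, k1, k2, k3, k4, k5, k6⟩ := g2.2 x hxA hcl he
      rw [hG, Set.indicator_of_mem hxA]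
      have h3 : ((p.length + (bb N x).length : ℕ) : ℝ) ≤ M := k6.trans hM2
      exact mkW_dec k1 k2 k3 k4 k5 (by exact_mod_cast h3) (by omega) (by omega) hM1 (h1 _) le_rfl
    · rw [hG, Set.indicator_of_notMem hxA]
      exact mkW_nonneg _ _ _ _ _ _
  · rw [hGi]
    refine lt_of_le_of_lt ?_ g4
    exact mul_le_mul_of_nonneg_left g3 hc.le

/-- the window of the lengths `[l1, l2] S ^ (4 / 3)`, second root between the middle and `(1 - dl) |w|` -/
def WdP (l1 l2 dl S : ℝ) : Set (W3 × ℕ) := {x | l1 * S ^ (4 / 3 : ℝ) ≤ x.1.length ∧ (x.1.length : ℝ) ≤ l2 * S ^ (4 / 3 : ℝ) ∧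
  (x.1.length : ℝ) ≤ 2 * x.2 ∧ (x.2 : ℝ) ≤ (1 - dl) * x.1.length}

/-- **the mass of the blocks in `X`**, in the limit -/
theorem kap_low {c0 C' ra rb la sb : ℝ} (hc0 : 0 < c0) (hrb : 2 * ra ≤ rb) (hrb0 : 0 < rb) (hla : 0 < la) :
    ∃ c1 l0 : ℝ, 0 < c1 ∧ 0 < l0 ∧ ∀ l1 : ℝ, l0 ≤ l1 → ∀ (ρ b dl mass : ℝ) (E : Tp) (O : Ot) (U : Ultrafilter ℕ) (a : Fin 3)
      (T s t : ℕ → ℝ) (κ μ : Measure (CI3 × ℝ)) (X : Set (CI3 × ℝ)) (A : ℕ → Set (W3 × ℕ)) (bb : ℕ → W3 × ℕ → W3), 0 < ρ →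
      E.Ok → E.r + E.r2 ≤ ra * ρ → la * ρ ≤ E.l → O.r ≤ sb * ρ → (U : Filter ℕ) ≤ atTop → IsFiniteMeasure κ →
      IsFiniteMeasure μ → MeasurableSet X →
      (∀ h : (CI3 × ℝ) →ᵇ ℝ, Tendsto (fun N : ℕ => ∫ x, h x ∂(rm 1 (s N) (t N) (OtB (ev a) O N (T N)) fun _ => 1))
        (U : Filter ℕ) (𝓝 (∫ x, h x ∂κ))) →
      (∀ᶠ N : ℕ in (U : Filter ℕ), MkD (ev a) (rb * (ρ * N)) C' (ρ * N) (Pre (ev a) E N (T N)) (OtB (ev a) O N (T N))
        (WdP l1 (3 * l1) dl (ρ * N)) (A N) (bb N)) →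
      (∀ᶠ N : ℕ in (U : Filter ℕ), (mwE N b).real (WdP l1 (3 * l1) dl (ρ * N)) ≤ mass) →
      (∀ h : (CI3 × ℝ) →ᵇ ℝ, Tendsto (fun N : ℕ => ∫ x in A N, h (cr (s N) (t N) (bb N x)) ∂(mwE N b)) (U : Filter ℕ)
        (𝓝 (∫ x, h x ∂μ))) →
      c0 * mass < μ.real X → ENNReal.ofReal c1 ≤ κ X := by
  obtain ⟨c1, lam0, A0, L1, hc1, hlam0, -, -, hW⟩ := w8u (c0 := c0) (C' := C') (sb := sb) hc0 hrb hrb0 hla
  refine ⟨c1, 4 / 3 * lam0, hc1, by positivity, fun l1 hl1 ρ b dl mass E O U a T s t κ μ X A bb hρ hE e1 e2 e3 hU hκ hμ hX hk hA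
    hm hlim hX2 => ?_⟩
  have hl : lam0 ≤ 3 / 4 * l1 := by linarith
  have hl10 : 0 < l1 := by linarith
  obtain ⟨η, hη, hη2⟩ : ∃ η : ℝ, 0 < η ∧ c0 * mass + η < μ.real X := ⟨(μ.real X - c0 * mass) / 2, by linarith, by linarith⟩
  have hN : Tendsto (fun N : ℕ => (N : ℝ)) (U : Filter ℕ) atTop := tendsto_natCast_atTop_atTop.mono_left hU
  refine (hW (3 / 4 * l1) hl).2 ρ E O U a (fun N => (N : ℝ)) T s t κ μ X η hρ hE e1 e2 e3 hN hκ hμ hX hη hk fun ψ h0 h1 hψ => ?_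
  refine c0_lim (S := fun N : ℕ => ρ * N) (r0 := fun N : ℕ => rb * (ρ * N)) (d := fun _ => ev a)
    (P := fun N => Pre (ev a) E N (T N)) (B := fun N => OtB (ev a) O N (T N))
    (V := fun N => {q | l1 * (ρ * N) ^ (4 / 3 : ℝ) ≤ (q.1 : ℝ) ∧ (q.1 : ℝ) ≤ 3 * l1 * (ρ * N) ^ (4 / 3 : ℝ) ∧
      (q.1 : ℝ) ≤ 2 * q.2 ∧ (q.2 : ℝ) ≤ (1 - dl) * q.1})
    (W := fun N : ℕ => WdP l1 (3 * l1) dl (ρ * N)) hc0 (fun N x => Iff.rfl) ?_ hA hm hlim hμ hX hη2 h1 hψ
  have h3 : ∀ᶠ N : ℕ in (U : Filter ℕ), max 1 (4 / l1) ≤ ρ * N := (hN.const_mul_atTop hρ).eventually_ge_atTop _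
  filter_upwards [h3] with N g1 n m hq
  have g2 : 1 ≤ ρ * (N : ℝ) := (le_max_left _ _).trans g1
  have g3 : 4 / l1 ≤ ρ * (N : ℝ) := (le_max_right _ _).trans g1
  have g4 : ρ * (N : ℝ) ≤ (ρ * (N : ℝ)) ^ (4 / 3 : ℝ) := by
    calc ρ * (N : ℝ) = (ρ * (N : ℝ)) ^ (1 : ℝ) := (Real.rpow_one _).symm
      _ ≤ _ := Real.rpow_le_rpow_of_exponent_le g2 (by norm_num)
  have g5 : 4 ≤ l1 * (ρ * (N : ℝ)) ^ (4 / 3 : ℝ) := by
    rw [div_le_iff₀ hl10] at g3
    nlinarith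
  obtain ⟨q1, q2, -, -⟩ := hq
  constructor
  · linarith
  · linarith

end Pool.Agent.ROT.F3
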