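import Pool.Agent.ROT.W4Pol
import Pool.Agent.TSW.BadK

/-!
# ROT, row W4C (helper14, literal of helper36): transport of an event of free walks to the polygons

* `steps_eq` : equal turns and equal first steps give equal displacements;
* **`comp_of`** : all but few polygons have, for the piece between the vertices number `i` and `i + l`, a free walk with the same
  piece between two short confined ends which is not in a given event of small probability.
-/

set_option autoImplicit false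

open scoped Classical

namespace Pool.Agent.ROT.W4

open Finset

open Pool.Agent.PMA Pool.Agent.PMA.Res Pool.Agent.NTS.Res

open NTSF (rot)

/-- equal turns and equal first steps -/
lemma steps_eq {N n a i l : ℕ} {t : Fin N → Fin 3} {s : Fin n → Fin 3} (ht : t ∈ saw N) (hs : s ∈ saw n) (ha : a + l < N)
    (hi : i + l < n) (h0 : step a (t ⟨a, by omega⟩) = step i (s ⟨i, by omega⟩)) (hT : tl t a l = tl s i l) :
    ∀ (k : ℕ) (hk : k ≤ l), step (a + k) (t ⟨a + k, by omega⟩) = step (i + k) (s ⟨i + k, by omega⟩) := by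
  have hturn : ∀ k, k < l → Pool.Agent.TSW.turn t (a + k) = Pool.Agent.TSW.turn s (i + k) := by
    intro k hk
    have h1 : (tl t a l).getD k true = (tl s i l).getD k true := by rw [hT]
    unfold tl at h1
    rw [List.getD_eq_getElem _ _ (by rw [List.length_map, List.length_range]; exact hk),
      List.getD_eq_getElem _ _ (by rw [List.length_map, List.length_range]; exact hk), List.getElem_map, List.getElem_map,
      List.getElem_range] at h1
    exact h1
  intro k
  induction k with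
  | zero => exact fun _ => h0
  | succ k ih =>
    intro hk
    have h1 := Pool.Agent.TSW.turnStep ht (i := a + k) (by omega)
    have h2 := Pool.Agent.TSW.turnStep hs (i := i + k) (by omega)
    rw [hturn k (by omega), ih (by omega), ← h2] at h1
    exact h1

/-- equal turns and equal first steps: displacements -/
lemma disp_eq {N n a i l : ℕ} {t : Fin N → Fin 3} {s : Fin n → Fin 3} (ht : t ∈ saw N) (hs : s ∈ saw n) (ha : a + l < N)
    (hi : i + l < n) (h0 : step a (t ⟨a, by omega⟩) = step i (s ⟨i, by omega⟩)) (hT : tl t a l = tl s i l) :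
    ∀ k, k ≤ l → pos t (a + k) - pos t a = pos s (i + k) - pos s i := by
  have h := steps_eq ht hs ha hi h0 hT
  intro k
  induction k with
  | zero =>
    intro _
    rw [add_zero, add_zero, sub_self, sub_self]
  | succ k ih =>
    intro hk
    have h1 := NTSF.pos_succ t (a + k) (by omega)
    have h2 := NTSF.pos_succ s (i + k) (by omega)
    rw [← add_assoc, ← add_assoc, h1, h2, add_sub_right_comm, ih (by omega), h k (by omega), add_sub_right_comm]

lemma step_even {i j : ℕ} (hi : Even i) (hj : Even j) (x : Fin 3) : step i x = step j x := by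
  unfold step
  rw [hi.neg_one_pow, hj.neg_one_pow]

/-- the walk turned by `k` times 120 degrees -/
def rk {n : ℕ} (k : Fin 3) (s : Fin n → Fin 3) : Fin n → Fin 3 := fun j => s j + k

lemma rk_cases {n : ℕ} (k : Fin 3) (s : Fin n → Fin 3) : rk k s = s ∨ rk k s = rot s ∨ rk k s = rot (rot s) := by
  have e0 : ∀ x : Fin 3, x + 0 = x := by decide
  have e2 : ∀ x : Fin 3, x + 2 = x + 1 + 1 := by decide
  fin_cases k
  · left
    funext j
    exact e0 _
  · right
    left
    rfl
  · right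
    right
    funext j
    exact e2 _

lemma rk_mem {n : ℕ} {s : Fin n → Fin 3} (hs : s ∈ saw n) (k : Fin 3) : rk k s ∈ saw n := by
  rcases rk_cases k s with h | h | h <;> rw [h]
  · exact hs
  · exact NTSF.rot_mem.2 hs
  · exact NTSF.rot_mem.2 (NTSF.rot_mem.2 hs)

lemma rk_fun {n : ℕ} {α : Type*} (g : (Fin n → Fin 3) → α) (hg : ∀ s, g (rot s) = g s) (s : Fin n → Fin 3) (k : Fin 3) :
    g (rk k s) = g s := by
  rcases rk_cases k s with h | h | h <;> rw [h]
  · rw [hg]
  · rw [hg, hg]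

lemma rk_inj {n : ℕ} (k : Fin 3) : Function.Injective (rk k (n := n)) := by
  intro s s' h
  funext i
  have h1 : s i + k = s' i + k := congrFun h i
  exact add_right_cancel h1

/-- the rotated bad walks -/
lemma bad_rk {n : ℕ} (B : (Fin n → Fin 3) → Prop) (k : Fin 3) :
    ((saw n).filter fun s => B (rk k s)).card ≤ ((saw n).filter B).card := by
  refine Finset.card_le_card_of_injOn (fun s => rk k s) (fun s hs => ?_) (fun s _ s' _ h => rk_inj k h)
  rw [Finset.mem_coe, Finset.mem_filter] at hs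
  rw [Finset.mem_coe, Finset.mem_filter]
  exact ⟨rk_mem hs.1 k, hs.2⟩

/-- **transport of an event of free walks to the polygons** -/
theorem comp_of {P : ℕ → ℕ → ℕ → List Bool → ℝ} {κ dt : ℝ} (hS : ∀ ε δ : ℝ, 0 < ε → 0 < δ → S2H P ε δ dt)
    (hP : ∀ n a l t, P n a l t ≤ cnfW (κ * (n : ℝ) ^ (3 / 4 : ℝ)) a l t) {ε c : ℝ} (hε : 0 < ε) (hc : 0 < c) :
    ∃ (θ C : ℝ) (n0 : ℕ), 0 < θ ∧ 0 < C ∧ ∀ n : ℕ, n0 ≤ n → Odd n → ∀ i l : ℕ, Even i → i + l < n → (l : ℝ) ≤ (1 - c) * n →
      ∀ (Bad : ∀ k : ℕ, (Fin k → Fin 3) → Prop) (η : ℝ), 0 ≤ η →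
        (∀ a b : ℕ, θ * n ≤ a → (a : ℝ) ≤ dt * n → θ * n ≤ b → (b : ℝ) ≤ dt * n → Even a →
          (((saw (a + l + b)).filter (Bad _)).card : ℝ) ≤ η * ((saw (a + l + b)).card : ℝ)) →
        (((pol n).filter fun s => ¬ ∃ (a b : ℕ) (t : Fin (a + l + b) → Fin 3), θ * n ≤ a ∧ (a : ℝ) ≤ dt * n ∧ θ * n ≤ b ∧
          (b : ℝ) ≤ dt * n ∧ Even a ∧ t ∈ saw (a + l + b) ∧ (∀ k : ℕ, k ≤ l → pos t (a + k) - pos t a = pos s (i + k) - pos s i) ∧
          cnfS (κ * (n : ℝ) ^ (3 / 4 : ℝ)) a l t = 1 ∧ ¬ Bad _ t).card : ℝ) ≤ (C * (3 * η) + ε) * ((pol n).card : ℝ) := by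
  obtain ⟨θ, C, n0, hθ, hC, h⟩ := pol_of hS hP hε hc
  obtain ⟨n1, hn1⟩ := exists_nat_ge (1 / θ)
  refine ⟨θ, C, n0 + n1 + 1, hθ, hC, fun n hn ho i l hie hil hl Bad η hη hB => ?_⟩
  have hθn : 1 ≤ θ * n := by
    have h3 : 1 / θ ≤ n := hn1.trans (by exact_mod_cast (by omega : n1 ≤ n))
    rw [div_le_iff₀ hθ] at h3
    linarith
  obtain ⟨R, hR⟩ : ∃ R : ℝ, R = κ * (n : ℝ) ^ (3 / 4 : ℝ) := ⟨_, rfl⟩
  obtain ⟨Gd, hGd⟩ : ∃ Gd : Fin 3 → List Bool → Prop, Gd = fun f T => ∃ (a b : ℕ) (t : Fin (a + l + b) → Fin 3), θ * n ≤ a ∧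
      (a : ℝ) ≤ dt * n ∧ θ * n ≤ b ∧ (b : ℝ) ≤ dt * n ∧ Even a ∧ t ∈ saw (a + l + b) ∧ (∃ h : a < a + l + b, t ⟨a, h⟩ = f) ∧
      tl t a l = T ∧ cnfS R a l t = 1 ∧ ¬ Bad _ t := ⟨_, rfl⟩
  obtain ⟨g, hg⟩ : ∃ g : List Bool → ℝ, g = fun T => if ∀ f : Fin 3, Gd f T then 0 else 1 := ⟨_, rfl⟩
  have g0 : ∀ T, 0 ≤ g T := fun T => by
    rw [hg]
    show (0 : ℝ) ≤ if ∀ f : Fin 3, Gd f T then 0 else 1
    split_ifs <;> norm_num
  have g1 : ∀ T, g T ≤ 1 := fun T => by
    rw [hg]
    show (if ∀ f : Fin 3, Gd f T then (0 : ℝ) else 1) ≤ 1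
    split_ifs <;> norm_num
  have key := h n (by omega) ho i l hil hl g g0 g1 (3 * η) (by positivity) (by
    intro a b a1 a2 b1 b2 hae
    have hb : 1 ≤ b := by
      have : (1 : ℝ) ≤ b := hθn.trans b1
      exact_mod_cast this
    have h1 : ∀ s ∈ saw (a + l + b), g (tl s a l) * cnfS (κ * (n : ℝ) ^ (3 / 4 : ℝ)) a l s ≤
        ∑ k : Fin 3, if Bad _ (rk k s) then (1 : ℝ) else 0 := by
      intro s hs
      rw [← hR]
      have hsum : ∀ k ∈ (univ : Finset (Fin 3)), (0 : ℝ) ≤ if Bad _ (rk k s) then (1 : ℝ) else 0 := fun k _ => by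
        split_ifs <;> norm_num
      have hs0 := sum_nonneg hsum
      by_cases hcn : cnfS R a l s = 1
      · rw [hcn, mul_one]
        by_cases hgd : ∀ f : Fin 3, Gd f (tl s a l)
        · rw [hg]
          show (if ∀ f : Fin 3, Gd f (tl s a l) then (0 : ℝ) else 1) ≤ _
          rw [if_pos hgd]
          exact hs0
        · refine (g1 _).trans ?_
          push Not at hgd
          obtain ⟨f, hf⟩ := hgd
          have ha : a < a + l + b := by omega
          obtain ⟨k, hkf⟩ : ∃ k : Fin 3, s ⟨a, ha⟩ + k = f := ⟨f - s ⟨a, ha⟩, add_sub_cancel _ _⟩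
          have hbad : Bad _ (rk k s) := by
            by_contra hnb
            refine hf ?_
            rw [hGd]
            refine ⟨a, b, rk k s, a1, a2, b1, b2, hae, rk_mem hs k, ⟨ha, hkf⟩, ?_, ?_, hnb⟩
            · exact rk_fun (fun s => tl s a l) (fun s => tl_rot s a l) s k
            · rw [rk_fun (fun s => cnfS R a l s) (fun s => cnfS_rot s) s k]
              exact hcn
          have h3 := single_le_sum hsum (mem_univ k)
          rw [if_pos hbad] at h3
          exact h3
      · have hc0 : cnfS R a l s = 0 := by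
          unfold cnfS at hcn ⊢
          split_ifs at hcn ⊢ with h4
          · exact absurd rfl hcn
          · rfl
        rw [hc0, mul_zero]
        exact hs0
    refine (sum_le_sum h1).trans ?_
    rw [sum_comm]
    have h2 : ∀ k ∈ (univ : Finset (Fin 3)), (∑ s ∈ saw (a + l + b), if Bad _ (rk k s) then (1 : ℝ) else 0) ≤
        η * ((saw (a + l + b)).card : ℝ) := by
      intro k _
      rw [← sum_filter, sum_const, nsmul_eq_mul, mul_one]
      have h3 := bad_rk (Bad (a + l + b)) k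
      have h4 : (((saw (a + l + b)).filter fun s => Bad _ (rk k s)).card : ℝ) ≤ (((saw (a + l + b)).filter (Bad _)).card : ℝ) := by
        exact_mod_cast h3
      exact h4.trans (hB a b a1 a2 b1 b2 hae)
    refine (sum_le_sum h2).trans ?_
    rw [sum_const, Finset.card_univ, Fintype.card_fin, nsmul_eq_mul]
    push_cast
    exact le_of_eq (by ring))
  refine le_trans ?_ key
  rw [Finset.card_filter]
  push_cast
  refine sum_le_sum fun s hs => ?_
  have hss : s ∈ saw n := (mem_filter.1 hs).1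
  split_ifs with hne
  · exact g0 _
  · have hgd : ¬ ∀ f : Fin 3, Gd f (tl s i l) := by
      intro hall
      refine hne ?_
      have h1 := hall (s ⟨i, by omega⟩)
      rw [hGd] at h1
      obtain ⟨a, b, t, a1, a2, b1, b2, hae, ht, ⟨ha, hta⟩, hT, hcn, hnb⟩ := h1
      have hb : 1 ≤ b := by
        have : (1 : ℝ) ≤ b := hθn.trans b1
        exact_mod_cast this
      refine ⟨a, b, t, a1, a2, b1, b2, hae, ht, ?_, by rw [← hR]; exact hcn, hnb⟩
      exact disp_eq ht hss (by omega) hil (by rw [hta]; exact step_even hae hie _) hT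
    rw [hg]
    show (1 : ℝ) ≤ if ∀ f : Fin 3, Gd f (tl s i l) then 0 else 1
    rw [if_neg hgd]

end Pool.Agent.ROT.W4
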