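import Pool.Agent.ROT.W4H
import Pool.Agent.ROT.W4C

/-!
# ROT, row W4C (helper14): transport of an event of free walks to the polygons, no hypothesis

* **`comp_u`** : `comp_of` over helper95's `s2H`, `cnf_le`.
-/

set_option autoImplicit false

open scoped Classical

namespace Pool.Agent.ROT.W4

open Finset

open Pool.Agent.PMA Pool.Agent.PMA.Res Pool.Agent.NTS.Res

/-- **transport of an event of free walks to the polygons**, no hypothesis -/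
theorem comp_u {κ dt ε c : ℝ} (hκ : 0 < κ) (hdt : 0 < dt) (hε : 0 < ε) (hc : 0 < c) :
    ∃ (θ C : ℝ) (n0 : ℕ), 0 < θ ∧ 0 < C ∧ ∀ n : ℕ, n0 ≤ n → Odd n → ∀ i l : ℕ, Even i → i + l < n → (l : ℝ) ≤ (1 - c) * n →
      ∀ (Bad : ∀ k : ℕ, (Fin k → Fin 3) → Prop) (η : ℝ), 0 ≤ η →
        (∀ a b : ℕ, θ * n ≤ a → (a : ℝ) ≤ dt * n → θ * n ≤ b → (b : ℝ) ≤ dt * n → Even a →
          (((saw (a + l + b)).filter (Bad _)).card : ℝ) ≤ η * ((saw (a + l + b)).card : ℝ)) →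
        (((pol n).filter fun s => ¬ ∃ (a b : ℕ) (t : Fin (a + l + b) → Fin 3), θ * n ≤ a ∧ (a : ℝ) ≤ dt * n ∧ θ * n ≤ b ∧
          (b : ℝ) ≤ dt * n ∧ Even a ∧ t ∈ saw (a + l + b) ∧ (∀ k : ℕ, k ≤ l → pos t (a + k) - pos t a = pos s (i + k) - pos s i) ∧
          cnfS (κ * (n : ℝ) ^ (3 / 4 : ℝ)) a l t = 1 ∧ ¬ Bad _ t).card : ℝ) ≤ (C * (3 * η) + ε) * ((pol n).card : ℝ) :=
  comp_of (P := fun n a l t => F3.cnf (κ * (n : ℝ) ^ (3 / 4 : ℝ)) a l t) (fun _ _ h1 h2 => s2H hκ hdt h1 h2)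
    (fun _ _ _ _ => cnf_le _ _ _ _) hε hc

end Pool.Agent.ROT.W4
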