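import Pool.Agent.ROT.W4F
import Pool.Agent.ROT.W4CU

/-!
# ROT, block F3, row W4: everything without hypothesis

* `compH : CompH`, **`stbPol : StbPol`** : the strands of the polygons (`comp_u` of 14, `stbPol_of` of 36);
* **`arcJ_of_cmpE`**, **`arcJ_of_cmp`** : `ArcJ` from the comparison with gates of grids (`CmpE`, `CmpG`), no hypothesis;
* **`arcJ_level`** : `ArcJ` for the grid means of the single level gate.
-/

set_option autoImplicit false

open Set Filter Topology MeasureTheory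

namespace Pool.Agent.ROT.W4

open Pool.Agent.NTS.Res
open Pool.Agent.SCF.M
open Pool.Agent.SCF.Z
open Pool.Agent.CRT (CI)
open Pool.Agent.ROT.F3 (cv W3 crv ArcJ ofg ofg_ofFn)

theorem compH : CompH := by
  intro κ dt ε c hκ hdt hε hc
  obtain ⟨θ, C, n0, h1, h2, h3⟩ := comp_u hκ hdt hε hc
  refine ⟨θ, C, n0, h1, h2, fun n hn ho i l hi hil hl Bad η hη hB => ?_⟩
  have h4 := h3 n hn ho i l hi hil hl Bad η hη fun a b a1 a2 b1 b2 he => le_trans (by exact_mod_cast cardF fun s _ h => h)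
    (hB a b a1 a2 b1 b2 he)
  refine le_trans ?_ h4
  exact_mod_cast cardF fun s _ h => h

/-- **the strands of the polygons are stable** -/
theorem stbPol : StbPol := stbPol_of compH

/-- **`ArcJ` from the comparison up to rare polygons**, no hypothesis -/
theorem arcJ_of_cmpE {α : Type*} {κ c : ℝ} {Rs : Finset ℝ} {N : ℕ} {l : Filter α} {G : α → ℝ → W3 → ℝ} (hκ : 0 < κ)
    (hκ1 : κ < 1) (hc : 0 < c) (hRs : ∀ R ∈ Rs, 0 < R ∧ 1010 * R ≤ c) (hG : ∀ᶠ a in l, ∀ S : ℝ, 0 < S → ∀ w, |G a S w| ≤ 1)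
    (h : CmpE κ c Rs N l G) : ArcJ l fun a S w => G a S w * zc κ c (crv w w.length S) :=
  arcJ_cmpE stbPol hκ hκ1 hc hRs hG h

/-- **`ArcJ` from the comparison with the gates of a grid**, no hypothesis -/
theorem arcJ_of_cmp {α : Type*} {κ c : ℝ} {Rs : Finset ℝ} {N : ℕ} {l : Filter α} {G : α → ℝ → W3 → ℝ} (hκ : 0 < κ)
    (hκ1 : κ < 1) (hc : 0 < c) (hRs : ∀ R ∈ Rs, 0 < R ∧ 1010 * R ≤ c) (hG : ∀ᶠ a in l, ∀ S : ℝ, 0 < S → ∀ w, |G a S w| ≤ 1)
    (h : CmpG κ c Rs N l G) : ArcJ l fun a S w => G a S w * zc κ c (crv w w.length S) :=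
  arcJ_cmp stbPol hκ hκ1 hc hRs hG h

/-- **`ArcJ` for the level gates**, no hypothesis -/
theorem arcJ_level {R c0 : ℝ} (hR : 0 < R) (hc : 1010 * R ≤ c0) : ∀ (κ : ℝ) (B : Box) (K : ℝ) (H : ℝ × CI → ℝ → ℝ),
    0 < κ → κ < 1 → B.Ok R → 0 ≤ K → TestX K H → ArcJ atTop fun (M : ℕ) S w =>
      psV Pool.Agent.SCF.M.LG M B S (fun n s k => H (XS S s) ((k : ℝ) / n)) w.get * zc κ c0 (crv w w.length S) :=
  arcJ_X stbPol hR hc

end Pool.Agent.ROT.W4
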