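import Pool.Agent.ROT.W4M
import Pool.Agent.ROT.F3Bad

/-!
# ROT, row W4 (helper16): products of functionals of the arcs, jointly in the lengths and the curve

* `Arm.sub θ γ` : the arc of the closed curve `γ`, second root at the time `θ`; `crv_sub` : exact for closed words;
* `mcsJ` : McShane; `joint` : a product of Lipschitz functionals (length of the arc, arc) is close to a Lipschitz functional of
  (length, place of the second root, closed curve), for curves with a modulus of continuity;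
* `mod_crv` : the modulus of continuity of the closed curves;
* `ArcJ l G` : the statement for one arc, for all numbers of steps at once; **`macJ`** : the products, functional of
  `(|w| / S ^ (4/3), m / S ^ (4/3), crv w |w| S)` (= `cN` of F3Sys).
-/

set_option autoImplicit false

open Filter

namespace Pool.Agent.ROT.F3

open Finset
open Pool.Agent.NTS.Res (step pos saw fug size curve)
open Pool.Agent.PMA.Res (pol)
open scoped NNReal

/-! ### sub-curves -/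

/-- the times of the arc in the closed curve, second root at the time `θ` -/
noncomputable def Arm.tt (θ t : ℝ) : Arm → ℝ
  | .fp => t * θ
  | .bq => θ - t * θ
  | .fq => θ + t * (1 - θ)
  | .bp => 1 - t * (1 - θ)

/-- the time of the root of the arc -/
noncomputable def Arm.tr (θ : ℝ) : Arm → ℝ
  | .fp => 0
  | .bq => θ
  | .fq => θ
  | .bp => 0

/-- the length of the arc, `ν` = length of the closed curve, `μ` = place of the second root -/
noncomputable def Arm.lf (ν μ : ℝ) : Arm → ℝ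
  | .fp => μ
  | .bq => μ
  | .fq => ν - μ
  | .bp => ν - μ

/-- the projection on the unit interval -/
noncomputable def pj (x : ℝ) : unitInterval := Set.projIcc (0 : ℝ) 1 zero_le_one x

lemma pj_of {x : ℝ} (h0 : 0 ≤ x) (h1 : x ≤ 1) : (pj x : ℝ) = x := by
  unfold pj
  rw [Set.projIcc_of_mem zero_le_one (x := x) ⟨h0, h1⟩]

lemma pj_dist (x y : ℝ) : |(pj x : ℝ) - pj y| ≤ |x - y| := by
  unfold pj
  rw [Set.coe_projIcc, Set.coe_projIcc]
  refine (abs_max_sub_max_le_max _ _ _ _).trans ?_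
  rw [sub_self, abs_zero]
  refine max_le (abs_nonneg _) ((abs_min_sub_min_le_max _ _ _ _).trans ?_)
  rw [sub_self, abs_zero]
  exact max_le (abs_nonneg _) le_rfl

/-- the arc of the closed curve, seen from its root -/
noncomputable def Arm.sub (k : Arm) (θ : ℝ) (γ : C(unitInterval, ℂ)) : C(unitInterval, ℂ) :=
  ⟨fun t => γ (pj (k.tt θ t)) - γ (pj (k.tr θ)), by
    have h : Continuous fun t : unitInterval => pj (k.tt θ t) := by
      refine continuous_projIcc.comp ?_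
      cases k <;> unfold Arm.tt <;> fun_prop
    fun_prop⟩

lemma Arm.tt_dist (k : Arm) (θ θ' : ℝ) {t : ℝ} (h0 : 0 ≤ t) (h1 : t ≤ 1) : |k.tt θ t - k.tt θ' t| ≤ |θ - θ'| := by
  have h2 : |1 - t| ≤ 1 := by
    rw [abs_le]
    constructor <;> linarith
  have h3 : |t| ≤ 1 := by
    rw [abs_le]
    constructor <;> linarith
  have key : ∀ c : ℝ, |c| ≤ 1 → |c * (θ - θ')| ≤ |θ - θ'| := fun c hc => by
    rw [abs_mul]
    exact mul_le_of_le_one_left (abs_nonneg _) hc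
  cases k with
  | fp =>
    show |t * θ - t * θ'| ≤ _
    rw [show t * θ - t * θ' = t * (θ - θ') by ring]
    exact key t h3
  | bq =>
    show |θ - t * θ - (θ' - t * θ')| ≤ _
    rw [show θ - t * θ - (θ' - t * θ') = (1 - t) * (θ - θ') by ring]
    exact key _ h2
  | fq =>
    show |θ + t * (1 - θ) - (θ' + t * (1 - θ'))| ≤ _
    rw [show θ + t * (1 - θ) - (θ' + t * (1 - θ')) = (1 - t) * (θ - θ') by ring]
    exact key _ h2
  | bp =>
    show |1 - t * (1 - θ) - (1 - t * (1 - θ'))| ≤ _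
    rw [show 1 - t * (1 - θ) - (1 - t * (1 - θ')) = t * (θ - θ') by ring]
    exact key t h3

lemma Arm.tr_dist (k : Arm) (θ θ' : ℝ) : |k.tr θ - k.tr θ'| ≤ |θ - θ'| := by
  cases k <;> simp [Arm.tr]

lemma Arm.lf_dist (k : Arm) (ν μ ν' μ' : ℝ) : |k.lf ν μ - k.lf ν' μ'| ≤ |ν - ν'| + |μ - μ'| := by
  have h1 := abs_nonneg (ν - ν')
  cases k with
  | fp =>
    show |μ - μ'| ≤ _
    linarith
  | bq =>
    show |μ - μ'| ≤ _
    linarith
  | fq =>
    show |ν - μ - (ν' - μ')| ≤ _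
    rw [show ν - μ - (ν' - μ') = (ν - ν') - (μ - μ') by ring]
    exact abs_sub _ _
  | bp =>
    show |ν - μ - (ν' - μ')| ≤ _
    rw [show ν - μ - (ν' - μ') = (ν - ν') - (μ - μ') by ring]
    exact abs_sub _ _

/-- the modulus of continuity -/
def ModC (η ρ : ℝ) (γ : C(unitInterval, ℂ)) : Prop := ∀ x y : unitInterval, |(x : ℝ) - y| ≤ η → ‖γ x - γ y‖ ≤ ρ

lemma Arm.sub_dist (k : Arm) {η ρ θ θ' : ℝ} {γ γ' : C(unitInterval, ℂ)} (hm : ModC η ρ γ) (hρ : 0 ≤ ρ) (h : |θ - θ'| ≤ η) :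
    dist (k.sub θ γ) (k.sub θ' γ') ≤ 2 * dist γ γ' + 2 * ρ := by
  refine (ContinuousMap.dist_le (by positivity)).2 fun t => ?_
  show dist (γ (pj (k.tt θ t)) - γ (pj (k.tr θ))) (γ' (pj (k.tt θ' t)) - γ' (pj (k.tr θ'))) ≤ _
  have h1 : ‖γ (pj (k.tt θ t)) - γ (pj (k.tt θ' t))‖ ≤ ρ :=
    hm _ _ ((pj_dist _ _).trans ((k.tt_dist θ θ' t.2.1 t.2.2).trans h))
  have h2 : ‖γ (pj (k.tr θ)) - γ (pj (k.tr θ'))‖ ≤ ρ := hm _ _ ((pj_dist _ _).trans ((k.tr_dist θ θ').trans h))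
  have h3 : ∀ x, ‖γ x - γ' x‖ ≤ dist γ γ' := fun x => by
    rw [← dist_eq_norm]
    exact ContinuousMap.dist_apply_le_dist x
  rw [dist_eq_norm]
  have e : γ (pj (k.tt θ t)) - γ (pj (k.tr θ)) - (γ' (pj (k.tt θ' t)) - γ' (pj (k.tr θ'))) =
      (γ (pj (k.tt θ t)) - γ (pj (k.tt θ' t))) + (γ (pj (k.tt θ' t)) - γ' (pj (k.tt θ' t))) -
        ((γ (pj (k.tr θ)) - γ (pj (k.tr θ'))) + (γ (pj (k.tr θ')) - γ' (pj (k.tr θ')))) := by ring
  rw [e]
  refine (norm_sub_le _ _).trans ?_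
  have h4 := (norm_add_le (γ (pj (k.tt θ t)) - γ (pj (k.tt θ' t))) (γ (pj (k.tt θ' t)) - γ' (pj (k.tt θ' t)))).trans
    (add_le_add h1 (h3 _))
  have h5 := (norm_add_le (γ (pj (k.tr θ)) - γ (pj (k.tr θ'))) (γ (pj (k.tr θ')) - γ' (pj (k.tr θ')))).trans
    (add_le_add h2 (h3 _))
  linarith

/-- **the curve of the arc of a closed word** -/
theorem crv_sub (k : Arm) {n m : ℕ} {w : W3} (hw : Cl w) (hl : w.length = n + 1) (he : Even m) (hm1 : 1 ≤ m) (hm : m ≤ n)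
    (S : ℝ) : crv (arcw m k w) (k.len n m) S = k.sub ((m : ℝ) / (n + 1 : ℕ)) (crv w (n + 1) S) := by
  have hn0 : (0 : ℝ) < ((n + 1 : ℕ) : ℝ) := by exact_mod_cast Nat.succ_pos n
  have hl1 : 1 ≤ k.len n m := by cases k <;> simp [Arm.len] <;> omega
  have hmn : (m : ℝ) ≤ n := by exact_mod_cast hm
  have hm0 : (0 : ℝ) ≤ m := Nat.cast_nonneg m
  have e : ((n + 1 - m : ℕ) : ℝ) = n + 1 - m := by
    rw [Nat.cast_sub (by omega)]
    push_cast
    ring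
  ext t
  rw [crv_eq hl1, pr_arcw k hw hl he hm t.2.1 t.2.2]
  show _ = crv w (n + 1) S (pj (k.tt ((m : ℝ) / (n + 1 : ℕ)) t)) - crv w (n + 1) S (pj (k.tr ((m : ℝ) / (n + 1 : ℕ))))
  rw [crv_eq (by omega), crv_eq (by omega)]
  have h1 : k.tt ((m : ℝ) / (n + 1 : ℕ)) t * (n + 1 : ℕ) = k.tm n m t := by
    cases k <;> simp only [Arm.tt, Arm.tm, e] <;> field_simp <;> push_cast <;> ring
  have h2 : k.tr ((m : ℝ) / (n + 1 : ℕ)) * (n + 1 : ℕ) = k.rt m := by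
    cases k <;> simp only [Arm.tr, Arm.rt] <;> push_cast <;> field_simp
    all_goals ring
  have h3 : (pj (k.tt ((m : ℝ) / (n + 1 : ℕ)) t) : ℝ) = k.tt ((m : ℝ) / (n + 1 : ℕ)) t := by
    have a1 := k.tm_nonneg hm t.2.1 t.2.2
    have a2 := k.tm_le hm t.2.1 t.2.2
    rw [← h1] at a1 a2
    refine pj_of (nonneg_of_mul_nonneg_left a1 hn0) ?_
    have : k.tt ((m : ℝ) / (n + 1 : ℕ)) t * (n + 1 : ℕ) ≤ 1 * (n + 1 : ℕ) := by
      rw [one_mul]
      push_cast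
      push_cast at a2
      exact a2
    exact le_of_mul_le_mul_right this hn0
  have h4 : (pj (k.tr ((m : ℝ) / (n + 1 : ℕ))) : ℝ) = k.tr ((m : ℝ) / (n + 1 : ℕ)) := by
    have a1 : (k.rt m : ℝ) ≤ n := by
      cases k <;> simp [Arm.rt] <;> exact_mod_cast hm
    have a2 : (0 : ℝ) ≤ (k.rt m : ℝ) := Nat.cast_nonneg _
    rw [← h2] at a1 a2
    refine pj_of (nonneg_of_mul_nonneg_left a2 hn0) ?_
    have : k.tr ((m : ℝ) / (n + 1 : ℕ)) * (n + 1 : ℕ) ≤ 1 * (n + 1 : ℕ) := by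
      rw [one_mul]
      push_cast
      push_cast at a1
      linarith
    exact le_of_mul_le_mul_right this hn0
  rw [h3, h4, h1, h2, sub_div]

/-! ### McShane -/

/-- **McShane** over any index set, values in `[-1, 1]` -/
theorem mcsJ {X I : Type*} [PseudoMetricSpace X] {c : I → X} {f : I → ℝ} (hf : ∀ i, |f i| ≤ 1) {ε δ : ℝ} (hε : 0 ≤ ε)
    (hδ : 0 < δ) (h : ∀ i j, dist (c i) (c j) ≤ δ → f i ≤ f j + ε) :
    ∃ φ : X → ℝ, LipschitzWith (Real.toNNReal (2 / δ)) φ ∧ (∀ x, |φ x| ≤ 1) ∧ ∀ i, |f i - φ (c i)| ≤ ε := by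
  obtain ⟨V, hV⟩ : ∃ V : X → Set ℝ, V = fun x => {y | y = -1 ∨ ∃ i, y = f i - 2 / δ * dist x (c i)} := ⟨_, rfl⟩
  have hne : ∀ x, (V x).Nonempty := fun x => ⟨-1, by rw [hV]; exact Or.inl rfl⟩
  have hle : ∀ x, ∀ y ∈ V x, y ≤ 1 := by
    intro x y hy
    rw [hV] at hy
    rcases hy with rfl | ⟨i, rfl⟩
    · norm_num
    · have h1 : 0 ≤ 2 / δ * dist x (c i) := by positivity
      linarith [(abs_le.1 (hf i)).2]
  have hbd : ∀ x, BddAbove (V x) := fun x => ⟨1, fun y hy => hle x y hy⟩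
  have hm1 : ∀ x, -1 ≤ sSup (V x) := fun x => le_csSup (hbd x) (by rw [hV]; exact Or.inl rfl)
  have hlip : ∀ x x', sSup (V x) ≤ sSup (V x') + 2 / δ * dist x x' := by
    intro x x'
    have hd : 0 ≤ 2 / δ * dist x x' := by positivity
    refine csSup_le (hne x) fun y hy => ?_
    rw [hV] at hy
    rcases hy with rfl | ⟨i, rfl⟩
    · linarith [hm1 x']
    · have h1 : f i - 2 / δ * dist x' (c i) ≤ sSup (V x') := le_csSup (hbd x') (by rw [hV]; exact Or.inr ⟨i, rfl⟩)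
      have h3 : dist x' (c i) ≤ dist x (c i) + dist x x' := by
        have := dist_triangle x' x (c i)
        rw [dist_comm x' x] at this
        linarith
      have h2 : 2 / δ * dist x' (c i) ≤ 2 / δ * (dist x (c i) + dist x x') := mul_le_mul_of_nonneg_left h3 (by positivity)
      rw [mul_add] at h2
      linarith
  refine ⟨fun x => sSup (V x), LipschitzWith.of_dist_le_mul fun x x' => ?_, fun x => ?_, fun i => ?_⟩
  · rw [Real.dist_eq, Real.coe_toNNReal _ (by positivity), abs_le]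
    have h1 := hlip x x'
    have h2 := hlip x' x
    rw [dist_comm x' x] at h2
    constructor <;> linarith
  · rw [abs_le]
    exact ⟨hm1 x, csSup_le (hne x) (hle x)⟩
  · have h1 : f i ≤ sSup (V (c i)) := by
      refine le_csSup (hbd _) ?_
      rw [hV]
      exact Or.inr ⟨i, by rw [dist_self, mul_zero, sub_zero]⟩
    have h2 : sSup (V (c i)) ≤ f i + ε := by
      refine csSup_le (hne _) fun y hy => ?_
      rw [hV] at hy
      rcases hy with rfl | ⟨j, rfl⟩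
      · linarith [(abs_le.1 (hf i)).1]
      · rcases le_or_gt (dist (c i) (c j)) δ with h1 | h1
        · have h2 := h j i (by rwa [dist_comm])
          have h3 : 0 ≤ 2 / δ * dist (c i) (c j) := by positivity
          linarith
        · have h2 : 2 < 2 / δ * dist (c i) (c j) := by
            rw [div_mul_eq_mul_div, lt_div_iff₀ hδ]
            linarith
          linarith [(abs_le.1 (hf j)).2, (abs_le.1 (hf i)).1]
    rw [abs_le]
    constructor <;> linarith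

/-- the product of functionals of the arcs -/
noncomputable def prj {ι : Type*} (J : Finset ι) (k : ι → Arm) (φ : ι → ℝ × C(unitInterval, ℂ) → ℝ)
    (x : ℝ × ℝ × C(unitInterval, ℂ)) : ℝ := ∏ i ∈ J, φ i ((k i).lf x.1 x.2.1, (k i).sub (x.2.1 / x.1) x.2.2)

/-- **the product is close to a Lipschitz functional** -/
theorem joint {ι : Type*} (J : Finset ι) (k : ι → Arm) {K : ℝ≥0} {φ : ι → ℝ × C(unitInterval, ℂ) → ℝ}
    (h1 : ∀ i ∈ J, LipschitzWith K (φ i)) (h2 : ∀ i ∈ J, ∀ x, |φ i x| ≤ 1) {η ρ c : ℝ} (hη : 0 < η) (hρ : 0 < ρ) (hc : 0 < c) :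
    ∃ Φ : ℝ × ℝ × C(unitInterval, ℂ) → ℝ, LipschitzWith (Real.toNNReal (2 / min ρ (η * c / 2))) Φ ∧ (∀ x, |Φ x| ≤ 1) ∧
      ∀ x : ℝ × ℝ × C(unitInterval, ℂ), c ≤ x.1 → 0 ≤ x.2.1 → x.2.1 ≤ x.1 → ModC η ρ x.2.2 →
        |prj J k φ x - Φ x| ≤ J.card * (K * (4 * ρ)) := by
  have hδ0 : 0 < min ρ (η * c / 2) := lt_min hρ (by positivity)
  obtain ⟨Φ, a1, a2, a3⟩ := mcsJ (I := {x : ℝ × ℝ × C(unitInterval, ℂ) // c ≤ x.1 ∧ 0 ≤ x.2.1 ∧ x.2.1 ≤ x.1 ∧ ModC η ρ x.2.2})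
    (c := fun x => x.1) (f := fun x => prj J k φ x.1) (fun x => by
      unfold prj
      rw [abs_prod]
      exact prod_le_one (fun i _ => abs_nonneg _) fun i hi => h2 i hi _) (ε := J.card * (K * (4 * ρ))) (δ := min ρ (η * c / 2))
    (by positivity) hδ0 (by
      rintro ⟨⟨ν, μ, γ⟩, b1, b2, b3, b4⟩ ⟨⟨ν', μ', γ'⟩, c1, c2, c3, c4⟩ hd
      simp only at b1 b2 b3 b4 c1 c2 c3 c4
      have hd1 : dist ((ν, μ, γ) : ℝ × ℝ × C(unitInterval, ℂ)) (ν', μ', γ') ≤ min ρ (η * c / 2) := hd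
      rw [Prod.dist_eq, Prod.dist_eq, Real.dist_eq, Real.dist_eq] at hd1
      have d1 : |ν - ν'| ≤ min ρ (η * c / 2) := (le_max_left _ _).trans hd1
      have d2 : |μ - μ'| ≤ min ρ (η * c / 2) := ((le_max_left _ _).trans (le_max_right _ _)).trans hd1
      have d3 : dist γ γ' ≤ min ρ (η * c / 2) := ((le_max_right _ _).trans (le_max_right _ _)).trans hd1
      have hν : 0 < ν := hc.trans_le b1
      have hν' : 0 < ν' := hc.trans_le c1
      have hθ : |μ / ν - μ' / ν'| ≤ η := by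
        have e : μ / ν - μ' / ν' = ((μ - μ') - μ' / ν' * (ν - ν')) / ν := by
          field_simp
          ring
        have h3 : |μ' / ν'| ≤ 1 := by
          rw [abs_of_nonneg (by positivity), div_le_one hν']
          exact c3
        have h4 : |μ' / ν' * (ν - ν')| ≤ |ν - ν'| := by
          rw [abs_mul]
          exact mul_le_of_le_one_left (abs_nonneg _) h3
        have h5 := abs_sub (μ - μ') (μ' / ν' * (ν - ν'))
        have h6 : min ρ (η * c / 2) ≤ η * c / 2 := min_le_right _ _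
        rw [e, abs_div, abs_of_pos hν, div_le_iff₀ hν]
        have h7 : η * c ≤ η * ν := mul_le_mul_of_nonneg_left b1 hη.le
        linarith
      have key : ∀ i ∈ J, |φ i ((k i).lf ν μ, (k i).sub (μ / ν) γ) - φ i ((k i).lf ν' μ', (k i).sub (μ' / ν') γ')| ≤ K * (4 * ρ) := by
        intro i hi
        rw [← Real.dist_eq]
        refine ((h1 i hi).dist_le_mul _ _).trans (mul_le_mul_of_nonneg_left ?_ K.2)
        have hm : min ρ (η * c / 2) ≤ ρ := min_le_left _ _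
        rw [Prod.dist_eq]
        refine max_le ?_ ?_
        · rw [Real.dist_eq]
          have := (k i).lf_dist ν μ ν' μ'
          simp only
          linarith
        · have := (k i).sub_dist (γ' := γ') b4 hρ.le hθ
          simp only
          linarith
      have h8 := prod_sub J (fun i => φ i ((k i).lf ν μ, (k i).sub (μ / ν) γ)) (fun i => φ i ((k i).lf ν' μ', (k i).sub (μ' / ν') γ'))
        (fun i hi => h2 i hi _) fun i hi => h2 i hi _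
      have h9 := h8.trans (sum_le_sum key)
      rw [sum_const, nsmul_eq_mul] at h9
      have := (abs_le.1 h9).2
      show prj J k φ (ν, μ, γ) ≤ prj J k φ (ν', μ', γ') + _
      unfold prj
      simp only
      linarith)
  refine ⟨Φ, a1, a2, fun x x1 x2 x3 x4 => ?_⟩
  exact a3 ⟨x, x1, x2, x3, x4⟩

/-! ### the modulus of continuity of the closed curves -/

/-- from the vertices to the curve -/
lemma modC_of {n : ℕ} {w : W3} (hw : Cl w) (hl : w.length = n + 1) {κ D η ρ S : ℝ} (hS : 0 < S) (hη : η * (n + 1 : ℕ) + 1 ≤ κ * n)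
    (hD : D + 2 ≤ ρ * S) (h : ¬ Mdv (n + 1) (ps w) (κ * n) D) : ModC η ρ (crv w (n + 1) S) := by
  have key : ∀ x y : unitInterval, (x : ℝ) ≤ y → |(x : ℝ) - y| ≤ η → ‖crv w (n + 1) S x - crv w (n + 1) S y‖ ≤ ρ := by
    intro x y hxy hd
    rw [abs_sub_comm, abs_of_nonneg (by linarith)] at hd
    have hn0 : (0 : ℝ) < ((n + 1 : ℕ) : ℝ) := by exact_mod_cast Nat.succ_pos n
    rw [crv_eq (by omega), crv_eq (by omega), ← sub_div, norm_div, Complex.norm_real, Real.norm_of_nonneg hS.le, div_le_iff₀ hS]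
    refine le_trans ?_ hD
    obtain ⟨a, ha⟩ : ∃ a : ℝ, a = x * (n + 1 : ℕ) := ⟨_, rfl⟩
    obtain ⟨b, hb⟩ : ∃ b : ℝ, b = y * (n + 1 : ℕ) := ⟨_, rfl⟩
    rw [← ha, ← hb]
    have ha0 : 0 ≤ a := by
      rw [ha]
      exact mul_nonneg x.2.1 hn0.le
    have hab : a ≤ b := by
      rw [ha, hb]
      exact mul_le_mul_of_nonneg_right hxy hn0.le
    have hb1 : b ≤ (n + 1 : ℕ) := by
      rw [hb]
      exact mul_le_of_le_one_left hn0.le y.2.2
    have hba : b - a ≤ η * (n + 1 : ℕ) := by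
      rw [ha, hb, ← sub_mul]
      exact mul_le_mul_of_nonneg_right hd hn0.le
    have f1 : (⌊a⌋₊ : ℝ) ≤ a := Nat.floor_le ha0
    have f2 : a < ⌊a⌋₊ + 1 := Nat.lt_floor_add_one a
    have f3 : (⌊b⌋₊ : ℝ) ≤ b := Nat.floor_le (ha0.trans hab)
    have f4 : b < ⌊b⌋₊ + 1 := Nat.lt_floor_add_one b
    have i1 : ⌊a⌋₊ ≤ ⌊b⌋₊ := Nat.floor_le_floor hab
    have i2 : ⌊b⌋₊ ≤ n + 1 := by
      have : (⌊b⌋₊ : ℝ) ≤ ((n + 1 : ℕ) : ℝ) := f3.trans hb1
      exact_mod_cast this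
    have h1 : ‖ps w ⌊a⌋₊ - ps w ⌊b⌋₊‖ < D := by
      by_contra hc
      push Not at hc
      refine h ⟨⌊a⌋₊, ⌊b⌋₊, i1, by linarith, ?_⟩
      have e1 := nr_ps_mod hw (i := ⌊a⌋₊) (by omega)
      have e2 := nr_ps_mod hw (i := ⌊b⌋₊) (by omega)
      rw [hl] at e1 e2
      rw [e1, e2]
      exact hc
    have h2 : ‖pr w a - pr w ⌊a⌋₊‖ ≤ 1 := pr_near w f1 f2.le
    have h3 : ‖pr w b - pr w ⌊b⌋₊‖ ≤ 1 := pr_near w f3 f4.le
    rw [pr_nat] at h2 h3
    have e : pr w a - pr w b = (pr w a - ps w ⌊a⌋₊) + (ps w ⌊a⌋₊ - ps w ⌊b⌋₊) - (pr w b - ps w ⌊b⌋₊) := by ring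
    rw [e]
    refine (norm_sub_le _ _).trans ?_
    have := norm_add_le (pr w a - ps w ⌊a⌋₊) (ps w ⌊a⌋₊ - ps w ⌊b⌋₊)
    linarith
  intro x y hd
  rcases le_total (x : ℝ) y with hxy | hxy
  · exact key x y hxy hd
  · rw [← norm_neg, neg_sub]
    rw [abs_sub_comm] at hd
    exact key y x hxy hd

open Classical in
/-- **the modulus of continuity**, polygons with `n + 1` edges, unit `S` -/
theorem mod_crv {ε ρ c : ℝ} (hε : 0 < ε) (hρ : 0 < ρ) (hc : 0 < c) : ∃ (η : ℝ) (n0 : ℕ), 0 < η ∧ ∀ n : ℕ, n0 ≤ n → Odd n →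
    ∀ S : ℝ, c * (n : ℝ) ^ (3 / 4 : ℝ) ≤ S →
      (((pol n).filter fun s => ¬ ModC η ρ (crv (clw s) (n + 1) S)).card : ℝ) ≤ ε * ((pol n).card : ℝ) := by
  obtain ⟨κ, hκ, n1, h⟩ := mod_pol ε (ρ * c / 2) hε (by positivity)
  obtain ⟨n2, hn2⟩ := exists_nat_ge (4 / κ)
  have h34 : Tendsto (fun n : ℕ => ρ * c / 2 * (n : ℝ) ^ (3 / 4 : ℝ)) atTop atTop :=
    ((tendsto_rpow_atTop (by norm_num)).comp tendsto_natCast_atTop_atTop).const_mul_atTop (by positivity)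
  obtain ⟨n3, hn3⟩ := eventually_atTop.1 (h34.eventually_ge_atTop 2)
  refine ⟨κ / 4, n1 + n2 + n3 + 1, by positivity, fun n hn ho S hS => ?_⟩
  have hn0 : (0 : ℝ) < n := by exact_mod_cast (by omega : 0 < n)
  have hS0 : 0 < S := lt_of_lt_of_le (by positivity) hS
  have hκn : 4 ≤ κ * n := by
    have h1 : (4 / κ : ℝ) ≤ n := hn2.trans (by exact_mod_cast (by omega : n2 ≤ n))
    rw [div_le_iff₀ hκ] at h1
    linarith
  refine le_trans ?_ (h n (by omega) ho)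
  refine Nat.cast_le.2 (card_le_card fun s hs => ?_)
  rw [mem_filter] at hs ⊢
  refine ⟨hs.1, ?_⟩
  by_contra hc'
  obtain ⟨hcl, hlen⟩ := clw_mem ho hs.1
  refine hs.2 (modC_of hcl hlen hS0 ?_ ?_ hc')
  · push_cast
    have : (1 : ℝ) ≤ n := by exact_mod_cast (by omega : 1 ≤ n)
    nlinarith
  · have h1 := hn3 n (by omega)
    have h2 : ρ * (c * (n : ℝ) ^ (3 / 4 : ℝ)) ≤ ρ * S := mul_le_mul_of_nonneg_left hS hρ.le
    linarith

/-! ### the products -/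

/-- **the products over the arcs**, all numbers of steps at once -/
theorem prod_joint {ι : Type*} (J : Finset ι) (k : ι → Arm) {ε δ c C : ℝ} (K : ℝ≥0) (hε : 0 < ε) (hδ : 0 < δ) (hc : 0 < c)
    (hC : 0 < C) : ∃ (K2 : ℝ≥0) (n1 : ℕ), ∀ (S : ℝ) (G : ι → W3 → ℝ) (φ : ι → ℝ × C(unitInterval, ℂ) → ℝ), 0 < S →
      (∀ i ∈ J, ∀ w, |G i w| ≤ 1) → (∀ i ∈ J, LipschitzWith K (φ i)) → (∀ i ∈ J, ∀ x, |φ i x| ≤ 1) →
        ∃ Φ : ℝ × ℝ × C(unitInterval, ℂ) → ℝ, LipschitzWith K2 Φ ∧ (∀ x, |Φ x| ≤ 1) ∧ ∀ n m : ℕ, n1 ≤ n → Odd n → Even m →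
          δ * n ≤ m → (m : ℝ) ≤ (1 - δ) * n → c * (n : ℝ) ^ (3 / 4 : ℝ) ≤ S → S ≤ C * (n : ℝ) ^ (3 / 4 : ℝ) → ∀ e : ℝ,
            (∀ i ∈ J, ∑ s ∈ pol n, |G i ((clw s).take ((k i).len n m)) - φ i (((k i).len n m : ℝ) / S ^ (4 / 3 : ℝ),
              crv ((clw s).take ((k i).len n m)) ((k i).len n m) S)| ≤ e * ((pol n).card : ℝ)) →
            ∑ s ∈ pol n, |∏ i ∈ J, G i (arcw m (k i) (clw s)) - Φ (((n + 1 : ℕ) : ℝ) / S ^ (4 / 3 : ℝ),
              (m : ℝ) / S ^ (4 / 3 : ℝ), crv (clw s) (n + 1) S)| ≤ (J.card * e + ε) * ((pol n).card : ℝ) := by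
  classical
  -- the constants
  obtain ⟨ρ, hρ⟩ : ∃ ρ : ℝ, ρ = ε / 2 / (4 * (J.card * K + 1)) := ⟨_, rfl⟩
  have hJK : (0 : ℝ) ≤ J.card * K := by positivity
  have hρ0 : 0 < ρ := by
    rw [hρ]
    positivity
  have hρε : (J.card : ℝ) * (K * (4 * ρ)) ≤ ε / 2 := by
    have : (4 * (J.card * (K : ℝ) + 1)) * ρ = ε / 2 := by
      rw [hρ]
      field_simp
    nlinarith
  obtain ⟨η, n1, hη, hmod⟩ := mod_crv (ε := ε / 4) (ρ := ρ) (c := c) (by positivity) hρ0 hc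
  obtain ⟨c0, hc0⟩ : ∃ c0 : ℝ, c0 = (C ^ (4 / 3 : ℝ))⁻¹ := ⟨_, rfl⟩
  have hc00 : 0 < c0 := by
    rw [hc0]
    positivity
  obtain ⟨n2, hn2⟩ := exists_nat_ge (2 / δ)
  refine ⟨Real.toNNReal (2 / min ρ (η * c0 / 2)), n1 + n2 + 2, fun S G φ hS hG h1 h2 => ?_⟩
  obtain ⟨Φ, a1, a2, a3⟩ := joint J k h1 h2 hη hρ0 hc00
  refine ⟨Φ, a1, a2, fun n m hn ho he hm1 hm2 hS1 hS2 e hφ => ?_⟩
  have hn0 : (0 : ℝ) < n := by exact_mod_cast (by omega : 0 < n)
  have hm0 : 1 ≤ m := by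
    have : (0 : ℝ) < m := (mul_pos hδ hn0).trans_le hm1
    exact_mod_cast this
  have hmn : m ≤ n := by
    have : (m : ℝ) ≤ n := by nlinarith
    exact_mod_cast this
  have hS43 : 0 < S ^ (4 / 3 : ℝ) := by positivity
  have hlen : ((n + 1 - m : ℕ) : ℝ) = ((n + 1 : ℕ) : ℝ) - m := by
    rw [Nat.cast_sub (by omega)]
  obtain ⟨pt, hpt⟩ : ∃ pt : (Fin n → Fin 3) → ℝ × ℝ × C(unitInterval, ℂ), pt = fun s => (((n + 1 : ℕ) : ℝ) / S ^ (4 / 3 : ℝ),
      (m : ℝ) / S ^ (4 / 3 : ℝ), crv (clw s) (n + 1) S) := ⟨_, rfl⟩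
  -- the lengths
  have hν : c0 ≤ ((n + 1 : ℕ) : ℝ) / S ^ (4 / 3 : ℝ) := by
    have h3 : S ^ (4 / 3 : ℝ) ≤ C ^ (4 / 3 : ℝ) * n := by
      have h4 := Real.rpow_le_rpow hS.le hS2 (by norm_num : (0 : ℝ) ≤ 4 / 3)
      rw [Real.mul_rpow hC.le (by positivity), ← Real.rpow_mul hn0.le] at h4
      norm_num at h4
      exact h4
    rw [hc0, le_div_iff₀ hS43, inv_mul_le_iff₀ (by positivity)]
    push_cast
    have : C ^ (4 / 3 : ℝ) * (n : ℝ) ≤ C ^ (4 / 3 : ℝ) * (n + 1) := mul_le_mul_of_nonneg_left (by linarith) (by positivity)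
    linarith
  have hθ : (m : ℝ) / S ^ (4 / 3 : ℝ) / (((n + 1 : ℕ) : ℝ) / S ^ (4 / 3 : ℝ)) = (m : ℝ) / (n + 1 : ℕ) := by
    field_simp
  -- one polygon
  have hone : ∀ s ∈ pol n, prj J k φ (pt s) = ∏ i ∈ J, φ i (((k i).len n m : ℝ) / S ^ (4 / 3 : ℝ),
      crv (arcw m (k i) (clw s)) ((k i).len n m) S) := by
    intro s hs
    obtain ⟨hcl, hl⟩ := clw_mem ho hs
    unfold prj
    refine prod_congr rfl fun i _ => ?_
    rw [hpt]
    simp only
    rw [hθ, crv_sub (k i) hcl hl he hm0 hmn S]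
    congr 2
    cases k i with
    | fp => rfl
    | bq => rfl
    | fq =>
      show ((n + 1 : ℕ) : ℝ) / S ^ (4 / 3 : ℝ) - (m : ℝ) / S ^ (4 / 3 : ℝ) = ((n + 1 - m : ℕ) : ℝ) / S ^ (4 / 3 : ℝ)
      rw [hlen, sub_div]
    | bp =>
      show ((n + 1 : ℕ) : ℝ) / S ^ (4 / 3 : ℝ) - (m : ℝ) / S ^ (4 / 3 : ℝ) = ((n + 1 - m : ℕ) : ℝ) / S ^ (4 / 3 : ℝ)
      rw [hlen, sub_div]
  -- the arcs
  have harc : ∀ i ∈ J, ∑ s ∈ pol n, |G i (arcw m (k i) (clw s)) - φ i (((k i).len n m : ℝ) / S ^ (4 / 3 : ℝ),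
      crv (arcw m (k i) (clw s)) ((k i).len n m) S)| ≤ e * ((pol n).card : ℝ) := by
    intro i hi
    refine le_trans (le_of_eq ?_) (hφ i hi)
    obtain ⟨l, hl⟩ : ∃ l : ℕ, l = (k i).len n m := ⟨_, rfl⟩
    rw [← hl]
    rw [sum_pol' ho fun w => |G i (arcw m (k i) w) - φ i ((l : ℝ) / S ^ (4 / 3 : ℝ), crv (arcw m (k i) w) l S)|,
      sum_pol' ho fun w => |G i (w.take l) - φ i ((l : ℝ) / S ^ (4 / 3 : ℝ), crv (w.take l) l S)|,
      ← tsum_mv (k i) he fun w => |G i (w.take l) - φ i ((l : ℝ) / S ^ (4 / 3 : ℝ), crv (w.take l) l S)|]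
    refine tsum_congr fun w => ?_
    rw [arcw_eq (k i) w.2.2 (by omega), ← hl]
  have hmain : ∀ s ∈ pol n, |∏ i ∈ J, G i (arcw m (k i) (clw s)) - Φ (pt s)| ≤
      ∑ i ∈ J, |G i (arcw m (k i) (clw s)) - φ i (((k i).len n m : ℝ) / S ^ (4 / 3 : ℝ),
        crv (arcw m (k i) (clw s)) ((k i).len n m) S)| + (ε / 2 + if ¬ ModC η ρ (crv (clw s) (n + 1) S) then 2 else 0) := by
    intro s hs
    have h5 := prod_sub J (fun i => G i (arcw m (k i) (clw s))) (fun i => φ i (((k i).len n m : ℝ) / S ^ (4 / 3 : ℝ),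
      crv (arcw m (k i) (clw s)) ((k i).len n m) S)) (fun i hi => hG i hi _) fun i hi => h2 i hi _
    rw [← hone s hs] at h5
    have h6 : |prj J k φ (pt s) - Φ (pt s)| ≤ ε / 2 + if ¬ ModC η ρ (crv (clw s) (n + 1) S) then 2 else 0 := by
      by_cases hb : ModC η ρ (crv (clw s) (n + 1) S)
      swap
      · rw [if_pos hb]
        have h7 : |prj J k φ (pt s)| ≤ 1 := by
          unfold prj
          rw [abs_prod]
          exact prod_le_one (fun i _ => abs_nonneg _) fun i hi => h2 i hi _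
        have h8 := a2 (pt s)
        have h9 := abs_sub (prj J k φ (pt s)) (Φ (pt s))
        linarith
      · rw [if_neg (not_not.2 hb)]
        have h7 := a3 (pt s) (by rw [hpt]; exact hν) (by rw [hpt]; positivity) (by
          rw [hpt]
          show (m : ℝ) / S ^ (4 / 3 : ℝ) ≤ ((n + 1 : ℕ) : ℝ) / S ^ (4 / 3 : ℝ)
          refine div_le_div_of_nonneg_right ?_ hS43.le
          exact_mod_cast (by omega : m ≤ n + 1)) (by rw [hpt]; exact hb)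
        linarith
    have h7 := abs_sub_le (∏ i ∈ J, G i (arcw m (k i) (clw s))) (prj J k φ (pt s)) (Φ (pt s))
    linarith
  have hfin := sum_le_sum hmain
  rw [sum_add_distrib, sum_add_distrib, sum_const, nsmul_eq_mul, sum_comm, ← sum_filter, sum_const, nsmul_eq_mul] at hfin
  have h8 := sum_le_sum harc
  rw [sum_const, nsmul_eq_mul] at h8
  have h9 := hmod n (by omega) ho S hS1
  rw [hpt] at hfin
  refine hfin.trans ?_
  have e1 : (J.card * e + ε) * ((pol n).card : ℝ) = J.card * (e * ((pol n).card : ℝ)) + ε * ((pol n).card : ℝ) := by ring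
  rw [e1]
  linarith

variable {α : Type*}

/-- **the statement for one arc**, family `G a S` (`S` = unit of length), `a` along the filter `l`: for all numbers of steps and all
lengths of the arc at once, a Lipschitz functional of (length of the arc, arc) -/
def ArcJ (l : Filter α) (G : α → ℝ → W3 → ℝ) : Prop := ∀ ε δ K0 : ℝ, 0 < ε → 0 < δ → 0 < K0 → ∃ (K : ℝ≥0) (n0 : ℕ),
  ∀ᶠ a in l, ∀ S : ℝ, 0 < S → ∃ φ : ℝ × C(unitInterval, ℂ) → ℝ, LipschitzWith K φ ∧ (∀ x, |φ x| ≤ 1) ∧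
    ∀ n j : ℕ, n0 ≤ n → Odd n → Even j → δ * n ≤ j → (j : ℝ) ≤ (1 - δ) * n → S ≤ K0 * (n : ℝ) ^ (3 / 4 : ℝ) →
      (n : ℝ) ^ (3 / 4 : ℝ) ≤ K0 * S →
        ∑ s ∈ pol n, |G a S ((clw s).take j) - φ ((j : ℝ) / S ^ (4 / 3 : ℝ), crv ((clw s).take j) j S)| ≤ ε * ((pol n).card : ℝ)

/-- the six directions -/
theorem arcJ_sym (T : LSym) {l : Filter α} {G : α → ℝ → W3 → ℝ} (h : ArcJ l G) : ArcJ l fun a S w => G a S (mp T w) := by
  intro ε δ K0 hε hδ hK0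
  obtain ⟨K, n0, h1⟩ := h ε δ K0 hε hδ hK0
  refine ⟨K, n0, h1.mono fun a ha S hS => ?_⟩
  obtain ⟨φ, h2, h3, h4⟩ := ha S hS
  refine ⟨fun x => φ (x.1, T.act x.2), ?_, fun x => h3 _, fun n j hn ho he b1 b2 b3 b4 => ?_⟩
  · refine LipschitzWith.of_dist_le_mul fun x y => ?_
    refine (h2.dist_le_mul _ _).trans (mul_le_mul_of_nonneg_left ?_ K.2)
    rw [Prod.dist_eq, Prod.dist_eq, act_dist]
  · refine le_trans (le_of_eq ?_) (h4 n j hn ho he b1 b2 b3 b4)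
    rw [sum_pol' ho fun w => |G a S (mp T (w.take j)) - φ ((j : ℝ) / S ^ (4 / 3 : ℝ), T.act (crv (w.take j) j S))|,
      sum_pol' ho fun w => |G a S (w.take j) - φ ((j : ℝ) / S ^ (4 / 3 : ℝ), crv (w.take j) j S)|,
      ← tsum_mp_Cln T (n + 1) fun w => |G a S (w.take j) - φ ((j : ℝ) / S ^ (4 / 3 : ℝ), crv (w.take j) j S)|]
    refine tsum_congr fun w => ?_
    rw [← mp_take, crv_mp]

/-- the curve in another unit -/
lemma crv_scale (w : W3) (j : ℕ) (S : ℝ) {κ : ℝ} : crv w j (κ * S) = (κ⁻¹ : ℂ) • crv w j S := by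
  rcases Nat.eq_zero_or_pos j with rfl | hj
  · ext t
    show Tight.poly (fun k => ps w k / ((κ * S : ℝ) : ℂ)) 0 t = (κ⁻¹ : ℂ) * Tight.poly (fun k => ps w k / (S : ℂ)) 0 t
    unfold Tight.poly
    simp
  · ext t
    show _ = (κ⁻¹ : ℂ) * crv w j S t
    rw [crv_eq hj, crv_eq hj]
    push_cast
    rw [div_eq_mul_inv, div_eq_mul_inv, mul_inv]
    ring

/-- **the unit of length is free**: the statement for every small unit (below the size of the arc) gives the statement for all units -/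
theorem arcJ_of {l : Filter α} {G : α → ℝ → W3 → ℝ}
    (h : ∀ κ : ℝ, 0 < κ → ∀ ε δ K0 : ℝ, 0 < ε → 0 < δ → 0 < K0 → ∃ (K : ℝ≥0) (n0 : ℕ),
      ∀ᶠ a in l, ∀ S : ℝ, 0 < S → ∃ φ : ℝ × C(unitInterval, ℂ) → ℝ, LipschitzWith K φ ∧ (∀ x, |φ x| ≤ 1) ∧
        ∀ n j : ℕ, n0 ≤ n → Odd n → Even j → δ * n ≤ j → (j : ℝ) ≤ (1 - δ) * n → size j / K0 ≤ S → S ≤ size j →
          ∑ s ∈ pol n, |G a (κ⁻¹ * S) ((clw s).take j) - φ ((j : ℝ) / S ^ (4 / 3 : ℝ), crv ((clw s).take j) j S)| ≤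
            ε * ((pol n).card : ℝ)) : ArcJ l G := by
  intro ε δ K0 hε hδ hK0
  obtain ⟨c, C, hc, hC, hsz⟩ := size34
  obtain ⟨κ, hκ⟩ : ∃ κ : ℝ, κ = c * δ ^ (3 / 4 : ℝ) / K0 := ⟨_, rfl⟩
  have hκ0 : 0 < κ := by
    rw [hκ]
    positivity
  obtain ⟨K, n0, h1⟩ := h κ hκ0 ε δ (C * K0 / κ) hε hδ (by positivity)
  obtain ⟨L, hL⟩ : ∃ L : ℝ≥0, L = Real.toNNReal (κ ^ (-(4 / 3) : ℝ) + κ⁻¹) := ⟨_, rfl⟩
  have hL' : (L : ℝ) = κ ^ (-(4 / 3) : ℝ) + κ⁻¹ := by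
    rw [hL]
    exact Real.coe_toNNReal _ (by positivity)
  refine ⟨K * L, n0 + 1, h1.mono fun a ha S hS => ?_⟩
  obtain ⟨φ, h2, h3, h4⟩ := ha (κ * S) (by positivity)
  refine ⟨fun x => φ (κ ^ (-(4 / 3) : ℝ) * x.1, (κ⁻¹ : ℂ) • x.2), ?_, fun x => h3 _, fun n j hn ho he b1 b2 b3 b4 => ?_⟩
  · refine LipschitzWith.of_dist_le_mul fun x y => ?_
    refine (h2.dist_le_mul _ _).trans ?_
    rw [NNReal.coe_mul, mul_assoc]
    refine mul_le_mul_of_nonneg_left ?_ K.2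
    rw [Prod.dist_eq, Prod.dist_eq, hL']
    have e1 : 0 < κ ^ (-(4 / 3) : ℝ) := by positivity
    have e2 : 0 < κ⁻¹ := by positivity
    have d0 : 0 ≤ max (dist x.1 y.1) (dist x.2 y.2) := le_max_of_le_left dist_nonneg
    refine max_le ?_ ?_
    · show dist (κ ^ (-(4 / 3) : ℝ) * x.1) (κ ^ (-(4 / 3) : ℝ) * y.1) ≤ _
      rw [Real.dist_eq, ← mul_sub, abs_mul, abs_of_pos e1, ← Real.dist_eq]
      exact mul_le_mul (by linarith) (le_max_left _ _) dist_nonneg (by positivity)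
    · refine (ContinuousMap.dist_le (by positivity)).2 fun t => ?_
      show dist ((κ⁻¹ : ℂ) * x.2 t) ((κ⁻¹ : ℂ) * y.2 t) ≤ _
      rw [dist_eq_norm, ← mul_sub, norm_mul, norm_inv, Complex.norm_real, Real.norm_of_nonneg hκ0.le, ← dist_eq_norm]
      exact mul_le_mul (by linarith) ((ContinuousMap.dist_apply_le_dist t).trans (le_max_right _ _)) dist_nonneg (by positivity)
  · have hn0 : (0 : ℝ) < n := by exact_mod_cast (by omega : 0 < n)
    have hj : 1 ≤ j := by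
      have : (0 : ℝ) < j := (mul_pos hδ hn0).trans_le b1
      exact_mod_cast this
    have hjn : (j : ℝ) ≤ n := by nlinarith
    have h5 := h4 n j (by omega) ho he b1 b2 (by
      have h6 := (hsz j hj).2
      have h7 : (j : ℝ) ^ (3 / 4 : ℝ) ≤ (n : ℝ) ^ (3 / 4 : ℝ) := Real.rpow_le_rpow (Nat.cast_nonneg j) hjn (by norm_num)
      rw [div_le_iff₀ (by positivity)]
      calc size j ≤ C * (j : ℝ) ^ (3 / 4 : ℝ) := h6
        _ ≤ C * (K0 * S) := mul_le_mul_of_nonneg_left (h7.trans b4) hC.le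
        _ = κ * S * (C * K0 / κ) := by field_simp) (by
      refine le_trans ?_ (hsz j hj).1
      have h7 : (δ * n) ^ (3 / 4 : ℝ) ≤ (j : ℝ) ^ (3 / 4 : ℝ) := Real.rpow_le_rpow (by positivity) b1 (by norm_num)
      rw [Real.mul_rpow hδ.le hn0.le] at h7
      calc κ * S ≤ κ * (K0 * (n : ℝ) ^ (3 / 4 : ℝ)) := mul_le_mul_of_nonneg_left b3 hκ0.le
        _ = c * (δ ^ (3 / 4 : ℝ) * (n : ℝ) ^ (3 / 4 : ℝ)) := by
            rw [hκ]
            field_simp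
        _ ≤ _ := mul_le_mul_of_nonneg_left h7 hc.le)
    refine le_trans (le_of_eq ?_) h5
    refine sum_congr rfl fun s _ => ?_
    have e1 : κ⁻¹ * (κ * S) = S := by field_simp
    have e2 : κ ^ (-(4 / 3) : ℝ) * ((j : ℝ) / S ^ (4 / 3 : ℝ)) = (j : ℝ) / (κ * S) ^ (4 / 3 : ℝ) := by
      rw [Real.mul_rpow hκ0.le hS.le, Real.rpow_neg hκ0.le]
      field_simp
    simp only
    rw [e1, e2, ← crv_scale]

/-- **the products over the arcs** -/
theorem macJ {ι : Type*} (J : Finset ι) (k : ι → Arm) {l : Filter α} {G : ι → α → ℝ → W3 → ℝ}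
    (hG : ∀ᶠ a in l, ∀ i ∈ J, ∀ S : ℝ, 0 < S → ∀ w, |G i a S w| ≤ 1) (h : ∀ i ∈ J, ArcJ l (G i)) :
    ∀ ε δ K0 : ℝ, 0 < ε → 0 < δ → 0 < K0 → ∃ (K : ℝ≥0) (n0 : ℕ), ∀ᶠ a in l, ∀ S : ℝ, 0 < S →
      ∃ Φ : ℝ × ℝ × C(unitInterval, ℂ) → ℝ, LipschitzWith K Φ ∧ (∀ x, |Φ x| ≤ 1) ∧ ∀ n m : ℕ, n0 ≤ n → Odd n → Even m →
        δ * n ≤ m → (m : ℝ) ≤ (1 - δ) * n → S ≤ K0 * (n : ℝ) ^ (3 / 4 : ℝ) → (n : ℝ) ^ (3 / 4 : ℝ) ≤ K0 * S →
          ∑ s ∈ pol n, |∏ i ∈ J, G i a S (arcw m (k i) (clw s)) - Φ (((n + 1 : ℕ) : ℝ) / S ^ (4 / 3 : ℝ),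
            (m : ℝ) / S ^ (4 / 3 : ℝ), crv (clw s) (n + 1) S)| ≤ ε * ((pol n).card : ℝ) := by
  classical
  intro ε δ K0 hε hδ hK0
  have hε2 : 0 < ε / 2 / (J.card + 1) := by positivity
  have hex : ∀ i : ι, ∃ (K : ℝ≥0) (n0 : ℕ), i ∈ J → ∀ᶠ a in l, ∀ S : ℝ, 0 < S → ∃ φ : ℝ × C(unitInterval, ℂ) → ℝ,
      LipschitzWith K φ ∧ (∀ x, |φ x| ≤ 1) ∧ ∀ n j : ℕ, n0 ≤ n → Odd n → Even j → δ / 2 * n ≤ j → (j : ℝ) ≤ (1 - δ / 2) * n →
        S ≤ K0 * (n : ℝ) ^ (3 / 4 : ℝ) → (n : ℝ) ^ (3 / 4 : ℝ) ≤ K0 * S →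
          ∑ s ∈ pol n, |G i a S ((clw s).take j) - φ ((j : ℝ) / S ^ (4 / 3 : ℝ), crv ((clw s).take j) j S)| ≤
            ε / 2 / (J.card + 1) * ((pol n).card : ℝ) := by
    intro i
    by_cases hi : i ∈ J
    · obtain ⟨K, n0, h1⟩ := h i hi (ε / 2 / (J.card + 1)) (δ / 2) K0 hε2 (by positivity) hK0
      exact ⟨K, n0, fun _ => h1⟩
    · exact ⟨0, 0, fun hi' => absurd hi' hi⟩
  choose Kf nf hKf using hex
  obtain ⟨K, hK⟩ : ∃ K : ℝ≥0, K = ∑ i ∈ J, Kf i := ⟨_, rfl⟩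
  have hKi : ∀ i ∈ J, Kf i ≤ K := fun i hi => by
    rw [hK]
    exact single_le_sum (f := Kf) (fun j _ => (Kf j).2) hi
  obtain ⟨K2, n1, hpj⟩ := prod_joint J k (ε := ε / 2) (δ := δ) (c := 1 / K0) (C := K0) K (by positivity) hδ (by positivity) hK0
  obtain ⟨n2, hn2⟩ := exists_nat_ge (2 / δ)
  refine ⟨K2, ∑ i ∈ J, nf i + n1 + n2 + 2, ?_⟩
  filter_upwards [hG, (eventually_all_finset J).2 fun i hi => hKf i hi] with a haG haA S hS
  have hex2 : ∀ i : ι, ∃ φ : ℝ × C(unitInterval, ℂ) → ℝ, i ∈ J → LipschitzWith (Kf i) φ ∧ (∀ x, |φ x| ≤ 1) ∧ ∀ n j : ℕ, nf i ≤ n →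
      Odd n → Even j → δ / 2 * n ≤ j → (j : ℝ) ≤ (1 - δ / 2) * n → S ≤ K0 * (n : ℝ) ^ (3 / 4 : ℝ) →
        (n : ℝ) ^ (3 / 4 : ℝ) ≤ K0 * S → ∑ s ∈ pol n, |G i a S ((clw s).take j) - φ ((j : ℝ) / S ^ (4 / 3 : ℝ),
          crv ((clw s).take j) j S)| ≤ ε / 2 / (J.card + 1) * ((pol n).card : ℝ) := by
    intro i
    by_cases hi : i ∈ J
    · obtain ⟨φ, h1⟩ := haA i hi S hS
      exact ⟨φ, fun _ => h1⟩
    · exact ⟨fun _ => 0, fun hi' => absurd hi' hi⟩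
  choose φ hφ using hex2
  obtain ⟨Φ, b1, b2, b3⟩ := hpj S (fun i => G i a S) φ hS (fun i hi w => haG i hi S hS w)
    (fun i hi => (hφ i hi).1.weaken (hKi i hi)) fun i hi => (hφ i hi).2.1
  refine ⟨Φ, b1, b2, fun n m hn ho he hm1 hm2 hS1 hS2 => ?_⟩
  have hnr : (2 / δ : ℝ) ≤ n := hn2.trans (by exact_mod_cast (by omega : n2 ≤ n))
  rw [div_le_iff₀ hδ] at hnr
  have hn0 : (0 : ℝ) < n := by exact_mod_cast (by omega : 0 < n)
  have hmn : m ≤ n := by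
    have : (m : ℝ) ≤ n := by nlinarith
    exact_mod_cast this
  have e : ((n + 1 - m : ℕ) : ℝ) = n + 1 - m := by
    rw [Nat.cast_sub (by omega)]
    push_cast
    ring
  have hlen : ∀ κ : Arm, δ / 2 * n ≤ (κ.len n m : ℝ) ∧ (κ.len n m : ℝ) ≤ (1 - δ / 2) * n ∧ Even (κ.len n m) := by
    have h1 : δ / 2 * n ≤ (m : ℝ) ∧ (m : ℝ) ≤ (1 - δ / 2) * n ∧ Even m := ⟨by nlinarith, by nlinarith, he⟩
    have h2 : δ / 2 * n ≤ ((n + 1 - m : ℕ) : ℝ) ∧ ((n + 1 - m : ℕ) : ℝ) ≤ (1 - δ / 2) * n ∧ Even (n + 1 - m) := by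
      refine ⟨by rw [e]; nlinarith, by rw [e]; nlinarith, ?_⟩
      exact (Nat.even_sub (by omega)).2 ⟨fun _ => he, fun _ => ho.add_one⟩
    intro κ
    cases κ
    · exact h1
    · exact h1
    · exact h2
    · exact h2
  refine (b3 n m (by omega) ho he hm1 hm2 ?_ hS1 (ε / 2 / (J.card + 1)) fun i hi => ?_).trans ?_
  · rw [one_div, inv_mul_le_iff₀ hK0]
    exact hS2
  · obtain ⟨a1, a2, a3⟩ := hlen (k i)
    have hni : nf i ≤ n := by
      have := single_le_sum (f := nf) (fun j _ => Nat.zero_le _) hi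
      omega
    exact (hφ i hi).2.2 n _ hni ho a3 a1 a2 hS1 hS2
  · refine mul_le_mul_of_nonneg_right ?_ (Nat.cast_nonneg _)
    have h5 : (J.card : ℝ) * (ε / 2 / (J.card + 1)) ≤ ε / 2 := by
      rw [mul_div_assoc', div_le_iff₀ (by positivity)]
      nlinarith
    linarith

end Pool.Agent.ROT.F3
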