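import Pool.Agent.ROT.F3K3S
import Pool.Agent.ROT.F3C0E
import Pool.Agent.ROT.F3C0N
import Pool.Agent.ROT.F3C0H
import Pool.Agent.ROT.F3C0J
import Pool.Agent.ROT.W4G
import Pool.Agent.ROT.W4J

/-!
# ROT, F3 (B), row C0At (helper87, literals of helper86): the native level and the lower bound

* `ch x0 x1 eta` : the cut-off of the level;
* **`lev0_lm`** : the level of the native gate of the first strand, in any direction, has a limit;
* **`psV_RW`** : on the words with two straight arms the average of the start gates over a narrow box is 1, all directions;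
* **`low_of`** : the input `low` of `c0_lowM`.
-/

set_option autoImplicit false

namespace Pool.Agent.ROT.F3.C0P

open MeasureTheory Filter Topology Set unitInterval
open Pool.Agent.ROT.F3.LF
open Pool.Agent.ROT.F3.CK
open Pool.Agent.SCF.M (psV)
open Pool.Agent.ROT.F3.N1W (RW)
open scoped NNReal ENNReal Classical

/-! ### 1. The cut-off -/

/-- **the cut-off of the level** -/
noncomputable def ch (x0 x1 eta t : ℝ) : ℝ := cu ((t - x0) / eta) * cu ((x1 - t) / eta)

variable {x0 x1 eta t : ℝ}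

lemma ch_nn : 0 ≤ ch x0 x1 eta t := mul_nonneg (cu_nn _) (cu_nn _)

lemma ch_le : ch x0 x1 eta t ≤ 1 := mul_le_one₀ (cu_le _) (cu_nn _) (cu_le _)

lemma ch_abs : |ch x0 x1 eta t| ≤ 1 := abs_le.2 ⟨by linarith [ch_nn (x0 := x0) (x1 := x1) (eta := eta) (t := t)], ch_le⟩

lemma ch_cont : Continuous (ch x0 x1 eta) := by
  unfold ch
  have h := cu_cont
  fun_prop

lemma ch_one (he : 0 < eta) (h0 : x0 + eta ≤ t) (h1 : t ≤ x1 - eta) : ch x0 x1 eta t = 1 := by
  unfold ch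
  rw [cu_one ((le_div_iff₀ he).2 (by linarith)), cu_one ((le_div_iff₀ he).2 (by linarith)), one_mul]

lemma ch_pos (he : 0 < eta) (h : 0 < ch x0 x1 eta t) : x0 < t ∧ t < x1 := by
  unfold ch at h
  have h1 : 0 < cu ((t - x0) / eta) := (cu_nn _).lt_of_ne fun e => by rw [← e, zero_mul] at h; exact lt_irrefl _ h
  have h2 : 0 < cu ((x1 - t) / eta) := (cu_nn _).lt_of_ne fun e => by rw [← e, mul_zero] at h; exact lt_irrefl _ h
  have h3 := (div_pos_iff_of_pos_right he).1 (cu_pos h1)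
  have h4 := (div_pos_iff_of_pos_right he).1 (cu_pos h2)
  exact ⟨by linarith, by linarith⟩

/-! ### 2. The native level -/

/-- the clamp -/
noncomputable def clp (R t : ℝ) : ℝ := max (-R) (min R t)

lemma clp_cont (R : ℝ) : Continuous (clp R) := by
  unfold clp
  fun_prop

lemma clp_bd {R : ℝ} (hR : 0 ≤ R) (t : ℝ) : |clp R t| ≤ R := clamp_bd hR t

lemma clp_of {R t : ℝ} (h : |t| ≤ R) : clp R t = t := by
  unfold clp
  rw [abs_le] at h
  rw [min_eq_right h.2, max_eq_right h.1]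

lemma clp_bi {R : ℝ} (hR : 0 ≤ R) (A : Prop) (t : ℝ) : clp R (bi A * t) = bi A * clp R t := by
  by_cases h : A
  · rw [bi_pos h, one_mul, one_mul]
  · rw [bi_neg h, zero_mul, zero_mul]
    exact clp_of (by rw [abs_zero]; exact hR)

/-- **the level of the native gate of the first strand** (direction `e`, unit `N`, cut off at `R`) -/
noncomputable def p0 (A : Arm → ℕ → W3 × ℕ → Prop) (g : Arm → ℕ → W3 × ℕ → ℕ) (e : ℂ) (R : ℝ) (N : ℕ) (x : W3 × ℕ) : ℝ :=
  clp R (bi (A .fp N x) * lv e (ps (arcw x.2 .fp x.1) (g .fp N x)) / N)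

/-- its limit -/
noncomputable def P0 (B : Arm → Set CC.Gm) (Pg : Arm → CC.Gm → ℝ) (e : ℂ) (R : ℝ) (y : CC.Gm) : ℝ :=
  clp R (bi (y ∈ B .fp) * lv e (y.2.2 (pji (Pg .fp y * muG y))))

/-- **the native level has a limit** -/
theorem lev0_lm {U : Filter ℕ} {b : ℝ} {PG : Measure CC.Gm} {A : Arm → ℕ → W3 × ℕ → Prop} {c g : Arm → ℕ → W3 × ℕ → ℕ}
    {B : Arm → Set CC.Gm} {Pc Pg : Arm → CC.Gm → ℝ} (hC : Cv U (fun N => mwE N b) cN PG) (hP : ∀ᵐ y ∂PG, 0 < y.1)
    (H : AIn U b PG A c g B Pc Pg) {e : ℂ} (he : ‖e‖ = 1) {R : ℝ} (hR : 0 ≤ R) :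
    Lm U (fun N => mwE N b) cN PG (p0 A g e R) (P0 B Pg e R) := by
  have h1 := Lm.comp2 hC (H.tg .fp) (lm_mu hC hP) (f := fun s μ => s * μ) (by fun_prop)
  have h2 := Lm.comp hC (κ := Unit)
    (p := fun N x _ => bi (A .fp N x) * ((g .fp N x : ℝ) / (arcw x.2 .fp x.1).length) * muN x)
    (Φ := fun y _ => Pg .fp y * muG y) (fun _ => h1)
    (F := fun z : CC.Gm × (Unit → ℝ) => clp R (lv e (z.1.2.2 (pji (z.2 ())))))
    ((clp_cont R).comp ((lv_lip he).continuous.comp (by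
      have := pji_cont
      fun_prop))) (B := R) fun z => clp_bd hR _
  have h3 := (H.ev .fp).mul hC h2
  have e1 : P0 B Pg e R = fun y => bi (y ∈ B .fp) * clp R (lv e (y.2.2 (pji (Pg .fp y * muG y)))) :=
    funext fun y => clp_bi hR _ _
  rw [e1]
  refine lm_spt hC h3 ⟨R, fun N x => clp_bd hR _⟩ ?_
  filter_upwards [H.pos] with N hN x hx
  by_cases hA : A .fp N x
  · obtain ⟨-, -, -, h4⟩ := hN x hx .fp hA
    rw [al_fp hx.2.2.le] at h4
    have e2 : bi (A .fp N x) * ((g .fp N x : ℝ) / (arcw x.2 .fp x.1).length) * muN x = ((fr (g .fp N x) x.1.length : I) : ℝ) := by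
      rw [bi_pos hA, one_mul, al_fp hx.2.2.le, muN_eq hx.2.2]
      have e3 : (g .fp N x : ℝ) / x.2 * ((x.2 : ℝ) / x.1.length) = (g .fp N x : ℝ) / x.1.length := by
        by_cases h5 : x.2 = 0
        · have h6 : g .fp N x = 0 := by omega
          rw [h6, h5]
          simp
        · have h6 : (x.2 : ℝ) ≠ 0 := by exact_mod_cast h5
          rw [div_mul_div_comm, mul_comm (g .fp N x : ℝ), mul_div_mul_left _ _ h6]
      rw [e3]
      have h7 : (g .fp N x : ℝ) / x.1.length ≤ 1 := by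
        have h8 : 0 < x.1.length := lt_of_le_of_lt (Nat.zero_le _) hx.2.2
        rw [div_le_one (by exact_mod_cast h8)]
        exact_mod_cast h4.trans hx.2.2.le
      show _ = min 1 ((g .fp N x : ℝ) / x.1.length)
      rw [min_eq_right h7]
    show p0 A g e R N x = bi (A .fp N x) * clp R (lv e ((cN N x).2.2 (pji (bi (A .fp N x) *
      ((g .fp N x : ℝ) / (arcw x.2 .fp x.1).length) * muN x))))
    rw [e2, pji_coe]
    show p0 A g e R N x = bi (A .fp N x) * clp R (lv e (crv x.1 x.1.length N (fr (g .fp N x) x.1.length)))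
    rw [crv_fr x.1 (h4.trans hx.2.2.le), stlv_div]
    unfold p0
    rw [mul_div_assoc, clp_bi hR]
    congr 3
    show lv e (ps (x.1.take x.2) (g .fp N x)) = _
    rw [ps_take x.1 h4 hx.2.2.le]
  · show p0 A g e R N x = bi (A .fp N x) * _
    unfold p0
    rw [bi_neg hA, zero_mul, zero_mul, zero_div]
    exact clp_of (by rw [abs_zero]; exact hR)

/-! ### 3. The start gates of a narrow box -/

section gates

open Pool.Agent.NTS.Res (pos)
open Pool.Agent.SCF.M (TP inP psP inP_eq grid0)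
open Pool.Agent.SCF.Z (SCut GC gp gp_mem)
open Pool.Agent.ROT.F3.N1W (ArmW REvW)
open Pool.Agent.ROT.F3.Nm (re_gap lv_one ps_succ_re)
open Pool.Agent.ROT.F3.C0N (Ct psV_one norm_thin tp_of_cut pos_get)
open Finset

/-- **on the words with two straight arms the start gates of a box exist**, mesh larger than the arms -/
theorem rev_psG {K d x R S : ℝ} {f : ℂ} {w : W3} {m M : ℕ} {B : SCF.M.Box} (h : REvW K d (ax 0) f x w) (hd : 0 < d) (hS : 0 < S)
    (hR : 0 < R) (hB : B.Ok R) (hM : 0 < M) (hxm : x ≤ m) (hmw : (m : ℝ) + x < w.length)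
    (hu : 4 * d ≤ B.a0 * S) (hr : B.a1 * S + 24 * d ≤ B.r0 * S) (hK : 130 * R * S ≤ K * d) :
    psV SCF.M.LG M B S (fun _ _ _ => 1) (w.take m).get = 1 := by
  obtain ⟨s, t, h1, h2, h3, h4, h5, h6⟩ := h
  have hx0 : 0 ≤ x := le_trans (Nat.cast_nonneg s) h1
  have hml : m ≤ w.length := by
    have : (m : ℝ) ≤ w.length := by linarith
    exact_mod_cast this
  have hsm : s ≤ m := by
    have : (s : ℝ) ≤ m := by linarith
    exact_mod_cast this
  have htl : (w.take m).length = m := by rw [List.length_take]; omega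
  have hps : ∀ k, k ≤ m → ps (w.take m) k = ps w k := fun k hk => ps_take w hk hml
  have hB1 := hB.r'
  have hB2 := hB.r
  have hB3 := hB.p''
  have hRS : B.r1 * S ≤ 2 * R * S := mul_le_mul_of_nonneg_right hB1 hS.le
  have hrS : B.r0 * S < B.r1 * S := mul_lt_mul_of_pos_right hB2 hS
  have hRS0 : 0 < R * S := mul_pos hR hS
  have hax : ax 0 = 1 := ax_zero
  rw [hax] at h4
  refine psV_one hM hB hR.le hS.le fun a r ρ ha0 ha1 hr0 hr1 hp0 hp1 => ?_
  have haS : B.a0 * S ≤ a * S := mul_le_mul_of_nonneg_right ha0 hS.le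
  have haS1 : a * S ≤ B.a1 * S := mul_le_mul_of_nonneg_right ha1 hS.le
  have hrS0 : B.r0 * S ≤ r * S := mul_le_mul_of_nonneg_right hr0 hS.le
  have hpS : ρ * S ≤ 128 * R * S := mul_le_mul_of_nonneg_right (hp1.trans hB3) hS.le
  -- a cut
  obtain ⟨q, q1, q2, q3, q4, q5, q6⟩ := h4.cut (a * S) (by linarith) (by nlinarith)
  simp only [lv_one] at q2 q3 q5 q6
  have hqm : q < m := by omega
  have hqe : Even q := by
    by_contra hcon
    have e1 := ps_succ_re (w := w) (k := q) (by omega)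
    rw [q4, if_neg hcon, Complex.add_re, Complex.one_re] at e1
    split_ifs at e1 <;> linarith
  have hq : Ct (ps (w.take m)) s q := by
    refine ⟨hqe, q1, fun i hi => ?_, fun i hi hi' => ?_⟩
    · rw [hps i (by omega), hps q (by omega)]
      exact q5 i hi
    · rw [hps i (by omega), hps q (by omega)]
      exact q6 i hi hi'
  have hex : ∃ c, Ct (ps (w.take m)) s c ∧ a * S ≤ (ps (w.take m) c).re := ⟨q, hq, by rw [hps q (by omega)]; exact q2⟩
  obtain ⟨c, hc, hca, hcm, hcq⟩ : ∃ c, Ct (ps (w.take m)) s c ∧ a * S ≤ (ps (w.take m) c).re ∧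
      (∀ c', c' < c → Ct (ps (w.take m)) s c' → (ps (w.take m) c').re < a * S) ∧ c ≤ q := by
    refine ⟨Nat.find hex, (Nat.find_spec hex).1, (Nat.find_spec hex).2, fun c' hc' h7 => ?_, Nat.find_min' hex ⟨hq, by rw [hps q (by omega)]; exact q2⟩⟩
    have := Nat.find_min hex hc'
    rw [not_and, not_le] at this
    exact this h7
  have hlev : (ps w c).re ≤ a * S + 5 * d := (q5 c hcq).trans q3
  -- the vertices up to the cut
  have hbox : ∀ i, i ≤ c → -(8 * d) ≤ (ps w i).re ∧ (ps w i).re ≤ a * S + 5 * d ∧ |(ps w i).im| ≤ 8 * d := by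
    intro i hi
    obtain ⟨τ, h7, h8⟩ := h4.near i (by have := hc.2.1; omega)
    have h9 := hc.2.2.1 i hi
    rw [hps i (by omega), hps c (by omega)] at h9
    have e1 : |(ps w i - (τ : ℂ) * 1).re| ≤ 8 * d := (Complex.abs_re_le_norm _).trans h8
    have e2 : |(ps w i - (τ : ℂ) * 1).im| ≤ 8 * d := (Complex.abs_im_le_norm _).trans h8
    rw [mul_one, Complex.sub_re, Complex.ofReal_re] at e1
    rw [mul_one, Complex.sub_im, Complex.ofReal_im, sub_zero] at e2
    rw [abs_le] at e1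
    exact ⟨by linarith, by linarith, e2⟩
  have hdiam : ∀ i j, i ≤ c → j ≤ c → ‖ps (w.take m) i - ps (w.take m) j‖ ≤ a * S + 24 * d := by
    intro i j hi hj
    rw [hps i (by omega), hps j (by omega)]
    obtain ⟨a1, a2, a3⟩ := hbox i hi
    obtain ⟨b1, b2, b3⟩ := hbox j hj
    refine norm_thin hd.le (by linarith) ?_ ?_
    · rw [Complex.sub_re, abs_le]
      constructor <;> linarith
    · rw [Complex.sub_im]
      rw [abs_le] at a3 b3 ⊢
      constructor <;> linarith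
  have hcn : ‖ps (w.take m) c‖ ≤ a * S + 24 * d := by
    have := hdiam c 0 le_rfl (Nat.zero_le _)
    rwa [ps_zero, sub_zero] at this
  refine ⟨c, tp_of_cut (s := s) (by rw [htl]; exact hsm) hc hca hcm (fun i j hi hj => (hdiam i j hi hj).trans (by linarith))
    fun j hj hj' => ?_⟩
  rw [htl] at hj'
  have h7 : j + t < w.length := by
    have : ((j + t : ℕ) : ℝ) < w.length := by
      push_cast
      have : (j : ℝ) ≤ m := by exact_mod_cast hj'
      linarith
    exact_mod_cast this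
  have h8 := h6 j hj h7
  have h9 : ‖ps w j‖ ≤ ‖ps (w.take m) j - ps (w.take m) c‖ + ‖ps (w.take m) c‖ := by
    rw [← hps j hj']
    have : ps (w.take m) j = (ps (w.take m) j - ps (w.take m) c) + ps (w.take m) c := by ring
    exact (congrArg norm this).le.trans (norm_add_le _ _)
  linarith

/-- **thin arms: if the average is positive there is a cut in the range of the box**, before the end -/
theorem ps_cut1 {D F R S : ℝ} {t : W3} {s M : ℕ} {B : SCF.M.Box} (h : ArmC D 1 t s) (hS : 0 < S) (hB : B.Ok R)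
    (hF : 2 * R * S < F) (hD : 5 * D < 64 * R * S)
    (far : ∀ i, s < i → i ≤ t.length → F ≤ ‖ps t i‖) (hst : s ≤ t.length)
    (hp : 0 < psV SCF.M.LG M B S (fun _ _ _ => 1) t.get) :
    ∃ c, CutA 1 t s c ∧ c < t.length ∧ B.a0 * S ≤ lv 1 (ps t c) ∧ lv 1 (ps t c) ≤ B.r1 * S ∧
      ∀ i, i ≤ c → ‖ps t i‖ ≤ B.r1 * S := by
  have hex : ∃ i2 < M, ∃ i3 < M, ∃ i5 < M, ∃ k,
      TP (fun a k => SCF.M.LG a t.length t.get k) (gp M B.a0 B.a1 i3 * S) (gp M B.r0 B.r1 i2 * S) (gp M B.p0 B.p1 i5 * S) t.get k := by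
    by_contra hcon
    push Not at hcon
    refine hp.ne' ?_
    unfold psV psP
    rw [Finset.sum_eq_zero, zero_div]
    intro i2 h2
    refine Finset.sum_eq_zero fun i3 h3 => Finset.sum_eq_zero fun i5 h5 => ?_
    rw [Finset.mem_range] at h2 h3 h5
    exact Pool.Agent.SCF.M.inP_zero fun k => hcon i2 h2 i3 h3 i5 h5 k
  obtain ⟨i2, h2, i3, h3, i5, h5, k, ⟨k1, k2, k3, k4, -⟩, k6, k7, k8⟩ := hex
  have g1 := (gp_mem h3 hB.a'.le).1
  have g2 := (gp_mem h2 hB.r.le).2
  have g3 := (gp_mem h5 hB.p'.le).1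
  have b1 := hB.r'
  have b2 := hB.p
  have c1 : B.a0 * S ≤ gp M B.a0 B.a1 i3 * S := mul_le_mul_of_nonneg_right g1 hS.le
  have c2 : gp M B.r0 B.r1 i2 * S ≤ B.r1 * S := mul_le_mul_of_nonneg_right g2 hS.le
  have c3 : 64 * R * S ≤ gp M B.p0 B.p1 i5 * S := mul_le_mul_of_nonneg_right (b2.trans g3) hS.le
  have c4 : B.r1 * S ≤ 2 * R * S := mul_le_mul_of_nonneg_right b1 hS.le
  have hball : ∀ i, i ≤ k → ‖ps t i‖ ≤ B.r1 * S := by
    intro i hi
    have := k3 i 0 hi (Nat.zero_le _)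
    rw [pos_get, pos_get, ps_zero, sub_zero] at this
    exact this.trans c2
  have hks : k ≤ s := by
    by_contra hcon
    have e1 := far k (by omega) k6.le
    have e2 := hball k le_rfl
    linarith
  refine ⟨k, ⟨k1, hks, fun i hi => ?_, fun i hi hi' => ?_⟩, k6, ?_, ?_, hball⟩
  · have := k2 i hi
    rw [pos_get, pos_get] at this
    rwa [lv_one, lv_one]
  · rw [lv_one, lv_one]
    by_cases hd : ‖pos t.get i - pos t.get k‖ ≤ gp M B.p0 B.p1 i5 * S
    · have := k8 i hi (by omega) hd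
      rw [pos_get, pos_get] at this
      linarith
    · rw [not_le, pos_get, pos_get] at hd
      obtain ⟨τ, a1, a2⟩ := h.near i hi'
      obtain ⟨τ', b1, b2⟩ := h.near k hks
      have e1 := h.back k i hi.le hi'
      rw [lv_one, lv_one] at e1
      have r1 : |(ps t i - (τ : ℂ) * 1).re| ≤ D := (Complex.abs_re_le_norm _).trans a2
      have r2 : |(ps t k - (τ' : ℂ) * 1).re| ≤ D := (Complex.abs_re_le_norm _).trans b2
      rw [mul_one, Complex.sub_re, Complex.ofReal_re, abs_le] at r1 r2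
      have e2 : ‖ps t i - ps t k‖ ≤ |τ - τ'| + 2 * D := by
        have e3 : ps t i - ps t k = (ps t i - (τ : ℂ) * 1) + (((τ - τ' : ℝ)) : ℂ) - (ps t k - (τ' : ℂ) * 1) := by
          push_cast
          ring
        rw [e3]
        refine (norm_sub_le _ _).trans ?_
        have e4 := norm_add_le (ps t i - (τ : ℂ) * 1) (((τ - τ' : ℝ)) : ℂ)
        rw [Complex.norm_real, Real.norm_eq_abs] at e4
        linarith
      have e5 : 64 * R * S - 2 * D < |τ - τ'| := by linarith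
      rcases le_total τ' τ with h7 | h7
      · rw [abs_of_nonneg (by linarith)] at e5
        linarith
      · rw [abs_of_nonpos (by linarith)] at e5
        linarith
  · have : gp M B.a0 B.a1 i3 * S ≤ (pos t.get k).re := k4
    rw [pos_get] at this
    rw [lv_one]
    linarith
  · rw [lv_one]
    have e1 := hball k le_rfl
    exact ((le_abs_self _).trans (Complex.abs_re_le_norm _)).trans e1

end gates

/-- **the narrow box with base `u` and mesh `d`** -/
noncomputable def bxu (u d : ℝ) : SCF.M.Box := ⟨u, u + d, u + 25 * d, u + 26 * d, 64 * u, 128 * u⟩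

lemma bxu_ok {u d : ℝ} (hd : 0 < d) (hu : 26 * d ≤ u) : (bxu u d).Ok u := by
  refine ⟨?_, ?_, ?_, ?_, ?_, ?_, ?_⟩
  · show u / 4 ≤ u
    linarith
  · show u < u + d
    linarith
  · show u + 25 * d < u + 26 * d
    linarith
  · show u + 26 * d ≤ 2 * u
    linarith
  · show 64 * u ≤ 64 * u
    exact le_rfl
  · show 64 * u < 128 * u
    linarith
  · show 128 * u ≤ 128 * u
    exact le_rfl

/-- **on the words with two straight arms the average of the start gates over a narrow box is 1**, all directions; mesh `d`, thinness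
of the arms `d1` -/
theorem psV_RW {K d d1 u S X : ℝ} {i j : Fin 3} {x : W3 × ℕ} {M : ℕ} (T : LSym) (hT : T.L (ev i) = 1)
    (hx : x.1 ∈ RW K (d1 * S) X i j x.1.length) (h1 : X ≤ x.2) (h2 : (x.2 : ℝ) + X < x.1.length) (hM : 0 < M) (hd1 : 0 < d1)
    (hd : d1 ≤ d) (hS : 0 < S) (hu : 26 * d ≤ u) (hK : 130 * u ≤ K * d1) :
    psV SCF.M.LG M (bxu u d) S (fun _ _ _ => 1) (mp T (x.1.take x.2)).get = 1 := by
  have key : ∀ t t' : W3, t = t' → psV SCF.M.LG M (bxu u d) S (fun _ _ _ => 1) t.get =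
      psV SCF.M.LG M (bxu u d) S (fun _ _ _ => 1) t'.get := by
    intro t t' h
    subst h
    rfl
  rw [key _ _ (mp_take T x.1 x.2)]
  have h3 := C0N.REvW_mp T hx.2
  have e1 : T.L (ax i) = ax 0 := by
    have e2 : ax i = ev i := (ev_step i).symm
    rw [e2, hT, ax_zero]
  rw [e1] at h3
  have hu0 : 0 < u := by linarith
  have hd0 : 0 < d := by linarith
  refine rev_psG (R := u) h3 (mul_pos hd1 hS) hS hu0 (bxu_ok hd0 hu) hM h1 (by rw [mp_length]; exact h2) ?_ ?_ ?_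
  · show 4 * (d1 * S) ≤ u * S
    nlinarith
  · show (u + d) * S + 24 * (d1 * S) ≤ (u + 25 * d) * S
    nlinarith
  · nlinarith

/-! ### 4. The lower bound -/

/-- **the input `low`**: if both factors are `1` on `A` the integral is the mass of `A` -/
theorem low_of {N : ℕ} {b c : ℝ} {A : Set (W3 × ℕ)} {g J : W3 × ℕ → ℝ} (hc : c ≤ (mwE N b).real A) (hg : ∀ x ∈ A, g x = 1)
    (hJ : ∀ x ∈ A, J x = 1) : c ≤ ∫ x in A, g x * J x ∂(mwE N b) := by
  have h1 : ∫ x in A, g x * J x ∂(mwE N b) = ∫ _ in A, (1 : ℝ) ∂(mwE N b) :=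
    setIntegral_congr_fun MeasurableSet.of_discrete fun x hx => by
      show g x * J x = 1
      rw [hg x hx, hJ x hx, one_mul]
  rw [h1, setIntegral_const, smul_eq_mul, mul_one]
  exact hc

/-! ### 5. The factors of the strand -/

section factor

open Pool.Agent.SCF.Z (zc)

/-- the curve is far away at the end -/
lemma zc_far {v : W3} (hn : 1 ≤ v.length) {S κ c : ℝ} (hS : 0 < S) (hκ0 : 0 ≤ κ) (hc : 0 < c) {s : ℕ}
    (hs : (s : ℝ) + 1 ≤ (1 - κ) * v.length) (far : ∀ i, s < i → i ≤ v.length → 2 * c * S + 1 ≤ ‖ps v i‖) :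
    zc κ c (crv v v.length S) = 1 := by
  have hn0 : (0 : ℝ) < v.length := by exact_mod_cast hn
  have key : 2 * c ≤ sInf ((fun t : unitInterval => ‖crv v v.length S t‖) '' {t : unitInterval | 1 - κ ≤ (t : ℝ)}) := by
    refine le_csInf ⟨_, ⟨1, by
      show 1 - κ ≤ ((1 : unitInterval) : ℝ)
      rw [Set.Icc.coe_one]
      linarith, rfl⟩⟩ ?_
    rintro _ ⟨t, ht, rfl⟩
    have ht' : 1 - κ ≤ (t : ℝ) := ht
    show 2 * c ≤ ‖crv v v.length S t‖
    obtain ⟨y, hy⟩ : ∃ y : ℝ, y = t * v.length := ⟨_, rfl⟩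
    have hy0 : 0 ≤ y := by
      rw [hy]
      exact mul_nonneg t.2.1 hn0.le
    have hy1 : y ≤ v.length := by
      rw [hy]
      exact mul_le_of_le_one_left hn0.le t.2.2
    have f1 : (⌊y⌋₊ : ℝ) ≤ y := Nat.floor_le hy0
    have f2 : y < ⌊y⌋₊ + 1 := Nat.lt_floor_add_one y
    have f3 : ⌊y⌋₊ ≤ v.length := by
      have : (⌊y⌋₊ : ℝ) ≤ v.length := f1.trans hy1
      exact_mod_cast this
    have f4 : (1 - κ) * v.length ≤ y := by
      rw [hy]
      exact mul_le_mul_of_nonneg_right ht' hn0.le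
    have f5 : s < ⌊y⌋₊ := by
      have : ((s + 1 : ℕ) : ℝ) ≤ y := by
        push_cast
        linarith
      exact Nat.le_floor this
    rw [crv_eq hn, ← hy, norm_div, Complex.norm_real, Real.norm_of_nonneg hS.le, le_div_iff₀ hS]
    have g2 := pr_near v f1 f2.le
    rw [pr_nat] at g2
    have g3 := far _ f5 f3
    have g4 : ‖ps v ⌊y⌋₊‖ ≤ ‖pr v y‖ + ‖pr v y - ps v ⌊y⌋₊‖ := by
      have e : ps v ⌊y⌋₊ = pr v y - (pr v y - ps v ⌊y⌋₊) := by ring
      have h1 := norm_sub_le (pr v y) (pr v y - ps v ⌊y⌋₊)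
      rw [← e] at h1
      exact h1
    linarith
  unfold zc Pool.Agent.SCF.Z.tr
  have h1 : 1 ≤ sInf ((fun t : unitInterval => ‖crv v v.length S t‖) '' {t : unitInterval | 1 - κ ≤ (t : ℝ)}) / c - 1 := by
    have : 2 ≤ sInf ((fun t : unitInterval => ‖crv v v.length S t‖) '' {t : unitInterval | 1 - κ ≤ (t : ℝ)}) / c := by
      rw [le_div_iff₀ hc]
      linarith
    linarith
  rw [min_eq_left h1, max_eq_right zero_le_one]

/-- **the factor**: the average of the start gates over the box `B`, cut off at the tip -/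
noncomputable def gz (B : SCF.M.Box) (c0 : ℝ) (M : ℕ) (S : ℝ) (v : W3) : ℝ :=
  psV SCF.M.LG M B S (fun _ _ _ => 1) v.get * zc (1 / 2) c0 (crv v v.length S)

variable {B : SCF.M.Box} {c0 S R : ℝ} {M : ℕ} {v : W3}

lemma psV1_nn : 0 ≤ psV SCF.M.LG M B S (fun _ _ _ => 1) v.get :=
  Pool.Agent.SCF.M.psP_nn fun _ => zero_le_one

lemma psV1_le (hB : B.Ok R) (hR : 0 ≤ R) (hS : 0 ≤ S) : psV SCF.M.LG M B S (fun _ _ _ => 1) v.get ≤ 1 :=
  Pool.Agent.SCF.M.psP_le hB hR hS fun _ => le_rfl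

lemma zcl_mem (κ c : ℝ) (γ : C(unitInterval, ℂ)) : 0 ≤ zc κ c γ ∧ zc κ c γ ≤ 1 := by
  unfold zc Pool.Agent.SCF.Z.tr
  exact ⟨le_max_left _ _, max_le zero_le_one (min_le_left _ _)⟩

lemma gz_nn : 0 ≤ gz B c0 M S v := mul_nonneg psV1_nn (zcl_mem _ _ _).1

lemma gz_le (hB : B.Ok R) (hR : 0 ≤ R) (hS : 0 ≤ S) : gz B c0 M S v ≤ 1 :=
  mul_le_one₀ (psV1_le hB hR hS) (zcl_mem _ _ _).1 (zcl_mem _ _ _).2

lemma gz_abs (hB : B.Ok R) (hR : 0 ≤ R) (hS : 0 ≤ S) : |gz B c0 M S v| ≤ 1 := by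
  rw [abs_of_nonneg gz_nn]
  exact gz_le hB hR hS

lemma gz_pos (h : 0 < gz B c0 M S v) : 0 < psV SCF.M.LG M B S (fun _ _ _ => 1) v.get := by
  refine psV1_nn.lt_of_ne fun e => ?_
  unfold gz at h
  rw [← e, zero_mul] at h
  exact lt_irrefl _ h

/-- **the factors are functionals of the arc** -/
theorem gz_arcJ {R c0 : ℝ} (hR : 0 < R) (hc : 1010 * R ≤ c0) {B : SCF.M.Box} (hB : B.Ok R) (T : LSym) :
    ArcJ atTop fun (M : ℕ) S v => gz B c0 M S (mp T v) :=
  arcJ_sym T (G := gz B c0) (W4.arcJ_level hR hc (1 / 2) B 0 (fun _ _ => 1) (by norm_num) (by norm_num) hB le_rfl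
    ⟨fun _ _ => zero_le_one, fun _ _ => le_rfl, fun _ _ _ _ _ _ => by rw [zero_mul, add_zero]⟩)

/-- **on the words of the window the factor is 1** -/
theorem gz_one {K : ℕ} {d d1 u A l1 dl : ℝ} {i j : Fin 3} {x : W3 × ℕ} (hx : x ∈ WdR K d1 A l1 dl i j S) (T : LSym)
    (hT : T.L (ev i) = 1) (hM : 0 < M) (hd1 : 0 < d1) (hd : d1 ≤ d) (hS : 1 ≤ S) (hu : 26 * d ≤ u) (hK : 130 * u ≤ K * d1)
    (hA : 0 < A) (h1 : A < dl * l1) (h2 : 4 * A + 4 ≤ l1) (hdl : 0 < dl) (hc0 : 0 < c0) (hKc : 2 * c0 + 1 ≤ K * d1) :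
    gz (bxu u d) c0 M S (mp T (arcw x.2 .fp x.1)) = 1 := by
  have hS0 : 0 < S := by linarith
  obtain ⟨k1, k2, k3⟩ := hx
  obtain ⟨m1, m2⟩ := wdp_pos hS0 h1 (by linarith) hdl k1
  have h3 := psV_RW (M := M) (u := u) T hT k3 m1 m2 hM hd1 hd hS0 hu hK
  obtain ⟨s, t, r1, r2, r3, r4, r5, r6⟩ := k3.2
  have hS' : 1 ≤ S ^ (4 / 3 : ℝ) := Real.one_le_rpow hS (by norm_num)
  have hml : x.2 ≤ x.1.length := by
    have h4 : 0 ≤ A * S ^ (4 / 3 : ℝ) := by positivity
    have : (x.2 : ℝ) ≤ x.1.length := by linarith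
    exact_mod_cast this
  have hm0 : (s : ℝ) + 1 ≤ 1 / 2 * x.2 := by
    obtain ⟨a1, a2, a3, a4⟩ := k1
    have h5 : (4 * A + 4) * S ^ (4 / 3 : ℝ) ≤ l1 * S ^ (4 / 3 : ℝ) := mul_le_mul_of_nonneg_right h2 (by linarith)
    nlinarith
  have hl : (mp T (arcw x.2 .fp x.1)).length = x.2 := by
    rw [mp_length]
    exact al_fp hml
  have h6 : zc (1 / 2) c0 (crv (mp T (arcw x.2 .fp x.1)) (mp T (arcw x.2 .fp x.1)).length S) = 1 := by
    refine zc_far (s := s) ?_ hS0 (by norm_num) hc0 ?_ fun q hq hq' => ?_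
    · rw [hl]
      have : (1 : ℝ) ≤ x.2 := by
        have : (0 : ℝ) ≤ s := Nat.cast_nonneg s
        linarith
      exact_mod_cast this
    · rw [hl]
      linarith
    · rw [hl] at hq'
      rw [ps_mp, T.L.norm_map]
      have e1 : ps (arcw x.2 .fp x.1) q = ps x.1 q := ps_take x.1 hq' hml
      rw [e1]
      have h7 := r6 q hq (by
        have : ((q + t : ℕ) : ℝ) < x.1.length := by
          push_cast
          have : (q : ℝ) ≤ x.2 := by exact_mod_cast hq'
          linarith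
        exact_mod_cast this)
      nlinarith
  unfold gz
  rw [h6, mul_one]
  exact h3

/-- **the product of the factors with the cut-off is 1 on the words of the window** -/
theorem pwc_one {ι : Type*} (J : Finset ι) {u c0 : ι → ℝ} {K : ℕ} {d d1 A l1 dl ρ l1' l2' dl' : ℝ} {i j : Fin 3} {N : ℕ} {x : W3 × ℕ}
    {M : ℕ → ℕ} (hx : x ∈ WdR K d1 A l1 dl i j (ρ * N)) (T : LSym) (hT : T.L (ev i) = 1) (hM : 0 < M N) (hd1 : 0 < d1)
    (hd : d1 ≤ d) (hρ : 0 < ρ) (hS : 1 ≤ ρ * N) (hu : ∀ q ∈ J, 26 * d ≤ u q) (hK : ∀ q ∈ J, 130 * u q ≤ K * d1)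
    (hA : 0 < A) (h1 : A < dl * l1) (h2 : 4 * A + 4 ≤ l1) (hdl : 0 < dl) (hdl' : dl ≤ 1 / 2) (hc0 : ∀ q ∈ J, 0 < c0 q)
    (hKc : ∀ q ∈ J, 2 * c0 q + 1 ≤ K * d1) (w1 : 0 < l1') (w2 : l1' ≤ l1) (w3 : 3 * l1 ≤ l2') (w4 : 0 < dl') (w5 : dl' ≤ dl) :
    pwc J (fun _ => .fp) (fun q M S v => gz (bxu (u q) d) (c0 q) M S (mp T v)) l1' l2' dl' ρ M N x = 1 := by
  have hN : 1 ≤ N := by
    rcases Nat.eq_zero_or_pos N with h | h
    · rw [h, Nat.cast_zero, mul_zero] at hS
      linarith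
    · exact h
  have h3 : ∏ q ∈ J, gz (bxu (u q) d) (c0 q) (M N) (ρ * N) (mp T (arcw x.2 .fp x.1)) = 1 :=
    Finset.prod_eq_one fun q hq => gz_one hx T hT hM hd1 hd hS (hu q hq) (hK q hq) hA h1 h2 hdl (hc0 q hq) (hKc q hq)
  have h4 : wc l1' l2' dl' ρ (cN N x) = 1 := by
    refine wc_one w1 (by linarith) w4 hρ ((inW_cN hN hρ).2 ?_)
    obtain ⟨⟨a1, a2, a3, a4⟩, -, -⟩ := hx
    have hS' : 0 < (ρ * N) ^ (4 / 3 : ℝ) := Real.rpow_pos_of_pos (by linarith) _
    have hw : (0 : ℝ) ≤ x.1.length := Nat.cast_nonneg _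
    exact ⟨(mul_le_mul_of_nonneg_right w2 hS'.le).trans a1, a2.trans (mul_le_mul_of_nonneg_right w3 hS'.le),
      by nlinarith, a4.trans (mul_le_mul_of_nonneg_right (by linarith) hw)⟩
  show wc l1' l2' dl' ρ (cN N x) * _ = 1
  rw [h4, one_mul]
  exact h3

end factor

end Pool.Agent.ROT.F3.C0P
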