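import Pool.Agent.ROT.F3K3S

/-!
# ROT / F3C0Q (helper56): the level of a gate of the first strand has a limit

* `fpt` : the place of the curve at the relative time of a gate of the strand `fp`;
* **`at_lm`** : `h (place of the gate / N)` (clamped, `0` if there is no gate) converges to `h` of the place of the limit curve;
* **`lev0_lm`** : the native level functional (input of `low_inst`, helper87).
-/

set_option autoImplicit false

namespace Pool.Agent.ROT.F3.CK

open MeasureTheory Filter Topology Set unitInterval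

open scoped NNReal ENNReal Classical

open Pool.Agent.ROT.F3 Pool.Agent.ROT.F3.LF

section

variable {U : Filter ℕ} {b : ℝ} {PG : Measure CC.Gm}

/-- clamped to `[-R, R]` -/
noncomputable def clR (R t : ℝ) : ℝ := max (-R) (min R t)

lemma clR_abs {R : ℝ} (hR : 0 ≤ R) (t : ℝ) : |clR R t| ≤ R := by
  unfold clR
  rw [abs_le]
  exact ⟨le_max_left _ _, max_le (by linarith) (min_le_left _ _)⟩

lemma clR_id {R t : ℝ} (h : |t| ≤ R) : clR R t = t := by
  unfold clR
  rw [abs_le] at h
  rw [min_eq_right h.2, max_eq_right h.1]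

lemma clR_cont (R : ℝ) : Continuous (clR R) := continuous_const.max (continuous_const.min continuous_id)

/-- **the place of a vertex of the first strand**, `t` = its position in the strand -/
theorem at_lm (hC : Cv U (fun N => mwE N b) cN PG) (hP : ∀ᵐ y ∂PG, 0 < y.1) {A : ℕ → W3 × ℕ → Prop} {B : Set CC.Gm}
    (hA : Ev U (fun N => mwE N b) cN PG A B) {t : ℕ → W3 × ℕ → ℕ} {T : CC.Gm → ℝ}
    (ht : Lm U (fun N => mwE N b) cN PG (fun N x => bi (A N x) * ((t N x : ℝ) / (arcw x.2 .fp x.1).length)) T)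
    (hle : ∀ᶠ N in U, ∀ x, Spt x → A N x → t N x ≤ (arcw x.2 .fp x.1).length) {h : ℂ → ℝ} (hh : Continuous h) {R : ℝ}
    (hR : 0 ≤ R) :
    Lm U (fun N => mwE N b) cN PG (fun N x => clR R (bi (A N x) * h (ps (arcw x.2 .fp x.1) (t N x) / (N : ℂ))))
      fun y => clR R (bi (y ∈ B) * h (y.2.2 (pji (T y * muG y)))) := by
  have hc : Continuous fun z : CC.Gm × (Fin 3 → ℝ) => clR R (z.2 0 * h (z.1.2.2 (pji (z.2 1 * z.2 2)))) := by
    refine (clR_cont R).comp (((continuous_apply 0).comp continuous_snd).mul (hh.comp ?_))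
    have e1 : Continuous fun z : CC.Gm × (Fin 3 → ℝ) => pji (z.2 1 * z.2 2) :=
      pji_cont.comp (((continuous_apply 1).comp continuous_snd).mul ((continuous_apply 2).comp continuous_snd))
    exact (continuous_eval : Continuous fun p : C(I, ℂ) × I => p.1 p.2).comp
      ((continuous_snd.comp (continuous_snd.comp continuous_fst)).prodMk e1)
  have h1 := Lm.comp hC (κ := Fin 3) (p := fun N x => ![bi (A N x), bi (A N x) * ((t N x : ℝ) / (arcw x.2 .fp x.1).length), muN x])
    (Φ := fun y => ![bi (y ∈ B), T y, muG y]) (fun k => by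
      fin_cases k
      · exact hA
      · exact ht
      · exact lm_mu hC hP) hc (B := R) fun z => clR_abs hR _
  refine lm_spt hC h1 ⟨R, fun N x => clR_abs hR _⟩ ?_
  filter_upwards [hle] with N hN x hx
  show clR R _ = clR R (bi (A N x) * h ((cN N x).2.2 (pji (bi (A N x) * ((t N x : ℝ) / (arcw x.2 .fp x.1).length) * muN x))))
  by_cases hA' : A N x
  · have h2 := hN x hx hA'
    have hl : (arcw x.2 .fp x.1).length = x.2 := al_fp hx.2.2.le
    rw [hl] at h2 ⊢
    have hn : 0 < x.1.length := lt_of_le_of_lt (Nat.zero_le _) hx.2.2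
    have hn0 : (0 : ℝ) < x.1.length := by exact_mod_cast hn
    have e1 : muN x = (x.2 : ℝ) / x.1.length := by
      unfold muN
      refine min_eq_right (div_le_one_of_le₀ ?_ hn0.le)
      exact_mod_cast hx.2.2.le
    have h3 : t N x ≤ x.1.length := h2.trans hx.2.2.le
    have e2 : bi (A N x) * ((t N x : ℝ) / x.2) * muN x = ((fr (t N x) x.1.length : I) : ℝ) := by
      rw [bi_pos hA', one_mul, e1, fr_coe h3]
      rcases Nat.eq_zero_or_pos x.2 with h4 | h4
      · have h5 : t N x = 0 := by omega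
        rw [h5, h4]
        simp
      · have h6 : (0 : ℝ) < x.2 := by exact_mod_cast h4
        field_simp
    rw [e2, pji_coe]
    have e3 : (cN N x).2.2 (fr (t N x) x.1.length) = ps x.1 (t N x) / ((N : ℝ) : ℂ) := crv_fr x.1 h3 N
    have e4 : ps (arcw x.2 .fp x.1) (t N x) = ps x.1 (t N x) := ps_take x.1 h2 hx.2.2.le
    rw [e3, e4]
    norm_num
  · rw [bi_neg hA', zero_mul, zero_mul]

/-- **the native level functional** -/
theorem lev0_lm (hC : Cv U (fun N => mwE N b) cN PG) (hP : ∀ᵐ y ∂PG, 0 < y.1) {A : Arm → ℕ → W3 × ℕ → Prop}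
    {c g : Arm → ℕ → W3 × ℕ → ℕ} {B : Arm → Set CC.Gm} {Pc Pg : Arm → CC.Gm → ℝ} (H : AIn U b PG A c g B Pc Pg) (d : ℂ) {R : ℝ}
    (hR : 0 ≤ R) :
    Lm U (fun N => mwE N b) cN PG (fun N x => clR R (bi (A .fp N x) * (lv d (ps (arcw x.2 .fp x.1) (g .fp N x)) / N)))
      fun y => clR R (bi (y ∈ B .fp) * lv d (y.2.2 (pji (Pg .fp y * muG y)))) := by
  have h1 := at_lm hC hP (H.ev .fp) (H.tg .fp) (H.pos.mono fun N hN x hx hA => (hN x hx .fp hA).2.2.2)
    (h := fun v => lv d v) (by unfold lv; fun_prop) hR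
  refine lm_spt hC h1 ⟨R, fun N x => clR_abs hR _⟩ (Eventually.of_forall fun N x _ => ?_)
  have e : lv d (ps (arcw x.2 .fp x.1) (g .fp N x) / (N : ℂ)) = lv d (ps (arcw x.2 .fp x.1) (g .fp N x)) / N := by
    have := lv_div d (ps (arcw x.2 .fp x.1) (g .fp N x)) (N : ℝ)
    simpa using this
  rw [e]

end

end Pool.Agent.ROT.F3.CK
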