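import Pool.Agent.ROT.F3C0
import Pool.Agent.ROT.F3Fac

/-!
# ROT, F3 (B), row C0At (helper86): the set `S` of the blocks with foreign marks

`P' i ≤ P i` = the words with the native marks (no genericity of the outer gate is needed), `b i` = their blocks.

* `Lm.le_ms` : limits of functionals with respect to smaller measures;
* `det_ev` : deterministic implications pass to the limit;
* **`c0_lowW`** : `c0_low` with the law of the marked words in place of the indicator, any set `ℱ` of curves with foreign marks;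
* **`s_ex`** : the set `S` of blocks: `block ∈ S ⟺ curve ∈ ℱ` almost everywhere, from the locality of the foreign marks;
* **`c0_S`** : the blocks of the marked words of the window are in `S` with the mass at least `a - ε`.
-/

set_option autoImplicit false

open MeasureTheory Filter Topology Set
open scoped ENNReal NNReal BoundedContinuousFunction

namespace Pool.Agent.ROT.F3.LF

variable {ι : Type*} {l : Filter ι} {Ω : ι → Type*} [∀ i, MeasurableSpace (Ω i)] {P P' : ∀ i, Measure (Ω i)}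
  {X : Type*} [PseudoMetricSpace X] [MeasurableSpace X] [BorelSpace X]
  {c c' : ∀ i, Ω i → X} {ν ν' : Measure X}

/-- limits of functionals with respect to smaller measures -/
theorem Lm.le_ms (hC : Cv l P c ν) (hν : ν' ≤ ν) (hP : ∀ i, P' i ≤ P i) {p : ∀ i, Ω i → ℝ} {Φ : X → ℝ} (h : Lm l P c ν p Φ) :
    Lm l P' c ν' p Φ := by
  have hfin := hC.fin
  have hfin' := hC.fin'
  refine ⟨h.ms, h.bd, h.ms', h.bd', fun ε hε => ?_⟩
  obtain ⟨φ, h1, h2⟩ := h.ap ε hε
  refine ⟨φ, ?_, ?_⟩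
  · exact (integral_mono_measure hν (Eventually.of_forall fun x => abs_nonneg _) ((h.int' hC).sub (int_bcf hC.fin' φ)).abs).trans h1
  · filter_upwards [h2] with i hi
    exact (integral_mono_measure (hP i) (Eventually.of_forall fun x => abs_nonneg _) ((h.int hC i).sub (hC.int_c φ i)).abs).trans hi

variable [CompleteSpace X] [SecondCountableTopology X]

/-- **deterministic implications pass to the limit**: `g' > 0` and `J > 0` imply `F` for the words -/
theorem det_ev [l.NeBot] (hC' : Cv l P c' ν) {J g' : ∀ i, Ω i → ℝ} {J0' G : X → ℝ} (hJ' : Lm l P c' ν J J0')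
    (hg' : Lm l P c' ν g' G) {F : ∀ i, Ω i → Prop} {ℱ : Set X} (hF : Ev l P c' ν F ℱ) (hJ0 : ∀ i ω, 0 ≤ J i ω)
    (hg0 : ∀ i ω, 0 ≤ g' i ω) (det : ∀ᶠ i in l, ∀ ω, 0 < g' i ω → 0 < J i ω → F i ω) :
    ∀ᵐ x ∂ν, 0 < G x → 0 < J0' x → x ∈ ℱ := by
  have h2 : Lm l P c' ν (fun i ω => bi (¬ F i ω) * (g' i ω * J i ω)) fun x => bi (x ∈ ℱᶜ) * (G x * J0' x) :=
    (hF.not hC').mul hC' (Lm.mul hC' hg' hJ')
  have h1 : ∀ᵐ x ∂ν, bi (x ∈ ℱᶜ) * (G x * J0' x) ≤ 0 := by
    refine Lm.le hC' h2 (Lm.const hC' 0) ?_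
    filter_upwards [det] with i hi ω
    by_cases h3 : F i ω
    · rw [bi_neg (not_not.2 h3), zero_mul]
    · rcases (hg0 i ω).eq_or_lt with h4 | h4
      · rw [← h4, zero_mul, mul_zero]
      · rcases (hJ0 i ω).eq_or_lt with h5 | h5
        · rw [← h5, mul_zero, mul_zero]
        · exact absurd (hi ω h4 h5) h3
  filter_upwards [h1] with x hx h3 h4
  by_contra h5
  rw [bi_pos (show x ∈ ℱᶜ from h5), one_mul] at hx
  exact absurd hx (not_le.2 (mul_pos h3 h4))

/-- **native and foreign marks together**, the native marks as a smaller measure; `ℱ` = the curves with foreign marks -/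
theorem c0_lowW (hC : Cv l P c ν) (hD : Cv l P' c ν') [l.NeBot] (hP : ∀ i, P' i ≤ P i) (hν : ν' ≤ ν)
    {J g : ∀ i, Ω i → ℝ} {J0 J0' G : X → ℝ} (hJ : Lm l P c ν J J0) (hg : Lm l P c ν g G) (mJ' : Measurable J0')
    (bJ' : ∃ C : ℝ, ∀ x, |J0' x| ≤ C) (hJ' : ∀ᵐ x ∂ν, J0' x ≤ 1) {ℱ : Set X} (mF' : MeasurableSet ℱ)
    (hG : ∀ x, 0 ≤ G x) (det : ∀ᵐ x ∂ν, 0 < G x → 0 < J0' x → x ∈ ℱ) {a ε : ℝ}
    (low : ∀ᶠ i in l, a ≤ ∫ ω, g i ω * J i ω ∂P' i) (rot : ∫ x, G x * |J0' x - J0 x| ∂ν ≤ ε) :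
    a - ε ≤ ∫ x, bi (x ∈ ℱ) * G x ∂ν' := by
  have hfν := hC.fin'
  have hfν' := hD.fin'
  -- the native side
  have h3 : a ≤ ∫ x, G x * J0 x ∂ν' := by
    have h4 : Lm l P' c ν' (fun i ω => g i ω * J i ω) fun x => G x * J0 x := (Lm.mul hC hg hJ).le_ms hC hν hP
    exact ge_of_tendsto (h4.tendsto hD) low
  obtain ⟨CG, hCG⟩ := hg.bd'
  obtain ⟨CJ, hCJ⟩ := hJ.bd'
  obtain ⟨CJ', hCJ'⟩ := bJ'
  have mF : Measurable fun x => bi (x ∈ ℱ) := bi_ms mF'
  have i1 : Integrable (fun x => G x * J0 x) ν' := by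
    refine itg (hg.ms'.mul hJ.ms') (C := CG * CJ) fun x => ?_
    rw [abs_mul]
    exact mul_le_mul (hCG x) (hCJ x) (abs_nonneg _) ((abs_nonneg _).trans (hCG x))
  have i2 : Integrable (fun x => bi (x ∈ ℱ) * G x) ν' := by
    refine itg (mF.mul hg.ms') (C := 1 * CG) fun x => ?_
    rw [abs_mul]
    exact mul_le_mul (bi_abs _) (hCG x) (abs_nonneg _) zero_le_one
  have i3 : Integrable (fun x => G x * |J0' x - J0 x|) ν := by
    refine itg (hg.ms'.mul (mJ'.sub hJ.ms').abs) (C := CG * (CJ' + CJ)) fun x => ?_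
    rw [abs_mul, abs_abs]
    refine mul_le_mul (hCG x) ?_ (abs_nonneg _) ((abs_nonneg _).trans (hCG x))
    exact (abs_sub _ _).trans (add_le_add (hCJ' x) (hCJ x))
  have i3' : Integrable (fun x => G x * |J0' x - J0 x|) ν' := i3.mono_measure hν
  have hac : ν' ≪ ν := Measure.absolutelyContinuous_of_le hν
  have h5 : ∫ x, G x * J0 x ∂ν' ≤ ∫ x, (bi (x ∈ ℱ) * G x + G x * |J0' x - J0 x|) ∂ν' := by
    refine integral_mono_ae i1 (i2.add i3') ?_
    filter_upwards [hac.ae_le det, hac.ae_le hJ'] with x x1 x2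
    have y1 : J0 x ≤ J0' x + |J0' x - J0 x| := by
      linarith [le_abs_self (J0' x - J0 x), neg_abs_le (J0' x - J0 x)]
    have y2 : G x * J0 x ≤ G x * J0' x + G x * |J0' x - J0 x| := by
      rw [← mul_add]
      exact mul_le_mul_of_nonneg_left y1 (hG x)
    show G x * J0 x ≤ bi (x ∈ ℱ) * G x + G x * |J0' x - J0 x|
    by_cases hxF : x ∈ ℱ
    · rw [bi_pos hxF, one_mul]
      have : G x * J0' x ≤ G x := mul_le_of_le_one_right (hG x) x2
      linarith
    · rw [bi_neg hxF, zero_mul]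
      have : G x * J0' x ≤ 0 := by
        rcases (hG x).eq_or_lt with h6 | h6
        · rw [← h6, zero_mul]
        · refine mul_nonpos_of_nonneg_of_nonpos h6.le (le_of_not_gt fun h7 => hxF (x1 h6 h7))
      linarith
  rw [integral_add i2 i3'] at h5
  have h6 : ∫ x, G x * |J0' x - J0 x| ∂ν' ≤ ε :=
    (integral_mono_measure hν (Eventually.of_forall fun x => mul_nonneg (hG x) (abs_nonneg _)) i3).trans rot
  linarith

end Pool.Agent.ROT.F3.LF

namespace Pool.Agent.ROT.F3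

variable {X Y : Type*} [MeasurableSpace X] [StandardBorelSpace X] [MeasurableSpace Y] [StandardBorelSpace Y]

/-- **the set `S` of the blocks with foreign marks**: `M` = the law of (curve, block), `ℱ` = the curves with foreign marks -/
theorem s_ex {M : Measure (X × Y)} [IsFiniteMeasure M] {ℱ : Set X} (hℱ : MeasurableSet ℱ) {G : Set (X × Y)} (hG : ∀ᵐ z ∂M, z ∈ G)
    (loc : ∀ z ∈ G, ∀ z' ∈ G, z.2 = z'.2 → (z.1 ∈ ℱ ↔ z'.1 ∈ ℱ)) :
    ∃ S : Set Y, MeasurableSet S ∧ ∀ᵐ z ∂M, (z.2 ∈ S ↔ z.1 ∈ ℱ) := by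
  obtain ⟨T', h1, h2⟩ := fac_real (P := M) (ρ := fun z : X × Y => z.2) measurable_snd
    (T := fun z => ℱ.indicator (fun _ => (1 : ℝ)) z.1) ((measurable_const.indicator hℱ).comp measurable_fst) hG
    fun z hz z' hz' e => by
      have := loc z hz z' hz' e
      by_cases h : z.1 ∈ ℱ
      · show ℱ.indicator _ z.1 = ℱ.indicator _ z'.1
        rw [indicator_of_mem h, indicator_of_mem (this.1 h)]
      · show ℱ.indicator _ z.1 = ℱ.indicator _ z'.1
        rw [indicator_of_notMem h, indicator_of_notMem fun h' => h (this.2 h')]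
  refine ⟨T' ⁻¹' {1}, h1 (measurableSet_singleton 1), ?_⟩
  filter_upwards [h2] with z hz
  rw [mem_preimage, ← hz, mem_singleton_iff]
  constructor
  · intro h
    by_contra h'
    rw [indicator_of_notMem h'] at h
    exact zero_ne_one h
  · intro h
    rw [indicator_of_mem h]

omit [StandardBorelSpace X] [StandardBorelSpace Y] in
/-- **the mass of `S` under the law of the blocks of the window** -/
theorem c0_S {M Q : Measure (X × Y)} [IsFiniteMeasure M] (hQM : Q ≤ M) {ℱ : Set X} (hℱ : MeasurableSet ℱ) {S : Set Y}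
    (hS : MeasurableSet S) (h : ∀ᵐ z ∂M, (z.2 ∈ S ↔ z.1 ∈ ℱ)) {G : X → ℝ} (hG0 : ∀ x, 0 ≤ G x)
    (hG1 : ∀ x, G x ≤ 1) {a : ℝ} (hlow : a ≤ ∫ x, LF.bi (x ∈ ℱ) * G x ∂(Q.map Prod.fst)) : a ≤ (Q.map Prod.snd).real S := by
  have hfQ : IsFiniteMeasure Q := isFiniteMeasure_of_le M hQM
  have hfQ1 : IsFiniteMeasure (Q.map Prod.fst) := Measure.isFiniteMeasure_map Q _
  have mF : Measurable fun x => LF.bi (x ∈ ℱ) := Measurable.ite hℱ measurable_const measurable_const
  have h1 : ∫ x, LF.bi (x ∈ ℱ) * G x ∂(Q.map Prod.fst) ≤ ∫ x, LF.bi (x ∈ ℱ) ∂(Q.map Prod.fst) := by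
    refine integral_mono_of_nonneg (Eventually.of_forall fun x => mul_nonneg (LF.bi_nonneg _) (hG0 x))
      (LF.itg mF (C := 1) fun x => LF.bi_abs _) (Eventually.of_forall fun x => mul_le_of_le_one_right (LF.bi_nonneg _) (hG1 x))
  have h2 : ∫ x, LF.bi (x ∈ ℱ) ∂(Q.map Prod.fst) = (Q.map Prod.fst).real ℱ := by
    have e : (fun x => LF.bi (x ∈ ℱ)) = ℱ.indicator fun _ => (1 : ℝ) := rfl
    rw [e, integral_indicator_const _ hℱ, smul_eq_mul, mul_one]
  have h3 : (Q.map Prod.fst).real ℱ = (Q.map Prod.snd).real S := by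
    unfold Measure.real
    rw [Measure.map_apply measurable_fst hℱ, Measure.map_apply measurable_snd hS]
    congr 1
    refine measure_congr ?_
    have hac : Q ≪ M := Measure.absolutelyContinuous_of_le hQM
    filter_upwards [hac.ae_le h] with z hz
    exact propext (by
      show z.1 ∈ ℱ ↔ z.2 ∈ S
      exact hz.symm)
  linarith

end Pool.Agent.ROT.F3
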