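import Pool.Agent.ROT.F3Inst

/-!
# ROT / F3Gate (helper83): the block behind the first gate can be deleted

A walk `w` with the mark `k'` (an even vertex near the tip; the tip piece `y` behind it is in a small ball), read backwards from the
mark: `(w.take k').reverse = p ++ (b ++ R)`, `p` = start piece up to the first gate (`TipC`, `FstC`), `b` = a block, `R` = the rest
(`RestC`). Without `b` the walk is again self-avoiding, and for a given `b` it determines `p`, `R`, `y`.
**`del_le`** : the mass of these walks with a weight `ψ b` is at most `(∑ b, wx b * ψ b) * (mass of all walks with these lengths)`.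
-/

set_option autoImplicit false

namespace Pool.Agent.ROT.F3

open Finset ComplexConjugate
open scoped ENNReal Classical

/-- **the first mark is unique** (the rest is the whole rest) -/
theorem tip_uniq {d : ℂ} {r r0 l : ℝ} {p p' R R' : W3} (hp : TipC d r p) (hp' : TipC d r p') (f : FstC d l p)
    (f' : FstC d l p') (hR : RestC d r0 R) (hR' : RestC d r0 R') (hr : 2 * r ≤ r0) (h : p ++ R = p' ++ R') : p = p' := by
  have key : ∀ {p p' R R' : W3}, TipC d r p → TipC d r p' → FstC d l p → FstC d l p' → RestC d r0 R →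
      p ++ R = p' ++ R' → ¬ p.length < p'.length := by
    intro p p' R R' hp hp' f f' hR h hl
    have hv : ∀ j, j ≤ p'.length → ps p' j = ps (p ++ R) j := by
      intro j hj
      rw [h, ps_append_left hj]
    have h1 : p'.length ≤ p.length + R.length := by
      have := congrArg List.length h
      rw [List.length_append, List.length_append] at this
      omega
    have h5 : ∀ j, p.length ≤ j → j ≤ p'.length → ps p' j = en p + ps R (j - p.length) := by
      intro j hj hj'
      rw [hv j hj', ps_append_right' hp.ev hj]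
    have h6 : ∀ j, j ≤ p.length → ps p' j = ps p j := fun j hj => by rw [hv j (by omega), ps_append_left hj]
    have h7 : ps p' p.length = en p := h6 _ le_rfl
    have hcut : CutC d p' p.length := by
      refine ⟨fun j hj => ?_, fun j hj hj' => ?_⟩
      · rw [h6 j hj, h7]
        exact hp.left j hj
      · rw [h7, h5 j hj.le hj', lv_add]
        have h8 : ‖ps R (j - p.length)‖ ≤ r0 := by
          have h9 : ps R (j - p.length) = ps p' j - en p := by rw [h5 j hj.le hj']; ring
          rw [h9]
          calc ‖ps p' j - en p‖ ≤ ‖ps p' j‖ + ‖en p‖ := norm_sub_le _ _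
            _ ≤ r0 := by linarith [hp'.ball j hj', norm_en_le hp]
        linarith [hR (j - p.length) (by omega) (by omega) h8]
    have h8 := f'.2 p.length hp.ev hl hcut
    rw [h7] at h8
    linarith [f.1]
  have k1 := key hp hp' f f' hR h
  have k2 := key hp' hp f' f hR' h.symm
  have hl : p.length = p'.length := by omega
  exact (List.append_inj h hl).1

lemma lv_le1 {d z : ℂ} (hd : ‖d‖ = 1) : lv d z ≤ ‖z‖ := by
  unfold lv
  refine (Complex.re_le_norm _).trans ?_
  rw [norm_mul, RCLike.norm_conj, hd, one_mul]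

lemma lv_ge {d z : ℂ} (hd : ‖d‖ = 1) : -‖z‖ ≤ lv d z := by
  have h := lv_le1 (z := -z) hd
  have e : lv d (-z) = -lv d z := by
    unfold lv
    rw [mul_neg, Complex.neg_re]
  rw [e, norm_neg] at h
  linarith

/-- two pieces from the same vertex, the first one read backwards -/
lemma SW_rev_append {q y : W3} (hq : Even q.length) : SW (q.reverse ++ y) ↔ SW q ∧ SW y ∧
    ∀ i k : ℕ, 0 < i → i ≤ q.length → k ≤ y.length → ps q i ≠ ps y k := by
  rw [SW_append (by rw [List.length_reverse]; exact hq), SW_reverse hq]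
  refine and_congr_right fun _ => and_congr_right fun _ => ?_
  constructor
  · intro h i k hi hi2 hk he
    refine h (q.length - i) k (by rw [List.length_reverse]; omega) hk ?_
    rw [ps_reverse hq (by omega), en_reverse hq, Nat.sub_sub_self hi2, he]
    ring
  · intro h j k hj hk he
    rw [List.length_reverse] at hj
    rw [ps_reverse hq hj.le, en_reverse hq] at he
    refine h (q.length - j) k (by omega) (by omega) hk ?_
    linear_combination he

/-- **the block can be deleted** -/
theorem del_sw {d : ℂ} (hd : ‖d‖ = 1) {r r0 l κ : ℝ} {p b R y : W3} (hp : TipC d r p) (f : FstC d l p) (eb : Even b.length)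
    (eR : Even R.length) (hR : RestC d r0 R) (hr : 2 * r ≤ r0) (hκr : κ + r ≤ r0) (hκ : κ < l)
    (hy : ∀ j : ℕ, j ≤ y.length → ‖ps y j‖ ≤ κ) (h : SW ((p ++ (b ++ R)).reverse ++ y)) : SW ((p ++ R).reverse ++ y) := by
  have ep := hp.ev
  have e1 : Even (p ++ (b ++ R)).length := by
    rw [List.length_append, List.length_append]
    exact ep.add (eb.add eR)
  have e2 : Even (p ++ R).length := by
    rw [List.length_append]
    exact ep.add eR
  rw [SW_rev_append e1] at h
  rw [SW_rev_append e2]
  obtain ⟨h1, h2, h3⟩ := h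
  have h4 := (SW_append ep).1 h1
  have h5 := (SW_append eb).1 h4.2.1
  refine ⟨(SW_append ep).2 ⟨hp.sw, h5.2.1, tip_rest hp hR hr⟩, h2, fun i k hi hi2 hk he => ?_⟩
  rw [List.length_append] at hi2
  rcases Nat.lt_or_ge p.length i with hpi | hpi
  · rw [ps_append_right' ep hpi.le] at he
    have n1 : ps R (i - p.length) = ps y k - en p := by rw [← he]; ring
    have n2 : ‖ps R (i - p.length)‖ ≤ r0 := by
      rw [n1]
      calc ‖ps y k - en p‖ ≤ ‖ps y k‖ + ‖en p‖ := norm_sub_le _ _
        _ ≤ r0 := by linarith [hy k hk, norm_en_le hp]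
    have n3 := hR (i - p.length) (by omega) (by omega) n2
    rw [n1, lv_sub] at n3
    have n4 := lv_le1 (z := ps y k) hd
    linarith [hy k hk, f.1]
  · rw [ps_append_left hpi] at he
    refine h3 i k hi ?_ hk ?_
    · rw [List.length_append]
      omega
    · rw [ps_append_left hpi, he]

/-- the decomposition of the word read from the mark -/
structure Dcm (d : ℂ) (r r0 l : ℝ) (B : Set W3) (q p b R : W3) : Prop where
  eq : q = p ++ (b ++ R)
  tip : TipC d r p
  fst : FstC d l p
  blk : b ∈ B
  ev : Even R.length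
  rst : RestC d r0 R

/-- the sum of `ψ` over the blocks behind the first gate (at most one, if the blocks are unique) -/
noncomputable def gsum (d : ℂ) (r r0 l : ℝ) (B : Set W3) (ψ : W3 → ℝ≥0∞) (q : W3) : ℝ≥0∞ :=
  ∑' x : W3 × W3 × W3, if Dcm d r r0 l B q x.1 x.2.1 x.2.2 then ψ x.2.1 else 0

/-- the mass of the walks with a number of letters in `[a, c]` -/
noncomputable def Zw (a c : ℕ) : ℝ≥0∞ := ∑' w : W3, if SW w ∧ a ≤ w.length ∧ w.length ≤ c then wx w else 0

/-- the mass of the blocks with a weight -/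
noncomputable def Sb (B : Set W3) (ψ : W3 → ℝ≥0∞) : ℝ≥0∞ := ∑' b : W3, if b ∈ B then wx b * ψ b else 0

/-- the walks with a mark `k'` and a short tip -/
structure Wm (k k' K : ℕ) (κ : ℝ) (w : W3) : Prop where
  sw : SW w
  lo : k ≤ w.length
  up : w.length ≤ K
  tip : ∀ j : ℕ, j ≤ (w.drop k').length → ‖ps (w.drop k') j‖ ≤ κ

/-- for one block -/
lemma del_one {d : ℂ} (hd : ‖d‖ = 1) {r r0 l κ : ℝ} (hr : 2 * r ≤ r0) (hκr : κ + r ≤ r0) (hκ : κ < l) {B : Set W3}
    (hB : ∀ b ∈ B, Even b.length) {k k' K : ℕ} (hk : k' ≤ k) {b : W3} (hb : b ∈ B) :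
    (∑' x : W3 × W3 × W3, if Wm k k' K κ x.2.2 ∧ Dcm d r r0 l B (x.2.2.take k').reverse x.1 b x.2.1 then wx x.2.2 else 0) ≤
      wx b * Zw (k - b.length) (K - b.length) := by
  obtain ⟨T, hT⟩ : ∃ T : Set (W3 × W3 × W3), T = {x | Wm k k' K κ x.2.2 ∧
    Dcm d r r0 l B (x.2.2.take k').reverse x.1 b x.2.1} := ⟨_, rfl⟩
  have hTm : ∀ z ∈ T, Wm k k' K κ z.2.2 ∧ Dcm d r r0 l B (z.2.2.take k').reverse z.1 b z.2.1 := by
    rw [hT]
    exact fun z hz => hz
  -- the word
  have hw : ∀ x : T, x.1.2.2 = (x.1.1 ++ (b ++ x.1.2.1)).reverse ++ x.1.2.2.drop k' ∧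
      (x.1.1 ++ (b ++ x.1.2.1)).length = k' := by
    rintro ⟨⟨p, R, w⟩, hx⟩
    obtain ⟨h1, h2⟩ := hTm _ hx
    have e := h2.eq
    simp only at e h1 ⊢
    have e' : w.take k' = (p ++ (b ++ R)).reverse := by
      rw [← e, List.reverse_reverse]
    refine ⟨?_, ?_⟩
    · rw [← e', List.take_append_drop]
    · rw [← e, List.length_reverse, List.length_take, min_eq_left (hk.trans h1.lo)]
  obtain ⟨g, hg⟩ : ∃ g : T → W3, g = fun x => (x.1.1 ++ x.1.2.1).reverse ++ x.1.2.2.drop k' := ⟨_, rfl⟩
  obtain ⟨F, hF⟩ : ∃ F : W3 → ℝ≥0∞, F = fun w => if SW w ∧ k - b.length ≤ w.length ∧ w.length ≤ K - b.length then wx w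
    else 0 := ⟨_, rfl⟩
  have hinj : Function.Injective g := by
    intro x y hxy
    obtain ⟨x1, x2⟩ := hw x
    obtain ⟨y1, y2⟩ := hw y
    obtain ⟨-, hx⟩ := hTm _ x.2
    obtain ⟨-, hy⟩ := hTm _ y.2
    rw [hg] at hxy
    simp only at hxy
    have hl : (x.1.1 ++ x.1.2.1).reverse.length = (y.1.1 ++ y.1.2.1).reverse.length := by
      rw [List.length_append, List.length_append] at x2 y2
      rw [List.length_reverse, List.length_reverse, List.length_append, List.length_append]
      omega
    obtain ⟨h1, h2⟩ := List.append_inj hxy hl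
    have h3 : x.1.1 ++ x.1.2.1 = y.1.1 ++ y.1.2.1 := List.reverse_injective h1
    have h4 := tip_uniq hx.tip hy.tip hx.fst hy.fst hx.rst hy.rst hr h3
    rw [h4] at h3
    have h5 := List.append_cancel_left h3
    have h6 : x.1.2.2 = y.1.2.2 := by
      rw [x1, y1, h4, h5, h2]
    exact Subtype.ext (Prod.ext h4 (Prod.ext h5 h6))
  have hval : ∀ x : T, wx x.1.2.2 = wx b * F (g x) := by
    intro x
    obtain ⟨x1, x2⟩ := hw x
    obtain ⟨hm, hx⟩ := hTm _ x.2
    have eb := hB b hb
    have hsw : SW (g x) := by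
      rw [hg]
      refine del_sw hd hx.tip hx.fst eb hx.ev hx.rst hr hκr hκ hm.tip ?_
      rw [← x1]
      exact hm.sw
    have hlen : (g x).length + b.length = x.1.2.2.length := by
      rw [hg]
      conv_rhs => rw [x1]
      simp only [List.length_append, List.length_reverse]
      omega
    have hFg : F (g x) = wx (g x) := by
      rw [hF]
      simp only
      rw [if_pos ⟨hsw, by have := hm.lo; omega, by have := hm.up; omega⟩]
    rw [hFg]
    unfold wx
    rw [← hlen, pow_add, mul_comm]
  have e1 : (∑' x : W3 × W3 × W3, if Wm k k' K κ x.2.2 ∧ Dcm d r r0 l B (x.2.2.take k').reverse x.1 b x.2.1 then wx x.2.2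
      else 0) = ∑' x : T, wx x.1.2.2 := by
    rw [tsum_subtype T fun x : W3 × W3 × W3 => wx x.2.2]
    refine tsum_congr fun x => ?_
    by_cases h : x ∈ T
    · rw [Set.indicator_of_mem h]
      exact if_pos (hTm _ h)
    · rw [Set.indicator_of_notMem h]
      refine if_neg fun h2 => h ?_
      rw [hT]
      exact h2
  rw [e1, tsum_congr hval, ENNReal.tsum_mul_left]
  refine mul_le_mul_right ?_ _
  refine (ENNReal.tsum_comp_le_tsum_of_injective hinj F).trans ?_
  rw [hF]
  exact le_rfl

/-- **deletion of the block**, with weights -/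
theorem del_le {d : ℂ} (hd : ‖d‖ = 1) {r r0 l κ : ℝ} (hr : 2 * r ≤ r0) (hκr : κ + r ≤ r0) (hκ : κ < l) {B : Set W3}
    (hB : ∀ b ∈ B, Even b.length) {k k' K : ℕ} (hk : k' ≤ k) {Zb : ℝ≥0∞} (hZ : ∀ j : ℕ, j ≤ k' → Zw (k - j) (K - j) ≤ Zb)
    (ψ : W3 → ℝ≥0∞) :
    (∑' w : W3, if Wm k k' K κ w then wx w * gsum d r r0 l B ψ (w.take k').reverse else 0) ≤ Sb B ψ * Zb := by
  have e1 : (∑' w : W3, if Wm k k' K κ w then wx w * gsum d r r0 l B ψ (w.take k').reverse else 0) =
      ∑' b : W3, ψ b * ∑' x : W3 × W3 × W3, (if Wm k k' K κ x.2.2 ∧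
        Dcm d r r0 l B (x.2.2.take k').reverse x.1 b x.2.1 then wx x.2.2 else 0) := by
    have a1 : ∀ w : W3, (if Wm k k' K κ w then wx w * gsum d r r0 l B ψ (w.take k').reverse else 0) =
        ∑' (p : W3) (b : W3) (R : W3), (if Wm k k' K κ w ∧ Dcm d r r0 l B (w.take k').reverse p b R then
          ψ b * wx w else 0) := by
      intro w
      by_cases h : Wm k k' K κ w
      · rw [if_pos h]
        unfold gsum
        rw [← ENNReal.tsum_mul_left]
        rw [ENNReal.tsum_prod']
        refine tsum_congr fun p => ?_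
        rw [ENNReal.tsum_prod']
        refine tsum_congr fun b => tsum_congr fun R => ?_
        by_cases h2 : Dcm d r r0 l B (w.take k').reverse p b R
        · rw [if_pos h2, if_pos ⟨h, h2⟩, mul_comm]
        · rw [if_neg h2, if_neg fun h3 => h2 h3.2, mul_zero]
      · rw [if_neg h]
        symm
        simp only [h, false_and, if_false, tsum_zero]
    rw [tsum_congr a1]
    have a2 : ∀ b : W3, ψ b * ∑' x : W3 × W3 × W3, (if Wm k k' K κ x.2.2 ∧
        Dcm d r r0 l B (x.2.2.take k').reverse x.1 b x.2.1 then wx x.2.2 else 0) =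
        ∑' (p : W3) (R : W3) (w : W3), (if Wm k k' K κ w ∧ Dcm d r r0 l B (w.take k').reverse p b R then ψ b * wx w else 0) := by
      intro b
      rw [← ENNReal.tsum_mul_left, ENNReal.tsum_prod']
      refine tsum_congr fun p => ?_
      rw [ENNReal.tsum_prod']
      refine tsum_congr fun R => tsum_congr fun w => ?_
      rw [mul_ite, mul_zero]
    rw [tsum_congr a2]
    calc (∑' (w : W3) (p : W3) (b : W3) (R : W3), (if Wm k k' K κ w ∧ Dcm d r r0 l B (w.take k').reverse p b R then
          ψ b * wx w else 0))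
        = ∑' (p : W3) (w : W3) (b : W3) (R : W3), (if Wm k k' K κ w ∧ Dcm d r r0 l B (w.take k').reverse p b R then
          ψ b * wx w else 0) := ENNReal.tsum_comm
      _ = ∑' (p : W3) (b : W3) (w : W3) (R : W3), (if Wm k k' K κ w ∧ Dcm d r r0 l B (w.take k').reverse p b R then
          ψ b * wx w else 0) := tsum_congr fun p => ENNReal.tsum_comm
      _ = ∑' (b : W3) (p : W3) (w : W3) (R : W3), (if Wm k k' K κ w ∧ Dcm d r r0 l B (w.take k').reverse p b R then
          ψ b * wx w else 0) := ENNReal.tsum_comm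
      _ = _ := tsum_congr fun b => tsum_congr fun p => ENNReal.tsum_comm
  rw [e1]
  unfold Sb
  rw [← ENNReal.tsum_mul_right]
  refine ENNReal.tsum_le_tsum fun b => ?_
  by_cases hb : b ∈ B
  · rw [if_pos hb]
    by_cases hbk : b.length ≤ k'
    · calc _ ≤ ψ b * (wx b * Zw (k - b.length) (K - b.length)) := by
            refine mul_le_mul_right ?_ _
            exact del_one hd hr hκr hκ hB hk hb
        _ ≤ ψ b * (wx b * Zb) := by
            refine mul_le_mul_right (mul_le_mul_right (hZ _ hbk) _) _
        _ = _ := by ring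
    · have : (∑' x : W3 × W3 × W3, if Wm k k' K κ x.2.2 ∧ Dcm d r r0 l B (x.2.2.take k').reverse x.1 b x.2.1 then wx x.2.2
          else 0) = 0 := by
        refine ENNReal.tsum_eq_zero.2 fun x => ?_
        rw [if_neg]
        rintro ⟨-, h2⟩
        have h3 := congrArg List.length h2.eq
        simp only [List.length_reverse, List.length_take, List.length_append] at h3
        omega
      rw [this, mul_zero]
      exact bot_le
  · have : (∑' x : W3 × W3 × W3, if Wm k k' K κ x.2.2 ∧ Dcm d r r0 l B (x.2.2.take k').reverse x.1 b x.2.1 then wx x.2.2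
        else 0) = 0 := by
      refine ENNReal.tsum_eq_zero.2 fun x => ?_
      rw [if_neg]
      rintro ⟨-, h2⟩
      exact hb h2.blk
    rw [this, mul_zero]
    exact bot_le

end Pool.Agent.ROT.F3
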