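import Pool.Agent.ROT.F3Cls
import Pool.Agent.ROT.F3Gate

/-!
# ROT, F3, row W8 (walks), part 8 (helper94): the gates with an outer block, names of F3Cls

* `HpM d P O Y S T w i j` : `w` = prefix up to `x` (number `i`), block `b2` up to `y` (number `j`), the rest behind `y` is good (data
  `Y`); `Hp` = sum of `ψ b2` over the marks;
* `HpM.uniq`, `Hp_eq`, `Hp_zero`, `Hp_nonneg`, `Hp_le_one` : at most one pair of marks;
* `HpM.congr`, **`Hp_congr`** : the functional depends only on the part of the word before its last visit of a ball.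
-/

set_option autoImplicit false

namespace Pool.Agent.ROT.F3

open Finset ComplexConjugate
open scoped ENNReal Classical

/-- room in the data of a gate, of an outer block and of the outer gate -/
structure W8R (P : Tp) (O : Ot) (Y : Tp) : Prop where
  l : 0 < P.l
  lr : P.l < P.r
  m : 0 < P.m
  mr : P.m < P.r2
  th : 0 < P.th
  th1 : P.th < 1
  cs : 0 ≤ P.cs
  e : P.e < (1 - P.cs) * P.l
  κ1 : 0 < P.κ1
  c0 : 0 ≤ P.c
  c1 : P.c ≤ 1
  Om : 0 < O.m
  Or : O.m ≤ O.r
  Yc0 : 0 ≤ Y.c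
  Yc1 : Y.c ≤ 1
  Yκ : 0 < Y.κ
  Yrg : 0 ≤ Y.rg
  Yr0 : 0 ≤ Y.r0
  /-- the marks are unique -/
  un : 2 * (P.r + P.r2) + 2 * O.r ≤ Y.rg

/-- the marks `i` (gate `x`) and `j` (outer gate `y`) -/
structure HpM (d : ℂ) (P : Tp) (O : Ot) (Y : Tp) (S T : ℝ) (w : W3) (i j : ℕ) : Prop where
  ij : i ≤ j
  jw : j ≤ w.length
  pre : w.take i ∈ Pre d P S T
  blk : seg w i j ∈ OtB d O S T
  ey : EdQ d Y S (w.drop j)

/-- the gates with an outer block and a weight -/
noncomputable def Hp (d : ℂ) (P : Tp) (O : Ot) (Y : Tp) (S T : ℝ) (ψ : W3 → ℝ) (w : W3) : ℝ :=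
  ∑ i ∈ range (w.length + 1), ∑ j ∈ range (w.length + 1), if HpM d P O Y S T w i j then ψ (seg w i j) else 0

section

variable {d : ℂ} {P : Tp} {O : Ot} {Y : Tp} {S T : ℝ} {w w' : W3} {i j i' j' : ℕ} {ψ : W3 → ℝ}

lemma seg_app (w : W3) {i j : ℕ} (hij : i ≤ j) : seg w i j ++ w.drop j = w.drop i := by
  unfold seg
  have h1 : (w.drop i).drop (j - i) = w.drop j := by
    rw [List.drop_drop, Nat.add_sub_cancel' hij]
  rw [← h1, List.take_append_drop]

lemma seg_length (w : W3) {i j : ℕ} (hij : i ≤ j) (hj : j ≤ w.length) : (seg w i j).length = j - i := by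
  unfold seg
  rw [List.length_take, List.length_drop]
  omega

lemma HpM.tip (h : HpM d P O Y S T w i j) : TipC d (P.r * S + P.r2 * S) (w.take i) := by
  obtain ⟨k, hk⟩ := h.pre
  exact hk.g.tip

lemma HpM.ei (h : HpM d P O Y S T w i j) : Even i := by
  have := h.tip.ev
  rwa [List.length_take, min_eq_left (h.ij.trans h.jw)] at this

lemma HpM.ej (h : HpM d P O Y S T w i j) : Even j := by
  have h1 := h.blk.k.t.ev
  rw [seg_length w h.ij h.jw] at h1
  have h2 := h.ei.add h1
  rwa [Nat.add_sub_cancel' h.ij] at h2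

lemma HpM.bi (h : HpM d P O Y S T w i j) : ‖ps w i‖ ≤ P.r * S + P.r2 * S := by
  have := norm_en_le h.tip
  rwa [en_take w (h.ij.trans h.jw)] at this

lemma HpM.bj (h : HpM d P O Y S T w i j) : ‖ps w j - ps w i‖ ≤ O.r * S := by
  have h1 := norm_en_le h.blk.k.t
  have h2 : en (seg w i j) = ps w j - ps w i := by
    have h3 : (seg w i j).length = j - i := seg_length w h.ij h.jw
    rw [en, h3]
    unfold seg
    rw [ps_take _ le_rfl (by rw [List.length_drop]; have := h.jw; omega), ps_append_drop w (h.ij.trans h.jw) h.ei,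
      Nat.add_sub_cancel' h.ij]
  rwa [h2] at h1

/-- the double gate of the whole word is unique -/
lemma dbl_uniq_whole {d : ℂ} {r l r2 m r0 : ℝ} {p p' R R' : W3} {k k' : ℕ} (h : DblC d r l r2 m p k)
    (h' : DblC d r l r2 m p' k') (hR : RestC d r0 R) (hR' : RestC d r0 R') (hr : 2 * (r + r2) ≤ r0) (he : p ++ R = p' ++ R') :
    p = p' := by
  have hr0 : 0 ≤ r := (norm_nonneg _).trans (h.a.ball 0 (Nat.zero_le _))
  have hr2 : 0 ≤ r2 := (norm_nonneg _).trans (h.b.t.ball 0 (Nat.zero_le _))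
  have e0 : ∀ (p : W3) (k : ℕ) (R : W3), p ++ R = p.take k ++ (p.drop k ++ R) := fun p k R => by
    conv_lhs => rw [← List.take_append_drop k p]
    rw [List.append_assoc]
  have e1 : p.take k ++ (p.drop k ++ R) = p'.take k' ++ (p'.drop k' ++ R') := by
    rw [← e0, ← e0, he]
  have h1 := tip_uniq h.a h'.a h.fa h'.fa (h.b.rest hR) (h'.b.rest hR') (by linarith) e1
  have e2 : p.drop k ++ R = p'.drop k' ++ R' := by
    rw [h1] at e1
    exact List.append_cancel_left e1
  have h2 := tip_uniq h.b.t h'.b.t h.fb h'.fb hR hR' (by linarith) e2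
  rw [← List.take_append_drop k p, ← List.take_append_drop k' p', h1, h2]

/-- **the marks are unique** -/
theorem HpM.uniq (h : HpM d P O Y S T w i j) (h' : HpM d P O Y S T w i' j') (hS : 0 ≤ S)
    (hu : 2 * (P.r + P.r2) + 2 * O.r ≤ Y.rg) : i = i' ∧ j = j' := by
  have hOr : 0 ≤ O.r * S := (norm_nonneg _).trans (h.blk.k.t.ball 0 (Nat.zero_le _))
  have hPr : 0 ≤ P.r * S + P.r2 * S := (norm_nonneg _).trans (h.tip.ball 0 (Nat.zero_le _))
  have hu' : (2 * (P.r + P.r2) + 2 * O.r) * S ≤ Y.rg * S := mul_le_mul_of_nonneg_right hu hS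
  have h1 : w.take i = w.take i' := by
    obtain ⟨k, hk⟩ := h.pre
    obtain ⟨k', hk'⟩ := h'.pre
    have r1 := h.blk.k.rest h.ey.right
    have r2 := h'.blk.k.rest h'.ey.right
    rw [seg_app w h.ij] at r1
    rw [seg_app w h'.ij] at r2
    exact dbl_uniq_whole hk.g hk'.g r1 r2 (by linarith) (by rw [List.take_append_drop, List.take_append_drop])
  have hi : i = i' := by
    have := congrArg List.length h1
    rwa [List.length_take, List.length_take, min_eq_left (h.ij.trans h.jw), min_eq_left (h'.ij.trans h'.jw)] at this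
  subst hi
  refine ⟨rfl, ?_⟩
  have h2 : seg w i j = seg w i j' := by
    exact tip_uniq h.blk.k.t h'.blk.k.t h.blk.f h'.blk.f h.ey.right h'.ey.right (by linarith)
      (by rw [seg_app w h.ij, seg_app w h'.ij])
  have h3 := congrArg List.length h2
  rw [seg_length w h.ij h.jw, seg_length w h'.ij h'.jw] at h3
  have := h.ij
  have := h'.ij
  omega

lemma Hp_zero (h : ∀ i j : ℕ, ¬ HpM d P O Y S T w i j) : Hp d P O Y S T ψ w = 0 :=
  sum_eq_zero fun i _ => sum_eq_zero fun j _ => if_neg (h i j)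

/-- **the value on the class** -/
lemma Hp_eq (h : HpM d P O Y S T w i j) (hS : 0 ≤ S) (hu : 2 * (P.r + P.r2) + 2 * O.r ≤ Y.rg) :
    Hp d P O Y S T ψ w = ψ (seg w i j) := by
  unfold Hp
  have hi : i ∈ range (w.length + 1) := mem_range.2 (by have := h.ij; have := h.jw; omega)
  have hj : j ∈ range (w.length + 1) := mem_range.2 (by have := h.jw; omega)
  rw [sum_eq_single_of_mem i hi fun i' _ hne => sum_eq_zero fun j' _ => if_neg fun h' => hne (h'.uniq h hS hu).1,
    sum_eq_single_of_mem j hj fun j' _ hne => if_neg fun h' => hne (h'.uniq h hS hu).2, if_pos h]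

lemma Hp_nonneg (hψ : ∀ b, 0 ≤ ψ b) : 0 ≤ Hp d P O Y S T ψ w :=
  sum_nonneg fun i _ => sum_nonneg fun j _ => by
    split_ifs
    · exact hψ _
    · exact le_rfl

lemma Hp_ge (hψ : ∀ b, 0 ≤ ψ b) (h : HpM d P O Y S T w i j) : ψ (seg w i j) ≤ Hp d P O Y S T ψ w := by
  unfold Hp
  have hi : i ∈ range (w.length + 1) := mem_range.2 (by have := h.ij; have := h.jw; omega)
  have hj : j ∈ range (w.length + 1) := mem_range.2 (by have := h.jw; omega)
  have h1 : ∀ i' j' : ℕ, 0 ≤ (if HpM d P O Y S T w i' j' then ψ (seg w i' j') else 0) := fun i' j' => by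
    split_ifs
    · exact hψ _
    · exact le_rfl
  refine le_trans ?_ (single_le_sum (f := fun i' => ∑ j' ∈ range (w.length + 1),
    if HpM d P O Y S T w i' j' then ψ (seg w i' j') else 0) (fun i' _ => sum_nonneg fun j' _ => h1 i' j') hi)
  refine le_trans ?_ (single_le_sum (f := fun j' => if HpM d P O Y S T w i j' then ψ (seg w i j') else 0)
    (fun j' _ => h1 i j') hj)
  simp only [if_pos h]
  exact le_rfl

lemma Hp_le_one (hψ : ∀ b, ψ b ≤ 1) (hS : 0 ≤ S) (hu : 2 * (P.r + P.r2) + 2 * O.r ≤ Y.rg) :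
    Hp d P O Y S T ψ w ≤ 1 := by
  by_cases h : ∃ i j, HpM d P O Y S T w i j
  · obtain ⟨i, j, h⟩ := h
    rw [Hp_eq h hS hu]
    exact hψ _
  · push Not at h
    rw [Hp_zero h]
    exact zero_le_one

/-- the radius of locality -/
noncomputable def HpR (P : Tp) (O : Ot) (Y : Tp) : ℝ := P.r + P.r2 + O.r + Y.rg + Y.r0

/-- **the marks are local** -/
theorem HpM.congr (h : HpM d P O Y S T w i j) {m : ℕ} (hm : m ≤ w.length) (hm' : m ≤ w'.length) (he : w.take m = w'.take m)
    (h1 : ∀ k : ℕ, m ≤ k → k ≤ w.length → HpR P O Y * S < ‖ps w k‖)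
    (h1' : ∀ k : ℕ, m ≤ k → k ≤ w'.length → HpR P O Y * S < ‖ps w' k‖)
    (hrg : 0 ≤ Y.rg * S) (hr0 : 0 ≤ Y.r0 * S) (hκ : 0 ≤ Y.κ * S) (hOr : 0 ≤ O.r * S) :
    HpM d P O Y S T w' i j ∧ seg w' i j = seg w i j := by
  have e0 : HpR P O Y * S = P.r * S + P.r2 * S + O.r * S + Y.rg * S + Y.r0 * S := by
    unfold HpR
    ring
  rw [e0] at h1 h1'
  have bi := h.bi
  have bj := h.bj
  have bj' : ‖ps w j‖ ≤ P.r * S + P.r2 * S + O.r * S := by
    calc ‖ps w j‖ = ‖(ps w j - ps w i) + ps w i‖ := by ring_nf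
      _ ≤ ‖ps w j - ps w i‖ + ‖ps w i‖ := norm_add_le _ _
      _ ≤ _ := by linarith
  have hij := h.ij
  have hjw := h.jw
  have hjm : j < m := by
    by_contra hc
    push Not at hc
    have := h1 j hc hjw
    linarith
  have hp : ∀ k : ℕ, k ≤ m → ps w' k = ps w k := fun k hk => by
    rw [← ps_take w' hk hm', ← he, ps_take w hk hm]
  have ht : w'.take i = w.take i := by
    have h2 := congrArg (List.take i) he
    rw [List.take_take, List.take_take, min_eq_left (by omega)] at h2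
    exact h2.symm
  have hs : seg w' i j = seg w i j := by
    have key : ∀ v : W3, seg v i j = ((v.take m).drop i).take (j - i) := fun v => by
      unfold seg
      rw [List.drop_take, List.take_take, min_eq_left (by omega)]
    rw [key, key, he]
  have hei := h.ei
  have hej := h.ej
  have hd : ∀ {a : ℕ} (_ : Even a) (_ : a ≤ w.length) (k : ℕ), ps (w.drop a) k = ps w (a + k) - ps w a := fun ha hl k =>
    ps_append_drop w hl ha k
  have hd' : ∀ {a : ℕ} (_ : Even a) (_ : a ≤ w'.length) (k : ℕ), ps (w'.drop a) k = ps w' (a + k) - ps w' a := fun ha hl k =>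
    ps_append_drop w' hl ha k
  have far : ∀ {a k : ℕ} (_ : Even a) (_ : a ≤ j) (_ : k ≤ (w'.drop a).length) (_ : m ≤ a + k) {B : ℝ} (_ : ‖ps w a‖ ≤ B),
      P.r * S + P.r2 * S + O.r * S + Y.rg * S + Y.r0 * S - B < ‖ps (w'.drop a) k‖ := by
    intro a k ea haj hk hmk B hB
    rw [List.length_drop] at hk
    have q1 := h1' (a + k) hmk (by omega)
    have q2 : ps w' (a + k) = ps (w'.drop a) k + ps w a := by
      rw [hd' ea (by omega), ← hp a (by omega)]
      ring
    rw [q2] at q1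
    have q3 := norm_add_le (ps (w'.drop a) k) (ps w a)
    linarith
  have same : ∀ {a k : ℕ} (_ : Even a) (_ : a ≤ j) (_ : a + k ≤ m), ps (w'.drop a) k = ps (w.drop a) k := by
    intro a k ea haj hmk
    rw [hd' ea (by omega), hd ea (by omega), hp _ hmk, hp _ (by omega)]
  refine ⟨⟨hij, by omega, by rw [ht]; exact h.pre, by rw [hs]; exact h.blk, ⟨fun k h0 hk hn => ?_, fun k hk => ?_⟩⟩, hs⟩
  · rcases le_or_gt (j + k) m with hc | hc
    · rw [same hej le_rfl hc] at hn ⊢
      exact h.ey.right k h0 (by rw [List.length_drop]; omega) hn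
    · have := far hej le_rfl hk hc.le bj'
      linarith
  · rcases le_or_gt (j + k) m with hc | hc
    · rw [same hej le_rfl hc]
      exact h.ey.cone k (by rw [List.length_drop]; omega)
    · right
      have := far hej le_rfl hk hc.le bj'
      linarith

/-- **the functional is local** -/
theorem Hp_congr {m : ℕ} (hm : m ≤ w.length) (hm' : m ≤ w'.length) (he : w.take m = w'.take m)
    (h1 : ∀ k : ℕ, m ≤ k → k ≤ w.length → HpR P O Y * S < ‖ps w k‖)
    (h1' : ∀ k : ℕ, m ≤ k → k ≤ w'.length → HpR P O Y * S < ‖ps w' k‖) (hS : 0 ≤ S)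
    (hu : 2 * (P.r + P.r2) + 2 * O.r ≤ Y.rg) (hrg : 0 ≤ Y.rg) (hr0 : 0 ≤ Y.r0) (hκ : 0 ≤ Y.κ) (hOr : 0 ≤ O.r) :
    Hp d P O Y S T ψ w = Hp d P O Y S T ψ w' := by
  by_cases h : ∃ i j, HpM d P O Y S T w i j
  · obtain ⟨i, j, h⟩ := h
    obtain ⟨h2, h3⟩ := h.congr hm hm' he h1 h1' (mul_nonneg hrg hS) (mul_nonneg hr0 hS) (mul_nonneg hκ hS)
      (mul_nonneg hOr hS)
    rw [Hp_eq h hS hu, Hp_eq h2 hS hu, h3]
  · push Not at h
    rw [Hp_zero h, Hp_zero fun i j h' => h i j (h'.congr hm' hm he.symm h1' h1 (mul_nonneg hrg hS) (mul_nonneg hr0 hS)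
      (mul_nonneg hκ hS) (mul_nonneg hOr hS)).1]

end

end Pool.Agent.ROT.F3
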