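import Pool.Agent.ROT.F3ClsW
import Pool.Agent.ROT.F3ClsU
import Pool.Agent.ROT.W8Hp

/-!
# ROT / F3C3 (helper43): the classes with three gates at each end (row LOWLIM)

tip - `c` - `x` - block `b2` - `y` - rest `R2`, both ends.
* `T3c T B` : the words `a ++ b`; `f3 T B ψ` : the weight `ψ b`; `Un3c` : the decomposition is unique; `f3_eq`, `f3_le_one`, **`ms_T3`**;
* **`C3Ok`** : relations between the data; **`Prm.C3`** : the class (`T3c`, rests `Rst Y Y' W2`, `T3c`) as `WCls`;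
* **`C3_prod`** : its gated sum as a product; `C3_gb` : `Gb`; `gG3_eq`, **`gam3_ge`** : its gates in the words of 94's `HpM`;
* **`b3_mem`, `b3_inj`** : `b ++ (R2 ++ b'.reverse)` is a rest of the lattice 0, the pieces are unique.
-/

set_option autoImplicit false
set_option linter.unusedSectionVars false

open MeasureTheory Filter Topology Finset
open scoped ENNReal NNReal Classical BoundedContinuousFunction

namespace Pool.Agent.ROT.F3

open Pool.Agent.NTS.Res (step pos saw fug size)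
open Pool.Agent.ROT.F3E (SG SS ct Gb)

/-! ### 1. Words `a ++ b` -/

/-- the words `a ++ b` -/
def T3c (T B : Set W3) : Set W3 := {p | ∃ a ∈ T, ∃ b ∈ B, p = a ++ b}

/-- the weight `ψ b` of `a ++ b` -/
noncomputable def f3 (T B : Set W3) (ψ : W3 → ℝ) (p : W3) : ℝ :=
  ∑ i ∈ range (p.length + 1), if p.take i ∈ T ∧ p.drop i ∈ B then ψ (p.drop i) else 0

/-- the decomposition is unique -/
def Un3c (T B : Set W3) : Prop := ∀ a ∈ T, ∀ a' ∈ T, ∀ b ∈ B, ∀ b' ∈ B, a ++ b = a' ++ b' → a = a'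

section words

variable {T B : Set W3} {ψ : W3 → ℝ}

lemma f3_nonneg (hψ : ∀ b, 0 ≤ ψ b) (p : W3) : 0 ≤ f3 T B ψ p := by
  refine sum_nonneg fun i _ => ?_
  split_ifs
  · exact hψ _
  · exact le_rfl

lemma f3_eq (hu : Un3c T B) {a b : W3} (ha : a ∈ T) (hb : b ∈ B) : f3 T B ψ (a ++ b) = ψ b := by
  unfold f3
  rw [sum_eq_single a.length]
  · rw [List.take_left, List.drop_left, if_pos ⟨ha, hb⟩]
  · intro i hi hne
    refine if_neg fun h => hne ?_
    have h1 := hu _ h.1 _ ha _ h.2 _ hb (by rw [List.take_append_drop])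
    have h2 := congrArg List.length h1
    rw [List.length_take] at h2
    have := mem_range.1 hi
    omega
  · intro h
    exact absurd (mem_range.2 (by rw [List.length_append]; omega)) h

lemma f3_zero {p : W3} (h : p ∉ T3c T B) : f3 T B ψ p = 0 := by
  refine sum_eq_zero fun i _ => if_neg fun h' => h ⟨_, h'.1, _, h'.2, (List.take_append_drop i p).symm⟩

lemma f3_le_one (hu : Un3c T B) (hψ : ∀ b, ψ b ≤ 1) (p : W3) : f3 T B ψ p ≤ 1 := by
  by_cases h : p ∈ T3c T B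
  · obtain ⟨a, ha, b, hb, rfl⟩ := h
    rw [f3_eq hu ha hb]
    exact hψ b
  · rw [f3_zero h]
    exact zero_le_one

/-- **the mass of the words `a ++ b`** -/
theorem ms_T3 (hψ : ∀ b, 0 ≤ ψ b) :
    ms (T3c T B) (fun p => ENNReal.ofReal (f3 T B ψ p)) = ms T (fun _ => 1) * ms B fun b => ENNReal.ofReal (ψ b) := by
  have h1 : ms (T3c T B) (fun p => ENNReal.ofReal (f3 T B ψ p)) =
      ∑' w : W3, ∑ k ∈ range (w.length + 1), (if w.take k ∈ T ∧ w.drop k ∈ B then wx w * ENNReal.ofReal (ψ (w.drop k)) else 0) := by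
    unfold ms
    refine tsum_congr fun w => ?_
    by_cases hw : w ∈ T3c T B
    · rw [if_pos hw]
      have e : ENNReal.ofReal (f3 T B ψ w) = ∑ i ∈ range (w.length + 1),
          ENNReal.ofReal (if w.take i ∈ T ∧ w.drop i ∈ B then ψ (w.drop i) else 0) := by
        unfold f3
        refine ENNReal.ofReal_sum_of_nonneg fun i _ => ?_
        split_ifs
        · exact hψ _
        · exact le_rfl
      show wx w * ENNReal.ofReal (f3 T B ψ w) = _
      rw [e, mul_sum]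
      refine sum_congr rfl fun k _ => ?_
      split_ifs
      · rfl
      · rw [ENNReal.ofReal_zero, mul_zero]
    · rw [if_neg hw]
      symm
      exact sum_eq_zero fun k _ => if_neg fun h => hw ⟨_, h.1, _, h.2, (List.take_append_drop k w).symm⟩
  have h2 := tsum_cut (fun (w : W3) (k : ℕ) => if w.take k ∈ T ∧ w.drop k ∈ B then wx w * ENNReal.ofReal (ψ (w.drop k)) else 0)
  rw [h1, h2]
  unfold ms
  simp only [List.take_left, List.drop_left]
  rw [← ENNReal.tsum_mul_right]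
  refine tsum_congr fun a => ?_
  rw [← ENNReal.tsum_mul_left]
  refine tsum_congr fun b => ?_
  rw [wx_append]
  by_cases ha : a ∈ T
  · by_cases hb : b ∈ B
    · rw [if_pos ⟨ha, hb⟩, if_pos ha, if_pos hb]
      ring
    · rw [if_neg fun h => hb h.2, if_neg hb, mul_zero]
  · rw [if_neg fun h => ha h.1, if_neg ha, zero_mul]

end words

/-! ### 2. The data -/

/-- relations between the gate `P`, the outer block `O`, the outer gate `Y` at one end -/
structure E3Ok (P : Tp) (O : Ot) (Y : Tp) : Prop where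
  hP : P.Ok
  hY : Y.Ok
  or' : 0 ≤ O.r
  om : O.m ≤ O.r
  un : 2 * (P.r + P.r2) + 2 * O.r ≤ Y.rg
  c : P.c ≤ O.c
  cY : O.c ≤ Y.c
  κ : O.κ ≤ P.κ
  Yκm : Y.κ < O.m
  Yκ : Y.κ ≤ O.e + P.κ
  r0 : P.r0 + O.r < Y.r0 - Y.κ

/-- relations of the data of the classes with three gates -/
structure C3Ok (P : Prm) (O O' : Ot) (Y Y' : Tp) (W : Wn) : Prop where
  ok : P.Ok
  p : E3Ok P.p.n O Y
  q : E3Ok P.q.n O' Y'
  /-- the two ends are far -/
  D : 2 * (P.p.n.r + P.p.n.r2 + O.r + (P.q.n.r + P.q.n.r2 + O'.r)) < W.D0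
  D2 : P.p.n.r0 + P.q.n.r0 + 2 * (O.r + O'.r) < W.D0
  D0 : (P.wd P.W).D0 + (O.r + O'.r) ≤ W.D0
  D1 : W.D1 ≤ (P.wd P.W).D1 - (O.r + O'.r)
  t0 : (P.wd P.W).t0 ≤ W.t0
  t1 : W.t1 ≤ (P.wd P.W).t1 - (O.lb + O'.lb)

section

variable {d : ℂ} {P : Tp} {O : Ot} {Y : Tp} {S T : ℝ}

lemma OtB.ev {b : W3} (h : b ∈ OtB d O S T) : Even b.length := h.k.t.ev

/-- the decomposition of the start pieces is unique -/
theorem un3 : Un3c (Pre d P S T) (OtB d O S T) := by
  intro a ha a' ha' b hb b' hb' h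
  obtain ⟨k, hk⟩ := ha
  obtain ⟨k', hk'⟩ := ha'
  have hR : ∀ {b : W3}, b ∈ OtB d O S T → RestC d (2 * (P.r * S + P.r2 * S)) b := fun {b} hb k h0 hk _ => hb.k.right k h0 hk
  exact dbl_uniq_whole hk.g hk'.g (hR hb) (hR hb') le_rfl h

lemma T3c.tipC {p : W3} (h : p ∈ T3c (Pre d P S T) (OtB d O S T)) : TipC d ((P.r + P.r2 + O.r) * S) p := by
  obtain ⟨a, ha, b, hb, rfl⟩ := h
  have h1 := TipC.app (Pre.tipC ha) hb.k
  rwa [← add_mul] at h1

lemma T3c.len {p : W3} (h : p ∈ T3c (Pre d P S T) (OtB d O S T)) : (p.length : ℝ) ≤ (P.la + P.lb + O.lb) * T := by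
  obtain ⟨a, ha, b, hb, rfl⟩ := h
  have h1 := Pre.len ha
  have h2 := hb.lb
  rw [List.length_append]
  push_cast
  linarith

end

namespace Prm

variable {P : Prm} {O O' : Ot} {Y Y' : Tp} {W : Wn}

/-- the start pieces tip .. `y` -/
def T3p (P : Prm) (O : Ot) (N : ℕ) : Set W3 := T3c (P.T0p N) (OtB (ev 0) O N (uT N))
/-- the end pieces (read backwards) -/
def T3q (P : Prm) (O : Ot) (N : ℕ) : Set W3 := T3c (P.T0q N) (OtB (ev 0) O N (uT N))
/-- the rests behind `y` -/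
def Rs3 (Y Y' : Tp) (W : Wn) (N : ℕ) : Set W3 := Rst (ev 0) (ev 0) Y Y' W N (uT N)

lemma un3p (N : ℕ) : Un3c (P.T0p N) (OtB (ev 0) O N (uT N)) := un3

lemma un3q (N : ℕ) : Un3c (P.T0q N) (OtB (ev 0) O' N (uT N)) := un3

theorem wcl3 (h : C3Ok P O O' Y Y' W) (N : ℕ) : WCl (P.T3p O N) (Rs3 Y Y' W N) (P.T3q O' N) := by
  have hN : (0 : ℝ) ≤ N := Nat.cast_nonneg N
  refine wcl_of (r0 := Y.rg * N) (r0' := Y'.rg * N) (D := W.D0 * N) (d := ev 0) (d' := ev 0)
    (fun a ha => T3c.tipC ha) (fun b hb => T3c.tipC hb) (fun R hR => RsQ.rsC hR) ?_ ?_ fun h1 => ?_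
  · have := mul_le_mul_of_nonneg_right h.p.un hN
    linarith
  · have := mul_le_mul_of_nonneg_right h.q.un hN
    linarith
  · have h2 := pos_of h1
    have h3 := mul_lt_mul_of_pos_right h.D h2
    linarith

/-- **the class with three gates at each end**, `ψ`, `ψ'` = weights of the blocks -/
noncomputable def C3 (h : C3Ok P O O' Y Y' W) {ψ ψ' : W3 → ℝ} (hψ : ∀ b, 0 ≤ ψ b) (hψ' : ∀ b, 0 ≤ ψ' b) (N : ℕ) : WCls where
  T := P.T3p O N
  Rs := Rs3 Y Y' W N
  T' := P.T3q O' N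
  f := f3 (P.T0p N) (OtB (ev 0) O N (uT N)) ψ
  w _ := 1
  f' := f3 (P.T0q N) (OtB (ev 0) O' N (uT N)) ψ'
  cl := wcl3 h N
  nf := f3_nonneg hψ
  nw _ := zero_le_one
  nf' := f3_nonneg hψ'
  fT := ms_fin (K := (P.p.n.r + P.p.n.r2 + O.r) * N) (fun _ hw _ => ⟨(T3c.tipC hw).sw, (T3c.tipC hw).ball⟩)
    fun _ => ENNReal.ofReal_ne_top
  fR := Rst_fin fun _ => ENNReal.ofReal_ne_top
  fT' := ms_fin (K := (P.q.n.r + P.q.n.r2 + O'.r) * N) (fun _ hw _ => ⟨(T3c.tipC hw).sw, (T3c.tipC hw).ball⟩)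
    fun _ => ENNReal.ofReal_ne_top

/-- **the gated sum is a product** -/
theorem C3_prod (h : C3Ok P O O' Y Y' W) {ψ ψ' : W3 → ℝ} (hψ : ∀ b, 0 ≤ ψ b) (hψ' : ∀ b, 0 ≤ ψ' b) (N M : ℕ) (th : ℝ) :
    ENNReal.ofReal (SS ((C3 h hψ hψ' N).G M fun _ => 1) M th fun _ => 1) =
      (ms (P.T0p N) (fun _ => 1) * ms (OtB (ev 0) O N (uT N)) fun b => ENNReal.ofReal (ψ b)) *
        (ms (Rs3 Y Y' W N) (fun R => ENNReal.ofReal (ct th ((R.length : ℝ) / M))) *
          (ms (P.T0q N) (fun _ => 1) * ms (OtB (ev 0) O' N (uT N)) fun b => ENNReal.ofReal (ψ' b))) := by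
  obtain ⟨C, hC⟩ : ∃ C : WCls, C = C3 h hψ hψ' N := ⟨_, rfl⟩
  have e0 := SG_prod C.cl C.nf C.nw C.nf' (ψ := fun _ => 1) (fun _ => zero_le_one) M (H := fun _ t => ct th t)
    fun _ _ => F3E.ct_nonneg _ _
  have e1 := tsum_SG C.cl C.nf C.nw C.nf' (ψ := fun _ => 1) (fun _ => zero_le_one) (C := 1) measurable_const (fun _ => le_rfl)
    C.fT C.fR C.fT' M (c := 1) one_ne_zero ENNReal.one_ne_top (H := fun _ t => ct th t) (fun _ _ => F3E.ct_nonneg _ _)
    (fun _ _ => (F3E.ct_le_one _ _).trans one_le_two) ((ct_cont th).measurable.comp measurable_snd)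
  have hn := SG_nonneg (T := C.T) (Rs := C.Rs) (T' := C.T') C.nf C.nw C.nf' (ψ := fun _ => 1) (fun _ => zero_le_one) M
    (H := fun _ t => ct th t) fun _ _ => F3E.ct_nonneg _ _
  have e2 : SS (C.G M fun _ => 1) M th (fun _ => 1) =
      ∑' n, SG (gG C.T C.Rs C.T' C.f (fun R => C.w R * (fun _ => (1 : ℝ)) (cr (size M) M R)) C.f') M (fun _ t => ct th t) n := by
    unfold SS WCls.G
    simp only [one_mul]
  rw [← hC, e2, ENNReal.ofReal_tsum_of_nonneg hn e1.1, e0, hC]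
  show ms (T3c _ _) _ * (ms (Rs3 Y Y' W N) _ * ms (T3c _ _) _) = _
  have m1 : ms (T3c (P.T0p N) (OtB (ev 0) O N (uT N))) (fun a => ENNReal.ofReal ((C3 h hψ hψ' N).f a)) = _ :=
    ms_T3 hψ
  have m2 : ms (T3c (P.T0q N) (OtB (ev 0) O' N (uT N))) (fun a => ENNReal.ofReal ((C3 h hψ hψ' N).f' a)) = _ :=
    ms_T3 hψ'
  rw [m1, m2]
  congr 2
  unfold ms
  refine tsum_congr fun R => ?_
  have : (cr (size M) M R).2 = (R.length : ℝ) / M := rfl
  split_ifs
  · congr 1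
    show ENNReal.ofReal (1 * 1 * ct th ((R.length : ℝ) / M)) = _
    rw [one_mul, one_mul]
  · rfl

end Prm

/-! ### 3. The rests of the lattice 0 -/

namespace Prm

variable {P : Prm} {O O' : Ot} {Y Y' : Tp} {W : Wn}

lemma pos_ot {d : ℂ} {O : Ot} {N : ℕ} {T : ℝ} {b : W3} (hb : b ∈ OtB d O N T) : (0 : ℝ) < N := pos_of hb.k.t.one_le

/-- one end of a rest behind `y` -/
lemma edY {P : Tp} {O : Ot} {Y : Tp} {d : ℂ} {S : ℝ} {U : W3} (h : E3Ok P O Y) (hS : 0 < S) (hU : EdQ d Y S U) :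
    RestC d (2 * O.r * S) U ∧ ∀ i : ℕ, 0 < i → i ≤ U.length → Kn d O.c (Y.κ * S) (ps U i) ∨ (P.r0 + O.r) * S < ‖ps U i‖ := by
  constructor
  · intro k h0 hk hn
    refine hU.right k h0 hk (hn.trans ?_)
    have := h.un
    have := h.hP.r
    have := h.hP.r2
    nlinarith
  · intro i _ hi
    rcases hU.cone i hi with h1 | h1
    · exact Or.inl (h1.mono h.cY le_rfl)
    · refine Or.inr (lt_of_lt_of_le ?_ h1)
      have := mul_lt_mul_of_pos_right h.r0 hS
      linarith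

/-- **block, rest behind `y`, block = a rest of the lattice 0** -/
theorem b3_mem (h : C3Ok P O O' Y Y' W) {N : ℕ} {b U b' : W3} (hb : b ∈ OtB (ev 0) O N (uT N)) (hU : U ∈ Rs3 Y Y' W N)
    (hb' : b' ∈ OtB (ev 0) O' N (uT N)) : b ++ (U ++ b'.reverse) ∈ P.R0 0 P.W N := by
  have hS := pos_ot hb
  have hT : 0 ≤ uT N := Real.rpow_nonneg hS.le _
  obtain ⟨r1, c1⟩ := edY h.p hS hU.s
  obtain ⟨r2, c2⟩ := edY h.q hS hU.e
  have key : RsQ (ev 0) (ev 0) P.p.n P.q.n (P.wd P.W) N (uT N) (b ++ (U ++ b'.reverse)) := by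
    refine rst_bTb h.p.hP h.q.hP hS hb hb' h.p.c h.q.c h.p.κ h.q.κ h.p.Yκm h.p.Yκ h.q.Yκm h.q.Yκ hU.ev hU.sw r1 r2 c1
      (fun i h0 hi => c2 i h0 (by rw [List.length_reverse]; exact hi)) ?_ ?_ ?_ ?_ ?_
    · exact lt_of_lt_of_le (mul_lt_mul_of_pos_right h.D2 hS) hU.far
    · exact (mul_le_mul_of_nonneg_right h.D0 hS.le).trans hU.far
    · exact hU.near.trans (mul_le_mul_of_nonneg_right h.D1 hS.le)
    · exact (mul_le_mul_of_nonneg_right h.t0 hT).trans hU.lo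
    · exact hU.hi.trans (mul_le_mul_of_nonneg_right h.t1 hT)
  show b ++ (U ++ b'.reverse) ∈ Rst (ev 0) (ev (-0)) P.p.n P.q.n (P.wd P.W) N (uT N)
  rw [neg_zero]
  exact key

/-- **the three pieces of a rest are unique** -/
theorem b3_inj (h : C3Ok P O O' Y Y' W) {N : ℕ} {b U b' c V c' : W3} (hb : b ∈ OtB (ev 0) O N (uT N)) (hU : U ∈ Rs3 Y Y' W N)
    (hb' : b' ∈ OtB (ev 0) O' N (uT N)) (hc : c ∈ OtB (ev 0) O N (uT N)) (hV : V ∈ Rs3 Y Y' W N)
    (hc' : c' ∈ OtB (ev 0) O' N (uT N)) (he : b ++ (U ++ b'.reverse) = c ++ (V ++ c'.reverse)) : b = c ∧ U = V ∧ b' = c' := by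
  have hS := pos_ot hb
  have u1 := mul_le_mul_of_nonneg_right h.p.un hS.le
  have u2 := mul_le_mul_of_nonneg_right h.q.un hS.le
  have u3 := mul_lt_mul_of_pos_right h.D hS
  have a1 := mul_pos h.p.hP.r hS
  have a2 := mul_pos h.p.hP.r2 hS
  have a3 := mul_pos h.q.hP.r hS
  have a4 := mul_pos h.q.hP.r2 hS
  have a5 := mul_nonneg h.p.or' hS.le
  have a6 := mul_nonneg h.q.or' hS.le
  exact marks_walk hb.k.t hc.k.t hb.f hc.f hb'.k.t hc'.k.t hb'.f hc'.f (RsQ.rsC hU) (RsQ.rsC hV) (by linarith)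
    (by linarith) (by linarith) (by linarith) he

/-- **the marks of a walk with three gates at each end are unique** -/
theorem uniq3 (h : C3Ok P O O' Y Y' W) (N : ℕ) : ∀ a ∈ P.T3p O N, ∀ a' ∈ P.T3p O N, ∀ R ∈ Rs3 Y Y' W N, ∀ R' ∈ Rs3 Y Y' W N,
    ∀ b ∈ P.T3q O' N, ∀ b' ∈ P.T3q O' N, a ++ (R ++ b.reverse) = a' ++ (R' ++ b'.reverse) → a = a' ∧ R = R' ∧ b = b' := by
  rintro _ ⟨a, ha, b, hb, rfl⟩ _ ⟨a', ha', b', hb', rfl⟩ R hR R' hR' _ ⟨q, hq, c, hc, rfl⟩ _ ⟨q', hq', c', hc', rfl⟩ he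
  have e1 : a ++ ((b ++ (R ++ c.reverse)) ++ q.reverse) = a' ++ ((b' ++ (R' ++ c'.reverse)) ++ q'.reverse) := by
    simpa [List.reverse_append, List.append_assoc] using he
  obtain ⟨k1, k2, k3⟩ := h.ok.uniq0 N a ha a' ha' _ (b3_mem h hb hR hc) _ (b3_mem h hb' hR' hc') q hq q' hq' e1
  obtain ⟨k4, k5, k6⟩ := b3_inj h hb hR hc hb' hR' hc' k2
  exact ⟨by rw [k1, k4], k5, by rw [k3, k6]⟩

/-- **`Gb` for the class with three gates** -/
theorem C3_gb (h : C3Ok P O O' Y Y' W) {ψ ψ' : W3 → ℝ} (hψ : ∀ b, 0 ≤ ψ b) (hψ' : ∀ b, 0 ≤ ψ' b) (hψ1 : ∀ b, ψ b ≤ 1)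
    (hψ1' : ∀ b, ψ' b ≤ 1) {e th : ℝ} {N M : ℕ} (hp : (P.p.n.la + P.p.n.lb + O.lb) * uT N ≤ e * th * M)
    (hq : (P.q.n.la + P.q.n.lb + O'.lb) * uT N ≤ e * th * M) : Gb e th ((C3 h hψ hψ' N).G M fun _ => 1) M :=
  gb_of (f3_nonneg hψ) (fun _ => by show (0 : ℝ) ≤ 1 * 1; norm_num) (f3_nonneg hψ') (f3_le_one (un3p N) hψ1)
    (fun _ => by show (1 : ℝ) * 1 ≤ 1; norm_num) (f3_le_one (un3q N) hψ1')
    (fun a ha => ⟨(T3c.tipC ha).ev, T3c.len ha⟩) (fun b hb => T3c.len hb) hp hq (uniq3 h N)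

end Prm

/-! ### 4. The gates in the words of `HpM` -/

/-- the value of the gates of the class -/
lemma gG3_eq {P : Prm} {O O' : Ot} {Y Y' : Tp} {W : Wn} (h : C3Ok P O O' Y Y' W) {ψ ψ' : W3 → ℝ} (hψ : ∀ b, 0 ≤ ψ b)
    (hψ' : ∀ b, 0 ≤ ψ' b) {N M : ℕ} {w : W3} {i j : ℕ} (hij : i ≤ j) (hj : j ≤ w.length)
    (h1 : w.take i ∈ P.T3p O N) (h2 : seg w i j ∈ Prm.Rs3 Y Y' W N) (h3 : (w.drop j).reverse ∈ P.T3q O' N) :
    (Prm.C3 h hψ hψ' N).G M (fun _ => 1) w i j =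
      f3 (P.T0p N) (OtB (ev 0) O N (uT N)) ψ (w.take i) * f3 (P.T0q N) (OtB (ev 0) O' N (uT N)) ψ' (w.drop j).reverse := by
  show gG (P.T3p O N) (Prm.Rs3 Y Y' W N) (P.T3q O' N) _ _ _ w i j = _
  unfold gG
  rw [if_pos ⟨⟨hij, hj⟩, h1, h2, h3⟩]
  show f3 _ _ ψ _ * (1 * 1 * f3 _ _ ψ' _) = _
  rw [one_mul, one_mul]

section hpm

variable {d : ℂ} {P : Tp} {O : Ot} {Y : Tp} {S T : ℝ}

/-- the marks of `HpM` give a start piece -/
lemma HpM.t3 {w : W3} {i j : ℕ} (h : HpM d P O Y S T w i j) : w.take j ∈ T3c (Pre d P S T) (OtB d O S T) := by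
  refine ⟨_, h.pre, _, h.blk, ?_⟩
  unfold seg
  have h1 : (w.drop i).take (j - i) = (w.take j).drop i := by
    rw [List.drop_take]
  rw [h1]
  have h2 : w.take i = (w.take j).take i := by
    rw [List.take_take, min_eq_left h.ij]
  rw [h2, List.take_append_drop]

lemma HpM.f3 {w : W3} {i j : ℕ} (h : HpM d P O Y S T w i j) (ψ : W3 → ℝ) :
    f3 (Pre d P S T) (OtB d O S T) ψ (w.take j) = ψ (seg w i j) := by
  have e : w.take j = w.take i ++ seg w i j := by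
    unfold seg
    have h1 : (w.drop i).take (j - i) = (w.take j).drop i := by
      rw [List.drop_take]
    rw [h1]
    have h2 : w.take i = (w.take j).take i := by
      rw [List.take_take, min_eq_left h.ij]
    rw [h2, List.take_append_drop]
  rw [e]
  exact f3_eq un3 h.pre h.blk

/-- a prefix of a word with a good start -/
lemma EdQ.take {R : W3} (h : EdQ d Y S R) {m : ℕ} (hm : m ≤ R.length) : EdQ d Y S (R.take m) where
  right k h0 hk hn := by
    rw [List.length_take, min_eq_left hm] at hk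
    rw [ps_take R hk hm] at hn ⊢
    exact h.right k h0 (hk.trans hm) hn
  cone k hk := by
    rw [List.length_take, min_eq_left hm] at hk
    rw [ps_take R hk hm]
    exact h.cone k (hk.trans hm)

end hpm

/-- **the gates of the class from the marks at both ends** -/
theorem gam3_ge {P : Prm} {O O' : Ot} {Y Y' : Tp} {W : Wn} (h : C3Ok P O O' Y Y' W) {ψ ψ' : W3 → ℝ} (hψ : ∀ b, 0 ≤ ψ b)
    (hψ' : ∀ b, 0 ≤ ψ' b) {N M : ℕ} {w : W3} (sw : SW w) {i j i' j' : ℕ}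
    (hp : HpM (ev 0) P.p.n O Y N (uT N) w i j) (hq : HpM (ev 0) P.q.n O' Y' N (uT N) w.reverse i' j')
    (ew : Even w.length) (hjj : j + j' ≤ w.length) (D0 : W.D0 * N ≤ ‖ps w (w.length - j') - ps w j‖)
    (D1 : ‖ps w (w.length - j') - ps w j‖ ≤ W.D1 * N) (t0 : W.t0 * uT N ≤ ((w.length - j' - j : ℕ) : ℝ))
    (t1 : ((w.length - j' - j : ℕ) : ℝ) ≤ W.t1 * uT N) :
    ψ (seg w i j) * ψ' (seg w.reverse i' j') ≤ F3E.Gam ((Prm.C3 h hψ hψ' N).G M fun _ => 1) w := by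
  obtain ⟨n, hn⟩ : ∃ n, n = w.length := ⟨_, rfl⟩
  obtain ⟨k, hk⟩ : ∃ k, k = n - j' := ⟨_, rfl⟩
  have hj' : j' ≤ n := by omega
  have hjk : j ≤ k := by omega
  have hkn : k ≤ n := by omega
  have ej := hp.ej
  have ej' := hq.ej
  have e1 : (w.drop k).reverse = w.reverse.take j' := by
    rw [List.take_reverse, hk, hn]
  have e2 : (seg w j k).length = k - j := seg_length w hjk (by omega)
  have e3 : seg w j k = (w.drop j).take (k - j) := rfl
  have e4 : (seg w j k).reverse = (w.reverse.drop j').take (k - j) := by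
    unfold seg
    rw [List.drop_reverse, ← hn, ← hk, List.reverse_take, List.length_drop, ← hn]
    have h3 : ((w.take k).drop j) = (w.drop j).take (k - j) := by
      rw [List.drop_take]
    rw [List.take_reverse, List.length_take, ← hn, min_eq_left hkn, show k - (k - j) = j by omega, h3, List.reverse_take,
      List.length_drop, ← hn]
  have psw : ∀ l, j ≤ l → l ≤ n → ps (w.drop j) (l - j) = ps w l - ps w j := by
    intro l h1 h2
    rw [ps_append_drop w (by omega : j ≤ w.length) ej, Nat.add_sub_cancel' h1]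
  have en1 : en (seg w j k) = ps w k - ps w j := by
    rw [en, e2]
    unfold seg
    rw [ps_take _ le_rfl (by rw [List.length_drop]; omega)]
    exact psw k hjk hkn
  have hR : seg w j k ∈ Prm.Rs3 Y Y' W N := by
    refine ⟨?_, ?_, ?_, ?_, ?_, ?_, ?_, ?_⟩
    · rw [e2]
      have : Even k := by
        rw [hk, hn]
        exact (Nat.even_sub (by omega)).2 ⟨fun _ => ej', fun _ => ew⟩
      exact (Nat.even_sub hjk).2 ⟨fun _ => ej, fun _ => this⟩
    · intro a b ha hb hab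
      rw [e2] at ha hb
      have q : ∀ a, a ≤ k - j → ps (seg w j k) a = ps w (j + a) - ps w j := by
        intro a ha
        unfold seg
        rw [ps_take _ ha (by rw [List.length_drop]; omega)]
        have := psw (j + a) (by omega) (by omega)
        rwa [Nat.add_sub_cancel_left] at this
      rw [q a ha, q b hb] at hab
      have := sw (j + a) (j + b) (by omega) (by omega) (by linear_combination hab)
      omega
    · rw [e3]
      exact hp.ey.take (by rw [List.length_drop]; omega)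
    · rw [e4]
      exact hq.ey.take (by rw [List.length_drop, List.length_reverse]; omega)
    · rw [en1, hk, hn]
      exact D0
    · rw [en1, hk, hn]
      exact D1
    · rw [e2, hk, hn]
      exact t0
    · rw [e2, hk, hn]
      exact t1
  have h3 : (w.drop k).reverse ∈ P.T3q O' N := by
    rw [e1]
    exact hq.t3
  have key := gG3_eq (M := M) h hψ hψ' hjk (by omega : k ≤ w.length) hp.t3 hR h3
  have k1 : f3 (P.T0p N) (OtB (ev 0) O N (uT N)) ψ (w.take j) = ψ (seg w i j) := hp.f3 ψ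
  have k2 : f3 (P.T0q N) (OtB (ev 0) O' N (uT N)) ψ' (w.drop k).reverse = ψ' (seg w.reverse i' j') := by
    rw [e1]
    exact hq.f3 ψ'
  rw [k1, k2] at key
  rw [← key]
  have nn : ∀ a b, 0 ≤ (Prm.C3 h hψ hψ' N).G M (fun _ => 1) w a b := by
    intro a b
    show 0 ≤ gG _ _ _ _ _ _ w a b
    unfold gG
    split_ifs
    · exact mul_nonneg (f3_nonneg hψ _) (mul_nonneg (by show (0 : ℝ) ≤ 1 * 1; norm_num) (f3_nonneg hψ' _))
    · exact le_rfl
  unfold F3E.Gam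
  refine le_trans ?_ (single_le_sum (f := fun a => ∑ b ∈ range (w.length + 1), (Prm.C3 h hψ hψ' N).G M (fun _ => 1) w a b)
    (fun a _ => sum_nonneg fun b _ => nn a b) (mem_range.2 (by omega : j < w.length + 1)))
  exact single_le_sum (f := fun b => (Prm.C3 h hψ hψ' N).G M (fun _ => 1) w j b) (fun b _ => nn j b)
    (mem_range.2 (by omega : k < w.length + 1))

end Pool.Agent.ROT.F3
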