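import Pool.Agent.ROT.W8RowA
import Pool.Agent.ROT.F3C3

/-!
# ROT, F3, row LOWLIM (helper84): the shares of the classes with three gates at each end

* `edr_c3` : the data of one end for `low_core`;
* **`low_c3'`**, **`low_c3`** : for given `c1`, `A`: the class `Prm.C3` with any weights `ψ`, `ψ'` of the outer blocks has a share at least `p`, if the
  blocks with at most `A * (ρ * M) ^ (4 / 3)` letters have masses at least `c1`; `p` depends on `c1`, `A` only.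
-/

set_option autoImplicit false

open Filter Topology

namespace Pool.Agent.ROT.F3

open Finset
open scoped ENNReal
open Pool.Agent.NTS.Res (pos saw size fug)
open Pool.Agent.ROT.F (Nm nm_bd nm_ratio nm_top)

/-- the data of one end, native gate of the lattice 0 -/
lemma edr_c3 {E : En} {O : Ot} {Y : Tp} {ρ τ c1 A s S T : ℝ} {ψ : W3 → ℝ} (hρ : 0 < ρ) (hτ : 0 < τ) (hE : E.Nr (bE ρ τ))
    (hO : (O.sh8 (99/100 * τ)).Nr (bO ρ τ)) (hY : Y.Nr (bY ρ τ)) (hs : s ≤ τ) (hl : A * ρ ^ (4 / 3 : ℝ) ≤ O.lb)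
    (hm : ENNReal.ofReal c1 ≤ Sb (OtSl O A ρ S T) fun b => ENNReal.ofReal (ψ b)) (hψ : ∀ b, 0 ≤ ψ b ∧ ψ b ≤ 1) :
    EdR c1 A ρ s S T E.n O Y ψ := by
  have r1 : E.n.r ≤ 101 / 100 * (1 * ρ) := hE.n.r.2
  have r2 : E.n.r2 ≤ 101 / 100 * (41/2 * ρ) := hE.n.r2.2
  have cs : E.n.cs ≤ 101 / 100 * (3/5) := hE.n.cs.2
  have q1 : 1 * τ ≤ E.n.la := hE.n.la.1
  have q2 : 1 * τ ≤ E.n.lb := hE.n.lb.1
  have q3 : O.r ≤ 101 / 100 * (22000000 * ρ) := hO.r.2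
  have q4 : Y.rg ≤ 101 / 100 * (46000000 * ρ) := hY.rg.2
  have q5 : Y.r0 ≤ 101 / 100 * (48000000 * ρ) := hY.r0.2
  have w1 : W8R E.n O Y := (w8rN hρ hτ hE hO hY).shO O.lb
  have w2 : W8.Wc E.n O Y (9/1000 * ρ) (50000000 * ρ) (600000000 * ρ) := { wcN hρ hE hO hY with }
  refine ⟨w1, by linarith, w2, ?_, by linarith, by linarith, hl, hm, hψ⟩
  show E.n.r + E.n.r2 + O.r + Y.rg + Y.r0 ≤ 150000000 * ρ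
  linarith

/-- **the shares of the classes with three gates at each end** -/
theorem low_c3' (c1 A : ℝ) (hc1 : 0 < c1) (hA : 0 < A) : ∃ p k0 K1 : ℝ, 0 < p ∧ 0 < k0 ∧ 0 < K1 ∧ ∀ τ : ℝ, 0 < τ →
    ∃ ρ0 : ℝ, 0 < ρ0 ∧ ∀ ρ : ℝ, 0 < ρ → ρ ≤ ρ0 → A * ρ ^ (4 / 3 : ℝ) ≤ 1 / 2 * τ ∧
      ∀ (P : Prm) (O O' : Ot) (Y Y' : Tp) (W : Wn) (h : C3Ok P O O' Y Y' W), P.p.Nr (bE ρ τ) → P.q.Nr (bE ρ τ) →
        (O.sh8 (99/100 * τ)).Nr (bO ρ τ) → (O'.sh8 (99/100 * τ)).Nr (bO ρ τ) → A * ρ ^ (4 / 3 : ℝ) ≤ O.lb →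
          A * ρ ^ (4 / 3 : ℝ) ≤ O'.lb → Y.Nr (bY ρ τ) → Y'.Nr (bY ρ τ) → W.D0 ≤ k0 → K1 ≤ W.D1 → W.t0 ≤ k0 → K1 ≤ W.t1 →
            ∀ᶠ N : ℕ in atTop, ∀ (ψ ψ' : W3 → ℝ) (hψ : ∀ b, 0 ≤ ψ b) (hψ' : ∀ b, 0 ≤ ψ' b), (∀ b, ψ b ≤ 1) → (∀ b, ψ' b ≤ 1) →
              ENNReal.ofReal c1 ≤ Sb {b | b ∈ OtB (ev 0) O (Nm N) (uT (Nm N)) ∧
                (b.length : ℝ) ≤ A * (ρ * Nm N) ^ (4 / 3 : ℝ)} (fun b => ENNReal.ofReal (ψ b)) →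
              ENNReal.ofReal c1 ≤ Sb {b | b ∈ OtB (ev 0) O' (Nm N) (uT (Nm N)) ∧
                (b.length : ℝ) ≤ A * (ρ * Nm N) ^ (4 / 3 : ℝ)} (fun b => ENNReal.ofReal (ψ' b)) →
              ∀ n : ℕ, Even n → (N : ℝ) / 2 ≤ n → (n : ℝ) ≤ 2 * N →
                p * (saw n).card ≤ ∑ s ∈ saw n, F3E.Gam ((Prm.C3 h hψ hψ' (Nm N)).G N fun _ => 1) (List.ofFn s) := by
  obtain ⟨p, k0, K1, hp, hk0, hK1, hmain⟩ := low_core c1 A hc1 hA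
  refine ⟨p, k0, K1, hp, hk0, hK1, fun τ hτ => ?_⟩
  obtain ⟨s, ρ0, hs, hsτ, hs1, hρ0, hmain⟩ := hmain (1 / 2 * τ) (by positivity)
  refine ⟨ρ0, hρ0, fun ρ hρ hρ1 => ?_⟩
  obtain ⟨g6, hmain⟩ := hmain ρ hρ hρ1
  refine ⟨g6.trans hsτ, fun P O O' Y Y' W h hp1 hq1 hO hO' hl hl' hY hY' hD0 hD1 ht0 ht1 => ?_⟩
  filter_upwards [hmain] with N hN ψ ψ' hψ hψ' hψ1 hψ1' hm hm' n hn h1 h2
  rw [ev_zero] at hm hm'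
  have e1 := edr_c3 (s := s) (S := (Nm N : ℝ)) (T := uT (Nm N)) (ψ := ψ) hρ hτ hp1 hO hY (by linarith) hl hm
    fun b => ⟨hψ b, hψ1 b⟩
  have e2 := edr_c3 (s := s) (S := (Nm N : ℝ)) (T := uT (Nm N)) (ψ := ψ') hρ hτ hq1 hO' hY' (by linarith) hl' hm'
    fun b => ⟨hψ' b, hψ1' b⟩
  refine hN n hn h1 h2 _ _ _ _ _ _ W ψ ψ' _ e1 e2 hD0 hD1 ht0 ht1 ((Prm.C3 h hψ hψ' (Nm N)).Gam_nn N)
    fun a ha b hb U hU b' hb' a' ha' _ => ?_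
  have m1 : a ∈ P.T0p (Nm N) := by
    unfold Prm.T0p
    rw [ev_zero]
    exact ha
  have m2 : a' ∈ P.T0q (Nm N) := by
    unfold Prm.T0q
    rw [ev_zero]
    exact ha'
  have m3 : b ∈ OtB (ev 0) O (Nm N) (uT (Nm N)) := by
    rw [ev_zero]
    exact hb.1
  have m4 : b' ∈ OtB (ev 0) O' (Nm N) (uT (Nm N)) := by
    rw [ev_zero]
    exact hb'.1
  have m5 : U ∈ Prm.Rs3 Y Y' W (Nm N) := by
    unfold Prm.Rs3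
    rw [ev_zero]
    exact hU
  have m6 : a ++ b ∈ P.T3p O (Nm N) := ⟨a, m1, b, m3, rfl⟩
  have m7 : a' ++ b' ∈ P.T3q O' (Nm N) := ⟨a', m2, b', m4, rfl⟩
  have m8 := gam_geW (C := Prm.C3 h hψ hψ' (Nm N)) (N := N) (a := a ++ b) (R := U) (a' := a' ++ b') m6 m5 m7
  have e3 : (Prm.C3 h hψ hψ' (Nm N)).f (a ++ b) = ψ b := f3_eq (Prm.un3p (Nm N)) m1 m3
  have e4 : (Prm.C3 h hψ hψ' (Nm N)).f' (a' ++ b') = ψ' b' := f3_eq (Prm.un3q (Nm N)) m2 m4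
  have e5 : (Prm.C3 h hψ hψ' (Nm N)).w U = 1 := rfl
  rw [e3, e4, e5, one_mul, List.reverse_append, List.append_assoc] at m8
  exact m8

/-- **the shares of the classes with three gates at each end**, all data near the base data -/
theorem low_c3 (A c1 : ℝ) (hA : 0 < A) (hc1 : 0 < c1) : ∃ p k0 K1 : ℝ, 0 < p ∧ 0 < k0 ∧ 0 < K1 ∧ ∀ τ : ℝ, 0 < τ →
    ∃ ρ0 : ℝ, 0 < ρ0 ∧ ∀ ρ : ℝ, 0 < ρ → ρ ≤ ρ0 →
      ∀ (P : Prm) (O O' : Ot) (Y Y' : Tp) (W : Wn) (h : C3Ok P O O' Y Y' W), P.p.Nr (bE ρ τ) → P.q.Nr (bE ρ τ) →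
        O.Nr (bO ρ τ) → O'.Nr (bO ρ τ) → Y.Nr (bY ρ τ) → Y'.Nr (bY ρ τ) → W.D0 ≤ k0 → K1 ≤ W.D1 → W.t0 ≤ k0 → K1 ≤ W.t1 →
            ∀ᶠ N : ℕ in atTop, ∀ (ψ ψ' : W3 → ℝ) (hψ : ∀ b, 0 ≤ ψ b) (hψ' : ∀ b, 0 ≤ ψ' b), (∀ b, ψ b ≤ 1) → (∀ b, ψ' b ≤ 1) →
              ENNReal.ofReal c1 ≤ Sb {b | b ∈ OtB (ev 0) O (Nm N) (uT (Nm N)) ∧
                (b.length : ℝ) ≤ A * (ρ * Nm N) ^ (4 / 3 : ℝ)} (fun b => ENNReal.ofReal (ψ b)) →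
              ENNReal.ofReal c1 ≤ Sb {b | b ∈ OtB (ev 0) O' (Nm N) (uT (Nm N)) ∧
                (b.length : ℝ) ≤ A * (ρ * Nm N) ^ (4 / 3 : ℝ)} (fun b => ENNReal.ofReal (ψ' b)) →
              ∀ n : ℕ, Even n → (N : ℝ) / 2 ≤ n → (n : ℝ) ≤ 2 * N →
                p * (saw n).card ≤ ∑ s ∈ saw n, F3E.Gam ((Prm.C3 h hψ hψ' (Nm N)).G N fun _ => 1) (List.ofFn s) := by
  obtain ⟨p, k0, K1, hp, hk0, hK1, hmain⟩ := low_c3' c1 A hc1 hA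
  refine ⟨p, k0, K1, hp, hk0, hK1, fun τ hτ => ?_⟩
  obtain ⟨ρ0, hρ0, hmain⟩ := hmain τ hτ
  refine ⟨ρ0, hρ0, fun ρ hρ hρ1 P O O' Y Y' W h hp1 hq1 hO hO' hY hY' => ?_⟩
  obtain ⟨g, hmain⟩ := hmain ρ hρ hρ1
  have w : ∀ {O : Ot}, O.Nr (bO ρ τ) → (O.sh8 (99/100 * τ)).Nr (bO ρ τ) ∧ A * ρ ^ (4 / 3 : ℝ) ≤ O.lb := by
    intro O hO
    have l1 : 99/100 * τ ≤ O.lb := hO.lb.1
    refine ⟨⟨hO.m, hO.r, hO.hw, hO.c, hO.κ, hO.e, le_rfl, ?_⟩, by linarith⟩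
    show 99/100 * τ ≤ 101 / 100 * (99/100 * τ)
    linarith
  exact hmain P O O' Y Y' W h hp1 hq1 (w hO).1 (w hO').1 (w hO).2 (w hO').2 hY hY'

end Pool.Agent.ROT.F3
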