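import Mathlib

/-!
# ROT, F3, row C4 (helper17): the triangle with displacements, measurable form

`A`, `B`, `C` = the spaces of the shapes of the arcs of the three classes (behind the last cut), `y1 y2 y3` their displacements,
`E` = the plane, `v` = Lebesgue measure, `D12`, `D13`, `D23` = the pairs of arcs which are disjoint at the relative position `z` (with
`z` and `z + y1 - y2` in the cells), `b1 b2 b3` = the laws of the arcs of the lattice of the last cut, `β1 β2 β3` = the laws of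
(pieces before the last cut, arc) of the other lattice.

* `tri_ae0` : if `a * b = t12 (z, z + y1 - y2)` etc. on disjoint pairs, then every `s` with `s * b = ts (z, z + y1 - y2)` is constant;
* `Par` : the form (PP); `Sup` : the support hypothesis (SUP); `ac_left` : absolute continuity from the existence of companions;
* **`c4`** : `β1` is a product `ν.prod b1`.
Nothing is asked of the densities `t` besides measurability: no product form, no continuity.
-/

set_option autoImplicit false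
set_option linter.unusedSectionVars false

namespace Pool.Agent.ROT.F3

open MeasureTheory Set
open scoped ENNReal

variable {A B C E : Type*} [MeasurableSpace A] [MeasurableSpace B] [MeasurableSpace C] [MeasurableSpace E]
  [AddCommGroup E] [MeasurableAdd₂ E] [MeasurableNeg E]

/-- the compatible triples seen from `a` -/
def Cp (D12 : Set (A × B × E)) (D13 : Set (A × C × E)) (D23 : Set (B × C × E)) (a : A) : Set (B × C × E × E) :=
  {q | (a, q.1, q.2.2.1) ∈ D12 ∧ (a, q.2.1, q.2.2.2) ∈ D13 ∧ (q.1, q.2.1, q.2.2.2 - q.2.2.1) ∈ D23}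

/-- the positions `z12, z13` at the first end and `w12, w13` at the second end -/
def cor (y1 : A → E) (y2 : B → E) (y3 : C → E) (a : A) (q : B × C × E × E) : E × E × E × E :=
  (q.2.2.1, q.2.2.2, q.2.2.1 + y1 a - y2 q.1, q.2.2.2 + y1 a - y3 q.2.1)

/-- the coordinates of the pair `12` -/
def o12 (o : E × E × E × E) : E × E := (o.1, o.2.2.1)

/-- the coordinates of the pair `13` -/
def o13 (o : E × E × E × E) : E × E := (o.2.1, o.2.2.2)

/-- the coordinates of the pair `23` -/
def o23 (o : E × E × E × E) : E × E := (o.2.1 - o.1, o.2.2.2 - o.2.2.1)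

omit [MeasurableAdd₂ E] [MeasurableNeg E] in
lemma m12 : Measurable (o12 : E × E × E × E → E × E) := by
  unfold o12
  fun_prop

omit [MeasurableAdd₂ E] [MeasurableNeg E] in
lemma m13 : Measurable (o13 : E × E × E × E → E × E) := by
  unfold o13
  fun_prop

lemma m23 : Measurable (o23 : E × E × E × E → E × E) := by
  unfold o23
  simp only [sub_eq_add_neg]
  fun_prop

section

variable (β : Measure B) (γ : Measure C) (v : Measure E) [SFinite β] [SFinite γ] [SFinite v]

omit [AddCommGroup E] [MeasurableAdd₂ E] [MeasurableNeg E] in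
lemma q12 : Measure.QuasiMeasurePreserving (fun q : B × C × E × E => (q.1, q.2.2.1)) (β.prod (γ.prod (v.prod v)))
    (β.prod v) := by
  have h : Measure.QuasiMeasurePreserving (fun q : C × E × E => q.2.1) (γ.prod (v.prod v)) v :=
    Measure.quasiMeasurePreserving_fst.comp Measure.quasiMeasurePreserving_snd
  exact QuasiMeasurePreserving.prodMap (Measure.QuasiMeasurePreserving.id β) h

omit [AddCommGroup E] [MeasurableAdd₂ E] [MeasurableNeg E] in
lemma q13 : Measure.QuasiMeasurePreserving (fun q : B × C × E × E => (q.2.1, q.2.2.2)) (β.prod (γ.prod (v.prod v)))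
    (γ.prod v) := by
  have h : Measure.QuasiMeasurePreserving (fun q : C × E × E => (q.1, q.2.2)) (γ.prod (v.prod v)) (γ.prod v) :=
    QuasiMeasurePreserving.prodMap (Measure.QuasiMeasurePreserving.id γ) Measure.quasiMeasurePreserving_snd
  exact h.comp Measure.quasiMeasurePreserving_snd

lemma q23 [v.IsAddLeftInvariant] : Measure.QuasiMeasurePreserving
    (fun q : B × C × E × E => (q.1, q.2.1, q.2.2.2 - q.2.2.1)) (β.prod (γ.prod (v.prod v))) (β.prod (γ.prod v)) := by
  have h0 : Measure.QuasiMeasurePreserving (fun p : E × E => p.2 - p.1) (v.prod v) v :=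
    (quasiMeasurePreserving_sub v v).comp Measure.measurePreserving_swap.quasiMeasurePreserving
  have h : Measure.QuasiMeasurePreserving (fun q : C × E × E => (q.1, q.2.2 - q.2.1)) (γ.prod (v.prod v)) (γ.prod v) :=
    QuasiMeasurePreserving.prodMap (Measure.QuasiMeasurePreserving.id γ) h0
  exact QuasiMeasurePreserving.prodMap (Measure.QuasiMeasurePreserving.id β) h

end

/-- **the support**: seen from almost every `a` the coordinates of the compatible triples charge everything in `O` -/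
def Sup (α : Measure A) (β : Measure B) (γ : Measure C) (v : Measure E) (D12 : Set (A × B × E)) (D13 : Set (A × C × E))
    (D23 : Set (B × C × E)) (y1 : A → E) (y2 : B → E) (y3 : C → E) (O : Set (E × E × E × E)) : Prop :=
  ∀ᵐ a ∂α, ∀ N : Set (E × E × E × E), MeasurableSet N →
    (β.prod (γ.prod (v.prod v))) (Cp D12 D13 D23 a ∩ cor y1 y2 y3 a ⁻¹' N) = 0 →
      (v.prod (v.prod (v.prod v))) (N ∩ O) = 0

lemma alg {a b c s : ℝ≥0∞} (ha : a ≠ 0) (ha' : a ≠ ∞) (hb : b ≠ 0) (hb' : b ≠ ∞) (hc : c ≠ 0) (hc' : c ≠ ∞) :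
    (s * b) ^ 2 * (a * c) / ((a * b) * (b * c)) = s ^ 2 := by
  have e : (s * b) ^ 2 * (a * c) = s ^ 2 * ((a * b) * (b * c)) := by ring
  rw [e]
  exact ENNReal.mul_div_cancel_right (mul_ne_zero (mul_ne_zero ha hb) (mul_ne_zero hb hc))
    (ENNReal.mul_ne_top (ENNReal.mul_ne_top ha' hb') (ENNReal.mul_ne_top hb' hc'))

lemma pow2_inj {a b : ℝ≥0∞} (h : a ^ 2 = b ^ 2) : a = b := by
  have h1 := congrArg (fun x : ℝ≥0∞ => x ^ ((1 : ℝ) / 2)) h
  simp only [← ENNReal.rpow_natCast, ← ENNReal.rpow_mul] at h1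
  norm_num at h1
  exact h1

/-- **the triangle**: nothing is asked of `a`, `b`, `c` besides finiteness; `t12`, `t23` do not vanish on a part of `O` -/
theorem tri_ae0 (α : Measure A) (β : Measure B) (γ : Measure C) (v : Measure E) [SFinite α] [SFinite β] [SFinite γ]
    [SFinite v] [v.IsAddLeftInvariant] {D12 : Set (A × B × E)} {D13 : Set (A × C × E)} {D23 : Set (B × C × E)}
    {y1 : A → E} {y2 : B → E} {y3 : C → E} {O : Set (E × E × E × E)}
    (hS : Sup α β γ v D12 D13 D23 y1 y2 y3 O) {a s : A → ℝ≥0∞} {b : B → ℝ≥0∞} {c : C → ℝ≥0∞}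
    {t12 t13 t23 ts : E × E → ℝ≥0∞} (k12 : Measurable t12) (k13 : Measurable t13) (k23 : Measurable t23)
    (ks : Measurable ts)
    (hO : (v.prod (v.prod (v.prod v))) ({o | t12 (o12 o) ≠ 0 ∧ t23 (o23 o) ≠ 0} ∩ O) ≠ 0)
    (ha : ∀ᵐ x ∂α, a x ≠ ∞) (hb : ∀ᵐ x ∂β, b x ≠ ∞) (hc : ∀ᵐ x ∂γ, c x ≠ ∞)
    (h12 : ∀ᵐ p ∂(α.prod (β.prod v)), p ∈ D12 → a p.1 * b p.2.1 = t12 (p.2.2, p.2.2 + y1 p.1 - y2 p.2.1))
    (h13 : ∀ᵐ p ∂(α.prod (γ.prod v)), p ∈ D13 → a p.1 * c p.2.1 = t13 (p.2.2, p.2.2 + y1 p.1 - y3 p.2.1))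
    (h23 : ∀ᵐ p ∂(β.prod (γ.prod v)), p ∈ D23 → b p.1 * c p.2.1 = t23 (p.2.2, p.2.2 + y2 p.1 - y3 p.2.1))
    (hs : ∀ᵐ p ∂(α.prod (β.prod v)), p ∈ D12 → s p.1 * b p.2.1 = ts (p.2.2, p.2.2 + y1 p.1 - y2 p.2.1)) :
    ∃ κ : ℝ≥0∞, ∀ᵐ x ∂α, s x = κ := by
  obtain ⟨T, hT⟩ : ∃ T : E × E × E × E → ℝ≥0∞, T = fun o => ts (o12 o) ^ 2 * t13 (o13 o) / (t12 (o12 o) * t23 (o23 o)) :=
    ⟨_, rfl⟩
  have mT : Measurable T := by
    rw [hT]
    exact (((ks.comp m12).pow_const 2).mul (k13.comp m13)).div ((k12.comp m12).mul (k23.comp m23))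
  obtain ⟨G, hG⟩ : ∃ G : Set (E × E × E × E), G = {o | t12 (o12 o) ≠ 0 ∧ t23 (o23 o) ≠ 0} := ⟨_, rfl⟩
  have mG : MeasurableSet G := by
    rw [hG]
    exact (measurableSet_eq_fun (k12.comp m12) measurable_const).compl.inter
      (measurableSet_eq_fun (k23.comp m23) measurable_const).compl
  rw [← hG] at hO
  -- every good arc sees the constant `s x ^ 2`
  have key : ∀ᵐ x ∂α, (v.prod (v.prod (v.prod v))) (({o | T o ≠ s x ^ 2} ∩ G) ∩ O) = 0 := by
    filter_upwards [hS, ha, Measure.ae_ae_of_ae_prod h12, Measure.ae_ae_of_ae_prod h13, Measure.ae_ae_of_ae_prod hs]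
      with x hx hax g12 g13 gs
    refine hx _ ((measurableSet_eq_fun mT measurable_const).compl.inter mG) ?_
    have e12 := (q12 β γ v).ae g12
    have es := (q12 β γ v).ae gs
    have e13 := (q13 β γ v).ae g13
    have e23 := (q23 β γ v).ae h23
    have eb : ∀ᵐ q ∂(β.prod (γ.prod (v.prod v))), b q.1 ≠ ∞ :=
      Measure.quasiMeasurePreserving_fst.ae hb
    have ec : ∀ᵐ q ∂(β.prod (γ.prod (v.prod v))), c q.2.1 ≠ ∞ :=
      (Measure.quasiMeasurePreserving_fst.comp Measure.quasiMeasurePreserving_snd).ae hc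
    rw [← compl_mem_ae_iff]
    filter_upwards [e12, es, e13, e23, eb, ec] with q f12 fs f13 f23 fb fc
    rintro ⟨⟨d12, d13, d23⟩, hN, hq⟩
    apply hN
    rw [hG] at hq
    obtain ⟨q1, q2⟩ := hq
    rw [hT]
    have f12 := f12 d12
    have fs := fs d12
    have f13 := f13 d13
    have f23 := f23 d23
    have w : q.2.2.2 - q.2.2.1 + y2 q.1 - y3 q.2.1 =
        q.2.2.2 + y1 x - y3 q.2.1 - (q.2.2.1 + y1 x - y2 q.1) := by abel
    have q1 : t12 (q.2.2.1, q.2.2.1 + y1 x - y2 q.1) ≠ 0 := q1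
    have q2 : t23 (q.2.2.2 - q.2.2.1, q.2.2.2 + y1 x - y3 q.2.1 - (q.2.2.1 + y1 x - y2 q.1)) ≠ 0 := q2
    show ts (q.2.2.1, q.2.2.1 + y1 x - y2 q.1) ^ 2 * t13 (q.2.2.2, q.2.2.2 + y1 x - y3 q.2.1) /
      (t12 (q.2.2.1, q.2.2.1 + y1 x - y2 q.1) *
        t23 (q.2.2.2 - q.2.2.1, q.2.2.2 + y1 x - y3 q.2.1 - (q.2.2.1 + y1 x - y2 q.1))) = s x ^ 2
    rw [← w] at q2 ⊢
    rw [← f12] at q1
    rw [← f23] at q2
    rw [← f12, ← fs, ← f13, ← f23]
    exact alg (left_ne_zero_of_mul q1) hax (left_ne_zero_of_mul q2) fb (right_ne_zero_of_mul q2) fc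
  by_cases h0 : α = 0
  · exact ⟨0, by simp [h0]⟩
  have hne : (ae α).NeBot := ae_neBot.2 h0
  obtain ⟨x0, hx0⟩ := key.exists
  refine ⟨s x0, ?_⟩
  filter_upwards [key] with x hx
  by_contra hne
  apply hO
  have hsub : G ∩ O ⊆ (({o | T o ≠ s x ^ 2} ∩ G) ∩ O) ∪ (({o | T o ≠ s x0 ^ 2} ∩ G) ∩ O) := by
    rintro o ⟨hg, ho⟩
    by_cases h : T o = s x ^ 2
    · refine Or.inr ⟨⟨?_, hg⟩, ho⟩
      intro h'
      exact hne (pow2_inj (h.symm.trans h'))
    · exact Or.inl ⟨⟨h, hg⟩, ho⟩
  exact measure_mono_null hsub (measure_union_null hx hx0)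

/-! ### the measure form -/

/-- **(PP)**: on the pairs of `D` the product of `m`, `n`, `v` has against `b1`, `b2`, `v` the density `t (z, z + y1 - y2)` -/
def Par (t : E × E → ℝ≥0∞) (m b1 : Measure A) (n b2 : Measure B) (v : Measure E) (D : Set (A × B × E)) (y1 : A → E)
    (y2 : B → E) : Prop :=
  Measurable t ∧ (m.prod (n.prod v)).restrict D =
    ((b1.prod (b2.prod v)).restrict D).withDensity fun p => t (p.2.2, p.2.2 + y1 p.1 - y2 p.2.1)

lemma par_meas {t : E × E → ℝ≥0∞} (ht : Measurable t) {y1 : A → E} {y2 : B → E} (h1 : Measurable y1)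
    (h2 : Measurable y2) : Measurable fun p : A × B × E => t (p.2.2, p.2.2 + y1 p.1 - y2 p.2.1) := by
  refine ht.comp ?_
  simp only [sub_eq_add_neg]
  fun_prop

lemma par_ae {t : E × E → ℝ≥0∞} {m b1 : Measure A} {n b2 : Measure B} {v : Measure E} [SigmaFinite m] [SigmaFinite b1]
    [SigmaFinite n] [SigmaFinite b2] [SigmaFinite v] {D : Set (A × B × E)} (hD : MeasurableSet D) {y1 : A → E}
    {y2 : B → E} (h1 : Measurable y1) (h2 : Measurable y2) (hm : m ≪ b1) (hn : n ≪ b2)
    (h : Par t m b1 n b2 v D y1 y2) : ∀ᵐ p ∂(b1.prod (b2.prod v)), p ∈ D →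
      m.rnDeriv b1 p.1 * n.rnDeriv b2 p.2.1 = t (p.2.2, p.2.2 + y1 p.1 - y2 p.2.1) := by
  obtain ⟨ht, h⟩ := h
  have e1 : m.prod (n.prod v) = (b1.prod (b2.prod v)).withDensity
      (fun p => m.rnDeriv b1 p.1 * n.rnDeriv b2 p.2.1) := by
    have f1 : n.prod v = (b2.prod v).withDensity (fun p => n.rnDeriv b2 p.1) := by
      conv_lhs => rw [← Measure.withDensity_rnDeriv_eq n b2 hn]
      exact prod_withDensity_left (Measure.measurable_rnDeriv _ _)
    conv_lhs => rw [← Measure.withDensity_rnDeriv_eq m b1 hm, f1]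
    exact prod_withDensity (Measure.measurable_rnDeriv _ _)
      ((Measure.measurable_rnDeriv n b2).comp measurable_fst)
  rw [e1, restrict_withDensity hD] at h
  have g := (withDensity_eq_iff_of_sigmaFinite (by fun_prop) (par_meas ht h1 h2).aemeasurable).1 h
  rw [Filter.EventuallyEq, ae_restrict_iff' hD] at g
  exact g

/-- `m` is absolutely continuous as soon as `m`-almost every arc has companions -/
lemma ac_left {t : E × E → ℝ≥0∞} {m b1 : Measure A} {n b2 : Measure B} {v : Measure E} [SigmaFinite m]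
    [SigmaFinite n] [SigmaFinite b1] [SigmaFinite b2] [SigmaFinite v] {D : Set (A × B × E)} (hD : MeasurableSet D)
    {y1 : A → E} {y2 : B → E} (h : Par t m b1 n b2 v D y1 y2) (hp : ∀ᵐ x ∂m, (n.prod v) {q | (x, q) ∈ D} ≠ 0) :
    m ≪ b1 := by
  refine Measure.AbsolutelyContinuous.mk fun U hU h0 => ?_
  have e1 : (m.prod (n.prod v)) (D ∩ Prod.fst ⁻¹' U) = 0 := by
    have e2 : ((m.prod (n.prod v)).restrict D) (Prod.fst ⁻¹' U) = 0 := by
      rw [h.2]
      refine withDensity_absolutelyContinuous _ _ ?_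
      rw [Measure.restrict_apply (measurable_fst hU)]
      refine measure_mono_null inter_subset_left ?_
      have e3 : (Prod.fst ⁻¹' U : Set (A × B × E)) = U ×ˢ univ := by
        ext p
        simp
      rw [e3, Measure.prod_prod, h0, zero_mul]
    rw [Measure.restrict_apply (measurable_fst hU), inter_comm] at e2
    exact e2
  rw [Measure.measure_prod_null (hD.inter (measurable_fst hU))] at e1
  have e4 : ∀ᵐ x ∂m, x ∉ U := by
    filter_upwards [e1, hp] with x h1 h2 hx
    apply h2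
    refine measure_mono_null ?_ h1
    intro q hq
    exact ⟨hq, hx⟩
  rw [ae_iff] at e4
  simpa using e4

/-- **the triangle for measures**: `m1S` is a part of `m1` (for one set `S` of the pieces before the cut) -/
theorem tri_meas {m1 m1S b1 : Measure A} {m2 b2 : Measure B} {m3 b3 : Measure C} {v : Measure E} [SigmaFinite m1]
    [SigmaFinite m1S] [SigmaFinite b1] [SigmaFinite m2] [SigmaFinite b2] [SigmaFinite m3] [SigmaFinite b3]
    [SigmaFinite v] [v.IsAddLeftInvariant] {D12 : Set (A × B × E)} {D13 : Set (A × C × E)} {D23 : Set (B × C × E)}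
    (hD12 : MeasurableSet D12) (hD13 : MeasurableSet D13) (hD23 : MeasurableSet D23) {y1 : A → E} {y2 : B → E}
    {y3 : C → E} (hy1 : Measurable y1) (hy2 : Measurable y2) (hy3 : Measurable y3) {O : Set (E × E × E × E)}
    {t12 t13 t23 tS : E × E → ℝ≥0∞}
    (hO : (v.prod (v.prod (v.prod v))) ({o | t12 (o12 o) ≠ 0 ∧ t23 (o23 o) ≠ 0} ∩ O) ≠ 0)
    (hS : Sup b1 b2 b3 v D12 D13 D23 y1 y2 y3 O) (h1 : m1 ≪ b1) (h1S : m1S ≪ b1) (h2 : m2 ≪ b2) (h3 : m3 ≪ b3)
    (p12 : Par t12 m1 b1 m2 b2 v D12 y1 y2) (p13 : Par t13 m1 b1 m3 b3 v D13 y1 y3)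
    (p23 : Par t23 m2 b2 m3 b3 v D23 y2 y3) (pS : Par tS m1S b1 m2 b2 v D12 y1 y2) : ∃ κ : ℝ≥0∞, m1S = κ • b1 := by
  obtain ⟨κ, hκ⟩ := tri_ae0 b1 b2 b3 v hS p12.1 p13.1 p23.1 pS.1 hO (Measure.rnDeriv_ne_top m1 b1)
    (Measure.rnDeriv_ne_top m2 b2) (Measure.rnDeriv_ne_top m3 b3) (par_ae hD12 hy1 hy2 h1 h2 p12)
    (par_ae hD13 hy1 hy3 h1 h3 p13) (par_ae hD23 hy2 hy3 h2 h3 p23) (par_ae hD12 hy1 hy2 h1S h2 pS)
  refine ⟨κ, ?_⟩
  rw [← Measure.withDensity_rnDeriv_eq m1S b1 h1S, withDensity_congr_ae hκ, withDensity_const]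

/-- the part of the law of the second coordinate with the first coordinate in `S` -/
noncomputable def sec {K : Type*} [MeasurableSpace K] (β : Measure (K × A)) (S : Set K) : Measure A :=
  (β.restrict (Prod.fst ⁻¹' S)).snd

lemma sec_apply {K : Type*} [MeasurableSpace K] (β : Measure (K × A)) {S : Set K} {U : Set A} (hU : MeasurableSet U) :
    sec β S U = β (S ×ˢ U) := by
  unfold sec
  rw [Measure.snd_apply hU, Measure.restrict_apply (measurable_snd hU)]
  congr 1
  ext p
  simp only [mem_inter_iff, mem_preimage, mem_prod]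
  tauto

lemma sec_le {K : Type*} [MeasurableSpace K] (β : Measure (K × A)) (S : Set K) : sec β S ≤ β.snd :=
  Measure.map_mono Measure.restrict_le_self measurable_snd

lemma sec_univ {K : Type*} [MeasurableSpace K] (β : Measure (K × A)) : sec β univ = β.snd := by
  unfold sec
  rw [preimage_univ, Measure.restrict_univ]

/-- a measure all whose parts are multiples of one measure is a product -/
lemma prod_of_sec {K : Type*} [MeasurableSpace K] {β : Measure (K × A)} {b : Measure A} [SigmaFinite b]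
    [SigmaFinite β.snd] (h : ∀ S : Set K, MeasurableSet S → ∃ κ : ℝ≥0∞, sec β S = κ • b) :
    ∃ ν : Measure K, IsFiniteMeasure ν ∧ β = ν.prod b := by
  by_cases hb : b = 0
  · refine ⟨0, inferInstance, ?_⟩
    obtain ⟨κ, hκ⟩ := h univ MeasurableSet.univ
    have h0 : β.snd = 0 := by rw [← sec_univ, hκ, hb, smul_zero]
    have h1 : β univ = 0 := by
      have := congrArg (fun m : Measure A => m univ) h0
      simpa [Measure.snd_apply MeasurableSet.univ] using this
    rw [Measure.measure_univ_eq_zero.1 h1, Measure.zero_prod]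
  · -- a set of positive finite mass
    obtain ⟨U0, hU0, h0, h1⟩ : ∃ U0 : Set A, MeasurableSet U0 ∧ b U0 ≠ 0 ∧ b U0 ≠ ∞ := by
      by_contra hcon
      push Not at hcon
      apply hb
      rw [← Measure.measure_univ_eq_zero]
      have e := iUnion_spanningSets b
      rw [← e]
      refine measure_iUnion_null fun i => ?_
      by_contra h2
      exact (measure_spanningSets_lt_top b i).ne (hcon _ (measurableSet_spanningSets b i) h2)
    choose κ hκ using h
    have hfin : κ univ MeasurableSet.univ ≠ ∞ := by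
      intro hinf
      have h2 : ∀ i, b (spanningSets β.snd i) = 0 := by
        intro i
        by_contra h3
        have h4 := measure_spanningSets_lt_top β.snd i
        have h6 : β.snd = κ univ MeasurableSet.univ • b := by rw [← sec_univ, hκ univ MeasurableSet.univ]
        have h5 : β.snd (spanningSets β.snd i) = ∞ := by
          have h7 := congrArg (fun m : Measure A => m (spanningSets β.snd i)) h6
          rw [h7]
          show (κ univ MeasurableSet.univ • b) (spanningSets β.snd i) = ∞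
          rw [Measure.smul_apply, smul_eq_mul, hinf, ENNReal.top_mul h3]
        exact h4.ne h5
      apply hb
      rw [← Measure.measure_univ_eq_zero, ← iUnion_spanningSets β.snd]
      exact measure_iUnion_null h2
    obtain ⟨ν, hν⟩ : ∃ ν : Measure K, ν = (b U0)⁻¹ • (β.restrict (Prod.snd ⁻¹' U0)).fst := ⟨_, rfl⟩
    have e1 : ∀ (S : Set K) (hS : MeasurableSet S), ν S = κ S hS := by
      intro S hS
      have e2 : (β.restrict (Prod.snd ⁻¹' U0)).fst S = sec β S U0 := by
        rw [sec_apply β hU0, Measure.fst_apply hS, Measure.restrict_apply (measurable_fst hS)]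
        rfl
      rw [hν, Measure.smul_apply, e2, hκ S hS, Measure.smul_apply, smul_eq_mul, smul_eq_mul, mul_comm (κ S hS),
        ← mul_assoc, ENNReal.inv_mul_cancel h0 h1, one_mul]
    have hνf : IsFiniteMeasure ν := ⟨by rw [e1 univ MeasurableSet.univ]; exact lt_top_iff_ne_top.2 hfin⟩
    refine ⟨ν, hνf, (Measure.prod_eq fun S U hS hU => ?_).symm⟩
    rw [← sec_apply β hU, hκ S hS, Measure.smul_apply, smul_eq_mul, e1 S hS]

/-- **C4 (measurable form)** -/
theorem c4 {K1 K2 K3 : Type*} [MeasurableSpace K1] [MeasurableSpace K2] [MeasurableSpace K3] {β1 : Measure (K1 × A)}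
    {β2 : Measure (K2 × B)} {β3 : Measure (K3 × C)} {b1 : Measure A} {b2 : Measure B} {b3 : Measure C} {v : Measure E}
    [SigmaFinite β1.snd] [SigmaFinite b1] [SigmaFinite β2.snd] [SigmaFinite b2] [SigmaFinite β3.snd] [SigmaFinite b3]
    [SigmaFinite v] [v.IsAddLeftInvariant] {D12 : Set (A × B × E)} {D13 : Set (A × C × E)} {D23 : Set (B × C × E)}
    (hD12 : MeasurableSet D12) (hD13 : MeasurableSet D13) (hD23 : MeasurableSet D23) {y1 : A → E} {y2 : B → E}
    {y3 : C → E} (hy1 : Measurable y1) (hy2 : Measurable y2) (hy3 : Measurable y3) {O : Set (E × E × E × E)}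
    {t12 t13 t23 : E × E → ℝ≥0∞}
    (hO : (v.prod (v.prod (v.prod v))) ({o | t12 (o12 o) ≠ 0 ∧ t23 (o23 o) ≠ 0} ∩ O) ≠ 0)
    (hS : Sup b1 b2 b3 v D12 D13 D23 y1 y2 y3 O) (h1 : β1.snd ≪ b1) (h2 : β2.snd ≪ b2) (h3 : β3.snd ≪ b3)
    (p12 : Par t12 β1.snd b1 β2.snd b2 v D12 y1 y2) (p13 : Par t13 β1.snd b1 β3.snd b3 v D13 y1 y3)
    (p23 : Par t23 β2.snd b2 β3.snd b3 v D23 y2 y3)
    (pS : ∀ S : Set K1, MeasurableSet S → ∃ tS, Par tS (sec β1 S) b1 β2.snd b2 v D12 y1 y2) :
    ∃ ν : Measure K1, IsFiniteMeasure ν ∧ β1 = ν.prod b1 := by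
  refine prod_of_sec fun S hSm => ?_
  have : SigmaFinite (sec β1 S) := Measure.sigmaFinite_of_le β1.snd (sec_le β1 S)
  obtain ⟨tS, e⟩ := pS S hSm
  exact tri_meas hD12 hD13 hD23 hy1 hy2 hy3 hO hS h1 ((sec_le β1 S).absolutelyContinuous.trans h1) h2 h3 p12
    p13 p23 e

end Pool.Agent.ROT.F3
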