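import Pool.Agent.ROT.F3C4

/-!
# ROT, F3, row C4, second part (helper17): (PP) from the two lattices

* `Gd μ q ρ` : the measure `ρ` has against `μ` a density which is a function of `q`; closed under sums, differences, monotone limits;
* `gd_fun` : if `(P|(c in M)).map π` is good for `M` in a π-system, then `(P.withDensity (ψ ∘ c)).map π` is good for every measurable `ψ`;
* **`par_of`** : the form (PP) of `F3C4` from the form C3 for both lattices.
-/

set_option autoImplicit false
set_option linter.unusedSectionVars false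

namespace Pool.Agent.ROT.F3

open MeasureTheory Set
open scoped ENNReal

section Gd

variable {X Y Z L : Type*} [MeasurableSpace X] [MeasurableSpace Y] [MeasurableSpace Z] [MeasurableSpace L]

/-- `ρ` has a density which is a function of `q` -/
def Gd (μ : Measure Y) (q : Y → Z) (ρ : Measure Y) : Prop := ∃ t : Z → ℝ≥0∞, Measurable t ∧ ρ = μ.withDensity (t ∘ q)

variable {μ : Measure Y} {q : Y → Z}

lemma gd_zero : Gd μ q 0 := ⟨fun _ => 0, measurable_const, by
  have : ((fun _ : Z => (0 : ℝ≥0∞)) ∘ q) = fun _ => 0 := rfl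
  rw [this, withDensity_const, zero_smul]⟩

lemma gd_add (hq : Measurable q) {ρ σ : Measure Y} (h1 : Gd μ q ρ) (h2 : Gd μ q σ) : Gd μ q (ρ + σ) := by
  obtain ⟨t, ht, rfl⟩ := h1
  obtain ⟨u, hu, rfl⟩ := h2
  refine ⟨t + u, ht.add hu, ?_⟩
  rw [← withDensity_add_left (ht.comp hq)]
  rfl

lemma gd_smul (hq : Measurable q) {ρ : Measure Y} (c : ℝ≥0∞) (h : Gd μ q ρ) : Gd μ q (c • ρ) := by
  obtain ⟨t, ht, rfl⟩ := h
  refine ⟨c • t, ht.const_smul c, ?_⟩
  rw [← withDensity_smul c (ht.comp hq)]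
  rfl

lemma gd_sum (hq : Measurable q) {ρ : ℕ → Measure Y} (h : ∀ i, Gd μ q (ρ i)) : Gd μ q (Measure.sum ρ) := by
  choose t ht e using h
  refine ⟨∑' n, t n, Measurable.tsum' ht, ?_⟩
  have e1 : ((∑' n, t n) ∘ q) = ∑' n, (t n ∘ q) := by
    funext y
    rw [Function.comp_apply, ENNReal.tsum_apply, ENNReal.tsum_apply]
    rfl
  rw [e1, withDensity_tsum fun i => (ht i).comp hq]
  congr 1
  funext i
  exact e i

lemma gd_mono [SigmaFinite μ] {t u : Y → ℝ≥0∞} (ht : Measurable t) (h : μ.withDensity t ≤ μ.withDensity u) :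
    t ≤ᵐ[μ] u := by
  refine ae_le_of_forall_setLIntegral_le_of_sigmaFinite ht fun s hs _ => ?_
  rw [← withDensity_apply _ hs, ← withDensity_apply _ hs]
  exact h s

lemma gd_sub [SigmaFinite μ] (hq : Measurable q) {ρ σ τ : Measure Y} [IsFiniteMeasure σ] (h1 : Gd μ q ρ)
    (h2 : Gd μ q σ) (e : σ + τ = ρ) : Gd μ q τ := by
  obtain ⟨t, ht, et⟩ := h1
  obtain ⟨u, hu, eu⟩ := h2
  refine ⟨t - u, ht.sub hu, ?_⟩
  have hle : u ∘ q ≤ᵐ[μ] t ∘ q := by
    refine gd_mono (hu.comp hq) ?_
    rw [← et, ← eu, ← e]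
    exact Measure.le_add_right le_rfl
  have e2 : μ.withDensity ((t - u) ∘ q) + σ = ρ := by
    rw [eu, ← withDensity_add_left ((ht.sub hu).comp hq), et]
    refine withDensity_congr_ae ?_
    filter_upwards [hle] with y hy
    show t (q y) - u (q y) + u (q y) = t (q y)
    exact tsub_add_cancel_of_le hy
  ext s hs
  have g1 := congrArg (fun m : Measure Y => m s) (e2.trans e.symm)
  simp only [Measure.add_apply] at g1
  have g2 : σ s ≠ ∞ := measure_ne_top σ s
  rw [add_comm (σ s)] at g1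
  exact ((ENNReal.add_left_inj g2).1 g1).symm

lemma gd_iSup [SigmaFinite μ] (hq : Measurable q) {ρ : ℕ → Measure Y} {σ : Measure Y} (h : ∀ i, Gd μ q (ρ i))
    (hm : Monotone ρ) (hσ : ∀ s, MeasurableSet s → σ s = ⨆ i, ρ i s) : Gd μ q σ := by
  choose t ht e using h
  refine ⟨fun z => ⨆ i, t i z, Measurable.iSup ht, ?_⟩
  ext s hs
  rw [hσ s hs, withDensity_apply _ hs]
  have e1 : ∫⁻ y in s, ((fun z => ⨆ i, t i z) ∘ q) y ∂μ = ⨆ i, ∫⁻ y in s, (t i ∘ q) y ∂μ := by
    refine lintegral_iSup_ae (fun i => (ht i).comp hq) fun i => ?_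
    refine ae_restrict_of_ae ?_
    refine gd_mono ((ht i).comp hq) ?_
    have g := hm (Nat.le_succ i)
    rw [e i, e (i + 1)] at g
    exact g
  rw [e1]
  congr 1
  funext i
  rw [← withDensity_apply _ hs, ← e i]

/-- **from a π-system to all sets** -/
lemma gd_set [SigmaFinite μ] (hq : Measurable q) {P : Measure X} [IsFiniteMeasure P] {c : X → L} (hc : Measurable c)
    {π : X → Y} (hπ : Measurable π) {C : Set (Set L)} (hC : ‹MeasurableSpace L› = MeasurableSpace.generateFrom C)
    (hpi : IsPiSystem C) (hu : Gd μ q (P.map π)) (h : ∀ M ∈ C, Gd μ q ((P.restrict (c ⁻¹' M)).map π))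
    {M : Set L} (hM : MeasurableSet M) : Gd μ q ((P.restrict (c ⁻¹' M)).map π) := by
  refine MeasurableSpace.induction_on_inter hC hpi ?_ h ?_ ?_ M hM
  · rw [preimage_empty, Measure.restrict_empty, Measure.map_zero]
    exact gd_zero
  · intro t ht h
    have : IsFiniteMeasure ((P.restrict (c ⁻¹' t)).map π) := Measure.isFiniteMeasure_map _ _
    refine gd_sub hq hu h ?_
    rw [← Measure.map_add _ _ hπ, preimage_compl, Measure.restrict_add_restrict_compl (hc ht)]
  · intro f hd hf h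
    have e : (P.restrict (c ⁻¹' ⋃ i, f i)).map π = Measure.sum fun i => (P.restrict (c ⁻¹' f i)).map π := by
      rw [preimage_iUnion, Measure.restrict_iUnion (fun i j hij => (hd hij).preimage c) fun i => hc (hf i),
        Measure.map_sum hπ.aemeasurable]
    rw [e]
    exact gd_sum hq h

/-- **from sets to functions** -/
lemma gd_fun [SigmaFinite μ] (hq : Measurable q) {P : Measure X} {c : X → L} (hc : Measurable c) {π : X → Y}
    (hπ : Measurable π) (h : ∀ M : Set L, MeasurableSet M → Gd μ q ((P.restrict (c ⁻¹' M)).map π))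
    {ψ : L → ℝ≥0∞} (hψ : Measurable ψ) : Gd μ q ((P.withDensity (ψ ∘ c)).map π) := by
  refine Measurable.ennreal_induction (motive := fun ψ => Gd μ q ((P.withDensity (ψ ∘ c)).map π)) ?_ ?_ ?_ hψ
  · intro r s hs
    have e : (s.indicator fun _ => r) ∘ c = (c ⁻¹' s).indicator fun _ => r := rfl
    have e1 : (P.withDensity ((s.indicator fun _ => r) ∘ c)).map π = r • (P.restrict (c ⁻¹' s)).map π := by
      rw [e, withDensity_indicator (hc hs), withDensity_const, Measure.map_smul]
    simp only [e1]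
    exact gd_smul hq r (h s hs)
  · intro f g _ hf hg h1 h2
    have e : (P.withDensity ((f + g) ∘ c)).map π = (P.withDensity (f ∘ c)).map π + (P.withDensity (g ∘ c)).map π := by
      rw [← Measure.map_add _ _ hπ, ← withDensity_add_left (hf.comp hc)]
      rfl
    simp only [e]
    exact gd_add hq h1 h2
  · intro f hf hmono h1
    refine gd_iSup hq h1 ?_ ?_
    · intro i j hij
      refine Measure.map_mono ?_ hπ
      exact withDensity_mono (Filter.Eventually.of_forall fun x => hmono hij (c x))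
    · intro s hs
      rw [Measure.map_apply hπ hs, withDensity_apply _ (hπ hs)]
      have e1 : ∫⁻ x in π ⁻¹' s, ((fun y => ⨆ n, f n y) ∘ c) x ∂P = ⨆ n, ∫⁻ x in π ⁻¹' s, (f n ∘ c) x ∂P :=
        lintegral_iSup (fun n => (hf n).comp hc) fun i j hij x => hmono hij (c x)
      rw [e1]
      congr 1
      funext n
      rw [Measure.map_apply hπ hs, withDensity_apply _ (hπ hs)]

end Gd

section par

variable {A B E K1 K2 : Type*} [MeasurableSpace A] [MeasurableSpace B] [MeasurableSpace E] [MeasurableSpace K1]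
  [MeasurableSpace K2] [AddCommGroup E] [MeasurableAdd₂ E] [MeasurableNeg E]

/-- forget the pieces before the cuts -/
def pi3 (p : (K1 × A) × ((K2 × B) × E)) : A × B × E := (p.1.2, p.2.1.2, p.2.2)

/-- the pieces before the cuts -/
def kk (p : (K1 × A) × ((K2 × B) × E)) : K1 × K2 := (p.1.1, p.2.1.1)

/-- the two relative positions -/
def zw (y1 : A → E) (y2 : B → E) (p : A × B × E) : E × E := (p.2.2, p.2.2 + y1 p.1 - y2 p.2.1)

omit [AddCommGroup E] [MeasurableAdd₂ E] [MeasurableNeg E] in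
lemma pi3_meas : Measurable (pi3 : (K1 × A) × ((K2 × B) × E) → A × B × E) := by
  unfold pi3
  fun_prop

omit [AddCommGroup E] [MeasurableAdd₂ E] [MeasurableNeg E] in
lemma kk_meas : Measurable (kk : (K1 × A) × ((K2 × B) × E) → K1 × K2) := by
  unfold kk
  fun_prop

lemma zw_meas {y1 : A → E} {y2 : B → E} (h1 : Measurable y1) (h2 : Measurable y2) : Measurable (zw y1 y2) := by
  unfold zw
  simp only [sub_eq_add_neg]
  fun_prop

/-- all data of the density -/
def cc (y1 : A → E) (y2 : B → E) (p : (K1 × A) × ((K2 × B) × E)) : K1 × K2 × (E × E) :=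
  (p.1.1, p.2.1.1, zw y1 y2 (pi3 p))

lemma cc_meas {y1 : A → E} {y2 : B → E} (h1 : Measurable y1) (h2 : Measurable y2) :
    Measurable (cc y1 y2 : (K1 × A) × ((K2 × B) × E) → K1 × K2 × (E × E)) := by
  have := (zw_meas h1 h2).comp (pi3_meas (A := A) (B := B) (E := E) (K1 := K1) (K2 := K2))
  unfold cc
  fun_prop

lemma gd_restrict {Y Z : Type*} [MeasurableSpace Y] [MeasurableSpace Z] {μ : Measure Y} {q : Y → Z} (hq : Measurable q)
    {ρ : Measure Y} (h : Gd μ q ρ) {V : Set Z} (hV : MeasurableSet V) : Gd μ q (ρ.restrict (q ⁻¹' V)) := by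
  obtain ⟨t, ht, rfl⟩ := h
  refine ⟨V.indicator t, ht.indicator hV, ?_⟩
  rw [restrict_withDensity (hq hV)]
  have e : V.indicator t ∘ q = (q ⁻¹' V).indicator (t ∘ q) := rfl
  rw [e, withDensity_indicator (hq hV)]

/-- **(PP) from the form C3 of the two lattices**. `P` = the law of the pair of arcs (one lattice: density `G0 (k, k', z, w)` against
`β1`, `β2`, `v`; other lattice: for `k` in `S`, `k'` in `S'` density a function of `(z, w)` against `b1`, `b2`, `v`) -/
theorem par_of {β1 : Measure (K1 × A)} {β2 : Measure (K2 × B)} {b1 : Measure A} {b2 : Measure B} {v : Measure E}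
    [SFinite β1] [SFinite β2] [SigmaFinite b1] [SigmaFinite b2] [SigmaFinite v] {D : Set (A × B × E)}
    (hD : MeasurableSet D) {y1 : A → E} {y2 : B → E} (h1 : Measurable y1) (h2 : Measurable y2)
    {P : Measure ((K1 × A) × ((K2 × B) × E))} [IsFiniteMeasure P] {G0 : K1 × K2 × (E × E) → ℝ≥0∞} (mG : Measurable G0)
    (h0 : P = ((β1.prod (β2.prod v)).restrict (pi3 ⁻¹' D)).withDensity (G0 ∘ cc y1 y2))
    (hG : ∀ᵐ p ∂((β1.prod (β2.prod v)).restrict (pi3 ⁻¹' D)), G0 (cc y1 y2 p) ≠ 0 ∧ G0 (cc y1 y2 p) ≠ ∞)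
    (hR : ∀ S S', MeasurableSet S → MeasurableSet S' →
      Gd ((b1.prod (b2.prod v)).restrict D) (zw y1 y2) ((P.restrict (kk ⁻¹' (S ×ˢ S'))).map pi3))
    {S : Set K1} (hS : MeasurableSet S) : ∃ t, Par t (sec β1 S) b1 β2.snd b2 v D y1 y2 := by
  have hq := zw_meas (A := A) (B := B) h1 h2
  have hc := cc_meas (A := A) (B := B) (K1 := K1) (K2 := K2) h1 h2
  have hπ := pi3_meas (A := A) (B := B) (E := E) (K1 := K1) (K2 := K2)
  have hk := kk_meas (A := A) (B := B) (E := E) (K1 := K1) (K2 := K2)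
  -- all sets
  have hset : ∀ M : Set (K1 × K2 × (E × E)), MeasurableSet M →
      Gd ((b1.prod (b2.prod v)).restrict D) (zw y1 y2) ((P.restrict (cc y1 y2 ⁻¹' M)).map pi3) := by
    intro M hM
    let C₂ := image2 (· ×ˢ ·) {t : Set K2 | MeasurableSet t} {u : Set (E × E) | MeasurableSet u}
    let C := image2 (· ×ˢ ·) {s : Set K1 | MeasurableSet s} C₂
    refine gd_set (C := C) hq hc hπ ?_ ?_ ?_ ?_ hM
    · refine (generateFrom_eq_prod (C := {s : Set K1 | MeasurableSet s}) (D := C₂) (by simp)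
        generateFrom_prod isCountablySpanning_measurableSet ?_).symm
      exact isCountablySpanning_measurableSet.prod isCountablySpanning_measurableSet
    · exact MeasurableSpace.isPiSystem_measurableSet.prod isPiSystem_prod
    · have := hR univ univ MeasurableSet.univ MeasurableSet.univ
      rwa [univ_prod_univ, preimage_univ, Measure.restrict_univ] at this
    · rintro - ⟨s, hs, -, ⟨t, ht, u, hu, rfl⟩, rfl⟩
      have e : cc y1 y2 ⁻¹' (s ×ˢ t ×ˢ u) = (pi3 ⁻¹' (zw y1 y2 ⁻¹' u)) ∩ (kk ⁻¹' (s ×ˢ t)) := by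
        ext p
        simp only [mem_preimage, mem_prod, mem_inter_iff, cc, kk]
        tauto
      have hs : MeasurableSet s := hs
      have ht : MeasurableSet t := ht
      have hu : MeasurableSet u := hu
      show Gd _ _ ((P.restrict (cc y1 y2 ⁻¹' (s ×ˢ t ×ˢ u))).map pi3)
      rw [e, ← Measure.restrict_restrict (hπ (hq hu)), ← Measure.restrict_map hπ (hq hu)]
      exact gd_restrict hq (hR s t hs ht) hu
  -- the function `1 / G0` on `S`
  have mψ : Measurable fun l : K1 × K2 × (E × E) => (Prod.fst ⁻¹' S).indicator (fun l => (G0 l)⁻¹) l :=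
    (mG.inv).indicator (measurable_fst hS)
  obtain ⟨t, ht, e⟩ := gd_fun hq hc hπ hset mψ
  refine ⟨t, ht, ?_⟩
  have e1 : P.withDensity ((fun l : K1 × K2 × (E × E) => (Prod.fst ⁻¹' S).indicator (fun l => (G0 l)⁻¹) l) ∘ cc y1 y2) =
      (((β1.restrict (Prod.fst ⁻¹' S)).prod (β2.prod v)).restrict (pi3 ⁻¹' D)) := by
    rw [h0, ← withDensity_mul _ (mG.comp hc) (mψ.comp hc)]
    have f1 : ((β1.restrict (Prod.fst ⁻¹' S)).prod (β2.prod v)) =
        (β1.prod (β2.prod v)).restrict ((Prod.fst ⁻¹' S) ×ˢ univ) := by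
      rw [← Measure.prod_restrict, Measure.restrict_univ]
    have f2 : MeasurableSet ((Prod.fst ⁻¹' S : Set (K1 × A)) ×ˢ (univ : Set ((K2 × B) × E))) :=
      (measurable_fst hS).prod MeasurableSet.univ
    rw [f1, Measure.restrict_comm (hπ hD), ← withDensity_indicator_one f2]
    refine withDensity_congr_ae ?_
    filter_upwards [hG] with p hp
    by_cases hpS : p.1.1 ∈ S
    · have g1 : p ∈ ((Prod.fst ⁻¹' S : Set (K1 × A)) ×ˢ (univ : Set ((K2 × B) × E))) := ⟨hpS, mem_univ _⟩
      have g2 : cc y1 y2 p ∈ (Prod.fst ⁻¹' S : Set (K1 × K2 × (E × E))) := hpS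
      simp only [Pi.mul_apply, Function.comp_apply]
      rw [indicator_of_mem g2, indicator_of_mem g1, ENNReal.mul_inv_cancel hp.1 hp.2]
      rfl
    · have g1 : p ∉ ((Prod.fst ⁻¹' S : Set (K1 × A)) ×ˢ (univ : Set ((K2 × B) × E))) := fun h => hpS h.1
      have g2 : cc y1 y2 p ∉ (Prod.fst ⁻¹' S : Set (K1 × K2 × (E × E))) := hpS
      simp only [Pi.mul_apply, Function.comp_apply]
      rw [indicator_of_notMem g2, indicator_of_notMem g1, mul_zero]
  rw [e1] at e
  have e2 : ((((β1.restrict (Prod.fst ⁻¹' S)).prod (β2.prod v)).restrict (pi3 ⁻¹' D)).map pi3) =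
      ((sec β1 S).prod (β2.snd.prod v)).restrict D := by
    rw [← Measure.restrict_map hπ hD]
    congr 1
    have f3 : (pi3 : (K1 × A) × ((K2 × B) × E) → A × B × E) = Prod.map Prod.snd (Prod.map Prod.snd id) := rfl
    rw [f3, ← Measure.map_prod_map _ _ measurable_snd (by fun_prop), ← Measure.map_prod_map _ _ measurable_snd
      measurable_id, Measure.map_id]
    rfl
  rw [← e2, e]
  rfl

end par

end Pool.Agent.ROT.F3
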