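import Pool.Agent.ROT.F3C4b

/-!
# ROT, F3, row C4, third part (helper17): the support hypothesis from cells with companions

* **`sup_of`** : `Sup` for `O = Z × Z' × W × W'` from countably many cells `U n` which cover `A`, with companions `V n`, `V' n`:
  everything in `U n × V n × V' n` is compatible at the positions of `Z`, `Z'`, and the displacements of the companions charge
  (Lebesgue) all places `y1 a + z - w`.
-/

set_option autoImplicit false
set_option linter.unusedSectionVars false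

namespace Pool.Agent.ROT.F3

open MeasureTheory Set
open scoped ENNReal

variable {A B C E : Type*} [MeasurableSpace A] [MeasurableSpace B] [MeasurableSpace C] [MeasurableSpace E]
  [AddCommGroup E] [MeasurableAdd₂ E] [MeasurableNeg E]

/-- one cell -/
lemma sup_cell {b2 : Measure B} {b3 : Measure C} {v : Measure E} [SFinite b2] [SFinite b3] [SFinite v]
    [v.IsAddLeftInvariant] {D12 : Set (A × B × E)} {D13 : Set (A × C × E)} {D23 : Set (B × C × E)} {y1 : A → E}
    {y2 : B → E} {y3 : C → E} (h2 : Measurable y2) (h3 : Measurable y3) {a : A} {V : Set B} {V' : Set C}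
    {Z Z' W W' T T' : Set E} (hV : MeasurableSet V) (hV' : MeasurableSet V')
    (mZ : MeasurableSet Z) (mZ' : MeasurableSet Z') (mW : MeasurableSet W) (mW' : MeasurableSet W')
    (mT : MeasurableSet T) (mT' : MeasurableSet T')
    (hD : ∀ x ∈ V, ∀ x' ∈ V', ∀ z ∈ Z, ∀ z' ∈ Z', (a, x, z) ∈ D12 ∧ (a, x', z') ∈ D13 ∧ (x, x', z' - z) ∈ D23)
    (hT : ∀ z ∈ Z, ∀ w ∈ W, z + y1 a - w ∈ T) (hT' : ∀ z ∈ Z', ∀ w ∈ W', z + y1 a - w ∈ T')
    (l2 : v.restrict T ≪ (b2.restrict V).map y2) (l3 : v.restrict T' ≪ (b3.restrict V').map y3)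
    {N : Set (E × E × E × E)} (hN : MeasurableSet N)
    (h0 : (b2.prod (b3.prod (v.prod v))) (Cp D12 D13 D23 a ∩ cor y1 y2 y3 a ⁻¹' N) = 0) :
    (v.prod (v.prod (v.prod v))) (N ∩ (Z ×ˢ Z' ×ˢ W ×ˢ W')) = 0 := by
  -- reorder
  have r1 : MeasurePreserving (fun p : (E × E) × (B × C) => (p.2.1, p.2.2, p.1)) ((v.prod v).prod (b2.prod b3))
      (b2.prod (b3.prod (v.prod v))) := by
    have e := (measurePreserving_prodAssoc b2 b3 (v.prod v)).comp
      (Measure.measurePreserving_swap (μ := v.prod v) (ν := b2.prod b3))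
    exact e
  have g1 : ∀ᵐ q ∂(b2.prod (b3.prod (v.prod v))), q ∉ Cp D12 D13 D23 a ∩ cor y1 y2 y3 a ⁻¹' N :=
    measure_eq_zero_iff_ae_notMem.1 h0
  have g2 := Measure.ae_ae_of_ae_prod (r1.quasiMeasurePreserving.ae g1)
  -- the statement at one place
  have g3 : ∀ᵐ zz ∂(v.prod v), ∀ᵐ ww ∂(v.prod v),
      (zz.1, zz.2, ww.1, ww.2) ∉ N ∩ (Z ×ˢ Z' ×ˢ W ×ˢ W') := by
    filter_upwards [g2] with zz hz
    by_cases hzz : zz.1 ∈ Z ∧ zz.2 ∈ Z'
    swap
    · exact Filter.Eventually.of_forall fun ww h => hzz ⟨h.2.1, h.2.2.1⟩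
    obtain ⟨M, hM⟩ : ∃ M : Set (E × E), M = {s | (zz.1, zz.2, zz.1 + y1 a - s.1, zz.2 + y1 a - s.2) ∉ N} := ⟨_, rfl⟩
    have mM : MeasurableSet M := by
      rw [hM]
      refine MeasurableSet.compl ?_
      have : Measurable fun s : E × E => (zz.1, zz.2, zz.1 + y1 a - s.1, zz.2 + y1 a - s.2) := by
        simp only [sub_eq_add_neg]
        fun_prop
      exact this hN
    have f1 : ∀ᵐ x ∂((b2.restrict V).prod (b3.restrict V')), (y2 x.1, y3 x.2) ∈ M := by
      rw [Measure.prod_restrict]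
      rw [ae_restrict_iff' (hV.prod hV')]
      filter_upwards [hz] with x hx hxV
      rw [hM]
      intro hxN
      apply hx
      obtain ⟨d1, d2, d3⟩ := hD x.1 hxV.1 x.2 hxV.2 zz.1 hzz.1 zz.2 hzz.2
      exact ⟨⟨d1, d2, d3⟩, hxN⟩
    have f2 : ∀ᵐ s ∂(((b2.restrict V).map y2).prod ((b3.restrict V').map y3)), s ∈ M := by
      rw [Measure.map_prod_map _ _ h2 h3]
      exact (ae_map_iff (h2.prodMap h3).aemeasurable (p := fun s => s ∈ M) mM).2 f1
    have f3 : ∀ᵐ s ∂((v.restrict T).prod (v.restrict T')), s ∈ M := (l2.prod l3).ae_le f2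
    rw [Measure.prod_restrict, ae_restrict_iff' (mT.prod mT')] at f3
    have f4 : Measure.QuasiMeasurePreserving (fun w : E × E => (zz.1 + y1 a - w.1, zz.2 + y1 a - w.2)) (v.prod v)
        (v.prod v) :=
      QuasiMeasurePreserving.prodMap (quasiMeasurePreserving_sub_left v (zz.1 + y1 a))
        (quasiMeasurePreserving_sub_left v (zz.2 + y1 a))
    filter_upwards [f4.ae f3] with w hw
    rintro ⟨hwN, -, -, w1, w2⟩
    have := hw ⟨hT _ hzz.1 _ w1, hT' _ hzz.2 _ w2⟩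
    rw [hM] at this
    apply this
    simpa using hwN
  -- back
  have mN : MeasurableSet (N ∩ (Z ×ˢ Z' ×ˢ W ×ˢ W')) := hN.inter (mZ.prod (mZ'.prod (mW.prod mW')))
  have r2 : MeasurePreserving (fun p : E × E × E × E => ((p.1, p.2.1), p.2.2)) (v.prod (v.prod (v.prod v)))
      ((v.prod v).prod (v.prod v)) := (measurePreserving_prodAssoc v v (v.prod v)).symm _
  have m2 : MeasurableSet {p : (E × E) × (E × E) | (p.1.1, p.1.2, p.2.1, p.2.2) ∉ N ∩ (Z ×ˢ Z' ×ˢ W ×ˢ W')} := by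
    refine MeasurableSet.compl ?_
    have : Measurable fun p : (E × E) × (E × E) => (p.1.1, p.1.2, p.2.1, p.2.2) := by fun_prop
    exact this mN
  have g4 := (Measure.ae_prod_iff_ae_ae m2).2 g3
  exact measure_eq_zero_iff_ae_notMem.2 (r2.quasiMeasurePreserving.ae g4)

/-- **the support hypothesis from cells with companions** -/
theorem sup_of {b1 : Measure A} {b2 : Measure B} {b3 : Measure C} {v : Measure E} [SFinite b2] [SFinite b3]
    [SFinite v] [v.IsAddLeftInvariant] {D12 : Set (A × B × E)} {D13 : Set (A × C × E)} {D23 : Set (B × C × E)}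
    {y1 : A → E} {y2 : B → E} {y3 : C → E} (h2 : Measurable y2) (h3 : Measurable y3) {Z Z' W W' : Set E}
    (mZ : MeasurableSet Z) (mZ' : MeasurableSet Z') (mW : MeasurableSet W) (mW' : MeasurableSet W')
    (h : ∀ᵐ a ∂b1, ∃ (V : Set B) (V' : Set C) (T T' : Set E), MeasurableSet V ∧ MeasurableSet V' ∧ MeasurableSet T ∧
      MeasurableSet T' ∧
      (∀ x ∈ V, ∀ x' ∈ V', ∀ z ∈ Z, ∀ z' ∈ Z', (a, x, z) ∈ D12 ∧ (a, x', z') ∈ D13 ∧ (x, x', z' - z) ∈ D23) ∧
      (∀ z ∈ Z, ∀ w ∈ W, z + y1 a - w ∈ T) ∧ (∀ z ∈ Z', ∀ w ∈ W', z + y1 a - w ∈ T') ∧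
      v.restrict T ≪ (b2.restrict V).map y2 ∧ v.restrict T' ≪ (b3.restrict V').map y3) :
    Sup b1 b2 b3 v D12 D13 D23 y1 y2 y3 (Z ×ˢ Z' ×ˢ W ×ˢ W') := by
  filter_upwards [h] with a ha N hN h0
  obtain ⟨V, V', T, T', mV, mV', mT, mT', hD, hT, hT', l2, l3⟩ := ha
  exact sup_cell h2 h3 mV mV' mZ mZ' mW mW' mT mT' hD hT hT' l2 l3 hN h0

/-- a measure which has at least a positive density on `T` charges `T` -/
lemma ac_of_low {m v : Measure E} {T : Set E} {δ : E → ℝ≥0∞} (hδ : Measurable δ)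
    (hpos : ∀ᵐ z ∂(v.restrict T), δ z ≠ 0) (h : (v.restrict T).withDensity δ ≤ m) : v.restrict T ≪ m := by
  refine Measure.AbsolutelyContinuous.trans ?_ h.absolutelyContinuous
  exact withDensity_absolutelyContinuous' hδ.aemeasurable hpos

end Pool.Agent.ROT.F3
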