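import Pool.Agent.ROT.F3Mid

/-!
# ROT, F3, row C4, fourth part (helper17): the support hypothesis, local form

* **`sup_at`** : for almost every arc `a`, for EVERY point `o = (z, z', w, w')` of `O`, there are companions for the positions near `o`;
* **`mid_loc`** : `mid` with this form.
-/

set_option autoImplicit false
set_option linter.unusedSectionVars false

namespace Pool.Agent.ROT.F3

open MeasureTheory Set TopologicalSpace
open scoped ENNReal Topology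

variable {A B C E : Type*} [MeasurableSpace A] [MeasurableSpace B] [MeasurableSpace C] [MeasurableSpace E]
  [AddCommGroup E] [MeasurableAdd₂ E] [MeasurableNeg E] [TopologicalSpace E] [SecondCountableTopology E]
  [OpensMeasurableSpace E]

/-- companions of `a` for the starts near `z`, `z'` and the ends near `w`, `w'` -/
def CompAt (b2 : Measure B) (b3 : Measure C) (v : Measure E) (D12 : Set (A × (B × E))) (D13 : Set (A × (C × E)))
    (D23 : Set (B × (C × E))) (y1 : A → E) (y2 : B → E) (y3 : C → E) (a : A) (o : E × E × E × E) : Prop :=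
  ∃ (Z Z' W W' T T' : Set E) (V : Set B) (V' : Set C), Z ∈ 𝓝 o.1 ∧ Z' ∈ 𝓝 o.2.1 ∧ W ∈ 𝓝 o.2.2.1 ∧ W' ∈ 𝓝 o.2.2.2 ∧
    MeasurableSet T ∧ MeasurableSet T' ∧ MeasurableSet V ∧ MeasurableSet V' ∧
    (∀ x ∈ V, ∀ x' ∈ V', ∀ z ∈ Z, ∀ z' ∈ Z', (a, x, z) ∈ D12 ∧ (a, x', z') ∈ D13 ∧ (x, x', z' - z) ∈ D23) ∧
    (∀ z ∈ Z, ∀ w ∈ W, z + y1 a - w ∈ T) ∧ (∀ z ∈ Z', ∀ w ∈ W', z + y1 a - w ∈ T') ∧
    v.restrict T ≪ (b2.restrict V).map y2 ∧ v.restrict T' ≪ (b3.restrict V').map y3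

/-- **the support hypothesis, local form** -/
theorem sup_at {b1 : Measure A} {b2 : Measure B} {b3 : Measure C} {v : Measure E} [SFinite b2] [SFinite b3]
    [SFinite v] [v.IsAddLeftInvariant] {D12 : Set (A × (B × E))} {D13 : Set (A × (C × E))} {D23 : Set (B × (C × E))}
    {y1 : A → E} {y2 : B → E} {y3 : C → E} (h2 : Measurable y2) (h3 : Measurable y3) {O : Set (E × E × E × E)}
    (h : ∀ᵐ a ∂b1, ∀ o ∈ O, CompAt b2 b3 v D12 D13 D23 y1 y2 y3 a o) : Sup b1 b2 b3 v D12 D13 D23 y1 y2 y3 O := by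
  filter_upwards [h] with a ha N hN h0
  have key : ∀ o ∈ O, ∃ Q : Set (E × E × E × E), Q ∈ 𝓝 o ∧ (v.prod (v.prod (v.prod v))) (N ∩ Q) = 0 := by
    intro o ho
    obtain ⟨Z, Z', W, W', T, T', V, V', nZ, nZ', nW, nW', mT, mT', mV, mV', hD, hT, hT', l2, l3⟩ := ha o ho
    obtain ⟨Z0, sZ, oZ, eZ⟩ := mem_nhds_iff.1 nZ
    obtain ⟨Z0', sZ', oZ', eZ'⟩ := mem_nhds_iff.1 nZ'
    obtain ⟨W0, sW, oW, eW⟩ := mem_nhds_iff.1 nW
    obtain ⟨W0', sW', oW', eW'⟩ := mem_nhds_iff.1 nW'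
    refine ⟨Z0 ×ˢ Z0' ×ˢ W0 ×ˢ W0', ?_, ?_⟩
    · exact prod_mem_nhds (oZ.mem_nhds eZ) (prod_mem_nhds (oZ'.mem_nhds eZ') (prod_mem_nhds (oW.mem_nhds eW)
        (oW'.mem_nhds eW')))
    · exact sup_cell h2 h3 mV mV' oZ.measurableSet oZ'.measurableSet oW.measurableSet oW'.measurableSet mT mT'
        (fun x hx x' hx' z hz z' hz' => hD x hx x' hx' z (sZ hz) z' (sZ' hz'))
        (fun z hz w hw => hT z (sZ hz) w (sW hw)) (fun z hz w hw => hT' z (sZ' hz) w (sW' hw)) l2 l3 hN h0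
  choose! Q hQ hQ0 using key
  obtain ⟨s, hs, hsc, hcov⟩ := countable_cover_nhdsWithin fun o ho => mem_nhdsWithin_of_mem_nhds (hQ o ho)
  refine measure_mono_null (t := ⋃ o ∈ s, N ∩ Q o) ?_ ((measure_biUnion_null_iff hsc).2 fun o ho => hQ0 o (hs ho))
  intro o ho
  obtain ⟨o', ho', hm⟩ := mem_iUnion₂.1 (hcov ho.2)
  exact mem_iUnion₂.2 ⟨o', ho', ho.1, hm⟩

/-- **the middle of route L with local companions** -/
theorem mid_loc {K1 K2 K3 : Type*} [MeasurableSpace K1] [MeasurableSpace K2] [MeasurableSpace K3]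
    {β1 : Measure (K1 × A)} {β2 : Measure (K2 × B)} {β3 : Measure (K3 × C)} {b1 : Measure A} {b2 : Measure B}
    {b3 : Measure C} {v : Measure E} [IsFiniteMeasure β1] [IsFiniteMeasure β2] [IsFiniteMeasure β3] [SigmaFinite b1]
    [SigmaFinite b2] [SigmaFinite b3] [SigmaFinite v] [v.IsAddLeftInvariant]
    {D12 : Set (A × (B × E))} {D13 : Set (A × (C × E))} {D23 : Set (B × (C × E))}
    (hD12 : MeasurableSet D12) (hD13 : MeasurableSet D13) (hD23 : MeasurableSet D23) {y1 : A → E} {y2 : B → E}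
    {y3 : C → E} (hy1 : Measurable y1) (hy2 : Measurable y2) (hy3 : Measurable y3)
    {P12 : Measure ((K1 × A) × ((K2 × B) × E))} {P13 : Measure ((K1 × A) × ((K3 × C) × E))}
    {P23 : Measure ((K2 × B) × ((K3 × C) × E))} [IsFiniteMeasure P12] [IsFiniteMeasure P13] [IsFiniteMeasure P23]
    {G12 : K1 × K2 × (E × E) → ℝ≥0∞} {G13 : K1 × K3 × (E × E) → ℝ≥0∞} {G23 : K2 × K3 × (E × E) → ℝ≥0∞}
    (p12 : TwoL β1 β2 b1 b2 v D12 y1 y2 P12 G12) (p13 : TwoL β1 β3 b1 b3 v D13 y1 y3 P13 G13)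
    (p23 : TwoL β2 β3 b2 b3 v D23 y2 y3 P23 G23)
    (h1 : β1.snd ≪ b1) (h2 : β2.snd ≪ b2) (h3 : β3.snd ≪ b3)
    {Z Z' W W' R S : Set E} (mZ : MeasurableSet Z) (mW : MeasurableSet W) (mR : MeasurableSet R) (mS : MeasurableSet S)
    (hR : ∀ z ∈ Z, ∀ z' ∈ Z', z' - z ∈ R) (hS : ∀ w ∈ W, ∀ w' ∈ W', w' - w ∈ S) (hZ : v Z ≠ 0) (hZ' : v Z' ≠ 0)
    (hW : v W ≠ 0) (hW' : v W' ≠ 0)
    (l12 : (v.prod v).restrict (Z ×ˢ W) ≪ P12.map (fun p => zw y1 y2 (pi3 p)))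
    (l23 : (v.prod v).restrict (R ×ˢ S) ≪ P23.map (fun p => zw y2 y3 (pi3 p)))
    (hc : ∀ᵐ a ∂b1, ∀ o ∈ (Z ×ˢ Z' ×ˢ W ×ˢ W' : Set (E × E × E × E)), CompAt b2 b3 v D12 D13 D23 y1 y2 y3 a o) :
    ∃ ν : Measure K1, IsFiniteMeasure ν ∧ β1 = ν.prod b1 := by
  obtain ⟨t12, q12⟩ := p12.par hD12 hy1 hy2 MeasurableSet.univ
  obtain ⟨t13, q13⟩ := p13.par hD13 hy1 hy3 MeasurableSet.univ
  obtain ⟨t23, q23⟩ := p23.par hD23 hy2 hy3 MeasurableSet.univ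
  rw [sec_univ] at q12 q13 q23
  have n12 := par_ne hy1 hy2 q12 (l12.trans (p12.ac hD12 hy1 hy2))
  have n23 := par_ne hy2 hy3 q23 (l23.trans (p23.ac hD23 hy2 hy3))
  exact c4 hD12 hD13 hD23 hy1 hy2 hy3 (hO_box mZ mW mR mS hR hS hZ hZ' hW hW' n12 n23)
    (sup_at hy2 hy3 hc) h1 h2 h3 q12 q13 q23 fun S hS => p12.par hD12 hy1 hy2 hS

end Pool.Agent.ROT.F3
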