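import Pool.Agent.ROT.F3C4r

/-!
# ROT, F3, row L4: `c4` with sets of good arcs (helper80)

**`c4_eta`** : the support hypothesis `Sup` is only asked on each of the sets `G n` of an increasing sequence (clearance at least `η_n`),
with a set `O n` of its own; the constants agree because the sets `G n` increase.
-/

set_option autoImplicit false
set_option linter.unusedSectionVars false

namespace Pool.Agent.ROT.F3

open MeasureTheory Set
open scoped ENNReal

section

variable {A B C E : Type*} [MeasurableSpace A] [MeasurableSpace B] [MeasurableSpace C] [MeasurableSpace E]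
  [AddCommGroup E] [MeasurableAdd₂ E] [MeasurableNeg E]

lemma prod_restrict_left (m : Measure A) (n : Measure (B × E)) [SFinite m] [SFinite n] (G : Set A) :
    (m.restrict G).prod n = (m.prod n).restrict (G ×ˢ univ) := by
  rw [← Measure.prod_restrict, Measure.restrict_univ]

lemma par_restrict {t : E × E → ℝ≥0∞} {m b1 : Measure A} {n b2 : Measure B} {v : Measure E} [SFinite m] [SFinite n]
    [SFinite b1] [SFinite b2] [SFinite v] {D : Set (A × B × E)} (hD : MeasurableSet D) {y1 : A → E} {y2 : B → E}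
    (h : Par t m b1 n b2 v D y1 y2) {G : Set A} (hG : MeasurableSet G) :
    Par t (m.restrict G) (b1.restrict G) n b2 v D y1 y2 := by
  refine ⟨h.1, ?_⟩
  have hGu : MeasurableSet (G ×ˢ (univ : Set (B × E))) := hG.prod MeasurableSet.univ
  rw [prod_restrict_left, prod_restrict_left, Measure.restrict_comm hD, h.2, restrict_withDensity hGu,
    Measure.restrict_comm hD]

lemma pos_restrict {t : E × E → ℝ≥0∞} {b1 : Measure A} {b2 : Measure B} {v : Measure E} [SFinite b1] [SFinite b2]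
    [SFinite v] {D : Set (A × B × E)} {y1 : A → E} {y2 : B → E} (h : Pos t b1 b2 v D y1 y2) (G : Set A) :
    Pos t (b1.restrict G) b2 v D y1 y2 := by
  unfold Pos at h ⊢
  rw [prod_restrict_left]
  exact ae_mono (Measure.restrict_mono le_rfl Measure.restrict_le_self) h

/-- a set of positive finite measure -/
lemma exists_pos_fin {b : Measure A} [SigmaFinite b] (hb : b ≠ 0) : ∃ U : Set A, MeasurableSet U ∧ b U ≠ 0 ∧ b U ≠ ∞ := by
  by_contra hcon
  push Not at hcon
  apply hb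
  rw [← Measure.measure_univ_eq_zero, ← iUnion_spanningSets b]
  refine measure_iUnion_null fun i => ?_
  by_contra h2
  exact (measure_spanningSets_lt_top b i).ne (hcon _ (measurableSet_spanningSets b i) h2)

/-- multiples of `b` on an increasing sequence of sets are multiples of `b` on the union -/
lemma smul_union {m b : Measure A} [SigmaFinite b] {G : ℕ → Set A} (hG : ∀ n, MeasurableSet (G n)) (mono : Monotone G)
    (h : ∀ n, ∃ κ : ℝ≥0∞, m.restrict (G n) = κ • b.restrict (G n)) :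
    ∃ κ : ℝ≥0∞, m.restrict (⋃ n, G n) = κ • b.restrict (⋃ n, G n) := by
  by_cases h0 : ∀ n, b.restrict (G n) = 0
  · refine ⟨0, ?_⟩
    rw [← Measure.restrict_smul]
    rw [Measure.restrict_iUnion_congr]
    intro n
    obtain ⟨κ, hκ⟩ := h n
    rw [hκ, Measure.restrict_smul, h0 n, smul_zero, smul_zero]
  · push Not at h0
    obtain ⟨n0, hn0⟩ := h0
    obtain ⟨κ, hκ⟩ := h n0
    obtain ⟨U, hU, u0, u1⟩ := exists_pos_fin hn0
    refine ⟨κ, ?_⟩
    rw [← Measure.restrict_smul]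
    rw [Measure.restrict_iUnion_congr]
    intro n
    rw [Measure.restrict_smul]
    rcases le_total n n0 with hn | hn
    · have e1 : m.restrict (G n) = (m.restrict (G n0)).restrict (G n) := by
        rw [Measure.restrict_restrict (hG n), inter_eq_left.2 (mono hn)]
      have e2 : b.restrict (G n) = (b.restrict (G n0)).restrict (G n) := by
        rw [Measure.restrict_restrict (hG n), inter_eq_left.2 (mono hn)]
      rw [e1, hκ, Measure.restrict_smul, ← e2]
    · obtain ⟨κ', hκ'⟩ := h n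
      have e1 : m.restrict (G n0) = (m.restrict (G n)).restrict (G n0) := by
        rw [Measure.restrict_restrict (hG n0), inter_eq_left.2 (mono hn)]
      have e2 : b.restrict (G n0) = (b.restrict (G n)).restrict (G n0) := by
        rw [Measure.restrict_restrict (hG n0), inter_eq_left.2 (mono hn)]
      have e3 : κ' • b.restrict (G n0) = κ • b.restrict (G n0) := by
        rw [← hκ, e1, hκ', Measure.restrict_smul, ← e2]
      have e4 := congrArg (fun q : Measure A => q U) e3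
      simp only [Measure.smul_apply, smul_eq_mul] at e4
      have e5 : κ' = κ := (ENNReal.mul_left_inj u0 u1).1 e4
      rw [hκ', e5]

/-- **C4 with sets of good arcs** -/
theorem c4_eta {K1 K2 K3 : Type*} [MeasurableSpace K1] [MeasurableSpace K2] [MeasurableSpace K3]
    {β1 : Measure (K1 × A)} {β2 : Measure (K2 × B)} {β3 : Measure (K3 × C)} {b1 : Measure A} {b2 : Measure B}
    {b3 : Measure C} {v : Measure E} [SigmaFinite β1.snd] [SigmaFinite b1] [SigmaFinite β2.snd] [SigmaFinite b2]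
    [SigmaFinite β3.snd] [SigmaFinite b3] [SigmaFinite v] [v.IsAddLeftInvariant] {D12 : Set (A × B × E)}
    {D13 : Set (A × C × E)} {D23 : Set (B × C × E)} (hD12 : MeasurableSet D12) (hD13 : MeasurableSet D13)
    (hD23 : MeasurableSet D23) {y1 : A → E} {y2 : B → E} {y3 : C → E} (hy1 : Measurable y1) (hy2 : Measurable y2)
    (hy3 : Measurable y3) {G : ℕ → Set A} (hG : ∀ n, MeasurableSet (G n)) (mono : Monotone G)
    (cG : ∀ᵐ x ∂β1.snd, ∃ n, x ∈ G n) {O : ℕ → Set (E × E × E × E)}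
    (vO : ∀ n, (v.prod (v.prod (v.prod v))) (O n) ≠ 0) {t12 t13 t23 : E × E → ℝ≥0∞}
    (hS : ∀ n, Sup (b1.restrict (G n)) b2 b3 v D12 D13 D23 y1 y2 y3 (O n))
    (p12 : Par t12 β1.snd b1 β2.snd b2 v D12 y1 y2) (p13 : Par t13 β1.snd b1 β3.snd b3 v D13 y1 y3)
    (p23 : Par t23 β2.snd b2 β3.snd b3 v D23 y2 y3) (z12 : Pos t12 b1 b2 v D12 y1 y2)
    (z23 : Pos t23 b2 b3 v D23 y2 y3) {U12 : ℕ → Set A} {T12 : ℕ → Set B} {Z12 : ℕ → Set E}
    (hB12 : Box b1 b2 v D12 U12 T12 Z12) (c1 : ∀ᵐ x ∂β1.snd, ∃ i, x ∈ U12 i) (c2 : ∀ᵐ x ∂β2.snd, ∃ i, x ∈ T12 i)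
    {U23 : ℕ → Set B} {T23 : ℕ → Set C} {Z23 : ℕ → Set E} (hB23 : Box b2 b3 v D23 U23 T23 Z23)
    (c3 : ∀ᵐ x ∂β3.snd, ∃ i, x ∈ T23 i)
    (pS : ∀ S : Set K1, MeasurableSet S → ∃ tS, Par tS (sec β1 S) b1 β2.snd b2 v D12 y1 y2) :
    ∃ ν : Measure K1, IsFiniteMeasure ν ∧ β1 = ν.prod (b1.restrict (⋃ n, G n)) := by
  have h1 := ac_box1 hy1 hy2 p12 z12 hB12 c1
  have h2 := ac_box2 hy1 hy2 p12 z12 hB12 c2
  have h3 := ac_box2 hy2 hy3 p23 z23 hB23 c3
  refine prod_of_sec fun S hSm => ?_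
  have hsf : SigmaFinite (sec β1 S) := Measure.sigmaFinite_of_le β1.snd (sec_le β1 S)
  have h1S : sec β1 S ≪ b1 := (sec_le β1 S).absolutelyContinuous.trans h1
  obtain ⟨tS, e⟩ := pS S hSm
  have key : ∀ n, ∃ κ : ℝ≥0∞, (sec β1 S).restrict (G n) = κ • b1.restrict (G n) := by
    intro n
    by_cases hb : b1.restrict (G n) = 0
    · refine ⟨0, ?_⟩
      rw [zero_smul]
      have g := h1S.restrict (G n)
      rw [hb] at g
      exact Measure.absolutelyContinuous_zero_iff.1 g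
    · exact tri_meas hD12 hD13 hD23 hy1 hy2 hy3
        (hO_of hD12 hD23 p12.1 p23.1 hb (hS n) (pos_restrict z12 (G n)) z23 (vO n)) (hS n) (h1.restrict (G n))
        (h1S.restrict (G n)) h2 h3 (par_restrict hD12 p12 (hG n)) (par_restrict hD13 p13 (hG n)) p23
        (par_restrict hD12 e (hG n))
  obtain ⟨κ, hκ⟩ := smul_union hG mono key
  refine ⟨κ, ?_⟩
  rw [← hκ]
  refine (Measure.restrict_eq_self_of_ae_mem ?_).symm
  have g := (sec_le β1 S).absolutelyContinuous.ae_le cG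
  filter_upwards [g] with x hx
  exact mem_iUnion.2 hx

/-- the same if almost every arc of the own lattice is good -/
theorem c4_eta' {K1 K2 K3 : Type*} [MeasurableSpace K1] [MeasurableSpace K2] [MeasurableSpace K3]
    {β1 : Measure (K1 × A)} {β2 : Measure (K2 × B)} {β3 : Measure (K3 × C)} {b1 : Measure A} {b2 : Measure B}
    {b3 : Measure C} {v : Measure E} [SigmaFinite β1.snd] [SigmaFinite b1] [SigmaFinite β2.snd] [SigmaFinite b2]
    [SigmaFinite β3.snd] [SigmaFinite b3] [SigmaFinite v] [v.IsAddLeftInvariant] {D12 : Set (A × B × E)}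
    {D13 : Set (A × C × E)} {D23 : Set (B × C × E)} (hD12 : MeasurableSet D12) (hD13 : MeasurableSet D13)
    (hD23 : MeasurableSet D23) {y1 : A → E} {y2 : B → E} {y3 : C → E} (hy1 : Measurable y1) (hy2 : Measurable y2)
    (hy3 : Measurable y3) {G : ℕ → Set A} (hG : ∀ n, MeasurableSet (G n)) (mono : Monotone G)
    (cG : ∀ᵐ x ∂b1, ∃ n, x ∈ G n) {O : ℕ → Set (E × E × E × E)}
    (vO : ∀ n, (v.prod (v.prod (v.prod v))) (O n) ≠ 0) {t12 t13 t23 : E × E → ℝ≥0∞}
    (hS : ∀ n, Sup (b1.restrict (G n)) b2 b3 v D12 D13 D23 y1 y2 y3 (O n))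
    (p12 : Par t12 β1.snd b1 β2.snd b2 v D12 y1 y2) (p13 : Par t13 β1.snd b1 β3.snd b3 v D13 y1 y3)
    (p23 : Par t23 β2.snd b2 β3.snd b3 v D23 y2 y3) (z12 : Pos t12 b1 b2 v D12 y1 y2)
    (z23 : Pos t23 b2 b3 v D23 y2 y3) {U12 : ℕ → Set A} {T12 : ℕ → Set B} {Z12 : ℕ → Set E}
    (hB12 : Box b1 b2 v D12 U12 T12 Z12) (c1 : ∀ᵐ x ∂β1.snd, ∃ i, x ∈ U12 i) (c2 : ∀ᵐ x ∂β2.snd, ∃ i, x ∈ T12 i)
    {U23 : ℕ → Set B} {T23 : ℕ → Set C} {Z23 : ℕ → Set E} (hB23 : Box b2 b3 v D23 U23 T23 Z23)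
    (c3 : ∀ᵐ x ∂β3.snd, ∃ i, x ∈ T23 i)
    (pS : ∀ S : Set K1, MeasurableSet S → ∃ tS, Par tS (sec β1 S) b1 β2.snd b2 v D12 y1 y2) :
    ∃ ν : Measure K1, IsFiniteMeasure ν ∧ β1 = ν.prod b1 := by
  obtain ⟨ν, hν, e⟩ := c4_eta hD12 hD13 hD23 hy1 hy2 hy3 hG mono
    ((ac_box1 hy1 hy2 p12 z12 hB12 c1).ae_le cG) vO hS p12 p13 p23 z12 z23 hB12 c1 c2 hB23 c3 pS
  refine ⟨ν, hν, ?_⟩
  have e1 : b1.restrict (⋃ n, G n) = b1 := by
    refine Measure.restrict_eq_self_of_ae_mem ?_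
    filter_upwards [cG] with x hx
    exact mem_iUnion.2 hx
  rw [e1] at e
  exact e

end

end Pool.Agent.ROT.F3
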