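import Pool.Agent.ROT.F3MidL

/-!
# ROT, F3, route NL: the middle from channels of the own lattice only (helper80; plan: helper52, D23)

* `ac_part`, `c4_h1` : `c4` without absolute continuity of the second and of the third arc;
* `chan_pos` : channels of the own lattice at a place `o` where the density `t23` charges every neighbourhood: the arcs of the other
  lattice charge the channel;
* **`c4_fin`** : `c4` for curves from the channels of `sup_loc`; **`mid_fin`** : `mid_low` with channels instead of lanes.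
-/

set_option autoImplicit false
set_option linter.unusedSectionVars false

namespace Pool.Agent.ROT.F3

open MeasureTheory Set Topology
open scoped ENNReal

section abstract

variable {A B C E : Type*} [MeasurableSpace A] [MeasurableSpace B] [MeasurableSpace C] [MeasurableSpace E]
  [AddCommGroup E] [MeasurableAdd₂ E] [MeasurableNeg E]

omit [MeasurableSpace B] [MeasurableSpace C] in
/-- the absolutely continuous part is a restriction -/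
lemma ac_part (m b : Measure A) [SigmaFinite m] [SigmaFinite b] :
    ∃ s : Set A, MeasurableSet s ∧ b.restrict s = b ∧ m.restrict s ≪ b := by
  obtain ⟨s, hs, h1, h2⟩ := Measure.mutuallySingular_singularPart m b
  refine ⟨s, hs, Measure.restrict_eq_self_of_ae_mem ?_, ?_⟩
  · rw [ae_iff]
    exact h2
  · refine Measure.AbsolutelyContinuous.mk fun U hU h0 => ?_
    rw [Measure.restrict_apply hU]
    have e := Measure.haveLebesgueDecomposition_add m b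
    have e1 : m (U ∩ s) = (m.singularPart b) (U ∩ s) + (b.withDensity (m.rnDeriv b)) (U ∩ s) := by
      conv_lhs => rw [e]
      rfl
    rw [e1, measure_mono_null inter_subset_right h1, zero_add]
    exact withDensity_absolutelyContinuous _ _ (measure_mono_null inter_subset_left h0)

/-- **C4 with absolute continuity of the first arc only** -/
theorem c4_h1 {K1 K2 K3 : Type*} [MeasurableSpace K1] [MeasurableSpace K2] [MeasurableSpace K3]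
    {β1 : Measure (K1 × A)} {β2 : Measure (K2 × B)} {β3 : Measure (K3 × C)} {b1 : Measure A} {b2 : Measure B}
    {b3 : Measure C} {v : Measure E} [SigmaFinite β1.snd] [SigmaFinite b1] [SigmaFinite β2.snd] [SigmaFinite b2]
    [SigmaFinite β3.snd] [SigmaFinite b3] [SigmaFinite v] [v.IsAddLeftInvariant] {D12 : Set (A × B × E)}
    {D13 : Set (A × C × E)} {D23 : Set (B × C × E)} (hD12 : MeasurableSet D12) (hD13 : MeasurableSet D13)
    (hD23 : MeasurableSet D23) {y1 : A → E} {y2 : B → E} {y3 : C → E} (hy1 : Measurable y1) (hy2 : Measurable y2)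
    (hy3 : Measurable y3) {O : Set (E × E × E × E)} {t12 t13 t23 : E × E → ℝ≥0∞}
    (hO : (v.prod (v.prod (v.prod v))) ({o | t12 (o12 o) ≠ 0 ∧ t23 (o23 o) ≠ 0} ∩ O) ≠ 0)
    (hS : Sup b1 b2 b3 v D12 D13 D23 y1 y2 y3 O) (h1 : β1.snd ≪ b1)
    (p12 : Par t12 β1.snd b1 β2.snd b2 v D12 y1 y2) (p13 : Par t13 β1.snd b1 β3.snd b3 v D13 y1 y3)
    (p23 : Par t23 β2.snd b2 β3.snd b3 v D23 y2 y3)
    (pS : ∀ S : Set K1, MeasurableSet S → ∃ tS, Par tS (sec β1 S) b1 β2.snd b2 v D12 y1 y2) :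
    ∃ ν : Measure K1, IsFiniteMeasure ν ∧ β1 = ν.prod b1 := by
  obtain ⟨s2, ms2, r2, a2⟩ := ac_part β2.snd b2
  obtain ⟨s3, ms3, r3, a3⟩ := ac_part β3.snd b3
  refine prod_of_sec fun S hSm => ?_
  have : SigmaFinite (sec β1 S) := Measure.sigmaFinite_of_le β1.snd (sec_le β1 S)
  obtain ⟨tS, e⟩ := pS S hSm
  have e12 := par_restrict2 hD12 p12 ms2
  have e13 := par_restrict2 hD13 p13 ms3
  have e23 := par_restrict hD23 (par_restrict2 hD23 p23 ms3) ms2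
  have eS := par_restrict2 hD12 e ms2
  rw [r2] at e12 eS
  rw [r3] at e13
  rw [r2, r3] at e23
  exact tri_meas hD12 hD13 hD23 hy1 hy2 hy3 hO hS h1 ((sec_le β1 S).absolutelyContinuous.trans h1) a2 a3 e12 e13 e23 eS

/-- a box of `D` on which the density does not vanish identically has mass for the other lattice -/
lemma par_box {t : E × E → ℝ≥0∞} {m b1 : Measure A} {n b2 : Measure B} {v : Measure E} [SFinite m] [SFinite n]
    [SFinite b1] [SFinite b2] [SFinite v] {D : Set (A × B × E)} {y1 : A → E} {y2 : B → E}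
    (h1 : Measurable y1) (h2 : Measurable y2) (h : Par t m b1 n b2 v D y1 y2) {U : Set A} {T : Set B} {Z : Set E}
    (hU : MeasurableSet U) (hT : MeasurableSet T) (hZ : MeasurableSet Z) (hb : U ×ˢ T ×ˢ Z ⊆ D)
    (hp : (b1.prod (b2.prod v)) ((U ×ˢ T ×ˢ Z) ∩ {p | t (zw y1 y2 p) ≠ 0}) ≠ 0) : m U ≠ 0 ∧ n T ≠ 0 := by
  have hm : MeasurableSet (U ×ˢ T ×ˢ Z) := hU.prod (hT.prod hZ)
  have e1 : ((m.prod (n.prod v)).restrict D) (U ×ˢ T ×ˢ Z) = m U * (n T * v Z) := by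
    rw [Measure.restrict_apply hm, inter_eq_left.2 hb, Measure.prod_prod, Measure.prod_prod]
  have e3 : ((m.prod (n.prod v)).restrict D) (U ×ˢ T ×ˢ Z) ≠ 0 := by
    rw [h.2]
    intro h0
    have h3 := (withDensity_apply_eq_zero (par_meas h.1 h1 h2)).1 h0
    apply hp
    have mt : MeasurableSet {p : A × B × E | t (zw y1 y2 p) ≠ 0} :=
      (measurableSet_eq_fun (h.1.comp (zw_meas h1 h2)) measurable_const).compl
    have h4 : ((b1.prod (b2.prod v)).restrict D) ((U ×ˢ T ×ˢ Z) ∩ {p | t (zw y1 y2 p) ≠ 0}) = 0 := by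
      refine measure_mono_null ?_ h3
      rintro p ⟨hp1, hp2⟩
      exact ⟨hp2, hp1⟩
    rw [Measure.restrict_apply (hm.inter mt)] at h4
    refine measure_mono_null ?_ h4
    rintro p ⟨hp1, hp2⟩
    exact ⟨⟨hp1, hp2⟩, hb hp1⟩
  rw [e1] at e3
  exact ⟨left_ne_zero_of_mul e3, left_ne_zero_of_mul (right_ne_zero_of_mul e3)⟩

/-- a place of `O` in whose neighbourhoods the density `t23` does not vanish -/
lemma exists_place [TopologicalSpace E] [SecondCountableTopology E] [ContinuousSub E] {v : Measure E} [SigmaFinite v]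
    [v.IsAddLeftInvariant] {O : Set (E × E × E × E)} {t12 t23 : E × E → ℝ≥0∞}
    (hO : (v.prod (v.prod (v.prod v))) ({o | t12 (o12 o) ≠ 0 ∧ t23 (o23 o) ≠ 0} ∩ O) ≠ 0) :
    ∃ o ∈ O, ∀ R : Set (E × E), IsOpen R → o23 o ∈ R → (v.prod v) (R ∩ {s | t23 s ≠ 0}) ≠ 0 := by
  obtain ⟨o, ho, h⟩ := exists_mem_forall_mem_nhdsWithin_pos_measure hO
  refine ⟨o, ho.2, fun R hR hoR h0 => ?_⟩
  have c23 : Continuous (o23 : E × E × E × E → E × E) := by
    unfold o23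
    fun_prop
  have h1 : ({o | t12 (o12 o) ≠ 0 ∧ t23 (o23 o) ≠ 0} ∩ O) ∩ o23 ⁻¹' R ∈
      𝓝[{o | t12 (o12 o) ≠ 0 ∧ t23 (o23 o) ≠ 0} ∩ O] o :=
    Filter.inter_mem self_mem_nhdsWithin (mem_nhdsWithin_of_mem_nhds ((hR.preimage c23).mem_nhds hoR))
  have h2 := (h _ h1).ne'
  apply h2
  refine measure_mono_null ?_ ((qo23 (v := v)).preimage_null h0)
  rintro o' ⟨⟨⟨-, h3⟩, -⟩, h4⟩
  exact ⟨h4, h3⟩

end abstract

section curves

variable {A B C : Type*} [MeasurableSpace A] [MeasurableSpace B] [MeasurableSpace C]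

/-- **the channels of the arc `a` at the positions `z, z'` of the starts and `w, w'` of the ends** (the hypothesis of `sup_loc`) -/
def ChanAt (g1 : A → C(unitInterval, ℂ)) (g2 : B → C(unitInterval, ℂ)) (g3 : C → C(unitInterval, ℂ)) (y1 : A → ℂ)
    (y2 : B → ℂ) (y3 : C → ℂ) (b2 : Measure B) (b3 : Measure C) (v : Measure ℂ) (a : A) (z z' w w' : ℂ) : Prop :=
  ∃ η : ℝ, 0 < η ∧ ∃ K K' : Set ℂ, IsClosed K ∧ IsClosed K' ∧
    (∀ s, ∀ k ∈ K, η < dist (g1 a s) k) ∧ (∀ s, ∀ k ∈ K', η < dist (g1 a s) k) ∧ (∀ k ∈ K, ∀ k' ∈ K', 2 * η < dist k k') ∧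
    v.restrict (Metric.closedBall (z + y1 a - w) (2 * η)) ≪ (b2.restrict (Inn g2 z K)).map y2 ∧
    v.restrict (Metric.closedBall (z' + y1 a - w') (2 * η)) ≪ (b3.restrict (Inn g3 z' K')).map y3

/-- **channels have mass for the other lattice**, if the density `t23` charges every neighbourhood of the place -/
theorem chan_pos {b2 m2 : Measure B} {b3 m3 : Measure C} {v : Measure ℂ} [SFinite b2] [SFinite b3] [SFinite m2]
    [SFinite m3] [SFinite v] [v.IsAddLeftInvariant] [v.IsOpenPosMeasure] {g1 : A → C(unitInterval, ℂ)}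
    {g2 : B → C(unitInterval, ℂ)} {g3 : C → C(unitInterval, ℂ)} (n2 : Measurable g2) (n3 : Measurable g3) {y1 : A → ℂ}
    {y2 : B → ℂ} {y3 : C → ℂ} (hy2 : Measurable y2) (hy3 : Measurable y3) {z z' w w' : ℂ}
    {Z12 Z13 Z23 W12 W13 W23 : Set ℂ} {m0 : ℝ} (hm : 0 < m0) (hZ12 : Metric.closedBall z m0 ⊆ Z12)
    (hZ13 : Metric.closedBall z' m0 ⊆ Z13) (hZ23 : Metric.closedBall (z' - z) m0 ⊆ Z23)
    (hW12 : Metric.closedBall w m0 ⊆ W12) (hW13 : Metric.closedBall w' m0 ⊆ W13)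
    (hW23 : Metric.closedBall (w' - w) m0 ⊆ W23) {t23 : ℂ × ℂ → ℝ≥0∞}
    (p23 : Par t23 m2 b2 m3 b3 v (DD g2 g3 y2 y3 Z23 W23) y2 y3)
    (ht : ∀ R : Set (ℂ × ℂ), IsOpen R → (z' - z, w' - w) ∈ R → (v.prod v) (R ∩ {s | t23 s ≠ 0}) ≠ 0) {a : A}
    (ha : ChanAt g1 g2 g3 y1 y2 y3 b2 b3 v a z z' w w') :
    (m2.prod v) {q | (a, q) ∈ DD g1 g2 y1 y2 Z12 W12} ≠ 0 := by
  obtain ⟨η0, hη0, K, K', cK, cK', d1', d2', d3', l2', l3'⟩ := ha
  -- smaller clearance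
  obtain ⟨η, hη, hηη, hηm⟩ : ∃ η : ℝ, 0 < η ∧ η ≤ η0 ∧ 6 * η ≤ m0 :=
    ⟨min η0 (m0 / 6), lt_min hη0 (by linarith), min_le_left _ _, by
      have := min_le_right η0 (m0 / 6)
      linarith⟩
  have hl : ∀ (c : ℂ), v.restrict (Metric.closedBall c (2 * η)) ≪ v.restrict (Metric.closedBall c (2 * η0)) := fun c =>
    Measure.absolutelyContinuous_of_le (Measure.restrict_mono_set v (Metric.closedBall_subset_closedBall (by linarith)))
  have l2 := (hl _).trans l2'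
  have l3 := (hl _).trans l3'
  have hb : ∀ (c : ℂ) {r s : ℝ} {X : Set ℂ}, r ≤ s → Metric.closedBall c s ⊆ X → Metric.closedBall c r ⊆ X :=
    fun c r s X h1 h2 => (Metric.closedBall_subset_closedBall h1).trans h2
  have mB : ∀ (c : ℂ) (r : ℝ), MeasurableSet (Metric.closedBall c r) := fun c r => Metric.isClosed_closedBall.measurableSet
  have geo := lane_geo (g1 := g1) (g2 := g2) (g3 := g3) (y1 := y1) (y2 := y2) (y3 := y3) (a := a) (η := η)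
    (hb z (by linarith) hZ12) (hb z' (by linarith) hZ13) (hb (z' - z) (by linarith) hZ23) (hb w (by linarith) hW12)
    (hb w' (by linarith) hW13) (hb (w' - w) hηm hW23) (fun s k hk => lt_of_le_of_lt hηη (d1' s k hk))
    (fun s k hk => lt_of_le_of_lt hηη (d2' s k hk)) (fun k hk k' hk' => lt_of_le_of_lt (by linarith) (d3' k hk k' hk'))
  -- the two sets of arcs
  obtain ⟨V, hV⟩ : ∃ V : Set B, V = Inn g2 z K ∩ y2 ⁻¹' Metric.closedBall (z + y1 a - w) (2 * η) := ⟨_, rfl⟩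
  obtain ⟨V', hV'⟩ : ∃ V' : Set C, V' = Inn g3 z' K' ∩ y3 ⁻¹' Metric.closedBall (z' + y1 a - w') (η / 2) := ⟨_, rfl⟩
  have mV : MeasurableSet V := hV ▸ (inn_meas n2 z cK).inter (hy2 (mB _ _))
  have mV' : MeasurableSet V' := hV' ▸ (inn_meas n3 z' cK').inter (hy3 (mB _ _))
  have subV' : V' ⊆ Inn g3 z' K' ∩ y3 ⁻¹' Metric.closedBall (z' + y1 a - w') (2 * η) := by
    rw [hV']
    exact inter_subset_inter_right _ (preimage_mono (Metric.closedBall_subset_closedBall (by linarith)))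
  have lV : v.restrict (Metric.closedBall (z + y1 a - w) (2 * η)) ≪ (b2.restrict V).map y2 := by
    rw [hV]
    exact ac_rst (inn_meas n2 z cK) hy2 (mB _ _) l2
  have lV' : v.restrict (Metric.closedBall (z' + y1 a - w') (η / 2)) ≪ (b3.restrict V').map y3 := by
    rw [hV']
    refine ac_rst (inn_meas n3 z' cK') hy3 (mB _ _) (Measure.AbsolutelyContinuous.trans ?_ l3)
    exact Measure.absolutelyContinuous_of_le (Measure.restrict_mono_set v (Metric.closedBall_subset_closedBall (by linarith)))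
  have q3 : b3 V' ≠ 0 := by
    intro h0
    have h1 : b3.restrict V' = 0 := Measure.restrict_eq_zero.2 h0
    rw [h1, Measure.map_zero] at lV'
    have h2 := lV' (s := univ) rfl
    rw [Measure.restrict_apply_univ] at h2
    exact (Metric.measure_closedBall_pos v _ (by linarith : 0 < η / 2)).ne' h2
  -- the box
  obtain ⟨Zb, hZb⟩ : ∃ Zb : Set ℂ, Zb = Metric.closedBall (z' - z) (η / 2) := ⟨_, rfl⟩
  obtain ⟨Wb, hWb⟩ : ∃ Wb : Set ℂ, Wb = Metric.closedBall (w' - w) (η / 2) := ⟨_, rfl⟩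
  have mZb : MeasurableSet Zb := hZb ▸ mB _ _
  have mWb : MeasurableSet Wb := hWb ▸ mB _ _
  have hbox : V ×ˢ V' ×ˢ Zb ⊆ DD g2 g3 y2 y3 Z23 W23 := by
    rintro ⟨x, x', ζ⟩ ⟨hx, hx', hζ⟩
    have hx1 : x ∈ Inn g2 z K ∩ y2 ⁻¹' Metric.closedBall (z + y1 a - w) (2 * η) := hV ▸ hx
    have e : dist (ζ + z) z' ≤ η := by
      have h1 : dist ζ (z' - z) ≤ η / 2 := by
        rw [hZb] at hζ
        exact hζ
      rw [dist_eq_norm] at h1 ⊢
      rw [show ζ + z - z' = ζ - (z' - z) by ring]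
      linarith
    have := (geo x hx1 x' (subV' hx') z (Metric.mem_closedBall_self hη.le) (ζ + z) e).2.2
    rwa [add_sub_cancel_right] at this
  have dom : (v.prod v).restrict (Zb ×ˢ Wb) ≪ ((b2.prod (b3.prod v)).restrict (V ×ˢ V' ×ˢ Zb)).map (zw y2 y3) := by
    refine pos_of hy2 hy3 (U1 := V) (U2 := V') (T := Metric.closedBall (z + y1 a - w) (2 * η)) mV (mB _ _) mZb mWb
      (fun x hx x' hx' ζ hζ => ⟨hx, hx', hζ⟩) ?_ lV q3
    intro x' hx' ζ hζ ω hω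
    have h1 : dist (y3 x') (z' + y1 a - w') ≤ η / 2 := by
      rw [hV'] at hx'
      exact hx'.2
    have h2 : dist ζ (z' - z) ≤ η / 2 := by
      rw [hZb] at hζ
      exact hζ
    have h3 : dist ω (w' - w) ≤ η / 2 := by
      rw [hWb] at hω
      exact hω
    show dist (y3 x' - ζ + ω) (z + y1 a - w) ≤ 2 * η
    rw [dist_eq_norm] at h1 h2 h3 ⊢
    have e : y3 x' - ζ + ω - (z + y1 a - w) =
        (y3 x' - (z' + y1 a - w')) - (ζ - (z' - z)) + (ω - (w' - w)) := by ring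
    rw [e]
    have h4 := norm_add_le ((y3 x' - (z' + y1 a - w')) - (ζ - (z' - z))) (ω - (w' - w))
    have h5 := norm_sub_le (y3 x' - (z' + y1 a - w')) (ζ - (z' - z))
    linarith
  have mt : MeasurableSet {s : ℂ × ℂ | t23 s ≠ 0} := (measurableSet_eq_fun p23.1 measurable_const).compl
  have hp : (b2.prod (b3.prod v)) ((V ×ˢ V' ×ˢ Zb) ∩ {p | t23 (zw y2 y3 p) ≠ 0}) ≠ 0 := by
    intro h0
    have h1 : (((b2.prod (b3.prod v)).restrict (V ×ˢ V' ×ˢ Zb)).map (zw y2 y3)) {s | t23 s ≠ 0} = 0 := by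
      rw [Measure.map_apply (zw_meas hy2 hy3) mt, Measure.restrict_apply ((zw_meas hy2 hy3) mt), inter_comm]
      exact h0
    have h2 := dom h1
    rw [Measure.restrict_apply mt] at h2
    refine ht (Metric.ball (z' - z) (η / 2) ×ˢ Metric.ball (w' - w) (η / 2))
      (Metric.isOpen_ball.prod Metric.isOpen_ball)
      ⟨Metric.mem_ball_self (by linarith), Metric.mem_ball_self (by linarith)⟩ ?_
    refine measure_mono_null ?_ h2
    rintro s ⟨⟨h3, h4⟩, h5⟩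
    rw [hZb, hWb]
    exact ⟨h5, Metric.ball_subset_closedBall h3, Metric.ball_subset_closedBall h4⟩
  have q2 : m2 V ≠ 0 := (par_box hy2 hy3 p23 mV mV' mZb hbox hp).1
  have hne : V'.Nonempty := nonempty_of_measure_ne_zero q3
  obtain ⟨x', hx'⟩ := hne
  refine box_ne m2 hη q2 (c := z) ?_
  rintro ⟨x, ζ⟩ ⟨hx, hζ⟩
  have hx1 : x ∈ Inn g2 z K ∩ y2 ⁻¹' Metric.closedBall (z + y1 a - w) (2 * η) := hV ▸ hx
  exact (geo x hx1 x' (subV' hx') ζ hζ _ (Metric.mem_closedBall_self hη.le)).1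

/-- **C4 from the channels of the own lattice** -/
theorem c4_fin {K1 K2 K3 : Type*} [MeasurableSpace K1] [MeasurableSpace K2] [MeasurableSpace K3]
    {β1 : Measure (K1 × A)} {β2 : Measure (K2 × B)} {β3 : Measure (K3 × C)} {b1 : Measure A} {b2 : Measure B}
    {b3 : Measure C} {v : Measure ℂ} [SigmaFinite β1.snd] [SigmaFinite b1] [SigmaFinite β2.snd] [SigmaFinite b2]
    [SigmaFinite β3.snd] [SigmaFinite b3] [SigmaFinite v] [v.IsAddLeftInvariant] [v.IsOpenPosMeasure]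
    {g1 : A → C(unitInterval, ℂ)} {g2 : B → C(unitInterval, ℂ)} {g3 : C → C(unitInterval, ℂ)}
    (n1 : Measurable g1) (n2 : Measurable g2) (n3 : Measurable g3) {y1 : A → ℂ} {y2 : B → ℂ} {y3 : C → ℂ}
    (hy1 : Measurable y1) (hy2 : Measurable y2) (hy3 : Measurable y3)
    {Z Z' W W' Z12 Z13 Z23 W12 W13 W23 : Set ℂ} {m0 : ℝ} (hm : 0 < m0) (kZ12 : MeasurableSet Z12)
    (kZ13 : MeasurableSet Z13) (kZ23 : MeasurableSet Z23) (kW12 : MeasurableSet W12) (kW13 : MeasurableSet W13)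
    (kW23 : MeasurableSet W23)
    (hZ12 : ∀ z ∈ Z, Metric.closedBall z m0 ⊆ Z12) (hZ13 : ∀ z ∈ Z', Metric.closedBall z m0 ⊆ Z13)
    (hZ23 : ∀ z ∈ Z, ∀ z' ∈ Z', Metric.closedBall (z' - z) m0 ⊆ Z23) (hW12 : ∀ w ∈ W, Metric.closedBall w m0 ⊆ W12)
    (hW13 : ∀ w ∈ W', Metric.closedBall w m0 ⊆ W13) (hW23 : ∀ w ∈ W, ∀ w' ∈ W', Metric.closedBall (w' - w) m0 ⊆ W23)
    {t12 t13 t23 : ℂ × ℂ → ℝ≥0∞}
    (hO : (v.prod (v.prod (v.prod v))) ({o | t12 (o12 o) ≠ 0 ∧ t23 (o23 o) ≠ 0} ∩ (Z ×ˢ Z' ×ˢ W ×ˢ W')) ≠ 0)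
    (chan : ∀ᵐ a ∂(β1.snd + b1), ∀ z ∈ Z, ∀ z' ∈ Z', ∀ w ∈ W, ∀ w' ∈ W', ChanAt g1 g2 g3 y1 y2 y3 b2 b3 v a z z' w w')
    (p12 : Par t12 β1.snd b1 β2.snd b2 v (DD g1 g2 y1 y2 Z12 W12) y1 y2)
    (p13 : Par t13 β1.snd b1 β3.snd b3 v (DD g1 g3 y1 y3 Z13 W13) y1 y3)
    (p23 : Par t23 β2.snd b2 β3.snd b3 v (DD g2 g3 y2 y3 Z23 W23) y2 y3)
    (pS : ∀ S : Set K1, MeasurableSet S → ∃ tS, Par tS (sec β1 S) b1 β2.snd b2 v (DD g1 g2 y1 y2 Z12 W12) y1 y2) :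
    ∃ ν : Measure K1, IsFiniteMeasure ν ∧ β1 = ν.prod b1 := by
  have mD12 := dd_meas n1 n2 hy1 hy2 kZ12 kW12
  have mD13 := dd_meas n1 n3 hy1 hy3 kZ13 kW13
  have mD23 := dd_meas n2 n3 hy2 hy3 kZ23 kW23
  rw [ae_add_measure_iff] at chan
  have hS : Sup b1 b2 b3 v (DD g1 g2 y1 y2 Z12 W12) (DD g1 g3 y1 y3 Z13 W13) (DD g2 g3 y2 y3 Z23 W23) y1 y2 y3
      (Z ×ˢ Z' ×ˢ W ×ˢ W') := sup_loc n2 n3 hy2 hy3 hm hZ12 hZ13 hZ23 hW12 hW13 hW23 chan.2
  obtain ⟨⟨z, z', w, w'⟩, ⟨hz, hz', hw, hw'⟩, ht⟩ := exists_place hO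
  refine c4_h1 mD12 mD13 mD23 hy1 hy2 hy3 hO hS (ac_left mD12 p12 ?_) p12 p13 p23 pS
  filter_upwards [chan.1] with a ha
  exact chan_pos n2 n3 hy2 hy3 hm (hZ12 z hz) (hZ13 z' hz') (hZ23 z hz z' hz') (hW12 w hw) (hW13 w' hw')
    (hW23 w hw w' hw') p23 ht (ha z hz z' hz' w hw w' hw')

/-- **the middle of route NL from channels** -/
theorem mid_fin {K1 K2 K3 : Type*} [MeasurableSpace K1] [MeasurableSpace K2] [MeasurableSpace K3]
    {β1 : Measure (K1 × A)} {β2 : Measure (K2 × B)} {β3 : Measure (K3 × C)} {b1 : Measure A} {b2 : Measure B}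
    {b3 : Measure C} {v : Measure ℂ} [IsFiniteMeasure β1] [IsFiniteMeasure β2] [IsFiniteMeasure β3] [SigmaFinite b1]
    [SigmaFinite b2] [SigmaFinite b3] [SigmaFinite v] [v.IsAddLeftInvariant] [v.IsOpenPosMeasure]
    {g1 : A → C(unitInterval, ℂ)} {g2 : B → C(unitInterval, ℂ)} {g3 : C → C(unitInterval, ℂ)}
    (n1 : Measurable g1) (n2 : Measurable g2) (n3 : Measurable g3) {y1 : A → ℂ} {y2 : B → ℂ} {y3 : C → ℂ}
    (hy1 : Measurable y1) (hy2 : Measurable y2) (hy3 : Measurable y3)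
    {Z Z' W W' Z12 Z13 Z23 W12 W13 W23 : Set ℂ} {m0 : ℝ} (hm : 0 < m0) (kZ12 : MeasurableSet Z12)
    (kZ13 : MeasurableSet Z13) (kZ23 : MeasurableSet Z23) (kW12 : MeasurableSet W12) (kW13 : MeasurableSet W13)
    (kW23 : MeasurableSet W23)
    (hZ12 : ∀ z ∈ Z, Metric.closedBall z m0 ⊆ Z12) (hZ13 : ∀ z ∈ Z', Metric.closedBall z m0 ⊆ Z13)
    (hZ23 : ∀ z ∈ Z, ∀ z' ∈ Z', Metric.closedBall (z' - z) m0 ⊆ Z23) (hW12 : ∀ w ∈ W, Metric.closedBall w m0 ⊆ W12)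
    (hW13 : ∀ w ∈ W', Metric.closedBall w m0 ⊆ W13) (hW23 : ∀ w ∈ W, ∀ w' ∈ W', Metric.closedBall (w' - w) m0 ⊆ W23)
    {P12 : Measure ((K1 × A) × ((K2 × B) × ℂ))} {P13 : Measure ((K1 × A) × ((K3 × C) × ℂ))}
    {P23 : Measure ((K2 × B) × ((K3 × C) × ℂ))} [IsFiniteMeasure P12] [IsFiniteMeasure P13] [IsFiniteMeasure P23]
    {G12 : K1 × K2 × (ℂ × ℂ) → ℝ≥0∞} {G13 : K1 × K3 × (ℂ × ℂ) → ℝ≥0∞} {G23 : K2 × K3 × (ℂ × ℂ) → ℝ≥0∞}
    {a12 c12 a23 c23 : ℂ → ℝ≥0∞}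
    (p12 : TwoP β1 β2 b1 b2 v (DD g1 g2 y1 y2 Z12 W12) y1 y2 P12 G12 a12 c12)
    (p13 : TwoL β1 β3 b1 b3 v (DD g1 g3 y1 y3 Z13 W13) y1 y3 P13 G13)
    (p23 : TwoP β2 β3 b2 b3 v (DD g2 g3 y2 y3 Z23 W23) y2 y3 P23 G23 a23 c23)
    (chan : ∀ᵐ a ∂(β1.snd + b1), ∀ z ∈ Z, ∀ z' ∈ Z', ∀ w ∈ W, ∀ w' ∈ W', ChanAt g1 g2 g3 y1 y2 y3 b2 b3 v a z z' w w')
    {Zs Ws Zt Wt : Set ℂ} (mZ : MeasurableSet Zs) (mW : MeasurableSet Ws) (mZt : MeasurableSet Zt)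
    (mWt : MeasurableSet Wt) (sZ : Zs ⊆ Z) (sW : Ws ⊆ W) (sZ' : ∀ z ∈ Zs, ∀ d ∈ Zt, z + d ∈ Z')
    (sW' : ∀ w ∈ Ws, ∀ d ∈ Wt, w + d ∈ W')
    (q12 : (β1.snd.prod (β2.snd.prod v)) (DD g1 g2 y1 y2 Z12 W12 ∩ {p | zw y1 y2 p ∈ Zs ×ˢ Ws}) ≠ 0)
    (q23 : (β2.snd.prod (β3.snd.prod v)) (DD g2 g3 y2 y3 Z23 W23 ∩ {p | zw y2 y3 p ∈ Zt ×ˢ Wt}) ≠ 0) :
    ∃ ν : Measure K1, IsFiniteMeasure ν ∧ β1 = ν.prod b1 := by
  have mD12 := dd_meas n1 n2 hy1 hy2 kZ12 kW12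
  have mD13 := dd_meas n1 n3 hy1 hy3 kZ13 kW13
  have mD23 := dd_meas n2 n3 hy2 hy3 kZ23 kW23
  obtain ⟨t12, r12⟩ := p12.1.par mD12 hy1 hy2 MeasurableSet.univ
  obtain ⟨t13, r13⟩ := p13.par mD13 hy1 hy3 MeasurableSet.univ
  obtain ⟨t23, r23⟩ := p23.1.par mD23 hy2 hy3 MeasurableSet.univ
  rw [sec_univ] at r12 r13 r23
  have hS : Sup b1 b2 b3 v (DD g1 g2 y1 y2 Z12 W12) (DD g1 g3 y1 y3 Z13 W13) (DD g2 g3 y2 y3 Z23 W23) y1 y2 y3
      (Z ×ˢ Z' ×ˢ W ×ˢ W') :=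
    sup_loc n2 n3 hy2 hy3 hm hZ12 hZ13 hZ23 hW12 hW13 hW23 (ae_add_measure_iff.1 chan).2
  have mq12 : MeasurableSet {p : A × (B × ℂ) | zw y1 y2 p ∈ Zs ×ˢ Ws} := (zw_meas hy1 hy2) (mZ.prod mW)
  obtain ⟨v1, v2⟩ := p12.gh mD12 hy1 hy2 mZ mW q12
  obtain ⟨v3, v4⟩ := p23.gh mD23 hy2 hy3 mZt mWt q23
  have hO := hO_prod (A := A) (B := B) (C := C) (b1 := b1) (b2 := b2) (b3 := b3) (v := v) mD12 mD23 r12.1 r23.1
    (p12.ne mD12 hy1 hy2 mq12 q12) hS p12.2.1 p12.2.2.1 p23.2.1 p23.2.2.1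
    (t_ne mD12 hy1 hy2 p12.1.2.1 p12.2.1 p12.2.2.1 p12.2.2.2 r12)
    (t_ne mD23 hy2 hy3 p23.1.2.1 p23.2.1 p23.2.2.1 p23.2.2.2 r23) mZ mW mZt mWt
    (fun z hz d hd w hw e he => ⟨sZ hz, sZ' z hz d hd, sW hw, sW' w hw e he⟩) v1 v2 v3 v4
  exact c4_fin n1 n2 n3 hy1 hy2 hy3 hm kZ12 kZ13 kZ23 kW12 kW13 kW23 hZ12 hZ13 hZ23 hW12 hW13 hW23 hO chan r12 r13 r23
    fun S hS => p12.1.par mD12 hy1 hy2 hS

end curves

end Pool.Agent.ROT.F3
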