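import Pool.Agent.ROT.F3Mid
import Pool.Agent.ROT.F3Sup
import Pool.Agent.ROT.F3C4e

/-!
# ROT, F3, row L4: `c4` from lanes only (helper80; plan: helper52)

Absolute continuity of the arcs of the other lattice is only needed for the arcs which have companions.

* `c4_sub` : `c4` with the second and the third arc restricted to sets `T2`, `T3` of arcs which have a companion of the other class;
* `sup_lind` : the support hypothesis from neighbourhoods;
* **`c4_low`** : `c4` for arcs which are curves; the only inputs besides (PP) are the lanes: for almost every arc `a` (both lattices) and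
  all positions in `Z × Z' × W × W'` two closed channels with clearance `η`, which have exact ends under `b2`, `b3` (own lattice) and
  positive mass under `β2.snd`, `β3.snd` (other lattice).
-/

set_option autoImplicit false
set_option linter.unusedSectionVars false

namespace Pool.Agent.ROT.F3

open MeasureTheory Set Topology
open scoped ENNReal

section abstract

variable {A B C E : Type*} [MeasurableSpace A] [MeasurableSpace B] [MeasurableSpace C] [MeasurableSpace E]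
  [AddCommGroup E] [MeasurableAdd₂ E] [MeasurableNeg E]

lemma par_restrict2 {t : E × E → ℝ≥0∞} {m b1 : Measure A} {n b2 : Measure B} {v : Measure E} [SFinite m] [SFinite n]
    [SFinite b1] [SFinite b2] [SFinite v] {D : Set (A × B × E)} (hD : MeasurableSet D) {y1 : A → E} {y2 : B → E}
    (h : Par t m b1 n b2 v D y1 y2) {G : Set B} (hG : MeasurableSet G) :
    Par t m b1 (n.restrict G) (b2.restrict G) v D y1 y2 := by
  refine ⟨h.1, ?_⟩
  have hGu : MeasurableSet ((univ : Set A) ×ˢ (G ×ˢ (univ : Set E))) := MeasurableSet.univ.prod (hG.prod MeasurableSet.univ)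
  have e : ∀ (m : Measure A) (n : Measure B) [SFinite m] [SFinite n], m.prod ((n.restrict G).prod v) =
      (m.prod (n.prod v)).restrict (univ ×ˢ (G ×ˢ univ)) := by
    intro m n _ _
    have i1 : (n.restrict G).prod v = (n.prod v).restrict (G ×ˢ univ) := by
      rw [← Measure.prod_restrict, Measure.restrict_univ]
    have i2 := Measure.prod_restrict (μ := m) (ν := n.prod v) (univ : Set A) (G ×ˢ (univ : Set E))
    rw [i1, ← i2, Measure.restrict_univ]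
  rw [e, e, Measure.restrict_comm hD, h.2, restrict_withDensity hGu, Measure.restrict_comm hD]

/-- **C4 with companions**: `T2`, `T3` consist of arcs which have a companion of the other class -/
theorem c4_sub {K1 K2 K3 : Type*} [MeasurableSpace K1] [MeasurableSpace K2] [MeasurableSpace K3]
    {β1 : Measure (K1 × A)} {β2 : Measure (K2 × B)} {β3 : Measure (K3 × C)} {b1 : Measure A} {b2 : Measure B}
    {b3 : Measure C} {v : Measure E} [SigmaFinite β1.snd] [SigmaFinite b1] [SigmaFinite β2.snd] [SigmaFinite b2]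
    [SigmaFinite β3.snd] [SigmaFinite b3] [SigmaFinite v] [v.IsAddLeftInvariant] {D12 : Set (A × B × E)}
    {D13 : Set (A × C × E)} {D23 : Set (B × C × E)} (hD12 : MeasurableSet D12) (hD13 : MeasurableSet D13)
    (hD23 : MeasurableSet D23) {y1 : A → E} {y2 : B → E} {y3 : C → E} (hy1 : Measurable y1) (hy2 : Measurable y2)
    (hy3 : Measurable y3) {O : Set (E × E × E × E)} {t12 t13 t23 : E × E → ℝ≥0∞}
    (hO : (v.prod (v.prod (v.prod v))) ({o | t12 (o12 o) ≠ 0 ∧ t23 (o23 o) ≠ 0} ∩ O) ≠ 0) {T2 : Set B} {T3 : Set C}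
    (mT2 : MeasurableSet T2) (mT3 : MeasurableSet T3)
    (hT2 : ∀ᵐ x ∂(β2.snd.restrict T2), (β3.snd.prod v) {q | (x, q) ∈ D23} ≠ 0)
    (hT3 : ∀ᵐ x ∂(β3.snd.restrict T3), (β2.snd.prod v) {q | (q.1, (x, q.2)) ∈ D23} ≠ 0)
    (hT1 : ∀ᵐ x ∂β1.snd, ((β2.snd.restrict T2).prod v) {q | (x, q) ∈ D12} ≠ 0)
    (hS : Sup b1 (b2.restrict T2) (b3.restrict T3) v D12 D13 D23 y1 y2 y3 O)
    (p12 : Par t12 β1.snd b1 β2.snd b2 v D12 y1 y2) (p13 : Par t13 β1.snd b1 β3.snd b3 v D13 y1 y3)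
    (p23 : Par t23 β2.snd b2 β3.snd b3 v D23 y2 y3)
    (pS : ∀ S : Set K1, MeasurableSet S → ∃ tS, Par tS (sec β1 S) b1 β2.snd b2 v D12 y1 y2) :
    ∃ ν : Measure K1, IsFiniteMeasure ν ∧ β1 = ν.prod b1 := by
  have h2 : β2.snd.restrict T2 ≪ b2.restrict T2 := ac_left hD23 (par_restrict hD23 p23 mT2) hT2
  have h3 : β3.snd.restrict T3 ≪ b3.restrict T3 := ac_right hD23 (par_restrict2 hD23 p23 mT3) hT3
  have h1 : β1.snd ≪ b1 := ac_left hD12 (par_restrict2 hD12 p12 mT2) hT1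
  refine prod_of_sec fun S hSm => ?_
  have : SigmaFinite (sec β1 S) := Measure.sigmaFinite_of_le β1.snd (sec_le β1 S)
  obtain ⟨tS, e⟩ := pS S hSm
  exact tri_meas hD12 hD13 hD23 hy1 hy2 hy3 hO hS h1 ((sec_le β1 S).absolutelyContinuous.trans h1) h2 h3
    (par_restrict2 hD12 p12 mT2) (par_restrict2 hD13 p13 mT3) (par_restrict hD23 (par_restrict2 hD23 p23 mT3) mT2)
    (par_restrict2 hD12 e mT2)

/-- **the support hypothesis from neighbourhoods** -/
theorem sup_lind [TopologicalSpace E] [SecondCountableTopology E] {b1 : Measure A} {b2 : Measure B} {b3 : Measure C}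
    {v : Measure E} {D12 : Set (A × B × E)} {D13 : Set (A × C × E)} {D23 : Set (B × C × E)} {y1 : A → E} {y2 : B → E}
    {y3 : C → E} {O : Set (E × E × E × E)}
    (h : ∀ᵐ a ∂b1, ∀ o ∈ O, ∃ U : Set (E × E × E × E), IsOpen U ∧ o ∈ U ∧ ∀ N : Set (E × E × E × E), MeasurableSet N →
      (b2.prod (b3.prod (v.prod v))) (Cp D12 D13 D23 a ∩ cor y1 y2 y3 a ⁻¹' N) = 0 →
        (v.prod (v.prod (v.prod v))) (N ∩ U) = 0) :
    Sup b1 b2 b3 v D12 D13 D23 y1 y2 y3 O := by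
  filter_upwards [h] with a ha N hN h0
  have key : ∀ o : O, ∃ U : Set (E × E × E × E), IsOpen U ∧ (o : E × E × E × E) ∈ U ∧
      (v.prod (v.prod (v.prod v))) (N ∩ U) = 0 := by
    intro o
    obtain ⟨U, h1, h2, h3⟩ := ha o.1 o.2
    exact ⟨U, h1, h2, h3 N hN h0⟩
  choose U hU hoU hnull using key
  obtain ⟨S, hS, hSU⟩ := TopologicalSpace.isOpen_iUnion_countable U hU
  have e1 : N ∩ O ⊆ ⋃ o ∈ S, N ∩ U o := by
    rintro o ⟨hoN, hoO⟩
    have h1 : o ∈ ⋃ o : O, U o := mem_iUnion.2 ⟨⟨o, hoO⟩, hoU _⟩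
    rw [← hSU] at h1
    obtain ⟨o', ho'S, h2⟩ := mem_iUnion₂.1 h1
    exact mem_iUnion₂.2 ⟨o', ho'S, hoN, h2⟩
  exact measure_mono_null e1 ((measure_biUnion_null_iff hS).2 fun o _ => hnull o)

end abstract

section curves

variable {A B C : Type*} [MeasurableSpace A] [MeasurableSpace B] [MeasurableSpace C]

/-- **the lanes of the arc `a` at the positions `z, z'` of the starts and `w, w'` of the ends** -/
def LaneAt (g1 : A → C(unitInterval, ℂ)) (g2 : B → C(unitInterval, ℂ)) (g3 : C → C(unitInterval, ℂ)) (y1 : A → ℂ)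
    (y2 : B → ℂ) (y3 : C → ℂ) (b2 m2 : Measure B) (b3 m3 : Measure C) (v : Measure ℂ) (m0 : ℝ) (a : A)
    (z z' w w' : ℂ) : Prop :=
  ∃ η : ℝ, 0 < η ∧ 6 * η ≤ m0 ∧ ∃ K K' : Set ℂ, IsClosed K ∧ IsClosed K' ∧
    (∀ s, ∀ k ∈ K, η < dist (g1 a s) k) ∧ (∀ s, ∀ k ∈ K', η < dist (g1 a s) k) ∧ (∀ k ∈ K, ∀ k' ∈ K', 2 * η < dist k k') ∧
    v.restrict (Metric.closedBall (z + y1 a - w) (2 * η)) ≪ (b2.restrict (Inn g2 z K)).map y2 ∧
    v.restrict (Metric.closedBall (z' + y1 a - w') (2 * η)) ≪ (b3.restrict (Inn g3 z' K')).map y3 ∧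
    m2 (Inn g2 z K ∩ y2 ⁻¹' Metric.closedBall (z + y1 a - w) (2 * η)) ≠ 0 ∧
    m3 (Inn g3 z' K' ∩ y3 ⁻¹' Metric.closedBall (z' + y1 a - w') (2 * η)) ≠ 0

/-- everything in two lanes is compatible -/
lemma lane_geo {g1 : A → C(unitInterval, ℂ)} {g2 : B → C(unitInterval, ℂ)} {g3 : C → C(unitInterval, ℂ)} {y1 : A → ℂ}
    {y2 : B → ℂ} {y3 : C → ℂ} {z0 z0' w0 w0' : ℂ} {η : ℝ} {Z12 Z13 Z23 W12 W13 W23 : Set ℂ}
    (hZ12 : Metric.closedBall z0 η ⊆ Z12) (hZ13 : Metric.closedBall z0' η ⊆ Z13)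
    (hZ23 : Metric.closedBall (z0' - z0) (2 * η) ⊆ Z23) (hW12 : Metric.closedBall w0 (3 * η) ⊆ W12)
    (hW13 : Metric.closedBall w0' (3 * η) ⊆ W13) (hW23 : Metric.closedBall (w0' - w0) (6 * η) ⊆ W23) {a : A} {K K' : Set ℂ}
    (d1 : ∀ s, ∀ k ∈ K, η < dist (g1 a s) k) (d2 : ∀ s, ∀ k ∈ K', η < dist (g1 a s) k)
    (d3 : ∀ k ∈ K, ∀ k' ∈ K', 2 * η < dist k k') :
    ∀ x ∈ Inn g2 z0 K ∩ y2 ⁻¹' Metric.closedBall (z0 + y1 a - w0) (2 * η),
      ∀ x' ∈ Inn g3 z0' K' ∩ y3 ⁻¹' Metric.closedBall (z0' + y1 a - w0') (2 * η),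
        ∀ z ∈ Metric.closedBall z0 η, ∀ z' ∈ Metric.closedBall z0' η, (a, x, z) ∈ DD g1 g2 y1 y2 Z12 W12 ∧
          (a, x', z') ∈ DD g1 g3 y1 y3 Z13 W13 ∧ (x, x', z' - z) ∈ DD g2 g3 y2 y3 Z23 W23 := by
  rintro x ⟨hx, tx⟩ x' ⟨hx', tx'⟩ z hz z' hz'
  have hz1 : dist z z0 ≤ η := hz
  have hz2 : dist z' z0' ≤ η := hz'
  have tx1 : dist (y2 x) (z0 + y1 a - w0) ≤ 2 * η := tx
  have tx2 : dist (y3 x') (z0' + y1 a - w0') ≤ 2 * η := tx'
  obtain ⟨g1', g2', g3'⟩ := sup_geo d1 d2 d3 hx hx' hz1 hz2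
  have w1 : dist (z + y1 a - y2 x) w0 ≤ 3 * η := by
    have e : z + y1 a - y2 x - w0 = (z - z0) - (y2 x - (z0 + y1 a - w0)) := by ring
    rw [dist_eq_norm] at hz1 tx1 ⊢
    rw [e]
    refine (norm_sub_le _ _).trans ?_
    linarith
  have w2 : dist (z' + y1 a - y3 x') w0' ≤ 3 * η := by
    have e : z' + y1 a - y3 x' - w0' = (z' - z0') - (y3 x' - (z0' + y1 a - w0')) := by ring
    rw [dist_eq_norm] at hz2 tx2 ⊢
    rw [e]
    refine (norm_sub_le _ _).trans ?_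
    linarith
  refine ⟨⟨g1', hZ12 hz1, hW12 w1⟩, ⟨g2', hZ13 hz2, hW13 w2⟩, ⟨g3', hZ23 ?_, hW23 ?_⟩⟩
  · show dist (z' - z) (z0' - z0) ≤ 2 * η
    have e : z' - z - (z0' - z0) = (z' - z0') - (z - z0) := by ring
    rw [dist_eq_norm] at hz1 hz2 ⊢
    rw [e]
    refine (norm_sub_le _ _).trans ?_
    linarith
  · show dist (z' - z + y2 x - y3 x') (w0' - w0) ≤ 6 * η
    have e : z' - z + y2 x - y3 x' - (w0' - w0) = (z' + y1 a - y3 x' - w0') - (z + y1 a - y2 x - w0) := by ring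
    rw [dist_eq_norm] at w1 w2 ⊢
    rw [e]
    refine (norm_sub_le _ _).trans ?_
    linarith

/-- positive measure of a set which contains a box -/
lemma box_ne {X : Type*} [MeasurableSpace X] (μ : Measure X) [SFinite μ] {v : Measure ℂ} [SFinite v] [v.IsOpenPosMeasure]
    {V : Set X} {c : ℂ} {η : ℝ} {T : Set (X × ℂ)} (hη : 0 < η) (hV : μ V ≠ 0) (hsub : V ×ˢ Metric.closedBall c η ⊆ T) :
    (μ.prod v) T ≠ 0 := by
  intro h0
  have h1 := measure_mono_null hsub h0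
  rw [Measure.prod_prod] at h1
  rcases mul_eq_zero.1 h1 with h | h
  · exact hV h
  · exact (Metric.measure_closedBall_pos v c hη).ne' h

/-- **C4 from lanes** -/
theorem c4_low {K1 K2 K3 : Type*} [MeasurableSpace K1] [MeasurableSpace K2] [MeasurableSpace K3]
    {β1 : Measure (K1 × A)} {β2 : Measure (K2 × B)} {β3 : Measure (K3 × C)} {b1 : Measure A} {b2 : Measure B}
    {b3 : Measure C} {v : Measure ℂ} [SigmaFinite β1.snd] [SigmaFinite b1] [SigmaFinite β2.snd] [SigmaFinite b2]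
    [SigmaFinite β3.snd] [SigmaFinite b3] [SigmaFinite v] [v.IsAddLeftInvariant] [v.IsOpenPosMeasure]
    {g1 : A → C(unitInterval, ℂ)} {g2 : B → C(unitInterval, ℂ)} {g3 : C → C(unitInterval, ℂ)}
    (n1 : Measurable g1) (n2 : Measurable g2) (n3 : Measurable g3) {y1 : A → ℂ} {y2 : B → ℂ} {y3 : C → ℂ}
    (hy1 : Measurable y1) (hy2 : Measurable y2) (hy3 : Measurable y3)
    {Z Z' W W' Z12 Z13 Z23 W12 W13 W23 : Set ℂ} {m0 : ℝ} (kZ12 : MeasurableSet Z12) (kZ13 : MeasurableSet Z13)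
    (kZ23 : MeasurableSet Z23) (kW12 : MeasurableSet W12) (kW13 : MeasurableSet W13) (kW23 : MeasurableSet W23)
    (hZ12 : ∀ z ∈ Z, Metric.closedBall z m0 ⊆ Z12) (hZ13 : ∀ z ∈ Z', Metric.closedBall z m0 ⊆ Z13)
    (hZ23 : ∀ z ∈ Z, ∀ z' ∈ Z', Metric.closedBall (z' - z) m0 ⊆ Z23) (hW12 : ∀ w ∈ W, Metric.closedBall w m0 ⊆ W12)
    (hW13 : ∀ w ∈ W', Metric.closedBall w m0 ⊆ W13) (hW23 : ∀ w ∈ W, ∀ w' ∈ W', Metric.closedBall (w' - w) m0 ⊆ W23)
    {t12 t13 t23 : ℂ × ℂ → ℝ≥0∞}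
    (hO : (v.prod (v.prod (v.prod v))) ({o | t12 (o12 o) ≠ 0 ∧ t23 (o23 o) ≠ 0} ∩ (Z ×ˢ Z' ×ˢ W ×ˢ W')) ≠ 0)
    (lane : ∀ᵐ a ∂(β1.snd + b1), ∀ z ∈ Z, ∀ z' ∈ Z', ∀ w ∈ W, ∀ w' ∈ W',
      LaneAt g1 g2 g3 y1 y2 y3 b2 β2.snd b3 β3.snd v m0 a z z' w w')
    (p12 : Par t12 β1.snd b1 β2.snd b2 v (DD g1 g2 y1 y2 Z12 W12) y1 y2)
    (p13 : Par t13 β1.snd b1 β3.snd b3 v (DD g1 g3 y1 y3 Z13 W13) y1 y3)
    (p23 : Par t23 β2.snd b2 β3.snd b3 v (DD g2 g3 y2 y3 Z23 W23) y2 y3)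
    (pS : ∀ S : Set K1, MeasurableSet S → ∃ tS, Par tS (sec β1 S) b1 β2.snd b2 v (DD g1 g2 y1 y2 Z12 W12) y1 y2) :
    ∃ ν : Measure K1, IsFiniteMeasure ν ∧ β1 = ν.prod b1 := by
  have mD12 := dd_meas n1 n2 hy1 hy2 kZ12 kW12
  have mD13 := dd_meas n1 n3 hy1 hy3 kZ13 kW13
  have mD23 := dd_meas n2 n3 hy2 hy3 kZ23 kW23
  have mB : ∀ (c : ℂ) (r : ℝ), MeasurableSet (Metric.closedBall c r) := fun c r => Metric.isClosed_closedBall.measurableSet
  -- the arcs with companions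
  obtain ⟨T2, hT2⟩ : ∃ T2 : Set B, T2 = {x | (β3.snd.prod v) {q | (x, q) ∈ DD g2 g3 y2 y3 Z23 W23} ≠ 0} := ⟨_, rfl⟩
  obtain ⟨T3, hT3⟩ : ∃ T3 : Set C, T3 = {x | (β2.snd.prod v) {q | (q.1, (x, q.2)) ∈ DD g2 g3 y2 y3 Z23 W23} ≠ 0} :=
    ⟨_, rfl⟩
  have mT2 : MeasurableSet T2 := by
    rw [hT2]
    exact (measurableSet_eq_fun (measurable_measure_prodMk_left mD23) measurable_const).compl
  have mT3 : MeasurableSet T3 := by
    rw [hT3]
    have hm : Measurable fun p : C × (B × ℂ) => (p.2.1, (p.1, p.2.2)) := by fun_prop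
    exact (measurableSet_eq_fun (measurable_measure_prodMk_left (hm mD23)) measurable_const).compl
  -- one arc with lanes
  have one : ∀ a : A, ∀ z ∈ Z, ∀ z' ∈ Z', ∀ w ∈ W, ∀ w' ∈ W',
      LaneAt g1 g2 g3 y1 y2 y3 b2 β2.snd b3 β3.snd v m0 a z z' w w' → ∃ (η : ℝ) (V : Set B) (V' : Set C), 0 < η ∧
        MeasurableSet V ∧ MeasurableSet V' ∧ V ⊆ T2 ∧ V' ⊆ T3 ∧ β2.snd V ≠ 0 ∧ β3.snd V' ≠ 0 ∧
        (∀ x ∈ V, ∀ x' ∈ V', ∀ ζ ∈ Metric.closedBall z η, ∀ ζ' ∈ Metric.closedBall z' η,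
          (a, x, ζ) ∈ DD g1 g2 y1 y2 Z12 W12 ∧ (a, x', ζ') ∈ DD g1 g3 y1 y3 Z13 W13 ∧
            (x, x', ζ' - ζ) ∈ DD g2 g3 y2 y3 Z23 W23) ∧
        v.restrict (Metric.closedBall (z + y1 a - w) (2 * η)) ≪ (b2.restrict V).map y2 ∧
        v.restrict (Metric.closedBall (z' + y1 a - w') (2 * η)) ≪ (b3.restrict V').map y3 := by
    rintro a z hz z' hz' w hw w' hw' ⟨η, hη, hηm, K, K', cK, cK', d1, d2, d3, l2, l3, q2, q3⟩
    have hb : ∀ (c : ℂ) {r s : ℝ} {X : Set ℂ}, r ≤ s → Metric.closedBall c s ⊆ X → Metric.closedBall c r ⊆ X :=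
      fun c r s X h1 h2 => (Metric.closedBall_subset_closedBall h1).trans h2
    have geo := lane_geo (g1 := g1) (g2 := g2) (g3 := g3) (y1 := y1) (y2 := y2) (y3 := y3) (a := a) (hb z (by linarith) (hZ12 z hz))
      (hb z' (by linarith) (hZ13 z' hz')) (hb (z' - z) (by linarith) (hZ23 z hz z' hz')) (hb w (by linarith) (hW12 w hw))
      (hb w' (by linarith) (hW13 w' hw')) (hb (w' - w) hηm (hW23 w hw w' hw')) d1 d2 d3
    refine ⟨η, Inn g2 z K ∩ y2 ⁻¹' Metric.closedBall (z + y1 a - w) (2 * η),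
      Inn g3 z' K' ∩ y3 ⁻¹' Metric.closedBall (z' + y1 a - w') (2 * η), hη, (inn_meas n2 z cK).inter (hy2 (mB _ _)),
      (inn_meas n3 z' cK').inter (hy3 (mB _ _)), ?_, ?_, q2, q3, geo,
      ac_rst (inn_meas n2 z cK) hy2 (mB _ _) l2, ac_rst (inn_meas n3 z' cK') hy3 (mB _ _) l3⟩
    · intro x hx
      rw [hT2]
      refine box_ne β3.snd hη q3 (c := z' - z) ?_
      rintro ⟨x', ζ⟩ ⟨hx', hζ⟩
      have e : dist (ζ + z) z' ≤ η := by
        have h1 : dist ζ (z' - z) ≤ η := hζ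
        rw [dist_eq_norm] at h1 ⊢
        rwa [show ζ + z - z' = ζ - (z' - z) by ring]
      have := (geo x hx x' hx' z (Metric.mem_closedBall_self hη.le) (ζ + z) e).2.2
      rwa [add_sub_cancel_right] at this
    · intro x' hx'
      rw [hT3]
      refine box_ne β2.snd hη q2 (c := z' - z) ?_
      rintro ⟨x, ζ⟩ ⟨hx, hζ⟩
      have e : dist (ζ + z) z' ≤ η := by
        have h1 : dist ζ (z' - z) ≤ η := hζ
        rw [dist_eq_norm] at h1 ⊢
        rwa [show ζ + z - z' = ζ - (z' - z) by ring]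
      have := (geo x hx x' hx' z (Metric.mem_closedBall_self hη.le) (ζ + z) e).2.2
      rwa [add_sub_cancel_right] at this
  rw [ae_add_measure_iff] at lane
  -- the positions are not empty
  obtain ⟨o0, ho0⟩ : (Z ×ˢ Z' ×ˢ W ×ˢ W').Nonempty := by
    rw [nonempty_iff_ne_empty]
    intro h0
    apply hO
    rw [h0, inter_empty, measure_empty]
  refine c4_sub mD12 mD13 mD23 hy1 hy2 hy3 hO mT2 mT3 ?_ ?_ ?_ ?_ p12 p13 p23 pS
  · rw [ae_restrict_iff' mT2]
    refine Filter.Eventually.of_forall fun x hx => ?_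
    rw [hT2] at hx
    exact hx
  · rw [ae_restrict_iff' mT3]
    refine Filter.Eventually.of_forall fun x hx => ?_
    rw [hT3] at hx
    exact hx
  · filter_upwards [lane.1] with a ha
    obtain ⟨η, V, V', hη, mV, mV', hV, hV', q2, q3, geo, l2, l3⟩ :=
      one a _ ho0.1 _ ho0.2.1 _ ho0.2.2.1 _ ho0.2.2.2 (ha _ ho0.1 _ ho0.2.1 _ ho0.2.2.1 _ ho0.2.2.2)
    have q2' : (β2.snd.restrict T2) V ≠ 0 := by
      rwa [Measure.restrict_apply mV, inter_eq_left.2 hV]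
    have hne : V'.Nonempty := nonempty_of_measure_ne_zero q3
    obtain ⟨x', hx'⟩ := hne
    refine box_ne (β2.snd.restrict T2) hη q2' (c := o0.1) ?_
    rintro ⟨x, ζ⟩ ⟨hx, hζ⟩
    exact (geo x hx x' hx' ζ hζ _ (Metric.mem_closedBall_self hη.le)).1
  · refine sup_lind ?_
    filter_upwards [lane.2] with a ha
    rintro ⟨z, z', w, w'⟩ ⟨hz, hz', hw, hw'⟩
    obtain ⟨η, V, V', hη, mV, mV', hV, hV', q2, q3, geo, l2, l3⟩ := one a z hz z' hz' w hw w' hw' (ha z hz z' hz' w hw w' hw')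
    refine ⟨Metric.ball z η ×ˢ Metric.ball z' η ×ˢ Metric.ball w η ×ˢ Metric.ball w' η,
      Metric.isOpen_ball.prod (Metric.isOpen_ball.prod (Metric.isOpen_ball.prod Metric.isOpen_ball)),
      ⟨Metric.mem_ball_self hη, Metric.mem_ball_self hη, Metric.mem_ball_self hη, Metric.mem_ball_self hη⟩,
      fun N hN h0 => ?_⟩
    have tri : ∀ {z w y c d : ℂ}, dist z c ≤ η → dist w d ≤ η → dist (z + y - w) (c + y - d) ≤ 2 * η := by
      intro z w y c d h1 h2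
      have e : z + y - w - (c + y - d) = (z - c) - (w - d) := by ring
      rw [dist_eq_norm] at h1 h2 ⊢
      rw [e]
      refine (norm_sub_le _ _).trans ?_
      linarith
    have r2 : (b2.restrict T2).restrict V = b2.restrict V := by
      rw [Measure.restrict_restrict mV, inter_eq_left.2 hV]
    have r3 : (b3.restrict T3).restrict V' = b3.restrict V' := by
      rw [Measure.restrict_restrict mV', inter_eq_left.2 hV']
    have g := sup_cell (a := a) (y1 := y1) (b2 := b2.restrict T2) (b3 := b3.restrict T3) (v := v) (V := V) (V' := V')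
      (T := Metric.closedBall (z + y1 a - w) (2 * η)) (T' := Metric.closedBall (z' + y1 a - w') (2 * η))
      hy2 hy3 mV mV' (mB z η) (mB z' η) (mB w η) (mB w' η) (mB _ _) (mB _ _) geo (fun ζ hζ ω hω => tri hζ hω)
      (fun ζ hζ ω hω => tri hζ hω) (r2 ▸ l2) (r3 ▸ l3) hN h0
    refine measure_mono_null ?_ g
    refine inter_subset_inter_right _ ?_
    exact prod_mono Metric.ball_subset_closedBall (prod_mono Metric.ball_subset_closedBall
      (prod_mono Metric.ball_subset_closedBall Metric.ball_subset_closedBall))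

end curves

end Pool.Agent.ROT.F3
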