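import Pool.Agent.ROT.F3Mid

/-!
# ROT, F3, row C4 (helper17): the positivity of `c4` from the product form of the density of the own lattice

* `gh_pos` : if `P` charges `z ∈ Zs, w ∈ Ws` then `g` does not vanish on a part of `Zs` and `h` on a part of `Ws`;
* `t_ne` : the density of (PP) does not vanish where `g (z) h (w)` does not;
* **`hO_prod`** : the hypothesis `hO` of `c4`.
-/

set_option autoImplicit false
set_option linter.unusedSectionVars false

namespace Pool.Agent.ROT.F3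

open MeasureTheory Set
open scoped ENNReal

section pair

variable {A B E K1 K2 : Type*} [MeasurableSpace A] [MeasurableSpace B] [MeasurableSpace E] [MeasurableSpace K1]
  [MeasurableSpace K2] [AddCommGroup E] [MeasurableAdd₂ E] [MeasurableNeg E]

/-- the density `g (z) * h (w)` -/
noncomputable def ghd (g h : E → ℝ≥0∞) (s : E × E) : ℝ≥0∞ := g s.1 * h s.2

omit [AddCommGroup E] [MeasurableAdd₂ E] [MeasurableNeg E] in
lemma ghd_meas {g h : E → ℝ≥0∞} (mg : Measurable g) (mh : Measurable h) : Measurable (ghd g h) :=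
  (mg.comp measurable_fst).mul (mh.comp measurable_snd)

/-- a null set of ends is a null set of pairs -/
lemma null_w {b1 : Measure A} {b2 : Measure B} {v : Measure E} [SFinite b1] [SFinite b2] [SFinite v]
    [v.IsAddLeftInvariant] {y1 : A → E} {y2 : B → E} (h1 : Measurable y1) (h2 : Measurable y2) {N : Set E}
    (mN : MeasurableSet N) (hN : v N = 0) :
    (b1.prod (b2.prod v)) {p | (zw y1 y2 p).2 ∈ N} = 0 := by
  have mS : MeasurableSet {p : A × (B × E) | (zw y1 y2 p).2 ∈ N} := measurable_snd.comp (zw_meas h1 h2) mN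
  rw [Measure.measure_prod_null mS]
  refine Filter.Eventually.of_forall fun a => ?_
  have mS2 : MeasurableSet (Prod.mk a ⁻¹' {p : A × (B × E) | (zw y1 y2 p).2 ∈ N}) := measurable_prodMk_left mS
  show (b2.prod v) _ = 0
  rw [Measure.measure_prod_null mS2]
  refine Filter.Eventually.of_forall fun b => ?_
  show v {z | z + y1 a - y2 b ∈ N} = 0
  have e : {z | z + y1 a - y2 b ∈ N} = (fun z => (y1 a - y2 b) + z) ⁻¹' N := by
    ext z
    simp only [mem_ofPred_eq, mem_preimage]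
    rw [show z + y1 a - y2 b = y1 a - y2 b + z by abel]
  rw [e, measure_preimage_add, hN]

omit [AddCommGroup E] [MeasurableAdd₂ E] [MeasurableNeg E] in
/-- a null set of starts is a null set of pairs -/
lemma null_z {b1 : Measure A} {b2 : Measure B} {v : Measure E} [SFinite b1] [SFinite b2] [SFinite v] {N : Set E}
    (hN : v N = 0) : (b1.prod (b2.prod v)) {p | p.2.2 ∈ N} = 0 := by
  have e : {p : A × (B × E) | p.2.2 ∈ N} = univ ×ˢ (univ ×ˢ N) := by
    ext p
    simp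
  rw [e, Measure.prod_prod, Measure.prod_prod, hN, mul_zero, mul_zero]

/-- **positivity of the two factors** -/
theorem gh_pos {b1 : Measure A} {b2 : Measure B} {v : Measure E} [SFinite b1] [SFinite b2] [SFinite v]
    [v.IsAddLeftInvariant] {D : Set (A × (B × E))} {y1 : A → E} {y2 : B → E} (h1 : Measurable y1) (h2 : Measurable y2)
    {g h : E → ℝ≥0∞} (mg : Measurable g) (mh : Measurable h) {Zs Ws : Set E} (mW : MeasurableSet Ws)
    (hp : (((b1.prod (b2.prod v)).restrict D).withDensity (ghd g h ∘ zw y1 y2)) {p | zw y1 y2 p ∈ Zs ×ˢ Ws} ≠ 0) :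
    v (Zs ∩ {z | g z ≠ 0}) ≠ 0 ∧ v (Ws ∩ {w | h w ≠ 0}) ≠ 0 := by
  have hq := zw_meas (A := A) (B := B) h1 h2
  have mf : Measurable (ghd g h ∘ zw y1 y2) := (ghd_meas mg mh).comp hq
  have key : ∀ N : Set (A × (B × E)), (b1.prod (b2.prod v)) N = 0 →
      (∀ p, zw y1 y2 p ∈ Zs ×ˢ Ws → (ghd g h ∘ zw y1 y2) p ≠ 0 → p ∈ N) → False := by
    intro N hN hs
    apply hp
    rw [withDensity_apply_eq_zero mf]
    refine measure_mono_null ?_ ((Measure.restrict_le_self (s := D)).absolutelyContinuous hN)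
    rintro p ⟨p1, p2⟩
    exact hs p p2 p1
  constructor
  · intro h0
    refine key _ (null_z (b1 := b1) (b2 := b2) h0) fun p p1 p2 => ?_
    exact ⟨p1.1, left_ne_zero_of_mul p2⟩
  · intro h0
    have mN : MeasurableSet (Ws ∩ {w | h w ≠ 0}) := mW.inter (measurableSet_eq_fun mh measurable_const).compl
    refine key _ (null_w (b1 := b1) (b2 := b2) h1 h2 mN h0) fun p p1 p2 => ?_
    exact ⟨p1.2, right_ne_zero_of_mul p2⟩

/-- **where the density of the own lattice does not vanish** -/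
theorem t_ne {β1 : Measure (K1 × A)} {β2 : Measure (K2 × B)} {b1 : Measure A} {b2 : Measure B} {v : Measure E}
    [SFinite β1] [SFinite β2] [SigmaFinite b1] [SigmaFinite b2] [SigmaFinite v] {D : Set (A × (B × E))}
    (hD : MeasurableSet D) {y1 : A → E} {y2 : B → E} (h1 : Measurable y1) (h2 : Measurable y2)
    {P : Measure ((K1 × A) × ((K2 × B) × E))} {G : K1 × K2 × (E × E) → ℝ≥0∞}
    (h0 : P = ((β1.prod (β2.prod v)).restrict (pi3 ⁻¹' D)).withDensity (G ∘ cc y1 y2)) {g h : E → ℝ≥0∞}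
    (mg : Measurable g) (mh : Measurable h)
    (hg : P.map pi3 = ((b1.prod (b2.prod v)).restrict D).withDensity (ghd g h ∘ zw y1 y2))
    {t : E × E → ℝ≥0∞} (ht : Par t β1.snd b1 β2.snd b2 v D y1 y2) :
    ∀ᵐ p ∂((b1.prod (b2.prod v)).restrict D), ghd g h (zw y1 y2 p) ≠ 0 → t (zw y1 y2 p) ≠ 0 := by
  have hq := zw_meas (A := A) (B := B) h1 h2
  have hπ := pi3_meas (A := A) (B := B) (E := E) (K1 := K1) (K2 := K2)
  have e1 : (((β1.prod (β2.prod v)).restrict (pi3 ⁻¹' D)).map pi3) = ((β1.snd).prod (β2.snd.prod v)).restrict D := by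
    rw [← Measure.restrict_map hπ hD]
    congr 1
    have f3 : (pi3 : (K1 × A) × ((K2 × B) × E) → A × B × E) = Prod.map Prod.snd (Prod.map Prod.snd id) := rfl
    rw [f3, ← Measure.map_prod_map _ _ measurable_snd (by fun_prop), ← Measure.map_prod_map _ _ measurable_snd
      measurable_id, Measure.map_id]
    rfl
  have e2 : P.map pi3 ≪ ((β1.snd).prod (β2.snd.prod v)).restrict D := by
    rw [← e1, h0]
    exact (withDensity_absolutelyContinuous _ _).map hπ
  have mN : MeasurableSet {p : A × (B × E) | t (zw y1 y2 p) = 0} :=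
    measurableSet_eq_fun (ht.1.comp hq) measurable_const
  have e3 : ((β1.snd).prod (β2.snd.prod v)).restrict D {p : A × (B × E) | t (zw y1 y2 p) = 0} = 0 := by
    rw [ht.2, withDensity_apply _ mN]
    refine (setLIntegral_congr_fun mN (g := fun _ => 0) ?_).trans (by simp)
    intro p hp
    exact hp
  have e4 := e2 e3
  rw [hg] at e4
  have e5 := (withDensity_apply_eq_zero ((ghd_meas mg mh).comp hq)).1 e4
  rw [ae_iff]
  refine measure_mono_null ?_ e5
  intro p hp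
  rw [mem_ofPred_eq, Classical.not_imp, not_not] at hp
  exact hp

end pair

section three

variable {A B C E : Type*} [MeasurableSpace A] [MeasurableSpace B] [MeasurableSpace C] [MeasurableSpace E]
  [AddCommGroup E] [MeasurableAdd₂ E] [MeasurableNeg E]

/-- **the hypothesis `hO` of `c4`**: `Zs + Z23 ⊆ Z13` and so on is in `hsub` -/
theorem hO_prod {b1 : Measure A} {b2 : Measure B} {b3 : Measure C} {v : Measure E} [SFinite b1] [SFinite b2] [SFinite b3]
    [SFinite v] [v.IsAddLeftInvariant] {D12 : Set (A × (B × E))} {D13 : Set (A × (C × E))} {D23 : Set (B × (C × E))}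
    (hD12 : MeasurableSet D12) (hD23 : MeasurableSet D23) {y1 : A → E} {y2 : B → E} {y3 : C → E}
    {O : Set (E × E × E × E)} {t12 t23 : E × E → ℝ≥0∞} (k12 : Measurable t12) (k23 : Measurable t23)
    (hb : b1 ≠ 0) (hS : Sup b1 b2 b3 v D12 D13 D23 y1 y2 y3 O) {g12 h12 g23 h23 : E → ℝ≥0∞}
    (mg12 : Measurable g12) (mh12 : Measurable h12) (mg23 : Measurable g23) (mh23 : Measurable h23)
    (e12 : ∀ᵐ p ∂((b1.prod (b2.prod v)).restrict D12), ghd g12 h12 (zw y1 y2 p) ≠ 0 → t12 (zw y1 y2 p) ≠ 0)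
    (e23 : ∀ᵐ p ∂((b2.prod (b3.prod v)).restrict D23), ghd g23 h23 (zw y2 y3 p) ≠ 0 → t23 (zw y2 y3 p) ≠ 0)
    {Zs Ws Z23 W23 : Set E} (mZ : MeasurableSet Zs) (mW : MeasurableSet Ws) (mZ2 : MeasurableSet Z23)
    (mW2 : MeasurableSet W23) (hsub : ∀ z ∈ Zs, ∀ d ∈ Z23, ∀ w ∈ Ws, ∀ e ∈ W23, (z, z + d, w, w + e) ∈ O)
    (pg : v (Zs ∩ {z | g12 z ≠ 0}) ≠ 0) (ph : v (Ws ∩ {w | h12 w ≠ 0}) ≠ 0)
    (pg2 : v (Z23 ∩ {z | g23 z ≠ 0}) ≠ 0) (ph2 : v (W23 ∩ {w | h23 w ≠ 0}) ≠ 0) :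
    (v.prod (v.prod (v.prod v))) ({o | t12 (o12 o) ≠ 0 ∧ t23 (o23 o) ≠ 0} ∩ O) ≠ 0 := by
  -- the bad set
  obtain ⟨N, hN⟩ : ∃ N : Set (E × E × E × E), N = {o | ghd g12 h12 (o12 o) ≠ 0 ∧ t12 (o12 o) = 0} ∪
      {o | ghd g23 h23 (o23 o) ≠ 0 ∧ t23 (o23 o) = 0} := ⟨_, rfl⟩
  have mN : MeasurableSet N := by
    rw [hN]
    have a1 : Measurable fun o : E × E × E × E => ghd g12 h12 (o12 o) := (ghd_meas mg12 mh12).comp m12
    have a2 : Measurable fun o : E × E × E × E => ghd g23 h23 (o23 o) := (ghd_meas mg23 mh23).comp m23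
    exact ((measurableSet_eq_fun a1 measurable_const).compl.inter
        (measurableSet_eq_fun (k12.comp m12) measurable_const)).union
      ((measurableSet_eq_fun a2 measurable_const).compl.inter
        (measurableSet_eq_fun (k23.comp m23) measurable_const))
  have hne : (ae b1).NeBot := ae_neBot.2 hb
  have f12 : ∀ᵐ p ∂(b1.prod (b2.prod v)), p ∈ D12 → ghd g12 h12 (zw y1 y2 p) ≠ 0 → t12 (zw y1 y2 p) ≠ 0 :=
    (ae_restrict_iff' hD12).1 e12
  have f23 : ∀ᵐ p ∂(b2.prod (b3.prod v)), p ∈ D23 → ghd g23 h23 (zw y2 y3 p) ≠ 0 → t23 (zw y2 y3 p) ≠ 0 :=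
    (ae_restrict_iff' hD23).1 e23
  have e23' := (q23 b2 b3 v).ae f23
  obtain ⟨a, ha, ha12⟩ := (hS.and (Measure.ae_ae_of_ae_prod f12)).exists
  have e12' := (q12 b2 b3 v).ae ha12
  have h0 : (b2.prod (b3.prod (v.prod v))) (Cp D12 D13 D23 a ∩ cor y1 y2 y3 a ⁻¹' N) = 0 := by
    rw [← compl_mem_ae_iff]
    filter_upwards [e12', e23'] with q d12 d23
    rintro ⟨⟨c12, _, c23⟩, hq⟩
    rw [mem_preimage, hN] at hq
    rcases hq with hq | hq
    · exact d12 c12 hq.1 hq.2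
    · have w : q.2.2.2 - q.2.2.1 + y2 q.1 - y3 q.2.1 =
          q.2.2.2 + y1 a - y3 q.2.1 - (q.2.2.1 + y1 a - y2 q.1) := by abel
      have w2 : zw y2 y3 (q.1, q.2.1, q.2.2.2 - q.2.2.1) = o23 (cor y1 y2 y3 a q) := by
        unfold zw o23 cor
        simp only
        rw [w]
      have g1 : ghd g23 h23 (zw y2 y3 (q.1, q.2.1, q.2.2.2 - q.2.2.1)) ≠ 0 := by
        rw [w2]
        exact hq.1
      refine d23 c23 g1 ?_
      rw [w2]
      exact hq.2
  have h3 := ha N mN h0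
  -- the good set
  obtain ⟨Q, hQ⟩ : ∃ Q : Set (E × E × E × E), Q = {o | o.1 ∈ Zs ∩ {z | g12 z ≠ 0} ∧ o.2.1 - o.1 ∈ Z23 ∩ {z | g23 z ≠ 0} ∧
      o.2.2.1 ∈ Ws ∩ {w | h12 w ≠ 0} ∧ o.2.2.2 - o.2.2.1 ∈ W23 ∩ {w | h23 w ≠ 0}} := ⟨_, rfl⟩
  -- the shear
  have sh1 : MeasurePreserving (fun p : E × E => (p.1, p.2 - p.1)) (v.prod v) (v.prod v) := by
    have := measurePreserving_prod_neg_add v v
    refine (this.congr (by simp only [sub_eq_add_neg]; fun_prop) (ae_of_all _ fun p => ?_))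
    show (p.1, -p.1 + p.2) = (p.1, p.2 - p.1)
    rw [neg_add_eq_sub]
  have r2 : MeasurePreserving (fun p : E × E × E × E => ((p.1, p.2.1), p.2.2)) (v.prod (v.prod (v.prod v)))
      ((v.prod v).prod (v.prod v)) := (measurePreserving_prodAssoc v v (v.prod v)).symm _
  have r3 := (sh1.prod sh1).comp r2
  have mA1 : MeasurableSet (Zs ∩ {z | g12 z ≠ 0}) := mZ.inter (measurableSet_eq_fun mg12 measurable_const).compl
  have mA2 : MeasurableSet (Z23 ∩ {z | g23 z ≠ 0}) := mZ2.inter (measurableSet_eq_fun mg23 measurable_const).compl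
  have mA3 : MeasurableSet (Ws ∩ {w | h12 w ≠ 0}) := mW.inter (measurableSet_eq_fun mh12 measurable_const).compl
  have mA4 : MeasurableSet (W23 ∩ {w | h23 w ≠ 0}) := mW2.inter (measurableSet_eq_fun mh23 measurable_const).compl
  have hQm : (v.prod (v.prod (v.prod v))) Q ≠ 0 := by
    have e : Q = (Prod.map (fun p : E × E => (p.1, p.2 - p.1)) (fun p : E × E => (p.1, p.2 - p.1)) ∘
        fun p : E × E × E × E => ((p.1, p.2.1), p.2.2)) ⁻¹'
        (((Zs ∩ {z | g12 z ≠ 0}) ×ˢ (Z23 ∩ {z | g23 z ≠ 0})) ×ˢ ((Ws ∩ {w | h12 w ≠ 0}) ×ˢ (W23 ∩ {w | h23 w ≠ 0}))) := by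
      rw [hQ]
      ext o
      simp only [mem_ofPred_eq, mem_preimage, Function.comp_apply, Prod.map_apply, mem_prod]
      tauto
    rw [e, r3.measure_preimage ((mA1.prod mA2).prod (mA3.prod mA4)).nullMeasurableSet, Measure.prod_prod,
      Measure.prod_prod, Measure.prod_prod]
    exact mul_ne_zero (mul_ne_zero pg pg2) (mul_ne_zero ph ph2)
  intro h4
  apply hQm
  refine measure_mono_null ?_ (measure_union_null h3 h4)
  intro o ho
  rw [hQ] at ho
  obtain ⟨⟨z1, z2⟩, ⟨d1, d2⟩, ⟨w1, w2⟩, c1, c2⟩ := ho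
  have hoO : o ∈ O := by
    have := hsub o.1 z1 (o.2.1 - o.1) d1 o.2.2.1 w1 (o.2.2.2 - o.2.2.1) c1
    rwa [add_sub_cancel, add_sub_cancel] at this
  by_cases h : o ∈ N
  · exact Or.inl ⟨h, hoO⟩
  · refine Or.inr ⟨?_, hoO⟩
    rw [hN] at h
    have n1 : ghd g12 h12 (o12 o) ≠ 0 := mul_ne_zero z2 w2
    have n2 : ghd g23 h23 (o23 o) ≠ 0 := mul_ne_zero d2 c2
    exact ⟨fun h5 => h (Or.inl ⟨n1, h5⟩), fun h5 => h (Or.inr ⟨n2, h5⟩)⟩

end three

end Pool.Agent.ROT.F3
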