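import Pool.Agent.ROT.F3Ends

/-!
# F3, row W7 (helper64): the two channels beside the main arc

**`chan`** : a simple curve `c` (the main arc, in the skew coordinates of the lattice) with the hypotheses of `real_comp`; starts
`z2`, `z3` near `P` and ends `e2`, `e3` near `Q` of the right types. For every `ε > 0` there are two companions (`Chn`: chains of
subcells with straight stubs, node meshes `μ2`, `μ3`) which start within two nodes of `z2`, `z3`, whose displacements are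
`e2 - z2`, `e3 - z3` up to `ε μ2`, `ε μ3`, and such that the unions `KS` of the closed subcells near the companions are at positive
distance of the arc and of each other.
-/

set_option autoImplicit false

namespace HexObs

namespace ROT

namespace F3L

open ARM (adj nr nr_iff nr_symm nr_trans nr_mono nr_self)
open ART ART.Lane Set F3S TS SDN

/-- **one companion**, as data for the words: node mesh `μ`, start near `z`, displacement `e - z` up to `ε μ`; the nodes of the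
chain and of the other stub are at distance at least `R0` (`R1`) of the first (last) node -/
structure Chn (μ ε R0 R1 : ℝ) (z e : ℝ × ℝ) (M : List (ℤ × ℤ)) (x0 x1 ω0 ω1 : ℤ × ℤ) (s s' : ℕ) : Prop where
  comp : Comp M x0 x1 ω0 (-1, 0) ω1 (-1, 0) s s'
  s1 : 1 ≤ s
  s1' : 1 ≤ s'
  st : dist z (nd μ (ART.ctr x0 + (s : ℤ) • ω0)) ≤ 2 * μ
  dp : dist (e - z) (nd μ (ART.ctr x1 + (s' : ℤ) • ω1 - (ART.ctr x0 + (s : ℤ) • ω0))) ≤ ε * μ
  far0 : ∀ x, (x ∈ SN M ∨ ∃ j : ℕ, j ≤ s' ∧ x = ART.ctr x1 + (j : ℤ) • ω1) →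
    R0 ≤ dist (nd μ (ART.ctr x0 + (s : ℤ) • ω0)) (nd μ x)
  far1 : ∀ x, (x ∈ SN M ∨ ∃ j : ℕ, j ≤ s ∧ x = ART.ctr x0 + (j : ℤ) • ω0) →
    R1 ≤ dist (nd μ (ART.ctr x1 + (s' : ℤ) • ω1)) (nd μ x)

/-- the curve is far from a stub of the north type -/
lemma n_curve {c : ℝ → ℝ × ℝ} {P y : ℝ × ℝ} {b' b dl η : ℝ}
    (hP : ∀ t, 0 ≤ t → t ≤ 1 → dist P (c t) ≤ b' → P.1 ≤ (c t).1)
    (h1 : y.1 ≤ P.1 - dl / 2) (h3 : dist P y ≤ b) (g1 : η ≤ dl / 2) (g2 : η ≤ b' - b) {t : ℝ} (t0 : 0 ≤ t) (t1 : t ≤ 1) :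
    η ≤ dist (c t) y := by
  rcases le_or_gt (dist P (c t)) b' with h | h
  · have := hP t t0 t1 h
    exact le_dist1 (Or.inl (by linarith))
  · have := dist_triangle P y (c t)
    rw [dist_comm y (c t)] at this
    linarith

/-- the curve is far from a stub of the south type -/
lemma s_curve {c : ℝ → ℝ × ℝ} {P y : ℝ × ℝ} {w e e' b' b dl η : ℝ}
    (hsP : ∀ t, 0 ≤ t → t ≤ 1 → dist P (c t) ≤ b' → (c t).1 ≤ P.1 + e' → |(c t).2 - P.2| ≤ w)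
    (he : e ≤ e') (h1 : y.1 ≤ P.1 + 3 / 4 * e) (h2 : y.2 ≤ P.2 - w - dl / 2) (h3 : dist P y ≤ b) (g1 : η ≤ dl / 2)
    (g2 : η ≤ b' - b) (g3 : η ≤ e / 4) {t : ℝ} (t0 : 0 ≤ t) (t1 : t ≤ 1) : η ≤ dist (c t) y := by
  rcases le_or_gt (dist P (c t)) b' with h | h
  · have k2 := hsP t t0 t1 h
    rcases le_or_gt (c t).1 (P.1 + e') with h4 | h4
    · have := abs_le.1 (k2 h4)
      exact le_dist1 (Or.inr (Or.inr (Or.inl (by linarith [this.1]))))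
    · exact le_dist1 (Or.inl (by linarith))
  · have := dist_triangle P y (c t)
    rw [dist_comm y (c t)] at this
    linarith

lemma bl_cel {s : ℝ} (hs : 0 < s) (y : ℝ × ℝ) : bl (cel (s / 2) y) = cel s y := by
  have := co_cel (K := 2) (by norm_num) hs y
  unfold co at this
  unfold bl
  simpa using this

/-- the points of a union of closed cells near a companion: three cases -/
lemma KS_cases {μ : ℝ} {M : List (ℤ × ℤ)} {x0 x1 ω0 ω1 : ℤ × ℤ} {s s' : ℕ} {y : ℝ × ℝ} (hy : y ∈ KS μ M x0 x1 ω0 ω1 s s') :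
    (∃ x ∈ M, ∃ x', nr 1 x x' ∧ y ∈ sq (4 * μ) x') ∨
    (∃ i : ℕ, i ≤ s ∧ ∃ c, NC (ART.ctr x0 + (i : ℤ) • ω0) c ∧ ∃ c', nr 1 c c' ∧ y ∈ sq (4 * μ) c') ∨
    ∃ i : ℕ, i ≤ s' ∧ ∃ c, NC (ART.ctr x1 + (i : ℤ) • ω1) c ∧ ∃ c', nr 1 c c' ∧ y ∈ sq (4 * μ) c' := by
  obtain ⟨c, hc, c', hc', hy⟩ := hy
  rcases hc with hc | ⟨i, hi, hc⟩ | ⟨i, hi, hc⟩
  · exact Or.inl ⟨c, hc, c', hc', hy⟩
  · exact Or.inr (Or.inl ⟨i, hi, c, hc, c', hc', hy⟩)
  · exact Or.inr (Or.inr ⟨i, hi, c, hc, c', hc', hy⟩)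

/-- a node is in its closed cell -/
lemma nd_sq {μ : ℝ} (hμ : 0 < μ) (x : ℤ × ℤ) : nd μ x ∈ sq (4 * μ) (x.1 / 4, x.2 / 4) := by
  rw [mem_sq]
  unfold nd
  simp only
  have key : ∀ a : ℤ, 4 * μ * ((a / 4 : ℤ) : ℝ) ≤ μ * a ∧ μ * a ≤ 4 * μ * (((a / 4 : ℤ) : ℝ) + 1) := by
    intro a
    have h1 : 4 * (a / 4) ≤ a := by omega
    have h2 : a ≤ 4 * (a / 4) + 4 := by omega
    have h1' : (4 : ℝ) * ((a / 4 : ℤ) : ℝ) ≤ a := by exact_mod_cast h1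
    have h2' : (a : ℝ) ≤ 4 * ((a / 4 : ℤ) : ℝ) + 4 := by exact_mod_cast h2
    have m1 := mul_le_mul_of_nonneg_left h1' hμ.le
    have m2 := mul_le_mul_of_nonneg_left h2' hμ.le
    constructor <;> linarith
  exact ⟨key x.1, key x.2⟩

/-- two nodes near prescribed points with a prescribed difference -/
lemma two_nodes {μ ε : ℝ} (hμ : 0 < μ) (hε : ε ≤ 1) {z e : ℝ × ℝ} {V : ℤ × ℤ} (h1 : |(e.1 - z.1) / μ - V.1| ≤ ε)
    (h2 : |(e.2 - z.2) / μ - V.2| ≤ ε) (r r' : ℤ → ℤ) :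
    ∃ n : ℤ × ℤ, (∃ q : ℤ, n.1 = 4 * q + r V.1) ∧ (∃ q : ℤ, n.2 = 4 * q + r' n.1) ∧ dist z (nd μ n) ≤ 2 * μ ∧
      dist e (nd μ (n + V)) ≤ 3 * μ ∧ dist (e - z) (nd μ V) ≤ ε * μ := by
  obtain ⟨n1, q1, g1⟩ := near_mod4 (z.1 / μ) (r V.1)
  obtain ⟨n2, q2, g2⟩ := near_mod4 (z.2 / μ) (r' n1)
  have conv : ∀ {x y d : ℝ}, |x / μ - y| ≤ d → -(d * μ) ≤ x - μ * y ∧ x - μ * y ≤ d * μ := by
    intro x y d h
    have e1 : x / μ - y = (x - μ * y) / μ := by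
      rw [sub_div, mul_div_cancel_left₀ _ hμ.ne']
    rw [e1, abs_div, abs_of_pos hμ, div_le_iff₀ hμ] at h
    exact abs_le.1 h
  have a1 := conv g1
  have a2 := conv g2
  have b1 := conv h1
  have b2 := conv h2
  have hεμ : ε * μ ≤ μ := by nlinarith
  refine ⟨(n1, n2), q1, q2, ?_, ?_, ?_⟩
  · rw [dist_le2]
    exact ⟨⟨a1.1, a1.2⟩, a2.1, a2.2⟩
  · rw [dist_le2]
    unfold nd
    simp only [Prod.fst_add, Prod.snd_add]
    push_cast
    rw [mul_add, mul_add]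
    refine ⟨⟨?_, ?_⟩, ?_, ?_⟩
    · linarith [a1.1, b1.1]
    · linarith [a1.2, b1.2]
    · linarith [a2.1, b2.1]
    · linarith [a2.2, b2.2]
  · rw [dist_le2]
    exact ⟨⟨b1.1, b1.2⟩, b2.1, b2.2⟩

/-- the fine mesh and the displacement -/
lemma exists_mesh {s ε : ℝ} (hs : 0 < s) (hε : 0 < ε) (z e : ℝ × ℝ) : ∃ (K : ℕ) (μ : ℝ) (V : ℤ × ℤ), 32 ≤ K ∧ 0 < μ ∧
    8 * (K * μ) = s ∧ 4 * μ = s / 2 / K ∧ |(e.1 - z.1) / μ - V.1| ≤ ε ∧ |(e.2 - z.2) / μ - V.2| ≤ ε := by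
  obtain ⟨K, V, hK, h1, h2⟩ := dirichlet2 (8 * (e.1 - z.1) / s) (8 * (e.2 - z.2) / s) hε 32
  have hK0 : (0 : ℝ) < K := by
    have : 0 < K := by omega
    exact_mod_cast this
  have e1 : ∀ x : ℝ, x / (s / (8 * K)) = K * (8 * x / s) := fun x => by field_simp
  refine ⟨K, s / (8 * K), V, hK, by positivity, by field_simp, by field_simp; norm_num, ?_, ?_⟩
  · rw [e1]
    exact h1
  · rw [e1]
    exact h2

/-- **the two channels beside the main arc** -/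
theorem chan {c : ℝ → ℝ × ℝ} (hc : ContinuousOn c (Icc 0 1)) (hi : InjOn c (Icc 0 1)) {P Q : ℝ × ℝ}
    {w e e' a b0 b b' B' B w₁ e₁ e₁' a₁ b0₁ b₁ b₁' B₁' B₁ : ℝ}
    (hw0 : 0 ≤ w) (he0 : 0 < e) (hee : e < e') (hwa : w < a) (hab : a + e < b) (hb0 : b0 < b)
    (hbb : b < b') (hbB : b < B) (hBB : B' < B)
    (hw0₁ : 0 ≤ w₁) (he0₁ : 0 < e₁) (hee₁ : e₁ < e₁') (hwa₁ : w₁ < a₁) (hab₁ : a₁ + e₁ < b₁) (hb0₁ : b0₁ < b₁)
    (hbb₁ : b₁ < b₁') (hbB₁ : b₁ < B₁) (hBB₁ : B₁' < B₁)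
    (h0 : dist P (c 0) ≤ b0) (h1 : dist Q (c 1) ≤ b0₁)
    (hP : ∀ s t, 0 ≤ s → s ≤ t → t ≤ 1 → dist P (c t) ≤ b' → dist P (c s) ≤ B' ∧ P.1 ≤ (c s).1)
    (hQ : ∀ s t, 0 ≤ s → s ≤ t → t ≤ 1 → dist Q (c s) ≤ b₁' → dist Q (c t) ≤ B₁' ∧ Q.1 ≤ (c t).1)
    (hsP : ∀ t, 0 ≤ t → t ≤ 1 → dist P (c t) ≤ b' → (c t).1 ≤ P.1 + e' → |(c t).2 - P.2| ≤ w)
    (hsQ : ∀ t, 0 ≤ t → t ≤ 1 → dist Q (c t) ≤ b₁' → (c t).1 ≤ Q.1 + e₁' → |(c t).2 - Q.2| ≤ w₁)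
    (hPQ : 4 * (B + B₁) < dist P Q)
    {z2 z3 e2 e3 : ℝ × ℝ} {dl a1 dl₁ a1₁ : ℝ} (hdl : 0 < dl) (ha1 : a1 < a) (hdl₁ : 0 < dl₁) (ha1₁ : a1₁ < a₁)
    (z21 : z2.1 ≤ P.1 - dl) (z22 : P.2 + dl ≤ z2.2) (z23 : -(e / 2) ≤ (z2.1 - P.1) + (z2.2 - P.2)) (z25 : dist P z2 ≤ a1)
    (z31 : -(e / 2) ≤ z3.1 - P.1) (z32 : z3.1 - P.1 ≤ e / 2) (z33 : z3.2 ≤ P.2 - w - dl) (z35 : dist P z3 ≤ a1)
    (e21 : -(e₁ / 2) ≤ e2.1 - Q.1) (e22 : e2.1 - Q.1 ≤ e₁ / 2) (e23 : e2.2 ≤ Q.2 - w₁ - dl₁) (e25 : dist Q e2 ≤ a1₁)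
    (e31 : e3.1 ≤ Q.1 - dl₁) (e32 : Q.2 + dl₁ ≤ e3.2) (e33 : -(e₁ / 2) ≤ (e3.1 - Q.1) + (e3.2 - Q.2)) (e35 : dist Q e3 ≤ a1₁)
    {ε μ0 R0 R1 : ℝ} (hε : 0 < ε) (hμ0 : 0 < μ0) (hR0 : R0 < a - a1) (hR1 : R1 < a₁ - a1₁) :
    ∃ η > 0, ∃ (μ2 μ3 : ℝ) (M2 M3 : List (ℤ × ℤ)) (x0 x1 y0 y1 : ℤ × ℤ) (s2 s2' s3 s3' : ℕ),
      0 < μ2 ∧ μ2 ≤ μ0 ∧ 0 < μ3 ∧ μ3 ≤ μ0 ∧ Chn μ2 ε R0 R1 z2 e2 M2 x0 x1 (1, -1) (0, 1) s2 s2' ∧
      Chn μ3 ε R0 R1 z3 e3 M3 y0 y1 (0, 1) (1, -1) s3 s3' ∧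
      (∀ t, 0 ≤ t → t ≤ 1 → ∀ y ∈ KS μ2 M2 x0 x1 (1, -1) (0, 1) s2 s2', η ≤ dist (c t) y) ∧
      (∀ t, 0 ≤ t → t ≤ 1 → ∀ y ∈ KS μ3 M3 y0 y1 (0, 1) (1, -1) s3 s3', η ≤ dist (c t) y) ∧
      ∀ y ∈ KS μ2 M2 x0 x1 (1, -1) (0, 1) s2 s2', ∀ y' ∈ KS μ3 M3 y0 y1 (0, 1) (1, -1) s3 s3', 2 * η ≤ dist y y' := by
  -- the smallness
  obtain ⟨m, hm0, m1, m2, m3, m4, m5, m6, m7, n1, n2, n3, n4, n5, n6, n7, m8, m9⟩ : ∃ m : ℝ, 0 < m ∧
      m ≤ dl ∧ m ≤ e ∧ m ≤ a - a1 ∧ m ≤ b - a - e ∧ m ≤ b' - b ∧ m ≤ B - b ∧ m ≤ a - a1 - R0 ∧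
      m ≤ dl₁ ∧ m ≤ e₁ ∧ m ≤ a₁ - a1₁ ∧ m ≤ b₁ - a₁ - e₁ ∧ m ≤ b₁' - b₁ ∧ m ≤ B₁ - b₁ ∧ m ≤ a₁ - a1₁ - R1 ∧ m ≤ μ0 ∧
      m ≤ dist P Q - 4 * (B + B₁) := by
    refine ⟨min dl (min e (min (a - a1) (min (b - a - e) (min (b' - b) (min (B - b) (min (a - a1 - R0)
      (min dl₁ (min e₁ (min (a₁ - a1₁) (min (b₁ - a₁ - e₁) (min (b₁' - b₁) (min (B₁ - b₁) (min (a₁ - a1₁ - R1)
      (min μ0 (dist P Q - 4 * (B + B₁)))))))))))))))), ?_, ?_⟩
    · simp only [lt_min_iff]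
      refine ⟨?_, ?_, ?_, ?_, ?_, ?_, ?_, ?_, ?_, ?_, ?_, ?_, ?_, ?_, ?_, ?_⟩ <;> linarith
    · simp only [min_le_iff, le_refl, true_or, or_true, and_self]
  obtain ⟨s0, hs0, T, hreal⟩ := real_comp hc hi hw0 he0 hee hwa hab hb0 hbb hbB hBB hw0₁ he0₁ hee₁ hwa₁ hab₁ hb0₁
    hbb₁ hbB₁ hBB₁ h0 h1 hP hQ hsP hsQ hPQ 1
  obtain ⟨s, hs, hss0, hsm⟩ : ∃ s : ℝ, 0 < s ∧ s ≤ s0 ∧ 16 * s ≤ m :=
    ⟨min s0 (m / 16), lt_min hs0 (by positivity), min_le_left _ _, by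
      have := min_le_right s0 (m / 16)
      linarith⟩
  obtain ⟨T', -, hreal⟩ := hreal s hs hss0
  -- the meshes
  obtain ⟨ε', hε', hε1, hεε⟩ : ∃ ε' : ℝ, 0 < ε' ∧ ε' ≤ 1 ∧ ε' ≤ ε := ⟨min 1 ε, by positivity, min_le_left _ _, min_le_right _ _⟩
  obtain ⟨K2, μ2, V2, hK2, hμ2, hKμ2, h4μ2, v21, v22⟩ := exists_mesh hs hε' z2 e2
  obtain ⟨K3, μ3, V3, hK3, hμ3, hKμ3, h4μ3, v31, v32⟩ := exists_mesh hs hε' z3 e3
  obtain ⟨n, q1, q2, dz2, de2, dV2⟩ := two_nodes hμ2 hε1 v21 v22 (fun x => 2 - x) (fun x => -x)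
  obtain ⟨n', q1', q2', dz3, de3, dV3⟩ := two_nodes hμ3 hε1 v31 v32 (fun _ => 2) (fun x => -x - V3.1 - V3.2)
  have hμs : ∀ {K : ℕ} {μ : ℝ}, 32 ≤ K → 8 * (K * μ) = s → 0 < μ → 256 * μ ≤ s := by
    intro K μ h1 h2 h3
    have : (32 : ℝ) ≤ K := by exact_mod_cast h1
    nlinarith
  have hμs2 := hμs hK2 hKμ2 hμ2
  have hμs3 := hμs hK3 hKμ3 hμ3
  -- the four stubs
  obtain ⟨ξN, iN, sN, hiN, hsN, mN, lN, cN, regN⟩ := north_end hK2 hs hμ2 hKμ2 (a := a) (b := b) (e := e) (dl := dl) (a1 := a1)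
    (by linarith) (by linarith) (by linarith) (by linarith) z21 z22 z23 z25 (n0 := n)
    (by
      obtain ⟨q, hq⟩ := q2
      exact ⟨q, by rw [hq]; ring⟩) (by linarith)
  obtain ⟨ξS', iS', sS', hiS', hsS', mS', lS', cS', regS'⟩ := south_end hK2 hs hμ2 hKμ2 (a := a₁) (b := b₁) (e := e₁)
    (dl := dl₁) (a1 := a1₁) hw0₁ (by linarith) (by linarith) (by linarith) (by linarith) e21 e22 e23 e25 (n0 := n + V2)
    (by
      obtain ⟨q, hq⟩ := q1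
      exact ⟨q, by rw [Prod.fst_add, hq]; ring⟩) (by linarith)
  obtain ⟨ξS, iS, sS, hiS, hsS, mS, lS, cS, regS⟩ := south_end hK3 hs hμ3 hKμ3 (a := a) (b := b) (e := e) (dl := dl)
    (a1 := a1) hw0 (by linarith) (by linarith) (by linarith) (by linarith) z31 z32 z33 z35 (n0 := n') q1' (by linarith)
  obtain ⟨ξN', iN', sN', hiN', hsN', mN', lN', cN', regN'⟩ := north_end hK3 hs hμ3 hKμ3 (a := a₁) (b := b₁) (e := e₁)
    (dl := dl₁) (a1 := a1₁) (by linarith) (by linarith) (by linarith) (by linarith) e31 e32 e33 e35 (n0 := n' + V3)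
    (by
      obtain ⟨q, hq⟩ := q2'
      exact ⟨q, by rw [Prod.fst_add, Prod.snd_add, hq]; ring⟩) (by linarith)
  -- the lanes
  obtain ⟨L, M, hLM⟩ := hreal ξN ξS ξN' ξS' ⟨by omega, mN.2⟩ ⟨by omega, mS.2⟩ ⟨by omega, mN'.2⟩ ⟨by omega, mS'.2⟩
  have pulls : ∀ {x y : ℤ}, (x : ℝ) * s ≤ (y : ℝ) * s → x ≤ y := by
    intro x y h
    exact_mod_cast (mul_le_mul_iff_left₀ hs).1 h
  have fl := fl_s hs
  have fa := fl a
  have fe := fl e
  have fb := fl b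
  have fa₁ := fl a₁
  have fe₁ := fl e₁
  have fb₁ := fl b₁
  have ha1' : 0 ≤ a1 := dist_nonneg.trans z25
  have ha1₁' : 0 ≤ a1₁ := dist_nonneg.trans e25
  have hE : 0 ≤ ⌊e / s⌋ := Int.floor_nonneg.2 (by positivity)
  have hE₁ : 0 ≤ ⌊e₁ / s⌋ := Int.floor_nonneg.2 (by positivity)
  have hA : 0 ≤ ⌊a / s⌋ := Int.floor_nonneg.2 (div_nonneg (by linarith) hs.le)
  have hA₁ : 0 ≤ ⌊a₁ / s⌋ := Int.floor_nonneg.2 (div_nonneg (by linarith) hs.le)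
  have hb : ⌊a / s⌋ + ⌊e / s⌋ + 2 ≤ ⌊b / s⌋ := pulls (by push_cast; linarith)
  have hb₁ : ⌊a₁ / s⌋ + ⌊e₁ / s⌋ + 2 ≤ ⌊b₁ / s⌋ := pulls (by push_cast; linarith)
  have hnPQ : ¬ nr (4 * (⌊b / s⌋ + ⌊b₁ / s⌋)) (cel s P) (cel s Q) := by
    intro h
    have := nr_cel hs h
    push_cast at this
    linarith
  obtain ⟨L', cL, mL⟩ := hLM.fineL (K := K2) (by omega) hE hA hb hE₁ hA₁ hb₁ hnPQ mN mS' hiN hiS' lN lS'
  obtain ⟨M', cM, mM⟩ := hLM.fineM (K := K3) (by omega) hE hA hb hE₁ hA₁ hb₁ hnPQ mS mN' hiS hiN' lS lN'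
  -- the closed cells near the fine chains
  have hs2 : 0 < s / 2 := by positivity
  have ptL : ∀ x ∈ L', ∀ x', nr 1 x x' → ∀ y ∈ sq (4 * μ2) x', ∀ y', dist y y' ≤ s / 8 → cel (s / 2) y' ∈ L := by
    intro x hx x' hx' y hy y' hd
    rw [h4μ2] at hy
    exact chain_pt (by omega) hs2 mL hx hx' hy (by linarith)
  have ptM : ∀ x ∈ M', ∀ x', nr 1 x x' → ∀ y ∈ sq (4 * μ3) x', ∀ y', dist y y' ≤ s / 8 → cel (s / 2) y' ∈ M := by
    intro x hx x' hx' y hy y' hd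
    rw [h4μ3] at hy
    exact chain_pt (by omega) hs2 mM hx hx' hy (by linarith)
  -- the coarse cells are far from the curve and from the small boxes
  have far_c : ∀ y, (cel (s / 2) y ∈ L ∨ cel (s / 2) y ∈ M) → ∀ t, 0 ≤ t → t ≤ 1 → s < dist (c t) y := by
    intro y hy t t0 t1
    by_contra hcon
    push Not at hcon
    have h2 := (hLM.box _ hy).2.2.2 t t0 t1
    rw [bl_cel hs] at h2
    refine h2 (cel_nr hs ?_)
    push_cast
    linarith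
  have far_P : ∀ y, (cel (s / 2) y ∈ L ∨ cel (s / 2) y ∈ M) → a - s < dist P y := by
    intro y hy
    by_contra hcon
    push Not at hcon
    have h2 := (hLM.box _ hy).2.1
    rw [bl_cel hs] at h2
    exact h2 (cel_nr hs (by linarith))
  have far_Q : ∀ y, (cel (s / 2) y ∈ L ∨ cel (s / 2) y ∈ M) → a₁ - s < dist Q y := by
    intro y hy
    by_contra hcon
    push Not at hcon
    have h2 := (hLM.box _ hy).2.2.1
    rw [bl_cel hs] at h2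
    exact h2 (cel_nr hs (by linarith))
  -- the real position of a coarse cell
  have fP1 := fl P.1
  have fP2 := fl P.2
  have fQ1 := fl Q.1
  have fQ2 := fl Q.2
  have col : ∀ (y : ℝ × ℝ) (X : ℤ), (cel (s / 2) y).1 ≤ 2 * X → y.1 < s * X + s / 2 := by
    intro y X h
    have h2 : y.1 / (s / 2) < ((2 * X + 1 : ℤ) : ℝ) := by
      rw [← Int.floor_lt]
      unfold cel at h
      simp only at h
      omega
    rw [div_lt_iff₀ hs2] at h2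
    push_cast at h2
    linarith
  have rowS : ∀ (y : ℝ × ℝ) (Y : ℤ), (cel (s / 2) y).2 = 2 * Y - 1 → y.2 < s * Y := by
    intro y Y h
    have h2 : y.2 / (s / 2) < ((2 * Y : ℤ) : ℝ) := by
      rw [← Int.floor_lt]
      unfold cel at h
      simp only at h
      omega
    rw [div_lt_iff₀ hs2] at h2
    push_cast at h2
    linarith
  have rowN : ∀ (y : ℝ × ℝ) (Y : ℤ), (cel (s / 2) y).2 = 2 * Y → s * Y ≤ y.2 := by
    intro y Y h
    have h2 : ((2 * Y : ℤ) : ℝ) ≤ y.2 / (s / 2) := by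
      rw [← Int.le_floor]
      unfold cel at h
      simp only at h
      omega
    rw [le_div_iff₀ hs2] at h2
    push_cast at h2
    linarith
  have inP : ∀ y, dist P y ≤ b - s → nr ⌊b / s⌋ (cel s P) (bl (cel (s / 2) y)) := by
    intro y h
    rw [bl_cel hs]
    exact cel_nr hs (by linarith)
  have inQ : ∀ y, dist Q y ≤ b₁ - s → nr ⌊b₁ / s⌋ (cel s Q) (bl (cel (s / 2) y)) := by
    intro y h
    rw [bl_cel hs]
    exact cel_nr hs (by linarith)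
  -- the points of the two unions
  have k2 : ∀ y ∈ KS μ2 L' (fc K2 (ξN, 2 * ((cel s P).2 + ⌊a / s⌋ + 1)) + (iN : ℤ) • ((-1, 0) : ℤ × ℤ))
      (fc K2 (ξS', 2 * ((cel s Q).2 - ⌊a₁ / s⌋) - 1) + (iS' : ℤ) • ((-1, 0) : ℤ × ℤ)) (1, -1) (0, 1) sN sS',
      (∀ y', dist y y' ≤ s / 8 → cel (s / 2) y' ∈ L) ∨
      (y.1 ≤ P.1 - dl / 2 ∧ P.2 + dl / 2 ≤ y.2 ∧ dist P y ≤ b - 2 * s ∧
        s * ((cel s P).1 - ⌊a / s⌋ - ⌊e / s⌋ : ℤ) + 5 / 8 * s ≤ y.1) ∨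
      (y.1 ≤ Q.1 + 3 / 4 * e₁ ∧ y.2 ≤ Q.2 - w₁ - dl₁ / 2 ∧ dist Q y ≤ b₁ - 2 * s ∧
        s * ((cel s Q).1 - ⌊a₁ / s⌋ - ⌊e₁ / s⌋ : ℤ) + 5 / 8 * s ≤ y.1) := by
    intro y hy
    rcases KS_cases hy with ⟨x, hx, x', hx', hy⟩ | ⟨i, hi, x, hx, x', hx', hy⟩ | ⟨i, hi, x, hx, x', hx', hy⟩
    · exact Or.inl (ptL x hx x' hx' y hy)
    · exact Or.inr (Or.inl (regN i hi x hx x' hx' y hy))
    · exact Or.inr (Or.inr (regS' i hi x hx x' hx' y hy))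
  have k3 : ∀ y ∈ KS μ3 M' (fc K3 (ξS, 2 * ((cel s P).2 - ⌊a / s⌋) - 1) + (iS : ℤ) • ((-1, 0) : ℤ × ℤ))
      (fc K3 (ξN', 2 * ((cel s Q).2 + ⌊a₁ / s⌋ + 1)) + (iN' : ℤ) • ((-1, 0) : ℤ × ℤ)) (0, 1) (1, -1) sS sN',
      (∀ y', dist y y' ≤ s / 8 → cel (s / 2) y' ∈ M) ∨
      (y.1 ≤ P.1 + 3 / 4 * e ∧ y.2 ≤ P.2 - w - dl / 2 ∧ dist P y ≤ b - 2 * s ∧
        s * ((cel s P).1 - ⌊a / s⌋ - ⌊e / s⌋ : ℤ) + 5 / 8 * s ≤ y.1) ∨
      (y.1 ≤ Q.1 - dl₁ / 2 ∧ Q.2 + dl₁ / 2 ≤ y.2 ∧ dist Q y ≤ b₁ - 2 * s ∧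
        s * ((cel s Q).1 - ⌊a₁ / s⌋ - ⌊e₁ / s⌋ : ℤ) + 5 / 8 * s ≤ y.1) := by
    intro y hy
    rcases KS_cases hy with ⟨x, hx, x', hx', hy⟩ | ⟨i, hi, x, hx, x', hx', hy⟩ | ⟨i, hi, x, hx, x', hx', hy⟩
    · exact Or.inl (ptM x hx x' hx' y hy)
    · exact Or.inr (Or.inl (regS i hi x hx x' hx' y hy))
    · exact Or.inr (Or.inr (regN' i hi x hx x' hx' y hy))
  have farPQ : ∀ y y', dist P y ≤ b → dist Q y' ≤ b₁ → 4 * (B + B₁) - b - b₁ ≤ dist y y' := by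
    intro y y' h1 h2
    have t1 := dist_triangle P y Q
    have t2 := dist_triangle y y' Q
    rw [dist_comm y' Q] at t2
    linarith
  refine ⟨s / 16, by positivity, μ2, μ3, L', M', _, _, _, _, sN, sS', sS, sN', hμ2, by linarith, hμ3, by linarith,
    ⟨cL, hsN, hsS', ?_, ?_, ?_, ?_⟩, ⟨cM, hsS, hsN', ?_, ?_, ?_, ?_⟩, ?_, ?_, ?_⟩
  · rw [cN]
    exact dz2
  · rw [cN, cS', add_sub_cancel_left]
    exact dV2.trans (mul_le_mul_of_nonneg_right hεε hμ2.le)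
  · intro x hx
    rw [cN]
    have t0 := dist_triangle P z2 (nd μ2 n)
    rcases hx with hx | ⟨j, hj, rfl⟩
    · have h2 := ptL _ (sn_NC cL.ch hx (NC_self' x)) _ (nr_self (by norm_num) _) _ (nd_sq hμ2 x) (nd μ2 x)
        (by rw [dist_self]; positivity)
      have h3 := far_P _ (Or.inl h2)
      have t1 := dist_triangle P (nd μ2 n) (nd μ2 x)
      linarith
    · have h2 := (regS' j hj _ (NC_self' _) _ (nr_self (by norm_num) _) _ (nd_sq hμ2 _)).2.2.1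
      have h3 := farPQ (nd μ2 n) _ (by linarith) (h2.trans (by linarith))
      linarith
  · intro x hx
    rw [cS']
    have t0 := dist_triangle Q e2 (nd μ2 (n + V2))
    rcases hx with hx | ⟨j, hj, rfl⟩
    · have h2 := ptL _ (sn_NC cL.ch hx (NC_self' x)) _ (nr_self (by norm_num) _) _ (nd_sq hμ2 x) (nd μ2 x)
        (by rw [dist_self]; positivity)
      have h3 := far_Q _ (Or.inl h2)
      have t1 := dist_triangle Q (nd μ2 (n + V2)) (nd μ2 x)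
      linarith
    · have h2 := (regN j hj _ (NC_self' _) _ (nr_self (by norm_num) _) _ (nd_sq hμ2 _)).2.2.1
      have h3 := farPQ _ (nd μ2 (n + V2)) (h2.trans (by linarith)) (by linarith)
      rw [dist_comm] at h3
      linarith
  · rw [cS]
    exact dz3
  · rw [cS, cN', add_sub_cancel_left]
    exact dV3.trans (mul_le_mul_of_nonneg_right hεε hμ3.le)
  · intro x hx
    rw [cS]
    have t0 := dist_triangle P z3 (nd μ3 n')
    rcases hx with hx | ⟨j, hj, rfl⟩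
    · have h2 := ptM _ (sn_NC cM.ch hx (NC_self' x)) _ (nr_self (by norm_num) _) _ (nd_sq hμ3 x) (nd μ3 x)
        (by rw [dist_self]; positivity)
      have h3 := far_P _ (Or.inr h2)
      have t1 := dist_triangle P (nd μ3 n') (nd μ3 x)
      linarith
    · have h2 := (regN' j hj _ (NC_self' _) _ (nr_self (by norm_num) _) _ (nd_sq hμ3 _)).2.2.1
      have h3 := farPQ (nd μ3 n') _ (by linarith) (h2.trans (by linarith))
      linarith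
  · intro x hx
    rw [cN']
    have t0 := dist_triangle Q e3 (nd μ3 (n' + V3))
    rcases hx with hx | ⟨j, hj, rfl⟩
    · have h2 := ptM _ (sn_NC cM.ch hx (NC_self' x)) _ (nr_self (by norm_num) _) _ (nd_sq hμ3 x) (nd μ3 x)
        (by rw [dist_self]; positivity)
      have h3 := far_Q _ (Or.inr h2)
      have t1 := dist_triangle Q (nd μ3 (n' + V3)) (nd μ3 x)
      linarith
    · have h2 := (regS j hj _ (NC_self' _) _ (nr_self (by norm_num) _) _ (nd_sq hμ3 _)).2.2.1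
      have h3 := farPQ _ (nd μ3 (n' + V3)) (h2.trans (by linarith)) (by linarith)
      rw [dist_comm] at h3
      linarith
  · intro t t0 t1 y hy
    rcases k2 y hy with h | ⟨h1, h2, h3, -⟩ | ⟨h1, h2, h3, -⟩
    · have := far_c y (Or.inl (h y (by rw [dist_self]; positivity))) t t0 t1
      linarith
    · exact n_curve (fun t t0 t1 h => (hP t t t0 le_rfl t1 h).2) h1 h3 (by linarith) (by linarith) t0 t1
    · exact s_curve hsQ hee₁.le h1 h2 h3 (by linarith) (by linarith) (by linarith) t0 t1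
  · intro t t0 t1 y hy
    rcases k3 y hy with h | ⟨h1, h2, h3, -⟩ | ⟨h1, h2, h3, -⟩
    · have := far_c y (Or.inr (h y (by rw [dist_self]; positivity))) t t0 t1
      linarith
    · exact s_curve hsP hee.le h1 h2 h3 (by linarith) (by linarith) (by linarith) t0 t1
    · exact n_curve (fun t t0 t1 h => (hQ t t t0 le_rfl t1 h).2) h1 h3 (by linarith) (by linarith) t0 t1
  · intro y hy y' hy'
    by_contra hcon
    push Not at hcon
    have hd : dist y y' ≤ s / 8 := by linarith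
    have hd' : dist y' y ≤ s / 8 := by rw [dist_comm]; exact hd
    have no : ¬ (s / 8 ≤ y.1 - y'.1 ∨ s / 8 ≤ y'.1 - y.1 ∨ s / 8 ≤ y.2 - y'.2 ∨ s / 8 ≤ y'.2 - y.2) := by
      intro h
      have := le_dist1 h
      linarith
    have tP := dist_triangle P y y'
    have tP' := dist_triangle P y' y
    have tQ := dist_triangle Q y y'
    have tQ' := dist_triangle Q y' y
    have self8 : ∀ y : ℝ × ℝ, dist y y ≤ s / 8 := fun y => by rw [dist_self]; positivity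
    apply no
    rcases k2 y hy with h | ⟨h1, h2, h3, h4⟩ | ⟨h1, h2, h3, h4⟩ <;>
      rcases k3 y' hy' with g | ⟨g1, g2, g3, g4⟩ | ⟨g1, g2, g3, g4⟩
    · exact absurd (g y' (self8 y')) (hLM.dis _ (h y' hd))
    · -- L and the south stub at P
      rcases hLM.nPL _ (h y (self8 y)) (inP y (by linarith)) with u | ⟨u, -⟩
      · have := col _ _ u
        exact Or.inr (Or.inl (by linarith))
      · have := rowN y _ u
        push_cast at this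
        unfold cel at this
        exact Or.inr (Or.inr (Or.inl (by linarith)))
    · -- L and the north stub at Q
      rcases hLM.nQL _ (h y (self8 y)) (inQ y (by linarith)) with u | ⟨u, -⟩
      · have := col _ _ u
        exact Or.inr (Or.inl (by linarith))
      · have := rowS y _ u
        push_cast at this
        unfold cel at this
        exact Or.inr (Or.inr (Or.inr (by linarith)))
    · -- the north stub at P and M
      rcases hLM.nPM _ (g y' (self8 y')) (inP y' (by linarith)) with u | ⟨u, -⟩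
      · have := col _ _ u
        exact Or.inl (by linarith)
      · have := rowS y' _ u
        push_cast at this
        unfold cel at this
        exact Or.inr (Or.inr (Or.inl (by linarith)))
    · exact Or.inr (Or.inr (Or.inl (by linarith)))
    · have := farPQ y y' (by linarith) (by linarith)
      linarith
    · -- the south stub at Q and M
      rcases hLM.nQM _ (g y' (self8 y')) (inQ y' (by linarith)) with u | ⟨u, -⟩
      · have := col _ _ u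
        exact Or.inl (by linarith)
      · have := rowN y' _ u
        push_cast at this
        unfold cel at this
        exact Or.inr (Or.inr (Or.inr (by linarith)))
    · have := farPQ y' y (by linarith) (by linarith)
      rw [dist_comm] at this
      linarith
    · exact Or.inr (Or.inr (Or.inr (by linarith)))

end F3L

end ROT

end HexObs
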