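import Pool.Agent.ROT.F3TopA

/-!
# ROT, F3 (B), closeness of the rest and the arc (helper12)

* `mdl h γ` : the modulus of continuity; `om th θ` : bounded continuous functional of (curve, duration);
* **`cl_det`**, `cl_det'` : deterministic: a curve and its sub curve without short ends have values of `F ct` with difference at most
  `om`;
* **`cl_fin`** : the gated sum of `om` is at most `ε` times the gated sum of `ct`.
-/

set_option autoImplicit false

open MeasureTheory Filter Topology Finset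
open scoped ENNReal NNReal

namespace Pool.Agent.ROT.F3E

open Pool.Agent.NTS.Res Pool.Agent.CRT Pool.Agent.ROT.F3

/-! ### the modulus -/

/-- the modulus of continuity -/
noncomputable def mdl (h : ℝ) (γ : CI) : ℝ := ⨆ p : {p : unitInterval × unitInterval // |(p.1 : ℝ) - p.2| ≤ h},
  ‖γ p.1.1 - γ p.1.2‖

lemma mdl_bdd (h : ℝ) (γ : CI) : BddAbove (Set.range fun p : {p : unitInterval × unitInterval // |(p.1 : ℝ) - p.2| ≤ h} =>
    ‖γ p.1.1 - γ p.1.2‖) := by
  refine ⟨2 * ‖γ‖, ?_⟩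
  rintro _ ⟨p, rfl⟩
  have h1 := norm_sub_le (γ p.1.1) (γ p.1.2)
  have h2 := γ.norm_coe_le_norm p.1.1
  have h3 := γ.norm_coe_le_norm p.1.2
  show ‖γ p.1.1 - γ p.1.2‖ ≤ 2 * ‖γ‖
  linarith

lemma le_mdl {h : ℝ} (γ : CI) {a b : unitInterval} (hab : |(a : ℝ) - b| ≤ h) : ‖γ a - γ b‖ ≤ mdl h γ :=
  le_ciSup (mdl_bdd h γ) ⟨(a, b), hab⟩

lemma mdl_nonempty {h : ℝ} (hh : 0 ≤ h) : Nonempty {p : unitInterval × unitInterval // |(p.1 : ℝ) - p.2| ≤ h} :=
  ⟨⟨(0, 0), by simpa using hh⟩⟩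

lemma mdl_le {h c : ℝ} (hh : 0 ≤ h) {γ : CI} (H : ∀ a b : unitInterval, |(a : ℝ) - b| ≤ h → ‖γ a - γ b‖ ≤ c) :
    mdl h γ ≤ c := by
  have := mdl_nonempty hh
  exact ciSup_le fun p => H _ _ p.2

lemma mdl_nonneg {h : ℝ} (hh : 0 ≤ h) (γ : CI) : 0 ≤ mdl h γ := by
  have h1 := le_mdl (h := h) γ (a := 0) (b := 0) (by simpa using hh)
  rwa [sub_self, norm_zero] at h1

lemma mdl_lip {h : ℝ} (hh : 0 ≤ h) : LipschitzWith 2 (mdl h) := by
  have key : ∀ γ γ' : CI, mdl h γ ≤ mdl h γ' + 2 * dist γ γ' := by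
    intro γ γ'
    refine mdl_le hh fun a b hab => ?_
    have h1 := le_mdl (h := h) γ' hab
    have h2 : γ a - γ b = (γ' a - γ' b) + ((γ a - γ' a) - (γ b - γ' b)) := by ring
    have h3 : ‖γ a - γ' a‖ ≤ dist γ γ' := by
      rw [← dist_eq_norm]
      exact ContinuousMap.dist_apply_le_dist a
    have h4 : ‖γ b - γ' b‖ ≤ dist γ γ' := by
      rw [← dist_eq_norm]
      exact ContinuousMap.dist_apply_le_dist b
    rw [h2]
    refine (norm_add_le _ _).trans ?_
    have h5 := norm_sub_le (γ a - γ' a) (γ b - γ' b)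
    linarith
  refine LipschitzWith.of_dist_le_mul fun γ γ' => ?_
  rw [Real.dist_eq, abs_le]
  have h1 := key γ γ'
  have h2 := key γ' γ
  rw [dist_comm γ' γ] at h2
  constructor
  · show -(2 * dist γ γ') ≤ mdl h γ - mdl h γ'
    linarith
  · show mdl h γ - mdl h γ' ≤ 2 * dist γ γ'
    linarith

/-- the functional -/
noncomputable def om (th θ : ℝ) (x : CI × ℝ) : ℝ := min 2 (8 * θ / th + 2 * mdl θ x.1) * ct (4 * th) x.2

lemma ct_cont (th : ℝ) : Continuous (ct th) := by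
  unfold ct
  fun_prop

lemma om_cont {th θ : ℝ} (hθ : 0 ≤ θ) : Continuous (om th θ) := by
  unfold om
  have := (mdl_lip hθ).continuous
  exact (continuous_const.min (continuous_const.add (continuous_const.mul (this.comp continuous_fst)))).mul
    ((ct_cont _).comp continuous_snd)

lemma om_nonneg {th θ : ℝ} (hth : 0 < th) (hθ : 0 ≤ θ) (x : CI × ℝ) : 0 ≤ om th θ x := by
  have h1 := mdl_nonneg hθ x.1
  exact mul_nonneg (le_min zero_le_two (by positivity)) (ct_nonneg _ _)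

lemma om_le {th θ : ℝ} (x : CI × ℝ) : om th θ x ≤ 2 := by
  unfold om
  have h1 := ct_nonneg (4 * th) x.2
  have h2 := ct_le_one (4 * th) x.2
  rcases le_total 0 (min 2 (8 * θ / th + 2 * mdl θ x.1)) with h | h
  · have := min_le_left 2 (8 * θ / th + 2 * mdl θ x.1)
    nlinarith
  · nlinarith

/-- **the closeness, deterministic**: `α` = the part of `γ` between the times `a` and `b`, without a change of the scale -/
theorem cl_det {F : CI → ℝ} (hF : LipschitzWith 1 F) (hF1 : ∀ γ, |F γ| ≤ 1) {th θ : ℝ} (hth : 0 < th) (hth8 : th ≤ 1 / 8)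
    (hθ : 0 ≤ θ) (hθth : 8 * θ ≤ th) {γ α : CI} (h0 : γ 0 = 0) {a b : unitInterval} (ha : (a : ℝ) ≤ θ)
    (hb : 1 - (b : ℝ) ≤ θ) (hα : ∀ s t : unitInterval, (t : ℝ) = (1 - s) * a + s * b → α s = γ t - γ a) {T T' : ℝ}
    (hT : 0 ≤ T) (hT' : T' = ((b : ℝ) - a) * T) : |F γ * ct th T - F α * ct th T'| ≤ om th θ (γ, T) := by
  have ha0 : 0 ≤ (a : ℝ) := a.2.1
  have hb1 : (b : ℝ) ≤ 1 := b.2.2
  have hθ1 : θ ≤ 1 / 64 := by linarith
  -- the curves
  have hn : ‖γ - α‖ ≤ 2 * mdl θ γ := by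
    have hm := mdl_nonneg hθ γ
    refine (ContinuousMap.norm_le _ (by positivity)).2 fun s => ?_
    have hs0 : 0 ≤ (s : ℝ) := s.2.1
    have hs1 : (s : ℝ) ≤ 1 := s.2.2
    obtain ⟨t, ht⟩ : ∃ t : unitInterval, (t : ℝ) = (1 - s) * a + s * b := by
      refine ⟨⟨(1 - s) * a + s * b, ?_, ?_⟩, rfl⟩
      · nlinarith [b.2.1]
      · nlinarith [a.2.2]
    rw [ContinuousMap.sub_apply, hα s t ht]
    have e : γ s - (γ t - γ a) = (γ s - γ t) + (γ a - γ 0) := by
      rw [h0]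
      ring
    rw [e]
    refine (norm_add_le _ _).trans ?_
    have h1 := le_mdl (h := θ) γ (a := s) (b := t) (by
      rw [ht, abs_le]
      constructor <;> nlinarith)
    have h2 := le_mdl (h := θ) γ (a := a) (b := 0) (by
      show |(a : ℝ) - ((0 : unitInterval) : ℝ)| ≤ θ
      rw [Set.Icc.coe_zero, sub_zero, abs_of_nonneg ha0]
      exact ha)
    linarith
  have hFd : |F γ - F α| ≤ 2 * mdl θ γ := by
    have h1 := hF.dist_le_mul γ α
    rw [NNReal.coe_one, one_mul, Real.dist_eq, dist_eq_norm] at h1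
    exact h1.trans hn
  -- out of the window
  by_cases hw : |T - 1| ≤ 2 * th
  swap
  · have h1 : ct th T = 0 := ct_zero hth (by linarith [not_le.1 hw])
    have h2 : ct th T' = 0 := by
      refine ct_zero hth ?_
      by_contra hc
      rw [not_le, abs_lt] at hc
      apply hw
      rw [abs_le]
      have h3 : T' ≤ T := by
        rw [hT']
        nlinarith
      have h4 : (1 - 2 * θ) * T ≤ T' := by
        rw [hT']
        nlinarith
      constructor <;> nlinarith [hc.1, hc.2]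
    rw [h1, h2, mul_zero, mul_zero, sub_zero, abs_zero]
    exact om_nonneg hth hθ _
  have hct4 : ct (4 * th) T = 1 := ct_one (by linarith) (by linarith)
  have hT2 : T ≤ 2 := by
    have := (abs_le.1 hw).2
    linarith
  have hctd : |ct th T - ct th T'| ≤ 8 * θ / th := by
    refine (ct_lip hth _ _).trans ?_
    have h3 : |T - T'| ≤ 4 * θ := by
      rw [hT', abs_le]
      constructor <;> nlinarith
    calc 2 / th * |T - T'| ≤ 2 / th * (4 * θ) := mul_le_mul_of_nonneg_left h3 (by positivity)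
      _ = 8 * θ / th := by ring
  unfold om
  simp only
  rw [hct4, mul_one]
  refine le_min ?_ ?_
  · have h1 : |F γ * ct th T| ≤ 1 := by
      rw [abs_mul, abs_of_nonneg (ct_nonneg _ _)]
      exact mul_le_one₀ (hF1 _) (ct_nonneg _ _) (ct_le_one _ _)
    have h2 : |F α * ct th T'| ≤ 1 := by
      rw [abs_mul, abs_of_nonneg (ct_nonneg _ _)]
      exact mul_le_one₀ (hF1 _) (ct_nonneg _ _) (ct_le_one _ _)
    have h3 := abs_sub (F γ * ct th T) (F α * ct th T')
    linarith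
  · have e : F γ * ct th T - F α * ct th T' = F γ * (ct th T - ct th T') + (F γ - F α) * ct th T' := by ring
    rw [e]
    refine (abs_add_le _ _).trans ?_
    rw [abs_mul, abs_mul, abs_of_nonneg (ct_nonneg th T')]
    have h1 : |F γ| * |ct th T - ct th T'| ≤ 1 * (8 * θ / th) :=
      mul_le_mul (hF1 _) hctd (abs_nonneg _) zero_le_one
    have h2 : |F γ - F α| * ct th T' ≤ 2 * mdl θ γ * 1 :=
      mul_le_mul hFd (ct_le_one _ _) (ct_nonneg _ _) (by
        have := mdl_nonneg hθ γ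
        positivity)
    linarith

/-- **the closeness, deterministic**, short ends measured by their durations -/
theorem cl_det' {F : CI → ℝ} (hF : LipschitzWith 1 F) (hF1 : ∀ γ, |F γ| ≤ 1) {th θ : ℝ} (hth : 0 < th) (hth8 : th ≤ 1 / 8)
    (hθ : 0 ≤ θ) (hθth : 16 * θ ≤ th) {γ α : CI} (h0 : γ 0 = 0) {a b : unitInterval} {T T' : ℝ} (hT : 0 ≤ T)
    (ha : (a : ℝ) * T ≤ θ) (hb : (1 - (b : ℝ)) * T ≤ θ)
    (hα : ∀ s t : unitInterval, (t : ℝ) = (1 - s) * a + s * b → α s = γ t - γ a) (hT' : T' = ((b : ℝ) - a) * T) :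
    |F γ * ct th T - F α * ct th T'| ≤ om th (2 * θ) (γ, T) := by
  have ha0 : 0 ≤ (a : ℝ) := a.2.1
  have hb1 : (b : ℝ) ≤ 1 := b.2.2
  by_cases hw : |T - 1| ≤ 2 * th
  · have hT1 : 3 / 4 ≤ T := by linarith [(abs_le.1 hw).1]
    refine cl_det hF hF1 hth hth8 (by positivity) (by linarith) h0 ?_ ?_ hα hT hT'
    · nlinarith
    · nlinarith
  · have h1 : ct th T = 0 := ct_zero hth (by linarith [not_le.1 hw])
    have h2 : ct th T' = 0 := by
      refine ct_zero hth ?_
      by_contra hc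
      rw [not_le, abs_lt] at hc
      apply hw
      rw [abs_le]
      have e : T' = T - a * T - (1 - b) * T := by
        rw [hT']
        ring
      have h3 : 0 ≤ (a : ℝ) * T := mul_nonneg ha0 hT
      have h4 : 0 ≤ (1 - (b : ℝ)) * T := mul_nonneg (by linarith) hT
      constructor <;> linarith [hc.1, hc.2]
    rw [h1, h2, mul_zero, mul_zero, sub_zero, abs_zero]
    exact om_nonneg hth (by positivity) _

/-! ### two windows -/

/-- two windows; the numbers of steps in the inner one are even -/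
theorem win_gen {K κ : ℝ} (hκ : 0 < κ) (hκK : κ ≤ K) : ∃ t1 : ℝ, 0 < t1 ∧ t1 ≤ 1 / 4 ∧ ∀ th : ℝ, 0 < th → K * th ≤ t1 →
    ∀ᶠ N in atTop, (∑ n ∈ Wn N (K * th), aN n ≤ 68 * K / κ * ∑ n ∈ (Wn N (κ * th)).filter fun n => Even n, aN n) ∧
      ((Wn N (κ * th)).filter fun n => Even n).Nonempty := by
  obtain ⟨t0, h0, h8, h⟩ := slow_win one_pos
  refine ⟨2 * t0, by positivity, by linarith, fun th ht ht0 => ?_⟩
  have hK0 : 0 < K := lt_of_lt_of_le hκ hκK
  have hKth : 0 < K * th / 2 := by positivity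
  have hκth : 0 < κ * th := by positivity
  have hs' := h (K * th / 2) hKth (by linarith)
  rw [show 2 * (K * th / 2) = K * th by ring] at hs'
  filter_upwards [hs', eventually_ge_atTop (max 1 ⌈16 / (κ * th)⌉₊)] with N hs hN
  have hN1 : 1 ≤ N := (le_max_left _ _).trans hN
  have hNt : 16 / (κ * th) ≤ N := (Nat.le_ceil _).trans (by exact_mod_cast (le_max_right 1 ⌈16 / (κ * th)⌉₊).trans hN)
  have hN0 : (0 : ℝ) < N := by exact_mod_cast hN1
  have hNth : 16 ≤ κ * th * N := by rwa [div_le_iff₀' hκth] at hNt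
  have hKt1 : K * th ≤ 1 := by linarith
  have hκK' : κ * th ≤ K * th := mul_le_mul_of_nonneg_right hκK ht.le
  have hin : ∀ {n}, n ∈ Wn N (κ * th) → n ∈ Wn N (K * th) := by
    intro n hn
    rw [mem_Wn hN1 (by linarith)] at hn ⊢
    linarith
  have hNm : N ∈ Wn N (K * th) := by
    rw [mem_Wn hN1 hKt1, div_self hN0.ne', sub_self, abs_zero]
    positivity
  have ha := WK.aN_pos N
  have c1 : ((Wn N (K * th)).card : ℝ) ≤ 2 * (K * th) * N + 1 := by
    have hsub : Wn N (K * th) ⊆ Finset.Icc ⌈(1 - K * th) * N⌉₊ ⌊(1 + K * th) * N⌋₊ := by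
      intro n hn
      rw [Wn_iff hN1 hKt1] at hn
      rw [Finset.mem_Icc]
      exact ⟨Nat.ceil_le.2 hn.1, Nat.le_floor hn.2⟩
    have h1 := card_le_card hsub
    rw [Nat.card_Icc] at h1
    have h2 : (⌊(1 + K * th) * N⌋₊ : ℝ) ≤ (1 + K * th) * N := Nat.floor_le (by positivity)
    have h3 : (1 - K * th) * N ≤ (⌈(1 - K * th) * N⌉₊ : ℝ) := Nat.le_ceil _
    rcases le_total ⌈(1 - K * th) * N⌉₊ (⌊(1 + K * th) * N⌋₊ + 1) with h4 | h4
    · have h5 : ((Wn N (K * th)).card : ℝ) ≤ (⌊(1 + K * th) * N⌋₊ + 1 - ⌈(1 - K * th) * N⌉₊ : ℕ) := by exact_mod_cast h1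
      rw [Nat.cast_sub h4] at h5
      push_cast at h5
      linarith
    · rw [Nat.sub_eq_zero_of_le h4, Nat.le_zero] at h1
      rw [h1, Nat.cast_zero]
      positivity
  obtain ⟨M, hM⟩ : ∃ M : ℕ, M = ⌊κ * th * N / 4⌋₊ := ⟨_, rfl⟩
  have hM1 : 1 ≤ M := by
    rw [hM]
    exact Nat.le_floor (by rw [Nat.cast_one]; linarith)
  have hM2 : (M : ℝ) ≤ κ * th * N / 4 := by
    rw [hM]
    exact Nat.floor_le (by positivity)
  have hM3 : κ * th * N / 8 ≤ M := by
    have h1 : κ * th * N / 4 < ⌊κ * th * N / 4⌋₊ + 1 := Nat.lt_floor_add_one _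
    rw [← hM] at h1
    have h2 : (1 : ℝ) ≤ M := by exact_mod_cast hM1
    linarith
  have hev : ∀ k ∈ range M, 2 * ((N + 1) / 2) + 2 * k ∈ (Wn N (κ * th)).filter fun n => Even n := by
    intro k hk
    rw [mem_range] at hk
    rw [mem_filter, Wn_iff hN1 (by linarith)]
    refine ⟨⟨?_, ?_⟩, ⟨(N + 1) / 2 + k, by ring⟩⟩
    · have h1 : N ≤ 2 * ((N + 1) / 2) + 2 * k := by omega
      have h2 : (N : ℝ) ≤ (2 * ((N + 1) / 2) + 2 * k : ℕ) := by exact_mod_cast h1
      have h3 : 0 ≤ κ * th * N := by positivity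
      linarith
    · have h1 : 2 * ((N + 1) / 2) + 2 * k ≤ N + 1 + 2 * M := by omega
      have h2 : ((2 * ((N + 1) / 2) + 2 * k : ℕ) : ℝ) ≤ N + 1 + 2 * M := by exact_mod_cast h1
      linarith
  have c2 : κ * th * N / 8 ≤ (((Wn N (κ * th)).filter fun n => Even n).card : ℝ) := by
    have h1 : M ≤ ((Wn N (κ * th)).filter fun n => Even n).card := by
      rw [← card_range M]
      exact card_le_card_of_injOn _ (fun k hk => hev k (mem_coe.1 hk)) fun a _ b _ hab => by
        have : 2 * ((N + 1) / 2) + 2 * a = 2 * ((N + 1) / 2) + 2 * b := hab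
        omega
    have h2 : (M : ℝ) ≤ ((Wn N (κ * th)).filter fun n => Even n).card := by exact_mod_cast h1
    linarith
  refine ⟨?_, ⟨_, hev 0 (mem_range.2 hM1)⟩⟩
  have s1 : ∑ n ∈ Wn N (K * th), aN n ≤ (2 * (K * th) * N + 1) * (2 * aN N) := by
    calc ∑ n ∈ Wn N (K * th), aN n ≤ ∑ n ∈ Wn N (K * th), 2 * aN N := sum_le_sum fun n hn => (hs n hn N hNm).1
      _ = ((Wn N (K * th)).card : ℝ) * (2 * aN N) := by rw [sum_const, nsmul_eq_mul]
      _ ≤ _ := mul_le_mul_of_nonneg_right c1 (by positivity)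
  have s2 : κ * th * N / 8 * (aN N / 2) ≤ ∑ n ∈ (Wn N (κ * th)).filter fun n => Even n, aN n := by
    calc κ * th * N / 8 * (aN N / 2) ≤ (((Wn N (κ * th)).filter fun n => Even n).card : ℝ) * (aN N / 2) :=
          mul_le_mul_of_nonneg_right c2 (by positivity)
      _ = ∑ n ∈ (Wn N (κ * th)).filter fun n => Even n, aN N / 2 := by rw [sum_const, nsmul_eq_mul]
      _ ≤ _ := sum_le_sum fun n hn => by linarith [(hs N hNm n (hin (mem_filter.1 hn).1)).1]
  have h5 : (2 * (K * th) * N + 1) * (2 * aN N) ≤ 68 * K / κ * (κ * th * N / 8 * (aN N / 2)) := by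
    have e1 : 68 * K / κ * (κ * th * N / 8 * (aN N / 2)) = 17 / 4 * (K * th * N) * aN N := by
      field_simp
      ring
    rw [e1]
    have h6 : 16 ≤ K * th * N := by
      have : κ * th * N ≤ K * th * N := mul_le_mul_of_nonneg_right hκK' hN0.le
      linarith
    nlinarith
  have hC : 0 ≤ 68 * K / κ := by positivity
  exact s1.trans (h5.trans (mul_le_mul_of_nonneg_left s2 hC))

/-! ### the gated sum of the modulus -/

/-- the modulus of a piece -/
lemma mdl_piece {w : W3} {i j n : ℕ} (hi : Even i) (hij : i ≤ j) (hjn : j ≤ n) (hw : n ≤ w.length) (hn : 0 < n) {d s : ℝ}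
    (hd : 0 < d) (hs : 0 < s) {θ : ℝ} (hθ : 0 ≤ θ) :
    mdl θ (crv (w.drop i) (j - i) d) ≤ s / d * mdl θ (crv w n s) := by
  have hn0 : (0 : ℝ) < n := by exact_mod_cast hn
  have hjr : (j : ℝ) ≤ n := by exact_mod_cast hjn
  have hijr : (i : ℝ) ≤ j := by exact_mod_cast hij
  have hi0 : (0 : ℝ) ≤ i := Nat.cast_nonneg i
  have hsub : ((j - i : ℕ) : ℝ) = j - i := by rw [Nat.cast_sub hij]
  obtain ⟨b, hb⟩ : ∃ b : unitInterval, (b : ℝ) = (i : ℝ) / n :=
    ⟨⟨(i : ℝ) / n, by positivity, by rw [div_le_one hn0]; linarith⟩, rfl⟩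
  have hex : ∀ t : unitInterval, ∃ a : unitInterval, (a : ℝ) = (i + t * (j - i)) / n := fun t => by
    have ht0 : (0 : ℝ) ≤ t := t.2.1
    have ht1 : (t : ℝ) ≤ 1 := t.2.2
    refine ⟨⟨(i + t * (j - i)) / n, ?_, ?_⟩, rfl⟩
    · have : 0 ≤ (t : ℝ) * (j - i) := mul_nonneg ht0 (by linarith)
      positivity
    · rw [div_le_one hn0]
      nlinarith
  refine mdl_le hθ fun t t' htt => ?_
  obtain ⟨a, ha⟩ := hex t
  obtain ⟨a', ha'⟩ := hex t'
  have e1 := crv_drop hi hij hjn hw hd hs t a b (by rw [ha, hsub, div_mul_cancel₀ _ hn0.ne'])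
    (by rw [hb, div_mul_cancel₀ _ hn0.ne'])
  have e2 := crv_drop hi hij hjn hw hd hs t' a' b (by rw [ha', hsub, div_mul_cancel₀ _ hn0.ne'])
    (by rw [hb, div_mul_cancel₀ _ hn0.ne'])
  have e3 : ((s / d : ℝ) : ℂ) * (crv w n s a - crv w n s b) - ((s / d : ℝ) : ℂ) * (crv w n s a' - crv w n s b) =
      ((s / d : ℝ) : ℂ) * (crv w n s a - crv w n s a') := by ring
  rw [e1, e2, e3, norm_mul, Complex.norm_real, Real.norm_eq_abs, abs_of_pos (div_pos hs hd)]
  refine mul_le_mul_of_nonneg_left (le_mdl _ ?_) (div_pos hs hd).le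
  have e4 : (a : ℝ) - a' = (t - t') * ((j - i) / n) := by
    rw [ha, ha']
    field_simp
    ring
  have h1 : (j - i : ℝ) / n ≤ 1 := by
    rw [div_le_one hn0]
    linarith
  have h2 : 0 ≤ (j - i : ℝ) / n := div_nonneg (by linarith) hn0.le
  rw [e4, abs_mul, abs_of_nonneg h2]
  exact (mul_le_of_le_one_right (abs_nonneg _) h1).trans htt

/-- **the gated sum of the modulus is small** -/
theorem cl_fin {p0 : ℝ} (hp0 : 0 < p0) {ε : ℝ} (hε : 0 < ε) : ∃ t1 : ℝ, 0 < t1 ∧ ∀ th : ℝ, 0 < th → th ≤ t1 →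
    ∃ θ1 : ℝ, 0 < θ1 ∧ ∀ θ : ℝ, 0 ≤ θ → θ ≤ θ1 → ∀ e : ℝ, 0 ≤ e → e ≤ 1 / 8 → ∀ᶠ N in atTop, ∀ G : W3 → ℕ → ℕ → ℝ,
      Gb e th G N → p0 * ∑ n ∈ Wn N (2 * th), aN n ≤ SS G N th (fun _ => 1) →
        ∑' n, SG G N (fun γ T => om th θ (γ, T)) n ≤ ε * SS G N th (fun _ => 1) ∧ 0 < SS G N th (fun _ => 1) := by
  obtain ⟨t2, ht2, ht24, h2⟩ := win_gen (K := 8) (κ := 2) (by norm_num) (by norm_num)
  obtain ⟨t3, ht3, ht38, h3⟩ := slow_win one_pos
  obtain ⟨η, hη, hηε⟩ : ∃ η : ℝ, 0 < η ∧ η * (68 * 8 / 2) ≤ ε * p0 :=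
    ⟨ε * p0 / (68 * 8 / 2), by positivity, by rw [div_mul_cancel₀ _ (by norm_num)]⟩
  obtain ⟨A, hA, h, hh, K, hK, hlaw⟩ := equi (ε := η / 8) (om := η / 16) (by positivity) (by positivity)
  refine ⟨min (t2 / 8) (t3 / 4), lt_min (by positivity) (by positivity), fun th hth htt => ?_⟩
  have htt2 : 8 * th ≤ t2 := by linarith [htt.trans (min_le_left _ _)]
  have htt3 : 4 * th ≤ t3 := by linarith [htt.trans (min_le_right _ _)]
  refine ⟨min h (η * th / 32), lt_min hh (by positivity), fun θ hθ hθ1 e he he8 => ?_⟩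
  have hθh : θ ≤ h := hθ1.trans (min_le_left _ _)
  have hθt : 8 * θ / th ≤ η / 4 := by
    rw [div_le_iff₀ hth]
    linarith [hθ1.trans (min_le_right _ _)]
  have h3' := h3 (4 * th) (by positivity) htt3
  rw [show 2 * (4 * th) = 8 * th by ring] at h3'
  filter_upwards [h2 th hth htt2, h3', eventually_ge_atTop 2] with N g2 g3 hN2 G hG hlow
  obtain ⟨g2, gne⟩ := g2
  have hN1 : 1 ≤ N := by omega
  have hN0 : (0 : ℝ) < N := by exact_mod_cast (show 0 < N by omega)
  have hNN : N ∈ Wn N (8 * th) := by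
    rw [mem_Wn hN1 (by linarith), div_self hN0.ne', sub_self, abs_zero]
    linarith
  -- the durations
  have hT : ∀ {n : ℕ} {s : Fin n → Fin 3}, s ∈ saw n → ∀ {i j : ℕ}, G (List.ofFn s) i j ≠ 0 →
      |((j - i : ℕ) : ℝ) / N - n / N| ≤ 2 * e * th := by
    intro n s hs i j h0
    obtain ⟨k1, k2, k3, k4, k5⟩ := hG.supp _ _ _ (SW_ofFn s |>.2 hs) h0
    rw [List.length_ofFn] at k3 k5
    have hjr : (j : ℝ) ≤ n := by exact_mod_cast k3
    have hi0 : (0 : ℝ) ≤ i := Nat.cast_nonneg i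
    rw [← sub_div, abs_div, abs_of_pos hN0, Nat.cast_sub k2, div_le_iff₀ hN0, abs_le]
    constructor <;> nlinarith
  -- the upper bound
  have up : ∀ n ∈ Wn N (8 * th), SG G N (fun γ T => om th θ (γ, T)) n ≤ η * aN n := by
    intro n hn
    have hnN := (Wn_iff hN1 (by linarith)).1 hn
    have hn2 : (N : ℝ) / 2 ≤ n := by nlinarith [hnN.1]
    have hn0 : (0 : ℝ) < n := by linarith
    have hn1 : 1 ≤ n := by exact_mod_cast hn0
    have hsn := NTSF.size_pos hn1
    have hsN := NTSF.size_pos hN1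
    have hq : size n / size N ≤ 2 := by linarith [(abs_le.1 (g3 n hn N hNN).2.1).2]
    have key : ∀ s ∈ saw n, ∀ i j, G (List.ofFn s) i j *
        om th θ (crv ((List.ofFn s).drop i) (j - i) (size N), ((j - i : ℕ) : ℝ) / N) ≤
          G (List.ofFn s) i j * (η / 2 + 2 * Kᶜ.indicator (fun _ => (1 : ℝ)) (curve s)) := by
      intro s hs i j
      rcases eq_or_ne (G (List.ofFn s) i j) 0 with h0 | h0
      · rw [h0, zero_mul, zero_mul]
      refine mul_le_mul_of_nonneg_left ?_ (hG.nn _ _ _)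
      obtain ⟨k1, k2, k3, k4, k5⟩ := hG.supp _ _ _ (SW_ofFn s |>.2 hs) h0
      rw [List.length_ofFn] at k3 k5
      by_cases hc : curve s ∈ K
      · rw [Set.indicator_of_notMem (by simpa using hc), mul_zero, add_zero]
        obtain ⟨-, a2⟩ := hK _ hc
        rw [curve_ofFn s] at a2
        have m1 : mdl θ (crv (List.ofFn s) n (size n)) ≤ η / 16 := mdl_le hθ fun a b hab => a2 a b (hab.trans hθh)
        have m2 := mdl_piece (w := List.ofFn s) k1 k2 k3 (by rw [List.length_ofFn]) hn1 hsN hsn hθ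
        have m3 : mdl θ (crv ((List.ofFn s).drop i) (j - i) (size N)) ≤ 2 * (η / 16) :=
          m2.trans (mul_le_mul hq m1 (mdl_nonneg hθ _) zero_le_two)
        unfold om
        simp only
        have m4 := mdl_nonneg hθ (crv ((List.ofFn s).drop i) (j - i) (size N))
        calc min 2 (8 * θ / th + 2 * mdl θ (crv ((List.ofFn s).drop i) (j - i) (size N))) *
              ct (4 * th) (((j - i : ℕ) : ℝ) / N) ≤
            (8 * θ / th + 2 * mdl θ (crv ((List.ofFn s).drop i) (j - i) (size N))) * 1 :=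
              mul_le_mul (min_le_right _ _) (ct_le_one _ _) (ct_nonneg _ _) (by positivity)
          _ ≤ η / 2 := by linarith
      · rw [Set.indicator_of_mem (by simpa using hc), mul_one]
        linarith [om_le (th := th) (θ := θ) (crv ((List.ofFn s).drop i) (j - i) (size N), ((j - i : ℕ) : ℝ) / N)]
    have k1 : ∑ s ∈ saw n, ∑ i ∈ range (n + 1), ∑ j ∈ range (n + 1), G (List.ofFn s) i j *
        om th θ (crv ((List.ofFn s).drop i) (j - i) (size N), ((j - i : ℕ) : ℝ) / N) ≤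
        ∑ s ∈ saw n, (η / 2 + 2 * Kᶜ.indicator (fun _ => (1 : ℝ)) (curve s)) := by
      refine sum_le_sum fun s hs => ?_
      have k2 : ∑ i ∈ range (n + 1), ∑ j ∈ range (n + 1), G (List.ofFn s) i j *
          om th θ (crv ((List.ofFn s).drop i) (j - i) (size N), ((j - i : ℕ) : ℝ) / N) ≤
          Gam G (List.ofFn s) * (η / 2 + 2 * Kᶜ.indicator (fun _ => (1 : ℝ)) (curve s)) := by
        rw [Gam_ofFn, sum_mul]
        refine sum_le_sum fun i _ => ?_
        rw [sum_mul]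
        exact sum_le_sum fun j _ => key s hs i j
      refine k2.trans ?_
      have h10 : 0 ≤ η / 2 + 2 * Kᶜ.indicator (fun _ => (1 : ℝ)) (curve s) := by
        have : 0 ≤ Kᶜ.indicator (fun _ => (1 : ℝ)) (curve s) := Set.indicator_nonneg (fun _ _ => zero_le_one) _
        positivity
      exact (mul_le_mul_of_nonneg_right (hG.one _ (SW_ofFn s |>.2 hs)) h10).trans_eq (one_mul _)
    have k3 : ∑ s ∈ saw n, (η / 2 + 2 * Kᶜ.indicator (fun _ => (1 : ℝ)) (curve s)) ≤ η * (saw n).card := by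
      rw [sum_add_distrib, sum_const, nsmul_eq_mul, ← mul_sum]
      have := card_of_law (by positivity) (hlaw n hn1)
      have hc : (0 : ℝ) ≤ (saw n).card := Nat.cast_nonneg _
      nlinarith
    unfold SG
    calc fug ^ n * _ ≤ fug ^ n * (η * (saw n).card) := mul_le_mul_of_nonneg_left (k1.trans k3) (fug_nn n)
      _ = η * aN n := by
        unfold aN
        ring
  -- out of the window
  have out : ∀ n, n ∉ Wn N (8 * th) → SG G N (fun γ T => om th θ (γ, T)) n = 0 := by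
    intro n hn
    unfold SG
    rw [sum_eq_zero, mul_zero]
    intro s hs
    refine sum_eq_zero fun i _ => sum_eq_zero fun j _ => ?_
    rcases eq_or_ne (G (List.ofFn s) i j) 0 with h0 | h0
    · rw [h0, zero_mul]
    have hz : ct (4 * th) (((j - i : ℕ) : ℝ) / N) = 0 := by
      refine ct_zero (by linarith) ?_
      by_contra hc
      rw [not_le] at hc
      refine hn ?_
      rw [mem_Wn hN1 (by linarith)]
      have h1 := hT hs h0
      rw [abs_sub_comm] at h1
      have h4 : (n : ℝ) / N - 1 = ((n : ℝ) / N - ((j - i : ℕ) : ℝ) / N) + (((j - i : ℕ) : ℝ) / N - 1) := by ring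
      rw [h4]
      refine (abs_add_le _ _).trans ?_
      nlinarith
    unfold om
    simp only
    rw [hz, mul_zero, mul_zero]
  rw [tsum_eq_sum (s := Wn N (8 * th)) fun n hn => out n hn]
  -- the lower bound
  have hpos : 0 < ∑ n ∈ Wn N (2 * th), aN n := by
    refine sum_pos (fun n _ => WK.aN_pos n) ⟨N, ?_⟩
    rw [mem_Wn hN1 (by linarith), div_self hN0.ne', sub_self, abs_zero]
    linarith
  have hfil : ∑ n ∈ (Wn N (2 * th)).filter fun n => Even n, aN n ≤ ∑ n ∈ Wn N (2 * th), aN n :=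
    sum_le_sum_of_subset_of_nonneg (filter_subset _ _) fun n _ _ => aN_nonneg n
  refine ⟨?_, lt_of_lt_of_le (mul_pos hp0 hpos) hlow⟩
  calc ∑ n ∈ Wn N (8 * th), SG G N (fun γ T => om th θ (γ, T)) n ≤ ∑ n ∈ Wn N (8 * th), η * aN n := sum_le_sum up
    _ = η * ∑ n ∈ Wn N (8 * th), aN n := by rw [mul_sum]
    _ ≤ η * (68 * 8 / 2 * ∑ n ∈ (Wn N (2 * th)).filter fun n => Even n, aN n) :=
        mul_le_mul_of_nonneg_left g2 hη.le
    _ = η * (68 * 8 / 2) * ∑ n ∈ (Wn N (2 * th)).filter fun n => Even n, aN n := by ring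
    _ ≤ ε * p0 * ∑ n ∈ (Wn N (2 * th)).filter fun n => Even n, aN n :=
        mul_le_mul_of_nonneg_right hηε (sum_nonneg fun n _ => aN_nonneg n)
    _ ≤ ε * p0 * ∑ n ∈ Wn N (2 * th), aN n := mul_le_mul_of_nonneg_left hfil (by positivity)
    _ = ε * (p0 * ∑ n ∈ Wn N (2 * th), aN n) := by ring
    _ ≤ ε * SS G N th (fun _ => 1) := mul_le_mul_of_nonneg_left hlow hε.le

end Pool.Agent.ROT.F3E
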