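import Pool.Agent.ROT.F3ClsM

/-!
# F3, the limit classes (helper90): the closed words as a system; all soft parameters moved at once

* `WSy.comp` : systems along a sequence;
* **`Lm.aec`** : functions of the curve which are continuous on `{0 < h}`, `0 < h` a.e.;
* `En.sh`, `Prm.sh` : all the soft parameters of the data moved by `t`; `kcF_sh`; `up_sh`;
* **`null_fin`** : finitely many statistics: all but countably many `t`.
-/

set_option autoImplicit false
set_option linter.unusedSectionVars false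

open MeasureTheory Filter Topology Set BoundedContinuousFunction
open scoped ENNReal NNReal Classical unitInterval

namespace Pool.Agent.ROT.F3

/-! ### 1. Functions which are continuous almost everywhere -/

namespace LF

variable {ι : Type*} {l : Filter ι} {Ω : ι → Type*} [∀ i, MeasurableSpace (Ω i)] {P : ∀ i, Measure (Ω i)}
  {X : Type*} [PseudoMetricSpace X] [MeasurableSpace X] [BorelSpace X] {c : ∀ i, Ω i → X} {ν : Measure X}

/-- **functions of the curve, continuous on the open set `{0 < h}` of full measure** -/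
theorem Lm.aec (hC : Cv l P c ν) {G h : X → ℝ} (mG : Measurable G) {C : ℝ} (bG : ∀ x, |G x| ≤ C) (hh : Continuous h)
    (hpos : ∀ᵐ x ∂ν, 0 < h x) (hG : ContinuousOn G {x | 0 < h x}) : Lm l P c ν (fun i ω => G (c i ω)) G := by
  have hfin := hC.fin'
  rcases isEmpty_or_nonempty X with hX | hX
  · have e : G = fun _ => (0 : ℝ) := by
      funext x
      exact (IsEmpty.false x).elim
    rw [e]
    exact Lm.const hC 0
  have hC0 : 0 ≤ C := (abs_nonneg _).trans (bG hX.some)
  -- the cut-off
  have hcont : ∀ δ : ℝ, 0 < δ → Continuous fun x => G x * rmp (h x / δ) := by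
    intro δ hδ
    rw [continuous_iff_continuousAt]
    intro x
    by_cases hx : 0 < h x
    · have h1 : ContinuousAt G x := hG.continuousAt ((isOpen_lt continuous_const hh).mem_nhds hx)
      exact h1.mul ((rmp_cont.comp (hh.div_const δ)).continuousAt)
    · have h2 : rmp (h x / δ) = 0 := rmp_of (div_nonpos_of_nonpos_of_nonneg (not_lt.1 hx) hδ.le)
      have h3 : Tendsto (fun y => C * rmp (h y / δ)) (𝓝 x) (𝓝 0) := by
        have h4 : Continuous fun y => C * rmp (h y / δ) := continuous_const.mul (rmp_cont.comp (hh.div_const δ))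
        have h5 := h4.tendsto x
        rw [h2, mul_zero] at h5
        exact h5
      show Tendsto (fun y => G y * rmp (h y / δ)) (𝓝 x) (𝓝 (G x * rmp (h x / δ)))
      rw [h2, mul_zero]
      refine squeeze_zero_norm (fun y => ?_) h3
      rw [Real.norm_eq_abs, abs_mul, abs_of_nonneg (rmp_nonneg _)]
      exact mul_le_mul_of_nonneg_right (bG y) (rmp_nonneg _)
  refine Lm.closed hC (fun i => mG.comp (hC.ms i)) ⟨C, fun i ω => bG _⟩ mG ⟨C, bG⟩ fun ε hε => ?_
  have hgap : Tendsto (fun m : ℕ => ∫ x, C * (1 - rmp (h x / (1 / ((m : ℝ) + 1)))) ∂ν) atTop (𝓝 0) := by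
    have h1 : Tendsto (fun m : ℕ => ∫ x, C * (1 - rmp (h x / (1 / ((m : ℝ) + 1)))) ∂ν) atTop (𝓝 (∫ _, (0 : ℝ) ∂ν)) := by
      refine tendsto_integral_of_dominated_convergence (fun _ => C) (fun m => ?_) (integrable_const _) (fun m => ?_) ?_
      · have := rmp_cont.measurable.comp (hh.measurable.div_const (1 / ((m : ℝ) + 1)))
        exact ((measurable_const.sub this).const_mul C).aestronglyMeasurable
      · refine Eventually.of_forall fun x => ?_
        have g0 := rmp_nonneg (h x / (1 / ((m : ℝ) + 1)))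
        have g1 := rmp_le (h x / (1 / ((m : ℝ) + 1)))
        have g2 : 0 ≤ C * (1 - rmp (h x / (1 / ((m : ℝ) + 1)))) := mul_nonneg hC0 (by linarith)
        rw [Real.norm_eq_abs, abs_of_nonneg g2]
        nlinarith
      · filter_upwards [hpos] with x hx
        refine tendsto_const_nhds.congr' ?_
        have h2 : Tendsto (fun n : ℕ => 1 / ((n : ℝ) + 1)) atTop (𝓝 0) := tendsto_one_div_add_atTop_nhds_zero_nat
        filter_upwards [h2.eventually (gt_mem_nhds hx)] with m hm
        have hd : (0 : ℝ) < 1 / ((m : ℝ) + 1) := by positivity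
        have h3 : (1 : ℝ) ≤ h x / (1 / ((m : ℝ) + 1)) := by
          rw [le_div_iff₀ hd, one_mul]
          exact hm.le
        rw [rmp_of' h3]
        simp
    simpa using h1
  obtain ⟨m, hm⟩ := (hgap.eventually (gt_mem_nhds (show (0 : ℝ) < ε by positivity))).exists
  obtain ⟨δ, hδd⟩ : ∃ δ : ℝ, δ = 1 / ((m : ℝ) + 1) := ⟨_, rfl⟩
  have hδ : 0 < δ := by
    rw [hδd]
    positivity
  rw [← hδd] at hm
  have hb1 : ∀ x, |G x * rmp (h x / δ)| ≤ C := fun x => by
    rw [abs_mul, abs_of_nonneg (rmp_nonneg _)]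
    calc |G x| * rmp (h x / δ) ≤ C * 1 := mul_le_mul (bG x) (rmp_le _) (rmp_nonneg _) hC0
      _ = C := mul_one C
  have hb2 : ∀ x, |C * (1 - rmp (h x / δ))| ≤ C := fun x => by
    have g0 := rmp_nonneg (h x / δ)
    have g1 := rmp_le (h x / δ)
    rw [abs_of_nonneg (mul_nonneg hC0 (by linarith))]
    nlinarith
  have hc2 : Continuous fun x => C * (1 - rmp (h x / δ)) :=
    continuous_const.mul (continuous_const.sub (rmp_cont.comp (hh.div_const δ)))
  have lq := Lm.cont hC (BoundedContinuousFunction.ofNormedAddCommGroup _ (hcont δ hδ) C hb1)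
  have lg := Lm.cont hC (BoundedContinuousFunction.ofNormedAddCommGroup _ hc2 C hb2)
  have hle : ∀ x, |G x - G x * rmp (h x / δ)| ≤ C * (1 - rmp (h x / δ)) := fun x => by
    have e : G x - G x * rmp (h x / δ) = G x * (1 - rmp (h x / δ)) := by ring
    have g1 := rmp_le (h x / δ)
    have g2 : 0 ≤ 1 - rmp (h x / δ) := by linarith
    rw [e, abs_mul, abs_of_nonneg g2]
    exact mul_le_mul_of_nonneg_right (bG x) g2
  refine ⟨_, _, lq, ?_, ?_⟩
  · refine le_trans (integral_mono ?_ (lg.int' hC) hle) hm.le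
    exact ((itg mG bG).sub (lq.int' hC)).abs
  · filter_upwards [(lg.tendsto hC).eventually (gt_mem_nhds hm)] with i hi
    have := hC.fin i
    refine le_trans (integral_mono ?_ (lg.int hC i) fun ω => hle (c i ω)) hi.le
    exact ((itg (mG.comp (hC.ms i)) fun ω => bG _).sub (lq.int hC i)).abs

end LF

/-! ### 2. Systems -/

section comp

variable {ι ι' : Type*} {l : Filter ι} {l' : Filter ι'} {Ω : ι → Type*} [∀ i, MeasurableSpace (Ω i)]
  {X : Type*} [PseudoMetricSpace X] {c : ∀ i, Ω i → X} {w : ∀ i, Ω i → W3} {n : ∀ i, Ω i → ℕ} {S T : ι → ℝ} {g : X → C(I, ℂ)}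
  {L : X → ℝ}

lemma WSy.comp (h : WSy l c w n S T g L) {φ : ι' → ι} (hφ : Tendsto φ l' l) :
    WSy (Ω := fun i => Ω (φ i)) l' (fun i => c (φ i)) (fun i => w (φ i)) (fun i => n (φ i)) (fun i => S (φ i)) (fun i => T (φ i)) g L where
  hg := h.hg
  hL := h.hL
  eg i ω := h.eg (φ i) ω
  eL i ω := h.eL (φ i) ω
  hn i ω := h.hn (φ i) ω
  hS := h.hS.comp hφ
  hT := hφ.eventually h.hT

end comp

/-! ### 3. Shifts of all the data -/

/-- the soft parameters of one end moved by `t` -/
def En.sh (E : En) (t : ℝ) : En :=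
  { E with n := E.n.sh t, f := E.f.sh t, rk := E.rk + t, κk := E.κk + t, ek := E.ek - t, lk := E.lk + t, kr := E.kr + t, s := E.s.sh t }

/-- the soft parameters moved by `t` -/
noncomputable def Prm.sh (P : Prm) (t : ℝ) : Prm := { P with p := P.p.sh t, q := P.q.sh t, W := P.W.sh t, Wc := P.Wc.sh t }

lemma up_sh (P : Tp) (y t : ℝ) : (P.up y).sh t = (P.sh t).up y := rfl

/-- the statistic of the pieces `k` without the ball of the block -/
noncomputable def kcB (d d' : ℂ) (E : En) (g : C(I, ℂ)) (L : ℝ) (a b c : I) : ℝ :=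
  max (max (stS (fun v => ‖v‖) (cutc g a b) - E.rk)
    (max (stS (fCo d E.n.c) (cutc g a c) - E.κk) (stS (fCo d' E.f.c) (cutc g b c) - E.f.κ1)))
    (max (max (fCo d E.n.c (cutc g a c 1) + E.ek) (‖cutc g a c 1 - (E.kc : ℂ) * d‖ - E.kr)) (duU E.lk L a c))

lemma kcF_eq (d d' : ℂ) (E : En) (g : C(I, ℂ)) (L : ℝ) (a b c : I) :
    kcF d d' E g L a b c = max (kcB d d' E g L a b c) (stS (fun v => ‖v‖) (cutc g b c) - E.f.r2) := by
  unfold kcF kcB
  refine le_antisymm ?_ ?_
  · refine max_le (max_le (max_le ?_ ?_) ?_) ?_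
    · exact le_max_of_le_left (le_max_of_le_left (le_max_left _ _))
    · exact le_max_right _ _
    · exact le_max_of_le_left (le_max_of_le_left (le_max_right _ _))
    · exact le_max_of_le_left (le_max_right _ _)
  · refine max_le (max_le (max_le ?_ ?_) ?_) ?_
    · exact le_max_of_le_left (le_max_of_le_left (le_max_left _ _))
    · exact le_max_of_le_left (le_max_right _ _)
    · exact le_max_right _ _
    · exact le_max_of_le_left (le_max_of_le_left (le_max_right _ _))

lemma kcB_sh (t : ℝ) (d d' : ℂ) (E : En) (g : C(I, ℂ)) (L : ℝ) (a b c : I) :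
    kcB d d' (E.sh t) g L a b c = kcB d d' E g L a b c - t := by
  unfold kcB En.sh Tp.sh
  dsimp only
  rw [duU_sh]
  have a1 : stS (fun v => ‖v‖) (cutc g a b) - (E.rk + t) = stS (fun v => ‖v‖) (cutc g a b) - E.rk - t := by ring
  have a2 : stS (fCo d E.n.c) (cutc g a c) - (E.κk + t) = stS (fCo d E.n.c) (cutc g a c) - E.κk - t := by ring
  have a3 : stS (fCo d' E.f.c) (cutc g b c) - (E.f.κ1 + t) = stS (fCo d' E.f.c) (cutc g b c) - E.f.κ1 - t := by ring
  have a4 : fCo d E.n.c (cutc g a c 1) + (E.ek - t) = fCo d E.n.c (cutc g a c 1) + E.ek - t := by ring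
  have a5 : ‖cutc g a c 1 - (E.kc : ℂ) * d‖ - (E.kr + t) = ‖cutc g a c 1 - (E.kc : ℂ) * d‖ - E.kr - t := by ring
  rw [a1, a2, a3, a4, a5, max_sub_sub_right, max_sub_sub_right, max_sub_sub_right, max_sub_sub_right, max_sub_sub_right]

/-- **shifts of the pieces `k`** -/
lemma kcF_sh (t : ℝ) {d d' : ℂ} {E : En} {g : C(I, ℂ)} {L : ℝ} {a b c : I} (h : kcF d d' (E.sh t) g L a b c = 0) :
    kcB d d' E g L a b c - t = 0 ∨ stS (fun v => ‖v‖) (cutc g b c) - E.f.r2 = 0 := by
  rw [kcF_eq, kcB_sh] at h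
  rcases max_choice (kcB d d' E g L a b c - t) (stS (fun v => ‖v‖) (cutc g b c) - (E.sh t).f.r2) with h1 | h1
  · left
    rw [← h1]
    exact h
  · right
    rw [← h]
    exact h1.symm

lemma Continuous.kcB {Z : Type*} [TopologicalSpace Z] {d d' : ℂ} {g : Z → C(I, ℂ)} {L : Z → ℝ} {a b c : Z → I} {E : En}
    (hn : E.n.Co) (hf : E.f.Co) (hd : ‖d‖ = 1) (hd' : ‖d'‖ = 1) (hg : Continuous g) (hL : Continuous L) (ha : Continuous a)
    (hb : Continuous b) (hc : Continuous c) : Continuous fun z => kcB d d' E (g z) (L z) (a z) (b z) (c z) := by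
  unfold F3.kcB
  exact (((Continuous.stS' lip_norm (Continuous.cutc' hg ha hb)).sub continuous_const).max
    (((Continuous.stS' (fCo_lip hd hn.c0 hn.c1) (Continuous.cutc' hg ha hc)).sub continuous_const).max
      ((Continuous.stS' (fCo_lip hd' hf.c0 hf.c1) (Continuous.cutc' hg hb hc)).sub continuous_const))).max
    (((((fCo_lip hd hn.c0 hn.c1).continuous.comp (Continuous.cutc1 hg ha hc)).add continuous_const).max
      (((Continuous.cutc1 hg ha hc).sub continuous_const).norm.sub continuous_const)).max (Continuous.duU _ hL ha hc))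

/-- a good shift below any bound, off a countable set -/
lemma ex_shift {Z : Set ℝ} (hZ : Z.Countable) {t0 : ℝ} (h0 : 0 < t0) : ∃ t : ℝ, 0 < t ∧ t < t0 ∧ t ∉ Z := by
  by_contra h
  push Not at h
  have h1 : Ioo (0 : ℝ) t0 ⊆ Z := fun t ht => h t ht.1 ht.2
  exact (Cardinal.Real.Ioo_countable_iff.not.2 (not_le.2 h0)) (hZ.mono h1)

end Pool.Agent.ROT.F3
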