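import Pool.Agent.ROT.F3ClsN
import Pool.Agent.ROT.F3Sys

/-!
# F3, the limit classes (helper90): the closed words with two roots are a system `WSy`
-/

set_option autoImplicit false

open MeasureTheory Filter Topology Set
open scoped unitInterval

namespace Pool.Agent.ROT.F3

private lemma uT_pos {N : ℕ} (h : 1 ≤ N) : 0 < uT N := by
  unfold uT
  have : (0 : ℝ) < N := by exact_mod_cast h
  positivity

/-- **the closed words with two roots** -/
lemma wsy_cN {l : Filter ℕ} (hl : l ≤ atTop) :
    WSy (Ω := fun _ => W3 × ℕ) l cN (fun _ x => x.1) (fun _ x => x.1.length) (fun N => (N : ℝ)) uT (fun y => y.2.2) (fun y => y.1) where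
  hg := continuous_snd.comp continuous_snd
  hL := continuous_fst
  eg _ _ := rfl
  eL _ _ := rfl
  hn _ _ := le_rfl
  hS := tendsto_natCast_atTop_atTop.mono_left hl
  hT := by
    filter_upwards [hl (eventually_ge_atTop 1)] with N hN
    exact uT_pos hN

end Pool.Agent.ROT.F3
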