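import Pool.Agent.ROT.F3Lane

/-!
# F3, the companions with their mouths (helper64)

`companions`: as `two_companions`, the main arc leaves `P` and comes to `Q` on the EAST side (`x ≥ P.1`; in a strip near the first
column); companion 2 leaves the box of radius `a` around `P` at a prescribed place of its NORTH side and comes to the box of `Q` at a
prescribed place of its SOUTH side, companion 3 leaves in the SOUTH and comes from the NORTH (cyclic order reversed).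
-/

set_option autoImplicit false

namespace HexObs

namespace ROT

namespace F3L

open ARM (adj nr nr_iff nr_symm nr_trans nr_mono nr_self)
open ART ART.Lane

lemma hseg {G : ℤ × ℤ → Prop} {y x x' : ℤ} (hG : ∀ t, min x x' ≤ t → t ≤ max x x' → G (t, y)) :
    Relation.ReflTransGen (fun f g => adj f g ∧ G g) (x, y) (x', y) := by
  have e : ∀ s : ℤ, ((0, y) : ℤ × ℤ) + s • ((1, 0) : ℤ × ℤ) = (s, y) := fun s => by
    rw [Prod.smul_mk, Prod.mk_add_mk, smul_eq_mul, smul_eq_mul, mul_one, mul_zero, zero_add, add_zero]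
  rcases le_total x x' with h | h
  · have := straight (G := G) (P := (0, y)) (δ := (1, 0)) (by rw [mem_D4]; exact Or.inl rfl) h (fun s h1 h2 => by
      rw [e]; exact hG s (by omega) (by omega))
    rwa [e, e] at this
  · have := straight' (G := G) (P := (0, y)) (δ := (1, 0)) (by rw [mem_D4]; exact Or.inl rfl) h (fun s h1 h2 => by
      rw [e]; exact hG s (by omega) (by omega))
    rwa [e, e] at this

lemma vseg {G : ℤ × ℤ → Prop} {x y y' : ℤ} (hG : ∀ t, min y y' ≤ t → t ≤ max y y' → G (x, t)) :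
    Relation.ReflTransGen (fun f g => adj f g ∧ G g) (x, y) (x, y') := by
  have e : ∀ s : ℤ, ((x, 0) : ℤ × ℤ) + s • ((0, 1) : ℤ × ℤ) = (x, s) := fun s => by
    rw [Prod.smul_mk, Prod.mk_add_mk, smul_eq_mul, smul_eq_mul, mul_one, mul_zero, zero_add, add_zero]
  have m : ((0, 1) : ℤ × ℤ) ∈ D4 := by rw [mem_D4]; exact Or.inr (Or.inr (Or.inl rfl))
  rcases le_total y y' with h | h
  · have := straight (G := G) (P := (x, 0)) (δ := (0, 1)) m h (fun s h1 h2 => by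
      rw [e]; exact hG s (by omega) (by omega))
    rwa [e, e] at this
  · have := straight' (G := G) (P := (x, 0)) (δ := (0, 1)) m h (fun s h1 h2 => by
      rw [e]; exact hG s (by omega) (by omega))
    rwa [e, e] at this

lemma rtg_list {G : ℤ × ℤ → Prop} {x y : ℤ × ℤ} (hx : G x) (h : Relation.ReflTransGen (fun f g => adj f g ∧ G g) x y) :
    ∃ l : List (ℤ × ℤ), l.IsChain adj ∧ l.Nodup ∧ l.head? = some x ∧ l.getLast? = some y ∧ ∀ z ∈ l, G z := by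
  obtain ⟨n, f, h0, hn, hf, hi, -⟩ := ARM.short_path h
  refine ⟨(List.range (n + 1)).map f, ?_, ?_, ?_, ?_, ?_⟩
  · rw [List.isChain_map, List.isChain_range_succ]
    exact fun i hi => (hf i hi).1
  · refine List.Nodup.map_on ?_ List.nodup_range
    intro i hi' j hj' he
    rw [List.mem_range] at hi' hj'
    rcases lt_trichotomy i j with h1 | h1 | h1
    · exact absurd he (hi i j h1 (by omega))
    · exact h1
    · exact absurd he.symm (hi j i h1 (by omega))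
  · rw [List.head?_map, List.range_succ_eq_map]
    simp [h0]
  · rw [List.range_succ]
    simp [hn]
  · intro z hz
    obtain ⟨i, hi', rfl⟩ := List.mem_map.1 hz
    rw [List.mem_range] at hi'
    cases i with
    | zero => rw [h0]; exact hx
    | succ i => exact (hf i (by omega)).2

/-- the lanes of the companions: `L` from the north side of `P` to the south side of `Q`, `M` from the north side of `Q` to the
south side of `P` -/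
structure Cmp (P Q : ℤ × ℤ) (a b e a₁ b₁ e₁ T xN xS xN' xS' : ℤ) (F : ℤ × ℤ → Prop) (L M : List (ℤ × ℤ)) : Prop where
  chL : L.IsChain adj
  chM : M.IsChain adj
  ndL : L.Nodup
  ndM : M.Nodup
  dis : ∀ x ∈ L, x ∉ M
  box : ∀ x, x ∈ L ∨ x ∈ M → nr T P (bl x) ∧ ¬ nr a P (bl x) ∧ ¬ nr a₁ Q (bl x) ∧ F (bl x)
  nPL : ∀ x ∈ L, nr b P (bl x) → x.1 ≤ 2 * (P.1 - a - e) ∨ (x.2 = 2 * (P.2 + a + 1) ∧ x.1 ≤ xN)
  nPM : ∀ x ∈ M, nr b P (bl x) → x.1 ≤ 2 * (P.1 - a - e) ∨ (x.2 = 2 * (P.2 - a) - 1 ∧ x.1 ≤ xS)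
  nQL : ∀ x ∈ L, nr b₁ Q (bl x) → x.1 ≤ 2 * (Q.1 - a₁ - e₁) ∨ (x.2 = 2 * (Q.2 - a₁) - 1 ∧ x.1 ≤ xS')
  nQM : ∀ x ∈ M, nr b₁ Q (bl x) → x.1 ≤ 2 * (Q.1 - a₁ - e₁) ∨ (x.2 = 2 * (Q.2 + a₁ + 1) ∧ x.1 ≤ xN')
  L1 : ∃ l, L = (xN, 2 * (P.2 + a + 1)) :: (xN - 1, 2 * (P.2 + a + 1)) :: l
  L2 : ∃ l, L.reverse = (xS', 2 * (Q.2 - a₁) - 1) :: (xS' - 1, 2 * (Q.2 - a₁) - 1) :: l
  M1 : ∃ l, M = (xN', 2 * (Q.2 + a₁ + 1)) :: (xN' - 1, 2 * (Q.2 + a₁ + 1)) :: l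
  M2 : ∃ l, M.reverse = (xS, 2 * (P.2 - a) - 1) :: (xS - 1, 2 * (P.2 - a) - 1) :: l

/-- a list from a list and two ends -/
lemma list5 {l1 l2 l3 : List (ℤ × ℤ)} {a b c d x y x' y' : ℤ × ℤ} (h1 : l1.IsChain adj) (h2 : l2.IsChain adj)
    (h3 : l3.IsChain adj) (n1 : l1.Nodup) (n2 : l2.Nodup) (n3 : l3.Nodup)
    (a1 : l1.head? = some x) (b1 : l1.getLast? = some a) (a2 : l2.head? = some b) (b2 : l2.getLast? = some c)
    (a3 : l3.head? = some d) (b3 : l3.getLast? = some y) (hab : adj a b) (hcd : adj c d) (hx : adj x' x) (hy : adj y y')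
    (d12 : ∀ z ∈ l1, z ∉ l2) (d13 : ∀ z ∈ l1, z ∉ l3) (d23 : ∀ z ∈ l2, z ∉ l3)
    (x1 : x' ∉ l1) (x2 : x' ∉ l2) (x3 : x' ∉ l3) (y1 : y' ∉ l1) (y2 : y' ∉ l2) (y3 : y' ∉ l3) (hxy : x' ≠ y') :
    (x' :: (l1 ++ (l2 ++ (l3 ++ [y'])))).IsChain adj ∧ (x' :: (l1 ++ (l2 ++ (l3 ++ [y'])))).Nodup ∧
      (∃ l, x' :: (l1 ++ (l2 ++ (l3 ++ [y']))) = x' :: x :: l) ∧
      ∃ l, (x' :: (l1 ++ (l2 ++ (l3 ++ [y'])))).reverse = y' :: y :: l := by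
  obtain ⟨m1, rfl⟩ : ∃ m, l1 = x :: m := by
    cases l1 with
    | nil => simp at a1
    | cons u m =>
      rw [List.head?_cons, Option.some.injEq] at a1
      exact ⟨m, by rw [a1]⟩
  obtain ⟨m3, rfl⟩ : ∃ m, l3 = m ++ [y] := by
    rw [List.getLast?_eq_some_iff] at b3
    exact b3
  refine ⟨?_, ?_, ⟨m1 ++ (l2 ++ (m3 ++ [y] ++ [y'])), rfl⟩, ?_⟩
  · rw [List.cons_append, List.isChain_cons_cons]
    refine ⟨hx, ?_⟩
    rw [← List.cons_append, List.isChain_append, List.isChain_append, List.isChain_append]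
    refine ⟨h1, ⟨h2, ⟨h3, by simp, ?_⟩, ?_⟩, ?_⟩
    · intro u hu v hv
      rw [b3] at hu
      simp only [Option.mem_def, Option.some.injEq, List.head?_cons] at hu hv
      rw [← hu, ← hv]
      exact hy
    · intro u hu v hv
      rw [b2] at hu
      rw [List.head?_append, a3] at hv
      simp only [Option.mem_def, Option.some.injEq, Option.some_or] at hu hv
      rw [← hu, ← hv]
      exact hcd
    · intro u hu v hv
      rw [b1] at hu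
      rw [List.head?_append, a2] at hv
      simp only [Option.mem_def, Option.some.injEq, Option.some_or] at hu hv
      rw [← hu, ← hv]
      exact hab
  · rw [List.nodup_cons, List.nodup_append', List.nodup_append', List.nodup_append']
    refine ⟨?_, n1, ⟨n2, ⟨n3, by simp, ?_⟩, ?_⟩, ?_⟩
    · simp only [List.mem_append, List.mem_singleton, not_or] at x1 x2 x3 ⊢
      exact ⟨x1, x2, x3, hxy⟩
    · intro z hz hz'
      rw [List.mem_singleton.1 hz'] at hz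
      exact y3 hz
    · intro z hz hz'
      rcases List.mem_append.1 hz' with h | h
      · exact d23 z hz h
      · rw [List.mem_singleton.1 h] at hz
        exact y2 hz
    · intro z hz hz'
      rcases List.mem_append.1 hz' with h | h
      · exact d12 z hz h
      · rcases List.mem_append.1 h with h | h
        · exact d13 z hz h
        · rw [List.mem_singleton.1 h] at hz
          exact y1 hz
  · refine ⟨(x' :: (x :: m1 ++ (l2 ++ m3))).reverse, ?_⟩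
    simp

/-- the region of the routes around P -/
lemma reg_P {n : ℕ} {γ : ℕ → ℤ × ℤ} {P Q' : ℤ × ℤ} {r w e a b B a' D : ℤ} (ha : 0 ≤ a) (hw : w + r ≤ a)
    (hb : a + e + 1 ≤ b) (he : 1 ≤ e) (hra : r < a + e) (hbB : b + r ≤ B) (hD : b + a' ≤ D)
    (hs : ∀ i, i ≤ n → nr B P (γ i) → P.1 ≤ (γ i).1 ∧ ((γ i).1 ≤ P.1 + e + r → |(γ i).2 - P.2| ≤ w))
    (hPQ : ¬ nr D P Q') {x : ℤ × ℤ} (h1 : 2 * (P.1 - b) ≤ x.1) (h2 : x.1 ≤ 2 * P.1 + 2 * e) (h3 : 2 * (P.2 - a) - 1 ≤ x.2)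
    (h4 : x.2 ≤ 2 * (P.2 + a + 1)) (h5 : x.1 ≤ 2 * (P.1 - a - e) ∨ x.2 = 2 * (P.2 + a + 1) ∨ x.2 = 2 * (P.2 - a) - 1) :
    nr b P (bl x) ∧ ¬ nr a P (bl x) ∧ ¬ nr a' Q' (bl x) ∧ ∀ j, j ≤ n → ¬ nr r (γ j) (bl x) := by
  have hb1 : nr b P (bl x) := by
    rw [nr_iff]
    unfold bl
    simp only
    omega
  refine ⟨hb1, ?_, ?_, ?_⟩
  · rw [nr_iff]
    unfold bl
    simp only
    omega
  · intro hc
    exact hPQ (nr_mono hD (nr_trans hb1 (nr_symm hc)))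
  · intro j hj hc
    have h6 := hs j hj (nr_mono (by omega) (nr_trans hb1 (nr_symm hc)))
    rw [abs_le] at h6
    rw [nr_iff] at hc
    unfold bl at hc
    simp only at hc
    omega

/-- **the companions with their mouths** -/
theorem companions {n : ℕ} {γ : ℕ → ℤ × ℤ} {P Q : ℤ × ℤ} {r w e a b h B w₁ e₁ a₁ b₁ h₁ B₁ ρ R xN xS xN' xS' : ℤ}
    (hr : 0 ≤ r) (ha : 0 ≤ a) (he : 1 ≤ e) (hw : w + r ≤ a) (hb : a + e + 1 ≤ b) (hh : b + ρ < h) (hB : h + ρ ≤ B)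
    (ha₁ : 0 ≤ a₁) (he₁ : 1 ≤ e₁) (hw₁ : w₁ + r ≤ a₁) (hb₁ : a₁ + e₁ + 1 ≤ b₁) (hh₁ : b₁ + ρ < h₁) (hB₁ : h₁ + ρ ≤ B₁)
    (hρr : 2 * (r + 1) ≤ ρ) (hst : ∀ i, i < n → nr 1 (γ i) (γ (i + 1))) (h0 : nr b P (γ 0)) (hn : nr b₁ Q (γ n))
    (hP : ∀ i j, i ≤ j → j ≤ n → nr (b + 2 * (r + 1)) P (γ j) → nr B P (γ i) ∧ P.1 ≤ (γ i).1)
    (hQ : ∀ i j, i ≤ j → j ≤ n → nr (b₁ + 2 * (r + 1)) Q (γ i) → nr B₁ Q (γ j) ∧ Q.1 ≤ (γ j).1)
    (hm : ∀ i j, i ≤ j → j ≤ n → nr (2 * (r + 1)) (γ i) (γ j) → ∀ k, i ≤ k → k ≤ j → nr ρ (γ i) (γ k))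
    (hsP : ∀ i, i ≤ n → nr (h + ρ) P (γ i) → P.1 ≤ (γ i).1 ∧ ((γ i).1 ≤ P.1 + e + r → |(γ i).2 - P.2| ≤ w))
    (hsQ : ∀ i, i ≤ n → nr (h₁ + ρ) Q (γ i) → Q.1 ≤ (γ i).1 ∧ ((γ i).1 ≤ Q.1 + e₁ + r → |(γ i).2 - Q.2| ≤ w₁))
    (hPQ : ¬ nr (4 * (B + B₁)) P Q) (hR : ∀ i, i ≤ n → nr R P (γ i)) (hra : r < a + e) (hra₁ : r < a₁ + e₁)
    (hN : 2 * (P.1 - a - e) < xN ∧ xN ≤ 2 * (P.1 + e)) (hS : 2 * (P.1 - a - e) < xS ∧ xS ≤ 2 * (P.1 + e))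
    (hN' : 2 * (Q.1 - a₁ - e₁) < xN' ∧ xN' ≤ 2 * (Q.1 + e₁)) (hS' : 2 * (Q.1 - a₁ - e₁) < xS' ∧ xS' ≤ 2 * (Q.1 + e₁)) :
    ∃ L M : List (ℤ × ℤ), Cmp P Q a b e a₁ b₁ e₁ (R + 6 * (B + B₁)) xN xS xN' xS' (fun c => ∀ j, j ≤ n → ¬ nr r (γ j) c) L M := by
  have hE : ((-1, 0) : ℤ × ℤ) ∈ D4 := by rw [mem_D4]; exact Or.inr (Or.inl rfl)
  have hb0 : nr B P (γ 0) := nr_mono (by omega) h0
  have hbn : nr B₁ Q (γ n) := nr_mono (by omega) hn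
  have hB0 : 0 ≤ B := by
    rw [nr_iff] at hb0
    omega
  have hB1 : 0 ≤ B₁ := by
    rw [nr_iff] at hbn
    omega
  have hrb : r ≤ b := by omega
  have hrb₁ : r ≤ b₁ := by omega
  obtain ⟨L0, M0, c1, c2, c3, c4, c5, c6, c7, c8, c9, c10⟩ := two_companions (δP := (-1, 0)) (δQ := (-1, 0)) (A := b)
    (A' := b₁) hE hE hr hrb hrb₁ hρr hh hB hh₁ hB₁ hst h0 hn (by
      intro i j hij hj h1
      obtain ⟨h2, h3⟩ := hP i j hij hj h1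
      refine ⟨h2, ?_⟩
      unfold dt
      simp only [Prod.fst_sub, Prod.snd_sub]
      omega) (by
      intro i j hij hj h1
      obtain ⟨h2, h3⟩ := hQ i j hij hj h1
      refine ⟨h2, ?_⟩
      unfold dt
      simp only [Prod.fst_sub, Prod.snd_sub]
      omega) hm (by
      intro i hi h1
      have := (hsP i hi h1).1
      unfold dt
      simp only [Prod.fst_sub, Prod.snd_sub]
      omega) (by
      intro i hi h1
      have := (hsQ i hi h1).1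
      unfold dt
      simp only [Prod.fst_sub, Prod.snd_sub]
      omega) hPQ hR
  have eL : ∀ (P : ℤ × ℤ) (b : ℤ), Lf (P + (b + 1) • ((-1, 0) : ℤ × ℤ)) (-((-1, 0) : ℤ × ℤ)) = (2 * P.1 - 2 * b - 1, 2 * P.2 + 1) := by
    intro P b
    obtain ⟨P1, P2⟩ := P
    unfold Lf
    simp only [Prod.neg_mk, Prod.smul_mk, Prod.mk_add_mk, smul_eq_mul, Prod.mk.injEq]
    norm_num
    ring
  have eR : ∀ (P : ℤ × ℤ) (b : ℤ), Rt (P + (b + 1) • ((-1, 0) : ℤ × ℤ)) (-((-1, 0) : ℤ × ℤ)) = (2 * P.1 - 2 * b - 1, 2 * P.2) := by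
    intro P b
    obtain ⟨P1, P2⟩ := P
    unfold Rt
    simp only [Prod.neg_mk, Prod.smul_mk, Prod.mk_add_mk, smul_eq_mul, Prod.mk.injEq]
    norm_num
    ring
  rw [eL] at c7 c9
  rw [eR] at c8 c10
  -- the good subcells near P and Q
  obtain ⟨G, hG⟩ : ∃ G : ℤ × ℤ → Prop, G = fun x => nr (R + 6 * (B + B₁)) P (bl x) ∧ ¬ nr a P (bl x) ∧ ¬ nr a₁ Q (bl x) ∧
      ∀ j, j ≤ n → ¬ nr r (γ j) (bl x) := ⟨_, rfl⟩
  have hR0' : 0 ≤ R := by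
    have := hR 0 (Nat.zero_le _)
    rw [nr_iff] at this
    omega
  have hPQR : nr (R + b₁) P Q := nr_trans (hR n le_rfl) (nr_symm hn)
  have gP : ∀ x : ℤ × ℤ, 2 * (P.1 - b) ≤ x.1 → x.1 ≤ 2 * P.1 + 2 * e → 2 * (P.2 - a) - 1 ≤ x.2 → x.2 ≤ 2 * (P.2 + a + 1) →
      (x.1 ≤ 2 * (P.1 - a - e) ∨ x.2 = 2 * (P.2 + a + 1) ∨ x.2 = 2 * (P.2 - a) - 1) → nr b P (bl x) ∧ G x := by
    intro x h1 h2 h3 h4 h5
    obtain ⟨k1, k2, k3, k4⟩ := reg_P (a' := a₁) (D := 4 * (B + B₁)) ha hw hb he hra (by omega) (by omega) hsP hPQ h1 h2 h3 h4 h5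
    refine ⟨k1, ?_⟩
    rw [hG]
    exact ⟨nr_mono (by omega) k1, k2, k3, k4⟩
  have gQ : ∀ x : ℤ × ℤ, 2 * (Q.1 - b₁) ≤ x.1 → x.1 ≤ 2 * Q.1 + 2 * e₁ → 2 * (Q.2 - a₁) - 1 ≤ x.2 →
      x.2 ≤ 2 * (Q.2 + a₁ + 1) → (x.1 ≤ 2 * (Q.1 - a₁ - e₁) ∨ x.2 = 2 * (Q.2 + a₁ + 1) ∨ x.2 = 2 * (Q.2 - a₁) - 1) →
      nr b₁ Q (bl x) ∧ G x := by
    intro x h1 h2 h3 h4 h5
    obtain ⟨k1, k2, k3, k4⟩ := reg_P (a' := a) (D := 4 * (B + B₁)) ha₁ hw₁ hb₁ he₁ hra₁ (by omega) (by omega) hsQ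
      (fun hc => hPQ (nr_symm hc)) h1 h2 h3 h4 h5
    refine ⟨k1, ?_⟩
    rw [hG]
    exact ⟨nr_mono (by omega) (nr_trans hPQR k1), k3, k2, k4⟩
  -- the routes
  have rt : ∀ {H : ℤ × ℤ → Prop} {x0 y0 x1 y1 x2 : ℤ}, (∀ t, min x0 x1 ≤ t → t ≤ max x0 x1 → H (t, y0)) →
      (∀ t, min y0 y1 ≤ t → t ≤ max y0 y1 → H (x1, t)) → (∀ t, min x1 x2 ≤ t → t ≤ max x1 x2 → H (t, y1)) →
      ∃ l : List (ℤ × ℤ), l.IsChain adj ∧ l.Nodup ∧ l.head? = some (x0, y0) ∧ l.getLast? = some (x2, y1) ∧ ∀ z ∈ l, H z := by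
    intro H x0 y0 x1 y1 x2 h1 h2 h3
    exact rtg_list (h1 x0 (by omega) (by omega)) (((hseg h1).trans (vseg h2)).trans (hseg h3))
  have rt' : ∀ {H : ℤ × ℤ → Prop} {x0 y0 x1 y1 x2 : ℤ}, (∀ t, min x0 x1 ≤ t → t ≤ max x0 x1 → H (t, y0)) →
      (∀ t, min y0 y1 ≤ t → t ≤ max y0 y1 → H (x1, t)) → (∀ t, min x1 x2 ≤ t → t ≤ max x1 x2 → H (t, y1)) →
      ∃ l : List (ℤ × ℤ), l.IsChain adj ∧ l.Nodup ∧ l.head? = some (x2, y1) ∧ l.getLast? = some (x0, y0) ∧ ∀ z ∈ l, H z := by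
    intro H x0 y0 x1 y1 x2 h1 h2 h3
    refine rtg_list (h3 x2 (by omega) (by omega)) (((hseg fun t a1 a2 => h3 t (by omega) (by omega)).trans
      (vseg fun t a1 a2 => h2 t (by omega) (by omega))).trans (hseg fun t a1 a2 => h1 t (by omega) (by omega)))
  -- the shape of a route
  obtain ⟨HN, hHN⟩ : ∃ HN : ℤ × ℤ → ℤ → ℤ → ℤ → ℤ → ℤ × ℤ → Prop, HN = fun P a b e xN x => 2 * P.2 < x.2 ∧ nr b P (bl x) ∧ G x ∧
      x ≠ (xN, 2 * (P.2 + a + 1)) ∧ (x.1 ≤ 2 * (P.1 - a - e) ∨ (x.2 = 2 * (P.2 + a + 1) ∧ x.1 ≤ xN)) := ⟨_, rfl⟩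
  obtain ⟨HS, hHS⟩ : ∃ HS : ℤ × ℤ → ℤ → ℤ → ℤ → ℤ → ℤ × ℤ → Prop, HS = fun P a b e xS x => x.2 ≤ 2 * P.2 ∧ nr b P (bl x) ∧ G x ∧
      x ≠ (xS, 2 * (P.2 - a) - 1) ∧ (x.1 ≤ 2 * (P.1 - a - e) ∨ (x.2 = 2 * (P.2 - a) - 1 ∧ x.1 ≤ xS)) := ⟨_, rfl⟩
  have mkN : ∀ (P : ℤ × ℤ) (a b e xN : ℤ), 0 ≤ a → 1 ≤ e → a + e + 1 ≤ b → 2 * (P.1 - a - e) < xN ∧ xN ≤ 2 * (P.1 + e) →
      (∀ x : ℤ × ℤ, 2 * (P.1 - b) ≤ x.1 → x.1 ≤ 2 * P.1 + 2 * e → 2 * (P.2 - a) - 1 ≤ x.2 → x.2 ≤ 2 * (P.2 + a + 1) →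
        (x.1 ≤ 2 * (P.1 - a - e) ∨ x.2 = 2 * (P.2 + a + 1) ∨ x.2 = 2 * (P.2 - a) - 1) → nr b P (bl x) ∧ G x) →
      (∀ t, min (xN - 1) (2 * (P.1 - a - e)) ≤ t → t ≤ max (xN - 1) (2 * (P.1 - a - e)) → HN P a b e xN (t, 2 * (P.2 + a + 1))) ∧
      (∀ t, min (2 * (P.2 + a + 1)) (2 * P.2 + 1) ≤ t → t ≤ max (2 * (P.2 + a + 1)) (2 * P.2 + 1) →
        HN P a b e xN (2 * (P.1 - a - e), t)) ∧
      (∀ t, min (2 * (P.1 - a - e)) (2 * (P.1 - b)) ≤ t → t ≤ max (2 * (P.1 - a - e)) (2 * (P.1 - b)) →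
        HN P a b e xN (t, 2 * P.2 + 1)) := by
    intro P a b e xN ha he hb hx g
    rw [hHN]
    refine ⟨?_, ?_, ?_⟩
    · intro t h1 h2
      obtain ⟨k1, k2⟩ := g (t, 2 * (P.2 + a + 1)) (by simp only; omega) (by simp only; omega) (by simp only; omega)
        (by simp only; omega) (Or.inr (Or.inl rfl))
      refine ⟨by simp only; omega, k1, k2, ?_, Or.inr ⟨rfl, by simp only; omega⟩⟩
      rw [ne_eq, Prod.mk.injEq]
      omega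
    · intro t h1 h2
      obtain ⟨k1, k2⟩ := g (2 * (P.1 - a - e), t) (by simp only; omega) (by simp only; omega) (by simp only; omega)
        (by simp only; omega) (Or.inl le_rfl)
      refine ⟨by simp only; omega, k1, k2, ?_, Or.inl le_rfl⟩
      rw [ne_eq, Prod.mk.injEq]
      omega
    · intro t h1 h2
      obtain ⟨k1, k2⟩ := g (t, 2 * P.2 + 1) (by simp only; omega) (by simp only; omega) (by simp only; omega)
        (by simp only; omega) (Or.inl (by simp only; omega))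
      refine ⟨by simp only; omega, k1, k2, ?_, Or.inl (by simp only; omega)⟩
      rw [ne_eq, Prod.mk.injEq]
      omega
  have mkS : ∀ (P : ℤ × ℤ) (a b e xS : ℤ), 0 ≤ a → 1 ≤ e → a + e + 1 ≤ b → 2 * (P.1 - a - e) < xS ∧ xS ≤ 2 * (P.1 + e) →
      (∀ x : ℤ × ℤ, 2 * (P.1 - b) ≤ x.1 → x.1 ≤ 2 * P.1 + 2 * e → 2 * (P.2 - a) - 1 ≤ x.2 → x.2 ≤ 2 * (P.2 + a + 1) →
        (x.1 ≤ 2 * (P.1 - a - e) ∨ x.2 = 2 * (P.2 + a + 1) ∨ x.2 = 2 * (P.2 - a) - 1) → nr b P (bl x) ∧ G x) →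
      (∀ t, min (xS - 1) (2 * (P.1 - a - e)) ≤ t → t ≤ max (xS - 1) (2 * (P.1 - a - e)) → HS P a b e xS (t, 2 * (P.2 - a) - 1)) ∧
      (∀ t, min (2 * (P.2 - a) - 1) (2 * P.2) ≤ t → t ≤ max (2 * (P.2 - a) - 1) (2 * P.2) →
        HS P a b e xS (2 * (P.1 - a - e), t)) ∧
      (∀ t, min (2 * (P.1 - a - e)) (2 * (P.1 - b)) ≤ t → t ≤ max (2 * (P.1 - a - e)) (2 * (P.1 - b)) →
        HS P a b e xS (t, 2 * P.2)) := by
    intro P a b e xS ha he hb hx g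
    rw [hHS]
    refine ⟨?_, ?_, ?_⟩
    · intro t h1 h2
      obtain ⟨k1, k2⟩ := g (t, 2 * (P.2 - a) - 1) (by simp only; omega) (by simp only; omega) (by simp only; omega)
        (by simp only; omega) (Or.inr (Or.inr rfl))
      refine ⟨by simp only; omega, k1, k2, ?_, Or.inr ⟨rfl, by simp only; omega⟩⟩
      rw [ne_eq, Prod.mk.injEq]
      omega
    · intro t h1 h2
      obtain ⟨k1, k2⟩ := g (2 * (P.1 - a - e), t) (by simp only; omega) (by simp only; omega) (by simp only; omega)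
        (by simp only; omega) (Or.inl le_rfl)
      refine ⟨by simp only; omega, k1, k2, ?_, Or.inl le_rfl⟩
      rw [ne_eq, Prod.mk.injEq]
      omega
    · intro t h1 h2
      obtain ⟨k1, k2⟩ := g (t, 2 * P.2) (by simp only; omega) (by simp only; omega) (by simp only; omega)
        (by simp only; omega) (Or.inl (by simp only; omega))
      refine ⟨by simp only; omega, k1, k2, ?_, Or.inl (by simp only; omega)⟩
      rw [ne_eq, Prod.mk.injEq]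
      omega
  obtain ⟨rN, rN1, rN0, rN2, rN3, rN4⟩ := rt (mkN P a b e xN ha he hb hN gP).1
    (mkN P a b e xN ha he hb hN gP).2.1 (mkN P a b e xN ha he hb hN gP).2.2
  obtain ⟨rS, rS1, rS0, rS2, rS3, rS4⟩ := rt' (mkS P a b e xS ha he hb hS gP).1
    (mkS P a b e xS ha he hb hS gP).2.1 (mkS P a b e xS ha he hb hS gP).2.2
  obtain ⟨sN, sN1, sN0, sN2, sN3, sN4⟩ := rt (mkN Q a₁ b₁ e₁ xN' ha₁ he₁ hb₁ hN' gQ).1
    (mkN Q a₁ b₁ e₁ xN' ha₁ he₁ hb₁ hN' gQ).2.1 (mkN Q a₁ b₁ e₁ xN' ha₁ he₁ hb₁ hN' gQ).2.2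
  obtain ⟨sS, sS1, sS0, sS2, sS3, sS4⟩ := rt' (mkS Q a₁ b₁ e₁ xS' ha₁ he₁ hb₁ hS' gQ).1
    (mkS Q a₁ b₁ e₁ xS' ha₁ he₁ hb₁ hS' gQ).2.1 (mkS Q a₁ b₁ e₁ xS' ha₁ he₁ hb₁ hS' gQ).2.2
  -- the four mouths
  have mN := gP (xN, 2 * (P.2 + a + 1)) (by simp only; omega) (by simp only; omega) (by simp only; omega)
    (by simp only; omega) (Or.inr (Or.inl rfl))
  have mS := gP (xS, 2 * (P.2 - a) - 1) (by simp only; omega) (by simp only; omega) (by simp only; omega)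
    (by simp only; omega) (Or.inr (Or.inr rfl))
  have mN' := gQ (xN', 2 * (Q.2 + a₁ + 1)) (by simp only; omega) (by simp only; omega) (by simp only; omega)
    (by simp only; omega) (Or.inr (Or.inl rfl))
  have mS' := gQ (xS', 2 * (Q.2 - a₁) - 1) (by simp only; omega) (by simp only; omega) (by simp only; omega)
    (by simp only; omega) (Or.inr (Or.inr rfl))
  have adj1 : ∀ b x y : ℤ, adj (2 * (x - b), y) (2 * x - 2 * b - 1, y) := fun b x y => by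
    rw [adj_sub, mem_D4]
    right; left
    ext <;> simp only [Prod.mk_sub_mk] <;> ring
  have adj2 : ∀ b x y : ℤ, adj (2 * x - 2 * b - 1, y) (2 * (x - b), y) := fun b x y => by
    rw [adj_sub, mem_D4]
    left
    ext <;> simp only [Prod.mk_sub_mk] <;> ring
  have adj3 : ∀ x y : ℤ, adj (x, y) (x - 1, y) := fun x y => by
    rw [adj_sub, mem_D4]
    right; left
    ext <;> simp
  have adj4 : ∀ x y : ℤ, adj (x - 1, y) (x, y) := fun x y => adj_comm (adj3 x y)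
  have hPQf : ∀ x : ℤ × ℤ, nr b P (bl x) → nr b₁ Q (bl x) → False := by
    intro x h1 h2
    exact hPQ (nr_mono (by omega) (nr_trans h1 (nr_symm h2)))
  rw [hHN] at rN4 sN4
  rw [hHS] at rS4 sS4
  obtain ⟨p1, p2, p3, p4⟩ := list5 rN1 c1 sS1 rN0 c3 sS0 rN2 rN3 c7 c8 sS2 sS3 (adj1 _ _ _) (adj2 _ _ _) (adj3 xN _) (adj4 xS' _)
    (fun z h1 h2 => (c6 z (Or.inl h2)).2.1 (rN4 z h1).2.1) (fun z h1 h2 => hPQf z (rN4 z h1).2.1 (sS4 z h2).2.1)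
    (fun z h1 h2 => (c6 z (Or.inl h1)).2.2.1 (sS4 z h2).2.1)
    (fun h1 => (rN4 _ h1).2.2.2.1 rfl) (fun h1 => (c6 _ (Or.inl h1)).2.1 mN.1) (fun h1 => hPQf _ mN.1 (sS4 _ h1).2.1)
    (fun h1 => hPQf _ (rN4 _ h1).2.1 mS'.1) (fun h1 => (c6 _ (Or.inl h1)).2.2.1 mS'.1) (fun h1 => (sS4 _ h1).2.2.2.1 rfl)
    (fun h1 => hPQf _ mN.1 (by rw [h1]; exact mS'.1))
  obtain ⟨q1, q2, q3, q4⟩ := list5 sN1 c2 rS1 sN0 c4 rS0 sN2 sN3 c9 c10 rS2 rS3 (adj1 _ _ _) (adj2 _ _ _) (adj3 xN' _) (adj4 xS _)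
    (fun z h1 h2 => (c6 z (Or.inr h2)).2.2.1 (sN4 z h1).2.1) (fun z h1 h2 => hPQf z (rS4 z h2).2.1 (sN4 z h1).2.1)
    (fun z h1 h2 => (c6 z (Or.inr h1)).2.1 (rS4 z h2).2.1)
    (fun h1 => (sN4 _ h1).2.2.2.1 rfl) (fun h1 => (c6 _ (Or.inr h1)).2.2.1 mN'.1) (fun h1 => hPQf _ (rS4 _ h1).2.1 mN'.1)
    (fun h1 => hPQf _ mS.1 (sN4 _ h1).2.1) (fun h1 => (c6 _ (Or.inr h1)).2.1 mS.1) (fun h1 => (rS4 _ h1).2.2.2.1 rfl)
    (fun h1 => hPQf _ mS.1 (by rw [← h1]; exact mN'.1))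
  -- the cells of the two lists
  have cL : ∀ x ∈ (xN, 2 * (P.2 + a + 1)) :: (rN ++ (L0 ++ (sS ++ [(xS', 2 * (Q.2 - a₁) - 1)]))),
      (2 * P.2 < x.2 ∧ nr b P (bl x) ∧ G x ∧ (x.1 ≤ 2 * (P.1 - a - e) ∨ (x.2 = 2 * (P.2 + a + 1) ∧ x.1 ≤ xN))) ∨ x ∈ L0 ∨
      (x.2 ≤ 2 * Q.2 ∧ nr b₁ Q (bl x) ∧ G x ∧ (x.1 ≤ 2 * (Q.1 - a₁ - e₁) ∨ (x.2 = 2 * (Q.2 - a₁) - 1 ∧ x.1 ≤ xS'))) := by
    intro x hx
    simp only [List.mem_cons, List.mem_append, List.not_mem_nil, or_false] at hx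
    rcases hx with rfl | hx | hx | hx | rfl
    · exact Or.inl ⟨by simp only; omega, mN.1, mN.2, Or.inr ⟨rfl, le_rfl⟩⟩
    · obtain ⟨k1, k2, k3, -, k4⟩ := rN4 x hx
      exact Or.inl ⟨k1, k2, k3, k4⟩
    · exact Or.inr (Or.inl hx)
    · obtain ⟨k1, k2, k3, -, k4⟩ := sS4 x hx
      exact Or.inr (Or.inr ⟨k1, k2, k3, k4⟩)
    · exact Or.inr (Or.inr ⟨by simp only; omega, mS'.1, mS'.2, Or.inr ⟨rfl, le_rfl⟩⟩)
  have cM : ∀ x ∈ (xN', 2 * (Q.2 + a₁ + 1)) :: (sN ++ (M0 ++ (rS ++ [(xS, 2 * (P.2 - a) - 1)]))),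
      (2 * Q.2 < x.2 ∧ nr b₁ Q (bl x) ∧ G x ∧ (x.1 ≤ 2 * (Q.1 - a₁ - e₁) ∨ (x.2 = 2 * (Q.2 + a₁ + 1) ∧ x.1 ≤ xN'))) ∨ x ∈ M0 ∨
      (x.2 ≤ 2 * P.2 ∧ nr b P (bl x) ∧ G x ∧ (x.1 ≤ 2 * (P.1 - a - e) ∨ (x.2 = 2 * (P.2 - a) - 1 ∧ x.1 ≤ xS))) := by
    intro x hx
    simp only [List.mem_cons, List.mem_append, List.not_mem_nil, or_false] at hx
    rcases hx with rfl | hx | hx | hx | rfl
    · exact Or.inl ⟨by simp only; omega, mN'.1, mN'.2, Or.inr ⟨rfl, le_rfl⟩⟩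
    · obtain ⟨k1, k2, k3, -, k4⟩ := sN4 x hx
      exact Or.inl ⟨k1, k2, k3, k4⟩
    · exact Or.inr (Or.inl hx)
    · obtain ⟨k1, k2, k3, -, k4⟩ := rS4 x hx
      exact Or.inr (Or.inr ⟨k1, k2, k3, k4⟩)
    · exact Or.inr (Or.inr ⟨by simp only; omega, mS.1, mS.2, Or.inr ⟨rfl, le_rfl⟩⟩)
  have mid : ∀ x, x ∈ L0 ∨ x ∈ M0 → G x := by
    intro x hx
    obtain ⟨h0, h1, h2, h3⟩ := c6 x hx
    rw [hG]
    exact ⟨h0, fun hc => h1 (nr_mono (by omega) hc), fun hc => h2 (nr_mono (by omega) hc), h3⟩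
  refine ⟨_, _, ⟨p1, q1, p2, q2, ?_, ?_, ?_, ?_, ?_, ?_, p3, p4, q3, q4⟩⟩
  · intro x hx hy
    rcases cL x hx with ⟨k1, k2, -, -⟩ | h | ⟨k1, k2, -, -⟩ <;> rcases cM x hy with ⟨j1, j2, -, -⟩ | h' | ⟨j1, j2, -, -⟩
    · exact hPQf x k2 j2
    · exact (c6 x (Or.inr h')).2.1 k2
    · omega
    · exact (c6 x (Or.inl h)).2.2.1 j2
    · exact c5 x h h'
    · exact (c6 x (Or.inl h)).2.1 j2
    · omega
    · exact (c6 x (Or.inr h')).2.2.1 k2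
    · exact hPQf x j2 k2
  · intro x hx
    have : G x := by
      rcases hx with hx | hx
      · rcases cL x hx with ⟨-, -, k, -⟩ | h | ⟨-, -, k, -⟩
        · exact k
        · exact mid x (Or.inl h)
        · exact k
      · rcases cM x hx with ⟨-, -, k, -⟩ | h | ⟨-, -, k, -⟩
        · exact k
        · exact mid x (Or.inr h)
        · exact k
    rw [hG] at this
    exact this
  · intro x hx hb
    rcases cL x hx with ⟨-, -, -, k⟩ | h | ⟨-, k, -, -⟩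
    · exact k
    · exact absurd hb (c6 x (Or.inl h)).2.1
    · exact absurd k (fun k => hPQf x hb k)
  · intro x hx hb
    rcases cM x hx with ⟨-, k, -, -⟩ | h | ⟨-, -, -, k⟩
    · exact absurd k (fun k => hPQf x hb k)
    · exact absurd hb (c6 x (Or.inr h)).2.1
    · exact k
  · intro x hx hb
    rcases cL x hx with ⟨-, k, -, -⟩ | h | ⟨-, -, -, k⟩
    · exact absurd k (fun k => hPQf x k hb)
    · exact absurd hb (c6 x (Or.inl h)).2.2.1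
    · exact k
  · intro x hx hb
    rcases cM x hx with ⟨-, -, -, k⟩ | h | ⟨-, k, -, -⟩
    · exact k
    · exact absurd hb (c6 x (Or.inr h)).2.2.1
    · exact absurd k (fun k => hPQf x k hb)

end F3L

end ROT

end HexObs
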