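import Pool.Agent.ROT.F3MidJ
import Pool.Agent.ROT.F3C4f

/-!
# ROT, F3, row Core (helper17): the product form of the law of (pieces, arc) from the limits on the two lattices

* `Cls` : a class of rests of the first lattice: decomposition `τ` at the gates of the second lattice, displacements;
* `PairIn` : everything about one pair of classes: the law `P` of the closed curves with two roots, the native marks of the two
  lattices (`m0`, `mR`), the densities on the two lattices, the joint marks;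
* **`core_abs`** : three classes, three pairs, channels, positivity ==> the law of (pieces, arc) is a product `ν × b1`.
-/

set_option autoImplicit false
set_option linter.unusedSectionVars false

namespace Pool.Agent.ROT.F3

open MeasureTheory Set
open scoped ENNReal

/-- a class of rests: `τ r` = (the pieces next to the two ends, the arc behind the foreign gates), `s`, `e` = minus the displacements of the
two pieces, `C` = the rests which have the foreign gates, `Y`, `y` = minus the displacements of rest and arc, `g` = the curve of the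
arc, from its start -/
structure Cls (R K A : Type*) where
  τ : R → K × A
  s : K → ℂ
  e : K → ℂ
  C : Set R
  Y : R → ℂ
  y : A → ℂ
  g : A → C(unitInterval, ℂ)

/-- measurability and the additivity of the displacements -/
structure Cls.Ok {R K A : Type*} [MeasurableSpace R] [MeasurableSpace K] [MeasurableSpace A] (c : Cls R K A) : Prop where
  mτ : Measurable c.τ
  ms : Measurable c.s
  me : Measurable c.e
  mC : MeasurableSet c.C
  my : Measurable c.y
  mg : Measurable c.g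
  k : ∀ r ∈ c.C, c.Y r = c.s (c.τ r).1 + c.y (c.τ r).2 + c.e (c.τ r).1

/-- the law of (pieces, arc) -/
noncomputable def Cls.law {R K A : Type*} [MeasurableSpace R] [MeasurableSpace K] [MeasurableSpace A] (c : Cls R K A)
    (β : Measure R) : Measure (K × A) := (β.restrict c.C).map c.τ

instance {R K A : Type*} [MeasurableSpace R] [MeasurableSpace K] [MeasurableSpace A] (c : Cls R K A) (β : Measure R)
    [IsFiniteMeasure β] : IsFiniteMeasure (c.law β) := by
  unfold Cls.law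
  infer_instance

/-- **one pair of classes.** `Γ` = the closed curves with two roots (and whatever is needed), `P` = their law, `w0`, `wR` = the weights of
the native classes of the two lattices, `m0 g` = (other data, rest of class 1, rest of class 2, relative position `z0` at the native
gates of the first lattice), `mR g` = (connections at the two roots, arc 1, arc 2, relative position at the native gates of the second
lattice), `Cp`, `Cq` = the connections which have the gates of the first lattice, `f` = the pieces between the gates of the two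
lattices, read off from the connections, `Z`, `W` = the cells of the relative positions at the two ends -/
structure PairIn {R1 R2 K1 K2 A B : Type*} [MeasurableSpace R1] [MeasurableSpace R2] [MeasurableSpace K1]
    [MeasurableSpace K2] [MeasurableSpace A] [MeasurableSpace B] (c1 : Cls R1 K1 A) (c2 : Cls R2 K2 B) (β1 : Measure R1)
    (β2 : Measure R2) (b1 : Measure A) (b2 : Measure B) (v : Measure ℂ) (Z W : Set ℂ) (Γ K0 Kp Kq : Type*)
    [MeasurableSpace Γ] [MeasurableSpace K0] [MeasurableSpace Kp] [MeasurableSpace Kq] where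
  P : Measure Γ
  w0 : Γ → ℝ≥0∞
  wR : Γ → ℝ≥0∞
  m0 : Γ → K0 × (R1 × (R2 × ℂ))
  mR : Γ → (Kp × Kq) × (A × (B × ℂ))
  D0 : Set (R1 × (R2 × ℂ))
  Cp : Set Kp
  Cq : Set Kq
  f : Kp × Kq → K1 × K2
  k0 : Measurable m0
  kR : Measurable mR
  mCp : MeasurableSet Cp
  mCq : MeasurableSet Cq
  mf : Measurable f
  fin : IsFiniteMeasure ((P.withDensity w0).map m0)
  /-- two rests with the foreign gates whose arcs are disjoint and in the cells are disjoint and in the cells of the native gates -/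
  hsub : ∀ p : R1 × (R2 × ℂ), p.1 ∈ c1.C → p.2.1 ∈ c2.C → pi3 (tht c1.τ c2.τ c1.s c2.s p) ∈ DD c1.g c2.g c1.y c2.y Z W →
    p ∈ D0
  /-- the density on the first lattice -/
  d0 : Den ((P.withDensity w0).map m0) (β1.prod (β2.prod v)) D0 (zw c1.Y c2.Y) fun _ => 1
  /-- and it does not vanish -/
  hp : (β1.prod (β2.prod v)).restrict D0 ≪ ((P.withDensity w0).map m0).map Prod.snd
  /-- the density on the second lattice, with any function of the connections -/
  dR : ∀ Φ : Kp × Kq → ℝ≥0∞, Measurable Φ →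
    Den ((P.withDensity wR).map mR) (b1.prod (b2.prod v)) (DD c1.g c2.g c1.y c2.y Z W) (zw c1.y c2.y) Φ
  /-- product form -/
  dP : DenP ((P.withDensity wR).map mR) (b1.prod (b2.prod v)) (DD c1.g c2.g c1.y c2.y Z W) (zw c1.y c2.y)
    (Cp.indicator fun _ => 1) (Cq.indicator fun _ => 1)
  /-- the joint marks -/
  hj : ∀ᵐ g ∂P,
    {g | (m0 g).2 ∈ c1.C ×ˢ (c2.C ×ˢ univ) ∧ pi3 (tht c1.τ c2.τ c1.s c2.s (m0 g).2) ∈ DD c1.g c2.g c1.y c2.y Z W}.indicator
        w0 g = {g | mR g ∈ (Cp ×ˢ Cq) ×ˢ DD c1.g c2.g c1.y c2.y Z W}.indicator wR g ∧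
    ({g | (m0 g).2 ∈ c1.C ×ˢ (c2.C ×ˢ univ) ∧
        pi3 (tht c1.τ c2.τ c1.s c2.s (m0 g).2) ∈ DD c1.g c2.g c1.y c2.y Z W}.indicator w0 g ≠ 0 →
      sh (tht c1.τ c2.τ c1.s c2.s (m0 g).2) = (f (mR g).1, (mR g).2))

section

variable {R1 R2 K1 K2 A B Γ K0 Kp Kq : Type*} [MeasurableSpace R1] [MeasurableSpace R2] [MeasurableSpace K1]
  [MeasurableSpace K2] [MeasurableSpace A] [MeasurableSpace B] [MeasurableSpace Γ] [MeasurableSpace K0]
  [MeasurableSpace Kp] [MeasurableSpace Kq] {c1 : Cls R1 K1 A} {c2 : Cls R2 K2 B} {β1 : Measure R1} {β2 : Measure R2}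
  {b1 : Measure A} {b2 : Measure B} {v : Measure ℂ} {Z W : Set ℂ}

/-- the law of the pairs of arcs -/
noncomputable def PairIn.Q (p : PairIn c1 c2 β1 β2 b1 b2 v Z W Γ K0 Kp Kq) : Measure ((K1 × A) × ((K2 × B) × ℂ)) :=
  (((((p.P.withDensity p.w0).map p.m0).restrict (Prod.snd ⁻¹' (c1.C ×ˢ (c2.C ×ˢ univ)))).map
    (Prod.map id (tht c1.τ c2.τ c1.s c2.s))).map Prod.snd).restrict (pi3 ⁻¹' (DD c1.g c2.g c1.y c2.y Z W))

lemma PairIn.finQ (p : PairIn c1 c2 β1 β2 b1 b2 v Z W Γ K0 Kp Kq) : IsFiniteMeasure p.Q := by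
  have := p.fin
  unfold PairIn.Q
  infer_instance

theorem PairIn.twoP [IsFiniteMeasure β1] [IsFiniteMeasure β2] [SigmaFinite v] [v.IsAddLeftInvariant]
    (p : PairIn c1 c2 β1 β2 b1 b2 v Z W Γ K0 Kp Kq) (o1 : c1.Ok) (o2 : c2.Ok) (hZ : MeasurableSet Z)
    (hW : MeasurableSet W) :
    ∃ G g h, TwoP (c1.law β1) (c2.law β2) b1 b2 v (DD c1.g c2.g c1.y c2.y Z W) c1.y c2.y p.Q G g h :=
  twoP_joint p.k0 p.kR o1.mτ o2.mτ o1.ms o2.ms o1.me o2.me o1.mC o2.mC (dd_meas o1.mg o2.mg o1.my o2.my hZ hW) o1.my o2.my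
    o1.k o2.k p.hsub p.mCp p.mCq p.mf p.d0 p.hp p.dR p.dP p.hj

end

section

variable {R1 R2 R3 K1 K2 K3 A B C Γ K0 Kp Kq : Type*} [MeasurableSpace R1] [MeasurableSpace R2] [MeasurableSpace R3]
  [MeasurableSpace K1] [MeasurableSpace K2] [MeasurableSpace K3] [MeasurableSpace A] [MeasurableSpace B]
  [MeasurableSpace C] [MeasurableSpace Γ] [MeasurableSpace K0] [MeasurableSpace Kp] [MeasurableSpace Kq]
  {c1 : Cls R1 K1 A} {c2 : Cls R2 K2 B} {c3 : Cls R3 K3 C} {β1 : Measure R1} {β2 : Measure R2} {β3 : Measure R3}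
  {b1 : Measure A} {b2 : Measure B} {b3 : Measure C} {v : Measure ℂ}

/-- **Core** -/
theorem core_abs [IsFiniteMeasure β1] [IsFiniteMeasure β2] [IsFiniteMeasure β3] [SigmaFinite b1] [SigmaFinite b2]
    [SigmaFinite b3] [SigmaFinite v] [v.IsAddLeftInvariant] [v.IsOpenPosMeasure] (o1 : c1.Ok) (o2 : c2.Ok) (o3 : c3.Ok)
    {Z Z' W W' Z12 Z13 Z23 W12 W13 W23 : Set ℂ} {m0 : ℝ} (hm : 0 < m0) (kZ12 : MeasurableSet Z12)
    (kZ13 : MeasurableSet Z13) (kZ23 : MeasurableSet Z23) (kW12 : MeasurableSet W12) (kW13 : MeasurableSet W13)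
    (kW23 : MeasurableSet W23)
    (hZ12 : ∀ z ∈ Z, Metric.closedBall z m0 ⊆ Z12) (hZ13 : ∀ z ∈ Z', Metric.closedBall z m0 ⊆ Z13)
    (hZ23 : ∀ z ∈ Z, ∀ z' ∈ Z', Metric.closedBall (z' - z) m0 ⊆ Z23) (hW12 : ∀ w ∈ W, Metric.closedBall w m0 ⊆ W12)
    (hW13 : ∀ w ∈ W', Metric.closedBall w m0 ⊆ W13) (hW23 : ∀ w ∈ W, ∀ w' ∈ W', Metric.closedBall (w' - w) m0 ⊆ W23)
    (p12 : PairIn c1 c2 β1 β2 b1 b2 v Z12 W12 Γ K0 Kp Kq) (p13 : PairIn c1 c3 β1 β3 b1 b3 v Z13 W13 Γ K0 Kp Kq)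
    (p23 : PairIn c2 c3 β2 β3 b2 b3 v Z23 W23 Γ K0 Kp Kq)
    (chan : ∀ᵐ a ∂((c1.law β1).snd + b1), ∀ z ∈ Z, ∀ z' ∈ Z', ∀ w ∈ W, ∀ w' ∈ W',
      ChanAt c1.g c2.g c3.g c1.y c2.y c3.y b2 b3 v a z z' w w')
    {Zs Ws Zt Wt : Set ℂ} (mZ : MeasurableSet Zs) (mW : MeasurableSet Ws) (mZt : MeasurableSet Zt)
    (mWt : MeasurableSet Wt) (sZ : Zs ⊆ Z) (sW : Ws ⊆ W) (sZ' : ∀ z ∈ Zs, ∀ d ∈ Zt, z + d ∈ Z')
    (sW' : ∀ w ∈ Ws, ∀ d ∈ Wt, w + d ∈ W')
    (q12 : ((c1.law β1).snd.prod ((c2.law β2).snd.prod v))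
      (DD c1.g c2.g c1.y c2.y Z12 W12 ∩ {p | zw c1.y c2.y p ∈ Zs ×ˢ Ws}) ≠ 0)
    (q23 : ((c2.law β2).snd.prod ((c3.law β3).snd.prod v))
      (DD c2.g c3.g c2.y c3.y Z23 W23 ∩ {p | zw c2.y c3.y p ∈ Zt ×ˢ Wt}) ≠ 0) :
    ∃ ν : Measure K1, IsFiniteMeasure ν ∧ c1.law β1 = ν.prod b1 := by
  obtain ⟨G12, g12, h12, t12⟩ := p12.twoP o1 o2 kZ12 kW12
  obtain ⟨G13, g13, h13, t13⟩ := p13.twoP o1 o3 kZ13 kW13
  obtain ⟨G23, g23, h23, t23⟩ := p23.twoP o2 o3 kZ23 kW23
  have := p12.finQ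
  have := p13.finQ
  have := p23.finQ
  exact mid_fin o1.mg o2.mg o3.mg o1.my o2.my o3.my hm kZ12 kZ13 kZ23 kW12 kW13 kW23 hZ12 hZ13 hZ23 hW12 hW13 hW23 t12
    t13.1 t23 chan mZ mW mZt mWt sZ sW sZ' sW' q12 q23

end

end Pool.Agent.ROT.F3
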