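import Pool.Agent.ROT.F3C4o

/-!
# ROT, F3, the middle of route NL (helper17): the product form

* `DenP` : for functions `Φp`, `Φq` of the connection pieces at the two ends the density is `g (z) h (w)`;
* `TwoP` : `TwoL` and the product form for `P` itself;
* **`twoP_of`** : `TwoP` from the limits (as `twoL_of`);
* `TwoP.gh` : positivity of the two factors from the positivity of the product of the first lattice.
-/

set_option autoImplicit false
set_option linter.unusedSectionVars false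

namespace Pool.Agent.ROT.F3

open MeasureTheory Set
open scoped ENNReal

variable {A B E K1 K2 : Type*} [MeasurableSpace A] [MeasurableSpace B] [MeasurableSpace E] [MeasurableSpace K1]
  [MeasurableSpace K2] [AddCommGroup E] [MeasurableAdd₂ E] [MeasurableNeg E]

/-- the product form for two functions of the connection pieces at the two ends -/
def DenP {Kp Kq X : Type*} [MeasurableSpace Kp] [MeasurableSpace Kq] [MeasurableSpace X] (P : Measure ((Kp × Kq) × X))
    (μ : Measure X) (D : Set X) (loc : X → E × E) (Φp : Kp → ℝ≥0∞) (Φq : Kq → ℝ≥0∞) : Prop :=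
  ∃ g h : E → ℝ≥0∞, Measurable g ∧ Measurable h ∧ ∀ S : Set X, MeasurableSet S → S ⊆ D →
    ∫⁻ x in Prod.snd ⁻¹' S, Φp x.1.1 * Φq x.1.2 ∂P = ∫⁻ x in S, ghd g h (loc x) ∂μ

/-- both lattices describe `P`, and the density for the second lattice is `g (z) h (w)` -/
def TwoP (β1 : Measure (K1 × A)) (β2 : Measure (K2 × B)) (b1 : Measure A) (b2 : Measure B) (v : Measure E)
    (D : Set (A × (B × E))) (y1 : A → E) (y2 : B → E) (P : Measure ((K1 × A) × ((K2 × B) × E)))
    (G : K1 × K2 × (E × E) → ℝ≥0∞) (g h : E → ℝ≥0∞) : Prop :=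
  TwoL β1 β2 b1 b2 v D y1 y2 P G ∧ Measurable g ∧ Measurable h ∧
    P.map pi3 = ((b1.prod (b2.prod v)).restrict D).withDensity (ghd g h ∘ zw y1 y2)

variable {β1 : Measure (K1 × A)} {β2 : Measure (K2 × B)} {b1 : Measure A} {b2 : Measure B} {v : Measure E}
  [SFinite β1] [SFinite β2] [SigmaFinite v] {D : Set (A × (B × E))} {y1 : A → E} {y2 : B → E}

/-- **`TwoP` from the limits**: `P0` = the law in the first lattice (with other data `K0`), `PR` = the law in the second lattice (with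
the connection pieces `Kp`, `Kq` at the two ends; `Cp`, `Cq` = the cuts of the first lattice exist, `f` = the pieces between the cuts
of the two lattices) -/
theorem twoP_of {K0 Kp Kq : Type*} [MeasurableSpace K0] [MeasurableSpace Kp] [MeasurableSpace Kq]
    {P0 : Measure (K0 × ((K1 × A) × ((K2 × B) × E)))} {PR : Measure ((Kp × Kq) × (A × (B × E)))} (hD : MeasurableSet D)
    (h1 : Measurable y1) (h2 : Measurable y2)
    (d0 : Den P0 (β1.prod (β2.prod v)) (pi3 ⁻¹' D) (cc y1 y2) fun _ => 1)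
    (dR : ∀ Φ : Kp × Kq → ℝ≥0∞, Measurable Φ → Den PR (b1.prod (b2.prod v)) D (zw y1 y2) Φ)
    {Cp : Set Kp} {Cq : Set Kq} (hCp : MeasurableSet Cp) (hCq : MeasurableSet Cq)
    (dP : DenP PR (b1.prod (b2.prod v)) D (zw y1 y2) (Cp.indicator fun _ => 1) (Cq.indicator fun _ => 1))
    {f : Kp × Kq → K1 × K2} (hf : Measurable f)
    (he : ((P0.map Prod.snd).restrict (pi3 ⁻¹' D)).map sh = (PR.restrict ((Cp ×ˢ Cq) ×ˢ D)).map (Prod.map f id))
    (hp : (β1.prod (β2.prod v)).restrict (pi3 ⁻¹' D) ≪ P0.map Prod.snd) :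
    ∃ G g h, TwoP β1 β2 b1 b2 v D y1 y2 ((P0.map Prod.snd).restrict (pi3 ⁻¹' D)) G g h := by
  obtain ⟨G, hG⟩ := twoL_of hD h1 h2 d0 dR hf (hCp.prod hCq) he hp
  obtain ⟨g, h, mg, mh, hgh⟩ := dP
  refine ⟨G, g, h, hG, mg, mh, ?_⟩
  have hπ := pi3_meas (A := A) (B := B) (E := E) (K1 := K1) (K2 := K2)
  have hs := sh_meas (A := A) (B := B) (E := E) (K1 := K1) (K2 := K2)
  have mf : Measurable (Prod.map f id : (Kp × Kq) × (A × (B × E)) → (K1 × K2) × (A × (B × E))) := hf.prodMap measurable_id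
  have e1 : (((P0.map Prod.snd).restrict (pi3 ⁻¹' D)).map pi3) = (PR.restrict ((Cp ×ˢ Cq) ×ˢ D)).map Prod.snd := by
    have a1 := congrArg (fun m : Measure ((K1 × K2) × (A × (B × E))) => m.map Prod.snd) he
    rw [Measure.map_map measurable_snd hs, Measure.map_map measurable_snd mf] at a1
    exact a1
  rw [e1]
  ext s hs'
  rw [Measure.map_apply measurable_snd hs', Measure.restrict_apply (measurable_snd hs'), withDensity_apply _ hs',
    Measure.restrict_restrict hs']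
  have e2 := hgh (s ∩ D) (hs'.inter hD) inter_subset_right
  have e3 : ∫⁻ x in Prod.snd ⁻¹' (s ∩ D), (Cp.indicator (fun _ => (1 : ℝ≥0∞)) x.1.1) * (Cq.indicator (fun _ => 1) x.1.2) ∂PR =
      PR (Prod.snd ⁻¹' s ∩ (Cp ×ˢ Cq) ×ˢ D) := by
    have m1 : MeasurableSet (Prod.snd ⁻¹' s ∩ (Cp ×ˢ Cq) ×ˢ D : Set ((Kp × Kq) × (A × (B × E)))) :=
      (measurable_snd hs').inter ((hCp.prod hCq).prod hD)
    rw [← lintegral_indicator (measurable_snd (hs'.inter hD)), ← lintegral_indicator_one m1]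
    refine lintegral_congr fun x => ?_
    by_cases c1 : x.2 ∈ s ∩ D
    · rw [indicator_of_mem (show x ∈ (Prod.snd ⁻¹' (s ∩ D) : Set ((Kp × Kq) × (A × (B × E)))) from c1)]
      by_cases c2 : x.1.1 ∈ Cp
      · by_cases c3 : x.1.2 ∈ Cq
        · rw [indicator_of_mem c2, indicator_of_mem c3, one_mul,
            indicator_of_mem (show x ∈ Prod.snd ⁻¹' s ∩ (Cp ×ˢ Cq) ×ˢ D from ⟨c1.1, ⟨c2, c3⟩, c1.2⟩)]
          rfl
        · rw [indicator_of_notMem c3, mul_zero,
            indicator_of_notMem (show x ∉ Prod.snd ⁻¹' s ∩ (Cp ×ˢ Cq) ×ˢ D from fun h => c3 h.2.1.2)]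
      · rw [indicator_of_notMem c2, zero_mul,
          indicator_of_notMem (show x ∉ Prod.snd ⁻¹' s ∩ (Cp ×ˢ Cq) ×ˢ D from fun h => c2 h.2.1.1)]
    · rw [indicator_of_notMem (show x ∉ (Prod.snd ⁻¹' (s ∩ D) : Set ((Kp × Kq) × (A × (B × E)))) from c1),
        indicator_of_notMem (show x ∉ Prod.snd ⁻¹' s ∩ (Cp ×ˢ Cq) ×ˢ D from fun h => c1 ⟨h.1, h.2.2⟩)]
  rw [← e3, e2]
  rfl

/-- **positivity of the two factors** from the product of the first lattice -/
theorem TwoP.gh {P : Measure ((K1 × A) × ((K2 × B) × E))} {G : K1 × K2 × (E × E) → ℝ≥0∞} {g h : E → ℝ≥0∞}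
    [SFinite b1] [SFinite b2] [v.IsAddLeftInvariant] (p : TwoP β1 β2 b1 b2 v D y1 y2 P G g h) (hD : MeasurableSet D)
    (h1 : Measurable y1) (h2 : Measurable y2) {Zs Ws : Set E} (mZ : MeasurableSet Zs) (mW : MeasurableSet Ws)
    (hp : (β1.snd.prod (β2.snd.prod v)) (D ∩ {q | zw y1 y2 q ∈ Zs ×ˢ Ws}) ≠ 0) :
    v (Zs ∩ {z | g z ≠ 0}) ≠ 0 ∧ v (Ws ∩ {w | h w ≠ 0}) ≠ 0 := by
  obtain ⟨⟨mG, e0, hG, -⟩, mg, mh, e1⟩ := p
  have hq := zw_meas (A := A) (B := B) h1 h2
  have hc := cc_meas (A := A) (B := B) (K1 := K1) (K2 := K2) h1 h2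
  have hπ := pi3_meas (A := A) (B := B) (E := E) (K1 := K1) (K2 := K2)
  refine gh_pos (b1 := b1) (b2 := b2) (D := D) h1 h2 mg mh mW ?_
  rw [← e1]
  intro h0
  apply hp
  have mS : MeasurableSet {q : A × (B × E) | zw y1 y2 q ∈ Zs ×ˢ Ws} := hq (mZ.prod mW)
  rw [Measure.map_apply hπ mS, e0] at h0
  have h3 := (withDensity_apply_eq_zero (mG.comp hc)).1 h0
  have h4 : ((β1.prod (β2.prod v)).restrict (pi3 ⁻¹' D)) (pi3 ⁻¹' {q : A × (B × E) | zw y1 y2 q ∈ Zs ×ˢ Ws}) = 0 := by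
    refine measure_mono_null ?_ (measure_union_null h3 (ae_iff.1 hG))
    intro q hq'
    by_cases c : G (cc y1 y2 q) ≠ 0
    · exact Or.inl ⟨c, hq'⟩
    · exact Or.inr c
  have f1 : (((β1.prod (β2.prod v)).restrict (pi3 ⁻¹' D)).map pi3) = ((β1.snd).prod (β2.snd.prod v)).restrict D := by
    rw [← Measure.restrict_map hπ hD]
    congr 1
    have f3 : (pi3 : (K1 × A) × ((K2 × B) × E) → A × B × E) = Prod.map Prod.snd (Prod.map Prod.snd id) := rfl
    rw [f3, ← Measure.map_prod_map _ _ measurable_snd (by fun_prop), ← Measure.map_prod_map _ _ measurable_snd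
      measurable_id, Measure.map_id]
    rfl
  rw [← Measure.map_apply hπ mS, f1, Measure.restrict_apply mS, inter_comm] at h4
  exact h4

end Pool.Agent.ROT.F3
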