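import Pool.Agent.ROT.F3LimP
import Pool.Agent.ROT.F3MidP

/-!
# ROT, F3, row Core (helper17): countably many levels at once

The native marks of the rotated lattice with a threshold which depends on the mark of the first lattice are an exact countable sum of
native marks with fixed thresholds (levels `i` at the first root, `j` at the second root).

* **`lev_ker`** : measures `ρ i j` with the densities `g i e (z) h j e' (w)` for test functions: kernels for all levels at once;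
* `lev_den`, `lev_prod` : densities of sums over the levels;
* **`mark_den`**, **`mark_denP`** : `Den` and `DenP` for the marks with variable threshold.
-/

set_option autoImplicit false
set_option linter.unusedSectionVars false

open MeasureTheory Set Filter Topology TopologicalSpace ProbabilityTheory

open scoped ENNReal NNReal

namespace Pool.Agent.ROT.F3

/-- weights of the levels -/
lemma lev_wt (m : ℕ → ℕ → ℝ≥0∞) (hm : ∀ i j, m i j ≠ ∞) : ∃ a : ℕ → ℝ≥0∞, (∀ i, a i ≠ 0) ∧ (∀ i, a i ≠ ∞) ∧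
    ∑' i, ∑' j, a i * a j * m i j ≤ 4 := by
  obtain ⟨c, hc⟩ : ∃ c : ℕ → ℝ≥0∞, c = fun n => 1 + ∑ i ∈ Finset.range (n + 1), ∑ j ∈ Finset.range (n + 1), m i j := ⟨_, rfl⟩
  have c1 : ∀ n, 1 ≤ c n := fun n => by rw [hc]; exact le_self_add
  have c0 : ∀ n, c n ≠ 0 := fun n => (lt_of_lt_of_le one_pos (c1 n)).ne'
  have ct : ∀ n, c n ≠ ∞ := fun n => by
    rw [hc]
    exact ENNReal.add_ne_top.2 ⟨ENNReal.one_ne_top, ENNReal.sum_ne_top.2 fun i _ => ENNReal.sum_ne_top.2 fun j _ => hm i j⟩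
  have cle : ∀ n i j, i ≤ n → j ≤ n → m i j ≤ c n := fun n i j hi hj => by
    rw [hc]
    calc m i j ≤ ∑ j ∈ Finset.range (n + 1), m i j :=
          Finset.single_le_sum (f := fun j => m i j) (fun _ _ => zero_le) (Finset.mem_range.2 (Nat.lt_succ_of_le hj))
      _ ≤ ∑ i ∈ Finset.range (n + 1), ∑ j ∈ Finset.range (n + 1), m i j :=
          Finset.single_le_sum (f := fun i => ∑ j ∈ Finset.range (n + 1), m i j) (fun _ _ => zero_le)
            (Finset.mem_range.2 (Nat.lt_succ_of_le hi))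
      _ ≤ _ := le_add_self
  have i1 : ∀ n, (c n)⁻¹ ≤ 1 := fun n => ENNReal.inv_le_one.2 (c1 n)
  refine ⟨fun i => 2⁻¹ ^ i * (c i)⁻¹, fun i => ?_, fun i => ?_, ?_⟩
  · refine mul_ne_zero (pow_ne_zero _ (by simp)) (ENNReal.inv_ne_zero.2 (ct i))
  · refine ENNReal.mul_ne_top (ENNReal.pow_ne_top (by simp)) (ENNReal.inv_ne_top.2 (c0 i))
  · have key : ∀ i j, 2⁻¹ ^ i * (c i)⁻¹ * (2⁻¹ ^ j * (c j)⁻¹) * m i j ≤ (2⁻¹ : ℝ≥0∞) ^ i * 2⁻¹ ^ j := by
      intro i j
      have h1 : (c i)⁻¹ * (c j)⁻¹ * m i j ≤ 1 := by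
        rcases le_total i j with h | h
        · calc (c i)⁻¹ * (c j)⁻¹ * m i j ≤ 1 * (c j)⁻¹ * c j := by
                gcongr
                · exact i1 i
                · exact cle j i j h le_rfl
            _ = 1 := by rw [one_mul, ENNReal.inv_mul_cancel (c0 j) (ct j)]
        · calc (c i)⁻¹ * (c j)⁻¹ * m i j ≤ (c i)⁻¹ * 1 * c i := by
                gcongr
                · exact i1 j
                · exact cle i i j le_rfl h
            _ = 1 := by rw [mul_one, ENNReal.inv_mul_cancel (c0 i) (ct i)]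
      calc 2⁻¹ ^ i * (c i)⁻¹ * (2⁻¹ ^ j * (c j)⁻¹) * m i j = 2⁻¹ ^ i * 2⁻¹ ^ j * ((c i)⁻¹ * (c j)⁻¹ * m i j) := by ring
        _ ≤ 2⁻¹ ^ i * 2⁻¹ ^ j * 1 := by gcongr
        _ = _ := mul_one _
    calc ∑' i, ∑' j, 2⁻¹ ^ i * (c i)⁻¹ * (2⁻¹ ^ j * (c j)⁻¹) * m i j ≤ ∑' i, ∑' j, (2⁻¹ : ℝ≥0∞) ^ i * 2⁻¹ ^ j :=
          ENNReal.tsum_le_tsum fun i => ENNReal.tsum_le_tsum fun j => key i j
      _ = (∑' i, (2⁻¹ : ℝ≥0∞) ^ i) * ∑' j, (2⁻¹ : ℝ≥0∞) ^ j := by
          rw [← ENNReal.tsum_mul_right]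
          exact tsum_congr fun i => ENNReal.tsum_mul_left
      _ ≤ 4 := by
          rw [ENNReal.tsum_geometric, ENNReal.one_sub_inv_two, inv_inv]
          norm_num

section ker

variable {K1 K2 X Z W : Type*} [PseudoEMetricSpace K1] [MeasurableSpace K1] [BorelSpace K1] [StandardBorelSpace K1] [Nonempty K1]
  [PseudoEMetricSpace K2] [MeasurableSpace K2] [BorelSpace K2] [StandardBorelSpace K2] [Nonempty K2]
  [SecondCountableTopology K1] [SecondCountableTopology K2]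
  [MeasurableSpace X] [MeasurableSpace Z] [MeasurableSpace W] {ρ : ℕ → ℕ → Measure ((K1 × K2) × X)}
  [∀ i j, IsFiniteMeasure (ρ i j)] {μ : Measure X} [SigmaFinite μ] {D : Set X} {pz : X → Z} {pw : X → W}
  {g : ℕ → (K1 → ℝ) → Z → ℝ≥0∞} {h : ℕ → (K2 → ℝ) → W → ℝ≥0∞}

lemma tf_lev {e : ℕ × K1 → ℝ} (he : TF e) (i : ℕ) : TF fun k => e (i, k) := by
  obtain ⟨⟨K, hK⟩, h01⟩ := he
  refine ⟨⟨K, fun k k' => ?_⟩, fun k => h01 _⟩
  refine (hK (i, k) (i, k')).trans ?_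
  gcongr
  rw [Prod.edist_eq]
  simp

/-- **kernels for all levels at once** -/
theorem lev_ker (hD : MeasurableSet D) (hz : Measurable pz) (hw : Measurable pw) (hg : ∀ i e, TF e → Measurable (g i e))
    (hh : ∀ j e, TF e → Measurable (h j e))
    (hyp : ∀ i j, ∀ (e : K1 → ℝ) (e' : K2 → ℝ), TF e → TF e' → ∀ S : Set X, MeasurableSet S → S ⊆ D →
      ∫⁻ x in Prod.snd ⁻¹' S, ENNReal.ofReal (e x.1.1 * e' x.1.2) ∂(ρ i j) = ∫⁻ x in S, g i e (pz x) * h j e' (pw x) ∂μ) :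
    ∃ (a : ℕ → ℝ≥0∞) (g1 : Z → ℝ≥0∞) (h1 : W → ℝ≥0∞) (κ : Kernel Z (ℕ × K1)) (κ' : Kernel W (ℕ × K2)), (∀ i, a i ≠ 0) ∧
      (∀ i, a i ≠ ∞) ∧ Measurable g1 ∧ Measurable h1 ∧ IsMarkovKernel κ ∧ IsMarkovKernel κ' ∧
      ∀ S : Set X, MeasurableSet S → S ⊆ D → ∀ Φ : (ℕ × K1) × (ℕ × K2) → ℝ≥0∞, Measurable Φ →
        ∑' i, ∑' j, a i * a j * ∫⁻ x in Prod.snd ⁻¹' S, Φ ((i, x.1.1), (j, x.1.2)) ∂(ρ i j) =
          ∫⁻ x in S, (g1 (pz x) * h1 (pw x)) * ∫⁻ k, Φ k ∂((κ (pz x)).prod (κ' (pw x))) ∂μ := by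
  obtain ⟨a, a0, at', hs⟩ := lev_wt (fun i j => ρ i j univ) fun i j => measure_ne_top _ _
  obtain ⟨J, hJ⟩ : ∃ J : ℕ → ℕ → (K1 × K2) × X → ((ℕ × K1) × (ℕ × K2)) × X,
    J = fun i j x => (((i, x.1.1), (j, x.1.2)), x.2) := ⟨_, rfl⟩
  have mJ : ∀ i j, Measurable (J i j) := fun i j => by rw [hJ]; fun_prop
  obtain ⟨Q, hQ⟩ : ∃ Q : Measure (((ℕ × K1) × (ℕ × K2)) × X),
    Q = Measure.sum fun i => Measure.sum fun j => (a i * a j) • (ρ i j).map (J i j) := ⟨_, rfl⟩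
  have intR : ∀ S : Set X, MeasurableSet S → ∀ F : ((ℕ × K1) × (ℕ × K2)) × X → ℝ≥0∞, Measurable F →
      ∫⁻ x in Prod.snd ⁻¹' S, F x ∂(Q) = ∑' i, ∑' j, a i * a j * ∫⁻ x in Prod.snd ⁻¹' S, F (J i j x) ∂(ρ i j) := by
    intro S hS F hF
    have hS' : MeasurableSet (Prod.snd ⁻¹' S : Set (((ℕ × K1) × (ℕ × K2)) × X)) := measurable_snd hS
    rw [hQ, ← lintegral_indicator hS', lintegral_sum_measure]
    refine tsum_congr fun i => ?_
    rw [lintegral_sum_measure]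
    refine tsum_congr fun j => ?_
    rw [lintegral_smul_measure, lintegral_map (hF.indicator hS') (mJ i j), ← lintegral_indicator (measurable_snd hS), smul_eq_mul]
    congr 1
    refine lintegral_congr fun x => ?_
    by_cases hx : x.2 ∈ S
    · rw [indicator_of_mem (show x ∈ Prod.snd ⁻¹' S from hx), indicator_of_mem (show J i j x ∈ Prod.snd ⁻¹' S by rw [hJ]; exact hx)]
    · rw [indicator_of_notMem (show x ∉ Prod.snd ⁻¹' S from hx),
        indicator_of_notMem (show J i j x ∉ Prod.snd ⁻¹' S by rw [hJ]; exact hx)]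
  have finR : IsFiniteMeasure Q := by
    refine ⟨?_⟩
    have h1 := intR univ MeasurableSet.univ (fun _ => 1) measurable_const
    simp only [preimage_univ, Measure.restrict_univ, lintegral_const, one_mul] at h1
    rw [h1]
    exact lt_of_le_of_lt hs (by norm_num)
  obtain ⟨κ, κ', k1, k2, key⟩ := c3_ker (P := Q) (μ := μ) (D := D) (pz := pz) (pw := pw)
    (g := fun e z => ∑' i, a i * g i (fun k => e (i, k)) z) (h := fun e w => ∑' j, a j * h j (fun k => e (j, k)) w) hD hz hw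
    (fun e he => Measurable.tsum fun i => (hg i _ (tf_lev he i)).const_mul _)
    (fun e he => Measurable.tsum fun j => (hh j _ (tf_lev he j)).const_mul _) (by
      intro e e' he he' S hS hSD
      have hm : Measurable fun x : ((ℕ × K1) × (ℕ × K2)) × X => ENNReal.ofReal (e x.1.1 * e' x.1.2) :=
        ((he.meas.comp (measurable_fst.comp measurable_fst)).mul (he'.meas.comp (measurable_snd.comp measurable_fst))).ennreal_ofReal
      rw [intR S hS _ hm]
      have m1 : ∀ i, Measurable fun x => g i (fun k => e (i, k)) (pz x) := fun i => (hg i _ (tf_lev he i)).comp hz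
      have m2 : ∀ j, Measurable fun x => h j (fun k => e' (j, k)) (pw x) := fun j => (hh j _ (tf_lev he' j)).comp hw
      have e1 : ∀ i j, a i * a j * ∫⁻ x in Prod.snd ⁻¹' S, ENNReal.ofReal (e (J i j x).1.1 * e' (J i j x).1.2) ∂(ρ i j) =
          ∫⁻ x in S, a i * a j * (g i (fun k => e (i, k)) (pz x) * h j (fun k => e' (j, k)) (pw x)) ∂μ := by
        intro i j
        have c1 : ∫⁻ x in S, a i * a j * (g i (fun k => e (i, k)) (pz x) * h j (fun k => e' (j, k)) (pw x)) ∂μ =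
            a i * a j * ∫⁻ x in S, g i (fun k => e (i, k)) (pz x) * h j (fun k => e' (j, k)) (pw x) ∂μ :=
          lintegral_const_mul _ ((m1 i).mul (m2 j))
        rw [c1, ← hyp i j _ _ (tf_lev he i) (tf_lev he' j) S hS hSD, hJ]
      simp only [e1]
      have e2 : ∀ i, ∑' j, ∫⁻ x in S, a i * a j * (g i (fun k => e (i, k)) (pz x) * h j (fun k => e' (j, k)) (pw x)) ∂μ =
          ∫⁻ x in S, ∑' j, a i * a j * (g i (fun k => e (i, k)) (pz x) * h j (fun k => e' (j, k)) (pw x)) ∂μ := fun i =>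
        (lintegral_tsum fun j => (((m1 i).mul (m2 j)).const_mul _).aemeasurable).symm
      simp only [e2]
      have m3 : ∀ i, Measurable fun x => ∑' j, a i * a j * (g i (fun k => e (i, k)) (pz x) * h j (fun k => e' (j, k)) (pw x)) :=
        fun i => Measurable.tsum fun j => ((m1 i).mul (m2 j)).const_mul _
      have e3 : ∑' i, ∫⁻ x in S, ∑' j, a i * a j * (g i (fun k => e (i, k)) (pz x) * h j (fun k => e' (j, k)) (pw x)) ∂μ =
          ∫⁻ x in S, ∑' i, ∑' j, a i * a j * (g i (fun k => e (i, k)) (pz x) * h j (fun k => e' (j, k)) (pw x)) ∂μ :=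
        (lintegral_tsum fun i => (m3 i).aemeasurable).symm
      rw [e3]
      refine lintegral_congr fun x => ?_
      rw [← ENNReal.tsum_mul_right]
      refine tsum_congr fun i => ?_
      rw [← ENNReal.tsum_mul_left]
      refine tsum_congr fun j => ?_
      ring)
  refine ⟨a, fun z => ∑' i, a i * g i (fun _ => 1) z, fun w => ∑' j, a j * h j (fun _ => 1) w, κ, κ', a0, at',
    Measurable.tsum fun i => (hg i _ TF.one).const_mul _, Measurable.tsum fun j => (hh j _ TF.one).const_mul _, k1, k2,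
    fun S hS hSD Φ hΦ => ?_⟩
  have h2 := key S hS hSD Φ hΦ
  rw [intR S hS (fun x => Φ x.1) (hΦ.comp measurable_fst)] at h2
  rw [hJ] at h2
  exact h2

/-- **densities of sums over the levels** -/
theorem lev_den (hD : MeasurableSet D) (hz : Measurable pz) (hw : Measurable pw) (hg : ∀ i e, TF e → Measurable (g i e))
    (hh : ∀ j e, TF e → Measurable (h j e))
    (hyp : ∀ i j, ∀ (e : K1 → ℝ) (e' : K2 → ℝ), TF e → TF e' → ∀ S : Set X, MeasurableSet S → S ⊆ D →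
      ∫⁻ x in Prod.snd ⁻¹' S, ENNReal.ofReal (e x.1.1 * e' x.1.2) ∂(ρ i j) = ∫⁻ x in S, g i e (pz x) * h j e' (pw x) ∂μ)
    {Φ : ℕ → ℕ → K1 × K2 → ℝ≥0∞} (hΦ : ∀ i j, Measurable (Φ i j)) :
    ∃ t : Z × W → ℝ≥0∞, Measurable t ∧ ∀ S : Set X, MeasurableSet S → S ⊆ D →
      ∑' i, ∑' j, ∫⁻ x in Prod.snd ⁻¹' S, Φ i j x.1 ∂(ρ i j) = ∫⁻ x in S, t (pz x, pw x) ∂μ := by
  obtain ⟨a, g1, h1, κ, κ', a0, at', mg, mh, k1, k2, key⟩ := lev_ker hD hz hw hg hh hyp
  obtain ⟨Ψ, hΨ⟩ : ∃ Ψ : (ℕ × K1) × (ℕ × K2) → ℝ≥0∞, Ψ = fun k => (a k.1.1)⁻¹ * (a k.2.1)⁻¹ * Φ k.1.1 k.2.1 (k.1.2, k.2.2) :=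
    ⟨_, rfl⟩
  have mΨ : Measurable Ψ := by
    have c1 : Measurable fun k : (ℕ × ℕ) × (K1 × K2) => (a k.1.1)⁻¹ * (a k.1.2)⁻¹ * Φ k.1.1 k.1.2 k.2 := by
      refine measurable_from_prod_countable_right fun p => ?_
      exact (hΦ p.1 p.2).const_mul ((a p.1)⁻¹ * (a p.2)⁻¹)
    rw [hΨ]
    exact c1.comp (((measurable_fst.comp measurable_fst).prodMk (measurable_fst.comp measurable_snd)).prodMk
      ((measurable_snd.comp measurable_fst).prodMk (measurable_snd.comp measurable_snd)))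
  have q1 : Measurable fun p : Z × W => ((p.1, p.2), p) := measurable_id.prodMk measurable_id
  obtain ⟨Q, hQ⟩ : ∃ Q : Kernel (Z × W) ((ℕ × K1) × (ℕ × K2)),
    Q = (κ.comap Prod.fst measurable_fst) ×ₖ (κ'.comap Prod.snd measurable_snd) := ⟨_, rfl⟩
  have hQx : ∀ p : Z × W, Q p = (κ p.1).prod (κ' p.2) := fun p => by
    rw [hQ, Kernel.prod_apply, Kernel.comap_apply, Kernel.comap_apply]
  refine ⟨fun p => (g1 p.1 * h1 p.2) * ∫⁻ k, Ψ k ∂(Q p),
    ((mg.comp measurable_fst).mul (mh.comp measurable_snd)).mul mΨ.lintegral_kernel, fun S hS hSD => ?_⟩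
  simp only [hQx]
  rw [← key S hS hSD Ψ mΨ]
  refine tsum_congr fun i => tsum_congr fun j => ?_
  have c2 : ∫⁻ x in Prod.snd ⁻¹' S, Ψ ((i, x.1.1), (j, x.1.2)) ∂(ρ i j) =
      ((a i)⁻¹ * (a j)⁻¹) * ∫⁻ x in Prod.snd ⁻¹' S, Φ i j x.1 ∂(ρ i j) := by
    rw [hΨ]
    exact lintegral_const_mul (μ := (ρ i j).restrict (Prod.snd ⁻¹' S)) (f := fun x : (K1 × K2) × X => Φ i j x.1)
      ((a i)⁻¹ * (a j)⁻¹) ((hΦ i j).comp measurable_fst)
  rw [c2, ← mul_assoc]
  have c3 : a i * a j * ((a i)⁻¹ * (a j)⁻¹) = 1 := by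
    calc a i * a j * ((a i)⁻¹ * (a j)⁻¹) = (a i * (a i)⁻¹) * (a j * (a j)⁻¹) := by ring
      _ = 1 := by rw [ENNReal.mul_inv_cancel (a0 i) (at' i), ENNReal.mul_inv_cancel (a0 j) (at' j), one_mul]
  rw [c3, one_mul]

/-- **product form of sums over the levels** -/
theorem lev_prod (hD : MeasurableSet D) (hz : Measurable pz) (hw : Measurable pw) (hg : ∀ i e, TF e → Measurable (g i e))
    (hh : ∀ j e, TF e → Measurable (h j e))
    (hyp : ∀ i j, ∀ (e : K1 → ℝ) (e' : K2 → ℝ), TF e → TF e' → ∀ S : Set X, MeasurableSet S → S ⊆ D →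
      ∫⁻ x in Prod.snd ⁻¹' S, ENNReal.ofReal (e x.1.1 * e' x.1.2) ∂(ρ i j) = ∫⁻ x in S, g i e (pz x) * h j e' (pw x) ∂μ)
    {Φ : ℕ → K1 → ℝ≥0∞} (hΦ : ∀ i, Measurable (Φ i)) {Ψ : ℕ → K2 → ℝ≥0∞} (hΨ : ∀ i, Measurable (Ψ i)) :
    ∃ (G : Z → ℝ≥0∞) (H : W → ℝ≥0∞), Measurable G ∧ Measurable H ∧ ∀ S : Set X, MeasurableSet S → S ⊆ D →
      ∑' i, ∑' j, ∫⁻ x in Prod.snd ⁻¹' S, Φ i x.1.1 * Ψ j x.1.2 ∂(ρ i j) = ∫⁻ x in S, G (pz x) * H (pw x) ∂μ := by
  obtain ⟨a, g1, h1, κ, κ', a0, at', mg, mh, k1, k2, key⟩ := lev_ker hD hz hw hg hh hyp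
  obtain ⟨F, hF⟩ : ∃ F : ℕ × K1 → ℝ≥0∞, F = fun k => (a k.1)⁻¹ * Φ k.1 k.2 := ⟨_, rfl⟩
  obtain ⟨F', hF'⟩ : ∃ F' : ℕ × K2 → ℝ≥0∞, F' = fun k => (a k.1)⁻¹ * Ψ k.1 k.2 := ⟨_, rfl⟩
  have mF : Measurable F := by
    rw [hF]
    refine measurable_from_prod_countable_right fun p => ?_
    exact (hΦ p).const_mul (a p)⁻¹
  have mF' : Measurable F' := by
    rw [hF']
    refine measurable_from_prod_countable_right fun p => ?_
    exact (hΨ p).const_mul (a p)⁻¹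
  refine ⟨fun z => g1 z * ∫⁻ k, F k ∂(κ z), fun w => h1 w * ∫⁻ k, F' k ∂(κ' w), mg.mul mF.lintegral_kernel,
    mh.mul mF'.lintegral_kernel, fun S hS hSD => ?_⟩
  have h2 := key S hS hSD (fun k => F k.1 * F' k.2) ((mF.comp measurable_fst).mul (mF'.comp measurable_snd))
  have h3 : ∀ x, (g1 (pz x) * h1 (pw x)) * ∫⁻ k, F k.1 * F' k.2 ∂((κ (pz x)).prod (κ' (pw x))) =
      g1 (pz x) * (∫⁻ k, F k ∂(κ (pz x))) * (h1 (pw x) * ∫⁻ k, F' k ∂(κ' (pw x))) := fun x => by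
    rw [lintegral_prod_mul mF.aemeasurable mF'.aemeasurable]
    ring
  simp only [h3] at h2
  rw [← h2]
  refine tsum_congr fun i => tsum_congr fun j => ?_
  have m1 : Measurable fun x : (K1 × K2) × X => Φ i x.1.1 * Ψ j x.1.2 :=
    ((hΦ i).comp (measurable_fst.comp measurable_fst)).mul ((hΨ j).comp (measurable_snd.comp measurable_fst))
  have c2 : ∫⁻ x in Prod.snd ⁻¹' S, F (i, x.1.1) * F' (j, x.1.2) ∂(ρ i j) =
      ((a i)⁻¹ * (a j)⁻¹) * ∫⁻ x in Prod.snd ⁻¹' S, Φ i x.1.1 * Ψ j x.1.2 ∂(ρ i j) := by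
    rw [hF, hF', ← lintegral_const_mul _ m1]
    refine lintegral_congr fun x => ?_
    ring
  show _ = a i * a j * ∫⁻ x in Prod.snd ⁻¹' S, F (i, x.1.1) * F' (j, x.1.2) ∂(ρ i j)
  rw [c2, ← mul_assoc]
  have c3 : a i * a j * ((a i)⁻¹ * (a j)⁻¹) = 1 := by
    calc a i * a j * ((a i)⁻¹ * (a j)⁻¹) = (a i * (a i)⁻¹) * (a j * (a j)⁻¹) := by ring
      _ = 1 := by rw [ENNReal.mul_inv_cancel (a0 i) (at' i), ENNReal.mul_inv_cancel (a0 j) (at' j), one_mul]
  rw [c3, one_mul]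

end ker

/-! ### marks with a variable threshold -/

section mark

variable {Γ Kp Kq A B E : Type*} [MeasurableSpace Γ] [PseudoEMetricSpace Kp] [MeasurableSpace Kp] [BorelSpace Kp]
  [StandardBorelSpace Kp] [Nonempty Kp] [SecondCountableTopology Kp] [PseudoEMetricSpace Kq] [MeasurableSpace Kq] [BorelSpace Kq]
  [StandardBorelSpace Kq] [Nonempty Kq] [SecondCountableTopology Kq] [MeasurableSpace A] [MeasurableSpace B]
  [MeasurableSpace E] {P : Measure Γ} {w : ℕ → ℕ → Γ → ℝ≥0∞}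
  {m : ℕ → ℕ → Γ → (Kp × Kq) × (A × (B × E))} {wR : Γ → ℝ≥0∞} {mR : Γ → (Kp × Kq) × (A × (B × E))} {Ep : ℕ → Set Kp}
  {Eq' : ℕ → Set Kq} {μ : Measure (A × (B × E))}

/-- the marks with variable threshold = the marks of the level chosen by the connection pieces -/
def MarkOf (P : Measure Γ) (w : ℕ → ℕ → Γ → ℝ≥0∞) (m : ℕ → ℕ → Γ → (Kp × Kq) × (A × (B × E))) (Ep : ℕ → Set Kp)
    (Eq' : ℕ → Set Kq) (wR : Γ → ℝ≥0∞) (mR : Γ → (Kp × Kq) × (A × (B × E))) : Prop :=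
  ∀ᵐ g ∂P, (∀ i j, (m i j g).1.1 ∈ Ep i → (m i j g).1.2 ∈ Eq' j → w i j g ≠ 0 → w i j g = wR g ∧ m i j g = mR g) ∧
    (∀ i j i' j', (m i j g).1.1 ∈ Ep i → (m i j g).1.2 ∈ Eq' j → w i j g ≠ 0 → (m i' j' g).1.1 ∈ Ep i' →
      (m i' j' g).1.2 ∈ Eq' j' → w i' j' g ≠ 0 → i = i' ∧ j = j') ∧
    (wR g ≠ 0 → ∃ i j, (m i j g).1.1 ∈ Ep i ∧ (m i j g).1.2 ∈ Eq' j ∧ w i j g ≠ 0)

lemma wd_map {Y : Type*} [MeasurableSpace Y] {w : Γ → ℝ≥0∞} {f : Γ → Y} (hw : Measurable w) (hf : Measurable f) {G : Y → ℝ≥0∞}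
    (hG : Measurable G) : ∫⁻ x, G x ∂((P.withDensity w).map f) = ∫⁻ g, w g * G (f g) ∂P := by
  rw [lintegral_map hG hf]
  exact lintegral_withDensity_eq_lintegral_mul P hw (hG.comp hf)

/-- the sum over the levels -/
theorem mark_sum (hw : ∀ i j, Measurable (w i j)) (hm : ∀ i j, Measurable (m i j)) (kw : Measurable wR) (km : Measurable mR)
    (hEp : ∀ i, MeasurableSet (Ep i)) (hEq : ∀ i, MeasurableSet (Eq' i)) (h : MarkOf P w m Ep Eq' wR mR)
    {F : (Kp × Kq) × (A × (B × E)) → ℝ≥0∞} (hF : Measurable F) {S : Set (A × (B × E))} (hS : MeasurableSet S) :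
    ∫⁻ x in Prod.snd ⁻¹' S, F x ∂((P.withDensity wR).map mR) =
      ∑' i, ∑' j, ∫⁻ x in Prod.snd ⁻¹' S, ((Ep i).indicator (fun _ => 1) x.1.1 * (Eq' j).indicator (fun _ => 1) x.1.2) * F x
        ∂((P.withDensity (w i j)).map (m i j)) := by
  have hS' : MeasurableSet (Prod.snd ⁻¹' S : Set ((Kp × Kq) × (A × (B × E)))) := measurable_snd hS
  have l1 : ∫⁻ x in Prod.snd ⁻¹' S, F x ∂((P.withDensity wR).map mR) =
      ∫⁻ g, wR g * (Prod.snd ⁻¹' S).indicator F (mR g) ∂P := by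
    rw [← lintegral_indicator hS', wd_map kw km (hF.indicator hS')]
  have mE : ∀ i j, Measurable fun x : (Kp × Kq) × (A × (B × E)) =>
      ((Ep i).indicator (fun _ => (1 : ℝ≥0∞)) x.1.1 * (Eq' j).indicator (fun _ => (1 : ℝ≥0∞)) x.1.2) * F x := fun i j =>
    (((measurable_const.indicator (hEp i)).comp (measurable_fst.comp measurable_fst)).mul
      ((measurable_const.indicator (hEq j)).comp (measurable_snd.comp measurable_fst))).mul hF
  have l2 : ∀ i j, ∫⁻ x in Prod.snd ⁻¹' S, ((Ep i).indicator (fun _ => 1) x.1.1 * (Eq' j).indicator (fun _ => 1) x.1.2) * F x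
        ∂((P.withDensity (w i j)).map (m i j)) = ∫⁻ g, w i j g * (Prod.snd ⁻¹' S).indicator (fun x =>
          ((Ep i).indicator (fun _ => 1) x.1.1 * (Eq' j).indicator (fun _ => 1) x.1.2) * F x) (m i j g) ∂P := by
    intro i j
    rw [← lintegral_indicator hS', wd_map (hw i j) (hm i j) ((mE i j).indicator hS')]
  rw [l1]
  simp only [l2]
  have m1 : ∀ i j, Measurable fun g => w i j g * (Prod.snd ⁻¹' S).indicator (fun x =>
      ((Ep i).indicator (fun _ => (1 : ℝ≥0∞)) x.1.1 * (Eq' j).indicator (fun _ => (1 : ℝ≥0∞)) x.1.2) * F x) (m i j g) :=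
    fun i j => (hw i j).mul (((mE i j).indicator hS').comp (hm i j))
  have l3 : ∀ i, ∑' j, ∫⁻ g, w i j g * (Prod.snd ⁻¹' S).indicator (fun x =>
      ((Ep i).indicator (fun _ => (1 : ℝ≥0∞)) x.1.1 * (Eq' j).indicator (fun _ => (1 : ℝ≥0∞)) x.1.2) * F x) (m i j g) ∂P =
      ∫⁻ g, ∑' j, w i j g * (Prod.snd ⁻¹' S).indicator (fun x =>
      ((Ep i).indicator (fun _ => (1 : ℝ≥0∞)) x.1.1 * (Eq' j).indicator (fun _ => (1 : ℝ≥0∞)) x.1.2) * F x) (m i j g) ∂P :=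
    fun i => (lintegral_tsum fun j => (m1 i j).aemeasurable).symm
  simp only [l3]
  rw [← lintegral_tsum fun i => (Measurable.tsum fun j => m1 i j).aemeasurable]
  refine lintegral_congr_ae ?_
  filter_upwards [h] with g hg
  obtain ⟨g1, g2, g3⟩ := hg
  by_cases c : wR g = 0
  · rw [c, zero_mul]
    symm
    rw [ENNReal.tsum_eq_zero]
    intro i
    rw [ENNReal.tsum_eq_zero]
    intro j
    by_cases c1 : w i j g = 0
    · rw [c1, zero_mul]
    by_cases c2 : (m i j g).1.1 ∈ Ep i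
    · by_cases c3 : (m i j g).1.2 ∈ Eq' j
      · exact absurd ((g1 i j c2 c3 c1).1.trans c) c1
      · by_cases c4 : m i j g ∈ (Prod.snd ⁻¹' S : Set ((Kp × Kq) × (A × (B × E))))
        · rw [indicator_of_mem c4, indicator_of_notMem c3, mul_zero, zero_mul, mul_zero]
        · rw [indicator_of_notMem c4, mul_zero]
    · by_cases c4 : m i j g ∈ (Prod.snd ⁻¹' S : Set ((Kp × Kq) × (A × (B × E))))
      · rw [indicator_of_mem c4, indicator_of_notMem c2, zero_mul, zero_mul, mul_zero]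
      · rw [indicator_of_notMem c4, mul_zero]
  · obtain ⟨i, j, a1, a2, a3⟩ := g3 c
    obtain ⟨b1, b2⟩ := g1 i j a1 a2 a3
    have off : ∀ i' j', (i' ≠ i ∨ j' ≠ j) → w i' j' g * (Prod.snd ⁻¹' S).indicator (fun x =>
        ((Ep i').indicator (fun _ => (1 : ℝ≥0∞)) x.1.1 * (Eq' j').indicator (fun _ => (1 : ℝ≥0∞)) x.1.2) * F x) (m i' j' g) = 0 := by
      intro i' j' hne
      by_cases c1 : w i' j' g = 0
      · rw [c1, zero_mul]
      by_cases c4 : m i' j' g ∈ (Prod.snd ⁻¹' S : Set ((Kp × Kq) × (A × (B × E))))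
      · rw [indicator_of_mem c4]
        by_cases c2 : (m i' j' g).1.1 ∈ Ep i'
        · by_cases c3 : (m i' j' g).1.2 ∈ Eq' j'
          · obtain ⟨d1, d2⟩ := g2 i j i' j' a1 a2 a3 c2 c3 c1
            rcases hne with h | h
            · exact absurd d1.symm h
            · exact absurd d2.symm h
          · rw [indicator_of_notMem c3, mul_zero, zero_mul, mul_zero]
        · rw [indicator_of_notMem c2, zero_mul, zero_mul, mul_zero]
      · rw [indicator_of_notMem c4, mul_zero]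
    rw [tsum_eq_single i fun i' hi' => by
      rw [ENNReal.tsum_eq_zero]
      exact fun j' => off i' j' (Or.inl hi'), tsum_eq_single j fun j' hj' => off i j' (Or.inr hj'), b1, b2]
    rw [b2] at a1 a2
    by_cases c4 : mR g ∈ (Prod.snd ⁻¹' S : Set ((Kp × Kq) × (A × (B × E))))
    · rw [indicator_of_mem c4, indicator_of_mem c4, indicator_of_mem a1, indicator_of_mem a2, one_mul, one_mul]
    · rw [indicator_of_notMem c4, indicator_of_notMem c4]

variable [AddCommGroup E] [MeasurableAdd₂ E] [MeasurableNeg E] [∀ i j, IsFiniteMeasure ((P.withDensity (w i j)).map (m i j))]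
  [SigmaFinite μ] {D : Set (A × (B × E))} {y1 : A → E} {y2 : B → E} {g : ℕ → (Kp → ℝ) → E → ℝ≥0∞}
  {h : ℕ → (Kq → ℝ) → E → ℝ≥0∞}

/-- **`Den` for the marks with variable threshold** -/
theorem mark_den (hw : ∀ i j, Measurable (w i j)) (hm : ∀ i j, Measurable (m i j)) (kw : Measurable wR) (km : Measurable mR)
    (hEp : ∀ i, MeasurableSet (Ep i)) (hEq : ∀ i, MeasurableSet (Eq' i)) (hmk : MarkOf P w m Ep Eq' wR mR)
    (hD : MeasurableSet D) (h1 : Measurable y1) (h2 : Measurable y2) (hg : ∀ i e, TF e → Measurable (g i e))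
    (hh : ∀ j e, TF e → Measurable (h j e))
    (hyp : ∀ i j, ∀ (e : Kp → ℝ) (e' : Kq → ℝ), TF e → TF e' → ∀ S : Set (A × (B × E)), MeasurableSet S → S ⊆ D →
      ∫⁻ x in Prod.snd ⁻¹' S, ENNReal.ofReal (e x.1.1 * e' x.1.2) ∂((P.withDensity (w i j)).map (m i j)) =
        ∫⁻ x in S, g i e (zw y1 y2 x).1 * h j e' (zw y1 y2 x).2 ∂μ) {Φ : Kp × Kq → ℝ≥0∞} (hΦ : Measurable Φ) :
    Den ((P.withDensity wR).map mR) μ D (zw y1 y2) Φ := by
  have mz := zw_meas (A := A) (B := B) h1 h2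
  obtain ⟨t, mt, ht⟩ := lev_den (ρ := fun i j => (P.withDensity (w i j)).map (m i j)) (μ := μ) (D := D)
    (pz := fun x => (zw y1 y2 x).1) (pw := fun x => (zw y1 y2 x).2) hD (measurable_fst.comp mz) (measurable_snd.comp mz) hg hh
    hyp (Φ := fun i j k => ((Ep i).indicator (fun _ => 1) k.1 * (Eq' j).indicator (fun _ => 1) k.2) * Φ k) (fun i j =>
      (((measurable_const.indicator (hEp i)).comp measurable_fst).mul
        ((measurable_const.indicator (hEq j)).comp measurable_snd)).mul hΦ)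
  refine ⟨t, mt, fun S hS hSD => ?_⟩
  rw [mark_sum hw hm kw km hEp hEq hmk (F := fun x => Φ x.1) (hΦ.comp measurable_fst) hS]
  exact ht S hS hSD

/-- **`DenP` for the marks with variable threshold** -/
theorem mark_denP (hw : ∀ i j, Measurable (w i j)) (hm : ∀ i j, Measurable (m i j)) (kw : Measurable wR) (km : Measurable mR)
    (hEp : ∀ i, MeasurableSet (Ep i)) (hEq : ∀ i, MeasurableSet (Eq' i)) (hmk : MarkOf P w m Ep Eq' wR mR)
    (hD : MeasurableSet D) (h1 : Measurable y1) (h2 : Measurable y2) (hg : ∀ i e, TF e → Measurable (g i e))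
    (hh : ∀ j e, TF e → Measurable (h j e))
    (hyp : ∀ i j, ∀ (e : Kp → ℝ) (e' : Kq → ℝ), TF e → TF e' → ∀ S : Set (A × (B × E)), MeasurableSet S → S ⊆ D →
      ∫⁻ x in Prod.snd ⁻¹' S, ENNReal.ofReal (e x.1.1 * e' x.1.2) ∂((P.withDensity (w i j)).map (m i j)) =
        ∫⁻ x in S, g i e (zw y1 y2 x).1 * h j e' (zw y1 y2 x).2 ∂μ) {Φp : Kp → ℝ≥0∞} (hΦp : Measurable Φp)
    {Φq : Kq → ℝ≥0∞} (hΦq : Measurable Φq) :
    DenP ((P.withDensity wR).map mR) μ D (zw y1 y2) Φp Φq := by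
  have mz := zw_meas (A := A) (B := B) h1 h2
  obtain ⟨G, H, mG, mH, ht⟩ := lev_prod (ρ := fun i j => (P.withDensity (w i j)).map (m i j)) (μ := μ) (D := D)
    (pz := fun x => (zw y1 y2 x).1) (pw := fun x => (zw y1 y2 x).2) hD (measurable_fst.comp mz) (measurable_snd.comp mz) hg hh
    hyp (Φ := fun i k => (Ep i).indicator (fun _ => 1) k * Φp k) (fun i => (measurable_const.indicator (hEp i)).mul hΦp)
    (Ψ := fun j k => (Eq' j).indicator (fun _ => 1) k * Φq k) (fun j => (measurable_const.indicator (hEq j)).mul hΦq)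
  refine ⟨G, H, mG, mH, fun S hS hSD => ?_⟩
  rw [mark_sum hw hm kw km hEp hEq hmk (F := fun x => Φp x.1.1 * Φq x.1.2) ((hΦp.comp (measurable_fst.comp measurable_fst)).mul
    (hΦq.comp (measurable_snd.comp measurable_fst))) hS]
  have e1 : ∫⁻ x in S, ghd G H (zw y1 y2 x) ∂μ = ∫⁻ x in S, G (zw y1 y2 x).1 * H (zw y1 y2 x).2 ∂μ := rfl
  rw [e1, ← ht S hS hSD]
  refine tsum_congr fun i => tsum_congr fun j => lintegral_congr fun x => ?_
  ring

end mark

end Pool.Agent.ROT.F3
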