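import Pool.Agent.ROT.F3LimE
import Pool.Agent.ROT.F3CoreL

/-!
# ROT, F3, row Core (helper17): the lattice data at countably many levels and the fields `dR`, `dP` of `PairIn`

* **`com_t`** : one normalisation for the masses at all levels at both ends;
* `LevIn` : the lattice data at all pairs of levels `(i, j)`, limits along one ultrafilter; **`LevIn.base`** : densities for the test
  functions, the function of the first end depends on `i` only, the function of the second end on `j` only;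
* **`LevIn.den`**, **`LevIn.denP`** : `Den` and `DenP` for the marks with variable thresholds.
-/

set_option autoImplicit false
set_option linter.unusedSectionVars false

open MeasureTheory Set Filter Topology TopologicalSpace ProbabilityTheory

open scoped ENNReal NNReal

namespace Pool.Agent.ROT.F3

/-! ### 1. One normalisation -/

private lemma sum_wt (C : ℕ → ℕ → ℝ) (j k : ℕ) :
    ∑ i ∈ Finset.range k, (2⁻¹ : ℝ) ^ i / (1 + ∑ j ∈ Finset.range (i + 1), |C i j|) * |C i j| ≤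
      2 + ∑ i ∈ Finset.range j, |C i j| := by
  have h1 : ∀ i, (2⁻¹ : ℝ) ^ i / (1 + ∑ j ∈ Finset.range (i + 1), |C i j|) * |C i j| ≤
      (2⁻¹ : ℝ) ^ i + if i < j then |C i j| else 0 := by
    intro i
    have p0 : (0 : ℝ) ≤ ∑ j ∈ Finset.range (i + 1), |C i j| := Finset.sum_nonneg fun _ _ => abs_nonneg _
    have p1 : (0 : ℝ) < 1 + ∑ j ∈ Finset.range (i + 1), |C i j| := by linarith
    have q0 : (0 : ℝ) < 2⁻¹ ^ i := by positivity
    have q1 : (2⁻¹ : ℝ) ^ i ≤ 1 := pow_le_one₀ (by norm_num) (by norm_num)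
    split_ifs with h
    · have h2 : (2⁻¹ : ℝ) ^ i / (1 + ∑ j ∈ Finset.range (i + 1), |C i j|) ≤ 1 := by
        rw [div_le_one p1]
        linarith
      have h3 := mul_le_mul_of_nonneg_right h2 (abs_nonneg (C i j))
      linarith
    · have h2 : |C i j| ≤ ∑ j ∈ Finset.range (i + 1), |C i j| :=
        Finset.single_le_sum (f := fun j => |C i j|) (fun _ _ => abs_nonneg _) (Finset.mem_range.2 (by omega))
      rw [add_zero, div_mul_eq_mul_div, div_le_iff₀ p1]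
      exact mul_le_mul_of_nonneg_left (by linarith) q0.le
  refine (Finset.sum_le_sum fun i _ => h1 i).trans ?_
  rw [Finset.sum_add_distrib]
  have g1 : ∑ i ∈ Finset.range k, (2⁻¹ : ℝ) ^ i ≤ 2 := by
    have h2 := (summable_geometric_of_lt_one (r := (2⁻¹ : ℝ)) (by norm_num) (by norm_num)).sum_le_tsum (Finset.range k)
      (fun i _ => by positivity)
    rw [tsum_geometric_of_lt_one (by norm_num) (by norm_num)] at h2
    norm_num at h2 ⊢
    exact h2
  have g2 : ∑ i ∈ Finset.range k, (if i < j then |C i j| else 0) ≤ ∑ i ∈ Finset.range j, |C i j| := by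
    rw [← Finset.sum_filter]
    refine Finset.sum_le_sum_of_subset_of_nonneg (fun i hi => ?_) fun _ _ _ => abs_nonneg _
    exact Finset.mem_range.2 (Finset.mem_filter.1 hi).2
  linarith

/-- **one normalisation for all levels.** `a i N`, `b j N` = the masses at the level `i` of the first end, the level `j` of the second
end; for every pair of levels the product is at most `C * M N` -/
theorem com_t {l : Filter ℕ} (hl : l ≤ atTop) {a b : ℕ → ℕ → ℝ} {M : ℕ → ℝ} (hM : ∀ᶠ N in l, 0 < M N)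
    (ha : ∀ i N, 0 ≤ a i N) (hb : ∀ j N, 0 ≤ b j N) (h : ∀ i j, ∃ C : ℝ, ∀ᶠ N in l, a i N * b j N ≤ C * M N) :
    ∃ t : ℕ → ℝ, (∀ N, 0 < t N) ∧ (∀ i, ∃ c : ℝ, 0 < c ∧ ∀ᶠ N in l, a i N ≤ c * t N) ∧
      ∀ j, ∃ c : ℝ, 0 < c ∧ ∀ᶠ N in l, t N * b j N ≤ c * M N := by
  choose C hC using h
  obtain ⟨k, hk⟩ : ∃ k : ℕ → ℕ, k = fun N =>
      @Nat.findGreatest (fun k => ∀ i < k, ∀ j < k, a i N * b j N ≤ C i j * M N) (Classical.decPred _) N := ⟨_, rfl⟩
  have k1 : ∀ N, ∀ i < k N, ∀ j < k N, a i N * b j N ≤ C i j * M N := by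
    intro N
    rw [hk]
    exact @Nat.findGreatest_spec 0 (fun k => ∀ i < k, ∀ j < k, a i N * b j N ≤ C i j * M N) (Classical.decPred _) N
      (Nat.zero_le _) fun i hi => absurd hi (Nat.not_lt_zero i)
  have k2 : ∀ K : ℕ, ∀ᶠ N in l, K ≤ k N := by
    intro K
    have e1 : ∀ᶠ N in l, ∀ i ∈ Finset.range K, ∀ j ∈ Finset.range K, a i N * b j N ≤ C i j * M N := by
      rw [Filter.eventually_all_finset]
      intro i _
      rw [Filter.eventually_all_finset]
      intro j _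
      exact hC i j
    filter_upwards [e1, hl (eventually_ge_atTop K)] with N h1 h2
    rw [hk]
    exact @Nat.le_findGreatest K (fun k => ∀ i < k, ∀ j < k, a i N * b j N ≤ C i j * M N) (Classical.decPred _) N h2
      fun i hi j hj => h1 i (Finset.mem_range.2 hi) j (Finset.mem_range.2 hj)
  obtain ⟨ε, hε⟩ : ∃ ε : ℕ → ℝ, ε = fun i => (2⁻¹ : ℝ) ^ i / (1 + ∑ j ∈ Finset.range (i + 1), |C i j|) := ⟨_, rfl⟩
  have ε0 : ∀ i, 0 < ε i := fun i => by
    rw [hε]
    have p0 : (0 : ℝ) ≤ ∑ j ∈ Finset.range (i + 1), |C i j| := Finset.sum_nonneg fun _ _ => abs_nonneg _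
    exact div_pos (by positivity) (by linarith)
  have sb0 : ∀ N, 0 ≤ ∑ j ∈ Finset.range (k N), b j N := fun N => Finset.sum_nonneg fun j _ => hb j N
  have sa0 : ∀ N, 0 ≤ ∑ i ∈ Finset.range (k N), ε i * a i N := fun N =>
    Finset.sum_nonneg fun i _ => mul_nonneg (ε0 i).le (ha i N)
  obtain ⟨δ, hδ⟩ : ∃ δ : ℕ → ℝ, δ = fun N => if 0 < M N then M N / (1 + ∑ j ∈ Finset.range (k N), b j N) else 1 := ⟨_, rfl⟩
  have δ0 : ∀ N, 0 < δ N := fun N => by
    rw [hδ]
    have := sb0 N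
    dsimp only
    split_ifs with h
    · exact div_pos h (by linarith)
    · exact one_pos
  refine ⟨fun N => ∑ i ∈ Finset.range (k N), ε i * a i N + δ N, fun N => by linarith [sa0 N, δ0 N], fun i => ?_, fun j => ?_⟩
  · refine ⟨(ε i)⁻¹, inv_pos.2 (ε0 i), ?_⟩
    filter_upwards [k2 (i + 1)] with N hN
    have h1 : ε i * a i N ≤ ∑ i ∈ Finset.range (k N), ε i * a i N :=
      Finset.single_le_sum (f := fun i => ε i * a i N) (fun i _ => mul_nonneg (ε0 i).le (ha i N)) (Finset.mem_range.2 hN)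
    rw [inv_mul_eq_div, le_div_iff₀ (ε0 i), mul_comm]
    linarith [δ0 N]
  · refine ⟨3 + ∑ i ∈ Finset.range j, |C i j|, ?_, ?_⟩
    · have : (0 : ℝ) ≤ ∑ i ∈ Finset.range j, |C i j| := Finset.sum_nonneg fun _ _ => abs_nonneg _
      linarith
    filter_upwards [k2 (j + 1), hM] with N hN hMN
    have h1 : (∑ i ∈ Finset.range (k N), ε i * a i N) * b j N ≤ (2 + ∑ i ∈ Finset.range j, |C i j|) * M N := by
      rw [Finset.sum_mul]
      calc ∑ i ∈ Finset.range (k N), ε i * a i N * b j N ≤ ∑ i ∈ Finset.range (k N), ε i * |C i j| * M N := by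
            refine Finset.sum_le_sum fun i hi => ?_
            rw [mul_assoc, mul_assoc]
            refine mul_le_mul_of_nonneg_left ?_ (ε0 i).le
            refine (k1 N i (Finset.mem_range.1 hi) j hN).trans ?_
            exact mul_le_mul_of_nonneg_right (le_abs_self _) hMN.le
        _ = (∑ i ∈ Finset.range (k N), ε i * |C i j|) * M N := by rw [Finset.sum_mul]
        _ ≤ _ := by
            refine mul_le_mul_of_nonneg_right ?_ hMN.le
            rw [hε]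
            exact sum_wt C j (k N)
    have h2 : δ N * b j N ≤ M N := by
      have h3 : b j N ≤ ∑ j ∈ Finset.range (k N), b j N :=
        Finset.single_le_sum (f := fun j => b j N) (fun j _ => hb j N) (Finset.mem_range.2 hN)
      have h4 := sb0 N
      rw [hδ]
      dsimp only
      rw [if_pos hMN, div_mul_eq_mul_div, div_le_iff₀ (by linarith)]
      exact mul_le_mul_of_nonneg_left (by linarith) hMN.le
    rw [add_mul]
    linarith

/-! ### 2. The lattice data at all levels -/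

section lev

variable {Γ Kp Kq A B : Type*} [MeasurableSpace Γ]
  [PseudoEMetricSpace Kp] [MeasurableSpace Kp] [BorelSpace Kp] [StandardBorelSpace Kp] [Nonempty Kp]
  [SecondCountableTopology Kp]
  [PseudoEMetricSpace Kq] [MeasurableSpace Kq] [BorelSpace Kq] [StandardBorelSpace Kq] [Nonempty Kq]
  [SecondCountableTopology Kq]
  [PseudoMetricSpace A] [MeasurableSpace A] [BorelSpace A] [SecondCountableTopology A]
  [PseudoMetricSpace B] [MeasurableSpace B] [BorelSpace B] [SecondCountableTopology B]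

/-- **the lattice data at all pairs of levels** `(i, j)`, and their limits along one ultrafilter: `bA`, `bB` = laws of the arcs, `m` = the
lattice, `g i e`, `h j e'` = the functions of the two ends, `ρN i j` = the laws of (connections, arcs, relative position) of the words,
`ρ i j` = their limits -/
structure LevIn (U : Ultrafilter ℕ) (bA : ℕ → FiniteMeasure A) (b1 : FiniteMeasure A) (bB : ℕ → FiniteMeasure B)
    (b2 : FiniteMeasure B) (m : ℕ → Measure ℂ) (c : ℝ) (yA : A → ℂ) (yB : B → ℂ) (C R C' : ℕ → ℝ)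
    (g : ℕ → (Kp → ℝ) → ℕ → ℂ → ℝ) (h : ℕ → (Kq → ℝ) → ℕ → ℂ → ℝ)
    (ρN : ℕ → ℕ → ℕ → Measure ((Kp × Kq) × (A × (B × ℂ)))) (ρ : ℕ → ℕ → Measure ((Kp × Kq) × (A × (B × ℂ))))
    (D : Set (A × (B × ℂ))) : Prop where
  hA : Tendsto bA U (𝓝 b1)
  hB : Tendsto bB U (𝓝 b2)
  n1 : b1 ≠ 0
  n2 : b2 ≠ 0
  hm : LM (U : Filter ℕ) m c
  hyA : Continuous yA
  hyB : Continuous yB
  hinv : ∀ᶠ N in (U : Filter ℕ), ∀ᵐ a ∂(bA N : Measure A), ∀ᵐ b ∂(bB N : Measure B),
    (m N).map (fun z => z + (yA a - yB b)) = m N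
  bf : ∀ i e, TF e → BF (U : Filter ℕ) (g i e) (C i) (R i)
  al : ∀ i e, TF e → AL1 (U : Filter ℕ) m (g i e)
  mh : ∀ j e, TF e → ∀ N, Measurable (h j e N)
  hC' : ∀ j, 0 ≤ C' j
  hb : ∀ j e, TF e → ∀ᶠ N in (U : Filter ℕ), ∀ z, 0 ≤ h j e N z ∧ h j e N z ≤ C' j
  hD : IsOpen D
  fin : ∀ i j, IsFiniteMeasure (ρ i j)
  hlim : ∀ (i j : ℕ) (e : Kp → ℝ) (e' : Kq → ℝ) (u : A → ℝ) (v : B → ℝ) (w : ℂ → ℝ), TF e → TF e' → TF u → TF v → TF w →
    Mar D u v w → Tendsto (fun N => ∫ x, e x.1.1 * e' x.1.2 * (u x.2.1 * (v x.2.2.1 * w x.2.2.2)) ∂(ρN i j N)) U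
      (𝓝 (∫ x, e x.1.1 * e' x.1.2 * (u x.2.1 * (v x.2.2.1 * w x.2.2.2)) ∂(ρ i j)))
  hex : ∀ (i j : ℕ) (e : Kp → ℝ) (e' : Kq → ℝ) (u : A → ℝ) (v : B → ℝ) (w : ℂ → ℝ), TF e → TF e' → TF u → TF v → TF w →
    Mar D u v w → Tendsto (fun N => (∫ x, e x.1.1 * e' x.1.2 * (u x.2.1 * (v x.2.2.1 * w x.2.2.2)) ∂(ρN i j N)) -
      ∫ p, u p.1 * (v p.2.1 * w p.2.2) * g i e N p.2.2 * h j e' N (p.2.2 + (yA p.1 - yB p.2.1))
        ∂((bA N : Measure A).prod ((bB N : Measure B).prod (m N)))) U (𝓝 0)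

variable {U : Ultrafilter ℕ} {bA : ℕ → FiniteMeasure A} {b1 : FiniteMeasure A} {bB : ℕ → FiniteMeasure B}
  {b2 : FiniteMeasure B} {m : ℕ → Measure ℂ} {c : ℝ} {yA : A → ℂ} {yB : B → ℂ} {C R C' : ℕ → ℝ}
  {g : ℕ → (Kp → ℝ) → ℕ → ℂ → ℝ} {h : ℕ → (Kq → ℝ) → ℕ → ℂ → ℝ}
  {ρN : ℕ → ℕ → ℕ → Measure ((Kp × Kq) × (A × (B × ℂ)))} {ρ : ℕ → ℕ → Measure ((Kp × Kq) × (A × (B × ℂ)))}
  {D : Set (A × (B × ℂ))}

/-- **the densities for the test functions, all levels at once** -/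
theorem LevIn.base (H : LevIn U bA b1 bB b2 m c yA yB C R C' g h ρN ρ D) :
    ∃ (g1 : ℕ → (Kp → ℝ) → ℂ → ℝ≥0∞) (h1 : ℕ → (Kq → ℝ) → ℂ → ℝ≥0∞), (∀ i e, TF e → Measurable (g1 i e)) ∧
      (∀ j e, TF e → Measurable (h1 j e)) ∧ ∀ i j, ∀ (e : Kp → ℝ) (e' : Kq → ℝ), TF e → TF e' →
        ∀ S : Set (A × (B × ℂ)), MeasurableSet S → S ⊆ D →
          ∫⁻ x in Prod.snd ⁻¹' S, ENNReal.ofReal (e x.1.1 * e' x.1.2) ∂(ρ i j) =
            ∫⁻ x in S, g1 i e (zw yA yB x).1 * h1 j e' (zw yA yB x).2 ∂((b1 : Measure A).prod ((b2 : Measure B).prod volume)) := by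
  have G : ∀ i, ∃ g0 : (Kp → ℝ) → ℂ → ℝ, ∀ e, TF e → Measurable (g0 e) ∧ (∀ z, 0 ≤ g0 e z ∧ g0 e z ≤ C i) ∧
      (∀ z, R i + 1 ≤ ‖z‖ → g0 e z = 0) ∧ VL (U : Filter ℕ) m c (g i e) (g0 e) := fun i => side_g H.hm (H.bf i)
  have K : ∀ j, ∃ h0 : (Kq → ℝ) → ℂ → ℝ, ∀ e, TF e → Measurable (h0 e) ∧ (∀ z, 0 ≤ h0 e z ∧ h0 e z ≤ C' j) ∧
      VL (U : Filter ℕ) m c (h j e) (h0 e) := fun j => side_h H.hm (H.mh j) (H.hC' j) (H.hb j)
  choose g0 hg0 using G
  choose h0 hh0 using K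
  refine ⟨fun i e z => ENNReal.ofReal (c * g0 i e z), fun j e z => ENNReal.ofReal (h0 j e z),
    fun i e he => ((hg0 i e he).1.const_mul c).ennreal_ofReal, fun j e he => (hh0 j e he).1.ennreal_ofReal, ?_⟩
  intro i j e e' he he' S hS hSD
  have := H.fin i j
  have key := l3_base (ρN := ρN i j) (ρ := ρ i j) (D := D) (g := g i) (h := h j) H.hA H.hB H.n1 H.n2 H.hm H.hyA H.hyB H.hinv (H.bf i) (H.al i) (hg0 i)
    (H.mh j) (H.hC' j) (H.hb j) (hh0 j) H.hD (H.hlim i j) (H.hex i j) e e' he he' S hS hSD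
  rw [key]
  refine lintegral_congr fun x => ?_
  have e1 : (zw yA yB x).2 = x.2.2 + (yA x.1 - yB x.2.1) := by
    show x.2.2 + yA x.1 - yB x.2.1 = _
    ring
  rw [e1]
  rfl

variable {P : Measure Γ} {w : ℕ → ℕ → Γ → ℝ≥0∞} {M : ℕ → ℕ → Γ → (Kp × Kq) × (A × (B × ℂ))} {wR : Γ → ℝ≥0∞}
  {mR : Γ → (Kp × Kq) × (A × (B × ℂ))} {Ep : ℕ → Set Kp} {Eq' : ℕ → Set Kq}

/-- **the field `dR` of `PairIn`** -/
theorem LevIn.den (H : LevIn U bA b1 bB b2 m c yA yB C R C' g h ρN (fun i j => (P.withDensity (w i j)).map (M i j)) D)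
    (hw : ∀ i j, Measurable (w i j)) (hm : ∀ i j, Measurable (M i j)) (kw : Measurable wR) (km : Measurable mR)
    (hEp : ∀ i, MeasurableSet (Ep i)) (hEq : ∀ i, MeasurableSet (Eq' i)) (hmk : MarkOf P w M Ep Eq' wR mR)
    {Φ : Kp × Kq → ℝ≥0∞} (hΦ : Measurable Φ) :
    Den ((P.withDensity wR).map mR) ((b1 : Measure A).prod ((b2 : Measure B).prod volume)) D (zw yA yB) Φ := by
  obtain ⟨g1, h1, k1, k2, k3⟩ := H.base
  have := H.fin
  exact mark_den hw hm kw km hEp hEq hmk H.hD.measurableSet H.hyA.measurable H.hyB.measurable k1 k2 k3 hΦ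

/-- **the field `dP` of `PairIn`** -/
theorem LevIn.denP (H : LevIn U bA b1 bB b2 m c yA yB C R C' g h ρN (fun i j => (P.withDensity (w i j)).map (M i j)) D)
    (hw : ∀ i j, Measurable (w i j)) (hm : ∀ i j, Measurable (M i j)) (kw : Measurable wR) (km : Measurable mR)
    (hEp : ∀ i, MeasurableSet (Ep i)) (hEq : ∀ i, MeasurableSet (Eq' i)) (hmk : MarkOf P w M Ep Eq' wR mR)
    {Φp : Kp → ℝ≥0∞} (hΦp : Measurable Φp) {Φq : Kq → ℝ≥0∞} (hΦq : Measurable Φq) :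
    DenP ((P.withDensity wR).map mR) ((b1 : Measure A).prod ((b2 : Measure B).prod volume)) D (zw yA yB) Φp Φq := by
  obtain ⟨g1, h1, k1, k2, k3⟩ := H.base
  have := H.fin
  exact mark_denP hw hm kw km hEp hEq hmk H.hD.measurableSet H.hyA.measurable H.hyB.measurable k1 k2 k3 hΦp hΦq

end lev

end Pool.Agent.ROT.F3
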