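import Pool.Agent.ROT.F3HexC
import Pool.Agent.ROT.F3K1R

/-!
# F3, route NL, row K5 (helper55): the limit of the exact product of the closed words for the classes, both lattices

* `lms_LMn`, `gN_bfn`, `gN_al1n` : `LM`, `BF`, `AL1` for the scale `N`;
* `L3In` : the inputs of the limit for a class (data `Dt` of helper71), one lattice, any weights, normalisation `t`;
* **`L3In.hinv`, `hg`, `hg1`, `hh`, `hhb`, `hex`** : the hypotheses of `l3_base`, `l3_fin` (helper15), any filter `l ≤ atTop`;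
* **`l3_cls`** : the limit of the lattice formula for the classes of F3Cls: `L3Out` along an ultrafilter;
* **`gN_low`**, `L3In.low_p`, `L3In.low_q` : lower bounds of the weights of the connections on a cell pass to the limit.
-/

set_option autoImplicit false
set_option linter.unusedSectionVars false

open MeasureTheory Set Filter Topology ProbabilityTheory

open scoped ENNReal Classical

namespace Pool.Agent.ROT.F3

open Pool.Agent.ROT.F3L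

/-! ### 1. The scale `N` -/

section seq

variable {l : Filter ℕ}

lemma LM.congr {m m' : ℕ → Measure ℂ} {c : ℝ} (h : LM l m c) (he : ∀ᶠ N in l, m' N = m N)
    (hf : ∀ N, IsFiniteMeasureOnCompacts (m' N)) : LM l m' c := by
  refine ⟨hf, h.pos, fun Ψ h1 h2 => ?_, fun R => ?_⟩
  · refine (h.vag Ψ h1 h2).congr' ?_
    filter_upwards [he] with N hN
    rw [hN]
  · obtain ⟨K, hK⟩ := h.loc R
    refine ⟨K, ?_⟩
    filter_upwards [he, hK] with N h1 h2 w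
    rw [h1]
    exact h2 w

lemma BF.congr {g g' : ℕ → ℂ → ℝ} {C R : ℝ} (h : BF l g C R) (he : ∀ᶠ N in l, g' N = g N)
    (hm : ∀ N, Measurable (g' N)) : BF l g' C R := by
  refine ⟨hm, ?_, ?_, h.C0, h.R0⟩
  · filter_upwards [he, h.bd] with N h1 h2 z
    rw [h1]
    exact h2 z
  · filter_upwards [he, h.supp] with N h1 h2 z hz
    rw [h1]
    exact h2 z hz

lemma AL1.congr {m m' : ℕ → Measure ℂ} {g g' : ℕ → ℂ → ℝ} (h : AL1 l m g) (he : ∀ᶠ N in l, g' N = g N ∧ m' N = m N) :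
    AL1 l m' g' := by
  intro ε hε
  obtain ⟨δ₀, hδ₀, h1⟩ := h ε hε
  refine ⟨δ₀, hδ₀, fun δ hδ hδ1 => ?_⟩
  filter_upwards [he, h1 δ hδ hδ1] with N h2 h3
  rw [h2.1, h2.2]
  exact h3

lemma GamH.congr {s s' : ℕ → ℝ} {C : ℕ → Set (W3 × W3)} {e : ℕ → W3 × W3 → ℝ≥0∞} {tot : ℕ → ℝ≥0∞} {B R : ℝ}
    (H : GamH l s C e tot B R) (he : ∀ᶠ N in l, s' N = s N) : GamH l s' C e tot B R := by
  refine ⟨H.ev, H.fin, H.sum, ?_, ?_, fun ε hε => ?_⟩
  · filter_upwards [he, H.sup] with N h1 h2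
    rw [h1]
    exact h2
  · filter_upwards [he, H.supp] with N h1 h2
    rw [h1]
    exact h2
  · obtain ⟨η, hη, h1⟩ := H.l1 ε hε
    refine ⟨η, hη, ?_⟩
    filter_upwards [he, h1] with N h2 h3
    rw [h2]
    exact h3

/-- the scale, positive for all `N` -/
noncomputable def sN (N : ℕ) : ℝ := max (N : ℝ) 1

lemma sN_pos (N : ℕ) : 0 < sN N := lt_max_of_lt_right one_pos

lemma sN_tendsto : Tendsto sN atTop atTop := tendsto_atTop_mono (fun _ => le_max_left _ _) tendsto_natCast_atTop_atTop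

lemma sN_eq (hl : l ≤ atTop) : ∀ᶠ N : ℕ in l, (N : ℝ) = sN N := by
  filter_upwards [hl (eventually_ge_atTop 1)] with N hN
  exact (max_eq_left (by exact_mod_cast hN)).symm

lemma lms_fin0 (f : ℂ ≃ₗ[ℝ] ℂ) (N : ℕ) (t : ℂ) : IsFiniteMeasureOnCompacts (lms f N t) := by
  rcases Nat.eq_zero_or_pos N with h | h
  · subst h
    have h0 : lms f ((0 : ℕ) : ℝ) t = 0 := by
      rw [lms]
      simp
    rw [h0]
    infer_instance
  · exact lms_fmc f (by exact_mod_cast h) t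

/-- the lattice measures on the scale `N` are `LM` -/
lemma lms_LMn (hl : l ≤ atTop) (f : ℂ ≃ₗ[ℝ] ℂ) : LM l (fun N => lms f (N : ℝ) 0) |LinearMap.det (f : ℂ →ₗ[ℝ] ℂ)|⁻¹ := by
  refine (lms_LM hl f sN_pos sN_tendsto fun _ => 0).congr ?_ fun N => lms_fin0 f N 0
  filter_upwards [sN_eq hl] with N hN
  rw [hN]

variable {K : Type*} {C : ℕ → Set (W3 × W3)} {E : ℕ → W3 × W3 → ℝ≥0∞} {κ : ℕ → W3 × W3 → K} {α : ℕ → ℝ} {e : K → ℝ}
    {tot : ℕ → ℝ≥0∞} {B R c : ℝ} {v : ℂ}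

/-- `gN` is measurable -/
lemma gN_meas {s : ℕ → ℝ} (hv : v ≠ 0) (hC : ∀ N, ∀ a ∈ C N, Even a.1.length ∧ Even a.2.length) (N : ℕ) :
    Measurable (gN C E κ α s v e N) :=
  gm_meas (f := fv v hv) hv (gam_lat fun a ha => neg_mem_lat_fv hv (EL_sub (en_EL (hC N a ha).1) (en_EL (hC N a ha).2))) _ _

/-- **`BF`** on the scale `N` -/
theorem gN_bfn (hl : l ≤ atTop) (hv : ‖v‖ = 1)
    (H : GamH l (fun N => (N : ℝ)) C (fun N a => E N a * ENNReal.ofReal (e (κ N a))) tot B R) (hB : 0 ≤ B) (hc : 0 ≤ c)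
    (hR : 0 ≤ R) (ha : ∀ᶠ N : ℕ in l, 0 ≤ α N ∧ α N * (tot N).toReal ≤ c * (N : ℝ) ^ 2) :
    BF l (gN C E κ α (fun N => (N : ℝ)) v e) (c * B) R := by
  have h0 := sN_eq hl
  have h1 : GamH l sN C (fun N a => E N a * ENNReal.ofReal (e (κ N a))) tot B R := H.congr (h0.mono fun N h => h.symm)
  have h2 := gN_bf (κ := κ) (e := e) (α := α) hv h1 sN_pos hB hc hR (by
    filter_upwards [ha, h0] with N h3 h4
    rw [← h4]
    exact h3)
  refine h2.congr ?_ fun N => gN_meas (ne_of_norm hv) H.ev N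
  filter_upwards [h0] with N h3
  unfold gN
  simp only
  rw [h3]

/-- **`AL1`** on the scale `N` -/
theorem gN_al1n (hl : l ≤ atTop) (hv : ‖v‖ = 1)
    (H : GamH l (fun N => (N : ℝ)) C (fun N a => E N a * ENNReal.ofReal (e (κ N a))) tot B R) (hc : 0 ≤ c)
    (ha : ∀ᶠ N : ℕ in l, 0 ≤ α N ∧ α N * (tot N).toReal ≤ c * (N : ℝ) ^ 2) :
    AL1 l (fun N => lms (fv v (ne_of_norm hv)) (N : ℝ) 0) (gN C E κ α (fun N => (N : ℝ)) v e) := by
  have h0 := sN_eq hl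
  have h1 : GamH l sN C (fun N a => E N a * ENNReal.ofReal (e (κ N a))) tot B R := H.congr (h0.mono fun N h => h.symm)
  have h2 := gN_al1 (κ := κ) (e := e) (α := α) hv h1 sN_pos (sN_tendsto.mono_left hl) hc (by
    filter_upwards [ha, h0] with N h3 h4
    rw [← h4]
    exact h3)
  refine h2.congr ?_
  filter_upwards [h0] with N h3
  refine ⟨?_, ?_⟩
  · unfold gN
    simp only
    rw [h3]
  · rw [h3]

/-- the bound of `gN` from the sup bound of the weights -/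
lemma gN_bd {N : ℕ} {x : ℝ} (hα : 0 ≤ α N) (he : ∀ x, 0 ≤ e x ∧ e x ≤ 1) (hf : ∀ z, gam (C N) (E N) z ≠ ∞)
    (hx : ∀ z, α N * (gam (C N) (E N) z).toReal ≤ x) {s : ℕ → ℝ} (z : ℂ) :
    0 ≤ gN C E κ α s v e N z ∧ gN C E κ α s v e N z ≤ x := by
  unfold gN scl Gm
  refine ⟨mul_nonneg hα ENNReal.toReal_nonneg, le_trans (mul_le_mul_of_nonneg_left ?_ hα) (hx (-(v⁻¹ * ((s N : ℂ) * z))))⟩
  exact ENNReal.toReal_mono (hf _) (gm_mono (mul_e_le (fun x => (he x).2)) _)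

end seq

/-! ### 2. The inputs -/

section main

variable {K1 K2 : Type*} [PseudoEMetricSpace K1] [MeasurableSpace K1] [PseudoEMetricSpace K2] [MeasurableSpace K2]

/-- **the inputs of the limit of the exact product for a class of F3Cls** (`D` = the data of the class, helper71; one lattice, `v` = its
rotation; any weights): `C`, `C'` the connections at the two roots, `RA`, `RB` the rests, `w`, `m` the weight and the pieces of a closed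
word with two roots, `tot`, `tot'` the masses of the pairs of starts at the two roots, `t` the normalisation -/
structure L3In (l : Filter ℕ) (D : CK.Dt) (b : ℝ) (C C' : ℕ → Set (W3 × W3)) (RA RB : ℕ → Set W3)
    (E E' : ℕ → W3 × W3 → ℝ≥0∞) (F G : ℕ → W3 → ℝ≥0∞)
    (w : ℕ → W3 × ℕ → ℝ≥0∞) (m : ℕ → W3 × ℕ → (K1 × K2) × ((C(unitInterval, ℂ) × ℝ) × ((C(unitInterval, ℂ) × ℝ) × ℂ)))
    (κ : ℕ → W3 × W3 → K1) (κ' : ℕ → W3 × W3 → K2) (v : ℂ) (t : ℕ → ℝ) (tot tot' : ℕ → ℝ≥0∞) (c B R c' B' : ℝ)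
    (bA bB : ℕ → FiniteMeasure (C(unitInterval, ℂ) × ℝ)) : Prop where
  ok : D.Ok
  hv : ‖v‖ = 1
  hC : ∀ N : ℕ, C N ⊆ D.C N (uT N)
  hC' : ∀ N : ℕ, C' N ⊆ D.C' N (uT N)
  hA : ∀ N : ℕ, RA N ⊆ D.A N (uT N)
  hB : ∀ N : ℕ, RB N ⊆ D.B N (uT N)
  fE : ∀ N a, E N a ≠ ∞
  fE' : ∀ N a, E' N a ≠ ∞
  fF : ∀ N a, F N a ≠ ∞
  fG : ∀ N a, G N a ≠ ∞
  /-- the closed words of the class have at most `b N ^ (4 / 3)` letters -/
  len : D.len ≤ b
  /-- the weight and the pieces are read from the closed word -/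
  rd : ∀ᶠ N : ℕ in l, Rd (C N) (C' N) (RA N) (RB N) (w N) (m N) (fun a R c S => E N a * E' N c * (F N R * G N S))
    (MM (κ N) (κ' N) (arW v N (uT N)) (arW v N (uT N)) v N)
  t0 : ∀ᶠ N : ℕ in l, 0 < t N
  /-- sup bound, `L1` modulus, support at the first root -/
  hgam : ∀ e : K1 → ℝ, TF e → GamH l (fun N => (N : ℝ)) C (fun N a => E N a * ENNReal.ofReal (e (κ N a))) tot B R
  B0 : 0 ≤ B
  R0 : 0 ≤ R
  c0 : 0 ≤ c
  /-- normalisation at the first root -/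
  ht : ∀ᶠ N : ℕ in l, (tot N).toReal ≤ c * t N
  /-- sup bound at the second root -/
  hsup : ∀ᶠ N : ℕ in l, ∀ z, gam (C' N) (E' N) z ≤ ENNReal.ofReal (B' / (N : ℝ) ^ 2) * tot' N
  f' : ∀ᶠ N : ℕ in l, tot' N ≠ ∞
  B0' : 0 ≤ B'
  c0' : 0 ≤ c'
  /-- normalisation at the second root (helper2, F3Tot) -/
  tt : ∀ᶠ N : ℕ in l, t N * (tot' N).toReal ≤ c' * (N : ℝ) ^ (7 / 6 : ℝ)
  eA : ∀ᶠ N : ℕ in l, (bA N : Measure (C(unitInterval, ℂ) × ℝ)) =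
    bW (RA N) (F N) (ENNReal.ofReal ((N : ℝ) ^ (-(3 / 4) : ℝ))) (arW v N (uT N))
  eB : ∀ᶠ N : ℕ in l, (bB N : Measure (C(unitInterval, ℂ) × ℝ)) =
    bW (RB N) (G N) (ENNReal.ofReal ((N : ℝ) ^ (-(3 / 4) : ℝ))) (arW v N (uT N))

/-- the normalisation of the weights at the first root -/
noncomputable def aP (t : ℕ → ℝ) (N : ℕ) : ℝ := (N : ℝ) ^ 2 / t N

/-- the normalisation of the weights at the second root -/
noncomputable def aQ (t : ℕ → ℝ) (N : ℕ) : ℝ := (N : ℝ) ^ (5 / 6 : ℝ) * t N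

variable {l : Filter ℕ} {D : CK.Dt} {b : ℝ} {C C' : ℕ → Set (W3 × W3)} {RA RB : ℕ → Set W3}
    {E E' : ℕ → W3 × W3 → ℝ≥0∞} {F G : ℕ → W3 → ℝ≥0∞}
    {w : ℕ → W3 × ℕ → ℝ≥0∞} {m : ℕ → W3 × ℕ → (K1 × K2) × ((C(unitInterval, ℂ) × ℝ) × ((C(unitInterval, ℂ) × ℝ) × ℂ))}
    {κ : ℕ → W3 × W3 → K1} {κ' : ℕ → W3 × W3 → K2} {v : ℂ} {t : ℕ → ℝ} {tot tot' : ℕ → ℝ≥0∞} {c B R c' B' : ℝ}
    {bA bB : ℕ → FiniteMeasure (C(unitInterval, ℂ) × ℝ)}

/-- the inputs of the exact identity -/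
theorem L3In.hexIn (hl : l ≤ atTop) (H : L3In l D b C C' RA RB E E' F G w m κ κ' v t tot tot' c B R c' B' bA bB) :
    ∀ᶠ N : ℕ in l, HexIn N b (C N) (C' N) (RA N) (RB N) (E N) (E' N) (F N) (G N) (w N) (m N) (κ N) (κ' N)
      (arW v N (uT N)) (arW v N (uT N)) (fun r => -(r.1 1 - r.1 0)) (fun r => -(r.1 1 - r.1 0)) v N (fv v (ne_of_norm H.hv))
      (ENNReal.ofReal ((N : ℝ) ^ (-(3 / 4) : ℝ))) (ENNReal.ofReal ((N : ℝ) ^ (-(3 / 4) : ℝ))) (aP t N) (aQ t N) := by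
  have ok := H.ok
  filter_upwards [hl (eventually_ge_atTop 1), H.t0, H.rd] with N h1 h2 h4
  have hN := Nat.lt_of_lt_of_le Nat.one_pos h1
  exact hexIn_cls hN h2 ok.P ok.Q ok.y ok.y' ok.z ok.z' ok.dd ok.tt ok.d ok.d' ok.t ok.t' (H.hC N) (H.hC' N) (H.hA N) (H.hB N)
    ok.V ok.V' (H.fE N) (H.fE' N) (H.fF N) (H.fG N)
    (CK.sp_PrH ok hN H.len (H.hC N) (H.hC' N) (H.hA N) (H.hB N) _ _ _ _) h4

/-- the normalisation at the first root -/
lemma L3In.ha (H : L3In l D b C C' RA RB E E' F G w m κ κ' v t tot tot' c B R c' B' bA bB) :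
    ∀ᶠ N : ℕ in l, 0 ≤ aP t N ∧ aP t N * (tot N).toReal ≤ c * (N : ℝ) ^ 2 := by
  filter_upwards [H.t0, H.ht] with N h1 h2
  unfold aP
  refine ⟨by positivity, ?_⟩
  calc (N : ℝ) ^ 2 / t N * (tot N).toReal ≤ (N : ℝ) ^ 2 / t N * (c * t N) := mul_le_mul_of_nonneg_left h2 (by positivity)
    _ = c * (N : ℝ) ^ 2 := by field_simp

/-- the bound of the weights at the second root -/
lemma L3In.bq (hl : l ≤ atTop) (H : L3In l D b C C' RA RB E E' F G w m κ κ' v t tot tot' c B R c' B' bA bB) :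
    ∀ᶠ N : ℕ in l, ∀ z, aQ t N * (gam (C' N) (E' N) z).toReal ≤ c' * B' := by
  filter_upwards [hl (eventually_ge_atTop 1), H.t0, H.hsup, H.tt, H.f'] with N h1 h2 h3 h4 h6 z
  have hN : (0 : ℝ) < N := by exact_mod_cast h1
  have h8 : (gam (C' N) (E' N) z).toReal ≤ B' / (N : ℝ) ^ 2 * (tot' N).toReal := by
    have h9 := ENNReal.toReal_mono (ENNReal.mul_ne_top ENNReal.ofReal_ne_top h6) (h3 z)
    rwa [ENNReal.toReal_mul, ENNReal.toReal_ofReal (div_nonneg H.B0' (by positivity))] at h9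
  have e1 : (N : ℝ) ^ (5 / 6 : ℝ) * (N : ℝ) ^ (7 / 6 : ℝ) = (N : ℝ) ^ 2 := by
    rw [← Real.rpow_add hN, ← Real.rpow_natCast]
    norm_num
  calc aQ t N * (gam (C' N) (E' N) z).toReal
      ≤ (N : ℝ) ^ (5 / 6 : ℝ) * t N * (B' / (N : ℝ) ^ 2 * (tot' N).toReal) :=
        mul_le_mul_of_nonneg_left h8 (by unfold aQ; positivity)
    _ = (N : ℝ) ^ (5 / 6 : ℝ) * (B' / (N : ℝ) ^ 2) * (t N * (tot' N).toReal) := by ring
    _ ≤ (N : ℝ) ^ (5 / 6 : ℝ) * (B' / (N : ℝ) ^ 2) * (c' * (N : ℝ) ^ (7 / 6 : ℝ)) :=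
        mul_le_mul_of_nonneg_left h4 (mul_nonneg (by positivity) (div_nonneg H.B0' (by positivity)))
    _ = c' * B' / (N : ℝ) ^ 2 * ((N : ℝ) ^ (5 / 6 : ℝ) * (N : ℝ) ^ (7 / 6 : ℝ)) := by ring
    _ = c' * B' := by
        rw [e1]
        field_simp

lemma L3In.ev' (H : L3In l D b C C' RA RB E E' F G w m κ κ' v t tot tot' c B R c' B' bA bB) :
    ∀ N, ∀ a ∈ C' N, Even a.1.length ∧ Even a.2.length := by
  intro N a hx
  obtain ⟨i, j, h⟩ := H.hC' N hx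
  exact ⟨h.p1.tip.ev, h.p2.tip.ev⟩

/-! ### 3. The hypotheses of `l3_base`, `l3_fin` (helper15) -/

/-- **`hinv`** -/
theorem L3In.hinv (hl : l ≤ atTop) (H : L3In l D b C C' RA RB E E' F G w m κ κ' v t tot tot' c B R c' B' bA bB) :
    ∀ᶠ N : ℕ in l, ∀ᵐ a ∂(bA N : Measure (C(unitInterval, ℂ) × ℝ)), ∀ᵐ b ∂(bB N : Measure (C(unitInterval, ℂ) × ℝ)),
      (lms (fv v (ne_of_norm H.hv)) (N : ℝ) 0).map (fun z => z + ((fun r : C(unitInterval, ℂ) × ℝ => -(r.1 1 - r.1 0)) a -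
        (fun r : C(unitInterval, ℂ) × ℝ => -(r.1 1 - r.1 0)) b)) = lms (fv v (ne_of_norm H.hv)) (N : ℝ) 0 := by
  filter_upwards [hl (eventually_ge_atTop 1), H.eA, H.eB] with N h1 h2 h3
  rw [h2, h3]
  exact hinv_words (ne_of_norm H.hv) (by exact_mod_cast h1) (fun R hR => (H.hA N hR).ev) fun R hR => (H.hB N hR).ev

/-- **`hg`** -/
theorem L3In.hg (hl : l ≤ atTop) (H : L3In l D b C C' RA RB E E' F G w m κ κ' v t tot tot' c B R c' B' bA bB) :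
    ∀ e : K1 → ℝ, TF e → BF l (gN C E κ (aP t) (fun N => (N : ℝ)) v e) (c * B) R :=
  fun e he => gN_bfn hl H.hv (H.hgam e he) H.B0 H.c0 H.R0 H.ha

/-- **`hg1`** -/
theorem L3In.hg1 (hl : l ≤ atTop) (H : L3In l D b C C' RA RB E E' F G w m κ κ' v t tot tot' c B R c' B' bA bB) :
    ∀ e : K1 → ℝ, TF e → AL1 l (fun N => lms (fv v (ne_of_norm H.hv)) (N : ℝ) 0) (gN C E κ (aP t) (fun N => (N : ℝ)) v e) :=
  fun e he => gN_al1n hl H.hv (H.hgam e he) H.c0 H.ha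

/-- **`hh`** -/
theorem L3In.hh (H : L3In l D b C C' RA RB E E' F G w m κ κ' v t tot tot' c B R c' B' bA bB) :
    ∀ e : K2 → ℝ, TF e → ∀ N, Measurable (gN C' E' κ' (aQ t) (fun N => (N : ℝ)) v e N) :=
  fun _ _ N => gN_meas (ne_of_norm H.hv) H.ev' N

/-- **`hhb`** -/
theorem L3In.hhb (hl : l ≤ atTop) (H : L3In l D b C C' RA RB E E' F G w m κ κ' v t tot tot' c B R c' B' bA bB) :
    ∀ e : K2 → ℝ, TF e → ∀ᶠ N in l, ∀ z, 0 ≤ gN C' E' κ' (aQ t) (fun N => (N : ℝ)) v e N z ∧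
      gN C' E' κ' (aQ t) (fun N => (N : ℝ)) v e N z ≤ c' * B' := by
  intro e he
  filter_upwards [H.bq hl, H.t0] with N h1 h2 z
  exact gN_bd (by unfold aQ; positivity) he.2 (ENNReal.ne_top_of_tsum_ne_top (gam_fin_cls (H.hC' N) (H.fE' N))) h1 z

/-- **`hex`** -/
theorem L3In.hex [BorelSpace K1] [BorelSpace K2] (hl : l ≤ atTop)
    (H : L3In l D b C C' RA RB E E' F G w m κ κ' v t tot tot' c B R c' B' bA bB)
    {X : Set ((C(unitInterval, ℂ) × ℝ) × ((C(unitInterval, ℂ) × ℝ) × ℂ))}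
    (hX : ∀ p ∈ X, ∀ x y : unitInterval, p.1.1 x ≠ p.2.1.1 y + p.2.2) :
    ∀ (e : K1 → ℝ) (e' : K2 → ℝ) (u s : C(unitInterval, ℂ) × ℝ → ℝ) (ω : ℂ → ℝ), TF e → TF e' → TF u → TF s → TF ω →
      Mar X u s ω → Tendsto (fun N => (∫ x, e x.1.1 * e' x.1.2 * (u x.2.1 * (s x.2.2.1 * ω x.2.2.2)) ∂(rhoN N b (w N) (m N))) -
        ∫ p, u p.1 * (s p.2.1 * ω p.2.2) * gN C E κ (aP t) (fun N => (N : ℝ)) v e N p.2.2 *
          gN C' E' κ' (aQ t) (fun N => (N : ℝ)) v e' N (p.2.2 + ((fun r : C(unitInterval, ℂ) × ℝ => -(r.1 1 - r.1 0)) p.1 -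
            (fun r : C(unitInterval, ℂ) × ℝ => -(r.1 1 - r.1 0)) p.2.1))
          ∂((bA N : Measure (C(unitInterval, ℂ) × ℝ)).prod
            ((bB N : Measure (C(unitInterval, ℂ) × ℝ)).prod (lms (fv v (ne_of_norm H.hv)) (N : ℝ) 0)))) l (𝓝 0) := by
  intro e e' u s ω he he' hu hs hω hM
  refine hex_fam (b := fun _ => b) (H.hexIn hl) ?_ H.eA H.eB hX e e' u s ω he he' hu hs hω hM
  filter_upwards with N z hz
  exact lat_cls (ne_of_norm H.hv) (H.hC' N) z hz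

section lim

variable [BorelSpace K1] [StandardBorelSpace K1] [Nonempty K1] [BorelSpace K2] [StandardBorelSpace K2] [Nonempty K2]

/-- **THE LIMIT OF THE EXACT PRODUCT FOR THE CLASSES**: `ρ` = a limit of the laws of the pieces of the closed words with two roots,
`b1`, `b2` = the limits of the laws of the rests; on the open set `X` (the rests are disjoint) `ρ` has the product form -/
theorem l3_cls {U : Ultrafilter ℕ} (hU : (U : Filter ℕ) ≤ atTop)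
    (H : L3In (U : Filter ℕ) D b C C' RA RB E E' F G w m κ κ' v t tot tot' c B R c' B' bA bB)
    {b1 b2 : FiniteMeasure (C(unitInterval, ℂ) × ℝ)} (tA : Tendsto bA U (𝓝 b1)) (tB : Tendsto bB U (𝓝 b2)) (n1 : b1 ≠ 0)
    (n2 : b2 ≠ 0) {ρ : Measure ((K1 × K2) × ((C(unitInterval, ℂ) × ℝ) × ((C(unitInterval, ℂ) × ℝ) × ℂ)))} [IsFiniteMeasure ρ]
    {X : Set ((C(unitInterval, ℂ) × ℝ) × ((C(unitInterval, ℂ) × ℝ) × ℂ))} (hX : IsOpen X)
    (hXs : ∀ p ∈ X, ∀ x y : unitInterval, p.1.1 x ≠ p.2.1.1 y + p.2.2)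
    (hlim : ∀ (e : K1 → ℝ) (e' : K2 → ℝ) (u s : C(unitInterval, ℂ) × ℝ → ℝ) (ω : ℂ → ℝ), TF e → TF e' → TF u → TF s → TF ω →
      Mar X u s ω → Tendsto (fun N => ∫ x, e x.1.1 * e' x.1.2 * (u x.2.1 * (s x.2.2.1 * ω x.2.2.2)) ∂(rhoN N b (w N) (m N)))
        U (𝓝 (∫ x, e x.1.1 * e' x.1.2 * (u x.2.1 * (s x.2.2.1 * ω x.2.2.2)) ∂ρ))) :
    ∃ (g1 h1 : ℂ → ℝ) (k1 : Kernel ℂ K1) (k2 : Kernel ℂ K2),
      L3Out (U : Filter ℕ) (fun N => lms (fv v (ne_of_norm H.hv)) (N : ℝ) 0)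
        |LinearMap.det (fv v (ne_of_norm H.hv) : ℂ →ₗ[ℝ] ℂ)|⁻¹ (gN C E κ (aP t) (fun N => (N : ℝ)) v fun _ => 1)
        (gN C' E' κ' (aQ t) (fun N => (N : ℝ)) v fun _ => 1) (c * B) R (c' * B') ρ
        ((b1 : Measure (C(unitInterval, ℂ) × ℝ)).prod ((b2 : Measure (C(unitInterval, ℂ) × ℝ)).prod volume)) X
        (fun r => -(r.1 1 - r.1 0)) (fun r => -(r.1 1 - r.1 0)) g1 h1 k1 k2 :=
  l3_fin (g := gN C E κ (aP t) (fun N => (N : ℝ)) v) (h := gN C' E' κ' (aQ t) (fun N => (N : ℝ)) v)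
    tA tB n1 n2 (lms_LMn hU _) (by fun_prop) (by fun_prop) (H.hinv hU) (H.hg hU) (H.hg1 hU) H.hh (mul_nonneg H.c0' H.B0')
    (H.hhb hU) hX hlim (H.hex hU hXs)

end lim

/-! ### 4. Lower bounds of the weights pass to the limit -/

/-- almost everywhere for the lattice measures -/
lemma lms_ae {f : ℂ ≃ₗ[ℝ] ℂ} {s : ℝ} {t : ℂ} {p : ℂ → Prop} (h : ∀ q : ℤ × ℤ, p (lpt f s t q)) : ∀ᵐ z ∂(lms f s t), p z := by
  unfold lms
  rw [Measure.ae_sum_iff]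
  intro q
  refine Measure.ae_smul_measure ?_ _
  rw [ae_dirac_eq]
  exact h q

/-- **lower bounds of the weights of the connections on a cell pass to the limit** -/
theorem gN_low {K : Type*} {l : Filter ℕ} [NeBot l] {C : ℕ → Set (W3 × W3)} {E : ℕ → W3 × W3 → ℝ≥0∞} {κ : ℕ → W3 × W3 → K}
    {α : ℕ → ℝ} {e : K → ℝ} {v : ℂ} (hl : l ≤ atTop) (hv : ‖v‖ = 1)
    (hC : ∀ N, ∀ a ∈ C N, Even a.1.length ∧ Even a.2.length) {x x0 : ℝ}
    (hb : ∀ᶠ N in l, ∀ z, 0 ≤ gN C E κ α (fun N => (N : ℝ)) v e N z ∧ gN C E κ α (fun N => (N : ℝ)) v e N z ≤ x) {g1 : ℂ → ℝ}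
    (gm : Measurable g1) (gb : ∀ z, 0 ≤ g1 z ∧ g1 z ≤ x)
    (gv : VL l (fun N => lms (fv v (ne_of_norm hv)) (N : ℝ) 0)
      |LinearMap.det (fv v (ne_of_norm hv) : ℂ →ₗ[ℝ] ℂ)|⁻¹ (gN C E κ α (fun N => (N : ℝ)) v e) g1) {O : Set ℂ} (hO : IsOpen O)
    (h : ∀ᶠ N : ℕ in l, ∀ z ∈ EL, (((N : ℝ)⁻¹ : ℝ) : ℂ) * -(v * z) ∈ O →
      x0 ≤ α N * (gam (C N) (fun a => E N a * ENNReal.ofReal (e (κ N a))) z).toReal) :
    ∀ᵐ z ∂(volume : Measure ℂ), z ∈ O → x0 ≤ g1 z := by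
  have hv0 := ne_of_norm hv
  refine low_of_vag (C' := max x x0) (lms_LMn hl _) (gN_meas hv0 hC) ?_ gm
    (fun z => ⟨(gb z).1, (gb z).2.trans (le_max_left _ _)⟩) gv hO (le_max_right _ _) ?_
  · filter_upwards [hb] with N h1 z
    exact ⟨(h1 z).1, (h1 z).2.trans (le_max_left _ _)⟩
  · filter_upwards [hl (eventually_ge_atTop 1), h] with N h1 h2
    have hN : (N : ℂ) ≠ 0 := by
      have : (0 : ℝ) < N := by exact_mod_cast h1
      exact_mod_cast this.ne'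
    refine lms_ae fun q hq => ?_
    have e1 : (((N : ℝ)⁻¹ : ℝ) : ℂ) * -(v * -(fE ⟨q.1, q.2⟩)) = lpt (fv v hv0) N 0 q := by
      unfold lpt
      rw [fv_apply]
      ring
    have hq' : -(fE ⟨q.1, q.2⟩) ∈ EL := by
      refine EL_neg ?_
      rw [← lat_fE]
      exact ⟨q, rfl⟩
    have h3 := h2 _ hq' (by rw [e1]; exact hq)
    unfold gN scl Gm
    have e2 : -(v⁻¹ * (((N : ℝ) : ℂ) * lpt (fv v hv0) N 0 q)) = -(fE ⟨q.1, q.2⟩) := by
      rw [← e1]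
      push_cast
      field_simp
    rw [e2]
    exact h3

/-- **the density at the first root is positive where the weights of the connections are not small** -/
theorem L3In.low_p {U : Ultrafilter ℕ} (hU : (U : Filter ℕ) ≤ atTop)
    (H : L3In (U : Filter ℕ) D b C C' RA RB E E' F G w m κ κ' v t tot tot' c B R c' B' bA bB)
    {g1 : ℂ → ℝ} (gm : Measurable g1) (gb : ∀ z, 0 ≤ g1 z ∧ g1 z ≤ c * B)
    (gv : VL (U : Filter ℕ) (fun N => lms (fv v (ne_of_norm H.hv)) (N : ℝ) 0)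
      |LinearMap.det (fv v (ne_of_norm H.hv) : ℂ →ₗ[ℝ] ℂ)|⁻¹ (gN C E κ (aP t) (fun N => (N : ℝ)) v fun _ => 1) g1) {O : Set ℂ}
    (hO : IsOpen O) {x0 c0 : ℝ} (hx : 0 ≤ x0) (ht : ∀ᶠ N : ℕ in (U : Filter ℕ), c0 * t N ≤ (tot N).toReal)
    (h : ∀ᶠ N : ℕ in (U : Filter ℕ), ∀ z ∈ EL, (((N : ℝ)⁻¹ : ℝ) : ℂ) * -(v * z) ∈ O →
      ENNReal.ofReal (x0 / (N : ℝ) ^ 2) * tot N ≤ gam (C N) (E N) z) :
    ∀ᵐ z ∂(volume : Measure ℂ), z ∈ O → x0 * c0 ≤ g1 z := by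
  have G1 := H.hgam _ TF.one
  refine gN_low hU H.hv G1.ev (H.hg hU _ TF.one).bd gm gb gv hO ?_
  filter_upwards [hU (eventually_ge_atTop 1), H.t0, h, ht] with N h1 h2 h3 h5 z hz hzO
  have hN : (0 : ℝ) < N := by exact_mod_cast h1
  have h4 := ENNReal.toReal_mono (ENNReal.ne_top_of_tsum_ne_top (gam_fin_cls (H.hC N) (H.fE N)) z) (h3 z hz hzO)
  rw [ENNReal.toReal_mul, ENNReal.toReal_ofReal (div_nonneg hx (by positivity))] at h4
  have e1 : (fun a => E N a * ENNReal.ofReal 1) = E N := by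
    funext a
    rw [ENNReal.ofReal_one, mul_one]
  rw [e1]
  calc x0 * c0 = aP t N * (x0 / (N : ℝ) ^ 2) * (c0 * t N) := by
        unfold aP
        field_simp
    _ ≤ aP t N * (x0 / (N : ℝ) ^ 2) * (tot N).toReal :=
        mul_le_mul_of_nonneg_left h5 (mul_nonneg (by unfold aP; positivity) (div_nonneg hx (by positivity)))
    _ = aP t N * (x0 / (N : ℝ) ^ 2 * (tot N).toReal) := by ring
    _ ≤ aP t N * (gam (C N) (E N) z).toReal := mul_le_mul_of_nonneg_left h4 (by unfold aP; positivity)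

/-- **the density at the second root** -/
theorem L3In.low_q {U : Ultrafilter ℕ} (hU : (U : Filter ℕ) ≤ atTop)
    (H : L3In (U : Filter ℕ) D b C C' RA RB E E' F G w m κ κ' v t tot tot' c B R c' B' bA bB)
    {h1 : ℂ → ℝ} (gm : Measurable h1) (gb : ∀ z, 0 ≤ h1 z ∧ h1 z ≤ c' * B')
    (gv : VL (U : Filter ℕ) (fun N => lms (fv v (ne_of_norm H.hv)) (N : ℝ) 0)
      |LinearMap.det (fv v (ne_of_norm H.hv) : ℂ →ₗ[ℝ] ℂ)|⁻¹ (gN C' E' κ' (aQ t) (fun N => (N : ℝ)) v fun _ => 1) h1) {O : Set ℂ}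
    (hO : IsOpen O) {x0 c0 : ℝ} (hx : 0 ≤ x0)
    (ht : ∀ᶠ N : ℕ in (U : Filter ℕ), c0 * (N : ℝ) ^ (7 / 6 : ℝ) ≤ t N * (tot' N).toReal)
    (h : ∀ᶠ N : ℕ in (U : Filter ℕ), ∀ z ∈ EL, (((N : ℝ)⁻¹ : ℝ) : ℂ) * -(v * z) ∈ O →
      ENNReal.ofReal (x0 / (N : ℝ) ^ 2) * tot' N ≤ gam (C' N) (E' N) z) :
    ∀ᵐ z ∂(volume : Measure ℂ), z ∈ O → x0 * c0 ≤ h1 z := by
  refine gN_low hU H.hv H.ev' (H.hhb hU _ TF.one) gm gb gv hO ?_
  filter_upwards [hU (eventually_ge_atTop 1), H.t0, h, ht] with N k1 k2 k3 k7 z hz hzO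
  have hN : (0 : ℝ) < N := by exact_mod_cast k1
  have k8 := ENNReal.toReal_mono (ENNReal.ne_top_of_tsum_ne_top (gam_fin_cls (H.hC' N) (H.fE' N)) z) (k3 z hz hzO)
  rw [ENNReal.toReal_mul, ENNReal.toReal_ofReal (div_nonneg hx (by positivity))] at k8
  have e1 : (fun a => E' N a * ENNReal.ofReal 1) = E' N := by
    funext a
    rw [ENNReal.ofReal_one, mul_one]
  have e2 : (N : ℝ) ^ (5 / 6 : ℝ) * (N : ℝ) ^ (7 / 6 : ℝ) = (N : ℝ) ^ 2 := by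
    rw [← Real.rpow_add hN, ← Real.rpow_natCast]
    norm_num
  rw [e1]
  calc x0 * c0 = x0 * c0 / (N : ℝ) ^ 2 * ((N : ℝ) ^ (5 / 6 : ℝ) * (N : ℝ) ^ (7 / 6 : ℝ)) := by
        rw [e2]
        field_simp
    _ = (N : ℝ) ^ (5 / 6 : ℝ) * (x0 / (N : ℝ) ^ 2) * (c0 * (N : ℝ) ^ (7 / 6 : ℝ)) := by ring
    _ ≤ (N : ℝ) ^ (5 / 6 : ℝ) * (x0 / (N : ℝ) ^ 2) * (t N * (tot' N).toReal) :=
        mul_le_mul_of_nonneg_left k7 (mul_nonneg (by positivity) (div_nonneg hx (by positivity)))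
    _ = aQ t N * (x0 / (N : ℝ) ^ 2 * (tot' N).toReal) := by
        unfold aQ
        ring
    _ ≤ aQ t N * (gam (C' N) (E' N) z).toReal := mul_le_mul_of_nonneg_left k8 (by unfold aQ; positivity)

end main

end Pool.Agent.ROT.F3
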