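import Pool.Agent.ROT.F3CoreB
import Pool.Agent.ROT.F3HexL
import Pool.Agent.ROT.F3Ins
import Pool.Agent.ROT.F3CoreC

/-!
# ROT, F3, row Core (helper17): from the lattice inputs of the classes to the fields of `PairIn`

* **`lev_of`** : `LevIn` from the inputs `L3In` (helper55) at all pairs of levels;
* `dd_apart` : in `DD` the curves are disjoint;
* **`zero_of`** : the fields `d0` and `hp` (first lattice) from `L3In` and lower bounds of the weights on the cells.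
-/

set_option autoImplicit false
set_option linter.unusedSectionVars false

open MeasureTheory Set Filter Topology ProbabilityTheory

open scoped ENNReal Classical

namespace Pool.Agent.ROT.F3

open Pool.Agent.ROT.F3.CC Pool.Agent.ROT.F3L

section lev

variable {Kp Kq : Type*} [PseudoEMetricSpace Kp] [MeasurableSpace Kp] [BorelSpace Kp] [StandardBorelSpace Kp] [Nonempty Kp]
  [SecondCountableTopology Kp]
  [PseudoEMetricSpace Kq] [MeasurableSpace Kq] [BorelSpace Kq] [StandardBorelSpace Kq] [Nonempty Kq]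
  [SecondCountableTopology Kq]

/-- **the lattice data at all pairs of levels** `(i, j)` (`i` = level at the first root, `j` = level at the second root) -/
theorem lev_of {U : Ultrafilter ℕ} (hU : (U : Filter ℕ) ≤ atTop) {D : ℕ → ℕ → CK.Dt} {b : ℝ}
    {C C' : ℕ → ℕ → Set (W3 × W3)} {RA RB : ℕ → Set W3} {E E' : ℕ → ℕ → W3 × W3 → ℝ≥0∞} {F G : ℕ → W3 → ℝ≥0∞}
    {w : ℕ → ℕ → ℕ → W3 × ℕ → ℝ≥0∞} {m : ℕ → ℕ → ℕ → W3 × ℕ → (Kp × Kq) × (Pie × (Pie × ℂ))}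
    {κ : ℕ → ℕ → W3 × W3 → Kp} {κ' : ℕ → ℕ → W3 × W3 → Kq} {v : ℂ} {t : ℕ → ℝ} {tot tot' : ℕ → ℕ → ℝ≥0∞}
    {c B R c' B' : ℕ → ℝ} {bA bB : ℕ → FiniteMeasure Pie} (hv : ‖v‖ = 1)
    (H : ∀ i j, L3In (U : Filter ℕ) (D i j) b (C i) (C' j) RA RB (E i) (E' j) F G (w i j) (m i j) (κ i) (κ' j) v t (tot i)
      (tot' j) (c i) (B i) (R i) (c' j) (B' j) bA bB)
    {b1 b2 : FiniteMeasure Pie} (tA : Tendsto bA U (𝓝 b1)) (tB : Tendsto bB U (𝓝 b2)) (n1 : b1 ≠ 0) (n2 : b2 ≠ 0)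
    {ρ : ℕ → ℕ → Measure ((Kp × Kq) × (Pie × (Pie × ℂ)))} (fin : ∀ i j, IsFiniteMeasure (ρ i j))
    {X : Set (Pie × (Pie × ℂ))} (hX : IsOpen X) (hXs : ∀ p ∈ X, ∀ x y : unitInterval, p.1.1 x ≠ p.2.1.1 y + p.2.2)
    (hlim : ∀ (i j : ℕ) (e : Kp → ℝ) (e' : Kq → ℝ) (u s : Pie → ℝ) (ω : ℂ → ℝ), TF e → TF e' → TF u → TF s → TF ω →
      Mar X u s ω → Tendsto (fun N => ∫ x, e x.1.1 * e' x.1.2 * (u x.2.1 * (s x.2.2.1 * ω x.2.2.2))
        ∂(rhoN N b (w i j N) (m i j N))) U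
        (𝓝 (∫ x, e x.1.1 * e' x.1.2 * (u x.2.1 * (s x.2.2.1 * ω x.2.2.2)) ∂(ρ i j)))) :
    LevIn U bA b1 bB b2 (fun N => lms (fv v (ne_of_norm hv)) (N : ℝ) 0)
      |LinearMap.det (fv v (ne_of_norm hv) : ℂ →ₗ[ℝ] ℂ)|⁻¹ yP yP (fun i => c i * B i) R (fun j => c' j * B' j)
      (fun i => gN (C i) (E i) (κ i) (aP t) (fun N => (N : ℝ)) v)
      (fun j => gN (C' j) (E' j) (κ' j) (aQ t) (fun N => (N : ℝ)) v)
      (fun i j N => rhoN N b (w i j N) (m i j N)) ρ X where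
  hA := tA
  hB := tB
  n1 := n1
  n2 := n2
  hm := lms_LMn hU _
  hyA := dsp_cont.neg
  hyB := dsp_cont.neg
  hinv := (H 0 0).hinv hU
  bf := fun i => (H i 0).hg hU
  al := fun i => (H i 0).hg1 hU
  mh := fun j => (H 0 j).hh
  hC' := fun j => mul_nonneg (H 0 j).c0' (H 0 j).B0'
  hb := fun j => (H 0 j).hhb hU
  hD := hX
  fin := fin
  hlim := hlim
  hex := fun i j => (H i j).hex hU hXs

end lev

/-! ### The first lattice -/

/-- in `DD` the curves are disjoint -/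
lemma dd_apart {Z W : Set ℂ} : ∀ p ∈ DD (Prod.fst : Pie → C(unitInterval, ℂ)) (Prod.fst : Pie → C(unitInterval, ℂ)) yP yP Z W,
    ∀ x y : unitInterval, p.1.1 x ≠ p.2.1.1 y + p.2.2 := fun _ hp x y => hp.1 x y

lemma ddP_open {Z W : Set ℂ} (hZ : IsOpen Z) (hW : IsOpen W) :
    IsOpen (DD (Prod.fst : Pie → C(unitInterval, ℂ)) (Prod.fst : Pie → C(unitInterval, ℂ)) yP yP Z W) :=
  dd_open continuous_fst continuous_fst dsp_cont.neg dsp_cont.neg hZ hW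

section zero

variable {K1 K2 : Type*} [PseudoEMetricSpace K1] [MeasurableSpace K1] [BorelSpace K1] [StandardBorelSpace K1] [Nonempty K1]
  [PseudoEMetricSpace K2] [MeasurableSpace K2] [BorelSpace K2] [StandardBorelSpace K2] [Nonempty K2]

/-- **the first lattice** : density and positivity -/
theorem zero_of {U : Ultrafilter ℕ} (hU : (U : Filter ℕ) ≤ atTop) {D : CK.Dt} {b : ℝ} {C C' : ℕ → Set (W3 × W3)}
    {RA RB : ℕ → Set W3} {E E' : ℕ → W3 × W3 → ℝ≥0∞} {F G : ℕ → W3 → ℝ≥0∞} {w : ℕ → W3 × ℕ → ℝ≥0∞}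
    {m : ℕ → W3 × ℕ → (K1 × K2) × (Pie × (Pie × ℂ))} {κ : ℕ → W3 × W3 → K1} {κ' : ℕ → W3 × W3 → K2} {v : ℂ} {t : ℕ → ℝ}
    {tot tot' : ℕ → ℝ≥0∞} {c B R c' B' : ℝ} {bA bB : ℕ → FiniteMeasure Pie}
    (H : L3In (U : Filter ℕ) D b C C' RA RB E E' F G w m κ κ' v t tot tot' c B R c' B' bA bB)
    {b1 b2 : FiniteMeasure Pie} (tA : Tendsto bA U (𝓝 b1)) (tB : Tendsto bB U (𝓝 b2)) (n1 : b1 ≠ 0) (n2 : b2 ≠ 0)
    {ρ : Measure ((K1 × K2) × (Pie × (Pie × ℂ)))} [IsFiniteMeasure ρ] {Z0 W0 : Set ℂ} (oZ : IsOpen Z0) (oW : IsOpen W0)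
    (hlim : ∀ (e : K1 → ℝ) (e' : K2 → ℝ) (u s : Pie → ℝ) (ω : ℂ → ℝ), TF e → TF e' → TF u → TF s → TF ω →
      Mar (DD Prod.fst Prod.fst yP yP Z0 W0) u s ω →
        Tendsto (fun N => ∫ x, e x.1.1 * e' x.1.2 * (u x.2.1 * (s x.2.2.1 * ω x.2.2.2)) ∂(rhoN N b (w N) (m N)))
          U (𝓝 (∫ x, e x.1.1 * e' x.1.2 * (u x.2.1 * (s x.2.2.1 * ω x.2.2.2)) ∂ρ)))
    {x0 c0 x1 c1 : ℝ} (hx0 : 0 < x0) (hc0 : 0 < c0) (hx1 : 0 < x1) (hc1 : 0 < c1)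
    (ht : ∀ᶠ N : ℕ in (U : Filter ℕ), c0 * t N ≤ (tot N).toReal)
    (hp : ∀ᶠ N : ℕ in (U : Filter ℕ), ∀ z ∈ EL, (((N : ℝ)⁻¹ : ℝ) : ℂ) * -(v * z) ∈ Z0 →
      ENNReal.ofReal (x0 / (N : ℝ) ^ 2) * tot N ≤ gam (C N) (E N) z)
    (ht' : ∀ᶠ N : ℕ in (U : Filter ℕ), c1 * (N : ℝ) ^ (7 / 6 : ℝ) ≤ t N * (tot' N).toReal)
    (hq : ∀ᶠ N : ℕ in (U : Filter ℕ), ∀ z ∈ EL, (((N : ℝ)⁻¹ : ℝ) : ℂ) * -(v * z) ∈ W0 →
      ENNReal.ofReal (x1 / (N : ℝ) ^ 2) * tot' N ≤ gam (C' N) (E' N) z) :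
    Den ρ ((b1 : Measure Pie).prod ((b2 : Measure Pie).prod volume)) (DD Prod.fst Prod.fst yP yP Z0 W0) (zw yP yP)
      (fun _ => 1) ∧
    ((b1 : Measure Pie).prod ((b2 : Measure Pie).prod volume)).restrict (DD Prod.fst Prod.fst yP yP Z0 W0) ≪
      ρ.map Prod.snd := by
  obtain ⟨g1, h1, k1, k2, o⟩ := l3_cls hU H tA tB n1 n2 (ddP_open oZ oW) dd_apart hlim
  refine ⟨o.dens measurable_const, ?_⟩
  refine o.pos (lms_LMn hU (fv v (ne_of_norm H.hv))).pos dsp_cont.neg.measurable dsp_cont.neg.measurable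
    (ddP_open oZ oW).measurableSet (fun x hx => hx.2) ?_ ?_
  · filter_upwards [H.low_p hU o.gm o.gb o.gv oZ hx0.le ht hp] with z hz hzZ
    exact lt_of_lt_of_le (mul_pos hx0 hc0) (hz hzZ)
  · filter_upwards [H.low_q hU o.hm o.hb o.hv oW hx1.le ht' hq] with z hz hzW
    exact lt_of_lt_of_le (mul_pos hx1 hc1) (hz hzW)

end zero

end Pool.Agent.ROT.F3
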