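import Pool.Agent.ROT.F3W7d
import Pool.Agent.ROT.F3ClsG

/-!
# ROT, F3, row W7 (helper63): `Fill` for the limit laws of F3Cls

* `WLim.limsup_le` : closed sets; `Fill.map`, `Fill.mono` ;
* **`fill_rst`** : `Fill` for the weak limit of the laws of the rests `Rst` (turned by `v`).
-/

set_option autoImplicit false

open MeasureTheory Filter Topology Set ComplexConjugate
open scoped ENNReal NNReal BoundedContinuousFunction

namespace Pool.Agent.ROT.F3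

/-- **portmanteau, closed sets** -/
theorem WLim.limsup_le {X ι : Type*} [PseudoMetricSpace X] [MeasurableSpace X] [OpensMeasurableSpace X] {l : Filter ι}
    [l.NeBot] {b : ι → Measure X} {β : Measure X} (h : WLim l b β) {C : Set X} (hC : IsClosed C) :
    limsup (fun N => b N C) l ≤ β C := by
  have := h.fβ
  have hd : ∀ n : ℕ, (0 : ℝ) < 1 / ((n : ℝ) + 1) := fun n => by positivity
  have h1 : Tendsto (fun n : ℕ => ∫⁻ x, (thickenedIndicator (hd n) C x : ℝ≥0∞) ∂β) atTop (𝓝 (β C)) :=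
    tendsto_lintegral_thickenedIndicator_of_isClosed β hC hd tendsto_one_div_add_atTop_nhds_zero_nat
  refine ge_of_tendsto' h1 fun n => ?_
  obtain ⟨f, hf⟩ : ∃ f : X → ℝ, f = fun x => (thickenedIndicator (hd n) C x : ℝ) := ⟨_, rfl⟩
  have f01 : ∀ x, 0 ≤ f x ∧ f x ≤ 1 := fun x => by
    rw [hf]
    exact ⟨NNReal.coe_nonneg _, by exact_mod_cast thickenedIndicator_le_one (hd n) C x⟩
  have fL : ∃ K : ℝ≥0, LipschitzWith K f := by
    refine ⟨(1 / ((n : ℝ) + 1)).toNNReal⁻¹, LipschitzWith.of_dist_le_mul fun x y => ?_⟩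
    rw [hf]
    exact (lipschitzWith_thickenedIndicator (hd n) C).dist_le_mul x y
  obtain ⟨K, hK⟩ := fL
  have key : ∀ m : Measure X, IsFiniteMeasure m →
      ∫⁻ x, (thickenedIndicator (hd n) C x : ℝ≥0∞) ∂m = ENNReal.ofReal (∫ x, f x ∂m) := by
    intro m hm
    rw [ofReal_integral_eq_lintegral_ofReal
      (Integrable.of_bound hK.continuous.aestronglyMeasurable 1 (ae_of_all _ fun x => by
        rw [Real.norm_eq_abs, abs_le]
        constructor <;> linarith [(f01 x).1, (f01 x).2])) (ae_of_all _ fun x => (f01 x).1)]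
    refine lintegral_congr fun x => ?_
    rw [hf]
    exact (ENNReal.ofReal_coe_nnreal).symm
  rw [key β inferInstance]
  have h2 : Tendsto (fun N => ENNReal.ofReal (∫ x, f x ∂(b N))) l (𝓝 (ENNReal.ofReal (∫ x, f x ∂β))) :=
    (ENNReal.continuous_ofReal.tendsto _).comp (h.lim f f01 ⟨K, hK⟩)
  rw [← h2.limsup_eq]
  refine limsup_le_limsup (h.fb.mono fun N hN => ?_)
  show b N C ≤ ENNReal.ofReal (∫ x, f x ∂(b N))
  rw [← key (b N) hN]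
  exact measure_le_lintegral_thickenedIndicator (b N) hC.measurableSet (hd n)

lemma rm_set (c : ℝ≥0∞) (s t : ℝ) (Rs : Set W3) (w : W3 → ℝ) {A : Set (CI3 × ℝ)} (hA : MeasurableSet A) :
    rm c s t Rs w A = c * ms Rs fun R => ENNReal.ofReal (w R) * (cr s t ⁻¹' A).indicator 1 R := by
  rw [← lintegral_indicator_one hA, rm_lint c s t Rs (measurable_one.indicator hA)]
  rfl

namespace Ln

/-- images -/
theorem Fill.map {X Y : Type*} [MeasurableSpace X] [MeasurableSpace Y] {φ : X → Y} (hφ : Measurable φ) {κ : ℂ}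
    {g : Y → C(unitInterval, ℂ)} (hg : Measurable g) {y : Y → ℂ} (hy : Measurable y) {β : Measure X} {ω0 ω1 : ℤ × ℤ} {H : ℕ}
    {μ0 eps R0 R1 : ℝ} {V : Set (ℝ × ℝ)} (h : Fill κ (g ∘ φ) (y ∘ φ) β ω0 ω1 H μ0 eps R0 R1 V) :
    Fill κ g y (β.map φ) ω0 ω1 H μ0 eps R0 R1 V := by
  intro M x0 x1 s s' μ η δ ζ e h1 h2 h3 h4 h5 h6
  have h7 := h M x0 x1 s s' μ η δ ζ e h1 h2 h3 h4 h5 h6
  have hm := inn_meas hg (κ * JR ζ) (amb_closed κ δ (HexObs.ROT.F3L.KS μ M x0 x1 ω0 ω1 s s'))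
  rw [Measure.restrict_map hφ hm, Measure.map_map hy hφ]
  exact h7

/-- smaller set of displacements, smaller bound of the meshes -/
theorem Fill.mono {X : Type*} [MeasurableSpace X] {κ : ℂ} {g : X → C(unitInterval, ℂ)} {y : X → ℂ} {β : Measure X}
    {ω0 ω1 : ℤ × ℤ} {H : ℕ} {μ0 μ0' eps R0 R1 : ℝ} {V V' : Set (ℝ × ℝ)} (h : Fill κ g y β ω0 ω1 H μ0 eps R0 R1 V)
    (hμ : μ0' ≤ μ0) (hV : V' ⊆ V) : Fill κ g y β ω0 ω1 H μ0' eps R0 R1 V' := by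
  intro M x0 x1 s s' μ η δ ζ e h1 h2 h3 h4 h5 h6
  exact h M x0 x1 s s' μ η δ ζ e h1 (h2.trans hμ) h3 h4 (hV h5) h6

/-- **the lanes of the class `Rst` are filled in the limit** -/
theorem fill_rst : ∃ H0 : ℕ, 2 ^ 13 ≤ H0 ∧ ∀ H : ℕ, H0 ≤ H → ∀ {ω0 ω1 : ℤ × ℤ} {a b' : Fin 3}, OK3 ω0 ω1 a b' →
    ∀ {P Q : Tp} {W : Wn} {μ0 eps R0 R1 : ℝ}, P.c ≤ 1 → Q.c ≤ 1 → 0 ≤ P.r0 → 0 ≤ Q.r0 →
    6 / 5 * (P.r0 + 3 * μ0) ≤ R0 → 6 / 5 * (P.rg + 3 * μ0) ≤ R0 → 6 / 5 * (Q.r0 + 3 * μ0) ≤ R1 →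
    6 / 5 * (Q.rg + 3 * μ0) ≤ R1 → μ0 ≤ 50 * P.κ → μ0 ≤ 50 * Q.κ → W.t0 ≤ 0 → μ0 ≤ 1 → μ0 ≤ W.t1 → 3 * eps ≤ 1 →
    0 < W.D0 → ∀ {ι : Type*} {l : Filter ι} [l.NeBot] {c : ι → ℝ≥0∞} {S : ι → ℝ} {w : ι → W3 → ℝ}
      {β : Measure (CI3 × ℝ)} {v : ℂ} {q : ℝ}, ‖v‖ = 1 → 0 < q → Tendsto S l atTop →
      (∀ᶠ N in l, ENNReal.ofReal (q / S N ^ (3 / 4 : ℝ)) ≤ c N) →
      (∀ᶠ N in l, ∀ R ∈ Rst (ev a) (ev b') P Q W (S N) (S N ^ (4 / 3 : ℝ)), 1 ≤ w N R) →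
      WLim l (fun N => rm (c N) (S N) (S N ^ (4 / 3 : ℝ)) (Rst (ev a) (ev b') P Q W (S N) (S N ^ (4 / 3 : ℝ))) (w N)) β →
      Fill (v * kap a ω0) (fun x : CI3 × ℝ => v • x.1) (fun x : CI3 × ℝ => -(v * x.1 1)) β ω0 ω1 H μ0 eps R0 R1 (VV W μ0) := by
  obtain ⟨H0, hH0, h⟩ := fill_of
  refine ⟨H0, hH0, ?_⟩
  intro H hH ω0 ω1 a b' hok P Q W μ0 eps R0 R1 hPc hQc hP0 hQ0 hPr hPg hQr hQg hPκ hQκ ht0 hμ01 hμt heps hD ι l _ c S w β v q
    hv hq hS hc hw hβ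
  have := hβ.fβ
  refine h H hH hok hPc hQc hP0 hQ0 hPr hPg hQr hQg hPκ hQκ ht0 hμ01 hμt heps (q := q) (s := S)
    (gN := fun N => cr (S N) (S N ^ (4 / 3 : ℝ))) ?_ ?_ hv (fun C hC => hβ.limsup_le hC) hS hq ?_ ?_
  · exact (continuous_const.mul ((continuous_eval_const 1).comp continuous_fst)).neg
  · exact continuous_fst.const_smul v
  · filter_upwards [hc, hw] with N hcN hwN A hA
    rw [rm_set _ _ _ _ _ hA.measurableSet]
    refine mul_le_mul' hcN ?_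
    unfold ms
    refine ENNReal.tsum_le_tsum fun R => ?_
    by_cases hR : R ∈ Rst (ev a) (ev b') P Q W (S N) (S N ^ (4 / 3 : ℝ))
    · rw [if_pos hR, if_pos hR]
      refine mul_le_mul' le_rfl ?_
      have h1 : (1 : ℝ≥0∞) ≤ ENNReal.ofReal (w N R) := by
        rw [← ENNReal.ofReal_one]
        exact ENNReal.ofReal_le_ofReal (hwN R hR)
      calc (cr (S N) (S N ^ (4 / 3 : ℝ)) ⁻¹' A).indicator 1 R
          = 1 * (cr (S N) (S N ^ (4 / 3 : ℝ)) ⁻¹' A).indicator 1 R := (one_mul _).symm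
        _ ≤ _ := mul_le_mul' h1 le_rfl
    · rw [if_neg hR, if_neg hR]
  · filter_upwards [hS.eventually_gt_atTop 0] with N hSN R hR
    refine ⟨one_le_of_far (mul_pos hD hSN) (show RsQ _ _ _ _ _ _ _ R from hR).far, ?_, fun τ => ⟨τ, rfl⟩⟩
    show -(v * crv R R.length (S N) 1) = -v * en R / S N
    rw [crv_one]
    show -(v * (ps R R.length / S N)) = -v * ps R R.length / S N
    ring

end Ln

end Pool.Agent.ROT.F3
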