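import Pool.Agent.ROT.F3W7c
import Pool.Agent.ROT.F3W7e

/-!
# ROT, F3, row W7 (helper63): the channels of the main arcs

* `kap2`, `kap3`, `fr1`, `fr2`, `fr3` : the common frame of the two companions; class 0 = main, 1, 2 = companions;
* `Full` : the lanes of a companion class are filled (all parameters of `Fill`); `full_rst`, `Full.map`;
* **`chan_cls`** : an injective curve of the closed main class has channels at all positions in the cells;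
* **`chan_ae`** : the hypothesis `chan` of `core_abs`.
-/

set_option autoImplicit false

open MeasureTheory Filter Topology Set
open scoped ENNReal NNReal

namespace Pool.Agent.ROT.F3

namespace Ln

open HexObs (Pt)
open Pool.Agent.ROT.F3.Tb (cr_step step_mul JJ_Ed')
open Pool.Agent.NTS.Res (step)
open NTF (JJ)

/-! ### 1. The frame -/

lemma kap2 : kap 1 ((1, -1) : ℤ × ℤ) = -step 0 2 := by
  rw [← cr_step]
  exact kap_neg (a := 1) (c := 2) rfl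

lemma kap3 : kap 2 ((0, 1) : ℤ × ℤ) = -step 0 2 := by
  rw [← cr_step]
  exact kap_neg (a := 2) (c := 0) rfl

lemma JR_int (v : Pt) (x : ℝ × ℝ) (h : x = ((v.1 : ℝ), (v.2 : ℝ))) : JR x = JJ v := by
  rw [h]
  rfl

lemma fr1 : -step 0 2 * JR (1, 0) = ev 0 := by
  have h : JJ (-NTF.Ed 1) = -step 0 1 := by rw [NTF.JJ_neg, JJ_Ed']
  rw [JR_int (-NTF.Ed 1) _ (by unfold NTF.Ed; norm_num), h, neg_mul_neg, step_mul, ev_step]
  rfl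

lemma fr2 : -step 0 2 * JR (-1, 1) = ev 1 := by
  have h : JJ (-NTF.Ed 2) = -step 0 2 := by rw [NTF.JJ_neg, JJ_Ed']
  have h2 : -NTF.Ed 2 = ((-1, 1) : Pt) := by decide
  rw [JR_int (-NTF.Ed 2) _ (by rw [h2]; norm_num), h, neg_mul_neg, step_mul, ev_step]
  rfl

lemma fr3 : -step 0 2 * JR (0, -1) = ev 2 := by
  have h : JJ (-NTF.Ed 0) = -step 0 0 := by rw [NTF.JJ_neg, JJ_Ed']
  rw [JR_int (-NTF.Ed 0) _ (by unfold NTF.Ed; norm_num), h, neg_mul_neg, step_mul, ev_step]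
  rfl

/-! ### 2. One main arc -/

/-- **the channels of a curve of the main class** -/
theorem chan_cls {P : Prm} (hP : P.Ok) {v : ℂ} (hv : ‖v‖ = 1) {A B C : Type*} [MeasurableSpace B] [MeasurableSpace C]
    {g1 : A → C(unitInterval, ℂ)} {g2 : B → C(unitInterval, ℂ)} {g3 : C → C(unitInterval, ℂ)} {y1 : A → ℂ} {y2 : B → ℂ}
    {y3 : C → ℂ} {b2 : Measure B} {b3 : Measure C} {H : ℕ} (hH : 1 ≤ H) {μ0 eps : ℝ} (hμ0 : 0 < μ0)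
    (hμp : 50 * μ0 ≤ P.p.f.r0) (hμq : 50 * μ0 ≤ P.q.f.r0) (heps0 : 0 < eps) (heps : 3 * eps < 1 / (40 * H))
    (F2 : Fill (v * kap 1 (1, -1)) g2 y2 b2 (1, -1) (0, 1) H μ0 eps (6 / 5 * (P.p.f.r0 + 3 * μ0))
      (6 / 5 * (P.q.f.r0 + 3 * μ0)) (VV P.Wc μ0))
    (F3 : Fill (v * kap 2 (0, 1)) g3 y3 b3 (0, 1) (1, -1) H μ0 eps (6 / 5 * (P.p.f.r0 + 3 * μ0))
      (6 / 5 * (P.q.f.r0 + 3 * μ0)) (VV P.Wc μ0))
    {a : A} {c0 : C(unitInterval, ℂ)} (hc : c0 ∈ ClM (ev 0) (ev 0) P.p.f P.q.f P.W P.p.s P.q.s)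
    (hi : Function.Injective c0) (hg : ∀ t, g1 a t = v * c0 t) (hy : y1 a = -(v * c0 1)) {h rz h' rz' : ℝ}
    (h1 : P.p.f.m ≤ h) (h2 : 2 * h ≤ P.p.f.r0) (h3 : 20 * rz ≤ P.p.f.m) (h1' : P.q.f.m ≤ h') (h2' : 2 * h' ≤ P.q.f.r0)
    (h3' : 20 * rz' ≤ P.q.f.m) {z z' w w' : ℂ} (hz : ‖z - h * (v * ev 1 - v)‖ ≤ rz) (hz' : ‖z' - h * (v * ev 2 - v)‖ ≤ rz)
    (hw : ‖w - h' * (v * ev 2 - v)‖ ≤ rz') (hw' : ‖w' - h' * (v * ev 1 - v)‖ ≤ rz') :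
    ChanAt g1 g2 g3 y1 y2 y3 b2 b3 volume a z z' w w' := by
  have hv0 : v ≠ 0 := by
    rintro rfl
    rw [norm_zero] at hv
    exact zero_ne_one hv
  have hvi : ‖v⁻¹‖ = 1 := by rw [norm_inv, hv, inv_one]
  have hκ : ‖-step 0 2‖ = 1 := by rw [norm_neg, ← ev_step, ev_norm]
  -- the numbers
  have p1 := hP.p.f.m
  have p2 := hP.p.f.r0
  have p3 := hP.p.f.m22
  have p4 := hP.p.f.κ
  have p5 := hP.p.f.r
  have p6 := hP.p.bn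
  have p7 := hP.p.len
  have p8 := hP.p.hw'
  have p9 := hP.p.se''
  have q1 := hP.q.f.m
  have q2 := hP.q.f.r0
  have q3 := hP.q.f.m22
  have q4 := hP.q.f.κ
  have q5 := hP.q.f.r
  have q6 := hP.q.bn
  have q7 := hP.q.len
  have q8 := hP.q.hw'
  have q9 := hP.q.se''
  have nr := hP.nr
  have c1 := hc.1.2.1
  -- the cells in the frame of the curve
  have cell : ∀ {x : ℂ} {t r : ℝ} {i : Fin 3}, ‖x - t * (v * ev i - v)‖ ≤ r → ‖v⁻¹ * x - t * (ev i - ev 0)‖ ≤ r := by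
    intro x t r i hx
    have e1 : v⁻¹ * x - t * (ev i - ev 0) = v⁻¹ * (x - t * (v * ev i - v)) := by
      rw [ev_zero]
      field_simp
    rw [e1, norm_mul, hvi, one_mul]
    exact hx
  have big : ∀ {x : ℂ} {t r : ℝ} {i : Fin 3}, 0 ≤ t → ‖x - t * (v * ev i - v)‖ ≤ r → ‖x‖ ≤ 2 * t + r := by
    intro x t r i ht hx
    have e1 : x = (x - t * (v * ev i - v)) + t * (v * ev i - v) := by ring
    have e2 : ‖v * ev i - v‖ ≤ 2 := by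
      refine (norm_sub_le _ _).trans ?_
      rw [norm_mul, hv, ev_norm]
      norm_num
    have e3 : ‖(t : ℂ) * (v * ev i - v)‖ ≤ t * 2 := by
      rw [norm_mul, Complex.norm_real, Real.norm_of_nonneg ht]
      exact mul_le_mul_of_nonneg_left e2 ht
    calc ‖x‖ = ‖(x - t * (v * ev i - v)) + t * (v * ev i - v)‖ := by rw [← e1]
      _ ≤ ‖x - t * (v * ev i - v)‖ + ‖(t : ℂ) * (v * ev i - v)‖ := norm_add_le _ _
      _ ≤ 2 * t + r := by linarith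
  obtain ⟨c, z2, z3, e2, e3, k1, k2, k3, k4, k5, η, hη, μ2, μ3, M2, M3, x0, x1, u0, u1, s2, s2', s3, s3', m1, m2, m3, m4,
    C2, C3, d2, d3, d23⟩ := chan_geo (κ := -step 0 2) hκ (c0 := c0) hc.1.1 hi (e := P.p.s.e) (hw := P.p.s.hw)
    (len := P.p.s.len) (bn := P.p.s.bn) (h := h) (rz := rz) (R0 := 6 / 5 * (P.p.f.r0 + 3 * μ0)) (e' := P.q.s.e)
    (hw' := P.q.s.hw) (len' := P.q.s.len) (bn' := P.q.s.bn) (h' := h') (rz' := rz') (R1 := 6 / 5 * (P.q.f.r0 + 3 * μ0))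
    (ε := eps) (μ0 := μ0) (by rw [fr1]; exact clM_p hc) (by rw [fr1]; exact clM_q hc) (by linarith)
    (z := v⁻¹ * z) (z' := v⁻¹ * z') (w := v⁻¹ * w) (w' := v⁻¹ * w') (by rw [fr1, fr2]; exact cell hz)
    (by rw [fr1, fr3]; exact cell hz') (by rw [fr1, fr3]; exact cell hw) (by rw [fr1, fr2]; exact cell hw') (by linarith)
    (by linarith) (by linarith) (by linarith) (by linarith) (by linarith) (by linarith) (by linarith) (by linarith)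
    (by linarith) heps0 hμ0
  have hvv : ∀ {x : ℂ}, v * (v⁻¹ * x) = x := fun {x} => by rw [← mul_assoc, mul_inv_cancel₀ hv0, one_mul]
  have fin : ∀ {s e : ℝ × ℝ} {x y : ℂ}, -step 0 2 * JR s = v⁻¹ * x → -step 0 2 * JR e = v⁻¹ * y + c0 1 →
      ‖x‖ ≤ 2 * h + rz → ‖y‖ ≤ 2 * h' + rz' → e - s ∈ VV P.Wc μ0 := by
    intro s e x y hs he hx hy
    have e1 : ‖JR (e - s)‖ = ‖c0 1 + v⁻¹ * (y - x)‖ := by
      have e2 : -step 0 2 * JR (e - s) = c0 1 + v⁻¹ * (y - x) := by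
        rw [JR_sub, mul_sub, hs, he]
        ring
      rw [← e2, norm_mul, hκ, one_mul]
    have e3 : ‖v⁻¹ * (y - x)‖ ≤ (2 * h + rz) + (2 * h' + rz') := by
      rw [norm_mul, hvi, one_mul]
      refine (norm_sub_le _ _).trans ?_
      linarith
    have e4 := norm_add_le (c0 1) (v⁻¹ * (y - x))
    have e5 := norm_sub_le (c0 1 + v⁻¹ * (y - x)) (v⁻¹ * (y - x))
    rw [add_sub_cancel_right] at e5
    have d1 := hP.Dc
    have d2 := hP.Dc'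
    constructor
    · rw [e1]
      linarith
    · rw [e1]
      linarith
  rw [kap2] at F2
  rw [kap3] at F3
  have hκ' : ‖v * -step 0 2‖ = 1 := by rw [norm_mul, hv, hκ, one_mul]
  refine chan_at hκ' (c := c) (z2 := z2) (z3 := z3) (e2 := e2) (e3 := e3) (fun t => ?_) ?_ ?_ ?_ ?_ hη hH heps F2 F3 ?_ ?_
    m1 m2 m3 m4 C2 C3 d2 d3 d23
  · rw [hg, k1, mul_assoc]
  · rw [mul_assoc, k2, hvv]
  · rw [mul_assoc, k3, hvv]
  · rw [mul_assoc, k4, mul_add, hvv, hy]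
    ring
  · rw [mul_assoc, k5, mul_add, hvv, hy]
    ring
  · exact fin k2 k4 (big (by linarith) hz) (big (by linarith) hw)
  · exact fin k3 k5 (big (by linarith) hz') (big (by linarith) hw')

/-! ### 3. All parameters -/

/-- **the lanes of a companion class are filled**, for all parameters of `Fill` -/
def Full {X : Type*} [MeasurableSpace X] (κ : ℂ) (g : X → C(unitInterval, ℂ)) (y : X → ℂ) (β : Measure X) (ω0 ω1 : ℤ × ℤ)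
    (P Q : Tp) (W : Wn) : Prop :=
  ∃ H0 : ℕ, ∀ H : ℕ, H0 ≤ H → ∀ μ0 eps R0 R1 : ℝ, 6 / 5 * (P.r0 + 3 * μ0) ≤ R0 → 6 / 5 * (P.rg + 3 * μ0) ≤ R0 →
    6 / 5 * (Q.r0 + 3 * μ0) ≤ R1 → 6 / 5 * (Q.rg + 3 * μ0) ≤ R1 → μ0 ≤ 50 * P.κ → μ0 ≤ 50 * Q.κ → μ0 ≤ 1 → μ0 ≤ W.t1 →
    3 * eps ≤ 1 → Fill κ g y β ω0 ω1 H μ0 eps R0 R1 (VV W μ0)

lemma Full.map {X Y : Type*} [MeasurableSpace X] [MeasurableSpace Y] {φ : X → Y} (hφ : Measurable φ) {κ : ℂ}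
    {g : Y → C(unitInterval, ℂ)} (hg : Measurable g) {y : Y → ℂ} (hy : Measurable y) {β : Measure X} {ω0 ω1 : ℤ × ℤ}
    {P Q : Tp} {W : Wn} (h : Full κ (g ∘ φ) (y ∘ φ) β ω0 ω1 P Q W) : Full κ g y (β.map φ) ω0 ω1 P Q W := by
  obtain ⟨H0, h⟩ := h
  exact ⟨H0, fun H hH μ0 eps R0 R1 a1 a2 a3 a4 a5 a6 a7 a8 a9 =>
    (h H hH μ0 eps R0 R1 a1 a2 a3 a4 a5 a6 a7 a8 a9).map hφ hg hy⟩

/-- **the classes `Rst` are full in the limit** -/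
theorem full_rst {ω0 ω1 : ℤ × ℤ} {a b' : Fin 3} (hok : OK3 ω0 ω1 a b') {P Q : Tp} {W : Wn} (hPc : P.c ≤ 1) (hQc : Q.c ≤ 1)
    (hP0 : 0 ≤ P.r0) (hQ0 : 0 ≤ Q.r0) (ht0 : W.t0 ≤ 0) (hD : 0 < W.D0) {ι : Type*} {l : Filter ι} [l.NeBot]
    {c : ι → ℝ≥0∞} {S : ι → ℝ} {w : ι → W3 → ℝ} {β : Measure (CI3 × ℝ)} {v : ℂ} {q : ℝ} (hv : ‖v‖ = 1) (hq : 0 < q)
    (hS : Tendsto S l atTop) (hc : ∀ᶠ N in l, ENNReal.ofReal (q / S N ^ (3 / 4 : ℝ)) ≤ c N)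
    (hw : ∀ᶠ N in l, ∀ R ∈ Rst (ev a) (ev b') P Q W (S N) (S N ^ (4 / 3 : ℝ)), 1 ≤ w N R)
    (hβ : WLim l (fun N => rm (c N) (S N) (S N ^ (4 / 3 : ℝ)) (Rst (ev a) (ev b') P Q W (S N) (S N ^ (4 / 3 : ℝ))) (w N)) β) :
    Full (v * kap a ω0) (fun x : CI3 × ℝ => v • x.1) (fun x : CI3 × ℝ => -(v * x.1 1)) β ω0 ω1 P Q W := by
  obtain ⟨H0, -, h⟩ := fill_rst
  exact ⟨H0, fun H hH μ0 eps R0 R1 a1 a2 a3 a4 a5 a6 a7 a8 a9 =>
    h H hH hok hPc hQc hP0 hQ0 a1 a2 a3 a4 a5 a6 ht0 a7 a8 a9 hD hv hq hS hc hw hβ⟩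

/-- **the channels of almost every main arc** (the hypothesis `chan` of `core_abs`) -/
theorem chan_ae {P : Prm} (hP : P.Ok) {v : ℂ} (hv : ‖v‖ = 1) {A B C : Type*} [MeasurableSpace A] [MeasurableSpace B]
    [MeasurableSpace C] {g1 : A → C(unitInterval, ℂ)} {g2 : B → C(unitInterval, ℂ)} {g3 : C → C(unitInterval, ℂ)}
    {y1 : A → ℂ} {y2 : B → ℂ} {y3 : C → ℂ} {b2 : Measure B} {b3 : Measure C}
    (F2 : Full (v * kap 1 (1, -1)) g2 y2 b2 (1, -1) (0, 1) P.p.f P.q.f P.Wc)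
    (F3 : Full (v * kap 2 (0, 1)) g3 y3 b3 (0, 1) (1, -1) P.p.f P.q.f P.Wc) {m : Measure A}
    (hm : ∀ᵐ a ∂m, ∃ c0 : C(unitInterval, ℂ), c0 ∈ ClM (ev 0) (ev 0) P.p.f P.q.f P.W P.p.s P.q.s ∧ Function.Injective c0 ∧
      (∀ t, g1 a t = v * c0 t) ∧ y1 a = -(v * c0 1)) {h rz h' rz' : ℝ}
    (h1 : P.p.f.m ≤ h) (h2 : 2 * h ≤ P.p.f.r0) (h3 : 20 * rz ≤ P.p.f.m) (h1' : P.q.f.m ≤ h') (h2' : 2 * h' ≤ P.q.f.r0)
    (h3' : 20 * rz' ≤ P.q.f.m) {Z Z' W W' : Set ℂ} (hZ : ∀ z ∈ Z, ‖z - h * (v * ev 1 - v)‖ ≤ rz)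
    (hZ' : ∀ z ∈ Z', ‖z - h * (v * ev 2 - v)‖ ≤ rz) (hW : ∀ w ∈ W, ‖w - h' * (v * ev 2 - v)‖ ≤ rz')
    (hW' : ∀ w ∈ W', ‖w - h' * (v * ev 1 - v)‖ ≤ rz') :
    ∀ᵐ a ∂m, ∀ z ∈ Z, ∀ z' ∈ Z', ∀ w ∈ W, ∀ w' ∈ W', ChanAt g1 g2 g3 y1 y2 y3 b2 b3 volume a z z' w w' := by
  obtain ⟨H2, F2⟩ := F2
  obtain ⟨H3, F3⟩ := F3
  obtain ⟨H, hH2, hH3, hH⟩ : ∃ H : ℕ, H2 ≤ H ∧ H3 ≤ H ∧ 1 ≤ H :=
    ⟨max H2 (max H3 1), le_max_left _ _, (le_max_left _ _).trans (le_max_right _ _), (le_max_right _ _).trans (le_max_right _ _)⟩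
  have hH0 : (1 : ℝ) ≤ H := by exact_mod_cast hH
  have p2 := hP.p.f.r0
  have p3 := hP.p.f.r2
  have p4 := hP.p.f.κ
  have p5 := hP.p.f.r
  have q2 := hP.q.f.r0
  have q3 := hP.q.f.r2
  have q4 := hP.q.f.κ
  have q5 := hP.q.f.r
  have t1 := hP.t1c
  have pr := hP.p.f.rr
  have qr := hP.q.f.rr
  obtain ⟨μ0, hμ0, m1, m2, m3, m4, m5, m6⟩ : ∃ μ0 : ℝ, 0 < μ0 ∧ 50 * μ0 ≤ P.p.f.r0 ∧ 50 * μ0 ≤ P.q.f.r0 ∧ μ0 ≤ 50 * P.p.f.κ ∧
      μ0 ≤ 50 * P.q.f.κ ∧ μ0 ≤ 1 ∧ μ0 ≤ P.Wc.t1 := by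
    have hp : 0 < P.p.f.r0 := by linarith
    have hq : 0 < P.q.f.r0 := by linarith
    refine ⟨min (P.p.f.r0 / 50) (min (P.q.f.r0 / 50) (min (50 * P.p.f.κ) (min (50 * P.q.f.κ) (min 1 P.Wc.t1)))), ?_, ?_⟩
    · simp only [lt_min_iff]
      refine ⟨by positivity, by positivity, by positivity, by positivity, one_pos, t1⟩
    · have a1 := min_le_left (P.p.f.r0 / 50) (min (P.q.f.r0 / 50) (min (50 * P.p.f.κ) (min (50 * P.q.f.κ) (min 1 P.Wc.t1))))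
      have a2 := min_le_right (P.p.f.r0 / 50) (min (P.q.f.r0 / 50) (min (50 * P.p.f.κ) (min (50 * P.q.f.κ) (min 1 P.Wc.t1))))
      have b1 := min_le_left (P.q.f.r0 / 50) (min (50 * P.p.f.κ) (min (50 * P.q.f.κ) (min 1 P.Wc.t1)))
      have b2 := min_le_right (P.q.f.r0 / 50) (min (50 * P.p.f.κ) (min (50 * P.q.f.κ) (min 1 P.Wc.t1)))
      have c1 := min_le_left (50 * P.p.f.κ) (min (50 * P.q.f.κ) (min 1 P.Wc.t1))
      have c2 := min_le_right (50 * P.p.f.κ) (min (50 * P.q.f.κ) (min 1 P.Wc.t1))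
      have d1 := min_le_left (50 * P.q.f.κ) (min 1 P.Wc.t1)
      have d2 := min_le_right (50 * P.q.f.κ) (min 1 P.Wc.t1)
      have e1 := min_le_left 1 P.Wc.t1
      have e2 := min_le_right 1 P.Wc.t1
      refine ⟨by linarith, by linarith, by linarith, by linarith, by linarith, by linarith⟩
  obtain ⟨eps, he0, he1, he2⟩ : ∃ eps : ℝ, 0 < eps ∧ 3 * eps < 1 / (40 * H) ∧ 3 * eps ≤ 1 := by
    refine ⟨1 / (200 * H), by positivity, ?_, ?_⟩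
    · have e : 3 * (1 / (200 * (H : ℝ))) = 3 / 5 * (1 / (40 * H)) := by field_simp; norm_num
      rw [e]
      have : (0 : ℝ) < 1 / (40 * H) := by positivity
      linarith
    · rw [mul_one_div, div_le_one (by positivity)]
      linarith
  filter_upwards [hm] with a ⟨c0, k1, k2, k3, k4⟩ z hz z' hz' w hw w' hw'
  exact chan_cls hP hv hH hμ0 m1 m2 he0 he1
    (F2 H hH2 μ0 eps _ _ le_rfl (by linarith) le_rfl (by linarith) m3 m4 m5 m6 he2)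
    (F3 H hH3 μ0 eps _ _ le_rfl (by linarith) le_rfl (by linarith) m3 m4 m5 m6 he2)
    k1 k2 k3 k4 h1 h2 h3 h1' h2' h3' (hZ z hz) (hZ' z' hz') (hW w hw) (hW' w' hw')

end Ln

end Pool.Agent.ROT.F3
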