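import Pool.Agent.ROT.F3CoreP
import Pool.Agent.ROT.F3W7
import Pool.Agent.ROT.F3GoodM

/-!
# ROT, F3, row Core (helper17): the product form for the classes of F3Cls

* `cen v h i j` : centre of the cell of the relative position (class `j` minus class `i`) at the foreign gates;
* `clM_turn` : the closed class of the main arcs is turned with the directions;
* **`core_cls`** : three pairs of classes, channels, positivity ==> the law of (pieces, arc) of the main class is a product.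
-/

set_option autoImplicit false
set_option linter.unusedSectionVars false

open MeasureTheory Topology Set ProbabilityTheory Filter Metric

open scoped ENNReal

namespace Pool.Agent.ROT.F3.CC

open Pool.Agent.ROT.F3

/-! ### 1. Turned classes -/

lemma lvq_turn {v : ℂ} (hv : ‖v‖ = 1) (d z : ℂ) : lv (v * d) (v * z) = lv d z := by
  have h1 : starRingEnd ℂ v * v = 1 := by
    rw [mul_comm, Complex.mul_conj, Complex.normSq_eq_norm_sq, hv]
    norm_num
  unfold lv
  have e : starRingEnd ℂ (v * d) * (v * z) = (starRingEnd ℂ v * v) * (starRingEnd ℂ d * z) := by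
    rw [map_mul]
    ring
  rw [e, h1, one_mul]

lemma ltlq_turn {v : ℂ} (hv : ‖v‖ = 1) (d z : ℂ) : ltl (v * d) (v * z) = ltl d z := by
  have h1 : starRingEnd ℂ v * v = 1 := by
    rw [mul_comm, Complex.mul_conj, Complex.normSq_eq_norm_sq, hv]
    norm_num
  unfold ltl
  have e : starRingEnd ℂ (v * d) * (v * z) = (starRingEnd ℂ v * v) * (starRingEnd ℂ d * z) := by
    rw [map_mul]
    ring
  rw [e, h1, one_mul]

lemma edK_turn {v : ℂ} (hv : ‖v‖ = 1) {d : ℂ} {P : Tp} {z : ℂ} (h : v * z ∈ EdK (v * d) P) : z ∈ EdK d P := by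
  have n1 : ‖v * z‖ = ‖z‖ := by rw [norm_mul, hv, one_mul]
  obtain ⟨h1, h2⟩ := h
  rw [lvq_turn hv, n1] at h1
  unfold Kn at h2
  rw [lvq_turn hv, n1] at h2
  exact ⟨h1, h2⟩

lemma stK_turn {v : ℂ} (hv : ‖v‖ = 1) {d : ℂ} {s : Sr} {z : ℂ} (h : v * z ∈ StK (v * d) s) : z ∈ StK d s := by
  obtain ⟨h1, h2, h3⟩ := h
  rw [lvq_turn hv] at h1 h2
  rw [ltlq_turn hv] at h3
  exact ⟨h1, h2, h3⟩

lemma ouK_turn {v : ℂ} (hv : ‖v‖ = 1) {s : Sr} {z : ℂ} (h : v * z ∈ OuK s) : z ∈ OuK s := by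
  have n1 : ‖v * z‖ = ‖z‖ := by rw [norm_mul, hv, one_mul]
  have h1 : s.bn ≤ ‖v * z‖ := h
  rw [n1] at h1
  exact h1

/-- **the closed class of the main arcs is turned with the directions** -/
theorem clM_turn {v : ℂ} (hv : ‖v‖ = 1) {d d' : ℂ} {P Q : Tp} {W : Wn} {s s' : Sr} {c c0 : C(unitInterval, ℂ)}
    (e : ∀ t, c t = v * c0 t) (h : c ∈ ClM (v * d) (v * d') P Q W s s') : c0 ∈ ClM d d' P Q W s s' := by
  have n1 : ∀ z : ℂ, ‖v * z‖ = ‖z‖ := fun z => by rw [norm_mul, hv, one_mul]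
  have hv0 : v ≠ 0 := by
    rintro rfl
    simp at hv
  have e2 : ∀ t, c t - c 1 = v * (c0 t - c0 1) := fun t => by rw [e, e]; ring
  obtain ⟨⟨h0, ⟨h1, h2⟩, h3⟩, ⟨τ, k1, k2⟩, ⟨τ', k3, k4⟩⟩ := h
  refine ⟨⟨?_, ⟨?_, ?_⟩, fun t => ⟨?_, ?_⟩⟩, ⟨τ, fun t ht => ?_, fun t ht => ?_⟩, ⟨τ', fun t ht => ?_, fun t ht => ?_⟩⟩
  · rw [e] at h0
    exact (mul_eq_zero.1 h0).resolve_left hv0
  · rwa [e, n1] at h1
  · rwa [e, n1] at h2
  · have := (h3 t).1
    rw [e] at this
    exact edK_turn hv this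
  · have := (h3 t).2
    rw [e2] at this
    exact edK_turn hv this
  · have := k1 t ht
    rw [e] at this
    exact stK_turn hv this
  · have := k2 t ht
    rw [e] at this
    exact ouK_turn hv this
  · have := k3 t ht
    rw [e2] at this
    exact ouK_turn hv this
  · have := k4 t ht
    rw [e2] at this
    exact stK_turn hv this

/-- turned back -/
noncomputable def bk (v : ℂ) (c : C(unitInterval, ℂ)) : C(unitInterval, ℂ) := v⁻¹ • c

lemma bk_apply {v : ℂ} (hv : v ≠ 0) (c : C(unitInterval, ℂ)) (t : unitInterval) : c t = v * bk v c t := by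
  show c t = v * (v⁻¹ * c t)
  rw [← mul_assoc, mul_inv_cancel₀ hv, one_mul]

lemma bk_cont (v : ℂ) : Continuous (bk v) := continuous_const_smul _

lemma bk_smul {v : ℂ} (hv : v ≠ 0) (c : C(unitInterval, ℂ)) : bk v (v • c) = c := by
  unfold bk
  rw [smul_smul, inv_mul_cancel₀ hv, one_smul]

lemma bk_inj {v : ℂ} (hv : v ≠ 0) {c : C(unitInterval, ℂ)} (h : Function.Injective c) : Function.Injective (bk v c) := by
  intro s t hst
  refine h ?_
  rw [bk_apply hv c s, bk_apply hv c t, hst]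

/-! ### 2. The cells -/

/-- centre of the cell of the relative position (class `j` minus class `i`), directions turned by `v`, at distance `h` -/
noncomputable def cen (v : ℂ) (h : ℝ) (i j : Fin 3) : ℂ := (h : ℂ) * (v * ev j - v * ev i)

lemma cen_add (v : ℂ) (h : ℝ) (i j k : Fin 3) : cen v h i j + cen v h j k = cen v h i k := by
  unfold cen
  ring

lemma cen_zero (v : ℂ) (h : ℝ) (j : Fin 3) : cen v h 0 j = h * (v * ev j - v) := by
  have e : ev 0 = 1 := by
    simp [ev]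
  unfold cen
  rw [e, mul_one]

lemma cell_sub {c z : ℂ} {a b m : ℝ} (hz : z ∈ closedBall c a) (h : a + m < b) : closedBall z m ⊆ ball c b := by
  intro w hw
  rw [mem_closedBall] at hz hw
  rw [mem_ball]
  have := dist_triangle w z c
  linarith

lemma cell_diff {c c' z z' : ℂ} {a b m : ℝ} (hz : z ∈ closedBall c a) (hz' : z' ∈ closedBall c' a) (h : 2 * a + m < b) :
    closedBall (z' - z) m ⊆ ball (c' - c) b := by
  refine cell_sub (a := 2 * a) ?_ h
  rw [mem_closedBall, dist_eq_norm] at hz hz' ⊢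
  have e : z' - z - (c' - c) = (z' - c') - (z - c) := by ring
  rw [e]
  have := norm_sub_le (z' - c') (z - c)
  linarith

lemma cell_add {c c' z z' : ℂ} {a b d : ℝ} (hz : z ∈ closedBall c a) (hz' : z' ∈ closedBall c' b) (h : a + b ≤ d) :
    z + z' ∈ closedBall (c + c') d := by
  rw [mem_closedBall, dist_eq_norm] at hz hz' ⊢
  have e : z + z' - (c + c') = (z - c) + (z' - c') := by ring
  rw [e]
  have := norm_add_le (z - c) (z' - c')
  linarith

/-! ### 3. Core -/

/-- **the product form for the main class.** `β a` = law of the rests of the class `a` on the first lattice, `b a` = law of its arcs on the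
second lattice (turned by `v`), `C a`, `t a`, `t' a` = rests with foreign gates and their marks; `h`, `h'` = distance of the foreign
gates from the roots, `r`, `r'` = size of the cells -/
theorem core_cls {P : Prm} (hP : P.Ok) {v : ℂ} (hv : ‖v‖ = 1) {t t' : Fin 3 → Pie → ℝ} {C : Fin 3 → Set Pie}
    (mt : ∀ a, Measurable (t a)) (mt' : ∀ a, Measurable (t' a)) (mC : ∀ a, MeasurableSet (C a))
    {β b : Fin 3 → Measure Pie} (fβ : ∀ a, IsFiniteMeasure (β a)) (fb : ∀ a, IsFiniteMeasure (b a))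
    {h h' r r' : ℝ} (hr : 0 < r) (hr' : 0 < r')
    (p01 : PairIn (clsC (t 0) (t' 0) (C 0)) (clsC (t 1) (t' 1) (C 1)) (β 0) (β 1) (b 0) (b 1) volume
      (ball (cen v h 0 1) (3 * r)) (ball (cen v h' 0 2) (3 * r')) Gm (K4 × K4) K4 K4)
    (p02 : PairIn (clsC (t 0) (t' 0) (C 0)) (clsC (t 2) (t' 2) (C 2)) (β 0) (β 2) (b 0) (b 2) volume
      (ball (cen v h 0 2) (3 * r)) (ball (cen v h' 0 1) (3 * r')) Gm (K4 × K4) K4 K4)
    (p12 : PairIn (clsC (t 1) (t' 1) (C 1)) (clsC (t 2) (t' 2) (C 2)) (β 1) (β 2) (b 1) (b 2) volume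
      (ball (cen v h 1 2) (5 * r)) (ball (cen v h' 2 1) (5 * r')) Gm (K4 × K4) K4 K4)
    (F2 : Ln.Full (v * Ln.kap 1 (1, -1)) Prod.fst yP (b 1) (1, -1) (0, 1) P.p.f P.q.f P.Wc)
    (F3 : Ln.Full (v * Ln.kap 2 (0, 1)) Prod.fst yP (b 2) (0, 1) (1, -1) P.p.f P.q.f P.Wc)
    (hV : ∀ x ∈ C 0, (x, (t 0 x, t' 0 x)) ∈ VT (ev 0) (ev 0) P.p P.q (AmV (v * ev 0) (v * ev 0) P.p P.q P.W))
    (hβ : ∀ᵐ x ∂(β 0), Function.Injective x.1)
    (hb : ∀ᵐ x ∂(b 0), Function.Injective x.1 ∧ bk v x.1 ∈ ClM (ev 0) (ev 0) P.p.f P.q.f P.W P.p.s P.q.s)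
    (h1 : P.p.f.m ≤ h) (h2 : 2 * h ≤ P.p.f.r0) (h3 : 40 * r ≤ P.p.f.m) (h1' : P.q.f.m ≤ h') (h2' : 2 * h' ≤ P.q.f.r0)
    (h3' : 40 * r' ≤ P.q.f.m)
    (q12 : (((clsC (t 0) (t' 0) (C 0)).law (β 0)).snd.prod (((clsC (t 1) (t' 1) (C 1)).law (β 1)).snd.prod volume))
      (DD Prod.fst Prod.fst yP yP (ball (cen v h 0 1) (3 * r)) (ball (cen v h' 0 2) (3 * r')) ∩
        {p | zw yP yP p ∈ closedBall (cen v h 0 1) r ×ˢ closedBall (cen v h' 0 2) r'}) ≠ 0)
    (q23 : (((clsC (t 1) (t' 1) (C 1)).law (β 1)).snd.prod (((clsC (t 2) (t' 2) (C 2)).law (β 2)).snd.prod volume))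
      (DD Prod.fst Prod.fst yP yP (ball (cen v h 1 2) (5 * r)) (ball (cen v h' 2 1) (5 * r')) ∩
        {p | zw yP yP p ∈ closedBall (cen v h 1 2) r ×ˢ closedBall (cen v h' 2 1) r'}) ≠ 0) :
    ∃ ν : Measure (Pie × Pie), IsFiniteMeasure ν ∧ (clsC (t 0) (t' 0) (C 0)).law (β 0) = ν.prod (b 0) := by
  have hv0 : v ≠ 0 := by
    rintro rfl
    simp at hv
  have o : ∀ a, (clsC (t a) (t' a) (C a)).Ok := fun a => clsC_ok (mt a) (mt' a) (mC a)
  obtain ⟨m0, hm0, hm1, hm2⟩ : ∃ m0 : ℝ, 0 < m0 ∧ m0 < r ∧ m0 < r' := by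
    refine ⟨min r r' / 2, by positivity, ?_, ?_⟩
    · have := min_le_left r r'
      linarith [lt_min hr hr']
    · have := min_le_right r r'
      linarith [lt_min hr hr']
  have := fβ 0
  have := fβ 1
  have := fβ 2
  have := fb 0
  have := fb 1
  have := fb 2
  -- the main arcs
  have hm : ∀ᵐ a ∂(((clsC (t 0) (t' 0) (C 0)).law (β 0)).snd + b 0), ∃ c0 : C(unitInterval, ℂ),
      c0 ∈ ClM (ev 0) (ev 0) P.p.f P.q.f P.W P.p.s P.q.s ∧ Function.Injective c0 ∧ (∀ s, a.1 s = v * c0 s) ∧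
        yP a = -(v * c0 1) := by
    have key : ∀ a : Pie, Function.Injective a.1 ∧ bk v a.1 ∈ ClM (ev 0) (ev 0) P.p.f P.q.f P.W P.p.s P.q.s →
        ∃ c0 : C(unitInterval, ℂ), c0 ∈ ClM (ev 0) (ev 0) P.p.f P.q.f P.W P.p.s P.q.s ∧ Function.Injective c0 ∧
          (∀ s, a.1 s = v * c0 s) ∧ yP a = -(v * c0 1) := by
      rintro a ⟨k1, k2⟩
      refine ⟨bk v a.1, k2, bk_inj hv0 k1, bk_apply hv0 a.1, ?_⟩
      have e0 : bk v a.1 0 = 0 := k2.1.1
      show -(a.1 1 - a.1 0) = _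
      rw [bk_apply hv0 a.1 1, bk_apply hv0 a.1 0, e0]
      ring
    have mS : MeasurableSet {a : Pie | Function.Injective a.1 ∧
        bk v a.1 ∈ ClM (ev 0) (ev 0) P.p.f P.q.f P.W P.p.s P.q.s} :=
      (measurable_fst inj_meas).inter (((clM_closed _ _ _ _ _ _ _).preimage ((bk_cont v).comp continuous_fst)).measurableSet)
    rw [ae_add_measure_iff]
    refine ⟨?_, hb.mono fun a ha => key a ha⟩
    have h4 : ∀ᵐ a ∂((clsC (t 0) (t' 0) (C 0)).law (β 0)).snd, Function.Injective a.1 ∧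
        bk v a.1 ∈ ClM (ev 0) (ev 0) P.p.f P.q.f P.W P.p.s P.q.s := by
      refine law_ae (o 0) mS ?_
      filter_upwards [hβ] with x hx hxC
      have k1 := hV x hxC
      have k2 : pcut x (t 0 x) (t' 0 x) ∈ AmV (v * ev 0) (v * ev 0) P.p P.q P.W := k1.a
      have i1 : t 0 x ∈ Icc (0 : ℝ) 1 := ⟨k1.h0, k1.h1.trans k1.h2⟩
      have i2 : t' 0 x ∈ Icc (0 : ℝ) 1 := ⟨k1.h0.trans k1.h1, k1.h2⟩
      have e1 : (pcut x (t 0 x) (t' 0 x)).1 = cutc x.1 ⟨t 0 x, i1⟩ ⟨t' 0 x, i2⟩ := cutp_eq x.1 ⟨t 0 x, i1⟩ ⟨t' 0 x, i2⟩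
      have hne : (⟨t 0 x, i1⟩ : unitInterval) ≠ ⟨t' 0 x, i2⟩ := by
        intro he
        have he' : t 0 x = t' 0 x := congrArg Subtype.val he
        have k3 : P.W.D0 ≤ ‖(pcut x (t 0 x) (t' 0 x)).1 1‖ := k2.1.1.2.1.1
        have k4 : (pcut x (t 0 x) (t' 0 x)).1 1 = ex x.1 (t' 0 x) - ex x.1 (t 0 x) := cutp_one _ _ _
        rw [k4, he', sub_self, norm_zero] at k3
        have l1 := hP.nr
        have l2 := hP.p.len
        have l3 := hP.q.len
        have l4 := hP.p.bn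
        have l5 := hP.q.bn
        have l6 := hP.p.f.r0
        have l7 := hP.q.f.r0
        have l8 := hP.p.f.r
        have l9 := hP.q.f.r
        have l10 := hP.p.f.r2
        have l11 := hP.q.f.r2
        have l12 := hP.p.f.κ
        have l13 := hP.q.f.κ
        linarith
      show Function.Injective (pcut x (t 0 x) (t' 0 x)).1 ∧ bk v (pcut x (t 0 x) (t' 0 x)).1 ∈ _
      refine ⟨?_, clM_turn hv (bk_apply hv0 _) k2.1⟩
      rw [e1]
      exact cutc_inj hx hne
    exact h4.mono fun a ha => key a ha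
  -- the channels
  have chan := Ln.chan_ae (P := P) hP hv (g1 := (Prod.fst : Pie → C(unitInterval, ℂ))) (y1 := yP) F2 F3
    (m := ((clsC (t 0) (t' 0) (C 0)).law (β 0)).snd + b 0) hm (h := h) (rz := 2 * r) (h' := h') (rz' := 2 * r') h1 h2
    (by linarith) h1' h2' (by linarith) (Z := closedBall (cen v h 0 1) (2 * r)) (Z' := closedBall (cen v h 0 2) (2 * r))
    (W := closedBall (cen v h' 0 2) (2 * r')) (W' := closedBall (cen v h' 0 1) (2 * r'))
    (fun z hz => by rw [← cen_zero]; exact mem_closedBall_iff_norm.1 hz)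
    (fun z hz => by rw [← cen_zero]; exact mem_closedBall_iff_norm.1 hz)
    (fun z hz => by rw [← cen_zero]; exact mem_closedBall_iff_norm.1 hz)
    (fun z hz => by rw [← cen_zero]; exact mem_closedBall_iff_norm.1 hz)
  have e12 : cen v h 0 2 - cen v h 0 1 = cen v h 1 2 := by
    rw [← cen_add v h 0 1 2]
    ring
  have e21 : cen v h' 0 1 - cen v h' 0 2 = cen v h' 2 1 := by
    rw [← cen_add v h' 0 2 1]
    ring
  exact core_abs (o 0) (o 1) (o 2) hm0 measurableSet_ball measurableSet_ball measurableSet_ball measurableSet_ball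
    measurableSet_ball measurableSet_ball (fun z hz => cell_sub hz (by linarith)) (fun z hz => cell_sub hz (by linarith))
    (fun z hz z' hz' => by rw [← e12]; exact cell_diff hz hz' (by linarith)) (fun z hz => cell_sub hz (by linarith))
    (fun z hz => cell_sub hz (by linarith)) (fun z hz z' hz' => by rw [← e21]; exact cell_diff hz hz' (by linarith))
    p01 p02 p12 chan measurableSet_closedBall measurableSet_closedBall measurableSet_closedBall measurableSet_closedBall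
    (closedBall_subset_closedBall (by linarith)) (closedBall_subset_closedBall (by linarith))
    (fun z hz d hd => by rw [← cen_add v h 0 1 2]; exact cell_add hz hd (by linarith))
    (fun w hw d hd => by rw [← cen_add v h' 0 2 1]; exact cell_add hw hd (by linarith)) q12 q23

end Pool.Agent.ROT.F3.CC
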