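import Pool.Agent.ROT.F3CoreB
import Pool.Agent.ROT.F3CoreN

/-!
# ROT, F3, row Core (helper17): the fields `dR`, `dP` of `PairIn` for the monotone limit over the sides of the cells

* **`LevIn.denM`**, **`LevIn.denPM`** : `LevIn` + `mark_denM`, `mark_denPM` of F3CoreN.
-/

set_option autoImplicit false
set_option linter.unusedSectionVars false

open MeasureTheory Set Filter Topology TopologicalSpace ProbabilityTheory

open scoped ENNReal NNReal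

namespace Pool.Agent.ROT.F3

section lev

variable {Γ Kp Kq A B : Type*} [MeasurableSpace Γ]
  [PseudoEMetricSpace Kp] [MeasurableSpace Kp] [BorelSpace Kp] [StandardBorelSpace Kp] [Nonempty Kp]
  [SecondCountableTopology Kp]
  [PseudoEMetricSpace Kq] [MeasurableSpace Kq] [BorelSpace Kq] [StandardBorelSpace Kq] [Nonempty Kq]
  [SecondCountableTopology Kq]
  [PseudoMetricSpace A] [MeasurableSpace A] [BorelSpace A] [SecondCountableTopology A]
  [PseudoMetricSpace B] [MeasurableSpace B] [BorelSpace B] [SecondCountableTopology B]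
  {U : Ultrafilter ℕ} {bA : ℕ → FiniteMeasure A} {b1 : FiniteMeasure A} {bB : ℕ → FiniteMeasure B}
  {b2 : FiniteMeasure B} {m : ℕ → Measure ℂ} {c : ℝ} {yA : A → ℂ} {yB : B → ℂ} {C R C' : ℕ → ℝ}
  {g : ℕ → (Kp → ℝ) → ℕ → ℂ → ℝ} {h : ℕ → (Kq → ℝ) → ℕ → ℂ → ℝ}
  {ρN : ℕ → ℕ → ℕ → Measure ((Kp × Kq) × (A × (B × ℂ)))} {D : Set (A × (B × ℂ))}
  {P : Measure Γ} {w : ℕ → ℕ → Γ → ℝ≥0∞} {M : ℕ → ℕ → Γ → (Kp × Kq) × (A × (B × ℂ))} {wR : ℕ → ℕ → Γ → ℝ≥0∞}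
  {wF : Γ → ℝ≥0∞} {mR : Γ → (Kp × Kq) × (A × (B × ℂ))} {Ep : ℕ → ℕ → Set Kp} {Eq' : ℕ → ℕ → Set Kq}

/-- **the field `dR` of `PairIn`**, monotone limit -/
theorem LevIn.denM (H : LevIn U bA b1 bB b2 m c yA yB C R C' g h ρN (fun i j => (P.withDensity (w i j)).map (M i j)) D)
    (hw : ∀ i j, Measurable (w i j)) (hm : ∀ i j, Measurable (M i j)) (kw : ∀ n n', Measurable (wR n n'))
    (kF : Measurable wF) (km : Measurable mR) (hEp : ∀ n i, MeasurableSet (Ep n i)) (hEq : ∀ n i, MeasurableSet (Eq' n i))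
    (hmk : ∀ n n', MarkOf P w M (Ep n) (Eq' n') (wR n n') mR)
    (hi : ∀ n n', ∀ᵐ g ∂P, wR n n' g ≤ wR (n + 1) n' g) (hi' : ∀ n n', ∀ᵐ g ∂P, wR n n' g ≤ wR n (n' + 1) g)
    (hs : ∀ᵐ g ∂P, wF g = ⨆ n, wR n n g) {Φ : Kp × Kq → ℝ≥0∞} (hΦ : Measurable Φ) :
    Den ((P.withDensity wF).map mR) ((b1 : Measure A).prod ((b2 : Measure B).prod volume)) D (zw yA yB) Φ := by
  obtain ⟨g1, h1, k1, k2, k3⟩ := H.base
  have := H.fin
  exact mark_denM hw hm kw kF km hEp hEq hmk hi hi' hs H.hD.measurableSet H.hyA.measurable H.hyB.measurable k1 k2 k3 hΦ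

/-- **the field `dP` of `PairIn`**, monotone limit -/
theorem LevIn.denPM (H : LevIn U bA b1 bB b2 m c yA yB C R C' g h ρN (fun i j => (P.withDensity (w i j)).map (M i j)) D)
    (hw : ∀ i j, Measurable (w i j)) (hm : ∀ i j, Measurable (M i j)) (kw : ∀ n n', Measurable (wR n n'))
    (kF : Measurable wF) (km : Measurable mR) (hEp : ∀ n i, MeasurableSet (Ep n i)) (hEq : ∀ n i, MeasurableSet (Eq' n i))
    (hmk : ∀ n n', MarkOf P w M (Ep n) (Eq' n') (wR n n') mR)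
    (hi : ∀ n n', ∀ᵐ g ∂P, wR n n' g ≤ wR (n + 1) n' g) (hi' : ∀ n n', ∀ᵐ g ∂P, wR n n' g ≤ wR n (n' + 1) g)
    (hs : ∀ᵐ g ∂P, wF g = ⨆ n, wR n n g) {Φp : Kp → ℝ≥0∞} (hΦp : Measurable Φp) {Φq : Kq → ℝ≥0∞} (hΦq : Measurable Φq) :
    DenP ((P.withDensity wF).map mR) ((b1 : Measure A).prod ((b2 : Measure B).prod volume)) D (zw yA yB) Φp Φq := by
  obtain ⟨g1, h1, k1, k2, k3⟩ := H.base
  have := H.fin
  exact mark_denPM hw hm kw kF km hEp hEq hmk hi hi' hs H.hD.measurableSet H.hyA.measurable H.hyB.measurable k1 k2 k3 hΦp hΦq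

end lev

end Pool.Agent.ROT.F3
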