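import Pool.Agent.ROT.F3CoreQ
import Pool.Agent.ROT.F3W7h
import Pool.Agent.ROT.F3BetaU

/-!
# ROT / F3CoreU (helper56): `core_cls` for the limits of the classes

* `cb_low` : the normalisation `cb`;
* **`core_top`** : `β a` = the limits of the rests, `b a` = the limits of the arcs of the rotated lattice: the law of (pieces, arc) is a
  product. Channels, injectivity and the class of the limit curves are discharged.
-/

set_option autoImplicit false
set_option linter.unusedSectionVars false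

open MeasureTheory Topology Set ProbabilityTheory Filter Metric

open scoped ENNReal NNReal

namespace Pool.Agent.ROT.F3.CC

open Pool.Agent.ROT.F3 Pool.Agent.ROT.F3.Bt

lemma cb_low : ∀ᶠ N : ℕ in atTop, ENNReal.ofReal (1 / (N : ℝ) ^ (3 / 4 : ℝ)) ≤ cb N := by
  filter_upwards [eventually_gt_atTop 0] with N hN
  have h0 : (0 : ℝ) < N := by exact_mod_cast hN
  unfold cb
  refine ENNReal.ofReal_le_ofReal (le_of_eq ?_)
  rw [Real.rpow_neg h0.le, one_div]

/-- **the product form for the limits of the classes** (turned by `v`) -/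
theorem core_top {P : Prm} (hP : P.Ok) {v : ℂ} (hv : ‖v‖ = 1) {U : Ultrafilter ℕ} (hU : (U : Filter ℕ) ≤ atTop)
    {t t' : Fin 3 → Pie → ℝ} {C : Fin 3 → Set Pie}
    (mt : ∀ a, Measurable (t a)) (mt' : ∀ a, Measurable (t' a)) (mC : ∀ a, MeasurableSet (C a))
    {β b : Fin 3 → Measure Pie} (fβ : ∀ a, IsFiniteMeasure (β a))
    (l0 : WLim (U : Filter ℕ) (fun N => rm (cb N) N (uT N) (P.R0 0 P.W N) fun _ => 1) (β 0))
    (a0 : WLim (U : Filter ℕ) (fun N => rm (cb N) N (uT N) (P.A0 N) fun _ => 1) (b 0))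
    (ac : ∀ a : Fin 3, a ≠ 0 → WLim (U : Filter ℕ) (fun N => rm (cb N) N (uT N) (P.Ac a N) fun _ => 1) (b a))
    {h h' r r' : ℝ} (hr : 0 < r) (hr' : 0 < r')
    (p01 : PairIn (clsC (t 0) (t' 0) (C 0)) (clsC (t 1) (t' 1) (C 1)) (β 0) (β 1) ((b 0).map fun x => (v • x.1, x.2))
      ((b 1).map fun x => (v • x.1, x.2)) volume
      (ball (cen v h 0 1) (3 * r)) (ball (cen v h' 0 2) (3 * r')) Gm (K4 × K4) K4 K4)
    (p02 : PairIn (clsC (t 0) (t' 0) (C 0)) (clsC (t 2) (t' 2) (C 2)) (β 0) (β 2) ((b 0).map fun x => (v • x.1, x.2))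
      ((b 2).map fun x => (v • x.1, x.2)) volume
      (ball (cen v h 0 2) (3 * r)) (ball (cen v h' 0 1) (3 * r')) Gm (K4 × K4) K4 K4)
    (p12 : PairIn (clsC (t 1) (t' 1) (C 1)) (clsC (t 2) (t' 2) (C 2)) (β 1) (β 2) ((b 1).map fun x => (v • x.1, x.2))
      ((b 2).map fun x => (v • x.1, x.2)) volume
      (ball (cen v h 1 2) (5 * r)) (ball (cen v h' 2 1) (5 * r')) Gm (K4 × K4) K4 K4)
    (hV : ∀ x ∈ C 0, (x, (t 0 x, t' 0 x)) ∈ VT (ev 0) (ev 0) P.p P.q (AmV (v * ev 0) (v * ev 0) P.p P.q P.W))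
    (h1 : P.p.f.m ≤ h) (h2 : 2 * h ≤ P.p.f.r0) (h3 : 40 * r ≤ P.p.f.m) (h1' : P.q.f.m ≤ h') (h2' : 2 * h' ≤ P.q.f.r0)
    (h3' : 40 * r' ≤ P.q.f.m)
    (q12 : (((clsC (t 0) (t' 0) (C 0)).law (β 0)).snd.prod (((clsC (t 1) (t' 1) (C 1)).law (β 1)).snd.prod volume))
      (DD Prod.fst Prod.fst yP yP (ball (cen v h 0 1) (3 * r)) (ball (cen v h' 0 2) (3 * r')) ∩
        {p | zw yP yP p ∈ closedBall (cen v h 0 1) r ×ˢ closedBall (cen v h' 0 2) r'}) ≠ 0)
    (q23 : (((clsC (t 1) (t' 1) (C 1)).law (β 1)).snd.prod (((clsC (t 2) (t' 2) (C 2)).law (β 2)).snd.prod volume))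
      (DD Prod.fst Prod.fst yP yP (ball (cen v h 1 2) (5 * r)) (ball (cen v h' 2 1) (5 * r')) ∩
        {p | zw yP yP p ∈ closedBall (cen v h 1 2) r ×ˢ closedBall (cen v h' 2 1) r'}) ≠ 0) :
    ∃ ν : Measure (Pie × Pie), IsFiniteMeasure ν ∧ (clsC (t 0) (t' 0) (C 0)).law (β 0) =
      ν.prod ((b 0).map fun x => (v • x.1, x.2)) := by
  have hv0 : v ≠ 0 := by
    rintro rfl
    simp at hv
  have fb : ∀ a, IsFiniteMeasure (b a) := by
    intro a
    by_cases ha : a = 0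
    · rw [ha]
      exact a0.fβ
    · exact (ac a ha).fβ
  have fb' : ∀ a, IsFiniteMeasure ((b a).map fun x : Pie => (v • x.1, x.2)) := fun a => by
    have := fb a
    exact Measure.isFiniteMeasure_map _ _
  -- the inequalities
  have p1 := hP.p.f
  have p2 := hP.q.f
  have n1 := hP.p.n
  have n2 := hP.q.n
  have l1 := hP.nr
  have l2 := hP.p.len
  have l3 := hP.q.len
  have l4 := hP.p.bn
  have l5 := hP.q.bn
  have l6 := hP.far
  have l7 := hP.farc
  have l8 := hP.nrc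
  have hW : 0 < P.W.D0 := by
    linarith [p1.r0, p2.r0, p1.r, p2.r, p1.r2, p2.r2, p1.κ, p2.κ]
  have hWc : 0 < P.Wc.D0 := by
    linarith [p1.r0, p2.r0, p1.r, p2.r, p1.r2, p2.r2, p1.κ, p2.κ]
  have hWd : 0 < (P.wd P.W).D0 := by
    show 0 < P.W.D0 - (P.p.k + P.q.k)
    linarith [p1.r, p2.r, p1.r2, p2.r2]
  have ht : 0 < (P.wd P.W).t1 := by
    show 0 < P.W.t1 + (P.p.lk + P.q.lk)
    linarith [hP.t0, hP.t1, hP.p.lk, hP.q.lk]
  have ht1 : 0 < P.W.t1 := by linarith [hP.t0, hP.t1]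
  have hw1 : ∀ Rs : ℕ → Set W3, ∀ᶠ N in atTop, ∀ R ∈ Rs N, (1 : ℝ) ≤ 1 := fun _ => Eventually.of_forall fun _ _ _ => le_rfl
  -- the companions
  have F2 := Ln.full_pie (a := 1) (b' := 2) (ω0 := (1, -1)) (ω1 := (0, 1)) (Or.inl ⟨rfl, rfl, rfl⟩) (P := P.p.f) (Q := P.q.f)
    (W := P.Wc) (by linarith [p1.c1]) (by linarith [p2.c1]) (by linarith [p1.r0, p1.κ]) (by linarith [p2.r0, p2.κ])
    (le_of_eq hP.t0c) hWc hU (w := fun _ _ => 1) hv one_pos
    (hU cb_low) (Eventually.of_forall fun _ _ _ => le_rfl) (ac 1 (by decide))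
  have F3 := Ln.full_pie (a := 2) (b' := 1) (ω0 := (0, 1)) (ω1 := (1, -1)) (Or.inr ⟨rfl, rfl, rfl⟩) (P := P.p.f) (Q := P.q.f)
    (W := P.Wc) (by linarith [p1.c1]) (by linarith [p2.c1]) (by linarith [p1.r0, p1.κ]) (by linarith [p2.r0, p2.κ])
    (le_of_eq hP.t0c) hWc hU (w := fun _ _ => 1) hv one_pos
    (hU cb_low) (Eventually.of_forall fun _ _ _ => le_rfl) (ac 2 (by decide))
  -- the rests
  have hβ : ∀ᵐ x ∂(β 0), Function.Injective x.1 := by
    have := rst_inj (P := P.p.n) (Q := P.q.n) (W := P.wd P.W) (i := 0) (j := 0) (by linarith [n1.rg, n1.r, n1.r2])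
      (by linarith [n2.rg, n2.r, n2.r2]) hWd ht (Rs := fun N => P.R0 0 P.W N) (w := fun _ _ => 1) (hw1 _) hU l0
      (Eventually.of_forall fun N => Subset.rfl)
    exact this.mono fun x hx => hx.1
  -- the arcs
  have hb : ∀ᵐ x ∂((b 0).map fun x : Pie => (v • x.1, x.2)), Function.Injective x.1 ∧
      bk v x.1 ∈ ClM (ev 0) (ev 0) P.p.f P.q.f P.W P.p.s P.q.s := by
    refine (ae_turn hv0).2 ?_
    have := man_inj (P := P.p.f) (Q := P.q.f) (W := P.W) (i := 0) (j := 0) (s := P.p.s) (s' := P.q.s)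
      (by linarith [p1.rg, p1.r, p1.r2]) (by linarith [p2.rg, p2.r, p2.r2]) hW ht1 (Rs := fun N => P.A0 N)
      (w := fun _ _ => 1) (hw1 _) hU a0 (Eventually.of_forall fun N => Subset.rfl)
    filter_upwards [this] with x hx
    refine ⟨fun s t hst => hx.1 ?_, ?_⟩
    · have h4 : v * x.1 s = v * x.1 t := hst
      exact mul_left_cancel₀ hv0 h4
    · rw [bk_smul hv0]
      exact hx.2.1
  exact core_cls hP hv mt mt' mC fβ fb' hr hr' p01 p02 p12 F2 F3 hV hβ hb h1 h2 h3 h1' h2' h3' q12 q23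

end Pool.Agent.ROT.F3.CC
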