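import Pool.Agent.ROT.F3KRelF
import Pool.Agent.ROT.F3ClsM

/-!
# ROT / F3KRelR (helper82): the statistics and the closed gates of a turned curve

`F d (z • g) = F (conj z * d) g` for `‖z‖ = 1`: `preF_rot`, `wdF_rot`, `paiF_rot`, `rsF_rot`, `nrF_rot`, `mnF_rot`, `kcF_rot`, `otF_rot`;
`gtI_rot`, `fgI_rot`, `rtI_rot`, `rgI_rot`; `preK_rot`, `reK_rot`, `riK_rot`, `balF_rot`.
`preK_iff : preK ≤ 0 ↔ GtI`, `reK_iff : reK ≤ 0 ↔ RtI`, `riK_iff : riK ≤ 0 ↔ RgI`, `FgI.of_gtI`.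
**`up_F`**, **`pai_up_F`**, **`kak_F`** : the two lattices, everything in the statistics of F3ClsL / F3ClsM.
-/

set_option autoImplicit false

namespace Pool.Agent.ROT.F3

open ComplexConjugate unitInterval

/-! ### 1. The closed gates as statistics -/

section

variable {d d' t t' : ℂ} {P Q : Tp} {g : C(I, ℂ)} {a b c : I}

/-- every point of the piece, any direction of reading -/
lemma cutc_bt {p : ℂ → Prop} : (∀ s : I, p (cutc g a b s)) ↔ ∀ u, BtI a u b → p (g u - g a) := by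
  rcases le_total a b with h | h
  · rw [cutc_all h]
    exact ⟨fun k u hu => k u (hu.of_le h).1 (hu.of_le h).2, fun k u h1 h2 => k u (Or.inl ⟨h1, h2⟩)⟩
  · rw [cutc_all' h]
    exact ⟨fun k u hu => k u (hu.comm.of_le h).1 (hu.comm.of_le h).2, fun k u h1 h2 => k u (Or.inr ⟨h1, h2⟩)⟩

lemma stS_bt {f : ℂ → ℝ} (hf : Continuous f) {x : ℝ} : stS f (cutc g a b) - x ≤ 0 ↔ ∀ u, BtI a u b → f (g u - g a) ≤ x := by
  rw [sub_nonpos, stS_le_iff hf, cutc_bt (p := fun v => f v ≤ x)]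

theorem preK_iff (hd : ‖d‖ = 1) : preK d P g a b c ≤ 0 ↔ GtI d P g a b c := by
  have hl := lv_continuous hd
  unfold preK
  simp only [max_le_iff]
  rw [stS_bt hl, stS_bt continuous_norm, stS_bt hl, stS_bt continuous_norm]
  have e : stS (fun v => -lv d v) (cutc g b c) ≤ 0 ↔ ∀ u, BtI b u c → -lv d (g u - g b) ≤ 0 := by
    have := stS_bt (g := g) (a := b) (b := c) (x := 0) hl.neg
    rwa [sub_zero] at this
  rw [e, cutc_one, cutc_one]
  simp only [lv_sub]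
  constructor
  · rintro ⟨⟨⟨h1, h2⟩, h3⟩, ⟨h4, h5⟩, h6, h7⟩
    exact ⟨h3, h7, by rw [lv_sub]; linarith, by rw [lv_sub]; linarith, fun u hu => by linarith [h6 u hu],
      fun u hu => by linarith [h2 u hu], fun u hu => by linarith [h5 u hu]⟩
  · intro h
    have h1 := h.l
    have h2 := h.m
    rw [lv_sub] at h1 h2
    exact ⟨⟨⟨by linarith, fun u hu => by linarith [h.t1 u hu]⟩, h.b1⟩, ⟨by linarith, fun u hu => by linarith [h.t2 u hu]⟩,
      fun u hu => by linarith [h.r u hu], h.b2⟩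

theorem reK_iff (hd : ‖d‖ = 1) {ρ : ℝ} : reK d ρ g a b ≤ 0 ↔ RtI d ρ g a b := by
  unfold reK RtI
  have := stS_bt (g := g) (a := a) (b := b) (x := 0) (reK_lip hd ρ).continuous
  rw [sub_zero] at this
  rw [this]
  refine forall₂_congr fun u _ => ?_
  rw [min_le_iff, neg_nonpos, sub_nonpos]

theorem riK_iff (hd : ‖d‖ = 1) : riK d g a b ≤ 0 ↔ RgI d g a b := by
  unfold riK RgI
  have := stS_bt (g := g) (a := a) (b := b) (x := 0) (f := fun v => -lv d v) (lv_continuous hd).neg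
  rw [sub_zero] at this
  rw [this]
  refine forall₂_congr fun u _ => ?_
  rw [neg_nonpos]

/-- the foreign gates from the closed gates with any balls -/
lemma FgI.of_gtI {P' : Tp} (h : GtI t P' g a b c) (hl : P.l ≤ P'.l) (hm : P.m ≤ P'.m) : FgI t P g a b c :=
  ⟨hl.trans h.l, hm.trans h.m, h.t1, h.r, h.t2⟩

end

/-! ### 2. Turned curves -/

section

variable {z : ℂ} (hz : ‖z‖ = 1)

lemma cutc_rot (z : ℂ) (g : C(I, ℂ)) (a b : I) : cutc (z • g) a b = z • cutc g a b := by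
  ext s
  rw [cutc_apply, ContinuousMap.smul_apply, ContinuousMap.smul_apply, ContinuousMap.smul_apply, cutc_apply, smul_sub]

lemma stS_rot (z : ℂ) (f : ℂ → ℝ) (h : C(I, ℂ)) : stS f (z • h) = stS (fun v => f (z * v)) h := rfl

lemma stN_rot (z : ℂ) (f k : ℂ → ℝ) (h : C(I, ℂ)) : stN f k (z • h) = stN (fun v => f (z * v)) (fun v => k (z * v)) h := rfl

lemma lv_rot (z d v : ℂ) : lv d (z * v) = lv (conj z * d) v := by
  unfold lv
  rw [map_mul, Complex.conj_conj]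
  congr 1
  ring

lemma ltl_rot (z d v : ℂ) : ltl d (z * v) = ltl (conj z * d) v := by
  unfold ltl
  rw [map_mul, Complex.conj_conj]
  congr 1
  ring

include hz

lemma nm_rot (v : ℂ) : ‖z * v‖ = ‖v‖ := by rw [norm_mul, hz, one_mul]

lemma cj_rot : z * conj z = 1 := by
  rw [Complex.mul_conj, Complex.normSq_eq_norm_sq, hz]
  norm_num

lemma nm_conj (d : ℂ) : ‖conj z * d‖ = ‖d‖ := by rw [norm_mul, Complex.norm_conj, hz, one_mul]

lemma fCo_rot (d : ℂ) (c : ℝ) (v : ℂ) : fCo d c (z * v) = fCo (conj z * d) c v := by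
  unfold fCo
  rw [nm_rot hz, lv_rot]

lemma fRa_rot (d : ℂ) (c r0 : ℝ) (v : ℂ) : fRa d c r0 (z * v) = fRa (conj z * d) c r0 v := by
  unfold fRa
  rw [nm_rot hz, lv_rot]

lemma fWe_rot (d d' : ℂ) (w cs κs : ℝ) (v : ℂ) : fWe d d' w cs κs (z * v) = fWe (conj z * d) (conj z * d') w cs κs v := by
  unfold fWe
  rw [nm_rot hz, lv_rot, lv_rot]

omit hz in
lemma fSt_rot (d : ℂ) (e len hw : ℝ) (v : ℂ) : fSt d e len hw (z * v) = fSt (conj z * d) e len hw v := by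
  unfold fSt
  rw [lv_rot, ltl_rot]

lemma fBn_rot (bn : ℝ) (v : ℂ) : fBn bn (z * v) = fBn bn v := by
  unfold fBn
  rw [nm_rot hz]

variable (d d' t : ℂ) (P Q : Tp) (E : En) (W : Wn) (g : C(I, ℂ)) (L : ℝ) (a b c a' b' c' : I)

theorem preF_rot : preF d P (z • g) L a b c = preF (conj z * d) P g L a b c := by
  unfold preF
  rw [cutc_rot, cutc_rot, stS_rot, ContinuousMap.smul_apply, smul_eq_mul, fCo_rot hz]
  simp only [fCo_rot hz]

theorem wdF_rot (w cs κs : ℝ) : wdF d d' w cs κs (z • g) a b = wdF (conj z * d) (conj z * d') w cs κs g a b := by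
  unfold wdF
  rw [cutc_rot, stS_rot]
  simp only [fWe_rot hz]

theorem paiF_rot : paiF d d' P Q (z • g) L a b c a' b' c' = paiF (conj z * d) (conj z * d') P Q g L a b c a' b' c' := by
  unfold paiF
  rw [preF_rot hz, preF_rot hz, wdF_rot hz, wdF_rot hz]

theorem rsF_rot : rsF d d' P Q W (z • g) L a b = rsF (conj z * d) (conj z * d') P Q W g L a b := by
  unfold rsF
  rw [cutc_rot, cutc_rot, stS_rot, stS_rot, ContinuousMap.smul_apply, smul_eq_mul, nm_rot hz]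
  simp only [fRa_rot hz]

theorem nrF_rot (s : Sr) : nrF d s (z • g) a b = nrF (conj z * d) s g a b := by
  unfold nrF
  rw [cutc_rot, stN_rot]
  simp only [fSt_rot, fBn_rot hz]

theorem mnF_rot (s s' : Sr) : mnF d d' P Q W s s' (z • g) L a b = mnF (conj z * d) (conj z * d') P Q W s s' g L a b := by
  unfold mnF
  rw [rsF_rot hz, nrF_rot hz, nrF_rot hz]

theorem kcF_rot : kcF d t E (z • g) L a b c = kcF (conj z * d) (conj z * t) E g L a b c := by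
  unfold kcF
  have e : ∀ v : ℂ, ‖z * v - (E.kc : ℂ) * d‖ = ‖v - (E.kc : ℂ) * (conj z * d)‖ := fun v => by
    have e1 : z * v - (E.kc : ℂ) * d = z * (v - (E.kc : ℂ) * (conj z * d)) := by
      have := cj_rot hz
      linear_combination ((E.kc : ℂ) * d) * this
    rw [e1, nm_rot hz]
  rw [cutc_rot, cutc_rot, cutc_rot, stS_rot, stS_rot, stS_rot, stS_rot, ContinuousMap.smul_apply, smul_eq_mul, fCo_rot hz, e]
  simp only [fCo_rot hz, nm_rot hz]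

theorem otF_rot (O : Ot) : otF d O (z • g) L a b = otF (conj z * d) O g L a b := by
  unfold otF
  rw [cutc_rot, stS_rot, stS_rot, ContinuousMap.smul_apply, smul_eq_mul, fCo_rot hz]
  simp only [fCo_rot hz, ltl_rot]

variable {d d' t P Q E W g L a b c a' b' c'}

theorem gtI_rot : GtI d P (z • g) a b c ↔ GtI (conj z * d) P g a b c := by
  constructor
  · rintro ⟨h1, h2, h3, h4, h5, h6, h7⟩
    simp only [ContinuousMap.smul_apply, smul_eq_mul, ← mul_sub, nm_rot hz, lv_rot] at h1 h2 h3 h4 h5 h6 h7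
    exact ⟨h1, h2, h3, h4, h5, h6, h7⟩
  · rintro ⟨h1, h2, h3, h4, h5, h6, h7⟩
    constructor <;> simp only [ContinuousMap.smul_apply, smul_eq_mul, ← mul_sub, nm_rot hz, lv_rot]
    exacts [h1, h2, h3, h4, h5, h6, h7]

omit hz in
theorem fgI_rot : FgI t P (z • g) a b c ↔ FgI (conj z * t) P g a b c := by
  constructor
  · rintro ⟨h1, h2, h3, h4, h5⟩
    simp only [ContinuousMap.smul_apply, smul_eq_mul, ← mul_sub, lv_rot] at h1 h2 h3 h4 h5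
    exact ⟨h1, h2, h3, h4, h5⟩
  · rintro ⟨h1, h2, h3, h4, h5⟩
    constructor <;> simp only [ContinuousMap.smul_apply, smul_eq_mul, ← mul_sub, lv_rot]
    exacts [h1, h2, h3, h4, h5]

theorem rtI_rot {ρ : ℝ} : RtI d ρ (z • g) a b ↔ RtI (conj z * d) ρ g a b := by
  unfold RtI
  simp only [ContinuousMap.smul_apply, smul_eq_mul, ← mul_sub, nm_rot hz, lv_rot]

omit hz in
theorem rgI_rot : RgI d (z • g) a b ↔ RgI (conj z * d) g a b := by
  unfold RgI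
  simp only [ContinuousMap.smul_apply, smul_eq_mul, ← mul_sub, lv_rot]

theorem preK_rot (d : ℂ) (P : Tp) (g : C(I, ℂ)) (a b c : I) : preK d P (z • g) a b c = preK (conj z * d) P g a b c := by
  unfold preK
  simp only [cutc_rot, stS_rot, ContinuousMap.smul_apply, smul_eq_mul, nm_rot hz, lv_rot]

theorem reK_rot (d : ℂ) (ρ : ℝ) (g : C(I, ℂ)) (a b : I) : reK d ρ (z • g) a b = reK (conj z * d) ρ g a b := by
  unfold reK
  simp only [cutc_rot, stS_rot, nm_rot hz, lv_rot]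

omit hz in
theorem riK_rot (d : ℂ) (g : C(I, ℂ)) (a b : I) : riK d (z • g) a b = riK (conj z * d) g a b := by
  unfold riK
  simp only [cutc_rot, stS_rot, lv_rot]

theorem balF_rot (r r2 : ℝ) (g : C(I, ℂ)) (a b c : I) : balF r r2 (z • g) a b c = balF r r2 g a b c := by
  unfold balF
  simp only [cutc_rot, stS_rot, nm_rot hz]

end

/-! ### 3. The two lattices -/

section

variable {d d' d1 d2 t t' t1 t2 : ℂ} {E E' : En} {W : Wn} {g : C(I, ℂ)} {L : ℝ} {a b c a' b' c' : I} {ε : ℝ} {F F' : Tp}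

/-- **from the lattice 0 to the rotated lattice**, one strand: tip `a`, native gates `b`, `c` (= `x`), foreign gates `b'`, `c'` over `x`
(data `F` with the levels of `E.f`) -/
theorem up_F (hE : E.Ok ε) (hd : ‖d‖ = 1) (ht : ‖t‖ = 1) (htd : ‖t - d‖ ≤ ε) (hL : 0 ≤ L) (ho : ChI a b c b' c')
    (hG : preK d E.n g a b c ≤ 0) (hF : preF d E.n g L a b c ≤ 0) (hg : preK t F g c b' c' ≤ 0) (fl : E.f.l ≤ F.l)
    (fm : E.f.m ≤ F.m) (hr : riK d g c c' ≤ 0) (hk : kcF d t E g L c b' c' ≤ 0) {y : ℝ} (hy : E.f.l + y ≤ lv t (g b' - g a)) :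
    preK t (E.f.up y) g a b' c' ≤ 0 ∧ preF t (E.f.up y) g L a b' c' ≤ 0 := by
  have h := preF_up hE hd ht htd hL ho ((preK_iff hd).1 hG) hF (FgI.of_gtI ((preK_iff ht).1 hg) fl fm) ((riK_iff hd).1 hr) hk hy
  exact ⟨(preK_iff ht).2 h.1, h.2.1⟩

/-- **the two strands at a root** -/
theorem pai_up_F (hE : E.Ok ε) (n1 : ‖d1‖ = 1) (n2 : ‖d2‖ = 1) (m1 : ‖t1‖ = 1) (m2 : ‖t2‖ = 1) (h1 : ‖t1 - d1‖ ≤ ε)
    (h2 : ‖t2 - d2‖ ≤ ε) (hL : 0 ≤ L) {a1 b1 c1 b1' c1' a2 b2 c2 b2' c2' : I} (o1 : ChI a1 b1 c1 b1' c1')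
    (o2 : ChI a2 b2 c2 b2' c2') (G1 : preK d1 E.n g a1 b1 c1 ≤ 0) (G2 : preK d2 E.n g a2 b2 c2 ≤ 0)
    (hF : paiF d1 d2 E.n E.n g L a1 b1 c1 a2 b2 c2 ≤ 0) (g1 : preK t1 F g c1 b1' c1' ≤ 0) (g2 : preK t2 F' g c2 b2' c2' ≤ 0)
    (fl : E.f.l ≤ F.l) (fm : E.f.m ≤ F.m) (fl' : E.f.l ≤ F'.l) (fm' : E.f.m ≤ F'.m)
    (r1 : riK d1 g c1 c1' ≤ 0) (r2 : riK d2 g c2 c2' ≤ 0) (k1 : kcF d1 t1 E g L c1 b1' c1' ≤ 0)
    (k2 : kcF d2 t2 E g L c2 b2' c2' ≤ 0) {y1 y2 : ℝ} (e1 : E.f.l + y1 ≤ lv t1 (g b1' - g a1))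
    (e2 : E.f.l + y2 ≤ lv t2 (g b2' - g a2)) :
    (preK t1 (E.f.up y1) g a1 b1' c1' ≤ 0 ∧ preK t2 (E.f.up y2) g a2 b2' c2' ≤ 0) ∧
      paiF t1 t2 (E.f.up y1) (E.f.up y2) g L a1 b1' c1' a2 b2' c2' ≤ 0 := by
  have h := paiF_up hE n1 n2 m1 m2 h1 h2 hL o1 o2 ((preK_iff n1).1 G1) ((preK_iff n2).1 G2) hF
    (FgI.of_gtI ((preK_iff m1).1 g1) fl fm) (FgI.of_gtI ((preK_iff m2).1 g2) fl' fm') ((riK_iff n1).1 r1) ((riK_iff n2).1 r2)
    k1 k2 e1 e2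
  exact ⟨⟨(preK_iff m1).2 h.1.1, (preK_iff m2).2 h.1.2⟩, h.2⟩

/-- **the rests of the lattice 0** -/
theorem kak_F (hE : E.Ok ε) (hE' : E'.Ok ε) (hd : ‖d‖ = 1) (hd' : ‖d'‖ = 1) (ht : ‖t‖ = 1) (ht' : ‖t'‖ = 1)
    (h1 : ‖t - d‖ ≤ ε) (h2 : ‖t' - d'‖ ≤ ε) (hL : 0 ≤ L)
    (ho : (a ≤ b ∧ b ≤ c ∧ c ≤ c' ∧ c' ≤ b' ∧ b' ≤ a') ∨ (a' ≤ b' ∧ b' ≤ c' ∧ c' ≤ c ∧ c ≤ b ∧ b ≤ a))
    (r1 : riK d g a c ≤ 0) (r2 : riK d' g a' c' ≤ 0) (k1 : kcF d t E g L a b c ≤ 0) (k2 : kcF d' t' E' g L a' b' c' ≤ 0)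
    (l1 : E.f.l + E.f.m ≤ lv t (g c - g a)) (l2 : E'.f.l + E'.f.m ≤ lv t' (g c' - g a'))
    (R1 : reK t E.f.rg g c c' ≤ 0) (R2 : reK t' E'.f.rg g c' c ≤ 0) (hA : rsF t t' E.f E'.f W g L c c' ≤ 0)
    (hD : 2 * (E.f.r0 + E'.f.r0) ≤ W.D0) :
    (reK d E.n.rg g a a' ≤ 0 ∧ reK d' E'.n.rg g a' a ≤ 0) ∧
      rsF d d' E.n E'.n ⟨W.D0 - (E.k + E'.k), W.D1 + (E.k + E'.k), W.t0, W.t1 + (E.lk + E'.lk)⟩ g L a a' ≤ 0 := by
  have h := rsF_kak hE hE' hd hd' ht ht' h1 h2 hL ho ((riK_iff hd).1 r1) ((riK_iff hd').1 r2) k1 k2 l1 l2 ((reK_iff ht).1 R1)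
    ((reK_iff ht').1 R2) hA hD
  exact ⟨⟨(reK_iff hd).2 h.1.1, (reK_iff hd').2 h.1.2⟩, h.2⟩

end

end Pool.Agent.ROT.F3
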