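import Pool.Agent.ROT.F3CoreV
import Pool.Agent.ROT.F3KRelR

/-!
# ROT, F3, row Core, part (C1): membership in `VT` from the statistics of the classes (helper42)

* `fRa_iff`, `stN_iff` (the minimum over the stages is attained);
* **`clR_of`**, **`clM_of`** : `reK, rsF ≤ 0` (`mnF ≤ 0`) ==> the piece is in the closed class `ClR` (`ClM`); `arV_of`, `amV_of` with the
  durations;
* `kv_of_F` : `kcF ≤ 0` ==> `KV`;
* **`vt_of`**, **`vt_of_mn`** : the rest between the marks `x` with the relative times of the marks `x~` is in `VT`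
  (`V` of `cls_marks`), any reading direction.
-/

set_option autoImplicit false

open MeasureTheory Topology Set unitInterval

open scoped ENNReal NNReal

namespace Pool.Agent.ROT.F3.CC

open Pool.Agent.ROT.F3

/-! ### 1. the statistics -/

lemma fRa_iff {d v : ℂ} {c r0 κ : ℝ} : fRa d c r0 v ≤ κ ↔ Kn d c κ v ∨ r0 - κ ≤ ‖v‖ := by
  unfold fRa Kn
  rw [min_le_iff]
  constructor
  · rintro (h | h)
    · left; linarith
    · right; linarith
  · rintro (h | h)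
    · left; linarith
    · right; linarith

/-- **no return**: the minimum is attained -/
theorem stN_iff {f k : ℂ → ℝ} (hf : Continuous f) (hk : Continuous k) (h : C(I, ℂ)) {a : ℝ} :
    stN f k h ≤ a ↔ ∃ τ : I, (∀ s, s ≤ τ → f (h s) ≤ a) ∧ ∀ s, τ ≤ s → k (h s) ≤ a := by
  constructor
  · intro hle
    -- compactness of the set of the good `τ`
    have hcl : ∀ n : ℕ, IsClosed {τ : I | ∀ s : I, max (f (h (min τ s))) (k (h (max τ s))) ≤ a + 1 / ((n : ℝ) + 1)} := by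
      intro n
      have e : {τ : I | ∀ s : I, max (f (h (min τ s))) (k (h (max τ s))) ≤ a + 1 / ((n : ℝ) + 1)} =
          ⋂ s : I, {τ : I | max (f (h (min τ s))) (k (h (max τ s))) ≤ a + 1 / ((n : ℝ) + 1)} := by
        ext τ
        simp only [mem_iInter, mem_ofPred_eq]
      rw [e]
      refine isClosed_iInter fun s => isClosed_le ?_ continuous_const
      exact (hf.comp (h.continuous.comp (continuous_id.min continuous_const))).max
        (hk.comp (h.continuous.comp (continuous_id.max continuous_const)))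
    have hne : ∀ n : ℕ, {τ : I | ∀ s : I, max (f (h (min τ s))) (k (h (max τ s))) ≤ a + 1 / ((n : ℝ) + 1)}.Nonempty := by
      intro n
      have hn : (0 : ℝ) < 1 / ((n : ℝ) + 1) := by positivity
      obtain ⟨τ, h1, h2⟩ := of_stN hf hk h (a := a + 1 / ((n : ℝ) + 1)) (by linarith)
      exact ⟨τ, fun s => max_le (h1 _ (min_le_left _ _)).le (h2 _ (le_max_left _ _)).le⟩
    obtain ⟨τ, hτ⟩ := IsCompact.nonempty_iInter_of_sequence_nonempty_isCompact_isClosed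
      (fun n : ℕ => {τ : I | ∀ s : I, max (f (h (min τ s))) (k (h (max τ s))) ≤ a + 1 / ((n : ℝ) + 1)})
      (fun n τ hτ s => (hτ s).trans (by
        have h1 : 1 / (((n + 1 : ℕ) : ℝ) + 1) ≤ 1 / ((n : ℝ) + 1) := by
          apply one_div_le_one_div_of_le (by positivity)
          push_cast
          linarith
        linarith)) hne (hcl 0).isCompact hcl
    have key : ∀ s : I, max (f (h (min τ s))) (k (h (max τ s))) ≤ a := by
      intro s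
      refine le_of_forall_pos_lt_add fun ε hε => ?_
      obtain ⟨n, hn⟩ := exists_nat_one_div_lt hε
      have := mem_iInter.1 hτ n s
      linarith
    refine ⟨τ, fun s hs => ?_, fun s hs => ?_⟩
    · have := (le_max_left _ _).trans (key s)
      rwa [min_eq_right hs] at this
    · have := (le_max_right _ _).trans (key s)
      rwa [max_eq_right hs] at this
  · rintro ⟨τ, h1, h2⟩
    exact stN_le hf hk h τ h1 h2

section

variable {d d' t t' : ℂ} {P Q : Tp} {E E' : En} {W : Wn} {g : C(I, ℂ)} {L : ℝ} {a b c a' b' c' : I}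

lemma edK_iff {v : ℂ} : v ∈ EdK d P ↔ min (-lv d v) (P.rg - ‖v‖) ≤ 0 ∧ fRa d P.c P.r0 v ≤ P.κ := by
  rw [fRa_iff, min_le_iff]
  show (0 ≤ lv d v ∨ P.rg ≤ ‖v‖) ∧ (Kn d P.c P.κ v ∨ P.r0 - P.κ ≤ ‖v‖) ↔ _
  constructor
  · rintro ⟨h1, h2⟩
    refine ⟨?_, h2⟩
    rcases h1 with h | h
    · left; linarith
    · right; linarith
  · rintro ⟨h1, h2⟩
    refine ⟨?_, h2⟩
    rcases h1 with h | h
    · left; linarith
    · right; linarith

/-- reversed pieces -/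
lemma cutc_rev (g : C(I, ℂ)) (a b s : I) : cutc g b a (σ s) = cutc g a b s - cutc g a b 1 := by
  rw [← cutp_eq, ← cutp_eq, cutp_apply, cutp_apply, cutp_one, coe_symm_eq, ex_coe, ex_coe]
  have : (b : ℝ) + (1 - (s : ℝ)) * (a - b) = a + s * (b - a) := by ring
  rw [this]
  ring

/-- **the piece is in the closed class of the rests** -/
theorem clR_of (hd : ‖d‖ = 1) (hd' : ‖d'‖ = 1) (hP : P.Co) (hQ : Q.Co) (R1 : reK d P.rg g a b ≤ 0) (R2 : reK d' Q.rg g b a ≤ 0)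
    (h : rsF d d' P Q W g L a b ≤ 0) : cutc g a b ∈ ClR d d' P Q W := by
  unfold rsF at h
  rw [max_le_iff, max_le_iff, max_le_iff, max_le_iff, max_le_iff] at h
  obtain ⟨⟨⟨h1, h2⟩, h3, h4⟩, -, -⟩ := h
  unfold reK at R1 R2
  rw [stS_le_iff (reK_lip hd P.rg).continuous] at R1
  rw [stS_le_iff (reK_lip hd' Q.rg).continuous] at R2
  rw [sub_nonpos, stS_le_iff (fRa_lip hd hP.c0 hP.c1).continuous] at h1
  rw [sub_nonpos, stS_le_iff (fRa_lip hd' hQ.c0 hQ.c1).continuous] at h2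
  refine ⟨cutc_zero g a b, ⟨by linarith, by linarith⟩, fun s => ⟨edK_iff.2 ⟨R1 s, h1 s⟩, ?_⟩⟩
  rw [← cutc_rev g a b s]
  exact edK_iff.2 ⟨R2 _, h2 _⟩

lemma stK_iff {v : ℂ} {s : Sr} : v ∈ StK d s ↔ fSt d s.e s.len s.hw v ≤ 0 := by
  unfold fSt
  rw [max_le_iff, max_le_iff]
  show (-s.e ≤ lv d v ∧ lv d v ≤ s.len ∧ |ltl d v| ≤ s.hw) ↔ _
  constructor
  · rintro ⟨h1, h2, h3⟩
    exact ⟨⟨by linarith, by linarith⟩, by linarith⟩
  · rintro ⟨⟨h1, h2⟩, h3⟩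
    exact ⟨by linarith, by linarith, by linarith⟩

lemma ouK_iff {v : ℂ} {s : Sr} : v ∈ OuK s ↔ fBn s.bn v ≤ 0 := by
  unfold fBn
  show s.bn ≤ ‖v‖ ↔ _
  rw [sub_nonpos]

/-- **the piece is in the closed class of the main arcs** -/
theorem clM_of {s s' : Sr} (hd : ‖d‖ = 1) (hd' : ‖d'‖ = 1) (hP : P.Co) (hQ : Q.Co) (R1 : reK d P.rg g a b ≤ 0)
    (R2 : reK d' Q.rg g b a ≤ 0) (h : mnF d d' P Q W s s' g L a b ≤ 0) : cutc g a b ∈ ClM d d' P Q W s s' := by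
  unfold mnF at h
  rw [max_le_iff, max_le_iff] at h
  obtain ⟨h1, h2, h3⟩ := h
  unfold nrF at h2 h3
  rw [stN_iff (fSt_lip hd).continuous fBn_lip.continuous] at h2
  rw [stN_iff (fSt_lip hd').continuous fBn_lip.continuous] at h3
  obtain ⟨τ, t1, t2⟩ := h2
  obtain ⟨τ', t3, t4⟩ := h3
  refine ⟨clR_of hd hd' hP hQ R1 R2 h1, ⟨τ, fun u hu => stK_iff.2 (t1 u hu), fun u hu => ouK_iff.2 (t2 u hu)⟩,
    ⟨σ τ', fun u hu => ?_, fun u hu => ?_⟩⟩
  · rw [← cutc_rev g a b u]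
    refine ouK_iff.2 (t4 _ ?_)
    have := symm_le_symm.2 hu
    rwa [symm_symm] at this
  · rw [← cutc_rev g a b u]
    refine stK_iff.2 (t3 _ ?_)
    have := symm_le_symm.2 hu
    rwa [symm_symm] at this

lemma dur_of (hL : 0 ≤ L) (h : rsF d d' P Q W g L a b ≤ 0) : W.t0 ≤ L * |(b : ℝ) - a| ∧ L * |(b : ℝ) - a| ≤ W.t1 := by
  unfold rsF at h
  rw [max_le_iff, max_le_iff, max_le_iff, max_le_iff, max_le_iff] at h
  obtain ⟨-, h1, h2⟩ := h
  have h0 : 0 ≤ L * |(b : ℝ) - a| := mul_nonneg hL (abs_nonneg _)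
  refine ⟨?_, ?_⟩
  · unfold duL at h1
    split_ifs at h1 with h3
    · exact h3.trans h0
    · linarith [mul_comm L |(b : ℝ) - a|]
  · unfold duU at h2
    linarith [mul_comm L |(b : ℝ) - a|]

/-- the piece with its duration is an arc of a companion -/
theorem arV_of (hd : ‖t‖ = 1) (hd' : ‖t'‖ = 1) (hP : E.f.Co) (hQ : E'.f.Co) (hL : 0 ≤ L) (R1 : reK t E.f.rg g a b ≤ 0)
    (R2 : reK t' E'.f.rg g b a ≤ 0) (h : rsF t t' E.f E'.f W g L a b ≤ 0) :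
    pcut ((g, L) : Pie) a b ∈ ArV t t' E E' W := by
  refine ⟨?_, dur_of hL h⟩
  show cutp g a b ∈ ClR t t' E.f E'.f W
  rw [cutp_eq]
  exact clR_of hd hd' hP hQ R1 R2 h

/-- the piece with its duration is a main arc -/
theorem amV_of (hd : ‖t‖ = 1) (hd' : ‖t'‖ = 1) (hP : E.f.Co) (hQ : E'.f.Co) (hL : 0 ≤ L) (R1 : reK t E.f.rg g a b ≤ 0)
    (R2 : reK t' E'.f.rg g b a ≤ 0) (h : mnF t t' E.f E'.f W E.s E'.s g L a b ≤ 0) :
    pcut ((g, L) : Pie) a b ∈ AmV t t' E E' W := by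
  refine ⟨?_, dur_of hL ((le_max_left _ _).trans h)⟩
  show cutp g a b ∈ ClM t t' E.f E'.f W E.s E'.s
  rw [cutp_eq]
  exact clM_of hd hd' hP hQ R1 R2 h

/-- **the pieces** -/
theorem kv_of_F (hd : ‖d‖ = 1) (hn : E.n.Co) (hr2 : 0 ≤ E.f.r2) (ho : BtI a b c) (h : kcF d t E g L a b c ≤ 0) :
    KV d E (pcut ((g, L) : Pie) a c) := by
  unfold kcF at h
  simp only [max_le_iff] at h
  obtain ⟨⟨⟨h1, h2⟩, h3, -⟩, ⟨h4, h5⟩, h6⟩ := h
  rw [sub_nonpos, stS_le_iff continuous_norm] at h1 h2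
  rw [sub_nonpos, stS_le_iff (fCo_lip hd hn.c0 hn.c1).continuous] at h3
  refine kv_of (b := (b : ℝ)) ?_ (fun u => ?_) (fun u => ?_) hr2 (fun u => ?_) ?_ ?_ ?_
  · rcases ho with h | h
    · have q1 : (a : ℝ) ≤ b := h.1
      have q2 : (b : ℝ) ≤ c := h.2
      rw [uIcc_of_le (q1.trans q2)]
      exact ⟨q1, q2⟩
    · have q1 : (c : ℝ) ≤ b := h.1
      have q2 : (b : ℝ) ≤ a := h.2
      rw [uIcc_of_ge (q1.trans q2)]
      exact ⟨q1, q2⟩
  · rw [cutp_eq]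
    exact h1 u
  · rw [cutp_eq]
    exact h2 u
  · rw [cutp_eq]
    have := h3 u
    unfold fCo at this
    unfold Kn
    linarith
  · rw [cutp_eq]
    unfold fCo at h4
    linarith
  · rw [cutp_eq]
    linarith
  · show L * |(c : ℝ) - a| ≤ E.lk
    unfold duU at h6
    linarith [mul_comm L |(c : ℝ) - a|]

/-- the order of the marks x, c~, x~, x~', c~', x' -/
def O6 (a b c c' b' a' : I) : Prop :=
  (a ≤ b ∧ b ≤ c ∧ c ≤ c' ∧ c' ≤ b' ∧ b' ≤ a') ∨ (a' ≤ b' ∧ b' ≤ c' ∧ c' ≤ c ∧ c ≤ b ∧ b ≤ a)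

theorem vt_core {AC : Set Pie} (hd : ‖d‖ = 1) (hd' : ‖d'‖ = 1) (hn : E.n.Co) (hn' : E'.n.Co) (hr2 : 0 ≤ E.f.r2)
    (hr2' : 0 ≤ E'.f.r2) (ho : O6 a b c c' b' a') (hne : a ≠ a') (k1 : kcF d t E g L a b c ≤ 0)
    (k2 : kcF d' t' E' g L a' b' c' ≤ 0) (hA : pcut ((g, L) : Pie) c c' ∈ AC) :
    (pcut ((g, L) : Pie) a a', (((c : ℝ) - a) / (a' - a), ((c' : ℝ) - a) / (a' - a))) ∈ VT d d' E E' AC := by
  have hne' : (a : ℝ) ≠ a' := fun h => hne (Subtype.ext h)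
  have hz : (a' : ℝ) - a ≠ 0 := fun h => hne' (by linarith)
  have hb1 : BtI a b c := by
    rcases ho with ⟨h1, h2, h3, h4, h5⟩ | ⟨h1, h2, h3, h4, h5⟩
    · exact Or.inl ⟨h1, h2⟩
    · exact Or.inr ⟨h4, h5⟩
  have hb2 : BtI a' b' c' := by
    rcases ho with ⟨h1, h2, h3, h4, h5⟩ | ⟨h1, h2, h3, h4, h5⟩
    · exact Or.inr ⟨h4, h5⟩
    · exact Or.inl ⟨h1, h2⟩
  have m1 : ((c : ℝ) - a) / (a' - a) ∈ Icc (0 : ℝ) 1 := by
    refine div_mem hne' ?_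
    rcases ho with ⟨h1, h2, h3, h4, h5⟩ | ⟨h1, h2, h3, h4, h5⟩
    · have q1 : (a : ℝ) ≤ c := h1.trans h2
      have q2 : (c : ℝ) ≤ a' := h3.trans (h4.trans h5)
      rw [uIcc_of_le (q1.trans q2)]
      exact ⟨q1, q2⟩
    · have q1 : (a' : ℝ) ≤ c := h1.trans (h2.trans h3)
      have q2 : (c : ℝ) ≤ a := h4.trans h5
      rw [uIcc_of_ge (q1.trans q2)]
      exact ⟨q1, q2⟩
  have m2 : ((c' : ℝ) - a) / (a' - a) ∈ Icc (0 : ℝ) 1 := by
    refine div_mem hne' ?_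
    rcases ho with ⟨h1, h2, h3, h4, h5⟩ | ⟨h1, h2, h3, h4, h5⟩
    · have q1 : (a : ℝ) ≤ c' := h1.trans (h2.trans h3)
      have q2 : (c' : ℝ) ≤ a' := h4.trans h5
      rw [uIcc_of_le (q1.trans q2)]
      exact ⟨q1, q2⟩
    · have q1 : (a' : ℝ) ≤ c' := h1.trans h2
      have q2 : (c' : ℝ) ≤ a := h3.trans (h4.trans h5)
      rw [uIcc_of_ge (q1.trans q2)]
      exact ⟨q1, q2⟩
  have m3 : ((c : ℝ) - a) / (a' - a) ≤ ((c' : ℝ) - a) / (a' - a) := by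
    rcases ho with ⟨h1, h2, h3, h4, h5⟩ | ⟨h1, h2, h3, h4, h5⟩
    · have h6 : (a : ℝ) ≤ a' := h1.trans (h2.trans (h3.trans (h4.trans h5)))
      have h7 : (c : ℝ) ≤ c' := h3
      exact div_le_div_of_nonneg_right (by linarith) (by linarith)
    · have h6 : (a' : ℝ) ≤ a := h1.trans (h2.trans (h3.trans (h4.trans h5)))
      have h7 : (c' : ℝ) ≤ c := h3
      exact div_le_div_of_nonpos_of_le (by linarith) (by linarith)
  have i0 : (0 : ℝ) ∈ Icc (0 : ℝ) 1 := ⟨le_rfl, zero_le_one⟩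
  have i1 : (1 : ℝ) ∈ Icc (0 : ℝ) 1 := ⟨zero_le_one, le_rfl⟩
  have e1 : (a : ℝ) + ((c : ℝ) - a) / (a' - a) * (a' - a) = c := by
    rw [div_mul_cancel₀ _ hz]
    ring
  have e2 : (a : ℝ) + ((c' : ℝ) - a) / (a' - a) * (a' - a) = c' := by
    rw [div_mul_cancel₀ _ hz]
    ring
  refine ⟨m1.1, m3, m2.2, cutp_zero _ _ _, ?_, ?_, ?_⟩
  · show KV d E (pcut (pcut ((g, L) : Pie) a a') 0 (((c : ℝ) - a) / (a' - a)))
    rw [pcut_pcut i0 m1, e1, zero_mul, add_zero]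
    exact kv_of_F hd hn hr2 hb1 k1
  · show KV d' E' (pcut (pcut ((g, L) : Pie) a a') 1 (((c' : ℝ) - a) / (a' - a)))
    rw [pcut_pcut i1 m2, e2, one_mul, add_sub_cancel]
    exact kv_of_F hd' hn' hr2' hb2 k2
  · show pcut (pcut ((g, L) : Pie) a a') (((c : ℝ) - a) / (a' - a)) (((c' : ℝ) - a) / (a' - a)) ∈ AC
    rw [pcut_pcut m1 m2, e1, e2]
    exact hA

/-- **the field `hGV`**, companions -/
theorem vt_of {ε : ℝ} (hE : E.Ok ε) (hE' : E'.Ok ε) (hd : ‖d‖ = 1) (hd' : ‖d'‖ = 1) (ht : ‖t‖ = 1) (ht' : ‖t'‖ = 1) (hL : 0 ≤ L)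
    (ho : O6 a b c c' b' a') (hne : a ≠ a') (k1 : kcF d t E g L a b c ≤ 0) (k2 : kcF d' t' E' g L a' b' c' ≤ 0)
    (R1 : reK t E.f.rg g c c' ≤ 0) (R2 : reK t' E'.f.rg g c' c ≤ 0) (hA : rsF t t' E.f E'.f W g L c c' ≤ 0) :
    (pcut ((g, L) : Pie) a a', (((c : ℝ) - a) / (a' - a), ((c' : ℝ) - a) / (a' - a))) ∈ VT d d' E E' (ArV t t' E E' W) :=
  vt_core hd hd' hE.n.co hE'.n.co hE.f.r2.le hE'.f.r2.le ho hne k1 k2 (arV_of ht ht' hE.f.co hE'.f.co hL R1 R2 hA)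

/-- **the field `hGV`**, main arcs -/
theorem vt_of_mn {ε : ℝ} (hE : E.Ok ε) (hE' : E'.Ok ε) (hd : ‖d‖ = 1) (hd' : ‖d'‖ = 1) (ht : ‖t‖ = 1) (ht' : ‖t'‖ = 1)
    (hL : 0 ≤ L) (ho : O6 a b c c' b' a') (hne : a ≠ a') (k1 : kcF d t E g L a b c ≤ 0) (k2 : kcF d' t' E' g L a' b' c' ≤ 0)
    (R1 : reK t E.f.rg g c c' ≤ 0) (R2 : reK t' E'.f.rg g c' c ≤ 0) (hA : mnF t t' E.f E'.f W E.s E'.s g L c c' ≤ 0) :
    (pcut ((g, L) : Pie) a a', (((c : ℝ) - a) / (a' - a), ((c' : ℝ) - a) / (a' - a))) ∈ VT d d' E E' (AmV t t' E E' W) :=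
  vt_core hd hd' hE.n.co hE'.n.co hE.f.r2.le hE'.f.r2.le ho hne k1 k2 (amV_of ht ht' hE.f.co hE'.f.co hL R1 R2 hA)

end

end Pool.Agent.ROT.F3.CC
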