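import Pool.Agent.ROT.F3CoreP
import Pool.Agent.ROT.F3CoreR
import Pool.Agent.ROT.F3LevM

/-!
# ROT, F3, row Core (helper17): one pair of classes, all inputs

* `Jm.cut` : the weight of the second lattice only on the connections in `Cp`, `Cq`;
* **`pair_fin`** : `PairIn` from the lattice data of both lattices (`zero_prm`, `lev_prm` of F3CoreS), the marks with variable threshold
  (output of `cells_glue`, F3LevM), the geometry (`hsub_prm`) and the joint marks `Jm`.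
-/

set_option autoImplicit false
set_option linter.unusedSectionVars false

open MeasureTheory Topology Set ProbabilityTheory Filter

open scoped ENNReal

namespace Pool.Agent.ROT.F3.CC

open Pool.Agent.ROT.F3 Pool.Agent.ROT.F3.CK

section

variable {μ : Measure Gm} {w0 wF : Gm → ℝ≥0∞} {T S : Gm → Fin 8 → ℝ} {F1 F2 Ep Eq : Set Gm} {SF TF : Gm → M4}
  {C1 C2 : Set Pie} {t1 t1' t2 t2' : Pie → ℝ} {Cp Cq : Set K4} {fp fq : K4 → Pie × Pie} {Z W : Set ℂ}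

/-- the weight only on the connections in `Cp`, `Cq` -/
theorem Jm.cut (H : Jm μ w0 wF T S F1 F2 Ep Eq SF TF C1 C2 t1 t1' t2 t2' Cp Cq fp fq Z W) :
    Jm μ w0 ((dat S ⁻¹' ((Cp ×ˢ Cq) ×ˢ univ)).indicator wF) T S F1 F2 Ep Eq SF TF C1 C2 t1 t1' t2 t2' Cp Cq fp fq Z W := by
  have key : ∀ g, (dat S ⁻¹' ((Cp ×ˢ Cq) ×ˢ univ)).indicator wF g ≠ 0 →
      wF g ≠ 0 ∧ (dat S ⁻¹' ((Cp ×ˢ Cq) ×ˢ univ)).indicator wF g = wF g := fun g hg => by
    have hm : g ∈ dat S ⁻¹' ((Cp ×ˢ Cq) ×ˢ univ) := by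
      by_contra hn
      exact hg (indicator_of_notMem hn _)
    rw [indicator_of_mem hm] at hg ⊢
    exact ⟨hg, rfl⟩
  refine ⟨H.h1, H.h2, H.o1, H.o2, ?_, ?_, ?_, ?_⟩
  · filter_upwards [H.h3] with g hg hne
    exact hg (key g hne).1
  · filter_upwards [H.h4] with g hg hne
    exact hg (key g hne).1
  · filter_upwards [H.h3, H.h4, H.h5] with g g3 g4 hg hne a1 a2 hD
    obtain ⟨b1, b2, b3, b4, b5⟩ := hg hne a1 a2 hD
    have hwF : wF g ≠ 0 := by rwa [← b1]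
    have hm : g ∈ dat S ⁻¹' ((Cp ×ˢ Cq) ×ˢ univ) := ⟨⟨(g3 hwF).1.2 b2, (g4 hwF).1.2 b3⟩, trivial⟩
    exact ⟨b1.trans (indicator_of_mem hm _).symm, b2, b3, b4, b5⟩
  · filter_upwards [H.h6] with g hg hne
    exact hg (key g hne).1

end

section pair

variable {μ : Measure Gm} {w0 wF : Gm → ℝ≥0∞} {T S : Gm → Fin 8 → ℝ} {F1 F2 Ep Eq : Set Gm} {SF TF : Gm → M4}
  {C1 C2 : Set Pie} {t1 t1' t2 t2' : Pie → ℝ} {Cp Cq : Set K4} {fp fq : K4 → Pie × Pie} {Z W : Set ℂ}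

/-- **one pair of classes, all inputs** -/
noncomputable def pair_fin {β1 β2 : Measure Pie} {b1 b2 : FiniteMeasure Pie} (mT : Measurable T) (mS : Measurable S)
    (mF : Measurable wF) (mCp : MeasurableSet Cp) (mCq : MeasurableSet Cq) (mfp : Measurable fp) (mfq : Measurable fq)
    {Z0 W0 : Set ℂ}
    (H0 : IsFiniteMeasure ((μ.withDensity w0).map (dat T)) ∧
      Den ((μ.withDensity w0).map (dat T)) (β1.prod (β2.prod volume)) (DD Prod.fst Prod.fst yP yP Z0 W0) (zw yP yP)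
        (fun _ => 1) ∧
      (β1.prod (β2.prod volume)).restrict (DD Prod.fst Prod.fst yP yP Z0 W0) ≪ ((μ.withDensity w0).map (dat T)).map Prod.snd)
    {V : Ultrafilter ℕ} {bA bB : ℕ → FiniteMeasure Pie} {m : ℕ → Measure ℂ} {c : ℝ} {Cc R Cc' : ℕ → ℝ}
    {γ γ' : ℕ → (K4 → ℝ) → ℕ → ℂ → ℝ} {ρN : ℕ → ℕ → ℕ → Measure ((K4 × K4) × (Pie × (Pie × ℂ)))}
    {w : ℕ → ℕ → Gm → ℝ≥0∞} {M : ℕ → ℕ → Gm → Fin 8 → ℝ}
    (HR : LevIn V bA b1 bB b2 m c yP yP Cc R Cc' γ γ' ρN (fun i j => (μ.withDensity (w i j)).map (dat (M i j)))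
      (DD Prod.fst Prod.fst yP yP Z W))
    (mw : ∀ i j, Measurable (w i j)) (mM : ∀ i j, Measurable (M i j)) {Xp Xq : ℕ → ℕ → Set K4}
    (mXp : ∀ n i, MeasurableSet (Xp n i)) (mXq : ∀ n i, MeasurableSet (Xq n i))
    (HG : ∃ wR : ℕ → ℕ → Gm → ℝ≥0∞, (∀ n n', Measurable (wR n n')) ∧
      (∀ n n', MarkOf μ w (fun i j => dat (M i j)) (Xp n) (Xq n') (wR n n') (dat S)) ∧
      (∀ n n', ∀ᵐ g ∂μ, wR n n' g ≤ wR (n + 1) n' g) ∧ (∀ n n', ∀ᵐ g ∂μ, wR n n' g ≤ wR n (n' + 1) g) ∧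
      ∀ᵐ g ∂μ, (dat S ⁻¹' ((Cp ×ˢ Cq) ×ˢ univ)).indicator wF g = ⨆ n, wR n n g)
    (hsub : ∀ p : Pie × (Pie × ℂ), p.1 ∈ (clsC t1 t1' C1).C → p.2.1 ∈ (clsC t2 t2' C2).C →
      pi3 (tht (clsC t1 t1' C1).τ (clsC t2 t2' C2).τ (clsC t1 t1' C1).s (clsC t2 t2' C2).s p) ∈
        DD (clsC t1 t1' C1).g (clsC t2 t2' C2).g (clsC t1 t1' C1).y (clsC t2 t2' C2).y Z W →
      p ∈ DD Prod.fst Prod.fst yP yP Z0 W0)
    (J : Jm μ w0 wF T S F1 F2 Ep Eq SF TF C1 C2 t1 t1' t2 t2' Cp Cq fp fq Z W) :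
    PairIn (clsC t1 t1' C1) (clsC t2 t2' C2) β1 β2 b1 b2 volume Z W Gm (K4 × K4) K4 K4 :=
  have mI : Measurable ((dat S ⁻¹' ((Cp ×ˢ Cq) ×ˢ univ)).indicator wF) :=
    mF.indicator (dat_meas mS ((mCp.prod mCq).prod MeasurableSet.univ))
  pair_of mT mS mCp mCq mfp mfq H0.1 H0.2.1 H0.2.2
    (fun Φ hΦ => by
      obtain ⟨wR, k1, k2, k3, k4, k5⟩ := HG
      exact HR.denM mw (fun i j => dat_meas (mM i j)) k1 mI (dat_meas mS) mXp mXq k2 k3 k4 k5 hΦ)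
    (by
      obtain ⟨wR, k1, k2, k3, k4, k5⟩ := HG
      exact HR.denPM mw (fun i j => dat_meas (mM i j)) k1 mI (dat_meas mS) mXp mXq k2 k3 k4 k5
        (measurable_const.indicator mCp) (measurable_const.indicator mCq))
    hsub J.cut

end pair

end Pool.Agent.ROT.F3.CC
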