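import Pool.Agent.ROT.F3Cells
import Pool.Agent.ROT.F3Cell

/-!
# F3, row N4: the cells of the main arc (helper48)

`cov_cells`: a compact set `S` with a local property `Good x r` (for every `x ∈ S`, arbitrarily small `r`) has finitely many
Lipschitz cells of good balls on which a continuous function is nearly constant. `cov_sum`, `cov_ofReal`: for every system of
weights which is concentrated on the collar of `S` the cells carry almost everything and compute the integral of the function: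
the hypotheses `hm2, hn2, hmF, hnF` of `tri_cells`.
-/

set_option autoImplicit false

open Finset
open scoped ENNReal

namespace HexObs
namespace ROT
namespace F3

/-- finitely many Lipschitz cells `u a` (`a ∈ A`) with radii `rad a`, and the collar `η` of `S`; `F` varies by `t` on a cell -/
structure Cells {X : Type*} [PseudoMetricSpace X] (S : Set X) (F : X → ℝ) (t : ℝ) (A : Finset X) (rad : X → ℝ)
    (u : X → X → ℝ) (η : ℝ) : Prop where
  pos : 0 < η
  mem : ∀ a ∈ A, a ∈ S
  lip : ∃ L : NNReal, ∀ a ∈ A, LipschitzWith L (u a)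
  rng : ∀ a ∈ A, ∀ x, 0 ≤ u a x ∧ u a x ≤ 1
  supp : ∀ a ∈ A, ∀ x, rad a ≤ dist x a → u a x = 0
  sum_le : ∀ x, ∑ a ∈ A, u a x ≤ 1
  sum_one : ∀ x, ∀ s ∈ S, dist x s ≤ η → ∑ a ∈ A, u a x = 1
  osc : ∀ a ∈ A, ∀ x, u a x ≠ 0 → |F x - F a| ≤ t

/-- **the cover by good cells** -/
theorem cov_cells {X : Type*} [PseudoMetricSpace X] {S : Set X} (hS : IsCompact S) {F : X → ℝ} (hF : Continuous F) {t η0 : ℝ}
    (ht : 0 < t) (hη0 : 0 < η0) {Good : X → ℝ → Prop} (hG : ∀ x ∈ S, ∀ η : ℝ, 0 < η → ∃ r, 0 < r ∧ r ≤ η ∧ Good x r) :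
    ∃ (A : Finset X) (rad : X → ℝ) (u : X → X → ℝ) (η : ℝ), Cells S F t A rad u η ∧ η ≤ η0 ∧
      ∀ a ∈ A, 0 < rad a ∧ rad a ≤ η0 ∧ Good a (rad a) := by
  classical
  have h1 : ∀ x : X, ∃ r : ℝ, x ∈ S → 0 < r ∧ r ≤ η0 ∧ (∀ y, dist y x < r → |F y - F x| ≤ t) ∧ Good x r := by
    intro x
    by_cases hx : x ∈ S
    · obtain ⟨d, hd, hd'⟩ := Metric.continuous_iff.1 hF x t ht
      obtain ⟨r, hr, hr1, hr2⟩ := hG x hx (min d η0) (lt_min hd hη0)
      refine ⟨r, fun _ => ⟨hr, hr1.trans (min_le_right _ _), fun y hy => ?_, hr2⟩⟩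
      have := hd' y (hy.trans_le (hr1.trans (min_le_left _ _)))
      rw [Real.dist_eq] at this
      exact this.le
    · exact ⟨0, fun h => absurd h hx⟩
  choose r hr using h1
  obtain ⟨A, u, L, η, a1, a2, a3, a4, a5, a6, a7⟩ := lip_cover hS r fun x hx => (hr x hx).1
  refine ⟨A, r, u, min η η0, ⟨lt_min a1 hη0, a2, ⟨L, a3⟩, a4, a5, a6, fun x s hs hx => a7 x s hs (hx.trans (min_le_left _ _)), ?_⟩,
    min_le_right _ _, fun a ha => ?_⟩
  · intro a ha x hx
    refine (hr a (a2 a ha)).2.2.1 x ?_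
    by_contra h
    exact hx (a5 a ha x (not_lt.1 h))
  · exact ⟨(hr a (a2 a ha)).1, (hr a (a2 a ha)).2.1, (hr a (a2 a ha)).2.2.2⟩

/-- **weights concentrated on the collar** (real weights `m`, curves `cur`) -/
theorem cov_sum {X W : Type*} [PseudoMetricSpace X] {S : Set X} {F : X → ℝ} {t : ℝ} {A : Finset X} {rad : X → ℝ}
    {u : X → X → ℝ} {η : ℝ} (h : Cells S F t A rad u η) (ht : 0 ≤ t) (hF : ∀ x, |F x| ≤ 1) {m : W → ℝ} {cur : W → X} {ε : ℝ}
    (h0 : ∀ w, 0 ≤ m w) (hs : Summable m) (hc : ∑' w, {w | ∀ s ∈ S, η < dist (cur w) s}.indicator m w ≤ ε * ∑' w, m w) :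
    (1 - ε) * ∑' w, m w ≤ ∑ a ∈ A, ∑' w, m w * u a (cur w) ∧ ∑ a ∈ A, ∑' w, m w * u a (cur w) ≤ ∑' w, m w ∧
      |∑' w, m w * F (cur w) - ∑ a ∈ A, F a * ∑' w, m w * u a (cur w)| ≤ (t + ε) * ∑' w, m w := by
  classical
  have su : ∀ a ∈ A, Summable fun w => m w * u a (cur w) := fun a ha =>
    Summable.of_nonneg_of_le (fun w => mul_nonneg (h0 w) (h.rng a ha _).1)
      (fun w => mul_le_of_le_one_right (h0 w) (h.rng a ha _).2) hs
  have sF : Summable fun w => m w * F (cur w) := by
    refine Summable.of_norm_bounded hs fun w => ?_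
    rw [Real.norm_eq_abs, abs_mul, abs_of_nonneg (h0 w)]
    exact mul_le_of_le_one_right (h0 w) (hF _)
  set C : Set W := {w | ∀ s ∈ S, η < dist (cur w) s} with hC
  have sC : Summable (C.indicator m) := hs.indicator C
  have hC1 : ∑' w, C.indicator m w ≤ ε * ∑' w, m w := hc
  have e1 : ∑ a ∈ A, ∑' w, m w * u a (cur w) = ∑' w, m w * ∑ a ∈ A, u a (cur w) := by
    rw [← Summable.tsum_finsetSum su]
    exact tsum_congr fun w => by rw [Finset.mul_sum]
  have sU : Summable fun w => m w * ∑ a ∈ A, u a (cur w) := by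
    have := summable_sum su
    exact this.congr fun w => by rw [Finset.mul_sum]
  have key : ∀ w, m w - C.indicator m w ≤ m w * ∑ a ∈ A, u a (cur w) := by
    intro w
    by_cases hw : w ∈ C
    · rw [Set.indicator_of_mem hw, sub_self]
      exact mul_nonneg (h0 w) (Finset.sum_nonneg fun a ha => (h.rng a ha _).1)
    · rw [Set.indicator_of_notMem hw, sub_zero]
      rw [hC, Set.mem_ofPred_eq] at hw
      push Not at hw
      obtain ⟨s, hs1, hs2⟩ := hw
      rw [h.sum_one _ s hs1 hs2, mul_one]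
  refine ⟨?_, ?_, ?_⟩
  · rw [e1]
    have h2 := (hs.sub sC).tsum_le_tsum key sU
    rw [hs.tsum_sub sC] at h2
    linarith
  · rw [e1]
    exact sU.tsum_le_tsum (fun w => mul_le_of_le_one_right (h0 w) (h.sum_le _)) hs
  · have e2 : ∑ a ∈ A, F a * ∑' w, m w * u a (cur w) = ∑' w, m w * ∑ a ∈ A, F a * u a (cur w) := by
      have : ∀ a ∈ A, Summable fun w => F a * (m w * u a (cur w)) := fun a ha => (su a ha).mul_left _
      calc _ = ∑ a ∈ A, ∑' w, F a * (m w * u a (cur w)) := Finset.sum_congr rfl fun a _ => by rw [tsum_mul_left]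
        _ = ∑' w, ∑ a ∈ A, F a * (m w * u a (cur w)) := (Summable.tsum_finsetSum this).symm
        _ = _ := tsum_congr fun w => by
          rw [Finset.mul_sum]
          exact Finset.sum_congr rfl fun a _ => by ring
    have sE : Summable fun w => m w * ∑ a ∈ A, F a * u a (cur w) := by
      have := summable_sum fun a ha => (su a ha).mul_left (F a)
      exact this.congr fun w => by
        rw [Finset.mul_sum]
        exact Finset.sum_congr rfl fun a _ => by ring
    rw [e2, ← sF.tsum_sub sE]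
    have hb : ∀ w, |m w * F (cur w) - m w * ∑ a ∈ A, F a * u a (cur w)| ≤ t * m w + C.indicator m w := by
      intro w
      have e3 : m w * F (cur w) - m w * ∑ a ∈ A, F a * u a (cur w) =
          m w * (∑ a ∈ A, (F (cur w) - F a) * u a (cur w)) + m w * (F (cur w) * (1 - ∑ a ∈ A, u a (cur w))) := by
        have : ∑ a ∈ A, (F (cur w) - F a) * u a (cur w) =
            F (cur w) * ∑ a ∈ A, u a (cur w) - ∑ a ∈ A, F a * u a (cur w) := by
          rw [Finset.mul_sum, ← Finset.sum_sub_distrib]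
          exact Finset.sum_congr rfl fun a _ => by ring
        rw [this]
        ring
      rw [e3]
      refine (abs_add_le _ _).trans (add_le_add ?_ ?_)
      · rw [abs_mul, abs_of_nonneg (h0 w), mul_comm t]
        refine mul_le_mul_of_nonneg_left ?_ (h0 w)
        refine (Finset.abs_sum_le_sum_abs _ _).trans ?_
        have : ∑ a ∈ A, |(F (cur w) - F a) * u a (cur w)| ≤ ∑ a ∈ A, t * u a (cur w) := by
          refine Finset.sum_le_sum fun a ha => ?_
          rw [abs_mul, abs_of_nonneg (h.rng a ha _).1]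
          by_cases hz : u a (cur w) = 0
          · simp [hz]
          · exact mul_le_mul_of_nonneg_right (h.osc a ha _ hz) (h.rng a ha _).1
        refine this.trans ?_
        rw [← Finset.mul_sum]
        exact mul_le_of_le_one_right ht (h.sum_le _)
      · by_cases hw : w ∈ C
        · rw [Set.indicator_of_mem hw, abs_mul, abs_of_nonneg (h0 w)]
          refine mul_le_of_le_one_right (h0 w) ?_
          rw [abs_mul]
          have h5 := h.sum_le (cur w)
          have h6 : 0 ≤ ∑ a ∈ A, u a (cur w) := Finset.sum_nonneg fun a ha => (h.rng a ha _).1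
          exact mul_le_one₀ (hF _) (abs_nonneg _) (by rw [abs_le]; constructor <;> linarith)
        · rw [Set.indicator_of_notMem hw]
          rw [hC, Set.mem_ofPred_eq] at hw
          push Not at hw
          obtain ⟨s, hs1, hs2⟩ := hw
          rw [h.sum_one _ s hs1 hs2]
          simp
    have sb : Summable fun w => t * m w + C.indicator m w := (hs.mul_left t).add sC
    have sa : Summable fun w => |m w * F (cur w) - m w * ∑ a ∈ A, F a * u a (cur w)| :=
      Summable.of_nonneg_of_le (fun _ => abs_nonneg _) hb sb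
    calc |∑' w, (m w * F (cur w) - m w * ∑ a ∈ A, F a * u a (cur w))|
        ≤ ∑' w, |m w * F (cur w) - m w * ∑ a ∈ A, F a * u a (cur w)| := by
          have := norm_tsum_le_tsum_norm (f := fun w => m w * F (cur w) - m w * ∑ a ∈ A, F a * u a (cur w)) sa
          simpa only [Real.norm_eq_abs] using this
      _ ≤ ∑' w, (t * m w + C.indicator m w) := sa.tsum_le_tsum hb sb
      _ = t * ∑' w, m w + ∑' w, C.indicator m w := by rw [(hs.mul_left t).tsum_add sC, tsum_mul_left]
      _ ≤ _ := by linarith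

/-- the same for weights in `ℝ≥0∞` -/
theorem cov_ms {X W : Type*} [PseudoMetricSpace X] {S : Set X} {F : X → ℝ} {t : ℝ} {A : Finset X} {rad : X → ℝ}
    {u : X → X → ℝ} {η : ℝ} (h : Cells S F t A rad u η) (ht : 0 ≤ t) (hF : ∀ x, |F x| ≤ 1) {m : W → ℝ≥0∞} {cur : W → X} {ε : ℝ}
    (hε : 0 ≤ ε) (hs : ∑' w, m w ≠ ∞)
    (hc : ∑' w, {w | ∀ s ∈ S, η < dist (cur w) s}.indicator m w ≤ ENNReal.ofReal ε * ∑' w, m w) :
    (1 - ε) * (∑' w, m w).toReal ≤ ∑ a ∈ A, (∑' w, m w * ENNReal.ofReal (u a (cur w))).toReal ∧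
      ∑ a ∈ A, (∑' w, m w * ENNReal.ofReal (u a (cur w))).toReal ≤ (∑' w, m w).toReal ∧
      |∑' w, (m w).toReal * F (cur w) - ∑ a ∈ A, F a * (∑' w, m w * ENNReal.ofReal (u a (cur w))).toReal| ≤
        (t + ε) * (∑' w, m w).toReal := by
  classical
  have hfin : ∀ w, m w ≠ ∞ := fun w => ENNReal.ne_top_of_tsum_ne_top hs w
  have e0 : (∑' w, m w).toReal = ∑' w, (m w).toReal := ENNReal.tsum_toReal_eq hfin
  have e1 : ∀ a ∈ A, (∑' w, m w * ENNReal.ofReal (u a (cur w))).toReal = ∑' w, (m w).toReal * u a (cur w) := by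
    intro a ha
    rw [ENNReal.tsum_toReal_eq fun w => ENNReal.mul_ne_top (hfin w) ENNReal.ofReal_ne_top]
    exact tsum_congr fun w => by rw [ENNReal.toReal_mul, ENNReal.toReal_ofReal (h.rng a ha _).1]
  have hc' : ∑' w, {w | ∀ s ∈ S, η < dist (cur w) s}.indicator (fun w => (m w).toReal) w ≤ ε * ∑' w, (m w).toReal := by
    have h1 : ∀ w, {w | ∀ s ∈ S, η < dist (cur w) s}.indicator (fun w => (m w).toReal) w =
        ({w | ∀ s ∈ S, η < dist (cur w) s}.indicator m w).toReal := by
      intro w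
      by_cases hw : w ∈ {w | ∀ s ∈ S, η < dist (cur w) s}
      · rw [Set.indicator_of_mem hw, Set.indicator_of_mem hw]
      · rw [Set.indicator_of_notMem hw, Set.indicator_of_notMem hw, ENNReal.toReal_zero]
    rw [tsum_congr h1, ← ENNReal.tsum_toReal_eq, ← e0]
    · have h2 := ENNReal.toReal_mono (ENNReal.mul_ne_top ENNReal.ofReal_ne_top hs) hc
      rwa [ENNReal.toReal_mul, ENNReal.toReal_ofReal hε] at h2
    · intro w
      by_cases hw : w ∈ {w | ∀ s ∈ S, η < dist (cur w) s}
      · rw [Set.indicator_of_mem hw]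
        exact hfin w
      · rw [Set.indicator_of_notMem hw]
        exact ENNReal.zero_ne_top
  have key := cov_sum h ht hF (m := fun w => (m w).toReal) (cur := cur) (ε := ε) (fun w => ENNReal.toReal_nonneg)
    (ENNReal.summable_toReal hs) hc'
  have e2 : ∑ a ∈ A, (∑' w, m w * ENNReal.ofReal (u a (cur w))).toReal = ∑ a ∈ A, ∑' w, (m w).toReal * u a (cur w) :=
    Finset.sum_congr rfl e1
  have e3 : ∑ a ∈ A, F a * (∑' w, m w * ENNReal.ofReal (u a (cur w))).toReal =
      ∑ a ∈ A, F a * ∑' w, (m w).toReal * u a (cur w) := Finset.sum_congr rfl fun a ha => by rw [e1 a ha]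
  rw [e0, e2, e3]
  exact key

end F3
end ROT
end HexObs
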