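import Pool.Agent.ROT.F3Inst

/-!
# ROT / F3Dbl (helper82): double gates

Every end: tip - `c` - `x` - rest. `a` = tip .. `c` (`TipC`, `FstC d l`: `c` is the first cut of its own prefix with level at least
`l`), `b` = `c` .. `x` (`BlkC`: strictly right of `c`, weakly left of `x`; `FstC d m`: first cut of the block with level at least `m`
over `c`). `Sec d v` : the open sector of half angle 60 degrees about the unit vector `d` (three directions with an angle of 120
degrees have disjoint sectors).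
* `PreC d κ p` : `en p` is in the sector with margin `κ`; `RestK d r0 κ R` : in the ball `r0` the rest is strictly right of its
  start and in the cone of half angle 60 degrees with offset `κ` (weaker than every cone of half angle < 60 degrees with offset
  `κ`).
* **`DblC.con`** : two double gates with disjoint strands give a connection `ConK`; **`hyp_ofK`** : `Hyp` for the closed words;
* **`dbl_unique`, `dmarks_walk`, `dmarks_closed`** : the marks are unique.
-/

set_option autoImplicit false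

namespace Pool.Agent.ROT.F3

open Finset ComplexConjugate
open scoped ENNReal Classical

/-- the open sector of half angle 60 degrees about the unit vector `d` -/
def Sec (d v : ℂ) : Prop := ‖v‖ / 2 < lv d v

lemma lv_add_dir (d d' z : ℂ) : lv (d + d') z = lv d z + lv d' z := by
  unfold lv
  rw [map_add, add_mul, Complex.add_re]

lemma lv_le (d z : ℂ) : lv d z ≤ ‖d‖ * ‖z‖ := by
  unfold lv
  calc (conj d * z).re ≤ ‖conj d * z‖ := Complex.re_le_norm _
    _ = ‖d‖ * ‖z‖ := by rw [norm_mul, RCLike.norm_conj]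

/-- **the sectors are disjoint** -/
lemma not_sec {d d' v : ℂ} (h : ‖d + d'‖ ≤ 1) (h1 : Sec d v) (h2 : Sec d' v) : False := by
  have h3 : lv (d + d') v ≤ ‖v‖ := by
    calc lv (d + d') v ≤ ‖d + d'‖ * ‖v‖ := lv_le _ _
      _ ≤ 1 * ‖v‖ := mul_le_mul_of_nonneg_right h (norm_nonneg _)
      _ = ‖v‖ := one_mul _
  rw [lv_add_dir] at h3
  unfold Sec at h1 h2
  linarith

/-- the end of the prefix is in the sector, with margin `κ` -/
def EndK (d : ℂ) (κ : ℝ) (p : W3) : Prop := ‖en p‖ / 2 + κ ≤ lv d (en p)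

/-- in the ball `r0` the rest is strictly right of its start and in the cone -/
def RestK (d : ℂ) (r0 κ : ℝ) (R : W3) : Prop :=
  ∀ k : ℕ, 0 < k → k ≤ R.length → ‖ps R k‖ ≤ r0 → 0 < lv d (ps R k) ∧ ‖ps R k‖ / 2 - κ < lv d (ps R k)

lemma RestK.r {d : ℂ} {r0 κ : ℝ} {R : W3} (h : RestK d r0 κ R) : RestC d r0 R := fun k h0 hk hn => (h k h0 hk hn).1

lemma RestK.mono {d : ℂ} {r0 r1 κ : ℝ} {R : W3} (h : RestK d r0 κ R) (hr : r1 ≤ r0) : RestK d r1 κ R :=
  fun k h0 hk hn => h k h0 hk (hn.trans hr)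

/-- the rest behind a prefix stays in the sector of the tip -/
lemma RestK.sec {d : ℂ} {r0 κ : ℝ} {p R : W3} (h : RestK d r0 κ R) (hp : EndK d κ p) {k : ℕ} (h0 : 0 < k) (hk : k ≤ R.length)
    (hn : ‖ps R k‖ ≤ r0) : Sec d (en p + ps R k) := by
  have h1 := (h k h0 hk hn).2
  unfold EndK at hp
  unfold Sec
  rw [lv_add]
  linarith [norm_add_le (en p) (ps R k)]

/-- connections: two tip pieces with the same root; the part of each one which is not left of the cut of the other one is in the own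
sector -/
structure ConK (d d' : ℂ) (r κ : ℝ) (a : W3 × W3) : Prop where
  t1 : TipC d r a.1
  t2 : TipC d' r a.2
  e1 : EndK d κ a.1
  e2 : EndK d' κ a.2
  l2 : ∀ k : ℕ, k ≤ a.2.length → lv d (ps a.2 k) ≤ lv d (en a.1) ∨ Sec d' (ps a.2 k)
  l1 : ∀ k : ℕ, k ≤ a.1.length → lv d' (ps a.1 k) ≤ lv d' (en a.2) ∨ Sec d (ps a.1 k)
  dj : ∀ j k : ℕ, j ≤ a.1.length → k ≤ a.2.length → ps a.1 j = ps a.2 k → j = 0 ∧ k = 0

/-- rests between two gates -/
structure RsK (d d' : ℂ) (r0 r0' κ κ' D : ℝ) (R : W3) : Prop where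
  ev : Even R.length
  sw : SW R
  s : RestK d r0 κ R
  e : RestK d' r0' κ' R.reverse
  far : D ≤ ‖en R‖

lemma RsK.c {d d' : ℂ} {r0 r0' κ κ' D : ℝ} {R : W3} (h : RsK d d' r0 r0' κ κ' D R) : RsC d d' r0 r0' D R :=
  ⟨h.ev, h.sw, h.s.r, h.e.r, h.far⟩

lemma ConK.swap {d d' : ℂ} {r κ : ℝ} {a : W3 × W3} (h : ConK d d' r κ a) : ConK d' d r κ a.swap :=
  ⟨h.t2, h.t1, h.e2, h.e1, h.l1, h.l2, fun j k hj hk he => (h.dj k j hk hj he.symm).symm⟩

lemma ConK.cn {d d' : ℂ} {r κ : ℝ} {a : W3 × W3} (h : ConK d d' r κ a) : Cn a :=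
  ⟨h.t1.ev, h.t2.ev, h.t1.sw, h.t2.sw, h.dj⟩

/-- a connection with both strands left of both cuts -/
lemma ConC.k {d d' : ℂ} {r κ : ℝ} {a : W3 × W3} (h : ConC d d' r a) (e1 : EndK d κ a.1) (e2 : EndK d' κ a.2) :
    ConK d d' r κ a :=
  ⟨h.t1, h.t2, e1, e2, fun k hk => Or.inl (h.l2 k hk), fun k hk => Or.inl (h.l1 k hk), h.dj⟩

/-- **a connection and a rest placed at its first gate are disjoint** -/
lemma ConK.nr {d d' : ℂ} {r r0 κ : ℝ} {a : W3 × W3} {R : W3} (h : ConK d d' r κ a) (hd : ‖d + d'‖ ≤ 1)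
    (hR : RestK d r0 κ R) (hr : 2 * r ≤ r0) : Nr a R := by
  refine ⟨tip_rest h.t1 hR.r hr, fun j k hj hk he => ?_⟩
  rcases Nat.eq_zero_or_pos k with hk0 | hk0
  · subst hk0
    rw [ps_zero, add_zero] at he
    have := h.dj a.1.length j le_rfl hj he.symm
    have := h.t1.pos
    omega
  · have h1 : ps R k = ps a.2 j - en a.1 := by rw [he]; ring
    have h2 : ‖ps R k‖ ≤ r0 := by
      rw [h1]
      calc ‖ps a.2 j - en a.1‖ ≤ ‖ps a.2 j‖ + ‖en a.1‖ := norm_sub_le _ _
        _ ≤ r0 := by linarith [h.t2.ball j hj, norm_en_le h.t1]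
    have h3 := (hR k hk0 hk h2).1
    rcases h.l2 j hj with h4 | h4
    · rw [h1, lv_sub] at h3
      linarith
    · have h5 := hR.sec h.e1 hk0 hk h2
      rw [← he] at h5
      exact not_sec hd h5 h4

lemma far_of' {d1 d2 d1' d2' : ℂ} {r r' D : ℝ} {a b : W3 × W3} {R : W3} (a1 : TipC d1 r a.1) (a2 : TipC d2 r a.2)
    (b1 : TipC d1' r' b.1) (b2 : TipC d2' r' b.2) (hD : 2 * (r + r') < D) (hR : D ≤ ‖en R‖) : Far a R b := by
  intro u v hu hv j k hj hk he
  have h1 : ‖ps u j‖ ≤ r := by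
    rcases hu with rfl | rfl
    · exact a1.ball j hj
    · exact a2.ball j hj
  have h2 : ‖ps v k‖ ≤ r' := by
    rcases hv with rfl | rfl
    · exact b1.ball k hk
    · exact b2.ball k hk
  have h3 : en R = ps u j - en a.1 + en b.1 - ps v k := by rw [he]; ring
  have h4 : ‖en R‖ ≤ ‖ps u j‖ + ‖en a.1‖ + ‖en b.1‖ + ‖ps v k‖ := by
    rw [h3]
    calc ‖ps u j - en a.1 + en b.1 - ps v k‖ ≤ ‖ps u j - en a.1 + en b.1‖ + ‖ps v k‖ := norm_sub_le _ _
      _ ≤ ‖ps u j - en a.1‖ + ‖en b.1‖ + ‖ps v k‖ := by linarith [norm_add_le (ps u j - en a.1) (en b.1)]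
      _ ≤ _ := by linarith [norm_sub_le (ps u j) (en a.1)]
  linarith [norm_en_le a1, norm_en_le b1]

/-- **the hypotheses of `exP` (closed words), cones** -/
theorem hyp_ofK {C C' : Set (W3 × W3)} {RA RB : Set W3} {d1 d2 d1' d2' : ℂ} {r r' κ κ' r0 r0' D : ℝ}
    (hd : ‖d1 + d2‖ ≤ 1) (hd' : ‖d1' + d2'‖ ≤ 1)
    (hC : ∀ a ∈ C, ConK d1 d2 r κ a) (hC' : ∀ b ∈ C', ConK d1' d2' r' κ' b) (hA : ∀ R ∈ RA, RsK d1 d1' r0 r0' κ κ' D R)
    (hB : ∀ R ∈ RB, RsK d2 d2' r0 r0' κ κ' D R) (h0 : 2 * r ≤ r0) (h0' : 2 * r' ≤ r0') (hD : 2 * (r + r') < D) :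
    Hyp C C' RA RB where
  cn a ha := (hC a ha).cn
  cn' b hb := (hC' b hb).cn
  rA R hR := ⟨(hA R hR).ev, (hA R hR).sw⟩
  rB R hR := ⟨(hB R hR).ev, (hB R hR).sw⟩
  n1 a ha R hR := (hC a ha).nr hd (hA R hR).s h0
  n2 a ha R hR := (hC a ha).swap.nr (by rw [add_comm]; exact hd) (hB R hR).s h0
  n3 b hb R hR := (hC' b hb).nr hd' (hA R hR).e h0'
  n4 b hb R hR := (hC' b hb).swap.nr (by rw [add_comm]; exact hd') (hB R hR).e h0'
  far a ha R hR b hb := far_of' (hC a ha).t1 (hC a ha).t2 (hC' b hb).t1 (hC' b hb).t2 hD (hA R hR).far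

/-! ### double gates -/

/-- blocks between two successive gates -/
structure BlkC (d : ℂ) (r : ℝ) (b : W3) : Prop where
  t : TipC d r b
  right : ∀ k : ℕ, 0 < k → k ≤ b.length → 0 < lv d (ps b k)

/-- the level of the end of a block is positive -/
lemma BlkC.lv_pos {d : ℂ} {r : ℝ} {b : W3} (h : BlkC d r b) : 0 < lv d (en b) := h.right _ h.t.pos le_rfl

lemma ps_app {a b : W3} (ea : Even a.length) {j : ℕ} (hj : a.length ≤ j) : ps (a ++ b) j = en a + ps b (j - a.length) :=
  ps_append_right' ea hj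

/-- **a tip piece and a block give a tip piece** -/
lemma TipC.app {d : ℂ} {r r2 : ℝ} {a b : W3} (ha : TipC d r a) (hb : BlkC d r2 b) : TipC d (r + r2) (a ++ b) where
  ev := by
    rw [List.length_append]
    exact ha.ev.add hb.t.ev
  sw := by
    have key : ∀ j k : ℕ, j < a.length → a.length ≤ k → k ≤ (a ++ b).length → ps (a ++ b) j = ps (a ++ b) k → j = k := by
      intro j k hj hk hk' he
      rw [List.length_append] at hk'
      rw [ps_append_left hj.le, ps_app ha.ev hk] at he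
      rcases Nat.eq_zero_or_pos (k - a.length) with h0 | h0
      · rw [h0, ps_zero, add_zero] at he
        have := ha.sw j a.length hj.le le_rfl he
        omega
      · have h1 := hb.right (k - a.length) h0 (by omega)
        have h2 := ha.left j hj.le
        rw [he, lv_add] at h2
        linarith
    intro j k hj hk he
    rcases lt_or_ge j a.length with hj1 | hj1 <;> rcases lt_or_ge k a.length with hk1 | hk1
    · rw [ps_append_left hj1.le, ps_append_left hk1.le] at he
      exact ha.sw j k hj1.le hk1.le he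
    · exact key j k hj1 hk1 hk he
    · exact (key k j hk1 hj1 hj he.symm).symm
    · rw [List.length_append] at hj hk
      rw [ps_app ha.ev hj1, ps_app ha.ev hk1, add_right_inj] at he
      have := hb.t.sw _ _ (by omega) (by omega) he
      omega
  pos := by
    rw [List.length_append]
    have := ha.pos
    omega
  left := by
    intro k hk
    rw [List.length_append] at hk
    rw [en_append ha.ev, lv_add]
    rcases le_or_gt k a.length with h1 | h1
    · rw [ps_append_left h1]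
      linarith [ha.left k h1, hb.lv_pos]
    · rw [ps_app ha.ev h1.le, lv_add]
      linarith [hb.t.left (k - a.length) (by omega)]
  ball := by
    intro k hk
    rw [List.length_append] at hk
    have hr2 : 0 ≤ r2 := (norm_nonneg _).trans (hb.t.ball 0 (Nat.zero_le _))
    rcases le_or_gt k a.length with h1 | h1
    · rw [ps_append_left h1]
      linarith [ha.ball k h1]
    · rw [ps_app ha.ev h1.le]
      calc ‖en a + ps b (k - a.length)‖ ≤ ‖en a‖ + ‖ps b (k - a.length)‖ := norm_add_le _ _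
        _ ≤ r + r2 := add_le_add (norm_en_le ha) (hb.t.ball _ (by omega))

/-- **two double gates with the same root**: `(a, a')` left of both first cuts `c`, the blocks in the own sectors -/
theorem conK_of {d d' : ℂ} {r r2 κ : ℝ} {a a' b b' : W3} (hd : ‖d + d'‖ ≤ 1) (h : ConC d d' r (a, a')) (hb : BlkC d r2 b)
    (hb' : BlkC d' r2 b') (s : ∀ k : ℕ, 0 < k → k ≤ b.length → Sec d (en a + ps b k))
    (s' : ∀ k : ℕ, 0 < k → k ≤ b'.length → Sec d' (en a' + ps b' k)) (e : EndK d κ (a ++ b)) (e' : EndK d' κ (a' ++ b')) :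
    ConK d d' (r + r2) κ (a ++ b, a' ++ b') where
  t1 := h.t1.app hb
  t2 := h.t2.app hb'
  e1 := e
  e2 := e'
  l2 := by
    intro k hk
    simp only [List.length_append] at hk ⊢
    rcases le_or_gt k a'.length with h1 | h1
    · left
      rw [ps_append_left h1, en_append h.t1.ev, lv_add]
      have := h.l2 k h1
      simp only at this
      linarith [hb.lv_pos]
    · right
      rw [ps_app h.t2.ev h1.le]
      exact s' _ (by simp only; omega) (by simp only; omega)
  l1 := by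
    intro k hk
    simp only [List.length_append] at hk ⊢
    rcases le_or_gt k a.length with h1 | h1
    · left
      rw [ps_append_left h1, en_append h.t2.ev, lv_add]
      have := h.l1 k h1
      simp only at this
      linarith [hb'.lv_pos]
    · right
      rw [ps_app h.t1.ev h1.le]
      exact s _ (by simp only; omega) (by simp only; omega)
  dj := by
    intro j k hj hk he
    simp only [List.length_append] at hj hk he
    rcases le_or_gt j a.length with h1 | h1 <;> rcases le_or_gt k a'.length with h2 | h2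
    · rw [ps_append_left h1, ps_append_left h2] at he
      exact h.dj j k h1 h2 he
    · exfalso
      rw [ps_append_left h1, ps_app h.t2.ev h2.le] at he
      have h3 := h.l1 j h1
      simp only at h3 he
      rw [he, lv_add] at h3
      linarith [hb'.right (k - a'.length) (by omega) (by omega)]
    · exfalso
      rw [ps_app h.t1.ev h1.le, ps_append_left h2] at he
      have h3 := h.l2 k h2
      simp only at h3 he
      rw [← he, lv_add] at h3
      linarith [hb.right (j - a.length) (by omega) (by omega)]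
    · exfalso
      rw [ps_app h.t1.ev h1.le, ps_app h.t2.ev h2.le] at he
      simp only at he
      have h3 := s (j - a.length) (by omega) (by omega)
      have h4 := s' (k - a'.length) (by omega) (by omega)
      rw [he] at h3
      exact not_sec hd h3 h4

/-- the block is in the cone of half angle 60 degrees with offset `κ` at its start -/
def ConeK (d : ℂ) (κ : ℝ) (b : W3) : Prop := ∀ k : ℕ, 0 < k → k ≤ b.length → ‖ps b k‖ / 2 - κ < lv d (ps b k)

lemma ConeK.sec {d : ℂ} {κ : ℝ} {a b : W3} (h : ConeK d κ b) (ha : EndK d κ a) {k : ℕ} (h0 : 0 < k) (hk : k ≤ b.length) :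
    Sec d (en a + ps b k) := by
  have h1 := h k h0 hk
  unfold EndK at ha
  unfold Sec
  rw [lv_add]
  linarith [norm_add_le (en a) (ps b k)]

lemma EndK.mono {d : ℂ} {κ κ' : ℝ} {a : W3} (h : EndK d κ a) (hk : κ' ≤ κ) : EndK d κ' a := by
  unfold EndK at h ⊢
  linarith

lemma EndK.app {d : ℂ} {κ κ' : ℝ} {a b : W3} (h : EndK d (κ + κ') a) (ea : Even a.length) (hb : ConeK d κ b)
    (h0 : 0 < b.length) : EndK d κ' (a ++ b) := by
  have h1 := hb b.length h0 le_rfl
  unfold EndK at h ⊢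
  rw [en_append ea, lv_add]
  have h2 : ps b b.length = en b := rfl
  rw [h2] at h1
  linarith [norm_add_le (en a) (en b)]

/-- the end of a prefix in the cell of radius `s` about `ρ d` -/
lemma endK_cell {d : ℂ} {ρ s κ : ℝ} {a : W3} (hd : ‖d‖ = 1) (hρ : 0 ≤ ρ) (h : ‖en a - (ρ : ℂ) * d‖ ≤ s)
    (hk : 3 * s + 2 * κ ≤ ρ) : EndK d κ a := by
  have h1 : lv d ((ρ : ℂ) * d) = ρ := by
    unfold lv
    have h2 : conj d * ((ρ : ℂ) * d) = (ρ : ℂ) * (d * conj d) := by ring
    rw [h2, Complex.mul_conj, Complex.normSq_eq_norm_sq, hd]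
    simp
  have h3 : lv d (en a) = ρ + lv d (en a - (ρ : ℂ) * d) := by
    rw [lv_sub, h1]
    ring
  have h4 : -s ≤ lv d (en a - (ρ : ℂ) * d) := by
    have h5 := lv_le (-d) (en a - (ρ : ℂ) * d)
    rw [norm_neg, hd, one_mul] at h5
    have h6 : lv (-d) (en a - (ρ : ℂ) * d) = - lv d (en a - (ρ : ℂ) * d) := by
      unfold lv
      rw [map_neg, neg_mul, Complex.neg_re]
    rw [h6] at h5
    linarith
  have h7 : ‖en a‖ ≤ ρ + s := by
    have h8 : en a = (ρ : ℂ) * d + (en a - (ρ : ℂ) * d) := by ring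
    rw [h8]
    calc _ ≤ ‖(ρ : ℂ) * d‖ + ‖en a - (ρ : ℂ) * d‖ := norm_add_le _ _
      _ ≤ ρ + s := by
        rw [norm_mul, hd, Complex.norm_real, Real.norm_of_nonneg hρ, mul_one]
        linarith
  unfold EndK
  rw [h3]
  linarith

/-- a cone of a smaller half angle (cosine `c ≥ 1/2`) is contained in the cone of half angle 60 degrees -/
lemma coneK_of {d : ℂ} {c κ : ℝ} {b : W3} (hc : 1 / 2 < c) (h : ∀ k : ℕ, 0 < k → k ≤ b.length → c * ‖ps b k‖ - κ ≤ lv d (ps b k))
    (hr : ∀ k : ℕ, 0 < k → k ≤ b.length → 0 < lv d (ps b k)) : ConeK d κ b := by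
  intro k h0 hk
  have h1 := h k h0 hk
  have h2 : 0 < ‖ps b k‖ := by
    rw [norm_pos_iff]
    intro h3
    have := hr k h0 hk
    rw [h3, lv_zero] at this
    exact lt_irrefl _ this
  nlinarith

/-- the same for the rests (in the ball `r0`) -/
lemma restK_of {d : ℂ} {c r0 κ : ℝ} {R : W3} (hc : 1 / 2 < c)
    (h : ∀ k : ℕ, 0 < k → k ≤ R.length → ‖ps R k‖ ≤ r0 → 0 < lv d (ps R k) ∧ c * ‖ps R k‖ - κ ≤ lv d (ps R k)) :
    RestK d r0 κ R := by
  intro k h0 hk hn
  obtain ⟨h1, h2⟩ := h k h0 hk hn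
  have h3 : 0 < ‖ps R k‖ := by
    rw [norm_pos_iff]
    intro h3
    rw [h3, lv_zero] at h1
    exact lt_irrefl _ h1
  exact ⟨h1, by nlinarith⟩

/-- in the ball around `c` everything behind `c` is strictly right of `c` -/
lemma BlkC.rest {d : ℂ} {r2 r0 : ℝ} {b R : W3} (hb : BlkC d r2 b) (hR : RestC d r0 R) : RestC d (r0 - r2) (b ++ R) := by
  intro k h0 hk hn
  rw [List.length_append] at hk
  rcases le_or_gt k b.length with h1 | h1
  · rw [ps_append_left h1]
    exact hb.right k h0 h1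
  · rw [ps_app hb.t.ev h1.le] at hn ⊢
    rw [lv_add]
    have h2 : ‖ps R (k - b.length)‖ ≤ r0 := by
      have h3 : ps R (k - b.length) = (en b + ps R (k - b.length)) - en b := by ring
      rw [h3]
      calc _ ≤ ‖en b + ps R (k - b.length)‖ + ‖en b‖ := norm_sub_le _ _
        _ ≤ r0 := by linarith [norm_en_le hb.t]
    linarith [hb.lv_pos, hR (k - b.length) (by omega) (by omega) h2]

/-- **double gate**: `k` is the number of the gate `c`, the end of `p` is the gate `x` -/
structure DblC (d : ℂ) (r l r2 m : ℝ) (p : W3) (k : ℕ) : Prop where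
  le : k ≤ p.length
  a : TipC d r (p.take k)
  fa : FstC d l (p.take k)
  b : BlkC d r2 (p.drop k)
  fb : FstC d m (p.drop k)

lemma DblC.tip {d : ℂ} {r l r2 m : ℝ} {p : W3} {k : ℕ} (h : DblC d r l r2 m p k) : TipC d (r + r2) p := by
  have := h.a.app h.b
  rwa [List.take_append_drop] at this

/-- **connections with double gates**: `k1`, `k2` = the numbers of the gates `c` of the two strands -/
structure ConD (d d' : ℂ) (r l r2 m κ1 κ : ℝ) (a : W3 × W3) (k1 k2 : ℕ) : Prop where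
  g1 : DblC d r l r2 m a.1 k1
  g2 : DblC d' r l r2 m a.2 k2
  l2 : ∀ k : ℕ, k ≤ k2 → lv d (ps a.2 k) ≤ lv d (ps a.1 k1)
  l1 : ∀ k : ℕ, k ≤ k1 → lv d' (ps a.1 k) ≤ lv d' (ps a.2 k2)
  dj : ∀ j k : ℕ, j ≤ k1 → k ≤ k2 → ps a.1 j = ps a.2 k → j = 0 ∧ k = 0
  e1 : EndK d (κ1 + κ) (a.1.take k1)
  e2 : EndK d' (κ1 + κ) (a.2.take k2)
  s1 : ConeK d κ1 (a.1.drop k1)
  s2 : ConeK d' κ1 (a.2.drop k2)

/-- **a connection with double gates is a connection** -/
theorem ConD.k {d d' : ℂ} {r l r2 m κ1 κ : ℝ} {a : W3 × W3} {k1 k2 : ℕ} (h : ConD d d' r l r2 m κ1 κ a k1 k2)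
    (hd : ‖d + d'‖ ≤ 1) (hκ : 0 ≤ κ) : ConK d d' (r + r2) κ a := by
  have t1 : ∀ j, j ≤ k1 → ps (a.1.take k1) j = ps a.1 j := fun j hj => ps_take _ hj h.g1.le
  have t2 : ∀ j, j ≤ k2 → ps (a.2.take k2) j = ps a.2 j := fun j hj => ps_take _ hj h.g2.le
  have n1 : (a.1.take k1).length = k1 := by rw [List.length_take, min_eq_left h.g1.le]
  have n2 : (a.2.take k2).length = k2 := by rw [List.length_take, min_eq_left h.g2.le]
  have en1 : en (a.1.take k1) = ps a.1 k1 := by rw [en, n1, t1 _ le_rfl]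
  have en2 : en (a.2.take k2) = ps a.2 k2 := by rw [en, n2, t2 _ le_rfl]
  have hC : ConC d d' r (a.1.take k1, a.2.take k2) := by
    refine ⟨h.g1.a, h.g2.a, fun k hk => ?_, fun k hk => ?_, fun j k hj hk he => ?_⟩
    · simp only at hk ⊢
      rw [n2] at hk
      rw [t2 k hk, en1]
      exact h.l2 k hk
    · simp only at hk ⊢
      rw [n1] at hk
      rw [t1 k hk, en2]
      exact h.l1 k hk
    · simp only at hj hk he
      rw [n1] at hj
      rw [n2] at hk
      rw [t1 j hj, t2 k hk] at he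
      exact h.dj j k hj hk he
  have := conK_of (κ := κ) hd hC h.g1.b h.g2.b (fun k h0 hk => h.s1.sec (h.e1.mono (by linarith)) h0 hk)
    (fun k h0 hk => h.s2.sec (h.e2.mono (by linarith)) h0 hk) (h.e1.app h.g1.a.ev h.s1 h.g1.b.t.pos)
    (h.e2.app h.g2.a.ev h.s2 h.g2.b.t.pos)
  rwa [List.take_append_drop, List.take_append_drop] at this

/-- **the marks of a double gate are unique** -/
theorem dbl_unique {d : ℂ} {r l r2 m r0 D : ℝ} {p p' R R' t t' : W3} {k k' : ℕ} (h : DblC d r l r2 m p k)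
    (h' : DblC d r l r2 m p' k') (hR : RestC d r0 R) (hR' : RestC d r0 R') (eR : Even R.length) (eR' : Even R'.length)
    (hr : 2 * (r + r2) ≤ r0) (hD : 2 * (r + r2) < D) (fR : D ≤ ‖en R‖) (fR' : D ≤ ‖en R'‖)
    (he : p ++ (R ++ t) = p' ++ (R' ++ t')) : p = p' ∧ k = k' := by
  have hr0 : 0 ≤ r := (norm_nonneg _).trans (h.a.ball 0 (Nat.zero_le _))
  have hr2 : 0 ≤ r2 := (norm_nonneg _).trans (h.b.t.ball 0 (Nat.zero_le _))
  have e1 : ∀ (p : W3) (k : ℕ) (R t : W3), p ++ (R ++ t) = p.take k ++ ((p.drop k ++ R) ++ t) := fun p k R t => by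
    conv_lhs => rw [← List.take_append_drop k p]
    rw [List.append_assoc, List.append_assoc]
  have fr : ∀ {p R : W3} {k : ℕ}, DblC d r l r2 m p k → D ≤ ‖en R‖ → D - r2 ≤ ‖en (p.drop k ++ R)‖ := by
    intro p R k h fR
    rw [en_append h.b.t.ev]
    have h3 : en R = (en (p.drop k) + en R) - en (p.drop k) := by ring
    have h4 : ‖en R‖ ≤ ‖en (p.drop k) + en R‖ + ‖en (p.drop k)‖ := by
      conv_lhs => rw [h3]
      exact norm_sub_le _ _
    linarith [norm_en_le h.b.t]
  have e2 : p.take k ++ ((p.drop k ++ R) ++ t) = p'.take k' ++ ((p'.drop k' ++ R') ++ t') := by rw [← e1, ← e1, he]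
  have h1 := tip_unique h.a h'.a h.fa h'.fa (h.b.rest hR) (h'.b.rest hR')
    (by rw [List.length_append]; exact h.b.t.ev.add eR) (by rw [List.length_append]; exact h'.b.t.ev.add eR')
    (by linarith) (by linarith) (fr h fR) (fr h' fR') e2
  have e3 : p.drop k ++ (R ++ t) = p'.drop k' ++ (R' ++ t') := by
    rw [h1] at e2
    have := List.append_cancel_left e2
    simpa [List.append_assoc] using this
  have h2 := tip_unique h.b.t h'.b.t h.fb h'.fb hR hR' eR eR' (by linarith) (by linarith) fR fR' e3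
  refine ⟨?_, ?_⟩
  · rw [← List.take_append_drop k p, ← List.take_append_drop k' p', h1, h2]
  · have := congrArg List.length h1
    rw [List.length_take, List.length_take, min_eq_left h.le, min_eq_left h'.le] at this
    exact this

/-- **the marks of a walk (double gates) are unique** -/
theorem dmarks_walk {d d' : ℂ} {r r' l l' r2 r2' m m' r0 r0' D : ℝ} {p p' R R' q q' : W3} {k k' j j' : ℕ}
    (hp : DblC d r l r2 m p k) (hp' : DblC d r l r2 m p' k') (hq : DblC d' r' l' r2' m' q j) (hq' : DblC d' r' l' r2' m' q' j')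
    (hR : RsC d d' r0 r0' D R) (hR' : RsC d d' r0 r0' D R') (h0 : 2 * (r + r2) ≤ r0) (h0' : 2 * (r' + r2') ≤ r0')
    (hD : 2 * (r + r2) < D) (hD' : 2 * (r' + r2') < D) (h : p ++ (R ++ q.reverse) = p' ++ (R' ++ q'.reverse)) :
    (p = p' ∧ k = k') ∧ R = R' ∧ (q = q' ∧ j = j') := by
  have h1 := dbl_unique hp hp' hR.s hR'.s hR.ev hR'.ev h0 hD hR.far hR'.far h
  have e1 : ‖en R.reverse‖ = ‖en R‖ := by rw [en_reverse hR.ev, norm_neg]
  have e2 : ‖en R'.reverse‖ = ‖en R'‖ := by rw [en_reverse hR'.ev, norm_neg]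
  have h2 : q ++ (R.reverse ++ p.reverse) = q' ++ (R'.reverse ++ p'.reverse) := by
    have := congrArg List.reverse h
    simpa [List.reverse_append] using this
  have h3 := dbl_unique hq hq' hR.e hR'.e (by rw [List.length_reverse]; exact hR.ev)
    (by rw [List.length_reverse]; exact hR'.ev) h0' hD' (by rw [e1]; exact hR.far) (by rw [e2]; exact hR'.far) h2
  refine ⟨h1, ?_, h3⟩
  obtain ⟨h1, -⟩ := h1
  obtain ⟨h3, -⟩ := h3
  subst h1
  subst h3
  exact List.append_cancel_right (List.append_cancel_left h)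

/-- **the marks of a closed word with the roots `0` and `m` (double gates) are unique** -/
theorem dmarks_closed {d1 d2 d1' d2' : ℂ} {r r' l l' r2 r2' m m' r0 r0' D : ℝ} {a a' b b' : W3 × W3} {R R' S S' : W3}
    {k1 k1' k2 k2' j1 j1' j2 j2' : ℕ}
    (ha1 : DblC d1 r l r2 m a.1 k1) (ha2 : DblC d2 r l r2 m a.2 k2) (ha1' : DblC d1 r l r2 m a'.1 k1')
    (ha2' : DblC d2 r l r2 m a'.2 k2') (hb1 : DblC d1' r' l' r2' m' b.1 j1) (hb2 : DblC d2' r' l' r2' m' b.2 j2)
    (hb1' : DblC d1' r' l' r2' m' b'.1 j1') (hb2' : DblC d2' r' l' r2' m' b'.2 j2')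
    (hR : RsC d1 d1' r0 r0' D R) (hR' : RsC d1 d1' r0 r0' D R') (hS : RsC d2 d2' r0 r0' D S) (hS' : RsC d2 d2' r0 r0' D S')
    (h0 : 2 * (r + r2) ≤ r0) (h0' : 2 * (r' + r2') ≤ r0') (hD : 2 * (r + r2) < D) (hD' : 2 * (r' + r2') < D)
    (hm : (a.1 ++ (R ++ b.1.reverse)).length = (a'.1 ++ (R' ++ b'.1.reverse)).length)
    (h : G6 a R b S = G6 a' R' b' S') :
    (a = a' ∧ R = R' ∧ b = b' ∧ S = S') ∧ (k1 = k1' ∧ k2 = k2' ∧ j1 = j1' ∧ j2 = j2') := by
  have e : ∀ (a : W3 × W3) (R : W3) (b : W3 × W3) (S : W3),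
      G6 a R b S = (a.1 ++ (R ++ b.1.reverse)) ++ (b.2 ++ (S.reverse ++ a.2.reverse)) := fun a R b S => by
    simp [G6, List.append_assoc]
  rw [e, e] at h
  obtain ⟨h1, h2⟩ := List.append_inj h hm
  obtain ⟨⟨k1, m1⟩, k2, ⟨k3, m3⟩⟩ := dmarks_walk ha1 ha1' hb1 hb1' hR hR' h0 h0' hD hD' h1
  have h3 : a.2 ++ (S ++ b.2.reverse) = a'.2 ++ (S' ++ b'.2.reverse) := by
    have := congrArg List.reverse h2
    simpa [List.reverse_append] using this
  obtain ⟨⟨k4, m4⟩, k5, ⟨k6, m6⟩⟩ := dmarks_walk ha2 ha2' hb2 hb2' hS hS' h0 h0' hD hD' h3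
  exact ⟨⟨Prod.ext k1 k4, k2, Prod.ext k3 k6, k5⟩, m1, m4, m3, m6⟩

end Pool.Agent.ROT.F3
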