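import Pool.Agent.ROT.F3MacA

/-!
# F3, row C1-W, comparison (helper59, after helper66's MacF)

* `TestH K H` : the test functions `H (curve) (time)`, with values in `[0, 1]`;
* `in0 D a r ρ H s` : the value of `H` at the start gate of `s` (0: none); `Box` : ranges of the parameters `a, r, ρ`;
  `ps0 D M B S H s` : the average over the grid (unit of length `S`);
* **`ps0C`** : comparison of `ps0` for two close walks with stability; `M` and `H` are free.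
-/

set_option autoImplicit false

open Set Filter Topology MeasureTheory

namespace Pool.Agent.SCF.M

open Pool.Agent.NTS.Res
open Pool.Agent.CRT (CI)
open Pool.Agent.SCF.Z

/-- **the test functions** of the curve and of the time of the gate: for instance Lipschitz functions of the two pieces of the curve
before and behind the time `x` -/
structure TestH (K : ℝ) (H : CI → ℝ → ℝ) : Prop where
  nn : ∀ γ x, 0 ≤ H γ x
  le : ∀ γ x, H γ x ≤ 1
  lip : ∀ (γ γ' : CI) (x x' δ : ℝ), (∀ t t' : unitInterval, |(t : ℝ) - t'| ≤ |x - x'| → ‖γ' t - γ' t'‖ ≤ δ) →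
    H γ x ≤ H γ' x' + K * (dist γ γ' + |x - x'| + δ)

open Classical in
/-- the value at the start gate -/
noncomputable def in0 (D : SzT) (a r ρ : ℝ) (H : CI → ℝ → ℝ) {n : ℕ} (s : Fin n → Fin 3) : ℝ :=
  ∑ k ∈ Finset.range (n + 1), if TD D a r ρ s k then H (curve s) ((k : ℝ) / n) else 0

/-- ranges of the size, of the diameter and of the window -/
structure Box where
  a0 : ℝ
  a1 : ℝ
  r0 : ℝ
  r1 : ℝ
  p0 : ℝ
  p1 : ℝ

/-- admissible ranges, scale `R` -/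
structure Box.Ok (B : Box) (R : ℝ) : Prop where
  a : R / 4 ≤ B.a0
  a' : B.a0 < B.a1
  r : B.r0 < B.r1
  r' : B.r1 ≤ 2 * R
  p : 64 * R ≤ B.p0
  p' : B.p0 < B.p1
  p'' : B.p1 ≤ 128 * R

/-- **the average over the grid**, unit of length `S` -/
noncomputable def ps0 (D : SzT) (M : ℕ) (B : Box) (S : ℝ) (H : CI → ℝ → ℝ) {n : ℕ} (s : Fin n → Fin 3) : ℝ :=
  (∑ i2 ∈ Finset.range M, ∑ i3 ∈ Finset.range M, ∑ i5 ∈ Finset.range M,
    in0 D (gp M B.a0 B.a1 i3 * S) (gp M B.r0 B.r1 i2 * S) (gp M B.p0 B.p1 i5 * S) H s) / (M : ℝ) ^ 3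

section

variable {D : SzT} {a r ρ K : ℝ} {H : CI → ℝ → ℝ} {n : ℕ} {s : Fin n → Fin 3}

lemma in0_nn (hH : TestH K H) : 0 ≤ in0 D a r ρ H s := by
  classical
  unfold in0
  refine Finset.sum_nonneg fun k _ => ?_
  split_ifs
  · exact hH.nn _ _
  · exact le_rfl

lemma in0_eq {k : ℕ} (hr : r ≤ ρ) (ht : TD D a r ρ s k) : in0 D a r ρ H s = H (curve s) ((k : ℝ) / n) := by
  classical
  unfold in0
  rw [Finset.sum_eq_single k]
  · rw [if_pos ht]
  · intro j _ hj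
    rw [if_neg fun h => hj (td_unique hr h ht)]
  · intro h
    exact absurd (Finset.mem_range.2 (Nat.lt_succ_of_lt ht.2.1)) h

lemma in0_zero (h : ∀ k, ¬ TD D a r ρ s k) : in0 D a r ρ H s = 0 := by
  classical
  unfold in0
  refine Finset.sum_eq_zero fun k _ => ?_
  rw [if_neg (h k)]

lemma in0_le (hr : r ≤ ρ) (hH : TestH K H) : in0 D a r ρ H s ≤ 1 := by
  by_cases h : ∃ k, TD D a r ρ s k
  · obtain ⟨k, hk⟩ := h
    rw [in0_eq hr hk]
    exact hH.le _ _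
  · rw [in0_zero fun k hk => h ⟨k, hk⟩]
    exact zero_le_one

lemma ps0_eq {M : ℕ} {B : Box} {S : ℝ} (hM : 0 < M) : ps0 D M B S H s =
    S5 M (fun _ i2 i3 _ i5 => in0 D (gp M B.a0 B.a1 i3 * S) (gp M B.r0 B.r1 i2 * S) (gp M B.p0 B.p1 i5 * S) H s) /
      (M : ℝ) ^ 5 := by
  have hM' : (0 : ℝ) < M := by exact_mod_cast hM
  unfold ps0 S5
  simp only [Finset.sum_const, Finset.card_range, nsmul_eq_mul]
  simp_rw [← Finset.mul_sum]
  have key : ∀ T : ℝ, T / (M : ℝ) ^ 3 = (M : ℝ) * ((M : ℝ) * T) / (M : ℝ) ^ 5 := fun T => by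
    field_simp
  exact key _

lemma ps0_nn {M : ℕ} {B : Box} {S : ℝ} (hH : TestH K H) : 0 ≤ ps0 D M B S H s := by
  unfold ps0
  refine div_nonneg ?_ (by positivity)
  exact Finset.sum_nonneg fun _ _ => Finset.sum_nonneg fun _ _ => Finset.sum_nonneg fun _ _ => in0_nn hH

lemma grid0 {M : ℕ} {B : Box} {R S : ℝ} (hB : B.Ok R) (hR : 0 ≤ R) (hS : 0 ≤ S) {i2 i5 : ℕ} (h2 : i2 < M) (h5 : i5 < M) :
    gp M B.r0 B.r1 i2 * S ≤ gp M B.p0 B.p1 i5 * S := by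
  have q2 := (gp_mem h2 hB.r.le).2
  have q5 := (gp_mem h5 hB.p'.le).1
  have h1 := hB.r'
  have h3 := hB.p
  exact mul_le_mul_of_nonneg_right (by linarith) hS

lemma ps0_le {M : ℕ} {B : Box} {R S : ℝ} (hB : B.Ok R) (hR : 0 ≤ R) (hS : 0 ≤ S) (hH : TestH K H) : ps0 D M B S H s ≤ 1 := by
  unfold ps0
  refine div_le_one_of_le₀ ?_ (by positivity)
  have h1 : ∑ i2 ∈ Finset.range M, ∑ i3 ∈ Finset.range M, ∑ i5 ∈ Finset.range M,
      in0 D (gp M B.a0 B.a1 i3 * S) (gp M B.r0 B.r1 i2 * S) (gp M B.p0 B.p1 i5 * S) H s ≤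
      ∑ i2 ∈ Finset.range M, ∑ i3 ∈ Finset.range M, ∑ i5 ∈ Finset.range M, (1 : ℝ) :=
    Finset.sum_le_sum fun i2 h2 => Finset.sum_le_sum fun i3 _ => Finset.sum_le_sum fun i5 h5 =>
      in0_le (grid0 hB hR hS (Finset.mem_range.1 h2) (Finset.mem_range.1 h5)) hH
  refine h1.trans (le_of_eq ?_)
  simp only [Finset.sum_const, Finset.card_range, nsmul_eq_mul, mul_one]
  ring

end

/-- modulus of continuity of the curve from the one of the walk -/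
lemma curve_md {n : ℕ} (hn : 1 ≤ n) {s : Fin n → Fin 3} {η ω β ν : ℝ} (hm : Md η ω s) (h1 : β + 3 / n ≤ η)
    (h2 : 3 / size n + ω ≤ ν) (t t' : unitInterval) (h : |(t : ℝ) - t'| ≤ β) : ‖curve s t - curve s t'‖ ≤ ν := by
  have hn0 : (0 : ℝ) < n := by exact_mod_cast hn
  obtain ⟨i, hi, i1, i2⟩ := curve_flr hn s t
  obtain ⟨j, hj, j1, j2⟩ := curve_flr hn s t'
  have hC : Cl (β + 2 / n) (1 / size n + ω) s s := by
    refine cl_of hn hn (by rw [dist_self]) hm ?_ (by linarith)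
    have : β + 2 / n + 1 / n = β + 3 / n := by ring
    rw [this]
    exact h1
  have h3 : |(i : ℝ) / n - (j : ℝ) / n| ≤ β + 2 / n := by
    have e : (i : ℝ) / n - (j : ℝ) / n = -((t : ℝ) - (i : ℝ) / n) + ((t : ℝ) - t') + ((t' : ℝ) - (j : ℝ) / n) := by ring
    rw [e]
    refine (abs_add_le _ _).trans ?_
    have h4 := abs_add_le (-((t : ℝ) - (i : ℝ) / n)) ((t : ℝ) - t')
    rw [abs_neg] at h4
    have e2 : (2 : ℝ) / n = 1 / n + 1 / n := by ring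
    rw [e2]
    linarith
  have h5 := hC i j hi hj h3
  calc ‖curve s t - curve s t'‖ = ‖(curve s t - pos s i / (size n : ℂ)) + (pos s i / (size n : ℂ) - pos s j / (size n : ℂ)) -
        (curve s t' - pos s j / (size n : ℂ))‖ := by congr 1; ring
    _ ≤ 1 / size n + (1 / size n + ω) + 1 / size n :=
        (norm_sub_le _ _).trans (add_le_add ((norm_add_le _ _).trans (add_le_add i2 h5)) j2)
    _ = 3 / size n + ω := by ring
    _ ≤ ν := h2

/-- **comparison of `ps0`** -/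
theorem ps0C {D : SzT} (hD : Sz D) {R K ε : ℝ} (hR : 0 < R) (hK : 0 ≤ K) (hε : 0 < ε) {B : Box} (hB : B.Ok R) (ηf : ℝ → ℝ)
    (hηf : ∀ ω : ℝ, 0 < ω → 0 < ηf ω) :
    ∃ (ω2 ω3 ω4 θ : ℝ) (M1 n0 : ℕ), 0 < ω2 ∧ 0 < ω3 ∧ 0 < ω4 ∧ 0 < θ ∧ ∀ M : ℕ, M1 ≤ M → 1 ≤ M → ∀ H : CI → ℝ → ℝ, TestH K H →
      ∀ (n n' : ℕ) (s : Fin n → Fin 3) (s' : Fin n' → Fin 3), n0 ≤ n → n0 ≤ n' →
        Md (ηf ω2) ω2 s' → Md (ηf ω3) ω3 s' → Md (ηf ω4) ω4 s' → Stb R θ s s' → Stb R θ s' s → dist (curve s) (curve s') ≤ θ →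
          ps0 D M B (size n) H s ≤ ps0 D M B (size n') H s' + ε := by
  classical
  obtain ⟨e', he'⟩ : ∃ e', e' = ε / 4 := ⟨_, rfl⟩
  have he0 : 0 < e' := by rw [he']; positivity
  obtain ⟨c, hc⟩ : ∃ c, c = min 1 (e' / 64) := ⟨_, rfl⟩
  have hc0 : 0 < c := by rw [hc]; exact lt_min one_pos (by positivity)
  have hc1 : c ≤ 1 := by rw [hc]; exact min_le_left _ _
  have hc2 : c ≤ e' / 64 := by rw [hc]; exact min_le_right _ _
  have hBr := sub_pos.2 hB.r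
  have hBp := sub_pos.2 hB.p'
  have hBa := sub_pos.2 hB.a'
  obtain ⟨d, hd⟩ : ∃ d, d = min R (min (B.r1 - B.r0) (B.p1 - B.p0)) := ⟨_, rfl⟩
  have hd0 : 0 < d := by rw [hd]; exact lt_min hR (lt_min hBr hBp)
  have hdR : d ≤ R := by rw [hd]; exact min_le_left _ _
  have hdr : d ≤ B.r1 - B.r0 := by rw [hd]; exact (min_le_right _ _).trans (min_le_left _ _)
  have hdp : d ≤ B.p1 - B.p0 := by rw [hd]; exact (min_le_right _ _).trans (min_le_right _ _)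
  obtain ⟨μ3, hμ3⟩ : ∃ μ3, μ3 = c * d := ⟨_, rfl⟩
  have hμ30 : 0 < μ3 := by rw [hμ3]; positivity
  have hμR : μ3 ≤ R := by rw [hμ3]; nlinarith
  obtain ⟨ω2, hω2⟩ : ∃ ω2, ω2 = μ3 / 12 := ⟨_, rfl⟩
  have hω20 : 0 < ω2 := by rw [hω2]; positivity
  have hη2 := hηf ω2 hω20
  obtain ⟨ω4, hω4⟩ : ∃ ω4, ω4 = ε / (16 * (K + 1)) := ⟨_, rfl⟩
  have hω40 : 0 < ω4 := by rw [hω4]; positivity
  have hη4 := hηf ω4 hω40
  obtain ⟨η, hη⟩ : ∃ η, η = min (ηf ω2 / 8) (min (1 / 8) (min (ηf ω4 / 8) (ε / (16 * (K + 1))))) := ⟨_, rfl⟩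
  have hη0 : 0 < η := by
    rw [hη]; exact lt_min (by positivity) (lt_min (by norm_num) (lt_min (by positivity) (by positivity)))
  have hηa : η ≤ ηf ω2 / 8 := by rw [hη]; exact min_le_left _ _
  have hηb : η ≤ 1 / 8 := by rw [hη]; exact (min_le_right _ _).trans (min_le_left _ _)
  have hηc : η ≤ ηf ω4 / 8 := by
    rw [hη]; exact (min_le_right _ _).trans ((min_le_right _ _).trans (min_le_left _ _))
  have hηd : η ≤ ε / (16 * (K + 1)) := by
    rw [hη]; exact (min_le_right _ _).trans ((min_le_right _ _).trans (min_le_right _ _))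
  obtain ⟨w, hw⟩ : ∃ w, w = μ3 / 8 := ⟨_, rfl⟩
  have hw0 : 0 < w := by rw [hw]; positivity
  obtain ⟨Q, hQ⟩ : ∃ Q : ℝ, Q = (((2 * ⌈140 * R / w⌉₊ + 1) ^ 2 : ℕ) : ℝ) := ⟨_, rfl⟩
  have hQ0 : 0 ≤ Q := by rw [hQ]; exact Nat.cast_nonneg _
  have hV : ∀ {n : ℕ} (s : Fin n → Fin 3), 1 ≤ n → ∀ c : ℕ, ((VS (140 * R * size n) (w * size n) s c).card : ℝ) ≤ Q := by
    intro n s hn c
    rw [hQ]
    refine Nat.cast_le.2 (vs_card (mul_pos hw0 (NTSF.size_pos hn)) (le_of_eq ?_) s c)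
    field_simp
  obtain ⟨μ, hμ⟩ : ∃ μ, μ = e' * (B.a1 - B.a0) / (16 * (2 / η + (Q + 1))) := ⟨_, rfl⟩
  have hμ0 : 0 < μ := by rw [hμ]; positivity
  have hμe : 2 * μ / (B.a1 - B.a0) * (2 / η + (Q + 1)) ≤ e' / 8 := by
    rw [hμ]
    have h1 : 0 < 2 / η + (Q + 1) := by positivity
    apply le_of_eq
    field_simp
    ring
  obtain ⟨M1, hM1, hMain⟩ := s5_shift' (ε := e') (a0 := 0) (a1 := 1) (h0 := B.a0) (h1 := B.a1) (η1 := 1) (η := η)
    (ω := μ) (c := c) (Q := Q + 1) he0 (by linarith) (by linarith) one_pos hη0 (by linarith) hμ0.le hc0.le hc2 hμe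
  obtain ⟨νb, hνb⟩ : ∃ νb, νb = min (μ / 2) (R / 32) := ⟨_, rfl⟩
  have hνb0 : 0 < νb := by rw [hνb]; exact lt_min (by positivity) (by positivity)
  have hνb1 : νb ≤ μ / 2 := by rw [hνb]; exact min_le_left _ _
  have hνb2 : νb ≤ R / 32 := by rw [hνb]; exact min_le_right _ _
  obtain ⟨ω3, hω3⟩ : ∃ ω3, ω3 = νb / 3 := ⟨_, rfl⟩
  have hω30 : 0 < ω3 := by rw [hω3]; positivity
  have hη3 := hηf ω3 hω30
  obtain ⟨θ, hθ0, t1, t2, t3, t4, t5, t6, t7, t8, t9⟩ : ∃ θ : ℝ, 0 < θ ∧ θ ≤ η ∧ θ ≤ μ3 / 8 ∧ θ ≤ ω2 ∧ θ ≤ ηf ω4 / 8 ∧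
      θ ≤ R / 8 ∧ θ ≤ ω3 ∧ θ ≤ ηf ω3 / 8 ∧ θ ≤ ηf ω2 / 8 ∧ θ ≤ ω4 / 4 :=
    ⟨min η (min (μ3 / 8) (min ω2 (min (ηf ω4 / 8) (min (R / 8) (min ω3 (min (ηf ω3 / 8) (min (ηf ω2 / 8) (ω4 / 4)))))))), by
        refine lt_min hη0 (lt_min ?_ (lt_min hω20 (lt_min ?_ (lt_min ?_ (lt_min hω30 (lt_min ?_ (lt_min ?_ ?_))))))) <;> positivity,
      by simp, by simp, by simp, by simp, by simp, by simp, by simp, by simp, by simp⟩
  obtain ⟨n0, hn0⟩ := inv_small hθ0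
  refine ⟨ω2, ω3, ω4, θ, M1, n0, hω20, hω30, hω40, hθ0, fun M hM hM0 H hH n n' s s' hn hn' m2 m3 m4 hS hS' hd => ?_⟩
  obtain ⟨μ0, hμ0', -, main⟩ := hMain M hM
  have hMR : (0 : ℝ) < M := by exact_mod_cast hM0
  obtain ⟨a1, a2, a3⟩ := hn0 n hn
  obtain ⟨b1, b2, b3⟩ := hn0 n' hn'
  have hs := NTSF.size_pos a1
  have hs' := NTSF.size_pos b1
  have hCa : Cl (ηf ω2 / 2) (μ3 / 4) s s' := cl_of a1 b1 hd m2 (by linarith) (by linarith)
  have hCb : Cl (ηf ω3 / 2) νb s s' := cl_of a1 b1 hd m3 (by linarith) (by linarith)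
  have hfin := main μ0 hμ0'.le le_rfl
    (F := fun _ i2 i3 _ i5 => in0 D (gp M B.a0 B.a1 i3 * size n) (gp M B.r0 B.r1 i2 * size n) (gp M B.p0 B.p1 i5 * size n) H s)
    (G := fun _ i2 i3 _ i5 => in0 D (gp M B.a0 B.a1 i3 * size n') (gp M B.r0 B.r1 i2 * size n') (gp M B.p0 B.p1 i5 * size n') H s')
    (e := ε / 2) (κ := fun _ => 0) (lam := fun x => ft n' (PD D R x s'))
    (q := fun x => qf (Q + 1) (fun c => ((VS (140 * R * size n') (w * size n') s' c).card : ℝ)) (PD D R x s'))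
    (y := fun _ => 0)
    (fun _ i2 i3 _ i5 _ h2 _ _ h5 => in0_le (grid0 hB hR.le hs.le h2 h5) hH)
    (fun _ _ _ _ _ _ _ _ _ _ => in0_nn hH) (by positivity) (fun _ _ _ => le_rfl) (fun _ => le_rfl)
    (fun _ => by norm_num) (pd_mono hD b1 s') (fun _ => ft_nn _ _) (fun _ => ft_le b1 fun _ hc => hc.1.le)
    (qfd_mono hD hR b1 s' (hV s' b1)) (fun x => (qfd_bd hQ0 s' (hV s' b1) x).1) (fun x => (qfd_bd hQ0 s' (hV s' b1) x).2) ?_
  · have hM5 : (0 : ℝ) < (M : ℝ) ^ 5 := pow_pos hMR 5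
    rw [ps0_eq hM0, ps0_eq hM0]
    have h1 : ε / 2 + e' ≤ ε := by rw [he']; linarith
    rw [div_le_iff₀ hM5, add_mul, div_mul_cancel₀ _ hM5.ne']
    refine (show _ ≤ _ from hfin).trans ?_
    have h2 := mul_le_mul_of_nonneg_right h1 hM5.le
    linarith
  · -- one term
    intro i1 i2 i3 i4 i5 j1 j2 j3 j4 j5 c1 c2 c3 c4 c5 c6
    have q1 := gp_mem j3 hB.a'.le
    have q2 := gp_mem j2 hB.r.le
    have q5 := gp_mem j5 hB.p'.le
    have B1 := hB.a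
    have B2 := hB.r'
    have B3 := hB.p
    have B4 := hB.p''
    show in0 D _ _ _ H s ≤ in0 D _ _ _ H s' + ε / 2
    by_cases ht : ∃ k : ℕ, TD D (gp M B.a0 B.a1 i3 * size n) (gp M B.r0 B.r1 i2 * size n) (gp M B.p0 B.p1 i5 * size n) s k
    · obtain ⟨k, ht⟩ := ht
      rw [in0_eq (grid0 hB hR.le hs.le j2 j5) ht]
      simp only [zero_add] at c2 c3
      obtain ⟨k', ht', htm⟩ := td_close hD (τ := 4) (η1 := η) a1 b1 hR (hCa.clT 4) (hCb.clT 4) hS hS' hθ0 t5 hνb0.le hνb2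
        (by linarith) (by linarith) (by linarith : 2 * νb ≤ μ) hμ0.le hη0.le
        (by linarith : θ + η + 1 / (n : ℝ) ≤ ηf ω2 / 2) hw0
        (by rw [hw]; linarith : 2 * w + μ3 / 4 + 2 * θ ≤ μ3) (by linarith) hμ30.le hμR (B1.trans q1.1) (q2.2.trans B2)
        (B3.trans q5.1) (q5.2.trans B4) (by linarith) ht
        (by
          have hn0 : (0 : ℝ) < n := by exact_mod_cast a1
          have h1 : (k : ℝ) / n ≤ 1 := by
            rw [div_le_one hn0]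
            exact_mod_cast ht.2.1.le
          linarith) (hV s' b1) c2 c3
      have hJ : c ≤ (⌈c * M⌉₊ : ℝ) / M := by
        rw [le_div_iff₀ hMR]
        exact Nat.le_ceil _
      have hJ0 : (0 : ℝ) ≤ (⌈c * M⌉₊ : ℝ) / M := by positivity
      have hJ' : ∀ x : ℝ, x * (⌈c * M⌉₊ : ℝ) / M = x * ((⌈c * M⌉₊ : ℝ) / M) := fun x => by ring
      have r2 : gp M B.r0 B.r1 i2 + μ3 ≤ gp M B.r0 B.r1 (i2 + ⌈c * M⌉₊) := by
        rw [gp_shift, hJ', hμ3]
        have h1 : d * c ≤ (B.r1 - B.r0) * ((⌈c * M⌉₊ : ℝ) / M) := mul_le_mul hdr hJ hc0.le hBr.le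
        linarith
      have r5 : gp M B.p0 B.p1 (i5 - ⌈c * M⌉₊) ≤ gp M B.p0 B.p1 i5 - μ3 := by
        rw [gp_shift' _ _ _ c6, hJ', hμ3]
        have h1 : d * c ≤ (B.p1 - B.p0) * ((⌈c * M⌉₊ : ℝ) / M) := mul_le_mul hdp hJ hc0.le hBp.le
        linarith
      have ht2 : TD D (gp M B.a0 B.a1 i3 * size n') (gp M B.r0 B.r1 (i2 + ⌈c * M⌉₊) * size n')
          (gp M B.p0 B.p1 (i5 - ⌈c * M⌉₊) * size n') s' k' :=
        ⟨⟨ht'.1.1, ht'.1.2.1, fun i j hi hj => (ht'.1.2.2.1 i j hi hj).trans (mul_le_mul_of_nonneg_right r2 hs'.le),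
          ht'.1.2.2.2⟩, ht'.2.1, ht'.2.2.1, fun j h1 h2 h3 => ht'.2.2.2 j h1 h2
            (h3.trans (mul_le_mul_of_nonneg_right r5 hs'.le))⟩
      have j5' : i5 - ⌈c * M⌉₊ < M := lt_of_le_of_lt (Nat.sub_le _ _) j5
      rw [in0_eq (grid0 hB hR.le hs'.le c4 j5') ht2]
      have hmd := curve_md b1 m4 (β := |(k : ℝ) / n - (k' : ℝ) / n'|) (ν := 2 * ω4)
        (by
          have e3 : (3 : ℝ) / n' = 3 * (1 / n') := by ring
          rw [e3]
          linarith)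
        (by
          have e3 : (3 : ℝ) / size n' = 3 * (1 / size n') := by ring
          rw [e3]
          linarith)
      have h1 := hH.lip (curve s) (curve s') ((k : ℝ) / n) ((k' : ℝ) / n') (2 * ω4) hmd
      refine h1.trans (add_le_add le_rfl ?_)
      have h2 : dist (curve s) (curve s') + |(k : ℝ) / n - (k' : ℝ) / n'| + 2 * ω4 ≤ ε / (2 * (K + 1)) := by
        have e1 : ε / (2 * (K + 1)) = 8 * (ε / (16 * (K + 1))) := by
          field_simp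
          ring
        rw [e1, ← hω4]
        rw [← hω4] at hηd
        linarith
      calc K * (dist (curve s) (curve s') + |(k : ℝ) / n - (k' : ℝ) / n'| + 2 * ω4)
          ≤ K * (ε / (2 * (K + 1))) := mul_le_mul_of_nonneg_left h2 hK
        _ = ε / 2 * (K / (K + 1)) := by
            field_simp
        _ ≤ ε / 2 * 1 := by
            refine mul_le_mul_of_nonneg_left ?_ (by positivity)
            rw [div_le_one (by positivity)]
            linarith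
        _ = ε / 2 := mul_one _
    · rw [in0_zero fun k h' => ht ⟨k, h'⟩]
      have := in0_nn (D := D) (a := gp M B.a0 B.a1 i3 * size n') (r := gp M B.r0 B.r1 (i2 + ⌈c * M⌉₊) * size n')
        (ρ := gp M B.p0 B.p1 (i5 - ⌈c * M⌉₊) * size n') (s := s') hH
      linarith

end Pool.Agent.SCF.M
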