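import Pool.Agent.ROT.F3End
import Pool.Agent.ROT.F3MacB

/-!
# ROT, block F3: test functions read from the end of the curve (helper28)
-/

set_option autoImplicit false

namespace Pool.Agent.ROT.F3

open Pool.Agent.NTS.Res (step pos saw fug size curve)
open Pool.Agent.CRT (CI)
open Pool.Agent.SCF.M (TestH ps0 SzT Box)
open Pool.Agent.SCF.Z (rvw cutw)

lemma TestH.osc_nonneg {γ' : CI} {y δ : ℝ} (hy : 0 ≤ y)
    (h : ∀ t t' : unitInterval, |(t : ℝ) - t'| ≤ y → ‖γ' t - γ' t'‖ ≤ δ) : 0 ≤ δ :=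
  (norm_nonneg _).trans (h 0 0 (by rw [sub_self, abs_zero]; exact hy))

/-- the test function read from the end -/
theorem testH_rvc {K : ℝ} (hK : 0 ≤ K) {H : CI → ℝ → ℝ} (hH : TestH K H) : TestH (2 * K) fun γ x => H (rvc γ) (1 - x) := by
  refine ⟨fun γ x => hH.nn _ _, fun γ x => hH.le _ _, fun γ γ' x x' δ h => ?_⟩
  have hδ : 0 ≤ δ := TestH.osc_nonneg (abs_nonneg (x - x')) h
  have e1 : |(1 - x) - (1 - x')| = |x - x'| := by
    rw [abs_sub_comm x x']
    congr 1
    ring
  have h1 := hH.lip (rvc γ) (rvc γ') (1 - x) (1 - x') δ fun t t' ht => by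
    have e2 : rvc γ' t - rvc γ' t' = γ' (unitInterval.symm t) - γ' (unitInterval.symm t') := by
      rw [rvc_apply, rvc_apply]
      ring
    rw [e2]
    refine h _ _ ?_
    rw [unitInterval.coe_symm_eq, unitInterval.coe_symm_eq]
    have e3 : 1 - (t : ℝ) - (1 - t') = -(t - t') := by ring
    rw [e3, abs_neg]
    rwa [e1] at ht
  rw [e1] at h1
  have h2 := mul_le_mul_of_nonneg_left (rvc_dist γ γ') hK
  have h3 : 0 ≤ K * |x - x'| := mul_nonneg hK (abs_nonneg _)
  have h4 : 0 ≤ K * δ := mul_nonneg hK hδ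
  show H (rvc γ) (1 - x) ≤ H (rvc γ') (1 - x') + 2 * K * (dist γ γ' + |x - x'| + δ)
  linarith

/-- the test function of the scaled curve: `c ≤ C` -/
theorem testH_smul {K C c : ℝ} (hK : 0 ≤ K) (hc : 0 ≤ c) (hcC : c ≤ C) (hC : 1 ≤ C) {H : CI → ℝ → ℝ} (hH : TestH K H) :
    TestH (C * K) fun γ x => H (c • γ) x := by
  refine ⟨fun γ x => hH.nn _ _, fun γ x => hH.le _ _, fun γ γ' x x' δ h => ?_⟩
  have hδ : 0 ≤ δ := TestH.osc_nonneg (abs_nonneg (x - x')) h
  have h1 := hH.lip (c • γ) (c • γ') x x' (c * δ) fun t t' ht => by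
    rw [ContinuousMap.smul_apply, ContinuousMap.smul_apply, ← smul_sub, norm_smul, Real.norm_eq_abs, abs_of_nonneg hc]
    exact mul_le_mul_of_nonneg_left (h t t' ht) hc
  have h2 : dist (c • γ) (c • γ') ≤ c * dist γ γ' := by
    rw [ContinuousMap.dist_le (by positivity)]
    intro t
    rw [ContinuousMap.smul_apply, ContinuousMap.smul_apply, dist_eq_norm, ← smul_sub, norm_smul, Real.norm_eq_abs, abs_of_nonneg hc,
      ← dist_eq_norm]
    exact mul_le_mul_of_nonneg_left (ContinuousMap.dist_apply_le_dist t) hc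
  have h3 : c * dist γ γ' + |x - x'| + c * δ ≤ C * (dist γ γ' + |x - x'| + δ) := by
    have g1 := mul_le_mul_of_nonneg_right hcC (dist_nonneg (x := γ) (y := γ'))
    have g2 := mul_le_mul_of_nonneg_right hC (abs_nonneg (x - x'))
    have g3 := mul_le_mul_of_nonneg_right hcC hδ
    linarith
  have h4 := mul_le_mul_of_nonneg_left (((add_le_add (add_le_add h2 le_rfl) le_rfl)).trans h3) hK
  show H (c • γ) x ≤ H (c • γ') x' + C * K * (dist γ γ' + |x - x'| + δ)
  have e : C * K * (dist γ γ' + |x - x'| + δ) = K * (C * (dist γ γ' + |x - x'| + δ)) := by ring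
  rw [e]
  linarith

/-- `ps0` of the reversed walk = the average over the END gates, with the test function read from the end -/
theorem ps0_rvw {D : SzT} {M : ℕ} {B : Box} {S : ℝ} {H : CI → ℝ → ℝ} {n : ℕ} (hn : Even n) (s : Fin n → Fin 3) :
    ps0 D M B S (fun γ x => H (rvc γ) (1 - x)) (rvw s) = ps0 D M B S (fun _ x => H (curve s) (1 - x)) (rvw s) := by
  unfold ps0 Pool.Agent.SCF.M.in0
  simp only [curve_rvw hn, rvc_rvc (NTSF.curve_zero s)]

end Pool.Agent.ROT.F3
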