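import Pool.Agent.ROT.F3FComp
import Mathlib.NumberTheory.DiophantineApproximation.Basic

/-!
# F3, the ends of the companions (helper64)

* `dirichlet2` : simultaneous approximation with a multiplier `K ≥ K0`;
* `sq h c` : the closed square of the cell `c` at mesh `h`; `nd μ n` : the position of the node `n`;
* `stub_pt`, `chain_pt` : the closed cells near a stub and near a fine chain;
* `north_end`, `south_end` : the stub which ends at a prescribed node near a prescribed point, its mouth, and where it is;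
* `near_closed` : the union of the closed cells near a companion is closed.
-/

set_option autoImplicit false

namespace HexObs

namespace ROT

namespace F3L

open ARM (adj nr nr_iff nr_symm nr_trans nr_mono nr_self)
open ART ART.Lane Set F3S TS SDN

/-! ### arithmetic -/

/-- **simultaneous approximation** with a large multiplier -/
theorem dirichlet2 (α β : ℝ) {ε : ℝ} (hε : 0 < ε) (K0 : ℕ) :
    ∃ (K : ℕ) (V : ℤ × ℤ), K0 ≤ K ∧ |(K : ℝ) * α - V.1| ≤ ε ∧ |(K : ℝ) * β - V.2| ≤ ε := by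
  obtain ⟨n, hn⟩ := exists_nat_gt (1 / ε)
  have hn0 : (0 : ℝ) < n := lt_trans (by positivity) hn
  have hn1 : 0 < n := by exact_mod_cast hn0
  have hne : 1 ≤ n * ε := by
    rw [div_lt_iff₀ hε] at hn
    exact hn.le
  obtain ⟨k1, h1, h2, h3⟩ := Real.exists_nat_abs_mul_sub_round_le (K0 * α) (n := n * n) (by positivity)
  obtain ⟨k2, g1, g2, g3⟩ := Real.exists_nat_abs_mul_sub_round_le (k1 * (K0 * β)) hn1
  refine ⟨k2 * (k1 * K0), (k2 * round (k1 * (K0 * α)), round (k2 * (k1 * (K0 * β)))), ?_, ?_, ?_⟩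
  · have : 1 * K0 ≤ (k2 * k1) * K0 := Nat.mul_le_mul_right K0 (Nat.mul_pos g1 h1)
    rw [one_mul] at this
    rwa [← mul_assoc]
  · have e : ((k2 * (k1 * K0) : ℕ) : ℝ) * α - ((k2 * round (k1 * (K0 * α)) : ℤ) : ℝ) =
        k2 * (k1 * (K0 * α) - round (k1 * (K0 * α))) := by
      push_cast
      ring
    simp only
    rw [e, abs_mul, Nat.abs_cast]
    have g2' : (k2 : ℝ) ≤ n := by exact_mod_cast g2
    push_cast at h3
    calc (k2 : ℝ) * |↑k1 * (↑K0 * α) - ↑(round (↑k1 * (↑K0 * α)))| ≤ n * (1 / ((n : ℝ) * n + 1)) :=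
          mul_le_mul g2' h3 (abs_nonneg _) hn0.le
      _ ≤ ε := by
          rw [mul_one_div, div_le_iff₀ (by positivity)]
          nlinarith
  · have e : ((k2 * (k1 * K0) : ℕ) : ℝ) * β = k2 * (k1 * (K0 * β)) := by
      push_cast
      ring
    simp only
    rw [e]
    refine g3.trans ?_
    rw [div_le_iff₀ (by positivity)]
    nlinarith

/-- the nearest integer of a class mod 4 -/
lemma near_mod4 (x : ℝ) (r : ℤ) : ∃ n : ℤ, (∃ q : ℤ, n = 4 * q + r) ∧ |x - n| ≤ 2 := by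
  refine ⟨4 * round ((x - r) / 4) + r, ⟨_, rfl⟩, ?_⟩
  have h := abs_le.1 (abs_sub_round ((x - r) / 4))
  push_cast
  rw [abs_le]
  constructor <;> linarith [h.1, h.2]

/-- the closed square of a cell -/
def sq (h : ℝ) (c : ℤ × ℤ) : Set (ℝ × ℝ) := Icc (h * c.1) (h * (c.1 + 1)) ×ˢ Icc (h * c.2) (h * (c.2 + 1))

/-- the position of a node -/
def nd (μ : ℝ) (n : ℤ × ℤ) : ℝ × ℝ := (μ * n.1, μ * n.2)

lemma mem_sq {h : ℝ} {c : ℤ × ℤ} {y : ℝ × ℝ} : y ∈ sq h c ↔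
    (h * c.1 ≤ y.1 ∧ y.1 ≤ h * (c.1 + 1)) ∧ h * c.2 ≤ y.2 ∧ y.2 ≤ h * (c.2 + 1) := Iff.rfl

lemma dist_le2 {y z : ℝ × ℝ} {d : ℝ} : dist y z ≤ d ↔ (-d ≤ y.1 - z.1 ∧ y.1 - z.1 ≤ d) ∧ -d ≤ y.2 - z.2 ∧ y.2 - z.2 ≤ d := by
  rw [Prod.dist_eq, max_le_iff, Real.dist_eq, Real.dist_eq, abs_le, abs_le]

lemma le_dist1 {y z : ℝ × ℝ} {d : ℝ} (h : d ≤ y.1 - z.1 ∨ d ≤ z.1 - y.1 ∨ d ≤ y.2 - z.2 ∨ d ≤ z.2 - y.2) : d ≤ dist y z := by
  rw [Prod.dist_eq, le_max_iff, Real.dist_eq, Real.dist_eq]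
  rcases h with h | h | h | h
  · exact Or.inl (h.trans (le_abs_self _))
  · exact Or.inl (by rw [abs_sub_comm]; exact h.trans (le_abs_self _))
  · exact Or.inr (h.trans (le_abs_self _))
  · exact Or.inr (by rw [abs_sub_comm]; exact h.trans (le_abs_self _))

/-- the closed cells near a node -/
lemma stub_pt {μ : ℝ} (hμ : 0 < μ) {n : Pt} {c c' : ℤ × ℤ} (hc : NC n c) (h : nr 1 c c') {y : ℝ × ℝ} (hy : y ∈ sq (4 * μ) c') :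
    (μ * n.1 - 9 * μ ≤ y.1 ∧ y.1 ≤ μ * n.1 + 9 * μ) ∧ μ * n.2 - 9 * μ ≤ y.2 ∧ y.2 ≤ μ * n.2 + 9 * μ := by
  obtain ⟨m, h1, h2, rfl⟩ := hc
  rw [nr_iff] at h
  rw [abs_le] at h1 h2
  simp only at h
  rw [mem_sq] at hy
  have key : ∀ a b c : ℤ, -1 ≤ a - b → a - b ≤ 1 → c ≤ a / 4 + 1 → a / 4 - 1 ≤ c → ∀ y : ℝ, 4 * μ * c ≤ y →
      y ≤ 4 * μ * (c + 1) → μ * b - 9 * μ ≤ y ∧ y ≤ μ * b + 9 * μ := by
    intro a b c g1 g2 g3 g4 y g5 g6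
    have k1 : b - 9 ≤ 4 * c := by omega
    have k2 : 4 * c + 4 ≤ b + 9 := by omega
    have k1' : (b : ℝ) - 9 ≤ 4 * c := by exact_mod_cast k1
    have k2' : (4 : ℝ) * c + 4 ≤ b + 9 := by exact_mod_cast k2
    have m1 := mul_le_mul_of_nonneg_left k1' hμ.le
    have m2 := mul_le_mul_of_nonneg_left k2' hμ.le
    constructor <;> nlinarith
  exact ⟨key m.1 n.1 c'.1 (by omega) (by omega) (by omega) (by omega) y.1 hy.1.1 hy.1.2,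
    key m.2 n.2 c'.2 (by omega) (by omega) (by omega) (by omega) y.2 hy.2.1 hy.2.2⟩

lemma floor_div_K {K : ℕ} (hK : 0 < K) (x : ℝ) : ⌊(K : ℝ) * x⌋ / (K : ℤ) = ⌊x⌋ := by
  have hK' : (0 : ℝ) < K := by exact_mod_cast hK
  refine edq (K := (K : ℤ)) (by exact_mod_cast hK) ?_ ?_
  · rw [Int.le_floor]
    push_cast
    exact mul_le_mul_of_nonneg_left (Int.floor_le x) hK'.le
  · rw [Int.floor_lt]
    push_cast
    have := mul_lt_mul_of_pos_left (Int.lt_floor_add_one x) hK'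
    linarith

lemma co_cel {K : ℕ} (hK : 0 < K) {h : ℝ} (hh : 0 < h) (y : ℝ × ℝ) : co K (cel (h / K) y) = cel h y := by
  have hK' : (0 : ℝ) < K := by exact_mod_cast hK
  have e : ∀ x : ℝ, x / (h / K) = (K : ℝ) * (x / h) := fun x => by
    field_simp
  unfold co cel
  simp only
  rw [e, e, floor_div_K hK, floor_div_K hK]

/-- a point of a closed cell -/
lemma cel_sq {h : ℝ} (hh : 0 < h) {c : ℤ × ℤ} {y : ℝ × ℝ} (hy : y ∈ sq h c) : nr 1 c (cel h y) := by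
  rw [mem_sq] at hy
  have key : ∀ (c : ℤ) (y : ℝ), h * c ≤ y → y ≤ h * (c + 1) → c ≤ ⌊y / h⌋ ∧ ⌊y / h⌋ ≤ c + 1 := by
    intro c y h1 h2
    constructor
    · rw [Int.le_floor, le_div_iff₀ hh]
      linarith
    · have h3 : y / h ≤ ((c + 1 : ℤ) : ℝ) := by
        rw [div_le_iff₀ hh]
        push_cast
        linarith
      have h4 := (Int.floor_le (y / h)).trans h3
      exact_mod_cast h4
  have k1 := key c.1 y.1 hy.1.1 hy.1.2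
  have k2 := key c.2 y.2 hy.2.1 hy.2.2
  rw [nr_iff]
  unfold cel
  simp only
  omega

/-- **the points near the closed cells near a fine chain are in the cells of the coarse chain** -/
lemma chain_pt {K : ℕ} (hK : 16 ≤ K) {h : ℝ} (hh : 0 < h) {L L' : List (ℤ × ℤ)}
    (hL : ∀ x ∈ L', ∀ m : ℤ, 2 * m + 2 ≤ K → ∀ y, nr m x y → co K y ∈ L) {x x' : ℤ × ℤ} (hx : x ∈ L') (hx' : nr 1 x x')
    {y y' : ℝ × ℝ} (hy : y ∈ sq (h / K) x') (hd : dist y y' ≤ h / 4) : cel h y' ∈ L := by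
  have hK' : (0 : ℝ) < K := by
    have : 0 < K := by omega
    exact_mod_cast this
  have hhK : 0 < h / K := by positivity
  have h1 := nr_trans hx' (cel_sq hhK hy)
  obtain ⟨d, hd1, hd2⟩ : ∃ d : ℤ, (K : ℤ) ≤ 4 * d ∧ 4 * d ≤ K + 3 := ⟨((K : ℤ) + 3) / 4, by omega, by omega⟩
  have h2 : nr d (cel (h / K) y) (cel (h / K) y') := by
    refine cel_nr hhK (hd.trans ?_)
    have hd1' : (K : ℝ) ≤ 4 * d := by exact_mod_cast hd1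
    rw [mul_div_assoc', le_div_iff₀ hK']
    nlinarith
  have h3 := hL x hx _ (by omega) _ (nr_trans h1 h2)
  rwa [co_cel (by omega) hh] at h3

/-! ### the stubs -/

/-- the stub of the north type which ends at the node n0 -/
lemma pick_north {K : ℕ} (hK : 0 < K) (Y : ℤ) {n0 : ℤ × ℤ} (h4 : ∃ q : ℤ, n0.1 + n0.2 = 4 * q)
    (hpos : n0.2 < 4 * (K * Y + ((K / 2 : ℕ) : ℤ)) + 2) : ∃ (ξ : ℤ) (i0 s0 : ℕ), i0 < K ∧ 1 ≤ s0 ∧
      ART.ctr (fc K (ξ, Y) + (i0 : ℤ) • ((-1, 0) : ℤ × ℤ)) + (s0 : ℤ) • ((1, -1) : ℤ × ℤ) = n0 := by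
  obtain ⟨q, hq⟩ := h4
  obtain ⟨k, hk⟩ : ∃ k : ℤ, k = ((K / 2 : ℕ) : ℤ) := ⟨_, rfl⟩
  rw [← hk] at hpos
  have hK' : (0 : ℤ) < K := by exact_mod_cast hK
  -- the mouth
  obtain ⟨X0, hX0⟩ : ∃ X0 : ℤ, X0 = q - (K * Y + k) - 1 := ⟨_, rfl⟩
  have e1 := Int.emod_add_mul_ediv (k - X0) K
  have e2 := Int.emod_nonneg (k - X0) hK'.ne'
  have e3 := Int.emod_lt_of_pos (k - X0) hK'
  refine ⟨-((k - X0) / K), ((k - X0) % K).toNat, (4 * (K * Y + k) + 2 - n0.2).toNat, by omega, by omega, ?_⟩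
  unfold fc ART.ctr
  rw [← hk]
  have m1 : (K : ℤ) * -((k - X0) / K) = -(K * ((k - X0) / K)) := by ring
  have t1 : (((k - X0) % K).toNat : ℤ) = (k - X0) % K := Int.toNat_of_nonneg e2
  have t2 : ((4 * (K * Y + k) + 2 - n0.2).toNat : ℤ) = 4 * (K * Y + k) + 2 - n0.2 := Int.toNat_of_nonneg (by omega)
  refine Prod.ext ?_ ?_
  · simp only [Prod.smul_mk, Prod.mk_add_mk, smul_eq_mul]
    rw [m1, t1, t2]
    generalize (K : ℤ) * ((k - X0) / K) = A at e1 ⊢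
    generalize (k - X0) % (K : ℤ) = B at e1 ⊢
    generalize (K : ℤ) * Y = C at hX0 ⊢
    omega
  · simp only [Prod.smul_mk, Prod.mk_add_mk, smul_eq_mul]
    rw [t2]
    ring

/-- the stub of the south type which ends at the node n0 -/
lemma pick_south {K : ℕ} (hK : 0 < K) (Y : ℤ) {n0 : ℤ × ℤ} (h4 : ∃ q : ℤ, n0.1 = 4 * q + 2)
    (hpos : 4 * (K * Y + ((K / 2 : ℕ) : ℤ)) + 2 < n0.2) : ∃ (ξ : ℤ) (i0 s0 : ℕ), i0 < K ∧ 1 ≤ s0 ∧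
      ART.ctr (fc K (ξ, Y) + (i0 : ℤ) • ((-1, 0) : ℤ × ℤ)) + (s0 : ℤ) • ((0, 1) : ℤ × ℤ) = n0 := by
  obtain ⟨X0, hX0⟩ := h4
  obtain ⟨k, hk⟩ : ∃ k : ℤ, k = ((K / 2 : ℕ) : ℤ) := ⟨_, rfl⟩
  rw [← hk] at hpos
  have hK' : (0 : ℤ) < K := by exact_mod_cast hK
  have e1 := Int.emod_add_mul_ediv (k - X0) K
  have e2 := Int.emod_nonneg (k - X0) hK'.ne'
  have e3 := Int.emod_lt_of_pos (k - X0) hK'
  refine ⟨-((k - X0) / K), ((k - X0) % K).toNat, (n0.2 - (4 * (K * Y + k) + 2)).toNat, by omega, by omega, ?_⟩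
  unfold fc ART.ctr
  rw [← hk]
  have m1 : (K : ℤ) * -((k - X0) / K) = -(K * ((k - X0) / K)) := by ring
  have t1 : (((k - X0) % K).toNat : ℤ) = (k - X0) % K := Int.toNat_of_nonneg e2
  have t2 : ((n0.2 - (4 * (K * Y + k) + 2)).toNat : ℤ) = n0.2 - (4 * (K * Y + k) + 2) := Int.toNat_of_nonneg (by omega)
  refine Prod.ext ?_ ?_
  · simp only [Prod.smul_mk, Prod.mk_add_mk, smul_eq_mul]
    rw [m1, t1]
    generalize (K : ℤ) * ((k - X0) / K) = A at e1 ⊢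
    generalize (k - X0) % (K : ℤ) = B at e1 ⊢
    omega
  · simp only [Prod.smul_mk, Prod.mk_add_mk, smul_eq_mul]
    rw [t2]
    ring

/-- floors at the mesh s -/
lemma fl_s {s : ℝ} (hs : 0 < s) (x : ℝ) : (⌊x / s⌋ : ℝ) * s ≤ x ∧ x < (⌊x / s⌋ : ℝ) * s + s := by
  have e1 : (⌊x / s⌋ : ℝ) * s ≤ x / s * s := mul_le_mul_of_nonneg_right (Int.floor_le _) hs.le
  have e2 : x / s * s < ((⌊x / s⌋ : ℝ) + 1) * s := mul_lt_mul_of_pos_right (Int.lt_floor_add_one _) hs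
  rw [div_mul_cancel₀ _ hs.ne'] at e1 e2
  exact ⟨e1, by linarith⟩

/-- **a stub of the north type**: it ends at the node n0 near z, its mouth, its length, and where its closed cells are -/
theorem north_end {K : ℕ} (hK : 32 ≤ K) {s μ : ℝ} (hs : 0 < s) (hμ : 0 < μ) (hKμ : 8 * (K * μ) = s) {P z : ℝ × ℝ}
    {a b e dl a1 : ℝ} (m1 : 16 * s ≤ dl) (m2 : 16 * s ≤ e) (m3 : 16 * s ≤ a - a1) (m4 : 16 * s ≤ b - a - e)
    (z1 : z.1 ≤ P.1 - dl) (z2 : P.2 + dl ≤ z.2) (z3 : -(e / 2) ≤ (z.1 - P.1) + (z.2 - P.2))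
    (z5 : dist P z ≤ a1) {n0 : ℤ × ℤ} (h4 : ∃ q : ℤ, n0.1 + n0.2 = 4 * q) (hn0 : dist z (nd μ n0) ≤ 3 * μ) : ∃ (ξ : ℤ) (i0 s0 : ℕ), i0 < K ∧ 1 ≤ s0 ∧
      (2 * ((cel s P).1 - ⌊a / s⌋ - ⌊e / s⌋) + 2 ≤ ξ ∧ ξ ≤ 2 * ((cel s P).1 + ⌊e / s⌋)) ∧
      (s0 : ℤ) ≤ 8 * (K * ⌊a / s⌋) ∧
      ART.ctr (fc K (ξ, 2 * ((cel s P).2 + ⌊a / s⌋ + 1)) + (i0 : ℤ) • ((-1, 0) : ℤ × ℤ)) + (s0 : ℤ) • ((1, -1) : ℤ × ℤ) = n0 ∧
      ∀ i : ℕ, i ≤ s0 → ∀ c, NC (ART.ctr (fc K (ξ, 2 * ((cel s P).2 + ⌊a / s⌋ + 1)) + (i0 : ℤ) • ((-1, 0) : ℤ × ℤ)) +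
        (i : ℤ) • ((1, -1) : ℤ × ℤ)) c → ∀ c', nr 1 c c' → ∀ y ∈ sq (4 * μ) c', y.1 ≤ P.1 - dl / 2 ∧ P.2 + dl / 2 ≤ y.2 ∧
          dist P y ≤ b - 2 * s ∧ s * ((cel s P).1 - ⌊a / s⌋ - ⌊e / s⌋ : ℤ) + 5 / 8 * s ≤ y.1 := by
  have hK0 : 0 < K := by omega
  have hK' : (32 : ℝ) ≤ K := by exact_mod_cast hK
  have hμs : 256 * μ ≤ s := by nlinarith
  obtain ⟨A, hA⟩ : ∃ A : ℤ, A = ⌊a / s⌋ := ⟨_, rfl⟩
  obtain ⟨E, hE⟩ : ∃ E : ℤ, E = ⌊e / s⌋ := ⟨_, rfl⟩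
  obtain ⟨p1, hp1⟩ : ∃ p1 : ℤ, p1 = (cel s P).1 := ⟨_, rfl⟩
  obtain ⟨p2, hp2⟩ : ∃ p2 : ℤ, p2 = (cel s P).2 := ⟨_, rfl⟩
  have fA := fl_s hs a
  have fE := fl_s hs e
  have f1 := fl_s hs P.1
  have f2 := fl_s hs P.2
  have hp1' : ⌊P.1 / s⌋ = p1 := hp1.symm
  have hp2' : ⌊P.2 / s⌋ = p2 := hp2.symm
  rw [hp1'] at f1
  rw [hp2'] at f2
  rw [← hA, ← hE, ← hp1, ← hp2]
  rw [← hA] at fA
  rw [← hE] at fE
  rw [dist_le2] at z5 hn0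
  unfold nd at hn0
  simp only at hn0
  obtain ⟨k, hk⟩ : ∃ k : ℤ, k = ((K / 2 : ℕ) : ℤ) := ⟨_, rfl⟩
  have hk1 : 2 * k ≤ K ∧ (K : ℤ) ≤ 2 * k + 1 := by omega
  have hk1' : 2 * (k : ℝ) ≤ K := by exact_mod_cast hk1.1
  have hk2' : (K : ℝ) ≤ 2 * k + 1 := by exact_mod_cast hk1.2
  have k1 := mul_le_mul_of_nonneg_left hk1' hμ.le
  have k2 := mul_le_mul_of_nonneg_left hk2' hμ.le
  have mK : μ * K = s / 8 := by linarith
  have pull : ∀ {x y : ℤ}, μ * (x : ℝ) < μ * (y : ℝ) → x < y := by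
    intro x y h
    exact_mod_cast (mul_lt_mul_iff_right₀ hμ).1 h
  have hpos : n0.2 < 4 * (K * (2 * (p2 + A + 1)) + ((K / 2 : ℕ) : ℤ)) + 2 := by
    rw [← hk]
    refine pull ?_
    push_cast
    have e1 : μ * (4 * ((K : ℝ) * (2 * ((p2 : ℝ) + A + 1)) + k) + 2) = s * p2 + s * A + s + 4 * (μ * k) + 2 * μ := by
      linear_combination (8 * ((p2 : ℝ) + A + 1)) * mK
    rw [e1]
    linarith [hn0.2.1, z5.2.1, z5.2.2]
  obtain ⟨ξ, i0, s0, hi0, hs0, hctr⟩ := pick_north hK0 (2 * (p2 + A + 1)) h4 hpos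
  refine ⟨ξ, i0, s0, hi0, hs0, ?_⟩
  have hctr' := hctr
  unfold fc ART.ctr at hctr'
  rw [← hk] at hctr'
  simp only [Prod.smul_mk, Prod.mk_add_mk, smul_eq_mul] at hctr'
  have c1 : ((4 * ((K : ℤ) * ξ + k + (i0 : ℤ) * -1) + 2 + (s0 : ℤ) * 1 : ℤ) : ℝ) = n0.1 := by
    exact_mod_cast congrArg Prod.fst hctr'
  have c2 : ((4 * ((K : ℤ) * (2 * (p2 + A + 1)) + k + (i0 : ℤ) * 0) + 2 + (s0 : ℤ) * -1 : ℤ) : ℝ) = n0.2 := by
    exact_mod_cast congrArg Prod.snd hctr'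
  push_cast at c1 c2
  have r1 : μ * n0.1 = s / 2 * ξ + 4 * (μ * k) - 4 * (μ * i0) + 2 * μ + μ * s0 := by
    linear_combination -μ * c1 + (4 * (ξ : ℝ)) * mK
  have r2 : μ * n0.2 = s * p2 + s * A + s + 4 * (μ * k) + 2 * μ - μ * s0 := by
    linear_combination -μ * c2 + (8 * ((p2 : ℝ) + A + 1)) * mK
  have hi0' : (i0 : ℝ) + 1 ≤ K := by exact_mod_cast hi0
  have i1 := mul_le_mul_of_nonneg_left hi0' hμ.le
  have i2 : 0 ≤ μ * (i0 : ℝ) := by positivity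
  have pulls : ∀ {x y : ℤ}, s / 2 * (x : ℝ) ≤ s / 2 * (y : ℝ) → x ≤ y := by
    intro x y h
    exact_mod_cast (mul_le_mul_iff_right₀ (by positivity : (0 : ℝ) < s / 2)).1 h
  have hξ1 : 2 * (p1 - A - E) + 2 ≤ ξ := by
    refine pulls ?_
    push_cast
    linarith [hn0.1.1, hn0.1.2, hn0.2.1, hn0.2.2]
  have hξ1' : s * (p1 - A - E) + s ≤ s / 2 * ξ := by
    have h1 : ((2 * (p1 - A - E) + 2 : ℤ) : ℝ) ≤ ξ := by exact_mod_cast hξ1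
    push_cast at h1
    have := mul_le_mul_of_nonneg_left h1 (by positivity : (0 : ℝ) ≤ s / 2)
    linarith
  refine ⟨⟨hξ1, ?_⟩, ?_, hctr, ?_⟩
  · refine pulls ?_
    push_cast
    linarith [hn0.1.1, hn0.1.2, hn0.2.1, hn0.2.2]
  · have h1 : μ * (s0 : ℝ) ≤ μ * (8 * (K * A)) := by
      have e1 : μ * (8 * ((K : ℝ) * A)) = s * A := by linear_combination (8 * (A : ℝ)) * mK
      rw [e1]
      linarith [hn0.2.1, hn0.2.2]
    have h2 := (mul_le_mul_iff_right₀ hμ).1 h1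
    exact_mod_cast h2
  · intro i hi c hc c' hc' y hy
    have hy' := stub_pt hμ hc hc' hy
    unfold fc ART.ctr at hy'
    rw [← hk] at hy'
    simp only [Prod.smul_mk, Prod.mk_add_mk, smul_eq_mul] at hy'
    push_cast at hy'
    have q1 : μ * (4 * ((K : ℝ) * ξ + k + i0 * -1) + 2 + i * 1) = s / 2 * ξ + 4 * (μ * k) - 4 * (μ * i0) + 2 * μ + μ * i := by
      linear_combination (4 * (ξ : ℝ)) * mK
    have q2 : μ * (4 * ((K : ℝ) * (2 * (p2 + A + 1)) + k + i0 * 0) + 2 + i * -1) =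
        s * p2 + s * A + s + 4 * (μ * k) + 2 * μ - μ * i := by
      linear_combination (8 * ((p2 : ℝ) + A + 1)) * mK
    rw [q1, q2] at hy'
    have hi' : (i : ℝ) ≤ s0 := by exact_mod_cast hi
    have i3 := mul_le_mul_of_nonneg_left hi' hμ.le
    have i4 : 0 ≤ μ * (i : ℝ) := by positivity
    obtain ⟨⟨y1, y2⟩, y3, y4⟩ := hy'
    have g1 : y.1 ≤ P.1 - dl / 2 := by linarith [hn0.1.1, hn0.1.2]
    have g2 : P.2 + dl / 2 ≤ y.2 := by linarith [hn0.2.1, hn0.2.2]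
    have g3 : s * ((p1 - A - E : ℤ) : ℝ) + 5 / 8 * s ≤ y.1 := by
      push_cast
      linarith
    refine ⟨g1, g2, ?_, g3⟩
    push_cast at g3
    rw [dist_le2]
    refine ⟨⟨?_, ?_⟩, ?_, ?_⟩
    · linarith
    · linarith
    · linarith
    · linarith

/-- **a stub of the south type** -/
theorem south_end {K : ℕ} (hK : 32 ≤ K) {s μ : ℝ} (hs : 0 < s) (hμ : 0 < μ) (hKμ : 8 * (K * μ) = s) {P z : ℝ × ℝ}
    {a b e w dl a1 : ℝ} (hw : 0 ≤ w) (m1 : 16 * s ≤ dl) (m2 : 16 * s ≤ e) (m3 : 16 * s ≤ a - a1) (m4 : 16 * s ≤ b - a - e)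
    (z1 : -(e / 2) ≤ z.1 - P.1) (z2 : z.1 - P.1 ≤ e / 2) (z3 : z.2 ≤ P.2 - w - dl) (z5 : dist P z ≤ a1) {n0 : ℤ × ℤ}
    (h4 : ∃ q : ℤ, n0.1 = 4 * q + 2) (hn0 : dist z (nd μ n0) ≤ 3 * μ) : ∃ (ξ : ℤ) (i0 s0 : ℕ), i0 < K ∧ 1 ≤ s0 ∧
      (2 * ((cel s P).1 - ⌊a / s⌋ - ⌊e / s⌋) + 2 ≤ ξ ∧ ξ ≤ 2 * ((cel s P).1 + ⌊e / s⌋)) ∧
      (s0 : ℤ) ≤ 8 * (K * ⌊a / s⌋) ∧
      ART.ctr (fc K (ξ, 2 * ((cel s P).2 - ⌊a / s⌋) - 1) + (i0 : ℤ) • ((-1, 0) : ℤ × ℤ)) + (s0 : ℤ) • ((0, 1) : ℤ × ℤ) = n0 ∧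
      ∀ i : ℕ, i ≤ s0 → ∀ c, NC (ART.ctr (fc K (ξ, 2 * ((cel s P).2 - ⌊a / s⌋) - 1) + (i0 : ℤ) • ((-1, 0) : ℤ × ℤ)) +
        (i : ℤ) • ((0, 1) : ℤ × ℤ)) c → ∀ c', nr 1 c c' → ∀ y ∈ sq (4 * μ) c', y.1 ≤ P.1 + 3 / 4 * e ∧
          y.2 ≤ P.2 - w - dl / 2 ∧ dist P y ≤ b - 2 * s ∧ s * ((cel s P).1 - ⌊a / s⌋ - ⌊e / s⌋ : ℤ) + 5 / 8 * s ≤ y.1 := by
  have hK0 : 0 < K := by omega
  have hK' : (32 : ℝ) ≤ K := by exact_mod_cast hK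
  have hμs : 256 * μ ≤ s := by nlinarith
  obtain ⟨A, hA⟩ : ∃ A : ℤ, A = ⌊a / s⌋ := ⟨_, rfl⟩
  obtain ⟨E, hE⟩ : ∃ E : ℤ, E = ⌊e / s⌋ := ⟨_, rfl⟩
  obtain ⟨p1, hp1⟩ : ∃ p1 : ℤ, p1 = (cel s P).1 := ⟨_, rfl⟩
  obtain ⟨p2, hp2⟩ : ∃ p2 : ℤ, p2 = (cel s P).2 := ⟨_, rfl⟩
  have fA := fl_s hs a
  have fE := fl_s hs e
  have f1 := fl_s hs P.1
  have f2 := fl_s hs P.2
  have hp1' : ⌊P.1 / s⌋ = p1 := hp1.symm
  have hp2' : ⌊P.2 / s⌋ = p2 := hp2.symm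
  rw [hp1'] at f1
  rw [hp2'] at f2
  rw [← hA, ← hE, ← hp1, ← hp2]
  rw [← hA] at fA
  rw [← hE] at fE
  rw [dist_le2] at z5 hn0
  unfold nd at hn0
  simp only at hn0
  obtain ⟨k, hk⟩ : ∃ k : ℤ, k = ((K / 2 : ℕ) : ℤ) := ⟨_, rfl⟩
  have hk1 : 2 * k ≤ K ∧ (K : ℤ) ≤ 2 * k + 1 := by omega
  have hk1' : 2 * (k : ℝ) ≤ K := by exact_mod_cast hk1.1
  have hk2' : (K : ℝ) ≤ 2 * k + 1 := by exact_mod_cast hk1.2
  have k1 := mul_le_mul_of_nonneg_left hk1' hμ.le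
  have k2 := mul_le_mul_of_nonneg_left hk2' hμ.le
  have mK : μ * K = s / 8 := by linarith
  have pull : ∀ {x y : ℤ}, μ * (x : ℝ) < μ * (y : ℝ) → x < y := by
    intro x y h
    exact_mod_cast (mul_lt_mul_iff_right₀ hμ).1 h
  have hpos : 4 * (K * (2 * (p2 - A) - 1) + ((K / 2 : ℕ) : ℤ)) + 2 < n0.2 := by
    rw [← hk]
    refine pull ?_
    push_cast
    have e1 : μ * (4 * ((K : ℝ) * (2 * ((p2 : ℝ) - A) - 1) + k) + 2) = s * p2 - s * A - s / 2 + 4 * (μ * k) + 2 * μ := by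
      linear_combination (4 * (2 * ((p2 : ℝ) - A) - 1)) * mK
    rw [e1]
    linarith [hn0.2.1, hn0.2.2, z5.2.1, z5.2.2]
  obtain ⟨ξ, i0, s0, hi0, hs0, hctr⟩ := pick_south hK0 (2 * (p2 - A) - 1) h4 hpos
  refine ⟨ξ, i0, s0, hi0, hs0, ?_⟩
  have hctr' := hctr
  unfold fc ART.ctr at hctr'
  rw [← hk] at hctr'
  simp only [Prod.smul_mk, Prod.mk_add_mk, smul_eq_mul] at hctr'
  have c1 : ((4 * ((K : ℤ) * ξ + k + (i0 : ℤ) * -1) + 2 + (s0 : ℤ) * 0 : ℤ) : ℝ) = n0.1 := by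
    exact_mod_cast congrArg Prod.fst hctr'
  have c2 : ((4 * ((K : ℤ) * (2 * (p2 - A) - 1) + k + (i0 : ℤ) * 0) + 2 + (s0 : ℤ) * 1 : ℤ) : ℝ) = n0.2 := by
    exact_mod_cast congrArg Prod.snd hctr'
  push_cast at c1 c2
  have r1 : μ * n0.1 = s / 2 * ξ + 4 * (μ * k) - 4 * (μ * i0) + 2 * μ := by
    linear_combination -μ * c1 + (4 * (ξ : ℝ)) * mK
  have r2 : μ * n0.2 = s * p2 - s * A - s / 2 + 4 * (μ * k) + 2 * μ + μ * s0 := by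
    linear_combination -μ * c2 + (4 * (2 * ((p2 : ℝ) - A) - 1)) * mK
  have hi0' : (i0 : ℝ) + 1 ≤ K := by exact_mod_cast hi0
  have i1 := mul_le_mul_of_nonneg_left hi0' hμ.le
  have i2 : 0 ≤ μ * (i0 : ℝ) := by positivity
  have pulls : ∀ {x y : ℤ}, s / 2 * (x : ℝ) ≤ s / 2 * (y : ℝ) → x ≤ y := by
    intro x y h
    exact_mod_cast (mul_le_mul_iff_right₀ (by positivity : (0 : ℝ) < s / 2)).1 h
  have ha0 : 0 ≤ a1 := by linarith [z5.1.1, z5.1.2]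
  have hξ1 : 2 * (p1 - A - E) + 2 ≤ ξ := by
    refine pulls ?_
    push_cast
    linarith [hn0.1.1, hn0.1.2, hn0.2.1, hn0.2.2]
  have hξ1' : s * (p1 - A - E) + s ≤ s / 2 * ξ := by
    have h1 : ((2 * (p1 - A - E) + 2 : ℤ) : ℝ) ≤ ξ := by exact_mod_cast hξ1
    push_cast at h1
    have := mul_le_mul_of_nonneg_left h1 (by positivity : (0 : ℝ) ≤ s / 2)
    linarith
  refine ⟨⟨hξ1, ?_⟩, ?_, hctr, ?_⟩
  · refine pulls ?_
    push_cast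
    linarith [hn0.1.1, hn0.1.2, hn0.2.1, hn0.2.2]
  · have h1 : μ * (s0 : ℝ) ≤ μ * (8 * (K * A)) := by
      have e1 : μ * (8 * ((K : ℝ) * A)) = s * A := by linear_combination (8 * (A : ℝ)) * mK
      rw [e1]
      linarith [hn0.2.1, hn0.2.2]
    have h2 := (mul_le_mul_iff_right₀ hμ).1 h1
    exact_mod_cast h2
  · intro i hi c hc c' hc' y hy
    have hy' := stub_pt hμ hc hc' hy
    unfold fc ART.ctr at hy'
    rw [← hk] at hy'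
    simp only [Prod.smul_mk, Prod.mk_add_mk, smul_eq_mul] at hy'
    push_cast at hy'
    have q1 : μ * (4 * ((K : ℝ) * ξ + k + i0 * -1) + 2 + i * 0) = s / 2 * ξ + 4 * (μ * k) - 4 * (μ * i0) + 2 * μ := by
      linear_combination (4 * (ξ : ℝ)) * mK
    have q2 : μ * (4 * ((K : ℝ) * (2 * (p2 - A) - 1) + k + i0 * 0) + 2 + i * 1) =
        s * p2 - s * A - s / 2 + 4 * (μ * k) + 2 * μ + μ * i := by
      linear_combination (4 * (2 * ((p2 : ℝ) - A) - 1)) * mK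
    rw [q1, q2] at hy'
    have hi' : (i : ℝ) ≤ s0 := by exact_mod_cast hi
    have i3 := mul_le_mul_of_nonneg_left hi' hμ.le
    have i4 : 0 ≤ μ * (i : ℝ) := by positivity
    obtain ⟨⟨y1, y2⟩, y3, y4⟩ := hy'
    have g1 : y.1 ≤ P.1 + 3 / 4 * e := by linarith [hn0.1.1, hn0.1.2]
    have g2 : y.2 ≤ P.2 - w - dl / 2 := by linarith [hn0.2.1, hn0.2.2]
    have g3 : s * ((p1 - A - E : ℤ) : ℝ) + 5 / 8 * s ≤ y.1 := by
      push_cast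
      linarith
    refine ⟨g1, g2, ?_, g3⟩
    push_cast at g3
    rw [dist_le2]
    refine ⟨⟨?_, ?_⟩, ?_, ?_⟩
    · linarith
    · linarith
    · linarith
    · linarith

/-! ### the union of the cells -/

lemma nr_finite (d : ℤ) (x : ℤ × ℤ) : {y | nr d x y}.Finite := by
  refine (Set.finite_Icc ((x.1 - d, x.2 - d) : ℤ × ℤ) (x.1 + d, x.2 + d)).subset ?_
  intro y hy
  have h := nr_iff.1 hy
  rw [Set.mem_Icc, Prod.le_def, Prod.le_def]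
  simp only
  omega

lemma NC_finite (n : Pt) : {c | NC n c}.Finite := by
  refine (nr_finite 1 (n.1 / 4, n.2 / 4)).subset ?_
  rintro c ⟨m, h1, h2, rfl⟩
  rw [abs_le] at h1 h2
  show nr 1 _ _
  rw [nr_iff]
  simp only
  omega

lemma CC_finite (M : List (ℤ × ℤ)) (x0 x1 ω0 ω1 : ℤ × ℤ) (s s' : ℕ) : {c | CC M x0 x1 ω0 ω1 s s' c}.Finite := by
  have h1 : {c : ℤ × ℤ | c ∈ M}.Finite := List.finite_toSet M
  have h2 : ∀ (x ω : ℤ × ℤ) (s : ℕ), {c | ∃ i : ℕ, i ≤ s ∧ NC (ART.ctr x + (i : ℤ) • ω) c}.Finite := by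
    intro x ω s
    have : {c | ∃ i : ℕ, i ≤ s ∧ NC (ART.ctr x + (i : ℤ) • ω) c} =
        ⋃ i ∈ Set.Iic s, {c | NC (ART.ctr x + (i : ℤ) • ω) c} := by
      ext c
      simp
    rw [this]
    exact (Set.finite_Iic s).biUnion fun i _ => NC_finite _
  refine (h1.union ((h2 x0 ω0 s).union (h2 x1 ω1 s'))).subset ?_
  intro c hc
  exact hc

/-- the union of the closed cells near a companion -/
def KS (μ : ℝ) (M : List (ℤ × ℤ)) (x0 x1 ω0 ω1 : ℤ × ℤ) (s s' : ℕ) : Set (ℝ × ℝ) :=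
  {y | ∃ c, CC M x0 x1 ω0 ω1 s s' c ∧ ∃ c', nr 1 c c' ∧ y ∈ sq (4 * μ) c'}

lemma sq_closed (h : ℝ) (c : ℤ × ℤ) : IsClosed (sq h c) := isClosed_Icc.prod isClosed_Icc

lemma sq_compact (h : ℝ) (c : ℤ × ℤ) : IsCompact (sq h c) := isCompact_Icc.prod isCompact_Icc

lemma KS_eq (μ : ℝ) (M : List (ℤ × ℤ)) (x0 x1 ω0 ω1 : ℤ × ℤ) (s s' : ℕ) : KS μ M x0 x1 ω0 ω1 s s' =
    ⋃ c ∈ {c | CC M x0 x1 ω0 ω1 s s' c}, ⋃ c' ∈ {c' | nr 1 c c'}, sq (4 * μ) c' := by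
  ext y
  simp only [KS, mem_iUnion, Set.mem_ofPred_eq, exists_prop]

lemma KS_closed (μ : ℝ) (M : List (ℤ × ℤ)) (x0 x1 ω0 ω1 : ℤ × ℤ) (s s' : ℕ) : IsClosed (KS μ M x0 x1 ω0 ω1 s s') := by
  rw [KS_eq]
  exact (CC_finite M x0 x1 ω0 ω1 s s').isClosed_biUnion fun c _ => (nr_finite 1 c).isClosed_biUnion fun c' _ => sq_closed _ _

lemma KS_compact (μ : ℝ) (M : List (ℤ × ℤ)) (x0 x1 ω0 ω1 : ℤ × ℤ) (s s' : ℕ) : IsCompact (KS μ M x0 x1 ω0 ω1 s s') := by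
  rw [KS_eq]
  exact (CC_finite M x0 x1 ω0 ω1 s s').isCompact_biUnion fun c _ => (nr_finite 1 c).isCompact_biUnion fun c' _ => sq_compact _ _

end F3L

end ROT

end HexObs
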