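import Pool.Agent.ROT.F3Lst

/-!
# ROT / F3Ex (helper82): the exact identities (W) and (P) of ROT/F3_PLAN over abstract classes (rows F1, F2)

Words from even vertices (`F3Lst`), critical weight `wx w = fug ^ |w|`, all lengths free, sums in `ℝ≥0∞`.

* **`exW`** : walks `a ++ (R ++ b.reverse)` (tip piece `a`, rest `R`, tip piece `b` of the other end, read from the tip);
* **`exP`** : closed words `G6 = a.1 ++ (RA ++ (b.1.reverse ++ (b.2 ++ (RB.reverse ++ a.2.reverse))))` with the roots `0` and
  `q = en a.1 + en RA - en b.1`; `a = (pi_A, pi_B)` connection at `0`, `b = (pi'_A, pi'_B)` connection at `q`;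
  identity = `Cl_G6` (closed word iff displacements match and the two arcs are disjoint) + sums;
* `tsum_cut`, `tsum_cut3` : sums over words with marks = sums over the pieces (six pieces: `F3Cut`).
-/

set_option autoImplicit false

namespace Pool.Agent.ROT.F3

open Finset
open Pool.Agent.NTS.Res (step pos saw fug)
open scoped ENNReal Classical

/-- the critical weight -/
noncomputable def wx (w : W3) : ℝ≥0∞ := ENNReal.ofReal fug ^ w.length

lemma wx_append (u v : W3) : wx (u ++ v) = wx u * wx v := by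
  unfold wx
  rw [List.length_append, pow_add]

lemma wx_reverse (u : W3) : wx u.reverse = wx u := by
  unfold wx
  rw [List.length_reverse]

/-! ### sums over words with marks -/

/-- words with a mark = pairs of words -/
def cutE : (Σ w : W3, Fin (w.length + 1)) ≃ W3 × W3 where
  toFun p := (p.1.take p.2, p.1.drop p.2)
  invFun q := ⟨q.1 ++ q.2, ⟨q.1.length, by rw [List.length_append]; omega⟩⟩
  left_inv := by
    rintro ⟨w, k, hk⟩
    have h1 : w.take k ++ w.drop k = w := List.take_append_drop k w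
    have h2 : (w.take k).length = k := by rw [List.length_take]; omega
    refine Sigma.ext h1 ?_
    simp only
    have : ∀ (w' : W3) (h : w' = w) (k' : ℕ) (hk' : k' < w'.length + 1), k' = k →
        HEq (⟨k', hk'⟩ : Fin (w'.length + 1)) (⟨k, hk⟩ : Fin (w.length + 1)) := by
      intro w' h k' hk' he
      subst h
      subst he
      rfl
    exact this _ h1 _ _ h2
  right_inv := by
    rintro ⟨u, v⟩
    simp

lemma tsum_cut (Φ : W3 → ℕ → ℝ≥0∞) :
    ∑' w : W3, ∑ k ∈ range (w.length + 1), Φ w k = ∑' (u : W3) (v : W3), Φ (u ++ v) u.length := by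
  have h1 : ∀ w : W3, ∑ k ∈ range (w.length + 1), Φ w k = ∑' k : Fin (w.length + 1), Φ w k := fun w => by
    rw [tsum_fintype, Finset.sum_range]
  simp_rw [h1]
  rw [← ENNReal.tsum_sigma' (fun p : (Σ w : W3, Fin (w.length + 1)) => Φ p.1 p.2), ← ENNReal.tsum_prod (f := fun u v => Φ (u ++ v) u.length)]
  rw [← cutE.symm.tsum_eq]
  rfl

/-- three pieces -/
lemma tsum_cut3 (Φ : W3 → ℕ → ℕ → ℝ≥0∞) :
    ∑' w : W3, ∑ k ∈ range (w.length + 1), ∑ l ∈ range (w.length - k + 1), Φ w k (k + l) =
      ∑' (u : W3) (v : W3) (t : W3), Φ (u ++ (v ++ t)) u.length (u.length + v.length) := by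
  rw [tsum_cut fun w k => ∑ l ∈ range (w.length - k + 1), Φ w k (k + l)]
  refine tsum_congr fun u => ?_
  have h := tsum_cut fun w l => Φ (u ++ w) u.length (u.length + l)
  rw [← h]
  refine tsum_congr fun v => ?_
  rw [List.length_append, Nat.add_sub_cancel_left]

/-! ### walks -/

/-- **(W)** walks with two tip pieces: exact product -/
lemma SW_three {a R b : W3} (ha : Even a.length) (hR : Even R.length) (hb : Even b.length) :
    SW (a ++ (R ++ b.reverse)) ↔ SW a ∧ SW R ∧ SW b ∧ (∀ j k : ℕ, j < a.length → k ≤ R.length → ps a j ≠ en a + ps R k) ∧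
      (∀ j k : ℕ, j < b.length → k ≤ R.length → ps b j ≠ en b + ps R.reverse k) ∧
      ∀ j k : ℕ, j < a.length → k < b.length → ps a j ≠ en a + en R + (ps b k - en b) := by
  rw [SW_append ha, SW_append hR, SW_reverse hb]
  constructor
  · rintro ⟨h1, ⟨h2, h3, h4⟩, h5⟩
    refine ⟨h1, h2, h3, fun j k hj hk he => ?_, fun j k hj hk he => ?_, fun j k hj hk he => ?_⟩
    · exact h5 j k hj (by rw [List.length_append]; omega) (by rw [ps_append_left hk]; exact he)
    · rw [ps_reverse hR hk] at he
      rcases Nat.eq_zero_or_pos k with hk0 | hk0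
      · subst hk0
        have h6 := h3 j b.length hj.le le_rfl (by rw [he, Nat.sub_zero]; unfold en; ring)
        omega
      · refine h4 (R.length - k) (b.length - j) (by omega) (by rw [List.length_reverse]; omega) ?_
        rw [ps_reverse hb (by omega), Nat.sub_sub_self hj.le, he]
        ring
    · refine h5 j (R.length + (b.length - k)) hj (by rw [List.length_append, List.length_reverse]; omega) ?_
      rw [ps_append_right hR, ps_reverse hb (by omega), Nat.sub_sub_self hk.le, he]
      ring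
  · rintro ⟨h1, h2, h3, h4, h5, h6⟩
    refine ⟨h1, ⟨h2, h3, fun j k hj hk he => ?_⟩, fun j k hj hk he => ?_⟩
    · rw [List.length_reverse] at hk
      rw [ps_reverse hb hk] at he
      rcases Nat.eq_zero_or_pos k with hk0 | hk0
      · subst hk0
        have h7 := h2 j R.length hj.le le_rfl (by rw [he, Nat.sub_zero]; unfold en; ring)
        omega
      · refine h5 (b.length - k) (R.length - j) (by omega) (by omega) ?_
        rw [ps_reverse hR (by omega), Nat.sub_sub_self hj.le, he]
        ring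
    · rw [List.length_append, List.length_reverse] at hk
      rcases le_or_gt k R.length with hkR | hkR
      · rw [ps_append_left hkR] at he
        exact h4 j k hj hkR he
      · rw [ps_append_right' hR hkR.le, ps_reverse hb (by omega)] at he
        refine h6 j (b.length - (k - R.length)) hj (by omega) ?_
        rw [he]
        ring

/-! ### vertex sets -/

/-- the vertices `0 .. |u| - 1` of the word placed at `c` -/
def Vh (c : ℂ) (u : W3) : Set ℂ := {x | ∃ k : ℕ, k < u.length ∧ x = c + ps u k}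

/-- the vertices `1 .. |u|` of the word placed at `c` -/
def Vt (c : ℂ) (u : W3) : Set ℂ := {x | ∃ k : ℕ, 0 < k ∧ k ≤ u.length ∧ x = c + ps u k}

lemma Vh_append {u v : W3} (hu : Even u.length) (c : ℂ) : Vh c (u ++ v) = Vh c u ∪ Vh (c + en u) v := by
  ext x
  simp only [Vh, Set.mem_union, Set.mem_setOf_eq, List.length_append]
  constructor
  · rintro ⟨k, hk, rfl⟩
    rcases lt_or_ge k u.length with h | h
    · exact Or.inl ⟨k, h, by rw [ps_append_left h.le]⟩
    · exact Or.inr ⟨k - u.length, by omega, by rw [ps_append_right' hu h]; ring⟩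
  · rintro (⟨k, hk, rfl⟩ | ⟨k, hk, rfl⟩)
    · exact ⟨k, by omega, by rw [ps_append_left hk.le]⟩
    · exact ⟨u.length + k, by omega, by rw [ps_append_right hu]; ring⟩

lemma Vh_reverse {u : W3} (hu : Even u.length) (c : ℂ) : Vh c u.reverse = Vt (c - en u) u := by
  ext x
  simp only [Vh, Vt, Set.mem_setOf_eq, List.length_reverse]
  constructor
  · rintro ⟨k, hk, rfl⟩
    exact ⟨u.length - k, by omega, by omega, by rw [ps_reverse hu hk.le]; ring⟩
  · rintro ⟨k, hk, hk2, rfl⟩
    exact ⟨u.length - k, by omega, by rw [ps_reverse hu (by omega), Nat.sub_sub_self hk2]; ring⟩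

lemma HI_append_set {u v : W3} (hu : Even u.length) (c : ℂ) :
    HI (u ++ v) ↔ HI u ∧ HI v ∧ Disjoint (Vh c u) (Vh (c + en u) v) := by
  rw [HI_append hu]
  refine and_congr_right fun _ => and_congr_right fun _ => ?_
  rw [Set.disjoint_left]
  constructor
  · rintro h x ⟨j, hj, rfl⟩ ⟨k, hk, he⟩
    exact h j k hj hk (by
      have : c + ps u j = c + (en u + ps v k) := by rw [he]; ring
      exact add_left_cancel this)
  · intro h j k hj hk he
    exact h ⟨j, hj, rfl⟩ ⟨k, hk, by rw [he]; ring⟩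

/-! ### closed words -/

/-- the closed word: `a` = connection at the root 0, `b` = connection at the root `q`, `RA`, `RB` the two arcs -/
def G6 (a : W3 × W3) (RA : W3) (b : W3 × W3) (RB : W3) : W3 :=
  a.1 ++ (RA ++ (b.1.reverse ++ (b.2 ++ (RB.reverse ++ a.2.reverse))))

/-- connections: two tip pieces with the same root, disjoint -/
structure Cn (a : W3 × W3) : Prop where
  e1 : Even a.1.length
  e2 : Even a.2.length
  s1 : SW a.1
  s2 : SW a.2
  dj : ∀ j k : ℕ, j ≤ a.1.length → k ≤ a.2.length → ps a.1 j = ps a.2 k → j = 0 ∧ k = 0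

/-- the connection `a` is disjoint from the rest `R` placed at the end of `a.1` -/
structure Nr (a : W3 × W3) (R : W3) : Prop where
  n1 : ∀ j k : ℕ, j < a.1.length → k ≤ R.length → ps a.1 j ≠ en a.1 + ps R k
  n2 : ∀ j k : ℕ, j ≤ a.2.length → k ≤ R.length → ps a.2 j ≠ en a.1 + ps R k

/-- the connections `a` at 0 and `b` at `q` are disjoint -/
def Far (a : W3 × W3) (R : W3) (b : W3 × W3) : Prop :=
  ∀ u v : W3, (u = a.1 ∨ u = a.2) → (v = b.1 ∨ v = b.2) → ∀ j k : ℕ, j ≤ u.length → k ≤ v.length →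
    ps u j ≠ en a.1 + en R - en b.1 + ps v k

/-- the two arcs are disjoint; `z` = start of `RA` minus start of `RB` -/
def Dj (RA RB : W3) (z : ℂ) : Prop := ∀ j k : ℕ, j ≤ RA.length → k ≤ RB.length → ps RA j ≠ ps RB k - z

lemma Cn.swap {a : W3 × W3} (h : Cn a) : Cn a.swap :=
  ⟨h.e2, h.e1, h.s2, h.s1, fun j k hj hk he => (h.dj k j hk hj he.symm).symm⟩

lemma HI_reverse {u : W3} (hu : Even u.length) (h : SW u) : HI u.reverse := ((SW_reverse hu).2 h).hi

/-- **(P), the equivalence** -/
theorem Cl_G6 {a b : W3 × W3} {RA RB : W3} (ha : Cn a) (hb : Cn b) (hA : SW RA) (hB : SW RB) (eA : Even RA.length)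
    (eB : Even RB.length) (n1 : Nr a RA) (n2 : Nr a.swap RB) (n3 : Nr b RA.reverse) (n4 : Nr b.swap RB.reverse)
    (hf : Far a RA b) : Cl (G6 a RA b RB) ↔ en b.1 - en b.2 = en a.1 - en a.2 + en RA - en RB ∧ Dj RA RB (en a.1 - en a.2) := by
  have e1 := ha.e1
  have e2 := ha.e2
  have e3 := hb.e1
  have e4 := hb.e2
  have er3 : Even b.1.reverse.length := by rw [List.length_reverse]; exact e3
  have er5 : Even RB.reverse.length := by rw [List.length_reverse]; exact eB
  have hlen : Even (G6 a RA b RB).length := by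
    simp only [G6, List.length_append, List.length_reverse]
    exact e1.add (eA.add (e3.add (e4.add (eB.add e2))))
  have hen : en (G6 a RA b RB) = en a.1 + en RA - en b.1 + en b.2 - en RB - en a.2 := by
    rw [G6, en_append e1, en_append eA, en_append er3, en_append e4, en_append er5, en_reverse e3, en_reverse eB, en_reverse e2]
    ring
  have hdis : en (G6 a RA b RB) = 0 ↔ en b.1 - en b.2 = en a.1 - en a.2 + en RA - en RB := by
    rw [hen]
    constructor
    · intro h
      linear_combination -h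
    · intro h
      linear_combination -h
  have hHI : en (G6 a RA b RB) = 0 → (HI (G6 a RA b RB) ↔ HI a.1 ∧ (HI RA ∧ (HI b.1.reverse ∧ (HI b.2 ∧ (HI RB.reverse ∧
      HI a.2.reverse ∧ Disjoint (Vt (en a.2) RB) (Vt 0 a.2)) ∧
      Disjoint (Vh (en a.1 + en RA - en b.1) b.2) (Vt (en a.2) RB ∪ Vt 0 a.2)) ∧
      Disjoint (Vt (en a.1 + en RA - en b.1) b.1) (Vh (en a.1 + en RA - en b.1) b.2 ∪ (Vt (en a.2) RB ∪ Vt 0 a.2))) ∧
      Disjoint (Vh (en a.1) RA) (Vt (en a.1 + en RA - en b.1) b.1 ∪ (Vh (en a.1 + en RA - en b.1) b.2 ∪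
        (Vt (en a.2) RB ∪ Vt 0 a.2)))) ∧
      Disjoint (Vh 0 a.1) (Vh (en a.1) RA ∪ (Vt (en a.1 + en RA - en b.1) b.1 ∪ (Vh (en a.1 + en RA - en b.1) b.2 ∪
        (Vt (en a.2) RB ∪ Vt 0 a.2))))) := by
    intro h0
    rw [hen] at h0
    have p1 : en a.1 + en RA + en b.1.reverse = en a.1 + en RA - en b.1 := by rw [en_reverse e3]; ring
    have p2 : en a.1 + en RA - en b.1 + en b.2 - en RB = en a.2 := by linear_combination h0
    have p3 : en a.1 + en RA - en b.1 + en b.2 + en RB.reverse - en a.2 = 0 := by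
      rw [en_reverse eB]
      linear_combination h0
    rw [G6, HI_append_set e1 0, HI_append_set eA (0 + en a.1), HI_append_set er3 (0 + en a.1 + en RA),
      HI_append_set e4 (0 + en a.1 + en RA + en b.1.reverse), HI_append_set er5 (0 + en a.1 + en RA + en b.1.reverse + en b.2)]
    simp only [Vh_append eA, Vh_append er3, Vh_append e4, Vh_append er5, zero_add]
    rw [p1, Vh_reverse e3, Vh_reverse eB, Vh_reverse e2, p2, p3]
  rw [Cl, ← HI, hdis]
  constructor
  · rintro ⟨-, h0, h⟩
    refine ⟨h0, ?_⟩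
    have h1 := (hHI (hdis.2 h0)).1 h
    obtain ⟨-, ⟨-, -, h2⟩, -⟩ := h1
    rw [Set.disjoint_union_right, Set.disjoint_union_right, Set.disjoint_union_right] at h2
    have h3 := h2.2.2.1
    rw [Set.disjoint_left] at h3
    intro j k hj hk he
    rcases Nat.eq_zero_or_pos k with hk0 | hk0
    · subst hk0
      rw [ps_zero] at he
      refine n1.n2 a.2.length j le_rfl hj ?_
      have he2 : ps a.2 a.2.length = en a.2 := rfl
      rw [he2, he]
      ring
    · rcases hj.lt_or_eq with hj | hj
      · exact h3 ⟨j, hj, rfl⟩ ⟨k, hk0, hk, by rw [he]; ring⟩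
      · subst hj
        have h4 := n4.n2 b.1.length (RB.length - k) le_rfl (by rw [List.length_reverse]; omega)
        refine h4 ?_
        rw [ps_reverse eB (by omega), Nat.sub_sub_self hk]
        have he' : en RA = ps RB k - (en a.1 - en a.2) := he
        have he2 : ps b.1 b.1.length = en b.1 := rfl
        simp only [Prod.fst_swap, Prod.snd_swap]
        rw [he2]
        linear_combination h0 + he'
  · rintro ⟨h0, hD⟩
    refine ⟨hlen, h0, (hHI (hdis.2 h0)).2 ⟨ha.s1.hi, ⟨hA.hi, ⟨HI_reverse e3 hb.s1, ⟨hb.s2.hi, ⟨HI_reverse eB hB,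
      HI_reverse e2 ha.s2, ?_⟩, ?_⟩, ?_⟩, ?_⟩, ?_⟩⟩
    · -- (5, 6)
      rw [Set.disjoint_left]
      rintro x ⟨j, hj, hj2, rfl⟩ ⟨k, hk, hk2, he⟩
      rcases hk2.lt_or_eq with hk3 | hk3
      · exact n2.n1 k j hk3 hj2 (by simp only [Prod.fst_swap, Prod.snd_swap]; linear_combination -he)
      · subst hk3
        have : ps RB j = ps RB 0 := by
          rw [ps_zero]
          have he' : en a.2 + ps RB j = 0 + en a.2 := he
          linear_combination he'
        have := hB j 0 hj2 (Nat.zero_le _) this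
        omega
    · -- (4, 5), (4, 6)
      rw [Set.disjoint_union_right, Set.disjoint_left, Set.disjoint_left]
      constructor
      · rintro x ⟨j, hj, rfl⟩ ⟨k, hk, hk2, he⟩
        refine n4.n1 j (RB.length - k) hj (by rw [List.length_reverse]; omega) ?_
        rw [ps_reverse eB (by omega), Nat.sub_sub_self hk2]
        simp only [Prod.fst_swap, Prod.snd_swap]
        linear_combination he + h0
      · rintro x ⟨j, hj, rfl⟩ ⟨k, hk, hk2, he⟩
        exact hf a.2 b.2 (Or.inr rfl) (Or.inr rfl) k j hk2 hj.le (by linear_combination -he)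
    · -- (3, ..)
      rw [Set.disjoint_union_right, Set.disjoint_union_right, Set.disjoint_left, Set.disjoint_left, Set.disjoint_left]
      refine ⟨?_, ?_, ?_⟩
      · rintro x ⟨j, hj, hj2, rfl⟩ ⟨k, hk, he⟩
        have := hb.dj j k hj2 hk.le (add_left_cancel he)
        omega
      · rintro x ⟨j, hj, hj2, rfl⟩ ⟨k, hk, hk2, he⟩
        refine n4.n2 j (RB.length - k) hj2 (by rw [List.length_reverse]; omega) ?_
        rw [ps_reverse eB (by omega), Nat.sub_sub_self hk2]
        simp only [Prod.fst_swap, Prod.snd_swap]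
        linear_combination he + h0
      · rintro x ⟨j, hj, hj2, rfl⟩ ⟨k, hk, hk2, he⟩
        exact hf a.2 b.1 (Or.inr rfl) (Or.inl rfl) k j hk2 hj2 (by linear_combination -he)
    · -- (2, ..)
      rw [Set.disjoint_union_right, Set.disjoint_union_right, Set.disjoint_union_right, Set.disjoint_left, Set.disjoint_left,
        Set.disjoint_left, Set.disjoint_left]
      refine ⟨?_, ?_, ?_, ?_⟩
      · rintro x ⟨j, hj, rfl⟩ ⟨k, hk, hk2, he⟩
        rcases hk2.lt_or_eq with hk3 | hk3
        · refine n3.n1 k (RA.length - j) hk3 (by rw [List.length_reverse]; omega) ?_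
          rw [ps_reverse eA (by omega), Nat.sub_sub_self hj.le]
          linear_combination -he
        · subst hk3
          have : ps RA j = ps RA RA.length := by
            have he' : en a.1 + ps RA j = en a.1 + en RA - en b.1 + en b.1 := he
            have he2 : ps RA RA.length = en RA := rfl
            rw [he2]
            linear_combination he'
          have := hA j RA.length hj.le le_rfl this
          omega
      · rintro x ⟨j, hj, rfl⟩ ⟨k, hk, he⟩
        refine n3.n2 k (RA.length - j) hk.le (by rw [List.length_reverse]; omega) ?_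
        rw [ps_reverse eA (by omega), Nat.sub_sub_self hj.le]
        linear_combination -he
      · rintro x ⟨j, hj, rfl⟩ ⟨k, hk, hk2, he⟩
        exact hD j k hj.le hk2 (by linear_combination he)
      · rintro x ⟨j, hj, rfl⟩ ⟨k, hk, hk2, he⟩
        exact n1.n2 k j hk2 hj.le (by linear_combination -he)
    · -- (1, ..)
      rw [Set.disjoint_union_right, Set.disjoint_union_right, Set.disjoint_union_right, Set.disjoint_union_right,
        Set.disjoint_left, Set.disjoint_left, Set.disjoint_left, Set.disjoint_left, Set.disjoint_left]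
      refine ⟨?_, ?_, ?_, ?_, ?_⟩
      · rintro x ⟨j, hj, rfl⟩ ⟨k, hk, he⟩
        exact n1.n1 j k hj hk.le (by linear_combination he)
      · rintro x ⟨j, hj, rfl⟩ ⟨k, hk, hk2, he⟩
        exact hf a.1 b.1 (Or.inl rfl) (Or.inl rfl) j k hj.le hk2 (by linear_combination he)
      · rintro x ⟨j, hj, rfl⟩ ⟨k, hk, he⟩
        exact hf a.1 b.2 (Or.inl rfl) (Or.inr rfl) j k hj.le hk.le (by linear_combination he)
      · rintro x ⟨j, hj, rfl⟩ ⟨k, hk, hk2, he⟩
        exact n2.n2 j k hj.le hk2 (by simp only [Prod.fst_swap, Prod.snd_swap]; linear_combination he)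
      · rintro x ⟨j, hj, rfl⟩ ⟨k, hk, hk2, he⟩
        have := ha.dj j k hj.le hk2 (by linear_combination he)
        omega

/-! ### the sums -/

/-- mass of a class with a weight -/
noncomputable def ms (T : Set W3) (f : W3 → ℝ≥0∞) : ℝ≥0∞ := ∑' a : W3, if a ∈ T then wx a * f a else 0

/-- the list reversal -/
def rvE : W3 ≃ W3 := ⟨List.reverse, List.reverse, List.reverse_reverse, List.reverse_reverse⟩

/-- **(W)** exact product for the walks: `T` tip pieces, `Rs` rests, `T'` tip pieces at the other end (read from the tip) -/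
theorem exW {T Rs T' : Set W3} (hT : ∀ a ∈ T, Even a.length ∧ SW a) (hR : ∀ R ∈ Rs, Even R.length ∧ SW R)
    (hT' : ∀ b ∈ T', Even b.length ∧ SW b)
    (d1 : ∀ a ∈ T, ∀ R ∈ Rs, ∀ j k : ℕ, j < a.length → k ≤ R.length → ps a j ≠ en a + ps R k)
    (d2 : ∀ b ∈ T', ∀ R ∈ Rs, ∀ j k : ℕ, j < b.length → k ≤ R.length → ps b j ≠ en b + ps R.reverse k)
    (d3 : ∀ a ∈ T, ∀ R ∈ Rs, ∀ b ∈ T', ∀ j k : ℕ, j < a.length → k < b.length → ps a j ≠ en a + en R + (ps b k - en b))
    (f F f' : W3 → ℝ≥0∞) :
    ∑' w : W3, ∑ k ∈ range (w.length + 1), ∑ l ∈ range (w.length - k + 1),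
      (if SW w ∧ w.take k ∈ T ∧ (w.drop k).take l ∈ Rs ∧ (w.drop (k + l)).reverse ∈ T' then
        wx w * (f (w.take k) * (F ((w.drop k).take l) * f' (w.drop (k + l)).reverse)) else 0) =
      ms T f * (ms Rs F * ms T' f') := by
  have h1 := tsum_cut3 fun w k m => if SW w ∧ w.take k ∈ T ∧ (w.drop k).take (m - k) ∈ Rs ∧ (w.drop m).reverse ∈ T' then
    wx w * (f (w.take k) * (F ((w.drop k).take (m - k)) * f' (w.drop m).reverse)) else 0
  simp only [Nat.add_sub_cancel_left] at h1
  rw [h1]
  unfold ms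
  rw [← ENNReal.tsum_mul_right]
  refine tsum_congr fun u => ?_
  rw [← ENNReal.tsum_mul_right, ← ENNReal.tsum_mul_left]
  refine tsum_congr fun v => ?_
  rw [← ENNReal.tsum_mul_left, ← ENNReal.tsum_mul_left, ← rvE.tsum_eq]
  refine tsum_congr fun t => ?_
  have e1 : (u ++ (v ++ rvE t)).take u.length = u := by simp
  have e2 : ((u ++ (v ++ rvE t)).drop u.length).take v.length = v := by simp
  have e3 : ((u ++ (v ++ rvE t)).drop (u.length + v.length)).reverse = t := by
    rw [← List.append_assoc, show u.length + v.length = (u ++ v).length by rw [List.length_append], List.drop_left]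
    exact List.reverse_reverse t
  rw [e1, e2, e3]
  by_cases hu : u ∈ T
  · by_cases hv : v ∈ Rs
    · by_cases ht : t ∈ T'
      · have hs : SW (u ++ (v ++ rvE t)) := (SW_three (hT u hu).1 (hR v hv).1 (hT' t ht).1).2 ⟨(hT u hu).2, (hR v hv).2,
          (hT' t ht).2, d1 u hu v hv, d2 t ht v hv, d3 u hu v hv t ht⟩
        rw [if_pos ⟨hs, hu, hv, ht⟩, if_pos hu, if_pos hv, if_pos ht, wx_append, wx_append]
        have : wx (rvE t) = wx t := wx_reverse t
        rw [this]
        ring
      · rw [if_neg fun h => ht h.2.2.2, if_neg ht]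
        simp
    · rw [if_neg fun h => hv h.2.2.1, if_neg hv]
      simp
  · rw [if_neg fun h => hu h.2.1, if_neg hu]
    simp

/-- **the weight of the connections** with `z` = end of `a.1` minus end of `a.2` -/
noncomputable def gam (C : Set (W3 × W3)) (e : W3 × W3 → ℝ≥0∞) (z : ℂ) : ℝ≥0∞ :=
  ∑' a : W3 × W3, if a ∈ C ∧ en a.1 - en a.2 = z then wx a.1 * wx a.2 * e a else 0

lemma wx_G6 (a b : W3 × W3) (RA RB : W3) :
    wx (G6 a RA b RB) = wx a.1 * wx a.2 * (wx b.1 * wx b.2) * (wx RA * wx RB) := by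
  unfold G6
  rw [wx_append, wx_append, wx_append, wx_append, wx_append, wx_reverse, wx_reverse, wx_reverse]
  ring

/-- the hypotheses on the classes: connections `C` at the first root, `C'` at the second root, rests `RA`, `RB` -/
structure Hyp (C C' : Set (W3 × W3)) (RA RB : Set W3) : Prop where
  cn : ∀ a ∈ C, Cn a
  cn' : ∀ b ∈ C', Cn b
  rA : ∀ R ∈ RA, Even R.length ∧ SW R
  rB : ∀ R ∈ RB, Even R.length ∧ SW R
  n1 : ∀ a ∈ C, ∀ R ∈ RA, Nr a R
  n2 : ∀ a ∈ C, ∀ R ∈ RB, Nr a.swap R
  n3 : ∀ b ∈ C', ∀ R ∈ RA, Nr b R.reverse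
  n4 : ∀ b ∈ C', ∀ R ∈ RB, Nr b.swap R.reverse
  far : ∀ a ∈ C, ∀ R ∈ RA, ∀ b ∈ C', Far a R b

/-- **(P)** the exact identity for the closed words with two roots -/
theorem exP {C C' : Set (W3 × W3)} {RA RB : Set W3} (H : Hyp C C' RA RB) (e e' : W3 × W3 → ℝ≥0∞) (F G : W3 → ℝ≥0∞) :
    ∑' (a : W3 × W3) (R : W3) (b : W3 × W3) (S : W3), (if a ∈ C ∧ R ∈ RA ∧ b ∈ C' ∧ S ∈ RB ∧ Cl (G6 a R b S) then
      wx (G6 a R b S) * (e a * e' b * (F R * G S)) else 0) =
    ∑' (R : W3) (S : W3), if R ∈ RA ∧ S ∈ RB then wx R * F R * (wx S * G S) *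
      ∑' z : ℂ, (if Dj R S z then gam C e z * gam C' e' (z + en R - en S) else 0) else 0 := by
  have h1 : ∀ (a : W3 × W3) (R : W3) (b : W3 × W3) (S : W3),
      (if a ∈ C ∧ R ∈ RA ∧ b ∈ C' ∧ S ∈ RB ∧ Cl (G6 a R b S) then wx (G6 a R b S) * (e a * e' b * (F R * G S)) else 0) =
      (if R ∈ RA ∧ S ∈ RB then wx R * F R * (wx S * G S) *
        ((if a ∈ C ∧ Dj R S (en a.1 - en a.2) then wx a.1 * wx a.2 * e a else 0) *
          (if b ∈ C' ∧ en b.1 - en b.2 = en a.1 - en a.2 + en R - en S then wx b.1 * wx b.2 * e' b else 0)) else 0) := by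
    intro a R b S
    by_cases hR : R ∈ RA ∧ S ∈ RB
    · rw [if_pos hR]
      by_cases ha : a ∈ C
      · by_cases hb : b ∈ C'
        · have hk := Cl_G6 (H.cn a ha) (H.cn' b hb) (H.rA R hR.1).2 (H.rB S hR.2).2 (H.rA R hR.1).1 (H.rB S hR.2).1
            (H.n1 a ha R hR.1) (H.n2 a ha S hR.2) (H.n3 b hb R hR.1) (H.n4 b hb S hR.2) (H.far a ha R hR.1 b hb)
          by_cases hc : Cl (G6 a R b S)
          · obtain ⟨h2, h3⟩ := hk.1 hc
            rw [if_pos ⟨ha, hR.1, hb, hR.2, hc⟩, if_pos ⟨ha, h3⟩, if_pos ⟨hb, h2⟩, wx_G6]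
            ring
          · rw [if_neg fun h => hc h.2.2.2.2]
            by_cases h3 : Dj R S (en a.1 - en a.2)
            · rw [if_neg (c := b ∈ C' ∧ _) fun h => hc (hk.2 ⟨h.2, h3⟩), mul_zero, mul_zero]
            · rw [if_neg (c := a ∈ C ∧ _) fun h => h3 h.2, zero_mul, mul_zero]
        · rw [if_neg fun h => hb h.2.2.1, if_neg (c := b ∈ C' ∧ _) fun h => hb h.1, mul_zero, mul_zero]
      · rw [if_neg fun h => ha h.1, if_neg (c := a ∈ C ∧ _) fun h => ha h.1, zero_mul, mul_zero]
    · rw [if_neg hR, if_neg fun h => hR ⟨h.2.1, h.2.2.2.1⟩]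
  simp_rw [h1]
  -- put the sums over `R`, `S` outside
  rw [ENNReal.tsum_comm]
  refine tsum_congr fun R => ?_
  have h2 : ∀ a : W3 × W3, ∑' (b : W3 × W3) (S : W3), (if R ∈ RA ∧ S ∈ RB then wx R * F R * (wx S * G S) *
        ((if a ∈ C ∧ Dj R S (en a.1 - en a.2) then wx a.1 * wx a.2 * e a else 0) *
          (if b ∈ C' ∧ en b.1 - en b.2 = en a.1 - en a.2 + en R - en S then wx b.1 * wx b.2 * e' b else 0)) else 0) =
      ∑' (S : W3) (b : W3 × W3), (if R ∈ RA ∧ S ∈ RB then wx R * F R * (wx S * G S) *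
        ((if a ∈ C ∧ Dj R S (en a.1 - en a.2) then wx a.1 * wx a.2 * e a else 0) *
          (if b ∈ C' ∧ en b.1 - en b.2 = en a.1 - en a.2 + en R - en S then wx b.1 * wx b.2 * e' b else 0)) else 0) :=
    fun a => ENNReal.tsum_comm
  simp_rw [h2]
  rw [ENNReal.tsum_comm]
  refine tsum_congr fun S => ?_
  by_cases hR : R ∈ RA ∧ S ∈ RB
  · simp_rw [if_pos hR, ENNReal.tsum_mul_left]
    congr 1
    have h3 : ∀ a : W3 × W3, (∑' b : W3 × W3, if b ∈ C' ∧ en b.1 - en b.2 = en a.1 - en a.2 + en R - en S then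
        wx b.1 * wx b.2 * e' b else 0) = gam C' e' (en a.1 - en a.2 + en R - en S) := fun a => rfl
    simp_rw [h3]
    -- the sum over `z`
    have h4 : ∀ z : ℂ, (if Dj R S z then gam C e z * gam C' e' (z + en R - en S) else 0) =
        ∑' a : W3 × W3, if en a.1 - en a.2 = z then (if a ∈ C ∧ Dj R S (en a.1 - en a.2) then wx a.1 * wx a.2 * e a else 0) *
          gam C' e' (en a.1 - en a.2 + en R - en S) else 0 := by
      intro z
      by_cases hz : Dj R S z
      · rw [if_pos hz]
        unfold gam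
        rw [← ENNReal.tsum_mul_right]
        refine tsum_congr fun a => ?_
        by_cases ha : en a.1 - en a.2 = z
        · rw [if_pos ha, ha]
          by_cases hc : a ∈ C
          · rw [if_pos ⟨hc, rfl⟩, if_pos ⟨hc, hz⟩]
          · rw [if_neg fun h => hc h.1, if_neg (c := a ∈ C ∧ Dj R S z) fun h => hc h.1]
        · rw [if_neg ha, if_neg fun h => ha h.2, zero_mul]
      · rw [if_neg hz]
        symm
        rw [ENNReal.tsum_eq_zero]
        intro a
        by_cases ha : en a.1 - en a.2 = z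
        · rw [if_pos ha, ha, if_neg (c := a ∈ C ∧ Dj R S z) fun h => hz h.2, zero_mul]
        · rw [if_neg ha]
    simp_rw [h4]
    rw [ENNReal.tsum_comm]
    refine tsum_congr fun a => ?_
    rw [tsum_eq_single (en a.1 - en a.2) (fun z hz => if_neg (Ne.symm hz)), if_pos rfl]
  · simp_rw [if_neg hR]
    simp

end Pool.Agent.ROT.F3
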