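import Pool.Agent.ROT.F3Cut

/-!
# ROT / F3ExO (helper22): route L, the exact identity for OPEN words with a near gap at p

`X = G6 a R b S` self-avoiding; `a` = (tip piece of the first arc, tip piece of the second arc) at p, `b` = connection with the
root q at q.  `z` = (cut of the first arc) - (cut of the second arc) at p = `en b.1 - en b.2 - en R + en S`; the end of `X`
(the gap) is `en a.1 - en a.2 - z`.

* `SW_G6` : `X` is self-avoiding iff the tip pieces are disjoint (`TD a z`) and the arcs are disjoint (`Dj R S z`);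
* **`exPo`** : the sum over `X` = the sum over the arcs and `z` of `gr C e z * gam C' e' (z + en R - en S)`;
* **`exPom`** : the same with marks.
-/

set_option autoImplicit false

namespace Pool.Agent.ROT.F3

open Finset
open Pool.Agent.NTS.Res (step pos saw fug)
open scoped ENNReal Classical

/-- all the vertices of the word placed at `c` -/
def Va (c : ℂ) (u : W3) : Set ℂ := {x | ∃ k : ℕ, k ≤ u.length ∧ x = c + ps u k}

lemma Va_append {u v : W3} (hu : Even u.length) (c : ℂ) : Va c (u ++ v) = Vh c u ∪ Va (c + en u) v := by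
  ext x
  simp only [Va, Vh, Set.mem_union, Set.mem_setOf_eq, List.length_append]
  constructor
  · rintro ⟨k, hk, rfl⟩
    rcases lt_or_ge k u.length with h | h
    · exact Or.inl ⟨k, h, by rw [ps_append_left h.le]⟩
    · exact Or.inr ⟨k - u.length, by omega, by rw [ps_append_right' hu h]; ring⟩
  · rintro (⟨k, hk, rfl⟩ | ⟨k, hk, rfl⟩)
    · exact ⟨k, by omega, by rw [ps_append_left hk.le]⟩
    · exact ⟨u.length + k, by omega, by rw [ps_append_right hu]; ring⟩

lemma Va_reverse {u : W3} (hu : Even u.length) (c : ℂ) : Va c u.reverse = Va (c - en u) u := by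
  ext x
  simp only [Va, Set.mem_setOf_eq, List.length_reverse]
  constructor
  · rintro ⟨k, hk, rfl⟩
    exact ⟨u.length - k, by omega, by rw [ps_reverse hu hk]; ring⟩
  · rintro ⟨k, hk, rfl⟩
    exact ⟨u.length - k, by omega, by rw [ps_reverse hu (by omega), Nat.sub_sub_self hk]; ring⟩

lemma SW_append_set {u v : W3} (hu : Even u.length) (c : ℂ) :
    SW (u ++ v) ↔ SW u ∧ SW v ∧ Disjoint (Vh c u) (Va (c + en u) v) := by
  rw [SW_append hu]
  refine and_congr_right fun _ => and_congr_right fun _ => ?_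
  rw [Set.disjoint_left]
  constructor
  · rintro h x ⟨j, hj, rfl⟩ ⟨k, hk, he⟩
    exact h j k hj hk (by
      have : c + ps u j = c + (en u + ps v k) := by rw [he]; ring
      exact add_left_cancel this)
  · intro h j k hj hk he
    exact h ⟨j, hj, rfl⟩ ⟨k, hk, by rw [he]; ring⟩

/-! ### the equivalence -/

/-- the tip pieces are disjoint, `z` = end of `a.1` minus end of `a.2` -/
def TD (a : W3 × W3) (z : ℂ) : Prop := ∀ j k : ℕ, j ≤ a.1.length → k ≤ a.2.length →
  ps a.1 j ≠ en a.1 - en a.2 - z + ps a.2 k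

/-- the two pieces of a pair -/
structure TpO (a : W3 × W3) : Prop where
  e1 : Even a.1.length
  e2 : Even a.2.length
  s1 : SW a.1
  s2 : SW a.2

/-- the tip pieces are disjoint from the first arc -/
structure Na (a : W3 × W3) (z : ℂ) (R : W3) : Prop where
  n1 : ∀ j k : ℕ, j < a.1.length → k ≤ R.length → ps a.1 j ≠ en a.1 + ps R k
  n2 : ∀ j k : ℕ, j ≤ a.2.length → k ≤ R.length → ps a.2 j - en a.2 - z ≠ ps R k

/-- the tip pieces are disjoint from the second arc -/
structure Nb (a : W3 × W3) (z : ℂ) (S : W3) : Prop where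
  n1 : ∀ j k : ℕ, j ≤ a.1.length → k ≤ S.length → ps a.1 j - en a.1 + z ≠ ps S k
  n2 : ∀ j k : ℕ, j < a.2.length → k ≤ S.length → ps a.2 j ≠ en a.2 + ps S k

/-- the tip pieces at p and the connection at q are disjoint -/
structure Fo (a : W3 × W3) (z : ℂ) (R : W3) (b : W3 × W3) : Prop where
  f1 : ∀ v : W3, (v = b.1 ∨ v = b.2) → ∀ j k : ℕ, j ≤ a.1.length → k ≤ v.length →
    ps a.1 j ≠ en a.1 + en R - en b.1 + ps v k
  f2 : ∀ v : W3, (v = b.1 ∨ v = b.2) → ∀ j k : ℕ, j ≤ a.2.length → k ≤ v.length →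
    en a.1 - en a.2 - z + ps a.2 j ≠ en a.1 + en R - en b.1 + ps v k

/-- the relative position of the cuts at p -/
noncomputable def zz (R : W3) (b : W3 × W3) (S : W3) : ℂ := en b.1 - en b.2 - en R + en S

lemma en_G6 {a b : W3 × W3} {RA RB : W3} (ha : TpO a) (hb : TpO b) (eA : Even RA.length) (eB : Even RB.length) :
    en (G6 a RA b RB) = en a.1 - en a.2 - zz RA b RB := by
  have er3 : Even b.1.reverse.length := by rw [List.length_reverse]; exact hb.e1
  have er5 : Even RB.reverse.length := by rw [List.length_reverse]; exact eB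
  rw [G6, en_append ha.e1, en_append eA, en_append er3, en_append hb.e2, en_append er5, en_reverse hb.e1, en_reverse eB,
    en_reverse ha.e2, zz]
  ring

lemma Cn.tpO {b : W3 × W3} (h : Cn b) : TpO b := ⟨h.e1, h.e2, h.s1, h.s2⟩

/-- **the equivalence for the open word** -/
theorem SW_G6 {a b : W3 × W3} {RA RB : W3} (ha : TpO a) (hb : Cn b) (hA : SW RA) (hB : SW RB) (eA : Even RA.length)
    (eB : Even RB.length) (n1 : Na a (zz RA b RB) RA) (n2 : Nb a (zz RA b RB) RB) (n3 : Nr b RA.reverse)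
    (n4 : Nr b.swap RB.reverse) (hf : Fo a (zz RA b RB) RA b) :
    SW (G6 a RA b RB) ↔ TD a (zz RA b RB) ∧ Dj RA RB (zz RA b RB) := by
  obtain ⟨z, hz⟩ : ∃ z, z = zz RA b RB := ⟨_, rfl⟩
  rw [← hz] at n1 n2 hf ⊢
  unfold zz at hz
  have e1 := ha.e1
  have e2 := ha.e2
  have e3 := hb.e1
  have e4 := hb.e2
  have er3 : Even b.1.reverse.length := by rw [List.length_reverse]; exact e3
  have er5 : Even RB.reverse.length := by rw [List.length_reverse]; exact eB
  have hSW : (SW (G6 a RA b RB) ↔ SW a.1 ∧ (SW RA ∧ (SW b.1.reverse ∧ (SW b.2 ∧ (SW RB.reverse ∧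
      SW a.2.reverse ∧ Disjoint (Vt (en a.1 - z) RB) (Va (en a.1 - en a.2 - z) a.2)) ∧
      Disjoint (Vh (en a.1 + en RA - en b.1) b.2) (Vt (en a.1 - z) RB ∪ Va (en a.1 - en a.2 - z) a.2)) ∧
      Disjoint (Vt (en a.1 + en RA - en b.1) b.1) (Vh (en a.1 + en RA - en b.1) b.2 ∪
        (Vt (en a.1 - z) RB ∪ Va (en a.1 - en a.2 - z) a.2))) ∧
      Disjoint (Vh (en a.1) RA) (Vt (en a.1 + en RA - en b.1) b.1 ∪ (Vh (en a.1 + en RA - en b.1) b.2 ∪
        (Vt (en a.1 - z) RB ∪ Va (en a.1 - en a.2 - z) a.2)))) ∧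
      Disjoint (Vh 0 a.1) (Vh (en a.1) RA ∪ (Vt (en a.1 + en RA - en b.1) b.1 ∪ (Vh (en a.1 + en RA - en b.1) b.2 ∪
        (Vt (en a.1 - z) RB ∪ Va (en a.1 - en a.2 - z) a.2))))) := by
    have p1 : en a.1 + en RA + en b.1.reverse = en a.1 + en RA - en b.1 := by rw [en_reverse e3]; ring
    have p2 : en a.1 + en RA - en b.1 + en b.2 - en RB = en a.1 - z := by rw [hz]; ring
    have p3 : en a.1 + en RA - en b.1 + en b.2 + en RB.reverse - en a.2 = en a.1 - en a.2 - z := by
      rw [en_reverse eB, hz]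
      ring
    rw [G6, SW_append_set e1 0, SW_append_set eA (0 + en a.1), SW_append_set er3 (0 + en a.1 + en RA),
      SW_append_set e4 (0 + en a.1 + en RA + en b.1.reverse), SW_append_set er5 (0 + en a.1 + en RA + en b.1.reverse + en b.2)]
    simp only [Va_append eA, Va_append er3, Va_append e4, Va_append er5, zero_add]
    rw [p1, Vh_reverse e3, Vh_reverse eB, Va_reverse e2, p2, p3]
  rw [hSW]
  constructor
  · rintro ⟨-, ⟨-, -, h2⟩, h1⟩
    rw [Set.disjoint_union_right, Set.disjoint_union_right, Set.disjoint_union_right] at h1 h2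
    have h3 := h2.2.2.1
    have h4 := h1.2.2.2
    have h5 := h2.2.2.2
    rw [Set.disjoint_union_right] at h4
    have h6 := h4.2
    rw [Set.disjoint_left] at h3 h6
    refine ⟨fun j k hj hk he => ?_, fun j k hj hk he => ?_⟩
    · rcases hj.lt_or_eq with hj | hj
      · exact h6 ⟨j, hj, rfl⟩ ⟨k, hk, by rw [he]; ring⟩
      · subst hj
        refine n1.n2 k 0 hk (Nat.zero_le _) ?_
        rw [ps_zero]
        have he2 : ps a.1 a.1.length = en a.1 := rfl
        rw [he2] at he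
        linear_combination -he
    · rcases Nat.eq_zero_or_pos k with hk0 | hk0
      · subst hk0
        rw [ps_zero] at he
        refine n1.n2 a.2.length j le_rfl hj ?_
        have he2 : ps a.2 a.2.length = en a.2 := rfl
        rw [he2, he]
        ring
      · rcases hj.lt_or_eq with hj | hj
        · exact h3 ⟨j, hj, rfl⟩ ⟨k, hk0, hk, by rw [he]; ring⟩
        · subst hj
          have h7 := n4.n2 b.1.length (RB.length - k) le_rfl (by rw [List.length_reverse]; omega)
          refine h7 ?_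
          rw [ps_reverse eB (by omega), Nat.sub_sub_self hk]
          have he' : en RA = ps RB k - z := he
          have he2 : ps b.1 b.1.length = en b.1 := rfl
          simp only [Prod.fst_swap, Prod.snd_swap]
          rw [he2]
          linear_combination he' - hz
  · rintro ⟨hT, hD⟩
    refine ⟨ha.s1, ⟨hA, ⟨(SW_reverse e3).2 hb.s1, ⟨hb.s2, ⟨(SW_reverse eB).2 hB,
      (SW_reverse e2).2 ha.s2, ?_⟩, ?_⟩, ?_⟩, ?_⟩, ?_⟩
    · -- (5, 6)
      rw [Set.disjoint_left]
      rintro x ⟨j, hj, hj2, rfl⟩ ⟨k, hk, he⟩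
      rcases hk.lt_or_eq with hk3 | hk3
      · exact n2.n2 k j hk3 hj2 (by linear_combination -he)
      · subst hk3
        have : ps RB j = ps RB 0 := by
          rw [ps_zero]
          have he' : en a.1 - z + ps RB j = en a.1 - en a.2 - z + en a.2 := he
          linear_combination he'
        have := hB j 0 hj2 (Nat.zero_le _) this
        omega
    · -- (4, 5), (4, 6)
      rw [Set.disjoint_union_right, Set.disjoint_left, Set.disjoint_left]
      constructor
      · rintro x ⟨j, hj, rfl⟩ ⟨k, hk, hk2, he⟩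
        refine n4.n1 j (RB.length - k) hj (by rw [List.length_reverse]; omega) ?_
        rw [ps_reverse eB (by omega), Nat.sub_sub_self hk2]
        simp only [Prod.fst_swap, Prod.snd_swap]
        linear_combination he - hz
      · rintro x ⟨j, hj, rfl⟩ ⟨k, hk, he⟩
        exact hf.f2 b.2 (Or.inr rfl) k j hk hj.le (by linear_combination -he)
    · -- (3, ..)
      rw [Set.disjoint_union_right, Set.disjoint_union_right, Set.disjoint_left, Set.disjoint_left, Set.disjoint_left]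
      refine ⟨?_, ?_, ?_⟩
      · rintro x ⟨j, hj, hj2, rfl⟩ ⟨k, hk, he⟩
        have := hb.dj j k hj2 hk.le (add_left_cancel he)
        omega
      · rintro x ⟨j, hj, hj2, rfl⟩ ⟨k, hk, hk2, he⟩
        refine n4.n2 j (RB.length - k) hj2 (by rw [List.length_reverse]; omega) ?_
        rw [ps_reverse eB (by omega), Nat.sub_sub_self hk2]
        simp only [Prod.fst_swap, Prod.snd_swap]
        linear_combination he - hz
      · rintro x ⟨j, hj, hj2, rfl⟩ ⟨k, hk, he⟩
        exact hf.f2 b.1 (Or.inl rfl) k j hk hj2 (by linear_combination -he)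
    · -- (2, ..)
      rw [Set.disjoint_union_right, Set.disjoint_union_right, Set.disjoint_union_right, Set.disjoint_left, Set.disjoint_left,
        Set.disjoint_left, Set.disjoint_left]
      refine ⟨?_, ?_, ?_, ?_⟩
      · rintro x ⟨j, hj, rfl⟩ ⟨k, hk, hk2, he⟩
        rcases hk2.lt_or_eq with hk3 | hk3
        · refine n3.n1 k (RA.length - j) hk3 (by rw [List.length_reverse]; omega) ?_
          rw [ps_reverse eA (by omega), Nat.sub_sub_self hj.le]
          linear_combination -he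
        · subst hk3
          have : ps RA j = ps RA RA.length := by
            have he' : en a.1 + ps RA j = en a.1 + en RA - en b.1 + en b.1 := he
            have he2 : ps RA RA.length = en RA := rfl
            rw [he2]
            linear_combination he'
          have := hA j RA.length hj.le le_rfl this
          omega
      · rintro x ⟨j, hj, rfl⟩ ⟨k, hk, he⟩
        refine n3.n2 k (RA.length - j) hk.le (by rw [List.length_reverse]; omega) ?_
        rw [ps_reverse eA (by omega), Nat.sub_sub_self hj.le]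
        linear_combination -he
      · rintro x ⟨j, hj, rfl⟩ ⟨k, hk, hk2, he⟩
        exact hD j k hj.le hk2 (by linear_combination he)
      · rintro x ⟨j, hj, rfl⟩ ⟨k, hk, he⟩
        exact n1.n2 k j hk hj.le (by linear_combination -he)
    · -- (1, ..)
      rw [Set.disjoint_union_right, Set.disjoint_union_right, Set.disjoint_union_right, Set.disjoint_union_right,
        Set.disjoint_left, Set.disjoint_left, Set.disjoint_left, Set.disjoint_left, Set.disjoint_left]
      refine ⟨?_, ?_, ?_, ?_, ?_⟩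
      · rintro x ⟨j, hj, rfl⟩ ⟨k, hk, he⟩
        exact n1.n1 j k hj hk.le (by linear_combination he)
      · rintro x ⟨j, hj, rfl⟩ ⟨k, hk, hk2, he⟩
        exact hf.f1 b.1 (Or.inl rfl) j k hj.le hk2 (by linear_combination he)
      · rintro x ⟨j, hj, rfl⟩ ⟨k, hk, he⟩
        exact hf.f1 b.2 (Or.inr rfl) j k hj.le hk.le (by linear_combination he)
      · rintro x ⟨j, hj, rfl⟩ ⟨k, hk, hk2, he⟩
        exact n2.n1 j k hj.le hk2 (by linear_combination he)
      · rintro x ⟨j, hj, rfl⟩ ⟨k, hk, he⟩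
        exact hT j k hj.le hk (by linear_combination he)

/-! ### the sums -/

/-- **the weight of the tip pieces at p** with `z` = end of `a.1` minus end of `a.2`, the gap is `en a.1 - en a.2 - z` -/
noncomputable def gr (C : Set (W3 × W3)) (e : W3 × W3 → ℂ → ℝ≥0∞) (z : ℂ) : ℝ≥0∞ :=
  ∑' a : W3 × W3, if a ∈ C ∧ TD a z then wx a.1 * wx a.2 * e a z else 0

/-- the hypotheses on the classes: tip pieces `C` at p, relative positions `Z` at p, connections `C'` at q, arcs `RA`, `RB` -/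
structure HypO (C C' : Set (W3 × W3)) (RA RB : Set W3) (Z : Set ℂ) : Prop where
  tp : ∀ a ∈ C, TpO a
  cn' : ∀ b ∈ C', Cn b
  rA : ∀ R ∈ RA, Even R.length ∧ SW R
  rB : ∀ R ∈ RB, Even R.length ∧ SW R
  n1 : ∀ a ∈ C, ∀ z ∈ Z, ∀ R ∈ RA, Na a z R
  n2 : ∀ a ∈ C, ∀ z ∈ Z, ∀ R ∈ RB, Nb a z R
  n3 : ∀ b ∈ C', ∀ R ∈ RA, Nr b R.reverse
  n4 : ∀ b ∈ C', ∀ R ∈ RB, Nr b.swap R.reverse
  far : ∀ a ∈ C, ∀ z ∈ Z, ∀ R ∈ RA, ∀ b ∈ C', Fo a z R b

/-- **the exact identity for the open words** -/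
theorem exPo {C C' : Set (W3 × W3)} {RA RB : Set W3} {Z : Set ℂ} (H : HypO C C' RA RB Z) {e : W3 × W3 → ℂ → ℝ≥0∞}
    (he : ∀ a z, z ∉ Z → e a z = 0) (e' : W3 × W3 → ℝ≥0∞) (F G : W3 → ℝ≥0∞) :
    ∑' (a : W3 × W3) (R : W3) (b : W3 × W3) (S : W3), (if a ∈ C ∧ R ∈ RA ∧ b ∈ C' ∧ S ∈ RB ∧ SW (G6 a R b S) then
      wx (G6 a R b S) * (e a (zz R b S) * e' b * (F R * G S)) else 0) =
    ∑' (R : W3) (S : W3), if R ∈ RA ∧ S ∈ RB then wx R * F R * (wx S * G S) *
      ∑' z : ℂ, (if Dj R S z then gr C e z * gam C' e' (z + en R - en S) else 0) else 0 := by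
  have h1 : ∀ (a : W3 × W3) (R : W3) (b : W3 × W3) (S : W3),
      (if a ∈ C ∧ R ∈ RA ∧ b ∈ C' ∧ S ∈ RB ∧ SW (G6 a R b S) then
        wx (G6 a R b S) * (e a (zz R b S) * e' b * (F R * G S)) else 0) =
      (if R ∈ RA ∧ S ∈ RB then wx R * F R * (wx S * G S) *
        ((if a ∈ C ∧ TD a (zz R b S) then wx a.1 * wx a.2 * e a (zz R b S) else 0) *
          (if b ∈ C' ∧ Dj R S (zz R b S) then wx b.1 * wx b.2 * e' b else 0)) else 0) := by
    intro a R b S
    by_cases hR : R ∈ RA ∧ S ∈ RB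
    · rw [if_pos hR]
      by_cases ha : a ∈ C
      · by_cases hb : b ∈ C'
        · by_cases hz : zz R b S ∈ Z
          · have hk := SW_G6 (H.tp a ha) (H.cn' b hb) (H.rA R hR.1).2 (H.rB S hR.2).2 (H.rA R hR.1).1 (H.rB S hR.2).1
              (H.n1 a ha _ hz R hR.1) (H.n2 a ha _ hz S hR.2) (H.n3 b hb R hR.1) (H.n4 b hb S hR.2)
              (H.far a ha _ hz R hR.1 b hb)
            by_cases hc : SW (G6 a R b S)
            · obtain ⟨h2, h3⟩ := hk.1 hc
              rw [if_pos ⟨ha, hR.1, hb, hR.2, hc⟩, if_pos ⟨ha, h2⟩, if_pos ⟨hb, h3⟩, wx_G6]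
              ring
            · rw [if_neg fun h => hc h.2.2.2.2]
              by_cases h2 : TD a (zz R b S)
              · rw [if_neg (c := b ∈ C' ∧ _) fun h => hc (hk.2 ⟨h2, h.2⟩), mul_zero, mul_zero]
              · rw [if_neg (c := a ∈ C ∧ _) fun h => h2 h.2, zero_mul, mul_zero]
          · rw [he a _ hz]
            simp
        · rw [if_neg fun h => hb h.2.2.1, if_neg (c := b ∈ C' ∧ _) fun h => hb h.1, mul_zero, mul_zero]
      · rw [if_neg fun h => ha h.1, if_neg (c := a ∈ C ∧ _) fun h => ha h.1, zero_mul, mul_zero]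
    · rw [if_neg hR, if_neg fun h => hR ⟨h.2.1, h.2.2.2.1⟩]
  simp_rw [h1]
  -- put the sums over `R`, `S` outside
  rw [ENNReal.tsum_comm]
  refine tsum_congr fun R => ?_
  have h2 : ∀ a : W3 × W3, ∑' (b : W3 × W3) (S : W3), (if R ∈ RA ∧ S ∈ RB then wx R * F R * (wx S * G S) *
        ((if a ∈ C ∧ TD a (zz R b S) then wx a.1 * wx a.2 * e a (zz R b S) else 0) *
          (if b ∈ C' ∧ Dj R S (zz R b S) then wx b.1 * wx b.2 * e' b else 0)) else 0) =
      ∑' (S : W3) (b : W3 × W3), (if R ∈ RA ∧ S ∈ RB then wx R * F R * (wx S * G S) *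
        ((if a ∈ C ∧ TD a (zz R b S) then wx a.1 * wx a.2 * e a (zz R b S) else 0) *
          (if b ∈ C' ∧ Dj R S (zz R b S) then wx b.1 * wx b.2 * e' b else 0)) else 0) :=
    fun a => ENNReal.tsum_comm
  simp_rw [h2]
  rw [ENNReal.tsum_comm]
  refine tsum_congr fun S => ?_
  by_cases hR : R ∈ RA ∧ S ∈ RB
  · simp_rw [if_pos hR, ENNReal.tsum_mul_left]
    congr 1
    rw [ENNReal.tsum_comm]
    have h3 : ∀ b : W3 × W3, ∑' a : W3 × W3, (if a ∈ C ∧ TD a (zz R b S) then wx a.1 * wx a.2 * e a (zz R b S) else 0) *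
          (if b ∈ C' ∧ Dj R S (zz R b S) then wx b.1 * wx b.2 * e' b else 0) =
        gr C e (zz R b S) * (if b ∈ C' ∧ Dj R S (zz R b S) then wx b.1 * wx b.2 * e' b else 0) := by
      intro b
      rw [ENNReal.tsum_mul_right]
      rfl
    simp_rw [h3]
    -- the sum over `z`
    have h4 : ∀ z : ℂ, (if Dj R S z then gr C e z * gam C' e' (z + en R - en S) else 0) =
        ∑' b : W3 × W3, if zz R b S = z then gr C e (zz R b S) *
          (if b ∈ C' ∧ Dj R S (zz R b S) then wx b.1 * wx b.2 * e' b else 0) else 0 := by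
      intro z
      by_cases hz : Dj R S z
      · rw [if_pos hz]
        unfold gam
        rw [← ENNReal.tsum_mul_left]
        refine tsum_congr fun b => ?_
        by_cases hb : zz R b S = z
        · have hb' : en b.1 - en b.2 = z + en R - en S := by rw [← hb, zz]; ring
          rw [if_pos hb, hb]
          by_cases hc : b ∈ C'
          · rw [if_pos ⟨hc, hb'⟩, if_pos ⟨hc, hz⟩]
          · rw [if_neg fun h => hc h.1, if_neg (c := b ∈ C' ∧ Dj R S z) fun h => hc h.1]
        · rw [if_neg hb, if_neg fun h => hb (by rw [zz, h.2]; ring), mul_zero]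
      · rw [if_neg hz]
        symm
        rw [ENNReal.tsum_eq_zero]
        intro b
        by_cases hb : zz R b S = z
        · rw [if_pos hb, hb, if_neg (c := b ∈ C' ∧ Dj R S z) fun h => hz h.2, mul_zero]
        · rw [if_neg hb]
    simp_rw [h4]
    rw [ENNReal.tsum_comm]
    refine tsum_congr fun b => ?_
    rw [tsum_eq_single (zz R b S) (fun z hz => if_neg (Ne.symm hz)), if_pos rfl]
  · simp_rw [if_neg hR]
    simp

/-! ### the form with marks -/

/-- the pieces of the word -/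
lemma G6_seg (w : W3) {k1 k2 m k3 k4 : ℕ} (h1 : k1 ≤ k2) (h2 : k2 ≤ m) (h3 : m ≤ k3) (h4 : k3 ≤ k4) :
    G6 (seg w 0 k1, (w.drop k4).reverse) (seg w k1 k2) ((seg w k2 m).reverse, seg w m k3) (seg w k3 k4).reverse = w := by
  unfold G6
  simp only [List.reverse_reverse]
  rw [seg_append w h4, seg_append w h3, seg_append w h2, seg_append w h1, seg_append w (Nat.zero_le k1), List.drop_zero]

/-- **sums over the words with marks = sums over the pieces** -/
theorem tsum_marks (Ψ : W3 × W3 → W3 → W3 × W3 → W3 → ℝ≥0∞) :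
    ∑' w : W3, ∑' k1 : ℕ, ∑' k2 : ℕ, ∑' m : ℕ, ∑' k3 : ℕ, ∑' k4 : ℕ,
      (if k1 ≤ k2 ∧ k2 ≤ m ∧ m ≤ k3 ∧ k3 ≤ k4 ∧ k4 ≤ w.length then
        Ψ (seg w 0 k1, (w.drop k4).reverse) (seg w k1 k2) ((seg w k2 m).reverse, seg w m k3) (seg w k3 k4).reverse else 0) =
    ∑' (a : W3 × W3) (R : W3) (b : W3 × W3) (S : W3), Ψ a R b S := by
  rw [tsum_cut6 fun u1 u2 u3 u4 u5 u6 => Ψ (u1, u6.reverse) u2 (u3.reverse, u4) u5.reverse]
  have e1 : ∀ f : W3 → ℝ≥0∞, ∑' u, f u = ∑' u : W3, f u.reverse := fun f => (rvE.tsum_eq f).symm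
  have e3 : ∀ f : W3 × W3 → ℝ≥0∞, ∑' a : W3 × W3, f a = ∑' (u : W3) (v : W3), f (u, v) := fun f =>
    ENNReal.tsum_prod (f := fun u v => f (u, v))
  rw [e3]
  refine tsum_congr fun u1 => ?_
  have hl : ∀ f : W3 → W3 → W3 → W3 → W3 → ℝ≥0∞, ∑' (u2 : W3) (u3 : W3) (u4 : W3) (u5 : W3) (u6 : W3), f u2 u3 u4 u5 u6 =
      ∑' (u6 : W3) (u2 : W3) (u3 : W3) (u4 : W3) (u5 : W3), f u2 u3 u4 u5 u6 := by
    intro f
    have g5 : ∀ u2 u3 u4, ∑' (u5 : W3) (u6 : W3), f u2 u3 u4 u5 u6 = ∑' (u6 : W3) (u5 : W3), f u2 u3 u4 u5 u6 :=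
      fun u2 u3 u4 => ENNReal.tsum_comm
    simp_rw [g5]
    have g4 : ∀ u2 u3, ∑' (u4 : W3) (u6 : W3) (u5 : W3), f u2 u3 u4 u5 u6 = ∑' (u6 : W3) (u4 : W3) (u5 : W3), f u2 u3 u4 u5 u6 :=
      fun u2 u3 => ENNReal.tsum_comm
    simp_rw [g4]
    have g3 : ∀ u2, ∑' (u3 : W3) (u6 : W3) (u4 : W3) (u5 : W3), f u2 u3 u4 u5 u6 =
      ∑' (u6 : W3) (u3 : W3) (u4 : W3) (u5 : W3), f u2 u3 u4 u5 u6 := fun u2 => ENNReal.tsum_comm
    simp_rw [g3]
    exact ENNReal.tsum_comm
  rw [hl, e1]
  refine tsum_congr fun v6 => tsum_congr fun R => ?_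
  rw [e1, e3]
  refine tsum_congr fun v3 => tsum_congr fun v4 => ?_
  rw [e1]
  refine tsum_congr fun v5 => ?_
  simp only [List.reverse_reverse]

lemma en_segm (w : W3) {a b : ℕ} (h : a ≤ b) (hb : b ≤ w.length) (he : Even a) : en (seg w a b) = ps w b - ps w a := by
  unfold seg
  rw [en_take (w.drop a) (by rw [List.length_drop]; omega), ps_append_drop w (h.trans hb) he]
  congr 2
  omega

/-- the relative position of the cuts at p and the gap in terms of the positions of the word -/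
lemma zz_seg (w : W3) {k1 k2 m k3 k4 : ℕ} (h1 : k1 ≤ k2) (h2 : k2 ≤ m) (h3 : m ≤ k3) (h4 : k3 ≤ k4) (h5 : k4 ≤ w.length)
    (e1 : Even k1) (e2 : Even k2) (e3 : Even m) (e4 : Even k3) (e5 : Even k4) :
    zz (seg w k1 k2) ((seg w k2 m).reverse, seg w m k3) (seg w k3 k4).reverse = ps w k1 - ps w k4 := by
  have l1 : Even (seg w k2 m).length := by
    have : (seg w k2 m).length = m - k2 := by
      unfold seg
      rw [List.length_take, List.length_drop]
      omega
    rw [this]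
    exact (Nat.even_sub h2).2 ⟨fun _ => e2, fun _ => e3⟩
  have l2 : Even (seg w k3 k4).length := by
    have : (seg w k3 k4).length = k4 - k3 := by
      unfold seg
      rw [List.length_take, List.length_drop]
      omega
    rw [this]
    exact (Nat.even_sub h4).2 ⟨fun _ => e4, fun _ => e5⟩
  unfold zz
  simp only
  rw [en_reverse l1, en_reverse l2, en_segm w h1 (by omega) e1, en_segm w h2 (by omega) e2, en_segm w h3 (by omega) e3,
    en_segm w h4 h5 e4]
  ring

/-- **the open words with marks**: `w` self-avoiding, tip pieces `seg w 0 k1`, `(w.drop k4).reverse` at p, root `m` at q -/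
theorem exPom {C C' : Set (W3 × W3)} {RA RB : Set W3} {Z : Set ℂ} (H : HypO C C' RA RB Z) {e : W3 × W3 → ℂ → ℝ≥0∞}
    (he : ∀ a z, z ∉ Z → e a z = 0) (e' : W3 × W3 → ℝ≥0∞) (F G : W3 → ℝ≥0∞) :
    ∑' w : W3, ∑' k1 : ℕ, ∑' k2 : ℕ, ∑' m : ℕ, ∑' k3 : ℕ, ∑' k4 : ℕ,
      (if (k1 ≤ k2 ∧ k2 ≤ m ∧ m ≤ k3 ∧ k3 ≤ k4 ∧ k4 ≤ w.length) ∧ SW w ∧ (seg w 0 k1, (w.drop k4).reverse) ∈ C ∧
          seg w k1 k2 ∈ RA ∧ ((seg w k2 m).reverse, seg w m k3) ∈ C' ∧ (seg w k3 k4).reverse ∈ RB then
        wx w * (e (seg w 0 k1, (w.drop k4).reverse) (ps w k1 - ps w k4) * e' ((seg w k2 m).reverse, seg w m k3) *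
          (F (seg w k1 k2) * G (seg w k3 k4).reverse)) else 0) =
    ∑' (R : W3) (S : W3), if R ∈ RA ∧ S ∈ RB then wx R * F R * (wx S * G S) *
      ∑' z : ℂ, (if Dj R S z then gr C e z * gam C' e' (z + en R - en S) else 0) else 0 := by
  rw [← exPo H he, ← tsum_marks]
  refine tsum_congr fun w => tsum_congr fun k1 => tsum_congr fun k2 => tsum_congr fun m => tsum_congr fun k3 =>
    tsum_congr fun k4 => ?_
  by_cases hk : k1 ≤ k2 ∧ k2 ≤ m ∧ m ≤ k3 ∧ k3 ≤ k4 ∧ k4 ≤ w.length
  · rw [if_pos (c := k1 ≤ k2 ∧ k2 ≤ m ∧ m ≤ k3 ∧ k3 ≤ k4 ∧ k4 ≤ w.length) hk, G6_seg w hk.1 hk.2.1 hk.2.2.1 hk.2.2.2.1]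
    by_cases hc : SW w ∧ (seg w 0 k1, (w.drop k4).reverse) ∈ C ∧
        seg w k1 k2 ∈ RA ∧ ((seg w k2 m).reverse, seg w m k3) ∈ C' ∧ (seg w k3 k4).reverse ∈ RB
    · have ev : ∀ a b : ℕ, a ≤ b → b ≤ w.length → Even a → Even (seg w a b).length → Even b := by
        intro a b hab hb ha hs
        have : (seg w a b).length = b - a := by
          unfold seg
          rw [List.length_take, List.length_drop]
          omega
        rw [this, Nat.even_sub hab] at hs
        exact hs.2 ha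
      have t := H.tp _ hc.2.1
      have c' := H.cn' _ hc.2.2.2.1
      have g1 : Even k1 := ev 0 k1 (Nat.zero_le _) (by omega) (by simp) t.e1
      have g2 : Even k2 := ev k1 k2 hk.1 (by omega) g1 (H.rA _ hc.2.2.1).1
      have g3 : Even m := ev k2 m hk.2.1 (by omega) g2 (by have := c'.e1; rwa [List.length_reverse] at this)
      have g4 : Even k3 := ev m k3 hk.2.2.1 (by omega) g3 c'.e2
      have g5 : Even k4 := ev k3 k4 hk.2.2.2.1 hk.2.2.2.2 g4 (by
        have := (H.rB _ hc.2.2.2.2).1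
        rwa [List.length_reverse] at this)
      rw [if_pos ⟨hk, hc⟩, if_pos ⟨hc.2.1, hc.2.2.1, hc.2.2.2.1, hc.2.2.2.2, hc.1⟩,
        zz_seg w hk.1 hk.2.1 hk.2.2.1 hk.2.2.2.1 hk.2.2.2.2 g1 g2 g3 g4 g5]
    · rw [if_neg fun h => hc h.2, if_neg fun h => hc ⟨h.2.2.2.2, h.1, h.2.1, h.2.2.1, h.2.2.2.1⟩]
  · rw [if_neg fun h => hk h.1, if_neg hk]

end Pool.Agent.ROT.F3
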