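import Pool.Agent.ROT.F3Fine

/-!
# F3, the fine companions (helper64)

`fine_comp`: the fine list along a coarse chain whose first and last steps go west is a companion (`F3S.Comp`) with stubs in the
directions `(1, -1)` or `(0, 1)`. `Cmp.fineL`, `Cmp.fineM`: for the lanes of `F3L.companions`.
-/

set_option autoImplicit false

namespace HexObs

namespace ROT

namespace F3L

open ARM (adj nr nr_iff nr_symm nr_trans nr_mono nr_self)
open ART ART.Lane Set F3S TS SDN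

variable {K : ℕ} {f : ℕ → ℤ × ℤ} {n : ℕ}

/-- the fine list from the index i0 to i0 + N -/
def fl (K : ℕ) (f : ℕ → ℤ × ℤ) (i0 N : ℕ) : List (ℤ × ℤ) := (List.range (N + 1)).map fun t => fp K f (i0 + t)

lemma mem_fl {i0 N : ℕ} {c : ℤ × ℤ} : c ∈ fl K f i0 N ↔ ∃ t, i0 ≤ t ∧ t ≤ i0 + N ∧ fp K f t = c := by
  unfold fl
  rw [List.mem_map]
  constructor
  · rintro ⟨t, ht, rfl⟩
    rw [List.mem_range] at ht
    exact ⟨i0 + t, by omega, by omega, rfl⟩
  · rintro ⟨t, h1, h2, rfl⟩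
    exact ⟨t - i0, List.mem_range.2 (by omega), by rw [show i0 + (t - i0) = t by omega]⟩

/-- the side of a stub -/
lemma stub_side {x ω : ℤ × ℤ} (hω : ω = (1, -1) ∨ ω = (0, 1)) {i : ℕ} (hi : 1 ≤ i) {c : ℤ × ℤ}
    (hc : NC (ART.ctr x + (i : ℤ) • ω) c) : x.1 ≤ c.1 := by
  obtain ⟨m, h1, h2, rfl⟩ := hc
  unfold ART.ctr at h1
  rcases hω with rfl | rfl <;>
  · simp only [Prod.fst_add, Prod.smul_mk, smul_eq_mul] at h1 ⊢
    rw [abs_le] at h1
    omega

/-- **the fine companion** -/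
theorem fine_comp (hK : 8 ≤ K) (hf : ∀ i, i < n → adj (f i) (f (i + 1))) (hinj : ∀ i j, i < j → j ≤ n → f i ≠ f j)
    (hn : 2 ≤ n) (hf0 : f 1 = f 0 + (-1, 0)) (hfn : f (n - 1) = f n + (-1, 0)) {i0 j0 : ℕ} (hi0 : i0 < K) (hj0 : j0 < K)
    {ω0 ω1 : ℤ × ℤ} (hω0 : ω0 = (1, -1) ∨ ω0 = (0, 1)) (hω1 : ω1 = (1, -1) ∨ ω1 = (0, 1)) {s s' : ℕ} {x0 x1 : ℤ × ℤ}
    (hx0 : x0 = fc K (f 0) + (i0 : ℤ) • (-1, 0)) (hx1 : x1 = fc K (f n) + (j0 : ℤ) • (-1, 0))
    (hs : ∀ i : ℕ, 1 ≤ i → i ≤ s → ∀ c, NC (ART.ctr x0 + (i : ℤ) • ω0) c → ∀ a, a ≤ n → co K c = f a → a ≤ 1)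
    (hs' : ∀ i : ℕ, 1 ≤ i → i ≤ s' → ∀ c, NC (ART.ctr x1 + (i : ℤ) • ω1) c → ∀ a, a ≤ n → co K c = f a → n - 1 ≤ a)
    (hfar : ∀ i j : ℕ, 1 ≤ i → i ≤ s → 1 ≤ j → j ≤ s' → Far (ART.ctr x0 + (i : ℤ) • ω0) (ART.ctr x1 + (j : ℤ) • ω1)) :
    Comp (fl K f i0 (K * n - j0 - i0)) x0 x1 ω0 (-1, 0) ω1 (-1, 0) s s' := by
  have hK0 : 0 < K := by omega
  have hKn : 2 * K ≤ K * n := by
    have := Nat.mul_le_mul_left K hn
    omega
  obtain ⟨N, hN⟩ : ∃ N, N = K * n - j0 - i0 := ⟨_, rfl⟩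
  have hN1 : 1 ≤ N := by omega
  have hN2 : i0 + N + j0 = K * n := by omega
  rw [← hN]
  have inj : ∀ {i j : ℕ}, i ≤ n → j ≤ n → f i = f j → i = j := by
    intro i j h1 h2 h3
    rcases lt_trichotomy i j with h4 | h4 | h4
    · exact absurd h3 (hinj i j h4 h2)
    · exact h4
    · exact absurd h3.symm (hinj j i h4 h1)
  have e0 : f (0 + 1) - f 0 = (-1, 0) := by rw [zero_add, hf0]; abel
  have en : f (n - 1 + 1) - f (n - 1) = (1, 0) := by
    rw [show n - 1 + 1 = n by omega, hfn]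
    rw [sub_add_cancel_left]
    rfl
  have g0 : ∀ t, t ≤ K → fp K f t = fc K (f 0) + (t : ℤ) • (-1, 0) := by
    intro t ht
    have := fp_eq' (f := f) (i := 0) hK0 ht
    rwa [mul_zero, zero_add, e0] at this
  have gn : ∀ t, t ≤ K → fp K f (K * (n - 1) + t) = fc K (f (n - 1)) + (t : ℤ) • (1, 0) := by
    intro t ht
    have := fp_eq' (f := f) (i := n - 1) hK0 ht
    rwa [en] at this
  have hKn1 : K * (n - 1) + K = K * n := by
    have : K * (n - 1 + 1) = K * (n - 1) + K := by ring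
    rwa [show n - 1 + 1 = n by omega, eq_comm] at this
  have fcn : fc K (f n) = fc K (f (n - 1)) + (K : ℤ) • (1, 0) := by
    rw [← fc_add, hfn]
    congr 1
    ext <;> simp
  have gx0 : fp K f i0 = x0 := by rw [g0 i0 hi0.le, hx0]
  have gx1 : fp K f (i0 + N) = x1 := by
    have h1 := gn (K - j0) (by omega)
    rw [show K * (n - 1) + (K - j0) = i0 + N by omega] at h1
    rw [h1, hx1, fcn, Nat.cast_sub hj0.le]
    refine Prod.ext ?_ ?_
    · simp only [Prod.fst_add, Prod.smul_mk, smul_eq_mul]; ring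
    · simp only [Prod.snd_add, Prod.smul_mk, smul_eq_mul]; ring
  have gx0' : fp K f (i0 + 1) = x0 + (-1, 0) := by
    rw [g0 (i0 + 1) hi0, hx0]
    refine Prod.ext ?_ ?_
    · simp only [Prod.fst_add, Prod.smul_mk, smul_eq_mul]; push_cast; ring
    · simp only [Prod.snd_add, Prod.smul_mk, smul_eq_mul]; push_cast; ring
  have gx1' : fp K f (i0 + (N - 1)) = x1 + (-1, 0) := by
    have h1 := gn (K - j0 - 1) (by omega)
    rw [show K * (n - 1) + (K - j0 - 1) = i0 + (N - 1) by omega] at h1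
    rw [h1, hx1, fcn]
    have e : ((K - j0 - 1 : ℕ) : ℤ) = (K : ℤ) - j0 - 1 := by omega
    rw [e]
    refine Prod.ext ?_ ?_
    · simp only [Prod.fst_add, Prod.smul_mk, smul_eq_mul]; ring
    · simp only [Prod.snd_add, Prod.smul_mk, smul_eq_mul]; ring
  -- the coarse cell of a fine cell of the path
  have near : ∀ t, t ≤ K * n → co K (fp K f t) = f (t / K) ∨ (t / K < n ∧ co K (fp K f t) = f (t / K + 1)) := by
    intro t ht
    exact fp_near hK0 hf ht (m := 0) (by omega) (nr_self le_rfl _)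
  have tK : ∀ t, t ≤ K * n → t / K ≤ n := fun t ht => Nat.div_le_of_le_mul ht
  have ang : ∀ {ω : ℤ × ℤ}, (ω = (1, -1) ∨ ω = (0, 1)) → Ang ω (-1, 0) := by
    rintro ω (rfl | rfl)
    · right; left; decide
    · right; right; decide
  have wd : ∀ {ω : ℤ × ℤ}, (ω = (1, -1) ∨ ω = (0, 1)) → ω ∈ dirs := by
    rintro ω (rfl | rfl) <;> decide
  have D4w : ((-1, 0) : ℤ × ℤ) ∈ D4 := by rw [mem_D4]; exact Or.inr (Or.inl rfl)
  refine ⟨?_, ?_, ?_, ?_, ?_, ?_, wd hω0, wd hω1, D4w, D4w, ang hω0, ang hω1, ?_, ?_, hfar⟩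
  · unfold fl
    rw [List.isChain_map, List.isChain_range_succ]
    intro t ht
    exact fp_adj hK0 hf (by omega)
  · unfold fl
    refine List.Nodup.map_on ?_ List.nodup_range
    intro t ht t' ht' h
    rw [List.mem_range] at ht ht'
    have := fp_inj hK0 hf hinj (by omega) (by omega) h
    omega
  · unfold fl
    rw [List.head?_map, List.range_succ_eq_map]
    simp [gx0]
  · unfold fl
    rw [List.range_succ]
    simp [gx1]
  · refine ⟨[], (List.range (N - 1)).map fun t => fp K f (i0 + (t + 2)), ?_⟩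
    unfold fl
    rw [show N + 1 = 2 + (N - 1) by omega, List.range_add, List.map_append, List.map_map]
    have e2 : List.range 2 = [0, 1] := rfl
    rw [e2]
    simp only [List.map_cons, List.map_nil, List.cons_append, List.nil_append, add_zero, gx0, gx0', List.cons.injEq, true_and]
    refine List.map_congr_left fun t _ => ?_
    simp only [Function.comp_apply]
    congr 1
    omega
  · refine ⟨(List.range (N - 1)).map fun t => fp K f (i0 + t), [], ?_⟩
    unfold fl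
    have e : N + 1 = (N - 1) + 2 := by omega
    rw [e, List.range_succ, List.range_succ]
    simp only [List.map_append, List.map_cons, List.map_nil, List.append_assoc, List.cons_append, List.nil_append]
    rw [gx1', show i0 + (N - 1 + 1) = i0 + N by omega, gx1]
  · intro i h1 h2 c hc hcM
    obtain ⟨t, t1, t2, rfl⟩ := mem_fl.1 hcM
    have hside := stub_side hω0 h1 hc
    have tn : t ≤ K * n := by omega
    have hlt : t / K ≤ 1 := by
      rcases near t tn with h3 | ⟨h3, h4⟩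
      · exact hs i h1 h2 _ hc _ (tK t tn) h3
      · have := hs i h1 h2 _ hc _ h3 h4
        omega
    rcases Nat.lt_or_ge t K with h3 | h3
    · rw [g0 t h3.le, hx0] at hside
      simp only [Prod.fst_add, Prod.smul_mk, smul_eq_mul] at hside
      have : t = i0 := by omega
      rw [this, gx0]
    · exfalso
      obtain ⟨u, rfl⟩ : ∃ u, t = K * 1 + u := ⟨t - K, by omega⟩
      have hu : u < K := by
        by_contra hc'
        have : 2 ≤ (K * 1 + u) / K := (Nat.le_div_iff_mul_le hK0).2 (by omega)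
        omega
      rw [fp_eq hu, hx0, hf0, fc_add] at hside
      have hd := adj_sub.1 (hf 1 (by omega))
      rw [mem_D4, hf0] at hd
      simp only [Prod.fst_add, Prod.smul_mk, smul_eq_mul, Prod.smul_fst, Prod.fst_sub] at hside
      have key : f (1 + 1) - (f 0 + (-1, 0)) = (1, 0) := by
        rcases hd with h | h | h | h
        · exact h
        · exfalso
          have e1 := congrArg Prod.fst h
          simp only [Prod.fst_sub, Prod.fst_add] at e1
          rw [e1] at hside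
          omega
        · exfalso
          have e1 := congrArg Prod.fst h
          simp only [Prod.fst_sub, Prod.fst_add] at e1
          rw [e1] at hside
          omega
        · exfalso
          have e1 := congrArg Prod.fst h
          simp only [Prod.fst_sub, Prod.fst_add] at e1
          rw [e1] at hside
          omega
      have e2 : f (1 + 1) = f 0 := by
        rw [sub_eq_iff_eq_add] at key
        rw [key]
        ext <;> simp
      have := inj (by omega) (by omega) e2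
      omega
  · intro i h1 h2 c hc hcM
    obtain ⟨t, t1, t2, rfl⟩ := mem_fl.1 hcM
    have hside := stub_side hω1 h1 hc
    have tn : t ≤ K * n := by omega
    have hge : n ≤ t / K + 2 := by
      rcases near t tn with h3 | ⟨h3, h4⟩
      · have := hs' i h1 h2 _ hc _ (tK t tn) h3
        omega
      · have := hs' i h1 h2 _ hc _ h3 h4
        omega
    rcases Nat.lt_or_ge t (K * (n - 1)) with h3 | h3
    · exfalso
      have hlt : t / K < n - 1 := (Nat.div_lt_iff_lt_mul hK0).2 (by rw [mul_comm]; exact h3)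
      have hq : t / K = n - 2 := by omega
      obtain ⟨u, hu, ht⟩ : ∃ u, u < K ∧ t = K * (n - 2) + u := ⟨t % K, Nat.mod_lt _ hK0, by
        have := Nat.div_add_mod t K
        rw [hq] at this
        exact this.symm⟩
      subst ht
      rw [fp_eq hu, hx1, fcn] at hside
      have e3 : n - 2 + 1 = n - 1 := by omega
      rw [e3] at hside
      have hd := adj_sub.1 (hf (n - 2) (by omega))
      rw [e3, mem_D4] at hd
      have e4 := fc_add (K := K) (f (n - 2)) (f (n - 1) - f (n - 2))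
      rw [add_sub_cancel] at e4
      rw [e4] at hside
      simp only [Prod.fst_add, Prod.smul_mk, smul_eq_mul, Prod.smul_fst, Prod.fst_sub] at hside
      have key : f (n - 1) - f (n - 2) = (-1, 0) := by
        rcases hd with h | h | h | h
        · exfalso
          have e1 := congrArg Prod.fst h
          simp only [Prod.fst_sub] at e1
          rw [e1] at hside
          omega
        · exact h
        · exfalso
          have e1 := congrArg Prod.fst h
          simp only [Prod.fst_sub] at e1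
          rw [e1] at hside
          omega
        · exfalso
          have e1 := congrArg Prod.fst h
          simp only [Prod.fst_sub] at e1
          rw [e1] at hside
          omega
      have e2 : f (n - 2) = f n := by
        have h5 : f (n - 2) = f (n - 1) - (-1, 0) := by rw [← key]; abel
        rw [h5, hfn]
        ext <;> simp
      have := inj (by omega) le_rfl e2
      omega
    · obtain ⟨u, hu⟩ : ∃ u, t = K * (n - 1) + u := ⟨t - K * (n - 1), by omega⟩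
      have huK : u ≤ K := by omega
      have ht : t = i0 + N := by
        rw [hu, gn u huK, hx1, fcn] at hside
        simp only [Prod.fst_add, Prod.smul_mk, smul_eq_mul] at hside
        omega
      rw [ht, gx1]

/-- a coarse chain as a function -/
lemma exists_fun {L : List (ℤ × ℤ)} (hc : L.IsChain adj) (hd : L.Nodup) {x0 x1 y0 y1 : ℤ × ℤ} (h1 : ∃ l, L = x0 :: x1 :: l)
    (h2 : ∃ l, L.reverse = y0 :: y1 :: l) : ∃ (n : ℕ) (f : ℕ → ℤ × ℤ), 1 ≤ n ∧ (∀ i, i < n → adj (f i) (f (i + 1))) ∧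
      (∀ i j, i < j → j ≤ n → f i ≠ f j) ∧ f 0 = x0 ∧ f 1 = x1 ∧ f n = y0 ∧ f (n - 1) = y1 ∧ ∀ c, c ∈ L ↔ ∃ i, i ≤ n ∧ f i = c := by
  obtain ⟨l, hl⟩ := h1
  obtain ⟨l', hl'⟩ := h2
  have hlen : L.length = l.length + 2 := by rw [hl]; simp
  have hget : ∀ i, i < L.length → L.getD i (0, 0) = L[i]?.getD (0, 0) := fun i _ => rfl
  refine ⟨l.length + 1, fun i => L.getD i (0, 0), by omega, ?_, ?_, ?_, ?_, ?_, ?_, ?_⟩
  · intro i hi
    simp only
    rw [List.getD_eq_getElem _ _ (by omega), List.getD_eq_getElem _ _ (by omega)]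
    exact List.isChain_iff_getElem.1 hc i (by omega)
  · intro i j hij hj he
    simp only at he
    rw [List.getD_eq_getElem _ _ (by omega), List.getD_eq_getElem _ _ (by omega)] at he
    have := (List.Nodup.getElem_inj_iff hd).1 he
    omega
  · simp [hl]
  · simp [hl]
  · simp only
    rw [List.getD_eq_getElem _ _ (by omega)]
    have h3 : L.reverse[0]'(by rw [List.length_reverse]; omega) = y0 := by simp only [hl', List.getElem_cons_zero]
    rw [List.getElem_reverse] at h3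
    rw [← h3]
    congr 1
    omega
  · simp only
    rw [List.getD_eq_getElem _ _ (by omega)]
    have h3 : L.reverse[1]'(by rw [List.length_reverse]; omega) = y1 := by
      simp only [hl', List.getElem_cons_succ, List.getElem_cons_zero]
    rw [List.getElem_reverse] at h3
    rw [← h3]
    congr 1
    omega
  · intro c
    rw [List.mem_iff_getElem]
    constructor
    · rintro ⟨i, hi, rfl⟩
      exact ⟨i, by omega, by simp only; rw [List.getD_eq_getElem _ _ hi]⟩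
    · rintro ⟨i, hi, rfl⟩
      refine ⟨i, by omega, ?_⟩
      simp only
      rw [List.getD_eq_getElem _ _ (by omega)]

lemma far_of_coord {x y : Pt} (h : 2 ≤ |y.1 - x.1| ∨ 2 ≤ |y.2 - x.2|) : Far x y := by
  have key : ∀ d ∈ dirs, |d.1| ≤ 1 ∧ |d.2| ≤ 1 := by decide
  refine ⟨?_, ?_, ?_⟩
  · rintro rfl
    simp at h
  · intro h1
    have := key _ h1
    simp only [Prod.fst_sub, Prod.snd_sub] at this
    omega
  · intro h1
    have := key _ h1
    simp only [Prod.fst_sub, Prod.snd_sub] at this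
    rw [abs_sub_comm x.1, abs_sub_comm x.2] at this
    omega

/-- the cell of the coarse mesh (side 8 K nodes) of a node -/
lemma bl_co_le {K : ℤ} (hK : 0 < K) {c q : ℤ} (h : 2 * (K * q) ≤ c) : q ≤ c / K / 2 := by
  rw [Int.le_ediv_iff_mul_le (by norm_num), Int.le_ediv_iff_mul_le hK]
  linarith

lemma bl_co_lt {K : ℤ} (hK : 0 < K) {c q : ℤ} (h : c < 2 * (K * q)) : c / K / 2 < q := by
  rw [Int.ediv_lt_iff_lt_mul (by norm_num), Int.ediv_lt_iff_lt_mul hK]
  linarith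

/-- **a stub of the north side or of the south side**: P the box, y0 the row of the mouth -/
lemma stub_north {P : ℤ × ℤ} {a b e x : ℤ} {K s i0 : ℕ} (hK : 8 ≤ K) (he : 0 ≤ e) (ha : 0 ≤ a) (hb : a + e + 2 ≤ b)
    (hx : 2 * (P.1 - a - e) + 2 ≤ x ∧ x ≤ 2 * (P.1 + e)) (hi0 : i0 < K) (hs : (s : ℤ) ≤ 8 * (K * a)) {i : ℕ} (h1 : 1 ≤ i)
    (h2 : i ≤ s) {c : ℤ × ℤ}
    (hc : NC (ART.ctr (fc K (x, 2 * (P.2 + a + 1)) + (i0 : ℤ) • ((-1, 0) : ℤ × ℤ)) + (i : ℤ) • ((1, -1) : ℤ × ℤ)) c) :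
    nr b P (bl (co K c)) ∧ x - 1 ≤ (co K c).1 := by
  obtain ⟨m, c1, c2, rfl⟩ := hc
  unfold fc ART.ctr at c1 c2
  simp only [Prod.smul_mk, Prod.mk_add_mk, smul_eq_mul] at c1 c2
  rw [abs_le] at c1 c2
  have hK0 : (0 : ℤ) < K := by omega
  have e1 : (K : ℤ) * x ≤ K * (2 * (P.1 + e)) := mul_le_mul_of_nonneg_left hx.2 hK0.le
  have e2 : (K : ℤ) * (2 * (P.1 - a - e) + 2) ≤ K * x := mul_le_mul_of_nonneg_left hx.1 hK0.le
  have e3 : (K : ℤ) * (a + e + 2) ≤ K * b := mul_le_mul_of_nonneg_left hb hK0.le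
  have e4 : 0 ≤ (K : ℤ) * e := by positivity
  have e5 : 0 ≤ (K : ℤ) * a := by positivity
  have r1 : (K : ℤ) * (2 * (P.1 + e)) = 2 * (K * P.1) + 2 * (K * e) := by ring
  have r2 : (K : ℤ) * (2 * (P.1 - a - e) + 2) = 2 * (K * P.1) - 2 * (K * a) - 2 * (K * e) + 2 * K := by ring
  have r3 : (K : ℤ) * (a + e + 2) = K * a + K * e + 2 * K := by ring
  have r4 : (K : ℤ) * (2 * (P.2 + a + 1)) = 2 * (K * P.2) + 2 * (K * a) + 2 * K := by ring
  have r5 : ∀ q : ℤ, (K : ℤ) * (q + b + 1) = K * q + K * b + K := fun q => by ring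
  have r6 : ∀ q : ℤ, (K : ℤ) * (q - b) = K * q - K * b := fun q => by ring
  have r7 : (x - 1) * (K : ℤ) = K * x - K := by ring
  rw [r4] at c2
  refine ⟨?_, ?_⟩
  · rw [nr_iff]
    unfold bl co
    simp only
    have a1 := bl_co_lt hK0 (c := m.1 / 4) (q := P.1 + b + 1) (by rw [r5]; omega)
    have a2 := bl_co_le hK0 (c := m.1 / 4) (q := P.1 - b) (by rw [r6]; omega)
    have a3 := bl_co_lt hK0 (c := m.2 / 4) (q := P.2 + b + 1) (by rw [r5]; omega)
    have a4 := bl_co_le hK0 (c := m.2 / 4) (q := P.2 - b) (by rw [r6]; omega)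
    omega
  · unfold co
    simp only
    rw [Int.le_ediv_iff_mul_le hK0, r7]
    omega

lemma stub_south {P : ℤ × ℤ} {a b e x : ℤ} {K s i0 : ℕ} (hK : 8 ≤ K) (he : 0 ≤ e) (ha : 0 ≤ a) (hb : a + e + 2 ≤ b)
    (hx : 2 * (P.1 - a - e) + 2 ≤ x ∧ x ≤ 2 * (P.1 + e)) (hi0 : i0 < K) (hs : (s : ℤ) ≤ 8 * (K * a)) {i : ℕ} (h1 : 1 ≤ i)
    (h2 : i ≤ s) {c : ℤ × ℤ}
    (hc : NC (ART.ctr (fc K (x, 2 * (P.2 - a) - 1) + (i0 : ℤ) • ((-1, 0) : ℤ × ℤ)) + (i : ℤ) • ((0, 1) : ℤ × ℤ)) c) :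
    nr b P (bl (co K c)) ∧ x - 1 ≤ (co K c).1 := by
  obtain ⟨m, c1, c2, rfl⟩ := hc
  unfold fc ART.ctr at c1 c2
  simp only [Prod.smul_mk, Prod.mk_add_mk, smul_eq_mul] at c1 c2
  rw [abs_le] at c1 c2
  have hK0 : (0 : ℤ) < K := by omega
  have e1 : (K : ℤ) * x ≤ K * (2 * (P.1 + e)) := mul_le_mul_of_nonneg_left hx.2 hK0.le
  have e2 : (K : ℤ) * (2 * (P.1 - a - e) + 2) ≤ K * x := mul_le_mul_of_nonneg_left hx.1 hK0.le
  have e3 : (K : ℤ) * (a + e + 2) ≤ K * b := mul_le_mul_of_nonneg_left hb hK0.le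
  have e4 : 0 ≤ (K : ℤ) * e := by positivity
  have e5 : 0 ≤ (K : ℤ) * a := by positivity
  have r1 : (K : ℤ) * (2 * (P.1 + e)) = 2 * (K * P.1) + 2 * (K * e) := by ring
  have r2 : (K : ℤ) * (2 * (P.1 - a - e) + 2) = 2 * (K * P.1) - 2 * (K * a) - 2 * (K * e) + 2 * K := by ring
  have r3 : (K : ℤ) * (a + e + 2) = K * a + K * e + 2 * K := by ring
  have r4 : (K : ℤ) * (2 * (P.2 - a) - 1) = 2 * (K * P.2) - 2 * (K * a) - K := by ring
  have r5 : ∀ q : ℤ, (K : ℤ) * (q + b + 1) = K * q + K * b + K := fun q => by ring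
  have r6 : ∀ q : ℤ, (K : ℤ) * (q - b) = K * q - K * b := fun q => by ring
  have r7 : (x - 1) * (K : ℤ) = K * x - K := by ring
  rw [r4] at c2
  refine ⟨?_, ?_⟩
  · rw [nr_iff]
    unfold bl co
    simp only
    have a1 := bl_co_lt hK0 (c := m.1 / 4) (q := P.1 + b + 1) (by rw [r5]; omega)
    have a2 := bl_co_le hK0 (c := m.1 / 4) (q := P.1 - b) (by rw [r6]; omega)
    have a3 := bl_co_lt hK0 (c := m.2 / 4) (q := P.2 + b + 1) (by rw [r5]; omega)
    have a4 := bl_co_le hK0 (c := m.2 / 4) (q := P.2 - b) (by rw [r6]; omega)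
    omega
  · unfold co
    simp only
    rw [Int.le_ediv_iff_mul_le hK0, r7]
    omega

/-- nodes whose coarse cells are far are far -/
lemma far_of_box {P Q : ℤ × ℤ} {b b₁ : ℤ} {K : ℕ} (hK : 8 ≤ K) (hPQ : ¬ nr (4 * (b + b₁)) P Q) (hb : 2 ≤ b + b₁) {x y : Pt} {c d : ℤ × ℤ}
    (hx : NC x c) (hy : NC y d) (hc : nr b P (bl (co K c))) (hd : nr b₁ Q (bl (co K d))) : Far x y := by
  by_contra hcon
  have h1 : |y.1 - x.1| < 2 ∧ |y.2 - x.2| < 2 := by
    constructor <;>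
    · by_contra hc'
      push Not at hc'
      exact hcon (far_of_coord (by tauto))
  rw [abs_lt, abs_lt] at h1
  obtain ⟨m, m1, m2, rfl⟩ := hx
  obtain ⟨m', m1', m2', rfl⟩ := hy
  rw [abs_le] at m1 m2 m1' m2'
  apply hPQ
  have hK0 : (0 : ℤ) < K := by omega
  have key : ∀ u v : ℤ, v ≤ u + 4 → v / 4 / K / 2 ≤ u / 4 / K / 2 + 1 := by
    intro u v h
    have h2 : v / 4 ≤ u / 4 + 1 := by omega
    have h3 : v / 4 / K ≤ u / 4 / K + 1 := by
      have h4 : v / 4 / (K : ℤ) ≤ (u / 4 + 1 * K) / K := Int.ediv_le_ediv hK0 (by omega)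
      rw [Int.add_mul_ediv_right _ _ hK0.ne'] at h4
      omega
    omega
  rw [nr_iff] at hc hd ⊢
  unfold bl co at hc hd
  simp only at hc hd
  have k1 := key m.1 m'.1 (by omega)
  have k2 := key m'.1 m.1 (by omega)
  have k3 := key m.2 m'.2 (by omega)
  have k4 := key m'.2 m.2 (by omega)
  omega

lemma NC_self' (x : Pt) : NC x (x.1 / 4, x.2 / 4) := ⟨x, by simp, by simp, rfl⟩

/-- **the fine companion 2**: from the north side of P to the south side of Q -/
theorem Cmp.fineL {P Q : ℤ × ℤ} {a b e a₁ b₁ e₁ T xN xS xN' xS' : ℤ} {F : ℤ × ℤ → Prop} {L M : List (ℤ × ℤ)}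
    (h : Cmp P Q a b e a₁ b₁ e₁ T xN xS xN' xS' F L M) {K : ℕ} (hK : 8 ≤ K) (he : 0 ≤ e) (ha : 0 ≤ a) (hb : a + e + 2 ≤ b)
    (he₁ : 0 ≤ e₁) (ha₁ : 0 ≤ a₁) (hb₁ : a₁ + e₁ + 2 ≤ b₁) (hPQ : ¬ nr (4 * (b + b₁)) P Q) (hx : 2 * (P.1 - a - e) + 2 ≤ xN ∧ xN ≤ 2 * (P.1 + e))
    (hx' : 2 * (Q.1 - a₁ - e₁) + 2 ≤ xS' ∧ xS' ≤ 2 * (Q.1 + e₁)) {i0 j0 : ℕ} (hi0 : i0 < K) (hj0 : j0 < K) {s s' : ℕ}
    (hs : (s : ℤ) ≤ 8 * (K * a)) (hs' : (s' : ℤ) ≤ 8 * (K * a₁)) :
    ∃ L' : List (ℤ × ℤ), Comp L' (fc K (xN, 2 * (P.2 + a + 1)) + (i0 : ℤ) • ((-1, 0) : ℤ × ℤ))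
      (fc K (xS', 2 * (Q.2 - a₁) - 1) + (j0 : ℤ) • ((-1, 0) : ℤ × ℤ)) (1, -1) (-1, 0) (0, 1) (-1, 0) s s' ∧
      ∀ x ∈ L', ∀ m : ℤ, 2 * m + 2 ≤ K → ∀ y, nr m x y → co K y ∈ L := by
  obtain ⟨n, f, hn, hf, hinj, f0, f1, fn, fn1, hmem⟩ := exists_fun h.chL h.ndL h.L1 h.L2
  have inj : ∀ {i j : ℕ}, i ≤ n → j ≤ n → f i = f j → i = j := by
    intro i j h1 h2 h3
    rcases lt_trichotomy i j with h4 | h4 | h4
    · exact absurd h3 (hinj i j h4 h2)
    · exact h4
    · exact absurd h3.symm (hinj j i h4 h1)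
  -- the two boxes are disjoint: there are at least three cells
  have hbP : ∀ {x y : ℤ}, nr b P (bl (x, y)) → nr b₁ Q (bl (x, y)) → False := fun h1 h2 =>
    hPQ (nr_mono (by omega) (nr_trans h1 (nr_symm h2)))
  have hmP : ∀ x : ℤ, 2 * (P.1 - a - e) ≤ x → x ≤ 2 * (P.1 + e) → nr b P (bl (x, 2 * (P.2 + a + 1))) := by
    intro x h1 h2
    rw [nr_iff]
    unfold bl
    simp only
    omega
  have hmQ : ∀ x : ℤ, 2 * (Q.1 - a₁ - e₁) ≤ x → x ≤ 2 * (Q.1 + e₁) → nr b₁ Q (bl (x, 2 * (Q.2 - a₁) - 1)) := by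
    intro x h1 h2
    rw [nr_iff]
    unfold bl
    simp only
    omega
  have hn2 : 2 ≤ n := by
    by_contra hc
    have hn1 : n = 1 := by omega
    rw [hn1] at fn
    rw [f1] at fn
    have h1 := hmP (xN - 1) (by omega) (by omega)
    rw [fn] at h1
    exact hbP h1 (hmQ xS' (by omega) (by omega))
  have hL : ∀ {i : ℕ}, i ≤ n → f i ∈ L := fun {i} hi => (hmem _).2 ⟨i, hi, rfl⟩
  refine ⟨fl K f i0 (K * n - j0 - i0), fine_comp hK hf hinj hn2 ?_ ?_ hi0 hj0 (Or.inl rfl) (Or.inr rfl) ?_ ?_ ?_ ?_ ?_, ?_⟩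
  · rw [f0, f1]
    ext <;> simp [sub_eq_add_neg]
  · rw [fn, fn1]
    ext <;> simp [sub_eq_add_neg]
  · rw [f0]
  · rw [fn]
  · intro i h1 h2 c hc k hk hco
    obtain ⟨k1, k2⟩ := stub_north hK he ha hb hx hi0 hs h1 h2 hc
    rw [hco] at k1 k2
    rcases h.nPL _ (hL hk) k1 with h3 | ⟨h3, h4⟩
    · omega
    · rcases eq_or_ne (f k).1 xN with h5 | h5
      · have := inj hk (Nat.zero_le n) (show f k = f 0 by rw [f0]; exact Prod.ext h5 h3)
        omega
      · have := inj hk (by omega : 1 ≤ n) (show f k = f 1 by rw [f1]; exact Prod.ext (by simp only; omega) h3)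
        omega
  · intro i h1 h2 c hc k hk hco
    obtain ⟨k1, k2⟩ := stub_south hK he₁ ha₁ hb₁ hx' hj0 hs' h1 h2 hc
    rw [hco] at k1 k2
    rcases h.nQL _ (hL hk) k1 with h3 | ⟨h3, h4⟩
    · omega
    · rcases eq_or_ne (f k).1 xS' with h5 | h5
      · have := inj hk le_rfl (show f k = f n by rw [fn]; exact Prod.ext h5 h3)
        omega
      · have := inj hk (by omega : n - 1 ≤ n) (show f k = f (n - 1) by rw [fn1]; exact Prod.ext (by simp only; omega) h3)
        omega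
  · intro i j h1 h2 h3 h4
    exact far_of_box hK hPQ (by omega) (NC_self' _) (NC_self' _) (stub_north hK he ha hb hx hi0 hs h1 h2 (NC_self' _)).1
      (stub_south hK he₁ ha₁ hb₁ hx' hj0 hs' h3 h4 (NC_self' _)).1
  · intro x hx m hm y hy
    obtain ⟨t, t1, t2, rfl⟩ := mem_fl.1 hx
    have ht : t ≤ K * n := by
      have : 2 * K ≤ K * n := by
        have := Nat.mul_le_mul_left K hn2
        omega
      omega
    rcases fp_near (by omega) hf ht hm hy with h1 | ⟨h1, h2⟩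
    · rw [h1]
      exact hL (Nat.div_le_of_le_mul ht)
    · rw [h2]
      exact hL h1

/-- **the fine companion 3**: from the south side of P to the north side of Q -/
theorem Cmp.fineM {P Q : ℤ × ℤ} {a b e a₁ b₁ e₁ T xN xS xN' xS' : ℤ} {F : ℤ × ℤ → Prop} {L M : List (ℤ × ℤ)}
    (h : Cmp P Q a b e a₁ b₁ e₁ T xN xS xN' xS' F L M) {K : ℕ} (hK : 8 ≤ K) (he : 0 ≤ e) (ha : 0 ≤ a) (hb : a + e + 2 ≤ b)
    (he₁ : 0 ≤ e₁) (ha₁ : 0 ≤ a₁) (hb₁ : a₁ + e₁ + 2 ≤ b₁) (hPQ : ¬ nr (4 * (b + b₁)) P Q) (hx : 2 * (P.1 - a - e) + 2 ≤ xS ∧ xS ≤ 2 * (P.1 + e))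
    (hx' : 2 * (Q.1 - a₁ - e₁) + 2 ≤ xN' ∧ xN' ≤ 2 * (Q.1 + e₁)) {i0 j0 : ℕ} (hi0 : i0 < K) (hj0 : j0 < K) {s s' : ℕ}
    (hs : (s : ℤ) ≤ 8 * (K * a)) (hs' : (s' : ℤ) ≤ 8 * (K * a₁)) :
    ∃ M' : List (ℤ × ℤ), Comp M' (fc K (xS, 2 * (P.2 - a) - 1) + (i0 : ℤ) • ((-1, 0) : ℤ × ℤ))
      (fc K (xN', 2 * (Q.2 + a₁ + 1)) + (j0 : ℤ) • ((-1, 0) : ℤ × ℤ)) (0, 1) (-1, 0) (1, -1) (-1, 0) s s' ∧
      ∀ x ∈ M', ∀ m : ℤ, 2 * m + 2 ≤ K → ∀ y, nr m x y → co K y ∈ M := by
  have hrev : M.reverse.IsChain adj := by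
    rw [List.isChain_reverse]
    exact h.chM.imp fun _ _ h => adj_comm h
  obtain ⟨n, f, hn, hf, hinj, f0, f1, fn, fn1, hmem⟩ := exists_fun hrev (List.nodup_reverse.2 h.ndM) h.M2
    (by rw [List.reverse_reverse]; exact h.M1)
  have inj : ∀ {i j : ℕ}, i ≤ n → j ≤ n → f i = f j → i = j := by
    intro i j h1 h2 h3
    rcases lt_trichotomy i j with h4 | h4 | h4
    · exact absurd h3 (hinj i j h4 h2)
    · exact h4
    · exact absurd h3.symm (hinj j i h4 h1)
  have hbP : ∀ {x y : ℤ}, nr b P (bl (x, y)) → nr b₁ Q (bl (x, y)) → False := fun h1 h2 =>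
    hPQ (nr_mono (by omega) (nr_trans h1 (nr_symm h2)))
  have hmP : ∀ x : ℤ, 2 * (P.1 - a - e) ≤ x → x ≤ 2 * (P.1 + e) → nr b P (bl (x, 2 * (P.2 - a) - 1)) := by
    intro x h1 h2
    rw [nr_iff]
    unfold bl
    simp only
    omega
  have hmQ : ∀ x : ℤ, 2 * (Q.1 - a₁ - e₁) ≤ x → x ≤ 2 * (Q.1 + e₁) → nr b₁ Q (bl (x, 2 * (Q.2 + a₁ + 1))) := by
    intro x h1 h2
    rw [nr_iff]
    unfold bl
    simp only
    omega
  have hn2 : 2 ≤ n := by
    by_contra hc
    have hn1 : n = 1 := by omega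
    rw [hn1] at fn
    rw [f1] at fn
    have h1 := hmP (xS - 1) (by omega) (by omega)
    rw [fn] at h1
    exact hbP h1 (hmQ xN' (by omega) (by omega))
  have hL : ∀ {i : ℕ}, i ≤ n → f i ∈ M := fun {i} hi => List.mem_reverse.1 ((hmem _).2 ⟨i, hi, rfl⟩)
  refine ⟨fl K f i0 (K * n - j0 - i0), fine_comp hK hf hinj hn2 ?_ ?_ hi0 hj0 (Or.inr rfl) (Or.inl rfl) ?_ ?_ ?_ ?_ ?_, ?_⟩
  · rw [f0, f1]
    ext <;> simp [sub_eq_add_neg]
  · rw [fn, fn1]
    ext <;> simp [sub_eq_add_neg]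
  · rw [f0]
  · rw [fn]
  · intro i h1 h2 c hc k hk hco
    obtain ⟨k1, k2⟩ := stub_south hK he ha hb hx hi0 hs h1 h2 hc
    rw [hco] at k1 k2
    rcases h.nPM _ (hL hk) k1 with h3 | ⟨h3, h4⟩
    · omega
    · rcases eq_or_ne (f k).1 xS with h5 | h5
      · have := inj hk (Nat.zero_le n) (show f k = f 0 by rw [f0]; exact Prod.ext h5 h3)
        omega
      · have := inj hk (by omega : 1 ≤ n) (show f k = f 1 by rw [f1]; exact Prod.ext (by simp only; omega) h3)
        omega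
  · intro i h1 h2 c hc k hk hco
    obtain ⟨k1, k2⟩ := stub_north hK he₁ ha₁ hb₁ hx' hj0 hs' h1 h2 hc
    rw [hco] at k1 k2
    rcases h.nQM _ (hL hk) k1 with h3 | ⟨h3, h4⟩
    · omega
    · rcases eq_or_ne (f k).1 xN' with h5 | h5
      · have := inj hk le_rfl (show f k = f n by rw [fn]; exact Prod.ext h5 h3)
        omega
      · have := inj hk (by omega : n - 1 ≤ n) (show f k = f (n - 1) by rw [fn1]; exact Prod.ext (by simp only; omega) h3)
        omega
  · intro i j h1 h2 h3 h4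
    exact far_of_box hK hPQ (by omega) (NC_self' _) (NC_self' _) (stub_south hK he ha hb hx hi0 hs h1 h2 (NC_self' _)).1
      (stub_north hK he₁ ha₁ hb₁ hx' hj0 hs' h3 h4 (NC_self' _)).1
  · intro x hx m hm y hy
    obtain ⟨t, t1, t2, rfl⟩ := mem_fl.1 hx
    have ht : t ≤ K * n := by
      have : 2 * K ≤ K * n := by
        have := Nat.mul_le_mul_left K hn2
        omega
      omega
    rcases fp_near (by omega) hf ht hm hy with h1 | ⟨h1, h2⟩
    · rw [h1]
      exact hL (Nat.div_le_of_le_mul ht)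
    · rw [h2]
      exact hL h1

end F3L

end ROT

end HexObs
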