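import Pool.Agent.ROT.F3Cls

/-!
# ROT, block F3, row GEN (helper36): the choice of generic data

* `nest w l F` : nested filter: one coordinate of the list `l` after the other, the filter `w i g` of the coordinate `i` may depend on the
  earlier coordinates; `nest_neBot`, `nest_cif`, **`nest_tri`** : generic values of one coordinate, given the earlier ones;
* `Tf`, `Ef`, `Fd` : the coordinates of `Tp`, `En`, `Prm`; `get`, `prmOf` : coordinates = fields except
  `κs := κs - w`, `shw := s.hw - s.e`, `slen := s.len - s.e`, `sbn := s.bn + s.e`, `kc := kc - (f.l + f.m)`;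
* `ord` : THE ORDER of the coordinates, `Fd.rk`; `Agr f P P'` : the same values of the coordinates before `f`;
* `Bx` : windows of the coordinates (the last one, `W.t0`, is in `(0, hi]` and at most `T P`, `T` a function of the other coordinates);
  `gP z B : Filter Prm` : nested `for almost all values in the window`; `gP_neBot`, `gP_countable`;
* **`gP_f`, `gP_f_of`** : off a null set which is given by the earlier coordinates (the usual form for the owners);
* **`gP_tri`** : a property which holds for almost all values of one coordinate, given the earlier ones, for all values of the later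
  ones, holds eventually; **`gP_tri_of`** (given an eventual property of the earlier ones), `gP_tri2` (almost all pairs of values of two
  coordinates), `gP_win`, **`gP_ex`**, **`gP_ext`** (with `W.t0` below a positive function of all the other coordinates).
-/

set_option autoImplicit false

open MeasureTheory Filter Set

namespace Pool.Agent.ROT.F3.Gn

/-! ### 1. nested filters -/

section nest

variable {ι : Type*} [DecidableEq ι]

/-- nested filter -/
def nest (w : ι → (ι → ℝ) → Filter ℝ) : List ι → Filter (ι → ℝ) → Filter (ι → ℝ)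
  | [], F => F
  | i :: l, F => nest w l (F.bind fun g => (w i g).map fun a => Function.update g i a)

lemma nest_append (w : ι → (ι → ℝ) → Filter ℝ) (l1 l2 : List ι) (F : Filter (ι → ℝ)) :
    nest w (l1 ++ l2) F = nest w l2 (nest w l1 F) := by
  induction l1 generalizing F with
  | nil => rfl
  | cons i l ih => exact ih _

lemma ev_bind {w : (ι → ℝ) → Filter ℝ} {F : Filter (ι → ℝ)} {i : ι} {Q : (ι → ℝ) → Prop} :
    (∀ᶠ g in (F.bind fun g => (w g).map fun a => Function.update g i a), Q g) ↔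
      ∀ᶠ g in F, ∀ᶠ a in w g, Q (Function.update g i a) := by
  rw [Filter.eventually_bind]
  exact eventually_congr (Eventually.of_forall fun g => Filter.eventually_map)

/-- a property which does not see the coordinates of `l` -/
lemma nest_persist {w : ι → (ι → ℝ) → Filter ℝ} {l : List ι} {F : Filter (ι → ℝ)} {R : (ι → ℝ) → Prop}
    (hR : ∀ g, R g → ∀ j ∈ l, ∀ a, R (Function.update g j a)) (h : ∀ᶠ g in F, R g) : ∀ᶠ g in nest w l F, R g := by
  induction l generalizing F with
  | nil => exact h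
  | cons i l ih =>
    refine ih (fun g hg j hj a => hR g hg j (List.mem_cons_of_mem i hj) a) ?_
    rw [ev_bind]
    exact h.mono fun g hg => Eventually.of_forall fun a => hR g hg i List.mem_cons_self a

lemma nest_neBot {w : ι → (ι → ℝ) → Filter ℝ} (hw : ∀ i g, (w i g).NeBot) (l : List ι) {F : Filter (ι → ℝ)} (hF : F.NeBot) :
    (nest w l F).NeBot := by
  induction l generalizing F with
  | nil => exact hF
  | cons i l ih =>
    refine ih ?_
    rw [← Filter.frequently_true_iff_neBot] at hF ⊢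
    rw [Filter.Frequently] at hF ⊢
    intro h
    rw [ev_bind] at h
    refine hF (h.mono fun g hg => ?_)
    have := hw i g
    exact absurd hg (by
      intro hc
      obtain ⟨a, ha⟩ := hc.exists
      exact ha trivial)

lemma nest_countable {w : ι → (ι → ℝ) → Filter ℝ} (hw : ∀ i g, CountableInterFilter (w i g)) (l : List ι) {F : Filter (ι → ℝ)}
    (hF : CountableInterFilter F) : CountableInterFilter (nest w l F) := by
  induction l generalizing F with
  | nil => exact hF
  | cons i l ih =>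
    refine ih ⟨fun S hS hmem => ?_⟩
    have h1 : ∀ s ∈ S, ∀ᶠ g in F, ∀ᶠ a in w i g, Function.update g i a ∈ s := fun s hs => ev_bind.1 (hmem s hs)
    have h2 : ∀ᶠ g in F, ∀ s ∈ S, ∀ᶠ a in w i g, Function.update g i a ∈ s := (eventually_countable_ball hS).2 h1
    refine ev_bind.2 (h2.mono fun g hg => ?_)
    have := hw i g
    have h3 := (eventually_countable_ball hS).2 hg
    exact h3.mono fun a ha => Set.mem_sInter.2 ha

/-- **generic values of one coordinate, given the earlier ones** -/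
theorem nest_tri {w : ι → (ι → ℝ) → Filter ℝ} {l : List ι} (hl : l.Nodup) {F : Filter (ι → ℝ)} {i : ι} (hi : i ∈ l)
    {Q : (ι → ℝ) → Prop}
    (h : ∀ g : ι → ℝ, ∀ᶠ a in w i g, ∀ g' : ι → ℝ, (∀ j, l.idxOf j < l.idxOf i → g' j = g j) → g' i = a → Q g') :
    ∀ᶠ g in nest w l F, Q g := by
  obtain ⟨l1, l2, rfl⟩ : ∃ l1 l2 : List ι, l = l1 ++ i :: l2 := List.append_of_mem hi
  rw [List.nodup_append] at hl
  obtain ⟨n1, n2, n3⟩ := hl
  have hi1 : i ∉ l1 := fun h => n3 _ h _ List.mem_cons_self rfl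
  rw [List.nodup_cons] at n2
  have hix : (l1 ++ i :: l2).idxOf i = l1.length := by
    rw [List.idxOf_append_of_notMem hi1, List.idxOf_cons_self, add_zero]
  have hlt : ∀ j, (l1 ++ i :: l2).idxOf j < (l1 ++ i :: l2).idxOf i → j ∈ l1 := by
    intro j hj
    by_contra hc
    rw [hix, List.idxOf_append_of_notMem hc] at hj
    omega
  have key : ∀ᶠ g in nest w l2 ((nest w l1 F).bind fun g => (w i g).map fun a => Function.update g i a),
      ∀ g' : ι → ℝ, (∀ j ∈ l1, g' j = g j) → g' i = g i → Q g' := by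
    refine nest_persist (fun g hg j hj a g' h1 h2 => hg g' (fun j' hj' => ?_) ?_) ?_
    · rw [h1 j' hj', Function.update_of_ne]
      rintro rfl
      exact n3 _ hj' _ (List.mem_cons_of_mem i hj) rfl
    · rw [h2, Function.update_of_ne]
      rintro rfl
      exact n2.1 hj
    · rw [ev_bind]
      refine Eventually.of_forall fun g => (h g).mono fun a ha g' h1 h2 => ha g' (fun j hj => ?_) ?_
      · have hj1 := hlt j hj
        rw [h1 j hj1, Function.update_of_ne]
        rintro rfl
        exact hi1 hj1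
      · rw [h2, Function.update_self]
  rw [nest_append]
  exact key.mono fun g hg => hg g (fun _ _ => rfl) rfl

end nest

/-! ### 2. the fields -/

/-- the fields of `Tp` -/
inductive Tf
  | l | r | m | th | r2 | κ1 | rg | r0 | κ | c | cs | e | w | κs | la | lb
  deriving DecidableEq

/-- the scalar fields of `En` -/
inductive Ef
  | n (t : Tf) | f (t : Tf) | rk | κk | ek | lk | kr | kc | se | shw | slen | sbn
  deriving DecidableEq

/-- the scalar fields of `Prm` (without `Wc.t0`) -/
inductive Fd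
  | p (e : Ef) | q (e : Ef) | D0 | D1 | t0 | t1 | cD0 | cD1 | ct1
  deriving DecidableEq

/-- the value of the field -/
def Tf.get (P : Tp) : Tf → ℝ
  | .l => P.l | .r => P.r | .m => P.m | .th => P.th | .r2 => P.r2 | .κ1 => P.κ1 | .rg => P.rg | .r0 => P.r0 | .κ => P.κ
  | .c => P.c | .cs => P.cs | .e => P.e | .w => P.w | .κs => P.κs - P.w | .la => P.la | .lb => P.lb

/-- the value of the field -/
def Ef.get (E : En) : Ef → ℝ
  | .n t => t.get E.n | .f t => t.get E.f | .rk => E.rk | .κk => E.κk | .ek => E.ek | .lk => E.lk | .kr => E.kr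
  | .kc => E.kc - (E.f.l + E.f.m) | .se => E.s.e | .shw => E.s.hw - E.s.e | .slen => E.s.len - E.s.e | .sbn => E.s.bn + E.s.e

/-- the value of the field -/
def Fd.get (P : Prm) : Fd → ℝ
  | .p e => e.get P.p | .q e => e.get P.q | .D0 => P.W.D0 | .D1 => P.W.D1 | .t0 => P.W.t0 | .t1 => P.W.t1
  | .cD0 => P.Wc.D0 | .cD1 => P.Wc.D1 | .ct1 => P.Wc.t1

/-- the data with given fields -/
def tpOf (g : Tf → ℝ) : Tp :=
  ⟨g .l, g .r, g .m, g .th, g .r2, g .κ1, g .rg, g .r0, g .κ, g .c, g .cs, g .e, g .w, g .κs + g .w, g .la, g .lb⟩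

/-- the data with given fields -/
def enOf (g : Ef → ℝ) : En where
  n := tpOf fun t => g (.n t)
  f := tpOf fun t => g (.f t)
  rk := g .rk
  κk := g .κk
  ek := g .ek
  lk := g .lk
  kr := g .kr
  kc := g .kc + (g (.f .l) + g (.f .m))
  s := ⟨g .se, g .shw + g .se, g .slen + g .se, g .sbn - g .se⟩

/-- the data with given fields -/
def prmOf (z : ℂ) (g : Fd → ℝ) : Prm where
  p := enOf fun e => g (.p e)
  q := enOf fun e => g (.q e)
  W := ⟨g .D0, g .D1, g .t0, g .t1⟩
  Wc := ⟨g .cD0, g .cD1, 0, g .ct1⟩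
  u := z

lemma get_tpOf (g : Tf → ℝ) (t : Tf) : t.get (tpOf g) = g t := by
  cases t
  case κs => show g .κs + g .w - g .w = g .κs; ring
  all_goals rfl

lemma get_enOf (g : Ef → ℝ) (e : Ef) : e.get (enOf g) = g e := by
  cases e
  case n t => exact get_tpOf _ t
  case f t => exact get_tpOf _ t
  case kc => show g .kc + (g (.f .l) + g (.f .m)) - (g (.f .l) + g (.f .m)) = g .kc; ring
  case shw => show g .shw + g .se - g .se = g .shw; ring
  case slen => show g .slen + g .se - g .se = g .slen; ring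
  case sbn => show g .sbn - g .se + g .se = g .sbn; ring
  all_goals rfl

/-- the coordinates of `prmOf` -/
lemma get_of (z : ℂ) (g : Fd → ℝ) (f : Fd) : f.get (prmOf z g) = g f := by
  cases f
  case p e => exact get_enOf _ e
  case q e => exact get_enOf _ e
  all_goals rfl

/-! ### 3. the order -/

/-- **THE ORDER of the coordinates**: structural numbers and windows of the gates, windows of the ends; per gate the level, the width, the
gate position, the window; the thresholds of the gates; the pieces between the gates; the levels of the two windows -/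
def ord : List Fd := [
  .p (.n .cs), .p (.n .c), .p (.n .r0), .p (.n .κs),
  .q (.n .cs), .q (.n .c), .q (.n .r0), .q (.n .κs),
  .p (.f .cs), .p (.f .c), .p (.f .r0), .p (.f .κs),
  .q (.f .cs), .q (.f .c), .q (.f .r0), .q (.f .κs),
  .p .shw, .p .slen, .p .sbn, .p .kc,
  .q .shw, .q .slen, .q .sbn, .q .kc,
  .p (.n .l), .p (.n .m), .p (.n .rg), .p (.n .th),
  .q (.n .l), .q (.n .m), .q (.n .rg), .q (.n .th),
  .p (.f .l), .p (.f .m), .p (.f .rg), .p (.f .th),
  .q (.f .l), .q (.f .m), .q (.f .rg), .q (.f .th),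
  .p (.n .r), .p (.n .r2), .p (.n .e), .p (.n .κ1), .p (.n .κ), .p (.n .w), .p (.n .la), .p (.n .lb),
  .q (.n .r), .q (.n .r2), .q (.n .e), .q (.n .κ1), .q (.n .κ), .q (.n .w), .q (.n .la), .q (.n .lb),
  .p (.f .r), .p (.f .r2), .p (.f .e), .p (.f .κ1), .p (.f .κ), .p (.f .w), .p (.f .la), .p (.f .lb),
  .q (.f .r), .q (.f .r2), .q (.f .e), .q (.f .κ1), .q (.f .κ), .q (.f .w), .q (.f .la), .q (.f .lb),
  .p .rk, .p .κk, .p .ek, .p .lk, .p .kr, .p .se,
  .q .rk, .q .κk, .q .ek, .q .lk, .q .kr, .q .se,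
  .D0, .D1, .t1, .cD0, .cD1, .ct1, .t0]

/-- the number of the coordinate in the order -/
def Fd.rk (f : Fd) : ℕ := ord.idxOf f

lemma ord_mem (f : Fd) : f ∈ ord := by
  cases f
  case p e => cases e <;> first | decide +kernel | (rename_i t; cases t <;> decide +kernel)
  case q e => cases e <;> first | decide +kernel | (rename_i t; cases t <;> decide +kernel)
  all_goals decide +kernel

lemma ord_nodup : ord.Nodup := by decide +kernel

/-- use: `rk_lt (by decide +kernel)` -/
lemma rk_lt {f' f : Fd} (h : ord.idxOf f' < ord.idxOf f) : f'.rk < f.rk := h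

lemma ord_last : ∃ l : List Fd, ord = l ++ [.t0] := ⟨ord.dropLast, by decide +kernel⟩

/-- `W.t0` is the last one -/
lemma rk_t0 {f : Fd} (hf : f ≠ .t0) : f.rk < Fd.t0.rk := by
  have key : ∀ f ∈ ord, f ≠ Fd.t0 → ord.idxOf f < ord.idxOf Fd.t0 := by decide +kernel
  exact key f (ord_mem f) hf

lemma rk_inj {f' f : Fd} (h : f'.rk = f.rk) : f' = f := (List.idxOf_inj (ord_mem f')).1 h

lemma idx_of_rk {f' f : Fd} (h : f'.rk < f.rk) : ord.idxOf f' < ord.idxOf f := h

attribute [irreducible] ord Fd.rk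

/-- the same values of the coordinates before `f` -/
structure Agr (f : Fd) (P P' : Prm) : Prop where
  u : P'.u = P.u
  t0 : P'.Wc.t0 = P.Wc.t0
  g : ∀ f' : Fd, f'.rk < f.rk → f'.get P' = f'.get P

lemma Agr.trans {f : Fd} {P P' P'' : Prm} (h : Agr f P P') (h' : Agr f P' P'') : Agr f P P'' :=
  ⟨h'.u.trans h.u, h'.t0.trans h.t0, fun f' hf => (h'.g f' hf).trans (h.g f' hf)⟩

lemma Agr.mono {f f1 : Fd} {P P' : Prm} (h : Agr f P P') (h1 : f1.rk ≤ f.rk) : Agr f1 P P' :=
  ⟨h.u, h.t0, fun f' hf => h.g f' (lt_of_lt_of_le hf h1)⟩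

lemma Agr.symm {f : Fd} {P P' : Prm} (h : Agr f P P') : Agr f P' P :=
  ⟨h.u.symm, h.t0.symm, fun f' hf => (h.g f' hf).symm⟩

/-! ### 4. the filter -/

/-- the data with `W.t0 = 0` (`t0` is the LAST coordinate) -/
def _root_.Pool.Agent.ROT.F3.Prm.z0 (P : Prm) : Prm := { P with W := { P.W with t0 := 0 } }

/-- windows of the coordinates; the last one, `W.t0`, is in `(0, hi .t0]` and at most `T P`, where `T` may use all the other
coordinates (an option: `T = 1`) -/
structure Bx where
  lo : Fd → ℝ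
  hi : Fd → ℝ
  lt : ∀ f : Fd, lo f < hi f
  z0 : lo .t0 = 0
  T : Prm → ℝ
  T0 : ∀ P : Prm, 0 < T P

/-- `P` is in the windows -/
structure Bx.In (B : Bx) (z : ℂ) (P : Prm) : Prop where
  u : P.u = z
  c0 : P.Wc.t0 = 0
  g : ∀ f : Fd, B.lo f ≤ f.get P ∧ f.get P ≤ B.hi f
  t0 : 0 < P.W.t0
  T : P.W.t0 ≤ B.T P.z0

/-- the upper end of a coordinate -/
noncomputable def Bx.top (B : Bx) (z : ℂ) (f : Fd) (g : Fd → ℝ) : ℝ :=
  if f = .t0 then min (B.hi f) (B.T (prmOf z g).z0) else B.hi f

lemma Bx.top_le (B : Bx) (z : ℂ) (f : Fd) (g : Fd → ℝ) : B.top z f g ≤ B.hi f := by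
  unfold Bx.top
  split_ifs
  · exact min_le_left _ _
  · exact le_rfl

lemma Bx.lt_top (B : Bx) (z : ℂ) (f : Fd) (g : Fd → ℝ) : B.lo f < B.top z f g := by
  unfold Bx.top
  split_ifs with h
  · refine lt_min (B.lt f) ?_
    rw [h, B.z0]
    exact B.T0 _
  · exact B.lt f

/-- the filter of one coordinate -/
noncomputable def Bx.w (B : Bx) (z : ℂ) (f : Fd) (g : Fd → ℝ) : Filter ℝ := ae (volume.restrict (Icc (B.lo f) (B.top z f g)))

lemma Bx.w_le (B : Bx) (z : ℂ) (f : Fd) (g : Fd → ℝ) : B.w z f g ≤ ae volume := ae_mono Measure.restrict_le_self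

lemma Bx.w_mem (B : Bx) (z : ℂ) (f : Fd) (g : Fd → ℝ) : ∀ᶠ a in B.w z f g, B.lo f ≤ a ∧ a ≤ B.top z f g :=
  ae_restrict_mem measurableSet_Icc

lemma Bx.w_neBot (B : Bx) (z : ℂ) (f : Fd) (g : Fd → ℝ) : (B.w z f g).NeBot := by
  unfold Bx.w
  rw [ae_neBot, Ne, Measure.restrict_eq_zero, Real.volume_Icc, ENNReal.ofReal_eq_zero]
  have := B.lt_top z f g
  intro h
  linarith

instance (B : Bx) (z : ℂ) (f : Fd) (g : Fd → ℝ) : CountableInterFilter (B.w z f g) := by
  unfold Bx.w
  infer_instance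

lemma z0_of (z : ℂ) (g : Fd → ℝ) : (prmOf z g).z0 = prmOf z (Function.update g .t0 0) := rfl

/-- all coordinates, one after the other -/
noncomputable def gN (z : ℂ) (B : Bx) : Filter (Fd → ℝ) := nest (B.w z) ord (pure fun _ => 0)

/-- **generic data** -/
noncomputable def gP (z : ℂ) (B : Bx) : Filter Prm := (gN z B).map (prmOf z)

variable {z : ℂ} {B : Bx}

instance gP_neBot : (gP z B).NeBot := by
  have h : (gN z B).NeBot := nest_neBot (fun f g => B.w_neBot z f g) ord Filter.pure_neBot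
  exact h.map _

instance gP_countable : CountableInterFilter (gP z B) := by
  have h : CountableInterFilter (gN z B) := by
    refine nest_countable (fun f g => inferInstance) ord ⟨fun S _ h => ?_⟩
    rw [Filter.mem_pure, Set.mem_sInter]
    exact fun s hs => Filter.mem_pure.1 (h s hs)
  unfold gP
  infer_instance

/-- the first form of the coordinates -/
lemma gN_tri (f : Fd) {Q : (Fd → ℝ) → Prop}
    (h : ∀ g : Fd → ℝ, ∀ᶠ a in B.w z f g, ∀ g' : Fd → ℝ, (∀ f' : Fd, f'.rk < f.rk → g' f' = g f') → g' f = a → Q g') :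
    ∀ᶠ g in gN z B, Q g :=
  nest_tri ord_nodup (ord_mem f) fun g => (h g).mono fun _ ha g' h1 h2 => ha g' (fun f' hf' => h1 f' (idx_of_rk hf')) h2

/-- the data without `W.t0` -/
lemma agr_z0 (P : Prm) : Agr .t0 P.z0 P := by
  refine ⟨rfl, rfl, fun f hf => ?_⟩
  cases f
  case t0 => exact absurd hf (lt_irrefl _)
  all_goals rfl

lemma z0_congr {g g' : Fd → ℝ} (h : ∀ f : Fd, f.rk < Fd.t0.rk → g' f = g f) : (prmOf z g').z0 = (prmOf z g).z0 := by
  have e : Function.update g' Fd.t0 0 = Function.update g Fd.t0 0 := by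
    funext f
    by_cases hf : f = .t0
    · rw [hf, Function.update_self, Function.update_self]
    · rw [Function.update_of_ne hf, Function.update_of_ne hf, h f (rk_t0 hf)]
  rw [z0_of, z0_of, e]

/-- all coordinates are in the windows -/
theorem gP_win : ∀ᶠ P in gP z B, B.In z P := by
  have h : ∀ f : Fd, ∀ᶠ g in gN z B, B.lo f ≤ g f ∧ g f ≤ B.hi f := fun f =>
    gN_tri f fun g => (B.w_mem z f g).mono fun a ha g' _ h2 => by
      rw [h2]
      exact ⟨ha.1, ha.2.trans (B.top_le z f g)⟩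
  have ht : ∀ᶠ g in gN z B, g .t0 ≠ 0 := by
    refine gN_tri .t0 fun g => ?_
    have h1 : ∀ᵐ a : ℝ, a ∉ ({0} : Set ℝ) := (Set.countable_singleton 0).ae_notMem volume
    exact (h1.filter_mono (B.w_le z _ _)).mono fun a ha g' _ h2 h3 => ha (by rw [Set.mem_singleton_iff, ← h2, h3])
  have hT : ∀ᶠ g in gN z B, g .t0 ≤ B.T (prmOf z g).z0 := by
    refine gN_tri .t0 fun g => (B.w_mem z .t0 g).mono fun a ha g' h1 h2 => ?_
    rw [h2, z0_congr h1]
    refine ha.2.trans ?_
    unfold Bx.top
    rw [if_pos rfl]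
    exact min_le_right _ _
  have h2 : ∀ᶠ g in gN z B, ∀ f ∈ ord, B.lo f ≤ g f ∧ g f ≤ B.hi f := by
    have key : ∀ l : List Fd, ∀ᶠ g in gN z B, ∀ f ∈ l, B.lo f ≤ g f ∧ g f ≤ B.hi f := by
      intro l
      induction l with
      | nil => exact Eventually.of_forall fun g f hf => absurd hf (List.not_mem_nil)
      | cons f l ih =>
        filter_upwards [ih, h f] with g h3 h4 f' hf'
        rcases List.mem_cons.1 hf' with rfl | h5
        · exact h4
        · exact h3 f' h5
    exact key ord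
  refine Filter.eventually_map.2 ((h2.and (ht.and hT)).mono fun g hg => ⟨rfl, rfl, fun f => ?_, ?_, hg.2.2⟩)
  · rw [get_of]
    exact hg.1 f (ord_mem f)
  · have h3 := (hg.1 .t0 (ord_mem _)).1
    rw [B.z0] at h3
    exact lt_of_le_of_ne h3 (Ne.symm hg.2.1)

/-- **generic values of one coordinate, given the earlier ones** -/
theorem gP_tri (f : Fd) {Q : Prm → Prop}
    (h : ∀ P : Prm, P.u = z → P.Wc.t0 = 0 → ∀ᵐ a : ℝ, ∀ P' : Prm, Agr f P P' → f.get P' = a → B.In z P' → Q P') :
    ∀ᶠ P in gP z B, Q P := by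
  have h1 : ∀ᶠ g in gN z B, B.In z (prmOf z g) → Q (prmOf z g) := by
    refine gN_tri f fun g => ?_
    refine ((h (prmOf z g) rfl rfl).filter_mono (B.w_le z f g)).mono fun a ha g' h2 h3 h4 => ?_
    refine ha (prmOf z g') ⟨rfl, rfl, fun f' hf' => ?_⟩ ?_ h4
    · rw [get_of, get_of]
      exact h2 f' hf'
    · rw [get_of, h3]
  have h2 : ∀ᶠ P in gP z B, B.In z P → Q P := Filter.eventually_map.2 h1
  exact (h2.and gP_win).mono fun P hP => hP.1 hP.2

/-- **generic values of one coordinate**: off a null set which is given by the EARLIER coordinates of good data `P`; holds for all data in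
the windows with the same earlier coordinates -/
theorem gP_f (f : Fd) {Q : Prm → Prop}
    (h : ∀ P : Prm, B.In z P → ∃ E : Set ℝ, volume E = 0 ∧ ∀ P' : Prm, B.In z P' → Agr f P P' → f.get P' ∉ E → Q P') :
    ∀ᶠ P in gP z B, Q P := by
  refine gP_tri f fun P _ _ => ?_
  by_cases hc : ∃ P0 : Prm, B.In z P0 ∧ Agr f P P0
  · obtain ⟨P0, h0, hA⟩ := hc
    obtain ⟨E, hE, h1⟩ := h P0 h0
    exact (measure_eq_zero_iff_ae_notMem.1 hE).mono fun a ha P' h2 h3 h4 => h1 P' h4 (hA.symm.trans h2) (by rwa [h3])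
  · exact Eventually.of_forall fun a P' h2 _ h4 => absurd ⟨P', h4, h2⟩ hc

/-- the same, given an eventual property `R` of the earlier coordinates -/
theorem gP_f_of (f : Fd) {R Q : Prm → Prop} (hR : ∀ᶠ P in gP z B, R P) (hRe : ∀ P P' : Prm, Agr f P P' → R P' → R P)
    (h : ∀ P : Prm, B.In z P → R P → ∃ E : Set ℝ, volume E = 0 ∧ ∀ P' : Prm, B.In z P' → Agr f P P' → f.get P' ∉ E → Q P') :
    ∀ᶠ P in gP z B, Q P := by
  have h1 : ∀ᶠ P in gP z B, R P → Q P := by
    refine gP_f f fun P hP => ?_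
    by_cases hP2 : R P
    · obtain ⟨E, hE, h2⟩ := h P hP hP2
      exact ⟨E, hE, fun P' h3 h4 h5 _ => h2 P' h3 h4 h5⟩
    · exact ⟨∅, measure_empty, fun P' _ h4 _ h5 => absurd (hRe P P' h4 h5) hP2⟩
  exact (h1.and hR).mono fun P hP => hP.1 hP.2

/-- **generic values of one coordinate, given an eventual property `R` of the earlier ones** -/
theorem gP_tri_of (f : Fd) {R Q : Prm → Prop} (hR : ∀ᶠ P in gP z B, R P) (hRe : ∀ P P' : Prm, Agr f P P' → R P' → R P)
    (h : ∀ P : Prm, P.u = z → P.Wc.t0 = 0 → R P → ∀ᵐ a : ℝ, ∀ P' : Prm, Agr f P P' → f.get P' = a → B.In z P' → Q P') :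
    ∀ᶠ P in gP z B, Q P := by
  have h1 : ∀ᶠ P in gP z B, R P → Q P := by
    refine gP_tri f fun P hu ht => ?_
    by_cases hP : R P
    · exact (h P hu ht hP).mono fun a ha P' h2 h3 h4 _ => ha P' h2 h3 h4
    · exact Eventually.of_forall fun a P' h2 _ _ h5 => absurd (hRe P P' h2 h5) hP
  exact (h1.and hR).mono fun P hP => hP.1 hP.2

/-- **almost all pairs of values of two coordinates**, given the coordinates before the first one, for all values of the others -/
theorem gP_tri2 {f1 f2 : Fd} (h12 : f1.rk < f2.rk) {Q : Prm → Prop}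
    (h : ∀ P : Prm, P.u = z → P.Wc.t0 = 0 → ∀ᵐ x : ℝ × ℝ ∂(volume : Measure ℝ).prod volume, ∀ P' : Prm, Agr f1 P P' →
      f1.get P' = x.1 → f2.get P' = x.2 → B.In z P' → Q P') : ∀ᶠ P in gP z B, Q P := by
  refine gP_tri_of f2 (R := fun P => ∀ᵐ b : ℝ, ∀ P' : Prm, Agr f1 P P' → f1.get P' = f1.get P → f2.get P' = b → B.In z P' → Q P')
    ?_ ?_ ?_
  · refine gP_tri f1 fun P hu ht => ?_
    have h1 := Measure.ae_ae_of_ae_prod (h P hu ht)
    refine h1.mono fun a ha P' h2 h3 _ => ha.mono fun b hb P'' h4 h5 h6 h7 => ?_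
    exact hb P'' (h2.trans h4) (h5.trans h3) h6 h7
  · intro P P' hA hP'
    have e : f1.get P' = f1.get P := hA.g f1 h12
    refine hP'.mono fun b hb P'' h4 h5 h6 h7 => hb P'' ((hA.mono h12.le).symm.trans h4) (h5.trans e.symm) h6 h7
  · intro P _ _ hP
    exact hP.mono fun b hb P' h2 h3 h4 => hb P' (h2.mono h12.le) (h2.g f1 h12) h3 h4

/-- a countable exceptional set -/
lemma ae_of_countable {E : Set ℝ} (hE : E.Countable) {Q : ℝ → Prop} (h : ∀ a, a ∉ E → Q a) : ∀ᵐ a : ℝ, Q a :=
  (hE.ae_notMem volume).mono h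

/-- a null exceptional set -/
lemma ae_of_null {E : Set ℝ} (hE : volume E = 0) {Q : ℝ → Prop} (h : ∀ a, a ∉ E → Q a) : ∀ᵐ a : ℝ, Q a :=
  (measure_eq_zero_iff_ae_notMem.1 hE).mono h

/-- **existence** -/
theorem gP_ex {Q : Prm → Prop} (h : ∀ᶠ P in gP z B, Q P) : ∃ P : Prm, B.In z P ∧ Q P :=
  (gP_win.and h).exists

/-- **existence, with `W.t0` at most `ts`**, a positive function of all the other coordinates -/
theorem gP_ext {Q : Prm → Prop} (h : ∀ᶠ P in gP z B, Q P) {ts : Prm → ℝ} (h0 : ∀ P, 0 < ts P) :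
    ∃ P : Prm, B.In z P ∧ Q P ∧ P.W.t0 ≤ ts P.z0 := by
  have h1 : ∀ᶠ g in gN z B, B.In z (prmOf z g) ∧ Q (prmOf z g) := Filter.eventually_map.1 (gP_win.and h)
  unfold gN at h1
  obtain ⟨l, hl⟩ := ord_last
  rw [hl, nest_append] at h1
  have h2 := ev_bind.1 h1
  have h3 : (nest (B.w z) l (pure fun _ => 0)).NeBot := nest_neBot (fun f g => B.w_neBot z f g) l Filter.pure_neBot
  obtain ⟨g, hg⟩ := h2.exists
  have hb := B.lt_top z .t0 g
  rw [B.z0] at hb
  obtain ⟨s, hs⟩ : ∃ s : ℝ, s = min (B.top z .t0 g) (ts (prmOf z g).z0) := ⟨_, rfl⟩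
  have hs0 : 0 < s := by
    rw [hs]
    exact lt_min hb (h0 _)
  have h4 : ∀ᵐ a ∂(volume.restrict (Icc 0 s)), B.In z (prmOf z (Function.update g .t0 a)) ∧ Q (prmOf z (Function.update g .t0 a)) := by
    refine hg.filter_mono (ae_mono (Measure.restrict_mono (Icc_subset_Icc ?_ ?_) le_rfl))
    · rw [B.z0]
    · rw [hs]
      exact min_le_left _ _
  have h5 : (ae (volume.restrict (Icc 0 s))).NeBot := by
    rw [ae_neBot, Ne, Measure.restrict_eq_zero, Real.volume_Icc, ENNReal.ofReal_eq_zero]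
    intro h
    linarith
  obtain ⟨a, ha1, ha2⟩ := (h4.and (ae_restrict_mem measurableSet_Icc)).exists
  refine ⟨_, ha1.1, ha1.2, ?_⟩
  have e : (prmOf z (Function.update g .t0 a)).z0 = (prmOf z g).z0 := by
    rw [z0_of, z0_of, Function.update_idem]
  rw [e]
  have e2 : (prmOf z (Function.update g .t0 a)).W.t0 = a := by
    have h6 := get_of z (Function.update g .t0 a) .t0
    rwa [Function.update_self] at h6
  rw [e2]
  exact ha2.2.trans (by rw [hs]; exact min_le_right _ _)

end Pool.Agent.ROT.F3.Gn
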