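import Pool.Agent.ROT.F3LocD
import Pool.Agent.ROT.F3CoreK
import Pool.Agent.ROT.F3GenP

/-!
# ROT, F3, row CORE, part (F1) (helper31): the constants and the choice of the data

`CoreRow LocD z` from the rows for almost all data `P` (filter `gP z B` of helper36); `MO U P β b t t' C` = the output of the marks of
the three classes.

* `BxEx z` : boxes of windows exist (wide windows of the main class and long arcs of the companions); `AEv z τ Q` : `Q U P` for almost all `P`, constants in the order of `CoreRow`; `AEv.and`,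
  `AEv.mono`, `AEv.of_all`;
* `MkRow` (marks), `CrRow` (product form, order and durations), `Low2Row` (share of the class), `LocRow` (locality);
* **`coreRow_of`**.
-/

set_option autoImplicit false

open MeasureTheory Filter Topology Finset
open scoped ENNReal NNReal BoundedContinuousFunction

namespace Pool.Agent.ROT.F3E

open Pool.Agent.NTS.Res Pool.Agent.CRT Pool.Agent.ROT.F3 Pool.Agent.ROT.F3.CC Pool.Agent.ROT.F3.Bt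
open Pool.Agent.ROT.F (Nm nm_bd nm_ratio nm_top)
open Pool.Agent.ROT.F3.Gn

/-- **windows exist**: a box of windows in which the data are good and near the base data (bx22_ok of helper22) -/
def BxEx (z : ℂ) : Prop := ∀ ρ τ k K : ℝ, 0 < ρ → 0 < τ → 16000000000 * ρ ≤ k → k < K →
  ∃ B : Bx, ∀ P : Prm, B.In z P → P.Ok ∧ NearP z ρ τ P ∧ WinP k K P ∧ K ≤ P.Wc.t1

/-- **for almost all data**, constants in the order of `CoreRow` after `τ`; `B` : any box of good data near the base data; `W.t0` below a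
function `ts` of the other data which the row chooses -/
def AEv (z : ℂ) (τ : ℝ) (Q : Ultrafilter ℕ → Prm → Prop) : Prop := ∃ k0 K1 : ℝ, 0 < k0 ∧ 0 < K1 ∧
  ∀ k K : ℝ, 0 < k → k ≤ k0 → K1 ≤ K → ∃ ρ0 : ℝ, 0 < ρ0 ∧ ∀ ρ : ℝ, 0 < ρ → ρ ≤ ρ0 → ∀ U : Ultrafilter ℕ, (U : Filter ℕ) ≤ atTop →
    ∃ ts : Prm → ℝ, (∀ P, 0 < ts P) ∧ ∀ B : Bx, (∀ P : Prm, B.In z P → P.Ok ∧ NearP z ρ τ P ∧ WinP k K P ∧ K ≤ P.Wc.t1) →
      ∀ᶠ P in gP z B, P.W.t0 ≤ ts P.z0 → Q U P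

section

variable {z : ℂ} {τ : ℝ} {Q Q' : Ultrafilter ℕ → Prm → Prop}

lemma AEv.and (h : AEv z τ Q) (h' : AEv z τ Q') : AEv z τ fun U P => Q U P ∧ Q' U P := by
  obtain ⟨k1, K1, a1, a2, a3⟩ := h
  obtain ⟨k2, K2, b1, b2, b3⟩ := h'
  refine ⟨min k1 k2, max K1 K2, lt_min a1 b1, lt_max_of_lt_left a2, fun k K hk hk0 hK => ?_⟩
  obtain ⟨ρ1, c1, c2⟩ := a3 k K hk (hk0.trans (min_le_left _ _)) ((le_max_left _ _).trans hK)
  obtain ⟨ρ2, d1, d2⟩ := b3 k K hk (hk0.trans (min_le_right _ _)) ((le_max_right _ _).trans hK)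
  refine ⟨min ρ1 ρ2, lt_min c1 d1, fun ρ hρ hρ0 U hU => ?_⟩
  obtain ⟨t1, e1, e2⟩ := c2 ρ hρ (hρ0.trans (min_le_left _ _)) U hU
  obtain ⟨t2, f1, f2⟩ := d2 ρ hρ (hρ0.trans (min_le_right _ _)) U hU
  exact ⟨fun P => min (t1 P) (t2 P), fun P => lt_min (e1 P) (f1 P), fun B hB =>
    ((e2 B hB).and (f2 B hB)).mono fun P hP ht => ⟨hP.1 (ht.trans (min_le_left _ _)), hP.2 (ht.trans (min_le_right _ _))⟩⟩

lemma AEv.mono (h : AEv z τ Q) (H : ∀ U P, Q U P → Q' U P) : AEv z τ Q' := by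
  obtain ⟨k1, K1, a1, a2, a3⟩ := h
  refine ⟨k1, K1, a1, a2, fun k K hk hk0 hK => ?_⟩
  obtain ⟨ρ1, c1, c2⟩ := a3 k K hk hk0 hK
  refine ⟨ρ1, c1, fun ρ hρ hρ0 U hU => ?_⟩
  obtain ⟨ts, e1, e2⟩ := c2 ρ hρ hρ0 U hU
  exact ⟨ts, e1, fun B hB => (e2 B hB).mono fun P hP ht => H U P (hP ht)⟩

/-- what holds for all good data near the base data, with wide windows of the companions -/
lemma AEv.of_all' {k0 K1 : ℝ} (hk0 : 0 < k0) (hK1 : 0 < K1) (h : ∀ k K : ℝ, 0 < k → k ≤ k0 → K1 ≤ K → ∃ ρ0 : ℝ, 0 < ρ0 ∧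
    ∀ ρ : ℝ, 0 < ρ → ρ ≤ ρ0 → ∀ U : Ultrafilter ℕ, (U : Filter ℕ) ≤ atTop → ∀ P : Prm, P.Ok → NearP z ρ τ P → WinP k K P →
      K ≤ P.Wc.t1 → Q U P) :
    AEv z τ Q := by
  refine ⟨k0, K1, hk0, hK1, fun k K hk hk0 hK => ?_⟩
  obtain ⟨ρ0, hρ0, h1⟩ := h k K hk hk0 hK
  exact ⟨ρ0, hρ0, fun ρ hρ hρ1 U hU => ⟨fun _ => 1, fun _ => one_pos, fun B hB => gP_win.mono fun P hP _ =>
    h1 ρ hρ hρ1 U hU P (hB P hP).1 (hB P hP).2.1 (hB P hP).2.2.1 (hB P hP).2.2.2⟩⟩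

/-- what holds for all good data near the base data -/
lemma AEv.of_all {k0 K1 : ℝ} (hk0 : 0 < k0) (hK1 : 0 < K1) (h : ∀ k K : ℝ, 0 < k → k ≤ k0 → K1 ≤ K → ∃ ρ0 : ℝ, 0 < ρ0 ∧
    ∀ ρ : ℝ, 0 < ρ → ρ ≤ ρ0 → ∀ U : Ultrafilter ℕ, (U : Filter ℕ) ≤ atTop → ∀ P : Prm, P.Ok → NearP z ρ τ P → WinP k K P → Q U P) :
    AEv z τ Q :=
  AEv.of_all' hk0 hK1 fun k K h1 h2 h3 => (h k K h1 h2 h3).imp fun _ h4 => ⟨h4.1, fun ρ h5 h6 U h7 P h8 h9 h10 _ =>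
    h4.2 ρ h5 h6 U h7 P h8 h9 h10⟩

end

/-- the output of the marks of the three classes: `U`, `P`, limits of the rests and of the arcs, times and sets of the classes -/
abbrev MoT : Type := Ultrafilter ℕ → Prm → (Fin 3 → Measure Pie) → (Fin 3 → Measure Pie) → (Fin 3 → Pie → ℝ) → (Fin 3 → Pie → ℝ) →
  (Fin 3 → Set Pie) → Prop

/-- **the marks of the three classes** -/
def MkRow (z : ℂ) (MO : MoT) : Prop := ∃ τ0 : ℝ, 0 < τ0 ∧ ∀ τ : ℝ, 0 < τ → τ ≤ τ0 → AEv z τ fun U P =>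
  ∀ β b : Fin 3 → Measure Pie, ClsL (U.map Nm : Ultrafilter ℕ) P β b → ∃ (t t' : Fin 3 → Pie → ℝ) (C : Fin 3 → Set Pie),
    (∀ a, Measurable (t a)) ∧ (∀ a, Measurable (t' a)) ∧ (∀ a, MeasurableSet (C a)) ∧ MO U P β b t t' C

/-- **product form, order and durations of the marks** -/
def CrRow (z : ℂ) (MO : MoT) : Prop := ∃ τ0 : ℝ, 0 < τ0 ∧ ∀ τ : ℝ, 0 < τ → τ ≤ τ0 → AEv z τ fun U P =>
  ∀ (β b : Fin 3 → Measure Pie) (t t' : Fin 3 → Pie → ℝ) (C : Fin 3 → Set Pie), ClsL (U.map Nm : Ultrafilter ℕ) P β b →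
    (∀ a, Measurable (t a)) → (∀ a, Measurable (t' a)) → (∀ a, MeasurableSet (C a)) → MO U P β b t t' C →
      (∃ ν : Measure (Pie × Pie), IsFiniteMeasure ν ∧ (clsC (t 0) (t' 0) (C 0)).law (β 0) = ν.prod ((b 0).map (trn z))) ∧
      (∀ᵐ r ∂(β 0), r ∈ C 0 → r ∈ GoodT (t 0) (t' 0)) ∧
      (∀ᵐ r ∂(β 0), r ∈ C 0 → t 0 r * r.2 ≤ max P.p.lk P.q.lk ∧ (1 - t' 0 r) * r.2 ≤ max P.p.lk P.q.lk)

/-- **the share of the class 0** -/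
def Low2Row (z : ℂ) (MO : MoT) : Prop := ∃ p2 th1 : ℝ, 0 < p2 ∧ 0 < th1 ∧
  ∀ th : ℝ, 0 < th → th ≤ th1 → ∃ τ0 : ℝ, 0 < τ0 ∧ ∀ τ : ℝ, 0 < τ → τ ≤ τ0 → AEv z τ fun U P =>
    ∀ (β b : Fin 3 → Measure Pie) (t t' : Fin 3 → Pie → ℝ) (C : Fin 3 → Set Pie), ClsL (U.map Nm : Ultrafilter ℕ) P β b →
      (∀ a, Measurable (t a)) → (∀ a, Measurable (t' a)) → (∀ a, MeasurableSet (C a)) → MO U P β b t t' C → ∀ κ : ℝ, 0 < κ →
        Tendsto (fun n : ℕ => (Nm n : ℝ) ^ (4 / 3 : ℝ) / n) U (𝓝 κ) →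
          p2 * ∫ r, ct th (κ * r.2) ∂(β 0) ≤ ∫ r in C 0, ct th (κ * r.2) ∂(β 0)

/-- **the locality** -/
def LocRow (z : ℂ) (MO : MoT) : Prop := ∃ τ0 : ℝ, 0 < τ0 ∧ ∀ τ : ℝ, 0 < τ → τ ≤ τ0 → AEv z τ fun U P =>
  ∀ (β b : Fin 3 → Measure Pie) (t t' : Fin 3 → Pie → ℝ) (C : Fin 3 → Set Pie), ClsL (U.map Nm : Ultrafilter ℕ) P β b →
    (∀ a, Measurable (t a)) → (∀ a, Measurable (t' a)) → (∀ a, MeasurableSet (C a)) → MO U P β b t t' C → LocD P (β 0) (C 0)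

/-- **the row CORE** -/
theorem coreRow_of {z : ℂ} {MO : MoT} (gen : BxEx z) (mk : MkRow z MO) (cr : CrRow z MO)
    (low2 : Low2Row z MO) (loc : LocRow z MO) : CoreRow LocD z := by
  obtain ⟨p2, th1, hp2, hth1, hlow⟩ := low2
  obtain ⟨τ1, hτ1, hmk⟩ := mk
  obtain ⟨τ2, hτ2, hcr⟩ := cr
  obtain ⟨τ3, hτ3, hloc⟩ := loc
  refine ⟨p2, th1, hp2, hth1, fun th hth hth' => ?_⟩
  obtain ⟨τ4, hτ4, hl⟩ := hlow th hth hth'
  refine ⟨min (min τ1 τ2) (min τ3 τ4), lt_min (lt_min hτ1 hτ2) (lt_min hτ3 hτ4), fun τ hτ hτ' => ?_⟩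
  obtain ⟨k1, K1, a1, a2, a3⟩ := ((hmk τ hτ (hτ'.trans ((min_le_left _ _).trans (min_le_left _ _)))).and
    (hcr τ hτ (hτ'.trans ((min_le_left _ _).trans (min_le_right _ _))))).and
      ((hloc τ hτ (hτ'.trans ((min_le_right _ _).trans (min_le_left _ _)))).and
        (hl τ hτ (hτ'.trans ((min_le_right _ _).trans (min_le_right _ _)))))
  refine ⟨k1, max K1 (k1 + 1), a1, lt_max_of_lt_left a2, fun k K hk hk0 hK => ?_⟩
  obtain ⟨ρ1, c1, c2⟩ := a3 k K hk hk0 ((le_max_left _ _).trans hK)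
  refine ⟨min ρ1 (k / 16000000000), lt_min c1 (by positivity), fun ρ hρ hρ0 U hU => ?_⟩
  obtain ⟨ts, d1, d2⟩ := c2 ρ hρ (hρ0.trans (min_le_left _ _)) U hU
  -- the number below which `W.t0` has to be
  choose tm htm hm using fun x : En × En × ℝ × ℝ × ℝ => beta_A0 x.1 x.2.1 x.2.2.1 x.2.2.2.1 x.2.2.2.2
  have hk1 : 16000000000 * ρ ≤ k := by
    have := hρ0.trans (min_le_right _ _)
    rw [le_div_iff₀ (by norm_num)] at this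
    linarith
  have hkK : k < K := by
    have := (le_max_right _ _).trans hK
    linarith
  obtain ⟨B, hB⟩ := gen ρ τ k K hρ hτ hk1 hkK
  obtain ⟨P, hP, hQ, ht0⟩ := gP_ext (d2 B hB) (ts := fun P => min (ts P) (tm (P.p, P.q, P.W.D0, P.W.D1, P.W.t1)))
    fun P => lt_min (d1 P) (htm _)
  obtain ⟨hP, hn, hw, -⟩ := hB P hP
  obtain ⟨⟨q1, q2⟩, q3, q4⟩ := hQ (ht0.trans (min_le_left _ _))
  obtain ⟨c, hc, hmass⟩ := hm (P.p, P.q, P.W.D0, P.W.D1, P.W.t1) P hP rfl rfl rfl rfl rfl (ht0.trans (min_le_right _ _))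
  refine ⟨P, hP, hn, hw, ⟨c, hc, hmass.mono fun N hN => hN.2⟩, fun m b fm fb hm hb => ?_⟩
  obtain ⟨β, b', g1, g2, g3⟩ := clsL_ex hP (nm_map_top hU) hc hmass hm hb
  obtain ⟨t, t', C, f1, f2, f3, f4⟩ := q1 β b' g3
  obtain ⟨f5, f6, f7⟩ := q2 β b' t t' C g3 f1 f2 f3 f4
  have f8 := q3 β b' t t' C g3 f1 f2 f3 f4
  have f9 := q4 β b' t t' C g3 f1 f2 f3 f4
  rw [g1] at f5 f6 f7 f8 f9
  rw [g2] at f5
  exact ⟨t 0, t' 0, C 0, ⟨f1 0, f2 0, f3 0, f5, f6, f7, f9, f8⟩⟩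

end Pool.Agent.ROT.F3E
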