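import Pool.Agent.ROT.F3Fin1

/-!
# ROT, F3, row CORE (helper31): the scale of good data

`AEv` has no scale `ρ`: the rows read any `ρ` with `NearP z ρ τ P`.

* `near_le` : two scales of the same data differ by the factor `101 / 100` at most;
* **`AEv.num`** : `A ρ ^ (4 / 3) ≤ τ` for every scale `ρ` of almost all data; `AEv.small` : `A ρ ≤ k` for the windows; `AEv.near` : scales exist.
-/

set_option autoImplicit false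

open MeasureTheory Filter Topology

namespace Pool.Agent.ROT.F3E

open Pool.Agent.ROT.F3

/-- two scales of the same data -/
lemma near_le {z z' : ℂ} {ρ ρ' τ τ' : ℝ} {P : Prm} (h : NearP z ρ τ P) (h' : NearP z' ρ' τ' P) : ρ ≤ 101 / 100 * ρ' := by
  have h1 : 81 / 10 * ρ ≤ P.p.n.m := h.p.n.m.1
  have h2 : P.p.n.m ≤ 101 / 100 * (81 / 10 * ρ') := h'.p.n.m.2
  linarith

/-- the ultrafilter is free -/
theorem AEv.top {z : ℂ} {τ : ℝ} : AEv z τ fun U _ => (U : Filter ℕ) ≤ atTop :=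
  AEv.of_all one_pos one_pos fun _ _ _ _ _ => ⟨1, one_pos, fun _ _ _ _ hU _ _ _ _ => hU⟩

/-- scales exist, as small as one likes (`ε` may depend on `τ` only) -/
theorem AEv.near {z : ℂ} {τ ε : ℝ} (hε : 0 < ε) : AEv z τ fun _ P => P.Ok ∧ ∃ ρ : ℝ, 0 < ρ ∧ ρ ≤ ε ∧ NearP z ρ τ P :=
  AEv.of_all one_pos one_pos fun _ _ _ _ _ => ⟨ε, hε, fun ρ h1 h2 _ _ _ h3 h4 _ => ⟨h3, ρ, h1, h2, h4⟩⟩

/-- **every scale of the data is small** -/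
theorem AEv.sml {z : ℂ} {τ ε : ℝ} (hε : 0 < ε) : AEv z τ fun _ P => P.Ok ∧ ∀ ρ : ℝ, NearP z ρ τ P → ρ ≤ ε := by
  refine (AEv.near (z := z) (τ := τ) (ε := ε / 2) (by positivity)).mono fun U P h => ⟨h.1, fun ρ h1 => ?_⟩
  obtain ⟨-, ρ', h2, h3, h4⟩ := h
  have := near_le h1 h4
  linarith

/-- **`A ρ ^ (4 / 3) ≤ τ` for every scale of the data** -/
theorem AEv.num {z : ℂ} {τ A : ℝ} (hτ : 0 < τ) (hA : 0 < A) :
    AEv z τ fun _ P => ∀ ρ : ℝ, 0 < ρ → NearP z ρ τ P → A * ρ ^ (4 / 3 : ℝ) ≤ τ := by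
  have h0 : 0 < (τ / A) ^ (3 / 4 : ℝ) := Real.rpow_pos_of_pos (div_pos hτ hA) _
  refine (AEv.sml (z := z) (τ := τ) h0).mono fun U P h ρ hρ h1 => ?_
  have h2 := Real.rpow_le_rpow hρ.le (h.2 ρ h1) (show (0 : ℝ) ≤ 4 / 3 by norm_num)
  rw [← Real.rpow_mul (div_pos hτ hA).le, show (3 / 4 : ℝ) * (4 / 3) = 1 by norm_num, Real.rpow_one, le_div_iff₀ hA] at h2
  linarith

/-- **the scale is small for the windows**: `A ρ ≤ k ≤ k0`, `K1 ≤ K` -/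
theorem AEv.wnd {z : ℂ} {τ A k1 K1 : ℝ} (hk : 0 < k1) (hK : 0 < K1) (hA : 0 < A) :
    AEv z τ fun _ P => P.Ok ∧ ∃ k K : ℝ, 0 < k ∧ k ≤ k1 ∧ K1 ≤ K ∧ WinP k K P ∧ ∃ ρ : ℝ, 0 < ρ ∧ A * ρ ≤ k ∧ NearP z ρ τ P :=
  AEv.of_all hk hK fun k K h1 h2 h3 => ⟨k / A, div_pos h1 hA, fun ρ h4 h5 _ _ _ h6 h7 h8 => ⟨h6, k, K, h1, h2, h3, h8, ρ, h4, by
    rw [le_div_iff₀ hA] at h5
    linarith, h7⟩⟩

/-- the same, with long arcs of the companions -/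
theorem AEv.wc {z : ℂ} {τ A k1 K1 : ℝ} (hk : 0 < k1) (hK : 0 < K1) (hA : 0 < A) :
    AEv z τ fun _ P => P.Ok ∧ ∃ k K : ℝ, 0 < k ∧ k ≤ k1 ∧ K1 ≤ K ∧ WinP k K P ∧ K ≤ P.Wc.t1 ∧
      ∃ ρ : ℝ, 0 < ρ ∧ A * ρ ≤ k ∧ NearP z ρ τ P :=
  AEv.of_all' hk hK fun k K h1 h2 h3 => ⟨k / A, div_pos h1 hA, fun ρ h4 h5 _ _ _ h6 h7 h8 h9 => ⟨h6, k, K, h1, h2, h3, h8, h9,
    ρ, h4, by
      rw [le_div_iff₀ hA] at h5
      linarith, h7⟩⟩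

end Pool.Agent.ROT.F3E
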