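import Pool.Agent.ROT.F3Fin3
import Pool.Agent.ROT.F3CoreZ

/-!
# ROT, F3, row Core (helper17): all cells of one pair of classes

* **`prAll_of`** : `PrAll` (F3Fin3) from the lattice data of both lattices, the marks with variable threshold and the joint marks.
-/

set_option autoImplicit false
set_option linter.unusedSectionVars false

open MeasureTheory Topology Set ProbabilityTheory Filter Metric

open scoped ENNReal

namespace Pool.Agent.ROT.F3E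

open Pool.Agent.ROT.F3 Pool.Agent.ROT.F3.CC Pool.Agent.ROT.F3.Bt

/-- **one pair, all cells** -/
theorem prAll_of {P : Prm} (h : P.Ok) {ρ τ : ℝ} (hρ : 0 < ρ) (hp1 : P.p.Nr (bE ρ τ)) (hq1 : P.q.Nr (bE ρ τ))
    (hu : ‖P.u - 1‖ ≤ 1 / 100000000) {β b : Fin 3 → Measure Pie} {t t' : Fin 3 → Pie → ℝ} {C : Fin 3 → Set Pie}
    {i j : Fin 3} (hij : i ≠ j) (v1 : ∀ r ∈ C i, (r, (t i r, t' i r)) ∈ VC P i) (v2 : ∀ r ∈ C j, (r, (t j r, t' j r)) ∈ VC P j)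
    {μ : Measure CC.Gm} {w0 wF : CC.Gm → ℝ≥0∞} {T S : CC.Gm → Fin 8 → ℝ} {F1 F2 Ep Eq : Set CC.Gm} {SF TF : CC.Gm → M4}
    {Cp Cq : Set K4} {fp fq : K4 → Pie × Pie} (mT : Measurable T) (mS : Measurable S) (mF : Measurable wF)
    (mCp : MeasurableSet Cp) (mCq : MeasurableSet Cq) (mfp : Measurable fp) (mfq : Measurable fq)
    (H0 : IsFiniteMeasure ((μ.withDensity w0).map (dat T)) ∧
      Den ((μ.withDensity w0).map (dat T)) ((β i).prod ((β j).prod volume))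
        (DD Prod.fst Prod.fst yP yP (cZ0 P i j ρ) (cW0 P i j ρ)) (zw yP yP) (fun _ => 1) ∧
      ((β i).prod ((β j).prod volume)).restrict (DD Prod.fst Prod.fst yP yP (cZ0 P i j ρ) (cW0 P i j ρ)) ≪
        ((μ.withDensity w0).map (dat T)).map Prod.snd)
    {V : Ultrafilter ℕ} {bA bB : ℕ → FiniteMeasure Pie} {b1 b2 : FiniteMeasure Pie}
    (e1 : (b1 : Measure Pie) = (b i).map (trn P.u)) (e2 : (b2 : Measure Pie) = (b j).map (trn P.u)) {m : ℕ → Measure ℂ} {c : ℝ}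
    {Cc R Cc' : ℕ → ℝ} {γ γ' : ℕ → (K4 → ℝ) → ℕ → ℂ → ℝ} {ρN : ℕ → ℕ → ℕ → Measure ((K4 × K4) × (Pie × (Pie × ℂ)))}
    {w : ℕ → ℕ → CC.Gm → ℝ≥0∞} {M : ℕ → ℕ → CC.Gm → Fin 8 → ℝ}
    (HR : ∀ Z W : Set ℂ, IsOpen Z → IsOpen W → LevIn V bA b1 bB b2 m c yP yP Cc R Cc' γ γ' ρN
      (fun i j => (μ.withDensity (w i j)).map (dat (M i j))) (DD Prod.fst Prod.fst yP yP Z W))
    (mw : ∀ i j, Measurable (w i j)) (mM : ∀ i j, Measurable (M i j)) {Xp Xq : ℕ → ℕ → Set K4}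
    (mXp : ∀ n i, MeasurableSet (Xp n i)) (mXq : ∀ n i, MeasurableSet (Xq n i))
    (HG : ∃ wR : ℕ → ℕ → CC.Gm → ℝ≥0∞, (∀ n n', Measurable (wR n n')) ∧
      (∀ n n', MarkOf μ w (fun i j => dat (M i j)) (Xp n) (Xq n') (wR n n') (dat S)) ∧
      (∀ n n', ∀ᵐ g ∂μ, wR n n' g ≤ wR (n + 1) n' g) ∧ (∀ n n', ∀ᵐ g ∂μ, wR n n' g ≤ wR n (n' + 1) g) ∧
      ∀ᵐ g ∂μ, (dat S ⁻¹' ((Cp ×ˢ Cq) ×ˢ univ)).indicator wF g = ⨆ n, wR n n g)
    (J : ∀ R R' : ℝ, 0 < R → R ≤ 5 / 11 * ρ → 0 < R' → R' ≤ 5 / 11 * ρ → Jm μ w0 wF T S F1 F2 Ep Eq SF TF (C i) (C j)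
      (t i) (t' i) (t j) (t' j) Cp Cq fp fq (cZ P i j R) (cW P i j R')) :
    PrAll P ρ β b t t' C i j := by
  intro R1 R2 h1 hR1 h2 hR2
  refine ⟨?_⟩
  rw [← e1, ← e2]
  exact pair_fin mT mS mF mCp mCq mfp mfq H0 (HR _ _ isOpen_ball isOpen_ball) mw mM mXp mXq HG
    (hsub_fin h hρ hp1 hq1 hu hij v1 v2 hR1 hR2) (J _ _ h1 hR1 h2 hR2)

end Pool.Agent.ROT.F3E
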