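import Pool.Agent.ROT.F3K3P
import Pool.Agent.ROT.F3CoreS

/-!
# ROT, F3, row Core (helper17): one system of marks for a class and its subclasses

* **`LvO.full`** : the limit of a subclass (main arcs, companions) with the marks and the levels of the full class; the marks are `0`
  outside of the full class (as in `hlim_cls`).
-/

set_option autoImplicit false
set_option linter.unusedSectionVars false

namespace Pool.Agent.ROT.F3.CK

open MeasureTheory Filter Topology Set

open scoped NNReal ENNReal Classical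

open Pool.Agent.ROT.F3 Pool.Agent.ROT.F3.LF

section full

variable {U : Filter ℕ} {μ : ℕ → Measure (W3 × ℕ)} {X : Type*} [PseudoMetricSpace X] [MeasurableSpace X] [BorelSpace X]
  [CompleteSpace X] [SecondCountableTopology X] {cc : ℕ → W3 × ℕ → X} {ν : Measure X} {D : Dt} {RA RB : ℕ → Set W3}
  {y : ℕ → W3 × ℕ → Fin 4 → ℝ} {Ef Es : X → ℝ} {Φ Φs : X → Fin 8 → ℝ} {Λ Λs : X → Fin 4 → ℝ}

/-- subclasses -/
lemma lv_mono {S T : ℝ} {A B A' B' : Set W3} (hA : A ⊆ A') (hB : B ⊆ B') (v : Fin 4 → ℝ) : Lv D A B S T v ⊆ Lv D A' B' S T v :=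
  InC.mono Subset.rfl Subset.rfl hA hB

/-- **the marks and the levels of the full class for a subclass** -/
theorem LvO.full (hC : Cv U μ cc ν)
    (Hf : LvO U μ cc ν D (fun N => D.A N (uT N)) (fun N => D.B N (uT N)) y Ef Φ Λ) (Hs : LvO U μ cc ν D RA RB y Es Φs Λs)
    (hA : ∀ N, RA N ⊆ D.A N (uT N)) (hB : ∀ N, RB N ⊆ D.B N (uT N)) :
    LvO U μ cc ν D RA RB y Es (fun g k => Ef g * Φ g k) Λ where
  e := Hs.e
  e0 := Hs.e0
  T := by
    obtain ⟨t, h1, h2⟩ := Hf.T
    refine ⟨fun N x k => iL D (fun N => D.A N (uT N)) (fun N => D.B N (uT N)) y N x * t N x k, fun k => Lm.mul hC Hf.e (h1 k), ?_⟩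
    filter_upwards [h2] with N hN
    filter_upwards [hN] with x hx hm k
    have h3 := lv_mono (hA N) (hB N) (y N x) hm
    show iL D (fun N => D.A N (uT N)) (fun N => D.B N (uT N)) y N x * t N x k = _
    rw [← hx h3 k]
    have e : iL D (fun N => D.A N (uT N)) (fun N => D.B N (uT N)) y N x = 1 := if_pos h3
    rw [e, one_mul]
  Λ := by
    obtain ⟨t, h1, h2⟩ := Hf.Λ
    refine ⟨t, h1, ?_⟩
    filter_upwards [h2] with N hN
    filter_upwards [hN] with x hx hm s
    exact hx (lv_mono (hA N) (hB N) (y N x) hm) s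

end full

end Pool.Agent.ROT.F3.CK
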