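import Pool.Agent.ROT.F3Fin2

/-!
# ROT, F3, row Core (helper17): the output of the row

* **`coreOut_of`** : `CoreOut` for the classes of one `P` from three pairs, the shares (`low2`) and the locality (`loc`).
-/

set_option autoImplicit false
set_option linter.unusedSectionVars false

open MeasureTheory Topology Set ProbabilityTheory Filter Metric

open scoped ENNReal

namespace Pool.Agent.ROT.F3E

open Pool.Agent.ROT.F3 Pool.Agent.ROT.F3.CC Pool.Agent.ROT.F3.Bt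
open Pool.Agent.ROT.F (Nm nm_bd nm_ratio nm_top)

/-- **the output of the row** -/
theorem coreOut_of {L : Prm → Measure Pie → Set Pie → Prop} {p2 th : ℝ} {z : ℂ} {U : Ultrafilter ℕ}
    (hU : (U : Filter ℕ) ≤ atTop) {P : Prm} (h : P.Ok) {ρ τ : ℝ} (hρ : 0 < ρ) (hn : NearP z ρ τ P) {β b : Fin 3 → Measure Pie}
    (H : ClsL (U.map Nm : Ultrafilter ℕ) P β b) {t t' : Fin 3 → Pie → ℝ} {C : Fin 3 → Set Pie} (mt : ∀ a, Measurable (t a))
    (mt' : ∀ a, Measurable (t' a)) (mC : ∀ a, MeasurableSet (C a)) (hC0 : ∀ x ∈ C 0, (x, (t 0 x, t' 0 x)) ∈ VC P 0)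
    (p01 : PrAll P ρ β b t t' C 0 1) (p02 : PrAll P ρ β b t t' C 0 2) (p12 : PrAll P ρ β b t t' C 1 2)
    (q12 : QPos P ρ β t t' C 0 1 3) (q23 : QPos P ρ β t t' C 1 2 5)
    (low2 : ∀ κ : ℝ, 0 < κ → Tendsto (fun n : ℕ => (Nm n : ℝ) ^ (4 / 3 : ℝ) / n) U (𝓝 κ) →
      p2 * ∫ r, ct th (κ * r.2) ∂(β 0) ≤ ∫ r in C 0, ct th (κ * r.2) ∂(β 0)) (loc : L P (β 0) (C 0)) :
    CoreOut L p2 th z U P (β 0) (b 0) (t 0) (t' 0) (C 0) where
  mt := mt 0
  mt' := mt' 0
  mD := mC 0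
  core := by
    have e := hn.u
    have k := core_fin h hρ hn.p hn.q (nm_map_top hU) H mt mt' mC hC0 p01 p02 p12 q12 q23
    rwa [e] at k
  good := good_fin h hρ hn.p hn.q (nm_map_top hU) H mt mt' mC hC0
  short := short_fin h hρ hn.p hn.q (nm_map_top hU) H mt mt' mC hC0
  low2 := low2
  loc := loc

end Pool.Agent.ROT.F3E
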