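import Pool.Agent.ROT.F3LevP
import Pool.Agent.ROT.F3CoreP

/-!
# ROT / F3LevR (helper62): the last steps for the functional class

* **`ex_of`** : the field `ex` of `LevF` from `nul_act` (F3NulE): a class with free cells of the functional levels occurs;
* `wFC_dat`, **`Jm.cut`** : the joint marks for the functional class restricted to `Cp × Cq` (`wFC`);
* **`dR_fun`**, **`dP_fun`** : the fields `dR`, `dP` of `pair_of` for `wFC`, `S = ΦF`.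
-/

set_option autoImplicit false
set_option linter.unusedSectionVars false

open MeasureTheory Filter Topology Set

open scoped NNReal ENNReal Classical

namespace Pool.Agent.ROT.F3.CK

open Pool.Agent.ROT.F3 Pool.Agent.ROT.F3.CC Pool.Agent.ROT.F3.LF Pool.Agent.ROT.F3.Nul

/-! ### 1. Existence -/

section ex

variable {U : Filter ℕ} [U.NeBot] {μ : ℕ → Measure (W3 × ℕ)} {X : Type*} [PseudoMetricSpace X] [MeasurableSpace X]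
  [BorelSpace X] [CompleteSpace X] [SecondCountableTopology X] {cc : ℕ → W3 × ℕ → X} {P : Measure X} {D : Dt}
  {RA RB : ℕ → Set W3} {t0 : ℝ} {E : ℕ → ℕ → X → ℝ} {Φ : ℕ → ℕ → X → Fin 8 → ℝ} {Λ : ℕ → ℕ → X → Fin 4 → ℝ}
  {u : ℕ → W3 × ℕ → Fin 4 → ℝ} {EF : X → ℝ} {ΦF : X → Fin 8 → ℝ} {ΛF : X → Fin 4 → ℝ} {A : X → Fin 4 → ℝ}
  {Kp Kq Y : Type*} {F : X → (Fin 8 → ℝ) → (Kp × Kq) × Y} {Cp : Set Kp} {Cq : Set Kq} {aP lP : Kp → Fin 2 → ℝ}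
  {aQ lQ : Kq → Fin 2 → ℝ}

/-- **the field `ex`** -/
theorem ex_of (hC : Cv U μ cc P) (hU : ∀ᶠ N : ℕ in U, 0 < N) (hD : D.Ok) (hA : ∀ᶠ N in U, RA N ⊆ D.A N (uT N))
    (hB : ∀ᶠ N in U, RB N ⊆ D.B N (uT N))
    (fix : ∀ i j, LvO U μ cc P D RA RB (fun _ _ => yv D t0 i j) (E i j) (Φ i j) (Λ i j)) (fn : LvO U μ cc P D RA RB u EF ΦF ΛF)
    (lu : ∀ s, Lm U μ cc P (fun N x => u N x s) fun g => A g s)
    (rd : ∀ i j, ∀ᵐ g ∂P, ENNReal.ofReal (E i j g) ≠ 0 → (F g (Φ i j g)).1.1 ∈ Cp → (F g (Φ i j g)).1.2 ∈ Cq →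
      Rdg D A (Λ i j) aP lP aQ lQ g (F g (Φ i j g)).1)
    (ne : ∀ᵐ g ∂P, ∀ (s : Fin 4) (n : ℕ) (k : ℤ), D.l s + A g s ≠ lft t0 n k)
    (pos : ∀ᵐ g ∂P, EF g ≠ 0 → (F g (ΦF g)).1.1 ∈ Cp → (F g (ΦF g)).1.2 ∈ Cq → ∀ s, 0 < A g s)
    (hE : ∀ᵐ g ∂P, EF g ≠ 0 → (F g (ΦF g)).1.1 ∈ Cp → (F g (ΦF g)).1.2 ∈ Cq → ∃ n i j, (cix i).1 = n ∧ (cix j).1 = n ∧
      (ck i 0 = kn t0 n (D.P.l + A g 0) ∧ ck i 1 = kn t0 n (D.P.l + A g 1) ∧ ck j 0 = kn t0 n (D.Q.l + A g 2) ∧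
        ck j 1 = kn t0 n (D.Q.l + A g 3)) ∧ E i j g ≠ 0 ∧ ∀ s, lft t0 n (kn t0 n (D.l s + A g s) + 1) < Λ i j g s) :
    ∀ᵐ g ∂P, ENNReal.ofReal (EF g) ≠ 0 → (F g (ΦF g)).1.1 ∈ Cp → (F g (ΦF g)).1.2 ∈ Cq →
      ∃ n i j, ENNReal.ofReal (E i j g) ≠ 0 ∧ (F g (Φ i j g)).1.1 ∈ FrC t0 Cp aP lP n i ∧
        (F g (Φ i j g)).1.2 ∈ FrC t0 Cq aQ lQ n j := by
  have h1 : ∀ᵐ g ∂P, ∀ i j, E i j g ≠ 0 → (∀ s, yv D t0 i j s < A g s) → (∀ s, D.l s + A g s < Λ i j g s) →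
      EF g = E i j g ∧ ΦF g = Φ i j g ∧ ΛF g = Λ i j g :=
    ae_all_iff.2 fun i => ae_all_iff.2 fun j => lev_fun hC hU hD hA hB (yv_nonneg D t0 i j) (fix i j) fn lu
  have h2 := ae_all_iff.2 fun i => ae_all_iff.2 fun j => rd i j
  filter_upwards [h1, h2, ne, pos, hE] with g g1 g2 g3 g4 g5 h0 hp hq
  have hF : EF g ≠ 0 := fun h => h0 (by rw [h, ENNReal.ofReal_zero])
  obtain ⟨n, i, j, i1, j1, ⟨k0, k1, k2, k3⟩, hEij, hΛ⟩ := g5 hF hp hq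
  have a0 := g4 hF hp hq
  -- ends of the cells
  have L0 : cL t0 i 0 < D.P.l + A g 0 := by
    unfold cL
    rw [i1, k0]
    exact lt_of_le_of_ne (kn_le t0 n _) (g3 0 n _).symm
  have L1 : cL t0 i 1 < D.P.l + A g 1 := by
    unfold cL
    rw [i1, k1]
    exact lt_of_le_of_ne (kn_le t0 n _) (g3 1 n _).symm
  have L2 : cL t0 j 0 < D.Q.l + A g 2 := by
    unfold cL
    rw [j1, k2]
    exact lt_of_le_of_ne (kn_le t0 n _) (g3 2 n _).symm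
  have L3 : cL t0 j 1 < D.Q.l + A g 3 := by
    unfold cL
    rw [j1, k3]
    exact lt_of_le_of_ne (kn_le t0 n _) (g3 3 n _).symm
  have R0 : D.P.l + A g 0 < cR t0 i 0 ∧ cR t0 i 0 < Λ i j g 0 := by
    unfold cR
    rw [i1, k0]
    exact ⟨lt_kn t0 n _, hΛ 0⟩
  have R1 : D.P.l + A g 1 < cR t0 i 1 ∧ cR t0 i 1 < Λ i j g 1 := by
    unfold cR
    rw [i1, k1]
    exact ⟨lt_kn t0 n _, hΛ 1⟩
  have R2 : D.Q.l + A g 2 < cR t0 j 0 ∧ cR t0 j 0 < Λ i j g 2 := by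
    unfold cR
    rw [j1, k2]
    exact ⟨lt_kn t0 n _, hΛ 2⟩
  have R3 : D.Q.l + A g 3 < cR t0 j 1 ∧ cR t0 j 1 < Λ i j g 3 := by
    unfold cR
    rw [j1, k3]
    exact ⟨lt_kn t0 n _, hΛ 3⟩
  obtain ⟨e1, e2, -⟩ := g1 i j hEij (fun s => by
    fin_cases s
    · exact thr_lt L0 (a0 0)
    · exact thr_lt L1 (a0 1)
    · exact thr_lt L2 (a0 2)
    · exact thr_lt L3 (a0 3)) (fun s => by
    fin_cases s
    · exact R0.1.trans R0.2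
    · exact R1.1.trans R1.2
    · exact R2.1.trans R2.2
    · exact R3.1.trans R3.2)
  have hO : ENNReal.ofReal (E i j g) ≠ 0 := by
    rw [← e1]
    exact h0
  have hp' : (F g (Φ i j g)).1.1 ∈ Cp := by
    rw [← e2]
    exact hp
  have hq' : (F g (Φ i j g)).1.2 ∈ Cq := by
    rw [← e2]
    exact hq
  obtain ⟨-, ⟨r1, r2, r3, r4⟩, r5, r6, r7, r8⟩ := g2 i j hO hp' hq'
  refine ⟨n, i, j, hO, ⟨hp', i1, fun s => ?_⟩, ⟨hq', j1, fun s => ?_⟩⟩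
  · fin_cases s
    · rw [show (fun i => i) (⟨0, by decide⟩ : Fin 2) = (0 : Fin 2) from rfl, r1, r5]
      exact ⟨L0, R0⟩
    · rw [show (fun i => i) (⟨1, by decide⟩ : Fin 2) = (1 : Fin 2) from rfl, r2, r6]
      exact ⟨L1, R1⟩
  · fin_cases s
    · rw [show (fun i => i) (⟨0, by decide⟩ : Fin 2) = (0 : Fin 2) from rfl, r3, r7]
      exact ⟨L2, R2⟩
    · rw [show (fun i => i) (⟨1, by decide⟩ : Fin 2) = (1 : Fin 2) from rfl, r4, r8]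
      exact ⟨L3, R3⟩

end ex

/-! ### 2. The joint marks -/

section jm

variable {μ : Measure CC.Gm} {w0 wF : CC.Gm → ℝ≥0∞} {T S : CC.Gm → Fin 8 → ℝ} {F1 F2 Ep Eq : Set CC.Gm} {SF TF : CC.Gm → M4}
  {C1 C2 : Set Pie} {t1 t1' t2 t2' : Pie → ℝ} {Cp Cq : Set K4} {fp fq : K4 → Pie × Pie} {Z W : Set ℂ}

/-- **restriction of the functional class to `Cp × Cq`** -/
theorem Jm.cut (H : Jm μ w0 wF T S F1 F2 Ep Eq SF TF C1 C2 t1 t1' t2 t2' Cp Cq fp fq Z W) :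
    Jm μ w0 ((dat S ⁻¹' ((Cp ×ˢ Cq) ×ˢ univ)).indicator wF) T S F1 F2 Ep Eq SF TF C1 C2 t1 t1' t2 t2' Cp Cq fp fq Z W := by
  have key : ∀ g, (dat S ⁻¹' ((Cp ×ˢ Cq) ×ˢ univ)).indicator wF g ≠ 0 → wF g ≠ 0 := fun g h => by
    by_cases hg : g ∈ dat S ⁻¹' ((Cp ×ˢ Cq) ×ˢ univ)
    · rwa [indicator_of_mem hg] at h
    · rw [indicator_of_notMem hg] at h
      exact absurd rfl h
  refine ⟨H.h1, H.h2, H.o1, H.o2, ?_, ?_, ?_, ?_⟩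
  · filter_upwards [H.h3] with g hg hne
    exact hg (key g hne)
  · filter_upwards [H.h4] with g hg hne
    exact hg (key g hne)
  · filter_upwards [H.h3, H.h4, H.h5] with g g3 g4 hg hne h1 h2 hD
    obtain ⟨a1, a2, a3, a4, a5⟩ := hg hne h1 h2 hD
    have hw : wF g ≠ 0 := by
      rw [← a1]
      exact hne
    have hm : g ∈ dat S ⁻¹' ((Cp ×ˢ Cq) ×ˢ univ) := ⟨⟨(g3 hw).1.2 a2, (g4 hw).1.2 a3⟩, trivial⟩
    refine ⟨?_, a2, a3, a4, a5⟩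
    rw [indicator_of_mem hm]
    exact a1
  · filter_upwards [H.h6] with g hg hne
    exact hg (key g hne)

end jm

/-! ### 3. The densities for the closed curves -/

section gm

variable {U : Ultrafilter ℕ} {bA : ℕ → FiniteMeasure Pie} {b1 : FiniteMeasure Pie} {bB : ℕ → FiniteMeasure Pie}
  {b2 : FiniteMeasure Pie} {m : ℕ → Measure ℂ} {c : ℝ} {yA : Pie → ℂ} {yB : Pie → ℂ} {C R C' : ℕ → ℝ}
  {g : ℕ → (K4 → ℝ) → ℕ → ℂ → ℝ} {h : ℕ → (K4 → ℝ) → ℕ → ℂ → ℝ}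
  {ρN : ℕ → ℕ → ℕ → Measure ((K4 × K4) × (Pie × (Pie × ℂ)))} {DA : Set (Pie × (Pie × ℂ))}
  {μ : ℕ → Measure (W3 × ℕ)} {cc : ℕ → W3 × ℕ → CC.Gm} {P : Measure CC.Gm} {D : Dt}
  {RA RB : ℕ → Set W3} {t0 : ℝ} {E : ℕ → ℕ → CC.Gm → ℝ} {Φ : ℕ → ℕ → CC.Gm → Fin 8 → ℝ} {Λ : ℕ → ℕ → CC.Gm → Fin 4 → ℝ}
  {u : ℕ → W3 × ℕ → Fin 4 → ℝ} {EF : CC.Gm → ℝ} {ΦF : CC.Gm → Fin 8 → ℝ} {ΛF : CC.Gm → Fin 4 → ℝ} {AF : CC.Gm → Fin 4 → ℝ}
  {Cp Cq : Set K4} {aP lP : K4 → Fin 2 → ℝ} {aQ lQ : K4 → Fin 2 → ℝ}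

/-- **`dR` of `pair_of`**, `wR` = the functional class on `Cp × Cq`, `S = ΦF` -/
theorem dR_fun (H : LevF U μ cc P D RA RB t0 E Φ Λ u EF ΦF ΛF AF datT Cp Cq aP lP aQ lQ)
    (L : LevIn U bA b1 bB b2 m c yA yB C R C' g h ρN
      (fun i j => (P.withDensity fun g => ENNReal.ofReal (E i j g)).map (dat (Φ i j))) DA)
    (Ψ : K4 × K4 → ℝ≥0∞) (hΨ : Measurable Ψ) :
    Den ((P.withDensity ((dat ΦF ⁻¹' ((Cp ×ˢ Cq) ×ˢ univ)).indicator fun g => ENNReal.ofReal (EF g))).map (dat ΦF))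
      ((b1 : Measure Pie).prod ((b2 : Measure Pie).prod volume)) DA (zw yA yB) Ψ :=
  lev_den H L hΨ

/-- **`dP` of `pair_of`** -/
theorem dP_fun (H : LevF U μ cc P D RA RB t0 E Φ Λ u EF ΦF ΛF AF datT Cp Cq aP lP aQ lQ)
    (L : LevIn U bA b1 bB b2 m c yA yB C R C' g h ρN
      (fun i j => (P.withDensity fun g => ENNReal.ofReal (E i j g)).map (dat (Φ i j))) DA) :
    DenP ((P.withDensity ((dat ΦF ⁻¹' ((Cp ×ˢ Cq) ×ˢ univ)).indicator fun g => ENNReal.ofReal (EF g))).map (dat ΦF))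
      ((b1 : Measure Pie).prod ((b2 : Measure Pie).prod volume)) DA (zw yA yB) (Cp.indicator fun _ => 1)
      (Cq.indicator fun _ => 1) :=
  lev_denP H L (measurable_const.indicator H.mCp) (measurable_const.indicator H.mCq)

end gm

end Pool.Agent.ROT.F3.CK
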