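import Pool.Agent.ROT.F3Seam0
import Pool.Agent.ROT.F3CoreS
import Pool.Agent.ROT.F3CoreK
import Pool.Agent.ROT.F3LevM
import Pool.Agent.ROT.F3CoreV

/-!
# ROT, F3, row Core (helper55): the lattice data of one pair of classes, both lattices, in the form of `pair_fin` (helper17)

* `AllT ζ x0 A` : the conclusion of `all_dt` (helper4); `LowT l D` : lower bounds of the masses of the start pairs (helper89);
* `nrm_p`, `nrm_q0` : the masses at all levels with the normalisation `tn`;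
* **`seam_0`** : the first lattice, the three fields `fin`, `d0`, `hp`;
* **`seam_R`** : the rotated lattice, `LevIn` at all pairs of levels `thr`.
-/

set_option autoImplicit false
set_option linter.unusedSectionVars false

open MeasureTheory Filter Topology Set

open scoped NNReal ENNReal Classical

namespace Pool.Agent.ROT.F3.CK

open Pool.Agent.ROT.F3 Pool.Agent.ROT.F3.CC Pool.Agent.ROT.F3.LF Pool.Agent.ROT.F3L Pool.Agent.ROT.F3E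

/-! ### 1. Masses -/

/-- the conclusion of `all_dt` -/
def AllT (ζ x0 A : ℝ) : Prop := ∀ {i j : Fin 3}, i ≠ j → ∀ D : Dt, D.Ok → D.Dir i j → NumT ζ A D.P → NumT ζ A D.Q →
    (∃ C0 : ℝ, 0 < C0 ∧ ∀ᶠ N : ℕ in atTop, D.msP N * D.msQ N ≤ ENNReal.ofReal (C0 * (N : ℝ) ^ (7 / 6 : ℝ))) ∧
    (∀ v : ℂ, ‖v‖ = 1 → ∀ᶠ N : ℕ in atTop, ∀ z ∈ EL,
      (((N : ℝ)⁻¹ : ℝ) : ℂ) * -(v * z) ∈ Metric.ball (-(v * ((D.P.m : ℂ) * (ev i - ev j)))) (D.P.m / 8) →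
        ENNReal.ofReal (x0 / D.P.m ^ 2 / (N : ℝ) ^ 2) * D.msP N ≤ gam (D.C N (uT N)) (fun _ => 1) z) ∧
    (∀ v : ℂ, ‖v‖ = 1 → ∀ᶠ N : ℕ in atTop, ∀ z ∈ EL,
      (((N : ℝ)⁻¹ : ℝ) : ℂ) * -(v * z) ∈ Metric.ball (-(v * ((D.Q.m : ℂ) * (ev (-i) - ev (-j))))) (D.Q.m / 8) →
        ENNReal.ofReal (x0 / D.Q.m ^ 2 / (N : ℝ) ^ 2) * D.msQ N ≤ gam (D.C' N (uT N)) (fun _ => 1) z)

theorem allT_ex (hQB : Pool.Agent.ROT.F.QB) {ζ : ℝ} (hζ : 0 < ζ) : ∃ x0 A : ℝ, 0 < x0 ∧ 0 < A ∧ AllT ζ x0 A :=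
  all_dt hQB hζ

/-- lower bounds of the masses of the start pairs at the two roots -/
def LowT (l : Filter ℕ) (D : Dt) : Prop := ∃ c : ℝ, 0 < c ∧ (∀ᶠ N : ℕ in l, ENNReal.ofReal (c * tn N) ≤ D.msP N) ∧
  ∀ᶠ N : ℕ in l, ENNReal.ofReal (c * tn N) ≤ D.msQ N

section nrm

variable {l : Filter ℕ} {D : Dt} {i j : Fin 3} {ζ x0 A : ℝ}

lemma th_ok (ok : D.Ok) {y y' z z' : ℝ} (hy : 0 ≤ y) (hy' : 0 ≤ y') (hz : 0 ≤ z) (hz' : 0 ≤ z') :
    ({ D with y := y, y' := y', z := z, z' := z' } : Dt).Ok :=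
  ⟨ok.P, ok.Q, hy, hy', hz, hz', ok.dd, ok.tt, ok.d, ok.d', ok.t, ok.t', ok.V, ok.V'⟩

/-- **the mass of the starts at the first root, all levels** -/
theorem nrm_p (hl : l ≤ atTop) (T : AllT ζ x0 A) (hij : i ≠ j) (ok : D.Ok) (hd : D.Dir i j) (nP : NumT ζ A D.P)
    (nQ : NumT ζ A D.Q) (hL : LowT l D) {y y' : ℝ} (hy : 0 ≤ y) (hy' : 0 ≤ y') : ∃ c : ℝ, 0 ≤ c ∧
      ∀ᶠ N : ℕ in l, (totQ (ev i) (ev j) (D.P.up y) (D.P.up y') N (uT N) fun _ => 1).toReal ≤ c * tn N := by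
  obtain ⟨c, hc, -, h2⟩ := hL
  obtain ⟨⟨C0, hC0, h1⟩, -, -⟩ := T hij { D with y := y, y' := y' } (th_ok ok hy hy' ok.z ok.z')
    ⟨hd.d, hd.d', hd.t, hd.t'⟩ nP nQ
  refine ⟨C0 / c, div_nonneg hC0.le hc.le, ?_⟩
  have h3 := nrm_up hl (fun N => tq_ne D N) hc hC0.le h2 (hl h1)
  filter_upwards [h3] with N h4
  have e : totQ (ev i) (ev j) (D.P.up y) (D.P.up y') N (uT N) (fun _ => 1) = ({ D with y := y, y' := y' } : Dt).msP N := by
    unfold Dt.msP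
    simp only [hd.d, hd.d']
  rw [e]
  exact h4

/-- **the mass of the starts at the second root, all levels** -/
theorem nrm_q0 (hl : l ≤ atTop) (T : AllT ζ x0 A) (hij : i ≠ j) (ok : D.Ok) (hd : D.Dir i j) (nP : NumT ζ A D.P)
    (nQ : NumT ζ A D.Q) (hL : LowT l D) {z z' : ℝ} (hz : 0 ≤ z) (hz' : 0 ≤ z') : ∃ c : ℝ, 0 ≤ c ∧
      ∀ᶠ N : ℕ in l, tn N * (totQ (ev (-i)) (ev (-j)) (D.Q.up z) (D.Q.up z') N (uT N) fun _ => 1).toReal ≤
        c * (N : ℝ) ^ (7 / 6 : ℝ) := by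
  obtain ⟨c, hc, h2, -⟩ := hL
  obtain ⟨⟨C0, hC0, h1⟩, -, -⟩ := T hij { D with z := z, z' := z' } (th_ok ok ok.y ok.y' hz hz')
    ⟨hd.d, hd.d', hd.t, hd.t'⟩ nP nQ
  refine ⟨C0 / c, div_nonneg hC0.le hc.le, ?_⟩
  have h3 := nrm_up (a := ({ D with z := z, z' := z' } : Dt).msQ) hl (fun N => tp_ne D N) hc hC0.le h2
    ((h1.filter_mono hl).mono fun N hN => by rw [mul_comm]; exact hN)
  refine nrm_q hl ?_
  filter_upwards [h3] with N h4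
  have e : totQ (ev (-i)) (ev (-j)) (D.Q.up z) (D.Q.up z') N (uT N) (fun _ => 1) = ({ D with z := z, z' := z' } : Dt).msQ N := by
    unfold Dt.msQ
    simp only [hd.t, hd.t']
  rw [e]
  exact h4

end nrm

/-! ### 2. The curves -/

lemma wnd_or (P : Prm) (a : Fin 3) : wnd P a = P.W ∨ wnd P a = P.Wc := by
  by_cases h : a = 0
  · exact Or.inl (by rw [h, wnd_zero])
  · exact Or.inr (wnd_ne P h)

lemma trn_ne {m : Measure Pie} (h : m ≠ 0) (z : ℂ) {b : FiniteMeasure Pie} (e : (b : Measure Pie) = m.map (trn z)) : b ≠ 0 := by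
  intro h0
  refine h ?_
  rw [h0] at e
  have e1 : m.map (trn z) univ = 0 := by
    rw [← e]
    simp
  rw [Measure.map_apply (trn_cont z).measurable MeasurableSet.univ, preimage_univ] at e1
  exact Measure.measure_univ_eq_zero.1 e1

lemma rotX_one (y : CC.Gm) : rotX 1 y = y := by
  unfold rotX
  rw [one_smul]

lemma map_rotX_one (PG : Measure CC.Gm) : PG.map (rotX 1) = PG := by
  have e : rotX 1 = (id : CC.Gm → CC.Gm) := funext fun y => rotX_one y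
  rw [e, Measure.map_id]

section seam

variable {V : Ultrafilter ℕ} (hV : (V : Filter ℕ) ≤ atTop) {P : Prm} (hP : P.Ok) {i j : Fin 3} (hij : i ≠ j)
  {β b : Fin 3 → Measure Pie} (H : ClsL V P β b) {L : ℝ} {PG : Measure CC.Gm}
  (hC : Cv (V : Filter ℕ) (fun N => mwE N L) cN PG) (hae : ∀ᵐ y ∂PG, 0 < y.2.1 ∧ y.2.1 < y.1) {ζ x0 A : ℝ}
  (T : AllT ζ x0 A)

include hV hP hij H hC hae T

/-- **the first lattice, one pair of classes** -/
theorem seam_0 (hx0 : 0 < x0) (nP : NumT ζ A P.p.n) (nQ : NumT ζ A P.q.n) (hG : GnQ V P.p.n)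
    (hL : (D0 P i j (wnd P i) (wnd P j)).len ≤ L) (low : LowT (V : Filter ℕ) (D0 P i j (wnd P i) (wnd P j)))
    {E0 : CC.Gm → ℝ} (h0 : ∀ y, 0 ≤ E0 y)
    (he : Lm (V : Filter ℕ) (fun N => mwE N L) cN PG (fun N x => eW ((D0 P i j (wnd P i) (wnd P j)).C N (uT N))
      ((D0 P i j (wnd P i) (wnd P j)).C' N (uT N)) (rcl P i N) (rcl P j N) x) E0)
    {Φ0 : CC.Gm → Fin 8 → ℝ}
    (h : ∀ k, Lm (V : Filter ℕ) (fun N => mwE N L) cN PG (fun N x => mkt (D0 P i j (wnd P i) (wnd P j)) N (uT N) x k)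
      fun y => Φ0 y k) {Z0 W0 : Set ℂ} (oZ : IsOpen Z0) (oW : IsOpen W0)
    (hZ : Z0 ⊆ Metric.ball ((P.p.n.m : ℂ) * (ev j - ev i)) (P.p.n.m / 8))
    (hW : W0 ⊆ Metric.ball ((P.q.n.m : ℂ) * (ev (-j) - ev (-i))) (P.q.n.m / 8)) :
    IsFiniteMeasure ((PG.withDensity fun y => ENNReal.ofReal (E0 y)).map (dat Φ0)) ∧
    Den ((PG.withDensity fun y => ENNReal.ofReal (E0 y)).map (dat Φ0)) ((β i).prod ((β j).prod volume))
      (DD Prod.fst Prod.fst yP yP Z0 W0) (zw yP yP) (fun _ => 1) ∧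
    ((β i).prod ((β j).prod volume)).restrict (DD Prod.fst Prod.fst yP yP Z0 W0) ≪
      ((PG.withDensity fun y => ENNReal.ofReal (E0 y)).map (dat Φ0)).map Prod.snd := by
  obtain ⟨D, hD⟩ : ∃ D : Dt, D = D0 P i j (wnd P i) (wnd P j) := ⟨_, rfl⟩
  rw [← hD] at hL low he h
  have ok : D.Ok := by
    rw [hD]
    exact D0_ok hP hij (wnd_or P i) (wnd_or P j)
  have hd : D.Dir i j := by
    rw [hD]
    exact D0_dir P i j _ _
  have eP : D.P = P.p.n := by rw [hD]; rfl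
  have eQ : D.Q = P.q.n := by rw [hD]; rfl
  rw [← eP] at nP hG hZ
  rw [← eQ] at nQ hW
  obtain ⟨bA, b1, eA, e1, tA⟩ := ClsL.rN hP hV H 1 i
  obtain ⟨bB, b2, eB, e2, tB⟩ := ClsL.rN hP hV H 1 j
  have n1 := trn_ne (H.nβ i) 1 e1
  have n2 := trn_ne (H.nβ j) 1 e2
  rw [map_trn_one] at e1 e2
  obtain ⟨c, hc, c1, c2⟩ := low
  have low : LowT (V : Filter ℕ) D := ⟨c, hc, c1, c2⟩
  -- the masses
  obtain ⟨cP, hcP, htp⟩ := nrm_p hV T hij ok hd nP nQ low ok.y ok.y'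
  obtain ⟨cQ, hcQ, htq⟩ := nrm_q0 hV T hij ok hd nP nQ low ok.z ok.z'
  have ep : ∀ N : ℕ, totQ (ev i) (ev j) (D.P.up D.y) (D.P.up D.y') N (uT N) (fun _ => 1) = D.msP N := fun N => by
    unfold Dt.msP
    rw [hd.d, hd.d']
  have eq : ∀ N : ℕ, totQ (ev (-i)) (ev (-j)) (D.Q.up D.z) (D.Q.up D.z') N (uT N) (fun _ => 1) = D.msQ N := fun N => by
    unfold Dt.msQ
    rw [hd.t, hd.t']
  simp only [ep] at htp
  simp only [eq] at htq
  obtain ⟨-, g1, g2⟩ := T hij D ok hd nP nQ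
  have hL3 := l3_dt hV ok hij hd hG hL (RA := rcl P i) (RB := rcl P j) (fun N => by rw [hD]; exact subset_rfl)
    (fun N => by rw [hD]; exact subset_rfl) norm_one (tn_pos hV) hcP hcQ htp htq eA eB
  have mP := ok.P.m
  have mQ := ok.Q.m
  have key := zero_prm hC hae norm_one (map_rotX_one PG) hV hL3 tA tB n1 n2 h0 he h oZ oW (x0 := x0 / D.P.m ^ 2) (c0 := c)
    (x1 := x0 / D.Q.m ^ 2) (c1 := c) (by positivity) hc (by positivity) hc (nrm_lo (fun N => tp_ne D N) c1)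
    (by
      filter_upwards [hV (g1 1 norm_one)] with N k1 y hy hyZ
      refine k1 y hy ?_
      have := hZ hyZ
      rwa [show -((1 : ℂ) * ((D.P.m : ℂ) * (ev i - ev j))) = (D.P.m : ℂ) * (ev j - ev i) by ring])
    (nrm_q' hV (nrm_lo (fun N => tq_ne D N) c2))
    (by
      filter_upwards [hV (g2 1 norm_one)] with N k1 y hy hyZ
      refine k1 y hy ?_
      have := hW hyZ
      rwa [show -((1 : ℂ) * ((D.Q.m : ℂ) * (ev (-i) - ev (-j)))) = (D.Q.m : ℂ) * (ev (-j) - ev (-i)) by ring])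
  have w1 : wZ 1 E0 = fun y => ENNReal.ofReal (E0 y) := funext fun y => wZ_one E0 y
  have t1 : tZ 1 Φ0 = Φ0 := funext fun y => tZ_one Φ0 y
  rw [w1, t1, e1, e2] at key
  exact key

/-- **the rotated lattice, one pair of classes, all levels** -/
theorem seam_R (nP : NumT ζ A P.p.f) (nQ : NumT ζ A P.q.f) (hG : GnQ V P.p.f)
    (hL : (DR P i j (wnd P i) (wnd P j) 0 0 0 0).len ≤ L) (low : LowT (V : Filter ℕ) (DR P i j (wnd P i) (wnd P j) 0 0 0 0))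
    {z : ℂ} (hz : ‖z‖ = 1) (hPz : PG.map (rotX z) = PG) (t0 : ℝ) {E : ℕ → ℕ → CC.Gm → ℝ} (h0 : ∀ m n y, 0 ≤ E m n y)
    (he : ∀ m n, Lm (V : Filter ℕ) (fun N => mwE N L) cN PG (fun N x => eW
      (P.CRp i j (thr t0 P.p.f.l m 0) (thr t0 P.p.f.l m 1) N) (P.CRq i j (thr t0 P.q.f.l n 0) (thr t0 P.q.f.l n 1) N)
      (acl P i N) (acl P j N) x) (E m n))
    {Φ : ℕ → ℕ → CC.Gm → Fin 8 → ℝ}
    (h : ∀ m n k, Lm (V : Filter ℕ) (fun N => mwE N L) cN PG (fun N x => mkt (DR P i j (wnd P i) (wnd P j)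
      (thr t0 P.p.f.l m 0) (thr t0 P.p.f.l m 1) (thr t0 P.q.f.l n 0) (thr t0 P.q.f.l n 1)) N (uT N) x k) fun y => Φ m n y k) :
    ∃ (b1 b2 : FiniteMeasure Pie) (bA bB : ℕ → FiniteMeasure Pie) (m : ℕ → Measure ℂ) (c : ℝ) (Cc R Cc' : ℕ → ℝ)
      (γ γ' : ℕ → (K4 → ℝ) → ℕ → ℂ → ℝ) (ρN : ℕ → ℕ → ℕ → Measure ((K4 × K4) × (Pie × (Pie × ℂ)))),
      (b1 : Measure Pie) = (b i).map (trn z) ∧ (b2 : Measure Pie) = (b j).map (trn z) ∧
      ∀ Z W : Set ℂ, IsOpen Z → IsOpen W → LevIn V bA b1 bB b2 m c yP yP Cc R Cc' γ γ' ρN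
        (fun m n => (PG.withDensity (wZ z (E m n))).map (dat (tZ z (Φ m n)))) (DD Prod.fst Prod.fst yP yP Z W) := by
  obtain ⟨D, hD⟩ : ∃ D : Dt, D = DR P i j (wnd P i) (wnd P j) 0 0 0 0 := ⟨_, rfl⟩
  have ok : D.Ok := by
    rw [hD]
    exact DR_ok hP hij (wnd_or P i) (wnd_or P j) le_rfl le_rfl le_rfl le_rfl
  have hd : D.Dir i j := by
    rw [hD]
    exact DR_dir P i j _ _ _ _ _ _
  have low' : LowT (V : Filter ℕ) D := by
    rw [hD]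
    exact low
  have eP : D.P = P.p.f := by rw [hD]; rfl
  have eQ : D.Q = P.q.f := by rw [hD]; rfl
  obtain ⟨bA, b1, eA, e1, tA⟩ := ClsL.aN hP hV H z i
  obtain ⟨bB, b2, eB, e2, tB⟩ := ClsL.aN hP hV H z j
  have n1 := trn_ne (H.nb i) z e1
  have n2 := trn_ne (H.nb j) z e2
  have hp : ∀ m : ℕ, ∃ c : ℝ, 0 ≤ c ∧ ∀ᶠ N : ℕ in (V : Filter ℕ), (totQ (ev i) (ev j) (P.p.f.up (thr t0 P.p.f.l m 0))
      (P.p.f.up (thr t0 P.p.f.l m 1)) N (uT N) fun _ => 1).toReal ≤ c * tn N := fun m => by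
    have := nrm_p hV T hij ok hd (by rw [eP]; exact nP) (by rw [eQ]; exact nQ) low' (thr_nonneg t0 P.p.f.l m 0)
      (thr_nonneg t0 P.p.f.l m 1)
    rwa [eP] at this
  have hq : ∀ n : ℕ, ∃ c : ℝ, 0 ≤ c ∧ ∀ᶠ N : ℕ in (V : Filter ℕ), tn N * (totQ (ev (-i)) (ev (-j))
      (P.q.f.up (thr t0 P.q.f.l n 0)) (P.q.f.up (thr t0 P.q.f.l n 1)) N (uT N) fun _ => 1).toReal ≤
        c * (N : ℝ) ^ (7 / 6 : ℝ) := fun n => by
    have := nrm_q0 hV T hij ok hd (by rw [eP]; exact nP) (by rw [eQ]; exact nQ) low' (thr_nonneg t0 P.q.f.l n 0)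
      (thr_nonneg t0 P.q.f.l n 1)
    rwa [eQ] at this
  choose c hc htp using hp
  choose c' hc' htq using hq
  have hF := l3_fam hV hP hij (wnd_or P i) (wnd_or P j) (fun m => thr_nonneg t0 P.p.f.l m 0)
    (fun m => thr_nonneg t0 P.p.f.l m 1) (fun n => thr_nonneg t0 P.q.f.l n 0) (fun n => thr_nonneg t0 P.q.f.l n 1) hG hL
    (acl_sub P i) (acl_sub P j) hz (tn_pos hV) hc hc' htp htq eA eB
  have key := fun (Z W : Set ℂ) (oZ : IsOpen Z) (oW : IsOpen W) => lev_prm hC hae hz hPz hV hF tA tB n1 n2 h0 he h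
    (X := DD Prod.fst Prod.fst yP yP Z W)
    (dd_open continuous_fst continuous_fst (by unfold yP dsp; fun_prop) (by unfold yP dsp; fun_prop) oZ oW) fun p hp x y => hp.1 x y
  exact ⟨b1, b2, bA, bB, _, _, _, _, _, _, _, _, e1, e2, key⟩

end seam

/-- the cells of `hsub_prm` are inside of the cells of the lower bounds -/
lemma z0E_sub {d1 d2 : ℂ} {E : En} {h ρ m : ℝ} (hρ : |h - E.kc - m| * ‖d2 - d1‖ + ρ ≤ m / 8) :
    Z0E d1 d2 E h ρ ⊆ Metric.ball ((m : ℂ) * (d2 - d1)) (m / 8) := by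
  intro z hz
  have h1 : ‖z - ((h - E.kc : ℝ) : ℂ) * (d2 - d1)‖ < ρ := by
    rw [← dist_eq_norm]
    exact hz
  rw [Metric.mem_ball, dist_eq_norm]
  have e : z - (m : ℂ) * (d2 - d1) = (z - ((h - E.kc : ℝ) : ℂ) * (d2 - d1)) + ((h - E.kc - m : ℝ) : ℂ) * (d2 - d1) := by
    push_cast
    ring
  rw [e]
  refine (norm_add_le _ _).trans_lt ?_
  rw [norm_mul, Complex.norm_real, Real.norm_eq_abs]
  linarith

end Pool.Agent.ROT.F3.CK
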