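import Pool.Agent.ROT.F3Fin2
import Pool.Agent.ROT.F3Fin2a
import Pool.Agent.ROT.F3SeamD
import Pool.Agent.ROT.F3LevR
import Pool.Agent.ROT.F3JmD

/-!
# ROT, F3, row Core (helper17): all cells of one pair of classes from the limits of the classes

* `datT_eq`, `glue_dat` : `LevF.glue` (helper62) in the form of `pair_fin`;
* `Jm.marks` : the joint marks for the marks multiplied with the indicator of the class;
* **`prAll_lv`** : `PrAll` for one pair from the limits `LvO` of the classes of both lattices, `LevF` and the joint marks.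
-/

set_option autoImplicit false
set_option linter.unusedSectionVars false

open MeasureTheory Topology Set ProbabilityTheory Filter Metric

open scoped ENNReal

namespace Pool.Agent.ROT.F3E

open Pool.Agent.ROT.F3 Pool.Agent.ROT.F3.CC Pool.Agent.ROT.F3.CK Pool.Agent.ROT.F3.LF Pool.Agent.ROT.F3.Bt

/-- the joint marks for marks which agree on the class -/
lemma jm_marks {μ : Measure CC.Gm} {w0 wR : CC.Gm → ℝ≥0∞} {T T' S : CC.Gm → Fin 8 → ℝ} {F1 F2 Ep Eq : Set CC.Gm}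
    {SF TF : CC.Gm → M4} {C1 C2 : Set Pie} {t1 t1' t2 t2' : Pie → ℝ} {Cp Cq : Set K4} {fp fq : K4 → Pie × Pie} {Z W : Set ℂ}
    (J : Jm μ w0 wR T S F1 F2 Ep Eq SF TF C1 C2 t1 t1' t2 t2' Cp Cq fp fq Z W) (h : ∀ᵐ g ∂μ, w0 g ≠ 0 → T' g = T g) :
    Jm μ w0 wR T' S F1 F2 Ep Eq SF TF C1 C2 t1 t1' t2 t2' Cp Cq fp fq Z W where
  h1 := by
    filter_upwards [J.h1, h] with g g1 g2 h0
    rw [g2 h0]
    exact g1 h0
  h2 := by
    filter_upwards [J.h2, h] with g g1 g2 h0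
    rw [g2 h0]
    exact g1 h0
  o1 := by
    filter_upwards [J.o1, h] with g g1 g2 h0
    rw [g2 h0]
    exact g1 h0
  o2 := by
    filter_upwards [J.o2, h] with g g1 g2 h0
    rw [g2 h0]
    exact g1 h0
  h3 := J.h3
  h4 := J.h4
  h5 := by
    filter_upwards [J.h5, h] with g g1 g2 h0
    rw [g2 h0]
    exact g1 h0
  h6 := J.h6

section

variable {V : Ultrafilter ℕ} (hV : (V : Filter ℕ) ≤ atTop) {P : Prm} (h : P.Ok) {ρ τ : ℝ} (hρ : 0 < ρ)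
  (hp1 : P.p.Nr (bE ρ τ)) (hq1 : P.q.Nr (bE ρ τ)) (hu : ‖P.u - 1‖ ≤ 1 / 100000000)
  {β b : Fin 3 → Measure Pie} (H : ClsL V P β b) {i j : Fin 3} (hij : i ≠ j) {L : ℝ} {PG : Measure CC.Gm}
  (hC : Cv (V : Filter ℕ) (fun N => mwE N L) cN PG) (hae : ∀ᵐ y ∂PG, 0 < y.2.1 ∧ y.2.1 < y.1)
  (hPz : PG.map (rotX P.u) = PG)
  {ζ x0 A : ℝ} (T : AllT ζ x0 A) (hx0 : 0 < x0) (n1 : NumT ζ A P.p.n) (n2 : NumT ζ A P.q.n) (n3 : NumT ζ A P.p.f)
  (n4 : NumT ζ A P.q.f) (g1 : GnQ V P.p.n) (g2 : GnQ V P.p.f) (l1 : (jD0 P i j).len ≤ L) (l2 : (jDR P i j).len ≤ L)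
  (low0 : LowT (V : Filter ℕ) (jD0 P i j)) (lowR : LowT (V : Filter ℕ) (jDR P i j))

include hV h hρ hp1 hq1 hu H hij hC hae hPz T hx0 n1 n2 n3 n4 g1 g2 l1 l2 low0 lowR

/-- **all cells of one pair of classes** -/
theorem prAll_lv (t0 : ℝ) {E0 : CC.Gm → ℝ} {Φ0 : CC.Gm → Fin 8 → ℝ} {Λ0 : CC.Gm → Fin 4 → ℝ}
    (z0 : LvO (V : Filter ℕ) (fun N => mwE N L) cN PG (jD0 P i j) (fun N => (jD0 P i j).A N (uT N))
      (fun N => (jD0 P i j).B N (uT N)) (fun _ _ _ => 0) E0 Φ0 Λ0)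
    {Ef Es : ℕ → ℕ → CC.Gm → ℝ} {Φ Φs : ℕ → ℕ → CC.Gm → Fin 8 → ℝ} {Λf Λs Λ' : ℕ → ℕ → CC.Gm → Fin 4 → ℝ}
    (full : ∀ m n, LvO (V : Filter ℕ) (fun N => mwE N L) cN PG (jDR P i j) (fun N => (jDR P i j).A N (uT N))
      (fun N => (jDR P i j).B N (uT N)) (fun _ _ => yv (jDR P i j) t0 m n) (Ef m n) (Φ m n) (Λf m n))
    (sub : ∀ m n, LvO (V : Filter ℕ) (fun N => mwE N L) cN PG (jDR P i j) (acl P i) (acl P j)
      (fun _ _ => yv (jDR P i j) t0 m n) (Es m n) (Φs m n) (Λs m n))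
    {u : ℕ → W3 × ℕ → Fin 4 → ℝ} {EF : CC.Gm → ℝ} {ΦF : CC.Gm → Fin 8 → ℝ} {ΛF AF : CC.Gm → Fin 4 → ℝ}
    {Cp Cq : Set K4} {aP lP aQ lQ : K4 → Fin 2 → ℝ}
    (LF : LevF V (fun N => mwE N L) (fun N x => rotX P.u (cN N x)) PG (jDR P i j) (acl P i) (acl P j) t0
      (fun m n g => Es m n (rotX P.u⁻¹ g)) (fun m n g k => Ef m n (rotX P.u⁻¹ g) * Φ m n (rotX P.u⁻¹ g) k) Λ' u EF ΦF ΛF AF
      datT Cp Cq aP lP aQ lQ)
    {fp fq : K4 → Pie × Pie} (mfp : Measurable fp) (mfq : Measurable fq)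
    {C : Fin 3 → Set Pie} {t t' : Fin 3 → Pie → ℝ} (v1 : ∀ r ∈ C i, (r, (t i r, t' i r)) ∈ VC P i)
    (v2 : ∀ r ∈ C j, (r, (t j r, t' j r)) ∈ VC P j) {F1 F2 Ep Eq : Set CC.Gm} {SF TF : CC.Gm → M4}
    (J : ∀ R R' : ℝ, 0 < R → R ≤ 5 / 11 * ρ → 0 < R' → R' ≤ 5 / 11 * ρ → Jm PG (fun g => ENNReal.ofReal (E0 g))
      (fun g => ENNReal.ofReal (EF g)) Φ0 ΦF F1 F2 Ep Eq SF TF (C i) (C j) (t i) (t' i) (t j) (t' j) Cp Cq fp fq
      (cZ P i j R) (cW P i j R')) :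
    PrAll P ρ β b t t' C i j := by
  have m0 : Measurable fun g => E0 g := z0.e.ms'
  have mΦ0 : Measurable Φ0 := by
    obtain ⟨t, t1, -⟩ := z0.T
    exact measurable_pi_iff.2 fun k => (t1 k).ms'
  obtain ⟨T0, hT0⟩ : ∃ T0 : CC.Gm → Fin 8 → ℝ, T0 = fun g k => E0 g * Φ0 g k := ⟨_, rfl⟩
  have mT0 : Measurable T0 := by
    rw [hT0]
    exact measurable_pi_iff.2 fun k => m0.mul ((measurable_pi_apply k).comp mΦ0)
  have one0 := z0.one hC
  -- the first lattice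
  have hmn : 81 / 10 * ρ ≤ P.p.n.m := hp1.n.m.1
  have hmn' : 81 / 10 * ρ ≤ P.q.n.m := hq1.n.m.1
  have sZ : cZ0 P i j ρ ⊆ Metric.ball ((P.p.n.m : ℂ) * (ev j - ev i)) (P.p.n.m / 8) := by
    refine CK.z0E_sub ?_
    have e : hp P - P.p.kc - P.p.n.m = 0 := by unfold hp; ring
    rw [e, abs_zero, zero_mul]
    linarith
  have sW : cW0 P i j ρ ⊆ Metric.ball ((P.q.n.m : ℂ) * (ev (-j) - ev (-i))) (P.q.n.m / 8) := by
    refine CK.z0E_sub ?_
    have e : hq P - P.q.kc - P.q.n.m = 0 := by unfold hq; ring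
    rw [e, abs_zero, zero_mul]
    linarith
  have H0 := seam_0 hV h hij H hC hae T hx0 n1 n2 g1 l1 low0 (E0 := E0) z0.e0 z0.he (Φ0 := T0)
    (fun k => by
      rw [hT0]
      exact z0.hmk hC k) (z0E_open _ _ _ _ _) (z0E_open _ _ _ _ _) sZ sW
  -- the rotated lattice
  obtain ⟨b1, b2, bA, bB, m, c, Cc, R, Cc', γ, γ', ρN, e1, e2, HR⟩ := seam_R hV h hij H hC hae T n3 n4 g2 l2 lowR h.u hPz t0
    (E := Es) (fun m n => (sub m n).e0) (fun m n => (sub m n).he)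
    (Φ := fun m n g k => Ef m n g * Φ m n g k) (fun m n k => (full m n).hmk hC k)
  refine prAll_of h hρ hp1 hq1 hu hij v1 v2 (μ := PG) (w0 := fun g => ENNReal.ofReal (E0 g))
    (wF := fun g => ENNReal.ofReal (EF g)) (T := T0) (S := ΦF) mT0 LF.mΦF LF.fn.e.ms'.ennreal_ofReal LF.mCp LF.mCq mfp mfq H0
    e1 e2 HR (fun m n => wZ_meas _ (sub m n).e.ms') (fun m n => ?_) (Xp := fun n i => FrC t0 Cp aP lP n i)
    (Xq := fun n i => FrC t0 Cq aQ lQ n i) (fun n i => frC_meas LF.mCp LF.maP LF.mlP n i)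
    (fun n i => frC_meas LF.mCq LF.maQ LF.mlQ n i) LF.glue fun R R' r1 r2 r3 r4 => jm_marks (J R R' r1 r2 r3 r4) ?_
  · have a1 : Measurable fun g => Ef m n g := (full m n).e.ms'
    have a2 : Measurable (Φ m n) := by
      obtain ⟨t, t1, -⟩ := (full m n).T
      exact measurable_pi_iff.2 fun k => (t1 k).ms'
    have a3 : Measurable fun g k => Ef m n g * Φ m n g k :=
      measurable_pi_iff.2 fun k => a1.mul ((measurable_pi_apply k).comp a2)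
    exact a3.comp (rotX_cont P.u⁻¹).measurable
  · filter_upwards [one0] with g hg h0
    have e3 : E0 g = 1 := by
      rcases hg with hg | hg
      · exact absurd (by rw [hg, ENNReal.ofReal_zero]) h0
      · exact hg
    rw [hT0]
    funext k
    show E0 g * Φ0 g k = Φ0 g k
    rw [e3, one_mul]

end

end Pool.Agent.ROT.F3E
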