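import Pool.Agent.ROT.F3K3Z
import Pool.Agent.ROT.F3JmH

/-!
# ROT, F3, row K3 (helper2): the inputs of h5, h6 from the package

* **`Pk.jh`** : `JhIn` almost everywhere.
-/

set_option autoImplicit false

namespace Pool.Agent.ROT.F3.CK

open MeasureTheory Filter Topology Set unitInterval

open scoped NNReal ENNReal Classical

open Pool.Agent.ROT.F3 Pool.Agent.ROT.F3.LF

/-- the other root = the end of the strand -/
private lemma rtA_oppV (k : Arm) (g : CC.Gm) : rtA (oppA k) g = pji (tAt k g 1) := by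
  cases k
  · show pji (muG g) = pji (1 * muG g)
    rw [one_mul]
  · show (0 : I) = pji (muG g - 1 * muG g)
    rw [one_mul, sub_self]
    exact (pji_coe 0).symm
  · show (1 : I) = pji (muG g + 1 * (1 - muG g))
    rw [one_mul, add_sub_cancel]
    exact (pji_coe 1).symm
  · show pji (muG g) = pji (1 - 1 * (1 - muG g))
    rw [one_mul, sub_sub_cancel]

private lemma un_o3V {G : Ga} {g : CC.Gm} {k : Arm} (h : G.Un g) (hk : g ∈ G.B k) : leA k (G.ix k g) (rtA (oppA k) g) := by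
  rw [rtA_oppV]
  exact tAt_le (h.h k hk).2.2

private lemma leA_btV {k : Arm} {a b c : I} (h1 : leA k a b) (h2 : leA k b c) : BtI a b c := by
  cases k
  exacts [Or.inl ⟨h1, h2⟩, Or.inr ⟨h2, h1⟩, Or.inl ⟨h1, h2⟩, Or.inr ⟨h2, h1⟩]

variable {U : Filter ℕ} {bb : ℝ} {PG : Measure CC.Gm} {P : Prm} {i j : Fin 3} {t0 c0 : ℝ} {K0 KR : Arm → GP}
  {G0 H : Ga} {Hl : ℕ → ℕ → Ga} {y : ℕ → W3 × ℕ → Fin 4 → ℝ} {A : CC.Gm → Fin 4 → ℝ}

/-- **the inputs of h5, h6** -/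
theorem Pk.jh (ok : P.Ok) (hz : ‖P.u‖ = 1) (hPz : PG.map (rotX P.u) = PG) (hP : ∀ᵐ y ∂PG, 0 < y.1)
    (h : Pk U bb PG P i j t0 c0 K0 KR G0 H Hl y A) : ∀ᵐ g ∂PG, JhIn P i j G0 H (fun k g => A g (aix k)) g := by
  have hk := h.k0
  have hr := ae_rotX hz hPz h.kR
  have hu := un_rot hz hPz h.unR
  have he : ∀ᵐ g ∂PG, ∀ k, g ∈ (H.rot P.u).B k → FaI (P.u * dirA i j k) ((endA P k).f.up (A g (aix k))).l
      ((endA P k).f.up (A g (aix k))).m (KR k).r1 (KR k).r1' (KR k).ρ1 ((endA P k).f.up (A g (aix k))).rg g.2.2 (rtA k g)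
      ((H.rot P.u).ic k g) ((H.rot P.u).ix k g) (rtA (oppA k) g) := by
    filter_upwards [h.eR' .fp, h.eR' .bq, h.eR' .fq, h.eR' .bp] with g a1 a2 a3 a4 k
    cases k
    exacts [a1, a2, a3, a4]
  have hA : ∀ᵐ g ∂PG, ∀ k, g ∈ G0.B k → 0 < A g (aix k) ∧
      lv (P.u * dirA i j k) (g.2.2 (G0.ix k g) - g.2.2 (rtA k g)) = A g (aix k) := by
    filter_upwards [h.Ax .fp, h.Ax .bq, h.Ax .fq, h.Ax .bp] with g a1 a2 a3 a4 k
    cases k
    exacts [a1, a2, a3, a4]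
  filter_upwards [hP, hk, hr, hu, he, hA, h.un0] with g q1 q2 q3 q4 q5 q6 q7
  refine ⟨q1.le, fun h0 => cev0_of_K h0 q7 (q2 h0).1, fun k hB hb => ?_, fun k hB => (q6 k hB).2.le, fun hR => ?_⟩
  · have h1 := q5 k hB
    have o1 := leA_btV (q4.2.o1 hB) (q4.2.o2 hB)
    have o2 := leA_btV (q4.2.o2 hB) (un_o3V q4.2 hB)
    exact h1.fg o1 o2 fun u hu => (hb u hu).trans_lt (h.rR k)
  · have h1 : rotX P.u⁻¹ g ∈ k3S (jDR P i j) (⋂ k, H.B k) (jT H) := by
      unfold jKR at hR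
      split_ifs at hR with h0
      · exact hR.1
      · exact hR
    exact reR_of_K ok hR (q3 h1).1

end Pool.Agent.ROT.F3.CK
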