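import Pool.Agent.ROT.F3Fin6
import Pool.Agent.ROT.F3K3V

/-!
# ROT, F3, row Core (helper12): from the package of helper2 to the package of helper17

* `sA_aix`; **`pkC_of`** : `PkC` from `Pk`, the locality of the native gates (`ae`, `loc`), no ends of cells (`ne`), free cells (`fr`).
-/

set_option autoImplicit false

noncomputable section

open MeasureTheory Topology Set Filter unitInterval

open scoped ENNReal Classical

namespace Pool.Agent.ROT.F3.CK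

open Pool.Agent.ROT.F3 Pool.Agent.ROT.F3.CC Pool.Agent.ROT.F3.LF Pool.Agent.ROT.F3.Nul Pool.Agent.ROT.F3.Bt Pool.Agent.ROT.F3E

lemma sA_aix (k : Arm) : sA k = aix k := by cases k <;> rfl

lemma acl_if (P : Prm) (a : Fin 3) : (if a = 0 then P.A0 else P.Ac a) = acl P a := by
  funext N
  unfold acl
  split_ifs <;> rfl

/-- **from `Pk` to `PkC`** -/
theorem pkC_of {V : Ultrafilter ℕ} {L : ℝ} {PG : Measure CC.Gm} {P : Prm} {i j : Fin 3} {t0 c0 : ℝ} {K0 KR : Arm → GP}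
    {G0 H : Ga} {Hl : ℕ → ℕ → Ga} {y : ℕ → W3 × ℕ → Fin 4 → ℝ} {A : CC.Gm → Fin 4 → ℝ} {Gd : Option (ℕ × ℕ) → Set CC.Gm}
    (ok : P.Ok) (hPz : PG.map (rotX P.u) = PG) (hP : ∀ᵐ y ∂PG, 0 < y.1)
    (h : Pk (V : Filter ℕ) L PG P i j t0 c0 K0 KR G0 H Hl y A)
    (ae : ∀ n, ∀ᵐ g ∂PG, jwR P i j (Hx H Hl n) g ≠ 0 → g ∈ Gd n)
    (loc : ∀ k, LocB P i j G0 (Hx H Hl) (fun n => jwR P i j (Hx H Hl n)) Gd k)
    (ne : ∀ᵐ g ∂PG, ∀ (s : Fin 4) (n : ℕ) (k : ℤ), (jDR P i j).l s + A g s ≠ lft t0 n k)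
    (fr : ∀ᵐ g ∂PG, jwR P i j H g ≠ 0 → g ∈ jEp P i j G0 H → g ∈ jEq P i j G0 H → ∀ᶠ n in atTop, ∀ k : Fin 4 → ℤ,
      (k = fun s => kn t0 n ((jDR P i j).l s + A g s)) → rotX P.u⁻¹ g ∈ jKR P i j (Hl (ci n k) (cj n k)) ∧
        ∀ s, lft t0 n (k s + 1) < lamF (jDR P i j) (phi8 (Hl (ci n k) (cj n k)).B (Hl (ci n k) (cj n k)).c
          (Hl (ci n k) (cj n k)).x) (rotX P.u⁻¹ g) s) :
    PkC V L PG P i j t0 G0 H Hl y A Gd where
  m0 := h.ms0
  mH := fun n => by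
    cases n with
    | none => exact h.msR
    | some q => exact h.msl q.1 q.2
  u0 := h.un0
  uH := fun n => by
    cases n with
    | none => exact h.unR
    | some q => exact h.unl q.1 q.2
  z0 := h.l0
  full := h.llf
  sub := fun m n => by
    rw [← acl_if, ← acl_if]
    exact h.ll m n
  fn := by
    rw [← acl_if, ← acl_if]
    exact h.lR
  lu := h.yA
  cl := fun n => by
    cases n with
    | none =>
      refine ⟨fun g => A (rotX P.u g), fun g s => h.A0 _ _, ?_⟩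
      filter_upwards [h.kR] with g hg hR
      exact (hg (jKR_sub P i j H hR)).1
    | some q =>
      refine ⟨fun _ => yv (jDR P i j) t0 q.1 q.2, fun _ s => yv_nonneg _ _ _ _ _, ?_⟩
      filter_upwards [h.kl q.1 q.2] with g hg hR
      exact (hg (jKR_sub P i j (Hl q.1 q.2) hR)).1
  jh := by
    have e : (fun (k : Arm) (g : CC.Gm) => A g (sA k)) = fun k g => A g (aix k) := by
      funext k g
      rw [sA_aix]
    rw [e]
    exact h.jh ok ok.u hPz hP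
  e4 := by
    filter_upwards [h.Ax .fp, h.Ax .bq, h.Ax .fq, h.Ax .bp] with g a1 a2 a3 a4 k hk
    rw [sA_aix]
    cases k
    · exact ⟨(a1 hk).1, (a1 hk).2.symm⟩
    · exact ⟨(a2 hk).1, (a2 hk).2.symm⟩
    · exact ⟨(a3 hk).1, (a3 hk).2.symm⟩
    · exact ⟨(a4 hk).1, (a4 hk).2.symm⟩
  ae := ae
  loc := loc
  ne := ne
  fr := fr

end Pool.Agent.ROT.F3.CK
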