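import Pool.Agent.ROT.F3MO
import Pool.Agent.ROT.F3Fin4

/-!
# ROT, F3, row Core (helper17): the row `CrRow` for the output of the marks

* `QpRow` : positivity of the companions for almost all data (helper76);
* **`crRow_of`** : `CrRow z MO` from `QpRow z`.
-/

set_option autoImplicit false

open MeasureTheory Filter Topology Set
open scoped ENNReal NNReal

namespace Pool.Agent.ROT.F3E

open Pool.Agent.ROT.F3 Pool.Agent.ROT.F3.CC Pool.Agent.ROT.F3.Bt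
open Pool.Agent.ROT.F (Nm nm_bd nm_ratio nm_top)

/-- **positivity of the companions**, for almost all data (helper76) -/
def QpRow (z : ℂ) : Prop := ∃ τ0 : ℝ, 0 < τ0 ∧ ∀ τ : ℝ, 0 < τ → τ ≤ τ0 → AEv z τ fun U P =>
  ∀ (β b : Fin 3 → Measure Pie) (t t' : Fin 3 → Pie → ℝ) (C : Fin 3 → Set Pie) (D : MDat),
    ClsL (U.map Nm : Ultrafilter ℕ) P β b → (∀ a, Measurable (t a)) → (∀ a, Measurable (t' a)) → (∀ a, MeasurableSet (C a)) →
      MOut U P β b t t' C D → QPos P D.ρ β t t' C 0 1 3 ∧ QPos P D.ρ β t t' C 1 2 5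

/-- **product form, order and durations of the marks** -/
theorem crRow_of {z : ℂ} (q : QpRow z) : CrRow z MO := by
  obtain ⟨τ0, hτ0, q⟩ := q
  refine ⟨τ0, hτ0, fun τ hτ hτ' => ?_⟩
  refine ((q τ hτ hτ').and ((AEv.top (z := z) (τ := τ)).and (AEv.near (z := z) (τ := τ) one_pos))).mono fun U P hq => ?_
  obtain ⟨q, hU, h, ρ1, -, -, hn1⟩ := hq
  rintro β b t t' C H mt mt' mC ⟨D, M⟩
  obtain ⟨q12, q23⟩ := q β b t t' C D H mt mt' mC M
  have hn := M.near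
  have hV := nm_map_top hU
  have hC0 := M.vc 0
  have e := hn1.u
  refine ⟨?_, good_fin h M.ρ0 hn.p hn.q hV H mt mt' mC hC0, short_fin h M.ρ0 hn.p hn.q hV H mt mt' mC hC0⟩
  have k := core_fin h M.ρ0 hn.p hn.q hV H mt mt' mC hC0 (M.pr 0) (M.pr 1) (M.pr 2) q12 q23
  rwa [e] at k

/-- **the row for all rotations near the identity** -/
theorem crRow_all (q : ∃ φ : ℝ, 0 < φ ∧ ∀ z : ℂ, ‖z‖ = 1 → ‖z - 1‖ ≤ φ → QpRow z) :
    ∃ φ : ℝ, 0 < φ ∧ ∀ z : ℂ, ‖z‖ = 1 → ‖z - 1‖ ≤ φ → CrRow z MO :=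
  q.imp fun _ h => ⟨h.1, fun z hz hz' => crRow_of (h.2 z hz hz')⟩

end Pool.Agent.ROT.F3E
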