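import Pool.Agent.ART.StrandN
import Pool.Agent.ART.PathT

/-!
# ROT, F3 (B), row C5b (helper39): induced lattice paths with prescribed straight first and last steps

`stub_path`: from a chain of nodes (`ARM.Sp`) between the ends of two straight stubs to an induced path with turns by 0 or
+-60 degrees (`ARM.IPg` in the form of the vertices) which starts and ends with the stubs.
-/

set_option autoImplicit false

namespace HexObs

namespace ROT

namespace F3S

open Finset TS SDN ARM ART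

lemma nrm_smul_d {d : Pt} (hd : d ∈ dirs) (i : ℤ) : nrm (i • d) = i ^ 2 := by
  have h1 : nrm d = 1 := mem_dirs.1 hd
  obtain ⟨x, y⟩ := d
  simp only [nrm, Prod.smul_mk, smul_eq_mul] at h1 ⊢
  linear_combination i ^ 2 * h1

lemma Far.nrm_le {x y : Pt} (h : Far x y) : 3 ≤ nrm (y - x) :=
  nrm_three (fun h0 => h.1 (sub_eq_zero.1 h0)) h.2.1

/-- **a path with prescribed straight ends** -/
theorem stub_path {A : Pt → Prop} {a b d d' : Pt} {s s' : ℕ} (hd : d ∈ dirs) (hd' : d' ∈ dirs)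
    (hp : Relation.ReflTransGen (Sp A) (a + (s : ℤ) • d) b)
    (hA : ∀ x, A x → x ≠ a + (s : ℤ) • d → ∀ i : ℕ, i < s → Far (a + (i : ℤ) • d) x)
    (hB : ∀ x, A x ∨ x = a + (s : ℤ) • d → x ≠ b → ∀ i : ℕ, 1 ≤ i → i ≤ s' → Far x (b + (i : ℤ) • d'))
    (hAB : ∀ i : ℕ, i < s → ∀ j : ℕ, j ≤ s' → Far (a + (i : ℤ) • d) (b + (j : ℤ) • d')) :
    ∃ (m : ℕ) (f : ℕ → Pt), (∀ i, i ≤ s → f i = a + (i : ℤ) • d) ∧
      (∀ i, i ≤ s' → f (s + m + i) = b + (i : ℤ) • d') ∧
      (∀ i, i < s + m + s' → f (i + 1) - f i ∈ dirs) ∧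
      (∀ i, i + 1 < s + m + s' → f (i + 1 + 1) - f (i + 1) = f (i + 1) - f i ∨
        f (i + 1 + 1) - f (i + 1) = rotL (f (i + 1) - f i) ∨ f (i + 1 + 1) - f (i + 1) = rotR (f (i + 1) - f i)) ∧
      (∀ i j, i + 1 < j → j ≤ s + m + s' → 3 ≤ nrm (f j - f i)) ∧
      (∀ i, s < i → i ≤ s + m → A (f i)) := by
  obtain ⟨m, g, g0, gm, gS, gn, gi⟩ := short_path hp
  have gA : ∀ i, 1 ≤ i → i ≤ m → A (g i) := by
    intro i h1 h2
    have h3 := (gS (i - 1) (by omega)).2
    rwa [show i - 1 + 1 = i by omega] at h3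
  have gA' : ∀ i, i ≤ m → A (g i) ∨ g i = a + (s : ℤ) • d := by
    intro i h2
    rcases Nat.eq_zero_or_pos i with h | h
    · right; rw [h, g0]
    · exact Or.inl (gA i h h2)
  obtain ⟨f, hf⟩ : ∃ f : ℕ → Pt, f = fun i => if i ≤ s then a + (i : ℤ) • d else
      if i ≤ s + m then g (i - s) else b + ((i - s - m : ℕ) : ℤ) • d' := ⟨_, rfl⟩
  have f1 : ∀ i, i ≤ s → f i = a + (i : ℤ) • d := by
    intro i hi
    rw [hf]
    simp only
    rw [if_pos hi]
  have f2 : ∀ i, i ≤ m → f (s + i) = g i := by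
    intro i hi
    rcases Nat.eq_zero_or_pos i with h | h
    · rw [h, add_zero, f1 s le_rfl, g0]
    · rw [hf]
      simp only
      rw [if_neg (by omega), if_pos (by omega), show s + i - s = i by omega]
  have f3 : ∀ i, f (s + m + i) = b + (i : ℤ) • d' ∨ (i = 0 ∧ f (s + m + i) = b) := by
    intro i
    rcases Nat.eq_zero_or_pos i with h | h
    · right
      refine ⟨h, ?_⟩
      rw [h, add_zero, f2 m le_rfl, gm]
    · left
      rw [hf]
      simp only
      rw [if_neg (by omega), if_neg (by omega), show s + m + i - s - m = i by omega]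
  have f3' : ∀ i, f (s + m + i) = b + (i : ℤ) • d' := by
    intro i
    rcases f3 i with h | ⟨h1, h⟩
    · exact h
    · rw [h, h1, Nat.cast_zero, zero_smul, add_zero]
  have fst : ∀ i, i < s + m + s' → f (i + 1) - f i ∈ dirs := by
    intro i hi
    rcases Nat.lt_or_ge i s with h | h
    · rw [f1 i h.le, f1 (i + 1) (by omega)]
      have e : a + ((i + 1 : ℕ) : ℤ) • d - (a + (i : ℤ) • d) = d := by
        push_cast
        rw [add_smul, one_smul]
        abel
      rw [e]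
      exact hd
    · rcases Nat.lt_or_ge i (s + m) with h2 | h2
      · obtain ⟨j, rfl⟩ := Nat.exists_eq_add_of_le h
        rw [f2 j (by omega), show s + j + 1 = s + (j + 1) by ring, f2 (j + 1) (by omega)]
        exact (gS j (by omega)).1
      · obtain ⟨j, rfl⟩ := Nat.exists_eq_add_of_le h2
        rw [f3' j, show s + m + j + 1 = s + m + (j + 1) by ring, f3' (j + 1)]
        have e : b + ((j + 1 : ℕ) : ℤ) • d' - (b + (j : ℤ) • d') = d' := by
          push_cast
          rw [add_smul, one_smul]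
          abel
        rw [e]
        exact hd'
  have lin : ∀ (c v : Pt), v ∈ dirs → ∀ i j : ℕ, i + 1 < j → 3 ≤ nrm (c + (j : ℤ) • v - (c + (i : ℤ) • v)) := by
    intro c v hv i j hij
    have e : c + (j : ℤ) • v - (c + (i : ℤ) • v) = ((j : ℤ) - i) • v := by
      rw [sub_smul]
      abel
    rw [e, nrm_smul_d hv]
    have : (2 : ℤ) ≤ (j : ℤ) - i := by omega
    nlinarith
  have ind : ∀ i j, i + 1 < j → j ≤ s + m + s' → 3 ≤ nrm (f j - f i) := by
    intro i j hij hj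
    rcases Nat.lt_or_ge i s with hi | hi
    · rw [f1 i hi.le]
      rcases Nat.lt_or_ge s j with h1 | h1
      · rcases Nat.lt_or_ge (s + m) j with h2 | h2
        · obtain ⟨l, rfl⟩ := Nat.exists_eq_add_of_le h2.le
          rw [f3' l]
          exact Far.nrm_le (hAB i hi l (by omega))
        · obtain ⟨l, rfl⟩ := Nat.exists_eq_add_of_le h1.le
          rw [f2 l (by omega)]
          refine Far.nrm_le (hA _ (gA l (by omega) (by omega)) ?_ i hi)
          rw [← g0]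
          exact (gn 0 l (by omega) (by omega)).symm
      · rw [f1 j h1]
        exact lin a d hd i j hij
    · rcases Nat.lt_or_ge i (s + m) with hi2 | hi2
      · obtain ⟨l, rfl⟩ := Nat.exists_eq_add_of_le hi
        rw [f2 l (by omega)]
        rcases Nat.lt_or_ge (s + m) j with h2 | h2
        · obtain ⟨l', rfl⟩ := Nat.exists_eq_add_of_le h2.le
          rw [f3' l']
          refine Far.nrm_le (hB _ (gA' l (by omega)) ?_ l' (by omega) (by omega))
          rw [← gm]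
          exact gn l m (by omega) le_rfl
        · obtain ⟨l', rfl⟩ := Nat.exists_eq_add_of_le (show s ≤ j by omega)
          rw [f2 l' (by omega)]
          refine nrm_three (fun h0 => gn l l' (by omega) (by omega) (sub_eq_zero.1 h0).symm) fun h0 => ?_
          exact gi l l' (by omega) (by omega) ⟨h0, gA l' (by omega) (by omega)⟩
      · obtain ⟨l, rfl⟩ := Nat.exists_eq_add_of_le hi2
        obtain ⟨l', rfl⟩ := Nat.exists_eq_add_of_le (show s + m ≤ j by omega)
        rw [f3' l, f3' l']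
        exact lin b d' hd' l l' (by omega)
  refine ⟨m, f, f1, fun i _ => f3' i, fst, fun i hi => ?_, ind, fun i h1 h2 => ?_⟩
  · have h1 := ind i (i + 1 + 1) (by omega) (by omega)
    have e : f (i + 1 + 1) - f i = (f (i + 1) - f i) + (f (i + 1 + 1) - f (i + 1)) := by abel
    rw [e] at h1
    refine turn_check _ (fst i (by omega)) _ (fst (i + 1) (by omega)) (fun h0 => ?_) fun h0 => ?_
    · rw [h0] at h1
      exact absurd h1 (by decide)
    · rw [mem_dirs.1 h0] at h1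
      omega
  · obtain ⟨l, rfl⟩ := Nat.exists_eq_add_of_le h1.le
    rw [f2 l (by omega)]
    exact gA l (by omega) (by omega)

/-! ### consecutive subcells of a list without repetition -/

open Lane

lemma con_head {M : List (ℤ × ℤ)} {x0 y : ℤ × ℤ} (hn : M.Nodup) (hh : M.head? = some x0) : ¬ Con M y x0 := by
  rintro ⟨s, t, rfl⟩
  cases s with
  | nil =>
    rw [List.nil_append, List.head?_cons, Option.some.injEq] at hh
    subst hh
    simp at hn
  | cons a s =>
    rw [List.cons_append, List.head?_cons, Option.some.injEq] at hh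
    subst hh
    simp at hn

lemma con_last {M : List (ℤ × ℤ)} {x1 y : ℤ × ℤ} (hn : M.Nodup) (hl : M.getLast? = some x1) : ¬ Con M x1 y := by
  rintro ⟨s, t, rfl⟩
  have h1 : x1 ∈ y :: t := by
    have h2 : (s ++ x1 :: y :: t).getLast? = (y :: t).getLast? := by
      rw [show s ++ x1 :: y :: t = (s ++ [x1]) ++ (y :: t) by simp, List.getLast?_append_of_ne_nil _ (by simp)]
    rw [h2] at hl
    exact List.mem_of_getLast? hl
  have h3 := (List.nodup_append.1 hn).2.1
  rw [List.nodup_cons] at h3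
  exact h3.1 h1

lemma con_fun {M : List (ℤ × ℤ)} {x y z : ℤ × ℤ} (hn : M.Nodup) (h1 : Con M x y) (h2 : Con M x z) : y = z := by
  induction M with
  | nil => exact absurd h1 not_con_nil
  | cons a l ih =>
    have hn' := List.nodup_cons.1 hn
    have out : ∀ {x y : ℤ × ℤ}, Con l x y → x ∈ l := by
      rintro x y ⟨s, t, rfl⟩
      simp
    rw [con_cons] at h1 h2
    rcases h1 with ⟨rfl, t, h1⟩ | h1
    · rcases h2 with ⟨_, t', h2⟩ | h2
      · rw [h1, List.cons.injEq] at h2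
        exact h2.1
      · exact absurd (out h2) hn'.1
    · rcases h2 with ⟨rfl, t', h2⟩ | h2
      · exact absurd (out h1) hn'.1
      · exact ih hn'.2 h1 h2

lemma con_inj {M : List (ℤ × ℤ)} {x y z : ℤ × ℤ} (hn : M.Nodup) (h1 : Con M y x) (h2 : Con M z x) : y = z := by
  induction M with
  | nil => exact absurd h1 not_con_nil
  | cons a l ih =>
    have hn' := List.nodup_cons.1 hn
    rw [con_cons] at h1 h2
    rcases h1 with ⟨rfl, t, h1⟩ | h1
    · rcases h2 with ⟨h2, _⟩ | h2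
      · exact h2
      · exact absurd h2 (con_head hn'.2 (by rw [h1]; rfl))
    · rcases h2 with ⟨rfl, t', h2⟩ | h2
      · exact absurd h1 (con_head hn'.2 (by rw [h2]; rfl))
      · exact ih hn'.2 h1 h2

/-! ### companions: chains of subcells with straight ends -/

/-- the subcells which have a node within one node of n -/
def NC (n : Pt) (c : ℤ × ℤ) : Prop := ∃ m : Pt, |m.1 - n.1| ≤ 1 ∧ |m.2 - n.2| ≤ 1 ∧ c = (m.1 / 4, m.2 / 4)

/-- the step `ε` into the chain makes an angle of at most 60 degrees with the stub, which leaves in the direction `ω` -/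
def Ang (ω ε : Pt) : Prop := ε = -ω ∨ ε = rotL (-ω) ∨ ε = rotR (-ω)

/-- **a companion**: a chain M of subcells from x0 to x1; straight stubs which leave the centres of x0, x1 in the directions
`ω0`, `ω1` (s, s' steps); the first and the last step of M make an angle of at most 60 degrees with them -/
structure Comp (M : List (ℤ × ℤ)) (x0 x1 ω0 ε0 ω1 ε1 : ℤ × ℤ) (s s' : ℕ) : Prop where
  ch : M.IsChain ARM.adj
  nd : M.Nodup
  hd : M.head? = some x0
  tl : M.getLast? = some x1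
  c0 : Con M x0 (x0 + ε0)
  c1 : Con M (x1 + ε1) x1
  w0 : ω0 ∈ dirs
  w1 : ω1 ∈ dirs
  e0 : ε0 ∈ D4
  e1 : ε1 ∈ D4
  a0 : Ang ω0 ε0
  a1 : Ang ω1 ε1
  s0 : ∀ i : ℕ, 1 ≤ i → i ≤ s → ∀ c, NC (ART.ctr x0 + (i : ℤ) • ω0) c → c ∈ M → c = x0
  s1 : ∀ i : ℕ, 1 ≤ i → i ≤ s' → ∀ c, NC (ART.ctr x1 + (i : ℤ) • ω1) c → c ∈ M → c = x1
  s01 : ∀ i j : ℕ, 1 ≤ i → i ≤ s → 1 ≤ j → j ≤ s' → Far (ART.ctr x0 + (i : ℤ) • ω0) (ART.ctr x1 + (j : ℤ) • ω1)

/-- the nodes of the companion -/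
def CN (M : List (ℤ × ℤ)) (x0 x1 ω0 ω1 : ℤ × ℤ) (s s' : ℕ) (n : Pt) : Prop :=
  n ∈ SN M ∨ (∃ i : ℕ, i ≤ s ∧ n = ART.ctr x0 + (i : ℤ) • ω0) ∨ ∃ i : ℕ, i ≤ s' ∧ n = ART.ctr x1 + (i : ℤ) • ω1

/-- the subcells of the companion -/
def CC (M : List (ℤ × ℤ)) (x0 x1 ω0 ω1 : ℤ × ℤ) (s s' : ℕ) (c : ℤ × ℤ) : Prop :=
  c ∈ M ∨ (∃ i : ℕ, i ≤ s ∧ NC (ART.ctr x0 + (i : ℤ) • ω0) c) ∨ ∃ i : ℕ, i ≤ s' ∧ NC (ART.ctr x1 + (i : ℤ) • ω1) c

lemma D4_dirs {δ : ℤ × ℤ} (h : δ ∈ D4) : δ ∈ dirs := by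
  rw [mem_D4] at h
  rcases h with rfl | rfl | rfl | rfl <;> decide

lemma sg_eq (p q : ℤ × ℤ) (l : ℤ) : ART.ctr p + l • (q - p) = sg p q l := by
  unfold sg ART.ctr
  refine Prod.ext ?_ ?_ <;>
  · simp only [Prod.fst_add, Prod.snd_add, Prod.smul_fst, Prod.smul_snd, smul_eq_mul, Prod.fst_sub, Prod.snd_sub]

/-- **the nodes near a node of the chain are in its cells** -/
lemma sn_NC {M : List (ℤ × ℤ)} (hM : M.IsChain ARM.adj) {x : Pt} (hx : x ∈ SN M) {c : ℤ × ℤ} (hc : NC x c) : c ∈ M := by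
  obtain ⟨p, q, hp, hq, hpq, j, hj0, hj4, rfl⟩ := sn_list hM hx
  obtain ⟨m, h1, h2, rfl⟩ := hc
  rw [abs_le] at h1 h2
  have key : (m.1 / 4, m.2 / 4) = p ∨ (m.1 / 4, m.2 / 4) = q := by
    rw [Prod.ext_iff, Prod.ext_iff]
    simp only
    rcases seg_cases hpq (i := j) with ⟨a1, a2, a3, a4⟩ | ⟨a1, a2, a3, a4⟩ | ⟨a1, a2, a3, a4⟩ | ⟨a1, a2, a3, a4⟩ |
      ⟨a1, a2, a3, a4⟩ <;> rw [a3] at h1 <;> rw [a4] at h2 <;> rw [a1, a2] <;> omega
  rcases key with h | h <;> rw [h] <;> assumption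

/-- **the nodes near the companion are in its cells** -/
lemma cn_NC {M : List (ℤ × ℤ)} {x0 x1 ω0 ω1 : ℤ × ℤ} {s s' : ℕ} (hM : M.IsChain ARM.adj) {n : Pt}
    (hn : CN M x0 x1 ω0 ω1 s s' n) {c : ℤ × ℤ} (hc : NC n c) : CC M x0 x1 ω0 ω1 s s' c := by
  rcases hn with h | ⟨i, hi, rfl⟩ | ⟨i, hi, rfl⟩
  · exact Or.inl (sn_NC hM h hc)
  · exact Or.inr (Or.inl ⟨i, hi, hc⟩)
  · exact Or.inr (Or.inr ⟨i, hi, hc⟩)

/-- points of the fine lattice near a node -/
lemma near_NC {D : ℤ} (hD : 0 < D) {n v : Pt} (h1 : |v.1 - D * n.1| < D) (h2 : |v.2 - D * n.2| < D) :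
    NC n (ce (4 * D) v) := by
  have key : ∀ a b : ℤ, |a - D * b| < D → |a / D - b| ≤ 1 := by
    intro a b h
    rw [abs_lt] at h
    have e1 := Int.emod_add_mul_ediv a D
    have e2 := Int.emod_nonneg a hD.ne'
    have e3 := Int.emod_lt_of_pos a hD
    rw [abs_le]
    constructor <;> nlinarith
  refine ⟨(v.1 / D, v.2 / D), key _ _ h1, key _ _ h2, ?_⟩
  unfold ce
  simp only
  rw [Int.ediv_ediv_of_nonneg hD.le, Int.ediv_ediv_of_nonneg hD.le, mul_comm]

lemma ctr_inj {p q : ℤ × ℤ} (h : ART.ctr p = ART.ctr q) : p = q := by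
  unfold ART.ctr at h
  rw [Prod.mk.injEq] at h
  exact Prod.ext (by omega) (by omega)

lemma NC_self_of_near {n x : Pt} (h : x - n = 0 ∨ x - n ∈ dirs) : NC n (x.1 / 4, x.2 / 4) := by
  have := near_of_dir h
  exact ⟨x, this.1, this.2, rfl⟩

lemma far_or (x y : Pt) : Far x y ∨ (y - x = 0 ∨ y - x ∈ dirs) := by
  by_cases h1 : y - x = 0
  · exact Or.inr (Or.inl h1)
  · by_cases h2 : y - x ∈ dirs
    · exact Or.inr (Or.inr h2)
    · left
      refine ⟨fun h => h1 (by rw [h, sub_self]), h2, fun h => h2 ?_⟩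
      have := neg_mem_dirs h
      rwa [neg_sub] at this

lemma ang_nrm {ω ε : Pt} (hω : ω ∈ dirs) (h : Ang ω ε) {i j : ℤ} (hi : 1 ≤ i) (hj : 1 ≤ j) :
    3 ≤ nrm (j • ε - i • ω) := by
  have key : ∀ ω ∈ dirs, ∀ ε ∈ dirs, (ε = -ω ∨ ε = rotL (-ω) ∨ ε = rotR (-ω)) → ip ε ω ≤ -1 := by decide
  have hε : ε ∈ dirs := by
    have k : ∀ ω ∈ dirs, -ω ∈ dirs ∧ rotL (-ω) ∈ dirs ∧ rotR (-ω) ∈ dirs := by decide
    rcases h with rfl | rfl | rfl
    · exact (k ω hω).1
    · exact (k ω hω).2.1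
    · exact (k ω hω).2.2
  have h1 := key ω hω ε hε h
  have h2 : nrm ω = 1 := mem_dirs.1 hω
  have h3 : nrm ε = 1 := mem_dirs.1 hε
  have e : nrm (j • ε - i • ω) = j ^ 2 * nrm ε + i ^ 2 * nrm ω - i * j * ip ε ω := by
    simp only [nrm, ip, Prod.fst_sub, Prod.snd_sub, Prod.smul_fst, Prod.smul_snd, smul_eq_mul]
    ring
  rw [e, h2, h3]
  nlinarith [mul_pos (show (0 : ℤ) < i by omega) (show (0 : ℤ) < j by omega)]

/-- a node of the chain and a node of the stub -/
lemma far_gen {M : List (ℤ × ℤ)} (hM : M.IsChain ARM.adj) {x0 ω ε : ℤ × ℤ} (hω : ω ∈ dirs) (ha : Ang ω ε)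
    (n1 : ∀ q, Con M x0 q → q = x0 + ε) (n2 : ∀ p, Con M p x0 → p = x0 + ε) {s : ℕ}
    (ho : ∀ i : ℕ, 1 ≤ i → i ≤ s → ∀ c, NC (ART.ctr x0 + (i : ℤ) • ω) c → c ∈ M → c = x0) {x : Pt} (hx : x ∈ SN M)
    (hx0 : x ≠ ART.ctr x0) {i : ℕ} (h1 : 1 ≤ i) (h2 : i ≤ s) : Far (ART.ctr x0 + (i : ℤ) • ω) x := by
  rcases far_or (ART.ctr x0 + (i : ℤ) • ω) x with h | h
  · exact h
  · exfalso
    have hc := NC_self_of_near h
    have hM' : (x.1 / 4, x.2 / 4) ∈ M := sn_NC hM hx ⟨x, by simp, by simp, rfl⟩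
    have hcx := ho i h1 h2 _ hc hM'
    have fin : ∀ j : ℤ, 1 ≤ j → x = ART.ctr x0 + j • ε → False := by
      intro j hj e
      have e2 : x - (ART.ctr x0 + (i : ℤ) • ω) = j • ε - (i : ℤ) • ω := by
        rw [e]
        abel
      have h3 := ang_nrm hω ha (i := i) (by exact_mod_cast h1) hj
      rw [← e2] at h3
      rcases h with h | h
      · rw [h] at h3
        exact absurd h3 (by decide)
      · rw [mem_dirs.1 h] at h3
        omega
    rcases hx with ⟨p, hp, rfl⟩ | ⟨p, p', hcon, l, hl0, hl4, rfl⟩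
    · refine hx0 ?_
      have : p = x0 := by
        rw [← hcx]
        unfold ART.ctr
        refine Prod.ext ?_ ?_ <;> simp only <;> omega
      rw [this]
    · have hpp : ARM.adj p p' := by
        obtain ⟨s, t, rfl⟩ := hcon
        rw [List.isChain_append_cons_cons] at hM
        exact hM.2.1
      have hor : p = x0 ∨ p' = x0 := by
        rw [sg_eq] at hcx
        rw [← hcx]
        rw [Prod.ext_iff, Prod.ext_iff]
        simp only
        rcases seg_cases (Or.inr hpp) (i := l) with ⟨a1, a2, a3, a4⟩ | ⟨a1, a2, a3, a4⟩ | ⟨a1, a2, a3, a4⟩ | ⟨a1, a2, a3, a4⟩ |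
          ⟨a1, a2, a3, a4⟩ <;> rw [a3, a4, a1, a2] <;> omega
      rcases hor with c1 | c2
      · subst c1
        have e1 := n1 p' hcon
        subst e1
        have e2 : ART.ctr p + l • (p + ε - p) = ART.ctr p + l • ε := by
          rw [add_sub_cancel_left]
        rw [e2] at hx0
        have hl1 : l ≠ 0 := by
          rintro rfl
          rw [zero_smul, add_zero] at hx0
          exact hx0 rfl
        exact fin l (by omega) e2
      · subst c2
        have e1 := n2 p hcon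
        subst e1
        have e3 : ART.ctr (p' + ε) + l • (p' - (p' + ε)) = ART.ctr p' + (4 - l) • ε := by
          unfold ART.ctr
          refine Prod.ext ?_ ?_ <;>
          · simp only [Prod.fst_add, Prod.snd_add, Prod.smul_fst, Prod.smul_snd, smul_eq_mul, Prod.fst_sub, Prod.snd_sub]
            ring
        rw [e3] at hx0
        have hl1 : l ≠ 4 := by
          rintro rfl
          rw [sub_self, zero_smul, add_zero] at hx0
          exact hx0 rfl
        exact fin (4 - l) (by omega) e3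

/-- **the path of a companion**: induced, turns by 0 or +-60 degrees, straight ends -/
theorem comp_path {M : List (ℤ × ℤ)} {x0 x1 ω0 ε0 ω1 ε1 : ℤ × ℤ} {s s' : ℕ} (h : Comp M x0 x1 ω0 ε0 ω1 ε1 s s') :
    ∃ (m : ℕ) (f : ℕ → Pt), (∀ i, i ≤ s → f i = ART.ctr x0 + ((s - i : ℕ) : ℤ) • ω0) ∧
      (∀ i, i ≤ s' → f (s + m + i) = ART.ctr x1 + (i : ℤ) • ω1) ∧
      (∀ i, i < s + m + s' → f (i + 1) - f i ∈ dirs) ∧
      (∀ i, i + 1 < s + m + s' → f (i + 1 + 1) - f (i + 1) = f (i + 1) - f i ∨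
        f (i + 1 + 1) - f (i + 1) = rotL (f (i + 1) - f i) ∨ f (i + 1 + 1) - f (i + 1) = rotR (f (i + 1) - f i)) ∧
      (∀ i j, i + 1 < j → j ≤ s + m + s' → 3 ≤ nrm (f j - f i)) ∧
      (∀ i, i ≤ s + m + s' → CN M x0 x1 ω0 ω1 s s' (f i)) ∧ (∀ i, s ≤ i → i ≤ s + m → f i ∈ SN M) := by
  have hx0 : x0 ∈ M := List.mem_of_mem_head? h.hd
  have hx1 : x1 ∈ M := List.mem_of_getLast? h.tl
  have nω : -ω0 ∈ dirs := neg_mem_dirs h.w0
  have h01 : x1 ≠ x0 := by
    intro h1
    have h2 := h.c0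
    rw [← h1] at h2
    exact con_last h.nd h.tl h2
  have eI : ∀ i : ℕ, i ≤ s → ART.ctr x0 + (s : ℤ) • ω0 + (i : ℤ) • (-ω0) = ART.ctr x0 + ((s - i : ℕ) : ℤ) • ω0 := by
    intro i hi
    rw [Nat.cast_sub hi, sub_smul, smul_neg]
    abel
  have eσ : ART.ctr x0 + (s : ℤ) • ω0 + (s : ℤ) • (-ω0) = ART.ctr x0 := by
    rw [smul_neg]
    abel
  have F0 : ∀ x ∈ SN M, x ≠ ART.ctr x0 → ∀ i : ℕ, 1 ≤ i → i ≤ s → Far (ART.ctr x0 + (i : ℤ) • ω0) x := by
    intro x hx hne i h1 h2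
    exact far_gen h.ch h.w0 h.a0 (fun q hq => con_fun h.nd hq h.c0) (fun p hp => absurd hp (con_head h.nd h.hd)) h.s0 hx hne
      h1 h2
  have F1 : ∀ x ∈ SN M, x ≠ ART.ctr x1 → ∀ i : ℕ, 1 ≤ i → i ≤ s' → Far (ART.ctr x1 + (i : ℤ) • ω1) x := by
    intro x hx hne i h1 h2
    exact far_gen h.ch h.w1 h.a1 (fun q hq => absurd hq (con_last h.nd h.tl)) (fun p hp => con_inj h.nd hp h.c1) h.s1 hx hne
      h1 h2
  obtain ⟨m, f, f1, f2, f3, f4, f5, f6⟩ := stub_path (A := fun x => x ∈ SN M) (a := ART.ctr x0 + (s : ℤ) • ω0)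
    (b := ART.ctr x1) (d := -ω0) (d' := ω1) (s := s) (s' := s') nω h.w1 (by
      rw [eσ]
      have h1 := (snw_last h.ch 0 h.hd h.tl).1
      rw [zero_add, zero_add] at h1
      refine Relation.ReflTransGen.mono (fun x y hxy => ?_) _ _ h1
      refine ⟨hxy.1, ?_⟩
      obtain ⟨z, hz, e⟩ := hxy.2
      rw [zero_add] at e
      rwa [e]) (by
      intro x hx hne i hi
      rw [eσ] at hne
      rw [eI i hi.le]
      exact F0 x hx hne _ (by omega) (by omega)) (by
      intro x hx hne i h1 h2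
      have hx' : x ∈ SN M := by
        rcases hx with hx | hx
        · exact hx
        · rw [hx, eσ]
          exact Or.inl ⟨x0, hx0, rfl⟩
      have := F1 x hx' hne i h1 h2
      exact ⟨this.1.symm, this.2.2, this.2.1⟩) (by
      intro i hi j hj
      rw [eI i hi.le]
      rcases Nat.eq_zero_or_pos j with h1 | h1
      · rw [h1, Nat.cast_zero, zero_smul, add_zero]
        exact F0 _ (Or.inl ⟨x1, hx1, rfl⟩) (fun hc => h01 (ctr_inj hc)) _ (by omega) (by omega)
      · exact h.s01 _ j (by omega) (by omega) h1 hj)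
  refine ⟨m, f, fun i hi => by rw [f1 i hi, eI i hi], f2, f3, f4, f5, fun i hi => ?_, fun i h1 h2 => ?_⟩
  · rcases Nat.lt_or_ge s i with h1 | h1
    · rcases Nat.lt_or_ge (s + m) i with h2 | h2
      · obtain ⟨j, rfl⟩ := Nat.exists_eq_add_of_le h2.le
        exact Or.inr (Or.inr ⟨j, by omega, f2 j (by omega)⟩)
      · exact Or.inl (f6 i h1 h2)
    · exact Or.inr (Or.inl ⟨s - i, by omega, by rw [f1 i h1, eI i h1]⟩)
  · rcases Nat.lt_or_ge s i with h3 | h3
    · exact f6 i h3 h2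
    · obtain rfl : i = s := le_antisymm h3 h1
      rw [f1 i le_rfl, eσ]
      exact Or.inl ⟨x0, hx0, rfl⟩

end F3S

end ROT

end HexObs
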