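import Pool.Agent.ROT.F3Real
import Pool.Agent.ROT.F3Stub

/-!
# F3, fine lanes (helper64)

A chain of square cells is refined by an integer factor `K`: the fine cells along the segments between the centres of consecutive
cells. All fine cells within `K / 2 - 1` of the fine chain are in the cells of the coarse chain.
-/

set_option autoImplicit false

namespace HexObs

namespace ROT

namespace F3L

open ARM (adj nr nr_iff nr_symm nr_trans nr_mono nr_self)
open ART ART.Lane Set

/-- the central fine cell -/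
def fc (K : ℕ) (c : ℤ × ℤ) : ℤ × ℤ := ((K : ℤ) * c.1 + ((K / 2 : ℕ) : ℤ), (K : ℤ) * c.2 + ((K / 2 : ℕ) : ℤ))

/-- the coarse cell of a fine cell -/
def co (K : ℕ) (x : ℤ × ℤ) : ℤ × ℤ := (x.1 / (K : ℤ), x.2 / (K : ℤ))

/-- the fine path along a coarse path -/
def fp (K : ℕ) (f : ℕ → ℤ × ℤ) (t : ℕ) : ℤ × ℤ := fc K (f (t / K)) + ((t % K : ℕ) : ℤ) • (f (t / K + 1) - f (t / K))

variable {K : ℕ} {f : ℕ → ℤ × ℤ} {n : ℕ}

lemma fp_eq {i j : ℕ} (hj : j < K) : fp K f (K * i + j) = fc K (f i) + (j : ℤ) • (f (i + 1) - f i) := by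
  unfold fp
  have h1 : (K * i + j) / K = i := by
    rw [Nat.mul_add_div (by omega), Nat.div_eq_of_lt hj, add_zero]
  have h2 : (K * i + j) % K = j := by
    rw [Nat.mul_add_mod, Nat.mod_eq_of_lt hj]
  rw [h1, h2]

lemma fc_add (c δ : ℤ × ℤ) : fc K (c + δ) = fc K c + (K : ℤ) • δ := by
  unfold fc
  refine Prod.ext ?_ ?_ <;>
  · simp only [Prod.fst_add, Prod.snd_add, Prod.smul_fst, Prod.smul_snd, smul_eq_mul]
    ring

lemma fp_eq' (hK : 0 < K) {i j : ℕ} (hj : j ≤ K) : fp K f (K * i + j) = fc K (f i) + (j : ℤ) • (f (i + 1) - f i) := by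
  rcases Nat.lt_or_ge j K with h | h
  · exact fp_eq h
  · have e : j = K := by omega
    subst e
    have e2 : j * i + j = j * (i + 1) + 0 := by ring
    rw [e2, fp_eq hK, Nat.cast_zero, zero_smul, add_zero]
    have h3 := fc_add (K := j) (f i) (f (i + 1) - f i)
    rw [add_sub_cancel] at h3
    exact h3

lemma fp_adj (hK : 0 < K) (hf : ∀ i, i < n → adj (f i) (f (i + 1))) {t : ℕ} (ht : t < K * n) :
    adj (fp K f t) (fp K f (t + 1)) := by
  obtain ⟨i, j, hj, rfl⟩ : ∃ i j, j < K ∧ t = K * i + j := ⟨t / K, t % K, Nat.mod_lt _ hK, (Nat.div_add_mod t K).symm⟩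
  have hi : i < n := by
    by_contra hc
    have := Nat.mul_le_mul_left K (Nat.le_of_not_lt hc)
    omega
  rw [fp_eq hj, add_assoc, fp_eq' hK (by omega : j + 1 ≤ K), adj_sub]
  have e : fc K (f i) + ((j + 1 : ℕ) : ℤ) • (f (i + 1) - f i) - (fc K (f i) + (j : ℤ) • (f (i + 1) - f i)) = f (i + 1) - f i := by
    push_cast
    rw [add_smul, one_smul]
    abel
  rw [e]
  exact adj_sub.1 (hf i hi)

lemma edq {K a y : ℤ} (hK : 0 < K) (h1 : K * a ≤ y) (h2 : y < K * a + K) : y / K = a := by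
  rw [Int.ediv_eq_iff_of_pos hK]
  constructor <;> nlinarith

lemma eu {K a b i j : ℤ} (h : K * a + i = K * b + j) (hi : 0 ≤ i) (hi' : i < K) (hj : 0 ≤ j) (hj' : j < K) : a = b ∧ i = j := by
  have hK : 0 < K := by omega
  have h1 := edq hK (a := a) (y := K * a + i) (by omega) (by omega)
  have h2 := edq hK (a := b) (y := K * a + i) (by omega) (by omega)
  have h3 : a = b := by rw [← h1, h2]
  subst h3
  exact ⟨rfl, by omega⟩

/-- two fine segments meet only at common coarse cells -/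
lemma seg_inter {c d δ ε : ℤ × ℤ} {i j : ℤ} (hi : 0 ≤ i) (hi' : i < K) (hj : 0 ≤ j) (hj' : j < K) (hδ : i = 0 ∨ δ ∈ D4)
    (hε : j = 0 ∨ ε ∈ D4) (h : fc K c + i • δ = fc K d + j • ε) :
    c = d ∨ (0 < i ∧ 0 < j ∧ d = c + δ ∧ d + ε = c) := by
  have hK : (0 : ℤ) < K := by omega
  have h1 := congrArg Prod.fst h
  have h2 := congrArg Prod.snd h
  unfold fc at h1 h2
  simp only [Prod.fst_add, Prod.snd_add, Prod.smul_fst, Prod.smul_snd, smul_eq_mul] at h1 h2
  have key : ∀ {a b x y : ℤ}, (K : ℤ) * a + x = (K : ℤ) * b + y → 0 ≤ x → x < K → -(K : ℤ) < y → y ≤ 0 →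
      (a = b ∧ x = 0 ∧ y = 0) ∨ (b = a + 1 ∧ 0 < x ∧ y < 0) := by
    intro a b x y h hx hx' hy hy'
    rcases eq_or_ne y 0 with h0 | h0
    · subst h0
      obtain ⟨e1, e2⟩ := eu h hx hx' le_rfl (by omega)
      exact Or.inl ⟨e1, e2, rfl⟩
    · right
      obtain ⟨e1, e2⟩ := eu (K := K) (a := a) (b := b - 1) (i := x) (j := y + K) (by rw [mul_sub]; linarith) hx hx' (by omega)
        (by omega)
      exact ⟨by omega, by omega, by omega⟩
  obtain ⟨c1, c2⟩ := c
  obtain ⟨d1, d2⟩ := d
  obtain ⟨δ1, δ2⟩ := δ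
  obtain ⟨ε1, ε2⟩ := ε
  simp only [Prod.mk_add_mk, Prod.mk.injEq] at h1 h2 ⊢
  have zero1 : ∀ {a b y : ℤ}, (K : ℤ) * a = (K : ℤ) * b + y → -(K : ℤ) < y → y < K → a = b ∧ y = 0 := by
    intro a b y h h3 h4
    rcases le_total 0 y with h5 | h5
    · obtain ⟨e1, e2⟩ := eu (K := K) (a := a) (b := b) (i := 0) (j := y) (by linarith) le_rfl hK h5 h4
      exact ⟨e1, e2.symm⟩
    · rcases key (a := a) (b := b) (x := 0) (y := y) (by linarith) le_rfl hK h3 h5 with h6 | h6
      · exact ⟨h6.1, h6.2.2⟩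
      · omega
  have bd : ∀ {j e : ℤ}, 0 ≤ j → j < K → (e = 1 ∨ e = -1 ∨ e = 0) → -(K : ℤ) < j * e ∧ j * e < K := by
    intro j e h0 h1 he
    rcases he with rfl | rfl | rfl
    · rw [mul_one]; omega
    · rw [mul_neg_one]; omega
    · rw [mul_zero]; omega
  rcases eq_or_ne i 0 with hi0 | hi0
  · left
    subst hi0
    rcases eq_or_ne j 0 with hj0 | hj0
    · subst hj0
      rw [zero_mul, zero_mul] at h1 h2
      exact ⟨(zero1 (a := c1) (b := d1) (y := 0) (by linarith) (by omega) (by omega)).1,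
        (zero1 (a := c2) (b := d2) (y := 0) (by linarith) (by omega) (by omega)).1⟩
    · have hε' := hε.resolve_left hj0
      rw [mem_D4] at hε'
      simp only [Prod.mk.injEq] at hε'
      obtain ⟨b1, b2⟩ := bd (e := ε1) hj hj' (by omega)
      obtain ⟨b3, b4⟩ := bd (e := ε2) hj hj' (by omega)
      exact ⟨(zero1 (a := c1) (b := d1) (y := j * ε1) (by linarith) b1 b2).1,
        (zero1 (a := c2) (b := d2) (y := j * ε2) (by linarith) b3 b4).1⟩
  rcases eq_or_ne j 0 with hj0 | hj0
  · left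
    subst hj0
    have hδ' := hδ.resolve_left hi0
    rw [mem_D4] at hδ'
    simp only [Prod.mk.injEq] at hδ'
    obtain ⟨b1, b2⟩ := bd (e := δ1) hi hi' (by omega)
    obtain ⟨b3, b4⟩ := bd (e := δ2) hi hi' (by omega)
    exact ⟨((zero1 (a := d1) (b := c1) (y := i * δ1) (by linarith) b1 b2).1).symm,
      ((zero1 (a := d2) (b := c2) (y := i * δ2) (by linarith) b3 b4).1).symm⟩
  have hδ' := hδ.resolve_left hi0
  have hε' := hε.resolve_left hj0
  rw [mem_D4] at hδ' hε'
  simp only [Prod.mk.injEq] at hδ' hε'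
  rcases hδ' with ⟨rfl, rfl⟩ | ⟨rfl, rfl⟩ | ⟨rfl, rfl⟩ | ⟨rfl, rfl⟩ <;>
    rcases hε' with ⟨rfl, rfl⟩ | ⟨rfl, rfl⟩ | ⟨rfl, rfl⟩ | ⟨rfl, rfl⟩ <;>
    simp only [mul_one, mul_zero, mul_neg, add_zero] at h1 h2
  · have a1 := eu (a := c1) (b := d1) (i := i) (j := j) (by linarith) hi hi' hj hj'
    have a2 := zero1 (a := c2) (b := d2) (y := 0) (by linarith) (by omega) (by omega)
    exact Or.inl ⟨a1.1, a2.1⟩
  · have a1 := key (a := c1) (b := d1) (x := i) (y := -j) (by linarith) hi hi' (by omega) (by omega)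
    have a2 := zero1 (a := c2) (b := d2) (y := 0) (by linarith) (by omega) (by omega)
    omega
  · have a2 := zero1 (a := c2) (b := d2) (y := j) (by linarith) (by omega) (by omega)
    omega
  · have a2 := zero1 (a := c2) (b := d2) (y := -j) (by linarith) (by omega) (by omega)
    omega
  · have a1 := key (a := d1) (b := c1) (x := j) (y := -i) (by linarith) hj hj' (by omega) (by omega)
    have a2 := zero1 (a := c2) (b := d2) (y := 0) (by linarith) (by omega) (by omega)
    omega
  · have a1 := eu (a := c1) (b := d1) (i := j) (j := i) (by linarith) hj hj' hi hi'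
    have a2 := zero1 (a := c2) (b := d2) (y := 0) (by linarith) (by omega) (by omega)
    exact Or.inl ⟨a1.1, a2.1⟩
  · have a2 := zero1 (a := c2) (b := d2) (y := j) (by linarith) (by omega) (by omega)
    omega
  · have a2 := zero1 (a := c2) (b := d2) (y := -j) (by linarith) (by omega) (by omega)
    omega
  · have a2 := zero1 (a := c1) (b := d1) (y := j) (by linarith) (by omega) (by omega)
    omega
  · have a2 := zero1 (a := c1) (b := d1) (y := -j) (by linarith) (by omega) (by omega)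
    omega
  · have a1 := eu (a := c2) (b := d2) (i := i) (j := j) (by linarith) hi hi' hj hj'
    have a2 := zero1 (a := c1) (b := d1) (y := 0) (by linarith) (by omega) (by omega)
    exact Or.inl ⟨a2.1, a1.1⟩
  · have a1 := key (a := c2) (b := d2) (x := i) (y := -j) (by linarith) hi hi' (by omega) (by omega)
    have a2 := zero1 (a := c1) (b := d1) (y := 0) (by linarith) (by omega) (by omega)
    omega
  · have a2 := zero1 (a := c1) (b := d1) (y := j) (by linarith) (by omega) (by omega)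
    omega
  · have a2 := zero1 (a := c1) (b := d1) (y := -j) (by linarith) (by omega) (by omega)
    omega
  · have a1 := key (a := d2) (b := c2) (x := j) (y := -i) (by linarith) hj hj' (by omega) (by omega)
    have a2 := zero1 (a := c1) (b := d1) (y := 0) (by linarith) (by omega) (by omega)
    omega
  · have a1 := eu (a := c2) (b := d2) (i := j) (j := i) (by linarith) hj hj' hi hi'
    have a2 := zero1 (a := c1) (b := d1) (y := 0) (by linarith) (by omega) (by omega)
    exact Or.inl ⟨a2.1, a1.1⟩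

lemma D4_ne {δ : ℤ × ℤ} (h : δ ∈ D4) : δ ≠ 0 := by
  rw [mem_D4] at h
  rcases h with rfl | rfl | rfl | rfl <;> decide

/-- the fine path has no double points -/
lemma fp_inj (hK : 0 < K) (hf : ∀ i, i < n → adj (f i) (f (i + 1))) (hi : ∀ i j, i < j → j ≤ n → f i ≠ f j) {t t' : ℕ}
    (ht : t ≤ K * n) (ht' : t' ≤ K * n) (h : fp K f t = fp K f t') : t = t' := by
  obtain ⟨i, a, ha, rfl⟩ : ∃ i a, a < K ∧ t = K * i + a := ⟨t / K, t % K, Nat.mod_lt _ hK, (Nat.div_add_mod t K).symm⟩
  obtain ⟨j, b, hb, rfl⟩ : ∃ j b, b < K ∧ t' = K * j + b := ⟨t' / K, t' % K, Nat.mod_lt _ hK, (Nat.div_add_mod t' K).symm⟩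
  have lt_of : ∀ {i a : ℕ}, 0 < a → K * i + a ≤ K * n → i < n := by
    intro i a h1 h2
    by_contra hc
    have := Nat.mul_le_mul_left K (Nat.le_of_not_lt hc)
    omega
  have le_of : ∀ {i a : ℕ}, K * i + a ≤ K * n → i ≤ n := by
    intro i a h2
    exact Nat.le_of_mul_le_mul_left (show K * i ≤ K * n by omega) hK
  have inj : ∀ {i j : ℕ}, i ≤ n → j ≤ n → f i = f j → i = j := by
    intro i j h1 h2 h3
    rcases lt_trichotomy i j with h4 | h4 | h4
    · exact absurd h3 (hi i j h4 h2)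
    · exact h4
    · exact absurd h3.symm (hi j i h4 h1)
  rw [fp_eq ha, fp_eq hb] at h
  have dir : ∀ {i a : ℕ}, K * i + a ≤ K * n → (a : ℤ) = 0 ∨ f (i + 1) - f i ∈ D4 := by
    intro i a h2
    rcases Nat.eq_zero_or_pos a with h0 | h0
    · exact Or.inl (by rw [h0]; rfl)
    · exact Or.inr (adj_sub.1 (hf i (lt_of h0 h2)))
  rcases seg_inter (K := K) (by omega) (by omega) (by omega) (by omega) (dir ht) (dir ht') h with h1 | ⟨h1, h2, h3, h4⟩
  · have e := inj (le_of ht) (le_of ht') h1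
    subst e
    rw [add_right_inj] at h
    rcases dir ht with h0 | h0
    · have ha0 : a = 0 := by omega
      subst ha0
      rcases dir ht' with h5 | h5
      · omega
      · rw [Nat.cast_zero, zero_smul] at h
        rcases smul_eq_zero.1 h.symm with h6 | h6
        · omega
        · exact absurd h6 (D4_ne h5)
    · have h5 : ((a : ℤ) - b) • (f (i + 1) - f i) = 0 := by rw [sub_smul, h, sub_self]
      rcases smul_eq_zero.1 h5 with h6 | h6
      · omega
      · exact absurd h6 (D4_ne h0)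
  · have hin := lt_of (by omega) ht
    have hjn := lt_of (by omega) ht'
    have e1 : f j = f (i + 1) := by rw [h3]; abel
    have e2 : f (j + 1) = f i := by rw [← h4]; abel
    have k1 := inj (by omega) (by omega) e1
    have k2 := inj (by omega) (by omega) e2
    omega

/-- **the fine cells near the fine path are in the coarse cells** -/
lemma near_seg {c δ y : ℤ × ℤ} {j m : ℤ} (hj : 0 ≤ j) (hj' : j < K) (hδ : j = 0 ∨ δ ∈ D4) (hm : 2 * m + 2 ≤ K)
    (h : nr m (fc K c + j • δ) y) : co K y = c ∨ (0 < j ∧ co K y = c + δ) := by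
  have hK : (0 : ℤ) < K := by omega
  have hk : 2 * ((K / 2 : ℕ) : ℤ) ≤ K ∧ (K : ℤ) ≤ 2 * ((K / 2 : ℕ) : ℤ) + 1 := by omega
  rw [nr_iff] at h
  unfold fc at h
  unfold co
  obtain ⟨c1, c2⟩ := c
  obtain ⟨δ1, δ2⟩ := δ
  obtain ⟨y1, y2⟩ := y
  simp only [Prod.fst_add, Prod.snd_add, Prod.smul_mk, smul_eq_mul] at h
  generalize ((K / 2 : ℕ) : ℤ) = k at h hk
  rcases eq_or_ne j 0 with h0 | h0
  · left
    subst h0
    simp only [zero_mul, add_zero] at h
    rw [edq hK (a := c1) (y := y1) (by omega) (by omega), edq hK (a := c2) (y := y2) (by omega) (by omega)]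
  · have hδ' := hδ.resolve_left h0
    rw [mem_D4] at hδ'
    simp only [Prod.mk.injEq] at hδ'
    have m1 : ∀ a : ℤ, (K : ℤ) * (a + 1) = (K : ℤ) * a + K := fun a => by ring
    have m2 : ∀ a : ℤ, (K : ℤ) * (a - 1) = (K : ℤ) * a - K := fun a => by ring
    have m1' := m1 c1
    have m2' := m2 c1
    have m1'' := m1 c2
    have m2'' := m2 c2
    rcases hδ' with ⟨rfl, rfl⟩ | ⟨rfl, rfl⟩ | ⟨rfl, rfl⟩ | ⟨rfl, rfl⟩ <;>
      simp only [mul_one, mul_zero, mul_neg, add_zero] at h
    · rw [edq hK (a := c2) (y := y2) (by omega) (by omega)]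
      rcases lt_or_ge y1 (K * c1 + K) with h3 | h3
      · left
        rw [edq hK (a := c1) (y := y1) (by omega) (by omega)]
      · right
        rw [edq hK (a := c1 + 1) (y := y1) (by omega) (by omega)]
        exact ⟨by omega, by simp⟩
    · rw [edq hK (a := c2) (y := y2) (by omega) (by omega)]
      rcases lt_or_ge y1 (K * c1) with h3 | h3
      · right
        rw [edq hK (a := c1 - 1) (y := y1) (by omega) (by omega)]
        exact ⟨by omega, by simp [sub_eq_add_neg]⟩
      · left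
        rw [edq hK (a := c1) (y := y1) (by omega) (by omega)]
    · rw [edq hK (a := c1) (y := y1) (by omega) (by omega)]
      rcases lt_or_ge y2 (K * c2 + K) with h3 | h3
      · left
        rw [edq hK (a := c2) (y := y2) (by omega) (by omega)]
      · right
        rw [edq hK (a := c2 + 1) (y := y2) (by omega) (by omega)]
        exact ⟨by omega, by simp⟩
    · rw [edq hK (a := c1) (y := y1) (by omega) (by omega)]
      rcases lt_or_ge y2 (K * c2) with h3 | h3
      · right
        rw [edq hK (a := c2 - 1) (y := y2) (by omega) (by omega)]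
        exact ⟨by omega, by simp [sub_eq_add_neg]⟩
      · left
        rw [edq hK (a := c2) (y := y2) (by omega) (by omega)]

lemma fp_near (hK : 0 < K) (hf : ∀ i, i < n → adj (f i) (f (i + 1))) {t : ℕ} (ht : t ≤ K * n) {m : ℤ} (hm : 2 * m + 2 ≤ K)
    {y : ℤ × ℤ} (h : nr m (fp K f t) y) : co K y = f (t / K) ∨ (t / K < n ∧ co K y = f (t / K + 1)) := by
  obtain ⟨i, a, ha, rfl⟩ : ∃ i a, a < K ∧ t = K * i + a := ⟨t / K, t % K, Nat.mod_lt _ hK, (Nat.div_add_mod t K).symm⟩
  have e1 : (K * i + a) / K = i := by rw [Nat.mul_add_div hK, Nat.div_eq_of_lt ha, add_zero]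
  rw [e1]
  have lt_of : 0 < a → i < n := by
    intro h1
    by_contra hc
    have := Nat.mul_le_mul_left K (Nat.le_of_not_lt hc)
    omega
  rw [fp_eq ha] at h
  have dir : (a : ℤ) = 0 ∨ f (i + 1) - f i ∈ D4 := by
    rcases Nat.eq_zero_or_pos a with h0 | h0
    · exact Or.inl (by rw [h0]; rfl)
    · exact Or.inr (adj_sub.1 (hf i (lt_of h0)))
  rcases near_seg (K := K) (by omega) (by omega) dir hm h with h1 | ⟨h0, h1⟩
  · exact Or.inl h1
  · right
    refine ⟨lt_of (by omega), ?_⟩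
    rw [h1]
    abel

end F3L

end ROT

end HexObs
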