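import Pool.Agent.ROT.F3Inst

/-!
# ROT / F3For (helper61): the second level: gates inside of the rest

`R = k ++ (A ++ k'.reverse)`: `k` in `K` (tip pieces for a direction `t`, e.g. first cuts or double gates), `A` in `As` (rests for
`t`, `t'`), `k'` in `K'`. The directions `t`, `t'` are arbitrary unit vectors (nothing about the lattice is used).
* `HalfC d r δ R` : in the ball `r` the levels in the direction `d` are at least `-δ` (cones); `half_of_cone`;
* `rest_append`, **`rs_of_parts`** : conditions on `k`, `A`, `k'` separately which give `RsC` for `R`;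
* `PhiR` : the sum over the marks of `R`; **`ms_rest`** : its mass over the rests is a product; `PhiR_eq`, `PhiR_zero` : the marks
  are unique.
-/

set_option autoImplicit false

namespace Pool.Agent.ROT.F3

open Finset ComplexConjugate
open scoped ENNReal Classical

/-- in the ball `r` the levels are at least `-δ` -/
def HalfC (d : ℂ) (r δ : ℝ) (R : W3) : Prop := ∀ k : ℕ, k ≤ R.length → ‖ps R k‖ ≤ r → -δ ≤ lv d (ps R k)

lemma abs_lv_le (d z : ℂ) : |lv d z| ≤ ‖d‖ * ‖z‖ := by
  unfold lv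
  calc |(conj d * z).re| ≤ ‖conj d * z‖ := Complex.abs_re_le_norm _
    _ = ‖d‖ * ‖z‖ := by rw [norm_mul, RCLike.norm_conj]

lemma lv_diff (d t z : ℂ) : |lv d z - lv t z| ≤ ‖d - t‖ * ‖z‖ := by
  have : lv d z - lv t z = lv (d - t) z := by
    unfold lv
    rw [map_sub, sub_mul, Complex.sub_re]
  rw [this]
  exact abs_lv_le _ _

/-- a cone condition for the direction `t` gives the half plane condition for every near direction `d` -/
lemma half_of_cone {d t : ℂ} {r δ c : ℝ} {R : W3} (hc : ‖d - t‖ ≤ c)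
    (h : ∀ k : ℕ, k ≤ R.length → ‖ps R k‖ ≤ r → c * ‖ps R k‖ - δ ≤ lv t (ps R k)) : HalfC d r δ R := by
  intro k hk hr
  have h1 := h k hk hr
  have h2 := (abs_le.1 (lv_diff d t (ps R k))).1
  have h3 := mul_le_mul_of_nonneg_right hc (norm_nonneg (ps R k))
  linarith

lemma HalfC.mono {d : ℂ} {r r' δ : ℝ} {R : W3} (h : HalfC d r δ R) (hr : r' ≤ r) : HalfC d r' δ R :=
  fun k hk hn => h k hk (hn.trans hr)

/-- the rest condition for a concatenation -/
theorem rest_append {d : ℂ} {r0 rt δ : ℝ} {k T : W3} (ek : Even k.length) (hk : RestC d r0 k) (bk : ‖en k‖ ≤ rt)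
    (lk : δ < lv d (en k)) (hT : HalfC d (r0 + rt) δ T) : RestC d r0 (k ++ T) := by
  intro j hj hjl hn
  rcases le_or_gt j k.length with h | h
  · rw [ps_append_left h] at hn ⊢
    exact hk j hj h hn
  · rw [ps_append_right' ek h.le] at hn ⊢
    have h1 : ‖ps T (j - k.length)‖ ≤ r0 + rt := by
      have e : ps T (j - k.length) = (en k + ps T (j - k.length)) - en k := by ring
      rw [e]
      exact (norm_sub_le _ _).trans (add_le_add hn bk)
    have h2 := hT (j - k.length) (by rw [List.length_append] at hjl; omega) h1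
    rw [lv_add]
    linarith

lemma half_append {d : ℂ} {r δ rt' : ℝ} {A k' : W3} (eA : Even A.length) (ek' : Even k'.length) (hA : HalfC d r δ A)
    (bk' : ∀ j : ℕ, j ≤ k'.length → ‖ps k' j‖ ≤ rt') (far : r + 2 * rt' < ‖en A‖) : HalfC d r δ (A ++ k'.reverse) := by
  intro j hj hn
  rcases le_or_gt j A.length with h | h
  · rw [ps_append_left h] at hn ⊢
    exact hA j h hn
  · exfalso
    rw [List.length_append, List.length_reverse] at hj
    rw [ps_append_right' eA h.le, ps_reverse ek' (by omega)] at hn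
    have h1 := bk' (k'.length - (j - A.length)) (by omega)
    have h2 : ‖en k'‖ ≤ rt' := bk' _ le_rfl
    have e : en A = (en A + (ps k' (k'.length - (j - A.length)) - en k')) - ps k' (k'.length - (j - A.length)) + en k' := by
      ring
    have h3 : ‖en A‖ ≤ ‖en A + (ps k' (k'.length - (j - A.length)) - en k')‖ + ‖ps k' (k'.length - (j - A.length))‖ +
        ‖en k'‖ := by
      conv_lhs => rw [e]
      exact (norm_add_le _ _).trans (add_le_add_left (norm_sub_le _ _) _)
    linarith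

lemma reverse_three (k A k' : W3) : (k ++ (A ++ k'.reverse)).reverse = k' ++ (A.reverse ++ k.reverse) := by
  simp [List.reverse_append]

lemma en_three {k A k' : W3} (ek : Even k.length) (eA : Even A.length) (ek' : Even k'.length) :
    en (k ++ (A ++ k'.reverse)) = en k + en A - en k' := by
  rw [en_append ek, en_append eA, en_reverse ek']
  ring

/-- self-avoidance of the rest from the pieces -/
theorem sw_of_parts {t t' : ℂ} {rt rt' r0t r0t' Dt : ℝ} {k A k' : W3} (hk : TipC t rt k) (hk' : TipC t' rt' k')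
    (hA : RsC t t' r0t r0t' Dt A) (h0 : 2 * rt ≤ r0t) (h0' : 2 * rt' ≤ r0t') (hD : 2 * (rt + rt') < Dt) :
    SW (k ++ (A ++ k'.reverse)) := by
  refine (SW_three hk.ev hA.ev hk'.ev).2 ⟨hk.sw, hA.sw, hk'.sw, tip_rest hk hA.s h0, fun j l hj hl => ?_,
    fun j l hj hl he => ?_⟩
  · exact tip_rest hk' hA.e h0' j l hj (by rw [List.length_reverse]; exact hl)
  · have h1 := hk.ball j hj.le
    have h2 := hk'.ball l hl.le
    have h3 : en A = ps k j - en k + en k' - ps k' l := by rw [he]; ring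
    have h4 : ‖en A‖ ≤ ‖ps k j‖ + ‖en k‖ + ‖en k'‖ + ‖ps k' l‖ := by
      rw [h3]
      calc ‖ps k j - en k + en k' - ps k' l‖ ≤ ‖ps k j - en k + en k'‖ + ‖ps k' l‖ := norm_sub_le _ _
        _ ≤ ‖ps k j - en k‖ + ‖en k'‖ + ‖ps k' l‖ := by linarith [norm_add_le (ps k j - en k) (en k')]
        _ ≤ _ := by linarith [norm_sub_le (ps k j) (en k)]
    linarith [norm_en_le hk, norm_en_le hk', hA.far]

/-- **the rest from its pieces** -/
theorem rs_of_parts {d d' t t' : ℂ} {r0 r0' D δ δ' rt rt' r0t r0t' Dt : ℝ} {k A k' : W3} (hk : TipC t rt k)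
    (hk' : TipC t' rt' k') (hA : RsC t t' r0t r0t' Dt A) (h0 : 2 * rt ≤ r0t) (h0' : 2 * rt' ≤ r0t')
    (nk : RestC d r0 k) (nk' : RestC d' r0' k') (lk : δ < lv d (en k)) (lk' : δ' < lv d' (en k'))
    (cA : HalfC d (r0 + rt) δ A) (cA' : HalfC d' (r0' + rt') δ' A.reverse)
    (f1 : r0 + rt + 2 * rt' < Dt) (f2 : r0' + rt' + 2 * rt < Dt) (f3 : D + rt + rt' ≤ Dt) (f4 : 2 * (rt + rt') < Dt) :
    RsC d d' r0 r0' D (k ++ (A ++ k'.reverse)) := by
  have e1 : Even (k ++ (A ++ k'.reverse)).length := by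
    simp only [List.length_append, List.length_reverse]
    exact hk.ev.add (hA.ev.add hk'.ev)
  have er : Even A.reverse.length := by rw [List.length_reverse]; exact hA.ev
  have hfar : ‖en A.reverse‖ = ‖en A‖ := by rw [en_reverse hA.ev, norm_neg]
  refine ⟨e1, sw_of_parts hk hk' hA h0 h0' f4, ?_, ?_, ?_⟩
  · exact rest_append hk.ev nk (norm_en_le hk) lk (half_append hA.ev hk'.ev cA hk'.ball (f1.trans_le hA.far))
  · rw [reverse_three]
    exact rest_append hk'.ev nk' (norm_en_le hk') lk'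
      (half_append er hk.ev cA' hk.ball (by rw [hfar]; exact f2.trans_le hA.far))
  · rw [en_three hk.ev hA.ev hk'.ev]
    have h1 : ‖en A‖ ≤ ‖en k + en A - en k'‖ + ‖en k‖ + ‖en k'‖ := by
      have e : en A = (en k + en A - en k') - en k + en k' := by ring
      conv_lhs => rw [e]
      exact (norm_add_le _ _).trans (add_le_add_left (norm_sub_le _ _) _)
    linarith [norm_en_le hk, norm_en_le hk', hA.far]

/-! ### the sum over the marks of the rest -/

/-- the sum over the marks of `R` -/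
noncomputable def PhiR (K As K' : Set W3) (f F f' : W3 → ℝ≥0∞) (R : W3) : ℝ≥0∞ :=
  ∑ i ∈ range (R.length + 1), ∑ l ∈ range (R.length - i + 1),
    if R.take i ∈ K ∧ (R.drop i).take l ∈ As ∧ (R.drop (i + l)).reverse ∈ K' then
      f (R.take i) * (F ((R.drop i).take l) * f' (R.drop (i + l)).reverse) else 0

lemma cut_three (R : W3) (i l : ℕ) : R = R.take i ++ ((R.drop i).take l ++ (R.drop (i + l)).reverse.reverse) := by
  rw [List.reverse_reverse, ← List.drop_drop, List.take_append_drop, List.take_append_drop]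

/-- **the mass over the rests is a product** -/
theorem ms_rest {K As K' Rs : Set W3} {t t' : ℂ} {rt rt' r0t r0t' Dt : ℝ} (hK : ∀ a ∈ K, TipC t rt a)
    (hK' : ∀ b ∈ K', TipC t' rt' b) (hA : ∀ A ∈ As, RsC t t' r0t r0t' Dt A) (h0 : 2 * rt ≤ r0t) (h0' : 2 * rt' ≤ r0t')
    (hD : 2 * (rt + rt') < Dt) (hR : ∀ k ∈ K, ∀ A ∈ As, ∀ k' ∈ K', k ++ (A ++ k'.reverse) ∈ Rs)
    (f F f' : W3 → ℝ≥0∞) : ms Rs (PhiR K As K' f F f') = ms K f * (ms As F * ms K' f') := by
  rw [← exW_of hK hK' hA h0 h0' hD f F f']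
  refine tsum_congr fun R => ?_
  by_cases hRs : R ∈ Rs
  · rw [if_pos hRs, PhiR, mul_sum]
    refine sum_congr rfl fun i _ => ?_
    rw [mul_sum]
    refine sum_congr rfl fun l _ => ?_
    by_cases h : R.take i ∈ K ∧ (R.drop i).take l ∈ As ∧ (R.drop (i + l)).reverse ∈ K'
    · have hs : SW R := by
        rw [cut_three R i l]
        exact sw_of_parts (hK _ h.1) (hK' _ h.2.2) (hA _ h.2.1) h0 h0' hD
      rw [if_pos h, if_pos ⟨hs, h⟩]
    · rw [if_neg h, if_neg fun h' => h h'.2, mul_zero]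
  · rw [if_neg hRs]
    symm
    refine sum_eq_zero fun i _ => sum_eq_zero fun l _ => if_neg ?_
    rintro ⟨_, h1, h2, h3⟩
    apply hRs
    rw [cut_three R i l]
    exact hR _ h1 _ h2 _ h3

/-- the decompositions of a rest are unique -/
def Un3 (K As K' : Set W3) : Prop := ∀ k ∈ K, ∀ A ∈ As, ∀ k' ∈ K', ∀ k2 ∈ K, ∀ A2 ∈ As, ∀ k2' ∈ K',
  k ++ (A ++ k'.reverse) = k2 ++ (A2 ++ k2'.reverse) → k = k2 ∧ A = A2 ∧ k' = k2'

/-- the value at a rest with marks -/
theorem PhiR_eq {K As K' : Set W3} (hU : Un3 K As K') (f F f' : W3 → ℝ≥0∞) {k A k' : W3} (hk : k ∈ K) (hAA : A ∈ As)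
    (hk' : k' ∈ K') : PhiR K As K' f F f' (k ++ (A ++ k'.reverse)) = f k * (F A * f' k') := by
  obtain ⟨R, hR⟩ : ∃ R, R = k ++ (A ++ k'.reverse) := ⟨_, rfl⟩
  have e1 : R.take k.length = k := by rw [hR, List.take_left]
  have e2 : (R.drop k.length).take A.length = A := by rw [hR, List.drop_left, List.take_left]
  have e3 : (R.drop (k.length + A.length)).reverse = k' := by
    rw [← List.drop_drop, hR, List.drop_left, List.drop_left, List.reverse_reverse]
  have hl : R.length = k.length + (A.length + k'.length) := by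
    rw [hR, List.length_append, List.length_append, List.length_reverse]
  have key : ∀ i ≤ R.length, ∀ j ≤ R.length - i, (R.take i ∈ K ∧ (R.drop i).take j ∈ As ∧ (R.drop (i + j)).reverse ∈ K') →
      i = k.length ∧ j = A.length := by
    rintro i hi j hj ⟨h1, h2, h3⟩
    obtain ⟨u1, u2, u3⟩ := hU k hk A hAA k' hk' _ h1 _ h2 _ h3 (hR.symm.trans (cut_three R i j))
    constructor
    · rw [u1, List.length_take, min_eq_left hi]
    · rw [u2, List.length_take, List.length_drop, min_eq_left hj]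
  rw [← hR, PhiR, sum_eq_single k.length]
  · rw [sum_eq_single A.length]
    · rw [if_pos ⟨by rw [e1]; exact hk, by rw [e2]; exact hAA, by rw [e3]; exact hk'⟩, e1, e2, e3]
    · intro j hj hne
      have hj' := mem_range.1 hj
      refine if_neg fun h => hne (key k.length (by omega) j (by omega) h).2
    · intro h
      exact absurd (mem_range.2 (by omega)) h
  · intro i hi hne
    have hi' := mem_range.1 hi
    refine sum_eq_zero fun j hj => if_neg fun h => hne (key i (by omega) j (by have := mem_range.1 hj; omega) h).1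
  · intro h
    exact absurd (mem_range.2 (by omega)) h

/-- uniqueness for first cuts -/
theorem un3_fst {K As K' : Set W3} {t t' : ℂ} {rt rt' r0t r0t' l l' Dt : ℝ} (hK : ∀ a ∈ K, TipC t rt a ∧ FstC t l a)
    (hK' : ∀ b ∈ K', TipC t' rt' b ∧ FstC t' l' b) (hA : ∀ A ∈ As, RsC t t' r0t r0t' Dt A) (h0 : 2 * rt ≤ r0t)
    (h0' : 2 * rt' ≤ r0t') (hD : 2 * rt < Dt) (hD' : 2 * rt' < Dt) : Un3 K As K' :=
  fun _ hk _ h _ hk' _ hk2 _ h2 _ hk2' e => marks_walk (hK _ hk).1 (hK _ hk2).1 (hK _ hk).2 (hK _ hk2).2 (hK' _ hk').1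
    (hK' _ hk2').1 (hK' _ hk').2 (hK' _ hk2').2 (hA _ h) (hA _ h2) h0 h0' hD hD' e

/-- the value at a rest without marks -/
theorem PhiR_zero {K As K' : Set W3} (f F f' : W3 → ℝ≥0∞) {R : W3}
    (h : ¬ ∃ k ∈ K, ∃ A ∈ As, ∃ k' ∈ K', R = k ++ (A ++ k'.reverse)) : PhiR K As K' f F f' R = 0 := by
  refine sum_eq_zero fun i _ => sum_eq_zero fun l _ => if_neg ?_
  rintro ⟨h1, h2, h3⟩
  exact h ⟨_, h1, _, h2, _, h3, cut_three R i l⟩

/-- the pieces of a rest which is decomposed -/
theorem PhiR_ne {K As K' : Set W3} {f F f' : W3 → ℝ≥0∞} {R : W3} (h : PhiR K As K' f F f' R ≠ 0) :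
    ∃ k ∈ K, ∃ A ∈ As, ∃ k' ∈ K', R = k ++ (A ++ k'.reverse) ∧ f k ≠ 0 ∧ F A ≠ 0 ∧ f' k' ≠ 0 := by
  obtain ⟨i, -, h1⟩ := exists_ne_zero_of_sum_ne_zero h
  obtain ⟨l, -, h2⟩ := exists_ne_zero_of_sum_ne_zero h1
  by_cases hc : R.take i ∈ K ∧ (R.drop i).take l ∈ As ∧ (R.drop (i + l)).reverse ∈ K'
  · rw [if_pos hc] at h2
    have h3 := left_ne_zero_of_mul h2
    have h4 := right_ne_zero_of_mul h2
    exact ⟨_, hc.1, _, hc.2.1, _, hc.2.2, cut_three R i l, h3, left_ne_zero_of_mul h4, right_ne_zero_of_mul h4⟩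
  · exact absurd (if_neg hc) h2

end Pool.Agent.ROT.F3
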