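import Pool.Agent.ROT.F3Inst

/-!
# ROT / F3Inst2 (helper22): the DOUBLE gates (decision D11)

`Gt d l m th a k` : `a` = the prefix up to the second mark `x` (= the end of `a`), `k` = index of the first mark `c`:
`c` is the first cut of level at least `l`, `x` the first cut of level at least `m` over `c`, and between them there is a
cut of level at least `th * m` over `c`. `Tip2 d r l m th a` : tip piece with such a `k`.
* `pre_cut` : of two decompositions `p ++ (R ++ t)` of one word, the end of the shorter tip piece is a cut of the longer one;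
* **`tip2_unique`**, `Gt.unique`, `marks_walk2`, **`marks_closed2`** : the marks `c`, `x` are unique.
-/

set_option autoImplicit false

namespace Pool.Agent.ROT.F3

open Finset ComplexConjugate
open scoped ENNReal Classical

/-- `k` = index of the first mark `c` in the prefix `a`; the end of `a` is the second mark -/
structure Gt (d : ℂ) (l m th : ℝ) (a : W3) (k : ℕ) : Prop where
  ek : Even k
  pk : 0 < k
  lk : k < a.length
  cut : CutC d a k
  lv1 : l ≤ lv d (ps a k)
  fst : ∀ j : ℕ, Even j → j < k → CutC d a j → lv d (ps a j) < l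
  lv2 : m ≤ lv d (en a) - lv d (ps a k)
  snd : ∀ j : ℕ, Even j → k < j → j < a.length → CutC d a j → lv d (ps a j) - lv d (ps a k) < m
  blk : ∃ j : ℕ, Even j ∧ k < j ∧ j < a.length ∧ CutC d a j ∧ th * m ≤ lv d (ps a j) - lv d (ps a k)

/-- tip pieces up to the second mark -/
def Tip2 (d : ℂ) (r l m th : ℝ) (a : W3) : Prop := TipC d r a ∧ ∃ k : ℕ, Gt d l m th a k

lemma Tip2.tip {d : ℂ} {r l m th : ℝ} {a : W3} (h : Tip2 d r l m th a) : TipC d r a := h.1

/-- the first mark is unique -/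
lemma Gt.unique {d : ℂ} {l m th : ℝ} {a : W3} {k k' : ℕ} (h : Gt d l m th a k) (h' : Gt d l m th a k') : k = k' := by
  rcases lt_trichotomy k k' with h1 | h1 | h1
  · exact absurd h.lv1 (not_le.2 (h'.fst k h.ek h1 h.cut))
  · exact h1
  · exact absurd h'.lv1 (not_le.2 (h.fst k' h'.ek h1 h'.cut))

/-- **the end of the shorter tip piece is a cut of the longer one** -/
lemma pre_cut {d : ℂ} {r r0 D : ℝ} {p p' R t u : W3} (hp : TipC d r p) (hp' : TipC d r p') (hR : RestC d r0 R)
    (eR : Even R.length) (hr : 2 * r ≤ r0) (hD : 2 * r < D) (fR : D ≤ ‖en R‖) (h : p ++ (R ++ t) = p' ++ u)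
    (hl : p.length < p'.length) : (∀ j : ℕ, j ≤ p.length → ps p' j = ps p j) ∧ CutC d p' p.length := by
  have hv : ∀ j, j ≤ p'.length → ps p' j = ps (p ++ (R ++ t)) j := by
    intro j hj
    rw [h, ps_append_left hj]
  have h1 : p'.length ≤ p.length + R.length := by
    by_contra hc
    push Not at hc
    have h2 := hp'.ball (p.length + R.length) hc.le
    rw [hv _ hc.le, ps_append_right hp.ev, ps_append_left le_rfl] at h2
    have h3 : ps R R.length = en R := rfl
    rw [h3] at h2
    have h4 : ‖en R‖ ≤ ‖en p + en R‖ + ‖en p‖ := by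
      calc ‖en R‖ = ‖(en p + en R) - en p‖ := by ring_nf
        _ ≤ _ := norm_sub_le _ _
    linarith [norm_en_le hp]
  have h5 : ∀ j, p.length ≤ j → j ≤ p'.length → ps p' j = en p + ps R (j - p.length) := by
    intro j hj hj'
    rw [hv j hj', ps_append_right' hp.ev hj, ps_append_left (by omega)]
  have h6 : ∀ j, j ≤ p.length → ps p' j = ps p j := fun j hj => by rw [hv j (by omega), ps_append_left hj]
  have h7 : ps p' p.length = en p := h6 _ le_rfl
  refine ⟨h6, fun j hj => ?_, fun j hj hj' => ?_⟩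
  · rw [h6 j hj, h7]
    exact hp.left j hj
  · rw [h7, h5 j hj.le hj', lv_add]
    have h8 : ‖ps R (j - p.length)‖ ≤ r0 := by
      have h9 : ps R (j - p.length) = ps p' j - en p := by rw [h5 j hj.le hj']; ring
      rw [h9]
      calc ‖ps p' j - en p‖ ≤ ‖ps p' j‖ + ‖en p‖ := norm_sub_le _ _
        _ ≤ r0 := by linarith [hp'.ball j hj', norm_en_le hp]
    linarith [hR (j - p.length) (by omega) (by omega) h8]

/-- cuts of a prefix whose end is a cut are cuts of the word -/
lemma CutC.up {d : ℂ} {p p' : W3} {k : ℕ} (h6 : ∀ j : ℕ, j ≤ p.length → ps p' j = ps p j) (hc : CutC d p' p.length)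
    (hk : k < p.length) (h : CutC d p k) : CutC d p' k := by
  refine ⟨fun j hj => ?_, fun j hj hj' => ?_⟩
  · rw [h6 j (by omega), h6 k hk.le]
    exact h.1 j hj
  · rcases le_or_gt j p.length with h1 | h1
    · rw [h6 j h1, h6 k hk.le]
      exact h.2 j hj h1
    · have h2 := hc.2 j h1 hj'
      have h3 := h.2 p.length hk le_rfl
      rw [h6 _ le_rfl] at h2
      rw [h6 k hk.le]
      exact h3.trans h2

/-- cuts of a word are cuts of the prefixes -/
lemma CutC.down {d : ℂ} {p p' : W3} {k : ℕ} (h6 : ∀ j : ℕ, j ≤ p.length → ps p' j = ps p j) (hl : p.length ≤ p'.length)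
    (hk : k < p.length) (h : CutC d p' k) : CutC d p k := by
  refine ⟨fun j hj => ?_, fun j hj hj' => ?_⟩
  · rw [← h6 j (by omega), ← h6 k hk.le]
    exact h.1 j hj
  · rw [← h6 j hj', ← h6 k hk.le]
    exact h.2 j hj (by omega)

/-- **the double gate is unique** -/
theorem tip2_unique {d : ℂ} {r r0 l m th D : ℝ} {p p' R R' t t' : W3} (hp : Tip2 d r l m th p) (hp' : Tip2 d r l m th p')
    (hR : RestC d r0 R) (hR' : RestC d r0 R') (eR : Even R.length) (eR' : Even R'.length)
    (hr : 2 * r ≤ r0) (hD : 2 * r < D) (fR : D ≤ ‖en R‖) (fR' : D ≤ ‖en R'‖) (h : p ++ (R ++ t) = p' ++ (R' ++ t')) :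
    p = p' := by
  have key : ∀ {p p' R t u : W3}, Tip2 d r l m th p → Tip2 d r l m th p' → RestC d r0 R → Even R.length →
      D ≤ ‖en R‖ → p ++ (R ++ t) = p' ++ u → ¬ p.length < p'.length := by
    intro p p' R t u hp hp' hR eR fR h hl
    obtain ⟨h6, hcut⟩ := pre_cut hp.1 hp'.1 hR eR hr hD fR h hl
    obtain ⟨k, g⟩ := hp.2
    obtain ⟨k', g'⟩ := hp'.2
    have hk := CutC.up h6 hcut g.lk g.cut
    have e : k = k' := by
      rcases lt_trichotomy k k' with h1 | h1 | h1
      · have := g'.fst k g.ek h1 hk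
        rw [h6 k g.lk.le] at this
        linarith [g.lv1]
      · exact h1
      · have h2 : k' < p.length := h1.trans g.lk
        have := g.fst k' g'.ek h1 (CutC.down h6 hl.le h2 g'.cut)
        have h3 := g'.lv1
        rw [h6 k' h2.le] at h3
        linarith
    subst e
    have h3 := g'.snd p.length hp.1.ev g.lk hl hcut
    rw [h6 _ le_rfl, h6 k g.lk.le] at h3
    have h4 := g.lv2
    have h5 : ps p p.length = en p := rfl
    rw [h5] at h3
    linarith
  have k1 := key hp hp' hR eR fR h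
  have k2 := key hp' hp hR' eR' fR' h.symm
  have hl : p.length = p'.length := by omega
  exact (List.append_inj h hl).1

/-- **the four marks of a walk with double gates are unique** -/
theorem marks_walk2 {d d' : ℂ} {r r' r0 r0' l m th l' m' th' D : ℝ} {p p' R R' q q' : W3} (hp : Tip2 d r l m th p)
    (hp' : Tip2 d r l m th p') (hq : Tip2 d' r' l' m' th' q) (hq' : Tip2 d' r' l' m' th' q')
    (hR : RsC d d' r0 r0' D R) (hR' : RsC d d' r0 r0' D R') (h0 : 2 * r ≤ r0) (h0' : 2 * r' ≤ r0') (hD : 2 * r < D)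
    (hD' : 2 * r' < D) (h : p ++ (R ++ q.reverse) = p' ++ (R' ++ q'.reverse)) : p = p' ∧ R = R' ∧ q = q' := by
  have h1 := tip2_unique hp hp' hR.s hR'.s hR.ev hR'.ev h0 hD hR.far hR'.far h
  have e1 : ‖en R.reverse‖ = ‖en R‖ := by rw [en_reverse hR.ev, norm_neg]
  have e2 : ‖en R'.reverse‖ = ‖en R'‖ := by rw [en_reverse hR'.ev, norm_neg]
  have h2 : q ++ (R.reverse ++ p.reverse) = q' ++ (R'.reverse ++ p'.reverse) := by
    have := congrArg List.reverse h
    simpa [List.reverse_append] using this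
  have h3 := tip2_unique hq hq' hR.e hR'.e (by rw [List.length_reverse]; exact hR.ev)
    (by rw [List.length_reverse]; exact hR'.ev) h0' hD' (by rw [e1]; exact hR.far) (by rw [e2]; exact hR'.far) h2
  subst h1
  subst h3
  have h4 := List.append_cancel_left h
  exact ⟨rfl, List.append_cancel_right h4, rfl⟩

/-- **the marks of a closed word with double gates at all four arms are unique** -/
theorem marks_closed2 {d1 d2 d1' d2' : ℂ} {r r' r0 r0' l1 m1 t1 l2 m2 t2 l1' m1' t1' l2' m2' t2' D : ℝ}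
    {a a' b b' : W3 × W3} {R R' S S' : W3}
    (ha : Tip2 d1 r l1 m1 t1 a.1 ∧ Tip2 d2 r l2 m2 t2 a.2) (ha' : Tip2 d1 r l1 m1 t1 a'.1 ∧ Tip2 d2 r l2 m2 t2 a'.2)
    (hb : Tip2 d1' r' l1' m1' t1' b.1 ∧ Tip2 d2' r' l2' m2' t2' b.2)
    (hb' : Tip2 d1' r' l1' m1' t1' b'.1 ∧ Tip2 d2' r' l2' m2' t2' b'.2)
    (hR : RsC d1 d1' r0 r0' D R) (hR' : RsC d1 d1' r0 r0' D R') (hS : RsC d2 d2' r0 r0' D S) (hS' : RsC d2 d2' r0 r0' D S')
    (h0 : 2 * r ≤ r0) (h0' : 2 * r' ≤ r0') (hD : 2 * r < D) (hD' : 2 * r' < D)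
    (hm : (a.1 ++ (R ++ b.1.reverse)).length = (a'.1 ++ (R' ++ b'.1.reverse)).length)
    (h : G6 a R b S = G6 a' R' b' S') : a = a' ∧ R = R' ∧ b = b' ∧ S = S' := by
  have e : ∀ (a : W3 × W3) (R : W3) (b : W3 × W3) (S : W3),
      G6 a R b S = (a.1 ++ (R ++ b.1.reverse)) ++ (b.2 ++ (S.reverse ++ a.2.reverse)) := fun a R b S => by
    simp [G6, List.append_assoc]
  rw [e, e] at h
  obtain ⟨h1, h2⟩ := List.append_inj h hm
  obtain ⟨k1, k2, k3⟩ := marks_walk2 ha.1 ha'.1 hb.1 hb'.1 hR hR' h0 h0' hD hD' h1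
  have h3 : a.2 ++ (S ++ b.2.reverse) = a'.2 ++ (S' ++ b'.2.reverse) := by
    have := congrArg List.reverse h2
    simpa [List.reverse_append] using this
  obtain ⟨k4, k5, k6⟩ := marks_walk2 ha.2 ha'.2 hb.2 hb'.2 hS hS' h0 h0' hD hD' h3
  exact ⟨Prod.ext k1 k4, k2, Prod.ext k3 k6, k5⟩

end Pool.Agent.ROT.F3
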