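import Pool.Agent.ROT.F3Pos
import Pool.Agent.ROT.F3Inst

/-!
# ROT / F3PosI (helper61): the classes of F3Inst as predicates of position functions; the pieces of a closed word

`Pc u n p` : the word `u` has `n` letters and the vertices `p j`. `tipP`, `conP`, `restP`, `cutP`, `fstP` : `TipC`, `ConC`, `RestC`,
`CutC`, `FstC` without evenness and self-avoidance, for a position function.
* **`con_zero`**, **`con_mid`** : the connections of a closed word at the roots `0`, `m`; **`rs_A`**, **`rs_B`** : the two arcs;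
* **`pieces_iff`** : all four, in one equivalence.
-/

set_option autoImplicit false

namespace Pool.Agent.ROT.F3

open Finset ComplexConjugate
open scoped ENNReal Classical

/-! ### predicates of position functions -/

/-- `TipC` for a position function -/
def tipP (d : ℂ) (r : ℝ) (n : ℕ) (p : ℕ → ℂ) : Prop :=
  0 < n ∧ (∀ k ≤ n, lv d (p k) ≤ lv d (p n)) ∧ ∀ k ≤ n, ‖p k‖ ≤ r

/-- `ConC` for two position functions -/
def conP (d d' : ℂ) (r : ℝ) (n : ℕ) (p : ℕ → ℂ) (n' : ℕ) (p' : ℕ → ℂ) : Prop :=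
  tipP d r n p ∧ tipP d' r n' p' ∧ (∀ k ≤ n', lv d (p' k) ≤ lv d (p n)) ∧ ∀ k ≤ n, lv d' (p k) ≤ lv d' (p' n')

/-- `RestC` for a position function -/
def restP (d : ℂ) (r0 : ℝ) (n : ℕ) (p : ℕ → ℂ) : Prop :=
  ∀ k : ℕ, 0 < k → k ≤ n → ‖p k‖ ≤ r0 → 0 < lv d (p k)

/-- `CutC` for a position function -/
def cutP (d : ℂ) (n : ℕ) (p : ℕ → ℂ) (k : ℕ) : Prop :=
  (∀ j ≤ k, lv d (p j) ≤ lv d (p k)) ∧ ∀ j : ℕ, k < j → j ≤ n → lv d (p k) < lv d (p j)

/-- `FstC` for a position function -/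
def fstP (d : ℂ) (l : ℝ) (n : ℕ) (p : ℕ → ℂ) : Prop :=
  l ≤ lv d (p n) ∧ ∀ k : ℕ, Even k → k < n → cutP d n p k → lv d (p k) < l

/-- `u` is the word with the vertices `p` -/
structure Pc (u : W3) (n : ℕ) (p : ℕ → ℂ) : Prop where
  len : u.length = n
  pos : ∀ j ≤ n, ps u j = p j

section Pc

variable {u v : W3} {n n' : ℕ} {p p' : ℕ → ℂ}

lemma Pc.en (h : Pc u n p) : en u = p n := by
  rw [F3.en, h.len, h.pos n le_rfl]

lemma Pc.mem (h : Pc u n p) (C : PC) : u ∈ C.S ↔ C.P n p := C.mem_of h.len h.pos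

lemma Pc.mem2 (h : Pc u n p) (h' : Pc v n' p') (C : PC2) : (u, v) ∈ C.S ↔ C.P n p n' p' :=
  C.mem_of h.len h.pos h'.len h'.pos

lemma Pc.tip_geo (h : Pc u n p) (d : ℂ) (r : ℝ) : (0 < u.length ∧ (∀ k ≤ u.length, lv d (ps u k) ≤ lv d (F3.en u)) ∧
    ∀ k ≤ u.length, ‖ps u k‖ ≤ r) ↔ tipP d r n p := by
  rw [tipP, h.len, h.en]
  refine and_congr_right fun _ => and_congr ?_ ?_
  · exact forall₂_congr fun k hk => by rw [h.pos k hk]
  · exact forall₂_congr fun k hk => by rw [h.pos k hk]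

lemma Pc.tip (h : Pc u n p) (he : Even n) (hs : SW u) (d : ℂ) (r : ℝ) : TipC d r u ↔ tipP d r n p := by
  rw [← h.tip_geo]
  constructor
  · intro t
    exact ⟨t.pos, t.left, t.ball⟩
  · rintro ⟨a, b, c⟩
    exact ⟨by rw [h.len]; exact he, hs, a, b, c⟩

lemma Pc.rest (h : Pc u n p) (d : ℂ) (r0 : ℝ) : RestC d r0 u ↔ restP d r0 n p := by
  unfold RestC restP
  rw [h.len]
  exact forall₃_congr fun k _ hk => by rw [h.pos k hk]

lemma Pc.cut (h : Pc u n p) (d : ℂ) {k : ℕ} (hk : k ≤ n) : CutC d u k ↔ cutP d n p k := by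
  unfold CutC cutP
  rw [h.len, h.pos k hk]
  refine and_congr ?_ ?_
  · exact forall₂_congr fun j hj => by rw [h.pos j (by omega)]
  · exact forall₃_congr fun j _ hj => by rw [h.pos j hj]

lemma Pc.fst (h : Pc u n p) (d : ℂ) (l : ℝ) : FstC d l u ↔ fstP d l n p := by
  unfold FstC fstP
  rw [h.len, h.en]
  refine and_congr_right fun _ => forall₃_congr fun k _ hk => ?_
  rw [h.cut d hk.le, h.pos k hk.le]

/-- connections: evenness, self-avoidance and disjointness from outside -/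
lemma Pc.con (h : Pc u n p) (h' : Pc v n' p') (hc : Cn (u, v)) (d d' : ℂ) (r : ℝ) :
    ConC d d' r (u, v) ↔ conP d d' r n p n' p' := by
  have en1 : Even n := by
    have := hc.e1
    simp only [h.len] at this
    exact this
  have en2 : Even n' := by
    have := hc.e2
    simp only [h'.len] at this
    exact this
  have k1 : (∀ k : ℕ, k ≤ v.length → lv d (ps v k) ≤ lv d (F3.en u)) ↔ ∀ k ≤ n', lv d (p' k) ≤ lv d (p n) := by
    rw [h'.len, h.en]
    exact forall₂_congr fun k hk => by rw [h'.pos k hk]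
  have k2 : (∀ k : ℕ, k ≤ u.length → lv d' (ps u k) ≤ lv d' (F3.en v)) ↔ ∀ k ≤ n, lv d' (p k) ≤ lv d' (p' n') := by
    rw [h.len, h'.en]
    exact forall₂_congr fun k hk => by rw [h.pos k hk]
  rw [conP, ← h.tip en1 hc.s1, ← h'.tip en2 hc.s2, ← k1, ← k2]
  constructor
  · intro t
    exact ⟨t.t1, t.t2, t.l2, t.l1⟩
  · rintro ⟨a, b, c, e⟩
    exact ⟨a, b, c, e, hc.dj⟩

/-- rests -/
lemma Pc.rs {q : ℕ → ℂ} (h : Pc u n p) (hr : Pc u.reverse n q) (he : Even n) (hs : SW u) (d d' : ℂ) (r0 r0' D : ℝ) :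
    RsC d d' r0 r0' D u ↔ restP d r0 n p ∧ restP d' r0' n q ∧ D ≤ ‖p n‖ := by
  rw [← h.rest, ← hr.rest, ← h.en]
  constructor
  · intro t
    exact ⟨t.s, t.e, t.far⟩
  · rintro ⟨a, b, c⟩
    exact ⟨by rw [h.len]; exact he, hs, a, b, c⟩

end Pc

/-! ### the pieces of a word -/

section pieces

variable {w : W3} {a b m : ℕ}

lemma pc_zero (hb : b ≤ w.length) : Pc (seg w 0 b) b (ps w) :=
  ⟨by rw [length_seg hb, Nat.sub_zero], fun j hj => by
    rw [ps_seg Even.zero (Nat.zero_le _) hb (by omega), fw_zero]⟩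

lemma pc_seg (ea : Even a) (hab : a ≤ b) (hb : b ≤ w.length) : Pc (seg w a b) (b - a) (fw w a) :=
  ⟨length_seg hb, fun _ hj => ps_seg ea hab hb hj⟩

lemma pc_seg_rev (ea : Even a) (eb : Even b) (hab : a ≤ b) (hb : b ≤ w.length) :
    Pc (seg w a b).reverse (b - a) (bw w b) :=
  ⟨by rw [List.length_reverse, length_seg hb], fun _ hj => ps_seg_reverse ea eb hab hb hj⟩

lemma pc_last (h : Cl w) (ea : Even a) (ha : a ≤ w.length) :
    Pc (w.drop a).reverse (w.length - a) (fun j => ps w (w.length - j)) :=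
  ⟨by rw [List.length_reverse, List.length_drop], fun j hj => by rw [ps_drop_reverse ea h.1 ha hj, bw_last h]⟩

lemma pc_seg_rev_rev (ea : Even a) (hab : a ≤ b) (hb : b ≤ w.length) : Pc (seg w a b).reverse.reverse (b - a) (fw w a) := by
  rw [List.reverse_reverse]
  exact pc_seg ea hab hb

/-! ### the four pieces of a closed word -/

/-- **the connection at the root `0`** -/
theorem con_zero (h : Cl w) (ea : Even a) (eb : Even b) (hab : a < b) (hb : b ≤ w.length) (d d' : ℂ) (r : ℝ) :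
    ConC d d' r (seg w 0 a, (w.drop b).reverse) ↔
      conP d d' r a (ps w) (w.length - b) (fun j => ps w (w.length - j)) :=
  (pc_zero (by omega)).con (pc_last h eb hb) (h.cn_zero ea eb hab hb) d d' r

/-- **the connection at the root `m`** -/
theorem con_mid (h : Cl w) (ea : Even a) (em : Even m) (eb : Even b) (ham : a ≤ m) (hmb : m ≤ b) (hb : b ≤ w.length)
    (hp : 0 < a ∨ b < w.length) (d d' : ℂ) (r : ℝ) :
    ConC d d' r ((seg w a m).reverse, seg w m b) ↔ conP d d' r (m - a) (bw w m) (b - m) (fw w m) :=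
  (pc_seg_rev ea em ham (by omega)).con (pc_seg em hmb hb) (h.cn_mid ea em eb ham hmb hb hp) d d' r

/-- **the arc read forwards** -/
theorem rs_A (h : Cl w) (ea : Even a) (eb : Even b) (hab : a ≤ b) (hb : b ≤ w.length) (hp : 0 < a ∨ b < w.length)
    (d d' : ℂ) (r0 r0' D : ℝ) :
    RsC d d' r0 r0' D (seg w a b) ↔
      restP d r0 (b - a) (fw w a) ∧ restP d' r0' (b - a) (bw w b) ∧ D ≤ ‖ps w b - ps w a‖ := by
  have e : fw w a (b - a) = ps w b - ps w a := by rw [fw, Nat.add_sub_cancel' hab]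
  rw [← e]
  exact (pc_seg ea hab hb).rs (pc_seg_rev ea eb hab hb) ((Nat.even_sub hab).2 ⟨fun _ => ea, fun _ => eb⟩)
    (h.seg ea hab hb hp) d d' r0 r0' D

/-- **the arc read backwards** -/
theorem rs_B (h : Cl w) (ea : Even a) (eb : Even b) (hab : a ≤ b) (hb : b ≤ w.length) (hp : 0 < a ∨ b < w.length)
    (d d' : ℂ) (r0 r0' D : ℝ) :
    RsC d d' r0 r0' D (seg w a b).reverse ↔
      restP d r0 (b - a) (bw w b) ∧ restP d' r0' (b - a) (fw w a) ∧ D ≤ ‖ps w b - ps w a‖ := by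
  have e : ‖ps w b - ps w a‖ = ‖bw w b (b - a)‖ := by
    rw [bw, show b - (b - a) = a by omega, norm_sub_rev]
  rw [e]
  exact (pc_seg_rev ea eb hab hb).rs (pc_seg_rev_rev ea hab hb) ((Nat.even_sub hab).2 ⟨fun _ => ea, fun _ => eb⟩)
    (h.seg_reverse ea eb hab hb hp) d d' r0 r0' D

end pieces

/-- **all the pieces**: classes which are given by the classes of F3Inst and further local predicates -/
theorem pieces_iff {w : W3} (h : Cl w) {k1 k2 m k3 k4 : ℕ} (h1 : k1 ≤ k2) (h2 : k2 ≤ m) (h3 : m ≤ k3) (h4 : k3 ≤ k4)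
    (h5 : k4 ≤ w.length) {d1 d2 d1' d2' : ℂ} {r r' r0 r0' D : ℝ} (X X' : PC2) (Y Y' Z Z' : PC) :
    (((seg w 0 k1, (w.drop k4).reverse) ∈ {a | ConC d1 d2 r a ∧ a ∈ X.S}) ∧
        (seg w k1 k2 ∈ {R | RsC d1 d1' r0 r0' D R ∧ R ∈ Y.S ∧ R.reverse ∈ Y'.S}) ∧
        (((seg w k2 m).reverse, seg w m k3) ∈ {a | ConC d1' d2' r' a ∧ a ∈ X'.S}) ∧
        ((seg w k3 k4).reverse ∈ {R | RsC d2 d2' r0 r0' D R ∧ R ∈ Z.S ∧ R.reverse ∈ Z'.S})) ↔
      (Even k1 ∧ Even k2 ∧ Even m ∧ Even k3 ∧ Even k4) ∧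
      (conP d1 d2 r k1 (ps w) (w.length - k4) (fun j => ps w (w.length - j)) ∧
        X.P k1 (ps w) (w.length - k4) (fun j => ps w (w.length - j))) ∧
      ((restP d1 r0 (k2 - k1) (fw w k1) ∧ restP d1' r0' (k2 - k1) (bw w k2) ∧ D ≤ ‖ps w k2 - ps w k1‖) ∧
        Y.P (k2 - k1) (fw w k1) ∧ Y'.P (k2 - k1) (bw w k2)) ∧
      (conP d1' d2' r' (m - k2) (bw w m) (k3 - m) (fw w m) ∧ X'.P (m - k2) (bw w m) (k3 - m) (fw w m)) ∧
      (restP d2 r0 (k4 - k3) (bw w k4) ∧ restP d2' r0' (k4 - k3) (fw w k3) ∧ D ≤ ‖ps w k4 - ps w k3‖) ∧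
        Z.P (k4 - k3) (bw w k4) ∧ Z'.P (k4 - k3) (fw w k3) := by
  constructor
  · rintro ⟨⟨c1, x1⟩, ⟨r1, y1, y1'⟩, ⟨c2, x2⟩, r2, z1, z1'⟩
    have l1 : (seg w 0 k1).length = k1 := by rw [length_seg (by omega), Nat.sub_zero]
    have l2 : (seg w k1 k2).length = k2 - k1 := length_seg (by omega)
    have l3 : (seg w k2 m).length = m - k2 := length_seg (by omega)
    have l4 : (seg w m k3).length = k3 - m := length_seg (by omega)
    have l5 : (seg w k3 k4).length = k4 - k3 := length_seg (by omega)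
    have e1 : Even k1 := by have := c1.t1.ev; simp only [l1] at this; exact this
    have q1 : 0 < k1 := by have := c1.t1.pos; simp only [l1] at this; exact this
    have q4 : k4 < w.length := by
      have := c1.t2.pos
      simp only [List.length_reverse, List.length_drop] at this
      omega
    have e2 : Even k2 := by
      have := r1.ev
      rw [l2, Nat.even_sub h1] at this
      exact this.2 e1
    have e3 : Even m := by
      have := c2.t1.ev
      simp only [List.length_reverse, l3] at this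
      rw [Nat.even_sub h2] at this
      exact this.2 e2
    have e4 : Even k3 := by
      have := c2.t2.ev
      simp only [l4] at this
      rw [Nat.even_sub h3] at this
      exact this.2 e3
    have e5 : Even k4 := by
      have := r2.ev
      rw [List.length_reverse, l5, Nat.even_sub h4] at this
      exact this.2 e4
    have q2 : m - k2 > 0 := by
      have := c2.t1.pos
      simp only [List.length_reverse, l3] at this
      exact this
    refine ⟨⟨e1, e2, e3, e4, e5⟩, ⟨(con_zero h e1 e5 (by omega) h5 _ _ _).1 c1, (X.mem_zero h e5 (by omega) h5).1 x1⟩,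
      ⟨(rs_A h e1 e2 h1 (by omega) (Or.inl q1) _ _ _ _ _).1 r1, (Y.mem_seg e1 h1 (by omega)).1 y1,
        (Y'.mem_seg_reverse e1 e2 h1 (by omega)).1 y1'⟩,
      ⟨(con_mid h e2 e3 e4 h2 h3 (by omega) (Or.inl (by omega)) _ _ _).1 c2, (X'.mem_mid e2 e3 h2 h3 (by omega)).1 x2⟩,
      (rs_B h e4 e5 h4 h5 (Or.inr q4) _ _ _ _ _).1 r2, (Z.mem_seg_reverse e4 e5 h4 h5).1 z1, ?_⟩
    rw [List.reverse_reverse] at z1'
    exact (Z'.mem_seg e4 h4 h5).1 z1'
  · rintro ⟨⟨e1, e2, e3, e4, e5⟩, ⟨c1, x1⟩, ⟨r1, y1, y1'⟩, ⟨c2, x2⟩, r2, z1, z1'⟩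
    have q1 : 0 < k1 := c1.1.1
    have q4 : k4 < w.length := by
      have := c1.2.1.1
      omega
    have q2 : 0 < m - k2 := c2.1.1
    refine ⟨⟨(con_zero h e1 e5 (by omega) h5 _ _ _).2 c1, (X.mem_zero h e5 (by omega) h5).2 x1⟩,
      ⟨(rs_A h e1 e2 h1 (by omega) (Or.inl q1) _ _ _ _ _).2 r1, (Y.mem_seg e1 h1 (by omega)).2 y1,
        (Y'.mem_seg_reverse e1 e2 h1 (by omega)).2 y1'⟩,
      ⟨(con_mid h e2 e3 e4 h2 h3 (by omega) (Or.inl (by omega)) _ _ _).2 c2, (X'.mem_mid e2 e3 h2 h3 (by omega)).2 x2⟩,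
      (rs_B h e4 e5 h4 h5 (Or.inr q4) _ _ _ _ _).2 r2, (Z.mem_seg_reverse e4 e5 h4 h5).2 z1, ?_⟩
    rw [List.reverse_reverse]
    exact (Z'.mem_seg e4 h4 h5).2 z1'

end Pool.Agent.ROT.F3
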