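import Pool.Agent.ROT.F3For
import Pool.Agent.ROT.F3Inst2
import Pool.Agent.ROT.F3Dbl
import Pool.Agent.ROT.F3PosI

/-!
# ROT / F3ForB (helper61): the second level for the arcs of a closed word; double gates; cones

* `seg_take`, `seg_drop`, .. : pieces of pieces; **`PhiR_seg`**, **`PhiR_seg_rev`** : `PhiR` of the two arcs as sums over two
  marks of the word;
* `un3_tip2`, `un3_dbl` : the marks inside of the rest are unique for double gates (helper22's `Tip2`, helper82's `DblC`);
* `HalfK`, `halfK_of_cone`, `restK_append`, **`rsK_of_parts`** : the conditions `RsK` (cones) of the rest from its pieces.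
-/

set_option autoImplicit false

namespace Pool.Agent.ROT.F3

open Finset ComplexConjugate
open scoped ENNReal Classical

/-! ### pieces of pieces -/

lemma seg_take (w : W3) {a b i : ℕ} (hi : i ≤ b - a) : (seg w a b).take i = seg w a (a + i) := by
  unfold seg
  rw [List.take_take, min_eq_left hi, Nat.add_sub_cancel_left]

lemma seg_drop (w : W3) (a b i : ℕ) : (seg w a b).drop i = seg w (a + i) b := by
  unfold seg
  rw [List.drop_take, List.drop_drop]
  congr 1
  omega

lemma seg_rev_take {w : W3} {a b i : ℕ} (hab : a ≤ b) (hb : b ≤ w.length) (hi : i ≤ b - a) :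
    (seg w a b).reverse.take i = (seg w (b - i) b).reverse := by
  rw [List.take_reverse, length_seg hb, seg_drop, show a + (b - a - i) = b - i by omega]

lemma seg_rev_drop {w : W3} {a b i : ℕ} (hab : a ≤ b) (hb : b ≤ w.length) (hi : i ≤ b - a) :
    (seg w a b).reverse.drop i = (seg w a (b - i)).reverse := by
  rw [List.drop_reverse, length_seg hb, seg_take w (by omega), show a + (b - a - i) = b - i by omega]

/-- the sum over two marks `a ≤ i ≤ j ≤ b` -/
lemma sum_marks {a b : ℕ} (hab : a ≤ b) (g : ℕ → ℕ → ℝ≥0∞) :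
    ∑ i ∈ range (b - a + 1), ∑ l ∈ range (b - a - i + 1), g (a + i) (a + i + l) =
      ∑ i ∈ Icc a b, ∑ j ∈ Icc i b, g i j := by
  have h : ∀ (n c : ℕ) (f : ℕ → ℝ≥0∞), ∑ i ∈ range (n + 1), f (c + i) = ∑ i ∈ Icc c (c + n), f i := by
    intro n c f
    rw [← Finset.sum_image (s := range (n + 1)) (g := fun i => c + i) (f := f) fun x _ y _ h => by simpa using h]
    congr 1
    ext x
    simp only [mem_image, mem_range, mem_Icc]
    constructor
    · rintro ⟨y, hy, rfl⟩
      omega
    · intro hx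
      exact ⟨x - c, by omega, by omega⟩
  have h1 := h (b - a) a fun i => ∑ j ∈ Icc i b, g i j
  rw [Nat.add_sub_cancel' hab] at h1
  rw [← h1]
  refine sum_congr rfl fun i hi => ?_
  have hi' := mem_range.1 hi
  have h2 := h (b - a - i) (a + i) fun j => g (a + i) j
  rw [show a + i + (b - a - i) = b by omega] at h2
  exact h2

/-- **the arc read forwards** -/
theorem PhiR_seg (K As K' : Set W3) (f F f' : W3 → ℝ≥0∞) {w : W3} {a b : ℕ} (hab : a ≤ b) (hb : b ≤ w.length) :
    PhiR K As K' f F f' (seg w a b) = ∑ i ∈ Icc a b, ∑ j ∈ Icc i b,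
      if seg w a i ∈ K ∧ seg w i j ∈ As ∧ (seg w j b).reverse ∈ K' then
        f (seg w a i) * (F (seg w i j) * f' (seg w j b).reverse) else 0 := by
  rw [← sum_marks hab fun i j => if seg w a i ∈ K ∧ seg w i j ∈ As ∧ (seg w j b).reverse ∈ K' then
        f (seg w a i) * (F (seg w i j) * f' (seg w j b).reverse) else 0, PhiR, length_seg hb]
  refine sum_congr rfl fun i hi => sum_congr rfl fun l hl => ?_
  have hi' := mem_range.1 hi
  have hl' := mem_range.1 hl
  rw [seg_take w (by omega), seg_drop, seg_drop, seg_take w (by omega), ← add_assoc]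

/-- **the arc read backwards** -/
theorem PhiR_seg_rev (K As K' : Set W3) (f F f' : W3 → ℝ≥0∞) {w : W3} {a b : ℕ} (hab : a ≤ b) (hb : b ≤ w.length) :
    PhiR K As K' f F f' (seg w a b).reverse = ∑ i ∈ Icc a b, ∑ j ∈ Icc i b,
      if (seg w j b).reverse ∈ K ∧ (seg w i j).reverse ∈ As ∧ seg w a i ∈ K' then
        f (seg w j b).reverse * (F (seg w i j).reverse * f' (seg w a i)) else 0 := by
  rw [← sum_marks hab fun i j => if (seg w j b).reverse ∈ K ∧ (seg w i j).reverse ∈ As ∧ seg w a i ∈ K' then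
        f (seg w j b).reverse * (F (seg w i j).reverse * f' (seg w a i)) else 0, PhiR, List.length_reverse, length_seg hb]
  rw [Finset.sum_sigma', Finset.sum_sigma']
  refine Finset.sum_bij' (fun p _ => ⟨b - a - (p.1 + p.2), p.2⟩) (fun p _ => ⟨b - a - (p.1 + p.2), p.2⟩) ?_ ?_ ?_ ?_ ?_
  · rintro ⟨i, l⟩ h
    simp only [mem_sigma, mem_range] at h ⊢
    omega
  · rintro ⟨i, l⟩ h
    simp only [mem_sigma, mem_range] at h ⊢
    omega
  · rintro ⟨i, l⟩ h
    simp only [mem_sigma, mem_range] at h ⊢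
    congr 1
    omega
  · rintro ⟨i, l⟩ h
    simp only [mem_sigma, mem_range] at h ⊢
    congr 1
    omega
  · rintro ⟨i, l⟩ h
    simp only [mem_sigma, mem_range] at h ⊢
    rw [seg_rev_take hab hb (by omega), seg_rev_drop hab hb (by omega), seg_rev_drop hab hb (by omega),
      seg_rev_take (by omega) (by omega) (by omega), List.reverse_reverse, show a + (b - a - (i + l)) + l = b - i by omega,
      show a + (b - a - (i + l)) = b - (i + l) by omega, show b - i - l = b - (i + l) by omega]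

/-! ### uniqueness of the marks, double gates -/

/-- helper22's classes -/
theorem un3_tip2 {K As K' : Set W3} {t t' : ℂ} {rt rt' r0t r0t' l m th l' m' th' Dt : ℝ} (hK : ∀ a ∈ K, Tip2 t rt l m th a)
    (hK' : ∀ b ∈ K', Tip2 t' rt' l' m' th' b) (hA : ∀ A ∈ As, RsC t t' r0t r0t' Dt A) (h0 : 2 * rt ≤ r0t)
    (h0' : 2 * rt' ≤ r0t') (hD : 2 * rt < Dt) (hD' : 2 * rt' < Dt) : Un3 K As K' :=
  fun _ hk _ h _ hk' _ hk2 _ h2 _ hk2' e => marks_walk2 (hK _ hk) (hK _ hk2) (hK' _ hk') (hK' _ hk2') (hA _ h) (hA _ h2)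
    h0 h0' hD hD' e

/-- helper82's classes -/
theorem un3_dbl {K As K' : Set W3} {t t' : ℂ} {r l r2 m r' l' r2' m' r0 r0' D : ℝ} (hK : ∀ a ∈ K, ∃ k, DblC t r l r2 m a k)
    (hK' : ∀ b ∈ K', ∃ k, DblC t' r' l' r2' m' b k) (hA : ∀ A ∈ As, RsC t t' r0 r0' D A) (h0 : 2 * (r + r2) ≤ r0)
    (h0' : 2 * (r' + r2') ≤ r0') (hD : 2 * (r + r2) < D) (hD' : 2 * (r' + r2') < D) : Un3 K As K' := by
  intro k hk A h k' hk' k2 hk2 A2 h2 k2' hk2' e
  obtain ⟨i, hi⟩ := hK k hk
  obtain ⟨i2, hi2⟩ := hK k2 hk2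
  obtain ⟨j, hj⟩ := hK' k' hk'
  obtain ⟨j2, hj2⟩ := hK' k2' hk2'
  obtain ⟨u1, u2, u3⟩ := dmarks_walk hi hi2 hj hj2 (hA _ h) (hA _ h2) h0 h0' hD hD' e
  exact ⟨u1.1, u2, u3.1⟩

/-! ### cones -/

/-- in the ball `r` the vertices are in the closed sector of half angle 60 degrees with offset `δ` -/
def HalfK (d : ℂ) (r δ : ℝ) (R : W3) : Prop :=
  ∀ k : ℕ, k ≤ R.length → ‖ps R k‖ ≤ r → ‖ps R k‖ / 2 - δ ≤ lv d (ps R k)

lemma HalfK.c {d : ℂ} {r δ : ℝ} {R : W3} (h : HalfK d r δ R) : HalfC d r δ R := fun k hk hn => by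
  linarith [h k hk hn, norm_nonneg (ps R k)]

lemma HalfK.mono {d : ℂ} {r r' δ : ℝ} {R : W3} (h : HalfK d r δ R) (hr : r' ≤ r) : HalfK d r' δ R :=
  fun k hk hn => h k hk (hn.trans hr)

/-- a cone for the direction `t` with the cosine `c` -/
lemma halfK_of_cone {d t : ℂ} {r δ c : ℝ} {R : W3} (hc : ‖d - t‖ ≤ c - 1 / 2)
    (h : ∀ k : ℕ, k ≤ R.length → ‖ps R k‖ ≤ r → c * ‖ps R k‖ - δ ≤ lv t (ps R k)) : HalfK d r δ R := by
  intro k hk hr
  have h1 := h k hk hr
  have h2 := (abs_le.1 (lv_diff d t (ps R k))).1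
  have h3 := mul_le_mul_of_nonneg_right hc (norm_nonneg (ps R k))
  linarith

/-- the rest condition for a concatenation -/
theorem restK_append {d : ℂ} {r0 rt κ κ0 δ : ℝ} {k T : W3} (ek : Even k.length) (hk : RestK d r0 κ k) (bk : ‖en k‖ ≤ rt)
    (lk : EndK d κ0 k) (hδ : δ < κ0) (hκ0 : 0 ≤ κ) (hT : HalfK d (r0 + rt) δ T) : RestK d r0 κ (k ++ T) := by
  intro j hj hjl hn
  rcases le_or_gt j k.length with h | h
  · rw [ps_append_left h] at hn ⊢
    exact hk j hj h hn
  · rw [ps_append_right' ek h.le] at hn ⊢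
    have h1 : ‖ps T (j - k.length)‖ ≤ r0 + rt := by
      have e : ps T (j - k.length) = (en k + ps T (j - k.length)) - en k := by ring
      rw [e]
      exact (norm_sub_le _ _).trans (add_le_add hn bk)
    have h2 := hT (j - k.length) (by rw [List.length_append] at hjl; omega) h1
    unfold EndK at lk
    rw [lv_add]
    have h3 := norm_add_le (en k) (ps T (j - k.length))
    have h4 := norm_nonneg (ps T (j - k.length))
    have h5 := norm_nonneg (en k)
    constructor <;> linarith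

lemma halfK_append {d : ℂ} {r δ rt' : ℝ} {A k' : W3} (eA : Even A.length) (ek' : Even k'.length) (hA : HalfK d r δ A)
    (bk' : ∀ j : ℕ, j ≤ k'.length → ‖ps k' j‖ ≤ rt') (far : r + 2 * rt' < ‖en A‖) : HalfK d r δ (A ++ k'.reverse) := by
  intro j hj hn
  rcases le_or_gt j A.length with h | h
  · rw [ps_append_left h] at hn ⊢
    exact hA j h hn
  · exfalso
    rw [List.length_append, List.length_reverse] at hj
    rw [ps_append_right' eA h.le, ps_reverse ek' (by omega)] at hn
    have h1 := bk' (k'.length - (j - A.length)) (by omega)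
    have h2 : ‖en k'‖ ≤ rt' := bk' _ le_rfl
    have e : en A = (en A + (ps k' (k'.length - (j - A.length)) - en k')) - ps k' (k'.length - (j - A.length)) + en k' := by
      ring
    have h3 : ‖en A‖ ≤ ‖en A + (ps k' (k'.length - (j - A.length)) - en k')‖ + ‖ps k' (k'.length - (j - A.length))‖ +
        ‖en k'‖ := by
      conv_lhs => rw [e]
      exact (norm_add_le _ _).trans (add_le_add_left (norm_sub_le _ _) _)
    linarith

/-- **the rest from its pieces, with cones** -/
theorem rsK_of_parts {d d' t t' : ℂ} {r0 r0' κ κ' D δ δ' κ0 κ0' rt rt' r0t r0t' Dt : ℝ} {k A k' : W3} (hk : TipC t rt k)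
    (hk' : TipC t' rt' k') (hA : RsC t t' r0t r0t' Dt A) (h0 : 2 * rt ≤ r0t) (h0' : 2 * rt' ≤ r0t')
    (nk : RestK d r0 κ k) (nk' : RestK d' r0' κ' k') (lk : EndK d κ0 k) (lk' : EndK d' κ0' k') (hδ : δ < κ0)
    (hδ' : δ' < κ0') (hκ : 0 ≤ κ) (hκ' : 0 ≤ κ') (cA : HalfK d (r0 + rt) δ A) (cA' : HalfK d' (r0' + rt') δ' A.reverse)
    (f1 : r0 + rt + 2 * rt' < Dt) (f2 : r0' + rt' + 2 * rt < Dt) (f3 : D + rt + rt' ≤ Dt) (f4 : 2 * (rt + rt') < Dt) :
    RsK d d' r0 r0' κ κ' D (k ++ (A ++ k'.reverse)) := by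
  have e1 : Even (k ++ (A ++ k'.reverse)).length := by
    simp only [List.length_append, List.length_reverse]
    exact hk.ev.add (hA.ev.add hk'.ev)
  have er : Even A.reverse.length := by rw [List.length_reverse]; exact hA.ev
  have hfar : ‖en A.reverse‖ = ‖en A‖ := by rw [en_reverse hA.ev, norm_neg]
  refine ⟨e1, sw_of_parts hk hk' hA h0 h0' f4, ?_, ?_, ?_⟩
  · exact restK_append hk.ev nk (norm_en_le hk) lk hδ hκ (halfK_append hA.ev hk'.ev cA hk'.ball (f1.trans_le hA.far))
  · rw [reverse_three]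
    exact restK_append hk'.ev nk' (norm_en_le hk') lk' hδ' hκ'
      (halfK_append er hk.ev cA' hk.ball (by rw [hfar]; exact f2.trans_le hA.far))
  · rw [en_three hk.ev hA.ev hk'.ev]
    have h1 : ‖en A‖ ≤ ‖en k + en A - en k'‖ + ‖en k‖ + ‖en k'‖ := by
      have e : en A = (en k + en A - en k') - en k + en k' := by ring
      conv_lhs => rw [e]
      exact (norm_add_le _ _).trans (add_le_add_left (norm_sub_le _ _) _)
    linarith [norm_en_le hk, norm_en_le hk', hA.far]

end Pool.Agent.ROT.F3
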