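import Pool.Agent.ROT.F3ForB

/-!
# ROT / F3ForC (helper61): sums over rests with marks; the closed words with all marks

* `PhiG` : the sum of an arbitrary functional `Ψ k A k'` over the marks of `R`; `PhiR_eq_PhiG`, `PhiG_mul`;
* **`sum_rest`** : the sum over the rests = the sum over the pieces (no uniqueness, no disjointness used);
* **`exPm_all`** : `exPm` with `PhiG` on both arcs, the right side expanded over all pieces.
-/

set_option autoImplicit false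

namespace Pool.Agent.ROT.F3

open Finset
open scoped ENNReal Classical

/-- the sum over the marks of `R` -/
noncomputable def PhiG (K As K' : Set W3) (Ψ : W3 → W3 → W3 → ℝ≥0∞) (R : W3) : ℝ≥0∞ :=
  ∑ i ∈ range (R.length + 1), ∑ l ∈ range (R.length - i + 1),
    if R.take i ∈ K ∧ (R.drop i).take l ∈ As ∧ (R.drop (i + l)).reverse ∈ K' then
      Ψ (R.take i) ((R.drop i).take l) (R.drop (i + l)).reverse else 0

lemma PhiR_eq_PhiG (K As K' : Set W3) (f F f' : W3 → ℝ≥0∞) (R : W3) :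
    PhiR K As K' f F f' R = PhiG K As K' (fun k A k' => f k * (F A * f' k')) R := rfl

lemma PhiG_mul (K As K' : Set W3) (Ψ : W3 → W3 → W3 → ℝ≥0∞) (J : W3 → ℝ≥0∞) (R : W3) :
    PhiG K As K' Ψ R * J R = PhiG K As K' (fun k A k' => Ψ k A k' * J (k ++ (A ++ k'.reverse))) R := by
  unfold PhiG
  rw [sum_mul]
  refine sum_congr rfl fun i _ => ?_
  rw [sum_mul]
  refine sum_congr rfl fun l _ => ?_
  split_ifs
  · simp only
    rw [← cut_three R i l]
  · exact zero_mul _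

lemma PhiG_mono {K As K' : Set W3} {Ψ Ψ' : W3 → W3 → W3 → ℝ≥0∞} (h : ∀ k A k', Ψ k A k' ≤ Ψ' k A k') (R : W3) :
    PhiG K As K' Ψ R ≤ PhiG K As K' Ψ' R := by
  refine sum_le_sum fun i _ => sum_le_sum fun l _ => ?_
  split_ifs
  · exact h _ _ _
  · exact le_rfl

/-- the number of decompositions is at most one -/
lemma PhiG_one_le {K As K' : Set W3} (hU : Un3 K As K') (R : W3) : PhiG K As K' (fun _ _ _ => 1) R ≤ 1 := by
  by_cases h : ∃ k ∈ K, ∃ A ∈ As, ∃ k' ∈ K', R = k ++ (A ++ k'.reverse)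
  · obtain ⟨k, hk, A, hA, k', hk', rfl⟩ := h
    have := PhiR_eq hU (fun _ => 1) (fun _ => 1) (fun _ => 1) hk hA hk'
    rw [PhiR_eq_PhiG] at this
    simp only [mul_one] at this
    rw [this]
  · have := PhiR_zero (fun _ => 1) (fun _ => 1) (fun _ => 1) h
    rw [PhiR_eq_PhiG] at this
    simp only [mul_one] at this
    rw [this]
    exact zero_le_one

/-- the sum over all words with two marks = the sum over the pieces -/
lemma tsum_PhiG (K As K' : Set W3) (Ψ : W3 → W3 → W3 → ℝ≥0∞) : ∑' R : W3, wx R * PhiG K As K' Ψ R =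
    ∑' (k : W3) (A : W3) (k' : W3), if k ∈ K ∧ A ∈ As ∧ k' ∈ K' then wx k * (wx A * wx k') * Ψ k A k' else 0 := by
  have h1 : ∀ R : W3, wx R * PhiG K As K' Ψ R = ∑ i ∈ range (R.length + 1), ∑ l ∈ range (R.length - i + 1),
      (fun (w : W3) (i j : ℕ) => if w.take i ∈ K ∧ (w.drop i).take (j - i) ∈ As ∧ (w.drop j).reverse ∈ K' then
        wx w * Ψ (w.take i) ((w.drop i).take (j - i)) (w.drop j).reverse else 0) R i (i + l) := by
    intro R
    unfold PhiG
    rw [mul_sum]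
    refine sum_congr rfl fun i _ => ?_
    rw [mul_sum]
    refine sum_congr rfl fun l _ => ?_
    simp only [Nat.add_sub_cancel_left, mul_ite, mul_zero]
  rw [tsum_congr h1, tsum_cut3 fun (w : W3) (i j : ℕ) => if w.take i ∈ K ∧ (w.drop i).take (j - i) ∈ As ∧
    (w.drop j).reverse ∈ K' then wx w * Ψ (w.take i) ((w.drop i).take (j - i)) (w.drop j).reverse else 0]
  refine tsum_congr fun k => tsum_congr fun A => ?_
  rw [← (Equiv.tsum_eq (⟨List.reverse, List.reverse, List.reverse_reverse, List.reverse_reverse⟩ : W3 ≃ W3))]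
  refine tsum_congr fun k' => ?_
  simp only [Equiv.coe_fn_mk, List.take_left, List.drop_left, Nat.add_sub_cancel_left]
  have e : ((k ++ (A ++ k'.reverse)).drop (k.length + A.length)).reverse = k' := by
    rw [← List.drop_drop, List.drop_left, List.drop_left, List.reverse_reverse]
  rw [e, wx_append, wx_append, wx_reverse]

/-- **the sum over the rests = the sum over the pieces** -/
theorem sum_rest {K As K' Rs : Set W3} (hR : ∀ k ∈ K, ∀ A ∈ As, ∀ k' ∈ K', k ++ (A ++ k'.reverse) ∈ Rs)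
    (Ψ : W3 → W3 → W3 → ℝ≥0∞) : ∑' R : W3, (if R ∈ Rs then wx R * PhiG K As K' Ψ R else 0) =
      ∑' (k : W3) (A : W3) (k' : W3), if k ∈ K ∧ A ∈ As ∧ k' ∈ K' then wx k * (wx A * wx k') * Ψ k A k' else 0 := by
  rw [← tsum_PhiG]
  refine tsum_congr fun R => ?_
  by_cases h : R ∈ Rs
  · rw [if_pos h]
  · rw [if_neg h]
    symm
    have : PhiG K As K' Ψ R = 0 := by
      refine sum_eq_zero fun i _ => sum_eq_zero fun l _ => if_neg ?_
      rintro ⟨h1, h2, h3⟩
      apply h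
      rw [cut_three R i l]
      exact hR _ h1 _ h2 _ h3
    rw [this, mul_zero]

/-- the sum over the rests with a further function of the rest -/
theorem sum_rest_mul {K As K' Rs : Set W3} (hR : ∀ k ∈ K, ∀ A ∈ As, ∀ k' ∈ K', k ++ (A ++ k'.reverse) ∈ Rs)
    (Ψ : W3 → W3 → W3 → ℝ≥0∞) (J : W3 → ℝ≥0∞) :
    ∑' R : W3, (if R ∈ Rs then wx R * PhiG K As K' Ψ R * J R else 0) =
      ∑' (k : W3) (A : W3) (k' : W3), if k ∈ K ∧ A ∈ As ∧ k' ∈ K' then
        wx k * (wx A * wx k') * (Ψ k A k' * J (k ++ (A ++ k'.reverse))) else 0 := by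
  simp_rw [mul_assoc, PhiG_mul, ← mul_assoc]
  have := sum_rest hR fun k A k' => Ψ k A k' * J (k ++ (A ++ k'.reverse))
  simp only [← mul_assoc] at this
  exact this

/-- **the closed words with all marks** : `k, A, k'` on the first arc, `l, B, l'` on the second one -/
theorem exPm_all {C C' : Set (W3 × W3)} {RA RB K1 A1 K1' K2 A2 K2' : Set W3} (H : Hyp C C' RA RB)
    (hA : ∀ k ∈ K1, ∀ A ∈ A1, ∀ k' ∈ K1', k ++ (A ++ k'.reverse) ∈ RA)
    (hB : ∀ k ∈ K2, ∀ A ∈ A2, ∀ k' ∈ K2', k ++ (A ++ k'.reverse) ∈ RB) (e e' : W3 × W3 → ℝ≥0∞)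
    (Ψ Ψ' : W3 → W3 → W3 → ℝ≥0∞) :
    ∑' w : W3, ∑' k1 : ℕ, ∑' k2 : ℕ, ∑' m : ℕ, ∑' k3 : ℕ, ∑' k4 : ℕ,
      (if (k1 ≤ k2 ∧ k2 ≤ m ∧ m ≤ k3 ∧ k3 ≤ k4 ∧ k4 ≤ w.length) ∧ Cl w ∧ (seg w 0 k1, (w.drop k4).reverse) ∈ C ∧
          seg w k1 k2 ∈ RA ∧ ((seg w k2 m).reverse, seg w m k3) ∈ C' ∧ (seg w k3 k4).reverse ∈ RB then
        wx w * (e (seg w 0 k1, (w.drop k4).reverse) * e' ((seg w k2 m).reverse, seg w m k3) *
          (PhiG K1 A1 K1' Ψ (seg w k1 k2) * PhiG K2 A2 K2' Ψ' (seg w k3 k4).reverse)) else 0) =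
    ∑' (k : W3) (A : W3) (k' : W3) (l : W3) (B : W3) (l' : W3),
      if (k ∈ K1 ∧ A ∈ A1 ∧ k' ∈ K1') ∧ (l ∈ K2 ∧ B ∈ A2 ∧ l' ∈ K2') then
        wx k * (wx A * wx k') * Ψ k A k' * (wx l * (wx B * wx l') * Ψ' l B l') *
        ∑' z : ℂ, (if Dj (k ++ (A ++ k'.reverse)) (l ++ (B ++ l'.reverse)) z then
          gam C e z * gam C' e' (z + en (k ++ (A ++ k'.reverse)) - en (l ++ (B ++ l'.reverse))) else 0) else 0 := by
  rw [exPm H e e' (PhiG K1 A1 K1' Ψ) (PhiG K2 A2 K2' Ψ')]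
  have h1 : ∀ R : W3, ∑' S : W3, (if R ∈ RA ∧ S ∈ RB then wx R * PhiG K1 A1 K1' Ψ R * (wx S * PhiG K2 A2 K2' Ψ' S) *
      ∑' z : ℂ, (if Dj R S z then gam C e z * gam C' e' (z + en R - en S) else 0) else 0) =
      if R ∈ RA then wx R * PhiG K1 A1 K1' Ψ R * ∑' (l : W3) (B : W3) (l' : W3), (if l ∈ K2 ∧ B ∈ A2 ∧ l' ∈ K2' then
        wx l * (wx B * wx l') * (Ψ' l B l' * ∑' z : ℂ, (if Dj R (l ++ (B ++ l'.reverse)) z then
          gam C e z * gam C' e' (z + en R - en (l ++ (B ++ l'.reverse))) else 0)) else 0) else 0 := by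
    intro R
    by_cases hR : R ∈ RA
    · rw [if_pos hR, ← sum_rest_mul hB Ψ' fun S => ∑' z : ℂ, (if Dj R S z then
        gam C e z * gam C' e' (z + en R - en S) else 0), ← ENNReal.tsum_mul_left]
      refine tsum_congr fun S => ?_
      by_cases hS : S ∈ RB
      · rw [if_pos ⟨hR, hS⟩, if_pos hS, mul_assoc]
      · rw [if_neg fun h => hS h.2, if_neg hS, mul_zero]
    · rw [if_neg hR]
      exact ENNReal.tsum_eq_zero.2 fun S => if_neg fun h => hR h.1
  simp_rw [h1]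
  rw [sum_rest_mul hA Ψ]
  refine tsum_congr fun k => tsum_congr fun A => tsum_congr fun k' => ?_
  by_cases hk : k ∈ K1 ∧ A ∈ A1 ∧ k' ∈ K1'
  · rw [if_pos hk, ← mul_assoc, ← ENNReal.tsum_mul_left]
    refine tsum_congr fun l => ?_
    rw [← ENNReal.tsum_mul_left]
    refine tsum_congr fun B => ?_
    rw [← ENNReal.tsum_mul_left]
    refine tsum_congr fun l' => ?_
    by_cases hl : l ∈ K2 ∧ B ∈ A2 ∧ l' ∈ K2'
    · rw [if_pos hl, if_pos ⟨hk, hl⟩]
      ring
    · rw [if_neg hl, if_neg fun h => hl h.2, mul_zero]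
  · rw [if_neg hk]
    symm
    exact ENNReal.tsum_eq_zero.2 fun l => ENNReal.tsum_eq_zero.2 fun B => ENNReal.tsum_eq_zero.2 fun l' =>
      if_neg fun h => hk h.1

end Pool.Agent.ROT.F3
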