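import Mathlib.MeasureTheory.Function.ConvergenceInMeasure
import Mathlib.MeasureTheory.Integral.DominatedConvergence
import Mathlib.MeasureTheory.Measure.Prod
import Mathlib.MeasureTheory.Measure.WithDensity

/-!
# ROT, F3, row R4 (helper32): the foreign kernel on the side of the walks

`φ_j` = functions of the rest alone, `Θ` = function of the closed curve, `φ_j → Θ` in `L¹(L)`, `L` = law of the closed curves.

* `ac_fst` : `L = t · (β × μ)|D`, `t ≠ 0` a.e. and almost every `a` has companions ==> `β ≪ L.map fst`;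
* **`frn_ac`** : `β ≪ L.map q` ==> `φ_j` converges in `L¹(β)`, and almost everywhere along a subsequence; the limit is `Θ` for `L`;
* **`frn`** : both together; `frn_fam` : countably many sequences, one subsequence.
-/

set_option autoImplicit false

namespace Pool.Agent.ROT.F3

open MeasureTheory Set Filter Topology
open scoped ENNReal

section frn

variable {A X : Type*} [MeasurableSpace A] [MeasurableSpace X]

/-- convergence in `L¹`, as an integral with values in `[0, ∞]` -/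
lemma tim_of_L1 {L : Measure X} {f : ℕ → X → ℝ} {g : X → ℝ} (hf : ∀ j, AEStronglyMeasurable (f j) L)
    (hg : AEStronglyMeasurable g L) (h : Tendsto (fun j => ∫⁻ x, ENNReal.ofReal |f j x - g x| ∂L) atTop (𝓝 0)) :
    TendstoInMeasure L f atTop g := by
  refine tendstoInMeasure_of_tendsto_eLpNorm one_ne_zero hf hg ?_
  refine h.congr fun j => ?_
  rw [eLpNorm_one_eq_lintegral_enorm]
  refine lintegral_congr fun x => ?_
  rw [Pi.sub_apply, ← ofReal_norm, Real.norm_eq_abs]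

lemma clip_le (x : ℝ) : |max (-1) (min 1 x)| ≤ 1 := by
  rw [abs_le]
  exact ⟨le_max_left _ _, max_le (by norm_num) (min_le_left _ _)⟩

lemma clip_eq {x : ℝ} (h : |x| ≤ 1) : max (-1) (min 1 x) = x := by
  rw [abs_le] at h
  rw [min_eq_right h.2, max_eq_right h.1]

/-- **the core**: `β` absolutely continuous with respect to the marginal of `L` -/
theorem frn_ac {β : Measure A} [IsFiniteMeasure β] {L : Measure X} {q : X → A} (hq : Measurable q) (hβ : β ≪ L.map q)
    {φ : ℕ → A → ℝ} (hφ : ∀ j, Measurable (φ j)) (hb : ∀ j a, |φ j a| ≤ 1) {Θ : X → ℝ} (hΘ : AEStronglyMeasurable Θ L)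
    (hT : Tendsto (fun j => ∫⁻ x, ENNReal.ofReal |φ j (q x) - Θ x| ∂L) atTop (𝓝 0)) :
    ∃ θ : A → ℝ, Measurable θ ∧ (∀ a, |θ a| ≤ 1) ∧ (∀ᵐ x ∂L, Θ x = θ (q x)) ∧
      Tendsto (fun j => ∫ a, |φ j a - θ a| ∂β) atTop (𝓝 0) ∧
      ∃ s : ℕ → ℕ, StrictMono s ∧ ∀ᵐ a ∂β, Tendsto (fun k => φ (s k) a) atTop (𝓝 (θ a)) := by
  have hm : TendstoInMeasure L (fun j x => φ j (q x)) atTop Θ :=
    tim_of_L1 (fun j => ((hφ j).comp hq).aestronglyMeasurable) hΘ hT
  -- a subsequence which converges almost everywhere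
  have key : ∀ s' : ℕ → ℕ, Tendsto s' atTop atTop → ∃ s : ℕ → ℕ, StrictMono s ∧
      ∀ᵐ x ∂L, Tendsto (fun k => φ (s' (s k)) (q x)) atTop (𝓝 (Θ x)) := by
    intro s' hs'
    have h1 : TendstoInMeasure L (fun j x => φ (s' j) (q x)) atTop Θ := fun ε hε => (hm ε hε).comp hs'
    exact h1.exists_seq_tendsto_ae
  obtain ⟨s, hs, hsL⟩ := key id tendsto_id
  have h1 : ∀ᵐ a ∂(L.map q), ∃ l : ℝ, Tendsto (fun k => φ (s k) a) atTop (𝓝 l) := by
    have hme : MeasurableSet {a | ∃ l : ℝ, Tendsto (fun k => φ (s k) a) atTop (𝓝 l)} :=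
      measurableSet_exists_tendsto fun k => hφ (s k)
    rw [ae_map_iff hq.aemeasurable hme]
    filter_upwards [hsL] with x hx
    exact ⟨_, hx⟩
  obtain ⟨θ0, hθ0, hlim⟩ := measurable_limit_of_tendsto_metrizable_ae (L := (atTop : Filter ℕ))
    (f := fun k => φ (s k)) (fun k => (hφ (s k)).aemeasurable) h1
  obtain ⟨θ, hθ⟩ : ∃ θ : A → ℝ, θ = fun a => max (-1) (min 1 (θ0 a)) := ⟨_, rfl⟩
  have hθm : Measurable θ := by
    rw [hθ]
    exact measurable_const.max (measurable_const.min hθ0)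
  have hlimθ : ∀ᵐ a ∂(L.map q), Tendsto (fun k => φ (s k) a) atTop (𝓝 (θ a)) := by
    filter_upwards [hlim] with a ha
    have h2 : Tendsto (fun k => max (-1 : ℝ) (min 1 (φ (s k) a))) atTop (𝓝 (max (-1) (min 1 (θ0 a)))) :=
      tendsto_const_nhds.max (tendsto_const_nhds.min ha)
    rw [hθ]
    refine h2.congr fun k => clip_eq (hb _ _)
  have hΘθ : ∀ᵐ x ∂L, Θ x = θ (q x) := by
    have h2 : ∀ᵐ x ∂L, Tendsto (fun k => φ (s k) (q x)) atTop (𝓝 (θ (q x))) := ae_of_ae_map hq.aemeasurable hlimθ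
    filter_upwards [hsL, h2] with x hx hx2
    exact tendsto_nhds_unique hx hx2
  refine ⟨θ, hθm, fun a => by rw [hθ]; exact clip_le _, hΘθ, ?_, s, hs, hβ.ae_le hlimθ⟩
  refine tendsto_of_subseq_tendsto fun s' hs' => ?_
  obtain ⟨s2, -, hs2L⟩ := key s' hs'
  refine ⟨s2, ?_⟩
  have h3 : ∀ᵐ a ∂β, Tendsto (fun k => φ (s' (s2 k)) a) atTop (𝓝 (θ a)) := by
    have hme : MeasurableSet {a | Tendsto (fun k => φ (s' (s2 k)) a) atTop (𝓝 (θ a))} :=
      measurableSet_tendsto_fun (fun k => hφ _) hθm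
    have h5 : ∀ᵐ a ∂(L.map q), Tendsto (fun k => φ (s' (s2 k)) a) atTop (𝓝 (θ a)) := by
      rw [ae_map_iff hq.aemeasurable hme]
      filter_upwards [hs2L, hΘθ] with x hx hx2
      rw [← hx2]
      exact hx
    exact hβ.ae_le h5
  have h4 : Tendsto (fun k => ∫ a, |φ (s' (s2 k)) a - θ a| ∂β) atTop (𝓝 (∫ _a, (0 : ℝ) ∂β)) := by
    refine tendsto_integral_of_dominated_convergence (fun _ => 2) (fun k => ?_) (integrable_const _) (fun k => ?_) ?_
    · exact (continuous_abs.measurable.comp ((hφ _).sub hθm)).aestronglyMeasurable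
    · refine Eventually.of_forall fun a => ?_
      rw [Real.norm_eq_abs, abs_abs]
      have e1 := hb (s' (s2 k)) a
      have e2 : |θ a| ≤ 1 := by
        rw [hθ]
        exact clip_le _
      calc |φ (s' (s2 k)) a - θ a| ≤ |φ (s' (s2 k)) a| + |θ a| := abs_sub _ _
        _ ≤ 2 := by linarith
    · filter_upwards [h3] with a ha
      have h5 : Tendsto (fun k => |φ (s' (s2 k)) a - θ a|) atTop (𝓝 |θ a - θ a|) := (ha.sub tendsto_const_nhds).abs
      rwa [sub_self, abs_zero] at h5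
  rwa [integral_zero] at h4

end frn

section prod

variable {A Y : Type*} [MeasurableSpace A] [MeasurableSpace Y]

/-- almost every `a` has companions: `β` is absolutely continuous with respect to the marginal -/
theorem ac_fst {β : Measure A} {μ : Measure Y} [SFinite β] [SFinite μ] {D : Set (A × Y)} (hD : MeasurableSet D)
    {t : A × Y → ℝ≥0∞} (ht : Measurable t) (ht0 : ∀ᵐ p ∂((β.prod μ).restrict D), t p ≠ 0)
    (hc : ∀ᵐ a ∂β, μ {y | (a, y) ∈ D} ≠ 0) :
    β ≪ (((β.prod μ).restrict D).withDensity t).map Prod.fst := by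
  refine Measure.AbsolutelyContinuous.mk fun N hN h => ?_
  rw [Measure.map_apply measurable_fst hN, withDensity_apply_eq_zero ht] at h
  have h1 : ((β.prod μ).restrict D) (Prod.fst ⁻¹' N) = 0 := by
    refine measure_mono_null (fun p hp => ?_) (measure_union_null h (ae_iff.1 ht0))
    by_cases h0 : t p ≠ 0
    · exact Or.inl ⟨h0, hp⟩
    · exact Or.inr h0
  have hNm : MeasurableSet (Prod.fst ⁻¹' N : Set (A × Y)) := measurable_fst hN
  rw [Measure.restrict_apply hNm, Measure.measure_prod_null (hNm.inter hD)] at h1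
  have h2 : ∀ᵐ a ∂β, a ∉ N := by
    filter_upwards [h1, hc] with a ha hca haN
    refine hca ?_
    have e1 : (Prod.mk a ⁻¹' (Prod.fst ⁻¹' N ∩ D)) = {y | (a, y) ∈ D} := by
      ext y
      simp only [mem_preimage, mem_inter_iff, mem_ofPred_eq]
      exact ⟨fun h => h.2, fun h => ⟨haN, h⟩⟩
    rw [← e1]
    exact ha
  rw [ae_iff] at h2
  simpa using h2

/-- the same for the second arc -/
theorem ac_snd {α : Measure Y} {μ : Measure A} [SFinite α] [SFinite μ] {D : Set (Y × A)} (hD : MeasurableSet D)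
    {t : Y × A → ℝ≥0∞} (ht : Measurable t) (ht0 : ∀ᵐ p ∂((α.prod μ).restrict D), t p ≠ 0)
    (hc : ∀ᵐ a ∂μ, α {y | (y, a) ∈ D} ≠ 0) :
    μ ≪ (((α.prod μ).restrict D).withDensity t).map Prod.snd := by
  refine Measure.AbsolutelyContinuous.mk fun N hN h => ?_
  rw [Measure.map_apply measurable_snd hN, withDensity_apply_eq_zero ht] at h
  have h1 : ((α.prod μ).restrict D) (Prod.snd ⁻¹' N) = 0 := by
    refine measure_mono_null (fun p hp => ?_) (measure_union_null h (ae_iff.1 ht0))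
    by_cases h0 : t p ≠ 0
    · exact Or.inl ⟨h0, hp⟩
    · exact Or.inr h0
  have hNm : MeasurableSet (Prod.snd ⁻¹' N : Set (Y × A)) := measurable_snd hN
  have hmi : MeasurableSet (Prod.snd ⁻¹' N ∩ D : Set (Y × A)) := hNm.inter hD
  rw [Measure.restrict_apply hNm, ← Measure.prod_swap, Measure.map_apply measurable_swap hmi,
    Measure.measure_prod_null (measurable_swap hmi)] at h1
  have h2 : ∀ᵐ a ∂μ, a ∉ N := by
    filter_upwards [h1, hc] with a ha hca haN
    refine hca ?_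
    have e1 : (Prod.mk a ⁻¹' (Prod.swap ⁻¹' (Prod.snd ⁻¹' N ∩ D))) = {y | (y, a) ∈ D} := by
      ext y
      simp only [mem_preimage, mem_inter_iff, mem_ofPred_eq, Prod.swap_prod_mk]
      exact ⟨fun h => h.2, fun h => ⟨haN, h⟩⟩
    rw [← e1]
    exact ha
  rw [ae_iff] at h2
  simpa using h2

/-- one subsequence for countably many sequences which converge in `L¹` -/
theorem ae_subseq {β : Measure A} [IsFiniteMeasure β] {φ : ℕ → ℕ → A → ℝ} {θ : ℕ → A → ℝ} (hφ : ∀ i j, Measurable (φ i j))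
    (hθ : ∀ i, Measurable (θ i)) (hb : ∀ i j a, |φ i j a - θ i a| ≤ 2)
    (h : ∀ i, Tendsto (fun j => ∫ a, |φ i j a - θ i a| ∂β) atTop (𝓝 0)) :
    ∃ s : ℕ → ℕ, StrictMono s ∧ ∀ᵐ a ∂β, ∀ i, Tendsto (fun k => φ i (s k) a) atTop (𝓝 (θ i a)) := by
  have hm : ∀ i j, Measurable fun a => |φ i j a - θ i a| := fun i j => continuous_abs.measurable.comp ((hφ i j).sub (hθ i))
  obtain ⟨s, hs, hk⟩ := extraction_forall_of_eventually' (P := fun k j => ∀ i ≤ k, ∫ a, |φ i j a - θ i a| ∂β ≤ (1 / 2) ^ k)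
    (fun k => by
      have h1 : ∀ i ≤ k, ∀ᶠ j in atTop, ∫ a, |φ i j a - θ i a| ∂β ≤ (1 / 2) ^ k := fun i _ =>
        (h i).eventually_le_const (by positivity)
      obtain ⟨N, hN⟩ := eventually_atTop.1 ((Set.finite_Iic k).eventually_all.2 fun i hi => h1 i hi)
      exact ⟨N, fun b hb i hi => hN b hb i hi⟩)
  refine ⟨s, hs, ae_all_iff.2 fun i => ?_⟩
  have h2 : ∫⁻ a, ∑' k, ENNReal.ofReal |φ i (s k) a - θ i a| ∂β ≠ ⊤ := by
    rw [lintegral_tsum fun k => (hm i (s k)).ennreal_ofReal.aemeasurable]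
    have h3 : ∀ k, ∫⁻ a, ENNReal.ofReal |φ i (s k) a - θ i a| ∂β = ENNReal.ofReal (∫ a, |φ i (s k) a - θ i a| ∂β) := by
      intro k
      rw [ofReal_integral_eq_lintegral_ofReal]
      · refine (integrable_const (2 : ℝ)).mono' (hm i (s k)).aestronglyMeasurable (Eventually.of_forall fun a => ?_)
        rw [Real.norm_eq_abs, abs_abs]
        exact hb _ _ _
      · exact Eventually.of_forall fun a => abs_nonneg _
    simp only [h3]
    have h4 : Summable fun k => ∫ a, |φ i (s k) a - θ i a| ∂β := by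
      rw [← summable_nat_add_iff i]
      refine Summable.of_nonneg_of_le (fun k => integral_nonneg fun a => abs_nonneg _) (fun k => hk (k + i) i (Nat.le_add_left _ _)) ?_
      exact (summable_nat_add_iff i).2 (summable_geometric_of_lt_one (by norm_num) (by norm_num))
    rw [← ENNReal.ofReal_tsum_of_nonneg (fun k => integral_nonneg fun a => abs_nonneg _) h4]
    exact ENNReal.ofReal_ne_top
  filter_upwards [ae_lt_top (Measurable.ennreal_tsum fun k => (hm i (s k)).ennreal_ofReal) h2] with a ha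
  have h5 := ENNReal.tendsto_atTop_zero_of_tsum_ne_top ha.ne
  have h6 : Tendsto (fun k => |φ i (s k) a - θ i a|) atTop (𝓝 0) := by
    have h7 := (ENNReal.tendsto_toReal ENNReal.zero_ne_top).comp h5
    refine h7.congr fun k => ?_
    rw [Function.comp_apply, ENNReal.toReal_ofReal (abs_nonneg _)]
  rw [tendsto_iff_dist_tendsto_zero]
  exact h6

/-- **the foreign kernel of the rests**: `L = t · (β × μ)|D` (`μ` = companion and relative position) -/
theorem frn {β : Measure A} [IsFiniteMeasure β] {μ : Measure Y} [SFinite μ] {D : Set (A × Y)} (hD : MeasurableSet D)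
    {t : A × Y → ℝ≥0∞} (ht : Measurable t) (ht0 : ∀ᵐ p ∂((β.prod μ).restrict D), t p ≠ 0)
    (hc : ∀ᵐ a ∂β, μ {y | (a, y) ∈ D} ≠ 0) {φ : ℕ → A → ℝ} (hφ : ∀ j, Measurable (φ j)) (hb : ∀ j a, |φ j a| ≤ 1)
    {Θ : A × Y → ℝ} (hΘ : AEStronglyMeasurable Θ (((β.prod μ).restrict D).withDensity t))
    (hT : Tendsto (fun j => ∫⁻ p, ENNReal.ofReal |φ j p.1 - Θ p| ∂(((β.prod μ).restrict D).withDensity t)) atTop (𝓝 0)) :
    ∃ θ : A → ℝ, Measurable θ ∧ (∀ a, |θ a| ≤ 1) ∧ (∀ᵐ p ∂(((β.prod μ).restrict D).withDensity t), Θ p = θ p.1) ∧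
      Tendsto (fun j => ∫ a, |φ j a - θ a| ∂β) atTop (𝓝 0) ∧
      ∃ s : ℕ → ℕ, StrictMono s ∧ ∀ᵐ a ∂β, Tendsto (fun k => φ (s k) a) atTop (𝓝 (θ a)) :=
  frn_ac measurable_fst (ac_fst hD ht ht0 hc) hφ hb hΘ hT

/-- **countably many test functions**, one subsequence -/
theorem frn_fam {β : Measure A} [IsFiniteMeasure β] {μ : Measure Y} [SFinite μ] {D : Set (A × Y)} (hD : MeasurableSet D)
    {t : A × Y → ℝ≥0∞} (ht : Measurable t) (ht0 : ∀ᵐ p ∂((β.prod μ).restrict D), t p ≠ 0)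
    (hc : ∀ᵐ a ∂β, μ {y | (a, y) ∈ D} ≠ 0) {φ : ℕ → ℕ → A → ℝ} (hφ : ∀ i j, Measurable (φ i j))
    (hb : ∀ i j a, |φ i j a| ≤ 1) {Θ : ℕ → A × Y → ℝ}
    (hΘ : ∀ i, AEStronglyMeasurable (Θ i) (((β.prod μ).restrict D).withDensity t))
    (hT : ∀ i, Tendsto (fun j => ∫⁻ p, ENNReal.ofReal |φ i j p.1 - Θ i p| ∂(((β.prod μ).restrict D).withDensity t)) atTop
      (𝓝 0)) :
    ∃ θ : ℕ → A → ℝ, (∀ i, Measurable (θ i)) ∧ (∀ i a, |θ i a| ≤ 1) ∧
      (∀ᵐ p ∂(((β.prod μ).restrict D).withDensity t), ∀ i, Θ i p = θ i p.1) ∧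
      (∀ i, Tendsto (fun j => ∫ a, |φ i j a - θ i a| ∂β) atTop (𝓝 0)) ∧
      ∃ s : ℕ → ℕ, StrictMono s ∧ ∀ᵐ a ∂β, ∀ i, Tendsto (fun k => φ i (s k) a) atTop (𝓝 (θ i a)) := by
  choose θ h1 h2 h3 h4 _ _ using fun i => frn hD ht ht0 hc (hφ i) (hb i) (hΘ i) (hT i)
  refine ⟨θ, h1, h2, ae_all_iff.2 h3, h4, ae_subseq hφ h1 (fun i j a => ?_) h4⟩
  calc |φ i j a - θ i a| ≤ |φ i j a| + |θ i a| := abs_sub _ _
    _ ≤ 2 := by linarith [hb i j a, h2 i a]

end prod

end Pool.Agent.ROT.F3
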