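import Pool.Agent.ROT.F3Frn
import Mathlib.Topology.ContinuousMap.Bounded.Basic

/-!
# ROT, F3, row R10 (helper32): the functional of the block against the functional of the rest

`φ_i` = foreign functional of the whole rest, `ψ_j` = foreign functional of the block `b2` alone (both read as functions of the
rest), `χ` = weight of the event `E+` (the gates of the rest lie in `b2`).

* **`frn_cmp`** : `∫ χ |φ_i - ψ_j| dβ ≤ ε` for `i, j ≥ J`, if the limits `Θ1`, `Θ2` (on the closed curves) agree where `χ ≠ 0`;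
* **`frn_cmp_lim`** : the same for measures `m N` which converge to `β` along a filter; `frn_low` : lower bounds.
-/

set_option autoImplicit false

namespace Pool.Agent.ROT.F3

open MeasureTheory Set Filter Topology
open scoped ENNReal BoundedContinuousFunction

section cmp

variable {A X : Type*} [MeasurableSpace A] [MeasurableSpace X]

/-- **block against rest**, limit objects -/
theorem frn_cmp {β : Measure A} [IsFiniteMeasure β] {L : Measure X} {q : X → A} (hq : Measurable q) (hβ : β ≪ L.map q)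
    {φ ψ : ℕ → A → ℝ} (hφ : ∀ j, Measurable (φ j)) (hψ : ∀ j, Measurable (ψ j)) (hb : ∀ j a, |φ j a| ≤ 1)
    (hb' : ∀ j a, |ψ j a| ≤ 1) {Θ1 Θ2 : X → ℝ} (hΘ1 : AEStronglyMeasurable Θ1 L) (hΘ2 : AEStronglyMeasurable Θ2 L)
    (hT1 : Tendsto (fun j => ∫⁻ x, ENNReal.ofReal |φ j (q x) - Θ1 x| ∂L) atTop (𝓝 0))
    (hT2 : Tendsto (fun j => ∫⁻ x, ENNReal.ofReal |ψ j (q x) - Θ2 x| ∂L) atTop (𝓝 0))
    {χ : A → ℝ} (hχ : Measurable χ) (hχ0 : ∀ a, 0 ≤ χ a) (hχ1 : ∀ a, χ a ≤ 1)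
    (he : ∀ᵐ x ∂L, χ (q x) ≠ 0 → Θ1 x = Θ2 x) {ε : ℝ} (hε : 0 < ε) :
    ∃ J : ℕ, ∀ i ≥ J, ∀ j ≥ J, ∫ a, χ a * |φ i a - ψ j a| ∂β ≤ ε := by
  obtain ⟨θ1, m1, b1, e1, t1, -⟩ := frn_ac hq hβ hφ hb hΘ1 hT1
  obtain ⟨θ2, m2, b2, e2, t2, -⟩ := frn_ac hq hβ hψ hb' hΘ2 hT2
  have h0 : ∀ᵐ a ∂β, χ a ≠ 0 → θ1 a = θ2 a := by
    have hme : MeasurableSet {a | χ a ≠ 0 → θ1 a = θ2 a} := by
      have : {a | χ a ≠ 0 → θ1 a = θ2 a} = {a | χ a = 0} ∪ {a | θ1 a = θ2 a} := by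
        ext a
        simp only [mem_ofPred_eq, mem_union]
        tauto
      rw [this]
      exact (hχ (measurableSet_singleton 0)).union (measurableSet_eq_fun m1 m2)
    have h1 : ∀ᵐ a ∂(L.map q), χ a ≠ 0 → θ1 a = θ2 a := by
      rw [ae_map_iff hq.aemeasurable hme]
      filter_upwards [e1, e2, he] with x x1 x2 x3 x4
      rw [← x1, ← x2]
      exact x3 x4
    exact hβ.ae_le h1
  obtain ⟨J1, hJ1⟩ := eventually_atTop.1 (t1.eventually_le_const (half_pos hε))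
  obtain ⟨J2, hJ2⟩ := eventually_atTop.1 (t2.eventually_le_const (half_pos hε))
  have im : ∀ {f g : A → ℝ}, Measurable f → Measurable g → (∀ a, |f a| ≤ 1) → (∀ a, |g a| ≤ 1) →
      Integrable (fun a => |f a - g a|) β := by
    intro f g hf hg hf1 hg1
    refine (integrable_const (2 : ℝ)).mono' (continuous_abs.measurable.comp (hf.sub hg)).aestronglyMeasurable
      (Eventually.of_forall fun a => ?_)
    rw [Real.norm_eq_abs, abs_abs]
    calc |f a - g a| ≤ |f a| + |g a| := abs_sub _ _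
      _ ≤ 2 := by linarith [hf1 a, hg1 a]
  refine ⟨max J1 J2, fun i hi j hj => ?_⟩
  have h2 := hJ1 i ((le_max_left _ _).trans hi)
  have h3 := hJ2 j ((le_max_right _ _).trans hj)
  calc ∫ a, χ a * |φ i a - ψ j a| ∂β ≤ ∫ a, (|φ i a - θ1 a| + |ψ j a - θ2 a|) ∂β := by
        refine integral_mono_ae ?_ ((im (hφ i) m1 (hb i) b1).add (im (hψ j) m2 (hb' j) b2)) ?_
        · refine (im (hφ i) (hψ j) (hb i) (hb' j)).mono' (hχ.mul (continuous_abs.measurable.comp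
            ((hφ i).sub (hψ j)))).aestronglyMeasurable (Eventually.of_forall fun a => ?_)
          rw [Real.norm_eq_abs, abs_mul, abs_abs, abs_of_nonneg (hχ0 a)]
          exact mul_le_of_le_one_left (abs_nonneg _) (hχ1 a)
        · filter_upwards [h0] with a ha
          by_cases hc : χ a = 0
          · simp only [hc, zero_mul]
            positivity
          · have e := ha hc
            calc χ a * |φ i a - ψ j a| ≤ 1 * |φ i a - ψ j a| := mul_le_mul_of_nonneg_right (hχ1 a) (abs_nonneg _)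
              _ = |(φ i a - θ1 a) - (ψ j a - θ2 a)| := by rw [one_mul, e]; ring_nf
              _ ≤ |φ i a - θ1 a| + |ψ j a - θ2 a| := abs_sub _ _
    _ = ∫ a, |φ i a - θ1 a| ∂β + ∫ a, |ψ j a - θ2 a| ∂β := integral_add (im (hφ i) m1 (hb i) b1) (im (hψ j) m2 (hb' j) b2)
    _ ≤ ε := by linarith

end cmp

section lim

variable {A X : Type*} [TopologicalSpace A] [MeasurableSpace A] [OpensMeasurableSpace A] [MeasurableSpace X]

/-- **block against rest**, along a filter -/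
theorem frn_cmp_lim {β : Measure A} [IsFiniteMeasure β] {L : Measure X} {q : X → A} (hq : Measurable q) (hβ : β ≪ L.map q)
    {φ ψ : ℕ → A → ℝ} (hφ : ∀ j, Continuous (φ j)) (hψ : ∀ j, Continuous (ψ j)) (hb : ∀ j a, |φ j a| ≤ 1)
    (hb' : ∀ j a, |ψ j a| ≤ 1) {Θ1 Θ2 : X → ℝ} (hΘ1 : AEStronglyMeasurable Θ1 L) (hΘ2 : AEStronglyMeasurable Θ2 L)
    (hT1 : Tendsto (fun j => ∫⁻ x, ENNReal.ofReal |φ j (q x) - Θ1 x| ∂L) atTop (𝓝 0))
    (hT2 : Tendsto (fun j => ∫⁻ x, ENNReal.ofReal |ψ j (q x) - Θ2 x| ∂L) atTop (𝓝 0))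
    {χ : A → ℝ} (hχ : Continuous χ) (hχ0 : ∀ a, 0 ≤ χ a) (hχ1 : ∀ a, χ a ≤ 1)
    (he : ∀ᵐ x ∂L, χ (q x) ≠ 0 → Θ1 x = Θ2 x) {ι : Type*} {U : Filter ι} {m : ι → Measure A}
    (hm : ∀ f : A →ᵇ ℝ, Tendsto (fun N => ∫ a, f a ∂(m N)) U (𝓝 (∫ a, f a ∂β))) {ε : ℝ} (hε : 0 < ε) :
    ∃ J : ℕ, ∀ i ≥ J, ∀ j ≥ J, ∀ᶠ N in U, ∫ a, χ a * |φ i a - ψ j a| ∂(m N) ≤ ε := by
  obtain ⟨J, hJ⟩ := frn_cmp hq hβ (fun j => (hφ j).measurable) (fun j => (hψ j).measurable) hb hb' hΘ1 hΘ2 hT1 hT2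
    hχ.measurable hχ0 hχ1 he (half_pos hε)
  refine ⟨J, fun i hi j hj => ?_⟩
  have h1 := hJ i hi j hj
  have hc : Continuous fun a => χ a * |φ i a - ψ j a| := hχ.mul ((hφ i).sub (hψ j)).abs
  have h2 := hm (BoundedContinuousFunction.ofNormedAddCommGroup _ hc 2 fun a => by
    rw [Real.norm_eq_abs, abs_mul, abs_abs, abs_of_nonneg (hχ0 a)]
    have h3 : |φ i a - ψ j a| ≤ 2 := by
      calc |φ i a - ψ j a| ≤ |φ i a| + |ψ j a| := abs_sub _ _
        _ ≤ 2 := by linarith [hb i a, hb' j a]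
    exact (mul_le_of_le_one_left (abs_nonneg _) (hχ1 a)).trans h3)
  exact h2.eventually_le_const (by
    show (∫ a, χ a * |φ i a - ψ j a| ∂β) < ε
    linarith)

/-- **lower bounds** for the functional of the rest from those for the functional of the block -/
theorem frn_low {β : Measure A} [IsFiniteMeasure β] {L : Measure X} {q : X → A} (hq : Measurable q) (hβ : β ≪ L.map q)
    {φ ψ : ℕ → A → ℝ} (hφ : ∀ j, Continuous (φ j)) (hψ : ∀ j, Continuous (ψ j)) (hb : ∀ j a, |φ j a| ≤ 1)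
    (hb' : ∀ j a, |ψ j a| ≤ 1) {Θ1 Θ2 : X → ℝ} (hΘ1 : AEStronglyMeasurable Θ1 L) (hΘ2 : AEStronglyMeasurable Θ2 L)
    (hT1 : Tendsto (fun j => ∫⁻ x, ENNReal.ofReal |φ j (q x) - Θ1 x| ∂L) atTop (𝓝 0))
    (hT2 : Tendsto (fun j => ∫⁻ x, ENNReal.ofReal |ψ j (q x) - Θ2 x| ∂L) atTop (𝓝 0))
    {χ : A → ℝ} (hχ : Continuous χ) (hχ0 : ∀ a, 0 ≤ χ a) (hχ1 : ∀ a, χ a ≤ 1)
    (he : ∀ᵐ x ∂L, χ (q x) ≠ 0 → Θ1 x = Θ2 x) {ι : Type*} {U : Filter ι} {m : ι → Measure A} [∀ N, IsFiniteMeasure (m N)]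
    (hm : ∀ f : A →ᵇ ℝ, Tendsto (fun N => ∫ a, f a ∂(m N)) U (𝓝 (∫ a, f a ∂β))) {ε : ℝ} (hε : 0 < ε) :
    ∃ J : ℕ, ∀ i ≥ J, ∀ j ≥ J, ∀ᶠ N in U, ∫ a, χ a * ψ j a ∂(m N) - ε ≤ ∫ a, χ a * φ i a ∂(m N) := by
  obtain ⟨J, hJ⟩ := frn_cmp_lim hq hβ hφ hψ hb hb' hΘ1 hΘ2 hT1 hT2 hχ hχ0 hχ1 he hm hε
  refine ⟨J, fun i hi j hj => ?_⟩
  filter_upwards [hJ i hi j hj] with N hN
  have ib : ∀ {f : A → ℝ}, Continuous f → (∀ a, |f a| ≤ 2) → Integrable (fun a => χ a * f a) (m N) := by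
    intro f hf hf1
    refine (integrable_const (2 : ℝ)).mono' (hχ.mul hf).measurable.aestronglyMeasurable (Eventually.of_forall fun a => ?_)
    rw [Real.norm_eq_abs, abs_mul, abs_of_nonneg (hχ0 a)]
    exact (mul_le_of_le_one_left (abs_nonneg _) (hχ1 a)).trans (hf1 a)
  have h1 : ∫ a, χ a * ψ j a ∂(m N) - ∫ a, χ a * φ i a ∂(m N) ≤ ∫ a, χ a * |φ i a - ψ j a| ∂(m N) := by
    rw [← integral_sub (ib (hψ j) fun a => (hb' j a).trans (by norm_num)) (ib (hφ i) fun a => (hb i a).trans (by norm_num))]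
    refine integral_mono ((ib (hψ j) fun a => (hb' j a).trans (by norm_num)).sub (ib (hφ i) fun a =>
      (hb i a).trans (by norm_num))) (ib ((hφ i).sub (hψ j)).abs fun a => ?_) fun a => ?_
    · rw [abs_abs]
      calc |φ i a - ψ j a| ≤ |φ i a| + |ψ j a| := abs_sub _ _
        _ ≤ 2 := by linarith [hb i a, hb' j a]
    · show χ a * ψ j a - χ a * φ i a ≤ χ a * |φ i a - ψ j a|
      rw [← mul_sub]
      refine mul_le_mul_of_nonneg_left ?_ (hχ0 a)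
      rw [abs_sub_comm]
      exact le_abs_self _
  linarith

end lim

end Pool.Agent.ROT.F3
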