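import Pool.Agent.ROT.F3FP
import Pool.Agent.JNT.LowM
import Pool.Agent.JNT.LowStep

/-!
# ROT / F3Len (helper69): the number of letters of a bridge and of a block

* `brd_len` : the bridges of height `n` with more than `A n ^ (4 / 3)` letters;
* **`fb_len`** : the blocks `FB m` with more than `A m ^ (4 / 3)` letters have mass at most `ε`.
-/

set_option autoImplicit false

namespace HexObs

namespace ROT

namespace FP

open Finset ENNReal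

/-- the bridges of height `n` with many letters -/
theorem brd_len : ∃ K : ℝ, 0 < K ∧ ∀ (n : ℕ) (A : ℝ), 1 ≤ n → 0 < A →
    gf {a | a ∈ Brd n ∧ A * (n : ℝ) ^ (4 / 3 : ℝ) < (a.length : ℝ)} ≤ ENNReal.ofReal (K / A * uu n) := by
  obtain ⟨C, hC, hZ⟩ := JNT.zUp_M
  obtain ⟨cq, hcq, hbT⟩ := T2.bT_quarter
  refine ⟨6 * C / cq, by positivity, fun n A hn hA => ?_⟩
  have hn0 : (0 : ℝ) < n := by exact_mod_cast hn
  have hu := uu_pos n
  refine (JNT.long_le hn (by positivity)).trans (ENNReal.ofReal_le_ofReal ?_)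
  have e4 := hbT n hn
  have e5 : (BT n).toReal = uu n := rfl
  rw [e5] at e4
  rw [div_le_iff₀ (by positivity)]
  calc 6 * (n : ℝ) * PW.Zt n = 6 * ((n : ℝ) ^ (-(1 / 4) : ℝ) * PW.mZ n) := by rw [mul_assoc, JNT.hmZ hn]
    _ ≤ 6 * (uu n / cq * (C * (n : ℝ) ^ (4 / 3 : ℝ))) := by
        have e6 : (n : ℝ) ^ (-(1 / 4) : ℝ) ≤ uu n / cq := by
          rw [le_div_iff₀ hcq]
          linarith
        have e7 := hZ n hn
        have e8 := PW.mZ_pos hn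
        gcongr
    _ = 6 * C / cq / A * uu n * (A * (n : ℝ) ^ (4 / 3 : ℝ)) := by
        field_simp

/-- a property of the blocks which is inherited by longer bridges -/
theorem fb_inh {δ : ℝ} {m n : ℕ} (hmn : m ≤ n) (P : Set (List Bool)) (hP : ∀ a u, a ∈ P → a ++ u ∈ P)
    (hM : gf {t | t ∈ Brd n ∧ t ∈ P} ≤ ENNReal.ofReal (δ * bT n)) :
    gf {k | k ∈ FB m ∧ (∃ T, T ≤ n ∧ k ∈ Brd T) ∧ k ∈ P} ≤ ENNReal.ofReal δ := by
  have h1 := gf_FC P hmn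
  have h2 : gf {t | t ∈ Brd n ∧ ∃ j a u, j ≤ n ∧ a ∈ FC m j ∧ a ∈ P ∧ u ∈ Brd (n - j) ∧ t = a ++ u} ≤
      ENNReal.ofReal (δ * bT n) := by
    refine (gf_mono ?_).trans hM
    rintro t ⟨ht, j, a, u, hj, ha, haP, hu, rfl⟩
    exact ⟨ht, hP a u haP⟩
  have hu : 0 < uu n := uu_pos n
  have h3 : (∑ j ∈ Finset.Icc m n, gf (FC m j ∩ P)) * BT n ≤ ENNReal.ofReal δ * BT n := by
    rw [Finset.sum_mul]
    have h4 : ENNReal.ofReal δ * BT n = ENNReal.ofReal (δ * bT n) := by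
      rw [BT_eq_uu, show bT n = uu n from rfl, ENNReal.ofReal_mul' hu.le]
    rw [h4]
    refine le_trans (Finset.sum_le_sum fun j hj => ?_) (h1 ▸ h2)
    rw [BT_eq_uu n, BT_eq_uu (n - j)]
    exact mul_le_mul_right (ENNReal.ofReal_le_ofReal (uu_anti (Nat.sub_le n j))) _
  have h4 : BT n ≠ 0 := by
    rw [BT_eq_uu n]
    exact (ENNReal.ofReal_pos.2 hu).ne'
  have h5 : ∑ j ∈ Finset.Icc m n, gf (FC m j ∩ P) ≤ ENNReal.ofReal δ :=
    (ENNReal.mul_le_mul_iff_left h4 (ViaEaux.BT_ne_top0 n)).1 h3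
  refine le_trans ?_ h5
  have h6 : {k | k ∈ FB m ∧ (∃ T, T ≤ n ∧ k ∈ Brd T) ∧ k ∈ P} ⊆ ⋃ j : Finset.Icc m n, FC m (j : ℕ) ∩ P := by
    rintro k ⟨⟨T, hT⟩, ⟨T', hT', hk⟩, hi⟩
    have h7 := Brd_height hT.1 hk
    exact Set.mem_iUnion.2 ⟨⟨T, Finset.mem_Icc.2 ⟨hT.2.1, by omega⟩⟩, hT, hi⟩
  refine (gf_mono h6).trans ?_
  rw [K1.gf_iUnion, tsum_fintype, ← Finset.sum_coe_sort (Finset.Icc m n)]
  rintro ⟨i, hi⟩ ⟨j, hj⟩ t h7 h8
  exact Subtype.ext (Brd_height h7.1.1 h8.1.1)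

/-- **the blocks with many letters** -/
theorem fb_len {ε : ℝ} (hε : 0 < ε) : ∃ A : ℝ, 0 < A ∧ ∀ m : ℕ, 1 ≤ m →
    gf {k | k ∈ FB m ∧ A * (m : ℝ) ^ (4 / 3 : ℝ) < (k.length : ℝ)} ≤ ENNReal.ofReal ε := by
  obtain ⟨R0, hR0⟩ := fb_tail (ε := ε / 2) (by positivity)
  obtain ⟨K, hK, hlen⟩ := brd_len
  obtain ⟨R, hR⟩ : ∃ R : ℕ, R = R0 + 1 := ⟨_, rfl⟩
  have hR1 : (0 : ℝ) < R := by
    rw [hR]
    positivity
  have hRp : 0 < (R : ℝ) ^ (4 / 3 : ℝ) := by positivity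
  refine ⟨2 * K / ε * (R : ℝ) ^ (4 / 3 : ℝ), by positivity, fun m hm => ?_⟩
  have hm0 : (0 : ℝ) < m := by exact_mod_cast hm
  have hn1 : 1 ≤ R * m := Nat.one_le_iff_ne_zero.2 (by rw [hR]; positivity)
  have h1 := hlen (R * m) (2 * K / ε) hn1 (by positivity)
  have h2 : 2 * K / ε * ((R * m : ℕ) : ℝ) ^ (4 / 3 : ℝ) = 2 * K / ε * (R : ℝ) ^ (4 / 3 : ℝ) * (m : ℝ) ^ (4 / 3 : ℝ) := by
    push_cast
    rw [Real.mul_rpow hR1.le hm0.le]
    ring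
  rw [h2] at h1
  have h3 := fb_inh (δ := ε / 2) (m := m) (n := R * m) (Nat.le_mul_of_pos_left m (by omega))
    {t | 2 * K / ε * (R : ℝ) ^ (4 / 3 : ℝ) * (m : ℝ) ^ (4 / 3 : ℝ) < (t.length : ℝ)} (fun a u ha => by
      have ha' : 2 * K / ε * (R : ℝ) ^ (4 / 3 : ℝ) * (m : ℝ) ^ (4 / 3 : ℝ) < (a.length : ℝ) := ha
      show _ < ((a ++ u).length : ℝ)
      rw [List.length_append]
      push_cast
      have : (0 : ℝ) ≤ u.length := by positivity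
      linarith) (h1.trans (ENNReal.ofReal_le_ofReal (by
        rw [show bT (R * m) = uu (R * m) from rfl]
        have : K / (2 * K / ε) = ε / 2 := by field_simp
        rw [this])))
  refine le_trans (gf_mono (Q := {k | k ∈ FB m ∧ ((∃ T, R0 * m < T ∧ k ∈ Brd T) ∨ ∃ i, i ≤ k.length ∧ (R0 * m : ℤ) < |lat k i|)} ∪
    {k | k ∈ FB m ∧ (∃ T, T ≤ R * m ∧ k ∈ Brd T) ∧
      k ∈ {t : List Bool | 2 * K / ε * (R : ℝ) ^ (4 / 3 : ℝ) * (m : ℝ) ^ (4 / 3 : ℝ) < (t.length : ℝ)}}) ?_) ?_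
  · rintro k ⟨hk, hl⟩
    obtain ⟨T, hT⟩ := id hk
    rcases Nat.lt_or_ge (R * m) T with h4 | h4
    · refine Or.inl ⟨hk, Or.inl ⟨T, ?_, hT.1⟩⟩
      have : R0 * m ≤ R * m := Nat.mul_le_mul_right m (by omega)
      omega
    · exact Or.inr ⟨hk, ⟨T, h4, hT.1⟩, hl⟩
  · refine (gf_union_le _ _).trans ((add_le_add (hR0 m hm) h3).trans (le_of_eq ?_))
    rw [← ENNReal.ofReal_add (by positivity) (by positivity), add_halves]

end FP

end ROT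

end HexObs
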