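import Pool.Agent.ROT.F3Two
import Pool.Agent.ROT.F3Len

/-!
# ROT, F3Sm: one block up to the first cut in each strand of a connection (helper38)

Blocks `k ∈ FB m` = words between two successive native gates (first cut at distance `m` or more).

* `fb_init` : `FB m` begins with `FB m'`, `m' ≤ m`, exactly, with weights (`fb_sum_init`);
* `fb_tail3` : height, lateral extent and number of letters of a block (with `fb_len` of helper69);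
* `fb_osc` : shift of the end of one block, for weights `e` which oscillate little when the INITIAL small piece is
  replaced by another one of the same height;
* `bl2_sup` : (S) weight of one displacement, for weights supported on blocks with a cut in `[s, m)`;
* `bl2_shift` : (L) continuity in total variation.
-/

set_option autoImplicit false

namespace HexObs

namespace ROT

namespace FP

open Finset ENNReal

/-! ## the initial piece -/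

private lemma brd_nil' {b : ℕ} (ht : ([] : List Bool) ∈ Brd b) : b = 0 := Brd_height ht nil_mem_Brd

theorem fc_append {m' m T T' : ℕ} {s r : List Bool} (hs : s ∈ FC m' T) (hT : T < m) (hr : r ∈ FC (m - T) T') :
    s ++ r ∈ FC m (T + T') := by
  refine ⟨Brd_append hs.1 hr.1, ?_, ?_⟩
  · have := hr.2.1
    omega
  · rintro c hc hlt ⟨s', u', b', hs', hu', heq⟩
    obtain ⟨v, hv, h1, h2⟩ := FCaux.nested hs.1 hs' hr.1 hu' (by omega) heq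
    exact hr.2.2 (c - T) (by omega) (by omega) ⟨v, u', b', hv, hu', h2⟩

theorem fc_long {m' m T : ℕ} {s : List Bool} (hs : s ∈ FC m' T) (hmm : m' ≤ m) (hT : m ≤ T) : s ∈ FC m T :=
  ⟨hs.1, hT, fun c hc hlt => hs.2.2 c (hmm.trans hc) hlt⟩

theorem fc_init {m' m T0 : ℕ} (hmm : m' ≤ m) {k : List Bool} (hk : k ∈ FC m T0) :
    ∃ T s r, s ∈ FC m' T ∧ k = s ++ r ∧ ((T < m ∧ r ∈ FC (m - T) (T0 - T)) ∨ (m ≤ T ∧ r = [])) := by
  obtain ⟨T, s, r, h1, h2, hs, hr, hkr⟩ := FC_dec (hmm.trans hk.2.1) hk.1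
  rcases Nat.lt_or_ge T m with hT | hT
  · refine ⟨T, s, r, hs, hkr, Or.inl ⟨hT, hr, ?_, ?_⟩⟩
    · have := hk.2.1
      omega
    · rintro c hc hlt ⟨s', u', b', hs', hu', heq⟩
      exact hk.2.2 (T + c) (by omega) (by omega)
        ⟨s ++ s', u', b', Brd_append hs.1 hs', hu', by rw [hkr, heq, List.append_assoc]⟩
  · have hTT : T = T0 := by
      by_contra hne
      exact hk.2.2 T hT (by omega) ⟨s, r, T0 - T, hs.1, hr, hkr⟩
    refine ⟨T, s, r, hs, hkr, Or.inr ⟨hT, ?_⟩⟩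
    rw [hTT, Nat.sub_self, Brd_zero] at hr
    exact hr

/-- the exact sum over the initial piece -/
theorem fb_sum_init {m' m : ℕ} (hmm : m' ≤ m) (F : List Bool → ℝ≥0∞) :
    ∑' k : FB m, wE k.1 * F k.1 =
      ∑' T : ℕ, ∑' s : FC m' T, wE s.1 *
        (if T < m then ∑' r : FB (m - T), wE r.1 * F (s.1 ++ r.1) else F s.1) := by
  classical
  -- short initial pieces
  let X := (Σ T : {T : ℕ // T < m}, FC m' T.1 × FB (m - T.1))
  let Y := (Σ T : {T : ℕ // ¬ T < m}, FC m' T.1)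
  let f : X ⊕ Y → FB m := Sum.elim
    (fun x => ⟨x.2.1.1 ++ x.2.2.1, by
      obtain ⟨T', h⟩ := x.2.2.2
      exact ⟨_, fc_append x.2.1.2 x.1.2 h⟩⟩)
    (fun y => ⟨y.2.1, ⟨_, fc_long y.2.2 hmm (not_lt.1 y.1.2)⟩⟩)
  have hf : Function.Bijective f := by
    constructor
    · rintro (⟨⟨T, hT⟩, s, r⟩ | ⟨⟨T, hT⟩, s⟩) (⟨⟨T', hT'⟩, s', r'⟩ | ⟨⟨T', hT'⟩, s'⟩) hxy
      · have h1 : s.1 ++ r.1 = s'.1 ++ r'.1 := congrArg Subtype.val hxy
        obtain ⟨T₁, hr⟩ := r.2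
        obtain ⟨T₁', hr'⟩ := r'.2
        obtain ⟨h2, h3⟩ := FC_unique s.2 s'.2 hr.1 hr'.1 h1
        have h4 : T = T' := Brd_height s.2.1 (h2 ▸ s'.2.1)
        subst h4
        obtain rfl : s = s' := Subtype.ext h2
        obtain rfl : r = r' := Subtype.ext h3
        rfl
      · exfalso
        have h1 : s.1 ++ r.1 = s'.1 ++ [] := by
          rw [List.append_nil]
          exact congrArg Subtype.val hxy
        obtain ⟨T₁, hr⟩ := r.2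
        obtain ⟨h2, h3⟩ := FC_unique s.2 s'.2 hr.1 nil_mem_Brd h1
        have h4 : T = T' := Brd_height s.2.1 (h2 ▸ s'.2.1)
        exact hT' (h4 ▸ hT)
      · exfalso
        have h1 : s.1 ++ [] = s'.1 ++ r'.1 := by
          rw [List.append_nil]
          exact congrArg Subtype.val hxy
        obtain ⟨T₁, hr⟩ := r'.2
        obtain ⟨h2, h3⟩ := FC_unique s.2 s'.2 nil_mem_Brd hr.1 h1
        have h4 : T = T' := Brd_height s.2.1 (h2 ▸ s'.2.1)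
        exact hT (h4 ▸ hT')
      · have h1 : s.1 = s'.1 := congrArg Subtype.val hxy
        have h4 : T = T' := Brd_height s.2.1 (h1 ▸ s'.2.1)
        subst h4
        obtain rfl : s = s' := Subtype.ext h1
        rfl
    · rintro ⟨k, T0, hk⟩
      obtain ⟨T, s, r, hs, hkr, h | h⟩ := fc_init hmm hk
      · exact ⟨Sum.inl ⟨⟨T, h.1⟩, ⟨s, hs⟩, ⟨r, _, h.2⟩⟩, Subtype.ext hkr.symm⟩
      · refine ⟨Sum.inr ⟨⟨T, not_lt.2 h.1⟩, ⟨s, hs⟩⟩, Subtype.ext ?_⟩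
        show s = k
        rw [hkr, h.2, List.append_nil]
  have h1 : ∑' k : FB m, wE k.1 * F k.1 =
      ∑' x : X, wE (x.2.1.1 ++ x.2.2.1) * F (x.2.1.1 ++ x.2.2.1) + ∑' y : Y, wE y.2.1 * F y.2.1 := by
    rw [← (Equiv.ofBijective f hf).tsum_eq]
    exact ENNReal.summable.tsum_sum ENNReal.summable
  have h2 : ∀ G : ℕ → ℝ≥0∞, ∑' T : ℕ, G T = ∑' T : {T : ℕ // T < m}, G T.1 + ∑' T : {T : ℕ // ¬ T < m}, G T.1 := by
    intro G
    rw [← (Equiv.sumCompl (fun T : ℕ => T < m)).tsum_eq]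
    exact ENNReal.summable.tsum_sum ENNReal.summable
  rw [h1, h2]
  congr 1
  · rw [ENNReal.tsum_sigma']
    refine tsum_congr fun T => ?_
    rw [ENNReal.tsum_prod']
    refine tsum_congr fun s => ?_
    rw [if_pos T.2, ← ENNReal.tsum_mul_left]
    refine tsum_congr fun r => ?_
    show wE (s.1 ++ r.1) * F (s.1 ++ r.1) = wE s.1 * (wE r.1 * F (s.1 ++ r.1))
    rw [wE_append, mul_assoc]
  · rw [ENNReal.tsum_sigma']
    refine tsum_congr fun T => tsum_congr fun s => ?_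
    rw [if_neg T.2]

/-! ## one block -/

/-- the words of a box of width `W`, with at most `A` letters -/
def SB (W : ℤ) (A : ℝ) (s : List Bool) : Prop := (∀ i, i ≤ s.length → |lat s i| ≤ W) ∧ (s.length : ℝ) ≤ A

/-- height, lateral extent and length of a block -/
theorem fb_tail3 {ε : ℝ} (hε : 0 < ε) : ∃ M : ℕ, ∀ m : ℕ, 1 ≤ m →
    gf {k | k ∈ FB m ∧ ((∃ T, M * m < T ∧ k ∈ Brd T) ∨ ¬ SB (M * m : ℕ) (M * (m : ℝ) ^ ((4 : ℝ) / 3)) k)} ≤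
      ENNReal.ofReal ε := by
  obtain ⟨R, hR⟩ := fb_tail (ε := ε / 2) (by positivity)
  obtain ⟨A, hA, hA2⟩ := fb_len (ε := ε / 2) (by positivity)
  refine ⟨R + ⌈A⌉₊, fun m hm => ?_⟩
  have h1 : {k | k ∈ FB m ∧ ((∃ T, (R + ⌈A⌉₊) * m < T ∧ k ∈ Brd T) ∨
      ¬ SB ((R + ⌈A⌉₊) * m : ℕ) ((R + ⌈A⌉₊ : ℕ) * (m : ℝ) ^ ((4 : ℝ) / 3)) k)} ⊆
      {k | k ∈ FB m ∧ ((∃ T, R * m < T ∧ k ∈ Brd T) ∨ ∃ i, i ≤ k.length ∧ (R * m : ℤ) < |lat k i|)} ∪
      {k | k ∈ FB m ∧ A * (m : ℝ) ^ ((4 : ℝ) / 3) < k.length} := by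
    rintro k ⟨hk, ⟨T, h1, h2⟩ | h1⟩
    · refine Or.inl ⟨hk, Or.inl ⟨T, ?_, h2⟩⟩
      nlinarith [Nat.zero_le (⌈A⌉₊ * m)]
    · by_cases h2 : ∃ i, i ≤ k.length ∧ (R * m : ℤ) < |lat k i|
      · exact Or.inl ⟨hk, Or.inr h2⟩
      · refine Or.inr ⟨hk, ?_⟩
        by_contra h3
        push Not at h2 h3
        refine h1 ⟨fun i hi => ?_, h3.trans ?_⟩
        · have h4 := h2 i hi
          have h5 : (0 : ℤ) ≤ (⌈A⌉₊ : ℤ) * m := by positivity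
          push_cast
          linarith
        · refine mul_le_mul_of_nonneg_right ?_ (by positivity)
          have h4 := Nat.le_ceil A
          push_cast
          have h5 : (0 : ℝ) ≤ R := by positivity
          linarith
  refine (gf_mono h1).trans ((gf_union_le _ _).trans ?_)
  refine (add_le_add (hR m hm) (hA2 m hm)).trans (le_of_eq ?_)
  rw [← ENNReal.ofReal_add (by positivity) (by positivity)]
  congr 1
  ring

private lemma sum_fb {m : ℕ} (hm : 1 ≤ m) : ∑' k : FB m, wE k.1 = 1 := fb_mass hm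

private lemma sum_by_height (m : ℕ) (F : List Bool → ℝ≥0∞) :
    ∑' k : FB m, F k.1 = ∑' T : ℕ, ∑' s : FC m T, F s.1 := by
  let f : (Σ T : ℕ, FC m T) → FB m := fun x => ⟨x.2.1, x.1, x.2.2⟩
  have hf : Function.Bijective f := by
    constructor
    · rintro ⟨T, s⟩ ⟨T', s'⟩ hxy
      have h1 : s.1 = s'.1 := congrArg Subtype.val hxy
      have h4 : T = T' := Brd_height s.2.1 (h1 ▸ s'.2.1)
      subst h4
      obtain rfl : s = s' := Subtype.ext h1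
      rfl
    · rintro ⟨k, T, hk⟩
      exact ⟨⟨T, k, hk⟩, rfl⟩
  rw [← (Equiv.ofBijective f hf).tsum_eq, ENNReal.tsum_sigma']
  rfl

/-- smoothness, by heights -/
theorem fc_smooth {ε : ℝ} (hε : 0 < ε) : ∃ (η : ℝ) (m0 : ℕ), 0 < η ∧ 1 ≤ m0 ∧ ∀ m : ℕ, m0 ≤ m → ∀ e : ℤ, Even e →
    ((|e| : ℤ) : ℝ) ≤ η * m → ∀ Φ : ℕ → ℤ → ℝ≥0∞, (∀ l x, Φ l x ≤ 1) →
      ∑' T : ℕ, ∑' s : FC m T, wE s.1 * Φ T (latE s.1 - e) ≤
        ∑' T : ℕ, ∑' s : FC m T, wE s.1 * Φ T (latE s.1) + ENNReal.ofReal ε := by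
  obtain ⟨η, m0, h1, h2, h3⟩ := fb_smooth hε
  refine ⟨η, m0, h1, h2, fun m hm e he hem Φ hΦ => ?_⟩
  have h4 := h3 m hm e he hem (fun l x => Φ (l / 3).toNat x) (fun l x => hΦ _ _)
  have h5 : ∀ c : ℤ, ∑' k : FB m, wE k.1 * Φ (lev k.1 k.1.length / 3).toNat (latE k.1 - c) =
      ∑' T : ℕ, ∑' s : FC m T, wE s.1 * Φ T (latE s.1 - c) := by
    intro c
    rw [sum_by_height m fun k => wE k * Φ (lev k k.length / 3).toNat (latE k - c)]
    refine tsum_congr fun T => tsum_congr fun s => ?_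
    have h6 := (mem_Brd.1 s.2.1).2.2.2
    rw [h6, Int.mul_ediv_cancel_left _ (by norm_num : (3 : ℤ) ≠ 0), Int.toNat_natCast]
  have h6 := h5 0
  simp only [sub_zero] at h6
  rw [← h5 e, ← h6]
  exact h4

/-- one block: shift of its end; `e` oscillates by at most `δ` when the initial piece up to the first cut at or above
`m / K` is replaced by another one of the same height (both in their boxes) -/
theorem fb_osc {ε : ℝ} (hε : 0 < ε) : ∃ M K0 : ℕ, 1 ≤ K0 ∧ ∀ K : ℕ, K0 ≤ K → ∃ (η : ℝ) (m0 : ℕ), 0 < η ∧ 1 ≤ m0 ∧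
    ∀ m : ℕ, m0 ≤ m → ∀ x : ℤ, Even x → ((|x| : ℤ) : ℝ) ≤ η * m →
    ∀ (δ : ℝ≥0∞) (e : List Bool → ℝ≥0∞) (Ψ : ℤ → ℤ → ℝ≥0∞), (∀ b, e b ≤ 1) → (∀ l y, Ψ l y ≤ 1) →
      (∀ T, T < m → T ≤ M * (m / K) → ∀ s ∈ FC (m / K) T, ∀ s' ∈ FC (m / K) T, SB (M * (m / K) : ℕ) (M * ((m / K : ℕ) : ℝ) ^ ((4 : ℝ) / 3)) s →
        SB (M * (m / K) : ℕ) (M * ((m / K : ℕ) : ℝ) ^ ((4 : ℝ) / 3)) s' → ∀ r ∈ FB (m - T), e (s ++ r) ≤ e (s' ++ r) + δ) →
      ∑' k : FB m, wE k.1 * (e k.1 * Ψ (lev k.1 k.1.length) (latE k.1 - x)) ≤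
        ∑' k : FB m, wE k.1 * (e k.1 * Ψ (lev k.1 k.1.length) (latE k.1)) + (ENNReal.ofReal ε + 2 * δ) := by
  classical
  obtain ⟨M, hM⟩ := fb_tail3 (ε := ε / 3) (by positivity)
  refine ⟨M, M + 1, by omega, fun K hK => ?_⟩
  have hK0 : (0 : ℝ) < K := by
    have : 1 ≤ K := by omega
    exact_mod_cast this
  obtain ⟨η, m1, hη, hm1, hsm⟩ := fc_smooth (ε := ε / 3) (by positivity)
  refine ⟨η / (2 * K), (m1 + 1) * K, by positivity, by nlinarith, fun m hm x hx hxm δ e Ψ he hΨ hosc => ?_⟩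
  set m' := m / K with hm'
  have h1m' : m1 + 1 ≤ m' := (Nat.le_div_iff_mul_le (by omega)).2 hm
  have hm'm : m' ≤ m := Nat.div_le_self m K
  have hM'm : M * m' < m := by
    have h1 : m' * K ≤ m := Nat.div_mul_le_self m K
    nlinarith
  have hxm' : ((|x| : ℤ) : ℝ) ≤ η * m' := by
    have h1 : m < (m' + 1) * K := by
      have h2 := Nat.div_add_mod m K
      have h3 := Nat.mod_lt m (by omega : 0 < K)
      rw [← hm'] at h2
      have h4 : (m' + 1) * K = K * m' + K := by ring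
      omega
    have h2 : (m : ℝ) ≤ 2 * K * m' := by
      have h3 : m ≤ 2 * K * m' := by nlinarith
      exact_mod_cast h3
    calc ((|x| : ℤ) : ℝ) ≤ η / (2 * K) * m := hxm
      _ ≤ η / (2 * K) * (2 * K * m') := mul_le_mul_of_nonneg_left h2 (by positivity)
      _ = η * m' := by field_simp
  -- the good initial pieces
  let Gd : ℕ → Set (List Bool) := fun T => {s | s ∈ FC m' T ∧ T ≤ M * m' ∧
    SB (M * m' : ℕ) (M * (m' : ℝ) ^ ((4 : ℝ) / 3)) s}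
  -- the reference functions
  let Φ : ℕ → ℤ → ℝ≥0∞ := fun T y =>
    if h : ∃ s, s ∈ Gd T then ∑' r : FB (m - T), wE r.1 * (e (h.choose ++ r.1) *
      Ψ (3 * T + lev r.1 r.1.length) (y + latE r.1)) else 0
  have hΦ : ∀ T y, Φ T y ≤ 1 := by
    intro T y
    by_cases h : ∃ s, s ∈ Gd T
    · simp only [Φ, dif_pos h]
      have h2 := h.choose_spec
      rw [← sum_fb (by have := h2.2.1; omega : 1 ≤ m - T)]
      exact ENNReal.tsum_le_tsum fun r => mul_le_of_le_one_right' (mul_le_one' (he _) (hΨ _ _))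
    · simp only [Φ, dif_neg h]
      exact zero_le
  -- the bad initial pieces
  have hbad : ∑' T : ℕ, ∑' s : FC m' T, (if s.1 ∈ Gd T then 0 else wE s.1) ≤ ENNReal.ofReal (ε / 3) := by
    refine le_trans (le_of_eq ?_) (hM m' (by omega))
    set Bd0 : Set (List Bool) := {k | k ∈ FB m' ∧ ((∃ T, M * m' < T ∧ k ∈ Brd T) ∨
      ¬ SB (M * m' : ℕ) (M * (m' : ℝ) ^ ((4 : ℝ) / 3)) k)} with hBd0
    have h1 : ∀ T : ℕ, ∑' s : FC m' T, (if s.1 ∈ Gd T then 0 else wE s.1) = ∑' s : FC m' T,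
        (if s.1 ∈ Bd0
          then wE s.1 else 0) := by
      intro T
      refine tsum_congr fun s => ?_
      by_cases hs : s.1 ∈ Gd T
      · rw [if_pos hs, if_neg]
        rintro ⟨_, ⟨T', h2, h3⟩ | h2⟩
        · have := Brd_height s.2.1 h3
          have := hs.2.1
          omega
        · exact h2 hs.2.2
      · rw [if_neg hs, if_pos]
        refine ⟨⟨T, s.2⟩, ?_⟩
        by_cases hT : T ≤ M * m'
        · exact Or.inr fun h2 => hs ⟨s.2, hT, h2⟩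
        · exact Or.inl ⟨T, by omega, s.2.1⟩
    rw [tsum_congr h1, ← sum_by_height m' (fun s => if s ∈ Bd0 then wE s else 0)]
    unfold gf
    rw [_root_.tsum_subtype (FB m') (fun s => if s ∈ Bd0 then wE s else 0), _root_.tsum_subtype _ wE]
    refine tsum_congr fun t => ?_
    by_cases ht : t ∈ Bd0
    · rw [Set.indicator_of_mem ht, Set.indicator_of_mem ht.1, if_pos ht]
    · rw [Set.indicator_of_notMem ht]
      by_cases ht2 : t ∈ FB m'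
      · rw [Set.indicator_of_mem ht2, if_neg ht]
      · rw [Set.indicator_of_notMem ht2]
  have hone : ∑' T : ℕ, ∑' s : FC m' T, δ * wE s.1 = δ := by
    rw [← sum_by_height m' (fun s => δ * wE s), ENNReal.tsum_mul_left, sum_fb (by omega), mul_one]
  -- the inner sums
  let I : ℤ → ℕ → List Bool → ℝ≥0∞ := fun c T s =>
    if T < m then ∑' r : FB (m - T), wE r.1 * (e (s ++ r.1) * Ψ (lev (s ++ r.1) (s ++ r.1).length)
      (latE (s ++ r.1) - c)) else e s * Ψ (lev s s.length) (latE s - c)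
  have hI1 : ∀ c T (s : FC m' T), I c T s.1 ≤ 1 := by
    intro c T s
    by_cases h : T < m
    · simp only [I, if_pos h]
      rw [← sum_fb (by omega : 1 ≤ m - T)]
      exact ENNReal.tsum_le_tsum fun r => mul_le_of_le_one_right' (mul_le_one' (he _) (hΨ _ _))
    · simp only [I, if_neg h]
      exact mul_le_one' (he _) (hΨ _ _)
  have hpos : ∀ (c : ℤ) (T : ℕ) (s r : List Bool), s ∈ FC m' T →
      Ψ (lev (s ++ r) (s ++ r).length) (latE (s ++ r) - c) = Ψ (3 * T + lev r r.length) (latE s - c + latE r) := by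
    intro c T s r hs
    have h1 := mem_Brd.1 hs.1
    rw [List.length_append, lev_cat h1.2.2.1, latE_cat h1.2.2.1, h1.2.2.2]
    congr 1
    ring
  have hgood1 : ∀ c T (s : FC m' T), s.1 ∈ Gd T → I c T s.1 ≤ Φ T (latE s.1 - c) + δ := by
    intro c T s hs
    have hex : ∃ s, s ∈ Gd T := ⟨s.1, hs⟩
    have hT : T < m := by
      have := hs.2.1
      omega
    simp only [I, if_pos hT, Φ, dif_pos hex]
    have h2 := hex.choose_spec
    have h3 : ∑' r : FB (m - T), wE r.1 * δ = δ := by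
      rw [ENNReal.tsum_mul_right, sum_fb (by omega), one_mul]
    rw [← h3, ← ENNReal.tsum_add]
    refine ENNReal.tsum_le_tsum fun r => ?_
    rw [← mul_add, hpos c T s.1 r.1 s.2]
    refine mul_le_mul_right ?_ _
    calc e (s.1 ++ r.1) * Ψ (3 * T + lev r.1 r.1.length) (latE s.1 - c + latE r.1)
        ≤ (e (hex.choose ++ r.1) + δ) * Ψ (3 * T + lev r.1 r.1.length) (latE s.1 - c + latE r.1) :=
          mul_le_mul_left (hosc T hT hs.2.1 s.1 s.2 _ h2.1 hs.2.2 h2.2.2 r.1 r.2) _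
      _ ≤ _ := by
          rw [add_mul]
          exact add_le_add le_rfl (mul_le_of_le_one_right' (hΨ _ _))
  have hgood2 : ∀ T (s : FC m' T), s.1 ∈ Gd T → Φ T (latE s.1) ≤ I 0 T s.1 + δ := by
    intro T s hs
    have hex : ∃ s, s ∈ Gd T := ⟨s.1, hs⟩
    have hT : T < m := by
      have := hs.2.1
      omega
    simp only [I, if_pos hT, Φ, dif_pos hex]
    have h2 := hex.choose_spec
    have h3 : ∑' r : FB (m - T), wE r.1 * δ = δ := by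
      rw [ENNReal.tsum_mul_right, sum_fb (by omega), one_mul]
    rw [← h3, ← ENNReal.tsum_add]
    refine ENNReal.tsum_le_tsum fun r => ?_
    rw [← mul_add, hpos 0 T s.1 r.1 s.2, sub_zero]
    refine mul_le_mul_right ?_ _
    calc e (hex.choose ++ r.1) * Ψ (3 * T + lev r.1 r.1.length) (latE s.1 + latE r.1)
        ≤ (e (s.1 ++ r.1) + δ) * Ψ (3 * T + lev r.1 r.1.length) (latE s.1 + latE r.1) :=
          mul_le_mul_left (hosc T hT hs.2.1 _ h2.1 s.1 s.2 h2.2.2 hs.2.2 r.1 r.2) _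
      _ ≤ _ := by
          rw [add_mul]
          exact add_le_add le_rfl (mul_le_of_le_one_right' (hΨ _ _))
  -- the chain
  have hL : ∑' k : FB m, wE k.1 * (e k.1 * Ψ (lev k.1 k.1.length) (latE k.1 - x)) =
      ∑' T : ℕ, ∑' s : FC m' T, wE s.1 * I x T s.1 :=
    fb_sum_init hm'm (fun k => e k * Ψ (lev k k.length) (latE k - x))
  have hR : ∑' k : FB m, wE k.1 * (e k.1 * Ψ (lev k.1 k.1.length) (latE k.1)) =
      ∑' T : ℕ, ∑' s : FC m' T, wE s.1 * I 0 T s.1 := by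
    have h1 := fb_sum_init hm'm (fun k => e k * Ψ (lev k k.length) (latE k - 0))
    simp only [sub_zero] at h1
    rw [h1]
    simp only [I, sub_zero]
  rw [hL, hR]
  have h1 : ∀ T (s : FC m' T), wE s.1 * I x T s.1 ≤
      wE s.1 * Φ T (latE s.1 - x) + δ * wE s.1 + (if s.1 ∈ Gd T then 0 else wE s.1) := by
    intro T s
    by_cases hs : s.1 ∈ Gd T
    · rw [if_pos hs, add_zero]
      calc wE s.1 * I x T s.1 ≤ wE s.1 * (Φ T (latE s.1 - x) + δ) := mul_le_mul_right (hgood1 x T s hs) _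
        _ = _ := by ring
    · rw [if_neg hs]
      exact (mul_le_of_le_one_right' (hI1 x T s)).trans le_add_self
  have h2 : ∀ T (s : FC m' T), wE s.1 * Φ T (latE s.1) ≤
      wE s.1 * I 0 T s.1 + δ * wE s.1 + (if s.1 ∈ Gd T then 0 else wE s.1) := by
    intro T s
    by_cases hs : s.1 ∈ Gd T
    · rw [if_pos hs, add_zero]
      calc wE s.1 * Φ T (latE s.1) ≤ wE s.1 * (I 0 T s.1 + δ) := mul_le_mul_right (hgood2 T s hs) _
        _ = _ := by ring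
    · rw [if_neg hs]
      exact (mul_le_of_le_one_right' (hΦ _ _)).trans le_add_self
  have hadd : ∀ A B C : ℕ → List Bool → ℝ≥0∞, ∑' T : ℕ, ∑' s : FC m' T, (A T s.1 + B T s.1 + C T s.1) =
      ∑' T : ℕ, ∑' s : FC m' T, A T s.1 + ∑' T : ℕ, ∑' s : FC m' T, B T s.1 +
        ∑' T : ℕ, ∑' s : FC m' T, C T s.1 := by
    intro A B C
    rw [← ENNReal.tsum_add, ← ENNReal.tsum_add]
    refine tsum_congr fun T => ?_
    rw [ENNReal.tsum_add, ENNReal.tsum_add]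
  have e3 : ENNReal.ofReal ε = ENNReal.ofReal (ε / 3) + ENNReal.ofReal (ε / 3) + ENNReal.ofReal (ε / 3) := by
    rw [← ENNReal.ofReal_add (by positivity) (by positivity), ← ENNReal.ofReal_add (by positivity) (by positivity)]
    congr 1
    ring
  calc ∑' T : ℕ, ∑' s : FC m' T, wE s.1 * I x T s.1
      ≤ ∑' T : ℕ, ∑' s : FC m' T, (wE s.1 * Φ T (latE s.1 - x) + δ * wE s.1 +
          (if s.1 ∈ Gd T then 0 else wE s.1)) :=
        ENNReal.tsum_le_tsum fun T => ENNReal.tsum_le_tsum fun s => h1 T s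
    _ = ∑' T : ℕ, ∑' s : FC m' T, wE s.1 * Φ T (latE s.1 - x) + δ +
          ∑' T : ℕ, ∑' s : FC m' T, (if s.1 ∈ Gd T then 0 else wE s.1) := by
        rw [hadd (fun T s => wE s * Φ T (latE s - x)) (fun _ s => δ * wE s)
          (fun T s => if s ∈ Gd T then 0 else wE s), hone]
    _ ≤ ∑' T : ℕ, ∑' s : FC m' T, wE s.1 * Φ T (latE s.1) + ENNReal.ofReal (ε / 3) + δ +
          ENNReal.ofReal (ε / 3) :=
        add_le_add (add_le_add (hsm m' (by omega) x hx hxm' Φ hΦ) le_rfl) hbad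
    _ ≤ ∑' T : ℕ, ∑' s : FC m' T, (wE s.1 * I 0 T s.1 + δ * wE s.1 + (if s.1 ∈ Gd T then 0 else wE s.1)) +
          ENNReal.ofReal (ε / 3) + δ + ENNReal.ofReal (ε / 3) :=
        add_le_add (add_le_add (add_le_add
          (ENNReal.tsum_le_tsum fun T => ENNReal.tsum_le_tsum fun s => h2 T s) le_rfl) le_rfl) le_rfl
    _ = ∑' T : ℕ, ∑' s : FC m' T, wE s.1 * I 0 T s.1 + δ +
          ∑' T : ℕ, ∑' s : FC m' T, (if s.1 ∈ Gd T then 0 else wE s.1) + ENNReal.ofReal (ε / 3) + δ +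
            ENNReal.ofReal (ε / 3) := by
        rw [hadd (fun T s => wE s * I 0 T s) (fun _ s => δ * wE s)
          (fun T s => if s ∈ Gd T then 0 else wE s), hone]
    _ ≤ ∑' T : ℕ, ∑' s : FC m' T, wE s.1 * I 0 T s.1 + δ +
          ENNReal.ofReal (ε / 3) + ENNReal.ofReal (ε / 3) + δ + ENNReal.ofReal (ε / 3) :=
        add_le_add (add_le_add (add_le_add (add_le_add le_rfl hbad) le_rfl) le_rfl) le_rfl
    _ = _ := by
        rw [e3]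
        ring

/-! ## blocks with a cut in `[s, m)` -/

/-- blocks with a cut at a height in `[s, m)` -/
def FBh (m s : ℕ) : Set (List Bool) := {k | ∃ h a i, s ≤ h ∧ h < m ∧ a ∈ Brd h ∧ i ∈ IG (m - h) ∧ k = a ++ i}

theorem fbh_iff {m s : ℕ} (hm : 1 ≤ m) (k : List Bool) :
    k ∈ FBh m s ↔ k ∈ FB m ∧ ∃ c, s ≤ c ∧ c < m ∧ Cut k c := by
  constructor
  · rintro ⟨h, a, i, hs, hh, ha, hi, rfl⟩
    obtain ⟨r, hr, hir⟩ := hi
    exact ⟨(fb_dec hm _).2 ⟨h, a, i, hh, ha, ⟨r, hr, hir⟩, rfl⟩, h, hs, hh, a, i, r, ha, hir.1, rfl⟩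
  · rintro ⟨hk, c, hs, hc, a', u', b', ha', hu', heq⟩
    obtain ⟨h, a, i, hh, ha, ⟨r, hr, hir⟩, rfl⟩ := (fb_dec hm k).1 hk
    refine ⟨h, a, i, ?_, hh, ha, ⟨r, hr, hir⟩, rfl⟩
    by_contra hcon
    obtain ⟨v, hv, h1, h2⟩ := FCaux.nested ha ha' hir.1 hu' (by omega) heq
    rcases hir.2.2 _ _ v u' hv hu' h2 with h3 | h3
    · rw [h3] at hv
      have := brd_nil' hv
      omega
    · rw [h3] at hu'
      have h4 := brd_nil' hu'
      have h5 : h + r = c + b' := Brd_height (Brd_append ha hir.1) (by rw [heq, h3]; exact Brd_append ha' (h3 ▸ hu'))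
      omega

private lemma fbh_dec {m s h : ℕ} {a i : List Bool} (ha : a ∈ Brd h) (hi : i ∈ IG (m - h)) (hk : a ++ i ∈ FBh m s) :
    s ≤ h := by
  obtain ⟨h', a', i', hs, _, ha', hi', heq⟩ := hk
  have := (fb_unique ha ha' hi hi' heq).1
  omega

private lemma mass_fin {m : ℕ} (hm : 1 ≤ m) :
    ∑ h ∈ range m, ∑' i : IG (m - h), wE i.1 * ENNReal.ofReal (uu h) = 1 := by
  have h1 := fb_sum hm (fun _ => 1)
  simp only [mul_one] at h1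
  rw [sum_fb hm] at h1
  rw [h1]
  refine Finset.sum_congr rfl fun h _ => tsum_congr fun i => ?_
  rw [ENNReal.tsum_mul_right, mul_comm, ← BT_eq_uu, ← gf_Brd]
  rfl

/-! ## two blocks -/

section Bl2

variable {Ω : Type*} {Λ : Type*} [AddCommGroup Λ]

/-- sum over the data and over the two blocks -/
noncomputable def bl2 (w : Ω → ℝ≥0∞) (m₁ m₂ : ℕ) (F : Ω → List Bool → List Bool → ℝ≥0∞) : ℝ≥0∞ :=
  ∑' ω, w ω * ∑' k₁ : FB m₁, ∑' k₂ : FB m₂, wE k₁.1 * (wE k₂.1 * F ω k₁.1 k₂.1)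

/-- displacement -/
def dp (p : Ω → Λ) (u a v b : Λ) (ω : Ω) (k₁ k₂ : List Bool) : Λ :=
  p ω + (lev k₁ k₁.length • u + latE k₁ • a) + (lev k₂ k₂.length • v + latE k₂ • b)

open Classical in
/-- the weight of the displacement z -/
noncomputable def gam2 (w : Ω → ℝ≥0∞) (m₁ m₂ : ℕ) (p : Ω → Λ) (u a v b : Λ) (e : Ω → List Bool → List Bool → ℝ≥0∞)
    (z : Λ) : ℝ≥0∞ :=
  bl2 w m₁ m₂ fun ω k₁ k₂ => if dp p u a v b ω k₁ k₂ = z then e ω k₁ k₂ else 0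

theorem bl2_mono {w : Ω → ℝ≥0∞} {m₁ m₂ : ℕ} {F G : Ω → List Bool → List Bool → ℝ≥0∞}
    (h : ∀ ω, w ω ≠ 0 → ∀ k₁ ∈ FB m₁, ∀ k₂ ∈ FB m₂, F ω k₁ k₂ ≤ G ω k₁ k₂) : bl2 w m₁ m₂ F ≤ bl2 w m₁ m₂ G := by
  unfold bl2
  refine ENNReal.tsum_le_tsum fun ω => ?_
  rcases eq_or_ne (w ω) 0 with h0 | h0
  · rw [h0, zero_mul, zero_mul]
  refine mul_le_mul_right ?_ _
  refine ENNReal.tsum_le_tsum fun b₁ => ENNReal.tsum_le_tsum fun b₂ => ?_
  exact mul_le_mul_right (mul_le_mul_right (h ω h0 b₁.1 b₁.2 b₂.1 b₂.2) _) _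

theorem bl2_swap (w : Ω → ℝ≥0∞) (m₁ m₂ : ℕ) (F : Ω → List Bool → List Bool → ℝ≥0∞) :
    bl2 w m₁ m₂ F = bl2 w m₂ m₁ (fun ω k₂ k₁ => F ω k₁ k₂) := by
  unfold bl2
  refine tsum_congr fun ω => ?_
  rw [ENNReal.tsum_comm]
  congr 1
  exact tsum_congr fun b₂ => tsum_congr fun b₁ => mul_left_comm _ _ _

theorem dp_swap (p : Ω → Λ) (u a v b : Λ) (ω : Ω) (k₁ k₂ : List Bool) :
    dp p u a v b ω k₁ k₂ = dp p v b u a ω k₂ k₁ := by
  unfold dp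
  abel

theorem bl2_one (w : Ω → ℝ≥0∞) {m₁ m₂ : ℕ} (h₁ : 1 ≤ m₁) (h₂ : 1 ≤ m₂) :
    bl2 w m₁ m₂ (fun _ _ _ => 1) = ∑' ω, w ω := by
  unfold bl2
  refine tsum_congr fun ω => ?_
  simp only [mul_one]
  have h3 : ∀ k₁ : FB m₁, ∑' k₂ : FB m₂, wE k₁.1 * wE k₂.1 = wE k₁.1 := by
    intro k₁
    rw [ENNReal.tsum_mul_left, sum_fb h₂, mul_one]
  rw [tsum_congr h3, sum_fb h₁, mul_one]

/-- (S) the weight of one displacement, for weights supported on blocks which both have a cut in `[s, m)` -/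
theorem bl2_sup {C : ℝ} (hC : HSup C) {a b : Λ} (hab : Ind2 a b) {s m₁ m₂ : ℕ} (hs : 1 ≤ s) (hm₁ : 1 ≤ m₁)
    (hm₂ : 1 ≤ m₂) (w : Ω → ℝ≥0∞) (p : Ω → Λ) (u v : Λ) {e : Ω → List Bool → List Bool → ℝ≥0∞}
    (he : ∀ ω k₁ k₂, e ω k₁ k₂ ≤ 1) (he0 : ∀ ω k₁ k₂, e ω k₁ k₂ ≠ 0 → k₁ ∈ FBh m₁ s ∧ k₂ ∈ FBh m₂ s) (z : Λ) :
    gam2 w m₁ m₂ p u a v b e z ≤ ENNReal.ofReal (C ^ 2 / s ^ 2) * ∑' ω, w ω := by
  classical
  unfold gam2 bl2
  rw [← ENNReal.tsum_mul_left]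
  refine ENNReal.tsum_le_tsum fun ω => ?_
  rw [mul_comm (ENNReal.ofReal (C ^ 2 / s ^ 2))]
  refine mul_le_mul_right ?_ _
  set Q := ENNReal.ofReal (C ^ 2 / s ^ 2) with hQ
  set G : List Bool → List Bool → ℝ≥0∞ := fun k₁ k₂ =>
    if dp p u a v b ω k₁ k₂ = z ∧ k₁ ∈ FBh m₁ s ∧ k₂ ∈ FBh m₂ s then 1 else 0 with hG
  have h1 : ∀ k₁ k₂ : List Bool, (if dp p u a v b ω k₁ k₂ = z then e ω k₁ k₂ else 0) ≤ G k₁ k₂ := by
    intro k₁ k₂
    by_cases h : dp p u a v b ω k₁ k₂ = z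
    · rw [if_pos h]
      rcases eq_or_ne (e ω k₁ k₂) 0 with h0 | h0
      · rw [h0]
        exact zero_le
      · rw [hG]
        simp only
        rw [if_pos ⟨h, he0 ω k₁ k₂ h0⟩]
        exact he ω k₁ k₂
    · rw [if_neg h]
      exact zero_le
  have h2 : ∑' k₁ : FB m₁, ∑' k₂ : FB m₂, wE k₁.1 * (wE k₂.1 * (if dp p u a v b ω k₁.1 k₂.1 = z then
      e ω k₁.1 k₂.1 else 0)) ≤ ∑' k₁ : FB m₁, wE k₁.1 * ∑' k₂ : FB m₂, wE k₂.1 * G k₁.1 k₂.1 := by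
    refine ENNReal.tsum_le_tsum fun k₁ => ?_
    rw [← ENNReal.tsum_mul_left]
    exact ENNReal.tsum_le_tsum fun k₂ => mul_le_mul_right (mul_le_mul_right (h1 _ _) _) _
  refine h2.trans ?_
  rw [fb_sum hm₁ (fun k₁ => ∑' k₂ : FB m₂, wE k₂.1 * G k₁ k₂.1)]
  have h3 : ∀ h₁ ∈ range m₁, ∑' i₁ : IG (m₁ - h₁), ∑' a₁ : Brd h₁, wE a₁.1 * (wE i₁.1 *
      ∑' k₂ : FB m₂, wE k₂.1 * G (a₁.1 ++ i₁.1) k₂.1) ≤ ∑' i₁ : IG (m₁ - h₁), wE i₁.1 * ENNReal.ofReal (uu h₁) * Q := by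
    intro h₁ _
    refine ENNReal.tsum_le_tsum fun i₁ => ?_
    rcases Nat.lt_or_ge h₁ s with hlt | hge
    · have h4 : ∀ a₁ : Brd h₁, wE a₁.1 * (wE i₁.1 * ∑' k₂ : FB m₂, wE k₂.1 * G (a₁.1 ++ i₁.1) k₂.1) = 0 := by
        intro a₁
        have h5 : ∑' k₂ : FB m₂, wE k₂.1 * G (a₁.1 ++ i₁.1) k₂.1 = 0 := by
          rw [ENNReal.tsum_eq_zero]
          intro k₂
          simp only [hG]
          rw [if_neg, mul_zero]
          rintro ⟨_, h6, _⟩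
          have := fbh_dec a₁.2 i₁.2 h6
          omega
        rw [h5, mul_zero, mul_zero]
      rw [ENNReal.tsum_eq_zero.2 h4]
      exact zero_le
    -- the inner sum, second block
    have h5 : ∀ a₁ : Brd h₁, ∑' k₂ : FB m₂, wE k₂.1 * G (a₁.1 ++ i₁.1) k₂.1 =
        ∑ h₂ ∈ range m₂, ∑' i₂ : IG (m₂ - h₂), ∑' a₂ : Brd h₂, wE a₂.1 * (wE i₂.1 * G (a₁.1 ++ i₁.1) (a₂.1 ++ i₂.1)) :=
      fun a₁ => fb_sum hm₂ (fun k₂ => G (a₁.1 ++ i₁.1) k₂)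
    have h6 : ∑' a₁ : Brd h₁, wE a₁.1 * (wE i₁.1 * ∑' k₂ : FB m₂, wE k₂.1 * G (a₁.1 ++ i₁.1) k₂.1) =
        wE i₁.1 * ∑ h₂ ∈ range m₂, ∑' i₂ : IG (m₂ - h₂), wE i₂.1 * ∑' a₁ : Brd h₁, ∑' a₂ : Brd h₂,
          wE a₁.1 * (wE a₂.1 * G (a₁.1 ++ i₁.1) (a₂.1 ++ i₂.1)) := by
      have h7 : ∀ a₁ : Brd h₁, wE a₁.1 * (wE i₁.1 * ∑' k₂ : FB m₂, wE k₂.1 * G (a₁.1 ++ i₁.1) k₂.1) =
          wE i₁.1 * ∑ h₂ ∈ range m₂, ∑' i₂ : IG (m₂ - h₂), wE i₂.1 * ∑' a₂ : Brd h₂,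
            wE a₁.1 * (wE a₂.1 * G (a₁.1 ++ i₁.1) (a₂.1 ++ i₂.1)) := by
        intro a₁
        rw [h5 a₁, mul_left_comm, Finset.mul_sum]
        congr 1
        refine Finset.sum_congr rfl fun h₂ _ => ?_
        rw [← ENNReal.tsum_mul_left]
        refine tsum_congr fun i₂ => ?_
        rw [← ENNReal.tsum_mul_left, ← ENNReal.tsum_mul_left]
        refine tsum_congr fun a₂ => ?_
        ring
      rw [tsum_congr h7, ENNReal.tsum_mul_left]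
      congr 1
      rw [Summable.tsum_finsetSum fun _ _ => ENNReal.summable]
      refine Finset.sum_congr rfl fun h₂ _ => ?_
      rw [ENNReal.tsum_comm]
      exact tsum_congr fun i₂ => ENNReal.tsum_mul_left
    rw [h6]
    have h7 : ∀ h₂ ∈ range m₂, ∑' i₂ : IG (m₂ - h₂), wE i₂.1 * ∑' a₁ : Brd h₁, ∑' a₂ : Brd h₂,
          wE a₁.1 * (wE a₂.1 * G (a₁.1 ++ i₁.1) (a₂.1 ++ i₂.1)) ≤
        ∑' i₂ : IG (m₂ - h₂), wE i₂.1 * ENNReal.ofReal (uu h₂) * (Q * ENNReal.ofReal (uu h₁)) := by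
      intro h₂ _
      refine ENNReal.tsum_le_tsum fun i₂ => ?_
      rcases Nat.lt_or_ge h₂ s with hlt | hge2
      · have h8 : ∑' a₁ : Brd h₁, ∑' a₂ : Brd h₂, wE a₁.1 * (wE a₂.1 * G (a₁.1 ++ i₁.1) (a₂.1 ++ i₂.1)) = 0 := by
          rw [ENNReal.tsum_eq_zero]
          intro a₁
          rw [ENNReal.tsum_eq_zero]
          intro a₂
          simp only [hG]
          rw [if_neg, mul_zero, mul_zero]
          rintro ⟨_, _, h9⟩
          have := fbh_dec a₂.2 i₂.2 h9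
          omega
        rw [h8, mul_zero]
        exact zero_le
      · rw [mul_assoc]
        refine mul_le_mul_right ?_ _
        set z' := z - p ω - ((3 * h₁ + lev i₁.1 i₁.1.length) • u + latE i₁.1 • a) -
          ((3 * h₂ + lev i₂.1 i₂.1.length) • v + latE i₂.1 • b) with hz'
        have h8 : ∑' a₁ : Brd h₁, ∑' a₂ : Brd h₂, wE a₁.1 * (wE a₂.1 * G (a₁.1 ++ i₁.1) (a₂.1 ++ i₂.1)) ≤
            knl h₁ h₂ a b z' := by
          unfold knl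
          refine ENNReal.tsum_le_tsum fun a₁ => ENNReal.tsum_le_tsum fun a₂ => ?_
          refine mul_le_mul_right (mul_le_mul_right ?_ _) _
          simp only [hG]
          by_cases h9 : dp p u a v b ω (a₁.1 ++ i₁.1) (a₂.1 ++ i₂.1) = z
          · have h10 : latE a₁.1 • a + latE a₂.1 • b = z' := by
              have ha₁ := mem_Brd.1 a₁.2
              have ha₂ := mem_Brd.1 a₂.2
              rw [hz', ← h9]
              unfold dp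
              rw [List.length_append, List.length_append, lev_cat ha₁.2.2.1, lev_cat ha₂.2.2.1,
                latE_cat ha₁.2.2.1, latE_cat ha₂.2.2.1, ha₁.2.2.2, ha₂.2.2.2]
              simp only [add_smul]
              abel
            rw [if_pos h10]
            split_ifs
            · exact le_rfl
            · exact zero_le
          · rw [if_neg fun h => h9 h.1]
            exact zero_le
        refine h8.trans ((knl_sup hC hab hs hge hge2 z').trans (le_of_eq ?_))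
        ring
    have h8 : ∑ h₂ ∈ range m₂, ∑' i₂ : IG (m₂ - h₂), wE i₂.1 * ENNReal.ofReal (uu h₂) *
        (Q * ENNReal.ofReal (uu h₁)) = Q * ENNReal.ofReal (uu h₁) := by
      have h9 : ∀ h₂ ∈ range m₂, ∑' i₂ : IG (m₂ - h₂), wE i₂.1 * ENNReal.ofReal (uu h₂) *
          (Q * ENNReal.ofReal (uu h₁)) = (∑' i₂ : IG (m₂ - h₂), wE i₂.1 * ENNReal.ofReal (uu h₂)) *
          (Q * ENNReal.ofReal (uu h₁)) := fun h₂ _ => ENNReal.tsum_mul_right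
      rw [Finset.sum_congr rfl h9, ← Finset.sum_mul, mass_fin hm₂, one_mul]
    calc wE i₁.1 * ∑ h₂ ∈ range m₂, ∑' i₂ : IG (m₂ - h₂), wE i₂.1 * ∑' a₁ : Brd h₁, ∑' a₂ : Brd h₂,
          wE a₁.1 * (wE a₂.1 * G (a₁.1 ++ i₁.1) (a₂.1 ++ i₂.1))
        ≤ wE i₁.1 * (Q * ENNReal.ofReal (uu h₁)) := by
          rw [← h8]
          exact mul_le_mul_right (Finset.sum_le_sum h7) _
      _ = wE i₁.1 * ENNReal.ofReal (uu h₁) * Q := by ring
  refine (Finset.sum_le_sum h3).trans (le_of_eq ?_)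
  have h9 : ∀ h₁ ∈ range m₁, ∑' i₁ : IG (m₁ - h₁), wE i₁.1 * ENNReal.ofReal (uu h₁) * Q =
      (∑' i₁ : IG (m₁ - h₁), wE i₁.1 * ENNReal.ofReal (uu h₁)) * Q := fun h₁ _ => ENNReal.tsum_mul_right
  rw [Finset.sum_congr rfl h9, ← Finset.sum_mul, mass_fin hm₁, one_mul]

/-- `e` oscillates by at most `δ` when the initial piece (up to the first cut at or above `m / K`) of the first block is
replaced by another one of the same height (both in their boxes) -/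
def Osc₁ (M K : ℕ) (w : Ω → ℝ≥0∞) (m₁ m₂ : ℕ) (δ : ℝ≥0∞) (e : Ω → List Bool → List Bool → ℝ≥0∞) : Prop :=
  ∀ ω, w ω ≠ 0 → ∀ k₂ ∈ FB m₂, ∀ T, T < m₁ → T ≤ M * (m₁ / K) → ∀ s ∈ FC (m₁ / K) T, ∀ s' ∈ FC (m₁ / K) T,
    SB (M * (m₁ / K) : ℕ) (M * ((m₁ / K : ℕ) : ℝ) ^ ((4 : ℝ) / 3)) s → SB (M * (m₁ / K) : ℕ) (M * ((m₁ / K : ℕ) : ℝ) ^ ((4 : ℝ) / 3)) s' → ∀ r ∈ FB (m₁ - T), e ω (s ++ r) k₂ ≤ e ω (s' ++ r) k₂ + δ

/-- the same for the second block -/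
def Osc₂ (M K : ℕ) (w : Ω → ℝ≥0∞) (m₁ m₂ : ℕ) (δ : ℝ≥0∞) (e : Ω → List Bool → List Bool → ℝ≥0∞) : Prop :=
  ∀ ω, w ω ≠ 0 → ∀ k₁ ∈ FB m₁, ∀ T, T < m₂ → T ≤ M * (m₂ / K) → ∀ s ∈ FC (m₂ / K) T, ∀ s' ∈ FC (m₂ / K) T,
    SB (M * (m₂ / K) : ℕ) (M * ((m₂ / K : ℕ) : ℝ) ^ ((4 : ℝ) / 3)) s → SB (M * (m₂ / K) : ℕ) (M * ((m₂ / K : ℕ) : ℝ) ^ ((4 : ℝ) / 3)) s' → ∀ r ∈ FB (m₂ - T), e ω k₁ (s ++ r) ≤ e ω k₁ (s' ++ r) + δ

/-- the modulus of one block: `M`, `K`, `η`, `m0` -/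
def Mod1 (ε : ℝ) (M K : ℕ) (η : ℝ) (m0 : ℕ) : Prop :=
  ∀ m : ℕ, m0 ≤ m → ∀ x : ℤ, Even x → ((|x| : ℤ) : ℝ) ≤ η * m →
    ∀ (δ : ℝ≥0∞) (e : List Bool → ℝ≥0∞) (Ψ : ℤ → ℤ → ℝ≥0∞), (∀ b ∈ FB m, e b ≤ 1) → (∀ l y, Ψ l y ≤ 1) →
      (∀ T, T < m → T ≤ M * (m / K) → ∀ s ∈ FC (m / K) T, ∀ s' ∈ FC (m / K) T, SB (M * (m / K) : ℕ) (M * ((m / K : ℕ) : ℝ) ^ ((4 : ℝ) / 3)) s →
        SB (M * (m / K) : ℕ) (M * ((m / K : ℕ) : ℝ) ^ ((4 : ℝ) / 3)) s' → ∀ r ∈ FB (m - T), e (s ++ r) ≤ e (s' ++ r) + δ) →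
      ∑' k : FB m, wE k.1 * (e k.1 * Ψ (lev k.1 k.1.length) (latE k.1 - x)) ≤
        ∑' k : FB m, wE k.1 * (e k.1 * Ψ (lev k.1 k.1.length) (latE k.1)) + (ENNReal.ofReal ε + 2 * δ)

theorem mod1 {ε : ℝ} (hε : 0 < ε) : ∃ M K0 : ℕ, 1 ≤ K0 ∧ ∀ K : ℕ, K0 ≤ K → ∃ (η : ℝ) (m0 : ℕ), 0 < η ∧ 1 ≤ m0 ∧
    Mod1 ε M K η m0 := by
  classical
  obtain ⟨M, K0, hK0, h⟩ := fb_osc hε
  refine ⟨M, K0, hK0, fun K hK => ?_⟩
  obtain ⟨η, m0, hη, hm0, h1⟩ := h K hK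
  refine ⟨η, m0, hη, hm0, fun m hm x hx hxm δ e Ψ he hΨ hosc => ?_⟩
  -- truncate outside of the blocks
  have h2 := h1 m hm x hx hxm δ (fun k => min (e k) 1) Ψ (fun b => min_le_right _ _) hΨ
    (fun T hT hTM s hs s' hs' hb hb' r hr => ?_)
  · have h3 : ∀ c : ℤ, ∑' k : FB m, wE k.1 * (min (e k.1) 1 * Ψ (lev k.1 k.1.length) (latE k.1 - c)) =
        ∑' k : FB m, wE k.1 * (e k.1 * Ψ (lev k.1 k.1.length) (latE k.1 - c)) := by
      intro c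
      refine tsum_congr fun k => ?_
      rw [min_eq_left (he k.1 k.2)]
    have h4 := h3 0
    simp only [sub_zero] at h4
    rw [h3 x, h4] at h2
    exact h2
  · have h3 := hosc T hT hTM s hs s' hs' hb hb' r hr
    refine le_trans (min_le_min_right 1 h3) ?_
    rw [min_le_iff]
    rcases le_total (e (s' ++ r)) 1 with h4 | h4
    · left
      rw [min_eq_left h4]
    · right
      rw [min_eq_right h4]
      exact le_self_add

private lemma bl2_shift1 {ε : ℝ} {M K : ℕ} {η : ℝ} {m0 : ℕ} (hmod : Mod1 ε M K η m0) {w : Ω → ℝ≥0∞} {m₁ m₂ : ℕ}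
    (hm₁ : m0 ≤ m₁) (hm₂ : 1 ≤ m₂) {x : ℤ} (hx : Even x) (hxm : ((|x| : ℤ) : ℝ) ≤ η * m₁) {δ : ℝ≥0∞}
    {e : Ω → List Bool → List Bool → ℝ≥0∞} (he : ∀ ω, w ω ≠ 0 → ∀ k₁ ∈ FB m₁, ∀ k₂ ∈ FB m₂, e ω k₁ k₂ ≤ 1)
    (ho : Osc₁ M K w m₁ m₂ δ e) (p : Ω → Λ) (u a v b : Λ) {Φ : Λ → ℝ≥0∞} (hΦ : ∀ z, Φ z ≤ 1) :
    bl2 w m₁ m₂ (fun ω k₁ k₂ => e ω k₁ k₂ * Φ (dp p u a v b ω k₁ k₂ - x • a)) ≤
      bl2 w m₁ m₂ (fun ω k₁ k₂ => e ω k₁ k₂ * Φ (dp p u a v b ω k₁ k₂)) +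
        (ENNReal.ofReal ε + 2 * δ) * ∑' ω, w ω := by
  rw [bl2_swap w m₁ m₂, bl2_swap w m₁ m₂, ← ENNReal.tsum_mul_left]
  unfold bl2
  rw [← ENNReal.tsum_add]
  refine ENNReal.tsum_le_tsum fun ω => ?_
  rcases eq_or_ne (w ω) 0 with h0 | h0
  · rw [h0, zero_mul, zero_mul, mul_zero, add_zero]
  rw [mul_comm (ENNReal.ofReal ε + 2 * δ), ← mul_add]
  refine mul_le_mul_right ?_ _
  have h1 : ∀ k₂ : FB m₂, ∑' k₁ : FB m₁, wE k₂.1 * (wE k₁.1 * (e ω k₁.1 k₂.1 *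
      Φ (dp p u a v b ω k₁.1 k₂.1 - x • a))) ≤
      ∑' k₁ : FB m₁, wE k₂.1 * (wE k₁.1 * (e ω k₁.1 k₂.1 * Φ (dp p u a v b ω k₁.1 k₂.1))) +
        wE k₂.1 * (ENNReal.ofReal ε + 2 * δ) := by
    intro k₂
    rw [ENNReal.tsum_mul_left, ENNReal.tsum_mul_left, ← mul_add]
    refine mul_le_mul_right ?_ _
    have h2 := hmod m₁ hm₁ x hx hxm δ (fun k₁ => e ω k₁ k₂.1)
      (fun l y => Φ (p ω + (l • u + y • a) + (lev k₂.1 k₂.1.length • v + latE k₂.1 • b)))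
      (fun k₁ hk₁ => he ω h0 k₁ hk₁ k₂.1 k₂.2) (fun l y => hΦ _) (ho ω h0 k₂.1 k₂.2)
    refine le_trans (le_of_eq ?_) h2
    refine tsum_congr fun k₁ => ?_
    congr 3
    unfold dp
    rw [sub_smul]
    abel
  refine (ENNReal.tsum_le_tsum h1).trans ?_
  rw [ENNReal.tsum_add]
  refine add_le_add le_rfl (le_of_eq ?_)
  rw [ENNReal.tsum_mul_right, sum_fb hm₂, one_mul]

/-- (L) continuity in total variation, test functions of the displacement -/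
theorem bl2_shift {ε : ℝ} {M K : ℕ} {η : ℝ} {m0 : ℕ} (hmod : Mod1 ε M K η m0) (hm0 : 1 ≤ m0) {w : Ω → ℝ≥0∞}
    {m₁ m₂ : ℕ} (hm₁ : m0 ≤ m₁) (hm₂ : m0 ≤ m₂) {x y : ℤ} (hx : Even x) (hy : Even y)
    (hxm : ((|x| : ℤ) : ℝ) ≤ η * m₁) (hym : ((|y| : ℤ) : ℝ) ≤ η * m₂) {δ : ℝ≥0∞}
    {e : Ω → List Bool → List Bool → ℝ≥0∞} (he : ∀ ω, w ω ≠ 0 → ∀ k₁ ∈ FB m₁, ∀ k₂ ∈ FB m₂, e ω k₁ k₂ ≤ 1)
    (ho₁ : Osc₁ M K w m₁ m₂ δ e) (ho₂ : Osc₂ M K w m₁ m₂ δ e) (p : Ω → Λ) (u a v b : Λ) {Φ : Λ → ℝ≥0∞}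
    (hΦ : ∀ z, Φ z ≤ 1) :
    bl2 w m₁ m₂ (fun ω k₁ k₂ => e ω k₁ k₂ * Φ (dp p u a v b ω k₁ k₂ - (x • a + y • b))) ≤
      bl2 w m₁ m₂ (fun ω k₁ k₂ => e ω k₁ k₂ * Φ (dp p u a v b ω k₁ k₂)) +
        (2 * ENNReal.ofReal ε + 4 * δ) * ∑' ω, w ω := by
  have h1 := bl2_shift1 hmod hm₁ (hm0.trans hm₂) hx hxm he ho₁ p u a v b (Φ := fun z => Φ (z - y • b)) (fun z => hΦ _)
  have h2 := bl2_shift1 (w := w) (e := fun ω k₂ k₁ => e ω k₁ k₂) hmod hm₂ (hm0.trans hm₁) hy hym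
    (fun ω h0 k₂ hk₂ k₁ hk₁ => he ω h0 k₁ hk₁ k₂ hk₂) (fun ω h0 k₁ hk₁ => ho₂ ω h0 k₁ hk₁) p v b u a (Φ := Φ) hΦ
  rw [bl2_swap w m₂ m₁, bl2_swap w m₂ m₁] at h2
  have e1 : (fun ω k₁ k₂ => e ω k₁ k₂ * Φ (dp p u a v b ω k₁ k₂ - (x • a + y • b))) =
      fun ω k₁ k₂ => e ω k₁ k₂ * Φ (dp p u a v b ω k₁ k₂ - x • a - y • b) := by
    funext ω k₁ k₂
    rw [sub_sub]
  have e2 : (fun ω k₁ k₂ => e ω k₁ k₂ * Φ (dp p v b u a ω k₂ k₁ - y • b)) =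
      fun ω k₁ k₂ => e ω k₁ k₂ * Φ (dp p u a v b ω k₁ k₂ - y • b) := by
    funext ω k₁ k₂
    rw [dp_swap]
  have e3 : (fun ω k₁ k₂ => e ω k₁ k₂ * Φ (dp p v b u a ω k₂ k₁)) =
      fun ω k₁ k₂ => e ω k₁ k₂ * Φ (dp p u a v b ω k₁ k₂) := by
    funext ω k₁ k₂
    rw [dp_swap]
  rw [e2, e3] at h2
  rw [e1]
  refine (h1.trans (add_le_add h2 le_rfl)).trans (le_of_eq ?_)
  ring

/-- test functions against the weights of the displacements -/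
theorem gam2_sum (w : Ω → ℝ≥0∞) (m₁ m₂ : ℕ) (p : Ω → Λ) (u a v b : Λ) (e : Ω → List Bool → List Bool → ℝ≥0∞)
    (Φ : Λ → ℝ≥0∞) :
    ∑' z, gam2 w m₁ m₂ p u a v b e z * Φ z = bl2 w m₁ m₂ fun ω k₁ k₂ => e ω k₁ k₂ * Φ (dp p u a v b ω k₁ k₂) := by
  classical
  unfold gam2 bl2
  have h1 : ∀ z : Λ, (∑' ω, w ω * ∑' k₁ : FB m₁, ∑' k₂ : FB m₂, wE k₁.1 * (wE k₂.1 *
      (if dp p u a v b ω k₁.1 k₂.1 = z then e ω k₁.1 k₂.1 else 0))) * Φ z =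
      ∑' ω, ∑' k₁ : FB m₁, ∑' k₂ : FB m₂, w ω * (wE k₁.1 * (wE k₂.1 *
        (if dp p u a v b ω k₁.1 k₂.1 = z then e ω k₁.1 k₂.1 * Φ z else 0))) := by
    intro z
    rw [← ENNReal.tsum_mul_right]
    refine tsum_congr fun ω => ?_
    rw [← ENNReal.tsum_mul_left, ← ENNReal.tsum_mul_right]
    refine tsum_congr fun k₁ => ?_
    rw [← ENNReal.tsum_mul_left, ← ENNReal.tsum_mul_right]
    refine tsum_congr fun k₂ => ?_
    split_ifs
    · ring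
    · ring
  rw [tsum_congr h1, ENNReal.tsum_comm]
  refine tsum_congr fun ω => ?_
  rw [ENNReal.tsum_comm, ← ENNReal.tsum_mul_left]
  refine tsum_congr fun k₁ => ?_
  rw [ENNReal.tsum_comm, ← ENNReal.tsum_mul_left]
  refine tsum_congr fun k₂ => ?_
  rw [tsum_eq_single (dp p u a v b ω k₁.1 k₂.1), if_pos rfl]
  intro z hz
  rw [if_neg (Ne.symm hz), mul_zero, mul_zero, mul_zero]

theorem gam2_total (w : Ω → ℝ≥0∞) {m₁ m₂ : ℕ} (hm₁ : 1 ≤ m₁) (hm₂ : 1 ≤ m₂) (p : Ω → Λ) (u a v b : Λ)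
    {e : Ω → List Bool → List Bool → ℝ≥0∞} (he : ∀ ω, w ω ≠ 0 → ∀ k₁ ∈ FB m₁, ∀ k₂ ∈ FB m₂, e ω k₁ k₂ ≤ 1) :
    ∑' z, gam2 w m₁ m₂ p u a v b e z ≤ ∑' ω, w ω := by
  have h1 := gam2_sum w m₁ m₂ p u a v b e (fun _ => 1)
  simp only [mul_one] at h1
  rw [h1, ← bl2_one w hm₁ hm₂]
  exact bl2_mono he

/-- (L1) the L1 modulus of the weights of the displacements, one sided -/
theorem bl2_l1 {ε : ℝ} {M K : ℕ} {η : ℝ} {m0 : ℕ} (hmod : Mod1 ε M K η m0) (hm0 : 1 ≤ m0) {w : Ω → ℝ≥0∞}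
    (hw : ∑' ω, w ω ≠ ∞) {m₁ m₂ : ℕ} (hm₁ : m0 ≤ m₁) (hm₂ : m0 ≤ m₂) {x y : ℤ} (hx : Even x) (hy : Even y)
    (hxm : ((|x| : ℤ) : ℝ) ≤ η * m₁) (hym : ((|y| : ℤ) : ℝ) ≤ η * m₂) {δ : ℝ≥0∞}
    {e : Ω → List Bool → List Bool → ℝ≥0∞} (he : ∀ ω, w ω ≠ 0 → ∀ k₁ ∈ FB m₁, ∀ k₂ ∈ FB m₂, e ω k₁ k₂ ≤ 1)
    (ho₁ : Osc₁ M K w m₁ m₂ δ e) (ho₂ : Osc₂ M K w m₁ m₂ δ e) (p : Ω → Λ) (u a v b : Λ) :
    ∑' z, (gam2 w m₁ m₂ p u a v b e (z + (x • a + y • b)) - gam2 w m₁ m₂ p u a v b e z) ≤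
      (2 * ENNReal.ofReal ε + 4 * δ) * ∑' ω, w ω := by
  classical
  set g : Λ → ℝ≥0∞ := gam2 w m₁ m₂ p u a v b e with hg
  set t := x • a + y • b with ht
  let Φ : Λ → ℝ≥0∞ := fun z => if g z < g (z + t) then 1 else 0
  have hΦ : ∀ z, Φ z ≤ 1 := by
    intro z
    simp only [Φ]
    split_ifs
    · exact le_rfl
    · exact zero_le
  have h1 := bl2_shift hmod hm0 hm₁ hm₂ hx hy hxm hym he ho₁ ho₂ p u a v b hΦ
  rw [← ht, ← gam2_sum w m₁ m₂ p u a v b e Φ, ← gam2_sum w m₁ m₂ p u a v b e (fun z => Φ (z - t))] at h1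
  have h2 : ∑' z, g z * Φ (z - t) = ∑' z, g (z + t) * Φ z := by
    rw [← (Equiv.addRight t).tsum_eq (fun z => g z * Φ (z - t))]
    refine tsum_congr fun z => ?_
    show g (z + t) * Φ (z + t - t) = _
    rw [add_sub_cancel_right]
  have h3 : ∀ z, g (z + t) * Φ z = g z * Φ z + (g (z + t) - g z) := by
    intro z
    simp only [Φ]
    split_ifs with h
    · rw [mul_one, mul_one, add_tsub_cancel_of_le h.le]
    · rw [mul_zero, mul_zero, zero_add, tsub_eq_zero_of_le (not_lt.1 h)]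
  rw [← hg, h2, tsum_congr h3, ENNReal.tsum_add] at h1
  have h4 : ∑' z, g z * Φ z ≠ ∞ := by
    refine ne_top_of_le_ne_top hw ?_
    refine le_trans (ENNReal.tsum_le_tsum fun z => mul_le_of_le_one_right' (hΦ z)) ?_
    exact gam2_total w (hm0.trans hm₁) (hm0.trans hm₂) p u a v b he
  exact (ENNReal.add_le_add_iff_left h4).1 h1

end Bl2

end FP

end ROT

end HexObs
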