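import Pool.Agent.ROT.F3Brd
import Pool.Agent.ROT.F3Sm

/-!
# ROT / F3GamB (helper69): the weight of the connections with a block at the end of each strand

* `EL` : the lattice of the even vertices; `en_EL`; `el_rep` : `z = x a + y b`, `x`, `y` even, `|x|, |y| ≤ 2 ‖z‖`, `a = lav i`, `b = -lav j`;
* `CBl S i j m₁ m₂` : the connections `(s₁ ++ b₁, s₂ ++ b₂)`, `(s₁, s₂) ∈ S`, blocks `b₁ ∈ Fbi i m₁`, `b₂ ∈ Fbi j m₂`;
* **`sum_CBl`, `gam_eq2`** : sums over `CBl` are the sums `bl2` of F3Sm, `gam` of F3Ex is `gam2` of F3Sm;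
* **`gam_sup`**, **`gam_l1`** : (S), (L) of F3Sm for `gam`.
-/

set_option autoImplicit false

namespace Pool.Agent.ROT.F3

open Finset
open Pool.Agent.NTS.Res (step pos saw fug)
open HexObs (oo up vx dx lev lat latE Brd BT Cut wE gf tf FC)
open HexObs.ROT.FP (FB FBh SB bl2 gam2 dp Ind2 HSup Osc₁ Osc₂ Mod1)
open NTF (JJ sw)
open scoped ENNReal Classical

/-! ### the axes -/

lemma ax_eq (i : Fin 3) : ax i = JJ (NTF.Ed i) := by
  unfold ax step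
  rw [pow_zero, one_mul, NTF.JJ_Ed]

lemma ax0 : ax 0 = ⟨1, 0⟩ := by
  rw [ax_zero]
  rfl

lemma ax1 : ax 1 = ⟨-(1 / 2), Real.sqrt 3 / 2⟩ := by
  rw [ax_eq]
  apply Complex.ext
  · rw [NTF.JJ_re]
    simp [NTF.Ed]
    norm_num
  · rw [NTF.JJ_im]
    simp [NTF.Ed]

lemma ax2 : ax 2 = ⟨-(1 / 2), -(Real.sqrt 3 / 2)⟩ := by
  rw [ax_eq]
  apply Complex.ext
  · rw [NTF.JJ_re]
    simp [NTF.Ed]
    norm_num
  · rw [NTF.JJ_im]
    simp [NTF.Ed]

lemma ax_sum : ax 0 + ax 1 + ax 2 = 0 := by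
  rw [ax0, ax1, ax2]
  apply Complex.ext
  · simp only [Complex.add_re, Complex.zero_re]
    norm_num
  · simp only [Complex.add_im, Complex.zero_im]
    ring

/-- two different axes -/
lemma norm_ax_two {i j : Fin 3} (h : i ≠ j) (x y : ℝ) : ‖(x : ℂ) * ax i + (y : ℂ) * ax j‖ ^ 2 = x ^ 2 + y ^ 2 - x * y := by
  have h3 : Real.sqrt 3 * Real.sqrt 3 = 3 := Real.mul_self_sqrt (by norm_num)
  rw [Complex.sq_norm, Complex.normSq_apply]
  fin_cases i <;> fin_cases j <;> first | exact absurd rfl h | (simp only [Fin.zero_eta, Fin.mk_one, Fin.reduceFinMk, ax0, ax1, ax2,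
    Complex.add_re, Complex.add_im, Complex.mul_re, Complex.mul_im, Complex.ofReal_re, Complex.ofReal_im]; nlinarith [h3])

/-! ### the lattice of the even vertices -/

/-- the lattice of the even vertices -/
def EL : Set ℂ := {z | ∃ x y : ℤ, z = ⟨0, Real.sqrt 3⟩ * ((x : ℂ) * ax 0 + (y : ℂ) * ax 2)}

lemma EL_zero : (0 : ℂ) ∈ EL := ⟨0, 0, by simp⟩

lemma EL_add {z w : ℂ} (hz : z ∈ EL) (hw : w ∈ EL) : z + w ∈ EL := by
  obtain ⟨x, y, rfl⟩ := hz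
  obtain ⟨x', y', rfl⟩ := hw
  exact ⟨x + x', y + y', by push_cast; ring⟩

lemma EL_neg {z : ℂ} (hz : z ∈ EL) : -z ∈ EL := by
  obtain ⟨x, y, rfl⟩ := hz
  exact ⟨-x, -y, by push_cast; ring⟩

lemma EL_sub {z w : ℂ} (hz : z ∈ EL) (hw : w ∈ EL) : z - w ∈ EL := by
  rw [sub_eq_add_neg]
  exact EL_add hz (EL_neg hw)

lemma ax_sub_EL (a b : Fin 3) : ax a - ax b ∈ EL := by
  have h3 : Real.sqrt 3 * Real.sqrt 3 = 3 := Real.mul_self_sqrt (by norm_num)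
  have e01 : ax 0 - ax 1 ∈ EL := ⟨0, 1, by
    rw [ax0, ax1, ax2]
    apply Complex.ext
    · simp only [Complex.sub_re, Complex.mul_re, Complex.add_re, Complex.add_im, Complex.mul_im, Complex.intCast_re, Complex.intCast_im]
      push_cast
      nlinarith [h3]
    · simp only [Complex.sub_im, Complex.mul_re, Complex.add_re, Complex.add_im, Complex.mul_im, Complex.intCast_re, Complex.intCast_im]
      push_cast
      ring⟩
  have e12 : ax 1 - ax 2 ∈ EL := ⟨1, 0, by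
    rw [ax0, ax1, ax2]
    apply Complex.ext
    · simp only [Complex.sub_re, Complex.mul_re, Complex.add_re, Complex.add_im, Complex.mul_im, Complex.intCast_re, Complex.intCast_im]
      push_cast
      ring
    · simp only [Complex.sub_im, Complex.mul_re, Complex.add_re, Complex.add_im, Complex.mul_im, Complex.intCast_re, Complex.intCast_im]
      push_cast
      ring⟩
  have e02 : ax 0 - ax 2 ∈ EL := by
    have := EL_add e01 e12
    rwa [sub_add_sub_cancel] at this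
  have hn : ∀ u v : ℂ, u - v ∈ EL → v - u ∈ EL := fun u v h => by
    have := EL_neg h
    rwa [neg_sub] at this
  have hs : ∀ u : ℂ, u - u ∈ EL := fun u => by
    rw [sub_self]
    exact EL_zero
  fin_cases a <;> fin_cases b
  · exact hs _
  · exact e01
  · exact e02
  · exact hn _ _ e01
  · exact hs _
  · exact e12
  · exact hn _ _ e02
  · exact hn _ _ e12
  · exact hs _

lemma step_evenx {k : ℕ} (hk : Even k) (a : Fin 3) : step k a = ax a := by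
  unfold ax step
  rw [hk.neg_one_pow, pow_zero]

lemma step_oddx {k : ℕ} (hk : Even k) (a : Fin 3) : step (k + 1) a = -ax a := by
  unfold ax step
  rw [pow_succ, hk.neg_one_pow, pow_zero]
  ring

/-- the even vertices are in the lattice -/
lemma ps_EL (w : W3) : ∀ q : ℕ, 2 * q ≤ w.length → ps w (2 * q) ∈ EL := by
  intro q
  induction q with
  | zero =>
    intro _
    rw [mul_zero, ps_zero]
    exact EL_zero
  | succ q ih =>
    intro h
    have e : 2 * (q + 1) = 2 * q + 1 + 1 := by ring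
    rw [e, ps_succ, ps_succ, st_of_lt (show 2 * q < w.length by omega), st_of_lt (show 2 * q + 1 < w.length by omega),
      step_evenx (even_two_mul q), step_oddx (even_two_mul q), add_assoc, ← sub_eq_add_neg]
    exact EL_add (ih (by omega)) (ax_sub_EL _ _)

lemma en_EL {w : W3} (hw : Even w.length) : en w ∈ EL := by
  obtain ⟨q, hq⟩ := hw
  have h := ps_EL w q (by omega)
  rwa [show 2 * q = w.length by omega] at h

/-- the lateral vector of the axis `i` (one half of a lattice vector) -/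
noncomputable def lav (i : Fin 3) : ℂ := -(⟨0, Real.sqrt 3 / 2⟩ * ax i)

lemma rep_two {i j : Fin 3} (h : i ≠ j) (x y : ℤ) : ∃ x' y' : ℤ,
    (x : ℂ) * ax 0 + (y : ℂ) * ax 2 = (x' : ℂ) * ax i + (y' : ℂ) * ax j := by
  have h1 : ax 1 = -ax 0 - ax 2 := by
    have := ax_sum
    linear_combination this
  fin_cases i <;> fin_cases j
  · exact absurd rfl h
  · exact ⟨x - y, -y, by
      show _ = ((x - y : ℤ) : ℂ) * ax 0 + ((-y : ℤ) : ℂ) * ax 1
      rw [h1]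
      push_cast
      ring⟩
  · exact ⟨x, y, rfl⟩
  · exact ⟨-y, x - y, by
      show _ = ((-y : ℤ) : ℂ) * ax 1 + ((x - y : ℤ) : ℂ) * ax 0
      rw [h1]
      push_cast
      ring⟩
  · exact absurd rfl h
  · exact ⟨-x, y - x, by
      show _ = ((-x : ℤ) : ℂ) * ax 1 + ((y - x : ℤ) : ℂ) * ax 2
      rw [h1]
      push_cast
      ring⟩
  · exact ⟨y, x, by
      show _ = (y : ℂ) * ax 2 + (x : ℂ) * ax 0
      ring⟩
  · exact ⟨y - x, -x, by
      show _ = ((y - x : ℤ) : ℂ) * ax 2 + ((-x : ℤ) : ℂ) * ax 1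
      rw [h1]
      push_cast
      ring⟩
  · exact absurd rfl h

lemma lav_mul (i j : Fin 3) (x y : ℤ) : x • lav i + y • (-lav j) =
    -(⟨0, Real.sqrt 3 / 2⟩ * (((x : ℝ) : ℂ) * ax i + ((-(y : ℝ) : ℝ) : ℂ) * ax j)) := by
  unfold lav
  rw [zsmul_eq_mul, zsmul_eq_mul]
  push_cast
  ring

lemma norm_lav {i j : Fin 3} (h : i ≠ j) (x y : ℤ) :
    ‖x • lav i + y • (-lav j)‖ ^ 2 = 3 / 4 * ((x : ℝ) ^ 2 + (y : ℝ) ^ 2 + x * y) := by
  rw [lav_mul, norm_neg, norm_mul, mul_pow, norm_ax_two h]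
  have h3 : Real.sqrt 3 * Real.sqrt 3 = 3 := Real.mul_self_sqrt (by norm_num)
  have h4 : ‖(⟨0, Real.sqrt 3 / 2⟩ : ℂ)‖ ^ 2 = 3 / 4 := by
    rw [Complex.sq_norm, Complex.normSq_apply]
    show 0 * 0 + Real.sqrt 3 / 2 * (Real.sqrt 3 / 2) = 3 / 4
    nlinarith
  rw [h4]
  ring

/-- the two lateral vectors are independent -/
lemma ind_lav {i j : Fin 3} (h : i ≠ j) : Ind2 (lav i) (-lav j) := by
  intro X Y X' Y' he
  have h1 := norm_lav h (X - X') (Y - Y')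
  have h2 : (X - X') • lav i + (Y - Y') • (-lav j) = 0 := by
    rw [sub_smul, sub_smul]
    have : X • lav i - X' • lav i + (Y • -lav j - Y' • -lav j) = (X • lav i + Y • -lav j) - (X' • lav i + Y' • -lav j) := by abel
    rw [this, he, sub_self]
  rw [h2, norm_zero] at h1
  have h3 : ((X - X' : ℤ) : ℝ) ^ 2 + ((Y - Y' : ℤ) : ℝ) ^ 2 + ((X - X' : ℤ) : ℝ) * ((Y - Y' : ℤ) : ℝ) = 0 := by nlinarith
  have h4 : ((X - X' : ℤ) : ℝ) = 0 := by nlinarith [sq_nonneg (((X - X' : ℤ) : ℝ) + 2 * ((Y - Y' : ℤ) : ℝ)), sq_nonneg ((X - X' : ℤ) : ℝ)]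
  have h5 : ((Y - Y' : ℤ) : ℝ) = 0 := by
    rw [h4] at h3
    nlinarith
  have h6 : X - X' = 0 := by exact_mod_cast h4
  have h7 : Y - Y' = 0 := by exact_mod_cast h5
  exact ⟨by omega, by omega⟩

/-- **every vector of the lattice in the two lateral directions** -/
theorem el_rep {i j : Fin 3} (h : i ≠ j) {z : ℂ} (hz : z ∈ EL) : ∃ x y : ℤ, Even x ∧ Even y ∧ z = x • lav i + y • (-lav j) ∧
    ((|x| : ℤ) : ℝ) ≤ 2 * ‖z‖ ∧ ((|y| : ℤ) : ℝ) ≤ 2 * ‖z‖ := by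
  obtain ⟨p, q, rfl⟩ := hz
  obtain ⟨x, y, e⟩ := rep_two h p q
  have e2 : (⟨0, Real.sqrt 3⟩ : ℂ) * ((p : ℂ) * ax 0 + (q : ℂ) * ax 2) = (-2 * x : ℤ) • lav i + (2 * y : ℤ) • (-lav j) := by
    rw [e, lav_mul]
    have e3 : (⟨0, Real.sqrt 3⟩ : ℂ) = 2 * ⟨0, Real.sqrt 3 / 2⟩ := by
      apply Complex.ext
      · simp
      · simp
        ring
    rw [e3]
    push_cast
    ring
  have h1 := norm_lav h (-2 * x) (2 * y)
  rw [← e2] at h1
  push_cast at h1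
  have h0 := norm_nonneg ((⟨0, Real.sqrt 3⟩ : ℂ) * ((p : ℂ) * ax 0 + (q : ℂ) * ax 2))
  refine ⟨-2 * x, 2 * y, ⟨-x, by ring⟩, ⟨y, by ring⟩, e2, ?_, ?_⟩
  · push_cast
    rw [abs_mul, abs_neg, abs_two]
    refine mul_le_mul_of_nonneg_left ?_ (by norm_num)
    refine abs_le_of_sq_le_sq ?_ h0
    rw [h1]
    nlinarith [sq_nonneg ((x : ℝ) - 2 * y), sq_nonneg (x : ℝ)]
  · push_cast
    rw [abs_mul, abs_two]
    refine mul_le_mul_of_nonneg_left ?_ (by norm_num)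
    refine abs_le_of_sq_le_sq ?_ h0
    rw [h1]
    nlinarith [sq_nonneg (2 * (x : ℝ) - y), sq_nonneg (y : ℝ)]

/-! ### connections with a block at the end of each strand -/

/-- start pieces `S`, blocks of the axes `i`, `j` -/
def CBl (S : Set (W3 × W3)) (i j : Fin 3) (m₁ m₂ : ℕ) : Set (W3 × W3) :=
  {a | ∃ s ∈ S, ∃ b₁ ∈ Fbi i m₁, ∃ b₂ ∈ Fbi j m₂, a = (s.1 ++ b₁, s.2 ++ b₂)}

/-- the decomposition is unique -/
def UnB (S : Set (W3 × W3)) (i j : Fin 3) (m₁ m₂ : ℕ) : Prop := ∀ s ∈ S, ∀ s' ∈ S, ∀ b₁ ∈ Fbi i m₁, ∀ b₁' ∈ Fbi i m₁,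
  ∀ b₂ ∈ Fbi j m₂, ∀ b₂' ∈ Fbi j m₂, s.1 ++ b₁ = s'.1 ++ b₁' → s.2 ++ b₂ = s'.2 ++ b₂' → s = s'

/-- the weight of the start pieces -/
noncomputable def wS (S : Set (W3 × W3)) (s : W3 × W3) : ℝ≥0∞ := if s ∈ S then wx s.1 * wx s.2 else 0

/-- **sums over the connections** -/
theorem sum_CBl {S : Set (W3 × W3)} {i j : Fin 3} {m₁ m₂ : ℕ} (hU : UnB S i j m₁ m₂) (F : W3 × W3 → ℝ≥0∞) :
    ∑' a : W3 × W3, (if a ∈ CBl S i j m₁ m₂ then wx a.1 * wx a.2 * F a else 0) =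
      bl2 (wS S) m₁ m₂ fun s k₁ k₂ => F (s.1 ++ rt i (wl k₁), s.2 ++ rt j (wl k₂)) := by
  let f : (S × (Fbi i m₁ × Fbi j m₂)) → CBl S i j m₁ m₂ := fun x =>
    ⟨(x.1.1.1 ++ x.2.1.1, x.1.1.2 ++ x.2.2.1), x.1.1, x.1.2, x.2.1.1, x.2.1.2, x.2.2.1, x.2.2.2, rfl⟩
  have hf : Function.Bijective f := by
    constructor
    · rintro ⟨⟨s, hs⟩, ⟨b₁, hb₁⟩, ⟨b₂, hb₂⟩⟩ ⟨⟨s', hs'⟩, ⟨b₁', hb₁'⟩, ⟨b₂', hb₂'⟩⟩ he
      have h1 : (s.1 ++ b₁, s.2 ++ b₂) = (s'.1 ++ b₁', s'.2 ++ b₂') := congrArg Subtype.val he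
      have h2 := congrArg Prod.fst h1
      have h3 := congrArg Prod.snd h1
      simp only at h2 h3
      have h4 := hU s hs s' hs' b₁ hb₁ b₁' hb₁' b₂ hb₂ b₂' hb₂' h2 h3
      subst h4
      have h5 := List.append_cancel_left h2
      have h6 := List.append_cancel_left h3
      subst h5
      subst h6
      rfl
    · rintro ⟨a, s, hs, b₁, hb₁, b₂, hb₂, rfl⟩
      exact ⟨⟨⟨s, hs⟩, ⟨b₁, hb₁⟩, ⟨b₂, hb₂⟩⟩, rfl⟩
  have h1 : ∑' a : W3 × W3, (if a ∈ CBl S i j m₁ m₂ then wx a.1 * wx a.2 * F a else 0) =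
      ∑' a : CBl S i j m₁ m₂, wx a.1.1 * wx a.1.2 * F a.1 := by
    rw [_root_.tsum_subtype (CBl S i j m₁ m₂) fun a => wx a.1 * wx a.2 * F a]
    exact tsum_congr fun a => by rw [Set.indicator_apply]
  rw [h1, ← (Equiv.ofBijective f hf).tsum_eq, ENNReal.tsum_prod']
  have h2 : ∀ s : S, ∑' x : Fbi i m₁ × Fbi j m₂, wx ((Equiv.ofBijective f hf) (s, x)).1.1 * wx ((Equiv.ofBijective f hf) (s, x)).1.2 *
      F ((Equiv.ofBijective f hf) (s, x)).1 = wx s.1.1 * wx s.1.2 * ∑' k₁ : FB m₁, ∑' k₂ : FB m₂, wE k₁.1 * (wE k₂.1 *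
        F (s.1.1 ++ rt i (wl k₁), s.1.2 ++ rt j (wl k₂))) := by
    intro s
    have h3 : ∀ x : Fbi i m₁ × Fbi j m₂, wx ((Equiv.ofBijective f hf) (s, x)).1.1 * wx ((Equiv.ofBijective f hf) (s, x)).1.2 *
        F ((Equiv.ofBijective f hf) (s, x)).1 = wx s.1.1 * wx s.1.2 * (wx x.1.1 * (wx x.2.1 * F (s.1.1 ++ x.1.1, s.1.2 ++ x.2.1))) := by
      rintro ⟨b₁, b₂⟩
      show wx (s.1.1 ++ b₁.1) * wx (s.1.2 ++ b₂.1) * F (s.1.1 ++ b₁.1, s.1.2 ++ b₂.1) = _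
      rw [wx_append, wx_append]
      ring
    rw [tsum_congr h3, ENNReal.tsum_mul_left, ENNReal.tsum_prod']
    congr 1
    have h4 : ∀ b₁ : Fbi i m₁, ∑' b₂ : Fbi j m₂, wx b₁.1 * (wx b₂.1 * F (s.1.1 ++ b₁.1, s.1.2 ++ b₂.1)) =
        wx b₁.1 * ∑' k₂ : FB m₂, wE k₂.1 * F (s.1.1 ++ b₁.1, s.1.2 ++ rt j (wl k₂)) := by
      intro b₁
      rw [ENNReal.tsum_mul_left, sum_Fbi j m₂ fun b₂ => F (s.1.1 ++ b₁.1, s.1.2 ++ b₂)]
    rw [tsum_congr h4, sum_Fbi i m₁ fun b₁ => ∑' k₂ : FB m₂, wE k₂.1 * F (s.1.1 ++ b₁, s.1.2 ++ rt j (wl k₂))]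
    exact tsum_congr fun k₁ => ENNReal.tsum_mul_left.symm
  rw [tsum_congr h2]
  unfold HexObs.ROT.FP.bl2 wS
  rw [_root_.tsum_subtype S fun s => wx s.1 * wx s.2 * ∑' k₁ : FB m₁, ∑' k₂ : FB m₂, wE k₁.1 * (wE k₂.1 *
        F (s.1 ++ rt i (wl k₁), s.2 ++ rt j (wl k₂)))]
  refine tsum_congr fun s => ?_
  rw [Set.indicator_apply]
  split_ifs
  · rfl
  · rw [zero_mul]

/-- the displacement of a connection with blocks -/
lemma disp_eq (i j : Fin 3) {s : W3 × W3} (h1 : Even s.1.length) (h2 : Even s.2.length) (k₁ k₂ : List Bool) :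
    en (s.1 ++ rt i (wl k₁)) - en (s.2 ++ rt j (wl k₂)) =
      dp (fun s : W3 × W3 => en s.1 - en s.2) (ax i / 2) (lav i) (-(ax j / 2)) (-lav j) s k₁ k₂ := by
  have key : ∀ (i : Fin 3) (k : List Bool), en (rt i (wl k)) = lev k k.length • (ax i / 2) + latE k • lav i := by
    intro i k
    rw [en_rt_wl]
    unfold lav
    rw [zsmul_eq_mul, zsmul_eq_mul]
    have : (⟨(lev k k.length : ℝ) / 2, -(Real.sqrt 3 / 2 * latE k)⟩ : ℂ) =
        (lev k k.length : ℂ) / 2 - (latE k : ℂ) * ⟨0, Real.sqrt 3 / 2⟩ := by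
      apply Complex.ext
      · simp
      · simp
        ring
    rw [this]
    ring
  unfold HexObs.ROT.FP.dp
  rw [en_append h1, en_append h2, key, key, smul_neg, smul_neg]
  ring

/-- **`gam` is `gam2`** -/
theorem gam_eq2 {S : Set (W3 × W3)} {i j : Fin 3} {m₁ m₂ : ℕ} (hS : ∀ s ∈ S, Even s.1.length ∧ Even s.2.length)
    (hU : UnB S i j m₁ m₂) (e : W3 × W3 → ℝ≥0∞) (z : ℂ) : gam (CBl S i j m₁ m₂) e z =
      gam2 (wS S) m₁ m₂ (fun s : W3 × W3 => en s.1 - en s.2) (ax i / 2) (lav i) (-(ax j / 2)) (-lav j)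
        (fun s k₁ k₂ => e (s.1 ++ rt i (wl k₁), s.2 ++ rt j (wl k₂))) z := by
  have h1 := sum_CBl hU fun a => if en a.1 - en a.2 = z then e a else 0
  have h2 : gam (CBl S i j m₁ m₂) e z = ∑' a : W3 × W3, (if a ∈ CBl S i j m₁ m₂ then wx a.1 * wx a.2 *
      (if en a.1 - en a.2 = z then e a else 0) else 0) := by
    unfold gam
    refine tsum_congr fun a => ?_
    by_cases ha : a ∈ CBl S i j m₁ m₂
    · by_cases hz : en a.1 - en a.2 = z
      · rw [if_pos ⟨ha, hz⟩, if_pos ha, if_pos hz]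
      · rw [if_neg fun h => hz h.2, if_pos ha, if_neg hz, mul_zero]
    · rw [if_neg fun h => ha h.1, if_neg ha]
  rw [h2, h1]
  unfold HexObs.ROT.FP.gam2 HexObs.ROT.FP.bl2
  refine tsum_congr fun s => ?_
  by_cases hs : s ∈ S
  · congr 1
    refine tsum_congr fun k₁ => tsum_congr fun k₂ => ?_
    simp only [disp_eq i j (hS s hs).1 (hS s hs).2]
  · unfold wS
    rw [if_neg hs, zero_mul, zero_mul]

end Pool.Agent.ROT.F3
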