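import Pool.Agent.ROT.F3GamB
import Pool.Agent.ROT.F3Dbl

/-!
# ROT / F3GamD (helper69): the connections with double gates (`ConD` of F3Dbl) are start pairs with two free blocks

* `ax_dir` : two different axes satisfy the hypothesis `‖d + d'‖ ≤ 1`;
* **`blk_iff`** : a block of F3Dbl (`BlkC`, `FstC d m`) is an element of `Fbi i ⌈2 m / 3⌉` in the ball `r2`;
* `StD` : the start pairs; **`conD_iff`**; `unB_StD` : start and block are unique; `conD_sub`;
* **`gam_conD`** : `gam` of the class `ConD` = `gam` over `CBl`, for weights which vanish outside of the class.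
-/

set_option autoImplicit false

namespace Pool.Agent.ROT.F3

open Finset ComplexConjugate
open scoped ENNReal Classical

lemma lvi_eq (i : Fin 3) (w : W3) (k : ℕ) : lvi i w k = lv (ax i) (ps w k) := rfl

lemma lvi_en (i : Fin 3) (w : W3) : lvi i w w.length = lv (ax i) (en w) := rfl

lemma ax_dir {i j : Fin 3} (h : i ≠ j) : ‖ax i + ax j‖ ≤ 1 := by
  have h1 := norm_ax_two h 1 1
  rw [Complex.ofReal_one, one_mul, one_mul] at h1
  have h2 : ‖ax i + ax j‖ ^ 2 = 1 := by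
    rw [h1]
    norm_num
  nlinarith [norm_nonneg (ax i + ax j)]

/-! ### blocks -/

/-- **blocks between two successive gates** -/
theorem blk_iff {i : Fin 3} {r2 m : ℝ} (hm : 0 < m) {b : W3} : (BlkC (ax i) r2 b ∧ FstC (ax i) m b) ↔
    b ∈ Fbi i ⌈2 * m / 3⌉₊ ∧ ∀ k : ℕ, k ≤ b.length → ‖ps b k‖ ≤ r2 := by
  constructor
  · rintro ⟨⟨⟨b1, b2, b3, b4, b5⟩, b6⟩, f1, f2⟩
    refine ⟨?_, b5⟩
    obtain ⟨q, hq⟩ := lvi_even i b le_rfl b1
    rw [lvi_en] at hq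
    have hmq : 2 * m / 3 ≤ q := by
      rw [hq] at f1
      linarith
    have hq0 : (0 : ℝ) < q := by linarith
    have hq0' : (0 : ℤ) < q := by exact_mod_cast hq0
    have hq1 : ((q.toNat : ℕ) : ℤ) = q := Int.toNat_of_nonneg hq0'.le
    have hq2 : ((q.toNat : ℕ) : ℝ) = q := by exact_mod_cast hq1
    have hbr : b ∈ Bri i q.toNat := by
      refine ⟨b1, b2, fun k hk1 hk2 => ?_, by rw [lvi_en, hq, hq2]⟩
      rw [hq2, lvi_eq, ← hq]
      exact ⟨b6 k (by omega) hk2, b4 k hk2⟩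
    refine ⟨q.toNat, Nat.ceil_le.2 (by rw [hq2]; exact hmq), hbr, fun c hc1 hc2 hcut => ?_⟩
    obtain ⟨k, hk, hke, k1, k2, k3⟩ := (cuti_iff hbr).1 hcut
    have hc3 : (c : ℝ) < q := by
      rw [← hq2]
      exact_mod_cast hc2
    have hkb : k < b.length := by
      rcases Nat.lt_or_eq_of_le hk with h | h
      · exact h
      · rw [h, lvi_en, hq] at k1
        linarith
    have h1 := f2 k hke hkb ⟨fun j hj => by rw [← lvi_eq, ← lvi_eq, k1]; exact k2 j hj,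
      fun j hj1 hj2 => by rw [← lvi_eq, ← lvi_eq, k1]; exact k3 j hj1 hj2⟩
    rw [← lvi_eq, k1] at h1
    have h2 : 2 * m / 3 ≤ c := (Nat.ceil_le).1 hc1
    linarith
  · rintro ⟨⟨T, hT, hbr, hno⟩, hball⟩
    obtain ⟨b1, b2, b3, b4⟩ := id hbr
    have hT' : 2 * m / 3 ≤ T := Nat.ceil_le.1 hT
    have hT0 : (0 : ℝ) < T := by linarith
    have hpos : 0 < b.length := by
      rcases Nat.eq_zero_or_pos b.length with h | h
      · rw [h, lvi_start] at b4
        linarith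
      · exact h
    have hleft : ∀ k : ℕ, k ≤ b.length → lv (ax i) (ps b k) ≤ lv (ax i) (en b) := by
      intro k hk
      rw [← lvi_eq, ← lvi_en, b4]
      rcases Nat.eq_zero_or_pos k with h | h
      · rw [h, lvi_start]
        linarith
      · exact (b3 k h hk).2
    refine ⟨⟨⟨b1, b2, hpos, hleft, hball⟩, fun k hk1 hk2 => (b3 k hk1 hk2).1⟩, ?_, fun k hke hk hcut => ?_⟩
    · rw [← lvi_en, b4]
      linarith
    · by_contra hcon
      rw [not_lt] at hcon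
      obtain ⟨q, hq⟩ := lvi_even i b hk.le hke
      rw [← lvi_eq, hq] at hcon
      have hmq : 2 * m / 3 ≤ q := by linarith
      have hq0 : (0 : ℝ) < q := by linarith
      have hq0' : (0 : ℤ) < q := by exact_mod_cast hq0
      have hq1 : ((q.toNat : ℕ) : ℤ) = q := Int.toNat_of_nonneg hq0'.le
      have hq2 : ((q.toNat : ℕ) : ℝ) = q := by exact_mod_cast hq1
      have hqT : q.toNat < T := by
        have h4 := hcut.2 b.length hk le_rfl
        rw [← lvi_eq, ← lvi_eq, hq, b4] at h4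
        have : (q : ℝ) < T := by linarith
        rw [← hq2] at this
        exact_mod_cast this
      refine hno q.toNat (Nat.ceil_le.2 (by rw [hq2]; exact hmq)) hqT ((cuti_iff hbr).2 ⟨k, hk.le, hke, by rw [hq, hq2],
        fun j hj => ?_, fun j hj1 hj2 => ?_⟩)
      · rw [hq2, ← hq]
        exact hcut.1 j hj
      · rw [hq2, ← hq]
        exact hcut.2 j hj1 hj2

/-! ### connections with double gates -/

/-- the start pairs of the double gates -/
structure StP (d d' : ℂ) (r l κ : ℝ) (s : W3 × W3) : Prop where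
  t1 : TipC d r s.1
  t2 : TipC d' r s.2
  f1 : FstC d l s.1
  f2 : FstC d' l s.2
  l2 : ∀ k : ℕ, k ≤ s.2.length → lv d (ps s.2 k) ≤ lv d (en s.1)
  l1 : ∀ k : ℕ, k ≤ s.1.length → lv d' (ps s.1 k) ≤ lv d' (en s.2)
  dj : ∀ j k : ℕ, j ≤ s.1.length → k ≤ s.2.length → ps s.1 j = ps s.2 k → j = 0 ∧ k = 0
  e1 : EndK d κ s.1
  e2 : EndK d' κ s.2

/-- the blocks of the double gates -/
structure BlP (d : ℂ) (r2 m κ : ℝ) (b : W3) : Prop where
  g : BlkC d r2 b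
  f : FstC d m b
  c : ConeK d κ b

theorem conD_iff {d d' : ℂ} {r l r2 m κ1 κ : ℝ} {a : W3 × W3} {k1 k2 : ℕ} : ConD d d' r l r2 m κ1 κ a k1 k2 ↔
    k1 ≤ a.1.length ∧ k2 ≤ a.2.length ∧ StP d d' r l (κ1 + κ) (a.1.take k1, a.2.take k2) ∧
      BlP d r2 m κ1 (a.1.drop k1) ∧ BlP d' r2 m κ1 (a.2.drop k2) := by
  constructor
  · intro h
    have t1 : ∀ j, j ≤ k1 → ps (a.1.take k1) j = ps a.1 j := fun j hj => ps_take _ hj h.g1.le
    have t2 : ∀ j, j ≤ k2 → ps (a.2.take k2) j = ps a.2 j := fun j hj => ps_take _ hj h.g2.le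
    have n1 : (a.1.take k1).length = k1 := by rw [List.length_take, min_eq_left h.g1.le]
    have n2 : (a.2.take k2).length = k2 := by rw [List.length_take, min_eq_left h.g2.le]
    have en1 : en (a.1.take k1) = ps a.1 k1 := by rw [en, n1, t1 _ le_rfl]
    have en2 : en (a.2.take k2) = ps a.2 k2 := by rw [en, n2, t2 _ le_rfl]
    refine ⟨h.g1.le, h.g2.le, ⟨h.g1.a, h.g2.a, h.g1.fa, h.g2.fa, fun k hk => ?_, fun k hk => ?_, fun j k hj hk he => ?_, h.e1, h.e2⟩,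
      ⟨h.g1.b, h.g1.fb, h.s1⟩, ⟨h.g2.b, h.g2.fb, h.s2⟩⟩
    · simp only at hk ⊢
      rw [n2] at hk
      rw [t2 k hk, en1]
      exact h.l2 k hk
    · simp only at hk ⊢
      rw [n1] at hk
      rw [t1 k hk, en2]
      exact h.l1 k hk
    · simp only at hj hk he
      rw [n1] at hj
      rw [n2] at hk
      rw [t1 j hj, t2 k hk] at he
      exact h.dj j k hj hk he
  · rintro ⟨h1, h2, hs, hb1, hb2⟩
    have t1 : ∀ j, j ≤ k1 → ps (a.1.take k1) j = ps a.1 j := fun j hj => ps_take _ hj h1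
    have t2 : ∀ j, j ≤ k2 → ps (a.2.take k2) j = ps a.2 j := fun j hj => ps_take _ hj h2
    have n1 : (a.1.take k1).length = k1 := by rw [List.length_take, min_eq_left h1]
    have n2 : (a.2.take k2).length = k2 := by rw [List.length_take, min_eq_left h2]
    have en1 : en (a.1.take k1) = ps a.1 k1 := by rw [en, n1, t1 _ le_rfl]
    have en2 : en (a.2.take k2) = ps a.2 k2 := by rw [en, n2, t2 _ le_rfl]
    refine ⟨⟨h1, hs.t1, hs.f1, hb1.g, hb1.f⟩, ⟨h2, hs.t2, hs.f2, hb2.g, hb2.f⟩, fun k hk => ?_, fun k hk => ?_,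
      fun j k hj hk he => ?_, hs.e1, hs.e2, hb1.c, hb2.c⟩
    · have := hs.l2 k (by simp only; rw [n2]; exact hk)
      simp only at this
      rwa [t2 k hk, en1] at this
    · have := hs.l1 k (by simp only; rw [n1]; exact hk)
      simp only at this
      rwa [t1 k hk, en2] at this
    · refine hs.dj j k (by simp only; rw [n1]; exact hj) (by simp only; rw [n2]; exact hk) ?_
      simp only
      rw [t1 j hj, t2 k hk]
      exact he

/-- the same with the pieces -/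
theorem conD_append {d d' : ℂ} {r l r2 m κ1 κ : ℝ} {s : W3 × W3} {b₁ b₂ : W3} (hs : StP d d' r l (κ1 + κ) s)
    (h1 : BlP d r2 m κ1 b₁) (h2 : BlP d' r2 m κ1 b₂) : ConD d d' r l r2 m κ1 κ (s.1 ++ b₁, s.2 ++ b₂) s.1.length s.2.length := by
  rw [conD_iff]
  simp only [List.take_left', List.drop_left', List.length_append]
  exact ⟨by omega, by omega, hs, h1, h2⟩

/-- the class with double gates -/
def CD (d d' : ℂ) (r l r2 m κ1 κ : ℝ) : Set (W3 × W3) := {a | ∃ k1 k2 : ℕ, ConD d d' r l r2 m κ1 κ a k1 k2}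

lemma mem_CD {d d' : ℂ} {r l r2 m κ1 κ : ℝ} {a : W3 × W3} : a ∈ CD d d' r l r2 m κ1 κ ↔
    ∃ s : W3 × W3, StP d d' r l (κ1 + κ) s ∧ ∃ b₁ b₂ : W3, BlP d r2 m κ1 b₁ ∧ BlP d' r2 m κ1 b₂ ∧ a = (s.1 ++ b₁, s.2 ++ b₂) := by
  constructor
  · rintro ⟨k1, k2, h⟩
    obtain ⟨h1, h2, hs, hb1, hb2⟩ := conD_iff.1 h
    exact ⟨_, hs, _, _, hb1, hb2, by simp only [List.take_append_drop]⟩
  · rintro ⟨s, hs, b₁, b₂, h1, h2, rfl⟩
    exact ⟨_, _, conD_append hs h1 h2⟩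

/-- start and block of one strand are unique -/
lemma start_unique {d : ℂ} {r r' l : ℝ} {p p' b b' : W3} (h : TipC d r p) (h' : TipC d r' p') (f : FstC d l p) (f' : FstC d l p')
    (hb : ∀ k : ℕ, 0 < k → k ≤ b.length → 0 < lv d (ps b k)) (hb' : ∀ k : ℕ, 0 < k → k ≤ b'.length → 0 < lv d (ps b' k))
    (he : p ++ b = p' ++ b') : p = p' := by
  have key : ∀ {p p' b b' : W3} {r r' : ℝ}, TipC d r p → TipC d r' p' → FstC d l p → FstC d l p' →
      (∀ k : ℕ, 0 < k → k ≤ b.length → 0 < lv d (ps b k)) → p ++ b = p' ++ b' → ¬ p.length < p'.length := by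
    intro p p' b b' r r' h h' f f' hb he hlt
    have hlen : p.length + b.length = p'.length + b'.length := by
      rw [← List.length_append, he, List.length_append]
    have e1 : ∀ j, j ≤ p'.length → ps p' j = ps (p ++ b) j := fun j hj => by rw [he, ps_append_left hj]
    have e2 : ps p' p.length = en p := by
      rw [e1 _ hlt.le, ps_append_left le_rfl]
      rfl
    have h1 := f'.2 p.length h.ev hlt ⟨fun j hj => ?_, fun j hj1 hj2 => ?_⟩
    · rw [e2] at h1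
      linarith [f.1]
    · rw [e2, e1 j (by omega), ps_append_left hj]
      exact h.left j hj
    · rw [e2, e1 j hj2, ps_append_right' h.ev hj1.le, lv_add]
      have := hb (j - p.length) (by omega) (by omega)
      linarith
  have h1 := key h h' f f' hb he
  have h2 := key h' h f' f hb' he.symm
  have h3 : p.length = p'.length := by omega
  exact (List.append_inj he h3).1

/-- the set of the start pairs, axes `i`, `j` -/
def StD (i j : Fin 3) (r l κ : ℝ) : Set (W3 × W3) := {s | StP (ax i) (ax j) r l κ s}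

lemma Fbi_right {i : Fin 3} {m : ℕ} {b : W3} (hb : b ∈ Fbi i m) : ∀ k : ℕ, 0 < k → k ≤ b.length → 0 < lv (ax i) (ps b k) := by
  obtain ⟨T, -, ⟨-, -, h, -⟩, -⟩ := hb
  exact fun k h0 hk => (h k h0 hk).1

lemma Fbi_even {i : Fin 3} {m : ℕ} {b : W3} (hb : b ∈ Fbi i m) : Even b.length := by
  obtain ⟨T, -, ⟨h, -⟩, -⟩ := hb
  exact h

/-- **start and block are unique** -/
theorem unB_StD (i j : Fin 3) (r l κ : ℝ) (m₁ m₂ : ℕ) : UnB (StD i j r l κ) i j m₁ m₂ := by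
  intro s hs s' hs' b₁ hb₁ b₁' hb₁' b₂ hb₂ b₂' hb₂' h1 h2
  exact Prod.ext (start_unique hs.t1 hs'.t1 hs.f1 hs'.f1 (Fbi_right hb₁) (Fbi_right hb₁') h1)
    (start_unique hs.t2 hs'.t2 hs.f2 hs'.f2 (Fbi_right hb₂) (Fbi_right hb₂') h2)

lemma StD_even {i j : Fin 3} {r l κ : ℝ} : ∀ s ∈ StD i j r l κ, Even s.1.length ∧ Even s.2.length :=
  fun _ hs => ⟨hs.t1.ev, hs.t2.ev⟩

/-- the class of F3Dbl in terms of start pairs and blocks -/
theorem mem_CD_iff {i j : Fin 3} {r l r2 m κ1 κ : ℝ} (hm : 0 < m) {s : W3 × W3} (hs : s ∈ StD i j r l (κ1 + κ)) {b₁ b₂ : W3}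
    (hb₁ : b₁ ∈ Fbi i ⌈2 * m / 3⌉₊) (hb₂ : b₂ ∈ Fbi j ⌈2 * m / 3⌉₊) :
    (s.1 ++ b₁, s.2 ++ b₂) ∈ CD (ax i) (ax j) r l r2 m κ1 κ ↔
      ((∀ k : ℕ, k ≤ b₁.length → ‖ps b₁ k‖ ≤ r2) ∧ ConeK (ax i) κ1 b₁) ∧
        ((∀ k : ℕ, k ≤ b₂.length → ‖ps b₂ k‖ ≤ r2) ∧ ConeK (ax j) κ1 b₂) := by
  constructor
  · intro h
    obtain ⟨s', hs', c₁, c₂, h1, h2, he⟩ := mem_CD.1 h
    have e1 := congrArg Prod.fst he
    have e2 := congrArg Prod.snd he
    simp only at e1 e2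
    have f1 := start_unique hs.t1 hs'.t1 hs.f1 hs'.f1 (Fbi_right hb₁) h1.g.right e1
    have f2 := start_unique hs.t2 hs'.t2 hs.f2 hs'.f2 (Fbi_right hb₂) h2.g.right e2
    rw [f1] at e1
    rw [f2] at e2
    have g1 := List.append_cancel_left e1
    have g2 := List.append_cancel_left e2
    subst g1
    subst g2
    exact ⟨⟨h1.g.t.ball, h1.c⟩, ⟨h2.g.t.ball, h2.c⟩⟩
  · rintro ⟨⟨h1, h2⟩, ⟨h3, h4⟩⟩
    have g1 := (blk_iff hm).2 ⟨hb₁, h1⟩
    have g2 := (blk_iff hm).2 ⟨hb₂, h3⟩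
    exact mem_CD.2 ⟨s, hs, b₁, b₂, ⟨g1.1, g1.2, h2⟩, ⟨g2.1, g2.2, h4⟩, rfl⟩

theorem conD_sub {i j : Fin 3} {r l r2 m κ1 κ : ℝ} (hm : 0 < m) :
    CD (ax i) (ax j) r l r2 m κ1 κ ⊆ CBl (StD i j r l (κ1 + κ)) i j ⌈2 * m / 3⌉₊ ⌈2 * m / 3⌉₊ := by
  intro a ha
  obtain ⟨s, hs, b₁, b₂, h1, h2, rfl⟩ := mem_CD.1 ha
  exact ⟨s, hs, b₁, ((blk_iff hm).1 ⟨h1.g, h1.f⟩).1, b₂, ((blk_iff hm).1 ⟨h2.g, h2.f⟩).1, rfl⟩

/-- a subclass = a weight -/
lemma gam_sub {C C' : Set (W3 × W3)} (h : C ⊆ C') (e : W3 × W3 → ℝ≥0∞) (z : ℂ) :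
    gam C e z = gam C' (fun a => if a ∈ C then e a else 0) z := by
  unfold gam
  refine tsum_congr fun a => ?_
  by_cases ha : a ∈ C
  · simp only [ha, h ha, if_true, true_and]
  · by_cases ha' : a ∈ C' <;> simp [ha, ha']

/-- **the weight of the class with double gates**, for weights which vanish outside of the class -/
theorem gam_conD {i j : Fin 3} {r l r2 m κ1 κ : ℝ} (hm : 0 < m) {e : W3 × W3 → ℝ≥0∞}
    (he : ∀ s ∈ StD i j r l (κ1 + κ), ∀ b₁ ∈ Fbi i ⌈2 * m / 3⌉₊, ∀ b₂ ∈ Fbi j ⌈2 * m / 3⌉₊, e (s.1 ++ b₁, s.2 ++ b₂) ≠ 0 →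
      ((∀ k : ℕ, k ≤ b₁.length → ‖ps b₁ k‖ ≤ r2) ∧ ConeK (ax i) κ1 b₁) ∧
        ((∀ k : ℕ, k ≤ b₂.length → ‖ps b₂ k‖ ≤ r2) ∧ ConeK (ax j) κ1 b₂)) (z : ℂ) :
    gam (CD (ax i) (ax j) r l r2 m κ1 κ) e z = gam (CBl (StD i j r l (κ1 + κ)) i j ⌈2 * m / 3⌉₊ ⌈2 * m / 3⌉₊) e z := by
  rw [gam_sub (conD_sub hm)]
  unfold gam
  refine tsum_congr fun a => ?_
  by_cases ha : a ∈ CBl (StD i j r l (κ1 + κ)) i j ⌈2 * m / 3⌉₊ ⌈2 * m / 3⌉₊
  · have h1 : (if a ∈ CD (ax i) (ax j) r l r2 m κ1 κ then e a else 0) = e a := by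
      split_ifs with h
      · rfl
      · obtain ⟨s, hs, b₁, hb₁, b₂, hb₂, rfl⟩ := ha
        by_contra h0
        exact h ((mem_CD_iff hm hs hb₁ hb₂).2 (he s hs b₁ hb₁ b₂ hb₂ (Ne.symm h0)))
    simp only [h1]
  · rw [if_neg fun h => ha h.1, if_neg fun h => ha h.1]

end Pool.Agent.ROT.F3
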