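import Pool.Agent.ROT.F3GamD
import Pool.Agent.ROT.F3LimK

/-!
# ROT / F3GamL (helper69): the weight of the connections on the scale `s N`: `BF` and `AL1`

* `fE` : the linear map with `Lat fE = EL` (`lat_fE`);
* `GamH l s C e tot B R` : sup bound, `L1` modulus, support, total mass of `gam (C N) (e N)` in terms of `tot N`;
* **`GamH.bf`, `GamH.al1`** : the hypotheses of `l3_abs` for `z ↦ a N * gam (C N) (e N) (s N * z)`, `a N * tot N ≤ c * s N ^ 2`.
-/

set_option autoImplicit false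

namespace Pool.Agent.ROT.F3

open Filter Topology
open scoped ENNReal

/-! ### the lattice -/

/-- the linear map of the lattice of the even vertices -/
noncomputable def fE : ℂ ≃ₗ[ℝ] ℂ where
  toFun z := ⟨3 / 2 * z.im, Real.sqrt 3 * z.re - Real.sqrt 3 / 2 * z.im⟩
  invFun w := ⟨w.im / Real.sqrt 3 + w.re / 3, 2 / 3 * w.re⟩
  left_inv z := by
    have h : Real.sqrt 3 ≠ 0 := (Real.sqrt_pos.2 (by norm_num)).ne'
    apply Complex.ext
    · show (Real.sqrt 3 * z.re - Real.sqrt 3 / 2 * z.im) / Real.sqrt 3 + 3 / 2 * z.im / 3 = z.re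
      field_simp
      ring
    · show 2 / 3 * (3 / 2 * z.im) = z.im
      ring
  right_inv w := by
    have h : Real.sqrt 3 ≠ 0 := (Real.sqrt_pos.2 (by norm_num)).ne'
    apply Complex.ext
    · show 3 / 2 * (2 / 3 * w.re) = w.re
      ring
    · show Real.sqrt 3 * (w.im / Real.sqrt 3 + w.re / 3) - Real.sqrt 3 / 2 * (2 / 3 * w.re) = w.im
      field_simp
      ring
  map_add' z w := by
    apply Complex.ext
    · simp only [Complex.add_im, Complex.add_re]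
      ring
    · simp only [Complex.add_im, Complex.add_re]
      ring
  map_smul' c z := by
    apply Complex.ext
    · simp only [Complex.real_smul, Complex.re_ofReal_mul, Complex.im_ofReal_mul, RingHom.id_apply]
      ring
    · simp only [Complex.real_smul, Complex.re_ofReal_mul, Complex.im_ofReal_mul, RingHom.id_apply]
      ring

lemma fE_apply (p q : ℤ) : fE ⟨p, q⟩ = ⟨0, Real.sqrt 3⟩ * ((p : ℂ) * ax 0 + (q : ℂ) * ax 2) := by
  have h3 : Real.sqrt 3 * Real.sqrt 3 = 3 := Real.mul_self_sqrt (by norm_num)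
  show (⟨3 / 2 * (q : ℝ), Real.sqrt 3 * (p : ℝ) - Real.sqrt 3 / 2 * (q : ℝ)⟩ : ℂ) = _
  rw [ax0, ax2]
  apply Complex.ext
  · simp only [Complex.mul_re, Complex.add_re, Complex.add_im, Complex.mul_im, Complex.intCast_re, Complex.intCast_im]
    linear_combination (-(q : ℝ) / 2) * h3
  · simp only [Complex.mul_im, Complex.add_re, Complex.add_im, Complex.mul_re, Complex.intCast_re, Complex.intCast_im]
    ring

theorem lat_fE : Lat fE = EL := by
  ext z
  constructor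
  · rintro ⟨u, rfl⟩
    exact ⟨u.1, u.2, fE_apply u.1 u.2⟩
  · rintro ⟨x, y, rfl⟩
    exact ⟨(x, y), fE_apply x y⟩

/-! ### sums -/

lemma sum_abs {g : ℂ → ℝ≥0∞} {v : ℂ} {D : ℝ≥0∞} (hg : ∑' z, g z ≠ ∞) (hD : D ≠ ∞) (h1 : ∑' z, (g (z + v) - g z) ≤ D)
    (h2 : ∑' z, (g (z + -v) - g z) ≤ D) : ∑' z, |(g (z + v)).toReal - (g z).toReal| ≤ 2 * D.toReal := by
  have hf : ∀ z, g z ≠ ∞ := ENNReal.ne_top_of_tsum_ne_top hg
  have h3 : ∑' z, (g z - g (z + v)) ≤ D := by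
    refine le_trans (le_of_eq ?_) h2
    rw [← (Equiv.addRight v).tsum_eq fun z => g (z + -v) - g z]
    refine tsum_congr fun z => ?_
    rw [Equiv.coe_addRight, add_neg_cancel_right]
  have h4 : ∀ z, |(g (z + v)).toReal - (g z).toReal| = ((g (z + v) - g z) + (g z - g (z + v))).toReal := by
    intro z
    rcases le_total (g z) (g (z + v)) with h | h
    · rw [tsub_eq_zero_of_le h, add_zero, ENNReal.toReal_sub_of_le h (hf _),
        abs_of_nonneg (sub_nonneg.2 (ENNReal.toReal_mono (hf _) h))]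
    · rw [tsub_eq_zero_of_le h, zero_add, ENNReal.toReal_sub_of_le h (hf _), abs_sub_comm,
        abs_of_nonneg (sub_nonneg.2 (ENNReal.toReal_mono (hf _) h))]
  rw [tsum_congr h4, ← ENNReal.tsum_toReal_eq, ENNReal.tsum_add]
  · rw [← ENNReal.toReal_ofNat, ← ENNReal.toReal_mul]
    refine ENNReal.toReal_mono (ENNReal.mul_ne_top (by norm_num) hD) ?_
    refine (add_le_add h1 h3).trans (le_of_eq ?_)
    rw [two_mul]
  · intro z
    exact ENNReal.add_ne_top.2 ⟨ne_top_of_le_ne_top (hf _) tsub_le_self, ne_top_of_le_ne_top (hf _) tsub_le_self⟩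

/-! ### the weights of the connections on the scale `s N` -/

/-- sup bound, `L1` modulus, support, total mass -/
structure GamH (l : Filter ℕ) (s : ℕ → ℝ) (C : ℕ → Set (W3 × W3)) (e : ℕ → W3 × W3 → ℝ≥0∞) (tot : ℕ → ℝ≥0∞)
    (B R : ℝ) : Prop where
  ev : ∀ N, ∀ a ∈ C N, Even a.1.length ∧ Even a.2.length
  fin : ∀ᶠ N in l, tot N ≠ ∞
  sum : ∀ᶠ N in l, ∑' z, gam (C N) (e N) z ≤ tot N
  sup : ∀ᶠ N in l, ∀ z, gam (C N) (e N) z ≤ ENNReal.ofReal (B / s N ^ 2) * tot N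
  supp : ∀ᶠ N in l, ∀ a ∈ C N, e N a ≠ 0 → ‖en a.1 - en a.2‖ < R * s N
  l1 : ∀ ε : ℝ, 0 < ε → ∃ η : ℝ, 0 < η ∧ ∀ᶠ N in l, ∀ v ∈ EL, ‖v‖ ≤ η * s N →
    ∑' z, (gam (C N) (e N) (z + v) - gam (C N) (e N) z) ≤ ENNReal.ofReal ε * tot N

section

variable {l : Filter ℕ} {s a : ℕ → ℝ} {C : ℕ → Set (W3 × W3)} {e : ℕ → W3 × W3 → ℝ≥0∞} {tot : ℕ → ℝ≥0∞} {B R c : ℝ}

lemma gam_ne {C : Set (W3 × W3)} {e : W3 × W3 → ℝ≥0∞} {z : ℂ} (h : gam C e z ≠ 0) :
    ∃ a ∈ C, e a ≠ 0 ∧ en a.1 - en a.2 = z := by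
  unfold gam at h
  rw [Ne, ENNReal.tsum_eq_zero] at h
  push Not at h
  obtain ⟨a, ha⟩ := h
  split_ifs at ha with h1
  · exact ⟨a, h1.1, fun h0 => ha (by rw [h0, mul_zero]), h1.2⟩
  · exact absurd rfl ha

lemma GamH.lat (H : GamH l s C e tot B R) (N : ℕ) (z : ℂ) (h : (gam (C N) (e N) z).toReal ≠ 0) : z ∈ Lat fE := by
  rw [lat_fE]
  obtain ⟨a, ha, -, rfl⟩ := gam_ne (fun h0 => h (by rw [h0, ENNReal.toReal_zero]))
  exact EL_sub (en_EL (H.ev N a ha).1) (en_EL (H.ev N a ha).2)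

lemma GamH.supp' (H : GamH l s C e tot B R) : ∀ᶠ N in l, ∀ z, R * s N ≤ ‖z‖ → (gam (C N) (e N) z).toReal = 0 := by
  filter_upwards [H.supp] with N hN z hz
  by_contra h
  obtain ⟨a, ha, he, rfl⟩ := gam_ne (fun h0 => h (by rw [h0, ENNReal.toReal_zero]))
  exact absurd hz (not_le.2 (hN a ha he))

/-- **`BF`** -/
theorem GamH.bf (H : GamH l s C e tot B R) (hs0 : ∀ N, 0 < s N) (hB : 0 ≤ B) (hc : 0 ≤ c) (hR : 0 ≤ R)
    (ha : ∀ᶠ N in l, 0 ≤ a N ∧ a N * (tot N).toReal ≤ c * s N ^ 2) :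
    BF l (fun N => scl (a N) (s N) fun z => (gam (C N) (e N) z).toReal) (c * B) R := by
  refine bf_gam fE hs0 H.lat (by positivity) hR ?_ H.supp'
  filter_upwards [H.fin, H.sup, ha] with N h1 h2 h3 z
  refine ⟨mul_nonneg h3.1 ENNReal.toReal_nonneg, ?_⟩
  have hs := hs0 N
  have h4 : (gam (C N) (e N) z).toReal ≤ B / s N ^ 2 * (tot N).toReal := by
    have h5 := ENNReal.toReal_mono (ENNReal.mul_ne_top ENNReal.ofReal_ne_top h1) (h2 z)
    rwa [ENNReal.toReal_mul, ENNReal.toReal_ofReal (by positivity)] at h5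
  calc a N * (gam (C N) (e N) z).toReal ≤ a N * (B / s N ^ 2 * (tot N).toReal) := mul_le_mul_of_nonneg_left h4 h3.1
    _ = B / s N ^ 2 * (a N * (tot N).toReal) := by ring
    _ ≤ B / s N ^ 2 * (c * s N ^ 2) := mul_le_mul_of_nonneg_left h3.2 (by positivity)
    _ = c * B := by field_simp

/-- **`AL1`** -/
theorem GamH.al1 (H : GamH l s C e tot B R) (hs0 : ∀ N, 0 < s N) (hs : Tendsto s l atTop) (hc : 0 ≤ c)
    (ha : ∀ᶠ N in l, 0 ≤ a N ∧ a N * (tot N).toReal ≤ c * s N ^ 2) :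
    AL1 l (fun N => Pool.Agent.ROT.F3L.lms fE (s N) 0) (fun N => scl (a N) (s N) fun z => (gam (C N) (e N) z).toReal) := by
  refine al1_gam fE hs0 hs (ha.mono fun N h => h.1) H.lat H.supp' fun ε hε => ?_
  obtain ⟨η, hη, h1⟩ := H.l1 (ε / (2 * (c + 1))) (by positivity)
  refine ⟨η, hη, ?_⟩
  filter_upwards [h1, H.fin, H.sum, ha] with N hN hf hsum haN v hv hvn
  rw [lat_fE] at hv
  have h2 := hN v hv hvn
  have h3 := hN (-v) (EL_neg hv) (by rw [norm_neg]; exact hvn)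
  have h4 := sum_abs (ne_top_of_le_ne_top hf hsum) (ENNReal.mul_ne_top ENNReal.ofReal_ne_top hf) h2 h3
  rw [ENNReal.toReal_mul, ENNReal.toReal_ofReal (by positivity)] at h4
  have hs2 : 0 ≤ s N ^ 2 := by positivity
  calc a N * ∑' z : ℂ, |(gam (C N) (e N) (z + v)).toReal - (gam (C N) (e N) z).toReal|
      ≤ a N * (2 * (ε / (2 * (c + 1)) * (tot N).toReal)) := mul_le_mul_of_nonneg_left h4 haN.1
    _ = ε / (c + 1) * (a N * (tot N).toReal) := by
        field_simp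
    _ ≤ ε / (c + 1) * (c * s N ^ 2) := mul_le_mul_of_nonneg_left haN.2 (by positivity)
    _ = ε * s N ^ 2 * (c / (c + 1)) := by ring
    _ ≤ ε * s N ^ 2 * 1 := mul_le_mul_of_nonneg_left ((div_le_one (by positivity)).2 (by linarith)) (by positivity)
    _ = ε * s N ^ 2 := mul_one _

end

end Pool.Agent.ROT.F3
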