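import Pool.Agent.ROT.F3GamB
import Pool.Agent.ROT.F3Dic
import Pool.Agent.ROT.F3Dbl

/-!
# ROT / F3GamO (helper69): replacing a small initial piece of a block

* `SwW D A w w'` : `w = u ++ v`, `w' = u' ++ v`, `u`, `u'` in the ball `D`, at most `A` letters;
* `sB`, `sC` : the statistics (ball, cone) of a block; `osW h w` = the greatest displacement in at most `h` letters;
* **`SwW.sB`, `SwW.sC`, `SwW.len`, `SwW.osW`** : the oscillation of the statistics;
* **`SwW.dist`** : the curves of the two blocks, read backwards, each with its own length.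
-/

set_option autoImplicit false

namespace Pool.Agent.ROT.F3

open Finset ComplexConjugate
open scoped Classical

/-! ### polygons with almost the same time -/

/-- a convex combination of two differences -/
private lemma conv_le' {a b x : ℂ} {w W : ℝ} (h0 : 0 ≤ w) (h1 : w ≤ 1) (ha : ‖a - x‖ ≤ W) (hb : ‖b - x‖ ≤ W) :
    ‖a + ((w : ℝ) : ℂ) * (b - a) - x‖ ≤ W := by
  have e : a + ((w : ℝ) : ℂ) * (b - a) - x = ((1 - w : ℝ) : ℂ) * (a - x) + ((w : ℝ) : ℂ) * (b - x) := by
    push_cast
    ring
  rw [e]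
  refine (norm_add_le _ _).trans ?_
  rw [norm_mul, norm_mul, Complex.norm_of_nonneg (by linarith : (0 : ℝ) ≤ 1 - w), Complex.norm_of_nonneg h0]
  have a1 := mul_le_mul_of_nonneg_left ha (by linarith : (0 : ℝ) ≤ 1 - w)
  have a2 := mul_le_mul_of_nonneg_left hb h0
  linarith

lemma poly_tm {z y : ℕ → ℂ} {n N D : ℕ} {W : ℝ} (hn : 1 ≤ n) (hN1 : 1 ≤ N) (hN : n ≤ N + D) (hD : N ≤ n + D)
    (h : ∀ i j, i ≤ n → j ≤ N → i ≤ j + (D + 2) → j ≤ i + (D + 2) → ‖z i - y j‖ ≤ W) (u : unitInterval) :
    ‖Tight.poly z n u - Tight.poly y N u‖ ≤ W := by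
  have hu0 := u.2.1
  have hu1 := u.2.2
  obtain ⟨i, hi, a1, a2⟩ := Tight.th2_idx hn u
  obtain ⟨j, hj, b1, b2⟩ := Tight.th2_idx hN1 u
  have c0 : ((u : unitInterval) : ℝ) * D ≤ 1 * D := mul_le_mul_of_nonneg_right hu1 (Nat.cast_nonneg _)
  have c1 : ((u : unitInterval) : ℝ) * n ≤ u * N + D := by
    have : ((n : ℕ) : ℝ) ≤ N + D := by exact_mod_cast hN
    have h1 : ((u : unitInterval) : ℝ) * n ≤ u * (N + D) := mul_le_mul_of_nonneg_left this hu0
    linarith
  have c2 : ((u : unitInterval) : ℝ) * N ≤ u * n + D := by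
    have : ((N : ℕ) : ℝ) ≤ n + D := by exact_mod_cast hD
    have h1 : ((u : unitInterval) : ℝ) * N ≤ u * (n + D) := mul_le_mul_of_nonneg_left this hu0
    linarith
  have d1 : i ≤ j + 1 + D := by
    have : ((i : ℕ) : ℝ) ≤ j + 1 + D := by linarith
    exact_mod_cast this
  have d2 : j ≤ i + 1 + D := by
    have : ((j : ℕ) : ℝ) ≤ i + 1 + D := by linarith
    exact_mod_cast this
  rw [Tight.poly_apply hi a1 a2, Tight.poly_apply hj b1 b2]
  have w0 : 0 ≤ ((u : unitInterval) : ℝ) * n - i := by linarith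
  have w1 : ((u : unitInterval) : ℝ) * n - i ≤ 1 := by linarith
  have v0 : 0 ≤ ((u : unitInterval) : ℝ) * N - j := by linarith
  have v1 : ((u : unitInterval) : ℝ) * N - j ≤ 1 := by linarith
  have k1 : ∀ i', i' = i ∨ i' = i + 1 → ‖z i' - (y j + (((u : unitInterval) * N - j : ℝ) : ℂ) * (y (j + 1) - y j))‖ ≤ W := by
    intro i' hi'
    rw [norm_sub_rev]
    refine conv_le' v0 v1 ?_ ?_
    · rw [norm_sub_rev]
      exact h i' j (by omega) (by omega) (by omega) (by omega)
    · rw [norm_sub_rev]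
      exact h i' (j + 1) (by omega) (by omega) (by omega) (by omega)
  have k2 := conv_le' (a := z i) (b := z (i + 1))
    (x := y j + (((u : unitInterval) * N - j : ℝ) : ℂ) * (y (j + 1) - y j)) w0 w1 (k1 i (Or.inl rfl)) (k1 (i + 1) (Or.inr rfl))
  push_cast at k2 ⊢
  exact k2

/-! ### statistics -/

/-- the greatest distance from the start -/
noncomputable def sB (w : W3) : ℝ := (Finset.range (w.length + 1)).sup' (Finset.nonempty_range_iff.2 (Nat.succ_ne_zero _)) fun k => ‖ps w k‖

lemma sB_le {w : W3} {r : ℝ} : sB w ≤ r ↔ ∀ k : ℕ, k ≤ w.length → ‖ps w k‖ ≤ r := by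
  unfold sB
  rw [Finset.sup'_le_iff]
  exact ⟨fun h k hk => h k (Finset.mem_range.2 (by omega)), fun h k hk => h k (by have := Finset.mem_range.1 hk; omega)⟩

lemma le_sB {w : W3} {k : ℕ} (hk : k ≤ w.length) : ‖ps w k‖ ≤ sB w := sB_le.1 le_rfl k hk

/-- the least offset of the cone of cosine `c` about `d` -/
noncomputable def sC (d : ℂ) (c : ℝ) (w : W3) : ℝ :=
  (Finset.range (w.length + 1)).sup' (Finset.nonempty_range_iff.2 (Nat.succ_ne_zero _)) fun k => c * ‖ps w k‖ - lv d (ps w k)

lemma sC_le {d : ℂ} {c κ : ℝ} {w : W3} : sC d c w ≤ κ ↔ ∀ k : ℕ, k ≤ w.length → c * ‖ps w k‖ - κ ≤ lv d (ps w k) := by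
  unfold sC
  rw [Finset.sup'_le_iff]
  constructor
  · intro h k hk
    have := h k (Finset.mem_range.2 (by omega))
    linarith
  · intro h k hk
    have := h k (by have := Finset.mem_range.1 hk; omega)
    linarith

/-- the greatest displacement in at most `h` letters -/
noncomputable def osW (h : ℕ) (w : W3) : ℝ :=
  (((Finset.range (w.length + 1) ×ˢ Finset.range (w.length + 1)).filter fun p : ℕ × ℕ => p.1 ≤ p.2 ∧ p.2 ≤ p.1 + h).sup'
    ⟨(0, 0), Finset.mem_filter.2 ⟨Finset.mem_product.2 ⟨Finset.mem_range.2 (Nat.succ_pos _), Finset.mem_range.2 (Nat.succ_pos _)⟩, le_rfl,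
      Nat.zero_le _⟩⟩ fun p => ‖ps w p.1 - ps w p.2‖)

lemma le_osW {h : ℕ} {w : W3} {i j : ℕ} (hij : i ≤ j + h) (hji : j ≤ i + h) (hi : i ≤ w.length) (hj : j ≤ w.length) :
    ‖ps w i - ps w j‖ ≤ osW h w := by
  have key : ∀ a b : ℕ, a ≤ b → b ≤ a + h → b ≤ w.length → ‖ps w a - ps w b‖ ≤ osW h w := by
    intro a b h1 h2 h3
    have hm : (a, b) ∈ (Finset.range (w.length + 1) ×ˢ Finset.range (w.length + 1)).filter fun p : ℕ × ℕ =>
        p.1 ≤ p.2 ∧ p.2 ≤ p.1 + h := by
      rw [Finset.mem_filter, Finset.mem_product, Finset.mem_range, Finset.mem_range]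
      exact ⟨⟨by omega, by omega⟩, h1, h2⟩
    exact Finset.le_sup' (f := fun p : ℕ × ℕ => ‖ps w p.1 - ps w p.2‖) hm
  rcases le_total i j with h1 | h1
  · exact key i j h1 hji hj
  · rw [norm_sub_rev]
    exact key j i h1 hij hi

lemma osW_nonneg (h : ℕ) (w : W3) : 0 ≤ osW h w :=
  (norm_nonneg _).trans (le_osW (i := 0) (j := 0) (h := h) (Nat.zero_le _) (Nat.zero_le _) (Nat.zero_le _) (Nat.zero_le _))

lemma osW_le {h : ℕ} {w : W3} {W : ℝ} (H : ∀ i j : ℕ, i ≤ j → j ≤ i + h → j ≤ w.length → ‖ps w i - ps w j‖ ≤ W) : osW h w ≤ W := by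
  unfold osW
  refine Finset.sup'_le _ _ fun p hp => ?_
  rw [Finset.mem_filter, Finset.mem_product, Finset.mem_range, Finset.mem_range] at hp
  exact H p.1 p.2 hp.2.1 hp.2.2 (by omega)

lemma lt_osW {h : ℕ} {w : W3} {W : ℝ} (H : W < osW h w) : ∃ i j : ℕ, i ≤ j ∧ j ≤ i + h ∧ j ≤ w.length ∧ W < ‖ps w i - ps w j‖ := by
  by_contra hc
  push Not at hc
  exact absurd H (not_lt.2 (osW_le hc))

lemma osW_mono {h h' : ℕ} (hh : h ≤ h') (w : W3) : osW h w ≤ osW h' w :=
  osW_le fun i j h1 h2 h3 => le_osW (by omega) (by omega) (by omega) h3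

/-! ### replacing the initial piece -/

/-- `w`, `w'` differ in an initial piece, which is in the ball `D` and has at most `A` letters -/
def SwW (D A : ℝ) (w w' : W3) : Prop := ∃ u u' v : W3, Even u.length ∧ Even u'.length ∧ w = u ++ v ∧ w' = u' ++ v ∧
  (∀ i : ℕ, i ≤ u.length → ‖ps u i‖ ≤ D) ∧ (∀ i : ℕ, i ≤ u'.length → ‖ps u' i‖ ≤ D) ∧ (u.length : ℝ) ≤ A ∧ (u'.length : ℝ) ≤ A

section

variable {D A : ℝ} {w w' : W3}

lemma SwW.symm (h : SwW D A w w') : SwW D A w' w := by
  obtain ⟨u, u', v, h1, h2, h3, h4, h5, h6, h7, h8⟩ := h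
  exact ⟨u', u, v, h2, h1, h4, h3, h6, h5, h8, h7⟩

lemma SwW.D0 (h : SwW D A w w') : 0 ≤ D := by
  obtain ⟨u, u', v, h1, h2, h3, h4, h5, h6, h7, h8⟩ := h
  have := h5 0 (Nat.zero_le _)
  rwa [ps_zero, norm_zero] at this

lemma SwW.A0 (h : SwW D A w w') : 0 ≤ A := by
  obtain ⟨u, u', v, h1, h2, h3, h4, h5, h6, h7, h8⟩ := h
  exact (Nat.cast_nonneg _).trans h7

/-- every vertex has a partner -/
lemma SwW.near (h : SwW D A w w') {k : ℕ} (hk : k ≤ w.length) : ∃ k' : ℕ, k' ≤ w'.length ∧ ‖ps w k - ps w' k'‖ ≤ 2 * D := by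
  have hD := h.D0
  obtain ⟨u, u', v, h1, h2, h3, h4, h5, h6, h7, h8⟩ := h
  subst h3
  subst h4
  rw [List.length_append] at hk
  rcases Nat.lt_or_ge k u.length with h | h
  · refine ⟨0, Nat.zero_le _, ?_⟩
    rw [ps_zero, sub_zero, ps_append_left h.le]
    linarith [h5 k h.le]
  · refine ⟨u'.length + (k - u.length), by rw [List.length_append]; omega, ?_⟩
    rw [ps_append_right' h1 h, ps_append_right' h2 (by omega), Nat.add_sub_cancel_left, add_sub_add_right_eq_sub]
    have e1 := h5 u.length le_rfl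
    have e2 := h6 u'.length le_rfl
    calc ‖en u - en u'‖ ≤ ‖en u‖ + ‖en u'‖ := norm_sub_le _ _
      _ ≤ D + D := add_le_add e1 e2
      _ = 2 * D := by ring

lemma SwW.sB_le (h : SwW D A w w') : sB w ≤ sB w' + 2 * D := by
  refine F3.sB_le.2 fun k hk => ?_
  obtain ⟨k', hk', h1⟩ := h.near hk
  have h2 := le_sB hk'
  have h3 := norm_sub_norm_le (ps w k) (ps w' k')
  linarith

/-- **the ball** -/
theorem SwW.sB (h : SwW D A w w') : |sB w - sB w'| ≤ 2 * D := by
  rw [abs_le]
  have h1 := h.sB_le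
  have h2 := h.symm.sB_le
  constructor <;> linarith

lemma lv_sub_nm {d : ℂ} (hd : ‖d‖ = 1) (x y : ℂ) : |lv d x - lv d y| ≤ ‖x - y‖ := by
  have h1 : lv d x - lv d y = lv d (x - y) := by
    unfold lv
    rw [mul_sub, Complex.sub_re]
  rw [h1]
  unfold lv
  refine (Complex.abs_re_le_norm _).trans ?_
  rw [norm_mul, RCLike.norm_conj, hd, one_mul]

lemma SwW.sC_le {d : ℂ} {c : ℝ} (hd : ‖d‖ = 1) (hc : 0 ≤ c) (hc1 : c ≤ 1) (h : SwW D A w w') : sC d c w ≤ sC d c w' + 4 * D := by
  refine F3.sC_le.2 fun k hk => ?_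
  obtain ⟨k', hk', h1⟩ := h.near hk
  have h2 := F3.sC_le.1 (le_refl (sC d c w')) k' hk'
  have h3 := norm_sub_norm_le (ps w k) (ps w' k')
  have h4 := lv_sub_nm hd (ps w k) (ps w' k')
  rw [abs_le] at h4
  have h5 : c * (‖ps w k‖ - ‖ps w' k'‖) ≤ 2 * D := by
    have hD := h.D0
    have h6 : c * (‖ps w k‖ - ‖ps w' k'‖) ≤ c * (2 * D) := mul_le_mul_of_nonneg_left (h3.trans h1) hc
    have h7 : c * (2 * D) ≤ 1 * (2 * D) := mul_le_mul_of_nonneg_right hc1 (by linarith)
    linarith
  have h6 := h4.1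
  linarith

/-- **the cone** -/
theorem SwW.sC {d : ℂ} {c : ℝ} (hd : ‖d‖ = 1) (hc : 0 ≤ c) (hc1 : c ≤ 1) (h : SwW D A w w') : |sC d c w - sC d c w'| ≤ 4 * D := by
  rw [abs_le]
  have h1 := h.sC_le hd hc hc1
  have h2 := h.symm.sC_le hd hc hc1
  constructor <;> linarith

/-- **the letters** -/
theorem SwW.len (h : SwW D A w w') : |(w.length : ℝ) - w'.length| ≤ A := by
  obtain ⟨u, u', v, h1, h2, h3, h4, h5, h6, h7, h8⟩ := h
  subst h3
  subst h4
  rw [List.length_append, List.length_append]
  push_cast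
  rw [add_sub_add_right_eq_sub, abs_le]
  have e1 : (0 : ℝ) ≤ u.length := by positivity
  have e2 : (0 : ℝ) ≤ u'.length := by positivity
  constructor <;> linarith

/-- **the modulus** -/
theorem SwW.osW_le (h : SwW D A w w') (n : ℕ) : osW n w ≤ osW n w' + 2 * D := by
  have hD := h.D0
  obtain ⟨u, u', v, h1, h2, h3, h4, h5, h6, h7, h8⟩ := h
  subst h3
  subst h4
  have h0 := osW_nonneg n (u' ++ v)
  refine F3.osW_le fun i j hij hji hj => ?_
  rw [List.length_append] at hj
  rcases Nat.lt_or_ge j u.length with h | h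
  · rw [ps_append_left (by omega), ps_append_left h.le]
    have e1 := h5 i (by omega)
    have e2 := h5 j h.le
    have := norm_sub_le (ps u i) (ps u j)
    linarith
  rw [ps_append_right' h1 h]
  rcases Nat.lt_or_ge i u.length with h' | h'
  · rw [ps_append_left h'.le]
    have e1 := h5 i h'.le
    have e2 := h5 u.length le_rfl
    have e3 := le_osW (h := n) (w := u' ++ v) (i := u'.length) (j := u'.length + (j - u.length)) (by omega) (by omega)
      (by rw [List.length_append]; omega) (by rw [List.length_append]; omega)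
    rw [ps_append_right' h2 le_rfl, ps_append_right' h2 (by omega), Nat.add_sub_cancel_left, Nat.sub_self, ps_zero, add_zero,
      sub_add_cancel_left, norm_neg] at e3
    have e4 : ps u i - (en u + ps v (j - u.length)) = (ps u i - en u) - ps v (j - u.length) := by ring
    rw [e4]
    have e5 := norm_sub_le (ps u i - en u) (ps v (j - u.length))
    have e6 := norm_sub_le (ps u i) (en u)
    have e7 : ‖en u‖ ≤ D := e2
    linarith
  · rw [ps_append_right' h1 h', add_sub_add_left_eq_sub]
    have e3 := le_osW (h := n) (w := u' ++ v) (i := u'.length + (i - u.length)) (j := u'.length + (j - u.length)) (by omega) (by omega)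
      (by rw [List.length_append]; omega) (by rw [List.length_append]; omega)
    rw [ps_append_right' h2 (by omega), ps_append_right' h2 (by omega), Nat.add_sub_cancel_left, Nat.add_sub_cancel_left,
      add_sub_add_left_eq_sub] at e3
    linarith

/-- **the curves of the blocks, read backwards** -/
theorem SwW.dist (h : SwW D A w w') (he : Even w.length) (h0 : 1 ≤ w.length) (h0' : 1 ≤ w'.length)
    {n : ℕ} (hn : A ≤ n) {v : ℂ} (hv : ‖v‖ = 1) {N : ℝ} (hN : 0 < N) :
    Dist.dist (v • crv w.reverse w.reverse.length N) (v • crv w'.reverse w'.reverse.length N) ≤ (osW (n + 2) w + 4 * D) / N := by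
  have hD := h.D0
  have hlen := h.len
  obtain ⟨u, u', r, h1, h2, h3, h4, h5, h6, h7, h8⟩ := h
  have hle : Even r.length := by
    rw [h3, List.length_append] at he
    exact (Nat.even_add.1 he).1 h1
  have he' : Even w'.length := by
    rw [h4, List.length_append]
    exact h2.add hle
  have hos := osW_nonneg (n + 2) w
  rw [ContinuousMap.dist_le (by positivity)]
  intro x
  show Dist.dist (v • crv w.reverse w.reverse.length N x) (v • crv w'.reverse w'.reverse.length N x) ≤ _
  rw [dist_eq_norm, ← smul_sub, norm_smul, hv, one_mul]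
  unfold crv
  rw [List.length_reverse, List.length_reverse]
  rw [abs_le] at hlen
  have l1 : w.length ≤ w'.length + n := by
    have : (w.length : ℝ) ≤ w'.length + n := by linarith [hlen.2]
    exact_mod_cast this
  have l2 : w'.length ≤ w.length + n := by
    have : (w'.length : ℝ) ≤ w.length + n := by linarith [hlen.1]
    exact_mod_cast this
  refine poly_tm h0 h0' l1 l2 (fun i j hi hj hij hji => ?_) x
  rw [← sub_div, norm_div, Complex.norm_real, Real.norm_of_nonneg hN.le]
  refine div_le_div_of_nonneg_right ?_ hN.le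
  rw [ps_reverse he hi, ps_reverse he' hj]
  -- the common part
  obtain ⟨g, hg⟩ : ∃ g : ℕ → ℂ, g = fun a => ps r (r.length - a) - en r := ⟨_, rfl⟩
  have key : ∀ (u w : W3), Even u.length → w = u ++ r → (∀ i : ℕ, i ≤ u.length → ‖ps u i‖ ≤ D) → ∀ i : ℕ, i ≤ w.length →
      ‖ps w (w.length - i) - en w - g (min i r.length)‖ ≤ 2 * D := by
    intro u w h1 h3 h5 i hi
    have e0 : en w = en u + en r := by rw [h3, en_append h1]
    have el : w.length = u.length + r.length := by rw [h3, List.length_append]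
    rcases Nat.le_or_ge i r.length with h | h
    · rw [min_eq_left h, hg, e0]
      have e1 : ps w (w.length - i) = en u + ps r (r.length - i) := by
        rw [h3, ps_append_right' h1 (by rw [List.length_append]; omega)]
        congr 2
        rw [List.length_append]
        omega
      rw [e1]
      have e2 : en u + ps r (r.length - i) - (en u + en r) - (ps r (r.length - i) - en r) = 0 := by ring
      simp only [e2, norm_zero]
      positivity
    · rw [min_eq_right h, hg, e0]
      have e1 : ps w (w.length - i) = ps u (w.length - i) := by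
        rw [h3, ps_append_left (by rw [List.length_append]; omega)]
      rw [e1]
      have e2 : ps u (w.length - i) - (en u + en r) - (ps r (r.length - r.length) - en r) = ps u (w.length - i) - en u := by
        rw [Nat.sub_self, ps_zero]
        ring
      simp only [e2]
      have e3 := h5 (w.length - i) (by omega)
      have e4 : ‖en u‖ ≤ D := h5 u.length le_rfl
      have e5 := norm_sub_le (ps u (w.length - i)) (en u)
      linarith
  have k1 := key u w h1 h3 h5 i hi
  have k2 := key u' w' h2 h4 h6 j hj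
  have k3 : ‖g (min i r.length) - g (min j r.length)‖ ≤ osW (n + 2) w := by
    rw [hg]
    simp only
    rw [sub_sub_sub_cancel_right]
    have el : w.length = u.length + r.length := by rw [h3, List.length_append]
    have e1 : ∀ a : ℕ, a ≤ r.length → ps w (u.length + (r.length - a)) = en u + ps r (r.length - a) := by
      intro a ha
      rw [h3, ps_append_right' h1 (by omega), Nat.add_sub_cancel_left]
    have e2 := le_osW (h := n + 2) (w := w) (i := u.length + (r.length - min i r.length)) (j := u.length + (r.length - min j r.length))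
      (by omega) (by omega) (by omega) (by omega)
    rw [e1 _ (min_le_right _ _), e1 _ (min_le_right _ _), add_sub_add_left_eq_sub] at e2
    exact e2
  have e : ps w (w.length - i) - en w - (ps w' (w'.length - j) - en w') =
      (ps w (w.length - i) - en w - g (min i r.length)) - (ps w' (w'.length - j) - en w' - g (min j r.length)) +
        (g (min i r.length) - g (min j r.length)) := by ring
  rw [e]
  refine (norm_add_le _ _).trans ?_
  have e2 := norm_sub_le (ps w (w.length - i) - en w - g (min i r.length)) (ps w' (w'.length - j) - en w' - g (min j r.length))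
  linarith

end

end Pool.Agent.ROT.F3
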