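import Pool.Agent.ROT.F3Lim

/-!
# F3, row L3: vague limits of bounded densities along an ultrafilter (helper15)

* `ulim_ex` : bounded sequences converge along an ultrafilter;
* **`vlim`** : measures `m N` with `m N → c · Lebesgue` (compactly supported continuous functions) along the ultrafilter `U`, and
  functions `0 ≤ h N ≤ C`: there is a measurable `g`, `0 ≤ g ≤ C`, with `∫ h N Ψ dm N → c ∫ g Ψ` for all `Ψ`.
-/

set_option autoImplicit false

open MeasureTheory Set Filter Topology TopologicalSpace CompactlySupported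

open scoped ENNReal NNReal

namespace Pool.Agent.ROT.F3

/-- bounded sequences converge along an ultrafilter -/
lemma ulim_ex (U : Ultrafilter ℕ) {a : ℕ → ℝ} {M : ℝ} (h : ∀ᶠ N in (U : Filter ℕ), |a N| ≤ M) :
    ∃ x : ℝ, |x| ≤ M ∧ Tendsto a U (𝓝 x) := by
  have hc : IsCompact (Icc (-M) M) := isCompact_Icc
  have h1 : ((U.map a : Ultrafilter ℝ) : Filter ℝ) ≤ 𝓟 (Icc (-M) M) := by
    rw [le_principal_iff, Ultrafilter.coe_map]
    exact h.mono fun N hN => abs_le.1 hN
  obtain ⟨x, hx, h2⟩ := hc.ultrafilter_le_nhds (U.map a) h1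
  exact ⟨x, abs_le.2 hx, h2⟩

/-- a continuous cutoff -/
noncomputable def cutn (n : ℕ) (z : ℂ) : ℝ := max 0 (min 1 ((n : ℝ) + 1 - ‖z‖))

lemma cutn_cont (n : ℕ) : Continuous (cutn n) := by
  unfold cutn
  fun_prop

lemma cutn_01 (n : ℕ) (z : ℂ) : 0 ≤ cutn n z ∧ cutn n z ≤ 1 :=
  ⟨le_max_left _ _, max_le zero_le_one (min_le_left _ _)⟩

lemma cutn_mono (n : ℕ) (z : ℂ) : cutn n z ≤ cutn (n + 1) z := by
  unfold cutn
  apply max_le_max le_rfl
  apply min_le_min le_rfl
  push_cast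
  linarith

lemma cutn_zero {n : ℕ} {z : ℂ} (h : (n : ℝ) + 1 ≤ ‖z‖) : cutn n z = 0 := by
  unfold cutn
  rw [max_eq_left]
  exact (min_le_right _ _).trans (by linarith)

lemma cutn_one {n : ℕ} {z : ℂ} (h : ‖z‖ ≤ n) : cutn n z = 1 := by
  unfold cutn
  rw [min_eq_left (by linarith), max_eq_right zero_le_one]

lemma cutn_supp (n : ℕ) (f : ℂ → ℝ) : HasCompactSupport fun z => f z * cutn n z := by
  refine HasCompactSupport.intro (isCompact_closedBall (0 : ℂ) (n + 1)) fun z hz => ?_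
  have h1 : (n : ℝ) + 1 ≤ ‖z‖ := by
    rw [mem_closedBall_zero_iff, not_le] at hz
    exact hz.le
  show f z * cutn n z = 0
  rw [cutn_zero h1, mul_zero]

/-- a measure with `∫ f dη ≤ K ∫ f` for the nonnegative compactly supported functions -/
lemma le_of_cc {η : Measure ℂ} {K : ℝ} (hK : 0 ≤ K) (hfin : ∀ s : Set ℂ, IsCompact s → η s ≠ ∞)
    (h : ∀ f : ℂ → ℝ, Continuous f → HasCompactSupport f → (∀ z, 0 ≤ f z) → ∫ z, f z ∂η ≤ K * ∫ z, f z) :
    ∀ S : Set ℂ, MeasurableSet S → η S ≤ ENNReal.ofReal K * volume S := by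
  have : IsFiniteMeasureOnCompacts η := ⟨fun s hs => lt_top_iff_ne_top.2 (hfin s hs)⟩
  have hopen : ∀ O : Set ℂ, IsOpen O → η O ≤ ENNReal.ofReal K * volume O := by
    intro O hO
    obtain ⟨u, u1, u2, u3, u4⟩ := TF.up O hO
    have hc : ∀ n, Continuous fun z => u n z * cutn n z := fun n => (u1 n).cont.mul (cutn_cont n)
    have h0 : ∀ n z, 0 ≤ u n z * cutn n z := fun n z => mul_nonneg ((u1 n).2 z).1 (cutn_01 n z).1
    have hmono : Monotone fun (n : ℕ) (z : ℂ) => ENNReal.ofReal (u n z * cutn n z) := by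
      apply monotone_nat_of_le_succ
      intro n z
      exact ENNReal.ofReal_le_ofReal (mul_le_mul (u3 n z) (cutn_mono n z) (cutn_01 n z).1 ((u1 _).2 z).1)
    have hsup : (fun z : ℂ => ⨆ n, ENNReal.ofReal (u n z * cutn n z)) = O.indicator fun _ => (1 : ℝ≥0∞) := by
      funext z
      refine iSup_eq_of_tendsto (fun n n' hn => hmono hn z) ?_
      have tu : Tendsto (fun n => ENNReal.ofReal (u n z)) atTop (𝓝 (O.indicator (fun _ => (1 : ℝ≥0∞)) z)) := by
        rw [← u4 z]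
        exact tendsto_atTop_iSup (monotone_nat_of_le_succ fun n => ENNReal.ofReal_le_ofReal (u3 n _))
      refine tu.congr' ?_
      obtain ⟨n0, hn0⟩ := exists_nat_ge ‖z‖
      refine eventually_atTop.2 ⟨n0, fun n hn => ?_⟩
      have hz : ‖z‖ ≤ (n : ℝ) := hn0.trans (by exact_mod_cast hn)
      show ENNReal.ofReal (u n z) = ENNReal.ofReal (u n z * cutn n z)
      rw [cutn_one hz, mul_one]
    have key : ∀ m : Measure ℂ, m O = ⨆ n, ∫⁻ z, ENNReal.ofReal (u n z * cutn n z) ∂m := by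
      intro m
      rw [← lintegral_iSup (fun n => (hc n).measurable.ennreal_ofReal) hmono, hsup, lintegral_indicator hO.measurableSet]
      simp
    rw [key η]
    refine iSup_le fun n => ?_
    have hi : Integrable (fun z => u n z * cutn n z) η := (hc n).integrable_of_hasCompactSupport (cutn_supp n (u n))
    have hi' : Integrable (fun z => u n z * cutn n z) volume := (hc n).integrable_of_hasCompactSupport (cutn_supp n (u n))
    rw [← ofReal_integral_eq_lintegral_ofReal hi (ae_of_all _ (h0 n))]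
    calc ENNReal.ofReal (∫ z, u n z * cutn n z ∂η) ≤ ENNReal.ofReal (K * ∫ z, u n z * cutn n z) :=
          ENNReal.ofReal_le_ofReal (h _ (hc n) (cutn_supp n (u n)) (h0 n))
      _ = ENNReal.ofReal K * ∫⁻ z, ENNReal.ofReal (u n z * cutn n z) := by
          rw [ENNReal.ofReal_mul hK, ofReal_integral_eq_lintegral_ofReal hi' (ae_of_all _ (h0 n))]
      _ ≤ ENNReal.ofReal K * volume O := by
          gcongr
          rw [key volume]
          exact le_iSup (fun n => ∫⁻ z, ENNReal.ofReal (u n z * cutn n z)) n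
  intro S _
  refine ENNReal.le_of_forall_pos_le_add fun ε hε _ => ?_
  have he : (0 : ℝ≥0∞) < (ε : ℝ≥0∞) / (ENNReal.ofReal K + 1) :=
    ENNReal.div_pos (by exact_mod_cast hε.ne') (by simp)
  obtain ⟨O, hSO, hO, h1⟩ := S.exists_isOpen_le_add volume he.ne'
  calc η S ≤ η O := measure_mono hSO
    _ ≤ ENNReal.ofReal K * volume O := hopen O hO
    _ ≤ ENNReal.ofReal K * (volume S + (ε : ℝ≥0∞) / (ENNReal.ofReal K + 1)) := by gcongr
    _ = ENNReal.ofReal K * volume S + ENNReal.ofReal K * ((ε : ℝ≥0∞) / (ENNReal.ofReal K + 1)) := mul_add _ _ _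
    _ ≤ ENNReal.ofReal K * volume S + ε := by
        gcongr
        calc ENNReal.ofReal K * ((ε : ℝ≥0∞) / (ENNReal.ofReal K + 1))
            ≤ (ENNReal.ofReal K + 1) * ((ε : ℝ≥0∞) / (ENNReal.ofReal K + 1)) := by
              gcongr
              exact le_self_add
          _ = ε := ENNReal.mul_div_cancel (by simp) (by simp)

/-- **vague limits of bounded densities** -/
theorem vlim (U : Ultrafilter ℕ) {m : ℕ → Measure ℂ} [∀ N, IsFiniteMeasureOnCompacts (m N)] {c C : ℝ} (hc : 0 < c)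
    (hC : 0 ≤ C) (hm : ∀ Ψ : ℂ → ℝ, Continuous Ψ → HasCompactSupport Ψ →
      Tendsto (fun N => ∫ z, Ψ z ∂(m N)) U (𝓝 (c * ∫ z, Ψ z))) {h : ℕ → ℂ → ℝ} (hh : ∀ N, Measurable (h N))
    (hb : ∀ᶠ N in (U : Filter ℕ), ∀ z, 0 ≤ h N z ∧ h N z ≤ C) :
    ∃ g : ℂ → ℝ, Measurable g ∧ (∀ z, 0 ≤ g z ∧ g z ≤ C) ∧ ∀ Ψ : ℂ → ℝ, Continuous Ψ → HasCompactSupport Ψ →
      Tendsto (fun N => ∫ z, h N z * Ψ z ∂(m N)) U (𝓝 (c * ∫ z, g z * Ψ z)) := by
  -- integrability
  have hint : ∀ᶠ N in (U : Filter ℕ), ∀ Ψ : ℂ → ℝ, Continuous Ψ → HasCompactSupport Ψ →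
      Integrable (fun z => h N z * Ψ z) (m N) := by
    filter_upwards [hb] with N hN Ψ h1 h2
    refine (h1.integrable_of_hasCompactSupport h2).bdd_mul (c := C) (hh N).aestronglyMeasurable (ae_of_all _ fun z => ?_)
    rw [Real.norm_eq_abs, abs_of_nonneg (hN z).1]
    exact (hN z).2
  have hbound : ∀ Ψ : ℂ → ℝ, Continuous Ψ → HasCompactSupport Ψ →
      ∀ᶠ N in (U : Filter ℕ), |∫ z, h N z * Ψ z ∂(m N)| ≤ C * ∫ z, |Ψ z| ∂(m N) := by
    intro Ψ h1 h2
    filter_upwards [hb, hint] with N hN hi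
    have h3 : Integrable (fun z => |Ψ z|) (m N) := (h1.integrable_of_hasCompactSupport h2).abs
    calc |∫ z, h N z * Ψ z ∂(m N)| ≤ ∫ z, |h N z * Ψ z| ∂(m N) := abs_integral_le_integral_abs
      _ ≤ ∫ z, C * |Ψ z| ∂(m N) := by
          refine integral_mono (hi Ψ h1 h2).abs (h3.const_mul C) fun z => ?_
          show |h N z * Ψ z| ≤ C * |Ψ z|
          rw [abs_mul, abs_of_nonneg (hN z).1]
          exact mul_le_mul_of_nonneg_right (hN z).2 (abs_nonneg _)
      _ = C * ∫ z, |Ψ z| ∂(m N) := integral_const_mul _ _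
  have hex : ∀ Ψ : C_c(ℂ, ℝ), ∃ x : ℝ, Tendsto (fun N => ∫ z, h N z * Ψ z ∂(m N)) U (𝓝 x) := by
    intro Ψ
    have h1 : Tendsto (fun N => C * ∫ z, |Ψ z| ∂(m N)) U (𝓝 (C * (c * ∫ z, |Ψ z|))) :=
      (hm (fun z => |Ψ z|) Ψ.continuous.abs (Ψ.hasCompactSupport.comp_left abs_zero)).const_mul C
    have h2 : ∀ᶠ N in (U : Filter ℕ), |∫ z, h N z * Ψ z ∂(m N)| ≤ C * (c * ∫ z, |Ψ z|) + 1 := by
      filter_upwards [hbound Ψ Ψ.continuous Ψ.hasCompactSupport, h1.eventually_lt_const (lt_add_one _)] with N a b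
      exact a.trans b.le
    obtain ⟨x, -, hx⟩ := ulim_ex U h2
    exact ⟨x, hx⟩
  choose L hL using hex
  have hLadd : ∀ f g : C_c(ℂ, ℝ), L (f + g) = L f + L g := by
    intro f g
    refine tendsto_nhds_unique (hL (f + g)) (((hL f).add (hL g)).congr' ?_)
    filter_upwards [hint] with N hi
    rw [← integral_add (hi f f.continuous f.hasCompactSupport) (hi g g.continuous g.hasCompactSupport)]
    refine integral_congr_ae (ae_of_all _ fun z => ?_)
    show h N z * f z + h N z * g z = h N z * (f + g) z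
    rw [CompactlySupportedContinuousMap.add_apply]
    ring
  have hLsmul : ∀ (r : ℝ) (f : C_c(ℂ, ℝ)), L (r • f) = r * L f := by
    intro r f
    refine tendsto_nhds_unique (hL (r • f)) (((hL f).const_mul r).congr fun N => ?_)
    rw [← integral_const_mul]
    refine integral_congr_ae (ae_of_all _ fun z => ?_)
    show r * (h N z * f z) = h N z * (r • f) z
    rw [CompactlySupportedContinuousMap.smul_apply, smul_eq_mul]
    ring
  have hLpos : ∀ f : C_c(ℂ, ℝ), 0 ≤ f → 0 ≤ L f := by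
    intro f hf
    refine ge_of_tendsto (hL f) ?_
    filter_upwards [hb] with N hN
    exact integral_nonneg fun z => mul_nonneg (hN z).1 (hf z)
  let Λ : C_c(ℂ, ℝ) →ₚ[ℝ] ℝ := PositiveLinearMap.mk₀
    { toFun := L, map_add' := hLadd, map_smul' := fun r f => by rw [hLsmul, smul_eq_mul, RingHom.id_apply] } hLpos
  set η : Measure ℂ := RealRMK.rieszMeasure Λ with hη
  have hηL : ∀ f : C_c(ℂ, ℝ), ∫ z, f z ∂η = L f := fun f => RealRMK.integral_rieszMeasure Λ f
  have hle : ∀ S : Set ℂ, MeasurableSet S → η S ≤ ENNReal.ofReal (C * c) * volume S := by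
    refine le_of_cc (mul_nonneg hC hc.le) (fun s hs => hs.measure_lt_top.ne) fun f h1 h2 h3 => ?_
    have e1 := hηL ⟨⟨f, h1⟩, h2⟩
    have e2 : ∫ z, f z ∂η = L ⟨⟨f, h1⟩, h2⟩ := e1
    rw [e2]
    have t1 : Tendsto (fun N => C * ∫ z, f z ∂(m N)) U (𝓝 (C * (c * ∫ z, f z))) := (hm f h1 h2).const_mul C
    rw [show C * c * ∫ z, f z = C * (c * ∫ z, f z) by ring]
    refine le_of_tendsto_of_tendsto (hL ⟨⟨f, h1⟩, h2⟩) t1 ?_
    filter_upwards [hbound f h1 h2] with N hN
    refine (le_abs_self _).trans (hN.trans (le_of_eq ?_))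
    congr 1
    exact integral_congr_ae (ae_of_all _ fun z => abs_of_nonneg (h3 z))
  have hle' : η ≤ ENNReal.ofReal (C * c) • volume := by
    rw [Measure.le_iff]
    intro s hs
    rw [Measure.smul_apply, smul_eq_mul]
    exact hle s hs
  have hac : η ≪ volume := by
    refine Measure.AbsolutelyContinuous.mk fun s hs h0 => ?_
    have h1 := hle s hs
    rw [h0, mul_zero] at h1
    exact le_antisymm h1 bot_le
  have hden : volume.withDensity (η.rnDeriv volume) = η := Measure.withDensity_rnDeriv_eq η volume hac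
  have hrn : Measurable (η.rnDeriv volume) := Measure.measurable_rnDeriv η volume
  have hae : (η.rnDeriv volume) ≤ᵐ[volume] fun _ => ENNReal.ofReal (C * c) := by
    refine ae_le_of_forall_setLIntegral_le_of_sigmaFinite hrn fun s hs _ => ?_
    rw [← withDensity_apply _ hs, hden, lintegral_const, Measure.restrict_apply_univ]
    exact hle s hs
  refine ⟨fun z => min ((η.rnDeriv volume z).toReal / c) C, (hrn.ennreal_toReal.div_const c).min measurable_const,
    fun z => ⟨le_min (div_nonneg ENNReal.toReal_nonneg hc.le) hC, min_le_right _ _⟩, fun Ψ h1 h2 => ?_⟩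
  have e1 : ∫ z, Ψ z ∂η = c * ∫ z, min ((η.rnDeriv volume z).toReal / c) C * Ψ z := by
    have hfin : ∀ᵐ z ∂(volume : Measure ℂ), η.rnDeriv volume z < ∞ := by
      filter_upwards [hae] with z hz
      exact hz.trans_lt ENNReal.ofReal_lt_top
    rw [← hden, integral_withDensity_eq_integral_toReal_smul hrn hfin, ← integral_const_mul, hden]
    refine integral_congr_ae ?_
    filter_upwards [hae] with z hz
    have h3 : (η.rnDeriv volume z).toReal ≤ C * c := by
      have h4 := ENNReal.toReal_mono ENNReal.ofReal_ne_top hz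
      rwa [ENNReal.toReal_ofReal (mul_nonneg hC hc.le)] at h4
    have h5 : (η.rnDeriv volume z).toReal / c ≤ C := by rwa [div_le_iff₀ hc]
    rw [min_eq_left h5, smul_eq_mul]
    field_simp
  have e2 := hηL ⟨⟨Ψ, h1⟩, h2⟩
  have e3 : ∫ z, Ψ z ∂η = L ⟨⟨Ψ, h1⟩, h2⟩ := e2
  rw [← e1, e3]
  exact hL ⟨⟨Ψ, h1⟩, h2⟩

end Pool.Agent.ROT.F3
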