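import Pool.Agent.ROT.F3Cut
import Pool.Agent.ROT.F3Gam

/-!
# ROT / F3Pair (helper48): the mass of the closed words with two roots is a product up to a relative error

Generic form of the rows F7b (lattice 0) and F7c (rotated lattice) of ROT/F3_PLAN: for every family of classes with `Hyp`
(connections `C`, `C'`, rests `RA`, `RB`), connection functions `e`, `e'` and arc functions `F`, `G`.
-/

set_option autoImplicit false

namespace Pool.Agent.ROT.F3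

open Finset
open scoped ENNReal Classical

/-- the right-hand side of (P) -/
noncomputable def PS (C C' : Set (W3 × W3)) (RA RB : Set W3) (e e' : W3 × W3 → ℝ≥0∞) (F G : W3 → ℝ≥0∞) : ℝ≥0∞ :=
  ∑' (R : W3) (S : W3), if R ∈ RA ∧ S ∈ RB then wx R * F R * (wx S * G S) *
    ∑' z : ℂ, (if Dj R S z then gam C e z * gam C' e' (z + en R - en S) else 0) else 0

/-- with separated supports the condition `Dj` can be dropped -/
theorem PS_sep {C C' : Set (W3 × W3)} {RA RB : Set W3} {e e' : W3 × W3 → ℝ≥0∞} {F G : W3 → ℝ≥0∞}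
    (hD : ∀ R ∈ RA, ∀ S ∈ RB, F R ≠ 0 → G S ≠ 0 → ∀ z, gam C e z ≠ 0 → gam C' e' (z + en R - en S) ≠ 0 → Dj R S z) :
    PS C C' RA RB e e' F G = ∑' (R : W3) (S : W3), (if R ∈ RA then wx R * F R else 0) * (if S ∈ RB then wx S * G S else 0) *
      Gam (gam C e) (gam C' e') (en R - en S) := by
  unfold PS
  refine tsum_congr fun R => tsum_congr fun S => ?_
  by_cases h : R ∈ RA ∧ S ∈ RB
  · rw [if_pos h, if_pos h.1, if_pos h.2]
    by_cases hF : F R = 0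
    · simp [hF]
    by_cases hG : G S = 0
    · simp [hG]
    congr 1
    unfold Gam
    refine tsum_congr fun z => ?_
    rw [show z + (en R - en S) = z + en R - en S by ring]
    by_cases hz : Dj R S z
    · rw [if_pos hz]
    · rw [if_neg hz]
      by_contra hne
      have h1 : gam C e z ≠ 0 := fun h0 => hne (by rw [h0, zero_mul])
      have h2 : gam C' e' (z + en R - en S) ≠ 0 := fun h0 => hne (by rw [h0, mul_zero])
      exact hz (hD R h.1 S h.2 hF hG z h1 h2)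
  · rw [if_neg h]
    rw [not_and_or] at h
    rcases h with h | h
    · rw [if_neg h]
      simp
    · rw [if_neg (c := S ∈ RB) h]
      simp

/-- **the pair mass is a product up to a relative error** -/
theorem pair_rhs {C C' : Set (W3 × W3)} {RA RB : Set W3} {e e' : W3 × W3 → ℝ≥0∞} {F G : W3 → ℝ≥0∞} {M L : ℝ≥0∞} {c δ : ℝ}
    {y0 : ℂ} (hM : M ≠ ∞) (hL : L ≠ ∞) (hδ : 0 ≤ δ) (hg : ∀ z, gam C e z ≤ M) (hg' : ∑' z, gam C' e' z ≠ ∞)
    (hA : ms RA F ≠ ∞) (hB : ms RB G ≠ ∞)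
    (hD : ∀ R ∈ RA, ∀ S ∈ RB, F R ≠ 0 → G S ≠ 0 → ∀ z, gam C e z ≠ 0 → gam C' e' (z + en R - en S) ≠ 0 → Dj R S z)
    (h1 : ∀ R ∈ RA, ∀ S ∈ RB, F R ≠ 0 → G S ≠ 0 →
      ∑' z, (gam C' e' (z + (en R - en S)) - gam C' e' (z + y0)) ≤ L ∧
        ∑' z, (gam C' e' (z + y0) - gam C' e' (z + (en R - en S))) ≤ L)
    (h2 : c = (Gam (gam C e) (gam C' e') y0).toReal) (h3 : M.toReal * L.toReal ≤ δ * c) :
    |(PS C C' RA RB e e' F G).toReal - c * (ms RA F).toReal * (ms RB G).toReal| ≤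
      δ * (c * (ms RA F).toReal * (ms RB G).toReal) := by
  rw [PS_sep hD]
  unfold ms at hA hB ⊢
  refine pair_prod (G := Gam (gam C e) (gam C' e')) (yA := en) (yB := en) (by rw [h2]; exact ENNReal.toReal_nonneg) hδ
    (fun R S hR hS => ?_) hA hB
  have r1 : R ∈ RA := by
    by_contra h
    exact hR (if_neg h)
  have s1 : S ∈ RB := by
    by_contra h
    exact hS (if_neg h)
  have r2 : F R ≠ 0 := fun h => hR (by rw [if_pos r1, h, mul_zero])
  have s2 : G S ≠ 0 := fun h => hS (by rw [if_pos s1, h, mul_zero])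
  obtain ⟨h4, h5⟩ := h1 R r1 S s1 r2 s2
  obtain ⟨h6, h7⟩ := Gam_cont (g := gam C e) hM hL hg hg' h4 h5
  refine ⟨h6, ?_⟩
  rw [h2]
  rw [h2] at h3
  exact h7.trans h3

/-- closed words given by their six pieces -/
theorem pair_cls {C C' : Set (W3 × W3)} {RA RB : Set W3} (H : Hyp C C' RA RB) {e e' : W3 × W3 → ℝ≥0∞} {F G : W3 → ℝ≥0∞}
    {M L : ℝ≥0∞} {c δ : ℝ}
    {y0 : ℂ} (hM : M ≠ ∞) (hL : L ≠ ∞) (hδ : 0 ≤ δ) (hg : ∀ z, gam C e z ≤ M) (hg' : ∑' z, gam C' e' z ≠ ∞)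
    (hA : ms RA F ≠ ∞) (hB : ms RB G ≠ ∞)
    (hD : ∀ R ∈ RA, ∀ S ∈ RB, F R ≠ 0 → G S ≠ 0 → ∀ z, gam C e z ≠ 0 → gam C' e' (z + en R - en S) ≠ 0 → Dj R S z)
    (h1 : ∀ R ∈ RA, ∀ S ∈ RB, F R ≠ 0 → G S ≠ 0 →
      ∑' z, (gam C' e' (z + (en R - en S)) - gam C' e' (z + y0)) ≤ L ∧
        ∑' z, (gam C' e' (z + y0) - gam C' e' (z + (en R - en S))) ≤ L)
    (h2 : c = (Gam (gam C e) (gam C' e') y0).toReal) (h3 : M.toReal * L.toReal ≤ δ * c) :
    |(∑' (a : W3 × W3) (R : W3) (b : W3 × W3) (S : W3), (if a ∈ C ∧ R ∈ RA ∧ b ∈ C' ∧ S ∈ RB ∧ Cl (G6 a R b S) then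
      wx (G6 a R b S) * (e a * e' b * (F R * G S)) else 0)).toReal - c * (ms RA F).toReal * (ms RB G).toReal| ≤
      δ * (c * (ms RA F).toReal * (ms RB G).toReal) := by
  rw [exP H]
  exact pair_rhs hM hL hδ hg hg' hA hB hD h1 h2 h3

/-- closed words with five marks -/
theorem pair_clsm {C C' : Set (W3 × W3)} {RA RB : Set W3} (H : Hyp C C' RA RB) {e e' : W3 × W3 → ℝ≥0∞} {F G : W3 → ℝ≥0∞}
    {M L : ℝ≥0∞} {c δ : ℝ}
    {y0 : ℂ} (hM : M ≠ ∞) (hL : L ≠ ∞) (hδ : 0 ≤ δ) (hg : ∀ z, gam C e z ≤ M) (hg' : ∑' z, gam C' e' z ≠ ∞)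
    (hA : ms RA F ≠ ∞) (hB : ms RB G ≠ ∞)
    (hD : ∀ R ∈ RA, ∀ S ∈ RB, F R ≠ 0 → G S ≠ 0 → ∀ z, gam C e z ≠ 0 → gam C' e' (z + en R - en S) ≠ 0 → Dj R S z)
    (h1 : ∀ R ∈ RA, ∀ S ∈ RB, F R ≠ 0 → G S ≠ 0 →
      ∑' z, (gam C' e' (z + (en R - en S)) - gam C' e' (z + y0)) ≤ L ∧
        ∑' z, (gam C' e' (z + y0) - gam C' e' (z + (en R - en S))) ≤ L)
    (h2 : c = (Gam (gam C e) (gam C' e') y0).toReal) (h3 : M.toReal * L.toReal ≤ δ * c) :
    |(∑' w : W3, ∑' k1 : ℕ, ∑' k2 : ℕ, ∑' m : ℕ, ∑' k3 : ℕ, ∑' k4 : ℕ,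
      (if (k1 ≤ k2 ∧ k2 ≤ m ∧ m ≤ k3 ∧ k3 ≤ k4 ∧ k4 ≤ w.length) ∧ Cl w ∧ (seg w 0 k1, (w.drop k4).reverse) ∈ C ∧
          seg w k1 k2 ∈ RA ∧ ((seg w k2 m).reverse, seg w m k3) ∈ C' ∧ (seg w k3 k4).reverse ∈ RB then
        wx w * (e (seg w 0 k1, (w.drop k4).reverse) * e' ((seg w k2 m).reverse, seg w m k3) *
          (F (seg w k1 k2) * G (seg w k3 k4).reverse)) else 0)).toReal - c * (ms RA F).toReal * (ms RB G).toReal| ≤
      δ * (c * (ms RA F).toReal * (ms RB G).toReal) := by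
  rw [exPm H]
  exact pair_rhs hM hL hδ hg hg' hA hB hD h1 h2 h3

/-! ### finiteness and size of the weights -/

lemma gam_le_tsum (C : Set (W3 × W3)) (e : W3 × W3 → ℝ≥0∞) (z : ℂ) : gam C e z ≤ ∑' z, gam C e z := ENNReal.le_tsum z

/-- the total mass of the connections -/
lemma tsum_gam (C : Set (W3 × W3)) (e : W3 × W3 → ℝ≥0∞) :
    ∑' z, gam C e z = ∑' a : W3 × W3, if a ∈ C then wx a.1 * wx a.2 * e a else 0 := by
  unfold gam
  rw [ENNReal.tsum_comm]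
  refine tsum_congr fun a => ?_
  rw [tsum_eq_single (en a.1 - en a.2) fun z hz => if_neg fun h => hz h.2.symm]
  by_cases ha : a ∈ C
  · rw [if_pos ⟨ha, rfl⟩, if_pos ha]
  · rw [if_neg fun h => ha h.1, if_neg ha]

lemma gam_ne_zero {C : Set (W3 × W3)} {e : W3 × W3 → ℝ≥0∞} {z : ℂ} (h : gam C e z ≠ 0) :
    ∃ a ∈ C, e a ≠ 0 ∧ en a.1 - en a.2 = z := by
  by_contra hc
  push Not at hc
  refine h (ENNReal.tsum_eq_zero.2 fun a => ?_)
  by_cases ha : a ∈ C ∧ en a.1 - en a.2 = z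
  · rw [if_pos ha]
    by_cases he : e a = 0
    · rw [he, mul_zero]
    · exact absurd ha.2 (hc a ha.1 he)
  · rw [if_neg ha]

/-- the weight of the connections is monotone in the function -/
lemma gam_mono {C : Set (W3 × W3)} {e f : W3 × W3 → ℝ≥0∞} (h : ∀ a ∈ C, e a ≤ f a) (z : ℂ) : gam C e z ≤ gam C f z := by
  refine ENNReal.tsum_le_tsum fun a => ?_
  by_cases ha : a ∈ C ∧ en a.1 - en a.2 = z
  · rw [if_pos ha, if_pos ha]
    exact mul_le_mul_right (h a ha.1) _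
  · rw [if_neg ha, if_neg ha]

/-- sums of connection functions -/
lemma gam_add (C : Set (W3 × W3)) (e f : W3 × W3 → ℝ≥0∞) (z : ℂ) : gam C (fun a => e a + f a) z = gam C e z + gam C f z := by
  unfold gam
  rw [← ENNReal.tsum_add]
  refine tsum_congr fun a => ?_
  split_ifs
  · ring
  · simp

/-- the mass of a class is monotone in the function -/
lemma ms_mono {T : Set W3} {f g : W3 → ℝ≥0∞} (h : ∀ a ∈ T, f a ≤ g a) : ms T f ≤ ms T g := by
  refine ENNReal.tsum_le_tsum fun a => ?_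
  by_cases ha : a ∈ T
  · rw [if_pos ha, if_pos ha]
    exact mul_le_mul_right (h a ha) _
  · rw [if_neg ha, if_neg ha]

lemma ms_add (T : Set W3) (f g : W3 → ℝ≥0∞) : ms T (fun a => f a + g a) = ms T f + ms T g := by
  unfold ms
  rw [← ENNReal.tsum_add]
  refine tsum_congr fun a => ?_
  split_ifs
  · ring
  · simp

lemma ms_sum {ι : Type*} (T : Set W3) (s : Finset ι) (f : ι → W3 → ℝ≥0∞) : ms T (fun a => ∑ i ∈ s, f i a) = ∑ i ∈ s, ms T (f i) := by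
  induction s using Finset.induction_on with
  | empty => simp [ms]
  | insert i s hi ih =>
    simp_rw [sum_insert hi]
    rw [ms_add, ih]

end Pool.Agent.ROT.F3
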