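import Pool.Agent.ROT.F3GamL
import Pool.Agent.ROT.F3Pair
import Pool.Agent.ROT.F3LimV

/-!
# F3, row L3: indicators of statistics of the blocks in the weights of the connections (helper15)

* `gen_monoH` : monotone functions `F N`, bounded, along an ultrafilter: for all `t` outside of a countable set the increments of
  `F N` in small windows about `t` are small;
* **`gen_win`** : the same for the mass of `{|X N - t| ≤ η}` (weights `w N` on any type);
* `GL1` : the modulus of continuity in `L¹` of `gam`; **`gl1_close`** : it is closed under approximation of the weight;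
* **`gl1_thr`** : from Lipschitz cutoffs of finitely many statistics to indicators `X ≤ t`, for generic `t`.
-/

set_option autoImplicit false

namespace Pool.Agent.ROT.F3

open Filter Topology Set
open scoped ENNReal

/-! ### generic thresholds -/

/-- generic points of monotone functions along an ultrafilter -/
theorem gen_monoH (U : Ultrafilter ℕ) {F : ℕ → ℝ → ℝ} (hm : ∀ᶠ N in (U : Filter ℕ), Monotone (F N)) {M : ℝ}
    (hb : ∀ᶠ N in (U : Filter ℕ), ∀ t, |F N t| ≤ M) :
    ∃ E : Set ℝ, E.Countable ∧ ∀ t ∉ E, ∀ ε : ℝ, 0 < ε → ∃ η : ℝ, 0 < η ∧ ∀ᶠ N in (U : Filter ℕ),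
      F N (t + η) - F N (t - η) ≤ ε := by
  have h1 : ∀ t, ∃ x : ℝ, Tendsto (fun N => F N t) U (𝓝 x) := fun t => by
    obtain ⟨x, -, hx⟩ := ulim_ex U (a := fun N => F N t) (M := M) (hb.mono fun N hN => hN t)
    exact ⟨x, hx⟩
  choose G hG using h1
  have hGm : Monotone G := by
    intro a b hab
    refine le_of_tendsto_of_tendsto (hG a) (hG b) ?_
    filter_upwards [hm] with N hN
    exact hN hab
  refine ⟨{t | ¬ ContinuousAt G t}, hGm.countable_not_continuousAt, fun t ht ε hε => ?_⟩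
  have hc : ContinuousAt G t := by
    by_contra h
    exact ht h
  rw [Metric.continuousAt_iff] at hc
  obtain ⟨δ, hδ, h2⟩ := hc (ε / 3) (by positivity)
  refine ⟨δ / 2, by positivity, ?_⟩
  have e1 : dist (t + δ / 2) t < δ := by
    rw [Real.dist_eq, show t + δ / 2 - t = δ / 2 by ring, abs_of_pos (by positivity)]
    linarith
  have e2 : dist (t - δ / 2) t < δ := by
    rw [Real.dist_eq, show t - δ / 2 - t = -(δ / 2) by ring, abs_neg, abs_of_pos (by positivity)]
    linarith
  have h3 := h2 e1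
  have h4 := h2 e2
  rw [Real.dist_eq, abs_lt] at h3 h4
  have h5 := Metric.tendsto_nhds.1 (hG (t + δ / 2)) (ε / 6) (by positivity)
  have h6 := Metric.tendsto_nhds.1 (hG (t - δ / 2)) (ε / 6) (by positivity)
  filter_upwards [h5, h6] with N a1 a2
  rw [Real.dist_eq, abs_lt] at a1 a2
  linarith [h3.1, h3.2, h4.1, h4.2, a1.1, a1.2, a2.1, a2.2]

/-- **generic thresholds of a statistic**: `w N` = weights, total mass at most `tot N`, `X N` = statistic -/
theorem gen_win {Ω : Type*} (U : Ultrafilter ℕ) (w : ℕ → Ω → ℝ≥0∞) (X : ℕ → Ω → ℝ) {tot : ℕ → ℝ≥0∞}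
    (hf : ∀ᶠ N in (U : Filter ℕ), tot N ≠ ∞) (hw : ∀ᶠ N in (U : Filter ℕ), ∑' a, w N a ≤ tot N) :
    ∃ E : Set ℝ, E.Countable ∧ ∀ t ∉ E, ∀ ε : ℝ, 0 < ε → ∃ η : ℝ, 0 < η ∧ ∀ᶠ N in (U : Filter ℕ),
      ∑' a, {a | |X N a - t| ≤ η}.indicator (w N) a ≤ ENNReal.ofReal ε * tot N := by
  -- the distribution function
  obtain ⟨D, hD⟩ : ∃ D : ℕ → ℝ → ℝ≥0∞, D = fun N t => ∑' a, {a | X N a ≤ t}.indicator (w N) a := ⟨_, rfl⟩
  have hDm : ∀ N, Monotone (D N) := by
    intro N a b hab
    rw [hD]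
    refine ENNReal.tsum_le_tsum fun x => ?_
    exact indicator_le_indicator_of_subset (fun y hy => le_trans hy hab) (fun _ => zero_le) x
  have hDt : ∀ᶠ N in (U : Filter ℕ), ∀ t, D N t ≤ tot N := by
    filter_upwards [hw] with N hN t
    rw [hD]
    exact (ENNReal.tsum_le_tsum fun x => indicator_le_self' (fun _ _ => zero_le) x).trans hN
  obtain ⟨F, hF⟩ : ∃ F : ℕ → ℝ → ℝ, F = fun N t => (D N t / tot N).toReal := ⟨_, rfl⟩
  have hfin : ∀ᶠ N in (U : Filter ℕ), ∀ t, D N t / tot N ≤ 1 := by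
    filter_upwards [hDt] with N hN t
    exact ENNReal.div_le_of_le_mul (by rw [one_mul]; exact hN t)
  have hFm : ∀ᶠ N in (U : Filter ℕ), Monotone (F N) := by
    filter_upwards [hfin] with N hN a b hab
    rw [hF]
    refine ENNReal.toReal_mono (ne_top_of_le_ne_top ENNReal.one_ne_top (hN b)) ?_
    exact ENNReal.div_le_div_right (hDm N hab) _
  have hFb : ∀ᶠ N in (U : Filter ℕ), ∀ t, |F N t| ≤ 1 := by
    filter_upwards [hfin] with N hN t
    rw [hF]
    simp only
    rw [abs_of_nonneg ENNReal.toReal_nonneg, ← ENNReal.toReal_one]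
    exact ENNReal.toReal_mono ENNReal.one_ne_top (hN t)
  obtain ⟨E, hE, h1⟩ := gen_monoH U hFm hFb
  refine ⟨E, hE, fun t ht ε hε => ?_⟩
  obtain ⟨η, hη, h2⟩ := h1 t ht ε hε
  refine ⟨η / 2, by positivity, ?_⟩
  filter_upwards [h2, hfin, hDt, hf] with N hN k1 k2 k3
  obtain ⟨W, hW⟩ : ∃ W : ℝ≥0∞, W = ∑' a, {a | |X N a - t| ≤ η / 2}.indicator (w N) a := ⟨_, rfl⟩
  -- the window is in the increment
  have h3 : D N (t - η) + W ≤ D N (t + η) := by
    rw [hW, hD, ← ENNReal.tsum_add]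
    refine ENNReal.tsum_le_tsum fun a => ?_
    by_cases c1 : X N a ≤ t - η
    · have c2 : ¬ (|X N a - t| ≤ η / 2) := by
        intro h4
        rw [abs_le] at h4
        linarith [h4.1]
      have c3 : X N a ≤ t + η := by linarith
      rw [indicator_of_mem (show a ∈ {a | X N a ≤ t - η} from c1),
        indicator_of_notMem (show a ∉ {a | |X N a - t| ≤ η / 2} from c2),
        indicator_of_mem (show a ∈ {a | X N a ≤ t + η} from c3), add_zero]
    · rw [indicator_of_notMem (show a ∉ {a | X N a ≤ t - η} from c1), zero_add]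
      by_cases c2 : |X N a - t| ≤ η / 2
      · have c3 : X N a ≤ t + η := by
          rw [abs_le] at c2
          linarith [c2.2]
        rw [indicator_of_mem (show a ∈ {a | |X N a - t| ≤ η / 2} from c2),
          indicator_of_mem (show a ∈ {a | X N a ≤ t + η} from c3)]
      · rw [indicator_of_notMem (show a ∉ {a | |X N a - t| ≤ η / 2} from c2)]
        exact zero_le
  rw [← hW]
  by_cases h0 : tot N = 0
  · have h4 : W = 0 := by
      have h5 := (le_add_self.trans h3).trans (k2 (t + η))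
      rw [h0] at h5
      exact le_antisymm h5 bot_le
    rw [h4]
    exact zero_le
  · have h4 : D N (t - η) / tot N + W / tot N ≤ D N (t + η) / tot N := by
      rw [← ENNReal.add_div]
      exact ENNReal.div_le_div_right h3 _
    have f1 : D N (t + η) / tot N ≠ ∞ := ne_top_of_le_ne_top ENNReal.one_ne_top (k1 _)
    have f2 : D N (t - η) / tot N ≠ ∞ := ne_top_of_le_ne_top ENNReal.one_ne_top (k1 _)
    have f3 : W / tot N ≠ ∞ := ne_top_of_le_ne_top f1 (le_add_self.trans h4)
    have h5 : (W / tot N).toReal ≤ ε := by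
      have h6 := ENNReal.toReal_mono f1 h4
      rw [ENNReal.toReal_add f2 f3] at h6
      rw [hF] at hN
      simp only at hN
      linarith
    have h6 : W / tot N ≤ ENNReal.ofReal ε := by
      rw [← ENNReal.ofReal_toReal f3]
      exact ENNReal.ofReal_le_ofReal h5
    calc W = W / tot N * tot N := (ENNReal.div_mul_cancel h0 k3).symm
      _ ≤ ENNReal.ofReal ε * tot N := by gcongr

/-! ### approximation of the weight -/

/-- the modulus of continuity in `L¹` of `gam` -/
def GL1 (l : Filter ℕ) (s : ℕ → ℝ) (C : ℕ → Set (W3 × W3)) (e : ℕ → W3 × W3 → ℝ≥0∞) (tot : ℕ → ℝ≥0∞) : Prop :=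
  ∀ ε : ℝ, 0 < ε → ∃ η : ℝ, 0 < η ∧ ∀ᶠ N in l, ∀ v ∈ EL, ‖v‖ ≤ η * s N →
    ∑' z, (gam (C N) (e N) (z + v) - gam (C N) (e N) z) ≤ ENNReal.ofReal ε * tot N

/-- the mass of the weight `f` in the class -/
noncomputable def cms (C : Set (W3 × W3)) (f : W3 × W3 → ℝ≥0∞) : ℝ≥0∞ := ∑' z, gam C f z

open scoped Classical in
lemma cms_eq (C : Set (W3 × W3)) (f : W3 × W3 → ℝ≥0∞) :
    cms C f = ∑' a : W3 × W3, if a ∈ C then wx a.1 * wx a.2 * f a else 0 := tsum_gam C f

/-- the difference of two weights -/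
lemma gam_tsub (C : Set (W3 × W3)) (f f' : W3 × W3 → ℝ≥0∞) (z : ℂ) :
    gam C f z - gam C f' z ≤ gam C (fun a => f a - f' a) z := by
  rw [tsub_le_iff_left, ← gam_add]
  exact gam_mono (fun a _ => le_add_tsub) z

/-- **`GL1` is closed under approximation of the weight** -/
theorem gl1_close {l : Filter ℕ} {s : ℕ → ℝ} {C : ℕ → Set (W3 × W3)} {e : ℕ → W3 × W3 → ℝ≥0∞} {tot : ℕ → ℝ≥0∞}
    (h : ∀ ε : ℝ, 0 < ε → ∃ e' : ℕ → W3 × W3 → ℝ≥0∞, GL1 l s C e' tot ∧
      ∀ᶠ N in l, cms (C N) (fun a => e N a - e' N a) ≤ ENNReal.ofReal ε * tot N ∧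
        cms (C N) (fun a => e' N a - e N a) ≤ ENNReal.ofReal ε * tot N) : GL1 l s C e tot := by
  intro ε hε
  obtain ⟨e', h1, h2⟩ := h (ε / 3) (by positivity)
  obtain ⟨η, hη, h3⟩ := h1 (ε / 3) (by positivity)
  refine ⟨η, hη, ?_⟩
  filter_upwards [h2, h3] with N k1 k2 v hv hvn
  have key : ∀ z, gam (C N) (e N) (z + v) - gam (C N) (e N) z ≤ (gam (C N) (e' N) (z + v) - gam (C N) (e' N) z) +
      (gam (C N) (fun a => e N a - e' N a) (z + v) + gam (C N) (fun a => e' N a - e N a) z) := by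
    intro z
    rw [tsub_le_iff_left]
    have a1 : gam (C N) (e N) (z + v) ≤ gam (C N) (e' N) (z + v) + gam (C N) (fun a => e N a - e' N a) (z + v) := by
      rw [← gam_add]
      exact gam_mono (fun a _ => le_add_tsub) _
    have a2 : gam (C N) (e' N) (z + v) ≤ gam (C N) (e' N) z + (gam (C N) (e' N) (z + v) - gam (C N) (e' N) z) := le_add_tsub
    have a3 : gam (C N) (e' N) z ≤ gam (C N) (e N) z + gam (C N) (fun a => e' N a - e N a) z := by
      rw [← gam_add]
      exact gam_mono (fun a _ => le_add_tsub) _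
    calc gam (C N) (e N) (z + v) ≤ gam (C N) (e' N) (z + v) + gam (C N) (fun a => e N a - e' N a) (z + v) := a1
      _ ≤ (gam (C N) (e' N) z + (gam (C N) (e' N) (z + v) - gam (C N) (e' N) z)) +
          gam (C N) (fun a => e N a - e' N a) (z + v) := by gcongr
      _ ≤ ((gam (C N) (e N) z + gam (C N) (fun a => e' N a - e N a) z) +
          (gam (C N) (e' N) (z + v) - gam (C N) (e' N) z)) + gam (C N) (fun a => e N a - e' N a) (z + v) := by gcongr
      _ = _ := by ring
  have sh : ∑' z, gam (C N) (fun a => e N a - e' N a) (z + v) = cms (C N) (fun a => e N a - e' N a) :=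
    (Equiv.addRight v).tsum_eq fun z => gam (C N) (fun a => e N a - e' N a) z
  calc ∑' z, (gam (C N) (e N) (z + v) - gam (C N) (e N) z)
      ≤ ∑' z, ((gam (C N) (e' N) (z + v) - gam (C N) (e' N) z) +
        (gam (C N) (fun a => e N a - e' N a) (z + v) + gam (C N) (fun a => e' N a - e N a) z)) :=
        ENNReal.tsum_le_tsum key
    _ = ∑' z, (gam (C N) (e' N) (z + v) - gam (C N) (e' N) z) +
        (cms (C N) (fun a => e N a - e' N a) + cms (C N) (fun a => e' N a - e N a)) := by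
        rw [ENNReal.tsum_add, ENNReal.tsum_add, sh]
        rfl
    _ ≤ ENNReal.ofReal (ε / 3) * tot N + (ENNReal.ofReal (ε / 3) * tot N + ENNReal.ofReal (ε / 3) * tot N) :=
        add_le_add (k2 v hv hvn) (add_le_add k1.1 k1.2)
    _ = ENNReal.ofReal ε * tot N := by
        rw [← add_mul, ← add_mul, ← ENNReal.ofReal_add (by positivity) (by positivity),
          ← ENNReal.ofReal_add (by positivity) (by positivity)]
        congr 2
        ring

/-! ### cutoffs -/

/-- the cutoff: `1` for `x ≤ t - η`, `0` for `t ≤ x` -/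
noncomputable def chf (η t x : ℝ) : ℝ := max 0 (min 1 ((t - x) / η))

lemma chf_01 (η t x : ℝ) : 0 ≤ chf η t x ∧ chf η t x ≤ 1 := ⟨le_max_left _ _, max_le zero_le_one (min_le_left _ _)⟩

lemma chf_one {η t x : ℝ} (hη : 0 < η) (h : x ≤ t - η) : chf η t x = 1 := by
  unfold chf
  have h1 : 1 ≤ (t - x) / η := by
    rw [le_div_iff₀ hη]
    linarith
  rw [min_eq_left h1, max_eq_right zero_le_one]

lemma chf_zero {η t x : ℝ} (hη : 0 < η) (h : t ≤ x) : chf η t x = 0 := by
  unfold chf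
  have h1 : (t - x) / η ≤ 0 := div_nonpos_of_nonpos_of_nonneg (by linarith) hη.le
  exact max_eq_left ((min_le_right _ _).trans h1)

open scoped Classical in
/-- the indicator of `x ≤ t` -/
noncomputable def idt (t x : ℝ) : ℝ≥0∞ := if x ≤ t then 1 else 0

lemma idt_le (t x : ℝ) : idt t x ≤ 1 := by
  unfold idt
  split_ifs
  · exact le_rfl
  · exact zero_le

lemma chf_le_idt {η : ℝ} (hη : 0 < η) (t x : ℝ) : ENNReal.ofReal (chf η t x) ≤ idt t x := by
  unfold idt
  split_ifs with h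
  · rw [← ENNReal.ofReal_one]
    exact ENNReal.ofReal_le_ofReal (chf_01 η t x).2
  · rw [chf_zero hη (not_le.1 h).le, ENNReal.ofReal_zero]

/-- the two products differ only in the windows -/
lemma prod_win {ι : Type*} (I : Finset ι) {η : ℝ} (hη : 0 < η) (t x : ι → ℝ) :
    (∏ i ∈ I, idt (t i) (x i)) ≤ (∏ i ∈ I, ENNReal.ofReal (chf η (t i) (x i))) +
      ∑ i ∈ I, {y : ℝ | |y - t i| ≤ η}.indicator (fun _ => (1 : ℝ≥0∞)) (x i) := by
  classical
  by_cases h : ∃ i ∈ I, |x i - t i| ≤ η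
  · obtain ⟨i, hi, h1⟩ := h
    calc (∏ i ∈ I, idt (t i) (x i)) ≤ ∏ _i ∈ I, (1 : ℝ≥0∞) := Finset.prod_le_prod' fun i _ => idt_le _ _
      _ = 1 := Finset.prod_const_one
      _ = {y : ℝ | |y - t i| ≤ η}.indicator (fun _ => (1 : ℝ≥0∞)) (x i) :=
          (indicator_of_mem (show x i ∈ {y : ℝ | |y - t i| ≤ η} from h1) (fun _ => (1 : ℝ≥0∞))).symm
      _ ≤ ∑ i ∈ I, {y : ℝ | |y - t i| ≤ η}.indicator (fun _ => (1 : ℝ≥0∞)) (x i) :=
          Finset.single_le_sum (f := fun i => {y : ℝ | |y - t i| ≤ η}.indicator (fun _ => (1 : ℝ≥0∞)) (x i))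
            (fun _ _ => zero_le) hi
      _ ≤ _ := le_add_self
  · push Not at h
    refine le_trans ?_ le_self_add
    refine Finset.prod_le_prod' fun i hi => ?_
    have h1 := h i hi
    unfold idt
    split_ifs with h2
    · rw [abs_of_nonpos (by linarith)] at h1
      rw [chf_one hη (by linarith), ENNReal.ofReal_one]
    · exact zero_le

/-- **indicators of finitely many statistics**: `X i N` = the statistics, `t i` generic -/
theorem gl1_thr (U : Ultrafilter ℕ) {s : ℕ → ℝ} {C : ℕ → Set (W3 × W3)} {tot : ℕ → ℝ≥0∞}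
    (hf : ∀ᶠ N in (U : Filter ℕ), tot N ≠ ∞) (hw : ∀ᶠ N in (U : Filter ℕ), cms (C N) (fun _ => 1) ≤ tot N)
    {ι : Type*} (I : Finset ι) (X : ι → ℕ → W3 × W3 → ℝ) :
    ∃ E : ι → Set ℝ, (∀ i, (E i).Countable) ∧ ∀ t : ι → ℝ, (∀ i ∈ I, t i ∉ E i) → ∀ e : ℕ → W3 × W3 → ℝ≥0∞,
      (∀ N a, e N a ≤ 1) →
      (∀ η : ℝ, 0 < η → GL1 U s C (fun N a => e N a * ∏ i ∈ I, ENNReal.ofReal (chf η (t i) (X i N a))) tot) →
      GL1 U s C (fun N a => e N a * ∏ i ∈ I, idt (t i) (X i N a)) tot := by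
  classical
  have h1 : ∀ i, ∃ E : Set ℝ, E.Countable ∧ ∀ t ∉ E, ∀ ε : ℝ, 0 < ε → ∃ η : ℝ, 0 < η ∧ ∀ᶠ N in (U : Filter ℕ),
      cms (C N) (fun a => {y : ℝ | |y - t| ≤ η}.indicator (fun _ => (1 : ℝ≥0∞)) (X i N a)) ≤ ENNReal.ofReal ε * tot N := by
    intro i
    obtain ⟨E, hE, h2⟩ := gen_win U (fun N (a : W3 × W3) => if a ∈ C N then wx a.1 * wx a.2 else 0) (X i) hf (by
      filter_upwards [hw] with N hN
      rw [cms_eq] at hN
      refine le_trans (le_of_eq (tsum_congr fun a => ?_)) hN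
      split_ifs
      · rw [mul_one]
      · rfl)
    refine ⟨E, hE, fun t ht ε hε => ?_⟩
    obtain ⟨η, hη, h3⟩ := h2 t ht ε hε
    refine ⟨η, hη, ?_⟩
    filter_upwards [h3] with N hN
    rw [cms_eq]
    refine le_trans (le_of_eq (tsum_congr fun a => ?_)) hN
    by_cases h4 : |X i N a - t| ≤ η
    · rw [indicator_of_mem (show X i N a ∈ {y : ℝ | |y - t| ≤ η} from h4),
        indicator_of_mem (show a ∈ {a | |X i N a - t| ≤ η} from h4)]
      split_ifs
      · rw [mul_one]
      · rfl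
    · rw [indicator_of_notMem (show X i N a ∉ {y : ℝ | |y - t| ≤ η} from h4),
        indicator_of_notMem (show a ∉ {a | |X i N a - t| ≤ η} from h4)]
      split_ifs
      · rw [mul_zero]
      · rfl
  choose E hE h2 using h1
  refine ⟨E, hE, fun t ht e he hη => gl1_close fun ε hε => ?_⟩
  -- one window for all the statistics
  obtain ⟨k, hk⟩ : ∃ k : ℝ, k = ε / (I.card + 1) := ⟨_, rfl⟩
  have hk0 : 0 < k := by rw [hk]; positivity
  have h3 : ∃ η : ℝ, 0 < η ∧ ∀ i ∈ I, ∀ᶠ N in (U : Filter ℕ),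
      cms (C N) (fun a => {y : ℝ | |y - t i| ≤ η}.indicator (fun _ => (1 : ℝ≥0∞)) (X i N a)) ≤ ENNReal.ofReal k * tot N := by
    have h4 : ∀ i ∈ I, ∃ η : ℝ, 0 < η ∧ ∀ᶠ N in (U : Filter ℕ),
        cms (C N) (fun a => {y : ℝ | |y - t i| ≤ η}.indicator (fun _ => (1 : ℝ≥0∞)) (X i N a)) ≤ ENNReal.ofReal k * tot N :=
      fun i hi => h2 i (t i) (ht i hi) k hk0
    choose! η hη0 hη1 using h4
    rcases I.eq_empty_or_nonempty with h0 | h0
    · exact ⟨1, one_pos, fun i hi => by rw [h0] at hi; exact absurd hi (Finset.notMem_empty i)⟩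
    · obtain ⟨i0, hi0, hmin⟩ := I.exists_min_image η h0
      refine ⟨η i0, hη0 i0 hi0, fun i hi => ?_⟩
      filter_upwards [hη1 i hi] with N hN
      refine le_trans (ENNReal.tsum_le_tsum fun z => gam_mono (fun a _ => ?_) z) hN
      by_cases h5 : |X i N a - t i| ≤ η i0
      · rw [indicator_of_mem (show X i N a ∈ {y : ℝ | |y - t i| ≤ η i0} from h5),
          indicator_of_mem (show X i N a ∈ {y : ℝ | |y - t i| ≤ η i} from h5.trans (hmin i hi))]
      · rw [indicator_of_notMem (show X i N a ∉ {y : ℝ | |y - t i| ≤ η i0} from h5)]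
        exact zero_le
  obtain ⟨η, hη0, h4⟩ := h3
  refine ⟨_, hη η hη0, ?_⟩
  filter_upwards [(Filter.eventually_all_finset I).2 h4] with N hN
  constructor
  · calc cms (C N) (fun a => e N a * (∏ i ∈ I, idt (t i) (X i N a)) - e N a * ∏ i ∈ I, ENNReal.ofReal (chf η (t i) (X i N a)))
        ≤ cms (C N) (fun a => ∑ i ∈ I, {y : ℝ | |y - t i| ≤ η}.indicator (fun _ => (1 : ℝ≥0∞)) (X i N a)) := by
          refine ENNReal.tsum_le_tsum fun z => gam_mono (fun a _ => ?_) z
          rw [tsub_le_iff_left]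
          calc e N a * (∏ i ∈ I, idt (t i) (X i N a)) ≤ e N a * ((∏ i ∈ I, ENNReal.ofReal (chf η (t i) (X i N a))) +
                ∑ i ∈ I, {y : ℝ | |y - t i| ≤ η}.indicator (fun _ => (1 : ℝ≥0∞)) (X i N a)) := by
                gcongr
                exact prod_win I hη0 t fun i => X i N a
            _ ≤ e N a * (∏ i ∈ I, ENNReal.ofReal (chf η (t i) (X i N a))) +
                ∑ i ∈ I, {y : ℝ | |y - t i| ≤ η}.indicator (fun _ => (1 : ℝ≥0∞)) (X i N a) := by
                rw [mul_add]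
                gcongr
                exact mul_le_of_le_one_left zero_le (he N a)
      _ = ∑ i ∈ I, cms (C N) (fun a => {y : ℝ | |y - t i| ≤ η}.indicator (fun _ => (1 : ℝ≥0∞)) (X i N a)) := by
          simp only [cms_eq]
          rw [← Summable.tsum_finsetSum fun i _ => ENNReal.summable]
          refine tsum_congr fun a => ?_
          split_ifs
          · exact Finset.mul_sum _ _ _
          · exact Finset.sum_const_zero.symm
      _ ≤ ∑ _i ∈ I, ENNReal.ofReal k * tot N := Finset.sum_le_sum fun i hi => hN i hi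
      _ = ENNReal.ofReal (I.card * k) * tot N := by
          rw [Finset.sum_const, nsmul_eq_mul, ← mul_assoc, ENNReal.ofReal_mul (Nat.cast_nonneg _), ENNReal.ofReal_natCast]
      _ ≤ ENNReal.ofReal ε * tot N := by
          gcongr
          rw [hk, ← mul_div_assoc, div_le_iff₀ (by positivity)]
          nlinarith [(Nat.cast_nonneg I.card : (0 : ℝ) ≤ (I.card : ℝ))]
  · have h5 : cms (C N) (fun a => e N a * (∏ i ∈ I, ENNReal.ofReal (chf η (t i) (X i N a))) -
        e N a * ∏ i ∈ I, idt (t i) (X i N a)) = 0 := by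
      rw [cms_eq, ENNReal.tsum_eq_zero]
      intro a
      split_ifs
      · rw [tsub_eq_zero_of_le (mul_le_mul_right (Finset.prod_le_prod' fun i _ => chf_le_idt hη0 _ _) _), mul_zero]
      · rfl
    rw [h5]
    exact zero_le

end Pool.Agent.ROT.F3
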