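import Pool.Agent.ROT.F3LowQ
import Pool.Agent.ROT.F3GamB

/-!
# ROT / F3LowW (helper89): LOW for the classes of F3Cls at the scale `N`

* **`el_lat3`** : the two forms of the lattice of the even vertices are equal;
* `totQ` : the weight of the start pairs; **`low_win`** : the hypothesis of `L3In.low_p`, `L3In.low_q` (F3HexL).
-/

set_option autoImplicit false

namespace Pool.Agent.ROT.F3

open Finset ComplexConjugate Filter Topology
open scoped ENNReal Classical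

/-- **the lattice of the even vertices** -/
theorem el_lat3 : EL = Lat3 := by
  have h3 : Real.sqrt 3 * Real.sqrt 3 = 3 := Real.mul_self_sqrt (by norm_num)
  have key : ∀ x y : ℤ, (⟨0, Real.sqrt 3⟩ * ((x : ℂ) * ax 0 + (y : ℂ) * ax 2) : ℂ) =
      ⟨3 * (y : ℝ) / 2, -(Real.sqrt 3 / 2 * ((y - 2 * x : ℤ) : ℝ))⟩ := by
    intro x y
    rw [ax0, ax2]
    apply Complex.ext
    · simp only [Complex.mul_re, Complex.add_re, Complex.add_im, Complex.mul_im, Complex.intCast_re, Complex.intCast_im]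
      linear_combination (y / 2 : ℝ) * h3
    · simp only [Complex.mul_re, Complex.add_re, Complex.add_im, Complex.mul_im, Complex.intCast_re, Complex.intCast_im]
      push_cast
      ring
  apply Set.Subset.antisymm
  · rintro z ⟨x, y, rfl⟩
    refine ⟨y, y - 2 * x, ?_, ?_⟩
    · have : y - 2 * x - y = -(2 * x) := by ring
      rw [this]
      exact (even_two_mul x).neg
    · rw [key]
  · rintro z ⟨T, x, ⟨k, hk⟩, rfl⟩
    refine ⟨-k, T, ?_⟩
    rw [key]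
    congr 3
    have : T - 2 * -k = x := by linarith
    rw [this]

/-- the weight of the start pairs of the class `Pai` -/
noncomputable def totQ (d d' : ℂ) (P P' : Tp) (S T : ℝ) (e0 : W3 × W3 → ℝ≥0∞) : ℝ≥0∞ :=
  ∑' a : W3 × W3, if StQ d d' P P' S T a then wx a.1 * wx a.2 * e0 a else 0

/-- **LOW at the scale `N`** -/
theorem low_win {ζ : ℝ} (hζ : 0 < ζ) : ∃ x0 A : ℝ, 0 < x0 ∧ 0 < A ∧ ∀ {i j : Fin 3}, i ≠ j → ∀ (P P' : Tp) (v : ℂ), P.Ok → P'.Ok →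
    P'.m = P.m → ζ * P.m ≤ P.κ1 → ζ * P.m ≤ P'.κ1 → P.th ≤ 1 - ζ → P'.th ≤ 1 - ζ → A * P.m ^ (4 / 3 : ℝ) ≤ P.lb →
    A * P.m ^ (4 / 3 : ℝ) ≤ P'.lb → ‖v‖ = 1 → ∀ᶠ N : ℕ in atTop, ∀ e e0 : W3 × W3 → ℝ≥0∞,
      (∀ (a : W3 × W3) (b b' : W3), StQ (ev i) (ev j) P P' N (uT N) a → BlQ (ev i) P N (uT N) b → BlQ (ev j) P' N (uT N) b' →
        e0 a ≤ e (a.1 ++ b, a.2 ++ b')) →
      ∀ z ∈ EL, (((N : ℝ)⁻¹ : ℝ) : ℂ) * -(v * z) ∈ Metric.ball (-(v * ((P.m : ℂ) * (ev i - ev j)))) (P.m / 8) →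
        ENNReal.ofReal (x0 / P.m ^ 2 / (N : ℝ) ^ 2) * totQ (ev i) (ev j) P P' N (uT N) e0 ≤
          gam (Pai (ev i) (ev j) P P' N (uT N)) e z := by
  obtain ⟨c, A, M0, hc, hA, hM0, h⟩ := lowQ0 hζ
  refine ⟨c, A, hc, hA, fun {i j} hij P P' v hP hP' hPm hκ hκ' hth hth' hlb hlb' hv => ?_⟩
  have hm := hP.m
  filter_upwards [eventually_ge_atTop 1, (tendsto_natCast_atTop_atTop (R := ℝ)).eventually_ge_atTop (M0 / P.m)] with N h1 h2 e e0 he z hz hzO
  have hN : (0 : ℝ) < N := by exact_mod_cast h1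
  rw [div_le_iff₀ hm] at h2
  have hlen : ∀ lb : ℝ, A * P.m ^ (4 / 3 : ℝ) ≤ lb → A * (P.m * N) ^ (4 / 3 : ℝ) ≤ lb * uT N := by
    intro lb hl
    rw [Real.mul_rpow hm.le hN.le, ← mul_assoc]
    exact mul_le_mul_of_nonneg_right hl (by positivity)
  have hz' : ‖z - ((P.m * N : ℝ) : ℂ) * (ax i - ax j)‖ ≤ P.m * N / 8 := by
    rw [Metric.mem_ball, dist_eq_norm] at hzO
    have e1 : (((N : ℝ)⁻¹ : ℝ) : ℂ) * -(v * z) - -(v * ((P.m : ℂ) * (ev i - ev j))) =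
        -(v * ((((N : ℝ)⁻¹ : ℝ) : ℂ) * (z - ((P.m * N : ℝ) : ℂ) * (ax i - ax j)))) := by
      have hN' : (N : ℂ) ≠ 0 := by
        exact_mod_cast (show N ≠ 0 by omega)
      rw [ev_ax, ev_ax]
      push_cast
      field_simp
      ring
    rw [e1, norm_neg, norm_mul, hv, one_mul, norm_mul, Complex.norm_real, Real.norm_of_nonneg (by positivity)] at hzO
    have h5 : ‖z - ((P.m * N : ℝ) : ℂ) * (ax i - ax j)‖ = N * ((N : ℝ)⁻¹ * ‖z - ((P.m * N : ℝ) : ℂ) * (ax i - ax j)‖) := by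
      field_simp
    rw [h5]
    have h6 := mul_le_mul_of_nonneg_left hzO.le hN.le
    linarith
  rw [el_lat3] at hz
  simp only [ev_ax] at he ⊢
  have t := h (i := i) (j := j) hij P P' N (uT N) z e e0 hP hP' hPm hN (by linarith) hκ hκ' hth hth' (hlen _ hlb) (hlen _ hlb') hz hz' he
  have e2 : c / P.m ^ 2 / (N : ℝ) ^ 2 = c / (P.m * N) ^ 2 := by
    field_simp
  rw [e2]
  unfold totQ
  exact t

/-- the total weight of the class at the scale `N` -/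
theorem gam_totQ {i j : Fin 3} {P P' : Tp} (hP : P.Ok) (hP' : P'.Ok) {N : ℕ} (hN : 1 ≤ N) {e e0 : W3 × W3 → ℝ≥0∞}
    (he : ∀ (a : W3 × W3) (b b' : W3), StQ (ev i) (ev j) P P' N (uT N) a → BlQ (ev i) P N (uT N) b → BlQ (ev j) P' N (uT N) b' →
      e (a.1 ++ b, a.2 ++ b') ≤ e0 a) :
    (∑' a : W3 × W3, if a ∈ Pai (ev i) (ev j) P P' N (uT N) then wx a.1 * wx a.2 * e a else 0) ≤
      totQ (ev i) (ev j) P P' N (uT N) e0 := by
  have hN' : (0 : ℝ) < N := by exact_mod_cast hN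
  simp only [ev_ax] at he ⊢
  exact gam_tot_le (mul_pos hP.m hN') (mul_pos hP'.m hN') he

end Pool.Agent.ROT.F3
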