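import Pool.Agent.ROT.F3GamS
import Pool.Agent.ROT.F3GamL
import Pool.Agent.ROT.F3LowW
import Pool.Agent.ROT.F3Fin
import Pool.Agent.ROT.F3LimH

/-!
# ROT / F3GamP (helper69): the pairs of F3Cls at a root: sup bound, `L1` modulus, support (`GamH`)

* `mQ`, `sQ` : the thresholds of the blocks; **`blQ_iff`** : a block of the class = free block with a cut in `[s, m)`, `iQ`;
* `SQ` : the set of start pairs; **`gam_pai`** : `gam` of the class `Pai` is `gamB` over `SQ` with the weight `FI`;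
* `NaB`, `NaC`, `NaL` : the atoms of the statistics of the free blocks (countable), **`win_of`**;
* **`gam_pai_sup`**, **`gamH_pai`**.
-/

set_option autoImplicit false

namespace Pool.Agent.ROT.F3

open Finset Filter Topology ComplexConjugate
open HexObs (oo up vx dx lev lat latE Brd BT Cut wE gf tf FC)
open HexObs.ROT.FP (FB FBh SB gam2 bl2 Ind2 HSup dp Mod1 mod1 Osc₁ Osc₂)
open scoped ENNReal Classical

/-! ### 1. blocks -/

/-- the threshold of the free blocks -/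
noncomputable def mQ (P : Tp) (S : ℝ) : ℕ := ⌈2 * (P.m * S) / 3⌉₊

/-- the threshold of the cuts -/
noncomputable def sQ (P : Tp) (S : ℝ) : ℕ := ⌈2 * (P.th * P.m * S) / 3⌉₊

lemma mQ_one {P : Tp} {S : ℝ} (hP : P.Ok) (hS : 0 < S) : 1 ≤ mQ P S := by
  unfold mQ
  have := mul_pos hP.m hS
  exact Nat.one_le_iff_ne_zero.2 (Nat.ceil_pos.2 (by positivity)).ne'

lemma sQ_one {P : Tp} {S : ℝ} (hP : P.Ok) (hS : 0 < S) : 1 ≤ sQ P S := by
  unfold sQ
  have := mul_pos (mul_pos hP.th hP.m) hS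
  exact Nat.one_le_iff_ne_zero.2 (Nat.ceil_pos.2 (by positivity)).ne'

/-- **the blocks of the class** -/
theorem blQ_iff {i : Fin 3} {P : Tp} (hP : P.Ok) {S T : ℝ} (hS : 0 < S) (hT : 0 < T) {b : W3} :
    BlQ (ax i) P S T b ↔ (∃ k ∈ FBh (mQ P S) (sQ P S), rt i (wl k) = b) ∧ iQ (ax i) P S T b := by
  have hm : 0 < P.m * S := mul_pos hP.m hS
  have hth : 0 < P.th * P.m * S := mul_pos (mul_pos hP.th hP.m) hS
  have hm1 := mQ_one hP hS
  have hs1 := sQ_one hP hS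
  have hM : (2 * (P.m * S) / 3 : ℝ) ≤ mQ P S := Nat.le_ceil _
  have hQ : iQ (ax i) P S T b ↔ (∀ k : ℕ, k ≤ b.length → ‖ps b k‖ ≤ P.r2 * S) ∧ ConeQ (ax i) P.c (P.κ1 * S) b ∧
      (b.length : ℝ) ≤ P.lb * T := by
    unfold iQ
    rw [div_le_iff₀ hS, div_le_iff₀ hS, div_le_iff₀ hT, sB_le, sC_le]
    rfl
  constructor
  · intro h
    obtain ⟨h1, h2⟩ := (blk_iff hm).1 ⟨h.g, h.f⟩
    refine ⟨?_, hQ.2 ⟨h2, h.s, h.lb⟩⟩
    obtain ⟨t, ht, htb⟩ := mem_Fbi.1 h1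
    refine ⟨t, (HexObs.ROT.FP.fbh_iff hm1 t).2 ⟨ht, ?_⟩, htb⟩
    obtain ⟨T', hT', hbr, hno⟩ := h1
    obtain ⟨b1, b2, b3, b4⟩ := id hbr
    obtain ⟨k, k1, k2, k3, k4, k5⟩ := h.th
    obtain ⟨q, hq⟩ := lvi_even i b k3.le k1
    rw [← lvi_eq, hq] at k5
    have hq0 : (0 : ℝ) < q := by linarith
    have hq0' : (0 : ℤ) < q := by exact_mod_cast hq0
    have hq1 : ((q.toNat : ℕ) : ℤ) = q := Int.toNat_of_nonneg hq0'.le
    have hq2 : ((q.toNat : ℕ) : ℝ) = q := by exact_mod_cast hq1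
    have hcut : Cuti i b q.toNat := by
      refine (cuti_iff hbr).2 ⟨k, k3.le, k1, by rw [hq, hq2], fun j hj => ?_, fun j hj1 hj2 => ?_⟩
      · rw [hq2, ← hq]
        exact k4.1 j hj
      · rw [hq2, ← hq]
        exact k4.2 j hj1 hj2
    have hqT : q.toNat < T' := by
      have h4 := k4.2 b.length k3 le_rfl
      rw [← lvi_eq, ← lvi_eq, hq, b4] at h4
      have : (q : ℝ) < T' := by linarith
      rw [← hq2] at this
      exact_mod_cast this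
    refine ⟨q.toNat, Nat.ceil_le.2 (by rw [hq2]; linarith), ?_, ?_⟩
    · by_contra hc
      exact hno q.toNat (not_lt.1 hc) hqT hcut
    · rw [← htb, cuti_rt] at hcut
      obtain ⟨T2, hT2, -⟩ := ht
      exact (cutW_wl hT2 _).1 hcut
  · rintro ⟨⟨t, ht, htb⟩, hi⟩
    obtain ⟨i1, i2, i3⟩ := hQ.1 hi
    obtain ⟨ht1, c, hc1, hc2, hcut⟩ := (HexObs.ROT.FP.fbh_iff hm1 t).1 ht
    have hb : b ∈ Fbi i (mQ P S) := mem_Fbi.2 ⟨t, ht1, htb⟩
    obtain ⟨g1, g2⟩ := (blk_iff hm).2 ⟨hb, i1⟩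
    refine ⟨g1, g2, ?_, i2, i3⟩
    obtain ⟨T', hT', hbr, hno⟩ := hb
    obtain ⟨b1, b2, b3, b4⟩ := id hbr
    have hci : Cuti i b c := by
      rw [← htb, cuti_rt]
      obtain ⟨T2, hT2, -⟩ := ht1
      exact (cutW_wl hT2 _).2 hcut
    obtain ⟨k, k1, k2, k3, k4, k5⟩ := (cuti_iff hbr).1 hci
    have hc0 : (1 : ℝ) ≤ c := by exact_mod_cast hs1.trans hc1
    have hcT : (c : ℝ) < T' := by exact_mod_cast hc2.trans_le hT'
    refine ⟨k, k2, ?_, ?_, ⟨fun j hj => ?_, fun j hj1 hj2 => ?_⟩, ?_⟩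
    · rcases Nat.eq_zero_or_pos k with h | h
      · rw [h, lvi_start] at k3
        linarith
      · exact h
    · rcases Nat.lt_or_eq_of_le k1 with h | h
      · exact h
      · rw [h, b4] at k3
        linarith
    · rw [← lvi_eq, ← lvi_eq, k3]
      exact k4 j hj
    · rw [← lvi_eq, ← lvi_eq, k3]
      exact k5 j hj1 hj2
    · rw [← lvi_eq, k3]
      have h1 : 2 * (P.th * P.m * S) / 3 ≤ c := (Nat.ceil_le).1 hc1
      linarith

/-! ### 2. the class in terms of starts and blocks -/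

/-- the set of start pairs -/
def SQ (i j : Fin 3) (P P' : Tp) (S T : ℝ) : Set (W3 × W3) := {s | StQ (ax i) (ax j) P P' S T s}

lemma BlQ.right {d : ℂ} {P : Tp} {S T : ℝ} {b : W3} (h : BlQ d P S T b) : ∀ k : ℕ, 0 < k → k ≤ b.length → 0 < lv d (ps b k) :=
  h.g.right

/-- a pair over a start pair is in the class if and only if its blocks are -/
lemma pai_app {i j : Fin 3} {P P' : Tp} {S T : ℝ} {ω : W3 × W3} (hω : ω ∈ SQ i j P P' S T) {b b' : W3}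
    (hb : ∀ k : ℕ, 0 < k → k ≤ b.length → 0 < lv (ax i) (ps b k)) (hb' : ∀ k : ℕ, 0 < k → k ≤ b'.length → 0 < lv (ax j) (ps b' k)) :
    (ω.1 ++ b, ω.2 ++ b') ∈ Pai (ax i) (ax j) P P' S T ↔ BlQ (ax i) P S T b ∧ BlQ (ax j) P' S T b' := by
  have hω' : StQ (ax i) (ax j) P P' S T ω := hω
  constructor
  · intro h
    obtain ⟨s, hs, c, c', h1, h2, he⟩ := mem_Pai.1 h
    have e1 := congrArg Prod.fst he
    have e2 := congrArg Prod.snd he
    simp only at e1 e2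
    have f1 := start_unique hω'.t1 hs.t1 hω'.f1 hs.f1 hb h1.right e1
    have f2 := start_unique hω'.t2 hs.t2 hω'.f2 hs.f2 hb' h2.right e2
    rw [f1] at e1
    rw [f2] at e2
    rw [List.append_cancel_left e1, List.append_cancel_left e2]
    exact ⟨h1, h2⟩
  · rintro ⟨h1, h2⟩
    exact mem_Pai.2 ⟨ω, hω', b, b', h1, h2, rfl⟩

/-- `gamB` depends on the weight on the free blocks only -/
lemma gamB_cg {C0 : Set (W3 × W3)} {i j : Fin 3} {m₁ m₂ : ℕ} {F G : W3 × W3 → W3 → W3 → ℝ≥0∞}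
    (h : ∀ ω ∈ C0, ∀ b ∈ Fbi i m₁, ∀ b' ∈ Fbi j m₂, F ω b b' = G ω b b') (z : ℂ) :
    gamB C0 i j m₁ m₂ F z = gamB C0 i j m₁ m₂ G z := by
  unfold gamB
  refine tsum_congr fun ω => ?_
  congr 1
  refine tsum_congr fun b => tsum_congr fun b' => ?_
  rw [h ω.1 ω.2 b.1 b.2 b'.1 b'.2]

/-- **`gam` of the class `Pai`**, any weight -/
theorem gam_paiG {i j : Fin 3} {P P' : Tp} (hP : P.Ok) (hP' : P'.Ok) {S T : ℝ} (hS : 0 < S)
    (e : W3 × W3 → ℝ≥0∞) (z : ℂ) : gam (Pai (ax i) (ax j) P P' S T) e z =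
      gamB (SQ i j P P' S T) i j (mQ P S) (mQ P' S) (fun ω b b' => if BlQ (ax i) P S T b ∧ BlQ (ax j) P' S T b' then
        e (ω.1 ++ b, ω.2 ++ b') else 0) z := by
  have hm : 0 < P.m * S := mul_pos hP.m hS
  have hm' : 0 < P'.m * S := mul_pos hP'.m hS
  rw [gam_eq (C0 := SQ i j P P' S T) (i := i) (j := j) (m₁ := mQ P S) (m₂ := mQ P' S) (fun ω hω => ⟨hω.t1.ev, hω.t2.ev⟩)
    (fun π hπ => ?_) (fun ω hω ω' hω' b hb b₁ hb₁ b' hb' b₁' hb₁' h1 h2 => ?_)]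
  · refine gamB_cg (fun ω hω b hb b' hb' => ?_) z
    have h1 := pai_app hω (Fbi_right hb) (Fbi_right hb')
    by_cases hc : BlQ (ax i) P S T b ∧ BlQ (ax j) P' S T b'
    · rw [if_pos hc, if_pos (h1.2 hc)]
    · rw [if_neg hc, if_neg fun h => hc (h1.1 h)]
  · obtain ⟨s, hs, b, b', hb, hb', rfl⟩ := mem_Pai.1 hπ
    exact ⟨s, hs, b, ((blk_iff hm).1 ⟨hb.g, hb.f⟩).1, b', ((blk_iff hm').1 ⟨hb'.g, hb'.f⟩).1, rfl⟩
  · exact Prod.ext (start_unique hω.t1 hω'.t1 hω.f1 hω'.f1 (Fbi_right hb) (Fbi_right hb₁) h1)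
      (start_unique hω.t2 hω'.t2 hω.f2 hω'.f2 (Fbi_right hb') (Fbi_right hb₁') h2)

/-! ### 3. the sup bound, weights bounded by weights of the starts -/

/-- (S) with weights of the starts -/
theorem gamB_supW {C : ℝ} (hC : HSup C) {i j : Fin 3} (hij : i ≠ j) {s m₁ m₂ : ℕ} (hs : 1 ≤ s) (hm₁ : 1 ≤ m₁)
    (hm₂ : 1 ≤ m₂) (C0 : Set (W3 × W3)) (e0 : W3 × W3 → ℝ≥0∞) {F : W3 × W3 → W3 → W3 → ℝ≥0∞}
    (hF : ∀ ω ∈ C0, ∀ k₁ ∈ FB m₁, ∀ k₂ ∈ FB m₂, F ω (rt i (wl k₁)) (rt j (wl k₂)) ≤ e0 ω)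
    (hF0 : ∀ ω ∈ C0, ∀ k₁ ∈ FB m₁, ∀ k₂ ∈ FB m₂, F ω (rt i (wl k₁)) (rt j (wl k₂)) ≠ 0 → k₁ ∈ FBh m₁ s ∧ k₂ ∈ FBh m₂ s)
    (z : ℂ) : gamB C0 i j m₁ m₂ F z ≤ ENNReal.ofReal (C ^ 2 / s ^ 2) * ∑' ω : C0, wx ω.1.1 * wx ω.1.2 * e0 ω.1 := by
  rw [gamB_eq]
  have h1 := HexObs.ROT.FP.bl2_sup hC (ind_la hij) hs hm₁ hm₂ (fun ω : C0 => wx ω.1.1 * wx ω.1.2 * e0 ω.1)
    (fun ω : C0 => en ω.1.1 - en ω.1.2) (lo i) (-lo j)
    (e := fun _ k₁ k₂ => if k₁ ∈ FBh m₁ s ∧ k₂ ∈ FBh m₂ s then 1 else 0)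
    (fun ω k₁ k₂ => by
      split_ifs
      · exact le_rfl
      · exact zero_le)
    (fun ω k₁ k₂ h => by
      by_contra hc
      exact h (if_neg hc)) z
  refine le_trans ?_ h1
  unfold gam2 bl2
  refine ENNReal.tsum_le_tsum fun ω => ?_
  rw [mul_assoc (wx ω.1.1 * wx ω.1.2)]
  refine mul_le_mul_right ?_ _
  rw [← ENNReal.tsum_mul_left]
  refine ENNReal.tsum_le_tsum fun k₁ => ?_
  rw [← ENNReal.tsum_mul_left]
  refine ENNReal.tsum_le_tsum fun k₂ => ?_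
  beta_reduce
  by_cases hz : dp (fun ω : C0 => en ω.1.1 - en ω.1.2) (lo i) (la i) (-lo j) (-la j) ω k₁.1 k₂.1 = z
  · rw [if_pos hz, if_pos hz]
    by_cases h0 : F ω.1 (rt i (wl k₁.1)) (rt j (wl k₂.1)) = 0
    · rw [h0, mul_zero, mul_zero]
      exact zero_le
    · rw [if_pos (hF0 ω.1 ω.2 k₁.1 k₁.2 k₂.1 k₂.2 h0)]
      calc wE k₁.1 * (wE k₂.1 * F ω.1 (rt i (wl k₁.1)) (rt j (wl k₂.1))) ≤ wE k₁.1 * (wE k₂.1 * e0 ω.1) := by
            gcongr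
            exact hF ω.1 ω.2 k₁.1 k₁.2 k₂.1 k₂.2
        _ = _ := by ring
  · rw [if_neg hz, if_neg hz, mul_zero, mul_zero]
    exact zero_le

lemma sum_SQ {i j : Fin 3} {P P' : Tp} {S T : ℝ} (e0 : W3 × W3 → ℝ≥0∞) :
    ∑' ω : SQ i j P P' S T, wx ω.1.1 * wx ω.1.2 * e0 ω.1 = totQ (ax i) (ax j) P P' S T e0 := by
  unfold totQ
  rw [_root_.tsum_subtype (SQ i j P P' S T) fun a => wx a.1 * wx a.2 * e0 a]
  refine tsum_congr fun a => ?_
  rw [Set.indicator_apply]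
  rfl

lemma mass_SQ {i j : Fin 3} {P P' : Tp} {S T : ℝ} : mass0 (SQ i j P P' S T) = totQ (ax i) (ax j) P P' S T fun _ => 1 := by
  rw [← sum_SQ]
  unfold mass0
  simp only [mul_one]

/-- the total weight of the starts is finite -/
theorem totQ_ne {d d' : ℂ} {P P' : Tp} {S T : ℝ} {e0 : W3 × W3 → ℝ≥0∞} (h : ∀ a, e0 a ≠ ∞) : totQ d d' P P' S T e0 ≠ ∞ := by
  unfold totQ
  obtain ⟨n, hn⟩ := exists_nat_ge (P.la * T)
  obtain ⟨n', hn'⟩ := exists_nat_ge (P'.la * T)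
  have hf : ∀ n : ℕ, {l : W3 | l.length ≤ n}.Finite := fun n => List.finite_length_le (Fin 3) n
  rw [tsum_eq_sum (s := (hf n).toFinset ×ˢ (hf n').toFinset)]
  · refine (ENNReal.sum_lt_top.2 fun a _ => ?_).ne
    split_ifs
    · exact ENNReal.mul_lt_top (ENNReal.mul_lt_top (wx_ne_top _).lt_top (wx_ne_top _).lt_top) (h a).lt_top
    · exact ENNReal.zero_lt_top
  · intro a ha
    by_cases hC : StQ d d' P P' S T a
    · refine absurd (Finset.mem_product.2 ⟨(hf n).mem_toFinset.2 ?_, (hf n').mem_toFinset.2 ?_⟩) ha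
      · have h1 : (a.1.length : ℝ) ≤ n := hC.la1.trans hn
        exact_mod_cast h1
      · have h1 : (a.2.length : ℝ) ≤ n' := hC.la2.trans hn'
        exact_mod_cast h1
    · rw [if_neg hC]

/-- the constant of the ends of the bridges -/
noncomputable def cHS : ℝ := Classical.choose HexObs.ROT.FP.hSup

lemma hSup_cHS : HSup cHS := Classical.choose_spec HexObs.ROT.FP.hSup

/-- the constant of the sup bound -/
noncomputable def BQ (P : Tp) : ℝ := 9 * cHS ^ 2 / (4 * (P.th * P.m) ^ 2)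

lemma BQ_nonneg (P : Tp) : 0 ≤ BQ P := by
  unfold BQ
  positivity

lemma mQ_eq {P P' : Tp} {S : ℝ} (h : P'.m = P.m) : mQ P' S = mQ P S := by
  unfold mQ
  rw [h]

lemma sQ_eq {P P' : Tp} {S : ℝ} (h : P'.m = P.m) (h' : P'.th = P.th) : sQ P' S = sQ P S := by
  unfold sQ
  rw [h, h']

/-- (S) **the sup bound for the class `Pai`**, weights bounded by weights of the starts -/
theorem gam_pai_sup {i j : Fin 3} (hij : i ≠ j) {P P' : Tp} (hP : P.Ok) (hP' : P'.Ok) (hm : P'.m = P.m) (hth : P'.th = P.th)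
    {S T : ℝ} (hS : 0 < S) (hT : 0 < T) {e e0 : W3 × W3 → ℝ≥0∞}
    (he : ∀ (a : W3 × W3) (b b' : W3), StQ (ax i) (ax j) P P' S T a → BlQ (ax i) P S T b → BlQ (ax j) P' S T b' →
      e (a.1 ++ b, a.2 ++ b') ≤ e0 a) (z : ℂ) :
    gam (Pai (ax i) (ax j) P P' S T) e z ≤ ENNReal.ofReal (BQ P / S ^ 2) * totQ (ax i) (ax j) P P' S T e0 := by
  have h1 := mQ_one hP hS
  have h2 := sQ_one hP hS
  have hs : 2 * (P.th * P.m * S) / 3 ≤ sQ P S := Nat.le_ceil _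
  have hp : 0 < P.th * P.m := mul_pos hP.th hP.m
  have hs0 : (0 : ℝ) < sQ P S := by exact_mod_cast h2
  rw [gam_paiG hP hP' hS, ← sum_SQ, mQ_eq hm]
  have key : ∀ (P : Tp) (i : Fin 3) (k : List Bool), P.Ok → k ∈ FB (mQ P S) → BlQ (ax i) P S T (rt i (wl k)) →
      k ∈ FBh (mQ P S) (sQ P S) := by
    intro P i k hP hk hb
    obtain ⟨⟨q, hq, he⟩, -⟩ := (blQ_iff hP hS hT).1 hb
    have h1 := wl_inj (up_of_FB ((HexObs.ROT.FP.fbh_iff (mQ_one hP hS) _).1 hq).1) (up_of_FB hk) (rt_inj he)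
    rwa [← h1]
  refine (gamB_supW hSup_cHS hij h2 h1 h1 _ e0 (fun ω hω k₁ _ k₂ _ => ?_) (fun ω hω k₁ hk₁ k₂ hk₂ hF => ?_) z).trans ?_
  · split_ifs with hc
    · exact he ω _ _ hω hc.1 hc.2
    · exact zero_le
  · have hc : BlQ (ax i) P S T (rt i (wl k₁)) ∧ BlQ (ax j) P' S T (rt j (wl k₂)) := by
      by_contra hc
      exact hF (if_neg hc)
    refine ⟨key P i k₁ hP hk₁ hc.1, ?_⟩
    have := key P' j k₂ hP' (by rw [mQ_eq hm]; exact hk₂) hc.2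
    rwa [mQ_eq hm, sQ_eq hm hth] at this
  · refine mul_le_mul_left (ENNReal.ofReal_le_ofReal ?_) _
    unfold BQ
    rw [div_div, div_le_div_iff₀ (by positivity) (by positivity)]
    have h3 : (2 * (P.th * P.m * S) / 3) ^ 2 ≤ (sQ P S : ℝ) ^ 2 := pow_le_pow_left₀ (by positivity) hs 2
    have h4 : 0 ≤ cHS ^ 2 := by positivity
    have h5 := mul_le_mul_of_nonneg_left h3 h4
    have e1 : cHS ^ 2 * (4 * (P.th * P.m) ^ 2 * S ^ 2) = 9 * (cHS ^ 2 * (2 * (P.th * P.m * S) / 3) ^ 2) := by ring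
    rw [e1]
    linarith

/-! ### 4. generic thresholds -/

/-- the values which are atoms of the statistic `X` of the free blocks along `U` -/
def NaX (U : Ultrafilter ℕ) (m : ℕ → ℕ) (X : ℕ → List Bool → ℝ) : Set ℝ := {t | ¬ ∀ ε : ℝ, 0 < ε → ∃ η : ℝ, 0 < η ∧
  ∀ᶠ N : ℕ in (U : Filter ℕ), gf {k | k ∈ FB (m N) ∧ |X N k - t| ≤ η} ≤ ENNReal.ofReal ε}

theorem naX_cnt {U : Ultrafilter ℕ} {m : ℕ → ℕ} (hm : ∀ᶠ N : ℕ in (U : Filter ℕ), 1 ≤ m N) (X : ℕ → List Bool → ℝ) :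
    (NaX U m X).Countable := by
  obtain ⟨E, hE, h⟩ := gen_win U (fun N => (FB (m N)).indicator wE) X (tot := fun _ => 1)
    (Eventually.of_forall fun _ => ENNReal.one_ne_top) (by
      filter_upwards [hm] with N hN
      rw [← _root_.tsum_subtype (FB (m N)) wE]
      exact (HexObs.ROT.FP.fb_mass hN).le)
  refine hE.mono fun t ht => ?_
  by_contra hc
  refine ht fun ε hε => ?_
  obtain ⟨η, hη, h1⟩ := h t hc ε hε
  refine ⟨η, hη, ?_⟩
  filter_upwards [h1] with N h2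
  rw [mul_one] at h2
  refine le_trans (le_of_eq ?_) h2
  unfold HexObs.gf
  rw [_root_.tsum_subtype {k | k ∈ FB (m N) ∧ |X N k - t| ≤ η} wE]
  refine tsum_congr fun k => ?_
  rw [Set.indicator_apply, Set.indicator_apply, Set.indicator_apply]
  by_cases c1 : |X N k - t| ≤ η
  · by_cases c2 : k ∈ FB (m N)
    · rw [if_pos (show k ∈ {k | k ∈ FB (m N) ∧ |X N k - t| ≤ η} from ⟨c2, c1⟩),
        if_pos (show k ∈ {k | |X N k - t| ≤ η} from c1), if_pos c2]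
    · rw [if_neg (show k ∉ {k | k ∈ FB (m N) ∧ |X N k - t| ≤ η} from fun h => c2 h.1),
        if_pos (show k ∈ {k | |X N k - t| ≤ η} from c1), if_neg c2]
  · rw [if_neg (show k ∉ {k | k ∈ FB (m N) ∧ |X N k - t| ≤ η} from fun h => c1 h.2),
      if_neg (show k ∉ {k | |X N k - t| ≤ η} from c1)]

/-- the threshold of the free blocks at the scale `N` -/
noncomputable def mB (μ : ℝ) (N : ℕ) : ℕ := ⌈2 * (μ * N) / 3⌉₊

/-- the bad values of the radius `r2` -/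
def NaB (U : Ultrafilter ℕ) (μ : ℝ) : Set ℝ := NaX U (mB μ) fun N k => sB (wl k) / N

/-- the bad values of the offset `κ1` -/
def NaC (U : Ultrafilter ℕ) (μ c : ℝ) : Set ℝ := NaX U (mB μ) fun N k => sC 1 c (wl k) / N

/-- the bad values of the bound `lb` of the letters -/
def NaL (U : Ultrafilter ℕ) (μ : ℝ) : Set ℝ := NaX U (mB μ) fun N k => ((wl k).length : ℝ) / uT N

lemma mB_one {U : Ultrafilter ℕ} (hU : (U : Filter ℕ) ≤ atTop) {μ : ℝ} (hμ : 0 < μ) : ∀ᶠ N : ℕ in (U : Filter ℕ), 1 ≤ mB μ N := by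
  filter_upwards [hU (eventually_ge_atTop 1)] with N hN
  have h1 : (0 : ℝ) < N := by exact_mod_cast hN
  unfold mB
  exact Nat.one_le_iff_ne_zero.2 (Nat.ceil_pos.2 (by positivity)).ne'

theorem naB_cnt {U : Ultrafilter ℕ} (hU : (U : Filter ℕ) ≤ atTop) {μ : ℝ} (hμ : 0 < μ) : (NaB U μ).Countable :=
  naX_cnt (mB_one hU hμ) _

theorem naC_cnt {U : Ultrafilter ℕ} (hU : (U : Filter ℕ) ≤ atTop) {μ : ℝ} (hμ : 0 < μ) (c : ℝ) : (NaC U μ c).Countable :=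
  naX_cnt (mB_one hU hμ) _

theorem naL_cnt {U : Ultrafilter ℕ} (hU : (U : Filter ℕ) ≤ atTop) {μ : ℝ} (hμ : 0 < μ) : (NaL U μ).Countable :=
  naX_cnt (mB_one hU hμ) _

/-- **generic parameters** -/
def GnQ (U : Ultrafilter ℕ) (P : Tp) : Prop := P.r2 ∉ NaB U P.m ∧ P.κ1 ∉ NaC U P.m P.c ∧ P.lb ∉ NaL U P.m

lemma GnQ.up {U : Ultrafilter ℕ} {P : Tp} (h : GnQ U P) (y : ℝ) : GnQ U (P.up y) := h

theorem win_of {U : Ultrafilter ℕ} {P : Tp} (h : GnQ U P) : Win (U : Filter ℕ) P (fun N => mQ P N) := by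
  obtain ⟨h1, h2, h3⟩ := h
  intro ε hε
  obtain ⟨η₁, k1, g1⟩ := not_not.1 h1 (ε / 3) (by positivity)
  obtain ⟨η₂, k2, g2⟩ := not_not.1 h2 (ε / 3) (by positivity)
  obtain ⟨η₃, k3, g3⟩ := not_not.1 h3 (ε / 3) (by positivity)
  refine ⟨min η₁ (min η₂ η₃), lt_min k1 (lt_min k2 k3), ?_⟩
  filter_upwards [g1, g2, g3] with N a1 a2 a3
  have e1 : gf {k | k ∈ FB (mQ P N) ∧ wQ 1 P N (uT N) (min η₁ (min η₂ η₃)) (wl k)} ≤
      gf {k | k ∈ FB (mB P.m N) ∧ |sB (wl k) / N - P.r2| ≤ η₁} +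
        (gf {k | k ∈ FB (mB P.m N) ∧ |sC 1 P.c (wl k) / N - P.κ1| ≤ η₂} +
          gf {k | k ∈ FB (mB P.m N) ∧ |((wl k).length : ℝ) / uT N - P.lb| ≤ η₃}) := by
    refine (HexObs.gf_mono ?_).trans ((HexObs.gf_union_le _ _).trans (add_le_add le_rfl (HexObs.gf_union_le _ _)))
    rintro k ⟨hk, hq⟩
    rcases hq with hq | hq | hq
    · exact Or.inl ⟨hk, hq.trans (min_le_left _ _)⟩
    · exact Or.inr (Or.inl ⟨hk, hq.trans ((min_le_right _ _).trans (min_le_left _ _))⟩)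
    · exact Or.inr (Or.inr ⟨hk, hq.trans ((min_le_right _ _).trans (min_le_right _ _))⟩)
  refine e1.trans ((add_le_add a1 (add_le_add a2 a3)).trans (le_of_eq ?_))
  rw [← ENNReal.ofReal_add (by positivity) (by positivity), ← ENNReal.ofReal_add (by positivity) (by positivity)]
  congr 1
  ring

/-! ### 5. the hypotheses of the limit -/

/-- the radius of the displacements -/
def rQ (P P' : Tp) : ℝ := P.r + P.r2 + (P'.r + P'.r2) + 1

lemma rQ_nonneg {P P' : Tp} (hP : P.Ok) (hP' : P'.Ok) : 0 ≤ rQ P P' := by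
  have h1 := hP.r
  have h2 := hP.r2
  have h3 := hP'.r
  have h4 := hP'.r2
  unfold rQ
  linarith

lemma pai_disp {i j : Fin 3} {P P' : Tp} {S T : ℝ} (hS : 0 < S) {a : W3 × W3} (ha : a ∈ Pai (ax i) (ax j) P P' S T) :
    ‖en a.1 - en a.2‖ < rQ P P' * S := by
  obtain ⟨s, hs, b, b', hb, hb', rfl⟩ := mem_Pai.1 ha
  rw [en_append hs.t1.ev, en_append hs.t2.ev]
  have h1 := norm_en_le hs.t1
  have h2 := norm_en_le hs.t2
  have h3 := norm_en_le hb.g.t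
  have h4 := norm_en_le hb'.g.t
  calc ‖en s.1 + en b - (en s.2 + en b')‖ ≤ ‖en s.1 + en b‖ + ‖en s.2 + en b'‖ := norm_sub_le _ _
    _ ≤ (‖en s.1‖ + ‖en b‖) + (‖en s.2‖ + ‖en b'‖) := add_le_add (norm_add_le _ _) (norm_add_le _ _)
    _ < rQ P P' * S := by
      unfold rQ
      linarith

/-- the pieces of a pair with the gates `k1`, `k2` -/
noncomputable def kQ2 (v : ℂ) (s T : ℝ) (a : W3 × W3) (k1 k2 : ℕ) : K4q :=
  ((pw v s T (a.1.take k1), pw v s T (a.1.drop k1).reverse), (pw v s T (a.2.take k2), pw v s T (a.2.drop k2).reverse))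

/-- **`gam` of the class `Pai` for a function of the pieces** -/
theorem gam_pai {i j : Fin 3} {P P' : Tp} (hP : P.Ok) (hP' : P'.Ok) (hm : P'.m = P.m) (hth : P'.th = P.th) {v : ℂ} {S T : ℝ}
    (hS : 0 < S) (hT : 0 < T) {e : K4q → ℝ} {f : W3 × W3 → ℝ≥0∞}
    (hf : ∀ a k1 k2, PaiM (ax i) (ax j) P P' S T a k1 k2 → f a = ENNReal.ofReal (e (kQ2 v S T a k1 k2))) (z : ℂ) :
    gam (Pai (ax i) (ax j) P P' S T) f z =
      gamB (SQ i j P P' S T) i j (mQ P S) (mQ P' S) (FI i j (mQ P S) (mQ P' S) (sQ P S) P P' v S T e) z := by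
  rw [gam_paiG hP hP' hS]
  refine gamB_cg (fun ω hω b hb b' hb' => ?_) z
  unfold FI cutW2
  have h1 := blQ_iff (i := i) (b := b) hP hS hT
  have h2 := blQ_iff (i := j) (b := b') hP' hS hT
  rw [sQ_eq hm hth] at h2
  by_cases hc : BlQ (ax i) P S T b ∧ BlQ (ax j) P' S T b'
  · obtain ⟨c1, c2⟩ := h1.1 hc.1
    obtain ⟨c3, c4⟩ := h2.1 hc.2
    rw [if_pos hc, if_pos ⟨c1, c3⟩, if_pos ⟨c2, c4⟩, one_mul, mul_one, hf _ _ _ (paiM_append hω hc.1 hc.2)]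
    unfold kQ2 kS
    simp only [List.take_left', List.drop_left']
  · rw [if_neg hc]
    by_cases c1 : (∃ k ∈ FBh (mQ P S) (sQ P S), rt i (wl k) = b) ∧ ∃ k ∈ FBh (mQ P' S) (sQ P S), rt j (wl k) = b'
    · rw [if_neg (show ¬ (iQ (ax i) P S T b ∧ iQ (ax j) P' S T b') from fun h =>
        hc ⟨h1.2 ⟨c1.1, h.1⟩, h2.2 ⟨c1.2, h.2⟩⟩), mul_zero, mul_zero]
    · rw [if_neg c1, zero_mul]

private lemma uT_pos {N : ℕ} (hN : 1 ≤ N) : 0 < uT N := by
  have : (0 : ℝ) < N := by exact_mod_cast hN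
  unfold uT
  positivity

/-- (S) **the sup bound at the scale `N`** (field `hsup` of `L3In`) -/
theorem sup_pai {i j : Fin 3} (hij : i ≠ j) {P P' : Tp} (hP : P.Ok) (hP' : P'.Ok) (hm : P'.m = P.m) (hth : P'.th = P.th)
    {N : ℕ} (hN : 1 ≤ N) {f e0 : W3 × W3 → ℝ≥0∞}
    (he : ∀ (a : W3 × W3) (b b' : W3), StQ (ev i) (ev j) P P' N (uT N) a → BlQ (ev i) P N (uT N) b → BlQ (ev j) P' N (uT N) b' →
      f (a.1 ++ b, a.2 ++ b') ≤ e0 a) (z : ℂ) :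
    gam (Pai (ev i) (ev j) P P' N (uT N)) f z ≤ ENNReal.ofReal (BQ P / (N : ℝ) ^ 2) * totQ (ev i) (ev j) P P' N (uT N) e0 := by
  simp only [ev_ax] at he ⊢
  exact gam_pai_sup hij hP hP' hm hth (by exact_mod_cast hN) (uT_pos hN) he z

/-- **the hypotheses of the limit at a root** (field `hgam` of `L3In`), any function of the pieces -/
theorem gamH_pai {U : Ultrafilter ℕ} (hU : (U : Filter ℕ) ≤ atTop) {i j : Fin 3} (hij : i ≠ j) {P P' : Tp} (hP : P.Ok)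
    (hP' : P'.Ok) (hm : P'.m = P.m) (hth : P'.th = P.th) (hG : GnQ U P) (hG' : GnQ U P') {v : ℂ} (hv : ‖v‖ = 1)
    {κ : ℕ → W3 × W3 → K4q}
    (hκ : ∀ᶠ N : ℕ in (U : Filter ℕ), ∀ a k1 k2, PaiM (ev i) (ev j) P P' N (uT N) a k1 k2 → κ N a = kQ2 v N (uT N) a k1 k2)
    {E : ℕ → W3 × W3 → ℝ≥0∞} (hE : ∀ᶠ N : ℕ in (U : Filter ℕ), ∀ a ∈ Pai (ev i) (ev j) P P' N (uT N), E N a = 1)
    {e : K4q → ℝ} (he : TF e) :
    GamH (U : Filter ℕ) (fun N => (N : ℝ)) (fun N => Pai (ev i) (ev j) P P' N (uT N))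
      (fun N a => E N a * ENNReal.ofReal (e (κ N a))) (fun N => totQ (ev i) (ev j) P P' N (uT N) fun _ => 1) (BQ P) (rQ P P') := by
  simp only [ev_ax] at hκ hE ⊢
  have h1N : ∀ᶠ N : ℕ in (U : Filter ℕ), 1 ≤ N := hU (eventually_ge_atTop 1)
  obtain ⟨he1, he01⟩ := id he
  have hle : ∀ᶠ N : ℕ in (U : Filter ℕ), ∀ a ∈ Pai (ax i) (ax j) P P' N (uT N), E N a * ENNReal.ofReal (e (κ N a)) ≤ 1 := by
    filter_upwards [hE] with N h a ha
    rw [h a ha, one_mul, ← ENNReal.ofReal_one]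
    exact ENNReal.ofReal_le_ofReal (he01 _).2
  have hf : ∀ᶠ N : ℕ in (U : Filter ℕ), ∀ a k1 k2, PaiM (ax i) (ax j) P P' N (uT N) a k1 k2 →
      E N a * ENNReal.ofReal (e (κ N a)) = ENNReal.ofReal (e (kQ2 v N (uT N) a k1 k2)) := by
    filter_upwards [hE, hκ] with N h1 h2 a k1 k2 ha
    rw [h1 a ⟨k1, k2, ha⟩, one_mul, h2 a k1 k2 ha]
  refine ⟨fun N a ha => ?_, Eventually.of_forall fun N => totQ_ne fun _ => ENNReal.one_ne_top, ?_, ?_, ?_, fun ε hε => ?_⟩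
  · obtain ⟨s, hs, b, b', hb, hb', rfl⟩ := mem_Pai.1 ha
    simp only [List.length_append]
    exact ⟨hs.t1.ev.add hb.g.t.ev, hs.t2.ev.add hb'.g.t.ev⟩
  · filter_upwards [h1N, hle] with N h1 h2
    have hN : (0 : ℝ) < N := by exact_mod_cast h1
    rw [tsum_gam]
    exact gam_tot_le (mul_pos hP.m hN) (mul_pos hP'.m hN) fun a b b' ha hb hb' => h2 _ (mem_Pai.2 ⟨a, ha, b, b', hb, hb', rfl⟩)
  · filter_upwards [h1N, hle] with N h1 h2 z
    exact gam_pai_sup hij hP hP' hm hth (by exact_mod_cast h1) (uT_pos h1)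
      (fun a b b' ha hb hb' => h2 _ (mem_Pai.2 ⟨a, ha, b, b', hb, hb', rfl⟩)) z
  · filter_upwards [h1N] with N h1 a ha _
    exact pai_disp (by exact_mod_cast h1) ha
  · have hmp := hP.m
    have htp := hP.th
    have hc : ∀ P : Tp, P.Ok → 0 ≤ P.c ∧ P.c ≤ 1 := fun P hP => ⟨by linarith [hP.c, hP.cs], by linarith [hP.c1]⟩
    obtain ⟨η, hη, h⟩ := gamB_main (l := (U : Filter ℕ)) hU hij (C0 := fun N => SQ i j P P' N (uT N))
      (Eventually.of_forall fun N => by rw [mass_SQ]; exact totQ_ne fun _ => ENNReal.one_ne_top) (hc P hP) (hc P' hP')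
      (m₁ := fun N => mQ P N) (m₂ := fun N => mQ P' N) (s₀ := fun N => sQ P N) (c0 := 2 * P.m / 3) (c1 := 2 * P.m / 3 + 1)
      (c2 := 2 * (P.th * P.m) / 3) (by positivity) (by linarith) (by positivity) (by
        filter_upwards [h1N] with N h1
        have hN : (1 : ℝ) ≤ N := by exact_mod_cast h1
        have a1 : 2 * (P.m * N) / 3 ≤ mQ P N := Nat.le_ceil _
        have a2 : (mQ P N : ℝ) < 2 * (P.m * N) / 3 + 1 := Nat.ceil_lt_add_one (by positivity)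
        have a3 : 2 * P.m / 3 * N = 2 * (P.m * N) / 3 := by ring
        have a4 : (2 * P.m / 3 + 1) * N = 2 * (P.m * N) / 3 + N := by ring
        rw [mQ_eq hm, a3, a4]
        exact ⟨⟨a1, by linarith⟩, ⟨a1, by linarith⟩⟩) (by
        filter_upwards with N
        have a1 : 2 * (P.th * P.m * N) / 3 ≤ sQ P N := Nat.le_ceil _
        have a3 : 2 * (P.th * P.m) / 3 * N = 2 * (P.th * P.m * N) / 3 := by ring
        rw [a3]
        exact a1) (win_of hG) (win_of hG') hv he hε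
    refine ⟨η, hη, ?_⟩
    filter_upwards [h, h1N, hf] with N g1 g2 g3 u hu hun
    have g4 := g1 u hu hun
    have hN : (0 : ℝ) < N := by exact_mod_cast g2
    rw [mass_SQ] at g4
    refine le_trans (le_of_eq (tsum_congr fun z => ?_)) g4
    rw [gam_pai hP hP' hm hth hN (uT_pos g2) g3, gam_pai hP hP' hm hth hN (uT_pos g2) g3]

end Pool.Agent.ROT.F3
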