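import Pool.Agent.ROT.F3Brd
import Pool.Agent.ROT.F3Sm

/-!
# ROT / F3N2 (helper38): the zone row in the frame `W3`

Connections at a root: start pieces `(a, a')` in `C0`, blocks `b` in `Fbi i m₁`, `b'` in `Fbi j m₂`, `i ≠ j`; the gates `x` are
the ends of `a ++ b`, `a' ++ b'`.

* `gamB C0 i j m₁ m₂ F z` : weight of the data with displacement `z` (of the second gates); `gam_eq` : `gam C e` is of this
  form;
* `gamB_eq` : it is the abstract `gam2` of `F3Sm`;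
* **`gamB_sup`** : (S) `gamB z ≤ C ^ 2 / s ^ 2 * mass` if both blocks have a cut in `[s, m)`;
* `bk b l` : the block seen from its end, read backward; `OscB`, `LipB` : Lipschitz in the blocks seen from their ends and in
  their lengths;
* **`gamB_l1`** : (L1) modulus for the shifts by the vectors of the lattice.
-/

set_option autoImplicit false

namespace Pool.Agent.ROT.F3

open Finset
open Pool.Agent.NTS.Res (step pos saw fug)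
open HexObs (oo up vx dx lev lat latE Brd BT Cut wE gf tf FC)
open HexObs.ROT.FP (FB FBh SB gam2 Ind2 HSup dp Mod1 mod1 Osc₁ Osc₂)
open scoped ENNReal Classical

/-! ### the lateral vectors -/

lemma ax_add (a i : Fin 3) : ax (a + i) = ax i * ax a := step_add_ax 0 a i

lemma ax_sub (i j : Fin 3) : ax i * (starRingEnd ℂ) (ax j) = ax (i - j) := by
  have h1 : ax i = ax j * ax (i - j) := by
    rw [← ax_add, sub_add_cancel]
  rw [h1, mul_right_comm, ax_conj, one_mul]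

lemma ax_re (i : Fin 3) : (ax i).re = if i = 0 then 1 else -(1 / 2) := by
  have h := step_re 0 i
  rw [if_pos (by decide), one_mul] at h
  exact h

lemma ax_im_ne {i : Fin 3} (hi : i ≠ 0) : (ax i).im ≠ 0 := by
  intro h
  have h1 := norm_ax i
  have h2 := ax_re i
  rw [if_neg hi] at h2
  have h3 : ‖ax i‖ ^ 2 = (ax i).re * (ax i).re + (ax i).im * (ax i).im := by
    rw [← Complex.normSq_eq_norm_sq, Complex.normSq_apply]
  rw [h1, h2, h] at h3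
  norm_num at h3

/-- the directions `ax i`, `ax j` are independent over the real numbers -/
lemma ax_ind {i j : Fin 3} (hij : i ≠ j) {r s : ℝ} (h : (r : ℂ) * ax i = s * ax j) : r = 0 ∧ s = 0 := by
  have h1 : (r : ℂ) * ax (i - j) = s := by
    rw [← ax_sub, ← mul_assoc, h, mul_assoc, ax_conj, mul_one]
  have h2 := congrArg Complex.im h1
  rw [Complex.im_ofReal_mul, Complex.ofReal_im] at h2
  have hr : r = 0 := by
    rcases mul_eq_zero.1 h2 with h3 | h3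
    · exact h3
    · exact absurd h3 (ax_im_ne (sub_ne_zero.2 hij))
  refine ⟨hr, ?_⟩
  rw [hr, Complex.ofReal_zero, zero_mul] at h1
  exact_mod_cast h1.symm

/-- the lateral vector of one unit of `latE` -/
noncomputable def la (i : Fin 3) : ℂ := -((Real.sqrt 3 / 2 : ℝ) : ℂ) * Complex.I * ax i

/-- the vector of one unit of `lev` -/
noncomputable def lo (i : Fin 3) : ℂ := ax i / 2

lemma en_block (i : Fin 3) (t : List Bool) : en (rt i (wl t)) = lev t t.length • lo i + latE t • la i := by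
  rw [en_rt_wl]
  have h1 : (⟨(lev t t.length : ℝ) / 2, -(Real.sqrt 3 / 2 * latE t)⟩ : ℂ) =
      ((lev t t.length : ℝ) / 2 : ℝ) + ((-(Real.sqrt 3 / 2 * latE t) : ℝ) : ℂ) * Complex.I :=
    Complex.mk_eq_add_mul_I _ _
  rw [h1]
  unfold lo la
  rw [zsmul_eq_mul, zsmul_eq_mul]
  push_cast
  ring

lemma ind_la {i j : Fin 3} (hij : i ≠ j) : Ind2 (la i) (-la j) := by
  intro X Y X' Y' h
  have h3 : (Real.sqrt 3 / 2 : ℝ) ≠ 0 := by positivity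
  have h1 : (((X - X' : ℤ) : ℝ) : ℂ) * ax i = (((Y - Y' : ℤ) : ℝ) : ℂ) * ax j := by
    have h2 : (((Real.sqrt 3 / 2 : ℝ) : ℂ) * Complex.I) * ((((X - X' : ℤ) : ℝ) : ℂ) * ax i) =
        (((Real.sqrt 3 / 2 : ℝ) : ℂ) * Complex.I) * ((((Y - Y' : ℤ) : ℝ) : ℂ) * ax j) := by
      unfold la at h
      simp only [zsmul_eq_mul] at h
      push_cast at h ⊢
      linear_combination -h
    have h4 : ((Real.sqrt 3 / 2 : ℝ) : ℂ) * Complex.I ≠ 0 := mul_ne_zero (by exact_mod_cast h3) Complex.I_ne_zero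
    exact mul_left_cancel₀ h4 h2
  obtain ⟨h5, h6⟩ := ax_ind hij h1
  have h7 : X - X' = 0 := by exact_mod_cast h5
  have h8 : Y - Y' = 0 := by exact_mod_cast h6
  constructor <;> omega

/-! ### the weights -/

/-- weight of the connections with start pieces in `C0` and blocks of the axes `i`, `j`, displacement `z` -/
noncomputable def gamB (C0 : Set (W3 × W3)) (i j : Fin 3) (m₁ m₂ : ℕ) (F : W3 × W3 → W3 → W3 → ℝ≥0∞) (z : ℂ) : ℝ≥0∞ :=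
  ∑' ω : C0, wx ω.1.1 * wx ω.1.2 * ∑' b : Fbi i m₁, ∑' b' : Fbi j m₂, wx b.1 * (wx b'.1 *
    if en ω.1.1 + en b.1 - (en ω.1.2 + en b'.1) = z then F ω.1 b.1 b'.1 else 0)

/-- the mass of the start pieces -/
noncomputable def mass0 (C0 : Set (W3 × W3)) : ℝ≥0∞ := ∑' ω : C0, wx ω.1.1 * wx ω.1.2

/-- **the connections of a class `C` whose elements decompose uniquely** -/
theorem gam_eq {C C0 : Set (W3 × W3)} {i j : Fin 3} {m₁ m₂ : ℕ} (he : ∀ ω ∈ C0, Even ω.1.length ∧ Even ω.2.length)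
    (hdec : ∀ π ∈ C, ∃ ω ∈ C0, ∃ b ∈ Fbi i m₁, ∃ b' ∈ Fbi j m₂, π = (ω.1 ++ b, ω.2 ++ b'))
    (huni : ∀ ω ∈ C0, ∀ ω' ∈ C0, ∀ b ∈ Fbi i m₁, ∀ b₁ ∈ Fbi i m₁, ∀ b' ∈ Fbi j m₂, ∀ b₁' ∈ Fbi j m₂,
      ω.1 ++ b = ω'.1 ++ b₁ → ω.2 ++ b' = ω'.2 ++ b₁' → ω = ω') (e : W3 × W3 → ℝ≥0∞) (z : ℂ) :
    gam C e z = gamB C0 i j m₁ m₂ (fun ω b b' => if (ω.1 ++ b, ω.2 ++ b') ∈ C then e (ω.1 ++ b, ω.2 ++ b') else 0) z := by
  unfold gam gamB
  let X := C0 × Fbi i m₁ × Fbi j m₂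
  let g : X → W3 × W3 := fun x => (x.1.1.1 ++ x.2.1.1, x.1.1.2 ++ x.2.2.1)
  let G : W3 × W3 → ℝ≥0∞ := fun a => if a ∈ C ∧ en a.1 - en a.2 = z then wx a.1 * wx a.2 * e a else 0
  have hg : Function.Injective g := by
    rintro ⟨⟨ω, hω⟩, ⟨b, hb⟩, ⟨b', hb'⟩⟩ ⟨⟨ω₁, hω₁⟩, ⟨b₁, hb₁⟩, ⟨b₁', hb₁'⟩⟩ h
    have h1 : ω.1 ++ b = ω₁.1 ++ b₁ := congrArg Prod.fst h
    have h2 : ω.2 ++ b' = ω₁.2 ++ b₁' := congrArg Prod.snd h
    obtain rfl := huni ω hω ω₁ hω₁ b hb b₁ hb₁ b' hb' b₁' hb₁' h1 h2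
    obtain rfl := List.append_cancel_left h1
    obtain rfl := List.append_cancel_left h2
    rfl
  have hsup : Function.support G ⊆ Set.range g := by
    intro a ha
    have h1 : a ∈ C := by
      by_contra hc
      apply ha
      simp only [G]
      rw [if_neg fun h => hc h.1]
    obtain ⟨ω, hω, b, hb, b', hb', rfl⟩ := hdec a h1
    exact ⟨⟨⟨ω, hω⟩, ⟨b, hb⟩, ⟨b', hb'⟩⟩, rfl⟩
  have h1 : ∑' a : W3 × W3, G a = ∑' x : X, G (g x) := (hg.tsum_eq hsup).symm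
  show ∑' a : W3 × W3, G a = _
  rw [h1, ENNReal.tsum_prod']
  refine tsum_congr fun ω => ?_
  rw [ENNReal.tsum_prod', ← ENNReal.tsum_mul_left]
  refine tsum_congr fun b => ?_
  rw [← ENNReal.tsum_mul_left]
  refine tsum_congr fun b' => ?_
  show (if (ω.1.1 ++ b.1, ω.1.2 ++ b'.1) ∈ C ∧ en (ω.1.1 ++ b.1) - en (ω.1.2 ++ b'.1) = z then
    wx (ω.1.1 ++ b.1) * wx (ω.1.2 ++ b'.1) * e (ω.1.1 ++ b.1, ω.1.2 ++ b'.1) else 0) =
    wx ω.1.1 * wx ω.1.2 * (wx b.1 * (wx b'.1 * if en ω.1.1 + en b.1 - (en ω.1.2 + en b'.1) = z then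
      (if (ω.1.1 ++ b.1, ω.1.2 ++ b'.1) ∈ C then e (ω.1.1 ++ b.1, ω.1.2 ++ b'.1) else 0) else 0))
  have e1 : en (ω.1.1 ++ b.1) = en ω.1.1 + en b.1 := en_append (he ω.1 ω.2).1
  have e2 : en (ω.1.2 ++ b'.1) = en ω.1.2 + en b'.1 := en_append (he ω.1 ω.2).2
  rw [e1, e2, wx_append, wx_append]
  by_cases hc : (ω.1.1 ++ b.1, ω.1.2 ++ b'.1) ∈ C
  · by_cases hz : en ω.1.1 + en b.1 - (en ω.1.2 + en b'.1) = z
    · rw [if_pos ⟨hc, hz⟩, if_pos hz, if_pos hc]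
      ring
    · rw [if_neg fun h => hz h.2, if_neg hz]
      ring
  · rw [if_neg fun h => hc h.1, if_neg hc]
    split_ifs <;> ring

/-- the abstract form -/
theorem gamB_eq (C0 : Set (W3 × W3)) (i j : Fin 3) (m₁ m₂ : ℕ) (F : W3 × W3 → W3 → W3 → ℝ≥0∞) (z : ℂ) :
    gamB C0 i j m₁ m₂ F z = gam2 (fun ω : C0 => wx ω.1.1 * wx ω.1.2) m₁ m₂ (fun ω : C0 => en ω.1.1 - en ω.1.2) (lo i) (la i)
      (-lo j) (-la j) (fun ω k₁ k₂ => F ω.1 (rt i (wl k₁)) (rt j (wl k₂))) z := by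
  unfold gamB gam2 HexObs.ROT.FP.bl2
  refine tsum_congr fun ω => ?_
  congr 1
  have h1 : ∀ b : Fbi i m₁, ∑' b' : Fbi j m₂, wx b.1 * (wx b'.1 *
      (if en ω.1.1 + en b.1 - (en ω.1.2 + en b'.1) = z then F ω.1 b.1 b'.1 else 0)) =
      wx b.1 * ∑' b' : Fbi j m₂, wx b'.1 *
        (if en ω.1.1 + en b.1 - (en ω.1.2 + en b'.1) = z then F ω.1 b.1 b'.1 else 0) := fun b => ENNReal.tsum_mul_left
  rw [tsum_congr h1, sum_Fbi i m₁ (fun b => ∑' b' : Fbi j m₂, wx b'.1 *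
    (if en ω.1.1 + en b - (en ω.1.2 + en b'.1) = z then F ω.1 b b'.1 else 0))]
  refine tsum_congr fun k₁ => ?_
  rw [sum_Fbi j m₂ (fun b' => if en ω.1.1 + en (rt i (wl k₁.1)) - (en ω.1.2 + en b') = z then
    F ω.1 (rt i (wl k₁.1)) b' else 0), ← ENNReal.tsum_mul_left]
  refine tsum_congr fun k₂ => ?_
  have h2 : en ω.1.1 + en (rt i (wl k₁.1)) - (en ω.1.2 + en (rt j (wl k₂.1))) =
      dp (fun ω : C0 => en ω.1.1 - en ω.1.2) (lo i) (la i) (-lo j) (-la j) ω k₁.1 k₂.1 := by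
    unfold dp
    rw [en_block, en_block, smul_neg, smul_neg]
    ring
  rw [h2]

/-- (S) **the weight of one displacement** -/
theorem gamB_sup {C : ℝ} (hC : HSup C) {i j : Fin 3} (hij : i ≠ j) {s m₁ m₂ : ℕ} (hs : 1 ≤ s) (hm₁ : 1 ≤ m₁)
    (hm₂ : 1 ≤ m₂) (C0 : Set (W3 × W3)) {F : W3 × W3 → W3 → W3 → ℝ≥0∞} (hF : ∀ ω b b', F ω b b' ≤ 1)
    (hF0 : ∀ ω, ∀ k₁ ∈ FB m₁, ∀ k₂ ∈ FB m₂, F ω (rt i (wl k₁)) (rt j (wl k₂)) ≠ 0 → k₁ ∈ FBh m₁ s ∧ k₂ ∈ FBh m₂ s)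
    (z : ℂ) : gamB C0 i j m₁ m₂ F z ≤ ENNReal.ofReal (C ^ 2 / s ^ 2) * mass0 C0 := by
  rw [gamB_eq]
  unfold mass0
  have h1 := HexObs.ROT.FP.bl2_sup hC (ind_la hij) hs hm₁ hm₂ (fun ω : C0 => wx ω.1.1 * wx ω.1.2)
    (fun ω : C0 => en ω.1.1 - en ω.1.2) (lo i) (-lo j)
    (e := fun ω k₁ k₂ => if k₁ ∈ FB m₁ ∧ k₂ ∈ FB m₂ then F ω.1 (rt i (wl k₁)) (rt j (wl k₂)) else 0)
    (fun ω k₁ k₂ => by
      by_cases h : k₁ ∈ FB m₁ ∧ k₂ ∈ FB m₂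
      · rw [if_pos h]
        exact hF _ _ _
      · rw [if_neg h]
        exact zero_le)
    (fun ω k₁ k₂ h => by
      by_cases h2 : k₁ ∈ FB m₁ ∧ k₂ ∈ FB m₂
      · rw [if_pos h2] at h
        exact hF0 ω.1 k₁ h2.1 k₂ h2.2 h
      · rw [if_neg h2] at h
        exact absurd rfl h) z
  refine le_trans ?_ h1
  unfold gam2
  refine HexObs.ROT.FP.bl2_mono fun ω _ k₁ h₁ k₂ h₂ => ?_
  by_cases hz : dp (fun ω : C0 => en ω.1.1 - en ω.1.2) (lo i) (la i) (-lo j) (-la j) ω k₁ k₂ = z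
  · rw [if_pos hz, if_pos hz]
    show F ω.1 (rt i (wl k₁)) (rt j (wl k₂)) ≤ if k₁ ∈ FB m₁ ∧ k₂ ∈ FB m₂ then F ω.1 (rt i (wl k₁)) (rt j (wl k₂)) else 0
    rw [if_pos ⟨h₁, h₂⟩]
  · rw [if_neg hz, if_neg hz]

/-! ### the blocks seen from their ends -/

/-- the block seen from its end, read backward -/
noncomputable def bk (b : W3) (l : ℕ) : ℂ := ps b (b.length - l) - en b

/-- sup distance of two blocks seen from their ends -/
def Bd (ρ : ℝ) (b b₁ : W3) : Prop := ∀ l : ℕ, ‖bk b l - bk b₁ l‖ ≤ ρ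

lemma Bd.symm {ρ : ℝ} {b b₁ : W3} (h : Bd ρ b b₁) : Bd ρ b₁ b := fun l => by
  rw [← norm_neg, neg_sub]
  exact h l

lemma bk_append {s r : W3} (hs : Even s.length) (l : ℕ) :
    bk (s ++ r) l = if l ≤ r.length then ps r (r.length - l) - en r else ps s (s.length - (l - r.length)) - en s - en r := by
  unfold bk
  rw [en_append hs, List.length_append]
  by_cases h : l ≤ r.length
  · rw [if_pos h, show s.length + r.length - l = s.length + (r.length - l) by omega, ps_append_right hs]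
    ring
  · rw [if_neg h, ps_append_left (show s.length + r.length - l ≤ s.length by omega),
      show s.length + r.length - l = s.length - (l - r.length) by omega]
    ring

/-- replacing the initial piece moves the block, seen from its end, by at most `4 ρ` -/
lemma bd_append {s s' r : W3} (hs : Even s.length) (hs' : Even s'.length) {ρ : ℝ} (h : ∀ k, k ≤ s.length → ‖ps s k‖ ≤ ρ)
    (h' : ∀ k, k ≤ s'.length → ‖ps s' k‖ ≤ ρ) : Bd (4 * ρ) (s ++ r) (s' ++ r) := by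
  intro l
  have h0 : 0 ≤ ρ := (norm_nonneg _).trans (h 0 (Nat.zero_le _))
  rw [bk_append hs, bk_append hs']
  by_cases hl : l ≤ r.length
  · rw [if_pos hl, if_pos hl, sub_self, norm_zero]
    positivity
  · rw [if_neg hl, if_neg hl]
    have e1 : ps s (s.length - (l - r.length)) - en s - en r - (ps s' (s'.length - (l - r.length)) - en s' - en r) =
        (ps s (s.length - (l - r.length)) - en s) - (ps s' (s'.length - (l - r.length)) - en s') := by ring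
    rw [e1]
    have h1 := h (s.length - (l - r.length)) (Nat.sub_le _ _)
    have h2 := h s.length le_rfl
    have h3 := h' (s'.length - (l - r.length)) (Nat.sub_le _ _)
    have h4 := h' s'.length le_rfl
    calc _ ≤ ‖ps s (s.length - (l - r.length)) - en s‖ + ‖ps s' (s'.length - (l - r.length)) - en s'‖ := norm_sub_le _ _
      _ ≤ (‖ps s (s.length - (l - r.length))‖ + ‖en s‖) + (‖ps s' (s'.length - (l - r.length))‖ + ‖en s'‖) :=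
          add_le_add (norm_sub_le _ _) (norm_sub_le _ _)
      _ ≤ 4 * ρ := by
          unfold en
          linarith

/-- the vertices of a small piece -/
lemma norm_wl {T W : ℕ} {s : List Bool} (hs : s ∈ Brd T) (hT : T ≤ W) (hb : ∀ i, i ≤ s.length → |lat s i| ≤ (W : ℤ))
    (i : Fin 3) {k : ℕ} (hk : k ≤ (rt i (wl s)).length) : ‖ps (rt i (wl s)) k‖ ≤ 3 * W := by
  rw [rt_length, wl_length] at hk
  rw [ps_rt, norm_mul, norm_ax, one_mul]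
  have h6 : |(ps (wl s) k).re| ≤ 3 / 2 * W := by
    rw [re_wl s hk]
    have h7 : (0 : ℤ) ≤ lev s k ∧ lev s k ≤ 3 * T := by
      rcases Nat.eq_zero_or_pos k with h0 | h0
      · rw [h0, HexObs.lev_zero]
        constructor <;> omega
      · have := (HexObs.mem_Brd.1 hs).1 k h0 hk
        exact ⟨this.1.le, this.2⟩
    have h8 : (0 : ℝ) ≤ lev s k := by exact_mod_cast h7.1
    have h9 : (lev s k : ℝ) ≤ 3 * T := by exact_mod_cast h7.2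
    have h10 : (T : ℝ) ≤ W := by exact_mod_cast hT
    rw [abs_of_nonneg (by linarith)]
    linarith
  have h7 : |(ps (wl s) k).im| ≤ W := by
    have h9 : |lat s k| ≤ W := hb k hk
    have h10 : |(lat s k : ℝ)| ≤ W := by exact_mod_cast h9
    rw [im_wl s hk, abs_neg, abs_mul, abs_of_nonneg (by positivity)]
    have h11 : Real.sqrt 3 ≤ 2 := Real.sqrt_le_iff.2 ⟨by norm_num, by norm_num⟩
    have h12 := abs_nonneg (lat s k : ℝ)
    nlinarith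
  have h8 := Complex.norm_le_abs_re_add_abs_im (ps (wl s) k)
  have h9 : (0 : ℝ) ≤ W := by positivity
  linarith

/-! ### oscillation -/

/-- the bound of the oscillation: distance `ρ` of the curves, difference `l` of the lengths, scale `m` -/
noncomputable def oB (κ : ℝ) (m : ℕ) (ρ l : ℝ) : ℝ := κ * (ρ / m + l / (m : ℝ) ^ ((4 : ℝ) / 3))

/-- the blocks `b`, `b₁` seen from their ends differ by at most `ρ`, and their lengths by at most `l` -/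
def Bdl (ρ l : ℝ) (b b₁ : W3) : Prop := Bd ρ b b₁ ∧ |(b.length : ℝ) - b₁.length| ≤ l

/-- the function `F` of the connection changes by at most `κ * (ρ / m + l / m ^ (4 / 3))` if the initial piece (up to the first
cut at height `m / K` or more) of one of the two blocks is replaced by another one of the same height, and the block seen from
its end moves by at most `ρ`, its length by at most `l` -/
structure OscB (C0 : Set (W3 × W3)) (i j : Fin 3) (m₁ m₂ K : ℕ) (κ : ℝ) (F : W3 × W3 → W3 → W3 → ℝ≥0∞) : Prop where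
  o1 : ∀ ω ∈ C0, ∀ T, T < m₁ → ∀ s ∈ FC (m₁ / K) T, ∀ s' ∈ FC (m₁ / K) T, ∀ r ∈ FB (m₁ - T), ∀ k ∈ FB m₂,
    ∀ ρ l : ℝ, 0 ≤ ρ → 0 ≤ l → Bdl ρ l (rt i (wl (s ++ r))) (rt i (wl (s' ++ r))) →
      F ω (rt i (wl (s ++ r))) (rt j (wl k)) ≤ F ω (rt i (wl (s' ++ r))) (rt j (wl k)) + ENNReal.ofReal (oB κ m₁ ρ l)
  o2 : ∀ ω ∈ C0, ∀ T, T < m₂ → ∀ s ∈ FC (m₂ / K) T, ∀ s' ∈ FC (m₂ / K) T, ∀ r ∈ FB (m₂ - T), ∀ k ∈ FB m₁,
    ∀ ρ l : ℝ, 0 ≤ ρ → 0 ≤ l → Bdl ρ l (rt j (wl (s ++ r))) (rt j (wl (s' ++ r))) →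
      F ω (rt i (wl k)) (rt j (wl (s ++ r))) ≤ F ω (rt i (wl k)) (rt j (wl (s' ++ r))) + ENNReal.ofReal (oB κ m₂ ρ l)

/-- Lipschitz in the blocks seen from their ends, and in their lengths, at the scale `N` -/
def LipB (κ : ℝ) (N : ℕ) (F : W3 × W3 → W3 → W3 → ℝ≥0∞) : Prop := ∀ ω b b₁ b', ∀ ρ l : ℝ, 0 ≤ ρ → 0 ≤ l → Bdl ρ l b b₁ →
  F ω b b' ≤ F ω b₁ b' + ENNReal.ofReal (oB κ N ρ l) ∧ F ω b' b ≤ F ω b' b₁ + ENNReal.ofReal (oB κ N ρ l)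

lemma oB_anti {κ : ℝ} (hκ : 0 ≤ κ) {m N : ℕ} (hm : 1 ≤ m) (hmN : m ≤ N) {ρ l : ℝ} (hρ : 0 ≤ ρ) (hl : 0 ≤ l) :
    oB κ N ρ l ≤ oB κ m ρ l := by
  unfold oB
  have h1 : (0 : ℝ) < m := by exact_mod_cast hm
  have h2 : (m : ℝ) ≤ N := by exact_mod_cast hmN
  have h3 : (m : ℝ) ^ ((4 : ℝ) / 3) ≤ (N : ℝ) ^ ((4 : ℝ) / 3) := Real.rpow_le_rpow h1.le h2 (by norm_num)
  have h4 : 0 < (m : ℝ) ^ ((4 : ℝ) / 3) := Real.rpow_pos_of_pos h1 _
  exact mul_le_mul_of_nonneg_left (add_le_add (div_le_div_of_nonneg_left hρ h1 h2)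
    (div_le_div_of_nonneg_left hl h4 h3)) hκ

lemma LipB.osc {κ : ℝ} {N : ℕ} {F : W3 × W3 → W3 → W3 → ℝ≥0∞} (h : LipB κ N F) (hκ : 0 ≤ κ) {m₁ m₂ : ℕ} (h₁ : 1 ≤ m₁)
    (h₁' : m₁ ≤ N) (h₂ : 1 ≤ m₂) (h₂' : m₂ ≤ N) (C0 : Set (W3 × W3)) (i j : Fin 3) (K : ℕ) : OscB C0 i j m₁ m₂ K κ F :=
  ⟨fun ω _ _ _ _ _ _ _ _ _ k _ ρ l hρ hl hb => ((h ω _ _ (rt j (wl k)) ρ l hρ hl hb).1).trans
      (add_le_add le_rfl (ENNReal.ofReal_le_ofReal (oB_anti hκ h₁ h₁' hρ hl))),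
    fun ω _ _ _ _ _ _ _ _ _ k _ ρ l hρ hl hb => ((h ω _ _ (rt i (wl k)) ρ l hρ hl hb).2).trans
      (add_le_add le_rfl (ENNReal.ofReal_le_ofReal (oB_anti hκ h₂ h₂' hρ hl)))⟩

private lemma mul_osc {a b a' b' x y : ℝ≥0∞} (hb : b ≤ 1) (ha' : a' ≤ 1) (h1 : a ≤ a' + x) (h2 : b ≤ b' + y) :
    a * b ≤ a' * b' + (x + y) := by
  calc a * b ≤ (a' + x) * b := mul_le_mul_left h1 _
    _ = a' * b + x * b := add_mul _ _ _
    _ ≤ a' * (b' + y) + x := add_le_add (mul_le_mul_right h2 _) (mul_le_of_le_one_right' hb)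
    _ = a' * b' + a' * y + x := by rw [mul_add]
    _ ≤ a' * b' + y + x := add_le_add (add_le_add le_rfl (mul_le_of_le_one_left' ha')) le_rfl
    _ = a' * b' + (x + y) := by rw [add_assoc, add_comm y x]

private lemma oB_nonneg {κ : ℝ} (hκ : 0 ≤ κ) {m : ℕ} {ρ l : ℝ} (hρ : 0 ≤ ρ) (hl : 0 ≤ l) : 0 ≤ oB κ m ρ l := by
  unfold oB
  positivity

/-- products -/
lemma OscB.mul {C0 : Set (W3 × W3)} {i j : Fin 3} {m₁ m₂ K : ℕ} {κ κ' : ℝ} {F G : W3 × W3 → W3 → W3 → ℝ≥0∞}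
    (hκ : 0 ≤ κ) (hκ' : 0 ≤ κ') (hF : OscB C0 i j m₁ m₂ K κ F) (hG : OscB C0 i j m₁ m₂ K κ' G)
    (hF1 : ∀ ω b b', F ω b b' ≤ 1) (hG1 : ∀ ω b b', G ω b b' ≤ 1) :
    OscB C0 i j m₁ m₂ K (κ + κ') (fun ω b b' => F ω b b' * G ω b b') := by
  have e : ∀ (m : ℕ) (ρ l : ℝ), 0 ≤ ρ → 0 ≤ l →
      ENNReal.ofReal (oB (κ + κ') m ρ l) = ENNReal.ofReal (oB κ m ρ l) + ENNReal.ofReal (oB κ' m ρ l) := by
    intro m ρ l hρ hl
    rw [← ENNReal.ofReal_add (oB_nonneg hκ hρ hl) (oB_nonneg hκ' hρ hl)]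
    unfold oB
    rw [add_mul]
  constructor
  · intro ω hω T hT s hs s' hs' r hr k hk ρ l hρ hl hb
    rw [e m₁ ρ l hρ hl]
    exact mul_osc (hG1 _ _ _) (hF1 _ _ _) (hF.o1 ω hω T hT s hs s' hs' r hr k hk ρ l hρ hl hb)
      (hG.o1 ω hω T hT s hs s' hs' r hr k hk ρ l hρ hl hb)
  · intro ω hω T hT s hs s' hs' r hr k hk ρ l hρ hl hb
    rw [e m₂ ρ l hρ hl]
    exact mul_osc (hG1 _ _ _) (hF1 _ _ _) (hF.o2 ω hω T hT s hs s' hs' r hr k hk ρ l hρ hl hb)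
      (hG.o2 ω hω T hT s hs s' hs' r hr k hk ρ l hρ hl hb)

/-- a cut of a block behind its initial piece -/
private lemma cut_shift {m' T c n : ℕ} {s r : List Bool} (hs : s ∈ FC m' T) (hr : r ∈ Brd n) (hc : m' ≤ c) :
    HexObs.Cut (s ++ r) c ↔ T ≤ c ∧ HexObs.Cut r (c - T) := by
  constructor
  · rintro ⟨a, u, b, ha, hu, he⟩
    rcases Nat.lt_or_ge c T with h | h
    · exfalso
      obtain ⟨v, hv, h1, h2⟩ := HexObs.FCaux.nested ha hs.1 hu hr h.le he.symm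
      exact hs.2.2 c hc h ⟨a, v, _, ha, hv, h1⟩
    · obtain ⟨v, hv, h1, h2⟩ := HexObs.FCaux.nested hs.1 ha hr hu h he
      exact ⟨h, v, u, b, hv, hu, h2⟩
  · rintro ⟨h, a, u, b, ha, hu, rfl⟩
    refine ⟨s ++ a, u, b, ?_, hu, (List.append_assoc s a u).symm⟩
    have := HexObs.Brd_append hs.1 ha
    rwa [Nat.add_sub_of_le h] at this

/-- to have a cut in `[s₀, m)` does not depend on the initial piece -/
lemma fbh_swap {m m' s₀ T : ℕ} (hm : 1 ≤ m) (hs₀ : m' ≤ s₀) (hT : T < m) {s s' r : List Bool} (hs : s ∈ FC m' T)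
    (hs' : s' ∈ FC m' T) (hr : r ∈ FB (m - T)) : s ++ r ∈ FBh m s₀ ↔ s' ++ r ∈ FBh m s₀ := by
  have key : ∀ {s s' : List Bool}, s ∈ FC m' T → s' ∈ FC m' T → s ++ r ∈ FBh m s₀ → s' ++ r ∈ FBh m s₀ := by
    intro s s' hs hs' h
    obtain ⟨T', hr'⟩ := hr
    obtain ⟨h1, c, h2, h3, h4⟩ := (HexObs.ROT.FP.fbh_iff hm _).1 h
    obtain ⟨h5, h6⟩ := (cut_shift hs hr'.1 (hs₀.trans h2)).1 h4
    exact (HexObs.ROT.FP.fbh_iff hm _).2 ⟨⟨_, HexObs.ROT.FP.fc_append hs' hT hr'⟩, c, h2, h3,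
      (cut_shift hs' hr'.1 (hs₀.trans h2)).2 ⟨h5, h6⟩⟩
  exact ⟨key hs hs', key hs' hs⟩

/-- the indicator that both blocks have a cut in `[s₀, m)` -/
noncomputable def cutW2 (i j : Fin 3) (m₁ m₂ s₀ : ℕ) (_ : W3 × W3) (b b' : W3) : ℝ≥0∞ :=
  if (∃ k ∈ FBh m₁ s₀, rt i (wl k) = b) ∧ ∃ k ∈ FBh m₂ s₀, rt j (wl k) = b' then 1 else 0

lemma cutW2_le (i j : Fin 3) (m₁ m₂ s₀ : ℕ) (ω : W3 × W3) (b b' : W3) : cutW2 i j m₁ m₂ s₀ ω b b' ≤ 1 := by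
  unfold cutW2
  split_ifs
  · exact le_rfl
  · exact zero_le

private lemma fbh_wl {m s₀ : ℕ} (hm : 1 ≤ m) {i : Fin 3} {k : List Bool} (hk : dx up k k.length = up) :
    (∃ k' ∈ FBh m s₀, rt i (wl k') = rt i (wl k)) ↔ k ∈ FBh m s₀ := by
  constructor
  · rintro ⟨k', hk', he⟩
    have h1 := wl_inj (up_of_FB ((HexObs.ROT.FP.fbh_iff hm _).1 hk').1) hk (rt_inj he)
    rwa [← h1]
  · intro h
    exact ⟨k, h, rfl⟩

/-- support of `cutW2`, for `gamB_sup` -/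
lemma cutW2_ne {i j : Fin 3} {m₁ m₂ s₀ : ℕ} (hm₁ : 1 ≤ m₁) (hm₂ : 1 ≤ m₂) (ω : W3 × W3) {k₁ k₂ : List Bool}
    (h₁ : k₁ ∈ FB m₁) (h₂ : k₂ ∈ FB m₂) (h : cutW2 i j m₁ m₂ s₀ ω (rt i (wl k₁)) (rt j (wl k₂)) ≠ 0) :
    k₁ ∈ FBh m₁ s₀ ∧ k₂ ∈ FBh m₂ s₀ := by
  unfold cutW2 at h
  rw [fbh_wl hm₁ (up_of_FB h₁), fbh_wl hm₂ (up_of_FB h₂)] at h
  by_contra hc
  exact h (if_neg hc)

lemma cutW2_osc (C0 : Set (W3 × W3)) (i j : Fin 3) {m₁ m₂ K s₀ : ℕ} (hm₁ : 1 ≤ m₁) (hm₂ : 1 ≤ m₂) (hs₁ : m₁ / K ≤ s₀)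
    (hs₂ : m₂ / K ≤ s₀) : OscB C0 i j m₁ m₂ K 0 (cutW2 i j m₁ m₂ s₀) := by
  have e : ∀ {m m' T : ℕ} {s r : List Bool}, T < m → s ∈ FC m' T → r ∈ FB (m - T) →
      dx up (s ++ r) (s ++ r).length = up := by
    rintro m m' T s r hT hs ⟨T', hr⟩
    exact up_of_Brd (HexObs.Brd_append hs.1 hr.1)
  constructor
  · intro ω _ T hT s hs s' hs' r hr k hk ρ l _ _ _
    refine le_trans (le_of_eq ?_) le_self_add
    unfold cutW2
    rw [fbh_wl hm₁ (e hT hs hr), fbh_wl hm₁ (e hT hs' hr), fbh_swap hm₁ hs₁ hT hs hs' hr]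
  · intro ω _ T hT s hs s' hs' r hr k hk ρ l _ _ _
    refine le_trans (le_of_eq ?_) le_self_add
    unfold cutW2
    rw [fbh_wl hm₂ (e hT hs hr), fbh_wl hm₂ (e hT hs' hr), fbh_swap hm₂ hs₂ hT hs hs' hr]

/-! ### the modulus -/

/-- the lateral lattice vector of the axis `i` -/
noncomputable def lv2 (i : Fin 3) : ℂ := ((Real.sqrt 3 : ℝ) : ℂ) * Complex.I * ax i

private lemma oB_small {κ : ℝ} (hκ : 0 ≤ κ) {M K m : ℕ} (hK : 1 ≤ K) (hm : 1 ≤ m) :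
    oB κ m (12 * (M * (m / K) : ℕ)) (M * ((m / K : ℕ) : ℝ) ^ ((4 : ℝ) / 3)) ≤ 13 * κ * M / K := by
  have hmr : (0 : ℝ) < m := by exact_mod_cast hm
  have hKr : (1 : ℝ) ≤ K := by exact_mod_cast hK
  have hK0 : (0 : ℝ) < K := by linarith
  have h0 : ((m / K : ℕ) : ℝ) ≤ m / K := Nat.cast_div_le
  have h1 : ((M * (m / K) : ℕ) : ℝ) ≤ M * (m / K) := by
    rw [Nat.cast_mul]
    exact mul_le_mul_of_nonneg_left h0 (by positivity)
  have h2 : 12 * ((M * (m / K) : ℕ) : ℝ) / m ≤ 12 * M / K := by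
    rw [div_le_iff₀ hmr]
    calc 12 * ((M * (m / K) : ℕ) : ℝ) ≤ 12 * (M * (m / K)) := mul_le_mul_of_nonneg_left h1 (by norm_num)
      _ = 12 * M / K * m := by
          field_simp
  have h3 : (M : ℝ) * ((m / K : ℕ) : ℝ) ^ ((4 : ℝ) / 3) / (m : ℝ) ^ ((4 : ℝ) / 3) ≤ M / K := by
    rw [div_le_iff₀ (Real.rpow_pos_of_pos hmr _)]
    have h4 : ((m / K : ℕ) : ℝ) ^ ((4 : ℝ) / 3) ≤ (m / K : ℝ) ^ ((4 : ℝ) / 3) :=
      Real.rpow_le_rpow (Nat.cast_nonneg _) h0 (by norm_num)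
    have h5 : (m / K : ℝ) ^ ((4 : ℝ) / 3) = (m : ℝ) ^ ((4 : ℝ) / 3) / (K : ℝ) ^ ((4 : ℝ) / 3) :=
      Real.div_rpow hmr.le hK0.le _
    have h6 : (K : ℝ) ≤ (K : ℝ) ^ ((4 : ℝ) / 3) := by
      calc (K : ℝ) = (K : ℝ) ^ (1 : ℝ) := (Real.rpow_one _).symm
        _ ≤ (K : ℝ) ^ ((4 : ℝ) / 3) := Real.rpow_le_rpow_of_exponent_le hKr (by norm_num)
    have h7 : (m : ℝ) ^ ((4 : ℝ) / 3) / (K : ℝ) ^ ((4 : ℝ) / 3) ≤ (m : ℝ) ^ ((4 : ℝ) / 3) / K :=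
      div_le_div_of_nonneg_left (by positivity) hK0 h6
    calc (M : ℝ) * ((m / K : ℕ) : ℝ) ^ ((4 : ℝ) / 3) ≤ M * ((m : ℝ) ^ ((4 : ℝ) / 3) / K) :=
          mul_le_mul_of_nonneg_left (h4.trans (h5.trans_le h7)) (by positivity)
      _ = M / K * (m : ℝ) ^ ((4 : ℝ) / 3) := by ring
  unfold oB
  calc _ ≤ κ * (12 * M / K + M / K) := mul_le_mul_of_nonneg_left (add_le_add h2 h3) hκ
    _ = 13 * κ * M / K := by ring

/-- (L1) **the modulus of the connections** -/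
theorem gamB_l1 {ε : ℝ} (hε : 0 < ε) {κ : ℝ} (hκ : 0 ≤ κ) : ∃ K0 : ℕ, 1 ≤ K0 ∧ ∀ K : ℕ, K0 ≤ K →
    ∃ (η : ℝ) (m0 : ℕ), 0 < η ∧ 1 ≤ m0 ∧
    ∀ m₁ m₂ : ℕ, m0 ≤ m₁ → m0 ≤ m₂ → ∀ i j : Fin 3, ∀ C0 : Set (W3 × W3), mass0 C0 ≠ ∞ →
      ∀ F : W3 × W3 → W3 → W3 → ℝ≥0∞, (∀ ω b b', F ω b b' ≤ 1) → OscB C0 i j m₁ m₂ K κ F →
      ∀ n l : ℤ, ((|n| : ℤ) : ℝ) ≤ η * m₁ → ((|l| : ℤ) : ℝ) ≤ η * m₂ →
        ∑' z : ℂ, (gamB C0 i j m₁ m₂ F (z + (n * lv2 i + l * lv2 j)) - gamB C0 i j m₁ m₂ F z) ≤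
          ENNReal.ofReal ε * mass0 C0 := by
  obtain ⟨M, K0, hK0, h⟩ := mod1 (ε := ε / 4) (by positivity)
  refine ⟨K0 + ⌈104 * κ * M / ε⌉₊, by omega, fun K hK => ?_⟩
  obtain ⟨η, m0, hη, hm0, hmod⟩ := h K (by omega)
  have hK1 : 1 ≤ K := by omega
  have hKr : (0 : ℝ) < K := by exact_mod_cast hK1
  refine ⟨η / 2, m0, by positivity, hm0, fun m₁ m₂ hm₁ hm₂ i j C0 hC0 F hF1 hosc n l hn hl => ?_⟩
  set δ : ℝ≥0∞ := ENNReal.ofReal (ε / 8) with hδ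
  -- the bound of the oscillation
  have hbd : ∀ m T, T ≤ M * (m / K) → ∀ s ∈ FC (m / K) T, ∀ s' ∈ FC (m / K) T,
      SB (M * (m / K) : ℕ) (M * ((m / K : ℕ) : ℝ) ^ ((4 : ℝ) / 3)) s →
      SB (M * (m / K) : ℕ) (M * ((m / K : ℕ) : ℝ) ^ ((4 : ℝ) / 3)) s' → ∀ r : List Bool, ∀ i : Fin 3,
      Bdl (12 * (M * (m / K) : ℕ)) (M * ((m / K : ℕ) : ℝ) ^ ((4 : ℝ) / 3)) (rt i (wl (s ++ r)))
        (rt i (wl (s' ++ r))) := by
    intro m T hT s hs s' hs' hb hb' r i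
    constructor
    · rw [wl_append (up_of_Brd hs.1), wl_append (up_of_Brd hs'.1), rt_append, rt_append]
      have h1 : Even (rt i (wl s)).length := by
        rw [rt_length, wl_length]
        exact even_of_Brd hs.1
      have h2 : Even (rt i (wl s')).length := by
        rw [rt_length, wl_length]
        exact even_of_Brd hs'.1
      have h3 := bd_append (r := rt i (wl r)) h1 h2 (ρ := 3 * (M * (m / K) : ℕ))
        (fun k hk => norm_wl hs.1 hT hb.1 i hk) (fun k hk => norm_wl hs'.1 hT hb'.1 i hk)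
      intro l
      refine (h3 l).trans (le_of_eq ?_)
      ring
    · rw [rt_length, rt_length, wl_length, wl_length, List.length_append, List.length_append]
      push_cast
      have h1 : (0 : ℝ) ≤ s.length := Nat.cast_nonneg _
      have h2 : (0 : ℝ) ≤ s'.length := Nat.cast_nonneg _
      have h3 := hb.2
      have h4 := hb'.2
      rw [abs_le]
      constructor <;> linarith
  have hLρ : ∀ m, 1 ≤ m →
      ENNReal.ofReal (oB κ m (12 * (M * (m / K) : ℕ)) (M * ((m / K : ℕ) : ℝ) ^ ((4 : ℝ) / 3))) ≤ δ := by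
    intro m hm
    refine ENNReal.ofReal_le_ofReal ((oB_small hκ hK1 hm).trans ?_)
    have h2 : 104 * κ * M / ε ≤ K := (Nat.le_ceil _).trans (by exact_mod_cast (by omega : ⌈104 * κ * M / ε⌉₊ ≤ K))
    rw [div_le_iff₀ hε] at h2
    rw [div_le_iff₀ hKr]
    linarith
  have hρ0 : ∀ m : ℕ, (0 : ℝ) ≤ 12 * (M * (m / K) : ℕ) := fun m => by positivity
  have hl0 : ∀ m : ℕ, (0 : ℝ) ≤ M * ((m / K : ℕ) : ℝ) ^ ((4 : ℝ) / 3) := fun m => by positivity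
  have ho₁ : Osc₁ M K (fun ω : C0 => wx ω.1.1 * wx ω.1.2) m₁ m₂ δ
      (fun ω k₁ k₂ => F ω.1 (rt i (wl k₁)) (rt j (wl k₂))) := by
    intro ω _ k₂ hk₂ T hT hTM s hs s' hs' hb hb' r hr
    exact (hosc.o1 ω.1 ω.2 T hT s hs s' hs' r hr k₂ hk₂ _ _ (hρ0 m₁) (hl0 m₁)
      (hbd m₁ T hTM s hs s' hs' hb hb' r i)).trans (add_le_add le_rfl (hLρ m₁ (hm0.trans hm₁)))
  have ho₂ : Osc₂ M K (fun ω : C0 => wx ω.1.1 * wx ω.1.2) m₁ m₂ δ
      (fun ω k₁ k₂ => F ω.1 (rt i (wl k₁)) (rt j (wl k₂))) := by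
    intro ω _ k₁ hk₁ T hT hTM s hs s' hs' hb hb' r hr
    exact (hosc.o2 ω.1 ω.2 T hT s hs s' hs' r hr k₁ hk₁ _ _ (hρ0 m₂) (hl0 m₂)
      (hbd m₂ T hTM s hs s' hs' hb hb' r j)).trans (add_le_add le_rfl (hLρ m₂ (hm0.trans hm₂)))
  have hn2 : ((|(-2 * n : ℤ)| : ℤ) : ℝ) ≤ η * m₁ := by
    rw [abs_mul, show |(-2 : ℤ)| = 2 by decide]
    push_cast
    have : |(n : ℝ)| ≤ η / 2 * m₁ := by exact_mod_cast hn
    linarith
  have hl2 : ((|(2 * l : ℤ)| : ℤ) : ℝ) ≤ η * m₂ := by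
    rw [abs_mul, show |(2 : ℤ)| = 2 by decide]
    push_cast
    have : |(l : ℝ)| ≤ η / 2 * m₂ := by exact_mod_cast hl
    linarith
  have h1 := HexObs.ROT.FP.bl2_l1 hmod hm0 (w := fun ω : C0 => wx ω.1.1 * wx ω.1.2) hC0 hm₁ hm₂
    (x := -2 * n) (y := 2 * l) ⟨-n, by ring⟩ (even_two_mul l) hn2 hl2 (fun ω _ k₁ _ k₂ _ => hF1 _ _ _) ho₁ ho₂
    (fun ω : C0 => en ω.1.1 - en ω.1.2) (lo i) (la i) (-lo j) (-la j)
  have h2 : (-2 * n) • la i + (2 * l) • (-la j) = n * lv2 i + l * lv2 j := by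
    unfold la lv2
    rw [zsmul_eq_mul, zsmul_eq_mul]
    push_cast
    ring
  rw [h2] at h1
  have h3 : ∀ z : ℂ, gamB C0 i j m₁ m₂ F (z + (n * lv2 i + l * lv2 j)) - gamB C0 i j m₁ m₂ F z =
      gam2 (fun ω : C0 => wx ω.1.1 * wx ω.1.2) m₁ m₂ (fun ω : C0 => en ω.1.1 - en ω.1.2) (lo i) (la i) (-lo j) (-la j)
        (fun ω k₁ k₂ => F ω.1 (rt i (wl k₁)) (rt j (wl k₂))) (z + (n * lv2 i + l * lv2 j)) -
      gam2 (fun ω : C0 => wx ω.1.1 * wx ω.1.2) m₁ m₂ (fun ω : C0 => en ω.1.1 - en ω.1.2) (lo i) (la i) (-lo j) (-la j)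
        (fun ω k₁ k₂ => F ω.1 (rt i (wl k₁)) (rt j (wl k₂))) z := fun z => by rw [gamB_eq, gamB_eq]
  rw [tsum_congr h3]
  refine h1.trans (le_of_eq ?_)
  have h4 : 2 * ENNReal.ofReal (ε / 4) + 4 * δ = ENNReal.ofReal ε := by
    rw [hδ, show (2 : ℝ≥0∞) = ENNReal.ofReal 2 by norm_num, show (4 : ℝ≥0∞) = ENNReal.ofReal 4 by norm_num,
      ← ENNReal.ofReal_mul (by norm_num), ← ENNReal.ofReal_mul (by norm_num),
      ← ENNReal.ofReal_add (by positivity) (by positivity)]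
    congr 1
    ring
  rw [h4]
  rfl

end Pool.Agent.ROT.F3
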