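import Pool.Agent.ROT.F3GamO
import Pool.Agent.ROT.F3BlkM
import Pool.Agent.ROT.F3N2
import Pool.Agent.ROT.F3LimH

/-!
# ROT / F3GamQ (helper69): the modulus of continuity in `L¹` of the connections, weights of curves parametrised by their own length

* `RlK M K m k k'` : the turning words differ in an initial piece of height and width `M (m / K)`; `RlK.sw`, `RlK.fbh`;
* `OscK` ; **`gamB_l1k`** : (L1) for weights with oscillation at most `ε / 8`;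
* `gamB_tot`, `gamB_add`, **`gamB_close`** : approximation in mass.
-/

set_option autoImplicit false

namespace Pool.Agent.ROT.F3

open Finset Filter Topology
open HexObs (oo up vx dx lev lat latE Brd BT Cut wE gf tf FC)
open HexObs.ROT.FP (FB FBh SB gam2 bl2 Ind2 HSup dp Mod1 mod1 Osc₁ Osc₂)
open scoped ENNReal Classical

/-! ### replacing the initial piece of a turning word -/

/-- `k`, `k'` differ in an initial piece in the box `M (m / K)` -/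
def RlK (M K m : ℕ) (k k' : List Bool) : Prop := ∃ T : ℕ, T < m ∧ T ≤ M * (m / K) ∧ ∃ s ∈ FC (m / K) T, ∃ s' ∈ FC (m / K) T,
  SB (M * (m / K) : ℕ) (M * ((m / K : ℕ) : ℝ) ^ ((4 : ℝ) / 3)) s ∧ SB (M * (m / K) : ℕ) (M * ((m / K : ℕ) : ℝ) ^ ((4 : ℝ) / 3)) s' ∧
    ∃ r ∈ FB (m - T), k = s ++ r ∧ k' = s' ++ r

section

variable {M K m : ℕ} {k k' : List Bool}

lemma RlK.symm (h : RlK M K m k k') : RlK M K m k' k := by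
  obtain ⟨T, h1, h2, s, hs, s', hs', h3, h4, r, hr, h5, h6⟩ := h
  exact ⟨T, h1, h2, s', hs', s, hs, h4, h3, r, hr, h6, h5⟩

lemma RlK.fb (h : RlK M K m k k') : k ∈ FB m := by
  obtain ⟨T, h1, h2, s, hs, s', hs', h3, h4, r, hr, h5, h6⟩ := h
  obtain ⟨T', hr'⟩ := hr
  rw [h5]
  exact ⟨_, HexObs.ROT.FP.fc_append hs h1 hr'⟩

lemma RlK.sw (h : RlK M K m k k') (i : Fin 3) :
    SwW (3 * (M * (m / K) : ℕ)) (M * ((m / K : ℕ) : ℝ) ^ ((4 : ℝ) / 3)) (rt i (wl k)) (rt i (wl k')) := by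
  obtain ⟨T, h1, h2, s, hs, s', hs', h3, h4, r, hr, h5, h6⟩ := h
  refine ⟨rt i (wl s), rt i (wl s'), rt i (wl r), ?_, ?_, ?_, ?_, fun k hk => norm_wl hs.1 h2 h3.1 i hk,
    fun k hk => norm_wl hs'.1 h2 h4.1 i hk, ?_, ?_⟩
  · rw [rt_length, wl_length]
    exact even_of_Brd hs.1
  · rw [rt_length, wl_length]
    exact even_of_Brd hs'.1
  · rw [h5, wl_append (up_of_Brd hs.1), rt_append]
  · rw [h6, wl_append (up_of_Brd hs'.1), rt_append]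
  · rw [rt_length, wl_length]
    exact h3.2
  · rw [rt_length, wl_length]
    exact h4.2

lemma RlK.fbh (h : RlK M K m k k') (hm : 1 ≤ m) {s₀ : ℕ} (hs₀ : m / K ≤ s₀) : k ∈ FBh m s₀ ↔ k' ∈ FBh m s₀ := by
  obtain ⟨T, h1, h2, s, hs, s', hs', h3, h4, r, hr, h5, h6⟩ := h
  rw [h5, h6]
  exact fbh_swap hm hs₀ h1 hs hs' hr

end

/-! ### the modulus -/

/-- oscillation at most `δ` when one of the blocks is replaced -/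
structure OscK (M K : ℕ) (C0 : Set (W3 × W3)) (i j : Fin 3) (m₁ m₂ : ℕ) (δ : ℝ) (F : W3 × W3 → W3 → W3 → ℝ≥0∞) : Prop where
  o1 : ∀ ω ∈ C0, ∀ k k' : List Bool, RlK M K m₁ k k' → ∀ k₂ ∈ FB m₂,
    F ω (rt i (wl k)) (rt j (wl k₂)) ≤ F ω (rt i (wl k')) (rt j (wl k₂)) + ENNReal.ofReal δ
  o2 : ∀ ω ∈ C0, ∀ k k' : List Bool, RlK M K m₂ k k' → ∀ k₁ ∈ FB m₁,
    F ω (rt i (wl k₁)) (rt j (wl k)) ≤ F ω (rt i (wl k₁)) (rt j (wl k')) + ENNReal.ofReal δ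

lemma lav_la (i : Fin 3) : lav i = la i := by
  unfold lav la
  have : (⟨0, Real.sqrt 3 / 2⟩ : ℂ) = ((Real.sqrt 3 / 2 : ℝ) : ℂ) * Complex.I := by
    apply Complex.ext
    · simp
    · simp
  rw [this]
  ring

/-- (L1) **the modulus**, all shifts by vectors of the lattice -/
theorem gamB_l1k {ε : ℝ} (hε : 0 < ε) : ∃ M K0 : ℕ, 1 ≤ K0 ∧ ∀ K : ℕ, K0 ≤ K → ∃ (η : ℝ) (m0 : ℕ), 0 < η ∧ 1 ≤ m0 ∧
    ∀ m₁ m₂ : ℕ, m0 ≤ m₁ → m0 ≤ m₂ → ∀ i j : Fin 3, i ≠ j → ∀ C0 : Set (W3 × W3), mass0 C0 ≠ ∞ →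
      ∀ F : W3 × W3 → W3 → W3 → ℝ≥0∞, (∀ ω b b', F ω b b' ≤ 1) → OscK M K C0 i j m₁ m₂ (ε / 8) F →
      ∀ v ∈ EL, ‖v‖ ≤ η * m₁ → ‖v‖ ≤ η * m₂ →
        ∑' z : ℂ, (gamB C0 i j m₁ m₂ F (z + v) - gamB C0 i j m₁ m₂ F z) ≤ ENNReal.ofReal ε * mass0 C0 := by
  obtain ⟨M, K0, hK0, h⟩ := mod1 (ε := ε / 4) (by positivity)
  refine ⟨M, K0, hK0, fun K hK => ?_⟩
  obtain ⟨η, m0, hη, hm0, hmod⟩ := h K hK
  refine ⟨η / 2, m0, by positivity, hm0, fun m₁ m₂ hm₁ hm₂ i j hij C0 hC0 F hF1 hosc v hv hv1 hv2 => ?_⟩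
  obtain ⟨x, y, hx, hy, rfl, hxn, hyn⟩ := el_rep hij hv
  have ho₁ : Osc₁ M K (fun ω : C0 => wx ω.1.1 * wx ω.1.2) m₁ m₂ (ENNReal.ofReal (ε / 8))
      (fun ω k₁ k₂ => F ω.1 (rt i (wl k₁)) (rt j (wl k₂))) := by
    intro ω _ k₂ hk₂ T hT hTM s hs s' hs' hb hb' r hr
    exact hosc.o1 ω.1 ω.2 (s ++ r) (s' ++ r) ⟨T, hT, hTM, s, hs, s', hs', hb, hb', r, hr, rfl, rfl⟩ k₂ hk₂
  have ho₂ : Osc₂ M K (fun ω : C0 => wx ω.1.1 * wx ω.1.2) m₁ m₂ (ENNReal.ofReal (ε / 8))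
      (fun ω k₁ k₂ => F ω.1 (rt i (wl k₁)) (rt j (wl k₂))) := by
    intro ω _ k₁ hk₁ T hT hTM s hs s' hs' hb hb' r hr
    exact hosc.o2 ω.1 ω.2 (s ++ r) (s' ++ r) ⟨T, hT, hTM, s, hs, s', hs', hb, hb', r, hr, rfl, rfl⟩ k₁ hk₁
  have h1 := HexObs.ROT.FP.bl2_l1 hmod hm0 (w := fun ω : C0 => wx ω.1.1 * wx ω.1.2) hC0 hm₁ hm₂
    (x := x) (y := y) hx hy (by linarith) (by linarith) (fun ω _ k₁ _ k₂ _ => hF1 _ _ _) ho₁ ho₂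
    (fun ω : C0 => en ω.1.1 - en ω.1.2) (lo i) (la i) (-lo j) (-la j)
  rw [lav_la, lav_la]
  have h3 : ∀ z : ℂ, gamB C0 i j m₁ m₂ F (z + (x • la i + y • -la j)) - gamB C0 i j m₁ m₂ F z =
      gam2 (fun ω : C0 => wx ω.1.1 * wx ω.1.2) m₁ m₂ (fun ω : C0 => en ω.1.1 - en ω.1.2) (lo i) (la i) (-lo j) (-la j)
        (fun ω k₁ k₂ => F ω.1 (rt i (wl k₁)) (rt j (wl k₂))) (z + (x • la i + y • -la j)) -
      gam2 (fun ω : C0 => wx ω.1.1 * wx ω.1.2) m₁ m₂ (fun ω : C0 => en ω.1.1 - en ω.1.2) (lo i) (la i) (-lo j) (-la j)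
        (fun ω k₁ k₂ => F ω.1 (rt i (wl k₁)) (rt j (wl k₂))) z := fun z => by rw [gamB_eq, gamB_eq]
  rw [tsum_congr h3]
  refine h1.trans (le_of_eq ?_)
  have h4 : 2 * ENNReal.ofReal (ε / 4) + 4 * ENNReal.ofReal (ε / 8) = ENNReal.ofReal ε := by
    rw [show (2 : ℝ≥0∞) = ENNReal.ofReal 2 by norm_num, show (4 : ℝ≥0∞) = ENNReal.ofReal 4 by norm_num,
      ← ENNReal.ofReal_mul (by norm_num), ← ENNReal.ofReal_mul (by norm_num),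
      ← ENNReal.ofReal_add (by positivity) (by positivity)]
    congr 1
    ring
  rw [h4]
  rfl

/-! ### approximation -/

lemma gamB_mono {C0 : Set (W3 × W3)} {i j : Fin 3} {m₁ m₂ : ℕ} {F G : W3 × W3 → W3 → W3 → ℝ≥0∞}
    (h : ∀ ω ∈ C0, ∀ b ∈ Fbi i m₁, ∀ b' ∈ Fbi j m₂, F ω b b' ≤ G ω b b') (z : ℂ) :
    gamB C0 i j m₁ m₂ F z ≤ gamB C0 i j m₁ m₂ G z := by
  unfold gamB
  refine ENNReal.tsum_le_tsum fun ω => mul_le_mul_right (ENNReal.tsum_le_tsum fun b => ENNReal.tsum_le_tsum fun b' => ?_) _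
  refine mul_le_mul_right (mul_le_mul_right ?_ _) _
  split_ifs
  · exact h ω.1 ω.2 b.1 b.2 b'.1 b'.2
  · exact le_rfl

lemma gamB_add (C0 : Set (W3 × W3)) (i j : Fin 3) (m₁ m₂ : ℕ) (F G : W3 × W3 → W3 → W3 → ℝ≥0∞) (z : ℂ) :
    gamB C0 i j m₁ m₂ (fun ω b b' => F ω b b' + G ω b b') z = gamB C0 i j m₁ m₂ F z + gamB C0 i j m₁ m₂ G z := by
  unfold gamB
  rw [← ENNReal.tsum_add]
  refine tsum_congr fun ω => ?_
  rw [← mul_add, ← ENNReal.tsum_add]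
  congr 1
  refine tsum_congr fun b => ?_
  rw [← ENNReal.tsum_add]
  refine tsum_congr fun b' => ?_
  rw [← mul_add, ← mul_add]
  congr 2
  split_ifs
  · rfl
  · rw [add_zero]

/-- the total weight -/
theorem gamB_tsum (C0 : Set (W3 × W3)) (i j : Fin 3) (m₁ m₂ : ℕ) (F : W3 × W3 → W3 → W3 → ℝ≥0∞) :
    ∑' z, gamB C0 i j m₁ m₂ F z = ∑' ω : C0, wx ω.1.1 * wx ω.1.2 * ∑' k₁ : FB m₁, ∑' k₂ : FB m₂, wE k₁.1 * (wE k₂.1 *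
      F ω.1 (rt i (wl k₁.1)) (rt j (wl k₂.1))) := by
  have h1 := HexObs.ROT.FP.gam2_sum (fun ω : C0 => wx ω.1.1 * wx ω.1.2) m₁ m₂ (fun ω : C0 => en ω.1.1 - en ω.1.2) (lo i) (la i)
    (-lo j) (-la j) (fun ω k₁ k₂ => F ω.1 (rt i (wl k₁)) (rt j (wl k₂))) (fun _ => 1)
  simp only [mul_one] at h1
  rw [tsum_congr fun z => gamB_eq C0 i j m₁ m₂ F z, h1]
  rfl

/-- a function of one block each -/
theorem gamB_one (C0 : Set (W3 × W3)) {i j : Fin 3} {m₁ m₂ : ℕ} (h₁ : 1 ≤ m₁) (h₂ : 1 ≤ m₂) (f g : W3 → ℝ≥0∞) :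
    ∑' z, gamB C0 i j m₁ m₂ (fun _ b b' => f b + g b') z =
      mass0 C0 * (∑' k : FB m₁, wE k.1 * f (rt i (wl k.1)) + ∑' k : FB m₂, wE k.1 * g (rt j (wl k.1))) := by
  rw [gamB_tsum, ENNReal.tsum_mul_right]
  unfold mass0
  congr 1
  have e1 : ∀ k₁ : FB m₁, ∑' k₂ : FB m₂, wE k₁.1 * (wE k₂.1 * (f (rt i (wl k₁.1)) + g (rt j (wl k₂.1)))) =
      wE k₁.1 * f (rt i (wl k₁.1)) + wE k₁.1 * ∑' k₂ : FB m₂, wE k₂.1 * g (rt j (wl k₂.1)) := by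
    intro k₁
    rw [ENNReal.tsum_mul_left, ← mul_add]
    congr 1
    rw [tsum_congr fun k₂ : FB m₂ => mul_add (wE k₂.1) (f (rt i (wl k₁.1))) (g (rt j (wl k₂.1))), ENNReal.tsum_add,
      ENNReal.tsum_mul_right]
    congr 1
    have := HexObs.ROT.FP.fb_mass h₂
    have h3 : ∑' k₂ : FB m₂, wE k₂.1 = 1 := this
    rw [h3, one_mul]
  rw [tsum_congr e1, ENNReal.tsum_add, ENNReal.tsum_mul_right]
  congr 1
  have h3 : ∑' k₁ : FB m₁, wE k₁.1 = 1 := HexObs.ROT.FP.fb_mass h₁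
  rw [h3, one_mul]

/-- **approximation in mass** -/
theorem gamB_close {C0 : Set (W3 × W3)} {i j : Fin 3} {m₁ m₂ : ℕ} (h₁ : 1 ≤ m₁) (h₂ : 1 ≤ m₂)
    {F F' : W3 × W3 → W3 → W3 → ℝ≥0∞} {f g : W3 → ℝ≥0∞} (h1 : ∀ ω ∈ C0, ∀ b ∈ Fbi i m₁, ∀ b' ∈ Fbi j m₂, F' ω b b' ≤ F ω b b')
    (h2 : ∀ ω ∈ C0, ∀ b ∈ Fbi i m₁, ∀ b' ∈ Fbi j m₂, F ω b b' ≤ F' ω b b' + (f b + g b')) {E E₁ E₂ : ℝ≥0∞} {v : ℂ}
    (hv : ∑' z : ℂ, (gamB C0 i j m₁ m₂ F' (z + v) - gamB C0 i j m₁ m₂ F' z) ≤ E * mass0 C0)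
    (hf : ∑' k : FB m₁, wE k.1 * f (rt i (wl k.1)) ≤ E₁) (hg : ∑' k : FB m₂, wE k.1 * g (rt j (wl k.1)) ≤ E₂) :
    ∑' z : ℂ, (gamB C0 i j m₁ m₂ F (z + v) - gamB C0 i j m₁ m₂ F z) ≤ (E + (E₁ + E₂)) * mass0 C0 := by
  have h3 : ∀ z, gamB C0 i j m₁ m₂ F (z + v) - gamB C0 i j m₁ m₂ F z ≤
      (gamB C0 i j m₁ m₂ F' (z + v) - gamB C0 i j m₁ m₂ F' z) + gamB C0 i j m₁ m₂ (fun _ b b' => f b + g b') (z + v) := by
    intro z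
    have a1 : gamB C0 i j m₁ m₂ F (z + v) ≤ gamB C0 i j m₁ m₂ F' (z + v) + gamB C0 i j m₁ m₂ (fun _ b b' => f b + g b') (z + v) := by
      rw [← gamB_add]
      exact gamB_mono h2 _
    have a2 : gamB C0 i j m₁ m₂ F' z ≤ gamB C0 i j m₁ m₂ F z := gamB_mono h1 z
    calc gamB C0 i j m₁ m₂ F (z + v) - gamB C0 i j m₁ m₂ F z
        ≤ (gamB C0 i j m₁ m₂ F' (z + v) + gamB C0 i j m₁ m₂ (fun _ b b' => f b + g b') (z + v)) - gamB C0 i j m₁ m₂ F' z :=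
          tsub_le_tsub a1 a2
      _ ≤ _ := add_tsub_le_tsub_add
  refine (ENNReal.tsum_le_tsum h3).trans ?_
  have e : ∑' z : ℂ, gamB C0 i j m₁ m₂ (fun _ b b' => f b + g b') (z + v) =
      ∑' z : ℂ, gamB C0 i j m₁ m₂ (fun _ b b' => f b + g b') z :=
    (Equiv.addRight v).tsum_eq fun z => gamB C0 i j m₁ m₂ (fun _ b b' => f b + g b') z
  rw [ENNReal.tsum_add, e, gamB_one C0 h₁ h₂, add_mul]
  refine add_le_add hv ?_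
  rw [mul_comm]
  exact mul_le_mul_left (add_le_add hf hg) _

end Pool.Agent.ROT.F3
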