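import Pool.Agent.ROT.F3GamQ
import Pool.Agent.ROT.F3Cls

/-!
# ROT / F3GamR (helper69): (L1) for the classes with closed conditions on the blocks and Lipschitz functions of the curves

* `pw v s T R` : the curve of a word with its duration (= `arW` of F3HexW by `rfl`); `kS` : the four pieces of a connection;
* `gQ` : the product of the cutoffs of the statistics of one block and of its modulus; `iQ` : the closed conditions;
* **`gamB_main`** : (L1) for `e ∘ kS` times the indicators of `iQ` of the two blocks, for parameters which are not atoms.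
-/

set_option autoImplicit false

namespace Pool.Agent.ROT.F3

open Finset Filter Topology
open HexObs (oo up vx dx lev lat latE Brd BT Cut wE gf tf FC)
open HexObs.ROT.FP (FB FBh SB gam2 bl2 Ind2 HSup dp Mod1 mod1 Osc₁ Osc₂ BMx)
open scoped ENNReal Classical

/-! ### the pieces -/

/-- the curve of a word, turned by `v`, lengths divided by `s`, and its duration in the unit `T` -/
noncomputable def pw (v : ℂ) (s T : ℝ) (R : W3) : C(unitInterval, ℂ) × ℝ := (v • crv R R.length s, (R.length : ℝ) / T)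

/-- four pieces -/
abbrev K4q : Type := ((C(unitInterval, ℂ) × ℝ) × (C(unitInterval, ℂ) × ℝ)) × ((C(unitInterval, ℂ) × ℝ) × (C(unitInterval, ℂ) × ℝ))

/-- the pieces of a connection: starts forward, blocks read backwards -/
noncomputable def kS (v : ℂ) (s T : ℝ) (ω : W3 × W3) (b b' : W3) : K4q :=
  ((pw v s T ω.1, pw v s T b.reverse), (pw v s T ω.2, pw v s T b'.reverse))

/-! ### cutoffs -/

lemma chf_lip {η : ℝ} (hη : 0 < η) (t x y : ℝ) : |chf η t x - chf η t y| ≤ |x - y| / η := by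
  unfold chf
  have h1 : |(t - x) / η - (t - y) / η| = |x - y| / η := by
    rw [← sub_div, abs_div, abs_of_pos hη, abs_sub_comm x y]
    congr 2
    ring
  rw [← h1]
  refine (abs_max_sub_max_le_max 0 (min 1 ((t - x) / η)) 0 (min 1 ((t - y) / η))).trans (max_le ?_ ?_)
  · rw [sub_self, abs_zero]
    exact abs_nonneg _
  · refine (abs_min_sub_min_le_max 1 ((t - x) / η) 1 ((t - y) / η)).trans (max_le ?_ le_rfl)
    rw [sub_self, abs_zero]
    exact abs_nonneg _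

/-- the cutoffs of the statistics of one block -/
noncomputable def gQ (d : ℂ) (P : Tp) (N T η : ℝ) (h : ℕ) (ρ : ℝ) (b : W3) : ℝ :=
  chf η P.r2 (sB b / N) * chf η P.κ1 (sC d P.c b / N) * (chf η P.lb ((b.length : ℝ) / T) * chf ρ (2 * ρ) (osW h b))

/-- the closed conditions of one block -/
def iQ (d : ℂ) (P : Tp) (N T : ℝ) (b : W3) : Prop := sB b / N ≤ P.r2 ∧ sC d P.c b / N ≤ P.κ1 ∧ (b.length : ℝ) / T ≤ P.lb

/-- the windows -/
def wQ (d : ℂ) (P : Tp) (N T η : ℝ) (b : W3) : Prop :=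
  |sB b / N - P.r2| ≤ η ∨ |sC d P.c b / N - P.κ1| ≤ η ∨ |(b.length : ℝ) / T - P.lb| ≤ η

section cut

variable {d : ℂ} {P : Tp} {N T η ρ : ℝ} {h : ℕ} {b : W3}

lemma mul01 {x y : ℝ} (hx : 0 ≤ x ∧ x ≤ 1) (hy : 0 ≤ y ∧ y ≤ 1) : 0 ≤ x * y ∧ x * y ≤ 1 :=
  ⟨mul_nonneg hx.1 hy.1, mul_le_one₀ hx.2 hy.1 hy.2⟩

lemma gQ_01 (d : ℂ) (P : Tp) (N T η : ℝ) (h : ℕ) (ρ : ℝ) (b : W3) : 0 ≤ gQ d P N T η h ρ b ∧ gQ d P N T η h ρ b ≤ 1 :=
  mul01 (mul01 (chf_01 _ _ _) (chf_01 _ _ _)) (mul01 (chf_01 _ _ _) (chf_01 _ _ _))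

lemma gQ_zero (hρ : 0 < ρ) (h1 : 2 * ρ ≤ osW h b) : gQ d P N T η h ρ b = 0 := by
  unfold gQ
  rw [chf_zero hρ h1, mul_zero, mul_zero]

lemma gQ_le (hη : 0 < η) (h1 : ¬ iQ d P N T b) : gQ d P N T η h ρ b = 0 := by
  unfold gQ
  unfold iQ at h1
  rcases not_and_or.1 h1 with h2 | h2
  · rw [chf_zero hη (not_le.1 h2).le, zero_mul, zero_mul]
  · rcases not_and_or.1 h2 with h3 | h3
    · rw [chf_zero hη (not_le.1 h3).le, mul_zero, zero_mul]
    · rw [chf_zero hη (not_le.1 h3).le, zero_mul, mul_zero]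

lemma gQ_one (hη : 0 < η) (hρ : 0 < ρ) (h1 : iQ d P N T b) (h2 : ¬ wQ d P N T η b) (h3 : osW h b ≤ ρ) :
    gQ d P N T η h ρ b = 1 := by
  unfold wQ at h2
  push Not at h2
  have key : ∀ x t : ℝ, x ≤ t → η < |x - t| → chf η t x = 1 := fun x t k1 k2 => by
    rw [abs_of_nonpos (by linarith)] at k2
    exact chf_one hη (by linarith)
  unfold gQ
  rw [key _ _ h1.1 h2.1, key _ _ h1.2.1 h2.2.1, key _ _ h1.2.2 h2.2.2, chf_one hρ (by linarith), one_mul, one_mul]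

lemma abs_mul_sub {x y x' y' : ℝ} (hx : 0 ≤ x' ∧ x' ≤ 1) (hy : 0 ≤ y ∧ y ≤ 1) :
    |x * y - x' * y'| ≤ |x - x'| + |y - y'| := by
  have e : x * y - x' * y' = (x - x') * y + x' * (y - y') := by ring
  rw [e]
  refine (abs_add_le _ _).trans (add_le_add ?_ ?_)
  · rw [abs_mul, abs_of_nonneg hy.1]
    exact mul_le_of_le_one_right (abs_nonneg _) hy.2
  · rw [abs_mul, abs_of_nonneg hx.1]
    exact mul_le_of_le_one_left (abs_nonneg _) hx.2

/-- oscillation of the cutoffs -/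
lemma gQ_osc {D A : ℝ} {b' : W3} (hd : ‖d‖ = 1) (hc : 0 ≤ P.c ∧ P.c ≤ 1) (hη : 0 < η) (hρ : 0 < ρ) (hN : 0 < N) (hT : 0 < T)
    (h1 : SwW D A b b') : |gQ d P N T η h ρ b - gQ d P N T η h ρ b'| ≤ 6 * D / N / η + A / T / η + 2 * D / ρ := by
  have k1 : |chf η P.r2 (sB b / N) - chf η P.r2 (sB b' / N)| ≤ 2 * D / N / η := by
    refine (chf_lip hη _ _ _).trans (div_le_div_of_nonneg_right ?_ hη.le)
    rw [← sub_div, abs_div, abs_of_pos hN]
    exact div_le_div_of_nonneg_right h1.sB hN.le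
  have k2 : |chf η P.κ1 (sC d P.c b / N) - chf η P.κ1 (sC d P.c b' / N)| ≤ 4 * D / N / η := by
    refine (chf_lip hη _ _ _).trans (div_le_div_of_nonneg_right ?_ hη.le)
    rw [← sub_div, abs_div, abs_of_pos hN]
    exact div_le_div_of_nonneg_right (h1.sC hd hc.1 hc.2) hN.le
  have k3 : |chf η P.lb ((b.length : ℝ) / T) - chf η P.lb ((b'.length : ℝ) / T)| ≤ A / T / η := by
    refine (chf_lip hη _ _ _).trans (div_le_div_of_nonneg_right ?_ hη.le)
    rw [← sub_div, abs_div, abs_of_pos hT]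
    exact div_le_div_of_nonneg_right h1.len hT.le
  have k4 : |chf ρ (2 * ρ) (osW h b) - chf ρ (2 * ρ) (osW h b')| ≤ 2 * D / ρ := by
    refine (chf_lip hρ _ _ _).trans (div_le_div_of_nonneg_right ?_ hρ.le)
    rw [abs_le]
    have a1 := h1.osW_le h
    have a2 := h1.symm.osW_le h
    constructor <;> linarith
  unfold gQ
  have g1 := abs_mul_sub (x := chf η P.r2 (sB b / N)) (y := chf η P.κ1 (sC d P.c b / N)) (x' := chf η P.r2 (sB b' / N))
    (y' := chf η P.κ1 (sC d P.c b' / N)) (chf_01 _ _ _) (chf_01 _ _ _)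
  have g2 := abs_mul_sub (x := chf η P.lb ((b.length : ℝ) / T)) (y := chf ρ (2 * ρ) (osW h b))
    (x' := chf η P.lb ((b'.length : ℝ) / T)) (y' := chf ρ (2 * ρ) (osW h b')) (chf_01 _ _ _) (chf_01 _ _ _)
  have g3 := abs_mul_sub (x := chf η P.r2 (sB b / N) * chf η P.κ1 (sC d P.c b / N))
    (y := chf η P.lb ((b.length : ℝ) / T) * chf ρ (2 * ρ) (osW h b))
    (x' := chf η P.r2 (sB b' / N) * chf η P.κ1 (sC d P.c b' / N))
    (y' := chf η P.lb ((b'.length : ℝ) / T) * chf ρ (2 * ρ) (osW h b')) (mul01 (chf_01 _ _ _) (chf_01 _ _ _))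
    (mul01 (chf_01 _ _ _) (chf_01 _ _ _))
  have e : 6 * D / N / η = 2 * D / N / η + 4 * D / N / η := by
    field_simp
    ring
  rw [e]
  linarith

/-- **oscillation of a Lipschitz function of the curve times the cutoffs** -/
lemma eQ_osc {E : W3 → ℝ} {L D A : ℝ} {v : ℂ} {b' : W3} {n : ℕ} (hL : 0 ≤ L) (hE0 : ∀ w, 0 ≤ E w ∧ E w ≤ 1)
    (hE : ∀ w w' : W3, |E w - E w'| ≤ L * dist (pw v N T w.reverse) (pw v N T w'.reverse)) (hv : ‖v‖ = 1)
    (hd : ‖d‖ = 1) (hc : 0 ≤ P.c ∧ P.c ≤ 1) (hη : 0 < η) (hρ : 0 < ρ) (hN : 0 < N) (hT : 0 < T) (h1 : SwW D A b b')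
    (he : Even b.length) (l1 : 1 ≤ b.length) (l2 : 1 ≤ b'.length) (hn : A ≤ n) (hnh : n + 2 ≤ h) :
    E b * gQ d P N T η h ρ b ≤ E b' * gQ d P N T η h ρ b' +
      (L * ((2 * ρ + 4 * D) / N + A / T) + (6 * D / N / η + A / T / η + 2 * D / ρ)) := by
  have hD := h1.D0
  have hA := h1.A0
  have hos := gQ_osc (h := h) hd hc hη hρ hN hT h1
  have r1 : 0 ≤ E b' * gQ d P N T η h ρ b' := mul_nonneg (hE0 b').1 (gQ_01 _ _ _ _ _ _ _ _).1
  rcases le_or_gt (2 * ρ) (osW h b) with h2 | h2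
  · rw [gQ_zero hρ h2, mul_zero]
    positivity
  · have h3 : dist (pw v N T b.reverse) (pw v N T b'.reverse) ≤ (2 * ρ + 4 * D) / N + A / T := by
      unfold pw
      rw [Prod.dist_eq]
      refine max_le ?_ ?_
      · have e1 := h1.dist he l1 l2 hn hv hN
        have e2 : (osW (n + 2) b + 4 * D) / N ≤ (2 * ρ + 4 * D) / N :=
          div_le_div_of_nonneg_right (by linarith [osW_mono hnh b]) hN.le
        have e3 : 0 ≤ A / T := by positivity
        exact (e1.trans e2).trans (by linarith)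
      · rw [Real.dist_eq, List.length_reverse, List.length_reverse, ← sub_div, abs_div, abs_of_pos hT]
        have e1 : |(b.length : ℝ) - b'.length| / T ≤ A / T := div_le_div_of_nonneg_right h1.len hT.le
        have e2 : 0 ≤ (2 * ρ + 4 * D) / N := by positivity
        linarith
    have h4 := (hE b b').trans (mul_le_mul_of_nonneg_left h3 hL)
    have h5 := abs_mul_sub (x := E b) (y := gQ d P N T η h ρ b) (x' := E b') (y' := gQ d P N T η h ρ b') (hE0 b')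
      (gQ_01 _ _ _ _ _ _ _ _)
    have h6 := le_abs_self (E b * gQ d P N T η h ρ b - E b' * gQ d P N T η h ρ b')
    linarith

end cut

/-! ### the numbers -/

/-- the oscillation in terms of `M`, `K` -/
lemma num_osc {L c1 ρ η N T : ℝ} {M K m : ℕ} (hL : 0 ≤ L) (hc1 : 1 ≤ c1) (hρ : 0 < ρ) (hη : 0 < η) (hN : 1 ≤ N)
    (hT : T = N ^ ((4 : ℝ) / 3)) (hK : 1 ≤ K) (hm : 1 ≤ m) (hmN : (m : ℝ) ≤ c1 * N) {D A : ℝ} (hD : D = 3 * (M * (m / K) : ℕ))
    (hA : A = M * ((m / K : ℕ) : ℝ) ^ ((4 : ℝ) / 3)) :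
    L * ((2 * (ρ * m) + 4 * D) / N + A / T) + (6 * D / N / η + A / T / η + 2 * D / (ρ * m)) ≤
      2 * L * c1 * ρ + M / K * (L * (12 * c1 + c1 ^ 2) + (18 * c1 + c1 ^ 2) / η + 6 / ρ) := by
  have hN0 : 0 < N := by linarith
  have hK0 : (0 : ℝ) < K := by exact_mod_cast hK
  have hK1 : (1 : ℝ) ≤ K := by exact_mod_cast hK
  have hm0 : (0 : ℝ) < m := by exact_mod_cast hm
  have hT0 : 0 < T := by
    rw [hT]
    positivity
  have h0 : ((m / K : ℕ) : ℝ) ≤ m / K := Nat.cast_div_le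
  have d1 : D ≤ 3 * M * m / K := by
    rw [hD, Nat.cast_mul]
    calc 3 * ((M : ℝ) * ((m / K : ℕ) : ℝ)) ≤ 3 * ((M : ℝ) * (m / K)) := by gcongr
      _ = 3 * M * m / K := by ring
  have d2 : D / N ≤ 3 * M * c1 / K := by
    rw [div_le_iff₀ hN0]
    refine d1.trans ?_
    calc 3 * (M : ℝ) * m / K ≤ 3 * M * (c1 * N) / K := by gcongr
      _ = 3 * M * c1 / K * N := by ring
  have d3 : D / (ρ * m) ≤ 3 * M / (K * ρ) := by
    rw [div_le_iff₀ (by positivity)]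
    refine d1.trans (le_of_eq ?_)
    field_simp
  have a1 : A / T ≤ M * c1 ^ 2 / K := by
    rw [div_le_iff₀ hT0, hA, hT]
    have e1 : ((m / K : ℕ) : ℝ) ^ ((4 : ℝ) / 3) ≤ (c1 * N / K) ^ ((4 : ℝ) / 3) := by
      refine Real.rpow_le_rpow (Nat.cast_nonneg _) (h0.trans ?_) (by norm_num)
      gcongr
    have e2 : (c1 * N / K) ^ ((4 : ℝ) / 3) = c1 ^ ((4 : ℝ) / 3) * N ^ ((4 : ℝ) / 3) / (K : ℝ) ^ ((4 : ℝ) / 3) := by
      rw [Real.div_rpow (by positivity) hK0.le, Real.mul_rpow (by positivity) hN0.le]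
    have e3 : c1 ^ ((4 : ℝ) / 3) ≤ c1 ^ 2 := by
      calc c1 ^ ((4 : ℝ) / 3) ≤ c1 ^ (2 : ℝ) := Real.rpow_le_rpow_of_exponent_le hc1 (by norm_num)
        _ = c1 ^ 2 := Real.rpow_two _
    have e4 : (K : ℝ) ≤ (K : ℝ) ^ ((4 : ℝ) / 3) := by
      calc (K : ℝ) = (K : ℝ) ^ (1 : ℝ) := (Real.rpow_one _).symm
        _ ≤ _ := Real.rpow_le_rpow_of_exponent_le hK1 (by norm_num)
    have hNp : 0 < N ^ ((4 : ℝ) / 3) := by positivity
    calc (M : ℝ) * ((m / K : ℕ) : ℝ) ^ ((4 : ℝ) / 3)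
        ≤ M * (c1 ^ ((4 : ℝ) / 3) * N ^ ((4 : ℝ) / 3) / (K : ℝ) ^ ((4 : ℝ) / 3)) := by
          rw [← e2]
          gcongr
      _ ≤ M * (c1 ^ 2 * N ^ ((4 : ℝ) / 3) / K) := by gcongr
      _ = M * c1 ^ 2 / K * N ^ ((4 : ℝ) / 3) := by ring
  have b1 : 2 * (ρ * m) / N ≤ 2 * c1 * ρ := by
    rw [div_le_iff₀ hN0]
    nlinarith
  have e1 : (2 * (ρ * m) + 4 * D) / N = 2 * (ρ * m) / N + 4 * (D / N) := by ring
  have e2 : 6 * D / N / η = 6 * (D / N) / η := by ring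
  have e3 : 2 * D / (ρ * m) = 2 * (D / (ρ * m)) := by ring
  rw [e1, e2, e3]
  calc L * (2 * (ρ * m) / N + 4 * (D / N) + A / T) + (6 * (D / N) / η + A / T / η + 2 * (D / (ρ * m)))
      ≤ L * (2 * c1 * ρ + 4 * (3 * M * c1 / K) + M * c1 ^ 2 / K) +
        (6 * (3 * M * c1 / K) / η + M * c1 ^ 2 / K / η + 2 * (3 * M / (K * ρ))) := by gcongr
    _ = _ := by
        field_simp
        ring

/-- the modulus: the letters of the initial piece are few -/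
lemma num_len {δ : ℝ} {M K m : ℕ} (hδ : 0 < δ) (hK : 1 ≤ K) (hKM : 2 * (M : ℝ) / δ ≤ K) (hm : 1 ≤ m) (hm8 : 8 / δ ≤ m) :
    ⌈(M : ℝ) * ((m / K : ℕ) : ℝ) ^ ((4 : ℝ) / 3)⌉₊ + 2 ≤ ⌊δ * (m : ℝ) ^ ((4 : ℝ) / 3)⌋₊ := by
  have hK0 : (0 : ℝ) < K := by exact_mod_cast hK
  have hK1 : (1 : ℝ) ≤ K := by exact_mod_cast hK
  have hm1 : (1 : ℝ) ≤ m := by exact_mod_cast hm
  have h0 : ((m / K : ℕ) : ℝ) ≤ m / K := Nat.cast_div_le
  have e4 : (K : ℝ) ≤ (K : ℝ) ^ ((4 : ℝ) / 3) := by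
    calc (K : ℝ) = (K : ℝ) ^ (1 : ℝ) := (Real.rpow_one _).symm
      _ ≤ _ := Real.rpow_le_rpow_of_exponent_le hK1 (by norm_num)
  have e5 : (m : ℝ) ≤ (m : ℝ) ^ ((4 : ℝ) / 3) := by
    calc (m : ℝ) = (m : ℝ) ^ (1 : ℝ) := (Real.rpow_one _).symm
      _ ≤ _ := Real.rpow_le_rpow_of_exponent_le hm1 (by norm_num)
  have hp : 0 < (m : ℝ) ^ ((4 : ℝ) / 3) := by positivity
  have e6 : (M : ℝ) * ((m / K : ℕ) : ℝ) ^ ((4 : ℝ) / 3) ≤ δ / 2 * (m : ℝ) ^ ((4 : ℝ) / 3) := by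
    calc (M : ℝ) * ((m / K : ℕ) : ℝ) ^ ((4 : ℝ) / 3) ≤ M * (m / K : ℝ) ^ ((4 : ℝ) / 3) := by gcongr
      _ = M * ((m : ℝ) ^ ((4 : ℝ) / 3) / (K : ℝ) ^ ((4 : ℝ) / 3)) := by rw [Real.div_rpow (by positivity) hK0.le]
      _ ≤ M * ((m : ℝ) ^ ((4 : ℝ) / 3) / K) := by gcongr
      _ = M / K * (m : ℝ) ^ ((4 : ℝ) / 3) := by ring
      _ ≤ δ / 2 * (m : ℝ) ^ ((4 : ℝ) / 3) := by
          refine mul_le_mul_of_nonneg_right ?_ hp.le
          rw [div_le_iff₀ hK0]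
          rw [div_le_iff₀ hδ] at hKM
          linarith
  have e7 : 4 ≤ δ / 2 * (m : ℝ) ^ ((4 : ℝ) / 3) := by
    rw [div_le_iff₀ hδ] at hm8
    have := mul_le_mul_of_nonneg_left e5 (show 0 ≤ δ / 2 by positivity)
    linarith
  rw [Nat.le_floor_iff (by positivity)]
  push_cast
  have e8 := Nat.ceil_lt_add_one (show 0 ≤ (M : ℝ) * ((m / K : ℕ) : ℝ) ^ ((4 : ℝ) / 3) by positivity)
  linarith

/-! ### the statistics of the free blocks -/

lemma ps_rtw (i : Fin 3) (w : W3) (k : ℕ) : ‖ps (rt i w) k‖ = ‖ps w k‖ := by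
  rw [ps_rt, norm_mul, norm_ax, one_mul]

lemma sB_rt (i : Fin 3) (w : W3) : sB (rt i w) = sB w := by
  refine le_antisymm (sB_le.2 fun k hk => ?_) (sB_le.2 fun k hk => ?_)
  · rw [rt_length] at hk
    rw [ps_rtw]
    exact le_sB hk
  · rw [← ps_rtw i]
    exact le_sB (by rw [rt_length]; exact hk)

lemma lv_rt (i : Fin 3) (w : W3) (k : ℕ) : lv (ax i) (ps (rt i w) k) = lv 1 (ps w k) := by
  unfold lv
  rw [ps_rt, ← mul_assoc, mul_comm ((starRingEnd ℂ) (ax i)) (ax i), ax_conj, one_mul, map_one, one_mul]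

lemma sC_rt (i : Fin 3) (c : ℝ) (w : W3) : sC (ax i) c (rt i w) = sC 1 c w := by
  refine le_antisymm (sC_le.2 fun k hk => ?_) (sC_le.2 fun k hk => ?_)
  · rw [rt_length] at hk
    rw [ps_rtw, lv_rt]
    exact sC_le.1 le_rfl k hk
  · rw [← ps_rtw i, ← lv_rt i]
    exact sC_le.1 le_rfl k (by rw [rt_length]; exact hk)

lemma osW_rt (i : Fin 3) (h : ℕ) (w : W3) : osW h (rt i w) = osW h w := by
  have key : ∀ a b : ℕ, ‖ps (rt i w) a - ps (rt i w) b‖ = ‖ps w a - ps w b‖ := fun a b => by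
    rw [ps_rt, ps_rt, ← mul_sub, norm_mul, norm_ax, one_mul]
  refine le_antisymm (osW_le fun a b h1 h2 h3 => ?_) (osW_le fun a b h1 h2 h3 => ?_)
  · rw [rt_length] at h3
    rw [key]
    exact le_osW (by omega) (by omega) (by omega) h3
  · rw [← key]
    exact le_osW (by omega) (by omega) (by rw [rt_length]; omega) (by rw [rt_length]; exact h3)

/-- the norm from the two levels -/
lemma norm_lvl (v : HexObs.Pt) : ‖NTF.JJ v‖ ≤ |((HexObs.SDN.lvl false v : ℤ) : ℝ)| + |((HexObs.SDN.lvl true v : ℤ) : ℝ)| := by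
  have h1 := NTF.JJ_norm v
  have h2 : HexObs.nrm v ≤ HexObs.SDN.lvl false v ^ 2 + HexObs.SDN.lvl true v ^ 2 := by
    simp only [HexObs.SDN.lvl, HexObs.SDN.hd, HexObs.ip, HexObs.nrm, HexObs.up, Bool.false_eq_true, if_false, if_true]
    nlinarith [sq_nonneg v.1, sq_nonneg v.2, sq_nonneg (v.1 + v.2)]
  have h3 : ((HexObs.nrm v : ℤ) : ℝ) ≤ ((HexObs.SDN.lvl false v : ℤ) : ℝ) ^ 2 + ((HexObs.SDN.lvl true v : ℤ) : ℝ) ^ 2 := by
    exact_mod_cast h2
  refine abs_le_of_sq_le_sq' ?_ (by positivity) |>.2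
  rw [h1, add_sq, sq_abs, sq_abs]
  have : 0 ≤ 2 * |((HexObs.SDN.lvl false v : ℤ) : ℝ)| * |((HexObs.SDN.lvl true v : ℤ) : ℝ)| := by positivity
  linarith

/-- a large modulus is bad -/
lemma osW_bad {h : ℕ} {x ρ : ℝ} (hx : (h : ℝ) ≤ x) {t : List Bool} (H : 2 * ρ < osW h (wl t)) : t ∈ BMx x ρ := by
  obtain ⟨i, j, h1, h2, h3, h4⟩ := lt_osW H
  rw [wl_length] at h3
  rw [ps_wl t (by omega), ps_wl t h3, ← NTF.JJ_sub] at h4
  have h5 := norm_lvl (vx oo up t i - vx oo up t j)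
  have h6 : ∀ dir : Bool, |((HexObs.SDN.lvl dir (vx oo up t i - vx oo up t j) : ℤ) : ℝ)| =
      |((HexObs.SDN.lvl dir (vx oo up t j) - HexObs.SDN.lvl dir (vx oo up t i) : ℤ) : ℝ)| := by
    intro dir
    have : HexObs.SDN.lvl dir (vx oo up t i - vx oo up t j) =
        -(HexObs.SDN.lvl dir (vx oo up t j) - HexObs.SDN.lvl dir (vx oo up t i)) := by
      simp only [HexObs.SDN.lvl, HexObs.ip, Prod.fst_sub, Prod.snd_sub]
      ring
    rw [this]
    push_cast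
    rw [abs_neg]
  have hji : (j : ℝ) - i ≤ x := by
    have : ((j : ℕ) : ℝ) ≤ ((i + h : ℕ) : ℝ) := by exact_mod_cast h2
    push_cast at this
    linarith
  by_contra hc
  have key : ∀ dir : Bool, |((HexObs.SDN.lvl dir (vx oo up t i - vx oo up t j) : ℤ) : ℝ)| < ρ := by
    intro dir
    rw [h6]
    by_contra hcc
    exact hc ⟨dir, i, j, h1, h3, hji, not_lt.1 hcc⟩
  have := key false
  have := key true
  linarith

end Pool.Agent.ROT.F3
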