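import Pool.Agent.ROT.F3GamR

/-!
# ROT / F3GamS (helper69): (L1) for the indicators of the closed block conditions times Lipschitz functions of the curves

* `Win l P m` : the parameters of the block conditions are not atoms of the statistics of the free blocks;
* `FI` : the weight; **`gamB_main`**.
-/

set_option autoImplicit false

namespace Pool.Agent.ROT.F3

open Finset Filter Topology
open HexObs (oo up vx dx lev lat latE Brd BT Cut wE gf tf FC)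
open HexObs.ROT.FP (FB FBh SB gam2 bl2 Ind2 HSup dp Mod1 mod1 Osc₁ Osc₂ BMx)
open scoped ENNReal Classical

/-! ### blocks -/

lemma fbl_even {m : ℕ} {k : List Bool} (hk : k ∈ FB m) (i : Fin 3) : Even (rt i (wl k)).length := by
  obtain ⟨T, hT, -⟩ := hk
  rw [rt_length, wl_length]
  exact even_of_Brd hT

lemma fbl_pos {m : ℕ} (hm : 1 ≤ m) {k : List Bool} (hk : k ∈ FB m) (i : Fin 3) : 1 ≤ (rt i (wl k)).length := by
  obtain ⟨T, hT, h1, -⟩ := hk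
  rw [rt_length, wl_length]
  by_contra h
  have h0 : k.length = 0 := by omega
  have h2 := (HexObs.mem_Brd.1 hT).2.2.2
  rw [h0, HexObs.lev_zero] at h2
  omega

/-- the mass of a set of free blocks -/
lemma fb_ind (m : ℕ) (S : Set (List Bool)) :
    ∑' k : FB m, wE k.1 * (if k.1 ∈ S then (1 : ℝ≥0∞) else 0) = gf {k | k ∈ FB m ∧ k ∈ S} := by
  unfold HexObs.gf
  rw [_root_.tsum_subtype (FB m) fun k => wE k * (if k ∈ S then (1 : ℝ≥0∞) else 0),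
    _root_.tsum_subtype {k | k ∈ FB m ∧ k ∈ S} fun k => wE k]
  refine tsum_congr fun k => ?_
  rw [Set.indicator_apply, Set.indicator_apply]
  by_cases h1 : k ∈ FB m
  · by_cases h2 : k ∈ S
    · rw [if_pos h1, if_pos h2, mul_one, if_pos (show k ∈ {k | k ∈ FB m ∧ k ∈ S} from ⟨h1, h2⟩)]
    · rw [if_pos h1, if_neg h2, mul_zero, if_neg (show k ∉ {k | k ∈ FB m ∧ k ∈ S} from fun h => h2 h.2)]
  · rw [if_neg h1, if_neg (show k ∉ {k | k ∈ FB m ∧ k ∈ S} from fun h => h1 h.1)]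

/-- the parameters of the block conditions are not atoms -/
def Win (l : Filter ℕ) (P : Tp) (m : ℕ → ℕ) : Prop := ∀ ε : ℝ, 0 < ε → ∃ η : ℝ, 0 < η ∧ ∀ᶠ N : ℕ in l,
  gf {k | k ∈ FB (m N) ∧ wQ 1 P N (uT N) η (wl k)} ≤ ENNReal.ofReal ε

/-- the weight: both blocks have a cut in `[s₀, m)`, closed conditions on the blocks, a function of the curves -/
noncomputable def FI (i j : Fin 3) (m₁ m₂ s₀ : ℕ) (P P' : Tp) (v : ℂ) (N T : ℝ) (e : K4q → ℝ) (ω : W3 × W3) (b b' : W3) : ℝ≥0∞ :=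
  cutW2 i j m₁ m₂ s₀ ω b b' * (ENNReal.ofReal (e (kS v N T ω b b')) * (if iQ (ax i) P N T b ∧ iQ (ax j) P' N T b' then 1 else 0))

/-- the weight with cutoffs -/
noncomputable def FR (i j : Fin 3) (m₁ m₂ s₀ : ℕ) (P P' : Tp) (v : ℂ) (N T η : ℝ) (h₁ h₂ : ℕ) (ρ₁ ρ₂ : ℝ) (e : K4q → ℝ)
    (ω : W3 × W3) (b b' : W3) : ℝ≥0∞ :=
  cutW2 i j m₁ m₂ s₀ ω b b' *
    ENNReal.ofReal (e (kS v N T ω b b') * (gQ (ax i) P N T η h₁ ρ₁ b * gQ (ax j) P' N T η h₂ ρ₂ b'))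

section

variable {i j : Fin 3} {m₁ m₂ s₀ : ℕ} {P P' : Tp} {v : ℂ} {N T η : ℝ} {h₁ h₂ : ℕ} {ρ₁ ρ₂ : ℝ} {e : K4q → ℝ}

lemma FR_le_FI (he : ∀ x, 0 ≤ e x ∧ e x ≤ 1) (hη : 0 < η) (ω : W3 × W3) (b b' : W3) :
    FR i j m₁ m₂ s₀ P P' v N T η h₁ h₂ ρ₁ ρ₂ e ω b b' ≤ FI i j m₁ m₂ s₀ P P' v N T e ω b b' := by
  unfold FR FI
  refine mul_le_mul_right ?_ _
  have g1 := gQ_01 (ax i) P N T η h₁ ρ₁ b
  have g2 := gQ_01 (ax j) P' N T η h₂ ρ₂ b'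
  by_cases h : iQ (ax i) P N T b ∧ iQ (ax j) P' N T b'
  · rw [if_pos h, mul_one]
    refine ENNReal.ofReal_le_ofReal ?_
    exact mul_le_of_le_one_right (he _).1 (mul01 g1 g2).2
  · rcases not_and_or.1 h with h1 | h1
    · rw [gQ_le hη h1, zero_mul, mul_zero, ENNReal.ofReal_zero]
      exact zero_le
    · rw [gQ_le hη h1, mul_zero, mul_zero, ENNReal.ofReal_zero]
      exact zero_le

/-- the bad blocks -/
noncomputable def bdQ (d : ℂ) (P : Tp) (N T η : ℝ) (h : ℕ) (ρ : ℝ) (b : W3) : ℝ≥0∞ :=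
  (if wQ d P N T η b then 1 else 0) + (if ρ < osW h b then 1 else 0)

lemma FI_le (he : ∀ x, 0 ≤ e x ∧ e x ≤ 1) (hη : 0 < η) (hρ₁ : 0 < ρ₁) (hρ₂ : 0 < ρ₂) (ω : W3 × W3) (b b' : W3) :
    FI i j m₁ m₂ s₀ P P' v N T e ω b b' ≤ FR i j m₁ m₂ s₀ P P' v N T η h₁ h₂ ρ₁ ρ₂ e ω b b' +
      (bdQ (ax i) P N T η h₁ ρ₁ b + bdQ (ax j) P' N T η h₂ ρ₂ b') := by
  have hFI : FI i j m₁ m₂ s₀ P P' v N T e ω b b' ≤ 1 := by
    unfold FI
    refine mul_le_one' (cutW2_le _ _ _ _ _ _ _ _) (mul_le_one' ?_ ?_)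
    · rw [← ENNReal.ofReal_one]
      exact ENNReal.ofReal_le_ofReal (he _).2
    · split_ifs
      · exact le_rfl
      · exact zero_le
  by_cases h : iQ (ax i) P N T b ∧ iQ (ax j) P' N T b'
  · by_cases k1 : wQ (ax i) P N T η b
    · refine hFI.trans (le_trans ?_ le_add_self)
      refine le_trans ?_ le_self_add
      unfold bdQ
      rw [if_pos k1]
      exact le_self_add
    by_cases k2 : ρ₁ < osW h₁ b
    · refine hFI.trans (le_trans ?_ le_add_self)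
      refine le_trans ?_ le_self_add
      unfold bdQ
      rw [if_pos k2]
      exact le_add_self
    by_cases k3 : wQ (ax j) P' N T η b'
    · refine hFI.trans (le_trans ?_ le_add_self)
      refine le_trans ?_ le_add_self
      unfold bdQ
      rw [if_pos k3]
      exact le_self_add
    by_cases k4 : ρ₂ < osW h₂ b'
    · refine hFI.trans (le_trans ?_ le_add_self)
      refine le_trans ?_ le_add_self
      unfold bdQ
      rw [if_pos k4]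
      exact le_add_self
    · refine le_trans ?_ le_self_add
      unfold FI FR
      rw [gQ_one hη hρ₁ h.1 k1 (not_lt.1 k2), gQ_one hη hρ₂ h.2 k3 (not_lt.1 k4), if_pos h, mul_one, mul_one, mul_one]
  · unfold FI
    rw [if_neg h, mul_zero, mul_zero]
    exact zero_le

lemma cut_iff {M K m : ℕ} {k k' : List Bool} (h : RlK M K m k k') (hm : 1 ≤ m) (hs : m / K ≤ s₀) (i : Fin 3) :
    (∃ q ∈ FBh m s₀, rt i (wl q) = rt i (wl k)) ↔ ∃ q ∈ FBh m s₀, rt i (wl q) = rt i (wl k') := by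
  have key : ∀ {k k' : List Bool}, RlK M K m k k' → (∃ q ∈ FBh m s₀, rt i (wl q) = rt i (wl k)) →
      ∃ q ∈ FBh m s₀, rt i (wl q) = rt i (wl k') := by
    rintro k k' h ⟨q, hq, he⟩
    have h1 := wl_inj (up_of_FB ((HexObs.ROT.FP.fbh_iff hm _).1 hq).1) (up_of_FB h.fb) (rt_inj he)
    subst h1
    exact ⟨k', (h.fbh hm hs).1 hq, rfl⟩
  exact ⟨key h, key h.symm⟩

/-- **oscillation of the weight with cutoffs** -/
theorem FR_osc {M K : ℕ} {L c1 ρ : ℝ} (hL : 0 ≤ L) (hc1 : 1 ≤ c1) (hρ : 0 < ρ) (hη : 0 < η) (hN : 1 ≤ N)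
    (hT : T = N ^ ((4 : ℝ) / 3)) (hK : 1 ≤ K) (hm₁ : 1 ≤ m₁) (hm₂ : 1 ≤ m₂) (hmN₁ : (m₁ : ℝ) ≤ c1 * N)
    (hmN₂ : (m₂ : ℝ) ≤ c1 * N) (hs₁ : m₁ / K ≤ s₀) (hs₂ : m₂ / K ≤ s₀) (hv : ‖v‖ = 1)
    (he : ∀ x, 0 ≤ e x ∧ e x ≤ 1) (heL : ∀ x y, |e x - e y| ≤ L * dist x y)
    (hc : 0 ≤ P.c ∧ P.c ≤ 1) (hc' : 0 ≤ P'.c ∧ P'.c ≤ 1)
    (hl₁ : ⌈(M : ℝ) * ((m₁ / K : ℕ) : ℝ) ^ ((4 : ℝ) / 3)⌉₊ + 2 ≤ h₁)
    (hl₂ : ⌈(M : ℝ) * ((m₂ / K : ℕ) : ℝ) ^ ((4 : ℝ) / 3)⌉₊ + 2 ≤ h₂) (C0 : Set (W3 × W3)) {δ : ℝ}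
    (hδ : 2 * L * c1 * ρ + M / K * (L * (12 * c1 + c1 ^ 2) + (18 * c1 + c1 ^ 2) / η + 6 / ρ) ≤ δ) :
    OscK M K C0 i j m₁ m₂ δ (FR i j m₁ m₂ s₀ P P' v N T η h₁ h₂ (ρ * m₁) (ρ * m₂) e) := by
  have hN0 : 0 < N := by linarith
  have hT0 : 0 < T := by
    rw [hT]
    positivity
  have hm1r : (0 : ℝ) < m₁ := by exact_mod_cast hm₁
  have hm2r : (0 : ℝ) < m₂ := by exact_mod_cast hm₂
  have fin : ∀ (c : ℝ≥0∞) (x y : ℝ), c ≤ 1 → x ≤ y + δ → c * ENNReal.ofReal x ≤ c * ENNReal.ofReal y + ENNReal.ofReal δ := by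
    intro c x y hc hxy
    calc c * ENNReal.ofReal x ≤ c * (ENNReal.ofReal y + ENNReal.ofReal δ) :=
          mul_le_mul_right ((ENNReal.ofReal_le_ofReal hxy).trans ENNReal.ofReal_add_le) _
      _ = c * ENNReal.ofReal y + c * ENNReal.ofReal δ := mul_add _ _ _
      _ ≤ _ := add_le_add le_rfl (mul_le_of_le_one_left' hc)
  constructor
  · intro ω _ k k' hk k₂ hk₂
    unfold FR
    have hcut : cutW2 i j m₁ m₂ s₀ ω (rt i (wl k)) (rt j (wl k₂)) = cutW2 i j m₁ m₂ s₀ ω (rt i (wl k')) (rt j (wl k₂)) := by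
      unfold cutW2
      rw [cut_iff hk hm₁ hs₁ i]
    rw [hcut]
    refine fin _ _ _ (cutW2_le _ _ _ _ _ _ _ _) ?_
    have g2 := gQ_01 (ax j) P' N T η h₂ (ρ * m₂) (rt j (wl k₂))
    have h1 := eQ_osc (d := ax i) (P := P) (N := N) (T := T) (η := η) (ρ := ρ * m₁) (h := h₁) (v := v)
      (E := fun b => e (kS v N T ω b (rt j (wl k₂))) * gQ (ax j) P' N T η h₂ (ρ * m₂) (rt j (wl k₂))) hL
      (fun w => mul01 (he _) g2) (fun w w' => ?_) hv (norm_ax i) hc hη (by positivity) hN0 hT0 (hk.sw i) (fbl_even hk.fb i)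
      (fbl_pos hm₁ hk.fb i) (fbl_pos hm₁ hk.symm.fb i) (Nat.le_ceil _) hl₁
    · have h2 := num_osc (M := M) hL hc1 hρ hη hN hT hK hm₁ hmN₁ (rfl : (3 * ((M * (m₁ / K) : ℕ) : ℝ)) = _) rfl
      linarith
    · rw [← sub_mul, abs_mul, abs_of_nonneg g2.1]
      refine (mul_le_of_le_one_right (abs_nonneg _) g2.2).trans ((heL _ _).trans (mul_le_mul_of_nonneg_left ?_ hL))
      unfold kS
      rw [Prod.dist_eq, Prod.dist_eq, dist_self, dist_self]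
      exact max_le (max_le dist_nonneg le_rfl) dist_nonneg
  · intro ω _ k k' hk k₁ hk₁
    unfold FR
    have hcut : cutW2 i j m₁ m₂ s₀ ω (rt i (wl k₁)) (rt j (wl k)) = cutW2 i j m₁ m₂ s₀ ω (rt i (wl k₁)) (rt j (wl k')) := by
      unfold cutW2
      rw [cut_iff hk hm₂ hs₂ j]
    rw [hcut]
    refine fin _ _ _ (cutW2_le _ _ _ _ _ _ _ _) ?_
    have g2 := gQ_01 (ax i) P N T η h₁ (ρ * m₁) (rt i (wl k₁))
    have h1 := eQ_osc (d := ax j) (P := P') (N := N) (T := T) (η := η) (ρ := ρ * m₂) (h := h₂) (v := v)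
      (E := fun b => e (kS v N T ω (rt i (wl k₁)) b) * gQ (ax i) P N T η h₁ (ρ * m₁) (rt i (wl k₁))) hL
      (fun w => mul01 (he _) g2) (fun w w' => ?_) hv (norm_ax j) hc' hη (by positivity) hN0 hT0 (hk.sw j) (fbl_even hk.fb j)
      (fbl_pos hm₂ hk.fb j) (fbl_pos hm₂ hk.symm.fb j) (Nat.le_ceil _) hl₂
    · have h2 := num_osc (M := M) hL hc1 hρ hη hN hT hK hm₂ hmN₂ (rfl : (3 * ((M * (m₂ / K) : ℕ) : ℝ)) = _) rfl
      linarith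
    · rw [← sub_mul, abs_mul, abs_of_nonneg g2.1]
      refine (mul_le_of_le_one_right (abs_nonneg _) g2.2).trans ((heL _ _).trans (mul_le_mul_of_nonneg_left ?_ hL))
      unfold kS
      rw [Prod.dist_eq]
      refine max_le ?_ ?_
      · rw [dist_self]
        exact dist_nonneg
      · rw [Prod.dist_eq]
        refine max_le ?_ le_rfl
        rw [dist_self]
        exact dist_nonneg

end

/-! ### (L1) -/

lemma gf_win_mono {m : ℕ} {P : Tp} {N T η η' : ℝ} (h : η ≤ η') :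
    gf {k | k ∈ FB m ∧ wQ 1 P N T η (wl k)} ≤ gf {k | k ∈ FB m ∧ wQ 1 P N T η' (wl k)} := by
  refine HexObs.gf_mono ?_
  rintro k ⟨h1, h2⟩
  exact ⟨h1, h2.imp (fun h3 => h3.trans h) (Or.imp (fun h3 => h3.trans h) fun h3 => h3.trans h)⟩

/-- the mass of the bad blocks -/
lemma bd_mass {m : ℕ} {P : Tp} {N T η : ℝ} {x ρ : ℝ} {h : ℕ} (hx : (h : ℝ) ≤ x) {E₁ E₂ : ℝ≥0∞} (i : Fin 3)
    (h1 : gf {k | k ∈ FB m ∧ wQ 1 P N T η (wl k)} ≤ E₁) (h2 : gf {k | k ∈ FB m ∧ k ∈ BMx x ρ} ≤ E₂) :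
    ∑' k : FB m, wE k.1 * bdQ (ax i) P N T η h (2 * ρ) (rt i (wl k.1)) ≤ E₁ + E₂ := by
  unfold bdQ
  rw [tsum_congr fun k : FB m => mul_add (wE k.1) _ _, ENNReal.tsum_add]
  refine add_le_add ?_ ?_
  · refine le_trans (le_of_eq ?_) h1
    refine Eq.trans ?_ (fb_ind m {k | wQ 1 P N T η (wl k)})
    refine tsum_congr fun k => ?_
    congr 1
    have : wQ (ax i) P N T η (rt i (wl k.1)) ↔ k.1 ∈ {k | wQ 1 P N T η (wl k)} := by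
      show wQ (ax i) P N T η (rt i (wl k.1)) ↔ wQ 1 P N T η (wl k.1)
      unfold wQ
      rw [sB_rt, sC_rt, rt_length]
    by_cases hc : wQ (ax i) P N T η (rt i (wl k.1))
    · rw [if_pos hc, if_pos (this.1 hc)]
    · rw [if_neg hc, if_neg fun h => hc (this.2 h)]
  · refine le_trans ?_ h2
    rw [← fb_ind m (BMx x ρ)]
    refine ENNReal.tsum_le_tsum fun k => mul_le_mul_right ?_ _
    rw [osW_rt]
    by_cases hc : 2 * ρ < osW h (wl k.1)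
    · rw [if_pos hc, if_pos (osW_bad hx hc)]
    · rw [if_neg hc]
      exact zero_le

/-- **(L1) for the classes** -/
theorem gamB_main {l : Filter ℕ} (hl : l ≤ atTop) {i j : Fin 3} (hij : i ≠ j) {C0 : ℕ → Set (W3 × W3)}
    (hfin : ∀ᶠ N in l, mass0 (C0 N) ≠ ∞) {P P' : Tp} (hc : 0 ≤ P.c ∧ P.c ≤ 1) (hc' : 0 ≤ P'.c ∧ P'.c ≤ 1)
    {m₁ m₂ s₀ : ℕ → ℕ} {c0 c1 c2 : ℝ} (h0 : 0 < c0) (h1 : 1 ≤ c1) (h2 : 0 < c2)
    (hm : ∀ᶠ N : ℕ in l, (c0 * N ≤ m₁ N ∧ (m₁ N : ℝ) ≤ c1 * N) ∧ (c0 * N ≤ m₂ N ∧ (m₂ N : ℝ) ≤ c1 * N))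
    (hs : ∀ᶠ N : ℕ in l, c2 * N ≤ s₀ N) (W₁ : Win l P m₁) (W₂ : Win l P' m₂) {v : ℂ} (hv : ‖v‖ = 1) {e : K4q → ℝ} (he : TF e)
    {ε : ℝ} (hε : 0 < ε) : ∃ η : ℝ, 0 < η ∧ ∀ᶠ N : ℕ in l, ∀ u ∈ EL, ‖u‖ ≤ η * N →
      ∑' z : ℂ, (gamB (C0 N) i j (m₁ N) (m₂ N) (FI i j (m₁ N) (m₂ N) (s₀ N) P P' v N (uT N) e) (z + u) -
        gamB (C0 N) i j (m₁ N) (m₂ N) (FI i j (m₁ N) (m₂ N) (s₀ N) P P' v N (uT N) e) z) ≤
      ENNReal.ofReal ε * mass0 (C0 N) := by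
  obtain ⟨⟨L0, hL0⟩, he01⟩ := he
  obtain ⟨L, hLdef⟩ : ∃ L : ℝ, L = L0 := ⟨_, rfl⟩
  have hL : 0 ≤ L := by
    rw [hLdef]
    exact L0.2
  have heL : ∀ x y, |e x - e y| ≤ L * dist x y := fun x y => by
    rw [← Real.dist_eq, hLdef]
    exact hL0.dist_le_mul x y
  obtain ⟨η₁, hη₁, w1⟩ := W₁ (ε / 8) (by positivity)
  obtain ⟨η₂, hη₂, w2⟩ := W₂ (ε / 8) (by positivity)
  obtain ⟨η, hη⟩ : ∃ η : ℝ, η = min η₁ η₂ := ⟨_, rfl⟩
  have hη0 : 0 < η := by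
    rw [hη]
    exact lt_min hη₁ hη₂
  obtain ⟨M, K0, hK0, hmain⟩ := gamB_l1k (ε := ε / 2) (by positivity)
  obtain ⟨ρ, hρ⟩ : ∃ ρ : ℝ, ρ = ε / (64 * (L * c1 + 1)) := ⟨_, rfl⟩
  have hLc : 0 ≤ L * c1 := by positivity
  have hρ0 : 0 < ρ := by
    rw [hρ]
    positivity
  obtain ⟨δ, mB, hδ, hmod⟩ := HexObs.ROT.FP.fb_mod (ρ := ρ / 2) (ε := ε / 8) (by positivity) (by positivity)
  obtain ⟨Q, hQ⟩ : ∃ Q : ℝ, Q = L * (12 * c1 + c1 ^ 2) + (18 * c1 + c1 ^ 2) / η + 6 / ρ := ⟨_, rfl⟩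
  have hQ0 : 0 ≤ Q := by
    rw [hQ]
    positivity
  obtain ⟨K, hK⟩ : ∃ K : ℕ, K = K0 + ⌈2 * (M : ℝ) / δ⌉₊ + ⌈32 * M * Q / ε⌉₊ + ⌈c1 / c2⌉₊ := ⟨_, rfl⟩
  have hKK0 : K0 ≤ K := by omega
  have hK1 : 1 ≤ K := by omega
  have hKr : (0 : ℝ) < K := by exact_mod_cast hK1
  have k1 : 2 * (M : ℝ) / δ ≤ K := (Nat.le_ceil _).trans (by exact_mod_cast (by omega : ⌈2 * (M : ℝ) / δ⌉₊ ≤ K))
  have k2 : 32 * M * Q / ε ≤ K := (Nat.le_ceil _).trans (by exact_mod_cast (by omega : ⌈32 * M * Q / ε⌉₊ ≤ K))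
  have k3 : c1 / c2 ≤ K := (Nat.le_ceil _).trans (by exact_mod_cast (by omega : ⌈c1 / c2⌉₊ ≤ K))
  obtain ⟨η', m0, hη', hm0, hl1⟩ := hmain K hKK0
  have hosc : 2 * L * c1 * ρ + M / K * Q ≤ ε / 2 / 8 := by
    have a1 : 2 * L * c1 * ρ ≤ ε / 32 := by
      rw [hρ, ← mul_div_assoc, div_le_div_iff₀ (by positivity) (by norm_num)]
      nlinarith
    have a2 : M / K * Q ≤ ε / 32 := by
      rw [div_mul_eq_mul_div, div_le_iff₀ hKr]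
      rw [div_le_iff₀ hε] at k2
      linarith
    linarith
  -- large scales
  obtain ⟨N0, hN0⟩ := exists_nat_ge (((m0 : ℝ) + mB + 8 / δ + 1) / c0)
  have hlarge : ∀ᶠ N : ℕ in l, max 1 N0 ≤ N := hl (eventually_ge_atTop _)
  refine ⟨η' * c0, by positivity, ?_⟩
  filter_upwards [hfin, hm, hs, w1, w2, hlarge] with N f1 f2 f3 f4 f5 f6 u hu hun
  obtain ⟨⟨f21, f22⟩, ⟨f23, f24⟩⟩ := f2
  have hN1 : 1 ≤ N := (le_max_left _ _).trans f6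
  have hN1r : (1 : ℝ) ≤ N := by exact_mod_cast hN1
  have hNr : (m0 : ℝ) + mB + 8 / δ + 1 ≤ c0 * N := by
    have a1 : (N0 : ℝ) ≤ N := by exact_mod_cast (le_max_right _ _).trans f6
    have a2 := hN0.trans a1
    rw [div_le_iff₀ h0] at a2
    linarith
  have h8 : 0 < 8 / δ := by positivity
  have big : ∀ m : ℕ, c0 * (N : ℝ) ≤ m → m0 ≤ m ∧ mB ≤ m ∧ 1 ≤ m ∧ 8 / δ ≤ (m : ℝ) := by
    intro m hm
    have z1 : (0 : ℝ) ≤ m0 := Nat.cast_nonneg _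
    have z2 : (0 : ℝ) ≤ mB := Nat.cast_nonneg _
    have a1 : (m0 : ℝ) ≤ m := by linarith
    have a2 : (mB : ℝ) ≤ m := by linarith
    have a3 : (1 : ℝ) ≤ m := by linarith
    exact ⟨by exact_mod_cast a1, by exact_mod_cast a2, by exact_mod_cast a3, by linarith⟩
  obtain ⟨b1, b2, b3, b4⟩ := big (m₁ N) f21
  obtain ⟨b1', b2', b3', b4'⟩ := big (m₂ N) f23
  have hsK : ∀ m : ℕ, (m : ℝ) ≤ c1 * N → m / K ≤ s₀ N := by
    intro m hm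
    have a1 : ((m / K : ℕ) : ℝ) ≤ m / K := Nat.cast_div_le
    have a2 : (m : ℝ) / K ≤ c2 * N := by
      rw [div_le_iff₀ hKr]
      rw [div_le_iff₀ h2] at k3
      nlinarith
    have a3 : ((m / K : ℕ) : ℝ) ≤ s₀ N := a1.trans (a2.trans f3)
    exact_mod_cast a3
  have hF1 : ∀ ω b b', FR i j (m₁ N) (m₂ N) (s₀ N) P P' v N (uT N) η ⌊δ * (m₁ N : ℝ) ^ ((4 : ℝ) / 3)⌋₊
      ⌊δ * (m₂ N : ℝ) ^ ((4 : ℝ) / 3)⌋₊ (ρ * m₁ N) (ρ * m₂ N) e ω b b' ≤ 1 := by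
    intro ω b b'
    unfold FR
    refine mul_le_one' (cutW2_le _ _ _ _ _ _ _ _) ?_
    rw [← ENNReal.ofReal_one]
    exact ENNReal.ofReal_le_ofReal (mul01 (he01 _) (mul01 (gQ_01 _ _ _ _ _ _ _ _) (gQ_01 _ _ _ _ _ _ _ _))).2
  have hOK := FR_osc (i := i) (j := j) (P := P) (P' := P') (v := v) (N := (N : ℝ)) (T := uT N) (s₀ := s₀ N) (M := M) (K := K)
    hL h1 hρ0 hη0 hN1r rfl hK1 b3 b3' f22 f24 (hsK _ f22) (hsK _ f24) hv he01 heL hc hc' (num_len hδ hK1 k1 b3 b4)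
    (num_len hδ hK1 k1 b3' b4') (C0 N) (δ := ε / 2 / 8) (by rw [← hQ]; exact hosc)
  have hL1 := hl1 (m₁ N) (m₂ N) b1 b1' i j hij (C0 N) f1 _ hF1 hOK u hu
    (hun.trans (by rw [mul_assoc]; exact mul_le_mul_of_nonneg_left f21 hη'.le))
    (hun.trans (by rw [mul_assoc]; exact mul_le_mul_of_nonneg_left f23 hη'.le))
  have hw1 := (gf_win_mono (m := m₁ N) (P := P) (N := N) (T := uT N) (hη.le.trans (min_le_left _ _))).trans f4
  have hw2 := (gf_win_mono (m := m₂ N) (P := P') (N := N) (T := uT N) (hη.le.trans (min_le_right _ _))).trans f5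
  have hp1 : 0 ≤ δ * (m₁ N : ℝ) ^ ((4 : ℝ) / 3) := by positivity
  have hp2 : 0 ≤ δ * (m₂ N : ℝ) ^ ((4 : ℝ) / 3) := by positivity
  have hb1 := bd_mass (Nat.floor_le hp1) i hw1 (hmod (m₁ N) b2)
  have hb2 := bd_mass (Nat.floor_le hp2) j hw2 (hmod (m₂ N) b2')
  have e1 : ∀ m : ℝ, 2 * (ρ / 2 * m) = ρ * m := fun m => by ring
  rw [e1] at hb1 hb2
  have hm1p : (0 : ℝ) < m₁ N := by exact_mod_cast b3
  have hm2p : (0 : ℝ) < m₂ N := by exact_mod_cast b3'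
  refine (gamB_close b3 b3' (fun ω _ b _ b' _ => FR_le_FI he01 hη0 ω b b')
    (fun ω _ b _ b' _ => FI_le he01 hη0 (mul_pos hρ0 hm1p) (mul_pos hρ0 hm2p) ω b b') hL1 hb1 hb2).trans (le_of_eq ?_)
  congr 1
  rw [← ENNReal.ofReal_add (by positivity) (by positivity), ← ENNReal.ofReal_add (by positivity) (by positivity),
    ← ENNReal.ofReal_add (by positivity) (by positivity)]
  congr 1
  ring

end Pool.Agent.ROT.F3
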