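import Pool.Agent.ROT.F3Gate

/-!
# ROT / F3GateP (helper83): deletion of the block behind a start piece, any class of start pieces

`StC d r r0 l P`: every `p ∈ P` is in the ball `r`, its end has the greatest level, at least `l`, and `p` is determined by `p ++ R`
(`R` a rest with the radius `r0`). **`stC_fst`** : up to the first gate; **`stC_chain`** : up to the first gate `c` over the tip and
then up to the first gate `x` over `c` (with any further conditions on the two pieces). **`del_leP`** : the mass of the walks with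
a weight `ψ b` of the block `b` behind the start piece is at most `(∑ b, wx b * ψ b) * (mass of all walks with these lengths)`.
-/

set_option autoImplicit false

namespace Pool.Agent.ROT.F3

open Finset ComplexConjugate
open scoped ENNReal Classical

/-- a class of start pieces -/
structure StC (d : ℂ) (r r0 l : ℝ) (P : Set W3) : Prop where
  tip : ∀ p ∈ P, TipC d r p
  lvl : ∀ p ∈ P, l ≤ lv d (en p)
  uni : ∀ p ∈ P, ∀ p' ∈ P, ∀ R R' : W3, RestC d r0 R → RestC d r0 R' → p ++ R = p' ++ R' → p = p'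

/-- smaller classes -/
lemma StC.mono {d : ℂ} {r r0 l : ℝ} {P P' : Set W3} (h : StC d r r0 l P) (hP : P' ⊆ P) : StC d r r0 l P' :=
  ⟨fun p hp => h.tip p (hP hp), fun p hp => h.lvl p (hP hp), fun p hp p' hp' => h.uni p (hP hp) p' (hP hp')⟩

/-- the start pieces up to the first gate -/
theorem stC_fst {d : ℂ} {r r0 l : ℝ} (hr : 2 * r ≤ r0) : StC d r r0 l {p | TipC d r p ∧ FstC d l p} :=
  ⟨fun _ hp => hp.1, fun _ hp => hp.2.1, fun _ hp _ hp' _ _ hR hR' h => tip_uniq hp.1 hp'.1 hp.2 hp'.2 hR hR' hr h⟩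

/-- a block and the rest behind it are a rest -/
lemma rest_appP {d : ℂ} {r2 r0 ρ : ℝ} {k R : W3} (hk : TipC d r2 k) (hpos : ∀ j : ℕ, 0 < j → j ≤ k.length → 0 < lv d (ps k j))
    (hR : RestC d r0 R) (hρ : ρ + r2 ≤ r0) : RestC d ρ (k ++ R) := by
  intro j hj hj2 hj3
  rcases Nat.lt_or_ge k.length j with h | h
  · rw [ps_append_right' hk.ev h.le] at hj3 ⊢
    rw [List.length_append] at hj2
    have h1 : ‖ps R (j - k.length)‖ ≤ r0 := by
      have h2 : ps R (j - k.length) = (en k + ps R (j - k.length)) - en k := by ring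
      rw [h2]
      refine (norm_sub_le _ _).trans ?_
      linarith [norm_en_le hk]
    have h3 := hR (j - k.length) (by omega) (by omega) h1
    have h4 := hpos k.length hk.pos le_rfl
    have h5 : ps k k.length = en k := rfl
    rw [h5] at h4
    rw [lv_add]
    linarith
  · rw [ps_append_left h] at hj3 ⊢
    exact hpos j hj h

/-- **the chain**: `a` up to the first gate over the tip, `k` up to the first gate over the end of `a` -/
theorem stC_chain {d : ℂ} {r r2 r0 l m ρ : ℝ} (hr : 2 * r ≤ ρ) (hr2 : 2 * r2 ≤ r0) (hρ : ρ + r2 ≤ r0) (hm : 0 ≤ m) :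
    StC d (r + r2) r0 l {p | ∃ a k : W3, p = a ++ k ∧ TipC d r a ∧ FstC d l a ∧ TipC d r2 k ∧ FstC d m k ∧
      ∀ j : ℕ, 0 < j → j ≤ k.length → 0 < lv d (ps k j)} := by
  refine ⟨?_, ?_, ?_⟩
  · rintro p ⟨a, k, rfl, ha, -, hk, -, hpos⟩
    have hek : 0 < lv d (en k) := hpos k.length hk.pos le_rfl
    refine ⟨?_, ?_, ?_, fun j hj => ?_, fun j hj => ?_⟩
    · rw [List.length_append]
      exact ha.ev.add hk.ev
    · refine (SW_append ha.ev).2 ⟨ha.sw, hk.sw, fun j k' hj hk' he => ?_⟩
      have h1 := ha.left j hj.le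
      rcases Nat.eq_zero_or_pos k' with h2 | h2
      · rw [h2, ps_zero, add_zero] at he
        exact absurd (ha.sw j a.length hj.le le_rfl he) (by omega)
      · have h3 := hpos k' h2 hk'
        rw [he, lv_add] at h1
        linarith
    · rw [List.length_append]
      exact Nat.lt_of_lt_of_le ha.pos (Nat.le_add_right _ _)
    · rw [en_append ha.ev, lv_add]
      rcases Nat.lt_or_ge a.length j with h | h
      · rw [ps_append_right' ha.ev h.le, lv_add]
        rw [List.length_append] at hj
        linarith [hk.left (j - a.length) (by omega)]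
      · rw [ps_append_left h]
        linarith [ha.left j h]
    · rcases Nat.lt_or_ge a.length j with h | h
      · rw [ps_append_right' ha.ev h.le]
        rw [List.length_append] at hj
        refine (norm_add_le _ _).trans ?_
        linarith [norm_en_le ha, hk.ball (j - a.length) (by omega)]
      · rw [ps_append_left h]
        have h2 : 0 ≤ r2 := (norm_nonneg _).trans (norm_en_le hk)
        linarith [ha.ball j h]
  · rintro p ⟨a, k, rfl, ha, fa, hk, fk, -⟩
    rw [en_append ha.ev, lv_add]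
    linarith [fa.1, fk.1]
  · rintro p ⟨a, k, rfl, ha, fa, hk, fk, hpos⟩ p' ⟨a', k', rfl, ha', fa', hk', fk', hpos'⟩ R R' hR hR' h
    rw [List.append_assoc, List.append_assoc] at h
    have e1 : a = a' := tip_uniq ha ha' fa fa' (rest_appP hk hpos hR hρ) (rest_appP hk' hpos' hR' hρ) hr h
    subst e1
    have h2 := List.append_cancel_left h
    have e2 : k = k' := tip_uniq hk hk' fk fk' hR hR' hr2 h2
    rw [e2]

/-- **the block can be deleted** -/
theorem del_swP {d : ℂ} (hd : ‖d‖ = 1) {r r0 l κ : ℝ} {p b R y : W3} (hp : TipC d r p) (hl : l ≤ lv d (en p))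
    (eb : Even b.length) (eR : Even R.length) (hR : RestC d r0 R) (hr : 2 * r ≤ r0) (hκr : κ + r ≤ r0) (hκ : κ < l)
    (hy : ∀ j : ℕ, j ≤ y.length → ‖ps y j‖ ≤ κ) (h : SW ((p ++ (b ++ R)).reverse ++ y)) : SW ((p ++ R).reverse ++ y) := by
  have ep := hp.ev
  have e1 : Even (p ++ (b ++ R)).length := by
    rw [List.length_append, List.length_append]
    exact ep.add (eb.add eR)
  have e2 : Even (p ++ R).length := by
    rw [List.length_append]
    exact ep.add eR
  rw [SW_rev_append e1] at h
  rw [SW_rev_append e2]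
  obtain ⟨h1, h2, h3⟩ := h
  have h4 := (SW_append ep).1 h1
  have h5 := (SW_append eb).1 h4.2.1
  refine ⟨(SW_append ep).2 ⟨hp.sw, h5.2.1, tip_rest hp hR hr⟩, h2, fun i k hi hi2 hk he => ?_⟩
  rw [List.length_append] at hi2
  rcases Nat.lt_or_ge p.length i with hpi | hpi
  · rw [ps_append_right' ep hpi.le] at he
    have n1 : ps R (i - p.length) = ps y k - en p := by rw [← he]; ring
    have n2 : ‖ps R (i - p.length)‖ ≤ r0 := by
      rw [n1]
      calc ‖ps y k - en p‖ ≤ ‖ps y k‖ + ‖en p‖ := norm_sub_le _ _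
        _ ≤ r0 := by linarith [hy k hk, norm_en_le hp]
    have n3 := hR (i - p.length) (by omega) (by omega) n2
    rw [n1, lv_sub] at n3
    have n4 : lv d (ps y k) ≤ ‖ps y k‖ := by
      unfold lv
      refine (Complex.re_le_norm _).trans ?_
      rw [norm_mul, RCLike.norm_conj, hd, one_mul]
    linarith [hy k hk]
  · rw [ps_append_left hpi] at he
    refine h3 i k hi ?_ hk ?_
    · rw [List.length_append]
      omega
    · rw [ps_append_left hpi, he]

/-- the decomposition of the word read from the mark -/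
structure DcP (d : ℂ) (r0 : ℝ) (P B : Set W3) (q p b R : W3) : Prop where
  eq : q = p ++ (b ++ R)
  tip : p ∈ P
  blk : b ∈ B
  ev : Even R.length
  rst : RestC d r0 R

/-- the sum of `ψ` over the blocks behind the start piece -/
noncomputable def gsP (d : ℂ) (r0 : ℝ) (P B : Set W3) (ψ : W3 → ℝ≥0∞) (q : W3) : ℝ≥0∞ :=
  ∑' x : W3 × W3 × W3, if DcP d r0 P B q x.1 x.2.1 x.2.2 then ψ x.2.1 else 0

/-- for one block -/
lemma del_oneP {d : ℂ} (hd : ‖d‖ = 1) {r r0 l κ : ℝ} {P : Set W3} (hP : StC d r r0 l P) (hr : 2 * r ≤ r0) (hκr : κ + r ≤ r0) (hκ : κ < l) {B : Set W3}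
    (hB : ∀ b ∈ B, Even b.length) {k k' K : ℕ} (hk : k' ≤ k) {b : W3} (hb : b ∈ B) :
    (∑' x : W3 × W3 × W3, if Wm k k' K κ x.2.2 ∧ DcP d r0 P B (x.2.2.take k').reverse x.1 b x.2.1 then wx x.2.2 else 0) ≤
      wx b * Zw (k - b.length) (K - b.length) := by
  obtain ⟨T, hT⟩ : ∃ T : Set (W3 × W3 × W3), T = {x | Wm k k' K κ x.2.2 ∧
    DcP d r0 P B (x.2.2.take k').reverse x.1 b x.2.1} := ⟨_, rfl⟩
  have hTm : ∀ z ∈ T, Wm k k' K κ z.2.2 ∧ DcP d r0 P B (z.2.2.take k').reverse z.1 b z.2.1 := by
    rw [hT]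
    exact fun z hz => hz
  -- the word
  have hw : ∀ x : T, x.1.2.2 = (x.1.1 ++ (b ++ x.1.2.1)).reverse ++ x.1.2.2.drop k' ∧
      (x.1.1 ++ (b ++ x.1.2.1)).length = k' := by
    rintro ⟨⟨p, R, w⟩, hx⟩
    obtain ⟨h1, h2⟩ := hTm _ hx
    have e := h2.eq
    simp only at e h1 ⊢
    have e' : w.take k' = (p ++ (b ++ R)).reverse := by
      rw [← e, List.reverse_reverse]
    refine ⟨?_, ?_⟩
    · rw [← e', List.take_append_drop]
    · rw [← e, List.length_reverse, List.length_take, min_eq_left (hk.trans h1.lo)]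
  obtain ⟨g, hg⟩ : ∃ g : T → W3, g = fun x => (x.1.1 ++ x.1.2.1).reverse ++ x.1.2.2.drop k' := ⟨_, rfl⟩
  obtain ⟨F, hF⟩ : ∃ F : W3 → ℝ≥0∞, F = fun w => if SW w ∧ k - b.length ≤ w.length ∧ w.length ≤ K - b.length then wx w
    else 0 := ⟨_, rfl⟩
  have hinj : Function.Injective g := by
    intro x y hxy
    obtain ⟨x1, x2⟩ := hw x
    obtain ⟨y1, y2⟩ := hw y
    obtain ⟨-, hx⟩ := hTm _ x.2
    obtain ⟨-, hy⟩ := hTm _ y.2
    rw [hg] at hxy
    simp only at hxy
    have hl : (x.1.1 ++ x.1.2.1).reverse.length = (y.1.1 ++ y.1.2.1).reverse.length := by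
      rw [List.length_append, List.length_append] at x2 y2
      rw [List.length_reverse, List.length_reverse, List.length_append, List.length_append]
      omega
    obtain ⟨h1, h2⟩ := List.append_inj hxy hl
    have h3 : x.1.1 ++ x.1.2.1 = y.1.1 ++ y.1.2.1 := List.reverse_injective h1
    have h4 := hP.uni _ hx.tip _ hy.tip _ _ hx.rst hy.rst h3
    rw [h4] at h3
    have h5 := List.append_cancel_left h3
    have h6 : x.1.2.2 = y.1.2.2 := by
      rw [x1, y1, h4, h5, h2]
    exact Subtype.ext (Prod.ext h4 (Prod.ext h5 h6))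
  have hval : ∀ x : T, wx x.1.2.2 = wx b * F (g x) := by
    intro x
    obtain ⟨x1, x2⟩ := hw x
    obtain ⟨hm, hx⟩ := hTm _ x.2
    have eb := hB b hb
    have hsw : SW (g x) := by
      rw [hg]
      refine del_swP hd (hP.tip _ hx.tip) (hP.lvl _ hx.tip) eb hx.ev hx.rst hr hκr hκ hm.tip ?_
      rw [← x1]
      exact hm.sw
    have hlen : (g x).length + b.length = x.1.2.2.length := by
      rw [hg]
      conv_rhs => rw [x1]
      simp only [List.length_append, List.length_reverse]
      omega
    have hFg : F (g x) = wx (g x) := by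
      rw [hF]
      simp only
      rw [if_pos ⟨hsw, by have := hm.lo; omega, by have := hm.up; omega⟩]
    rw [hFg]
    unfold wx
    rw [← hlen, pow_add, mul_comm]
  have e1 : (∑' x : W3 × W3 × W3, if Wm k k' K κ x.2.2 ∧ DcP d r0 P B (x.2.2.take k').reverse x.1 b x.2.1 then wx x.2.2
      else 0) = ∑' x : T, wx x.1.2.2 := by
    rw [tsum_subtype T fun x : W3 × W3 × W3 => wx x.2.2]
    refine tsum_congr fun x => ?_
    by_cases h : x ∈ T
    · rw [Set.indicator_of_mem h]
      exact if_pos (hTm _ h)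
    · rw [Set.indicator_of_notMem h]
      refine if_neg fun h2 => h ?_
      rw [hT]
      exact h2
  rw [e1, tsum_congr hval, ENNReal.tsum_mul_left]
  refine mul_le_mul_right ?_ _
  refine (ENNReal.tsum_comp_le_tsum_of_injective hinj F).trans ?_
  rw [hF]
  exact le_rfl

/-- **deletion of the block**, with weights -/
theorem del_leP {d : ℂ} (hd : ‖d‖ = 1) {r r0 l κ : ℝ} {P : Set W3} (hP : StC d r r0 l P) (hr : 2 * r ≤ r0) (hκr : κ + r ≤ r0) (hκ : κ < l) {B : Set W3}
    (hB : ∀ b ∈ B, Even b.length) {k k' K : ℕ} (hk : k' ≤ k) {Zb : ℝ≥0∞} (hZ : ∀ j : ℕ, j ≤ k' → Zw (k - j) (K - j) ≤ Zb)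
    (ψ : W3 → ℝ≥0∞) :
    (∑' w : W3, if Wm k k' K κ w then wx w * gsP d r0 P B ψ (w.take k').reverse else 0) ≤ Sb B ψ * Zb := by
  have e1 : (∑' w : W3, if Wm k k' K κ w then wx w * gsP d r0 P B ψ (w.take k').reverse else 0) =
      ∑' b : W3, ψ b * ∑' x : W3 × W3 × W3, (if Wm k k' K κ x.2.2 ∧
        DcP d r0 P B (x.2.2.take k').reverse x.1 b x.2.1 then wx x.2.2 else 0) := by
    have a1 : ∀ w : W3, (if Wm k k' K κ w then wx w * gsP d r0 P B ψ (w.take k').reverse else 0) =
        ∑' (p : W3) (b : W3) (R : W3), (if Wm k k' K κ w ∧ DcP d r0 P B (w.take k').reverse p b R then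
          ψ b * wx w else 0) := by
      intro w
      by_cases h : Wm k k' K κ w
      · rw [if_pos h]
        unfold gsP
        rw [← ENNReal.tsum_mul_left]
        rw [ENNReal.tsum_prod']
        refine tsum_congr fun p => ?_
        rw [ENNReal.tsum_prod']
        refine tsum_congr fun b => tsum_congr fun R => ?_
        by_cases h2 : DcP d r0 P B (w.take k').reverse p b R
        · rw [if_pos h2, if_pos ⟨h, h2⟩, mul_comm]
        · rw [if_neg h2, if_neg fun h3 => h2 h3.2, mul_zero]
      · rw [if_neg h]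
        symm
        simp only [h, false_and, if_false, tsum_zero]
    rw [tsum_congr a1]
    have a2 : ∀ b : W3, ψ b * ∑' x : W3 × W3 × W3, (if Wm k k' K κ x.2.2 ∧
        DcP d r0 P B (x.2.2.take k').reverse x.1 b x.2.1 then wx x.2.2 else 0) =
        ∑' (p : W3) (R : W3) (w : W3), (if Wm k k' K κ w ∧ DcP d r0 P B (w.take k').reverse p b R then ψ b * wx w else 0) := by
      intro b
      rw [← ENNReal.tsum_mul_left, ENNReal.tsum_prod']
      refine tsum_congr fun p => ?_
      rw [ENNReal.tsum_prod']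
      refine tsum_congr fun R => tsum_congr fun w => ?_
      rw [mul_ite, mul_zero]
    rw [tsum_congr a2]
    calc (∑' (w : W3) (p : W3) (b : W3) (R : W3), (if Wm k k' K κ w ∧ DcP d r0 P B (w.take k').reverse p b R then
          ψ b * wx w else 0))
        = ∑' (p : W3) (w : W3) (b : W3) (R : W3), (if Wm k k' K κ w ∧ DcP d r0 P B (w.take k').reverse p b R then
          ψ b * wx w else 0) := ENNReal.tsum_comm
      _ = ∑' (p : W3) (b : W3) (w : W3) (R : W3), (if Wm k k' K κ w ∧ DcP d r0 P B (w.take k').reverse p b R then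
          ψ b * wx w else 0) := tsum_congr fun p => ENNReal.tsum_comm
      _ = ∑' (b : W3) (p : W3) (w : W3) (R : W3), (if Wm k k' K κ w ∧ DcP d r0 P B (w.take k').reverse p b R then
          ψ b * wx w else 0) := ENNReal.tsum_comm
      _ = _ := tsum_congr fun b => tsum_congr fun p => ENNReal.tsum_comm
  rw [e1]
  unfold Sb
  rw [← ENNReal.tsum_mul_right]
  refine ENNReal.tsum_le_tsum fun b => ?_
  by_cases hb : b ∈ B
  · rw [if_pos hb]
    by_cases hbk : b.length ≤ k'
    · calc _ ≤ ψ b * (wx b * Zw (k - b.length) (K - b.length)) := by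
            refine mul_le_mul_right ?_ _
            exact del_oneP hd hP hr hκr hκ hB hk hb
        _ ≤ ψ b * (wx b * Zb) := by
            refine mul_le_mul_right (mul_le_mul_right (hZ _ hbk) _) _
        _ = _ := by ring
    · have : (∑' x : W3 × W3 × W3, if Wm k k' K κ x.2.2 ∧ DcP d r0 P B (x.2.2.take k').reverse x.1 b x.2.1 then wx x.2.2
          else 0) = 0 := by
        refine ENNReal.tsum_eq_zero.2 fun x => ?_
        rw [if_neg]
        rintro ⟨-, h2⟩
        have h3 := congrArg List.length h2.eq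
        simp only [List.length_reverse, List.length_take, List.length_append] at h3
        omega
      rw [this, mul_zero]
      exact bot_le
  · have : (∑' x : W3 × W3 × W3, if Wm k k' K κ x.2.2 ∧ DcP d r0 P B (x.2.2.take k').reverse x.1 b x.2.1 then wx x.2.2
        else 0) = 0 := by
      refine ENNReal.tsum_eq_zero.2 fun x => ?_
      rw [if_neg]
      rintro ⟨-, h2⟩
      exact hb h2.blk
    rw [this, mul_zero]
    exact bot_le

end Pool.Agent.ROT.F3
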