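import Pool.Agent.ROT.F3C0Lit
import Pool.Agent.ROT.F3Brd
import Pool.Agent.ROT.F3AcTLit

/-!
# ROT / F3T12Lit (helper83): the rows of `T12`

* `Cw` (D1): the first `M` letters of the closed words and the `M` letters before an even interior mark of a walk;
* `NRet` (D2): no near return behind `M` letters; `gh`, `Gz` (D4): the deletion of the block, in words.
-/

set_option autoImplicit false

namespace Pool.Agent.ROT.F3

open Finset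

open HexObs hiding pos

open HexObs.SDN HexObs.TS HexObs.TIW HexObs.MCP

open NTF (JJ)

open scoped ENNReal Classical

/-- **(D1)** the closed words and an interior mark of the walks -/
def Cw : Prop := ∀ ε : ℝ, 0 < ε → ∃ (δ : ℝ) (n0 : ℕ), 0 < δ ∧ ∀ N n k' M : ℕ, Odd N → n0 ≤ N → n0 ≤ n → Even k' →
  (n : ℝ) / 8 ≤ k' → (k' : ℝ) ≤ 7 * n / 8 → (M : ℝ) ≤ δ * N → (M : ℝ) ≤ δ * n → ∀ h : W3 → ℝ, (∀ w, 0 ≤ h w ∧ h w ≤ 1) →
    (∑' K : Cln (N + 1), h ((K : W3).take M)) ≤ (Cln (N + 1)).ncard *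
      (Eu n (fun t => (∑ i : Fin 3, h ((rt i (wl (t.take k'))).reverse.take M)) / 3) + ε)

/-- **(D2)** no near return -/
def NRet : Prop := ∀ ε h : ℝ, 0 < ε → 0 < h → ∃ (ρ : ℝ) (n0 : ℕ), 0 < ρ ∧ ∀ n k' M : ℕ, n0 ≤ n → h * n ≤ M → M ≤ k' →
  k' ≤ n → Eu n (fun t => if ∃ j : ℕ, j + M ≤ k' ∧ ‖JJ (vx oo up t j) - JJ (vx oo up t k')‖ ≤ ρ * (n : ℝ) ^ (3 / 4 : ℝ)
    then 1 else 0) ≤ ε

/-- the weight of the block behind the first gate, of a word read backwards from its end, mean over the three rotations -/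
noncomputable def gh (d : ℂ) (r r0 l : ℝ) (B : Set W3) (ψ : W3 → ℝ≥0∞) (u : List Bool) : ℝ :=
  (∑ i : Fin 3, (min 1 (gsum d r r0 l B ψ (rt i (wl u)).reverse)).toReal) / 3

/-- **(D4)** the block can be deleted -/
def Gz : Prop := ∀ t dd : ℝ, 0 < t → 0 < dd → dd ≤ 1 → ∃ (C : ℝ) (n0 : ℕ), 0 < C ∧ ∀ n k k' : ℕ, n0 ≤ n → t * n ≤ k →
  (k : ℝ) ≤ (1 - t) * n → Even k' → k' ≤ k → ∀ (R : ℝ) (d : ℂ) (r r0 l : ℝ) (B : Set W3) (ψ : W3 → ℝ≥0∞), ‖d‖ = 1 →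
    2 * r ≤ r0 → R + r ≤ r0 → R < l → (∀ b ∈ B, Even b.length) → Sb B ψ ≠ ⊤ →
      tipM R dd k k' (gh d r r0 l B ψ) ≤ C * (Sb B ψ).toReal

end Pool.Agent.ROT.F3
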