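import Pool.Agent.ROT.F3Gate
import Pool.Agent.ROT.F3Brd
import Pool.Agent.ROT.F3Dic
import Pool.Agent.ROT.F3T12Lit
import Pool.Agent.ROT.F3S2A
import Pool.Agent.RMP.PubWA

/-!
# ROT / F3GateZ (helper11): the block behind the gate, for the walks with a short tip (row D4 of helper83)

`gh d r r0 l B ψ u` (`F3T12Lit`) = mean over the three rotations of `u` of the weight `ψ` of the block behind the first gate, `u` read backwards.
**`gz`** : the sum over the walks with `m` letters, `m ∈ win dd k`, with a short tip behind the vertex number `k'`, of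
`gh (first k' letters)` is at most `C * Sb B ψ * (mass of all these walks)`.
-/

set_option autoImplicit false

namespace Pool.Agent.ROT.F3

open Finset ComplexConjugate

open Pool.Agent.NTS.Res (step pos saw fug)

open HexObs (oo up vx dx lev lat latE Brd BT Cut wE gf tf cS xc xc_pos)

open HexObs.TOG (wdN mem_wdN)

open HexObs.TIW (sawF)

open Pool.Agent.RMP (win)

open Pool.Agent.RMP.W (rr sum_words rr_mem mem_win)

open NTF (JJ sw)

open scoped ENNReal Classical

lemma dx_take' (t : List Bool) {I i : ℕ} (hi : i ≤ I) : dx up (t.take I) i = dx up t i := by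
  unfold HexObs.dx
  refine HexObs.ds_congr i fun k hk => ?_
  unfold HexObs.tf
  rw [List.getD_eq_getElem?_getD, List.getD_eq_getElem?_getD, List.getElem?_take_of_lt (by omega)]

lemma wl_take {t : List Bool} {k : ℕ} : (wl t).take k = wl (t.take k) := by
  refine List.ext_getElem (by simp) fun i h1 h2 => ?_
  have h3 : i < k := by
    rw [List.length_take, lt_min_iff] at h1
    exact h1.1
  rw [List.getElem_take, wl_get, wl_get, dx_take' t h3.le]

lemma rt_take (i : Fin 3) (w : W3) (k : ℕ) : (rt i w).take k = rt i (w.take k) := by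
  unfold rt
  rw [List.map_take]

lemma rt_wl (i : Fin 3) (t : List Bool) : rt i (wl t) = List.ofFn (rr i (sw t.length t)) := by
  unfold rt wl rr
  rw [List.map_ofFn]
  rfl

/-- the tip condition in terms of the word -/
def TipW (R : ℝ) (k' : ℕ) (w : W3) : Prop := ∀ j : ℕ, j ≤ (w.drop k').length → ‖ps (w.drop k') j‖ ≤ R

lemma tipW_iff {R : ℝ} {k' : ℕ} {t : List Bool} (hk : k' ≤ t.length) (he : Even k') (i : Fin 3) :
    TipW R k' (rt i (wl t)) ↔ TipIn R k' t := by
  have hl : (rt i (wl t)).length = t.length := by rw [rt_length, wl_length]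
  have e : ∀ j : ℕ, j ≤ (t.length - k') → ‖ps ((rt i (wl t)).drop k') j‖ = ‖JJ (vx oo up t (k' + j)) - JJ (vx oo up t k')‖ := by
    intro j hj
    rw [ps_append_drop _ (by rw [hl]; exact hk) he, ps_rt, ps_rt, ← mul_sub, norm_mul, norm_ax, one_mul,
      ps_wl t (by omega), ps_wl t hk]
  unfold TipW TipIn
  rw [List.length_drop, hl]
  constructor
  · intro h j h1 h2
    have h3 := h (j - k') (by omega)
    rw [e _ (by omega), show k' + (j - k') = j by omega] at h3
    exact h3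
  · intro h j h1
    rw [e j h1]
    exact h (k' + j) (by omega) (by omega)

/-- the sum over the words with `m` letters and a short tip -/
lemma gz_m {d : ℂ} {r r0 l R : ℝ} {B : Set W3} {ψ : W3 → ℝ≥0∞} {m k' : ℕ} (hm : 0 < m) (hk : k' ≤ m) (he : Even k') :
    ∑ A ∈ sawF m, (if TipIn R k' A then ∑ i : Fin 3, min 1 (gsum d r r0 l B ψ (rt i (wl (A.take k'))).reverse) else 0) ≤
      2 * ∑' w : SWn m, if TipW R k' w then gsum d r r0 l B ψ ((w : W3).take k').reverse else 0 := by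
  obtain ⟨F, hF⟩ : ∃ F : W3 → ℝ≥0∞, F = fun w => if TipW R k' w then gsum d r r0 l B ψ (w.take k').reverse else 0 := ⟨_, rfl⟩
  have h1 := sum_words hm fun s => F (List.ofFn s)
  rw [sum_saw m F] at h1
  have h2 : (∑' w : SWn m, if TipW R k' w then gsum d r r0 l B ψ ((w : W3).take k').reverse else 0) = ∑' w : SWn m, F w := by
    rw [hF]
  rw [h2, ← h1, HexObs.TIW.EF.sawF_eq, sum_comm]
  refine sum_le_sum fun A hA => ?_
  have hl : A.length = m := (mem_wdN.1 hA).1
  by_cases h : TipIn R k' A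
  · rw [if_pos h]
    refine sum_le_sum fun i _ => ?_
    have e : List.ofFn (rr i (sw m A)) = rt i (wl A) := by
      rw [rt_wl, hl]
    rw [e, hF]
    simp only
    rw [if_pos ((tipW_iff (by omega) he i).2 h), rt_take, wl_take]
    exact min_le_right _ _
  · rw [if_neg h]
    exact bot_le

lemma tsum_fin {ι : Type*} (s : Finset ι) (f : ι → W3 → ℝ≥0∞) : ∑ m ∈ s, ∑' w : W3, f m w = ∑' w : W3, ∑ m ∈ s, f m w :=
  (Summable.tsum_finsetSum fun _ _ => ENNReal.summable).symm

/-- all the lengths of the window -/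
lemma gz_win {d : ℂ} (hd : ‖d‖ = 1) {r r0 l R : ℝ} (hr : 2 * r ≤ r0) (hRr : R + r ≤ r0) (hR : R < l) {B : Set W3}
    (hB : ∀ b ∈ B, Even b.length) {ψ : W3 → ℝ≥0∞} {dd : ℝ} (hdd : 0 ≤ dd) {k k' : ℕ} (hk0 : 0 < k) (hk : k' ≤ k)
    (he : Even k') {Zb : ℝ≥0∞} (hZ : ∀ j : ℕ, j ≤ k' → Zw (k - j) (⌊(1 + dd) * k⌋₊ - j) ≤ Zb) :
    ∑ m ∈ win dd k, ENNReal.ofReal fug ^ m * ∑ A ∈ sawF m, (if TipIn R k' A then
      ∑ i : Fin 3, min 1 (gsum d r r0 l B ψ (rt i (wl (A.take k'))).reverse) else 0) ≤ 2 * (Sb B ψ * Zb) := by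
  obtain ⟨G, hG⟩ : ∃ G : W3 → ℝ≥0∞, G = fun w => if TipW R k' w then gsum d r r0 l B ψ (w.take k').reverse else 0 := ⟨_, rfl⟩
  have h1 : ∀ m ∈ win dd k, ENNReal.ofReal fug ^ m * ∑ A ∈ sawF m, (if TipIn R k' A then
      ∑ i : Fin 3, min 1 (gsum d r r0 l B ψ (rt i (wl (A.take k'))).reverse) else 0) ≤
      2 * ∑' w : W3, if w ∈ SWn m then wx w * G w else 0 := by
    intro m hm
    have hkm := ((mem_win hdd).1 hm).1
    have h2 := gz_m (d := d) (r := r) (r0 := r0) (l := l) (R := R) (B := B) (ψ := ψ) (show 0 < m by omega)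
      (show k' ≤ m by omega) he
    have h3 : (∑' w : SWn m, if TipW R k' w then gsum d r r0 l B ψ ((w : W3).take k').reverse else 0) = ∑' w : SWn m, G w := by
      rw [hG]
    rw [h3, ← tsum_ind] at h2
    have h4 : (∑' w : W3, if w ∈ SWn m then wx w * G w else 0) =
        ENNReal.ofReal fug ^ m * ∑' w : W3, if w ∈ SWn m then G w else 0 := by
      rw [← ENNReal.tsum_mul_left]
      refine tsum_congr fun w => ?_
      by_cases h : w ∈ SWn m
      · rw [if_pos h, if_pos h]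
        unfold wx
        rw [h.2]
      · rw [if_neg h, if_neg h, mul_zero]
    rw [h4]
    calc _ ≤ ENNReal.ofReal fug ^ m * (2 * ∑' w : W3, if w ∈ SWn m then G w else 0) := mul_le_mul_right h2 _
      _ = _ := by ring
  refine (sum_le_sum h1).trans ?_
  rw [← mul_sum, tsum_fin]
  refine mul_le_mul_right (le_trans (ENNReal.tsum_le_tsum fun w => ?_) (del_le hd hr hRr hR hB hk hZ ψ)) _
  by_cases hW : Wm k k' ⌊(1 + dd) * k⌋₊ R w
  · rw [if_pos hW]
    calc ∑ m ∈ win dd k, (if w ∈ SWn m then wx w * G w else 0)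
        ≤ ∑ m ∈ win dd k, (if m = w.length then wx w * G w else 0) := by
          refine sum_le_sum fun m _ => ?_
          by_cases h : w ∈ SWn m
          · rw [if_pos h, if_pos h.2.symm]
          · rw [if_neg h]
            exact bot_le
      _ ≤ wx w * G w := by
          rw [sum_ite_eq' (win dd k) w.length]
          split_ifs
          · exact le_rfl
          · exact bot_le
      _ ≤ _ := by
          refine mul_le_mul_right ?_ _
          rw [hG]
          simp only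
          split_ifs
          · exact le_rfl
          · exact bot_le
  · rw [if_neg hW]
    refine le_of_eq (sum_eq_zero fun m hm => ?_)
    by_cases h : w ∈ SWn m
    · rw [if_pos h]
      have h2 : ¬ TipW R k' w := by
        intro h3
        refine hW ⟨h.1, ?_, ?_, h3⟩
        · rw [h.2]
          exact ((mem_win hdd).1 hm).1
        · rw [h.2]
          unfold win at hm
          rw [mem_filter, mem_range] at hm
          omega
      have h3 : G w = 0 := by
        rw [hG]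
        simp only
        rw [if_neg h2]
      rw [h3, mul_zero]
    · rw [if_neg h]

/-- the mass of all walks with at most `K` letters -/
lemma Zw_le {K a c : ℕ} (hc : c ≤ K) : Zw a c ≤ ∑ m ∈ range (K + 1), ENNReal.ofReal fug ^ m * (saw m).card := by
  have h1 : ∀ m : ℕ, ENNReal.ofReal fug ^ m * (saw m).card = ∑' w : W3, if w ∈ SWn m then wx w else 0 := by
    intro m
    rw [tsum_ind, ← sum_saw m wx]
    have h2 : ∀ s ∈ saw m, wx (List.ofFn s) = ENNReal.ofReal fug ^ m := by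
      intro s _
      unfold wx
      rw [List.length_ofFn]
    rw [sum_congr rfl h2, sum_const, nsmul_eq_mul, mul_comm]
  rw [sum_congr rfl fun m _ => h1 m, tsum_fin]
  refine ENNReal.tsum_le_tsum fun w => ?_
  by_cases h : SW w ∧ a ≤ w.length ∧ w.length ≤ c
  · rw [if_pos h]
    have h3 := single_le_sum (f := fun m => if w ∈ SWn m then wx w else 0) (s := range (K + 1)) (fun _ _ => bot_le)
      (mem_range.2 (show w.length < K + 1 by omega))
    refine le_trans (le_of_eq ?_) h3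
    rw [if_pos (show w ∈ SWn w.length from ⟨h.1, rfl⟩)]
  · rw [if_neg h]
    exact bot_le

lemma card_saw {m : ℕ} (hm : 0 < m) : (2 : ℝ) * (saw m).card = 3 * cS m := by
  have h := Pool.Agent.RMP.W.sum_words_real hm fun _ => (1 : ℝ)
  simp only [sum_const, nsmul_eq_mul, mul_one, card_univ, Fintype.card_fin] at h
  rw [← h, ← HexObs.TIW.EF.sawF_eq, S2.card_sawF]
  push_cast
  ring

/-- the mass of all walks with at most `3 k` letters -/
lemma Zw_bd : ∃ C : ℝ, 0 < C ∧ ∀ k K a c : ℕ, 1 ≤ k → K ≤ 2 * k → c ≤ K →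
    Zw a c ≤ ENNReal.ofReal (C * (k * (k : ℝ) ^ (11 / 32 : ℝ))) := by
  obtain ⟨c0, C0, hc0, hC0, hb⟩ := S2.cS_bd
  refine ⟨3 * (3 / 2 * C0 * 2 + 1), by positivity, fun k K a c hk hK hc => (Zw_le hc).trans ?_⟩
  have hk0 : (1 : ℝ) ≤ k := by exact_mod_cast hk
  have hx := xc_pos
  have hkp : (1 : ℝ) ≤ (k : ℝ) ^ (11 / 32 : ℝ) := Real.one_le_rpow hk0 (by norm_num)
  have h1 : ∀ m ∈ range (K + 1), ENNReal.ofReal fug ^ m * ((saw m).card : ℝ≥0∞) ≤
      ENNReal.ofReal ((3 / 2 * C0 * 2 + 1) * (k : ℝ) ^ (11 / 32 : ℝ)) := by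
    intro m hm
    rw [mem_range] at hm
    rw [fug_xc, ← ENNReal.ofReal_pow hx.le, ← ENNReal.ofReal_natCast, ← ENNReal.ofReal_mul (by positivity)]
    refine ENNReal.ofReal_le_ofReal ?_
    rcases Nat.eq_zero_or_pos m with h0 | h0
    · subst h0
      have h2 : (saw 0).card ≤ 1 := card_le_one_of_subsingleton _
      have h3 : ((saw 0).card : ℝ) ≤ 1 := by exact_mod_cast h2
      rw [pow_zero, one_mul]
      nlinarith [mul_nonneg hC0.le (zero_le_one.trans hkp)]
    · have h2 := card_saw h0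
      have h3 := (hb m h0).2
      have h4 : (m : ℝ) ^ (11 / 32 : ℝ) ≤ 2 * (k : ℝ) ^ (11 / 32 : ℝ) := by
        have h5 : (m : ℝ) ≤ 2 * k := by
          have : m ≤ 2 * k := by omega
          exact_mod_cast this
        calc (m : ℝ) ^ (11 / 32 : ℝ) ≤ (2 * k : ℝ) ^ (11 / 32 : ℝ) := Real.rpow_le_rpow (by positivity) h5 (by norm_num)
          _ = (2 : ℝ) ^ (11 / 32 : ℝ) * (k : ℝ) ^ (11 / 32 : ℝ) := Real.mul_rpow (by norm_num) (by positivity)
          _ ≤ 2 * (k : ℝ) ^ (11 / 32 : ℝ) := by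
              refine mul_le_mul_of_nonneg_right ?_ (by positivity)
              calc (2 : ℝ) ^ (11 / 32 : ℝ) ≤ (2 : ℝ) ^ (1 : ℝ) := Real.rpow_le_rpow_of_exponent_le (by norm_num) (by norm_num)
                _ = 2 := Real.rpow_one 2
      have h6 : xc ^ m * ((saw m).card : ℝ) = 3 / 2 * ((cS m : ℝ) * xc ^ m) := by
        rw [show ((saw m).card : ℝ) = 3 / 2 * cS m by linarith]
        ring
      rw [h6]
      nlinarith [mul_le_mul_of_nonneg_left h4 hC0.le]
  refine (sum_le_sum h1).trans ?_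
  rw [sum_const, card_range, nsmul_eq_mul, ← ENNReal.ofReal_natCast, ← ENNReal.ofReal_mul (by positivity)]
  refine ENNReal.ofReal_le_ofReal ?_
  have h2 : ((K + 1 : ℕ) : ℝ) ≤ 3 * k := by
    have : K + 1 ≤ 3 * k := by omega
    exact_mod_cast this
  have h3 : 0 ≤ (3 / 2 * C0 * 2 + 1) * (k : ℝ) ^ (11 / 32 : ℝ) := by positivity
  calc ((K + 1 : ℕ) : ℝ) * ((3 / 2 * C0 * 2 + 1) * (k : ℝ) ^ (11 / 32 : ℝ)) ≤
      3 * k * ((3 / 2 * C0 * 2 + 1) * (k : ℝ) ^ (11 / 32 : ℝ)) := mul_le_mul_of_nonneg_right h2 h3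
    _ = _ := by ring

/-- the mass of the window from below -/
lemma win_low : ∃ c : ℝ, 0 < c ∧ ∀ (dd : ℝ) (k : ℕ), 0 < dd → 1 ≤ k →
    c * dd * (k * (k : ℝ) ^ (11 / 32 : ℝ)) ≤ ∑ m ∈ win dd k, xc ^ m * cS m := by
  obtain ⟨c0, C0, hc0, hC0, hb⟩ := S2.cS_bd
  refine ⟨c0, hc0, fun dd k hdd hk => ?_⟩
  have hk0 : (1 : ℝ) ≤ k := by exact_mod_cast hk
  have h1 : ∀ m ∈ win dd k, c0 * (k : ℝ) ^ (11 / 32 : ℝ) ≤ xc ^ m * cS m := by
    intro m hm
    have hkm := ((mem_win hdd.le).1 hm).1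
    rw [mul_comm (xc ^ m)]
    refine le_trans (mul_le_mul_of_nonneg_left ?_ hc0.le) (hb m (by omega)).1
    exact Real.rpow_le_rpow (by positivity) (by exact_mod_cast hkm) (by norm_num)
  have h2 := sum_le_sum h1
  rw [sum_const, nsmul_eq_mul] at h2
  refine le_trans ?_ h2
  have h3 : dd * k ≤ ((win dd k).card : ℝ) := by
    have h4 : Ico k (⌊(1 + dd) * k⌋₊ + 1) ⊆ win dd k := by
      intro m hm
      rw [mem_Ico] at hm
      unfold win
      rw [mem_filter, mem_range]
      exact ⟨hm.2, hm.1⟩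
    have h5 := card_le_card h4
    rw [Nat.card_Ico] at h5
    have h6 := Nat.lt_floor_add_one ((1 + dd) * (k : ℝ))
    have h7 : ((⌊(1 + dd) * k⌋₊ + 1 : ℕ) : ℝ) ≤ (win dd k).card + k := by
      have : ⌊(1 + dd) * k⌋₊ + 1 ≤ (win dd k).card + k := by omega
      exact_mod_cast this
    push_cast at h7
    linarith
  have h8 : 0 ≤ c0 * (k : ℝ) ^ (11 / 32 : ℝ) := by positivity
  calc c0 * dd * (k * (k : ℝ) ^ (11 / 32 : ℝ)) = dd * k * (c0 * (k : ℝ) ^ (11 / 32 : ℝ)) := by ring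
    _ ≤ _ := mul_le_mul_of_nonneg_right h3 h8

/-- **the block can be deleted (row D4)** -/
theorem gz : Gz := by
  intro t dd ht hdd hdd1
  obtain ⟨C1, hC1, hZ⟩ := Zw_bd
  obtain ⟨c1, hc1, hL⟩ := win_low
  refine ⟨2 / 3 * C1 / (c1 * dd), 1, by positivity, fun n k k' hn hk1 hk2 he hkk R d r r0 l B ψ hd hr hRr hR hB hS => ?_⟩
  have hx := xc_pos
  have hn0 : (0 : ℝ) < n := by exact_mod_cast hn
  have hk : 1 ≤ k := by
    have : (0 : ℝ) < k := lt_of_lt_of_le (by positivity) hk1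
    exact_mod_cast this
  have hk0 : (1 : ℝ) ≤ k := by exact_mod_cast hk
  obtain ⟨X, hX⟩ : ∃ X : ℝ, X = C1 * (k * (k : ℝ) ^ (11 / 32 : ℝ)) := ⟨_, rfl⟩
  have hX0 : 0 ≤ X := by rw [hX]; positivity
  have hK : ⌊(1 + dd) * (k : ℝ)⌋₊ ≤ 2 * k := by
    have h1 : (1 + dd) * (k : ℝ) ≤ ((2 * k : ℕ) : ℝ) := by
      push_cast
      nlinarith
    exact (Nat.floor_le_floor h1).trans (le_of_eq (Nat.floor_natCast _))
  have key := gz_win hd hr hRr hR hB (ψ := ψ) hdd.le (k := k) (k' := k') (by omega) hkk he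
    (Zb := ENNReal.ofReal X) fun j _ => by
      rw [hX]
      exact hZ k _ _ _ hk hK (Nat.sub_le _ _)
  -- the left side as a real number
  obtain ⟨Y, hY⟩ : ∃ Y : ℝ, Y = ∑ m ∈ win dd k, xc ^ m * ∑ A ∈ sawF m, if TipIn R k' A then gh d r r0 l B ψ (A.take k')
    else 0 := ⟨_, rfl⟩
  have hg : ∀ (i : Fin 3) (A : List Bool), min 1 (gsum d r r0 l B ψ (rt i (wl A)).reverse) ≠ ⊤ := fun i A =>
    ne_top_of_le_ne_top ENNReal.one_ne_top (min_le_left _ _)
  have e1 : ∀ A : List Bool, (if TipIn R k' A then ∑ i : Fin 3, min 1 (gsum d r r0 l B ψ (rt i (wl (A.take k'))).reverse)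
      else 0) = ENNReal.ofReal (3 * if TipIn R k' A then gh d r r0 l B ψ (A.take k') else 0) := by
    intro A
    by_cases h : TipIn R k' A
    · rw [if_pos h, if_pos h]
      unfold gh
      rw [mul_div_cancel₀ _ (by norm_num : (3 : ℝ) ≠ 0), ENNReal.ofReal_sum_of_nonneg fun _ _ => ENNReal.toReal_nonneg]
      exact sum_congr rfl fun i _ => (ENNReal.ofReal_toReal (hg i _)).symm
    · rw [if_neg h, if_neg h, mul_zero, ENNReal.ofReal_zero]
  have hgh : ∀ u : List Bool, 0 ≤ gh d r r0 l B ψ u := fun u => by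
    unfold gh
    exact div_nonneg (sum_nonneg fun _ _ => ENNReal.toReal_nonneg) (by norm_num)
  have hi : ∀ A : List Bool, 0 ≤ (if TipIn R k' A then gh d r r0 l B ψ (A.take k') else 0) := fun A => by
    split_ifs
    · exact hgh _
    · exact le_rfl
  have e2 : (∑ m ∈ win dd k, ENNReal.ofReal fug ^ m * ∑ A ∈ sawF m, (if TipIn R k' A then
      ∑ i : Fin 3, min 1 (gsum d r r0 l B ψ (rt i (wl (A.take k'))).reverse) else 0)) = ENNReal.ofReal (3 * Y) := by
    rw [hY, mul_sum, ENNReal.ofReal_sum_of_nonneg fun m _ =>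
      mul_nonneg (by norm_num) (mul_nonneg (by positivity) (sum_nonneg fun A _ => hi A))]
    refine sum_congr rfl fun m _ => ?_
    rw [fug_xc, sum_congr rfl fun A _ => e1 A, ← ENNReal.ofReal_sum_of_nonneg fun A _ => mul_nonneg (by norm_num) (hi A),
      ← ENNReal.ofReal_pow hx.le, ← ENNReal.ofReal_mul (by positivity), ← mul_sum]
    congr 1
    ring
  rw [e2] at key
  have h3 : 3 * Y ≤ 2 * ((Sb B ψ).toReal * X) := by
    have h4 : 2 * (Sb B ψ * ENNReal.ofReal X) = ENNReal.ofReal (2 * ((Sb B ψ).toReal * X)) := by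
      rw [ENNReal.ofReal_mul (by norm_num), ENNReal.ofReal_mul ENNReal.toReal_nonneg, ENNReal.ofReal_toReal hS]
      norm_num
    rw [h4] at key
    exact (ENNReal.ofReal_le_ofReal_iff (by positivity)).1 key
  have h5 := hL dd k hdd hk
  obtain ⟨Z, hZZ⟩ : ∃ Z : ℝ, Z = ∑ m ∈ win dd k, xc ^ m * (cS m : ℝ) := ⟨_, rfl⟩
  have hq : 0 < (k : ℝ) * (k : ℝ) ^ (11 / 32 : ℝ) := by positivity
  rw [← hZZ] at h5
  have hZ0 : 0 < Z := lt_of_lt_of_le (by positivity) h5
  unfold tipM
  rw [← hY, ← hZZ, div_le_iff₀ hZ0]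
  have h6 : Y ≤ 2 / 3 * ((Sb B ψ).toReal * X) := by linarith
  refine h6.trans ?_
  have h7 : 0 ≤ 2 / 3 * C1 / (c1 * dd) * (Sb B ψ).toReal := by positivity
  calc 2 / 3 * ((Sb B ψ).toReal * X) = 2 / 3 * C1 / (c1 * dd) * (Sb B ψ).toReal * (c1 * dd * (k * (k : ℝ) ^ (11 / 32 : ℝ))) := by
        rw [hX]
        field_simp
    _ ≤ _ := mul_le_mul_of_nonneg_left h5 h7

end Pool.Agent.ROT.F3
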