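import Pool.Agent.ROT.F3P12Lit
import Pool.Agent.ROT.F3GateZ

/-!
# ROT / F3GateZP (helper83, after helper11's F3GateZ): the block behind a start piece of any class, walks with a short tip

**`gzP : GzP`**.
-/

set_option autoImplicit false

namespace Pool.Agent.ROT.F3

open Finset ComplexConjugate

open Pool.Agent.NTS.Res (step pos saw fug)

open HexObs (oo up vx dx lev lat latE Brd BT Cut wE gf tf cS xc xc_pos)

open HexObs.TOG (wdN mem_wdN)

open HexObs.TIW (sawF)

open Pool.Agent.RMP (win)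

open Pool.Agent.RMP.W (rr sum_words rr_mem mem_win)

open NTF (JJ sw)

open scoped ENNReal Classical

/-- the sum over the words with `m` letters and a short tip -/
lemma gz_mP {d : ℂ} {r0 R : ℝ} {P B : Set W3} {ψ : W3 → ℝ≥0∞} {m k' : ℕ} (hm : 0 < m) (hk : k' ≤ m) (he : Even k') :
    ∑ A ∈ sawF m, (if TipIn R k' A then ∑ i : Fin 3, min 1 (gsP d r0 P B ψ (rt i (wl (A.take k'))).reverse) else 0) ≤
      2 * ∑' w : SWn m, if TipW R k' w then gsP d r0 P B ψ ((w : W3).take k').reverse else 0 := by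
  obtain ⟨F, hF⟩ : ∃ F : W3 → ℝ≥0∞, F = fun w => if TipW R k' w then gsP d r0 P B ψ (w.take k').reverse else 0 := ⟨_, rfl⟩
  have h1 := sum_words hm fun s => F (List.ofFn s)
  rw [sum_saw m F] at h1
  have h2 : (∑' w : SWn m, if TipW R k' w then gsP d r0 P B ψ ((w : W3).take k').reverse else 0) = ∑' w : SWn m, F w := by
    rw [hF]
  rw [h2, ← h1, HexObs.TIW.EF.sawF_eq, sum_comm]
  refine sum_le_sum fun A hA => ?_
  have hl : A.length = m := (mem_wdN.1 hA).1
  by_cases h : TipIn R k' A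
  · rw [if_pos h]
    refine sum_le_sum fun i _ => ?_
    have e : List.ofFn (rr i (sw m A)) = rt i (wl A) := by
      rw [rt_wl, hl]
    rw [e, hF]
    simp only
    rw [if_pos ((tipW_iff (by omega) he i).2 h), rt_take, wl_take]
    exact min_le_right _ _
  · rw [if_neg h]
    exact bot_le

/-- all the lengths of the window -/
lemma gz_winP {d : ℂ} (hd : ‖d‖ = 1) {r r0 l R : ℝ} {P : Set W3} (hP : StC d r r0 l P) (hr : 2 * r ≤ r0) (hRr : R + r ≤ r0) (hR : R < l) {B : Set W3}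
    (hB : ∀ b ∈ B, Even b.length) {ψ : W3 → ℝ≥0∞} {dd : ℝ} (hdd : 0 ≤ dd) {k k' : ℕ} (hk0 : 0 < k) (hk : k' ≤ k)
    (he : Even k') {Zb : ℝ≥0∞} (hZ : ∀ j : ℕ, j ≤ k' → Zw (k - j) (⌊(1 + dd) * k⌋₊ - j) ≤ Zb) :
    ∑ m ∈ win dd k, ENNReal.ofReal fug ^ m * ∑ A ∈ sawF m, (if TipIn R k' A then
      ∑ i : Fin 3, min 1 (gsP d r0 P B ψ (rt i (wl (A.take k'))).reverse) else 0) ≤ 2 * (Sb B ψ * Zb) := by
  obtain ⟨G, hG⟩ : ∃ G : W3 → ℝ≥0∞, G = fun w => if TipW R k' w then gsP d r0 P B ψ (w.take k').reverse else 0 := ⟨_, rfl⟩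
  have h1 : ∀ m ∈ win dd k, ENNReal.ofReal fug ^ m * ∑ A ∈ sawF m, (if TipIn R k' A then
      ∑ i : Fin 3, min 1 (gsP d r0 P B ψ (rt i (wl (A.take k'))).reverse) else 0) ≤
      2 * ∑' w : W3, if w ∈ SWn m then wx w * G w else 0 := by
    intro m hm
    have hkm := ((mem_win hdd).1 hm).1
    have h2 := gz_mP (d := d) (r0 := r0) (R := R) (P := P) (B := B) (ψ := ψ) (show 0 < m by omega)
      (show k' ≤ m by omega) he
    have h3 : (∑' w : SWn m, if TipW R k' w then gsP d r0 P B ψ ((w : W3).take k').reverse else 0) = ∑' w : SWn m, G w := by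
      rw [hG]
    rw [h3, ← tsum_ind] at h2
    have h4 : (∑' w : W3, if w ∈ SWn m then wx w * G w else 0) =
        ENNReal.ofReal fug ^ m * ∑' w : W3, if w ∈ SWn m then G w else 0 := by
      rw [← ENNReal.tsum_mul_left]
      refine tsum_congr fun w => ?_
      by_cases h : w ∈ SWn m
      · rw [if_pos h, if_pos h]
        unfold wx
        rw [h.2]
      · rw [if_neg h, if_neg h, mul_zero]
    rw [h4]
    calc _ ≤ ENNReal.ofReal fug ^ m * (2 * ∑' w : W3, if w ∈ SWn m then G w else 0) := mul_le_mul_right h2 _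
      _ = _ := by ring
  refine (sum_le_sum h1).trans ?_
  rw [← mul_sum, tsum_fin]
  refine mul_le_mul_right (le_trans (ENNReal.tsum_le_tsum fun w => ?_) (del_leP hd hP hr hRr hR hB hk hZ ψ)) _
  by_cases hW : Wm k k' ⌊(1 + dd) * k⌋₊ R w
  · rw [if_pos hW]
    calc ∑ m ∈ win dd k, (if w ∈ SWn m then wx w * G w else 0)
        ≤ ∑ m ∈ win dd k, (if m = w.length then wx w * G w else 0) := by
          refine sum_le_sum fun m _ => ?_
          by_cases h : w ∈ SWn m
          · rw [if_pos h, if_pos h.2.symm]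
          · rw [if_neg h]
            exact bot_le
      _ ≤ wx w * G w := by
          rw [sum_ite_eq' (win dd k) w.length]
          split_ifs
          · exact le_rfl
          · exact bot_le
      _ ≤ _ := by
          refine mul_le_mul_right ?_ _
          rw [hG]
          simp only
          split_ifs
          · exact le_rfl
          · exact bot_le
  · rw [if_neg hW]
    refine le_of_eq (sum_eq_zero fun m hm => ?_)
    by_cases h : w ∈ SWn m
    · rw [if_pos h]
      have h2 : ¬ TipW R k' w := by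
        intro h3
        refine hW ⟨h.1, ?_, ?_, h3⟩
        · rw [h.2]
          exact ((mem_win hdd).1 hm).1
        · rw [h.2]
          unfold win at hm
          rw [mem_filter, mem_range] at hm
          omega
      have h3 : G w = 0 := by
        rw [hG]
        simp only
        rw [if_neg h2]
      rw [h3, mul_zero]
    · rw [if_neg h]

/-- **the block can be deleted (row D4)** -/
theorem gzP : GzP := by
  intro t dd ht hdd hdd1
  obtain ⟨C1, hC1, hZ⟩ := Zw_bd
  obtain ⟨c1, hc1, hL⟩ := win_low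
  refine ⟨2 / 3 * C1 / (c1 * dd), 1, by positivity, fun n k k' hn hk1 hk2 he hkk R d r r0 l P B ψ hd hP hr hRr hR hB hS => ?_⟩
  have hx := xc_pos
  have hn0 : (0 : ℝ) < n := by exact_mod_cast hn
  have hk : 1 ≤ k := by
    have : (0 : ℝ) < k := lt_of_lt_of_le (by positivity) hk1
    exact_mod_cast this
  have hk0 : (1 : ℝ) ≤ k := by exact_mod_cast hk
  obtain ⟨X, hX⟩ : ∃ X : ℝ, X = C1 * (k * (k : ℝ) ^ (11 / 32 : ℝ)) := ⟨_, rfl⟩
  have hX0 : 0 ≤ X := by rw [hX]; positivity
  have hK : ⌊(1 + dd) * (k : ℝ)⌋₊ ≤ 2 * k := by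
    have h1 : (1 + dd) * (k : ℝ) ≤ ((2 * k : ℕ) : ℝ) := by
      push_cast
      nlinarith
    exact (Nat.floor_le_floor h1).trans (le_of_eq (Nat.floor_natCast _))
  have key := gz_winP hd hP hr hRr hR hB (ψ := ψ) hdd.le (k := k) (k' := k') (by omega) hkk he
    (Zb := ENNReal.ofReal X) fun j _ => by
      rw [hX]
      exact hZ k _ _ _ hk hK (Nat.sub_le _ _)
  -- the left side as a real number
  obtain ⟨Y, hY⟩ : ∃ Y : ℝ, Y = ∑ m ∈ win dd k, xc ^ m * ∑ A ∈ sawF m, if TipIn R k' A then ghP d r0 P B ψ (A.take k')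
    else 0 := ⟨_, rfl⟩
  have hg : ∀ (i : Fin 3) (A : List Bool), min 1 (gsP d r0 P B ψ (rt i (wl A)).reverse) ≠ ⊤ := fun i A =>
    ne_top_of_le_ne_top ENNReal.one_ne_top (min_le_left _ _)
  have e1 : ∀ A : List Bool, (if TipIn R k' A then ∑ i : Fin 3, min 1 (gsP d r0 P B ψ (rt i (wl (A.take k'))).reverse)
      else 0) = ENNReal.ofReal (3 * if TipIn R k' A then ghP d r0 P B ψ (A.take k') else 0) := by
    intro A
    by_cases h : TipIn R k' A
    · rw [if_pos h, if_pos h]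
      unfold ghP
      rw [mul_div_cancel₀ _ (by norm_num : (3 : ℝ) ≠ 0), ENNReal.ofReal_sum_of_nonneg fun _ _ => ENNReal.toReal_nonneg]
      exact sum_congr rfl fun i _ => (ENNReal.ofReal_toReal (hg i _)).symm
    · rw [if_neg h, if_neg h, mul_zero, ENNReal.ofReal_zero]
  have hgh : ∀ u : List Bool, 0 ≤ ghP d r0 P B ψ u := fun u => by
    unfold ghP
    exact div_nonneg (sum_nonneg fun _ _ => ENNReal.toReal_nonneg) (by norm_num)
  have hi : ∀ A : List Bool, 0 ≤ (if TipIn R k' A then ghP d r0 P B ψ (A.take k') else 0) := fun A => by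
    split_ifs
    · exact hgh _
    · exact le_rfl
  have e2 : (∑ m ∈ win dd k, ENNReal.ofReal fug ^ m * ∑ A ∈ sawF m, (if TipIn R k' A then
      ∑ i : Fin 3, min 1 (gsP d r0 P B ψ (rt i (wl (A.take k'))).reverse) else 0)) = ENNReal.ofReal (3 * Y) := by
    rw [hY, mul_sum, ENNReal.ofReal_sum_of_nonneg fun m _ =>
      mul_nonneg (by norm_num) (mul_nonneg (by positivity) (sum_nonneg fun A _ => hi A))]
    refine sum_congr rfl fun m _ => ?_
    rw [fug_xc, sum_congr rfl fun A _ => e1 A, ← ENNReal.ofReal_sum_of_nonneg fun A _ => mul_nonneg (by norm_num) (hi A),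
      ← ENNReal.ofReal_pow hx.le, ← ENNReal.ofReal_mul (by positivity), ← mul_sum]
    congr 1
    ring
  rw [e2] at key
  have h3 : 3 * Y ≤ 2 * ((Sb B ψ).toReal * X) := by
    have h4 : 2 * (Sb B ψ * ENNReal.ofReal X) = ENNReal.ofReal (2 * ((Sb B ψ).toReal * X)) := by
      rw [ENNReal.ofReal_mul (by norm_num), ENNReal.ofReal_mul ENNReal.toReal_nonneg, ENNReal.ofReal_toReal hS]
      norm_num
    rw [h4] at key
    exact (ENNReal.ofReal_le_ofReal_iff (by positivity)).1 key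
  have h5 := hL dd k hdd hk
  obtain ⟨Z, hZZ⟩ : ∃ Z : ℝ, Z = ∑ m ∈ win dd k, xc ^ m * (cS m : ℝ) := ⟨_, rfl⟩
  have hq : 0 < (k : ℝ) * (k : ℝ) ^ (11 / 32 : ℝ) := by positivity
  rw [← hZZ] at h5
  have hZ0 : 0 < Z := lt_of_lt_of_le (by positivity) h5
  unfold tipM
  rw [← hY, ← hZZ, div_le_iff₀ hZ0]
  have h6 : Y ≤ 2 / 3 * ((Sb B ψ).toReal * X) := by linarith
  refine h6.trans ?_
  have h7 : 0 ≤ 2 / 3 * C1 / (c1 * dd) * (Sb B ψ).toReal := by positivity
  calc 2 / 3 * ((Sb B ψ).toReal * X) = 2 / 3 * C1 / (c1 * dd) * (Sb B ψ).toReal * (c1 * dd * (k * (k : ℝ) ^ (11 / 32 : ℝ))) := by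
        rw [hX]
        field_simp
    _ ≤ _ := mul_le_mul_of_nonneg_left h5 h7

end Pool.Agent.ROT.F3
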