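import Pool.Agent.ROT.F3GenW22
import Pool.Agent.ROT.F3GenP

/-!
# ROT / F3GenB (helper22): the box of the data in the coordinates of F3GenP

* `loN`, `hiN`, `loF`, `hiF` : windows of the coordinates of a gate; `loE`, `hiE` : of one end; `bx22` : the box of `Prm`,
  the window of `W.t0` is `(0, k]`;
* **`bx22_w`** : in the box `P.Ok`, both ends are near the base data, and the windows are wide.
-/

set_option autoImplicit false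

namespace Pool.Agent.ROT.F3.Gn

open Pool.Agent.ROT.F3

/-- left ends of the windows, native gate -/
noncomputable def loN (ρ τ : ℝ) : Tf → ℝ
  | .l => 1/2 * ρ
  | .r => 1 * ρ
  | .m => 81/10 * ρ
  | .th => 3/4
  | .r2 => 41/2 * ρ
  | .κ1 => 1/25 * ρ
  | .rg => 1400 * ρ
  | .r0 => 1415 * ρ
  | .κ => 1/10 * ρ
  | .c => 16/25
  | .cs => 3/5
  | .e => 3/20 * ρ
  | .w => 2/5 * ρ
  | .κs => -37/100 * ρ
  | .la => 1 * τ
  | .lb => 1 * τ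

/-- right ends of the windows, native gate -/
noncomputable def hiN (ρ τ : ℝ) : Tf → ℝ
  | .l => 101/200 * ρ
  | .r => 101/100 * ρ
  | .m => 8181/1000 * ρ
  | .th => 303/400
  | .r2 => 4141/200 * ρ
  | .κ1 => 101/2500 * ρ
  | .rg => 1414 * ρ
  | .r0 => 28583/20 * ρ
  | .κ => 101/1000 * ρ
  | .c => 404/625
  | .cs => 303/500
  | .e => 303/2000 * ρ
  | .w => 8003/20000 * ρ
  | .κs => -7397/20000 * ρ
  | .la => 101/100 * τ
  | .lb => 101/100 * τ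

/-- left ends of the windows, rotated gate -/
noncomputable def loF (ρ τ : ℝ) : Tf → ℝ
  | .l => 60 * ρ
  | .r => 105 * ρ
  | .m => 11400 * ρ
  | .th => 3/4
  | .r2 => 28500 * ρ
  | .κ1 => 1 * ρ
  | .rg => 1900000 * ρ
  | .r0 => 1950000 * ρ
  | .κ => 9/100 * ρ
  | .c => 7/10
  | .cs => 11/20
  | .e => 6/5 * ρ
  | .w => 40 * ρ
  | .κs => -39 * ρ
  | .la => 4 * τ
  | .lb => 2 * τ

/-- right ends of the windows, rotated gate -/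
noncomputable def hiF (ρ τ : ℝ) : Tf → ℝ
  | .l => 303/5 * ρ
  | .r => 2121/20 * ρ
  | .m => 11514 * ρ
  | .th => 303/400
  | .r2 => 28785 * ρ
  | .κ1 => 101/100 * ρ
  | .rg => 1919000 * ρ
  | .r0 => 1969500 * ρ
  | .κ => 909/10000 * ρ
  | .c => 707/1000
  | .cs => 1111/2000
  | .e => 303/250 * ρ
  | .w => 8001/200 * ρ
  | .κs => -7799/200 * ρ
  | .la => 101/25 * τ
  | .lb => 101/50 * τ

/-- left ends of the windows of one end -/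
noncomputable def loE (ρ τ : ℝ) : Ef → ℝ
  | .n t => loN ρ τ t
  | .f t => loF ρ τ t
  | .rk => 80 * ρ
  | .κk => 1/20 * ρ
  | .ek => 1/10 * ρ
  | .lk => 1 * τ
  | .kr => 1/100 * ρ
  | .kc => 101/40000 * ρ
  | .se => 1/20 * ρ
  | .shw => 1000 * ρ
  | .slen => 60000000 * ρ
  | .sbn => 8008000 * ρ

/-- right ends of the windows of one end -/
noncomputable def hiE (ρ τ : ℝ) : Ef → ℝ
  | .n t => hiN ρ τ t
  | .f t => hiF ρ τ t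
  | .rk => 404/5 * ρ
  | .κk => 101/2000 * ρ
  | .ek => 101/1000 * ρ
  | .lk => 101/100 * τ
  | .kr => 101/10000 * ρ
  | .kc => 1/200 * ρ
  | .se => 101/2000 * ρ
  | .shw => 1001 * ρ
  | .slen => 60060000 * ρ
  | .sbn => 8016000 * ρ

/-- left ends of the windows -/
noncomputable def loP (ρ τ k K : ℝ) : Fd → ℝ
  | .p e => loE ρ τ e
  | .q e => loE ρ τ e
  | .D0 => k / 2
  | .D1 => K
  | .t0 => 0
  | .t1 => K
  | .cD0 => k / 4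
  | .cD1 => 3 * K
  | .ct1 => K

/-- right ends of the windows -/
noncomputable def hiP (ρ τ k K : ℝ) : Fd → ℝ
  | .p e => hiE ρ τ e
  | .q e => hiE ρ τ e
  | .D0 => k
  | .D1 => 2 * K
  | .t0 => k
  | .t1 => 2 * K
  | .cD0 => k / 3
  | .cD1 => 4 * K
  | .ct1 => 2 * K

lemma ltN {ρ τ : ℝ} (hρ : 0 < ρ) (hτ : 0 < τ) (t : Tf) : loN ρ τ t < hiN ρ τ t := by
  cases t <;> simp only [loN, hiN] <;> linarith

lemma ltF {ρ τ : ℝ} (hρ : 0 < ρ) (hτ : 0 < τ) (t : Tf) : loF ρ τ t < hiF ρ τ t := by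
  cases t <;> simp only [loF, hiF] <;> linarith

lemma ltE {ρ τ : ℝ} (hρ : 0 < ρ) (hτ : 0 < τ) (e : Ef) : loE ρ τ e < hiE ρ τ e := by
  cases e
  case n t => exact ltN hρ hτ t
  case f t => exact ltF hρ hτ t
  all_goals
    simp only [loE, hiE]
    linarith

/-- **the box** -/
noncomputable def bx22 {ρ τ k K : ℝ} (hρ : 0 < ρ) (hτ : 0 < τ) (hk : 0 < k) (hK : k < K) : Bx where
  lo := loP ρ τ k K
  hi := hiP ρ τ k K
  z0 := rfl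
  T := fun _ => 1
  T0 := fun _ => one_pos
  lt := fun f => by
    cases f
    case p e => exact ltE hρ hτ e
    case q e => exact ltE hρ hτ e
    all_goals
      simp only [loP, hiP]
      linarith

/-- the gate is near the base data -/
theorem nrN {P : Tp} {ρ τ : ℝ} (hρ : 0 < ρ) (h : ∀ t : Tf, loN ρ τ t ≤ t.get P ∧ t.get P ≤ hiN ρ τ t) : P.Nr (bN ρ τ) := by
  have l1 : 1/2 * ρ ≤ P.l := (h .l).1
  have l2 : P.l ≤ 101/200 * ρ := (h .l).2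
  have r1 : 1 * ρ ≤ P.r := (h .r).1
  have r2 : P.r ≤ 101/100 * ρ := (h .r).2
  have m1 : 81/10 * ρ ≤ P.m := (h .m).1
  have m2 : P.m ≤ 8181/1000 * ρ := (h .m).2
  have th1 : 3/4 ≤ P.th := (h .th).1
  have th2 : P.th ≤ 303/400 := (h .th).2
  have r21 : 41/2 * ρ ≤ P.r2 := (h .r2).1
  have r22 : P.r2 ≤ 4141/200 * ρ := (h .r2).2
  have κ11 : 1/25 * ρ ≤ P.κ1 := (h .κ1).1
  have κ12 : P.κ1 ≤ 101/2500 * ρ := (h .κ1).2
  have rg1 : 1400 * ρ ≤ P.rg := (h .rg).1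
  have rg2 : P.rg ≤ 1414 * ρ := (h .rg).2
  have r01 : 1415 * ρ ≤ P.r0 := (h .r0).1
  have r02 : P.r0 ≤ 28583/20 * ρ := (h .r0).2
  have κ1 : 1/10 * ρ ≤ P.κ := (h .κ).1
  have κ2 : P.κ ≤ 101/1000 * ρ := (h .κ).2
  have c1 : 16/25 ≤ P.c := (h .c).1
  have c2 : P.c ≤ 404/625 := (h .c).2
  have cs1 : 3/5 ≤ P.cs := (h .cs).1
  have cs2 : P.cs ≤ 303/500 := (h .cs).2
  have e1 : 3/20 * ρ ≤ P.e := (h .e).1
  have e2 : P.e ≤ 303/2000 * ρ := (h .e).2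
  have w1 : 2/5 * ρ ≤ P.w := (h .w).1
  have w2 : P.w ≤ 8003/20000 * ρ := (h .w).2
  have κs1 : -37/100 * ρ ≤ P.κs - P.w := (h .κs).1
  have κs2 : P.κs - P.w ≤ -7397/20000 * ρ := (h .κs).2
  have la1 : 1 * τ ≤ P.la := (h .la).1
  have la2 : P.la ≤ 101/100 * τ := (h .la).2
  have lb1 : 1 * τ ≤ P.lb := (h .lb).1
  have lb2 : P.lb ≤ 101/100 * τ := (h .lb).2
  constructor <;> constructor <;> simp only [bN] <;> linarith

/-- the gate is near the base data -/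
theorem nrF {P : Tp} {ρ τ : ℝ} (hρ : 0 < ρ) (h : ∀ t : Tf, loF ρ τ t ≤ t.get P ∧ t.get P ≤ hiF ρ τ t) : P.Nr (bF ρ τ) := by
  have l1 : 60 * ρ ≤ P.l := (h .l).1
  have l2 : P.l ≤ 303/5 * ρ := (h .l).2
  have r1 : 105 * ρ ≤ P.r := (h .r).1
  have r2 : P.r ≤ 2121/20 * ρ := (h .r).2
  have m1 : 11400 * ρ ≤ P.m := (h .m).1
  have m2 : P.m ≤ 11514 * ρ := (h .m).2
  have th1 : 3/4 ≤ P.th := (h .th).1
  have th2 : P.th ≤ 303/400 := (h .th).2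
  have r21 : 28500 * ρ ≤ P.r2 := (h .r2).1
  have r22 : P.r2 ≤ 28785 * ρ := (h .r2).2
  have κ11 : 1 * ρ ≤ P.κ1 := (h .κ1).1
  have κ12 : P.κ1 ≤ 101/100 * ρ := (h .κ1).2
  have rg1 : 1900000 * ρ ≤ P.rg := (h .rg).1
  have rg2 : P.rg ≤ 1919000 * ρ := (h .rg).2
  have r01 : 1950000 * ρ ≤ P.r0 := (h .r0).1
  have r02 : P.r0 ≤ 1969500 * ρ := (h .r0).2
  have κ1 : 9/100 * ρ ≤ P.κ := (h .κ).1
  have κ2 : P.κ ≤ 909/10000 * ρ := (h .κ).2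
  have c1 : 7/10 ≤ P.c := (h .c).1
  have c2 : P.c ≤ 707/1000 := (h .c).2
  have cs1 : 11/20 ≤ P.cs := (h .cs).1
  have cs2 : P.cs ≤ 1111/2000 := (h .cs).2
  have e1 : 6/5 * ρ ≤ P.e := (h .e).1
  have e2 : P.e ≤ 303/250 * ρ := (h .e).2
  have w1 : 40 * ρ ≤ P.w := (h .w).1
  have w2 : P.w ≤ 8001/200 * ρ := (h .w).2
  have κs1 : -39 * ρ ≤ P.κs - P.w := (h .κs).1
  have κs2 : P.κs - P.w ≤ -7799/200 * ρ := (h .κs).2
  have la1 : 4 * τ ≤ P.la := (h .la).1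
  have la2 : P.la ≤ 101/25 * τ := (h .la).2
  have lb1 : 2 * τ ≤ P.lb := (h .lb).1
  have lb2 : P.lb ≤ 101/50 * τ := (h .lb).2
  constructor <;> constructor <;> simp only [bF] <;> linarith

/-- one end is in the intervals -/
theorem iwE {E : En} {ρ τ : ℝ} (hρ : 0 < ρ) (h : ∀ e : Ef, loE ρ τ e ≤ e.get E ∧ e.get E ≤ hiE ρ τ e) : E.Iw ρ τ := by
  have rk1 : 80 * ρ ≤ E.rk := (h .rk).1
  have rk2 : E.rk ≤ 404/5 * ρ := (h .rk).2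
  have κk1 : 1/20 * ρ ≤ E.κk := (h .κk).1
  have κk2 : E.κk ≤ 101/2000 * ρ := (h .κk).2
  have ek1 : 1/10 * ρ ≤ E.ek := (h .ek).1
  have ek2 : E.ek ≤ 101/1000 * ρ := (h .ek).2
  have lk1 : 1 * τ ≤ E.lk := (h .lk).1
  have lk2 : E.lk ≤ 101/100 * τ := (h .lk).2
  have kr1 : 1/100 * ρ ≤ E.kr := (h .kr).1
  have kr2 : E.kr ≤ 101/10000 * ρ := (h .kr).2
  have kc1 : 101/40000 * ρ ≤ E.kc - (E.f.l + E.f.m) := (h .kc).1
  have kc2 : E.kc - (E.f.l + E.f.m) ≤ 1/200 * ρ := (h .kc).2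
  have se1 : 1/20 * ρ ≤ E.s.e := (h .se).1
  have se2 : E.s.e ≤ 101/2000 * ρ := (h .se).2
  have shw1 : 1000 * ρ ≤ E.s.hw - E.s.e := (h .shw).1
  have shw2 : E.s.hw - E.s.e ≤ 1001 * ρ := (h .shw).2
  have slen1 : 60000000 * ρ ≤ E.s.len - E.s.e := (h .slen).1
  have slen2 : E.s.len - E.s.e ≤ 60060000 * ρ := (h .slen).2
  have sbn1 : 8008000 * ρ ≤ E.s.bn + E.s.e := (h .sbn).1
  have sbn2 : E.s.bn + E.s.e ≤ 8016000 * ρ := (h .sbn).2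
  refine ⟨nrN hρ fun t => h (.n t), nrF hρ fun t => h (.f t), ?_, ?_, ?_, ?_, ?_, ?_, ?_⟩
  · constructor <;> simp only [bE] <;> linarith
  · constructor <;> simp only [bE] <;> linarith
  · constructor <;> simp only [bE] <;> linarith
  · constructor <;> simp only [bE] <;> linarith
  · constructor <;> simp only [bE] <;> linarith
  · constructor <;> linarith
  · constructor <;> constructor <;> simp only [bS] <;> linarith

/-- **in the box all the relations hold** -/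
theorem bx22_w {z : ℂ} {ρ τ k K : ℝ} (hz : ‖z‖ = 1) (h1 : ‖z - 1‖ ≤ 1 / 100000000) (hρ : 0 < ρ) (hτ : 0 < τ) (hk0 : 0 < k)
    (hk : 16000000000 * ρ ≤ k) (hK : k < K) {P : Prm} (h : (bx22 hρ hτ hk0 hK).In z P) :
    P.Ok ∧ (P.u = z ∧ P.p.Nr (bE ρ τ) ∧ P.q.Nr (bE ρ τ)) ∧ P.W.D0 ≤ k ∧ K ≤ P.W.D1 ∧ P.W.t0 ≤ k ∧ K ≤ P.W.t1 := by
  have ip := iwE hρ fun e => h.g (.p e)
  have iq := iwE hρ fun e => h.g (.q e)
  have a1 : k / 2 ≤ P.W.D0 ∧ P.W.D0 ≤ k := h.g .D0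
  have a2 : K ≤ P.W.D1 ∧ P.W.D1 ≤ 2 * K := h.g .D1
  have a3 : 0 < P.W.t0 := h.t0
  have a3' : P.W.t0 ≤ k := (h.g .t0).2
  have a4 : K ≤ P.W.t1 ∧ P.W.t1 ≤ 2 * K := h.g .t1
  have a5 : k / 4 ≤ P.Wc.D0 ∧ P.Wc.D0 ≤ k / 3 := h.g .cD0
  have a6 : 3 * K ≤ P.Wc.D1 ∧ P.Wc.D1 ≤ 4 * K := h.g .cD1
  have a7 : K ≤ P.Wc.t1 ∧ P.Wc.t1 ≤ 2 * K := h.g .ct1
  obtain ⟨b1, b2, b3, b4⟩ := win_ok hρ hτ hk hK (by rw [h.u]; exact hz) (by rw [h.u]; exact h1) ip iq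
    ⟨a1.1, a1.2, a2.1, a2.2, by linarith, by linarith, a4.1, a5.1, a5.2, a6.1, h.c0, by linarith⟩
  exact ⟨b1, ⟨h.u, b2, b3⟩, b4.1, b4.2.1, b4.2.2.1, b4.2.2.2⟩

/-- the short form -/
theorem bx22_P {z : ℂ} {ρ τ k K : ℝ} (hz : ‖z‖ = 1) (h1 : ‖z - 1‖ ≤ 1 / 100000000) (hρ : 0 < ρ)
    (hτ : 0 < τ) (hk0 : 0 < k) (hk : 16000000000 * ρ ≤ k) (hK : k < K) {P : Prm} (h : (bx22 hρ hτ hk0 hK).In z P) : P.Ok :=
  (bx22_w hz h1 hρ hτ hk0 hk hK h).1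

end Pool.Agent.ROT.F3.Gn
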