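import Pool.Agent.ROT.F3K3A
import Pool.Agent.ROT.F3ClsN

/-!
# ROT, F3, row K3 (helper90): generic soft parameters

* `At ν B F` : the atoms of the law of the statistic `F` on `B` (countable: `at_cnt`);
* `TpN`, `WdN`, `RsN`, `NrN`, `KcN` : the soft fields of a gate (wedge, rest, strip, piece `k`) avoid atoms, ONE condition for each field
  (the wedge is a condition on `w` if `κs - w` is fixed, the strip a condition on `e` if the differences are fixed);
* **`preF_null`, `wdF_null`, `rsF_null`, `nrF_null`, `mnF_null`, `kcF_null`, `balF_null`** ;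
* **`tpN_gen`, `wdN_gen`, `rsN_gen`, `nrN_gen`, `kcN_gen`** : ONE countable set for all the data with the same structural fields
  (`cs`, `c`, `r0`, `κs - w`; `hw - e`, `len - e`, `bn + e`; `kc`);
* **`ClsN.h0`** : the hypothesis `h0` of `k3_ev`; **`hM`** : that of `man_ev`; **`clsN_gen`** : one countable set for the classes.
-/

set_option autoImplicit false
set_option linter.unusedSectionVars false

namespace Pool.Agent.ROT.F3

open MeasureTheory Filter Topology Set unitInterval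
open scoped NNReal ENNReal Classical

/-! ### 1. Atoms -/

section at_

variable {X : Type*} [MeasurableSpace X] {ν : Measure X} {B : Set X}

/-- the atoms of the law of `F` on `B` -/
def At (ν : Measure X) (B : Set X) (F : X → ℝ) : Set ℝ := {a | ν {x | x ∈ B ∧ F x = a} ≠ 0}

lemma at_cnt [IsFiniteMeasure ν] {F : X → ℝ} (hF : Measurable F) : (At ν B F).Countable := by
  have := Measure.countable_meas_level_set_pos (μ := ν) hF
  refine this.mono fun a ha => ?_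
  have h1 : ν {x | F x = a} ≠ 0 := fun h => ha (measure_mono_null (fun x hx => hx.2) h)
  exact pos_iff_ne_zero.2 h1

lemma not_at {F : X → ℝ} {a : ℝ} (h : a ∉ At ν B F) : ν {x | x ∈ B ∧ F x = a} = 0 := by
  by_contra h1
  exact h h1

/-- the zeros of `G` on `B` are a null set -/
def Nz (ν : Measure X) (B : Set X) (G : X → ℝ) : Prop := ν {x | x ∈ B ∧ G x = 0} = 0

lemma Nz.of_at {F G : X → ℝ} {a : ℝ} (h : a ∉ At ν B F) (e : ∀ x, G x = 0 → F x = a) : Nz ν B G :=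
  measure_mono_null (show {x | x ∈ B ∧ G x = 0} ⊆ {x | x ∈ B ∧ F x = a} from fun x hx => ⟨hx.1, e x hx.2⟩) (not_at h)

lemma Nz.max {F G : X → ℝ} (h : Nz ν B F) (h' : Nz ν B G) : Nz ν B fun x => max (F x) (G x) := by
  refine measure_mono_null (fun x hx => ?_) (measure_union_null h h')
  obtain ⟨h1, h2⟩ := hx
  have h2' : Max.max (F x) (G x) = 0 := h2
  rcases max_choice (F x) (G x) with h3 | h3
  · exact Or.inl ⟨h1, by rw [← h3]; exact h2'⟩
  · exact Or.inr ⟨h1, by rw [← h3]; exact h2'⟩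

lemma Nz.mono {G : X → ℝ} {B' : Set X} (h : Nz ν B G) (hB : B' ⊆ B) : Nz ν B' G :=
  measure_mono_null (show {x | x ∈ B' ∧ G x = 0} ⊆ {x | x ∈ B ∧ G x = 0} from fun x hx => ⟨hB hx.1, hx.2⟩) h

lemma Nz.of_ne {G : X → ℝ} (h : ∀ x, G x ≠ 0) : Nz ν B G :=
  measure_mono_null (fun x hx => (h x hx.2).elim) measure_empty

/-- all but countably many shifts -/
lemma nz_sub [IsFiniteMeasure ν] {F : X → ℝ} (hF : Measurable F) : ∃ Z : Set ℝ, Z.Countable ∧ ∀ t, t ∉ Z → Nz ν B fun x => F x - t :=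
  ⟨At ν B F, at_cnt hF, fun t ht => Nz.of_at ht fun x hx => by
    have h : F x - t = 0 := hx
    linarith⟩

end at_

/-! ### 2. The classes -/

section cls

variable {X : Type*} [MeasurableSpace X] {ν : Measure X} {B : Set X} {g : X → C(I, ℂ)} {L : X → ℝ} {a b c : X → I} {d d' : ℂ}

/-- generic fields of a gate: tip `a`, gates `b`, `c` -/
structure TpN (ν : Measure X) (B : Set X) (d : ℂ) (P : Tp) (g : X → C(I, ℂ)) (L : X → ℝ) (a b c : X → I) : Prop where
  e : -P.e ∉ At ν B fun x => fCo d P.cs (cutc (g x) (a x) (b x) 1)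
  κ1 : P.κ1 ∉ At ν B fun x => stS (fCo d P.c) (cutc (g x) (b x) (c x))
  la : P.la ∉ At ν B fun x => |(b x : ℝ) - a x| * L x
  lb : P.lb ∉ At ν B fun x => |(c x : ℝ) - b x| * L x
  r : P.r ∉ At ν B fun x => stS (fun v => ‖v‖) (cutc (g x) (a x) (b x))
  r2 : P.r2 ∉ At ν B fun x => stS (fun v => ‖v‖) (cutc (g x) (b x) (c x))

/-- generic wedge -/
def WdN (ν : Measure X) (B : Set X) (d d' : ℂ) (w cs κs : ℝ) (g : X → C(I, ℂ)) (a b : X → I) : Prop :=
  w ∉ At ν B fun x => wdF d d' 0 cs (κs - w) (g x) (a x) (b x)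

/-- generic windows and cones of a rest from `a` to `b` -/
structure RsN (ν : Measure X) (B : Set X) (d d' : ℂ) (P Q : Tp) (W : Wn) (g : X → C(I, ℂ)) (L : X → ℝ) (a b : X → I) : Prop where
  κ : P.κ ∉ At ν B fun x => stS (fRa d P.c P.r0) (cutc (g x) (a x) (b x))
  κ' : Q.κ ∉ At ν B fun x => stS (fRa d' Q.c Q.r0) (cutc (g x) (b x) (a x))
  D0 : W.D0 ∉ At ν B fun x => ‖cutc (g x) (a x) (b x) 1‖
  D1 : W.D1 ∉ At ν B fun x => ‖cutc (g x) (a x) (b x) 1‖
  t0 : 0 < W.t0 → W.t0 ∉ At ν B fun x => |(b x : ℝ) - a x| * L x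
  t1 : W.t1 ∉ At ν B fun x => |(b x : ℝ) - a x| * L x

/-- generic strip -/
def NrN (ν : Measure X) (B : Set X) (d : ℂ) (s : Sr) (g : X → C(I, ℂ)) (a b : X → I) : Prop :=
  s.e ∉ At ν B fun x => nrF d ⟨0, s.hw - s.e, s.len - s.e, s.bn + s.e⟩ (g x) (a x) (b x)

/-- generic fields of the pieces `k`: `x` = `a`, `c~` = `b`, `x~` = `c` -/
structure KcN (ν : Measure X) (B : Set X) (d t : ℂ) (E : En) (g : X → C(I, ℂ)) (L : X → ℝ) (a b c : X → I) : Prop where
  rk : E.rk ∉ At ν B fun x => stS (fun v => ‖v‖) (cutc (g x) (a x) (b x))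
  r2 : E.f.r2 ∉ At ν B fun x => stS (fun v => ‖v‖) (cutc (g x) (b x) (c x))
  κk : E.κk ∉ At ν B fun x => stS (fCo d E.n.c) (cutc (g x) (a x) (c x))
  κ1 : E.f.κ1 ∉ At ν B fun x => stS (fCo t E.f.c) (cutc (g x) (b x) (c x))
  ek : -E.ek ∉ At ν B fun x => fCo d E.n.c (cutc (g x) (a x) (c x) 1)
  kr : E.kr ∉ At ν B fun x => ‖cutc (g x) (a x) (c x) 1 - (E.kc : ℂ) * d‖
  lk : E.lk ∉ At ν B fun x => |(c x : ℝ) - a x| * L x

lemma duU_null {la : ℝ} (h : la ∉ At ν B fun x => |(b x : ℝ) - a x| * L x) : Nz ν B fun x => duU la (L x) (a x) (b x) :=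
  Nz.of_at h fun x hx => by
    unfold duU at hx
    linarith

theorem preF_null {P : Tp} (h : TpN ν B d P g L a b c) : Nz ν B fun x => preF d P (g x) (L x) (a x) (b x) (c x) := by
  refine Nz.max (Nz.max ?_ ?_) (Nz.max (duU_null h.la) (duU_null h.lb))
  · exact Nz.of_at h.e fun x hx => by linarith
  · exact Nz.of_at h.κ1 fun x hx => by linarith

theorem balF_null {P : Tp} (h : TpN ν B d P g L a b c) : Nz ν B fun x => balF P.r P.r2 (g x) (a x) (b x) (c x) := by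
  refine Nz.max ?_ ?_
  · exact Nz.of_at h.r fun x hx => by linarith
  · exact Nz.of_at h.r2 fun x hx => by linarith

theorem wdF_null {w cs κs : ℝ} (h0 : 0 ≤ cs) (h1 : cs ≤ 1) (hd : ‖d‖ = 1) (hd' : ‖d'‖ = 1) (h : WdN ν B d d' w cs κs g a b) :
    Nz ν B fun x => wdF d d' w cs κs (g x) (a x) (b x) := by
  refine Nz.of_at h fun x hx => ?_
  have e := wdF_sh (g := g x) (a := a x) (b := b x) w (w := 0) (cs := cs) (κs := κs - w) h0 h1 hd hd'
  rw [zero_add, sub_add_cancel] at e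
  rw [e] at hx
  show wdF d d' 0 cs (κs - w) (g x) (a x) (b x) = w
  linarith

theorem rsF_null {P Q : Tp} {W : Wn} (h : RsN ν B d d' P Q W g L a b) :
    Nz ν B fun x => rsF d d' P Q W (g x) (L x) (a x) (b x) := by
  refine Nz.max (Nz.max (Nz.max ?_ ?_) (Nz.max ?_ ?_)) (Nz.max ?_ (duU_null h.t1))
  · exact Nz.of_at h.κ fun x hx => by linarith
  · exact Nz.of_at h.κ' fun x hx => by linarith
  · exact Nz.of_at h.D0 fun x hx => by linarith
  · exact Nz.of_at h.D1 fun x hx => by linarith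
  · unfold duL
    by_cases h0 : W.t0 ≤ 0
    · simp only [if_pos h0]
      exact Nz.of_ne fun _ => by norm_num
    · simp only [if_neg h0]
      exact Nz.of_at (h.t0 (not_le.1 h0)) fun x hx => by linarith

theorem nrF_null {s : Sr} (hd : ‖d‖ = 1) (h : NrN ν B d s g a b) : Nz ν B fun x => nrF d s (g x) (a x) (b x) := by
  refine Nz.of_at h fun x hx => ?_
  have e := nrF_sh (g := g x) (a := a x) (b := b x) s.e ⟨0, s.hw - s.e, s.len - s.e, s.bn + s.e⟩ hd
  have e2 : (Sr.sh ⟨0, s.hw - s.e, s.len - s.e, s.bn + s.e⟩ s.e) = s := by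
    unfold Sr.sh
    dsimp only
    rw [zero_add, sub_add_cancel, sub_add_cancel, add_sub_cancel_right]
  rw [e2] at e
  rw [e] at hx
  show nrF d ⟨0, s.hw - s.e, s.len - s.e, s.bn + s.e⟩ (g x) (a x) (b x) = s.e
  linarith

theorem mnF_null {P Q : Tp} {W : Wn} {s s' : Sr} (hd : ‖d‖ = 1) (hd' : ‖d'‖ = 1) (h : RsN ν B d d' P Q W g L a b)
    (h1 : NrN ν B d s g a b) (h2 : NrN ν B d' s' g b a) : Nz ν B fun x => mnF d d' P Q W s s' (g x) (L x) (a x) (b x) :=
  Nz.max (rsF_null h) (Nz.max (nrF_null hd h1) (nrF_null hd' h2))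

theorem kcF_null {E : En} (h : KcN ν B d d' E g L a b c) : Nz ν B fun x => kcF d d' E (g x) (L x) (a x) (b x) (c x) := by
  refine Nz.max (Nz.max (Nz.max ?_ ?_) (Nz.max ?_ ?_)) (Nz.max (Nz.max ?_ ?_) (duU_null h.lk))
  · exact Nz.of_at h.rk fun x hx => by linarith
  · exact Nz.of_at h.r2 fun x hx => by linarith
  · exact Nz.of_at h.κk fun x hx => by linarith
  · exact Nz.of_at h.κ1 fun x hx => by linarith
  · exact Nz.of_at h.ek fun x hx => by linarith
  · exact Nz.of_at h.kr fun x hx => by linarith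

theorem paiF_null {a' b' c' : X → I} {P P' : Tp} (hP : P.Co) (hP' : P'.Co) (hd : ‖d‖ = 1) (hd' : ‖d'‖ = 1)
    (h : TpN ν B d P g L a b c) (h' : TpN ν B d' P' g L a' b' c') (w : WdN ν B d d' P.w P'.cs P'.κs g a' b')
    (w' : WdN ν B d' d P'.w P.cs P.κs g a b) :
    Nz ν B fun x => paiF d d' P P' (g x) (L x) (a x) (b x) (c x) (a' x) (b' x) (c' x) :=
  Nz.max (Nz.max (preF_null h) (preF_null h')) (Nz.max (wdF_null hP'.s0 hP'.s1 hd hd' w) (wdF_null hP.s0 hP.s1 hd' hd w'))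

/-- more conditions on a smaller set -/
lemma at_mono {F : X → ℝ} {B' : Set X} (hB : B' ⊆ B) : At ν B' F ⊆ At ν B F := fun a ha h =>
  ha (measure_mono_null (show {x | x ∈ B' ∧ F x = a} ⊆ {x | x ∈ B ∧ F x = a} from fun _ hx => ⟨hB hx.1, hx.2⟩) h)

end cls

/-! ### 3. The exceptional sets are countable -/

/-- the soft fields of a gate avoid `Z` -/
structure Tp.Av (P : Tp) (Z : Set ℝ) : Prop where
  r : P.r ∉ Z
  r2 : P.r2 ∉ Z
  e : P.e ∉ Z
  κ1 : P.κ1 ∉ Z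
  κ : P.κ ∉ Z
  w : P.w ∉ Z
  la : P.la ∉ Z
  lb : P.lb ∉ Z

/-- the windows avoid `Z` -/
structure Wn.Av (W : Wn) (Z : Set ℝ) : Prop where
  D0 : W.D0 ∉ Z
  D1 : W.D1 ∉ Z
  t0 : 0 < W.t0 → W.t0 ∉ Z
  t1 : W.t1 ∉ Z

/-- the structural fields of the cones and of the wedge are the same -/
structure Tp.Same (P P' : Tp) : Prop where
  cs : P'.cs = P.cs
  c : P'.c = P.c
  r0 : P'.r0 = P.r0
  κs : P'.κs - P'.w = P.κs - P.w

lemma Tp.Same.refl (P : Tp) : P.Same P := ⟨rfl, rfl, rfl, rfl⟩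

lemma Tp.Av.mono {P : Tp} {Z Z' : Set ℝ} (h : P.Av Z') (hZ : Z ⊆ Z') : P.Av Z :=
  ⟨fun x => h.r (hZ x), fun x => h.r2 (hZ x), fun x => h.e (hZ x), fun x => h.κ1 (hZ x), fun x => h.κ (hZ x), fun x => h.w (hZ x),
    fun x => h.la (hZ x), fun x => h.lb (hZ x)⟩

lemma Wn.Av.mono {W : Wn} {Z Z' : Set ℝ} (h : W.Av Z') (hZ : Z ⊆ Z') : W.Av Z :=
  ⟨fun x => h.D0 (hZ x), fun x => h.D1 (hZ x), fun x y => h.t0 x (hZ y), fun x => h.t1 (hZ x)⟩

section ct

variable {X : Type*} [MeasurableSpace X] {ν : Measure X} [IsFiniteMeasure ν] {B : Set X} {g : X → C(I, ℂ)} {L : X → ℝ} {a b c : X → I}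
  {d d' : ℂ}

lemma ms_of {F : C(I, ℂ) × ℝ × I × I → ℝ} (hF : Continuous F) (hg : Measurable g) (hL : Measurable L) (ha : Measurable a)
    (hb : Measurable b) : Measurable fun x => F (g x, L x, a x, b x) :=
  hF.measurable.comp (hg.prodMk (hL.prodMk (ha.prodMk hb)))

private lemma cnt_of {F : C(I, ℂ) × ℝ × I × I → ℝ} (hF : Continuous F) (hg : Measurable g) (hL : Measurable L) (ha : Measurable a)
    (hb : Measurable b) : (At ν B fun x => F (g x, L x, a x, b x)).Countable := at_cnt (ms_of hF hg hL ha hb)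

private lemma cnt_st {f : ℂ → ℝ} {K : ℝ≥0} (hf : LipschitzWith K f) (hg : Measurable g) (ha : Measurable a)
    (hb : Measurable b) : (At ν B fun x => stS f (cutc (g x) (a x) (b x))).Countable :=
  cnt_of (L := fun _ => 0) (F := fun z => stS f (cutc z.1 z.2.2.1 z.2.2.2)) (Continuous.stS' hf (Continuous.cutc' (by fun_prop)
    (by fun_prop) (by fun_prop))) hg measurable_const ha hb

private lemma cnt_c1 {f : ℂ → ℝ} (hf : Continuous f) (hg : Measurable g) (ha : Measurable a)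
    (hb : Measurable b) : (At ν B fun x => f (cutc (g x) (a x) (b x) 1)).Countable :=
  cnt_of (L := fun _ => 0) (F := fun z => f (cutc z.1 z.2.2.1 z.2.2.2 1)) (hf.comp (Continuous.cutc1 (by fun_prop)
    (by fun_prop) (by fun_prop))) hg measurable_const ha hb

private lemma cnt_du (hg : Measurable g) (hL : Measurable L) (ha : Measurable a) (hb : Measurable b) :
    (At ν B fun x => |(b x : ℝ) - a x| * L x).Countable :=
  cnt_of (F := fun z => |(z.2.2.2 : ℝ) - z.2.2.1| * z.2.1) (by fun_prop) hg hL ha hb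

private lemma cnt_neg {Z : Set ℝ} (h : Z.Countable) : (Neg.neg '' Z).Countable := h.image _

private lemma neg_nm {Z : Set ℝ} {x : ℝ} (h : x ∉ Neg.neg '' Z) : -x ∉ Z := fun h' => h ⟨-x, h', neg_neg x⟩

/-- **gates** -/
theorem tpN_gen {P : Tp} (hP : P.Co) (hd : ‖d‖ = 1) (hg : Measurable g) (hL : Measurable L) (ha : Measurable a) (hb : Measurable b)
    (hc : Measurable c) : ∃ Z : Set ℝ, Z.Countable ∧ ∀ P' : Tp, P.Same P' → P'.Av Z → TpN ν B d P' g L a b c := by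
  have z1 := cnt_neg (cnt_c1 (ν := ν) (B := B) (fCo_lip hd hP.s0 hP.s1).continuous hg ha hb)
  have z2 := cnt_st (ν := ν) (B := B) (fCo_lip hd hP.c0 hP.c1) hg hb hc
  have z3 := cnt_du (ν := ν) (B := B) hg hL ha hb
  have z4 := cnt_du (ν := ν) (B := B) hg hL hb hc
  have z5 := cnt_st (ν := ν) (B := B) lip_norm hg ha hb
  have z6 := cnt_st (ν := ν) (B := B) lip_norm hg hb hc
  refine ⟨_, ((z1.union z2).union (z3.union z4)).union (z5.union z6), fun P' hs h => ?_⟩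
  refine ⟨?_, ?_, fun x => h.la (Or.inl (Or.inr (Or.inl x))), fun x => h.lb (Or.inl (Or.inr (Or.inr x))),
    fun x => h.r (Or.inr (Or.inl x)), fun x => h.r2 (Or.inr (Or.inr x))⟩
  · rw [hs.cs]
    exact neg_nm fun x => h.e (Or.inl (Or.inl (Or.inl x)))
  · rw [hs.c]
    exact fun x => h.κ1 (Or.inl (Or.inl (Or.inr x)))

/-- **wedges** -/
theorem wdN_gen {P : Tp} (hP : P.Co) (hd : ‖d‖ = 1) (hd' : ‖d'‖ = 1) (hg : Measurable g) (ha : Measurable a) (hb : Measurable b) :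
    ∃ Z : Set ℝ, Z.Countable ∧ ∀ P' : Tp, P.Same P' → P'.Av Z → WdN ν B d d' P'.w P'.cs P'.κs g a b := by
  refine ⟨_, cnt_of (ν := ν) (B := B) (L := fun _ => 0) (F := fun z => wdF d d' 0 P.cs (P.κs - P.w) z.1 z.2.2.1 z.2.2.2)
    (Continuous.wdF hP.s0 hP.s1 hd hd' (by fun_prop) (by fun_prop) (by fun_prop)) hg measurable_const ha hb, fun P' hs h => ?_⟩
  unfold WdN
  rw [hs.cs, hs.κs]
  exact h.w

/-- **rests** -/
theorem rsN_gen {P Q : Tp} (hP : P.Co) (hQ : Q.Co) (hd : ‖d‖ = 1) (hd' : ‖d'‖ = 1) (hg : Measurable g) (hL : Measurable L)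
    (ha : Measurable a) (hb : Measurable b) : ∃ Z : Set ℝ, Z.Countable ∧ ∀ (P' Q' : Tp) (W : Wn), P.Same P' → Q.Same Q' → P'.Av Z →
      Q'.Av Z → W.Av Z → RsN ν B d d' P' Q' W g L a b := by
  have z1 := cnt_st (ν := ν) (B := B) (fRa_lip (r0 := P.r0) hd hP.c0 hP.c1) hg ha hb
  have z2 := cnt_st (ν := ν) (B := B) (fRa_lip (r0 := Q.r0) hd' hQ.c0 hQ.c1) hg hb ha
  have z3 := cnt_c1 (ν := ν) (B := B) continuous_norm hg ha hb
  have z4 := cnt_du (ν := ν) (B := B) hg hL ha hb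
  refine ⟨_, (z1.union z2).union (z3.union z4), fun P' Q' W hs hs' h h' h2 => ?_⟩
  refine ⟨?_, ?_, fun x => h2.D0 (Or.inr (Or.inl x)), fun x => h2.D1 (Or.inr (Or.inl x)), fun h3 x => h2.t0 h3 (Or.inr (Or.inr x)),
    fun x => h2.t1 (Or.inr (Or.inr x))⟩
  · rw [hs.c, hs.r0]
    exact fun x => h.κ (Or.inl (Or.inl x))
  · rw [hs'.c, hs'.r0]
    exact fun x => h'.κ (Or.inl (Or.inr x))

/-- **strips**: `hw - e`, `len - e`, `bn + e` fixed -/
theorem nrN_gen (s : Sr) (hd : ‖d‖ = 1) (hg : Measurable g) (ha : Measurable a) (hb : Measurable b) :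
    ∃ Z : Set ℝ, Z.Countable ∧ ∀ s' : Sr, s'.hw - s'.e = s.hw - s.e → s'.len - s'.e = s.len - s.e → s'.bn + s'.e = s.bn + s.e →
      s'.e ∉ Z → NrN ν B d s' g a b := by
  refine ⟨_, cnt_of (ν := ν) (B := B) (L := fun _ => 0) (F := fun z => nrF d ⟨0, s.hw - s.e, s.len - s.e, s.bn + s.e⟩ z.1 z.2.2.1
    z.2.2.2) (Continuous.nrF _ hd (by fun_prop) (by fun_prop) (by fun_prop)) hg measurable_const ha hb, fun s' h1 h2 h3 h => ?_⟩
  unfold NrN
  rw [h1, h2, h3]
  exact h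

/-- **pieces `k`**: the cosines and `kc` fixed -/
theorem kcN_gen {E : En} (hn : E.n.Co) (hf : E.f.Co) (hd : ‖d‖ = 1) (hd' : ‖d'‖ = 1) (hg : Measurable g) (hL : Measurable L)
    (ha : Measurable a) (hb : Measurable b) (hc : Measurable c) : ∃ Z : Set ℝ, Z.Countable ∧ ∀ E' : En, E'.n.c = E.n.c →
      E'.f.c = E.f.c → E'.kc = E.kc → E'.f.Av Z → E'.rk ∉ Z → E'.κk ∉ Z → E'.ek ∉ Z → E'.kr ∉ Z → E'.lk ∉ Z →
      KcN ν B d d' E' g L a b c := by
  have z1 := cnt_st (ν := ν) (B := B) lip_norm hg ha hb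
  have z2 := cnt_st (ν := ν) (B := B) lip_norm hg hb hc
  have z3 := cnt_st (ν := ν) (B := B) (fCo_lip hd hn.c0 hn.c1) hg ha hc
  have z4 := cnt_st (ν := ν) (B := B) (fCo_lip hd' hf.c0 hf.c1) hg hb hc
  have z5 := cnt_neg (cnt_c1 (ν := ν) (B := B) (fCo_lip hd hn.c0 hn.c1).continuous hg ha hc)
  have z6 := cnt_c1 (ν := ν) (B := B) (f := fun v => ‖v - (E.kc : ℂ) * d‖) (by fun_prop) hg ha hc
  have z7 := cnt_du (ν := ν) (B := B) hg hL ha hc
  refine ⟨_, ((z1.union z2).union (z3.union z4)).union ((z5.union z6).union z7), fun E' e1 e2 e3 h rk κk ek kr lk => ?_⟩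
  refine ⟨fun x => rk (Or.inl (Or.inl (Or.inl x))), fun x => h.r2 (Or.inl (Or.inl (Or.inr x))), ?_, ?_, ?_, ?_,
    fun x => lk (Or.inr (Or.inr x))⟩
  · rw [e1]
    exact fun x => κk (Or.inl (Or.inr (Or.inl x)))
  · rw [e2]
    exact fun x => h.κ1 (Or.inl (Or.inr (Or.inr x)))
  · rw [e1]
    exact neg_nm fun x => ek (Or.inr (Or.inl (Or.inl x)))
  · rw [e3]
    exact fun x => kr (Or.inr (Or.inl (Or.inr x)))

end ct

/-! ### 4. The classes of closed words -/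

namespace CK

open LF

/-- the time of the second root -/
noncomputable def mY (y : CC.Gm) : I := pji (muG y)

/-- **generic soft fields of a class** of closed words -/
structure ClsN (PG : Measure CC.Gm) (B : Set CC.Gm) (D : Dt) (u : CC.Gm → Fin 8 → I) : Prop where
  p1 : TpN PG B D.d D.P (fun y => y.2.2) (fun y => y.1) (fun _ => 0) (fun y => u y 0) fun y => u y 1
  p2 : TpN PG B D.d' D.P (fun y => y.2.2) (fun y => y.1) (fun _ => 1) (fun y => u y 7) fun y => u y 6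
  q1 : TpN PG B D.t D.Q (fun y => y.2.2) (fun y => y.1) mY (fun y => u y 3) fun y => u y 2
  q2 : TpN PG B D.t' D.Q (fun y => y.2.2) (fun y => y.1) mY (fun y => u y 4) fun y => u y 5
  w1 : WdN PG B D.d D.d' D.P.w D.P.cs D.P.κs (fun y => y.2.2) (fun _ => 1) fun y => u y 7
  w2 : WdN PG B D.d' D.d D.P.w D.P.cs D.P.κs (fun y => y.2.2) (fun _ => 0) fun y => u y 0
  w3 : WdN PG B D.t D.t' D.Q.w D.Q.cs D.Q.κs (fun y => y.2.2) mY fun y => u y 4
  w4 : WdN PG B D.t' D.t D.Q.w D.Q.cs D.Q.κs (fun y => y.2.2) mY fun y => u y 3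
  A : RsN PG B D.d D.t D.P D.Q D.V (fun y => y.2.2) (fun y => y.1) (fun y => u y 1) fun y => u y 2
  B : RsN PG B D.d' D.t' D.P D.Q D.V' (fun y => y.2.2) (fun y => y.1) (fun y => u y 6) fun y => u y 5

/-- the fields of `TpN` do not see the threshold -/
lemma TpN.up {X : Type*} [MeasurableSpace X] {ν : Measure X} {B : Set X} {g : X → C(I, ℂ)} {L : X → ℝ} {a b c : X → I} {d : ℂ}
    {P : Tp} (h : TpN ν B d P g L a b c) (y : ℝ) : TpN ν B d (P.up y) g L a b c := ⟨h.e, h.κ1, h.la, h.lb, h.r, h.r2⟩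

/-- **the hypothesis `h0` of `k3_ev`** -/
theorem ClsN.h0 {PG : Measure CC.Gm} {B : Set CC.Gm} {D : Dt} (hD : D.Ok) {u : CC.Gm → Fin 8 → I} (h : ClsN PG B D u) :
    PG {y | y ∈ B ∧ clsF D y.2.2 y.1 (mY y) (u y) = 0} = 0 := by
  have cP := (hD.P.co).up D.y
  have cP' := (hD.P.co).up D.y'
  have cQ := (hD.Q.co).up D.z
  have cQ' := (hD.Q.co).up D.z'
  have n1 := paiF_null cP cP' hD.d hD.d' (TpN.up h.p1 D.y) (TpN.up h.p2 D.y') h.w1 h.w2
  have n2 := paiF_null cQ cQ' hD.t hD.t' (TpN.up h.q1 D.z) (TpN.up h.q2 D.z') h.w3 h.w4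
  have n3 := rsF_null h.A
  have n4 := rsF_null h.B
  have n5 := balF_null h.p1
  have n6 := balF_null h.p2
  have n7 := balF_null h.q1
  have n8 := balF_null h.q2
  exact ((n1.max n2).max (n3.max n4)).max ((n5.max n6).max (n7.max n8))

/-- **the hypothesis `h0` of `man_ev`** (subclass with main arcs) -/
theorem hM {PG : Measure CC.Gm} {B : Set CC.Gm} {D : Dt} (hD : D.Ok) {u : CC.Gm → Fin 8 → I} {s s' : Sr}
    (h : NrN PG B D.d s (fun y => y.2.2) (fun y => u y 1) fun y => u y 2)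
    (h' : NrN PG B D.t s' (fun y => y.2.2) (fun y => u y 2) fun y => u y 1) :
    PG {y | y ∈ B ∧ max (nrF D.d s y.2.2 (u y 1) (u y 2)) (nrF D.t s' y.2.2 (u y 2) (u y 1)) = 0} = 0 :=
  (nrF_null hD.d h).max (nrF_null hD.t h')

/-- the same directions and the same structural fields -/
structure Dt.Same (D D' : Dt) : Prop where
  P : D.P.Same D'.P
  Q : D.Q.Same D'.Q
  d : D'.d = D.d
  d' : D'.d' = D.d'
  t : D'.t = D.t
  t' : D'.t' = D.t'

/-- the soft fields of a class avoid `Z` -/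
structure Dt.Av (D : Dt) (Z : Set ℝ) : Prop where
  P : D.P.Av Z
  Q : D.Q.Av Z
  V : D.V.Av Z
  V' : D.V'.Av Z

/-- **ONE countable set for all the classes with the same structural fields** (the marks `u` fixed) -/
theorem clsN_gen {PG : Measure CC.Gm} [IsFiniteMeasure PG] {B : Set CC.Gm} {D : Dt} (hD : D.Ok) {u : CC.Gm → Fin 8 → I}
    (hu : ∀ k, Measurable fun y => u y k) : ∃ Z : Set ℝ, Z.Countable ∧ ∀ D' : Dt, D.Same D' → D'.Av Z → ClsN PG B D' u := by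
  have hg : Measurable fun y : CC.Gm => y.2.2 := by fun_prop
  have hL : Measurable fun y : CC.Gm => y.1 := by fun_prop
  have hm : Measurable mY := pji_cont.measurable.comp muG_meas
  have h0 : Measurable fun _ : CC.Gm => (0 : I) := measurable_const
  have h1 : Measurable fun _ : CC.Gm => (1 : I) := measurable_const
  have cP := hD.P.co
  have cQ := hD.Q.co
  obtain ⟨z1, c1, k1⟩ := tpN_gen (ν := PG) (B := B) cP hD.d hg hL h0 (hu 0) (hu 1)
  obtain ⟨z2, c2, k2⟩ := tpN_gen (ν := PG) (B := B) cP hD.d' hg hL h1 (hu 7) (hu 6)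
  obtain ⟨z3, c3, k3⟩ := tpN_gen (ν := PG) (B := B) cQ hD.t hg hL hm (hu 3) (hu 2)
  obtain ⟨z4, c4, k4⟩ := tpN_gen (ν := PG) (B := B) cQ hD.t' hg hL hm (hu 4) (hu 5)
  obtain ⟨z5, c5, k5⟩ := wdN_gen (ν := PG) (B := B) cP hD.d hD.d' hg h1 (hu 7)
  obtain ⟨z6, c6, k6⟩ := wdN_gen (ν := PG) (B := B) cP hD.d' hD.d hg h0 (hu 0)
  obtain ⟨z7, c7, k7⟩ := wdN_gen (ν := PG) (B := B) cQ hD.t hD.t' hg hm (hu 4)
  obtain ⟨z8, c8, k8⟩ := wdN_gen (ν := PG) (B := B) cQ hD.t' hD.t hg hm (hu 3)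
  obtain ⟨z9, c9, k9⟩ := rsN_gen (ν := PG) (B := B) cP cQ hD.d hD.t hg hL (hu 1) (hu 2)
  obtain ⟨z10, c10, k10⟩ := rsN_gen (ν := PG) (B := B) cP cQ hD.d' hD.t' hg hL (hu 6) (hu 5)
  obtain ⟨Z, hZ⟩ : ∃ Z : Set ℝ, Z = (z1 ∪ (z2 ∪ (z3 ∪ (z4 ∪ (z5 ∪ (z6 ∪ (z7 ∪ (z8 ∪ (z9 ∪ z10))))))))) := ⟨_, rfl⟩
  have i1 : z1 ⊆ Z := by rw [hZ]; intro x hx; simp only [mem_union]; tauto
  have i2 : z2 ⊆ Z := by rw [hZ]; intro x hx; simp only [mem_union]; tauto
  have i3 : z3 ⊆ Z := by rw [hZ]; intro x hx; simp only [mem_union]; tauto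
  have i4 : z4 ⊆ Z := by rw [hZ]; intro x hx; simp only [mem_union]; tauto
  have i5 : z5 ⊆ Z := by rw [hZ]; intro x hx; simp only [mem_union]; tauto
  have i6 : z6 ⊆ Z := by rw [hZ]; intro x hx; simp only [mem_union]; tauto
  have i7 : z7 ⊆ Z := by rw [hZ]; intro x hx; simp only [mem_union]; tauto
  have i8 : z8 ⊆ Z := by rw [hZ]; intro x hx; simp only [mem_union]; tauto
  have i9 : z9 ⊆ Z := by rw [hZ]; intro x hx; simp only [mem_union]; tauto
  have i10 : z10 ⊆ Z := by rw [hZ]; intro x hx; simp only [mem_union]; tauto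
  refine ⟨Z, ?_, fun D' hs h => ?_⟩
  · rw [hZ]
    exact c1.union (c2.union (c3.union (c4.union (c5.union (c6.union (c7.union (c8.union (c9.union c10))))))))
  · have e1 := hs.d
    have e2 := hs.d'
    have e3 := hs.t
    have e4 := hs.t'
    refine ⟨?_, ?_, ?_, ?_, ?_, ?_, ?_, ?_, ?_, ?_⟩
    · rw [e1]
      exact k1 _ hs.P (h.P.mono i1)
    · rw [e2]
      exact k2 _ hs.P (h.P.mono i2)
    · rw [e3]
      exact k3 _ hs.Q (h.Q.mono i3)
    · rw [e4]
      exact k4 _ hs.Q (h.Q.mono i4)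
    · rw [e1, e2]
      exact k5 _ hs.P (h.P.mono i5)
    · rw [e1, e2]
      exact k6 _ hs.P (h.P.mono i6)
    · rw [e3, e4]
      exact k7 _ hs.Q (h.Q.mono i7)
    · rw [e3, e4]
      exact k8 _ hs.Q (h.Q.mono i8)
    · rw [e1, e3]
      exact k9 _ _ _ hs.P hs.Q (h.P.mono i9) (h.Q.mono i9) (h.V.mono i9)
    · rw [e2, e4]
      exact k10 _ _ _ hs.P hs.Q (h.P.mono i10) (h.Q.mono i10) (h.V'.mono i10)

/-- a generic soft coordinate is not in a countable set: almost every value -/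
lemma av_ae {Z : Set ℝ} (h : Z.Countable) : ∀ᵐ x : ℝ, x ∉ Z := by
  rw [ae_iff]
  simpa using h.measure_zero volume

end CK

end Pool.Agent.ROT.F3
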