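import Pool.Agent.ROT.F3GenP
import Pool.Agent.ROT.F3K3G

/-!
# ROT, block F3, row GEN (helper71): the soft conditions of helper90 in the filter `gP` of helper36

* `fs` : the first soft coordinate; `EAv`, **`PAv P Z`** : all soft numbers of `P` avoid `Z` (gates, pieces, strips, the windows of the arcs
  and of the rests of the lattice 0); `pav_ev` : eventually, for a null set `Z` given by the coordinates before `fs`;
* **`Sft z B R Q`** : a soft condition `Q a` (objects `a` of the earlier coordinates, `R a P`): it holds off a null set of the soft numbers;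
  `Sft.and`, `Sft.all`, `Sft.mono`, `Sft.weak`; **`sft_ev`** : eventually there are objects `a` with `R a P` and `Q a P`; `sft_ev1`;
* selectors `GS` (gates), `WS` (windows), `ES` (ends);
* **`sft_D0`, `sft_DR`** : `ClsN` of the classes of both lattices; **`sft_nr`** : `NrN`; **`sft_kc`** : `KcN`; `sft_tp`, `sft_wd`, `sft_rs`.
-/

set_option autoImplicit false
set_option linter.unusedSectionVars false

open MeasureTheory Filter Set unitInterval

namespace Pool.Agent.ROT.F3.Gn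

open CK

/-! ### 1. The soft numbers -/

/-- the first soft coordinate -/
def fs : Fd := .p (.n .r)

lemma rk_le {f' f : Fd} (h : ord.idxOf f' ≤ ord.idxOf f) : f'.rk ≤ f.rk := by
  unfold Fd.rk
  exact h

/-- the soft numbers of an end (besides the gates) avoid `Z` -/
structure EAv (E : En) (Z : Set ℝ) : Prop where
  rk : E.rk ∉ Z
  κk : E.κk ∉ Z
  ek : E.ek ∉ Z
  lk : E.lk ∉ Z
  kr : E.kr ∉ Z
  se : E.s.e ∉ Z

/-- **all soft numbers avoid `Z`** -/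
structure PAv (P : Prm) (Z : Set ℝ) : Prop where
  pn : P.p.n.Av Z
  qn : P.q.n.Av Z
  pf : P.p.f.Av Z
  qf : P.q.f.Av Z
  p : EAv P.p Z
  q : EAv P.q Z
  W : P.W.Av Z
  Wc : P.Wc.Av Z
  wW : (P.wd P.W).Av Z
  wWc : (P.wd P.Wc).Av Z

lemma EAv.mono {E : En} {Z Z' : Set ℝ} (h : EAv E Z') (hZ : Z ⊆ Z') : EAv E Z :=
  ⟨fun x => h.rk (hZ x), fun x => h.κk (hZ x), fun x => h.ek (hZ x), fun x => h.lk (hZ x), fun x => h.kr (hZ x), fun x => h.se (hZ x)⟩

lemma PAv.mono {P : Prm} {Z Z' : Set ℝ} (h : PAv P Z') (hZ : Z ⊆ Z') : PAv P Z :=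
  ⟨h.pn.mono hZ, h.qn.mono hZ, h.pf.mono hZ, h.qf.mono hZ, h.p.mono hZ, h.q.mono hZ, h.W.mono hZ, h.Wc.mono hZ, h.wW.mono hZ,
    h.wWc.mono hZ⟩

section av

variable {z : ℂ} {B : Bx} {Zf : Prm → Set ℝ}

/-- one shifted soft coordinate avoids a null set which is given by the coordinates before `fs` -/
lemma nm_ev (hZ : ∀ P, volume (Zf P) = 0) (hA : ∀ P P' : Prm, Agr fs P P' → Zf P' = Zf P) (f : Fd) (hf : fs.rk ≤ f.rk) (s : Prm → ℝ)
    (hs : ∀ P P' : Prm, Agr f P P' → s P' = s P) : ∀ᶠ P in gP z B, f.get P + s P ∉ Zf P := by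
  refine gP_f f fun P _ => ⟨(fun x => x + s P) ⁻¹' Zf P, ?_, fun P' _ h1 h2 => ?_⟩
  · rw [measure_preimage_add_right]
    exact hZ P
  · rw [hA P P' (h1.mono hf), hs P P' h1]
    exact h2

lemma nm0_ev (hZ : ∀ P, volume (Zf P) = 0) (hA : ∀ P P' : Prm, Agr fs P P' → Zf P' = Zf P) (f : Fd) (hf : fs.rk ≤ f.rk) :
    ∀ᶠ P in gP z B, f.get P ∉ Zf P := by
  refine (nm_ev hZ hA f hf (fun _ => 0) fun _ _ _ => rfl).mono fun P hP => ?_
  rwa [add_zero] at hP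

/-- the soft numbers of one gate -/
lemma tav_ev (hZ : ∀ P, volume (Zf P) = 0) (hA : ∀ P P' : Prm, Agr fs P P' → Zf P' = Zf P) {t : Tf → Fd} {T : Prm → Tp}
    (ht : ∀ (t' : Tf) P, (t t').get P = t'.get (T P)) (h1 : fs.rk ≤ (t .r).rk) (h2 : fs.rk ≤ (t .r2).rk) (h3 : fs.rk ≤ (t .e).rk)
    (h4 : fs.rk ≤ (t .κ1).rk) (h5 : fs.rk ≤ (t .κ).rk) (h6 : fs.rk ≤ (t .w).rk) (h7 : fs.rk ≤ (t .la).rk)
    (h8 : fs.rk ≤ (t .lb).rk) : ∀ᶠ P in gP z B, (T P).Av (Zf P) := by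
  filter_upwards [nm0_ev (z := z) (B := B) hZ hA _ h1, nm0_ev (z := z) (B := B) hZ hA _ h2, nm0_ev (z := z) (B := B) hZ hA _ h3,
    nm0_ev (z := z) (B := B) hZ hA _ h4, nm0_ev (z := z) (B := B) hZ hA _ h5, nm0_ev (z := z) (B := B) hZ hA _ h6,
    nm0_ev (z := z) (B := B) hZ hA _ h7, nm0_ev (z := z) (B := B) hZ hA _ h8] with P a1 a2 a3 a4 a5 a6 a7 a8
  rw [ht] at a1 a2 a3 a4 a5 a6 a7 a8
  exact ⟨a1, a2, a3, a4, a5, a6, a7, a8⟩

/-- the soft numbers of one end -/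
lemma eav_ev (hZ : ∀ P, volume (Zf P) = 0) (hA : ∀ P P' : Prm, Agr fs P P' → Zf P' = Zf P) {t : Ef → Fd} {T : Prm → En}
    (ht : ∀ (t' : Ef) P, (t t').get P = t'.get (T P)) (h1 : fs.rk ≤ (t .rk).rk) (h2 : fs.rk ≤ (t .κk).rk) (h3 : fs.rk ≤ (t .ek).rk)
    (h4 : fs.rk ≤ (t .lk).rk) (h5 : fs.rk ≤ (t .kr).rk) (h6 : fs.rk ≤ (t .se).rk) : ∀ᶠ P in gP z B, EAv (T P) (Zf P) := by
  filter_upwards [nm0_ev (z := z) (B := B) hZ hA _ h1, nm0_ev (z := z) (B := B) hZ hA _ h2, nm0_ev (z := z) (B := B) hZ hA _ h3,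
    nm0_ev (z := z) (B := B) hZ hA _ h4, nm0_ev (z := z) (B := B) hZ hA _ h5, nm0_ev (z := z) (B := B) hZ hA _ h6]
    with P a1 a2 a3 a4 a5 a6
  rw [ht] at a1 a2 a3 a4 a5 a6
  exact ⟨a1, a2, a3, a4, a5, a6⟩

/-- the radii of the pieces `k` come before the windows -/
lemma agr_k {f : Fd} {P P' : Prm} (h : Agr f P P') (h1 : Fd.D0.rk ≤ f.rk) : P'.p.k + P'.q.k = P.p.k + P.q.k := by
  have e1 : P'.p.rk = P.p.rk := h.g (.p .rk) (lt_of_lt_of_le (rk_lt (by decide +kernel)) h1)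
  have e2 : P'.q.rk = P.q.rk := h.g (.q .rk) (lt_of_lt_of_le (rk_lt (by decide +kernel)) h1)
  have e3 : P'.p.f.r2 = P.p.f.r2 := h.g (.p (.f .r2)) (lt_of_lt_of_le (rk_lt (by decide +kernel)) h1)
  have e4 : P'.q.f.r2 = P.q.f.r2 := h.g (.q (.f .r2)) (lt_of_lt_of_le (rk_lt (by decide +kernel)) h1)
  unfold En.k
  rw [e1, e2, e3, e4]

lemma agr_lk {f : Fd} {P P' : Prm} (h : Agr f P P') (h1 : Fd.D0.rk ≤ f.rk) : P'.p.lk + P'.q.lk = P.p.lk + P.q.lk := by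
  have e1 : P'.p.lk = P.p.lk := h.g (.p .lk) (lt_of_lt_of_le (rk_lt (by decide +kernel)) h1)
  have e2 : P'.q.lk = P.q.lk := h.g (.q .lk) (lt_of_lt_of_le (rk_lt (by decide +kernel)) h1)
  rw [e1, e2]

/-- **all soft numbers avoid a null set which is given by the coordinates before `fs`** -/
theorem pav_ev (hZ : ∀ P, volume (Zf P) = 0) (hA : ∀ P P' : Prm, Agr fs P P' → Zf P' = Zf P) : ∀ᶠ P in gP z B, PAv P (Zf P) := by
  have b1 : ∀ᶠ P in gP z B, P.p.n.Av (Zf P) := tav_ev hZ hA (t := fun t => .p (.n t)) (T := fun P => P.p.n) (fun _ _ => rfl)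
    (rk_le (by decide +kernel)) (rk_le (by decide +kernel)) (rk_le (by decide +kernel)) (rk_le (by decide +kernel))
    (rk_le (by decide +kernel)) (rk_le (by decide +kernel)) (rk_le (by decide +kernel)) (rk_le (by decide +kernel))
  have b2 : ∀ᶠ P in gP z B, P.q.n.Av (Zf P) := tav_ev hZ hA (t := fun t => .q (.n t)) (T := fun P => P.q.n) (fun _ _ => rfl)
    (rk_le (by decide +kernel)) (rk_le (by decide +kernel)) (rk_le (by decide +kernel)) (rk_le (by decide +kernel))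
    (rk_le (by decide +kernel)) (rk_le (by decide +kernel)) (rk_le (by decide +kernel)) (rk_le (by decide +kernel))
  have b3 : ∀ᶠ P in gP z B, P.p.f.Av (Zf P) := tav_ev hZ hA (t := fun t => .p (.f t)) (T := fun P => P.p.f) (fun _ _ => rfl)
    (rk_le (by decide +kernel)) (rk_le (by decide +kernel)) (rk_le (by decide +kernel)) (rk_le (by decide +kernel))
    (rk_le (by decide +kernel)) (rk_le (by decide +kernel)) (rk_le (by decide +kernel)) (rk_le (by decide +kernel))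
  have b4 : ∀ᶠ P in gP z B, P.q.f.Av (Zf P) := tav_ev hZ hA (t := fun t => .q (.f t)) (T := fun P => P.q.f) (fun _ _ => rfl)
    (rk_le (by decide +kernel)) (rk_le (by decide +kernel)) (rk_le (by decide +kernel)) (rk_le (by decide +kernel))
    (rk_le (by decide +kernel)) (rk_le (by decide +kernel)) (rk_le (by decide +kernel)) (rk_le (by decide +kernel))
  have b5 : ∀ᶠ P in gP z B, EAv P.p (Zf P) := eav_ev hZ hA (t := fun t => .p t) (T := fun P => P.p) (fun _ _ => rfl)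
    (rk_le (by decide +kernel)) (rk_le (by decide +kernel)) (rk_le (by decide +kernel)) (rk_le (by decide +kernel))
    (rk_le (by decide +kernel)) (rk_le (by decide +kernel))
  have b6 : ∀ᶠ P in gP z B, EAv P.q (Zf P) := eav_ev hZ hA (t := fun t => .q t) (T := fun P => P.q) (fun _ _ => rfl)
    (rk_le (by decide +kernel)) (rk_le (by decide +kernel)) (rk_le (by decide +kernel)) (rk_le (by decide +kernel))
    (rk_le (by decide +kernel)) (rk_le (by decide +kernel))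
  have c1 : ∀ᶠ P in gP z B, P.W.D0 ∉ Zf P := nm0_ev hZ hA .D0 (rk_le (by decide +kernel))
  have c2 : ∀ᶠ P in gP z B, P.W.D1 ∉ Zf P := nm0_ev hZ hA .D1 (rk_le (by decide +kernel))
  have c3 : ∀ᶠ P in gP z B, P.W.t0 ∉ Zf P := nm0_ev hZ hA .t0 (rk_le (by decide +kernel))
  have c4 : ∀ᶠ P in gP z B, P.W.t1 ∉ Zf P := nm0_ev hZ hA .t1 (rk_le (by decide +kernel))
  have c5 : ∀ᶠ P in gP z B, P.Wc.D0 ∉ Zf P := nm0_ev hZ hA .cD0 (rk_le (by decide +kernel))
  have c6 : ∀ᶠ P in gP z B, P.Wc.D1 ∉ Zf P := nm0_ev hZ hA .cD1 (rk_le (by decide +kernel))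
  have c7 : ∀ᶠ P in gP z B, P.Wc.t1 ∉ Zf P := nm0_ev hZ hA .ct1 (rk_le (by decide +kernel))
  have d1 : ∀ᶠ P in gP z B, P.W.D0 + -(P.p.k + P.q.k) ∉ Zf P := nm_ev hZ hA .D0 (rk_le (by decide +kernel))
    (fun P => -(P.p.k + P.q.k)) fun P P' h => by
      show -(P'.p.k + P'.q.k) = -(P.p.k + P.q.k)
      rw [agr_k h le_rfl]
  have d2 : ∀ᶠ P in gP z B, P.W.D1 + (P.p.k + P.q.k) ∉ Zf P := nm_ev hZ hA .D1 (rk_le (by decide +kernel))
    (fun P => P.p.k + P.q.k) fun P P' h => agr_k h (rk_le (by decide +kernel))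
  have d4 : ∀ᶠ P in gP z B, P.W.t1 + (P.p.lk + P.q.lk) ∉ Zf P := nm_ev hZ hA .t1 (rk_le (by decide +kernel))
    (fun P => P.p.lk + P.q.lk) fun P P' h => agr_lk h (rk_le (by decide +kernel))
  have d5 : ∀ᶠ P in gP z B, P.Wc.D0 + -(P.p.k + P.q.k) ∉ Zf P := nm_ev hZ hA .cD0 (rk_le (by decide +kernel))
    (fun P => -(P.p.k + P.q.k)) fun P P' h => by
      show -(P'.p.k + P'.q.k) = -(P.p.k + P.q.k)
      rw [agr_k h (rk_le (by decide +kernel))]
  have d6 : ∀ᶠ P in gP z B, P.Wc.D1 + (P.p.k + P.q.k) ∉ Zf P := nm_ev hZ hA .cD1 (rk_le (by decide +kernel))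
    (fun P => P.p.k + P.q.k) fun P P' h => agr_k h (rk_le (by decide +kernel))
  have d7 : ∀ᶠ P in gP z B, P.Wc.t1 + (P.p.lk + P.q.lk) ∉ Zf P := nm_ev hZ hA .ct1 (rk_le (by decide +kernel))
    (fun P => P.p.lk + P.q.lk) fun P P' h => agr_lk h (rk_le (by decide +kernel))
  filter_upwards [b1, b2, b3, b4, b5, b6, c1, c2, c3, c4, c5, c6, c7, d1, d2, d4, d5, d6, d7, gP_win] with P b1 b2 b3 b4 b5 b6
    c1 c2 c3 c4 c5 c6 c7 d1 d2 d4 d5 d6 d7 hw
  have h0 : ∀ {x : ℝ}, x = P.Wc.t0 → ¬ 0 < x := fun hx => by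
    rw [hx, hw.c0]
    exact lt_irrefl 0
  exact ⟨b1, b2, b3, b4, b5, b6, ⟨c1, c2, fun _ => c3, c4⟩, ⟨c5, c6, fun h => absurd h (h0 rfl), c7⟩,
    ⟨by rwa [← sub_eq_add_neg] at d1, d2, fun _ => c3, d4⟩,
    ⟨by rwa [← sub_eq_add_neg] at d5, d6, fun h => absurd h (h0 rfl), d7⟩⟩

end av

/-! ### 2. Soft conditions -/

section sft

variable {z : ℂ} {B : Bx} {A : Type*} {R R' Q Q' : A → Prm → Prop}

/-- **a soft condition** `Q a` over the objects `a` (given by the earlier coordinates, `R a P`) : it holds for all data in the windows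
with the same earlier coordinates, the soft numbers of which avoid a null set -/
def Sft (z : ℂ) (B : Bx) {A : Type*} (R Q : A → Prm → Prop) : Prop :=
  ∀ a P, B.In z P → R a P → ∃ Z : Set ℝ, volume Z = 0 ∧ ∀ P', B.In z P' → Agr fs P P' → PAv P' Z → Q a P'

lemma Sft.and (h : Sft z B R Q) (h' : Sft z B R Q') : Sft z B R fun a P => Q a P ∧ Q' a P := by
  intro a P hP hR
  obtain ⟨Z, h1, h2⟩ := h a P hP hR
  obtain ⟨Z', h3, h4⟩ := h' a P hP hR
  exact ⟨Z ∪ Z', measure_union_null h1 h3, fun P' hP' hA hv =>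
    ⟨h2 P' hP' hA (hv.mono subset_union_left), h4 P' hP' hA (hv.mono subset_union_right)⟩⟩

/-- countably many soft conditions -/
lemma Sft.all {J : Type*} [Countable J] {Q : J → A → Prm → Prop} (h : ∀ j, Sft z B R (Q j)) : Sft z B R fun a P => ∀ j, Q j a P := by
  intro a P hP hR
  choose Z h1 h2 using fun j => h j a P hP hR
  exact ⟨⋃ j, Z j, measure_iUnion_null h1, fun P' hP' hA hv j => h2 j P' hP' hA (hv.mono (subset_iUnion Z j))⟩

lemma Sft.mono (h : Sft z B R Q) (hQ : ∀ a P, B.In z P → Q a P → Q' a P) : Sft z B R Q' := by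
  intro a P hP hR
  obtain ⟨Z, h1, h2⟩ := h a P hP hR
  exact ⟨Z, h1, fun P' hP' hA hv => hQ a P' hP' (h2 P' hP' hA hv)⟩

lemma Sft.weak (h : Sft z B R Q) (hR : ∀ a P, R' a P → R a P) : Sft z B R' Q := fun a P hP h' => h a P hP (hR a P h')

/-- **generic soft numbers, given objects of the earlier coordinates** (the object `a` is the same in both conditions) -/
theorem sft_ev (hR : ∀ᶠ P in gP z B, ∃ a, R a P) (hRe : ∀ a (P P' : Prm), Agr fs P P' → R a P → R a P') (h : Sft z B R Q) :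
    ∀ᶠ P in gP z B, ∃ a, R a P ∧ Q a P := by
  obtain ⟨S, hS⟩ : ∃ S : Prm → Set (A × Prm), S = fun P => {x | B.In z x.2 ∧ Agr fs P x.2 ∧ R x.1 x.2} := ⟨_, rfl⟩
  have eS : ∀ P P' : Prm, Agr fs P P' → S P' = S P := by
    intro P P' hA
    rw [hS]
    ext x
    constructor
    · rintro ⟨h1, h2, h3⟩
      exact ⟨h1, hA.trans h2, h3⟩
    · rintro ⟨h1, h2, h3⟩
      exact ⟨h1, hA.symm.trans h2, h3⟩
  have key : ∀ T : Set (A × Prm), ∃ Z : Set ℝ, volume Z = 0 ∧ ((∃ x ∈ T, B.In z x.2 ∧ R x.1 x.2) →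
      ∃ x ∈ T, ∀ P' : Prm, B.In z P' → Agr fs x.2 P' → PAv P' Z → Q x.1 P') := by
    intro T
    by_cases hT : ∃ x ∈ T, B.In z x.2 ∧ R x.1 x.2
    · obtain ⟨x, h1, h2, h3⟩ := hT
      obtain ⟨Z, h4, h5⟩ := h x.1 x.2 h2 h3
      exact ⟨Z, h4, fun _ => ⟨x, h1, h5⟩⟩
    · exact ⟨∅, measure_empty, fun h' => absurd h' hT⟩
  choose pick hp1 hp2 using key
  have h1 : ∀ᶠ P in gP z B, PAv P (pick (S P)) := pav_ev (Zf := fun P => pick (S P)) (fun P => hp1 _) fun P P' hA => by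
    show pick (S P') = pick (S P)
    rw [eS P P' hA]
  filter_upwards [h1, hR, gP_win] with P h2 ⟨a, ha⟩ hP
  have hm : ((a, P) : A × Prm) ∈ S P := by
    rw [hS]
    exact ⟨hP, ⟨rfl, rfl, fun _ _ => rfl⟩, ha⟩
  obtain ⟨x, h3, h4⟩ := hp2 (S P) ⟨(a, P), hm, hP, ha⟩
  rw [hS] at h3
  obtain ⟨h5, h6, h7⟩ := h3
  exact ⟨x.1, hRe _ _ _ h6.symm h7, h4 P hP h6.symm h2⟩

/-- the same without objects -/
theorem sft_ev1 {Q : Prm → Prop}
    (h : ∀ P, B.In z P → ∃ Z : Set ℝ, volume Z = 0 ∧ ∀ P', B.In z P' → Agr fs P P' → PAv P' Z → Q P') : ∀ᶠ P in gP z B, Q P := by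
  have h1 : ∀ᶠ P in gP z B, ∃ _ : Unit, True ∧ Q P :=
    sft_ev (R := fun _ _ => True) (Q := fun _ P => Q P) (Eventually.of_forall fun _ => ⟨(), trivial⟩) (fun _ _ _ _ h => h)
      fun _ P hP _ => h P hP
  exact h1.mono fun P ⟨_, _, h⟩ => h

end sft

/-! ### 3. Selectors -/

/-- a gate of the data -/
structure GS (T : Prm → Tp) : Prop where
  same : ∀ {P P' : Prm}, Agr fs P P' → (T P).Same (T P')
  av : ∀ {P : Prm} {Z : Set ℝ}, PAv P Z → (T P).Av Z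
  co : ∀ {P : Prm}, P.Ok → (T P).Co

/-- a window of the data -/
structure WS (W : Prm → Wn) : Prop where
  av : ∀ {P : Prm} {Z : Set ℝ}, PAv P Z → (W P).Av Z

/-- an end of the data -/
structure ES (E : Prm → En) : Prop where
  n : GS fun P => (E P).n
  f : GS fun P => (E P).f
  kc : ∀ {P P' : Prm}, Agr fs P P' → (E P').kc = (E P).kc
  hw : ∀ {P P' : Prm}, Agr fs P P' → (E P').s.hw - (E P').s.e = (E P).s.hw - (E P).s.e
  len : ∀ {P P' : Prm}, Agr fs P P' → (E P').s.len - (E P').s.e = (E P).s.len - (E P).s.e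
  bn : ∀ {P P' : Prm}, Agr fs P P' → (E P').s.bn + (E P').s.e = (E P).s.bn + (E P).s.e
  av : ∀ {P : Prm} {Z : Set ℝ}, PAv P Z → EAv (E P) Z

lemma gs_of {t : Tf → Fd} {T : Prm → Tp} (ht : ∀ (t' : Tf) P, (t t').get P = t'.get (T P)) (h1 : (t .cs).rk < fs.rk)
    (h2 : (t .c).rk < fs.rk) (h3 : (t .r0).rk < fs.rk) (h4 : (t .κs).rk < fs.rk) {P P' : Prm} (h : Agr fs P P') :
    (T P).Same (T P') := by
  have e1 := h.g _ h1
  have e2 := h.g _ h2
  have e3 := h.g _ h3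
  have e4 := h.g _ h4
  rw [ht, ht] at e1 e2 e3 e4
  exact ⟨e1, e2, e3, e4⟩

lemma gs_pn : GS fun P => P.p.n :=
  ⟨fun h => gs_of (t := fun t => .p (.n t)) (T := fun P => P.p.n) (fun _ _ => rfl) (rk_lt (by decide +kernel)) (rk_lt (by decide +kernel))
    (rk_lt (by decide +kernel)) (rk_lt (by decide +kernel)) h, fun h => h.pn, fun h => h.p.n.co⟩

lemma gs_qn : GS fun P => P.q.n :=
  ⟨fun h => gs_of (t := fun t => .q (.n t)) (T := fun P => P.q.n) (fun _ _ => rfl) (rk_lt (by decide +kernel)) (rk_lt (by decide +kernel))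
    (rk_lt (by decide +kernel)) (rk_lt (by decide +kernel)) h, fun h => h.qn, fun h => h.q.n.co⟩

lemma gs_pf : GS fun P => P.p.f :=
  ⟨fun h => gs_of (t := fun t => .p (.f t)) (T := fun P => P.p.f) (fun _ _ => rfl) (rk_lt (by decide +kernel)) (rk_lt (by decide +kernel))
    (rk_lt (by decide +kernel)) (rk_lt (by decide +kernel)) h, fun h => h.pf, fun h => h.p.f.co⟩

lemma gs_qf : GS fun P => P.q.f :=
  ⟨fun h => gs_of (t := fun t => .q (.f t)) (T := fun P => P.q.f) (fun _ _ => rfl) (rk_lt (by decide +kernel)) (rk_lt (by decide +kernel))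
    (rk_lt (by decide +kernel)) (rk_lt (by decide +kernel)) h, fun h => h.qf, fun h => h.q.f.co⟩

lemma ws_W : WS fun P => P.W := ⟨fun h => h.W⟩
lemma ws_Wc : WS fun P => P.Wc := ⟨fun h => h.Wc⟩
lemma ws_wW : WS fun P => P.wd P.W := ⟨fun h => h.wW⟩
lemma ws_wWc : WS fun P => P.wd P.Wc := ⟨fun h => h.wWc⟩

lemma es_of {t : Ef → Fd} {E : Prm → En} (ht : ∀ (t' : Ef) P, (t t').get P = t'.get (E P)) (gn : GS fun P => (E P).n)
    (gf : GS fun P => (E P).f) (h1 : (t .kc).rk < fs.rk) (h2 : (t (.f .l)).rk < fs.rk) (h3 : (t (.f .m)).rk < fs.rk)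
    (h4 : (t .shw).rk < fs.rk) (h5 : (t .slen).rk < fs.rk) (h6 : (t .sbn).rk < fs.rk)
    (hv : ∀ {P : Prm} {Z : Set ℝ}, PAv P Z → EAv (E P) Z) : ES E := by
  refine ⟨gn, gf, fun {P P'} h => ?_, fun {P P'} h => ?_, fun {P P'} h => ?_, fun {P P'} h => ?_, hv⟩
  · have e1 := h.g _ h1
    have e2 := h.g _ h2
    have e3 := h.g _ h3
    rw [ht, ht] at e1 e2 e3
    have e1' : (E P').kc - ((E P').f.l + (E P').f.m) = (E P).kc - ((E P).f.l + (E P).f.m) := e1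
    have e2' : (E P').f.l = (E P).f.l := e2
    have e3' : (E P').f.m = (E P).f.m := e3
    rw [e2', e3'] at e1'
    linarith
  · have e1 := h.g _ h4
    rw [ht, ht] at e1
    exact e1
  · have e1 := h.g _ h5
    rw [ht, ht] at e1
    exact e1
  · have e1 := h.g _ h6
    rw [ht, ht] at e1
    exact e1

lemma es_p : ES fun P => P.p :=
  es_of (t := fun t => .p t) (fun _ _ => rfl) gs_pn gs_pf (rk_lt (by decide +kernel)) (rk_lt (by decide +kernel)) (rk_lt (by decide +kernel))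
    (rk_lt (by decide +kernel)) (rk_lt (by decide +kernel)) (rk_lt (by decide +kernel)) fun h => h.p

lemma es_q : ES fun P => P.q :=
  es_of (t := fun t => .q t) (fun _ _ => rfl) gs_qn gs_qf (rk_lt (by decide +kernel)) (rk_lt (by decide +kernel)) (rk_lt (by decide +kernel))
    (rk_lt (by decide +kernel)) (rk_lt (by decide +kernel)) (rk_lt (by decide +kernel)) fun h => h.q

/-! ### 4. The soft conditions of the classes -/

section cls

variable {z : ℂ} {B : Bx} {A : Type*} {R : A → Prm → Prop} {PG : A → Measure CC.Gm} {Bf : A → Set CC.Gm} {u : A → CC.Gm → Fin 8 → I}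
  {i j : Fin 3}

/-- **lattice 0**: the class with the strands `i`, `j`, all windows -/
theorem sft_D0 (hB : ∀ P, B.In z P → P.Ok) (hij : i ≠ j) (hν : ∀ a P, R a P → IsFiniteMeasure (PG a))
    (hu : ∀ a P, R a P → ∀ k, Measurable fun y => u a y k) :
    Sft z B R fun a P => ∀ W W' : Wn, (W = P.W ∨ W = P.Wc) → (W' = P.W ∨ W' = P.Wc) → ClsN (PG a) (Bf a) (D0 P i j W W') (u a) := by
  intro a P hP hR
  have := hν a P hR
  obtain ⟨Z, hZ, h⟩ := clsN_gen (PG := PG a) (B := Bf a) (D0_ok (hB P hP) hij (Or.inl rfl) (Or.inl rfl)) (hu a P hR)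
  refine ⟨Z, hZ.measure_zero _, fun P' _ hA hv W W' hW hW' => ?_⟩
  have hw : ∀ V : Wn, V = P'.W ∨ V = P'.Wc → (P'.wd V).Av Z := by
    rintro V (rfl | rfl)
    · exact hv.wW
    · exact hv.wWc
  exact h (D0 P' i j W W') ⟨gs_pn.same hA, gs_qn.same hA, rfl, rfl, rfl, rfl⟩ ⟨hv.pn, hv.qn, hw W hW, hw W' hW'⟩

/-- **rotated lattice**: the class with the strands `i`, `j`, all windows, all thresholds -/
theorem sft_DR (hB : ∀ P, B.In z P → P.Ok) (hij : i ≠ j) (hν : ∀ a P, R a P → IsFiniteMeasure (PG a))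
    (hu : ∀ a P, R a P → ∀ k, Measurable fun y => u a y k) :
    Sft z B R fun a P => ∀ W W' : Wn, (W = P.W ∨ W = P.Wc) → (W' = P.W ∨ W' = P.Wc) → ∀ y1 y2 y3 y4 : ℝ,
      ClsN (PG a) (Bf a) (DR P i j W W' y1 y2 y3 y4) (u a) := by
  intro a P hP hR
  have := hν a P hR
  obtain ⟨Z, hZ, h⟩ := clsN_gen (PG := PG a) (B := Bf a) (DR_ok (hB P hP) hij (Or.inl rfl) (Or.inl rfl) le_rfl le_rfl le_rfl le_rfl)
    (hu a P hR)
  refine ⟨Z, hZ.measure_zero _, fun P' _ hA hv W W' hW hW' y1 y2 y3 y4 => ?_⟩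
  have hw : ∀ V : Wn, V = P'.W ∨ V = P'.Wc → V.Av Z := by
    rintro V (rfl | rfl)
    · exact hv.W
    · exact hv.Wc
  exact h (DR P' i j W W' y1 y2 y3 y4) ⟨gs_pf.same hA, gs_qf.same hA, rfl, rfl, rfl, rfl⟩ ⟨hv.pf, hv.qf, hw W hW, hw W' hW'⟩

end cls

/-! ### 5. The soft conditions of the pieces -/

section pcs

variable {z : ℂ} {B : Bx} {A : Type*} {R : A → Prm → Prop} {X : Type*} [MeasurableSpace X] {ν : A → Measure X} {D : A → Set X}
  {d d' : A → ℂ} {g : A → X → C(I, ℂ)} {L : A → X → ℝ} {m1 m2 m3 : A → X → I}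

/-- **strips** -/
theorem sft_nr {E : Prm → En} (hE : ES E) (hν : ∀ a P, R a P → IsFiniteMeasure (ν a)) (hd : ∀ a P, R a P → ‖d a‖ = 1)
    (hg : ∀ a P, R a P → Measurable (g a)) (h1 : ∀ a P, R a P → Measurable (m1 a)) (h2 : ∀ a P, R a P → Measurable (m2 a)) :
    Sft z B R fun a P => NrN (ν a) (D a) (d a) (E P).s (g a) (m1 a) (m2 a) := by
  intro a P _ hR
  have := hν a P hR
  obtain ⟨Z, hZ, h⟩ := nrN_gen (ν := ν a) (B := D a) (E P).s (hd a P hR) (hg a P hR) (h1 a P hR) (h2 a P hR)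
  exact ⟨Z, hZ.measure_zero _, fun P' _ hA hv => h _ (hE.hw hA) (hE.len hA) (hE.bn hA) (hE.av hv).se⟩

/-- **pieces `k`** -/
theorem sft_kc (hB : ∀ P, B.In z P → P.Ok) {E : Prm → En} (hE : ES E) (hν : ∀ a P, R a P → IsFiniteMeasure (ν a))
    (hd : ∀ a P, R a P → ‖d a‖ = 1) (hd' : ∀ a P, R a P → ‖d' a‖ = 1) (hg : ∀ a P, R a P → Measurable (g a))
    (hL : ∀ a P, R a P → Measurable (L a)) (h1 : ∀ a P, R a P → Measurable (m1 a)) (h2 : ∀ a P, R a P → Measurable (m2 a))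
    (h3 : ∀ a P, R a P → Measurable (m3 a)) :
    Sft z B R fun a P => KcN (ν a) (D a) (d a) (d' a) (E P) (g a) (L a) (m1 a) (m2 a) (m3 a) := by
  intro a P hP hR
  have := hν a P hR
  obtain ⟨Z, hZ, h⟩ := kcN_gen (ν := ν a) (B := D a) (E := E P) (hE.n.co (hB P hP)) (hE.f.co (hB P hP)) (hd a P hR) (hd' a P hR)
    (hg a P hR) (hL a P hR) (h1 a P hR) (h2 a P hR) (h3 a P hR)
  exact ⟨Z, hZ.measure_zero _, fun P' _ hA hv => h _ (hE.n.same hA).c (hE.f.same hA).c (hE.kc hA) (hE.f.av hv) (hE.av hv).rk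
    (hE.av hv).κk (hE.av hv).ek (hE.av hv).kr (hE.av hv).lk⟩

/-- **gates** -/
theorem sft_tp (hB : ∀ P, B.In z P → P.Ok) {T : Prm → Tp} (hT : GS T) (hν : ∀ a P, R a P → IsFiniteMeasure (ν a))
    (hd : ∀ a P, R a P → ‖d a‖ = 1) (hg : ∀ a P, R a P → Measurable (g a)) (hL : ∀ a P, R a P → Measurable (L a))
    (h1 : ∀ a P, R a P → Measurable (m1 a)) (h2 : ∀ a P, R a P → Measurable (m2 a)) (h3 : ∀ a P, R a P → Measurable (m3 a)) :
    Sft z B R fun a P => TpN (ν a) (D a) (d a) (T P) (g a) (L a) (m1 a) (m2 a) (m3 a) := by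
  intro a P hP hR
  have := hν a P hR
  obtain ⟨Z, hZ, h⟩ := tpN_gen (ν := ν a) (B := D a) (P := T P) (hT.co (hB P hP)) (hd a P hR) (hg a P hR) (hL a P hR) (h1 a P hR)
    (h2 a P hR) (h3 a P hR)
  exact ⟨Z, hZ.measure_zero _, fun P' _ hA hv => h _ (hT.same hA) (hT.av hv)⟩

/-- **wedges** -/
theorem sft_wd (hB : ∀ P, B.In z P → P.Ok) {T : Prm → Tp} (hT : GS T) (hν : ∀ a P, R a P → IsFiniteMeasure (ν a))
    (hd : ∀ a P, R a P → ‖d a‖ = 1) (hd' : ∀ a P, R a P → ‖d' a‖ = 1) (hg : ∀ a P, R a P → Measurable (g a))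
    (h1 : ∀ a P, R a P → Measurable (m1 a)) (h2 : ∀ a P, R a P → Measurable (m2 a)) :
    Sft z B R fun a P => WdN (ν a) (D a) (d a) (d' a) (T P).w (T P).cs (T P).κs (g a) (m1 a) (m2 a) := by
  intro a P hP hR
  have := hν a P hR
  obtain ⟨Z, hZ, h⟩ := wdN_gen (ν := ν a) (B := D a) (P := T P) (hT.co (hB P hP)) (hd a P hR) (hd' a P hR) (hg a P hR) (h1 a P hR)
    (h2 a P hR)
  exact ⟨Z, hZ.measure_zero _, fun P' _ hA hv => h _ (hT.same hA) (hT.av hv)⟩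

/-- **rests** -/
theorem sft_rs (hB : ∀ P, B.In z P → P.Ok) {T T' : Prm → Tp} (hT : GS T) (hT' : GS T') {W : Prm → Wn} (hW : WS W)
    (hν : ∀ a P, R a P → IsFiniteMeasure (ν a)) (hd : ∀ a P, R a P → ‖d a‖ = 1) (hd' : ∀ a P, R a P → ‖d' a‖ = 1)
    (hg : ∀ a P, R a P → Measurable (g a)) (hL : ∀ a P, R a P → Measurable (L a)) (h1 : ∀ a P, R a P → Measurable (m1 a))
    (h2 : ∀ a P, R a P → Measurable (m2 a)) :
    Sft z B R fun a P => RsN (ν a) (D a) (d a) (d' a) (T P) (T' P) (W P) (g a) (L a) (m1 a) (m2 a) := by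
  intro a P hP hR
  have := hν a P hR
  obtain ⟨Z, hZ, h⟩ := rsN_gen (ν := ν a) (B := D a) (P := T P) (Q := T' P) (hT.co (hB P hP)) (hT'.co (hB P hP)) (hd a P hR)
    (hd' a P hR) (hg a P hR) (hL a P hR) (h1 a P hR) (h2 a P hR)
  exact ⟨Z, hZ.measure_zero _, fun P' _ hA hv => h _ _ _ (hT.same hA) (hT'.same hA) (hT.av hv) (hT'.av hv) (hW.av hv)⟩

end pcs

end Pool.Agent.ROT.F3.Gn
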