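import Pool.Agent.ROT.F3GenCN
import Pool.Agent.ROT.F3K3Z

/-!
# ROT, block F3, row GEN (helper71): the soft fields of the package `PkI` of helper2, in the filter `gP`

* `sft_cl0`, `sft_clR` : `ClN` of the classes of both lattices; `sft_mn` : `MnN` (both ends);
* **`sft_pk`** : the fields `n0`, `nR`, `nl`, `mR`, `ml` of `PkI` for all the pairs, as ONE soft condition.
-/

set_option autoImplicit false
set_option linter.unusedSectionVars false

open MeasureTheory Filter Set unitInterval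

namespace Pool.Agent.ROT.F3.Gn

open CK

lemma phi8_ms {G : Ga} (h : G.Ms) (k : Fin 8) : Measurable fun y => pji (phi8 G.B G.c G.x y k) := by
  refine pji_cont.measurable.comp ?_
  have hB : MeasurableSet (⋂ k, G.B k) := by
    have e : (⋂ k, G.B k) = (G.B .fp ∩ G.B .bp) ∩ (G.B .bq ∩ G.B .fq) := by
      ext y
      simp only [mem_iInter, mem_inter_iff]
      refine ⟨fun h => ⟨⟨h _, h _⟩, h _, h _⟩, fun h k => ?_⟩
      cases k
      · exact h.1.1
      · exact h.2.1
      · exact h.2.2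
      · exact h.1.2
    rw [e]
    exact ((h.B _).inter (h.B _)).inter ((h.B _).inter (h.B _))
  refine (LF.bi_ms hB).mul ?_
  have h1 := h.c .fp
  have h2 := h.c .bp
  have h3 := h.c .bq
  have h4 := h.c .fq
  have h5 := h.x .fp
  have h6 := h.x .bp
  have h7 := h.x .bq
  have h8 := h.x .fq
  have hm := muG_meas
  fin_cases k
  · exact h1.mul hm
  · exact h5.mul hm
  · exact hm.sub (h7.mul hm)
  · exact hm.sub (h3.mul hm)
  · exact hm.add (h4.mul (measurable_const.sub hm))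
  · exact hm.add (h8.mul (measurable_const.sub hm))
  · exact measurable_const.sub (h6.mul (measurable_const.sub hm))
  · exact measurable_const.sub (h2.mul (measurable_const.sub hm))

lemma wnA_or (P : Prm) (a : Fin 3) : wnA P a = P.W ∨ wnA P a = P.Wc := by
  unfold wnA
  split_ifs
  · exact Or.inl rfl
  · exact Or.inr rfl

section

variable {z : ℂ} {B : Bx} {A : Type*} {R : A → Prm → Prop} {PG : Measure CC.Gm} {i j : Fin 3}

/-- lattice 0 -/
theorem sft_cl0 [IsFiniteMeasure PG] (hB : ∀ P, B.In z P → P.Ok) (hij : i ≠ j) {G : A → Ga} (hG : ∀ a P, R a P → (G a).Ms) :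
    Sft z B R fun a P => ClN PG (jD0 P i j) (G a) := by
  have h := sft_D0 (R := R) (PG := fun _ => PG) (Bf := fun a => ⋂ k, (G a).B k)
    (u := fun a y k => pji (phi8 (G a).B (G a).c (G a).x y k)) hB hij (fun _ _ _ => inferInstance) fun a P hR k => phi8_ms (hG a P hR) k
  exact h.mono fun a P hP h1 => (h1 _ _ (wnA_or P i) (wnA_or P j)).h0 (D0_ok (hB P hP) hij (wnA_or P i) (wnA_or P j))

/-- rotated lattice -/
theorem sft_clR [IsFiniteMeasure PG] (hB : ∀ P, B.In z P → P.Ok) (hij : i ≠ j) {G : A → Ga} (hG : ∀ a P, R a P → (G a).Ms) :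
    Sft z B R fun a P => ClN PG (jDR P i j) (G a) := by
  have h := sft_DR (R := R) (PG := fun _ => PG) (Bf := fun a => ⋂ k, (G a).B k)
    (u := fun a y k => pji (phi8 (G a).B (G a).c (G a).x y k)) hB hij (fun _ _ _ => inferInstance) fun a P hR k => phi8_ms (hG a P hR) k
  exact h.mono fun a P hP h1 => (h1 _ _ (wnA_or P i) (wnA_or P j) 0 0 0 0).h0
    (DR_ok (hB P hP) hij (wnA_or P i) (wnA_or P j) le_rfl le_rfl le_rfl le_rfl)

/-- main arcs -/
theorem sft_mn [IsFiniteMeasure PG] (hB : ∀ P, B.In z P → P.Ok) (hij : i ≠ j) {G : A → Ga} (hG : ∀ a P, R a P → (G a).Ms) :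
    Sft z B R fun a P => MnN PG (jDR P i j) P.p.s P.q.s (G a) := by
  have hg : Measurable fun y : CC.Gm => y.2.2 := by fun_prop
  have h1 := sft_nr (z := z) (B := B) (R := R) (ν := fun _ => PG) (D := fun a => ⋂ k, (G a).B k) (d := fun _ => ev i)
    (g := fun _ y => y.2.2) (m1 := fun a y => pji (phi8 (G a).B (G a).c (G a).x y 1))
    (m2 := fun a y => pji (phi8 (G a).B (G a).c (G a).x y 2)) es_p (fun _ _ _ => inferInstance) (fun _ _ _ => ev_norm _)
    (fun _ _ _ => hg) (fun a P hR => phi8_ms (hG a P hR) 1) fun a P hR => phi8_ms (hG a P hR) 2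
  have h2 := sft_nr (z := z) (B := B) (R := R) (ν := fun _ => PG) (D := fun a => ⋂ k, (G a).B k) (d := fun _ => ev (-i))
    (g := fun _ y => y.2.2) (m1 := fun a y => pji (phi8 (G a).B (G a).c (G a).x y 2))
    (m2 := fun a y => pji (phi8 (G a).B (G a).c (G a).x y 1)) es_q (fun _ _ _ => inferInstance) (fun _ _ _ => ev_norm _)
    (fun _ _ _ => hg) (fun a P hR => phi8_ms (hG a P hR) 2) fun a P hR => phi8_ms (hG a P hR) 1
  refine (h1.and h2).mono fun a P hP h3 => ?_
  exact hM (D := jDR P i j) (u := fun y k => pji (phi8 (G a).B (G a).c (G a).x y k))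
    (DR_ok (hB P hP) hij (wnA_or P i) (wnA_or P j) le_rfl le_rfl le_rfl le_rfl) h3.1 h3.2

/-- **the soft fields of `PkI`**, all the pairs -/
theorem sft_pk [IsFiniteMeasure PG] (hB : ∀ P, B.In z P → P.Ok) {G0 H : A → Fin 3 → Fin 3 → Ga} {Hl : A → Fin 3 → Fin 3 → ℕ → ℕ → Ga}
    (h0 : ∀ a P, R a P → ∀ i j, (G0 a i j).Ms) (hH : ∀ a P, R a P → ∀ i j, (H a i j).Ms)
    (hl : ∀ a P, R a P → ∀ i j m n, (Hl a i j m n).Ms) :
    Sft z B R fun a P => ∀ i j : Fin 3, i ≠ j → ClN PG (jD0 P i j) (G0 a i j) ∧ ClN PG (jDR P i j) (H a i j) ∧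
      (∀ m n, ClN PG (jDR P i j) (Hl a i j m n)) ∧ (i = 0 → MnN PG (jDR P i j) P.p.s P.q.s (H a i j)) ∧
      (i = 0 → ∀ m n, MnN PG (jDR P i j) P.p.s P.q.s (Hl a i j m n)) := by
  refine Sft.all fun i => Sft.all fun j => ?_
  by_cases hij : i = j
  · intro a P _ _
    exact ⟨∅, measure_empty, fun P' _ _ _ h => absurd hij h⟩
  · have s1 := sft_cl0 (R := R) (PG := PG) hB hij (G := fun a => G0 a i j) fun a P hR => h0 a P hR i j
    have s2 := sft_clR (R := R) (PG := PG) hB hij (G := fun a => H a i j) fun a P hR => hH a P hR i j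
    have s3 := Sft.all fun m => Sft.all fun n => sft_clR (R := R) (PG := PG) hB hij (G := fun a => Hl a i j m n) fun a P hR =>
      hl a P hR i j m n
    have s4 := sft_mn (R := R) (PG := PG) hB hij (G := fun a => H a i j) fun a P hR => hH a P hR i j
    have s5 := Sft.all fun m => Sft.all fun n => sft_mn (R := R) (PG := PG) hB hij (G := fun a => Hl a i j m n) fun a P hR =>
      hl a P hR i j m n
    exact (s1.and (s2.and (s3.and (s4.and s5)))).mono fun a P _ h _ =>
      ⟨h.1, h.2.1, h.2.2.1, fun _ => h.2.2.2.1, fun _ => h.2.2.2.2⟩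

/-- **the soft fields of `PkI`, eventually**, with the same objects -/
theorem sft_pk_ev [IsFiniteMeasure PG] (hB : ∀ P, B.In z P → P.Ok) {G0 H : A → Fin 3 → Fin 3 → Ga}
    {Hl : A → Fin 3 → Fin 3 → ℕ → ℕ → Ga} (hR : ∀ᶠ P in gP z B, ∃ a, R a P)
    (hRe : ∀ a (P P' : Prm), Agr fs P P' → R a P → R a P') (h0 : ∀ a P, R a P → ∀ i j, (G0 a i j).Ms)
    (hH : ∀ a P, R a P → ∀ i j, (H a i j).Ms) (hl : ∀ a P, R a P → ∀ i j m n, (Hl a i j m n).Ms) :
    ∀ᶠ P in gP z B, ∃ a, R a P ∧ ∀ i j : Fin 3, i ≠ j → ClN PG (jD0 P i j) (G0 a i j) ∧ ClN PG (jDR P i j) (H a i j) ∧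
      (∀ m n, ClN PG (jDR P i j) (Hl a i j m n)) ∧ (i = 0 → MnN PG (jDR P i j) P.p.s P.q.s (H a i j)) ∧
      (i = 0 → ∀ m n, MnN PG (jDR P i j) P.p.s P.q.s (Hl a i j m n)) :=
  sft_ev hR hRe (sft_pk hB h0 hH hl)

end

end Pool.Agent.ROT.F3.Gn
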