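import Pool.Agent.ROT.F3GenF

/-!
# ROT, block F3, row GEN (helper11): dense families of generic data

* `Nul W Q j` : the property `Q` is generic in the coordinate `j` (a null set given by the earlier coordinates is excluded);
* **`dense_fam`** : given the coordinates below `j` and countably many properties, generic in coordinates `≥ j`, there is a dense
  sequence of data with all the properties.
-/

set_option autoImplicit false

open MeasureTheory Filter Topology Set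

namespace Pool.Agent.ROT.F3.GP

/-- the property `Q` is generic in the coordinate `j` -/
def Nul (W Q : (ℕ → ℝ) → Prop) (j : ℕ) : Prop := ∀ x : ℕ → ℝ, W x → ∃ E : Set ℝ, volume E = 0 ∧ ∀ y : ℕ → ℝ, W y →
  (∀ i < j, y i = x i) → y j ∉ E → Q y

lemma Nul.all {W : (ℕ → ℝ) → Prop} {ι : Type*} [Countable ι] {Q : ι → (ℕ → ℝ) → Prop} {j : ℕ} (h : ∀ k, Nul W (Q k) j) :
    Nul W (fun x => ∀ k, Q k x) j := by
  intro x hx
  choose E hE hE1 using fun k => h k x hx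
  exact ⟨⋃ k, E k, measure_iUnion_null hE, fun y hy hyx hyE k => hE1 k y hy hyx fun h1 => hyE (mem_iUnion.2 ⟨k, h1⟩)⟩

lemma Nul.mono {W Q Q' : (ℕ → ℝ) → Prop} {j : ℕ} (h : Nul W Q j) (h1 : ∀ x, W x → Q x → Q' x) : Nul W Q' j := by
  intro x hx
  obtain ⟨E, hE, hE1⟩ := h x hx
  exact ⟨E, hE, fun y hy hyx hyE => h1 y hy (hE1 y hy hyx hyE)⟩

lemma Nul.weak {W W' Q : (ℕ → ℝ) → Prop} {j : ℕ} (h : Nul W Q j) (h1 : ∀ x, W' x → W x) : Nul W' Q j := by
  intro x hx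
  obtain ⟨E, hE, hE1⟩ := h x (h1 x hx)
  exact ⟨E, hE, fun y hy hyx hyE => hE1 y (h1 y hy) hyx hyE⟩

lemma ci_GN {F : ℕ → (ℕ → ℝ) → Filter ℝ} (h : ∀ n x, CountableInterFilter (F n x)) : ∀ n : ℕ, CountableInterFilter (GN F n)
  | 0 => ⟨fun S _ hS => by
      have h1 : ∀ s ∈ S, (0 : ℕ → ℝ) ∈ s := fun s hs => mem_pure.1 (hS s hs)
      exact mem_pure.2 (mem_sInter.2 h1)⟩
  | n + 1 => by
    have h1 := ci_GN h n
    refine ⟨fun S hSc hS => ?_⟩
    have h2 : ∀ s ∈ S, ∀ᶠ x in GN F n, ∀ᶠ v in F n x, Function.update x n v ∈ s := fun s hs => ev_GN.1 (hS s hs)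
    have h3 : ∀ᶠ x in GN F (n + 1), x ∈ ⋂₀ S := by
      rw [ev_GN]
      have h4 : ∀ᶠ x in GN F n, ∀ s ∈ S, ∀ᶠ v in F n x, Function.update x n v ∈ s := (eventually_countable_ball hSc).2 h2
      filter_upwards [h4] with x hx
      have := h n x
      have h5 : ∀ᶠ v in F n x, ∀ s ∈ S, Function.update x n v ∈ s := (eventually_countable_ball hSc).2 hx
      filter_upwards [h5] with v hv
      exact mem_sInter.2 hv
    exact h3

/-- a generic point in a small box, the coordinates below `j` are given; `Q k` is generic under `W` and the `Q k'`, `k' < k` -/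
lemma box_ptC {W : (ℕ → ℝ) → Prop} {n j : ℕ} {a b : ℕ → ℝ} {Q : ℕ → (ℕ → ℝ) → Prop} {r : ℕ → ℕ} (hr : ∀ k, j ≤ r k ∧ r k < n)
    (hQ : ∀ k, Nul (fun y => W y ∧ ∀ k' < k, Q k' y) (Q k) (r k)) (x : ℕ → ℝ) (hab : ∀ i, j ≤ i → i < n → a i < b i)
    (hW : ∀ y : ℕ → ℝ, (∀ i < j, i < n → y i = x i) → (∀ i, j ≤ i → i < n → a i ≤ y i ∧ y i ≤ b i) → W y) :
    ∃ y : ℕ → ℝ, (∀ i < j, i < n → y i = x i) ∧ (∀ i, j ≤ i → i < n → a i ≤ y i ∧ y i ≤ b i) ∧ ∀ k, Q k y := by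
  classical
  obtain ⟨F, hF⟩ : ∃ F : ℕ → (ℕ → ℝ) → Filter ℝ, F = fun i _ => if i < j then pure (x i) else if i < n then
      ae (volume.restrict (Icc (a i) (b i))) else ae volume := ⟨_, rfl⟩
  have F1 : ∀ i y, i < j → F i y = pure (x i) := fun i y h => by rw [hF]; exact if_pos h
  have F2 : ∀ i y, j ≤ i → i < n → F i y = ae (volume.restrict (Icc (a i) (b i))) := fun i y h h' => by
    rw [hF]
    show (if i < j then pure (x i) else if i < n then ae (volume.restrict (Icc (a i) (b i))) else ae volume) = _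
    rw [if_neg (by omega), if_pos h']
  have F3 : ∀ i y, j ≤ i → ¬ i < n → F i y = ae volume := fun i y h h' => by
    rw [hF]
    show (if i < j then pure (x i) else if i < n then ae (volume.restrict (Icc (a i) (b i))) else ae volume) = _
    rw [if_neg (by omega), if_neg h']
  have nb : ∀ i y, (F i y).NeBot := by
    intro i y
    rcases lt_or_ge i j with h | h
    · rw [F1 i y h]
      infer_instance
    · by_cases h' : i < n
      · rw [F2 i y h h', ae_neBot]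
        intro h0
        have h1 : (volume.restrict (Icc (a i) (b i))) univ = 0 := by rw [h0]; rfl
        rw [Measure.restrict_apply_univ, Real.volume_Icc] at h1
        have h2 := hab i h h'
        rw [ENNReal.ofReal_eq_zero] at h1
        linarith
      · rw [F3 i y h h']
        infer_instance
  have ci : ∀ i y, CountableInterFilter (F i y) := by
    intro i y
    rcases lt_or_ge i j with h | h
    · rw [F1 i y h]
      exact ⟨fun S _ hS => mem_pure.2 (mem_sInter.2 fun s hs => mem_pure.1 (hS s hs))⟩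
    · by_cases h' : i < n
      · rw [F2 i y h h']
        infer_instance
      · rw [F3 i y h h']
        infer_instance
  have := GN_nb nb n
  have := ci_GN ci n
  obtain ⟨I, hI⟩ : ∃ I : ℕ → (ℕ → ℝ) → Set ℝ, I = fun i _ => if i < j then {x i} else Icc (a i) (b i) := ⟨_, rfl⟩
  have I1 : ∀ i y, i < j → I i y = {x i} := fun i y h => by rw [hI]; exact if_pos h
  have I2 : ∀ i y, j ≤ i → I i y = Icc (a i) (b i) := fun i y h => by rw [hI]; exact if_neg (by omega)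
  have w1 : ∀ᶠ y in GN F n, ∀ i < n, y i ∈ I i y := by
    refine GN_win (fun i hi y => ?_) fun i _ y z _ => by rw [hI]
    rcases lt_or_ge i j with h | h
    · rw [F1 i y h, I1 i y h, eventually_pure]
      exact mem_singleton _
    · rw [F2 i y h hi, I2 i y h]
      exact ae_restrict_mem measurableSet_Icc
  have w2 : ∀ᶠ y in GN F n, (∀ i < j, i < n → y i = x i) ∧ ∀ i, j ≤ i → i < n → a i ≤ y i ∧ y i ≤ b i := by
    filter_upwards [w1] with y hy
    refine ⟨fun i hi hin => ?_, fun i hi hin => ?_⟩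
    · have := hy i hin
      rwa [I1 i y hi] at this
    · have := hy i hin
      rwa [I2 i y hi] at this
  have w3 : ∀ᶠ y in GN F n, W y := by
    filter_upwards [w2] with y hy using hW y hy.1 hy.2
  have w4 : ∀ k, ∀ᶠ y in GN F n, Q k y := by
    intro k
    induction k using Nat.strong_induction_on with
    | _ k ih =>
      have w5 : ∀ᶠ y in GN F n, ∀ k' ∈ Finset.range k, Q k' y := (eventually_all_finset _).2 fun k' hk' => ih k' (Finset.mem_range.1 hk')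
      have w6 : ∀ᶠ y in GN F n, W y ∧ ∀ k' < k, Q k' y := by
        filter_upwards [w3, w5] with y h1 h2
        exact ⟨h1, fun k' hk' => h2 k' (Finset.mem_range.2 hk')⟩
      refine GN_f (hr k).2 (fun y => ?_) w6 (hQ k)
      rw [F2 _ _ (hr k).1 (hr k).2]
      exact ae_mono Measure.restrict_le_self
  have w5 : ∀ᶠ y in GN F n, ∀ k, Q k y := eventually_countable_forall.2 w4
  obtain ⟨y, hy1, hy2⟩ := (w2.and w5).exists
  exact ⟨y, hy1.1, hy1.2, hy2⟩

/-- **dense families of generic data**; `Q k` is generic under `W` and the `Q k'`, `k' < k` -/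
theorem dense_famC {W : (ℕ → ℝ) → Prop} {n j : ℕ} (hjn : j ≤ n) {a b : ℕ → ℝ} {Q : ℕ → (ℕ → ℝ) → Prop} {r : ℕ → ℕ}
    (hr : ∀ k, j ≤ r k ∧ r k < n) (hQ : ∀ k, Nul (fun y => W y ∧ ∀ k' < k, Q k' y) (Q k) (r k)) (x : ℕ → ℝ) (hab : ∀ i < n, a i < b i)
    (hx : ∀ i < j, a i ≤ x i ∧ x i ≤ b i) (hW : ∀ y : ℕ → ℝ, (∀ i < n, a i ≤ y i ∧ y i ≤ b i) → W y) :
    ∃ QQ : ℕ → ℕ → ℝ, (∀ m, ∀ i < j, QQ m i = x i) ∧ (∀ m, ∀ i < n, a i ≤ QQ m i ∧ QQ m i ≤ b i) ∧ (∀ m k, Q k (QQ m)) ∧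
      ∀ y : ℕ → ℝ, (∀ i < j, y i = x i) → (∀ i < n, a i ≤ y i ∧ y i ≤ b i) → ∀ ε : ℝ, 0 < ε → ∃ m, ∀ i < n, |QQ m i - y i| < ε := by
  classical
  have key : ∀ (c : Fin n → ℚ) (δ : ℚ), ∃ z : ℕ → ℝ, (∀ i < j, z i = x i) ∧ (∀ i < n, a i ≤ z i ∧ z i ≤ b i) ∧ (∀ k, Q k z) ∧
      ∀ i (hi : i < n), j ≤ i → max (a i) (c ⟨i, hi⟩ - δ) < min (b i) (c ⟨i, hi⟩ + δ) → |z i - c ⟨i, hi⟩| ≤ δ := by
    intro c δ
    obtain ⟨a', ha'⟩ : ∃ a' : ℕ → ℝ, a' = fun i => if h : i < n then (if max (a i) (c ⟨i, h⟩ - δ) < min (b i) (c ⟨i, h⟩ + δ) then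
        max (a i) (c ⟨i, h⟩ - δ) else a i) else a i := ⟨_, rfl⟩
    obtain ⟨b', hb'⟩ : ∃ b' : ℕ → ℝ, b' = fun i => if h : i < n then (if max (a i) (c ⟨i, h⟩ - δ) < min (b i) (c ⟨i, h⟩ + δ) then
        min (b i) (c ⟨i, h⟩ + δ) else b i) else b i := ⟨_, rfl⟩
    have p1 : ∀ i (h : i < n), max (a i) (c ⟨i, h⟩ - δ) < min (b i) (c ⟨i, h⟩ + δ) → a' i = max (a i) (c ⟨i, h⟩ - δ) ∧
        b' i = min (b i) (c ⟨i, h⟩ + δ) := by
      intro i h h'
      rw [ha', hb']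
      constructor
      · show (if h : i < n then _ else _) = _
        rw [dif_pos h, if_pos h']
      · show (if h : i < n then _ else _) = _
        rw [dif_pos h, if_pos h']
    have p2 : ∀ i (h : i < n), ¬ max (a i) (c ⟨i, h⟩ - δ) < min (b i) (c ⟨i, h⟩ + δ) → a' i = a i ∧ b' i = b i := by
      intro i h h'
      rw [ha', hb']
      constructor
      · show (if h : i < n then _ else _) = _
        rw [dif_pos h, if_neg h']
      · show (if h : i < n then _ else _) = _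
        rw [dif_pos h, if_neg h']
    have p3 : ∀ i < n, a' i < b' i ∧ a i ≤ a' i ∧ b' i ≤ b i := by
      intro i hi
      by_cases h' : max (a i) (c ⟨i, hi⟩ - δ) < min (b i) (c ⟨i, hi⟩ + δ)
      · obtain ⟨e1, e2⟩ := p1 i hi h'
        rw [e1, e2]
        exact ⟨h', le_max_left _ _, min_le_left _ _⟩
      · obtain ⟨e1, e2⟩ := p2 i hi h'
        rw [e1, e2]
        exact ⟨hab i hi, le_rfl, le_rfl⟩
    obtain ⟨z, z1, z2, z3⟩ := box_ptC hr hQ x (a := a') (b := b') (fun i _ hi => (p3 i hi).1) (fun y hy1 hy2 => hW y fun i hi => by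
      rcases lt_or_ge i j with h | h
      · rw [hy1 i h hi]
        exact hx i h
      · have h1 := hy2 i h hi
        have h2 := p3 i hi
        exact ⟨h2.2.1.trans h1.1, h1.2.trans h2.2.2⟩)
    refine ⟨z, fun i hi => z1 i hi (by omega), fun i hi => ?_, z3, fun i hi hji h' => ?_⟩
    · rcases lt_or_ge i j with h | h
      · rw [z1 i h hi]
        exact hx i h
      · have h1 := z2 i h hi
        have h2 := p3 i hi
        exact ⟨h2.2.1.trans h1.1, h1.2.trans h2.2.2⟩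
    · obtain ⟨e1, e2⟩ := p1 i hi h'
      have h1 := z2 i hji hi
      rw [e1, e2] at h1
      have h2 := (le_max_right _ _).trans h1.1
      have h3 := h1.2.trans (min_le_right _ _)
      rw [abs_le]
      constructor <;> linarith
  choose z z1 z2 z3 z4 using key
  obtain ⟨e, he⟩ := exists_surjective_nat ((Fin n → ℚ) × ℚ)
  refine ⟨fun m => z (e m).1 (e m).2, fun m => z1 _ _, fun m => z2 _ _, fun m => z3 _ _, fun y hy1 hy2 ε hε => ?_⟩
  obtain ⟨δ, hδ1, hδ2⟩ := exists_rat_btwn (show (0 : ℝ) < ε / 2 by linarith)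
  have hc : ∀ i : Fin n, ∃ c : ℚ, |(c : ℝ) - y i| < δ / 2 := by
    intro i
    obtain ⟨c, hc1, hc2⟩ := exists_rat_btwn (show y i - δ / 2 < y i + δ / 2 by linarith)
    exact ⟨c, by rw [abs_lt]; constructor <;> linarith⟩
  choose c hc using hc
  obtain ⟨m, hm⟩ := he (c, δ)
  refine ⟨m, fun i hi => ?_⟩
  show |z (e m).1 (e m).2 i - y i| < ε
  rw [hm]
  show |z c δ i - y i| < ε
  rcases lt_or_ge i j with h | h
  · rw [z1 c δ i h, hy1 i h, sub_self, abs_zero]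
    exact hε
  · have h1 := abs_lt.1 (hc ⟨i, hi⟩)
    have h2 := hy2 i hi
    have h3 := hab i hi
    have h4 : |z c δ i - c ⟨i, hi⟩| ≤ δ := z4 c δ i hi h (by
      rw [max_lt_iff, lt_min_iff, lt_min_iff]
      have h5 : ((⟨i, hi⟩ : Fin n) : ℕ) = i := rfl
      rw [h5] at h1
      refine ⟨⟨h3, ?_⟩, ?_, ?_⟩ <;> linarith)
    have h5 := abs_le.1 h4
    have h6 : ((⟨i, hi⟩ : Fin n) : ℕ) = i := rfl
    rw [h6] at h1
    rw [abs_lt]
    constructor <;> linarith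

/-- a generic point in a small box -/
lemma box_pt {W : (ℕ → ℝ) → Prop} {n j : ℕ} {a b : ℕ → ℝ} {Q : ℕ → (ℕ → ℝ) → Prop} {r : ℕ → ℕ} (hr : ∀ k, j ≤ r k ∧ r k < n)
    (hQ : ∀ k, Nul W (Q k) (r k)) (x : ℕ → ℝ) (hab : ∀ i, j ≤ i → i < n → a i < b i)
    (hW : ∀ y : ℕ → ℝ, (∀ i < j, i < n → y i = x i) → (∀ i, j ≤ i → i < n → a i ≤ y i ∧ y i ≤ b i) → W y) :
    ∃ y : ℕ → ℝ, (∀ i < j, i < n → y i = x i) ∧ (∀ i, j ≤ i → i < n → a i ≤ y i ∧ y i ≤ b i) ∧ ∀ k, Q k y :=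
  box_ptC hr (fun k => (hQ k).weak fun _ h => h.1) x hab hW

/-- **dense families of generic data** -/
theorem dense_fam {W : (ℕ → ℝ) → Prop} {n j : ℕ} (hjn : j ≤ n) {a b : ℕ → ℝ} {Q : ℕ → (ℕ → ℝ) → Prop} {r : ℕ → ℕ}
    (hr : ∀ k, j ≤ r k ∧ r k < n) (hQ : ∀ k, Nul W (Q k) (r k)) (x : ℕ → ℝ) (hab : ∀ i < n, a i < b i)
    (hx : ∀ i < j, a i ≤ x i ∧ x i ≤ b i) (hW : ∀ y : ℕ → ℝ, (∀ i < n, a i ≤ y i ∧ y i ≤ b i) → W y) :
    ∃ QQ : ℕ → ℕ → ℝ, (∀ m, ∀ i < j, QQ m i = x i) ∧ (∀ m, ∀ i < n, a i ≤ QQ m i ∧ QQ m i ≤ b i) ∧ (∀ m k, Q k (QQ m)) ∧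
      ∀ y : ℕ → ℝ, (∀ i < j, y i = x i) → (∀ i < n, a i ≤ y i ∧ y i ≤ b i) → ∀ ε : ℝ, 0 < ε → ∃ m, ∀ i < n, |QQ m i - y i| < ε :=
  dense_famC hjn hr (fun k => (hQ k).weak fun _ h => h.1) x hab hx hW

end Pool.Agent.ROT.F3.GP
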