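import Mathlib

/-!
# ROT, block F3, row GEN (helper11, helper36): choice of finitely many numbers, one after the other

`GN F n` : the numbers `x 0`, .., `x (n - 1)` are chosen one after the other, `x i` along the filter `F i x` (`≤ ae volume`), which
depends on the earlier numbers. No measurability is needed.
* **`GN_f`** : a property which holds for `x j` off a null set given by the EARLIER numbers, whatever the later numbers are;
* `GN_win` : windows; `GN_e` : a property of the number `x j`, eventually along `F j`.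
-/

set_option autoImplicit false

open MeasureTheory Filter Topology Set

namespace Pool.Agent.ROT.F3.GP

/-- the choice of `n` numbers, one after the other -/
noncomputable def GN (F : ℕ → (ℕ → ℝ) → Filter ℝ) : ℕ → Filter (ℕ → ℝ)
  | 0 => pure 0
  | n + 1 => (GN F n).bind fun x => (F n x).map fun v => Function.update x n v

variable {F : ℕ → (ℕ → ℝ) → Filter ℝ}

lemma ev_GN {n : ℕ} {Q : (ℕ → ℝ) → Prop} : (∀ᶠ x in GN F (n + 1), Q x) ↔ ∀ᶠ x in GN F n, ∀ᶠ v in F n x, Q (Function.update x n v) := by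
  show (∀ᶠ x in (GN F n).bind fun x => (F n x).map fun v => Function.update x n v, Q x) ↔ _
  rw [eventually_bind]
  exact Iff.rfl

lemma GN_nb (h : ∀ n x, (F n x).NeBot) : ∀ n : ℕ, (GN F n).NeBot
  | 0 => by
    show (pure 0 : Filter (ℕ → ℝ)).NeBot
    infer_instance
  | n + 1 => by
    have h1 := GN_nb h n
    rw [neBot_iff]
    intro h2
    have h3 : ∀ᶠ _ in GN F (n + 1), False := by
      rw [h2]
      exact eventually_bot
    rw [ev_GN] at h3
    obtain ⟨x, hx⟩ := h3.exists
    have := h n x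
    exact hx.exists.choose_spec

/-- the later numbers do not matter -/
lemma GN_up {Q : (ℕ → ℝ) → Prop} {j : ℕ} (h : ∀ᶠ x in GN F j, ∀ y : ℕ → ℝ, (∀ i < j, y i = x i) → Q y) :
    ∀ n : ℕ, j ≤ n → ∀ᶠ x in GN F n, ∀ y : ℕ → ℝ, (∀ i < j, y i = x i) → Q y := by
  intro n hn
  induction n, hn using Nat.le_induction with
  | base => exact h
  | succ n hn ih =>
    rw [ev_GN]
    filter_upwards [ih] with x hx
    refine Eventually.of_forall fun v y hy => hx y fun i hi => ?_
    rw [hy i hi, Function.update_of_ne (by omega)]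

/-- a property of the number `x j` along `F j`, given by the earlier numbers -/
lemma GN_e {Q : (ℕ → ℝ) → Prop} {j n : ℕ} (hj : j < n)
    (h : ∀ c : ℕ → ℝ, ∀ᶠ v in F j c, ∀ y : ℕ → ℝ, (∀ i < j, y i = c i) → y j = v → Q y) : ∀ᶠ x in GN F n, Q x := by
  have h1 : ∀ᶠ x in GN F (j + 1), ∀ y : ℕ → ℝ, (∀ i < j + 1, y i = x i) → Q y := by
    rw [ev_GN]
    refine Eventually.of_forall fun c => ?_
    filter_upwards [h c] with v hv y hy
    refine hv y (fun i hi => ?_) ?_
    · rw [hy i (by omega), Function.update_of_ne (by omega)]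
    · rw [hy j (by omega), Function.update_self]
  filter_upwards [GN_up h1 n hj] with x hx
  exact hx x fun _ _ => rfl

/-- **windows** -/
lemma GN_win {I : ℕ → (ℕ → ℝ) → Set ℝ} {n : ℕ} (hF : ∀ j < n, ∀ x, ∀ᶠ v in F j x, v ∈ I j x)
    (hI : ∀ j < n, ∀ x y : ℕ → ℝ, (∀ i < j, y i = x i) → I j y = I j x) : ∀ᶠ x in GN F n, ∀ j < n, x j ∈ I j x := by
  have h1 : ∀ j : ℕ, ∀ᶠ x in GN F n, j < n → x j ∈ I j x := by
    intro j
    by_cases hj : j < n
    · have h2 : ∀ᶠ x in GN F n, x j ∈ I j x := by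
        refine GN_e hj fun c => ?_
        filter_upwards [hF j hj c] with v hv y hy hyv
        rw [hyv, hI j hj c y hy]
        exact hv
      filter_upwards [h2] with x hx _ using hx
    · exact Eventually.of_forall fun x h => absurd h hj
  have h3 : ∀ᶠ x in GN F n, ∀ j ∈ Finset.range n, j < n → x j ∈ I j x := (eventually_all_finset _).2 fun j _ => h1 j
  filter_upwards [h3] with x hx j hj
  exact hx j (Finset.mem_range.2 hj) hj

/-- **the choice of the number `x j` off a null set which is given by the earlier numbers**; `W` = windows -/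
lemma GN_f {W Q : (ℕ → ℝ) → Prop} {j n : ℕ} (hj : j < n) (hF : ∀ x, F j x ≤ ae volume) (hW : ∀ᶠ x in GN F n, W x)
    (h : ∀ x : ℕ → ℝ, W x → ∃ E : Set ℝ, volume E = 0 ∧ ∀ y : ℕ → ℝ, W y → (∀ i < j, y i = x i) → y j ∉ E → Q y) :
    ∀ᶠ x in GN F n, Q x := by
  have h1 : ∀ᶠ x in GN F n, W x → Q x := by
    refine GN_e hj fun c => ?_
    by_cases hc : ∃ x : ℕ → ℝ, W x ∧ ∀ i < j, x i = c i
    · obtain ⟨x, hx, hxc⟩ := hc
      obtain ⟨E, hE, hE1⟩ := h x hx
      have h2 : ∀ᶠ v in F j c, v ∉ E := hF c (measure_eq_zero_iff_ae_notMem.1 hE)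
      filter_upwards [h2] with v hv y hy hyv hWy
      exact hE1 y hWy (fun i hi => (hy i hi).trans (hxc i hi).symm) (by rwa [hyv])
    · exact Eventually.of_forall fun v y hy _ hWy => absurd ⟨y, hWy, hy⟩ hc
  filter_upwards [h1, hW] with x h2 h3 using h2 h3

/-- preimages of null sets under affine maps -/
lemma null_aff {E : Set ℝ} (hE : volume E = 0) {a : ℝ} (ha : a ≠ 0) (b : ℝ) : volume {v : ℝ | a * v + b ∈ E} = 0 := by
  have h1 : {v : ℝ | a * v + b ∈ E} = (fun v => a * v) ⁻¹' ((fun v => v + b) ⁻¹' E) := rfl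
  have h2 : volume ((fun v : ℝ => v + b) ⁻¹' E) = 0 := by
    rw [measure_preimage_add_right, hE]
  rw [h1, Real.volume_preimage_mul_left ha, h2, mul_zero]

/-- preimages of countable sets under affine maps -/
lemma cnt_aff {E : Set ℝ} (hE : E.Countable) {a : ℝ} (ha : a ≠ 0) (b : ℝ) : {v : ℝ | a * v + b ∈ E}.Countable :=
  hE.preimage (f := fun v : ℝ => a * v + b) fun x y h => by
    have h1 : a * x + b = a * y + b := h
    have h2 : a * x = a * y := by linarith
    exact mul_left_cancel₀ ha h2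

end Pool.Agent.ROT.F3.GP
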