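import Pool.Agent.ROT.F3K2F
import Pool.Agent.ROT.F3AI1
import Pool.Agent.ROT.F3GenP

/-!
# ROT / F3GenG2 (helper59): the gates at generic data, in helper36's filter `gP`

* `SGd` : the gates of a strand at the record `G` over the base `y` in the limit: `Gt1` of `c`, `Gt2` of `x` and of the cut `y`, `NoAt`, `T3L`;
* **`gate_lv`** : `gate_ev` with thresholds `max l (c a j)`; `SGd.ai1`, `ain_gd`;
* **`gate_ev`** : for the four coordinates `l, m, rg, th` of one record, eventually along `gP`: auxiliary radii exist with `SGd` for all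
  strands and bases of a countable family, which may depend on objects (`a : A`) chosen from the earlier coordinates.
-/

set_option autoImplicit false
set_option linter.unusedSectionVars false

open Filter MeasureTheory Topology Set

open scoped NNReal ENNReal BoundedContinuousFunction

namespace Pool.Agent.ROT.F3

open Pool.Agent.NTS.Res (step pos saw fug size curve)
open Pool.Agent.ROT.F (QB)
open Pool.Agent.CRT (CI)
open Pool.Agent.SCF.M Pool.Agent.SCF.Z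
open LF (Cv Lm Ev bi bi_pos bi_neg bi_and)
open Gn (Fd Agr Bx gP gP_f_of)

/-- **the gates of a strand in the limit** -/
structure SGd (U : Ultrafilter ℕ) (b : ℝ) (PG : Measure CC.Gm) (S : ℕ → ℝ) (c0 R R2 R3 : ℝ) (k : Arm) (T : LSym)
    (y : ℕ → W3 × ℕ → ℝ) (G : GP) : Prop where
  gc : Gt1 (U : Filter ℕ) (fun N => mwE N b) cN (fun _ x => (aW k T x).length) (fun _ x => (aW k T x).get) S R
    G.l G.r1 G.ρ1 y (zN c0)
  gx : Gt2 (U : Filter ℕ) (fun N => mwE N b) cN (fun _ x => (aW k T x).length) (fun _ x => (aW k T x).get) S R R2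
    G.l G.r1 G.ρ1 G.m G.r1' G.ρ' y (zN c0)
  gy : Gt2 (U : Filter ℕ) (fun N => mwE N b) cN (fun _ x => (aW k T x).length) (fun _ x => (aW k T x).get) S R R3
    G.l G.r1 G.ρ1 G.h G.r1'' G.ρ'' y (zN c0)
  na : NoAt (U : Filter ℕ) (fun N => mwE N b) cN PG (fun _ x => (aW k T x).length) (fun _ x => (aW k T x).get) S y (zN c0) R R3
    G.l G.r1 G.ρ1 G.m G.h G.r1'' G.ρ''
  ge : ∃ (𝒜 : Set CC.Gm) (Pc Pg : CC.Gm → ℝ), T3L (U : Filter ℕ) (fun N => mwE N b) cN PG (fun _ x => (aW k T x).length)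
    (fun _ x => (aW k T x).get) S y (zN c0) G.l G.r1 G.ρ1 G.m G.r1' G.ρ' G.h G.r1'' G.ρ'' 𝒜 Pc Pg

/-- the windows of the four coordinates fit into the boxes -/
structure GWin (Bc Bx' By : Pool.Agent.SCF.M.Box) (l m rg th : ℝ) : Prop where
  wl : Bc.a0 < l
  wm : Bx'.a0 < m
  wm0 : 0 < m
  wr0 : Bx'.p0 < rg
  wr1 : rg < Bx'.p1
  wh : By.a0 < th * m
  wh1 : th < 1

/-- **the gates at generic data**, thresholds `max l (c a j)` -/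
theorem gate_lv {z : ℂ} {B : Bx} {A : Type*} {R0 : A → Prm → Prop} {fl fm frg fth : Fd} (h1 : fl.rk < fm.rk) (h2 : fm.rk < frg.rk)
    (h3 : frg.rk < fth.rk) (hR : ∀ᶠ P in gP z B, ∃ a, R0 a P) (hRe : ∀ a (P P' : Prm), Agr fl P P' → R0 a P → R0 a P')
    {U : Ultrafilter ℕ} {b : ℝ} {PG : Measure CC.Gm} (hC : Cv (U : Filter ℕ) (fun N => mwE N b) cN PG)
    {S : ℕ → ℝ} {c0 R R2 R3 : ℝ} (r0 : 0 < R) (r2 : 0 < R2) (r3 : 0 < R3) {Bc Bx' By : Pool.Agent.SCF.M.Box} (hBc : Bc.Ok R) (hBx : Bx'.Ok R2)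
    (hBy : By.Ok R3) (hw : ∀ P : Prm, B.In z P → GWin Bc Bx' By (fl.get P) (fm.get P) (frg.get P) (fth.get P))
    {J : Type*} [Countable J] {k : A → J → Arm} {T : A → J → LSym} {y : A → J → ℕ → W3 × ℕ → ℝ} {c : A → J → ℝ}
    (hA : ∀ a j, ArcS U b (k a j) (T a j) S R c0) (hA2 : ∀ a j, ArcS U b (k a j) (T a j) S R2 c0)
    (hA3 : ∀ a j, ArcS U b (k a j) (T a j) S R3 c0)
    (hy : ∀ a j, L1A (U : Filter ℕ) (fun N => mwE N b) cN (y a j)) (y0 : ∀ a j N x, 0 ≤ y a j N x)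
    (hc : ∀ a j, c a j ≤ Bc.a0 ∨ SLv U b PG S c0 R R2 R3 (k a j) (T a j) (y a j) (c a j)) :
    ∀ᶠ P in gP z B, ∃ (a : A) (t t3 : ℝ), R0 a P ∧ 0 < t ∧ t < 1 ∧ 0 < t3 ∧ t3 < 1 ∧ ∀ j,
      SGd U b PG S c0 R R2 R3 (k a j) (T a j) (y a j)
        (mkG Bc Bx' By (max (fl.get P) (c a j)) t (fm.get P) (frg.get P) (fth.get P * fm.get P) t3) := by
  classical
  -- the statements
  obtain ⟨G1, hG1⟩ : ∃ G1 : A → ℝ → ℝ → Prop, G1 = fun a l t => ∀ j, Gt1 (U : Filter ℕ) (fun N => mwE N b) cN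
    (fun _ x => (aW (k a j) (T a j) x).length) (fun _ x => (aW (k a j) (T a j) x).get) S R (max l (c a j)) (rT Bc t) (pT Bc t) (y a j)
      (zN c0) := ⟨_, rfl⟩
  obtain ⟨G2, hG2⟩ : ∃ G2 : A → ℝ → ℝ → ℝ → ℝ → Prop, G2 = fun a l t m rg => ∀ j, Gt2 (U : Filter ℕ) (fun N => mwE N b) cN
    (fun _ x => (aW (k a j) (T a j) x).length) (fun _ x => (aW (k a j) (T a j) x).get) S R R2 (max l (c a j)) (rT Bc t) (pT Bc t) m
      (rT Bx' ((Bx'.p1 - rg) / (Bx'.p1 - Bx'.p0))) rg (y a j) (zN c0) := ⟨_, rfl⟩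
  obtain ⟨G3, hG3⟩ : ∃ G3 : A → ℝ → ℝ → ℝ → ℝ → ℝ → ℝ → Prop, G3 = fun a l t m rg h t3 => ∀ j,
      Gt2 (U : Filter ℕ) (fun N => mwE N b) cN (fun _ x => (aW (k a j) (T a j) x).length)
        (fun _ x => (aW (k a j) (T a j) x).get) S R R3 (max l (c a j)) (rT Bc t) (pT Bc t) h (rT By t3) (pT By t3) (y a j) (zN c0) ∧
      NoAt (U : Filter ℕ) (fun N => mwE N b) cN PG (fun _ x => (aW (k a j) (T a j) x).length)
        (fun _ x => (aW (k a j) (T a j) x).get) S (y a j) (zN c0) R R3 (max l (c a j)) (rT Bc t) (pT Bc t) m h (rT By t3) (pT By t3) ∧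
      ∃ (𝒜 : Set CC.Gm) (Pc Pg : CC.Gm → ℝ), T3L (U : Filter ℕ) (fun N => mwE N b) cN PG
        (fun _ x => (aW (k a j) (T a j) x).length) (fun _ x => (aW (k a j) (T a j) x).get) S (y a j) (zN c0)
        (max l (c a j)) (rT Bc t) (pT Bc t) m (rT Bx' ((Bx'.p1 - rg) / (Bx'.p1 - Bx'.p0))) rg h (rT By t3) (pT By t3) 𝒜 Pc Pg :=
      ⟨_, rfl⟩
  have key : ∀ a, ∃ E : Set ℝ, E.Countable ∧ ∀ l : ℝ, l ∉ E → Bc.a0 < l → ∃ t : ℝ, 0 < t ∧ t < 1 ∧ G1 a l t ∧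
      ∃ F : Set ℝ, F.Countable ∧ ∀ m : ℝ, m ∉ F → Bx'.a0 < m → ∃ F' : Set ℝ, F'.Countable ∧
        ∀ rg : ℝ, rg ∉ F' → Bx'.p0 < rg → rg < Bx'.p1 → G2 a l t m rg ∧
          ∃ H : Set ℝ, H.Countable ∧ ∀ h : ℝ, h ∉ H → By.a0 < h → h < m → ∃ t3 : ℝ, 0 < t3 ∧ t3 < 1 ∧ G3 a l t m rg h t3 := by
    intro a
    rw [hG1, hG2, hG3]
    choose E hE g1 using fun j => slv_ex (PG := PG) (S := S) hC r0 r2 r3 (hA a j) (hA2 a j) (hA3 a j) (hy a j) (y0 a j)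
    refine ⟨⋃ j, E j, countable_iUnion hE, fun l hl hlB => ?_⟩
    refine strand_lv hBc hBx hBy (a := fun j => max l (c a j)) (fun j => ?_) fun j => lt_max_of_lt_left hlB
    rcases le_or_gt (c a j) l with h | h
    · rw [max_eq_left h]
      exact g1 j l fun h => hl (mem_iUnion.2 ⟨j, h⟩)
    · rw [max_eq_right h.le]
      rcases hc a j with h' | h'
      · exact absurd (h'.trans_lt hlB) (not_lt.2 h.le)
      · exact h'
  have gt : ∀ {f f' : Fd} {P P' : Prm}, f'.rk < f.rk → Agr f P P' → f'.get P' = f'.get P := fun h hAg => hAg.g _ h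
  -- the coordinate `l`
  have s1 : ∀ᶠ P in gP z B, ∃ (a : A) (t : ℝ), R0 a P ∧ 0 < t ∧ t < 1 ∧ G1 a (fl.get P) t ∧
      ∃ F : Set ℝ, F.Countable ∧ ∀ m : ℝ, m ∉ F → Bx'.a0 < m → ∃ F' : Set ℝ, F'.Countable ∧
        ∀ rg : ℝ, rg ∉ F' → Bx'.p0 < rg → rg < Bx'.p1 → G2 a (fl.get P) t m rg ∧
          ∃ H : Set ℝ, H.Countable ∧ ∀ h : ℝ, h ∉ H → By.a0 < h → h < m → ∃ t3 : ℝ, 0 < t3 ∧ t3 < 1 ∧ G3 a (fl.get P) t m rg h t3 := by
    refine gP_f_of fl (R := fun P => ∃ a, R0 a P) hR (fun P P' hAg ⟨a, ha⟩ => ⟨a, hRe a P' P hAg.symm ha⟩) fun P hP ⟨a, ha⟩ => ?_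
    obtain ⟨E, hE, g1⟩ := key a
    refine ⟨E, hE.measure_zero _, fun P' hP' hAg hl => ?_⟩
    obtain ⟨t, t0, t1, g2, g3⟩ := g1 _ hl (hw P' hP').wl
    exact ⟨a, t, hRe a P P' hAg ha, t0, t1, g2, g3⟩
  -- the coordinate `m`
  have s2 : ∀ᶠ P in gP z B, ∃ (a : A) (t : ℝ), R0 a P ∧ 0 < t ∧ t < 1 ∧ G1 a (fl.get P) t ∧
      ∃ F' : Set ℝ, F'.Countable ∧ ∀ rg : ℝ, rg ∉ F' → Bx'.p0 < rg → rg < Bx'.p1 → G2 a (fl.get P) t (fm.get P) rg ∧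
          ∃ H : Set ℝ, H.Countable ∧ ∀ h : ℝ, h ∉ H → By.a0 < h → h < fm.get P → ∃ t3 : ℝ, 0 < t3 ∧ t3 < 1 ∧
            G3 a (fl.get P) t (fm.get P) rg h t3 := by
    refine gP_f_of fm s1 (fun P P' hAg ⟨a, t, ha, t0, t1, g1, g2⟩ => ?_) fun P hP ⟨a, t, ha, t0, t1, g1, F, hF, g2⟩ => ?_
    · rw [gt h1 hAg] at g1 g2
      exact ⟨a, t, hRe a P' P (hAg.mono h1.le).symm ha, t0, t1, g1, g2⟩
    · refine ⟨F, hF.measure_zero _, fun P' hP' hAg hm => ?_⟩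
      have e1 := gt h1 hAg
      refine ⟨a, t, hRe a P P' (hAg.mono h1.le) ha, t0, t1, by rw [e1]; exact g1, ?_⟩
      rw [e1]
      exact g2 _ hm (hw P' hP').wm
  -- the coordinate `rg`
  have s3 : ∀ᶠ P in gP z B, ∃ (a : A) (t : ℝ), R0 a P ∧ 0 < t ∧ t < 1 ∧ G1 a (fl.get P) t ∧ G2 a (fl.get P) t (fm.get P) (frg.get P) ∧
      ∃ H : Set ℝ, H.Countable ∧ ∀ h : ℝ, h ∉ H → By.a0 < h → h < fm.get P → ∃ t3 : ℝ, 0 < t3 ∧ t3 < 1 ∧
        G3 a (fl.get P) t (fm.get P) (frg.get P) h t3 := by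
    refine gP_f_of frg s2 (fun P P' hAg ⟨a, t, ha, t0, t1, g1, g2⟩ => ?_) fun P hP ⟨a, t, ha, t0, t1, g1, F, hF, g2⟩ => ?_
    · rw [gt (h1.trans h2) hAg] at g1 g2
      rw [gt h2 hAg] at g2
      exact ⟨a, t, hRe a P' P (hAg.mono (h1.trans h2).le).symm ha, t0, t1, g1, g2⟩
    · refine ⟨F, hF.measure_zero _, fun P' hP' hAg hm => ?_⟩
      have e1 := gt (h1.trans h2) hAg
      have e2 := gt h2 hAg
      refine ⟨a, t, hRe a P P' (hAg.mono (h1.trans h2).le) ha, t0, t1, by rw [e1]; exact g1, ?_⟩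
      rw [e1, e2]
      exact g2 _ hm (hw P' hP').wr0 (hw P' hP').wr1
  -- the coordinate `th`
  refine gP_f_of fth s3 (fun P P' hAg ⟨a, t, ha, t0, t1, g1, g2, g3⟩ => ?_) fun P hP ⟨a, t, ha, t0, t1, g1, g2, H, hH, g3⟩ => ?_
  · rw [gt ((h1.trans h2).trans h3) hAg] at g1 g2 g3
    rw [gt (h2.trans h3) hAg] at g2 g3
    rw [gt h3 hAg] at g2 g3
    exact ⟨a, t, hRe a P' P (hAg.mono ((h1.trans h2).trans h3).le).symm ha, t0, t1, g1, g2, g3⟩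
  · have m0 := (hw P hP).wm0
    refine ⟨(fun θ => θ * fm.get P) ⁻¹' H, (hH.preimage_of_injOn fun u _ v _ huv => ?_).measure_zero _, fun P' hP' hAg hm => ?_⟩
    · exact mul_right_cancel₀ m0.ne' huv
    · have e1 := gt ((h1.trans h2).trans h3) hAg
      have e2 := gt (h2.trans h3) hAg
      have e3 := gt h3 hAg
      obtain ⟨w1, w2, w3, w4, w5, w6, w7⟩ := hw P' hP'
      obtain ⟨t3, t30, t31, g4⟩ := g3 (fth.get P' * fm.get P) hm (by rw [← e2]; exact w6) (by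
        rw [← e2]
        exact mul_lt_of_lt_one_left w3 w7)
      refine ⟨a, t, t3, hRe a P P' (hAg.mono ((h1.trans h2).trans h3).le) ha, t0, t1, t30, t31, fun j => ?_⟩
      rw [hG1] at g1
      rw [hG2] at g2
      rw [hG3] at g4
      rw [e1, e2, e3]
      exact ⟨g1 j, g2 j, (g4 j).1, (g4 j).2.1, (g4 j).2.2⟩

/-- **the gates at generic data** -/
theorem gate_ev {z : ℂ} {B : Bx} {A : Type*} {R0 : A → Prm → Prop} {fl fm frg fth : Fd} (h1 : fl.rk < fm.rk) (h2 : fm.rk < frg.rk)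
    (h3 : frg.rk < fth.rk) (hR : ∀ᶠ P in gP z B, ∃ a, R0 a P) (hRe : ∀ a (P P' : Prm), Agr fl P P' → R0 a P → R0 a P')
    {U : Ultrafilter ℕ} {b : ℝ} {PG : Measure CC.Gm} (hC : Cv (U : Filter ℕ) (fun N => mwE N b) cN PG)
    {S : ℕ → ℝ} {c0 R R2 R3 : ℝ} (r0 : 0 < R) (r2 : 0 < R2) (r3 : 0 < R3) {Bc Bx' By : Pool.Agent.SCF.M.Box} (hBc : Bc.Ok R) (hBx : Bx'.Ok R2)
    (hBy : By.Ok R3) (hw : ∀ P : Prm, B.In z P → GWin Bc Bx' By (fl.get P) (fm.get P) (frg.get P) (fth.get P))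
    {J : Type*} [Countable J] {k : A → J → Arm} {T : A → J → LSym} {y : A → J → ℕ → W3 × ℕ → ℝ}
    (hA : ∀ a j, ArcS U b (k a j) (T a j) S R c0) (hA2 : ∀ a j, ArcS U b (k a j) (T a j) S R2 c0)
    (hA3 : ∀ a j, ArcS U b (k a j) (T a j) S R3 c0)
    (hy : ∀ a j, L1A (U : Filter ℕ) (fun N => mwE N b) cN (y a j)) (y0 : ∀ a j N x, 0 ≤ y a j N x) :
    ∀ᶠ P in gP z B, ∃ (a : A) (t t3 : ℝ), R0 a P ∧ 0 < t ∧ t < 1 ∧ 0 < t3 ∧ t3 < 1 ∧ ∀ j,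
      SGd U b PG S c0 R R2 R3 (k a j) (T a j) (y a j) (mkG Bc Bx' By (fl.get P) t (fm.get P) (frg.get P) (fth.get P * fm.get P) t3) := by
  filter_upwards [gate_lv h1 h2 h3 hR hRe hC r0 r2 r3 hBc hBx hBy hw hA hA2 hA3 hy y0 (c := fun _ _ => Bc.a0) fun _ _ => Or.inl le_rfl,
    Gn.gP_win] with P ⟨a, t, t3, g1, g2, g3, g4, g5, g6⟩ hP
  refine ⟨a, t, t3, g1, g2, g3, g4, g5, fun j => ?_⟩
  have := g6 j
  rwa [max_eq_left (hw P hP).wl.le] at this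

/-- `AI1` (F3AI1) from `SGd` -/
theorem SGd.ai1 {U : Ultrafilter ℕ} {b : ℝ} {PG : Measure CC.Gm} (hC : Cv (U : Filter ℕ) (fun N => mwE N b) cN PG)
    {S : ℕ → ℝ} (hS0 : ∀ N, 0 < S N) (hS : ∀ᶠ N : ℕ in U, S N = N) {c0 R R2 R3 : ℝ} {k : Arm} {T : LSym}
    {y : ℕ → W3 × ℕ → ℝ} {G : GP} (hm : 0 < G.m) (h : SGd U b PG S c0 R R2 R3 k T y G) :
    ∃ (B : Set CC.Gm) (Pc Pg : CC.Gm → ℝ), CK.AI1 (U : Filter ℕ) b PG k (fun N x => c0 < dst N x ∧ sgE G T (y N x) N k x)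
      (fun N x => sgc G T (y N x) N k x) (fun N x => sgx G T (y N x) N k x) B Pc Pg := by
  obtain ⟨B, Pc, Pg, h1⟩ := h.ge
  exact ⟨B, Pc, Pg, CK.ai1_sg hC hS0 hS hm h1⟩

/-- `AIn` from `SGd` of the four strands -/
theorem ain_gd {U : Ultrafilter ℕ} {b : ℝ} {PG : Measure CC.Gm} (hC : Cv (U : Filter ℕ) (fun N => mwE N b) cN PG)
    {S : ℕ → ℝ} (hS0 : ∀ N, 0 < S N) (hS : ∀ᶠ N : ℕ in U, S N = N) {c0 : ℝ} {R R2 R3 : Arm → ℝ} {G : Arm → GP} {T : Arm → LSym}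
    {y : Arm → ℕ → W3 × ℕ → ℝ} (hm : ∀ k, 0 < (G k).m) (h : ∀ k, SGd U b PG S c0 (R k) (R2 k) (R3 k) k (T k) (y k) (G k)) :
    ∃ (B : Arm → Set CC.Gm) (Pc Pg : Arm → CC.Gm → ℝ), CK.AIn (U : Filter ℕ) b PG
      (fun k N x => c0 < dst N x ∧ sgE (G k) (T k) (y k N x) N k x)
      (fun k N x => sgc (G k) (T k) (y k N x) N k x) (fun k N x => sgx (G k) (T k) (y k N x) N k x) B Pc Pg := by
  choose B Pc Pg h1 using fun k => (h k).ge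
  exact ⟨B, Pc, Pg, ain_sg hC hS0 hS hm h1⟩

end Pool.Agent.ROT.F3
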