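import Pool.Agent.ROT.F3GtT
import Pool.Agent.ROT.F3GenG
import Pool.Agent.ROT.F3Prm22

/-!
# ROT / F3GtB (helper61): boxes for the gates of the classes, with the numbers of F3Prm22

* `gpB P Bc Bx By t t2 t3 : GP` : the radii of the three gates of a strand from three boxes; `BxR` : what the boxes need;
  **`gpB_ok`** : then `GP.Ok`, for all `t, t2, t3` in `[0, 1]`;
* `tof B ρ` : the parameter of a window `ρ`;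
* `bxN i ρ`, `bxF i ρ` (`i = 0` : gate `c`, `1` : gate `x`, `2` : gate `y`) : boxes of the scales `scN i * ρ`, `scF i * ρ`;
  **`bxN_ok`**, **`bxF_ok`** : `Box.Ok`; **`bxN_r`**, **`bxF_r`** : `BxR` and the thresholds and windows inside of the boxes, for all
  data in the windows of `bN ρ τ`, `bF ρ τ`; `gp_n`, `gp_f` : the conclusion.
-/

set_option autoImplicit false

namespace Pool.Agent.ROT.F3

open Pool.Agent.SCF.M (Box)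

/-- the gates of a strand from three boxes -/
noncomputable def gpB (P : Tp) (Bc Bx By : Box) (t t2 t3 : ℝ) : GP :=
  ⟨P.l, rT Bc t, pT Bc t, P.m, rT Bx t2, P.rg, P.th * P.m, rT By t3, pT By t3⟩

/-- the relations of the boxes -/
structure BxR (P : Tp) (Bc Bx By : Box) : Prop where
  c1 : 2 * P.r ≤ Bc.r0
  c2 : P.r2 ≤ Bc.p0
  c3 : Bc.p1 + P.r2 ≤ P.rg
  c4 : Bc.r1 ≤ Bc.p0
  cr : Bc.r0 ≤ Bc.r1
  cp : Bc.p0 ≤ Bc.p1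
  x1 : 2 * P.r2 ≤ Bx.r0
  x2 : Bx.r1 ≤ P.rg
  xr : Bx.r0 ≤ Bx.r1
  y1 : 2 * P.r2 ≤ By.r0
  y2 : By.p1 + 2 * P.r2 ≤ P.rg
  y3 : By.r1 ≤ By.p0
  yr : By.r0 ≤ By.r1
  yp : By.p0 ≤ By.p1

lemma rT_mem {B : Box} (h : B.r0 ≤ B.r1) {t : ℝ} (h0 : 0 ≤ t) (h1 : t ≤ 1) : B.r0 ≤ rT B t ∧ rT B t ≤ B.r1 := by
  unfold rT
  constructor <;> nlinarith

lemma pT_mem {B : Box} (h : B.p0 ≤ B.p1) {t : ℝ} (h0 : 0 ≤ t) (h1 : t ≤ 1) : B.p0 ≤ pT B t ∧ pT B t ≤ B.p1 := by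
  unfold pT
  constructor <;> nlinarith

/-- **the radii from the boxes are in the ranges** -/
theorem gpB_ok {P : Tp} {Bc Bx By : Box} (h : BxR P Bc Bx By) {t t2 t3 : ℝ} (h0 : 0 ≤ t) (h1 : t ≤ 1) (h2 : 0 ≤ t2) (h3 : t2 ≤ 1)
    (h4 : 0 ≤ t3) (h5 : t3 ≤ 1) : (gpB P Bc Bx By t t2 t3).Ok P := by
  obtain ⟨a1, a2⟩ := rT_mem h.cr h0 h1
  obtain ⟨a3, a4⟩ := pT_mem h.cp h0 h1
  obtain ⟨b1, b2⟩ := rT_mem h.xr h2 h3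
  obtain ⟨d1, d2⟩ := rT_mem h.yr h4 h5
  obtain ⟨d3, d4⟩ := pT_mem h.yp h4 h5
  exact ⟨rfl, rfl, rfl, rfl, h.c1.trans a1, h.c2.trans a3, (add_le_add_left a4 _).trans h.c3, h.x1.trans b1, h.y1.trans d1,
    (add_le_add_left d4 _).trans h.y2, a2.trans (h.c4.trans a3), b2.trans h.x2, d2.trans (h.y3.trans d3)⟩

/-- the parameter of the window `ρ` -/
noncomputable def tof (B : Box) (ρ : ℝ) : ℝ := (B.p1 - ρ) / (B.p1 - B.p0)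

lemma pT_tof {B : Box} (h : B.p0 < B.p1) (ρ : ℝ) : pT B (tof B ρ) = ρ := by
  have : B.p1 - B.p0 ≠ 0 := by linarith
  unfold pT tof
  rw [div_mul_cancel₀ _ this]
  ring

lemma tof_pT {B : Box} (h : B.p0 < B.p1) (t : ℝ) : tof B (pT B t) = t := by
  have : B.p1 - B.p0 ≠ 0 := by linarith
  unfold pT tof
  rw [sub_sub_cancel, mul_div_assoc, div_self this, mul_one]

lemma tof_mem {B : Box} {ρ : ℝ} (h0 : B.p0 < ρ) (h1 : ρ < B.p1) : 0 < tof B ρ ∧ tof B ρ < 1 := by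
  unfold tof
  constructor
  · exact div_pos (by linarith) (by linarith)
  · rw [div_lt_one (by linarith)]
    linarith

/-! ### the numbers -/

/-- boxes, lattice 0 -/
noncomputable def bxN (i : Fin 3) (ρ : ℝ) : Box :=
  match i with
  | 0 => ⟨2 / 5 * ρ, 3 / 5 * ρ, 21 / 10 * ρ, 29 / 10 * ρ, 100 * ρ, 150 * ρ⟩
  | 1 => ⟨6 * ρ, 9 * ρ, 415 / 10 * ρ, 419 / 10 * ρ, 1350 * ρ, 1500 * ρ⟩
  | 2 => ⟨11 / 2 * ρ, 7 * ρ, 415 / 10 * ρ, 416 / 10 * ρ, 1340 * ρ, 1355 * ρ⟩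

/-- scales, lattice 0 -/
noncomputable def scN (i : Fin 3) : ℝ :=
  match i with
  | 0 => 3 / 2
  | 1 => 21
  | 2 => 104 / 5

/-- boxes, rotated lattice -/
noncomputable def bxF (i : Fin 3) (ρ : ℝ) : Box :=
  match i with
  | 0 => ⟨57 * ρ, 62 * ρ, 213 * ρ, 400 * ρ, 28800 * ρ, 28900 * ρ⟩
  | 1 => ⟨8000 * ρ, 12000 * ρ, 57600 * ρ, 58000 * ρ, 1860000 * ρ, 1950000 * ρ⟩
  | 2 => ⟨7500 * ρ, 9000 * ρ, 57571 * ρ, 57572 * ρ, 1842350 * ρ, 1842400 * ρ⟩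

/-- scales, rotated lattice -/
noncomputable def scF (i : Fin 3) : ℝ :=
  match i with
  | 0 => 226
  | 1 => 29000
  | 2 => 28786

lemma scN_pos (i : Fin 3) : 0 < scN i ∧ scN i ≤ 21 := by
  fin_cases i <;> simp only [scN] <;> norm_num

lemma scF_pos (i : Fin 3) : 0 < scF i ∧ scF i ≤ 29000 := by
  fin_cases i <;> simp only [scF] <;> norm_num

/-- **the boxes are admissible**, lattice 0 -/
theorem bxN_ok (i : Fin 3) {ρ : ℝ} (hρ : 0 < ρ) : (bxN i ρ).Ok (scN i * ρ) := by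
  fin_cases i <;> constructor <;> simp only [bxN, scN] <;> linarith

/-- **the boxes are admissible**, rotated lattice -/
theorem bxF_ok (i : Fin 3) {ρ : ℝ} (hρ : 0 < ρ) : (bxF i ρ).Ok (scF i * ρ) := by
  fin_cases i <;> constructor <;> simp only [bxF, scF] <;> linarith

/-- **the relations**, lattice 0 -/
theorem bxN_r {P : Tp} {ρ τ : ℝ} (hρ : 0 < ρ) (h : P.Nr (bN ρ τ)) : BxR P (bxN 0 ρ) (bxN 1 ρ) (bxN 2 ρ) ∧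
    (bxN 0 ρ).a0 < P.l ∧ (bxN 1 ρ).a0 < P.m ∧ (bxN 2 ρ).a0 < P.th * P.m ∧ (bxN 1 ρ).p0 < P.rg ∧ P.rg < (bxN 1 ρ).p1 := by
  have hl1 : 1/2 * ρ ≤ P.l := h.l.1
  have hr1 : 1 * ρ ≤ P.r := h.r.1
  have hr2 : P.r ≤ 101 / 100 * (1 * ρ) := h.r.2
  have hm1 : 81/10 * ρ ≤ P.m := h.m.1
  have hth1 : 3/4 ≤ P.th := h.th.1
  have hr22 : P.r2 ≤ 101 / 100 * (41/2 * ρ) := h.r2.2
  have hrg1 : 1400 * ρ ≤ P.rg := h.rg.1
  have hrg2 : P.rg ≤ 101 / 100 * (1400 * ρ) := h.rg.2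
  have hthm : 3 / 4 * (81 / 10 * ρ) ≤ P.th * P.m := mul_le_mul hth1 hm1 (by positivity) (by linarith)
  refine ⟨?_, ?_, ?_, ?_, ?_, ?_⟩
  · constructor <;> simp only [bxN] <;> linarith
  all_goals (simp only [bxN]; linarith)

/-- **the relations**, rotated lattice -/
theorem bxF_r {P : Tp} {ρ τ : ℝ} (hρ : 0 < ρ) (h : P.Nr (bF ρ τ)) : BxR P (bxF 0 ρ) (bxF 1 ρ) (bxF 2 ρ) ∧
    (bxF 0 ρ).a0 < P.l ∧ (bxF 1 ρ).a0 < P.m ∧ (bxF 2 ρ).a0 < P.th * P.m ∧ (bxF 1 ρ).p0 < P.rg ∧ P.rg < (bxF 1 ρ).p1 := by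
  have hl1 : 60 * ρ ≤ P.l := h.l.1
  have hr1 : 105 * ρ ≤ P.r := h.r.1
  have hr2 : P.r ≤ 101 / 100 * (105 * ρ) := h.r.2
  have hm1 : 11400 * ρ ≤ P.m := h.m.1
  have hth1 : 3/4 ≤ P.th := h.th.1
  have hr22 : P.r2 ≤ 101 / 100 * (28500 * ρ) := h.r2.2
  have hrg1 : 1900000 * ρ ≤ P.rg := h.rg.1
  have hrg2 : P.rg ≤ 101 / 100 * (1900000 * ρ) := h.rg.2
  have hthm : 3 / 4 * (11400 * ρ) ≤ P.th * P.m := mul_le_mul hth1 hm1 (by positivity) (by linarith)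
  refine ⟨?_, ?_, ?_, ?_, ?_, ?_⟩
  · constructor <;> simp only [bxF] <;> linarith
  all_goals (simp only [bxF]; linarith)

/-- **the radii of the gates**, lattice 0 -/
theorem gp_n {P : Tp} {ρ τ : ℝ} (hρ : 0 < ρ) (h : P.Nr (bN ρ τ)) {t t2 t3 : ℝ} (h0 : 0 ≤ t) (h1 : t ≤ 1) (h2 : 0 ≤ t2)
    (h3 : t2 ≤ 1) (h4 : 0 ≤ t3) (h5 : t3 ≤ 1) : (gpB P (bxN 0 ρ) (bxN 1 ρ) (bxN 2 ρ) t t2 t3).Ok P :=
  gpB_ok (bxN_r hρ h).1 h0 h1 h2 h3 h4 h5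

/-- **the radii of the gates**, rotated lattice -/
theorem gp_f {P : Tp} {ρ τ : ℝ} (hρ : 0 < ρ) (h : P.Nr (bF ρ τ)) {t t2 t3 : ℝ} (h0 : 0 ≤ t) (h1 : t ≤ 1) (h2 : 0 ≤ t2)
    (h3 : t2 ≤ 1) (h4 : 0 ≤ t3) (h5 : t3 ≤ 1) : (gpB P (bxF 0 ρ) (bxF 1 ρ) (bxF 2 ρ) t t2 t3).Ok P :=
  gpB_ok (bxF_r hρ h).1 h0 h1 h2 h3 h4 h5

end Pool.Agent.ROT.F3
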