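import Pool.Agent.ROT.F3GenG2
import Pool.Agent.ROT.F3GtB
import Pool.Agent.ROT.F3LevM
import Pool.Agent.ROT.F3GtK

/-!
# ROT / F3GenG3 (helper59): the gates of the ends at generic data

* `SGd.shift` : only the sum of the threshold and of a constant base is seen;
* `AR` : auxiliary radii; `grN ρ Q r`, `grF ρ Q r` : records of the gates of the lattices (boxes of F3GtB), `grN_ok`, `grF_ok`;
* `SGN`, `SGF` : `SGd` at these records and scales; `Sc` : the strands at the six scales; `trnA_rS`, `ain_gA` : the words of F3GtK;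
* **`gates_n`** : for generic data the gates over the base `0` of `P.p.n` and of `P.q.n`, for all arms and all turns, with one choice of
  radii for each end;
* `FLv` : good levels, **`flv_ex`**, `flv_cell` : all levels, all cells, off a countable set which does not depend on `P`;
* **`gates_f`** : the same for `P.p.f`, `P.q.f`, over a countable family of bases which may depend on an object (`a : A`) chosen before
  the coordinate `.p (.f .l)`, and over the thresholds `max 0 (c m - l)` for a countable family of good levels `c m`.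
-/

set_option autoImplicit false
set_option linter.unusedSectionVars false

open Filter MeasureTheory Topology Set

open scoped NNReal ENNReal BoundedContinuousFunction

namespace Pool.Agent.ROT.F3

open Pool.Agent.NTS.Res (step pos saw fug size curve)
open Pool.Agent.ROT.F (QB)
open Pool.Agent.CRT (CI)
open Pool.Agent.SCF.M Pool.Agent.SCF.Z
open LF (Cv Lm Ev bi bi_pos bi_neg bi_and)
open Gn (Fd Ef Tf Agr Bx gP gP_win rk_lt)

/-! ### 1. Constant bases -/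

section shift

variable {n : ℕ} {s : Fin n → Fin 3} {S l l' q q' : ℝ}

lemma tp_shift (e : l' + q' = l + q) (r ρ : ℝ) :
    TP (Dv s (q * S)) (l * S) r ρ s = TP (Dv s (q' * S)) (l' * S) r ρ s := by
  funext k
  refine propext (tp_congr fun j => ?_)
  unfold Dv
  rw [← add_mul, ← add_mul, e]

lemma inP_shift (e : l' + q' = l + q) (r ρ : ℝ) (h : ℕ → ℝ) :
    inP (Dv s (q * S)) (l * S) r ρ h s = inP (Dv s (q' * S)) (l' * S) r ρ h s := by
  unfold inP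
  rw [tp_shift e]

lemma inB_shift (e : l' + q' = l + q) (r ρ m r2 ρ2 : ℝ) (h : ℕ → ℝ) :
    inB (Dv s (q * S)) l r ρ m r2 ρ2 S h s = inB (Dv s (q' * S)) l' r ρ m r2 ρ2 S h s := inP_shift e _ _ _

lemma gb2_shift (e : l' + q' = l + q) (r ρ m r2 ρ2 : ℝ) :
    GB2 (Dv s (q * S)) l r ρ m r2 ρ2 S s = GB2 (Dv s (q' * S)) l' r ρ m r2 ρ2 S s := by
  funext c x
  unfold GB2
  rw [tp_shift e]

lemma mk1_shift (e : l' + q' = l + q) (r ρ : ℝ) : mk1 (Dv s (q * S)) l r ρ S s = mk1 (Dv s (q' * S)) l' r ρ S s := by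
  unfold mk1
  rw [tp_shift e]

lemma mkB_shift (e : l' + q' = l + q) (r ρ m r2 ρ2 : ℝ) :
    mkB (Dv s (q * S)) l r ρ m r2 ρ2 S s = mkB (Dv s (q' * S)) l' r ρ m r2 ρ2 S s := by
  unfold mkB
  rw [gb2_shift e]

lemma nlv_shift (e : l' + q' = l + q) (R r ρ z : ℝ) : nlv R l r ρ S q z s = nlv R l' r ρ S q' z s := by
  unfold nlv
  rw [inP_shift e]

lemma nlB_shift (e : l' + q' = l + q) (R r ρ m r2 ρ2 z : ℝ) :
    nlB R l r ρ m r2 ρ2 S q z s = nlB R l' r ρ m r2 ρ2 S q' z s := by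
  unfold nlB
  rw [inB_shift e]

lemma qy_shift (e : l' + q' = l + q) (R R3 r ρ h r2 ρ2 z : ℝ) :
    qy R R3 l r ρ h r2 ρ2 S q z s = qy R R3 l' r ρ h r2 ρ2 S q' z s := by
  unfold qy
  rw [nlB_shift e, nlv_shift e]

lemma gst_shift (e : l' + q' = l + q) {r ρ μ η : ℝ} (h : GStab (Dv s (q * S)) S l r ρ μ η s) :
    GStab (Dv s (q' * S)) S l' r ρ μ η s := by
  intro a' r' ρ' h1 h2 h3
  have h4 := h (a' + (l - l')) r' ρ' (by rwa [show a' + (l - l') - l = a' - l' by ring]) h2 h3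
  rw [tp_shift (s := s) (S := S) (l := l) (q := q) (l' := l') (q' := q') e,
    tp_shift (s := s) (S := S) (l := a' + (l - l')) (q := q) (l' := a') (q' := q') (by linarith)] at h4
  exact h4

lemma t3_shift (e : l' + q' = l + q) (r ρ m r1 ρ1 h r2 ρ2 : ℝ) (c x y : ℕ) :
    T3 s S q l r ρ m r1 ρ1 h r2 ρ2 c x y ↔ T3 s S q' l' r ρ m r1 ρ1 h r2 ρ2 c x y := by
  constructor
  · intro t
    exact ⟨by rw [← gb2_shift e]; exact t.gx, t.gy, t.lt⟩
  · intro t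
    exact ⟨by rw [gb2_shift e]; exact t.gx, t.gy, t.lt⟩

end shift

section sys

variable {ι Ω X : Type*} [MeasurableSpace Ω] [PseudoMetricSpace X] [MeasurableSpace X] [BorelSpace X] {U : Filter ι}
  {P : ι → Measure Ω} {x : ι → Ω → X} {ν : Measure X} {nn : ι → Ω → ℕ} {wd : ∀ (i : ι) (s : Ω), Fin (nn i s) → Fin 3} {S : ι → ℝ}
  {l l' q q' : ℝ} {z : ι → Ω → ℝ}

lemma stb_shift [∀ i, IsFiniteMeasure (P i)] (e : l' + q' = l + q) {r ρ : ℝ} (h : StbG U P nn wd S (fun i s => Dv (wd i s) (q * S i)) l r ρ) :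
    StbG U P nn wd S (fun i s => Dv (wd i s) (q' * S i)) l' r ρ := by
  intro η hη ε hε
  obtain ⟨μ0, h0, h1⟩ := h η hη ε hε
  refine ⟨μ0, h0, fun μ hμ => (h1 μ hμ).mono fun i hi => le_trans (measureReal_mono ?_) hi⟩
  intro s hs hc
  exact hs (gst_shift e hc)

lemma Gt1.shift [∀ i, IsFiniteMeasure (P i)] (e : l' + q' = l + q) {R r ρ : ℝ} (h : Gt1 U P x nn wd S R l r ρ (fun _ _ => q) z) :
    Gt1 U P x nn wd S R l' r ρ (fun _ _ => q') z where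
  val K H h0 hT := by simpa only [inP_shift e] using h.val K H h0 hT
  mrk := by simpa only [mk1_shift e] using h.mrk
  lv := by simpa only [nlv_shift e] using h.lv
  st := stb_shift e h.st

lemma Gt2.shift [∀ i, IsFiniteMeasure (P i)] (e : l' + q' = l + q) {R R2 r ρ m r2 ρ2 : ℝ}
    (h : Gt2 U P x nn wd S R R2 l r ρ m r2 ρ2 (fun _ _ => q) z) :
    Gt2 U P x nn wd S R R2 l' r ρ m r2 ρ2 (fun _ _ => q') z where
  val K H h0 hT := by simpa only [inB_shift e] using h.val K H h0 hT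
  mrk := by simpa only [mkB_shift e] using h.mrk
  lv := by simpa only [nlB_shift e] using h.lv
  st := by simpa only [nlv_shift e] using h.st

lemma NoAt.shift (e : l' + q' = l + q) {R R3 r ρ m h r2 ρ2 : ℝ}
    (H : NoAt U P x ν nn wd S (fun _ _ => q) z R R3 l r ρ m h r2 ρ2) : NoAt U P x ν nn wd S (fun _ _ => q') z R R3 l' r ρ m h r2 ρ2 := by
  intro Ψ hΨ
  refine H Ψ ?_
  simpa only [qy_shift e] using hΨ

lemma T3L.shift (e : l' + q' = l + q) {r ρ m r1 ρ1 h r2 ρ2 : ℝ} {𝒜 : Set X} {Pc Pg : X → ℝ}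
    (H : T3L U P x ν nn wd S (fun _ _ => q) z l r ρ m r1 ρ1 h r2 ρ2 𝒜 Pc Pg) :
    T3L U P x ν nn wd S (fun _ _ => q') z l' r ρ m r1 ρ1 h r2 ρ2 𝒜 Pc Pg where
  ev := by simpa only [t3_shift e] using H.ev
  tm cf gf hf := by
    have h1 := H.tm cf gf (by simpa only [t3_shift e] using hf)
    simpa only [t3_shift e] using h1

end sys

/-- **only the sum of the threshold and of a constant base is seen** -/
theorem SGd.shift {U : Ultrafilter ℕ} {b : ℝ} {PG : Measure CC.Gm} {S : ℕ → ℝ} {c0 R R2 R3 : ℝ} {k : Arm} {T : LSym} {q q' l' : ℝ}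
    {G G' : GP} (e : l' + q' = G.l + q) (hG : G' = { G with l := l' })
    (h : SGd U b PG S c0 R R2 R3 k T (fun _ _ => q) G) : SGd U b PG S c0 R R2 R3 k T (fun _ _ => q') G' := by
  subst hG
  obtain ⟨h1, h2, h3, h4, 𝒜, Pc, Pg, h5⟩ := h
  exact ⟨h1.shift e, h2.shift e, h3.shift e, h4.shift e, 𝒜, Pc, Pg, h5.shift e⟩

/-! ### 2. The records -/

/-- auxiliary radii -/
structure AR where
  t : ℝ
  t3 : ℝ
  h0 : 0 < t
  h1 : t < 1
  h2 : 0 < t3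
  h3 : t3 < 1

/-- the gates of the lattice `0` -/
noncomputable def grN (ρ : ℝ) (Q : Tp) (r : AR) : GP := gpB Q (bxN 0 ρ) (bxN 1 ρ) (bxN 2 ρ) r.t (tof (bxN 1 ρ) Q.rg) r.t3

/-- the gates of the rotated lattice -/
noncomputable def grF (ρ : ℝ) (Q : Tp) (r : AR) : GP := gpB Q (bxF 0 ρ) (bxF 1 ρ) (bxF 2 ρ) r.t (tof (bxF 1 ρ) Q.rg) r.t3

lemma grN_ok {ρ τ : ℝ} (hρ : 0 < ρ) {Q : Tp} (h : Q.Nr (bN ρ τ)) (r : AR) : (grN ρ Q r).Ok Q := by
  obtain ⟨-, -, -, -, w1, w2⟩ := bxN_r hρ h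
  obtain ⟨t1, t2⟩ := tof_mem w1 w2
  exact gp_n hρ h r.h0.le r.h1.le t1.le t2.le r.h2.le r.h3.le

lemma grF_ok {ρ τ : ℝ} (hρ : 0 < ρ) {Q : Tp} (h : Q.Nr (bF ρ τ)) (r : AR) : (grF ρ Q r).Ok Q := by
  obtain ⟨-, -, -, -, w1, w2⟩ := bxF_r hρ h
  obtain ⟨t1, t2⟩ := tof_mem w1 w2
  exact gp_f hρ h r.h0.le r.h1.le t1.le t2.le r.h2.le r.h3.le

lemma grN_eq (ρ : ℝ) (Q : Tp) (r : AR) :
    mkG (bxN 0 ρ) (bxN 1 ρ) (bxN 2 ρ) Q.l r.t Q.m Q.rg (Q.th * Q.m) r.t3 = grN ρ Q r := rfl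

lemma grF_eq (ρ : ℝ) (Q : Tp) (r : AR) :
    mkG (bxF 0 ρ) (bxF 1 ρ) (bxF 2 ρ) Q.l r.t Q.m Q.rg (Q.th * Q.m) r.t3 = grF ρ Q r := rfl

/-- the records read `l, m, rg, th` -/
lemma grN_congr {ρ : ℝ} {Q Q' : Tp} (hl : Q'.l = Q.l) (hm : Q'.m = Q.m) (hr : Q'.rg = Q.rg) (ht : Q'.th = Q.th) (r : AR) :
    grN ρ Q' r = grN ρ Q r := by
  unfold grN gpB
  rw [hl, hm, hr, ht]

lemma grF_congr {ρ : ℝ} {Q Q' : Tp} (hl : Q'.l = Q.l) (hm : Q'.m = Q.m) (hr : Q'.rg = Q.rg) (ht : Q'.th = Q.th) (r : AR) :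
    grF ρ Q' r = grF ρ Q r := by
  unfold grF gpB
  rw [hl, hm, hr, ht]

/-- the gates of a strand in the limit, lattice `0` -/
def SGN (U : Ultrafilter ℕ) (b : ℝ) (PG : Measure CC.Gm) (S : ℕ → ℝ) (c0 ρ : ℝ) (k : Arm) (T : LSym) (y : ℕ → W3 × ℕ → ℝ) (G : GP) :
    Prop := SGd U b PG S c0 (scN 0 * ρ) (scN 1 * ρ) (scN 2 * ρ) k T y G

/-- the gates of a strand in the limit, rotated lattice -/
def SGF (U : Ultrafilter ℕ) (b : ℝ) (PG : Measure CC.Gm) (S : ℕ → ℝ) (c0 ρ : ℝ) (k : Arm) (T : LSym) (y : ℕ → W3 × ℕ → ℝ) (G : GP) :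
    Prop := SGd U b PG S c0 (scF 0 * ρ) (scF 1 * ρ) (scF 2 * ρ) k T y G

/-- the strands at the six scales -/
structure Sc (U : Ultrafilter ℕ) (b : ℝ) (S : ℕ → ℝ) (c0 ρ : ℝ) : Prop where
  n : ∀ (i : Fin 3) (k : Arm) (T : LSym), ArcS U b k T S (scN i * ρ) c0
  f : ∀ (i : Fin 3) (k : Arm) (T : LSym), ArcS U b k T S (scF i * ρ) c0

/-- the turns of the arms are rotations -/
lemma trnA_rS (i j : Fin 3) (k : Arm) : ∃ x : Fin 3, CK.trnA i j k = rS x := by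
  cases k
  · exact ⟨-i, rfl⟩
  · exact ⟨- -i, rfl⟩
  · exact ⟨- -j, rfl⟩
  · exact ⟨-j, rfl⟩

/-- **`AIn` in the words of F3GtK** from `SGd` of the four strands -/
theorem ain_gA {U : Ultrafilter ℕ} {b : ℝ} {PG : Measure CC.Gm} (hC : Cv (U : Filter ℕ) (fun N => mwE N b) cN PG)
    {S : ℕ → ℝ} (hS0 : ∀ N, 0 < S N) (hS : ∀ᶠ N : ℕ in U, S N = N) {c0 : ℝ} {R R2 R3 : Arm → ℝ} {G : Arm → GP} {T : Arm → LSym}
    {y : Arm → ℕ → W3 × ℕ → ℝ} (hm : ∀ k, 0 < (G k).m) (h : ∀ k, SGd U b PG S c0 (R k) (R2 k) (R3 k) k (T k) (y k) (G k)) :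
    ∃ (B : Arm → Set CC.Gm) (Pc Pg : Arm → CC.Gm → ℝ), CK.AIn (U : Filter ℕ) b PG (CK.gA c0 G T y) (CK.gC G T y) (CK.gX G T y) B Pc Pg :=
  ain_gd hC hS0 hS hm h

/-! ### 3. The box -/

/-- both ends are near the base data, for all data in the windows -/
def BxNr (z : ℂ) (B : Bx) (ρ τ : ℝ) : Prop := ∀ P : Prm, B.In z P → P.p.Nr (bE ρ τ) ∧ P.q.Nr (bE ρ τ)

lemma gwinN {ρ τ : ℝ} (hρ : 0 < ρ) {Q : Tp} (h : Q.Nr (bN ρ τ)) : GWin (bxN 0 ρ) (bxN 1 ρ) (bxN 2 ρ) Q.l Q.m Q.rg Q.th := by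
  obtain ⟨-, w1, w2, w3, w4, w5⟩ := bxN_r hρ h
  have hm1 : 81/10 * ρ ≤ Q.m := h.m.1
  have ht : Q.th ≤ 101 / 100 * (3 / 4) := h.th.2
  exact ⟨w1, w2, by linarith, w4, w5, w3, by linarith⟩

lemma gwinF {ρ τ : ℝ} (hρ : 0 < ρ) {Q : Tp} (h : Q.Nr (bF ρ τ)) : GWin (bxF 0 ρ) (bxF 1 ρ) (bxF 2 ρ) Q.l Q.m Q.rg Q.th := by
  obtain ⟨-, w1, w2, w3, w4, w5⟩ := bxF_r hρ h
  have hm1 : 11400 * ρ ≤ Q.m := h.m.1
  have ht : Q.th ≤ 101 / 100 * (3 / 4) := h.th.2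
  exact ⟨w1, w2, by linarith, w4, w5, w3, by linarith⟩

/-! ### 4. The gates of the lattice 0 -/

instance arm_cnt : Countable Arm := by
  have h : Function.Injective fun k : Arm => (match k with | .fp => 0 | .bq => 1 | .fq => 2 | .bp => 3 : ℕ) := by
    intro k k' h
    cases k <;> cases k' <;> first | rfl | (exact absurd h (by decide))
  exact h.countable

section gates

variable {U : Ultrafilter ℕ} {b : ℝ} {PG : Measure CC.Gm} {S : ℕ → ℝ} {c0 ρ τ : ℝ} {z : ℂ} {B : Bx}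

/-- one record of the lattice `0`, thresholds `l`, base `0` -/
lemma gate_n1 {A : Type*} {R0 : A → Prm → Prop} {Q : Prm → Tp} {f : Tf → Fd} (h1 : (f .l).rk < (f .m).rk)
    (h2 : (f .m).rk < (f .rg).rk) (h3 : (f .rg).rk < (f .th).rk) (hl : ∀ P, (f .l).get P = (Q P).l)
    (hm : ∀ P, (f .m).get P = (Q P).m) (hr : ∀ P, (f .rg).get P = (Q P).rg) (ht : ∀ P, (f .th).get P = (Q P).th)
    (hR : ∀ᶠ P in gP z B, ∃ a, R0 a P) (hRe : ∀ a (P P' : Prm), Agr (f .l) P P' → R0 a P → R0 a P')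
    (hC : Cv (U : Filter ℕ) (fun N => mwE N b) cN PG) (hρ : 0 < ρ) (hS : Sc U b S c0 ρ)
    (hB : ∀ P, B.In z P → (Q P).Nr (bN ρ τ)) :
    ∀ᶠ P in gP z B, ∃ (a : A) (r : AR), R0 a P ∧ ∀ (k : Arm) (x : Fin 3),
      SGN U b PG S c0 ρ k (rS x) (fun _ _ => 0) (grN ρ (Q P) r) := by
  have hw : ∀ P : Prm, B.In z P → GWin (bxN 0 ρ) (bxN 1 ρ) (bxN 2 ρ) ((f .l).get P) ((f .m).get P) ((f .rg).get P) ((f .th).get P) :=
    fun P hP => by
      rw [hl, hm, hr, ht]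
      exact gwinN hρ (hB P hP)
  have s0 : ∀ i, 0 < scN i * ρ := fun i => mul_pos (scN_pos i).1 hρ
  filter_upwards [gate_ev h1 h2 h3 hR hRe hC (s0 0) (s0 1) (s0 2) (bxN_ok 0 hρ) (bxN_ok 1 hρ) (bxN_ok 2 hρ) hw
    (J := Arm × Fin 3) (k := fun _ j => j.1) (T := fun _ j => rS j.2) (y := fun _ _ _ _ => 0) (fun _ j => hS.n 0 j.1 (rS j.2))
    (fun _ j => hS.n 1 j.1 (rS j.2)) (fun _ j => hS.n 2 j.1 (rS j.2)) (fun _ _ => L1A.const 0) fun _ _ _ _ => le_rfl]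
    with P ⟨a, t, t3, g1, g2, g3, g4, g5, g6⟩
  refine ⟨a, ⟨t, t3, g2, g3, g4, g5⟩, g1, fun k x => ?_⟩
  have := g6 (k, x)
  rw [hl, hm, hr, ht] at this
  exact this

/-- **the gates of the lattice `0`** -/
theorem gates_n (hC : Cv (U : Filter ℕ) (fun N => mwE N b) cN PG) (hρ : 0 < ρ) (hS : Sc U b S c0 ρ) (hB : BxNr z B ρ τ) :
    ∀ᶠ P in gP z B, ∃ rp rq : AR, ∀ (k : Arm) (x : Fin 3),
      SGN U b PG S c0 ρ k (rS x) (fun _ _ => 0) (grN ρ P.p.n rp) ∧ SGN U b PG S c0 ρ k (rS x) (fun _ _ => 0) (grN ρ P.q.n rq) := by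
  have s1 := gate_n1 (A := Unit) (R0 := fun _ _ => True) (Q := fun P => P.p.n) (f := fun t => .p (.n t)) (rk_lt (by decide +kernel))
    (rk_lt (by decide +kernel)) (rk_lt (by decide +kernel)) (fun _ => rfl) (fun _ => rfl) (fun _ => rfl) (fun _ => rfl)
    (Eventually.of_forall fun _ => ⟨(), trivial⟩) (fun _ _ _ _ _ => trivial) hC hρ hS fun P hP => (hB P hP).1.n
  have s2 := gate_n1 (A := AR) (R0 := fun r P => ∀ (k : Arm) (x : Fin 3), SGN U b PG S c0 ρ k (rS x) (fun _ _ => 0) (grN ρ P.p.n r))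
    (Q := fun P => P.q.n) (f := fun t => .q (.n t)) (rk_lt (by decide +kernel))
    (rk_lt (by decide +kernel)) (rk_lt (by decide +kernel)) (fun _ => rfl) (fun _ => rfl) (fun _ => rfl) (fun _ => rfl)
    (s1.mono fun P ⟨_, r, _, h⟩ => ⟨r, h⟩) (fun r P P' hAg h k x => by
      have e : grN ρ P'.p.n r = grN ρ P.p.n r := grN_congr (hAg.g (.p (.n .l)) (rk_lt (by decide +kernel)))
        (hAg.g (.p (.n .m)) (rk_lt (by decide +kernel))) (hAg.g (.p (.n .rg)) (rk_lt (by decide +kernel)))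
        (hAg.g (.p (.n .th)) (rk_lt (by decide +kernel))) r
      rw [e]
      exact h k x) hC hρ hS fun P hP => (hB P hP).2.n
  exact s2.mono fun P ⟨rp, rq, h1, h2⟩ => ⟨rp, rq, fun k x => ⟨h1 k x, h2 k x⟩⟩

/-- the property of `gates_n` reads `l, m, rg, th` of `P.p.n` and of `P.q.n` only, so it does not change when the coordinates from
`.p (.f .l)` on do -/
lemma gates_n_agr {P P' : Prm} (hAg : Agr (.p (.f .l)) P P') (r : AR) : grN ρ P'.p.n r = grN ρ P.p.n r ∧ grN ρ P'.q.n r = grN ρ P.q.n r :=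
  ⟨grN_congr (hAg.g (.p (.n .l)) (rk_lt (by decide +kernel)))
        (hAg.g (.p (.n .m)) (rk_lt (by decide +kernel))) (hAg.g (.p (.n .rg)) (rk_lt (by decide +kernel)))
        (hAg.g (.p (.n .th)) (rk_lt (by decide +kernel))) r,
    grN_congr (hAg.g (.q (.n .l)) (rk_lt (by decide +kernel)))
        (hAg.g (.q (.n .m)) (rk_lt (by decide +kernel))) (hAg.g (.q (.n .rg)) (rk_lt (by decide +kernel)))
        (hAg.g (.q (.n .th)) (rk_lt (by decide +kernel))) r⟩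

/-! ### 5. The gates of the rotated lattice -/

/-- the level `c` is good for the gates of the rotated lattice, for all arms and all turns -/
def FLv (U : Ultrafilter ℕ) (b : ℝ) (PG : Measure CC.Gm) (S : ℕ → ℝ) (c0 ρ c : ℝ) : Prop :=
  ∀ (k : Arm) (x : Fin 3), SLv U b PG S c0 (scF 0 * ρ) (scF 1 * ρ) (scF 2 * ρ) k (rS x) (fun _ _ => 0) c

/-- **all but countably many levels are good** -/
theorem flv_ex (hC : Cv (U : Filter ℕ) (fun N => mwE N b) cN PG) (hρ : 0 < ρ) (hS : Sc U b S c0 ρ) :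
    ∃ E : Set ℝ, E.Countable ∧ ∀ c : ℝ, c ∉ E → FLv U b PG S c0 ρ c := by
  have s0 : ∀ i, 0 < scF i * ρ := fun i => mul_pos (scF_pos i).1 hρ
  choose E hE h using fun j : Arm × Fin 3 => slv_ex (PG := PG) (y := fun _ _ => 0) hC (s0 0) (s0 1) (s0 2) (hS.f 0 j.1 (rS j.2))
    (hS.f 1 j.1 (rS j.2)) (hS.f 2 j.1 (rS j.2)) (L1A.const 0) fun _ _ => le_rfl
  exact ⟨⋃ j, E j, countable_iUnion hE, fun c hc k x => h (k, x) c fun h' => hc (mem_iUnion.2 ⟨(k, x), h'⟩)⟩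

/-- **the left ends of all the cells are good levels**, for all but countably many `t0` -/
theorem flv_cell (hC : Cv (U : Filter ℕ) (fun N => mwE N b) cN PG) (hρ : 0 < ρ) (hS : Sc U b S c0 ρ) :
    ∃ E : Set ℝ, E.Countable ∧ ∀ t0 : ℝ, t0 ∉ E → ∀ (n : ℕ) (k : ℤ), FLv U b PG S c0 ρ (Nul.lft t0 n k) := by
  obtain ⟨E, hE, h⟩ := flv_ex (PG := PG) hC hρ hS
  refine ⟨⋃ j : ℕ × ℤ, (fun t0 : ℝ => Nul.lft t0 j.1 j.2) ⁻¹' E, countable_iUnion fun j => hE.preimage_of_injOn ?_, fun t0 ht n k => ?_⟩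
  · intro u _ v _ huv
    have h1 : u + (j.2 : ℝ) / 2 ^ j.1 = v + (j.2 : ℝ) / 2 ^ j.1 := huv
    exact add_right_cancel h1
  · exact h _ fun h' => ht (mem_iUnion.2 ⟨(n, k), h'⟩)

/-- one record of the rotated lattice -/
lemma gate_f1 {A : Type*} {R0 : A → Prm → Prop} {Q : Prm → Tp} {f : Tf → Fd} (h1 : (f .l).rk < (f .m).rk)
    (h2 : (f .m).rk < (f .rg).rk) (h3 : (f .rg).rk < (f .th).rk) (hl : ∀ P, (f .l).get P = (Q P).l)
    (hm : ∀ P, (f .m).get P = (Q P).m) (hr : ∀ P, (f .rg).get P = (Q P).rg) (ht : ∀ P, (f .th).get P = (Q P).th)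
    (hR : ∀ᶠ P in gP z B, ∃ a, R0 a P) (hRe : ∀ a (P P' : Prm), Agr (f .l) P P' → R0 a P → R0 a P')
    (hC : Cv (U : Filter ℕ) (fun N => mwE N b) cN PG) (hρ : 0 < ρ) (hS : Sc U b S c0 ρ)
    (hB : ∀ P, B.In z P → (Q P).Nr (bF ρ τ)) {J M : Type*} [Countable J] [Countable M] {y : A → J → ℕ → W3 × ℕ → ℝ}
    (hy : ∀ a j, L1A (U : Filter ℕ) (fun N => mwE N b) cN (y a j)) (y0 : ∀ a j N x, 0 ≤ y a j N x) {c : M → ℝ}
    (hc : ∀ m, FLv U b PG S c0 ρ (c m)) :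
    ∀ᶠ P in gP z B, ∃ (a : A) (r : AR), R0 a P ∧
      (∀ (k : Arm) (x : Fin 3) (j : J), SGF U b PG S c0 ρ k (rS x) (y a j) (grF ρ (Q P) r)) ∧
      ∀ (k : Arm) (x : Fin 3) (m : M), SGF U b PG S c0 ρ k (rS x) (fun _ _ => max 0 (c m - (Q P).l)) (grF ρ (Q P) r) := by
  have hw : ∀ P : Prm, B.In z P → GWin (bxF 0 ρ) (bxF 1 ρ) (bxF 2 ρ) ((f .l).get P) ((f .m).get P) ((f .rg).get P) ((f .th).get P) :=
    fun P hP => by
      rw [hl, hm, hr, ht]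
      exact gwinF hρ (hB P hP)
  have s0 : ∀ i, 0 < scF i * ρ := fun i => mul_pos (scF_pos i).1 hρ
  obtain ⟨y', hy'⟩ : ∃ y' : A → J ⊕ M → ℕ → W3 × ℕ → ℝ, y' = fun a => Sum.elim (y a) fun _ _ _ => 0 := ⟨_, rfl⟩
  obtain ⟨c', hc'⟩ : ∃ c' : J ⊕ M → ℝ, c' = Sum.elim (fun _ => (bxF 0 ρ).a0) c := ⟨_, rfl⟩
  have yl : ∀ a j, L1A (U : Filter ℕ) (fun N => mwE N b) cN (y' a j) := by
    rw [hy']
    rintro a (j | m)
    · exact hy a j
    · exact L1A.const 0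
  have yn : ∀ a j N x, 0 ≤ y' a j N x := by
    rw [hy']
    rintro a (j | m) N x
    · exact y0 a j N x
    · exact le_rfl
  filter_upwards [gate_lv h1 h2 h3 hR hRe hC (s0 0) (s0 1) (s0 2) (bxF_ok 0 hρ) (bxF_ok 1 hρ) (bxF_ok 2 hρ) hw
    (J := (Arm × Fin 3) × (J ⊕ M)) (k := fun _ j => j.1.1) (T := fun _ j => rS j.1.2) (y := fun a j => y' a j.2) (c := fun _ j => c' j.2)
    (fun _ j => hS.f 0 j.1.1 (rS j.1.2)) (fun _ j => hS.f 1 j.1.1 (rS j.1.2)) (fun _ j => hS.f 2 j.1.1 (rS j.1.2)) (fun a j => yl a j.2)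
    (fun a j N x => yn a j.2 N x) (by
      rw [hc', hy']
      rintro a ⟨⟨k, x⟩, j | m⟩
      · exact Or.inl le_rfl
      · exact Or.inr (hc m k x)), gP_win]
    with P ⟨a, t, t3, g1, g2, g3, g4, g5, g6⟩ hP
  have hl0 := (hw P hP).wl
  rw [hl, hm, hr, ht] at g6
  rw [hl] at hl0
  rw [hy', hc'] at g6
  refine ⟨a, ⟨t, t3, g2, g3, g4, g5⟩, g1, fun k x j => ?_, fun k x m => ?_⟩
  · have h7 : SGd U b PG S c0 (scF 0 * ρ) (scF 1 * ρ) (scF 2 * ρ) k (rS x) (y a j)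
        (mkG (bxF 0 ρ) (bxF 1 ρ) (bxF 2 ρ) (max (Q P).l (bxF 0 ρ).a0) t (Q P).m (Q P).rg ((Q P).th * (Q P).m) t3) := g6 ((k, x), Sum.inl j)
    rw [max_eq_left hl0.le] at h7
    exact h7
  · have h7 : SGd U b PG S c0 (scF 0 * ρ) (scF 1 * ρ) (scF 2 * ρ) k (rS x) (fun _ _ => 0)
        (mkG (bxF 0 ρ) (bxF 1 ρ) (bxF 2 ρ) (max (Q P).l (c m)) t (Q P).m (Q P).rg ((Q P).th * (Q P).m) t3) := g6 ((k, x), Sum.inr m)
    refine SGd.shift (l' := (Q P).l) (q' := max 0 (c m - (Q P).l)) ?_ rfl h7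
    show (Q P).l + max 0 (c m - (Q P).l) = max (Q P).l (c m) + 0
    rcases le_total (c m) (Q P).l with h | h
    · rw [max_eq_left h, max_eq_left (by linarith)]
    · rw [max_eq_right h, max_eq_right (by linarith)]
      ring

/-- **the gates of the rotated lattice** -/
theorem gates_f {A : Type*} {R0 : A → Prm → Prop}
    (hR : ∀ᶠ P in gP z B, ∃ a, R0 a P) (hRe : ∀ a (P P' : Prm), Agr (.p (.f .l)) P P' → R0 a P → R0 a P')
    (hC : Cv (U : Filter ℕ) (fun N => mwE N b) cN PG) (hρ : 0 < ρ) (hS : Sc U b S c0 ρ) (hB : BxNr z B ρ τ)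
    {J M : Type*} [Countable J] [Countable M] {y : A → J → ℕ → W3 × ℕ → ℝ}
    (hy : ∀ a j, L1A (U : Filter ℕ) (fun N => mwE N b) cN (y a j)) (y0 : ∀ a j N x, 0 ≤ y a j N x) {c : M → ℝ}
    (hc : ∀ m, FLv U b PG S c0 ρ (c m)) :
    ∀ᶠ P in gP z B, ∃ (a : A) (rp rq : AR), R0 a P ∧
      (∀ (k : Arm) (x : Fin 3) (j : J), SGF U b PG S c0 ρ k (rS x) (y a j) (grF ρ P.p.f rp) ∧
        SGF U b PG S c0 ρ k (rS x) (y a j) (grF ρ P.q.f rq)) ∧
      ∀ (k : Arm) (x : Fin 3) (m : M), SGF U b PG S c0 ρ k (rS x) (fun _ _ => max 0 (c m - P.p.f.l)) (grF ρ P.p.f rp) ∧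
        SGF U b PG S c0 ρ k (rS x) (fun _ _ => max 0 (c m - P.q.f.l)) (grF ρ P.q.f rq) := by
  have s1 := gate_f1 (Q := fun P => P.p.f) (f := fun t => .p (.f t)) (rk_lt (by decide +kernel))
    (rk_lt (by decide +kernel)) (rk_lt (by decide +kernel)) (fun _ => rfl) (fun _ => rfl) (fun _ => rfl) (fun _ => rfl)
    hR hRe hC hρ hS (fun P hP => (hB P hP).1.f) hy y0 hc
  have s2 := gate_f1 (A := A × AR) (R0 := fun a P => R0 a.1 P ∧
      (∀ (k : Arm) (x : Fin 3) (j : J), SGF U b PG S c0 ρ k (rS x) (y a.1 j) (grF ρ P.p.f a.2)) ∧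
      ∀ (k : Arm) (x : Fin 3) (m : M), SGF U b PG S c0 ρ k (rS x) (fun _ _ => max 0 (c m - P.p.f.l)) (grF ρ P.p.f a.2))
    (Q := fun P => P.q.f) (f := fun t => .q (.f t)) (rk_lt (by decide +kernel))
    (rk_lt (by decide +kernel)) (rk_lt (by decide +kernel)) (fun _ => rfl) (fun _ => rfl) (fun _ => rfl) (fun _ => rfl)
    (s1.mono fun P ⟨a, r, h⟩ => ⟨(a, r), h⟩) (fun a P P' hAg h => by
      have el : P'.p.f.l = P.p.f.l := hAg.g (.p (.f .l)) (rk_lt (by decide +kernel))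
      have e : grF ρ P'.p.f a.2 = grF ρ P.p.f a.2 := grF_congr el
        (hAg.g (.p (.f .m)) (rk_lt (by decide +kernel))) (hAg.g (.p (.f .rg)) (rk_lt (by decide +kernel)))
        (hAg.g (.p (.f .th)) (rk_lt (by decide +kernel))) a.2
      rw [e, el]
      exact ⟨hRe a.1 P P' (hAg.mono (rk_lt (by decide +kernel)).le) h.1, h.2⟩) hC hρ hS (fun P hP => (hB P hP).2.f)
      (y := fun a => y a.1) (fun a => hy a.1) (fun a => y0 a.1) hc
  exact s2.mono fun P ⟨a, rq, h1, h2, h3⟩ => ⟨a.1, a.2, rq, h1.1, fun k x j => ⟨h1.2.1 k x j, h2 k x j⟩, fun k x m => ⟨h1.2.2 k x m, h3 k x m⟩⟩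

end gates

end Pool.Agent.ROT.F3
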