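import Pool.Agent.ROT.F3GenM

/-!
# ROT / F3GenG4 (helper59): the families of gates exist for generic data

* **`famN_ev`** : the native gates `FamN` exist for generic data;
* **`famF_ev'`** : the foreign gates `FamF` exist for generic data, with one choice of radii, over the functional bases `y a` of an
  object `a` chosen before `.p (.f .l)` and over the thresholds of all cells; **`famF_ev`** : in the words of F3GenM (`RF`);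
  **`rnf_ev`** : from `RN` to `RN ∧ RF`; `memL_ev` : native gates and gates of the cells only (for the members of dense families).
-/

set_option autoImplicit false
set_option linter.unusedSectionVars false

open Filter MeasureTheory Topology Set

open scoped NNReal ENNReal BoundedContinuousFunction

namespace Pool.Agent.ROT.F3E

open Pool.Agent.ROT.F3 Pool.Agent.ROT.F3.CK
open Pool.Agent.ROT.F3.LF (Cv Lm Ev bi)
open Gn (Fd Ef Tf Agr Bx gP gP_win rk_lt)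

section

variable {U : Ultrafilter ℕ} {b : ℝ} {PG : Measure CC.Gm} {S : ℕ → ℝ} {c0 ρ τ t0 : ℝ} {z : ℂ} {B : Bx}

/-- many members at once -/
lemma aig_ex {K : Type*} {κ : K → Arm} {T : K → LSym} {y : K → ℕ → W3 × ℕ → ℝ} {G : K → F3.GP} {R R2 R3 : K → ℝ}
    (hC : Cv (U : Filter ℕ) (fun N => mwE N b) cN PG) (hS0 : ∀ N, 0 < S N) (hS : ∀ᶠ N : ℕ in U, S N = N)
    (hm : ∀ i, 0 < (G i).m) (h : ∀ i, SGd U b PG S c0 (R i) (R2 i) (R3 i) (κ i) (T i) (y i) (G i)) :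
    ∃ (B : K → Set CC.Gm) (Pc Pg : K → CC.Gm → ℝ), ∀ i, AI1 (U : Filter ℕ) b PG (κ i)
      (fun N x => c0 < dst N x ∧ sgE (G i) (T i) (y i N x) N (κ i) x) (fun N x => sgc (G i) (T i) (y i N x) N (κ i) x)
      (fun N x => sgx (G i) (T i) (y i N x) N (κ i) x) (B i) (Pc i) (Pg i) := by
  choose B Pc Pg h1 using fun i => (h i).ai1 hC hS0 hS (hm i)
  exact ⟨B, Pc, Pg, h1⟩

/-! ### 1. The lattice 0 -/

/-- **the native gates exist** -/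
theorem famN_ev (hC : Cv (U : Filter ℕ) (fun N => mwE N b) cN PG) (hρ : 0 < ρ) (hS0 : ∀ N, 0 < S N) (hS : ∀ᶠ N : ℕ in U, S N = N)
    (hSc : Sc U b S c0 ρ) (hB : BxNr z B ρ τ) :
    ∀ᶠ P in gP z B, ∃ (K0 : Bool → F3.GP) (F0 : Bool → Fin 3 → Ga), FamN U b PG S c0 ρ P K0 F0 := by
  filter_upwards [gates_n hC hρ hSc hB, gP_win] with P ⟨rp, rq, h⟩ hP
  obtain ⟨r, hr⟩ : ∃ r : Bool → AR, r = fun E => cond E rq rp := ⟨_, rfl⟩
  have h1 : ∀ (E : Bool) (κ : Arm) (x : Fin 3), SGN U b PG S c0 ρ κ (rS x) (fun _ _ => 0) (grN ρ (enB P E).n (r E)) := by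
    intro E κ x
    rw [hr]
    cases E
    · exact (h κ x).1
    · exact (h κ x).2
  have hm : ∀ E, 0 < (grN ρ (enB P E).n (r E)).m := by
    intro E
    cases E
    · exact (gwinN hρ (hB P hP).1.n).wm0
    · exact (gwinN hρ (hB P hP).2.n).wm0
  obtain ⟨B', Pc, Pg, h2⟩ := aig_ex (K := (Bool × Fin 3) × Arm) (κ := fun i => i.2) (T := fun i => rS (-dxB i.1.1 i.1.2))
    (y := fun _ _ _ => 0) (G := fun i => grN ρ (enB P i.1.1).n (r i.1.1)) hC hS0 hS (fun i => hm i.1.1)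
    (fun i => h1 i.1.1 i.2 (-dxB i.1.1 i.1.2))
  exact ⟨fun E => grN ρ (enB P E).n (r E), fun E c => ⟨fun κ => B' ((E, c), κ), fun κ => Pc ((E, c), κ), fun κ => Pg ((E, c), κ)⟩,
    fun E => ⟨r E, rfl⟩, fun E κ x => h1 E κ x, fun E c κ => h2 ((E, c), κ)⟩

/-! ### 2. The rotated lattice -/

/-- **the foreign gates exist** -/
theorem famF_ev' {A : Type*} {R0 : A → Prm → Prop}
    (hR : ∀ᶠ P in gP z B, ∃ a, R0 a P) (hRe : ∀ a (P P' : Prm), Agr (.p (.f .l)) P P' → R0 a P → R0 a P')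
    {y : A → Bool → Fin 3 → Arm → ℕ → W3 × ℕ → ℝ}
    (hy : ∀ a P, R0 a P → ∀ E c κ, F3.L1A (U : Filter ℕ) (fun N => mwE N b) cN (y a E c κ) ∧ ∀ N x, 0 ≤ y a E c κ N x)
    (hC : Cv (U : Filter ℕ) (fun N => mwE N b) cN PG) (hρ : 0 < ρ) (hS0 : ∀ N, 0 < S N) (hS : ∀ᶠ N : ℕ in U, S N = N)
    (hSc : Sc U b S c0 ρ) (hB : BxNr z B ρ τ) (ht : ∀ (n : ℕ) (k : ℤ), FLv U b PG S c0 ρ (Nul.lft t0 n k)) :
    ∀ᶠ P in gP z B, ∃ a : A, R0 a P ∧ ∃ f : (Bool → F3.GP) × (Bool → Fin 3 → Ga) × (ℕ → ℕ → Bool → Fin 3 → Ga),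
      FamF U b PG S c0 ρ P f.1 (y a) f.2.1 ∧ ∀ m n, FamF U b PG S c0 ρ P f.1 (fun E _ κ _ _ => lvB P t0 m n E κ) (f.2.2 m n) := by
  obtain ⟨Gd, hGd⟩ : ∃ Gd : A → Prop, Gd = fun a => ∀ E c κ, F3.L1A (U : Filter ℕ) (fun N => mwE N b) cN (y a E c κ) ∧
    ∀ N x, 0 ≤ y a E c κ N x := ⟨_, rfl⟩
  have hGd' : ∀ a P, R0 a P → Gd a := by
    rw [hGd]
    exact hy
  have hGi : ∀ a, Gd a → ∀ E c κ, F3.L1A (U : Filter ℕ) (fun N => mwE N b) cN (y a E c κ) ∧ ∀ N x, 0 ≤ y a E c κ N x := by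
    rw [hGd]
    exact fun a h => h
  have h0 := gates_f (A := {a : A // Gd a}) (R0 := fun a P => R0 a.1 P) (J := (Bool × Fin 3) × Arm) (M := ℕ × Fin 2)
    (y := fun a j => y a.1 j.1.1 j.1.2 j.2) (c := fun m => cL t0 m.1 m.2)
    (hR.mono fun P ⟨a, ha⟩ => ⟨⟨a, hGd' a P ha⟩, ha⟩) (fun a P P' hAg h => hRe a.1 P P' hAg h) hC hρ hSc hB
    (fun a j => (hGi a.1 a.2 j.1.1 j.1.2 j.2).1) (fun a j N x => (hGi a.1 a.2 j.1.1 j.1.2 j.2).2 N x) fun m => ht _ _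
  filter_upwards [h0, gP_win] with P ⟨a, rp, rq, g1, g2, g3⟩ hP
  obtain ⟨r, hr⟩ : ∃ r : Bool → AR, r = fun E => cond E rq rp := ⟨_, rfl⟩
  have h1 : ∀ (E E' : Bool) (c : Fin 3) (κ κ' : Arm) (x : Fin 3), SGF U b PG S c0 ρ κ' (rS x) (y a.1 E' c κ)
      (grF ρ (enB P E).f (r E)) := by
    intro E E' c κ κ' x
    rw [hr]
    cases E
    · exact (g2 κ' x ((E', c), κ)).1
    · exact (g2 κ' x ((E', c), κ)).2
  have h2 : ∀ (m n : ℕ) (E : Bool) (κ κ' : Arm) (x : Fin 3), SGF U b PG S c0 ρ κ' (rS x) (fun _ _ => lvB P t0 m n E κ)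
      (grF ρ (enB P E).f (r E)) := by
    intro m n E κ κ' x
    rw [hr]
    cases E
    · exact (g3 κ' x (m, sxA κ)).1
    · exact (g3 κ' x (n, sxA κ)).2
  have hm : ∀ E, 0 < (grF ρ (enB P E).f (r E)).m := by
    intro E
    cases E
    · exact (gwinF hρ (hB P hP).1.f).wm0
    · exact (gwinF hρ (hB P hP).2.f).wm0
  obtain ⟨B1, Pc1, Pg1, h3⟩ := aig_ex (K := (Bool × Fin 3) × Arm) (κ := fun i => i.2) (T := fun i => rS (-dxB i.1.1 i.1.2))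
    (y := fun i => y a.1 i.1.1 i.1.2 i.2) (G := fun i => grF ρ (enB P i.1.1).f (r i.1.1)) hC hS0 hS (fun i => hm i.1.1)
    (fun i => h1 i.1.1 i.1.1 i.1.2 i.2 i.2 (-dxB i.1.1 i.1.2))
  obtain ⟨B2, Pc2, Pg2, h4⟩ := aig_ex (K := ((ℕ × ℕ) × (Bool × Fin 3)) × Arm) (κ := fun i => i.2) (T := fun i => rS (-dxB i.1.2.1 i.1.2.2))
    (y := fun i _ _ => lvB P t0 i.1.1.1 i.1.1.2 i.1.2.1 i.2) (G := fun i => grF ρ (enB P i.1.2.1).f (r i.1.2.1)) hC hS0 hS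
    (fun i => hm i.1.2.1) (fun i => h2 i.1.1.1 i.1.1.2 i.1.2.1 i.2 i.2 (-dxB i.1.2.1 i.1.2.2))
  exact ⟨a.1, g1, (fun E => grF ρ (enB P E).f (r E),
    fun E c => ⟨fun κ => B1 ((E, c), κ), fun κ => Pc1 ((E, c), κ), fun κ => Pg1 ((E, c), κ)⟩,
    fun m n E c => ⟨fun κ => B2 (((m, n), (E, c)), κ), fun κ => Pc2 (((m, n), (E, c)), κ), fun κ => Pg2 (((m, n), (E, c)), κ)⟩),
    ⟨fun E => ⟨r E, rfl⟩, fun E c κ => h1 E E c κ κ _, fun E c κ => h3 ((E, c), κ)⟩,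
    fun m n => ⟨fun E => ⟨r E, rfl⟩, fun E c κ => h2 m n E κ κ _, fun E c κ => h4 (((m, n), (E, c)), κ)⟩⟩

/-- a limit functional is macroscopic -/
lemma l1a_lm {y : ℕ → W3 × ℕ → ℝ} {Φ : CC.Gm → ℝ} (h : Lm (U : Filter ℕ) (fun N => mwE N b) cN PG y Φ) :
    F3.L1A (U : Filter ℕ) (fun N => mwE N b) cN y := LF.l1a_iff.2 h.l1a

/-- **the foreign gates exist**, in the words of F3GenM -/
theorem famF_ev {R0 : ObN → Prm → Prop}
    (hR : ∀ᶠ P in gP z B, ∃ a, R0 a P) (hRe : ∀ a (P P' : Prm), Agr (.p (.f .l)) P P' → R0 a P → R0 a P')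
    (hy : ∀ a P, R0 a P → ∀ E c κ, F3.L1A (U : Filter ℕ) (fun N => mwE N b) cN (a.y E c κ))
    (hC : Cv (U : Filter ℕ) (fun N => mwE N b) cN PG) (hρ : 0 < ρ) (hS0 : ∀ N, 0 < S N) (hS : ∀ᶠ N : ℕ in U, S N = N)
    (hSc : Sc U b S c0 ρ) (hB : BxNr z B ρ τ) (ht : ∀ (n : ℕ) (k : ℤ), FLv U b PG S c0 ρ (Nul.lft t0 n k)) :
    ∀ᶠ P in gP z B, ∃ a f, R0 a P ∧ RF U b PG S c0 ρ t0 a f P := by
  refine (famF_ev' hR hRe (y := fun a => a.y) (fun a P h E c κ => ⟨hy a P h E c κ, fun N x => a.yn E c κ N x⟩) hC hρ hS0 hS hSc hB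
    ht).mono ?_
  rintro P ⟨a, h1, f, h2, h3⟩
  exact ⟨a, ⟨f.1, f.2.1, f.2.2⟩, h1, h2, h3⟩

/-- **the foreign gates over the functional thresholds** -/
theorem rnf_ev {Rm : ℝ} (hR : ∀ᶠ P in gP z B, ∃ a, RN U b PG S c0 ρ Rm a P)
    (hC : Cv (U : Filter ℕ) (fun N => mwE N b) cN PG) (hρ : 0 < ρ) (hS0 : ∀ N, 0 < S N) (hS : ∀ᶠ N : ℕ in U, S N = N)
    (hSc : Sc U b S c0 ρ) (hB : BxNr z B ρ τ) (ht : ∀ (n : ℕ) (k : ℤ), FLv U b PG S c0 ρ (Nul.lft t0 n k)) :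
    ∀ᶠ P in gP z B, ∃ a f, RN U b PG S c0 ρ Rm a P ∧ RF U b PG S c0 ρ t0 a f P :=
  famF_ev hR (fun _ _ _ hAg h => h.agr hAg) (fun _ _ h E c κ => l1a_lm (h.thr.lm E c κ)) hC hρ hS0 hS hSc hB ht

/-- **native gates and gates of the cells** (for the members of dense families) -/
theorem memL_ev (hC : Cv (U : Filter ℕ) (fun N => mwE N b) cN PG) (hρ : 0 < ρ) (hS0 : ∀ N, 0 < S N) (hS : ∀ᶠ N : ℕ in U, S N = N)
    (hSc : Sc U b S c0 ρ) (hB : BxNr z B ρ τ) (ht : ∀ (n : ℕ) (k : ℤ), FLv U b PG S c0 ρ (Nul.lft t0 n k)) :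
    ∀ᶠ P in gP z B, ∃ (K0 : Bool → F3.GP) (F0 : Bool → Fin 3 → Ga) (K1 : Bool → F3.GP) (Fl : ℕ → ℕ → Bool → Fin 3 → Ga),
      FamN U b PG S c0 ρ P K0 F0 ∧ ∀ m n, FamF U b PG S c0 ρ P K1 (fun E _ κ _ _ => lvB P t0 m n E κ) (Fl m n) := by
  have h0 := famF_ev' (A := (Bool → F3.GP) × (Bool → Fin 3 → Ga)) (R0 := fun a P => FamN U b PG S c0 ρ P a.1 a.2)
    ((famN_ev hC hρ hS0 hS hSc hB).mono fun P ⟨K0, F0, h⟩ => ⟨(K0, F0), h⟩) (fun _ _ _ hAg h => h.agr hAg)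
    (y := fun _ _ _ _ _ _ => 0) (fun _ _ _ _ _ _ => ⟨F3.L1A.const 0, fun _ _ => le_rfl⟩) hC hρ hS0 hS hSc hB ht
  refine h0.mono ?_
  rintro P ⟨a, h1, f, -, h2⟩
  exact ⟨a.1, a.2, f.1, f.2.2, h1, h2⟩

end

end Pool.Agent.ROT.F3E
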