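import Pool.Agent.ROT.F3GenM
import Pool.Agent.ROT.F3GenCP

/-!
# ROT, block F3, row GEN (helper71): the soft rows over the objects of the members

* `FamN.ms`, `FamF.ms` : the gates of all members are measurable;
* `SoftN` : the soft fields of helper2's `PkI` for all the pairs; **`softN_sft`**, **`softN_ev`** : generic, with the same objects;
* `RM` : the whole relation (`RN`, `RF`, `SoftN`); **`rm_ev`** : its row, in every smaller box.
-/

set_option autoImplicit false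
set_option linter.unusedSectionVars false

open MeasureTheory Filter Topology Set unitInterval

namespace Pool.Agent.ROT.F3E

open Pool.Agent.ROT.F3 Pool.Agent.ROT.F3.CK
open Pool.Agent.ROT.F3.LF (Cv Lm Ev bi)

section

variable {V : Ultrafilter ℕ} {bb : ℝ} {PG : Measure CC.Gm} {S : ℕ → ℝ} {c0 ρ t0 Rm : ℝ} {P P' : Prm} {K0 K1 : Bool → F3.GP}
  {F0 F1 : Bool → Fin 3 → Ga} {y : Bool → Fin 3 → Arm → ℕ → W3 × ℕ → ℝ} {a : ObN} {b : ObF} {z : ℂ} {B : Gn.Bx}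

/-- the native gates are measurable -/
lemma FamN.ms (h : FamN V bb PG S c0 ρ P K0 F0) (E : Bool) (x : Fin 3) : (F0 E x).Ms :=
  ⟨fun κ => (h.ai E x κ).ev.ms', fun κ => (h.ai E x κ).tc.ms', fun κ => (h.ai E x κ).tg.ms'⟩

/-- the foreign gates are measurable -/
lemma FamF.ms (h : FamF V bb PG S c0 ρ P K1 y F1) (E : Bool) (x : Fin 3) : (F1 E x).Ms :=
  ⟨fun κ => (h.ai E x κ).ev.ms', fun κ => (h.ai E x κ).tc.ms', fun κ => (h.ai E x κ).tg.ms'⟩

/-- **the soft conditions** of the classes of all the pairs and of their main arcs -/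
def SoftN (PG : Measure CC.Gm) (P : Prm) (a : ObN) (b : ObF) : Prop :=
  ∀ i j : Fin 3, i ≠ j → ClN PG (jD0 P i j) (prG a.F0 i j) ∧ ClN PG (jDR P i j) (prG b.F1 i j) ∧
    (∀ m n, ClN PG (jDR P i j) (prG (b.Fl m n) i j)) ∧ (i = 0 → MnN PG (jDR P i j) P.p.s P.q.s (prG b.F1 i j)) ∧
    (i = 0 → ∀ m n, MnN PG (jDR P i j) P.p.s P.q.s (prG (b.Fl m n) i j))

/-- **the soft conditions as a row** for any relation `R` of the objects which contains `FamN` and `RF` -/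
theorem softN_sft [IsFiniteMeasure PG] (hB : ∀ P, B.In z P → P.Ok) {R : ObN × ObF → Prm → Prop}
    (hN : ∀ o P, R o P → FamN V bb PG S c0 ρ P o.1.K0 o.1.F0) (hF : ∀ o P, R o P → RF V bb PG S c0 ρ t0 o.1 o.2 P) :
    Gn.Sft z B R fun o P => SoftN PG P o.1 o.2 :=
  Gn.sft_pk (R := R) (PG := PG) hB (G0 := fun o => prG o.1.F0) (H := fun o => prG o.2.F1) (Hl := fun o i j m n => prG (o.2.Fl m n) i j)
    (fun o P h i j => prG_ms (fun E x => (hN o P h).ms E x) i j) (fun o P h i j => prG_ms (fun E x => (hF o P h).fam.ms E x) i j)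
    fun o P h i j m n => prG_ms (fun E x => ((hF o P h).cel m n).ms E x) i j

/-- **the soft conditions, eventually**, with the same objects -/
theorem softN_ev [IsFiniteMeasure PG] (hB : ∀ P, B.In z P → P.Ok) {R : ObN × ObF → Prm → Prop}
    (hR : ∀ᶠ P in Gn.gP z B, ∃ o, R o P) (hRe : ∀ o (P P' : Prm), Gn.Agr (.p (.n .r)) P P' → R o P → R o P')
    (hN : ∀ o P, R o P → FamN V bb PG S c0 ρ P o.1.K0 o.1.F0) (hF : ∀ o P, R o P → RF V bb PG S c0 ρ t0 o.1 o.2 P) :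
    ∀ᶠ P in Gn.gP z B, ∃ o, R o P ∧ SoftN PG P o.1 o.2 :=
  Gn.sft_ev hR hRe (softN_sft hB hN hF)

/-- **the whole relation** of the objects `o = (a, b)` of the data `P` -/
structure RM (V : Ultrafilter ℕ) (bb : ℝ) (PG : Measure CC.Gm) (S : ℕ → ℝ) (c0 ρ t0 Rm : ℝ) (o : ObN × ObF) (P : Prm) : Prop where
  rn : RN V bb PG S c0 ρ Rm o.1 P
  rf : RF V bb PG S c0 ρ t0 o.1 o.2 P
  sf : SoftN PG P o.1 o.2

/-- the relation of both objects -/
def RNF (V : Ultrafilter ℕ) (bb : ℝ) (PG : Measure CC.Gm) (S : ℕ → ℝ) (c0 ρ t0 Rm : ℝ) (o : ObN × ObF) (P : Prm) : Prop :=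
  RN V bb PG S c0 ρ Rm o.1 P ∧ RF V bb PG S c0 ρ t0 o.1 o.2 P

lemma RNF.agr {o : ObN × ObF} (hAg : Gn.Agr (.p (.n .r)) P P') (h : RNF V bb PG S c0 ρ t0 Rm o P) : RNF V bb PG S c0 ρ t0 Rm o P' :=
  ⟨h.1.agr (hAg.mono (by decide +kernel)), h.2.agr hAg⟩

/-- **the row of the whole relation** in one box -/
theorem rm_ev1 [IsFiniteMeasure PG] (hB : ∀ P, B.In z P → P.Ok)
    (h : ∀ᶠ P in Gn.gP z B, ∃ a b, RN V bb PG S c0 ρ Rm a P ∧ RF V bb PG S c0 ρ t0 a b P) :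
    ∀ᶠ P in Gn.gP z B, ∃ o, RM V bb PG S c0 ρ t0 Rm o P := by
  have h1 : ∀ᶠ P in Gn.gP z B, ∃ o, RNF V bb PG S c0 ρ t0 Rm o P := h.mono fun P ⟨a, b, h1, h2⟩ => ⟨(a, b), h1, h2⟩
  have h2 := softN_ev hB h1 (fun o P P' => RNF.agr) (fun o P h => h.1.fam) fun o P h => h.2
  exact h2.mono fun P ⟨o, h3, h4⟩ => ⟨o, h3.1, h3.2, h4⟩

/-- **the row of the whole relation**, in every smaller box (the argument `hR` of helper15's `nul_row`) -/
theorem rm_ev [IsFiniteMeasure PG] (hB : ∀ P, B.In z P → P.Ok)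
    (h : ∀ B' : Gn.Bx, B'.Le B z → ∀ᶠ P in Gn.gP z B', ∃ a b, RN V bb PG S c0 ρ Rm a P ∧ RF V bb PG S c0 ρ t0 a b P) :
    ∀ B' : Gn.Bx, B'.Le B z → ∀ᶠ P in Gn.gP z B', ∃ o, RM V bb PG S c0 ρ t0 Rm o P :=
  fun B' hB' => rm_ev1 (fun P hP => hB P (hB' P hP)) (h B' hB')

end

end Pool.Agent.ROT.F3E
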