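import Pool.Agent.ROT.F3AI1
import Pool.Agent.ROT.F3K3Z

/-!
# ROT, F3, row GEN (helper36): one member `(E, a, κ)` of the family of gates

* `AI1.ain` : the data of one arm as data of four arms; `ai1_mem`, `ai1_un`, **`ai1_fa`** : closed conditions of the gates of one arm;
* `axO` : the functional threshold of one member (`axF` of F3K3Z is `axO` at the arm `xai s`); **`axO_ax`** : on the event of the native
  gates it is the level of the native gate `x` over the root in the turned direction, and positive;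
* **`thr_ex`** : functionals of the words with this limit in the frame of the rotated lattice.
-/

set_option autoImplicit false

namespace Pool.Agent.ROT.F3.CK

open MeasureTheory Filter Topology Set unitInterval

open scoped NNReal ENNReal Classical

open Pool.Agent.ROT.F3 Pool.Agent.ROT.F3.LF

variable {U : Filter ℕ} {b : ℝ} {PG : Measure CC.Gm} {k : Arm} {A : ℕ → W3 × ℕ → Prop} {c g : ℕ → W3 × ℕ → ℕ} {B : Set CC.Gm}
  {Pc Pg : CC.Gm → ℝ}

/-- the data of one arm as data of four arms (the other three are empty) -/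
theorem AI1.ain (hC : Cv U (fun N => mwE N b) cN PG) (h : AI1 U b PG k A c g B Pc Pg) :
    AIn U b PG (Function.update (fun _ _ _ => False) k A) (Function.update (fun _ _ _ => 0) k c)
      (Function.update (fun _ _ _ => 0) k g) (Function.update (fun _ => ∅) k B) (Function.update (fun _ _ => 0) k Pc)
      (Function.update (fun _ _ => 0) k Pg) := by
  have zt : ∀ q : Arm, Lm U (fun N => mwE N b) cN PG (fun (_ : ℕ) (x : W3 × ℕ) =>
      bi False * (((0 : ℕ) : ℝ) / (arcw x.2 q x.1).length)) fun _ => (0 : ℝ) := fun q => by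
    have e : (fun (_ : ℕ) (x : W3 × ℕ) => bi False * (((0 : ℕ) : ℝ) / (arcw x.2 q x.1).length)) = fun _ _ => (0 : ℝ) := by
      funext N x
      rw [bi_neg not_false, zero_mul]
    rw [e]
    exact Lm.const hC 0
  refine ⟨fun q => ?_, fun q => ?_, fun q => ?_, ?_⟩
  · by_cases hq : q = k
    · subst hq
      rw [Function.update_self, Function.update_self]
      exact h.ev
    · rw [Function.update_of_ne hq, Function.update_of_ne hq]
      exact Ev.empty hC
  · by_cases hq : q = k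
    · subst hq
      rw [Function.update_self, Function.update_self, Function.update_self]
      exact h.tc
    · rw [Function.update_of_ne hq, Function.update_of_ne hq, Function.update_of_ne hq]
      exact zt q
  · by_cases hq : q = k
    · subst hq
      rw [Function.update_self, Function.update_self, Function.update_self]
      exact h.tg
    · rw [Function.update_of_ne hq, Function.update_of_ne hq, Function.update_of_ne hq]
      exact zt q
  · filter_upwards [h.pos] with N hN x hx q hA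
    by_cases hq : q = k
    · subst hq
      rw [Function.update_self] at hA ⊢
      rw [Function.update_self]
      exact hN x hx hA
    · rw [Function.update_of_ne hq] at hA
      exact hA.elim

/-- **closed conditions of the gates of one arm**, with a further functional -/
theorem ai1_mem [U.NeBot] (hU : U ≤ atTop) (hC : Cv U (fun N => mwE N b) cN PG) (hP : ∀ᵐ y ∂PG, 0 < y.1)
    (H : AI1 U b PG k A c g B Pc Pg) {y : ℕ → W3 × ℕ → ℝ} {Y : CC.Gm → ℝ} (hy : Lm U (fun N => mwE N b) cN PG y Y)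
    {F : C(I, ℂ) → ℝ → I → I → I → ℝ → ℝ}
    (hF : Continuous fun z : C(I, ℂ) × ℝ × I × I × I × ℝ => F z.1 z.2.1 z.2.2.1 z.2.2.2.1 z.2.2.2.2.1 z.2.2.2.2.2)
    (hA : ∀ᶠ N : ℕ in U, ∀ x, Spt x → A N x → F (crv x.1 x.1.length N) (x.1.length / uT N) (fr x.2 x.1.length)
      (fr (poA k x (c N x)) x.1.length) (fr (poA k x (g N x)) x.1.length) (y N x) ≤ 3 / N) :
    ∀ᵐ γ ∂PG, γ ∈ B → F γ.2.2 γ.1 (pji (muG γ)) (pji (tmA k (muG γ) (Pc γ))) (pji (tmA k (muG γ) (Pg γ))) (Y γ) ≤ 0 := by
  have h := arm_mem hU hC hP (H.ain hC) k hy hF (by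
    simp only [Function.update_self]
    exact hA)
  simpa only [Function.update_self] using h

/-- **the times of the gates of one arm** -/
theorem ai1_un [U.NeBot] (hC : Cv U (fun N => mwE N b) cN PG) (H : AI1 U b PG k A c g B Pc Pg) :
    ∀ᵐ γ ∂PG, γ ∈ B → 0 ≤ Pc γ ∧ Pc γ ≤ Pg γ ∧ Pg γ ≤ 1 := by
  have h := arm_un hC (H.ain hC) k
  simpa only [Function.update_self] using h

/-- constant data -/
def cD (E : Tp) (d : ℂ) : Dt where
  P := E
  Q := E
  V := ⟨0, 0, 0, 0⟩
  V' := ⟨0, 0, 0, 0⟩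
  d := d
  d' := d
  t := d
  t' := d
  y := 0
  y' := 0
  z := 0
  z' := 0

lemma cD_tp (E : Tp) (d : ℂ) (k : Arm) : (cD E d).gtp k = E ∧ (cD E d).gdr k = d := by
  cases k <;> exact ⟨rfl, rfl⟩

lemma cD_ok {E : Tp} {d : ℂ} {G : GP} {T : LSym} (hG : G.Ok E) (hT : T.L d = 1) : GOk (cD E d) (fun _ => G) fun _ => T :=
  ⟨fun k => by
    rw [(cD_tp E d k).1]
    exact hG, fun k => by
    rw [(cD_tp E d k).2]
    exact hT⟩

/-- **(E3)** closed conditions of the gates of one member at the base `y` -/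
theorem ai1_fa [U.NeBot] (hU : U ≤ atTop) (hC : Cv U (fun N => mwE N b) cN PG) (hP : ∀ᵐ y ∂PG, 0 < y.1) {E : Tp} {G : GP}
    {T : LSym} {d : ℂ} (hG : G.Ok E) (hT : T.L d = 1) (hd : ‖d‖ = 1) {c0 : ℝ} {y : ℕ → W3 × ℕ → ℝ}
    (H : AI1 U b PG k (fun N x => c0 < ‖ps x.1 x.2‖ / N ∧ sgE G T (y N x) N k x) (fun N x => sgc G T (y N x) N k x)
      (fun N x => sgx G T (y N x) N k x) B Pc Pg) (h1 : 0 < G.ρ1) (h2 : 0 < G.ρ') {Y : CC.Gm → ℝ}
    (hy : Lm U (fun N => mwE N b) cN PG y Y) :
    ∀ᵐ γ ∂PG, γ ∈ B → FaI d (E.l + Y γ) E.m G.r1 G.r1' G.ρ1 E.rg γ.2.2 (rtA k γ) (pji (tAt k γ (Pc γ))) (pji (tAt k γ (Pg γ)))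
      (rtA (oppA k) γ) := by
  have ok := cD_ok hG hT
  have key := ai1_mem hU hC hP H hy (F := fun g _ m a b y => faF d (E.l + y) E.m G.r1 G.r1' G.ρ1 E.rg g (rtI k m) a b (endI k m))
    ?_ ?_
  · filter_upwards [key] with γ hγ hB
    have h3 := faI_of hd (hγ hB)
    rw [tAt_tm, tAt_tm, rtA_rtI, rtA_endI]
    exact h3
  · exact faF_cont hd _ _ _ _ _ (by fun_prop) (by fun_prop) ((rtI_cont k).comp (by fun_prop)) (by fun_prop) (by fun_prop)
      ((endI_cont k).comp (by fun_prop))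
  · have e1 : ∀ᶠ N : ℕ in U, 1 ≤ G.ρ1 * N := by
      have : Tendsto (fun N : ℕ => G.ρ1 * (N : ℝ)) atTop atTop := tendsto_natCast_atTop_atTop.const_mul_atTop h1
      exact hU (this.eventually_ge_atTop 1)
    have e2 : ∀ᶠ N : ℕ in U, 1 ≤ G.ρ' * N := by
      have : Tendsto (fun N : ℕ => G.ρ' * (N : ℝ)) atTop atTop := tendsto_natCast_atTop_atTop.const_mul_atTop h2
      exact hU (this.eventually_ge_atTop 1)
    filter_upwards [e1, e2, hU (eventually_ge_atTop 1), H.pos] with N g1 g2 hN g3 x hx hA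
    have hN' : (0 : ℝ) < N := by exact_mod_cast hN
    obtain ⟨w1, w2⟩ := sg_gw (D := cD E d) (K := fun _ => G) (T := fun _ => T) (k := k) (p := y N x) (S := N) ok g1 g2 hA.2
    rw [(cD_tp E d k).1, (cD_tp E d k).2] at w1 w2
    obtain ⟨-, -, a3, -⟩ := g3 x hx hA
    refine (fa_word hx k hd hN' a3 w1 w2).trans ?_
    exact div_le_div_of_nonneg_right (by norm_num) hN'.le

/-! ### the functional threshold -/

/-- **the functional threshold of one member**: the level of the native gate `x` over the root in the turned direction, cut off at `R` -/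
noncomputable def axO (v : ℂ) (k : Arm) (R : ℝ) (B : Set CC.Gm) (x : CC.Gm → ℝ) (g : CC.Gm) : ℝ :=
  bi (g ∈ B) * max 0 (min R (lv v (g.2.2 (pji (tAt k g (x g))) - g.2.2 (rtA k g))))

lemma axF_eq (P : Prm) (i j : Fin 3) (G0 : Ga) (Rm : ℝ) (g : CC.Gm) (s : Fin 4) :
    axF P i j G0 Rm g s = axO (P.u * dirA i j (xai s)) (xai s) Rm (G0.B (xai s)) (G0.x (xai s)) g := rfl

lemma axO_nn {v : ℂ} {R : ℝ} {x : CC.Gm → ℝ} (g : CC.Gm) : 0 ≤ axO v k R B x g := mul_nonneg (bi_nonneg _) (le_max_left _ _)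

lemma axO_le {v : ℂ} {R : ℝ} (hR : 0 ≤ R) {x : CC.Gm → ℝ} (g : CC.Gm) : axO v k R B x g ≤ R := by
  unfold axO
  calc _ ≤ 1 * max 0 (min R _) := mul_le_mul_of_nonneg_right (bi_le _) (le_max_left _ _)
    _ ≤ R := by
      rw [one_mul]
      exact max_le hR (min_le_left _ _)

lemma axO_meas {v : ℂ} {R : ℝ} (hB : MeasurableSet B) {x : CC.Gm → ℝ} (hx : Measurable x) : Measurable (axO v k R B x) := by
  unfold axO
  have h1 : Measurable fun g : CC.Gm => g.2.2 := measurable_snd.snd
  have h2 := meas_at h1 (tAt_meas k hx)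
  have h3 := meas_at h1 (rtA_meas k)
  have h4 : Measurable fun w : ℂ => lv v w := by
    unfold lv
    fun_prop
  exact (bi_ms hB).mul (measurable_const.max (measurable_const.min (h4.comp (h2.sub h3))))

/-- **on the event of the native gates the threshold is the level of the native gate `x`** -/
theorem axO_ax {u d : ℂ} (hu : ‖u‖ = 1) (hd : ‖d‖ = 1) {E : Tp} {r1 r1' ρ1 ρ' R : ℝ} {x cc : CC.Gm → ℝ} {g : CC.Gm} (hB : g ∈ B)
    (h : FaI d E.l E.m r1 r1' ρ1 ρ' g.2.2 (rtA k g) (pji (tAt k g (cc g))) (pji (tAt k g (x g))) (rtA (oppA k) g))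
    (tu : ‖u - 1‖ * r1' < E.l + E.m) (tR : r1' ≤ R) :
    0 < axO (u * d) k R B x g ∧ lv (u * d) (g.2.2 (pji (tAt k g (x g))) - g.2.2 (rtA k g)) = axO (u * d) k R B x g := by
  obtain ⟨w, hw⟩ : ∃ w, w = g.2.2 (pji (tAt k g (x g))) - g.2.2 (rtA k g) := ⟨_, rfl⟩
  have hr : ‖w‖ ≤ r1' := by
    rw [hw]
    exact h.b1 _ (by
      rcases le_total (rtA k g) (pji (tAt k g (x g))) with hb | hb
      · exact Or.inl ⟨hb, le_rfl⟩
      · exact Or.inr ⟨le_rfl, hb⟩)
  have h1 : E.l + E.m ≤ lv d w := by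
    have h2 := h.l
    have h3 := h.m
    rw [lv_sub] at h2 h3
    rw [hw, lv_sub]
    linarith
  have h2 := lv_turn (u := u) (v := w) hd
  have h3 : ‖u - 1‖ * ‖w‖ ≤ ‖u - 1‖ * r1' := mul_le_mul_of_nonneg_left hr (norm_nonneg _)
  have h4 : 0 < lv (u * d) w := by linarith
  have h5 : lv (u * d) w ≤ R := by
    have h6 : |lv (u * d) w| ≤ ‖w‖ := by
      unfold lv
      refine (Complex.abs_re_le_norm _).trans ?_
      rw [norm_mul, Complex.norm_conj, norm_mul, hu, hd, one_mul, one_mul]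
    exact (le_abs_self _).trans (h6.trans (hr.trans tR))
  have e : axO (u * d) k R B x g = lv (u * d) w := by
    unfold axO
    rw [bi_pos hB, one_mul, ← hw, min_eq_right h5, max_eq_right h4.le]
  rw [e, ← hw]
  exact ⟨h4, rfl⟩

/-- **functionals of the words with this limit in the frame of the rotated lattice** -/
theorem thr_ex (hU : U ≤ atTop) (hC : Cv U (fun N => mwE N b) cN PG) {u v : ℂ} {R : ℝ} (hR : 0 ≤ R) (hB : MeasurableSet B)
    {x : CC.Gm → ℝ} (hx : Measurable x) : ∃ y : ℕ → W3 × ℕ → ℝ, (∀ N z, 0 ≤ y N z ∧ y N z ≤ R) ∧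
      Lm U (fun N => mwE N b) cN PG y fun g => axO v k R B x (rotX u g) :=
  lm_ex hU hC ((axO_meas hB hx).comp (rotX_cont u).measurable) (fun _ => axO_nn _) fun _ => axO_le hR _

end Pool.Agent.ROT.F3.CK
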