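import Pool.Agent.ROT.F3GenM
import Pool.Agent.ROT.F3GenO1

/-!
# ROT, F3, row GEN (helper36): the functional thresholds of all members

* **`thr_of`** : `Thr` of F3GenM from the native gates `FamN` : functionals of the words for all `2 * 3 * 4` members.
-/

set_option autoImplicit false

open MeasureTheory Filter Topology Set unitInterval

namespace Pool.Agent.ROT.F3E

open Pool.Agent.ROT.F3 Pool.Agent.ROT.F3.CK
open Pool.Agent.ROT.F3.LF (Cv Lm Ev bi)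

lemma axM_axO (P : Prm) (F0 : Bool → Fin 3 → Ga) (Rm : ℝ) (E : Bool) (a : Fin 3) (κ : Arm) :
    axM P F0 Rm E a κ = axO (P.u * ev (dxB E a)) κ Rm ((F0 E a).B κ) ((F0 E a).x κ) := rfl

/-- **the functional thresholds of all members** -/
theorem thr_of {V : Ultrafilter ℕ} {bb : ℝ} {PG : Measure CC.Gm} {S : ℕ → ℝ} {c0 ρ τ : ℝ} {P : Prm} {K0 : Bool → F3.GP}
    {F0 : Bool → Fin 3 → Ga} {Rm : ℝ} (hV : (V : Filter ℕ) ≤ atTop) (hC : Cv (V : Filter ℕ) (fun N => mwE N bb) cN PG)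
    (hP : ∀ᵐ y ∂PG, 0 < y.1) (h : FamN V bb PG S c0 ρ P K0 F0) (hρ : 0 < ρ) (hp : P.p.Nr (bE ρ τ)) (hq : P.q.Nr (bE ρ τ))
    (hu : ‖P.u‖ = 1) (h1 : ∀ E, 0 < (K0 E).ρ1 ∧ 0 < (K0 E).ρ') (tu : ∀ E, ‖P.u - 1‖ * (K0 E).r1' < (enB P E).n.l + (enB P E).n.m)
    (tR : ∀ E, (K0 E).r1' ≤ Rm) (hR : 0 ≤ Rm) :
    ∃ y : Bool → Fin 3 → Arm → ℕ → W3 × ℕ → ℝ, (∀ E a κ N x, 0 ≤ y E a κ N x) ∧ Thr V bb PG P F0 Rm y := by
  have hy := fun E a κ => thr_ex (u := P.u) (v := P.u * ev (dxB E a)) (k := κ) hV hC hR (h.ai E a κ).ev.ms' (h.ai E a κ).tg.ms'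
  choose y y1 y2 using hy
  refine ⟨y, fun E a κ N x => (y1 E a κ N x).1, y1, y2, fun E a κ => ?_⟩
  have hd : ‖ev (dxB E a)‖ = 1 := ev_norm _
  have c0' : Lm (V : Filter ℕ) (fun N => mwE N bb) cN PG (fun (_ : ℕ) (_ : W3 × ℕ) => (0 : ℝ)) fun _ => (0 : ℝ) := Lm.const hC 0
  filter_upwards [ai1_fa hV hC hP (h.ok hρ hp hq E) (trn_ev (dxB E a)) hd (h.ai E a κ) (h1 E).1 (h1 E).2 c0'] with g hg hB
  have h2 := hg hB
  rw [add_zero] at h2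
  exact axO_ax (x := (F0 E a).x κ) hu hd hB h2 (tu E) (tR E)

end Pool.Agent.ROT.F3E
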