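import Pool.Agent.ROT.F3SAI
import Pool.Agent.ROT.F3JmD

/-!
# ROT, F3 (helper3): `OneIn` of one member of the family of gates

* **`oneIn_of`** : helper86's `OneIn` from the member `(F0, F1)` (native gates over the base `0`, foreign gates over the functional
  thresholds `y`), the level of the native gate (helper36) and the closed conditions of the foreign gates (helper36, helper2).
-/

set_option autoImplicit false
set_option linter.unusedSectionVars false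

open MeasureTheory Filter Topology Set unitInterval

namespace Pool.Agent.ROT.F3

open Pool.Agent.ROT.F3.CK Pool.Agent.ROT.F3.LF

/-- **`OneIn` of one member** -/
theorem oneIn_of {U : Filter ℕ} [U.NeBot] {b : ℝ} {PG : Measure CC.Gm} {i : Fin 3} {u : ℂ} {E : En} {cd : ℝ} {Gd : Set CC.Gm}
    {G0 G1 : GP} {F0 F1 : Ga} {y : Arm → ℕ → W3 × ℕ → ℝ} {A : CC.Gm → ℝ}
    (hC : Cv U (fun N => mwE N b) cN PG) (hu : ‖u‖ = 1) (ok0 : G0.Ok E.n) (ok1 : G1.Ok E.f) (r1 : E.f.r2 < G1.ρ1)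
    (H0 : AIn U b PG (gA cd (fun _ => G0) (fun _ => rS (-i)) fun _ _ _ => 0) (gC (fun _ => G0) (fun _ => rS (-i)) fun _ _ _ => 0)
      (gX (fun _ => G0) (fun _ => rS (-i)) fun _ _ _ => 0) F0.B F0.c F0.x)
    (H1 : AIn U b PG (gA cd (fun _ => G1) (fun _ => rS (-i)) y) (gC (fun _ => G1) (fun _ => rS (-i)) y)
      (gX (fun _ => G1) (fun _ => rS (-i)) y) F1.B F1.c F1.x)
    (h1 : Lm U (fun N => mwE N b) cN PG (y .fp) fun h => A (rotX u h))
    (h2 : ∀ᵐ g ∂PG, g ∈ F0.B .fp → lv (u * ev i) (g.2.2 (F0.ix .fp g) - g.2.2 (rtA .fp g)) = A g)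
    (h3 : ∀ᵐ h ∂PG, h ∈ F1.B .fp → FaI (ev i) (E.f.l + A (rotX u h)) E.f.m G1.r1 G1.r1' G1.ρ1 E.f.rg h.2.2
      (rtI .fp (pji (muG h))) (pji (tmA .fp (muG h) (F1.c .fp h))) (pji (tmA .fp (muG h) (F1.x .fp h))) (endI .fp (pji (muG h))))
    (mGd : MeasurableSet Gd) (aeGd : ∀ᵐ g ∂PG, g ∈ Gd) (z0 : ∀ g ∈ Gd, g.2.2 0 = 0) :
    OneIn U b PG i u E cd Gd G0 G1 (y .fp) (fun h => A (rotX u h)) (F0.B .fp) (F1.B .fp) (F0.c .fp) (F0.x .fp) (F1.c .fp)
      (F1.x .fp) := by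
  have hu0 : u ≠ 0 := fun h => by rw [h, norm_zero] at hu; exact zero_ne_one hu
  have hrr : ∀ g : CC.Gm, rotX u (rotX u⁻¹ g) = g := fun g => by
    refine Prod.ext rfl (Prod.ext rfl ?_)
    ext s
    show u * (u⁻¹ * g.2.2 s) = g.2.2 s
    rw [← mul_assoc, mul_inv_cancel₀ hu0, one_mul]
  refine ⟨ok0, ok1, r1, ain_iff.1 H0 .fp, ain_iff.1 H1 .fp, h1, ?_, h3, arm_un hC H0 .fp, arm_un hC H1 .fp, mGd, aeGd⟩
  filter_upwards [h2, aeGd] with g g1 g2 hB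
  rw [hrr, ← g1 hB]
  show lv (u * ev i) (g.2.2 (pji (F0.x .fp g * muG g)) - g.2.2 0) = _
  rw [z0 g g2, sub_zero]

end Pool.Agent.ROT.F3
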