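import Pool.Agent.ROT.F3GenM
import Pool.Agent.ROT.F3GenG3
import Pool.Agent.ROT.F3JmD
import Pool.Agent.ROT.F3Rows

/-!
# ROT, F3, row K3 (helper21): the numbers of the package of a pair

`NumK P c0 Rm K0 K1` : the fields `r0`, `rR`, `cn`, `cf`, `tu`, `tR` of `PkI` for the records `K0`, `K1` of the two ends.
**`numK_of`** : for the records `grN ρ`, `grF ρ` of F3GenG3, data in the windows of `bE ρ τ`, `c0 ≤ 1900000000 ρ`, `42 ρ ≤ Rm`,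
`‖P.u - 1‖ ≤ 10 ^ (-8)`.
-/

set_option autoImplicit false

namespace Pool.Agent.ROT.F3E

open Pool.Agent.ROT.F3 Pool.Agent.ROT.F3.CK

/-- **the numbers of the package** -/
structure NumK (P : Prm) (c0 Rm : ℝ) (K0 K1 : Bool → F3.GP) : Prop where
  r0 : ∀ E, (enB P E).n.r2 < (K0 E).ρ1
  r1 : ∀ E, (enB P E).f.r2 < (K1 E).ρ1
  cn : ∀ i j, c0 < (jD0 P i j).V.D0 - ((jD0 P i j).P.rad + (jD0 P i j).Q.rad)
  cf : ∀ i j, c0 < (jDR P i j).V.D0 - ((jDR P i j).P.rad + (jDR P i j).Q.rad)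
  tu : ∀ E, ‖P.u - 1‖ * (K0 E).r1' < (enB P E).n.l + (enB P E).n.m
  tR : ∀ E, (K0 E).r1' ≤ Rm

/-- **the numbers in the windows of the base data** -/
theorem numK_of {P : Prm} {ρ τ c0 Rm : ℝ} {K0 K1 : Bool → F3.GP} (hρ : 0 < ρ) (hP : P.Ok) (hp : P.p.Nr (bE ρ τ)) (hq : P.q.Nr (bE ρ τ))
    (hu : ‖P.u - 1‖ ≤ 1 / 100000000) (hc : c0 ≤ 1900000000 * ρ) (hR : 42 * ρ ≤ Rm)
    (h0 : ∀ E, ∃ r : AR, K0 E = grN ρ (enB P E).n r) (h1 : ∀ E, ∃ r : AR, K1 E = grF ρ (enB P E).f r) : NumK P c0 Rm K0 K1 := by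
  have hN : ∀ E, (enB P E).Nr (bE ρ τ) := by
    rintro (_ | _)
    · exact hp
    · exact hq
  have a1 : ∀ E, 1/2 * ρ ≤ (enB P E).n.l := fun E => (hN E).n.l.1
  have a2 : ∀ E, 81/10 * ρ ≤ (enB P E).n.m := fun E => (hN E).n.m.1
  have a3 : ∀ E, (enB P E).n.r ≤ 101 / 100 * (1 * ρ) := fun E => (hN E).n.r.2
  have a4 : ∀ E, (enB P E).n.r2 ≤ 101 / 100 * (41/2 * ρ) := fun E => (hN E).n.r2.2
  have a5 : ∀ E, (enB P E).f.r ≤ 101 / 100 * (105 * ρ) := fun E => (hN E).f.r.2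
  have a6 : ∀ E, (enB P E).f.r2 ≤ 101 / 100 * (28500 * ρ) := fun E => (hN E).f.r2.2
  have a7 : ∀ E, (enB P E).rk ≤ 101 / 100 * (80 * ρ) := fun E => (hN E).rk.2
  have a8 : ∀ E, 60000000 * ρ ≤ (enB P E).s.len := fun E => (hN E).s.len.1
  have rx : ∀ E, 0 ≤ (K0 E).r1' ∧ (K0 E).r1' ≤ 419 / 10 * ρ := by
    intro E
    obtain ⟨r, hr⟩ := h0 E
    obtain ⟨-, -, -, -, w1, w2⟩ := bxN_r hρ (hN E).n
    obtain ⟨t1, t2⟩ := tof_mem w1 w2
    have h2 : (bxN 1 ρ).r0 ≤ (bxN 1 ρ).r1 := (bxN_r hρ (hN E).n).1.xr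
    obtain ⟨b1, b2⟩ := rT_mem h2 t1.le t2.le
    have e : (K0 E).r1' = rT (bxN 1 ρ) (tof (bxN 1 ρ) (enB P E).n.rg) := by rw [hr]; rfl
    have e0 : (bxN 1 ρ).r0 = 415 / 10 * ρ := rfl
    have e1 : (bxN 1 ρ).r1 = 419 / 10 * ρ := rfl
    rw [e]
    exact ⟨by linarith, by linarith⟩
  have D0 : ∀ i, 1920000000 * ρ < (wnA P i).D0 := by
    intro i
    have l1 := a8 false
    have l2 := a8 true
    have l1' : 60000000 * ρ ≤ P.p.s.len := l1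
    have l2' : 60000000 * ρ ≤ P.q.s.len := l2
    have n1 := hP.nr
    have n2 := hP.nrc
    unfold wnA
    split_ifs
    · linarith
    · linarith
  have kp : P.p.k ≤ 28866 * ρ := by
    have := a7 false
    have := a6 false
    have e1 : P.p.rk ≤ 101 / 100 * (80 * ρ) := a7 false
    have e2 : P.p.f.r2 ≤ 101 / 100 * (28500 * ρ) := a6 false
    unfold En.k
    linarith
  have kq : P.q.k ≤ 28866 * ρ := by
    have e1 : P.q.rk ≤ 101 / 100 * (80 * ρ) := a7 true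
    have e2 : P.q.f.r2 ≤ 101 / 100 * (28500 * ρ) := a6 true
    unfold En.k
    linarith
  refine ⟨fun E => ?_, fun E => ?_, fun i j => ?_, fun i j => ?_, fun E => ?_, fun E => ?_⟩
  · obtain ⟨r, hr⟩ := h0 E
    have h2 : (bxN 0 ρ).p0 ≤ (bxN 0 ρ).p1 := (bxN_r hρ (hN E).n).1.cp
    obtain ⟨b1, -⟩ := pT_mem h2 r.h0.le r.h1.le
    have e : (K0 E).ρ1 = pT (bxN 0 ρ) r.t := by rw [hr]; rfl
    have e0 : (bxN 0 ρ).p0 = 100 * ρ := rfl
    rw [e]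
    have := a4 E
    linarith
  · obtain ⟨r, hr⟩ := h1 E
    have h2 : (bxF 0 ρ).p0 ≤ (bxF 0 ρ).p1 := (bxF_r hρ (hN E).f).1.cp
    obtain ⟨b1, -⟩ := pT_mem h2 r.h0.le r.h1.le
    have e : (K1 E).ρ1 = pT (bxF 0 ρ) r.t := by rw [hr]; rfl
    have e0 : (bxF 0 ρ).p0 = 28800 * ρ := rfl
    rw [e]
    have := a6 E
    linarith
  · have eV : (jD0 P i j).V.D0 = (wnA P i).D0 - (P.p.k + P.q.k) := rfl
    have eP : (jD0 P i j).P.rad = P.p.n.r + P.p.n.r2 := rfl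
    have eQ : (jD0 P i j).Q.rad = P.q.n.r + P.q.n.r2 := rfl
    have e1 : P.p.n.r ≤ 101 / 100 * (1 * ρ) := a3 false
    have e2 : P.p.n.r2 ≤ 101 / 100 * (41/2 * ρ) := a4 false
    have e3 : P.q.n.r ≤ 101 / 100 * (1 * ρ) := a3 true
    have e4 : P.q.n.r2 ≤ 101 / 100 * (41/2 * ρ) := a4 true
    have := D0 i
    rw [eV, eP, eQ]
    linarith
  · have eV : (jDR P i j).V.D0 = (wnA P i).D0 := rfl
    have eP : (jDR P i j).P.rad = P.p.f.r + P.p.f.r2 := rfl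
    have eQ : (jDR P i j).Q.rad = P.q.f.r + P.q.f.r2 := rfl
    have e1 : P.p.f.r ≤ 101 / 100 * (105 * ρ) := a5 false
    have e2 : P.p.f.r2 ≤ 101 / 100 * (28500 * ρ) := a6 false
    have e3 : P.q.f.r ≤ 101 / 100 * (105 * ρ) := a5 true
    have e4 : P.q.f.r2 ≤ 101 / 100 * (28500 * ρ) := a6 true
    have := D0 i
    rw [eV, eP, eQ]
    linarith
  · obtain ⟨b1, b2⟩ := rx E
    have h3 : ‖P.u - 1‖ * (K0 E).r1' ≤ 1 / 100000000 * (419 / 10 * ρ) :=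
      mul_le_mul hu b2 b1 (by norm_num)
    have := a1 E
    have := a2 E
    linarith
  · have := (rx E).2
    linarith

end Pool.Agent.ROT.F3E

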