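import Pool.Agent.ROT.F3GenX1
import Pool.Agent.ROT.F3K3N
import Pool.Agent.ROT.F3GenO3
import Pool.Agent.ROT.F3Rows

/-!
# ROT, F3 (helper3): `OneIn` of all members, for one `P`

* `conD` : constant data, `aCon` : `AIn` of one member (all four arms), **`mem_fa`** : the closed conditions of its gates;
* **`oneIn_all`** : helper86's `OneIn` for both ends and all classes, from `FamN`, `FamF`, `Thr` (helper11); **`one_obj`** : from the objects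
  of the generic choice (`Env`, `RN`, `RF`).
-/

set_option autoImplicit false
set_option linter.unusedSectionVars false

open MeasureTheory Filter Topology Set unitInterval

namespace Pool.Agent.ROT.F3E

open Pool.Agent.ROT.F3 Pool.Agent.ROT.F3.CK
open Pool.Agent.ROT.F3.LF (Cv Lm Ev bi)

/-- constant data -/
def conD (W : F3.Wn) (Q : Tp) (d : ℂ) : Dt := ⟨Q, Q, W, W, d, d, d, d, 0, 0, 0, 0⟩

lemma conD_tp (W : F3.Wn) (Q : Tp) (d : ℂ) (κ : Arm) : (conD W Q d).gtp κ = Q := by cases κ <;> rfl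

lemma conD_dr (W : F3.Wn) (Q : Tp) (d : ℂ) (κ : Arm) : (conD W Q d).gdr κ = d := by cases κ <;> rfl

section

variable {V : Ultrafilter ℕ} {bb : ℝ} {PG : Measure CC.Gm} {c0 : ℝ} {K : F3.GP} {i : Fin 3} {F : Ga} {y : Arm → ℕ → W3 × ℕ → ℝ}

/-- the four arms of one member -/
lemma aCon (h : ∀ κ, AI1 (V : Filter ℕ) bb PG κ (fun N x => c0 < dst N x ∧ sgE K (rS (-i)) (y κ N x) N κ x)
    (fun N x => sgc K (rS (-i)) (y κ N x) N κ x) (fun N x => sgx K (rS (-i)) (y κ N x) N κ x) (F.B κ) (F.c κ) (F.x κ)) :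
    AIn (V : Filter ℕ) bb PG (gA c0 (fun _ => K) (fun _ => rS (-i)) y) (gC (fun _ => K) (fun _ => rS (-i)) y)
      (gX (fun _ => K) (fun _ => rS (-i)) y) F.B F.c F.x :=
  ain_iff.2 h

/-- **closed conditions of the gates of one member** -/
theorem mem_fa (hU : (V : Filter ℕ) ≤ atTop) (hC : Cv (V : Filter ℕ) (fun N => mwE N bb) cN PG) (hP : ∀ᵐ g ∂PG, 0 < g.1) {Q : Tp}
    (hQ : Q.Ok) (hK : K.Ok Q)
    (h : ∀ κ, AI1 (V : Filter ℕ) bb PG κ (fun N x => c0 < dst N x ∧ sgE K (rS (-i)) (y κ N x) N κ x)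
      (fun N x => sgc K (rS (-i)) (y κ N x) N κ x) (fun N x => sgx K (rS (-i)) (y κ N x) N κ x) (F.B κ) (F.c κ) (F.x κ))
    (κ : Arm) {Y : CC.Gm → ℝ} (hy : Lm (V : Filter ℕ) (fun N => mwE N bb) cN PG (y κ) Y) :
    ∀ᵐ γ ∂PG, γ ∈ F.B κ → FaI (ev i) (Q.l + Y γ) Q.m K.r1 K.r1' K.ρ1 Q.rg γ.2.2 (rtI κ (pji (muG γ)))
      (pji (tmA κ (muG γ) (F.c κ γ))) (pji (tmA κ (muG γ) (F.x κ γ))) (endI κ (pji (muG γ))) := by
  have r2 := hQ.r2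
  have ok : GOk (conD ⟨0, 0, 0, 0⟩ Q (ev i)) (fun _ => K) (fun _ => rS (-i)) :=
    ⟨fun k => by rw [conD_tp]; exact hK, fun k => by rw [conD_dr]; exact trn_ev i⟩
  have h1 : 0 < K.ρ1 := lt_of_lt_of_le r2 hK.ρ1
  have h2 : 0 < K.ρ' := by
    rw [hK.ρ']
    linarith [hK.ρ1']
  have key := arm_fa (k := κ) hU hC hP ok (aCon h) (by rw [conD_dr]; exact ev_norm _) h1 h2 hy
  rw [conD_tp, conD_dr] at key
  exact key

end

/-- **`OneIn` of all members** -/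
theorem oneIn_all {V : Ultrafilter ℕ} {bb : ℝ} {PG : Measure CC.Gm} {S : ℕ → ℝ} {c0 ρ τ : ℝ} {P : Prm} {K0 K1 : Bool → F3.GP}
    {F0 F1 : Bool → Fin 3 → Ga} {y : Bool → Fin 3 → Arm → ℕ → W3 × ℕ → ℝ} {Rm : ℝ} {X : Set CC.Gm}
    (hU : (V : Filter ℕ) ≤ atTop) (hC : Cv (V : Filter ℕ) (fun N => mwE N bb) cN PG) (hP : ∀ᵐ g ∂PG, 0 < g.1)
    (hPo : P.Ok) (hρ : 0 < ρ) (hp : P.p.Nr (bE ρ τ)) (hq : P.q.Nr (bE ρ τ)) (r1 : ∀ E, (enB P E).f.r2 < (K1 E).ρ1)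
    (hN : FamN V bb PG S c0 ρ P K0 F0) (hF : FamF V bb PG S c0 ρ P K1 y F1) (hT : Thr V bb PG P F0 Rm y)
    (mX : MeasurableSet X) (aeX : ∀ᵐ g ∂PG, g ∈ X) (z0 : ∀ g ∈ X, g.2.2 0 = 0) (E : Bool) (a : Fin 3) :
    OneIn (V : Filter ℕ) bb PG (dxB E a) P.u (enB P E) c0 X (K0 E) (K1 E) (y E a .fp)
      (fun h => axM P F0 Rm E a .fp (rotX P.u h)) ((F0 E a).B .fp) ((F1 E a).B .fp) ((F0 E a).c .fp) ((F0 E a).x .fp)
      ((F1 E a).c .fp) ((F1 E a).x .fp) := by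
  have ok0 := hN.ok hρ hp hq E
  have ok1 := hF.ok hρ hp hq E
  have hQ : (enB P E).f.Ok := by
    cases E
    exacts [hPo.p.f, hPo.q.f]
  refine oneIn_of hC hPo.u ok0 ok1 (r1 E) (aCon fun κ => hN.ai E a κ) (aCon fun κ => hF.ai E a κ) (hT.lm E a .fp) ?_
    (mem_fa hU hC hP hQ ok1 (fun κ => hF.ai E a κ) .fp (hT.lm E a .fp)) mX aeX z0
  filter_upwards [hT.ax E a .fp] with g hg hB using (hg hB).2

/-- **`OneIn` of all members**, from the objects of the generic choice -/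
theorem one_obj {V : Ultrafilter ℕ} {bb : ℝ} {PG : Measure CC.Gm} {S : ℕ → ℝ} {c0 ρ τ t0 Rm : ℝ} {z : ℂ} {P : Prm} {a : ObN} {b : ObF}
    {X : Set CC.Gm} (hE : Env V bb PG S c0 ρ t0) (hPo : P.Ok) (hn : NearP z ρ τ P) (hz : ‖z - 1‖ ≤ 1 / 100000000)
    (hN : RN V bb PG S c0 ρ Rm a P) (hF : RF V bb PG S c0 ρ t0 a b P)
    (mX : MeasurableSet X) (aeX : ∀ᵐ g ∂PG, g ∈ X) (z0 : ∀ g ∈ X, g.2.2 0 = 0) (E : Bool) (c : Fin 3) :
    OneIn (V : Filter ℕ) bb PG (dxB E c) P.u (enB P E) c0 X (a.K0 E) (b.K1 E) (a.y E c .fp)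
      (fun h => axM P a.F0 Rm E c .fp (rotX P.u h)) ((a.F0 E c).B .fp) ((b.F1 E c).B .fp) ((a.F0 E c).c .fp) ((a.F0 E c).x .fp)
      ((b.F1 E c).c .fp) ((b.F1 E c).x .fp) := by
  have hK : NumK P 0 (42 * ρ) a.K0 b.K1 := numK_of hE.ρ0 hPo hn.p hn.q (by rw [hn.u]; exact hz) (by linarith [hE.ρ0]) le_rfl
    hN.fam.gr hF.fam.gr
  exact oneIn_all hE.V0 hE.cv hE.pos1 hPo hE.ρ0 hn.p hn.q hK.r1 hN.fam hF.fam hN.thr mX aeX z0 E c

end Pool.Agent.ROT.F3E
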