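import Pool.Agent.ROT.F3GenG4
import Pool.Agent.ROT.F3GenO2

/-!
# ROT, F3, row GEN (helper36): the first objects exist for generic data

* `grN_num` : the numbers of the native records; **`rn_ev'`** : native gates and functional thresholds (`RN`) exist for generic data.
-/

set_option autoImplicit false

open MeasureTheory Filter Topology Set unitInterval

namespace Pool.Agent.ROT.F3E

open Pool.Agent.ROT.F3 Pool.Agent.ROT.F3.CK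
open Pool.Agent.ROT.F3.LF (Cv Lm Ev bi)
open Gn (Fd Ef Tf Agr Bx gP gP_win rk_lt)

/-- the numbers of the native records -/
lemma grN_num {ρ τ : ℝ} (hρ : 0 < ρ) {Q : Tp} (h : Q.Nr (bN ρ τ)) (r : AR) :
    0 < (grN ρ Q r).ρ1 ∧ 0 < (grN ρ Q r).ρ' ∧ (grN ρ Q r).r1' ≤ 42 * ρ := by
  obtain ⟨-, -, -, -, w1, w2⟩ := bxN_r hρ h
  obtain ⟨t1, t2⟩ := tof_mem w1 w2
  have h1 : 1400 * ρ ≤ Q.rg := h.rg.1
  have e1 : (grN ρ Q r).ρ1 = (bxN 0 ρ).p1 - r.t * ((bxN 0 ρ).p1 - (bxN 0 ρ).p0) := rfl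
  have e2 : (grN ρ Q r).r1' = (bxN 1 ρ).r0 + tof (bxN 1 ρ) Q.rg * ((bxN 1 ρ).r1 - (bxN 1 ρ).r0) := rfl
  refine ⟨?_, ?_, ?_⟩
  · rw [e1]
    simp only [bxN]
    nlinarith [r.h0, r.h1]
  · show 0 < Q.rg
    linarith
  · rw [e2]
    simp only [bxN] at t2 ⊢
    nlinarith

/-- **native gates and functional thresholds exist for generic data** -/
theorem rn_ev' {V : Ultrafilter ℕ} {bb : ℝ} {PG : Measure CC.Gm} {S : ℕ → ℝ} {c0 ρ τ Rm : ℝ} {z : ℂ} {B : Bx}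
    (hV : (V : Filter ℕ) ≤ atTop) (hC : Cv (V : Filter ℕ) (fun N => mwE N bb) cN PG) (hP : ∀ᵐ y ∂PG, 0 < y.1) (hρ : 0 < ρ)
    (hS0 : ∀ N, 0 < S N) (hS : ∀ᶠ N : ℕ in V, S N = N) (hSc : Sc V bb S c0 ρ) (hB : BxNr z B ρ τ) (hz : ‖z‖ = 1)
    (h1 : ‖z - 1‖ ≤ 1 / 100000000) (hR : 42 * ρ ≤ Rm) : ∀ᶠ P in gP z B, ∃ a, RN V bb PG S c0 ρ Rm a P := by
  filter_upwards [famN_ev hC hρ hS0 hS hSc hB, gP_win] with P ⟨K0, F0, h⟩ hW
  obtain ⟨hp, hq⟩ := hB P hW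
  have hn := fun E => (enB_nr hp hq E).n
  have hK : ∀ E, 0 < (K0 E).ρ1 ∧ 0 < (K0 E).ρ' ∧ (K0 E).r1' ≤ 42 * ρ := fun E => by
    obtain ⟨r, hr⟩ := h.gr E
    rw [hr]
    exact grN_num hρ (hn E) r
  obtain ⟨y, hy, hT⟩ := thr_of (Rm := Rm) hV hC hP h hρ hp hq (by rw [hW.u]; exact hz) (fun E => ⟨(hK E).1, (hK E).2.1⟩) (fun E => by
      have a1 : 1/2 * ρ ≤ (enB P E).n.l := (hn E).l.1
      have a2 : 81/10 * ρ ≤ (enB P E).n.m := (hn E).m.1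
      rw [hW.u]
      have a3 : ‖z - 1‖ * (K0 E).r1' ≤ 1 / 100000000 * (42 * ρ) := by
        refine (mul_le_mul_of_nonneg_left (hK E).2.2 (norm_nonneg _)).trans ?_
        exact mul_le_mul_of_nonneg_right h1 (by positivity)
      linarith) (fun E => (hK E).2.2.trans hR) (by linarith)
  exact ⟨⟨K0, F0, y, hy⟩, h, hT⟩

end Pool.Agent.ROT.F3E
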