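import Pool.Agent.ROT.F3GenP

/-!
# ROT, block F3, row GEN (helper11): a countable dense family of generic LATER coordinates

`f0` = the first later coordinate. `QF f0 z B Q P QQ` : the data `QQ m` have the coordinates of `P` before `f0`, are in the windows, have
the property `Q`, and are dense: near every good `P'` with the same earlier coordinates, in all the coordinates except `W.t0`, with
`W.t0` as small as we like.
* **`qq_ex`** : if `Q` is generic in every smaller box, then for generic `P` there is such a family; `QFx.agr`: this depends on the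
  coordinates before `f0` only (for `gP_f_of`, `gP_tri_of`).
-/

set_option autoImplicit false

open MeasureTheory Filter Set

namespace Pool.Agent.ROT.F3.Gn

section nest

variable {ι : Type*} [DecidableEq ι]

lemma nest_congr {w w' : ι → (ι → ℝ) → Filter ℝ} {l : List ι} (h : ∀ i ∈ l, ∀ g, w i g = w' i g) (F : Filter (ι → ℝ)) :
    nest w l F = nest w' l F := by
  induction l generalizing F with
  | nil => rfl
  | cons i l ih =>
    show nest w l _ = nest w' l _
    rw [ih fun j hj => h j (List.mem_cons_of_mem i hj)]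
    congr 1
    have : (fun g => (w i g).map fun a => Function.update g i a) = fun g => (w' i g).map fun a => Function.update g i a := by
      funext g
      rw [h i List.mem_cons_self g]
    rw [this]

/-- one choice after the other -/
lemma ev_nest {w : ι → (ι → ℝ) → Filter ℝ} {l : List ι} : ∀ {F : Filter (ι → ℝ)} {Q : (ι → ℝ) → Prop},
    (∀ᶠ g in nest w l F, Q g) ↔ ∀ᶠ g in F, ∀ᶠ g' in nest w l (pure g), Q g' := by
  induction l with
  | nil =>
    intro F Q
    refine eventually_congr (Eventually.of_forall fun g => ?_)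
    show Q g ↔ ∀ᶠ g' in (pure g : Filter (ι → ℝ)), Q g'
    rw [eventually_pure]
  | cons i l ih =>
    intro F Q
    show (∀ᶠ g in nest w l (F.bind fun g => (w i g).map fun a => Function.update g i a), Q g) ↔
      ∀ᶠ g in F, ∀ᶠ g' in nest w l ((pure g : Filter (ι → ℝ)).bind fun g => (w i g).map fun a => Function.update g i a), Q g'
    rw [ih, ev_bind]
    refine eventually_congr (Eventually.of_forall fun g => ?_)
    rw [ih, ev_bind, eventually_pure]

end nest

/-- in the box with smaller windows -/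
def Bx.Le (B' B : Bx) (z : ℂ) : Prop := ∀ P : Prm, B'.In z P → B.In z P

/-- **a dense family of later coordinates** -/
structure QF (f0 : Fd) (z : ℂ) (B : Bx) (Q : Prm → Prop) (P : Prm) (QQ : ℕ → Prm) : Prop where
  win : ∀ m, B.In z (QQ m)
  agr : ∀ m, Agr f0 P (QQ m)
  q : ∀ m, Q (QQ m)
  dense : ∀ P' : Prm, B.In z P' → Agr f0 P P' → ∀ ε : ℝ, 0 < ε →
    ∃ m, (∀ f : Fd, f ≠ .t0 → |f.get (QQ m) - f.get P'| < ε) ∧ (QQ m).W.t0 < ε

/-- there is a dense family of later coordinates -/
def QFx (f0 : Fd) (z : ℂ) (B : Bx) (Q : Prm → Prop) (P : Prm) : Prop := ∃ QQ : ℕ → Prm, QF f0 z B Q P QQ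

lemma QFx.agr {f0 : Fd} {z : ℂ} {B : Bx} {Q : Prm → Prop} {P P' : Prm} (h : Agr f0 P P') (h' : QFx f0 z B Q P') : QFx f0 z B Q P := by
  obtain ⟨QQ, h1⟩ := h'
  exact ⟨QQ, h1.win, fun m => h.trans (h1.agr m), h1.q, fun P1 h2 h3 => h1.dense P1 h2 (h.symm.trans h3)⟩

open Classical in
/-- the family as a function of the data (of the coordinates before `f0`, see `fam_agr`) -/
noncomputable def fam (f0 : Fd) (z : ℂ) (B : Bx) (Q : Prm → Prop) (P : Prm) : ℕ → Prm :=
  if h : QFx f0 z B Q P then h.choose else fun _ => prmOf z fun _ => 0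

lemma fam_spec {f0 : Fd} {z : ℂ} {B : Bx} {Q : Prm → Prop} {P : Prm} (h : QFx f0 z B Q P) : QF f0 z B Q P (fam f0 z B Q P) := by
  unfold fam
  rw [dif_pos h]
  exact h.choose_spec

lemma QF.congr {f0 : Fd} {z : ℂ} {B : Bx} {Q : Prm → Prop} {P P' : Prm} (h : Agr f0 P P') {QQ : ℕ → Prm} (h1 : QF f0 z B Q P' QQ) :
    QF f0 z B Q P QQ :=
  ⟨h1.win, fun m => h.trans (h1.agr m), h1.q, fun P1 h2 h3 => h1.dense P1 h2 (h.symm.trans h3)⟩

open Classical in
/-- the family depends on the coordinates before `f0` only -/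
lemma fam_agr {f0 : Fd} {z : ℂ} {B : Bx} {Q : Prm → Prop} {P P' : Prm} (h : Agr f0 P P') : fam f0 z B Q P = fam f0 z B Q P' := by
  have e : QF f0 z B Q P = QF f0 z B Q P' := by
    funext QQ
    exact propext ⟨fun h1 => h1.congr h.symm, fun h1 => h1.congr h⟩
  have key : ∀ (p p' : (ℕ → Prm) → Prop), p = p' → (if h : ∃ q, p q then h.choose else fun _ => prmOf z fun _ => 0) =
      if h : ∃ q, p' q then h.choose else fun _ => prmOf z fun _ => 0 := by
    rintro p _ rfl
    rfl
  exact key _ _ e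

instance : Finite Fd := by
  have h : Function.Injective fun f : Fd => (⟨f.rk, by
      have := List.idxOf_lt_length_of_mem (ord_mem f)
      unfold Fd.rk
      exact this⟩ : Fin ord.length) := by
    intro f f' h
    exact rk_inj (Fin.mk.inj_iff.1 h)
  exact Finite.of_injective _ h

open Classical in
/-- the small box -/
noncomputable def Bx.sub (B : Bx) (f0 : Fd) (c : Fd → ℝ) (δ : ℝ) : Bx where
  lo f := if f0.rk ≤ f.rk ∧ max (B.lo f) (c f - δ) < min (B.hi f) (c f + δ) ∧ f ≠ .t0 then max (B.lo f) (c f - δ) else B.lo f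
  hi f := if f0.rk ≤ f.rk ∧ max (B.lo f) (c f - δ) < min (B.hi f) (c f + δ) ∧ f ≠ .t0 then min (B.hi f) (c f + δ) else
    if f = .t0 ∧ 0 < δ ∧ f0.rk ≤ f.rk then min (B.hi f) δ else B.hi f
  lt f := by
    have h1 := B.lt f
    split_ifs with h2 h3
    · exact h2.2.1
    · refine lt_min h1 ?_
      rw [h3.1, B.z0]
      exact h3.2.1
    · exact h1
  z0 := by
    rw [if_neg (fun h => h.2.2 rfl)]
    exact B.z0
  T := B.T
  T0 := B.T0

section sub

variable {B : Bx} {f0 : Fd} {c : Fd → ℝ} {δ : ℝ} {z : ℂ}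

lemma sub_lo (f : Fd) : B.lo f ≤ (B.sub f0 c δ).lo f := by
  show B.lo f ≤ if _ then _ else _
  split_ifs with h1
  · exact le_max_left _ _
  · exact le_rfl

lemma sub_hi (f : Fd) : (B.sub f0 c δ).hi f ≤ B.hi f := by
  show (if _ then _ else if _ then _ else _) ≤ B.hi f
  split_ifs
  · exact min_le_left _ _
  · exact min_le_left _ _
  · exact le_rfl

lemma sub_le : (B.sub f0 c δ).Le B z := fun _ h => ⟨h.u, h.c0, fun f => ⟨(sub_lo f).trans (h.g f).1, (h.g f).2.trans (sub_hi f)⟩,
  h.t0, h.T⟩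

/-- the windows of the earlier coordinates are the same -/
lemma sub_w {f : Fd} (hf : f.rk < f0.rk) (g : Fd → ℝ) : (B.sub f0 c δ).w z f g = B.w z f g := by
  have hft : f ≠ .t0 := by
    rintro rfl
    have := rk_t0 (f := f0) (by
      rintro rfl
      exact absurd hf (lt_irrefl _))
    omega
  have e1 : (B.sub f0 c δ).lo f = B.lo f := by
    show (if _ then _ else _) = _
    rw [if_neg (fun h => absurd h.1 (by omega))]
  have e2 : (B.sub f0 c δ).hi f = B.hi f := by
    show (if _ then _ else if _ then _ else _) = _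
    rw [if_neg (fun h => absurd h.1 (by omega)), if_neg (fun h => hft h.1)]
  unfold Bx.w Bx.top
  rw [if_neg hft, if_neg hft, e1, e2]

/-- a point of the small box is near the centre -/
lemma sub_near {P : Prm} (h : (B.sub f0 c δ).In z P) {f : Fd} (hf : f ≠ .t0) (h0 : f0.rk ≤ f.rk)
    (hc : max (B.lo f) (c f - δ) < min (B.hi f) (c f + δ)) : |f.get P - c f| ≤ δ := by
  have h1 := h.g f
  have e1 : (B.sub f0 c δ).lo f = max (B.lo f) (c f - δ) := if_pos ⟨h0, hc, hf⟩
  have e2 : (B.sub f0 c δ).hi f = min (B.hi f) (c f + δ) := if_pos ⟨h0, hc, hf⟩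
  rw [e1, e2] at h1
  have h2 := (le_max_right _ _).trans h1.1
  have h3 := h1.2.trans (min_le_right _ _)
  rw [abs_le]
  constructor <;> linarith

lemma sub_t0 {P : Prm} (h : (B.sub f0 c δ).In z P) (hδ : 0 < δ) (h0 : f0.rk ≤ Fd.t0.rk) : P.W.t0 ≤ δ := by
  have h1 : P.W.t0 ≤ (B.sub f0 c δ).hi .t0 := (h.g .t0).2
  have e2 : (B.sub f0 c δ).hi .t0 = min (B.hi .t0) δ := by
    show (if _ then _ else if _ then _ else _) = _
    rw [if_neg (fun h => h.2.2 rfl), if_pos ⟨rfl, hδ, h0⟩]
  rw [e2] at h1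
  exact h1.trans (min_le_right _ _)

end sub

/-- **countable dense families of generic later coordinates** -/
theorem qq_ex (f0 : Fd) {z : ℂ} {B : Bx} {Q : Prm → Prop} (hQ : ∀ B' : Bx, B'.Le B z → ∀ᶠ P in gP z B', Q P) :
    ∀ᶠ P in gP z B, QFx f0 z B Q P := by
  classical
  obtain ⟨l1, l2, hl⟩ : ∃ l1 l2 : List Fd, ord = l1 ++ f0 :: l2 := List.append_of_mem (ord_mem f0)
  have hnd := ord_nodup
  rw [hl, List.nodup_append] at hnd
  obtain ⟨n1, n2, n3⟩ := hnd
  have hf0 : f0 ∉ l1 := fun h => n3 _ h _ List.mem_cons_self rfl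
  have ix0 : ord.idxOf f0 = l1.length := by
    rw [hl, List.idxOf_append_of_notMem hf0, List.idxOf_cons_self, add_zero]
  have i1 : ∀ f ∈ l1, f.rk < f0.rk := by
    intro f hf
    refine rk_lt ?_
    rw [ix0, hl, List.idxOf_append_of_mem hf]
    exact List.idxOf_lt_length_of_mem hf
  have i2 : ∀ f ∈ f0 :: l2, f0.rk ≤ f.rk := by
    intro f hf
    by_contra hlt
    rw [not_le] at hlt
    have h1 := idx_of_rk hlt
    have hf1 : f ∉ l1 := fun h => n3 _ h _ hf rfl
    rw [ix0, hl, List.idxOf_append_of_notMem hf1] at h1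
    omega
  have i3 : ∀ f : Fd, f.rk < f0.rk → f ∈ l1 := by
    intro f hf
    have h1 := ord_mem f
    rw [hl, List.mem_append] at h1
    rcases h1 with h1 | h1
    · exact h1
    · exact absurd (i2 f h1) (by omega)
  -- one small box
  have key : ∀ J : (Fd → ℚ) × ℚ, ∀ᶠ g in nest (B.w z) l1 (pure fun _ => 0),
      ∃ g' : Fd → ℝ, (∀ f : Fd, f.rk < f0.rk → g' f = g f) ∧ (B.sub f0 (fun f => J.1 f) J.2).In z (prmOf z g') ∧ Q (prmOf z g') := by
    intro J
    obtain ⟨B', hB'⟩ : ∃ B' : Bx, B' = B.sub f0 (fun f => J.1 f) J.2 := ⟨_, rfl⟩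
    rw [← hB']
    have h1 : ∀ᶠ P in gP z B', B'.In z P ∧ Q P := gP_win.and (hQ B' (by rw [hB']; exact sub_le))
    have h2 : ∀ᶠ g in nest (B'.w z) ord (pure fun _ => 0), B'.In z (prmOf z g) ∧ Q (prmOf z g) := Filter.eventually_map.1 h1
    rw [hl, nest_append] at h2
    have e1 : nest (B'.w z) l1 (pure fun _ => 0) = nest (B.w z) l1 (pure fun _ => 0) :=
      nest_congr (fun f hf g => by rw [hB']; exact sub_w (i1 f hf) g) _
    rw [e1, ev_nest] at h2
    filter_upwards [h2] with g hg
    have h3 : ∀ᶠ g' in nest (B'.w z) (f0 :: l2) (pure g), ∀ f : Fd, f.rk < f0.rk → g' f = g f := by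
      refine nest_persist (fun g' hg' j hj a f hf => ?_) ?_
      · rw [Function.update_of_ne]
        · exact hg' f hf
        · rintro rfl
          exact absurd (i2 f hj) (by omega)
      · rw [eventually_pure]
        exact fun _ _ => rfl
    have h4 : (nest (B'.w z) (f0 :: l2) (pure g)).NeBot := nest_neBot (fun f g => B'.w_neBot z f g) _ Filter.pure_neBot
    obtain ⟨g', h5, h6⟩ := (h3.and hg).exists
    exact ⟨g', h5, h6⟩
  have hci : CountableInterFilter (nest (B.w z) l1 (pure fun _ => 0)) := by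
    refine nest_countable (fun f g => inferInstance) l1 ⟨fun S _ h => ?_⟩
    rw [Filter.mem_pure, Set.mem_sInter]
    exact fun s hs => Filter.mem_pure.1 (h s hs)
  have hall := eventually_countable_forall.2 key
  have hord : ∀ᶠ g in nest (B.w z) ord (pure fun _ => 0), ∀ J : (Fd → ℚ) × ℚ,
      ∃ g' : Fd → ℝ, (∀ f : Fd, f.rk < f0.rk → g' f = g f) ∧ (B.sub f0 (fun f => J.1 f) J.2).In z (prmOf z g') ∧ Q (prmOf z g') := by
    rw [hl, nest_append]
    refine nest_persist (fun g hg j hj a J => ?_) hall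
    obtain ⟨g', h1, h2⟩ := hg J
    refine ⟨g', fun f hf => ?_, h2⟩
    rw [h1 f hf, Function.update_of_ne]
    rintro rfl
    exact absurd (i2 f hj) (by omega)
  refine Filter.eventually_map.2 (hord.mono fun g hg => ?_)
  choose G hG1 hG2 hG3 using hg
  obtain ⟨e, he⟩ := exists_surjective_nat ((Fd → ℚ) × ℚ)
  refine ⟨fun m => prmOf z (G (e m)), fun m => sub_le _ (hG2 _), fun m => ⟨rfl, rfl, fun f hf => ?_⟩, fun m => hG3 _, fun P' hP' hA ε hε => ?_⟩
  · rw [get_of, get_of]
    exact hG1 _ f hf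
  · obtain ⟨δ, hδ1, hδ2⟩ := exists_rat_btwn (show (0 : ℝ) < ε / 2 by linarith)
    have hc : ∀ f : Fd, ∃ c : ℚ, |(c : ℝ) - f.get P'| < δ / 2 := by
      intro f
      obtain ⟨c, hc1, hc2⟩ := exists_rat_btwn (show f.get P' - δ / 2 < f.get P' + δ / 2 by linarith)
      exact ⟨c, by rw [abs_lt]; constructor <;> linarith⟩
    choose c hc using hc
    obtain ⟨m, hm⟩ := he (c, δ)
    refine ⟨m, fun f hf => ?_, ?_⟩
    · rw [hm]
      rcases lt_or_ge f.rk f0.rk with h | h
      · have h1 := hA.g f h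
        have h2 : f.get (prmOf z (G (c, δ))) = g f := by
          rw [get_of]
          exact hG1 _ f h
        rw [get_of] at h1
        rw [h1, h2, sub_self, abs_zero]
        exact hε
      · have h1 := abs_lt.1 (hc f)
        have h2 := hP'.g f
        have h3 := B.lt f
        have h4 := sub_near (hG2 (c, δ)) hf h (by
          show max (B.lo f) ((c f : ℝ) - (δ : ℝ)) < min (B.hi f) ((c f : ℝ) + (δ : ℝ))
          rw [max_lt_iff, lt_min_iff, lt_min_iff]
          refine ⟨⟨h3, ?_⟩, ?_, ?_⟩ <;> linarith)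
        have h5 := abs_le.1 h4
        rw [abs_lt]
        constructor <;> linarith [h5.1, h5.2]
    · rw [hm]
      have h1 := sub_t0 (hG2 (c, δ)) hδ1 (by
        rcases eq_or_ne f0 .t0 with h | h
        · rw [h]
        · exact (rk_t0 h).le)
      show (prmOf z (G (c, δ))).W.t0 < ε
      have h2 : (prmOf z (G (c, δ))).W.t0 ≤ (δ : ℝ) := h1
      linarith

end Pool.Agent.ROT.F3.Gn
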