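import Pool.Agent.ROT.F3GenG2

/-!
# ROT / F3GenTau (helper56): the auxiliary radii of the gates as functions of the four coordinates

* `ev_fun` : an object which exists eventually along `gP`, by a property which reads only the coordinates before `f`, can be chosen as a
  FUNCTION of these coordinates; `ev_par` : the same for a property which reads the data through `ψ`;
* **`gate_tau`** : `gate_ev` (F3GenG2) with the auxiliary radii `t, t3` given by ONE function `τ a l m rg th` (`a = aa P` = an object chosen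
  from the coordinates before `l`): the same `t, t3` for all data with the same object and the same `l, m, rg, th`;
* `gate_tau0` : no object (native gates).
-/

set_option autoImplicit false
set_option linter.unusedSectionVars false

open Filter MeasureTheory Topology Set

open scoped NNReal ENNReal BoundedContinuousFunction

namespace Pool.Agent.ROT.F3

open Pool.Agent.NTS.Res (step pos saw fug size curve)
open Pool.Agent.ROT.F (QB)
open Pool.Agent.CRT (CI)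
open Pool.Agent.SCF.M Pool.Agent.SCF.Z
open LF (Cv Lm Ev bi bi_pos bi_neg bi_and)
open Gn (Fd Agr Bx gP gP_f_of gP_win)

/-- **objects as functions of the earlier coordinates** -/
theorem ev_fun {z : ℂ} {B : Bx} {A : Type*} [Nonempty A] {R0 : A → Prm → Prop} {f : Fd}
    (hRe : ∀ a (P P' : Prm), Agr f P P' → R0 a P → R0 a P') (hR : ∀ᶠ P in gP z B, ∃ a, R0 a P) :
    ∃ aa : Prm → A, (∀ P P' : Prm, Agr f P P' → aa P' = aa P) ∧ ∀ᶠ P in gP z B, R0 (aa P) P := by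
  refine ⟨fun P => Classical.epsilon fun a => R0 a P, fun P P' h => ?_, hR.mono fun P hP => Classical.epsilon_spec hP⟩
  have e : (fun a => R0 a P') = fun a => R0 a P := by
    funext a
    exact propext ⟨fun h1 => hRe a P' P h.symm h1, fun h1 => hRe a P P' h h1⟩
  show (Classical.epsilon fun a => R0 a P') = Classical.epsilon fun a => R0 a P
  rw [e]

/-- **a choice which depends only on the parameter of the property** -/
theorem par_fun {A Y : Type*} {R1 R2 : A → Y → Prop} (h : ∀ y, ∃ a, R2 a y) (h12 : ∀ a y, R1 a y → R2 a y) :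
    ∃ τ : Y → A, (∀ y, R2 (τ y) y) ∧ ∀ y, (∃ a, R1 a y) → R1 (τ y) y := by
  classical
  refine ⟨fun y => if h1 : ∃ a, R1 a y then h1.choose else (h y).choose, fun y => ?_, fun y h1 => ?_⟩
  · dsimp only
    split_ifs with h1
    · exact h12 _ _ h1.choose_spec
    · exact (h y).choose_spec
  · dsimp only
    rw [dif_pos h1]
    exact h1.choose_spec

/-- **the gates at generic data, auxiliary radii as a function of the object and the four coordinates** -/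
theorem gate_tau {z : ℂ} {B : Bx} {A : Type*} {aa : Prm → A} {fl fm frg fth : Fd} (h1 : fl.rk < fm.rk) (h2 : fm.rk < frg.rk)
    (h3 : frg.rk < fth.rk) (haa : ∀ P P' : Prm, Agr fl P P' → aa P' = aa P) {X0 : Prm → Prop} (hX : ∀ᶠ P in gP z B, X0 P)
    (hXe : ∀ P P' : Prm, Agr fl P P' → X0 P → X0 P')
    {U : Ultrafilter ℕ} {b : ℝ} {PG : Measure CC.Gm} (hC : Cv (U : Filter ℕ) (fun N => mwE N b) cN PG)
    {S : ℕ → ℝ} {c0 R R2 R3 : ℝ} (r0 : 0 < R) (r2 : 0 < R2) (r3 : 0 < R3) {Bc Bx' By : Pool.Agent.SCF.M.Box} (hBc : Bc.Ok R) (hBx : Bx'.Ok R2)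
    (hBy : By.Ok R3) (hw : ∀ P : Prm, B.In z P → GWin Bc Bx' By (fl.get P) (fm.get P) (frg.get P) (fth.get P))
    {J : Type*} [Countable J] {k : A → J → Arm} {T : A → J → LSym} {y : A → J → ℕ → W3 × ℕ → ℝ}
    (hG : ∀ P : Prm, B.In z P → X0 P → ∀ j, ArcS U b (k (aa P) j) (T (aa P) j) S R c0 ∧ ArcS U b (k (aa P) j) (T (aa P) j) S R2 c0 ∧
      ArcS U b (k (aa P) j) (T (aa P) j) S R3 c0 ∧ L1A (U : Filter ℕ) (fun N => mwE N b) cN (y (aa P) j) ∧ ∀ N x, 0 ≤ y (aa P) j N x) :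
    ∃ τ : A → ℝ → ℝ → ℝ → ℝ → ℝ × ℝ, (∀ a l m rg th, 0 < (τ a l m rg th).1 ∧ (τ a l m rg th).1 < 1 ∧ 0 < (τ a l m rg th).2 ∧
      (τ a l m rg th).2 < 1) ∧ ∀ᶠ P in gP z B, ∀ j, SGd U b PG S c0 R R2 R3 (k (aa P) j) (T (aa P) j) (y (aa P) j)
        (mkG Bc Bx' By (fl.get P) (τ (aa P) (fl.get P) (fm.get P) (frg.get P) (fth.get P)).1 (fm.get P) (frg.get P)
          (fth.get P * fm.get P) (τ (aa P) (fl.get P) (fm.get P) (frg.get P) (fth.get P)).2) := by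
  obtain ⟨Gd, hGd⟩ : ∃ Gd : A → Prop, Gd = fun a => ∀ j, ArcS U b (k a j) (T a j) S R c0 ∧ ArcS U b (k a j) (T a j) S R2 c0 ∧
      ArcS U b (k a j) (T a j) S R3 c0 ∧ L1A (U : Filter ℕ) (fun N => mwE N b) cN (y a j) ∧ ∀ N x, 0 ≤ y a j N x := ⟨_, rfl⟩
  have hGa : ∀ a : {a // Gd a}, ∀ j, ArcS U b (k a.1 j) (T a.1 j) S R c0 ∧ ArcS U b (k a.1 j) (T a.1 j) S R2 c0 ∧
      ArcS U b (k a.1 j) (T a.1 j) S R3 c0 ∧ L1A (U : Filter ℕ) (fun N => mwE N b) cN (y a.1 j) ∧ ∀ N x, 0 ≤ y a.1 j N x := by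
    have e : ∀ a, Gd a → ∀ j, ArcS U b (k a j) (T a j) S R c0 ∧ ArcS U b (k a j) (T a j) S R2 c0 ∧
      ArcS U b (k a j) (T a j) S R3 c0 ∧ L1A (U : Filter ℕ) (fun N => mwE N b) cN (y a j) ∧ ∀ N x, 0 ≤ y a j N x := by
      intro a ha
      rw [hGd] at ha
      exact ha
    exact fun a => e a.1 a.2
  have key := gate_ev (z := z) (B := B) (A := {a // Gd a}) (R0 := fun a P => a.1 = aa P ∧ X0 P) h1 h2 h3
    ((hX.and gP_win).mono fun P hP => ⟨⟨aa P, by rw [hGd]; exact hG P hP.2 hP.1⟩, rfl, hP.1⟩)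
    (fun a P P' h ha => ⟨ha.1.trans (haa P P' h).symm, hXe P P' h ha.2⟩) hC (S := S) (c0 := c0) r0 r2 r3 hBc hBx hBy hw
    (J := J) (k := fun a j => k a.1 j) (T := fun a j => T a.1 j) (y := fun a j => y a.1 j)
    (fun a j => (hGa a j).1) (fun a j => (hGa a j).2.1) (fun a j => (hGa a j).2.2.1) (fun a j => (hGa a j).2.2.2.1)
    (fun a j => (hGa a j).2.2.2.2)
  obtain ⟨τ, hτ1, hτ2⟩ := par_fun (A := ℝ × ℝ) (Y := A × (ℝ × ℝ × ℝ × ℝ))
    (R1 := fun t v => (0 < t.1 ∧ t.1 < 1 ∧ 0 < t.2 ∧ t.2 < 1) ∧ ∀ j, SGd U b PG S c0 R R2 R3 (k v.1 j) (T v.1 j) (y v.1 j)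
      (mkG Bc Bx' By v.2.1 t.1 v.2.2.1 v.2.2.2.1 (v.2.2.2.2 * v.2.2.1) t.2))
    (R2 := fun t _ => 0 < t.1 ∧ t.1 < 1 ∧ 0 < t.2 ∧ t.2 < 1)
    (fun _ => ⟨(1 / 2, 1 / 2), by norm_num, by norm_num, by norm_num, by norm_num⟩) (fun _ _ h => h.1)
  refine ⟨fun a l m rg th => τ (a, l, m, rg, th), fun a l m rg th => hτ1 _, key.mono fun P hP => ?_⟩
  obtain ⟨a, t, t3, ⟨ha, -⟩, t0, t1, t30, t31, g⟩ := hP
  have h4 := hτ2 (aa P, fl.get P, fm.get P, frg.get P, fth.get P) ⟨(t, t3), ⟨t0, t1, t30, t31⟩, by rw [← ha]; exact g⟩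
  exact h4.2

/-- **native gates**: one function of the four coordinates -/
theorem gate_tau0 {z : ℂ} {B : Bx} {fl fm frg fth : Fd} (h1 : fl.rk < fm.rk) (h2 : fm.rk < frg.rk)
    (h3 : frg.rk < fth.rk) {U : Ultrafilter ℕ} {b : ℝ} {PG : Measure CC.Gm} (hC : Cv (U : Filter ℕ) (fun N => mwE N b) cN PG)
    {S : ℕ → ℝ} {c0 R R2 R3 : ℝ} (r0 : 0 < R) (r2 : 0 < R2) (r3 : 0 < R3) {Bc Bx' By : Pool.Agent.SCF.M.Box} (hBc : Bc.Ok R) (hBx : Bx'.Ok R2)
    (hBy : By.Ok R3) (hw : ∀ P : Prm, B.In z P → GWin Bc Bx' By (fl.get P) (fm.get P) (frg.get P) (fth.get P))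
    {J : Type*} [Countable J] {k : J → Arm} {T : J → LSym} {y : J → ℕ → W3 × ℕ → ℝ}
    (hA : ∀ j, ArcS U b (k j) (T j) S R c0) (hA2 : ∀ j, ArcS U b (k j) (T j) S R2 c0) (hA3 : ∀ j, ArcS U b (k j) (T j) S R3 c0)
    (hy : ∀ j, L1A (U : Filter ℕ) (fun N => mwE N b) cN (y j)) (y0 : ∀ j N x, 0 ≤ y j N x) :
    ∃ τ : ℝ → ℝ → ℝ → ℝ → ℝ × ℝ, (∀ l m rg th, 0 < (τ l m rg th).1 ∧ (τ l m rg th).1 < 1 ∧ 0 < (τ l m rg th).2 ∧
      (τ l m rg th).2 < 1) ∧ ∀ᶠ P in gP z B, ∀ j, SGd U b PG S c0 R R2 R3 (k j) (T j) (y j)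
        (mkG Bc Bx' By (fl.get P) (τ (fl.get P) (fm.get P) (frg.get P) (fth.get P)).1 (fm.get P) (frg.get P)
          (fth.get P * fm.get P) (τ (fl.get P) (fm.get P) (frg.get P) (fth.get P)).2) := by
  obtain ⟨τ, h4, h5⟩ := gate_tau (A := Unit) (aa := fun _ => ()) (X0 := fun _ => True) h1 h2 h3 (fun _ _ _ => rfl)
    (Eventually.of_forall fun _ => trivial) (fun _ _ _ _ => trivial) hC (S := S) (c0 := c0) r0 r2 r3 hBc hBx hBy hw
    (J := J) (k := fun _ j => k j) (T := fun _ j => T j) (y := fun _ j => y j)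
    (fun P _ _ j => ⟨hA j, hA2 j, hA3 j, hy j, y0 j⟩)
  exact ⟨fun l m rg th => τ () l m rg th, fun l m rg th => h4 _ _ _ _ _, h5⟩

end Pool.Agent.ROT.F3
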