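import Pool.Agent.ROT.F3PrmO22

/-!
# ROT / F3GenW22 (helper22): explicit windows for all the fields of `Prm`

`En.Iw E ρ τ` : every field of an end in its interval `[b, 1.01 b]` (all absolute), `kc` in `f.l + f.m + [101/40000 ρ, ρ/200]`
(allowed for every `kr` of the window). `Wn.Iw` : windows for `W`, `Wc`.
* **`win_ok`** : every choice in these intervals gives `P.Ok`, `P.p.Nr`, `P.q.Nr` and the wide windows, if `16 * 10 ^ 9 * ρ ≤ k`,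
  `k < K`; `W.t0` is free in `(0, k]`.
-/

set_option autoImplicit false

namespace Pool.Agent.ROT.F3

/-- every field of an end in its interval -/
structure En.Iw (E : En) (ρ τ : ℝ) : Prop where
  n : E.n.Nr (bN ρ τ)
  f : E.f.Nr (bF ρ τ)
  rk : Wi (bE ρ τ).rk E.rk
  κk : Wi (bE ρ τ).κk E.κk
  ek : Wi (bE ρ τ).ek E.ek
  lk : Wi (bE ρ τ).lk E.lk
  kr : Wi (bE ρ τ).kr E.kr
  kc : 101 / 40000 * ρ ≤ E.kc - (E.f.l + E.f.m) ∧ E.kc - (E.f.l + E.f.m) ≤ ρ / 200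
  s : E.s.Nr (bS ρ)

theorem En.Iw.nr {E : En} {ρ τ : ℝ} (h : E.Iw ρ τ) : E.Nr (bE ρ τ) := by
  have h1 : 1/100 * ρ ≤ E.kr := h.kr.1
  have h2 : E.kr ≤ 101 / 100 * (1/100 * ρ) := h.kr.2
  exact ⟨h.n, h.f, h.rk, h.κk, h.ek, h.lk, h.kr, ⟨by linarith [h.kc.1], by linarith [h.kc.2]⟩, h.s⟩

/-- intervals for the windows -/
structure Prm.Iw (P : Prm) (k K : ℝ) : Prop where
  D0 : k / 2 ≤ P.W.D0
  D0' : P.W.D0 ≤ k
  D1 : K ≤ P.W.D1
  D1' : P.W.D1 ≤ 2 * K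
  t0 : 0 < P.W.t0
  t0' : P.W.t0 ≤ k
  t1 : K ≤ P.W.t1
  c0 : k / 4 ≤ P.Wc.D0
  c0' : P.Wc.D0 ≤ k / 3
  c1 : 3 * K ≤ P.Wc.D1
  ct0 : P.Wc.t0 = 0
  ct1 : 0 < P.Wc.t1

/-- **every choice in the intervals is good** -/
theorem win_ok {P : Prm} {ρ τ k K : ℝ} (hρ : 0 < ρ) (hτ : 0 < τ) (hk : 16000000000 * ρ ≤ k) (hK : k < K) (hu : ‖P.u‖ = 1)
    (h1 : ‖P.u - 1‖ ≤ 1 / 100000000) (hp : P.p.Iw ρ τ) (hq : P.q.Iw ρ τ) (hW : P.Iw k K) :
    P.Ok ∧ P.p.Nr (bE ρ τ) ∧ P.q.Nr (bE ρ τ) ∧ (P.W.D0 ≤ k ∧ K ≤ P.W.D1 ∧ P.W.t0 ≤ k ∧ K ≤ P.W.t1) := by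
  have a1 := hW.D0
  have a2 := hW.D0'
  have a3 := hW.D1
  have a4 := hW.D1'
  have a5 := hW.c0
  have a6 := hW.c0'
  have a7 := hW.c1
  have a8 := hW.t0'
  have a9 := hW.t1
  exact ⟨prm_ok hρ hτ hρ hτ hu h1 hp.nr hq.nr (by linarith) (by linarith) (by linarith) (by linarith) (by linarith) hW.t0
    (by linarith) hW.ct0 hW.ct1, hp.nr, hq.nr, a2, a3, a8, a9⟩

/-- the intervals are not empty: the left end -/
theorem En.iw_base {ρ τ : ℝ} (hρ : 0 < ρ) (hτ : 0 < τ) : (bE ρ τ).Iw ρ τ := by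
  have t : ∀ {b : ℝ}, 0 ≤ b → Wi b b := fun {b} hb => ⟨le_rfl, by linarith⟩
  refine ⟨?_, ?_, t ?_, t ?_, t ?_, t ?_, t ?_, ?_, ?_⟩
  · constructor <;> exact t (by simp only [bN]; positivity)
  · constructor <;> exact t (by simp only [bF]; positivity)
  · simp only [bE]; positivity
  · simp only [bE]; positivity
  · simp only [bE]; positivity
  · simp only [bE]; positivity
  · simp only [bE]; positivity
  · simp only [bE, bF]
    constructor <;> linarith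
  · constructor <;> exact t (by simp only [bS]; positivity)

end Pool.Agent.ROT.F3
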