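import Pool.Agent.ROT.F3K2B
import Pool.Agent.ROT.W4G

/-!
# ROT, F3, K2 (helper16, compiled by helper11): the arcs of the polygons, no hypothesis

* `arcH : ArcH R c0` for `1010 * R ≤ c0`; **`arc_sysH`** : `ArcS` for all arms and turns, `2020 * R < c`, `c` off a countable set.
-/

set_option autoImplicit false

open Filter

namespace Pool.Agent.ROT.F3

open Pool.Agent.ROT.F (QB)

theorem arcH {R c0 : ℝ} (hR : 0 < R) (hc : 1010 * R ≤ c0) : ArcH R c0 := Pool.Agent.ROT.W4.arcJ_level hR hc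

theorem arc_sysH (hQ : QB) {b : ℝ} (hb : 0 ≤ b) (U : Ultrafilter ℕ) (hU : (U : Filter ℕ) ≤ atTop) {S : ℕ → ℝ}
    (hS0 : ∀ N, 0 < S N) (hS : ∀ᶠ N : ℕ in U, S N = N) : ∃ E0 : Set ℝ, E0.Countable ∧ ∀ c : ℝ, c ∉ E0 → ∀ R : ℝ, 0 < R →
      2020 * R < c → ∀ (k : Arm) (T : LSym), ArcS U b k T S R c := by
  obtain ⟨E0, hE0, h⟩ := arc_sys hQ hb U hU hS0 hS
  exact ⟨E0, hE0, fun c hc R hR hRc k T => h c hc R (1010 * R) hR (by positivity) (by linarith) (arcH hR le_rfl) k T⟩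

end Pool.Agent.ROT.F3
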