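import Pool.Agent.ROT.F3GenM
import Pool.Agent.ROT.F3K2H
import Pool.Agent.ROT.F3CvU

/-!
# ROT, block F3, row GEN (helper11): the constants which are chosen before the data

* **`Env V bb PG S c0 ρ t0`** : the limit law of the closed curves, the unit `S`, the distance `c0` of the roots, the origin `t0` of the
  cells; **`env_ex`** : they exist for every scale and every bound of the lengths.
-/

set_option autoImplicit false

open MeasureTheory Filter Topology Set unitInterval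

namespace Pool.Agent.ROT.F3E

open Pool.Agent.ROT.F (QB)
open Pool.Agent.ROT.F3 Pool.Agent.ROT.F3.CK
open Pool.Agent.ROT.F3.LF (Cv Lm Ev bi)

/-- **the constants before the data** -/
structure Env (V : Ultrafilter ℕ) (bb : ℝ) (PG : Measure CC.Gm) (S : ℕ → ℝ) (c0 ρ t0 : ℝ) : Prop where
  V0 : (V : Filter ℕ) ≤ atTop
  bb0 : 0 ≤ bb
  ρ0 : 0 < ρ
  cv : Cv (V : Filter ℕ) (fun N => mwE N bb) cN PG
  fin : IsFiniteMeasure PG
  inv : ∀ v : ℂ, ‖v‖ = 1 → PG.map (rotX v) = PG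
  pos : ∀ᵐ g ∂PG, 0 < g.2.1 ∧ g.2.1 < g.1
  S0 : ∀ N, 0 < S N
  S1 : ∀ᶠ N : ℕ in V, S N = N
  /-- the strands at the six scales (helper59, helper16) -/
  sc : Sc V bb S c0 ρ
  c1 : 60000000 * ρ < c0
  c2 : c0 < 1000000000 * ρ
  /-- the levels of the cells are good (helper59) -/
  cel : ∀ (n : ℕ) (k : ℤ), FLv V bb PG S c0 ρ (Nul.lft t0 n k)
  /-- the level `c0` is not charged (helper2) -/
  far : PG {g | ‖g.2.2 (pji (muG g))‖ = c0} = 0

lemma Env.pos1 {V : Ultrafilter ℕ} {bb : ℝ} {PG : Measure CC.Gm} {S : ℕ → ℝ} {c0 ρ t0 : ℝ} (h : Env V bb PG S c0 ρ t0) :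
    ∀ᵐ g ∂PG, 0 < g.1 := h.pos.mono fun _ hg => hg.1.trans hg.2

/-- a point of an interval off two countable sets -/
lemma off_cnt {E E' : Set ℝ} (hE : E.Countable) (hE' : E'.Countable) {a b : ℝ} (hab : a < b) : ∃ c, c ∉ E ∧ c ∉ E' ∧ a < c ∧ c < b := by
  obtain ⟨c, hc, h1, h2⟩ := ((hE.union hE').dense_compl ℝ).exists_between hab
  exact ⟨c, fun h => hc (Or.inl h), fun h => hc (Or.inr h), h1, h2⟩

/-- the unit -/
noncomputable def S1 (N : ℕ) : ℝ := max 1 N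

lemma S1_pos (N : ℕ) : 0 < S1 N := lt_of_lt_of_le one_pos (le_max_left _ _)

lemma S1_ev {V : Filter ℕ} (hV : V ≤ atTop) : ∀ᶠ N : ℕ in V, S1 N = N := by
  filter_upwards [hV (eventually_ge_atTop 1)] with N hN
  exact max_eq_right (by exact_mod_cast hN)

theorem env_ex (hQ : QB) {V : Ultrafilter ℕ} (hV : (V : Filter ℕ) ≤ atTop) {bb : ℝ} (hb : 0 ≤ bb) {ρ : ℝ} (hρ : 0 < ρ)
    (inv : ∀ v : ℂ, ‖v‖ = 1 → (PGl V bb).map (rotX v) = PGl V bb) (pos : ∀ᵐ g ∂(PGl V bb), 0 < g.2.1 ∧ g.2.1 < g.1)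
    (hf : ∃ E : Set ℝ, E.Countable ∧ ∀ c ∉ E, PGl V bb {g | ‖g.2.2 (pji (muG g))‖ = c} = 0) :
    ∃ c0 t0 : ℝ, Env V bb (PGl V bb) S1 c0 ρ t0 := by
  have hC := PGl_cv hQ hV hb
  obtain ⟨E0, hE0, h0⟩ := arc_sysH hQ hb V hV S1_pos (S1_ev hV)
  obtain ⟨E1, hE1, h1⟩ := hf
  obtain ⟨c0, c3, c4, c1, c2⟩ := off_cnt hE0 hE1 (show 60000000 * ρ < 1000000000 * ρ by linarith)
  have sc : Sc V bb S1 c0 ρ := by
    refine ⟨fun i k T => h0 c0 c3 (scN i * ρ) (mul_pos (scN_pos i).1 hρ) ?_ k T, fun i k T => h0 c0 c3 (scF i * ρ) (mul_pos (scF_pos i).1 hρ) ?_ k T⟩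
    · have := mul_le_mul_of_nonneg_right (scN_pos i).2 hρ.le
      linarith
    · have := mul_le_mul_of_nonneg_right (scF_pos i).2 hρ.le
      linarith
  obtain ⟨E2, hE2, h2⟩ := flv_cell (PG := PGl V bb) hC hρ sc
  obtain ⟨t0, t1, -, -, -⟩ := off_cnt hE2 hE2 (show (0 : ℝ) < 1 from one_pos)
  exact ⟨c0, t0, hV, hb, hρ, hC, hC.fin', inv, pos, S1_pos, S1_ev hV, sc, c1, c2, h2 t0 t1, h1 c0 c4⟩

end Pool.Agent.ROT.F3E
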