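import Pool.Agent.ROT.F3GenX0
import Pool.Agent.ROT.F3GenCN

/-!
# ROT, block F3, row GEN (helper11): the rows with common objects

* **`gen_comp`** : objects `a` of the coordinates before `f0` (relation `RA`), objects `b` of the coordinates before `fs` (relation `RB a`),
  a row `NU a` over the objects `a`, a soft condition `SO a b` : eventually all of them hold for the same objects.
-/

set_option autoImplicit false

open MeasureTheory Filter Set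

namespace Pool.Agent.ROT.F3.Gn

/-- **all the rows for the same objects** -/
theorem gen_comp {z : ℂ} {B : Bx} {f0 : Fd} (h0 : f0.rk ≤ fs.rk) {A A' : Type*} [Nonempty A] {RA : A → Prm → Prop}
    {RB : A → A' → Prm → Prop} {NU : A → Prm → Prop} {SO : A × A' → Prm → Prop} (hN : ∀ᶠ P in gP z B, ∃ a, RA a P)
    (hNe : ∀ a (P P' : Prm), Agr f0 P P' → RA a P → RA a P')
    (hF : ∀ R0 : A → Prm → Prop, (∀ a P, R0 a P → RA a P) → (∀ᶠ P in gP z B, ∃ a, R0 a P) →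
      (∀ a (P P' : Prm), Agr f0 P P' → R0 a P → R0 a P') → ∀ᶠ P in gP z B, ∃ a b, R0 a P ∧ RB a b P)
    (hFe : ∀ a b (P P' : Prm), Agr fs P P' → RB a b P → RB a b P')
    (hU : ∀ R0 : A → Prm → Prop, (∀ a P, R0 a P → RA a P) → (∀ᶠ P in gP z B, ∃ a, R0 a P) →
      (∀ a (P P' : Prm), Agr f0 P P' → R0 a P → R0 a P') → ∀ᶠ P in gP z B, ∃ a, R0 a P ∧ NU a P)
    (hS : Sft z B (fun (ab : A × A') P => RA ab.1 P ∧ RB ab.1 ab.2 P) SO) :
    ∀ᶠ P in gP z B, ∃ a b, RA a P ∧ RB a b P ∧ NU a P ∧ SO (a, b) P := by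
  have r1 : ∀ᶠ P in gP z B, ∃ a, Rp RA a P := Rp.ev hN
  have r2 : ∀ a (P P' : Prm), Agr f0 P P' → Rp RA a P → Rp RA a P' := Rp.agr hNe
  have r3 : ∀ a P, Rp RA a P → RA a P := fun a P h => h.2
  have s1 : ∀ᶠ P in gP z B, ∃ ab : A × A', Rp RA ab.1 P ∧ RB ab.1 ab.2 P :=
    (hF _ r3 r1 r2).mono fun P ⟨a, b, h⟩ => ⟨(a, b), h⟩
  have s2 := sft_ev s1 (fun ab P P' hA h => ⟨r2 ab.1 P P' (hA.mono h0) h.1, hFe _ _ P P' hA h.2⟩)
    (hS.weak fun ab P h => ⟨r3 _ _ h.1, h.2⟩)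
  filter_upwards [s2, hU _ r3 r1 r2] with P ⟨ab, h1, h2⟩ ⟨a, h3, h4⟩
  obtain ⟨a', b⟩ := ab
  obtain ⟨⟨e1, h5⟩, h6⟩ := h1
  obtain ⟨e2, -⟩ := h3
  have e : a = a' := e2.trans e1.symm
  subst e
  exact ⟨a, b, h5, h6, h4, h2⟩

end Pool.Agent.ROT.F3.Gn
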