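import Pool.Agent.ROT.F3NulM

/-!
# ROT, F3, row NUL (helper15): the row for the composition of the generic conditions

* `NulO` : the family of members near `P` with their objects, their free cells at the functional levels `AF ∘ rotX + f.l`;
* **`nul_row`** : eventually along `gP z B`, for one object `a` chosen from the coordinates before `p.f.l`, from the rows of the cells in
  every smaller box (`RO o P` : `o` = objects of the data `P`);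
* `n5_box` : the hypothesis `h5`; **`NulO.ne`**, **`NulO.fr`** : the fields `ne`, `fr` for one `P`.
-/

set_option autoImplicit false
set_option linter.unusedSectionVars false

open MeasureTheory Set Filter Topology
open scoped ENNReal NNReal Classical

namespace Pool.Agent.ROT.F3.NW

open Pool.Agent.ROT.F3 Pool.Agent.ROT.F3.CC Pool.Agent.ROT.F3.CK Pool.Agent.ROT.F3.LF Pool.Agent.ROT.F3.Nul Pool.Agent.ROT.F3E

/-- the rows of the cells of the data `P` for the gates `Hl` -/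
def SubR (V : Filter ℕ) (b : ℝ) (PG : Measure CC.Gm) (t0 : ℝ) (P : Prm) (Hl : Fin 3 → Fin 3 → ℕ → ℕ → Ga) : Prop :=
  ∀ i j : Fin 3, i ≠ j → j ≠ 0 → ∀ m n, LvO V (fun N => mwE N b) cN PG (jDR P i j) (acl P i) (acl P j)
    (fun _ _ => yv (jDR P i j) t0 m n) (fun g => bi (g ∈ jKR P i j (Hl i j m n)))
    (phi8 (Hl i j m n).B (Hl i j m n).c (Hl i j m n).x) (lamF (jDR P i j) (phi8 (Hl i j m n).B (Hl i j m n).c (Hl i j m n).x))

/-- **the family near `P`** : members `QQ q` with objects `oq q`, free cells at the levels `AF ∘ rotX + f.l` -/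
structure NulO {O : Type*} (PG : Measure CC.Gm) (t0 : ℝ) (z : ℂ) (B : Gn.Bx) (RO : O → Prm → Prop)
    (HO : O → Fin 3 → Fin 3 → ℕ → ℕ → Ga) (AF : Fin 3 → Fin 3 → CC.Gm → Fin 4 → ℝ) (P : Prm) (QQ : ℕ → Prm) (oq : ℕ → O) :
    Prop where
  qf : Gn.QF (.p (.f .l)) z B (fun P => ∃ o, RO o P) P QQ
  ro : ∀ q, RO (oq q) (QQ q)
  free : ∀ i j : Fin 3, i ≠ j → j ≠ 0 → ∀ q s, FreeC PG t0 (Dt.mm (dR (QQ q) i j)) (cE (QQ q) i j (HO (oq q) i j))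
    (cLv (QQ q) i j (HO (oq q) i j)) s (fun g => AF i j (rotX z g) s) (fl P s)
  ne0 : ∀ i j : Fin 3, i ≠ j → j ≠ 0 → ∀ s, ∀ᵐ g ∂PG, ∀ (n : ℕ) (k : ℤ), AF i j (rotX z g) s + fl P s ≠ lft t0 n k

section row

variable {V : Filter ℕ} [V.NeBot] {b : ℝ} {PG : Measure CC.Gm} {t0 : ℝ} {z : ℂ} {B : Gn.Bx} {O : Type*} {RO : O → Prm → Prop}
  {HO : O → Fin 3 → Fin 3 → ℕ → ℕ → Ga}

/-- **the row NUL** -/
theorem nul_row (hVa : V ≤ atTop) (hC : Cv V (fun N => mwE N b) cN PG)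
    (h5 : ∀ P : Prm, B.In z P → ∀ i j : Fin 3, i ≠ j → N5 (dR P i j) b)
    (hRF : ∀ o P, B.In z P → RO o P → SubR V b PG t0 P (HO o))
    (hR : ∀ B' : Gn.Bx, B'.Le B z → ∀ᶠ P in Gn.gP z B', ∃ o, RO o P)
    {A : Type*} {R0 : A → Prm → Prop} (hA : ∀ᶠ P in Gn.gP z B, ∃ a, R0 a P)
    (hAe : ∀ a (P P' : Prm), Gn.Agr (.p (.f .l)) P P' → R0 a P → R0 a P')
    {AF : A → Fin 3 → Fin 3 → CC.Gm → Fin 4 → ℝ} (hAF : ∀ a i j s, Measurable fun g => AF a i j g s) :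
    ∀ᶠ P in Gn.gP z B, ∃ a, R0 a P ∧ ∃ (QQ : ℕ → Prm) (oq : ℕ → O), NulO PG t0 z B RO HO (AF a) P QQ oq := by
  -- there is an object
  by_cases hO : Nonempty O
  · obtain ⟨ob, hob⟩ : ∃ ob : Prm → O, ∀ P, (∃ o, RO o P) → RO (ob P) P := by
      have : ∀ P : Prm, ∃ o : O, (∃ o, RO o P) → RO o P := fun P => by
        by_cases h : ∃ o, RO o P
        · obtain ⟨o, ho⟩ := h
          exact ⟨o, fun _ => ho⟩
        · exact ⟨Classical.choice hO, fun h' => absurd h' h⟩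
      choose ob hob using this
      exact ⟨ob, hob⟩
    have h1 := nul_gen (t0 := t0) (z := z) (B := B) hVa hC h5 (R := fun P => ∃ o, RO o P)
      (E := fun P i j => cE P i j (HO (ob P) i j)) (Φ := fun P i j => cP (HO (ob P) i j)) (Λ := fun P i j => cLv P i j (HO (ob P) i j))
      (fun P hP hr i j hij hj => fam_of (hRF (ob P) P hP (hob P hr) i j hij hj)) hR hA hAe
      (Af := fun a i j g s => AF a i j (rotX z g) s) fun a i j s => (hAF a i j s).comp (rotX_cont z).measurable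
    refine h1.mono fun P ⟨a, k1, k2, k3⟩ => ⟨a, k1, Gn.fam (.p (.f .l)) z B (fun P => ∃ o, RO o P) P,
      fun q => ob (Gn.fam (.p (.f .l)) z B (fun P => ∃ o, RO o P) P q), k2, fun q => hob _ (k2.q q), ?_, ?_⟩
    · exact fun i j hij hj q s => (k3 i j hij hj s).1 q
    · exact fun i j hij hj s => (k3 i j hij hj s).2
  · have h1 := hR B fun P h => h
    have h2 : ∀ᶠ P : Prm in Gn.gP z B, False := h1.mono fun P ⟨o, _⟩ => hO ⟨o⟩
    exact h2.mono fun P h => h.elim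

/-- the hypothesis `h5` of `nul_row` -/
theorem n5_box (hQB : Pool.Agent.ROT.F.QB) {τ : ℝ} (hτ : 0 < τ) : ∃ ρ0 : ℝ, 0 < ρ0 ∧ ∀ ρ : ℝ, 0 < ρ → ρ ≤ ρ0 → ∀ (z : ℂ) (B : Gn.Bx)
    (b : ℝ), (∀ P, B.In z P → P.Ok ∧ P.p.Nr (bE ρ τ) ∧ P.q.Nr (bE ρ τ)) → (∀ P, B.In z P → ∀ i j : Fin 3, i ≠ j → (dR P i j).len ≤ b) →
      ∀ P : Prm, B.In z P → ∀ i j : Fin 3, i ≠ j → N5 (dR P i j) b := by
  obtain ⟨ρ0, h0, h⟩ := n5_nr hQB hτ
  exact ⟨ρ0, h0, fun ρ hρ hρ0 z B b hB hb P hP i j hij => h ρ hρ hρ0 P (hB P hP).1 (hB P hP).2.1 (hB P hP).2.2 hij 0 0 0 0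
    le_rfl le_rfl le_rfl le_rfl b (hb P hP i j hij)⟩

variable {AF : Fin 3 → Fin 3 → CC.Gm → Fin 4 → ℝ} {P : Prm} {QQ : ℕ → Prm} {oq : ℕ → O} {i j : Fin 3}

/-- **the field `ne`** -/
theorem NulO.ne (K : NulO PG t0 z B RO HO AF P QQ oq) (hP : B.In z P) (hz : ‖P.u‖ = 1) (hPz : PG.map (rotX P.u) = PG)
    (hij : i ≠ j) (hj : j ≠ 0) : ∀ᵐ g ∂PG, ∀ (s : Fin 4) (n : ℕ) (k : ℤ), (jDR P i j).l s + AF i j g s ≠ lft t0 n k := by
  refine ne_prm hz hPz fun s => ?_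
  rw [hP.u]
  exact K.ne0 i j hij hj s

/-- **the field `fr`** -/
theorem NulO.fr {ρ τ : ℝ} (K : NulO PG t0 z B RO HO AF P QQ oq) (hVa : V ≤ atTop) (hC : Cv V (fun N => mwE N b) cN PG)
    (hBx : ∀ P, B.In z P → P.Ok ∧ P.p.Nr (bE ρ τ) ∧ P.q.Nr (bE ρ τ)) (hP : B.In z P) (hPz : PG.map (rotX P.u) = PG)
    (hij : i ≠ j) (hj : j ≠ 0) (hRF : ∀ o P, B.In z P → RO o P → SubR V b PG t0 P (HO o)) {G0 H : Ga} {Hl : ℕ → ℕ → Ga}
    (sub : ∀ m n, LvO V (fun N => mwE N b) cN PG (jDR P i j) (acl P i) (acl P j) (fun _ _ => yv (jDR P i j) t0 m n)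
      (fun g => bi (g ∈ jKR P i j (Hl m n))) (phi8 (Hl m n).B (Hl m n).c (Hl m n).x)
      (lamF (jDR P i j) (phi8 (Hl m n).B (Hl m n).c (Hl m n).x)))
    (hA0 : ∀ᵐ g ∂PG, g ∈ jEp P i j G0 H → g ∈ jEq P i j G0 H → ∀ s, 0 < AF i j g s)
    (hU : ∀ᵐ g ∂PG, g ∈ jKR P i j H → rotX P.u g ∈ jEp P i j G0 H → rotX P.u g ∈ jEq P i j G0 H → ∃ μ : ℝ, 0 < μ ∧
      ∀ n k, (∀ s, |lft t0 n (k s) - ((jDR P i j).l s + AF i j (rotX P.u g) s)| < μ) →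
        g ∈ jKR P i j (Hl (ci n k) (cj n k)) ∧
          ∀ q, prD P (QQ q) < μ → g ∈ jKR (QQ q) i j (HO (oq q) i j (ci n k) (cj n k))) :
    ∀ᵐ g ∂PG, jwR P i j H g ≠ 0 → g ∈ jEp P i j G0 H → g ∈ jEq P i j G0 H → ∀ᶠ n in atTop, ∀ k : Fin 4 → ℤ,
      (k = fun s => kn t0 n ((jDR P i j).l s + AF i j g s)) → rotX P.u⁻¹ g ∈ jKR P i j (Hl (ci n k) (cj n k)) ∧
        ∀ s, lft t0 n (k s + 1) <
          lamF (jDR P i j) (phi8 (Hl (ci n k) (cj n k)).B (Hl (ci n k) (cj n k)).c (Hl (ci n k) (cj n k)).x) (rotX P.u⁻¹ g) s :=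
  fr_gen hVa hC hBx hP hPz hij K.qf sub (Hq := fun q => HO (oq q) i j)
    (fun q => fam_of (hRF (oq q) (QQ q) (K.qf.win q) (K.ro q) i j hij hj))
    (fun q s => by
      rw [hP.u]
      exact K.free i j hij hj q s) hA0 hU

end row

end Pool.Agent.ROT.F3.NW
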