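import Pool.Agent.ROT.F3GenX1
import Pool.Agent.ROT.F3GenX2
import Pool.Agent.ROT.F3GenG4
import Pool.Agent.ROT.F3NulP

/-!
# ROT, block F3, row GEN (helper11): the objects at generic data

* `axZ z F0 Rm i j` : the functional thresholds of the pairs as functions of the native gates (`P.u = z`), `axZ_eq`, `axZ_meas`;
* **`gen_obj`** : eventually there are objects `a`, `b` with `RN`, `RF`, the family of the row NUL (helper15) over the same `a`, and any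
  soft condition over `a`, `b` (helper71).
-/

set_option autoImplicit false

open MeasureTheory Filter Topology Set unitInterval

namespace Pool.Agent.ROT.F3E

open Pool.Agent.ROT.F3 Pool.Agent.ROT.F3.CK
open Pool.Agent.ROT.F3.LF (Cv Lm Ev bi)
open Pool.Agent.ROT.F3.NW (NulO SubR nul_row dR N5)
open Pool.Agent.ROT.F3.Gn (Fd Agr Bx gP gP_win Sft gen_comp)

open Classical in
/-- the functional thresholds of the pairs, for `P.u = z` -/
noncomputable def axZ (z : ℂ) (Rm : ℝ) (a : ObN) (i j : Fin 3) (g : CC.Gm) (s : Fin 4) : ℝ :=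
  if ∀ E x, (a.F0 E x).Ms then axF (Gn.prmOf z fun _ => 0) i j (prG a.F0 i j) Rm g s else 0

lemma axF_congr {P P' : Prm} (h : P'.u = P.u) (i j : Fin 3) (G : Ga) (Rm : ℝ) : axF P' i j G Rm = axF P i j G Rm := by
  funext g s
  unfold axF
  rw [h]

lemma axZ_eq {z : ℂ} {P : Prm} (hu : P.u = z) {a : ObN} (h : ∀ E x, (a.F0 E x).Ms) (Rm : ℝ) :
    axZ z Rm a = fun i j => axF P i j (prG a.F0 i j) Rm := by
  funext i j g s
  unfold axZ
  rw [if_pos h]
  exact congrFun (congrFun (axF_congr (P := P) (P' := Gn.prmOf z fun _ => 0) hu.symm i j _ Rm) g) s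

lemma axZ_meas (z : ℂ) (Rm : ℝ) (a : ObN) (i j : Fin 3) (s : Fin 4) : Measurable fun g => axZ z Rm a i j g s := by
  by_cases h : ∀ E x, (a.F0 E x).Ms
  · have e : (fun g => axZ z Rm a i j g s) = fun g => axF (Gn.prmOf z fun _ => 0) i j (prG a.F0 i j) Rm g s := by
      funext g
      exact if_pos h
    rw [e]
    exact axF_meas (prG_ms h i j) s
  · have e : (fun g => axZ z Rm a i j g s) = fun _ => 0 := by
      funext g
      exact if_neg h
    rw [e]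
    exact measurable_const

section

variable {V : Ultrafilter ℕ} {bb : ℝ} {PG : Measure CC.Gm} {S : ℕ → ℝ} {c0 ρ τ t0 Rm : ℝ} {z : ℂ} {B : Bx}

/-- **the objects at generic data** -/
theorem gen_obj (hE : Env V bb PG S c0 ρ t0) (hB : BxNr z B ρ τ) (hN : ∀ᶠ P in gP z B, ∃ a, RN V bb PG S c0 ρ Rm a P)
    (hms : ∀ a P, RN V bb PG S c0 ρ Rm a P → ∀ E x, (a.F0 E x).Ms)
    (h5 : ∀ P : Prm, B.In z P → ∀ i j : Fin 3, i ≠ j → N5 (dR P i j) bb) {O : Type*} {RO : O → Prm → Prop}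
    {HO : O → Fin 3 → Fin 3 → ℕ → ℕ → Ga} (hRF : ∀ o P, B.In z P → RO o P → SubR (V : Filter ℕ) bb PG t0 P (HO o))
    (hR : ∀ B' : Bx, B'.Le B z → ∀ᶠ P in gP z B', ∃ o, RO o P) {SO : ObN × ObF → Prm → Prop}
    (hS : Sft z B (fun (ab : ObN × ObF) P => RN V bb PG S c0 ρ Rm ab.1 P ∧ RF V bb PG S c0 ρ t0 ab.1 ab.2 P) SO) :
    ∀ᶠ P in gP z B, ∃ a b, RN V bb PG S c0 ρ Rm a P ∧ RF V bb PG S c0 ρ t0 a b P ∧
      (∃ (QQ : ℕ → Prm) (oq : ℕ → O), NulO PG t0 z B RO HO (fun i j => axF P i j (prG a.F0 i j) Rm) P QQ oq) ∧ SO (a, b) P := by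
  have h1 := gen_comp (f0 := .p (.f .l)) (z := z) (B := B) (RA := RN V bb PG S c0 ρ Rm) (RB := RF V bb PG S c0 ρ t0)
    (NU := fun a P => ∃ (QQ : ℕ → Prm) (oq : ℕ → O), NulO PG t0 z B RO HO (axZ z Rm a) P QQ oq) (SO := SO)
    (Gn.rk_le (by decide +kernel)) hN (fun a P P' hA h => h.agr hA)
    (fun R0 h0 h2 h3 => famF_ev h2 h3 (fun a P ha E c κ => l1a_lm ((h0 a P ha).thr.lm E c κ)) hE.cv hE.ρ0 hE.S0 hE.S1 hE.sc hB hE.cel)
    (fun a b P P' hA h => h.agr hA)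
    (fun R0 _ h2 h3 => nul_row hE.V0 hE.cv h5 hRF hR h2 h3 (AF := axZ z Rm) fun a i j s => axZ_meas z Rm a i j s) hS
  filter_upwards [h1, gP_win] with P ⟨a, b, h2, h3, ⟨QQ, oq, h4⟩, h5⟩ hP
  rw [axZ_eq hP.u (hms a P h2)] at h4
  exact ⟨a, b, h2, h3, ⟨QQ, oq, h4⟩, h5⟩

end

end Pool.Agent.ROT.F3E
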