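import Pool.Agent.ROT.F3K3Z
import Pool.Agent.ROT.F3K2B

/-!
# ROT, F3, row GEN (helper2): the roots of the curves with gates are far

The gates of the words are read on `c0 < dst N x`. In the limit `c0 < ‖root‖`, strictly, if no mass is on `‖root‖ = c0`.
* `rootN g` : the distance of the roots; **`root_c0`** : `c0` off a countable set; **`ev_far`** : `c0 < rootN g` where the gates exist;
* `ev_farR` : the same for the curves of the lattice 0, gates of the rotated lattice.
-/

set_option autoImplicit false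

namespace Pool.Agent.ROT.F3.CK

open MeasureTheory Filter Topology Set unitInterval

open scoped NNReal ENNReal Classical

open Pool.Agent.ROT.F3 Pool.Agent.ROT.F3.LF

/-- the distance of the roots of a closed curve -/
noncomputable def rootN (g : CC.Gm) : ℝ := ‖g.2.2 (pji (muG g))‖

lemma rootN_ms : Measurable rootN :=
  (meas_at (measurable_snd.snd : Measurable fun g : CC.Gm => g.2.2) (pji_cont.measurable.comp muG_meas)).norm

lemma rootN_nn (g : CC.Gm) : 0 ≤ rootN g := norm_nonneg _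

lemma rootN_rot {v : ℂ} (hv : ‖v‖ = 1) (g : CC.Gm) : rootN (rotX v g) = rootN g := by
  show ‖v * g.2.2 (pji (muG g))‖ = ‖g.2.2 (pji (muG g))‖
  rw [norm_mul, hv, one_mul]

/-- **no mass on the roots at the distance `c`**, for all but countably many `c` -/
theorem root_c0 (PG : Measure CC.Gm) [SigmaFinite PG] :
    ∃ E : Set ℝ, E.Countable ∧ ∀ c : ℝ, c ∉ E → PG {g | ‖g.2.2 (pji (muG g))‖ = c} = 0 := by
  refine ⟨{c | 0 < PG {g | rootN g = c}}, Measure.countable_meas_pos_of_disjoint_iUnion (fun c => ?_) ?_, fun c hc => ?_⟩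
  · exact rootN_ms (measurableSet_singleton c)
  · intro c c' hcc
    refine Set.disjoint_left.2 fun g h1 h2 => hcc ?_
    have h1' : rootN g = c := h1
    have h2' : rootN g = c' := h2
    rw [← h1', h2']
  · exact nonpos_iff_eq_zero.1 (not_lt.1 hc)

section

variable {U : Filter ℕ} {b : ℝ} {PG : Measure CC.Gm} {c0 : ℝ} {A : ℕ → W3 × ℕ → Prop} {B : Set CC.Gm}

/-- **the roots are at least as far as `c0` where the gates exist** -/
theorem ev_far_le [U.NeBot] (hC : Cv U (fun N => mwE N b) cN PG) (hP : ∀ᵐ y ∂PG, 0 < y.1)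
    (H : Ev U (fun N => mwE N b) cN PG (fun N x => c0 < dst N x ∧ A N x) B) : ∀ᵐ g ∂PG, g ∈ B → c0 ≤ ‖g.2.2 (pji (muG g))‖ := by
  have h1 := Ev.mem (κ := Unit) (p := fun _ x _ => muN x) (Φ := fun γ _ => muG γ) hC (fun _ => lm_mu hC hP) H
    (F := fun z => c0 - ‖z.1.2.2 (pji (z.2 ()))‖) (by
      refine continuous_const.sub (continuous_norm.comp ?_)
      exact (continuous_eval (F := C(I, ℂ))).comp ((by fun_prop : Continuous fun z : CC.Gm × (Unit → ℝ) => z.1.2.2).prodMk
        (pji_cont.comp (by fun_prop))))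
    (fun δ hδ => by
      refine Eventually.of_forall fun N => ⟨{x | ¬ Spt x}, MeasurableSet.of_discrete, ?_, fun x hx hL => ?_⟩
      · have h4 : mwE N b {x | ¬ Spt x} = 0 := spt_ae N b
        rw [measureReal_def, h4]
        exact hδ.le
      · obtain ⟨-, -, s3⟩ := not_not.1 hx
        have e1 : pji (muN x) = fr x.2 x.1.length := by
          rw [muN_eq s3, ← fr_coe s3.le, pji_coe]
        show c0 - ‖crv x.1 x.1.length N (pji (muN x))‖ ≤ δ
        rw [e1, crv_fr _ s3.le, norm_div, Complex.norm_real, Real.norm_natCast]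
        have h5 : c0 < ‖ps x.1 x.2‖ / N := hL.1
        linarith)
  filter_upwards [h1] with g hg hB
  have : c0 - ‖g.2.2 (pji (muG g))‖ ≤ 0 := hg hB
  linarith

/-- **the roots are farther than `c0` where the gates exist** -/
theorem ev_far [U.NeBot] (hC : Cv U (fun N => mwE N b) cN PG) (hP : ∀ᵐ y ∂PG, 0 < y.1)
    (hc : PG {g | ‖g.2.2 (pji (muG g))‖ = c0} = 0)
    (H : Ev U (fun N => mwE N b) cN PG (fun N x => c0 < dst N x ∧ A N x) B) : ∀ᵐ g ∂PG, g ∈ B → c0 < ‖g.2.2 (pji (muG g))‖ := by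
  filter_upwards [ev_far_le hC hP H, measure_eq_zero_iff_ae_notMem.1 hc] with g h1 h2 hB
  exact lt_of_le_of_ne (h1 hB) fun h3 => h2 h3.symm

/-- **the same for the gates of the rotated lattice, on the curves of the lattice 0** -/
theorem ev_farR [U.NeBot] (hC : Cv U (fun N => mwE N b) cN PG) (hP : ∀ᵐ y ∂PG, 0 < y.1)
    (hc : PG {g | ‖g.2.2 (pji (muG g))‖ = c0} = 0) {u : ℂ} (hu : ‖u‖ = 1) (hPz : PG.map (rotX u) = PG)
    (H : Ev U (fun N => mwE N b) cN PG (fun N x => c0 < dst N x ∧ A N x) B) :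
    ∀ᵐ g ∂PG, rotX u⁻¹ g ∈ B → c0 < ‖g.2.2 (pji (muG g))‖ := by
  filter_upwards [ae_rotX hu hPz (ev_far hC hP hc H)] with g h1 hB
  have h2 := h1 hB
  have h3 : ‖u⁻¹‖ = 1 := by rw [norm_inv, hu, inv_one]
  have h4 : ‖(rotX u⁻¹ g).2.2 (pji (muG (rotX u⁻¹ g)))‖ = ‖g.2.2 (pji (muG g))‖ := rootN_rot h3 g
  rwa [h4] at h2

end

end Pool.Agent.ROT.F3.CK
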