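import Pool.Agent.ROT.F3K3N
import Pool.Agent.ROT.F3NulP
import Pool.Agent.ROT.F3Fin6b

/-!
# ROT, F3, row K3 (helper12): the input of the package of a pair from the families of gates

* `SoftK` : the generic soft numbers of a pair (helper71's output);
* **`pki_of`** : `PkI` for every pair of classes, from `FamN`, `FamF`, `Thr`, the cells, `NumK` (helper21), `SoftK`;
* **`subR_of`** : the rows of the cells (`SubR` of helper15) from the gates of the cells;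
* **`pki_obj`**, **`pk_obj`** : `PkI` and the package `Pk` of all pairs over the objects `ObN`, `ObF` of helper11 (field `pk` of `GenO`).
-/

set_option autoImplicit false

noncomputable section

namespace Pool.Agent.ROT.F3.CK

open MeasureTheory Filter Topology Set unitInterval

open scoped NNReal ENNReal Classical

open Pool.Agent.ROT.F3 Pool.Agent.ROT.F3.LF Pool.Agent.ROT.F3E

/-- **generic soft numbers of a pair** (the conclusion of helper71's `sft_pk_ev`) -/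
abbrev SoftK (PG : Measure CC.Gm) (P : Prm) (i j : Fin 3) (G0 H : Ga) (Hl : ℕ → ℕ → Ga) : Prop :=
  ClN PG (jD0 P i j) G0 ∧ ClN PG (jDR P i j) H ∧ (∀ m n, ClN PG (jDR P i j) (Hl m n)) ∧
    (i = 0 → MnN PG (jDR P i j) P.p.s P.q.s H) ∧ (i = 0 → ∀ m n, MnN PG (jDR P i j) P.p.s P.q.s (Hl m n))

section

variable {V : Ultrafilter ℕ} {bb : ℝ} {PG : Measure CC.Gm} {S : ℕ → ℝ} {c0 ρ τ t0 Rm : ℝ} {P : Prm}

/-- **the input of the package of a pair** -/
theorem pki_of {K0 K1 : Bool → F3.GP} {F0 F1 : Bool → Fin 3 → Ga} {Fl : ℕ → ℕ → Bool → Fin 3 → Ga}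
    {y : Bool → Fin 3 → Arm → ℕ → W3 × ℕ → ℝ} (hρ : 0 < ρ) (hp : P.p.Nr (bE ρ τ)) (hq : P.q.Nr (bE ρ τ))
    (h0 : FamN V bb PG S c0 ρ P K0 F0) (hT : Thr V bb PG P F0 Rm y) (h1 : FamF V bb PG S c0 ρ P K1 y F1)
    (hl : ∀ m n, FamF V bb PG S c0 ρ P K1 (fun E _ κ _ _ => lvB P t0 m n E κ) (Fl m n)) (num : NumK P c0 Rm K0 K1) {i j : Fin 3}
    (sf : SoftK PG P i j (prG F0 i j) (prG F1 i j) fun m n => prG (Fl m n) i j) :
    PkI (V : Filter ℕ) bb PG P i j t0 c0 Rm (fun κ => K0 (eA κ)) (fun κ => K1 (eA κ)) (prG F0 i j) (prG F1 i j)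
      (fun m n => prG (Fl m n) i j) (prY y i j) where
  g0 := h0.gal hρ hp hq i j
  gR := h1.gal hρ hp hq i j fun E a κ N x => (hT.yb E a κ N x).1
  gl := fun m n => (hl m n).gal' hρ hp hq i j (fun _ _ κ => lvB_eq P t0 m n i j κ) fun _ _ s => yv_nonneg _ _ _ _ _
  r0 := fun κ => by
    rw [endA_eA]
    exact num.r0 _
  rR := fun κ => by
    rw [endA_eA]
    exact num.r1 _
  cn := num.cn i j
  cf := num.cf i j
  tu := fun κ => by
    rw [endA_eA]
    exact num.tu _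
  tR := fun κ => num.tR _
  yb := fun N x s => hT.yb _ _ _ N x
  yA := fun s => hT.f i j s
  n0 := sf.1
  nR := sf.2.1
  nl := sf.2.2.1
  mR := sf.2.2.2.1
  ml := sf.2.2.2.2

/-- **the input of the package of a pair**, over the objects of helper11 -/
theorem pki_obj {a : ObN} {b : ObF} (hρ : 0 < ρ) (hp : P.p.Nr (bE ρ τ)) (hq : P.q.Nr (bE ρ τ))
    (ha : RN V bb PG S c0 ρ Rm a P) (hb : RF V bb PG S c0 ρ t0 a b P) (num : NumK P c0 Rm a.K0 b.K1) {i j : Fin 3}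
    (sf : SoftK PG P i j (prG a.F0 i j) (prG b.F1 i j) fun m n => prG (b.Fl m n) i j) :
    PkI (V : Filter ℕ) bb PG P i j t0 c0 Rm (fun κ => a.K0 (eA κ)) (fun κ => b.K1 (eA κ)) (prG a.F0 i j) (prG b.F1 i j)
      (fun m n => prG (b.Fl m n) i j) (prY a.y i j) :=
  pki_of hρ hp hq ha.fam ha.thr hb.fam hb.cel num sf

/-- **the packages of all pairs**, over the objects of helper11 -/
theorem pk_obj {a : ObN} {b : ObF} (hU : (V : Filter ℕ) ≤ atTop) (hC : Cv (V : Filter ℕ) (fun N => mwE N bb) cN PG)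
    (hP : ∀ᵐ y ∂PG, 0 < y.1) (ok : P.Ok) (hPz : PG.map (rotX P.u) = PG) (hρ : 0 < ρ) (hp : P.p.Nr (bE ρ τ)) (hq : P.q.Nr (bE ρ τ))
    (ha : RN V bb PG S c0 ρ Rm a P) (hb : RF V bb PG S c0 ρ t0 a b P) (num : NumK P c0 Rm a.K0 b.K1)
    (sf : ∀ i j, i ≠ j → SoftK PG P i j (prG a.F0 i j) (prG b.F1 i j) fun m n => prG (b.Fl m n) i j) (i j : Fin 3) (hij : i ≠ j)
    (hj : j ≠ 0) :
    Pk (V : Filter ℕ) bb PG P i j t0 c0 (fun κ => a.K0 (eA κ)) (fun κ => b.K1 (eA κ)) (prG a.F0 i j) (prG b.F1 i j)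
      (fun m n => prG (b.Fl m n) i j) (prY a.y i j) (axF P i j (prG a.F0 i j) Rm) :=
  pk_of hU hC hP ok hij hj ok.u hPz (pki_obj hρ hp hq ha hb num (sf i j hij))

/-- **the rows of the cells** (helper15's `SubR`) from the gates of the cells alone -/
theorem subR_of {K1 : Bool → F3.GP} {Fl : ℕ → ℕ → Bool → Fin 3 → Ga} (hU : (V : Filter ℕ) ≤ atTop)
    (hC : Cv (V : Filter ℕ) (fun N => mwE N bb) cN PG) (hP : ∀ᵐ y ∂PG, 0 < y.1) (ok : P.Ok) (hρ : 0 < ρ) (hp : P.p.Nr (bE ρ τ))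
    (hq : P.q.Nr (bE ρ τ)) (hl : ∀ m n, FamF V bb PG S c0 ρ P K1 (fun E _ κ _ _ => lvB P t0 m n E κ) (Fl m n))
    (cf : ∀ i j, c0 < (jDR P i j).V.D0 - ((jDR P i j).P.rad + (jDR P i j).Q.rad))
    (nl : ∀ i j, i ≠ j → ∀ m n, ClN PG (jDR P i j) (prG (Fl m n) i j))
    (ml : ∀ i j, i ≠ j → i = 0 → ∀ m n, MnN PG (jDR P i j) P.p.s P.q.s (prG (Fl m n) i j)) :
    NW.SubR (V : Filter ℕ) bb PG t0 P fun i j m n => prG (Fl m n) i j := by
  intro i j hij hj m n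
  have DRk : (jDR P i j).Ok := DR_ok ok hij (wnA_or P i) (wnA_or P j) le_rfl le_rfl le_rfl le_rfl
  have fR : (jDR P i j).Gf := DR_gf ok (wnA_or P i) (wnA_or P j)
  have g := (hl m n).gal' hρ hp hq i j (w := fun _ _ => yv (jDR P i j) t0 m n) (fun _ _ κ => lvB_eq P t0 m n i j κ)
    fun _ _ s => yv_nonneg _ _ _ _ _
  have h := lvo_jR hj hU hC hP DRk (g.inn hU DRk fR (cf i j)) (nl i j hij m n) fun h => ml i j hij h m n
  rw [acl_if, acl_if] at h
  exact h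

end

end Pool.Agent.ROT.F3.CK
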