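import Pool.Agent.ROT.F3GenZ
import Pool.Agent.ROT.F3GenMS
import Pool.Agent.ROT.F3GenO5
import Pool.Agent.ROT.F3K3U
import Pool.Agent.ROT.F3K3W
import Pool.Agent.ROT.F3Rows

/-!
# ROT, block F3, row GEN (helper11): the generic row from the lemma for one `P`

* `HM` : the gates of the cells of a member (helper71's `RM`); **`OneP z`** : the fields of `GenO` for one `P`;
* **`genRow1`** : `GenRow z` from `OneP z`.
-/

set_option autoImplicit false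

open MeasureTheory Filter Topology Set unitInterval

namespace Pool.Agent.ROT.F3E

open Pool.Agent.ROT.F3 Pool.Agent.ROT.F3.CK
open Pool.Agent.ROT.F3.LF (Cv Lm Ev bi)
open Pool.Agent.ROT.F3.NW (NulO SubR nul_row dR N5 n5_box)
open Pool.Agent.ROT.F3.Gn (Fd Agr Bx gP gP_win Sft)

/-- the gates of the cells of a member -/
def HM (o : ObN × ObF) (i j : Fin 3) (m n : ℕ) : Ga := prG (o.2.Fl m n) i j

/-- **the lemma for one `P`** -/
def OneP (z : ℂ) : Prop := ∀ (V : Ultrafilter ℕ) (bb : ℕ) (c0 ρ τ t0 : ℝ) (B : Bx), Env V bb (PGl V bb) S1 c0 ρ t0 → 0 < τ →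
  GBx z ρ τ B → ∀ P : Prm, B.In z P → LenB P bb → ∀ (a : ObN) (b : ObF) (QQ : ℕ → Prm) (oq : ℕ → ObN × ObF),
    RN V bb (PGl V bb) S1 c0 ρ (42 * ρ) a P → RF V bb (PGl V bb) S1 c0 ρ t0 a b P →
      NulO (PGl V bb) t0 z B (RM V bb (PGl V bb) S1 c0 ρ t0 (42 * ρ)) HM (fun i j => axF P i j (prG a.F0 i j) (42 * ρ)) P QQ oq →
        SoftN (PGl V bb) P a b →
          ∃ X : Set CC.Gm, GenO V P ⟨ρ, τ, bb, t0, c0, 42 * ρ, a.K0, b.K1, a.F0, b.F1, a.y, fun i j m n => prG (b.Fl m n) i j, X⟩ (PGl V bb)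

section

variable {V : Ultrafilter ℕ} {bb : ℝ} {PG : Measure CC.Gm} {c0 ρ τ t0 : ℝ} {z : ℂ} {B : Bx}

/-- the numbers of a member -/
lemma numK_rm (hE : Env V bb PG S1 c0 ρ t0) (h1 : ‖z - 1‖ ≤ 1 / 100000000) (hB : GBx z ρ τ B) {P : Prm} (hP : B.In z P) {a : ObN} {b : ObF}
    (ha : RN V bb PG S1 c0 ρ (42 * ρ) a P) (hb : RF V bb PG S1 c0 ρ t0 a b P) : NumK P c0 (42 * ρ) a.K0 b.K1 := by
  have h2 := hE.c2
  have h3 := hE.ρ0
  exact numK_of hE.ρ0 (hB P hP).1 (hB P hP).2.p (hB P hP).2.q (by rw [(hB P hP).2.u]; exact h1) (by linarith) le_rfl ha.fam.gr hb.fam.gr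

lemma sub_m (hE : Env V bb PG S1 c0 ρ t0) (h1 : ‖z - 1‖ ≤ 1 / 100000000) (hB : GBx z ρ τ B) :
    ∀ o P, B.In z P → RM V bb PG S1 c0 ρ t0 (42 * ρ) o P → SubR (V : Filter ℕ) bb PG t0 P (HM o) := by
  intro o P hP ho
  exact subR_of hE.V0 hE.cv hE.pos1 (hB P hP).1 hE.ρ0 (hB P hP).2.p (hB P hP).2.q ho.rf.cel (numK_rm hE h1 hB hP ho.rn ho.rf).cf
    (fun i j hij m n => (ho.sf i j hij).2.2.1 m n) fun i j hij hi m n => (ho.sf i j hij).2.2.2.2 hi m n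

/-- the inputs of `genRow_of` -/
noncomputable def genI_of (hz : ‖z‖ = 1) (h1 : ‖z - 1‖ ≤ 1 / 100000000) (H : OneP z) : GenI z where
  O := ObN × ObF
  RO V bb PG c0 ρ t0 := RM V bb PG S1 c0 ρ t0 (42 * ρ)
  HO := HM
  SO PG ab P := SoftN PG P ab.1 ab.2
  far V bb hV := by
    have := pgl_fin hV bb
    exact root_c0 (PGl V bb)
  rn hE hG := rn_ev' hE.V0 hE.cv hE.pos1 hE.ρ0 hE.S0 hE.S1 hE.sc hG.nr hz h1 le_rfl
  ms h := h.fam.ms
  sub hE hG := sub_m hE h1 hG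
  ro hE hG := by
    have := hE.fin
    exact rm_ev (fun P hP => (hG P hP).1) (fun B' hB' => rnf_ev
      (rn_ev' hE.V0 hE.cv hE.pos1 hE.ρ0 hE.S0 hE.S1 hE.sc (hG.le hB').nr hz h1 le_rfl) hE.cv hE.ρ0 hE.S0 hE.S1 hE.sc (hG.le hB').nr hE.cel) _
        fun _ h => h
  sf hE hG := by
    have := hE.fin
    exact softN_sft (fun P hP => (hG P hP).1) (fun _ _ h => h.1.fam) fun _ _ h => h.2
  one hE hτ hG P hP hL a b QQ oq ha hb hN hS := H _ _ _ _ _ _ _ hE hτ hG P hP hL a b QQ oq ha hb hN hS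

/-- **the generic row** from the lemma for one `P` -/
theorem genRow1 (hz : ‖z‖ = 1) (h1 : ‖z - 1‖ ≤ 1 / 100000000) (H : OneP z) : GenRow z := genRow_of (genI_of hz h1 H)

end

end Pool.Agent.ROT.F3E
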