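import Pool.Agent.ROT.F3JmM
import Pool.Agent.ROT.F3Prm22

/-!
# ROT, F3, row JmB (helper81): numbers of the native gates in the windows of helper22

* **`numB22`** : `NumB` at `R = 3 / 2 ρ`, `R2 = R3 = 14 ρ`, `z = 0`, `lo = 2 / 5 ρ`, `hi = 3 / 5 ρ`.
-/

set_option autoImplicit false

namespace Pool.Agent.ROT.F3.CK

open Pool.Agent.ROT.F3

/-- **numbers** (D60): `R = 3 / 2 ρ`, `R2 = R3 = 14 ρ`, `z = 0`, `lo = 2 / 5 ρ`, `hi = 3 / 5 ρ` -/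
theorem numB22 {n : Tp} {ρ τ rl sl sl' rr sr : ℝ} (hρ : 0 < ρ) (h : n.Nr (bN ρ τ)) (h1 : 101 / 50 * ρ < rl) (h2 : 4141 / 100 * ρ < sl)
    (h3 : 4141 / 100 * ρ < sl') (h4 : 101 / 100 * ρ ≤ rr) (h5 : 2172 / 100 * ρ ≤ sr) :
    NumB n (3 / 2 * ρ) (14 * ρ) (14 * ρ) 0 (2 / 5 * ρ) (3 / 5 * ρ) rl sl sl' rr sr := by
  have nl1 : 1/2 * ρ ≤ n.l := h.l.1
  have nl2 : n.l ≤ 101 / 100 * (1/2 * ρ) := h.l.2
  have nr2 : n.r ≤ 101 / 100 * (1 * ρ) := h.r.2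
  have nr22 : n.r2 ≤ 101 / 100 * (41/2 * ρ) := h.r2.2
  have ng : 1400 * ρ ≤ n.rg := h.rg.1
  constructor <;> linarith

end Pool.Agent.ROT.F3.CK
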