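import Pool.Agent.ROT.F3JmM
import Pool.Agent.ROT.F3Fin6b
import Pool.Agent.ROT.F3GenM

/-!
# ROT, F3, row JmB (helper81): `PkC` (helper17) from the package `Pk` (helper2) and the functional marks of the native gates

* **`locB_pk`** : the fields `ae` and `loc` from `Pk`; **`pkC_mk`** : `PkC` from `Pk`, no ends of cells, free cells, the marks;
* **`pkC_fam`** : the same, the marks given for every member `(E, a, κ)` of the family `F0` (F3GenM, helper11) of native gates.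
-/

set_option autoImplicit false

noncomputable section

open MeasureTheory Topology Set Filter unitInterval

open scoped ENNReal Classical

namespace Pool.Agent.ROT.F3.CK

open Pool.Agent.ROT.F3 Pool.Agent.ROT.F3.CC Pool.Agent.ROT.F3.LF Pool.Agent.ROT.F3.Nul Pool.Agent.ROT.F3.Bt Pool.Agent.ROT.F3E

section

variable {V : Ultrafilter ℕ} {L : ℝ} {PG : Measure CC.Gm} {P : Prm} {i j : Fin 3} {t0 c0 : ℝ} {K0 KR : Arm → GP}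
  {G0 H : Ga} {Hl : ℕ → ℕ → Ga} {y : ℕ → W3 × ℕ → Fin 4 → ℝ} {A : CC.Gm → Fin 4 → ℝ}
  {R R2 R3 z lo hi rl sl sl' rr sr : Arm → ℝ} {T : Arm → LSym} {X : Arm → Set CC.Gm} {β Xc Xx Xy : Arm → CC.Gm → ℝ}

/-- **`ae` and `loc`** -/
theorem locB_pk (ok : P.Ok) (hPz : PG.map (rotX P.u) = PG) (hL : ∀ᵐ g ∂PG, 0 < g.2.1 ∧ g.2.1 < g.1)
    (hcl : ∀ᵐ g ∂PG, g.2.2 0 = 0 ∧ g.2.2 1 = 0) (h : Pk (V : Filter ℕ) L PG P i j t0 c0 K0 KR G0 H Hl y A)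
    (hc0 : c0 < (jDR P i j).V.D0 - ((jDR P i j).P.rad + (jDR P i j).Q.rad))
    (N : ∀ k, NumB (endA P k).n (R k) (R2 k) (R3 k) (z k) (lo k) (hi k) (rl k) (sl k) (sl' k) (rr k) (sr k))
    (M : ∀ k, NatB PG G0 (endA P k).n k c0 (R k) (R2 k) (R3 k) (z k) (lo k) (hi k) (rl k) (sl k) (sl' k) (rr k) (sr k) (T k)
      (X k) (β k) (Xc k) (Xx k) (Xy k)) :
    ∃ Gd : Option (ℕ × ℕ) → Set CC.Gm, (∀ n, ∀ᵐ g ∂PG, jwR P i j (Hx H Hl n) g ≠ 0 → g ∈ Gd n) ∧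
      ∀ k, LocB P i j G0 (Hx H Hl) (fun n => jwR P i j (Hx H Hl n)) Gd k := by
  refine locB_mk ok hPz hL hcl h.un0 (fun n => ?_) (fun n => ?_) hc0 N M
  · cases n with
    | none => exact h.unR
    | some q => exact h.unl q.1 q.2
  · cases n with
    | none =>
      refine ⟨fun g => A (rotX P.u g), fun g s => h.A0 _ _, ?_⟩
      filter_upwards [h.kR] with g hg hR
      exact (hg (jKR_sub P i j H hR)).1
    | some q =>
      refine ⟨fun _ => yv (jDR P i j) t0 q.1 q.2, fun _ s => yv_nonneg _ _ _ _ _, ?_⟩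
      filter_upwards [h.kl q.1 q.2] with g hg hR
      exact (hg (jKR_sub P i j (Hl q.1 q.2) hR)).1

/-- **`PkC`** -/
theorem pkC_mk (ok : P.Ok) (hPz : PG.map (rotX P.u) = PG) (hL : ∀ᵐ g ∂PG, 0 < g.2.1 ∧ g.2.1 < g.1)
    (hcl : ∀ᵐ g ∂PG, g.2.2 0 = 0 ∧ g.2.2 1 = 0) (h : Pk (V : Filter ℕ) L PG P i j t0 c0 K0 KR G0 H Hl y A)
    (hc0 : c0 < (jDR P i j).V.D0 - ((jDR P i j).P.rad + (jDR P i j).Q.rad))
    (N : ∀ k, NumB (endA P k).n (R k) (R2 k) (R3 k) (z k) (lo k) (hi k) (rl k) (sl k) (sl' k) (rr k) (sr k))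
    (M : ∀ k, NatB PG G0 (endA P k).n k c0 (R k) (R2 k) (R3 k) (z k) (lo k) (hi k) (rl k) (sl k) (sl' k) (rr k) (sr k) (T k)
      (X k) (β k) (Xc k) (Xx k) (Xy k))
    (ne : ∀ᵐ g ∂PG, ∀ (s : Fin 4) (n : ℕ) (k : ℤ), (jDR P i j).l s + A g s ≠ lft t0 n k)
    (fr : ∀ᵐ g ∂PG, jwR P i j H g ≠ 0 → g ∈ jEp P i j G0 H → g ∈ jEq P i j G0 H → ∀ᶠ n in atTop, ∀ k : Fin 4 → ℤ,
      (k = fun s => kn t0 n ((jDR P i j).l s + A g s)) → rotX P.u⁻¹ g ∈ jKR P i j (Hl (ci n k) (cj n k)) ∧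
        ∀ s, lft t0 n (k s + 1) < lamF (jDR P i j) (phi8 (Hl (ci n k) (cj n k)).B (Hl (ci n k) (cj n k)).c
          (Hl (ci n k) (cj n k)).x) (rotX P.u⁻¹ g) s) :
    ∃ Gd, PkC V L PG P i j t0 G0 H Hl y A Gd := by
  obtain ⟨Gd, ae, loc⟩ := locB_pk ok hPz hL hcl h hc0 N M
  refine ⟨Gd, pkC_of ok hPz ?_ h ae loc ne fr⟩
  filter_upwards [hL] with g hg
  exact hg.1.trans hg.2

/-- the marks of a member are the marks of the pair -/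
lemma NatB.pr {F0 : Bool → Fin 3 → Ga} {k : Arm} {R R2 R3 z lo hi rl sl sl' rr sr : ℝ} {T : LSym} {X : Set CC.Gm}
    {β Xc Xx Xy : CC.Gm → ℝ}
    (h : NatB PG (F0 (eA k) (clA i j k)) (enB P (eA k)).n k c0 R R2 R3 z lo hi rl sl sl' rr sr T X β Xc Xx Xy) :
    NatB PG (prG F0 i j) (endA P k).n k c0 R R2 R3 z lo hi rl sl sl' rr sr T X β Xc Xx Xy := by
  rw [endA_eA]
  exact ⟨h.S, h.Sy, h.ae⟩

/-- **`PkC`, native marks of the members** -/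
theorem pkC_fam {F0 : Bool → Fin 3 → Ga} {R R2 R3 z lo hi rl sl sl' rr sr : Bool → ℝ} {T : Bool → Fin 3 → LSym}
    (ok : P.Ok) (hPz : PG.map (rotX P.u) = PG) (hL : ∀ᵐ g ∂PG, 0 < g.2.1 ∧ g.2.1 < g.1)
    (hcl : ∀ᵐ g ∂PG, g.2.2 0 = 0 ∧ g.2.2 1 = 0) (h : Pk (V : Filter ℕ) L PG P i j t0 c0 K0 KR (prG F0 i j) H Hl y A)
    (hc0 : c0 < (jDR P i j).V.D0 - ((jDR P i j).P.rad + (jDR P i j).Q.rad))
    (N : ∀ E, NumB (enB P E).n (R E) (R2 E) (R3 E) (z E) (lo E) (hi E) (rl E) (sl E) (sl' E) (rr E) (sr E))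
    (M : ∀ E a κ, ∃ (X : Set CC.Gm) (β Xc Xx Xy : CC.Gm → ℝ), NatB PG (F0 E a) (enB P E).n κ c0 (R E) (R2 E) (R3 E) (z E) (lo E)
      (hi E) (rl E) (sl E) (sl' E) (rr E) (sr E) (T E a) X β Xc Xx Xy)
    (ne : ∀ᵐ g ∂PG, ∀ (s : Fin 4) (n : ℕ) (k : ℤ), (jDR P i j).l s + A g s ≠ lft t0 n k)
    (fr : ∀ᵐ g ∂PG, jwR P i j H g ≠ 0 → g ∈ jEp P i j (prG F0 i j) H → g ∈ jEq P i j (prG F0 i j) H →
      ∀ᶠ n in atTop, ∀ k : Fin 4 → ℤ, (k = fun s => kn t0 n ((jDR P i j).l s + A g s)) →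
        rotX P.u⁻¹ g ∈ jKR P i j (Hl (ci n k) (cj n k)) ∧ ∀ s, lft t0 n (k s + 1) < lamF (jDR P i j)
          (phi8 (Hl (ci n k) (cj n k)).B (Hl (ci n k) (cj n k)).c (Hl (ci n k) (cj n k)).x) (rotX P.u⁻¹ g) s) :
    ∃ Gd, PkC V L PG P i j t0 (prG F0 i j) H Hl y A Gd := by
  choose X β Xc Xx Xy M' using M
  exact pkC_mk ok hPz hL hcl h hc0 (fun k => by rw [endA_eA]; exact N (eA k)) (fun k => (M' (eA k) (clA i j k) k).pr) ne fr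

end

end Pool.Agent.ROT.F3.CK
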