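import Pool.Agent.ROT.F3MO

/-!
# ROT, F3, row D39 / D49 (helper37): the places of a member; the field `gt` of `GenO`

* `plM` : the place of the arm `κ` of the pair `(i, j)` for the families `F0`, `F1`; **`gd_mem`** : its good curves from `MemL`;
* **`gt_mem`** : locality at two places of one member; **`gt_all`** : the field `gt` of `GenO`;
* `k1ok_of` : the records `K1`; **`GenO.plM`** : for the readers of `GenO`: numbers, locality and good curves of the places.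
-/

set_option autoImplicit false

noncomputable section

open MeasureTheory Filter Topology Set unitInterval
open scoped ENNReal NNReal

namespace Pool.Agent.ROT.F3E

open Pool.Agent.ROT.F3 Pool.Agent.ROT.F3.CC Pool.Agent.ROT.F3.CK Pool.Agent.ROT.F3.LF Pool.Agent.ROT.F3.LR

/-- **the place** of the arm `κ` of the pair `(i, j)`: good curves `X`, marks `Xc`, `Xx`, `Xy` in the frame of the words -/
def plM (P : Prm) (F0 F1 : Bool → Fin 3 → Ga) (Rm : ℝ) (X : Set CC.Gm) (Xc Xx Xy : Arm → CC.Gm → ℝ) (i j : Fin 3) (κ : Arm) : PlD :=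
  ⟨i, j, κ, prG F0 i j, prG F1 i j, X, fun h => axM P F0 Rm (eA κ) (clA i j κ) κ (rotX P.u h), Xc κ, Xx κ, Xy κ⟩

/-- the symmetry of the member turns the direction of its arms to `1` -/
lemma rS_lv {i j : Fin 3} {κ : Arm} {E : Bool} {a : Fin 3} (hE : eA κ = E) (ha : clA i j κ = a) (w : ℂ) :
    ((rS (-dxB E a)).L w).re = lv (dirA i j κ) w := by
  rw [dirA_eA, hE, ha, lv_ev]

lemma wd_pos {P : Prm} (hP : P.Ok) (a : Fin 3) : 0 < (P.wd (wnA P a)).D0 := by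
  have h1 := hP.far
  have h2 := hP.farc
  have a1 := hP.p.f.r
  have a2 := hP.p.f.r2
  have a3 := hP.q.f.r
  have a4 := hP.q.f.r2
  have e : (P.wd (wnA P a)).D0 = (wnA P a).D0 - (P.p.k + P.q.k) := rfl
  rw [e]
  rcases wnA_orH P a with h | h
  · rw [h]
    linarith
  · rw [h]
    linarith

lemma prG_un {F : Bool → Fin 3 → Ga} {g : CC.Gm} (h : ∀ E a, (F E a).Un g) (i j : Fin 3) : (prG F i j).Un g :=
  ⟨fun κ hκ => (h (eA κ) (clA i j κ)).h κ hκ⟩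

lemma prG_unr {F : Bool → Fin 3 → Ga} {g : CC.Gm} {v : ℂ} (h : ∀ E a, ((F E a).rot v).Un g) (i j : Fin 3) :
    ((prG F i j).rot v).Un g :=
  ⟨fun κ hκ => (h (eA κ) (clA i j κ)).h κ hκ⟩

section member

variable {P : Prm} {F0 F1 : Bool → Fin 3 → Ga} {Rm z Dd R0 R R2 R3 lo hi rl sl rr sr : ℝ} {E : Bool} {a : Fin 3} {K : F3.GP}
  {X : Set CC.Gm} {Xc Xx Xy : Arm → CC.Gm → ℝ} {i j i' j' : Fin 3} {κ κ' : Arm}

/-- **the good curves of a place** from the locality of its member -/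
theorem gd_mem (hP : P.Ok) (hz : ∀ E', (enB P E').n.r + (enB P E').n.r2 ≤ z) (hD : ∀ a, Dd ≤ (P.wd (wnA P a)).D0)
    (M : MemL R R2 R3 z lo hi rl sl rr sr (rS (-dxB E a)) K (F1 E a) (fun κ h => axM P F0 Rm E a κ (rotX P.u h)) X Xc Xx Xy)
    (hK : K.Ok (enB P E).f) (hE : eA κ = E) (ha : clA i j κ = a) {g : CC.Gm} (pos : 0 < g.2.1 ∧ g.2.1 < g.1 ∧ g.2.2 0 = 0 ∧ g.2.2 1 = 0)
    (u0 : ∀ E a, (F0 E a).Un g) (u1 : ∀ E a, ((F1 E a).rot P.u).Un g)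
    (ax : ∀ E a κ, g ∈ (F0 E a).B κ → 0 < axM P F0 Rm E a κ g ∧
      lv (P.u * ev (dxB E a)) (g.2.2 ((F0 E a).ix κ g) - g.2.2 (rtA κ g)) = axM P F0 Rm E a κ g)
    (hB : ∀ k, g ∈ (prG F0 i j).B k) (hc : CEv (jD0 P i j) g.2.2 g.1 (pji (muG g)) ((prG F0 i j).i8 g)) (hX : rotX P.u⁻¹ g ∈ X) :
    (plM P F0 F1 Rm X Xc Xx Xy i j κ).Gd P (rS (-dxB E a)) z Dd g := by
  subst hE ha
  have e0 : rotX P.u (rotX P.u⁻¹ g) = g := rotX_inv' hP.u g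
  have hw : TwoR g := ⟨pos.1.trans pos.2.1, pos.1, pos.2.1, by rw [pos.2.2.1, pos.2.2.2]⟩
  have hax := ax (eA κ) (clA i j κ) κ (hB κ)
  have gm := M.gm κ _ hX
  rw [hK.l, hK.m] at gm
  refine ⟨natA_of hw (prG_un u0 i j) hB hc κ (fun k => ?_) (hD _) (wd_pos hP _), prG_unr u1 i j, hX, ?_, ?_, ?_⟩
  · rw [endA_eA]
    exact hz _
  · show axM P F0 Rm (eA κ) (clA i j κ) κ (rotX P.u (rotX P.u⁻¹ g)) = _
    rw [e0, ← hax.2, ← dirA_eA]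
    rfl
  · show 0 ≤ axM P F0 Rm (eA κ) (clA i j κ) κ (rotX P.u (rotX P.u⁻¹ g))
    exact axM_nn _ _ _ _ _ _ _
  · show GMk _ _ _ _ _ κ (endA P κ).f.l (endA P κ).f.m _ _ _ _
    rw [endA_eA]
    exact gm

/-- **locality at two places of one member** -/
theorem gt_mem (hP : P.Ok) (N : GNum (enB P E) ‖P.u - 1‖ z Dd R0 R R2 R3 lo hi rl sl rr sr)
    (M : MemL R R2 R3 z lo hi rl sl rr sr (rS (-dxB E a)) K (F1 E a) (fun κ h => axM P F0 Rm E a κ (rotX P.u h)) X Xc Xx Xy)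
    (hK : K.Ok (enB P E).f) (hE : eA κ = E) (ha : clA i j κ = a) (hE' : eA κ' = E) (ha' : clA i' j' κ' = a) {Y Y' : Set CC.Gm}
    (hY : ∀ g ∈ Y, (plM P F0 F1 Rm X Xc Xx Xy i j κ).Gd P (rS (-dxB E a)) z Dd g)
    (hY' : ∀ g ∈ Y', (plM P F0 F1 Rm X Xc Xx Xy i' j' κ').Gd P (rS (-dxB E a)) z Dd g) :
    GtLoc P i j (prG F0 i j) ((prG F1 i j).rot P.u) κ i' j' (prG F0 i' j') ((prG F1 i' j').rot P.u) κ' R0 Y Y' := by
  subst hE ha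
  have l1 := M.lx κ κ'
  have l2 := M.ly κ κ'
  rw [hK.l] at l1 l2
  have e1 : endA P κ = enB P (eA κ) := endA_eA P κ
  have e2 : endA P κ' = endA P κ := by rw [endA_eA, endA_eA, hE']
  have e3 : dirA i' j' κ' = dirA i j κ := by rw [dirA_eA, dirA_eA, hE', ha']
  have e4 : (plM P F0 F1 Rm X Xc Xx Xy i' j' κ').β = fun h => axM P F0 Rm (eA κ) (clA i j κ) κ' (rotX P.u h) := by
    show (fun h => axM P F0 Rm (eA κ') (clA i' j' κ') κ' (rotX P.u h)) = _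
    rw [hE', ha']
  intro g hg g' hg' e e' he far far' F
  refine gt_pt (A := plM P F0 F1 Rm X Xc Xx Xy i j κ) (A' := plM P F0 F1 Rm X Xc Xx Xy i' j' κ') hP e3 e2 (rS_lv rfl rfl)
    (z := z) (D := Dd) (R0 := R0) (R := R) (R2 := R2) (R3 := R3) (lo := lo) (hi := hi) (rl := rl) (sl := sl) (rr := rr) (sr := sr)
    (by
      show GNum (endA P κ) _ _ _ _ _ _ _ _ _ _ _ _ _
      rw [e1]
      exact N) (by
      rw [e4]
      show LocS R R2 z (endA P κ).f.l lo hi rl sl rr sr _ κ X _ (Xc κ) (Xx κ) _ κ' X _ (Xc κ') (Xx κ')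
      rw [e1]
      exact l1) (by
      rw [e4]
      show LocS R R3 z (endA P κ).f.l lo hi rl sl rr sr _ κ X _ (Xc κ) (Xy κ) _ κ' X _ (Xc κ') (Xy κ')
      rw [e1]
      exact l2) (hY g hg) (hY' g' hg') he far far' F

end member

/-! ### The fields of `GenO` -/

/-- the field `l1` of `GenO` for one member -/
def L1m (P : Prm) (D : MDat) (E : Bool) (a : Fin 3) (z Dd R R2 R3 lo hi rl sl rr sr : ℝ) (Xc Xx Xy : Arm → CC.Gm → ℝ) : Prop :=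
  GNum (enB P E) ‖P.u - 1‖ z Dd (19500000 * D.ρ) R R2 R3 lo hi rl sl rr sr ∧
    (∀ E', (enB P E').n.r + (enB P E').n.r2 ≤ z) ∧ (∀ a, Dd ≤ (P.wd (wnA P a)).D0) ∧ 1004 * R2 + z ≤ 19500000 * D.ρ ∧
    1004 * R3 + z ≤ 19500000 * D.ρ ∧ MemL R R2 R3 z lo hi rl sl rr sr (rS (-dxB E a)) (D.K1 E) (D.F1 E a)
      (fun κ h => axM P D.F0 D.Rm E a κ (rotX P.u h)) {h | rotX P.u h ∈ D.Xf} Xc Xx Xy

section geno

variable {P : Prm} {D : MDat}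

/-- the good curves of the place `κ` of the pair `k` -/
theorem gd_k (hP : P.Ok) (pos : ∀ g ∈ D.X, 0 < g.2.1 ∧ g.2.1 < g.1 ∧ g.2.2 0 = 0 ∧ g.2.2 1 = 0)
    (un0 : ∀ E a, ∀ g ∈ D.X, (D.F0 E a).Un g) (un1 : ∀ E a, ∀ g ∈ D.X, ((D.F1 E a).rot P.u).Un g)
    (jh : ∀ k, ∀ g ∈ D.X, JhIn P (fA k) (fB k) (D.G0 k) (D.H k) (fun κ g => D.A P k g (sA κ)) g)
    (ax : ∀ E a κ, ∀ g ∈ D.X, g ∈ (D.F0 E a).B κ → 0 < axM P D.F0 D.Rm E a κ g ∧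
      lv (P.u * ev (dxB E a)) (g.2.2 ((D.F0 E a).ix κ g) - g.2.2 (rtA κ g)) = axM P D.F0 D.Rm E a κ g)
    (fr0 : ∀ E a κ, ∀ g ∈ D.X, g ∈ (D.F0 E a).B κ → D.c0 < ‖g.2.2 (pji (muG g))‖) (ok1 : ∀ E, (D.K1 E).Ok (enB P E).f)
    {E : Bool} {a : Fin 3} {z Dd R R2 R3 lo hi rl sl rr sr : ℝ} {Xc Xx Xy : Arm → CC.Gm → ℝ}
    (h : L1m P D E a z Dd R R2 R3 lo hi rl sl rr sr Xc Xx Xy) {k : Fin 3} {κ : Arm} (hE : eA κ = E) (ha : clA (fA k) (fB k) κ = a)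
    {g : CC.Gm} (hg : g ∈ D.Xk P k) :
    (plM P D.F0 D.F1 D.Rm {h | rotX P.u h ∈ D.Xf} Xc Xx Xy (fA k) (fB k) κ).Gd P (rS (-dxB E a)) z Dd g := by
  obtain ⟨-, hz, hD, -, -, M⟩ := h
  obtain ⟨hX, hj⟩ := hg
  have k0 : g ∈ jK0 P (fA k) (fB k) (D.G0 k) := ofReal_bi.1 hj
  have hB : ∀ κ, g ∈ (D.G0 k).B κ := mem_iInter.1 k0.1
  refine gd_mem hP hz hD M (ok1 E) hE ha (pos g hX) (fun E a => un0 E a g hX) (fun E a => un1 E a g hX) (fun E a κ => ax E a κ g hX)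
    hB ((jh k g hX).c0 k0) ?_
  show rotX P.u (rotX P.u⁻¹ g) ∈ D.Xf
  rw [rotX_inv' hP.u]
  exact ⟨hX, fr0 _ _ κ g hX (hB κ)⟩

/-- **the field `gt` of `GenO`** -/
theorem gt_all (hP : P.Ok) (pos : ∀ g ∈ D.X, 0 < g.2.1 ∧ g.2.1 < g.1 ∧ g.2.2 0 = 0 ∧ g.2.2 1 = 0)
    (un0 : ∀ E a, ∀ g ∈ D.X, (D.F0 E a).Un g) (un1 : ∀ E a, ∀ g ∈ D.X, ((D.F1 E a).rot P.u).Un g)
    (jh : ∀ k, ∀ g ∈ D.X, JhIn P (fA k) (fB k) (D.G0 k) (D.H k) (fun κ g => D.A P k g (sA κ)) g)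
    (ax : ∀ E a κ, ∀ g ∈ D.X, g ∈ (D.F0 E a).B κ → 0 < axM P D.F0 D.Rm E a κ g ∧
      lv (P.u * ev (dxB E a)) (g.2.2 ((D.F0 E a).ix κ g) - g.2.2 (rtA κ g)) = axM P D.F0 D.Rm E a κ g)
    (fr0 : ∀ E a κ, ∀ g ∈ D.X, g ∈ (D.F0 E a).B κ → D.c0 < ‖g.2.2 (pji (muG g))‖) (ok1 : ∀ E, (D.K1 E).Ok (enB P E).f)
    (l1 : ∀ E a, ∃ z Dd R R2 R3 lo hi rl sl rr sr : ℝ, GNum (enB P E) ‖P.u - 1‖ z Dd (19500000 * D.ρ) R R2 R3 lo hi rl sl rr sr ∧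
      (∀ E', (enB P E').n.r + (enB P E').n.r2 ≤ z) ∧ (∀ a, Dd ≤ (P.wd (wnA P a)).D0) ∧ 1004 * R2 + z ≤ 19500000 * D.ρ ∧
      1004 * R3 + z ≤ 19500000 * D.ρ ∧ ∃ Xc Xx Xy : Arm → CC.Gm → ℝ,
        MemL R R2 R3 z lo hi rl sl rr sr (rS (-dxB E a)) (D.K1 E) (D.F1 E a) (fun κ h => axM P D.F0 D.Rm E a κ (rotX P.u h))
          {h | rotX P.u h ∈ D.Xf} Xc Xx Xy) :
    ∀ k κ k' κ', eA κ = eA κ' → clA (fA k) (fB k) κ = clA (fA k') (fB k') κ' → GtLoc P (fA k) (fB k) (D.G0 k) ((D.H k).rot P.u) κ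
      (fA k') (fB k') (D.G0 k') ((D.H k').rot P.u) κ' (19500000 * D.ρ) (D.Xk P k) (D.Xk P k') := by
  intro k κ k' κ' hE ha
  obtain ⟨z, Dd, R, R2, R3, lo, hi, rl, sl, rr, sr, n1, n2, n3, n4, n5, Xc, Xx, Xy, M⟩ := l1 (eA κ) (clA (fA k) (fB k) κ)
  have h : L1m P D (eA κ) (clA (fA k) (fB k) κ) z Dd R R2 R3 lo hi rl sl rr sr Xc Xx Xy := ⟨n1, n2, n3, n4, n5, M⟩
  exact gt_mem hP n1 M (ok1 _) rfl rfl hE.symm ha.symm (fun g hg => gd_k hP pos un0 un1 jh ax fr0 ok1 h rfl rfl hg)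
    fun g hg => gd_k hP pos un0 un1 jh ax fr0 ok1 h hE.symm ha.symm hg

variable {V : Ultrafilter ℕ} {PG : Measure CC.Gm}

/-- the records of the foreign gates -/
lemma GenO.ok1 (h : GenO V P D PG) (E : Bool) : (D.K1 E).Ok (enB P E).f := by
  have h1 := (h.pk 0 1 (by decide) (by decide)).gR.ok.g
  cases E
  · exact h1 .fp
  · exact h1 .bq

/-- the records of the native gates -/
lemma GenO.ok0 (h : GenO V P D PG) (E : Bool) : (D.K0 E).Ok (enB P E).n := by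
  have h1 := (h.pk 0 1 (by decide) (by decide)).g0.ok.g
  cases E
  · exact h1 .fp
  · exact h1 .bq

/-- **for the readers of `GenO`**: the member `(E, a)` has numbers and marks such that all places `(k, κ)` of the member have good curves
`D.Xk P k` -/
theorem GenO.mem (h : GenO V P D PG) (hP : P.Ok) (E : Bool) (a : Fin 3) :
    ∃ z Dd R R2 R3 lo hi rl sl rr sr : ℝ, ∃ Xc Xx Xy : Arm → CC.Gm → ℝ, L1m P D E a z Dd R R2 R3 lo hi rl sl rr sr Xc Xx Xy ∧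
      ∀ k κ, eA κ = E → clA (fA k) (fB k) κ = a → ∀ g ∈ D.Xk P k,
        (plM P D.F0 D.F1 D.Rm {h | rotX P.u h ∈ D.Xf} Xc Xx Xy (fA k) (fB k) κ).Gd P (rS (-dxB E a)) z Dd g := by
  obtain ⟨z, Dd, R, R2, R3, lo, hi, rl, sl, rr, sr, n1, n2, n3, n4, n5, Xc, Xx, Xy, M⟩ := h.l1 E a
  exact ⟨z, Dd, R, R2, R3, lo, hi, rl, sl, rr, sr, Xc, Xx, Xy, ⟨n1, n2, n3, n4, n5, M⟩, fun k κ hE ha g hg =>
    gd_k hP h.pos h.un0 h.un1 h.jh h.ax h.fr0 h.ok1 ⟨n1, n2, n3, n4, n5, M⟩ hE ha hg⟩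

end geno

end Pool.Agent.ROT.F3E
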