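import Pool.Agent.ROT.F3JmL
import Pool.Agent.ROT.F3JmH
import Pool.Agent.ROT.F3JmU
import Pool.Agent.ROT.F3LevD

/-!
# ROT, F3, row JmB (helper81): `ae` and `loc` of `PkC` (helper17) : locality of the native gates for a countable family of classes

* **`arB_of_K`** : the closed conditions `ArB` of all arms of a curve of the class `jKR` with `clsK ≤ 0`;
* `NumB` : the inequalities of the scales and radii of one arm; `NatB` : the functional marks of the native gates of one arm (`LocS`,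
  `GMk` almost everywhere where the roots are farther than `c0`);
* **`locB_mk`** : sets `Gd n` with `jwR ≠ 0 → g ∈ Gd n` almost everywhere and `LocB` for all four arms.
-/

set_option autoImplicit false

open MeasureTheory Topology Set Filter

open scoped unitInterval ENNReal Classical

namespace Pool.Agent.ROT.F3.CK

open Pool.Agent.ROT.F3 Pool.Agent.ROT.F3.CC Pool.Agent.ROT.F3.LF

/-! ### 1. The classes -/

section cls

variable {P : Prm} {i j : Fin 3} {H : Ga} {g : CC.Gm}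

private lemma rsF_le' {d d' : ℂ} {P Q : Tp} {W : Wn} {f : C(I, ℂ)} {L : ℝ} {a b : I} (h : rsF d d' P Q W f L a b ≤ 0) :
    stS (fRa d P.c P.r0) (cutc f a b) ≤ P.κ ∧ stS (fRa d' Q.c Q.r0) (cutc f b a) ≤ Q.κ ∧ W.D0 ≤ ‖f b - f a‖ := by
  unfold rsF at h
  simp only [max_le_iff] at h
  obtain ⟨⟨⟨h1, h2⟩, h3, -⟩, -⟩ := h
  rw [cutc_one] at h3
  exact ⟨by linarith, by linarith, by linarith⟩

private lemma jKR_k3 (h : g ∈ jKR P i j H) : g ∈ k3S (jDR P i j) (⋂ k, H.B k) (phi8 H.B H.c H.x) := by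
  unfold jKR at h
  split_ifs at h
  · exact h.1
  · exact h

/-- **the closed conditions of the arms of a curve of the class** -/
theorem arB_of_K (hU : H.Un g) (hR : g ∈ jKR P i j H) {y : Fin 4 → ℝ}
    (hK : clsK ((jDR P i j).th y) g.2.2 (pji (muG g)) (fun k => pji (phi8 H.B H.c H.x g k)) ≤ 0) (k : Arm) :
    ∃ s, (s = y 0 ∨ s = y 1 ∨ s = y 2 ∨ s = y 3) ∧ ArB P i j H k g s := by
  have h3 := jKR_k3 hR
  have hB : ∀ k, g ∈ H.B k := mem_iInter.1 h3.1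
  have e : ∀ a, phi8 H.B H.c H.x g a = H.t8 g a := fun a => by
    rw [phi8_t8, bi_pos (mem_iInter.2 hB), one_mul]
  have hF : max (clsF (jDR P i j) g.2.2 g.1 (pji (muG g)) fun k => pji (phi8 H.B H.c H.x g k))
      (ordF fun k => pji (phi8 H.B H.c H.x g k)) ≤ 0 := h3.2
  simp only [e] at hK hF
  unfold clsK at hK
  unfold clsF ordF at hF
  simp only [max_le_iff] at hK hF
  obtain ⟨⟨⟨kA, kB⟩, kA', kB'⟩, -⟩ := hK
  obtain ⟨⟨⟨-, rA, rB⟩, -⟩, oA, oB⟩ := hF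
  obtain ⟨a1, a2, a3⟩ := rsF_le' rA
  obtain ⟨b1, b2, b3⟩ := rsF_le' rB
  have o2 : H.ix .fp g ≤ H.ix .bq g := by
    show ((pji (H.tx .fp g) : I) : ℝ) ≤ (pji (H.tx .bq g) : I)
    have h4 : ((pji (H.t8 g 1) : I) : ℝ) - (pji (H.t8 g 2) : I) ≤ 0 := oA
    have h5 : ((pji (H.t8 g 1) : I) : ℝ) ≤ (pji (H.t8 g 2) : I) := by linarith
    exact h5
  have o7 : H.ix .fq g ≤ H.ix .bp g := by
    show ((pji (H.tx .fq g) : I) : ℝ) ≤ (pji (H.tx .bp g) : I)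
    have h4 : ((pji (H.t8 g 5) : I) : ℝ) - (pji (H.t8 g 6) : I) ≤ 0 := oB
    have h5 : ((pji (H.t8 g 5) : I) : ℝ) ≤ (pji (H.t8 g 6) : I) := by linarith
    exact h5
  cases k
  · exact ⟨y 0, Or.inl rfl, hU.o1 (hB _), hU.o2 (hB _), o2, (preK_iff (ev_norm _)).1 kA, a1, a3⟩
  · refine ⟨y 2, Or.inr (Or.inr (Or.inl rfl)), hU.o1 (hB _), hU.o2 (hB _), o2, (preK_iff (ev_norm _)).1 kA', a2, ?_⟩
    rw [norm_sub_rev]
    exact a3
  · refine ⟨y 3, Or.inr (Or.inr (Or.inr rfl)), hU.o1 (hB _), hU.o2 (hB _), o7, (preK_iff (ev_norm _)).1 kB', b2, ?_⟩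
    rw [norm_sub_rev]
    exact b3
  · exact ⟨y 1, Or.inr (Or.inl rfl), hU.o1 (hB _), hU.o2 (hB _), o7, (preK_iff (ev_norm _)).1 kB, b1, b3⟩

/-- the two roots of a curve of the class are far from each other -/
theorem root_far (hP : P.Ok) (hU : H.Un g) (hR : g ∈ jKR P i j H) {y : Fin 4 → ℝ}
    (hK : clsK ((jDR P i j).th y) g.2.2 (pji (muG g)) (fun k => pji (phi8 H.B H.c H.x g k)) ≤ 0) :
    (jDR P i j).V.D0 - ((jDR P i j).P.rad + (jDR P i j).Q.rad) ≤ ‖g.2.2 (rtA (oppA .fp) g) - g.2.2 (rtA .fp g)‖ := by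
  obtain ⟨s, -, A⟩ := arB_of_K hU hR hK .fp
  obtain ⟨s', -, A'⟩ := arB_of_K hU hR hK (oppA .fp)
  have h1 := far_tips A.gt A'.gt (endA_ok hP .fp).f.r2.le (endA_ok hP (oppA .fp)).f.r2.le (A.o1.bt A.o2) (A'.o1.bt A'.o2) A.D
  refine le_trans (le_of_eq ?_) h1
  show (wnA P i).D0 - ((P.p.f.r + P.p.f.r2) + (P.q.f.r + P.q.f.r2)) = (wnA P i).D0 - (P.p.f.r + P.p.f.r2) - (P.q.f.r + P.q.f.r2)
  ring

/-- order of the gates from `ArB` -/
lemma ArB.orA {k : Arm} {s : ℝ} (hP : P.Ok) (h : ArB P i j H k g s) (hs : 0 ≤ s) (hB : g ∈ H.B k) : OrA H k g := by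
  refine ⟨hB, h.o1, h.o2, fun hc => ?_⟩
  have h1 := h.gt.l
  rw [← hc, sub_self, show lv (dirA i j k) 0 = 0 by unfold lv; simp] at h1
  have h2 : ((endA P k).f.up s).l = (endA P k).f.l + s := rfl
  rw [h2] at h1
  linarith [(endA_ok hP k).f.l]

end cls

/-! ### 2. `LocB` for a countable family of classes -/

/-- **the scales and the radii** of the native gates of one end: `R`, `R2`, `R3` scales of `c`, `x`, block mark, `lo .. hi` levels,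
`rl`, `sl`, `sl'` diameters, `rr`, `sr` radii -/
structure NumB (n : Tp) (R R2 R3 z lo hi rl sl sl' rr sr : ℝ) : Prop where
  p1 : 0 ≤ R
  p2 : 0 ≤ R2
  p3 : 0 ≤ R3
  g1 : 64 * R ≤ n.rg
  g2 : 64 * R2 ≤ n.rg
  g3 : 64 * R3 ≤ n.rg
  hz : 0 ≤ z
  hlo : lo < n.l
  hhi : n.l < hi
  hrl : 2 * n.r < rl
  hsl : 2 * n.r2 < sl
  hsl' : 2 * n.r2 < sl'
  hrr : n.r ≤ rr
  hsr : n.r + n.r2 ≤ sr

/-- **the functional marks of the native gates of one arm** (base `β = 0`): locality and dictionary -/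
structure NatB (PG : Measure CC.Gm) (G0 : Ga) (n : Tp) (k : Arm) (c0 R R2 R3 z lo hi rl sl sl' rr sr : ℝ) (T : LSym)
    (X : Set CC.Gm) (β Xc Xx Xy : CC.Gm → ℝ) : Prop where
  S : LR.LocS R R2 z n.l lo hi rl sl rr sr T k X β Xc Xx T k X β Xc Xx
  Sy : LR.LocS R R3 z n.l lo hi rl sl' rr sr T k X β Xc Xy T k X β Xc Xy
  ae : ∀ᵐ g ∂PG, c0 < ‖g.2.2 (pji (muG g))‖ → g ∈ X ∧ β g = 0 ∧ LR.GMk (G0.B k) (G0.c k) (G0.x k) β T k n.l n.m Xc Xx Xy g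

section fam

variable {P : Prm} {i j : Fin 3} {ι : Type*} {PG : Measure CC.Gm} {G0 : Ga} {H : ι → Ga}

/-- the two roots of the arm -/
private lemma root_dist {g : CC.Gm} (h0 : g.2.2 0 = 0) (h1 : g.2.2 1 = 0) (k : Arm) :
    ‖g.2.2 (rtA (oppA k) g) - g.2.2 (rtA k g)‖ = ‖g.2.2 (pji (muG g))‖ := by
  cases k
  · show ‖g.2.2 (pji (muG g)) - g.2.2 0‖ = _
    rw [h0, sub_zero]
  · show ‖g.2.2 0 - g.2.2 (pji (muG g))‖ = _
    rw [h0, zero_sub, norm_neg]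
  · show ‖g.2.2 1 - g.2.2 (pji (muG g))‖ = _
    rw [h1, zero_sub, norm_neg]
  · show ‖g.2.2 (pji (muG g)) - g.2.2 1‖ = _
    rw [h1, sub_zero]

/-- **`ae` and `loc` of `PkC`** -/
theorem locB_mk (hP : P.Ok) (hPz : PG.map (rotX P.u) = PG) (hL : ∀ᵐ g ∂PG, 0 < g.2.1 ∧ g.2.1 < g.1)
    (hcl : ∀ᵐ g ∂PG, g.2.2 0 = 0 ∧ g.2.2 1 = 0) (u0 : ∀ᵐ g ∂PG, G0.Un g) (uH : ∀ n, ∀ᵐ g ∂PG, (H n).Un g)
    (cl : ∀ n, ∃ y : CC.Gm → Fin 4 → ℝ, (∀ g s, 0 ≤ y g s) ∧ ∀ᵐ g ∂PG, g ∈ jKR P i j (H n) →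
      clsK ((jDR P i j).th (y g)) g.2.2 (pji (muG g)) (fun k => pji (phi8 (H n).B (H n).c (H n).x g k)) ≤ 0)
    {c0 : ℝ} (hc0 : c0 < (jDR P i j).V.D0 - ((jDR P i j).P.rad + (jDR P i j).Q.rad))
    {R R2 R3 z lo hi rl sl sl' rr sr : Arm → ℝ} {T : Arm → LSym} {X : Arm → Set CC.Gm} {β Xc Xx Xy : Arm → CC.Gm → ℝ}
    (N : ∀ k, NumB (endA P k).n (R k) (R2 k) (R3 k) (z k) (lo k) (hi k) (rl k) (sl k) (sl' k) (rr k) (sr k))
    (M : ∀ k, NatB PG G0 (endA P k).n k c0 (R k) (R2 k) (R3 k) (z k) (lo k) (hi k) (rl k) (sl k) (sl' k) (rr k) (sr k) (T k)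
      (X k) (β k) (Xc k) (Xx k) (Xy k)) :
    ∃ Gd : ι → Set CC.Gm, (∀ n, ∀ᵐ g ∂PG, jwR P i j (H n) g ≠ 0 → g ∈ Gd n) ∧
      ∀ k, LocB P i j G0 H (fun n => jwR P i j (H n)) Gd k := by
  -- what the curves of the class give
  obtain ⟨Q, hQ⟩ : ∃ Q : ι → Arm → Set CC.Gm, Q = fun n k => {g | GdB G0 k (β k) (T k) (endA P k).n.l (endA P k).n.m (Xc k) (Xx k)
    (Xy k) (X k) g ∧ OrA ((H n).rot P.u) k g ∧ leA k (((H n).rot P.u).ix k g) (rtA (oppA k) g) ∧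
      FarB (R k) k g (((H n).rot P.u).ix k g) ∧ FarB (R2 k) k g (((H n).rot P.u).ix k g) ∧
      FarB (R3 k) k g (((H n).rot P.u).ix k g)} := ⟨_, rfl⟩
  have key : ∀ n k, ∀ᵐ g ∂PG, jwR P i j (H n) g ≠ 0 → g ∈ Q n k := by
    intro n k
    obtain ⟨y, y0, hK⟩ := cl n
    filter_upwards [hL, hcl, u0, (M k).ae, ae_rotX hP.u hPz (uH n), ae_rotX hP.u hPz hK] with g g1 g2 g3 g4 g5 g6 h0
    have hR : rotX P.u⁻¹ g ∈ jKR P i j (H n) := by
      by_contra hc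
      refine h0 ?_
      show ENNReal.ofReal (bi (rotX P.u⁻¹ g ∈ jKR P i j (H n))) = 0
      rw [bi_neg hc, ENNReal.ofReal_zero]
    have hB : ∀ k, rotX P.u⁻¹ g ∈ (H n).B k := mem_iInter.1 (jKR_k3 hR).1
    have hs0 : ∀ s, (s = y (rotX P.u⁻¹ g) 0 ∨ s = y (rotX P.u⁻¹ g) 1 ∨ s = y (rotX P.u⁻¹ g) 2 ∨ s = y (rotX P.u⁻¹ g) 3) →
        0 ≤ s := by
      rintro s (rfl | rfl | rfl | rfl) <;> exact y0 _ _
    obtain ⟨s, hs, A⟩ := arB_of_K g5 hR (g6 hR) k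
    obtain ⟨s', hs', A'⟩ := arB_of_K g5 hR (g6 hR) (oppA k)
    have nb := N k
    have F : ∀ r : ℝ, 0 ≤ r → 64 * r ≤ (endA P k).n.rg → FarB r k g (((H n).rot P.u).ix k g) := fun r h1 h2 =>
      FarB.rot hP.u (farB_of_arB hP A A' (hs0 s hs) h1 h2)
    have F2 := F (R2 k) nb.p2 nb.g2
    have hfin := root_far hP g5 hR (g6 hR)
    rw [root_dist (g := rotX P.u⁻¹ g) (by show P.u⁻¹ * g.2.2 0 = 0; rw [g2.1, mul_zero])
      (by show P.u⁻¹ * g.2.2 1 = 0; rw [g2.2, mul_zero])] at hfin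
    have hfin' : c0 < ‖g.2.2 (pji (muG g))‖ := by
      refine hc0.trans_le (hfin.trans_eq ?_)
      show ‖(P.u)⁻¹ * g.2.2 (pji (muG g))‖ = _
      rw [norm_mul, norm_inv, hP.u, inv_one, one_mul]
    obtain ⟨m1, m2, m3⟩ := g4 hfin'
    have hor : OrA ((H n).rot P.u) k g := (A.orA hP (hs0 s hs) (hB k)).rot
    rw [hQ]
    refine ⟨⟨m1, g1.1, g1.2, g2.1.trans g2.2.symm, g3, m2, m3⟩, hor, ?_, F (R k) nb.p1 nb.g1, F2, F (R3 k) nb.p3 nb.g3⟩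
    exact g5.rot.o3 (hB k)
  refine ⟨fun n => {g | jwR P i j (H n) g ≠ 0 → ∀ k, g ∈ Q n k}, fun n => ?_, fun k => ?_⟩
  · filter_upwards [key n .fp, key n .bq, key n .fq, key n .bp] with g h1 h2 h3 h4 h0
    intro h0' k
    cases k
    · exact h1 h0
    · exact h2 h0
    · exact h3 h0
    · exact h4 h0
  · have nb := N k
    have hq : ∀ n g, g ∈ {g | jwR P i j (H n) g ≠ 0 → ∀ k, g ∈ Q n k} → jwR P i j (H n) g ≠ 0 →
        GdB G0 k (β k) (T k) (endA P k).n.l (endA P k).n.m (Xc k) (Xx k) (Xy k) (X k) g ∧ OrA ((H n).rot P.u) k g ∧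
          leA k (((H n).rot P.u).ix k g) (rtA (oppA k) g) ∧ FarB (R k) k g (((H n).rot P.u).ix k g) ∧
          FarB (R2 k) k g (((H n).rot P.u).ix k g) ∧ FarB (R3 k) k g (((H n).rot P.u).ix k g) := by
      intro n g hg h0
      have := hg h0 k
      rw [hQ] at this
      exact this
    exact locB_of hP nb.p1 nb.p2 nb.p3 nb.hz nb.hlo nb.hhi nb.hrl nb.hsl nb.hsl' nb.hrr nb.hsr (M k).S (M k).Sy
      (fun n g hg h0 => (hq n g hg h0).1) fun n g hg h0 => (hq n g hg h0).2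

end fam

end Pool.Agent.ROT.F3.CK
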