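import Pool.Agent.ROT.F3LrX
import Pool.Agent.ROT.F3JmM
import Pool.Agent.ROT.F3GenX1

/-!
# ROT, F3, row D61 (N) (helper42): the native functional marks of all members

* **`natM`** : `NatB` (helper81: locality and dictionary of the native marks, base `0`) for every member of `FamN` (helper11), from
  `mem_gen` (helper94) with the numbers `R = 3/2 ρ`, `R2 = R3 = 14 ρ`, `z = 0`, `lo = 2/5 ρ`, `hi = 3/5 ρ`, `rl = 41/20 ρ`,
  `sl = 829/20 ρ`, `rr = 101/50 ρ`, `sr = 2071/50 ρ`.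
-/

set_option autoImplicit false

open MeasureTheory Filter Topology Set unitInterval

namespace Pool.Agent.ROT.F3E

open Pool.Agent.ROT.F (QB)
open Pool.Agent.ROT.F3 Pool.Agent.ROT.F3.CK Pool.Agent.ROT.F3.LR
open Pool.Agent.ROT.F3.LF (Cv Lm Ev bi)

/-- **the native marks of all members** -/
theorem natM (hQB : QB) {V : Ultrafilter ℕ} {bb : ℝ} {PG : Measure CC.Gm} {S : ℕ → ℝ} {c0 ρ t0 τ : ℝ} {P : Prm} {K0 : Bool → F3.GP}
    {F0 : Bool → Fin 3 → Ga} (he : Env V bb PG S c0 ρ t0) (hp : P.p.Nr (bE ρ τ)) (hq : P.q.Nr (bE ρ τ))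
    (h : FamN V bb PG S c0 ρ P K0 F0) (E : Bool) (a : Fin 3) (κ : Arm) :
    ∃ (X : Set CC.Gm) (β Xc Xx Xy : CC.Gm → ℝ), NatB PG (F0 E a) (enB P E).n κ c0 (3 / 2 * ρ) (14 * ρ) (14 * ρ) 0 (2 / 5 * ρ)
      (3 / 5 * ρ) (41 / 20 * ρ) (829 / 20 * ρ) (829 / 20 * ρ) (101 / 50 * ρ) (2071 / 50 * ρ) (rS (-dxB E a)) X β Xc Xx Xy := by
  have hρ := he.ρ0
  have hn : (enB P E).n.Nr (bN ρ τ) := (enB_nr hp hq E).n
  obtain ⟨r, hr⟩ := h.gr E
  obtain ⟨ix, iy⟩ := innN (lo := 2 / 5 * ρ) (hi := 3 / 5 * ρ) hρ hn r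
  rw [← hr] at ix iy
  have s0 : ∀ i, 0 < scN i * ρ := fun i => mul_pos (scN_pos i).1 hρ
  have hm : 0 < (K0 E).m := by
    rw [hr]
    have h1 : 81 / 10 * ρ ≤ (enB P E).n.m := hn.m.1
    show 0 < (enB P E).n.m
    linarith
  obtain ⟨Xc, Xx, Xy, Gs, hG, hX⟩ := mem_gen (T := rS (-dxB E a)) (G := K0 E) (R := scN 0 * ρ) (R2 := scN 1 * ρ) (R3 := scN 2 * ρ)
    (K := 3 / 2 * ρ) (K2 := 14 * ρ) (K3 := 14 * ρ) (y := fun _ _ _ => 0) (β := fun _ _ => 0) (B := (F0 E a).B) (c := (F0 E a).c)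
    (x := (F0 E a).x) hQB he.bb0 he.V0 he.cv he.pos he.S0 he.S1 (s0 0) (s0 1) (s0 2) (by linarith [he.c1]) (fun κ => he.sc.n 0 κ _)
    (fun κ => he.sc.n 1 κ _) (fun κ => he.sc.n 2 κ _) (corNx (hi := 3 / 5 * ρ) hρ (lo := 2 / 5 * ρ) (by linarith))
    (corNy (hi := 3 / 5 * ρ) hρ (lo := 2 / 5 * ρ) (by linarith)) (by linarith) (by linarith) (by linarith) (fun q => ranNx hρ)
    (fun q => ranNy hρ) ix iy rfl rfl hm (fun κ => Lm.const he.cv 0) (fun κ => h.sg E κ _) fun κ => h.ai E a κ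
  have j1 := ix.r; have j2 := ix.r2; have j3 := iy.r2
  -- the radii of the gates
  have q1 : 21 / 10 * ρ < (K0 E).r1 := by
    rw [hr]
    exact (rT_lt (B := bxN 0 ρ) (show 21 / 10 * ρ < 29 / 10 * ρ by linarith) r.h0 r.h1).1
  have q2 : 415 / 10 * ρ < (K0 E).r1' := by
    rw [hr]
    obtain ⟨-, -, -, -, w1, w2⟩ := bxN_r hρ hn
    obtain ⟨t1, t2⟩ := tof_mem w1 w2
    exact (rT_lt (B := bxN 1 ρ) (show 415 / 10 * ρ < 419 / 10 * ρ by linarith) t1 t2).1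
  have q3 : 415 / 10 * ρ < (K0 E).r1'' := by
    rw [hr]
    exact (rT_lt (B := bxN 2 ρ) (show 415 / 10 * ρ < 416 / 10 * ρ by linarith) r.h2 r.h3).1
  obtain ⟨X, hXd⟩ : ∃ X : Set CC.Gm, X = {g | g ∈ Gs ∧ c0 < ‖g.2.2 (pji (muG g))‖} := ⟨_, rfl⟩
  have m1 : X ⊆ Gs := fun g hg => by
    rw [hXd] at hg
    exact hg.1
  have m2 : ∀ g ∈ X, c0 < ‖g.2.2 (pji (muG g))‖ := fun g hg => by
    rw [hXd] at hg
    exact hg.2
  obtain ⟨k1, k2, k3⟩ := hX X m1 m2 0 (41 / 20 * ρ) (829 / 20 * ρ) (101 / 50 * ρ) (2071 / 50 * ρ)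
    (show 2 * ρ ≤ 41 / 20 * ρ by linarith) (show 2 * ρ ≤ 41 / 20 * ρ by linarith) (by linarith) (show 41 * ρ ≤ 829 / 20 * ρ by linarith)
    (by linarith) (show 41 * ρ ≤ 829 / 20 * ρ by linarith) (by linarith) (by linarith) (by linarith)
    (show 0 + 3 / 2 * ρ / 8 < 2 / 5 * ρ by linarith)
  have el : (K0 E).l = (enB P E).n.l := by rw [hr]; rfl
  have em : (K0 E).m = (enB P E).n.m := by rw [hr]; rfl
  refine ⟨X, fun _ => 0, Xc κ, Xx κ, Xy κ, ?_, ?_, ?_⟩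
  · have := k2 κ κ
    rw [el] at this
    exact this
  · have := k3 κ κ
    rw [el] at this
    exact this
  · filter_upwards [hG] with g hg hc
    have hgX : g ∈ X := by
      rw [hXd]
      exact ⟨hg, hc⟩
    refine ⟨hgX, rfl, ?_⟩
    have := k1 κ g hgX
    rw [el, em] at this
    exact this

end Pool.Agent.ROT.F3E
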