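import Pool.Agent.ROT.F3Prm22

/-!
# ROT / F3PrmO22 (helper22): numeric data of the outer block `O` and of the outer gate `Y`

`bO ρ τ`, `bY ρ τ` : base data; `Ot.Nr` : every field in the window of the base field. `OutOk E O Y ε` : the relations between
the data `E` of an end, the outer block `O` and the outer gate `Y`.
* **`outOk`** : they hold in the whole window for `0 ≤ ε ≤ 1 / 100000000`.
* `CelOk E h rz ρ'`, **`celOk`** : the cells of the displacements, `h = kc + n.m`, `rz ≤ 1 / 2 ρ`, `ρ' = 3 / 5 ρ`; **`kr_ok`** :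
  `208 kr < n.m`, `kc * ε ≤ kr / 10`.
-/

set_option autoImplicit false

namespace Pool.Agent.ROT.F3

/-- base data of the outer block -/
noncomputable def bO (ρ τ : ℝ) : Ot where
  m := 20000000 * ρ
  r := 22000000 * ρ
  hw := 1/500 * ρ
  c := 3/4
  κ := 2/25 * ρ
  e := 2000000 * ρ
  lb := 99/100 * τ

/-- base data of the outer gate -/
noncomputable def bY (ρ τ : ℝ) : Tp where
  l := 6000 * ρ
  r := 12000 * ρ
  m := 100000 * ρ
  th := 3/4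
  r2 := 253000 * ρ
  κ1 := 500 * ρ
  rg := 46000000 * ρ
  r0 := 48000000 * ρ
  κ := 1000 * ρ
  c := 77/100
  cs := 3/5
  e := 1600 * ρ
  w := 3000 * ρ
  κs := 200 * ρ
  la := 1 * τ
  lb := 1 * τ

/-- every field of `P` is in the window of the field of `B` -/
structure Ot.Nr (P B : Ot) : Prop where
  m : Wi B.m P.m
  r : Wi B.r P.r
  hw : Wi B.hw P.hw
  c : Wi B.c P.c
  κ : Wi B.κ P.κ
  e : Wi B.e P.e
  lb : Wi B.lb P.lb
/-- bY_ok -/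
theorem bY_ok {P : Tp} {ρ τ : ℝ} (hρ : 0 < ρ) (hτ : 0 < τ) (h : P.Nr (bY ρ τ)) : P.Ok := by
  have hl1 : 6000 * ρ ≤ P.l := h.l.1
  have hl2 : P.l ≤ 101 / 100 * (6000 * ρ) := h.l.2
  have hr1 : 12000 * ρ ≤ P.r := h.r.1
  have hr2 : P.r ≤ 101 / 100 * (12000 * ρ) := h.r.2
  have hm1 : 100000 * ρ ≤ P.m := h.m.1
  have hm2 : P.m ≤ 101 / 100 * (100000 * ρ) := h.m.2
  have hth1 : 3/4 ≤ P.th := h.th.1
  have hth2 : P.th ≤ 101 / 100 * (3/4) := h.th.2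
  have hr21 : 253000 * ρ ≤ P.r2 := h.r2.1
  have hr22 : P.r2 ≤ 101 / 100 * (253000 * ρ) := h.r2.2
  have hκ11 : 500 * ρ ≤ P.κ1 := h.κ1.1
  have hκ12 : P.κ1 ≤ 101 / 100 * (500 * ρ) := h.κ1.2
  have hrg1 : 46000000 * ρ ≤ P.rg := h.rg.1
  have hrg2 : P.rg ≤ 101 / 100 * (46000000 * ρ) := h.rg.2
  have hr01 : 48000000 * ρ ≤ P.r0 := h.r0.1
  have hr02 : P.r0 ≤ 101 / 100 * (48000000 * ρ) := h.r0.2
  have hκ1 : 1000 * ρ ≤ P.κ := h.κ.1
  have hκ2 : P.κ ≤ 101 / 100 * (1000 * ρ) := h.κ.2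
  have hc1 : 77/100 ≤ P.c := h.c.1
  have hc2 : P.c ≤ 101 / 100 * (77/100) := h.c.2
  have hcs1 : 3/5 ≤ P.cs := h.cs.1
  have hcs2 : P.cs ≤ 101 / 100 * (3/5) := h.cs.2
  have he1 : 1600 * ρ ≤ P.e := h.e.1
  have he2 : P.e ≤ 101 / 100 * (1600 * ρ) := h.e.2
  have hw1 : 3000 * ρ ≤ P.w := h.w.1
  have hw2 : P.w ≤ 101 / 100 * (3000 * ρ) := h.w.2
  have hκs1 : 200 * ρ ≤ P.κs := h.κs.1
  have hκs2 : P.κs ≤ 101 / 100 * (200 * ρ) := h.κs.2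
  have hla1 : 1 * τ ≤ P.la := h.la.1
  have hla2 : P.la ≤ 101 / 100 * (1 * τ) := h.la.2
  have hlb1 : 1 * τ ≤ P.lb := h.lb.1
  have hlb2 : P.lb ≤ 101 / 100 * (1 * τ) := h.lb.2
  have hp : (3/5 - 1 / 2) * (3000 * ρ) ≤ (P.cs - 1 / 2) * P.w :=
    mul_le_mul (by linarith) (by linarith) (by positivity) (by linarith)
  have hq : (3/4) * (100000 * ρ) ≤ P.th * P.m :=
    mul_le_mul (by linarith) (by linarith) (by positivity) (by linarith)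
  have hs : (1 - 101 / 100 * (3/5)) * (6000 * ρ) ≤ (1 - P.cs) * P.l :=
    mul_le_mul (by linarith) (by linarith) (by positivity) (by linarith)
  constructor <;> linarith

/-- base data of the second (small) outer block: the middle word brings its own strip (76, 79) -/
noncomputable def bO1 (ρ τ : ℝ) : Ot where
  m := 120000 * ρ
  r := 130000 * ρ
  hw := 1/500 * ρ
  c := 3/4
  κ := 2/25 * ρ
  e := 12000 * ρ
  lb := 99/100 * τ

/-- **relations between the data of an end, the outer block and the outer gate** -/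
structure OutOk (E : En) (O : Ot) (Y : Tp) (ε : ℝ) : Prop where
  oY : Y.Ok
  m : 0 < O.m
  mr : O.m < O.r
  hw : 0 < O.hw
  κ : 0 < O.κ
  e : 0 < O.e
  e1 : O.e < (1 - O.c) * O.m
  lb : 0 < O.lb
  /-- the piece `k` is a part of the block -/
  lbk : O.lb ≤ E.lk
  /-- `x~` is in its cell -/
  hwk : 4 * O.hw ≤ E.kr
  /-- the thin strip is inside of the cones -/
  hwf : 2 * O.hw ≤ E.f.κ
  hwn : O.hw ≤ E.κk
  hwo : O.hw < O.κ
  /-- the thin strip is inside of the strip of the main arcs (rotated frame) -/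
  hws : 2 * O.hw + ε * (2 * O.r) ≤ E.s.hw
  cn : E.n.c ≤ O.c
  cf : E.f.c + ε ≤ O.c
  cy : O.c ≤ Y.c
  c1 : O.c < 1
  κn : O.κ ≤ E.n.κ
  κf : O.κ ≤ E.f.κ
  κy : Y.κ ≤ O.e
  κy' : Y.κ < O.m
  /-- no return to the ball `bn` of `x~` behind `y` -/
  bn : E.s.bn + E.k + Y.κ ≤ O.m
  len : O.r ≤ E.s.len
  bn' : O.r + E.s.bn + E.k ≤ Y.r0 - Y.κ
  un : 2 * (E.n.r + E.n.r2) + 2 * O.r ≤ Y.rg
  unf : 2 * (E.f.r + E.f.r2) + 2 * O.r ≤ Y.rg
  r0n : E.n.r0 + O.r < Y.r0 - Y.κ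
  r0f : E.f.r0 + 2 * O.r < Y.r0 - Y.κ
  rgn : E.n.rg + O.r ≤ Y.rg
  rgf : E.f.rg + O.r ≤ Y.rg
  /-- the level of `y` -/
  top : 4 * E.k ≤ O.m
  hw2 : 2 * O.hw + ε * (2 * E.s.len) ≤ E.s.hw / 4
  /-- 97, 51: behind `y` never again in the ball `R0 = 18000000 ρ`, `R0 ≥ 501 R` for the radii `R ≤ 21 / 20 * f.r2` of the gates -/
  R0 : 501 * (21 / 20 * E.f.r2) + E.k + Y.κ ≤ O.m

/-- **the relations hold in the whole window** -/
theorem outOk {E : En} {O : Ot} {Y : Tp} {ρ τ ε : ℝ} (hρ : 0 < ρ) (hτ : 0 < τ) (h0 : 0 ≤ ε) (h1 : ε ≤ 1 / 100000000)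
    (h : E.Nr (bE ρ τ)) (hO : O.Nr (bO ρ τ)) (hY : Y.Nr (bY ρ τ)) : OutOk E O Y ε := by
  have hk : E.k = E.rk + E.f.r2 := rfl
  have nr1 : 1 * ρ ≤ E.n.r := h.n.r.1
  have nr2 : E.n.r ≤ 101 / 100 * (1 * ρ) := h.n.r.2
  have nr21 : 41/2 * ρ ≤ E.n.r2 := h.n.r2.1
  have nr22 : E.n.r2 ≤ 101 / 100 * (41/2 * ρ) := h.n.r2.2
  have nr01 : 1415 * ρ ≤ E.n.r0 := h.n.r0.1
  have nr02 : E.n.r0 ≤ 101 / 100 * (1415 * ρ) := h.n.r0.2
  have nrg1 : 1400 * ρ ≤ E.n.rg := h.n.rg.1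
  have nrg2 : E.n.rg ≤ 101 / 100 * (1400 * ρ) := h.n.rg.2
  have nκ1 : 1/10 * ρ ≤ E.n.κ := h.n.κ.1
  have nκ2 : E.n.κ ≤ 101 / 100 * (1/10 * ρ) := h.n.κ.2
  have nc1 : 16/25 ≤ E.n.c := h.n.c.1
  have nc2 : E.n.c ≤ 101 / 100 * (16/25) := h.n.c.2
  have fr1 : 105 * ρ ≤ E.f.r := h.f.r.1
  have fr2 : E.f.r ≤ 101 / 100 * (105 * ρ) := h.f.r.2
  have fr21 : 28500 * ρ ≤ E.f.r2 := h.f.r2.1
  have fr22 : E.f.r2 ≤ 101 / 100 * (28500 * ρ) := h.f.r2.2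
  have fr01 : 1950000 * ρ ≤ E.f.r0 := h.f.r0.1
  have fr02 : E.f.r0 ≤ 101 / 100 * (1950000 * ρ) := h.f.r0.2
  have frg1 : 1900000 * ρ ≤ E.f.rg := h.f.rg.1
  have frg2 : E.f.rg ≤ 101 / 100 * (1900000 * ρ) := h.f.rg.2
  have fκ1 : 9/100 * ρ ≤ E.f.κ := h.f.κ.1
  have fκ2 : E.f.κ ≤ 101 / 100 * (9/100 * ρ) := h.f.κ.2
  have fc1 : 7/10 ≤ E.f.c := h.f.c.1
  have fc2 : E.f.c ≤ 101 / 100 * (7/10) := h.f.c.2
  have erk1 : 80 * ρ ≤ E.rk := h.rk.1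
  have erk2 : E.rk ≤ 101 / 100 * (80 * ρ) := h.rk.2
  have eκk1 : 1/20 * ρ ≤ E.κk := h.κk.1
  have eκk2 : E.κk ≤ 101 / 100 * (1/20 * ρ) := h.κk.2
  have elk1 : 1 * τ ≤ E.lk := h.lk.1
  have elk2 : E.lk ≤ 101 / 100 * (1 * τ) := h.lk.2
  have ekr1 : 1/100 * ρ ≤ E.kr := h.kr.1
  have ekr2 : E.kr ≤ 101 / 100 * (1/100 * ρ) := h.kr.2
  have shw1 : 1000 * ρ ≤ E.s.hw := h.s.hw.1
  have shw2 : E.s.hw ≤ 101 / 100 * (1000 * ρ) := h.s.hw.2
  have slen1 : 60000000 * ρ ≤ E.s.len := h.s.len.1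
  have slen2 : E.s.len ≤ 101 / 100 * (60000000 * ρ) := h.s.len.2
  have sbn1 : 8000000 * ρ ≤ E.s.bn := h.s.bn.1
  have sbn2 : E.s.bn ≤ 101 / 100 * (8000000 * ρ) := h.s.bn.2
  have om1 : 20000000 * ρ ≤ O.m := hO.m.1
  have om2 : O.m ≤ 101 / 100 * (20000000 * ρ) := hO.m.2
  have or1 : 22000000 * ρ ≤ O.r := hO.r.1
  have or2 : O.r ≤ 101 / 100 * (22000000 * ρ) := hO.r.2
  have ohw1 : 1/500 * ρ ≤ O.hw := hO.hw.1
  have ohw2 : O.hw ≤ 101 / 100 * (1/500 * ρ) := hO.hw.2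
  have oc1 : 3/4 ≤ O.c := hO.c.1
  have oc2 : O.c ≤ 101 / 100 * (3/4) := hO.c.2
  have oκ1 : 2/25 * ρ ≤ O.κ := hO.κ.1
  have oκ2 : O.κ ≤ 101 / 100 * (2/25 * ρ) := hO.κ.2
  have oe1 : 2000000 * ρ ≤ O.e := hO.e.1
  have oe2 : O.e ≤ 101 / 100 * (2000000 * ρ) := hO.e.2
  have olb1 : 99/100 * τ ≤ O.lb := hO.lb.1
  have olb2 : O.lb ≤ 101 / 100 * (99/100 * τ) := hO.lb.2
  have yr01 : 48000000 * ρ ≤ Y.r0 := hY.r0.1
  have yr02 : Y.r0 ≤ 101 / 100 * (48000000 * ρ) := hY.r0.2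
  have yrg1 : 46000000 * ρ ≤ Y.rg := hY.rg.1
  have yrg2 : Y.rg ≤ 101 / 100 * (46000000 * ρ) := hY.rg.2
  have yκ1 : 1000 * ρ ≤ Y.κ := hY.κ.1
  have yκ2 : Y.κ ≤ 101 / 100 * (1000 * ρ) := hY.κ.2
  have yc1 : 77/100 ≤ Y.c := hY.c.1
  have yc2 : Y.c ≤ 101 / 100 * (77/100) := hY.c.2
  have p1 : (1 - 101 / 100 * (3/4)) * (20000000 * ρ) ≤ (1 - O.c) * O.m :=
    mul_le_mul (by linarith) om1 (by positivity) (by linarith)
  have p2 : ε * (2 * O.r) ≤ 1 / 100000000 * (2 * (101 / 100 * (22000000 * ρ))) :=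
    mul_le_mul h1 (by linarith) (by linarith) (by norm_num)
  have p3 : ε * (2 * E.s.len) ≤ 1 / 100000000 * (2 * (101 / 100 * (60000000 * ρ))) :=
    mul_le_mul h1 (by linarith) (by linarith) (by norm_num)
  exact
    { oY := bY_ok hρ hτ hY
      m := by linarith
      mr := by linarith
      hw := by linarith
      κ := by linarith
      e := by linarith
      e1 := by linarith
      lb := by linarith
      lbk := by linarith
      hwk := by linarith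
      hwf := by linarith
      hwn := by linarith
      hwo := by linarith
      hws := by linarith
      cn := by linarith
      cf := by linarith
      cy := by linarith
      c1 := by linarith
      κn := by linarith
      κf := by linarith
      κy := by linarith
      κy' := by linarith
      bn := by rw [hk]; linarith
      len := by linarith
      bn' := by rw [hk]; linarith
      un := by linarith
      unf := by linarith
      r0n := by linarith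
      r0f := by linarith
      rgn := by linarith
      rgf := by linarith
      top := by rw [hk]; linarith
      hw2 := by linarith
      R0 := by rw [hk]; linarith
    }

/-- **the cells of the displacements `z`**: centre `h = E.kc + E.n.m`, radius `rz` of the cells of `z_R`, radius `ρ'` of the cell of
`z_0` (inside of the reach `n.m / 8` of `lowQ0`) -/
structure CelOk (E : En) (h rz ρ' : ℝ) : Prop where
  rz0 : 0 < rz
  hh : h = E.kc + E.n.m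
  /-- 42, `hsub_prm` -/
  H0 : rz + 2 * E.kr < ρ'
  H1 : 2 * ρ' + 4 * E.n.κ < 3 * (h - E.kc)
  H2 : 2 * (h - E.kc) + ρ' < 62 * E.k
  /-- 89, `lowQ0` on the lattice 0 -/
  low0 : ρ' ≤ E.n.m / 8
  /-- 89, `lowQ0` on the rotated lattice: `√3 * |h - f.m| + rz ≤ f.m / 8`, with room for the rotation -/
  lowR : 2 * |h - E.f.m| + rz + h / 1000 ≤ E.f.m / 8
  /-- 64, `chan_geo` at `x~` -/
  g1 : 12 / 5 * rz + E.s.e + 3 / 5 * E.s.hw < h
  g2 : 7 / 4 * (h + 18 / 5 * rz + 6 / 5 * (E.f.r0 + rz)) + h < E.s.bn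
  g3 : 100 * E.s.hw ≤ E.s.bn
  /-- 64, `chan_gen` at `x` (`h - kc = n.m`) -/
  g4 : 12 / 5 * rz + E.n.κ < h - E.kc
  g5 : 7 / 4 * (h - E.kc + 18 / 5 * rz + 6 / 5 * (E.n.r0 + rz)) + (h - E.kc) < E.s.bn - E.k

/-- **the cells exist in the whole window** -/
theorem celOk {E : En} {ρ τ rz : ℝ} (hρ : 0 < ρ) (h : E.Nr (bE ρ τ)) (hr0 : 0 < rz) (hr : rz ≤ 1 / 2 * ρ) :
    CelOk E (E.kc + E.n.m) rz (3 / 5 * ρ) := by
  have hk : E.k = E.rk + E.f.r2 := rfl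
  have kc1 := h.kc.1
  have kc2 := h.kc.2
  have nm1 : 81/10 * ρ ≤ E.n.m := h.n.m.1
  have nm2 : E.n.m ≤ 101 / 100 * (81/10 * ρ) := h.n.m.2
  have nκ1 : 1/10 * ρ ≤ E.n.κ := h.n.κ.1
  have nκ2 : E.n.κ ≤ 101 / 100 * (1/10 * ρ) := h.n.κ.2
  have nr01 : 1415 * ρ ≤ E.n.r0 := h.n.r0.1
  have nr02 : E.n.r0 ≤ 101 / 100 * (1415 * ρ) := h.n.r0.2
  have fl1 : 60 * ρ ≤ E.f.l := h.f.l.1
  have fl2 : E.f.l ≤ 101 / 100 * (60 * ρ) := h.f.l.2
  have fm1 : 11400 * ρ ≤ E.f.m := h.f.m.1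
  have fm2 : E.f.m ≤ 101 / 100 * (11400 * ρ) := h.f.m.2
  have fr21 : 28500 * ρ ≤ E.f.r2 := h.f.r2.1
  have fr22 : E.f.r2 ≤ 101 / 100 * (28500 * ρ) := h.f.r2.2
  have fr01 : 1950000 * ρ ≤ E.f.r0 := h.f.r0.1
  have fr02 : E.f.r0 ≤ 101 / 100 * (1950000 * ρ) := h.f.r0.2
  have erk1 : 80 * ρ ≤ E.rk := h.rk.1
  have erk2 : E.rk ≤ 101 / 100 * (80 * ρ) := h.rk.2
  have ekr1 : 1/100 * ρ ≤ E.kr := h.kr.1
  have ekr2 : E.kr ≤ 101 / 100 * (1/100 * ρ) := h.kr.2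
  have se1 : 1/20 * ρ ≤ E.s.e := h.s.e.1
  have se2 : E.s.e ≤ 101 / 100 * (1/20 * ρ) := h.s.e.2
  have shw1 : 1000 * ρ ≤ E.s.hw := h.s.hw.1
  have shw2 : E.s.hw ≤ 101 / 100 * (1000 * ρ) := h.s.hw.2
  have sbn1 : 8000000 * ρ ≤ E.s.bn := h.s.bn.1
  have sbn2 : E.s.bn ≤ 101 / 100 * (8000000 * ρ) := h.s.bn.2
  exact
    { rz0 := by linarith
      hh := rfl
      H0 := by linarith
      H1 := by linarith
      H2 := by rw [hk]; linarith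
      low0 := by linarith
      lowR := by rw [abs_of_nonneg (by linarith)]; linarith
      g1 := by linarith
      g2 := by linarith
      g3 := by linarith
      g4 := by linarith
      g5 := by rw [hk]; linarith }

/-- **52: the cell of `k` is small against the block, the rotation is small against the cell** -/
theorem kr_ok {E : En} {ρ τ ε : ℝ} (hρ : 0 < ρ) (h0 : 0 ≤ ε) (h1 : ε ≤ 1 / 100000000) (h : E.Nr (bE ρ τ)) :
    208 * E.kr < E.n.m ∧ E.kc * ε ≤ E.kr / 10 := by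
  have kc2 := h.kc.2
  have nm1 : 81/10 * ρ ≤ E.n.m := h.n.m.1
  have fl2 : E.f.l ≤ 101 / 100 * (60 * ρ) := h.f.l.2
  have fm2 : E.f.m ≤ 101 / 100 * (11400 * ρ) := h.f.m.2
  have kr1 : 1/100 * ρ ≤ E.kr := h.kr.1
  have kr2 : E.kr ≤ 101 / 100 * (1/100 * ρ) := h.kr.2
  refine ⟨by linarith, ?_⟩
  have p4 : E.kc * ε ≤ 12000 * ρ * (1 / 100000000) := mul_le_mul (by linarith) h1 h0 (by positivity)
  linarith

end Pool.Agent.ROT.F3
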