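import Pool.Agent.ROT.F3LrG
import Pool.Agent.ROT.F3PrmO22

/-!
# ROT / F3NumG22 (helper22): `GNum` (37) uniformly in the windows

* **`gNum22`** : `z ≤ 2172 / 100 ρ`, `R = 225 ρ`, `R2 = R3 = 19350 ρ`, `lo = 58 ρ`, `hi = 85 ρ`, `rl = 425 / 2 ρ`, `sl = 115141 / 2 ρ`,
  `rr = 81 ρ`, `sr = 28870 ρ`, `R0 = 19500000 ρ`, `D ≥ 19500000 ρ`; `gNum22z` : `n.r + n.r2 ≤ 2172 / 100 ρ`.
-/

set_option autoImplicit false

namespace Pool.Agent.ROT.F3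

open Pool.Agent.ROT.F3.CK

/-- the ball around the root with the native mark -/
theorem gNum22z {E : En} {ρ τ : ℝ} (hρ : 0 < ρ) (h : E.Nr (bE ρ τ)) : E.n.r + E.n.r2 ≤ 2172 / 100 * ρ := by
  have nr2 : E.n.r ≤ 101 / 100 * (1 * ρ) := h.n.r.2
  have nr22 : E.n.r2 ≤ 101 / 100 * (41/2 * ρ) := h.n.r2.2
  linarith

/-- **the numbers of the locality of the gates** -/
theorem gNum22 {E : En} {ρ τ ε z D : ℝ} (hρ : 0 < ρ) (h : E.Nr (bE ρ τ)) (e1 : ε ≤ 1 / 100000000) (z0 : 0 ≤ z)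
    (z1 : z ≤ 2172 / 100 * ρ) (hD : 19500000 * ρ ≤ D) : GNum E ε z D (19500000 * ρ) (225 * ρ) (19350 * ρ) (19350 * ρ) (58 * ρ)
      (85 * ρ) (425 / 2 * ρ) (115141 / 2 * ρ) (81 * ρ) (28870 * ρ) := by
  have hk : E.k = E.rk + E.f.r2 := rfl
  have fl1 : 60 * ρ ≤ E.f.l := h.f.l.1
  have fl2 : E.f.l ≤ 101 / 100 * (60 * ρ) := h.f.l.2
  have fr22 : E.f.r2 ≤ 101 / 100 * (28500 * ρ) := h.f.r2.2
  have rk2 : E.rk ≤ 101 / 100 * (80 * ρ) := h.rk.2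
  have q2 : ε * (2 * z) ≤ 1 / 100000000 * (2 * z) := mul_le_mul_of_nonneg_right e1 (by linarith)
  constructor <;> linarith

/-- the end of the strand and the far radius (72, 70) -/
theorem gNum22f {ρ z : ℝ} (hρ : 0 < ρ) (z1 : z ≤ 2172 / 100 * ρ) :
    1004 * (19350 * ρ) + z ≤ 19500000 * ρ ∧ 511 * (19350 * ρ) + z ≤ 19500000 * ρ ∧ 1004 * (225 * ρ) + z ≤ 19500000 * ρ :=
  ⟨by linarith, by linarith, by linarith⟩

end Pool.Agent.ROT.F3
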