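import Pool.Agent.ROT.F3PrmO22

/-!
# ROT / F3NumY22 (helper22): the numbers of the farness behind the outer block (64, 97, 51)

* `NumR0 E O O' Y D R0 ρ`, **`numR0`** : `R0 = 19500000 ρ`, `D ≥ 100000000 ρ` (distance of the roots, window of the middle piece);
  `numR0k` : both ends (51);
* `wd22` : the windows of the classes: `10 ^ 9 ρ ≤ D0`;
* `numHpg` : `3 / 5 ≤ n.c`, `ε (s.len + s.hw) ≤ f.m / 4` (64, `FgR.hpg`).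
-/

set_option autoImplicit false

namespace Pool.Agent.ROT.F3

/-- the numbers of the farness: `R0` = radius of locality, `D` = smallest displacement of the middle piece -/
structure NumR0 (E : En) (O O' : Ot) (Y : Tp) (D R0 ρ : ℝ) : Prop where
  c : 3 / 5 ≤ O.c
  bm : E.s.bn ≤ O.m
  bY : E.s.bn + O.r ≤ Y.rg
  bD : E.s.bn + (O.r + 2 * O'.r) ≤ D
  bD' : E.s.bn + (2 * O.r + O'.r) ≤ D
  rm : R0 ≤ O.m
  rm' : R0 + Y.κ + E.k ≤ O.m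
  rY : R0 + O.r ≤ Y.rg
  rD : R0 + (O.r + 2 * O'.r) ≤ D
  rD' : R0 + (2 * O.r + O'.r) ≤ D
  rk : R0 + E.k ≤ D
  bn : E.s.bn + E.k ≤ R0
  bn2 : 2 * E.s.bn ≤ R0
  r0 : E.f.r0 + E.k ≤ R0
  k7 : 511 * (19300 * ρ) + E.k ≤ R0
  k7' : 501 * (21 / 20 * E.f.r2) + E.k ≤ R0
  k8 : 1004 * (19350 * ρ) + (E.n.r + E.n.r2) ≤ R0
  k9 : 511 * (19350 * ρ) + (E.n.r + E.n.r2) ≤ R0

/-- **the numbers of the farness** -/
theorem numR0 {E : En} {O O' : Ot} {Y : Tp} {ρ τ D : ℝ} (hρ : 0 < ρ) (h : E.Nr (bE ρ τ)) (hO : O.Nr (bO ρ τ)) (hO' : O'.Nr (bO ρ τ))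
    (hY : Y.Nr (bY ρ τ)) (hD : 100000000 * ρ ≤ D) : NumR0 E O O' Y D (19500000 * ρ) ρ := by
  have hk : E.k = E.rk + E.f.r2 := rfl
  have a1 : E.rk ≤ 101 / 100 * (80 * ρ) := h.rk.2
  have a2 : 28500 * ρ ≤ E.f.r2 := h.f.r2.1
  have a3 : E.f.r2 ≤ 101 / 100 * (28500 * ρ) := h.f.r2.2
  have a4 : E.f.r0 ≤ 101 / 100 * (1950000 * ρ) := h.f.r0.2
  have a5 : E.s.bn ≤ 101 / 100 * (8000000 * ρ) := h.s.bn.2
  have a6 : 8000000 * ρ ≤ E.s.bn := h.s.bn.1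
  have a7 : 80 * ρ ≤ E.rk := h.rk.1
  have a8 : E.n.r ≤ 101 / 100 * (1 * ρ) := h.n.r.2
  have a9 : E.n.r2 ≤ 101 / 100 * (41/2 * ρ) := h.n.r2.2
  have o1 : 20000000 * ρ ≤ O.m := hO.m.1
  have o2 : O.r ≤ 101 / 100 * (22000000 * ρ) := hO.r.2
  have o3 : 3/4 ≤ O.c := hO.c.1
  have o4 : O'.r ≤ 101 / 100 * (22000000 * ρ) := hO'.r.2
  have y1 : 46000000 * ρ ≤ Y.rg := hY.rg.1
  have y2 : Y.κ ≤ 101 / 100 * (1000 * ρ) := hY.κ.2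
  constructor <;> linarith

/-- the connections and the radius of locality are short against the displacements -/
theorem numR0k {E E' : En} {ρ τ D : ℝ} (hρ : 0 < ρ) (h : E.Nr (bE ρ τ)) (h' : E'.Nr (bE ρ τ)) (hD : 100000000 * ρ ≤ D) :
    19500000 * ρ + (E.k + E'.k) ≤ D ∧ 19500000 * ρ + E.k + E'.k ≤ D := by
  have hk : E.k = E.rk + E.f.r2 := rfl
  have hk' : E'.k = E'.rk + E'.f.r2 := rfl
  have a1 : E.rk ≤ 101 / 100 * (80 * ρ) := h.rk.2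
  have a3 : E.f.r2 ≤ 101 / 100 * (28500 * ρ) := h.f.r2.2
  have b1 : E'.rk ≤ 101 / 100 * (80 * ρ) := h'.rk.2
  have b3 : E'.f.r2 ≤ 101 / 100 * (28500 * ρ) := h'.f.r2.2
  exact ⟨by linarith, by linarith⟩

/-- **the windows of the rests and of the arcs are far** -/
theorem wd22 {P : Prm} {ρ τ : ℝ} (hρ : 0 < ρ) (hP : P.Ok) (h : P.p.Nr (bE ρ τ)) (h' : P.q.Nr (bE ρ τ)) :
    (1000000000 * ρ ≤ P.W.D0 ∧ 1000000000 * ρ ≤ P.Wc.D0) ∧ 1000000000 * ρ ≤ (P.wd P.W).D0 ∧ 1000000000 * ρ ≤ (P.wd P.Wc).D0 := by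
  have hk : P.p.k = P.p.rk + P.p.f.r2 := rfl
  have hk' : P.q.k = P.q.rk + P.q.f.r2 := rfl
  have a0 : (P.wd P.W).D0 = P.W.D0 - (P.p.k + P.q.k) := rfl
  have a0' : (P.wd P.Wc).D0 = P.Wc.D0 - (P.p.k + P.q.k) := rfl
  have a1 : P.p.rk ≤ 101 / 100 * (80 * ρ) := h.rk.2
  have a3 : P.p.f.r2 ≤ 101 / 100 * (28500 * ρ) := h.f.r2.2
  have b1 : P.q.rk ≤ 101 / 100 * (80 * ρ) := h'.rk.2
  have b3 : P.q.f.r2 ≤ 101 / 100 * (28500 * ρ) := h'.f.r2.2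
  have c1 : 60000000 * ρ ≤ P.p.s.len := h.s.len.1
  have c2 : 60000000 * ρ ≤ P.q.s.len := h'.s.len.1
  have d1 := hP.nr
  have d2 := hP.nrc
  exact ⟨⟨by linarith, by linarith⟩, by linarith, by linarith⟩

/-- 64: the hypotheses of `FgR.hpg` -/
theorem numHpg {E : En} {ρ τ ε : ℝ} (hρ : 0 < ρ) (h : E.Nr (bE ρ τ)) (h1 : ε ≤ 1 / 100000000) :
    3 / 5 ≤ E.n.c ∧ ε * (E.s.len + E.s.hw) ≤ E.f.m / 4 := by
  have a1 : 16/25 ≤ E.n.c := h.n.c.1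
  have a2 : 11400 * ρ ≤ E.f.m := h.f.m.1
  have a3 : 60000000 * ρ ≤ E.s.len := h.s.len.1
  have a4 : E.s.len ≤ 101 / 100 * (60000000 * ρ) := h.s.len.2
  have a5 : 1000 * ρ ≤ E.s.hw := h.s.hw.1
  have a6 : E.s.hw ≤ 101 / 100 * (1000 * ρ) := h.s.hw.2
  have a7 : ε * (E.s.len + E.s.hw) ≤ 1 / 100000000 * (E.s.len + E.s.hw) := mul_le_mul_of_nonneg_right h1 (by linarith)
  exact ⟨by linarith, by linarith⟩

end Pool.Agent.ROT.F3
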