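import Pool.Agent.ROT.F3LrF
import Pool.Agent.ROT.F3MO
import Pool.Agent.ROT.F3GenX1
import Pool.Agent.ROT.F3NumG22
import Pool.Agent.ROT.F3NumY22

/-!
# ROT, F3, row D49 (helper94): locality of the foreign gates of all members (the field `l1` of `GenO`)

* **`memL_f`** : helper31's `MemL` for all members of the foreign family, with helper22's numbers (`GNum`).
-/

set_option autoImplicit false

open MeasureTheory Filter Topology Set unitInterval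

namespace Pool.Agent.ROT.F3E

open Pool.Agent.ROT.F (QB)
open Pool.Agent.ROT.F3 Pool.Agent.ROT.F3.CK Pool.Agent.ROT.F3.LR
open Pool.Agent.ROT.F3.LF (Cv Lm Ev bi)

variable {V : Ultrafilter ℕ} {bb : ℝ} {PG : Measure CC.Gm} {S : ℕ → ℝ} {c0 ρ τ t0 Rm : ℝ} {P : Prm} {K1 : Bool → F3.GP}
  {F0 F1 : Bool → Fin 3 → Ga} {y : Bool → Fin 3 → Arm → ℕ → W3 × ℕ → ℝ}

/-- **the foreign gates of all members are local**, over the functional thresholds -/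
theorem memL_f (hQB : QB) (he : Env V bb PG S c0 ρ t0) (hP : P.Ok) (hp : P.p.Nr (bE ρ τ)) (hq : P.q.Nr (bE ρ τ))
    (hu : ‖P.u - 1‖ ≤ 1 / 100000000) (hF : FamF V bb PG S c0 ρ P K1 y F1) (hT : Thr V bb PG P F0 Rm y) :
    ∀ (E : Bool) (x : Fin 3), ∃ z Dd R R2 R3 lo hi rl sl rr sr : ℝ,
      GNum (enB P E) ‖P.u - 1‖ z Dd (19500000 * ρ) R R2 R3 lo hi rl sl rr sr ∧
      (∀ E', (enB P E').n.r + (enB P E').n.r2 ≤ z) ∧ (∀ a, Dd ≤ (P.wd (wnA P a)).D0) ∧ 1004 * R2 + z ≤ 19500000 * ρ ∧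
      1004 * R3 + z ≤ 19500000 * ρ ∧ ∃ (X1 : Set CC.Gm) (Xc Xx Xy : Arm → CC.Gm → ℝ),
        (∀ᵐ h ∂PG, c0 < ‖h.2.2 (pji (muG h))‖ → h ∈ X1) ∧
        MemL R R2 R3 z lo hi rl sl rr sr (rS (-dxB E x)) (K1 E) (F1 E x) (fun κ h => axM P F0 Rm E x κ (rotX P.u h)) X1 Xc Xx Xy := by
  intro E x
  have hρ := he.ρ0
  obtain ⟨Xc, Xx, Xy, Gs, h1, h2⟩ := memF1 hQB he.bb0 he.V0 he.cv he.pos he.S0 he.S1 hρ he.sc (by linarith [he.c1]) hp hq hF E x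
    (β := fun κ h => axM P F0 Rm E x κ (rotX P.u h)) (fun κ => hT.lm E x κ) (lo := 58 * ρ) (hi := 85 * ρ) (by linarith)
  obtain ⟨-, w1, w2⟩ := wd22 hρ hP hp hq
  refine ⟨2172 / 100 * ρ, 19500000 * ρ, 225 * ρ, 19350 * ρ, 19350 * ρ, 58 * ρ, 85 * ρ, 425 / 2 * ρ, 115141 / 2 * ρ, 81 * ρ, 28870 * ρ,
    gNum22 hρ (enB_nr hp hq E) hu (by positivity) le_rfl le_rfl, fun E' => gNum22z hρ (enB_nr hp hq E'), fun a => ?_, by linarith,
    by linarith, {h | h ∈ Gs ∧ c0 < ‖h.2.2 (pji (muG h))‖}, Xc, Xx, Xy, h1.mono fun h hh hc => ⟨hh, hc⟩, ?_⟩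
  · unfold wnA
    split_ifs
    · linarith
    · linarith
  · obtain ⟨a1, a2, a3⟩ := h2 {h | h ∈ Gs ∧ c0 < ‖h.2.2 (pji (muG h))‖} (fun h hh => hh.1) (fun h hh => hh.2) (2172 / 100 * ρ)
      (425 / 2 * ρ) (115141 / 2 * ρ) (81 * ρ) (28870 * ρ) (by linarith) (by linarith) (by linarith) (by linarith) (by linarith)
      (by linarith) (by linarith)
    exact ⟨a1, a2, a3⟩

end Pool.Agent.ROT.F3E
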