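import Pool.Agent.ROT.F3GenM
import Pool.Agent.ROT.F3JmU

/-!
# ROT, block F3, row GEN (helper71): the times of the gates of all members, almost everywhere

* **`mo_ae`** : `Ga.Un` of the native gates and of the turned foreign gates, their times are in `[0, 1]`.
-/

set_option autoImplicit false

open MeasureTheory Filter Topology Set unitInterval

namespace Pool.Agent.ROT.F3E

open Pool.Agent.ROT.F3 Pool.Agent.ROT.F3.CK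
open Pool.Agent.ROT.F3.LF (Cv Lm Ev bi)

section

variable {V : Ultrafilter ℕ} {bb : ℝ} {PG : Measure CC.Gm} {S : ℕ → ℝ} {c0 ρ : ℝ} {P : Prm} {K0 K1 : Bool → F3.GP}
  {F0 F1 : Bool → Fin 3 → Ga} {y : Bool → Fin 3 → Arm → ℕ → W3 × ℕ → ℝ}

lemma FamN.un (hC : Cv (V : Filter ℕ) (fun N => mwE N bb) cN PG) (h : FamN V bb PG S c0 ρ P K0 F0) (E : Bool) (x : Fin 3) :
    ∀ᵐ g ∂PG, (F0 E x).Un g := un_ae hC (ain_iff.2 fun κ => h.ai E x κ)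

lemma FamF.un (hC : Cv (V : Filter ℕ) (fun N => mwE N bb) cN PG) (h : FamF V bb PG S c0 ρ P K1 y F1) (E : Bool) (x : Fin 3) :
    ∀ᵐ g ∂PG, (F1 E x).Un g := un_ae hC (ain_iff.2 fun κ => h.ai E x κ)

lemma FamN.t01 (hC : Cv (V : Filter ℕ) (fun N => mwE N bb) cN PG) (h : FamN V bb PG S c0 ρ P K0 F0) (E : Bool) (x : Fin 3) :
    ∀ᵐ g ∂PG, ∀ κ, (F0 E x).tc κ g ∈ Icc (0 : ℝ) 1 ∧ (F0 E x).tx κ g ∈ Icc (0 : ℝ) 1 := tm01_ae hC (ain_iff.2 fun κ => h.ai E x κ)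

lemma FamF.t01 (hC : Cv (V : Filter ℕ) (fun N => mwE N bb) cN PG) (h : FamF V bb PG S c0 ρ P K1 y F1) (E : Bool) (x : Fin 3) :
    ∀ᵐ g ∂PG, ∀ κ, (F1 E x).tc κ g ∈ Icc (0 : ℝ) 1 ∧ (F1 E x).tx κ g ∈ Icc (0 : ℝ) 1 := tm01_ae hC (ain_iff.2 fun κ => h.ai E x κ)

/-- **the times of the gates of all members** -/
theorem mo_ae (hC : Cv (V : Filter ℕ) (fun N => mwE N bb) cN PG) (hu : ‖P.u‖ = 1) (hPz : PG.map (rotX P.u) = PG)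
    (h0 : FamN V bb PG S c0 ρ P K0 F0) (h1 : FamF V bb PG S c0 ρ P K1 y F1) :
    (∀ᵐ g ∂PG, ∀ E x, (F0 E x).Un g) ∧ (∀ᵐ g ∂PG, ∀ E x, ((F1 E x).rot P.u).Un g) ∧
      ∀ᵐ g ∂PG, ∀ E x κ, (F0 E x).tx κ g ∈ Icc (0 : ℝ) 1 ∧ (F0 E x).tc κ g ∈ Icc (0 : ℝ) 1 ∧
        ((F1 E x).rot P.u).tx κ g ∈ Icc (0 : ℝ) 1 ∧ ((F1 E x).rot P.u).tc κ g ∈ Icc (0 : ℝ) 1 := by
  refine ⟨ae_all_iff.2 fun E => ae_all_iff.2 fun x => h0.un hC E x, ae_all_iff.2 fun E => ae_all_iff.2 fun x =>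
    (un_rot hu hPz (h1.un hC E x)).mono fun _ h => h.2, ae_all_iff.2 fun E => ae_all_iff.2 fun x => ?_⟩
  filter_upwards [h0.t01 hC E x, tm01_rot hu hPz (h1.t01 hC E x)] with g a1 a2 κ
  exact ⟨(a1 κ).2, (a1 κ).1, (a2 κ).2, (a2 κ).1⟩

end

end Pool.Agent.ROT.F3E
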