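import Pool.Agent.ROT.F3NugD
import Pool.Agent.ROT.F3NulP
import Pool.Agent.ROT.F3GenM

/-!
# ROT, block F3, row NUL (U) (helper68): the fields `fr`, `ne` in the objects of the row GEN

* `Thr.pos` : the functional thresholds are positive on the connections;
* **`nul_hU`** : `hU` from `RN`, `RF` for `P`, the cells of the members of the family, the soft parameters of the functional class;
* **`nul_fr`** : the field `fr` for one `P` from `NulO`; `nul_ne` : the field `ne`.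
-/

set_option autoImplicit false
set_option linter.unusedSectionVars false

open Set Filter Topology MeasureTheory unitInterval

open scoped NNReal ENNReal

namespace Pool.Agent.ROT.F3.NW

open Pool.Agent.ROT.F3 Pool.Agent.ROT.F3.CC Pool.Agent.ROT.F3.CK Pool.Agent.ROT.F3.LF Pool.Agent.ROT.F3.Nul Pool.Agent.ROT.F3E

section

variable {U : Ultrafilter ℕ} {bb : ℝ} {PG : Measure CC.Gm} {S : ℕ → ℝ} {P : Prm} {i j : Fin 3} {t0 c0 ρ τ Rm : ℝ}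

lemma xai_aix4 (s : Fin 4) : aix (xai s) = s := by fin_cases s <;> rfl

/-- **the functional thresholds are positive on the connections** -/
lemma thr_pos {F0 : Bool → Fin 3 → Ga} {y : Bool → Fin 3 → Arm → ℕ → W3 × ℕ → ℝ} (h : Thr U bb PG P F0 Rm y) (i j : Fin 3) (H : Ga) :
    ∀ᵐ g ∂PG, g ∈ jEp P i j (prG F0 i j) H → g ∈ jEq P i j (prG F0 i j) H → ∀ s, 0 < axF P i j (prG F0 i j) Rm g s := by
  have h1 : ∀ᵐ g ∂PG, ∀ k : Arm, g ∈ (prG F0 i j).B k → 0 < axM P F0 Rm (eA k) (clA i j k) k g :=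
    ae_all_iff.2 fun k => (h.ax (eA k) (clA i j k) k).mono fun g hg hB => (hg hB).1
  filter_upwards [h1] with g hg hp hq s
  rw [axM_eq]
  refine hg (xai s) ?_
  fin_cases s
  · exact hp.1.e
  · exact hp.2.1.e
  · exact hq.1.e
  · exact hq.2.1.e

variable {a : ObN} {b : ObF} {QQ : ℕ → Prm} {Kq : ℕ → Bool → F3.GP} {Fq : ℕ → ℕ → ℕ → Bool → Fin 3 → Ga}

/-- **the hypothesis `hU` from the objects** -/
theorem nul_hU {z : ℂ} {B : Gn.Bx} {R : Prm → Prop} (hC : Cv (U : Filter ℕ) (fun N => mwE N bb) cN PG)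
    (hP0 : ∀ᵐ y ∂PG, 0 < y.1) (hU : (U : Filter ℕ) ≤ atTop) (hS : ∀ᶠ N : ℕ in U, S N = N) (hc0 : 0 ≤ c0)
    (hPz : PG.map (rotX P.u) = PG) (hρ : 0 < ρ) (hSc : Sc U bb S c0 ρ)
    (hBx : ∀ P, B.In z P → P.Ok ∧ P.p.Nr (bE ρ τ) ∧ P.q.Nr (bE ρ τ)) (hP : B.In z P) (hij : i ≠ j)
    (hQF : Gn.QF (.p (.f .l)) z B R P QQ) (ha : RN U bb PG S c0 ρ Rm a P) (hb : RF U bb PG S c0 ρ t0 a b P)
    (hq : ∀ q m n, FamF U bb PG S c0 ρ (QQ q) (Kq q) (fun E _ κ _ _ => lvB (QQ q) t0 m n E κ) (Fq q m n))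
    (nR : ClN PG (jDR P i j) (prG b.F1 i j)) (mR : i = 0 → MnN PG (jDR P i j) P.p.s P.q.s (prG b.F1 i j)) :
    ∀ᵐ g ∂PG, g ∈ jKR P i j (prG b.F1 i j) → rotX P.u g ∈ jEp P i j (prG a.F0 i j) (prG b.F1 i j) →
      rotX P.u g ∈ jEq P i j (prG a.F0 i j) (prG b.F1 i j) → ∃ μ : ℝ, 0 < μ ∧
      ∀ n k, (∀ s, |lft t0 n (k s) - ((jDR P i j).l s + axF P i j (prG a.F0 i j) Rm (rotX P.u g) s)| < μ) →
        g ∈ jKR P i j (prG (b.Fl (ci n k) (cj n k)) i j) ∧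
          ∀ q, prD P (QQ q) < μ → g ∈ jKR (QQ q) i j (prG (Fq q (ci n k) (cj n k)) i j) := by
  obtain ⟨ok, np, nq⟩ := hBx P hP
  have hK : ∀ k, ∃ r : AR, (fun k => b.K1 (eA k)) k = grF ρ ((jDR P i j).gtp k) r := by
    intro k
    obtain ⟨r, hr⟩ := hb.fam.gr (eA k)
    refine ⟨r, ?_⟩
    show b.K1 (eA k) = _
    rw [hr]
    cases k <;> rfl
  have sg : ∀ k, SGF U bb PG S c0 ρ k (trnA i j k) (fun N x => prY a.y i j N x (aix k)) ((fun k => b.K1 (eA k)) k) := by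
    intro k
    have h := hb.fam.sg (eA k) (clA i j k) k
    rw [← trnA_eA] at h
    have e : (fun N x => prY a.y i j N x (aix k)) = a.y (eA k) (clA i j k) k := by
      funext N x
      unfold prY
      rw [xai_aix]
    rw [e]
    exact h
  have gR := hb.fam.gal hρ np nq i j a.yn
  have yA := ha.thr.f i j
  have gl : ∀ m n, GaL (U : Filter ℕ) bb PG (jDR P i j) c0 (fun k => b.K1 (eA k)) (trnA i j) (fun _ _ => yv (jDR P i j) t0 m n)
      (prG (b.Fl m n) i j) := fun m n =>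
    (hb.cel m n).gal' hρ np nq i j (fun _ _ _ => lvB_eq _ _ _ _ _ _ _) fun _ _ _ => yv_nonneg _ _ _ _ _
  have gq : ∀ q m n, GaL (U : Filter ℕ) bb PG (jDR (QQ q) i j) c0 (fun k => Kq q (eA k)) (trnA i j)
      (fun _ _ => yv (jDR (QQ q) i j) t0 m n) (prG (Fq q m n) i j) := fun q m n =>
    (hq q m n).gal' hρ (hBx _ (hQF.win q)).2.1 (hBx _ (hQF.win q)).2.2 i j (fun _ _ _ => lvB_eq _ _ _ _ _ _ _)
      fun _ _ _ => yv_nonneg _ _ _ _ _
  have hA0 := thr_pos ha.thr i j (prG b.F1 i j)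
  exact hU_box (KR := fun k => b.K1 (eA k)) (y := prY a.y i j) (AF := axF P i j (prG a.F0 i j) Rm) (H := prG b.F1 i j)
    (G0 := prG a.F0 i j) (Hl := fun m n => prG (b.Fl m n) i j)
    (Kq := fun q k => Kq q (eA k)) (Hq := fun q m n => prG (Fq q m n) i j) hC hP0 hU hS hc0 hPz hρ hSc hBx hP hij hQF hK
    gR sg yA gl gq nR mR hA0

end

section row

variable {V : Ultrafilter ℕ} {bb : ℝ} {PG : Measure CC.Gm} {S : ℕ → ℝ} {t0 c0 ρ τ Rm : ℝ} {z : ℂ} {B : Gn.Bx} {O : Type*}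
  {RO : O → Prm → Prop} {Fo : O → ℕ → ℕ → Bool → Fin 3 → Ga} {P : Prm} {QQ : ℕ → Prm} {oq : ℕ → O} {i j : Fin 3} {a : ObN} {b : ObF}

/-- **the field `fr` from the objects** -/
theorem nul_fr (K : NulO PG t0 z B RO (fun o i j m n => prG (Fo o m n) i j) (fun i j => axF P i j (prG a.F0 i j) Rm) P QQ oq)
    (hC : Cv (V : Filter ℕ) (fun N => mwE N bb) cN PG) (hP0 : ∀ᵐ y ∂PG, 0 < y.1) (hV : (V : Filter ℕ) ≤ atTop)
    (hS : ∀ᶠ N : ℕ in V, S N = N) (hc0 : 0 ≤ c0) (hPz : PG.map (rotX P.u) = PG) (hρ : 0 < ρ) (hSc : Sc V bb S c0 ρ)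
    (hBx : ∀ P, B.In z P → P.Ok ∧ P.p.Nr (bE ρ τ) ∧ P.q.Nr (bE ρ τ)) (hP : B.In z P) (hij : i ≠ j) (hj : j ≠ 0)
    (hRO : ∀ o P, B.In z P → RO o P → (∃ K1, ∀ m n, FamF V bb PG S c0 ρ P K1 (fun E _ κ _ _ => lvB P t0 m n E κ) (Fo o m n)) ∧
      SubR (V : Filter ℕ) bb PG t0 P fun i j m n => prG (Fo o m n) i j)
    (ha : RN V bb PG S c0 ρ Rm a P) (hb : RF V bb PG S c0 ρ t0 a b P)
    (nR : ClN PG (jDR P i j) (prG b.F1 i j)) (mR : i = 0 → MnN PG (jDR P i j) P.p.s P.q.s (prG b.F1 i j))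
    (sub : ∀ m n, LvO (V : Filter ℕ) (fun N => mwE N bb) cN PG (jDR P i j) (acl P i) (acl P j) (fun _ _ => yv (jDR P i j) t0 m n)
      (fun g => bi (g ∈ jKR P i j (prG (b.Fl m n) i j)))
      (phi8 (prG (b.Fl m n) i j).B (prG (b.Fl m n) i j).c (prG (b.Fl m n) i j).x)
      (lamF (jDR P i j) (phi8 (prG (b.Fl m n) i j).B (prG (b.Fl m n) i j).c (prG (b.Fl m n) i j).x))) :
    ∀ᵐ g ∂PG, jwR P i j (prG b.F1 i j) g ≠ 0 → g ∈ jEp P i j (prG a.F0 i j) (prG b.F1 i j) →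
      g ∈ jEq P i j (prG a.F0 i j) (prG b.F1 i j) → ∀ᶠ n in atTop, ∀ k : Fin 4 → ℤ,
      (k = fun s => kn t0 n ((jDR P i j).l s + axF P i j (prG a.F0 i j) Rm g s)) →
        rotX P.u⁻¹ g ∈ jKR P i j (prG (b.Fl (ci n k) (cj n k)) i j) ∧
        ∀ s, lft t0 n (k s + 1) <
          lamF (jDR P i j) (phi8 (prG (b.Fl (ci n k) (cj n k)) i j).B (prG (b.Fl (ci n k) (cj n k)) i j).c
            (prG (b.Fl (ci n k) (cj n k)) i j).x) (rotX P.u⁻¹ g) s := by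
  choose Kq hq using fun q => (hRO (oq q) (QQ q) (K.qf.win q) (K.ro q)).1
  exact K.fr (Hl := fun m n => prG (b.Fl m n) i j) hV hC hBx hP hPz hij hj (fun o P hP hr => (hRO o P hP hr).2) sub
    (thr_pos ha.thr i j _) (nul_hU hC hP0 hV hS hc0 hPz hρ hSc hBx hP hij K.qf ha hb hq nR mR)

/-- **the field `ne` from the objects** -/
theorem nul_ne (K : NulO PG t0 z B RO (fun o i j m n => prG (Fo o m n) i j) (fun i j => axF P i j (prG a.F0 i j) Rm) P QQ oq)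
    (hP : B.In z P) (ok : P.Ok) (hPz : PG.map (rotX P.u) = PG) (hij : i ≠ j) (hj : j ≠ 0) :
    ∀ᵐ g ∂PG, ∀ (s : Fin 4) (n : ℕ) (k : ℤ), (jDR P i j).l s + axF P i j (prG a.F0 i j) Rm g s ≠ lft t0 n k :=
  K.ne hP ok.u hPz hij hj

end row

end Pool.Agent.ROT.F3.NW
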