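import Pool.Agent.ROT.F3GenY0
import Pool.Agent.ROT.F3GenZ1
import Pool.Agent.ROT.F3GenO4
import Pool.Agent.ROT.F3MoAe
import Pool.Agent.ROT.F3LrZ
import Pool.Agent.ROT.F3LrY
import Pool.Agent.ROT.F3LrH
import Pool.Agent.ROT.F3JmP
import Pool.Agent.ROT.F3JmN
import Pool.Agent.ROT.F3NugE

/-!
# ROT, block F3, row GEN (helper62): the lemma for one `P`

* `aeO_of` : what is known almost everywhere about the gates of all members; `pc_of` : the limit objects of the pairs;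
* **`oneP`** : `OneP z` (helper11); **`genRow`** : the generic row.
-/

set_option autoImplicit false

noncomputable section

open MeasureTheory Filter Topology Set unitInterval
open scoped ENNReal NNReal

namespace Pool.Agent.ROT.F3E

open Pool.Agent.ROT.F (QB)
open Pool.Agent.ROT.F3 Pool.Agent.ROT.F3.CK
open Pool.Agent.ROT.F3.LF (Cv Lm Ev bi)
open Pool.Agent.ROT.F3.NW (NulO SubR)
open Pool.Agent.ROT.F3.Gn (Bx)

section

variable {V : Ultrafilter ℕ} {bb : ℕ} {c0 ρ τ t0 : ℝ} {z : ℂ} {B : Bx}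

/-- **what is known almost everywhere** -/
theorem aeO_of (h1 : ‖z - 1‖ ≤ 1 / 100000000) (hE : Env V bb (PGl V bb) S1 c0 ρ t0) (hB : GBx z ρ τ B) {P : Prm} (hP : B.In z P)
    {a : ObN} {b : ObF} (ha : RN V bb (PGl V bb) S1 c0 ρ (42 * ρ) a P) (hb : RF V bb (PGl V bb) S1 c0 ρ t0 a b P)
    (hS : SoftN (PGl V bb) P a b) :
    AeO V P (PGl V bb) ρ bb t0 c0 (42 * ρ) a.K0 b.K1 a.F0 b.F1 a.y fun i j m n => prG (b.Fl m n) i j := by
  have ok := (hB P hP).1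
  have hn := (hB P hP).2
  have hPz := hE.inv P.u ok.u
  have hu1 : ‖P.u - 1‖ ≤ 1 / 100000000 := by
    rw [hn.u]
    exact h1
  obtain ⟨m1, m2, m3⟩ := mo_ae hE.cv ok.u hPz ha.fam hb.fam
  exact
    { pk := pk_obj hE.V0 hE.cv hE.pos1 ok hPz hE.ρ0 hn.p hn.q ha hb (numK_rm hE h1 hB hP ha hb) hS
      one := fun X mX aeX z0 E c => one_obj hE ok hn h1 ha hb mX aeX z0 E c
      ms0 := ha.fam.ms
      ms1 := hb.fam.ms
      pos := (pgl_ae hE.V0 bb).mono fun g hg => ⟨hg.1.1, hg.1.2.1, hg.2.1.1, hg.2.1.2⟩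
      un0 := m1
      un1 := m2
      t01 := m3
      ax := ae_all_iff.2 fun E => ae_all_iff.2 fun c => ae_all_iff.2 fun κ => ha.thr.ax E c κ
      fr0 := ae_all_iff.2 fun E => ae_all_iff.2 fun c => ae_all_iff.2 fun κ => ev_far hE.cv hE.pos1 hE.far (ha.fam.ai E c κ).ev
      fr1 := ae_all_iff.2 fun E => ae_all_iff.2 fun c => ae_all_iff.2 fun κ =>
        ev_farR hE.cv hE.pos1 hE.far ok.u hPz (hb.fam.ai E c κ).ev
      l1 := memL_f F.qb hE ok hn.p hn.q hu1 hb.fam ha.thr }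

/-- **the limit objects of the pairs** -/
theorem pc_of (h1 : ‖z - 1‖ ≤ 1 / 100000000) (hE : Env V bb (PGl V bb) S1 c0 ρ t0) (hB : GBx z ρ τ B) {P : Prm} (hP : B.In z P)
    {a : ObN} {b : ObF} {QQ : ℕ → Prm} {oq : ℕ → ObN × ObF} (ha : RN V bb (PGl V bb) S1 c0 ρ (42 * ρ) a P)
    (hb : RF V bb (PGl V bb) S1 c0 ρ t0 a b P)
    (hN : NulO (PGl V bb) t0 z B (RM V bb (PGl V bb) S1 c0 ρ t0 (42 * ρ)) HM (fun i j => axF P i j (prG a.F0 i j) (42 * ρ)) P QQ oq)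
    (hS : SoftN (PGl V bb) P a b) {i j : Fin 3} (hij : i ≠ j) (hj : j ≠ 0) :
    ∃ Gd, PkC V bb (PGl V bb) P i j t0 (prG a.F0 i j) (prG b.F1 i j) (fun m n => prG (b.Fl m n) i j) (prY a.y i j)
      (axF P i j (prG a.F0 i j) (42 * ρ)) Gd := by
  have ok := (hB P hP).1
  have hn := (hB P hP).2
  have hPz := hE.inv P.u ok.u
  have hρ := hE.ρ0
  have num := numK_rm hE h1 hB hP ha hb
  have pk := pk_obj hE.V0 hE.cv hE.pos1 ok hPz hE.ρ0 hn.p hn.q ha hb num hS i j hij hj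
  have sub : ∀ o P, B.In z P → RM V bb (PGl V bb) S1 c0 ρ t0 (42 * ρ) o P → SubR (V : Filter ℕ) bb (PGl V bb) t0 P (HM o) :=
    sub_m hE h1 hB
  have hM : RM V bb (PGl V bb) S1 c0 ρ t0 (42 * ρ) (a, b) P := ⟨ha, hb, hS⟩
  have s1 := sub (a, b) P hP hM i j hij hj
  refine pkC_fam (T := fun E a => rS (-dxB E a)) ok hPz hE.pos ((pgl_ae hE.V0 bb).mono fun g hg => hg.2.1) pk (num.cf i j)
    (fun E => numB22 (rl := 41 / 20 * ρ) (sl := 829 / 20 * ρ) (sl' := 829 / 20 * ρ) (rr := 101 / 50 * ρ) (sr := 2071 / 50 * ρ) hρ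
      (enB_nr hn.p hn.q E).n (by linarith) (by linarith) (by linarith) (by linarith) (by linarith))
    (fun E c κ => natM F.qb hE hn.p hn.q ha.fam E c κ) ?_ ?_
  · exact NW.nul_ne (Fo := fun o : ObN × ObF => o.2.Fl) hN hP ok hPz hij hj
  · exact NW.nul_fr (Fo := fun o : ObN × ObF => o.2.Fl) hN hE.cv hE.pos1 hE.V0 hE.S1 (by have := hE.c1; linarith) hPz hρ hE.sc
      (fun P hP => ⟨(hB P hP).1, (hB P hP).2.p, (hB P hP).2.q⟩) hP hij hj (fun o P hP ho => ⟨⟨_, ho.rf.cel⟩, sub o P hP ho⟩) ha hb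
      (hS i j hij).2.1 (hS i j hij).2.2.2.1 fun m n => s1 m n

/-- **THE LEMMA FOR ONE `P`** -/
theorem oneP (h1 : ‖z - 1‖ ≤ 1 / 100000000) : OneP z := by
  intro V bb c0 ρ τ t0 B hE hτ hB P hP hL a b QQ oq ha hb hN hS
  have ok := (hB P hP).1
  have hn := (hB P hP).2
  obtain ⟨X, hX⟩ := preO_ex (τ := τ) (aeO_of h1 hE hB hP ha hb hS) ok (hE.inv P.u ok.u)
  exact ⟨X, hX.gen (gt_all ok hX.pos hX.un0 hX.un1 hX.jh hX.ax hX.fr0 (fun E => hb.fam.ok hE.ρ0 hn.p hn.q E) hX.l1)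
    fun k => pc_of h1 hE hB hP ha hb hN hS (CC.fA_ne k) (fB_ne0 k)⟩

end

/-- **THE GENERIC ROW** -/
theorem genRow {z : ℂ} (hz : ‖z‖ = 1) (h1 : ‖z - 1‖ ≤ 1 / 100000000) : GenRow z := genRow1 hz h1 (oneP h1)

end Pool.Agent.ROT.F3E
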