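import Pool.Agent.ROT.F3MO
import Pool.Agent.ROT.F3K3U
import Pool.Agent.ROT.F3K3V
import Pool.Agent.ROT.F3Fin6b

/-!
# ROT, block F3, row GEN (helper62): the good curves of one `P`

* `good_ex` : a measurable full set on which a statement holds which is true almost everywhere; `MemL.mono`;
* **`AeO`** : what is known almost everywhere about the gates of all members; **`genO_ae`** : `GenO` from `AeO`, for a measurable full set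
  of good curves.
-/

set_option autoImplicit false

noncomputable section

open MeasureTheory Filter Topology Set unitInterval
open scoped ENNReal NNReal

namespace Pool.Agent.ROT.F3E

open Pool.Agent.ROT.F3 Pool.Agent.ROT.F3.CC Pool.Agent.ROT.F3.CK Pool.Agent.ROT.F3.LF Pool.Agent.ROT.F3.LR Pool.Agent.ROT.F3.Bt

/-- a measurable full set on which a statement holds -/
lemma good_ex {PG : Measure CC.Gm} {p : CC.Gm → Prop} (h : ∀ᵐ g ∂PG, p g) :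
    ∃ X : Set CC.Gm, MeasurableSet X ∧ (∀ᵐ g ∂PG, g ∈ X) ∧ ∀ g ∈ X, p g := by
  refine ⟨(toMeasurable PG {g | ¬ p g})ᶜ, (measurableSet_toMeasurable _ _).compl, ?_, fun g hg => ?_⟩
  · have h1 : PG (toMeasurable PG {g | ¬ p g}) = 0 := by
      rw [measure_toMeasurable]
      exact h
    filter_upwards [measure_eq_zero_iff_ae_notMem.1 h1] with g hg
    exact hg
  · by_contra hc
    exact hg (subset_toMeasurable _ _ hc)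

/-- fewer curves -/
lemma locS_anti {R R2 z f lo hi rl sl rr sr : ℝ} {T T' : LSym} {k k' : Arm} {X X' Y Y' : Set CC.Gm} {β Xc Xx β' Xc' Xx' : CC.Gm → ℝ}
    (h : LR.LocS R R2 z f lo hi rl sl rr sr T k X β Xc Xx T' k' X' β' Xc' Xx') (hX : Y ⊆ X) (hX' : Y' ⊆ X') :
    LR.LocS R R2 z f lo hi rl sl rr sr T k Y β Xc Xx T' k' Y' β' Xc' Xx' :=
  fun g hg g' hg' => h g (hX hg) g' (hX' hg')

lemma MemL.anti {R R2 R3 z lo hi rl sl rr sr : ℝ} {T : LSym} {G : F3.GP} {F : Ga} {b : Arm → CC.Gm → ℝ} {X Y : Set CC.Gm}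
    {Xc Xx Xy : Arm → CC.Gm → ℝ} (h : MemL R R2 R3 z lo hi rl sl rr sr T G F b X Xc Xx Xy) (hX : Y ⊆ X) :
    MemL R R2 R3 z lo hi rl sl rr sr T G F b Y Xc Xx Xy :=
  ⟨fun κ g hg => h.gm κ g (hX hg), fun κ κ' => locS_anti (h.lx κ κ') hX hX, fun κ κ' => locS_anti (h.ly κ κ') hX hX⟩

/-- **what is known almost everywhere** about the gates of all members -/
structure AeO (V : Ultrafilter ℕ) (P : Prm) (PG : Measure CC.Gm) (ρ : ℝ) (bb : ℕ) (t0 c0 Rm : ℝ) (K0 K1 : Bool → F3.GP)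
    (F0 F1 : Bool → Fin 3 → Ga) (y : Bool → Fin 3 → Arm → ℕ → W3 × ℕ → ℝ) (Hl : Fin 3 → Fin 3 → ℕ → ℕ → Ga) : Prop where
  pk : ∀ i j, i ≠ j → j ≠ 0 → Pk (V : Filter ℕ) bb PG P i j t0 c0 (fun κ => K0 (eA κ)) (fun κ => K1 (eA κ)) (prG F0 i j)
    (prG F1 i j) (Hl i j) (prY y i j) (axF P i j (prG F0 i j) Rm)
  one : ∀ X : Set CC.Gm, MeasurableSet X → (∀ᵐ g ∂PG, g ∈ X) → (∀ g ∈ X, g.2.2 0 = 0) → ∀ E a,
    OneIn (V : Filter ℕ) bb PG (dxB E a) P.u (enB P E) c0 X (K0 E) (K1 E) (y E a .fp)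
      (fun h => axM P F0 Rm E a .fp (rotX P.u h)) ((F0 E a).B .fp) ((F1 E a).B .fp) ((F0 E a).c .fp) ((F0 E a).x .fp)
      ((F1 E a).c .fp) ((F1 E a).x .fp)
  ms0 : ∀ E a, (F0 E a).Ms
  ms1 : ∀ E a, (F1 E a).Ms
  pos : ∀ᵐ g ∂PG, 0 < g.2.1 ∧ g.2.1 < g.1 ∧ g.2.2 0 = 0 ∧ g.2.2 1 = 0
  un0 : ∀ᵐ g ∂PG, ∀ E a, (F0 E a).Un g
  un1 : ∀ᵐ g ∂PG, ∀ E a, ((F1 E a).rot P.u).Un g
  t01 : ∀ᵐ g ∂PG, ∀ E a κ, (F0 E a).tx κ g ∈ Icc (0 : ℝ) 1 ∧ (F0 E a).tc κ g ∈ Icc (0 : ℝ) 1 ∧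
    ((F1 E a).rot P.u).tx κ g ∈ Icc (0 : ℝ) 1 ∧ ((F1 E a).rot P.u).tc κ g ∈ Icc (0 : ℝ) 1
  ax : ∀ᵐ g ∂PG, ∀ E a κ, g ∈ (F0 E a).B κ → 0 < axM P F0 Rm E a κ g ∧
    lv (P.u * ev (dxB E a)) (g.2.2 ((F0 E a).ix κ g) - g.2.2 (rtA κ g)) = axM P F0 Rm E a κ g
  fr0 : ∀ᵐ g ∂PG, ∀ E a κ, g ∈ (F0 E a).B κ → c0 < ‖g.2.2 (pji (muG g))‖
  fr1 : ∀ᵐ g ∂PG, ∀ E a κ, g ∈ ((F1 E a).rot P.u).B κ → c0 < ‖g.2.2 (pji (muG g))‖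
  l1 : ∀ E a, ∃ z Dd R R2 R3 lo hi rl sl rr sr : ℝ, GNum (enB P E) ‖P.u - 1‖ z Dd (19500000 * ρ) R R2 R3 lo hi rl sl rr sr ∧
    (∀ E', (enB P E').n.r + (enB P E').n.r2 ≤ z) ∧ (∀ a, Dd ≤ (P.wd (wnA P a)).D0) ∧ 1004 * R2 + z ≤ 19500000 * ρ ∧
    1004 * R3 + z ≤ 19500000 * ρ ∧ ∃ (X1 : Set CC.Gm) (Xc Xx Xy : Arm → CC.Gm → ℝ),
      (∀ᵐ h ∂PG, c0 < ‖h.2.2 (pji (muG h))‖ → h ∈ X1) ∧
      MemL R R2 R3 z lo hi rl sl rr sr (rS (-dxB E a)) (K1 E) (F1 E a) (fun κ h => axM P F0 Rm E a κ (rotX P.u h)) X1 Xc Xx Xy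

/-- all the fields of `GenO` except `gt` and `pc` -/
structure PreO (V : Ultrafilter ℕ) (P : Prm) (D : MDat) (PG : Measure CC.Gm) : Prop where
  pk : ∀ i j, i ≠ j → j ≠ 0 → Pk (V : Filter ℕ) D.bb PG P i j D.t0 D.c0 (fun κ => D.K0 (eA κ)) (fun κ => D.K1 (eA κ)) (prG D.F0 i j)
    (prG D.F1 i j) (D.Hl i j) (prY D.y i j) (axF P i j (prG D.F0 i j) D.Rm)
  one : ∀ E a, OneIn (V : Filter ℕ) D.bb PG (dxB E a) P.u (enB P E) D.c0 D.X (D.K0 E) (D.K1 E) (D.y E a .fp)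
    (fun h => axM P D.F0 D.Rm E a .fp (rotX P.u h)) ((D.F0 E a).B .fp) ((D.F1 E a).B .fp) ((D.F0 E a).c .fp) ((D.F0 E a).x .fp)
    ((D.F1 E a).c .fp) ((D.F1 E a).x .fp)
  ms0 : ∀ E a, (D.F0 E a).Ms
  ms1 : ∀ E a, (D.F1 E a).Ms
  mX : MeasurableSet D.X
  aeX : ∀ᵐ g ∂PG, g ∈ D.X
  pos : ∀ g ∈ D.X, 0 < g.2.1 ∧ g.2.1 < g.1 ∧ g.2.2 0 = 0 ∧ g.2.2 1 = 0
  un0 : ∀ E a, ∀ g ∈ D.X, (D.F0 E a).Un g
  un1 : ∀ E a, ∀ g ∈ D.X, ((D.F1 E a).rot P.u).Un g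
  t01 : ∀ E a, ∀ g ∈ D.X, ∀ κ, (D.F0 E a).tx κ g ∈ Icc (0 : ℝ) 1 ∧ (D.F0 E a).tc κ g ∈ Icc (0 : ℝ) 1 ∧
    ((D.F1 E a).rot P.u).tx κ g ∈ Icc (0 : ℝ) 1 ∧ ((D.F1 E a).rot P.u).tc κ g ∈ Icc (0 : ℝ) 1
  jh : ∀ k, ∀ g ∈ D.X, JhIn P (fA k) (fB k) (D.G0 k) (D.H k) (fun κ g => D.A P k g (sA κ)) g
  ax : ∀ E a κ, ∀ g ∈ D.X, g ∈ (D.F0 E a).B κ → 0 < axM P D.F0 D.Rm E a κ g ∧
    lv (P.u * ev (dxB E a)) (g.2.2 ((D.F0 E a).ix κ g) - g.2.2 (rtA κ g)) = axM P D.F0 D.Rm E a κ g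
  fr0 : ∀ E a κ, ∀ g ∈ D.X, g ∈ (D.F0 E a).B κ → D.c0 < ‖g.2.2 (pji (muG g))‖
  fr1 : ∀ E a κ, ∀ g ∈ D.X, g ∈ ((D.F1 E a).rot P.u).B κ → D.c0 < ‖g.2.2 (pji (muG g))‖
  l1 : ∀ E a, ∃ z Dd R R2 R3 lo hi rl sl rr sr : ℝ, GNum (enB P E) ‖P.u - 1‖ z Dd (19500000 * D.ρ) R R2 R3 lo hi rl sl rr sr ∧
    (∀ E', (enB P E').n.r + (enB P E').n.r2 ≤ z) ∧ (∀ a, Dd ≤ (P.wd (wnA P a)).D0) ∧ 1004 * R2 + z ≤ 19500000 * D.ρ ∧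
    1004 * R3 + z ≤ 19500000 * D.ρ ∧ ∃ Xc Xx Xy : Arm → CC.Gm → ℝ,
      MemL R R2 R3 z lo hi rl sl rr sr (rS (-dxB E a)) (D.K1 E) (D.F1 E a) (fun κ h => axM P D.F0 D.Rm E a κ (rotX P.u h))
        {h | rotX P.u h ∈ D.Xf} Xc Xx Xy

/-- `GenO` from its parts -/
theorem PreO.gen {V : Ultrafilter ℕ} {P : Prm} {D : MDat} {PG : Measure CC.Gm} (h : PreO V P D PG)
    (gt : ∀ k κ k' κ', eA κ = eA κ' → clA (fA k) (fB k) κ = clA (fA k') (fB k') κ' →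
      GtLoc P (fA k) (fB k) (D.G0 k) ((D.H k).rot P.u) κ (fA k') (fB k') (D.G0 k') ((D.H k').rot P.u) κ' (19500000 * D.ρ)
        (D.Xk P k) (D.Xk P k'))
    (pc : ∀ k, ∃ Gd, PkC V D.bb PG P (fA k) (fB k) D.t0 (D.G0 k) (D.H k) (D.Hl (fA k) (fB k)) (prY D.y (fA k) (fB k))
      (D.A P k) Gd) : GenO V P D PG where
  pk := h.pk
  one := h.one
  ms0 := h.ms0
  ms1 := h.ms1
  mX := h.mX
  aeX := h.aeX
  pos := h.pos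
  un0 := h.un0
  un1 := h.un1
  t01 := h.t01
  jh := h.jh
  ax := h.ax
  fr0 := h.fr0
  fr1 := h.fr1
  l1 := h.l1
  gt := gt
  pc := pc

lemma fB_ne0 (k : Fin 3) : fB k ≠ 0 := by fin_cases k <;> decide

/-- **the good curves** -/
theorem preO_ex {V : Ultrafilter ℕ} {P : Prm} {PG : Measure CC.Gm} {ρ τ : ℝ} {bb : ℕ} {t0 c0 Rm : ℝ} {K0 K1 : Bool → F3.GP}
    {F0 F1 : Bool → Fin 3 → Ga} {y : Bool → Fin 3 → Arm → ℕ → W3 × ℕ → ℝ} {Hl : Fin 3 → Fin 3 → ℕ → ℕ → Ga}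
    (h : AeO V P PG ρ bb t0 c0 Rm K0 K1 F0 F1 y Hl) (ok : P.Ok) (hPz : PG.map (rotX P.u) = PG) :
    ∃ X : Set CC.Gm, PreO V P ⟨ρ, τ, bb, t0, c0, Rm, K0, K1, F0, F1, y, Hl, X⟩ PG := by
  have hz := ok.u
  have hP1 : ∀ᵐ g ∂PG, 0 < g.1 := h.pos.mono fun g hg => hg.1.trans hg.2.1
  -- the inputs of h5, h6
  have jh : ∀ᵐ g ∂PG, ∀ k : Fin 3, JhIn P (fA k) (fB k) (prG F0 (fA k) (fB k)) (prG F1 (fA k) (fB k))
      (fun κ g => axF P (fA k) (fB k) (prG F0 (fA k) (fB k)) Rm g (sA κ)) g := by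
    refine ae_all_iff.2 fun k => ?_
    have h1 := (h.pk (fA k) (fB k) (fA_ne k) (fB_ne0 k)).jh ok hz hPz hP1
    have e : (fun (κ : Arm) (g : CC.Gm) => axF P (fA k) (fB k) (prG F0 (fA k) (fB k)) Rm g (sA κ)) =
        fun κ g => axF P (fA k) (fB k) (prG F0 (fA k) (fB k)) Rm g (aix κ) := by
      funext κ g
      rw [sA_aix]
    rw [e]
    exact h1
  -- the sets of helper94, turned
  choose z Dd R R2 R3 lo hi rl sl rr sr n1 n2 n3 n4 n5 X1 Xc Xx Xy a1 m1 using h.l1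
  have hX1 : ∀ᵐ g ∂PG, ∀ E a, c0 < ‖g.2.2 (pji (muG g))‖ → rotX P.u⁻¹ g ∈ X1 E a := by
    refine ae_all_iff.2 fun E => ae_all_iff.2 fun a => ?_
    filter_upwards [ae_rotX hz hPz (a1 E a)] with g hg hc
    refine hg ?_
    have e : ‖(rotX P.u⁻¹ g).2.2 (pji (muG (rotX P.u⁻¹ g)))‖ = ‖g.2.2 (pji (muG g))‖ := by
      show ‖P.u⁻¹ * g.2.2 (pji (muG g))‖ = _
      rw [norm_mul, norm_inv, hz, inv_one, one_mul]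
    rw [e]
    exact hc
  obtain ⟨X, mX, aeX, hX⟩ := good_ex (h.pos.and (h.un0.and (h.un1.and (h.t01.and (jh.and (h.ax.and (h.fr0.and
    (h.fr1.and hX1))))))))
  refine ⟨X, h.pk, h.one X mX aeX fun g hg => (hX g hg).1.2.2.1, h.ms0, h.ms1, mX, aeX, fun g hg => (hX g hg).1,
    fun E a g hg => (hX g hg).2.1 E a, fun E a g hg => (hX g hg).2.2.1 E a, fun E a g hg κ => (hX g hg).2.2.2.1 E a κ,
    fun k g hg => (hX g hg).2.2.2.2.1 k, fun E a κ g hg => (hX g hg).2.2.2.2.2.1 E a κ,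
    fun E a κ g hg => (hX g hg).2.2.2.2.2.2.1 E a κ, fun E a κ g hg => (hX g hg).2.2.2.2.2.2.2.1 E a κ, fun E a => ?_⟩
  refine ⟨z E a, Dd E a, R E a, R2 E a, R3 E a, lo E a, hi E a, rl E a, sl E a, rr E a, sr E a, n1 E a, n2 E a, n3 E a, n4 E a,
    n5 E a, Xc E a, Xx E a, Xy E a, (m1 E a).anti ?_⟩
  rintro g ⟨hg, hc⟩
  have h1 := (hX _ hg).2.2.2.2.2.2.2.2 E a hc
  have e : rotX P.u⁻¹ (rotX P.u g) = g := by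
    have hz0 : P.u ≠ 0 := fun h0 => by
      rw [h0, norm_zero] at hz
      exact zero_ne_one hz
    unfold rotX
    rw [smul_smul, inv_mul_cancel₀ hz0, one_smul]
  rwa [e] at h1

end Pool.Agent.ROT.F3E
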