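import Pool.Agent.ROT.F3GamP
import Pool.Agent.ROT.F3GenP

/-!
# ROT / F3GnQ (helper69): the generic data satisfy `GnQ` (hypothesis of `gamH_pai`)
-/

set_option autoImplicit false

namespace Pool.Agent.ROT.F3.Gn

open MeasureTheory Filter

variable {z : ℂ} {B : Bx} {U : Ultrafilter ℕ}

/-- a coordinate off a countable set which is given by earlier coordinates -/
lemma gP_cnt {f : Fd} {E : Prm → Set ℝ} (hE : ∀ P, B.In z P → (E P).Countable)
    (hA : ∀ P P' : Prm, Agr f P P' → E P' = E P) : ∀ᶠ P in gP z B, f.get P ∉ E P := by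
  refine gP_f f fun P hP => ⟨E P, (hE P hP).measure_zero volume, fun P' _ h1 h2 => ?_⟩
  rw [hA P P' h1]
  exact h2

/-- the radius `r2`, the offset `κ1`, the bound `lb` of the letters of one gate -/
lemma gnQ_one (hU : (U : Filter ℕ) ≤ atTop) {t : Tf → Fd} {T : Prm → Tp} (h1 : ∀ P, (t .r2).get P = (T P).r2)
    (h2 : ∀ P, (t .κ1).get P = (T P).κ1) (h3 : ∀ P, (t .lb).get P = (T P).lb) (h4 : ∀ P, (t .m).get P = (T P).m)
    (h5 : ∀ P, (t .c).get P = (T P).c) (k1 : (t .m).rk < (t .r2).rk) (k2 : (t .m).rk < (t .κ1).rk) (k3 : (t .c).rk < (t .κ1).rk)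
    (k4 : (t .m).rk < (t .lb).rk) (hB : ∀ P, B.In z P → 0 < (T P).m) : ∀ᶠ P in gP z B, GnQ U (T P) := by
  have em : ∀ f : Fd, (t .m).rk < f.rk → ∀ P P' : Prm, Agr f P P' → (T P').m = (T P).m := fun f hf P P' hA => by
    rw [← h4, ← h4]
    exact hA.g _ hf
  have a1 := gP_cnt (z := z) (B := B) (f := t .r2) (E := fun P => NaB U (T P).m) (fun P hP => naB_cnt hU (hB P hP))
    fun P P' hA => by
      show NaB U (T P').m = NaB U (T P).m
      rw [em _ k1 P P' hA]
  have a2 := gP_cnt (z := z) (B := B) (f := t .κ1) (E := fun P => NaC U (T P).m (T P).c) (fun P hP => naC_cnt hU (hB P hP) _)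
    fun P P' hA => by
      have ec : (T P').c = (T P).c := by
        rw [← h5, ← h5]
        exact hA.g _ k3
      show NaC U (T P').m (T P').c = NaC U (T P).m (T P).c
      rw [em _ k2 P P' hA, ec]
  have a3 := gP_cnt (z := z) (B := B) (f := t .lb) (E := fun P => NaL U (T P).m) (fun P hP => naL_cnt hU (hB P hP))
    fun P P' hA => by
      show NaL U (T P').m = NaL U (T P).m
      rw [em _ k4 P P' hA]
  filter_upwards [a1, a2, a3] with P b1 b2 b3
  rw [h1] at b1
  rw [h2] at b2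
  rw [h3] at b3
  exact ⟨b1, b2, b3⟩

/-- **the generic data satisfy `GnQ`**, both lattices, both roots -/
theorem gnQ_ev (hU : (U : Filter ℕ) ≤ atTop)
    (hB : ∀ P, B.In z P → 0 < P.p.n.m ∧ 0 < P.p.f.m ∧ 0 < P.q.n.m ∧ 0 < P.q.f.m) :
    ∀ᶠ P in gP z B, GnQ U P.p.n ∧ GnQ U P.p.f ∧ GnQ U P.q.n ∧ GnQ U P.q.f := by
  have a1 := gnQ_one (z := z) (B := B) hU (t := fun t => .p (.n t)) (T := fun P => P.p.n) (fun _ => rfl) (fun _ => rfl) (fun _ => rfl)
    (fun _ => rfl) (fun _ => rfl) (rk_lt (by decide +kernel)) (rk_lt (by decide +kernel)) (rk_lt (by decide +kernel))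
    (rk_lt (by decide +kernel)) fun P hP => (hB P hP).1
  have a2 := gnQ_one (z := z) (B := B) hU (t := fun t => .p (.f t)) (T := fun P => P.p.f) (fun _ => rfl) (fun _ => rfl) (fun _ => rfl)
    (fun _ => rfl) (fun _ => rfl) (rk_lt (by decide +kernel)) (rk_lt (by decide +kernel)) (rk_lt (by decide +kernel))
    (rk_lt (by decide +kernel)) fun P hP => (hB P hP).2.1
  have a3 := gnQ_one (z := z) (B := B) hU (t := fun t => .q (.n t)) (T := fun P => P.q.n) (fun _ => rfl) (fun _ => rfl) (fun _ => rfl)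
    (fun _ => rfl) (fun _ => rfl) (rk_lt (by decide +kernel)) (rk_lt (by decide +kernel)) (rk_lt (by decide +kernel))
    (rk_lt (by decide +kernel)) fun P hP => (hB P hP).2.2.1
  have a4 := gnQ_one (z := z) (B := B) hU (t := fun t => .q (.f t)) (T := fun P => P.q.f) (fun _ => rfl) (fun _ => rfl) (fun _ => rfl)
    (fun _ => rfl) (fun _ => rfl) (rk_lt (by decide +kernel)) (rk_lt (by decide +kernel)) (rk_lt (by decide +kernel))
    (rk_lt (by decide +kernel)) fun P hP => (hB P hP).2.2.2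
  filter_upwards [a1, a2, a3, a4] with P b1 b2 b3 b4
  exact ⟨b1, b2, b3, b4⟩

end Pool.Agent.ROT.F3.Gn
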