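import Pool.Agent.ROT.F3GenX3
import Pool.Agent.ROT.F3MO
import Pool.Agent.ROT.F3CvV
import Pool.Agent.ROT.F3GnQ

/-!
# ROT, block F3, row GEN (helper11): the generic row

* **`genRow_of`** : `GenRow z` from the rows of the other files.
-/

set_option autoImplicit false

open MeasureTheory Filter Topology Set unitInterval

namespace Pool.Agent.ROT.F3E

open Pool.Agent.ROT.F3 Pool.Agent.ROT.F3.CK
open Pool.Agent.ROT.F3.LF (Cv Lm Ev bi)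
open Pool.Agent.ROT.F3.NW (NulO SubR nul_row dR N5 n5_box)
open Pool.Agent.ROT.F3.Gn (Fd Agr Bx gP gP_win Sft gen_comp gnQ_ev)
open Pool.Agent.ROT.F (Nm nm_bd nm_ratio nm_top)

/-- the box of the data -/
def GBx (z : ℂ) (ρ τ : ℝ) (B : Bx) : Prop := ∀ P : Prm, B.In z P → P.Ok ∧ NearP z ρ τ P

/-- the inputs of the generic row -/
structure GenI (z : ℂ) where
  O : Type
  RO : Ultrafilter ℕ → ℝ → Measure CC.Gm → ℝ → ℝ → ℝ → O → Prm → Prop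
  HO : O → Fin 3 → Fin 3 → ℕ → ℕ → Ga
  SO : Measure CC.Gm → ObN × ObF → Prm → Prop
  far : ∀ (V : Ultrafilter ℕ) (bb : ℕ), (V : Filter ℕ) ≤ atTop → ∃ E : Set ℝ, E.Countable ∧
    ∀ c ∉ E, PGl V bb {g | ‖g.2.2 (pji (muG g))‖ = c} = 0
  rn : ∀ {V : Ultrafilter ℕ} {bb : ℝ} {PG : Measure CC.Gm} {c0 ρ τ t0 : ℝ} {B : Bx}, Env V bb PG S1 c0 ρ t0 → GBx z ρ τ B →
    ∀ᶠ P in gP z B, ∃ a, RN V bb PG S1 c0 ρ (42 * ρ) a P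
  ms : ∀ {V : Ultrafilter ℕ} {bb : ℝ} {PG : Measure CC.Gm} {c0 ρ : ℝ} {a : ObN} {P : Prm}, RN V bb PG S1 c0 ρ (42 * ρ) a P →
    ∀ E x, (a.F0 E x).Ms
  sub : ∀ {V : Ultrafilter ℕ} {bb : ℝ} {PG : Measure CC.Gm} {c0 ρ τ t0 : ℝ} {B : Bx}, Env V bb PG S1 c0 ρ t0 → GBx z ρ τ B →
    ∀ o P, B.In z P → RO V bb PG c0 ρ t0 o P → SubR (V : Filter ℕ) bb PG t0 P (HO o)
  ro : ∀ {V : Ultrafilter ℕ} {bb : ℝ} {PG : Measure CC.Gm} {c0 ρ τ t0 : ℝ} {B : Bx}, Env V bb PG S1 c0 ρ t0 → GBx z ρ τ B →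
    ∀ᶠ P in gP z B, ∃ o, RO V bb PG c0 ρ t0 o P
  sf : ∀ {V : Ultrafilter ℕ} {bb : ℝ} {PG : Measure CC.Gm} {c0 ρ τ t0 : ℝ} {B : Bx}, Env V bb PG S1 c0 ρ t0 → GBx z ρ τ B →
    Sft z B (fun (ab : ObN × ObF) P => RN V bb PG S1 c0 ρ (42 * ρ) ab.1 P ∧ RF V bb PG S1 c0 ρ t0 ab.1 ab.2 P) (SO PG)
  one : ∀ {V : Ultrafilter ℕ} {bb : ℕ} {c0 ρ τ t0 : ℝ} {B : Bx}, Env V bb (PGl V bb) S1 c0 ρ t0 → 0 < τ → GBx z ρ τ B → ∀ P : Prm,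
    B.In z P → LenB P bb → ∀ (a : ObN) (b : ObF) (QQ : ℕ → Prm) (oq : ℕ → O), RN V bb (PGl V bb) S1 c0 ρ (42 * ρ) a P →
      RF V bb (PGl V bb) S1 c0 ρ t0 a b P → NulO (PGl V bb) t0 z B (RO V bb (PGl V bb) c0 ρ t0) HO
        (fun i j => axF P i j (prG a.F0 i j) (42 * ρ)) P QQ oq → SO (PGl V bb) (a, b) P →
          ∃ X : Set CC.Gm, GenO V P ⟨ρ, τ, bb, t0, c0, 42 * ρ, a.K0, b.K1, a.F0, b.F1, a.y, fun i j m n => prG (b.Fl m n) i j, X⟩ (PGl V bb)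

lemma GBx.le {z : ℂ} {ρ τ : ℝ} {B B' : Bx} (h : GBx z ρ τ B) (h' : B'.Le B z) : GBx z ρ τ B' := fun P hP => h P (h' P hP)

lemma GBx.nr {z : ℂ} {ρ τ : ℝ} {B : Bx} (h : GBx z ρ τ B) : BxNr z B ρ τ := fun P hP => ⟨(h P hP).2.p, (h P hP).2.q⟩

theorem genRow_of {z : ℂ} (J : GenI z) : GenRow z := by
  refine ⟨1, one_pos, fun τ hτ _ => ⟨1, 1, one_pos, one_pos, fun k K _ _ _ => ?_⟩⟩
  obtain ⟨ρ0, hρ0, h5⟩ := n5_box F.qb hτ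
  refine ⟨ρ0, hρ0, fun ρ hρ hρ1 U hU => ⟨fun _ => 1, fun _ => one_pos, fun B hB => ?_⟩⟩
  have hV := nm_map_top hU
  obtain ⟨V, hVe⟩ : ∃ V : Ultrafilter ℕ, V = U.map Nm := ⟨_, rfl⟩
  rw [← hVe] at hV
  obtain ⟨b0, hb0⟩ := lenB_box z B
  obtain ⟨bb, hbb⟩ : ∃ bb : ℕ, bb = b0 + 1 := ⟨_, rfl⟩
  have hb : ∀ P : Prm, B.In z P → LenB P bb := fun P hP => (hb0 P hP).mono (by omega)
  obtain ⟨cv, inv, pos⟩ := pgl_ok hV bb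
  obtain ⟨c0, t0, hE⟩ := env_ex F.qb hV (bb := (bb : ℝ)) (Nat.cast_nonneg _) hρ inv pos (J.far V bb hV)
  have hG : GBx z ρ τ B := fun P hP => ⟨(hB P hP).1, (hB P hP).2.1⟩
  have h6 := gen_obj hE hG.nr (J.rn hE hG) (fun a P h => J.ms h)
    (h5 ρ hρ hρ1 z B bb (fun P hP => ⟨(hB P hP).1, (hB P hP).2.1.p, (hB P hP).2.1.q⟩) fun P hP i j _ =>
      ((hb P hP) i j _ _ (by
        by_cases h : i = 0
        · subst h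
          exact Or.inl (wnd_zero P)
        · exact Or.inr (wnd_ne P h)) (by
        by_cases h : j = 0
        · subst h
          exact Or.inl (wnd_zero P)
        · exact Or.inr (wnd_ne P h))).1 0 0 0 0)
    (fun o P hP ho => J.sub hE hG o P hP ho) (fun B' hB' => J.ro hE (hG.le hB')) (J.sf hE hG)
  have h7 := gnQ_ev (U := V) (z := z) (B := B) hV fun P hP => by
    have h8 := (hB P hP).2.1
    have h9 : 81 / 10 * ρ ≤ P.p.n.m := h8.p.n.m.1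
    have h10 : 11400 * ρ ≤ P.p.f.m := h8.p.f.m.1
    have h11 : 81 / 10 * ρ ≤ P.q.n.m := h8.q.n.m.1
    have h12 : 11400 * ρ ≤ P.q.f.m := h8.q.f.m.1
    exact ⟨by linarith, by linarith, by linarith, by linarith⟩
  filter_upwards [h6, h7, gP_win] with P ⟨a, b, h8, h9, ⟨QQ, oq, h10⟩, h11⟩ h12 hP _
  obtain ⟨X, hX⟩ := J.one hE hτ hG P hP (hb P hP) a b QQ oq h8 h9 h10 h11
  rw [← hVe]
  refine ⟨h12.1, h12.2.1, _, ?_, ?_, rfl, ?_, ?_, ?_, hX⟩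
  · show 1 ≤ bb
    omega
  · exact fun i j _ => ⟨(hb P hP).j0 i j, (hb P hP).jR i j⟩
  · exact hρ
  · exact (hB P hP).2.1
  · exact ⟨by have := hE.c1; show 0 < c0; linarith, hE.c2⟩

end Pool.Agent.ROT.F3E
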