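import Pool.Agent.ROT.F3MixA

/-!
# ROT, block F3, mixing of the two tips (helper41), part 4: the theorem

* **`mix2A`** : for `m, m' ≤ δ n`, ANY function `Φ` of the first `m` letters, ANY function `Ψ` of the last `m'` letters (absolute
  directions, bounded by 1) and every `K`-Lipschitz `F`: the mean of `Φ * Ψ * F (curve)` is almost the product of the three means;
  `δ` depends on `ε` and `K` only, every `n ≥ 1`;
* **`mix2B`** : the same for functionals which are functions of the first / last letters up to `ε` in mean (`NearS`, `NearE`);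
* **`mix3A`** : `mix3` (helper51) without the hypothesis `NearL`: with one tip lower bounds `p ≤ E Gp`, `p ≤ E Gq`:
  `p ^ 2 / 2 ≤ E (Gp * Gq)` and `|E (Gp * Gq * F) - E (Gp * Gq) * E F| ≤ ε * E (Gp * Gq)`, one `δ`.
-/

set_option autoImplicit false

noncomputable section

open MeasureTheory Filter Topology Set
open scoped Classical

namespace HexObs

namespace MX

open Finset TS SDN TIW MCP

open NTF (aa)

open NTSF (om om_norm rot)

open NTSF.Mg (pT czT cz pn nr nr_pos)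

open Pool.Agent.ROT.F3 (LocS LocE)

open Pool.Agent.IW.Res (mean)

open Pool.Agent.IW.MC (mw_Eu crv_sw crv_rot Cw Cw_pT)

/-! ### 1. The dictionary -/

/-- the walk of the word, turned such that the letter after the last one has the direction a -/
def wk (n : ℕ) (a : Fin 3) (t : List Bool) : Fin n → Fin 3 := fun i => dl t i + (a - dt t)

theorem mean_tip {n : ℕ} (hn : 0 < n) (g : (Fin n → Fin 3) → ℝ) :
    mean n g = (∑ a : Fin 3, Eu n (fun t => g (wk n a t))) / 3 := by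
  have h1 := Pool.Agent.IW.MC.mean_words hn g
  rw [mw_Eu, mw_Eu, mw_Eu] at h1
  have e1 : ∀ t : List Bool, g (NTF.sw n t) = g (fun i : Fin n => dl t i + 0) := fun t => by
    congr 1
    funext i
    rw [add_zero]
    rfl
  have e2 : ∀ t : List Bool, g (rot (NTF.sw n t)) = g (fun i : Fin n => dl t i + 1) := fun t => rfl
  have e3 : ∀ t : List Bool, g (rot (rot (NTF.sw n t))) = g (fun i : Fin n => dl t i + 2) := fun t => by
    congr 1
    funext i
    show dl t i + 1 + 1 = dl t i + 2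
    rw [add_assoc]
    rfl
  simp only [e3, e2, e1] at h1
  have h2 : mean n g = (∑ b : Fin 3, Eu n (fun t => g (fun i => dl t i + b))) / 3 := by
    rw [Fin.sum_univ_three]
    exact h1
  rw [h2]
  congr 1
  unfold Eu
  rw [← Finset.sum_div, ← Finset.sum_div, Finset.sum_comm, Finset.sum_comm (s := (Finset.univ : Finset (Fin 3)))]
  congr 1
  refine Finset.sum_congr rfl fun t _ => ?_
  exact (Equiv.sum_comp (Equiv.subRight (dt t)) fun b => g (fun i => dl t i + b)).symm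

lemma crv_wk {n : ℕ} {t : List Bool} (ht : t.length = n) (a : Fin 3) :
    Pool.Agent.IW.Res.curve (wk n a t) = pT (om ^ ((a - dt t : Fin 3) : ℕ)) t n := by
  obtain ⟨b, hb⟩ : ∃ b, b = a - dt t := ⟨_, rfl⟩
  have e0 : wk n a t = fun i : Fin n => dl t i + b := by rw [hb]; rfl
  rw [e0, ← hb]
  have c0 : Pool.Agent.IW.Res.curve (NTF.sw n t) = pT 1 t n := by rw [crv_sw, Cw_pT ht]
  have c1 : Pool.Agent.IW.Res.curve (rot (NTF.sw n t)) = pT om t n := by rw [crv_rot, c0, ← pT_mul, mul_one]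
  have c2 : Pool.Agent.IW.Res.curve (rot (rot (NTF.sw n t))) = pT (om * om) t n := by rw [crv_rot, c1, ← pT_mul]
  have hb3 := Pool.Agent.CRT.V.fin3 b
  rcases hb3 with rfl | rfl | rfl
  · have e1 : (fun i : Fin n => dl t i + 0) = NTF.sw n t := by
      funext i
      rw [add_zero]
      rfl
    rw [e1, c0]
    rfl
  · have e1 : (fun i : Fin n => dl t i + 1) = rot (NTF.sw n t) := rfl
    rw [e1, c1]
    congr 1
    exact (pow_one om).symm
  · have e1 : (fun i : Fin n => dl t i + 2) = rot (rot (NTF.sw n t)) := by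
      funext i
      show dl t i + 2 = dl t i + 1 + 1
      rw [add_assoc]
      rfl
    rw [e1, c2]
    congr 1
    exact (pow_two om).symm

lemma dl_drop {n : ℕ} {t : List Bool} (ht : t.length = n) {i : ℕ} (hi : i ≤ n) : dt t = dl t i + dl (t.drop i) (n - i) := by
  have h1 : (t.take i).length = i := by rw [List.length_take]; omega
  have h2 := dl_app (t.take i) (t.drop i) (n - i)
  rw [List.take_append_drop, h1] at h2
  have h3 : dl (t.take i) i = dl t i := by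
    have := dl_left (A := t.take i) (Y := t.drop i) (i := i) h1.ge
    rw [List.take_append_drop] at this
    exact this.symm
  unfold dt
  rw [ht, ← h3, ← h2]
  congr 1
  omega

lemma qT_word {n m' c : ℕ} (Ψ : (Fin n → Fin 3) → ℝ) (a : Fin 3) {t : List Bool} (ht : t.length = n) (h : okE m' c t) :
    qT Ψ m' c a t = Ψ (wk n a t) := by
  unfold qT
  rw [if_pos h]
  congr 1
  funext i
  have hi : (i : ℕ) < n := i.2
  have e1 : t.length - (n - (i : ℕ)) = i := by omega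
  show a - dl (t.drop (t.length - (n - i))) (n - i) = dl t i + (a - dt t)
  rw [e1, dl_drop ht hi.le]
  have : ∀ x y z : Fin 3, x - z = y + (x - (y + z)) := by decide
  exact this _ _ _

lemma PhT_word {n m c : ℕ} (Φ : (Fin n → Fin 3) → ℝ) (f : C(unitInterval, ℂ) → ℝ) {R : ℝ} (hR : 0 < R) (a : Fin 3)
    {t : List Bool} (ht : t.length = n) (h : okS m c t) (h2 : 2 * R ≤ hn (en t)) :
    PhT Φ m c f R a t = Φ (wk n a t) * f (Pool.Agent.IW.Res.curve (wk n a t)) := by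
  unfold PhT HH gB
  rw [if_pos h, psi_one hR h2, mul_one, crv_wk ht]
  rfl

/-! ### 2. The bad words -/

lemma Eu_near3 {n : ℕ} {F G : List Bool → ℝ} (hF : ∀ t, |F t| ≤ 1) (hG : ∀ t, |G t| ≤ 1) {B1 B2 B3 : Set (List Bool)} {e : ℝ}
    (h : ∀ t ∈ sawF n, t ∉ B1 → t ∉ B2 → t ∉ B3 → F t = G t) (p1 : TOG.Pn n B1 ≤ e) (p2 : TOG.Pn n B2 ≤ e)
    (p3 : TOG.Pn n B3 ≤ e) : |Eu n F - Eu n G| ≤ 6 * e := by
  rw [Pn_Eu] at p1 p2 p3
  have h1 : ∀ t ∈ sawF n, |F t - G t| ≤ 2 * (TIP.ind (t ∈ B1) + TIP.ind (t ∈ B2) + TIP.ind (t ∈ B3)) := by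
    intro t ht
    have n1 := TIP.ind_nonneg (t ∈ B1)
    have n2 := TIP.ind_nonneg (t ∈ B2)
    have n3 := TIP.ind_nonneg (t ∈ B3)
    have hb : |F t - G t| ≤ 2 := (abs_sub _ _).trans (by linarith [hF t, hG t])
    by_cases h1 : t ∈ B1
    · rw [TIP.ind_pos h1] at n1 ⊢
      linarith
    by_cases h2 : t ∈ B2
    · rw [TIP.ind_pos h2] at n2 ⊢
      linarith
    by_cases h3 : t ∈ B3
    · rw [TIP.ind_pos h3] at n3 ⊢
      linarith
    rw [h t ht h1 h2 h3, sub_self, abs_zero]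
    linarith
  have hc := cS0 n
  unfold Eu at p1 p2 p3 ⊢
  rw [div_le_iff₀ hc] at p1 p2 p3
  rw [← sub_div, ← Finset.sum_sub_distrib, abs_div, abs_of_pos hc, div_le_iff₀ hc]
  refine (Finset.abs_sum_le_sum_abs _ _).trans ((Finset.sum_le_sum h1).trans ?_)
  rw [← Finset.mul_sum, Finset.sum_add_distrib, Finset.sum_add_distrib]
  linarith

/-- the end of the word as the start of the reversed word -/
lemma Pn_end {n m' c : ℕ} (hn : 0 < n) (hm : m' ≤ n) :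
    TOG.Pn n {t | ∃ i, i ≤ m' ∧ (2 : ℤ) ^ c ≤ HexObs.TIW.hn (vx oo up t (t.length - i) - en t)} =
      TOG.Pn n {t | ∃ i, i ≤ m' ∧ (2 : ℤ) ^ c ≤ HexObs.TIW.hn (vx oo up t i)} := by
  rw [Pn_Eu, Pn_Eu]
  unfold Eu
  congr 1
  rw [← sum_rvw n fun t => TIP.ind (t ∈ {t | ∃ i, i ≤ m' ∧ (2 : ℤ) ^ c ≤ HexObs.TIW.hn (vx oo up t i)})]
  refine Finset.sum_congr rfl fun t ht => ?_
  rw [mem_sawF] at ht
  obtain ⟨s, c0, rfl, hs⟩ := Pool.Agent.IW.split_last hn ht.1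
  have hl : (s ++ [c0]).length = s.length + 1 := by rw [List.length_append, List.length_singleton]
  have hnl : s.length + 1 = n := by rw [← hl]; exact ht.1
  have key : ∀ i, i ≤ m' → HexObs.TIW.hn (vx oo up (s ++ [c0]) ((s ++ [c0]).length - i) - en (s ++ [c0])) =
      HexObs.TIW.hn (vx oo up (Pool.Agent.IW.rvw (s ++ [c0])) i) := by
    intro i hi
    rw [Pool.Agent.IW.rvw_app, hl, en_snoc, vx_append (by omega), vx_append (by rw [rev_length]; omega), rev_hn s (by omega)]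
  refine TIP.ind_congr ?_
  constructor
  · rintro ⟨i, hi, h⟩
    exact ⟨i, hi, by rw [← key i hi]; exact h⟩
  · rintro ⟨i, hi, h⟩
    exact ⟨i, hi, by rw [key i hi]; exact h⟩

/-! ### 3. The core -/

/-- numbers -/
lemma num_core {X Y Z x y z α : Fin 3 → ℝ} {e : ℝ} (he : 0 ≤ e) (h1 : ∀ a, |X a - x a| ≤ 6 * e) (h2 : ∀ a, |Y a - y a| ≤ 6 * e)
    (h3 : ∀ a, |Z a - z a| ≤ 6 * e) (h4 : ∀ a, |x a - α a * z a| ≤ e) (h5 : ∀ a, |y a - α a| ≤ e)
    (h6 : ∀ a, |z a - z 0| ≤ 8 * e) (hY : ∀ a, |Y a| ≤ 1) (hz : ∀ a, |z a| ≤ 1) (hy : ∀ a, |y a| ≤ 1) :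
    |(∑ a, X a) / 3 - (∑ a, Y a) / 3 * ((∑ a, Z a) / 3)| ≤ 40 * e := by
  have k1 : ∀ a, |X a - Y a * z 0| ≤ 22 * e := by
    intro a
    have e1 : X a - Y a * z 0 = (X a - x a) + (x a - α a * z a) + (α a - y a) * z a + y a * (z a - z 0) + (y a - Y a) * z 0 := by
      ring
    have b1 : |(α a - y a) * z a| ≤ e := by
      rw [abs_mul, abs_sub_comm]
      exact (mul_le_of_le_one_right (abs_nonneg _) (hz a)).trans (h5 a)
    have b2 : |y a * (z a - z 0)| ≤ 8 * e := by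
      rw [abs_mul]
      exact (mul_le_of_le_one_left (abs_nonneg _) (hy a)).trans (h6 a)
    have b3 : |(y a - Y a) * z 0| ≤ 6 * e := by
      rw [abs_mul, abs_sub_comm]
      exact (mul_le_of_le_one_right (abs_nonneg _) (hz 0)).trans (h2 a)
    have c1 := abs_le.1 (h1 a)
    have c2 := abs_le.1 (h4 a)
    have c3 := abs_le.1 b1
    have c4 := abs_le.1 b2
    have c5 := abs_le.1 b3
    rw [e1, abs_le]
    constructor <;> linarith [c1.1, c1.2, c2.1, c2.2, c3.1, c3.2, c4.1, c4.2, c5.1, c5.2]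
  have k2 : |z 0 - (∑ a, Z a) / 3| ≤ 14 * e := by
    rw [Fin.sum_univ_three]
    have c0 := abs_le.1 (h3 0)
    have c1 := abs_le.1 (h3 1)
    have c2 := abs_le.1 (h3 2)
    have d1 := abs_le.1 (h6 1)
    have d2 := abs_le.1 (h6 2)
    rw [abs_le]
    constructor <;> linarith [c0.1, c0.2, c1.1, c1.2, c2.1, c2.2, d1.1, d1.2, d2.1, d2.2]
  have k3 : |(∑ a, Y a) / 3| ≤ 1 := by
    rw [Fin.sum_univ_three]
    have c0 := abs_le.1 (hY 0)
    have c1 := abs_le.1 (hY 1)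
    have c2 := abs_le.1 (hY 2)
    rw [abs_le]
    constructor <;> linarith [c0.1, c0.2, c1.1, c1.2, c2.1, c2.2]
  have k4 : |(∑ a, X a) / 3 - (∑ a, Y a) / 3 * z 0| ≤ 22 * e := by
    rw [Fin.sum_univ_three, Fin.sum_univ_three]
    have c0 := abs_le.1 (k1 0)
    have c1 := abs_le.1 (k1 1)
    have c2 := abs_le.1 (k1 2)
    rw [abs_le]
    constructor <;> linarith [c0.1, c0.2, c1.1, c1.2, c2.1, c2.2]
  have e2 : (∑ a, X a) / 3 - (∑ a, Y a) / 3 * ((∑ a, Z a) / 3) =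
      ((∑ a, X a) / 3 - (∑ a, Y a) / 3 * z 0) + (∑ a, Y a) / 3 * (z 0 - (∑ a, Z a) / 3) := by ring
  rw [e2]
  refine (abs_add_le _ _).trans ?_
  have k5 : |(∑ a, Y a) / 3 * (z 0 - (∑ a, Z a) / 3)| ≤ 14 * e := by
    rw [abs_mul]
    exact (mul_le_of_le_one_left (abs_nonneg _) k3).trans k2
  linarith

/-- **the core**: the end against any functional of the start and the curve -/
theorem core {ε : ℝ} (hε : 0 < ε) (K : NNReal) : ∃ (δ : ℝ) (n0 : ℕ), 0 < δ ∧ δ ≤ 1 ∧ 1 ≤ n0 ∧ ∀ n m m' : ℕ, n0 ≤ n →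
    (m : ℝ) ≤ δ * n → (m' : ℝ) ≤ δ * n → ∀ f : C(unitInterval, ℂ) → ℝ, LipschitzWith K f → (∀ γ, |f γ| ≤ 1) →
    ∀ Φ Ψ : (Fin n → Fin 3) → ℝ, LocS m Φ → LocE m' Ψ → (∀ s, |Φ s| ≤ 1) → (∀ s, |Ψ s| ≤ 1) →
    |mean n (fun s => Φ s * f (Pool.Agent.IW.Res.curve s) * Ψ s) -
      mean n Ψ * mean n (fun s => Φ s * f (Pool.Agent.IW.Res.curve s))| ≤ ε := by
  obtain ⟨e, he⟩ : ∃ e : ℝ, e = ε / 40 := ⟨_, rfl⟩
  have he0 : 0 < e := by rw [he]; positivity
  obtain ⟨τ, hτ, hT⟩ := PWN.tipK0 e he0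
  obtain ⟨c3, k3, hfar⟩ := tip_far he0
  obtain ⟨C0, hrad⟩ := NTSF.Cg.rad_small (κ := τ / (2 * (K + 1))) (by positivity)
  obtain ⟨d, hd⟩ := pow_unbounded_of_one_lt (1 / τ) (one_lt_two : (1 : ℝ) < 2)
  obtain ⟨c1, hc1⟩ : ∃ c1, c1 = C0 + (c3 + 1) + (d + 1) := ⟨_, rfl⟩
  obtain ⟨C, hT⟩ := hT c1
  obtain ⟨k0, hT⟩ := hT C le_rfl
  obtain ⟨δ1, k1, hδ1, hex1⟩ := exitN e (c3 + 2) he0
  obtain ⟨δ2, k2, hδ2, hex2⟩ := exitN e C he0
  obtain ⟨K0, hK0⟩ : ∃ K0 : ℕ, K0 = k0 + k1 + k2 + k3 + c1 + C + C0 + c3 + 5 := ⟨_, rfl⟩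
  obtain ⟨n0, hn0⟩ : ∃ n0 : ℕ, n0 = max 1 ⌈PW.mZ (2 ^ K0)⌉₊ := ⟨_, rfl⟩
  refine ⟨min (min δ1 δ2) 1, n0, by positivity, min_le_right _ _, by rw [hn0]; exact le_max_left _ _, ?_⟩
  intro n m m' hn hm hm' f hK hf Φ Ψ hΦl hΨl hΦ hΨ
  have hn1 : 1 ≤ n := (by rw [hn0]; exact le_max_left _ _ : 1 ≤ n0).trans hn
  have hnr : (0 : ℝ) ≤ n := Nat.cast_nonneg n
  have hmn : m ≤ n := by
    have h1 : (m : ℝ) ≤ 1 * n := hm.trans (mul_le_mul_of_nonneg_right (min_le_right _ _) hnr)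
    rw [one_mul] at h1
    exact_mod_cast h1
  have hmn' : m' ≤ n := by
    have h1 : (m' : ℝ) ≤ 1 * n := hm'.trans (mul_le_mul_of_nonneg_right (min_le_right _ _) hnr)
    rw [one_mul] at h1
    exact_mod_cast h1
  have hm1 : (m : ℝ) ≤ δ1 * n := hm.trans (mul_le_mul_of_nonneg_right ((min_le_left _ _).trans (min_le_left _ _)) hnr)
  have hm2 : (m' : ℝ) ≤ δ2 * n := hm'.trans (mul_le_mul_of_nonneg_right ((min_le_left _ _).trans (min_le_right _ _)) hnr)
  obtain ⟨k, hk, hS⟩ := PWN.sc_ex (k := K0) (n := n) ((Nat.le_ceil _).trans (by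
    have : ⌈PW.mZ (2 ^ K0)⌉₊ ≤ n := (by rw [hn0]; exact le_max_right _ _ : ⌈PW.mZ (2 ^ K0)⌉₊ ≤ n0).trans hn
    exact_mod_cast this))
  -- the radii
  obtain ⟨R, hR⟩ : ∃ R : ℝ, R = 2 ^ (k - (c3 + 1)) := ⟨_, rfl⟩
  have hR0 : 0 < R := by rw [hR]; positivity
  have q1 : 2 * R = 2 ^ (k - c3) := by
    rw [hR, show k - c3 = k - (c3 + 1) + 1 by omega, pow_succ]
    ring
  have q2 : (2 : ℝ) ^ (k - (c3 + 2)) = R / 2 := by
    rw [hR, show k - (c3 + 1) = k - (c3 + 2) + 1 by omega, pow_succ]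
    ring
  have q3 : (2 : ℝ) ^ (k - c1) ≤ R / 2 ^ (d + 1) := by
    rw [le_div_iff₀ (by positivity), hR, ← pow_add]
    exact pow_le_pow_right₀ (by norm_num) (by omega)
  have hd2 : (1 : ℝ) ≤ 2 ^ d := one_le_pow₀ (by norm_num)
  have q4 : (2 : ℝ) ^ (k - (c3 + 2)) + 2 ^ (k - c1) ≤ R := by
    have h1 : R / 2 ^ (d + 1) ≤ R / 2 := by
      refine div_le_div_of_nonneg_left hR0.le (by norm_num) ?_
      rw [pow_succ]
      linarith
    rw [q2]
    linarith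
  have q5 : (2 : ℝ) ^ (k - c1) ≤ τ / 2 * R := by
    refine q3.trans ?_
    rw [div_le_iff₀ (by positivity), pow_succ]
    rw [div_lt_iff₀ hτ] at hd
    nlinarith
  have q6 : (K : ℝ) * (2 ^ (k - c1) / nr n) ≤ τ / 2 := by
    have hnrp := nr_pos hn1
    have h1 := hrad c1 k n (by omega) (by omega) hS
    have h2 : (2 : ℝ) ^ (k - c1) / nr n ≤ τ / (2 * (K + 1)) := by
      rw [div_le_iff₀ hnrp]
      exact h1
    have hK0' : (0 : ℝ) ≤ K := K.2
    calc (K : ℝ) * (2 ^ (k - c1) / nr n) ≤ K * (τ / (2 * (K + 1))) := mul_le_mul_of_nonneg_left h2 hK0'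
      _ ≤ (K + 1) * (τ / (2 * (K + 1))) := mul_le_mul_of_nonneg_right (by linarith) (by positivity)
      _ = τ / 2 := by field_simp
  have hrob : ∀ (b : Fin 3) (A Y : List Bool), (∀ i, i ≤ Y.length → HexObs.TIW.hn (vx oo up Y i) < 2 ^ (k - c1)) →
      |HH Φ m (k - (c3 + 2)) f R b (A ++ Y) - HH Φ m (k - (c3 + 2)) f R b A| ≤ τ := fun b A Y hY =>
    HH_rob hn1 hΦl hΦ hK hf q4 q5 q6 b hY
  -- the tip theorem
  have hPh : ∀ a t, |PhT Φ m (k - (c3 + 2)) f R a t| ≤ 1 := fun a t => HH_abs hΦ m _ hf R _ t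
  have hTq : ∀ (a : Fin 3) (q : List Bool → ℝ), (∀ t, |q t| ≤ 1) → PWN.Inn (k - C) q →
      |Eu n (fun t => PhT Φ m (k - (c3 + 2)) f R a t * q t) -
        PWN.EA (PWN.tent 0) n q * Eu n (PhT Φ m (k - (c3 + 2)) f R a)| ≤ e := by
    intro a q hq hi
    have k1 := kerW_of hΦ hf hrob a hq hi
    have k2 := kerW_of hΦ hf hrob a (b := k - C) (q := fun _ => 1) (fun _ => by rw [abs_one]) (PWN.Inn_one _)
    simp only [mul_one] at k2
    exact hT k n (by omega) hS q _ hq (hPh a) hi (rob_PhT hrob a) _ _ _ _ k1 k2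
  have hT1 : ∀ q : List Bool → ℝ, (∀ t, |q t| ≤ 1) → PWN.Inn (k - C) q → |Eu n q - PWN.EA (PWN.tent 0) n q| ≤ e := by
    intro q hq hi
    have h1 := PWN.kerW_one (k - C) (k - c1) hτ.le
    have h2 : PWN.KerW (k - C) (k - c1) τ (fun t => (fun _ => 1) t * q t) (fun g _ => if g = 0 then 1 else 0)
        (fun g E => if g = 0 then q E else 0) := by
      refine ⟨fun t => ?_, h1.pb, fun E => ?_, fun A V E hA hV hY hE => ?_⟩
      · show |1 * q t| ≤ 1
        rw [one_mul]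
        exact hq t
      · rw [Fin.sum_univ_three]
        simpa using hq E
      · have e2 : q (A ++ (V ++ E)) = q E := by
          rw [← List.append_assoc] at hA ⊢
          exact hi (A ++ V) E hA hE
        show |1 * q (A ++ (V ++ E)) - ∑ g : Fin 3, (if g = 0 then (1 : ℝ) else 0) * (if g = 0 then q E else 0)| ≤ τ
        rw [e2, Fin.sum_univ_three]
        simpa using hτ.le
    have h3 := hT k n (by omega) hS q (fun _ => 1) hq (fun _ => by rw [abs_one]) hi (fun A Y _ _ _ => by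
      rw [sub_self, abs_zero]
      exact hτ.le) _ _ _ _ h2 h1
    have e1 : PWN.En n (fun _ => (1 : ℝ)) = 1 := Eu_one n
    rw [e1, mul_one] at h3
    have e2 : PWN.En n (fun t => (fun _ => (1 : ℝ)) t * q t) = Eu n q := by
      show Eu n (fun t => 1 * q t) = Eu n q
      simp only [one_mul]
    rw [e2] at h3
    exact h3
  -- the bad words
  have p1 := hex1 k n m (by omega) hS hm1
  have p2 := hex2 k n m' (by omega) hS hm2
  rw [← Pn_end hn1 hmn'] at p2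
  have p3 := hfar k n (by omega) hS
  have g1 : ∀ t ∈ sawF n, t ∉ {t | ∃ i, i ≤ m ∧ (2 : ℤ) ^ (k - (c3 + 2)) ≤ HexObs.TIW.hn (vx oo up t i)} →
      okS m (k - (c3 + 2)) t := by
    intro t ht h
    have hl := (mem_sawF.1 ht).1
    refine ⟨by omega, fun i hi => ?_⟩
    by_contra hcon
    exact h ⟨i, hi, not_lt.1 hcon⟩
  have g2 : ∀ t ∈ sawF n, t ∉ {t | ∃ i, i ≤ m' ∧ (2 : ℤ) ^ (k - C) ≤ HexObs.TIW.hn (vx oo up t (t.length - i) - en t)} →
      okE m' (k - C) t := by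
    intro t ht h
    have hl := (mem_sawF.1 ht).1
    refine ⟨by omega, fun i hi => ?_⟩
    by_contra hcon
    exact h ⟨i, hi, not_lt.1 hcon⟩
  have g3 : ∀ t : List Bool, t ∉ {t | HexObs.TIW.hn (en t) < 2 ^ (k - c3)} → 2 * R ≤ HexObs.TIW.hn (en t) := by
    intro t h
    have h1 : (2 : ℤ) ^ (k - c3) ≤ HexObs.TIW.hn (en t) := not_lt.1 h
    rw [q1]
    exact_mod_cast h1
  -- the last letter
  have hlast : ∀ (a : Fin 3) (c0 : Bool), |Eu n (Mb Φ m (k - (c3 + 2)) f R (a - sg c0)) -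
      Eu n (PhT Φ m (k - (c3 + 2)) f R a)| ≤ 4 * e := by
    intro a c0
    have hi1 : ∀ t : List Bool, |TIP.ind (t.getLast? = some c0)| ≤ 1 := fun t => by
      rw [abs_of_nonneg (TIP.ind_nonneg _)]
      exact TIP.ind_le_one _
    have r1 := hTq a _ hi1 (last_inn c0)
    have r2 := hT1 _ hi1 (last_inn c0)
    have e1 : Eu n (fun t => PhT Φ m (k - (c3 + 2)) f R a t * TIP.ind (t.getLast? = some c0)) =
        Eu n (Mb Φ m (k - (c3 + 2)) f R (a - sg c0)) / 2 := by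
      unfold Eu
      rw [sum_PhT hΦl hn1 a c0]
      ring
    have e2 : Eu n (fun t => TIP.ind (t.getLast? = some c0)) = 1 / 2 := by
      have h1 := sum_last hn1 (H := fun _ => (1 : ℝ)) (fun _ _ _ => rfl) c0
      simp only [mul_one] at h1
      have h2 := Eu_one n
      unfold Eu at h2 ⊢
      rw [h1, div_right_comm, h2]
    rw [e1] at r1
    rw [e2] at r2
    obtain ⟨z, hz⟩ : ∃ z, z = Eu n (PhT Φ m (k - (c3 + 2)) f R a) := ⟨_, rfl⟩
    have hz1 : |z| ≤ 1 := by rw [hz]; exact Eu_le (hPh a)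
    obtain ⟨α, hα⟩ : ∃ α, α = PWN.EA (PWN.tent 0) n (fun t => TIP.ind (t.getLast? = some c0)) := ⟨_, rfl⟩
    rw [← hz, ← hα] at r1
    rw [← hα] at r2
    rw [← hz]
    have r3 : |(1 / 2 - α) * z| ≤ e := by
      rw [abs_mul]
      exact (mul_le_of_le_one_right (abs_nonneg _) hz1).trans r2
    have c1 := abs_le.1 r1
    have c2 := abs_le.1 r3
    rw [abs_le]
    constructor <;> linarith [c1.1, c1.2, c2.1, c2.2]
  have hz : ∀ a a' : Fin 3, |Eu n (PhT Φ m (k - (c3 + 2)) f R a) - Eu n (PhT Φ m (k - (c3 + 2)) f R a')| ≤ 8 * e := by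
    intro a a'
    by_cases h : a = a'
    · rw [h, sub_self, abs_zero]
      positivity
    · obtain ⟨c0, c2, h1⟩ := two_ways a a' h
      have l1 := abs_le.1 (hlast a c0)
      have l2 := abs_le.1 (hlast a' c2)
      rw [h1] at l1
      rw [abs_le]
      constructor <;> linarith [l1.1, l1.2, l2.1, l2.2]
  -- the three means
  rw [mean_tip hn1, mean_tip hn1 Ψ, mean_tip hn1 (fun s => Φ s * f (Pool.Agent.IW.Res.curve s))]
  have hfin := num_core (e := e)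
    (X := fun a => Eu n (fun t => Φ (wk n a t) * f (Pool.Agent.IW.Res.curve (wk n a t)) * Ψ (wk n a t)))
    (Y := fun a => Eu n (fun t => Ψ (wk n a t)))
    (Z := fun a => Eu n (fun t => Φ (wk n a t) * f (Pool.Agent.IW.Res.curve (wk n a t))))
    (x := fun a => Eu n (fun t => PhT Φ m (k - (c3 + 2)) f R a t * qT Ψ m' (k - C) a t))
    (y := fun a => Eu n (qT Ψ m' (k - C) a)) (z := fun a => Eu n (PhT Φ m (k - (c3 + 2)) f R a))
    (α := fun a => PWN.EA (PWN.tent 0) n (qT Ψ m' (k - C) a)) he0.le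
    (fun a => Eu_near3 (fun t => abs_mul_le1 (abs_mul_le1 (hΦ _) (hf _)) (hΨ _))
      (fun t => abs_mul_le1 (hPh a t) (qT_abs hΨ _ _ _ _)) (fun t ht b1 b2 b3 => by
        rw [PhT_word Φ f hR0 a (mem_sawF.1 ht).1 (g1 t ht b1) (g3 t b3), qT_word Ψ a (mem_sawF.1 ht).1 (g2 t ht b2)]) p1 p2 p3)
    (fun a => Eu_near3 (fun t => hΨ _) (fun t => qT_abs hΨ _ _ _ _) (fun t ht b1 b2 b3 => by
        rw [qT_word Ψ a (mem_sawF.1 ht).1 (g2 t ht b2)]) p1 p2 p3)
    (fun a => Eu_near3 (fun t => abs_mul_le1 (hΦ _) (hf _)) (fun t => hPh a t) (fun t ht b1 b2 b3 => by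
        rw [PhT_word Φ f hR0 a (mem_sawF.1 ht).1 (g1 t ht b1) (g3 t b3)]) p1 p2 p3)
    (fun a => hTq a _ (qT_abs hΨ _ _ _) (qT_inn hΨl a)) (fun a => hT1 _ (qT_abs hΨ _ _ _) (qT_inn hΨl a))
    (fun a => hz a 0) (fun a => Eu_le fun t => hΨ _) (fun a => Eu_le fun t => hPh a t) (fun a => Eu_le fun t => qT_abs hΨ _ _ _ _)
  refine hfin.trans (le_of_eq ?_)
  rw [he]
  ring

end MX

end HexObs

namespace Pool.Agent.ROT.F3

open Pool.Agent.NTS.Res

open Pool.Agent.IW.Res (mean)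

lemma mean_c {n : ℕ} (c : ℝ) (G : (Fin n → Fin 3) → ℝ) : mean n (fun s => c * G s) = c * mean n G := by
  unfold mean
  rw [← Finset.mul_sum, mul_div_assoc]

/-- **mixing of the two tips**: `δ` depends on `ε` and `K` only; every number of steps -/
theorem mix2A {ε : ℝ} (hε : 0 < ε) (K : NNReal) : ∃ δ : ℝ, 0 < δ ∧ δ ≤ 1 ∧ ∀ n m m' : ℕ, 1 ≤ n → (m : ℝ) ≤ δ * n →
    (m' : ℝ) ≤ δ * n → ∀ F : C(unitInterval, ℂ) → ℝ, LipschitzWith K F → (∀ γ, |F γ| ≤ 1) →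
      ∀ Φ Ψ : (Fin n → Fin 3) → ℝ, LocS m Φ → LocE m' Ψ → (∀ s, |Φ s| ≤ 1) → (∀ s, |Ψ s| ≤ 1) →
        |mean n (fun s => Φ s * Ψ s * F (curve s)) - mean n Φ * mean n Ψ * mean n (fun s => F (curve s))| ≤ ε := by
  obtain ⟨cs, Cs, hcs, hsize⟩ := (NTSF.conclE_false NTSF.finE).1
  obtain ⟨K', hK'⟩ : ∃ K' : NNReal, K' = K * (1 / cs).toNNReal + 1 := ⟨_, rfl⟩
  obtain ⟨δ1, hδ1, -, h1⟩ := mix1 (half_pos hε) K
  obtain ⟨δ2, n0, hδ2, -, hn0, h2⟩ := HexObs.MX.core (half_pos hε) K'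
  have hn0r : (1 : ℝ) ≤ n0 := by exact_mod_cast hn0
  obtain ⟨δ, hδ⟩ : ∃ δ : ℝ, δ = min (min δ1 δ2) (1 / (2 * n0)) := ⟨_, rfl⟩
  have hδ0 : 0 < δ := by
    rw [hδ]
    positivity
  have hd1 : δ ≤ δ1 := by rw [hδ]; exact (min_le_left _ _).trans (min_le_left _ _)
  have hd2 : δ ≤ δ2 := by rw [hδ]; exact (min_le_left _ _).trans (min_le_right _ _)
  have hd3 : δ ≤ 1 / (2 * n0) := by rw [hδ]; exact min_le_right _ _
  refine ⟨δ, hδ0, hd3.trans ?_, ?_⟩
  · rw [div_le_one (by positivity)]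
    linarith
  intro n m m' hn hm hm' F hF bF Φ Ψ hΦ hΨ bΦ bΨ
  have hnr : (0 : ℝ) ≤ n := Nat.cast_nonneg n
  rcases lt_or_ge n n0 with hlt | hge
  · -- few steps
    have hsmall : ∀ m : ℕ, (m : ℝ) ≤ δ * n → m = 0 := by
      intro m hm
      have h3 : δ * n ≤ 1 / (2 * n0) * n0 := mul_le_mul hd3 (by exact_mod_cast hlt.le) hnr (by positivity)
      have h4 : (1 : ℝ) / (2 * n0) * n0 = 1 / 2 := by field_simp
      have h5 : (m : ℝ) < 1 := by linarith
      have h6 : m < 1 := by exact_mod_cast h5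
      omega
    have e1 := hsmall m hm
    have e2 := hsmall m' hm'
    obtain ⟨c, hc⟩ : ∃ c : ℝ, c = Φ (fun _ => 0) := ⟨_, rfl⟩
    obtain ⟨c', hc'⟩ : ∃ c' : ℝ, c' = Ψ (fun _ => 0) := ⟨_, rfl⟩
    have f1 : ∀ s, Φ s = c := fun s => by
      rw [hc]
      exact hΦ _ _ fun i hi => absurd hi (by omega)
    have f2 : ∀ s, Ψ s = c' := fun s => by
      rw [hc']
      exact hΨ _ _ fun i hi => absurd i.2 (by omega)
    have g1 : mean n Φ = c := by
      have : Φ = fun _ => c * 1 := funext fun s => by rw [f1, mul_one]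
      rw [this, mean_c, mean_one, mul_one]
    have g2 : mean n Ψ = c' := by
      have : Ψ = fun _ => c' * 1 := funext fun s => by rw [f2, mul_one]
      rw [this, mean_c, mean_one, mul_one]
    have g3 : mean n (fun s => Φ s * Ψ s * F (curve s)) = c * c' * mean n (fun s => F (curve s)) := by
      rw [← mean_c]
      congr 1
      funext s
      rw [f1, f2]
    rw [g1, g2, g3, sub_self, abs_zero]
    exact hε.le
  · have hn0' : (0 : ℝ) < n := by exact_mod_cast hn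
    have hpw : (0 : ℝ) < (n : ℝ) ^ (3 / 4 : ℝ) := Real.rpow_pos_of_pos hn0' _
    have hsz : 0 < size n := lt_of_lt_of_le (by positivity) (hsize n hn).1
    obtain ⟨κ, hκ⟩ : ∃ κ : ℝ, κ = (n : ℝ) ^ (3 / 4 : ℝ) / size n := ⟨_, rfl⟩
    have hκ0 : 0 ≤ κ := by rw [hκ]; positivity
    have hκ1 : κ ≤ 1 / cs := by
      rw [hκ, div_le_div_iff₀ hsz hcs, one_mul, mul_comm]
      exact (hsize n hn).1
    have hL : LipschitzWith K' fun γ => F (κ • γ) := by
      refine LipschitzWith.of_dist_le_mul fun x y => ?_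
      refine (hF.dist_le_mul _ _).trans ?_
      have h1 : dist (κ • x) (κ • y) = κ * dist x y := by
        have e : κ • x - κ • y = κ • (x - y) := by
          ext u
          simp [mul_sub]
        rw [dist_eq_norm, dist_eq_norm, e, norm_smul, Real.norm_of_nonneg hκ0]
      rw [h1, hK', ← mul_assoc]
      refine mul_le_mul_of_nonneg_right ?_ dist_nonneg
      push_cast
      rw [Real.coe_toNNReal _ (by positivity)]
      have h2 : (K : ℝ) * κ ≤ K * (1 / cs) := mul_le_mul_of_nonneg_left hκ1 K.2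
      linarith
    have k2 := h2 n m m' hge (hm.trans (mul_le_mul_of_nonneg_right hd2 hnr)) (hm'.trans (mul_le_mul_of_nonneg_right hd2 hnr))
      (fun γ => F (κ • γ)) hL (fun γ => bF _) Φ Ψ hΦ hΨ bΦ bΨ
    have e1 : ∀ s : Fin n → Fin 3, κ • Pool.Agent.IW.Res.curve s = curve s := fun s => by rw [curve_iw hn, ← hκ]
    simp only [e1] at k2
    have k1 := h1 n m hn (hm.trans (mul_le_mul_of_nonneg_right hd1 hnr)) F hF bF Φ hΦ bΦ
    have k3 : |mean n Ψ| ≤ 1 := abs_mean_le zero_le_one fun s _ => bΨ s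
    have e2 : (fun s : Fin n → Fin 3 => Φ s * F (curve s) * Ψ s) = fun s => Φ s * Ψ s * F (curve s) := by
      funext s
      ring
    rw [e2] at k2
    have k4 : |mean n Ψ * (mean n (fun s => Φ s * F (curve s)) - mean n Φ * mean n (fun s => F (curve s)))| ≤ ε / 2 := by
      rw [abs_mul]
      exact (mul_le_of_le_one_left (abs_nonneg _) k3).trans k1
    have e3 : mean n (fun s => Φ s * Ψ s * F (curve s)) - mean n Φ * mean n Ψ * mean n (fun s => F (curve s)) =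
        (mean n (fun s => Φ s * Ψ s * F (curve s)) - mean n Ψ * mean n (fun s => Φ s * F (curve s))) +
          mean n Ψ * (mean n (fun s => Φ s * F (curve s)) - mean n Φ * mean n (fun s => F (curve s))) := by ring
    rw [e3]
    refine (abs_add_le _ _).trans ?_
    linarith

/-- **the same up to `ε` in mean**, no condition on the size of the gates -/
theorem mix2B {ε : ℝ} (hε : 0 < ε) (K : NNReal) : ∃ δ : ℝ, 0 < δ ∧ δ ≤ 1 ∧ ∀ n m m' : ℕ, 1 ≤ n → (m : ℝ) ≤ δ * n →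
    (m' : ℝ) ≤ δ * n → ∀ Gp Gq : (Fin n → Fin 3) → ℝ, (∀ s, |Gp s| ≤ 1) → (∀ s, |Gq s| ≤ 1) →
      NearS n m ε Gp → NearE n m' ε Gq → ∀ F : C(unitInterval, ℂ) → ℝ, LipschitzWith K F → (∀ γ, |F γ| ≤ 1) →
        |mean n (fun s => Gp s * Gq s * F (curve s)) - mean n Gp * mean n Gq * mean n (fun s => F (curve s))| ≤ 5 * ε := by
  obtain ⟨δ, hδ, hδ1, h⟩ := mix2A hε K
  refine ⟨δ, hδ, hδ1, fun n m m' hn hm hm' Gp Gq bp bq => ?_⟩
  rintro ⟨Φ, hΦ, bΦ, dΦ⟩ ⟨Ψ, hΨ, bΨ, dΨ⟩ F hF bF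
  have b2 : ∀ {a b : ℝ}, |a| ≤ 1 → |b| ≤ 1 → |a * b| ≤ 1 := fun {a b} ha hb => by
    rw [abs_mul]
    nlinarith [abs_nonneg a, abs_nonneg b]
  have s1 := mean_dist (h := fun s => Gp s * F (curve s)) dΨ fun s => b2 (bp s) (bF _)
  have s2 := mean_dist (h := fun s => Ψ s * F (curve s)) dΦ fun s => b2 (bΨ s) (bF _)
  have s3 := h n m m' hn hm hm' F hF bF Φ Ψ hΦ hΨ bΦ bΨ
  have s7 := mean_dist1 dΦ
  have s8 := mean_dist1 dΨ
  have m1 : |mean n Ψ| ≤ 1 := abs_mean_le zero_le_one fun s _ => bΨ s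
  have m2 : |mean n Gp| ≤ 1 := abs_mean_le zero_le_one fun s _ => bp s
  have m3 : |mean n fun s => F (curve s)| ≤ 1 := abs_mean_le zero_le_one fun s _ => bF _
  obtain ⟨A0, hA0⟩ : ∃ A, A = mean n (fun s => Gp s * Gq s * F (curve s)) := ⟨_, rfl⟩
  obtain ⟨A1, hA1⟩ : ∃ A, A = mean n (fun s => Ψ s * (Gp s * F (curve s))) := ⟨_, rfl⟩
  obtain ⟨A2, hA2⟩ : ∃ A, A = mean n (fun s => Φ s * Ψ s * F (curve s)) := ⟨_, rfl⟩
  obtain ⟨f, hf⟩ : ∃ A, A = mean n (fun s => F (curve s)) := ⟨_, rfl⟩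
  obtain ⟨gp, hgp⟩ : ∃ A, A = mean n Gp := ⟨_, rfl⟩
  obtain ⟨gq, hgq⟩ : ∃ A, A = mean n Gq := ⟨_, rfl⟩
  obtain ⟨ph, hph⟩ : ∃ A, A = mean n Φ := ⟨_, rfl⟩
  obtain ⟨ps, hps⟩ : ∃ A, A = mean n Ψ := ⟨_, rfl⟩
  have e1 : (fun s => Gq s * (Gp s * F (curve s))) = fun s => Gp s * Gq s * F (curve s) := by
    funext s
    ring
  have e2 : (fun s => Gp s * (Ψ s * F (curve s))) = fun s => Ψ s * (Gp s * F (curve s)) := by
    funext s
    ring
  have e3 : (fun s => Φ s * (Ψ s * F (curve s))) = fun s => Φ s * Ψ s * F (curve s) := by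
    funext s
    ring
  rw [e1, ← hA0, ← hA1] at s1
  rw [e2, e3, ← hA1, ← hA2] at s2
  rw [← hA2, ← hph, ← hps, ← hf] at s3
  rw [← hgp, ← hph] at s7
  rw [← hgq, ← hps] at s8
  rw [← hps] at m1
  rw [← hgp] at m2
  rw [← hf] at m3
  rw [← hA0, ← hgp, ← hgq, ← hf]
  have t7 : |ph * ps * f - gp * ps * f| ≤ ε := by
    have e : ph * ps * f - gp * ps * f = (ps * f) * (ph - gp) := by ring
    rw [e, abs_mul, abs_sub_comm ph gp]
    exact (mul_le_of_le_one_left (abs_nonneg _) (b2 m1 m3)).trans s7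
  have t8 : |gp * ps * f - gp * gq * f| ≤ ε := by
    have e : gp * ps * f - gp * gq * f = (gp * f) * (ps - gq) := by ring
    rw [e, abs_mul, abs_sub_comm ps gq]
    exact (mul_le_of_le_one_left (abs_nonneg _) (b2 m2 m3)).trans s8
  rw [abs_le] at s1 s2 s3 t7 t8 ⊢
  constructor <;> linarith [s1.1, s1.2, s2.1, s2.2, s3.1, s3.2, t7.1, t7.2, t8.1, t8.2]

/-- **the gates cost nothing**: `mix3` without `NearL`, one `δ` -/
theorem mix3A {ε p : ℝ} (hε : 0 < ε) (hp : 0 < p) (K : NNReal) : ∃ e δ : ℝ, 0 < e ∧ 0 < δ ∧ δ ≤ 1 ∧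
    ∀ n m m' : ℕ, 1 ≤ n → (m : ℝ) ≤ δ * n → (m' : ℝ) ≤ δ * n →
      ∀ Gp Gq : (Fin n → Fin 3) → ℝ, (∀ s, |Gp s| ≤ 1) → (∀ s, |Gq s| ≤ 1) → p ≤ mean n Gp → p ≤ mean n Gq →
        NearS n m e Gp → NearE n m' e Gq →
          p ^ 2 / 2 ≤ mean n (fun s => Gp s * Gq s) ∧
          ∀ F : C(unitInterval, ℂ) → ℝ, LipschitzWith K F → (∀ γ, |F γ| ≤ 1) →
            |mean n (fun s => Gp s * Gq s * F (curve s)) - mean n (fun s => Gp s * Gq s) * mean n (fun s => F (curve s))| ≤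
              ε * mean n (fun s => Gp s * Gq s) := by
  obtain ⟨e, he⟩ : ∃ e : ℝ, e = min (p ^ 2 / 16) (ε * p ^ 2 / 32) := ⟨_, rfl⟩
  have he0 : 0 < e := by rw [he]; positivity
  have he1 : e ≤ p ^ 2 / 16 := by rw [he]; exact min_le_left _ _
  have he2 : e ≤ ε * p ^ 2 / 32 := by rw [he]; exact min_le_right _ _
  obtain ⟨δ, hδ, hδ1, h⟩ := mix2B he0 K
  refine ⟨e, δ, he0, hδ, hδ1, fun n m m' hn hm hm' Gp Gq bp bq pp pq n1 n3 => ?_⟩
  have h1 := h n m m' hn hm hm' Gp Gq bp bq n1 n3 (fun _ => 1) ((LipschitzWith.const 1).weaken bot_le)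
    fun _ => by rw [abs_one]
  simp only [mul_one, mean_one] at h1
  have hpq : p ^ 2 ≤ mean n Gp * mean n Gq := by
    rw [sq]
    exact mul_le_mul pp pq hp.le (hp.le.trans pp)
  have h1' := abs_le.1 h1
  have hlow : p ^ 2 / 2 ≤ mean n (fun s => Gp s * Gq s) := by linarith [h1'.1]
  refine ⟨hlow, fun F hF bF => ?_⟩
  have h2 := h n m m' hn hm hm' Gp Gq bp bq n1 n3 F hF bF
  have m3 : |mean n fun s => F (curve s)| ≤ 1 := abs_mean_le zero_le_one fun s _ => bF _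
  obtain ⟨g, hg⟩ : ∃ g, g = mean n (fun s => Gp s * Gq s) := ⟨_, rfl⟩
  obtain ⟨f, hf⟩ : ∃ f, f = mean n (fun s => F (curve s)) := ⟨_, rfl⟩
  obtain ⟨A, hA⟩ : ∃ A, A = mean n (fun s => Gp s * Gq s * F (curve s)) := ⟨_, rfl⟩
  rw [← hg] at h1 hlow
  rw [← hA, ← hf] at h2
  rw [← hf] at m3
  rw [← hA, ← hg, ← hf]
  have h3 : |mean n Gp * mean n Gq * f - g * f| ≤ 5 * e := by
    rw [← sub_mul, abs_mul, abs_sub_comm]
    exact (mul_le_of_le_one_right (abs_nonneg _) m3).trans h1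
  have h4 : |A - g * f| ≤ 10 * e := by
    rw [abs_le] at h2 h3 ⊢
    constructor <;> linarith [h2.1, h2.2, h3.1, h3.2]
  have h5 : ε * (p ^ 2 / 2) ≤ ε * g := mul_le_mul_of_nonneg_left hlow hε.le
  linarith

end Pool.Agent.ROT.F3

end
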