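import Pool.Agent.ROT.F3Gt80
import Pool.Agent.ROT.F3Mix
import Pool.Agent.ROT.F3AppX

/-!
# ROT, F3 (B), row R11 (helper37): the mixing field of `Gm` from the words

* `near_saw` : two functionals with values in `[0, 1]` which agree outside of a bad set;
* `size_up` : `size n ≤ C size N` for `n ≤ 2 N`;
* **`gm_n`** : the gated sums of the walks with exactly `n` steps: the start gates and the end gates are functions of the
  first / last letters outside of rare walks (helper51's `locS_of`, `locE_of`), the gates are their product (helper80's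
  `gam_gG`), and the tips mix with the curve (helper41's `mix2B`);
* **`gm_words`** : the same for `n` near `N`, all conditions on the data at the scale `N`.
-/

set_option autoImplicit false

open MeasureTheory Filter Topology Finset
open scoped ENNReal NNReal Classical

namespace Pool.Agent.ROT.F3E

open Pool.Agent.NTS.Res Pool.Agent.CRT Pool.Agent.ROT.F3

open Pool.Agent.IW.Res (mean)

lemma near_saw {n : ℕ} {ε : ℝ} {G Φ : (Fin n → Fin 3) → ℝ} {B : Set (Fin n → Fin 3)} (g0 : ∀ s ∈ saw n, 0 ≤ G s)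
    (g1 : ∀ s ∈ saw n, G s ≤ 1) (f0 : ∀ s ∈ saw n, 0 ≤ Φ s) (f1 : ∀ s ∈ saw n, Φ s ≤ 1)
    (h : ∀ s ∈ saw n, s ∉ B → G s = Φ s)
    (hB : (((saw n).filter fun s => s ∈ B).card : ℝ) ≤ ε * ((saw n).card : ℝ)) : mean n (fun s => |G s - Φ s|) ≤ ε := by
  have h0 : (0 : ℝ) < ((saw n).card : ℝ) := NTSF.saw_card_pos n
  show (∑ s ∈ saw n, |G s - Φ s|) / ((saw n).card : ℝ) ≤ _
  rw [div_le_iff₀ h0]
  have h1 : ∀ s ∈ saw n, |G s - Φ s| ≤ if s ∈ B then 1 else 0 := by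
    intro s hs'
    split_ifs with hs
    · rw [abs_le]
      constructor <;> linarith [g0 s hs', g1 s hs', f0 s hs', f1 s hs']
    · rw [h s hs' hs, sub_self, abs_zero]
  refine (Finset.sum_le_sum h1).trans ?_
  rw [← Finset.sum_filter, Finset.sum_const, nsmul_eq_mul]
  linarith

lemma size_up : ∃ C : ℝ, 0 < C ∧ ∀ N n : ℕ, 1 ≤ N → 1 ≤ n → n ≤ 2 * N → size n ≤ C * size N := by
  obtain ⟨cs, Cs, hcs, hs, -⟩ := NTSF.finE
  have hCs : 0 < Cs := by
    have h1 := hs 1 le_rfl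
    have h2 : ((1 : ℕ) : ℝ) ^ (3 / 4 : ℝ) = 1 := by rw [Nat.cast_one, Real.one_rpow]
    rw [h2] at h1
    linarith [h1.1, h1.2]
  refine ⟨2 * Cs / cs, by positivity, fun N n hN hn hn2 => ?_⟩
  have h1 := (hs n hn).2
  have h2 := (hs N hN).1
  have h3 : (n : ℝ) ^ (3 / 4 : ℝ) ≤ 2 * (N : ℝ) ^ (3 / 4 : ℝ) := by
    have h4 : (n : ℝ) ^ (3 / 4 : ℝ) ≤ (2 * (N : ℝ)) ^ (3 / 4 : ℝ) :=
      Real.rpow_le_rpow (Nat.cast_nonneg _) (by exact_mod_cast hn2) (by norm_num)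
    have h5 : (2 : ℝ) ^ (3 / 4 : ℝ) ≤ 2 := by
      have := Real.rpow_le_rpow_of_exponent_le (x := 2) one_le_two (show (3 / 4 : ℝ) ≤ 1 by norm_num)
      rwa [Real.rpow_one] at this
    rw [Real.mul_rpow zero_le_two (Nat.cast_nonneg _)] at h4
    exact h4.trans (mul_le_mul_of_nonneg_right h5 (Real.rpow_nonneg (Nat.cast_nonneg _) _))
  have h6 : 2 * Cs / cs * (cs * (N : ℝ) ^ (3 / 4 : ℝ)) ≤ 2 * Cs / cs * size N :=
    mul_le_mul_of_nonneg_left h2 (by positivity)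
  refine h1.trans (le_trans (mul_le_mul_of_nonneg_left h3 hCs.le) (le_trans (le_of_eq ?_) h6))
  field_simp

/-- **the gates of both ends mix with the curve** (words with exactly `n` letters) -/
theorem gm_n {e : ℝ} (he0 : 0 < e) : ∃ δ κ K : ℝ, 0 < δ ∧ δ ≤ 1 / 16 ∧ 0 < κ ∧ 0 < K ∧ ∃ n0 : ℕ, ∀ n : ℕ, n0 ≤ n →
    ∀ F : CI → ℝ, LipschitzWith 1 F → (∀ γ, |F γ| ≤ 1) →
    ∀ (T Rs T' : Set W3) (f Ψ f' hs he : W3 → ℝ) (A B M L L0 L1 : ℕ) (r r' ρ D D1 : ℝ), TpB A r T → TpB B r' T' →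
      (∀ R ∈ Rs, Even R.length) → LocW ρ M L hs → LocW ρ M L he →
      (∀ R : W3, Even R.length → SW R → D ≤ ‖en R‖ → ‖en R‖ ≤ D1 → L0 ≤ R.length → R.length ≤ L1 →
        (if R ∈ Rs then Ψ R else 0) = hs R * he R.reverse) → UnS T hs → UnS T' he →
      (∀ a, 0 ≤ f a) → (∀ a, f a ≤ 1) → (∀ a, 0 ≤ f' a) → (∀ a, f' a ≤ 1) → (∀ a, 0 ≤ hs a) → (∀ a, hs a ≤ 1) →
      (∀ a, 0 ≤ he a) → (∀ a, he a ≤ 1) → 0 ≤ r → 0 ≤ r' → 0 ≤ ρ → ρ + 2 * r < D → ρ + 2 * r' < D →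
      (A : ℝ) + M ≤ δ * n → (B : ℝ) + M ≤ δ * n → D + r + r' ≤ κ * size n → K * size n + r + r' ≤ D1 →
      A + B + M ≤ n → A + B + L ≤ n → A + B + L0 ≤ n → n ≤ L1 → (∀ w i j, 0 ≤ gG T Rs T' f Ψ f' w i j) →
      (∀ w, SW w → Gam (gG T Rs T' f Ψ f') w ≤ 1) →
        |∑ s ∈ saw n, Gam (gG T Rs T' f Ψ f') (List.ofFn s) * F (curve s) -
          (∑ s ∈ saw n, Gam (gG T Rs T' f Ψ f') (List.ofFn s)) * ∫ γ, F γ ∂(law n)| ≤ e * (saw n).card := by
  obtain ⟨δ0, hδ0, hδ1, hmix⟩ := mix2B (ε := e / 20) (by positivity) 1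
  obtain ⟨κ1, hκ1, n1, hf1⟩ := farS (τ := δ0 / 2) (ε := e / 40) (by positivity) (by positivity)
  obtain ⟨κ2, hκ2, n2, hf2⟩ := farE (τ := δ0 / 2) (ε := e / 40) (by positivity) (by positivity)
  obtain ⟨κ3, hκ3, n3, hf3⟩ := farS (τ := 1) (ε := e / 8) one_pos (by positivity)
  obtain ⟨A0, hA0⟩ : ∃ A0 : ℝ, A0 = 1 / Real.sqrt (e / 8) := ⟨_, rfl⟩
  have hsq : 0 < Real.sqrt (e / 8) := Real.sqrt_pos.2 (by positivity)
  have hA0' : 0 < A0 := by
    rw [hA0]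
    positivity
  have hAe : 1 / A0 ^ 2 = e / 8 := by
    rw [hA0, div_pow, one_pow, Real.sq_sqrt (by positivity), one_div_one_div]
  refine ⟨δ0 / 16, min κ1 (min κ2 κ3), A0, by positivity, by linarith, lt_min hκ1 (lt_min hκ2 hκ3), hA0',
    max (max n1 n2) (max n3 (⌈4 / δ0⌉₊ + 1)), ?_⟩
  intro n hn F hF hF1 T Rs T' f Ψ f' hs he A B M L L0 L1 r r' ρ D D1 hT hT' hRs lS lE hR uS uE f0 f1 f0' f1'
    s0 s1 e0 e1 hr hr' hρ hD hD' hA hB hκN hK hM hL hL0 hL1 gnn gone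
  have N1 : n1 ≤ n := (le_max_left _ _).trans ((le_max_left _ _).trans hn)
  have N2 : n2 ≤ n := (le_max_right _ _).trans ((le_max_left _ _).trans hn)
  have N3 : n3 ≤ n := (le_max_left _ _).trans ((le_max_right _ _).trans hn)
  have N4 : ⌈4 / δ0⌉₊ + 1 ≤ n := (le_max_right _ _).trans ((le_max_right _ _).trans hn)
  have hn1 : 1 ≤ n := by omega
  have hn0 : (0 : ℝ) < n := by exact_mod_cast hn1
  have N4' : 4 ≤ δ0 * n := by
    have h1 : 4 / δ0 ≤ n := (Nat.le_ceil _).trans (by exact_mod_cast (by omega : ⌈4 / δ0⌉₊ ≤ n))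
    rwa [div_le_iff₀' hδ0] at h1
  have hS0 : 0 ≤ size n := Real.sqrt_nonneg _
  have hc0 : (0 : ℝ) < ((saw n).card : ℝ) := NTSF.saw_card_pos n
  have k1 : min κ1 (min κ2 κ3) * size n ≤ κ1 * size n := mul_le_mul_of_nonneg_right (min_le_left _ _) hS0
  have k2 : min κ1 (min κ2 κ3) * size n ≤ κ2 * size n :=
    mul_le_mul_of_nonneg_right ((min_le_right _ _).trans (min_le_left _ _)) hS0
  have k3 : min κ1 (min κ2 κ3) * size n ≤ κ3 * size n :=
    mul_le_mul_of_nonneg_right ((min_le_right _ _).trans (min_le_right _ _)) hS0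
  -- odd numbers of steps
  rcases Nat.even_or_odd n with hev | hodd
  swap
  · have hz : ∀ s ∈ saw n, Gam (gG T Rs T' f Ψ f') (List.ofFn s) = 0 := fun s _ =>
      gam_odd (fun a ha => (hT a ha).1) hRs (fun a ha => (hT' a ha).1) (by
        rw [List.length_ofFn, Nat.not_even_iff_odd]
        exact hodd)
    rw [Finset.sum_eq_zero fun s hs => by rw [hz s hs, zero_mul], Finset.sum_eq_zero hz, zero_mul, sub_zero, abs_zero]
    positivity
  obtain ⟨m, hm⟩ : ∃ m : ℕ, m = ⌊δ0 * n⌋₊ := ⟨_, rfl⟩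
  have hm1 : (m : ℝ) ≤ δ0 * n := by
    rw [hm]
    exact Nat.floor_le (by positivity)
  have hm2 : δ0 * n < m + 1 := by
    rw [hm]
    exact Nat.lt_floor_add_one _
  have hmn : m ≤ n := by
    have : (m : ℝ) ≤ n := hm1.trans (by nlinarith)
    exact_mod_cast this
  have hmt : δ0 / 2 * n ≤ m := by linarith
  have hAM : A + M ≤ m := by
    have : (A : ℝ) + M ≤ m := by linarith
    exact_mod_cast this
  have hBM : B + M ≤ m := by
    have : (B : ℝ) + M ≤ m := by linarith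
    exact_mod_cast this
  -- the two gates
  obtain ⟨Gp, hGp⟩ : ∃ Gp : (Fin n → Fin 3) → ℝ, Gp = fun s => gS T f hs (List.ofFn s) := ⟨_, rfl⟩
  obtain ⟨Gq, hGq⟩ : ∃ Gq : (Fin n → Fin 3) → ℝ, Gq = fun s => gS T' f' he (List.ofFn s).reverse := ⟨_, rfl⟩
  have p0 : ∀ s, 0 ≤ Gp s := fun s => by
    rw [hGp]
    exact gS_nonneg f0 s0 _
  have p1 : ∀ s, Gp s ≤ 1 := fun s => by
    rw [hGp]
    exact gS_le_one uS s0 f1 s1 _
  have q0 : ∀ s, 0 ≤ Gq s := fun s => by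
    rw [hGq]
    exact gS_nonneg f0' e0 _
  have q1 : ∀ s, Gq s ≤ 1 := fun s => by
    rw [hGq]
    exact gS_le_one uE e0 f1' e1 _
  have bp : ∀ s, |Gp s| ≤ 1 := fun s => by
    rw [abs_of_nonneg (p0 s)]
    exact p1 s
  have bq : ∀ s, |Gq s| ≤ 1 := fun s => by
    rw [abs_of_nonneg (q0 s)]
    exact q1 s
  have ee : e / 20 = 2 * (e / 40) := by ring
  have nS : NearS n m (e / 20) Gp := by
    rw [ee]
    refine locS_of (B := {s | ∃ j : ℕ, δ0 / 2 * n ≤ j ∧ j ≤ n ∧ ‖pos s j‖ ≤ κ1 * size n}) bp ?_ (hf1 n N1)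
    intro s s' hs1 hs2 hag
    rw [hGp]
    have key : ∀ t : Fin n → Fin 3, t ∉ {s : Fin n → Fin 3 | ∃ j : ℕ, δ0 / 2 * n ≤ j ∧ j ≤ n ∧ ‖pos s j‖ ≤ κ1 * size n} →
        ∀ k, m ≤ k → k ≤ (List.ofFn t).length → ρ + r < ‖ps (List.ofFn t) k‖ := by
      intro t ht k hk1 hk2
      rw [List.length_ofFn] at hk2
      rw [ps_ofFn]
      by_contra hc'
      push Not at hc'
      refine ht ⟨k, hmt.trans (by exact_mod_cast hk1), hk2, hc'.trans ?_⟩
      linarith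
    refine gS_loc hT lS (by simp) (by rw [List.length_ofFn]; exact hmn) hAM (by rw [List.length_ofFn]; omega) ?_
      (key s hs1) (key s' hs2)
    refine List.ext_getElem (by simp) fun i h1 h2 => ?_
    rw [List.getElem_take, List.getElem_take, List.getElem_ofFn, List.getElem_ofFn]
    rw [List.length_take, List.length_ofFn] at h1
    exact hag ⟨i, by omega⟩ (lt_of_lt_of_le h1 (min_le_left _ _))
  have nE : NearE n m (e / 20) Gq := by
    rw [ee]
    refine locE_of (B := {s | ∃ j : ℕ, (j : ℝ) ≤ (1 - δ0 / 2) * n ∧ ‖pos s j - pos s n‖ ≤ κ2 * size n}) bq ?_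
      (hf2 n N2)
    intro s s' hs1 hs2 hag
    rw [hGq]
    have key : ∀ t : Fin n → Fin 3, t ∉ {s : Fin n → Fin 3 | ∃ j : ℕ, (j : ℝ) ≤ (1 - δ0 / 2) * n ∧
        ‖pos s j - pos s n‖ ≤ κ2 * size n} → ∀ k, m ≤ k → k ≤ (List.ofFn t).reverse.length →
        ρ + r' < ‖ps (List.ofFn t).reverse k‖ := by
      intro t ht k hk1 hk2
      rw [List.length_reverse, List.length_ofFn] at hk2
      rw [ps_reverse (by rw [List.length_ofFn]; exact hev) (by rw [List.length_ofFn]; exact hk2), List.length_ofFn, ps_ofFn,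
        en, List.length_ofFn, ps_ofFn]
      by_contra hc'
      push Not at hc'
      refine ht ⟨n - k, ?_, hc'.trans ?_⟩
      · rw [Nat.cast_sub hk2]
        have : (m : ℝ) ≤ k := by exact_mod_cast hk1
        linarith
      · linarith
    refine gS_loc hT' lE (by simp) (by rw [List.length_reverse, List.length_ofFn]; exact hmn) hBM
      (by rw [List.length_reverse, List.length_ofFn]; omega) ?_ (key s hs1) (key s' hs2)
    rw [List.take_reverse, List.take_reverse, List.length_ofFn, List.length_ofFn]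
    congr 1
    refine List.ext_getElem (by simp) fun i h1 h2 => ?_
    rw [List.getElem_drop, List.getElem_drop, List.getElem_ofFn, List.getElem_ofFn]
    rw [List.length_drop, List.length_ofFn] at h1
    exact hag ⟨n - m + i, by omega⟩ (by show n ≤ n - m + i + m; omega)
  have m1 := hmix n m m hn1 hm1 hm1 Gp Gq bp bq nS nE F hF hF1
  have m2 := hmix n m m hn1 hm1 hm1 Gp Gq bp bq nS nE (fun _ => 1) (LipschitzWith.const' 1) (fun _ => by rw [abs_one])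
  simp only [mul_one] at m2
  rw [mean_one, mul_one] at m2
  -- the product
  obtain ⟨Bd, hBd⟩ : ∃ Bd : Set (Fin n → Fin 3), Bd = {s | ‖pos s n‖ < D + r + r'} ∪ {s | A0 * size n ≤ ‖pos s n‖} := ⟨_, rfl⟩
  have cB : (((saw n).filter fun s => s ∈ Bd).card : ℝ) ≤ e / 4 * ((saw n).card : ℝ) := by
    have c1 : (((saw n).filter fun s => ‖pos s n‖ < D + r + r').card : ℝ) ≤ e / 8 * ((saw n).card : ℝ) := by
      refine le_trans ?_ (hf3 n N3)
      refine Nat.cast_le.2 (Finset.card_le_card fun s hs => ?_)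
      rw [Finset.mem_filter] at hs ⊢
      exact ⟨hs.1, n, by rw [one_mul], le_rfl, by linarith [hs.2]⟩
    have c2 := far_n hn1 hA0'
    rw [hAe] at c2
    have c3 : ((saw n).filter fun s => s ∈ Bd).card ≤ ((saw n).filter fun s => ‖pos s n‖ < D + r + r').card +
        ((saw n).filter fun s => A0 * size n ≤ ‖pos s n‖).card := by
      refine le_trans (Finset.card_le_card fun s hs => ?_) (Finset.card_union_le _ _)
      rw [Finset.mem_filter] at hs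
      rw [Finset.mem_union, Finset.mem_filter, Finset.mem_filter]
      rw [hBd] at hs
      rcases hs.2 with h | h
      · exact Or.inl ⟨hs.1, h⟩
      · exact Or.inr ⟨hs.1, h⟩
    have c4 : (((saw n).filter fun s => s ∈ Bd).card : ℝ) ≤ (((saw n).filter fun s => ‖pos s n‖ < D + r + r').card : ℝ) +
        (((saw n).filter fun s => A0 * size n ≤ ‖pos s n‖).card : ℝ) := by exact_mod_cast c3
    linarith
  have hGam : ∀ s ∈ saw n, s ∉ Bd → Gam (gG T Rs T' f Ψ f') (List.ofFn s) = Gp s * Gq s := by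
    intro s hs' hsB
    rw [hBd] at hsB
    have h1 : ¬ ‖pos s n‖ < D + r + r' := fun h => hsB (Or.inl h)
    have h2 : ¬ A0 * size n ≤ ‖pos s n‖ := fun h => hsB (Or.inr h)
    push Not at h1 h2
    have h3 : en (List.ofFn s) = pos s n := by rw [en, List.length_ofFn, ps_ofFn]
    rw [hGp, hGq]
    refine gam_gG hT hT' lS lE hR hD hD' (SW_ofFn s |>.2 hs') (by rw [List.length_ofFn]; exact hev) ?_ ?_ ?_ ?_ ?_ ?_
    · rw [h3]
      exact h1
    · rw [h3]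
      linarith
    · rw [List.length_ofFn]
      omega
    · rw [List.length_ofFn]
      omega
    · rw [List.length_ofFn]
      omega
    · rw [List.length_ofFn]
      omega
  have d0 : mean n (fun s => |Gam (gG T Rs T' f Ψ f') (List.ofFn s) - Gp s * Gq s|) ≤ e / 4 :=
    near_saw (fun s _ => Gam_nonneg gnn _) (fun s hs' => gone _ (SW_ofFn s |>.2 hs')) (fun s _ => mul_nonneg (p0 s) (q0 s))
      (fun s _ => mul_le_one₀ (p1 s) (q0 s) (q1 s)) hGam cB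
  have d1 := mean_dist (h := fun s => F (curve s)) d0 fun s => hF1 _
  have d2 := mean_dist1 d0
  have m3 : |mean n fun s => F (curve s)| ≤ 1 := abs_mean_le zero_le_one fun s _ => hF1 _
  rw [← mean_int F]
  obtain ⟨a, ha⟩ : ∃ a, a = mean n (fun s => Gam (gG T Rs T' f Ψ f') (List.ofFn s) * F (curve s)) := ⟨_, rfl⟩
  obtain ⟨b, hb⟩ : ∃ b, b = mean n (fun s => Gam (gG T Rs T' f Ψ f') (List.ofFn s)) := ⟨_, rfl⟩
  obtain ⟨φ, hφ⟩ : ∃ φ, φ = mean n (fun s => F (curve s)) := ⟨_, rfl⟩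
  obtain ⟨a', ha'⟩ : ∃ a', a' = mean n (fun s => Gp s * Gq s * F (curve s)) := ⟨_, rfl⟩
  obtain ⟨b', hb'⟩ : ∃ b', b' = mean n (fun s => Gp s * Gq s) := ⟨_, rfl⟩
  obtain ⟨p, hp⟩ : ∃ p, p = mean n Gp * mean n Gq := ⟨_, rfl⟩
  have ea : ∑ s ∈ saw n, Gam (gG T Rs T' f Ψ f') (List.ofFn s) * F (curve s) = a * (saw n).card := by
    rw [ha]
    show _ = (∑ s ∈ saw n, Gam (gG T Rs T' f Ψ f') (List.ofFn s) * F (curve s)) / ((saw n).card : ℝ) * _
    field_simp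
  have eb : ∑ s ∈ saw n, Gam (gG T Rs T' f Ψ f') (List.ofFn s) = b * (saw n).card := by
    rw [hb]
    show _ = (∑ s ∈ saw n, Gam (gG T Rs T' f Ψ f') (List.ofFn s)) / ((saw n).card : ℝ) * _
    field_simp
  rw [← ha, ← ha'] at d1
  rw [← hb, ← hb'] at d2
  rw [← ha', ← hp, ← hφ] at m1
  rw [← hb', ← hp] at m2
  rw [← hφ] at m3 ⊢
  rw [ea, eb]
  have e5 : a * ((saw n).card : ℝ) - b * (saw n).card * φ = (a - b * φ) * (saw n).card := by ring
  rw [e5, abs_mul, abs_of_pos hc0]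
  refine mul_le_mul_of_nonneg_right ?_ hc0.le
  have e6 : a - b * φ = (a - a') + (a' - p * φ) - (b' - p) * φ - (b - b') * φ := by ring
  have t1 : |(b' - p) * φ| ≤ e / 4 := by
    rw [abs_mul]
    refine (mul_le_of_le_one_right (abs_nonneg _) m3).trans (m2.trans (le_of_eq ?_))
    ring
  have t2 : |(b - b') * φ| ≤ e / 4 := by
    rw [abs_mul]
    exact (mul_le_of_le_one_right (abs_nonneg _) m3).trans d2
  rw [e6]
  rw [abs_le] at d1 m1 t1 t2 ⊢
  constructor <;> linarith [d1.1, d1.2, m1.1, m1.2, t1.1, t1.2, t2.1, t2.2]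

/-- **the mixing field**, the numbers at the scale `N` -/
theorem gm_words {e : ℝ} (he0 : 0 < e) : ∃ δ κ K : ℝ, 0 < δ ∧ δ ≤ 1 / 16 ∧ 0 < κ ∧ 0 < K ∧ ∃ N0 : ℕ, ∀ N : ℕ, N0 ≤ N →
    ∀ th : ℝ, 0 < th → th ≤ 1 / 8 → ∀ F : CI → ℝ, LipschitzWith 1 F → (∀ γ, |F γ| ≤ 1) →
    ∀ (T Rs T' : Set W3) (f Ψ f' hs he : W3 → ℝ) (A B M L L0 L1 : ℕ) (r r' ρ D D1 : ℝ), TpB A r T → TpB B r' T' →
      (∀ R ∈ Rs, Even R.length) → LocW ρ M L hs → LocW ρ M L he →
      (∀ R : W3, Even R.length → SW R → D ≤ ‖en R‖ → ‖en R‖ ≤ D1 → L0 ≤ R.length → R.length ≤ L1 →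
        (if R ∈ Rs then Ψ R else 0) = hs R * he R.reverse) → UnS T hs → UnS T' he →
      (∀ a, 0 ≤ f a) → (∀ a, f a ≤ 1) → (∀ a, 0 ≤ f' a) → (∀ a, f' a ≤ 1) → (∀ a, 0 ≤ hs a) → (∀ a, hs a ≤ 1) →
      (∀ a, 0 ≤ he a) → (∀ a, he a ≤ 1) → 0 ≤ r → 0 ≤ r' → 0 ≤ ρ → ρ + 2 * r < D → ρ + 2 * r' < D →
      (A : ℝ) + M ≤ δ * N → (B : ℝ) + M ≤ δ * N → D + r + r' ≤ κ * size N → K * size N + r + r' ≤ D1 →
      8 * L ≤ 5 * N → 8 * L0 ≤ 5 * N → 2 * N ≤ L1 → (∀ w i j, 0 ≤ gG T Rs T' f Ψ f' w i j) →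
      (∀ w, SW w → Gam (gG T Rs T' f Ψ f') w ≤ 1) → ∀ n ∈ Wn N (2 * th),
        |∑ s ∈ saw n, Gam (gG T Rs T' f Ψ f') (List.ofFn s) * F (curve s) -
          (∑ s ∈ saw n, Gam (gG T Rs T' f Ψ f') (List.ofFn s)) * ∫ γ, F γ ∂(law n)| ≤ e * (saw n).card := by
  obtain ⟨δ, κ, K, hδ, hδ1, hκ, hK0, n0, h⟩ := gm_n he0
  obtain ⟨c, hc, hcm⟩ := size_cmp
  obtain ⟨Bc, hBc, hup⟩ := size_up
  refine ⟨3 / 4 * δ, κ * c, K * Bc, by positivity, by linarith, by positivity, by positivity, 2 * n0 + 1, ?_⟩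
  intro N hN th hth hth8 F hF hF1 T Rs T' f Ψ f' hs he A B M L L0 L1 r r' ρ D D1 hT hT' hRs lS lE hR uS uE f0 f1 f0' f1'
    s0 s1 e0 e1 hr hr' hρ hD hD' hA hB hκN hK hL hL0 hL1 gnn gone n hn
  have hN1 : 1 ≤ N := by omega
  have hN0 : (0 : ℝ) < N := by exact_mod_cast hN1
  rw [Wn_iff hN1 (by linarith)] at hn
  have hnl : 3 / 4 * (N : ℝ) ≤ n := by nlinarith [hn.1]
  have hnu : (n : ℝ) ≤ 5 / 4 * N := by nlinarith [hn.2]
  have hn2N : n ≤ 2 * N := by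
    have : (n : ℝ) ≤ 2 * N := by linarith
    exact_mod_cast this
  have hNn : N ≤ 2 * n := by
    have : (N : ℝ) ≤ 2 * n := by linarith
    exact_mod_cast this
  have hnW : n ∈ W2 N := by
    unfold W2
    rw [Finset.mem_filter, Finset.mem_range]
    exact ⟨by omega, hNn⟩
  obtain ⟨hn1, -, -, hsz⟩ := hcm N n hN1 hnW
  have hszu := hup N n hN1 hn1 hn2N
  have hn34 : 3 * N ≤ 4 * n := by
    have : 3 * (N : ℝ) ≤ 4 * n := by linarith
    exact_mod_cast this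
  have d1 : 3 / 4 * δ * N ≤ δ * n := by nlinarith
  have d2 : 3 / 4 * δ * N ≤ 3 / 64 * N := by nlinarith
  have hA4 : 64 * (A + M) ≤ 3 * N := by
    have : 64 * ((A : ℝ) + M) ≤ 3 * N := by linarith
    exact_mod_cast this
  have hB4 : 64 * (B + M) ≤ 3 * N := by
    have : 64 * ((B : ℝ) + M) ≤ 3 * N := by linarith
    exact_mod_cast this
  refine h n (by omega) F hF hF1 T Rs T' f Ψ f' hs he A B M L L0 L1 r r' ρ D D1 hT hT' hRs lS lE hR uS uE f0 f1 f0' f1'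
    s0 s1 e0 e1 hr hr' hρ hD hD' (hA.trans d1) (hB.trans d1) (hκN.trans ?_) ?_ (by omega) (by omega) (by omega)
    (by omega) gnn gone
  · have := mul_le_mul_of_nonneg_left hsz hκ.le
    linarith
  · have := mul_le_mul_of_nonneg_left hszu hK0.le
    linarith

end Pool.Agent.ROT.F3E
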