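import Pool.Agent.ROT.F3GW
import Pool.Agent.ROT.F3Cls
import Pool.Agent.ROT.F3PosI

/-!
# ROT / F3GtD (helper61): the gates of a strand: classes of F3Cls and start gates of words

One strand `u` (read from its root), direction `d`, absolute lengths. The gate conditions of the classes (`DblC`, `ThC`, `RestC`) =
start gates `GW` of `u` and of `u.drop c` and two balls:
* `StG` : the gate part of one strand: first gate `c`, second gate `x`, a cut of level at least `h` in the block, `RestC` behind `x`;
* **`stG_iff`** : `StG` <-> gate `c` of `u`, gate `x` of `u.drop c`, gate `y` of `u.drop c` with level `< m`, two balls; the radii of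
  the gates are free, only the ball `rg` behind `x` is a condition;
* `gw_over` : the gate `x` as a gate of `u` with level at least `m` over `c`;
* `restC_far` : the rest of the strand and the rest up to the next gate.
-/

set_option autoImplicit false

namespace Pool.Agent.ROT.F3

open Finset ComplexConjugate
open scoped ENNReal Classical

/-! ### small lemmas -/

lemma RestC.mono {d : ℂ} {r r' : ℝ} {R : W3} (h : RestC d r R) (hr : r' ≤ r) : RestC d r' R :=
  fun k h0 hk hn => h k h0 hk (hn.trans hr)

lemma sw_take {u : W3} (h : SW u) {k : ℕ} (hk : k ≤ u.length) : SW (u.take k) := by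
  intro i j hi hj he
  rw [List.length_take, min_eq_left hk] at hi hj
  rw [ps_take u hi hk, ps_take u hj hk] at he
  exact h i j (by omega) (by omega) he

lemma sw_drop {u : W3} (h : SW u) {k : ℕ} (hk : k ≤ u.length) (ek : Even k) : SW (u.drop k) := by
  intro i j hi hj he
  rw [List.length_drop] at hi hj
  rw [ps_append_drop u hk ek, ps_append_drop u hk ek, sub_left_inj] at he
  have := h _ _ (by omega) (by omega) he
  omega

/-- **the gate part of one strand**: `c` = first gate, `x` = second gate (number in `u`), `h` = level of the cut in the block -/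
structure StG (d : ℂ) (r l r2 m h rg : ℝ) (u : W3) (c x : ℕ) : Prop where
  lt : x < u.length
  g : DblC d r l r2 m (u.take x) c
  th : ThC d h ((u.take x).drop c)
  rest : RestC d rg (u.drop x)

section

variable {d : ℂ} {r l r2 m h rg r1 ρ1 r1' r1'' ρ'' : ℝ} {u : W3} {c x : ℕ}

lemma StG.le (g : StG d r l r2 m h rg u c x) : c ≤ x := by
  have := g.g.le
  rwa [List.length_take, min_eq_left g.lt.le] at this

lemma StG.evc (g : StG d r l r2 m h rg u c x) : Even c := by
  have h1 := g.g.a.ev
  have h2 := g.le
  have h3 := g.lt
  rwa [List.take_take, min_eq_left h2, List.length_take, min_eq_left (by omega)] at h1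

lemma StG.evx (g : StG d r l r2 m h rg u c x) : Even x := by
  have h1 := g.g.b.t.ev
  have h2 := g.le
  rw [List.length_drop, List.length_take, min_eq_left g.lt.le, Nat.even_sub h2] at h1
  exact h1.2 g.evc

/-- **the classes and the start gates** -/
theorem stG_iff (hu : SW u) (hcx : c ≤ x) (hx : x < u.length) (h1 : 2 * r ≤ r1) (h2 : r2 ≤ ρ1) (h3 : ρ1 + r2 ≤ rg)
    (h4 : 2 * r2 ≤ r1') (h5 : 2 * r2 ≤ r1'') (h6 : 2 * r2 ≤ ρ'') (h7 : ρ'' + 2 * r2 ≤ rg) (hl : 0 < l) (hm : 0 < m)
    (hh : 0 < h) :
    StG d r l r2 m h rg u c x ↔ (GW d l r1 ρ1 u c ∧ GW d m r1' rg (u.drop c) (x - c) ∧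
      (∃ y, GW d h r1'' ρ'' (u.drop c) y ∧ lv d (ps (u.drop c) y) < m)) ∧
      (∀ j : ℕ, j ≤ c → ‖ps u j‖ ≤ r) ∧ ∀ j : ℕ, c ≤ j → j ≤ x → ‖ps u j - ps u c‖ ≤ r2 := by
  have lx : (u.take x).length = x := by rw [List.length_take, min_eq_left hx.le]
  have tc : (u.take x).take c = u.take c := by rw [List.take_take, min_eq_left hcx]
  have ltc : (u.take c).length = c := by rw [List.length_take, min_eq_left (by omega)]
  have ld : (u.drop c).length = u.length - c := List.length_drop
  have bc : (u.take x).drop c = (u.drop c).take (x - c) := by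
    rw [List.drop_take]
  have lb : ((u.drop c).take (x - c)).length = x - c := by rw [List.length_take, ld, min_eq_left (by omega)]
  have dd : (u.drop c).drop (x - c) = u.drop x := by rw [List.drop_drop, show c + (x - c) = x by omega]
  have pt : ∀ j, j ≤ c → ps (u.take c) j = ps u j := fun j hj => ps_take u hj (by omega)
  have pb : ∀ j, j ≤ x - c → ps ((u.drop c).take (x - c)) j = ps (u.drop c) j := fun j hj =>
    ps_take _ hj (by rw [ld]; omega)
  have enb : en ((u.drop c).take (x - c)) = ps (u.drop c) (x - c) := by rw [en, lb, pb _ le_rfl]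
  have enc : en (u.take c) = ps u c := by rw [en, ltc, pt _ le_rfl]
  constructor
  · intro g
    have ec := g.evc
    have ex := g.evx
    have pd : ∀ j, ps (u.drop c) j = ps u (c + j) - ps u c := ps_append_drop u (by omega) ec
    have ga := g.g.a
    have gf := g.g.fa
    have gb := g.g.b
    have gfb := g.g.fb
    have gth := g.th
    rw [tc] at ga gf
    rw [bc] at gb gfb gth
    have hball1 : ∀ j : ℕ, j ≤ c → ‖ps u j‖ ≤ r := fun j hj => by
      rw [← pt j hj]
      exact ga.ball j (by rw [ltc]; exact hj)
    have hball2 : ∀ j : ℕ, j ≤ x - c → ‖ps (u.drop c) j‖ ≤ r2 := fun j hj => by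
      rw [← pb j hj]
      exact gb.t.ball j (by rw [lb]; exact hj)
    have hright : ∀ j : ℕ, 0 < j → j ≤ x - c → 0 < lv d (ps (u.drop c) j) := fun j h0 hj => by
      rw [← pb j hj]
      exact gb.right j h0 (by rw [lb]; exact hj)
    have hleft : ∀ j : ℕ, j ≤ x - c → lv d (ps (u.drop c) j) ≤ lv d (ps (u.drop c) (x - c)) := fun j hj => by
      rw [← pb j hj, ← enb]
      exact gb.t.left j (by rw [lb]; exact hj)
    have ec' : Even (x - c) := ex.tsub ec
    have pdd : ∀ j, ps (u.drop x) j = ps (u.drop c) (x - c + j) - ps (u.drop c) (x - c) := fun j => by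
      rw [← dd, ps_append_drop _ (by rw [ld]; omega) ec']
    have xpos : 0 < lv d (ps (u.drop c) (x - c)) := by
      have := gb.t.pos
      rw [lb] at this
      exact hright _ this le_rfl
    -- behind `x`
    have behind : ∀ j : ℕ, x - c < j → j ≤ u.length - c → ‖ps (u.drop c) j - ps (u.drop c) (x - c)‖ ≤ rg →
        lv d (ps (u.drop c) (x - c)) < lv d (ps (u.drop c) j) := by
      intro j hj1 hj2 hn
      have h8 := g.rest (j - (x - c)) (by omega) (by rw [List.length_drop]; omega)
        (by rw [pdd, show x - c + (j - (x - c)) = j by omega]; exact hn)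
      rw [pdd, show x - c + (j - (x - c)) = j by omega, lv_sub] at h8
      linarith
    refine ⟨⟨⟨⟨ec, by omega, fun i hi => ?_, ?_, fun k' e1 e2 e3 => ?_⟩, by omega, fun i j hi hj => ?_, ?_⟩,
      ⟨⟨ec', by rw [ld]; omega, fun i hi => hleft i hi, ?_, fun k' e1 e2 e3 => ?_⟩, by rw [ld]; omega, fun i j hi hj => ?_,
        by rw [dd]; exact g.rest⟩, ?_⟩, hball1, fun j hj hj' => ?_⟩
    · rw [← pt i hi, ← enc]
      exact ga.left i (by rw [ltc]; exact hi)
    · rw [← enc]
      exact gf.1
    · rw [← pt k' e2.le]
      exact gf.2 k' e1 (by rw [ltc]; exact e2) e3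
    · have n1 := hball1 i hi
      have n2 := hball1 j hj
      exact (norm_sub_le _ _).trans (by linarith)
    · intro j h0 hj hn
      rw [ld] at hj
      rcases le_or_gt j (x - c) with hjx | hjx
      · exact hright j h0 hjx
      · have n1 := hball2 (x - c) le_rfl
        have n2 := norm_sub_le (ps (u.drop c) j) (ps (u.drop c) (x - c))
        have := behind j hjx hj (by linarith)
        linarith
    · rw [← enb]
      exact gfb.1
    · rw [← pb k' e2.le]
      exact gfb.2 k' e1 (by rw [lb]; exact e2) e3
    · have n1 := hball2 i hi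
      have n2 := hball2 j hj
      exact (norm_sub_le _ _).trans (by linarith)
    · -- the first cut of level at least `h`
      obtain ⟨k0, hk0⟩ := gth
      have hex : ∃ k : ℕ, Even k ∧ 0 < k ∧ k < ((u.drop c).take (x - c)).length ∧ CutC d ((u.drop c).take (x - c)) k ∧
          h ≤ lv d (ps ((u.drop c).take (x - c)) k) := ⟨k0, hk0⟩
      obtain ⟨y, ⟨ey, y0, y1, yc, yh⟩, ymin⟩ : ∃ y : ℕ, (Even y ∧ 0 < y ∧ y < ((u.drop c).take (x - c)).length ∧
          CutC d ((u.drop c).take (x - c)) y ∧ h ≤ lv d (ps ((u.drop c).take (x - c)) y)) ∧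
          ∀ k : ℕ, k < y → ¬ (Even k ∧ 0 < k ∧ k < ((u.drop c).take (x - c)).length ∧
            CutC d ((u.drop c).take (x - c)) k ∧ h ≤ lv d (ps ((u.drop c).take (x - c)) k)) :=
        ⟨Nat.find hex, Nat.find_spec hex, fun k hk => Nat.find_min hex hk⟩
      rw [lb] at y1
      have ylt : lv d (ps (u.drop c) y) < m := by
        rw [← pb y y1.le]
        exact gfb.2 y ey (by rw [lb]; exact y1) yc
      have cl : ∀ j : ℕ, j ≤ y → lv d (ps (u.drop c) j) ≤ lv d (ps (u.drop c) y) := fun j hj => by
        rw [← pb j (by omega), ← pb y y1.le]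
        exact yc.1 j hj
      have cr : ∀ j : ℕ, y < j → j ≤ x - c → lv d (ps (u.drop c) y) < lv d (ps (u.drop c) j) := fun j hj hj' => by
        rw [← pb j hj', ← pb y y1.le]
        exact yc.2 j hj (by rw [lb]; exact hj')
      have yh' : h ≤ lv d (ps (u.drop c) y) := by
        rw [← pb y y1.le]
        exact yh
      refine ⟨y, ⟨⟨ey, by rw [ld]; omega, cl, yh', fun k' e1 e2 e3 => ?_⟩, by rw [ld]; omega, fun i j hi hj => ?_, ?_⟩, ylt⟩
      · by_contra hlt
        push Not at hlt
        have lty : ((u.drop c).take y).length = y := by rw [List.length_take, ld, min_eq_left (by omega)]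
        have pty : ∀ j, j ≤ y → ps ((u.drop c).take y) j = ps (u.drop c) j := fun j hj => ps_take _ hj (by rw [ld]; omega)
        refine ymin k' e2 ⟨e1, ?_, by rw [lb]; omega, ⟨fun j hj => ?_, fun j hj hj' => ?_⟩, ?_⟩
        · rcases Nat.eq_zero_or_pos k' with hk | hk
          · exfalso
            rw [hk, ps_zero, lv_zero] at hlt
            linarith
          · exact hk
        · rw [pb j (by omega), pb k' (by omega), ← pty j (by omega), ← pty k' e2.le]
          exact e3.1 j hj
        · rw [lb] at hj'
          rw [pb j hj', pb k' (by omega)]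
          rcases le_or_gt j y with hjy | hjy
          · rw [← pty j hjy, ← pty k' e2.le]
            exact e3.2 j hj (by rw [lty]; exact hjy)
          · have a1 := e3.2 y e2 (by rw [lty])
            rw [pty y le_rfl, pty k' e2.le] at a1
            exact a1.trans (cr j hjy hj')
        · rw [pb k' (by omega)]
          exact hlt
      · have n1 := hball2 i (by omega)
        have n2 := hball2 j (by omega)
        exact (norm_sub_le _ _).trans (by linarith)
      · intro j h0 hj hn
        rw [List.length_drop, ld] at hj
        rw [ps_append_drop _ (by rw [ld]; omega) ey] at hn ⊢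
        rw [lv_sub]
        rcases le_or_gt (y + j) (x - c) with hjx | hjx
        · linarith [cr (y + j) (by omega) hjx]
        · have n1 := hball2 (x - c) le_rfl
          have n2 := hball2 y y1.le
          have n3 : ‖ps (u.drop c) (y + j) - ps (u.drop c) (x - c)‖ ≤ rg := by
            have e : ps (u.drop c) (y + j) - ps (u.drop c) (x - c) =
                (ps (u.drop c) (y + j) - ps (u.drop c) y) - (ps (u.drop c) (x - c) - ps (u.drop c) y) := by ring
            rw [e]
            refine (norm_sub_le _ _).trans ?_
            have := norm_sub_le (ps (u.drop c) (x - c)) (ps (u.drop c) y)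
            linarith
          have a1 := behind (y + j) (by omega) (by omega) n3
          have a2 := cr (x - c) y1 le_rfl
          linarith
    · have := hball2 (j - c) (by omega)
      rwa [pd, show c + (j - c) = j by omega] at this
  · rintro ⟨⟨g1, g2, y, gy, ylt⟩, b1, b2⟩
    have ec := g1.g.ev
    have ec' : Even (x - c) := g2.g.ev
    have pd : ∀ j, ps (u.drop c) j = ps u (c + j) - ps u c := ps_append_drop u (by omega) ec
    have hball2 : ∀ j : ℕ, j ≤ x - c → ‖ps (u.drop c) j‖ ≤ r2 := fun j hj => by
      rw [pd]
      exact b2 _ (by omega) (by omega)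
    have xm : m ≤ lv d (ps (u.drop c) (x - c)) := g2.g.lev
    have c0 : 0 < c := by
      rcases Nat.eq_zero_or_pos c with hc | hc
      · exfalso
        have := g1.g.lev
        rw [hc, ps_zero, lv_zero] at this
        linarith
      · exact hc
    have x0 : 0 < x - c := by
      rcases Nat.eq_zero_or_pos (x - c) with hc | hc
      · exfalso
        rw [hc, ps_zero, lv_zero] at xm
        linarith
      · exact hc
    refine ⟨hx, ⟨by rw [lx]; exact hcx, ?_, ?_, ⟨?_, ?_⟩, ?_⟩, ?_, ?_⟩
    · rw [tc]
      refine ⟨by rw [ltc]; exact ec, sw_take hu (by omega), by rw [ltc]; exact c0, fun k hk => ?_, fun k hk => ?_⟩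
      · rw [ltc] at hk
        rw [pt k hk, enc]
        exact g1.g.left k hk
      · rw [ltc] at hk
        rw [pt k hk]
        exact b1 k hk
    · rw [tc]
      refine ⟨by rw [enc]; exact g1.g.lev, fun k e1 e2 e3 => ?_⟩
      rw [ltc] at e2
      rw [pt k e2.le]
      exact g1.g.fst k e1 e2 e3
    · rw [bc]
      refine ⟨by rw [lb]; exact ec', sw_take (sw_drop hu (by omega) ec) (by rw [ld]; omega), by rw [lb]; exact x0,
        fun k hk => ?_, fun k hk => ?_⟩
      · rw [lb] at hk
        rw [pb k hk, enb]
        exact g2.g.left k hk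
      · rw [lb] at hk
        rw [pb k hk]
        exact hball2 k hk
    · rw [bc]
      intro k h0 hk
      rw [lb] at hk
      rw [pb k hk]
      exact g1.rest k h0 (by rw [ld]; omega) ((hball2 k hk).trans h2)
    · rw [bc]
      refine ⟨by rw [enb]; exact xm, fun k e1 e2 e3 => ?_⟩
      rw [lb] at e2
      rw [pb k e2.le]
      exact g2.g.fst k e1 e2 e3
    · rw [bc]
      have y1 : y < x - c := by
        by_contra hc
        push Not at hc
        linarith [gy.g.left (x - c) hc]
      have y0 : 0 < y := by
        rcases Nat.eq_zero_or_pos y with hy | hy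
        · exfalso
          have := gy.g.lev
          rw [hy, ps_zero, lv_zero] at this
          linarith
        · exact hy
      have ey := gy.g.ev
      refine ⟨y, ey, y0, by rw [lb]; exact y1, ⟨fun j hj => ?_, fun j hj hj' => ?_⟩, ?_⟩
      · rw [pb j (by omega), pb y y1.le]
        exact gy.g.left j hj
      · rw [lb] at hj'
        rw [pb j hj', pb y y1.le]
        have n1 := hball2 j hj'
        have n2 := hball2 y y1.le
        have a1 := gy.rest (j - y) (by omega) (by rw [List.length_drop, ld]; omega) (by
          rw [ps_append_drop _ (by rw [ld]; omega) ey, show y + (j - y) = j by omega]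
          exact (norm_sub_le _ _).trans (by linarith))
        rw [ps_append_drop _ (by rw [ld]; omega) ey, show y + (j - y) = j by omega, lv_sub] at a1
        linarith
      · rw [pb y y1.le]
        exact gy.g.lev
    · have := g2.rest
      rwa [dd] at this

/-- **the second gate as a gate of the whole strand**, level over the gate `c` -/
theorem gw_over (hc : GPr d l u c) (hm : 0 < m) (hcx : c ≤ x) (hx : x ≤ u.length) :
    GPr d m (u.drop c) (x - c) ↔ GPr d (lv d (ps u c) + m) u x := (GPr.next hc hm hcx hx).symm

/-- **the rest of the strand and the rest up to the next gate**: the piece `V` behind `R` stays out of the ball -/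
theorem restC_far {R V : W3} (eR : Even R.length) (hV : ∀ j : ℕ, j ≤ V.length → rg < ‖en R + ps V j‖) :
    RestC d rg (R ++ V) ↔ RestC d rg R := by
  constructor
  · intro h k h0 hk hn
    have := h k h0 (by rw [List.length_append]; omega) (by rw [ps_append_left hk]; exact hn)
    rwa [ps_append_left hk] at this
  · intro h k h0 hk hn
    rw [List.length_append] at hk
    rcases le_or_gt k R.length with h1 | h1
    · rw [ps_append_left h1] at hn ⊢
      exact h k h0 h1 hn
    · exfalso
      rw [ps_append_right' eR h1.le] at hn
      linarith [hV (k - R.length) (by omega)]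

end

end Pool.Agent.ROT.F3
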