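import Pool.Agent.ROT.F3K2C

/-!
# ROT, F3, row D39 (helper28): gates with separately generic parameters

The marks of the gates (`Gt1`, `Gt2` of F3K2C, helper16: diameter and window on a common line of a box) exist for parameters which are chosen
one after the other, each off a countable set: level, diameter, window (`gt1_prod`), threshold, diameter, window of the second gate
(`gt2_prod`).

* `CtG` : weak gates are strong gates, off small mass; **`ctG_gen`** : for separately generic diameter and window;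
* `stbG_ct`, `l1a_ct` : stability and macroscopic values pass to such parameters from a dense set.
-/

set_option autoImplicit false
set_option linter.unusedSectionVars false

open Filter MeasureTheory Topology Set

open scoped NNReal BoundedContinuousFunction

namespace Pool.Agent.ROT.F3

open Pool.Agent.NTS.Res (step pos saw fug size curve)
open Pool.Agent.CRT (CI)
open Pool.Agent.SCF.M Pool.Agent.SCF.Z

/-- **weak gates are strong gates**, off small mass -/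
def CtG {ι Ω : Type*} [MeasurableSpace Ω] (U : Filter ι) (P : ι → Measure Ω) (nn : ι → Ω → ℕ)
    (wd : ∀ (i : ι) (s : Ω), Fin (nn i s) → Fin 3) (S : ι → ℝ) (D : ι → Ω → ℝ → ℕ → Prop) (a r ρ : ℝ) : Prop :=
  ∀ ε : ℝ, 0 < ε → ∃ δ : ℝ, 0 < δ ∧ ∀ᶠ i in U, (P i).real {s | ∃ k, TP (D i s) (a * S i) ((r + δ) * S i) ((ρ - δ) * S i) (wd i s) k ∧
    ¬ TP (D i s) (a * S i) ((r - δ) * S i) ((ρ + δ) * S i) (wd i s) k} ≤ ε

section sys

variable {ι Ω X : Type*} [MeasurableSpace Ω] [DiscreteMeasurableSpace Ω] [PseudoMetricSpace X] {U : Ultrafilter ι}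
  {P : ι → Measure Ω} [∀ i, IsFiniteMeasure (P i)] {x : ι → Ω → X} {nn : ι → Ω → ℕ} {wd : ∀ (i : ι) (s : Ω), Fin (nn i s) → Fin 3}
  {S : ι → ℝ} {D : ι → Ω → ℝ → ℕ → Prop}

/-- **separately generic parameters** -/
theorem ctG_gen {R : ℝ} (hR : 0 < R) (hM : Mb (U : Filter ι) P) (hS : ∀ i, 0 < S i) (a : ℝ) :
    ∃ E1 : Set ℝ, E1.Countable ∧ ∀ r : ℝ, r ∉ E1 → r < 2 * R → ∃ E2 : Set ℝ, E2.Countable ∧ ∀ ρ : ℝ, ρ ∉ E2 → 64 * R < ρ →
      CtG (U : Filter ι) P nn wd S D a r ρ := by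
  obtain ⟨I, hI⟩ : ∃ I : ℝ → ℝ → ι → Ω → ℝ, I = fun t v i s =>
    inP (D i s) (a * S i) (min t (2 * R) * S i) (max v (64 * R) * S i) (fun _ => 1) (wd i s) := ⟨_, rfl⟩
  have hI1 : ∀ {t t' v v' : ℝ} {i s}, t ≤ t' → v' ≤ v → I t v i s ≤ I t' v' i s := fun {t t' v v' i s} h1 h2 => by
    rw [hI]
    exact inP_mono (fun _ => zero_le_one) (mul_le_mul_of_nonneg_right (min_le_min h1 le_rfl) (hS i).le)
      (mul_le_mul_of_nonneg_right (max_le_max h2 le_rfl) (hS i).le)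
  have hrp : ∀ (t v : ℝ) (i : ι), min t (2 * R) * S i ≤ max v (64 * R) * S i := fun t v i =>
    mul_le_mul_of_nonneg_right ((min_le_right _ _).trans ((by linarith : 2 * R ≤ 64 * R).trans (le_max_right _ _))) (hS i).le
  have hI0 : ∀ t v i s, 0 ≤ I t v i s := fun t v i s => by
    rw [hI]
    exact inP_nn fun _ => zero_le_one
  have hIb : ∀ t v i s, |I t v i s| ≤ 1 := fun t v i s => by
    rw [abs_of_nonneg (hI0 t v i s), hI]
    exact inP_le (hrp t v i) fun _ => le_rfl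
  have g1 := fun q : ℚ => gen_mono (U := U) (P := P) hM (I := fun t i s => I t (q : ℝ) i s) (fun i s t t' h => hI1 h le_rfl)
    (C := 1) fun t i s => hIb t q i s
  choose E hE hE' using g1
  have g2 := fun r : ℝ => gen_mono (U := U) (P := P) hM (I := fun v i s => I r (-v) i s) (fun i s v v' h => hI1 le_rfl (neg_le_neg h))
    (C := 1) fun v i s => hIb r (-v) i s
  choose F hF hF' using g2
  refine ⟨⋃ q : ℚ, E q, countable_iUnion hE, fun r hr hrR => ⟨(fun y : ℝ => -y) ⁻¹' F r, (hF r).preimage neg_injective,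
    fun ρ hρ hρR ε hε => ?_⟩⟩
  simp only [mem_iUnion, not_exists] at hr
  obtain ⟨u, hu, c1⟩ := hF' r (-ρ) hρ (ε / 3) (by positivity)
  obtain ⟨q1, hq1, hq1'⟩ := exists_rat_btwn (show ρ - u < ρ by linarith)
  obtain ⟨q2, hq2, hq2'⟩ := exists_rat_btwn (show ρ < ρ + u by linarith)
  obtain ⟨u1, hu1, c2⟩ := hE' q1 r (hr q1) (ε / 3) (by positivity)
  obtain ⟨u2, hu2, c3⟩ := hE' q2 r (hr q2) (ε / 3) (by positivity)
  obtain ⟨δ, hδ⟩ : ∃ δ, δ = min (min (min u1 u2) (min (ρ - q1) (q2 - ρ))) (min (2 * R - r) (ρ - 64 * R)) := ⟨_, rfl⟩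
  have d0 : 0 < δ := by
    rw [hδ]
    exact lt_min (lt_min (lt_min hu1 hu2) (lt_min (by linarith) (by linarith))) (lt_min (by linarith) (by linarith))
  have d1 : δ ≤ u1 := by rw [hδ]; exact (min_le_left _ _).trans ((min_le_left _ _).trans (min_le_left _ _))
  have d2 : δ ≤ u2 := by rw [hδ]; exact (min_le_left _ _).trans ((min_le_left _ _).trans (min_le_right _ _))
  have d3 : δ ≤ ρ - q1 := by rw [hδ]; exact (min_le_left _ _).trans ((min_le_right _ _).trans (min_le_left _ _))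
  have d4 : δ ≤ q2 - ρ := by rw [hδ]; exact (min_le_left _ _).trans ((min_le_right _ _).trans (min_le_right _ _))
  have d5 : δ ≤ 2 * R - r := by rw [hδ]; exact (min_le_right _ _).trans (min_le_left _ _)
  have d6 : δ ≤ ρ - 64 * R := by rw [hδ]; exact (min_le_right _ _).trans (min_le_right _ _)
  refine ⟨δ, d0, ?_⟩
  filter_upwards [c1, c2, c3] with i e1 e2 e3
  have hi : ∀ t v, Integrable (fun s => I t v i s) (P i) := fun t v => int_bd (C := 1) fun s => hIb t v i s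
  -- the bad set
  have h1 : {s | ∃ k, TP (D i s) (a * S i) ((r + δ) * S i) ((ρ - δ) * S i) (wd i s) k ∧
      ¬ TP (D i s) (a * S i) ((r - δ) * S i) ((ρ + δ) * S i) (wd i s) k} ⊆ {s | 1 ≤ I (r + δ) (ρ - δ) i s - I (r - δ) (ρ + δ) i s} := by
    rintro s ⟨k, hk, hk'⟩
    have f1 : min (r + δ) (2 * R) = r + δ := min_eq_left (by linarith)
    have f2 : max (ρ - δ) (64 * R) = ρ - δ := max_eq_left (by linarith)
    have f3 : min (r - δ) (2 * R) = r - δ := min_eq_left (by linarith)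
    have f4 : max (ρ + δ) (64 * R) = ρ + δ := max_eq_left (by linarith)
    have f5 := hrp (r + δ) (ρ - δ) i
    rw [f1, f2] at f5
    have f6 : I (r + δ) (ρ - δ) i s = 1 := by
      rw [hI]
      simp only [f1, f2]
      rw [inP_eq f5 hk]
    have f7 : I (r - δ) (ρ + δ) i s = 0 := by
      rw [hI]
      simp only [f3, f4]
      refine inP_zero fun k' h' => ?_
      have h2 : TP (D i s) (a * S i) ((r + δ) * S i) ((ρ - δ) * S i) (wd i s) k' :=
        tp_mono h' (mul_le_mul_of_nonneg_right (by linarith) (hS i).le) (mul_le_mul_of_nonneg_right (by linarith) (hS i).le)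
      rw [tp_unique f5 hk h2] at hk'
      exact hk' h'
    show (1 : ℝ) ≤ _
    rw [f6, f7, sub_zero]
  refine (measureReal_mono h1).trans ((markov (fun s => sub_nonneg.2 (hI1 (by linarith) (by linarith))) (C := 1 + 1) (fun s =>
    (abs_sub _ _).trans (add_le_add (hIb _ _ i s) (hIb _ _ i s))) one_pos).trans ?_)
  rw [div_one]
  have h2 : ∫ s, (I (r + δ) (ρ - δ) i s - I (r - δ) (ρ + δ) i s) ∂(P i) ≤ ∫ s, ((I (r + u1) q1 i s - I (r - u1) q1 i s) +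
      (I r (-(-ρ + u)) i s - I r (-(-ρ - u)) i s) + (I (r + u2) q2 i s - I (r - u2) q2 i s)) ∂(P i) := by
    refine integral_mono ((hi _ _).sub (hi _ _)) ((((hi _ _).sub (hi _ _)).add ((hi _ _).sub (hi _ _))).add
      ((hi _ _).sub (hi _ _))) fun s => ?_
    show I (r + δ) (ρ - δ) i s - I (r - δ) (ρ + δ) i s ≤ (I (r + u1) q1 i s - I (r - u1) q1 i s) +
      (I r (-(-ρ + u)) i s - I r (-(-ρ - u)) i s) + (I (r + u2) q2 i s - I (r - u2) q2 i s)
    have k1 : I (r + δ) (ρ - δ) i s ≤ I (r + u1) q1 i s := hI1 (by linarith) (by linarith)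
    have k2 : I (r - u2) q2 i s ≤ I (r - δ) (ρ + δ) i s := hI1 (by linarith) (by linarith)
    have k3 : I (r - u1) q1 i s ≤ I r (-(-ρ + u)) i s := hI1 (by linarith) (by linarith)
    have k4 : I r (-(-ρ - u)) i s ≤ I (r + u2) q2 i s := hI1 (by linarith) (by linarith)
    linarith
  refine h2.trans ?_
  have hh : ∀ t v t' v', Integrable (fun s => I t v i s - I t' v' i s) (P i) := fun t v t' v' => (hi t v).sub (hi t' v')
  have h3 := integral_add (μ := P i) ((hh (r + u1) q1 (r - u1) q1).add (hh r (-(-ρ + u)) r (-(-ρ - u)))) (hh (r + u2) q2 (r - u2) q2)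
  have h4 := integral_add (μ := P i) (hh (r + u1) q1 (r - u1) q1) (hh r (-(-ρ + u)) r (-(-ρ - u)))
  simp only [Pi.add_apply] at h3 h4
  rw [h3, h4]
  linarith

/-- the bad sets decrease -/
lemma ctG_le {a r ρ : ℝ} (hS : ∀ i, 0 < S i) (h : CtG (U : Filter ι) P nn wd S D a r ρ) {ε δ1 : ℝ} (hε : 0 < ε) (h1 : 0 < δ1) :
    ∃ δ : ℝ, 0 < δ ∧ δ ≤ δ1 ∧ ∀ᶠ i in (U : Filter ι), (P i).real {s | ∃ k, TP (D i s) (a * S i) ((r + δ) * S i) ((ρ - δ) * S i) (wd i s) k ∧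
      ¬ TP (D i s) (a * S i) ((r - δ) * S i) ((ρ + δ) * S i) (wd i s) k} ≤ ε := by
  obtain ⟨δ, hδ, h2⟩ := h ε hε
  refine ⟨min δ δ1, lt_min hδ h1, min_le_right _ _, ?_⟩
  have h3 : min δ δ1 ≤ δ := min_le_left _ _
  filter_upwards [h2] with i hi
  refine (measureReal_mono ?_).trans hi
  rintro s ⟨k, hk, hk'⟩
  exact ⟨k, tp_mono hk (mul_le_mul_of_nonneg_right (by linarith) (hS i).le) (mul_le_mul_of_nonneg_right (by linarith) (hS i).le),
    fun h => hk' (tp_mono h (mul_le_mul_of_nonneg_right (by linarith) (hS i).le)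
      (mul_le_mul_of_nonneg_right (by linarith) (hS i).le))⟩

/-- **stability passes to the continuity points** -/
theorem stbG_ct {a r ρ : ℝ} (hS : ∀ i, 0 < S i) (h : CtG (U : Filter ι) P nn wd S D a r ρ)
    (h1 : ∀ δ : ℝ, 0 < δ → ∃ r1 ρ1 : ℝ, r - δ ≤ r1 ∧ r1 < r ∧ ρ < ρ1 ∧ ρ1 ≤ ρ + δ ∧ StbG (U : Filter ι) P nn wd S D a r1 ρ1)
    (h2 : ∀ δ : ℝ, 0 < δ → ∃ r2 ρ2 : ℝ, r < r2 ∧ r2 ≤ r + δ ∧ ρ - δ ≤ ρ2 ∧ ρ2 < ρ ∧ StbG (U : Filter ι) P nn wd S D a r2 ρ2) :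
    StbG (U : Filter ι) P nn wd S D a r ρ := by
  intro η hη ε hε
  obtain ⟨δ, hδ, -, c0⟩ := ctG_le hS h (ε := ε / 3) (by positivity) one_pos
  obtain ⟨r1, ρ1, a1, a2, a3, a4, a5⟩ := h1 δ hδ
  obtain ⟨r2, ρ2, b1, b2, b3, b4, b5⟩ := h2 δ hδ
  obtain ⟨μ1, hμ1, c1⟩ := a5 η hη (ε / 3) (by positivity)
  obtain ⟨μ2, hμ2, c2⟩ := b5 η hη (ε / 3) (by positivity)
  refine ⟨min (min μ1 μ2) (min (min (r - r1) (ρ1 - ρ)) (min (r2 - r) (ρ - ρ2))), lt_min (lt_min hμ1 hμ2)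
    (lt_min (lt_min (by linarith) (by linarith)) (lt_min (by linarith) (by linarith))), fun μ hμ => ?_⟩
  have m1 : μ ≤ μ1 := hμ.trans ((min_le_left _ _).trans (min_le_left _ _))
  have m2 : μ ≤ μ2 := hμ.trans ((min_le_left _ _).trans (min_le_right _ _))
  have m3 : μ ≤ r - r1 := hμ.trans ((min_le_right _ _).trans ((min_le_left _ _).trans (min_le_left _ _)))
  have m4 : μ ≤ ρ1 - ρ := hμ.trans ((min_le_right _ _).trans ((min_le_left _ _).trans (min_le_right _ _)))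
  have m5 : μ ≤ r2 - r := hμ.trans ((min_le_right _ _).trans ((min_le_right _ _).trans (min_le_left _ _)))
  have m6 : μ ≤ ρ - ρ2 := hμ.trans ((min_le_right _ _).trans ((min_le_right _ _).trans (min_le_right _ _)))
  filter_upwards [c0, c1 μ m1, c2 μ m2] with i e0 e1 e2
  refine (measureReal_mono (s₂ := ({s | ∃ k, TP (D i s) (a * S i) ((r + δ) * S i) ((ρ - δ) * S i) (wd i s) k ∧
    ¬ TP (D i s) (a * S i) ((r - δ) * S i) ((ρ + δ) * S i) (wd i s) k} ∪ {s | ¬ GStab (D i s) (S i) a r1 ρ1 μ η (wd i s)}) ∪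
    {s | ¬ GStab (D i s) (S i) a r2 ρ2 μ η (wd i s)}) fun s hs => ?_).trans
    ((measureReal_union_le _ _).trans ((add_le_add (measureReal_union_le _ _) le_rfl).trans (by linarith)))
  by_contra hcon
  simp only [mem_union, mem_ofPred_eq, not_or, not_not, not_exists, not_and] at hcon
  obtain ⟨⟨s0, s1⟩, s2⟩ := hcon
  refine hs fun a' r' ρ' ha hr hρ => ?_
  have hμ0 : 0 ≤ μ := (abs_nonneg _).trans ha
  have hr' := abs_le.1 hr
  have hρ' := abs_le.1 hρ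
  have hSi := (hS i).le
  obtain ⟨f1, f2⟩ := s1 a' r1 ρ1 ha (by rwa [sub_self, abs_zero]) (by rwa [sub_self, abs_zero])
  obtain ⟨g1, g2⟩ := s2 a' r2 ρ2 ha (by rwa [sub_self, abs_zero]) (by rwa [sub_self, abs_zero])
  constructor
  · intro k hk
    have k1 := s0 k (tp_mono hk (mul_le_mul_of_nonneg_right (by linarith) hSi) (mul_le_mul_of_nonneg_right (by linarith) hSi))
    obtain ⟨k', k2, k3⟩ := f1 k (tp_mono k1 (mul_le_mul_of_nonneg_right (by linarith) hSi)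
      (mul_le_mul_of_nonneg_right (by linarith) hSi))
    exact ⟨k', tp_mono k2 (mul_le_mul_of_nonneg_right (by linarith) hSi) (mul_le_mul_of_nonneg_right (by linarith) hSi), k3⟩
  · intro k' hk'
    obtain ⟨k, k2, k3⟩ := g2 k' (tp_mono hk' (mul_le_mul_of_nonneg_right (by linarith) hSi)
      (mul_le_mul_of_nonneg_right (by linarith) hSi))
    have k1 := s0 k (tp_mono k2 (mul_le_mul_of_nonneg_right (by linarith) hSi) (mul_le_mul_of_nonneg_right (by linarith) hSi))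
    exact ⟨k, tp_mono k1 (mul_le_mul_of_nonneg_right (by linarith) hSi) (mul_le_mul_of_nonneg_right (by linarith) hSi), k3⟩

/-- **macroscopic values pass to the continuity points** -/
theorem l1a_ct {a r ρ : ℝ} (hS : ∀ i, 0 < S i) (h : CtG (U : Filter ι) P nn wd S D a r ρ) (hr : r < ρ) {h' : ι → Ω → ℕ → ℝ}
    (h0 : ∀ i s k, 0 ≤ h' i s k) (h1 : ∀ i s k, h' i s k ≤ 1) {z : ι → Ω → ℝ} (z0 : ∀ i s, 0 ≤ z i s) (z1 : ∀ i s, z i s ≤ 1)
    (h2 : ∀ δ : ℝ, 0 < δ → ∃ r1 ρ1 : ℝ, r - δ ≤ r1 ∧ r1 < r ∧ ρ < ρ1 ∧ ρ1 ≤ ρ + δ ∧ L1A (U : Filter ι) P x fun i s =>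
      inP (D i s) (a * S i) (r1 * S i) (ρ1 * S i) (h' i s) (wd i s) * z i s) :
    L1A (U : Filter ι) P x fun i s => inP (D i s) (a * S i) (r * S i) (ρ * S i) (h' i s) (wd i s) * z i s := by
  have key0 : ∀ {r1 ρ1 : ℝ} (i : ι) (s : Ω), r1 ≤ ρ1 → 0 ≤ inP (D i s) (a * S i) (r1 * S i) (ρ1 * S i) (h' i s) (wd i s) * z i s ∧
      inP (D i s) (a * S i) (r1 * S i) (ρ1 * S i) (h' i s) (wd i s) * z i s ≤ 1 := fun {r1 ρ1} i s h3 =>
    ⟨mul_nonneg (inP_nn (h0 i s)) (z0 i s), mul_le_one₀ (inP_le (mul_le_mul_of_nonneg_right h3 (hS i).le) (h1 i s)) (z0 i s) (z1 i s)⟩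
  refine ⟨⟨1, fun i s => ?_⟩, fun ε hε => ?_⟩
  · obtain ⟨h3, h4⟩ := key0 i s hr.le
    rw [abs_of_nonneg h3]
    exact h4
  · obtain ⟨δ, hδ, hδ1, c0⟩ := ctG_le hS h (ε := ε / 2) (by positivity) (show 0 < (ρ - r) / 2 by linarith)
    obtain ⟨r1, ρ1, a1, a2, a3, a4, a5⟩ := h2 δ hδ
    obtain ⟨φ, hφ⟩ := a5.ap (ε / 2) (by positivity)
    refine ⟨φ, ?_⟩
    filter_upwards [c0, hφ] with i e0 e1
    obtain ⟨Bad, hBad⟩ : ∃ Bad, Bad = {s | ∃ k, TP (D i s) (a * S i) ((r + δ) * S i) ((ρ - δ) * S i) (wd i s) k ∧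
      ¬ TP (D i s) (a * S i) ((r - δ) * S i) ((ρ + δ) * S i) (wd i s) k} := ⟨_, rfl⟩
    rw [← hBad] at e0
    have hcmp : ∀ s, |inP (D i s) (a * S i) (r * S i) (ρ * S i) (h' i s) (wd i s) * z i s -
        inP (D i s) (a * S i) (r1 * S i) (ρ1 * S i) (h' i s) (wd i s) * z i s| ≤ Bad.indicator (fun _ => (1 : ℝ)) s := by
      intro s
      by_cases hs : s ∈ Bad
      · rw [indicator_of_mem hs]
        obtain ⟨f1, f2⟩ := key0 i s hr.le
        obtain ⟨f3, f4⟩ := key0 (r1 := r1) (ρ1 := ρ1) i s (by linarith)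
        rw [abs_le]
        constructor <;> linarith
      · rw [indicator_of_notMem hs]
        have hs' : ∀ k, TP (D i s) (a * S i) ((r + δ) * S i) ((ρ - δ) * S i) (wd i s) k →
            TP (D i s) (a * S i) ((r - δ) * S i) ((ρ + δ) * S i) (wd i s) k := by
          intro k hk
          by_contra hc
          rw [hBad] at hs
          exact hs ⟨k, hk, hc⟩
        have hSi := (hS i).le
        have e : inP (D i s) (a * S i) (r * S i) (ρ * S i) (h' i s) (wd i s) =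
            inP (D i s) (a * S i) (r1 * S i) (ρ1 * S i) (h' i s) (wd i s) := by
          by_cases hk : ∃ k, TP (D i s) (a * S i) (r * S i) (ρ * S i) (wd i s) k
          · obtain ⟨k, hk⟩ := hk
            have k1 := hs' k (tp_mono hk (mul_le_mul_of_nonneg_right (by linarith) hSi) (mul_le_mul_of_nonneg_right (by linarith) hSi))
            have k2 : TP (D i s) (a * S i) (r1 * S i) (ρ1 * S i) (wd i s) k :=
              tp_mono k1 (mul_le_mul_of_nonneg_right (by linarith) hSi) (mul_le_mul_of_nonneg_right (by linarith) hSi)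
            rw [inP_eq (mul_le_mul_of_nonneg_right hr.le hSi) hk, inP_eq (mul_le_mul_of_nonneg_right (by linarith) hSi) k2]
          · have hk2 : ∀ k, ¬ TP (D i s) (a * S i) (r * S i) (ρ * S i) (wd i s) k := fun k h => hk ⟨k, h⟩
            rw [inP_zero hk2, inP_zero fun k hk3 => hk2 k (tp_mono hk3 (mul_le_mul_of_nonneg_right (by linarith) hSi)
              (mul_le_mul_of_nonneg_right (by linarith) hSi))]
        rw [e, sub_self, abs_zero]
    have hBm : MeasurableSet Bad := MeasurableSet.of_discrete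
    have i1 : Integrable (fun s => Bad.indicator (fun _ => (1 : ℝ)) s) (P i) := (integrable_const _).indicator hBm
    have hb1 : ∀ s, |inP (D i s) (a * S i) (r1 * S i) (ρ1 * S i) (h' i s) (wd i s) * z i s - φ (x i s)| ≤ 1 + ‖φ‖ := fun s => by
      obtain ⟨f3, f4⟩ := key0 (r1 := r1) (ρ1 := ρ1) i s (by linarith)
      refine (abs_sub _ _).trans (add_le_add ?_ (φ.norm_coe_le_norm _))
      rw [abs_of_nonneg f3]
      exact f4
    have hb2 : ∀ s, |inP (D i s) (a * S i) (r * S i) (ρ * S i) (h' i s) (wd i s) * z i s - φ (x i s)| ≤ 1 + ‖φ‖ := fun s => by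
      obtain ⟨f3, f4⟩ := key0 (r1 := r) (ρ1 := ρ) i s hr.le
      refine (abs_sub _ _).trans (add_le_add ?_ (φ.norm_coe_le_norm _))
      rw [abs_of_nonneg f3]
      exact f4
    have i2 : Integrable (fun s => |inP (D i s) (a * S i) (r1 * S i) (ρ1 * S i) (h' i s) (wd i s) * z i s - φ (x i s)|) (P i) :=
      int_bd (C := 1 + ‖φ‖) fun s => by rw [abs_abs]; exact hb1 s
    have i3 : Integrable (fun s => |inP (D i s) (a * S i) (r * S i) (ρ * S i) (h' i s) (wd i s) * z i s - φ (x i s)|) (P i) :=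
      int_bd (C := 1 + ‖φ‖) fun s => by rw [abs_abs]; exact hb2 s
    calc ∫ s, |inP (D i s) (a * S i) (r * S i) (ρ * S i) (h' i s) (wd i s) * z i s - φ (x i s)| ∂(P i)
        ≤ ∫ s, (Bad.indicator (fun _ => (1 : ℝ)) s + |inP (D i s) (a * S i) (r1 * S i) (ρ1 * S i) (h' i s) (wd i s) * z i s -
          φ (x i s)|) ∂(P i) := integral_mono i3 (i1.add i2) fun s => by
            have := hcmp s
            exact (abs_sub_le _ (inP (D i s) (a * S i) (r1 * S i) (ρ1 * S i) (h' i s) (wd i s) * z i s) _).trans (by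
              show _ ≤ Bad.indicator (fun _ => (1 : ℝ)) s + _
              linarith)
      _ = (P i).real Bad + ∫ s, |inP (D i s) (a * S i) (r1 * S i) (ρ1 * S i) (h' i s) (wd i s) * z i s - φ (x i s)| ∂(P i) := by
          rw [integral_add i1 i2, integral_indicator hBm, setIntegral_const, smul_eq_mul, mul_one]
      _ ≤ ε := by linarith

end sys

/-! ### the marks -/

section marks

variable {ι Ω X : Type*} [MeasurableSpace Ω] [DiscreteMeasurableSpace Ω] [PseudoMetricSpace X] {U : Ultrafilter ι}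
  {P : ι → Measure Ω} [∀ i, IsFiniteMeasure (P i)] {x : ι → Ω → X} {nn : ι → Ω → ℕ} {wd : ∀ (i : ι) (s : Ω), Fin (nn i s) → Fin 3}
  {S : ι → ℝ}

/-- a box below the parameters -/
lemma box_lo {R a r ρ δ : ℝ} (ha : R / 4 < a) (hr : r ≤ 2 * R) (hρ : 64 * R ≤ ρ) (hρ2 : ρ < 128 * R) (hδ : 0 < δ) :
    ∃ B : Box, B.Ok R ∧ B.a0 < a ∧ ∀ t : ℝ, 0 < t → t < 1 → r - δ ≤ rT B t ∧ rT B t < r ∧ ρ < pT B t ∧ pT B t ≤ ρ + δ := by
  obtain ⟨d, hd⟩ : ∃ d, d = min δ (128 * R - ρ) := ⟨_, rfl⟩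
  have d0 : 0 < d := by rw [hd]; exact lt_min hδ (by linarith)
  have d1 : d ≤ δ := by rw [hd]; exact min_le_left _ _
  have d2 : d ≤ 128 * R - ρ := by rw [hd]; exact min_le_right _ _
  refine ⟨⟨R / 4, a, r - d, r, ρ, ρ + d⟩, ⟨le_rfl, ha, by show r - d < r; linarith, hr, hρ, by show ρ < ρ + d; linarith, by
    show ρ + d ≤ 128 * R
    linarith⟩, ha, fun t t0 t1 => ⟨?_, ?_, ?_, ?_⟩⟩
  · show r - δ ≤ r - d + t * (r - (r - d))
    nlinarith
  · show r - d + t * (r - (r - d)) < r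
    nlinarith
  · show ρ < ρ + d - t * (ρ + d - ρ)
    nlinarith
  · show ρ + d - t * (ρ + d - ρ) ≤ ρ + δ
    nlinarith

/-- a box above the parameters -/
lemma box_hi {R a r ρ δ : ℝ} (ha : R / 4 < a) (hr : r < 2 * R) (hρ : 64 * R < ρ) (hρ2 : ρ ≤ 128 * R) (hδ : 0 < δ) :
    ∃ B : Box, B.Ok R ∧ B.a0 < a ∧ ∀ t : ℝ, 0 < t → t < 1 → r < rT B t ∧ rT B t ≤ r + δ ∧ ρ - δ ≤ pT B t ∧ pT B t < ρ := by
  obtain ⟨d, hd⟩ : ∃ d, d = min δ (min (ρ - 64 * R) (2 * R - r)) := ⟨_, rfl⟩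
  have d0 : 0 < d := by rw [hd]; exact lt_min hδ (lt_min (by linarith) (by linarith))
  have d1 : d ≤ δ := by rw [hd]; exact min_le_left _ _
  have d2 : d ≤ ρ - 64 * R := by rw [hd]; exact (min_le_right _ _).trans (min_le_left _ _)
  have d3 : d ≤ 2 * R - r := by rw [hd]; exact (min_le_right _ _).trans (min_le_right _ _)
  refine ⟨⟨R / 4, a, r, r + d, ρ - d, ρ⟩, ⟨le_rfl, ha, by show r < r + d; linarith, by
    show r + d ≤ 2 * R
    linarith, by
    show 64 * R ≤ ρ - d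
    linarith, by show ρ - d < ρ; linarith, hρ2⟩, ha, fun t t0 t1 => ⟨?_, ?_, ?_, ?_⟩⟩
  · show r < r + t * (r + d - r)
    nlinarith
  · show r + t * (r + d - r) ≤ r + δ
    nlinarith
  · show ρ - δ ≤ ρ - t * (ρ - (ρ - d))
    nlinarith
  · show ρ - t * (ρ - (ρ - d)) < ρ
    nlinarith

/-- a generic point of a box -/
lemma ex_t {E : Set ℝ} (hE : E.Countable) : ∃ t : ℝ, t ∉ E ∧ 0 < t ∧ t < 1 := by
  obtain ⟨t, ht, h1⟩ := (hE.dense_compl ℝ).exists_between (show (0 : ℝ) < 1 from zero_lt_one)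
  exact ⟨t, ht, h1.1, h1.2⟩

/-- **stability at separately generic parameters** -/
theorem stbG_prod {R : ℝ} (hR : 0 < R) (hM : Mb (U : Filter ι) P) (hW : WSys (U : Filter ι) P nn wd S)
    {p : ι → Ω → ℝ} (p0 : ∀ i s, 0 ≤ p i s) :
    ∃ E : Set ℝ, E.Countable ∧ ∀ a : ℝ, a ∉ E → R / 4 < a → ∃ E1 : Set ℝ, E1.Countable ∧ ∀ r : ℝ, r ∉ E1 → r < 2 * R →
      ∃ E2 : Set ℝ, E2.Countable ∧ ∀ ρ : ℝ, ρ ∉ E2 → 64 * R < ρ → ρ < 128 * R →
        CtG (U : Filter ι) P nn wd S (fun i s => Dv (wd i s) (p i s * S i)) a r ρ ∧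
        StbG (U : Filter ι) P nn wd S (fun i s => Dv (wd i s) (p i s * S i)) a r ρ := by
  obtain ⟨E, hE, h1⟩ := gateB_stab (U := U) (P := P) (nn := nn) (wd := wd) (S := S) hR hM hW p0
  refine ⟨E, hE, fun a ha haR => ?_⟩
  obtain ⟨E1, hE1, h2⟩ := ctG_gen (U := U) (P := P) (nn := nn) (wd := wd) (S := S)
    (D := fun i s => Dv (wd i s) (p i s * S i)) hR hM hW.pos a
  refine ⟨E1, hE1, fun r hr hrR => ?_⟩
  obtain ⟨E2, hE2, h3⟩ := h2 r hr hrR
  refine ⟨E2, hE2, fun ρ hρ h4 h5 => ?_⟩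
  have h6 := h3 ρ hρ h4
  refine ⟨h6, stbG_ct hW.pos h6 (fun δ hδ => ?_) fun δ hδ => ?_⟩
  · obtain ⟨B, hB, hBa, hBt⟩ := box_lo haR hrR.le h4.le h5 hδ
    obtain ⟨E', hE', h7⟩ := h1 a ha B hB hBa
    obtain ⟨t, ht, t0, t1⟩ := ex_t hE'
    obtain ⟨b1, b2, b3, b4⟩ := hBt t t0 t1
    exact ⟨_, _, b1, b2, b3, b4, h7 t ht t0 t1⟩
  · obtain ⟨B, hB, hBa, hBt⟩ := box_hi haR hrR h4 h5.le hδ
    obtain ⟨E', hE', h7⟩ := h1 a ha B hB hBa
    obtain ⟨t, ht, t0, t1⟩ := ex_t hE'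
    obtain ⟨b1, b2, b3, b4⟩ := hBt t t0 t1
    exact ⟨_, _, b1, b2, b3, b4, h7 t ht t0 t1⟩

/-- **values at separately generic parameters** -/
theorem val_prod {R : ℝ} (hR : 0 < R) (hM : Mb (U : Filter ι) P) (hW : WSys (U : Filter ι) P nn wd S)
    (hS : Tendsto S (U : Filter ι) atTop) {z : ι → Ω → ℝ} (z0 : ∀ i s, 0 ≤ z i s) (z1 : ∀ i s, z i s ≤ 1)
    (hG : GrdA (U : Filter ι) P x nn wd S R z) {p : ι → Ω → ℝ} (hp : L1A (U : Filter ι) P x p) (p0 : ∀ i s, 0 ≤ p i s) :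
    ∃ E : Set ℝ, E.Countable ∧ ∀ a : ℝ, a ∉ E → R / 4 < a → ∀ r ρ : ℝ, r < 2 * R → 64 * R < ρ → ρ < 128 * R →
      CtG (U : Filter ι) P nn wd S (fun i s => Dv (wd i s) (p i s * S i)) a r ρ → ∀ (K : ℝ) (H : ℝ × CI → ℝ → ℝ), 0 ≤ K →
        TestX K H → L1A (U : Filter ι) P x fun i s => inP (Dv (wd i s) (p i s * S i)) (a * S i) (r * S i) (ρ * S i)
          (fun k => H (XS (S i) (wd i s)) ((k : ℝ) / nn i s)) (wd i s) * z i s := by
  obtain ⟨E, hE, h1⟩ := gateB hR hM hW hS z0 z1 hG hp p0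
  refine ⟨E, hE, fun a ha haR r ρ hr h4 h5 hc K H hK hH => ?_⟩
  refine l1a_ct (D := fun i s => Dv (wd i s) (p i s * S i)) (h' := fun i s (k : ℕ) => H (XS (S i) (wd i s)) ((k : ℝ) / nn i s))
    hW.pos hc (by linarith) (fun i s k => hH.nn _ _) (fun i s k => hH.le _ _) z0 z1 fun δ hδ => ?_
  obtain ⟨B, hB, hBa, hBt⟩ := box_lo haR hr.le h4.le h5 hδ
  obtain ⟨E', hE', h7⟩ := h1 a ha B hB hBa
  obtain ⟨t, ht, t0, t1⟩ := ex_t hE'
  obtain ⟨b1, b2, b3, b4⟩ := hBt t t0 t1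
  exact ⟨_, _, b1, b2, b3, b4, h7 t ht t0 t1 K H hK hH⟩

/-- **the marks of the gates, at separately generic parameters** -/
theorem gt1_prod {R : ℝ} (hR : 0 < R) (hM : Mb (U : Filter ι) P) (hW : WSys (U : Filter ι) P nn wd S)
    (hS : Tendsto S (U : Filter ι) atTop) {z : ι → Ω → ℝ} (hz : ∀ i s, z i s = 0 ∨ z i s = 1) (hzl : L1A (U : Filter ι) P x z)
    (hG : GrdA (U : Filter ι) P x nn wd S R z) {p : ι → Ω → ℝ} (hp : L1A (U : Filter ι) P x p) (p0 : ∀ i s, 0 ≤ p i s) :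
    ∃ E : Set ℝ, E.Countable ∧ ∀ a : ℝ, a ∉ E → R / 4 < a → ∃ E1 : Set ℝ, E1.Countable ∧ ∀ r : ℝ, r ∉ E1 → r < 2 * R →
      ∃ E2 : Set ℝ, E2.Countable ∧ ∀ ρ : ℝ, ρ ∉ E2 → 64 * R < ρ → ρ < 128 * R →
        Gt1 (U : Filter ι) P x nn wd S R a r ρ p z := by
  have z0 : ∀ i s, 0 ≤ z i s := fun i s => by rcases hz i s with h | h <;> rw [h]; exact zero_le_one
  have z1 : ∀ i s, z i s ≤ 1 := fun i s => by rcases hz i s with h | h <;> rw [h]; exact zero_le_one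
  obtain ⟨E, hE, h1⟩ := stbG_prod (U := U) (P := P) (nn := nn) (wd := wd) (S := S) hR hM hW p0
  obtain ⟨E', hE', h2⟩ := val_prod hR hM hW hS z0 z1 hG hp p0
  refine ⟨E ∪ E', hE.union hE', fun a ha haR => ?_⟩
  obtain ⟨E1, hE1, h3⟩ := h1 a (fun h => ha (Or.inl h)) haR
  refine ⟨E1, hE1, fun r hr hrR => ?_⟩
  obtain ⟨E2, hE2, h4⟩ := h3 r hr hrR
  refine ⟨E2, hE2, fun ρ hρ hρ1 hρ2 => ?_⟩
  obtain ⟨h5, h6⟩ := h4 ρ hρ hρ1 hρ2
  have h7 := h2 a (fun h => ha (Or.inr h)) haR r ρ hrR hρ1 hρ2 h5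
  have hrρ : r ≤ ρ := by linarith
  refine ⟨h7, ?_, (h7 _ _ (by positivity) (testX_lv (C := 2 * R) (by positivity))).smul (2 * R), h6⟩
  have h8 := ((h7 1 _ zero_le_one testX_mk).smul 2).sub hzl
  refine (show (fun (i : ι) (s : Ω) => _) = fun i s => _ from ?_) ▸ h8
  funext i s
  rw [mk1_eq (hW.pos i).le hrρ]
  ring

/-- **the marks of the second gates, at separately generic parameters** -/
theorem gt2_prod {R R2 a r ρ : ℝ} (hR : 0 < R) (hR2 : 0 < R2) (hM : Mb (U : Filter ι) P) (hW : WSys (U : Filter ι) P nn wd S)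
    (hS : Tendsto S (U : Filter ι) atTop) {z : ι → Ω → ℝ} (hz : ∀ i s, z i s = 0 ∨ z i s = 1) (hzl : L1A (U : Filter ι) P x z)
    (hG2 : GrdA (U : Filter ι) P x nn wd S R2 z) {p : ι → Ω → ℝ} (hr : r ≤ 2 * R) (hrρ : r ≤ ρ)
    (h : Gt1 (U : Filter ι) P x nn wd S R a r ρ p z) :
    ∃ F : Set ℝ, F.Countable ∧ ∀ m : ℝ, m ∉ F → R2 / 4 < m → ∃ F1 : Set ℝ, F1.Countable ∧ ∀ r2 : ℝ, r2 ∉ F1 → r2 < 2 * R2 →
      ∃ F2 : Set ℝ, F2.Countable ∧ ∀ ρ2 : ℝ, ρ2 ∉ F2 → 64 * R2 < ρ2 → ρ2 < 128 * R2 →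
        Gt2 (U : Filter ι) P x nn wd S R R2 a r ρ m r2 ρ2 p z := by
  have z0 : ∀ i s, 0 ≤ z i s := fun i s => by rcases hz i s with h | h <;> rw [h]; exact zero_le_one
  have z1 : ∀ i s, z i s ≤ 1 := fun i s => by rcases hz i s with h | h <;> rw [h]; exact zero_le_one
  obtain ⟨F, hF, h1⟩ := stbG_prod (U := U) (P := P) (nn := nn) (wd := wd) (S := S)
    (p := fun i s => nlv R a r ρ (S i) (p i s) 1 (wd i s)) hR2 hM hW fun i s => nlv_nn hR.le zero_le_one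
  obtain ⟨F', hF', h2⟩ := stbG_prod (U := U) (P := P) (nn := nn) (wd := wd) (S := S)
    (p := fun i s => nlv R a r ρ (S i) (p i s) (z i s) (wd i s)) hR2 hM hW fun i s => nlv_nn hR.le (z0 i s)
  obtain ⟨F'', hF'', h3⟩ := val_prod hR2 hM hW hS z0 z1 hG2 h.lv fun i s => nlv_nn hR.le (z0 i s)
  refine ⟨(F ∪ F') ∪ F'', (hF.union hF').union hF'', fun m hm hmR => ?_⟩
  obtain ⟨F1, hF1, g1⟩ := h1 m (fun h => hm (Or.inl (Or.inl h))) hmR
  obtain ⟨F1', hF1', g2⟩ := h2 m (fun h => hm (Or.inl (Or.inr h))) hmR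
  have g3 := h3 m (fun h => hm (Or.inr h)) hmR
  refine ⟨F1 ∪ F1', hF1.union hF1', fun r2 hr2 hr2R => ?_⟩
  obtain ⟨F2, hF2, f1⟩ := g1 r2 (fun h => hr2 (Or.inl h)) hr2R
  obtain ⟨F2', hF2', f2⟩ := g2 r2 (fun h => hr2 (Or.inr h)) hr2R
  refine ⟨F2 ∪ F2', hF2.union hF2', fun ρ2 hρ2 k1 k2 => ?_⟩
  obtain ⟨-, e1⟩ := f1 ρ2 (fun h => hρ2 (Or.inl h)) k1 k2
  obtain ⟨e2, -⟩ := f2 ρ2 (fun h => hρ2 (Or.inr h)) k1 k2
  have e3 := g3 r2 ρ2 hr2R k1 k2 e2
  have hrρ2 : r2 ≤ ρ2 := by linarith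
  have val : ∀ (K : ℝ) (H : ℝ × CI → ℝ → ℝ), 0 ≤ K → TestX K H → L1A (U : Filter ι) P x fun i s =>
      inB (Dv (wd i s) (p i s * S i)) a r ρ m r2 ρ2 (S i) (fun k => H (XS (S i) (wd i s)) ((k : ℝ) / nn i s)) (wd i s) * z i s := by
    intro K H hK hH
    have h7 := (h.val 0 (fun _ _ => 1) le_rfl testX_one).mul (e3 K H hK hH)
    refine (show (fun (i : ι) (s : Ω) => _) = fun i s => _ from ?_) ▸ h7
    funext i s
    exact (inB_eq hR (hW.pos i) hr hrρ (hz i s)).symm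
  refine ⟨val, ?_, (val _ _ (by positivity) (testX_lv (C := 2 * R2) (by positivity))).smul (2 * R2), e1⟩
  have h9 := ((val 1 _ zero_le_one testX_mk).smul 2).sub hzl
  refine (show (fun (i : ι) (s : Ω) => _) = fun i s => _ from ?_) ▸ h9
  funext i s
  rw [mkB_eq (hW.pos i).le hrρ hrρ2]
  ring

end marks

end Pool.Agent.ROT.F3
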