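import Pool.Agent.ROT.F3GtD
import Pool.Agent.ROT.F3WLim

/-!
# ROT / F3GtT (helper61): the gates of a strand: classes of F3Cls and the start gates `TP` of the turned strand

`T` : a symmetry of the lattice which turns the direction `d` of the strand into `1`, `v = mp T u` : the turned strand, `s = v.get`.
* `tp_gw`, `tp_gwb` : the start gates `TP` of `s` (sizes `LG` and `Dv s b`) = the start gates `GW` of `u`;
* `GP` : thresholds and radii, `GP.Ok` : their ranges; `SGt` : first gate `c` over a base `p`, gate `x` over `c`, gate `y` over `c`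
  with a level less than the threshold of `x`;
* **`strand_iff`** : the gate part `StG` of the strand = `SGt` and two balls; `SGt.uniq`.
-/

set_option autoImplicit false

namespace Pool.Agent.ROT.F3

open Finset ComplexConjugate
open scoped ENNReal Classical
open Pool.Agent.NTS.Res (step pos saw)
open Pool.Agent.SCF.M (TP Dv)
open Pool.Agent.SCF.Z (SCut GC)

/-! ### the turned strand -/

lemma gt_pos (w : W3) (k : ℕ) : pos w.get k = ps w k := by
  rw [← ps_ofFn, List.ofFn_get]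

section turn

variable {T : LSym} {d : ℂ} {u v : W3}

/-- the level is the real part after the turn -/
lemma re_L (hT : T.L d = 1) (z : ℂ) : (T.L z).re = lv d z := by
  have h : lv d z = dt z d := by
    rw [dt_mul_conj, mul_comm]
    rfl
  rw [h, ← dt_map T, hT, dt_one]

lemma ex_ev (hT : T.L d = 1) : ∃ a : Fin 3, d = ev a := by
  refine ⟨T.inv.σ 0, ?_⟩
  rw [← L_ev, ev_zero, ← hT]
  exact (T.inv_L d).symm

lemma gt_ps (hv : v = mp T u) (k : ℕ) : pos v.get k = T.L (ps u k) := by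
  rw [gt_pos, hv, ps_mp]

lemma gt_re (hT : T.L d = 1) (hv : v = mp T u) (k : ℕ) : (pos v.get k).re = lv d (ps u k) := by
  rw [gt_ps hv, re_L hT]

lemma gt_norm (hv : v = mp T u) (i j : ℕ) : ‖pos v.get i - pos v.get j‖ = ‖ps u i - ps u j‖ := by
  rw [gt_ps hv, gt_ps hv, ← map_sub, LinearIsometryEquiv.norm_map]

lemma gt_step (hT : T.L d = 1) (hv : v = mp T u) (k : ℕ) : pos v.get (k + 1) = pos v.get k + 1 ↔ ps u (k + 1) = ps u k + d := by
  rw [gt_ps hv, gt_ps hv, ← hT, ← map_add, T.L.injective.eq_iff]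

/-- cuts -/
lemma gt_scut (hT : T.L d = 1) (hv : v = mp T u) {k' k : ℕ} (hk : k ≤ u.length) :
    SCut v.get 0 k' k ↔ Even k' ∧ k' < k ∧ CutC d (u.take k) k' := by
  obtain ⟨a, rfl⟩ := ex_ev hT
  have lk : (u.take k).length = k := by rw [List.length_take, min_eq_left hk]
  have pk : ∀ j, j ≤ k → ps (u.take k) j = ps u j := fun j hj => ps_take u hj hk
  unfold SCut
  simp only [gt_step hT hv, gt_re hT hv]
  constructor
  · rintro ⟨-, h1, h2, h3, h4, h5⟩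
    refine ⟨h2, h1, (cutC_iff a h2 (by omega)).2 ⟨fun j hj => ?_, ?_, fun j hj hj' => ?_⟩⟩
    · rw [pk j (by omega), pk k' h1.le]
      exact h4 j (Nat.zero_le _) hj
    · rw [pk _ (by omega), pk k' h1.le]
      exact h3
    · rw [lk] at hj'
      rw [pk j hj', pk k' h1.le]
      exact h5 j hj hj'
  · rintro ⟨h2, h1, h3⟩
    obtain ⟨h4, h5, h6⟩ := (cutC_iff a h2 (by omega)).1 h3
    rw [pk _ (by omega), pk k' h1.le] at h5
    refine ⟨Nat.zero_le _, h1, h2, h5, fun j _ hj => ?_, fun j hj hj' => ?_⟩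
    · have := h4 j hj
      rwa [pk j (by omega), pk k' h1.le] at this
    · have := h6 j hj (by omega)
      rwa [pk j hj', pk k' h1.le] at this

/-- rests -/
lemma gt_gc (hT : T.L d = 1) (hv : v = mp T u) {k : ℕ} (ek : Even k) {ρ : ℝ} (hρ : 1 ≤ ρ) :
    GC ρ v.get k ↔ k < u.length ∧ RestC d ρ (u.drop k) := by
  obtain ⟨a, rfl⟩ := ex_ev hT
  have lv' : v.length = u.length := by rw [hv, mp_length]
  have ld : (u.drop k).length = u.length - k := List.length_drop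
  unfold GC
  simp only [gt_step hT hv, gt_re hT hv, gt_norm hv, lv']
  constructor
  · rintro ⟨h1, h2, h3⟩
    refine ⟨h1, (restC_iff a hρ (by omega)).2 ⟨?_, fun j hj hj' hn => ?_⟩⟩
    · rw [ps_drp _ ek h1.le, h2]
      ring
    · rw [ps_drp _ ek h1.le] at hn ⊢
      rw [lv_sub]
      linarith [h3 (k + j) (by omega) (by omega) hn]
  · rintro ⟨h1, h2⟩
    obtain ⟨h3, h4⟩ := (restC_iff a hρ (by omega)).1 h2
    rw [ps_drp _ ek h1.le] at h3
    refine ⟨h1, by rw [← h3]; ring, fun j hj hj' hn => ?_⟩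
    have := h4 (j - k) (by omega) (by omega) (by
      rw [ps_drp _ ek h1.le, show k + (j - k) = j by omega]
      exact hn)
    rw [ps_drp _ ek h1.le, show k + (j - k) = j by omega, lv_sub] at this
    linarith

/-- **start gates of the turned strand**, any size given by a level -/
theorem gt_core (hT : T.L d = 1) (hv : v = mp T u) {D : ℝ → ℕ → Prop} {a a' r ρ : ℝ} (hD : ∀ k, D a k ↔ a' ≤ (pos v.get k).re)
    (hρ : 1 ≤ ρ) {k : ℕ} : TP D a r ρ v.get k ↔ GW d a' r ρ u k := by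
  unfold TP
  simp only [hD, gt_re hT hv, gt_norm hv]
  constructor
  · rintro ⟨⟨h1, h2, h3, h4, h5⟩, h6⟩
    obtain ⟨h7, h8⟩ := (gt_gc hT hv h1 hρ).1 h6
    exact ⟨⟨h1, h7.le, h2, h4, fun k' e1 e2 e3 => not_le.1 (h5 k' ((gt_scut hT hv h7.le).2 ⟨e1, e2, e3⟩))⟩, h7, h3, h8⟩
  · rintro ⟨⟨h1, h2, h3, h4, h5⟩, h7, h6, h8⟩
    exact ⟨⟨h1, h3, h6, h4, fun k' hk' => by
      obtain ⟨e1, e2, e3⟩ := (gt_scut hT hv h2).1 hk'
      exact not_le.2 (h5 k' e1 e2 e3)⟩, (gt_gc hT hv h1 hρ).2 ⟨h7, h8⟩⟩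

/-- the size `LG` -/
theorem tp_gw (hT : T.L d = 1) (hv : v = mp T u) {a r ρ : ℝ} (hρ : 1 ≤ ρ) {k : ℕ} :
    TP (fun a k => Pool.Agent.SCF.M.LG a v.length v.get k) a r ρ v.get k ↔ GW d a r ρ u k :=
  gt_core hT hv (fun _ => Iff.rfl) hρ

/-- the level over a base -/
theorem tp_gwb (hT : T.L d = 1) (hv : v = mp T u) {b a r ρ : ℝ} (hρ : 1 ≤ ρ) {k : ℕ} :
    TP (Dv v.get b) a r ρ v.get k ↔ GW d (a + b) r ρ u k :=
  gt_core hT hv (fun _ => Iff.rfl) hρ

end turn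

/-! ### gates over a first gate, in the whole strand -/

section whole

variable {d : ℂ} {r r2 l m ρ ρ1 r1 R : ℝ} {u : W3} {c x : ℕ}

/-- the diameter of tip .. `x` from the two balls -/
lemma gt_dm (h2 : 2 * r ≤ r2) (b1 : ∀ j : ℕ, j ≤ c → ‖ps u j‖ ≤ r) (b2 : ∀ j : ℕ, c ≤ j → j ≤ x → ‖ps u j - ps u c‖ ≤ r2)
    {i j : ℕ} (hi : i ≤ x) (hj : j ≤ x) : ‖ps u i - ps u j‖ ≤ 2 * r2 := by
  have b0 := b1 0 (Nat.zero_le _)
  rw [ps_zero, norm_zero] at b0
  have key : ∀ i j : ℕ, i ≤ c → c ≤ j → j ≤ x → ‖ps u i - ps u j‖ ≤ 2 * r2 := fun i j hi hcj hj => by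
    have n1 := b1 i hi
    have n2 := b1 c le_rfl
    have n3 := b2 j hcj hj
    calc ‖ps u i - ps u j‖ = ‖(ps u i - ps u c) - (ps u j - ps u c)‖ := by congr 1; ring
      _ ≤ ‖ps u i - ps u c‖ + ‖ps u j - ps u c‖ := norm_sub_le _ _
      _ ≤ (r + r) + r2 := add_le_add ((norm_sub_le _ _).trans (add_le_add n1 n2)) n3
      _ ≤ 2 * r2 := by linarith
  rcases le_total i c with h3 | h3
  · rcases le_total j c with h4 | h4
    · refine (norm_sub_le _ _).trans ?_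
      linarith [b1 i h3, b1 j h4]
    · exact key i j h3 h4 hj
  · rcases le_total j c with h4 | h4
    · rw [norm_sub_rev]
      exact key j i h4 h3 hi
    · calc ‖ps u i - ps u j‖ = ‖(ps u i - ps u c) - (ps u j - ps u c)‖ := by congr 1; ring
        _ ≤ ‖ps u i - ps u c‖ + ‖ps u j - ps u c‖ := norm_sub_le _ _
        _ ≤ r2 + r2 := add_le_add (b2 i h3 hi) (b2 j h4 hj)
        _ = 2 * r2 := by ring

/-- **the gate `x` over `c`** : of the block and of the whole strand -/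
lemma gw_whole (gc : GPr d l u c) (hm : 0 < m) (hcx : c ≤ x) (hx : x < u.length) (h2 : 2 * r ≤ r2) (hR : 2 * r2 ≤ R)
    (b1 : ∀ j : ℕ, j ≤ c → ‖ps u j‖ ≤ r) (b2 : ∀ j : ℕ, c ≤ j → j ≤ x → ‖ps u j - ps u c‖ ≤ r2) :
    GW d m (2 * r2) ρ (u.drop c) (x - c) ↔ GW d (lv d (ps u c) + m) R ρ u x := by
  have dd : (u.drop c).drop (x - c) = u.drop x := by rw [List.drop_drop, show c + (x - c) = x by omega]
  have ld : (u.drop c).length = u.length - c := List.length_drop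
  have hg := gw_over (d := d) (m := m) (x := x) gc hm hcx hx.le
  constructor
  · rintro ⟨g1, -, -, g4⟩
    rw [dd] at g4
    exact ⟨hg.1 g1, hx, fun i j hi hj => (gt_dm h2 b1 b2 hi hj).trans hR, g4⟩
  · rintro ⟨g1, -, -, g4⟩
    rw [← dd] at g4
    refine ⟨hg.2 g1, by omega, fun i j hi hj => ?_, g4⟩
    rw [ps_drp u gc.ev (by omega), ps_drp u gc.ev (by omega), sub_sub_sub_cancel_right]
    exact gt_dm h2 b1 b2 (by omega) (by omega)

end whole

/-! ### the gates of a strand -/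

/-- thresholds and radii of the gates of a strand, unit `S` -/
structure GP where
  l : ℝ
  r1 : ℝ
  ρ1 : ℝ
  m : ℝ
  r1' : ℝ
  ρ' : ℝ
  h : ℝ
  r1'' : ℝ
  ρ'' : ℝ

/-- the ranges: the thresholds and the ball `ρ'` are those of the class `P`, all other radii are free -/
structure GP.Ok (G : GP) (P : Tp) : Prop where
  l : G.l = P.l
  m : G.m = P.m
  h : G.h = P.th * P.m
  ρ' : G.ρ' = P.rg
  r1 : 2 * P.r ≤ G.r1
  ρ1 : P.r2 ≤ G.ρ1
  ρ1' : G.ρ1 + P.r2 ≤ P.rg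
  r1' : 2 * P.r2 ≤ G.r1'
  r1'' : 2 * P.r2 ≤ G.r1''
  ρ'' : G.ρ'' + 2 * P.r2 ≤ P.rg
  u1 : G.r1 ≤ G.ρ1
  u2 : G.r1' ≤ G.ρ'
  u3 : G.r1'' ≤ G.ρ''

/-- **the gates of a strand** over the base `p` (the threshold of `c` is `G.l + p`): `c` = first gate, `x` = gate over `c`, `y` =
gate over `c` for the cut in the block -/
structure SGt (G : GP) (p S : ℝ) {n : ℕ} (s : Fin n → Fin 3) (c x y : ℕ) : Prop where
  gx : GB2 (Dv s (p * S)) G.l G.r1 G.ρ1 G.m G.r1' G.ρ' S s c x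
  gy : TP (Dv s (pos s c).re) (G.h * S) (G.r1'' * S) (G.ρ'' * S) s y
  lt : (pos s y).re < (pos s c).re + G.m * S

/-- the gates are unique -/
theorem SGt.uniq {G : GP} {P : Tp} {p S : ℝ} {n : ℕ} {s : Fin n → Fin 3} {c x y c' x' y' : ℕ} (hG : G.Ok P) (hS : 0 ≤ S)
    (h : SGt G p S s c x y) (h' : SGt G p S s c' x' y') : c = c' ∧ x = x' ∧ y = y' := by
  obtain ⟨e1, e2⟩ := gb2_unique hS hG.u1 hG.u2 h.gx h'.gx
  subst e1
  exact ⟨rfl, e2, Pool.Agent.SCF.M.tp_unique (mul_le_mul_of_nonneg_right hG.u3 hS) h.gy h'.gy⟩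

/-- the order of the gates -/
lemma SGt.order {G : GP} {p S : ℝ} {n : ℕ} {s : Fin n → Fin 3} {c x y : ℕ} (h : SGt G p S s c x y) (hm : 0 < G.m * S) :
    c < x ∧ x < n := by
  refine ⟨?_, h.gx.2.2.1⟩
  by_contra hc
  have h1 := h.gx.1.1.2.1 x (not_lt.1 hc)
  have h2 : G.m * S + (pos s c).re ≤ (pos s x).re := h.gx.2.1.2.2.2.1
  linarith

/-- base `0`: the size `LG` -/
lemma dv_zero {n : ℕ} (s : Fin n → Fin 3) (S : ℝ) : Dv s (0 * S) = fun a k => Pool.Agent.SCF.M.LG a n s k := by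
  funext a k
  show (a + 0 * S ≤ (pos s k).re) = (a ≤ (pos s k).re)
  rw [zero_mul, add_zero]

section strand

variable {T : LSym} {d : ℂ} {u v : W3} {G : GP} {P : Tp} {p S : ℝ} {c x : ℕ}

/-- **the gates of a strand: the classes and the start gates of the turned strand** -/
theorem strand_iff (hT : T.L d = 1) (hv : v = mp T u) (hu : SW u) (hP : P.Ok) (hG : G.Ok P) (hp : 0 ≤ p) (hS : 0 < S)
    (h1 : 1 ≤ G.ρ1 * S) (h2 : 1 ≤ G.ρ'' * S) (hcx : c ≤ x) (hx : x < u.length) :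
    StG d (P.r * S) ((P.l + p) * S) (P.r2 * S) (P.m * S) (P.th * P.m * S) (P.rg * S) u c x ↔
      (∃ y, SGt G p S v.get c x y) ∧ (∀ j : ℕ, j ≤ c → ‖ps u j‖ ≤ P.r * S) ∧
        ∀ j : ℕ, c ≤ j → j ≤ x → ‖ps u j - ps u c‖ ≤ P.r2 * S := by
  have l0 : 0 < (P.l + p) * S := mul_pos (by linarith [hP.l]) hS
  have m0 : 0 < P.m * S := mul_pos hP.m hS
  have r20 : 0 < P.r2 * S := mul_pos hP.r2 hS
  have t0 : 0 < P.th * P.m * S := mul_pos (mul_pos hP.th hP.m) hS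
  have rr : 2 * (P.r * S) ≤ P.r2 * S := by
    have : 2 * P.r ≤ P.r2 := by linarith [hP.m8, hP.m22, hP.m, hP.r]
    calc 2 * (P.r * S) = 2 * P.r * S := by ring
      _ ≤ P.r2 * S := mul_le_mul_of_nonneg_right this hS.le
  have i1 : 2 * (P.r * S) ≤ G.r1 * S := by
    rw [← mul_assoc]
    exact mul_le_mul_of_nonneg_right hG.r1 hS.le
  have i2 : P.r2 * S ≤ G.ρ1 * S := mul_le_mul_of_nonneg_right hG.ρ1 hS.le
  have i3 : G.ρ1 * S + P.r2 * S ≤ P.rg * S := by
    rw [← add_mul]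
    exact mul_le_mul_of_nonneg_right hG.ρ1' hS.le
  have i4 : 2 * (P.r2 * S) ≤ G.r1' * S := by
    rw [← mul_assoc]
    exact mul_le_mul_of_nonneg_right hG.r1' hS.le
  have i5 : 2 * (P.r2 * S) ≤ G.r1'' * S := by
    rw [← mul_assoc]
    exact mul_le_mul_of_nonneg_right hG.r1'' hS.le
  have i6 : 2 * (P.r2 * S) ≤ G.ρ'' * S := i5.trans (mul_le_mul_of_nonneg_right hG.u3 hS.le)
  have i7 : G.ρ'' * S + 2 * (P.r2 * S) ≤ P.rg * S := by
    have : G.ρ'' * S + 2 * (P.r2 * S) = (G.ρ'' + 2 * P.r2) * S := by ring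
    rw [this]
    exact mul_le_mul_of_nonneg_right hG.ρ'' hS.le
  have h3 : 1 ≤ G.ρ' * S := by
    rw [hG.ρ']
    linarith
  rw [stG_iff hu hcx hx i1 i2 i3 (le_refl (2 * (P.r2 * S))) (le_refl (2 * (P.r2 * S))) i6 i7 l0 m0 t0]
  have cc : ∀ {k : ℕ}, TP (Dv v.get (pos v.get c).re) (G.m * S) (G.r1' * S) (G.ρ' * S) v.get k ↔
      GW d (lv d (ps u c) + P.m * S) (G.r1' * S) (P.rg * S) u k := fun {k} => by
    rw [tp_gwb hT hv h3, gt_re hT hv, hG.m, hG.ρ', add_comm]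
  have cy : ∀ {k : ℕ}, TP (Dv v.get (pos v.get c).re) (G.h * S) (G.r1'' * S) (G.ρ'' * S) v.get k ↔
      GW d (lv d (ps u c) + P.th * P.m * S) (G.r1'' * S) (G.ρ'' * S) u k := fun {k} => by
    rw [tp_gwb hT hv h2, gt_re hT hv, hG.h, add_comm]
  have c1 : TP (Dv v.get (p * S)) (G.l * S) (G.r1 * S) (G.ρ1 * S) v.get c ↔
      GW d ((P.l + p) * S) (G.r1 * S) (G.ρ1 * S) u c := by
    rw [tp_gwb hT hv h1, hG.l, ← add_mul]
  constructor
  · rintro ⟨⟨g1, g2, y, gy, hy⟩, b1, b2⟩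
    have hyx : c + y ≤ x := by
      by_contra hc
      push Not at hc
      linarith [g2.g.lev, gy.g.left (x - c) (by omega)]
    have gy' : GW d (P.th * P.m * S) (2 * (P.r2 * S)) (G.ρ'' * S) (u.drop c) (c + y - c) := by
      rw [Nat.add_sub_cancel_left]
      exact gy
    refine ⟨⟨c + y, ⟨c1.2 g1, cc.2 ((gw_whole g1.g m0 hcx hx rr i4 b1 b2).1 g2)⟩,
      cy.2 ((gw_whole g1.g t0 (Nat.le_add_right _ _) (by omega) rr i5 b1 fun j h4 h5 => b2 j h4 (by omega)).1 gy'), ?_⟩, b1, b2⟩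
    rw [gt_re hT hv, gt_re hT hv, hG.m]
    rw [ps_drp u g1.g.ev (by omega), lv_sub] at hy
    linarith
  · rintro ⟨⟨y, ⟨t1, t2⟩, ty, hy⟩, b1, b2⟩
    have g1 := c1.1 t1
    have g2 := cc.1 t2
    have gy := cy.1 ty
    rw [gt_re hT hv, gt_re hT hv, hG.m] at hy
    have hcy : c ≤ y := by
      by_contra hc
      push Not at hc
      linarith [gy.g.lev, g1.g.left y hc.le]
    have hyx : y < x := by
      by_contra hc
      push Not at hc
      linarith [g2.g.lev, gy.g.left x hc]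
    refine ⟨⟨g1, (gw_whole g1.g m0 hcx hx rr i4 b1 b2).2 g2, y - c,
      (gw_whole g1.g t0 hcy (by omega) rr i5 b1 fun j h4 h5 => b2 j h4 (by omega)).2 gy, ?_⟩, b1, b2⟩
    rw [ps_drp u g1.g.ev (by omega), lv_sub, show c + (y - c) = y by omega]
    linarith

end strand

end Pool.Agent.ROT.F3
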