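import Pool.Agent.ROT.F3W7g

/-!
# ROT, F3 (B) (helper64): the hypotheses of `chan_gen` for rests of the lattice 0

* `ab d v` : the skew abscissa; `ab_add`, `ab_cone`, `ab_turn`;
* `HpG f bn L e d` : `hp` of `chan_gen` for `f`; **`hp_Y`** : rests with an outer gate `y` (blocks in a ball and in a cone, then right of
  `y`); **`hp_kA`** : rests `k A k'` (`k` in a cone, `A` in a strip in a slightly turned direction without return).
-/

set_option autoImplicit false

namespace Pool.Agent.ROT.F3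

open Set ComplexConjugate

/-- the skew abscissa in the direction `d` -/
noncomputable def ab (d v : ℂ) : ℝ := lv d v - ltl d v / Real.sqrt 3

lemma ab_add (d v v' : ℂ) : ab d (v + v') = ab d v + ab d v' := by
  unfold ab lv ltl
  rw [mul_add, Complex.add_re, Complex.add_im]
  ring

lemma ab_dir (d t v : ℂ) : ab (d - t) v = ab d v - ab t v := by
  unfold ab lv ltl
  rw [map_sub, sub_mul, Complex.sub_re, Complex.sub_im]
  ring

lemma ab_self {d : ℂ} (hd : ‖d‖ = 1) (r : ℝ) : ab d (r * d) = r := by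
  have h : conj d * (r * d) = (r : ℂ) := by
    have h1 : conj d * d = 1 := by
      rw [mul_comm, Complex.mul_conj, Complex.normSq_eq_norm_sq, hd]
      norm_num
    calc conj d * (r * d) = r * (conj d * d) := by ring
      _ = r := by rw [h1, mul_one]
  unfold ab lv ltl
  rw [h, Complex.ofReal_re, Complex.ofReal_im, zero_div, sub_zero]

/-- the abscissa is at most `6 / 5` times the norm -/
lemma ab_norm (d v : ℂ) : |ab d v| ≤ 6 / 5 * (‖d‖ * ‖v‖) := by
  obtain ⟨w, hw⟩ : ∃ w : ℂ, w = conj d * v := ⟨_, rfl⟩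
  have hn : ‖w‖ = ‖d‖ * ‖v‖ := by rw [hw, norm_mul, Complex.norm_conj]
  have e : ab d v = w.re - w.im / Real.sqrt 3 := by
    rw [hw]
    rfl
  rw [e, ← hn]
  refine abs_le_of_sq_le_sq ?_ (by positivity)
  have h2 : ‖w‖ ^ 2 = w.re * w.re + w.im * w.im := by
    rw [← Complex.normSq_eq_norm_sq, Complex.normSq_apply]
  have h3 := sqrt3_sq
  have h4 := sqrt3_pos
  obtain ⟨q, hq⟩ : ∃ q : ℝ, q = w.im / Real.sqrt 3 := ⟨_, rfl⟩
  have h5 : w.im = q * Real.sqrt 3 := by
    rw [hq]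
    field_simp
  rw [← hq, mul_pow, h2, h5]
  have h6 : q * Real.sqrt 3 * (q * Real.sqrt 3) = 3 * (q * q) := by
    calc q * Real.sqrt 3 * (q * Real.sqrt 3) = Real.sqrt 3 * Real.sqrt 3 * (q * q) := by ring
      _ = 3 * (q * q) := by rw [h3]
  rw [h6]
  nlinarith [sq_nonneg (w.re + 3 * q), sq_nonneg w.re, sq_nonneg q]

lemma ab_cone {d : ℂ} (hd : ‖d‖ = 1) {c κ : ℝ} (hc : 3 / 5 ≤ c) {v : ℂ} (h : Kn d c κ v) : -κ ≤ ab d v :=
  cone_abs hd hc h

/-- a slightly turned direction -/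
lemma ab_turn (d t v : ℂ) : ab t v - 6 / 5 * (‖d - t‖ * ‖v‖) ≤ ab d v := by
  have h1 := abs_le.1 (ab_norm (d - t) v)
  rw [ab_dir] at h1
  linarith [h1.1]

/-- the strip -/
lemma ab_strip {t v : ℂ} {e hw : ℝ} (h1 : -e ≤ lv t v) (h2 : |ltl t v| ≤ hw) : -(e + 3 / 5 * hw) ≤ ab t v := by
  have h4 : 5 / 3 ≤ Real.sqrt 3 := by
    refine Real.le_sqrt_of_sq_le ?_
    norm_num
  have h0 : 0 ≤ hw := (abs_nonneg _).trans h2
  have h5 : ltl t v / Real.sqrt 3 ≤ 3 / 5 * hw := by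
    rw [div_le_iff₀ sqrt3_pos]
    have := (le_abs_self (ltl t v)).trans h2
    nlinarith
  unfold ab
  linarith

/-- **the hypothesis `hp` of `chan_gen`** (at `q` for the reversed curve) -/
def HpG (f : unitInterval → ℂ) (bn L e : ℝ) (d : ℂ) : Prop :=
  ∀ s t : unitInterval, s ≤ t → ‖f t‖ < bn → ‖f s‖ ≤ L ∧ -e ≤ ab d (f s)

/-- **rests with an outer gate** `y = f σ`: the block up to `y` is in the ball `L` and in the cone; behind `y` the curve is right of
`y` or far from `y`; the last part is near the end -/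
theorem hp_Y {f : unitInterval → ℂ} {d : ℂ} (hd : ‖d‖ = 1) {σ σ' : unitInterval} {bn L L' c κ rg : ℝ} (hc : 3 / 5 ≤ c)
    (h1 : ∀ t, t ≤ σ → ‖f t‖ ≤ L ∧ Kn d c κ (f t)) (h2 : ∀ t, σ ≤ t → t ≤ σ' → 0 ≤ lv d (f t - f σ) ∨ rg ≤ ‖f t - f σ‖)
    (h3 : ∀ t, σ' ≤ t → ‖f t - f 1‖ ≤ L') (hy : bn ≤ lv d (f σ)) (hr : bn + L ≤ rg) (hf : bn + L' ≤ ‖f 1‖) :
    HpG f bn L κ d := by
  intro s t hst ht
  rcases le_total t σ with h | h
  · obtain ⟨k1, k2⟩ := h1 s (hst.trans h)
    exact ⟨k1, ab_cone hd hc k2⟩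
  · exfalso
    rcases le_total t σ' with h' | h'
    · rcases h2 t h h' with h4 | h4
      · have h5 : lv d (f t) ≤ ‖f t‖ := by
          unfold lv
          refine (Complex.re_le_norm _).trans ?_
          rw [norm_mul, Complex.norm_conj, hd, one_mul]
        have h6 : lv d (f t) = lv d (f σ) + lv d (f t - f σ) := by
          unfold lv
          rw [← Complex.add_re, ← mul_add, add_sub_cancel]
        linarith
      · have h5 := norm_sub_le (f t) (f σ)
        have h6 := (h1 σ le_rfl).1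
        linarith
    · have h4 := h3 t h'
      have h5 : ‖f 1‖ ≤ ‖f t‖ + ‖f t - f 1‖ := by
        have : f 1 = f t - (f t - f 1) := by ring
        rw [this]
        simpa using norm_sub_le (f t) (f t - (f t - (f t - f 1)))
      linarith

/-- **rests `k A k'`**: `k` (up to `σ`) is in the ball `K` and in the cone, ends near `kc d`; `A` (from `σ` to `σ'`) is in the strip up
to `τ` and then never in the ball `bn + K` about its start; the last part is near the end -/
theorem hp_kA {f : unitInterval → ℂ} {d t0 : ℂ} (hd : ‖d‖ = 1) (ht0 : ‖t0‖ = 1) {σ σ' τ : unitInterval}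
    {bn K K' c κ kc kr e hw len L : ℝ} (hc : 3 / 5 ≤ c) (hl : 0 ≤ len + hw)
    (h1 : ∀ t, t ≤ σ → ‖f t‖ ≤ K ∧ Kn d c κ (f t)) (hk : ‖f σ - kc * d‖ ≤ kr)
    (h2 : ∀ t, σ ≤ t → t ≤ τ → -e ≤ lv t0 (f t - f σ) ∧ lv t0 (f t - f σ) ≤ len ∧ |ltl t0 (f t - f σ)| ≤ hw)
    (h3 : ∀ t, σ ≤ t → τ ≤ t → t ≤ σ' → bn + K ≤ ‖f t - f σ‖) (h4 : ∀ t, σ' ≤ t → ‖f t - f 1‖ ≤ K') (he : e ≤ len)
    (hL : K + len + hw ≤ L) (hn : 6 / 5 * kr + e + 3 / 5 * hw + 6 / 5 * (‖d - t0‖ * (len + hw)) ≤ kc + κ)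
    (hf : bn + K' ≤ ‖f 1‖) : HpG f bn L κ d := by
  intro s t hst ht
  have hK := (h1 σ le_rfl).1
  have hσ : ‖f σ‖ ≤ K := hK
  -- t is before the end of the strip
  have htτ : t ≤ σ ∨ t ≤ τ := by
    by_contra hcon
    push Not at hcon
    rcases le_total t σ' with h | h
    · have k1 := h3 t hcon.1.le hcon.2.le h
      have k2 := norm_sub_le (f t) (f σ)
      linarith
    · have k1 := h4 t h
      have k2 : ‖f 1‖ ≤ ‖f t‖ + ‖f t - f 1‖ := by
        have e1 : f 1 = f t - (f t - f 1) := by ring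
        calc ‖f 1‖ = ‖f t - (f t - f 1)‖ := by rw [← e1]
          _ ≤ _ := norm_sub_le _ _
      linarith
  have in1 : ∀ u, u ≤ σ → ‖f u‖ ≤ L ∧ -κ ≤ ab d (f u) := by
    intro u hu
    obtain ⟨k1, k2⟩ := h1 u hu
    exact ⟨by linarith, ab_cone hd hc k2⟩
  rcases le_total s σ with h | h
  · exact in1 s h
  · rcases htτ with h' | h'
    · exact in1 s (hst.trans h')
    · obtain ⟨a1, a2, a3⟩ := h2 s h (hst.trans h')
      obtain ⟨v, hv⟩ : ∃ v, v = f s - f σ := ⟨_, rfl⟩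
      have es : f s = f σ + v := by rw [hv]; ring
      rw [← hv] at a1 a2 a3
      have nv : ‖v‖ ≤ len + hw := by
        have k1 : ‖v‖ = ‖conj t0 * v‖ := by rw [norm_mul, Complex.norm_conj, ht0, one_mul]
        have k2 : ‖conj t0 * v‖ ≤ |lv t0 v| + |ltl t0 v| := Complex.norm_le_abs_re_add_abs_im _
        have k3 : |lv t0 v| ≤ len := abs_le.2 ⟨by linarith, a2⟩
        linarith
      have k4 : ‖f s‖ ≤ ‖f σ‖ + ‖v‖ := by
        rw [es]
        exact norm_add_le _ _
      refine ⟨by linarith, ?_⟩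
      have k5 := ab_strip a1 a3
      have k6 := ab_turn d t0 v
      have k7 : ‖d - t0‖ * ‖v‖ ≤ ‖d - t0‖ * (len + hw) := mul_le_mul_of_nonneg_left nv (norm_nonneg _)
      have k8 : kc - 6 / 5 * kr ≤ ab d (f σ) := by
        have m1 := ab_add d (kc * d) (f σ - kc * d)
        have m2 := abs_le.1 (ab_norm d (f σ - kc * d))
        rw [hd, one_mul] at m2
        rw [ab_self hd] at m1
        have m3 : kc * d + (f σ - kc * d) = f σ := by ring
        rw [m3] at m1
        linarith [m2.1]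
      rw [es, ab_add]
      linarith

end Pool.Agent.ROT.F3
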