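import Pool.Agent.ROT.F3HGeo2
import Pool.Agent.ROT.F3CoreV
import Pool.Agent.ROT.F3End

/-!
# ROT, F3 (B), D40 / LocD (helper64): rests with the foreign marks satisfy the conditions of `chan_gen`

* `NRp t s r a` : everything behind the time `a` is first in the strip, then outside of the ball (the end `p` only);
* **`hpc_k`** : `KV` up to `a` and `NRp` behind `a` (class 0) give `HpG` (= 51's `HPc`); `hpc_k'` : the same at the end, read backwards;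
* `clM_rvc`, **`vt_rvc`** : main arcs, rests with two marks read backwards; `nrp_of_vt` : no return behind the mark;
* **`vt_hg`** : rests of the class 0 with two marks and a main arc (`VT .. AmV`) are in `HG`.
-/

set_option autoImplicit false

namespace Pool.Agent.ROT.F3

open Set Topology ComplexConjugate
open Pool.Agent.ROT.F3.CC (Pie ex ex_of ex_coe ex_zero ex_one cutp cutp_apply cutp_zero cutp_one pcut KV VT VtC AmV)

/-- everything behind the time `a`: first in the strip, then outside of the ball of no return -/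
def NRp (t : ℂ) (s : Sr) (c : C(unitInterval, ℂ)) (a : ℝ) : Prop :=
  ∃ τ : unitInterval, (∀ x : unitInterval, a ≤ x → x ≤ τ → c x - ex c a ∈ StK t s) ∧
    ∀ x : unitInterval, a ≤ x → τ ≤ x → c x - ex c a ∈ OuK s

/-- the piece read from the end -/
lemma pcut_rvc (r : Pie) (a b : ℝ) (ha : a ∈ Icc (0 : ℝ) 1) (hb : b ∈ Icc (0 : ℝ) 1) :
    pcut (rvc r.1, r.2) a b = pcut r (1 - a) (1 - b) := by
  have hx : ∀ x : ℝ, x ∈ Icc (0 : ℝ) 1 → ex (rvc r.1) x = ex r.1 (1 - x) - r.1 1 := by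
    intro x hx
    have hx' : 1 - x ∈ Icc (0 : ℝ) 1 := ⟨by linarith [hx.2], by linarith [hx.1]⟩
    rw [ex_of _ hx, ex_of _ hx', rvc_apply]
    rfl
  refine Prod.ext ?_ ?_
  · ext u
    show cutp (rvc r.1) a b u = cutp r.1 (1 - a) (1 - b) u
    have hu : a + u * (b - a) ∈ Icc (0 : ℝ) 1 := CC.mid_mem ha hb u.2
    rw [cutp_apply, cutp_apply, hx _ hu, hx _ ha]
    have e : 1 - (a + (u : ℝ) * (b - a)) = 1 - a + u * (1 - b - (1 - a)) := by ring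
    rw [e]
    ring
  · show r.2 * |b - a| = r.2 * |1 - b - (1 - a)|
    rw [show 1 - b - (1 - a) = -(b - a) by ring, abs_neg]

/-- **the end `p`** of a rest of the class 0 with the foreign mark `a` -/
theorem hpc_k {d t : ℂ} (hd : ‖d‖ = 1) (ht : ‖t‖ = 1) {E : En} {ε : ℝ} (hdt : ‖d - t‖ ≤ ε) (hc : 3 / 5 ≤ E.n.c) {r : Pie} {a : ℝ}
    (ha : a ∈ Icc (0 : ℝ) 1) (hz : r.1 0 = 0) (hk : KV d E (pcut r 0 a)) (hn : NRp t E.s r.1 a) {bn L : ℝ} (he : E.s.e ≤ E.s.len)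
    (hl : 0 ≤ E.s.len + E.s.hw) (hL : E.k + E.s.len + E.s.hw ≤ L) (hb : bn + E.k ≤ E.s.bn)
    (hnum : 6 / 5 * E.kr + E.s.e + 3 / 5 * E.s.hw + 6 / 5 * (ε * (E.s.len + E.s.hw)) ≤ E.kc + E.κk)
    (hfar : bn ≤ ‖r.1 1‖) : HpG r.1 bn L E.κk d := by
  obtain ⟨τ, n1, n2⟩ := hn
  have A1 : ∀ x : unitInterval, (x : ℝ) ≤ a → ‖r.1 x‖ ≤ E.k ∧ Kn d E.n.c E.κk (r.1 x) := by
    intro x hx
    obtain ⟨u, hu⟩ := cut_pt (g := r.1) (s := 0) (s' := a) (t := x) (by rw [uIcc_of_le ha.1]; exact ⟨x.2.1, hx⟩)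
    rw [ex_coe, ex_zero, hz, sub_zero] at hu
    have e : r.1 x = (pcut r 0 a).1 u := hu.symm
    rw [e]
    exact ⟨hk.b u, hk.s u⟩
  have ea : ex r.1 a = r.1 ⟨a, ha⟩ := ex_of _ ha
  have hcell : ‖r.1 ⟨a, ha⟩ - (E.kc : ℂ) * d‖ ≤ E.kr := by
    have e : r.1 ⟨a, ha⟩ = (pcut r 0 a).1 1 := by
      show _ = cutp r.1 0 a 1
      rw [cutp_one, ex_zero, hz, sub_zero, ea]
    rw [e]
    exact hk.cell
  have h := hp_kA (f := fun x => r.1 x) hd ht (σ := ⟨a, ha⟩) (σ' := 1) (τ := τ) (bn := bn) (K := E.k) (K' := 0) (c := E.n.c)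
    (κ := E.κk) (kc := E.kc) (kr := E.kr) (e := E.s.e) (hw := E.s.hw) (len := E.s.len) (L := L) hc hl
    (fun x hx => A1 x hx) hcell (fun x hx hx' => ?_) (fun x hx hx' _ => ?_) (fun x hx => ?_) he hL ?_ (by simpa using hfar)
  · exact h
  · have := n1 x hx hx'
    rw [ea] at this
    exact this
  · have := n2 x hx hx'
    rw [ea] at this
    exact hb.trans this
  · have : x = 1 := le_antisymm le_top hx
    rw [this, sub_self, norm_zero]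
  · have h0 : ‖d - t‖ * (E.s.len + E.s.hw) ≤ ε * (E.s.len + E.s.hw) := mul_le_mul_of_nonneg_right hdt hl
    linarith

/-- **the end `q`**, read backwards, `b` = the mark -/
theorem hpc_k' {d t : ℂ} (hd : ‖d‖ = 1) (ht : ‖t‖ = 1) {E : En} {ε : ℝ} (hdt : ‖d - t‖ ≤ ε) (hc : 3 / 5 ≤ E.n.c) {r : Pie} {b : ℝ}
    (hb : b ∈ Icc (0 : ℝ) 1) (hz : r.1 0 = 0) (hk : KV d E (pcut r 1 b)) (hn : NRp t E.s (rvc r.1) (1 - b)) {bn L : ℝ}
    (he : E.s.e ≤ E.s.len) (hl : 0 ≤ E.s.len + E.s.hw) (hL : E.k + E.s.len + E.s.hw ≤ L) (hb' : bn + E.k ≤ E.s.bn)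
    (hnum : 6 / 5 * E.kr + E.s.e + 3 / 5 * E.s.hw + 6 / 5 * (ε * (E.s.len + E.s.hw)) ≤ E.kc + E.κk)
    (hfar : bn ≤ ‖r.1 1‖) : HpG (rvc r.1) bn L E.κk d := by
  have hb1 : 1 - b ∈ Icc (0 : ℝ) 1 := ⟨by linarith [hb.2], by linarith [hb.1]⟩
  refine hpc_k (r := (rvc r.1, r.2)) hd ht hdt hc hb1 ?_ ?_ hn he hl hL hb' hnum ?_
  · show rvc r.1 0 = 0
    rw [rvc_apply, unitInterval.symm_zero, sub_self]
  · rw [pcut_rvc r 0 (1 - b) ⟨le_rfl, zero_le_one⟩ hb1]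
    rw [sub_zero, sub_sub_cancel]
    exact hk
  · show bn ≤ ‖rvc r.1 1‖
    rw [rvc_apply, unitInterval.symm_one, hz, zero_sub, norm_neg]
    exact hfar

/-! ### rests with two marks and a main arc -/

/-- a main arc read backwards -/
lemma clM_rvc {d d' : ℂ} {P Q : Tp} {W : Wn} {s s' : Sr} {c : C(unitInterval, ℂ)} (h : c ∈ ClM d d' P Q W s s') :
    rvc c ∈ ClM d' d Q P W s' s := by
  obtain ⟨⟨h0, ⟨h1, h2⟩, h3⟩, ⟨τ, a1, a2⟩, ⟨τ', b1, b2⟩⟩ := h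
  have e1 : rvc c 1 = -c 1 := by rw [rvc_apply, unitInterval.symm_one, h0, zero_sub]
  have e2 : ∀ t : unitInterval, rvc c t - rvc c 1 = c (unitInterval.symm t) := by
    intro t
    rw [e1, rvc_apply]
    ring
  refine ⟨⟨?_, ⟨?_, ?_⟩, fun t => ⟨?_, ?_⟩⟩, ⟨unitInterval.symm τ', fun t ht => ?_, fun t ht => ?_⟩,
    ⟨unitInterval.symm τ, fun t ht => ?_, fun t ht => ?_⟩⟩
  · rw [rvc_apply, unitInterval.symm_zero, sub_self]
  · rw [e1, norm_neg]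
    exact h1
  · rw [e1, norm_neg]
    exact h2
  · exact (h3 _).2
  · rw [e2]
    exact (h3 _).1
  · exact b2 _ (unitInterval.le_symm_comm.1 ht)
  · exact b1 _ (unitInterval.symm_le_comm.1 ht)
  · rw [e2]
    exact a2 _ (unitInterval.le_symm_comm.1 ht)
  · rw [e2]
    exact a1 _ (unitInterval.symm_le_comm.1 ht)

lemma rvc_cutp (c : C(unitInterval, ℂ)) (s s' : ℝ) : rvc (cutp c s s') = cutp c s' s := by
  ext u
  rw [rvc_apply, cutp_apply, cutp_one, cutp_apply, unitInterval.coe_symm_eq]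
  have e : s + (1 - (u : ℝ)) * (s' - s) = s' + u * (s - s') := by ring
  rw [e]
  ring

/-- **rests with two marks read backwards** -/
theorem vt_rvc {d d' t t' : ℂ} {E E' : En} {W : Wn} {r : Pie} {s s' : ℝ} (h : (r, (s, s')) ∈ VT d d' E E' (AmV t t' E E' W)) :
    (((rvc r.1, r.2) : Pie), (1 - s', 1 - s)) ∈ VT d' d E' E (AmV t' t E' E W) := by
  have h0 : 0 ≤ s := h.h0
  have h1 : s ≤ s' := h.h1
  have h2 : s' ≤ 1 := h.h2
  have hs : 1 - s ∈ Icc (0 : ℝ) 1 := ⟨by linarith, by linarith⟩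
  have hs' : 1 - s' ∈ Icc (0 : ℝ) 1 := ⟨by linarith, by linarith⟩
  refine ⟨hs'.1, ?_, hs.2, ?_, ?_, ?_, ?_⟩
  · show 1 - s' ≤ 1 - s
    linarith
  · show rvc r.1 0 = 0
    rw [rvc_apply, unitInterval.symm_zero, sub_self]
  · show KV d' E' (pcut (rvc r.1, r.2) 0 (1 - s'))
    rw [pcut_rvc r 0 (1 - s') ⟨le_rfl, zero_le_one⟩ hs', sub_zero, sub_sub_cancel]
    exact h.kq
  · show KV d E (pcut (rvc r.1, r.2) 1 (1 - s))
    rw [pcut_rvc r 1 (1 - s) ⟨zero_le_one, le_rfl⟩ hs, sub_self, sub_sub_cancel]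
    exact h.kp
  · show pcut (rvc r.1, r.2) (1 - s') (1 - s) ∈ AmV t' t E' E W
    rw [pcut_rvc r (1 - s') (1 - s) hs' hs, sub_sub_cancel, sub_sub_cancel]
    obtain ⟨a1, a2⟩ : pcut r s s' ∈ AmV t t' E E' W := h.a
    have e : (pcut r s' s).1 = rvc (pcut r s s').1 := (rvc_cutp r.1 s s').symm
    have e2 : (pcut r s' s).2 = (pcut r s s').2 := by
      show r.2 * |s - s'| = r.2 * |s' - s|
      rw [abs_sub_comm]
    refine ⟨?_, ?_⟩
    · rw [e]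
      exact clM_rvc a1
    · rw [e2]
      exact a2

/-- two stages of a piece as two stages of the curve -/
lemma stage_of_cut {c : C(unitInterval, ℂ)} {a b : ℝ} (ha : 0 ≤ a) (hab : a ≤ b) (hb : b ≤ 1) {K1 K2 : Set ℂ}
    (h : ∃ τ : unitInterval, (∀ u, u ≤ τ → cutp c a b u ∈ K1) ∧ ∀ u, τ ≤ u → cutp c a b u ∈ K2) :
    ∃ τ : unitInterval, (τ : ℝ) ≤ b ∧ (∀ x : unitInterval, a ≤ x → x ≤ τ → c x - ex c a ∈ K1) ∧
      ∀ x : unitInterval, a ≤ x → (x : ℝ) ≤ b → τ ≤ x → c x - ex c a ∈ K2 := by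
  obtain ⟨τ, h1, h2⟩ := h
  have hτ : a + τ * (b - a) ∈ Icc (0 : ℝ) 1 := CC.mid_mem ⟨ha, hab.trans hb⟩ ⟨ha.trans hab, hb⟩ τ.2
  have hτb : a + τ * (b - a) ≤ b := by
    have := mul_le_mul_of_nonneg_right τ.2.2 (by linarith : 0 ≤ b - a)
    linarith
  rcases hab.eq_or_lt with rfl | hlt
  · have z : ∀ u, cutp c a a u = 0 := by
      intro u
      rw [cutp_apply, sub_self, mul_zero, add_zero, sub_self]
    have k1 : (0 : ℂ) ∈ K1 := by
      have := h1 0 (unitInterval.nonneg τ)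
      rwa [z] at this
    have k2 : (0 : ℂ) ∈ K2 := by
      have := h2 1 (unitInterval.le_one τ)
      rwa [z] at this
    refine ⟨⟨_, hτ⟩, hτb, fun x hx hx' => ?_, fun x hx hx' _ => ?_⟩
    · have e : (x : ℝ) = a := le_antisymm (le_trans hx' hτb) hx
      rw [← e, ex_coe, sub_self]
      exact k1
    · have e : (x : ℝ) = a := le_antisymm hx' hx
      rw [← e, ex_coe, sub_self]
      exact k2
  · have hp : 0 < b - a := by linarith
    have inv : ∀ x : unitInterval, a ≤ x → (x : ℝ) ≤ b → ∃ u : unitInterval, (u : ℝ) = (x - a) / (b - a) ∧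
        cutp c a b u = c x - ex c a := by
      intro x hx hx'
      refine ⟨⟨(x - a) / (b - a), div_nonneg (by linarith) hp.le, (div_le_one hp).2 (by linarith)⟩, rfl, ?_⟩
      rw [cutp_apply]
      simp only
      rw [div_mul_cancel₀ _ hp.ne', add_sub_cancel, ex_coe]
    refine ⟨⟨_, hτ⟩, hτb, fun x hx hx' => ?_, fun x hx hx' hx'' => ?_⟩
    · have hx1 : (x : ℝ) ≤ a + τ * (b - a) := hx'
      obtain ⟨u, hu, e⟩ := inv x hx (hx1.trans hτb)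
      rw [← e]
      refine h1 u ?_
      have : (u : ℝ) ≤ τ := by
        rw [hu, div_le_iff₀ hp]
        linarith
      exact this
    · have hx1 : a + τ * (b - a) ≤ (x : ℝ) := hx''
      obtain ⟨u, hu, e⟩ := inv x hx hx'
      rw [← e]
      refine h2 u ?_
      have : (τ : ℝ) ≤ u := by
        rw [hu, le_div_iff₀ hp]
        linarith
      exact this

/-- **no return behind the mark** -/
theorem nrp_of_vt {d d' t t' : ℂ} {E E' : En} {W : Wn} (hW : E.s.bn + 2 * E'.k ≤ W.D0) {r : Pie} {s s' : ℝ}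
    (h : (r, (s, s')) ∈ VT d d' E E' (AmV t t' E E' W)) : NRp t E.s r.1 s := by
  have h0 : 0 ≤ s := h.h0
  have h1 : s ≤ s' := h.h1
  have h2 : s' ≤ 1 := h.h2
  have hs' : s' ∈ Icc (0 : ℝ) 1 := ⟨h0.trans h1, h2⟩
  obtain ⟨⟨⟨-, ⟨hD, -⟩, -⟩, hst, -⟩, -⟩ : pcut r s s' ∈ AmV t t' E E' W := h.a
  obtain ⟨τ, -, a1, a2⟩ := stage_of_cut h0 h1 h2 hst
  refine ⟨τ, a1, fun x hx hx' => ?_⟩
  rcases le_total (x : ℝ) s' with hx2 | hx2
  · exact a2 x hx hx2 hx'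
  · have q1 : ∀ y : unitInterval, s' ≤ (y : ℝ) → ‖r.1 y - r.1 1‖ ≤ E'.k := by
      intro y hy
      obtain ⟨u, hu⟩ := cut_pt (g := r.1) (s := 1) (s' := s') (t := y) (by rw [uIcc_of_ge h2]; exact ⟨hy, y.2.2⟩)
      rw [ex_coe, ex_one] at hu
      rw [← hu]
      exact h.kq.b u
    have q2 := q1 x hx2
    have q3 := q1 ⟨s', hs'⟩ le_rfl
    have q4 : (pcut r s s').1 1 = r.1 ⟨s', hs'⟩ - ex r.1 s := by
      show cutp r.1 s s' 1 = _
      rw [cutp_one, ex_of _ hs']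
    rw [q4] at hD
    show E.s.bn ≤ ‖r.1 x - ex r.1 s‖
    have e : r.1 ⟨s', hs'⟩ - ex r.1 s = (r.1 x - ex r.1 s) - (r.1 x - r.1 1) + (r.1 ⟨s', hs'⟩ - r.1 1) := by ring
    have n1 := norm_add_le ((r.1 x - ex r.1 s) - (r.1 x - r.1 1)) (r.1 ⟨s', hs'⟩ - r.1 1)
    have n2 := norm_sub_le (r.1 x - ex r.1 s) (r.1 x - r.1 1)
    rw [← e] at n1
    linarith

/-- **rests of the class 0 with the foreign marks are in `HG`** -/
theorem vt_hg {d t t' : ℂ} (hd : ‖d‖ = 1) (ht : ‖t‖ = 1) (ht' : ‖t'‖ = 1) {E E' : En} {ε ε' : ℝ} (e1 : ‖d - t‖ ≤ ε)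
    (e1' : ‖d - t'‖ ≤ ε') {W : Wn} {r : Pie} {s s' : ℝ} (h : (r, (s, s')) ∈ VT d d E E' (AmV t t' E E' W))
    (hc : 3 / 5 ≤ E.n.c) (hc' : 3 / 5 ≤ E'.n.c) {bn L bn' L' : ℝ} (he : E.s.e ≤ E.s.len) (he' : E'.s.e ≤ E'.s.len)
    (hl : 0 ≤ E.s.len + E.s.hw) (hl' : 0 ≤ E'.s.len + E'.s.hw) (hL : E.k + E.s.len + E.s.hw ≤ L)
    (hL' : E'.k + E'.s.len + E'.s.hw ≤ L') (hb : bn + E.k ≤ E.s.bn) (hb' : bn' + E'.k ≤ E'.s.bn)
    (hnum : 6 / 5 * E.kr + E.s.e + 3 / 5 * E.s.hw + 6 / 5 * (ε * (E.s.len + E.s.hw)) ≤ E.kc + E.κk)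
    (hnum' : 6 / 5 * E'.kr + E'.s.e + 3 / 5 * E'.s.hw + 6 / 5 * (ε' * (E'.s.len + E'.s.hw)) ≤ E'.kc + E'.κk)
    (hW : E.s.bn + 2 * E'.k ≤ W.D0) (hW' : E'.s.bn + 2 * E.k ≤ W.D0) : r.1 ∈ HG d E.κk L bn E'.κk L' bn' := by
  have h0 : 0 ≤ s := h.h0
  have h1 : s ≤ s' := h.h1
  have h2 : s' ≤ 1 := h.h2
  have hs : s ∈ Icc (0 : ℝ) 1 := ⟨h0, h1.trans h2⟩
  have hs' : s' ∈ Icc (0 : ℝ) 1 := ⟨h0.trans h1, h2⟩
  have far : W.D0 - E.k - E'.k ≤ ‖r.1 1‖ := by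
    obtain ⟨⟨⟨-, ⟨hD, -⟩, -⟩, -, -⟩, -⟩ : pcut r s s' ∈ AmV t t' E E' W := h.a
    have q1 : (pcut r s s').1 1 = r.1 1 - (pcut r 0 s).1 1 + (pcut r 1 s').1 1 := by
      show cutp r.1 s s' 1 = r.1 1 - cutp r.1 0 s 1 + cutp r.1 1 s' 1
      rw [cutp_one, cutp_one, cutp_one, ex_one, ex_zero, h.z]
      ring
    rw [q1] at hD
    have n1 := norm_add_le (r.1 1 - (pcut r 0 s).1 1) ((pcut r 1 s').1 1)
    have n2 := norm_sub_le (r.1 1) ((pcut r 0 s).1 1)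
    have n3 := h.kp.b 1
    have n4 := h.kq.b 1
    linarith
  have k0 : 0 ≤ E.k := (norm_nonneg _).trans (h.kp.b 1)
  have k0' : 0 ≤ E'.k := (norm_nonneg _).trans (h.kq.b 1)
  refine hg_of_rev h.z (hpc_k hd ht e1 hc hs h.z h.kp (nrp_of_vt hW h) he hl hL hb hnum (by linarith)) ?_
  exact hpc_k' hd ht' e1' hc' hs' h.z h.kq (nrp_of_vt (by linarith) (vt_rvc h)) he' hl' hL' hb' hnum' (by linarith)

end Pool.Agent.ROT.F3
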