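import Pool.Agent.ROT.F3HGeo3
import Pool.Agent.ROT.F3CoreVF
import Pool.Agent.ROT.F3LocE

/-!
# ROT, F3 (B), LocD (helper64): the conditions of `chan_gen` from the statistics of the foreign marks of one end

* `nrp_of_F` : `nrF <= 0` from the mark `c` to the end `z` of the rest `a .. z` gives `NRp`;
* **`hpc_F`**, `hpc_std` : `kcF`, `nrF <= 0` (class 0, one end, the rest read from its start `a`) give `HpG`;
* **`FgR.hpg`** : the same from 51's `FgR d t E True ρ a b`, with the numbers of 63's `C0.std`.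
-/

set_option autoImplicit false

namespace Pool.Agent.ROT.F3

open Set Topology ComplexConjugate unitInterval
open Pool.Agent.ROT.F3.CC (Pie ex ex_of ex_coe ex_zero ex_one cutp cutp_apply cutp_zero cutp_one pcut KV pcut_pcut cutp_eq stN_iff
  stK_iff ouK_iff kv_of_F)

/-- the mark on the rest `a .. z` -/
lemma mark_rel {a c z : I} (ho : BtI a c z) (hne : a ≠ z) : ((c : ℝ) - a) / (z - a) ∈ Icc (0 : ℝ) 1 ∧
    (a : ℝ) + ((c : ℝ) - a) / (z - a) * (z - a) = c := by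
  have hne' : (a : ℝ) ≠ z := fun h => hne (Subtype.ext h)
  have hz : (z : ℝ) - a ≠ 0 := fun h => hne' (by linarith)
  refine ⟨CC.div_mem hne' ?_, ?_⟩
  · rcases ho with ⟨h1, h2⟩ | ⟨h1, h2⟩
    · have q1 : (a : ℝ) ≤ c := h1
      have q2 : (c : ℝ) ≤ z := h2
      rw [uIcc_of_le (q1.trans q2)]
      exact ⟨q1, q2⟩
    · have q1 : (z : ℝ) ≤ c := h1
      have q2 : (c : ℝ) ≤ a := h2
      rw [uIcc_of_ge (q1.trans q2)]
      exact ⟨q1, q2⟩
  · rw [div_mul_cancel₀ _ hz]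
    ring

/-- **no return** from the statistic -/
theorem nrp_of_F {t : ℂ} (ht : ‖t‖ = 1) {s : Sr} {g : C(I, ℂ)} {L : ℝ} {a c z : I} (ho : BtI a c z) (hne : a ≠ z)
    (h : nrF t s g c z ≤ 0) : NRp t s (pcut ((g, L) : Pie) a z).1 (((c : ℝ) - a) / (z - a)) := by
  obtain ⟨m1, m2⟩ := mark_rel ho hne
  unfold nrF at h
  rw [stN_iff (fSt_lip ht).continuous fBn_lip.continuous] at h
  obtain ⟨τ, t1, t2⟩ := h
  have e : cutp (pcut ((g, L) : Pie) a z).1 (((c : ℝ) - a) / (z - a)) 1 = cutc g c z := by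
    have h1 := congrArg Prod.fst (pcut_pcut (p := ((g, L) : Pie)) (s := a) (t := z) m1 (⟨zero_le_one, le_rfl⟩ : (1 : ℝ) ∈ Icc (0 : ℝ) 1))
    rw [m2, one_mul, add_sub_cancel] at h1
    rw [← CC.cutp_eq]
    exact h1
  obtain ⟨τ', -, k1, k2⟩ := stage_of_cut (c := (pcut ((g, L) : Pie) a z).1) m1.1 m1.2 le_rfl (K1 := StK t s) (K2 := OuK s)
    ⟨τ, fun u hu => by
      rw [e]
      exact stK_iff.2 (t1 u hu), fun u hu => by
      rw [e]
      exact ouK_iff.2 (t2 u hu)⟩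
  exact ⟨τ', k1, fun x hx hx' => k2 x hx x.2.2 hx'⟩

/-- **the conditions of `chan_gen` at one end** of the rest `a .. z` (class 0), `b`, `c` = times of the foreign gates `c~`, `x~` -/
theorem hpc_F {d t : ℂ} (hd : ‖d‖ = 1) (ht : ‖t‖ = 1) {E : En} {ε : ℝ} (hdt : ‖d - t‖ ≤ ε) (hn : E.n.Co) (hr2 : 0 ≤ E.f.r2)
    (hc : 3 / 5 ≤ E.n.c) {g : C(I, ℂ)} {L0 : ℝ} {a b c z : I} (ho : BtI a b c) (ho' : BtI a c z) (hne : a ≠ z)
    (hk : kcF d t E g L0 a b c ≤ 0) (h : nrF t E.s g c z ≤ 0) {bn L : ℝ} (he : E.s.e ≤ E.s.len)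
    (hl : 0 ≤ E.s.len + E.s.hw) (hL : E.k + E.s.len + E.s.hw ≤ L) (hb : bn + E.k ≤ E.s.bn)
    (hnum : 6 / 5 * E.kr + E.s.e + 3 / 5 * E.s.hw + 6 / 5 * (ε * (E.s.len + E.s.hw)) ≤ E.kc + E.κk)
    (hfar : bn ≤ ‖g z - g a‖) : HpG (pcut ((g, L0) : Pie) a z).1 bn L E.κk d := by
  obtain ⟨m1, m2⟩ := mark_rel ho' hne
  have i0 : (0 : ℝ) ∈ Icc (0 : ℝ) 1 := ⟨le_rfl, zero_le_one⟩
  refine hpc_k (r := pcut ((g, L0) : Pie) a z) hd ht hdt hc m1 (cutp_zero _ _ _) ?_ (nrp_of_F ht ho' hne h) he hl hL hb hnum ?_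
  · rw [pcut_pcut i0 m1, m2, zero_mul, add_zero]
    exact kv_of_F hd hn hr2 ho hk
  · show bn ≤ ‖cutp g a z 1‖
    rw [cutp_one, ex_coe, ex_coe]
    exact hfar

lemma HpG.mono {f : unitInterval → ℂ} {bn L e bn' L' e' : ℝ} {d : ℂ} (h : HpG f bn L e d) (h1 : bn' ≤ bn) (h2 : L ≤ L')
    (h3 : e ≤ e') : HpG f bn' L' e' d := by
  intro s t hst ht
  obtain ⟨a1, a2⟩ := h s t hst (ht.trans_le h1)
  exact ⟨a1.trans h2, by linarith⟩

/-- **the same with the standard numbers** (63's `C0.std`) -/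
theorem hpc_std {d t : ℂ} (hd : ‖d‖ = 1) (ht : ‖t‖ = 1) {E : En} {ε : ℝ} (hdt : ‖d - t‖ ≤ ε) (hE : E.Ok ε)
    (hc : 3 / 5 ≤ E.n.c) (hε : ε * (E.s.len + E.s.hw) ≤ E.f.m / 4) {g : C(I, ℂ)} {L0 : ℝ} {a b c z : I} (ho : BtI a b c)
    (ho' : BtI a c z) (hne : a ≠ z) (hk : kcF d t E g L0 a b c ≤ 0) (h : nrF t E.s g c z ≤ 0)
    (hfar : E.s.bn - E.k ≤ ‖g z - g a‖) :
    HpG (pcut ((g, L0) : Pie) a z).1 (E.s.bn - E.k) (E.s.len + 2 * E.k) E.n.κ d := by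
  have a1 := hE.se
  have a2 := hE.se''
  have a3 := hE.hw
  have a4 := hE.hw'
  have a5 := hE.len
  have a6 := hE.bn
  have a7 := hE.f.m22
  have a8 := hE.rk
  have a9 := hE.kr'
  have a10 := hE.kc
  have a11 := hE.κk0
  have a12 := hE.f.l
  have a13 := hE.f.m
  have a14 := hE.f.rr'
  have a15 := hE.f.g64
  have a16 := hE.f.r
  have a17 := hE.f.r2
  have a18 := hE.locb
  have a19 := hE.n.g64
  have a20 := hE.f.κ
  have a21 := hE.n.r
  have a22 := hE.n.m22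
  have a23 := hE.n.m
  have a24 := hE.n.r2
  have k : E.k = E.rk + E.f.r2 := rfl
  refine (hpc_F hd ht hdt hE.n.co hE.f.r2.le hc ho ho' hne hk h (bn := E.s.bn - E.k) (L := E.s.len + 2 * E.k) ?_ ?_ ?_ ?_ ?_
    hfar).mono le_rfl le_rfl hE.κk
  · linarith
  · linarith
  · rw [k]
    linarith
  · linarith
  · linarith

/-- **from 51's conditions of one end on the rest** (class 0) -/
theorem FgR.hpg {d t : ℂ} (hd : ‖d‖ = 1) (ht : ‖t‖ = 1) {E : En} {ε : ℝ} (hdt : ‖d - t‖ ≤ ε) (hE : E.Ok ε)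
    (hc : 3 / 5 ≤ E.n.c) (hε : ε * (E.s.len + E.s.hw) ≤ E.f.m / 4) {ρ : Pie} {a b : ℝ} (H : FgR d t E True ρ a b)
    (z : ρ.1 0 = 0) (hfar : E.s.bn - E.k ≤ ‖ρ.1 1‖) : HpG ρ.1 (E.s.bn - E.k) (E.s.len + 2 * E.k) E.n.κ d := by
  have hb : b ∈ Icc (0 : ℝ) 1 := ⟨H.h0.trans H.h1, H.h2⟩
  have a1 := hE.se
  have a2 := hE.se''
  have a3 := hE.hw
  have a4 := hE.hw'
  have a5 := hE.len
  have a6 := hE.bn
  have a7 := hE.f.m22
  have a8 := hE.rk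
  have a9 := hE.kr'
  have a10 := hE.kc
  have a11 := hE.κk0
  have a12 := hE.f.l
  have a13 := hE.f.m
  have a14 := hE.f.rr'
  have a15 := hE.f.g64
  have a16 := hE.f.r
  have a17 := hE.f.r2
  have a18 := hE.locb
  have a19 := hE.n.g64
  have a20 := hE.f.κ
  have a21 := hE.n.r
  have a22 := hE.n.m22
  have a23 := hE.n.m
  have a24 := hE.n.r2
  have k : E.k = E.rk + E.f.r2 := rfl
  have hkv : KV d E (pcut ρ 0 b) := by
    refine ⟨fun u => ?_, fun u => ?_, ?_, H.kr, ?_⟩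
    · have h1 : (0 : ℝ) + u * (b - 0) ∈ Icc (0 : ℝ) 1 := CC.mid_mem ⟨le_rfl, zero_le_one⟩ hb u.2
      show ‖cutp ρ.1 0 b u‖ ≤ E.k
      rw [cutp_apply, ex_zero, z, sub_zero]
      refine H.ball z _ h1.1 ?_
      have := mul_le_mul_of_nonneg_right u.2.2 hb.1
      linarith
    · have h1 := (stS_le_iff (fCo_lip hd hE.n.co.c0 hE.n.co.c1).continuous _).1 H.κk u
      unfold fCo at h1
      show E.n.c * ‖cutp ρ.1 0 b u‖ - E.κk ≤ lv d (cutp ρ.1 0 b u)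
      linarith
    · have h1 := H.ek
      unfold fCo at h1
      show E.n.c * ‖cutp ρ.1 0 b 1‖ + E.ek ≤ lv d (cutp ρ.1 0 b 1)
      linarith
    · show ρ.2 * |b - 0| ≤ E.lk
      rw [sub_zero, abs_of_nonneg hb.1]
      exact H.lk
  have hn : NRp t E.s ρ.1 b := by
    have h1 := H.nr trivial
    rw [stN_iff (fSt_lip ht).continuous fBn_lip.continuous] at h1
    obtain ⟨τ, t1, t2⟩ := h1
    obtain ⟨τ', -, k1, k2⟩ := stage_of_cut (c := ρ.1) hb.1 hb.2 le_rfl (K1 := StK t E.s) (K2 := OuK E.s)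
      ⟨τ, fun u hu => stK_iff.2 (t1 u hu), fun u hu => ouK_iff.2 (t2 u hu)⟩
    exact ⟨τ', k1, fun x hx hx' => k2 x hx x.2.2 hx'⟩
  refine (hpc_k hd ht hdt hc hb z hkv hn (bn := E.s.bn - E.k) (L := E.s.len + 2 * E.k) ?_ ?_ ?_ ?_ ?_ hfar).mono le_rfl
    le_rfl hE.κk
  · linarith
  · linarith
  · rw [k]
    linarith
  · linarith
  · linarith

end Pool.Agent.ROT.F3
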