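import Pool.Agent.ROT.F3CoreA

/-!
# ROT, F3 (helper97; D40): the rests with companions are rests of good closed curves

* `img_ae` : the image of a set of full measure has full measure;
* **`ac_fst`, `ac_snd`** : from positivity of the density on the first lattice (`PairIn.hp`): the rests with companions are charged by
  the law of the rests of the pair, at both places of the pair;
* **`wit`**, `wit'`, **`wit_all`** : almost every rest with companions is the rest of a good closed curve.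
-/

set_option autoImplicit false

namespace Pool.Agent.ROT.F3

open MeasureTheory Filter Topology Set
open scoped ENNReal

/-! ### 1. Images -/

/-- a compact subset of almost full mass -/
lemma cpt_sub {X : Type*} [TopologicalSpace X] [SecondCountableTopology X] [TopologicalSpace.IsCompletelyMetrizableSpace X]
    [MeasurableSpace X] [BorelSpace X] {m : Measure X} [IsFiniteMeasure m] {G : Set X} (hG : ∀ᵐ x ∂m, x ∈ G) {δ : ℝ≥0∞}
    (hδ : δ ≠ 0) : ∃ K, K ⊆ G ∧ IsCompact K ∧ m Kᶜ ≤ δ := by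
  obtain ⟨Z, hZ⟩ : ∃ Z, Z = toMeasurable m Gᶜ := ⟨_, rfl⟩
  have hZ0 : m Z = 0 := by
    rw [hZ, measure_toMeasurable]
    exact hG
  have hZG : Gᶜ ⊆ Z := by
    rw [hZ]
    exact subset_toMeasurable _ _
  have hZm : MeasurableSet Z := by
    rw [hZ]
    exact measurableSet_toMeasurable _ _
  obtain ⟨K, hK1, hK2, hK3⟩ := hZm.compl.exists_isCompact_lt_add (measure_ne_top m _) hδ
  refine ⟨K, fun x hx => ?_, hK2, ?_⟩
  · by_contra hc
    exact hK1 hx (hZG hc)
  · have hKm : MeasurableSet K := hK2.measurableSet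
    have h1 : Kᶜ ⊆ Z ∪ (Zᶜ \ K) := by
      intro x hx
      by_cases hxZ : x ∈ Z
      · exact Or.inl hxZ
      · exact Or.inr ⟨hxZ, hx⟩
    have h2 : m (Zᶜ \ K) ≤ δ := by
      rw [measure_sdiff hK1 hKm.nullMeasurableSet (measure_ne_top _ _)]
      exact tsub_le_iff_left.2 hK3.le
    refine (measure_mono h1).trans ((measure_union_le _ _).trans ?_)
    rw [hZ0, zero_add]
    exact h2

/-- **the image of a set of full measure has full measure** -/
theorem img_ae {Y X : Type*} [MeasurableSpace Y] [StandardBorelSpace Y] [TopologicalSpace X] [T2Space X]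
    [SecondCountableTopology X] [MeasurableSpace X] [BorelSpace X] {P : Measure Y} [IsFiniteMeasure P] {f : Y → X}
    (hf : Measurable f) {G : Set Y} (hG : ∀ᵐ y ∂P, y ∈ G) : ∀ᵐ x ∂(P.map f), x ∈ f '' G := by
  let iY := upgradeStandardBorel Y
  obtain ⟨t', hle, hfc, hpol⟩ := hf.exists_continuous
  have hbor : @BorelSpace Y t' _ := by
    refine @BorelSpace.mk Y t' _ ?_
    rw [@borel_eq_borel_of_le Y t' iY.toTopologicalSpace hpol iY.toPolishSpace hle]
    exact iY.toBorelSpace.measurable_eq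
  rw [ae_iff]
  have key : ∀ n : ℕ, (P.map f) {x | x ∉ f '' G} ≤ ((n : ℝ≥0∞) + 1)⁻¹ := by
    intro n
    obtain ⟨K, hK1, hK2, hK3⟩ := @cpt_sub Y t' inferInstance inferInstance _ hbor P _ G hG (((n : ℝ≥0∞) + 1)⁻¹)
      (ENNReal.inv_ne_zero.2 (by finiteness))
    have hKf : IsCompact (f '' K) := @IsCompact.image Y X t' _ K f hK2 hfc
    have h1 : {x | x ∉ f '' G} ⊆ (f '' K)ᶜ := fun x hx hx' => hx (image_mono hK1 hx')
    refine (measure_mono h1).trans ?_
    rw [Measure.map_apply hf hKf.measurableSet.compl]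
    refine (measure_mono (fun y (hy : f y ∈ (f '' K)ᶜ) (hyK : y ∈ K) => hy (mem_image_of_mem f hyK))).trans hK3
  refine le_antisymm (ge_of_tendsto' (?_ : Tendsto (fun n : ℕ => ((n : ℝ≥0∞) + 1)⁻¹) atTop (𝓝 0)) key) bot_le
  have h3 := (tendsto_add_atTop_iff_nat 1).2 ENNReal.tendsto_inv_nat_nhds_zero
  refine h3.congr fun n => ?_
  rw [Nat.cast_add, Nat.cast_one]

/-! ### 2. Rests with companions -/

section

variable {R1 R2 E : Type*} [MeasurableSpace R1] [MeasurableSpace R2] [MeasurableSpace E]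

/-- **first place** -/
theorem ac_fst' {β1 : Measure R1} {β2 : Measure R2} {v : Measure E} [SFinite β2] [SFinite v] {D0 : Set (R1 × (R2 × E))}
    (hD : MeasurableSet D0) {μ : Measure (R1 × (R2 × E))} (hp : (β1.prod (β2.prod v)).restrict D0 ≪ μ) :
    β1.restrict {r | (β2.prod v) {q | (r, q) ∈ D0} ≠ 0} ≪ μ.map Prod.fst := by
  refine Measure.AbsolutelyContinuous.mk fun N hN h0 => ?_
  rw [Measure.map_apply measurable_fst hN] at h0
  have h1 := hp h0
  rw [Measure.restrict_apply (measurable_fst hN), Measure.measure_prod_null ((measurable_fst hN).inter hD)] at h1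
  rw [Measure.restrict_apply hN]
  refine measure_mono_null (t := {r | ¬(β2.prod v) (Prod.mk r ⁻¹' (Prod.fst ⁻¹' N ∩ D0)) = 0}) ?_ h1
  rintro r ⟨hrN, hrT⟩ hr
  refine hrT (measure_mono_null ?_ hr)
  exact fun q hq => ⟨hrN, hq⟩

/-- exchange of the two rests -/
def sw12 (p : R1 × (R2 × E)) : R2 × (R1 × E) := (p.2.1, (p.1, p.2.2))

omit [MeasurableSpace R1] [MeasurableSpace R2] [MeasurableSpace E] in
@[simp] lemma sw12_sw12 (p : R1 × (R2 × E)) : sw12 (sw12 p) = p := rfl

lemma sw12_meas : Measurable (sw12 : R1 × (R2 × E) → R2 × (R1 × E)) := by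
  unfold sw12
  fun_prop

lemma sw12_map {β1 : Measure R1} {β2 : Measure R2} {v : Measure E} [SFinite β1] [SFinite β2] [SFinite v] :
    (β1.prod (β2.prod v)).map sw12 = β2.prod (β1.prod v) := by
  have h1 : MeasurePreserving (MeasurableEquiv.prodAssoc.symm : R1 × (R2 × E) ≃ᵐ (R1 × R2) × E)
      (β1.prod (β2.prod v)) ((β1.prod β2).prod v) := (measurePreserving_prodAssoc β1 β2 v).symm _
  have h2 : MeasurePreserving (Prod.map Prod.swap id : (R1 × R2) × E → (R2 × R1) × E) ((β1.prod β2).prod v)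
      ((β2.prod β1).prod v) := Measure.measurePreserving_swap.prod (MeasurePreserving.id v)
  have h3 := measurePreserving_prodAssoc β2 β1 v
  have h4 := (h3.comp (h2.comp h1)).map_eq
  exact h4

/-- **second place** -/
theorem ac_snd' {β1 : Measure R1} {β2 : Measure R2} {v : Measure E} [SFinite β1] [SFinite β2] [SFinite v]
    {D0 : Set (R1 × (R2 × E))} (hD : MeasurableSet D0) {μ : Measure (R1 × (R2 × E))}
    (hp : (β1.prod (β2.prod v)).restrict D0 ≪ μ) :
    β2.restrict {r | (β1.prod v) {q | (q.1, (r, q.2)) ∈ D0} ≠ 0} ≪ μ.map fun p => p.2.1 := by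
  have hD' : MeasurableSet (sw12 ⁻¹' D0 : Set (R2 × (R1 × E))) := sw12_meas hD
  have h1 : (β2.prod (β1.prod v)).restrict (sw12 ⁻¹' D0) ≪ μ.map sw12 := by
    have h2 := hp.map sw12_meas
    have e : ((β1.prod (β2.prod v)).restrict D0).map sw12 = (β2.prod (β1.prod v)).restrict (sw12 ⁻¹' D0) := by
      rw [← sw12_map (β1 := β1) (β2 := β2) (v := v), Measure.restrict_map sw12_meas hD']
      rfl
    rwa [e] at h2
  have h3 := ac_fst' hD' h1
  rw [Measure.map_map measurable_fst sw12_meas] at h3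
  exact h3

end

section

variable {R1 R2 K1 K2 A B Γ K0 Kp Kq : Type*} [MeasurableSpace R1] [MeasurableSpace R2] [MeasurableSpace K1]
  [MeasurableSpace K2] [MeasurableSpace A] [MeasurableSpace B] [MeasurableSpace Γ] [MeasurableSpace K0]
  [MeasurableSpace Kp] [MeasurableSpace Kq] {c1 : Cls R1 K1 A} {c2 : Cls R2 K2 B} {β1 : Measure R1} {β2 : Measure R2}
  {b1 : Measure A} {b2 : Measure B} {v : Measure ℂ} {Z W : Set ℂ}

/-- **the rests of the first class with companions** are charged by the closed curves of the pair -/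
theorem PairIn.ac_fst (p : PairIn c1 c2 β1 β2 b1 b2 v Z W Γ K0 Kp Kq) [SFinite β2] [SFinite v] (hD : MeasurableSet p.D0) :
    β1.restrict {r | (β2.prod v) {q | (r, q) ∈ p.D0} ≠ 0} ≪ (p.P.withDensity p.w0).map fun g => (p.m0 g).2.1 := by
  have h := ac_fst' hD p.hp
  rw [Measure.map_map measurable_fst measurable_snd, Measure.map_map (measurable_fst.comp measurable_snd) p.k0] at h
  exact h

/-- **the rests of the second class with companions** -/
theorem PairIn.ac_snd (p : PairIn c1 c2 β1 β2 b1 b2 v Z W Γ K0 Kp Kq) [SFinite β1] [SFinite β2] [SFinite v]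
    (hD : MeasurableSet p.D0) :
    β2.restrict {r | (β1.prod v) {q | (q.1, (r, q.2)) ∈ p.D0} ≠ 0} ≪ (p.P.withDensity p.w0).map fun g => (p.m0 g).2.2.1 := by
  have h := ac_snd' hD p.hp
  have m1 : Measurable fun q : R1 × (R2 × ℂ) => q.2.1 := by fun_prop
  rw [Measure.map_map m1 measurable_snd, Measure.map_map (m1.comp measurable_snd) p.k0] at h
  exact h

end

/-! ### 3. Witnesses -/

section

variable {Y : Type*} [MeasurableSpace Y] [StandardBorelSpace Y] {X : Type*} [TopologicalSpace X] [T2Space X]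
  [SecondCountableTopology X] [MeasurableSpace X] [BorelSpace X] {Q : Measure Y} {w : Y → ℝ≥0∞}

/-- **almost every rest with companions is the rest of a good closed curve** -/
theorem wit [IsFiniteMeasure (Q.withDensity w)] (hw : Measurable w) {r : Y → X} (hr : Measurable r) {β : Measure X} {T : Set X}
    (ac : β.restrict T ≪ (Q.withDensity w).map r) (hT : MeasurableSet T) {G : Y → Prop} (hG : ∀ᵐ g ∂Q, w g ≠ 0 → G g) :
    ∀ᵐ x ∂β, x ∈ T → ∃ g, w g ≠ 0 ∧ G g ∧ r g = x := by
  have h1 : ∀ᵐ g ∂(Q.withDensity w), g ∈ {g | w g ≠ 0 ∧ G g} := by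
    rw [ae_withDensity_iff hw]
    filter_upwards [hG] with g h2 h3
    exact ⟨h3, h2 h3⟩
  have h2 : ∀ᵐ x ∂(β.restrict T), x ∈ r '' {g | w g ≠ 0 ∧ G g} := ac.ae_le (img_ae hr h1)
  rw [ae_restrict_iff' hT] at h2
  filter_upwards [h2] with x h3 h4
  obtain ⟨g, ⟨h5, h6⟩, h7⟩ := h3 h4
  exact ⟨g, h5, h6, h7⟩

/-- the same for a measure over `β` -/
theorem wit' [IsFiniteMeasure (Q.withDensity w)] (hw : Measurable w) {r : Y → X} (hr : Measurable r) {β : Measure X}
    {T : Set X} (ac : β.restrict T ≪ (Q.withDensity w).map r) (hT : MeasurableSet T) {M : Type*} [MeasurableSpace M]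
    {bh : Measure (X × M)} (h1 : bh.map Prod.fst ≤ β) {G : Y → Prop} (hG : ∀ᵐ g ∂Q, w g ≠ 0 → G g) :
    ∀ᵐ x ∂bh, x.1 ∈ T → ∃ g, w g ≠ 0 ∧ G g ∧ r g = x.1 :=
  ae_of_ae_map measurable_fst.aemeasurable (ae_mono h1 (wit hw hr ac hT hG))

/-- what holds for the rests of good closed curves holds for almost all marked rests with companions -/
theorem wit_all [IsFiniteMeasure (Q.withDensity w)] (hw : Measurable w) {r : Y → X} (hr : Measurable r) {β : Measure X}
    {T : Set X} (ac : β.restrict T ≪ (Q.withDensity w).map r) (hT : MeasurableSet T) {M : Type*} [MeasurableSpace M]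
    {bh : Measure (X × M)} (h1 : bh.map Prod.fst ≤ β) {EP : Set (X × M)} (h2 : ∀ᵐ x ∂bh, x ∈ EP)
    (h3 : ∀ᵐ x ∂bh, x.1 ∈ T) {Ψ : X × M → Prop} (key : ∀ᵐ g ∂Q, w g ≠ 0 → ∀ s, (r g, s) ∈ EP → Ψ (r g, s)) :
    ∀ᵐ x ∂bh, Ψ x := by
  filter_upwards [wit' hw hr ac hT h1 key, h2, h3] with x k1 k2 k3
  obtain ⟨g, -, g1, g2⟩ := k1 k3
  obtain ⟨⟨r0, s⟩, hx⟩ : ∃ y, y = x := ⟨_, rfl⟩
  subst hx
  have g5 : r g = r0 := g2
  subst g5
  exact g1 s k2

end

end Pool.Agent.ROT.F3
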