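import Pool.Agent.ROT.F3LocH
import Pool.Agent.ROT.F3HLocC
import Pool.Agent.ROT.F3HLocY
import Pool.Agent.ROT.F3C3
import Pool.Agent.ROT.F3PrmO22

/-!
# ROT, F3 (helper64; D59): the hypothesis `hloc` of helper84's `low2_md`, class 0

* `HlN` : the numbers of the outer blocks, of the rests and of the window `V` between the outer gates; **`hln_near`** : they hold for
  data near the base data;
* `arW_At` : order and windows of the arc, the lower bound of the duration from the arc itself;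
* **`hloc_low`** : almost every marked rest (block, rest, block) whose outer blocks are in `S`, `S'` is in the class `C`.
-/

set_option autoImplicit false

noncomputable section

namespace Pool.Agent.ROT.F3.CK

open MeasureTheory Set unitInterval Filter Topology

open scoped ENNReal Classical

open Pool.Agent.ROT.F3 Pool.Agent.ROT.F3.LF Pool.Agent.ROT.F3.Mk
open Pool.Agent.ROT.F3.CC (Pie cutp cutp_zero pcut rst m4 cl dat yP dat_meas Z0E)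
open Pool.Agent.ROT.F3E (ClsL cZ0 cW0)
open Pool.Agent.ROT.F3.C0K (XM blX)
open Pool.Agent.ROT.F3.Q12 (mark_epy)

/-- **the numbers**: `O`, `O'` = outer blocks, `Y`, `Y'` = rests at the outer gates, `V` = window between the outer gates, `R0` = radius
of the locality of the gates -/
structure HlN (P : Prm) (O O' : Ot) (Y Y' : Tp) (V : Wn) (R0 : ℝ) : Prop where
  c : 3 / 5 ≤ O.c
  c' : 3 / 5 ≤ O'.c
  κ0 : 0 ≤ O.κ
  κ0' : 0 ≤ O'.κ
  κ : O.κ < P.p.n.m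
  κ' : O'.κ < P.q.n.m
  r : P.p.s.bn ≤ O.r
  r' : P.q.s.bn ≤ O'.r
  m : R0 ≤ O.m
  m' : R0 ≤ O'.m
  rg : R0 + O.r ≤ Y.rg
  rg' : R0 + O'.r ≤ Y'.rg
  D : R0 + (O.r + 2 * O'.r) ≤ V.D0
  D' : R0 + (2 * O.r + O'.r) ≤ V.D0
  W : 12 * (O.r + O'.r) < P.W.D0 - (P.p.k + P.q.k)
  d0 : P.W.D0 + (P.p.k + P.q.k) + (O.r + O'.r) ≤ V.D0
  d1 : V.D1 + (O.r + O'.r) + (P.p.k + P.q.k) ≤ P.W.D1
  t0 : P.W.t0 ≤ V.t0
  t1 : V.t1 + (O.lb + O'.lb) ≤ P.W.t1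

/-- **the numbers for data near the base data** -/
theorem hln_near {P : Prm} (hP : P.Ok) {z : ℂ} {ρ τ : ℝ} (hρ : 0 < ρ) (hn : F3E.NearP z ρ τ P) {O O' : Ot} {Y Y' : Tp} {V : Wn}
    (hO : O.Nr (bO ρ τ)) (hO' : O'.Nr (bO ρ τ)) (hY : Y.Nr (bY ρ τ)) (hY' : Y'.Nr (bY ρ τ))
    (d0 : P.W.D0 + (P.p.k + P.q.k) + (O.r + O'.r) ≤ V.D0) (d1 : V.D1 + (O.r + O'.r) + (P.p.k + P.q.k) ≤ P.W.D1)
    (t0 : P.W.t0 ≤ V.t0) (t1 : V.t1 + (O.lb + O'.lb) ≤ P.W.t1) : HlN P O O' Y Y' V (19500000 * ρ) := by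
  have key : ∀ {E : En}, E.Nr (bE ρ τ) → 81 / 10 * ρ ≤ E.n.m ∧ E.s.bn ≤ 101 / 100 * (8000000 * ρ) ∧ E.k ≤ 30000 * ρ ∧
      60000000 * ρ ≤ E.s.len ∧ 0 ≤ E.k := fun {E} h => by
    have hk : E.k = E.rk + E.f.r2 := rfl
    have a0 : 80 * ρ ≤ E.rk := h.rk.1
    have a1 : E.rk ≤ 101 / 100 * (80 * ρ) := h.rk.2
    have a2 : 28500 * ρ ≤ E.f.r2 := h.f.r2.1
    have a3 : E.f.r2 ≤ 101 / 100 * (28500 * ρ) := h.f.r2.2
    have a5 : E.s.bn ≤ 101 / 100 * (8000000 * ρ) := h.s.bn.2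
    have a6 : 60000000 * ρ ≤ E.s.len := h.s.len.1
    have a7 : 81 / 10 * ρ ≤ E.n.m := h.n.m.1
    refine ⟨a7, a5, ?_, a6, ?_⟩ <;> linarith
  have keyO : ∀ {O : Ot}, O.Nr (bO ρ τ) → 3 / 4 ≤ O.c ∧ 2 / 25 * ρ ≤ O.κ ∧ O.κ ≤ 101 / 100 * (2 / 25 * ρ) ∧ 22000000 * ρ ≤ O.r ∧
      O.r ≤ 101 / 100 * (22000000 * ρ) ∧ 20000000 * ρ ≤ O.m := fun {O} h =>
    ⟨h.c.1, h.κ.1, h.κ.2, h.r.1, h.r.2, h.m.1⟩
  obtain ⟨a1, a2, a3, a4, a5⟩ := key hn.p
  obtain ⟨b1, b2, b3, b4, b5⟩ := key hn.q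
  obtain ⟨o1, o2, o3, o4, o5, o6⟩ := keyO hO
  obtain ⟨p1, p2, p3, p4, p5, p6⟩ := keyO hO'
  have y1 : 46000000 * ρ ≤ Y.rg := hY.rg.1
  have y2 : 46000000 * ρ ≤ Y'.rg := hY'.rg.1
  have w := hP.nr
  constructor <;> linarith

/-- **order and windows of the arc**, the lower bound of the duration from the arc itself (strand A) -/
theorem arW_At {P : Prm} {i j : Fin 3} {G0 H : Ga} {g : CC.Gm} (hP : P.Ok) (hL : 0 ≤ g.1)
    (h1 : FgS P i j G0 (H.rot P.u) .fp g) (h2 : FgS P i j G0 (H.rot P.u) .bq g)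
    (ho : (H.rot P.u).ix .fp g ≤ (H.rot P.u).ix .bq g)
    (w0 : (wnA P i).D0 + (P.p.k + P.q.k) ≤ ‖cutc g.2.2 (G0.ix .fp g) (G0.ix .bq g) 1‖)
    (w1 : ‖cutc g.2.2 (G0.ix .fp g) (G0.ix .bq g) 1‖ ≤ (wnA P i).D1 - (P.p.k + P.q.k))
    (v0 : (wnA P i).t0 ≤ g.1 * (((H.rot P.u).ix .bq g : ℝ) - (H.rot P.u).ix .fp g))
    (v1 : g.1 * |((G0.ix .bq g : I) : ℝ) - G0.ix .fp g| ≤ (wnA P i).t1) : g ∈ jF1 P i j G0 H := by
  have hO := ord_A h1 h2 ho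
  obtain ⟨W', hW'⟩ : ∃ W' : Wn, W' = { wnA P i with t0 := g.1 * |((G0.ix .bq g : I) : ℝ) - G0.ix .fp g| - (P.p.lk + P.q.lk) } :=
    ⟨_, rfl⟩
  have k := winR_arc (W := W') hL hO hP.p.f.r2.le hP.q.f.r2.le h1.fpC h2.fpC (by rw [hW']; exact w0) (by rw [hW']; exact w1)
    (by rw [hW']; exact (sub_add_cancel _ _).le) (by rw [hW']; exact v1)
  have k0 := k.d0
  have k1 := k.d1
  have k3 := k.t1
  rw [hW'] at k0 k1 k3
  refine ⟨h1, h2, ⟨ho, wi_iff.2 ⟨k0, k1, ?_, k3⟩⟩⟩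
  have ho' : ((H.rot P.u).ix .fp g : ℝ) ≤ (H.rot P.u).ix .bq g := ho
  show duL (wnA P i).t0 g.1 ((H.rot P.u).ix .fp g) ((H.rot P.u).ix .bq g) ≤ 0
  unfold duL
  split_ifs
  · norm_num
  · rw [abs_of_nonneg (by linarith), mul_comm]
    linarith

lemma SaH.mono {P : Prm} {i j : Fin 3} {G0 GR : Ga} {k : Arm} {R0 : ℝ} {X X' : Set CC.Gm} {S S' : Set Pie}
    (h : SaH P i j G0 GR k R0 X S) (hX : X' ⊆ X) (hS : S' ⊆ S) : SaH P i j G0 GR k R0 X' S' := by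
  obtain ⟨Gd, mn, B0, B1, x0, c1, x1, E, m1, m2, m3, m4⟩ := h.ex
  exact ⟨Gd, mn, B0, B1, x0, c1, x1, E, m1, m2, fun y hy g hg => m3 y hy g (hX hg), hS.trans m4⟩

/-- **the hypothesis `hloc` of `low2_md`** -/
theorem hloc_low {P : Prm} (hP : P.Ok) {V : Ultrafilter ℕ} (hV : (V : Filter ℕ) ≤ atTop) {β b : Fin 3 → Measure Pie}
    (HL : ClsL V P β b) {ρ R0 : ℝ} (hρ : 0 < ρ) {C : Set Pie} {μ : Measure CC.Gm} {w0 : CC.Gm → ℝ≥0∞}
    {T : CC.Gm → Fin 8 → ℝ} {G0 H : Ga} {X : Set CC.Gm} (h : LcIn P ρ R0 (β 0) (β 1) C μ w0 T G0 H X)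
    (cv : ∀ᵐ g ∂μ, w0 g ≠ 0 → CEv (jD0 P 0 1) g.2.2 g.1 (pji (muG g)) (G0.i8 g)) {O O' : Ot} {Y Y' : Tp} {W : Wn}
    (n : HlN P O O' Y Y' W R0) {S S' : Set Pie} (hS : SaH P 0 1 G0 (H.rot P.u) .fp R0 X S)
    (hS' : SaH P 0 1 G0 (H.rot P.u) .bq R0 X S')
    {Q : Measure MP} (hQ : Q.map Prod.fst ≤ β 0)
    (hcl : ∀ E : Set MP, IsClosed E → (∀ᶠ N : ℕ in (V : Filter ℕ), ∀ b ∈ OtB (ev 0) O N (uT N), ∀ m ∈ Prm.Rs3 Y Y' W N,
      ∀ b' ∈ OtB (ev 0) O' N (uT N), mk3 N (uT N) (b, m, b') ∈ E) → ∀ᵐ y ∂Q, y ∈ E) :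
    ∀ᵐ z ∂Q, (two z).1 ∈ S → (two z).2 ∈ S' → z.1 ∈ C := by
  have i1 := h.sμ
  have i2 := h.fin
  have hbn : ∀ {E : En} {ε : ℝ}, E.Ok ε → 0 < E.k ∧ 0 < E.s.bn := fun {E ε} hE => by
    have h1 := hE.rk
    have h2 := hE.f.r2
    have h3 := hE.bn
    have h4 := hE.f.g64
    have h5 := hE.f.r
    have h6 := hE.f.rr
    have ek : E.k = E.rk + E.f.r2 := rfl
    constructor <;> linarith
  obtain ⟨kp, bp⟩ := hbn hP.p
  obtain ⟨kq, bq⟩ := hbn hP.q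
  have Rp := h.Rp
  have Rq := h.Rq
  have n1 := n.r
  have n2 := n.r'
  have n3 := n.m
  have n4 := n.m'
  have n5 := n.rg
  have n6 := n.rg'
  have n7 := n.D
  have n8 := n.D'
  have n9 := n.d0
  have n10 := n.d1
  have n11 := n.t0
  have n12 := n.t1
  have n13 := n.c
  have n14 := n.c'
  -- the closed conditions
  have hE : ∀ᵐ x ∂Q, x ∈ EP (ev 0) (ev 0) O O' Y Y' W := by
    have h1 := mark_epy (d := ev 0) (d' := ev 0) (O := O) (O' := O') (Yp := Y) (Yq := Y') (V := W) hV (by linarith) (by linarith)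
      (by linarith) hcl (Eventually.of_forall fun N => Subset.rfl) (Eventually.of_forall fun N => Subset.rfl)
      (Eventually.of_forall fun N => Subset.rfl)
    filter_upwards [h1] with x hx
    exact epc_iff.2 hx
  -- the companions
  have mZ : MeasurableSet (cZ0 P 0 1 ρ) := by
    unfold cZ0 Z0E
    exact measurableSet_ball
  have mW : MeasurableSet (cW0 P 0 1 ρ) := by
    unfold cW0 Z0E
    exact measurableSet_ball
  have f0 := HL.fβ 0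
  have f1 := HL.fβ 1
  have hT : ∀ᵐ x ∂Q, x.1 ∈ TT (β 1) (cZ0 P 0 1 ρ) (cW0 P 0 1 ρ) := by
    have w1 := HL.wβ 1
    have w2 := HL.wβ 2
    have e1 : F3E.rcl P 1 = P.R0 1 P.Wc := by
      funext N
      unfold F3E.rcl
      rw [F3E.wnd_ne P (by decide)]
    have e2 : F3E.rcl P 2 = P.R0 2 P.Wc := by
      funext N
      unfold F3E.rcl
      rw [F3E.wnd_ne P (by decide)]
    rw [e1] at w1
    rw [e2] at w2
    have hi : ∀ᵐ x ∂(β 0), Function.Injective x.1 := by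
      obtain ⟨g1, g2, -, -, g5, g6, -, -⟩ := F3E.pos_prm hP 0
      filter_upwards [Bt.rst_inj g1 g2 g5 g6 (w := fun _ _ => 1) (Eventually.of_forall fun N R _ => le_rfl) hV (HL.wβ 0)
        (i := 0) (j := -0) (Eventually.of_forall fun N R hR => hR)] with x hx
      exact hx.1
    have hi' : ∀ᵐ x ∂Q, Function.Injective x.1.1 := ae_of_ae_map measurable_fst.aemeasurable (ae_mono hQ hi)
    have s := C0.std hP
    have c0 : C0 P O.κ O.r (P.p.s.bn - P.p.k) O'.κ O'.r (P.q.s.bn - P.q.k) (P.p.kc + P.p.n.m) (P.q.kc + P.q.n.m) :=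
      { pe := n.κ0
        qe := n.κ0'
        pa := by
          rw [add_sub_cancel_left]
          exact n.κ
        qa := by
          rw [add_sub_cancel_left]
          exact n.κ'
        pb := s.pb
        qb := s.qb
        pl := by linarith
        ql := by linarith
        D := n.W
        hh := s.hh }
    have hr : 0 < 3 / 5 * ρ := by positivity
    filter_upwards [hE, hi'] with x hx hxi
    have hx' : EpC (ev 0) (ev 0) O O' Y Y' W x := hx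
    have h3 := (ep_T hP hV w1 w2 c0 hr hr n.c n.c' (by linarith) (by linarith) (by linarith) (by linarith) (by linarith)
      (by linarith) (by linarith) (by linarith) hx' hxi).1
    show x.1 ∈ TT (β 1) (Z0E (ev 0) (ev 1) P.p (P.p.kc + P.p.n.m) (3 / 5 * ρ)) (Z0E (ev (-0)) (ev (-1)) P.q (P.q.kc + P.q.n.m)
      (3 / 5 * ρ))
    have m1 : (-1 : Fin 3) = 2 := by decide
    rw [m1, neg_zero]
    exact h3
  -- the rests of the closed curves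
  have ac : (β 0).restrict (TT (β 1) (cZ0 P 0 1 ρ) (cW0 P 0 1 ρ)) ≪ (μ.withDensity w0).map fun g => (rst g (m4 (T g))).1 := by
    have h1 := chg_ac (dd_pie mZ mW) h.ac
    have e : (((μ.withDensity w0).map (dat T)).map Prod.snd).map Prod.fst = (μ.withDensity w0).map fun g =>
        (rst g (m4 (T g))).1 := by
      rw [Measure.map_map measurable_snd (dat_meas h.mT), Measure.map_map measurable_fst
        (measurable_snd.comp (dat_meas h.mT))]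
      rfl
    rw [e] at h1
    exact h1
  have mr : Measurable fun g => (rst g (m4 (T g))).1 := (measurable_fst.comp measurable_snd).comp (dat_meas h.mT)
  obtain ⟨X', hX'⟩ : ∃ X' : Set CC.Gm, X' = {g | g ∈ X ∧ PaX P 0 1 G0 .fp g ∧ PaX P 0 1 G0 .bq g} := ⟨_, rfl⟩
  have sX : X' ⊆ X := fun g hg => by
    rw [hX'] at hg
    exact hg.1
  obtain ⟨Gd, mn, B0, B1, x0, c1, x1, E, s0, s2, s3, s1⟩ := (hS.mono sX Subset.rfl).ex
  obtain ⟨Gd', mn', B0', B1', x0', c1', x1', E', s0', s2', s3', s1'⟩ := (hS'.mono sX Subset.rfl).ex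
  refine wit_all (Ψ := fun z : MP => (two z).1 ∈ S → (two z).2 ∈ S' → z.1 ∈ C) h.mw mr ac (tt_meas mZ mW) hQ hE hT ?_
  filter_upwards [h.h1, h.hg, cv] with g g1 g2 g3 hw s hs k1 k2
  obtain ⟨a1, a2, a3, a4, a5⟩ := g2 hw
  have cg := g3 hw
  obtain ⟨o1, o2⟩ := jK0_dsp hP a2
  have er : (rst g (m4 (T g))).1 = resA G0 .fp g := res_eq a3 (tmS_all a4 a2.1)
  refine (g1 hw).2 ?_
  have hs1 : (resA G0 .fp g, s) ∈ EP (ev 0) (ev 0) O O' Y Y' W := by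
    rw [← er]
    exact hs
  have k1' : pcut (resA G0 .fp g) 0 s.1 ∈ S := by
    rw [← er]
    exact k1
  have k2' : pcut (resA G0 .fp g) 1 s.2 ∈ S' := by
    rw [← er]
    exact k2
  have gX : g ∈ X' := by
    rw [hX']
    exact ⟨a5, paX_of hP a1 cg .fp, paX_of hP a1 cg .bq⟩
  obtain ⟨F1, r1⟩ := hS_of (i := 0) (j := 1) (k := .fp) hP.p (dirU_norm hP 0 1 .fp) h.Rp s0 s2 s3
    (fun g hg => by rw [hX'] at hg; exact hg.2.1) s1 gX (ev_norm 0) n.m n.rg n.D hs1 k1'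
  obtain ⟨F2, r2⟩ := hS_opp (i := 0) (j := 1) (k := .fp) hP.q (dirU_norm hP 0 1 .bq) h.Rq s0' s2' s3'
    (fun g hg => by rw [hX'] at hg; exact hg.2.2) s1' gX (ev_norm 0) n.m' n.rg' n.D' hs1 k2'
  have hs' : EpC (ev 0) (ev 0) O O' Y Y' W (resA G0 .fp g, s) := hs1
  obtain ⟨b1, b2⟩ := hs'.end1
  have hL : 0 ≤ (resA G0 .fp g).2 := mul_nonneg a1.le (abs_nonneg _)
  obtain ⟨-, b4⟩ := hs'.dur hL
  have e : (resA G0 .fp g).1 = cutc g.2.2 (G0.ix .fp g) (G0.ix .bq g) := (cutc_eq _ _ _).symm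
  have e2 : wnA P 0 = P.W := if_pos rfl
  have b1' : W.D0 - (O.r + O'.r) ≤ ‖cutc g.2.2 (G0.ix .fp g) (G0.ix .bq g) 1‖ := by
    rw [← e]
    exact b1
  have b2' : ‖cutc g.2.2 (G0.ix .fp g) (G0.ix .bq g) 1‖ ≤ W.D1 + (O.r + O'.r) := by
    rw [← e]
    exact b2
  have b4' : g.1 * |((G0.ix .bq g : I) : ℝ) - G0.ix .fp g| ≤ W.t1 + (O.lb + O'.lb) := b4
  -- the arc contains the middle piece
  have o1' : (0 : ℝ) < (G0.ix .bq g : ℝ) - G0.ix .fp g := sub_pos.2 o1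
  have r2' : s.2 ≤ (((H.rot P.u).ix .bq g : ℝ) - G0.ix .fp g) / ((G0.ix .bq g : ℝ) - G0.ix .fp g) :=
    r2.trans_eq (rlA_opp (k := .fp) o1)
  have r1' : (((H.rot P.u).ix .fp g : ℝ) - G0.ix .fp g) / ((G0.ix .bq g : ℝ) - G0.ix .fp g) ≤ s.1 := r1
  rw [le_div_iff₀ o1'] at r2'
  rw [div_le_iff₀ o1'] at r1'
  have q1 : s.1 ≤ s.2 := hs'.s1
  have q2 : s.1 * ((G0.ix .bq g : ℝ) - G0.ix .fp g) ≤ s.2 * ((G0.ix .bq g : ℝ) - G0.ix .fp g) :=
    mul_le_mul_of_nonneg_right q1 o1'.le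
  have q3 : W.t0 ≤ g.1 * ((G0.ix .bq g : ℝ) - G0.ix .fp g) * (s.2 - s.1) := by
    have q4 := hs'.t0
    have q5 : (pcut (resA G0 .fp g) s.1 s.2).2 = g.1 * |(G0.ix .bq g : ℝ) - G0.ix .fp g| * |s.2 - s.1| := rfl
    change W.t0 ≤ (pcut (resA G0 .fp g) s.1 s.2).2 at q4
    rwa [q5, abs_of_pos o1', abs_of_nonneg (by linarith)] at q4
  have q6 : g.1 * ((s.2 - s.1) * ((G0.ix .bq g : ℝ) - G0.ix .fp g)) ≤
      g.1 * (((H.rot P.u).ix .bq g : ℝ) - (H.rot P.u).ix .fp g) := mul_le_mul_of_nonneg_left (by linarith) a1.le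
  have q7 : ((H.rot P.u).ix .fp g : ℝ) ≤ (H.rot P.u).ix .bq g := by linarith
  exact arW_At hP a1.le F1 F2 q7 (by rw [e2]; linarith) (by rw [e2]; linarith) (by rw [e2]; linarith) (by rw [e2]; linarith)

end Pool.Agent.ROT.F3.CK
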