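import Pool.Agent.ART.Lane

/-!
# F3, the doubling lemma with orientation (helper64)

The Hamiltonian list of the doubling lemma goes around the set of cells in ONE sense: it starts in the left subcell of the free
side `(u, δ0)` (seen from inside of the set), ends in the right one, and passes every other free side from its right subcell to its
left subcell. Hence (`two_lanes`) two disjoint lanes between the free sides `(u, δ0)` and `(a, δa)`: left to right and right to left.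
-/

set_option autoImplicit false

namespace HexObs

namespace ROT

namespace F3L

open ARM (adj)
open ART ART.Lane

/-- the quarter turn to the left -/
def lf (δ : ℤ × ℤ) : ℤ × ℤ := (-δ.2, δ.1)

/-- the subcell at the left end of the side δ of v, seen from inside -/
def Lf (v δ : ℤ × ℤ) : ℤ × ℤ :=
  (2 * v.1 + (if 0 < δ.1 - δ.2 then 1 else 0), 2 * v.2 + (if 0 < δ.1 + δ.2 then 1 else 0))

/-- the subcell at the right end of the side δ of v, seen from inside -/
def Rt (v δ : ℤ × ℤ) : ℤ × ℤ :=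
  (2 * v.1 + (if 0 < δ.1 + δ.2 then 1 else 0), 2 * v.2 + (if 0 < δ.2 - δ.1 then 1 else 0))

lemma bl_Lf {v δ : ℤ × ℤ} : bl (Lf v δ) = v := by
  unfold bl Lf
  obtain ⟨v1, v2⟩ := v
  simp only [Prod.mk.injEq]
  constructor <;> split_ifs <;> omega

lemma bl_Rt {v δ : ℤ × ℤ} : bl (Rt v δ) = v := by
  unfold bl Rt
  obtain ⟨v1, v2⟩ := v
  simp only [Prod.mk.injEq]
  constructor <;> split_ifs <;> omega

/-- the oriented state -/
structure HamO (S : Finset (ℤ × ℤ)) (u δ0 : ℤ × ℤ) (l : List (ℤ × ℤ)) : Prop where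
  nd : l.Nodup
  ch : l.IsChain adj
  mem : ∀ c, c ∈ l ↔ bl c ∈ S
  hd : l.head? = some (Lf u δ0)
  tl : l.getLast? = some (Rt u δ0)
  side : ∀ v ∈ S, ∀ δ ∈ D4, v + δ ∉ S → (v ≠ u ∨ δ ≠ δ0) → Con l (Rt v δ) (Lf v δ)

/-- one cell -/
lemma ham_one (u : ℤ × ℤ) {δ0 : ℤ × ℤ} (hδ : δ0 ∈ D4) :
    HamO {u} u δ0 [Lf u δ0, Lf u δ0 - δ0, Rt u δ0 - δ0, Rt u δ0] := by
  obtain ⟨u1, u2⟩ := u
  rw [mem_D4] at hδ
  refine ⟨?_, ?_, ?_, rfl, rfl, ?_⟩
  · rcases hδ with rfl | rfl | rfl | rfl <;> simp [Lf, Rt]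
  · rcases hδ with rfl | rfl | rfl | rfl <;> simp [Lf, Rt, adj]
  · rintro ⟨c1, c2⟩
    rcases hδ with rfl | rfl | rfl | rfl <;>
      · simp only [Lf, Rt, bl, Finset.mem_singleton, List.mem_cons, List.not_mem_nil, or_false, Prod.mk.injEq,
          Prod.mk_sub_mk]
        norm_num
        omega
  · rintro ⟨v1, v2⟩ hv δ hd - hne
    rw [Finset.mem_singleton, Prod.mk.injEq] at hv
    obtain ⟨rfl, rfl⟩ := hv
    rw [mem_D4] at hd
    have hne' : δ ≠ δ0 := by
      rcases hne with h | h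
      · exact absurd rfl h
      · exact h
    rcases hδ with rfl | rfl | rfl | rfl <;> rcases hd with rfl | rfl | rfl | rfl <;>
      first
        | exact absurd rfl hne'
        | (simp only [con_cons, Lf, Rt, Prod.mk.injEq, Prod.mk_sub_mk]
           norm_num
           try simp [not_con_nil])

/-- the new block -/
lemma block {v δ : ℤ × ℤ} (hδ : δ ∈ D4) :
    (∀ c, c ∈ [Rt v δ + δ, Rt v δ + (δ + δ), Lf v δ + (δ + δ), Lf v δ + δ] ↔ bl c = v + δ) ∧
    [Rt v δ + δ, Rt v δ + (δ + δ), Lf v δ + (δ + δ), Lf v δ + δ].Nodup ∧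
    (Rt v δ :: ([Rt v δ + δ, Rt v δ + (δ + δ), Lf v δ + (δ + δ), Lf v δ + δ] ++ [Lf v δ])).IsChain adj := by
  obtain ⟨v1, v2⟩ := v
  rw [mem_D4] at hδ
  rcases hδ with rfl | rfl | rfl | rfl <;>
    (refine ⟨?_, ?_, ?_⟩
     · rintro ⟨c1, c2⟩
       simp only [Lf, Rt, bl, List.mem_cons, List.not_mem_nil, or_false, Prod.mk.injEq, Prod.mk_add_mk]
       norm_num
       omega
     · simp only [Lf, Rt, List.nodup_cons, List.mem_cons, List.not_mem_nil, or_false, Prod.mk.injEq, Prod.mk_add_mk]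
       norm_num
     · simp only [Lf, Rt, adj, List.cons_append, List.nil_append, List.isChain_cons_cons, Prod.mk.injEq,
         Prod.mk_add_mk, Prod.mk_sub_mk]
       norm_num
       all_goals omega)

/-- the sides of the new block -/
lemma block_side {v δ δ' : ℤ × ℤ} (hδ : δ ∈ D4) (hδ' : δ' ∈ D4) (hne : δ' ≠ -δ) :
    Con [Rt v δ + δ, Rt v δ + (δ + δ), Lf v δ + (δ + δ), Lf v δ + δ] (Rt (v + δ) δ') (Lf (v + δ) δ') := by
  obtain ⟨v1, v2⟩ := v
  rw [mem_D4] at hδ hδ'
  rcases hδ with rfl | rfl | rfl | rfl <;> rcases hδ' with rfl | rfl | rfl | rfl <;>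
    first
      | exact absurd (by decide) hne
      | (simp only [con_cons, Lf, Rt, Prod.mk.injEq, Prod.mk_add_mk, List.cons.injEq]
         norm_num
         simp only [not_con_nil, or_false]
         try omega)

/-- different sides have different pairs -/
lemma pair_ne {v δ v' δ' : ℤ × ℤ} (hδ : δ ∈ D4) (hδ' : δ' ∈ D4) (hne : v ≠ v' ∨ δ ≠ δ') :
    ¬ (Rt v' δ' = Rt v δ ∧ Lf v' δ' = Lf v δ) := by
  obtain ⟨v1, v2⟩ := v
  obtain ⟨w1, w2⟩ := v'
  rw [mem_D4] at hδ hδ'
  simp only [ne_eq, Prod.mk.injEq] at hne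
  rcases hδ with rfl | rfl | rfl | rfl <;> rcases hδ' with rfl | rfl | rfl | rfl <;>
    (simp only [Lf, Rt, Prod.mk.injEq]
     norm_num at hne ⊢
     intros
     omega)

lemma ham_aux {S : Finset (ℤ × ℤ)} {u δ0 v δ : ℤ × ℤ} {s t : List (ℤ × ℤ)}
    (h : HamO S u δ0 (s ++ Rt v δ :: Lf v δ :: t)) (hv : v ∈ S) (hδ : δ ∈ D4) (hn : v + δ ∉ S) :
    HamO (insert (v + δ) S) u δ0
      (s ++ Rt v δ :: ([Rt v δ + δ, Rt v δ + (δ + δ), Lf v δ + (δ + δ), Lf v δ + δ] ++ Lf v δ :: t)) := by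
  obtain ⟨b1, b2, b3⟩ := block (v := v) hδ
  have hside := fun δ' : ℤ × ℤ => block_side (v := v) (δ' := δ') hδ
  generalize [Rt v δ + δ, Rt v δ + (δ + δ), Lf v δ + (δ + δ), Lf v δ + δ] = i at b1 b2 b3 hside ⊢
  have hperm : (s ++ Rt v δ :: (i ++ Lf v δ :: t)).Perm (i ++ (s ++ Rt v δ :: Lf v δ :: t)) := by
    have e1 : s ++ Rt v δ :: (i ++ Lf v δ :: t) = (s ++ [Rt v δ]) ++ (i ++ Lf v δ :: t) := by simp
    have e2 : s ++ Rt v δ :: Lf v δ :: t = (s ++ [Rt v δ]) ++ Lf v δ :: t := by simp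
    rw [e1, e2]
    exact List.perm_append_comm_assoc _ _ _
  have hmem : ∀ c, c ∈ s ++ Rt v δ :: (i ++ Lf v δ :: t) ↔ bl c = v + δ ∨ bl c ∈ S := by
    intro c
    rw [hperm.mem_iff, List.mem_append, b1, h.mem]
  refine ⟨?_, ?_, ?_, ?_, ?_, ?_⟩
  · rw [hperm.nodup_iff, List.nodup_append']
    refine ⟨b2, h.nd, ?_⟩
    intro c hc1 hc2
    rw [b1] at hc1
    rw [h.mem, hc1] at hc2
    exact hn hc2
  · have h1 := h.ch
    rw [List.isChain_append_cons_cons] at h1
    rw [List.isChain_split]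
    refine ⟨h1.1, ?_⟩
    have e : Rt v δ :: (i ++ Lf v δ :: t) = (Rt v δ :: i) ++ Lf v δ :: t := rfl
    rw [e, List.isChain_split]
    exact ⟨by simpa using b3, h1.2.2⟩
  · intro c
    rw [hmem, Finset.mem_insert]
  · have h1 := h.hd
    cases s with
    | nil => simpa using h1
    | cons a s => simpa using h1
  · have h1 := h.tl
    have e1 : s ++ Rt v δ :: (i ++ Lf v δ :: t) = (s ++ Rt v δ :: i) ++ Lf v δ :: t := by simp
    have e2 : s ++ Rt v δ :: Lf v δ :: t = (s ++ [Rt v δ]) ++ Lf v δ :: t := by simp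
    rw [e2, List.getLast?_append_cons] at h1
    rw [e1, List.getLast?_append_cons]
    exact h1
  · intro v' hv' δ' hδ' hn' hne'
    rw [Finset.mem_insert] at hv' hn'
    rw [not_or] at hn'
    rcases eq_or_ne v' (v + δ) with rfl | hvv
    · have h1 : δ' ≠ -δ := by
        rintro rfl
        exact hn'.2 (by simpa using hv)
      have h2 := hside δ' hδ' h1
      have := (h2.appr (Lf v δ :: t)).app (s ++ [Rt v δ])
      simpa using this
    · have hv2 : v' ∈ S := hv'.resolve_left hvv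
      have hne2 : v ≠ v' ∨ δ ≠ δ' := by
        by_contra hcon
        push Not at hcon
        obtain ⟨rfl, rfl⟩ := hcon
        exact hn'.1 rfl
      have p1 := pair_ne hδ hδ' hne2
      rcases con_ins i (h.side v' hv2 δ' hδ' hn'.2 hne') with ⟨h3, h4⟩ | h3
      · exact absurd ⟨h3, h4⟩ p1
      · exact h3

lemma ham_step {S : Finset (ℤ × ℤ)} {u δ0 v δ : ℤ × ℤ} {l : List (ℤ × ℤ)} (h : HamO S u δ0 l) (hv : v ∈ S)
    (hδ : δ ∈ D4) (hn : v + δ ∉ S) (hne : v ≠ u ∨ δ ≠ δ0) : ∃ l', HamO (insert (v + δ) S) u δ0 l' := by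
  obtain ⟨s, t, rfl⟩ := h.side v hv δ hδ hn hne
  exact ⟨_, ham_aux h hv hδ hn⟩

/-- **the doubling lemma with orientation**: the visited cells of a walk -/
theorem ham_walk {u δ0 : ℤ × ℤ} (hδ : δ0 ∈ D4) {w : ℕ → ℤ × ℤ} (h0 : w 0 = u) {n : ℕ} (hw : ∀ i, i < n → adj (w i) (w (i + 1)))
    (hu : ∀ i, i ≤ n → w i ≠ u + δ0) : ∃ l, HamO ((Finset.range (n + 1)).image w) u δ0 l := by
  classical
  induction n with
  | zero =>
    have e : (Finset.range (0 + 1)).image w = {u} := by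
      rw [zero_add, Finset.range_one, Finset.image_singleton, h0]
    rw [e]
    exact ⟨_, ham_one u hδ⟩
  | succ n ih =>
    obtain ⟨l, hl⟩ := ih (fun i hi => hw i (by omega)) (fun i hi => hu i (by omega))
    have e : (Finset.range (n + 1 + 1)).image w = insert (w (n + 1)) ((Finset.range (n + 1)).image w) := by
      rw [Finset.range_add_one, Finset.image_insert]
    rw [e]
    by_cases hin : w (n + 1) ∈ (Finset.range (n + 1)).image w
    · rw [Finset.insert_eq_of_mem hin]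
      exact ⟨l, hl⟩
    · have h1 := adj_sub.1 (hw n (by omega))
      have h2 : w n + (w (n + 1) - w n) = w (n + 1) := by abel
      have h3 : w n ∈ (Finset.range (n + 1)).image w := Finset.mem_image_of_mem w (Finset.mem_range.2 (by omega))
      obtain ⟨l', hl'⟩ := ham_step hl h3 h1 (by rw [h2]; exact hin) (by
        by_contra hcon
        push Not at hcon
        rw [hcon.2] at h2
        rw [hcon.1] at h2
        exact hu (n + 1) le_rfl h2.symm)
      rw [h2] at hl'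
      exact ⟨l', hl'⟩

/-- **two disjoint lanes between two free sides**, left to right and right to left -/
theorem two_lanes {S : Finset (ℤ × ℤ)} {u δ0 a δa : ℤ × ℤ} {l : List (ℤ × ℤ)} (h : HamO S u δ0 l) (ha : a ∈ S) (hδ : δa ∈ D4)
    (hn : a + δa ∉ S) (hne : a ≠ u ∨ δa ≠ δ0) :
    ∃ A B : List (ℤ × ℤ), l = A ++ B ∧ A.IsChain adj ∧ B.IsChain adj ∧ A.Nodup ∧ B.Nodup ∧ (∀ x ∈ A, x ∉ B) ∧
      (∀ x ∈ A, bl x ∈ S) ∧ (∀ x ∈ B, bl x ∈ S) ∧ A.head? = some (Lf u δ0) ∧ A.getLast? = some (Rt a δa) ∧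
      B.head? = some (Lf a δa) ∧ B.getLast? = some (Rt u δ0) := by
  obtain ⟨s, t, rfl⟩ := h.side a ha δa hδ hn hne
  have e : s ++ Rt a δa :: Lf a δa :: t = (s ++ [Rt a δa]) ++ (Lf a δa :: t) := by simp
  have hch := h.ch
  rw [List.isChain_append_cons_cons] at hch
  have hnd := h.nd
  rw [e, List.nodup_append'] at hnd
  refine ⟨s ++ [Rt a δa], Lf a δa :: t, e, hch.1, hch.2.2, hnd.1, hnd.2.1, fun x h1 h2 => hnd.2.2 h1 h2, ?_, ?_, ?_, ?_, ?_, ?_⟩
  · intro x hx
    refine (h.mem x).1 ?_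
    rw [e]
    exact List.mem_append_left _ hx
  · intro x hx
    refine (h.mem x).1 ?_
    rw [e]
    exact List.mem_append_right _ hx
  · have h1 := h.hd
    cases s with
    | nil => simpa using h1
    | cons b s => simpa using h1
  · rw [List.getLast?_append_cons]
    rfl
  · rfl
  · have h1 := h.tl
    rw [e, List.getLast?_append_cons] at h1
    exact h1

end F3L

end ROT

end HexObs
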