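import Pool.Agent.ROT.F3LimL
import Pool.Agent.ROT.F3LimK
import Pool.Agent.ROT.F3MidP

/-!
# F3, row L3: the limit of the lattice formula for finite measures, and its consequences (helper15)

* `low_of_vag` : lower bounds on an open set pass to the vague limit;
* **`l3_one_fin`**, **`l3_base`**, **`l3_fin`** : `l3_one` and `l3_abs` for finite measures `bA N → b1`, `bB N → b2` (not normalised);
* `lms_map_add` : the lattice measures are invariant;
* `L3Out.dens`, `L3Out.densP`, `L3Out.pos` : the hypotheses `dR` (or `d0`), `dP`, `hp` of `PairIn` (F3CoreA).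
-/

set_option autoImplicit false
set_option linter.unusedSectionVars false

open MeasureTheory Set Filter Topology TopologicalSpace ProbabilityTheory

open scoped ENNReal NNReal

namespace Pool.Agent.ROT.F3

/-- **lower bounds pass to the vague limit** -/
theorem low_of_vag {l : Filter ℕ} [NeBot l] {m : ℕ → Measure ℂ} {c : ℝ} (hm : LM l m c) {h : ℕ → ℂ → ℝ}
    (hh : ∀ N, Measurable (h N)) {C' : ℝ} (hb : ∀ᶠ N in l, ∀ z, 0 ≤ h N z ∧ h N z ≤ C') {h0 : ℂ → ℝ} (h0m : Measurable h0)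
    (h0b : ∀ z, 0 ≤ h0 z ∧ h0 z ≤ C')
    (hv : ∀ Ψ : ℂ → ℝ, Continuous Ψ → HasCompactSupport Ψ →
      Tendsto (fun N => ∫ z, h N z * Ψ z ∂(m N)) l (𝓝 (c * ∫ z, h0 z * Ψ z))) {O : Set ℂ} (hO : IsOpen O) {κ : ℝ}
    (hκ : κ ≤ C') (hl : ∀ᶠ N in l, ∀ᵐ z ∂(m N), z ∈ O → κ ≤ h N z) : ∀ᵐ z ∂(volume : Measure ℂ), z ∈ O → κ ≤ h0 z := by
  have hfin := hm.fin
  have hc := hm.pos
  -- the inequality for functions with support in `O`
  have h1 : ∀ Ψ : ℂ → ℝ, Continuous Ψ → HasCompactSupport Ψ → (∀ z, 0 ≤ Ψ z) → (∀ z, Ψ z ≠ 0 → z ∈ O) →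
      κ * ∫ z, Ψ z ≤ ∫ z, h0 z * Ψ z := by
    intro Ψ k1 k2 k3 k4
    have t1 := hv Ψ k1 k2
    have t2 := (hm.vag Ψ k1 k2).const_mul κ
    have h2 : κ * (c * ∫ z, Ψ z) ≤ c * ∫ z, h0 z * Ψ z := by
      refine le_of_tendsto_of_tendsto t2 t1 ?_
      filter_upwards [hl, hb] with N a1 a2
      rw [← integral_const_mul]
      have i1 : Integrable Ψ (m N) := k1.integrable_of_hasCompactSupport k2
      refine integral_mono_ae (i1.const_mul κ) ?_ ?_
      · refine i1.bdd_mul (c := C') (hh N).aestronglyMeasurable (ae_of_all _ fun z => ?_)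
        rw [Real.norm_eq_abs, abs_of_nonneg (a2 z).1]
        exact (a2 z).2
      · filter_upwards [a1] with z hz
        show κ * Ψ z ≤ h N z * Ψ z
        by_cases h3 : Ψ z = 0
        · rw [h3, mul_zero, mul_zero]
        · exact mul_le_mul_of_nonneg_right (hz (k4 z h3)) (k3 z)
    have h3 : c * (κ * ∫ z, Ψ z) ≤ c * ∫ z, h0 z * Ψ z := by linarith
    exact le_of_mul_le_mul_left h3 hc
  obtain ⟨u, u1, u2, u3, u4⟩ := TF.up O hO
  have ulim : ∀ z, Tendsto (fun n => u n z) atTop (𝓝 (O.indicator (fun _ => (1 : ℝ)) z)) := by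
    intro z
    by_cases hz : z ∈ O
    · have t1 : Tendsto (fun n => ENNReal.ofReal (u n z)) atTop (𝓝 (O.indicator (fun _ => (1 : ℝ≥0∞)) z)) := by
        rw [← u4 z]
        exact tendsto_atTop_iSup (monotone_nat_of_le_succ fun n => ENNReal.ofReal_le_ofReal (u3 n _))
      rw [indicator_of_mem hz] at t1 ⊢
      have t2 := (ENNReal.tendsto_toReal ENNReal.one_ne_top).comp t1
      rw [ENNReal.toReal_one] at t2
      refine t2.congr fun n => ?_
      exact ENNReal.toReal_ofReal ((u1 n).2 z).1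
    · rw [indicator_of_notMem hz]
      refine tendsto_const_nhds.congr fun n => ?_
      by_contra h2
      exact hz (u2 n z fun h3 => h2 h3.symm)
  -- the measure
  obtain ⟨F, hF⟩ : ∃ F : ℂ → ℝ, F = O.indicator fun z => C' - h0 z := ⟨_, rfl⟩
  have hFm : Measurable F := by
    rw [hF]
    exact (measurable_const.sub h0m).indicator hO.measurableSet
  have hF0 : ∀ z, 0 ≤ F z := fun z => by
    rw [hF]
    exact indicator_nonneg (fun z _ => by linarith [(h0b z).2]) z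
  have hFC : ∀ z, F z ≤ C' := fun z => by
    rw [hF]
    by_cases hz : z ∈ O
    · rw [indicator_of_mem hz]
      linarith [(h0b z).1]
    · rw [indicator_of_notMem hz]
      exact (h0b z).1.trans (h0b z).2
  have hη := (wd_fin (m := (volume : Measure ℂ)) hFC).2
  have key : ∀ S : Set ℂ, MeasurableSet S →
      ((volume : Measure ℂ).withDensity fun z => ENNReal.ofReal (F z)) S ≤ ENNReal.ofReal (C' - κ) * volume S := by
    refine le_of_cc (by linarith) (fun s hs => hs.measure_lt_top.ne) fun f k1 k2 k3 => ?_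
    rw [wd_int hFm hF0]
    have hfi : Integrable f volume := k1.integrable_of_hasCompactSupport k2
    have step : ∀ n, ∫ z, (C' - h0 z) * (u n z * f z) ≤ (C' - κ) * ∫ z, f z := by
      intro n
      have k4 : Continuous fun z => u n z * f z := (u1 n).cont.mul k1
      have k5 : HasCompactSupport fun z => u n z * f z := k2.mul_left
      have k6 : ∀ z, 0 ≤ u n z * f z := fun z => mul_nonneg ((u1 n).2 z).1 (k3 z)
      have k7 := h1 _ k4 k5 k6 fun z hz => u2 n z (left_ne_zero_of_mul hz)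
      have i1 : Integrable (fun z => u n z * f z) volume := k4.integrable_of_hasCompactSupport k5
      have i2 : Integrable (fun z => h0 z * (u n z * f z)) volume := by
        refine i1.bdd_mul (c := C') h0m.aestronglyMeasurable (ae_of_all _ fun z => ?_)
        rw [Real.norm_eq_abs, abs_of_nonneg (h0b z).1]
        exact (h0b z).2
      have e1 : ∫ z, (C' - h0 z) * (u n z * f z) = C' * (∫ z, u n z * f z) - ∫ z, h0 z * (u n z * f z) := by
        rw [← integral_const_mul, ← integral_sub (i1.const_mul _) i2]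
        exact integral_congr_ae (ae_of_all _ fun z => sub_mul _ _ _)
      have e2 : ∫ z, u n z * f z ≤ ∫ z, f z := integral_mono i1 hfi fun z => by
        show u n z * f z ≤ f z
        exact mul_le_of_le_one_left (k3 z) ((u1 n).2 z).2
      rw [e1]
      have e3 : (C' - κ) * ∫ z, u n z * f z ≤ (C' - κ) * ∫ z, f z := mul_le_mul_of_nonneg_left e2 (by linarith)
      linarith
    have lim : Tendsto (fun n => ∫ z, (C' - h0 z) * (u n z * f z)) atTop (𝓝 (∫ z, F z * f z)) := by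
      refine tendsto_integral_of_dominated_convergence (fun z => C' * f z) (fun n => ?_) (hfi.const_mul C') (fun n => ?_) ?_
      · exact ((measurable_const.sub h0m).mul ((u1 n).meas.mul k1.measurable)).aestronglyMeasurable
      · refine ae_of_all _ fun z => ?_
        rw [Real.norm_eq_abs, abs_of_nonneg (mul_nonneg (by linarith [(h0b z).2]) (mul_nonneg ((u1 n).2 z).1 (k3 z)))]
        refine mul_le_mul (by linarith [(h0b z).1]) (mul_le_of_le_one_left (k3 z) ((u1 n).2 z).2)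
          (mul_nonneg ((u1 n).2 z).1 (k3 z)) ((h0b z).1.trans (h0b z).2)
      · refine ae_of_all _ fun z => ?_
        have e1 : F z * f z = (C' - h0 z) * (O.indicator (fun _ => (1 : ℝ)) z * f z) := by
          rw [hF]
          by_cases hz : z ∈ O
          · rw [indicator_of_mem hz, indicator_of_mem hz, one_mul]
          · rw [indicator_of_notMem hz, indicator_of_notMem hz]
            ring
        rw [e1]
        exact ((ulim z).mul_const _).const_mul _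
    exact le_of_tendsto lim (Eventually.of_forall step)
  have hae : (fun z => ENNReal.ofReal (F z)) ≤ᵐ[volume] fun _ => ENNReal.ofReal (C' - κ) := by
    refine ae_le_of_forall_setLIntegral_le_of_sigmaFinite hFm.ennreal_ofReal fun s hs _ => ?_
    rw [← withDensity_apply _ hs, lintegral_const, Measure.restrict_apply_univ]
    exact key s hs
  filter_upwards [hae] with z hz hzO
  have h2 : F z ≤ C' - κ := (ENNReal.ofReal_le_ofReal_iff (by linarith)).1 hz
  rw [hF, indicator_of_mem hzO] at h2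
  linarith

section fin1

variable {K A B : Type*} [MeasurableSpace K]
  [PseudoMetricSpace A] [MeasurableSpace A] [BorelSpace A] [SecondCountableTopology A]
  [PseudoMetricSpace B] [MeasurableSpace B] [BorelSpace B] [SecondCountableTopology B]
  {l : Filter ℕ} [NeBot l] {bA : ℕ → FiniteMeasure A} {b1 : FiniteMeasure A} {bB : ℕ → FiniteMeasure B}
  {b2 : FiniteMeasure B} {m : ℕ → Measure ℂ} {c : ℝ} {yA : A → ℂ} {yB : B → ℂ} {C R R0 C' : ℝ}
  {g : ℕ → ℂ → ℝ} {g0 : ℂ → ℝ} {h : ℕ → ℂ → ℝ} {h0 : ℂ → ℝ} {ρN : ℕ → Measure (K × (A × (B × ℂ)))}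
  {ρ : Measure (K × (A × (B × ℂ)))} [IsFiniteMeasure ρ] {D : Set (A × (B × ℂ))} {E : K → ℝ}

/-- **the limit of the lattice formula for one function `E` of the connections, finite measures** -/
theorem l3_one_fin (hA : Tendsto bA l (𝓝 b1)) (hB : Tendsto bB l (𝓝 b2)) (n1 : b1 ≠ 0) (n2 : b2 ≠ 0)
    (hm : LM l m c) (hyA : Continuous yA) (hyB : Continuous yB)
    (hinv : ∀ᶠ N in l, ∀ᵐ a ∂(bA N : Measure A), ∀ᵐ b ∂(bB N : Measure B), (m N).map (fun z => z + (yA a - yB b)) = m N)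
    (hg : BF l g C R) (hg1 : AL1 l m g) (g0m : Measurable g0) (g0b : ∀ z, 0 ≤ g0 z ∧ g0 z ≤ C)
    (g0s : ∀ z, R0 ≤ ‖z‖ → g0 z = 0) (g0l : VL l m c g g0) (hh : ∀ N, Measurable (h N)) (hC' : 0 ≤ C')
    (hhb : ∀ᶠ N in l, ∀ z, 0 ≤ h N z ∧ h N z ≤ C') (h0m : Measurable h0) (h0b : ∀ z, 0 ≤ h0 z ∧ h0 z ≤ C')
    (h0l : VL l m c h h0) (hD : IsOpen D) (hE : Measurable E) (hE0 : ∀ k, 0 ≤ E k ∧ E k ≤ 1)
    (hlim : ∀ (u : A → ℝ) (v : B → ℝ) (w : ℂ → ℝ), TF u → TF v → TF w → Mar D u v w →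
      Tendsto (fun N => ∫ x, E x.1 * (u x.2.1 * (v x.2.2.1 * w x.2.2.2)) ∂(ρN N)) l
        (𝓝 (∫ x, E x.1 * (u x.2.1 * (v x.2.2.1 * w x.2.2.2)) ∂ρ)))
    (hex : ∀ (u : A → ℝ) (v : B → ℝ) (w : ℂ → ℝ), TF u → TF v → TF w → Mar D u v w →
      Tendsto (fun N => (∫ x, E x.1 * (u x.2.1 * (v x.2.2.1 * w x.2.2.2)) ∂(ρN N)) -
        ∫ p, u p.1 * (v p.2.1 * w p.2.2) * g N p.2.2 * h N (p.2.2 + (yA p.1 - yB p.2.1))
          ∂((bA N : Measure A).prod ((bB N : Measure B).prod (m N)))) l (𝓝 0)) :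
    ∀ S : Set (A × (B × ℂ)), MeasurableSet S → S ⊆ D → ∫⁻ x in Prod.snd ⁻¹' S, ENNReal.ofReal (E x.1) ∂ρ =
      ∫⁻ x in S, ENNReal.ofReal (c * g0 x.2.2) * ENNReal.ofReal (h0 (x.2.2 + (yA x.1 - yB x.2.1)))
        ∂((b1 : Measure A).prod ((b2 : Measure B).prod volume)) := by
  have hfin := hm.fin
  have neA : Nonempty A := by
    by_contra hne
    rw [not_nonempty_iff] at hne
    exact n1 (by
      ext s _
      rw [Set.eq_empty_of_isEmpty s]
      simp)
  have neB : Nonempty B := by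
    by_contra hne
    rw [not_nonempty_iff] at hne
    exact n2 (by
      ext s _
      rw [Set.eq_empty_of_isEmpty s]
      simp)
  have m1 : b1.mass ≠ 0 := b1.mass_nonzero_iff.2 n1
  have m2 : b2.mass ≠ 0 := b2.mass_nonzero_iff.2 n2
  have tA : Tendsto (fun N => (bA N).mass) l (𝓝 b1.mass) := (FiniteMeasure.continuous_mass.tendsto b1).comp hA
  have tB : Tendsto (fun N => (bB N).mass) l (𝓝 b2.mass) := (FiniteMeasure.continuous_mass.tendsto b2).comp hB
  have eA : ∀ᶠ N in l, bA N ≠ 0 := (tA.eventually_ne m1).mono fun N hN => (bA N).mass_nonzero_iff.1 hN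
  have eB : ∀ᶠ N in l, bB N ≠ 0 := (tB.eventually_ne m2).mono fun N hN => (bB N).mass_nonzero_iff.1 hN
  have hA' := FiniteMeasure.tendsto_normalize_of_tendsto hA n1
  have hB' := FiniteMeasure.tendsto_normalize_of_tendsto hB n2
  -- the factors
  obtain ⟨r, hr⟩ : ∃ r : ℝ≥0, r = b1.mass⁻¹ * b2.mass⁻¹ := ⟨_, rfl⟩
  obtain ⟨rN, hrN⟩ : ∃ rN : ℕ → ℝ≥0, rN = fun N => (bA N).mass⁻¹ * (bB N).mass⁻¹ := ⟨_, rfl⟩
  have r0 : r ≠ 0 := by
    rw [hr]
    exact mul_ne_zero (inv_ne_zero m1) (inv_ne_zero m2)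
  have tr : Tendsto rN l (𝓝 r) := by
    rw [hr, hrN]
    exact (tA.inv₀ m1).mul (tB.inv₀ m2)
  have tr' : Tendsto (fun N => (rN N : ℝ)) l (𝓝 (r : ℝ)) := (NNReal.continuous_coe.tendsto r).comp tr
  have pr : ∀ (x : FiniteMeasure A) (y : FiniteMeasure B) (μ : Measure ℂ) [SFinite μ], x ≠ 0 → y ≠ 0 →
      (x.normalize : Measure A).prod ((y.normalize : Measure B).prod μ) =
        (x.mass⁻¹ * y.mass⁻¹) • ((x : Measure A).prod ((y : Measure B).prod μ)) := by
    intro x y μ _ hx hy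
    rw [x.toMeasure_normalize_eq_of_nonzero hx, y.toMeasure_normalize_eq_of_nonzero hy, Measure.prod_smul_left,
      Measure.prod_smul_left, Measure.prod_smul_right, smul_smul]
  have key := l3_one (ρN := fun N => rN N • ρN N) (ρ := r • ρ) (D := D) (g := g) (h := h) (E := E)
    hA' hB' hm hyA hyB (by
      filter_upwards [hinv, eA, eB] with N k1 k2 k3
      rw [(bA N).toMeasure_normalize_eq_of_nonzero k2, (bB N).toMeasure_normalize_eq_of_nonzero k3]
      refine Measure.ae_smul_measure ?_ _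
      filter_upwards [k1] with a ha
      exact Measure.ae_smul_measure ha _) hg hg1 g0m g0b g0s g0l hh hC' hhb h0m h0b h0l hD hE hE0 (by
      intro u v w hu hv hw hs
      have h1 := tr'.mul (hlim u v w hu hv hw hs)
      simp only [integral_smul_nnreal_measure, NNReal.smul_def, smul_eq_mul]
      exact h1) (by
      intro u v w hu hv hw hs
      have h1 := tr'.mul (hex u v w hu hv hw hs)
      rw [mul_zero] at h1
      refine h1.congr' ?_
      filter_upwards [eA, eB] with N k2 k3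
      have := sf_of (μ := m N)
      rw [pr (bA N) (bB N) (m N) k2 k3]
      simp only [integral_smul_nnreal_measure, NNReal.smul_def, smul_eq_mul, hrN]
      ring)
  intro S hS hSD
  have h2 := key S hS hSD
  rw [pr b1 b2 volume n1 n2, ← hr, Measure.restrict_smul, Measure.restrict_smul, lintegral_smul_measure,
    lintegral_smul_measure] at h2
  have r1 : (r : ℝ≥0∞) ≠ 0 := by exact_mod_cast r0
  have h3 : (r : ℝ≥0∞) * ∫⁻ x in Prod.snd ⁻¹' S, ENNReal.ofReal (E x.1) ∂ρ = (r : ℝ≥0∞) *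
      ∫⁻ x in S, ENNReal.ofReal (c * g0 x.2.2) * ENNReal.ofReal (h0 (x.2.2 + (yA x.1 - yB x.2.1)))
          ∂((b1 : Measure A).prod ((b2 : Measure B).prod volume)) := h2
  exact (ENNReal.mul_right_inj r1 ENNReal.coe_ne_top).1 h3

end fin1

section fin

variable {K1 K2 A B : Type*} [PseudoEMetricSpace K1] [MeasurableSpace K1] [BorelSpace K1] [StandardBorelSpace K1] [Nonempty K1]
  [PseudoEMetricSpace K2] [MeasurableSpace K2] [BorelSpace K2] [StandardBorelSpace K2] [Nonempty K2]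
  [PseudoMetricSpace A] [MeasurableSpace A] [BorelSpace A] [SecondCountableTopology A]
  [PseudoMetricSpace B] [MeasurableSpace B] [BorelSpace B] [SecondCountableTopology B]
  {U : Ultrafilter ℕ} {bA : ℕ → FiniteMeasure A} {b1 : FiniteMeasure A} {bB : ℕ → FiniteMeasure B}
  {b2 : FiniteMeasure B} {m : ℕ → Measure ℂ} {c : ℝ} {yA : A → ℂ} {yB : B → ℂ} {C R C' : ℝ}
  {g : (K1 → ℝ) → ℕ → ℂ → ℝ} {h : (K2 → ℝ) → ℕ → ℂ → ℝ} {ρN : ℕ → Measure ((K1 × K2) × (A × (B × ℂ)))}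
  {ρ : Measure ((K1 × K2) × (A × (B × ℂ)))} [IsFiniteMeasure ρ] {D : Set (A × (B × ℂ))}

/-- **the base lemma**: densities for the test functions, for ANY vague limits `g0`, `h0` (`g0 e` does not depend on the other end) -/
theorem l3_base {l : Filter ℕ} [NeBot l] {g0 : (K1 → ℝ) → ℂ → ℝ} {h0 : (K2 → ℝ) → ℂ → ℝ}
    (hA : Tendsto bA l (𝓝 b1)) (hB : Tendsto bB l (𝓝 b2)) (n1 : b1 ≠ 0) (n2 : b2 ≠ 0)
    (hm : LM l m c) (hyA : Continuous yA) (hyB : Continuous yB)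
    (hinv : ∀ᶠ N in l, ∀ᵐ a ∂(bA N : Measure A), ∀ᵐ b ∂(bB N : Measure B), (m N).map (fun z => z + (yA a - yB b)) = m N)
    (hg : ∀ e, TF e → BF l (g e) C R) (hg1 : ∀ e, TF e → AL1 l m (g e))
    (hg0 : ∀ e, TF e → Measurable (g0 e) ∧ (∀ z, 0 ≤ g0 e z ∧ g0 e z ≤ C) ∧ (∀ z, R + 1 ≤ ‖z‖ → g0 e z = 0) ∧
      VL l m c (g e) (g0 e))
    (hh : ∀ e, TF e → ∀ N, Measurable (h e N)) (hC' : 0 ≤ C')
    (hhb : ∀ e, TF e → ∀ᶠ N in l, ∀ z, 0 ≤ h e N z ∧ h e N z ≤ C')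
    (hh0 : ∀ e, TF e → Measurable (h0 e) ∧ (∀ z, 0 ≤ h0 e z ∧ h0 e z ≤ C') ∧ VL l m c (h e) (h0 e)) (hD : IsOpen D)
    (hlim : ∀ (e : K1 → ℝ) (e' : K2 → ℝ) (u : A → ℝ) (v : B → ℝ) (w : ℂ → ℝ), TF e → TF e' → TF u → TF v → TF w →
      Mar D u v w → Tendsto (fun N => ∫ x, e x.1.1 * e' x.1.2 * (u x.2.1 * (v x.2.2.1 * w x.2.2.2)) ∂(ρN N)) l
        (𝓝 (∫ x, e x.1.1 * e' x.1.2 * (u x.2.1 * (v x.2.2.1 * w x.2.2.2)) ∂ρ)))
    (hex : ∀ (e : K1 → ℝ) (e' : K2 → ℝ) (u : A → ℝ) (v : B → ℝ) (w : ℂ → ℝ), TF e → TF e' → TF u → TF v → TF w →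
      Mar D u v w → Tendsto (fun N => (∫ x, e x.1.1 * e' x.1.2 * (u x.2.1 * (v x.2.2.1 * w x.2.2.2)) ∂(ρN N)) -
        ∫ p, u p.1 * (v p.2.1 * w p.2.2) * g e N p.2.2 * h e' N (p.2.2 + (yA p.1 - yB p.2.1))
          ∂((bA N : Measure A).prod ((bB N : Measure B).prod (m N)))) l (𝓝 0)) :
    ∀ (e : K1 → ℝ) (e' : K2 → ℝ), TF e → TF e' → ∀ S : Set (A × (B × ℂ)), MeasurableSet S → S ⊆ D →
      ∫⁻ x in Prod.snd ⁻¹' S, ENNReal.ofReal (e x.1.1 * e' x.1.2) ∂ρ = ∫⁻ x in S, ENNReal.ofReal (c * g0 e x.2.2) *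
        ENNReal.ofReal (h0 e' (x.2.2 + (yA x.1 - yB x.2.1))) ∂((b1 : Measure A).prod ((b2 : Measure B).prod volume)) := by
  intro e e' he he'
  exact l3_one_fin (E := fun k : K1 × K2 => e k.1 * e' k.2) hA hB n1 n2 hm hyA hyB hinv (hg e he) (hg1 e he) (hg0 e he).1
    (hg0 e he).2.1 (hg0 e he).2.2.1 (hg0 e he).2.2.2 (hh e' he') hC' (hhb e' he') (hh0 e' he').1 (hh0 e' he').2.1
    (hh0 e' he').2.2 hD (he.pair he').1 (he.pair he').2 (fun u v w hu hv hw hs => hlim e e' u v w he he' hu hv hw hs)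
    fun u v w hu hv hw hs => hex e e' u v w he he' hu hv hw hs

/-- **the limit of the lattice formula, finite measures** -/
theorem l3_fin (hA : Tendsto bA U (𝓝 b1)) (hB : Tendsto bB U (𝓝 b2)) (n1 : b1 ≠ 0) (n2 : b2 ≠ 0)
    (hm : LM (U : Filter ℕ) m c) (hyA : Continuous yA) (hyB : Continuous yB)
    (hinv : ∀ᶠ N in (U : Filter ℕ), ∀ᵐ a ∂(bA N : Measure A), ∀ᵐ b ∂(bB N : Measure B),
      (m N).map (fun z => z + (yA a - yB b)) = m N)
    (hg : ∀ e, TF e → BF (U : Filter ℕ) (g e) C R) (hg1 : ∀ e, TF e → AL1 (U : Filter ℕ) m (g e))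
    (hh : ∀ e, TF e → ∀ N, Measurable (h e N)) (hC' : 0 ≤ C')
    (hhb : ∀ e, TF e → ∀ᶠ N in (U : Filter ℕ), ∀ z, 0 ≤ h e N z ∧ h e N z ≤ C') (hD : IsOpen D)
    (hlim : ∀ (e : K1 → ℝ) (e' : K2 → ℝ) (u : A → ℝ) (v : B → ℝ) (w : ℂ → ℝ), TF e → TF e' → TF u → TF v → TF w →
      Mar D u v w → Tendsto (fun N => ∫ x, e x.1.1 * e' x.1.2 * (u x.2.1 * (v x.2.2.1 * w x.2.2.2)) ∂(ρN N)) U
        (𝓝 (∫ x, e x.1.1 * e' x.1.2 * (u x.2.1 * (v x.2.2.1 * w x.2.2.2)) ∂ρ)))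
    (hex : ∀ (e : K1 → ℝ) (e' : K2 → ℝ) (u : A → ℝ) (v : B → ℝ) (w : ℂ → ℝ), TF e → TF e' → TF u → TF v → TF w →
      Mar D u v w → Tendsto (fun N => (∫ x, e x.1.1 * e' x.1.2 * (u x.2.1 * (v x.2.2.1 * w x.2.2.2)) ∂(ρN N)) -
        ∫ p, u p.1 * (v p.2.1 * w p.2.2) * g e N p.2.2 * h e' N (p.2.2 + (yA p.1 - yB p.2.1))
          ∂((bA N : Measure A).prod ((bB N : Measure B).prod (m N)))) U (𝓝 0)) :
    ∃ (g1 h1 : ℂ → ℝ) (κ : Kernel ℂ K1) (κ' : Kernel ℂ K2), L3Out (U : Filter ℕ) m c (g fun _ => 1) (h fun _ => 1) C R C' ρ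
      ((b1 : Measure A).prod ((b2 : Measure B).prod volume)) D yA yB g1 h1 κ κ' := by
  obtain ⟨g0, hg0⟩ := side_g hm hg
  obtain ⟨h0, hh0⟩ := side_h hm hh hC' hhb
  exact l3_ker hyA.measurable hyB.measurable hD.measurableSet hg0 hh0
    (l3_base hA hB n1 n2 hm hyA hyB hinv hg hg1 hg0 hh hC' hhb hh0 hD hlim hex)

end fin

section out

variable {K1 K2 A B : Type*} [MeasurableSpace K1] [MeasurableSpace K2] [MeasurableSpace A] [MeasurableSpace B]
  {l : Filter ℕ} {m : ℕ → Measure ℂ} {c : ℝ} {gN hN : ℕ → ℂ → ℝ} {C R C' : ℝ} {ρ : Measure ((K1 × K2) × (A × (B × ℂ)))}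
  {μ : Measure (A × (B × ℂ))} {D : Set (A × (B × ℂ))} {yA : A → ℂ} {yB : B → ℂ} {g1 h1 : ℂ → ℝ} {κ : Kernel ℂ K1}
  {κ' : Kernel ℂ K2}

/-- the density, any function of the two connections -/
theorem L3Out.dens (o : L3Out l m c gN hN C R C' ρ μ D yA yB g1 h1 κ κ') {Φ : K1 × K2 → ℝ≥0∞} (hΦ : Measurable Φ) :
    Den ρ μ D (zw yA yB) Φ := by
  have := o.mar
  have := o.mar'
  obtain ⟨Q, hQ⟩ : ∃ Q : Kernel (ℂ × ℂ) (K1 × K2), Q = (κ.comap Prod.fst measurable_fst) ×ₖ (κ'.comap Prod.snd measurable_snd) :=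
    ⟨_, rfl⟩
  have hQx : ∀ s : ℂ × ℂ, Q s = (κ s.1).prod (κ' s.2) := fun s => by
    rw [hQ, Kernel.prod_apply, Kernel.comap_apply, Kernel.comap_apply]
  refine ⟨fun s => (ENNReal.ofReal (c * g1 s.1) * ENNReal.ofReal (h1 s.2)) * ∫⁻ k, Φ k ∂(Q s),
    ((((o.gm.comp measurable_fst).const_mul c).ennreal_ofReal).mul (o.hm.comp measurable_snd).ennreal_ofReal).mul
      hΦ.lintegral_kernel, fun S hS hSD => ?_⟩
  rw [o.den S hS hSD Φ hΦ]
  refine lintegral_congr fun x => ?_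
  have e1 : x.2.2 + (yA x.1 - yB x.2.1) = x.2.2 + yA x.1 - yB x.2.1 := by ring
  rw [e1]
  have e2 := hQx (zw yA yB x)
  show _ = (ENNReal.ofReal (c * g1 (zw yA yB x).1) * ENNReal.ofReal (h1 (zw yA yB x).2)) * ∫⁻ k, Φ k ∂(Q (zw yA yB x))
  rw [e2]
  rfl

/-- the product form -/
theorem L3Out.densP (hc : 0 ≤ c) (o : L3Out l m c gN hN C R C' ρ μ D yA yB g1 h1 κ κ') {Φ : K1 → ℝ≥0∞} (hΦ : Measurable Φ)
    {Ψ : K2 → ℝ≥0∞} (hΨ : Measurable Ψ) : DenP ρ μ D (zw yA yB) Φ Ψ := by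
  obtain ⟨G, H, kG, kH, -, -, -, -, -, key⟩ := o.prod hc
  refine ⟨G Φ, H Ψ, kG Φ hΦ, kH Ψ hΨ, fun S hS hSD => ?_⟩
  rw [key S hS hSD Φ Ψ hΦ hΨ]
  refine lintegral_congr fun x => ?_
  have e1 : x.2.2 + (yA x.1 - yB x.2.1) = x.2.2 + yA x.1 - yB x.2.1 := by ring
  rw [e1]
  rfl

/-- **the density does not vanish** -/
theorem L3Out.pos {b1 : Measure A} {b2 : Measure B} [SFinite b1] [SFinite b2] (hc : 0 < c)
    (o : L3Out l m c gN hN C R C' ρ (b1.prod (b2.prod volume)) D yA yB g1 h1 κ κ') (hyA : Measurable yA) (hyB : Measurable yB)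
    (hD : MeasurableSet D) {Z W : Set ℂ} (hDZ : ∀ x ∈ D, (zw yA yB x).1 ∈ Z ∧ (zw yA yB x).2 ∈ W)
    (hg : ∀ᵐ z ∂(volume : Measure ℂ), z ∈ Z → 0 < g1 z) (hh : ∀ᵐ z ∂(volume : Measure ℂ), z ∈ W → 0 < h1 z) :
    (b1.prod (b2.prod volume)).restrict D ≪ ρ.map Prod.snd := by
  have := o.mar
  have := o.mar'
  obtain ⟨N1, s1, q1, z1⟩ := exists_measurable_superset_of_null (ae_iff.1 hg)
  obtain ⟨N2, s2, q2, z2⟩ := exists_measurable_superset_of_null (ae_iff.1 hh)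
  have n1 : (b1.prod (b2.prod volume)) {p : A × (B × ℂ) | p.2.2 ∈ N1} = 0 := null_z z1
  have n2 : (b1.prod (b2.prod volume)) {p : A × (B × ℂ) | (zw yA yB p).2 ∈ N2} = 0 := null_w hyA hyB q2 z2
  refine Measure.AbsolutelyContinuous.mk fun S hS h0 => ?_
  rw [Measure.map_apply measurable_snd hS] at h0
  rw [Measure.restrict_apply hS]
  have h2 := o.den (S ∩ D) (hS.inter hD) inter_subset_right (fun _ => 1) measurable_const
  have h3 : ∫⁻ x in Prod.snd ⁻¹' (S ∩ D), (1 : ℝ≥0∞) ∂ρ = 0 := by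
    rw [lintegral_const, one_mul, Measure.restrict_apply_univ]
    exact measure_mono_null (preimage_mono inter_subset_left) h0
  rw [h3] at h2
  have hme : Measurable fun x : A × (B × ℂ) => ENNReal.ofReal (c * g1 x.2.2) *
      ENNReal.ofReal (h1 (x.2.2 + (yA x.1 - yB x.2.1))) :=
    (((o.gm.comp (measurable_snd.comp measurable_snd)).const_mul c).ennreal_ofReal).mul ((o.hm.comp
      ((measurable_snd.comp measurable_snd).add ((hyA.comp measurable_fst).sub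
        (hyB.comp (measurable_fst.comp measurable_snd))))).ennreal_ofReal)
  have h4 : ∫⁻ x in S ∩ D, ENNReal.ofReal (c * g1 x.2.2) * ENNReal.ofReal (h1 (x.2.2 + (yA x.1 - yB x.2.1)))
      ∂(b1.prod (b2.prod volume)) = 0 := by
    rw [h2]
    refine lintegral_congr fun x => ?_
    simp
  rw [lintegral_eq_zero_iff hme] at h4
  have h5 : ∀ᵐ x ∂((b1.prod (b2.prod volume)).restrict (S ∩ D)), False := by
    have a1 : ∀ᵐ x ∂((b1.prod (b2.prod volume)).restrict (S ∩ D)), ¬ (x.2.2 ∈ N1) := by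
      refine ae_restrict_of_ae ?_
      rw [ae_iff]
      simpa using n1
    have a2 : ∀ᵐ x ∂((b1.prod (b2.prod volume)).restrict (S ∩ D)), ¬ ((zw yA yB x).2 ∈ N2) := by
      refine ae_restrict_of_ae ?_
      rw [ae_iff]
      simpa using n2
    filter_upwards [h4, a1, a2, ae_restrict_mem (hS.inter hD)] with x k1 k2 k3 k4
    have k5 := hDZ x k4.2
    have k6 : 0 < g1 x.2.2 := by
      by_contra hn
      exact k2 (s1 (by
        show ¬ (x.2.2 ∈ Z → 0 < g1 x.2.2)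
        exact fun hh => hn (hh k5.1)))
    have k7 : 0 < h1 (x.2.2 + (yA x.1 - yB x.2.1)) := by
      have e1 : x.2.2 + (yA x.1 - yB x.2.1) = (zw yA yB x).2 := by
        show x.2.2 + (yA x.1 - yB x.2.1) = x.2.2 + yA x.1 - yB x.2.1
        ring
      rw [e1]
      by_contra hn
      exact k3 (s2 (by
        show ¬ ((zw yA yB x).2 ∈ W → 0 < h1 (zw yA yB x).2)
        exact fun hh => hn (hh k5.2)))
    have k8 : ENNReal.ofReal (c * g1 x.2.2) * ENNReal.ofReal (h1 (x.2.2 + (yA x.1 - yB x.2.1))) ≠ 0 :=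
      mul_ne_zero (ENNReal.ofReal_pos.2 (mul_pos hc k6)).ne' (ENNReal.ofReal_pos.2 k7).ne'
    exact k8 k1
  rw [ae_iff] at h5
  simpa using h5

end out

section lat

open Pool.Agent.ROT.F3L (lms lpt)

/-- the lattice measures are invariant under the lattice -/
theorem lms_map_add (f : ℂ ≃ₗ[ℝ] ℂ) (s : ℝ) (t : ℂ) (u : ℤ × ℤ) :
    (lms f s t).map (fun z => z + lvec f s u) = lms f s t := by
  have hm : Measurable fun z : ℂ => z + lvec f s u := measurable_id.add_const _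
  refine Measure.ext fun S hS => ?_
  have e1 : ∀ T : Set ℂ, MeasurableSet T → lms f s t T =
      ∑' p : ℤ × ℤ, ENNReal.ofReal ((s ^ 2)⁻¹) * T.indicator 1 (lpt f s t p) := by
    intro T hT
    rw [lms, Measure.sum_apply _ hT]
    refine tsum_congr fun p => ?_
    rw [Measure.smul_apply, Measure.dirac_apply' _ hT, smul_eq_mul]
  rw [Measure.map_apply hm hS, e1 _ (hm hS), e1 _ hS,
    ← (Equiv.addLeft u).tsum_eq fun p => ENNReal.ofReal ((s ^ 2)⁻¹) * S.indicator 1 (lpt f s t p)]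
  refine tsum_congr fun p => ?_
  rw [Equiv.coe_addLeft, lpt_add]
  rfl

/-- the form of `hinv`: displacements in the lattice -/
theorem lms_hinv (f : ℂ ≃ₗ[ℝ] ℂ) {s : ℝ} (hs : 0 < s) {v : ℂ} (hv : (s : ℂ) * v ∈ Lat f) :
    (lms f s 0).map (fun z => z + v) = lms f s 0 := by
  obtain ⟨u, hu⟩ := mem_range_lpt f hs hv
  rw [lpt_zero] at hu
  rw [← hu]
  exact lms_map_add f s 0 u

end lat

end Pool.Agent.ROT.F3
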