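import Pool.Agent.ROT.F3HexW
import Pool.Agent.ROT.F3GamL
import Pool.Agent.ROT.F3LimE
import Pool.Agent.ROT.F3ClsT
import Pool.Agent.ROT.F3Fin

/-!
# F3, route NL, row K5 (helper55): the lattice identity for the classes, both lattices

* `fv v` : the lattice of the even vertices turned by `v`; `lms_turn`; **`bf_turn`, `al1_turn`** : `BF`, `AL1` for the turned lattice;
  **`gN_bf`, `gN_al1`** : for `gN`, from `GamH` (helper69);
* **`hinv_words`** : the hypothesis `hinv` of `l3_base`, `l3_fin`;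
* `gam_fin_cls`, `ms_fin_cls`, `lat_cls`, `nrm_cls` : finiteness, lattice, normalisation for the classes of F3Cls;
* **`hexIn_cls`** : the inputs of the exact identity for the classes of F3Cls.
-/

set_option autoImplicit false

open MeasureTheory Set Filter Topology

open scoped ENNReal Classical

namespace Pool.Agent.ROT.F3

open Pool.Agent.ROT.F3L

/-! ### 1. The turned lattice -/

/-- the lattice of the even vertices, turned by `v` -/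
noncomputable def fv (v : ℂ) (hv : v ≠ 0) : ℂ ≃ₗ[ℝ] ℂ := fE.trans ((LinearEquiv.smulOfNeZero ℂ ℂ v hv).restrictScalars ℝ)

lemma fv_apply (v : ℂ) (hv : v ≠ 0) (z : ℂ) : fv v hv z = v * fE z := rfl

lemma mem_lat_fv {v : ℂ} (hv : v ≠ 0) {z : ℂ} : v * z ∈ Lat (fv v hv) ↔ z ∈ EL := by
  rw [← lat_fE]
  constructor
  · rintro ⟨p, hp⟩
    refine ⟨p, ?_⟩
    simp only [fv_apply] at hp
    exact mul_left_cancel₀ hv hp
  · rintro ⟨p, rfl⟩
    exact ⟨p, rfl⟩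

lemma neg_mem_lat_fv {v : ℂ} (hv : v ≠ 0) {z : ℂ} (hz : z ∈ EL) : -(v * z) ∈ Lat (fv v hv) := by
  rw [← mul_neg]
  exact (mem_lat_fv hv).2 (EL_neg hz)

/-- minus the turn, as a homeomorphism -/
noncomputable def tv (v : ℂ) (hv : v ≠ 0) : ℂ ≃ₜ ℂ := Homeomorph.mulLeft₀ (-v) (neg_ne_zero.2 hv)

lemma tv_apply (v : ℂ) (hv : v ≠ 0) (z : ℂ) : tv v hv z = -v * z := rfl

/-- the turned lattice measure -/
theorem lms_turn (v : ℂ) (hv : v ≠ 0) (s : ℝ) : (lms fE s 0).map (tv v hv) = lms (fv v hv) s 0 := by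
  have hm : Measurable (tv v hv) := (tv v hv).continuous.measurable
  refine Measure.ext fun S hS => ?_
  have e1 : ∀ (f : ℂ ≃ₗ[ℝ] ℂ) (T : Set ℂ), MeasurableSet T → lms f s 0 T =
      ∑' p : ℤ × ℤ, ENNReal.ofReal ((s ^ 2)⁻¹) * T.indicator 1 (lpt f s 0 p) := by
    intro f T hT
    rw [lms, Measure.sum_apply _ hT]
    refine tsum_congr fun p => ?_
    rw [Measure.smul_apply, Measure.dirac_apply' _ hT, smul_eq_mul]
  rw [Measure.map_apply hm hS, e1 _ _ (hm hS), e1 _ _ hS,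
    ← (Equiv.neg (ℤ × ℤ)).tsum_eq fun p => ENNReal.ofReal ((s ^ 2)⁻¹) * S.indicator 1 (lpt (fv v hv) s 0 p)]
  refine tsum_congr fun p => ?_
  congr 1
  have e2 : lpt (fv v hv) s 0 (Equiv.neg (ℤ × ℤ) p) = tv v hv (lpt fE s 0 p) := by
    rw [tv_apply, Equiv.neg_apply]
    unfold lpt
    rw [fv_apply]
    have e3 : (⟨((-p).1 : ℤ), ((-p).2 : ℤ)⟩ : ℂ) = -⟨(p.1 : ℤ), (p.2 : ℤ)⟩ := by
      apply Complex.ext <;> simp
    rw [e3, map_neg]
    ring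
  rw [e2]
  rfl

lemma turn_mp (v : ℂ) (hv : v ≠ 0) (s : ℝ) : MeasurePreserving (tv v hv) (lms fE s 0) (lms (fv v hv) s 0) :=
  ⟨(tv v hv).continuous.measurable, lms_turn v hv s⟩

section turn

variable {l : Filter ℕ} {v : ℂ} (hv : ‖v‖ = 1) {s : ℕ → ℝ} {g : ℕ → ℂ → ℝ} {C R : ℝ}

include hv

lemma ne_of_norm : v ≠ 0 := by
  intro h
  rw [h, norm_zero] at hv
  exact zero_ne_one hv

/-- **`BF` for the turned lattice** -/
theorem bf_turn (h : BF l g C R) : BF l (fun N z => g N (-(v⁻¹ * z))) C R := by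
  refine ⟨fun N => (h.meas N).comp (by fun_prop), ?_, ?_, h.C0, h.R0⟩
  · filter_upwards [h.bd] with N hN z
    exact hN _
  · filter_upwards [h.supp] with N hN z hz
    refine hN _ ?_
    rwa [norm_neg, norm_mul, norm_inv, hv, inv_one, one_mul]

/-- **`AL1` for the turned lattice** -/
theorem al1_turn (h : AL1 l (fun N => lms fE (s N) 0) g) :
    AL1 l (fun N => lms (fv v (ne_of_norm hv)) (s N) 0) (fun N z => g N (-(v⁻¹ * z))) := by
  have hv0 := ne_of_norm hv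
  intro ε hε
  obtain ⟨δ₀, hδ₀, h1⟩ := h ε hε
  refine ⟨δ₀, hδ₀, fun δ hδ hδ1 => ?_⟩
  filter_upwards [h1 δ hδ hδ1] with N hN
  refine le_trans (le_of_eq ?_) hN
  have mp := turn_mp v hv0 (s N)
  have he : MeasurableEmbedding (tv v hv0) := (tv v hv0).measurableEmbedding
  have hg : ∀ y : ℂ, -(v⁻¹ * (tv v hv0 y)) = y := by
    intro y
    rw [tv_apply]
    field_simp
  rw [← mp.integral_comp he]
  refine integral_congr_ae (ae_of_all _ fun z => ?_)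
  show ∫ y in Metric.closedBall (tv v hv0 z) δ, |g N (-(v⁻¹ * y)) - g N (-(v⁻¹ * tv v hv0 z))|
    ∂(lms (fv v hv0) (s N) 0) = ∫ y in Metric.closedBall z δ, |g N y - g N z| ∂(lms fE (s N) 0)
  rw [← mp.setIntegral_preimage_emb he]
  have e1 : tv v hv0 ⁻¹' Metric.closedBall (tv v hv0 z) δ = Metric.closedBall z δ := by
    ext y
    rw [mem_preimage, Metric.mem_closedBall, Metric.mem_closedBall, dist_eq_norm, dist_eq_norm, tv_apply, tv_apply, ← mul_sub,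
      norm_mul, norm_neg, hv, one_mul]
  rw [e1]
  simp only [hg]

omit hv in
/-- the function `gN` and its form for the lattice `fE` -/
lemma gN_eq {K : Type*} (C : ℕ → Set (W3 × W3)) (E : ℕ → W3 × W3 → ℝ≥0∞) (κ : ℕ → W3 × W3 → K) (α s : ℕ → ℝ) (v : ℂ)
    (e : K → ℝ) (N : ℕ) (z : ℂ) : gN C E κ α s v e N z =
      scl (α N) (s N) (fun z => (gam (C N) (fun a => E N a * ENNReal.ofReal (e (κ N a))) z).toReal) (-(v⁻¹ * z)) := by
  unfold gN scl Gm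
  congr 3
  ring

/-- **`BF` for `gN`** -/
theorem gN_bf {K : Type*} {C : ℕ → Set (W3 × W3)} {E : ℕ → W3 × W3 → ℝ≥0∞} {κ : ℕ → W3 × W3 → K} {α : ℕ → ℝ} {e : K → ℝ}
    {tot : ℕ → ℝ≥0∞} {B R c : ℝ} (H : GamH l s C (fun N a => E N a * ENNReal.ofReal (e (κ N a))) tot B R) (hs0 : ∀ N, 0 < s N)
    (hB : 0 ≤ B) (hc : 0 ≤ c) (hR : 0 ≤ R) (ha : ∀ᶠ N in l, 0 ≤ α N ∧ α N * (tot N).toReal ≤ c * s N ^ 2) :
    BF l (gN C E κ α s v e) (c * B) R := by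
  have h1 := bf_turn hv (H.bf hs0 hB hc hR ha)
  have e1 : gN C E κ α s v e = fun N z =>
      scl (α N) (s N) (fun z => (gam (C N) (fun a => E N a * ENNReal.ofReal (e (κ N a))) z).toReal) (-(v⁻¹ * z)) := by
    funext N z
    exact gN_eq C E κ α s v e N z
  rw [e1]
  exact h1

/-- **`AL1` for `gN`** -/
theorem gN_al1 {K : Type*} {C : ℕ → Set (W3 × W3)} {E : ℕ → W3 × W3 → ℝ≥0∞} {κ : ℕ → W3 × W3 → K} {α : ℕ → ℝ} {e : K → ℝ}
    {tot : ℕ → ℝ≥0∞} {B R c : ℝ} (H : GamH l s C (fun N a => E N a * ENNReal.ofReal (e (κ N a))) tot B R) (hs0 : ∀ N, 0 < s N)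
    (hs : Tendsto s l atTop) (hc : 0 ≤ c) (ha : ∀ᶠ N in l, 0 ≤ α N ∧ α N * (tot N).toReal ≤ c * s N ^ 2) :
    AL1 l (fun N => lms (fv v (ne_of_norm hv)) (s N) 0) (gN C E κ α s v e) := by
  have h1 := al1_turn hv (H.al1 hs0 hs hc ha)
  have e1 : gN C E κ α s v e = fun N z =>
      scl (α N) (s N) (fun z => (gam (C N) (fun a => E N a * ENNReal.ofReal (e (κ N a))) z).toReal) (-(v⁻¹ * z)) := by
    funext N z
    exact gN_eq C E κ α s v e N z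
  rw [e1]
  exact h1

end turn

/-! ### 2. Invariance of the lattice measures -/

/-- almost everywhere for the law of the rests -/
lemma bW_ae {A : Type*} [MeasurableSpace A] [MeasurableSingletonClass A] {Rs : Set W3} {F : W3 → ℝ≥0∞} {β : ℝ≥0∞}
    {arc : W3 → A} {p : A → Prop} (h : ∀ R ∈ Rs, p (arc R)) : ∀ᵐ x ∂(bW Rs F β arc), p x := by
  unfold bW
  rw [Measure.ae_sum_iff]
  intro R
  by_cases hR : R ∈ Rs
  · rw [if_pos hR]
    refine Measure.ae_smul_measure ?_ _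
    rw [ae_dirac_eq]
    exact h R hR
  · rw [if_neg hR, zero_smul]
    exact ae_zero ▸ trivial

/-- **the hypothesis `hinv`** -/
theorem hinv_words {v : ℂ} (hv : v ≠ 0) {s T : ℝ} (hs : 0 < s) {RA RB : Set W3} {F G : W3 → ℝ≥0∞} {βA βB : ℝ≥0∞}
    (eA : ∀ R ∈ RA, Even R.length) (eB : ∀ R ∈ RB, Even R.length) :
    ∀ᵐ a ∂(bW RA F βA (arW v s T)), ∀ᵐ b ∂(bW RB G βB (arW v s T)),
      (lms (fv v hv) s 0).map (fun z => z + ((fun r : C(unitInterval, ℂ) × ℝ => -(r.1 1 - r.1 0)) a -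
        (fun r : C(unitInterval, ℂ) × ℝ => -(r.1 1 - r.1 0)) b)) = lms (fv v hv) s 0 := by
  refine bW_ae fun R hR => bW_ae fun S hS => lms_hinv (fv v hv) hs ?_
  show (s : ℂ) * (-((arW v s T R).1 1 - (arW v s T R).1 0) - -((arW v s T S).1 1 - (arW v s T S).1 0)) ∈ _
  rw [arW_dsp, arW_dsp]
  have h0 : (s : ℂ) ≠ 0 := by exact_mod_cast hs.ne'
  have e : (s : ℂ) * (((s⁻¹ : ℝ) : ℂ) * -(v * en R) - ((s⁻¹ : ℝ) : ℂ) * -(v * en S)) = -(v * (en R - en S)) := by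
    push_cast
    field_simp
    ring
  rw [e]
  exact neg_mem_lat_fv hv (EL_sub (en_EL (eA R hR)) (en_EL (eB S hS)))

/-! ### 3. Finiteness and lattice for the classes -/

lemma ps_le_len (w : W3) : ∀ k : ℕ, k ≤ w.length → ‖ps w k‖ ≤ k := by
  intro k
  induction k with
  | zero =>
    intro _
    simp
  | succ k ih =>
    intro hk
    rw [ps_succ, st_of_lt (by omega : k < w.length)]
    refine (norm_add_le _ _).trans ?_
    have h1 := ih (by omega)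
    have h2 := norm_step k (w.get ⟨k, by omega⟩)
    push_cast
    linarith

lemma swb_of_len {w : W3} {K : ℝ} (h : SW w) (hK : (w.length : ℝ) ≤ K) : w ∈ SWb K :=
  ⟨h, fun k hk => (ps_le_len w k hk).trans ((Nat.cast_le.2 hk).trans hK)⟩

section cls

variable {d1 d2 d1' d2' : ℂ} {P P' Q Q' : Tp} {W W' : Wn} {S T : ℝ} {C C' : Set (W3 × W3)} {RA RB : Set W3}

lemma PreM.len {d : ℂ} {p : W3} {k : ℕ} (h : PreM d P S T p k) : (p.length : ℝ) ≤ (P.la + P.lb) * T := by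
  have h1 := h.la
  have h2 := h.lb
  have h3 := h.g.le
  rw [List.length_drop, Nat.cast_sub h3] at h2
  linarith

/-- the weights of the connections are finite -/
theorem gam_fin_cls {E : W3 × W3 → ℝ≥0∞} (hC : C ⊆ Pai d1 d2 P P' S T) (hE : ∀ a, E a ≠ ∞) : ∑' z : ℂ, gam C E z ≠ ∞ := by
  refine gam_fin (K := max ((P.la + P.lb) * T) ((P'.la + P'.lb) * T)) (fun a ha _ => ?_) hE
  obtain ⟨k1, k2, h⟩ := hC ha
  exact ⟨swb_of_len h.p1.tip.sw (h.p1.len.trans (le_max_left _ _)), swb_of_len h.p2.tip.sw (h.p2.len.trans (le_max_right _ _))⟩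

/-- the masses of the rests are finite -/
theorem ms_fin_cls {F : W3 → ℝ≥0∞} (hR : RA ⊆ Rst d1 d1' P Q W S T) (hF : ∀ R, F R ≠ ∞) : ms RA F ≠ ∞ :=
  ms_fin (K := W.t1 * T) (fun _ hw _ => swb_of_len (hR hw).sw (hR hw).hi) hF

/-- the displacements are in the lattice -/
theorem lat_cls {E : W3 × W3 → ℝ≥0∞} {v : ℂ} (hv : v ≠ 0) (hC : C ⊆ Pai d1 d2 P P' S T) (z : ℂ) (hz : gam C E z ≠ 0) :
    -(v * z) ∈ Lat (fv v hv) := by
  refine gam_lat (fun a ha => ?_) z hz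
  obtain ⟨k1, k2, h⟩ := hC ha
  exact neg_mem_lat_fv hv (EL_sub (en_EL h.p1.tip.ev) (en_EL h.p2.tip.ev))

/-- the normalisation: `beta = N ^ (-3/4)`, `alpha = N ^ 2 / tot`, `alpha' = N ^ (5/6) tot` -/
lemma nrm_cls {N : ℕ} (hN : 0 < N) {t : ℝ} (ht : 0 < t) : ENNReal.ofReal ((N : ℝ) ^ (-(2 / 3) : ℝ)) =
    ENNReal.ofReal ((N : ℝ) ^ (-(3 / 4) : ℝ)) * ENNReal.ofReal ((N : ℝ) ^ (-(3 / 4) : ℝ)) *
      (ENNReal.ofReal (((N : ℝ) ^ 2)⁻¹) * (ENNReal.ofReal ((N : ℝ) ^ 2 / t) * ENNReal.ofReal ((N : ℝ) ^ (5 / 6 : ℝ) * t))) := by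
  have h0 : (0 : ℝ) < N := by exact_mod_cast hN
  rw [← ENNReal.ofReal_mul (by positivity), ← ENNReal.ofReal_mul (by positivity), ← ENNReal.ofReal_mul (by positivity),
    ← ENNReal.ofReal_mul (by positivity)]
  congr 1
  have e1 : (N : ℝ) ^ (-(3 / 4) : ℝ) * (N : ℝ) ^ (-(3 / 4) : ℝ) * (((N : ℝ) ^ 2)⁻¹ * ((N : ℝ) ^ 2 / t * ((N : ℝ) ^ (5 / 6 : ℝ) * t))) =
      (N : ℝ) ^ (-(3 / 4) : ℝ) * (N : ℝ) ^ (-(3 / 4) : ℝ) * (N : ℝ) ^ (5 / 6 : ℝ) := by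
    field_simp
  rw [e1, ← Real.rpow_add h0, ← Real.rpow_add h0]
  norm_num

/-- **the inputs of the exact identity for the classes** -/
theorem hexIn_cls {K1 K2 : Type*} [MeasurableSpace K1] [MeasurableSpace K2] {N : ℕ} {b : ℝ} {y y' z z' : ℝ}
    {E E' : W3 × W3 → ℝ≥0∞} {F G : W3 → ℝ≥0∞} {w : W3 × ℕ → ℝ≥0∞}
    {m : W3 × ℕ → (K1 × K2) × ((C(unitInterval, ℂ) × ℝ) × ((C(unitInterval, ℂ) × ℝ) × ℂ))} {κ : W3 × W3 → K1}
    {κ' : W3 × W3 → K2} {v : ℂ} {hv : v ≠ 0} {t : ℝ} (hN : 0 < N) (ht : 0 < t) (hP : P.Ok) (hQ : Q.Ok)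
    (hy : 0 ≤ y) (hy' : 0 ≤ y') (hz : 0 ≤ z) (hz' : 0 ≤ z')
    (hd : ‖d1 + d2‖ ≤ 1) (hd' : ‖d1' + d2'‖ ≤ 1) (n1 : ‖d1‖ = 1) (n2 : ‖d2‖ = 1) (n1' : ‖d1'‖ = 1) (n2' : ‖d2'‖ = 1)
    (hC : C ⊆ Pai d1 d2 (P.up y) (P.up y') N T) (hC' : C' ⊆ Pai d1' d2' (Q.up z) (Q.up z') N T)
    (hA : RA ⊆ Rst d1 d1' P Q W N T) (hB : RB ⊆ Rst d2 d2' P Q W' N T) (hD : 2 * (P.rad + Q.rad) < W.D0)
    (hD' : 2 * (P.rad + Q.rad) < W'.D0) (fE : ∀ a, E a ≠ ∞) (fE' : ∀ a, E' a ≠ ∞) (fF : ∀ a, F a ≠ ∞) (fG : ∀ a, G a ≠ ∞)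
    (hs : SpH (PrH C C' RA RB E E' F G) N b)
    (hr : Rd C C' RA RB w m (fun a R c S => E a * E' c * (F R * G S)) (MM κ κ' (arW v N T) (arW v N T) v N)) :
    HexIn N b C C' RA RB E E' F G w m κ κ' (arW v N T) (arW v N T) (fun r => -(r.1 1 - r.1 0)) (fun r => -(r.1 1 - r.1 0)) v N
      (fv v hv) (ENNReal.ofReal ((N : ℝ) ^ (-(3 / 4) : ℝ))) (ENNReal.ofReal ((N : ℝ) ^ (-(3 / 4) : ℝ))) ((N : ℝ) ^ 2 / t)
      ((N : ℝ) ^ (5 / 6 : ℝ) * t) where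
  hyp := hyp_cls hP hQ (by exact_mod_cast hN) hy hy' hz hz' hd hd' n1 n2 n1' n2' hC hC' hA hB hD hD'
  sp := hs
  rd := hr
  v0 := hv
  s0 := by exact_mod_cast hN
  bA := ENNReal.ofReal_ne_top
  bB := ENNReal.ofReal_ne_top
  mA := ms_fin_cls hA fF
  mB := ms_fin_cls hB fG
  a0 := by positivity
  a0' := by positivity
  nrm := nrm_cls hN ht
  gf := ENNReal.ne_top_of_tsum_ne_top (gam_fin_cls hC fE)
  gf' := ENNReal.ne_top_of_tsum_ne_top (gam_fin_cls hC' fE')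
  lat := lat_cls hv hC
  yA := fun R _ => arW_dsp v N T R
  yB := fun R _ => arW_dsp v N T R

end cls

end Pool.Agent.ROT.F3
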