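import Pool.Agent.ROT.F3K7Lc

/-!
# ROT, block F3, row K7 (LOC): the gates of the limit curves are local (helper66)

* `tcL p φ` : the absolute time of the mark `φ` (relative time, negative = none) of the strand `p`;
* **`loc_mono`** : `LMo` of F3LocA (helper28) for two strands of two closed curves in the sets `LocG` (full measure, `locG_ae`) with
  equal pieces: every gate of the first strand gives a gate of the second strand for smaller levels over the beginning of the piece, not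
  later; windows up to the distance of the places. No hypothesis on jumps, all levels and all windows of a countable set at once.
-/

set_option autoImplicit false

open Set Filter Topology MeasureTheory

namespace Pool.Agent.ROT.F3.K7

open Pool.Agent.NTS.Res (step pos saw fug size curve)
open Pool.Agent.CRT (CI)
open Pool.Agent.SCF.Z Pool.Agent.SCF.M
open Pool.Agent.ROT.F3.LR (Qg LMo)

/-- the absolute time of a mark -/
noncomputable def tcL (p : ℝ × CI) (φ : ℝ) : ℝ := if 0 ≤ φ then φ * p.1 else -1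

lemma tcL_of {p : ℝ × CI} {φ : ℝ} (h : 0 ≤ φ) : tcL p φ = φ * p.1 := if_pos h

lemma tcL_nn {p : ℝ × CI} {φ : ℝ} (h : 0 ≤ tcL p φ) : 0 ≤ φ := by
  by_contra hcon
  unfold tcL at h
  rw [if_neg hcon] at h
  linarith

section

variable {R R2 z η t e : ℝ} {p : ℝ × CI} {N : ℕ} {w : W3} {i m c : ℕ}

/-- absolute times of the marks of a word near the strand -/
lemma mark_abs (A : Apx R R2 z η p t e N w i m) (hc : c ≤ w.length) {φ : ℝ} (h : |(c : ℝ) / w.length - φ| ≤ η) (hp : 0 ≤ p.1) :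
    |(c : ℝ) / (N : ℝ) ^ (4 / 3 : ℝ) - φ * p.1| ≤ (1 + p.1) * η := by
  have hN0 : (0 : ℝ) < N := by exact_mod_cast A.N1
  have hT : 0 < (N : ℝ) ^ (4 / 3 : ℝ) := by positivity
  have hl0 : (0 : ℝ) < w.length := by exact_mod_cast A.len
  have h1 : |(w.length : ℝ) / (N : ℝ) ^ (4 / 3 : ℝ) - p.1| ≤ η := by
    have : dist (XS (N : ℝ) w.get).1 p.1 ≤ η := (le_max_left _ _).trans A.d
    rwa [Real.dist_eq] at this
  have h2 : (c : ℝ) / w.length ≤ 1 := by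
    rw [div_le_one hl0]
    exact_mod_cast hc
  have e : (c : ℝ) / (N : ℝ) ^ (4 / 3 : ℝ) - φ * p.1 =
      (c : ℝ) / w.length * ((w.length : ℝ) / (N : ℝ) ^ (4 / 3 : ℝ) - p.1) + p.1 * ((c : ℝ) / w.length - φ) := by
    field_simp
    ring
  rw [e]
  have h3 : |(c : ℝ) / w.length * ((w.length : ℝ) / (N : ℝ) ^ (4 / 3 : ℝ) - p.1)| ≤ 1 * η := by
    rw [abs_mul, abs_of_nonneg (by positivity : 0 ≤ (c : ℝ) / w.length)]
    exact mul_le_mul h2 h1 (abs_nonneg _) zero_le_one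
  have h4 : |p.1 * ((c : ℝ) / w.length - φ)| ≤ p.1 * η := by
    rw [abs_mul, abs_of_nonneg hp]
    exact mul_le_mul_of_nonneg_left h hp
  have h5 := abs_add_le ((c : ℝ) / w.length * ((w.length : ℝ) / (N : ℝ) ^ (4 / 3 : ℝ) - p.1)) (p.1 * ((c : ℝ) / w.length - φ))
  linarith

/-- the vertices of a word near the strand -/
lemma pos_abs (A : Apx R R2 z η p t e N w i m) (hc : c ≤ w.length) {δ ηp u : ℝ}
    (hmod : ∀ q : ℝ × CI, dist q p ≤ δ → ∀ u u' : ℝ, |u - u'| ≤ δ → ‖pa q u' - pa p u‖ ≤ ηp) (hη : η ≤ δ)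
    (h : |(c : ℝ) / (N : ℝ) ^ (4 / 3 : ℝ) - u| ≤ δ) : ‖ps w c / (N : ℂ) - pa p u‖ ≤ ηp := by
  have hN0 : (0 : ℝ) < N := by exact_mod_cast A.N1
  have h1 := hmod (XS (N : ℝ) w.get) (A.d.trans hη) u ((c : ℝ) / (N : ℝ) ^ (4 / 3 : ℝ)) (by rwa [abs_sub_comm])
  rw [pa_XS A.len hN0 w.get hc, pos_get] at h1
  exact_mod_cast h1

/-- the duration of the piece -/
lemma dur_abs (A : Apx R R2 z η p t e N w i m) (hη : η ≤ 1) (he : e ≤ p.1) : (m : ℝ) / (N : ℝ) ^ (4 / 3 : ℝ) ≤ p.1 + 1 := by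
  have hN0 : (0 : ℝ) < N := by exact_mod_cast A.N1
  have hT : 0 < (N : ℝ) ^ (4 / 3 : ℝ) := by positivity
  have h1 := (abs_le.1 A.te).2
  have h2 : (m : ℝ) / (N : ℝ) ^ (4 / 3 : ℝ) ≤ ((i + m : ℕ) : ℝ) / (N : ℝ) ^ (4 / 3 : ℝ) :=
    div_le_div_of_nonneg_right (by exact_mod_cast (show m ≤ i + m by omega)) hT.le
  linarith

/-- a first gate of the word from its mark -/
lemma gate_of_mark {q : Qg} {φ : ℝ} (h : |wc q N w - φ| ≤ η) (hφ : 0 ≤ φ) (hη : η < 1) (hr : q.r ≤ q.ρ) :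
    ∃ c : ℕ, TP (Dv w.get 0) (q.a * N) (q.r * N) (q.ρ * N) w.get c ∧ wc q N w = (c : ℝ) / w.length := by
  by_cases hex : ∃ c : ℕ, TP (Dv w.get 0) (q.a * N) (q.r * N) (q.ρ * N) w.get c
  · obtain ⟨c, hc⟩ := hex
    exact ⟨c, hc, mk1_of (Nat.cast_nonneg N) hr hc⟩
  · exfalso
    push Not at hex
    have h1 : wc q N w = -1 := mk1_no hex
    rw [h1] at h
    have := (abs_le.1 h).1
    linarith

/-- a double gate of the word from its mark -/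
lemma gates_of_mark {q : Qg} {φ : ℝ} (h : |wx q N w - φ| ≤ η) (hφ : 0 ≤ φ) (hη : η < 1) (hr : q.r ≤ q.ρ) (hr2 : q.r2 ≤ q.ρ2) :
    ∃ c x : ℕ, GB2 (Dv w.get 0) q.a q.r q.ρ q.m q.r2 q.ρ2 N w.get c x ∧ wc q N w = (c : ℝ) / w.length ∧
      wx q N w = (x : ℝ) / w.length := by
  by_cases hex : ∃ c x : ℕ, GB2 (Dv w.get 0) q.a q.r q.ρ q.m q.r2 q.ρ2 N w.get c x
  · obtain ⟨c, x, hc⟩ := hex
    exact ⟨c, x, hc, mk1_of (Nat.cast_nonneg N) hr hc.1, mkB_of (Nat.cast_nonneg N) hr hr2 hc⟩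
  · exfalso
    push Not at hex
    have h1 : wx q N w = -1 := mkB_no hex
    rw [h1] at h
    have := (abs_le.1 h).1
    linarith

lemma Ran.rρ {q : Qg} (h : Ran R R2 q) (hR : 0 < R) : q.r ≤ q.ρ := by
  linarith [h.ρ1, h.r]

lemma Ran.rρ2 {q : Qg} (h : Ran R R2 q) (hR2 : 0 < R2) : q.r2 ≤ q.ρ2 := by
  linarith [h.ρ21, h.r2]

end

/-- a limit of nonnegative marks -/
lemma nn_of {φ : ℝ} {η0 : ℝ} (hη0 : 0 < η0) (h : ∀ η : ℝ, 0 < η → η ≤ η0 → -η ≤ φ) : 0 ≤ φ := by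
  by_contra hcon
  push Not at hcon
  have h1 := h (min η0 (-φ / 2)) (lt_min hη0 (by linarith)) (min_le_left _ _)
  have h2 := min_le_right η0 (-φ / 2)
  linarith

/-- a limit of inequalities -/
lemma le_lim {a b C η0 : ℝ} (hη0 : 0 < η0) (h : ∀ η : ℝ, 0 < η → η ≤ η0 → a ≤ b + C * η) : a ≤ b := by
  by_contra hcon
  push Not at hcon
  obtain ⟨η, hη, h1, h2⟩ : ∃ η : ℝ, 0 < η ∧ η ≤ η0 ∧ |C| * η < a - b := by
    refine ⟨min η0 ((a - b) / (2 * (|C| + 1))), lt_min hη0 (div_pos (by linarith) (by positivity)), min_le_left _ _, ?_⟩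
    have h3 : |C| * min η0 ((a - b) / (2 * (|C| + 1))) ≤ |C| * ((a - b) / (2 * (|C| + 1))) :=
      mul_le_mul_of_nonneg_left (min_le_right _ _) (abs_nonneg _)
    refine h3.trans_lt ?_
    rw [mul_div_assoc', div_lt_iff₀ (by positivity)]
    nlinarith [abs_nonneg C]
  have h3 := h η hη h1
  have h4 : C * η ≤ |C| * η := mul_le_mul_of_nonneg_right (le_abs_self C) hη.le
  linarith

/-- **the gates of the limit curves are local**: one-sided comparison -/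
theorem loc_mono {b R R2 z : ℝ} {Gj : ℕ → ℕ → W3 × ℕ → Prop} (hG : GdSeq b R R2 Gj) {U : Ultrafilter ℕ}
    (hU : (U : Filter ℕ) ≤ atTop) (hR : 0 < R) (hR2 : 0 < R2) {T T' : LSym} {k k' : Arm} {zf zf' : ℕ → W3 × ℕ → ℝ}
    {Z Z' : ℝ × ℝ × CI → ℝ} {Φc Φx Φc' Φx' : Qg → ℝ × ℝ × CI → ℝ} (hzf : ∀ N x, zf N x = 0 ∨ zf N x = 1)
    (hzf' : ∀ N x, zf' N x = 0 ∨ zf' N x = 1) {Q : Set Qg} (hQ : ∀ q ∈ Q, Ran R R2 q) {g g' : ℝ × ℝ × CI}
    (hg : ∀ q ∈ Q, ∀ q2 ∈ Q, g ∈ LocG U Gj T k zf Z Φc Φx q q2) (hg' : ∀ q ∈ Q, ∀ q2 ∈ Q, g' ∈ LocG U Gj T' k' zf' Z' Φc' Φx' q q2)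
    (hZ : 0 < Z g) (hZ' : 0 < Z' g') (h0 : 0 < g.1) (h0' : 0 < g'.1) {t e t' e' : ℝ}
    (hP : PcL R (lsd T k g) t e) (hP2 : PcL R2 (lsd T k g) t e) (hP' : PcL R (lsd T' k' g') t' e')
    (hP2' : PcL R2 (lsd T' k' g') t' e') (hz : ∀ u ∈ Icc 0 t, ‖pa (lsd T k g) u‖ ≤ z)
    (hz' : ∀ u ∈ Icc 0 t', ‖pa (lsd T' k' g') u‖ ≤ z) (heq : ctp (lsd T k g) t e = ctp (lsd T' k' g') t' e')
    (hlev : ∀ q ∈ Q, (pa (lsd T k g) t).re + R / 8 < q.a) (hlev' : ∀ q ∈ Q, (pa (lsd T' k' g') t').re + R / 8 < q.a) :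
    LMo Q z R R2 t t' (pa (lsd T k g)) (pa (lsd T' k' g')) (fun q => tcL (lsd T k g) (Φc q g)) (fun q => tcL (lsd T k g) (Φx q g))
      (fun q => tcL (lsd T' k' g') (Φc' q g')) (fun q => tcL (lsd T' k' g') (Φx' q g')) := by
  obtain ⟨p, hp⟩ : ∃ p, p = lsd T k g := ⟨_, rfl⟩
  obtain ⟨p', hp'⟩ : ∃ p', p' = lsd T' k' g' := ⟨_, rfl⟩
  have hp0 : 0 < p.1 := by rw [hp]; linarith [hP.t0, hP.te, hP.e1]
  have hp0' : 0 < p'.1 := by rw [hp']; linarith [hP'.t0, hP'.te, hP'.e1]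
  have hz0 : 0 ≤ z := (norm_nonneg _).trans (hz 0 ⟨le_rfl, hP.t0⟩)
  obtain ⟨B, hB⟩ : ∃ B, B = p.1 + p'.1 + 1 := ⟨_, rfl⟩
  have he : e ≤ p.1 := by rw [hp]; exact hP.e1
  have he' : e' ≤ p'.1 := by rw [hp']; exact hP'.e1
  -- the basic construction
  have base : ∀ q ∈ Q, ∀ q' ∈ Q, ∀ q2 ∈ Q, q'.a - (pa p' t').re < q.a - (pa p t).re → ∀ ηp : ℝ, 0 < ηp → ∃ η0 : ℝ, 0 < η0 ∧ η0 ≤ 1 / 2 ∧
      ∀ η : ℝ, 0 < η → η ≤ η0 → ∃ (N : ℕ) (w w' : W3) (i m i' m' : ℕ) (β KK β' KK' θ ν : ℝ), Apx R R2 z η p t e N w i m ∧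
        Apx R R2 z η p' t' e' N w' i' m' ∧ 0 < θ ∧ θ ≤ η ∧ 0 < ν ∧ ν ≤ η ∧
        PcS β ν θ KK R N (md w.get i m) (md w'.get i' m') ∧ PcS β' ν θ KK' R2 N (md w.get i m) (md w'.get i' m') ∧
        |wc q N w - Φc q g| ≤ η ∧ |wx q N w - Φx q g| ≤ η ∧
        |wc q' N w' - Φc' q' g'| ≤ η ∧ |wx q' N w' - Φx' q' g'| ≤ η ∧ |wx q2 N w' - Φx' q2 g'| ≤ η ∧
        (ps w i).re + R / 8 * N ≤ q.a * N ∧ (ps w' i').re + R / 32 * N < q'.a * N ∧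
        q'.a * N - (ps w' i').re + 2 * θ * N ≤ q.a * N - (ps w i).re ∧
        (∀ (c : ℕ) (φ : ℝ), c ≤ w.length → |(c : ℝ) / w.length - φ| ≤ η → ‖ps w c / (N : ℂ) - pa p (φ * p.1)‖ ≤ ηp) ∧
        (∀ (c : ℕ) (φ : ℝ), c ≤ w'.length → |(c : ℝ) / w'.length - φ| ≤ η → ‖ps w' c / (N : ℂ) - pa p' (φ * p'.1)‖ ≤ ηp) ∧
        ‖ps w i / (N : ℂ) - pa p t‖ ≤ ηp ∧ ‖ps w' i' / (N : ℂ) - pa p' t'‖ ≤ ηp := by
    intro q hq q' hq' q2 hq2 hlt ηp hηp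
    obtain ⟨ηr, hηr, v1, v2, v3, v4⟩ : ∃ ηr : ℝ, 0 < ηr ∧ ηr ≤ ηp ∧ ηr ≤ q.a - (pa p t).re - R / 8 ∧
        ηr ≤ q'.a - (pa p' t').re - R / 8 ∧ ηr ≤ (q.a - (pa p t).re - (q'.a - (pa p' t').re)) / 4 := by
      have a1 : 0 < q.a - (pa p t).re - R / 8 := by
        have := hlev q hq
        rw [← hp] at this
        linarith
      have a2 : 0 < q'.a - (pa p' t').re - R / 8 := by
        have := hlev' q' hq'
        rw [← hp'] at this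
        linarith
      have a3 : 0 < (q.a - (pa p t).re - (q'.a - (pa p' t').re)) / 4 := by linarith
      exact ⟨min ηp (min (q.a - (pa p t).re - R / 8) (min (q'.a - (pa p' t').re - R / 8) ((q.a - (pa p t).re - (q'.a - (pa p' t').re)) / 4))),
        lt_min hηp (lt_min a1 (lt_min a2 a3)), min_le_left _ _, (min_le_right _ _).trans (min_le_left _ _),
        (min_le_right _ _).trans ((min_le_right _ _).trans (min_le_left _ _)),
        (min_le_right _ _).trans ((min_le_right _ _).trans (min_le_right _ _))⟩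
    obtain ⟨δ1, hδ1, n1⟩ := pa_near hp0 hηr
    obtain ⟨δ2, hδ2, n2⟩ := pa_near hp0' hηr
    obtain ⟨η0, hη0, u1, u2, u3, u4, u5⟩ : ∃ η0 : ℝ, 0 < η0 ∧ η0 ≤ 1 / 2 ∧ η0 ≤ δ1 / (1 + p.1) ∧ η0 ≤ δ2 / (1 + p'.1) ∧
        η0 ≤ (q.a - (pa p t).re - (q'.a - (pa p' t').re)) / 4 ∧ η0 ≤ 1 / 2 := by
      have a3 : 0 < (q.a - (pa p t).re - (q'.a - (pa p' t').re)) / 4 := by linarith
      exact ⟨min (1 / 2) (min (δ1 / (1 + p.1)) (min (δ2 / (1 + p'.1)) ((q.a - (pa p t).re - (q'.a - (pa p' t').re)) / 4))),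
        lt_min (by norm_num) (lt_min (by positivity) (lt_min (by positivity) a3)), min_le_left _ _,
        (min_le_right _ _).trans (min_le_left _ _), (min_le_right _ _).trans ((min_le_right _ _).trans (min_le_left _ _)),
        (min_le_right _ _).trans ((min_le_right _ _).trans (min_le_right _ _)), min_le_left _ _⟩
    refine ⟨η0, hη0, u1, fun η hη hηle => ?_⟩
    obtain ⟨N, w, w', i, m, i', m', β, KK, β', KK', θ, ν, A, A', hθ, hθη, hν, hνη, F, F2, k1, k2, -, -, k5, k6, -, k8⟩ :=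
      approx hG hU hR hR2 hzf hzf' (hg q hq q hq) (hg' q' hq' q2 hq2) hZ hZ' h0 h0' hP hP2 hP' hP2' hz hz' heq hη
    rw [← hp] at A
    rw [← hp'] at A'
    have hN0 : (0 : ℝ) < N := by exact_mod_cast A.N1
    have w1 : (1 + p.1) * η ≤ δ1 := by
      have := mul_le_mul_of_nonneg_left (hηle.trans u2) (show 0 ≤ 1 + p.1 by linarith)
      have e : (1 + p.1) * (δ1 / (1 + p.1)) = δ1 := by field_simp
      linarith
    have w2 : (1 + p'.1) * η ≤ δ2 := by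
      have := mul_le_mul_of_nonneg_left (hηle.trans u3) (show 0 ≤ 1 + p'.1 by linarith)
      have e : (1 + p'.1) * (δ2 / (1 + p'.1)) = δ2 := by field_simp
      linarith
    have w1' : η ≤ δ1 := by nlinarith
    have w2' : η ≤ δ2 := by nlinarith
    have hi : ‖ps w i / (N : ℂ) - pa p t‖ ≤ ηr := pos_abs A (by have := A.px.hm; omega) n1 w1' (A.ti.trans w1')
    have hi' : ‖ps w' i' / (N : ℂ) - pa p' t'‖ ≤ ηr := pos_abs A' (by have := A'.px.hm; omega) n2 w2' (A'.ti.trans w2')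
    have re_of : ∀ {z : ℂ} {c : ℂ}, ‖z / (N : ℂ) - c‖ ≤ ηr → (c.re - ηr) * N ≤ z.re ∧ z.re ≤ (c.re + ηr) * N := by
      intro z c hzc
      have h1 := (Complex.abs_re_le_norm _).trans hzc
      have h2 : (z / (N : ℂ)).re = z.re / N := by
        rw [show ((N : ℕ) : ℂ) = ((N : ℝ) : ℂ) by push_cast; rfl, Complex.div_ofReal_re]
      rw [Complex.sub_re, h2] at h1
      obtain ⟨h3, h4⟩ := abs_le.1 h1
      constructor
      · have h5 : c.re - ηr ≤ z.re / N := by linarith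
        rwa [le_div_iff₀ hN0] at h5
      · have h5 : z.re / N ≤ c.re + ηr := by linarith
        rwa [div_le_iff₀ hN0] at h5
    obtain ⟨x1, x2⟩ := re_of hi
    obtain ⟨y1, y2⟩ := re_of hi'
    refine ⟨N, w, w', i, m, i', m', β, KK, β', KK', θ, ν, A, A', hθ, hθη, hν, hνη, F, F2, k1, k2, k5, k6, k8, ?_, ?_, ?_, ?_, ?_,
      hi.trans v1, hi'.trans v1⟩
    · have h1 : ((pa p t).re + ηr + R / 8) * N ≤ q.a * N := mul_le_mul_of_nonneg_right (by linarith) hN0.le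
      have e1 : ((pa p t).re + ηr + R / 8) * (N : ℝ) = ((pa p t).re + ηr) * N + R / 8 * N := by ring
      linarith
    · have h1 : ((pa p' t').re + ηr + R / 8) * N ≤ q'.a * N := mul_le_mul_of_nonneg_right (by linarith) hN0.le
      have e1 : ((pa p' t').re + ηr + R / 8) * (N : ℝ) = ((pa p' t').re + ηr) * N + R / 8 * N := by ring
      have h2 : R / 32 * (N : ℝ) < R / 8 * N := mul_lt_mul_of_pos_right (by linarith) hN0
      linarith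
    · have h1 : (q'.a - (pa p' t').re + ηr + 2 * θ) * N ≤ (q.a - (pa p t).re - ηr) * N :=
        mul_le_mul_of_nonneg_right (by linarith) hN0.le
      have e1 : (q'.a - (pa p' t').re + ηr + 2 * θ) * (N : ℝ) = q'.a * N - ((pa p' t').re - ηr) * N + 2 * θ * N := by ring
      have e2 : (q.a - (pa p t).re - ηr) * (N : ℝ) = q.a * N - ((pa p t).re + ηr) * N := by ring
      linarith
    · exact fun c φ hc hφ => (pos_abs A hc n1 w1' ((mark_abs A hc hφ hp0.le).trans w1)).trans v1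
    · exact fun c φ hc hφ => (pos_abs A' hc n2 w2' ((mark_abs A' hc hφ hp0'.le).trans w2)).trans v1
  -- absolute times
  have times : ∀ {N : ℕ} {w w' : W3} {i m i' m' c c' : ℕ} {η θ φ φ' : ℝ}, Apx R R2 z η p t e N w i m → Apx R R2 z η p' t' e' N w' i' m' →
      c ≤ w.length → c' ≤ w'.length → |(c : ℝ) / w.length - φ| ≤ η → |(c' : ℝ) / w'.length - φ'| ≤ η → 0 < η → θ ≤ η →
      (c' : ℝ) / (N : ℝ) ^ (4 / 3 : ℝ) - (i' : ℝ) / (N : ℝ) ^ (4 / 3 : ℝ) ≤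
        (c : ℝ) / (N : ℝ) ^ (4 / 3 : ℝ) - (i : ℝ) / (N : ℝ) ^ (4 / 3 : ℝ) + 2 * θ * B →
      φ' * p'.1 - t' ≤ φ * p.1 - t + (4 * B + 2) * η := by
    intro N w w' i m i' m' c c' η θ φ φ' A A' hc hc' hφ hφ' hη hθ h
    have h1 := (abs_le.1 (mark_abs A hc hφ hp0.le)).2
    have h2 := (abs_le.1 (mark_abs A' hc' hφ' hp0'.le)).1
    have h3 := (abs_le.1 A.ti).1
    have h4 := (abs_le.1 A'.ti).2
    have hB0 : 0 < B := by rw [hB]; linarith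
    have h5 : 2 * θ * B ≤ 2 * η * B := by nlinarith
    have h6 : (1 + p.1) * η ≤ B * η := mul_le_mul_of_nonneg_right (by rw [hB]; linarith) hη.le
    have h7 : (1 + p'.1) * η ≤ B * η := mul_le_mul_of_nonneg_right (by rw [hB]; linarith) hη.le
    have e1 : (4 * B + 2) * η = 4 * (B * η) + 2 * η := by ring
    have e2 : 2 * η * B = 2 * (B * η) := by ring
    linarith
  have mark_in : ∀ {N : ℕ} {w' : W3} {c' : ℕ} {η φ' : ℝ}, |(c' : ℝ) / w'.length - φ'| ≤ η → -η ≤ φ' := by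
    intro N w' c' η φ' h
    have h1 := (abs_le.1 h).2
    have h2 : 0 ≤ (c' : ℝ) / w'.length := by positivity
    linarith
  rw [← hp, ← hp']
  -- the first gates
  have part1 : ∀ q ∈ Q, ∀ q' ∈ Q, 0 ≤ tcL p (Φc q g) → q'.a - (pa p' t').re < q.a - (pa p t).re → q.r + 2 * z < q'.r →
      q'.ρ < q.ρ - 3 * R → 0 ≤ Φc' q' g' ∧ Φc' q' g' * p'.1 - t' ≤ tcL p (Φc q g) - t := by
    intro q hq q' hq' h1 h2 h3 h4
    have hφ := tcL_nn h1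
    have Rq := hQ q hq
    have Rq' := hQ q' hq'
    obtain ⟨η0, hη0, hη01, H⟩ := base q hq q' hq' q' hq' h2 1 one_pos
    obtain ⟨η1, hη1, u1, u2, u3⟩ : ∃ η1 : ℝ, 0 < η1 ∧ η1 ≤ η0 ∧ η1 ≤ (q'.r - q.r - 2 * z) / 4 ∧ η1 ≤ (q.ρ - 3 * R - q'.ρ) / 5 :=
      ⟨min η0 (min ((q'.r - q.r - 2 * z) / 4) ((q.ρ - 3 * R - q'.ρ) / 5)), lt_min hη0 (lt_min (by linarith) (by linarith)),
        min_le_left _ _, (min_le_right _ _).trans (min_le_left _ _), (min_le_right _ _).trans (min_le_right _ _)⟩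
    have key : ∀ η : ℝ, 0 < η → η ≤ η1 → -η ≤ Φc' q' g' ∧ Φc' q' g' * p'.1 - t' ≤ Φc q g * p.1 - t + (4 * B + 2) * η := by
      intro η hη hηle
      obtain ⟨N, w, w', i, m, i', m', β, KK, β', KK', θ, ν, A, A', hθ, hθη, hν, hνη, F, F2, k1, k2, k3, k4, k5, l1, l2, l3, -, -, -, -⟩ :=
        H η hη (hηle.trans u1)
      have hN0 : (0 : ℝ) < N := by exact_mod_cast A.N1
      obtain ⟨c, hc, hcm⟩ := gate_of_mark k1 hφ (by linarith) (Rq.rρ hR)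
      have hη1' : η ≤ 1 := by linarith
      obtain ⟨c', c1, c2, c3, c4, c5⟩ := tp_step (B := B) A A' F hR hθ (by linarith) ((dur_abs A hη1' he).trans (by rw [hB]; linarith))
        ((dur_abs A' hη1' he').trans (by rw [hB]; linarith)) Rq.ρ1 Rq.ρ2 Rq.r l1 l2 l3 hc
      have c6 := c5 q'.r q'.ρ (by linarith) (by linarith [Rq'.r]) Rq'.ρ2 (by
        have h5 : (q'.ρ + (q.r + 2 * ν + θ)) * N ≤ (q.ρ - 2 * θ) * N := mul_le_mul_of_nonneg_right (by linarith [Rq.r]) hN0.le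
        have e1 : (q'.ρ + (q.r + 2 * ν + θ)) * (N : ℝ) = q'.ρ * N + (q.r + 2 * ν + θ) * N := by ring
        linarith)
      have hm' : wc q' N w' = (c' : ℝ) / w'.length := mk1_of (Nat.cast_nonneg N) (Rq'.rρ hR) c6
      rw [hm'] at k3
      rw [hcm] at k1
      exact ⟨mark_in (N := N) k3, times A A' c1 c2 k1 k3 hη hθη c3⟩
    refine ⟨nn_of hη1 fun η a1 a2 => (key η a1 a2).1, ?_⟩
    rw [tcL_of hφ]
    exact le_lim hη1 fun η a1 a2 => (key η a1 a2).2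
  -- the second gates
  have part2 : ∀ q ∈ Q, ∀ q' ∈ Q, ∀ q2 ∈ Q, 0 ≤ tcL p (Φx q g) → q'.a - (pa p' t').re < q.a - (pa p t).re → q.r + 2 * z < q'.r →
      q'.ρ < q.ρ - 3 * R → q'.m < q.m → q.r2 + 2 * z < q'.r2 → q'.ρ2 < q.ρ2 - 3 * R2 →
      (0 ≤ Φc' q' g' ∧ 0 ≤ Φx' q' g' ∧ Φx' q' g' * p'.1 - t' ≤ tcL p (Φx q g) - t) ∧
      (q2.a = q'.a → q2.m = q'.m → q.r + 2 * z < q2.r →
        q2.ρ + ‖(pa p' (tcL p' (Φc' q' g')) - pa p' t') - (pa p (tcL p (Φc q g)) - pa p t)‖ < q.ρ → q.r2 + 2 * z < q2.r2 →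
        q2.ρ2 + ‖(pa p' (tcL p' (Φx' q' g')) - pa p' t') - (pa p (tcL p (Φx q g)) - pa p t)‖ < q.ρ2 → 0 ≤ Φx' q2 g') := by
    intro q hq q' hq' q2 hq2 h1 h2 h3 h4 h5 h6 h7
    have hφ := tcL_nn h1
    have Rq := hQ q hq
    have Rq' := hQ q' hq'
    have Rq2 := hQ q2 hq2
    -- the common part
    have core : ∀ ηp : ℝ, 0 < ηp → ∃ η0 : ℝ, 0 < η0 ∧ η0 ≤ 1 / 2 ∧ ∀ η : ℝ, 0 < η → η ≤ η0 →
        ∃ (N : ℕ) (w w' : W3) (i m i' m' c x c' x' : ℕ) (θ ν : ℝ), 1 ≤ N ∧ Apx R R2 z η p t e N w i m ∧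
          Apx R R2 z η p' t' e' N w' i' m' ∧ 0 < θ ∧ θ ≤ η ∧ 0 < ν ∧ ν ≤ η ∧
          |(c : ℝ) / w.length - Φc q g| ≤ η ∧ |(x : ℝ) / w.length - Φx q g| ≤ η ∧ |(c' : ℝ) / w'.length - Φc' q' g'| ≤ η ∧
          |(x' : ℝ) / w'.length - Φx' q' g'| ≤ η ∧ |wx q2 N w' - Φx' q2 g'| ≤ η ∧ c ≤ w.length ∧ c' ≤ w'.length ∧ x ≤ w.length ∧
          x' ≤ w'.length ∧ (x' : ℝ) / (N : ℝ) ^ (4 / 3 : ℝ) - (i' : ℝ) / (N : ℝ) ^ (4 / 3 : ℝ) ≤
            (x : ℝ) / (N : ℝ) ^ (4 / 3 : ℝ) - (i : ℝ) / (N : ℝ) ^ (4 / 3 : ℝ) + 2 * θ * B ∧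
          (∀ (c : ℕ) (φ : ℝ), c ≤ w.length → |(c : ℝ) / w.length - φ| ≤ η → ‖ps w c / (N : ℂ) - pa p (φ * p.1)‖ ≤ ηp) ∧
          (∀ (c : ℕ) (φ : ℝ), c ≤ w'.length → |(c : ℝ) / w'.length - φ| ≤ η → ‖ps w' c / (N : ℂ) - pa p' (φ * p'.1)‖ ≤ ηp) ∧
          ‖ps w i / (N : ℂ) - pa p t‖ ≤ ηp ∧ ‖ps w' i' / (N : ℂ) - pa p' t'‖ ≤ ηp ∧
          ∀ r' ρ' r2' ρ2' : ℝ, q.r + 2 * ν + 2 * (z + η) ≤ r' → r' - 2 * (z + η) ≤ 4 * R → ρ' ≤ 130 * R →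
            ρ' * N + ‖(ps w' c' - ps w' i') - (ps w c - ps w i)‖ ≤ (q.ρ - 2 * θ) * N →
            q.r2 + 2 * ν + 2 * (z + η) ≤ r2' → r2' - 2 * (z + η) ≤ 4 * R2 → ρ2' ≤ 130 * R2 →
            ρ2' * N + ‖(ps w' x' - ps w' i') - (ps w x - ps w i)‖ ≤ (q.ρ2 - 2 * θ) * N →
              GB2 (Dv w'.get 0) q'.a r' ρ' q'.m r2' ρ2' N w'.get c' x' := by
      intro ηp hηp
      obtain ⟨η0, hη0, hη01, H⟩ := base q hq q' hq' q2 hq2 h2 ηp hηp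
      obtain ⟨η1, hη1, u1, u2, u3, u4, u5, u6⟩ : ∃ η1 : ℝ, 0 < η1 ∧ η1 ≤ η0 ∧ η1 ≤ (q'.r - q.r - 2 * z) / 4 ∧
          η1 ≤ (q.ρ - 3 * R - q'.ρ) / 5 ∧ η1 ≤ (q'.r2 - q.r2 - 2 * z) / 4 ∧ η1 ≤ (q.ρ2 - 3 * R2 - q'.ρ2) / 5 ∧
          η1 ≤ (q.m - q'.m) / 2 := by
        obtain ⟨θ1, hθ10, ht⟩ := min_list [η0, (q'.r - q.r - 2 * z) / 4, (q.ρ - 3 * R - q'.ρ) / 5, (q'.r2 - q.r2 - 2 * z) / 4,
          (q.ρ2 - 3 * R2 - q'.ρ2) / 5, (q.m - q'.m) / 2]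
          (by
            intro x hx
            simp only [List.mem_cons, List.not_mem_nil, or_false] at hx
            rcases hx with rfl | rfl | rfl | rfl | rfl | rfl <;> linarith)
        simp only [List.mem_cons, List.not_mem_nil, or_false, forall_eq_or_imp, forall_eq] at ht
        exact ⟨θ1, hθ10, ht⟩
      refine ⟨η1, hη1, u1.trans hη01, fun η hη hηle => ?_⟩
      obtain ⟨N, w, w', i, m, i', m', β, KK, β', KK', θ, ν, A, A', hθ, hθη, hν, hνη, F, F2, k1, k2, k3, k4, k5, l1, l2, l3, l4, l5, l6, l7⟩ :=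
        H η hη (hηle.trans u1)
      have hN0 : (0 : ℝ) < N := by exact_mod_cast A.N1
      have hη1' : η ≤ 1 := by linarith
      obtain ⟨c, x, hcx, hcm, hxm⟩ := gates_of_mark k2 hφ (by linarith) (Rq.rρ hR) (Rq.rρ2 hR2)
      obtain ⟨c', x', b1, b2, b3, b4, b5, b6, b7, b8, b9⟩ := gb_step (B := B) (a1 := q'.a) (m1 := q'.m) A A' F F2 hR hR2 hθ (by linarith)
        ((dur_abs A hη1' he).trans (by rw [hB]; linarith)) ((dur_abs A' hη1' he').trans (by rw [hB]; linarith)) Rq l1 l2 l3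
        (by linarith [Rq'.m]) (by linarith) hcx
      have c6 := b9 q'.r q'.ρ q'.r2 q'.ρ2 (by linarith) (by linarith [Rq'.r]) Rq'.ρ2 (by
        have h5 : (q'.ρ + (q.r + 2 * ν + θ)) * N ≤ (q.ρ - 2 * θ) * N := mul_le_mul_of_nonneg_right (by linarith [Rq.r]) hN0.le
        have e1 : (q'.ρ + (q.r + 2 * ν + θ)) * (N : ℝ) = q'.ρ * N + (q.r + 2 * ν + θ) * N := by ring
        linarith) (by linarith) (by linarith [Rq'.r2]) Rq'.ρ22 (by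
        have h5 : (q'.ρ2 + (q.r2 + 2 * ν + θ)) * N ≤ (q.ρ2 - 2 * θ) * N := mul_le_mul_of_nonneg_right (by linarith [Rq.r2]) hN0.le
        have e1 : (q'.ρ2 + (q.r2 + 2 * ν + θ)) * (N : ℝ) = q'.ρ2 * N + (q.r2 + 2 * ν + θ) * N := by ring
        linarith)
      have hm1 : wc q' N w' = (c' : ℝ) / w'.length := mk1_of (Nat.cast_nonneg N) (Rq'.rρ hR) c6.1
      have hm2 : wx q' N w' = (x' : ℝ) / w'.length := mkB_of (Nat.cast_nonneg N) (Rq'.rρ hR) (Rq'.rρ2 hR2) c6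
      rw [hm1] at k3
      rw [hm2] at k4
      rw [hcm] at k1
      rw [hxm] at k2
      exact ⟨N, w, w', i, m, i', m', c, x, c', x', θ, ν, A.N1, A, A', hθ, hθη, hν, hνη, k1, k2, k3, k4, k5, b1, b2, b3, b4, b6, l4, l5, l6, l7,
        b9⟩
    obtain ⟨η0, hη0, hη01, H⟩ := core 1 one_pos
    have key : ∀ η : ℝ, 0 < η → η ≤ η0 → -η ≤ Φc' q' g' ∧ -η ≤ Φx' q' g' ∧ -η ≤ Φc q g ∧
        Φx' q' g' * p'.1 - t' ≤ Φx q g * p.1 - t + (4 * B + 2) * η := by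
      intro η hη hηle
      obtain ⟨N, w, w', i, m, i', m', c, x, c', x', θ, ν, N1, A, A', hθ, hθη, hν, hνη, k1, k2, k3, k4, k5, b1, b2, b3, b4, b6, -, -, -, -,
        -⟩ := H η hη hηle
      exact ⟨mark_in (N := N) k3, mark_in (N := N) k4, mark_in (N := N) k1, times A A' b3 b4 k2 k4 hη hθη b6⟩
    have hc' : 0 ≤ Φc' q' g' := nn_of hη0 fun η a1 a2 => (key η a1 a2).1
    have hx' : 0 ≤ Φx' q' g' := nn_of hη0 fun η a1 a2 => (key η a1 a2).2.1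
    have hcc : 0 ≤ Φc q g := nn_of hη0 fun η a1 a2 => (key η a1 a2).2.2.1
    refine ⟨⟨hc', hx', ?_⟩, fun g1 g2 g3 g4 g5 g6 => ?_⟩
    · rw [tcL_of hφ]
      exact le_lim hη0 fun η a1 a2 => (key η a1 a2).2.2.2
    · rw [tcL_of hc', tcL_of hcc] at g4
      rw [tcL_of hx', tcL_of hφ] at g6
      obtain ⟨dc, hdc⟩ : ∃ dc, dc = ‖(pa p' (Φc' q' g' * p'.1) - pa p' t') - (pa p (Φc q g * p.1) - pa p t)‖ := ⟨_, rfl⟩
      obtain ⟨dx, hdx⟩ : ∃ dx, dx = ‖(pa p' (Φx' q' g' * p'.1) - pa p' t') - (pa p (Φx q g * p.1) - pa p t)‖ := ⟨_, rfl⟩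
      rw [← hdc] at g4
      rw [← hdx] at g6
      obtain ⟨ηp, hηp, y1, y2⟩ : ∃ ηp : ℝ, 0 < ηp ∧ ηp ≤ (q.ρ - dc - q2.ρ) / 8 ∧ ηp ≤ (q.ρ2 - dx - q2.ρ2) / 8 :=
        ⟨min ((q.ρ - dc - q2.ρ) / 8) ((q.ρ2 - dx - q2.ρ2) / 8), lt_min (by linarith) (by linarith), min_le_left _ _, min_le_right _ _⟩
      obtain ⟨η2, hη2, hη21, H2⟩ := core ηp hηp
      obtain ⟨η3, hη3, u1, u2, u3, u4⟩ : ∃ η3 : ℝ, 0 < η3 ∧ η3 ≤ η2 ∧ η3 ≤ ηp ∧ η3 ≤ (q2.r - q.r - 2 * z) / 4 ∧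
          η3 ≤ (q2.r2 - q.r2 - 2 * z) / 4 :=
        ⟨min η2 (min ηp (min ((q2.r - q.r - 2 * z) / 4) ((q2.r2 - q.r2 - 2 * z) / 4))), lt_min hη2 (lt_min hηp
          (lt_min (by linarith) (by linarith))), min_le_left _ _, (min_le_right _ _).trans (min_le_left _ _),
          (min_le_right _ _).trans ((min_le_right _ _).trans (min_le_left _ _)),
          (min_le_right _ _).trans ((min_le_right _ _).trans (min_le_right _ _))⟩
      refine nn_of hη3 fun η hη hηle => ?_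
      obtain ⟨N, w, w', i, m, i', m', c, x, c', x', θ, ν, N1, A, A', hθ, hθη, hν, hνη, k1, k2, k3, k4, k5, b1, b2, b3, b4, b6, l4, l5, l6,
        l7, b9⟩ := H2 η hη (hηle.trans u1)
      have hN0 : (0 : ℝ) < N := by exact_mod_cast N1
      have dist4 : ∀ {a1 a2 a3 a4 s1 s2 s3 s4 : ℂ}, ‖a1 / (N : ℂ) - s1‖ ≤ ηp → ‖a2 / (N : ℂ) - s2‖ ≤ ηp → ‖a3 / (N : ℂ) - s3‖ ≤ ηp →
          ‖a4 / (N : ℂ) - s4‖ ≤ ηp → ‖(a1 - a2) - (a3 - a4)‖ ≤ (‖(s1 - s2) - (s3 - s4)‖ + 4 * ηp) * N := by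
        intro a1 a2 a3 a4 s1 s2 s3 s4 z1 z2 z3 z4
        have hNc : (N : ℂ) ≠ 0 := by exact_mod_cast hN0.ne'
        have e : (a1 - a2) - (a3 - a4) = (((s1 - s2) - (s3 - s4)) + ((a1 / (N : ℂ) - s1) - (a2 / (N : ℂ) - s2) -
            ((a3 / (N : ℂ) - s3) - (a4 / (N : ℂ) - s4)))) * N := by
          field_simp
          ring
        rw [e, norm_mul, Complex.norm_natCast]
        refine mul_le_mul_of_nonneg_right ?_ hN0.le
        refine (norm_add_le _ _).trans (add_le_add le_rfl ?_)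
        have z5 := norm_sub_le ((a1 / (N : ℂ) - s1) - (a2 / (N : ℂ) - s2)) ((a3 / (N : ℂ) - s3) - (a4 / (N : ℂ) - s4))
        have z6 := norm_sub_le (a1 / (N : ℂ) - s1) (a2 / (N : ℂ) - s2)
        have z7 := norm_sub_le (a3 / (N : ℂ) - s3) (a4 / (N : ℂ) - s4)
        linarith
      have D1 := dist4 (l5 c' _ b2 k3) l7 (l4 c _ b1 k1) l6
      have D2 := dist4 (l5 x' _ b4 k4) l7 (l4 x _ b3 k2) l6
      rw [← hdc] at D1
      rw [← hdx] at D2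
      have hgb := b9 q2.r q2.ρ q2.r2 q2.ρ2 (by linarith) (by linarith [Rq2.r]) Rq2.ρ2 (by
        have h5 : (q2.ρ + (dc + 4 * ηp)) * N ≤ (q.ρ - 2 * θ) * N := mul_le_mul_of_nonneg_right (by linarith) hN0.le
        have e1 : (q2.ρ + (dc + 4 * ηp)) * (N : ℝ) = q2.ρ * N + (dc + 4 * ηp) * N := by ring
        linarith) (by linarith) (by linarith [Rq2.r2]) Rq2.ρ22 (by
        have h5 : (q2.ρ2 + (dx + 4 * ηp)) * N ≤ (q.ρ2 - 2 * θ) * N := mul_le_mul_of_nonneg_right (by linarith) hN0.le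
        have e1 : (q2.ρ2 + (dx + 4 * ηp)) * (N : ℝ) = q2.ρ2 * N + (dx + 4 * ηp) * N := by ring
        linarith)
      rw [← g1, ← g2] at hgb
      have hm2 : wx q2 N w' = (x' : ℝ) / w'.length := mkB_of (Nat.cast_nonneg N) (Rq2.rρ hR) (Rq2.rρ2 hR2) hgb
      rw [hm2] at k5
      exact mark_in (N := N) k5
  refine ⟨fun q hq q' hq' h1 h2 h3 h4 => ?_, fun q hq q' hq' h1 h2 h3 h4 h5 h6 h7 => ?_,
    fun q hq q' hq' q2 hq2 h1 h2 h3 h4 h5 h6 h7 g1 g2 g3 g4 g5 g6 => ?_⟩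
  · obtain ⟨a1, a2⟩ := part1 q hq q' hq' h1 h2 h3 h4
    show 0 ≤ tcL p' (Φc' q' g') ∧ tcL p' (Φc' q' g') - t' ≤ _
    rw [tcL_of a1]
    exact ⟨mul_nonneg a1 hp0'.le, a2⟩
  · obtain ⟨-, a1, a2⟩ := (part2 q hq q' hq' q' hq' h1 h2 h3 h4 h5 h6 h7).1
    show 0 ≤ tcL p' (Φx' q' g') ∧ tcL p' (Φx' q' g') - t' ≤ _
    rw [tcL_of a1]
    exact ⟨mul_nonneg a1 hp0'.le, a2⟩
  · have a1 := (part2 q hq q' hq' q2 hq2 h1 h2 h3 h4 h5 h6 h7).2 g1 g2 g3 g4 g5 g6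
    show 0 ≤ tcL p' (Φx' q2 g')
    rw [tcL_of a1]
    exact mul_nonneg a1 hp0'.le

end Pool.Agent.ROT.F3.K7
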