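import Pool.Agent.ROT.F3LocA

/-!
# ROT, F3, row D39 (helper28): marks at functional levels are local (deterministic half, without free cells)

* `Cfm` : the functional mark `X` is the limit of the marks with parameters near `q` (form of `mk_contQ`, helper68);
* **`fx_loc`** : two strands with a common piece have the same gates at the functional level.
-/

set_option autoImplicit false

open Set Filter Topology

namespace Pool.Agent.ROT.F3.LR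

/-- **the functional mark `X`** is the limit of the marks near the parameters `q` -/
def Cfm (Q : Set Qg) (tx : Qg → ℝ) (q : Qg) (X : ℝ) : Prop := ∀ η : ℝ, 0 < η → ∃ μ : ℝ, 0 < μ ∧ ∀ q' ∈ Q, q.Near q' μ →
  (0 ≤ X ↔ 0 ≤ tx q') ∧ (0 ≤ X → |tx q' - X| ≤ η)

/-- relations between the marks of one strand (the part of `Sf` without levels) -/
structure Sg (Q : Set Qg) (pl : ℝ → ℂ) (tc tx : Qg → ℝ) : Prop where
  /-- weaker windows -/
  cw : ∀ q ∈ Q, ∀ q' ∈ Q, 0 ≤ tc q → q'.a = q.a → q.r ≤ q'.r → q'.ρ ≤ q.ρ → tc q' = tc q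
  xc : ∀ q ∈ Q, 0 ≤ tx q → 0 ≤ tc q
  xw : ∀ q ∈ Q, ∀ q' ∈ Q, 0 ≤ tx q → q'.a = q.a → q'.m = q.m → q.r ≤ q'.r → q'.ρ ≤ q.ρ → q.r2 ≤ q'.r2 → q'.ρ2 ≤ q.ρ2 →
    tx q' = tx q
  /-- smaller diameters -/
  cd : ∀ q ∈ Q, ∀ q' ∈ Q, 0 ≤ tc q → q'.a = q.a → q'.ρ = q.ρ → DmL pl (tc q) q'.r → tc q' = tc q
  xd : ∀ q ∈ Q, ∀ q' ∈ Q, 0 ≤ tx q → q'.a = q.a → q'.ρ = q.ρ → q'.m = q.m → q'.ρ2 = q.ρ2 → DmL pl (tc q) q'.r →
    DmL pl (tx q) q'.r2 → tx q' = tx q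
  ord : ∀ q ∈ Q, 0 ≤ tx q → tc q ≤ tx q

/-- the diameter up to a little after the time `T` is less than `r` -/
def DmP (pl : ℝ → ℂ) (T r : ℝ) : Prop := ∃ δ : ℝ, 0 < δ ∧ DmL pl (T + δ) r

private lemma dml_mono {pl : ℝ → ℂ} {T T' r : ℝ} (h : DmL pl T r) (hT : T' ≤ T) : DmL pl T' r :=
  fun x y h1 h2 h3 h4 => h x y h1 (h2.trans hT) h3 (h4.trans hT)

private lemma near_of {q q' : Qg} {μ : ℝ} (a : |q'.a - q.a| ≤ μ) (r : |q'.r - q.r| ≤ μ) (ρ : |q'.ρ - q.ρ| ≤ μ) (m : |q'.m - q.m| ≤ μ)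
    (r2 : |q'.r2 - q.r2| ≤ μ) (ρ2 : |q'.ρ2 - q.ρ2| ≤ μ) : q.Near q' μ := ⟨a, r, ρ, m, r2, ρ2⟩

private lemma sf0 {x μ : ℝ} (hμ : 0 ≤ μ) : |x - x| ≤ μ := by rwa [sub_self, abs_zero]

section pair

variable {Q : Set Qg} {L : Set ℝ} {w : Qg} {z R R2 lo hi δ rl rh sl sh f t t' e C X C' X' : ℝ} {pl pl' : ℝ → ℂ}
  {tc tx tc' tx' : Qg → ℝ}

/-- the first gate is before the second one -/
lemma cfm_cx (hN : Net Q L w z R R2 lo hi δ rl rh sl sh) (hs : Sg Q pl tc tx)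
    (hc : Cfm Q tc (w.at ((pl t).re + f)) C) (hx : Cfm Q tx (w.at ((pl t).re + f)) X)
    (hlo : lo < (pl t).re + f) (hhi : (pl t).re + f < hi) (h : 0 ≤ X) : 0 ≤ C ∧ C ≤ X := by
  have key : ∀ η : ℝ, 0 < η → 0 ≤ C ∧ C ≤ X + 2 * η := by
    intro η hη
    obtain ⟨μ1, hμ1, g1⟩ := hc η hη
    obtain ⟨μ2, hμ2, g2⟩ := hx η hη
    obtain ⟨a, ha, ha1, ha2⟩ := hN.dL ((pl t).re + f) (min hi ((pl t).re + f + min μ1 μ2)) hlo.le
      (lt_min hhi (by linarith [lt_min hμ1 hμ2])) (min_le_left _ _)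
    have ha3 := lt_of_lt_of_le ha2 (min_le_right _ _)
    have hn : ∀ μ : ℝ, min μ1 μ2 ≤ μ → (w.at ((pl t).re + f)).Near (w.at a) μ := by
      intro μ hμ
      have h0 : 0 ≤ μ := (lt_min hμ1 hμ2).le.trans hμ
      refine near_of ?_ (sf0 h0) (sf0 h0) (sf0 h0) (sf0 h0) (sf0 h0)
      show |a - ((pl t).re + f)| ≤ μ
      rw [abs_le]
      constructor <;> linarith
    obtain ⟨e1, e2⟩ := g1 _ (hN.mem ha) (hn μ1 (min_le_left _ _))
    obtain ⟨e3, e4⟩ := g2 _ (hN.mem ha) (hn μ2 (min_le_right _ _))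
    have e5 := e3.1 h
    have e6 := e1.2 (hs.xc _ (hN.mem ha) e5)
    have e7 := hs.ord _ (hN.mem ha) e5
    have e8 := abs_le.1 (e2 e6)
    have e9 := abs_le.1 (e4 h)
    exact ⟨e6, by linarith⟩
  refine ⟨(key 1 one_pos).1, le_of_forall_pos_le_add fun η hη => ?_⟩
  have := (key (η / 2) (half_pos hη)).2
  linarith

/-- **two strands with a common piece have the same gates at the functional level** -/
theorem fx_loc (hN : Net Q L w z R R2 lo hi δ rl rh sl sh) (hs : Sg Q pl tc tx) (hs' : Sg Q pl' tc' tx')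
    (hc : Cfm Q tc (w.at ((pl t).re + f)) C) (hx : Cfm Q tx (w.at ((pl t).re + f)) X)
    (hc' : Cfm Q tc' (w.at ((pl' t').re + f)) C') (hx' : Cfm Q tx' (w.at ((pl' t').re + f)) X')
    (h1 : LMo Q z R R2 t t' pl pl' tc tx tc' tx') (h2 : LMo Q z R R2 t' t pl' pl tc' tx' tc tx)
    (he : ∀ u : ℝ, 0 ≤ u → u ≤ e → pl' (t' + u) - pl' t' = pl (t + u) - pl t) (hpc : Continuous pl)
    (hlo : lo < (pl t).re + f) (hhi : (pl t).re + f < hi) (hlo' : lo < (pl' t').re + f) (hhi' : (pl' t').re + f < hi)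
    (htC : t < C) (hXe : X - t < e) (hdu : DmP pl C rl) (hdv : DmP pl X sl) (hX : 0 ≤ X) :
    0 ≤ X' ∧ C' - t' = C - t ∧ X' - t' = X - t := by
  obtain ⟨hC0, hCX⟩ := cfm_cx hN hs hc hx hlo hhi hX
  obtain ⟨b, hb⟩ : ∃ b, b = (pl t).re := ⟨_, rfl⟩
  obtain ⟨b', hb'⟩ : ∃ b', b' = (pl' t').re := ⟨_, rfl⟩
  obtain ⟨D1, D2, D3, D4, D5, hQ, k1, k1l, k1h, k2, k3, k4, k4l, k4h, k5, d2, d3, d5⟩ := hN.D
  obtain ⟨δu, hδu, hdu⟩ := hdu
  obtain ⟨δv, hδv, hdv⟩ := hdv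
  have hδ := hN.pδ
  have hR := hN.pR
  have hR2 := hN.pR2
  have hz := hN.pz
  have n1 := hN.prl
  have n2 := hN.prh
  have n3 := hN.psl
  have n4 := hN.psh
  rw [← hb] at hlo hhi hc hx
  rw [← hb'] at hlo' hhi' hc' hx'
  -- windows
  obtain ⟨ρ', hρ', hρ'1, hρ'2⟩ := d2 (w.ρ - 3 * R - δ / 2) (w.ρ - 3 * R) (by linarith) (by linarith) (by linarith)
  obtain ⟨ρ'', hρ'', hρ''1, hρ''2⟩ := d2 (w.ρ - 6 * R - δ) (ρ' - 3 * R) le_rfl (by linarith) (by linarith)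
  obtain ⟨σ', hσ', hσ'1, hσ'2⟩ := d5 (w.ρ2 - 3 * R2 - δ / 2) (w.ρ2 - 3 * R2) (by linarith) (by linarith) (by linarith)
  obtain ⟨σ3, hσ3, hσ31, hσ32⟩ := d5 (w.ρ2 - 6 * R2 - δ) (σ' - 3 * R2) le_rfl (by linarith) (by linarith)
  have key : ∀ μ η : ℝ, 0 < μ → 0 < η → ∃ q ∈ Q, (w.at (b' + f)).Near q μ ∧ 0 ≤ tx' q ∧ |tc' q - t' - (C - t)| ≤ η ∧
      |tx' q - t' - (X - t)| ≤ η := by
    intro μ η hμ hη
    obtain ⟨ν, hν⟩ : ∃ ν, ν = min (min μ δ) (min (w.ρ2 - σ') (w.ρ - ρ')) := ⟨_, rfl⟩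
    have hν0 : 0 < ν := by
      rw [hν]
      exact lt_min (lt_min hμ hδ) (lt_min (by linarith) (by linarith))
    have hνμ : ν ≤ μ := by rw [hν]; exact (min_le_left _ _).trans (min_le_left _ _)
    have hνδ : ν ≤ δ := by rw [hν]; exact (min_le_left _ _).trans (min_le_right _ _)
    have hνσ : ν ≤ w.ρ2 - σ' := by rw [hν]; exact (min_le_right _ _).trans (min_le_left _ _)
    have hνρ : ν ≤ w.ρ - ρ' := by rw [hν]; exact (min_le_right _ _).trans (min_le_right _ _)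
    -- continuity of the curve at the gates
    obtain ⟨ε1, hε1, hcont1⟩ := Metric.continuousAt_iff.1 (hpc.continuousAt (x := C)) (ν / 4) (by positivity)
    obtain ⟨ε2, hε2, hcont2⟩ := Metric.continuousAt_iff.1 (hpc.continuousAt (x := X)) (ν / 4) (by positivity)
    obtain ⟨η1, hη1⟩ : ∃ η1, η1 = min (min (min η (C - t)) (min (e - (X - t)) (min δu δv))) (min (ε1 / 2) (ε2 / 2)) := ⟨_, rfl⟩
    have y0 : 0 < η1 := by
      rw [hη1]
      exact lt_min (lt_min (lt_min hη (by linarith)) (lt_min (by linarith) (lt_min hδu hδv))) (lt_min (by positivity) (by positivity))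
    have y1 : η1 ≤ η := by rw [hη1]; exact (min_le_left _ _).trans ((min_le_left _ _).trans (min_le_left _ _))
    have y2 : η1 ≤ C - t := by rw [hη1]; exact (min_le_left _ _).trans ((min_le_left _ _).trans (min_le_right _ _))
    have y3 : η1 ≤ e - (X - t) := by rw [hη1]; exact (min_le_left _ _).trans ((min_le_right _ _).trans (min_le_left _ _))
    have y4 : η1 ≤ δu := by
      rw [hη1]
      exact (min_le_left _ _).trans ((min_le_right _ _).trans ((min_le_right _ _).trans (min_le_left _ _)))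
    have y5 : η1 ≤ δv := by
      rw [hη1]
      exact (min_le_left _ _).trans ((min_le_right _ _).trans ((min_le_right _ _).trans (min_le_right _ _)))
    have y6 : η1 ≤ ε1 / 2 := by rw [hη1]; exact (min_le_right _ _).trans (min_le_left _ _)
    have y7 : η1 ≤ ε2 / 2 := by rw [hη1]; exact (min_le_right _ _).trans (min_le_right _ _)
    obtain ⟨μc, hμc, gc⟩ := hc η1 y0
    obtain ⟨μx, hμx, gx⟩ := hx η1 y0
    obtain ⟨μ1, hμ1⟩ : ∃ μ1, μ1 = min (min μc μx) (min μ δ) := ⟨_, rfl⟩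
    have u0 : 0 < μ1 := by rw [hμ1]; exact lt_min (lt_min hμc hμx) (lt_min hμ hδ)
    have u1 : μ1 ≤ μc := by rw [hμ1]; exact (min_le_left _ _).trans (min_le_left _ _)
    have u2 : μ1 ≤ μx := by rw [hμ1]; exact (min_le_left _ _).trans (min_le_right _ _)
    have u3 : μ1 ≤ μ := by rw [hμ1]; exact (min_le_right _ _).trans (min_le_left _ _)
    have u4 : μ1 ≤ δ := by rw [hμ1]; exact (min_le_right _ _).trans (min_le_right _ _)
    -- the marks of the first strand near the functional parameters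
    have near1 : ∀ a m : ℝ, |a - (b + f)| ≤ μ1 → |m - w.m| ≤ μ1 → (⟨a, w.r, w.ρ, m, w.r2, w.ρ2⟩ : Qg) ∈ Q →
        0 ≤ tc ⟨a, w.r, w.ρ, m, w.r2, w.ρ2⟩ ∧ 0 ≤ tx ⟨a, w.r, w.ρ, m, w.r2, w.ρ2⟩ ∧
          |tc ⟨a, w.r, w.ρ, m, w.r2, w.ρ2⟩ - C| ≤ η1 ∧ |tx ⟨a, w.r, w.ρ, m, w.r2, w.ρ2⟩ - X| ≤ η1 := by
      intro a m h3 h4 h5
      have n5 : ∀ μ' : ℝ, μ1 ≤ μ' → (w.at (b + f)).Near ⟨a, w.r, w.ρ, m, w.r2, w.ρ2⟩ μ' := fun μ' h6 =>
        near_of (h3.trans h6) (sf0 (u0.le.trans h6)) (sf0 (u0.le.trans h6)) (h4.trans h6) (sf0 (u0.le.trans h6))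
          (sf0 (u0.le.trans h6))
      obtain ⟨e1, e2⟩ := gc _ h5 (n5 μc u1)
      obtain ⟨e3, e4⟩ := gx _ h5 (n5 μx u2)
      exact ⟨e1.1 hC0, e3.1 hX, e2 hC0, e4 hX⟩
    -- levels
    obtain ⟨a, ha, ha1, ha2⟩ := hN.dL (b + f) (min hi (b + f + μ1)) hlo.le (lt_min hhi (by linarith)) (min_le_left _ _)
    have ha3 := lt_of_lt_of_le ha2 (min_le_right _ _)
    obtain ⟨a', ha', ha'1, ha'2⟩ := hN.dL (b' + f) (min hi (min (a - b + b') (b' + f + μ))) hlo'.le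
      (lt_min hhi' (lt_min (by linarith) (by linarith))) (min_le_left _ _)
    have ha'3 := lt_of_lt_of_le ha'2 ((min_le_right _ _).trans (min_le_left _ _))
    have ha'4 := lt_of_lt_of_le ha'2 ((min_le_right _ _).trans (min_le_right _ _))
    obtain ⟨a0, ha0, ha01, ha02⟩ := hN.dL (max lo (b + f - μ1)) (b + f) (le_max_left _ _) (max_lt hlo (by linarith)) hhi.le
    have ha03 := lt_of_le_of_lt (le_max_right _ _) ha01
    have hlev : a' - (pl' t').re < a - (pl t).re := by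
      rw [← hb, ← hb']
      linarith
    have hlev2 : a0 - (pl t).re < a' - (pl' t').re := by
      rw [← hb, ← hb']
      linarith
    -- thresholds
    obtain ⟨m', hm', hm1, hm2⟩ := d3 (w.m - μ1) w.m (by linarith) (by linarith) le_rfl
    obtain ⟨m3, hm3, hm31, hm32⟩ := d3 (w.m - μ1) m' (by linarith) hm1 hm2.le
    -- the first strand at the level `a`
    have hqw : (⟨a, w.r, w.ρ, w.m, w.r2, w.ρ2⟩ : Qg) ∈ Q := hQ a ha _ k1 _ k2 _ k3 _ k4 _ k5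
    obtain ⟨p1, p2, p3, p4⟩ := near1 a w.m (by rw [abs_le]; constructor <;> linarith) (sf0 u0.le) hqw
    have hqa : (⟨a, rl, w.ρ, w.m, sl, w.ρ2⟩ : Qg) ∈ Q := hQ a ha _ k1l _ k2 _ k3 _ k4l _ k5
    have p3' := abs_le.1 p3
    have p4' := abs_le.1 p4
    have e6 := hs.cd _ hqw _ hqa p1 rfl rfl (dml_mono hdu (by linarith))
    have e7 := hs.xd _ hqw _ hqa p2 rfl rfl rfl rfl (dml_mono hdu (by linarith)) (dml_mono hdv (by linarith))
    -- the second strand at weaker windows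
    have hq' : (⟨a', w.r, ρ', m', w.r2, σ'⟩ : Qg) ∈ Q := hQ a' ha' _ k1 ρ' hρ' m' hm' _ k4 σ' hσ'
    obtain ⟨f1, f2⟩ := h1.x1 _ hqa ⟨a', w.r, ρ', m', w.r2, σ'⟩ hq' (by rw [e7]; exact p2) hlev n1 hρ'2 hm2 n3 hσ'2
    obtain ⟨f3, f4⟩ := h1.c1 _ hqa ⟨a', w.r, ρ', m', w.r2, σ'⟩ hq' (by rw [e6]; exact p1) hlev n1 hρ'2
    rw [e7] at f2
    rw [e6] at f4
    -- back to the first strand
    have hq0 : (⟨a0, rh, ρ'', m3, sh, σ3⟩ : Qg) ∈ Q := hQ a0 ha0 _ k1h ρ'' hρ'' m3 hm3 _ k4h σ3 hσ3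
    have hq4 : (⟨a0, w.r, w.ρ, m3, w.r2, w.ρ2⟩ : Qg) ∈ Q := hQ a0 ha0 _ k1 _ k2 m3 hm3 _ k4 _ k5
    obtain ⟨o1, o2, o3, o4⟩ := near1 a0 m3 (by rw [abs_le]; constructor <;> linarith) (by rw [abs_le]; constructor <;> linarith) hq4
    have o3' := abs_le.1 o3
    have o4' := abs_le.1 o4
    obtain ⟨f5, f6⟩ := h2.c1 ⟨a', w.r, ρ', m', w.r2, σ'⟩ hq' ⟨a0, rh, ρ'', m3, sh, σ3⟩ hq0 f3 hlev2 n2 hρ''2
    obtain ⟨f7, f8⟩ := h2.x1 ⟨a', w.r, ρ', m', w.r2, σ'⟩ hq' ⟨a0, rh, ρ'', m3, sh, σ3⟩ hq0 f1 hlev2 n2 hρ''2 hm32 n4 hσ32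
    have f9 := hs.cw ⟨a0, w.r, w.ρ, m3, w.r2, w.ρ2⟩ hq4 ⟨a0, rh, ρ'', m3, sh, σ3⟩ hq0 o1 rfl (by
      show w.r ≤ rh
      linarith) (by
      show ρ'' ≤ w.ρ
      linarith)
    have f10 := hs.xw ⟨a0, w.r, w.ρ, m3, w.r2, w.ρ2⟩ hq4 ⟨a0, rh, ρ'', m3, sh, σ3⟩ hq0 o2 rfl rfl (by
      show w.r ≤ rh
      linarith) (by
      show ρ'' ≤ w.ρ
      linarith) (by
      show w.r2 ≤ sh
      linarith) (by
      show σ3 ≤ w.ρ2
      linarith)
    rw [f9] at f6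
    rw [f10] at f8
    -- times of the weak gates
    have v1 : |tc' ⟨a', w.r, ρ', m', w.r2, σ'⟩ - t' - (C - t)| ≤ η1 := by
      rw [abs_le]
      constructor <;> linarith
    have v2 : |tx' ⟨a', w.r, ρ', m', w.r2, σ'⟩ - t' - (X - t)| ≤ η1 := by
      rw [abs_le]
      constructor <;> linarith
    have v1' := abs_le.1 v1
    have v2' := abs_le.1 v2
    -- the places
    have place : ∀ (ε T s s' : ℝ), 0 < ε → η1 ≤ ε / 2 → (∀ {x : ℝ}, dist x T < ε → dist (pl x) (pl T) < ν / 4) →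
        |s' - t' - (T - t)| ≤ η1 → |s - T| ≤ η1 → 0 ≤ s' - t' → s' - t' ≤ e →
        ‖(pl' s' - pl' t') - (pl s - pl t)‖ < ν / 2 := by
      intro ε T s s' hε hε2 hcont h3 h4 h5 h6
      have e8 : s' = t' + (s' - t') := by ring
      have e9 : pl' s' - pl' t' = pl (t + (s' - t')) - pl t := by
        conv_lhs => rw [e8]
        exact he _ h5 h6
      rw [e9, sub_sub_sub_cancel_right]
      have i1 := hcont (x := t + (s' - t')) (by
        rw [Real.dist_eq, show t + (s' - t') - T = s' - t' - (T - t) by ring]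
        linarith)
      have i2 := hcont (x := s) (by
        rw [Real.dist_eq]
        linarith)
      rw [← dist_eq_norm]
      have i3 := dist_triangle_right (pl (t + (s' - t'))) (pl s) (pl T)
      linarith
    have w1 := place ε1 C (tc ⟨a, rl, w.ρ, w.m, sl, w.ρ2⟩) (tc' ⟨a', w.r, ρ', m', w.r2, σ'⟩) hε1 y6 (fun h => hcont1 h) v1
      (by rw [e6]; exact p3) (by linarith) (by linarith)
    have w2 := place ε2 X (tx ⟨a, rl, w.ρ, w.m, sl, w.ρ2⟩) (tx' ⟨a', w.r, ρ', m', w.r2, σ'⟩) hε2 y7 (fun h => hcont2 h) v2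
      (by rw [e7]; exact p4) (by linarith) (by linarith)
    -- the full windows
    obtain ⟨ρ4, hρ4, hρ41, hρ42⟩ := d2 (w.ρ - ν) (w.ρ - ν / 2) (by linarith) (by linarith) (by linarith)
    obtain ⟨σ4, hσ4, hσ41, hσ42⟩ := d5 (w.ρ2 - ν) (w.ρ2 - ν / 2) (by linarith) (by linarith) (by linarith)
    have hq5 : (⟨a', w.r, ρ4, m', w.r2, σ4⟩ : Qg) ∈ Q := hQ a' ha' _ k1 ρ4 hρ4 m' hm' _ k4 σ4 hσ4
    have f11 := h1.x2 _ hqa ⟨a', w.r, ρ', m', w.r2, σ'⟩ hq' ⟨a', w.r, ρ4, m', w.r2, σ4⟩ hq5 (by rw [e7]; exact p2) hlev n1 hρ'2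
      hm2 n3 hσ'2 rfl rfl n1 (by
        show ρ4 + _ < w.ρ
        linarith) n3 (by
        show σ4 + _ < w.ρ2
        linarith)
    have f12 := hs'.xw ⟨a', w.r, ρ4, m', w.r2, σ4⟩ hq5 ⟨a', w.r, ρ', m', w.r2, σ'⟩ hq' f11 rfl rfl le_rfl (by
      show ρ' ≤ ρ4
      linarith) le_rfl (by
      show σ' ≤ σ4
      linarith)
    have f13 := hs'.cw ⟨a', w.r, ρ4, m', w.r2, σ4⟩ hq5 ⟨a', w.r, ρ', m', w.r2, σ'⟩ hq' (hs'.xc _ hq5 f11) rfl le_rfl (by
      show ρ' ≤ ρ4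
      linarith)
    refine ⟨_, hq5, near_of ?_ (sf0 hμ.le) ?_ ?_ (sf0 hμ.le) ?_, f11, ?_, ?_⟩
    · show |a' - (b' + f)| ≤ μ
      rw [abs_le]
      constructor <;> linarith
    · show |ρ4 - w.ρ| ≤ μ
      rw [abs_le]
      constructor <;> linarith
    · show |m' - w.m| ≤ μ
      rw [abs_le]
      constructor <;> linarith
    · show |σ4 - w.ρ2| ≤ μ
      rw [abs_le]
      constructor <;> linarith
    · rw [← f13]
      exact v1.trans y1
    · rw [← f12]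
      exact v2.trans y1
  -- conclusion
  have fin : ∀ η : ℝ, 0 < η → 0 ≤ X' ∧ |C' - t' - (C - t)| ≤ 2 * η ∧ |X' - t' - (X - t)| ≤ 2 * η := by
    intro η hη
    obtain ⟨μc, hμc, gc⟩ := hc' η hη
    obtain ⟨μx, hμx, gx⟩ := hx' η hη
    obtain ⟨q, hq, hn, g1, g2, g3⟩ := key (min μc μx) η (lt_min hμc hμx) hη
    have hnc : (w.at (b' + f)).Near q μc := near_of (hn.a.trans (min_le_left _ _)) (hn.r.trans (min_le_left _ _))
      (hn.ρ.trans (min_le_left _ _)) (hn.m.trans (min_le_left _ _)) (hn.r2.trans (min_le_left _ _)) (hn.ρ2.trans (min_le_left _ _))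
    have hnx : (w.at (b' + f)).Near q μx := near_of (hn.a.trans (min_le_right _ _)) (hn.r.trans (min_le_right _ _))
      (hn.ρ.trans (min_le_right _ _)) (hn.m.trans (min_le_right _ _)) (hn.r2.trans (min_le_right _ _))
      (hn.ρ2.trans (min_le_right _ _))
    obtain ⟨e1, e2⟩ := gc q hq hnc
    obtain ⟨e3, e4⟩ := gx q hq hnx
    have e5 := e3.2 g1
    have e6 := e1.2 (hs'.xc _ hq g1)
    have e7 := abs_le.1 (e2 e6)
    have e8 := abs_le.1 (e4 e5)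
    have e9 := abs_le.1 g2
    have e10 := abs_le.1 g3
    refine ⟨e5, ?_, ?_⟩
    · rw [abs_le]
      constructor <;> linarith
    · rw [abs_le]
      constructor <;> linarith
  have lim0 : ∀ y : ℝ, (∀ η : ℝ, 0 < η → |y| ≤ 2 * η) → y = 0 := fun y h3 => by
    refine abs_nonpos_iff.1 (le_of_forall_pos_le_add fun η hη => ?_)
    have := h3 (η / 2) (half_pos hη)
    linarith
  refine ⟨(fin 1 one_pos).1, sub_eq_zero.1 (lim0 _ fun η hη => (fin η hη).2.1), sub_eq_zero.1 (lim0 _ fun η hη => (fin η hη).2.2)⟩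

end pair

end Pool.Agent.ROT.F3.LR
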