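import Pool.Agent.ROT.F3K7La
import Pool.Agent.ROT.F3CorMid

/-!
# ROT, F3, row K7 / D39 (helper37): the strands of a closed curve with two roots and the pieces of the closed curve

* `nt k g u` : relative time on the closed curve of the absolute time `u` of the strand `k`; `ta k g x` : the inverse;
* `pa_lsd` : the points of the strand; **`ctp_lsd`** : the pieces of the strand are the pieces `pcut` of the closed curve;
* **`ctp_A0`, `ctp_A1`, `ctp_B0`, `ctp_B1`** : pieces of the two rests, read from each end; `ctp_K0`, .. : the connections.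
-/

set_option autoImplicit false

open Set

namespace Pool.Agent.ROT.F3.LR

open Pool.Agent.ROT.F3
open Pool.Agent.ROT.F3.K7 (lsd pa pk ctp)
open Pool.Agent.ROT.F3.CC (Gm Pie pcut cl mu ex cutp rst kap M4)

/-- the relative time on the closed curve of the absolute time `u` of the strand `k` -/
noncomputable def nt (k : Arm) (g : Gm) (u : ℝ) : ℝ := match k with
  | .fp => u / g.1
  | .bq => mu g - u / g.1
  | .fq => mu g + u / g.1
  | .bp => 1 - u / g.1

/-- the absolute time of the strand `k` of the relative time `x` on the closed curve -/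
noncomputable def ta (k : Arm) (g : Gm) (x : ℝ) : ℝ := match k with
  | .fp => x * g.1
  | .bq => (mu g - x) * g.1
  | .fq => (x - mu g) * g.1
  | .bp => (1 - x) * g.1

variable {k : Arm} {g : Gm}

lemma nt_ta (h0 : 0 < g.1) (x : ℝ) : nt k g (ta k g x) = x := by
  have h := h0.ne'
  cases k
  · show x * g.1 / g.1 = x
    field_simp
  · show mu g - (mu g - x) * g.1 / g.1 = x
    field_simp
    ring
  · show mu g + (x - mu g) * g.1 / g.1 = x
    field_simp
    ring
  · show 1 - (1 - x) * g.1 / g.1 = x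
    field_simp
    ring

lemma ta_nt (h0 : 0 < g.1) (u : ℝ) : ta k g (nt k g u) = u := by
  have h := h0.ne'
  cases k
  · show u / g.1 * g.1 = u
    field_simp
  · show (mu g - (mu g - u / g.1)) * g.1 = u
    field_simp
    ring
  · show (mu g + u / g.1 - mu g) * g.1 = u
    field_simp
    ring
  · show (1 - (1 - u / g.1)) * g.1 = u
    field_simp
    ring

lemma nt_aff (t e s : ℝ) : nt k g (t + s * (e - t)) = nt k g t + s * (nt k g e - nt k g t) := by
  cases k
  · show (t + s * (e - t)) / g.1 = t / g.1 + s * (e / g.1 - t / g.1)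
    ring
  · show mu g - (t + s * (e - t)) / g.1 = mu g - t / g.1 + s * (mu g - e / g.1 - (mu g - t / g.1))
    ring
  · show mu g + (t + s * (e - t)) / g.1 = mu g + t / g.1 + s * (mu g + e / g.1 - (mu g + t / g.1))
    ring
  · show 1 - (t + s * (e - t)) / g.1 = 1 - t / g.1 + s * (1 - e / g.1 - (1 - t / g.1))
    ring

lemma nt_abs (h0 : 0 < g.1) (t e : ℝ) : g.1 * |nt k g e - nt k g t| = |e - t| := by
  have h : |nt k g e - nt k g t| = |e - t| / g.1 := by
    cases k
    · show |e / g.1 - t / g.1| = _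
      rw [← sub_div, abs_div, abs_of_pos h0]
    · show |mu g - e / g.1 - (mu g - t / g.1)| = _
      rw [show mu g - e / g.1 - (mu g - t / g.1) = (t - e) / g.1 by ring, abs_div, abs_of_pos h0, abs_sub_comm]
    · show |mu g + e / g.1 - (mu g + t / g.1)| = _
      rw [show mu g + e / g.1 - (mu g + t / g.1) = (e - t) / g.1 by ring, abs_div, abs_of_pos h0]
    · show |1 - e / g.1 - (1 - t / g.1)| = _
      rw [show 1 - e / g.1 - (1 - t / g.1) = (t - e) / g.1 by ring, abs_div, abs_of_pos h0, abs_sub_comm]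
  rw [h, mul_div_cancel₀ _ h0.ne']

/-- the length of the arm -/
noncomputable def la (k : Arm) (g : Gm) : ℝ := k.lf g.1 g.2.1

lemma la_eq (h0 : 0 < g.1) : la k g = match k with
    | .fp => mu g * g.1
    | .bq => mu g * g.1
    | .fq => (1 - mu g) * g.1
    | .bp => (1 - mu g) * g.1 := by
  have h : g.2.1 = mu g * g.1 := by
    show g.2.1 = g.2.1 / g.1 * g.1
    rw [div_mul_cancel₀ _ h0.ne']
  cases k
  · exact h
  · exact h
  · show g.1 - g.2.1 = (1 - mu g) * g.1
    rw [sub_mul, one_mul, ← h]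
  · show g.1 - g.2.1 = (1 - mu g) * g.1
    rw [sub_mul, one_mul, ← h]

lemma tt_eq (h0 : 0 < g.1) (hl : 0 < la k g) {u : ℝ} : k.tt (mu g) (u / la k g) = nt k g u := by
  have h := h0.ne'
  have hl' := hl.ne'
  have e := la_eq (k := k) h0
  cases k
  · have e' : la .fp g = mu g * g.1 := e
    show u / la .fp g * mu g = u / g.1
    rw [e'] at hl' ⊢
    have hm : mu g ≠ 0 := left_ne_zero_of_mul hl'
    field_simp
  · have e' : la .bq g = mu g * g.1 := e
    show mu g - u / la .bq g * mu g = mu g - u / g.1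
    rw [e'] at hl' ⊢
    have hm : mu g ≠ 0 := left_ne_zero_of_mul hl'
    field_simp
  · have e' : la .fq g = (1 - mu g) * g.1 := e
    show mu g + u / la .fq g * (1 - mu g) = mu g + u / g.1
    rw [e'] at hl' ⊢
    have hm : 1 - mu g ≠ 0 := left_ne_zero_of_mul hl'
    field_simp
  · have e' : la .bp g = (1 - mu g) * g.1 := e
    show 1 - u / la .bp g * (1 - mu g) = 1 - u / g.1
    rw [e'] at hl' ⊢
    have hm : 1 - mu g ≠ 0 := left_ne_zero_of_mul hl'
    field_simp

/-- **the points of the strand** -/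
theorem pa_lsd (T : LSym) (h0 : 0 < g.1) (hl : 0 < la k g) {u : ℝ} (hu : 0 ≤ u) (hu' : u ≤ la k g) :
    pa (lsd T k g) u = T.L (ex g.2.2 (nt k g u) - ex g.2.2 (k.tr (mu g))) := by
  have e1 : ((pk (u / la k g) : unitInterval) : ℝ) = u / la k g :=
    K7.pk_of (div_nonneg hu hl.le) (by rw [div_le_one hl]; exact hu')
  show T.L (g.2.2 (pj (k.tt (mu g) (pk (u / la k g)))) - g.2.2 (pj (k.tr (mu g)))) = _
  rw [e1, tt_eq h0 hl]
  rfl

/-- **the pieces of the strand are the pieces of the closed curve** -/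
theorem ctp_lsd (T : LSym) (h0 : 0 < g.1) (hl : 0 < la k g) {t e : ℝ} (ht : 0 ≤ t) (hte : t ≤ e) (he : e ≤ la k g) :
    ctp (lsd T k g) t e = ((pcut (cl g) (nt k g t) (nt k g e)).2, T.act (pcut (cl g) (nt k g t) (nt k g e)).1) := by
  refine Prod.ext ?_ ?_
  · show e - t = g.1 * |nt k g e - nt k g t|
    rw [nt_abs h0, abs_of_nonneg (by linarith)]
  · ext s
    show pa (lsd T k g) (t + s * (e - t)) - pa (lsd T k g) t = T.L (cutp g.2.2 (nt k g t) (nt k g e) s)
    have hs := s.2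
    rw [pa_lsd T h0 hl (by nlinarith [hs.1]) (by nlinarith [hs.2]), pa_lsd T h0 hl ht (hte.trans he), nt_aff, CC.cutp_apply,
      ← map_sub]
    congr 1
    ring

/-- equal pieces of the closed curves give equal pieces of the strands -/
theorem ctp_congr (T : LSym) {k' : Arm} {g' : Gm} (h0 : 0 < g.1) (h0' : 0 < g'.1) (hl : 0 < la k g) (hl' : 0 < la k' g')
    {t e t' e' : ℝ} (ht : 0 ≤ t) (hte : t ≤ e) (he : e ≤ la k g) (ht' : 0 ≤ t') (hte' : t' ≤ e') (he' : e' ≤ la k' g')
    (h : pcut (cl g) (nt k g t) (nt k g e) = pcut (cl g') (nt k' g' t') (nt k' g' e')) :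
    ctp (lsd T k g) t e = ctp (lsd T k' g') t' e' := by
  rw [ctp_lsd T h0 hl ht hte he, ctp_lsd T h0' hl' ht' hte' he', h]

/-! ### rests: `x` = the native mark at this end, `y` = the native mark at the other end -/

lemma ta_aff (x y s : ℝ) : ta k g (x + s * (y - x)) = ta k g x + s * (ta k g y - ta k g x) := by
  cases k
  · show (x + s * (y - x)) * g.1 = x * g.1 + s * (y * g.1 - x * g.1)
    ring
  · show (mu g - (x + s * (y - x))) * g.1 = (mu g - x) * g.1 + s * ((mu g - y) * g.1 - (mu g - x) * g.1)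
    ring
  · show (x + s * (y - x) - mu g) * g.1 = (x - mu g) * g.1 + s * ((y - mu g) * g.1 - (x - mu g) * g.1)
    ring
  · show (1 - (x + s * (y - x))) * g.1 = (1 - x) * g.1 + s * ((1 - y) * g.1 - (1 - x) * g.1)
    ring

lemma pcut0 (p : Pie) (x y : ℝ) {e : ℝ} (he : e ∈ Icc (0 : ℝ) 1) : pcut (pcut p x y) 0 e = pcut p x (x + e * (y - x)) := by
  rw [CC.pcut_pcut ⟨le_rfl, zero_le_one⟩ he, zero_mul, add_zero]

lemma pcut1 (p : Pie) (x y : ℝ) {e : ℝ} (he : e ∈ Icc (0 : ℝ) 1) :
    pcut (pcut p y x) 1 e = pcut p x (x + (1 - e) * (y - x)) := by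
  rw [CC.pcut_pcut ⟨zero_le_one, le_rfl⟩ he]
  congr 1 <;> ring

/-- **a rest read from this end** -/
theorem ctp_rest (T : LSym) (h0 : 0 < g.1) {x y e : ℝ} (hx : 0 ≤ ta k g x) (hxy : ta k g x < ta k g y) (hy : ta k g y ≤ la k g)
    (he : e ∈ Icc (0 : ℝ) 1) : ctp (lsd T k g) (ta k g x) (ta k g x + e * (ta k g y - ta k g x)) =
      ((pcut (pcut (cl g) x y) 0 e).2, T.act (pcut (pcut (cl g) x y) 0 e).1) := by
  have h1 : 0 ≤ e * (ta k g y - ta k g x) := mul_nonneg he.1 (by linarith)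
  have h2 : e * (ta k g y - ta k g x) ≤ ta k g y - ta k g x := mul_le_of_le_one_left (by linarith) he.2
  rw [ctp_lsd T h0 (by linarith) hx (by linarith) (by linarith), ← ta_aff, nt_ta h0, nt_ta h0, pcut0 _ _ _ he]

/-- **a rest read from the other end** (`e` = relative time from the other end) -/
theorem ctp_rest' (T : LSym) (h0 : 0 < g.1) {x y e : ℝ} (hx : 0 ≤ ta k g x) (hxy : ta k g x < ta k g y) (hy : ta k g y ≤ la k g)
    (he : e ∈ Icc (0 : ℝ) 1) : ctp (lsd T k g) (ta k g x) (ta k g x + (1 - e) * (ta k g y - ta k g x)) =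
      ((pcut (pcut (cl g) y x) 1 e).2, T.act (pcut (pcut (cl g) y x) 1 e).1) := by
  have h1 : 0 ≤ (1 - e) * (ta k g y - ta k g x) := mul_nonneg (by linarith [he.2]) (by linarith)
  have h2 : (1 - e) * (ta k g y - ta k g x) ≤ ta k g y - ta k g x := mul_le_of_le_one_left (by linarith) (by linarith [he.1])
  rw [ctp_lsd T h0 (by linarith) hx (by linarith) (by linarith), ← ta_aff, nt_ta h0, nt_ta h0, pcut1 _ _ _ he]

/-- the points of the strand seen from the native mark = the points of the rest -/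
theorem pa_rest (T : LSym) (h0 : 0 < g.1) {x y s : ℝ} (hx : 0 ≤ ta k g x) (hxy : ta k g x < ta k g y) (hy : ta k g y ≤ la k g)
    (hs : s ∈ Icc (0 : ℝ) 1) : pa (lsd T k g) (ta k g x + s * (ta k g y - ta k g x)) - pa (lsd T k g) (ta k g x) =
      T.L ((pcut (cl g) x y).1 ⟨s, hs⟩) := by
  have h1 : 0 ≤ s * (ta k g y - ta k g x) := mul_nonneg hs.1 (by linarith)
  have h2 : s * (ta k g y - ta k g x) ≤ ta k g y - ta k g x := mul_le_of_le_one_left (by linarith) hs.2
  rw [pa_lsd T h0 (by linarith) (by linarith) (by linarith), pa_lsd T h0 (by linarith) hx (by linarith), ← map_sub, ← ta_aff,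
    nt_ta h0, nt_ta h0, sub_sub_sub_cancel_right]
  rfl

theorem pa_rest' (T : LSym) (h0 : 0 < g.1) {x y s : ℝ} (hx : 0 ≤ ta k g x) (hxy : ta k g x < ta k g y) (hy : ta k g y ≤ la k g)
    (hs : s ∈ Icc (0 : ℝ) 1) : pa (lsd T k g) (ta k g x + (1 - s) * (ta k g y - ta k g x)) - pa (lsd T k g) (ta k g x) =
      T.L ((pcut (cl g) y x).1 ⟨s, hs⟩ - (pcut (cl g) y x).1 1) := by
  have hs' : 1 - s ∈ Icc (0 : ℝ) 1 := ⟨by linarith [hs.2], by linarith [hs.1]⟩
  rw [pa_rest T h0 hx hxy hy hs']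
  congr 1
  show ex g.2.2 (x + (1 - s) * (y - x)) - ex g.2.2 x = ex g.2.2 (y + s * (x - y)) - ex g.2.2 y -
    (ex g.2.2 (y + ((1 : unitInterval) : ℝ) * (x - y)) - ex g.2.2 y)
  rw [show x + (1 - s) * (y - x) = y + s * (x - y) by ring, Icc.coe_one, show y + 1 * (x - y) = x by ring]
  ring

/-- **a strand with its native marks** at the absolute times `a` (this end) and `b` (the other end): tips in the ball `z` resp. outside of
the ball `Z` -/
structure StrN (z Z : ℝ) (p : ℝ × Pool.Agent.CRT.CI) (a b : ℝ) : Prop where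
  a0 : 0 ≤ a
  ab : a < b
  b1 : b ≤ p.1
  ball : ∀ u ∈ Icc 0 a, ‖pa p u‖ ≤ z
  far : ∀ u ∈ Icc b p.1, Z ≤ ‖pa p u‖

/-- **the piece behind the native mark** (`PcL` of F3K7L, any scale `R`) -/
theorem StrN.pcl {z Z R : ℝ} {p : ℝ × Pool.Agent.CRT.CI} {a b e : ℝ} (h : StrN z Z p a b) (hR : 0 < R) (hz : z ≤ R / 128)
    (hZ : 1004 * R ≤ Z) (hae : a < e) (heb : e ≤ b) (hf : ∀ u ∈ Icc e b, 511 * R ≤ ‖pa p u - pa p a‖) :
    0 ≤ a ∧ a < e ∧ e ≤ p.1 ∧ (∀ u ∈ Icc 0 a, ‖pa p u‖ ≤ R / 8 ∧ (pa p u).re ≤ (pa p a).re + R / 64) ∧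
      (∀ u ∈ Icc e p.1, 510 * R ≤ ‖pa p u‖) ∧ 1004 * R ≤ ‖pa p p.1‖ := by
  have hza := h.ball a ⟨h.a0, le_rfl⟩
  refine ⟨h.a0, hae, heb.trans h.b1, fun u hu => ⟨(h.ball u hu).trans (by linarith), ?_⟩, fun u hu => ?_,
    hZ.trans (h.far _ ⟨h.b1, le_rfl⟩)⟩
  · have h1 := h.ball u hu
    have h2 := (Complex.abs_re_le_norm (pa p u - pa p a)).trans (norm_sub_le _ _)
    have h3 := le_abs_self (pa p u - pa p a).re
    rw [Complex.sub_re] at h2 h3
    linarith
  · rcases le_total u b with h1 | h1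
    · have h2 := hf u ⟨hu.1, h1⟩
      have h3 := norm_sub_le (pa p u) (pa p a)
      linarith
    · have h2 := h.far u ⟨h1, hu.2⟩
      linarith

end Pool.Agent.ROT.F3.LR
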