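import Pool.Agent.ROT.F3K7L
import Pool.Agent.ROT.F3LocB
import Pool.Agent.ROT.F3LocT

/-!
# ROT, F3, row D39 / D49 (helper37): literals between the functional marks and the gates of one arm

* **`GMk`** : the gates (event and times) of one arm through the functional marks `Xc`, `Xx`, `Xy` of `c~`, `x~` and of the block mark
  (threshold `h < m`);
* **`LocS`** : locality of the functional marks of two strands with a common piece (form of `loc_strand`, helper28).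
-/

set_option autoImplicit false

open Set

namespace Pool.Agent.ROT.F3.LR

open Pool.Agent.ROT.F3
open Pool.Agent.ROT.F3.K7 (lsd pa ctp PcL tcL)
open Pool.Agent.ROT.F3.CC (Gm)

/-- **the gates of one arm through the functional marks** at the curve `y`: `B`, `c`, `x` = event and times (units of the arm) in the
limit, `β` = functional base, `a` = offset of `c~` over the base, `m` = threshold of `x~` over `c~`, `Xc`, `Xx`, `Xy` = functional marks
(units of the arm, `-1` = none) of `c~`, `x~` (threshold `m`) and of the block mark (threshold `h`) -/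
structure GMk (B : Set Gm) (c x β : Gm → ℝ) (T : LSym) (k : Arm) (a m : ℝ) (Xc Xx Xy : Gm → ℝ) (y : Gm) : Prop where
  iff : y ∈ B ↔ 0 ≤ Xx y ∧ 0 ≤ Xy y ∧
    (pa (lsd T k y) (tcL (lsd T k y) (Xy y))).re < (pa (lsd T k y) (tcL (lsd T k y) (Xc y))).re + m
  c : y ∈ B → c y = Xc y
  x : y ∈ B → x y = Xx y
  /-- the gate `c~` exists and is before `x~`, the block mark too -/
  c0 : y ∈ B → 0 ≤ Xc y
  yx : y ∈ B → Xy y ≤ Xx y
  /-- the block mark is behind `c~` -/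
  cy : y ∈ B → Xc y ≤ Xy y
  /-- the level of `c~` -/
  lv : y ∈ B → β y + a ≤ (pa (lsd T k y) (tcL (lsd T k y) (Xc y))).re

/-- **locality of the functional marks** of two strands `(T, k)`, `(T', k')` (good curves `X`, `X'`, bases `β`, `β'`, offset `f` in the range
`lo .. hi`, marks `Xc`, `Xx`): equal pieces from the times `t`, `t'` to `e`, `e'`, marks of the first strand in the piece, small
diameters `rl`, `sl` (root .. mark), radii `rr`, `sr` (piece up to the mark, around its beginning) ⟹ the same marks -/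
def LocS (R R2 z f lo hi rl sl rr sr : ℝ) (T : LSym) (k : Arm) (X : Set Gm) (β Xc Xx : Gm → ℝ) (T' : LSym) (k' : Arm) (X' : Set Gm)
    (β' Xc' Xx' : Gm → ℝ) : Prop :=
  ∀ g ∈ X, ∀ g' ∈ X', ∀ t e t' e' : ℝ, PcL R (lsd T k g) t e → PcL R2 (lsd T k g) t e → PcL R (lsd T' k' g') t' e' →
    PcL R2 (lsd T' k' g') t' e' → (∀ u ∈ Icc 0 t, ‖pa (lsd T k g) u‖ ≤ z) → (∀ u ∈ Icc 0 t', ‖pa (lsd T' k' g') u‖ ≤ z) →
    ctp (lsd T k g) t e = ctp (lsd T' k' g') t' e' → β g = (pa (lsd T k g) t).re → β' g' = (pa (lsd T' k' g') t').re →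
    lo < β g + f → β g + f < hi → lo < β' g' + f → β' g' + f < hi → 0 ≤ Xx g → t < tcL (lsd T k g) (Xc g) →
    tcL (lsd T k g) (Xx g) < e → DmP (pa (lsd T k g)) (tcL (lsd T k g) (Xc g)) rl →
    DmP (pa (lsd T k g)) (tcL (lsd T k g) (Xx g)) sl →
    (∀ u ∈ Icc t (tcL (lsd T k g) (Xc g)), ‖pa (lsd T k g) u - pa (lsd T k g) t‖ ≤ rr) →
    (∀ u ∈ Icc t (tcL (lsd T k g) (Xx g)), ‖pa (lsd T k g) u - pa (lsd T k g) t‖ ≤ sr) →
    0 ≤ Xx' g' ∧ tcL (lsd T' k' g') (Xc' g') - t' = tcL (lsd T k g) (Xc g) - t ∧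
      tcL (lsd T' k' g') (Xx' g') - t' = tcL (lsd T k g) (Xx g) - t

/-- **the piece of one strand**: scales `R`, `R2`, `R3` of `c~`, `x~`, block mark; the tip is in the ball `z`; the base is the level of the
beginning -/
structure StP (R R2 R3 z f lo hi : ℝ) (p : ℝ × Pool.Agent.CRT.CI) (b t e : ℝ) : Prop where
  p1 : PcL R p t e
  p2 : PcL R2 p t e
  p3 : PcL R3 p t e
  ball : ∀ u ∈ Icc 0 t, ‖pa p u‖ ≤ z
  β : b = (pa p t).re
  lo : lo < b + f
  hi : b + f < hi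

lemma dmP_mono {pl : ℝ → ℂ} {T T' r : ℝ} (h : DmP pl T r) (hT : T' ≤ T) : DmP pl T' r := by
  obtain ⟨δ, hδ, h1⟩ := h
  exact ⟨δ, hδ, fun x y h2 h3 h4 h5 => h1 x y h2 (by linarith) h4 (by linarith)⟩

/-- equal pieces: equal levels over the beginning -/
lemma ctp_lev {p p' : ℝ × Pool.Agent.CRT.CI} {t e t' e' : ℝ} (hte : t < e) (q : ctp p t e = ctp p' t' e') {u u' : ℝ} (h1 : t ≤ u)
    (h2 : u ≤ e) (h3 : u' - t' = u - t) : pa p' u' - pa p' t' = pa p u - pa p t := by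
  have w1 : e - t = e' - t' := congrArg Prod.fst q
  have w2 := congrArg Prod.snd q
  have d0 : 0 < e - t := by linarith
  obtain ⟨s, hs⟩ : ∃ s, s = (u - t) / (e - t) := ⟨_, rfl⟩
  have es : s * (e - t) = u - t := by
    rw [hs, div_mul_cancel₀ _ d0.ne']
  have hsm : s ∈ Icc (0 : ℝ) 1 := by
    rw [hs]
    exact ⟨div_nonneg (by linarith) d0.le, (div_le_one d0).2 (by linarith)⟩
  have w3 := congrArg (fun h : Pool.Agent.CRT.CI => h ⟨s, hsm⟩) w2
  simp only [K7.ctp_apply] at w3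
  rw [← w1, es, show t' + (u - t) = u' by linarith, add_sub_cancel] at w3
  exact w3.symm

/-- **the gates of two strands with a common piece** -/
theorem gate_core {R R2 R3 z f lo hi rl sl sl' rr sr m : ℝ} {T : LSym} {k k' : Arm} {X X' B B' : Set Gm} {c x β Xc Xx Xy c' x' β' Xc' Xx' Xy' : Gm → ℝ}
    (S : LocS R R2 z f lo hi rl sl rr sr T k X β Xc Xx T k' X' β' Xc' Xx')
    (Sy : LocS R R3 z f lo hi rl sl' rr sr T k X β Xc Xy T k' X' β' Xc' Xy') {y y' : Gm} (hy : y ∈ X) (hy' : y' ∈ X')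
    (M : GMk B c x β T k f m Xc Xx Xy y) (M' : GMk B' c' x' β' T k' f m Xc' Xx' Xy' y') {t e t' e' : ℝ}
    (F : StP R R2 R3 z f lo hi (lsd T k y) (β y) t e) (F' : StP R R2 R3 z f lo hi (lsd T k' y') (β' y') t' e')
    (q : ctp (lsd T k y) t e = ctp (lsd T k' y') t' e') (hB : y ∈ B) (tc : t < tcL (lsd T k y) (c y))
    (xe : tcL (lsd T k y) (x y) < e) (dc : DmP (pa (lsd T k y)) (tcL (lsd T k y) (c y)) rl)
    (dx : DmP (pa (lsd T k y)) (tcL (lsd T k y) (x y)) sl) (dy : DmP (pa (lsd T k y)) (tcL (lsd T k y) (x y)) sl')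
    (rc : ∀ u ∈ Icc t (tcL (lsd T k y) (c y)), ‖pa (lsd T k y) u - pa (lsd T k y) t‖ ≤ rr)
    (rx : ∀ u ∈ Icc t (tcL (lsd T k y) (x y)), ‖pa (lsd T k y) u - pa (lsd T k y) t‖ ≤ sr) :
    y' ∈ B' ∧ tcL (lsd T k' y') (c' y') - t' = tcL (lsd T k y) (c y) - t ∧
      tcL (lsd T k' y') (x' y') - t' = tcL (lsd T k y) (x y) - t := by
  obtain ⟨x0, y0, ylt⟩ := M.iff.1 hB
  rw [M.c hB] at tc dc rc ⊢
  rw [M.x hB] at xe dx dy rx ⊢
  have hp : 0 ≤ (lsd T k y).1 := by linarith [F.p1.t0, F.p1.te, F.p1.e1]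
  have yx : tcL (lsd T k y) (Xy y) ≤ tcL (lsd T k y) (Xx y) := by
    rw [K7.tcL_of y0, K7.tcL_of x0]
    exact mul_le_mul_of_nonneg_right (M.yx hB) hp
  have cy : tcL (lsd T k y) (Xc y) ≤ tcL (lsd T k y) (Xy y) := by
    rw [K7.tcL_of y0, K7.tcL_of (M.c0 hB)]
    exact mul_le_mul_of_nonneg_right (M.cy hB) hp
  obtain ⟨r1, r2, r3⟩ := S _ hy _ hy' _ _ _ _ F.p1 F.p2 F'.p1 F'.p2 F.ball F'.ball q F.β F'.β F.lo F.hi F'.lo F'.hi x0 tc xe dc dx
    rc rx
  obtain ⟨s1, -, s3⟩ := Sy _ hy _ hy' _ _ _ _ F.p1 F.p3 F'.p1 F'.p3 F.ball F'.ball q F.β F'.β F.lo F.hi F'.lo F'.hi y0 tc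
    (yx.trans_lt xe) dc (dmP_mono dy yx) rc (fun u hu => rx u ⟨hu.1, hu.2.trans yx⟩)
  have k1 := congrArg Complex.re (ctp_lev F.p1.te q tc.le (cy.trans (yx.trans xe.le)) r2)
  have k2 := congrArg Complex.re (ctp_lev F.p1.te q (tc.le.trans cy) (yx.trans xe.le) s3)
  rw [Complex.sub_re, Complex.sub_re] at k1 k2
  have hB' : y' ∈ B' := M'.iff.2 ⟨r1, s1, by linarith⟩
  rw [M'.c hB', M'.x hB']
  exact ⟨hB', r2, r3⟩

end Pool.Agent.ROT.F3.LR
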