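import Pool.Agent.ROT.F3JmB
import Pool.Agent.ROT.F3JmS
import Pool.Agent.ROT.F3JmE
import Pool.Agent.ROT.F3K7L
import Pool.Agent.ROT.F3LocT
import Pool.Agent.ROT.F3LocB
import Pool.Agent.ROT.F3LrK

/-!
# ROT, F3, row JmB (helper81 for helper41): locality of the native gates of the connections (`LocB`)

* `FarB R k g x` : the strand of the arm `k` stays at distance at least `510 R` from its root behind `x`, the other root is at distance
  at least `1004 R`; **`farB_of_cev`** : from the closed conditions `CEv` of a class of the rotated lattice, `64 R ≤ n.rg`;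
* `ta_du`, `nt_du`, `du_le`, `du_tAt`, `exists_du`, **`pa_du`** : the points of the strand `lsd T k g`, times as points of the curve;
* `GdB` : good curves; **`pcL_of`**, `dmP_du`, `rad_du`, `gt_diam`;
* **`locB_of`** : `LocB` of one arm from `LocS` (helper37, helper28) and `gate_core`.
-/

set_option autoImplicit false

open MeasureTheory Topology Set

open scoped unitInterval ENNReal Classical

namespace Pool.Agent.ROT.F3

/-! ### 1. The strand behind the gates -/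

section far

variable {d d' : ℂ} {E E' : Tp} {g : C(I, ℂ)} {a c b a' c' b' u : I} {κ r0 cc D0 : ℝ}

/-- the tip, the gates are in the ball `r + r2` -/
lemma GtI.ball (h : GtI d E g a c b) (hr2 : 0 ≤ E.r2) (ho : BtI a c b) (hu : BtI a u b) :
    ‖g u - g a‖ ≤ E.r + E.r2 := by
  rcases ho.split hu with h1 | h1
  · have := h.b1 u h1
    linarith
  · have h2 := h.b2 u h1
    have h3 := h.b1 c (BtI.right a c)
    have h4 : g u - g a = (g u - g c) + (g c - g a) := by ring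
    rw [h4]
    exact (norm_add_le _ _).trans (by linarith)

private lemma lvn_le (hd : ‖d‖ = 1) (v : ℂ) : lv d v ≤ ‖v‖ := by
  have h := (lv_lip hd).dist_le_mul v 0
  have h0 : lv d 0 = 0 := by
    unfold lv
    simp
  rw [h0, Real.dist_eq, sub_zero, dist_zero_right, NNReal.coe_one, one_mul] at h
  exact (le_abs_self _).trans h

/-- **behind the gates the strand is far from the tip**: rest -/
theorem far_rest (hd : ‖d‖ = 1) (h : GtI d E g a c b) (hr2 : 0 ≤ E.r2) (ho : BtI a c b)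
    (hra : stS (fRa d cc r0) (cutc g b b') ≤ κ) (h0 : 0 ≤ cc) (h1 : cc ≤ 1) (hu : BtI b u b') :
    min (E.l + E.m - κ) (r0 - κ - (E.r + E.r2)) ≤ ‖g u - g a‖ := by
  have h2 := (stS_bt (g := g) (a := b) (b := b') (x := κ) (fRa_lip hd h0 h1 (r0 := r0)).continuous).1 (by linarith) u hu
  unfold fRa at h2
  rw [min_le_iff] at h2
  have hx := h.ball hr2 ho (BtI.right a b)
  rcases h2 with h2 | h2
  · refine (min_le_left _ _).trans ?_
    have e1 : g u - g a = (g u - g b) + ((g b - g c) + (g c - g a)) := by ring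
    have e2 : lv d (g u - g a) = lv d (g u - g b) + (lv d (g b - g c) + lv d (g c - g a)) := by
      simp only [lv_sub]
      ring
    have h3 := h.l
    have h4 := h.m
    have h5 := lvn_le hd (g u - g a)
    have h6 : 0 ≤ cc * ‖g u - g b‖ := mul_nonneg h0 (norm_nonneg _)
    linarith
  · refine (min_le_right _ _).trans ?_
    have e1 : g u - g b = (g u - g a) - (g b - g a) := by ring
    have h3 : ‖g u - g b‖ ≤ ‖g u - g a‖ + ‖g b - g a‖ := by
      rw [e1]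
      exact norm_sub_le _ _
    linarith

/-- **behind the gates the strand is far from the tip**: the other end -/
theorem far_end' (h : GtI d E g a c b) (h' : GtI d' E' g a' c' b') (hr2 : 0 ≤ E.r2) (hr2' : 0 ≤ E'.r2) (ho : BtI a c b) (ho' : BtI a' c' b') (hD : D0 ≤ ‖g b' - g b‖) (hu : BtI a' u b') :
    D0 - (E.r + E.r2) - 2 * (E'.r + E'.r2) ≤ ‖g u - g a‖ := by
  have h1 := h.ball hr2 ho (BtI.right a b)
  have h2 := h'.ball hr2' ho' (BtI.right a' b')
  have h3 := h'.ball hr2' ho' hu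
  have e1 : g b' - g b = (g b' - g a') + (-(g u - g a') + ((g u - g a) - (g b - g a))) := by ring
  have h4 : ‖g b' - g b‖ ≤ ‖g b' - g a'‖ + (‖g u - g a'‖ + (‖g u - g a‖ + ‖g b - g a‖)) := by
    rw [e1]
    refine (norm_add_le _ _).trans (add_le_add le_rfl ((norm_add_le _ _).trans ?_))
    rw [norm_neg]
    exact add_le_add le_rfl (norm_sub_le _ _)
  linarith

/-- the two tips -/
theorem far_tips (h : GtI d E g a c b) (h' : GtI d' E' g a' c' b') (hr2 : 0 ≤ E.r2) (hr2' : 0 ≤ E'.r2) (ho : BtI a c b) (ho' : BtI a' c' b') (hD : D0 ≤ ‖g b' - g b‖) :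
    D0 - (E.r + E.r2) - (E'.r + E'.r2) ≤ ‖g a' - g a‖ := by
  have h1 := h.ball hr2 ho (BtI.right a b)
  have h2 := h'.ball hr2' ho' (BtI.right a' b')
  have e1 : g b' - g b = (g b' - g a') + ((g a' - g a) - (g b - g a)) := by ring
  have h4 : ‖g b' - g b‖ ≤ ‖g b' - g a'‖ + (‖g a' - g a‖ + ‖g b - g a‖) := by
    rw [e1]
    exact (norm_add_le _ _).trans (add_le_add le_rfl (norm_sub_le _ _))
  linarith

end far

end Pool.Agent.ROT.F3

namespace Pool.Agent.ROT.F3.CK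

open Pool.Agent.ROT.F3 Pool.Agent.ROT.F3.CC Pool.Agent.ROT.F3.LF

/-! ### 2. `FarB` -/

private lemma leA_opp {k : Arm} {a b : I} : leA (oppA k) a b ↔ leA k b a := by
  cases k <;> exact Iff.rfl

private lemma opp_opp (k : Arm) : oppA (oppA k) = k := by
  cases k <;> rfl

private lemma clA_opp (i j : Fin 3) (k : Arm) : clA i j (oppA k) = clA i j k := by
  cases k <;> rfl

/-- **the strand of the arm `k` is far from its root behind `x`** -/
structure FarB (R : ℝ) (k : Arm) (g : CC.Gm) (x : I) : Prop where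
  far : ∀ u : I, leA k x u → leA k u (rtA (oppA k) g) → 510 * R ≤ ‖g.2.2 u - g.2.2 (rtA k g)‖
  fin : 1004 * R ≤ ‖g.2.2 (rtA (oppA k) g) - g.2.2 (rtA k g)‖

/-- the closed conditions of one arm of a class of the rotated lattice, in its frame -/
structure ArB (P : Prm) (i j : Fin 3) (G : Ga) (k : Arm) (g : CC.Gm) (y : ℝ) : Prop where
  o1 : leA k (rtA k g) (G.ic k g)
  o2 : leA k (G.ic k g) (G.ix k g)
  o3 : leA k (G.ix k g) (G.ix (oppA k) g)
  gt : GtI (dirA i j k) ((endA P k).f.up y) g.2.2 (rtA k g) (G.ic k g) (G.ix k g)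
  ra : stS (fRa (dirA i j k) (endA P k).f.c (endA P k).f.r0) (cutc g.2.2 (G.ix k g) (G.ix (oppA k) g)) ≤ (endA P k).f.κ
  D : (wnA P (clA i j k)).D0 ≤ ‖g.2.2 (G.ix (oppA k) g) - g.2.2 (G.ix k g)‖

section cev

variable {P : Prm} {i j : Fin 3} {G : Ga} {g : CC.Gm} {k : Arm}

private lemma rsF_le {d d' : ℂ} {P Q : Tp} {W : Wn} {f : C(I, ℂ)} {L : ℝ} {a b : I} (h : rsF d d' P Q W f L a b ≤ 0) :
    stS (fRa d P.c P.r0) (cutc f a b) ≤ P.κ ∧ stS (fRa d' Q.c Q.r0) (cutc f b a) ≤ Q.κ ∧ W.D0 ≤ ‖f b - f a‖ := by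
  unfold rsF at h
  simp only [max_le_iff] at h
  obtain ⟨⟨⟨h1, h2⟩, h3, -⟩, -⟩ := h
  rw [cutc_one] at h3
  exact ⟨by linarith, by linarith, by linarith⟩

/-- **the conditions of the four arms of a class** -/
theorem arB_of_cev (hU : G.Un g) (hB : ∀ k, g ∈ G.B k) {y y' z z' L : ℝ}
    (h : CEv (DR P i j (wnA P i) (wnA P j) y y' z z') g.2.2 L (pji (muG g)) fun a => pji (phi8 G.B G.c G.x g a)) (k : Arm) :
    ∃ s, (s = y ∨ s = y' ∨ s = z ∨ s = z') ∧ ArB P i j G k g s := by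
  have e : ∀ a, phi8 G.B G.c G.x g a = G.t8 g a := fun a => by
    rw [phi8_t8, bi_pos (mem_iInter.2 hB), one_mul]
  obtain ⟨o1, o2, o3, o4, o5, o6, o7, o8, -, -, kA, kB, kA', kB', A, B, -⟩ := h
  simp only [e] at o1 o2 o3 o4 o5 o6 o7 o8 kA kB kA' kB' A B
  obtain ⟨a1, a2, a3⟩ := rsF_le A
  obtain ⟨b1, b2, b3⟩ := rsF_le B
  cases k
  · exact ⟨y, Or.inl rfl, hU.o1 (hB _), hU.o2 (hB _), o2, (preK_iff (ev_norm _)).1 kA, a1, a3⟩
  · refine ⟨z, Or.inr (Or.inr (Or.inl rfl)), hU.o1 (hB _), hU.o2 (hB _), o2, (preK_iff (ev_norm _)).1 kA', a2, ?_⟩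
    rw [norm_sub_rev]
    exact a3
  · refine ⟨z', Or.inr (Or.inr (Or.inr rfl)), hU.o1 (hB _), hU.o2 (hB _), o7, (preK_iff (ev_norm _)).1 kB', b2, ?_⟩
    rw [norm_sub_rev]
    exact b3
  · exact ⟨y', Or.inr (Or.inl rfl), hU.o1 (hB _), hU.o2 (hB _), o7, (preK_iff (ev_norm _)).1 kB, b1, b3⟩

/-- numbers: both ends -/
private lemma end_nums {E : En} {ε : ℝ} (h : E.Ok ε) :
    0 ≤ E.n.rg ∧ 8 * E.n.rg ≤ E.f.l + E.f.m - E.f.κ ∧ 8 * E.n.rg ≤ E.f.r0 - E.f.κ - (E.f.r + E.f.r2) ∧ 0 ≤ E.f.r ∧ 0 ≤ E.f.r2 ∧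
      8 * E.n.rg + (E.f.r + E.f.r2) ≤ E.f.r0 ∧ 8 * E.f.r0 ≤ E.s.len := by
  have h1 := h.locb
  have h2 := h.locc
  have h3 := h.n.g64
  have h4 := h.n.r
  have h5 := h.n.r2
  have h6 := h.f.r
  have h7 := h.f.r2
  have h8 := h.f.κ
  have h9 := h.bn
  have h10 := h.len
  refine ⟨by linarith, h1, by linarith, h6.le, h7.le, by linarith, by linarith⟩

/-- **the strand is far from its root behind `x`** -/
theorem farB_of_arB (hP : P.Ok) {s s' : ℝ} (h : ArB P i j G k g s) (h' : ArB P i j G (oppA k) g s') (hs : 0 ≤ s) {R : ℝ}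
    (hR0 : 0 ≤ R) (hR : 64 * R ≤ (endA P k).n.rg) : FarB R k g (G.ix k g) := by
  have hE := endA_ok hP k
  have hE' := endA_ok hP (oppA k)
  obtain ⟨a1, a2, a3, a4, a5, a6, a7⟩ := end_nums hE
  obtain ⟨b1, b2, b3, b4, b5, b6, b7⟩ := end_nums hE'
  have hl : (endA P k).s.len + (endA P (oppA k)).s.len = P.p.s.len + P.q.s.len := by
    cases k
    · rfl
    · exact add_comm _ _
    · exact add_comm _ _
    · rfl
  have hD : 16 * ((endA P k).s.len + (endA P (oppA k)).s.len) ≤ (wnA P (clA i j k)).D0 := by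
    rw [hl]
    have n1 := hP.nr
    have n2 := hP.nrc
    have n3 : 0 ≤ P.p.s.len + P.q.s.len := by
      rw [← hl]
      linarith
    unfold wnA
    split_ifs <;> linarith
  have o := h.o1.bt h.o2
  have o' := h'.o1.bt h'.o2
  have hDn : (wnA P (clA i j k)).D0 ≤ ‖g.2.2 (G.ix (oppA k) g) - g.2.2 (G.ix k g)‖ := h.D
  refine ⟨fun u h1 h2 => ?_, ?_⟩
  · by_cases hu : leA k u (G.ix (oppA k) g)
    · have k1 := far_rest (dirA_norm i j k) h.gt a5 o h.ra hE.f.co.c0 hE.f.co.c1 (h1.bt hu)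
      refine le_trans ?_ k1
      rw [le_min_iff]
      have e1 : ((endA P k).f.up s).l = (endA P k).f.l + s := rfl
      have e2 : ((endA P k).f.up s).m = (endA P k).f.m := rfl
      have e3 : ((endA P k).f.up s).r = (endA P k).f.r := rfl
      have e4 : ((endA P k).f.up s).r2 = (endA P k).f.r2 := rfl
      rw [e1, e2, e3, e4]
      constructor <;> linarith
    · have hu' : leA (oppA k) u (G.ix (oppA k) g) := by
        rw [leA_opp, leA_sg]
        rw [leA_sg] at hu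
        exact (not_le.1 hu).le
      have h3 : leA (oppA k) (rtA (oppA k) g) u := leA_opp.2 h2
      have k1 := far_end' h.gt h'.gt a5 b5 o o' hDn (h3.bt hu')
      refine le_trans ?_ k1
      have e3 : ((endA P k).f.up s).r = (endA P k).f.r := rfl
      have e4 : ((endA P k).f.up s).r2 = (endA P k).f.r2 := rfl
      have e5 : ((endA P (oppA k)).f.up s').r = (endA P (oppA k)).f.r := rfl
      have e6 : ((endA P (oppA k)).f.up s').r2 = (endA P (oppA k)).f.r2 := rfl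
      rw [e3, e4, e5, e6]
      linarith
  · have k1 := far_tips h.gt h'.gt a5 b5 o o' hDn
    refine le_trans ?_ k1
    have e3 : ((endA P k).f.up s).r = (endA P k).f.r := rfl
    have e4 : ((endA P k).f.up s).r2 = (endA P k).f.r2 := rfl
    have e5 : ((endA P (oppA k)).f.up s').r = (endA P (oppA k)).f.r := rfl
    have e6 : ((endA P (oppA k)).f.up s').r2 = (endA P (oppA k)).f.r2 := rfl
    rw [e3, e4, e5, e6]
    linarith

/-- turned curves -/
lemma FarB.rot {R : ℝ} {z : ℂ} {x : I} (hz : ‖z‖ = 1) (h : FarB R k (rotX z⁻¹ g) x) : FarB R k g x := by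
  have e : ∀ u v : I, ‖(rotX z⁻¹ g).2.2 u - (rotX z⁻¹ g).2.2 v‖ = ‖g.2.2 u - g.2.2 v‖ := fun u v => by
    show ‖z⁻¹ * g.2.2 u - z⁻¹ * g.2.2 v‖ = _
    rw [← mul_sub, norm_mul, norm_inv, hz, inv_one, one_mul]
  exact ⟨fun u h1 h2 => (h.far u h1 h2).trans_eq (e _ _), h.fin.trans_eq (e _ _)⟩

/-- **`FarB` from the closed conditions of a class of the rotated lattice**, all four arms -/
theorem farB_of_cev (hP : P.Ok) (hU : G.Un g) (hB : ∀ k, g ∈ G.B k) {y y' z z' L : ℝ} (hy : 0 ≤ y) (hy' : 0 ≤ y') (hz : 0 ≤ z)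
    (hz' : 0 ≤ z')
    (h : CEv (DR P i j (wnA P i) (wnA P j) y y' z z') g.2.2 L (pji (muG g)) fun a => pji (phi8 G.B G.c G.x g a)) (k : Arm) {R : ℝ}
    (hR0 : 0 ≤ R) (hR : 64 * R ≤ (endA P k).n.rg) : FarB R k g (G.ix k g) := by
  obtain ⟨s, hs, h1⟩ := arB_of_cev hU hB h k
  obtain ⟨s', hs', h2⟩ := arB_of_cev hU hB h (oppA k)
  have h0 : 0 ≤ s := by
    rcases hs with rfl | rfl | rfl | rfl <;> assumption
  exact farB_of_arB hP h1 h2 h0 hR0 hR

end cev

/-! ### 3. Strands -/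

section strand

variable {G : Ga} {g : CC.Gm} {k : Arm} {a b : I}

lemma rtA_opp (k : Arm) (g : CC.Gm) : rtA (oppA k) g = pji (tAt k g 1) := by
  cases k
  · show pji (muG g) = pji (1 * muG g)
    rw [one_mul]
  · show (0 : I) = pji (muG g - 1 * muG g)
    rw [one_mul, sub_self]
    exact (pji_coe 0).symm
  · show (1 : I) = pji (muG g + 1 * (1 - muG g))
    rw [one_mul, add_sub_cancel]
    exact (pji_coe 1).symm
  · show pji (muG g) = pji (1 - 1 * (1 - muG g))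
    rw [one_mul, sub_sub_cancel]

/-- the times of the gates are before the other root -/
lemma Ga.Un.o3 (h : G.Un g) (hk : g ∈ G.B k) : leA k (G.ix k g) (rtA (oppA k) g) := by
  rw [rtA_opp]
  exact tAt_le (h.h k hk).2.2

/-- real values of the roots -/
lemma rtA_coe (h0 : 0 < g.2.1) (h1 : g.2.1 < g.1) : ((rtA k g : I) : ℝ) = match k with
    | .fp => 0
    | .bq => CC.mu g
    | .fq => CC.mu g
    | .bp => 1 := by
  have e := muG_eq h0 h1
  cases k
  · rfl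
  · show ((pji (muG g) : I) : ℝ) = CC.mu g
    rw [pji_mem (muG_01 g), e]
  · show ((pji (muG g) : I) : ℝ) = CC.mu g
    rw [pji_mem (muG_01 g), e]
  · rfl

/-- **the absolute time of a point of the arm** -/
lemma ta_du (h0 : 0 < g.2.1) (h1 : g.2.1 < g.1) (ha : leA k (rtA k g) a) : LR.ta k g a = duRt k g a := by
  unfold duRt
  rw [ha.abs, rtA_coe h0 h1]
  cases k
  · show (a : ℝ) * g.1 = g.1 * (1 * ((a : ℝ) - 0))
    ring
  · show (CC.mu g - a) * g.1 = g.1 * (-1 * ((a : ℝ) - CC.mu g))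
    ring
  · show ((a : ℝ) - CC.mu g) * g.1 = g.1 * (1 * ((a : ℝ) - CC.mu g))
    ring
  · show (1 - (a : ℝ)) * g.1 = g.1 * (-1 * ((a : ℝ) - 1))
    ring

lemma nt_du (h0 : 0 < g.2.1) (h1 : g.2.1 < g.1) (ha : leA k (rtA k g) a) : LR.nt k g (duRt k g a) = a := by
  rw [← ta_du h0 h1 ha, LR.nt_ta (h0.trans h1)]

lemma du_le (hL : 0 < g.1) (ha : leA k (rtA k g) a) (hb : leA k (rtA k g) b) : duRt k g a ≤ duRt k g b ↔ leA k a b := by
  unfold duRt
  rw [ha.abs, hb.abs, leA_sg]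
  constructor
  · intro h
    have := le_of_mul_le_mul_left h hL
    linarith
  · intro h
    exact mul_le_mul_of_nonneg_left (by linarith) hL.le

/-- the duration up to a time in units of the arm -/
lemma du_tAt (h0 : 0 < g.2.1) (h1 : g.2.1 < g.1) {s : ℝ} (hs : s ∈ Icc (0 : ℝ) 1) : duRt k g (pji (tAt k g s)) = s * LR.la k g := by
  have hL : 0 < g.1 := h0.trans h1
  have e := muG_eq h0 h1
  have ha : leA k (rtA k g) (pji (tAt k g s)) := by
    rw [rtA_eq]
    exact tAt_le hs.1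
  rw [← ta_du h0 h1 ha, pji_mem (tAt_mem hs), LR.la_eq hL]
  cases k
  · show s * muG g * g.1 = s * (CC.mu g * g.1)
    rw [e, mul_assoc]
  · show (CC.mu g - (muG g - s * muG g)) * g.1 = s * (CC.mu g * g.1)
    rw [e]
    ring
  · show (muG g + s * (1 - muG g) - CC.mu g) * g.1 = s * ((1 - CC.mu g) * g.1)
    rw [e]
    ring
  · show (1 - (1 - s * (1 - muG g))) * g.1 = s * ((1 - CC.mu g) * g.1)
    rw [e]
    ring

lemma du_opp (h0 : 0 < g.2.1) (h1 : g.2.1 < g.1) : duRt k g (rtA (oppA k) g) = LR.la k g := by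
  rw [rtA_opp, du_tAt h0 h1 ⟨zero_le_one, le_rfl⟩, one_mul]

lemma la_pos (h0 : 0 < g.2.1) (h1 : g.2.1 < g.1) : 0 < LR.la k g := by
  cases k
  · exact h0
  · exact h0
  · exact sub_pos.2 h1
  · exact sub_pos.2 h1

/-- every absolute time is the time of a point of the arm -/
lemma exists_du (h0 : 0 < g.2.1) (h1 : g.2.1 < g.1) {u : ℝ} (hu : 0 ≤ u) (hu' : u ≤ LR.la k g) :
    ∃ a : I, leA k (rtA k g) a ∧ leA k a (rtA (oppA k) g) ∧ duRt k g a = u := by
  have hl := la_pos (k := k) h0 h1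
  have hs : u / LR.la k g ∈ Icc (0 : ℝ) 1 := ⟨div_nonneg hu hl.le, (div_le_one hl).2 hu'⟩
  refine ⟨pji (tAt k g (u / LR.la k g)), ?_, ?_, ?_⟩
  · rw [rtA_eq]
    exact tAt_le hs.1
  · rw [rtA_opp]
    exact tAt_le hs.2
  · rw [du_tAt h0 h1 hs, div_mul_cancel₀ _ hl.ne']

/-- **the points of the strand** -/
lemma pa_du (T : LSym) (h0 : 0 < g.2.1) (h1 : g.2.1 < g.1) (hcl : g.2.2 0 = g.2.2 1) (ha : leA k (rtA k g) a)
    (ha' : leA k a (rtA (oppA k) g)) : K7.pa (K7.lsd T k g) (duRt k g a) = T.L (g.2.2 a - g.2.2 (rtA k g)) := by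
  have hL : 0 < g.1 := h0.trans h1
  have h2 : 0 ≤ duRt k g a := mul_nonneg hL.le (abs_nonneg _)
  have h3 : duRt k g a ≤ LR.la k g := by
    rw [← du_opp h0 h1]
    exact (du_le hL ha (ha.trans ha')).2 ha'
  rw [LR.pa_lsd T hL (la_pos h0 h1) h2 h3, nt_du h0 h1 ha, CC.ex_coe]
  congr 2
  have e := rtA_coe (k := k) h0 h1
  cases k
  · show CC.ex g.2.2 0 = g.2.2 0
    rw [CC.ex_zero]
  · show CC.ex g.2.2 (CC.mu g) = g.2.2 (rtA .bq g)
    rw [← CC.ex_coe, e]
  · show CC.ex g.2.2 (CC.mu g) = g.2.2 (rtA .fq g)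
    rw [← CC.ex_coe, e]
  · show CC.ex g.2.2 0 = g.2.2 1
    rw [CC.ex_zero, hcl]

end strand

/-! ### 4. The native gates -/

/-- the diameter a little after the time `T` -/
private lemma dmP_of {pl : ℝ → ℂ} (hpc : Continuous pl) {T r r' : ℝ} (h : ∀ x y : ℝ, 0 ≤ x → x ≤ T → 0 ≤ y → y ≤ T → ‖pl x - pl y‖ ≤ r)
    (hT : 0 ≤ T) (hr : r < r') : LR.DmP pl T r' := by
  obtain ⟨ε, hε, hc⟩ := Metric.continuousAt_iff.1 (hpc.continuousAt (x := T)) ((r' - r) / 3) (by linarith)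
  have key : ∀ x : ℝ, 0 ≤ x → x ≤ T + ε / 2 → ∃ x', 0 ≤ x' ∧ x' ≤ T ∧ ‖pl x - pl x'‖ ≤ (r' - r) / 3 := by
    intro x h1 h2
    rcases le_total x T with h3 | h3
    · exact ⟨x, h1, h3, by
        rw [sub_self, norm_zero]
        linarith⟩
    · refine ⟨T, hT, le_rfl, ?_⟩
      rw [← dist_eq_norm]
      refine (hc ?_).le
      rw [Real.dist_eq, abs_of_nonneg (by linarith)]
      linarith
  refine ⟨ε / 2, by linarith, fun x y h1 h2 h3 h4 => ?_⟩
  obtain ⟨x', a1, a2, a3⟩ := key x h1 h2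
  obtain ⟨y', b1, b2, b3⟩ := key y h3 h4
  have h5 := h x' y' a1 a2 b1 b2
  have e : pl x - pl y = (pl x - pl x') + ((pl x' - pl y') - (pl y - pl y')) := by ring
  have h6 : ‖pl x - pl y‖ ≤ ‖pl x - pl x'‖ + (‖pl x' - pl y'‖ + ‖pl y - pl y'‖) := by
    rw [e]
    exact (norm_add_le _ _).trans (add_le_add le_rfl (norm_sub_le _ _))
  linarith

/-- the curves with good strands; the gates of `G0` through the functional marks (`GMk`, helper37) -/
structure GdB (G0 : Ga) (k : Arm) (β : CC.Gm → ℝ) (T : LSym) (a m : ℝ) (Xc Xx Xy : CC.Gm → ℝ) (GS : Set CC.Gm) (g : CC.Gm) : Prop where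
  gs : g ∈ GS
  m0 : 0 < g.2.1
  m1 : g.2.1 < g.1
  cl : g.2.2 0 = g.2.2 1
  un : G0.Un g
  /-- the base of the native gates is `0` -/
  β0 : β g = 0
  gm : LR.GMk (G0.B k) (G0.c k) (G0.x k) β T k a m Xc Xx Xy g

section loc

variable {P : Prm} {i j : Fin 3} {G0 GR : Ga} {g : CC.Gm} {k : Arm} {T : LSym} {β Xc Xx Xy : CC.Gm → ℝ} {GS : Set CC.Gm} {x : I}
  {la ma : ℝ}

lemma GdB.tc (h : GdB G0 k β T la ma Xc Xx Xy GS g) (hB : g ∈ G0.B k) : K7.tcL (K7.lsd T k g) (Xc g) = duRt k g (G0.ic k g) := by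
  have h1 := h.un.h k hB
  rw [K7.tcL_of (h.gm.c0 hB), ← h.gm.c hB]
  exact (du_tAt h.m0 h.m1 ⟨h1.1, h1.2.1.trans h1.2.2⟩).symm

lemma GdB.tx (h : GdB G0 k β T la ma Xc Xx Xy GS g) (hB : g ∈ G0.B k) : K7.tcL (K7.lsd T k g) (Xx g) = duRt k g (G0.ix k g) := by
  have h1 := h.un.h k hB
  rw [K7.tcL_of (h.gm.iff.1 hB).1, ← h.gm.x hB]
  exact (du_tAt h.m0 h.m1 ⟨h1.1.trans h1.2.1, h1.2.2⟩).symm

lemma GdB.pa0 (h : GdB G0 k β T la ma Xc Xx Xy GS g) : K7.pa (K7.lsd T k g) 0 = 0 := by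
  have e0 : duRt k g (rtA k g) = 0 := by
    unfold duRt
    rw [sub_self, abs_zero, mul_zero]
  have hr : leA k (rtA k g) (rtA (oppA k) g) := by
    rw [rtA_opp, rtA_eq]
    exact tAt_le zero_le_one
  have h1 : leA k (rtA k g) (rtA k g) := by
    rw [leA_sg]
  have := pa_du T h.m0 h.m1 h.cl h1 hr
  rw [e0, sub_self, map_zero] at this
  exact this

/-- **the piece root .. `x~` of the strand** -/
lemma pcL_of (h : GdB G0 k β T la ma Xc Xx Xy GS g) {R : ℝ} (hR : 0 ≤ R) (hF : FarB R k g x) (h1 : leA k (rtA k g) x) (hne : rtA k g ≠ x)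
    (h2 : leA k x (rtA (oppA k) g)) : K7.PcL R (K7.lsd T k g) 0 (duRt k g x) := by
  have hL : 0 < g.1 := h.m0.trans h.m1
  have e1 : (K7.lsd T k g).1 = LR.la k g := rfl
  have hr : leA k (rtA k g) (rtA (oppA k) g) := h1.trans h2
  refine ⟨le_rfl, ?_, ?_, fun u hu => ?_, fun u hu => ?_, ?_⟩
  · refine mul_pos hL (abs_pos.2 fun hc => hne (Subtype.ext ?_))
    linarith
  · rw [e1, ← du_opp h.m0 h.m1]
    exact (du_le hL h1 hr).2 h2
  · obtain rfl : u = 0 := le_antisymm hu.2 hu.1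
    rw [h.pa0, norm_zero]
    constructor
    · linarith
    · linarith
  · rw [e1] at hu
    have hu0 : 0 ≤ u := le_trans (mul_nonneg hL.le (abs_nonneg _)) hu.1
    obtain ⟨a, a1, a2, a3⟩ := exists_du (k := k) h.m0 h.m1 hu0 hu.2
    have a4 : leA k x a := by
      rw [← du_le hL h1 a1, a3]
      exact hu.1
    rw [← a3, pa_du T h.m0 h.m1 h.cl a1 a2, LinearIsometryEquiv.norm_map]
    exact hF.far a a4 a2
  · have h3 : leA k (rtA (oppA k) g) (rtA (oppA k) g) := by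
      rw [leA_sg]
    rw [e1, ← du_opp h.m0 h.m1, pa_du T h.m0 h.m1 h.cl hr h3, LinearIsometryEquiv.norm_map]
    exact hF.fin

/-- the diameter of the strand up to a gate -/
lemma dmP_du (h : GdB G0 k β T la ma Xc Xx Xy GS g) {a : I} (h1 : leA k (rtA k g) a) (h2 : leA k a (rtA (oppA k) g)) {r r' : ℝ} (hr : r < r')
    (hb : ∀ u v : I, leA k (rtA k g) u → leA k u a → leA k (rtA k g) v → leA k v a → ‖g.2.2 u - g.2.2 v‖ ≤ r) :
    LR.DmP (K7.pa (K7.lsd T k g)) (duRt k g a) r' := by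
  have hL : 0 < g.1 := h.m0.trans h.m1
  have hla : duRt k g a ≤ LR.la k g := by
    rw [← du_opp h.m0 h.m1]
    exact (du_le hL h1 (h1.trans h2)).2 h2
  refine dmP_of (K7.pa_cont _) (fun x y x0 x1 y0 y1 => ?_) (mul_nonneg hL.le (abs_nonneg _)) hr
  obtain ⟨u, u1, u2, u3⟩ := exists_du (k := k) h.m0 h.m1 x0 (x1.trans hla)
  obtain ⟨v, v1, v2, v3⟩ := exists_du (k := k) h.m0 h.m1 y0 (y1.trans hla)
  rw [← u3, du_le hL u1 h1] at x1
  rw [← v3, du_le hL v1 h1] at y1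
  rw [← u3, ← v3, pa_du T h.m0 h.m1 h.cl u1 u2, pa_du T h.m0 h.m1 h.cl v1 v2, ← map_sub, LinearIsometryEquiv.norm_map,
    sub_sub_sub_cancel_right]
  exact hb u v u1 x1 v1 y1

/-- balls and diameters of a double gate -/
lemma gt_diam {d : ℂ} {E : Tp} {f : C(I, ℂ)} {a c b : I} (h : GtI d E f a c b) (hr : 0 ≤ E.r) (hr2 : 2 * E.r ≤ E.r2)
    (h1 : leA k a c) :
    (∀ u v : I, leA k a u → leA k u c → leA k a v → leA k v c → ‖f u - f v‖ ≤ 2 * E.r) ∧
      ∀ u v : I, leA k a u → leA k u b → leA k a v → leA k v b → ‖f u - f v‖ ≤ 2 * E.r2 := by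
  have tri : ∀ {u v w : I} {x y : ℝ}, ‖f u - f w‖ ≤ x → ‖f v - f w‖ ≤ y → ‖f u - f v‖ ≤ x + y := by
    intro u v w x y h3 h4
    have e : f u - f v = (f u - f w) - (f v - f w) := by ring
    rw [e]
    exact (norm_sub_le _ _).trans (add_le_add h3 h4)
  have k1 : ∀ u : I, leA k a u → leA k u c → ‖f u - f a‖ ≤ E.r := fun u h3 h4 => h.b1 u (h3.bt h4)
  have k2 : ∀ u : I, leA k c u → leA k u b → ‖f u - f c‖ ≤ E.r2 := fun u h3 h4 => h.b2 u (h3.bt h4)
  have tot : ∀ u v : I, leA k u v ∨ leA k v u := fun u v => by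
    rw [leA_sg, leA_sg]
    exact le_total _ _
  refine ⟨fun u v h3 h4 h5 h6 => ?_, fun u v h3 h4 h5 h6 => ?_⟩
  · have := tri (k1 u h3 h4) (k1 v h5 h6)
    linarith
  · have kc : ‖f c - f a‖ ≤ E.r := k1 c h1 (by rw [leA_sg])
    have kd : ∀ u : I, leA k a u → leA k u c → ‖f u - f c‖ ≤ 2 * E.r := fun u h7 h8 => by
      have h9 := k1 u h7 h8
      have e : f u - f c = (f u - f a) - (f c - f a) := by ring
      rw [e]
      refine (norm_sub_le _ _).trans ?_
      linarith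
    rcases tot u c with h7 | h7
    · rcases tot v c with h8 | h8
      · have := tri (k1 u h3 h7) (k1 v h5 h8)
        linarith
      · have := tri (kd u h3 h7) (k2 v h8 h6)
        linarith
    · rcases tot v c with h8 | h8
      · have := tri (k2 u h7 h4) (kd v h5 h8)
        linarith
      · have := tri (k2 u h7 h4) (k2 v h8 h6)
        linarith

/-- radii of a double gate, up to a gate -/
lemma rad_du (h : GdB G0 k β T la ma Xc Xx Xy GS g) {a : I} (h1 : leA k (rtA k g) a) (h2 : leA k a (rtA (oppA k) g)) {r : ℝ}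
    (hb : ∀ u : I, leA k (rtA k g) u → leA k u a → ‖g.2.2 u - g.2.2 (rtA k g)‖ ≤ r) :
    ∀ u ∈ Icc (0 : ℝ) (duRt k g a), ‖K7.pa (K7.lsd T k g) u - K7.pa (K7.lsd T k g) 0‖ ≤ r := by
  intro u hu
  have hL : 0 < g.1 := h.m0.trans h.m1
  have hla : duRt k g a ≤ LR.la k g := by
    rw [← du_opp h.m0 h.m1]
    exact (du_le hL h1 (h1.trans h2)).2 h2
  obtain ⟨v, v1, v2, v3⟩ := exists_du (k := k) h.m0 h.m1 hu.1 (hu.2.trans hla)
  have h3 : leA k v a := by
    rw [← du_le hL v1 h1, v3]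
    exact hu.2
  rw [h.pa0, sub_zero, ← v3, pa_du T h.m0 h.m1 h.cl v1 v2, LinearIsometryEquiv.norm_map]
  exact hb v v1 h3

/-- `x` is strictly before `x~` -/
lemma ngS_ne (hP : P.Ok) (N : NgS P i j G0 GR k g) : G0.ix k g ≠ GR.ix k g := by
  intro he
  have hE := endA_ok hP k
  have h1 := N.kc
  unfold kcF at h1
  simp only [max_le_iff] at h1
  have h2 := h1.2.1.2
  rw [← he, cutc_one, sub_self, zero_sub, norm_neg, norm_mul, dirA_norm, mul_one, Complex.norm_real, Real.norm_eq_abs] at h2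
  have h3 := le_abs_self (endA P k).kc
  have h4 := hE.kc
  have h5 := hE.kr'
  have h6 := hE.n.m22
  have h7 := hE.loca
  have h8 := hE.n.r
  have h9 := hE.f.r
  have h10 := hE.f.m
  have h11 := hE.n.m
  linarith

/-- the root is strictly before `c` -/
lemma ngS_ne0 (hP : P.Ok) (N : NgS P i j G0 GR k g) : rtA k g ≠ G0.ic k g := by
  intro he
  have hE := endA_ok hP k
  have h1 := ((preK_iff (dirA_norm i j k)).1 N.pk).l
  rw [← he, sub_self, show lv (dirA i j k) 0 = 0 by unfold lv; simp] at h1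
  linarith [hE.n.l]

/-- **locality of the native gates of the connections** from 37's form of `loc_strand`; `R2` = scale of `x`, `R3` = scale of the block
mark; `X` = good strands -/
theorem locB_of (hP : P.Ok) {ι : Type*} {H : ι → Ga} {w : ι → CC.Gm → ℝ≥0∞} {Gd : ι → Set CC.Gm}
    {R R2 R3 z lo hi rl sl sl' rr sr : ℝ} (hR : 0 ≤ R) (hR2 : 0 ≤ R2) (hR3 : 0 ≤ R3) (hz : 0 ≤ z) (hlo : lo < la) (hhi : la < hi)
    (hrl : 2 * (endA P k).n.r < rl) (hsl : 2 * (endA P k).n.r2 < sl) (hsl' : 2 * (endA P k).n.r2 < sl')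
    (hrr : (endA P k).n.r ≤ rr) (hsr : (endA P k).n.r + (endA P k).n.r2 ≤ sr)
    (S : LR.LocS R R2 z la lo hi rl sl rr sr T k GS β Xc Xx T k GS β Xc Xx)
    (Sy : LR.LocS R R3 z la lo hi rl sl' rr sr T k GS β Xc Xy T k GS β Xc Xy)
    (hG : ∀ n, ∀ g ∈ Gd n, w n g ≠ 0 → GdB G0 k β T la ma Xc Xx Xy GS g)
    (hw : ∀ n, ∀ g ∈ Gd n, w n g ≠ 0 → OrA ((H n).rot P.u) k g ∧ leA k (((H n).rot P.u).ix k g) (rtA (oppA k) g) ∧
      FarB R k g (((H n).rot P.u).ix k g) ∧ FarB R2 k g (((H n).rot P.u).ix k g) ∧ FarB R3 k g (((H n).rot P.u).ix k g)) :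
    LocB P i j G0 H w Gd k := by
  intro n n' g hg g' hg' w1 w2 he _ N
  have D := hG n g hg w1
  have D' := hG n' g' hg' w2
  obtain ⟨o, o3, f1, f2, f3⟩ := hw n g hg w1
  obtain ⟨o', o3', f1', f2', f3'⟩ := hw n' g' hg' w2
  have hE := endA_ok hP k
  have hL : 0 < g.1 := D.m0.trans D.m1
  have hL' : 0 < g'.1 := D'.m0.trans D'.m1
  have ox := o.o1.trans o.o2
  have ox' := o'.o1.trans o'.o2
  have x1 : leA k (G0.ix k g) (((H n).rot P.u).ix k g) := N.o3.trans N.o4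
  have r1 : leA k (rtA k g) (G0.ix k g) := N.o1.trans N.o2
  have c1 : leA k (G0.ic k g) (rtA (oppA k) g) := N.o2.trans (x1.trans o3)
  have gt := (preK_iff (dirA_norm i j k)).1 N.pk
  have hn2 : 2 * (endA P k).n.r ≤ (endA P k).n.r2 := by
    have h1 := hE.n.m8
    have h2 := hE.n.m22
    have h3 := hE.n.r
    linarith
  obtain ⟨dm1, dm2⟩ := gt_diam (k := k) gt hE.n.r.le hn2 N.o1
  have bl := gt.b1
  have bl2 : ∀ u : I, leA k (rtA k g) u → leA k u (G0.ix k g) → ‖g.2.2 u - g.2.2 (rtA k g)‖ ≤ sr := fun u h1 h2 =>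
    (gt.ball hE.n.r2.le (N.o1.bt N.o2) (h1.bt h2)).trans hsr
  -- equal pieces
  have q1 := pcL_of D hR f1 ox o.nx o3
  have q1' := pcL_of D' hR f1' ox' o'.nx o3'
  have hct : K7.ctp (K7.lsd T k g) 0 (duRt k g (((H n).rot P.u).ix k g)) =
      K7.ctp (K7.lsd T k g') 0 (duRt k g' (((H n').rot P.u).ix k g')) := by
    refine LR.ctp_congr T hL hL' (la_pos D.m0 D.m1) (la_pos D'.m0 D'.m1) le_rfl q1.te.le q1.e1 le_rfl q1'.te.le q1'.e1 ?_
    have z0 : ∀ {g : CC.Gm}, 0 < g.2.1 → g.2.1 < g.1 → LR.nt k g 0 = (rtA k g : I) := by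
      intro g h0 h1
      have e0 : duRt k g (rtA k g) = 0 := by
        unfold duRt
        rw [sub_self, abs_zero, mul_zero]
      have h2 := nt_du (k := k) (a := rtA k g) h0 h1 (by rw [leA_sg])
      rwa [e0] at h2
    rw [z0 D.m0 D.m1, z0 D'.m0 D'.m1, nt_du D.m0 D.m1 ox, nt_du D'.m0 D'.m1 ox']
    exact he
  have hlt : duRt k g (G0.ix k g) < duRt k g (((H n).rot P.u).ix k g) := by
    have h1 := (du_le hL r1 ox).2 x1
    refine lt_of_le_of_ne h1 fun hc => ngS_ne hP N ?_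
    have h2 := (du_le hL ox r1).1 hc.ge
    exact x1.anti h2
  have hpos : 0 < duRt k g (G0.ic k g) := by
    refine mul_pos hL (abs_pos.2 fun hc => ngS_ne0 hP N (Subtype.ext ?_))
    linarith
  have sp : ∀ {g : CC.Gm} {e : ℝ} (D : GdB G0 k β T la ma Xc Xx Xy GS g), K7.PcL R (K7.lsd T k g) 0 e → K7.PcL R2 (K7.lsd T k g) 0 e →
      K7.PcL R3 (K7.lsd T k g) 0 e → LR.StP R R2 R3 z la lo hi (K7.lsd T k g) (β g) 0 e := by
    intro g e D h1 h2 h3
    refine ⟨h1, h2, h3, fun u hu => ?_, ?_, ?_, ?_⟩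
    · obtain rfl : u = 0 := le_antisymm hu.2 hu.1
      rw [D.pa0, norm_zero]
      exact hz
    · rw [D.β0, D.pa0]
      rfl
    · rw [D.β0, zero_add]
      exact hlo
    · rw [D.β0, zero_add]
      exact hhi
  have F := sp D q1 (pcL_of D hR2 f2 ox o.nx o3) (pcL_of D hR3 f3 ox o.nx o3)
  have F' := sp D' q1' (pcL_of D' hR2 f2' ox' o'.nx o3') (pcL_of D' hR3 f3' ox' o'.nx o3')
  have hc : K7.tcL (K7.lsd T k g) (G0.c k g) = duRt k g (G0.ic k g) := by
    rw [D.gm.c N.e]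
    exact D.tc N.e
  have hx : K7.tcL (K7.lsd T k g) (G0.x k g) = duRt k g (G0.ix k g) := by
    rw [D.gm.x N.e]
    exact D.tx N.e
  obtain ⟨hB', b2, b3⟩ := LR.gate_core S Sy D.gs D'.gs D.gm D'.gm F F' hct N.e (by rw [hc]; exact hpos) (by rw [hx]; exact hlt)
    (by rw [hc]; exact dmP_du D N.o1 c1 hrl dm1) (by rw [hx]; exact dmP_du D r1 (x1.trans o3) hsl dm2)
    (by rw [hx]; exact dmP_du D r1 (x1.trans o3) hsl' dm2)
    (by rw [hc]; exact rad_du D N.o1 c1 fun u h1 h2 => (bl u (h1.bt h2)).trans hrr)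
    (by rw [hx]; exact rad_du D r1 (x1.trans o3) bl2)
  have hc' : K7.tcL (K7.lsd T k g') (G0.c k g') = duRt k g' (G0.ic k g') := by
    rw [D'.gm.c hB']
    exact D'.tc hB'
  have hx' : K7.tcL (K7.lsd T k g') (G0.x k g') = duRt k g' (G0.ix k g') := by
    rw [D'.gm.x hB']
    exact D'.tx hB'
  rw [hc, hc', sub_zero, sub_zero] at b2
  rw [hx, hx', sub_zero, sub_zero] at b3
  exact ⟨hB', b2.symm, b3.symm⟩

end loc

end Pool.Agent.ROT.F3.CK
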