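import Pool.Agent.ROT.F3LimF2

/-!
# F3, limit side (helper90): events of words and their limits

Systems as in `F3LimF`.
* **`Lm.sand`** : `q` a functional in `[0, 1]` which is squeezed by the condition `F (c, p) ≤ 0` on `{e ≠ 0}`, up to small errors of the
  threshold and up to words of small mass; `ν {E ≠ 0, F (g, Φ g) = 0} = 0`. Then `e q → E 1[F (g, Φ g) ≤ 0]`;
* `Lm.le`, `Lm.nonneg` : order;
* `Ev A 𝒜` : the event `A` of words converges to the Borel set `𝒜` of limit curves: `Ev.and`, `Ev.not`, `Ev.or`, `Ev.congr`,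
  `Ev.close`, `Ev.unique`, `Ev.le`, `Ev.tendsto`; **`Ev.sand`**;
* `gen` : `ν {F (g, Φ g) = a} = 0` for all but countably many `a`.
-/

set_option autoImplicit false
set_option linter.unusedSectionVars false

open MeasureTheory Filter Topology Set BoundedContinuousFunction
open scoped ENNReal NNReal Classical

namespace Pool.Agent.ROT.F3.LF

variable {ι : Type*} {l : Filter ι} {Ω : ι → Type*} [∀ i, MeasurableSpace (Ω i)] {P : ∀ i, Measure (Ω i)}
  {X : Type*} [PseudoMetricSpace X] [MeasurableSpace X] [BorelSpace X] {c : ∀ i, Ω i → X} {ν : Measure X}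

/-- `0` for `s ≤ 0`, `1` for `s ≥ 1` -/
noncomputable def rmp (s : ℝ) : ℝ := max 0 (min 1 s)

lemma rmp_cont : Continuous rmp := by unfold rmp; fun_prop

lemma rmp_nonneg (s : ℝ) : 0 ≤ rmp s := le_max_left _ _

lemma rmp_le (s : ℝ) : rmp s ≤ 1 := max_le zero_le_one (min_le_left _ _)

lemma rmp_of {s : ℝ} (h : s ≤ 0) : rmp s = 0 := by
  unfold rmp
  exact max_eq_left ((min_le_right _ _).trans h)

lemma rmp_of' {s : ℝ} (h : 1 ≤ s) : rmp s = 1 := by
  unfold rmp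
  rw [min_eq_left h]
  exact max_eq_right zero_le_one

/-- lower and upper approximation of `1[t ≤ 0]` -/
noncomputable def rlo (δ t : ℝ) : ℝ := rmp ((-t - δ) / δ)
noncomputable def rup (δ t : ℝ) : ℝ := rmp ((2 * δ - t) / δ)

lemma rlo_cont (δ : ℝ) : Continuous (rlo δ) := rmp_cont.comp (by fun_prop)
lemma rup_cont (δ : ℝ) : Continuous (rup δ) := rmp_cont.comp (by fun_prop)

lemma rlo_zero {δ t : ℝ} (hδ : 0 < δ) (h : -δ ≤ t) : rlo δ t = 0 := by
  refine rmp_of ?_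
  rw [div_le_iff₀ hδ]
  linarith

lemma rlo_one {δ t : ℝ} (hδ : 0 < δ) (h : t ≤ -(2 * δ)) : rlo δ t = 1 := by
  refine rmp_of' ?_
  rw [le_div_iff₀ hδ]
  linarith

lemma rup_one {δ t : ℝ} (hδ : 0 < δ) (h : t ≤ δ) : rup δ t = 1 := by
  refine rmp_of' ?_
  rw [le_div_iff₀ hδ]
  linarith

lemma rup_zero {δ t : ℝ} (hδ : 0 < δ) (h : 2 * δ ≤ t) : rup δ t = 0 := by
  refine rmp_of ?_
  rw [div_le_iff₀ hδ]
  linarith

lemma rlo_le_rup {δ : ℝ} (hδ : 0 < δ) (t : ℝ) : rlo δ t ≤ rup δ t := by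
  rcases le_total t δ with h | h
  · rw [rup_one hδ h]
    exact rmp_le _
  · rw [rlo_zero hδ (by linarith)]
    exact rmp_nonneg _

/-- squeezed between the two approximations -/
lemma abs_sub_rlo {δ t q : ℝ} (hδ : 0 < δ) (q0 : 0 ≤ q) (q1 : q ≤ 1) (h1 : t ≤ -δ → q = 1) (h2 : q ≠ 0 → t ≤ δ) :
    |q - rlo δ t| ≤ rup δ t - rlo δ t := by
  have e1 : rlo δ t ≤ q := by
    rcases le_total t (-δ) with h | h
    · rw [h1 h]
      exact rmp_le _
    · rw [rlo_zero hδ h]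
      exact q0
  have e2 : q ≤ rup δ t := by
    by_cases h : q = 0
    · rw [h]
      exact rmp_nonneg _
    · rw [rup_one hδ (h2 h)]
      exact q1
  rw [abs_of_nonneg (by linarith)]
  linarith

section sand

variable [CompleteSpace X] [SecondCountableTopology X] {κ : Type*} [Fintype κ] {p : ∀ i, Ω i → κ → ℝ} {Φ : X → κ → ℝ}

/-- a function of an unbounded continuous function -/
lemma Lm.ramp (hC : Cv l P c ν) (h : ∀ k, Lm l P c ν (fun i ω => p i ω k) fun x => Φ x k) {F : X × (κ → ℝ) → ℝ}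
    (hF : Continuous F) {f : ℝ → ℝ} (hf : Continuous f) (h0 : ∀ t, 0 ≤ f t) (h1 : ∀ t, f t ≤ 1) :
    Lm l P c ν (fun i ω => f (F (c i ω, p i ω))) fun x => f (F (x, Φ x)) :=
  Lm.comp hC h (hf.comp hF) (B := 1) fun z => abs_le.2 ⟨le_trans (by norm_num) (h0 (F z)), h1 _⟩

/-- **squeezed functionals** -/
theorem Lm.sand (hC : Cv l P c ν) (hp : ∀ k, Lm l P c ν (fun i ω => p i ω k) fun x => Φ x k) {e : ∀ i, Ω i → ℝ} {E : X → ℝ}
    (he : Lm l P c ν e E) (e0 : ∀ i ω, 0 ≤ e i ω) (E0 : ∀ x, 0 ≤ E x) {F : X × (κ → ℝ) → ℝ} (hF : Continuous F)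
    {q : ∀ i, Ω i → ℝ} (mq : ∀ i, Measurable (q i)) (q0 : ∀ i ω, 0 ≤ q i ω) (q1 : ∀ i ω, q i ω ≤ 1)
    (sq : ∀ δ : ℝ, 0 < δ → ∀ᶠ i in l, ∃ B : Set (Ω i), MeasurableSet B ∧ (P i).real B ≤ δ ∧ ∀ ω, ω ∉ B → e i ω ≠ 0 →
      (F (c i ω, p i ω) ≤ -δ → q i ω = 1) ∧ (q i ω ≠ 0 → F (c i ω, p i ω) ≤ δ))
    (h0 : ν {x | E x ≠ 0 ∧ F (x, Φ x) = 0} = 0) :
    Lm l P c ν (fun i ω => e i ω * q i ω) fun x => E x * (if F (x, Φ x) ≤ 0 then 1 else 0) := by
  have hfin := hC.fin'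
  obtain ⟨Ce, hCe⟩ := he.bd
  obtain ⟨CE, hCE⟩ := he.bd'
  have hpm : ∀ i, Measurable (p i) := fun i => measurable_pi_iff.2 fun k => (hp k).ms i
  have hΦm : Measurable Φ := measurable_pi_iff.2 fun k => (hp k).ms'
  have hFm : Measurable fun x => F (x, Φ x) := hF.measurable.comp (measurable_id.prodMk hΦm)
  have hIm : Measurable fun x => (if F (x, Φ x) ≤ 0 then (1 : ℝ) else 0) :=
    Measurable.ite (measurableSet_le hFm measurable_const) measurable_const measurable_const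
  obtain ⟨D, hD⟩ : ∃ D : ℝ, D = |Ce| + |CE| + 1 := ⟨_, rfl⟩
  have hD1 : 1 ≤ D := by
    rw [hD]
    linarith [abs_nonneg Ce, abs_nonneg CE]
  have de : ∀ i ω, e i ω ≤ D := fun i ω => by
    rw [hD]
    linarith [(abs_le.1 (hCe i ω)).2, le_abs_self Ce, abs_nonneg CE]
  have dE : ∀ x, E x ≤ D := fun x => by
    rw [hD]
    linarith [(abs_le.1 (hCE x)).2, le_abs_self CE, abs_nonneg Ce]
  have lmr : ∀ {f : ℝ → ℝ}, Continuous f → (∀ t, 0 ≤ f t) → (∀ t, f t ≤ 1) →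
      Lm l P c ν (fun i ω => e i ω * f (F (c i ω, p i ω))) fun x => E x * f (F (x, Φ x)) := fun hf f0 f1 =>
    Lm.mul hC he (Lm.ramp hC hp hF hf f0 f1)
  refine Lm.closed hC (fun i => (he.ms i).mul (mq i)) ⟨D, fun i ω => ?_⟩ (he.ms'.mul hIm) ⟨D, fun x => ?_⟩ fun ε hε => ?_
  · rw [abs_of_nonneg (mul_nonneg (e0 i ω) (q0 i ω))]
    calc e i ω * q i ω ≤ D * 1 := mul_le_mul (de i ω) (q1 i ω) (q0 i ω) (by linarith)
      _ = D := mul_one D
  · have hI : (0 : ℝ) ≤ (if F (x, Φ x) ≤ 0 then (1 : ℝ) else 0) ∧ (if F (x, Φ x) ≤ 0 then (1 : ℝ) else 0) ≤ 1 := by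
      split_ifs <;> norm_num
    rw [abs_of_nonneg (mul_nonneg (E0 x) hI.1)]
    calc E x * _ ≤ D * 1 := mul_le_mul (dE x) hI.2 hI.1 (by linarith)
      _ = D := mul_one D
  -- the gap in the limit
  have hgap : Tendsto (fun n : ℕ => ∫ x, E x * (rup (1 / ((n : ℝ) + 1)) (F (x, Φ x)) - rlo (1 / ((n : ℝ) + 1)) (F (x, Φ x))) ∂ν)
      atTop (𝓝 0) := by
    have h1 : Tendsto (fun n : ℕ => ∫ x, E x * (rup (1 / ((n : ℝ) + 1)) (F (x, Φ x)) - rlo (1 / ((n : ℝ) + 1)) (F (x, Φ x))) ∂ν)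
        atTop (𝓝 (∫ _, (0 : ℝ) ∂ν)) := by
      refine tendsto_integral_of_dominated_convergence (fun _ => D) (fun n => ?_) (integrable_const _) (fun n => ?_) ?_
      · exact (he.ms'.mul (((rup_cont _).measurable.comp hFm).sub ((rlo_cont _).measurable.comp hFm))).aestronglyMeasurable
      · refine Eventually.of_forall fun x => ?_
        have hd : (0 : ℝ) < 1 / ((n : ℝ) + 1) := by positivity
        have g0 := rlo_le_rup hd (F (x, Φ x))
        have g1 : rup (1 / ((n : ℝ) + 1)) (F (x, Φ x)) ≤ 1 := rmp_le _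
        have g2 : 0 ≤ rlo (1 / ((n : ℝ) + 1)) (F (x, Φ x)) := rmp_nonneg _
        rw [Real.norm_eq_abs, abs_of_nonneg (mul_nonneg (E0 x) (by linarith))]
        calc E x * _ ≤ D * 1 := mul_le_mul (dE x) (by linarith) (by linarith) (by linarith)
          _ = D := mul_one D
      · have hae : ∀ᵐ x ∂ν, ¬ (E x ≠ 0 ∧ F (x, Φ x) = 0) := by
          rw [ae_iff]
          simpa using h0
        filter_upwards [hae] with x hx
        by_cases hE : E x = 0
        · simp [hE]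
        · have hne : F (x, Φ x) ≠ 0 := fun h => hx ⟨hE, h⟩
          refine tendsto_const_nhds.congr' ?_
          have h2 : Tendsto (fun n : ℕ => 1 / ((n : ℝ) + 1)) atTop (𝓝 0) := tendsto_one_div_add_atTop_nhds_zero_nat
          have h3 : 0 < |F (x, Φ x)| / 2 := by
            have := abs_pos.2 hne
            positivity
          filter_upwards [h2.eventually (gt_mem_nhds h3)] with n hn
          have hd : (0 : ℝ) < 1 / ((n : ℝ) + 1) := by positivity
          rcases lt_or_gt_of_ne hne with h4 | h4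
          · rw [abs_of_neg h4] at hn
            rw [rup_one hd (by linarith), rlo_one hd (by linarith)]
            simp
          · rw [abs_of_pos h4] at hn
            rw [rup_zero hd (by linarith), rlo_zero hd (by linarith)]
            simp
    simpa using h1
  obtain ⟨n, hn⟩ := (hgap.eventually (gt_mem_nhds (show (0 : ℝ) < ε / 2 by positivity))).exists
  obtain ⟨δ, hδd⟩ : ∃ δ : ℝ, δ = 1 / ((n : ℝ) + 1) := ⟨_, rfl⟩
  have hδ : 0 < δ := by
    rw [hδd]
    positivity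
  rw [← hδd] at hn
  have lg : Lm l P c ν (fun i ω => e i ω * (rup δ (F (c i ω, p i ω)) - rlo δ (F (c i ω, p i ω))))
      fun x => E x * (rup δ (F (x, Φ x)) - rlo δ (F (x, Φ x))) :=
    lmr (f := fun t => rup δ t - rlo δ t) ((rup_cont δ).sub (rlo_cont δ)) (fun t => by linarith [rlo_le_rup hδ t]) fun t => by
      have g1 : rup δ t ≤ 1 := rmp_le _
      have g2 : 0 ≤ rlo δ t := rmp_nonneg _
      linarith
  refine ⟨fun i ω => e i ω * rlo δ (F (c i ω, p i ω)), fun x => E x * rlo δ (F (x, Φ x)),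
    lmr (rlo_cont δ) (fun _ => rmp_nonneg _) fun _ => rmp_le _, ?_, ?_⟩
  · have hle : ∀ x, |E x * (if F (x, Φ x) ≤ 0 then (1 : ℝ) else 0) - E x * rlo δ (F (x, Φ x))| ≤
        E x * (rup δ (F (x, Φ x)) - rlo δ (F (x, Φ x))) := fun x => by
      rw [← mul_sub, abs_mul, abs_of_nonneg (E0 x)]
      refine mul_le_mul_of_nonneg_left (abs_sub_rlo hδ ?_ ?_ ?_ ?_) (E0 x)
      · split_ifs <;> norm_num
      · split_ifs <;> norm_num
      · intro h
        exact if_pos (by linarith)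
      · intro h
        by_contra h2
        exact h (if_neg (by linarith))
    refine le_trans (integral_mono ?_ (lg.int' hC) hle) (by linarith)
    have hb : ∀ x, |E x * (if F (x, Φ x) ≤ 0 then (1 : ℝ) else 0)| ≤ D := fun x => by
      have hI : (0 : ℝ) ≤ (if F (x, Φ x) ≤ 0 then (1 : ℝ) else 0) ∧ (if F (x, Φ x) ≤ 0 then (1 : ℝ) else 0) ≤ 1 := by
        split_ifs <;> norm_num
      rw [abs_of_nonneg (mul_nonneg (E0 x) hI.1)]
      calc E x * _ ≤ D * 1 := mul_le_mul (dE x) hI.2 hI.1 (by linarith)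
        _ = D := mul_one D
    exact ((itg (he.ms'.mul hIm) hb).sub ((lmr (rlo_cont δ) (fun _ => rmp_nonneg _) fun _ => rmp_le _).int' hC)).abs
  · have hlim := (lg.tendsto hC).eventually (gt_mem_nhds hn)
    have hδ' : 0 < min δ (ε / (2 * D)) := lt_min hδ (by positivity)
    filter_upwards [hlim, sq _ hδ'] with i hi hsq
    obtain ⟨B, mB, hB, hs⟩ := hsq
    have := hC.fin i
    have hle : ∀ ω, |e i ω * q i ω - e i ω * rlo δ (F (c i ω, p i ω))| ≤
        e i ω * (rup δ (F (c i ω, p i ω)) - rlo δ (F (c i ω, p i ω))) + B.indicator (fun _ => D) ω := fun ω => by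
      have g0 := rlo_le_rup hδ (F (c i ω, p i ω))
      by_cases hω : ω ∈ B
      · rw [indicator_of_mem hω, ← mul_sub, abs_mul, abs_of_nonneg (e0 i ω)]
        have h1 : |q i ω - rlo δ (F (c i ω, p i ω))| ≤ 1 := by
          have g2 : 0 ≤ rlo δ (F (c i ω, p i ω)) := rmp_nonneg _
          have g3 : rlo δ (F (c i ω, p i ω)) ≤ 1 := rmp_le _
          rw [abs_le]
          constructor <;> linarith [q0 i ω, q1 i ω]
        have h2 : e i ω * |q i ω - rlo δ (F (c i ω, p i ω))| ≤ D * 1 := mul_le_mul (de i ω) h1 (abs_nonneg _) (by linarith)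
        have h3 : 0 ≤ e i ω * (rup δ (F (c i ω, p i ω)) - rlo δ (F (c i ω, p i ω))) := mul_nonneg (e0 i ω) (by linarith)
        linarith
      · rw [indicator_of_notMem hω, add_zero, ← mul_sub, abs_mul, abs_of_nonneg (e0 i ω)]
        by_cases he0 : e i ω = 0
        · rw [he0, zero_mul, zero_mul]
        · obtain ⟨s1, s2⟩ := hs ω hω he0
          refine mul_le_mul_of_nonneg_left (abs_sub_rlo hδ (q0 i ω) (q1 i ω) (fun h => s1 ?_) fun h => ?_) (e0 i ω)
          · exact h.trans (neg_le_neg (min_le_left _ _))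
          · exact (s2 h).trans (min_le_left _ _)
    have i1 : Integrable (B.indicator fun _ => D) (P i) := (integrable_const _).indicator mB
    have i2 := lg.int hC i
    have i3 : Integrable (fun ω => |e i ω * q i ω - e i ω * rlo δ (F (c i ω, p i ω))|) (P i) := by
      have hb : ∀ ω, |e i ω * q i ω| ≤ D := fun ω => by
        rw [abs_of_nonneg (mul_nonneg (e0 i ω) (q0 i ω))]
        calc e i ω * q i ω ≤ D * 1 := mul_le_mul (de i ω) (q1 i ω) (q0 i ω) (by linarith)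
          _ = D := mul_one D
      exact ((itg ((he.ms i).mul (mq i)) hb).sub ((lmr (rlo_cont δ) (fun _ => rmp_nonneg _) fun _ => rmp_le _).int hC i)).abs
    have h5 : ∫ ω, B.indicator (fun _ => D) ω ∂P i ≤ ε / 2 := by
      rw [integral_indicator_const _ mB, smul_eq_mul]
      have h6 : (P i).real B ≤ ε / (2 * D) := hB.trans (min_le_right _ _)
      calc (P i).real B * D ≤ ε / (2 * D) * D := mul_le_mul_of_nonneg_right h6 (by linarith)
        _ = ε / 2 := by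
          field_simp
    calc ∫ ω, |e i ω * q i ω - e i ω * rlo δ (F (c i ω, p i ω))| ∂P i ≤
        ∫ ω, (e i ω * (rup δ (F (c i ω, p i ω)) - rlo δ (F (c i ω, p i ω))) + B.indicator (fun _ => D) ω) ∂P i :=
          integral_mono i3 (i2.add i1) hle
      _ = _ := integral_add i2 i1
      _ ≤ ε := by linarith

/-- all but countably many thresholds are allowed -/
theorem gen (hf : IsFiniteMeasure ν) (hΦ : Measurable Φ) {F : X × (κ → ℝ) → ℝ} (hF : Continuous F) :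
    {a : ℝ | ν {x | F (x, Φ x) = a} ≠ 0}.Countable :=
  countable_levels hf (hF.measurable.comp (measurable_id.prodMk hΦ))

end sand

section order

variable [CompleteSpace X] [SecondCountableTopology X] {p p' : ∀ i, Ω i → ℝ} {Φ Φ' : X → ℝ}

/-- order -/
theorem Lm.le [l.NeBot] (hC : Cv l P c ν) (h : Lm l P c ν p Φ) (h' : Lm l P c ν p' Φ') (hle : ∀ᶠ i in l, ∀ ω, p i ω ≤ p' i ω) :
    Φ ≤ᵐ[ν] Φ' := by
  have h1 : Lm l P c ν (fun i ω => max 0 (p i ω - p' i ω)) fun x => max 0 (Φ x - Φ' x) :=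
    Lm.comp2 hC h h' (f := fun a b => max 0 (a - b)) (by fun_prop)
  have h2 : Lm l P c ν (fun i ω => max 0 (p i ω - p' i ω)) fun _ => 0 := by
    have h0 : Lm l P c ν (fun _ _ => (0 : ℝ)) fun _ => 0 := Lm.const hC 0
    refine ⟨h1.ms, h1.bd, measurable_const, ⟨0, fun _ => by simp⟩, fun ε hε => ?_⟩
    obtain ⟨φ, h3, h4⟩ := h0.ap ε hε
    refine ⟨φ, h3, ?_⟩
    filter_upwards [h4, hle] with i i1 i2
    have e : ∀ ω, max 0 (p i ω - p' i ω) = 0 := fun ω => max_eq_left (by linarith [i2 ω])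
    simp only [e]
    exact i1
  filter_upwards [Lm.unique hC h1 h2] with x hx
  have := le_max_right 0 (Φ x - Φ' x)
  rw [hx] at this
  linarith

theorem Lm.nonneg [l.NeBot] (hC : Cv l P c ν) (h : Lm l P c ν p Φ) (h0 : ∀ᶠ i in l, ∀ ω, 0 ≤ p i ω) : ∀ᵐ x ∂ν, 0 ≤ Φ x :=
  Lm.le hC (Lm.const hC 0) h h0

/-- words of small mass do not matter -/
theorem Lm.close (hC : Cv l P c ν) (h : Lm l P c ν p Φ) (m : ∀ i, Measurable (p' i)) (b : ∃ C : ℝ, ∀ i ω, |p' i ω| ≤ C)
    (hs : ∀ δ : ℝ, 0 < δ → ∀ᶠ i in l, ∃ B : Set (Ω i), MeasurableSet B ∧ (P i).real B ≤ δ ∧ ∀ ω, ω ∉ B → |p' i ω - p i ω| ≤ δ) :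
    Lm l P c ν p' Φ := by
  refine Lm.closed hC m b h.ms' h.bd' fun ε hε => ⟨p, Φ, h, by simpa using hε.le, ?_⟩
  obtain ⟨C, hCb⟩ := b
  obtain ⟨C', hCb'⟩ := h.bd
  obtain ⟨M, hM0, -, hM⟩ := hC.bd
  obtain ⟨D, hD⟩ : ∃ D : ℝ, D = |C| + |C'| + 1 := ⟨_, rfl⟩
  have hD1 : 1 ≤ D := by
    rw [hD]
    linarith [abs_nonneg C, abs_nonneg C']
  have hδ : 0 < min (ε / (2 * D)) (ε / (2 * M)) := lt_min (by positivity) (by positivity)
  filter_upwards [hs _ hδ, hM] with i hi hMi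
  obtain ⟨B, mB, hB, hω⟩ := hi
  have := hC.fin i
  have hle : ∀ ω, |p' i ω - p i ω| ≤ ε / (2 * M) + B.indicator (fun _ => D) ω := fun ω => by
    by_cases h1 : ω ∈ B
    · rw [indicator_of_mem h1]
      have h2 := abs_sub (p' i ω) (p i ω)
      have h3 := (hCb i ω).trans (le_abs_self C)
      have h4 := (hCb' i ω).trans (le_abs_self C')
      have h5 : 0 ≤ ε / (2 * M) := by positivity
      rw [hD]
      linarith
    · rw [indicator_of_notMem h1, add_zero]
      exact (hω ω h1).trans (min_le_right _ _)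
  have i1 : Integrable (B.indicator fun _ => D) (P i) := (integrable_const _).indicator mB
  have i3 : Integrable (fun ω => |p' i ω - p i ω|) (P i) := ((itg (m i) (hCb i)).sub (h.int hC i)).abs
  calc ∫ ω, |p' i ω - p i ω| ∂P i ≤ ∫ ω, (ε / (2 * M) + B.indicator (fun _ => D) ω) ∂P i :=
        integral_mono i3 ((integrable_const _).add i1) hle
    _ = ∫ _, ε / (2 * M) ∂P i + ∫ ω, B.indicator (fun _ => D) ω ∂P i := integral_add (integrable_const _) i1
    _ ≤ ε / 2 + ε / 2 := by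
        refine add_le_add ?_ ?_
        · rw [integral_const, smul_eq_mul]
          calc (P i).real univ * (ε / (2 * M)) ≤ M * (ε / (2 * M)) := mul_le_mul_of_nonneg_right hMi (by positivity)
            _ = ε / 2 := by field_simp
        · rw [integral_indicator_const _ mB, smul_eq_mul]
          calc (P i).real B * D ≤ ε / (2 * D) * D := mul_le_mul_of_nonneg_right (hB.trans (min_le_left _ _)) (by linarith)
            _ = ε / 2 := by field_simp
    _ = ε := by ring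

end order

/-! ### events -/

/-- the indicator of a proposition -/
noncomputable def bi (A : Prop) : ℝ := if A then 1 else 0

lemma bi_pos {A : Prop} (h : A) : bi A = 1 := if_pos h

lemma bi_neg {A : Prop} (h : ¬ A) : bi A = 0 := if_neg h

lemma bi_nonneg (A : Prop) : 0 ≤ bi A := by unfold bi; split_ifs <;> norm_num

lemma bi_le (A : Prop) : bi A ≤ 1 := by unfold bi; split_ifs <;> norm_num

lemma bi_abs (A : Prop) : |bi A| ≤ 1 := abs_le.2 ⟨by linarith [bi_nonneg A], bi_le A⟩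

lemma bi_and (A B : Prop) : bi (A ∧ B) = bi A * bi B := by
  by_cases h : A <;> by_cases h' : B <;> simp [bi, h, h']

lemma bi_not (A : Prop) : bi (¬ A) = 1 - bi A := by
  by_cases h : A <;> simp [bi, h]

lemma bi_congr {A B : Prop} (h : A ↔ B) : bi A = bi B := by rw [propext h]

lemma bi_ne {A : Prop} (h : bi A ≠ 0) : A := by
  by_contra h'
  exact h (bi_neg h')

lemma bi_inj {A B : Prop} (h : bi A = bi B) : A ↔ B := by
  by_cases h1 : A <;> by_cases h2 : B <;> simp [bi, h1, h2] at h ⊢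

lemma bi_eq (A : Prop) [Decidable A] : bi A = if A then 1 else 0 := by
  unfold bi
  split_ifs <;> rfl

/-- the event `A` of words converges to the Borel set `𝒜` -/
def Ev (l : Filter ι) (P : ∀ i, Measure (Ω i)) (c : ∀ i, Ω i → X) (ν : Measure X) (A : ∀ i, Ω i → Prop) (𝒜 : Set X) : Prop :=
  Lm l P c ν (fun i ω => bi (A i ω)) fun x => bi (x ∈ 𝒜)

section ev

variable [CompleteSpace X] [SecondCountableTopology X] {A A' : ∀ i, Ω i → Prop} {𝒜 𝒜' : Set X}

lemma bi_ms {α : Type*} [MeasurableSpace α] {A : α → Prop} (h : MeasurableSet {x | A x}) : Measurable fun x => bi (A x) :=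
  Measurable.ite h measurable_const measurable_const

lemma bi_ms' {α : Type*} [MeasurableSpace α] {A : α → Prop} (h : Measurable fun x => bi (A x)) : MeasurableSet {x | A x} := by
  have e : {x | A x} = (fun x => bi (A x)) ⁻¹' {1} := by
    ext x
    rw [mem_preimage, mem_singleton_iff, mem_ofPred_eq]
    exact ⟨bi_pos, fun h => bi_ne (by rw [h]; norm_num)⟩
  rw [e]
  exact h (measurableSet_singleton 1)

lemma Ev.ms' (h : Ev l P c ν A 𝒜) : MeasurableSet 𝒜 := bi_ms' (Lm.ms' h)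

lemma Ev.ms (h : Ev l P c ν A 𝒜) (i : ι) : MeasurableSet {ω | A i ω} := bi_ms' (Lm.ms h i)

lemma Ev.univ (hC : Cv l P c ν) : Ev l P c ν (fun _ _ => True) Set.univ := by
  have h := Lm.const hC (1 : ℝ)
  unfold Ev
  simp only [bi_pos trivial, bi_pos (mem_univ _)]
  exact h

lemma Ev.empty (hC : Cv l P c ν) : Ev l P c ν (fun _ _ => False) (∅ : Set X) := by
  have h := Lm.const hC (0 : ℝ)
  unfold Ev
  simp only [bi_neg not_false, mem_empty_iff_false]
  exact h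

lemma Ev.iff (h : Ev l P c ν A 𝒜) (e : ∀ i ω, A' i ω ↔ A i ω) : Ev l P c ν A' 𝒜 := by
  have : A' = A := by
    funext i ω
    exact propext (e i ω)
  rw [this]
  exact h

theorem Ev.and (hC : Cv l P c ν) (h : Ev l P c ν A 𝒜) (h' : Ev l P c ν A' 𝒜') :
    Ev l P c ν (fun i ω => A i ω ∧ A' i ω) (𝒜 ∩ 𝒜') := by
  have h1 := Lm.mul hC h h'
  unfold Ev
  simp only [bi_and, mem_inter_iff]
  exact h1

theorem Ev.not (hC : Cv l P c ν) (h : Ev l P c ν A 𝒜) : Ev l P c ν (fun i ω => ¬ A i ω) 𝒜ᶜ := by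
  have h1 := Lm.sub hC (Lm.const hC (1 : ℝ)) h
  unfold Ev
  simp only [bi_not, mem_compl_iff]
  exact h1

theorem Ev.or (hC : Cv l P c ν) (h : Ev l P c ν A 𝒜) (h' : Ev l P c ν A' 𝒜') :
    Ev l P c ν (fun i ω => A i ω ∨ A' i ω) (𝒜 ∪ 𝒜') := by
  have h1 := ((h.not hC).and hC (h'.not hC)).not hC
  have e2 : (𝒜ᶜ ∩ 𝒜'ᶜ)ᶜ = 𝒜 ∪ 𝒜' := by
    rw [compl_inter, compl_compl, compl_compl]
  rw [e2] at h1
  exact h1.iff fun i ω => by rw [not_and_or, not_not, not_not]

theorem Ev.diff (hC : Cv l P c ν) (h : Ev l P c ν A 𝒜) (h' : Ev l P c ν A' 𝒜') :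
    Ev l P c ν (fun i ω => A i ω ∧ ¬ A' i ω) (𝒜 \ 𝒜') := h.and hC (h'.not hC)

/-- finitely many conditions -/
theorem Ev.all (hC : Cv l P c ν) {κ : Type*} (s : Finset κ) {A : κ → ∀ i, Ω i → Prop} {𝒜 : κ → Set X}
    (h : ∀ k ∈ s, Ev l P c ν (A k) (𝒜 k)) : Ev l P c ν (fun i ω => ∀ k ∈ s, A k i ω) (⋂ k ∈ s, 𝒜 k) := by
  induction s using Finset.induction_on with
  | empty =>
    have h1 := Ev.univ (l := l) (P := P) (c := c) (ν := ν) hC
    have e : (⋂ k ∈ (∅ : Finset κ), 𝒜 k) = Set.univ := by simp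
    rw [e]
    exact h1.iff fun i ω => by simp
  | insert a s ha ih =>
    have h1 := (h a (Finset.mem_insert_self a s)).and hC (ih fun k hk => h k (Finset.mem_insert_of_mem hk))
    rw [Finset.set_biInter_insert]
    exact h1.iff fun i ω => by simp

/-- the limit set does not matter on a null set -/
theorem Ev.congr (h : Ev l P c ν A 𝒜) (hm : MeasurableSet 𝒜') (e : 𝒜 =ᵐ[ν] 𝒜') : Ev l P c ν A 𝒜' := by
  refine Lm.congr h (bi_ms hm) ⟨1, fun x => bi_abs _⟩ ?_
  filter_upwards [e] with x hx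
  exact bi_congr (iff_of_eq hx)

/-- words of small mass do not matter -/
theorem Ev.close (hC : Cv l P c ν) (h : Ev l P c ν A 𝒜) (m : ∀ i, MeasurableSet {ω | A' i ω})
    (hs : ∀ δ : ℝ, 0 < δ → ∀ᶠ i in l, ∃ B : Set (Ω i), MeasurableSet B ∧ (P i).real B ≤ δ ∧ ∀ ω, ω ∉ B → (A' i ω ↔ A i ω)) :
    Ev l P c ν A' 𝒜 := by
  refine Lm.close hC h (fun i => bi_ms (m i)) ⟨1, fun i ω => bi_abs _⟩ fun δ hδ => ?_
  filter_upwards [hs δ hδ] with i hi
  obtain ⟨B, mB, hB, hω⟩ := hi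
  refine ⟨B, mB, hB, fun ω h1 => ?_⟩
  rw [bi_congr (hω ω h1), sub_self, abs_zero]
  exact hδ.le

theorem Ev.unique [l.NeBot] (hC : Cv l P c ν) (h : Ev l P c ν A 𝒜) (h' : Ev l P c ν A 𝒜') : 𝒜 =ᵐ[ν] 𝒜' := by
  filter_upwards [Lm.unique hC h h'] with x hx
  exact propext (bi_inj hx)

theorem Ev.le [l.NeBot] (hC : Cv l P c ν) (h : Ev l P c ν A 𝒜) (h' : Ev l P c ν A' 𝒜') (hs : ∀ᶠ i in l, ∀ ω, A i ω → A' i ω) :
    ∀ᵐ x ∂ν, x ∈ 𝒜 → x ∈ 𝒜' := by
  have h1 : ∀ᶠ i in l, ∀ ω, bi (A i ω) ≤ bi (A' i ω) := by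
    filter_upwards [hs] with i hi ω
    by_cases h2 : A i ω
    · rw [bi_pos h2, bi_pos (hi ω h2)]
    · rw [bi_neg h2]
      exact bi_nonneg _
  filter_upwards [Lm.le hC h h' h1] with x hx h2
  rw [bi_pos h2] at hx
  exact bi_ne fun h3 => by rw [h3] at hx; norm_num at hx

/-- the masses converge -/
theorem Ev.tendsto (hC : Cv l P c ν) (h : Ev l P c ν A 𝒜) :
    Tendsto (fun i => (P i).real {ω | A i ω}) l (𝓝 (ν.real 𝒜)) := by
  have h1 := Lm.tendsto hC h
  have e : (fun x => bi (x ∈ 𝒜)) = 𝒜.indicator fun _ => (1 : ℝ) := rfl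
  rw [e, integral_indicator_const _ h.ms', smul_eq_mul, mul_one] at h1
  refine h1.congr fun i => ?_
  have := hC.fin i
  rw [show (fun ω => bi (A i ω)) = {ω | A i ω}.indicator fun _ => (1 : ℝ) from rfl,
    integral_indicator_const _ (h.ms i), smul_eq_mul, mul_one]

/-- an event times a functional -/
theorem Ev.mul (hC : Cv l P c ν) (h : Ev l P c ν A 𝒜) {q : ∀ i, Ω i → ℝ} {Ψ : X → ℝ} (hq : Lm l P c ν q Ψ) :
    Lm l P c ν (fun i ω => bi (A i ω) * q i ω) fun x => bi (x ∈ 𝒜) * Ψ x := Lm.mul hC h hq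

variable {κ : Type*} [Fintype κ] {p : ∀ i, Ω i → κ → ℝ} {Φ : X → κ → ℝ}

/-- **conditions `F ≤ 0` on the curve and on the marks**, on the event `A` -/
theorem Ev.sand (hC : Cv l P c ν) (hp : ∀ k, Lm l P c ν (fun i ω => p i ω k) fun x => Φ x k) (hA : Ev l P c ν A 𝒜)
    {F : X × (κ → ℝ) → ℝ} (hF : Continuous F) (m : ∀ i, MeasurableSet {ω | A' i ω})
    (sq : ∀ δ : ℝ, 0 < δ → ∀ᶠ i in l, ∃ B : Set (Ω i), MeasurableSet B ∧ (P i).real B ≤ δ ∧ ∀ ω, ω ∉ B → A i ω →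
      (F (c i ω, p i ω) ≤ -δ → A' i ω) ∧ (A' i ω → F (c i ω, p i ω) ≤ δ))
    (h0 : ν {x | x ∈ 𝒜 ∧ F (x, Φ x) = 0} = 0) :
    Ev l P c ν (fun i ω => A i ω ∧ A' i ω) (𝒜 ∩ {x | F (x, Φ x) ≤ 0}) := by
  have h1 := Lm.sand hC hp hA (fun i ω => bi_nonneg _) (fun x => bi_nonneg _) hF (q := fun i ω => bi (A' i ω))
    (fun i => bi_ms (m i)) (fun i ω => bi_nonneg _) (fun i ω => bi_le _) (fun δ hδ => ?_) ?_
  · unfold Ev
    simp only [bi_and, mem_inter_iff, mem_ofPred_eq]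
    exact h1
  · filter_upwards [sq δ hδ] with i hi
    obtain ⟨B, mB, hB, hω⟩ := hi
    refine ⟨B, mB, hB, fun ω h2 h3 => ?_⟩
    obtain ⟨s1, s2⟩ := hω ω h2 (bi_ne h3)
    exact ⟨fun h => bi_pos (s1 h), fun h => s2 (bi_ne h)⟩
  · refine measure_mono_null (fun x hx => ?_) h0
    obtain ⟨h2, h3⟩ := hx
    exact ⟨bi_ne h2, h3⟩

end ev

end Pool.Agent.ROT.F3.LF
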