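import Pool.Agent.ROT.F3WLim
import Pool.Agent.ROT.F3LimEv
import Pool.Agent.ROT.F3SysN

/-!
# ROT, block F3, row NUL (U) (helper68): gates with a variable threshold and gates with fixed thresholds near it

* `mk1_near`, **`mkB_near`** : one word: stable gates (`GStab` of helper59) have almost the same times for all thresholds near `a`, also
  the second gates over them;
* **`near_ev`** : systems: off a small mass the gate over the base `b` with threshold `a` and the gates at ALL fixed levels `l` near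
  `b + a` are close;
* `LF.ex_open_le` : countably many open conditions on limit functionals;
* **`LF.mk_cont`** : in the limit, almost surely, the marks at the fixed levels `l` converge to the mark at the functional level
  as `l → β g + a` (from both sides);
* **`LF.cls_cont`** : the same for a class `{all marks exist, F (g, marks) ≤ 0}`: if the class at the functional level occurs, the classes
  at all levels near it occur.
-/

set_option autoImplicit false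

open Set Filter Topology MeasureTheory

namespace Pool.Agent.ROT.F3

open Pool.Agent.NTS.Res
open Pool.Agent.SCF.Z Pool.Agent.SCF.M

/-! ### one word -/

section det

variable {n : ℕ} {s : Fin n → Fin 3} {S : ℝ}

lemma tp_congr {D D' : ℝ → ℕ → Prop} {a a' r ρ : ℝ} {k : ℕ} (h : ∀ j, D a j ↔ D' a' j) : TP D a r ρ s k ↔ TP D' a' r ρ s k := by
  unfold TP
  simp only [h]

/-- **one gate** -/
lemma mk1_near {D D' : ℝ → ℕ → Prop} {a a' l r ρ μ η : ℝ} (hS : 0 ≤ S) (hr : r ≤ ρ) (hη : 0 ≤ η) (hμ : 0 ≤ μ) (h : |a' - a| ≤ μ)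
    (hD : ∀ j, D (a' * S) j ↔ D' (l * S) j) (hG : GStab D S a r ρ μ η s) : |mk1 D a r ρ S s - mk1 D' l r ρ S s| ≤ η := by
  obtain ⟨g1, g2⟩ := hG a' r ρ h (by simpa using hμ) (by simpa using hμ)
  by_cases hk : ∃ k, TP D (a * S) (r * S) (ρ * S) s k
  · obtain ⟨k, hk⟩ := hk
    obtain ⟨k', h1, h2⟩ := g1 k hk
    rw [mk1_of hS hr hk, mk1_of hS hr ((tp_congr hD).1 h1)]
    exact h2
  · push Not at hk
    have hk' : ∀ k', ¬ TP D' (l * S) (r * S) (ρ * S) s k' := fun k' h' => by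
      obtain ⟨k, h1, -⟩ := g2 k' ((tp_congr hD).2 h')
      exact hk k h1
    rw [mk1_no hk, mk1_no hk', sub_self, abs_zero]
    exact hη

/-- **the gate over the gate** -/
lemma mkB_near {D D' : ℝ → ℕ → Prop} {a a' l r ρ μ η m r2 ρ2 μ2 η2 : ℝ} (hS : 0 < S) (hr : r ≤ ρ) (hr2 : r2 ≤ ρ2)
    (hη2 : 0 ≤ η2) (hμ : 0 ≤ μ) (hμ2 : 0 ≤ μ2) (h : |a' - a| ≤ μ) (hD : ∀ j, D (a' * S) j ↔ D' (l * S) j)
    (hG : GStab D S a r ρ μ η s)
    (hG2 : ∀ c, TP D (a * S) (r * S) (ρ * S) s c → GStab (Dv s (pos s c).re) S m r2 ρ2 μ2 η2 s) (hm : MdS η (μ2 * S) s) :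
    |mkB D a r ρ m r2 ρ2 S s - mkB D' l r ρ m r2 ρ2 S s| ≤ η2 := by
  obtain ⟨g1, g2⟩ := hG a' r ρ h (by simpa using hμ) (by simpa using hμ)
  -- the base moves little
  have key : ∀ c c' : ℕ, TP D (a * S) (r * S) (ρ * S) s c → TP D' (l * S) (r * S) (ρ * S) s c' →
      |(c : ℝ) / n - (c' : ℝ) / n| ≤ η → ∃ m' : ℝ, |m' - m| ≤ μ2 ∧
        ∀ j, Dv s (pos s c).re (m' * S) j ↔ Dv s (pos s c').re (m * S) j := by
    intro c c' hc hc' hcc
    have h1 := hm.2 c c' hc.2.1.le hc'.2.1.le hcc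
    refine ⟨m + ((pos s c').re - (pos s c).re) / S, ?_, fun j => ?_⟩
    · rw [add_sub_cancel_left, abs_div, abs_of_pos hS, div_le_iff₀ hS, ← Complex.sub_re]
      refine (Complex.abs_re_le_norm _).trans ?_
      rw [norm_sub_rev]
      exact h1
    · unfold Dv
      have e : (m + ((pos s c').re - (pos s c).re) / S) * S = m * S + ((pos s c').re - (pos s c).re) := by
        field_simp
      rw [e]
      constructor <;> intro h3 <;> linarith
  by_cases hk : ∃ c x, GB2 D a r ρ m r2 ρ2 S s c x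
  · obtain ⟨c, x, hc, hx⟩ := hk
    obtain ⟨c', h1, h2⟩ := g1 c hc
    have h1' := (tp_congr hD).1 h1
    obtain ⟨m', h3, h4⟩ := key c c' hc h1' h2
    obtain ⟨x', h5, h6⟩ := (hG2 c hc m' r2 ρ2 h3 (by simpa using hμ2) (by simpa using hμ2)).1 x hx
    rw [mkB_of hS.le hr hr2 ⟨hc, hx⟩, mkB_of hS.le hr hr2 ⟨h1', (tp_congr h4).1 h5⟩]
    exact h6
  · push Not at hk
    have hk' : ∀ c' x', ¬ GB2 D' l r ρ m r2 ρ2 S s c' x' := fun c' x' h' => by
      obtain ⟨c, h1, h2⟩ := g2 c' ((tp_congr hD).2 h'.1)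
      obtain ⟨m', h3, h4⟩ := key c c' h1 h'.1 h2
      obtain ⟨x, h5, -⟩ := (hG2 c h1 m' r2 ρ2 h3 (by simpa using hμ2) (by simpa using hμ2)).2 x' ((tp_congr h4).2 h'.2)
      exact hk c x ⟨h1, h5⟩
    rw [mkB_no hk, mkB_no hk', sub_self, abs_zero]
    exact hη2

end det

/-! ### systems of words -/

section sys

variable {ι Ω : Type*} [MeasurableSpace Ω] {U : Filter ι} {P : ι → Measure Ω} [∀ i, IsFiniteMeasure (P i)] {nn : ι → Ω → ℕ}
  {wd : ∀ (i : ι) (s : Ω), Fin (nn i s) → Fin 3} {S : ι → ℝ} {D D' D2 : ι → Ω → ℝ → ℕ → Prop}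

/-- the stability of the gates `(a, r, ρ)` for `D`, as in `gate_stab` -/
def StbG {ι Ω : Type*} [MeasurableSpace Ω] (U : Filter ι) (P : ι → Measure Ω) (nn : ι → Ω → ℕ)
    (wd : ∀ (i : ι) (s : Ω), Fin (nn i s) → Fin 3) (S : ι → ℝ) (D : ι → Ω → ℝ → ℕ → Prop) (a r ρ : ℝ) : Prop :=
  ∀ η : ℝ, 0 < η → ∀ ε : ℝ, 0 < ε → ∃ μ0 : ℝ, 0 < μ0 ∧ ∀ μ : ℝ, μ ≤ μ0 →
    ∀ᶠ i in U, (P i).real {s | ¬ GStab (D i s) (S i) a r ρ μ η (wd i s)} ≤ ε

/-- **one gate over a base `b`, all the levels near `b + a` at once** -/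
theorem near_ev1 {a r ρ : ℝ} (hS : ∀ i, 0 < S i) (hr : r ≤ ρ) (hG : StbG U P nn wd S D a r ρ) {b : ι → Ω → ℝ}
    (hD : ∀ i s (l : ℝ) j, D i s ((l - b i s) * S i) j ↔ D' i s (l * S i) j) :
    ∀ η : ℝ, 0 < η → ∀ ε : ℝ, 0 < ε → ∃ μ : ℝ, 0 < μ ∧ ∀ᶠ i in U,
      (P i).real {s | ¬ ∀ l : ℝ, |l - (b i s + a)| ≤ μ →
        |mk1 (D i s) a r ρ (S i) (wd i s) - mk1 (D' i s) l r ρ (S i) (wd i s)| ≤ η} ≤ ε := by
  intro η hη ε hε
  obtain ⟨μ0, h0, h1⟩ := hG η hη ε hε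
  refine ⟨μ0, h0, ?_⟩
  filter_upwards [h1 μ0 le_rfl] with i hi
  refine (measureReal_mono fun s hs => ?_).trans hi
  intro hst
  refine hs fun l hl => ?_
  exact mk1_near (hS i).le hr hη.le h0.le (by rwa [sub_sub]) (hD i s l) hst

/-- **the second gate, all the levels near `b + a` at once** -/
theorem near_ev2 {a r ρ m r2 ρ2 : ℝ} (hS : ∀ i, 0 < S i) (hr : r ≤ ρ) (hr2 : r2 ≤ ρ2)
    (hmd : ∀ ω : ℝ, 0 < ω → ∀ ε : ℝ, 0 < ε → ∃ η : ℝ, 0 < η ∧ ∀ᶠ i in U, (P i).real {s | ¬ MdS η (ω * S i) (wd i s)} ≤ ε)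
    (hG : StbG U P nn wd S D a r ρ) (hG2 : StbG U P nn wd S D2 m r2 ρ2)
    (h2 : ∀ i s c, TP (D i s) (a * S i) (r * S i) (ρ * S i) (wd i s) c → D2 i s = Dv (wd i s) (pos (wd i s) c).re)
    {b : ι → Ω → ℝ} (hD : ∀ i s (l : ℝ) j, D i s ((l - b i s) * S i) j ↔ D' i s (l * S i) j) :
    ∀ η : ℝ, 0 < η → ∀ ε : ℝ, 0 < ε → ∃ μ : ℝ, 0 < μ ∧ ∀ᶠ i in U,
      (P i).real {s | ¬ ∀ l : ℝ, |l - (b i s + a)| ≤ μ →
        |mkB (D i s) a r ρ m r2 ρ2 (S i) (wd i s) - mkB (D' i s) l r ρ m r2 ρ2 (S i) (wd i s)| ≤ η} ≤ ε := by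
  intro η hη ε hε
  obtain ⟨μ2, k0, k1⟩ := hG2 η hη (ε / 3) (by positivity)
  obtain ⟨η1, l0, l1⟩ := hmd μ2 k0 (ε / 3) (by positivity)
  obtain ⟨μ0, h0, h1⟩ := hG η1 l0 (ε / 3) (by positivity)
  refine ⟨μ0, h0, ?_⟩
  filter_upwards [h1 μ0 le_rfl, k1 μ2 le_rfl, l1] with i c1 c2 c3
  refine (measureReal_mono (s₂ := ({s | ¬ GStab (D i s) (S i) a r ρ μ0 η1 (wd i s)} ∪
    {s | ¬ GStab (D2 i s) (S i) m r2 ρ2 μ2 η (wd i s)}) ∪ {s | ¬ MdS η1 (μ2 * S i) (wd i s)}) fun s hs => ?_).trans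
    ((measureReal_union_le _ _).trans ((add_le_add (measureReal_union_le _ _) le_rfl).trans (by linarith)))
  by_contra hcon
  simp only [mem_union, mem_ofPred_eq, not_or, not_not] at hcon
  obtain ⟨⟨s1, s2⟩, s3⟩ := hcon
  refine hs fun l hl => ?_
  exact mkB_near (hS i) hr hr2 hη.le h0.le k0.le (by rwa [sub_sub]) (hD i s l) s1 (fun c hc => h2 i s c hc ▸ s2) s3

end sys

/-! ### the limit -/

namespace LF

variable {ι : Type*} {l : Filter ι} {Ω : ι → Type*} [∀ i, MeasurableSpace (Ω i)] {P : ∀ i, Measure (Ω i)}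
  {X : Type*} [PseudoMetricSpace X] [MeasurableSpace X] [BorelSpace X] [CompleteSpace X] [SecondCountableTopology X]
  {c : ∀ i, Ω i → X} {ν : Measure X}

/-- **countably many open conditions on limit functionals** -/
theorem ex_open_le [l.NeBot] (hC : Cv l P c ν) {J κ : Type*} [Countable J] [Fintype κ] {p : J → ∀ i, Ω i → κ → ℝ}
    {Φ : J → X → κ → ℝ} (h : ∀ j k, Lm l P c ν (fun i ω => p j i ω k) fun x => Φ j x k) {V : J → Set (κ → ℝ)}
    (hV : ∀ j, IsOpen (V j)) {e : ℝ} (he : 0 ≤ e)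
    (hN : ∀ F : Finset J, ∀ᶠ i in l, (P i).real {ω | ∃ j ∈ F, p j i ω ∈ V j} ≤ e) :
    ν.real {x | ∃ j, Φ j x ∈ V j} ≤ e := by
  classical
  have := hC.fin'
  have fin : ∀ F : Finset J, ν.real {x | ∃ j ∈ F, Φ j x ∈ V j} ≤ e := by
    intro F
    obtain ⟨W, hW⟩ : ∃ W : Set (F × κ → ℝ), W = {u | ∃ j : F, (fun k => u (j, k)) ∈ V j} := ⟨_, rfl⟩
    have oW : IsOpen W := by
      have e1 : W = ⋃ j : F, (fun (u : F × κ → ℝ) (k : κ) => u (j, k)) ⁻¹' V j := by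
        rw [hW]
        ext u
        simp only [mem_ofPred_eq, mem_iUnion, mem_preimage]
      rw [e1]
      exact isOpen_iUnion fun j => (hV j).preimage (by fun_prop)
    have h1 := Cv.push hC (κ := F × κ) (p := fun i ω q => p q.1 i ω q.2) (Φ := fun x q => Φ q.1 x q.2) (fun q => h q.1 q.2)
      (Θ := fun z => z.2) continuous_snd
    have h2 := h1.open_le oW (a := e) (by
      filter_upwards [hN F] with i hi
      refine (measureReal_congr ?_).trans_le hi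
      refine Eventually.of_forall fun ω => propext ?_
      show (fun q : F × κ => p q.1 i ω q.2) ∈ W ↔ ∃ j ∈ F, p j i ω ∈ V j
      rw [hW]
      constructor
      · rintro ⟨j, hj⟩
        exact ⟨j, j.2, hj⟩
      · rintro ⟨j, hj, h3⟩
        exact ⟨⟨j, hj⟩, h3⟩)
    have mΦ : Measurable fun x => (fun q : F × κ => Φ q.1 x q.2) := measurable_pi_iff.2 fun q => (h q.1 q.2).ms'
    rw [map_measureReal_apply mΦ oW.measurableSet] at h2
    refine le_trans (le_of_eq ?_) h2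
    congr 1
    ext x
    show (∃ j ∈ F, Φ j x ∈ V j) ↔ (fun q : F × κ => Φ q.1 x q.2) ∈ W
    rw [hW]
    constructor
    · rintro ⟨j, hj, h3⟩
      exact ⟨⟨j, hj⟩, h3⟩
    · rintro ⟨j, hj⟩
      exact ⟨j, j.2, hj⟩
  have hdir : Directed (· ⊆ ·) fun F : Finset J => {x | ∃ j ∈ F, Φ j x ∈ V j} := by
    intro F F'
    refine ⟨F ∪ F', ?_, ?_⟩
    · rintro x ⟨j, hj, h3⟩
      exact ⟨j, Finset.mem_union_left _ hj, h3⟩
    · rintro x ⟨j, hj, h3⟩
      exact ⟨j, Finset.mem_union_right _ hj, h3⟩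
  have e1 : {x | ∃ j, Φ j x ∈ V j} = ⋃ F : Finset J, {x | ∃ j ∈ F, Φ j x ∈ V j} := by
    ext x
    simp only [mem_ofPred_eq, mem_iUnion]
    constructor
    · rintro ⟨j, hj⟩
      exact ⟨{j}, j, Finset.mem_singleton_self _, hj⟩
    · rintro ⟨F, j, -, hj⟩
      exact ⟨j, hj⟩
  refine ENNReal.toReal_le_of_le_ofReal he ?_
  rw [e1, hdir.measure_iUnion]
  refine iSup_le fun F => ?_
  rw [← ofReal_measureReal (h := measure_ne_top _ _)]
  exact ENNReal.ofReal_le_ofReal (fin F)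

/-- **the marks at fixed levels near the functional level** : `p`, `Φ` = the mark at the level `b + a`, `q j`, `Ψ j` = the mark at the fixed
level `lv j` -/
theorem mk_cont [l.NeBot] (hC : Cv l P c ν) {J : Type*} [Countable J] {lv : J → ℝ} {a : ℝ} {p b : ∀ i, Ω i → ℝ} {Φ β : X → ℝ}
    (hp : Lm l P c ν p Φ) (hb : Lm l P c ν b β) {q : J → ∀ i, Ω i → ℝ} {Ψ : J → X → ℝ} (hq : ∀ j, Lm l P c ν (q j) (Ψ j))
    (h : ∀ η : ℝ, 0 < η → ∀ ε : ℝ, 0 < ε → ∃ μ : ℝ, 0 < μ ∧ ∀ᶠ i in l,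
      (P i).real {ω | ¬ ∀ j, |lv j - (b i ω + a)| ≤ μ → |p i ω - q j i ω| ≤ η} ≤ ε) :
    ∀ᵐ x ∂ν, ∀ η : ℝ, 0 < η → ∃ μ : ℝ, 0 < μ ∧ ∀ j, |lv j - (β x + a)| < μ → |Φ x - Ψ j x| ≤ η := by
  have hfin := hC.fin'
  have hpos : ∀ k : ℕ, (0 : ℝ) < 1 / ((k : ℝ) + 1) := fun k => by positivity
  choose μ hμ0 hμ using fun k m : ℕ => h (1 / ((k : ℝ) + 1)) (hpos k) (1 / ((m : ℝ) + 1)) (hpos m)
  have hb2 : ∀ k m : ℕ, ν.real {x | ∃ j, |lv j - (β x + a)| < μ k m ∧ 1 / ((k : ℝ) + 1) < |Φ x - Ψ j x|} ≤ 1 / ((m : ℝ) + 1) := by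
    intro k m
    have h1 := ex_open_le hC (J := J) (κ := Fin 3) (p := fun j i ω => ![b i ω, p i ω, q j i ω])
      (Φ := fun j x => ![β x, Φ x, Ψ j x]) (fun j k' => by
        fin_cases k'
        · exact hb
        · exact hp
        · exact hq j)
      (V := fun j => {u | |lv j - (u 0 + a)| < μ k m ∧ 1 / ((k : ℝ) + 1) < |u 1 - u 2|}) (fun j => by
        have c1 : Continuous fun u : Fin 3 → ℝ => |lv j - (u 0 + a)| := by fun_prop
        have c2 : Continuous fun u : Fin 3 → ℝ => |u 1 - u 2| := by fun_prop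
        exact (isOpen_lt c1 continuous_const).inter (isOpen_lt continuous_const c2))
      (e := 1 / ((m : ℝ) + 1)) (hpos m).le fun F => by
        filter_upwards [hμ k m] with i hi
        have := hC.fin i
        refine (measureReal_mono ?_).trans hi
        rintro ω ⟨j, -, h1, h2⟩ h3
        exact not_lt.2 (h3 j h1.le) h2
    exact h1
  have hae : ∀ k : ℕ, ∀ᵐ x ∂ν, ∃ m : ℕ, ¬ ∃ j, |lv j - (β x + a)| < μ k m ∧ 1 / ((k : ℝ) + 1) < |Φ x - Ψ j x| := by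
    intro k
    rw [ae_iff]
    refine le_antisymm (ENNReal.le_of_forall_pos_le_add fun ε hε _ => ?_) bot_le
    obtain ⟨m, hm⟩ := exists_nat_one_div_lt (show (0 : ℝ) < (ε : ℝ) from by exact_mod_cast hε)
    rw [zero_add]
    refine (measure_mono (t := {x | ∃ j, |lv j - (β x + a)| < μ k m ∧ 1 / ((k : ℝ) + 1) < |Φ x - Ψ j x|}) fun x hx => ?_).trans ?_
    · by_contra hc
      exact hx ⟨m, hc⟩
    · rw [← ofReal_measureReal (h := measure_ne_top _ _)]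
      refine (ENNReal.ofReal_le_ofReal ((hb2 k m).trans hm.le)).trans (le_of_eq ?_)
      exact ENNReal.ofReal_coe_nnreal
  filter_upwards [ae_all_iff.2 hae] with x hx η hη
  obtain ⟨k, hk⟩ := exists_nat_one_div_lt hη
  obtain ⟨m, hm⟩ := hx k
  refine ⟨μ k m, hμ0 k m, fun j hj => ?_⟩
  by_contra hc
  exact hm ⟨j, hj, hk.trans (not_le.1 hc)⟩

omit [MeasurableSpace X] [BorelSpace X] [CompleteSpace X] [SecondCountableTopology X] in
/-- **classes near the functional level** : all marks exist (`0 ≤`) and `F (x, marks) ≤ 0`; `τ` = the strands with their levels -/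
theorem cls_cont {J κ τ : Type*} [Fintype κ] [Fintype τ] {lv : J → τ → ℝ} {A : τ → ℝ} {x : X} {Φ : κ → ℝ} {Ψ : J → κ → ℝ}
    {F : X × (κ → ℝ) → ℝ} (hF : Continuous F)
    (h : ∀ k, ∀ η : ℝ, 0 < η → ∃ μ : ℝ, 0 < μ ∧ ∀ j, (∀ t, |lv j t - A t| < μ) → |Φ k - Ψ j k| ≤ η)
    (hv : ∀ j k, Ψ j k = -1 ∨ 0 ≤ Ψ j k) (hΦ : ∀ k, 0 ≤ Φ k) (h0 : F (x, Φ) < 0) :
    ∃ μ : ℝ, 0 < μ ∧ ∀ j, (∀ t, |lv j t - A t| < μ) → (∀ k, 0 ≤ Ψ j k) ∧ F (x, Ψ j) < 0 := by
  have hF2 : Continuous fun u : κ → ℝ => F (x, u) := hF.comp (by fun_prop)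
  have ho : IsOpen {u : κ → ℝ | F (x, u) < 0} := isOpen_lt hF2 continuous_const
  obtain ⟨δ, hδ, hb⟩ := Metric.isOpen_iff.1 ho Φ h0
  have hη : 0 < min (δ / 2) (1 / 2) := by positivity
  choose μ hμ0 hμ using fun k => h k _ hη
  have hex : ∃ μ0 : ℝ, 0 < μ0 ∧ ∀ k, μ0 ≤ μ k := by
    classical
    rcases isEmpty_or_nonempty κ with hκ | hκ
    · exact ⟨1, one_pos, fun k => (hκ.false k).elim⟩
    · obtain ⟨k0, hk0⟩ := Finite.exists_min μ
      exact ⟨μ k0, hμ0 k0, hk0⟩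
  obtain ⟨μ0, h1, h2⟩ := hex
  refine ⟨μ0, h1, fun j hj => ?_⟩
  have h3 : ∀ k, |Φ k - Ψ j k| ≤ min (δ / 2) (1 / 2) := fun k => hμ k j fun t => (hj t).trans_le (h2 k)
  refine ⟨fun k => ?_, ?_⟩
  · rcases hv j k with h4 | h4
    · exfalso
      have h5 := (le_abs_self _).trans ((h3 k).trans (min_le_right _ _))
      rw [h4] at h5
      have := hΦ k
      linarith
    · exact h4
  · refine hb (?_ : Ψ j ∈ Metric.ball Φ δ)
    rw [Metric.mem_ball]
    refine lt_of_le_of_lt ((dist_pi_le_iff (by positivity)).2 fun k => ?_) (show δ / 2 < δ by linarith)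
    rw [Real.dist_eq, abs_sub_comm]
    exact (h3 k).trans (min_le_left _ _)

end LF

end Pool.Agent.ROT.F3
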