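import Pool.Agent.ROT.F3K2B
import Pool.Agent.ROT.F3NulU

/-!
# ROT, F3, K2 (helper16): the marks of the gates and of the second gates

* `Gt1` : marks of a gate over the base `p` (values, `mk1`, level = next base, `StbG` of helper68), times `z`;
* `Gt2` : marks of the second gate (`GB2`; values `inB`, `mkB`, level `nlB`, `StbG`);
* **`gateM`** : both for all but countably many parameters, in any system with `GrdA`; bases can be chained (`p` := level of a gate);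
* **`ArcS.gates`** : the strands of the closed words with two roots.
-/

set_option autoImplicit false

open Filter MeasureTheory Topology

open scoped NNReal BoundedContinuousFunction

namespace Pool.Agent.ROT.F3

open Pool.Agent.NTS.Res (step pos saw fug size curve)
open Pool.Agent.ROT.F (QB)
open Pool.Agent.CRT (CI)
open Pool.Agent.SCF.M Pool.Agent.SCF.Z

section gen

variable {ι Ω X : Type*} [MeasurableSpace Ω] [PseudoMetricSpace X]

/-- **marks of the gate over the base `p`** -/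
structure Gt1 (U : Filter ι) (P : ι → Measure Ω) (x : ι → Ω → X) (nn : ι → Ω → ℕ) (wd : ∀ (i : ι) (s : Ω), Fin (nn i s) → Fin 3)
    (S : ι → ℝ) (R a r ρ : ℝ) (p z : ι → Ω → ℝ) : Prop where
  val : ∀ (K : ℝ) (H : ℝ × CI → ℝ → ℝ), 0 ≤ K → TestX K H → L1A U P x fun i s =>
    inP (Dv (wd i s) (p i s * S i)) (a * S i) (r * S i) (ρ * S i) (fun k => H (XS (S i) (wd i s)) ((k : ℝ) / nn i s)) (wd i s) * z i s
  mrk : L1A U P x fun i s => mk1 (Dv (wd i s) (p i s * S i)) a r ρ (S i) (wd i s) * z i s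
  lv : L1A U P x fun i s => nlv R a r ρ (S i) (p i s) (z i s) (wd i s)
  st : StbG U P nn wd S (fun i s => Dv (wd i s) (p i s * S i)) a r ρ

/-- the level of the second gate, in units `S`, times `z` (none: `0`) -/
noncomputable def nlB (R2 a r ρ m r2 ρ2 S p z : ℝ) {n : ℕ} (s : Fin n → Fin 3) : ℝ :=
  2 * R2 * (inB (Dv s (p * S)) a r ρ m r2 ρ2 S (fun k => Hlv (2 * R2) (XS S s) ((k : ℝ) / n)) s * z)

lemma inB_nn {D : ℝ → ℕ → Prop} {a r ρ m r2 ρ2 S : ℝ} {h : ℕ → ℝ} {n : ℕ} {s : Fin n → Fin 3} (h0 : ∀ k, 0 ≤ h k) :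
    0 ≤ inB D a r ρ m r2 ρ2 S h s := inP_nn fun _ => inP_nn h0

lemma nlB_nn {R2 a r ρ m r2 ρ2 S p z : ℝ} {n : ℕ} {s : Fin n → Fin 3} (hR : 0 ≤ R2) (hz : 0 ≤ z) :
    0 ≤ nlB R2 a r ρ m r2 ρ2 S p z s := mul_nonneg (by positivity) (mul_nonneg (inB_nn fun _ => le_max_left _ _) hz)

lemma nlB_no {R2 a r ρ m r2 ρ2 S p z : ℝ} {n : ℕ} {s : Fin n → Fin 3} (hS : 0 ≤ S) (hr : r ≤ ρ)
    (h : ∀ c y : ℕ, ¬ GB2 (Dv s (p * S)) a r ρ m r2 ρ2 S s c y) : nlB R2 a r ρ m r2 ρ2 S p z s = 0 := by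
  unfold nlB
  rw [inB_no hS hr h, zero_mul, mul_zero]

lemma nlB_eq {R2 a r ρ m r2 ρ2 S p z : ℝ} {n : ℕ} {s : Fin n → Fin 3} {c y : ℕ} (hR : 0 < R2) (hS : 0 < S) (hρ : r ≤ ρ)
    (hr2 : r2 ≤ 2 * R2) (hρ2 : r2 ≤ ρ2) (hz : z = 1) (h : GB2 (Dv s (p * S)) a r ρ m r2 ρ2 S s c y) :
    nlB R2 a r ρ m r2 ρ2 S p z s = (pos s y).re / S := by
  obtain ⟨h0, h1⟩ := tp_lev h.2
  have hn : 1 ≤ n := by
    have := h.2.2.1
    omega
  unfold nlB
  rw [inB_of hS.le hρ hρ2 h, hz, mul_one, Hlv_at hn s h.2.2.1.le h0 (h1.trans (mul_le_mul_of_nonneg_right hr2 hS.le))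
    (by positivity) hS]
  field_simp

/-- **marks of the second gate over the gate over the base `p`** -/
structure Gt2 (U : Filter ι) (P : ι → Measure Ω) (x : ι → Ω → X) (nn : ι → Ω → ℕ) (wd : ∀ (i : ι) (s : Ω), Fin (nn i s) → Fin 3)
    (S : ι → ℝ) (R R2 a r ρ m r2 ρ2 : ℝ) (p z : ι → Ω → ℝ) : Prop where
  val : ∀ (K : ℝ) (H : ℝ × CI → ℝ → ℝ), 0 ≤ K → TestX K H → L1A U P x fun i s =>
    inB (Dv (wd i s) (p i s * S i)) a r ρ m r2 ρ2 (S i) (fun k => H (XS (S i) (wd i s)) ((k : ℝ) / nn i s)) (wd i s) * z i s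
  mrk : L1A U P x fun i s => mkB (Dv (wd i s) (p i s * S i)) a r ρ m r2 ρ2 (S i) (wd i s) * z i s
  lv : L1A U P x fun i s => nlB R2 a r ρ m r2 ρ2 (S i) (p i s) (z i s) (wd i s)
  st : StbG U P nn wd S (fun i s => Dv (wd i s) (nlv R a r ρ (S i) (p i s) 1 (wd i s) * S i)) m r2 ρ2

/-- the base of the second gate in `Gt2.st` -/
lemma nlv_Dv {R a r ρ S p : ℝ} {n : ℕ} {s : Fin n → Fin 3} {c : ℕ} (hR : 0 < R) (hS : 0 < S) (hr : r ≤ 2 * R) (hρ : r ≤ ρ)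
    (h : TP (Dv s (p * S)) (a * S) (r * S) (ρ * S) s c) : Dv s (nlv R a r ρ S p 1 s * S) = Dv s (pos s c).re := by
  rw [nlv_eq hR hS hr hρ rfl h, div_mul_cancel₀ _ hS.ne']

end gen

section sys

variable {ι Ω X : Type*} [MeasurableSpace Ω] [DiscreteMeasurableSpace Ω] [PseudoMetricSpace X] {U : Ultrafilter ι}
  {P : ι → Measure Ω} [∀ i, IsFiniteMeasure (P i)] {x : ι → Ω → X} {nn : ι → Ω → ℕ} {wd : ∀ (i : ι) (s : Ω), Fin (nn i s) → Fin 3} {S : ι → ℝ}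

lemma box_rT {B : Box} {R t : ℝ} (hR : 0 ≤ R) (hB : B.Ok R) (t1 : t ≤ 1) : rT B t ≤ 2 * R ∧ rT B t ≤ pT B t := by
  have B1 := hB.r
  have B2' := hB.r'
  have B3 := hB.p
  have B4 := hB.p'
  have e1 : rT B t ≤ 2 * R := by
    unfold rT
    nlinarith
  have e2 : 64 * R ≤ pT B t := by
    unfold pT
    nlinarith
  exact ⟨e1, by linarith⟩

/-- **the marks of the gates and of the second gates over a macroscopic base**, for all but countably many parameters -/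
theorem gateM {R R2 : ℝ} (hR : 0 < R) (hR2 : 0 < R2) (hM : Mb (U : Filter ι) P) (hW : WSys (U : Filter ι) P nn wd S)
    (hS : Tendsto S (U : Filter ι) atTop) {z : ι → Ω → ℝ} (hz : ∀ i s, z i s = 0 ∨ z i s = 1) (hzl : L1A (U : Filter ι) P x z)
    (hG : GrdA (U : Filter ι) P x nn wd S R z) (hG2 : GrdA (U : Filter ι) P x nn wd S R2 z)
    {p : ι → Ω → ℝ} (hp : L1A (U : Filter ι) P x p) (p0 : ∀ i s, 0 ≤ p i s) :
    ∃ E : Set ℝ, E.Countable ∧ ∀ a : ℝ, a ∉ E → ∀ B : Box, B.Ok R → B.a0 < a → ∃ E' : Set ℝ, E'.Countable ∧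
      ∀ t : ℝ, t ∉ E' → 0 < t → t < 1 → Gt1 (U : Filter ι) P x nn wd S R a (rT B t) (pT B t) p z ∧
        ∃ F : Set ℝ, F.Countable ∧ ∀ m : ℝ, m ∉ F → ∀ B2 : Box, B2.Ok R2 → B2.a0 < m → ∃ F' : Set ℝ, F'.Countable ∧
          ∀ t2 : ℝ, t2 ∉ F' → 0 < t2 → t2 < 1 →
            Gt2 (U : Filter ι) P x nn wd S R R2 a (rT B t) (pT B t) m (rT B2 t2) (pT B2 t2) p z := by
  obtain ⟨E, hE, h1⟩ := gateC hR hR2 hM hW hS hz hG hG2 hp p0
  obtain ⟨E1, hE1, g1⟩ := gateB_stab (U := U) (P := P) (nn := nn) (wd := wd) (S := S) hR hM hW p0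
  refine ⟨E ∪ E1, hE.union hE1, fun a ha B hB haB => ?_⟩
  obtain ⟨E', hE', h2⟩ := h1 a (fun h => ha (Or.inl h)) B hB haB
  obtain ⟨E1', hE1', g2⟩ := g1 a (fun h => ha (Or.inr h)) B hB haB
  refine ⟨E' ∪ E1', hE'.union hE1', fun t ht t0 t1 => ?_⟩
  obtain ⟨h3, h4, h5⟩ := h2 t (fun h => ht (Or.inl h)) t0 t1
  have g3 := g2 t (fun h => ht (Or.inr h)) t0 t1
  obtain ⟨r1, r2⟩ := box_rT hR.le hB t1.le
  refine ⟨⟨h3, ?_, h4, g3⟩, ?_⟩
  · have h6 := ((h3 1 _ zero_le_one testX_mk).smul 2).sub hzl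
    refine (show (fun (i : ι) (s : Ω) => _) = fun i s => _ from ?_) ▸ h6
    funext i s
    rw [mk1_eq (hW.pos i).le r2]
    ring
  · obtain ⟨F, hF, h6⟩ := h5
    obtain ⟨F1, hF1, g4⟩ := gateB_stab (U := U) (P := P) (nn := nn) (wd := wd) (S := S)
      (p := fun i s => nlv R a (rT B t) (pT B t) (S i) (p i s) 1 (wd i s)) hR2 hM hW fun i s => nlv_nn hR.le zero_le_one
    refine ⟨F ∪ F1, hF.union hF1, fun m hm B2 hB2 hmB => ?_⟩
    obtain ⟨F', hF', h7⟩ := h6 m (fun h => hm (Or.inl h)) B2 hB2 hmB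
    obtain ⟨F1', hF1', g5⟩ := g4 m (fun h => hm (Or.inr h)) B2 hB2 hmB
    refine ⟨F' ∪ F1', hF'.union hF1', fun t2 ht2 t20 t21 => ?_⟩
    have h8 := h7 t2 (fun h => ht2 (Or.inl h)) t20 t21
    obtain ⟨r3, r4⟩ := box_rT hR2.le hB2 t21.le
    refine ⟨h8, ?_, ?_, g5 t2 (fun h => ht2 (Or.inr h)) t20 t21⟩
    · have h9 := ((h8 1 _ zero_le_one testX_mk).smul 2).sub hzl
      refine (show (fun (i : ι) (s : Ω) => _) = fun i s => _ from ?_) ▸ h9
      funext i s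
      rw [mkB_eq (hW.pos i).le r2 r4]
      ring
    · exact (h8 _ _ (by positivity) (testX_lv (C := 2 * R2) (by positivity))).smul (2 * R2)

end sys

/-! ### the strands -/

section arcs

/-- the factor -/
noncomputable def zN (c : ℝ) (N : ℕ) (x : W3 × ℕ) : ℝ := by
  classical exact if c < dst N x then 1 else 0

/-- **the gates of the strands of the closed words with two roots at a distance `> c`** : `p` = any macroscopic base (the level `0`,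
levels of gates) -/
theorem ArcS.gates {U : Ultrafilter ℕ} {b : ℝ} {k : Arm} {T : LSym} {S : ℕ → ℝ} {R R2 c : ℝ} (hR : 0 < R) (hR2 : 0 < R2)
    (h : ArcS U b k T S R c) (h' : ArcS U b k T S R2 c) {p : ℕ → W3 × ℕ → ℝ}
    (hp : L1A (U : Filter ℕ) (fun N => mwE N b) cN p) (p0 : ∀ i s, 0 ≤ p i s) :
    ∃ E : Set ℝ, E.Countable ∧ ∀ a : ℝ, a ∉ E → ∀ B : Box, B.Ok R → B.a0 < a → ∃ E' : Set ℝ, E'.Countable ∧
      ∀ t : ℝ, t ∉ E' → 0 < t → t < 1 →
        Gt1 (U : Filter ℕ) (fun N => mwE N b) cN (fun _ x => (aW k T x).length) (fun _ x => (aW k T x).get) S R a (rT B t) (pT B t)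
          p (zN c) ∧
        ∃ F : Set ℝ, F.Countable ∧ ∀ m : ℝ, m ∉ F → ∀ B2 : Box, B2.Ok R2 → B2.a0 < m → ∃ F' : Set ℝ, F'.Countable ∧
          ∀ t2 : ℝ, t2 ∉ F' → 0 < t2 → t2 < 1 →
            Gt2 (U : Filter ℕ) (fun N => mwE N b) cN (fun _ x => (aW k T x).length) (fun _ x => (aW k T x).get) S R R2
              a (rT B t) (pT B t) m (rT B2 t2) (pT B2 t2) p (zN c) := by
  have hz : ∀ (N : ℕ) (x : W3 × ℕ), zN c N x = 0 ∨ zN c N x = 1 := by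
    intro N x
    unfold zN
    split_ifs
    · exact Or.inr rfl
    · exact Or.inl rfl
  exact gateM hR hR2 h.mb h.ws h.tS hz h.zl h.gr h'.gr hp p0

end arcs

end Pool.Agent.ROT.F3
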