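import Pool.Agent.ROT.F3LimF

/-!
# F3, limit side, second part (helper90)

* `Cv.push`, **`Lm.pull`** : another curve `c' = Θ (c, p)` (stopped, restarted, rest);
* `Cv.wt`, **`Lm.wt`** : the measures with a weight `e` (marked systems); `L1A.of_le` : smaller measures; `L1A.map_iff`;
* `lip_ap`, `Lm.lip` : the approximating functions may be taken Lipschitz;
* **`L1A.fub`** : over a product law a functional of the second factor is a function of the second curve;
* **`L1A.of_equi`** : along an ultrafilter, approximating functions which depend on `i` but are equi-Lipschitz are enough.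
-/

set_option autoImplicit false
set_option linter.unusedSectionVars false

open MeasureTheory Filter Topology Set BoundedContinuousFunction
open scoped ENNReal NNReal

namespace Pool.Agent.ROT.F3.LF

variable {ι : Type*} {l : Filter ι} {Ω : ι → Type*} [∀ i, MeasurableSpace (Ω i)] {P : ∀ i, Measure (Ω i)}
  {X : Type*} [PseudoMetricSpace X] [MeasurableSpace X] [BorelSpace X] {c : ∀ i, Ω i → X} {ν : Measure X}

section push

variable [CompleteSpace X] [SecondCountableTopology X] {κ : Type*} [Fintype κ] {p : ∀ i, Ω i → κ → ℝ} {Φ : X → κ → ℝ}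
  {X' : Type*} [PseudoMetricSpace X'] [MeasurableSpace X'] [BorelSpace X']

lemma Lm.cp_ms (hC : Cv l P c ν) (h : ∀ k, Lm l P c ν (fun i ω => p i ω k) fun x => Φ x k) {Θ : X × (κ → ℝ) → X'}
    (hΘ : Continuous Θ) : (∀ i, Measurable fun ω => Θ (c i ω, p i ω)) ∧ Measurable fun x => Θ (x, Φ x) :=
  ⟨fun i => hΘ.measurable.comp ((hC.ms i).prodMk (measurable_pi_iff.2 fun k => (h k).ms i)),
    hΘ.measurable.comp (measurable_id.prodMk (measurable_pi_iff.2 fun k => (h k).ms'))⟩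

/-- **another curve** -/
theorem Cv.push (hC : Cv l P c ν) (h : ∀ k, Lm l P c ν (fun i ω => p i ω k) fun x => Φ x k) {Θ : X × (κ → ℝ) → X'}
    (hΘ : Continuous Θ) : Cv l P (fun i ω => Θ (c i ω, p i ω)) (ν.map fun x => Θ (x, Φ x)) := by
  have := hC.fin'
  obtain ⟨m1, m2⟩ := Lm.cp_ms hC h hΘ
  refine ⟨hC.fin, inferInstance, m1, fun G => ?_⟩
  rw [integral_map m2.aemeasurable G.continuous.measurable.aestronglyMeasurable]
  have hb : ∀ z, |G (Θ z)| ≤ ‖G‖ := fun z => G.norm_coe_le_norm _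
  exact (Lm.comp hC h (G.continuous.comp hΘ) hb).tendsto hC

/-- **functions of the new curve are functions of the old one** -/
theorem Lm.pull (hC : Cv l P c ν) (h : ∀ k, Lm l P c ν (fun i ω => p i ω k) fun x => Φ x k) {Θ : X × (κ → ℝ) → X'}
    (hΘ : Continuous Θ) {q : ∀ i, Ω i → ℝ} {Ψ : X' → ℝ}
    (hq : Lm l P (fun i ω => Θ (c i ω, p i ω)) (ν.map fun x => Θ (x, Φ x)) q Ψ) : Lm l P c ν q fun x => Ψ (Θ (x, Φ x)) := by
  have := hC.fin'
  obtain ⟨m1, m2⟩ := Lm.cp_ms hC h hΘ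
  refine Lm.closed hC hq.ms hq.bd (hq.ms'.comp m2) ?_ fun ε hε => ?_
  · obtain ⟨C, hb⟩ := hq.bd'
    exact ⟨C, fun x => hb _⟩
  · obtain ⟨φ, h1, h2⟩ := hq.ap ε hε
    have hb : ∀ z, |φ (Θ z)| ≤ ‖φ‖ := fun z => φ.norm_coe_le_norm _
    refine ⟨_, _, Lm.comp hC h (φ.continuous.comp hΘ) hb, ?_, h2⟩
    have m3 : Measurable fun z => |Ψ z - φ z| := (hq.ms'.sub φ.continuous.measurable).abs
    rw [integral_map m2.aemeasurable m3.aestronglyMeasurable] at h1
    exact h1

/-- `L1A` with respect to the new curve implies `L1A` with respect to the old one -/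
theorem L1A.pull [l.NeBot] (hC : Cv l P c ν) (h : ∀ k, Lm l P c ν (fun i ω => p i ω k) fun x => Φ x k)
    {Θ : X × (κ → ℝ) → X'} (hΘ : Continuous Θ) {q : ∀ i, Ω i → ℝ} (hq : L1A l P (fun i ω => Θ (c i ω, p i ω)) q) :
    L1A l P c q := by
  obtain ⟨Ψ, h1⟩ := hq.lim (Cv.push hC h hΘ)
  exact (Lm.pull hC h hΘ h1).l1a

end push

/-! ### weights -/

section wt

lemma int_wt {α : Type*} [MeasurableSpace α] {μ : Measure α} {w : α → ℝ} (hw : Measurable w) (h0 : ∀ x, 0 ≤ w x)
    (g : α → ℝ) : ∫ x, g x ∂(μ.withDensity fun x => ENNReal.ofReal (w x)) = ∫ x, w x * g x ∂μ := by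
  rw [integral_withDensity_eq_integral_toReal_smul hw.ennreal_ofReal (Eventually.of_forall fun x => ENNReal.ofReal_lt_top)]
  refine integral_congr_ae (Eventually.of_forall fun x => ?_)
  show (ENNReal.ofReal (w x)).toReal • g x = w x * g x
  rw [ENNReal.toReal_ofReal (h0 x), smul_eq_mul]

lemma fin_wt {α : Type*} [MeasurableSpace α] {μ : Measure α} [IsFiniteMeasure μ] {w : α → ℝ} (hw : Measurable w) {C : ℝ}
    (hb : ∀ x, |w x| ≤ C) : IsFiniteMeasure (μ.withDensity fun x => ENNReal.ofReal (w x)) :=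
  isFiniteMeasure_withDensity_ofReal (itg hw hb).2

variable [CompleteSpace X] [SecondCountableTopology X] {e : ∀ i, Ω i → ℝ} {E : X → ℝ} {q : ∀ i, Ω i → ℝ} {Ψ : X → ℝ}

/-- **the system with the weight `e`** -/
theorem Cv.wt (hC : Cv l P c ν) (he : Lm l P c ν e E) (h0 : ∀ i ω, 0 ≤ e i ω) (h0' : ∀ x, 0 ≤ E x) :
    Cv l (fun i => (P i).withDensity fun ω => ENNReal.ofReal (e i ω)) c (ν.withDensity fun x => ENNReal.ofReal (E x)) := by
  have := hC.fin'
  obtain ⟨C, hb⟩ := he.bd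
  obtain ⟨C', hb'⟩ := he.bd'
  refine ⟨fun i => ?_, fin_wt he.ms' hb', hC.ms, fun G => ?_⟩
  · have := hC.fin i
    exact fin_wt (he.ms i) (hb i)
  · have h1 := (Lm.mul hC he (Lm.cont hC G)).tendsto hC
    have e1 : ∀ i, ∫ ω, G (c i ω) ∂((P i).withDensity fun ω => ENNReal.ofReal (e i ω)) = ∫ ω, e i ω * G (c i ω) ∂P i := fun i =>
      int_wt (he.ms i) (h0 i) _
    rw [int_wt he.ms' h0']
    simp only [e1]
    exact h1

theorem Lm.wt (hC : Cv l P c ν) (he : Lm l P c ν e E) (h0 : ∀ i ω, 0 ≤ e i ω) (h0' : ∀ x, 0 ≤ E x)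
    (hq : Lm l P c ν q Ψ) :
    Lm l (fun i => (P i).withDensity fun ω => ENNReal.ofReal (e i ω)) c (ν.withDensity fun x => ENNReal.ofReal (E x)) q Ψ := by
  have := hC.fin'
  refine ⟨hq.ms, hq.bd, hq.ms', hq.bd', fun ε hε => ?_⟩
  obtain ⟨C, hb⟩ := he.bd
  obtain ⟨C', hb'⟩ := he.bd'
  obtain ⟨D, hD⟩ : ∃ D : ℝ, D = |C| + |C'| + 1 := ⟨_, rfl⟩
  have hD0 : 0 < D := by rw [hD]; positivity
  have hb1 : ∀ i ω, e i ω ≤ D := fun i ω => by
    have := (le_abs_self _).trans (hb i ω)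
    have h2 := le_abs_self C
    have h3 := abs_nonneg C'
    rw [hD]; linarith
  have hb1' : ∀ x, E x ≤ D := fun x => by
    have := (le_abs_self _).trans (hb' x)
    have h2 := le_abs_self C'
    have h3 := abs_nonneg C
    rw [hD]; linarith
  obtain ⟨φ, h1, h2⟩ := hq.ap (ε / D) (by positivity)
  refine ⟨φ, ?_, ?_⟩
  · rw [int_wt he.ms' h0']
    have j1 : Integrable (fun x => |Ψ x - φ x|) ν := ((hq.int' hC).sub (int_bcf hC.fin' φ)).abs
    calc ∫ x, E x * |Ψ x - φ x| ∂ν ≤ ∫ x, D * |Ψ x - φ x| ∂ν := by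
          refine integral_mono ?_ (j1.const_mul D) fun x => mul_le_mul_of_nonneg_right (hb1' x) (abs_nonneg _)
          exact j1.bdd_mul (c := |C'|) he.ms'.aestronglyMeasurable (Eventually.of_forall fun x => by
            rw [Real.norm_eq_abs]; exact (hb' x).trans (le_abs_self _))
      _ = D * ∫ x, |Ψ x - φ x| ∂ν := integral_const_mul _ _
      _ ≤ D * (ε / D) := mul_le_mul_of_nonneg_left h1 hD0.le
      _ = ε := by field_simp
  · filter_upwards [h2] with i hi
    have := hC.fin i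
    rw [int_wt (he.ms i) (h0 i)]
    have j1 : Integrable (fun ω => |q i ω - φ (c i ω)|) (P i) := ((hq.int hC i).sub (hC.int_c φ i)).abs
    calc ∫ ω, e i ω * |q i ω - φ (c i ω)| ∂P i ≤ ∫ ω, D * |q i ω - φ (c i ω)| ∂P i := by
          refine integral_mono ?_ (j1.const_mul D) fun x => mul_le_mul_of_nonneg_right (hb1 i x) (abs_nonneg _)
          exact j1.bdd_mul (c := |C|) (he.ms i).aestronglyMeasurable (Eventually.of_forall fun x => by
            rw [Real.norm_eq_abs]; exact (hb i x).trans (le_abs_self _))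
      _ = D * ∫ ω, |q i ω - φ (c i ω)| ∂P i := integral_const_mul _ _
      _ ≤ D * (ε / D) := mul_le_mul_of_nonneg_left hi hD0.le
      _ = ε := by field_simp

omit [CompleteSpace X] [SecondCountableTopology X] in
/-- smaller measures -/
theorem L1A.of_le {P' : ∀ i, Measure (Ω i)} (hC : Cv l P c ν) (a : ℝ≥0) (h : ∀ i, P' i ≤ a • P i) (hq : L1A l P c q) :
    L1A l P' c q := by
  refine ⟨hq.1, hq.2.1, fun ε hε => ?_⟩
  obtain ⟨C, hb⟩ := hq.2.1
  obtain ⟨φ, h1⟩ := hq.2.2 (ε / (a + 1)) (by positivity)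
  refine ⟨φ, ?_⟩
  filter_upwards [h1] with i hi
  have := hC.fin i
  have j1 : Integrable (fun ω => |q i ω - φ (c i ω)|) (P i) := ((itg (hq.1 i) (hb i)).sub (hC.int_c φ i)).abs
  calc ∫ ω, |q i ω - φ (c i ω)| ∂P' i ≤ ∫ ω, |q i ω - φ (c i ω)| ∂(a • P i) :=
        integral_mono_measure (h i) (Eventually.of_forall fun ω => abs_nonneg _) (j1.smul_measure_nnreal)
    _ = a * ∫ ω, |q i ω - φ (c i ω)| ∂P i := by rw [integral_smul_nnreal_measure]; rfl
    _ ≤ a * (ε / (a + 1)) := mul_le_mul_of_nonneg_left hi a.2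
    _ ≤ ε := by
        rw [mul_div_assoc', div_le_iff₀ (by positivity)]
        nlinarith

omit [CompleteSpace X] [SecondCountableTopology X] [BorelSpace X] in
/-- image measures -/
theorem L1A.map_iff {Ω' : ι → Type*} [∀ i, MeasurableSpace (Ω' i)] [OpensMeasurableSpace X] {θ : ∀ i, Ω i → Ω' i}
    (hθ : ∀ i, Measurable (θ i))
    {c' : ∀ i, Ω' i → X} (hc' : ∀ i, Measurable (c' i)) {q' : ∀ i, Ω' i → ℝ} (hq' : ∀ i, Measurable (q' i))
    (hb : ∃ C : ℝ, ∀ i ω, |q' i ω| ≤ C) :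
    L1A l (fun i => (P i).map (θ i)) c' q' ↔ L1A l P (fun i ω => c' i (θ i ω)) fun i ω => q' i (θ i ω) := by
  have key : ∀ (i : ι) (φ : X →ᵇ ℝ), ∫ ω, |q' i ω - φ (c' i ω)| ∂(P i).map (θ i) =
      ∫ ω, |q' i (θ i ω) - φ (c' i (θ i ω))| ∂P i := fun i φ =>
    integral_map (hθ i).aemeasurable (((hq' i).sub (φ.continuous.measurable.comp (hc' i))).abs).aestronglyMeasurable
  constructor
  · rintro ⟨-, -, h⟩
    refine ⟨fun i => (hq' i).comp (hθ i), ?_, fun ε hε => ?_⟩
    · obtain ⟨C, hC⟩ := hb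
      exact ⟨C, fun i ω => hC _ _⟩
    · obtain ⟨φ, h1⟩ := h ε hε
      refine ⟨φ, ?_⟩
      filter_upwards [h1] with i hi
      rw [← key]
      exact hi
  · rintro ⟨-, -, h⟩
    refine ⟨hq', hb, fun ε hε => ?_⟩
    obtain ⟨φ, h1⟩ := h ε hε
    refine ⟨φ, ?_⟩
    filter_upwards [h1] with i hi
    rw [key]
    exact hi

end wt

/-! ### Lipschitz functions -/

section lip

omit [MeasurableSpace X] [BorelSpace X] in
/-- bounded continuous functions are limits of Lipschitz functions with the same bound -/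
theorem lip_seq (φ : X →ᵇ ℝ) : ∃ g : ℕ → X → ℝ, (∀ n : ℕ, LipschitzWith (n : ℝ≥0) (g n)) ∧ (∀ n x, |g n x| ≤ ‖φ‖) ∧
    ∀ x, Tendsto (fun n => g n x) atTop (𝓝 (φ x)) := by
  have hb : ∀ x, |φ x| ≤ ‖φ‖ := fun x => φ.norm_coe_le_norm x
  have hbd : ∀ (n : ℕ) (x : X), BddBelow (range fun y => φ y + n * dist x y) := fun n x => by
    refine ⟨-‖φ‖, ?_⟩
    rintro _ ⟨y, rfl⟩
    have h1 := (abs_le.1 (hb y)).1
    have h2 : 0 ≤ (n : ℝ) * dist x y := by positivity
    show -‖φ‖ ≤ φ y + n * dist x y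
    linarith
  have hle : ∀ (n : ℕ) (x y : X), (⨅ y, (φ y + n * dist x y)) ≤ φ y + n * dist x y := fun n x y => ciInf_le (hbd n x) y
  have hge : ∀ (n : ℕ) (x : X), -‖φ‖ ≤ ⨅ y, (φ y + n * dist x y) := fun n x => by
    have : Nonempty X := ⟨x⟩
    refine le_ciInf fun y => ?_
    have h1 := (abs_le.1 (hb y)).1
    have h2 : 0 ≤ (n : ℝ) * dist x y := by positivity
    linarith
  have hup : ∀ (n : ℕ) (x : X), (⨅ y, (φ y + n * dist x y)) ≤ φ x := fun n x => by
    have := hle n x x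
    rwa [dist_self, mul_zero, add_zero] at this
  refine ⟨fun n x => ⨅ y, (φ y + n * dist x y), fun n => ?_, fun n x => ?_, fun x => ?_⟩
  · refine LipschitzWith.of_le_add_mul _ fun x x' => ?_
    have : Nonempty X := ⟨x⟩
    have h1 : (⨅ y, (φ y + n * dist x y)) - n * dist x x' ≤ ⨅ y, (φ y + n * dist x' y) := by
      refine le_ciInf fun y => ?_
      have h2 := hle n x y
      have h3 := mul_le_mul_of_nonneg_left (dist_triangle x x' y) (Nat.cast_nonneg (α := ℝ) n)
      linarith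
    have e : (((n : ℝ≥0) : ℝ)) = n := by simp
    show (⨅ y, (φ y + n * dist x y)) ≤ (⨅ y, (φ y + n * dist x' y)) + ((n : ℝ≥0) : ℝ) * dist x x'
    rw [e]
    linarith
  · rw [abs_le]
    exact ⟨hge n x, (hup n x).trans ((le_abs_self _).trans (hb x))⟩
  · rw [Metric.tendsto_atTop]
    intro ε hε
    obtain ⟨δ, hδ, h1⟩ := Metric.continuousAt_iff.1 (φ.continuous.continuousAt (x := x)) (ε / 2) (by positivity)
    obtain ⟨N, hN⟩ := exists_nat_gt (2 * ‖φ‖ / δ)
    refine ⟨N, fun n hn => ?_⟩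
    have : Nonempty X := ⟨x⟩
    have h2 : φ x - ε / 2 ≤ ⨅ y, (φ y + n * dist x y) := by
      refine le_ciInf fun y => ?_
      rcases lt_or_ge (dist y x) δ with h3 | h3
      · have h4 := h1 h3
        rw [Real.dist_eq] at h4
        have h5 := (abs_lt.1 h4).1
        have h6 : 0 ≤ (n : ℝ) * dist x y := by positivity
        linarith
      · rw [dist_comm] at h3
        have h4 : 2 * ‖φ‖ ≤ n * dist x y := by
          rw [div_lt_iff₀ hδ] at hN
          have h5 : (N : ℝ) ≤ n := by exact_mod_cast hn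
          have h6 : (N : ℝ) * δ ≤ n * dist x y := mul_le_mul h5 h3 hδ.le (by positivity)
          linarith
        have h5 := (abs_le.1 (hb y)).1
        have h6 := (abs_le.1 (hb x)).2
        linarith
    rw [Real.dist_eq, abs_lt]
    constructor <;> linarith [hup n x]

/-- **density of the Lipschitz functions** -/
theorem lip_ap (hf : IsFiniteMeasure ν) (φ : X →ᵇ ℝ) {ε : ℝ} (hε : 0 < ε) : ∃ (g : X →ᵇ ℝ) (K : ℝ≥0), LipschitzWith K g ∧
    (∀ x, |g x| ≤ ‖φ‖) ∧ ∫ x, |φ x - g x| ∂ν ≤ ε := by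
  obtain ⟨g, h1, h2, h3⟩ := lip_seq φ
  have hlim : Tendsto (fun n => ∫ x, |φ x - g n x| ∂ν) atTop (𝓝 0) := by
    rw [← integral_zero X ℝ (μ := ν)]
    refine tendsto_integral_of_dominated_convergence (fun _ => ‖φ‖ + ‖φ‖) (fun n => ?_) (integrable_const _) (fun n => ?_) ?_
    · exact (φ.continuous.measurable.sub (h1 n).continuous.measurable).abs.aestronglyMeasurable
    · refine Eventually.of_forall fun x => ?_
      rw [Real.norm_eq_abs, abs_abs]
      exact (abs_sub _ _).trans (add_le_add (bcf_bd φ x) (h2 n x))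
    · refine Eventually.of_forall fun x => ?_
      have := (tendsto_const_nhds (x := φ x)).sub (h3 x)
      simpa using this.abs
  obtain ⟨n, hn⟩ := (hlim.eventually (gt_mem_nhds hε)).exists
  exact ⟨BoundedContinuousFunction.ofNormedAddCommGroup (g n) (h1 n).continuous ‖φ‖ fun x => by
    rw [Real.norm_eq_abs]; exact h2 n x, n, h1 n, h2 n, hn.le⟩

/-- the approximating functions may be taken Lipschitz -/
theorem Lm.lip (hC : Cv l P c ν) {p : ∀ i, Ω i → ℝ} {Φ : X → ℝ} (h : Lm l P c ν p Φ) {ε : ℝ} (hε : 0 < ε) :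
    ∃ (g : X →ᵇ ℝ) (K : ℝ≥0), LipschitzWith K g ∧ ∫ x, |Φ x - g x| ∂ν ≤ ε ∧
      ∀ᶠ i in l, ∫ ω, |p i ω - g (c i ω)| ∂P i ≤ ε := by
  obtain ⟨φ, h1, h2⟩ := h.ap (ε / 3) (by positivity)
  obtain ⟨g, K, g1, -, g3⟩ := lip_ap hC.fin' φ (ε := ε / 3) (by positivity)
  have := hC.fin'
  have hψ : Continuous fun x => |φ x - g x| := (φ.continuous.sub g.continuous).abs
  have hψb : ∀ x, ‖|φ x - g x|‖ ≤ ‖φ‖ + ‖g‖ := fun x => by
    rw [Real.norm_eq_abs, abs_abs]
    exact (abs_sub _ _).trans (add_le_add (bcf_bd φ x) (bcf_bd g x))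
  have h3 := hC.lim (BoundedContinuousFunction.ofNormedAddCommGroup _ hψ _ hψb)
  have h4 := h3.eventually (gt_mem_nhds (lt_of_le_of_lt g3 (by linarith : ε / 3 < 2 * ε / 3)))
  refine ⟨g, K, g1, ?_, ?_⟩
  · have k1 : Integrable (fun x => |Φ x - φ x|) ν := ((h.int' hC).sub (int_bcf hC.fin' φ)).abs
    have k2 : Integrable (fun x => |φ x - g x|) ν := ((int_bcf hC.fin' φ).sub (int_bcf hC.fin' g)).abs
    calc ∫ x, |Φ x - g x| ∂ν ≤ ∫ x, (|Φ x - φ x| + |φ x - g x|) ∂ν :=
          integral_mono ((h.int' hC).sub (int_bcf hC.fin' g)).abs (k1.add k2) fun x => abs_sub_le _ _ _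
      _ = _ := integral_add k1 k2
      _ ≤ ε := by linarith
  · filter_upwards [h2, h4] with i i2 i4
    have := hC.fin i
    have k1 : Integrable (fun ω => |p i ω - φ (c i ω)|) (P i) := ((h.int hC i).sub (hC.int_c φ i)).abs
    have k2 : Integrable (fun ω => |φ (c i ω) - g (c i ω)|) (P i) := ((hC.int_c φ i).sub (hC.int_c g i)).abs
    have i4' : ∫ ω, |φ (c i ω) - g (c i ω)| ∂P i < 2 * ε / 3 := i4
    calc ∫ ω, |p i ω - g (c i ω)| ∂P i ≤ ∫ ω, (|p i ω - φ (c i ω)| + |φ (c i ω) - g (c i ω)|) ∂P i :=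
          integral_mono ((h.int hC i).sub (hC.int_c g i)).abs (k1.add k2) fun ω => abs_sub_le _ _ _
      _ = _ := integral_add k1 k2
      _ ≤ ε := by linarith

end lip

/-! ### product laws -/

section fub

variable {A B : ι → Type*} [∀ i, MeasurableSpace (A i)] [∀ i, MeasurableSpace (B i)] {α : ∀ i, Measure (A i)}
  {β : ∀ i, Measure (B i)} {XA XB : Type*} [PseudoMetricSpace XA] [MeasurableSpace XA] [BorelSpace XA] [CompleteSpace XA]
  [SecondCountableTopology XA] [PseudoMetricSpace XB] [MeasurableSpace XB] [BorelSpace XB] [CompleteSpace XB]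
  [SecondCountableTopology XB] {cA : ∀ i, A i → XA} {cB : ∀ i, B i → XB} {a0 : Measure XA} {b0 : Measure XB}

omit [MeasurableSpace XA] [BorelSpace XA] [CompleteSpace XA] [SecondCountableTopology XA] [MeasurableSpace XB] [BorelSpace XB]
  [CompleteSpace XB] [SecondCountableTopology XB] in
lemma unif2 {φ : XA × XB → ℝ} (hφ : Continuous φ) {KA : Set XA} {KB : Set XB} (hKA : IsCompact KA) (hKB : IsCompact KB) {ε : ℝ}
    (hε : 0 < ε) : ∃ δ : ℝ, 0 < δ ∧ ∀ a ∈ Metric.thickening δ KA, ∀ b1 ∈ KB, ∀ b, dist b b1 < δ →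
      |φ (a, b) - φ (a, b1)| ≤ 2 * ε := by
  have hu := (hKA.prod hKB).uniformContinuousAt_of_continuousAt φ (fun a _ => hφ.continuousAt) (Metric.dist_mem_uniformity hε)
  obtain ⟨δ, hδ, h1⟩ := Metric.mem_uniformity_dist.1 hu
  refine ⟨δ, hδ, fun a ha b1 hb1 b hb => ?_⟩
  obtain ⟨a1, ha1, hd⟩ := Metric.mem_thickening_iff.1 ha
  have hz : (a1, b1) ∈ KA ×ˢ KB := ⟨ha1, hb1⟩
  have d1 : dist (a1, b1) (a, b) < δ := by
    rw [Prod.dist_eq]
    exact max_lt (by rw [dist_comm]; exact hd) (by rw [dist_comm]; exact hb)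
  have d2 : dist (a1, b1) (a, b1) < δ := by
    rw [Prod.dist_eq]
    refine max_lt (by rw [dist_comm]; exact hd) ?_
    rw [dist_self]
    exact hδ
  have e1 := h1 d1 hz
  have e2 := h1 d2 hz
  simp only [mem_ofPred_eq, Real.dist_eq] at e1 e2
  have e3 := abs_sub_le (φ (a, b)) (φ (a1, b1)) (φ (a, b1))
  rw [abs_sub_comm (φ (a, b)) (φ (a1, b1))] at e3
  linarith

/-- **a functional of the second factor is a function of the second curve** -/
theorem L1A.fub (hA : Cv l α cA a0) (hB : Cv l β cB b0) (h0 : a0 ≠ 0) {q : ∀ i, B i → ℝ} (mq : ∀ i, Measurable (q i))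
    (bq : ∃ C : ℝ, ∀ i b, |q i b| ≤ C) (hq : ∀ ε : ℝ, 0 < ε → ∃ φ : XA × XB →ᵇ ℝ,
      ∀ᶠ i in l, ∫ ω, |q i ω.2 - φ (cA i ω.1, cB i ω.2)| ∂((α i).prod (β i)) ≤ ε) : L1A l β cB q := by
  have := hA.fin'
  have := hB.fin'
  refine ⟨mq, bq, fun ε hε => ?_⟩
  obtain ⟨C0, hC0⟩ := bq
  obtain ⟨C, hCd⟩ : ∃ C : ℝ, C = |C0| := ⟨_, rfl⟩
  have hCn : 0 ≤ C := by rw [hCd]; exact abs_nonneg _
  have hbq : ∀ i b, |q i b| ≤ C := fun i b => (hC0 i b).trans (by rw [hCd]; exact le_abs_self _)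
  obtain ⟨m, hm⟩ : ∃ m : ℝ, m = a0.real univ := ⟨_, rfl⟩
  have hm0 : 0 < m := by
    rw [hm]
    exact ENNReal.toReal_pos (fun h => h0 (Measure.measure_univ_eq_zero.1 h)) (measure_ne_top _ _)
  obtain ⟨M, hM0, hM1, hM2⟩ := hA.bd
  obtain ⟨MB, hMB0, hMB1, hMB2⟩ := hB.bd
  obtain ⟨T, hT⟩ : ∃ T : ℝ, T = C * MB + 1 + (1 + 4 * M + 4 * C) * MB + 2 * C * M + 1 := ⟨_, rfl⟩
  have hT0 : 0 < T := by rw [hT]; positivity
  obtain ⟨s, hs⟩ : ∃ s : ℝ, s = m * ε / T := ⟨_, rfl⟩
  have hs0 : 0 < s := by rw [hs]; positivity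
  have hsT : s * T = m * ε := by rw [hs]; field_simp
  obtain ⟨φ0, hφ0⟩ := hq s hs0
  -- clamp
  obtain ⟨φ, hφd⟩ : ∃ φ : XA × XB → ℝ, φ = fun z => max (-C) (min C (φ0 z)) := ⟨_, rfl⟩
  have hφc : Continuous φ := by rw [hφd]; exact continuous_const.max (continuous_const.min φ0.continuous)
  have hφb : ∀ z, |φ z| ≤ C := fun z => by rw [hφd]; exact clamp_bd hCn _
  -- compact sets
  obtain ⟨KA, hKA, hGA⟩ := hA.tight hs0
  obtain ⟨KB, hKB, hGB⟩ := hB.tight hs0
  obtain ⟨δ, hδ, hu⟩ := unif2 hφc hKA hKB hs0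
  obtain ⟨GA, gA1, gA2, gA3, gA4⟩ := hGA δ hδ
  obtain ⟨GB, gB1, gB2, gB3, gB4⟩ := hGB (δ / 2) (by positivity)
  obtain ⟨t, ht1, ht2, ht3⟩ := hKB.finite_cover_balls (e := δ / 2) (by positivity)
  -- the function
  have mφ1 : ∀ x, Measurable fun a => φ (a, x) := fun x => (hφc.comp (continuous_id.prodMk continuous_const)).measurable
  have hψc : Continuous fun x => (∫ a, φ (a, x) ∂a0) / m := by
    refine Continuous.div_const ?_ _
    refine continuous_of_dominated (fun x => (mφ1 x).aestronglyMeasurable) (fun x => Eventually.of_forall fun a => ?_)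
      (integrable_const C) (Eventually.of_forall fun a => hφc.comp (continuous_const.prodMk continuous_id))
    rw [Real.norm_eq_abs]
    exact hφb _
  have hψb : ∀ x, |(∫ a, φ (a, x) ∂a0) / m| ≤ C := by
    intro x
    rw [abs_div, abs_of_pos hm0, div_le_iff₀ hm0]
    calc |∫ a, φ (a, x) ∂a0| ≤ ∫ a, |φ (a, x)| ∂a0 := abs_integral_le_integral_abs
      _ ≤ ∫ _a, C ∂a0 := integral_mono (itg (mφ1 x) fun a => hφb _).abs (integrable_const _) fun a => hφb _
      _ = C * m := by rw [integral_const, smul_eq_mul, hm]; ring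
  refine ⟨BoundedContinuousFunction.ofNormedAddCommGroup _ hψc C fun x => by rw [Real.norm_eq_abs]; exact hψb x, ?_⟩
  -- convergence at the points of the net
  have hnet : ∀ᶠ i in l, ∀ x ∈ t, |∫ a, φ (cA i a, x) ∂α i - ∫ a, φ (a, x) ∂a0| ≤ s := by
    refine (eventually_all_finite ht2).2 fun x _ => ?_
    have h1 := hA.lim (BoundedContinuousFunction.ofNormedAddCommGroup (fun a => φ (a, x))
      (hφc.comp (continuous_id.prodMk continuous_const)) C fun a => by rw [Real.norm_eq_abs]; exact hφb _)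
    filter_upwards [(Metric.tendsto_nhds.1 h1) s hs0] with i hi
    rw [Real.dist_eq] at hi
    exact hi.le
  filter_upwards [hφ0, hM2, hMB2, gA4, gB4, hnet, (Metric.tendsto_nhds.1 hA.mass) s hs0] with i i1 i2 i3 i4 i5 i6 i7
  have := hA.fin i
  have := hB.fin i
  rw [Real.dist_eq, ← hm] at i7
  have mc : Measurable fun ω : A i × B i => (cA i ω.1, cB i ω.2) :=
    ((hA.ms i).comp measurable_fst).prodMk ((hB.ms i).comp measurable_snd)
  have mφc : Measurable fun ω : A i × B i => φ (cA i ω.1, cB i ω.2) := hφc.measurable.comp mc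
  have mq2 : Measurable fun ω : A i × B i => q i ω.2 := (mq i).comp measurable_snd
  have iφ : Integrable (fun ω : A i × B i => φ (cA i ω.1, cB i ω.2)) ((α i).prod (β i)) := itg mφc fun ω => hφb _
  have iq : Integrable (fun ω : A i × B i => q i ω.2) ((α i).prod (β i)) := itg mq2 fun ω => hbq i _
  have j0 : Integrable (fun ω : A i × B i => |q i ω.2 - φ (cA i ω.1, cB i ω.2)|) ((α i).prod (β i)) := (iq.sub iφ).abs
  -- first estimate
  have k1 : ∫ b, ∫ a, |q i b - φ (cA i a, cB i b)| ∂α i ∂β i ≤ s := by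
    rw [← integral_prod_symm _ j0]
    refine le_trans (integral_mono j0 ?_ fun ω => ?_) i1
    · exact (iq.sub (itg (φ0.continuous.measurable.comp mc) fun ω => φ0.norm_coe_le_norm _)).abs
    · show |q i ω.2 - φ (cA i ω.1, cB i ω.2)| ≤ |q i ω.2 - φ0 (cA i ω.1, cB i ω.2)|
      rw [hφd]
      exact clamp_le (hbq i _)
  -- second estimate
  have mφA : ∀ x, Measurable fun a => φ (cA i a, x) := fun x => (mφ1 x).comp (hA.ms i)
  have eA : ∀ x x', (∀ a ∈ Metric.thickening δ KA, |φ (a, x) - φ (a, x')| ≤ 2 * s) →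
      |∫ a, φ (cA i a, x) ∂α i - ∫ a, φ (cA i a, x') ∂α i| ≤ 2 * s * M + 2 * C * s := by
    intro x x' h
    rw [← integral_sub (itg (mφA x) fun a => hφb _) (itg (mφA x') fun a => hφb _)]
    calc |∫ a, (φ (cA i a, x) - φ (cA i a, x')) ∂α i| ≤ ∫ a, |φ (cA i a, x) - φ (cA i a, x')| ∂α i := abs_integral_le_integral_abs
      _ ≤ ∫ a, (2 * s + 2 * C * GA (cA i a)) ∂α i := by
          refine integral_mono ((itg (mφA x) fun a => hφb _).sub (itg (mφA x') fun a => hφb _)).abs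
            ((integrable_const _).add ((hA.int_c GA i).const_mul _)) fun a => ?_
          show |φ (cA i a, x) - φ (cA i a, x')| ≤ 2 * s + 2 * C * GA (cA i a)
          by_cases ha : cA i a ∈ Metric.thickening δ KA
          · have := h _ ha
            have := mul_nonneg (by linarith : 0 ≤ 2 * C) (gA1 (cA i a)).1
            linarith
          · rw [gA2 _ ha]
            have := (abs_sub (φ (cA i a, x)) (φ (cA i a, x'))).trans (add_le_add (hφb _) (hφb _))
            linarith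
      _ = 2 * s * (α i).real univ + 2 * C * ∫ a, GA (cA i a) ∂α i := by
          rw [integral_add (integrable_const _) ((hA.int_c GA i).const_mul _), integral_const, integral_const_mul, smul_eq_mul]
          ring
      _ ≤ _ := add_le_add (mul_le_mul_of_nonneg_left i2 (by linarith)) (mul_le_mul_of_nonneg_left i4 (by linarith))
  have e0 : ∀ x x', (∀ a ∈ Metric.thickening δ KA, |φ (a, x) - φ (a, x')| ≤ 2 * s) →
      |∫ a, φ (a, x) ∂a0 - ∫ a, φ (a, x') ∂a0| ≤ 2 * s * M + 2 * C * s := by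
    intro x x' h
    rw [← integral_sub (itg (mφ1 x) fun a => hφb _) (itg (mφ1 x') fun a => hφb _)]
    calc |∫ a, (φ (a, x) - φ (a, x')) ∂a0| ≤ ∫ a, |φ (a, x) - φ (a, x')| ∂a0 := abs_integral_le_integral_abs
      _ ≤ ∫ a, (2 * s + 2 * C * GA a) ∂a0 := by
          refine integral_mono ((itg (mφ1 x) fun a => hφb _).sub (itg (mφ1 x') fun a => hφb _)).abs
            ((integrable_const _).add ((int_bcf hA.fin' GA).const_mul _)) fun a => ?_
          show |φ (a, x) - φ (a, x')| ≤ 2 * s + 2 * C * GA a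
          by_cases ha : a ∈ Metric.thickening δ KA
          · have := h _ ha
            have := mul_nonneg (by linarith : 0 ≤ 2 * C) (gA1 a).1
            linarith
          · rw [gA2 _ ha]
            have := (abs_sub (φ (a, x)) (φ (a, x'))).trans (add_le_add (hφb _) (hφb _))
            linarith
      _ = 2 * s * a0.real univ + 2 * C * ∫ a, GA a ∂a0 := by
          rw [integral_add (integrable_const _) ((int_bcf hA.fin' GA).const_mul _), integral_const, integral_const_mul, smul_eq_mul]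
          ring
      _ ≤ _ := add_le_add (mul_le_mul_of_nonneg_left hM1 (by linarith)) (mul_le_mul_of_nonneg_left gA3 (by linarith))
  have bA : ∀ x, |∫ a, φ (cA i a, x) ∂α i| ≤ C * M := fun x => by
    calc |∫ a, φ (cA i a, x) ∂α i| ≤ ∫ a, |φ (cA i a, x)| ∂α i := abs_integral_le_integral_abs
      _ ≤ ∫ _a, C ∂α i := integral_mono (itg (mφA x) fun a => hφb _).abs (integrable_const _) fun a => hφb _
      _ = C * (α i).real univ := by rw [integral_const, smul_eq_mul]; ring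
      _ ≤ _ := mul_le_mul_of_nonneg_left i2 hCn
  have b0' : ∀ x, |∫ a, φ (a, x) ∂a0| ≤ C * M := fun x => by
    calc |∫ a, φ (a, x) ∂a0| ≤ ∫ a, |φ (a, x)| ∂a0 := abs_integral_le_integral_abs
      _ ≤ ∫ _a, C ∂a0 := integral_mono (itg (mφ1 x) fun a => hφb _).abs (integrable_const _) fun a => hφb _
      _ = C * a0.real univ := by rw [integral_const, smul_eq_mul]; ring
      _ ≤ _ := mul_le_mul_of_nonneg_left hM1 hCn
  have k2 : ∀ x, |∫ a, φ (cA i a, x) ∂α i - ∫ a, φ (a, x) ∂a0| ≤ s * (1 + 4 * M + 4 * C) + 2 * C * M * GB x := by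
    intro x
    by_cases hx : x ∈ Metric.thickening (δ / 2) KB
    · obtain ⟨y, hy, hxy⟩ := Metric.mem_thickening_iff.1 hx
      obtain ⟨z, hz, hyz⟩ := mem_iUnion₂.1 (ht3 hy)
      have hd : dist x z < δ := by
        have := dist_triangle x y z
        rw [Metric.mem_ball] at hyz
        linarith
      have hh : ∀ a ∈ Metric.thickening δ KA, |φ (a, x) - φ (a, z)| ≤ 2 * s := fun a ha => hu a ha z (ht1 hz) x hd
      have f1 := eA x z hh
      have f2 := e0 x z hh
      have f3 := i6 z hz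
      have f4 := mul_nonneg (by positivity : 0 ≤ 2 * C * M) (gB1 x).1
      have g1 := abs_le.1 f1
      have g2 := abs_le.1 f2
      have g3 := abs_le.1 f3
      rw [abs_le]
      constructor <;> nlinarith [g1.1, g1.2, g2.1, g2.2, g3.1, g3.2]
    · rw [gB2 x hx]
      have f1 := abs_sub (∫ a, φ (cA i a, x) ∂α i) (∫ a, φ (a, x) ∂a0)
      have f2 : 0 ≤ s * (1 + 4 * M + 4 * C) := by positivity
      linarith [bA x, b0' x]
  -- the sum
  have iin : Integrable (fun b => ∫ a, |q i b - φ (cA i a, cB i b)| ∂α i) (β i) := j0.integral_prod_right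
  have key : ∀ b, m * |q i b - (∫ a, φ (a, cB i b) ∂a0) / m| ≤ s * C + ∫ a, |q i b - φ (cA i a, cB i b)| ∂α i +
      (s * (1 + 4 * M + 4 * C) + 2 * C * M * GB (cB i b)) := by
    intro b
    have f1 : m * |q i b - (∫ a, φ (a, cB i b) ∂a0) / m| = |m * q i b - ∫ a, φ (a, cB i b) ∂a0| := by
      rw [← abs_of_pos hm0, ← abs_mul, abs_of_pos hm0, mul_sub, mul_div_cancel₀ _ hm0.ne']
    have f2 : |(α i).real univ * q i b - ∫ a, φ (cA i a, cB i b) ∂α i| ≤ ∫ a, |q i b - φ (cA i a, cB i b)| ∂α i := by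
      have : (α i).real univ * q i b - ∫ a, φ (cA i a, cB i b) ∂α i = ∫ a, (q i b - φ (cA i a, cB i b)) ∂α i := by
        rw [integral_sub (integrable_const _) (itg (mφA _) fun a => hφb _), integral_const, smul_eq_mul]
      rw [this]
      exact abs_integral_le_integral_abs
    have f3 := k2 (cB i b)
    have f4 : |((α i).real univ - m) * q i b| ≤ s * C := by
      rw [abs_mul]
      exact mul_le_mul i7.le (hbq i b) (abs_nonneg _) hs0.le
    rw [f1]
    have g2 := abs_le.1 f2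
    have g3 := abs_le.1 f3
    have g4 := abs_le.1 f4
    rw [sub_mul] at g4
    rw [abs_le]
    constructor <;> linarith [g2.1, g2.2, g3.1, g3.2, g4.1, g4.2]
  have mψ : Measurable fun b => (∫ a, φ (a, cB i b) ∂a0) / m := hψc.measurable.comp (hB.ms i)
  have l1 : Integrable (fun b => |q i b - (∫ a, φ (a, cB i b) ∂a0) / m|) (β i) :=
    ((itg (mq i) (hbq i)).sub (itg mψ fun b => hψb _)).abs
  have l2 : m * ∫ b, |q i b - (∫ a, φ (a, cB i b) ∂a0) / m| ∂β i ≤ m * ε := by
    calc m * ∫ b, |q i b - (∫ a, φ (a, cB i b) ∂a0) / m| ∂β i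
        = ∫ b, m * |q i b - (∫ a, φ (a, cB i b) ∂a0) / m| ∂β i := (integral_const_mul _ _).symm
      _ ≤ ∫ b, (s * C + ∫ a, |q i b - φ (cA i a, cB i b)| ∂α i + (s * (1 + 4 * M + 4 * C) + 2 * C * M * GB (cB i b))) ∂β i :=
          integral_mono (l1.const_mul m) (((integrable_const _).add iin).add
            ((integrable_const _).add ((hB.int_c GB i).const_mul _))) key
      _ = ∫ _b, s * C ∂β i + ∫ b, ∫ a, |q i b - φ (cA i a, cB i b)| ∂α i ∂β i +
            ∫ b, (s * (1 + 4 * M + 4 * C) + 2 * C * M * GB (cB i b)) ∂β i :=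
          int3 (integrable_const _) iin ((integrable_const _).add ((hB.int_c GB i).const_mul _))
      _ = s * C * (β i).real univ + ∫ b, ∫ a, |q i b - φ (cA i a, cB i b)| ∂α i ∂β i +
            (s * (1 + 4 * M + 4 * C) * (β i).real univ + 2 * C * M * ∫ b, GB (cB i b) ∂β i) := by
          rw [integral_add (integrable_const _) ((hB.int_c GB i).const_mul _), integral_const, integral_const, integral_const_mul,
            smul_eq_mul, smul_eq_mul]
          ring
      _ ≤ s * C * MB + s + (s * (1 + 4 * M + 4 * C) * MB + 2 * C * M * s) := by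
          have h1 := mul_le_mul_of_nonneg_left i3 (by positivity : 0 ≤ s * C)
          have h2 := mul_le_mul_of_nonneg_left i3 (by positivity : 0 ≤ s * (1 + 4 * M + 4 * C))
          have h3 := mul_le_mul_of_nonneg_left i5 (by positivity : 0 ≤ 2 * C * M)
          linarith
      _ ≤ s * T := by
          rw [hT]
          nlinarith
      _ = m * ε := hsT
  exact le_of_mul_le_mul_left l2 hm0

end fub

/-! ### equi-Lipschitz approximating functions -/

section equi

variable [CompleteSpace X] [SecondCountableTopology X]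

/-- **along an ultrafilter** the approximating functions may depend on the index if they are equi-Lipschitz -/
theorem L1A.of_equi {U : Ultrafilter ι} (hC : Cv (U : Filter ι) P c ν) {p : ∀ i, Ω i → ℝ} (mp : ∀ i, Measurable (p i))
    (bp : ∃ C : ℝ, ∀ i ω, |p i ω| ≤ C) (h : ∀ ε : ℝ, 0 < ε → ∃ (K : ℝ≥0) (D : ℝ), ∀ᶠ i in (U : Filter ι),
      ∃ φ : X → ℝ, LipschitzWith K φ ∧ (∀ x, |φ x| ≤ D) ∧ ∫ ω, |p i ω - φ (c i ω)| ∂P i ≤ ε) : L1A (U : Filter ι) P c p := by
  classical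
  refine ⟨mp, bp, fun ε hε => ?_⟩
  obtain ⟨K, D0, h1⟩ := h (ε / 2) (by positivity)
  obtain ⟨D, hD⟩ : ∃ D : ℝ, D = |D0| := ⟨_, rfl⟩
  have hD0 : 0 ≤ D := by rw [hD]; exact abs_nonneg _
  -- the functions
  have h2 : ∀ i, ∃ φ : X → ℝ, LipschitzWith K φ ∧ (∀ x, |φ x| ≤ D) ∧
      ((∃ φ : X → ℝ, LipschitzWith K φ ∧ (∀ x, |φ x| ≤ D0) ∧ ∫ ω, |p i ω - φ (c i ω)| ∂P i ≤ ε / 2) →
        ∫ ω, |p i ω - φ (c i ω)| ∂P i ≤ ε / 2) := by
    intro i
    by_cases hi : ∃ φ : X → ℝ, LipschitzWith K φ ∧ (∀ x, |φ x| ≤ D0) ∧ ∫ ω, |p i ω - φ (c i ω)| ∂P i ≤ ε / 2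
    · obtain ⟨φ, a1, a2, a3⟩ := hi
      exact ⟨φ, a1, fun x => (a2 x).trans (by rw [hD]; exact le_abs_self _), fun _ => a3⟩
    · exact ⟨fun _ => 0, LipschitzWith.const' 0, fun x => by simpa using hD0, fun hh => absurd hh hi⟩
  choose φi f1 f2 f3 using h2
  have h3 : ∀ x, ∃ y ∈ Icc (-D) D, Tendsto (fun i => φi i x) (U : Filter ι) (𝓝 y) := by
    intro x
    have h4 : (U.map fun i => φi i x) ≤ 𝓟 (Icc (-D) D) := by
      rw [le_principal_iff]
      exact Filter.mem_map.2 (Filter.univ_mem' fun i => ⟨(abs_le.1 (f2 i x)).1, (abs_le.1 (f2 i x)).2⟩)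
    obtain ⟨y, hy, h5⟩ := isCompact_Icc.ultrafilter_le_nhds (U.map fun i => φi i x) h4
    exact ⟨y, hy, h5⟩
  choose φ hφ1 hφ2 using h3
  have hφb : ∀ x, |φ x| ≤ D := fun x => abs_le.2 ⟨(hφ1 x).1, (hφ1 x).2⟩
  have hφL : LipschitzWith K φ := by
    refine LipschitzWith.of_dist_le_mul fun x y => ?_
    refine le_of_tendsto ((hφ2 x).dist (hφ2 y)) (Eventually.of_forall fun i => (f1 i).dist_le_mul x y)
  obtain ⟨M, hM0, -, hM2⟩ := hC.bd
  obtain ⟨s, hs⟩ : ∃ s : ℝ, s = ε / (2 * (M + 4 * K * M + 2 * D + 1)) := ⟨_, rfl⟩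
  have hs0 : 0 < s := by rw [hs]; positivity
  have hsT : s * (M + 4 * K * M + 2 * D + 1) = ε / 2 := by
    rw [hs]
    have : 0 < M + 4 * K * M + 2 * D + 1 := by positivity
    field_simp
  obtain ⟨KX, hKX, hG⟩ := hC.tight hs0
  obtain ⟨G, g1, g2, g3, g4⟩ := hG s hs0
  obtain ⟨t, ht1, ht2, ht3⟩ := hKX.finite_cover_balls hs0
  have hnet : ∀ᶠ i in (U : Filter ι), ∀ x ∈ t, |φi i x - φ x| ≤ s := by
    refine (eventually_all_finite ht2).2 fun x _ => ?_
    filter_upwards [(Metric.tendsto_nhds.1 (hφ2 x)) s hs0] with i hi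
    rw [Real.dist_eq] at hi
    exact hi.le
  refine ⟨BoundedContinuousFunction.ofNormedAddCommGroup φ hφL.continuous D fun x => by rw [Real.norm_eq_abs]; exact hφb x, ?_⟩
  filter_upwards [h1, hM2, g4, hnet] with i i1 i2 i4 i5
  have := hC.fin i
  obtain ⟨C, hCb⟩ := bp
  have e1 : ∀ x, |φi i x - φ x| ≤ s + 4 * K * s + 2 * D * G x := by
    intro x
    by_cases hx : x ∈ Metric.thickening s KX
    · obtain ⟨y, hy, hxy⟩ := Metric.mem_thickening_iff.1 hx
      obtain ⟨z, hz, hyz⟩ := mem_iUnion₂.1 (ht3 hy)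
      rw [Metric.mem_ball] at hyz
      have hd : dist x z ≤ 2 * s := by
        have := dist_triangle x y z
        linarith
      have a1 := (f1 i).dist_le_mul x z
      have a2 := hφL.dist_le_mul x z
      have a3 := i5 z hz
      have a4 : (K : ℝ) * dist x z ≤ K * (2 * s) := mul_le_mul_of_nonneg_left hd K.2
      have a5 := mul_nonneg (by linarith : 0 ≤ 2 * D) (g1 x).1
      rw [Real.dist_eq] at a1 a2
      have b1 := abs_le.1 a1
      have b2 := abs_le.1 a2
      have b3 := abs_le.1 a3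
      rw [abs_le]
      constructor <;> linarith [b1.1, b1.2, b2.1, b2.2, b3.1, b3.2]
    · rw [g2 x hx]
      have a1 := (abs_sub (φi i x) (φ x)).trans (add_le_add (f2 i x) (hφb x))
      have : 0 ≤ 4 * (K : ℝ) * s := by positivity
      linarith
  have j1 : Integrable (fun ω => |p i ω - φi i (c i ω)|) (P i) :=
    ((itg (mp i) (hCb i)).sub (itg ((f1 i).continuous.measurable.comp (hC.ms i)) fun ω => f2 i _)).abs
  have j2 : Integrable (fun ω => |φi i (c i ω) - φ (c i ω)|) (P i) :=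
    ((itg ((f1 i).continuous.measurable.comp (hC.ms i)) fun ω => f2 i _).sub
      (itg (hφL.continuous.measurable.comp (hC.ms i)) fun ω => hφb _)).abs
  have j3 : ∫ ω, |φi i (c i ω) - φ (c i ω)| ∂P i ≤ ε / 2 := by
    calc ∫ ω, |φi i (c i ω) - φ (c i ω)| ∂P i ≤ ∫ ω, (s + 4 * K * s + 2 * D * G (c i ω)) ∂P i :=
          integral_mono j2 ((integrable_const _).add ((hC.int_c G i).const_mul _)) fun ω => e1 _
      _ = (s + 4 * K * s) * (P i).real univ + 2 * D * ∫ ω, G (c i ω) ∂P i := by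
          rw [integral_add (integrable_const _) ((hC.int_c G i).const_mul _), integral_const, integral_const_mul, smul_eq_mul]
          ring
      _ ≤ (s + 4 * K * s) * M + 2 * D * s := by
          exact add_le_add (mul_le_mul_of_nonneg_left i2 (by positivity)) (mul_le_mul_of_nonneg_left i4 (by positivity))
      _ ≤ s * (M + 4 * K * M + 2 * D + 1) := by nlinarith
      _ = ε / 2 := hsT
  calc ∫ ω, |p i ω - φ (c i ω)| ∂P i ≤ ∫ ω, (|p i ω - φi i (c i ω)| + |φi i (c i ω) - φ (c i ω)|) ∂P i := by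
        refine integral_mono ((itg (mp i) (hCb i)).sub (itg (hφL.continuous.measurable.comp (hC.ms i)) fun ω => hφb _)).abs
          (j1.add j2) fun ω => abs_sub_le _ _ _
    _ = _ := integral_add j1 j2
    _ ≤ ε := by linarith [f3 i i1]

end equi

end Pool.Agent.ROT.F3.LF
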