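import Pool.Agent.ROT.F3Gen
import Pool.Agent.ROT.F3LimF2

/-!
# F3, limit side: helper59's `L1A`, `LimF`, `Wk` (F3Gen) and the general form `LF.L1A`, `LF.Lm`, `LF.Cv` (helper90)
-/

set_option autoImplicit false

open MeasureTheory Filter Topology Set BoundedContinuousFunction
open scoped ENNReal

namespace Pool.Agent.ROT.F3.LF

variable {ι Ω X : Type*} [MeasurableSpace Ω] [DiscreteMeasurableSpace Ω] [PseudoMetricSpace X] {U : Filter ι} {P : ι → Measure Ω}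
  {x : ι → Ω → X} {p : ι → Ω → ℝ}

theorem l1a_iff : F3.L1A U P x p ↔ LF.L1A (Ω := fun _ => Ω) U P x p :=
  ⟨fun h => ⟨fun _ => Measurable.of_discrete, h.bd, h.ap⟩, fun h => ⟨h.2.1, h.2.2⟩⟩

variable [MeasurableSpace X] {μ : Measure X} {Φ : X → ℝ}

theorem limF_iff : F3.LimF U P x p μ Φ ↔ LF.Lm (Ω := fun _ => Ω) U P x μ p Φ := by
  constructor
  · intro h
    obtain ⟨C, h1, h2⟩ := h.bd
    refine ⟨fun _ => Measurable.of_discrete, ⟨C, h1⟩, h.ms, ⟨C, h2⟩, fun ε hε => ?_⟩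
    obtain ⟨φ, h3, h4⟩ := h.ap ε hε
    exact ⟨φ, h4, h3⟩
  · intro h
    obtain ⟨C, h1⟩ := h.bd
    obtain ⟨C', h2⟩ := h.bd'
    refine ⟨h.ms', ⟨max C C', fun i s => (h1 i s).trans (le_max_left _ _), fun γ => (h2 γ).trans (le_max_right _ _)⟩,
      fun ε hε => ?_⟩
    obtain ⟨φ, h3, h4⟩ := h.ap ε hε
    exact ⟨φ, h4, h3⟩

theorem cv_iff : LF.Cv (Ω := fun _ => Ω) U P x μ ↔
    ((∀ i, IsFiniteMeasure (P i)) ∧ IsFiniteMeasure μ) ∧ F3.Wk U P x μ :=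
  ⟨fun h => ⟨⟨h.fin, h.fin'⟩, h.lim⟩, fun h => ⟨h.1.1, h.1.2, fun _ => Measurable.of_discrete, h.2⟩⟩

end Pool.Agent.ROT.F3.LF
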