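import Pool.Agent.ROT.F3LimF2
import Pool.Agent.ROT.F3SysN

/-!
# ROT / F3RelL (helper56): closed relations between curves and marks pass to the limit

* **`Lm.ae_rel`** : a closed relation which holds off small mass holds almost everywhere in the limit;
* **`Lm.ae_near`** : the same when it holds only up to small distances;
* `Lm.eq_or`, **`g1_lim`** : `0 <= p q -> p q' = p q` (up to small errors) passes to the limit (marks are `-1` or `>= 0`);
* **`g2_lim`** : the same under a condition `0 < F (curve, mark)`, `F` continuous.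
-/

set_option autoImplicit false
set_option linter.unusedSectionVars false

open MeasureTheory Filter Topology Set BoundedContinuousFunction
open scoped ENNReal NNReal

namespace Pool.Agent.ROT.F3.LF

variable {ι : Type*} {l : Filter ι} [l.NeBot] {Ω : ι → Type*} [∀ i, MeasurableSpace (Ω i)] {P : ∀ i, Measure (Ω i)}
  {X : Type*} [PseudoMetricSpace X] [MeasurableSpace X] [BorelSpace X] {c : ∀ i, Ω i → X} {ν : Measure X}

/-- closed sets of curves -/
theorem Cv.ae_closed (h : Cv l P c ν) {C : Set X} (hc : IsClosed C)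
    (hS : ∀ ε : ℝ, 0 < ε → ∀ᶠ i in l, (P i).real {ω | c i ω ∉ C} ≤ ε) : ∀ᵐ x ∂ν, x ∈ C := by
  have := h.fin'
  have h1 : ν.real Cᶜ ≤ 0 := le_of_forall_pos_le_add fun ε hε => by
    rw [zero_add]
    exact h.open_le hc.isOpen_compl (hS ε hε)
  have h2 : ν.real Cᶜ = 0 := le_antisymm h1 measureReal_nonneg
  exact (measureReal_eq_zero_iff (measure_ne_top ν _)).1 h2

/-- closed sets of curves, up to small distances -/
theorem Cv.ae_near (h : Cv l P c ν) {C : Set X} (hc : IsClosed C)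
    (hS : ∀ η : ℝ, 0 < η → ∀ ε : ℝ, 0 < ε → ∀ᶠ i in l, (P i).real {ω | ∀ y ∈ C, η < dist (c i ω) y} ≤ ε) : ∀ᵐ x ∂ν, x ∈ C := by
  have := h.fin'
  have h0 : ∀ n : ℕ, ∀ᵐ x ∂ν, x ∈ Metric.cthickening (1 / ((n : ℝ) + 1)) C := by
    intro n
    refine h.ae_closed Metric.isClosed_cthickening fun ε hε => ?_
    filter_upwards [hS (1 / ((n : ℝ) + 1)) (by positivity) ε hε] with i hi
    have := h.fin i
    refine (measureReal_mono fun ω hω y hy => ?_).trans hi
    by_contra hlt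
    rw [not_lt] at hlt
    exact hω (Metric.mem_cthickening_of_dist_le (c i ω) y _ _ hy hlt)
  filter_upwards [ae_all_iff.2 h0] with x hx
  rw [← hc.closure_eq, Metric.closure_eq_iInter_cthickening]
  refine mem_iInter₂.2 fun δ hδ => ?_
  obtain ⟨n, hn⟩ := exists_nat_one_div_lt hδ
  exact Metric.cthickening_mono hn.le _ (hx n)

section marks

variable [CompleteSpace X] [SecondCountableTopology X]

/-- **closed relations between the curve and the marks** -/
theorem Lm.ae_rel (hC : Cv l P c ν) {κ : Type*} [Fintype κ] {p : ∀ i, Ω i → κ → ℝ} {Φ : X → κ → ℝ}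
    (h : ∀ k, Lm l P c ν (fun i ω => p i ω k) fun x => Φ x k) {C : Set (X × (κ → ℝ))} (hc : IsClosed C)
    (hS : ∀ ε : ℝ, 0 < ε → ∀ᶠ i in l, (P i).real {ω | (c i ω, p i ω) ∉ C} ≤ ε) : ∀ᵐ x ∂ν, (x, Φ x) ∈ C := by
  have m1 : Measurable fun x => (x, Φ x) := measurable_id.prodMk (measurable_pi_iff.2 fun k => (h k).ms')
  have h1 := hC.push h (Θ := fun z : X × (κ → ℝ) => z) continuous_id
  exact ae_of_ae_map m1.aemeasurable (h1.ae_closed hc hS)

/-- **closed relations, up to small distances** -/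
theorem Lm.ae_near (hC : Cv l P c ν) {κ : Type*} [Fintype κ] {p : ∀ i, Ω i → κ → ℝ} {Φ : X → κ → ℝ}
    (h : ∀ k, Lm l P c ν (fun i ω => p i ω k) fun x => Φ x k) {C : Set (X × (κ → ℝ))} (hc : IsClosed C)
    (hS : ∀ η : ℝ, 0 < η → ∀ ε : ℝ, 0 < ε → ∀ᶠ i in l, (P i).real {ω | ∀ y ∈ C, η < dist (c i ω, p i ω) y} ≤ ε) :
    ∀ᵐ x ∂ν, (x, Φ x) ∈ C := by
  have m1 : Measurable fun x => (x, Φ x) := measurable_id.prodMk (measurable_pi_iff.2 fun k => (h k).ms')
  have h1 := hC.push h (Θ := fun z : X × (κ → ℝ) => z) continuous_id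
  exact ae_of_ae_map m1.aemeasurable (h1.ae_near hc hS)

/-- **an implication between marks, under an open condition**: `q i ω` the premise mark, `F > 0` the premise condition, `G` the
quantity which is small; in the limit `0 <= Φ q`, `0 < F` imply `G <= 0`; marks are `<= -1` or `>= 0` -/
theorem Lm.imp (hC : Cv l P c ν) {κ : Type*} [Fintype κ] {p : ∀ i, Ω i → κ → ℝ} {Φ : X → κ → ℝ}
    (h : ∀ k, Lm l P c ν (fun i ω => p i ω k) fun x => Φ x k) {F G : X × (κ → ℝ) → ℝ} (hF : Continuous F) (hG : Continuous G)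
    (hS : ∀ η : ℝ, 0 < η → ∀ ε : ℝ, 0 < ε → ∀ᶠ i in l, (P i).real {ω | η < F (c i ω, p i ω) ∧ η < G (c i ω, p i ω)} ≤ ε) :
    ∀ᵐ x ∂ν, 0 < F (x, Φ x) → G (x, Φ x) ≤ 0 := by
  have h0 : ∀ n : ℕ, ∀ᵐ x ∂ν, (x, Φ x) ∈ {y | F y ≤ 1 / ((n : ℝ) + 1)} ∪ {y | G y ≤ 1 / ((n : ℝ) + 1)} := by
    intro n
    refine Lm.ae_rel hC h ((isClosed_le hF continuous_const).union (isClosed_le hG continuous_const)) fun ε hε => ?_
    filter_upwards [hS (1 / ((n : ℝ) + 1)) (by positivity) ε hε] with i hi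
    have := hC.fin i
    refine (measureReal_mono fun ω hω => ?_).trans hi
    have hω' : ¬((c i ω, p i ω) ∈ {y | F y ≤ 1 / ((n : ℝ) + 1)} ∪ {y | G y ≤ 1 / ((n : ℝ) + 1)}) := hω
    rw [mem_union, not_or] at hω'
    exact ⟨not_le.1 hω'.1, not_le.1 hω'.2⟩
  filter_upwards [ae_all_iff.2 h0] with x hx hF0
  refine le_of_forall_pos_le_add fun δ hδ => ?_
  obtain ⟨n, hn⟩ := exists_nat_one_div_lt (lt_min hδ hF0)
  rcases hx n with h1 | h1
  · exact absurd (h1.trans_lt (hn.trans_le (min_le_right _ _))) (lt_irrefl _)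
  · have h2 : G (x, Φ x) ≤ 1 / ((n : ℝ) + 1) := h1
    linarith [min_le_left δ (F (x, Φ x))]

/-- an implication between two marks under an open condition on the curve and the first mark -/
theorem g2_lim (hC : Cv l P c ν) {p q : ∀ i, Ω i → ℝ} {Φ Ψ : X → ℝ} (hp : Lm l P c ν p Φ) (hq : Lm l P c ν q Ψ)
    (hv : ∀ i ω, p i ω ≤ -1 ∨ 0 ≤ p i ω) {F : X × ℝ → ℝ} (hF : Continuous F)
    (hS : ∀ η : ℝ, 0 < η → ∀ ε : ℝ, 0 < ε → ∀ᶠ i in l,
      (P i).real {ω | 0 ≤ p i ω ∧ η < F (c i ω, p i ω) ∧ η < |q i ω - p i ω|} ≤ ε) :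
    ∀ᵐ x ∂ν, 0 ≤ Φ x → 0 < F (x, Φ x) → Ψ x = Φ x := by
  have h1 := Lm.imp hC (κ := Fin 2) (p := fun i ω => ![p i ω, q i ω]) (Φ := fun x => ![Φ x, Ψ x])
    (fun k => by fin_cases k <;> simpa) (F := fun y => min (y.2 0 + 1) (F (y.1, y.2 0))) (G := fun y => |y.2 1 - y.2 0|)
    (by fun_prop) (by fun_prop) fun η hη ε hε => ?_
  · filter_upwards [h1] with x hx h2 h3
    have h4 : |Ψ x - Φ x| ≤ 0 := hx (lt_min (show (0 : ℝ) < Φ x + 1 by linarith) h3)
    exact sub_eq_zero.1 (abs_eq_zero.1 (le_antisymm h4 (abs_nonneg _)))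
  · filter_upwards [hS η hη ε hε] with i hi
    have := hC.fin i
    refine (measureReal_mono fun ω hω => ?_).trans hi
    have h2 : η < min (p i ω + 1) (F (c i ω, p i ω)) := hω.1
    have h3 : η < p i ω + 1 := h2.trans_le (min_le_left _ _)
    exact ⟨(hv i ω).resolve_left fun h => by linarith, h2.trans_le (min_le_right _ _), hω.2⟩

/-- **G1: weaker data, same time** -/
theorem g1_lim (hC : Cv l P c ν) {p q : ∀ i, Ω i → ℝ} {Φ Ψ : X → ℝ} (hp : Lm l P c ν p Φ) (hq : Lm l P c ν q Ψ)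
    (hv : ∀ i ω, p i ω ≤ -1 ∨ 0 ≤ p i ω)
    (hS : ∀ η : ℝ, 0 < η → ∀ ε : ℝ, 0 < ε → ∀ᶠ i in l, (P i).real {ω | 0 ≤ p i ω ∧ η < |q i ω - p i ω|} ≤ ε) :
    ∀ᵐ x ∂ν, 0 ≤ Φ x → Ψ x = Φ x := by
  filter_upwards [g2_lim hC hp hq hv (F := fun _ => 1) continuous_const fun η hη ε hε => by
    filter_upwards [hS η hη ε hε] with i hi
    have := hC.fin i
    refine (measureReal_mono fun ω hω => ?_).trans hi
    have h1 : 0 ≤ p i ω ∧ η < (1 : ℝ) ∧ η < |q i ω - p i ω| := hω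
    exact ⟨h1.1, h1.2.2⟩] with x hx h0
  exact hx h0 one_pos

/-- the values of the limit marks -/
theorem val_lim (hC : Cv l P c ν) {p : ∀ i, Ω i → ℝ} {Φ : X → ℝ} (hp : Lm l P c ν p Φ)
    (hv : ∀ i ω, p i ω = -1 ∨ 0 ≤ p i ω ∧ p i ω ≤ 1) : ∀ᵐ x ∂ν, Φ x = -1 ∨ 0 ≤ Φ x ∧ Φ x ≤ 1 := by
  refine Lm.ae_rel hC (κ := Unit) (p := fun i ω _ => p i ω) (Φ := fun x _ => Φ x) (fun _ => hp)
    (C := {y | y.2 () = -1 ∨ 0 ≤ y.2 () ∧ y.2 () ≤ 1}) ?_ fun ε hε => Eventually.of_forall fun i => ?_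
  · have c0 : Continuous fun y : X × (Unit → ℝ) => y.2 () := by fun_prop
    exact (isClosed_eq c0 continuous_const).union (IsClosed.inter (isClosed_le continuous_const c0) (isClosed_le c0 continuous_const))
  · have h1 : {ω | (c i ω, fun _ : Unit => p i ω) ∉ {y : X × (Unit → ℝ) | y.2 () = -1 ∨ 0 ≤ y.2 () ∧ y.2 () ≤ 1}} = ∅ := by
      refine eq_empty_of_forall_notMem fun ω hω => hω (hv i ω)
    rw [h1, measureReal_empty]
    exact hε.le

end marks

end Pool.Agent.ROT.F3.LF
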