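import Pool.Agent.ROT.F3K2C
import Pool.Agent.ROT.F3RelL
import Pool.Agent.ROT.F3LimF3
import Pool.Agent.ROT.F3LimEv

/-!
# ROT, F3, K2 (helper59, over helper16's F3K2C): the three gates of a strand in the limit

* `T3` : `c` is the gate over the base `p`, `x` the gate of level `m` over `c`, `y` the gate of level `h < m` over `c`, and
  `lev y < lev c + m`;
* `T3L` : the event `T3` and the times of `c`, `x` in the limit (`Ev`, `Lm`);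
* `t3_lim` : from the marks of `c`, `x`, `y` (`Gt1`, `Gt2`), if the level of `y` over `c` has no atom at `m`;
* `no_atom` : this holds for `m` off a countable set which does not depend on `h` and its radii;
* **`t3_gen`** : all together, for generic parameters in the order `a, t, m, t₂, h, t₃`; `LvG`, `t3_lvg` : the same for one level `a`, with
  `NoAt` (no atom at `m`).
-/

set_option autoImplicit false
set_option linter.unusedSectionVars false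

open Filter MeasureTheory Topology Set

open scoped NNReal ENNReal BoundedContinuousFunction

namespace Pool.Agent.ROT.F3

open Pool.Agent.NTS.Res (step pos saw fug size curve)
open Pool.Agent.ROT.F (QB)
open Pool.Agent.CRT (CI)
open Pool.Agent.SCF.M Pool.Agent.SCF.Z
open LF (Cv Lm Ev bi bi_pos bi_neg bi_and)

/-! ### one word -/

section det

/-- the three gates of a strand, over the base `p` -/
structure T3 {n : ℕ} (s : Fin n → Fin 3) (S p a r ρ m r1 ρ1 h r2 ρ2 : ℝ) (c x y : ℕ) : Prop where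
  gx : GB2 (Dv s (p * S)) a r ρ m r1 ρ1 S s c x
  gy : TP (Dv s (pos s c).re) (h * S) (r2 * S) (ρ2 * S) s y
  lt : (pos s y).re < (pos s c).re + m * S

variable {n : ℕ} {s : Fin n → Fin 3} {S p a r ρ m r1 ρ1 h r2 ρ2 R R3 z : ℝ}

lemma T3.uniq (hS : 0 ≤ S) (hρ : r ≤ ρ) (hρ1 : r1 ≤ ρ1) {c x y c' x' y' : ℕ} (t : T3 s S p a r ρ m r1 ρ1 h r2 ρ2 c x y)
    (t' : T3 s S p a r ρ m r1 ρ1 h r2 ρ2 c' x' y') : c = c' ∧ x = x' := gb2_unique hS hρ hρ1 t.gx t'.gx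

/-- the level of `y` over `c`, in units `S` -/
noncomputable def qy (R R3 a r ρ h r2 ρ2 S p z : ℝ) {n : ℕ} (s : Fin n → Fin 3) : ℝ :=
  nlB R3 a r ρ h r2 ρ2 S p z s - nlv R a r ρ S p z s

lemma qy_eq (hR : 0 < R) (hR3 : 0 < R3) (hS : 0 < S) (hr : r ≤ 2 * R) (hρ : r ≤ ρ) (hr2 : r2 ≤ 2 * R3) (hρ2 : r2 ≤ ρ2) (hz : z = 1)
    {c y : ℕ} (hB : GB2 (Dv s (p * S)) a r ρ h r2 ρ2 S s c y) :
    qy R R3 a r ρ h r2 ρ2 S p z s = ((pos s y).re - (pos s c).re) / S := by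
  unfold qy
  rw [nlB_eq hR3 hS hρ hr2 hρ2 hz hB, nlv_eq hR hS hr hρ hz hB.1, sub_div]

lemma qy_no (hR : 0 < R) (hS : 0 < S) (hρ : r ≤ ρ) (hz : 0 ≤ z)
    (hB : ∀ c y : ℕ, ¬ GB2 (Dv s (p * S)) a r ρ h r2 ρ2 S s c y) : qy R R3 a r ρ h r2 ρ2 S p z s ≤ 0 := by
  unfold qy
  rw [nlB_no hS.le hρ hB, zero_sub]
  linarith [nlv_nn (R := R) (a := a) (r := r) (ρ := ρ) (S := S) (p := p) (s := s) hR.le hz]

lemma qy_zero : qy R R3 a r ρ h r2 ρ2 S p 0 s = 0 := by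
  unfold qy nlB nlv
  ring

open Classical in
/-- **the event through the values** -/
lemma t3_iff (hR : 0 < R) (hR3 : 0 < R3) (hS : 0 < S) (hr : r ≤ 2 * R) (hρ : r ≤ ρ) (hρ1 : r1 ≤ ρ1) (hr2 : r2 ≤ 2 * R3)
    (hρ2 : r2 ≤ ρ2) (hz : z = 0 ∨ z = 1) :
    bi (z = 1 ∧ ∃ c x y : ℕ, T3 s S p a r ρ m r1 ρ1 h r2 ρ2 c x y) =
      (inB (Dv s (p * S)) a r ρ m r1 ρ1 S (fun _ => 1) s * z) * (inB (Dv s (p * S)) a r ρ h r2 ρ2 S (fun _ => 1) s * z) *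
        (1 - if m ≤ qy R R3 a r ρ h r2 ρ2 S p z s then 1 else 0) := by
  rcases hz with hz | hz
  · rw [hz, bi_neg (by norm_num)]
    ring
  · by_cases hx : ∃ c x : ℕ, GB2 (Dv s (p * S)) a r ρ m r1 ρ1 S s c x
    · obtain ⟨c, x, hx⟩ := hx
      by_cases hy : ∃ c y : ℕ, GB2 (Dv s (p * S)) a r ρ h r2 ρ2 S s c y
      · obtain ⟨c', y, hy⟩ := hy
        have e : c' = c := tp_unique (mul_le_mul_of_nonneg_right hρ hS.le) hy.1 hx.1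
        subst e
        rw [inB_of hS.le hρ hρ1 hx, inB_of hS.le hρ hρ2 hy, qy_eq hR hR3 hS hr hρ hr2 hρ2 hz hy, hz, one_mul, one_mul]
        by_cases hm : m ≤ ((pos s y).re - (pos s c').re) / S
        · have hne : ¬ ((1 : ℝ) = 1 ∧ ∃ c x y : ℕ, T3 s S p a r ρ m r1 ρ1 h r2 ρ2 c x y) := by
            rintro ⟨-, c1, x1, y1, t1⟩
            have e1 : c1 = c' := tp_unique (mul_le_mul_of_nonneg_right hρ hS.le) t1.gx.1 hx.1
            subst e1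
            have e2 : y1 = y := tp_unique (mul_le_mul_of_nonneg_right hρ2 hS.le) t1.gy hy.2
            subst e2
            have h2 := t1.lt
            rw [le_div_iff₀ hS] at hm
            linarith
          rw [if_pos hm, bi_neg hne]
          ring
        · have hlt : (pos s y).re < (pos s c').re + m * S := by
            rw [not_le, div_lt_iff₀ hS] at hm
            linarith
          have hyes : (1 : ℝ) = 1 ∧ ∃ c x y : ℕ, T3 s S p a r ρ m r1 ρ1 h r2 ρ2 c x y := ⟨rfl, c', x, y, hx, hy.2, hlt⟩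
          rw [if_neg hm, bi_pos hyes]
          ring
      · push Not at hy
        rw [inB_no hS.le hρ hy, bi_neg]
        · ring
        · rintro ⟨-, c1, x1, y1, t1⟩
          exact hy c1 y1 ⟨t1.gx.1, t1.gy⟩
    · push Not at hx
      rw [inB_no hS.le hρ hx, bi_neg]
      · ring
      · rintro ⟨-, c1, x1, y1, t1⟩
        exact hx c1 x1 t1.gx

lemma tm_clamp {k : ℕ} (h : k < n) : max 0 (min 1 ((k : ℝ) / n)) = (k : ℝ) / n := by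
  have hn0 : (0 : ℝ) < n := by exact_mod_cast (by omega : 0 < n)
  rw [min_eq_right ((div_le_one hn0).2 (by exact_mod_cast h.le)), max_eq_right (by positivity)]

/-- the value of the level of `y` at larger thresholds -/
lemma qy_mono (hR : 0 < R) (hR3 : 0 < R3) (hS : 0 < S) (hr : r ≤ 2 * R) (hρ : r ≤ ρ) (hr2 : r2 ≤ 2 * R3) (hρ2 : r2 ≤ ρ2)
    (hz : z = 0 ∨ z = 1) {h' r2' ρ2' : ℝ} (h0 : 0 ≤ h') (hh : h ≤ h') (hrr : r2 ≤ r2') (hρρ : ρ2' ≤ ρ2) (hr2' : r2' ≤ 2 * R3)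
    (hρ2' : r2' ≤ ρ2') (hq : h' < qy R R3 a r ρ h r2 ρ2 S p z s) :
    qy R R3 a r ρ h' r2' ρ2' S p z s = qy R R3 a r ρ h r2 ρ2 S p z s := by
  rcases hz with hz | hz
  · rw [hz, qy_zero] at hq
    linarith
  · by_cases hy : ∃ c y : ℕ, GB2 (Dv s (p * S)) a r ρ h r2 ρ2 S s c y
    · obtain ⟨c, y, hy⟩ := hy
      have e1 := qy_eq hR hR3 hS hr hρ hr2 hρ2 hz hy
      rw [e1, lt_div_iff₀ hS] at hq
      have h1 : TP (Dv s (pos s c).re) (h' * S) (r2' * S) (ρ2' * S) s y := by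
        refine tp_mono (r := r2 * S) (ρ := ρ2 * S) ⟨⟨hy.2.1.1, hy.2.1.2.1, hy.2.1.2.2.1, ?_, fun j hj hd => ?_⟩, hy.2.2⟩
          (mul_le_mul_of_nonneg_right hrr hS.le) (mul_le_mul_of_nonneg_right hρρ hS.le)
        · show h' * S + (pos s c).re ≤ (pos s y).re
          linarith
        · refine hy.2.1.2.2.2.2 j hj ?_
          have h2 : h' * S + (pos s c).re ≤ (pos s j).re := hd
          show h * S + (pos s c).re ≤ (pos s j).re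
          have h3 := mul_le_mul_of_nonneg_right hh hS.le
          linarith
      rw [e1, qy_eq hR hR3 hS hr hρ hr2' hρ2' hz ⟨hy.1, h1⟩]
    · push Not at hy
      have := qy_no (R3 := R3) (z := z) hR hS hρ (by rw [hz]; exact zero_le_one) hy
      linarith

end det

/-! ### systems -/

section sys

variable {ι Ω X : Type*} [MeasurableSpace Ω] [DiscreteMeasurableSpace Ω] [PseudoMetricSpace X] [MeasurableSpace X] [BorelSpace X]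
  [CompleteSpace X] [SecondCountableTopology X] {U : Ultrafilter ι}
  {P : ι → Measure Ω} [∀ i, IsFiniteMeasure (P i)] {x : ι → Ω → X} {ν : Measure X} {nn : ι → Ω → ℕ}
  {wd : ∀ (i : ι) (s : Ω), Fin (nn i s) → Fin 3} {S : ι → ℝ}

/-- an event with a limit function is an event with a limit set -/
lemma ev_of (hC : Cv (Ω := fun _ => Ω) (U : Filter ι) P x ν) {A : ι → Ω → Prop} {Φ : X → ℝ}
    (h : Lm (Ω := fun _ => Ω) (U : Filter ι) P x ν (fun i s => bi (A i s)) Φ) :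
    Ev (Ω := fun _ => Ω) (U : Filter ι) P x ν A {x | Φ x = 1} := by
  have h1 : ∀ᵐ y ∂ν, Φ y = 0 ∨ Φ y = 1 := by
    refine LF.Lm.ae_rel (κ := Unit) hC (p := fun i ω _ => bi (A i ω)) (Φ := fun y _ => Φ y) (fun _ => h)
      (C := {y | y.2 () = 0 ∨ y.2 () = 1}) ?_ fun ε hε => Eventually.of_forall fun i => ?_
    · have c0 : Continuous fun y : X × (Unit → ℝ) => y.2 () := by fun_prop
      exact (isClosed_eq c0 continuous_const).union (isClosed_eq c0 continuous_const)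
    · have h1 : {ω | (x i ω, fun _ : Unit => bi (A i ω)) ∉ {y : X × (Unit → ℝ) | y.2 () = 0 ∨ y.2 () = 1}} = ∅ := by
        refine eq_empty_of_forall_notMem fun ω hω => hω ?_
        by_cases hA : A i ω
        · exact Or.inr (bi_pos hA)
        · exact Or.inl (bi_neg hA)
      rw [h1, measureReal_empty]
      exact hε.le
  have hm : MeasurableSet {y | Φ y = 1} := h.ms' (measurableSet_singleton 1)
  refine h.congr (LF.bi_ms hm) ⟨1, fun y => LF.bi_abs _⟩ ?_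
  filter_upwards [h1] with y hy
  rcases hy with hy | hy
  · have h2 : ¬ Φ y = 1 := fun h4 => by
      rw [hy] at h4
      norm_num at h4
    show Φ y = bi (Φ y = 1)
    rw [bi_neg h2, hy]
  · show Φ y = bi (Φ y = 1)
    rw [bi_pos hy, hy]

/-- **the three gates in the limit** -/
structure T3L (U : Filter ι) (P : ι → Measure Ω) (x : ι → Ω → X) (ν : Measure X) (nn : ι → Ω → ℕ)
    (wd : ∀ (i : ι) (s : Ω), Fin (nn i s) → Fin 3) (S : ι → ℝ) (p z : ι → Ω → ℝ) (a r ρ m r1 ρ1 h r2 ρ2 : ℝ)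
    (𝒜 : Set X) (Pc Pg : X → ℝ) : Prop where
  ev : Ev (Ω := fun _ => Ω) U P x ν (fun i s => z i s = 1 ∧ ∃ c x y : ℕ, T3 (wd i s) (S i) (p i s) a r ρ m r1 ρ1 h r2 ρ2 c x y) 𝒜
  tm : ∀ cf gf : ι → Ω → ℕ, (∀ i s, z i s = 1 → (∃ c x y : ℕ, T3 (wd i s) (S i) (p i s) a r ρ m r1 ρ1 h r2 ρ2 c x y) →
    ∃ y : ℕ, T3 (wd i s) (S i) (p i s) a r ρ m r1 ρ1 h r2 ρ2 (cf i s) (gf i s) y) →
    Lm (Ω := fun _ => Ω) U P x ν (fun i s => bi (z i s = 1 ∧ ∃ c x y : ℕ, T3 (wd i s) (S i) (p i s) a r ρ m r1 ρ1 h r2 ρ2 c x y) *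
      ((cf i s : ℝ) / nn i s)) Pc ∧
    Lm (Ω := fun _ => Ω) U P x ν (fun i s => bi (z i s = 1 ∧ ∃ c x y : ℕ, T3 (wd i s) (S i) (p i s) a r ρ m r1 ρ1 h r2 ρ2 c x y) *
      ((gf i s : ℝ) / nn i s)) Pg

lemma L1A.l1f {q : ι → Ω → ℝ} (h : L1A (U : Filter ι) P x q) : LF.L1A (Ω := fun _ => Ω) (U : Filter ι) P x q := LF.l1a_iff.1 h

theorem t3_lim (hC : Cv (Ω := fun _ => Ω) (U : Filter ι) P x ν) {R R2 R3 a r ρ m r1 ρ1 h r2 ρ2 : ℝ} {p z : ι → Ω → ℝ}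
    (hR : 0 < R) (hR3 : 0 < R3) (hS : ∀ i, 0 < S i) (hr : r ≤ 2 * R) (hρ : r ≤ ρ) (hρ1 : r1 ≤ ρ1) (hr2 : r2 ≤ 2 * R3)
    (hρ2 : r2 ≤ ρ2) (hz : ∀ i s, z i s = 0 ∨ z i s = 1)
    (h1 : Gt1 (U : Filter ι) P x nn wd S R a r ρ p z) (h2 : Gt2 (U : Filter ι) P x nn wd S R R2 a r ρ m r1 ρ1 p z)
    (h3 : Gt2 (U : Filter ι) P x nn wd S R R3 a r ρ h r2 ρ2 p z)
    (h0 : ∀ Ψ : X → ℝ, Lm (Ω := fun _ => Ω) (U : Filter ι) P x ν
      (fun i s => qy R R3 a r ρ h r2 ρ2 (S i) (p i s) (z i s) (wd i s)) Ψ → ν {y | Ψ y = m} = 0) :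
    ∃ (𝒜 : Set X) (Pc Pg : X → ℝ), T3L (U : Filter ι) P x ν nn wd S p z a r ρ m r1 ρ1 h r2 ρ2 𝒜 Pc Pg := by
  classical
  obtain ⟨Φ1, l1⟩ := (h2.val 0 (fun _ _ => 1) le_rfl testX_one).l1f.lim hC
  obtain ⟨Φ2, l2⟩ := (h3.val 0 (fun _ _ => 1) le_rfl testX_one).l1f.lim hC
  obtain ⟨Ψ, l3⟩ := (h3.lv.sub h1.lv).l1f.lim hC
  have l4 := LF.Lm.level hC l3 (h0 Ψ l3)
  have l5 := LF.Lm.mul hC (LF.Lm.mul hC l1 l2) (LF.Lm.sub hC (LF.Lm.const hC 1) l4)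
  have e5 : (fun (i : ι) (s : Ω) => bi (z i s = 1 ∧ ∃ c x y : ℕ, T3 (wd i s) (S i) (p i s) a r ρ m r1 ρ1 h r2 ρ2 c x y)) =
      fun i s => (inB (Dv (wd i s) (p i s * S i)) a r ρ m r1 ρ1 (S i) (fun _ => 1) (wd i s) * z i s) *
        (inB (Dv (wd i s) (p i s * S i)) a r ρ h r2 ρ2 (S i) (fun _ => 1) (wd i s) * z i s) *
        (1 - if m ≤ qy R R3 a r ρ h r2 ρ2 (S i) (p i s) (z i s) (wd i s) then 1 else 0) := by
    funext i s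
    exact t3_iff hR hR3 (hS i) hr hρ hρ1 hr2 hρ2 (hz i s)
  obtain ⟨Φ, hΦ⟩ : ∃ Φ : X → ℝ, Lm (Ω := fun _ => Ω) (U : Filter ι) P x ν
      (fun i s => bi (z i s = 1 ∧ ∃ c x y : ℕ, T3 (wd i s) (S i) (p i s) a r ρ m r1 ρ1 h r2 ρ2 c x y)) Φ := ⟨_, by
    rw [e5]
    exact l5⟩
  obtain ⟨Ψc, lc⟩ := (h1.val 1 _ zero_le_one testX_time).l1f.lim hC
  obtain ⟨Ψg, lg⟩ := (h2.val 1 _ zero_le_one testX_time).l1f.lim hC
  refine ⟨{y | Φ y = 1}, fun y => Φ y * Ψc y, fun y => Φ y * Ψg y, ev_of hC hΦ, fun cf gf hcg => ⟨?_, ?_⟩⟩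
  · have e : (fun (i : ι) (s : Ω) => bi (z i s = 1 ∧ ∃ c x y : ℕ, T3 (wd i s) (S i) (p i s) a r ρ m r1 ρ1 h r2 ρ2 c x y) *
        ((cf i s : ℝ) / nn i s)) = fun i s => bi (z i s = 1 ∧ ∃ c x y : ℕ, T3 (wd i s) (S i) (p i s) a r ρ m r1 ρ1 h r2 ρ2 c x y) *
          (inP (Dv (wd i s) (p i s * S i)) (a * S i) (r * S i) (ρ * S i) (fun k => max 0 (min 1 ((k : ℝ) / nn i s))) (wd i s) *
            z i s) := by
      funext i s
      by_cases hA : z i s = 1 ∧ ∃ c x y : ℕ, T3 (wd i s) (S i) (p i s) a r ρ m r1 ρ1 h r2 ρ2 c x y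
      · obtain ⟨y, hy⟩ := hcg i s hA.1 hA.2
        rw [bi_pos hA, inP_eq (mul_le_mul_of_nonneg_right hρ (hS i).le) hy.gx.1, hA.1, tm_clamp hy.gx.1.2.1, mul_one]
      · rw [bi_neg hA, zero_mul, zero_mul]
    rw [e]
    exact LF.Lm.mul hC hΦ lc
  · have e : (fun (i : ι) (s : Ω) => bi (z i s = 1 ∧ ∃ c x y : ℕ, T3 (wd i s) (S i) (p i s) a r ρ m r1 ρ1 h r2 ρ2 c x y) *
        ((gf i s : ℝ) / nn i s)) = fun i s => bi (z i s = 1 ∧ ∃ c x y : ℕ, T3 (wd i s) (S i) (p i s) a r ρ m r1 ρ1 h r2 ρ2 c x y) *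
          (inB (Dv (wd i s) (p i s * S i)) a r ρ m r1 ρ1 (S i) (fun k => max 0 (min 1 ((k : ℝ) / nn i s))) (wd i s) * z i s) := by
      funext i s
      by_cases hA : z i s = 1 ∧ ∃ c x y : ℕ, T3 (wd i s) (S i) (p i s) a r ρ m r1 ρ1 h r2 ρ2 c x y
      · obtain ⟨y, hy⟩ := hcg i s hA.1 hA.2
        rw [bi_pos hA, inB_of (hS i).le hρ hρ1 hy.gx, hA.1, tm_clamp hy.gx.2.2.1, mul_one]
      · rw [bi_neg hA, zero_mul, zero_mul]
    rw [e]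
    exact LF.Lm.mul hC hΦ lg

/-- **comparison of the levels of `y` for two sets of parameters, in the limit** -/
theorem qy_rel (hC : Cv (Ω := fun _ => Ω) (U : Filter ι) P x ν) {R R3 a r ρ h r2 ρ2 h' r2' ρ2' : ℝ} {p z : ι → Ω → ℝ}
    (hR : 0 < R) (hR3 : 0 < R3) (hS : ∀ i, 0 < S i) (hr : r ≤ 2 * R) (hρ : r ≤ ρ) (hr2 : r2 ≤ 2 * R3)
    (hρ2 : r2 ≤ ρ2) (hz : ∀ i s, z i s = 0 ∨ z i s = 1) (h0 : 0 ≤ h') (hh : h ≤ h') (hrr : r2 ≤ r2') (hρρ : ρ2' ≤ ρ2)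
    (hr2' : r2' ≤ 2 * R3) (hρ2' : r2' ≤ ρ2') {Ψ Ψ' : X → ℝ}
    (l1 : Lm (Ω := fun _ => Ω) (U : Filter ι) P x ν (fun i s => qy R R3 a r ρ h r2 ρ2 (S i) (p i s) (z i s) (wd i s)) Ψ)
    (l2 : Lm (Ω := fun _ => Ω) (U : Filter ι) P x ν (fun i s => qy R R3 a r ρ h' r2' ρ2' (S i) (p i s) (z i s) (wd i s)) Ψ') :
    ∀ᵐ y ∂ν, h' < Ψ y → Ψ' y = Ψ y := by
  have h1 := LF.Lm.imp hC (κ := Fin 2) (p := fun i ω => ![qy R R3 a r ρ h r2 ρ2 (S i) (p i ω) (z i ω) (wd i ω),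
      qy R R3 a r ρ h' r2' ρ2' (S i) (p i ω) (z i ω) (wd i ω)]) (Φ := fun y => ![Ψ y, Ψ' y])
    (fun k => by fin_cases k <;> simpa) (F := fun y => y.2 0 - h') (G := fun y => |y.2 1 - y.2 0|)
    (by fun_prop) (by fun_prop) fun η hη ε hε => Eventually.of_forall fun i => ?_
  · filter_upwards [h1] with y hy h2
    have h4 : |Ψ' y - Ψ y| ≤ 0 := hy (show (0 : ℝ) < Ψ y - h' by linarith)
    exact sub_eq_zero.1 (abs_eq_zero.1 (le_antisymm h4 (abs_nonneg _)))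
  · have h2 : {ω : Ω | η < qy R R3 a r ρ h r2 ρ2 (S i) (p i ω) (z i ω) (wd i ω) - h' ∧
        η < |qy R R3 a r ρ h' r2' ρ2' (S i) (p i ω) (z i ω) (wd i ω) - qy R R3 a r ρ h r2 ρ2 (S i) (p i ω) (z i ω) (wd i ω)|} = ∅ := by
      refine eq_empty_of_forall_notMem fun ω hω => ?_
      obtain ⟨g1, g2⟩ := hω
      rw [qy_mono hR hR3 (hS i) hr hρ hr2 hρ2 (hz i ω) h0 hh hrr hρρ hr2' hρ2' (by linarith), sub_self, abs_zero] at g2
      linarith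
    refine le_trans (le_of_eq ?_) hε.le
    show (P i).real {ω : Ω | η < qy R R3 a r ρ h r2 ρ2 (S i) (p i ω) (z i ω) (wd i ω) - h' ∧
        η < |qy R R3 a r ρ h' r2' ρ2' (S i) (p i ω) (z i ω) (wd i ω) - qy R R3 a r ρ h r2 ρ2 (S i) (p i ω) (z i ω) (wd i ω)|} = 0
    rw [h2, measureReal_empty]

/-- a point of an interval off a countable set -/
lemma ex_off {E : Set ℝ} (hE : E.Countable) {u v : ℝ} (h : u < v) : ∃ y : ℝ, y ∉ E ∧ u < y ∧ y < v := by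
  by_contra hne
  push Not at hne
  have h1 : Ioo u v ⊆ E := fun y hy => by
    by_contra hc
    exact absurd hy.2 (not_lt.2 (hne y hc hy.1))
  exact absurd (Cardinal.Real.Ioo_countable_iff.1 (hE.mono h1)) (not_le.2 h)

lemma rT_mono {B : Box} {R t t' : ℝ} (hB : B.Ok R) (h : t ≤ t') : rT B t ≤ rT B t' := by
  have := hB.r
  unfold rT
  nlinarith

lemma pT_anti {B : Box} {R t t' : ℝ} (hB : B.Ok R) (h : t ≤ t') : pT B t' ≤ pT B t := by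
  have := hB.p'
  unfold pT
  nlinarith

/-- **the level of `y` over `c` has no atom at `m`**, for `m` off a countable set which does not depend on `h`, `t₃` -/
theorem no_atom (hC : Cv (Ω := fun _ => Ω) (U : Filter ι) P x ν) {R R3 a r ρ : ℝ} {p z : ι → Ω → ℝ}
    (hR : 0 < R) (hR3 : 0 < R3) (hS : ∀ i, 0 < S i) (hr : r ≤ 2 * R) (hρ : r ≤ ρ) (hz : ∀ i s, z i s = 0 ∨ z i s = 1)
    (h1 : Gt1 (U : Filter ι) P x nn wd S R a r ρ p z) {B3 : Box} (hB3 : B3.Ok R3)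
    {F : Set ℝ} (hF : F.Countable) (h3 : ∀ h : ℝ, h ∉ F → B3.a0 < h → ∃ F' : Set ℝ, F'.Countable ∧ ∀ t : ℝ, t ∉ F' → 0 < t → t < 1 →
      Gt2 (U : Filter ι) P x nn wd S R R3 a r ρ h (rT B3 t) (pT B3 t) p z) :
    ∃ Z : Set ℝ, Z.Countable ∧ ∀ m : ℝ, m ∉ Z → ∀ h t : ℝ, B3.a0 < h → h < m → 0 < t → t < 1 → ∀ Ψ : X → ℝ,
      Lm (Ω := fun _ => Ω) (U : Filter ι) P x ν
        (fun i s => qy R R3 a r ρ h (rT B3 t) (pT B3 t) (S i) (p i s) (z i s) (wd i s)) Ψ → ν {y | Ψ y = m} = 0 := by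
  have := hC.fin'
  have ha0 : 0 < B3.a0 := by
    have := hB3.a
    linarith
  obtain ⟨Gd, hGd⟩ : ∃ Gd : ℝ → ℝ → Prop, Gd = fun h t => 0 < h ∧ t < 1 ∧ ∃ Ψ : X → ℝ, Lm (Ω := fun _ => Ω) (U : Filter ι) P x ν
      (fun i s => qy R R3 a r ρ h (rT B3 t) (pT B3 t) (S i) (p i s) (z i s) (wd i s)) Ψ := ⟨_, rfl⟩
  have hex : ∀ u v s : ℝ, B3.a0 ≤ u → u < v → 0 ≤ s → s < 1 → ∃ h t : ℝ, Gd h t ∧ u < h ∧ h < v ∧ s < t := by
    intro u v s hu huv hs hs1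
    obtain ⟨h, g1, g2, g3⟩ := ex_off hF huv
    obtain ⟨F', hF', g4⟩ := h3 h g1 (by linarith)
    obtain ⟨t, g5, g6, g7⟩ := ex_off hF' hs1
    obtain ⟨Ψ, hΨ⟩ := ((g4 t g5 (by linarith) g7).lv.sub h1.lv).l1f.lim hC
    refine ⟨h, t, ?_, g2, g3, g6⟩
    rw [hGd]
    exact ⟨by linarith, g7, Ψ, hΨ⟩
  have key : ∀ j : ℚ × ℚ × ℚ, ∃ A : Set ℝ, A.Countable ∧ ((∃ h t : ℝ, Gd h t ∧ (j.1 : ℝ) < h ∧ h < (j.2.1 : ℝ) ∧ (j.2.2 : ℝ) < t) →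
      ∃ (h t : ℝ) (Ψ : X → ℝ), 0 < h ∧ t < 1 ∧ (j.1 : ℝ) < h ∧ h < (j.2.1 : ℝ) ∧ (j.2.2 : ℝ) < t ∧
        Lm (Ω := fun _ => Ω) (U : Filter ι) P x ν
          (fun i s => qy R R3 a r ρ h (rT B3 t) (pT B3 t) (S i) (p i s) (z i s) (wd i s)) Ψ ∧
        ∀ m : ℝ, m ∉ A → ν {y | Ψ y = m} = 0) := by
    intro j
    by_cases hj : ∃ h t : ℝ, Gd h t ∧ (j.1 : ℝ) < h ∧ h < (j.2.1 : ℝ) ∧ (j.2.2 : ℝ) < t
    · obtain ⟨h, t, g1, g2, g3, g4⟩ := hj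
      rw [hGd] at g1
      obtain ⟨g5, g6, Ψ, hΨ⟩ := g1
      refine ⟨{m : ℝ | ν {y | Ψ y = m} ≠ 0}, LF.countable_levels hC.fin' hΨ.ms', fun _ => ⟨h, t, Ψ, g5, g6, g2, g3, g4, hΨ, fun m hm => ?_⟩⟩
      by_contra hc
      exact hm hc
    · exact ⟨∅, countable_empty, fun h => absurd h hj⟩
  choose A hA1 hA2 using key
  refine ⟨⋃ j, A j, countable_iUnion hA1, fun m hm h t g1 g2 g3 g4 Ψ hΨ => ?_⟩
  obtain ⟨u, hu1, hu2⟩ := exists_rat_btwn g2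
  obtain ⟨v, hv1, hv2⟩ := exists_rat_btwn hu2
  obtain ⟨s, hs1, hs2⟩ := exists_rat_btwn g4
  obtain ⟨h', t', Ψ', k1, k2, k3, k4, k5, k6, k7⟩ := hA2 (u, v, s) (hex u v s (by linarith) hv1 (by linarith) hs2)
  have k3' : (u : ℝ) < h' := k3
  have k4' : h' < (v : ℝ) := k4
  have k5' : (s : ℝ) < t' := k5
  obtain ⟨b1, b2⟩ := box_rT hR3.le hB3 g4.le
  obtain ⟨b3, b4⟩ := box_rT hR3.le hB3 k2.le
  have k8 := qy_rel hC hR hR3 hS hr hρ b1 b2 hz k1.le (by linarith) (rT_mono hB3 (by linarith)) (pT_anti hB3 (by linarith)) b3 b4 hΨ k6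
  have k9 := k7 m fun hc => hm (mem_iUnion.2 ⟨_, hc⟩)
  refine measure_mono_null_ae ?_ k9
  filter_upwards [k8] with y hy h5
  have h6 : Ψ y = m := h5
  show Ψ' y = m
  rw [hy (by rw [h6]; linarith), h6]

/-- **the level of `y` over `c` has no atom at `m`** -/
def NoAt (U : Filter ι) (P : ι → Measure Ω) (x : ι → Ω → X) (ν : Measure X) (nn : ι → Ω → ℕ)
    (wd : ∀ (i : ι) (s : Ω), Fin (nn i s) → Fin 3) (S : ι → ℝ) (p z : ι → Ω → ℝ) (R R3 a r ρ m h r2 ρ2 : ℝ) : Prop :=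
  ∀ Ψ : X → ℝ, Lm (Ω := fun _ => Ω) U P x ν
    (fun i s => qy R R3 a r ρ h r2 ρ2 (S i) (p i s) (z i s) (wd i s)) Ψ → ν {y | Ψ y = m} = 0

/-- **the level `a` is good**: marks of the gates at `a` and over them, for all generic later parameters, in the order
`t, m, t₂, h, t₃` -/
def LvG (U : Ultrafilter ι) (P : ι → Measure Ω) (x : ι → Ω → X) (ν : Measure X) (nn : ι → Ω → ℕ)
    (wd : ∀ (i : ι) (s : Ω), Fin (nn i s) → Fin 3) (S : ι → ℝ) (R R2 R3 : ℝ) (p z : ι → Ω → ℝ) (a : ℝ) : Prop :=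
  ∀ B : Box, B.Ok R → B.a0 < a → ∃ E' : Set ℝ, E'.Countable ∧
    ∀ t : ℝ, t ∉ E' → 0 < t → t < 1 → Gt1 (U : Filter ι) P x nn wd S R a (rT B t) (pT B t) p z ∧
      ∀ B3 : Box, B3.Ok R3 → ∃ F : Set ℝ, F.Countable ∧ ∀ m : ℝ, m ∉ F → ∀ B2 : Box, B2.Ok R2 → B2.a0 < m →
        ∃ F' : Set ℝ, F'.Countable ∧ ∀ t2 : ℝ, t2 ∉ F' → 0 < t2 → t2 < 1 →
          Gt2 (U : Filter ι) P x nn wd S R R2 a (rT B t) (pT B t) m (rT B2 t2) (pT B2 t2) p z ∧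
          ∃ G : Set ℝ, G.Countable ∧ ∀ h : ℝ, h ∉ G → B3.a0 < h → h < m → ∃ G' : Set ℝ, G'.Countable ∧
            ∀ t3 : ℝ, t3 ∉ G' → 0 < t3 → t3 < 1 →
              Gt2 (U : Filter ι) P x nn wd S R R3 a (rT B t) (pT B t) h (rT B3 t3) (pT B3 t3) p z ∧
              NoAt (U : Filter ι) P x ν nn wd S p z R R3 a (rT B t) (pT B t) m h (rT B3 t3) (pT B3 t3) ∧
              ∃ (𝒜 : Set X) (Pc Pg : X → ℝ), T3L (U : Filter ι) P x ν nn wd S p z a (rT B t) (pT B t) m (rT B2 t2) (pT B2 t2)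
                h (rT B3 t3) (pT B3 t3) 𝒜 Pc Pg

/-- **all but countably many levels are good** -/
theorem t3_lvg {R R2 R3 : ℝ} (hR : 0 < R) (hR2 : 0 < R2) (hR3 : 0 < R3) (hM : Mb (U : Filter ι) P)
    (hW : WSys (U : Filter ι) P nn wd S) (hS : Tendsto S (U : Filter ι) atTop) {z : ι → Ω → ℝ} (hz : ∀ i s, z i s = 0 ∨ z i s = 1)
    (hzl : L1A (U : Filter ι) P x z) (hG : GrdA (U : Filter ι) P x nn wd S R z) (hG2 : GrdA (U : Filter ι) P x nn wd S R2 z)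
    (hG3 : GrdA (U : Filter ι) P x nn wd S R3 z) (hC : Cv (Ω := fun _ => Ω) (U : Filter ι) P x ν)
    {p : ι → Ω → ℝ} (hp : L1A (U : Filter ι) P x p) (p0 : ∀ i s, 0 ≤ p i s) :
    ∃ E : Set ℝ, E.Countable ∧ ∀ a : ℝ, a ∉ E → LvG U P x ν nn wd S R R2 R3 p z a := by
  obtain ⟨E1, hE1, g1⟩ := gateM hR hR2 hM hW hS hz hzl hG hG2 hp p0
  obtain ⟨E2, hE2, g2⟩ := gateM hR hR3 hM hW hS hz hzl hG hG3 hp p0
  refine ⟨E1 ∪ E2, hE1.union hE2, fun a ha B hB haB => ?_⟩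
  obtain ⟨E1', hE1', g3⟩ := g1 a (fun h => ha (Or.inl h)) B hB haB
  obtain ⟨E2', hE2', g4⟩ := g2 a (fun h => ha (Or.inr h)) B hB haB
  refine ⟨E1' ∪ E2', hE1'.union hE2', fun t ht t0 t1 => ?_⟩
  obtain ⟨g5, F1, hF1, g6⟩ := g3 t (fun h => ht (Or.inl h)) t0 t1
  obtain ⟨-, F2, hF2, g7⟩ := g4 t (fun h => ht (Or.inr h)) t0 t1
  obtain ⟨r1, r2⟩ := box_rT hR.le hB t1.le
  refine ⟨g5, fun B3 hB3 => ?_⟩
  obtain ⟨Z, hZ, g8⟩ := no_atom hC hR hR3 hW.pos r1 r2 hz g5 hB3 hF2 fun h hh h0 => g7 h hh B3 hB3 h0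
  refine ⟨F1 ∪ Z, hF1.union hZ, fun m hm B2 hB2 hmB => ?_⟩
  obtain ⟨F1', hF1', g9⟩ := g6 m (fun h => hm (Or.inl h)) B2 hB2 hmB
  refine ⟨F1', hF1', fun t2 ht2 t20 t21 => ?_⟩
  have g10 := g9 t2 ht2 t20 t21
  refine ⟨g10, F2, hF2, fun h hh hB3h hhm => ?_⟩
  obtain ⟨G', hG', g11⟩ := g7 h hh B3 hB3 hB3h
  refine ⟨G', hG', fun t3 ht3 t30 t31 => ?_⟩
  have g12 := g11 t3 ht3 t30 t31
  obtain ⟨b1, b2⟩ := box_rT hR3.le hB3 t31.le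
  have g13 : NoAt (U : Filter ι) P x ν nn wd S p z R R3 a (rT B t) (pT B t) m h (rT B3 t3) (pT B3 t3) :=
    fun Ψ hΨ => g8 m (fun h => hm (Or.inr h)) h t3 hB3h hhm t30 t31 Ψ hΨ
  exact ⟨g12, g13, t3_lim hC hR hR3 hW.pos r1 r2 (box_rT hR2.le hB2 t21.le).2 b1 b2 hz g5 g10 g12 g13⟩

/-- **the three gates of a strand in the limit, for generic parameters** -/
theorem t3_gen {R R2 R3 : ℝ} (hR : 0 < R) (hR2 : 0 < R2) (hR3 : 0 < R3) (hM : Mb (U : Filter ι) P)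
    (hW : WSys (U : Filter ι) P nn wd S) (hS : Tendsto S (U : Filter ι) atTop) {z : ι → Ω → ℝ} (hz : ∀ i s, z i s = 0 ∨ z i s = 1)
    (hzl : L1A (U : Filter ι) P x z) (hG : GrdA (U : Filter ι) P x nn wd S R z) (hG2 : GrdA (U : Filter ι) P x nn wd S R2 z)
    (hG3 : GrdA (U : Filter ι) P x nn wd S R3 z) (hC : Cv (Ω := fun _ => Ω) (U : Filter ι) P x ν)
    {p : ι → Ω → ℝ} (hp : L1A (U : Filter ι) P x p) (p0 : ∀ i s, 0 ≤ p i s) :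
    ∃ E : Set ℝ, E.Countable ∧ ∀ a : ℝ, a ∉ E → ∀ B : Box, B.Ok R → B.a0 < a → ∃ E' : Set ℝ, E'.Countable ∧
      ∀ t : ℝ, t ∉ E' → 0 < t → t < 1 → Gt1 (U : Filter ι) P x nn wd S R a (rT B t) (pT B t) p z ∧
        ∀ B3 : Box, B3.Ok R3 → ∃ F : Set ℝ, F.Countable ∧ ∀ m : ℝ, m ∉ F → ∀ B2 : Box, B2.Ok R2 → B2.a0 < m →
          ∃ F' : Set ℝ, F'.Countable ∧ ∀ t2 : ℝ, t2 ∉ F' → 0 < t2 → t2 < 1 →
            Gt2 (U : Filter ι) P x nn wd S R R2 a (rT B t) (pT B t) m (rT B2 t2) (pT B2 t2) p z ∧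
            ∃ G : Set ℝ, G.Countable ∧ ∀ h : ℝ, h ∉ G → B3.a0 < h → h < m → ∃ G' : Set ℝ, G'.Countable ∧
              ∀ t3 : ℝ, t3 ∉ G' → 0 < t3 → t3 < 1 →
                Gt2 (U : Filter ι) P x nn wd S R R3 a (rT B t) (pT B t) h (rT B3 t3) (pT B3 t3) p z ∧
                ∃ (𝒜 : Set X) (Pc Pg : X → ℝ), T3L (U : Filter ι) P x ν nn wd S p z a (rT B t) (pT B t) m (rT B2 t2) (pT B2 t2)
                  h (rT B3 t3) (pT B3 t3) 𝒜 Pc Pg := by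
  obtain ⟨E, hE, g⟩ := t3_lvg hR hR2 hR3 hM hW hS hz hzl hG hG2 hG3 hC hp p0
  refine ⟨E, hE, fun a ha B hB haB => ?_⟩
  obtain ⟨E', hE', g1⟩ := g a ha B hB haB
  refine ⟨E', hE', fun t ht t0 t1 => ⟨(g1 t ht t0 t1).1, fun B3 hB3 => ?_⟩⟩
  obtain ⟨F, hF, g2⟩ := (g1 t ht t0 t1).2 B3 hB3
  refine ⟨F, hF, fun m hm B2 hB2 hmB => ?_⟩
  obtain ⟨F', hF', g3⟩ := g2 m hm B2 hB2 hmB
  refine ⟨F', hF', fun t2 ht2 t20 t21 => ⟨(g3 t2 ht2 t20 t21).1, ?_⟩⟩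
  obtain ⟨G, hG, g4⟩ := (g3 t2 ht2 t20 t21).2
  refine ⟨G, hG, fun h hh h0 h1 => ?_⟩
  obtain ⟨G', hG', g5⟩ := g4 h hh h0 h1
  exact ⟨G', hG', fun t3 ht3 t30 t31 => ⟨(g5 t3 ht3 t30 t31).1, (g5 t3 ht3 t30 t31).2.2⟩⟩

end sys

end Pool.Agent.ROT.F3
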