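import Pool.Agent.ROT.F3K2E
import Pool.Agent.ROT.F3K3S
import Pool.Agent.ROT.F3GtC

/-!
# ROT, F3, K2 (helper59): the gates of the four strands in the limit

* **`ain_sg`** : helper4's `AIn` for the gates of helper61 (`sgE`, `sgc`, `sgx`) over any bases, from `T3L` of the strands (one strand:
  F3AI1);
* `SLv` : good levels, `slv_ex`; **`strand_lv`** : a countable family of strands, bases and good levels `a j`, the same other parameters;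
* **`strand_gen`** : `T3L` for a countable family of strands and bases with the same auxiliary radii, for generic
  `l, m, rg, h = th m`.
-/

set_option autoImplicit false
set_option linter.unusedSectionVars false

open Filter MeasureTheory Topology Set

open scoped NNReal ENNReal BoundedContinuousFunction

namespace Pool.Agent.ROT.F3

open Pool.Agent.NTS.Res (step pos saw fug size curve)
open Pool.Agent.ROT.F (QB)
open Pool.Agent.CRT (CI)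
open Pool.Agent.SCF.M Pool.Agent.SCF.Z
open LF (Cv Lm Ev bi bi_pos bi_neg bi_and)
open CK (AIn Spt ev_spt lm_spt)

lemma sgt_t3 {G : GP} {p S : ℝ} {n : ℕ} {s : Fin n → Fin 3} {c x y : ℕ} :
    SGt G p S s c x y ↔ T3 s S p G.l G.r1 G.ρ1 G.m G.r1' G.ρ' G.h G.r1'' G.ρ'' c x y :=
  ⟨fun h => ⟨h.gx, h.gy, h.lt⟩, fun h => ⟨h.gx, h.gy, h.lt⟩⟩

lemma sgE_t3 {G : GP} {T : LSym} {p S : ℝ} {k : Arm} {x : W3 × ℕ} :
    sgE G T p S k x ↔ ∃ c x' y : ℕ, T3 (aW k T x).get S p G.l G.r1 G.ρ1 G.m G.r1' G.ρ' G.h G.r1'' G.ρ'' c x' y := by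
  constructor
  · rintro ⟨q, hq⟩
    exact ⟨q.1, q.2.1, q.2.2, sgt_t3.1 hq⟩
  · rintro ⟨c, x', y, h⟩
    exact ⟨(c, x', y), sgt_t3.2 h⟩

lemma aW_len (k : Arm) (T : LSym) (x : W3 × ℕ) : (aW k T x).length = (arcw x.2 k x.1).length := by
  rw [aW_eq, mp_length]

lemma sg_lt {G : GP} {T : LSym} {p S : ℝ} {k : Arm} {x : W3 × ℕ} (h : sgE G T p S k x) :
    sgc G T p S k x < (arcw x.2 k x.1).length ∧ sgx G T p S k x < (arcw x.2 k x.1).length := by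
  obtain ⟨y, hy⟩ := sg_spec h
  rw [← aW_len k T x]
  exact ⟨hy.gx.1.2.1, hy.gx.2.2.1⟩

lemma sg_even {G : GP} {T : LSym} {p S : ℝ} {k : Arm} {x : W3 × ℕ} (h : sgE G T p S k x) :
    Even (sgc G T p S k x) ∧ Even (sgx G T p S k x) := by
  obtain ⟨y, hy⟩ := sg_spec h
  exact ⟨hy.gx.1.1.1, hy.gx.2.1.1⟩

lemma sg_le {G : GP} {T : LSym} {p S : ℝ} {k : Arm} {x : W3 × ℕ} (hm : 0 < G.m) (hS : 0 < S) (h : sgE G T p S k x) :
    sgc G T p S k x ≤ sgx G T p S k x := by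
  obtain ⟨y, hy⟩ := sg_spec h
  by_contra hc
  have h1 := hy.gx.1.1.2.1 _ (not_le.1 hc).le
  have h2 : G.m * S + (pos (arcw x.2 k (mp T x.1)).get (sgc G T p S k x)).re ≤
      (pos (arcw x.2 k (mp T x.1)).get (sgx G T p S k x)).re := hy.gx.2.1.2.2.2.1
  have h3 := mul_pos hm hS
  linarith

lemma zN_iff {c : ℝ} {N : ℕ} {x : W3 × ℕ} : zN c N x = 1 ↔ c < dst N x := by
  unfold zN
  split_ifs with h
  · simp [h]
  · simp [h]

lemma tm_le1 {A : Prop} {a n : ℕ} (h : A → a < n) : |bi A * ((a : ℝ) / n)| ≤ 1 := by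
  by_cases hA : A
  · have h1 := h hA
    have hn : (0 : ℝ) < n := by exact_mod_cast (by omega : 0 < n)
    rw [bi_pos hA, one_mul, abs_of_nonneg (by positivity), div_le_one hn]
    exact_mod_cast h1.le
  · rw [bi_neg hA, zero_mul, abs_zero]
    exact zero_le_one

/-- **the gates of the four strands** -/
theorem ain_sg {U : Ultrafilter ℕ} {b : ℝ} {PG : Measure CC.Gm} (hC : Cv (U : Filter ℕ) (fun N => mwE N b) cN PG)
    {S : ℕ → ℝ} (hS0 : ∀ N, 0 < S N) (hS : ∀ᶠ N : ℕ in U, S N = N) {G : Arm → GP} {T : Arm → LSym}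
    {y : Arm → ℕ → W3 × ℕ → ℝ} {c0 : ℝ} {B : Arm → Set CC.Gm} {Pc Pg : Arm → CC.Gm → ℝ} (hm : ∀ k, 0 < (G k).m)
    (h : ∀ k, T3L (U : Filter ℕ) (fun N => mwE N b) cN PG (fun _ x => (aW k (T k) x).length) (fun _ x => (aW k (T k) x).get) S
      (y k) (zN c0) (G k).l (G k).r1 (G k).ρ1 (G k).m (G k).r1' (G k).ρ' (G k).h (G k).r1'' (G k).ρ'' (B k) (Pc k) (Pg k)) :
    AIn (U : Filter ℕ) b PG (fun k N x => c0 < dst N x ∧ sgE (G k) (T k) (y k N x) N k x)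
      (fun k N x => sgc (G k) (T k) (y k N x) N k x) (fun k N x => sgx (G k) (T k) (y k N x) N k x) B Pc Pg := by
  have eA : ∀ k, ∀ᶠ N in (U : Filter ℕ), ∀ x, Spt x → (c0 < dst N x ∧ sgE (G k) (T k) (y k N x) N k x ↔
      zN c0 N x = 1 ∧ ∃ c x' z : ℕ, T3 (aW k (T k) x).get (S N) (y k N x) (G k).l (G k).r1 (G k).ρ1 (G k).m (G k).r1' (G k).ρ'
        (G k).h (G k).r1'' (G k).ρ'' c x' z) := by
    intro k
    filter_upwards [hS] with N hN x _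
    rw [zN_iff, hN, sgE_t3]
  have eT := fun k => (h k).tm (fun N x => sgc (G k) (T k) (y k N x) (S N) k x) (fun N x => sgx (G k) (T k) (y k N x) (S N) k x)
    fun N x _ hex => by
      obtain ⟨z, hz⟩ := sg_spec (sgE_t3.2 hex)
      exact ⟨z, sgt_t3.1 hz⟩
  refine ⟨fun k => ev_spt hC (h k).ev (eA k), fun k => ?_, fun k => ?_, ?_⟩
  · refine lm_spt hC (eT k).1 ⟨1, fun N x => tm_le1 fun hA => (sg_lt hA.2).1⟩ ?_
    filter_upwards [hS, eA k] with N hN hA x hx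
    rw [LF.bi_congr (hA x hx)]
    congr 1
    rw [hN, aW_len]
  · refine lm_spt hC (eT k).2 ⟨1, fun N x => tm_le1 fun hA => (sg_lt hA.2).2⟩ ?_
    filter_upwards [hS, eA k] with N hN hA x hx
    rw [LF.bi_congr (hA x hx)]
    congr 1
    rw [hN, aW_len]
  · filter_upwards [hS] with N hN x _ k hA
    have hN0 : (0 : ℝ) < N := by
      rw [← hN]
      exact hS0 N
    exact ⟨(sg_even hA.2).1, (sg_even hA.2).2, sg_le (hm k) hN0 hA.2, (sg_lt hA.2).2.le⟩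

/-! ### generic parameters -/

/-- the record of the gates: `l`, `m`, `rg`, `h` and the auxiliary radii from the boxes -/
noncomputable def mkG (Bc Bx By : Pool.Agent.SCF.M.Box) (l t m rg h t3 : ℝ) : GP where
  l := l
  r1 := rT Bc t
  ρ1 := pT Bc t
  m := m
  r1' := rT Bx ((Bx.p1 - rg) / (Bx.p1 - Bx.p0))
  ρ' := rg
  h := h
  r1'' := rT By t3
  ρ'' := pT By t3

lemma pT_inv {B : Pool.Agent.SCF.M.Box} {R : ℝ} (hB : B.Ok R) (rg : ℝ) : pT B ((B.p1 - rg) / (B.p1 - B.p0)) = rg := by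
  have h := sub_pos.2 hB.p'
  unfold pT
  rw [div_mul_cancel₀ _ h.ne']
  ring

lemma zN_01 {c0 : ℝ} (N : ℕ) (x : W3 × ℕ) : zN c0 N x = 0 ∨ zN c0 N x = 1 := by
  unfold zN
  split_ifs
  · exact Or.inr rfl
  · exact Or.inl rfl

/-- the level `a` is good for the strand `k` in the frame `T` over the base `y` -/
def SLv (U : Ultrafilter ℕ) (b : ℝ) (PG : Measure CC.Gm) (S : ℕ → ℝ) (c0 R R2 R3 : ℝ) (k : Arm) (T : LSym)
    (y : ℕ → W3 × ℕ → ℝ) (a : ℝ) : Prop :=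
  LvG U (fun N => mwE N b) cN PG (fun _ x => (aW k T x).length) (fun _ x => (aW k T x).get) S R R2 R3 y (zN c0) a

/-- **all but countably many levels are good** -/
theorem slv_ex {U : Ultrafilter ℕ} {b : ℝ} {PG : Measure CC.Gm} (hC : Cv (U : Filter ℕ) (fun N => mwE N b) cN PG)
    {S : ℕ → ℝ} {c0 R R2 R3 : ℝ} (hR : 0 < R) (hR2 : 0 < R2) (hR3 : 0 < R3) {k : Arm} {T : LSym} {y : ℕ → W3 × ℕ → ℝ}
    (hA : ArcS U b k T S R c0) (hA2 : ArcS U b k T S R2 c0) (hA3 : ArcS U b k T S R3 c0)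
    (hy : L1A (U : Filter ℕ) (fun N => mwE N b) cN y) (y0 : ∀ N x, 0 ≤ y N x) :
    ∃ E : Set ℝ, E.Countable ∧ ∀ a : ℝ, a ∉ E → SLv U b PG S c0 R R2 R3 k T y a :=
  t3_lvg hR hR2 hR3 hA.mb hA.ws hA.tS zN_01 hA.zl hA.gr hA2.gr hA3.gr hC hy y0

/-- **generic parameters of a countable family of strands and bases at good levels `a j`** -/
theorem strand_lv {U : Ultrafilter ℕ} {b : ℝ} {PG : Measure CC.Gm} {S : ℕ → ℝ} {c0 R R2 R3 : ℝ}
    {J : Type*} [Countable J] {k : J → Arm} {T : J → LSym} {y : J → ℕ → W3 × ℕ → ℝ} {Bc Bx By : Pool.Agent.SCF.M.Box} (hBc : Bc.Ok R)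
    (hBx : Bx.Ok R2) (hBy : By.Ok R3) {a : J → ℝ} (ha : ∀ j, SLv U b PG S c0 R R2 R3 (k j) (T j) (y j) (a j)) (ha0 : ∀ j, Bc.a0 < a j) :
    ∃ t : ℝ, 0 < t ∧ t < 1 ∧
      (∀ j, Gt1 (U : Filter ℕ) (fun N => mwE N b) cN (fun _ x => (aW (k j) (T j) x).length) (fun _ x => (aW (k j) (T j) x).get) S R
        (a j) (rT Bc t) (pT Bc t) (y j) (zN c0)) ∧
      ∃ F : Set ℝ, F.Countable ∧ ∀ m : ℝ, m ∉ F → Bx.a0 < m → ∃ F' : Set ℝ, F'.Countable ∧
        ∀ rg : ℝ, rg ∉ F' → Bx.p0 < rg → rg < Bx.p1 →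
          (∀ j, Gt2 (U : Filter ℕ) (fun N => mwE N b) cN (fun _ x => (aW (k j) (T j) x).length)
            (fun _ x => (aW (k j) (T j) x).get) S R R2 (a j) (rT Bc t) (pT Bc t) m (rT Bx ((Bx.p1 - rg) / (Bx.p1 - Bx.p0))) rg
              (y j) (zN c0)) ∧
          ∃ H : Set ℝ, H.Countable ∧ ∀ h : ℝ, h ∉ H → By.a0 < h → h < m → ∃ t3 : ℝ, 0 < t3 ∧ t3 < 1 ∧ ∀ j,
            Gt2 (U : Filter ℕ) (fun N => mwE N b) cN (fun _ x => (aW (k j) (T j) x).length)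
              (fun _ x => (aW (k j) (T j) x).get) S R R3 (a j) (rT Bc t) (pT Bc t) h (rT By t3) (pT By t3) (y j) (zN c0) ∧
            NoAt (U : Filter ℕ) (fun N => mwE N b) cN PG (fun _ x => (aW (k j) (T j) x).length)
              (fun _ x => (aW (k j) (T j) x).get) S (y j) (zN c0) R R3 (a j) (rT Bc t) (pT Bc t) m h (rT By t3) (pT By t3) ∧
            ∃ (𝒜 : Set CC.Gm) (Pc Pg : CC.Gm → ℝ), T3L (U : Filter ℕ) (fun N => mwE N b) cN PG
              (fun _ x => (aW (k j) (T j) x).length) (fun _ x => (aW (k j) (T j) x).get) S (y j) (zN c0)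
              (a j) (rT Bc t) (pT Bc t) m (rT Bx ((Bx.p1 - rg) / (Bx.p1 - Bx.p0))) rg h (rT By t3) (pT By t3) 𝒜 Pc Pg := by
  choose E' hE' g2 using fun j => ha j Bc hBc (ha0 j)
  obtain ⟨t, ht, t0, t1⟩ := ex_off (countable_iUnion hE') zero_lt_one
  choose g3 g4 using fun j => g2 j t (fun h => ht (mem_iUnion.2 ⟨j, h⟩)) t0 t1
  choose F hF g5 using fun j => g4 j By hBy
  refine ⟨t, t0, t1, g3, ⋃ j, F j, countable_iUnion hF, fun m hm hmB => ?_⟩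
  choose F' hF' g6 using fun j => g5 j m (fun h => hm (mem_iUnion.2 ⟨j, h⟩)) Bx hBx hmB
  have hd := sub_pos.2 hBx.p'
  refine ⟨(fun rg => (Bx.p1 - rg) / (Bx.p1 - Bx.p0)) ⁻¹' ⋃ j, F' j, (countable_iUnion hF').preimage_of_injOn ?_, fun rg hrg h0 h1 => ?_⟩
  · intro u _ v _ huv
    have h2 : (Bx.p1 - u) / (Bx.p1 - Bx.p0) = (Bx.p1 - v) / (Bx.p1 - Bx.p0) := huv
    rw [div_left_inj' hd.ne'] at h2
    linarith
  obtain ⟨t2, ht2⟩ : ∃ t2, t2 = (Bx.p1 - rg) / (Bx.p1 - Bx.p0) := ⟨_, rfl⟩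
  have ht2' : t2 ∉ ⋃ j, F' j := by
    rw [ht2]
    exact hrg
  have t20 : 0 < t2 := by
    rw [ht2]
    exact div_pos (by linarith) hd
  have t21 : t2 < 1 := by
    rw [ht2, div_lt_one hd]
    linarith
  have e2 : pT Bx t2 = rg := by
    rw [ht2]
    exact pT_inv hBx rg
  choose g7 H hH g8 using fun j => g6 j t2 (fun h => ht2' (mem_iUnion.2 ⟨j, h⟩)) t20 t21
  refine ⟨fun j => ?_, ⋃ j, H j, countable_iUnion hH, fun h hh hh0 hhm => ?_⟩
  · have := g7 j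
    rw [e2] at this
    rw [← ht2]
    exact this
  choose H' hH' g9 using fun j => g8 j h (fun h' => hh (mem_iUnion.2 ⟨j, h'⟩)) hh0 hhm
  obtain ⟨t3, ht3, t30, t31⟩ := ex_off (countable_iUnion hH') zero_lt_one
  refine ⟨t3, t30, t31, fun j => ?_⟩
  have g10 := g9 j t3 (fun h => ht3 (mem_iUnion.2 ⟨j, h⟩)) t30 t31
  rw [e2] at g10
  rw [← ht2]
  exact g10

/-- **generic parameters of a countable family of strands and bases** -/
theorem strand_gen {U : Ultrafilter ℕ} {b : ℝ} {PG : Measure CC.Gm} (hC : Cv (U : Filter ℕ) (fun N => mwE N b) cN PG)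
    {S : ℕ → ℝ} {c0 R R2 R3 : ℝ} (hR : 0 < R) (hR2 : 0 < R2) (hR3 : 0 < R3)
    {J : Type*} [Countable J] {k : J → Arm} {T : J → LSym} {y : J → ℕ → W3 × ℕ → ℝ}
    (hA : ∀ j, ArcS U b (k j) (T j) S R c0) (hA2 : ∀ j, ArcS U b (k j) (T j) S R2 c0) (hA3 : ∀ j, ArcS U b (k j) (T j) S R3 c0)
    (hy : ∀ j, L1A (U : Filter ℕ) (fun N => mwE N b) cN (y j)) (y0 : ∀ j N x, 0 ≤ y j N x) {Bc Bx By : Pool.Agent.SCF.M.Box} (hBc : Bc.Ok R)
    (hBx : Bx.Ok R2) (hBy : By.Ok R3) :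
    ∃ E : Set ℝ, E.Countable ∧ ∀ l : ℝ, l ∉ E → Bc.a0 < l → ∃ t : ℝ, 0 < t ∧ t < 1 ∧
      (∀ j, Gt1 (U : Filter ℕ) (fun N => mwE N b) cN (fun _ x => (aW (k j) (T j) x).length) (fun _ x => (aW (k j) (T j) x).get) S R
        l (rT Bc t) (pT Bc t) (y j) (zN c0)) ∧
      ∃ F : Set ℝ, F.Countable ∧ ∀ m : ℝ, m ∉ F → Bx.a0 < m → ∃ F' : Set ℝ, F'.Countable ∧
        ∀ rg : ℝ, rg ∉ F' → Bx.p0 < rg → rg < Bx.p1 →
          (∀ j, Gt2 (U : Filter ℕ) (fun N => mwE N b) cN (fun _ x => (aW (k j) (T j) x).length)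
            (fun _ x => (aW (k j) (T j) x).get) S R R2 l (rT Bc t) (pT Bc t) m (rT Bx ((Bx.p1 - rg) / (Bx.p1 - Bx.p0))) rg
              (y j) (zN c0)) ∧
          ∃ H : Set ℝ, H.Countable ∧ ∀ h : ℝ, h ∉ H → By.a0 < h → h < m → ∃ t3 : ℝ, 0 < t3 ∧ t3 < 1 ∧ ∀ j,
            Gt2 (U : Filter ℕ) (fun N => mwE N b) cN (fun _ x => (aW (k j) (T j) x).length)
              (fun _ x => (aW (k j) (T j) x).get) S R R3 l (rT Bc t) (pT Bc t) h (rT By t3) (pT By t3) (y j) (zN c0) ∧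
            ∃ (𝒜 : Set CC.Gm) (Pc Pg : CC.Gm → ℝ), T3L (U : Filter ℕ) (fun N => mwE N b) cN PG
              (fun _ x => (aW (k j) (T j) x).length) (fun _ x => (aW (k j) (T j) x).get) S (y j) (zN c0)
              (mkG Bc Bx By l t m rg h t3).l (mkG Bc Bx By l t m rg h t3).r1 (mkG Bc Bx By l t m rg h t3).ρ1
              (mkG Bc Bx By l t m rg h t3).m (mkG Bc Bx By l t m rg h t3).r1' (mkG Bc Bx By l t m rg h t3).ρ'
              (mkG Bc Bx By l t m rg h t3).h (mkG Bc Bx By l t m rg h t3).r1'' (mkG Bc Bx By l t m rg h t3).ρ'' 𝒜 Pc Pg := by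
  choose E hE g1 using fun j => slv_ex (S := S) hC hR hR2 hR3 (hA j) (hA2 j) (hA3 j) (hy j) (y0 j)
  refine ⟨⋃ j, E j, countable_iUnion hE, fun l hl hlB => ?_⟩
  obtain ⟨t, t0, t1, g2, F, hF, g3⟩ := strand_lv hBc hBx hBy (a := fun _ => l) (fun j => g1 j l fun h => hl (mem_iUnion.2 ⟨j, h⟩))
    fun _ => hlB
  refine ⟨t, t0, t1, g2, F, hF, fun m hm hmB => ?_⟩
  obtain ⟨F', hF', g4⟩ := g3 m hm hmB
  refine ⟨F', hF', fun rg hrg h0 h1 => ?_⟩
  obtain ⟨g5, H, hH, g6⟩ := g4 rg hrg h0 h1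
  refine ⟨g5, H, hH, fun h hh hh0 hhm => ?_⟩
  obtain ⟨t3, t30, t31, g7⟩ := g6 h hh hh0 hhm
  exact ⟨t3, t30, t31, fun j => ⟨(g7 j).1, (g7 j).2.2⟩⟩

end Pool.Agent.ROT.F3
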