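import Pool.Agent.ROT.F3K2A

/-!
# ROT, F3, K2 (helper16): the gate over a macroscopic base lies below the level `m`

* `tp_up` : a gate at the threshold `a` of level at least `u` is the gate at the threshold `u`;
* **`gate_lt`** : the indicator of `the gate over the base p exists and its level over the base is < m` is macroscopic for all but
  countably many `m`, which do not depend on the threshold `a < m` and on the radii (no atom at `m`).
-/

set_option autoImplicit false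

open Filter MeasureTheory Topology Set

open scoped NNReal BoundedContinuousFunction

namespace Pool.Agent.ROT.F3

open Pool.Agent.NTS.Res (step pos saw fug size curve)
open Pool.Agent.CRT (CI)
open Pool.Agent.SCF.M Pool.Agent.SCF.Z

/-- a gate at the threshold `a` of level at least `u` is the gate at the threshold `u` -/
lemma tp_up {n : ℕ} {s : Fin n → Fin 3} {b a u r ρ r' ρ' S : ℝ} {k : ℕ} (hS : 0 ≤ S) (hau : a ≤ u)
    (h : TP (Dv s b) (a * S) r ρ s k) (hu : u * S + b ≤ (pos s k).re) (hr : r ≤ r') (hρ : ρ' ≤ ρ) :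
    TP (Dv s b) (u * S) r' ρ' s k := by
  refine tp_mono ⟨⟨h.1.1, h.1.2.1, h.1.2.2.1, hu, fun k' hk' hc => h.1.2.2.2.2 k' hk' ?_⟩, h.2⟩ hr hρ
  have h1 : u * S + b ≤ (pos s k').re := hc
  show a * S + b ≤ (pos s k').re
  have := mul_le_mul_of_nonneg_right hau hS
  linarith

open Classical in
/-- the indicator through the levels -/
lemma lt_id {n : ℕ} {s : Fin n → Fin 3} {R p a u m r ρ r' ρ' S z : ℝ} {τ : ℝ → ℝ} (hR : 0 < R) (hS : 0 < S) (hau : a ≤ u)
    (hum : u < m) (hr : r ≤ r') (hρ : ρ' ≤ ρ) (hr2 : r' ≤ 2 * R) (hrρ : r' ≤ ρ') (hz : z = 0 ∨ z = 1)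
    (τ1 : ∀ y, y ≤ u → τ y = 1) (τ0 : ∀ y, m ≤ y → τ y = 0) :
    (if ∃ k, TP (Dv s (p * S)) (a * S) (r * S) (ρ * S) s k ∧ (pos s k).re < (p + m) * S then (1 : ℝ) else 0) * z =
      (inP (Dv s (p * S)) (a * S) (r * S) (ρ * S) (fun _ => 1) s * z) *
        (τ (nlv R a r ρ S p z s - p) + (1 - τ (nlv R a r ρ S p z s - p)) *
          (1 - if -(nlv R u r' ρ' S p z s - p) ≤ -m then (1 : ℝ) else 0)) := by
  rcases hz with hz | hz
  · rw [hz]
    ring
  · have hrr : r ≤ ρ := by linarith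
    by_cases hk : ∃ k, TP (Dv s (p * S)) (a * S) (r * S) (ρ * S) s k
    · obtain ⟨k, hk⟩ := hk
      have e1 := nlv_eq (R := R) (z := z) hR hS (hr.trans hr2) hrr hz hk
      rw [inP_eq (mul_le_mul_of_nonneg_right hrr hS.le) hk, e1, hz, mul_one, one_mul, one_mul]
      have hex : (∃ k, TP (Dv s (p * S)) (a * S) (r * S) (ρ * S) s k ∧ (pos s k).re < (p + m) * S) ↔
          (pos s k).re / S - p < m := by
        rw [sub_lt_iff_lt_add, div_lt_iff₀ hS, add_comm m p]
        constructor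
        · rintro ⟨k', h1, h2⟩
          rwa [tp_unique (mul_le_mul_of_nonneg_right hrr hS.le) hk h1]
        · exact fun h => ⟨k, hk, h⟩
      rcases le_or_gt ((pos s k).re / S - p) u with h1 | h1
      · rw [if_pos (hex.2 (by linarith)), τ1 _ h1]
        ring
      · have h2 : u * S + p * S ≤ (pos s k).re := by
          rw [← add_mul, ← le_div_iff₀ hS]
          linarith
        have h3 := tp_up hS.le hau hk h2 (mul_le_mul_of_nonneg_right hr hS.le) (mul_le_mul_of_nonneg_right hρ hS.le)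
        have e2 := nlv_eq (R := R) (z := (1 : ℝ)) hR hS hr2 hrρ rfl h3
        rw [e2]
        rcases lt_or_ge ((pos s k).re / S - p) m with h4 | h4
        · rw [if_pos (hex.2 h4), if_neg (by linarith)]
          ring
        · rw [if_neg fun h => not_lt.2 h4 (hex.1 h), if_pos (by linarith), τ0 _ h4]
          ring
    · rw [inP_zero fun k h => hk ⟨k, h⟩, if_neg fun h => hk ⟨_, h.choose_spec.1⟩]
      ring

section sys

variable {ι Ω X : Type*} [MeasurableSpace Ω] [DiscreteMeasurableSpace Ω] [PseudoMetricSpace X] {U : Ultrafilter ι}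
  {P : ι → Measure Ω} [∀ i, IsFiniteMeasure (P i)] {x : ι → Ω → X} {nn : ι → Ω → ℕ} {wd : ∀ (i : ι) (s : Ω), Fin (nn i s) → Fin 3} {S : ι → ℝ}

open Classical in
/-- **the gate over the base exists and lies below the level `m` over the base** -/
theorem gate_lt {R : ℝ} (hR : 0 < R) (hM : Mb (U : Filter ι) P) (hW : WSys (U : Filter ι) P nn wd S)
    (hS : Tendsto S (U : Filter ι) atTop) {z : ι → Ω → ℝ} (hz : ∀ i s, z i s = 0 ∨ z i s = 1)
    (hG : GrdA (U : Filter ι) P x nn wd S R z) {p : ι → Ω → ℝ} (hp : L1A (U : Filter ι) P x p) (p0 : ∀ i s, 0 ≤ p i s) :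
    ∃ E : Set ℝ, E.Countable ∧ ∀ B : Box, B.Ok R → ∃ M0 : Set ℝ, M0.Countable ∧ ∀ m : ℝ, m ∉ M0 → ∀ a : ℝ, a ∉ E → B.a0 < a →
      a < m → ∃ E' : Set ℝ, E'.Countable ∧ ∀ t : ℝ, t ∉ E' → 0 < t → t < 1 → L1A (U : Filter ι) P x fun i s =>
        (if ∃ k, TP (Dv (wd i s) (p i s * S i)) (a * S i) (rT B t * S i) (pT B t * S i) (wd i s) k ∧
          (pos (wd i s) k).re < (p i s + m) * S i then (1 : ℝ) else 0) * z i s := by
  have z0 : ∀ i s, 0 ≤ z i s := fun i s => by rcases hz i s with h | h <;> rw [h]; exact zero_le_one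
  have z1 : ∀ i s, z i s ≤ 1 := fun i s => by rcases hz i s with h | h <;> rw [h]; exact zero_le_one
  obtain ⟨E, hE, h1⟩ := gateB hR hM hW hS z0 z1 hG hp p0
  refine ⟨E, hE, fun B hB => ?_⟩
  have h2 : ∀ a : ℝ, ∃ E' : Set ℝ, E'.Countable ∧ (a ∉ E → B.a0 < a → ∀ t : ℝ, t ∉ E' → 0 < t → t < 1 →
      ∀ (K : ℝ) (H : ℝ × CI → ℝ → ℝ), 0 ≤ K → TestX K H → L1A (U : Filter ι) P x fun i s =>
        inP (Dv (wd i s) (p i s * S i)) (a * S i) (rT B t * S i) (pT B t * S i)
          (fun k => H (XS (S i) (wd i s)) ((k : ℝ) / nn i s)) (wd i s) * z i s) := by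
    intro a
    by_cases ha : a ∉ E ∧ B.a0 < a
    · obtain ⟨E', hE', h3⟩ := h1 a ha.1 B hB ha.2
      exact ⟨E', hE', fun _ _ => h3⟩
    · exact ⟨∅, countable_empty, fun h h' => absurd ⟨h, h'⟩ ha⟩
  choose E' hE' h3 using h2
  have hlv : ∀ a t : ℝ, a ∉ E → B.a0 < a → t ∉ E' a → 0 < t → t < 1 → L1A (U : Filter ι) P x fun i s =>
      nlv R a (rT B t) (pT B t) (S i) (p i s) (z i s) (wd i s) - p i s := fun a t ha haB ht t0 t1 =>
    ((h3 a ha haB t ht t0 t1 _ _ (by positivity) (testX_lv (C := 2 * R) (by positivity))).smul (2 * R)).sub hp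
  have h4 : ∀ u t : ℝ, ∃ Th : Set ℝ, Th.Countable ∧ (u ∉ E → B.a0 < u → t ∉ E' u → 0 < t → t < 1 → ∀ v : ℝ, v ∉ Th →
      L1A (U : Filter ι) P x fun i s =>
        if -(nlv R u (rT B t) (pT B t) (S i) (p i s) (z i s) (wd i s) - p i s) ≤ v then 1 else 0) := by
    intro u t
    by_cases h : u ∉ E ∧ B.a0 < u ∧ t ∉ E' u ∧ 0 < t ∧ t < 1
    · obtain ⟨g1, g2, g3, g4, g5⟩ := h
      have h5 := (hlv u t g1 g2 g3 g4 g5).smul (-1)
      simp only [neg_one_mul] at h5
      obtain ⟨Th, hTh, h6⟩ := gen_thr hM h5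
      exact ⟨Th, hTh, fun _ _ _ _ _ => h6⟩
    · exact ⟨∅, countable_empty, fun g1 g2 g3 g4 g5 => absurd ⟨g1, g2, g3, g4, g5⟩ h⟩
  choose Th hTh h5 using h4
  obtain ⟨Q, hQs, hQc, hQd⟩ := (hE.dense_compl ℝ).exists_countable_dense_subset
  choose Q' hQ's hQ'c hQ'd using fun u : ℝ => ((hE' u).dense_compl ℝ).exists_countable_dense_subset
  refine ⟨⋃ u ∈ Q, ⋃ t ∈ Q' u, (fun m : ℝ => -m) ⁻¹' Th u t, ?_, fun m hm a ha haB ham => ⟨E' a, hE' a, fun t ht t0 t1 => ?_⟩⟩
  · exact hQc.biUnion fun u _ => (hQ'c u).biUnion fun t _ => (hTh u t).preimage neg_injective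
  obtain ⟨u, hu, hau, hum⟩ := hQd.exists_between ham
  obtain ⟨t', ht', htt, ht1⟩ := (hQ'd u).exists_between t1
  have huE : u ∉ E := hQs hu
  have htE : t' ∉ E' u := hQ's u ht'
  have hmT : -m ∉ Th u t' := fun h => hm (mem_iUnion₂.2 ⟨u, hu, mem_iUnion₂.2 ⟨t', ht', h⟩⟩)
  have L1 := h5 u t' huE (haB.trans hau) htE (t0.trans htt) ht1 _ hmT
  have L2 := h3 a ha haB t ht t0 t1 0 _ le_rfl testX_one
  have L3 := hlv a t ha haB ht t0 t1
  have hum0 : 0 < m - u := sub_pos.2 hum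
  obtain ⟨τ, hτ⟩ : ∃ τ : ℝ → ℝ, τ = fun y => max 0 (min 1 ((m - y) / (m - u))) := ⟨_, rfl⟩
  have τ1 : ∀ y, y ≤ u → τ y = 1 := by
    intro y hy
    rw [hτ]
    show max 0 (min 1 ((m - y) / (m - u))) = 1
    rw [min_eq_left ((one_le_div hum0).2 (by linarith)), max_eq_right zero_le_one]
  have τ0 : ∀ y, m ≤ y → τ y = 0 := by
    intro y hy
    rw [hτ]
    show max 0 (min 1 ((m - y) / (m - u))) = 0
    rw [max_eq_left]
    exact (min_le_right _ _).trans (div_nonpos_of_nonpos_of_nonneg (by linarith) hum0.le)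
  have τl : LipschitzWith (Real.toNNReal (1 / (m - u))) τ := by
    refine LipschitzWith.of_dist_le_mul fun y y' => ?_
    rw [Real.coe_toNNReal _ (by positivity), Real.dist_eq, Real.dist_eq, hτ]
    show |max 0 (min 1 ((m - y) / (m - u))) - max 0 (min 1 ((m - y') / (m - u)))| ≤ _
    have h7 := abs_max_sub_max_le_abs (min 1 ((m - y) / (m - u))) (min 1 ((m - y') / (m - u))) 0
    rw [max_comm _ (0 : ℝ), max_comm _ (0 : ℝ)] at h7
    have h8 := abs_min_sub_min_le_max 1 ((m - y) / (m - u)) 1 ((m - y') / (m - u))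
    rw [sub_self, abs_zero, max_eq_right (abs_nonneg _)] at h8
    refine (h7.trans h8).trans (le_of_eq ?_)
    rw [← sub_div, abs_div, abs_of_pos hum0, show m - y - (m - y') = -(y - y') by ring, abs_neg]
    ring
  have τb : ∀ y, |τ y| ≤ 1 := by
    intro y
    rw [hτ]
    show |max 0 (min 1 ((m - y) / (m - u)))| ≤ 1
    rw [abs_of_nonneg (le_max_left _ _)]
    exact max_le zero_le_one (min_le_left _ _)
  have L4 := L3.lipc τl τb
  have L5 := L2.mul (L4.add (((L1A.const 1).sub L4).mul ((L1A.const 1).sub L1)))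
  have hBr := sub_pos.2 hB.r
  have hBp := sub_pos.2 hB.p'
  have B2 := hB.r'
  have B3 := hB.p
  refine (show (fun (i : ι) (s : Ω) => _) = fun i s => _ from ?_) ▸ L5
  funext i s
  refine (lt_id hR (hW.pos i) hau.le hum ?_ ?_ ?_ ?_ (hz i s) τ1 τ0).symm
  · unfold rT
    nlinarith
  · unfold pT
    nlinarith
  · unfold rT
    nlinarith
  · unfold rT pT
    nlinarith

end sys

end Pool.Agent.ROT.F3
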