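import Pool.Agent.ROT.F3GenG3
import Pool.Agent.ROT.F3K2H

/-!
# ROT, F3, K2 (helper16): the strands at the six scales of the gates

* **`sc_ex`** : `Sc U b S c0 ρ` (helper59) for all `c0` off a countable set and all `ρ` with `58580000 ρ < c0`;
* **`sc_cell`** : then the left ends of all the cells are good levels, for all but countably many `t0`.
-/

set_option autoImplicit false

open Filter MeasureTheory Topology

namespace Pool.Agent.ROT.F3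

open Pool.Agent.ROT.F (QB)
open Pool.Agent.SCF.M Pool.Agent.SCF.Z
open LF (Cv)

/-- **the strands at the six scales of the gates** -/
theorem sc_ex (hQ : QB) {b : ℝ} (hb : 0 ≤ b) (U : Ultrafilter ℕ) (hU : (U : Filter ℕ) ≤ atTop) {S : ℕ → ℝ} (hS0 : ∀ N, 0 < S N)
    (hS : ∀ᶠ N : ℕ in U, S N = N) : ∃ E0 : Set ℝ, E0.Countable ∧ ∀ c0 : ℝ, c0 ∉ E0 → ∀ ρ : ℝ, 0 < ρ → 58580000 * ρ < c0 →
      Sc U b S c0 ρ := by
  obtain ⟨E0, hE0, h⟩ := arc_sysH hQ hb U hU hS0 hS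
  refine ⟨E0, hE0, fun c0 hc ρ hρ hρc => ⟨fun i k T => h c0 hc _ (mul_pos (scN_pos i).1 hρ) ?_ k T, fun i k T =>
    h c0 hc _ (mul_pos (scF_pos i).1 hρ) ?_ k T⟩⟩
  · have h1 : scN i * ρ ≤ 21 * ρ := mul_le_mul_of_nonneg_right (scN_pos i).2 hρ.le
    linarith
  · have h1 : scF i * ρ ≤ 29000 * ρ := mul_le_mul_of_nonneg_right (scF_pos i).2 hρ.le
    linarith

/-- **the strands and the cells** -/
theorem sc_cell (hQ : QB) {b : ℝ} (hb : 0 ≤ b) (U : Ultrafilter ℕ) (hU : (U : Filter ℕ) ≤ atTop) {PG : Measure CC.Gm}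
    (hC : Cv (U : Filter ℕ) (fun N => mwE N b) cN PG) {S : ℕ → ℝ} (hS0 : ∀ N, 0 < S N)
    (hS : ∀ᶠ N : ℕ in U, S N = N) : ∃ E0 : Set ℝ, E0.Countable ∧ ∀ c0 : ℝ, c0 ∉ E0 → ∀ ρ : ℝ, 0 < ρ → 58580000 * ρ < c0 →
      Sc U b S c0 ρ ∧ ∃ E1 : Set ℝ, E1.Countable ∧ ∀ t0 : ℝ, t0 ∉ E1 → ∀ (n : ℕ) (k : ℤ), FLv U b PG S c0 ρ (Nul.lft t0 n k) := by
  obtain ⟨E0, hE0, h⟩ := sc_ex hQ hb U hU hS0 hS
  exact ⟨E0, hE0, fun c0 hc ρ hρ hρc => ⟨h c0 hc ρ hρ hρc, flv_cell hC hρ (h c0 hc ρ hρ hρc)⟩⟩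

end Pool.Agent.ROT.F3
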