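import Pool.Agent.ROT.F3K3A

/-!
# ROT, F3, row K3, second part (helper2): subclasses and closed consequences

Input: the limits of the indicator of the class (`he`) and of the relative times of the eight marks (`h`) (`k3_ev`, `k3_mk` of F3K3A).
* **`and_ev`** : a further condition with a statistic of (curve, duration, times of the marks);
* **`man_ev`** : the subclass whose rests A are main arcs (`Man`); `a0_ev` : `P.A0 N`;
* **`cls_mem`** : closed consequences hold a.e. on the limit class; **`clsK_mem`**, `clsF_mem`, `ord_mem`.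
-/

set_option autoImplicit false

namespace Pool.Agent.ROT.F3.CK

open MeasureTheory Filter Topology Set unitInterval

open scoped NNReal ENNReal Classical

open Pool.Agent.ROT.F3 Pool.Agent.ROT.F3.LF

/-! ### 1. Balls and positions of the class -/

section word

variable {D : Dt} {S : ℝ} {x : W3 × ℕ} {v : Fin 8 → ℕ}

/-- the balls of a double gate -/
private lemma preG_ball {w : W3} {n : ℕ} {d : ℂ} {P : Tp} {i j k : ℕ} (h : Btw i j k) (hi : i ≤ n) (hn : n ≤ w.length)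
    (hG : PreG d P S (pcw w i k) (ndi i j)) : (∀ m : ℕ, m ≤ (pcw w i j).length → ‖ps (pcw w i j) m‖ ≤ P.r * S) ∧
      ∀ m : ℕ, m ≤ (pcw w j k).length → ‖ps (pcw w j k) m‖ ≤ P.r2 * S := by
  have t1 := pcw_take (w := w) h hi hn
  have t2 := pcw_drop (w := w) h hi hn
  obtain ⟨_, hA, fA, hB, fB⟩ := hG.g
  rw [t1] at hA
  rw [t2] at hB
  exact ⟨fun m hm => hA.ball m hm, fun m hm => hB.t.ball m hm⟩

/-- **the gate part contains the balls** -/
theorem DecG.ba (h : DecG D S x v) : BaG D S x v := by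
  have h01 := h.h01
  have h12 := h.h12
  have h23 := h.h23
  have h3m := h.h3m
  have hm4 := h.hm4
  have h45 := h.h45
  have h56 := h.h56
  have h67 := h.h67
  have h7 := h.h7
  have b01 : Btw 0 (v 0) (v 1) := Or.inl ⟨Nat.zero_le _, h01⟩
  have b76 : Btw x.1.length (v 7) (v 6) := Or.inr ⟨h67, h7⟩
  have b32 : Btw x.2 (v 3) (v 2) := Or.inr ⟨h23, h3m⟩
  have b45 : Btw x.2 (v 4) (v 5) := Or.inl ⟨hm4, h45⟩
  have n1 : ndi 0 (v 0) = v 0 := by unfold ndi; omega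
  have n2 : ndi x.1.length (v 7) = x.1.length - v 7 := by unfold ndi; omega
  have n3 : ndi x.2 (v 3) = x.2 - v 3 := by unfold ndi; omega
  have n4 : ndi x.2 (v 4) = v 4 - x.2 := by unfold ndi; omega
  exact ⟨h12, h56,
    preG_ball (n := x.1.length) (P := D.P.up D.y) b01 (Nat.zero_le _) le_rfl (by rw [n1]; exact h.p.p1),
    preG_ball (n := x.1.length) (P := D.P.up D.y') b76 le_rfl le_rfl (by rw [n2]; exact h.p.p2),
    preG_ball (n := x.1.length) (P := D.Q.up D.z) b32 (by omega) le_rfl (by rw [n3]; exact h.q.p1),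
    preG_ball (n := x.1.length) (P := D.Q.up D.z') b45 (by omega) le_rfl (by rw [n4]; exact h.q.p2)⟩

/-- and the positions -/
theorem DecG.pos (h : DecG D S x v) : PosG x v := by
  have h01 := h.h01
  have h12 := h.h12
  have h23 := h.h23
  have h3m := h.h3m
  have hm4 := h.hm4
  have h45 := h.h45
  have h56 := h.h56
  have h67 := h.h67
  have h7 := h.h7
  exact ⟨h.ev, h.em, h.el, by omega, h01, by omega, h23, h3m, hm4, h45, by omega, by omega, h67, h7⟩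

end word

/-! ### 2. Limits -/

section

variable {U : Filter ℕ} {b : ℝ} {PG : Measure CC.Gm} {D : Dt} {S0 : Set CC.Gm} {Φ0 : CC.Gm → Fin 8 → ℝ}

/-- the marks of the class with the second root -/
noncomputable def mkB8 (D : Dt) (N : ℕ) (x : W3 × ℕ) (k : Option (Fin 8)) : ℝ := k.elim (muN x) fun j => mkt D N (uT N) x j

/-- the marks are points of the curve -/
lemma mkB8_fr (D : Dt) (N : ℕ) (x : W3 × ℕ) (k : Option (Fin 8)) :
    mkB8 D N x k = ((fr (k.elim x.2 fun j => mkc D N (uT N) x j) x.1.length : I) : ℝ) := by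
  cases k with
  | none => rfl
  | some j => exact (fr_coe (mkc_len D N (uT N) x j)).symm

lemma mkB8_lm (hC : Cv U (fun N => mwE N b) cN PG) (hP : ∀ᵐ y ∂PG, 0 < y.1)
    (h : ∀ k, Lm U (fun N => mwE N b) cN PG (fun N x => mkt D N (uT N) x k) fun y => Φ0 y k) (k : Option (Fin 8)) :
    Lm U (fun N => mwE N b) cN PG (fun N x => mkB8 D N x k) fun y => mkL Φ0 y k := by
  cases k with
  | none => exact lm_mu hC hP
  | some j => exact h j

/-- the class on the words of the system -/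
private lemma ev_cls (hC : Cv U (fun N => mwE N b) cN PG)
    (he : Ev U (fun N => mwE N b) cN PG (fun N x => x ∈ InC (D.C N (uT N)) (D.C' N (uT N)) (D.A N (uT N)) (D.B N (uT N))) S0) :
    Ev U (fun N => mwE N b) cN PG
      (fun N x => x ∈ InC (D.C N (uT N)) (D.C' N (uT N)) (D.A N (uT N)) (D.B N (uT N)) ∧ Spt x) S0 :=
  ev_spt hC he (Eventually.of_forall fun _ _ hx => ⟨fun h => h.1, fun h => ⟨h, hx⟩⟩)

/-- **a further condition with a statistic** -/
theorem and_ev (hU : U ≤ atTop) (hC : Cv U (fun N => mwE N b) cN PG) (hP : ∀ᵐ y ∂PG, 0 < y.1)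
    (he : Ev U (fun N => mwE N b) cN PG (fun N x => x ∈ InC (D.C N (uT N)) (D.C' N (uT N)) (D.A N (uT N)) (D.B N (uT N))) S0)
    (h : ∀ k, Lm U (fun N => mwE N b) cN PG (fun N x => mkt D N (uT N) x k) fun y => Φ0 y k)
    {A : ℕ → W3 × ℕ → Prop} {F : C(I, ℂ) → ℝ → I → (Fin 8 → I) → ℝ}
    (hF : Continuous fun z : C(I, ℂ) × ℝ × (Option (Fin 8) → I) => F z.1 z.2.1 (z.2.2 none) fun k => z.2.2 (some k))
    (hA : ∀ᶠ N : ℕ in U, ∀ x, Spt x → x ∈ InC (D.C N (uT N)) (D.C' N (uT N)) (D.A N (uT N)) (D.B N (uT N)) →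
      Sqz (A N x) (F (crv x.1 x.1.length N) (x.1.length / uT N) (fr x.2 x.1.length)
        fun k => fr (mkc D N (uT N) x k) x.1.length) (3 / N))
    (h0 : PG {y | y ∈ S0 ∧ F y.2.2 y.1 (pji (muG y)) (fun k => pji (Φ0 y k)) = 0} = 0) :
    Ev U (fun N => mwE N b) cN PG
      (fun N x => x ∈ InC (D.C N (uT N)) (D.C' N (uT N)) (D.A N (uT N)) (D.B N (uT N)) ∧ A N x)
      (S0 ∩ {y | F y.2.2 y.1 (pji (muG y)) (fun k => pji (Φ0 y k)) ≤ 0}) := by
  have e2 := soft_ev (κ := Option (Fin 8)) (p := mkB8 D) (Φ := mkL Φ0) (K := fun k N x => k.elim x.2 fun j => mkc D N (uT N) x j)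
    (A := A) (F := fun g L u => F g L (u none) fun k => u (some k)) hC (wsy hU) (mkB8_lm hC hP h) (ev_cls hC he)
    (fun N x _ k => mkB8_fr D N x k) hF (by
      filter_upwards [hA] with N hN x hx
      exact hN x hx.2 hx.1) h0
  exact ev_spt hC e2 (Eventually.of_forall fun _ _ hx => ⟨fun h => ⟨⟨h.1, hx⟩, h.2⟩, fun h => ⟨h.1.1, h.2⟩⟩)

/-- **closed consequences** -/
theorem cls_mem [U.NeBot] (hU : U ≤ atTop) (hC : Cv U (fun N => mwE N b) cN PG) (hP : ∀ᵐ y ∂PG, 0 < y.1)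
    (he : Ev U (fun N => mwE N b) cN PG (fun N x => x ∈ InC (D.C N (uT N)) (D.C' N (uT N)) (D.A N (uT N)) (D.B N (uT N))) S0)
    (h : ∀ k, Lm U (fun N => mwE N b) cN PG (fun N x => mkt D N (uT N) x k) fun y => Φ0 y k)
    {F : C(I, ℂ) → ℝ → I → (Fin 8 → I) → ℝ}
    (hF : Continuous fun z : C(I, ℂ) × ℝ × (Option (Fin 8) → I) => F z.1 z.2.1 (z.2.2 none) fun k => z.2.2 (some k))
    (hA : ∀ᶠ N : ℕ in U, ∀ x, Spt x → x ∈ InC (D.C N (uT N)) (D.C' N (uT N)) (D.A N (uT N)) (D.B N (uT N)) →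
      F (crv x.1 x.1.length N) (x.1.length / uT N) (fr x.2 x.1.length)
        (fun k => fr (mkc D N (uT N) x k) x.1.length) ≤ 3 / N) :
    ∀ᵐ y ∂PG, y ∈ S0 → F y.2.2 y.1 (pji (muG y)) (fun k => pji (Φ0 y k)) ≤ 0 :=
  soft_mem (κ := Option (Fin 8)) (p := mkB8 D) (Φ := mkL Φ0) (K := fun k N x => k.elim x.2 fun j => mkc D N (uT N) x j)
    (F := fun g L u => F g L (u none) fun k => u (some k)) hC (wsy hU) (mkB8_lm hC hP h) (ev_cls hC he)
    (fun N x _ k => mkB8_fr D N x k) hF (by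
      filter_upwards [hA] with N hN x hx
      exact hN x hx.2 hx.1)

/-- **the gates of the limit class** -/
theorem clsK_mem [U.NeBot] (hU : U ≤ atTop) (hC : Cv U (fun N => mwE N b) cN PG) (hP : ∀ᵐ y ∂PG, 0 < y.1) (hD : D.Ok)
    (he : Ev U (fun N => mwE N b) cN PG (fun N x => x ∈ InC (D.C N (uT N)) (D.C' N (uT N)) (D.A N (uT N)) (D.B N (uT N))) S0)
    (h : ∀ k, Lm U (fun N => mwE N b) cN PG (fun N x => mkt D N (uT N) x k) fun y => Φ0 y k) :
    ∀ᵐ y ∂PG, y ∈ S0 → clsK D y.2.2 (pji (muG y)) (fun k => pji (Φ0 y k)) ≤ 0 := by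
  refine cls_mem hU hC hP he h (F := fun g _ m u => clsK D g m u) ?_ ?_
  · exact clsK_cont hD (by fun_prop) (by fun_prop) fun k => by fun_prop
  · filter_upwards [hU (eventually_ge_atTop 1)] with N hN x hs hx
    have hN' : (0 : ℝ) < N := by exact_mod_cast hN
    have h2 := hs.2.2
    refine (clsK_le hD hN' (dec_mkc hD hN' hx).1 (by omega)).trans ?_
    exact div_le_div_of_nonneg_right (by norm_num) hN'.le

/-- **the soft conditions of the limit class** -/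
theorem clsF_mem [U.NeBot] (hU : U ≤ atTop) (hC : Cv U (fun N => mwE N b) cN PG) (hP : ∀ᵐ y ∂PG, 0 < y.1) (hD : D.Ok)
    (he : Ev U (fun N => mwE N b) cN PG (fun N x => x ∈ InC (D.C N (uT N)) (D.C' N (uT N)) (D.A N (uT N)) (D.B N (uT N))) S0)
    (h : ∀ k, Lm U (fun N => mwE N b) cN PG (fun N x => mkt D N (uT N) x k) fun y => Φ0 y k) :
    ∀ᵐ y ∂PG, y ∈ S0 → clsF D y.2.2 y.1 (pji (muG y)) (fun k => pji (Φ0 y k)) ≤ 0 := by
  refine cls_mem hU hC hP he h (F := fun g L m u => clsF D g L m u) ?_ ?_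
  · exact clsF_cont hD (by fun_prop) (by fun_prop) (by fun_prop) fun k => by fun_prop
  · filter_upwards [hU (eventually_ge_atTop 1), (wsy hU).hT] with N hN hT x hs hx
    have hN' : (0 : ℝ) < N := by exact_mod_cast hN
    have h2 := hs.2.2
    obtain ⟨g1, g2⟩ := dec_mkc hD hN' hx
    exact (le_max_left _ _).trans ((cls_sq hD hN' hT g1.pos (by omega)).dn ⟨g1.ba, g2⟩)

/-- **the order of the marks of the limit class**, without `mu` (see also `ord_cls` of F3K4C) -/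
theorem ord_mem [U.NeBot] (hU : U ≤ atTop) (hC : Cv U (fun N => mwE N b) cN PG) (hP : ∀ᵐ y ∂PG, 0 < y.1) (hD : D.Ok)
    (he : Ev U (fun N => mwE N b) cN PG (fun N x => x ∈ InC (D.C N (uT N)) (D.C' N (uT N)) (D.A N (uT N)) (D.B N (uT N))) S0)
    (h : ∀ k, Lm U (fun N => mwE N b) cN PG (fun N x => mkt D N (uT N) x k) fun y => Φ0 y k) :
    ∀ᵐ y ∂PG, y ∈ S0 → pji (Φ0 y 0) ≤ pji (Φ0 y 1) ∧ pji (Φ0 y 1) ≤ pji (Φ0 y 2) ∧ pji (Φ0 y 2) ≤ pji (Φ0 y 3) ∧
      pji (Φ0 y 3) ≤ pji (muG y) ∧ pji (muG y) ≤ pji (Φ0 y 4) ∧ pji (Φ0 y 4) ≤ pji (Φ0 y 5) ∧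
      pji (Φ0 y 5) ≤ pji (Φ0 y 6) ∧ pji (Φ0 y 6) ≤ pji (Φ0 y 7) := by
  have key : ∀ i j : Option (Fin 8), (∀ N : ℕ, 1 ≤ N → ∀ x : W3 × ℕ,
      x ∈ InC (D.C N (uT N)) (D.C' N (uT N)) (D.A N (uT N)) (D.B N (uT N)) →
      (i.elim x.2 fun k => mkc D N (uT N) x k) ≤ (j.elim x.2 fun k => mkc D N (uT N) x k)) →
      ∀ᵐ y ∂PG, y ∈ S0 → pji (mkL Φ0 y i) ≤ pji (mkL Φ0 y j) := by
    intro i j hij
    have h1 := soft_mem (κ := Option (Fin 8)) (p := mkB8 D) (Φ := mkL Φ0)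
      (K := fun k N x => k.elim x.2 fun j => mkc D N (uT N) x j)
      (F := fun _ _ u => ((u i : I) : ℝ) - (u j : I)) hC (wsy hU) (mkB8_lm hC hP h) (ev_cls hC he)
      (fun N x _ k => mkB8_fr D N x k) (by
        have key : ∀ k : Option (Fin 8), Continuous fun z : C(I, ℂ) × ℝ × (Option (Fin 8) → I) => ((z.2.2 k : I) : ℝ) :=
          fun k => continuous_subtype_val.comp ((continuous_apply k).comp (continuous_snd.comp continuous_snd))
        exact (key i).sub (key j)) (by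
        filter_upwards [hU (eventually_ge_atTop 1)] with N hN x hx
        have h3 := hij N hN x hx.1
        have h4 : min 1 (((i.elim x.2 fun k => mkc D N (uT N) x k : ℕ) : ℝ) / x.1.length) ≤
            min 1 (((j.elim x.2 fun k => mkc D N (uT N) x k : ℕ) : ℝ) / x.1.length) :=
          min_le_min le_rfl (div_le_div_of_nonneg_right (by exact_mod_cast h3) (Nat.cast_nonneg _))
        have h5 : (0 : ℝ) ≤ 3 / N := by positivity
        show min 1 (((i.elim x.2 fun k => mkc D N (uT N) x k : ℕ) : ℝ) / x.1.length) -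
          min 1 (((j.elim x.2 fun k => mkc D N (uT N) x k : ℕ) : ℝ) / x.1.length) ≤ 3 / N
        linarith)
    filter_upwards [h1] with y hy hS
    have := hy hS
    exact Subtype.coe_le_coe.1 (by linarith)
  have m : ∀ N : ℕ, 1 ≤ N → ∀ x : W3 × ℕ, x ∈ InC (D.C N (uT N)) (D.C' N (uT N)) (D.A N (uT N)) (D.B N (uT N)) →
      mkc D N (uT N) x 0 ≤ mkc D N (uT N) x 1 ∧ mkc D N (uT N) x 1 ≤ mkc D N (uT N) x 2 ∧
      mkc D N (uT N) x 2 ≤ mkc D N (uT N) x 3 ∧ mkc D N (uT N) x 3 ≤ x.2 ∧ x.2 ≤ mkc D N (uT N) x 4 ∧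
      mkc D N (uT N) x 4 ≤ mkc D N (uT N) x 5 ∧ mkc D N (uT N) x 5 ≤ mkc D N (uT N) x 6 ∧
      mkc D N (uT N) x 6 ≤ mkc D N (uT N) x 7 := fun N hN x hx => by
    obtain ⟨a1, a2, a3, a4, a5, a6, a7, a8, -⟩ := mkc_le hD (show (0 : ℝ) < N by exact_mod_cast hN) hx
    exact ⟨a1, a2, a3, a4, a5, a6, a7, a8⟩
  filter_upwards [key (some 0) (some 1) fun N hN x hx => (m N hN x hx).1,
    key (some 1) (some 2) fun N hN x hx => (m N hN x hx).2.1,
    key (some 2) (some 3) fun N hN x hx => (m N hN x hx).2.2.1,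
    key (some 3) none fun N hN x hx => (m N hN x hx).2.2.2.1,
    key none (some 4) fun N hN x hx => (m N hN x hx).2.2.2.2.1,
    key (some 4) (some 5) fun N hN x hx => (m N hN x hx).2.2.2.2.2.1,
    key (some 5) (some 6) fun N hN x hx => (m N hN x hx).2.2.2.2.2.2.1,
    key (some 6) (some 7) fun N hN x hx => (m N hN x hx).2.2.2.2.2.2.2] with y a1 a2 a3 a4 a5 a6 a7 a8 hS
  exact ⟨a1 hS, a2 hS, a3 hS, a4 hS, a5 hS, a6 hS, a7 hS, a8 hS⟩

/-- the subclass with main arcs, at the marks -/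
lemma man_iff (hD : D.Ok) {S T : ℝ} (hS : 0 < S) {s s' : Sr} {x : W3 × ℕ} :
    x ∈ InC (D.C S T) (D.C' S T) (Man D.d D.t D.P D.Q D.V s s' S T) (D.B S T) ↔
      x ∈ InC (D.C S T) (D.C' S T) (D.A S T) (D.B S T) ∧ NRt D.d s S (pcw x.1 (mkc D S T x 1) (mkc D S T x 2)) ∧
        NRt D.t s' S (pcw x.1 (mkc D S T x 2) (mkc D S T x 1)) := by
  have hsub : Man D.d D.t D.P D.Q D.V s s' S T ⊆ D.A S T := fun R hR => hR.q
  have hpc : x ∈ InC (D.C S T) (D.C' S T) (D.A S T) (D.B S T) →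
      pcw x.1 (mkc D S T x 1) (mkc D S T x 2) = seg x.1 (mkc D S T x 1) (mkc D S T x 2) := fun hx =>
    pcw_of_le (mkc_le hD hS hx).2.1
  rw [inC_sub hD hS (Subset.refl _) (Subset.refl _) hsub (Subset.refl _)]
  constructor
  · rintro ⟨hx, _, h2, _, _⟩
    rw [← hpc hx] at h2
    refine ⟨hx, h2.np, ?_⟩
    rw [← pcw_reverse]
    exact h2.nq
  · rintro ⟨hx, h1, h2⟩
    obtain ⟨_, q1, q2, q3, q4⟩ := (inC_sub hD hS (Subset.refl _) (Subset.refl _) (Subset.refl _) (Subset.refl _)).1 hx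
    refine ⟨hx, q1, ?_, q3, q4⟩
    rw [← hpc hx] at q2 ⊢
    exact ⟨q2, h1, by rw [pcw_reverse]; exact h2⟩

/-- **the subclass with main arcs** -/
theorem man_ev (hU : U ≤ atTop) (hC : Cv U (fun N => mwE N b) cN PG) (hP : ∀ᵐ y ∂PG, 0 < y.1) (hD : D.Ok)
    (he : Ev U (fun N => mwE N b) cN PG (fun N x => x ∈ InC (D.C N (uT N)) (D.C' N (uT N)) (D.A N (uT N)) (D.B N (uT N))) S0)
    (h : ∀ k, Lm U (fun N => mwE N b) cN PG (fun N x => mkt D N (uT N) x k) fun y => Φ0 y k) (s s' : Sr)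
    (h0 : PG {y | y ∈ S0 ∧ max (nrF D.d s y.2.2 (pji (Φ0 y 1)) (pji (Φ0 y 2)))
      (nrF D.t s' y.2.2 (pji (Φ0 y 2)) (pji (Φ0 y 1))) = 0} = 0) :
    Ev U (fun N => mwE N b) cN PG (fun N x => x ∈ InC (D.C N (uT N)) (D.C' N (uT N))
        (Man D.d D.t D.P D.Q D.V s s' N (uT N)) (D.B N (uT N)))
      (S0 ∩ {y | max (nrF D.d s y.2.2 (pji (Φ0 y 1)) (pji (Φ0 y 2))) (nrF D.t s' y.2.2 (pji (Φ0 y 2)) (pji (Φ0 y 1))) ≤ 0}) := by
  have e := and_ev hU hC hP he h (A := fun N x => NRt D.d s N (pcw x.1 (mkc D N (uT N) x 1) (mkc D N (uT N) x 2)) ∧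
    NRt D.t s' N (pcw x.1 (mkc D N (uT N) x 2) (mkc D N (uT N) x 1)))
    (F := fun g _ _ u => max (nrF D.d s g (u 1) (u 2)) (nrF D.t s' g (u 2) (u 1))) ?_ ?_ h0
  · refine ev_spt hC e ?_
    filter_upwards [hU (eventually_ge_atTop 1)] with N hN x hs
    exact man_iff hD (show (0 : ℝ) < N by exact_mod_cast hN)
  · exact (Continuous.nrF s hD.d (by fun_prop) (by fun_prop) (by fun_prop)).max
      (Continuous.nrF s' hD.t (by fun_prop) (by fun_prop) (by fun_prop))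
  · filter_upwards [hU (eventually_ge_atTop 1)] with N hN x hs hx
    have hN' : (0 : ℝ) < N := by exact_mod_cast hN
    have g := (dec_mkc hD hN' hx).1
    have k1 := g.h12
    have k2 := g.h23
    have k3 := g.h3m
    have k4 := hs.2.2
    have h2 : 2 / (N : ℝ) ≤ 3 / N := div_le_div_of_nonneg_right (by norm_num) hN'.le
    exact (nr_sq (w := x.1) (n := x.1.length) s hD.d (g.ev 1) (g.ev 2) (by omega) (by omega) le_rfl hN' h2).and
      (nr_sq (w := x.1) (n := x.1.length) s' hD.t (g.ev 2) (g.ev 1) (by omega) (by omega) le_rfl hN' h2)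

/-- **the subclass of the main arcs of F3Cls**, rotated lattice, pairs `(0, j)` -/
theorem a0_ev {P : Prm} {j : Fin 3} {W' : Wn} {y y' z z' : ℝ} (hU : U ≤ atTop) (hC : Cv U (fun N => mwE N b) cN PG)
    (hP : ∀ᵐ y ∂PG, 0 < y.1) (hD : (DR P 0 j P.W W' y y' z z').Ok)
    (he : Ev U (fun N => mwE N b) cN PG (fun N x => x ∈ InC ((DR P 0 j P.W W' y y' z z').C N (uT N))
      ((DR P 0 j P.W W' y y' z z').C' N (uT N)) ((DR P 0 j P.W W' y y' z z').A N (uT N))
      ((DR P 0 j P.W W' y y' z z').B N (uT N))) S0)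
    (h : ∀ k, Lm U (fun N => mwE N b) cN PG (fun N x => mkt (DR P 0 j P.W W' y y' z z') N (uT N) x k) fun y => Φ0 y k)
    (h0 : PG {y | y ∈ S0 ∧ max (nrF (ev 0) P.p.s y.2.2 (pji (Φ0 y 1)) (pji (Φ0 y 2)))
      (nrF (ev 0) P.q.s y.2.2 (pji (Φ0 y 2)) (pji (Φ0 y 1))) = 0} = 0) :
    Ev U (fun N => mwE N b) cN PG (fun N x => x ∈ InC ((DR P 0 j P.W W' y y' z z').C N (uT N))
        ((DR P 0 j P.W W' y y' z z').C' N (uT N)) (P.A0 N) ((DR P 0 j P.W W' y y' z z').B N (uT N)))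
      (S0 ∩ {y | max (nrF (ev 0) P.p.s y.2.2 (pji (Φ0 y 1)) (pji (Φ0 y 2)))
        (nrF (ev 0) P.q.s y.2.2 (pji (Φ0 y 2)) (pji (Φ0 y 1))) ≤ 0}) := by
  have e1 : (DR P 0 j P.W W' y y' z z').t = ev 0 := by
    show ev (-0) = ev 0
    rw [neg_zero]
  have e2 : ∀ N : ℕ, Man (DR P 0 j P.W W' y y' z z').d (DR P 0 j P.W W' y y' z z').t (DR P 0 j P.W W' y y' z z').P
      (DR P 0 j P.W W' y y' z z').Q (DR P 0 j P.W W' y y' z z').V P.p.s P.q.s N (uT N) = P.A0 N := fun N => by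
    rw [e1]
    rfl
  have e := man_ev hU hC hP hD he h P.p.s P.q.s (by rw [e1]; exact h0)
  rw [e1] at e
  exact e

end

end Pool.Agent.ROT.F3.CK
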