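import Pool.Agent.ROT.F3K3F
import Pool.Agent.ROT.F3K3S

/-!
# ROT, F3, row K3 (helper4 for helper2): functional thresholds from the gates of the four strands

* **`ginf_of`** : `GInF` (helper2) from `AIn` and the dictionary.
-/

set_option autoImplicit false

namespace Pool.Agent.ROT.F3.CK

open MeasureTheory Filter Topology Set

open Pool.Agent.ROT.F3 Pool.Agent.ROT.F3.LF

variable {U : Filter ℕ} {b : ℝ} {PG : Measure CC.Gm} {A : Arm → ℕ → W3 × ℕ → Prop} {c g : Arm → ℕ → W3 × ℕ → ℕ}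
  {B : Arm → Set CC.Gm} {Pc Pg : Arm → CC.Gm → ℝ}

/-- **`GInF` from the strands and the dictionary** -/
theorem ginf_of (hC : Cv U (fun N => mwE N b) cN PG) (hP : ∀ᵐ y ∂PG, 0 < y.1) (H : AIn U b PG A c g B Pc Pg) {D : Dt}
    {y : ℕ → W3 × ℕ → Fin 4 → ℝ} (hy : ∀ᶠ N in U, ∀ x, Spt x → ∀ s, 0 ≤ y N x s)
    (dic : ∀ᶠ N : ℕ in U, ∀ x, Spt x → ∀ v', Far D N x v' →
      (DecG (D.th (y N x)) N x v' ↔ (∀ k, A k N x) ∧ v' = v8 c g N x ∧ BaG D N x v')) :
    GInF U b PG D y (allA A c g) (v8 c g) (⋂ k, B k) (phi8 B Pc Pg) where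
  ev := allA_ev hC H
  tm := allA_tm hC hP H
  pos := Eventually.of_forall fun _ _ hx h => v8_pos hx h.2.2
  y0 := hy
  dic := by
    filter_upwards [dic, allA_iff H] with N hN hA x hx v' hv
    rw [hN x hx v' hv, hA x hx]

end Pool.Agent.ROT.F3.CK
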