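import Pool.Agent.ROT.F3SysV
import Pool.Agent.ROT.F3LimF2
import Pool.Agent.ROT.F3CoreC
import Pool.Agent.ROT.F3CoreL
import Pool.Agent.ROT.F3HexW

/-!
# ROT, F3, row K4 (helper58): the laws of the marked closed words and their limits

* `muN`, `muG`, **`lm_mu`** : the relative place of the second root is a functional of the curve in the limit;
* **`cv_mk`** : weights and marks with limits ==> the laws of the weighted data converge (any system); `cv_mk_rot` : the rotated frame;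
* **`mk_hlim`** : the hypothesis `hlim` of F3LimE for the laws `rhoN` of F3HexW;
* **`mark_glue`** : countably many levels: the weight and the data of the level chosen by the connections (`MarkOf` of F3CoreL).
-/

set_option autoImplicit false

open MeasureTheory Filter Topology Set BoundedContinuousFunction

open scoped NNReal ENNReal Classical

namespace Pool.Agent.ROT.F3.CK

open Pool.Agent.ROT.F3 Pool.Agent.ROT.F3.CC Pool.Agent.ROT.F3.LF

/-! ### 1. The second root -/

/-- relative place of the second root of a word -/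
noncomputable def muN (x : W3 × ℕ) : ℝ := min 1 ((x.2 : ℝ) / x.1.length)

/-- relative place of the second root of a closed curve -/
noncomputable def muG (g : CC.Gm) : ℝ := max 0 (min 1 (g.2.1 / g.1))

lemma muN_mem (x : W3 × ℕ) : 0 ≤ muN x ∧ muN x ≤ 1 :=
  ⟨le_min zero_le_one (by positivity), min_le_left _ _⟩

lemma muG_mem (g : CC.Gm) : 0 ≤ muG g ∧ muG g ≤ 1 :=
  ⟨le_max_left _ _, max_le zero_le_one (min_le_left _ _)⟩

lemma muG_meas : Measurable muG := by
  unfold muG
  fun_prop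

lemma muG_eq {g : CC.Gm} (h0 : 0 < g.2.1) (h1 : g.2.1 < g.1) : muG g = mu g := by
  have h2 : 0 < g.1 := h0.trans h1
  have h3 : g.2.1 / g.1 ≤ 1 := (div_le_one h2).2 h1.le
  unfold muG mu
  rw [min_eq_right h3, max_eq_right (by positivity)]

lemma muN_eq {x : W3 × ℕ} (h : x.2 < x.1.length) : muN x = (x.2 : ℝ) / x.1.length := by
  have h2 : (0 : ℝ) < x.1.length := by exact_mod_cast (Nat.zero_le _).trans_lt h
  exact min_eq_right ((div_le_one h2).2 (by exact_mod_cast h.le))

/-- cutoff of short curves -/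
noncomputable def sht (k : ℕ) (g : CC.Gm) : ℝ := max 0 (min 1 (2 - (k + 1) * g.1))

/-- the second root, cut off -/
noncomputable def muK (k : ℕ) (g : CC.Gm) : ℝ := max 0 (min 1 (g.2.1 / max (1 / ((k : ℝ) + 1)) g.1))

lemma sht_mem (k : ℕ) (g : CC.Gm) : 0 ≤ sht k g ∧ sht k g ≤ 1 := ⟨le_max_left _ _, max_le zero_le_one (min_le_left _ _)⟩

lemma muK_mem (k : ℕ) (g : CC.Gm) : 0 ≤ muK k g ∧ muK k g ≤ 1 := ⟨le_max_left _ _, max_le zero_le_one (min_le_left _ _)⟩

lemma sht_cont (k : ℕ) : Continuous (sht k) := by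
  unfold sht
  fun_prop

lemma muK_cont (k : ℕ) : Continuous (muK k) := by
  have h : ∀ g : CC.Gm, max (1 / ((k : ℝ) + 1)) g.1 ≠ 0 := fun g => by
    have : 0 < 1 / ((k : ℝ) + 1) := by positivity
    exact (lt_of_lt_of_le this (le_max_left _ _)).ne'
  have h2 : Continuous fun g : CC.Gm => g.2.1 / max (1 / ((k : ℝ) + 1)) g.1 :=
    Continuous.div (by fun_prop) (by fun_prop) h
  unfold muK
  exact continuous_const.max (continuous_const.min h2)

lemma muK_near (k : ℕ) (g : CC.Gm) : |muG g - muK k g| ≤ sht k g := by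
  have hk : (0 : ℝ) < (k : ℝ) + 1 := by positivity
  rcases le_or_gt (1 / ((k : ℝ) + 1)) g.1 with h | h
  · have : muG g = muK k g := by
      unfold muG muK
      rw [max_eq_right h]
    rw [this, sub_self, abs_zero]
    exact (sht_mem k g).1
  · have h1 : sht k g = 1 := by
      have h2 : (k + 1) * g.1 < 1 := by
        rw [lt_div_iff₀ hk] at h
        linarith
      unfold sht
      rw [min_eq_left (by linarith), max_eq_right zero_le_one]
    rw [h1, abs_le]
    have a := muG_mem g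
    have b := muK_mem k g
    constructor <;> linarith

lemma muN_near (k N : ℕ) (x : W3 × ℕ) : |muN x - muK k (cN N x)| ≤ sht k (cN N x) := by
  have hk : (0 : ℝ) < (k : ℝ) + 1 := by positivity
  rcases le_or_gt (1 / ((k : ℝ) + 1)) (cN N x).1 with h | h
  · have hT : (0 : ℝ) < (N : ℝ) ^ (4 / 3 : ℝ) := by
      rcases (Real.rpow_nonneg (Nat.cast_nonneg N) (4 / 3 : ℝ)).lt_or_eq with h1 | h1
      · exact h1
      · exfalso
        have h2 : (cN N x).1 = 0 := by
          show (x.1.length : ℝ) / (N : ℝ) ^ (4 / 3 : ℝ) = 0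
          rw [← h1, div_zero]
        rw [h2] at h
        have : 0 < 1 / ((k : ℝ) + 1) := by positivity
        linarith
    have : muN x = muK k (cN N x) := by
      unfold muN muK
      rw [max_eq_right h]
      show min 1 ((x.2 : ℝ) / x.1.length) = max 0 (min 1 ((x.2 : ℝ) / (N : ℝ) ^ (4 / 3 : ℝ) /
        ((x.1.length : ℝ) / (N : ℝ) ^ (4 / 3 : ℝ))))
      rw [div_div_div_cancel_right₀ hT.ne', max_eq_right (le_min zero_le_one (by positivity))]
    rw [this, sub_self, abs_zero]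
    exact (sht_mem k _).1
  · have h1 : sht k (cN N x) = 1 := by
      have h2 : (k + 1) * (cN N x).1 < 1 := by
        rw [lt_div_iff₀ hk] at h
        linarith
      unfold sht
      rw [min_eq_left (by linarith), max_eq_right zero_le_one]
    rw [h1, abs_le]
    have a := muN_mem x
    have b := muK_mem k (cN N x)
    constructor <;> linarith

/-- **the place of the second root** -/
theorem lm_mu {l : Filter ℕ} {μ : ℕ → Measure (W3 × ℕ)} {P : Measure CC.Gm} (hC : Cv l μ cN P) (h0 : ∀ᵐ y ∂P, 0 < y.1) :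
    Lm l μ cN P (fun _ => muN) muG := by
  have := hC.fin'
  refine ⟨fun _ => measurable_of_countable _, ⟨1, fun _ x => ?_⟩, muG_meas, ⟨1, fun g => ?_⟩, fun ε hε => ?_⟩
  · rw [abs_of_nonneg (muN_mem x).1]
    exact (muN_mem x).2
  · rw [abs_of_nonneg (muG_mem g).1]
    exact (muG_mem g).2
  -- the short curves
  have t : Tendsto (fun k : ℕ => ∫ g, sht k g ∂P) atTop (𝓝 (∫ _, (0 : ℝ) ∂P)) := by
    refine tendsto_integral_of_dominated_convergence (fun _ => 1) (fun k => (sht_cont k).aestronglyMeasurable)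
      (integrable_const 1) (fun k => Eventually.of_forall fun g => ?_) ?_
    · rw [Real.norm_eq_abs, abs_of_nonneg (sht_mem k g).1]
      exact (sht_mem k g).2
    · filter_upwards [h0] with g hg
      refine tendsto_const_nhds.congr' ?_
      obtain ⟨K, hK⟩ := exists_nat_gt (2 / g.1)
      filter_upwards [eventually_ge_atTop K] with k hk
      have h1 : 2 < (k + 1) * g.1 := by
        rw [div_lt_iff₀ hg] at hK
        have h2 : (K : ℝ) ≤ k := by exact_mod_cast hk
        nlinarith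
      unfold sht
      rw [max_eq_left]
      exact (min_le_right _ _).trans (by linarith)
  rw [integral_zero] at t
  obtain ⟨k, hk⟩ := (t.eventually (gt_mem_nhds hε)).exists
  have i1 : Integrable (sht k) P := itg (sht_cont k).measurable (C := 1) fun g => by
    rw [abs_of_nonneg (sht_mem k g).1]
    exact (sht_mem k g).2
  have hb1 : ∀ g, ‖muK k g‖ ≤ 1 := fun g => by
    rw [Real.norm_eq_abs, abs_of_nonneg (muK_mem k g).1]
    exact (muK_mem k g).2
  have hb2 : ∀ g, ‖sht k g‖ ≤ 1 := fun g => by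
    rw [Real.norm_eq_abs, abs_of_nonneg (sht_mem k g).1]
    exact (sht_mem k g).2
  refine ⟨BoundedContinuousFunction.ofNormedAddCommGroup (muK k) (muK_cont k) 1 hb1, ?_, ?_⟩
  · refine le_trans (integral_mono_of_nonneg (Eventually.of_forall fun g => abs_nonneg _) i1
      (Eventually.of_forall fun g => muK_near k g)) hk.le
  · have t2 := hC.lim (BoundedContinuousFunction.ofNormedAddCommGroup (sht k) (sht_cont k) 1 hb2)
    filter_upwards [t2.eventually (gt_mem_nhds hk)] with N hN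
    have := hC.fin N
    refine le_trans (integral_mono_of_nonneg (Eventually.of_forall fun x => abs_nonneg _) ?_
      (Eventually.of_forall fun x => muN_near k N x)) hN.le
    exact itg ((sht_cont k).measurable.comp (hC.ms N)) (C := 1) fun x => by
      rw [abs_of_nonneg (sht_mem k _).1]
      exact (sht_mem k _).2

/-! ### 2. Weighted data -/

section mk

variable {ι : Type*} {l : Filter ι} {Ω : ι → Type*} [∀ i, MeasurableSpace (Ω i)] {P : ∀ i, Measure (Ω i)}
  {X : Type*} [PseudoMetricSpace X] [MeasurableSpace X] [BorelSpace X] [CompleteSpace X] [SecondCountableTopology X]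
  {c : ∀ i, Ω i → X} {ν : Measure X} {κ : Type*} [Fintype κ] {p : ∀ i, Ω i → κ → ℝ} {Φ : X → κ → ℝ}
  {X' : Type*} [PseudoMetricSpace X'] [MeasurableSpace X'] [BorelSpace X'] {e : ∀ i, Ω i → ℝ} {E : X → ℝ}

/-- **the law of the weighted data converges** -/
theorem cv_mk (hC : Cv l P c ν) (he : Lm l P c ν e E) (h0 : ∀ i ω, 0 ≤ e i ω) (h0' : ∀ x, 0 ≤ E x)
    (h : ∀ k, Lm l P c ν (fun i ω => p i ω k) fun x => Φ x k) {Θ : X × (κ → ℝ) → X'} (hΘ : Continuous Θ) :
    Cv l (fun i => (P i).withDensity fun ω => ENNReal.ofReal (e i ω)) (fun i ω => Θ (c i ω, p i ω))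
      ((ν.withDensity fun x => ENNReal.ofReal (E x)).map fun x => Θ (x, Φ x)) :=
  Cv.push (Cv.wt hC he h0 h0') (fun k => Lm.wt hC he h0 h0' (h k)) hΘ

end mk

/-- the rotated frame is a system with the same limit -/
theorem cv_rot {l : Filter ℕ} {μ : ℕ → Measure (W3 × ℕ)} {P : Measure CC.Gm} (hC : Cv l μ cN P) {z : ℂ}
    (hPz : P.map (rotX z) = P) : Cv l μ (fun N x => rotX z (cN N x)) P := by
  refine ⟨hC.fin, hC.fin', fun i => (rotX_cont z).measurable.comp (hC.ms i), fun G => ?_⟩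
  have h1 := hC.lim (G.compContinuous ⟨rotX z, rotX_cont z⟩)
  have h2 : ∫ x, (G.compContinuous ⟨rotX z, rotX_cont z⟩) x ∂P = ∫ x, G x ∂P := by
    conv_rhs => rw [← hPz]
    rw [integral_map (rotX_cont z).measurable.aemeasurable G.continuous.aestronglyMeasurable]
    rfl
  rw [h2] at h1
  exact h1

/-! ### 3. The laws of the marked words -/

/-- the law of the data of the words in the frame of `mwE` -/
theorem rho_eq {N : ℕ} {b : ℝ} {X : Type*} [MeasurableSpace X] {w : W3 × ℕ → ℝ≥0∞} {e : W3 × ℕ → ℝ} {m m' : W3 × ℕ → X}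
    (hw : ∀ x, w x = if Even x.2 then ENNReal.ofReal (e x) else 0) (hm : ∀ x, w x ≠ 0 → x.2 < x.1.length → m x = m' x) :
    rhoN N b w m = ((mwE N b).withDensity fun x => ENNReal.ofReal (e x)).map m' := by
  have h1 : (mw N b).withDensity w = (mwE N b).withDensity fun x => ENNReal.ofReal (e x) := by
    unfold mwE
    rw [← withDensity_indicator (MeasurableSet.of_discrete : MeasurableSet {x : W3 × ℕ | Even x.2})]
    congr 1
    funext x
    show w x = Set.indicator {x : W3 × ℕ | Even x.2} (fun x => ENNReal.ofReal (e x)) x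
    by_cases hx : Even x.2
    · rw [hw, if_pos hx, indicator_of_mem (show x ∈ {x : W3 × ℕ | Even x.2} from hx)]
    · rw [hw, if_neg hx, indicator_of_notMem (show x ∉ {x : W3 × ℕ | Even x.2} from hx)]
  unfold rhoN
  rw [← h1]
  refine Measure.map_congr ?_
  rw [Filter.EventuallyEq, ae_withDensity_iff (measurable_of_countable w)]
  filter_upwards [mw_aeTN N b] with x hx hx2
  exact hm x hx2 (mem_TN.1 hx).2.1

/-- **`hlim` of F3LimE.** The data are `Θ` (curve, marks) with `Θ` continuous; `z` = the rotation (1 for the lattice 0) -/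
theorem mk_hlim {U : Filter ℕ} {b : ℝ} {P : Measure CC.Gm} (hC : Cv U (fun N => mwE N b) cN P)
    {z : ℂ} (hPz : P.map (rotX z) = P) {e : ℕ → W3 × ℕ → ℝ} {E : CC.Gm → ℝ}
    (he : Lm U (fun N => mwE N b) (fun N x => rotX z (cN N x)) P e E) (h0 : ∀ i ω, 0 ≤ e i ω) (h0' : ∀ x, 0 ≤ E x)
    {κ : Type*} [Fintype κ] {p : ℕ → W3 × ℕ → κ → ℝ} {Φ : CC.Gm → κ → ℝ}
    (h : ∀ k, Lm U (fun N => mwE N b) (fun N x => rotX z (cN N x)) P (fun i ω => p i ω k) fun x => Φ x k)
    {K1 K2 A B : Type*} [PseudoMetricSpace K1] [MeasurableSpace K1] [BorelSpace K1]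
    [PseudoMetricSpace K2] [MeasurableSpace K2] [BorelSpace K2] [PseudoMetricSpace A] [MeasurableSpace A] [BorelSpace A]
    [PseudoMetricSpace B] [MeasurableSpace B] [BorelSpace B] [SecondCountableTopology K1] [SecondCountableTopology K2]
    [SecondCountableTopology A] [SecondCountableTopology B] {Θ : CC.Gm × (κ → ℝ) → (K1 × K2) × (A × (B × ℂ))}
    (hΘ : Continuous Θ) {w : ℕ → W3 × ℕ → ℝ≥0∞} {m : ℕ → W3 × ℕ → (K1 × K2) × (A × (B × ℂ))}
    (hw : ∀ N x, w N x = if Even x.2 then ENNReal.ofReal (e N x) else 0)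
    (hm : ∀ N x, w N x ≠ 0 → x.2 < x.1.length → m N x = Θ (rotX z (cN N x), p N x)) :
    ∀ (f : K1 → ℝ) (f' : K2 → ℝ) (u : A → ℝ) (v : B → ℝ) (t : ℂ → ℝ), TF f → TF f' → TF u → TF v → TF t →
      Tendsto (fun N => ∫ x, f x.1.1 * f' x.1.2 * (u x.2.1 * (v x.2.2.1 * t x.2.2.2)) ∂(rhoN N b (w N) (m N))) U
        (𝓝 (∫ x, f x.1.1 * f' x.1.2 * (u x.2.1 * (v x.2.2.1 * t x.2.2.2))
          ∂((P.withDensity fun y => ENNReal.ofReal (E y)).map fun y => Θ (y, Φ y)))) := by
  intro f f' u v t hf hf' hu hv ht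
  have hc : Continuous fun x : (K1 × K2) × (A × (B × ℂ)) => f x.1.1 * f' x.1.2 * (u x.2.1 * (v x.2.2.1 * t x.2.2.2)) := by
    have c1 := hf.1.choose_spec.continuous
    have c2 := hf'.1.choose_spec.continuous
    have c3 := hu.1.choose_spec.continuous
    have c4 := hv.1.choose_spec.continuous
    have c5 := ht.1.choose_spec.continuous
    fun_prop
  have hb : ∀ x : (K1 × K2) × (A × (B × ℂ)), ‖f x.1.1 * f' x.1.2 * (u x.2.1 * (v x.2.2.1 * t x.2.2.2))‖ ≤ 1 := fun x => by
    have a1 := hf.2 x.1.1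
    have a2 := hf'.2 x.1.2
    have a3 := hu.2 x.2.1
    have a4 := hv.2 x.2.2.1
    have a5 := ht.2 x.2.2.2
    rw [Real.norm_eq_abs, abs_of_nonneg (mul_nonneg (mul_nonneg a1.1 a2.1) (mul_nonneg a3.1 (mul_nonneg a4.1 a5.1)))]
    exact mul_le_one₀ (mul_le_one₀ a1.2 a2.1 a2.2) (mul_nonneg a3.1 (mul_nonneg a4.1 a5.1))
      (mul_le_one₀ a3.2 (mul_nonneg a4.1 a5.1) (mul_le_one₀ a4.2 a5.1 a5.2))
  have hC' := cv_rot hC hPz
  have h1 := (cv_mk hC' he h0 h0' h hΘ).lim (BoundedContinuousFunction.ofNormedAddCommGroup _ hc 1 hb)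
  refine h1.congr fun N => ?_
  have hm2 : Measurable fun x => Θ (rotX z (cN N x), p N x) := measurable_of_countable _
  rw [rho_eq (hw N) (hm N), integral_map hm2.aemeasurable hc.aestronglyMeasurable]
  rfl

/-- the same with the place `mu` of the second root as one more mark -/
theorem mk_hlim_mu {U : Ultrafilter ℕ} {b : ℝ} {P : Measure CC.Gm} (hC : Cv (U : Filter ℕ) (fun N => mwE N b) cN P)
    (hP : ∀ᵐ y ∂P, 0 < y.2.1 ∧ y.2.1 < y.1) {z : ℂ} (hz : ‖z‖ = 1) (hPz : P.map (rotX z) = P) {e : ℕ → W3 × ℕ → ℝ}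
    {E : CC.Gm → ℝ} (he : Lm (U : Filter ℕ) (fun N => mwE N b) (fun N x => rotX z (cN N x)) P e E) (h0 : ∀ i ω, 0 ≤ e i ω)
    (h0' : ∀ x, 0 ≤ E x) {κ : Type*} [Fintype κ] {p : ℕ → W3 × ℕ → κ → ℝ} {Φ : CC.Gm → κ → ℝ}
    (h : ∀ k, Lm (U : Filter ℕ) (fun N => mwE N b) (fun N x => rotX z (cN N x)) P (fun i ω => p i ω k) fun x => Φ x k)
    {K1 K2 A B : Type*} [PseudoMetricSpace K1] [MeasurableSpace K1] [BorelSpace K1]
    [PseudoMetricSpace K2] [MeasurableSpace K2] [BorelSpace K2] [PseudoMetricSpace A] [MeasurableSpace A] [BorelSpace A]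
    [PseudoMetricSpace B] [MeasurableSpace B] [BorelSpace B] [SecondCountableTopology K1] [SecondCountableTopology K2]
    [SecondCountableTopology A] [SecondCountableTopology B] {Θ : CC.Gm × ℝ × (κ → ℝ) → (K1 × K2) × (A × (B × ℂ))}
    (hΘ : Continuous Θ) {w : ℕ → W3 × ℕ → ℝ≥0∞} {m : ℕ → W3 × ℕ → (K1 × K2) × (A × (B × ℂ))}
    (hw : ∀ N x, w N x = if Even x.2 then ENNReal.ofReal (e N x) else 0)
    (hm : ∀ N x, w N x ≠ 0 → x.2 < x.1.length → m N x = Θ (rotX z (cN N x), (x.2 : ℝ) / x.1.length, p N x)) :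
    ∀ (f : K1 → ℝ) (f' : K2 → ℝ) (u : A → ℝ) (v : B → ℝ) (t : ℂ → ℝ), TF f → TF f' → TF u → TF v → TF t →
      Tendsto (fun N => ∫ x, f x.1.1 * f' x.1.2 * (u x.2.1 * (v x.2.2.1 * t x.2.2.2)) ∂(rhoN N b (w N) (m N))) U
        (𝓝 (∫ x, f x.1.1 * f' x.1.2 * (u x.2.1 * (v x.2.2.1 * t x.2.2.2))
          ∂((P.withDensity fun y => ENNReal.ofReal (E y)).map fun y => Θ (y, mu y, Φ y)))) := by
  intro f f' u v t hf hf' hu hv ht
  have hmu := lm_mu hC (hP.mono fun y hy => hy.1.trans hy.2)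
  have hmu' : Lm (U : Filter ℕ) (fun N => mwE N b) (fun N x => rotX z (cN N x)) P (fun _ => muN) muG := lm_rot hz hPz hmu
  have h1 := mk_hlim hC hPz he h0 h0' (κ := Option κ) (p := fun N x k => k.elim (muN x) fun j => p N x j)
    (Φ := fun y k => k.elim (muG y) fun j => Φ y j) (fun k => by
      cases k with
      | none => exact hmu'
      | some j => exact h j)
    (Θ := fun q => Θ (q.1, q.2 none, fun j => q.2 (some j))) (hΘ.comp (by fun_prop)) (w := w) (m := m) hw (fun N x hx hx2 => by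
      show m N x = Θ (rotX z (cN N x), muN x, p N x)
      rw [hm N x hx hx2, muN_eq hx2]) f f' u v t hf hf' hu hv ht
  have e1 : ((P.withDensity fun y => ENNReal.ofReal (E y)).map fun y => Θ (y, mu y, Φ y)) =
      (P.withDensity fun y => ENNReal.ofReal (E y)).map fun y => Θ (y, muG y, Φ y) := by
    refine Measure.map_congr ?_
    have h2 : ∀ᵐ y ∂(P.withDensity fun y => ENNReal.ofReal (E y)), 0 < y.2.1 ∧ y.2.1 < y.1 :=
      (withDensity_absolutelyContinuous _ _).ae_le hP
    filter_upwards [h2] with y hy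
    rw [muG_eq hy.1 hy.2]
  rw [e1]
  exact h1

/-- the data of the limit are measurable -/
lemma mk_meas {κ : Type*} [Fintype κ] {Φ : CC.Gm → κ → ℝ} (hΦ : ∀ k, Measurable fun y => Φ y k) {Y : Type*}
    [TopologicalSpace Y] [MeasurableSpace Y] [BorelSpace Y] {Θ : CC.Gm × ℝ × (κ → ℝ) → Y} (hΘ : Continuous Θ) :
    Measurable fun y => Θ (y, mu y, Φ y) :=
  hΘ.measurable.comp (measurable_id.prodMk (mu_meas.prodMk (measurable_pi_iff.2 hΦ)))

/-- and their law is finite -/
lemma mk_fin {l : Filter ℕ} {μ : ℕ → Measure (W3 × ℕ)} {c : ℕ → W3 × ℕ → CC.Gm} {P : Measure CC.Gm} (hC : Cv l μ c P)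
    {e : ℕ → W3 × ℕ → ℝ} {E : CC.Gm → ℝ} (he : Lm l μ c P e E) {Y : Type*} [MeasurableSpace Y] (f : CC.Gm → Y) :
    IsFiniteMeasure ((P.withDensity fun y => ENNReal.ofReal (E y)).map f) := by
  have := hC.fin'
  obtain ⟨C, hb⟩ := he.bd'
  have := fin_wt (μ := P) he.ms' hb
  exact Measure.isFiniteMeasure_map _ f

/-! ### 4. Countably many levels -/

section glue

variable {Γ M : Type*} [MeasurableSpace Γ] [MeasurableSpace M]

/-- **the active class as one class** : `a j` = the class `j` is active -/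
theorem act_glue {J : Type*} [Countable J] [Nonempty M] {P : Measure Γ} {w : J → Γ → ℝ≥0∞} (hw : ∀ j, Measurable (w j))
    {m : J → Γ → M} (hm : ∀ j, Measurable (m j)) {a : J → Set Γ} (ha : ∀ j, MeasurableSet (a j))
    (hu : ∀ᵐ g ∂P, ∀ i j, g ∈ a i → g ∈ a j → i = j) :
    ∃ (wR : Γ → ℝ≥0∞) (mR : Γ → M), Measurable wR ∧ Measurable mR ∧
      ∀ᵐ g ∂P, (∀ j, g ∈ a j → w j g = wR g ∧ m j g = mR g) ∧ (wR g ≠ 0 → ∃ j, g ∈ a j) := by
  obtain ⟨x0⟩ := ‹Nonempty M›
  -- the part of the class `j` outside of the others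
  obtain ⟨A, hA⟩ : ∃ A : J → Set Γ, A = fun j => a j \ ⋃ i ∈ {i | i ≠ j}, a i := ⟨_, rfl⟩
  have mA : ∀ j, MeasurableSet (A j) := fun j => by
    rw [hA]
    exact (ha j).diff (MeasurableSet.biUnion (to_countable _) fun i _ => ha i)
  have dA : ∀ i j, i ≠ j → ∀ g, g ∈ A i → g ∈ A j → False := by
    intro i j hij g h1 h2
    rw [hA] at h1 h2
    exact h1.2 (mem_iUnion₂.2 ⟨j, hij.symm, h2.1⟩)
  obtain ⟨G, hG⟩ : ∃ G : Option J → Γ → ℝ≥0∞ × M, G = fun j => j.elim (fun _ => (0, x0)) fun j g => (w j g, m j g) := ⟨_, rfl⟩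
  obtain ⟨S, hS⟩ : ∃ S : Option J → Set Γ, S = fun j => j.elim (⋃ i, a i)ᶜ A := ⟨_, rfl⟩
  have S0 : S none = (⋃ i, a i)ᶜ := by rw [hS]; rfl
  have S1 : ∀ j, S (some j) = A j := fun j => by rw [hS]; rfl
  have mS : ∀ j, MeasurableSet (S j) := fun j => by
    cases j with
    | none =>
      rw [S0]
      exact (MeasurableSet.iUnion ha).compl
    | some j =>
      rw [S1]
      exact mA j
  have mG : ∀ j, Measurable (G j) := fun j => by
    rw [hG]
    cases j with
    | none => exact measurable_const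
    | some j => exact (hw j).prodMk (hm j)
  have dS : ∀ i j, i ≠ j → ∀ g, g ∈ S i → g ∈ S j → False := by
    intro i j hij g h1 h2
    cases i with
    | none =>
      cases j with
      | none => exact hij rfl
      | some j =>
        rw [S0] at h1
        rw [S1, hA] at h2
        exact h1 (mem_iUnion.2 ⟨j, h2.1⟩)
    | some i =>
      cases j with
      | none =>
        rw [S0] at h2
        rw [S1, hA] at h1
        exact h2 (mem_iUnion.2 ⟨i, h1.1⟩)
      | some j =>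
        rw [S1] at h1 h2
        exact dA i j (fun h => hij (congrArg some h)) g h1 h2
  obtain ⟨F, k1, k2⟩ := exists_measurable_piecewise S mS G mG fun i j hij g hg => (dS i j hij g hg.1 hg.2).elim
  refine ⟨fun g => (F g).1, fun g => (F g).2, measurable_fst.comp k1, measurable_snd.comp k1, ?_⟩
  filter_upwards [hu] with g hg
  refine ⟨fun j hj => ?_, fun h => ?_⟩
  · have h1 : g ∈ A j := by
      rw [hA]
      refine ⟨hj, fun h => ?_⟩
      obtain ⟨i, hi, hi2⟩ := mem_iUnion₂.1 h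
      exact hi (hg i j hi2 hj)
    have h2 := k2 (some j) (by rw [S1]; exact h1)
    show w j g = (F g).1 ∧ m j g = (F g).2
    rw [h2, hG]
    exact ⟨rfl, rfl⟩
  · by_contra hne
    have h2 := k2 none (by rw [S0]; exact fun h3 => hne (mem_iUnion.1 h3))
    refine h ?_
    show (F g).1 = 0
    rw [h2, hG]
    rfl

/-- **the marks with variable threshold** : if a.e. at most one pair of levels is active, there are `wR`, `mR` with `MarkOf` -/
theorem mark_glue {Kp Kq A B E : Type*} [MeasurableSpace Kp] [MeasurableSpace Kq] [MeasurableSpace A] [MeasurableSpace B]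
    [MeasurableSpace E] [Nonempty Kp] [Nonempty Kq] [Nonempty A] [Nonempty B] [Nonempty E] {P : Measure Γ}
    {w : ℕ → ℕ → Γ → ℝ≥0∞} {m : ℕ → ℕ → Γ → (Kp × Kq) × (A × (B × E))} {Ep : ℕ → Set Kp} {Eq' : ℕ → Set Kq}
    (hw : ∀ i j, Measurable (w i j)) (hm : ∀ i j, Measurable (m i j)) (hEp : ∀ i, MeasurableSet (Ep i))
    (hEq : ∀ i, MeasurableSet (Eq' i))
    (hu : ∀ᵐ g ∂P, ∀ i j i' j', (m i j g).1.1 ∈ Ep i → (m i j g).1.2 ∈ Eq' j → w i j g ≠ 0 → (m i' j' g).1.1 ∈ Ep i' →
      (m i' j' g).1.2 ∈ Eq' j' → w i' j' g ≠ 0 → i = i' ∧ j = j') :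
    ∃ (wR : Γ → ℝ≥0∞) (mR : Γ → (Kp × Kq) × (A × (B × E))), Measurable wR ∧ Measurable mR ∧
      MarkOf P w m Ep Eq' wR mR := by
  obtain ⟨wR, mR, h1, h2, h3⟩ := act_glue (P := P) (J := ℕ × ℕ) (w := fun p => w p.1 p.2) (m := fun p => m p.1 p.2)
    (a := fun p => {g | (m p.1 p.2 g).1.1 ∈ Ep p.1 ∧ (m p.1 p.2 g).1.2 ∈ Eq' p.2 ∧ w p.1 p.2 g ≠ 0}) (fun p => hw _ _)
    (fun p => hm _ _) (fun p => by
      refine MeasurableSet.inter ?_ (MeasurableSet.inter ?_ ?_)
      · exact (measurable_fst.comp (measurable_fst.comp (hm p.1 p.2))) (hEp p.1)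
      · exact (measurable_snd.comp (measurable_fst.comp (hm p.1 p.2))) (hEq p.2)
      · exact (hw p.1 p.2) (measurableSet_singleton 0).compl) (by
      filter_upwards [hu] with g hg
      rintro ⟨i, j⟩ ⟨i', j'⟩ ⟨a1, a2, a3⟩ ⟨b1, b2, b3⟩
      obtain ⟨c1, c2⟩ := hg i j i' j' a1 a2 a3 b1 b2 b3
      exact Prod.ext c1 c2)
  refine ⟨wR, mR, h1, h2, ?_⟩
  filter_upwards [h3, hu] with g g1 g2
  refine ⟨fun i j a1 a2 a3 => g1.1 (i, j) ⟨a1, a2, a3⟩, g2, fun h => ?_⟩
  obtain ⟨⟨i, j⟩, a1, a2, a3⟩ := g1.2 h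
  exact ⟨i, j, a1, a2, a3⟩

end glue

end Pool.Agent.ROT.F3.CK
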