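import Pool.Agent.ROT.F3PieA

/-!
# ROT, block F3, row K7 (LOC): pieces of strands (helper66)

`PieX R S X i m` : the piece of `m` steps behind `i` of the strand `X`, with margins (see `Pie` of F3PieA for walks).
-/

set_option autoImplicit false

namespace Pool.Agent.ROT.F3.K7

open Pool.Agent.NTS.Res

/-- **a piece of a strand** -/
structure PieX (R S : ℝ) {l : ℕ} (X : Fin l → Fin 3) (i m : ℕ) : Prop where
  ev : Even i
  hm : i + m ≤ l
  ball : ∀ k : ℕ, k ≤ i → ‖pos X k‖ ≤ R / 4 * S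
  lev : ∀ k : ℕ, k ≤ i → (pos X k).re ≤ (pos X i).re + R / 32 * S
  far : ∀ k : ℕ, i + m ≤ k → k ≤ l → 502 * R * S ≤ ‖pos X k‖

end Pool.Agent.ROT.F3.K7
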