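import Pool.Agent.ROT.F3MacU
import Pool.Agent.ROT.F3K7D

/-!
# ROT, block F3, row K7: curves of pieces (helper71, literal of helper66)

`T = N ^ (4 / 3)`; points `(duration, curve)` of `ℝ × CI`, `XS N X` = the point of the strand `X`.

* `pa p u` : the position at the absolute time `u`; `ctp p t e` : the piece from the time `t` to the time `e`, from `0`;
* `PieX.pie` : a piece of a strand (`PieX`) is a piece (`Pie`);
* **`pa_XS`**, **`xs_md`** : words;
* **`ctp_near`** : the pieces depend continuously on the point and on the two times; **`pieX_near`** : close words have the piece;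
  **`ex_im`** : even starts and ends close to given times.
-/

set_option autoImplicit false

open Set Filter Topology MeasureTheory

namespace Pool.Agent.ROT.F3.K7

open Pool.Agent.NTS.Res
open Pool.Agent.CRT (CI)
open Pool.Agent.SCF.Z Pool.Agent.SCF.M
open Pool.Agent.ROT.F3 (cv cv_poly)

/-! ### 1. definitions -/

/-- the projection to the unit interval -/
noncomputable def pk (x : ℝ) : unitInterval := Set.projIcc 0 1 zero_le_one x

/-- position at the absolute time `u` -/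
noncomputable def pa (p : ℝ × CI) (u : ℝ) : ℂ := p.2 (pk (u / p.1))

lemma pk_cont : Continuous pk := continuous_projIcc (h := zero_le_one)

lemma pa_cont (p : ℝ × CI) : Continuous (pa p) := by
  unfold pa
  exact p.2.continuous.comp (pk_cont.comp (continuous_id.div_const p.1))

/-- the piece from the time `t` to the time `e`, starting at `0` -/
noncomputable def ctp (p : ℝ × CI) (t e : ℝ) : ℝ × CI :=
  (e - t, ⟨fun s => pa p (t + s * (e - t)) - pa p t, by
    exact ((pa_cont p).comp (by fun_prop)).sub continuous_const⟩)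

lemma ctp_fst (p : ℝ × CI) (t e : ℝ) : (ctp p t e).1 = e - t := rfl

lemma ctp_apply (p : ℝ × CI) (t e : ℝ) (s : unitInterval) : (ctp p t e).2 s = pa p (t + s * (e - t)) - pa p t := rfl

lemma PieX.pie {R S : ℝ} {l : ℕ} {X : Fin l → Fin 3} {i m : ℕ} (h : PieX R S X i m) (hR : 0 ≤ R) (hS : 0 ≤ S) :
    Pie R S X i m := by
  have h0 : 0 ≤ R * S := mul_nonneg hR hS
  refine ⟨h.ev, h.hm, fun k hk => (h.ball k hk).trans ?_, fun k hk => (h.lev k hk).trans ?_, fun k h1 h2 => le_trans ?_ (h.far k h1 h2)⟩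
  · have e1 : R / 4 * S = R * S / 4 := by ring
    have e2 : R / 2 * S = R * S / 2 := by ring
    rw [e1, e2]
    linarith
  · have e1 : R / 32 * S = R * S / 32 := by ring
    have e2 : R / 16 * S = R * S / 16 := by ring
    rw [e1, e2]
    linarith
  · linarith

/-! ### 2. words -/

lemma pk_of {x : ℝ} (h0 : 0 ≤ x) (h1 : x ≤ 1) : ((pk x : unitInterval) : ℝ) = x := by
  unfold pk
  rw [projIcc_of_mem zero_le_one ⟨h0, h1⟩]

lemma T_pos {N : ℝ} (hN : 0 < N) : 0 < N ^ (4 / 3 : ℝ) := Real.rpow_pos_of_pos hN _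

/-- the curve of a word at an intermediate time -/
lemma pa_mid {l : ℕ} {N : ℝ} (hl : 1 ≤ l) (hN : 0 < N) (X : Fin l → Fin 3) {k : ℕ} (hk : k < l) {x : ℝ} (h1 : (k : ℝ) ≤ x)
    (h2 : x ≤ k + 1) : pa (XS N X) (x / N ^ (4 / 3 : ℝ)) =
      (pos X k + ((x - k : ℝ) : ℂ) * (pos X (k + 1) - pos X k)) / N := by
  have hT := T_pos hN
  have hl0 : (0 : ℝ) < l := by exact_mod_cast hl
  have hkl : (k : ℝ) + 1 ≤ l := by exact_mod_cast hk
  have e1 : x / N ^ (4 / 3 : ℝ) / ((l : ℝ) / N ^ (4 / 3 : ℝ)) = x / l := by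
    field_simp
  have k0 : (0 : ℝ) ≤ k := Nat.cast_nonneg k
  have hx : ((pk (x / l) : unitInterval) : ℝ) = x / l := pk_of (div_nonneg (k0.trans h1) hl0.le) (by
    rw [div_le_one hl0]
    linarith)
  have hx2 : ((pk (x / l) : unitInterval) : ℝ) * l = x := by
    rw [hx]
    field_simp
  show cv N X (pk (x / N ^ (4 / 3 : ℝ) / ((l : ℝ) / N ^ (4 / 3 : ℝ)))) = _
  rw [e1, cv_poly hl N X hk (by rw [hx2]; exact h1) (by rw [hx2]; exact h2), hx]
  congr 3
  push_cast
  have : (l : ℂ) ≠ 0 := by exact_mod_cast hl0.ne'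
  field_simp

/-- **(C1)** the vertices -/
theorem pa_XS {l : ℕ} {N : ℝ} (hl : 1 ≤ l) (hN : 0 < N) (X : Fin l → Fin 3) {k : ℕ} (hk : k ≤ l) :
    pa (XS N X) ((k : ℝ) / N ^ (4 / 3 : ℝ)) = pos X k / N := by
  rcases eq_or_lt_of_le hk with h | h
  · have h1 : k - 1 < l := by omega
    have e : ((k - 1 : ℕ) : ℝ) = k - 1 := by
      rw [Nat.cast_sub (by omega)]
      push_cast
      ring
    rw [pa_mid hl hN X h1 (x := (k : ℝ)) (by rw [e]; linarith) (by rw [e]; linarith), e]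
    have e2 : k - 1 + 1 = k := by omega
    rw [e2]
    congr 1
    push_cast
    ring
  · rw [pa_mid hl hN X h (x := (k : ℝ)) le_rfl (by linarith)]
    congr 1
    push_cast
    ring

/-- **(C2)** the curve of a piece -/
theorem xs_md {l : ℕ} {N : ℝ} (hN : 0 < N) (X : Fin l → Fin 3) {i m : ℕ} (hi : Even i) (hm : 1 ≤ m) (him : i + m ≤ l) :
    XS N (md X i m) = ctp (XS N X) ((i : ℝ) / N ^ (4 / 3 : ℝ)) (((i + m : ℕ) : ℝ) / N ^ (4 / 3 : ℝ)) := by
  have hT := T_pos hN
  have e0 : ((i + m : ℕ) : ℝ) / N ^ (4 / 3 : ℝ) - (i : ℝ) / N ^ (4 / 3 : ℝ) = (m : ℝ) / N ^ (4 / 3 : ℝ) := by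
    push_cast
    ring
  refine Prod.ext ?_ ?_
  · rw [ctp_fst, e0]
    rfl
  · ext s
    rw [ctp_apply, e0]
    obtain ⟨j, hj, h1, h2⟩ := Tight.th2_idx hm s
    have hl : 1 ≤ l := by omega
    have e1 : (i : ℝ) / N ^ (4 / 3 : ℝ) + s * ((m : ℝ) / N ^ (4 / 3 : ℝ)) = ((i : ℝ) + s * m) / N ^ (4 / 3 : ℝ) := by ring
    show cv N (md X i m) s = _
    rw [cv_poly hm N (md X i m) hj h1 h2, e1, pa_XS hl hN X (by omega : i ≤ l),
      pa_mid hl hN X (k := i + j) (by omega) (x := (i : ℝ) + s * m) (by push_cast; linarith) (by push_cast; linarith),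
      pos_md X hi him j hj.le, pos_md X hi him (j + 1) (by omega)]
    have e2 : i + (j + 1) = i + j + 1 := by omega
    rw [e2]
    push_cast
    ring

/-! ### 3. continuity -/

lemma pk_lip (x y : ℝ) : |((pk x : unitInterval) : ℝ) - pk y| ≤ |x - y| := by
  unfold pk
  rw [coe_projIcc, coe_projIcc]
  have h1 := abs_max_sub_max_le_abs (min 1 x) (min 1 y) 0
  have h2 := abs_min_sub_min_le_max 1 x 1 y
  rw [sub_self, abs_zero, max_eq_right (abs_nonneg _)] at h2
  rw [max_comm 0, max_comm 0]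
  exact h1.trans h2

/-- other durations -/
lemma pk_div {p q : ℝ} (hp : 0 < p) (hq : 0 < q) (u : ℝ) : |((pk (u / p) : unitInterval) : ℝ) - pk (u / q)| ≤ |p - q| / q := by
  -- both durations beyond the time, or both values given by the formula
  have key : ∀ {a b : ℝ}, 0 < a → 0 < b → a ≤ b → ∀ u : ℝ, |((pk (u / a) : unitInterval) : ℝ) - pk (u / b)| ≤ (b - a) / b := by
    intro a b ha hb hab u
    have h0 : 0 ≤ (b - a) / b := div_nonneg (by linarith) hb.le
    rcases le_or_gt u 0 with h1 | h1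
    · have e1 : pk (u / a) = 0 := by
        unfold pk
        rw [projIcc_of_le_left zero_le_one (div_nonpos_of_nonpos_of_nonneg h1 ha.le)]
        rfl
      have e2 : pk (u / b) = 0 := by
        unfold pk
        rw [projIcc_of_le_left zero_le_one (div_nonpos_of_nonpos_of_nonneg h1 hb.le)]
        rfl
      rw [e1, e2, sub_self, abs_zero]
      exact h0
    rcases le_or_gt b u with h2 | h2
    · have e1 : pk (u / a) = 1 := by
        unfold pk
        rw [projIcc_of_right_le zero_le_one (by rw [le_div_iff₀ ha]; linarith)]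
        rfl
      have e2 : pk (u / b) = 1 := by
        unfold pk
        rw [projIcc_of_right_le zero_le_one (by rw [le_div_iff₀ hb]; linarith)]
        rfl
      rw [e1, e2, sub_self, abs_zero]
      exact h0
    have e2 : ((pk (u / b) : unitInterval) : ℝ) = u / b := pk_of (div_nonneg h1.le hb.le) (by
      rw [div_le_one hb]
      exact h2.le)
    rcases le_or_gt u a with h3 | h3
    · have e1 : ((pk (u / a) : unitInterval) : ℝ) = u / a := pk_of (div_nonneg h1.le ha.le) (by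
        rw [div_le_one ha]
        exact h3)
      rw [e1, e2, abs_of_nonneg (sub_nonneg.2 (div_le_div_of_nonneg_left h1.le ha hab))]
      rw [sub_le_iff_le_add, ← add_div, div_le_div_iff₀ ha hb]
      nlinarith
    · have e1 : pk (u / a) = 1 := by
        unfold pk
        rw [projIcc_of_right_le zero_le_one (by rw [le_div_iff₀ ha]; linarith)]
        rfl
      have e3 : ((1 : unitInterval) : ℝ) = 1 := rfl
      rw [e1, e2, e3]
      have h4 : u / b ≤ 1 := by
        rw [div_le_one hb]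
        exact h2.le
      rw [abs_of_nonneg (by linarith), le_div_iff₀ hb, sub_mul, div_mul_cancel₀ _ hb.ne']
      linarith
  rcases le_total p q with h | h
  · refine (key hp hq h u).trans ?_
    rw [abs_sub_comm, abs_of_nonneg (by linarith)]
  · rw [abs_sub_comm]
    refine (key hq hp h u).trans ?_
    rw [abs_of_nonneg (by linarith : (0 : ℝ) ≤ p - q)]
    exact div_le_div_of_nonneg_left (by linarith) hq h

/-- uniform continuity of a curve -/
lemma uc_curve (γ : CI) {η : ℝ} (hη : 0 < η) : ∃ δ : ℝ, 0 < δ ∧ ∀ x y : unitInterval, |(x : ℝ) - y| ≤ δ → ‖γ x - γ y‖ ≤ η := by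
  have h := CompactSpace.uniformContinuous_of_continuous γ.continuous
  rw [Metric.uniformContinuous_iff] at h
  obtain ⟨δ, hδ, h2⟩ := h η hη
  refine ⟨δ / 2, by linarith, fun x y hxy => ?_⟩
  have h3 : dist x y < δ := by
    rw [Subtype.dist_eq, Real.dist_eq]
    linarith
  have := h2 h3
  rw [dist_eq_norm] at this
  exact this.le

/-- the position depends continuously on the point and on the time, uniformly in the time -/
lemma pa_near {sg : ℝ × CI} (h0 : 0 < sg.1) {η : ℝ} (hη : 0 < η) : ∃ δ : ℝ, 0 < δ ∧ ∀ p : ℝ × CI, dist p sg ≤ δ →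
    ∀ u u' : ℝ, |u - u'| ≤ δ → ‖pa p u' - pa sg u‖ ≤ η := by
  obtain ⟨δ1, h1, h2⟩ := uc_curve sg.2 (half_pos hη)
  obtain ⟨δ, hδ⟩ : ∃ δ, δ = min (min (η / 2) (sg.1 / 2)) (δ1 * sg.1 / 4) := ⟨_, rfl⟩
  have d0 : 0 < δ := by
    rw [hδ]
    positivity
  have d1 : δ ≤ η / 2 := by rw [hδ]; exact (min_le_left _ _).trans (min_le_left _ _)
  have d2 : δ ≤ sg.1 / 2 := by rw [hδ]; exact (min_le_left _ _).trans (min_le_right _ _)
  have d3 : δ ≤ δ1 * sg.1 / 4 := by rw [hδ]; exact min_le_right _ _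
  refine ⟨δ, d0, fun p hp u u' huu => ?_⟩
  have p1 : |p.1 - sg.1| ≤ δ := by
    rw [← Real.dist_eq]
    exact (le_max_left _ _).trans hp
  have p2 : dist p.2 sg.2 ≤ δ := (le_max_right _ _).trans hp
  have p1' := abs_le.1 p1
  have hp0 : 0 < p.1 := by linarith
  have q1 : |((pk (u' / p.1) : unitInterval) : ℝ) - pk (u' / sg.1)| ≤ δ / sg.1 :=
    (pk_div hp0 h0 u').trans (div_le_div_of_nonneg_right p1 h0.le)
  have q2 : |((pk (u' / sg.1) : unitInterval) : ℝ) - pk (u / sg.1)| ≤ δ / sg.1 := by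
    refine (pk_lip _ _).trans ?_
    rw [← sub_div, abs_div, abs_of_pos h0, abs_sub_comm]
    exact div_le_div_of_nonneg_right huu h0.le
  have q3 : |((pk (u' / p.1) : unitInterval) : ℝ) - pk (u / sg.1)| ≤ δ1 := by
    have q4 : δ / sg.1 ≤ δ1 / 4 := by
      rw [div_le_iff₀ h0]
      linarith
    have q5 := abs_sub_le ((pk (u' / p.1) : unitInterval) : ℝ) (pk (u' / sg.1)) (pk (u / sg.1))
    linarith
  have q6 : ‖p.2 (pk (u' / p.1)) - sg.2 (pk (u' / p.1))‖ ≤ δ := by
    rw [← dist_eq_norm]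
    exact (ContinuousMap.dist_apply_le_dist _).trans p2
  unfold pa
  calc ‖p.2 (pk (u' / p.1)) - sg.2 (pk (u / sg.1))‖
      = ‖(p.2 (pk (u' / p.1)) - sg.2 (pk (u' / p.1))) + (sg.2 (pk (u' / p.1)) - sg.2 (pk (u / sg.1)))‖ := by
        congr 1; ring
    _ ≤ δ + η / 2 := (norm_add_le _ _).trans (add_le_add q6 (h2 _ _ q3))
    _ ≤ η := by linarith

/-- **(C3)** the pieces depend continuously on the point and on the two times -/
theorem ctp_near {sg : ℝ × CI} {t e : ℝ} (h0 : 0 < sg.1) (_ht : 0 ≤ t) (_hte : t < e) (_he : e ≤ sg.1) {η : ℝ} (hη : 0 < η) :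
    ∃ δ : ℝ, 0 < δ ∧ ∀ (p : ℝ × CI) (t' e' : ℝ), dist p sg ≤ δ → |t' - t| ≤ δ → |e' - e| ≤ δ →
      dist (ctp p t' e') (ctp sg t e) ≤ η ∧ ∀ u u' : ℝ, |u - u'| ≤ δ → ‖pa p u' - pa sg u‖ ≤ η := by
  obtain ⟨δ, d0, hδ⟩ := pa_near h0 (half_pos hη)
  refine ⟨min δ (η / 2), by positivity, fun p t' e' hp ht' he' => ⟨?_, fun u u' huu => ?_⟩⟩
  · have k1 : min δ (η / 2) ≤ δ := min_le_left _ _
    have k2 : min δ (η / 2) ≤ η / 2 := min_le_right _ _
    rw [Prod.dist_eq]
    refine max_le ?_ ?_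
    · rw [ctp_fst, ctp_fst, Real.dist_eq]
      have e1 : e' - t' - (e - t) = (e' - e) - (t' - t) := by ring
      rw [e1]
      refine (abs_sub _ _).trans ?_
      linarith
    · rw [ContinuousMap.dist_le hη.le]
      intro s
      rw [ctp_apply, ctp_apply, dist_eq_norm]
      have s0 : (0 : ℝ) ≤ s := s.2.1
      have s1 : (s : ℝ) ≤ 1 := s.2.2
      have g1 : |(t + s * (e - t)) - (t' + s * (e' - t'))| ≤ δ := by
        have e2 : (t + s * (e - t)) - (t' + s * (e' - t')) = (1 - s) * (t - t') + s * (e - e') := by ring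
        rw [e2]
        refine (abs_add_le _ _).trans ?_
        rw [abs_mul, abs_mul, abs_of_nonneg s0, abs_of_nonneg (by linarith : (0 : ℝ) ≤ 1 - s), abs_sub_comm t t',
          abs_sub_comm e e']
        have h1 := mul_le_mul_of_nonneg_left (ht'.trans k1) (by linarith : (0 : ℝ) ≤ 1 - s)
        have h2 := mul_le_mul_of_nonneg_left (he'.trans k1) s0
        linarith
      have g2 := hδ p (hp.trans k1) _ _ g1
      have g3 := hδ p (hp.trans k1) t t' (by rw [abs_sub_comm]; exact ht'.trans k1)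
      have e3 : pa p (t' + s * (e' - t')) - pa p t' - (pa sg (t + s * (e - t)) - pa sg t) =
          (pa p (t' + s * (e' - t')) - pa sg (t + s * (e - t))) - (pa p t' - pa sg t) := by ring
      rw [e3]
      refine (norm_sub_le _ _).trans ?_
      linarith
  · refine (hδ p (hp.trans (min_le_left _ _)) u u' (huu.trans (min_le_left _ _))).trans ?_
    linarith

/-! ### 4. pieces of close words -/

/-- **(C4)** close words have the piece -/
theorem pieX_near {sg : ℝ × CI} {R t e : ℝ} (hR : 0 < R) (h0 : 0 < sg.1) (ht : 0 ≤ t) (_hte : t < e) (he : e ≤ sg.1)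
    (hball : ∀ u ∈ Icc 0 t, ‖pa sg u‖ ≤ R / 8 ∧ (pa sg u).re ≤ (pa sg t).re + R / 64)
    (hfar : ∀ u ∈ Icc e sg.1, 510 * R ≤ ‖pa sg u‖) :
    ∃ δ : ℝ, 0 < δ ∧ ∀ (N : ℝ) (l : ℕ) (X : Fin l → Fin 3) (i m : ℕ), 1 ≤ l → 0 < N → dist (XS N X) sg ≤ δ → Even i →
      i + m ≤ l → |(i : ℝ) / N ^ (4 / 3 : ℝ) - t| ≤ δ → |((i + m : ℕ) : ℝ) / N ^ (4 / 3 : ℝ) - e| ≤ δ → PieX R N X i m := by
  obtain ⟨δ, d0, hδ⟩ := pa_near h0 (show 0 < R / 128 by linarith)
  refine ⟨δ, d0, fun N l X i m hl hN hd hi him h1 h2 => ?_⟩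
  have hT := T_pos hN
  have h1' := abs_le.1 h1
  have h2' := abs_le.1 h2
  have hN0 : (N : ℂ) ≠ 0 := by exact_mod_cast hN.ne'
  have hl1 : |(l : ℝ) / N ^ (4 / 3 : ℝ) - sg.1| ≤ δ := by
    have h3 : dist (XS N X).1 sg.1 ≤ δ := (le_max_left _ _).trans hd
    rwa [Real.dist_eq] at h3
  have hl1' := abs_le.1 hl1
  -- the vertex `k` and a time
  have near : ∀ (k : ℕ) (u : ℝ), k ≤ l → |u - (k : ℝ) / N ^ (4 / 3 : ℝ)| ≤ δ → ‖pos X k / N - pa sg u‖ ≤ R / 128 := by
    intro k u hk hu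
    have h3 := hδ (XS N X) hd u _ hu
    rwa [pa_XS hl hN X hk] at h3
  have mono : ∀ {j k : ℕ}, j ≤ k → (j : ℝ) / N ^ (4 / 3 : ℝ) ≤ (k : ℝ) / N ^ (4 / 3 : ℝ) := fun h =>
    div_le_div_of_nonneg_right (by exact_mod_cast h) hT.le
  have nonneg : ∀ k : ℕ, (0 : ℝ) ≤ (k : ℝ) / N ^ (4 / 3 : ℝ) := fun k => by positivity
  have nrm : ∀ z : ℂ, ‖z‖ = ‖z / N‖ * N := by
    intro z
    rw [norm_div, Complex.norm_real, Real.norm_eq_abs, abs_of_pos hN]
    field_simp
  have rex : ∀ z : ℂ, z.re = (z / N).re * N := by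
    intro z
    have e1 : (z / N) * N = z := by field_simp
    have e2 := congrArg Complex.re e1
    rw [Complex.mul_re, Complex.ofReal_re, Complex.ofReal_im, mul_zero, sub_zero] at e2
    exact e2.symm
  -- the times of the initial vertices
  have start : ∀ k : ℕ, k ≤ i → ∃ u ∈ Icc 0 t, |u - (k : ℝ) / N ^ (4 / 3 : ℝ)| ≤ δ := by
    intro k hk
    have h3 := mono hk
    refine ⟨min ((k : ℝ) / N ^ (4 / 3 : ℝ)) t, ⟨le_min (nonneg k) ht, min_le_right _ _⟩, ?_⟩
    rcases le_total ((k : ℝ) / N ^ (4 / 3 : ℝ)) t with h4 | h4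
    · rw [min_eq_left h4, sub_self, abs_zero]
      exact d0.le
    · rw [min_eq_right h4, abs_sub_comm, abs_of_nonneg (by linarith)]
      linarith
  refine ⟨hi, him, fun k hk => ?_, fun k hk => ?_, fun k hk hkl => ?_⟩
  · obtain ⟨u, hu, hu2⟩ := start k hk
    have h3 := near k u (by omega) hu2
    have h4 := (hball u hu).1
    have h5 : ‖pos X k / N‖ ≤ R / 4 := by
      calc ‖pos X k / N‖ = ‖(pos X k / N - pa sg u) + pa sg u‖ := by congr 1; ring
        _ ≤ R / 128 + R / 8 := (norm_add_le _ _).trans (add_le_add h3 h4)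
        _ ≤ R / 4 := by linarith
    rw [nrm]
    exact mul_le_mul_of_nonneg_right h5 hN.le
  · obtain ⟨u, hu, hu2⟩ := start k hk
    have h3 := near k u (by omega) hu2
    have h4 := (hball u hu).2
    have h5 := near i t (by omega) (by rw [abs_sub_comm]; exact h1)
    have h6 : |(pos X k / N).re - (pa sg u).re| ≤ R / 128 := by
      rw [← Complex.sub_re]
      exact (Complex.abs_re_le_norm _).trans h3
    have h7 : |(pos X i / N).re - (pa sg t).re| ≤ R / 128 := by
      rw [← Complex.sub_re]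
      exact (Complex.abs_re_le_norm _).trans h5
    have h6' := abs_le.1 h6
    have h7' := abs_le.1 h7
    rw [rex (pos X k), rex (pos X i), ← add_mul]
    refine mul_le_mul_of_nonneg_right ?_ hN.le
    linarith
  · have h3 := mono hk
    have h4 := mono hkl
    obtain ⟨u, hu, hu2⟩ : ∃ u ∈ Icc e sg.1, |u - (k : ℝ) / N ^ (4 / 3 : ℝ)| ≤ δ := by
      refine ⟨min (max ((k : ℝ) / N ^ (4 / 3 : ℝ)) e) sg.1, ⟨le_min (le_max_right _ _) he, min_le_right _ _⟩, ?_⟩
      rcases le_total ((k : ℝ) / N ^ (4 / 3 : ℝ)) e with h5 | h5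
      · rw [max_eq_right h5, min_eq_left he, abs_of_nonneg (by linarith)]
        linarith
      · rw [max_eq_left h5]
        rcases le_total ((k : ℝ) / N ^ (4 / 3 : ℝ)) sg.1 with h6 | h6
        · rw [min_eq_left h6, sub_self, abs_zero]
          exact d0.le
        · rw [min_eq_right h6, abs_sub_comm, abs_of_nonneg (by linarith)]
          linarith
    have h5 := near k u hkl hu2
    have h6 := hfar u hu
    have h7 : ‖pa sg u‖ ≤ R / 128 + ‖pos X k / N‖ := by
      calc ‖pa sg u‖ = ‖-(pos X k / N - pa sg u) + pos X k / N‖ := by congr 1; ring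
        _ ≤ R / 128 + ‖pos X k / N‖ := (norm_add_le _ _).trans (add_le_add (by rw [norm_neg]; exact h5) le_rfl)
    rw [nrm]
    refine mul_le_mul_of_nonneg_right ?_ hN.le
    linarith

/-- **(C5)** even starts and ends close to given times -/
theorem ex_im {sg : ℝ × CI} {t e : ℝ} (ht : 0 ≤ t) (hte : t < e) (he : e ≤ sg.1) {δ : ℝ} (hδ : 0 < δ) :
    ∃ δ' N0 : ℝ, 0 < δ' ∧ 1 ≤ N0 ∧ ∀ (N : ℝ) (l : ℕ) (X : Fin l → Fin 3), N0 ≤ N → dist (XS N X) sg ≤ δ' →
      ∃ i m : ℕ, Even i ∧ 1 ≤ m ∧ i + m ≤ l ∧ |(i : ℝ) / N ^ (4 / 3 : ℝ) - t| ≤ δ ∧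
        |((i + m : ℕ) : ℝ) / N ^ (4 / 3 : ℝ) - e| ≤ δ := by
  obtain ⟨δ', hδ'⟩ : ∃ δ', δ' = min δ ((e - t) / 2) := ⟨_, rfl⟩
  have d0 : 0 < δ' := by
    rw [hδ']
    exact lt_min hδ (by linarith)
  have d1 : δ' ≤ δ := by rw [hδ']; exact min_le_left _ _
  have d2 : δ' ≤ (e - t) / 2 := by rw [hδ']; exact min_le_right _ _
  refine ⟨δ', max 1 (2 / δ'), d0, le_max_left _ _, fun N l X hN hd => ?_⟩
  have hN1 : 1 ≤ N := (le_max_left _ _).trans hN
  have hN0 : 0 < N := by linarith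
  have hT := T_pos hN0
  have hT2 : 2 / δ' ≤ N ^ (4 / 3 : ℝ) :=
    ((le_max_right _ _).trans hN).trans (Real.self_le_rpow_of_one_le hN1 (by norm_num))
  obtain ⟨T, hTd⟩ : ∃ T, T = N ^ (4 / 3 : ℝ) := ⟨_, rfl⟩
  rw [← hTd] at hT hT2 ⊢
  have hl1 : |(l : ℝ) / T - sg.1| ≤ δ' := by
    have h3 : dist (XS N X).1 sg.1 ≤ δ' := (le_max_left _ _).trans hd
    rw [Real.dist_eq] at h3
    rw [hTd]
    exact h3
  have hl1' := abs_le.1 hl1
  -- `2 ≤ δ' T`
  have h2T : 2 ≤ δ' * T := by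
    rw [div_le_iff₀ d0] at hT2
    linarith
  have hlT : (e - δ') * T ≤ l := by
    have h3 : e - δ' ≤ (l : ℝ) / T := by linarith
    rwa [le_div_iff₀ hT] at h3
  -- the start
  obtain ⟨a, ha⟩ : ∃ a : ℕ, a = ⌊t * T / 2⌋₊ := ⟨_, rfl⟩
  have a1 : (a : ℝ) ≤ t * T / 2 := by
    rw [ha]
    exact Nat.floor_le (by positivity)
  have a2 : t * T / 2 < (a : ℝ) + 1 := by
    rw [ha]
    exact Nat.lt_floor_add_one _
  -- the end
  obtain ⟨b, hb⟩ : ∃ b : ℕ, b = min ⌊e * T⌋₊ l := ⟨_, rfl⟩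
  have he0 : 0 ≤ e := by linarith
  have b1 : (b : ℝ) ≤ e * T := by
    have h3 : (b : ℝ) ≤ (⌊e * T⌋₊ : ℝ) := by
      rw [hb]
      exact_mod_cast min_le_left _ _
    exact h3.trans (Nat.floor_le (by positivity))
  have b2 : (e - δ') * T ≤ b := by
    rcases min_choice ⌊e * T⌋₊ l with h3 | h3
    · rw [hb, h3]
      have h4 := Nat.lt_floor_add_one (e * T)
      nlinarith
    · rw [hb, h3]
      exact hlT
  have b3 : b ≤ l := by
    rw [hb]
    exact min_le_right _ _
  have hab : 2 * a < b := by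
    have h3 : ((2 * a : ℕ) : ℝ) < b := by
      push_cast
      nlinarith
    exact_mod_cast h3
  refine ⟨2 * a, b - 2 * a, even_two_mul a, by omega, by omega, ?_, ?_⟩
  · push_cast
    have e1 : 2 * (a : ℝ) / T - t = (2 * a - t * T) / T := by
      field_simp
    rw [e1, abs_div, abs_of_pos hT, div_le_iff₀ hT, abs_le]
    constructor
    · nlinarith
    · nlinarith
  · have e0 : 2 * a + (b - 2 * a) = b := by omega
    rw [e0]
    have e1 : (b : ℝ) / T - e = (b - e * T) / T := by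
      field_simp
    rw [e1, abs_div, abs_of_pos hT, div_le_iff₀ hT, abs_le]
    constructor
    · nlinarith
    · nlinarith

end Pool.Agent.ROT.F3.K7
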