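import Pool.Agent.ROT.F3K7D
import Pool.Agent.ROT.F3WLim

/-!
# ROT, block F3, row K7 (LOC): the gates of a strand and the gates of its pieces (helper6; literal of helper66)

`X` a strand, `(i, m)` a piece (`PieX R S X i m`), `Y = md X i m` the piece as a walk of its own, `bi = (pos X i).re`.

* `tp_pieD`, `tp_pieD'` : general sizes;
* (G1) `tp_pieL` : a gate of `X` over `bi + R / 32 * S` is a gate of `Y`; (G2) `tp_pieL'` : a gate of `Y` is a gate of `X` (diameter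
  `r + 2 z`, where the start piece up to `i` is in the ball `z`);
* (G3) `tp_pie_Dv`, `tp_pie_Dv'` (`Dv X b` and `Dv Y (b - bi)`), `tp_pie_Lv`, `tp_pie_Lv'` (`Dv X b` and the level of `Y`),
  `gb2_pieDv`, `gb2_pieDv'`, `gb2_pie_Lv`, `gb2_pie_Lv'`, `gb2_pie_LL`, `gb2_pie_LL'` : double gates;
* the forms used by F3K7L (unit `S`, `Dv X 0` and `Dv Y 0`, two radii): **`tp_pie`**, **`tp_pie'`**, **`gb2_pie`**, **`gb2_pie'`**.
-/

set_option autoImplicit false

open Set Filter Topology MeasureTheory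

namespace Pool.Agent.ROT.F3.K7

open Pool.Agent.NTS.Res
open Pool.Agent.SCF.Z Pool.Agent.SCF.M

section

variable {l : ℕ} {X : Fin l → Fin 3} {R S : ℝ} {i m c x : ℕ} {D D' : ℝ → ℕ → Prop} {A A' a b r ρ r2 ρ2 z mm : ℝ}

lemma pieX_pos (P : PieX R S X i m) {t : ℕ} (ht : t ≤ m) : pos (md X i m) t = pos X (i + t) - pos X i := pos_md X P.ev P.hm t ht

lemma pieX_re (P : PieX R S X i m) {t : ℕ} (ht : t ≤ m) : (pos (md X i m) t).re = (pos X (i + t)).re - (pos X i).re := by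
  rw [pieX_pos P ht, Complex.sub_re]

/-- **a gate of the strand is a gate of the piece**, general sizes -/
theorem tp_pieD (P : PieX R S X i m) (hlow : ∀ k : ℕ, D A k → (pos X i).re + R / 32 * S < (pos X k).re)
    (hD : ∀ t : ℕ, t ≤ m → (D A (i + t) ↔ D' A' t)) (hr : r < 502 * R * S) (ht : TP D A r ρ X c) :
    i < c ∧ c < i + m ∧ TP D' A' r ρ (md X i m) (c - i) := by
  obtain ⟨⟨he, hp, hd, hDc, hf⟩, hcl, hst, hw⟩ := ht
  have hm := P.hm
  have hic : i < c := by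
    by_contra h
    have h1 := P.lev c (not_lt.1 h)
    have h2 := hlow c hDc
    linarith
  have hcm : c < i + m := by
    by_contra h
    have h6 := P.far c (not_lt.1 h) hcl.le
    have h7 := hd c 0 le_rfl (Nat.zero_le _)
    rw [NTSF.pos_zero, sub_zero] at h7
    linarith
  obtain ⟨t, rfl⟩ := Nat.exists_eq_add_of_le hic.le
  rw [Nat.add_sub_cancel_left]
  have htm : t < m := by omega
  refine ⟨hic, hcm, ⟨?_, fun j hj => ?_, fun j j' hj hj' => ?_, (hD t htm.le).1 hDc, fun k' hk' hk'' => ?_⟩, htm, ?_,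
    fun j hj hjm hd' => ?_⟩
  · obtain ⟨u, hu⟩ := P.ev
    obtain ⟨v, hv⟩ := he
    exact ⟨v - u, by omega⟩
  · rw [pieX_re P (hj.trans htm.le), pieX_re P htm.le]
    have := hp (i + j) (by omega)
    linarith
  · rw [pieX_pos P (hj.trans htm.le), pieX_pos P (hj'.trans htm.le), sub_sub_sub_cancel_right]
    exact hd (i + j) (i + j') (by omega) (by omega)
  · obtain ⟨-, g2, g3, g4, g5, g6⟩ := hk'
    have hk'm : k' < m := g2.trans htm
    have h1 := (hD k' hk'm.le).2 hk''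
    have h2 := hlow _ h1
    refine hf (i + k') ⟨Nat.zero_le _, by omega, P.ev.add g3, ?_, fun j _ hj => ?_, fun j hj hj' => ?_⟩ h1
    · rw [pieX_pos P (by omega : k' + 1 ≤ m), pieX_pos P hk'm.le, ← add_assoc] at g4
      have e : pos X (i + k' + 1) = (pos X (i + k' + 1) - pos X i) + pos X i := by ring
      rw [e, g4]
      ring
    · rcases le_or_gt j i with hji | hji
      · have := P.lev j hji
        linarith
      · obtain ⟨u, rfl⟩ := Nat.exists_eq_add_of_le hji.le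
        have h6 := g5 u (Nat.zero_le _) (by omega)
        rw [pieX_re P (by omega : u ≤ m), pieX_re P hk'm.le] at h6
        linarith
    · obtain ⟨u, rfl⟩ := Nat.exists_eq_add_of_le (show i ≤ j by omega)
      have h6 := g6 u (by omega) (by omega)
      rw [pieX_re P (by omega : u ≤ m), pieX_re P hk'm.le] at h6
      linarith
  · rw [pieX_pos P (by omega : t + 1 ≤ m), pieX_pos P htm.le, ← add_assoc, hst]
    ring
  · rw [pieX_pos P hjm, pieX_pos P htm.le, sub_sub_sub_cancel_right] at hd'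
    have := hw (i + j) (by omega) (by omega) hd'
    rw [pieX_re P hjm, pieX_re P htm.le]
    linarith

/-- **a gate of the piece is a gate of the strand**, general sizes -/
theorem tp_pieD' (P : PieX R S X i m) (hR : 0 < R) (hS : 0 < S)
    (hlow : ∀ k : ℕ, D A k → (pos X i).re + R / 32 * S < (pos X k).re)
    (hD : ∀ t : ℕ, t ≤ m → (D A (i + t) ↔ D' A' t)) (hz : ∀ k : ℕ, k ≤ i → ‖pos X k‖ ≤ z) (hρr : ρ + r ≤ 500 * R * S)
    (ht : TP D' A' r ρ (md X i m) c) : TP D A (r + 2 * z) ρ X (i + c) := by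
  obtain ⟨⟨he, hp, hd, hDc, hf⟩, hcl, hst, hw⟩ := ht
  have hm := P.hm
  have hRS : 0 < R * S := mul_pos hR hS
  have hDc' := (hD c hcl.le).2 hDc
  have hlc := hlow _ hDc'
  have hp0 : pos (md X i m) 0 = 0 := NTSF.pos_zero _
  have hci : ∀ j : ℕ, j ≤ c → ‖pos X (i + j) - pos X i‖ ≤ r := fun j hj => by
    have h := hd j 0 hj (Nat.zero_le _)
    rwa [hp0, sub_zero, pieX_pos P (hj.trans hcl.le)] at h
  have hr0 : 0 ≤ r := (norm_nonneg _).trans (hci 0 (Nat.zero_le _))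
  have hz0 : 0 ≤ z := (norm_nonneg _).trans (hz i le_rfl)
  refine ⟨⟨P.ev.add he, fun j hj => ?_, fun j j' hj hj' => ?_, hDc', fun k' hk' hk'' => ?_⟩, by omega, ?_, fun j hj hjl hd' => ?_⟩
  · rcases le_or_gt j i with hji | hji
    · have := P.lev j hji
      linarith
    · obtain ⟨u, rfl⟩ := Nat.exists_eq_add_of_le hji.le
      have h6 := hp u (by omega)
      rw [pieX_re P (by omega : u ≤ m), pieX_re P hcl.le] at h6
      linarith
  · have key : ∀ j : ℕ, j ≤ i + c → ‖pos X j‖ ≤ r + z ∧ (j ≤ i → ‖pos X j‖ ≤ z) := fun j hj => by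
      rcases le_or_gt j i with hji | hji
      · have := hz j hji
        exact ⟨by linarith, fun _ => this⟩
      · obtain ⟨u, rfl⟩ := Nat.exists_eq_add_of_le hji.le
        refine ⟨?_, fun h => absurd h (by omega)⟩
        calc ‖pos X (i + u)‖ = ‖(pos X (i + u) - pos X i) + pos X i‖ := by congr 1; ring
          _ ≤ r + z := (norm_add_le _ _).trans (add_le_add (hci u (by omega)) (hz i le_rfl))
    rcases le_or_gt j i with hji | hji
    · have h1 := (key j hj).2 hji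
      have h2 := (key j' hj').1
      calc ‖pos X j - pos X j'‖ ≤ ‖pos X j‖ + ‖pos X j'‖ := norm_sub_le _ _
        _ ≤ r + 2 * z := by linarith
    · rcases le_or_gt j' i with hji' | hji'
      · have h1 := (key j' hj').2 hji'
        have h2 := (key j hj).1
        calc ‖pos X j - pos X j'‖ ≤ ‖pos X j‖ + ‖pos X j'‖ := norm_sub_le _ _
          _ ≤ r + 2 * z := by linarith
      · obtain ⟨u, rfl⟩ := Nat.exists_eq_add_of_le hji.le
        obtain ⟨u', rfl⟩ := Nat.exists_eq_add_of_le hji'.le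
        have h6 := hd u u' (by omega) (by omega)
        rw [pieX_pos P (by omega : u ≤ m), pieX_pos P (by omega : u' ≤ m), sub_sub_sub_cancel_right] at h6
        linarith
  · obtain ⟨-, g2, g3, g4, g5, g6⟩ := hk'
    have h2 := hlow _ hk''
    have hik : i < k' := by
      by_contra h
      have := P.lev k' (not_lt.1 h)
      linarith
    obtain ⟨t, rfl⟩ := Nat.exists_eq_add_of_le hik.le
    have htm : t < m := by omega
    refine hf t ⟨Nat.zero_le _, by omega, ?_, ?_, fun j _ hj => ?_, fun j hj hj' => ?_⟩ ((hD t htm.le).1 hk'')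
    · obtain ⟨u, hu⟩ := P.ev
      obtain ⟨v, hv⟩ := g3
      exact ⟨v - u, by omega⟩
    · rw [pieX_pos P (by omega : t + 1 ≤ m), pieX_pos P htm.le, ← add_assoc, g4]
      ring
    · rw [pieX_re P (by omega : j ≤ m), pieX_re P htm.le]
      have := g5 (i + j) (Nat.zero_le _) (by omega)
      linarith
    · rw [pieX_re P htm.le, pieX_re P (by omega : j ≤ m)]
      have := g6 (i + j) (by omega) (by omega)
      linarith
  · rw [pieX_pos P (by omega : c + 1 ≤ m), pieX_pos P hcl.le, ← add_assoc] at hst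
    have e : pos X (i + c + 1) = (pos X (i + c + 1) - pos X i) + pos X i := by ring
    rw [e, hst]
    ring
  · rcases le_or_gt j (i + m) with hjm | hjm
    · obtain ⟨u, rfl⟩ := Nat.exists_eq_add_of_le (show i ≤ j by omega)
      have h6 := hw u (by omega) (by omega) (by
        rw [pieX_pos P (by omega : u ≤ m), pieX_pos P hcl.le, sub_sub_sub_cancel_right]
        exact hd')
      rw [pieX_re P (by omega : u ≤ m), pieX_re P hcl.le] at h6
      linarith
    · exfalso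
      have h6 := P.far j hjm.le hjl
      have h7 := P.ball i le_rfl
      have h8 : ‖pos X j‖ ≤ ‖pos X j - pos X (i + c)‖ + (‖pos X (i + c) - pos X i‖ + ‖pos X i‖) := by
        calc ‖pos X j‖ = ‖(pos X j - pos X (i + c)) + ((pos X (i + c) - pos X i) + pos X i)‖ := by congr 1; ring
          _ ≤ _ := (norm_add_le _ _).trans (add_le_add le_rfl (norm_add_le _ _))
      have h9 := hci c le_rfl
      have e1 : R / 4 * S = R * S / 4 := by ring
      rw [e1] at h7
      linarith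

/-! ### one gate: levels -/

/-- (G1) -/
theorem tp_pieL (P : PieX R S X i m) (hR : 0 < R) (hS : 0 < S) (hA : (pos X i).re + R / 32 * S < A) (hr : r ≤ 4 * R * S)
    (ht : TP (fun a k => a ≤ (pos X k).re) A r ρ X c) :
    i < c ∧ c < i + m ∧ TP (fun a k => a ≤ (pos (md X i m) k).re) (A - (pos X i).re) r ρ (md X i m) (c - i) :=
  tp_pieD P (fun k hk => hA.trans_le hk) (fun t ht => by
    show A ≤ (pos X (i + t)).re ↔ A - (pos X i).re ≤ (pos (md X i m) t).re
    rw [pieX_re P ht]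
    constructor <;> intro h <;> linarith) (by nlinarith [mul_pos hR hS]) ht

/-- (G2) -/
theorem tp_pieL' (P : PieX R S X i m) (hR : 0 < R) (hS : 0 < S) (hz : ∀ k : ℕ, k ≤ i → ‖pos X k‖ ≤ z)
    (hA : (pos X i).re + R / 32 * S < A) (hρr : ρ + r ≤ 500 * R * S)
    (ht : TP (fun a k => a ≤ (pos (md X i m) k).re) (A - (pos X i).re) r ρ (md X i m) c) :
    TP (fun a k => a ≤ (pos X k).re) A (r + 2 * z) ρ X (i + c) :=
  tp_pieD' P hR hS (fun k hk => hA.trans_le hk) (fun t ht => by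
    show A ≤ (pos X (i + t)).re ↔ A - (pos X i).re ≤ (pos (md X i m) t).re
    rw [pieX_re P ht]
    constructor <;> intro h <;> linarith) hz hρr ht

/-! ### one gate: levels over a base -/

/-- (G3) `Dv X b` and `Dv Y (b - bi)` -/
theorem tp_pie_Dv (P : PieX R S X i m) (hR : 0 < R) (hS : 0 < S) (hA : (pos X i).re + R / 32 * S < A + b) (hr : r ≤ 4 * R * S)
    (ht : TP (Dv X b) A r ρ X c) :
    i < c ∧ c < i + m ∧ TP (Dv (md X i m) (b - (pos X i).re)) A r ρ (md X i m) (c - i) :=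
  tp_pieD P (fun k hk => hA.trans_le hk) (fun t ht => by
    show A + b ≤ (pos X (i + t)).re ↔ A + (b - (pos X i).re) ≤ (pos (md X i m) t).re
    rw [pieX_re P ht]
    constructor <;> intro h <;> linarith) (by nlinarith [mul_pos hR hS]) ht

/-- (G3) -/
theorem tp_pie_Dv' (P : PieX R S X i m) (hR : 0 < R) (hS : 0 < S) (hz : ∀ k : ℕ, k ≤ i → ‖pos X k‖ ≤ z)
    (hA : (pos X i).re + R / 32 * S < A + b) (hρr : ρ + r ≤ 500 * R * S)
    (ht : TP (Dv (md X i m) (b - (pos X i).re)) A r ρ (md X i m) c) : TP (Dv X b) A (r + 2 * z) ρ X (i + c) :=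
  tp_pieD' P hR hS (fun k hk => hA.trans_le hk) (fun t ht => by
    show A + b ≤ (pos X (i + t)).re ↔ A + (b - (pos X i).re) ≤ (pos (md X i m) t).re
    rw [pieX_re P ht]
    constructor <;> intro h <;> linarith) hz hρr ht

/-- (G3) `Dv X b` and the level of the piece -/
theorem tp_pie_Lv (P : PieX R S X i m) (hR : 0 < R) (hS : 0 < S) (hA : (pos X i).re + R / 32 * S < A + b)
    (hA' : A' = A + b - (pos X i).re) (hr : r ≤ 4 * R * S) (ht : TP (Dv X b) A r ρ X c) :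
    i < c ∧ c < i + m ∧ TP (fun a k => a ≤ (pos (md X i m) k).re) A' r ρ (md X i m) (c - i) :=
  tp_pieD P (fun k hk => hA.trans_le hk) (fun t ht => by
    show A + b ≤ (pos X (i + t)).re ↔ A' ≤ (pos (md X i m) t).re
    rw [pieX_re P ht, hA']
    constructor <;> intro h <;> linarith) (by nlinarith [mul_pos hR hS]) ht

/-- (G3) -/
theorem tp_pie_Lv' (P : PieX R S X i m) (hR : 0 < R) (hS : 0 < S) (hz : ∀ k : ℕ, k ≤ i → ‖pos X k‖ ≤ z)
    (hA : (pos X i).re + R / 32 * S < A + b) (hA' : A' = A + b - (pos X i).re) (hρr : ρ + r ≤ 500 * R * S)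
    (ht : TP (fun a k => a ≤ (pos (md X i m) k).re) A' r ρ (md X i m) c) : TP (Dv X b) A (r + 2 * z) ρ X (i + c) :=
  tp_pieD' P hR hS (fun k hk => hA.trans_le hk) (fun t ht => by
    show A + b ≤ (pos X (i + t)).re ↔ A' ≤ (pos (md X i m) t).re
    rw [pieX_re P ht, hA']
    constructor <;> intro h <;> linarith) hz hρr ht

/-! ### double gates -/

/-- the second gate over the first one -/
lemma pie_base (P : PieX R S X i m) {t : ℕ} (hc : c ≤ m) (ht : t ≤ m) :
    Dv X (pos X (i + c)).re (mm * S) (i + t) ↔ Dv (md X i m) (pos (md X i m) c).re (mm * S) t := by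
  show mm * S + (pos X (i + c)).re ≤ (pos X (i + t)).re ↔ mm * S + (pos (md X i m) c).re ≤ (pos (md X i m) t).re
  rw [pieX_re P ht, pieX_re P hc]
  constructor <;> intro h <;> linarith

/-- **a double gate of the strand is a double gate of the piece**, general sizes -/
theorem gb2_pieD {a' : ℝ} (P : PieX R S X i m) (hR : 0 < R) (hS : 0 < S)
    (hlow : ∀ k : ℕ, D (a * S) k → (pos X i).re + R / 32 * S < (pos X k).re)
    (hD : ∀ t : ℕ, t ≤ m → (D (a * S) (i + t) ↔ D' (a' * S) t)) (hr : r ≤ 4 * R) (hr2 : r2 ≤ 4 * R) (hm : 0 ≤ mm)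
    (ht : GB2 D a r ρ mm r2 ρ2 S X c x) :
    i < c ∧ c < i + m ∧ i < x ∧ x < i + m ∧ GB2 D' a' r ρ mm r2 ρ2 S (md X i m) (c - i) (x - i) := by
  have hRS : 0 < R * S := mul_pos hR hS
  have hb : ∀ {r : ℝ}, r ≤ 4 * R → r * S < 502 * R * S := fun {r} h => by
    have := mul_le_mul_of_nonneg_right h hS.le
    linarith
  obtain ⟨h1, h2, h3⟩ := tp_pieD P hlow hD (hb hr) ht.1
  have hlc := hlow c ht.1.1.2.2.2.1
  have hmS := mul_nonneg hm hS.le
  obtain ⟨t, rfl⟩ := Nat.exists_eq_add_of_le h1.le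
  rw [Nat.add_sub_cancel_left] at h3 ⊢
  obtain ⟨g1, g2, g3⟩ := tp_pieD (D' := Dv (md X i m) (pos (md X i m) t).re) (A' := mm * S) P (fun k hk => by
    have h : mm * S + (pos X (i + t)).re ≤ (pos X k).re := hk
    linarith) (fun u hu => pie_base P (by omega) hu) (hb hr2) ht.2
  exact ⟨h1, h2, g1, g2, h3, g3⟩

/-- **a double gate of the piece is a double gate of the strand**, general sizes; the start piece up to `i` is in the ball `z * S` -/
theorem gb2_pieD' {a' : ℝ} (P : PieX R S X i m) (hR : 0 < R) (hS : 0 < S)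
    (hlow : ∀ k : ℕ, D (a * S) k → (pos X i).re + R / 32 * S < (pos X k).re)
    (hD : ∀ t : ℕ, t ≤ m → (D (a * S) (i + t) ↔ D' (a' * S) t)) (hz : ∀ k : ℕ, k ≤ i → ‖pos X k‖ ≤ z * S)
    (hρr : ρ + r ≤ 500 * R) (hρr2 : ρ2 + r2 ≤ 500 * R) (hm : 0 ≤ mm)
    (ht : GB2 D' a' r ρ mm r2 ρ2 S (md X i m) c x) : GB2 D a (r + 2 * z) ρ mm (r2 + 2 * z) ρ2 S X (i + c) (i + x) := by
  have hb : ∀ {r ρ : ℝ}, ρ + r ≤ 500 * R → ρ * S + r * S ≤ 500 * R * S := fun {r ρ} h => by
    have := mul_le_mul_of_nonneg_right h hS.le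
    linarith
  have e : ∀ r : ℝ, (r + 2 * z) * S = r * S + 2 * (z * S) := fun r => by ring
  have h1 := tp_pieD' P hR hS hlow hD hz (hb hρr) ht.1
  have hlc := hlow (i + c) h1.1.2.2.2.1
  have hmS := mul_nonneg hm hS.le
  have hcm : c < m := ht.1.2.1
  have h2 := tp_pieD' (D := Dv X (pos X (i + c)).re) (A := mm * S) P hR hS (fun k hk => by
    have h : mm * S + (pos X (i + c)).re ≤ (pos X k).re := hk
    linarith) (fun u hu => pie_base P hcm.le hu) hz (hb hρr2) ht.2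
  refine ⟨?_, ?_⟩
  · rw [e]
    exact h1
  · rw [e]
    exact h2

/-- (G3) **double gates**, `Dv X b` and `Dv Y (b - bi)` -/
theorem gb2_pieDv (P : PieX R S X i m) (hR : 0 < R) (hS : 0 < S) (hA : (pos X i).re + R / 32 * S < a * S + b) (hr : r ≤ 4 * R)
    (hr2 : r2 ≤ 4 * R) (hm : 0 ≤ mm) (ht : GB2 (Dv X b) a r ρ mm r2 ρ2 S X c x) :
    i < c ∧ c < i + m ∧ i < x ∧ x < i + m ∧
      GB2 (Dv (md X i m) (b - (pos X i).re)) a r ρ mm r2 ρ2 S (md X i m) (c - i) (x - i) :=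
  gb2_pieD P hR hS (fun k hk => hA.trans_le hk) (fun t ht => by
    show a * S + b ≤ (pos X (i + t)).re ↔ a * S + (b - (pos X i).re) ≤ (pos (md X i m) t).re
    rw [pieX_re P ht]
    constructor <;> intro h <;> linarith) hr hr2 hm ht

/-- (G3) -/
theorem gb2_pieDv' (P : PieX R S X i m) (hR : 0 < R) (hS : 0 < S) (hz : ∀ k : ℕ, k ≤ i → ‖pos X k‖ ≤ z * S)
    (hA : (pos X i).re + R / 32 * S < a * S + b) (hρr : ρ + r ≤ 500 * R) (hρr2 : ρ2 + r2 ≤ 500 * R) (hm : 0 ≤ mm)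
    (ht : GB2 (Dv (md X i m) (b - (pos X i).re)) a r ρ mm r2 ρ2 S (md X i m) c x) :
    GB2 (Dv X b) a (r + 2 * z) ρ mm (r2 + 2 * z) ρ2 S X (i + c) (i + x) :=
  gb2_pieD' P hR hS (fun k hk => hA.trans_le hk) (fun t ht => by
    show a * S + b ≤ (pos X (i + t)).re ↔ a * S + (b - (pos X i).re) ≤ (pos (md X i m) t).re
    rw [pieX_re P ht]
    constructor <;> intro h <;> linarith) hz hρr hρr2 hm ht

lemma lv_unit {a' B : ℝ} (hS : 0 < S) (h : a' = a + B / S) : a' * S = a * S + B := by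
  rw [h, add_mul, div_mul_cancel₀ _ hS.ne']

/-- (G3) double gates, `Dv X b` and the level of the piece, threshold `a' = a + (b - bi) / S` -/
theorem gb2_pie_Lv {a' : ℝ} (P : PieX R S X i m) (hR : 0 < R) (hS : 0 < S) (hA : (pos X i).re + R / 32 * S < a * S + b)
    (ha' : a' = a + (b - (pos X i).re) / S) (hr : r ≤ 4 * R) (hr2 : r2 ≤ 4 * R) (hm : 0 ≤ mm)
    (ht : GB2 (Dv X b) a r ρ mm r2 ρ2 S X c x) :
    i < c ∧ c < i + m ∧ i < x ∧ x < i + m ∧
      GB2 (fun a k => a ≤ (pos (md X i m) k).re) a' r ρ mm r2 ρ2 S (md X i m) (c - i) (x - i) :=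
  gb2_pieD P hR hS (fun k hk => hA.trans_le hk) (fun t ht => by
    show a * S + b ≤ (pos X (i + t)).re ↔ a' * S ≤ (pos (md X i m) t).re
    rw [pieX_re P ht, lv_unit hS ha']
    constructor <;> intro h <;> linarith) hr hr2 hm ht

/-- (G3) -/
theorem gb2_pie_Lv' {a' : ℝ} (P : PieX R S X i m) (hR : 0 < R) (hS : 0 < S) (hz : ∀ k : ℕ, k ≤ i → ‖pos X k‖ ≤ z * S)
    (hA : (pos X i).re + R / 32 * S < a * S + b) (ha' : a' = a + (b - (pos X i).re) / S) (hρr : ρ + r ≤ 500 * R)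
    (hρr2 : ρ2 + r2 ≤ 500 * R) (hm : 0 ≤ mm)
    (ht : GB2 (fun a k => a ≤ (pos (md X i m) k).re) a' r ρ mm r2 ρ2 S (md X i m) c x) :
    GB2 (Dv X b) a (r + 2 * z) ρ mm (r2 + 2 * z) ρ2 S X (i + c) (i + x) :=
  gb2_pieD' P hR hS (fun k hk => hA.trans_le hk) (fun t ht => by
    show a * S + b ≤ (pos X (i + t)).re ↔ a' * S ≤ (pos (md X i m) t).re
    rw [pieX_re P ht, lv_unit hS ha']
    constructor <;> intro h <;> linarith) hz hρr hρr2 hm ht

/-- (G3) the same with the level of the strand itself -/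
theorem gb2_pie_LL {a' : ℝ} (P : PieX R S X i m) (hR : 0 < R) (hS : 0 < S) (hA : (pos X i).re + R / 32 * S < a * S)
    (ha' : a' = a - (pos X i).re / S) (hr : r ≤ 4 * R) (hr2 : r2 ≤ 4 * R) (hm : 0 ≤ mm)
    (ht : GB2 (fun a k => a ≤ (pos X k).re) a r ρ mm r2 ρ2 S X c x) :
    i < c ∧ c < i + m ∧ i < x ∧ x < i + m ∧
      GB2 (fun a k => a ≤ (pos (md X i m) k).re) a' r ρ mm r2 ρ2 S (md X i m) (c - i) (x - i) :=
  gb2_pieD P hR hS (fun k hk => hA.trans_le hk) (fun t ht => by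
    show a * S ≤ (pos X (i + t)).re ↔ a' * S ≤ (pos (md X i m) t).re
    rw [pieX_re P ht, lv_unit (a := a) (B := -(pos X i).re) hS (show a' = a + -(pos X i).re / S by rw [ha', neg_div]; ring)]
    constructor <;> intro h <;> linarith) hr hr2 hm ht

/-- (G3) -/
theorem gb2_pie_LL' {a' : ℝ} (P : PieX R S X i m) (hR : 0 < R) (hS : 0 < S) (hz : ∀ k : ℕ, k ≤ i → ‖pos X k‖ ≤ z * S)
    (hA : (pos X i).re + R / 32 * S < a * S) (ha' : a' = a - (pos X i).re / S) (hρr : ρ + r ≤ 500 * R)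
    (hρr2 : ρ2 + r2 ≤ 500 * R) (hm : 0 ≤ mm)
    (ht : GB2 (fun a k => a ≤ (pos (md X i m) k).re) a' r ρ mm r2 ρ2 S (md X i m) c x) :
    GB2 (fun a k => a ≤ (pos X k).re) a (r + 2 * z) ρ mm (r2 + 2 * z) ρ2 S X (i + c) (i + x) :=
  gb2_pieD' P hR hS (fun k hk => hA.trans_le hk) (fun t ht => by
    show a * S ≤ (pos X (i + t)).re ↔ a' * S ≤ (pos (md X i m) t).re
    rw [pieX_re P ht, lv_unit (a := a) (B := -(pos X i).re) hS (show a' = a + -(pos X i).re / S by rw [ha', neg_div]; ring)]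
    constructor <;> intro h <;> linarith) hz hρr hρr2 hm ht

/-! ### the forms of F3K7L: unit `S`, `Dv X 0` and `Dv Y 0`, one radius for each gate -/

lemma pie_first (P : PieX R S X i m) (hS : 0 < S) {t : ℕ} (ht : t ≤ m) :
    Dv X 0 (a * S) (i + t) ↔ Dv (md X i m) 0 ((a - (pos X i).re / S) * S) t := by
  show a * S + 0 ≤ (pos X (i + t)).re ↔ (a - (pos X i).re / S) * S + 0 ≤ (pos (md X i m) t).re
  rw [pieX_re P ht, sub_mul, div_mul_cancel₀ _ hS.ne']
  constructor <;> intro h <;> linarith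

lemma pie_low (ha : (pos X i).re + R / 32 * S < a * S) (k : ℕ) (hk : Dv X 0 (a * S) k) :
    (pos X i).re + R / 32 * S < (pos X k).re := by
  have h : a * S + 0 ≤ (pos X k).re := hk
  linarith

lemma pie_r {R S r : ℝ} (hR : 0 < R) (hS : 0 < S) (hr : r ≤ 4 * R) : r * S < 502 * R * S := by
  have h1 := mul_le_mul_of_nonneg_right hr hS.le
  have h2 := mul_pos hR hS
  linarith

lemma pie_rρ {R S r ρ : ℝ} (hR : 0 < R) (hS : 0 < S) (hr : r ≤ 4 * R) (hρ : ρ ≤ 130 * R) : ρ * S + r * S ≤ 500 * R * S := by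
  have h1 := mul_le_mul_of_nonneg_right hr hS.le
  have h2 := mul_le_mul_of_nonneg_right hρ hS.le
  have h3 := mul_pos hR hS
  linarith

/-- **a gate of the strand is a gate of the piece** -/
theorem tp_pie (P : PieX R S X i m) (hR : 0 < R) (hS : 0 < S) (ha : (pos X i).re + R / 32 * S < a * S) (hr : r ≤ 4 * R)
    (_hρ : ρ ≤ 130 * R) (h : TP (Dv X 0) (a * S) (r * S) (ρ * S) X c) :
    ∃ c1 : ℕ, c = i + c1 ∧ c1 < m ∧
      TP (Dv (md X i m) 0) ((a - (pos X i).re / S) * S) (r * S) (ρ * S) (md X i m) c1 := by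
  obtain ⟨h1, h2, h3⟩ := tp_pieD P (pie_low ha) (fun t ht => pie_first P hS ht) (pie_r hR hS hr) h
  exact ⟨c - i, by omega, by omega, h3⟩

/-- **a gate of the piece is a gate of the strand** -/
theorem tp_pie' {c1 : ℕ} (P : PieX R S X i m) (hR : 0 < R) (hS : 0 < S) (hz : ∀ k : ℕ, k ≤ i → ‖pos X k‖ ≤ z * S)
    (ha : (pos X i).re + R / 32 * S < a * S) (hr : r ≤ 4 * R) (hρ : ρ ≤ 130 * R)
    (h : TP (Dv (md X i m) 0) ((a - (pos X i).re / S) * S) (r * S) (ρ * S) (md X i m) c1) :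
    TP (Dv X 0) (a * S) ((r + 2 * z) * S) (ρ * S) X (i + c1) := by
  have h1 := tp_pieD' P hR hS (pie_low ha) (fun t ht => pie_first P hS ht) hz (pie_rρ hR hS hr hρ) h
  rwa [show (r + 2 * z) * S = r * S + 2 * (z * S) by ring]

/-- **a double gate of the strand is a double gate of the piece** -/
theorem gb2_pie {R2 M : ℝ} (P : PieX R S X i m) (P2 : PieX R2 S X i m) (hR : 0 < R) (hR2 : 0 < R2) (hS : 0 < S)
    (ha : (pos X i).re + R / 32 * S < a * S) (hr : r ≤ 4 * R) (hρ : ρ ≤ 130 * R) (hr2 : r2 ≤ 4 * R2) (_hρ2 : ρ2 ≤ 130 * R2)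
    (hm : R2 / 8 ≤ M) (h : GB2 (Dv X 0) a r ρ M r2 ρ2 S X c x) :
    ∃ c1 x1 : ℕ, c = i + c1 ∧ x = i + x1 ∧ c1 < m ∧ x1 < m ∧
      GB2 (Dv (md X i m) 0) (a - (pos X i).re / S) r ρ M r2 ρ2 S (md X i m) c1 x1 := by
  obtain ⟨c1, rfl, h1, h2⟩ := tp_pie P hR hS ha hr hρ h.1
  have hlc := pie_low ha (i + c1) h.1.1.2.2.2.1
  have hRS := mul_pos hR hS
  have hRS2 := mul_pos hR2 hS
  have hM := mul_le_mul_of_nonneg_right hm hS.le
  obtain ⟨g1, g2, g3⟩ := tp_pieD (D' := Dv (md X i m) (pos (md X i m) c1).re) (A' := M * S) P2 (fun k hk => by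
    have h : M * S + (pos X (i + c1)).re ≤ (pos X k).re := hk
    linarith) (fun u hu => pie_base P2 (by omega) hu) (pie_r hR2 hS hr2) h.2
  exact ⟨c1, x - i, rfl, by omega, h1, by omega, h2, g3⟩

/-- **a double gate of the piece is a double gate of the strand** -/
theorem gb2_pie' {R2 M : ℝ} {c1 x1 : ℕ} (P : PieX R S X i m) (P2 : PieX R2 S X i m) (hR : 0 < R) (hR2 : 0 < R2) (hS : 0 < S)
    (hz : ∀ k : ℕ, k ≤ i → ‖pos X k‖ ≤ z * S) (ha : (pos X i).re + R / 32 * S < a * S) (hr : r ≤ 4 * R) (hρ : ρ ≤ 130 * R)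
    (hr2 : r2 ≤ 4 * R2) (hρ2 : ρ2 ≤ 130 * R2) (hm : R2 / 8 ≤ M)
    (h : GB2 (Dv (md X i m) 0) (a - (pos X i).re / S) r ρ M r2 ρ2 S (md X i m) c1 x1) :
    GB2 (Dv X 0) a (r + 2 * z) ρ M (r2 + 2 * z) ρ2 S X (i + c1) (i + x1) := by
  have h1 := tp_pie' P hR hS hz ha hr hρ h.1
  have hlc := pie_low ha (i + c1) h1.1.2.2.2.1
  have hRS := mul_pos hR hS
  have hRS2 := mul_pos hR2 hS
  have hM := mul_le_mul_of_nonneg_right hm hS.le
  have hcm : c1 < m := h.1.2.1
  have h2 := tp_pieD' (D := Dv X (pos X (i + c1)).re) (A := M * S) P2 hR2 hS (fun k hk => by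
    have h : M * S + (pos X (i + c1)).re ≤ (pos X k).re := hk
    linarith) (fun u hu => pie_base P2 hcm.le hu) hz (pie_rρ hR2 hS hr2 hρ2) h.2
  refine ⟨h1, ?_⟩
  rwa [show (r2 + 2 * z) * S = r2 * S + 2 * (z * S) by ring]

end

end Pool.Agent.ROT.F3.K7
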