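import Pool.Agent.ROT.F3K7S
import Pool.Agent.ROT.F3K7C
import Pool.Agent.ROT.F3Gd
import Pool.Agent.ROT.F3LimF

/-!
# ROT, block F3, row K7 (LOC): the strands of the closed curves with two roots (helper66)

* `lsd T k g` : the strand of `g` = (length, place of the second root, closed curve), arm `k`, direction `T`;
* **`xs_sdw`** : exact for closed words; **`lsd_near`** : continuity at curves of positive length;
* **`Lm.cvu`** : joint convergence of the curve and of finitely many functionals, in the form of F3Gd.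
-/

set_option autoImplicit false

open Set Filter Topology MeasureTheory
open scoped BoundedContinuousFunction

namespace Pool.Agent.ROT.F3.K7

open Pool.Agent.NTS.Res (step pos saw fug size curve)
open Pool.Agent.CRT (CI)
open Pool.Agent.SCF.Z Pool.Agent.SCF.M

/-- **the strand of a closed curve with two roots** -/
noncomputable def lsd (T : LSym) (k : Arm) (g : ℝ × ℝ × CI) : ℝ × CI := (k.lf g.1 g.2.1, T.act (k.sub (g.2.1 / g.1) g.2.2))

lemma sdw_arcw (T : LSym) (k : Arm) (x : W3 × ℕ) : sdw T k x = arcw x.2 k (mp T x.1) := by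
  unfold sdw
  cases k
  · exact mp_take T _ _
  · show mp T (x.1.take x.2).reverse = ((mp T x.1).take x.2).reverse
    rw [mp_reverse, mp_take]
  · exact mp_drop T _ _
  · show mp T (x.1.drop x.2).reverse = ((mp T x.1).drop x.2).reverse
    rw [mp_reverse, mp_drop]

lemma cv_get {w : W3} (hw : 1 ≤ w.length) {S : ℝ} (hS : 0 < S) : cv S w.get = crv w w.length S := by
  have hs := NTSF.size_pos hw
  have e1 : curve w.get = crv w w.length (size w.length) := by
    rw [curve_ofFn, List.ofFn_get]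
  have e2 : size w.length = size w.length / S * S := by field_simp
  have e3 := crv_scale w w.length S (κ := size w.length / S)
  rw [← e2] at e3
  unfold cv
  rw [e1, e3]
  ext t
  rw [ContinuousMap.smul_apply, ContinuousMap.smul_apply, Complex.real_smul, smul_eq_mul, ← mul_assoc]
  have h0 : ((size w.length / S : ℝ) : ℂ) ≠ 0 := by
    rw [Complex.ofReal_ne_zero]
    positivity
  rw [mul_inv_cancel₀ h0, one_mul]

/-- **the strand of a closed word** -/
theorem xs_sdw (T : LSym) (k : Arm) {x : W3 × ℕ} {N n : ℕ} (hl : x.1.length = n + 1) (hcl : F3.Cl x.1) (he : Even x.2)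
    (hm1 : 1 ≤ x.2) (hm : x.2 ≤ n) (hN : 0 < N) : XS (N : ℝ) (sdw T k x).get = lsd T k (cN N x) := by
  have hN0 : (0 : ℝ) < N := by exact_mod_cast hN
  have hlen := length_sdw T k hl (show x.2 ≤ n + 1 by omega)
  have hT : 0 < (N : ℝ) ^ (4 / 3 : ℝ) := by positivity
  have h1 : 1 ≤ k.len n x.2 := by
    cases k <;> simp only [Arm.len] <;> omega
  have e : ((n + 1 - x.2 : ℕ) : ℝ) = ((n + 1 : ℕ) : ℝ) - x.2 := by
    rw [Nat.cast_sub (by omega)]
  refine Prod.ext ?_ ?_
  · show (((sdw T k x).length : ℕ) : ℝ) / (N : ℝ) ^ (4 / 3 : ℝ) = k.lf ((x.1.length : ℝ) / (N : ℝ) ^ (4 / 3 : ℝ))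
      ((x.2 : ℝ) / (N : ℝ) ^ (4 / 3 : ℝ))
    rw [hlen, hl]
    cases k with
    | fp => rfl
    | bq => rfl
    | fq =>
      show ((n + 1 - x.2 : ℕ) : ℝ) / (N : ℝ) ^ (4 / 3 : ℝ) = _ - _
      rw [e, sub_div]
    | bp =>
      show ((n + 1 - x.2 : ℕ) : ℝ) / (N : ℝ) ^ (4 / 3 : ℝ) = _ - _
      rw [e, sub_div]
  · show cv (N : ℝ) (sdw T k x).get = T.act (k.sub ((x.2 : ℝ) / (N : ℝ) ^ (4 / 3 : ℝ) / ((x.1.length : ℝ) / (N : ℝ) ^ (4 / 3 : ℝ)))
      (crv x.1 x.1.length N))
    rw [cv_get (by rw [hlen]; exact h1) hN0]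
    unfold sdw at hlen ⊢
    rw [hlen, crv_mp, hl, crv_sub k hcl hl he hm1 hm]
    congr 2
    have hn : ((n + 1 : ℕ) : ℝ) ≠ 0 := by positivity
    field_simp

/-- **continuity of the strands** -/
theorem lsd_near (T : LSym) (k : Arm) {g : ℝ × ℝ × CI} (hg : 0 < g.1) {η : ℝ} (hη : 0 < η) :
    ∃ δ : ℝ, 0 < δ ∧ ∀ g' : ℝ × ℝ × CI, dist g' g ≤ δ → dist (lsd T k g') (lsd T k g) ≤ η := by
  obtain ⟨δ1, hδ1, hm⟩ := uc_curve g.2.2 (show 0 < η / 4 by positivity)
  have hc : ContinuousAt (fun g' : ℝ × ℝ × CI => g'.2.1 / g'.1) g :=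
    (continuous_snd.fst.continuousAt).div continuous_fst.continuousAt hg.ne'
  obtain ⟨δ2, hδ2, hd⟩ := Metric.continuousAt_iff.1 hc δ1 hδ1
  refine ⟨min (δ2 / 2) (η / 4), lt_min (by positivity) (by positivity), fun g' h => ?_⟩
  have h1 : dist g' g ≤ η / 4 := h.trans (min_le_right _ _)
  have h2 : dist g' g < δ2 := (h.trans (min_le_left _ _)).trans_lt (by linarith)
  have d1 : |g.1 - g'.1| ≤ η / 4 := by
    rw [← Real.dist_eq, dist_comm]
    exact (le_max_left _ _).trans h1
  have d2 : |g.2.1 - g'.2.1| ≤ η / 4 := by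
    rw [← Real.dist_eq, dist_comm]
    exact ((le_max_left _ _).trans (le_max_right _ _)).trans h1
  have d3 : dist g.2.2 g'.2.2 ≤ η / 4 := by
    rw [dist_comm]
    exact ((le_max_right _ _).trans (le_max_right _ _)).trans h1
  have d4 : |g.2.1 / g.1 - g'.2.1 / g'.1| ≤ δ1 := by
    have := hd h2
    rw [Real.dist_eq, abs_sub_comm] at this
    exact this.le
  rw [Prod.dist_eq]
  refine max_le ?_ ?_
  · show dist (k.lf g'.1 g'.2.1) (k.lf g.1 g.2.1) ≤ η
    rw [dist_comm, Real.dist_eq]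
    have := k.lf_dist g.1 g.2.1 g'.1 g'.2.1
    linarith
  · show dist (T.act _) (T.act _) ≤ η
    rw [act_dist, dist_comm]
    have := k.sub_dist (γ := g.2.2) (γ' := g'.2.2) (η := δ1) (ρ := η / 4) (fun x y hxy => hm x y hxy) (by positivity) d4
    linarith

section joint

variable {ι : Type*} {U : Ultrafilter ι} {Ω : ι → Type*} [∀ i, MeasurableSpace (Ω i)] {P : ∀ i, Measure (Ω i)} {X : Type*}
  [MetricSpace X] [CompleteSpace X] [SecondCountableTopology X] [MeasurableSpace X] [BorelSpace X] {c : ∀ i, Ω i → X} {ν : Measure X}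

/-- **joint convergence** of the curve and of finitely many functionals -/
theorem Lm.cvu {κ : Type*} [Fintype κ] (hC : LF.Cv (U : Filter ι) P c ν) {p : ∀ i, Ω i → κ → ℝ} {Φ : X → κ → ℝ}
    (h : ∀ k, LF.Lm (U : Filter ι) P c ν (fun i ω => p i ω k) fun x => Φ x k) :
    CvU U P (fun i ω => (c i ω, p i ω)) (ν.map fun x => (x, Φ x)) := by
  intro G
  have h1 := LF.Lm.comp hC h G.continuous (B := ‖G‖) fun z => by
    rw [← Real.norm_eq_abs]
    exact G.norm_coe_le_norm z
  have h2 := LF.Lm.tendsto hC h1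
  have hm : Measurable fun x => (x, Φ x) := measurable_id.prodMk (measurable_pi_iff.2 fun k => (h k).ms')
  rw [integral_map hm.aemeasurable G.continuous.aestronglyMeasurable]
  exact h2

end joint

end Pool.Agent.ROT.F3.K7
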