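import Mathlib

/-!
# ROT, F3, row K7 / D39 (helper28): gates at functional levels are local (deterministic half)

Marks of a strand for countably many parameters `q` (level, diameter, window; threshold, diameter, window of the second gate).

* `Qg` : parameters; `Sf` : relations between the marks of one strand; `Cn` : the marks are stable at `q`;
* `LMo` : one-sided comparison of the gates of two strands with a common piece (form of `loc_mono`, helper66);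
* `FG` : the gates at the functional level `lev t + f` (an active free cell exists); `fg_unique`;
* **`fg_loc`** : two strands with a common piece have the same gates at the functional level.
-/

set_option autoImplicit false

open Set Filter Topology

namespace Pool.Agent.ROT.F3.LR

/-- parameters of a double gate: level, diameter and window of `c`; threshold, diameter and window of `x` over `c` -/
@[ext] structure Qg where
  a : ℝ
  r : ℝ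
  ρ : ℝ
  m : ℝ
  r2 : ℝ
  ρ2 : ℝ

/-- all the coordinates are within `μ` -/
structure Qg.Near (q q' : Qg) (μ : ℝ) : Prop where
  a : |q'.a - q.a| ≤ μ
  r : |q'.r - q.r| ≤ μ
  ρ : |q'.ρ - q.ρ| ≤ μ
  m : |q'.m - q.m| ≤ μ
  r2 : |q'.r2 - q.r2| ≤ μ
  ρ2 : |q'.ρ2 - q.ρ2| ≤ μ

/-- another level -/
def Qg.at (w : Qg) (l : ℝ) : Qg := { w with a := l }

/-- another threshold -/
def Qg.th (w : Qg) (m : ℝ) : Qg := { w with m := m }

/-- the diameter of the curve up to the time `T` is less than `r` -/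
def DmL (pl : ℝ → ℂ) (T r : ℝ) : Prop := ∀ x y : ℝ, 0 ≤ x → x ≤ T → 0 ≤ y → y ≤ T → ‖pl x - pl y‖ < r

/-- relations between the marks of one strand (`-1` = none) -/
structure Sf (Q : Set Qg) (pl : ℝ → ℂ) (tc tx : Qg → ℝ) : Prop where
  /-- weaker windows -/
  cw : ∀ q ∈ Q, ∀ q' ∈ Q, 0 ≤ tc q → q'.a = q.a → q.r ≤ q'.r → q'.ρ ≤ q.ρ → tc q' = tc q
  /-- higher levels below the level of the gate -/
  cl : ∀ q ∈ Q, ∀ q' ∈ Q, 0 ≤ tc q → q.a ≤ q'.a → q'.a < (pl (tc q)).re → q'.r = q.r → q'.ρ = q.ρ → tc q' = tc q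
  xc : ∀ q ∈ Q, 0 ≤ tx q → 0 ≤ tc q
  xw : ∀ q ∈ Q, ∀ q' ∈ Q, 0 ≤ tx q → q'.a = q.a → q'.m = q.m → q.r ≤ q'.r → q'.ρ ≤ q.ρ → q.r2 ≤ q'.r2 → q'.ρ2 ≤ q.ρ2 →
    tx q' = tx q
  xl : ∀ q ∈ Q, ∀ q' ∈ Q, 0 ≤ tx q → q.a ≤ q'.a → q'.a < (pl (tc q)).re → q'.r = q.r → q'.ρ = q.ρ → q'.m = q.m →
    q'.r2 = q.r2 → q'.ρ2 = q.ρ2 → tx q' = tx q
  /-- smaller diameters -/
  cd : ∀ q ∈ Q, ∀ q' ∈ Q, 0 ≤ tc q → q'.a = q.a → q'.ρ = q.ρ → DmL pl (tc q) q'.r → tc q' = tc q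
  xd : ∀ q ∈ Q, ∀ q' ∈ Q, 0 ≤ tx q → q'.a = q.a → q'.ρ = q.ρ → q'.m = q.m → q'.ρ2 = q.ρ2 → DmL pl (tc q) q'.r →
    DmL pl (tx q) q'.r2 → tx q' = tx q
  ord : ∀ q ∈ Q, 0 ≤ tx q → tc q ≤ tx q

/-- the marks are stable at `q` -/
def Cn (Q : Set Qg) (tx : Qg → ℝ) (q : Qg) : Prop := ∀ η : ℝ, 0 < η → ∃ μ : ℝ, 0 < μ ∧ ∀ q' ∈ Q, q.Near q' μ →
  (0 ≤ tx q ↔ 0 ≤ tx q') ∧ (0 ≤ tx q → |tx q' - tx q| ≤ η)

/-- **one-sided comparison** of the gates of two strands with a common piece which begins at the times `t`, `t'`; the initial parts are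
in the ball `z` -/
structure LMo (Q : Set Qg) (z R R2 t t' : ℝ) (pl pl' : ℝ → ℂ) (tc tx tc' tx' : Qg → ℝ) : Prop where
  c1 : ∀ q ∈ Q, ∀ q' ∈ Q, 0 ≤ tc q → q'.a - (pl' t').re < q.a - (pl t).re → q.r + 2 * z < q'.r → q'.ρ < q.ρ - 3 * R →
    0 ≤ tc' q' ∧ tc' q' - t' ≤ tc q - t
  x1 : ∀ q ∈ Q, ∀ q' ∈ Q, 0 ≤ tx q → q'.a - (pl' t').re < q.a - (pl t).re → q.r + 2 * z < q'.r → q'.ρ < q.ρ - 3 * R →
    q'.m < q.m → q.r2 + 2 * z < q'.r2 → q'.ρ2 < q.ρ2 - 3 * R2 → 0 ≤ tx' q' ∧ tx' q' - t' ≤ tx q - t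
  /-- windows: only the distance of the places is lost -/
  x2 : ∀ q ∈ Q, ∀ q' ∈ Q, ∀ q'' ∈ Q, 0 ≤ tx q → q'.a - (pl' t').re < q.a - (pl t).re → q.r + 2 * z < q'.r →
    q'.ρ < q.ρ - 3 * R → q'.m < q.m → q.r2 + 2 * z < q'.r2 → q'.ρ2 < q.ρ2 - 3 * R2 → q''.a = q'.a → q''.m = q'.m →
    q.r + 2 * z < q''.r → q''.ρ + ‖(pl' (tc' q') - pl' t') - (pl (tc q) - pl t)‖ < q.ρ → q.r2 + 2 * z < q''.r2 →
    q''.ρ2 + ‖(pl' (tx' q') - pl' t') - (pl (tx q) - pl t)‖ < q.ρ2 → 0 ≤ tx' q''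

/-- dense between `x` and `y` -/
def Dn (D : Set ℝ) (x y : ℝ) : Prop := ∀ u v : ℝ, x ≤ u → u < v → v ≤ y → ∃ d ∈ D, u < d ∧ d < v

/-- the countable set of parameters is rich near the parameters `w` of the class: `rl`, `rh` and `sl`, `sh` = diameters below and above
`w.r` and `w.r2` -/
structure Net (Q : Set Qg) (L : Set ℝ) (w : Qg) (z R R2 lo hi δ rl rh sl sh : ℝ) : Prop where
  pδ : 0 < δ
  pz : 0 ≤ z
  pR : 0 ≤ R
  pR2 : 0 ≤ R2
  Ll : ∀ l ∈ L, lo ≤ l ∧ l ≤ hi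
  dL : Dn L lo hi
  prl : rl + 2 * z < w.r
  prh : w.r + 2 * z < rh
  psl : sl + 2 * z < w.r2
  psh : w.r2 + 2 * z < sh
  D : ∃ D1 D2 D3 D4 D5 : Set ℝ, (∀ l ∈ L, ∀ r ∈ D1, ∀ ρ ∈ D2, ∀ m ∈ D3, ∀ r2 ∈ D4, ∀ ρ2 ∈ D5, (⟨l, r, ρ, m, r2, ρ2⟩ : Qg) ∈ Q) ∧
    w.r ∈ D1 ∧ rl ∈ D1 ∧ rh ∈ D1 ∧ w.ρ ∈ D2 ∧ w.m ∈ D3 ∧ w.r2 ∈ D4 ∧ sl ∈ D4 ∧ sh ∈ D4 ∧ w.ρ2 ∈ D5 ∧
    Dn D2 (w.ρ - 6 * R - δ) w.ρ ∧ Dn D3 (w.m - δ) w.m ∧ Dn D5 (w.ρ2 - 6 * R2 - δ) w.ρ2

/-- **the gates at the functional level `lev t + f`**: an active free cell exists; `u`, `v` = durations from `t` to the gates -/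
def FG (L : Set ℝ) (w : Qg) (f t : ℝ) (pl : ℝ → ℂ) (tc tx : Qg → ℝ) (u v : ℝ) : Prop :=
  ∃ l ∈ L, ∃ k ∈ L, l < (pl t).re + f ∧ (pl t).re + f < k ∧ 0 ≤ tx (w.at l) ∧ k < (pl (tc (w.at l))).re ∧
    u = tc (w.at l) - t ∧ v = tx (w.at l) - t

section self

variable {Q : Set Qg} {L : Set ℝ} {w : Qg} {z R R2 lo hi δ rl rh sl sh f t : ℝ} {pl : ℝ → ℂ} {tc tx : Qg → ℝ}

lemma Net.mem (h : Net Q L w z R R2 lo hi δ rl rh sl sh) {l : ℝ} (hl : l ∈ L) : w.at l ∈ Q := by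
  obtain ⟨D1, D2, D3, D4, D5, h1, h2, -, -, h3, h4, h5, -, -, h6, -⟩ := h.D
  exact h1 l hl _ h2 _ h3 _ h4 _ h5 _ h6

/-- the levels of a free cell give the same gates -/
lemma free (hN : Net Q L w z R R2 lo hi δ rl rh sl sh) (hs : Sf Q pl tc tx) {l k a : ℝ} (hl : l ∈ L) (ha : a ∈ L)
    (h0 : 0 ≤ tx (w.at l)) (hk : k < (pl (tc (w.at l))).re) (h1 : l ≤ a) (h2 : a ≤ k) :
    tc (w.at a) = tc (w.at l) ∧ tx (w.at a) = tx (w.at l) :=
  ⟨hs.cl _ (hN.mem hl) _ (hN.mem ha) (hs.xc _ (hN.mem hl) h0) h1 (h2.trans_lt hk) rfl rfl,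
    hs.xl _ (hN.mem hl) _ (hN.mem ha) h0 h1 (h2.trans_lt hk) rfl rfl rfl rfl rfl⟩

/-- **the gates at the functional level are unique** -/
theorem fg_unique (hN : Net Q L w z R R2 lo hi δ rl rh sl sh) (hs : Sf Q pl tc tx) {u v u' v' : ℝ}
    (h : FG L w f t pl tc tx u v) (h' : FG L w f t pl tc tx u' v') : u = u' ∧ v = v' := by
  obtain ⟨l, hl, k, hk, a1, a2, a3, a4, a5, a6⟩ := h
  obtain ⟨l', hl', k', hk', b1, b2, b3, b4, b5, b6⟩ := h'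
  rcases le_total l l' with h | h
  · obtain ⟨e1, e2⟩ := free hN hs hl hl' a3 a4 h (b1.trans a2).le
    rw [a5, a6, b5, b6, e1, e2]
    exact ⟨rfl, rfl⟩
  · obtain ⟨e1, e2⟩ := free hN hs hl' hl b3 b4 h (a1.trans b2).le
    rw [a5, a6, b5, b6, e1, e2]
    exact ⟨rfl, rfl⟩

end self

section pair

variable {Q : Set Qg} {L : Set ℝ} {w : Qg} {z R R2 lo hi δ rl rh sl sh f t t' e : ℝ} {pl pl' : ℝ → ℂ} {tc tx tc' tx' : Qg → ℝ}

/-- **two strands with a common piece have the same gates at the functional level** -/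
theorem fg_loc (hN : Net Q L w z R R2 lo hi δ rl rh sl sh) (hs : Sf Q pl tc tx) (hs' : Sf Q pl' tc' tx')
    (hC : ∀ l ∈ L, Cn Q tx (w.at l)) (hC' : ∀ l ∈ L, Cn Q tx' (w.at l))
    (h1 : LMo Q z R R2 t t' pl pl' tc tx tc' tx') (h2 : LMo Q z R R2 t' t pl' pl tc' tx' tc tx)
    (he : ∀ u : ℝ, 0 ≤ u → u ≤ e → pl' (t' + u) - pl' t' = pl (t + u) - pl t) (hpc : Continuous pl)
    (hlo' : lo < (pl' t').re + f) (hhi' : (pl' t').re + f < hi)
    {u v : ℝ} (hu0 : 0 ≤ u) (hve : v ≤ e) (hdu : DmL pl (t + u) rl) (hdv : DmL pl (t + v) sl)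
    (h : FG L w f t pl tc tx u v) : FG L w f t' pl' tc' tx' u v := by
  obtain ⟨l, hl, k, hk, a1, a2, a3, a4, a5, a6⟩ := h
  obtain ⟨b, hb⟩ : ∃ b, b = (pl t).re := ⟨_, rfl⟩
  obtain ⟨b', hb'⟩ : ∃ b', b' = (pl' t').re := ⟨_, rfl⟩
  obtain ⟨D1, D2, D3, D4, D5, hQ, k1, k1l, k1h, k2, k3, k4, k4l, k4h, k5, d2, d3, d5⟩ := hN.D
  have hδ := hN.pδ
  have hR := hN.pR
  have hR2 := hN.pR2
  have hz := hN.pz
  have n1 := hN.prl
  have n2 := hN.prh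
  have n3 := hN.psl
  have n4 := hN.psh
  obtain ⟨hl1, hl2⟩ := hN.Ll l hl
  obtain ⟨hk1, hk2⟩ := hN.Ll k hk
  rw [← hb] at a1 a2
  rw [← hb'] at hlo' hhi'
  have hlk : l < k := a1.trans a2
  have hxc := hs.ord _ (hN.mem hl) a3
  have i1 : t ≤ tc (w.at l) := by linarith
  have i4 : tx (w.at l) - t ≤ e := by linarith
  have i2 : tc (w.at l) - t ≤ e := by linarith
  -- parameters
  obtain ⟨ρ', hρ', hρ'1, hρ'2⟩ := d2 (w.ρ - 3 * R - δ / 2) (w.ρ - 3 * R) (by linarith) (by linarith) (by linarith)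
  obtain ⟨ρ'', hρ'', hρ''1, hρ''2⟩ := d2 (w.ρ - 6 * R - δ) (ρ' - 3 * R) le_rfl (by linarith) (by linarith)
  obtain ⟨σ', hσ', hσ'1, hσ'2⟩ := d5 (w.ρ2 - 3 * R2 - δ / 2) (w.ρ2 - 3 * R2) (by linarith) (by linarith) (by linarith)
  obtain ⟨σ3, hσ3, hσ31, hσ32⟩ := d5 (w.ρ2 - 6 * R2 - δ) (σ' - 3 * R2) le_rfl (by linarith) (by linarith)
  -- the gates of the first strand at the smaller diameters
  have hlow : ∀ a ∈ L, l ≤ a → a ≤ k → 0 ≤ tx (w.at a) ∧ tc (w.at a) = tc (w.at l) ∧ tx (w.at a) = tx (w.at l) ∧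
      0 ≤ tx ⟨a, rl, w.ρ, w.m, sl, w.ρ2⟩ ∧ tc ⟨a, rl, w.ρ, w.m, sl, w.ρ2⟩ = tc (w.at l) ∧
      tx ⟨a, rl, w.ρ, w.m, sl, w.ρ2⟩ = tx (w.at l) := by
    intro a ha h3 h4
    obtain ⟨e1, e2⟩ := free hN hs hl ha a3 a4 h3 h4
    have hq : (⟨a, rl, w.ρ, w.m, sl, w.ρ2⟩ : Qg) ∈ Q := hQ a ha _ k1l _ k2 _ k3 _ k4l _ k5
    have e3 : DmL pl (tc (w.at a)) rl := by
      rw [e1]
      have : tc (w.at l) = t + u := by linarith
      rw [this]
      exact hdu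
    have e4 : DmL pl (tx (w.at a)) sl := by
      rw [e2]
      have : tx (w.at l) = t + v := by linarith
      rw [this]
      exact hdv
    have e5 : 0 ≤ tx (w.at a) := by rw [e2]; exact a3
    have e6 := hs.cd (w.at a) (hN.mem ha) _ hq (hs.xc _ (hN.mem ha) e5) rfl rfl e3
    have e7 := hs.xd (w.at a) (hN.mem ha) _ hq e5 rfl rfl rfl rfl e3 e4
    exact ⟨e5, e1, e2, by rw [e7]; exact e5, by rw [e6, e1], by rw [e7, e2]⟩
  -- the key statement at one level of the second strand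
  have key : ∀ a' ∈ L, l - b < a' - b' → a' - b' < k - b →
      0 ≤ tx' (w.at a') ∧ tc' (w.at a') - t' = tc (w.at l) - t ∧ tx' (w.at a') - t' = tx (w.at l) - t := by
    intro a' ha' g1 g2
    obtain ⟨ha'1, ha'2⟩ := hN.Ll a' ha'
    -- a higher level of the first strand, and a lower one
    obtain ⟨a, ha, ha1, ha2⟩ := hN.dL (max l (a' - b' + b)) k (hl1.trans (le_max_left _ _)) (max_lt hlk (by linarith)) hk2
    have ha1' := lt_of_le_of_lt (le_max_left _ _) ha1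
    have ha1'' := lt_of_le_of_lt (le_max_right _ _) ha1
    obtain ⟨a0, ha0, ha01, ha02⟩ := hN.dL l (min k (a' - b' + b)) hl1 (lt_min hlk (by linarith)) ((min_le_left _ _).trans hk2)
    have ha02' := lt_of_lt_of_le ha02 (min_le_left _ _)
    have ha02'' := lt_of_lt_of_le ha02 (min_le_right _ _)
    obtain ⟨-, e1', e2', e5, e1, e2⟩ := hlow a ha ha1'.le ha2.le
    obtain ⟨f0, e3, e4, -, -, -⟩ := hlow a0 ha0 ha01.le ha02'.le
    have hqa : (⟨a, rl, w.ρ, w.m, sl, w.ρ2⟩ : Qg) ∈ Q := hQ a ha _ k1l _ k2 _ k3 _ k4l _ k5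
    have hlev : a' - (pl' t').re < a - (pl t).re := by
      rw [← hb, ← hb']
      linarith
    have hlev2 : a0 - (pl t).re < a' - (pl' t').re := by
      rw [← hb, ← hb']
      linarith
    -- the first gate at the weak parameters, for every threshold below `w.m`
    have hcE : ∀ m' ∈ D3, m' < w.m → w.m - δ < m' →
        tc' ⟨a', w.r, ρ', m', w.r2, σ'⟩ - t' = tc (w.at l) - t ∧ 0 ≤ tx' ⟨a', w.r, ρ', m', w.r2, σ'⟩ ∧
          tx' ⟨a', w.r, ρ', m', w.r2, σ'⟩ - t' ≤ tx (w.at l) - t := by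
      intro m' hm' hm1 hm2
      have hq' : (⟨a', w.r, ρ', m', w.r2, σ'⟩ : Qg) ∈ Q := hQ a' ha' _ k1 ρ' hρ' m' hm' _ k4 σ' hσ'
      obtain ⟨f1, f2⟩ := h1.x1 _ hqa ⟨a', w.r, ρ', m', w.r2, σ'⟩ hq' e5 hlev n1 hρ'2 hm1 n3 hσ'2
      rw [e2] at f2
      obtain ⟨f3, f4⟩ := h1.c1 _ hqa ⟨a', w.r, ρ', m', w.r2, σ'⟩ hq' (hs.xc _ hqa e5) hlev n1 hρ'2
      rw [e1] at f4
      have hq0 : (⟨a0, rh, ρ'', w.m, w.r2, w.ρ2⟩ : Qg) ∈ Q := hQ a0 ha0 _ k1h ρ'' hρ'' _ k3 _ k4 _ k5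
      obtain ⟨f5, f6⟩ := h2.c1 ⟨a', w.r, ρ', m', w.r2, σ'⟩ hq' ⟨a0, rh, ρ'', w.m, w.r2, w.ρ2⟩ hq0 f3 hlev2 n2 hρ''2
      have f7 := hs.cw (w.at a0) (hN.mem ha0) ⟨a0, rh, ρ'', w.m, w.r2, w.ρ2⟩ hq0 (hs.xc _ (hN.mem ha0) f0) rfl (by
          show w.r ≤ rh
          linarith) (by
          show ρ'' ≤ w.ρ
          linarith)
      rw [f7, e3] at f6
      exact ⟨le_antisymm f4 f6, f1, f2⟩
    -- the second gate: thresholds near `w.m`
    have hxE : ∀ η : ℝ, 0 < η → ∃ μ : ℝ, 0 < μ ∧ ∀ m' ∈ D3, m' < w.m → w.m - μ < m' →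
        |tx' ⟨a', w.r, ρ', m', w.r2, σ'⟩ - t' - (tx (w.at l) - t)| ≤ η := by
      intro η hη
      obtain ⟨μ, hμ, hμ'⟩ := hC a0 ha0 η hη
      refine ⟨min μ δ, lt_min hμ hδ, fun m' hm' hm1 hm2 => ?_⟩
      have hmμ : w.m - μ < m' := lt_of_le_of_lt (sub_le_sub_left (min_le_left _ _) _) hm2
      have hmδ : w.m - δ < m' := lt_of_le_of_lt (sub_le_sub_left (min_le_right _ _) _) hm2
      obtain ⟨g3, g4, g5⟩ := hcE m' hm' hm1 hmδ
      obtain ⟨m3, hm3, hm31, hm32⟩ := d3 (max (w.m - μ) (w.m - δ)) m' (le_max_right _ _) (max_lt hmμ hmδ) hm1.le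
      have hm31' := lt_of_le_of_lt (le_max_left _ _) hm31
      have hq' : (⟨a', w.r, ρ', m', w.r2, σ'⟩ : Qg) ∈ Q := hQ a' ha' _ k1 ρ' hρ' m' hm' _ k4 σ' hσ'
      have hq3 : (⟨a0, rh, ρ'', m3, sh, σ3⟩ : Qg) ∈ Q := hQ a0 ha0 _ k1h ρ'' hρ'' m3 hm3 _ k4h σ3 hσ3
      have hq4 : (⟨a0, w.r, w.ρ, m3, w.r2, w.ρ2⟩ : Qg) ∈ Q := hQ a0 ha0 _ k1 _ k2 m3 hm3 _ k4 _ k5
      obtain ⟨f1, f2⟩ := h2.x1 ⟨a', w.r, ρ', m', w.r2, σ'⟩ hq' ⟨a0, rh, ρ'', m3, sh, σ3⟩ hq3 g4 hlev2 n2 hρ''2 hm32 n4 hσ32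
      have hnear : (w.at a0).Near ⟨a0, w.r, w.ρ, m3, w.r2, w.ρ2⟩ μ := by
        refine ⟨?_, ?_, ?_, ?_, ?_, ?_⟩
        · show |a0 - a0| ≤ μ
          rw [sub_self, abs_zero]
          exact hμ.le
        · show |w.r - w.r| ≤ μ
          rw [sub_self, abs_zero]
          exact hμ.le
        · show |w.ρ - w.ρ| ≤ μ
          rw [sub_self, abs_zero]
          exact hμ.le
        · show |m3 - w.m| ≤ μ
          rw [abs_le]
          constructor <;> linarith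
        · show |w.r2 - w.r2| ≤ μ
          rw [sub_self, abs_zero]
          exact hμ.le
        · show |w.ρ2 - w.ρ2| ≤ μ
          rw [sub_self, abs_zero]
          exact hμ.le
      obtain ⟨f3, f4⟩ := hμ' _ hq4 hnear
      have f6 := f4 f0
      have f7 := hs.xw ⟨a0, w.r, w.ρ, m3, w.r2, w.ρ2⟩ hq4 ⟨a0, rh, ρ'', m3, sh, σ3⟩ hq3 (f3.1 f0) rfl rfl (by
        show w.r ≤ rh
        linarith) (by
        show ρ'' ≤ w.ρ
        linarith) (by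
        show w.r2 ≤ sh
        linarith) (by
        show σ3 ≤ w.ρ2
        linarith)
      rw [e4] at f6
      rw [f7] at f2
      have f8 := abs_le.1 f6
      rw [abs_le]
      constructor <;> linarith
    -- the full windows
    have hfull : ∀ μ η : ℝ, 0 < μ → 0 < η → ∃ q ∈ Q, (w.at a').Near q μ ∧ 0 ≤ tx' q ∧
        |tx' q - t' - (tx (w.at l) - t)| ≤ η := by
      intro μ η hμ hη
      obtain ⟨ν, hν⟩ : ∃ ν, ν = min (min μ δ) (min (w.ρ2 - σ') (w.ρ - ρ')) := ⟨_, rfl⟩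
      have hν0 : 0 < ν := by
        rw [hν]
        exact lt_min (lt_min hμ hδ) (lt_min (by linarith) (by linarith))
      have hνμ : ν ≤ μ := by rw [hν]; exact (min_le_left _ _).trans (min_le_left _ _)
      have hνδ : ν ≤ δ := by rw [hν]; exact (min_le_left _ _).trans (min_le_right _ _)
      have hνσ : ν ≤ w.ρ2 - σ' := by rw [hν]; exact (min_le_right _ _).trans (min_le_left _ _)
      have hνρ : ν ≤ w.ρ - ρ' := by rw [hν]; exact (min_le_right _ _).trans (min_le_right _ _)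
      -- continuity of the curve at `x`
      obtain ⟨ε, hε, hcont⟩ := Metric.continuousAt_iff.1 (hpc.continuousAt (x := tx (w.at l))) (ν / 2) (half_pos hν0)
      obtain ⟨μ1, hμ1, hx1⟩ := hxE (min η (ε / 2)) (lt_min hη (by positivity))
      have z0 : 0 < min (min μ μ1) (δ / 2) := lt_min (lt_min hμ hμ1) (by positivity)
      have z1 : min (min μ μ1) (δ / 2) ≤ μ := (min_le_left _ _).trans (min_le_left _ _)
      have z2 : min (min μ μ1) (δ / 2) ≤ μ1 := (min_le_left _ _).trans (min_le_right _ _)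
      have z3 : min (min μ μ1) (δ / 2) ≤ δ / 2 := min_le_right _ _
      obtain ⟨m', hm', hm1, hm2⟩ := d3 (w.m - min (min μ μ1) (δ / 2)) w.m (by linarith) (by linarith) le_rfl
      obtain ⟨g3, g4, g5⟩ := hcE m' hm' hm2 (by linarith)
      have g6 := hx1 m' hm' hm2 (by linarith)
      have g7 : |tx' ⟨a', w.r, ρ', m', w.r2, σ'⟩ - t' - (tx (w.at l) - t)| ≤ ε / 2 := g6.trans (min_le_right _ _)
      have hq' : (⟨a', w.r, ρ', m', w.r2, σ'⟩ : Qg) ∈ Q := hQ a' ha' _ k1 ρ' hρ' m' hm' _ k4 σ' hσ'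
      -- the places
      have p1 : ‖(pl' (tc' ⟨a', w.r, ρ', m', w.r2, σ'⟩) - pl' t') - (pl (tc ⟨a, rl, w.ρ, w.m, sl, w.ρ2⟩) - pl t)‖ = 0 := by
        have e6 : tc' ⟨a', w.r, ρ', m', w.r2, σ'⟩ = t' + (tc (w.at l) - t) := by linarith
        rw [e6, he _ (by linarith) i2, e1, show t + (tc (w.at l) - t) = tc (w.at l) by ring, sub_self, norm_zero]
      have p2 : ‖(pl' (tx' ⟨a', w.r, ρ', m', w.r2, σ'⟩) - pl' t') - (pl (tx ⟨a, rl, w.ρ, w.m, sl, w.ρ2⟩) - pl t)‖ < ν / 2 := by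
        have hd0 : 0 ≤ tx' ⟨a', w.r, ρ', m', w.r2, σ'⟩ - t' := by
          have := hs'.ord _ hq' g4
          linarith
        have e6 : tx' ⟨a', w.r, ρ', m', w.r2, σ'⟩ = t' + (tx' ⟨a', w.r, ρ', m', w.r2, σ'⟩ - t') := by ring
        rw [e6, he _ hd0 (by linarith), e2, sub_sub_sub_cancel_right]
        have h3 := hcont (x := t + (tx' ⟨a', w.r, ρ', m', w.r2, σ'⟩ - t')) (by
          rw [Real.dist_eq, show t + (tx' ⟨a', w.r, ρ', m', w.r2, σ'⟩ - t') - tx (w.at l) =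
            tx' ⟨a', w.r, ρ', m', w.r2, σ'⟩ - t' - (tx (w.at l) - t) by ring]
          linarith)
        rwa [dist_eq_norm] at h3
      -- the parameters near `w`
      obtain ⟨ρ4, hρ4, hρ41, hρ42⟩ := d2 (w.ρ - ν) w.ρ (by linarith) (by linarith) le_rfl
      obtain ⟨σ4, hσ4, hσ41, hσ42⟩ := d5 (w.ρ2 - ν) (w.ρ2 - ν / 2) (by linarith) (by linarith) (by linarith)
      have hq4 : (⟨a', w.r, ρ4, m', w.r2, σ4⟩ : Qg) ∈ Q := hQ a' ha' _ k1 ρ4 hρ4 m' hm' _ k4 σ4 hσ4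
      have f1 := h1.x2 _ hqa ⟨a', w.r, ρ', m', w.r2, σ'⟩ hq' ⟨a', w.r, ρ4, m', w.r2, σ4⟩ hq4 e5 hlev n1 hρ'2
        hm2 n3 hσ'2 rfl rfl n1 (by
          rw [p1, add_zero]
          exact hρ42) n3 (by
          show σ4 + _ < w.ρ2
          linarith)
      -- the gate does not depend on the windows
      have f2 := hs'.xw ⟨a', w.r, ρ4, m', w.r2, σ4⟩ hq4 ⟨a', w.r, ρ', m', w.r2, σ'⟩ hq' f1 rfl rfl le_rfl (by
        show ρ' ≤ ρ4
        linarith) le_rfl (by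
        show σ' ≤ σ4
        linarith)
      refine ⟨_, hq4, ⟨?_, ?_, ?_, ?_, ?_, ?_⟩, f1, ?_⟩
      · show |a' - a'| ≤ μ
        rw [sub_self, abs_zero]
        exact hμ.le
      · show |w.r - w.r| ≤ μ
        rw [sub_self, abs_zero]
        exact hμ.le
      · show |ρ4 - w.ρ| ≤ μ
        rw [abs_le]
        constructor <;> linarith
      · show |m' - w.m| ≤ μ
        rw [abs_le]
        constructor <;> linarith
      · show |w.r2 - w.r2| ≤ μ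
        rw [sub_self, abs_zero]
        exact hμ.le
      · show |σ4 - w.ρ2| ≤ μ
        rw [abs_le]
        constructor <;> linarith
      · rw [← f2]
        exact g6.trans (min_le_left _ _)
    -- the gate at the parameters `w`
    have hx0 : 0 ≤ tx' (w.at a') := by
      obtain ⟨μ, hμ, hμ'⟩ := hC' a' ha' 1 one_pos
      obtain ⟨q, hq, hn, h3, -⟩ := hfull μ 1 hμ one_pos
      exact (hμ' q hq hn).1.2 h3
    refine ⟨hx0, ?_, ?_⟩
    · obtain ⟨m', hm', hm1, hm2⟩ := d3 (w.m - δ) w.m le_rfl (by linarith) le_rfl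
      obtain ⟨g3, -, -⟩ := hcE m' hm' hm2 hm1
      have hq' : (⟨a', w.r, ρ', m', w.r2, σ'⟩ : Qg) ∈ Q := hQ a' ha' _ k1 ρ' hρ' m' hm' _ k4 σ' hσ'
      have f1 := hs'.cw (w.at a') (hN.mem ha') ⟨a', w.r, ρ', m', w.r2, σ'⟩ hq' (hs'.xc _ (hN.mem ha') hx0) rfl le_rfl (by
        show ρ' ≤ w.ρ
        linarith)
      rw [← f1]
      exact g3
    · have h3 : ∀ η : ℝ, 0 < η → |tx' (w.at a') - t' - (tx (w.at l) - t)| ≤ η := by
        intro η hη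
        obtain ⟨μ, hμ, hμ'⟩ := hC' a' ha' (η / 2) (half_pos hη)
        obtain ⟨q, hq, hn, h3, h4⟩ := hfull μ (η / 2) hμ (half_pos hη)
        have h5 := (hμ' q hq hn).2 hx0
        have h6 := abs_le.1 h4
        have h7 := abs_le.1 h5
        rw [abs_le]
        constructor <;> linarith
      have h4 : |tx' (w.at a') - t' - (tx (w.at l) - t)| ≤ 0 := le_of_forall_pos_le_add fun η hη => by
        rw [zero_add]
        exact h3 η hη
      have h5 := abs_nonpos_iff.1 h4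
      linarith
  -- the free cell of the second strand
  obtain ⟨l', hl', hl'1, hl'2⟩ := hN.dL (max lo (l - b + b')) (b' + f) (le_max_left _ _) (max_lt hlo' (by linarith)) hhi'.le
  obtain ⟨k', hk', hk'1, hk'2⟩ := hN.dL (b' + f) (min hi (k - b + b')) hlo'.le (lt_min hhi' (by linarith)) (min_le_left _ _)
  have hl'3 := lt_of_le_of_lt (le_max_right _ _) hl'1
  have hk'3 := lt_of_lt_of_le hk'2 (min_le_right _ _)
  obtain ⟨g1, g2, g3⟩ := key l' hl' (by linarith) (by linarith)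
  refine ⟨l', hl', k', hk', ?_, ?_, g1, ?_, by rw [a5, g2], by rw [a6, g3]⟩
  · rw [← hb']
    exact hl'2
  · rw [← hb']
    exact hk'1
  · have e5 : tc' (w.at l') = t' + (tc (w.at l) - t) := by linarith
    have e6 := he _ (sub_nonneg.2 i1) i2
    rw [← e5, show t + (tc (w.at l) - t) = tc (w.at l) by ring] at e6
    have e7 := congrArg Complex.re e6
    rw [Complex.sub_re, Complex.sub_re, ← hb, ← hb'] at e7
    linarith

end pair

end Pool.Agent.ROT.F3.LR
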