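import Pool.Agent.ROT.F3K7La
import Pool.Agent.ROT.F3LocA
import Pool.Agent.ROT.F3WLim

/-!
# ROT, block F3, row K7 (LOC): good words near two curves with a common piece (helper66)

* `GdSeq b R R2 Gj` : good closed words number `j = 0, 1, ...`; **`good_seq`** : existence;
* `PcL R p t e` : the piece of the strand `p` between the times `t` and `e`; `Apx` : a word near the strand, with the piece;
* `wc`, `wx` : the marks of a word; `LocG` : the closed curves near which there are good words with close marks; **`locG_ae`**;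
* **`approx`** : two such curves with equal pieces: words with close pieces.
-/

set_option autoImplicit false

open Set Filter Topology MeasureTheory
open scoped BoundedContinuousFunction ENNReal

namespace Pool.Agent.ROT.F3.K7

open Pool.Agent.NTS.Res (step pos saw fug size curve)
open Pool.Agent.CRT (CI)
open Pool.Agent.SCF.Z Pool.Agent.SCF.M
open Pool.Agent.ROT.F (QB)
open Pool.Agent.ROT.F3.LR (Qg)

/-- **good closed words** number `j`, scales `R`, `R2` -/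
structure GdSeq (b R R2 : ℝ) (Gj : ℕ → ℕ → W3 × ℕ → Prop) : Prop where
  mass : ∀ j : ℕ, ∀ᶠ N : ℕ in atTop, (mwE N b).real {x | ¬ Gj j N x} ≤ (1 / 2 : ℝ) ^ j
  win : ∀ (j N : ℕ) (x : W3 × ℕ), Gj j N x → 0 < N ∧ ∃ n : ℕ, x.1.length = n + 1 ∧ F3.Cl x.1 ∧ Even x.2 ∧ 1 ≤ x.2 ∧ x.2 ≤ n
  near : ∀ j : ℕ, ∃ β KK β' KK' θ δ : ℝ, 0 < θ ∧ θ ≤ 1 / (j + 1) ∧ 0 < δ ∧
    ∀ (N : ℕ) (x x' : W3 × ℕ), Gj j N x → Gj j N x' → ∀ (k k' : Arm) (T T' : LSym) (i m i' m' : ℕ),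
      PieX R N (sdw T k x).get i m → PieX R2 N (sdw T k x).get i m → PieX R N (sdw T' k' x').get i' m' →
      PieX R2 N (sdw T' k' x').get i' m' →
      1003 * (R * N) ≤ ‖ps (sdw T k x) (sdw T k x).length‖ → 1003 * (R2 * N) ≤ ‖ps (sdw T k x) (sdw T k x).length‖ →
      1003 * (R * N) ≤ ‖ps (sdw T' k' x') (sdw T' k' x').length‖ → 1003 * (R2 * N) ≤ ‖ps (sdw T' k' x') (sdw T' k' x').length‖ →
      dist (XS N (md (sdw T k x).get i m)) (XS N (md (sdw T' k' x').get i' m')) ≤ δ →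
      PcS β (1 / (j + 1)) θ KK R N (md (sdw T k x).get i m) (md (sdw T' k' x').get i' m') ∧
        PcS β' (1 / (j + 1)) θ KK' R2 N (md (sdw T k x).get i m) (md (sdw T' k' x').get i' m')

/-- **existence of good closed words** -/
theorem good_seq (hQ : QB) {b : ℝ} (hb : 0 ≤ b) {R R2 : ℝ} (hR : 0 < R) (hR2 : 0 < R2) :
    ∃ Gj : ℕ → ℕ → W3 × ℕ → Prop, GdSeq b R R2 Gj := by
  have h : ∀ j : ℕ, ∃ Gd : ℕ → W3 × ℕ → Prop, (∀ᶠ N : ℕ in atTop, (mwE N b).real {x | ¬ Gd N x} ≤ (1 / 2 : ℝ) ^ j) ∧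
      (∀ (N : ℕ) (x : W3 × ℕ), Gd N x → 0 < N ∧ ∃ n : ℕ, x.1.length = n + 1 ∧ F3.Cl x.1 ∧ Even x.2 ∧ 1 ≤ x.2 ∧ x.2 ≤ n) ∧
      ∃ β KK β' KK' θ δ : ℝ, 0 < θ ∧ θ ≤ 1 / (j + 1) ∧ 0 < δ ∧
        ∀ (N : ℕ) (x x' : W3 × ℕ), Gd N x → Gd N x' → ∀ (k k' : Arm) (T T' : LSym) (i m i' m' : ℕ),
          PieX R N (sdw T k x).get i m → PieX R2 N (sdw T k x).get i m → PieX R N (sdw T' k' x').get i' m' →
          PieX R2 N (sdw T' k' x').get i' m' →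
          1003 * (R * N) ≤ ‖ps (sdw T k x) (sdw T k x).length‖ → 1003 * (R2 * N) ≤ ‖ps (sdw T k x) (sdw T k x).length‖ →
          1003 * (R * N) ≤ ‖ps (sdw T' k' x') (sdw T' k' x').length‖ →
          1003 * (R2 * N) ≤ ‖ps (sdw T' k' x') (sdw T' k' x').length‖ →
          dist (XS N (md (sdw T k x).get i m)) (XS N (md (sdw T' k' x').get i' m')) ≤ δ →
          PcS β (1 / (j + 1)) θ KK R N (md (sdw T k x).get i m) (md (sdw T' k' x').get i' m') ∧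
            PcS β' (1 / (j + 1)) θ KK' R2 N (md (sdw T k x).get i m) (md (sdw T' k' x').get i' m') := by
    intro j
    have hj : (0 : ℝ) < 1 / (j + 1) := by positivity
    obtain ⟨β, KK, θ1, δ1, K1, hβ, hKK, hθ1, hδ1, hK1, H⟩ := strand_near hQ hb (ε := (1 / 2 : ℝ) ^ j / 2) hR (by positivity) hj
    obtain ⟨β', KK', θ1', δ1', K1', hβ', hKK', hθ1', hδ1', hK1', H'⟩ := strand_near hQ hb (ε := (1 / 2 : ℝ) ^ j / 2) hR2 (by positivity) hj
    obtain ⟨θ, hθ0, h1, h2, h3⟩ : ∃ θ : ℝ, 0 < θ ∧ θ ≤ θ1 ∧ θ ≤ θ1' ∧ θ ≤ 1 / (j + 1) :=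
      ⟨min θ1 (min θ1' (1 / (j + 1))), lt_min hθ1 (lt_min hθ1' hj), min_le_left _ _, (min_le_right _ _).trans (min_le_left _ _),
        (min_le_right _ _).trans (min_le_right _ _)⟩
    obtain ⟨δ, Gd, hδ, a1, a2, a3⟩ := H θ hθ0 h1 1
    obtain ⟨δ', Gd', hδ', b1, b2, b3⟩ := H' θ hθ0 h2 1
    refine ⟨fun N x => Gd N x ∧ Gd' N x, ?_, fun N x hx => ?_, β, KK, β', KK', θ, min δ δ', hθ0, h3, lt_min hδ hδ',
      fun N x x' hx hx' k k' T T' i m i' m' P P2 P' P2' hE hE2 hE' hE2' hX => ⟨?_, ?_⟩⟩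
    · filter_upwards [a1, b1] with N c1 c2
      have hfin : IsFiniteMeasure (mwE N b) := by
        unfold mwE
        infer_instance
      have hsub : {x | ¬ (Gd N x ∧ Gd' N x)} ⊆ {x | ¬ Gd N x} ∪ {x | ¬ Gd' N x} := by
        intro x hx
        by_contra hcon
        rw [mem_union, not_or] at hcon
        exact hx ⟨not_not.1 hcon.1, not_not.1 hcon.2⟩
      have := (measureReal_mono (μ := mwE N b) hsub).trans (measureReal_union_le _ _)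
      linarith
    · obtain ⟨n, hW⟩ := a2 N x hx.1
      have hn1 : 1 ≤ n := hW.n0
      have hn0 : (0 : ℝ) < n := by exact_mod_cast hn1
      refine ⟨?_, n, hW.len, hW.cl, hW.ev, ?_, ?_⟩
      · rcases Nat.eq_zero_or_pos N with h0 | h0
        · exfalso
          have h5 := hW.N2
          rw [h0, Nat.cast_zero, mul_zero] at h5
          have : 0 < (n : ℝ) ^ (3 / 4 : ℝ) := by positivity
          linarith
        · exact h0
      · have h5 : (0 : ℝ) < x.2 := (mul_pos hδ1 hn0).trans_le hW.m1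
        exact_mod_cast h5
      · have h5 : (x.2 : ℝ) ≤ n := by
          have h6 := hW.m2
          have h7 := mul_pos hδ1 hn0
          linarith
        exact_mod_cast h5
    · exact a3 N x x' hx.1 hx'.1 k k' T T' i m i' m' P P' hE hE' (hX.trans (min_le_left _ _))
    · exact b3 N x x' hx.2 hx'.2 k k' T T' i m i' m' P2 P2' hE2 hE2' (hX.trans (min_le_right _ _))
  choose Gj h1 h2 h3 using h
  exact ⟨Gj, h1, h2, h3⟩

/-- **the piece of a strand between the times `t` and `e`** -/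
structure PcL (R : ℝ) (p : ℝ × CI) (t e : ℝ) : Prop where
  t0 : 0 ≤ t
  te : t < e
  e1 : e ≤ p.1
  ball : ∀ u ∈ Icc 0 t, ‖pa p u‖ ≤ R / 8 ∧ (pa p u).re ≤ (pa p t).re + R / 64
  far : ∀ u ∈ Icc e p.1, 510 * R ≤ ‖pa p u‖
  fin : 1004 * R ≤ ‖pa p p.1‖

/-- a word near the strand `p`, with the piece from `t` to `e` -/
structure Apx (R R2 z η : ℝ) (p : ℝ × CI) (t e : ℝ) (N : ℕ) (w : W3) (i m : ℕ) : Prop where
  N1 : 1 ≤ N
  len : 1 ≤ w.length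
  m1 : 1 ≤ m
  d : dist (XS (N : ℝ) w.get) p ≤ η
  px : PieX R N w.get i m
  px2 : PieX R2 N w.get i m
  fin : 1003 * (R * N) ≤ ‖ps w w.length‖
  fin2 : 1003 * (R2 * N) ≤ ‖ps w w.length‖
  ti : |(i : ℝ) / (N : ℝ) ^ (4 / 3 : ℝ) - t| ≤ η
  te : |((i + m : ℕ) : ℝ) / (N : ℝ) ^ (4 / 3 : ℝ) - e| ≤ η
  ball : ∀ k : ℕ, k ≤ i → ‖ps w k‖ ≤ (z + η) * N

/-- existence of the piece of a word near the strand -/
theorem apx_of {R R2 z : ℝ} {p : ℝ × CI} {t e : ℝ} (hR : 0 < R) (hR2 : 0 < R2) (h : PcL R p t e) (h2 : PcL R2 p t e)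
    (hz : ∀ u ∈ Icc 0 t, ‖pa p u‖ ≤ z) {η : ℝ} (hη : 0 < η) :
    ∃ (δ : ℝ) (N0 : ℕ), 0 < δ ∧ ∀ (N : ℕ) (w : W3), N0 ≤ N → dist (XS (N : ℝ) w.get) p ≤ δ →
      ∃ i m : ℕ, Apx R R2 z η p t e N w i m ∧ dist (XS (N : ℝ) (md w.get i m)) (ctp p t e) ≤ η := by
  have h0 : 0 < p.1 := by linarith [h.t0, h.te, h.e1]
  obtain ⟨δ1, hδ1, n1⟩ := ctp_near h0 h.t0 h.te h.e1 hη
  obtain ⟨δ2, hδ2, n2⟩ := pieX_near hR h0 h.t0 h.te h.e1 h.ball h.far
  obtain ⟨δ3, hδ3, n3⟩ := pieX_near hR2 h0 h.t0 h.te h.e1 h2.ball h2.far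
  obtain ⟨δ4, hδ4, n4⟩ := pa_near h0 hR
  obtain ⟨δ6, hδ6, n6⟩ := pa_near h0 hR2
  obtain ⟨δm, hδm, m1, m2, m3, m4, m5, m6, m7⟩ : ∃ δm : ℝ, 0 < δm ∧ δm ≤ η ∧ δm ≤ δ1 ∧ δm ≤ δ2 ∧ δm ≤ δ3 ∧ δm ≤ δ4 ∧ δm ≤ p.1 / 2 ∧
      δm ≤ δ6 := by
    obtain ⟨θ1, hθ10, ht⟩ := min_list [η, δ1, δ2, δ3, δ4, p.1 / 2, δ6]
      (by
        intro x hx
        simp only [List.mem_cons, List.not_mem_nil, or_false] at hx
        rcases hx with rfl | rfl | rfl | rfl | rfl | rfl | rfl <;> positivity)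
    simp only [List.mem_cons, List.not_mem_nil, or_false, forall_eq_or_imp, forall_eq] at ht
    exact ⟨θ1, hθ10, ht⟩
  obtain ⟨δ5, N0, hδ5, hN0, n5⟩ := ex_im h.t0 h.te h.e1 hδm
  obtain ⟨N1, hN1⟩ := exists_nat_ge N0
  refine ⟨min δm δ5, N1 + 1, lt_min hδm hδ5, fun N w hN hd => ?_⟩
  have hN' : 1 ≤ N := by omega
  have hNr : (0 : ℝ) < N := by exact_mod_cast hN'
  have hNr2 : N0 ≤ (N : ℝ) := hN1.trans (by exact_mod_cast (by omega : N1 ≤ N))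
  obtain ⟨i, m, e1, e2, e3, e4, e5⟩ := n5 N w.length w.get hNr2 (hd.trans (min_le_right _ _))
  have hd' : dist (XS (N : ℝ) w.get) p ≤ δm := hd.trans (min_le_left _ _)
  have hlen : 1 ≤ w.length := by omega
  have hlast : ∀ {δ : ℝ} {r : ℝ}, 0 < r → (∀ q : ℝ × CI, dist q p ≤ δ → ∀ u u' : ℝ, |u - u'| ≤ δ → ‖pa q u' - pa p u‖ ≤ r) →
      δm ≤ δ → 1004 * r ≤ ‖pa p p.1‖ → 1003 * (r * N) ≤ ‖ps w w.length‖ := by
    intro δ r hr hn hle hfin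
    have hdu : |p.1 - (w.length : ℝ) / (N : ℝ) ^ (4 / 3 : ℝ)| ≤ δ := by
      have : dist (XS (N : ℝ) w.get).1 p.1 ≤ δm := (le_max_left _ _).trans hd'
      rw [dist_comm, Real.dist_eq] at this
      exact this.trans hle
    have h5 := hn (XS (N : ℝ) w.get) (hd'.trans hle) p.1 ((w.length : ℝ) / (N : ℝ) ^ (4 / 3 : ℝ)) hdu
    rw [pa_XS hlen hNr w.get le_rfl, pos_get] at h5
    have h6 := norm_sub_norm_le (pa p p.1) (pa p p.1 - ps w w.length / (N : ℝ))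
    rw [sub_sub_cancel, norm_sub_rev (pa p p.1)] at h6
    have h7 : ‖ps w w.length / ((N : ℝ) : ℂ)‖ = ‖ps w w.length‖ / N := by
      rw [norm_div, Complex.norm_real, Real.norm_of_nonneg hNr.le]
    rw [h7] at h6
    have h8 : 1003 * r ≤ ‖ps w w.length‖ / N := by linarith
    rw [le_div_iff₀ hNr] at h8
    linarith
  refine ⟨i, m, ⟨hN', hlen, e2, hd'.trans m1, n2 N w.length w.get i m hlen hNr (hd'.trans m3) e1 e3 (e4.trans m3) (e5.trans m3),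
    n3 N w.length w.get i m hlen hNr (hd'.trans m4) e1 e3 (e4.trans m4) (e5.trans m4), hlast hR n4 m5 h.fin, hlast hR2 n6 m7 h2.fin,
    e4.trans m1, e5.trans m1, fun k hk => ?_⟩, ?_⟩
  · -- the initial part
    have hT : 0 < (N : ℝ) ^ (4 / 3 : ℝ) := by positivity
    have hki : (k : ℝ) / (N : ℝ) ^ (4 / 3 : ℝ) ≤ (i : ℝ) / (N : ℝ) ^ (4 / 3 : ℝ) :=
      div_le_div_of_nonneg_right (by exact_mod_cast hk) hT.le
    have hk0 : 0 ≤ (k : ℝ) / (N : ℝ) ^ (4 / 3 : ℝ) := by positivity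
    have e4' := abs_le.1 e4
    obtain ⟨u, hu1, hu2⟩ : ∃ u ∈ Icc 0 t, |u - (k : ℝ) / (N : ℝ) ^ (4 / 3 : ℝ)| ≤ δ1 := by
      rcases le_or_gt ((k : ℝ) / (N : ℝ) ^ (4 / 3 : ℝ)) t with h5 | h5
      · exact ⟨_, ⟨hk0, h5⟩, by rw [sub_self, abs_zero]; exact hδ1.le⟩
      · refine ⟨t, ⟨h.t0, le_rfl⟩, ?_⟩
        rw [abs_le]
        constructor <;> linarith
    have h5 := (n1 (XS (N : ℝ) w.get) t e (hd'.trans m2) (by rw [sub_self, abs_zero]; exact hδ1.le)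
      (by rw [sub_self, abs_zero]; exact hδ1.le)).2 u _ hu2
    rw [pa_XS hlen hNr w.get (by omega), pos_get] at h5
    have h6 := norm_sub_norm_le (ps w k / ((N : ℝ) : ℂ)) (pa p u)
    have h7 : ‖ps w k / ((N : ℝ) : ℂ)‖ = ‖ps w k‖ / N := by
      rw [norm_div, Complex.norm_real, Real.norm_of_nonneg hNr.le]
    rw [h7] at h6
    have h8 := hz u hu1
    have h9 : ‖ps w k‖ / N ≤ z + η := by linarith
    rwa [div_le_iff₀ hNr] at h9
  · rw [xs_md hNr w.get e1 e2 e3]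
    exact (n1 (XS (N : ℝ) w.get) _ _ (hd'.trans m2) (e4.trans m2) (e5.trans m2)).1

/-- the mark of the first gate of a word (relative time, `-1` = none) -/
noncomputable def wc (q : Qg) (N : ℝ) (w : W3) : ℝ := mk1 (Dv w.get 0) q.a q.r q.ρ N w.get

/-- the mark of the second gate of a word (relative time, `-1` = none) -/
noncomputable def wx (q : Qg) (N : ℝ) (w : W3) : ℝ := mkB (Dv w.get 0) q.a q.r q.ρ q.m q.r2 q.ρ2 N w.get

/-- the four marks of a word and the indicator -/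
noncomputable def w5 (q q2 : Qg) (N : ℝ) (w : W3) (z : ℝ) : Fin 5 → ℝ := ![wc q N w * z, wx q N w * z, wc q2 N w * z, wx q2 N w * z, z]

/-- **the closed curves near which there are good words with close marks**; `zf` = indicator (of the closed words with distant roots),
`Z` = its limit -/
def LocG (U : Ultrafilter ℕ) (Gj : ℕ → ℕ → W3 × ℕ → Prop) (T : LSym) (k : Arm) (zf : ℕ → W3 × ℕ → ℝ) (Z : ℝ × ℝ × CI → ℝ)
    (Φc Φx : Qg → ℝ × ℝ × CI → ℝ) (q q2 : Qg) :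
    Set (ℝ × ℝ × CI) := {g | ∀ᶠ j in atTop, (g, ![Φc q g, Φx q g, Φc q2 g, Φx q2 g, Z g]) ∈
      KG U (fun (N : ℕ) (x : W3 × ℕ) => (cN N x, w5 q q2 N (sdw T k x) (zf N x))) (Gj j)}

/-- almost every closed curve -/
theorem locG_ae {b R R2 : ℝ} {Gj : ℕ → ℕ → W3 × ℕ → Prop} (hG : GdSeq b R R2 Gj) {U : Ultrafilter ℕ}
    (hU : (U : Filter ℕ) ≤ atTop) {P : Measure (ℝ × ℝ × CI)} (hC : LF.Cv (U : Filter ℕ) (fun N => mwE N b) cN P) (T : LSym) (k : Arm)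
    {zf : ℕ → W3 × ℕ → ℝ} {Z : ℝ × ℝ × CI → ℝ} {Φc Φx : Qg → ℝ × ℝ × CI → ℝ} {q q2 : Qg}
    (h1 : LF.Lm (U : Filter ℕ) (fun N => mwE N b) cN P (fun N x => wc q N (sdw T k x) * zf N x) (Φc q))
    (h2 : LF.Lm (U : Filter ℕ) (fun N => mwE N b) cN P (fun N x => wx q N (sdw T k x) * zf N x) (Φx q))
    (h3 : LF.Lm (U : Filter ℕ) (fun N => mwE N b) cN P (fun N x => wc q2 N (sdw T k x) * zf N x) (Φc q2))
    (h4 : LF.Lm (U : Filter ℕ) (fun N => mwE N b) cN P (fun N x => wx q2 N (sdw T k x) * zf N x) (Φx q2))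
    (h5 : LF.Lm (U : Filter ℕ) (fun N => mwE N b) cN P zf Z) :
    ∀ᵐ g ∂P, g ∈ LocG U Gj T k zf Z Φc Φx q q2 := by
  have hfin := hC.fin'
  have hall : ∀ c : Fin 5, LF.Lm (U : Filter ℕ) (fun N => mwE N b) cN P (fun N x => w5 q q2 N (sdw T k x) (zf N x) c)
      fun g => (![Φc q g, Φx q g, Φc q2 g, Φx q2 g, Z g] : Fin 5 → ℝ) c := by
    intro c
    fin_cases c
    · exact h1
    · exact h2
    · exact h3
    · exact h4
    · exact h5
  have hm : Measurable fun g : ℝ × ℝ × CI => (g, (![Φc q g, Φx q g, Φc q2 g, Φx q2 g, Z g] : Fin 5 → ℝ)) :=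
    measurable_id.prodMk (measurable_pi_iff.2 fun c => (hall c).ms')
  have key := gd_map (Z := (ℝ × ℝ × CI) × (Fin 5 → ℝ)) (z := fun (N : ℕ) (x : W3 × ℕ) => (cN N x, w5 q q2 N (sdw T k x) (zf N x)))
    (ν := P) (F := fun g => (g, ![Φc q g, Φx q g, Φc q2 g, Φx q2 g, Z g])) hm.aemeasurable (Lm.cvu hC hall) (Good := Gj) (W := univ)
    isOpen_univ
    (e := fun j => (1 / 2 : ℝ) ^ j) (fun j => by positivity) (summable_geometric_of_lt_one (by norm_num) (by norm_num)) (fun j => by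
      filter_upwards [hU (hG.mass j)] with N hN
      have hfinN : IsFiniteMeasure (mwE N b) := by
        unfold mwE
        infer_instance
      have e : {x | ¬ Gj j N x ∧ (cN N x, w5 q q2 N (sdw T k x) (zf N x)) ∈ univ} = {x | ¬ Gj j N x} := by
        ext x
        simp
      rw [e]
      rw [measureReal_def] at hN
      exact (ENNReal.le_ofReal_iff_toReal_le (measure_ne_top _ _) (by positivity)).2 hN)
  filter_upwards [key] with g hg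
  exact hg (mem_univ _)

/-- **good words near two curves with equal pieces** -/
theorem approx {b R R2 z : ℝ} {Gj : ℕ → ℕ → W3 × ℕ → Prop} (hG : GdSeq b R R2 Gj) {U : Ultrafilter ℕ}
    (hU : (U : Filter ℕ) ≤ atTop) (hR : 0 < R) (hR2 : 0 < R2) {T T' : LSym} {k k' : Arm} {zf zf' : ℕ → W3 × ℕ → ℝ}
    {Z Z' : ℝ × ℝ × CI → ℝ} {Φc Φx Φc' Φx' : Qg → ℝ × ℝ × CI → ℝ} (hzf : ∀ N x, zf N x = 0 ∨ zf N x = 1)
    (hzf' : ∀ N x, zf' N x = 0 ∨ zf' N x = 1)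
    {q q2 q' q2' : Qg} {g g' : ℝ × ℝ × CI} (hg : g ∈ LocG U Gj T k zf Z Φc Φx q q2) (hg' : g' ∈ LocG U Gj T' k' zf' Z' Φc' Φx' q' q2')
    (hZ : 0 < Z g) (hZ' : 0 < Z' g')
    (h0 : 0 < g.1) (h0' : 0 < g'.1) {t e t' e' : ℝ} (hP : PcL R (lsd T k g) t e) (hP2 : PcL R2 (lsd T k g) t e)
    (hP' : PcL R (lsd T' k' g') t' e') (hP2' : PcL R2 (lsd T' k' g') t' e') (hz : ∀ u ∈ Icc 0 t, ‖pa (lsd T k g) u‖ ≤ z)
    (hz' : ∀ u ∈ Icc 0 t', ‖pa (lsd T' k' g') u‖ ≤ z) (heq : ctp (lsd T k g) t e = ctp (lsd T' k' g') t' e') {η : ℝ} (hη : 0 < η) :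
    ∃ (N : ℕ) (w w' : W3) (i m i' m' : ℕ) (β KK β' KK' θ ν : ℝ), Apx R R2 z η (lsd T k g) t e N w i m ∧
      Apx R R2 z η (lsd T' k' g') t' e' N w' i' m' ∧ 0 < θ ∧ θ ≤ η ∧ 0 < ν ∧ ν ≤ η ∧
      PcS β ν θ KK R N (md w.get i m) (md w'.get i' m') ∧ PcS β' ν θ KK' R2 N (md w.get i m) (md w'.get i' m') ∧
      |wc q N w - Φc q g| ≤ η ∧ |wx q N w - Φx q g| ≤ η ∧ |wc q2 N w - Φc q2 g| ≤ η ∧ |wx q2 N w - Φx q2 g| ≤ η ∧
      |wc q' N w' - Φc' q' g'| ≤ η ∧ |wx q' N w' - Φx' q' g'| ≤ η ∧ |wc q2' N w' - Φc' q2' g'| ≤ η ∧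
      |wx q2' N w' - Φx' q2' g'| ≤ η := by
  obtain ⟨J, hJ⟩ := exists_nat_ge (1 / η)
  obtain ⟨j, ⟨hj1, hj2⟩, hj3⟩ := ((hg.and hg').and (eventually_ge_atTop J)).exists
  have hjη : (1 : ℝ) / (j + 1) ≤ η := by
    have h1 : 1 / η ≤ (j : ℝ) + 1 := hJ.trans (by
      have : (J : ℝ) ≤ j := by exact_mod_cast hj3
      linarith)
    rw [div_le_iff₀ hη] at h1
    rw [div_le_iff₀ (by positivity)]
    linarith
  obtain ⟨β, KK, β', KK', θ, δ, hθ, hθj, hδ, hnear⟩ := hG.near j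
  obtain ⟨η1, hη1, hη1a, hη1b⟩ : ∃ η1 : ℝ, 0 < η1 ∧ η1 ≤ η ∧ η1 ≤ δ / 2 :=
    ⟨min η (δ / 2), lt_min hη (by positivity), min_le_left _ _, min_le_right _ _⟩
  obtain ⟨δ1, N1, hδ1, A1⟩ := apx_of hR hR2 hP hP2 hz hη1
  obtain ⟨δ2, N2, hδ2, A2⟩ := apx_of hR hR2 hP' hP2' hz' hη1
  obtain ⟨δ3, hδ3, L1⟩ := lsd_near T k h0 hδ1
  obtain ⟨δ4, hδ4, L2⟩ := lsd_near T' k' h0' hδ2
  obtain ⟨r, hr, r1, r2, r3, r4, r5⟩ : ∃ r : ℝ, 0 < r ∧ r ≤ δ3 ∧ r ≤ δ4 ∧ r ≤ η ∧ r ≤ Z g ∧ r ≤ Z' g' := by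
    obtain ⟨θ1, hθ10, ht⟩ := min_list [δ3, δ4, η, Z g, Z' g']
      (by
        intro x hx
        simp only [List.mem_cons, List.not_mem_nil, or_false] at hx
        rcases hx with rfl | rfl | rfl | rfl | rfl <;> assumption)
    simp only [List.mem_cons, List.not_mem_nil, or_false, forall_eq_or_imp, forall_eq] at ht
    exact ⟨θ1, hθ10, ht⟩
  have k1 := hj1 (Metric.ball (g, ![Φc q g, Φx q g, Φc q2 g, Φx q2 g, Z g]) r) Metric.isOpen_ball (Metric.mem_ball_self hr)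
  have k2 := hj2 (Metric.ball (g', ![Φc' q' g', Φx' q' g', Φc' q2' g', Φx' q2' g', Z' g']) r) Metric.isOpen_ball
    (Metric.mem_ball_self hr)
  obtain ⟨N, ⟨⟨x, hx, hx2⟩, ⟨x', hx', hx2'⟩⟩, hN⟩ := ((k1.and k2).and (hU (eventually_ge_atTop (N1 + N2)))).exists
  obtain ⟨hN0, n, x1, x2, x3, x4, x5⟩ := hG.win j N x hx
  obtain ⟨-, n', x1', x2', x3', x4', x5'⟩ := hG.win j N x' hx'
  have e1 := xs_sdw T k x1 x2 x3 x4 x5 hN0
  have e1' := xs_sdw T' k' x1' x2' x3' x4' x5' hN0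
  rw [Metric.mem_ball, Prod.dist_eq] at hx2 hx2'
  have d1 : dist (cN N x) g < r := (le_max_left _ _).trans_lt hx2
  have one_of : ∀ {z c : ℝ}, z = 0 ∨ z = 1 → |z - c| < r → r ≤ c → z = 1 := fun {z c} h0 h1 h2 => by
    rcases h0 with rfl | h0
    · rw [zero_sub, abs_neg] at h1
      linarith [le_abs_self c]
    · exact h0
  have hfive : ∀ {a b : Fin 5 → ℝ}, dist a b < r → ∀ c : Fin 5, |a c - b c| < r := fun {a b} h c => by
    rw [← Real.dist_eq]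
    exact (dist_le_pi_dist a b c).trans_lt h
  have d2 : dist (w5 q q2 N (sdw T k x) (zf N x)) ![Φc q g, Φx q g, Φc q2 g, Φx q2 g, Z g] < r := (le_max_right _ _).trans_lt hx2
  have d1' : dist (cN N x') g' < r := (le_max_left _ _).trans_lt hx2'
  have d2' : dist (w5 q' q2' N (sdw T' k' x') (zf' N x')) ![Φc' q' g', Φx' q' g', Φc' q2' g', Φx' q2' g', Z' g'] < r :=
    (le_max_right _ _).trans_lt hx2'
  have z1 : zf N x = 1 := one_of (hzf N x) (hfive d2 4) r4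
  have z1' : zf' N x' = 1 := one_of (hzf' N x') (hfive d2' 4) r5
  rw [z1] at d2
  rw [z1'] at d2'
  obtain ⟨i, m, B1, B2⟩ := A1 N (sdw T k x) (by omega) (by rw [e1]; exact L1 _ (d1.le.trans r1))
  obtain ⟨i', m', B1', B2'⟩ := A2 N (sdw T' k' x') (by omega) (by rw [e1']; exact L2 _ (d1'.le.trans r2))
  have mono : ∀ {p : ℝ × CI} {t e : ℝ} {w : W3} {i m : ℕ}, Apx R R2 z η1 p t e N w i m → Apx R R2 z η p t e N w i m :=
    fun {p t e w i m} h => ⟨h.N1, h.len, h.m1, h.d.trans hη1a, h.px, h.px2, h.fin, h.fin2, h.ti.trans hη1a, h.te.trans hη1a,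
      fun k hk => (h.ball k hk).trans (mul_le_mul_of_nonneg_right (by linarith) (Nat.cast_nonneg N))⟩
  have hdist : dist (XS (N : ℝ) (md (sdw T k x).get i m)) (XS (N : ℝ) (md (sdw T' k' x').get i' m')) ≤ δ := by
    rw [← heq, dist_comm] at B2'
    have := dist_triangle (XS (N : ℝ) (md (sdw T k x).get i m)) (ctp (lsd T k g) t e) (XS (N : ℝ) (md (sdw T' k' x').get i' m'))
    linarith
  obtain ⟨F1, F2⟩ := hnear N x x' hx hx' k k' T T' i m i' m' B1.px B1.px2 B1'.px B1'.px2 B1.fin B1.fin2 B1'.fin B1'.fin2 hdist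
  have e0 : ∀ {a b c : ℝ}, |a * 1 - b| < c → c ≤ η → |a - b| ≤ η := fun {a b c} h h' => by
    rw [mul_one] at h
    exact h.le.trans h'
  refine ⟨N, sdw T k x, sdw T' k' x', i, m, i', m', β, KK, β', KK', θ, 1 / (j + 1), mono B1, mono B1', hθ, hθj.trans hjη, by positivity, hjη,
    F1, F2, e0 (hfive d2 0) r3, e0 (hfive d2 1) r3, e0 (hfive d2 2) r3, e0 (hfive d2 3) r3, e0 (hfive d2' 0) r3, e0 (hfive d2' 1) r3,
    e0 (hfive d2' 2) r3, e0 (hfive d2' 3) r3⟩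

end Pool.Agent.ROT.F3.K7
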