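import Pool.Agent.ROT.F3StbV
import Pool.Agent.SCF.ExZ

/-!
# ROT, block F3, row LOC: local stability of the start cuts, every unit of length, radius of the cut-off in the same unit (helper66, over
helper28's F3StbV)

* **`stbLX : StbLX`** : `StbLV` with the unit `S` in `[size n / K0, K0 * size n]` and the bad events under
  `0 < zc κ (1000 * R * (S / size n))` : only the returns to the ball of radius `1000 R S` are excluded. The bad event depends on the
  unit `S` (not on the second walk).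
-/

set_option autoImplicit false

open Set Filter Topology MeasureTheory

namespace Pool.Agent.SCF.M

open Pool.Agent.NTS.Res
open Pool.Agent.CRT (CI)
open Pool.Agent.SCF.Z
open Pool.Agent.CRT.R (WC Slb slab)
open Pool.Agent.CRT.V.VC (pr pr_mono pr_or pr_of_card pr_nonneg)
open Pool.Agent.SCF.K (IsoR isoN BadN)

/-- the cut-off is monotone in the radius -/
lemma zc_anti {κ c c' : ℝ} {γ : CI} (hc' : 0 < c') (h : c' ≤ c) (hz : 0 < zc κ c γ) : 0 < zc κ c' γ := by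
  have hc : 0 < c := hc'.trans_le h
  obtain ⟨x, hx⟩ : ∃ x : ℝ, x = sInf ((fun t : unitInterval => ‖γ t‖) '' {t : unitInterval | 1 - κ ≤ (t : ℝ)}) := ⟨_, rfl⟩
  have e : ∀ c : ℝ, zc κ c γ = tr (x / c - 1) := fun c => by rw [hx]; rfl
  rw [e] at hz ⊢
  have h1 : 0 < x / c - 1 := by
    by_contra hcon
    have : tr (x / c - 1) = 0 := by
      unfold tr
      exact max_eq_left ((min_le_right _ _).trans (not_lt.1 hcon))
    linarith
  have h2 : c < x := by
    have : 1 < x / c := by linarith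
    rwa [lt_div_iff₀ hc, one_mul] at this
  have h3 : 0 < x / c' - 1 := by
    have : 1 < x / c' := by
      rw [lt_div_iff₀ hc', one_mul]
      linarith
    linarith
  unfold tr
  exact lt_max_of_lt_right (lt_min one_pos h3)

/-- a positive lower bound of finitely many positive numbers -/
lemma fin_lb (I : ℕ) {f : ℕ → ℝ} (h : ∀ i, i < I → 0 < f i) : ∃ m : ℝ, 0 < m ∧ ∀ i, i < I → m ≤ f i := by
  induction I with
  | zero => exact ⟨1, one_pos, fun i hi => absurd hi (Nat.not_lt_zero _)⟩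
  | succ I ih =>
    obtain ⟨m, hm, h1⟩ := ih fun i hi => h i (by omega)
    refine ⟨min m (f I), lt_min hm (h I (by omega)), fun i hi => ?_⟩
    rcases Nat.lt_succ_iff_lt_or_eq.1 hi with h2 | rfl
    · exact (min_le_left _ _).trans (h1 i h2)
    · exact min_le_right _ _

/-- an upper bound of finitely many natural numbers -/
lemma fin_ub (I : ℕ) (f : ℕ → ℕ) : ∃ m : ℕ, ∀ i, i < I → f i ≤ m := by
  induction I with
  | zero => exact ⟨0, fun i hi => absurd hi (Nat.not_lt_zero _)⟩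
  | succ I ih =>
    obtain ⟨m, h1⟩ := ih
    refine ⟨max m (f I), fun i hi => ?_⟩
    rcases Nat.lt_succ_iff_lt_or_eq.1 hi with h2 | rfl
    · exact (h1 i h2).trans (le_max_left _ _)
    · exact le_max_right _ _

/-- an isolated window cut for one of the radii of the grid, unit `Z` -/
def IsoZ (R β e t Z : ℝ) (j : ℕ) {n : ℕ} (s : Fin n → Fin 3) : Prop :=
  2 * β ≤ j * β ∧ (j : ℝ) * β ≤ 130 * R ∧ IsoR (8 * R * Z) (j * β * Z) (j * β * Z - β * Z) (β * Z / 2) (e * Z) (t * Z) s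

lemma iso_allZ {R κ β z c : ℝ} (hκ : 0 < κ) (hκ1 : κ < 1) (hR : 0 < R) (hβ : 0 < β) (hz : 0 < z) (hc : 552 * R * z < c) (J : ℕ)
    {e : ℝ} (he : 0 < e) {ε t0 : ℝ} (hε : 0 < ε) (ht0 : 0 < t0) : ∃ t : ℝ, 0 < t ∧ t ≤ t0 ∧ ∃ N0 : ℕ, ∀ N : ℕ, N0 ≤ N →
      pr N (fun s => ∃ j : ℕ, j < J ∧ IsoZ R β e t (z * size N) j s ∧ 0 < zc κ c (curve s)) ≤ ε := by
  refine pr_fam (P := fun j t n s => IsoZ R β e t (z * size n) j s ∧ 0 < zc κ c (curve s)) ?_ J ?_ ε hε t0 ht0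
  · rintro j t t' n s htt ⟨⟨h1, h2, h3⟩, h4⟩
    exact ⟨⟨h1, h2, isoR_mono (mul_le_mul_of_nonneg_right htt (mul_nonneg hz.le (Real.sqrt_nonneg _))) h3⟩, h4⟩
  · intro j _ ε' hε'
    by_cases hj : 2 * β ≤ j * β ∧ (j : ℝ) * β ≤ 130 * R
    · obtain ⟨t, ht, N0, hN0⟩ := isoN (ε := ε') (κ := κ) (c := c) (R' := 8 * R * z) (r := j * β * z) (b := β * z) (e := e * z) hε' hκ
        hκ1 (by positivity) (by
          have := mul_le_mul_of_nonneg_right hj.1 hz.le
          linarith) (by positivity) (by positivity) (by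
          have := mul_le_mul_of_nonneg_right hj.2 hz.le
          linarith)
      refine ⟨t / z, by positivity, N0, fun N hN => (pr_mono fun s _ hs => ?_).trans (hN0 N hN)⟩
      obtain ⟨⟨-, -, h1⟩, h2⟩ := hs
      refine ⟨?_, h2⟩
      have e1 : 8 * R * (z * size N) = 8 * R * z * size N := by ring
      have e2 : (j : ℝ) * β * (z * size N) = j * β * z * size N := by ring
      have e3 : β * (z * size N) = β * z * size N := by ring
      have e4 : e * (z * size N) = e * z * size N := by ring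
      have e5 : t / z * (z * size N) = t * size N := by field_simp
      rw [e1, e2, e3, e4, e5] at h1
      exact h1
    · refine ⟨1, one_pos, 0, fun N _ => ?_⟩
      exact (pr_none fun s hs => hj ⟨hs.1.1, hs.1.2.1⟩).trans hε'.le

/-- **change of the unit** -/
lemma ni_unitZ {n : ℕ} {s : Fin n → Fin 3} {S R β K0 E T Z : ℝ} {J : ℕ} (hs : 0 < Z) (hS : 0 < S) (hR : 0 < R) (hβ : 0 < β)
    (hβR : 100 * β ≤ R) (hK0 : 1 ≤ K0) (hS1 : Z / K0 ≤ S) (hS2 : S ≤ Z) (hE : 0 ≤ E) (hT : 0 ≤ T)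
    (hJ : 130 * R < J * (β / (4 * K0))) (h : ∀ j : ℕ, j < J → ¬ IsoZ R (β / (4 * K0)) (E / K0) T Z j s) :
    ∀ i : ℕ, 36 * R ≤ i * β → (i : ℝ) * β ≤ 130 * R → NI (8 * R * S) (i * β * S) (β * S) (E * S) (T * S) s := by
  intro i hi1 hi2 k hk hw
  have hK : (0 : ℝ) < K0 := by linarith
  obtain ⟨β', hβ'⟩ : ∃ β' : ℝ, β' = β / (4 * K0) := ⟨_, rfl⟩
  rw [← hβ'] at hJ h
  have hβ0' : 0 < β' := by rw [hβ']; positivity
  have e4 : 4 * K0 * β' = β := by rw [hβ']; field_simp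
  have hS1' : Z ≤ K0 * S := by
    rw [div_le_iff₀ hK] at hS1
    linarith
  obtain ⟨r, hr⟩ : ∃ r : ℝ, r = i * β * S / Z := ⟨_, rfl⟩
  have hrs : r * Z = i * β * S := by rw [hr]; field_simp
  obtain ⟨j, hj⟩ : ∃ j : ℕ, j = ⌊r / β'⌋₊ := ⟨_, rfl⟩
  have hr0 : 0 ≤ r := by rw [hr]; positivity
  have j1 : (j : ℝ) * β' ≤ r := by
    have h1 := Nat.floor_le (a := r / β') (by positivity)
    rwa [← hj, le_div_iff₀ hβ0'] at h1
  have j2 : r < (j : ℝ) * β' + β' := by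
    have h1 := Nat.lt_floor_add_one (r / β')
    rw [← hj, div_lt_iff₀ hβ0'] at h1
    linarith
  have hrR : 36 * R ≤ K0 * r := by
    have h1 : 36 * R * Z ≤ K0 * r * Z := by
      calc 36 * R * Z ≤ 36 * R * (K0 * S) := mul_le_mul_of_nonneg_left hS1' (by positivity)
        _ ≤ (i * β) * (K0 * S) := mul_le_mul_of_nonneg_right hi1 (by positivity)
        _ = K0 * (i * β * S) := by ring
        _ = K0 * r * Z := by rw [← hrs]; ring
    exact le_of_mul_le_mul_right h1 hs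
  have hrR' : r ≤ 130 * R := by
    have h1 : r * Z ≤ 130 * R * Z := by
      rw [hrs]
      calc i * β * S ≤ 130 * R * S := mul_le_mul_of_nonneg_right hi2 hS.le
        _ ≤ 130 * R * Z := mul_le_mul_of_nonneg_left hS2 (by positivity)
    exact le_of_mul_le_mul_right h1 hs
  have hbβ : β' ≤ β / 4 := by
    have h1 : 4 * β' ≤ 4 * K0 * β' := by nlinarith
    linarith
  have hr3 : 3 * β' ≤ r := by
    have h1 : K0 * (3 * β') ≤ K0 * r := by
      have h2 : K0 * (3 * β') ≤ β := by nlinarith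
      linarith
    exact le_of_mul_le_mul_left h1 hK
  have hjJ : j < J := by
    by_contra hcon
    have h3 : (J : ℝ) ≤ j := by exact_mod_cast not_lt.1 hcon
    have h4 : (J : ℝ) * β' ≤ j * β' := mul_le_mul_of_nonneg_right h3 hβ0'.le
    linarith
  have h1 := h j hjJ
  have h2 : ¬ IsoR (8 * R * Z) (j * β' * Z) (j * β' * Z - β' * Z) (β' * Z / 2) (E / K0 * Z)
      (T * Z) s := fun hc => h1 ⟨by linarith, by linarith, hc⟩
  have hni := ni_of (β := β' * Z) (Q' := 8 * R * Z) (r := j * β' * Z) (E := E / K0 * Z) (T := T * Z)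
    h2 rfl rfl
  obtain ⟨l, l1, l2, l3, l4⟩ := hni k (hk.trans (mul_le_mul_of_nonneg_left hS2 (by positivity))) (hw.mono (by
    rw [← hrs]
    exact mul_le_mul_of_nonneg_right j1 hs.le))
  have hβS : 4 * (β' * Z) ≤ β * S := by
    calc 4 * (β' * Z) ≤ 4 * (β' * (K0 * S)) := by
          have := mul_le_mul_of_nonneg_left hS1' hβ0'.le
          linarith
      _ = 4 * K0 * β' * S := by ring
      _ = β * S := by rw [e4]
  have h6 : 0 < β' * Z := mul_pos hβ0' hs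
  refine ⟨l, l1.mono ?_, by linarith, le_trans ?_ l3, l4.trans ?_⟩
  · have h5 : r * Z ≤ (j * β' + β') * Z := mul_le_mul_of_nonneg_right j2.le hs.le
    have e : (j * β' + β') * Z = j * β' * Z + β' * Z := by ring
    rw [e, hrs] at h5
    linarith
  · exact mul_le_mul_of_nonneg_left hS2 hT
  · rw [div_mul_eq_mul_div, div_le_iff₀ hK]
    calc E * Z ≤ E * (K0 * S) := mul_le_mul_of_nonneg_left hS1' hE
      _ = E * S * K0 := by ring

/-- the bad event, unit `z * size n`, ratio of the units `3 / 2` -/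
def BddZ (R θ β b E0 T0 E1 T1 E2 T2 : ℝ) (J : ℕ) (z : ℝ) (n : ℕ) (s : Fin n → Fin 3) : Prop :=
  Slb (b / (3 / 2) * (z * size n)) (2 * E0 * (z * size n)) s ∨ ¬ Tms θ (b * z) s ∨
    BadK (8 * R * (z * size n)) (30 * R / (3 / 2) * (z * size n)) (R / (50 * (3 / 2)) * (z * size n)) (3 * b * (z * size n))
      (T1 / (4 * (3 / 2)) * (z * size n)) (T2 / (4 * (3 / 2)) * (z * size n)) (E2 * (z * size n)) s ∨
    (∃ j : ℕ, j < J ∧ IsoZ R (β / (4 * (3 / 2))) (E0 / (3 / 2)) T0 (z * size n) j s) ∨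
    (∃ j : ℕ, j < J ∧ IsoZ R (β / (4 * (3 / 2))) (E1 / (3 / 2)) T1 (z * size n) j s) ∨
    ∃ j : ℕ, j < J ∧ IsoZ R (β / (4 * (3 / 2))) (E2 / (3 / 2)) T2 (z * size n) j s

/-- **good walks with locally close positions are stable** -/
theorem stbZ_good {n n' : ℕ} (hn : 1 ≤ n) (hn' : 1 ≤ n') {s : Fin n → Fin 3} {s' : Fin n' → Fin 3}
    {δ η R θ β b K1 E0 T0 E1 T1 E2 T2 S N z z' : ℝ} {v : ℂ} {J i0 i0' L : ℕ} (hR : 0 < R) (hK1 : 0 < K1) (hz : 0 < z) (hz' : 0 < z')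
    (hθ0 : 0 ≤ θ) (h1 : δ * S + 1 ≤ η * S) (hη1 : 8 * η ≤ T1) (hη2 : 4 * η ≤ T2) (hηb : η ≤ b) (hθ : 20 * β ≤ θ)
    (hβR : 100 * β ≤ R) (hb : 2 * b ≤ β) (hJ : 130 * R < J * (β / (4 * (3 / 2)))) (hE0 : 0 ≤ E0) (hE20 : 0 ≤ E2)
    (hE2 : 2 * E2 ≤ T1) (hE1 : 2 * E1 ≤ T0) (hE10 : 0 ≤ E1) (hT2 : 0 < T2)
    (hS1 : z * size n / (3 / 2) ≤ S) (hS2 : S ≤ z * size n) (hS1' : z' * size n' / (3 / 2) ≤ S) (hS2' : S ≤ z' * size n')
    (hN : (n : ℝ) ≤ K1 * N)
    (hbK : 200 * b ≤ R) (hv : ‖v‖ ≤ R * S) (hr' : ∀ i : ℕ, i ≤ i0' → ‖pos s' i‖ ≤ 4 * R * S)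
    (hg : ¬ BddZ R (θ / K1) β b E0 T0 E1 T1 E2 T2 J z n s) (hg' : ¬ BddZ R (θ / K1) β b E0 T0 E1 T1 E2 T2 J z' n' s')
    (hC : LV (δ * S) (500 * R * S) v i0 i0' L s s') : StbV R θ S N v i0 i0' s s' := by
  obtain ⟨K0, hK0'⟩ : ∃ K0 : ℝ, K0 = 3 / 2 := ⟨_, rfl⟩
  have hK0 : 1 ≤ K0 := by linarith
  have hK : (0 : ℝ) < K0 := by linarith
  obtain ⟨Z, hZ⟩ : ∃ Z : ℝ, Z = z * size n := ⟨_, rfl⟩
  obtain ⟨Z', hZ'⟩ : ∃ Z' : ℝ, Z' = z' * size n' := ⟨_, rfl⟩
  unfold BddZ at hg hg'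
  rw [← hZ] at hS1 hS2 hg
  rw [← hZ'] at hS1' hS2' hg'
  rw [← hK0'] at hS1 hS1' hg hg' hJ
  have hs : 0 < Z := by rw [hZ]; exact mul_pos hz (NTSF.size_pos hn)
  have hs' : 0 < Z' := by rw [hZ']; exact mul_pos hz' (NTSF.size_pos hn')
  have hS : 0 < S := lt_of_lt_of_le (by positivity) hS1
  have hδ0 : 0 ≤ δ * S := (norm_nonneg _).trans (hC.cl 0 (Nat.zero_le _))
  have hηS : 1 ≤ η * S := by linarith
  have hη0 : 0 < η := by
    by_contra hc
    have : η * S ≤ 0 := mul_nonpos_of_nonpos_of_nonneg (not_lt.1 hc) hS.le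
    linarith
  have hb0 : 0 < b := by linarith
  have hβ0 : 0 < β := by linarith
  have hbS : η * S ≤ b * S := mul_le_mul_of_nonneg_right hηb hS.le
  have hβS : 2 * b * S ≤ β * S := mul_le_mul_of_nonneg_right hb hS.le
  have hnK : Z ≤ K0 * S := by
    rw [div_le_iff₀ hK] at hS1
    linarith
  have hnK' : Z' ≤ K0 * S := by
    rw [div_le_iff₀ hK] at hS1'
    linarith
  push Not at hg hg'
  obtain ⟨g1, g2, -, g4, g5, g6⟩ := hg
  obtain ⟨-, -, g3, -, -, -⟩ := hg'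
  have hT0 : 0 ≤ T0 := by linarith
  have hT1 : 0 ≤ T1 := by linarith
  have n4 := ni_unitZ hs hS hR hβ0 hβR hK0 hS1 hS2 hE0 hT0 hJ g4
  have n5 := ni_unitZ hs hS hR hβ0 hβR hK0 hS1 hS2 hE10 hT1 hJ g5
  have n6 := ni_unitZ hs hS hR hβ0 hβR hK0 hS1 hS2 hE20 hT2.le hJ g6
  refine stbV_of (η := η) (d := 4 * β) (ρB := 30 * R) (ρ2 := 15 * R / K0) (dd := 8 * R) (G := T1 / 2) (T := T2) (W := E2) (b := b)
    (K := 8 * R) hS hR hC hv hr' h1 (by linarith) hη2 hηb (by linarith) (by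
      rw [le_div_iff₀ hK, hK0']
      linarith) (by linarith) (by linarith) (by linarith)
    (by linarith) rfl (by linarith) ?_ ?_ ?_
  · intro ρ c hρ hρ' hc hQ
    obtain ⟨x0, x1, x2, x3, F, f1, f2, f3⟩ := fourV (Q' := 8 * R) hS hβ0 (by linarith) hb0 (by linarith)
      (by linarith) (by linarith) hT2 hE2 hE1 (by linarith) n4 n5 n6 (fun i j h3 h4 h5 => by
        by_contra hcon
        refine g1 ⟨i, j, h3, h4, fun l h6 h7 => (h5 l h6 h7).trans (mul_le_mul_of_nonneg_left hS2 (by linarith)), ?_⟩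
        refine le_trans ?_ (not_lt.1 hcon)
        rw [div_mul_eq_mul_div, div_le_iff₀ hK]
        calc b * Z ≤ b * (K0 * S) := mul_le_mul_of_nonneg_left hnK hb0.le
          _ = b * S * K0 := by ring) hρ hρ' hc hQ
    have hG : T1 / 2 * S ≤ (T1 - E2) * S := mul_le_mul_of_nonneg_right (by linarith) hS.le
    exact ⟨x0, x1, x2, x3, ⟨F.h01, F.h12, F.h23, F.c0, F.c1, F.c2, F.c3, by linarith [F.g01], F.g12, F.w12,
      by linarith [F.g23], F.near⟩, f1, f2, f3⟩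
  · intro i j h3 h4 h5
    have h6 := g2 i j h3 h4 fun l l1 l2 => (h5 l l1 l2).trans (by
      have h7 := mul_le_mul_of_nonneg_left hS2 hb0.le
      rw [hZ] at h7
      linarith)
    refine h6.trans ?_
    calc θ / K1 * n ≤ θ / K1 * (K1 * N) := mul_le_mul_of_nonneg_left hN (by positivity)
      _ = θ * N := by field_simp
  · intro hc
    refine g3 (hc.k (mul_le_mul_of_nonneg_left hS2' (by positivity)) ?_ ?_ ?_ ?_ ?_ ?_ ?_ (mul_le_mul_of_nonneg_left hS2' hE20))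
    · calc 30 * R / K0 * Z' ≤ 30 * R / K0 * (K0 * S) := mul_le_mul_of_nonneg_left hnK' (by positivity)
        _ = 30 * R * S := by field_simp
    · calc 15 * R / K0 * S ≤ 15 * R / K0 * Z' := mul_le_mul_of_nonneg_left hS2' (by positivity)
        _ = 30 * R / K0 * Z' / 2 := by ring
    · have h7 : 30 * R / K0 * Z' ≤ 30 * R * S := by
        calc 30 * R / K0 * Z' ≤ 30 * R / K0 * (K0 * S) := mul_le_mul_of_nonneg_left hnK' (by positivity)
          _ = 30 * R * S := by field_simp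
      have h8 : 0 < R * S := mul_pos hR hS
      linarith
    · have e : R / (50 * K0) * Z' = R * Z' / (50 * K0) := by ring
      rw [e, div_le_iff₀ (by positivity)]
      have := mul_le_mul_of_nonneg_left hnK' hR.le
      linarith
    · have := mul_le_mul_of_nonneg_left hS2' hb0.le
      linarith
    · have e : T1 / (4 * K0) * Z' = T1 * Z' / (4 * K0) := by ring
      rw [e, div_le_iff₀ (by positivity)]
      have := mul_le_mul_of_nonneg_left hnK' hT1
      linarith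
    · have e : T2 / (4 * K0) * Z' = T2 * Z' / (4 * K0) := by ring
      rw [e, div_le_iff₀ (by positivity)]
      have := mul_le_mul_of_nonneg_left hnK' hT2.le
      linarith

/-- **local stability of the start cuts**: every unit `S` in `[size n / K0, K0 * size n]`; the cut-off is in the unit `S` -/
def StbLX : Prop := ∀ R K0 K1 κ θ ε : ℝ, 0 < R → 1 ≤ K0 → 1 ≤ K1 → 0 < κ → κ < 1 → 0 < θ → 0 < ε →
  ∃ (δ : ℝ) (n0 : ℕ) (Bad : ∀ n : ℕ, ℝ → (Fin n → Fin 3) → Prop), 0 < δ ∧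
    (∀ (n : ℕ) (S : ℝ), n0 ≤ n → size n / K0 ≤ S → S ≤ K0 * size n →
      pr n (fun s => Bad n S s ∧ 0 < zc κ (1000 * R * (S / size n)) (curve s)) ≤ ε) ∧
    ∀ (n n' : ℕ) (s : Fin n → Fin 3) (s' : Fin n' → Fin 3) (S N : ℝ) (v : ℂ) (i0 i0' L : ℕ), n0 ≤ n → n0 ≤ n' →
      ¬ Bad n S s → ¬ Bad n' S s' → size n / K0 ≤ S → S ≤ K0 * size n → size n' / K0 ≤ S → S ≤ K0 * size n' → (n : ℝ) ≤ K1 * N →
      ‖v‖ ≤ R * S → (∀ i : ℕ, i ≤ i0 → ‖pos s i‖ ≤ 4 * R * S) → (∀ i : ℕ, i ≤ i0' → ‖pos s' i‖ ≤ 4 * R * S) →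
      LV (δ * S) (500 * R * S) v i0 i0' L s s' → StbV R θ S N v i0 i0' s s'

theorem stbLX_of (hBN : BadN) : StbLX := by
  intro R K0 K1 κ θ ε hR hK0 hK1 hκ hκ1 hθ hε
  have hK : (0 : ℝ) < K0 := by linarith
  have hK1' : (0 : ℝ) < K1 := by linarith
  -- the grid of the units
  obtain ⟨I, hI⟩ := pow_unbounded_of_one_lt (K0 ^ 2) (show (1 : ℝ) < 3 / 2 by norm_num)
  obtain ⟨z, hz⟩ : ∃ z : ℕ → ℝ, z = fun i => (3 / 2 : ℝ) ^ (i + 1) / K0 := ⟨_, rfl⟩
  have hz0 : ∀ i, 0 < z i := fun i => by rw [hz]; positivity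
  have hgrid : ∀ (n : ℕ) (S : ℝ), 1 ≤ n → size n / K0 ≤ S → S ≤ K0 * size n →
      ∃ i, i < I ∧ z i * size n / (3 / 2) ≤ S ∧ S ≤ z i * size n := by
    intro n S hn h1 h2
    have hs := NTSF.size_pos hn
    obtain ⟨x, hx⟩ : ∃ x : ℝ, x = S / size n * K0 := ⟨_, rfl⟩
    have hxS : x * size n = S * K0 := by rw [hx]; field_simp
    have hx1 : 1 ≤ x := by
      rw [div_le_iff₀ hK] at h1
      have : 1 * size n ≤ x * size n := by rw [hxS, one_mul]; exact h1
      exact le_of_mul_le_mul_right this hs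
    have hx2 : x ≤ K0 ^ 2 := by
      have : x * size n ≤ K0 ^ 2 * size n := by
        rw [hxS]
        calc S * K0 ≤ K0 * size n * K0 := mul_le_mul_of_nonneg_right h2 hK.le
          _ = K0 ^ 2 * size n := by ring
      exact le_of_mul_le_mul_right this hs
    obtain ⟨i, i1, i2⟩ := exists_nat_pow_near hx1 (show (1 : ℝ) < 3 / 2 by norm_num)
    refine ⟨i, ?_, ?_, ?_⟩
    · by_contra hcon
      have h3 : (3 / 2 : ℝ) ^ I ≤ (3 / 2 : ℝ) ^ i := pow_le_pow_right₀ (by norm_num) (not_lt.1 hcon)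
      linarith
    · rw [hz]
      show (3 / 2 : ℝ) ^ (i + 1) / K0 * size n / (3 / 2) ≤ S
      have e : (3 / 2 : ℝ) ^ (i + 1) / K0 * size n / (3 / 2) = (3 / 2 : ℝ) ^ i * size n / K0 := by
        rw [pow_succ]
        field_simp
      rw [e, div_le_iff₀ hK, ← hxS]
      exact mul_le_mul_of_nonneg_right i1 hs.le
    · rw [hz]
      show S ≤ (3 / 2 : ℝ) ^ (i + 1) / K0 * size n
      rw [div_mul_eq_mul_div, le_div_iff₀ hK, ← hxS]
      exact mul_le_mul_of_nonneg_right i2.le hs.le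
  -- the displacements
  obtain ⟨β, hβ⟩ : ∃ β : ℝ, β = min (θ / 20) (R / 100) := ⟨_, rfl⟩
  have hβ0 : 0 < β := by rw [hβ]; positivity
  have hβθ : 20 * β ≤ θ := by
    have : β ≤ θ / 20 := by rw [hβ]; exact min_le_left _ _
    linarith
  have hβR : 100 * β ≤ R := by
    have : β ≤ R / 100 := by rw [hβ]; exact min_le_right _ _
    linarith
  obtain ⟨τ, hτ, N1, hN1⟩ := tmP (ε / 8) (θ / K1) (by positivity) (by positivity)
  have hBN1 : ∀ i, ∃ e0 : ℝ, 0 < e0 ∧ ∀ m E : ℝ, 0 < m → m ≤ E → E ≤ e0 → ∃ w0 : ℝ, 0 < w0 ∧ ∀ h w : ℝ, 0 < h → h ≤ w → w ≤ w0 →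
      ∃ N0 : ℕ, ∀ N : ℕ, N0 ≤ N → pr N (fun s => BadK (8 * R * z i * size N) (30 * R / (3 / 2) * z i * size N)
        (R / (50 * (3 / 2)) * z i * size N) (E * size N) (m * size N) (h * size N) (w * size N) s ∧
          0 < zc κ (1000 * R * (z i / (3 / 2))) (curve s)) ≤ ε / 8 := by
    intro i
    have hzi := hz0 i
    have hRz : 0 < R * z i := mul_pos hR hzi
    refine hBN (ε / 8) κ (1000 * R * (z i / (3 / 2))) (8 * R * z i) (30 * R / (3 / 2) * z i) (R / (50 * (3 / 2)) * z i) (by positivity)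
      hκ hκ1 (by positivity) (by positivity) (by positivity) ?_ ?_
    · have e1 : 16 * (R / (50 * (3 / 2)) * z i) = 16 / 75 * (R * z i) := by ring
      have e2 : 30 * R / (3 / 2) * z i = 20 * (R * z i) := by ring
      rw [e1, e2]
      linarith
    · have e1 : 4 * (8 * R * z i + 30 * R / (3 / 2) * z i) = 112 * (R * z i) := by ring
      have e2 : 1000 * R * (z i / (3 / 2)) = 2000 / 3 * (R * z i) := by ring
      rw [e1, e2]
      linarith
  choose e0 he0 hBN1 using hBN1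
  obtain ⟨be, hbe0, hbe⟩ := fin_lb I (f := fun i => min (e0 i / (3 * z i)) (τ / z i)) fun i _ =>
    lt_min (div_pos (he0 i) (mul_pos three_pos (hz0 i))) (div_pos hτ (hz0 i))
  obtain ⟨b, hb⟩ : ∃ b : ℝ, b = min (R / 200) (min (β / 2) be) := ⟨_, rfl⟩
  have hb0 : 0 < b := by rw [hb]; positivity
  have hbK : 200 * b ≤ R := by
    have : b ≤ R / 200 := by rw [hb]; exact min_le_left _ _
    linarith
  have hb' : b ≤ min (β / 2) be := by rw [hb]; exact min_le_right _ _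
  have hbβ : 2 * b ≤ β := by
    have : b ≤ β / 2 := hb'.trans (min_le_left _ _)
    linarith
  have hbbe : b ≤ be := hb'.trans (min_le_right _ _)
  have hbτ : ∀ i, i < I → b * z i ≤ τ := fun i hi => by
    have h1 := hbbe.trans ((hbe i hi).trans (min_le_right _ _))
    rwa [le_div_iff₀ (hz0 i)] at h1
  have hbe' : ∀ i, i < I → 3 * b * z i ≤ e0 i := fun i hi => by
    have h1 := hbbe.trans ((hbe i hi).trans (min_le_left _ _))
    rw [le_div_iff₀ (mul_pos three_pos (hz0 i))] at h1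
    linarith
  have hβ4 : 0 < β / (4 * (3 / 2)) := by positivity
  obtain ⟨J, hJ⟩ := exists_nat_gt (130 * R / (β / (4 * (3 / 2))))
  have hJb : 130 * R < J * (β / (4 * (3 / 2))) := by rwa [div_lt_iff₀ hβ4] at hJ
  -- the slab
  have hsl : ∀ i, ∃ τ : ℝ, 0 < τ ∧ ∃ n0 : ℕ, ∀ n : ℕ, n0 ≤ n →
      pr n (fun s => Slb (b / (3 / 2) * z i * size n) (τ * size n) s) ≤ ε / 8 := fun i => by
    obtain ⟨τ, h1, n0, h2⟩ := slab (ε := ε / 8) (b := b / (3 / 2) * z i) (by positivity) (mul_pos (by positivity) (hz0 i))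
    exact ⟨τ, h1, n0, fun n hn => pr_of_card (h2 n hn)⟩
  choose σ hσ M2 hN2 using hsl
  obtain ⟨σm, hσm, hσ'⟩ := fin_lb I (f := fun i => σ i / z i) fun i _ => div_pos (hσ i) (hz0 i)
  -- the levels
  have hciso : ∀ i, 552 * R * z i < 1000 * R * (z i / (3 / 2)) := fun i => by
    have h1 : 0 < R * z i := mul_pos hR (hz0 i)
    have e2 : 1000 * R * (z i / (3 / 2)) = 2000 / 3 * (R * z i) := by ring
    rw [e2]
    linarith
  have hiso : ∀ (E t0 : ℝ), 0 < E → 0 < t0 → ∃ t : ℝ, 0 < t ∧ t ≤ t0 ∧ ∃ N0 : ℕ, ∀ i, i < I → ∀ N : ℕ, N0 ≤ N →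
      pr N (fun s => ∃ j : ℕ, j < J ∧ IsoZ R (β / (4 * (3 / 2))) (E / (3 / 2)) t (z i * size N) j s ∧
        0 < zc κ (1000 * R * (z i / (3 / 2))) (curve s)) ≤ ε / 8 := by
    intro E t0 hE ht0
    have h1 := fun i => iso_allZ (ε := ε / 8) (t0 := t0) (e := E / (3 / 2)) hκ hκ1 hR hβ4 (hz0 i) (hciso i) J (by positivity) (by positivity) ht0
    choose t ht ht1 M hM using h1
    obtain ⟨tm, htm, h2⟩ := fin_lb I (f := t) fun i _ => ht i
    obtain ⟨N0, hN0⟩ := fin_ub I M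
    refine ⟨min tm t0, lt_min htm ht0, min_le_right _ _, N0, fun i hi N hN => ?_⟩
    refine (pr_mono fun s _ hs => ?_).trans (hM i N ((hN0 i hi).trans hN))
    obtain ⟨j, hj, ⟨h3, h4, h5⟩, h6⟩ := hs
    exact ⟨j, hj, ⟨h3, h4, isoR_mono (mul_le_mul_of_nonneg_right ((min_le_left _ _).trans (h2 i hi))
      (mul_nonneg (hz0 i).le (Real.sqrt_nonneg _))) h5⟩, h6⟩
  obtain ⟨E0, hE0⟩ : ∃ E0 : ℝ, E0 = σm / 2 := ⟨_, rfl⟩
  have hE0p : 0 < E0 := by rw [hE0]; positivity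
  obtain ⟨T0, hT0, -, N3, hN3⟩ := hiso E0 1 hE0p one_pos
  obtain ⟨E1, hE1⟩ : ∃ E1 : ℝ, E1 = T0 / 2 := ⟨_, rfl⟩
  have hE1p : 0 < E1 := by rw [hE1]; positivity
  obtain ⟨T1, hT1, hT1b, N4, hN4⟩ := hiso E1 b hE1p hb0
  have hBN2 : ∀ i, ∃ w0 : ℝ, 0 < w0 ∧ (i < I → ∀ h w : ℝ, 0 < h → h ≤ w → w ≤ w0 →
      ∃ N0 : ℕ, ∀ N : ℕ, N0 ≤ N → pr N (fun s => BadK (8 * R * z i * size N) (30 * R / (3 / 2) * z i * size N)
        (R / (50 * (3 / 2)) * z i * size N) (3 * b * z i * size N) (T1 / (4 * (3 / 2)) * z i * size N) (h * size N) (w * size N) s ∧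
          0 < zc κ (1000 * R * (z i / (3 / 2))) (curve s)) ≤ ε / 8) := by
    intro i
    by_cases hi : i < I
    · obtain ⟨w0, hw0, h1⟩ := hBN1 i (T1 / (4 * (3 / 2)) * z i) (3 * b * z i) (mul_pos (by positivity) (hz0 i))
        (mul_le_mul_of_nonneg_right (by linarith) (hz0 i).le) (hbe' i hi)
      exact ⟨w0, hw0, fun _ => h1⟩
    · exact ⟨1, one_pos, fun h => absurd h hi⟩
  choose w0 hw0 hBN2 using hBN2
  obtain ⟨wm, hwm, hw'⟩ := fin_lb I (f := fun i => w0 i / z i) fun i _ => div_pos (hw0 i) (hz0 i)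
  obtain ⟨E2, hE2⟩ : ∃ E2 : ℝ, E2 = min (T1 / 2) wm := ⟨_, rfl⟩
  have hE2p : 0 < E2 := by rw [hE2]; positivity
  have hE2T : 2 * E2 ≤ T1 := by
    have : E2 ≤ T1 / 2 := by rw [hE2]; exact min_le_left _ _
    linarith
  have hE2w : ∀ i, i < I → E2 * z i ≤ w0 i := fun i hi => by
    have h1 : E2 ≤ w0 i / z i := (show E2 ≤ wm by rw [hE2]; exact min_le_right _ _).trans (hw' i hi)
    rwa [le_div_iff₀ (hz0 i)] at h1
  obtain ⟨T2, hT2, hT2E, N5, hN5⟩ := hiso E2 E2 hE2p hE2p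
  have hBN3 : ∀ i, ∃ N0 : ℕ, i < I → ∀ N : ℕ, N0 ≤ N → pr N (fun s => BadK (8 * R * z i * size N) (30 * R / (3 / 2) * z i * size N)
        (R / (50 * (3 / 2)) * z i * size N) (3 * b * z i * size N) (T1 / (4 * (3 / 2)) * z i * size N)
        (T2 / (4 * (3 / 2)) * z i * size N) (E2 * z i * size N) s ∧
          0 < zc κ (1000 * R * (z i / (3 / 2))) (curve s)) ≤ ε / 8 := by
    intro i
    by_cases hi : i < I
    · obtain ⟨N0, h1⟩ := hBN2 i hi (T2 / (4 * (3 / 2)) * z i) (E2 * z i) (mul_pos (by positivity) (hz0 i))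
        (mul_le_mul_of_nonneg_right (by linarith) (hz0 i).le) (hE2w i hi)
      exact ⟨N0, fun _ => h1⟩
    · exact ⟨0, fun h => absurd h hi⟩
  choose M6 hN6 using hBN3
  obtain ⟨N2, hN2'⟩ := fin_ub I M2
  obtain ⟨N6, hN6'⟩ := fin_ub I M6
  -- the distance
  obtain ⟨η, hη⟩ : ∃ η : ℝ, η = min (min (T1 / 8) (T2 / 4)) b := ⟨_, rfl⟩
  have hη0 : 0 < η := by rw [hη]; positivity
  have hη1 : 8 * η ≤ T1 := by
    have : η ≤ T1 / 8 := by rw [hη]; exact (min_le_left _ _).trans (min_le_left _ _)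
    linarith
  have hη2 : 4 * η ≤ T2 := by
    have : η ≤ T2 / 4 := by rw [hη]; exact (min_le_left _ _).trans (min_le_right _ _)
    linarith
  have hηb : η ≤ b := by rw [hη]; exact min_le_right _ _
  obtain ⟨N7, hN7⟩ := Pool.Agent.SCF.K.size_big (η := η) hη0 (2 * K0)
  obtain ⟨n0, hn0⟩ : ∃ n0 : ℕ, n0 = N1 + N2 + N3 + N4 + N5 + N6 + N7 + 1 := ⟨_, rfl⟩
  refine ⟨η / 2, n0, fun n S s => ∀ i, i < I → z i * size n / (3 / 2) ≤ S → S ≤ z i * size n →
    BddZ R (θ / K1) β b E0 T0 E1 T1 E2 T2 J (z i) n s, by positivity, fun n S hn hS1 hS2 => ?_, ?_⟩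
  · obtain ⟨i, hi, i1, i2⟩ := hgrid n S (by omega) hS1 hS2
    have hs := NTSF.size_pos (show 1 ≤ n by omega)
    have hzi := hz0 i
    have hcc : 1000 * R * (z i / (3 / 2)) ≤ 1000 * R * (S / size n) := by
      refine mul_le_mul_of_nonneg_left ?_ (by positivity)
      rw [le_div_iff₀ hs]
      linarith
    have hcp : 0 < 1000 * R * (z i / (3 / 2)) := by positivity
    have c1 : pr n (fun s => ¬ Tms (θ / K1) (b * z i) s) ≤ ε / 8 :=
      (pr_mono fun s _ hs => fun h => hs (h.mono le_rfl (hbτ i hi))).trans (hN1 n (by omega))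
    have c2 : pr n (fun s => Slb (b / (3 / 2) * (z i * size n)) (2 * E0 * (z i * size n)) s) ≤ ε / 8 := by
      refine (pr_mono fun s _ h => ?_).trans (hN2 i n ((hN2' i hi).trans (by omega)))
      refine h.mono (le_of_eq (by ring)) ?_
      have h1 : 2 * E0 ≤ σ i / z i := by
        rw [hE0]
        linarith [hσ' i hi]
      rw [le_div_iff₀ hzi] at h1
      calc 2 * E0 * (z i * size n) = 2 * E0 * z i * size n := by ring
        _ ≤ σ i * size n := mul_le_mul_of_nonneg_right h1 hs.le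
    have c3 := hN3 i hi n (by omega)
    have c4 := hN4 i hi n (by omega)
    have c5 := hN5 i hi n (by omega)
    have c6 := hN6 i hi n ((hN6' i hi).trans (by omega))
    have key : pr n (fun s => (∀ i, i < I → z i * size n / (3 / 2) ≤ S → S ≤ z i * size n →
        BddZ R (θ / K1) β b E0 T0 E1 T1 E2 T2 J (z i) n s) ∧ 0 < zc κ (1000 * R * (S / size n)) (curve s)) ≤
        pr n (fun s => Slb (b / (3 / 2) * (z i * size n)) (2 * E0 * (z i * size n)) s) + (pr n (fun s => ¬ Tms (θ / K1) (b * z i) s) +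
        (pr n (fun s => BadK (8 * R * z i * size n) (30 * R / (3 / 2) * z i * size n) (R / (50 * (3 / 2)) * z i * size n)
          (3 * b * z i * size n) (T1 / (4 * (3 / 2)) * z i * size n) (T2 / (4 * (3 / 2)) * z i * size n) (E2 * z i * size n) s ∧
            0 < zc κ (1000 * R * (z i / (3 / 2))) (curve s)) +
        (pr n (fun s => ∃ j : ℕ, j < J ∧ IsoZ R (β / (4 * (3 / 2))) (E0 / (3 / 2)) T0 (z i * size n) j s ∧
          0 < zc κ (1000 * R * (z i / (3 / 2))) (curve s)) +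
        (pr n (fun s => ∃ j : ℕ, j < J ∧ IsoZ R (β / (4 * (3 / 2))) (E1 / (3 / 2)) T1 (z i * size n) j s ∧
          0 < zc κ (1000 * R * (z i / (3 / 2))) (curve s)) +
        pr n (fun s => ∃ j : ℕ, j < J ∧ IsoZ R (β / (4 * (3 / 2))) (E2 / (3 / 2)) T2 (z i * size n) j s ∧
          0 < zc κ (1000 * R * (z i / (3 / 2))) (curve s)))))) := by
      have q1 : ∀ {s : Fin n → Fin 3}, (∀ i, i < I → z i * size n / (3 / 2) ≤ S → S ≤ z i * size n →
        BddZ R (θ / K1) β b E0 T0 E1 T1 E2 T2 J (z i) n s) ∧ 0 < zc κ (1000 * R * (S / size n)) (curve s) →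
          BddZ R (θ / K1) β b E0 T0 E1 T1 E2 T2 J (z i) n s ∧ 0 < zc κ (1000 * R * (z i / (3 / 2))) (curve s) := fun h =>
        ⟨h.1 i hi i1 i2, zc_anti hcp hcc h.2⟩
      refine (pr_mono fun s _ h => q1 h).trans ?_
      unfold BddZ
      refine (pr_or (Q := fun s => Slb (b / (3 / 2) * (z i * size n)) (2 * E0 * (z i * size n)) s) (R := fun s =>
        (¬ Tms (θ / K1) (b * z i) s ∨
          BadK (8 * R * (z i * size n)) (30 * R / (3 / 2) * (z i * size n)) (R / (50 * (3 / 2)) * (z i * size n))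
            (3 * b * (z i * size n)) (T1 / (4 * (3 / 2)) * (z i * size n)) (T2 / (4 * (3 / 2)) * (z i * size n))
            (E2 * (z i * size n)) s ∨
          (∃ j : ℕ, j < J ∧ IsoZ R (β / (4 * (3 / 2))) (E0 / (3 / 2)) T0 (z i * size n) j s) ∨
          (∃ j : ℕ, j < J ∧ IsoZ R (β / (4 * (3 / 2))) (E1 / (3 / 2)) T1 (z i * size n) j s) ∨
          ∃ j : ℕ, j < J ∧ IsoZ R (β / (4 * (3 / 2))) (E2 / (3 / 2)) T2 (z i * size n) j s) ∧
            0 < zc κ (1000 * R * (z i / (3 / 2))) (curve s)) ?_).trans (add_le_add le_rfl ?_)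
      · rintro s - ⟨h3 | h3, h4⟩
        · exact Or.inl h3
        · exact Or.inr ⟨h3, h4⟩
      refine (pr_or (Q := fun s => ¬ Tms (θ / K1) (b * z i) s) (R := fun s =>
        (BadK (8 * R * (z i * size n)) (30 * R / (3 / 2) * (z i * size n)) (R / (50 * (3 / 2)) * (z i * size n))
            (3 * b * (z i * size n)) (T1 / (4 * (3 / 2)) * (z i * size n)) (T2 / (4 * (3 / 2)) * (z i * size n))
            (E2 * (z i * size n)) s ∨
          (∃ j : ℕ, j < J ∧ IsoZ R (β / (4 * (3 / 2))) (E0 / (3 / 2)) T0 (z i * size n) j s) ∨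
          (∃ j : ℕ, j < J ∧ IsoZ R (β / (4 * (3 / 2))) (E1 / (3 / 2)) T1 (z i * size n) j s) ∨
          ∃ j : ℕ, j < J ∧ IsoZ R (β / (4 * (3 / 2))) (E2 / (3 / 2)) T2 (z i * size n) j s) ∧
            0 < zc κ (1000 * R * (z i / (3 / 2))) (curve s)) ?_).trans (add_le_add le_rfl ?_)
      · rintro s - ⟨h3 | h3, h4⟩
        · exact Or.inl h3
        · exact Or.inr ⟨h3, h4⟩
      refine (pr_or (Q := fun s => BadK (8 * R * z i * size n) (30 * R / (3 / 2) * z i * size n) (R / (50 * (3 / 2)) * z i * size n)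
          (3 * b * z i * size n) (T1 / (4 * (3 / 2)) * z i * size n) (T2 / (4 * (3 / 2)) * z i * size n) (E2 * z i * size n) s ∧
            0 < zc κ (1000 * R * (z i / (3 / 2))) (curve s)) (R := fun s => (
          (∃ j : ℕ, j < J ∧ IsoZ R (β / (4 * (3 / 2))) (E0 / (3 / 2)) T0 (z i * size n) j s) ∨
          (∃ j : ℕ, j < J ∧ IsoZ R (β / (4 * (3 / 2))) (E1 / (3 / 2)) T1 (z i * size n) j s) ∨
          ∃ j : ℕ, j < J ∧ IsoZ R (β / (4 * (3 / 2))) (E2 / (3 / 2)) T2 (z i * size n) j s) ∧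
            0 < zc κ (1000 * R * (z i / (3 / 2))) (curve s)) ?_).trans (add_le_add le_rfl ?_)
      · rintro s - ⟨h3 | h3, h4⟩
        · refine Or.inl ⟨?_, h4⟩
          rw [show 8 * R * z i * size n = 8 * R * (z i * size n) by ring,
            show 30 * R / (3 / 2) * z i * size n = 30 * R / (3 / 2) * (z i * size n) by ring,
            show R / (50 * (3 / 2)) * z i * size n = R / (50 * (3 / 2)) * (z i * size n) by ring,
            show 3 * b * z i * size n = 3 * b * (z i * size n) by ring,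
            show T1 / (4 * (3 / 2)) * z i * size n = T1 / (4 * (3 / 2)) * (z i * size n) by ring,
            show T2 / (4 * (3 / 2)) * z i * size n = T2 / (4 * (3 / 2)) * (z i * size n) by ring,
            show E2 * z i * size n = E2 * (z i * size n) by ring]
          exact h3
        · exact Or.inr ⟨h3, h4⟩
      refine (pr_or (Q := fun s => ∃ j : ℕ, j < J ∧ IsoZ R (β / (4 * (3 / 2))) (E0 / (3 / 2)) T0 (z i * size n) j s ∧
          0 < zc κ (1000 * R * (z i / (3 / 2))) (curve s))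
        (R := fun s => (
          (∃ j : ℕ, j < J ∧ IsoZ R (β / (4 * (3 / 2))) (E1 / (3 / 2)) T1 (z i * size n) j s) ∨
          ∃ j : ℕ, j < J ∧ IsoZ R (β / (4 * (3 / 2))) (E2 / (3 / 2)) T2 (z i * size n) j s) ∧
            0 < zc κ (1000 * R * (z i / (3 / 2))) (curve s)) ?_).trans (add_le_add le_rfl ?_)
      · rintro s - ⟨⟨j, h3, h5⟩ | h3, h4⟩
        · exact Or.inl ⟨j, h3, h5, h4⟩
        · exact Or.inr ⟨h3, h4⟩
      refine pr_or ?_
      rintro s - ⟨⟨j, h3, h5⟩ | ⟨j, h3, h5⟩, h4⟩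
      · exact Or.inl ⟨j, h3, h5, h4⟩
      · exact Or.inr ⟨j, h3, h5, h4⟩
    linarith
  · intro n n' s s' S N v i0 i0' L hn hn' hs hs' hS1 hS2 hS1' hS2' hN hv _ hr' hC
    have hn1 : 1 ≤ n := by omega
    have hn1' : 1 ≤ n' := by omega
    push Not at hs hs'
    obtain ⟨i, hi, i1, i2, i3⟩ := hs
    obtain ⟨i', hi', i1', i2', i3'⟩ := hs'
    refine stbZ_good hn1 hn1' (δ := η / 2) (η := η) hR hK1' (hz0 i) (hz0 i') hθ.le ?_ hη1 hη2 hηb hβθ hβR hbβ hJb hE0p.le hE2p.le hE2T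
      (by rw [hE1]; linarith) hE1p.le hT2 i1 i2 i1' i2' hN hbK hv hr' i3 i3' hC
    have h3 := hN7 n (by omega)
    have h4 : η * size n ≤ K0 * (η * S) := by
      rw [div_le_iff₀ hK] at hS1
      have := mul_le_mul_of_nonneg_left hS1 hη0.le
      linarith
    have h5 : K0 * 2 ≤ K0 * (η * S) := by linarith
    have h6 := le_of_mul_le_mul_left h5 hK
    have e : η / 2 * S = η * S / 2 := by ring
    rw [e]
    linarith

/-- **local stability of the start cuts, every unit of length** -/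
theorem stbLX : StbLX := stbLX_of Pool.Agent.SCF.K.badN

end Pool.Agent.SCF.M
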