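import Pool.Agent.ROT.F3Pie
import Pool.Agent.ROT.F3StbX

/-!
# ROT, block F3, row K7 (LOC): the geometry of close pieces in every unit of length (helper66)

* **`pie_geoX`** : `pie_geo` over `stbLX` : the unit `S` in `[size n / K0, K0 * size n]`, the bad event depends on `S` and only the
  returns to the ball of radius `1000 R S` are excluded.
-/

set_option autoImplicit false

open Set Filter Topology MeasureTheory

namespace Pool.Agent.SCF.M

open Pool.Agent.NTS.Res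
open Pool.Agent.CRT (CI)
open Pool.Agent.CRT.V.VC (pr pr_or pr_mono pr_nonneg)
open Pool.Agent.SCF.Z
open Pool.Agent.ROT.F3 (cv)

/-- **the geometry of close pieces**, unit `S` in `[size n / K0, K0 * size n]`, the cut-off in the unit `S` -/
theorem pie_geoX {R κ K0 ε : ℝ} (hR : 0 < R) (hκ : 0 < κ) (hκ1 : κ < 1) (hK0 : 1 ≤ K0) (hε : 0 < ε) :
    ∃ (ηf : ℝ → ℝ) (KK : ℝ), (∀ ω : ℝ, 0 < ω → 0 < ηf ω) ∧ 1 ≤ KK ∧ ∀ (ls : List ℝ) (θ : ℝ) (N1 : ℕ), (∀ ω ∈ ls, 0 < ω) →
      ls.length ≤ 8 → 0 < θ → ∃ (δ : ℝ) (n0 : ℕ) (Bad : ∀ n : ℕ, ℝ → (Fin n → Fin 3) → Prop), 0 < δ ∧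
        (∀ (n : ℕ) (S : ℝ), n0 ≤ n → size n / K0 ≤ S → S ≤ K0 * size n →
          pr n (fun s => Bad n S s ∧ 0 < zc κ (1000 * R * (S / size n)) (curve s)) ≤ ε) ∧
        ∀ (n n' : ℕ) (s : Fin n → Fin 3) (s' : Fin n' → Fin 3) (S : ℝ) (i i' m m' : ℕ), n0 ≤ n → n0 ≤ n' → ¬ Bad n S s →
          ¬ Bad n' S s' → size n / K0 ≤ S → S ≤ K0 * size n → size n' / K0 ≤ S → S ≤ K0 * size n' → Pie R S s i m → Pie R S s' i' m' →
          dist (XS S (md s i m)) (XS S (md s' i' m')) ≤ δ →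
          PieF ηf KK R θ S N1 ls (md s i m) (md s' i' m') ∧ StbS LG R θ S (md s i m) (md s' i' m') ∧
            StbS LG R θ S (md s' i' m') (md s i m) ∧ (i = 0 → i' = 0 → ∀ D : SzT, SzS D →
              StbS D R θ S (md s i m) (md s' i' m') ∧ StbS D R θ S (md s' i' m') (md s i m)) := by
  classical
  have hK00 : 0 < K0 := by linarith
  obtain ⟨e, he'⟩ : ∃ e, e = ε / 20 := ⟨_, rfl⟩
  have he : 0 < e := by rw [he']; positivity
  choose! ηg hη0 hη1 using fun ω hω => mdP e ω he hω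
  obtain ⟨ω6, hω6⟩ : ∃ ω6, ω6 = R / K0 := ⟨_, rfl⟩
  have hω60 : 0 < ω6 := by rw [hω6]; positivity
  have hω6K : ω6 * K0 = R := by rw [hω6]; field_simp
  have hη6 := hη0 ω6 hω60
  obtain ⟨K1, hK1, hK1'⟩ : ∃ K1 : ℝ, 1 ≤ K1 ∧ 1 / ηg ω6 ≤ K1 := ⟨max 1 (1 / ηg ω6), le_max_left _ _, le_max_right _ _⟩
  have hK10 : 0 < K1 := by linarith
  obtain ⟨K2, hK2, hs2⟩ := size_cmp K1 hK10
  obtain ⟨K3, hK3, hs3⟩ := size_cmp 1 one_pos
  have hK20 : 0 < K2 := by linarith
  have hK30 : 0 < K3 := by linarith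
  obtain ⟨KK, hKK⟩ : ∃ KK, KK = K0 * K3 + K0 * K2 := ⟨_, rfl⟩
  have hKK1 : 1 ≤ KK := by
    rw [hKK]
    have : 0 ≤ K0 * K3 := by positivity
    have : 1 * 1 ≤ K0 * K2 := mul_le_mul hK0 hK2 zero_le_one hK00.le
    linarith
  have hKK0 : 0 < KK := by linarith
  refine ⟨fun ω => ηg (ω / K2), KK, fun ω hω => hη0 _ (by positivity), hKK1, fun ls θ N1 hls hlen hθ => ?_⟩
  obtain ⟨θs, hθs0, hθs1, hθs2⟩ : ∃ θs : ℝ, 0 < θs ∧ θs ≤ θ / 4 ∧ θs ≤ R :=
    ⟨min (θ / 4) R, lt_min (by positivity) hR, min_le_left _ _, min_le_right _ _⟩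
  obtain ⟨δ, n2, BadV, hδ, hBad, hstb⟩ := stbLX R K0 K1 κ θs e hR hK0 hK1 hκ hκ1 hθs0 he
  obtain ⟨ω5, hω5⟩ : ∃ ω5, ω5 = δ / (4 * KK) := ⟨_, rfl⟩
  have hω50 : 0 < ω5 := by rw [hω5]; positivity
  have hη5 : 0 < ηg (ω5 / K2) := hη0 _ (by positivity)
  obtain ⟨C, hC⟩ : ∃ C, C = (2 / ηg (ω5 / K2) + 1) * ω5 := ⟨_, rfl⟩
  have hC0 : 0 < C := by rw [hC]; positivity
  obtain ⟨θ1, hθ10, ht⟩ := min_list [θ / 4, ω5 / 4, ω5 / (4 * C), ηg ω6, ηg (ω5 / K2) / 4, 1 / 2]
    (by
      intro x hx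
      simp only [List.mem_cons, List.not_mem_nil, or_false] at hx
      rcases hx with rfl | rfl | rfl | rfl | rfl | rfl <;> positivity)
  simp only [List.mem_cons, List.not_mem_nil, or_false, forall_eq_or_imp, forall_eq] at ht
  obtain ⟨t1, t2, t3, t4, t5, t6⟩ := ht
  have r1 : C * θ1 ≤ ω5 / 4 := by
    have h1 := mul_le_mul_of_nonneg_left t3 hC0.le
    have e : C * (ω5 / (4 * C)) = ω5 / 4 := by field_simp
    linarith
  obtain ⟨δX, N0, hδX, hnear⟩ := nearU (K0 := KK) (C := C + 1) hKK0 (by positivity) hθ10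
  obtain ⟨n3, hn3⟩ := inv_small (θ := min θ1 1) (lt_min hθ10 one_pos)
  obtain ⟨N2, hN2⟩ := exists_nat_ge (K1 * (((N0 + N1 + n3 + 1 : ℕ) : ℝ)))
  obtain ⟨Bad, hBd⟩ : ∃ Bad : ∀ n : ℕ, ℝ → (Fin n → Fin 3) → Prop, Bad = fun n S s =>
    (∃ ω ∈ ω6 :: (ω5 / K2) :: ls.map (fun ω => ω / K2), ¬ Md (ηg ω) ω s) ∨ BadV n S s := ⟨_, rfl⟩
  refine ⟨δX, n2 + N2 + 1, Bad, hδX, fun n S hn hS1 hS2 => ?_, ?_⟩
  · have h1 := pr_mds (ηf := ηg) (e := e) (n := n) (fun ω hω => hη1 ω hω n (by omega))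
      (ω6 :: (ω5 / K2) :: ls.map (fun ω => ω / K2)) (by
        intro ω hω
        rcases List.mem_cons.1 hω with rfl | hω
        · exact hω60
        rcases List.mem_cons.1 hω with rfl | hω
        · positivity
        obtain ⟨ω', hω', rfl⟩ := List.mem_map.1 hω
        exact div_pos (hls ω' hω') hK20)
    have h2 := hBad n S (by omega) hS1 hS2
    have h3 : pr n (fun s => Bad n S s ∧ 0 < zc κ (1000 * R * (S / size n)) (curve s)) ≤
        pr n (fun s => ∃ ω ∈ ω6 :: (ω5 / K2) :: ls.map (fun ω => ω / K2), ¬ Md (ηg ω) ω s) +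
          pr n (fun s => BadV n S s ∧ 0 < zc κ (1000 * R * (S / size n)) (curve s)) := pr_or fun s _ h => by
      rw [hBd] at h
      rcases h with ⟨h | h, h'⟩
      · exact Or.inl h
      · exact Or.inr ⟨h, h'⟩
    have h4 : ((ω6 :: (ω5 / K2) :: ls.map (fun ω => ω / K2)).length : ℝ) ≤ 10 := by
      rw [List.length_cons, List.length_cons, List.length_map]
      exact_mod_cast (show ls.length + 1 + 1 ≤ 10 by omega)
    have h5 := mul_le_mul_of_nonneg_right h4 he.le
    rw [he'] at h5 h1 h2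
    linarith
  · intro n n' s s' S i i' m m' hn hn' hb hb' hS1 hS2 hS1' hS2' P P' hX
    rw [hBd] at hb hb'
    push Not at hb hb'
    obtain ⟨hmd, hbv⟩ := hb
    obtain ⟨hmd', hbv'⟩ := hb'
    have hn1 : 1 ≤ n := by omega
    have hn1' : 1 ≤ n' := by omega
    have hs := NTSF.size_pos hn1
    have hs' := NTSF.size_pos hn1'
    have hS0 : 0 < S := lt_of_lt_of_le (by positivity) hS1
    have hRS : 0 < R * S := mul_pos hR hS0
    have hS3 : size n ≤ K0 * S := by
      rw [div_le_iff₀ hK00] at hS1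
      linarith
    have hS3' : size n' ≤ K0 * S := by
      rw [div_le_iff₀ hK00] at hS1'
      linarith
    -- lengths
    have len : ∀ {n : ℕ} {s : Fin n → Fin 3} {i m : ℕ}, N2 ≤ n → size n ≤ K0 * S → Pie R S s i m → Md (ηg ω6) ω6 s →
        (n : ℝ) ≤ K1 * m ∧ N0 + N1 + n3 + 1 ≤ m := by
      intro n s i m hn hS3 P h
      have h1 := pie_len P hR hS0 hS3 hω6K.le hω60.le h
      have h2 : (n : ℝ) ≤ K1 * m := by
        have h3 : (n : ℝ) ≤ 1 / ηg ω6 * m := by
          rw [div_mul_eq_mul_div, one_mul, le_div_iff₀ hη6]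
          linarith
        exact h3.trans (mul_le_mul_of_nonneg_right hK1' (Nat.cast_nonneg m))
      refine ⟨h2, ?_⟩
      have h3 : K1 * ((N0 + N1 + n3 + 1 : ℕ) : ℝ) ≤ K1 * m := hN2.trans ((by exact_mod_cast hn : (N2 : ℝ) ≤ n).trans h2)
      exact_mod_cast le_of_mul_le_mul_left h3 hK10
    obtain ⟨l1, l2⟩ := len (by omega) hS3 P (hmd ω6 List.mem_cons_self)
    obtain ⟨l1', l2'⟩ := len (by omega) hS3' P' (hmd' ω6 List.mem_cons_self)
    have hm1 : 1 ≤ m := by omega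
    have hm1' : 1 ≤ m' := by omega
    have hm0 : (0 : ℝ) < m := by exact_mod_cast hm1
    have hm0' : (0 : ℝ) < m' := by exact_mod_cast hm1'
    have hsm := NTSF.size_pos hm1
    have hsm' := NTSF.size_pos hm1'
    have hPm := P.hm
    have hPm' := P'.hm
    obtain ⟨a1, a2, a3⟩ := hn3 m (by omega)
    obtain ⟨b1, b2, b3⟩ := hn3 m' (by omega)
    have a2' := a2.trans (min_le_left _ _)
    have b2' := b2.trans (min_le_left _ _)
    have b3' := b3.trans (min_le_left _ _)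
    have b4' := b3.trans (min_le_right _ _)
    -- sizes
    have z1 : size n ≤ K2 * size m := hs2 n m hm1 l1
    have z1' : size n' ≤ K2 * size m' := hs2 n' m' hm1' l1'
    have y1 : size m ≤ K3 * size n := hs3 m n hn1 (by
      rw [one_mul]
      exact_mod_cast (show m ≤ n by omega))
    have y1' : size m' ≤ K3 * size n' := hs3 m' n' hn1' (by
      rw [one_mul]
      exact_mod_cast (show m' ≤ n' by omega))
    have zKK : ∀ {x y : ℝ}, x ≤ K3 * y → y ≤ K0 * S → x ≤ KK * S := by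
      intro x y h1 h2
      rw [hKK, add_mul]
      have h3 := mul_le_mul_of_nonneg_left h2 hK30.le
      have h4 : 0 ≤ K0 * K2 * S := by positivity
      linarith
    have sm := zKK y1 hS3
    have sm' := zKK y1' hS3'
    have sS : S ≤ KK * size m := by
      refine (hS2.trans (mul_le_mul_of_nonneg_left z1 hK00.le)).trans ?_
      rw [← mul_assoc]
      refine mul_le_mul_of_nonneg_right ?_ hsm.le
      rw [hKK]
      have : 0 ≤ K0 * K3 := by positivity
      linarith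
    -- moduli
    have mdp : ∀ {n : ℕ} {s : Fin n → Fin 3} {i m : ℕ}, size n ≤ K2 * size m → Pie R S s i m → ∀ ω : ℝ, 0 < ω →
        Md (ηg (ω / K2)) (ω / K2) s → Md (ηg (ω / K2)) ω (md s i m) := by
      intro n s i m hz P ω hω h
      refine pie_md P h le_rfl (hη0 _ (by positivity)).le ?_
      calc ω / K2 * size n ≤ ω / K2 * (K2 * size m) := mul_le_mul_of_nonneg_left hz (by positivity)
        _ = ω * size m := by field_simp
    have m5' := mdp z1' P' ω5 hω50 (hmd' _ (List.mem_cons_of_mem _ List.mem_cons_self))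
    have hbd : ∀ l : ℕ, l ≤ m' → ‖pos (md s' i' m') l‖ ≤ C * size m' := by
      rw [hC]
      refine md_bd hη5 hω50.le ?_ m5'
      have h1 : 1 / (m' : ℝ) ≤ ηg (ω5 / K2) := b2'.trans (by linarith)
      rwa [div_le_iff₀ hm0'] at h1
    obtain ⟨g1, g2, g3, g4⟩ := hnear m m' (md s i m) (md s' i' m') S (by omega) (by omega) hS0 sS
      (fun u => (curve_bd hm1' hbd u).trans (by linarith)) hX
    have g4a := abs_le.1 g4
    have g4' : |(m' : ℝ) - m| ≤ 2 * θ1 * m' := by
      rw [abs_sub_comm]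
      refine g4.trans ?_
      nlinarith
    -- closeness
    have hCl : ClS S 2 (ηg (ω5 / K2) / 2) δ (md s i m) (md s' i' m') := by
      refine clS_of hm1 hm1' (cl_of hm1 hm1' g1 m5' (by linarith) (le_refl (θ1 + 1 / size m' + ω5))) sm sm' (by positivity) hbd g2
        hC0.le ?_ hS0.le
      have h1 : θ1 + 1 / size m' + ω5 + C * θ1 ≤ 4 * ω5 := by linarith
      calc KK * (θ1 + 1 / size m' + ω5 + C * θ1) ≤ KK * (4 * ω5) := mul_le_mul_of_nonneg_left h1 hKK0.le
        _ = δ := by rw [hω5]; field_simp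
    have hcl : ∀ l : ℕ, l ≤ m → l ≤ m' → ‖pos (md s i m) l - pos (md s' i' m') l‖ ≤ δ * S := by
      intro l h1 h2
      have h1' : (l : ℝ) ≤ m := by exact_mod_cast h1
      have h2' : (l : ℝ) ≤ m' := by exact_mod_cast h2
      refine hCl l l h1 h2 (((div_le_one hm0).2 h1').trans (by norm_num)) (((div_le_one hm0').2 h2').trans (by norm_num)) ?_
      have e : (l : ℝ) / m - (l : ℝ) / m' = (l : ℝ) / m' * ((m' - m) / m) := by
        field_simp
      rw [e, abs_mul, abs_of_nonneg (by positivity : 0 ≤ (l : ℝ) / m'), abs_div, abs_of_pos hm0, abs_sub_comm]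
      have h3 : (l : ℝ) / m' ≤ 1 := (div_le_one hm0').2 h2'
      refine (mul_le_of_le_one_left (by positivity) h3).trans ?_
      rw [div_le_iff₀ hm0]
      exact g4.trans (mul_le_mul_of_nonneg_right (by linarith) hm0.le)
    have hmn : (m : ℝ) ≤ n := by exact_mod_cast (show m ≤ n by omega)
    have hmn' : (m' : ℝ) ≤ n' := by exact_mod_cast (show m' ≤ n' by omega)
    have endd : ∀ {n : ℕ} {s : Fin n → Fin 3} {i m l : ℕ}, Md (ηg ω6) ω6 s → size n ≤ K0 * S → i + m ≤ n → l ≤ m →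
        (m : ℝ) - l ≤ ηg ω6 * n → ‖pos s (i + l) - pos s (i + m)‖ ≤ R * S := by
      intro n s i m l h hS3 him hlm hd
      rw [norm_sub_rev]
      refine (h (i + l) (i + m) (by omega) him (by push_cast; linarith)).trans ?_
      calc ω6 * size n ≤ ω6 * (K0 * S) := mul_le_mul_of_nonneg_left hS3 hω60.le
        _ = R * S := by rw [← mul_assoc, hω6K]
    have hLV : LV (δ * S) (500 * R * S) (pos s i - pos s' i') i i' (min m m') s s' := by
      refine pie_lv P P' hR hS0 hcl (fun l h1 h2 => ?_) (fun l h1 h2 => ?_)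
      · have h1' : (m' : ℝ) ≤ l := by exact_mod_cast h1
        refine endd (hmd ω6 List.mem_cons_self) hS3 hPm h2 ?_
        have h3 : θ1 * (m : ℝ) ≤ ηg ω6 * n := mul_le_mul t4 hmn hm0.le hη6.le
        linarith
      · have h1' : (m : ℝ) ≤ l := by exact_mod_cast h1
        have h2' : (m : ℝ) ≤ m' := by exact_mod_cast h1.trans h2
        refine endd (hmd' ω6 List.mem_cons_self) hS3' hPm' h2 ?_
        have h3 : θ1 * (m : ℝ) ≤ ηg ω6 * n' := mul_le_mul t4 (h2'.trans hmn') hm0.le hη6.le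
        linarith
    have hv : ‖pos s i - pos s' i'‖ ≤ R * S := by
      have h1 := P.ball i le_rfl
      have h2 := P'.ball i' le_rfl
      have e2 : R / 2 * S = R * S / 2 := by ring
      rw [e2] at h1 h2
      have h3 := norm_sub_le (pos s i) (pos s' i')
      linarith
    have hball : ∀ {n : ℕ} {s : Fin n → Fin 3} {i m : ℕ}, Pie R S s i m → ∀ k : ℕ, k ≤ i → ‖pos s k‖ ≤ 4 * R * S := by
      intro n s i m P k hk
      have h1 := P.ball k hk
      have e2 : R / 2 * S = R * S / 2 := by ring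
      rw [e2] at h1
      linarith
    have st : StbV R θs S m (pos s i - pos s' i') i i' s s' := hstb n n' s s' S m _ i i' (min m m') (by omega) (by omega) hbv hbv'
      hS1 hS2 hS1' hS2' l1 hv (hball P) (hball P') hLV
    have st' : StbV R θs S m' (pos s' i' - pos s i) i' i s' s := by
      have h1 := hLV.symm
      rw [neg_sub] at h1
      exact hstb n' n s' s S m' _ i' i (min m m') (by omega) (by omega) hbv' hbv hS1' hS2' hS1 hS2 l1'
        (by rw [norm_sub_rev]; exact hv) (hball P') (hball P) h1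
    have tt : θs * m / m + |(m : ℝ) - m'| / m ≤ θ := by
      have h1 : |(m : ℝ) - m'| / m ≤ θ1 := by
        rw [div_le_iff₀ hm0]
        exact g4
      have e : θs * m / m = θs := by field_simp
      rw [e]
      linarith
    have tt' : θs * m' / m' + |(m' : ℝ) - m| / m' ≤ θ := by
      have h1 : |(m' : ℝ) - m| / m' ≤ 2 * θ1 := by
        rw [div_le_iff₀ hm0']
        exact g4'
      have e : θs * m' / m' = θs := by field_simp
      rw [e]
      linarith
    refine ⟨⟨by omega, by omega, hm1, hm1', sm, sm', g1.trans (by linarith), g2.trans (by linarith), g3.trans (by linarith),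
      g4.trans (mul_le_mul_of_nonneg_right (by linarith) hm0.le), g4'.trans (mul_le_mul_of_nonneg_right (by linarith) hm0'.le),
      fun ω hω => ?_, fun ω hω => ?_⟩, pie_stb P P' hR hS0 hm1 hm1' st (by linarith) hθs2 tt,
      pie_stb P' P hR hS0 hm1' hm1 st' (by linarith) hθs2 tt', fun h1 h2 D hD => ?_⟩
    · exact mdp z1 P ω (hls ω hω) (hmd _ (List.mem_cons_of_mem _ (List.mem_cons_of_mem _ (List.mem_map.2 ⟨ω, hω, rfl⟩))))
    · exact mdp z1' P' ω (hls ω hω) (hmd' _ (List.mem_cons_of_mem _ (List.mem_cons_of_mem _ (List.mem_map.2 ⟨ω, hω, rfl⟩))))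
    · subst h1 h2
      rw [NTSF.pos_zero, NTSF.pos_zero, sub_zero] at st st'
      exact ⟨pie_stb0 hD P P' hR hS0 hm1 hm1' st (by linarith) hθs2 tt, pie_stb0 hD P' P hR hS0 hm1' hm1 st' (by linarith) hθs2 tt'⟩

end Pool.Agent.SCF.M
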