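import Pool.Agent.ROT.F3WLim
import Pool.Agent.ROT.F3PieX

/-!
# ROT, block F3, row K7 (LOC): one-sided comparison of the gates of two close words (helper66)

* `first_gate` : the first cut of size `a` below a start cut is a gate, with every window which the place allows;
* **`gate_low`** : a gate of `s` gives a gate of `s'` for every smaller size, not later; no hypothesis on jumps;
* **`gb2_low`** : the same for the double gates (`GB2` of helper68).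
-/

set_option autoImplicit false

open Set Filter Topology MeasureTheory

namespace Pool.Agent.ROT.F3.K7

open Pool.Agent.NTS.Res
open Pool.Agent.SCF.Z Pool.Agent.SCF.M

/-- a cut of a start piece of a start piece -/
lemma scut_trans {n : ℕ} {s : Fin n → Fin 3} {a b c : ℕ} (h : SCut s 0 a b) (h' : SCut s 0 b c) : SCut s 0 a c := by
  obtain ⟨h1, h2, h3, h4, h5, h6⟩ := h
  obtain ⟨g1, g2, g3, g4, g5, g6⟩ := h'
  refine ⟨h1, h2.trans g2, h3, h4, h5, fun j j1 j2 => ?_⟩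
  rcases le_or_gt j b with h7 | h7
  · exact h6 j j1 h7
  · have := h6 b h2 le_rfl
    have := g6 j h7 j2
    linarith

/-- **the first cut of size `a` below a start cut is a gate** -/
theorem first_gate {n : ℕ} {s : Fin n → Fin 3} {D : ℝ → ℕ → Prop} {a ρ : ℝ} {c : ℕ} (hc : SC ρ s c) (hD : D a c) :
    ∃ k : ℕ, k ≤ c ∧ (k = c ∨ SCut s 0 k c) ∧ D a k ∧ ∀ r ρ' : ℝ, (∀ i j : ℕ, i ≤ k → j ≤ k → ‖pos s i - pos s j‖ ≤ r) →
      ρ' + ‖pos s k - pos s c‖ ≤ ρ → TP D a r ρ' s k := by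
  classical
  have hex : ∃ k : ℕ, (k = c ∨ SCut s 0 k c) ∧ D a k := ⟨c, Or.inl rfl, hD⟩
  obtain ⟨k, ⟨h1, h2⟩, h3⟩ : ∃ k : ℕ, ((k = c ∨ SCut s 0 k c) ∧ D a k) ∧ ∀ k', k' < k → ¬ ((k' = c ∨ SCut s 0 k' c) ∧ D a k') :=
    ⟨Nat.find hex, Nat.find_spec hex, fun k' hk' => Nat.find_min hex hk'⟩
  have hkc : k ≤ c := by
    rcases h1 with rfl | h1
    · exact le_rfl
    · exact h1.2.1.le
  refine ⟨k, hkc, h1, h2, fun r ρ' hr hρ => ?_⟩
  obtain ⟨q1, q2, q3, q4, q5⟩ := hc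
  have hn0 := norm_nonneg (pos s k - pos s c)
  have hfirst : ∀ k' : ℕ, SCut s 0 k' k → ¬ D a k' := fun k' hk' hd => by
    refine h3 k' hk'.2.1 ⟨Or.inr ?_, hd⟩
    rcases h1 with rfl | h1
    · exact hk'
    · exact scut_trans hk' h1
  rcases h1 with rfl | h1
  · rw [sub_self, norm_zero, add_zero] at hρ
    exact ⟨⟨q1, q2, hr, h2, hfirst⟩, q3, q4, fun j j1 j2 j3 => q5 j j1 j2 (j3.trans hρ)⟩
  · obtain ⟨g1, g2, g3, g4, g5, g6⟩ := h1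
    refine ⟨⟨g3, fun i hi => g5 i (Nat.zero_le _) hi, hr, h2, hfirst⟩, by omega, g4, fun j j1 j2 j3 => ?_⟩
    rcases le_or_gt j c with h7 | h7
    · exact g6 j j1 h7
    · have h8 : ‖pos s j - pos s c‖ ≤ ρ := by
        have := norm_sub_le_norm_sub_add_norm_sub (pos s j) (pos s k) (pos s c)
        linarith
      have := q5 j h7 j2 h8
      have := g6 c g2 le_rfl
      linarith

variable {n n' : ℕ} {s : Fin n → Fin 3} {s' : Fin n' → Fin 3} {D D' : ℝ → ℕ → Prop} {R θ β ν μ S a r ρ a' : ℝ} {k0 : ℕ}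

/-- the output of the one-sided comparison: `c` = the mate of the gate, `k'` = the gate of `s'` of size `a'` -/
structure Low (D' : ℝ → ℕ → Prop) (θ ν S a' r ρ : ℝ) {n n' : ℕ} (s : Fin n → Fin 3) (s' : Fin n' → Fin 3) (k c k' : ℕ) : Prop where
  sc : SC ((ρ - θ) * S) s' c
  tm : |(k : ℝ) / n - (c : ℝ) / n'| ≤ θ
  ps : ‖pos s k - pos s' c‖ ≤ θ * S
  le : k' ≤ c
  cut : k' = c ∨ SCut s' 0 k' c
  dm : ∀ i j : ℕ, i ≤ c → j ≤ c → ‖pos s' i - pos s' j‖ ≤ (r + 2 * ν) * S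
  tp : ∀ r' ρ' : ℝ, r + 2 * ν ≤ r' → ρ' * S + ‖pos s' k' - pos s' c‖ ≤ (ρ - θ) * S → TP D' (a' * S) (r' * S) (ρ' * S) s' k'

lemma Low.re {D' : ℝ → ℕ → Prop} {θ ν S a' r ρ : ℝ} {n n' : ℕ} {s : Fin n → Fin 3} {s' : Fin n' → Fin 3} {k c k' : ℕ}
    (h : Low D' θ ν S a' r ρ s s' k c k') : (pos s' k').re ≤ (pos s' c).re := h.sc.2.1 k' h.le

lemma Low.re' {D' : ℝ → ℕ → Prop} {θ ν S a' r ρ : ℝ} {n n' : ℕ} {s : Fin n → Fin 3} {s' : Fin n' → Fin 3} {k c k' : ℕ}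
    (h : Low D' θ ν S a' r ρ s s' k c k') : (pos s' c).re ≤ (pos s k).re + θ * S := by
  have h1 : |(pos s k).re - (pos s' c).re| ≤ θ * S := by
    rw [← Complex.sub_re]
    exact (Complex.abs_re_le_norm _).trans h.ps
  have := (abs_le.1 h1).1
  linarith

lemma Low.tm' {D' : ℝ → ℕ → Prop} {θ ν S a' r ρ : ℝ} {n n' : ℕ} {s : Fin n → Fin 3} {s' : Fin n' → Fin 3} {k c k' : ℕ}
    (h : Low D' θ ν S a' r ρ s s' k c k') : (k' : ℝ) / n' ≤ (k : ℝ) / n + θ := by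
  have h1 : (k' : ℝ) / n' ≤ (c : ℝ) / n' := div_le_div_of_nonneg_right (by exact_mod_cast h.le) (Nat.cast_nonneg _)
  have := (abs_le.1 h.tm).1
  linarith

/-- the simple form: windows smaller by `r + 2 ν` -/
lemma Low.tp' {D' : ℝ → ℕ → Prop} {θ ν S a' r ρ : ℝ} {n n' : ℕ} {s : Fin n → Fin 3} {s' : Fin n' → Fin 3} {k c k' : ℕ}
    (h : Low D' θ ν S a' r ρ s s' k c k') {r' ρ' : ℝ} (hS : 0 ≤ S) (hr : r + 2 * ν ≤ r') (hρ : ρ' + (r + 2 * ν) + θ ≤ ρ) :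
    TP D' (a' * S) (r' * S) (ρ' * S) s' k' := by
  refine h.tp r' ρ' hr ?_
  have h1 := h.dm k' c h.le le_rfl
  have h2 : (ρ' + (r + 2 * ν)) * S ≤ (ρ - θ) * S := mul_le_mul_of_nonneg_right (by linarith) hS
  have e : (ρ' + (r + 2 * ν)) * S = ρ' * S + (r + 2 * ν) * S := by ring
  linarith

/-- **one-sided comparison of the gates**: no hypothesis on jumps -/
theorem gate_low (hD : Sz1 s D) (hD' : Sz1 s' D') (hT : TrS θ 2 μ S s s' D D') (hS0 : 0 < S) (hn : 1 ≤ n) (hn' : 1 ≤ n')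
    (hC : ClS S 2 β ν s s') (hS : StbD D R θ S s s') (hR : 0 < R) (hθ : 0 < θ) (hb : θ + 1 / n ≤ β) (hθ1 : θ ≤ 1)
    (hρ1 : 40 * R ≤ ρ) (hρ2 : ρ ≤ 130 * R) (hr : r ≤ 4 * R) (ha : R / 8 ≤ a) (haa : a' + μ ≤ a)
    (ht : TP D (a * S) (r * S) (ρ * S) s k0) : ∃ c k' : ℕ, Low D' θ ν S a' r ρ s s' k0 c k' := by
  have hn0 : (0 : ℝ) < n := by exact_mod_cast hn
  have hn0' : (0 : ℝ) < n' := by exact_mod_cast hn'
  have hkn : k0 < n := ht.2.1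
  have hk1 : (k0 : ℝ) / n ≤ 1 := by
    rw [div_le_one hn0]
    exact_mod_cast hkn.le
  obtain ⟨c, h1, h2, h3⟩ := hS ρ k0 hρ1 hρ2 (tp_sc ht) (fun i hi => by
    have h4 := ht.1.2.2.1 i 0 hi (Nat.zero_le _)
    rw [NTSF.pos_zero, sub_zero] at h4
    exact h4.trans (mul_le_mul_of_nonneg_right hr hS0.le)) (hD.anti ht.1.2.2.2.1 (mul_le_mul_of_nonneg_right ha hS0.le))
  have h2' := abs_le.1 h2
  have hc1 : (c : ℝ) / n' ≤ 2 := by linarith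
  have h5 := hT k0 c a hkn.le h1.lt.le (by linarith) hc1 h2 h3 ht.1.2.2.2.1
  have h6 : D' (a' * S) c := hD'.anti h5 (mul_le_mul_of_nonneg_right (by linarith) hS0.le)
  obtain ⟨k', g1, g2, g3, g4⟩ := first_gate h1 h6
  have hdm := diam_trS (A := r) hn hn' hC hθ.le hb hkn.le h1.lt.le (by linarith) hc1 h2 ht.1.2.2.1
  exact ⟨c, k', h1, h2, h3, g1, g2, hdm, fun r' ρ' hr' hρ' => g4 _ _ (fun i j hi hj => (hdm i j (hi.trans g1) (hj.trans g1)).trans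
    (mul_le_mul_of_nonneg_right hr' hS0.le)) hρ'⟩

/-- **one-sided comparison of the double gates** -/
theorem gb2_low {R2 m r2 ρ2 m' : ℝ} {c0 x0 : ℕ} (hD : Sz1 s D) (hD' : Sz1 s' D') (hT : TrS θ 2 μ S s s' D D') (hS0 : 0 < S)
    (hn : 1 ≤ n) (hn' : 1 ≤ n') (hC : ClS S 2 β ν s s') (hS : StbD D R θ S s s') (hSL : StbS LG R2 θ S s s') (hR : 0 < R)
    (hR2 : 0 < R2) (hθ : 0 < θ)
    (hb : θ + 1 / n ≤ β) (hθ1 : θ ≤ 1) (hρ1 : 40 * R ≤ ρ) (hρ2 : ρ ≤ 130 * R) (hr : r ≤ 4 * R) (ha : R / 8 ≤ a)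
    (haa : a' + μ ≤ a) (hρ1' : 40 * R2 ≤ ρ2) (hρ2' : ρ2 ≤ 130 * R2) (hr2 : r2 ≤ 4 * R2) (hm : R2 / 8 ≤ m) (hmm : m' + 2 * θ ≤ m)
    (ht : GB2 D a r ρ m r2 ρ2 S s c0 x0) :
    ∃ c c' x x' : ℕ, Low D' θ ν S a' r ρ s s' c0 c c' ∧ Low (Dv s' (pos s' c').re) θ ν S m' r2 ρ2 s s' x0 x x' := by
  obtain ⟨c, c', h1⟩ := gate_low hD hD' hT hS0 hn hn' hC hS hR hθ hb hθ1 hρ1 hρ2 hr ha haa ht.1
  have hb0 : 0 ≤ (pos s c0).re := by
    have := ht.1.1.2.1 0 (Nat.zero_le _)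
    rwa [NTSF.pos_zero, Complex.zero_re] at this
  have hb0' : 0 ≤ (pos s' c').re := by
    rcases h1.cut with h2 | h2
    · rw [h2]
      have := h1.sc.2.1 0 (Nat.zero_le _)
      rwa [NTSF.pos_zero, Complex.zero_re] at this
    · have := h2.2.2.2.2.1 0 (Nat.zero_le _) (Nat.zero_le _)
      rwa [NTSF.pos_zero, Complex.zero_re] at this
  have hlev : (pos s' c').re ≤ (pos s c0).re + θ * S := h1.re.trans h1.re'
  obtain ⟨x, x', h2⟩ := gate_low (D := Dv s (pos s c0).re) (D' := Dv s' (pos s' c').re) (μ := 2 * θ) (a := m) (a' := m')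
    (sz1_Dv hb0) (sz1_Dv hb0') (trS_Dv hlev (by linarith) hS0.le) hS0 hn hn' hC (StbD.dv hb0 hSL) hR2 hθ hb hθ1 hρ1' hρ2' hr2 hm hmm
    ht.2
  exact ⟨c, c', x, x', h1, h2⟩

end Pool.Agent.ROT.F3.K7
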