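import Pool.Agent.ROT.F3K7Lb
import Pool.Agent.ROT.F3K7M
import Pool.Agent.ROT.F3K7G

/-!
# ROT, block F3, row K7 (LOC): one-sided comparison of the gates of two words near strands with a common piece (helper66)

* `Ran R R2 q` : the ranges of the parameters;
* **`tp_step`**, **`gb_step`** : a gate (double gate) of the word `w` gives a gate (double gate) of the word `w'` for smaller levels,
  not later, in absolute times from the beginning of the piece, with all windows which the places allow.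
-/

set_option autoImplicit false

open Set Filter Topology MeasureTheory

namespace Pool.Agent.ROT.F3.K7

open Pool.Agent.NTS.Res (step pos saw fug size curve)
open Pool.Agent.CRT (CI)
open Pool.Agent.SCF.Z Pool.Agent.SCF.M
open Pool.Agent.ROT.F3.LR (Qg)

/-- **the ranges of the parameters** -/
structure Ran (R R2 : ℝ) (q : Qg) : Prop where
  ρ1 : 40 * R ≤ q.ρ
  ρ2 : q.ρ ≤ 130 * R
  r : q.r ≤ 3 * R
  ρ21 : 40 * R2 ≤ q.ρ2
  ρ22 : q.ρ2 ≤ 130 * R2
  r2 : q.r2 ≤ 3 * R2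
  m : R2 / 8 ≤ q.m

/-- the vertices of a piece of a word -/
lemma md_ps {w : W3} {i m k : ℕ} (hi : Even i) (him : i + m ≤ w.length) (hk : k ≤ m) :
    pos (md w.get i m) k = ps w (i + k) - ps w i := by
  rw [pos_md_w hi him hk, pos_get, pos_get]
where
  pos_md_w {w : W3} {i m k : ℕ} (hi : Even i) (him : i + m ≤ w.length) (hk : k ≤ m) :
      pos (md w.get i m) k = pos w.get (i + k) - pos w.get i := pos_md w.get hi him k hk

section

variable {R R2 z η β KK β' KK' θ ν t e t' e' B : ℝ} {p p' : ℝ × CI} {N : ℕ} {w w' : W3} {i m i' m' : ℕ}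

/-- times of the pieces -/
lemma time_step {T a c m m' : ℝ} (hT : 0 < T) (hm : 0 < m) (hm' : 0 < m') (hθ : 0 ≤ θ) (hc : 0 ≤ c) (hcm : c ≤ m)
    (h : a / m' ≤ c / m + θ) (hmm : |m - m'| ≤ θ * m) (hB : m / T ≤ B) (hB' : m' / T ≤ B) : a / T ≤ c / T + 2 * θ * B := by
  have h1 : a ≤ (c / m + θ) * m' := by rwa [div_le_iff₀ hm'] at h
  have h2 : m' ≤ m + θ * m := by
    have := (abs_le.1 hmm).1
    linarith
  have h3 : c / m * m' ≤ c + θ * c := by
    have h4 : c / m * m' ≤ c / m * (m + θ * m) := mul_le_mul_of_nonneg_left h2 (by positivity)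
    have e : c / m * (m + θ * m) = c + θ * c := by field_simp
    linarith
  have h5 : a ≤ c + θ * m + θ * m' := by
    have h6 : θ * c ≤ θ * m := mul_le_mul_of_nonneg_left hcm hθ
    have e : (c / m + θ) * m' = c / m * m' + θ * m' := by ring
    linarith
  have h6 : a / T ≤ (c + θ * m + θ * m') / T := div_le_div_of_nonneg_right h5 hT.le
  have h7 : (c + θ * m + θ * m') / T = c / T + θ * (m / T) + θ * (m' / T) := by ring
  have h8 := mul_le_mul_of_nonneg_left hB hθ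
  have h9 := mul_le_mul_of_nonneg_left hB' hθ
  linarith

/-- **the first gate** -/
theorem tp_step (A : Apx R R2 z η p t e N w i m) (A' : Apx R R2 z η p' t' e' N w' i' m')
    (F : PcS β ν θ KK R N (md w.get i m) (md w'.get i' m')) (hR : 0 < R) (hθ : 0 < θ) (hθ1 : θ ≤ 1)
    (hB : (m : ℝ) / (N : ℝ) ^ (4 / 3 : ℝ) ≤ B) (hB' : (m' : ℝ) / (N : ℝ) ^ (4 / 3 : ℝ) ≤ B) {a r ρ a1 : ℝ} (hρ1 : 40 * R ≤ ρ)
    (hρ2 : ρ ≤ 130 * R) (hr : r ≤ 3 * R) (ha : (ps w i).re + R / 8 * N ≤ a * N) (ha1 : (ps w' i').re + R / 32 * N < a1 * N)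
    (haa : a1 * N - (ps w' i').re + 2 * θ * N ≤ a * N - (ps w i).re) {c : ℕ}
    (h : TP (Dv w.get 0) (a * N) (r * N) (ρ * N) w.get c) :
    ∃ c' : ℕ, c ≤ w.length ∧ c' ≤ w'.length ∧
      (c' : ℝ) / (N : ℝ) ^ (4 / 3 : ℝ) - (i' : ℝ) / (N : ℝ) ^ (4 / 3 : ℝ) ≤
        (c : ℝ) / (N : ℝ) ^ (4 / 3 : ℝ) - (i : ℝ) / (N : ℝ) ^ (4 / 3 : ℝ) + 2 * θ * B ∧
      ‖(ps w' c' - ps w' i') - (ps w c - ps w i)‖ ≤ (r + 2 * ν + θ) * N ∧
      ∀ r' ρ' : ℝ, r + 2 * ν + 2 * (z + η) ≤ r' → r' - 2 * (z + η) ≤ 4 * R → ρ' ≤ 130 * R →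
        ρ' * N + ‖(ps w' c' - ps w' i') - (ps w c - ps w i)‖ ≤ (ρ - 2 * θ) * N →
          TP (Dv w'.get 0) (a1 * N) (r' * N) (ρ' * N) w'.get c' := by
  have hN0 : (0 : ℝ) < N := by exact_mod_cast A.N1
  have hT : 0 < (N : ℝ) ^ (4 / 3 : ℝ) := by positivity
  have hRN := mul_pos hR hN0
  have e8 : R / 8 * (N : ℝ) = R * N / 8 := by ring
  have e32 : R / 32 * (N : ℝ) = R * N / 32 := by ring
  have hP := A.px
  have hP' := A'.px
  obtain ⟨c1, rfl, hc1, hT1⟩ := tp_pie hP hR hN0 (by rw [pos_get, e32]; rw [e8] at ha; linarith) (by linarith) hρ2 h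
  have hPm := hP.hm
  have hPm' := hP'.hm
  have hlevel : (a - (pos w.get i).re / N) * N = a * N - (ps w i).re := by
    rw [pos_get]
    field_simp
  have hlevel' : (a1 - (pos w'.get i').re / N) * N = a1 * N - (ps w' i').re := by
    rw [pos_get]
    field_simp
  have hcmp : a1 - (pos w'.get i').re / N + 2 * θ ≤ a - (pos w.get i).re / N := by
    refine le_of_mul_le_mul_right ?_ hN0
    rw [add_mul, hlevel, hlevel']
    exact haa
  have h8 : R / 8 ≤ a - (pos w.get i).re / N := by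
    refine le_of_mul_le_mul_right ?_ hN0
    rw [hlevel]
    linarith
  obtain ⟨c2, k', L⟩ := gate_low (D := Dv (md w.get i m) 0) (D' := Dv (md w'.get i' m') 0) (μ := 2 * θ) (sz1_Dv le_rfl) (sz1_Dv le_rfl)
    (trS_Dv (e := θ) (by positivity) (by linarith) hN0.le) hN0 F.o1 F.o1' F.cl (StbD.dv le_rfl F.st) hR hθ F.b hθ1 hρ1 hρ2
    (by linarith) h8 hcmp hT1
  have hk' : k' < m' := lt_of_le_of_lt L.le L.sc.lt
  have hc2 : c2 < m' := L.sc.lt
  have hm0 : (0 : ℝ) < m := by exact_mod_cast F.o1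
  have hm0' : (0 : ℝ) < m' := by exact_mod_cast F.o1'
  have hdm := L.dm k' c2 L.le le_rfl
  have hps := L.ps
  rw [md_ps hP'.ev hPm' hk'.le, md_ps hP'.ev hPm' hc2.le] at hdm
  rw [md_ps hP.ev hPm hc1.le, md_ps hP'.ev hPm' hc2.le] at hps
  refine ⟨i' + k', by omega, by omega, ?_, ?_, fun r' ρ' h1 h2 h3 h4 => ?_⟩
  · have h1 := time_step (B := B) hT hm0 hm0' hθ.le (Nat.cast_nonneg c1) (by exact_mod_cast hc1.le) L.tm' F.le hB hB'
    push_cast
    rw [add_div, add_div]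
    linarith
  · have e1 : ps w' (i' + k') - ps w' i' - (ps w (i + c1) - ps w i) =
        (ps w' (i' + k') - ps w' i' - (ps w' (i' + c2) - ps w' i')) - (ps w (i + c1) - ps w i - (ps w' (i' + c2) - ps w' i')) := by ring
    rw [e1]
    refine (norm_sub_le _ _).trans ?_
    have e2 : (r + 2 * ν + θ) * (N : ℝ) = (r + 2 * ν) * N + θ * N := by ring
    rw [e2]
    exact add_le_add hdm hps
  · have hwin : ρ' * N + ‖pos (md w'.get i' m') k' - pos (md w'.get i' m') c2‖ ≤ (ρ - θ) * N := by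
      rw [md_ps hP'.ev hPm' hk'.le, md_ps hP'.ev hPm' hc2.le]
      have e1 : ps w' (i' + k') - ps w' i' - (ps w' (i' + c2) - ps w' i') =
          (ps w' (i' + k') - ps w' i' - (ps w (i + c1) - ps w i)) + (ps w (i + c1) - ps w i - (ps w' (i' + c2) - ps w' i')) := by ring
      rw [e1]
      have h5 := norm_add_le (ps w' (i' + k') - ps w' i' - (ps w (i + c1) - ps w i))
        (ps w (i + c1) - ps w i - (ps w' (i' + c2) - ps w' i'))
      have e2 : (ρ - 2 * θ) * (N : ℝ) = (ρ - θ) * N - θ * N := by ring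
      linarith
    have h5 := L.tp (r' - 2 * (z + η)) ρ' (by linarith) hwin
    have h6 := tp_pie' hP' hR hN0 (z := z + η) (fun k hk => by rw [pos_get]; exact A'.ball k hk) (by rw [pos_get]; exact ha1) h2 h3 h5
    have e3 : r' - 2 * (z + η) + 2 * (z + η) = r' := by ring
    rwa [e3] at h6

/-- **the double gate** -/
theorem gb_step (A : Apx R R2 z η p t e N w i m) (A' : Apx R R2 z η p' t' e' N w' i' m')
    (F : PcS β ν θ KK R N (md w.get i m) (md w'.get i' m')) (F2 : PcS β' ν θ KK' R2 N (md w.get i m) (md w'.get i' m'))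
    (hR : 0 < R) (hR2 : 0 < R2) (hθ : 0 < θ) (hθ1 : θ ≤ 1)
    (hB : (m : ℝ) / (N : ℝ) ^ (4 / 3 : ℝ) ≤ B) (hB' : (m' : ℝ) / (N : ℝ) ^ (4 / 3 : ℝ) ≤ B) {q : Qg} {a1 m1 : ℝ} (hq : Ran R R2 q)
    (ha : (ps w i).re + R / 8 * N ≤ q.a * N) (ha1 : (ps w' i').re + R / 32 * N < a1 * N)
    (haa : a1 * N - (ps w' i').re + 2 * θ * N ≤ q.a * N - (ps w i).re) (hm1 : R2 / 8 ≤ m1) (hmm : m1 + 2 * θ ≤ q.m) {c x : ℕ}
    (h : GB2 (Dv w.get 0) q.a q.r q.ρ q.m q.r2 q.ρ2 N w.get c x) :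
    ∃ c' x' : ℕ, c ≤ w.length ∧ c' ≤ w'.length ∧ x ≤ w.length ∧ x' ≤ w'.length ∧
      (c' : ℝ) / (N : ℝ) ^ (4 / 3 : ℝ) - (i' : ℝ) / (N : ℝ) ^ (4 / 3 : ℝ) ≤
        (c : ℝ) / (N : ℝ) ^ (4 / 3 : ℝ) - (i : ℝ) / (N : ℝ) ^ (4 / 3 : ℝ) + 2 * θ * B ∧
      (x' : ℝ) / (N : ℝ) ^ (4 / 3 : ℝ) - (i' : ℝ) / (N : ℝ) ^ (4 / 3 : ℝ) ≤
        (x : ℝ) / (N : ℝ) ^ (4 / 3 : ℝ) - (i : ℝ) / (N : ℝ) ^ (4 / 3 : ℝ) + 2 * θ * B ∧
      ‖(ps w' c' - ps w' i') - (ps w c - ps w i)‖ ≤ (q.r + 2 * ν + θ) * N ∧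
      ‖(ps w' x' - ps w' i') - (ps w x - ps w i)‖ ≤ (q.r2 + 2 * ν + θ) * N ∧
      ∀ r' ρ' r2' ρ2' : ℝ, q.r + 2 * ν + 2 * (z + η) ≤ r' → r' - 2 * (z + η) ≤ 4 * R → ρ' ≤ 130 * R →
        ρ' * N + ‖(ps w' c' - ps w' i') - (ps w c - ps w i)‖ ≤ (q.ρ - 2 * θ) * N →
        q.r2 + 2 * ν + 2 * (z + η) ≤ r2' → r2' - 2 * (z + η) ≤ 4 * R2 → ρ2' ≤ 130 * R2 →
        ρ2' * N + ‖(ps w' x' - ps w' i') - (ps w x - ps w i)‖ ≤ (q.ρ2 - 2 * θ) * N →
          GB2 (Dv w'.get 0) a1 r' ρ' m1 r2' ρ2' N w'.get c' x' := by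
  have hN0 : (0 : ℝ) < N := by exact_mod_cast A.N1
  have hT : 0 < (N : ℝ) ^ (4 / 3 : ℝ) := by positivity
  have hRN := mul_pos hR hN0
  have e8 : R / 8 * (N : ℝ) = R * N / 8 := by ring
  have e32 : R / 32 * (N : ℝ) = R * N / 32 := by ring
  have hP := A.px
  have hP' := A'.px
  obtain ⟨c1, x1, rfl, rfl, hc1, hx1, hT1⟩ := gb2_pie hP A.px2 hR hR2 hN0 (by rw [pos_get, e32]; rw [e8] at ha; linarith)
    (by linarith [hq.r]) hq.ρ2 (by linarith [hq.r2]) hq.ρ22 (by linarith [hq.m]) h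
  have hPm := hP.hm
  have hPm' := hP'.hm
  have hlevel : (q.a - (pos w.get i).re / N) * N = q.a * N - (ps w i).re := by
    rw [pos_get]
    field_simp
  have hlevel' : (a1 - (pos w'.get i').re / N) * N = a1 * N - (ps w' i').re := by
    rw [pos_get]
    field_simp
  have hcmp : a1 - (pos w'.get i').re / N + 2 * θ ≤ q.a - (pos w.get i).re / N := by
    refine le_of_mul_le_mul_right ?_ hN0
    rw [add_mul, hlevel, hlevel']
    exact haa
  have h8 : R / 8 ≤ q.a - (pos w.get i).re / N := by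
    refine le_of_mul_le_mul_right ?_ hN0
    rw [hlevel]
    linarith
  obtain ⟨c2, k', x2, y', L, L2⟩ := gb2_low (D := Dv (md w.get i m) 0) (D' := Dv (md w'.get i' m') 0) (μ := 2 * θ) (R2 := R2)
    (sz1_Dv le_rfl) (sz1_Dv le_rfl) (trS_Dv (e := θ) (by positivity) (by linarith) hN0.le) hN0 F.o1 F.o1' F.cl (StbD.dv le_rfl F.st)
    F2.st hR hR2 hθ F.b hθ1 hq.ρ1 hq.ρ2 (by linarith [hq.r]) h8 hcmp hq.ρ21 hq.ρ22 (by linarith [hq.r2]) hq.m hmm hT1
  have hk' : k' < m' := lt_of_le_of_lt L.le L.sc.lt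
  have hc2 : c2 < m' := L.sc.lt
  have hy' : y' < m' := lt_of_le_of_lt L2.le L2.sc.lt
  have hx2 : x2 < m' := L2.sc.lt
  have hm0 : (0 : ℝ) < m := by exact_mod_cast F.o1
  have hm0' : (0 : ℝ) < m' := by exact_mod_cast F.o1'
  have hdm := L.dm k' c2 L.le le_rfl
  have hps := L.ps
  have hdm2 := L2.dm y' x2 L2.le le_rfl
  have hps2 := L2.ps
  rw [md_ps hP'.ev hPm' hk'.le, md_ps hP'.ev hPm' hc2.le] at hdm
  rw [md_ps hP.ev hPm hc1.le, md_ps hP'.ev hPm' hc2.le] at hps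
  rw [md_ps hP'.ev hPm' hy'.le, md_ps hP'.ev hPm' hx2.le] at hdm2
  rw [md_ps hP.ev hPm hx1.le, md_ps hP'.ev hPm' hx2.le] at hps2
  refine ⟨i' + k', i' + y', by omega, by omega, by omega, by omega, ?_, ?_, ?_, ?_, fun r' ρ' r2' ρ2' h1 h2 h3 h4 h5 h6 h7 h8 => ?_⟩
  · have h1 := time_step (B := B) hT hm0 hm0' hθ.le (Nat.cast_nonneg c1) (by exact_mod_cast hc1.le) L.tm' F.le hB hB'
    push_cast
    rw [add_div, add_div]
    linarith
  · have h1 := time_step (B := B) hT hm0 hm0' hθ.le (Nat.cast_nonneg x1) (by exact_mod_cast hx1.le) L2.tm' F.le hB hB'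
    push_cast
    rw [add_div, add_div]
    linarith
  · have e1 : ps w' (i' + k') - ps w' i' - (ps w (i + c1) - ps w i) =
        (ps w' (i' + k') - ps w' i' - (ps w' (i' + c2) - ps w' i')) - (ps w (i + c1) - ps w i - (ps w' (i' + c2) - ps w' i')) := by ring
    rw [e1]
    refine (norm_sub_le _ _).trans ?_
    have e2 : (q.r + 2 * ν + θ) * (N : ℝ) = (q.r + 2 * ν) * N + θ * N := by ring
    rw [e2]
    exact add_le_add hdm hps
  · have e1 : ps w' (i' + y') - ps w' i' - (ps w (i + x1) - ps w i) =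
        (ps w' (i' + y') - ps w' i' - (ps w' (i' + x2) - ps w' i')) - (ps w (i + x1) - ps w i - (ps w' (i' + x2) - ps w' i')) := by ring
    rw [e1]
    refine (norm_sub_le _ _).trans ?_
    have e2 : (q.r2 + 2 * ν + θ) * (N : ℝ) = (q.r2 + 2 * ν) * N + θ * N := by ring
    rw [e2]
    exact add_le_add hdm2 hps2
  · have hwin : ρ' * N + ‖pos (md w'.get i' m') k' - pos (md w'.get i' m') c2‖ ≤ (q.ρ - θ) * N := by
      rw [md_ps hP'.ev hPm' hk'.le, md_ps hP'.ev hPm' hc2.le]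
      have e1 : ps w' (i' + k') - ps w' i' - (ps w' (i' + c2) - ps w' i') =
          (ps w' (i' + k') - ps w' i' - (ps w (i + c1) - ps w i)) + (ps w (i + c1) - ps w i - (ps w' (i' + c2) - ps w' i')) := by ring
      rw [e1]
      have h5 := norm_add_le (ps w' (i' + k') - ps w' i' - (ps w (i + c1) - ps w i))
        (ps w (i + c1) - ps w i - (ps w' (i' + c2) - ps w' i'))
      have e2 : (q.ρ - 2 * θ) * (N : ℝ) = (q.ρ - θ) * N - θ * N := by ring
      linarith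
    have hwin2 : ρ2' * N + ‖pos (md w'.get i' m') y' - pos (md w'.get i' m') x2‖ ≤ (q.ρ2 - θ) * N := by
      rw [md_ps hP'.ev hPm' hy'.le, md_ps hP'.ev hPm' hx2.le]
      have e1 : ps w' (i' + y') - ps w' i' - (ps w' (i' + x2) - ps w' i') =
          (ps w' (i' + y') - ps w' i' - (ps w (i + x1) - ps w i)) + (ps w (i + x1) - ps w i - (ps w' (i' + x2) - ps w' i')) := by ring
      rw [e1]
      have h5 := norm_add_le (ps w' (i' + y') - ps w' i' - (ps w (i + x1) - ps w i))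
        (ps w (i + x1) - ps w i - (ps w' (i' + x2) - ps w' i'))
      have e2 : (q.ρ2 - 2 * θ) * (N : ℝ) = (q.ρ2 - θ) * N - θ * N := by ring
      linarith
    have g1 := L.tp (r' - 2 * (z + η)) ρ' (by linarith) hwin
    have g2 := L2.tp (r2' - 2 * (z + η)) ρ2' (by linarith) hwin2
    have h6 := gb2_pie' hP' A'.px2 hR hR2 hN0 (z := z + η) (fun k hk => by rw [pos_get]; exact A'.ball k hk) (by rw [pos_get]; exact ha1)
      h2 h3 h6 h7 hm1 ⟨g1, g2⟩
    have e3 : r' - 2 * (z + η) + 2 * (z + η) = r' := by ring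
    have e4 : r2' - 2 * (z + η) + 2 * (z + η) = r2' := by ring
    rwa [e3, e4] at h6

end

end Pool.Agent.ROT.F3.K7
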