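import Pool.Agent.ROT.F3K7Lc

/-!
# ROT, block F3, row K7 (LOC): comparison of the gates of two words in both directions, without loss of window (helper66)

* `low_mate` : the gate found in `s'` (`Low`) has a mate in `s`; `first_le` : a start cut of size `a` is not before the gate of size `a`;
* **`gb2_both`** : the double gate of `s'` at a size between two double gates of `s`: mates of its gates in `s` between them;
* **`gb_both`** : the same for words near strands with a common piece, in absolute times.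
-/

set_option autoImplicit false

open Set Filter Topology MeasureTheory

namespace Pool.Agent.ROT.F3.K7

open Pool.Agent.NTS.Res (step pos saw fug size curve)
open Pool.Agent.CRT (CI)
open Pool.Agent.SCF.Z Pool.Agent.SCF.M
open Pool.Agent.ROT.F3.LR (Qg)

section

variable {n n' : ℕ} {s : Fin n → Fin 3} {s' : Fin n' → Fin 3} {D D' D0 : ℝ → ℕ → Prop} {R θ ν S a r ρ a' : ℝ} {k c k' j : ℕ}

/-- a start cut of size `a` is not before the gate of size `a` -/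
lemma first_le {a0 r0 ρ0 ρ : ℝ} {k0 : ℕ} (h0 : TP D0 a0 r0 ρ0 s k0) (hj : SC ρ s j) (hd : D0 a0 j) (hρ : 2 * r0 ≤ ρ) : k0 ≤ j := by
  by_contra hcon
  push Not at hcon
  refine h0.1.2.2.2.2 j (hj.scut hcon h0.2.1.le (D := r0) (fun i hi => ?_) hρ) hd
  have h4 := h0.1.2.2.1 i 0 hi (Nat.zero_le _)
  rwa [NTSF.pos_zero, sub_zero] at h4

/-- the gate found in `s'`, with its largest window -/
lemma Low.tpx (L : Low D' θ ν S a' r ρ s s' k c k') (hS : 0 < S) :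
    TP D' (a' * S) ((r + 2 * ν) * S) ((ρ - θ) * S - ‖pos s' k' - pos s' c‖) s' k' := by
  have h := L.tp (r + 2 * ν) ((ρ - θ) - ‖pos s' k' - pos s' c‖ / S) le_rfl (by
    rw [sub_mul, div_mul_cancel₀ _ hS.ne']
    linarith)
  rwa [sub_mul, div_mul_cancel₀ _ hS.ne'] at h

/-- **the mate in `s`** of the gate found in `s'` -/
theorem low_mate (L : Low D' θ ν S a' r ρ s s' k c k') (hD' : Sz1 s' D') (hS : 0 < S) (hR : 0 < R) (hS' : StbD D' R θ S s' s)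
    (hθ : 0 ≤ θ) (hsm : 2 * θ + 2 * ν ≤ R) (hρ : 45 * R ≤ ρ) (hr : r ≤ 3 * R) (hν : 0 ≤ ν) (ha : R / 8 ≤ a') :
    ∃ j : ℕ, SC (40 * R * S) s j ∧ |(k' : ℝ) / n' - (j : ℝ) / n| ≤ θ ∧ ‖pos s' k' - pos s j‖ ≤ θ * S := by
  have h := L.tpx hS
  have h1 := L.dm k' c L.le le_rfl
  have h2 : SC (41 * R * S) s' k' := (tp_sc h).mono (by
    have h3 : (41 * R) * S ≤ (ρ - θ - (r + 2 * ν)) * S := mul_le_mul_of_nonneg_right (by linarith) hS.le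
    have e : (ρ - θ - (r + 2 * ν)) * S = (ρ - θ) * S - (r + 2 * ν) * S := by ring
    linarith)
  obtain ⟨j, g1, g2, g3⟩ := hS' (41 * R) k' (by linarith) (by linarith) h2 (fun i hi => by
    have h4 := L.dm i 0 (hi.trans L.le) (Nat.zero_le _)
    rw [NTSF.pos_zero, sub_zero] at h4
    exact h4.trans (mul_le_mul_of_nonneg_right (by linarith) hS.le))
    (hD'.anti h.1.2.2.2.1 (mul_le_mul_of_nonneg_right ha hS.le))
  exact ⟨j, g1.mono (mul_le_mul_of_nonneg_right (by linarith) hS.le), g2, g3⟩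

/-- the vertices of `s'` up to the mate are near vertices of `s` up to the gate -/
lemma low_pre {β : ℝ} (L : Low D' θ ν S a' r ρ s s' k c k') (hn : 1 ≤ n) (hn' : 1 ≤ n') (hC : ClS S 2 β ν s s') (hθ : 0 ≤ θ)
    (hb : θ + 1 / n ≤ β) (hk : k ≤ n) : ∀ u : ℕ, u ≤ c → ∃ v : ℕ, v ≤ k ∧ ‖pos s' u - pos s v‖ ≤ ν * S := by
  have hn0 : (0 : ℝ) < n := by exact_mod_cast hn
  have hn0' : (0 : ℝ) < n' := by exact_mod_cast hn'
  have h1 : (k : ℝ) / n ≤ 1 := by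
    rw [div_le_one hn0]
    exact_mod_cast hk
  have h2 : (c : ℝ) / n' ≤ 1 := by
    rw [div_le_one hn0']
    exact_mod_cast L.sc.lt.le
  exact pre_trS hn' hn hC.symm hθ hb L.sc.lt.le hk (by linarith) (by linarith) (by rw [abs_sub_comm]; exact L.tm)

/-- another bound of the diameter -/
lemma tp_diam {a r' : ℝ} (h : TP D a r ρ s k) (hd : ∀ i j : ℕ, i ≤ k → j ≤ k → ‖pos s i - pos s j‖ ≤ r') : TP D a r' ρ s k :=
  ⟨⟨h.1.1, h.1.2.1, hd, h.1.2.2.2⟩, h.2⟩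

lemma re_near {z w : ℂ} {x : ℝ} (h : ‖z - w‖ ≤ x) : w.re ≤ z.re + x ∧ z.re ≤ w.re + x := by
  have h1 := (Complex.abs_re_le_norm (z - w)).trans h
  rw [Complex.sub_re] at h1
  obtain ⟨h2, h3⟩ := abs_le.1 h1
  constructor <;> linarith

/-- **the double gate of `s'` between two double gates of `s`** -/
theorem gb2_both {R2 r2 ρ2 m m' a0 r0 ρ0 m0 r20 ρ20 β : ℝ} {c1 x1 c0 x0 : ℕ} (hS0 : 0 < S) (hn : 1 ≤ n) (hn' : 1 ≤ n')
    (hC : ClS S 2 β ν s s') (hS1 : StbS Pool.Agent.SCF.M.LG R θ S s s') (hS1' : StbS Pool.Agent.SCF.M.LG R θ S s' s)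
    (hS2 : StbS Pool.Agent.SCF.M.LG R2 θ S s s') (hS2' : StbS Pool.Agent.SCF.M.LG R2 θ S s' s) (hR : 0 < R) (hR2 : 0 < R2) (hθ : 0 < θ) (hν : 0 ≤ ν) (hsm : 2 * θ + 2 * ν ≤ R)
    (hsm2 : 2 * θ + 2 * ν ≤ R2) (hb : θ + 1 / n ≤ β) (hθ1 : θ ≤ 1) (hρ1 : 45 * R ≤ ρ) (hρ2 : ρ ≤ 130 * R) (hr : r ≤ 3 * R)
    (ha' : R / 8 ≤ a') (haa : a' + 2 * θ ≤ a) (hρ1' : 45 * R2 ≤ ρ2) (hρ2' : ρ2 ≤ 130 * R2) (hr2 : r2 ≤ 3 * R2) (hm' : R2 / 8 ≤ m')
    (hmm : m' + 2 * θ ≤ m) (hr0 : r0 ≤ 3 * R) (hr20 : r20 ≤ 3 * R2) (haa0 : a0 + 2 * θ ≤ a') (hmm0 : m0 + 2 * θ ≤ m')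
    (h1 : GB2 (Dv s 0) a r ρ m r2 ρ2 S s c1 x1) (h0 : GB2 (Dv s 0) a0 r0 ρ0 m0 r20 ρ20 S s c0 x0) :
    ∃ c2 c' x2 x' jc jx : ℕ, Low (Dv s' 0) θ ν S a' r ρ s s' c1 c2 c' ∧ Low (Dv s' (pos s' c').re) θ ν S m' r2 ρ2 s s' x1 x2 x' ∧
      c0 ≤ jc ∧ x0 ≤ jx ∧ jc < n ∧ jx < n ∧ |(c' : ℝ) / n' - (jc : ℝ) / n| ≤ θ ∧ |(x' : ℝ) / n' - (jx : ℝ) / n| ≤ θ ∧
      ‖pos s' c' - pos s jc‖ ≤ θ * S ∧ ‖pos s' x' - pos s jx‖ ≤ θ * S := by
  have hRS : 0 < R * S := mul_pos hR hS0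
  obtain ⟨c2, c', x2, x', L, L2⟩ := gb2_low (D := Dv s 0) (D' := Dv s' 0) (μ := 2 * θ) (R2 := R2)
    (sz1_Dv le_rfl) (sz1_Dv le_rfl) (trS_Dv (e := θ) (by positivity) (by linarith) hS0.le) hS0 hn hn' hC (StbD.dv le_rfl hS1)
    hS2 hR hR2 hθ hb hθ1 (by linarith) hρ2 (by linarith) (by linarith) haa (by linarith) hρ2' (by linarith) (by linarith) hmm h1
  have hT := L.tpx hS0
  have hc'0 : 0 ≤ (pos s' c').re := by
    have := hT.1.2.1 0 (Nat.zero_le _)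
    rwa [NTSF.pos_zero, Complex.zero_re] at this
  obtain ⟨jc, j1, j2, j3⟩ := low_mate L (sz1_Dv le_rfl) hS0 hR (StbD.dv le_rfl hS1') hθ.le hsm hρ1 hr hν ha'
  obtain ⟨jx, i1, i2, i3⟩ := low_mate L2 (sz1_Dv hc'0) hS0 hR2 (StbD.dv hc'0 hS2') hθ.le hsm2 hρ1' hr2 hν hm'
  have hjc := re_near j3
  have hjx := re_near i3
  have hD1 : a' * S + 0 ≤ (pos s' c').re := hT.1.2.2.2.1
  have hD2 : m' * S + (pos s' c').re ≤ (pos s' x').re := (L2.tpx hS0).1.2.2.2.1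
  have e1 : (a0 + 2 * θ) * S ≤ a' * S := mul_le_mul_of_nonneg_right haa0 hS0.le
  have e2 : (a0 + 2 * θ) * S = a0 * S + 2 * (θ * S) := by ring
  have e3 : (m0 + 2 * θ) * S ≤ m' * S := mul_le_mul_of_nonneg_right hmm0 hS0.le
  have e4 : (m0 + 2 * θ) * S = m0 * S + 2 * (θ * S) := by ring
  have hθS : 0 < θ * S := mul_pos hθ hS0
  have win : ∀ {r R : ℝ}, 0 < R → r ≤ 3 * R → 2 * (r * S) ≤ 40 * R * S := fun {r R} hR hr => by
    have : (2 * r) * S ≤ (40 * R) * S := mul_le_mul_of_nonneg_right (by linarith) hS0.le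
    have e : (2 * r) * S = 2 * (r * S) := by ring
    linarith
  have k1 : c0 ≤ jc := first_le h0.1 j1 (show a0 * S + 0 ≤ (pos s jc).re by linarith) (win hR hr0)
  have hlv : (pos s c0).re ≤ (pos s jc).re := j1.2.1 c0 k1
  have k2 : x0 ≤ jx := first_le h0.2 i1 (show m0 * S + (pos s c0).re ≤ (pos s jx).re by linarith) (win hR2 hr20)
  exact ⟨c2, c', x2, x', jc, jx, L, L2, k1, k2, j1.lt, i1.lt, j2, i2, j3, i3⟩

end

section

variable {R R2 z η β KK β' KK' θ ν t e t' e' B : ℝ} {p p' : ℝ × CI} {N : ℕ} {w w' : W3} {i m i' m' : ℕ}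

/-- times of the pieces, both directions -/
lemma time_both {T a c m m' B : ℝ} (hT : 0 < T) (hm : 0 < m) (hm' : 0 < m') (hθ : 0 ≤ θ) (ha : 0 ≤ a) (ham : a ≤ m') (hc : 0 ≤ c)
    (hcm : c ≤ m) (h : |a / m' - c / m| ≤ θ) (hmm : |m - m'| ≤ θ * m) (hmm' : |m' - m| ≤ θ * m') (hB : m / T ≤ B) (hB' : m' / T ≤ B) :
    |a / T - c / T| ≤ 2 * θ * B := by
  obtain ⟨h1, h2⟩ := abs_le.1 h
  have h3 := time_step (θ := θ) hT hm hm' hθ hc hcm (by linarith) hmm hB hB'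
  have h4 := time_step (θ := θ) hT hm' hm hθ ha ham (by linarith) hmm' hB' hB
  rw [abs_le]
  constructor <;> linarith

/-- the diameter of an initial part and a piece -/
lemma dm_all {w : W3} {i k : ℕ} {zz d K r : ℝ} (hz : ∀ j : ℕ, j ≤ i → ‖ps w j‖ ≤ zz)
    (hd : ∀ u v : ℕ, u ≤ k → v ≤ k → ‖ps w (i + u) - ps w (i + v)‖ ≤ d) (hr : ∀ u : ℕ, u ≤ k → ‖ps w (i + u) - ps w i‖ ≤ K)
    (h1 : d ≤ r) (h2 : K + 2 * zz ≤ r) : ∀ a b : ℕ, a ≤ i + k → b ≤ i + k → ‖ps w a - ps w b‖ ≤ r := by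
  have hK : 0 ≤ K := (norm_nonneg _).trans (hr 0 (Nat.zero_le _))
  have cross : ∀ a b : ℕ, a ≤ i → i < b → b ≤ i + k → ‖ps w a - ps w b‖ ≤ r := by
    intro a b h3 h4 h5
    obtain ⟨u, rfl⟩ := Nat.exists_eq_add_of_le h4.le
    have e : ps w a - ps w (i + u) = (ps w a - ps w i) - (ps w (i + u) - ps w i) := by ring
    rw [e]
    have h6 := norm_sub_le (ps w a - ps w i) (ps w (i + u) - ps w i)
    have h7 := norm_sub_le (ps w a) (ps w i)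
    have h8 := hz a h3
    have h9 := hz i le_rfl
    have h10 := hr u (by omega)
    linarith
  intro a b ha hb
  rcases le_or_gt a i with h3 | h3
  · rcases le_or_gt b i with h4 | h4
    · have h7 := norm_sub_le (ps w a) (ps w b)
      have h8 := hz a h3
      have h9 := hz b h4
      linarith
    · exact cross a b h3 h4 hb
  · rcases le_or_gt b i with h4 | h4
    · rw [norm_sub_rev]
      exact cross b a h4 h3 ha
    · obtain ⟨u, rfl⟩ := Nat.exists_eq_add_of_le h3.le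
      obtain ⟨v, rfl⟩ := Nat.exists_eq_add_of_le h4.le
      exact (hd u v (by omega) (by omega)).trans h1

/-- **the double gate of `w'` between two double gates of `w`** -/
theorem gb_both (A : Apx R R2 z η p t e N w i m) (A' : Apx R R2 z η p' t' e' N w' i' m')
    (F : PcS β ν θ KK R N (md w.get i m) (md w'.get i' m')) (F2 : PcS β' ν θ KK' R2 N (md w.get i m) (md w'.get i' m'))
    (hR : 0 < R) (hR2 : 0 < R2) (hθ : 0 < θ) (hθ1 : θ ≤ 1) (hν : 0 ≤ ν) (hsm : 2 * θ + 2 * ν ≤ R) (hsm2 : 2 * θ + 2 * ν ≤ R2)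
    (hB : (m : ℝ) / (N : ℝ) ^ (4 / 3 : ℝ) ≤ B) (hB' : (m' : ℝ) / (N : ℝ) ^ (4 / 3 : ℝ) ≤ B) {q1 q0 : Qg} {a' mm : ℝ}
    (hq1 : Ran R R2 q1) (hq0 : Ran R R2 q0) (h45 : 45 * R ≤ q1.ρ) (h45' : 45 * R2 ≤ q1.ρ2)
    (ha : (ps w i).re + R / 8 * N ≤ q1.a * N) (ha0 : (ps w i).re + R / 8 * N ≤ q0.a * N)
    (ha1 : (ps w' i').re + R / 8 * N ≤ a' * N)
    (haa : a' * N - (ps w' i').re + 2 * θ * N ≤ q1.a * N - (ps w i).re)
    (haa0 : q0.a * N - (ps w i).re + 2 * θ * N ≤ a' * N - (ps w' i').re)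
    (hm1 : R2 / 8 ≤ mm) (hmm : mm + 2 * θ ≤ q1.m) (hmm0 : q0.m + 2 * θ ≤ mm) {c1 x1 c0 x0 : ℕ}
    (h1 : GB2 (Dv w.get 0) q1.a q1.r q1.ρ q1.m q1.r2 q1.ρ2 N w.get c1 x1)
    (h0 : GB2 (Dv w.get 0) q0.a q0.r q0.ρ q0.m q0.r2 q0.ρ2 N w.get c0 x0) :
    ∃ c' x' jc jx : ℕ, i ≤ c1 ∧ i ≤ x1 ∧ c1 ≤ w.length ∧ x1 ≤ w.length ∧ c0 ≤ w.length ∧ x0 ≤ w.length ∧ jc ≤ w.length ∧
      jx ≤ w.length ∧
      c' ≤ w'.length ∧ x' ≤ w'.length ∧ c0 ≤ jc ∧ x0 ≤ jx ∧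
      |((c' : ℝ) / (N : ℝ) ^ (4 / 3 : ℝ) - (i' : ℝ) / (N : ℝ) ^ (4 / 3 : ℝ)) -
        ((jc : ℝ) / (N : ℝ) ^ (4 / 3 : ℝ) - (i : ℝ) / (N : ℝ) ^ (4 / 3 : ℝ))| ≤ 2 * θ * B ∧
      |((x' : ℝ) / (N : ℝ) ^ (4 / 3 : ℝ) - (i' : ℝ) / (N : ℝ) ^ (4 / 3 : ℝ)) -
        ((jx : ℝ) / (N : ℝ) ^ (4 / 3 : ℝ) - (i : ℝ) / (N : ℝ) ^ (4 / 3 : ℝ))| ≤ 2 * θ * B ∧
      (jc : ℝ) / (N : ℝ) ^ (4 / 3 : ℝ) ≤ (c1 : ℝ) / (N : ℝ) ^ (4 / 3 : ℝ) + 2 * θ * B ∧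
      (jx : ℝ) / (N : ℝ) ^ (4 / 3 : ℝ) ≤ (x1 : ℝ) / (N : ℝ) ^ (4 / 3 : ℝ) + 2 * θ * B ∧
      ∀ r' ρ' r2' ρ2' K K2 : ℝ, (∀ v : ℕ, i ≤ v → v ≤ c1 → ‖ps w v - ps w i‖ ≤ K * N) →
        (∀ v : ℕ, i ≤ v → v ≤ x1 → ‖ps w v - ps w i‖ ≤ K2 * N) → q1.r + 2 * ν ≤ r' → K + ν + 2 * (z + η) ≤ r' → ρ' ≤ 130 * R →
        ρ' * N + ‖ps w jc - ps w c1‖ ≤ (q1.ρ - 3 * θ) * N → q1.r2 + 2 * ν ≤ r2' → K2 + ν + 2 * (z + η) ≤ r2' → ρ2' ≤ 130 * R2 →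
        ρ2' * N + ‖ps w jx - ps w x1‖ ≤ (q1.ρ2 - 3 * θ) * N →
          GB2 (Dv w'.get 0) a' r' ρ' mm r2' ρ2' N w'.get c' x' := by
  have hN0 : (0 : ℝ) < N := by exact_mod_cast A.N1
  have hT : 0 < (N : ℝ) ^ (4 / 3 : ℝ) := by positivity
  have hRN := mul_pos hR hN0
  have e8 : R / 8 * (N : ℝ) = R * N / 8 := by ring
  have e32 : R / 32 * (N : ℝ) = R * N / 32 := by ring
  have hP := A.px
  have hP' := A'.px
  obtain ⟨c3, x3, rfl, rfl, hc3, hx3, hT1⟩ := gb2_pie hP A.px2 hR hR2 hN0 (by rw [pos_get, e32]; rw [e8] at ha; linarith)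
    (by linarith [hq1.r]) hq1.ρ2 (by linarith [hq1.r2]) hq1.ρ22 (by linarith [hq1.m]) h1
  obtain ⟨c4, x4, rfl, rfl, hc4, hx4, hT0⟩ := gb2_pie hP A.px2 hR hR2 hN0 (by rw [pos_get, e32]; rw [e8] at ha0; linarith)
    (by linarith [hq0.r]) hq0.ρ2 (by linarith [hq0.r2]) hq0.ρ22 (by linarith [hq0.m]) h0
  have hPm := hP.hm
  have hPm' := hP'.hm
  have hlevel : ∀ q : ℝ, (q - (pos w.get i).re / N) * N = q * N - (ps w i).re := fun q => by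
    rw [pos_get]
    field_simp
  have hlevel' : (a' - (pos w'.get i').re / N) * N = a' * N - (ps w' i').re := by
    rw [pos_get]
    field_simp
  have hcmp : a' - (pos w'.get i').re / N + 2 * θ ≤ q1.a - (pos w.get i).re / N := by
    refine le_of_mul_le_mul_right ?_ hN0
    rw [add_mul, hlevel, hlevel']
    exact haa
  have hcmp0 : q0.a - (pos w.get i).re / N + 2 * θ ≤ a' - (pos w'.get i').re / N := by
    refine le_of_mul_le_mul_right ?_ hN0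
    rw [add_mul, hlevel, hlevel']
    exact haa0
  have h8 : R / 8 ≤ a' - (pos w'.get i').re / N := by
    refine le_of_mul_le_mul_right ?_ hN0
    rw [hlevel']
    linarith
  obtain ⟨c2, k', x2, y', jc, jx, L, L2, g1, g2, g3, g4, g5, g6, g7, g8⟩ := gb2_both (R2 := R2) hN0 F.o1 F.o1' F.cl F.st F.st' F2.st F2.st'
    hR hR2 hθ hν hsm hsm2 F.b hθ1 h45 hq1.ρ2 hq1.r h8 hcmp h45' hq1.ρ22 hq1.r2 hm1 hmm hq0.r hq0.r2 hcmp0 hmm0 hT1 hT0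
  have hk' : k' < m' := lt_of_le_of_lt L.le L.sc.lt
  have hc2 : c2 < m' := L.sc.lt
  have hy' : y' < m' := lt_of_le_of_lt L2.le L2.sc.lt
  have hx2 : x2 < m' := L2.sc.lt
  have hm0 : (0 : ℝ) < m := by exact_mod_cast F.o1
  have hm0' : (0 : ℝ) < m' := by exact_mod_cast F.o1'
  have hps := L.ps
  have hps2 := L2.ps
  rw [md_ps hP.ev hPm hc3.le, md_ps hP'.ev hPm' hc2.le] at hps
  rw [md_ps hP.ev hPm hx3.le, md_ps hP'.ev hPm' hx2.le] at hps2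
  rw [md_ps hP'.ev hPm' hk'.le, md_ps hP.ev hPm g3.le] at g7
  rw [md_ps hP'.ev hPm' hy'.le, md_ps hP.ev hPm g4.le] at g8
  have tm : ∀ {k j : ℕ}, k < m' → j < m → |(k : ℝ) / m' - (j : ℝ) / m| ≤ θ →
      |(((i' + k : ℕ) : ℝ) / (N : ℝ) ^ (4 / 3 : ℝ) - (i' : ℝ) / (N : ℝ) ^ (4 / 3 : ℝ)) -
        (((i + j : ℕ) : ℝ) / (N : ℝ) ^ (4 / 3 : ℝ) - (i : ℝ) / (N : ℝ) ^ (4 / 3 : ℝ))| ≤ 2 * θ * B := by
    intro k j hk hj h
    have h3 := time_both (B := B) hT hm0 hm0' hθ.le (Nat.cast_nonneg k) (by exact_mod_cast hk.le) (Nat.cast_nonneg j)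
      (by exact_mod_cast hj.le) h F.le F.le' hB hB'
    push_cast
    rw [add_div, add_div, add_sub_cancel_left, add_sub_cancel_left]
    exact h3
  have tu : ∀ {k j c : ℕ}, |(k : ℝ) / m' - (j : ℝ) / m| ≤ θ → (k : ℝ) / m' ≤ (c : ℝ) / m + θ →
      ((i + j : ℕ) : ℝ) / (N : ℝ) ^ (4 / 3 : ℝ) ≤ ((i + c : ℕ) : ℝ) / (N : ℝ) ^ (4 / 3 : ℝ) + 2 * θ * B := by
    intro k j c h h2
    have h3 := (abs_le.1 h).1
    have h4 : (j : ℝ) / m ≤ (c : ℝ) / m + 2 * θ := by linarith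
    have h5 : (j : ℝ) ≤ c + 2 * θ * m := by
      have h6 := mul_le_mul_of_nonneg_right h4 hm0.le
      rw [add_mul, div_mul_cancel₀ _ hm0.ne', div_mul_cancel₀ _ hm0.ne'] at h6
      exact h6
    have h7 : (j : ℝ) / (N : ℝ) ^ (4 / 3 : ℝ) ≤ (c + 2 * θ * m) / (N : ℝ) ^ (4 / 3 : ℝ) := div_le_div_of_nonneg_right h5 hT.le
    have e1 : ((c : ℝ) + 2 * θ * m) / (N : ℝ) ^ (4 / 3 : ℝ) = (c : ℝ) / (N : ℝ) ^ (4 / 3 : ℝ) + 2 * θ * (m / (N : ℝ) ^ (4 / 3 : ℝ)) := by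
      ring
    have h8 : 2 * θ * ((m : ℝ) / (N : ℝ) ^ (4 / 3 : ℝ)) ≤ 2 * θ * B := mul_le_mul_of_nonneg_left hB (by linarith)
    push_cast
    rw [add_div, add_div]
    linarith
  -- windows
  have wn : ∀ {k c j c3 : ℕ} {ρ ρ' : ℝ}, k < m' → c < m' →
      ‖(ps w' (i' + k) - ps w' i') - (ps w (i + j) - ps w i)‖ ≤ θ * N →
      ‖(ps w (i + c3) - ps w i) - (ps w' (i' + c) - ps w' i')‖ ≤ θ * N → ρ' * N + ‖ps w (i + j) - ps w (i + c3)‖ ≤ (ρ - 3 * θ) * N →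
      ρ' * N + ‖pos (md w'.get i' m') k - pos (md w'.get i' m') c‖ ≤ (ρ - θ) * N := by
    intro k c j c3 ρ ρ' hk hc h2 h3 h4
    rw [md_ps hP'.ev hPm' hk.le, md_ps hP'.ev hPm' hc.le]
    have e1 : ps w' (i' + k) - ps w' i' - (ps w' (i' + c) - ps w' i') =
        ((ps w' (i' + k) - ps w' i') - (ps w (i + j) - ps w i)) + (ps w (i + j) - ps w (i + c3)) +
          ((ps w (i + c3) - ps w i) - (ps w' (i' + c) - ps w' i')) := by ring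
    rw [e1]
    have h5 := norm_add_le (((ps w' (i' + k) - ps w' i') - (ps w (i + j) - ps w i)) + (ps w (i + j) - ps w (i + c3)))
      ((ps w (i + c3) - ps w i) - (ps w' (i' + c) - ps w' i'))
    have h6 := norm_add_le ((ps w' (i' + k) - ps w' i') - (ps w (i + j) - ps w i)) (ps w (i + j) - ps w (i + c3))
    have e2 : (ρ - 3 * θ) * (N : ℝ) = (ρ - θ) * N - θ * N - θ * N := by ring
    linarith
  refine ⟨i' + k', i' + y', i + jc, i + jx, by omega, by omega, by omega, by omega, by omega, by omega, by omega, by omega, by omega,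
    by omega, by omega,
    by omega, tm hk' g3 g5, tm hy' g4 g6, tu g5 L.tm', tu g6 L2.tm',
    fun r' ρ' r2' ρ2' K K2 v1 v2 q1' q2' q3' q4' q5' q6' q7' q8' => ?_⟩
  have f1 := L.tp (q1.r + 2 * ν) ρ' le_rfl (wn hk' hc2 g7 hps q4')
  have f2 := L2.tp (q1.r2 + 2 * ν) ρ2' le_rfl (wn hy' hx2 g8 hps2 q8')
  have h6 := gb2_pie' hP' A'.px2 hR hR2 hN0 (z := z + η) (fun k hk => by rw [pos_get]; exact A'.ball k hk)
    (by rw [pos_get, e32]; rw [e8] at ha1; linarith) (by linarith [hq1.r]) q3' (by linarith [hq1.r2]) q7' hm1 ⟨f1, f2⟩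
  -- the diameters
  have dia : ∀ {k c2 c3 : ℕ} {r r' K : ℝ}, k ≤ c2 → c2 < m' → c3 < m →
      (∀ i j : ℕ, i ≤ c2 → j ≤ c2 → ‖pos (md w'.get i' m') i - pos (md w'.get i' m') j‖ ≤ (r + 2 * ν) * N) →
      (∀ u : ℕ, u ≤ c2 → ∃ v : ℕ, v ≤ c3 ∧ ‖pos (md w'.get i' m') u - pos (md w.get i m) v‖ ≤ ν * N) →
      (∀ v : ℕ, i ≤ v → v ≤ i + c3 → ‖ps w v - ps w i‖ ≤ K * N) → r + 2 * ν ≤ r' → K + ν + 2 * (z + η) ≤ r' →
      ∀ a b : ℕ, a ≤ i' + k → b ≤ i' + k → ‖pos w'.get a - pos w'.get b‖ ≤ r' * N := by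
    intro k c2 c3 r r' K h1 h2 h3 h4 h5 h6 h7 h8 a b ha hb
    rw [pos_get, pos_get]
    refine dm_all (zz := (z + η) * N) (d := (r + 2 * ν) * N) (K := (K + ν) * N) A'.ball (fun u v hu hv => ?_) (fun u hu => ?_)
      (mul_le_mul_of_nonneg_right h7 hN0.le) ?_ a b ha hb
    · have h9 := h4 u v (hu.trans h1) (hv.trans h1)
      rw [md_ps hP'.ev hPm' (by omega), md_ps hP'.ev hPm' (by omega), sub_sub_sub_cancel_right] at h9
      exact h9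
    · obtain ⟨v, hv, h9⟩ := h5 u (hu.trans h1)
      rw [md_ps hP'.ev hPm' (by omega), md_ps hP.ev hPm (by omega)] at h9
      have h10 := h6 (i + v) (by omega) (by omega)
      have e5 : ps w' (i' + u) - ps w' i' = ((ps w' (i' + u) - ps w' i') - (ps w (i + v) - ps w i)) + (ps w (i + v) - ps w i) := by ring
      rw [e5]
      have h11 := norm_add_le ((ps w' (i' + u) - ps w' i') - (ps w (i + v) - ps w i)) (ps w (i + v) - ps w i)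
      have e6 : (K + ν) * (N : ℝ) = K * N + ν * N := by ring
      linarith
    · have h9 : (K + ν + 2 * (z + η)) * N ≤ r' * N := mul_le_mul_of_nonneg_right h8 hN0.le
      have e5 : (K + ν + 2 * (z + η)) * (N : ℝ) = (K + ν) * N + 2 * ((z + η) * N) := by ring
      linarith
  exact ⟨tp_diam h6.1 (dia L.le hc2 hc3 L.dm (low_pre L F.o1 F.o1' F.cl hθ.le F.b hc3.le) v1 q1' q2'),
    tp_diam h6.2 (dia L2.le hx2 hx3 L2.dm (low_pre L2 F.o1 F.o1' F.cl hθ.le F.b hx3.le) v2 q5' q6')⟩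

end

end Pool.Agent.ROT.F3.K7
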