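import Pool.Agent.ROT.F3LocB

/-!
# ROT, F3, row K7 / D39 (helper66): gates at functional levels are local, without loss of window (deterministic half)

* `RdP` : the distance from the place at `t` up to a little after `T`, plus `2 z`, is less than `r`;
* `LSa` : comparison of the gates of two strands with a common piece, both directions in one step (form of `loc_same`, F3K7R);
* `Net0` : what is asked of the countable set of parameters: dense only NEAR the parameters `w` of the class;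
* **`fs_loc`** : two strands with a common piece have the same gates at the functional level (conclusion of `fx_loc`).
-/

set_option autoImplicit false

open Set Filter Topology

namespace Pool.Agent.ROT.F3.LR

/-- the distance from the place at the time `t` up to a little after the time `T`, plus `2 z`, is less than `r` -/
def RdP (pl : ℝ → ℂ) (t T z r : ℝ) : Prop := ∃ δ : ℝ, 0 < δ ∧ ∀ u : ℝ, t ≤ u → u ≤ T + δ → ‖pl u - pl t‖ + 2 * z < r

lemma RdP.mono {pl : ℝ → ℂ} {t T z r T' r' : ℝ} (h : RdP pl t T z r) (hT : T' ≤ T) (hr : r ≤ r') : RdP pl t T' z r' := by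
  obtain ⟨δ, hδ, h1⟩ := h
  exact ⟨δ, hδ, fun u h2 h3 => (h1 u h2 (h3.trans (by linarith))).trans_le hr⟩

/-- from a bound up to `T` (52's D60) -/
lemma rdP_of {pl : ℝ → ℂ} {t T z r rr : ℝ} (hc : Continuous pl) (h : ∀ u ∈ Icc t T, ‖pl u - pl t‖ ≤ rr) (hr : rr + 2 * z < r) :
    RdP pl t T z r := by
  rcases le_or_gt t T with htT | htT
  · obtain ⟨ε, hε, h1⟩ := Metric.continuousAt_iff.1 (hc.continuousAt (x := T)) ((r - rr - 2 * z) / 2) (by linarith)
    refine ⟨ε / 2, half_pos hε, fun u h2 h3 => ?_⟩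
    rcases le_or_gt u T with h4 | h4
    · linarith [h u ⟨h2, h4⟩]
    · have h5 := h1 (x := u) (by
        rw [Real.dist_eq, abs_of_pos (by linarith)]
        linarith)
      rw [dist_eq_norm] at h5
      have h6 := h T ⟨htT, le_rfl⟩
      have h7 := norm_sub_le_norm_sub_add_norm_sub (pl u) (pl T) (pl t)
      linarith
  · exact ⟨(t - T) / 2, by linarith, fun u h2 h3 => by linarith⟩

/-- **comparison of the gates** of two strands with a common piece which begins at the times `t`, `t'`; the initial parts are in the ball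
`z`. If the gates of `pl` exist for `q1` (upper) and for `q0` (lower), then the gates of `pl'` exist for `q'` in between and they are in
between; windows: only the oscillation of `pl` between the gates is lost; diameters: nothing is lost, if the distances from the place at
`t` are smaller than the diameters minus `2 z` -/
def LSa (Q : Set Qg) (z t t' : ℝ) (pl pl' : ℝ → ℂ) (tc tx tc' tx' : Qg → ℝ) : Prop :=
  ∀ q1 ∈ Q, ∀ q0 ∈ Q, ∀ q' ∈ Q, 0 ≤ tx q1 → 0 ≤ tx q0 → q0.a - (pl t).re < q'.a - (pl' t').re →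
    q'.a - (pl' t').re < q1.a - (pl t).re → q0.m < q'.m → q'.m < q1.m → q1.r < q'.r → q1.r2 < q'.r2 →
    (∀ s : ℝ, t ≤ s → s ≤ tc q1 → ‖pl s - pl t‖ + 2 * z < q'.r) → (∀ s : ℝ, t ≤ s → s ≤ tx q1 → ‖pl s - pl t‖ + 2 * z < q'.r2) →
    (∀ s : ℝ, tc q0 ≤ s → s ≤ tc q1 → q'.ρ + ‖pl s - pl (tc q1)‖ < q1.ρ) →
    (∀ s : ℝ, tx q0 ≤ s → s ≤ tx q1 → q'.ρ2 + ‖pl s - pl (tx q1)‖ < q1.ρ2) →
    0 ≤ tx' q' ∧ tc q0 - t ≤ tc' q' - t' ∧ tc' q' - t' ≤ tc q1 - t ∧ tx q0 - t ≤ tx' q' - t' ∧ tx' q' - t' ≤ tx q1 - t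

/-- the countable set of parameters is rich near the parameters `w` of the class (`w` itself is not asked to be in it): `rl`, `sl` =
diameters below `w.r` and `w.r2` -/
structure Net0 (Q : Set Qg) (L : Set ℝ) (w : Qg) (lo hi δ rl sl : ℝ) : Prop where
  pδ : 0 < δ
  dL : Dn L lo hi
  prl : rl < w.r
  psl : sl < w.r2
  D : ∃ D1 D2 D3 D4 D5 : Set ℝ, (∀ l ∈ L, ∀ r ∈ D1, ∀ ρ ∈ D2, ∀ m ∈ D3, ∀ r2 ∈ D4, ∀ ρ2 ∈ D5, (⟨l, r, ρ, m, r2, ρ2⟩ : Qg) ∈ Q) ∧
    rl ∈ D1 ∧ sl ∈ D4 ∧ Dn D1 (w.r - δ) (w.r + δ) ∧ Dn D2 (w.ρ - δ) (w.ρ + δ) ∧ Dn D3 (w.m - δ) (w.m + δ) ∧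
    Dn D4 (w.r2 - δ) (w.r2 + δ) ∧ Dn D5 (w.ρ2 - δ) (w.ρ2 + δ)

private lemma dml_mono' {pl : ℝ → ℂ} {T T' r : ℝ} (h : DmL pl T r) (hT : T' ≤ T) : DmL pl T' r :=
  fun x y h1 h2 h3 h4 => h x y h1 (h2.trans hT) h3 (h4.trans hT)

private lemma near_of' {q q' : Qg} {μ : ℝ} (a : |q'.a - q.a| ≤ μ) (r : |q'.r - q.r| ≤ μ) (ρ : |q'.ρ - q.ρ| ≤ μ) (m : |q'.m - q.m| ≤ μ)
    (r2 : |q'.r2 - q.r2| ≤ μ) (ρ2 : |q'.ρ2 - q.ρ2| ≤ μ) : q.Near q' μ := ⟨a, r, ρ, m, r2, ρ2⟩

private lemma sf0' {x μ : ℝ} (hμ : 0 ≤ μ) : |x - x| ≤ μ := by rwa [sub_self, abs_zero]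

section pair

variable {Q : Set Qg} {L : Set ℝ} {w : Qg} {z lo hi δ rl sl f t t' e C X C' X' : ℝ} {pl pl' : ℝ → ℂ}
  {tc tx tc' tx' : Qg → ℝ}

/-- the first gate is before the second one -/
lemma cfm_cx0 (hN : Net0 Q L w lo hi δ rl sl) (hs : Sg Q pl tc tx)
    (hc : Cfm Q tc (w.at ((pl t).re + f)) C) (hx : Cfm Q tx (w.at ((pl t).re + f)) X)
    (hlo : lo < (pl t).re + f) (hhi : (pl t).re + f < hi) (h : 0 ≤ X) : 0 ≤ C ∧ C ≤ X := by
  obtain ⟨D1, D2, D3, D4, D5, hQ, k1l, k4l, d1, d2, d3, d4, d5⟩ := hN.D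
  have hδ := hN.pδ
  have key : ∀ η : ℝ, 0 < η → 0 ≤ C ∧ C ≤ X + 2 * η := by
    intro η hη
    obtain ⟨μ1, hμ1, g1⟩ := hc η hη
    obtain ⟨μ2, hμ2, g2⟩ := hx η hη
    obtain ⟨μ, hμ, v1, v2, v3⟩ : ∃ μ : ℝ, 0 < μ ∧ μ ≤ μ1 ∧ μ ≤ μ2 ∧ μ ≤ δ :=
      ⟨min μ1 (min μ2 δ), lt_min hμ1 (lt_min hμ2 hδ), min_le_left _ _, (min_le_right _ _).trans (min_le_left _ _),
        (min_le_right _ _).trans (min_le_right _ _)⟩
    obtain ⟨a, ha, ha1, ha2⟩ := hN.dL ((pl t).re + f) (min hi ((pl t).re + f + μ)) hlo.le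
      (lt_min hhi (by linarith)) (min_le_left _ _)
    have ha3 := lt_of_lt_of_le ha2 (min_le_right _ _)
    obtain ⟨r, hr, r1, r2⟩ := d1 w.r (w.r + μ) (by linarith) (by linarith) (by linarith)
    obtain ⟨ρ, hρ, ρ1, ρ2⟩ := d2 w.ρ (w.ρ + μ) (by linarith) (by linarith) (by linarith)
    obtain ⟨m, hm, m1, m2⟩ := d3 w.m (w.m + μ) (by linarith) (by linarith) (by linarith)
    obtain ⟨s, hs4, s1, s2⟩ := d4 w.r2 (w.r2 + μ) (by linarith) (by linarith) (by linarith)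
    obtain ⟨σ, hσ, σ1, σ2⟩ := d5 w.ρ2 (w.ρ2 + μ) (by linarith) (by linarith) (by linarith)
    have hn : ∀ μ' : ℝ, μ ≤ μ' → (w.at ((pl t).re + f)).Near ⟨a, r, ρ, m, s, σ⟩ μ' := by
      intro μ' hμ'
      refine near_of' ?_ ?_ ?_ ?_ ?_ ?_
      · show |a - ((pl t).re + f)| ≤ μ'
        rw [abs_le]
        constructor <;> linarith
      · show |r - w.r| ≤ μ'
        rw [abs_le]
        constructor <;> linarith
      · show |ρ - w.ρ| ≤ μ'
        rw [abs_le]
        constructor <;> linarith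
      · show |m - w.m| ≤ μ'
        rw [abs_le]
        constructor <;> linarith
      · show |s - w.r2| ≤ μ'
        rw [abs_le]
        constructor <;> linarith
      · show |σ - w.ρ2| ≤ μ'
        rw [abs_le]
        constructor <;> linarith
    have hm : (⟨a, r, ρ, m, s, σ⟩ : Qg) ∈ Q := hQ a ha _ hr _ hρ _ hm _ hs4 _ hσ
    obtain ⟨e1, e2⟩ := g1 _ hm (hn μ1 v1)
    obtain ⟨e3, e4⟩ := g2 _ hm (hn μ2 v2)
    have e5 := e3.1 h
    have e6 := e1.2 (hs.xc _ hm e5)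
    have e7 := hs.ord _ hm e5
    have e8 := abs_le.1 (e2 e6)
    have e9 := abs_le.1 (e4 h)
    exact ⟨e6, by linarith⟩
  refine ⟨(key 1 one_pos).1, le_of_forall_pos_le_add fun η hη => ?_⟩
  have := (key (η / 2) (half_pos hη)).2
  linarith

/-- **two strands with a common piece have the same gates at the functional level**: no loss of window -/
theorem fs_loc (hN : Net0 Q L w lo hi δ rl sl) (hs : Sg Q pl tc tx) (hs' : Sg Q pl' tc' tx')
    (hc : Cfm Q tc (w.at ((pl t).re + f)) C) (hx : Cfm Q tx (w.at ((pl t).re + f)) X)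
    (hc' : Cfm Q tc' (w.at ((pl' t').re + f)) C') (hx' : Cfm Q tx' (w.at ((pl' t').re + f)) X')
    (h1 : LSa Q z t t' pl pl' tc tx tc' tx') (hpc : Continuous pl)
    (hlo : lo < (pl t).re + f) (hhi : (pl t).re + f < hi) (hlo' : lo < (pl' t').re + f) (hhi' : (pl' t').re + f < hi)
    (hdu : DmP pl C rl) (hdv : DmP pl X sl) (hru : RdP pl t C z rl) (hrv : RdP pl t X z sl) (hX : 0 ≤ X) :
    0 ≤ X' ∧ C' - t' = C - t ∧ X' - t' = X - t := by
  obtain ⟨hC0, hCX⟩ := cfm_cx0 hN hs hc hx hlo hhi hX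
  obtain ⟨b, hb⟩ : ∃ b, b = (pl t).re := ⟨_, rfl⟩
  obtain ⟨b', hb'⟩ : ∃ b', b' = (pl' t').re := ⟨_, rfl⟩
  obtain ⟨D1, D2, D3, D4, D5, hQ, k1l, k4l, d1, d2, d3, d4, d5⟩ := hN.D
  have prl := hN.prl
  have psl := hN.psl
  obtain ⟨δu, hδu, hdu⟩ := hdu
  obtain ⟨δv, hδv, hdv⟩ := hdv
  obtain ⟨δr, hδr, hru⟩ := hru
  obtain ⟨δs, hδs, hrv⟩ := hrv
  have hδ := hN.pδ
  rw [← hb] at hlo hhi hc hx
  rw [← hb'] at hlo' hhi' hc' hx'
  have key : ∀ μ η : ℝ, 0 < μ → 0 < η → ∃ q ∈ Q, (w.at (b' + f)).Near q μ ∧ 0 ≤ tx' q ∧ |tc' q - t' - (C - t)| ≤ η ∧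
      |tx' q - t' - (X - t)| ≤ η := by
    intro μ η hμ hη
    obtain ⟨ν, hν0, hνμ, hνδ⟩ : ∃ ν : ℝ, 0 < ν ∧ ν ≤ μ ∧ ν ≤ δ := ⟨min μ δ, lt_min hμ hδ, min_le_left _ _, min_le_right _ _⟩
    -- continuity of the curve at the gates
    obtain ⟨ε1, hε1, hcont1⟩ := Metric.continuousAt_iff.1 (hpc.continuousAt (x := C)) (ν / 4) (by positivity)
    obtain ⟨ε2, hε2, hcont2⟩ := Metric.continuousAt_iff.1 (hpc.continuousAt (x := X)) (ν / 4) (by positivity)
    obtain ⟨η1, y0, y1, y4, y5, y6, y7, y8, y9⟩ : ∃ η1 : ℝ, 0 < η1 ∧ η1 ≤ η ∧ η1 ≤ δu ∧ η1 ≤ δv ∧ η1 ≤ ε1 / 2 ∧ η1 ≤ ε2 / 2 ∧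
        η1 ≤ δr ∧ η1 ≤ δs := by
      refine ⟨min (min η (min δu δv)) (min (min (ε1 / 2) (ε2 / 2)) (min δr δs)), lt_min (lt_min hη (lt_min hδu hδv))
        (lt_min (lt_min (by positivity) (by positivity)) (lt_min hδr hδs)), (min_le_left _ _).trans (min_le_left _ _),
        (min_le_left _ _).trans ((min_le_right _ _).trans (min_le_left _ _)),
        (min_le_left _ _).trans ((min_le_right _ _).trans (min_le_right _ _)),
        (min_le_right _ _).trans ((min_le_left _ _).trans (min_le_left _ _)),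
        (min_le_right _ _).trans ((min_le_left _ _).trans (min_le_right _ _)),
        (min_le_right _ _).trans ((min_le_right _ _).trans (min_le_left _ _)),
        (min_le_right _ _).trans ((min_le_right _ _).trans (min_le_right _ _))⟩
    obtain ⟨μc, hμc, gc⟩ := hc η1 y0
    obtain ⟨μx, hμx, gx⟩ := hx η1 y0
    obtain ⟨μ1, u0, u1, u2, u3, u4, u5, u6⟩ : ∃ μ1 : ℝ, 0 < μ1 ∧ μ1 ≤ μc ∧ μ1 ≤ μx ∧ μ1 ≤ ν / 4 ∧ μ1 ≤ δ ∧ μ1 ≤ w.r - rl ∧
        μ1 ≤ w.r2 - sl :=
      ⟨min μc (min μx (min (ν / 4) (min δ (min (w.r - rl) (w.r2 - sl))))),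
        lt_min hμc (lt_min hμx (lt_min (by linarith) (lt_min hδ (lt_min (by linarith) (by linarith))))), min_le_left _ _,
        (min_le_right _ _).trans (min_le_left _ _), (min_le_right _ _).trans ((min_le_right _ _).trans (min_le_left _ _)),
        (min_le_right _ _).trans ((min_le_right _ _).trans ((min_le_right _ _).trans (min_le_left _ _))),
        (min_le_right _ _).trans ((min_le_right _ _).trans ((min_le_right _ _).trans ((min_le_right _ _).trans (min_le_left _ _)))),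
        (min_le_right _ _).trans ((min_le_right _ _).trans ((min_le_right _ _).trans ((min_le_right _ _).trans (min_le_right _ _))))⟩
    -- diameters, windows, thresholds
    obtain ⟨r, hr, hr1, hr2⟩ := d1 (w.r - μ1) w.r (by linarith) (by linarith) (by linarith)
    obtain ⟨s, hs4, hs1, hs2⟩ := d4 (w.r2 - μ1) w.r2 (by linarith) (by linarith) (by linarith)
    obtain ⟨ρ, hρ, hρ1, hρ2⟩ := d2 (w.ρ - μ1) w.ρ (by linarith) (by linarith) (by linarith)
    obtain ⟨σ, hσ, hσ1, hσ2⟩ := d5 (w.ρ2 - μ1) w.ρ2 (by linarith) (by linarith) (by linarith)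
    obtain ⟨m1, hm1, hm11, hm12⟩ := d3 (w.m - μ1) w.m (by linarith) (by linarith) (by linarith)
    obtain ⟨m', hm', hm'1, hm'2⟩ := d3 (w.m - μ1) m1 (by linarith) hm11 (by linarith)
    obtain ⟨m3, hm3, hm31, hm32⟩ := d3 (w.m - μ1) m' (by linarith) hm'1 (by linarith)
    -- the marks of the first strand near the functional parameters
    have near1 : ∀ a m : ℝ, |a - (b + f)| ≤ μ1 → |m - w.m| ≤ μ1 → (⟨a, r, ρ, m, s, σ⟩ : Qg) ∈ Q →
        0 ≤ tc ⟨a, r, ρ, m, s, σ⟩ ∧ 0 ≤ tx ⟨a, r, ρ, m, s, σ⟩ ∧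
          |tc ⟨a, r, ρ, m, s, σ⟩ - C| ≤ η1 ∧ |tx ⟨a, r, ρ, m, s, σ⟩ - X| ≤ η1 := by
      intro a m h3 h4 h5
      have n5 : ∀ μ' : ℝ, μ1 ≤ μ' → (w.at (b + f)).Near ⟨a, r, ρ, m, s, σ⟩ μ' := fun μ' h6 => by
        refine near_of' (h3.trans h6) ?_ ?_ (h4.trans h6) ?_ ?_
        · show |r - w.r| ≤ μ'
          rw [abs_le]
          constructor <;> linarith
        · show |ρ - w.ρ| ≤ μ'
          rw [abs_le]
          constructor <;> linarith
        · show |s - w.r2| ≤ μ'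
          rw [abs_le]
          constructor <;> linarith
        · show |σ - w.ρ2| ≤ μ'
          rw [abs_le]
          constructor <;> linarith
      obtain ⟨e1, e2⟩ := gc _ h5 (n5 μc u1)
      obtain ⟨e3, e4⟩ := gx _ h5 (n5 μx u2)
      exact ⟨e1.1 hC0, e3.1 hX, e2 hC0, e4 hX⟩
    -- levels
    obtain ⟨a, ha, ha1, ha2⟩ := hN.dL (b + f) (min hi (b + f + μ1)) hlo.le (lt_min hhi (by linarith)) (min_le_left _ _)
    have ha3 := lt_of_lt_of_le ha2 (min_le_right _ _)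
    obtain ⟨a', ha', ha'1, ha'2⟩ := hN.dL (b' + f) (min hi (min (a - b + b') (b' + f + μ))) hlo'.le
      (lt_min hhi' (lt_min (by linarith) (by linarith))) (min_le_left _ _)
    have ha'3 := lt_of_lt_of_le ha'2 ((min_le_right _ _).trans (min_le_left _ _))
    have ha'4 := lt_of_lt_of_le ha'2 ((min_le_right _ _).trans (min_le_right _ _))
    obtain ⟨a0, ha0, ha01, ha02⟩ := hN.dL (max lo (b + f - μ1)) (b + f) (le_max_left _ _) (max_lt hlo (by linarith)) hhi.le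
    have ha03 := lt_of_le_of_lt (le_max_right _ _) ha01
    have hlev : a' - (pl' t').re < a - (pl t).re := by
      rw [← hb, ← hb']
      linarith
    have hlev2 : a0 - (pl t).re < a' - (pl' t').re := by
      rw [← hb, ← hb']
      linarith
    -- the first strand at the level `a`
    have hqw : (⟨a, r, ρ, m1, s, σ⟩ : Qg) ∈ Q := hQ a ha _ hr _ hρ _ hm1 _ hs4 _ hσ
    obtain ⟨p1, p2, p3, p4⟩ := near1 a m1 (by rw [abs_le]; constructor <;> linarith) (by rw [abs_le]; constructor <;> linarith) hqw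
    have hqa : (⟨a, rl, ρ, m1, sl, σ⟩ : Qg) ∈ Q := hQ a ha _ k1l _ hρ _ hm1 _ k4l _ hσ
    have p3' := abs_le.1 p3
    have p4' := abs_le.1 p4
    have e6 := hs.cd _ hqw _ hqa p1 rfl rfl (dml_mono' hdu (by linarith))
    have e7 := hs.xd _ hqw _ hqa p2 rfl rfl rfl rfl (dml_mono' hdu (by linarith)) (dml_mono' hdv (by linarith))
    -- the first strand at the level `a0`
    have hq4 : (⟨a0, r, ρ, m3, s, σ⟩ : Qg) ∈ Q := hQ a0 ha0 _ hr _ hρ m3 hm3 _ hs4 _ hσ
    obtain ⟨o1, o2, o3, o4⟩ := near1 a0 m3 (by rw [abs_le]; constructor <;> linarith) (by rw [abs_le]; constructor <;> linarith) hq4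
    have o3' := abs_le.1 o3
    have o4' := abs_le.1 o4
    -- the second strand
    obtain ⟨ρ4, hρ4, hρ41, hρ42⟩ := d2 (w.ρ - ν) (w.ρ - 3 * ν / 4) (by linarith) (by linarith) (by linarith)
    obtain ⟨σ4, hσ4, hσ41, hσ42⟩ := d5 (w.ρ2 - ν) (w.ρ2 - 3 * ν / 4) (by linarith) (by linarith) (by linarith)
    have hq5 : (⟨a', r, ρ4, m', s, σ4⟩ : Qg) ∈ Q := hQ a' ha' _ hr ρ4 hρ4 m' hm' _ hs4 σ4 hσ4
    have place : ∀ (ε T s s1 : ℝ), η1 ≤ ε / 2 → 0 < ε → (∀ {x : ℝ}, dist x T < ε → dist (pl x) (pl T) < ν / 4) →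
        |s - T| ≤ η1 → |s1 - T| ≤ η1 → ‖pl s - pl s1‖ < ν / 2 := by
      intro ε T s s1 hε2 hε0 hcont h3 h4
      have i1 := hcont (x := s) (by
        rw [Real.dist_eq]
        linarith)
      have i2 := hcont (x := s1) (by
        rw [Real.dist_eq]
        linarith)
      rw [← dist_eq_norm]
      have i3 := dist_triangle_right (pl s) (pl s1) (pl T)
      linarith
    obtain ⟨f1, f2, f3, f4, f5⟩ := h1 _ hqa _ hq4 _ hq5 (by rw [e7]; exact p2) o2 hlev2 hlev hm32 hm'2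
      (by
        show rl < r
        linarith)
      (by
        show sl < s
        linarith)
      (fun v s1 s2 => by
        rw [e6] at s2
        have := hru v s1 (by linarith)
        show _ < r
        linarith)
      (fun v s1 s2 => by
        rw [e7] at s2
        have := hrv v s1 (by linarith)
        show _ < s
        linarith)
      (fun v s1 s2 => by
        rw [e6] at s2 ⊢
        have i1 := place ε1 C v (tc ⟨a, r, ρ, m1, s, σ⟩) y6 hε1 (fun h => hcont1 h) (by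
          rw [abs_le]
          constructor <;> linarith) p3
        show ρ4 + _ < ρ
        linarith)
      (fun v s1 s2 => by
        rw [e7] at s2 ⊢
        have i1 := place ε2 X v (tx ⟨a, r, ρ, m1, s, σ⟩) y7 hε2 (fun h => hcont2 h) (by
          rw [abs_le]
          constructor <;> linarith) p4
        show σ4 + _ < σ
        linarith)
    rw [e6] at f3
    rw [e7] at f5
    refine ⟨_, hq5, near_of' ?_ ?_ ?_ ?_ ?_ ?_, f1, ?_, ?_⟩
    · show |a' - (b' + f)| ≤ μ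
      rw [abs_le]
      constructor <;> linarith
    · show |r - w.r| ≤ μ
      rw [abs_le]
      constructor <;> linarith
    · show |ρ4 - w.ρ| ≤ μ
      rw [abs_le]
      constructor <;> linarith
    · show |m' - w.m| ≤ μ
      rw [abs_le]
      constructor <;> linarith
    · show |s - w.r2| ≤ μ
      rw [abs_le]
      constructor <;> linarith
    · show |σ4 - w.ρ2| ≤ μ
      rw [abs_le]
      constructor <;> linarith
    · rw [abs_le]
      constructor <;> linarith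
    · rw [abs_le]
      constructor <;> linarith
  -- conclusion
  have fin : ∀ η : ℝ, 0 < η → 0 ≤ X' ∧ |C' - t' - (C - t)| ≤ 2 * η ∧ |X' - t' - (X - t)| ≤ 2 * η := by
    intro η hη
    obtain ⟨μc, hμc, gc⟩ := hc' η hη
    obtain ⟨μx, hμx, gx⟩ := hx' η hη
    obtain ⟨q, hq, hn, g1, g2, g3⟩ := key (min μc μx) η (lt_min hμc hμx) hη
    have hnc : (w.at (b' + f)).Near q μc := near_of' (hn.a.trans (min_le_left _ _)) (hn.r.trans (min_le_left _ _))
      (hn.ρ.trans (min_le_left _ _)) (hn.m.trans (min_le_left _ _)) (hn.r2.trans (min_le_left _ _)) (hn.ρ2.trans (min_le_left _ _))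
    have hnx : (w.at (b' + f)).Near q μx := near_of' (hn.a.trans (min_le_right _ _)) (hn.r.trans (min_le_right _ _))
      (hn.ρ.trans (min_le_right _ _)) (hn.m.trans (min_le_right _ _)) (hn.r2.trans (min_le_right _ _))
      (hn.ρ2.trans (min_le_right _ _))
    obtain ⟨e1, e2⟩ := gc q hq hnc
    obtain ⟨e3, e4⟩ := gx q hq hnx
    have e5 := e3.2 g1
    have e6 := e1.2 (hs'.xc _ hq g1)
    have e7 := abs_le.1 (e2 e6)
    have e8 := abs_le.1 (e4 e5)
    have e9 := abs_le.1 g2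
    have e10 := abs_le.1 g3
    refine ⟨e5, ?_, ?_⟩
    · rw [abs_le]
      constructor <;> linarith
    · rw [abs_le]
      constructor <;> linarith
  have lim0 : ∀ y : ℝ, (∀ η : ℝ, 0 < η → |y| ≤ 2 * η) → y = 0 := fun y h3 => by
    refine abs_nonpos_iff.1 (le_of_forall_pos_le_add fun η hη => ?_)
    have := h3 (η / 2) (half_pos hη)
    linarith
  refine ⟨(fin 1 one_pos).1, sub_eq_zero.1 (lim0 _ fun η hη => (fin η hη).2.1), sub_eq_zero.1 (lim0 _ fun η hη => (fin η hη).2.2)⟩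

end pair

end Pool.Agent.ROT.F3.LR
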