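import Pool.Agent.ROT.F3K7L
import Pool.Agent.ROT.F3K7Ra
import Pool.Agent.ROT.F3LocV

/-!
# ROT, block F3, row K7 (LOC): the gates of the limit curves are local, without loss of window (helper66)

* `Ran' R R2 q` : `Ran` with windows at least `45 R`, `45 R2`;
* **`loc_same`** : `LSa` of F3LocV for two strands of two closed curves in the sets `LocG` (full measure, `locG_ae`) with equal pieces:
  between two (close) gates of the first strand there is the gate of the second strand; with `fs_loc`: the same gates at the functional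
  levels. Hypotheses of `loc_mono`.
-/

set_option autoImplicit false

open Set Filter Topology MeasureTheory

namespace Pool.Agent.ROT.F3.K7

open Pool.Agent.NTS.Res (step pos saw fug size curve)
open Pool.Agent.CRT (CI)
open Pool.Agent.SCF.Z Pool.Agent.SCF.M
open Pool.Agent.ROT.F3.LR (Qg LSa)

/-- **the ranges of the parameters**, windows at least `45 R` -/
structure Ran' (R R2 : ℝ) (q : Qg) : Prop extends Ran R R2 q where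
  ρ3 : 45 * R ≤ q.ρ
  ρ4 : 45 * R2 ≤ q.ρ2

/-- the vertex of a word near the strand, at a close absolute time -/
lemma pos_abs' {R R2 z η t e : ℝ} {p : ℝ × CI} {N : ℕ} {w : W3} {i m c : ℕ} (A : Apx R R2 z η p t e N w i m) (hc : c ≤ w.length)
    {δ ηp u : ℝ} (hmod : ∀ q : ℝ × CI, dist q p ≤ δ → ∀ u u' : ℝ, |u - u'| ≤ δ → ‖pa q u' - pa p u‖ ≤ ηp) (hη : η ≤ δ)
    (h : |u - (c : ℝ) / (N : ℝ) ^ (4 / 3 : ℝ)| ≤ δ) : ‖ps w c / (N : ℂ) - pa p u‖ ≤ ηp :=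
  pos_abs A hc hmod hη (by rwa [abs_sub_comm])

/-- a continuous function on a compact interval, strict bound -/
lemma margin {f : ℝ → ℝ} (hf : Continuous f) {a b K : ℝ} (h : ∀ s : ℝ, a ≤ s → s ≤ b → f s < K) :
    ∃ δ : ℝ, 0 < δ ∧ ∀ s : ℝ, a ≤ s → s ≤ b → f s + δ ≤ K := by
  rcases le_or_gt a b with hab | hab
  · obtain ⟨x, hx, hmax⟩ := isCompact_Icc.exists_isMaxOn (nonempty_Icc.2 hab) hf.continuousOn
    refine ⟨K - f x, by linarith [h x hx.1 hx.2], fun s h1 h2 => ?_⟩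
    have : f s ≤ f x := hmax ⟨h1, h2⟩
    linarith
  · exact ⟨1, one_pos, fun s h1 h2 => by linarith⟩

/-- a point of `[a, b]` near a number almost in `[a, b]` -/
lemma near_icc {a b x δ : ℝ} (hab : a ≤ b) (h1 : a - δ ≤ x) (h2 : x ≤ b + δ) (hδ : 0 ≤ δ) : ∃ s : ℝ, a ≤ s ∧ s ≤ b ∧ |s - x| ≤ δ := by
  refine ⟨max a (min b x), le_max_left _ _, max_le hab (min_le_left _ _), ?_⟩
  rw [abs_le]
  rcases le_total b x with h3 | h3
  · rw [min_eq_left h3, max_eq_right hab]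
    constructor <;> linarith
  · rw [min_eq_right h3]
    rcases le_total a x with h4 | h4
    · rw [max_eq_right h4]
      constructor <;> linarith
    · rw [max_eq_left h4]
      constructor <;> linarith

/-- **the gates of the limit curves are local**: comparison in both directions -/
theorem loc_same {b R R2 z : ℝ} {Gj : ℕ → ℕ → W3 × ℕ → Prop} (hG : GdSeq b R R2 Gj) {U : Ultrafilter ℕ}
    (hU : (U : Filter ℕ) ≤ atTop) (hR : 0 < R) (hR2 : 0 < R2) {T T' : LSym} {k k' : Arm} {zf zf' : ℕ → W3 × ℕ → ℝ}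
    {Z Z' : ℝ × ℝ × CI → ℝ} {Φc Φx Φc' Φx' : Qg → ℝ × ℝ × CI → ℝ} (hzf : ∀ N x, zf N x = 0 ∨ zf N x = 1)
    (hzf' : ∀ N x, zf' N x = 0 ∨ zf' N x = 1) {Q : Set Qg} (hQ : ∀ q ∈ Q, Ran' R R2 q) {g g' : ℝ × ℝ × CI}
    (hg : ∀ q ∈ Q, ∀ q2 ∈ Q, g ∈ LocG U Gj T k zf Z Φc Φx q q2) (hg' : ∀ q ∈ Q, ∀ q2 ∈ Q, g' ∈ LocG U Gj T' k' zf' Z' Φc' Φx' q q2)
    (hZ : 0 < Z g) (hZ' : 0 < Z' g') (h0 : 0 < g.1) (h0' : 0 < g'.1) {t e t' e' : ℝ}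
    (hP : PcL R (lsd T k g) t e) (hP2 : PcL R2 (lsd T k g) t e) (hP' : PcL R (lsd T' k' g') t' e')
    (hP2' : PcL R2 (lsd T' k' g') t' e') (hz : ∀ u ∈ Icc 0 t, ‖pa (lsd T k g) u‖ ≤ z)
    (hz' : ∀ u ∈ Icc 0 t', ‖pa (lsd T' k' g') u‖ ≤ z) (heq : ctp (lsd T k g) t e = ctp (lsd T' k' g') t' e')
    (hlev : ∀ q ∈ Q, (pa (lsd T k g) t).re + R / 8 < q.a) (hlev' : ∀ q ∈ Q, (pa (lsd T' k' g') t').re + R / 8 < q.a) :
    LSa Q z t t' (pa (lsd T k g)) (pa (lsd T' k' g')) (fun q => tcL (lsd T k g) (Φc q g)) (fun q => tcL (lsd T k g) (Φx q g))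
      (fun q => tcL (lsd T' k' g') (Φc' q g')) (fun q => tcL (lsd T' k' g') (Φx' q g')) := by
  obtain ⟨p, hp⟩ : ∃ p, p = lsd T k g := ⟨_, rfl⟩
  obtain ⟨p', hp'⟩ : ∃ p', p' = lsd T' k' g' := ⟨_, rfl⟩
  have hp0 : 0 < p.1 := by rw [hp]; linarith [hP.t0, hP.te, hP.e1]
  have hp0' : 0 < p'.1 := by rw [hp']; linarith [hP'.t0, hP'.te, hP'.e1]
  have hz0 : 0 ≤ z := (norm_nonneg _).trans (hz 0 ⟨le_rfl, hP.t0⟩)
  obtain ⟨B, hB⟩ : ∃ B, B = p.1 + p'.1 + 1 := ⟨_, rfl⟩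
  have hB0 : 0 < B := by rw [hB]; linarith
  have he : e ≤ p.1 := by rw [hp]; exact hP.e1
  have he' : e' ≤ p'.1 := by rw [hp']; exact hP'.e1
  intro q1 hq1 q0 hq0 q' hq' X1 X0 lv0 lv1 m0 m1 rr1 rr2 V1 V2 W1 W2
  have Rq1 := hQ q1 hq1
  have Rq0 := hQ q0 hq0
  have Rq' := hQ q' hq'
  have b1 := hlev q1 hq1
  have b2 := hlev q0 hq0
  have b3 := hlev' q' hq'
  simp only [] at X1 X0 V1 V2 W1 W2 ⊢
  rw [← hp] at lv0 lv1 b1 b2 X1 X0 V1 V2 W1 W2 ⊢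
  rw [← hp'] at lv0 lv1 b3 ⊢
  have hφ1 := tcL_nn X1
  have hφ0 := tcL_nn X0
  -- the words
  have core : ∀ ηp : ℝ, 0 < ηp → ∃ η0 δm : ℝ, 0 < η0 ∧ 0 < δm ∧ η0 ≤ 1 / 2 ∧ ∀ η : ℝ, 0 < η → η ≤ η0 →
      ∃ (N : ℕ) (w w' : W3) (i m i' m' c1 x1 c0 x0 c' x' jc jx : ℕ) (θ ν : ℝ), 1 ≤ N ∧ Apx R R2 z η p t e N w i m ∧
        Apx R R2 z η p' t' e' N w' i' m' ∧ 0 < θ ∧ θ ≤ η ∧ 0 < ν ∧ ν ≤ η ∧
        |(c1 : ℝ) / w.length - Φc q1 g| ≤ η ∧ |(x1 : ℝ) / w.length - Φx q1 g| ≤ η ∧ |(c0 : ℝ) / w.length - Φc q0 g| ≤ η ∧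
        |(x0 : ℝ) / w.length - Φx q0 g| ≤ η ∧ |wc q' N w' - Φc' q' g'| ≤ η ∧ |wx q' N w' - Φx' q' g'| ≤ η ∧
        i ≤ c1 ∧ i ≤ x1 ∧ c1 ≤ w.length ∧ x1 ≤ w.length ∧ c0 ≤ w.length ∧ x0 ≤ w.length ∧ jc ≤ w.length ∧ jx ≤ w.length ∧
        c' ≤ w'.length ∧ x' ≤ w'.length ∧ c0 ≤ jc ∧ x0 ≤ jx ∧
        |((c' : ℝ) / (N : ℝ) ^ (4 / 3 : ℝ) - (i' : ℝ) / (N : ℝ) ^ (4 / 3 : ℝ)) -
          ((jc : ℝ) / (N : ℝ) ^ (4 / 3 : ℝ) - (i : ℝ) / (N : ℝ) ^ (4 / 3 : ℝ))| ≤ 2 * θ * B ∧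
        |((x' : ℝ) / (N : ℝ) ^ (4 / 3 : ℝ) - (i' : ℝ) / (N : ℝ) ^ (4 / 3 : ℝ)) -
          ((jx : ℝ) / (N : ℝ) ^ (4 / 3 : ℝ) - (i : ℝ) / (N : ℝ) ^ (4 / 3 : ℝ))| ≤ 2 * θ * B ∧
        (jc : ℝ) / (N : ℝ) ^ (4 / 3 : ℝ) ≤ (c1 : ℝ) / (N : ℝ) ^ (4 / 3 : ℝ) + 2 * θ * B ∧
        (jx : ℝ) / (N : ℝ) ^ (4 / 3 : ℝ) ≤ (x1 : ℝ) / (N : ℝ) ^ (4 / 3 : ℝ) + 2 * θ * B ∧
        (∀ (c : ℕ) (u : ℝ), c ≤ w.length → |u - (c : ℝ) / (N : ℝ) ^ (4 / 3 : ℝ)| ≤ δm → ‖ps w c / (N : ℂ) - pa p u‖ ≤ ηp) ∧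
        (∀ ρ' ρ2' K K2 : ℝ, (∀ v : ℕ, i ≤ v → v ≤ c1 → ‖ps w v - ps w i‖ ≤ K * N) →
          (∀ v : ℕ, i ≤ v → v ≤ x1 → ‖ps w v - ps w i‖ ≤ K2 * N) → K + ν + 2 * (z + η) ≤ q'.r → K2 + ν + 2 * (z + η) ≤ q'.r2 →
          ρ' ≤ 130 * R → ρ' * N + ‖ps w jc - ps w c1‖ ≤ (q1.ρ - 3 * θ) * N → ρ2' ≤ 130 * R2 →
          ρ2' * N + ‖ps w jx - ps w x1‖ ≤ (q1.ρ2 - 3 * θ) * N →
            GB2 (Dv w'.get 0) q'.a q'.r ρ' q'.m q'.r2 ρ2' N w'.get c' x') := by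
    intro ηp hηp
    obtain ⟨g1, g2⟩ : 0 < (q1.a - (pa p t).re - (q'.a - (pa p' t').re)) / 4 ∧ 0 < (q'.a - (pa p' t').re - (q0.a - (pa p t).re)) / 4 := by
      constructor <;> linarith
    obtain ⟨ηr, hηr, v1, v2, v3, v4, v5, v6⟩ : ∃ ηr : ℝ, 0 < ηr ∧ ηr ≤ ηp ∧ ηr ≤ q1.a - (pa p t).re - R / 8 ∧
        ηr ≤ q0.a - (pa p t).re - R / 8 ∧ ηr ≤ q'.a - (pa p' t').re - R / 8 ∧
        ηr ≤ (q1.a - (pa p t).re - (q'.a - (pa p' t').re)) / 4 ∧ ηr ≤ (q'.a - (pa p' t').re - (q0.a - (pa p t).re)) / 4 := by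
      obtain ⟨θ1, hθ10, ht⟩ := min_list [ηp, q1.a - (pa p t).re - R / 8, q0.a - (pa p t).re - R / 8, q'.a - (pa p' t').re - R / 8,
        (q1.a - (pa p t).re - (q'.a - (pa p' t').re)) / 4, (q'.a - (pa p' t').re - (q0.a - (pa p t).re)) / 4]
        (by
          intro x hx
          simp only [List.mem_cons, List.not_mem_nil, or_false] at hx
          rcases hx with rfl | rfl | rfl | rfl | rfl | rfl <;> linarith)
      simp only [List.mem_cons, List.not_mem_nil, or_false, forall_eq_or_imp, forall_eq] at ht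
      exact ⟨θ1, hθ10, ht⟩
    obtain ⟨δ1, hδ1, n1⟩ := pa_near hp0 hηr
    obtain ⟨δ2, hδ2, n2⟩ := pa_near hp0' hηr
    obtain ⟨η0, hη0, u1, u2, u3, u4, u5, u6, u7, u8, u9, u10, u11, u12⟩ : ∃ η0 : ℝ, 0 < η0 ∧ η0 ≤ 1 / 2 ∧ η0 ≤ δ1 ∧ η0 ≤ δ2 ∧
        η0 ≤ (q1.a - (pa p t).re - (q'.a - (pa p' t').re)) / 4 ∧ η0 ≤ (q'.a - (pa p' t').re - (q0.a - (pa p t).re)) / 4 ∧
        η0 ≤ (q'.r - q1.r) / 4 ∧ η0 ≤ (q'.r2 - q1.r2) / 4 ∧ η0 ≤ (q1.m - q'.m) / 2 ∧ η0 ≤ (q'.m - q0.m) / 2 ∧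
        η0 ≤ R / 4 ∧ η0 ≤ R2 / 4 ∧ η0 ≤ 1 / 2 := by
      obtain ⟨θ1, hθ10, ht⟩ := min_list [1 / 2, δ1, δ2, (q1.a - (pa p t).re - (q'.a - (pa p' t').re)) / 4,
        (q'.a - (pa p' t').re - (q0.a - (pa p t).re)) / 4, (q'.r - q1.r) / 4, (q'.r2 - q1.r2) / 4,
        (q1.m - q'.m) / 2, (q'.m - q0.m) / 2, R / 4, R2 / 4, 1 / 2]
        (by
          intro x hx
          simp only [List.mem_cons, List.not_mem_nil, or_false] at hx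
          rcases hx with rfl | rfl | rfl | rfl | rfl | rfl | rfl | rfl | rfl | rfl | rfl | rfl <;> linarith)
      simp only [List.mem_cons, List.not_mem_nil, or_false, forall_eq_or_imp, forall_eq] at ht
      exact ⟨θ1, hθ10, ht⟩
    refine ⟨η0, δ1, hη0, hδ1, u1, fun η hη hηle => ?_⟩
    obtain ⟨N, w, w', i, m, i', m', β, KK, β', KK', θ, ν, A, A', hθ, hθη, hν, hνη, F, F2, k1, k2, k3, k4, k5, k6, -, -⟩ :=
      approx hG hU hR hR2 hzf hzf' (hg q1 hq1 q0 hq0) (hg' q' hq' q' hq') hZ hZ' h0 h0' hP hP2 hP' hP2' hz hz' heq hη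
    rw [← hp] at A
    rw [← hp'] at A'
    have hN0 : (0 : ℝ) < N := by exact_mod_cast A.N1
    have w1' : η ≤ δ1 := hηle.trans u2
    have w2' : η ≤ δ2 := hηle.trans u3
    have hi : ‖ps w i / (N : ℂ) - pa p t‖ ≤ ηr := pos_abs A (by have := A.px.hm; omega) n1 w1' (A.ti.trans w1')
    have hi' : ‖ps w' i' / (N : ℂ) - pa p' t'‖ ≤ ηr := pos_abs A' (by have := A'.px.hm; omega) n2 w2' (A'.ti.trans w2')
    have re_of : ∀ {z : ℂ} {c : ℂ}, ‖z / (N : ℂ) - c‖ ≤ ηr → (c.re - ηr) * N ≤ z.re ∧ z.re ≤ (c.re + ηr) * N := by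
      intro z c hzc
      have h1 := (Complex.abs_re_le_norm _).trans hzc
      have h2 : (z / (N : ℂ)).re = z.re / N := by
        rw [show ((N : ℕ) : ℂ) = ((N : ℝ) : ℂ) by push_cast; rfl, Complex.div_ofReal_re]
      rw [Complex.sub_re, h2] at h1
      obtain ⟨h3, h4⟩ := abs_le.1 h1
      constructor
      · have h5 : c.re - ηr ≤ z.re / N := by linarith
        rwa [le_div_iff₀ hN0] at h5
      · have h5 : z.re / N ≤ c.re + ηr := by linarith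
        rwa [div_le_iff₀ hN0] at h5
    obtain ⟨x1', x2'⟩ := re_of hi
    obtain ⟨y1, y2⟩ := re_of hi'
    have lev : ∀ {a x c : ℝ}, x ≤ (c + ηr) * N → ηr ≤ a - c - R / 8 → x + R / 8 * N ≤ a * N := fun {a x c} h1 h2 => by
      have h3 : (c + ηr + R / 8) * N ≤ a * N := mul_le_mul_of_nonneg_right (by linarith) hN0.le
      have e1 : (c + ηr + R / 8) * (N : ℝ) = (c + ηr) * N + R / 8 * N := by ring
      linarith
    have l1 := lev x2' v2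
    have l2 := lev x2' v3
    have l3 := lev y2 v4
    have l4 : q'.a * N - (ps w' i').re + 2 * θ * N ≤ q1.a * N - (ps w i).re := by
      have h1 : (q'.a - (pa p' t').re + ηr + 2 * θ) * N ≤ (q1.a - (pa p t).re - ηr) * N :=
        mul_le_mul_of_nonneg_right (by linarith) hN0.le
      have e1 : (q'.a - (pa p' t').re + ηr + 2 * θ) * (N : ℝ) = q'.a * N - ((pa p' t').re - ηr) * N + 2 * θ * N := by ring
      have e2 : (q1.a - (pa p t).re - ηr) * (N : ℝ) = q1.a * N - ((pa p t).re + ηr) * N := by ring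
      linarith
    have l5 : q0.a * N - (ps w i).re + 2 * θ * N ≤ q'.a * N - (ps w' i').re := by
      have h1 : (q0.a - (pa p t).re + ηr + 2 * θ) * N ≤ (q'.a - (pa p' t').re - ηr) * N :=
        mul_le_mul_of_nonneg_right (by linarith) hN0.le
      have e1 : (q0.a - (pa p t).re + ηr + 2 * θ) * (N : ℝ) = q0.a * N - ((pa p t).re - ηr) * N + 2 * θ * N := by ring
      have e2 : (q'.a - (pa p' t').re - ηr) * (N : ℝ) = q'.a * N - ((pa p' t').re + ηr) * N := by ring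
      linarith
    obtain ⟨c1, x1, hcx1, hcm1, hxm1⟩ := gates_of_mark k2 hφ1 (by linarith) (Rq1.rρ hR) (Rq1.rρ2 hR2)
    obtain ⟨c0, x0, hcx0, hcm0, hxm0⟩ := gates_of_mark k4 hφ0 (by linarith) (Rq0.rρ hR) (Rq0.rρ2 hR2)
    have hη1' : η ≤ 1 := by linarith
    obtain ⟨c', x', jc, jx, e1, e2, a1, a2, a3, a4, a5, a6, a7, a8, a9, a10, a11, a12, a13, a14, a15⟩ := gb_both (B := B) (a' := q'.a)
      (mm := q'.m) A A' F F2 hR hR2 hθ (by linarith) hν.le (by linarith) (by linarith) ((dur_abs A hη1' he).trans (by rw [hB]; linarith))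
      ((dur_abs A' hη1' he').trans (by rw [hB]; linarith)) Rq1.toRan Rq0.toRan Rq1.ρ3 Rq1.ρ4 l1 l2 l3 l4 l5 Rq'.m (by linarith)
      (by linarith) hcx1 hcx0
    rw [hcm1] at k1
    rw [hxm1] at k2
    rw [hcm0] at k3
    rw [hxm0] at k4
    refine ⟨N, w, w', i, m, i', m', c1, x1, c0, x0, c', x', jc, jx, θ, ν, A.N1, A, A', hθ, hθη, hν, hνη, k1, k2, k3, k4, k5, k6, e1, e2, a1,
      a2, a3, a4, a5, a6, a7, a8, a9, a10, a11, a12, a13, a14, fun c u hc hu => (pos_abs' A hc n1 w1' hu).trans v1,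
      fun ρ' ρ2' K K2 g1 g2 g3 g4 h1 h2 h3 h4 => a15 q'.r ρ' q'.r2 ρ2' K K2 g1 g2 (by linarith) g3 h1 h2 (by linarith) g4 h3 h4⟩
  have hp1 := hp0.le
  have hp1' := hp0'.le
  obtain ⟨C1, hC1⟩ : ∃ C1, C1 = Φc q1 g * p.1 := ⟨_, rfl⟩
  obtain ⟨C0, hC0⟩ : ∃ C0, C0 = Φc q0 g * p.1 := ⟨_, rfl⟩
  obtain ⟨Y1, hY1⟩ : ∃ Y1, Y1 = Φx q1 g * p.1 := ⟨_, rfl⟩
  obtain ⟨Y0, hY0⟩ : ∃ Y0, Y0 = Φx q0 g * p.1 := ⟨_, rfl⟩
  have hbd : ∀ {η : ℝ}, 0 < η → (1 + p.1) * η ≤ B * η := fun {η} h => mul_le_mul_of_nonneg_right (by rw [hB]; linarith) h.le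
  have hbd' : ∀ {η : ℝ}, 0 < η → (1 + p'.1) * η ≤ B * η := fun {η} h => mul_le_mul_of_nonneg_right (by rw [hB]; linarith) h.le
  have hθB : ∀ {η θ : ℝ}, θ ≤ η → 2 * θ * B ≤ 2 * (B * η) := fun {η θ} h => by nlinarith
  have mark_in : ∀ {w : W3} {c : ℕ} {η φ : ℝ}, |(c : ℝ) / w.length - φ| ≤ η → -η ≤ φ := by
    intro w c η φ h
    have h1 := (abs_le.1 h).2
    have h2 : 0 ≤ (c : ℝ) / w.length := by positivity
    linarith
  -- the order of the gates of the first strand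
  obtain ⟨ηa, δa, hηa, hδa, hηa1, Ha⟩ := core 1 one_pos
  have hcc1 : 0 ≤ Φc q1 g := nn_of hηa fun η a1 a2 => by
    obtain ⟨N, w, w', i, m, i', m', c1, x1, c0, x0, c', x', jc, jx, θ, ν, h1, h2, h3, h4, h5, h6, h7, h8, -⟩ := Ha η a1 a2
    exact mark_in h8
  have hcc0 : 0 ≤ Φc q0 g := nn_of hηa fun η a1 a2 => by
    obtain ⟨N, w, w', i, m, i', m', c1, x1, c0, x0, c', x', jc, jx, θ, ν, h1, h2, h3, h4, h5, h6, h7, -, -, h8, -⟩ := Ha η a1 a2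
    exact mark_in h8
  rw [tcL_of hφ1] at W2 V2
  rw [tcL_of hφ0] at W2
  rw [tcL_of hcc1] at W1 V1
  rw [tcL_of hcc0] at W1
  rw [tcL_of hφ1, tcL_of hφ0, tcL_of hcc1, tcL_of hcc0]
  rw [← hC1, ← hC0] at W1
  rw [← hY1, ← hY0] at W2
  rw [← hC1] at V1
  rw [← hY1] at V2
  rw [← hC1, ← hC0, ← hY1, ← hY0]
  -- the times of the mates
  have tms : ∀ {N : ℕ} {w : W3} {i m c1 c0 j : ℕ} {η θ φ1 φ0 : ℝ}, Apx R R2 z η p t e N w i m → 0 < η → θ ≤ η →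
      |(c1 : ℝ) / w.length - φ1| ≤ η → |(c0 : ℝ) / w.length - φ0| ≤ η → c1 ≤ w.length → c0 ≤ w.length → c0 ≤ j →
      (j : ℝ) / (N : ℝ) ^ (4 / 3 : ℝ) ≤ (c1 : ℝ) / (N : ℝ) ^ (4 / 3 : ℝ) + 2 * θ * B →
      φ0 * p.1 - B * η ≤ (j : ℝ) / (N : ℝ) ^ (4 / 3 : ℝ) ∧ (j : ℝ) / (N : ℝ) ^ (4 / 3 : ℝ) ≤ φ1 * p.1 + 3 * (B * η) := by
    intro N w i m c1 c0 j η θ φ1 φ0 A hη hθ h1 h2 h3 h4 h5 h6
    have hN0 : (0 : ℝ) < N := by exact_mod_cast A.N1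
    have hT : 0 < (N : ℝ) ^ (4 / 3 : ℝ) := by positivity
    have g1 := (abs_le.1 (mark_abs A h3 h1 hp1)).2
    have g2 := (abs_le.1 (mark_abs A h4 h2 hp1)).1
    have g3 : (c0 : ℝ) / (N : ℝ) ^ (4 / 3 : ℝ) ≤ (j : ℝ) / (N : ℝ) ^ (4 / 3 : ℝ) :=
      div_le_div_of_nonneg_right (by exact_mod_cast h5) hT.le
    have g4 := hbd hη
    have g5 := hθB hθ
    constructor <;> linarith
  have hCC : C0 ≤ C1 := by
    refine le_lim (C := 4 * B) hηa fun η a1 a2 => ?_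
    obtain ⟨N, w, w', i, m, i', m', c1, x1, c0, x0, c', x', jc, jx, θ, ν, N1, A, A', hθ, hθη, hν, hνη, k1, k2, k3, k4, k5, k6, -, -, b1, b2,
      b3, b4, b5, b6, b7, b8, b9, b10, b11, b12, b13, b14, -⟩ := Ha η a1 a2
    obtain ⟨g1, g2⟩ := tms A a1 hθη k1 k3 b1 b3 b9 b13
    rw [hC0, hC1]
    linarith
  have hYY : Y0 ≤ Y1 := by
    refine le_lim (C := 4 * B) hηa fun η a1 a2 => ?_
    obtain ⟨N, w, w', i, m, i', m', c1, x1, c0, x0, c', x', jc, jx, θ, ν, N1, A, A', hθ, hθη, hν, hνη, k1, k2, k3, k4, k5, k6, -, -, b1, b2,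
      b3, b4, b5, b6, b7, b8, b9, b10, b11, b12, b13, b14, -⟩ := Ha η a1 a2
    obtain ⟨g1, g2⟩ := tms A a1 hθη k2 k4 b2 b4 b10 b14
    rw [hY0, hY1]
    linarith
  -- the beginning of the piece is before the gates
  have beg : ∀ {N : ℕ} {w : W3} {i m c1 : ℕ} {η φ1 : ℝ}, Apx R R2 z η p t e N w i m → 0 < η → |(c1 : ℝ) / w.length - φ1| ≤ η →
      c1 ≤ w.length → i ≤ c1 → t ≤ φ1 * p.1 + (B + 1) * η := by
    intro N w i m c1 η φ1 A hη h1 h2 h3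
    have hN0 : (0 : ℝ) < N := by exact_mod_cast A.N1
    have hT : 0 < (N : ℝ) ^ (4 / 3 : ℝ) := by positivity
    have g1 := (abs_le.1 (mark_abs A h2 h1 hp1)).2
    have g3 : (i : ℝ) / (N : ℝ) ^ (4 / 3 : ℝ) ≤ (c1 : ℝ) / (N : ℝ) ^ (4 / 3 : ℝ) :=
      div_le_div_of_nonneg_right (by exact_mod_cast h3) hT.le
    have g4 := hbd hη
    have g5 := (abs_le.1 A.ti).1
    linarith
  have htC : t ≤ C1 := by
    refine le_lim (C := B + 1) hηa fun η a1 a2 => ?_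
    obtain ⟨N, w, w', i, m, i', m', c1, x1, c0, x0, c', x', jc, jx, θ, ν, N1, A, A', hθ, hθη, hν, hνη, k1, k2, k3, k4, k5, k6, e1, e2, b1, b2,
      -⟩ := Ha η a1 a2
    rw [hC1]
    exact beg A a1 k1 b1 e1
  have htY : t ≤ Y1 := by
    refine le_lim (C := B + 1) hηa fun η a1 a2 => ?_
    obtain ⟨N, w, w', i, m, i', m', c1, x1, c0, x0, c', x', jc, jx, θ, ν, N1, A, A', hθ, hθη, hν, hνη, k1, k2, k3, k4, k5, k6, e1, e2, b1, b2,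
      -⟩ := Ha η a1 a2
    rw [hY1]
    exact beg A a1 k2 b2 e2
  -- the windows
  have hcont : Continuous (pa p) := by
    rw [Metric.continuous_iff]
    intro u ε hε
    obtain ⟨δ, hδ, hn⟩ := pa_near hp0 (half_pos hε)
    refine ⟨δ, hδ, fun u' hu' => ?_⟩
    have := hn p (by rw [dist_self]; exact hδ.le) u u' (by rw [Real.dist_eq, abs_sub_comm] at hu'; exact hu'.le)
    rw [dist_eq_norm]
    linarith
  obtain ⟨δc, hδc, Wc⟩ := margin (f := fun s => q'.ρ + ‖pa p s - pa p C1‖) (K := q1.ρ)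
    (continuous_const.add (hcont.sub continuous_const).norm) W1
  obtain ⟨δx, hδx, Wx⟩ := margin (f := fun s => q'.ρ2 + ‖pa p s - pa p Y1‖) (K := q1.ρ2)
    (continuous_const.add (hcont.sub continuous_const).norm) W2
  obtain ⟨δr, hδr, Vc⟩ := margin (f := fun s => ‖pa p s - pa p t‖ + 2 * z) (K := q'.r)
    ((hcont.sub continuous_const).norm.add continuous_const) V1
  obtain ⟨δs, hδs, Vx⟩ := margin (f := fun s => ‖pa p s - pa p t‖ + 2 * z) (K := q'.r2)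
    ((hcont.sub continuous_const).norm.add continuous_const) V2
  obtain ⟨ηp, hηp, z1, z2, z3, z4⟩ : ∃ ηp : ℝ, 0 < ηp ∧ ηp ≤ δc / 8 ∧ ηp ≤ δx / 8 ∧ ηp ≤ δr / 8 ∧ ηp ≤ δs / 8 :=
    ⟨min (min (δc / 8) (δx / 8)) (min (δr / 8) (δs / 8)), lt_min (lt_min (by linarith) (by linarith)) (lt_min (by linarith) (by linarith)),
      (min_le_left _ _).trans (min_le_left _ _), (min_le_left _ _).trans (min_le_right _ _),
      (min_le_right _ _).trans (min_le_left _ _), (min_le_right _ _).trans (min_le_right _ _)⟩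
  obtain ⟨η0, δm, hη0, hδm, hη01, H⟩ := core ηp hηp
  obtain ⟨η1, hη1, u1, u2, u3, u4, u5, u6⟩ : ∃ η1 : ℝ, 0 < η1 ∧ η1 ≤ η0 ∧ η1 ≤ δm / (3 * B) ∧ η1 ≤ δc / 8 ∧ η1 ≤ δx / 8 ∧
      η1 ≤ δr / 8 ∧ η1 ≤ δs / 8 := by
    obtain ⟨θ1, hθ10, ht⟩ := min_list [η0, δm / (3 * B), δc / 8, δx / 8, δr / 8, δs / 8]
      (by
        intro x hx
        simp only [List.mem_cons, List.not_mem_nil, or_false] at hx
        rcases hx with rfl | rfl | rfl | rfl | rfl | rfl <;> positivity)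
    simp only [List.mem_cons, List.not_mem_nil, or_false, forall_eq_or_imp, forall_eq] at ht
    exact ⟨θ1, hθ10, ht⟩
  have key : ∀ η : ℝ, 0 < η → η ≤ η1 → -η ≤ Φc' q' g' ∧ -η ≤ Φx' q' g' ∧
      C0 - t ≤ Φc' q' g' * p'.1 - t' + (6 * B + 2) * η ∧ Φc' q' g' * p'.1 - t' ≤ C1 - t + (6 * B + 2) * η ∧
      Y0 - t ≤ Φx' q' g' * p'.1 - t' + (6 * B + 2) * η ∧ Φx' q' g' * p'.1 - t' ≤ Y1 - t + (6 * B + 2) * η := by
    intro η hη hηle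
    obtain ⟨N, w, w', i, m, i', m', c1, x1, c0, x0, c', x', jc, jx, θ, ν, N1, A, A', hθ, hθη, hν, hνη, k1, k2, k3, k4, k5, k6, i1, i2, b1, b2,
      b3, b4, b5, b6, b7, b8, b9, b10, b11, b12, b13, b14, b15, b16⟩ := H η hη (hηle.trans u1)
    have hN0 : (0 : ℝ) < N := by exact_mod_cast N1
    obtain ⟨g1, g2⟩ := tms A hη hθη k1 k3 b1 b3 b9 b13
    obtain ⟨g3, g4⟩ := tms A hη hθη k2 k4 b2 b4 b10 b14
    rw [← hC0] at g1
    rw [← hC1] at g2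
    rw [← hY0] at g3
    rw [← hY1] at g4
    have hBη : 3 * (B * η) ≤ δm := by
      have h1 := mul_le_mul_of_nonneg_left (hηle.trans u2) (show 0 ≤ 3 * B by positivity)
      have e1 : 3 * B * (δm / (3 * B)) = δm := by field_simp
      linarith
    have hBη0 : 0 ≤ B * η := by positivity
    -- the places
    have plc : ∀ {c1 j : ℕ} {φ1 φ0 K δ ρ ρ' : ℝ}, |(c1 : ℝ) / w.length - φ1| ≤ η → c1 ≤ w.length → j ≤ w.length →
        φ0 ≤ φ1 * p.1 → φ0 - B * η ≤ (j : ℝ) / (N : ℝ) ^ (4 / 3 : ℝ) → (j : ℝ) / (N : ℝ) ^ (4 / 3 : ℝ) ≤ φ1 * p.1 + 3 * (B * η) →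
        (∀ s : ℝ, φ0 ≤ s → s ≤ φ1 * p.1 → ρ' + ‖pa p s - pa p (φ1 * p.1)‖ + δ ≤ ρ) → ηp ≤ δ / 8 → η ≤ δ / 8 →
        ρ' * N + ‖ps w j - ps w c1‖ ≤ (ρ - 3 * θ) * N := by
      intro c1 j φ1 φ0 K δ ρ ρ' h1 h2 h3 h4 h5 h6 h7 h8 h9
      obtain ⟨s, s1, s2, s3⟩ := near_icc h4 (show φ0 - δm ≤ (j : ℝ) / (N : ℝ) ^ (4 / 3 : ℝ) by linarith)
        (show (j : ℝ) / (N : ℝ) ^ (4 / 3 : ℝ) ≤ φ1 * p.1 + δm by linarith) hδm.le
      have f1 := b15 j s h3 s3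
      have f2 := b15 c1 (φ1 * p.1) h2 (by
        rw [abs_sub_comm]
        refine (mark_abs A h2 h1 hp1).trans ?_
        have := hbd hη
        linarith)
      have f3 := h7 s s1 s2
      have hNc : (N : ℂ) ≠ 0 := by exact_mod_cast hN0.ne'
      have e1 : ps w j - ps w c1 = ((ps w j / (N : ℂ) - pa p s) + (pa p s - pa p (φ1 * p.1)) -
          (ps w c1 / (N : ℂ) - pa p (φ1 * p.1))) * N := by
        field_simp
        ring
      have f4 : ‖ps w j - ps w c1‖ ≤ (‖pa p s - pa p (φ1 * p.1)‖ + 2 * ηp) * N := by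
        rw [e1, norm_mul, Complex.norm_natCast]
        refine mul_le_mul_of_nonneg_right ?_ hN0.le
        have f5 := norm_sub_le ((ps w j / (N : ℂ) - pa p s) + (pa p s - pa p (φ1 * p.1))) (ps w c1 / (N : ℂ) - pa p (φ1 * p.1))
        have f6 := norm_add_le (ps w j / (N : ℂ) - pa p s) (pa p s - pa p (φ1 * p.1))
        linarith
      have f7 : (ρ' + (‖pa p s - pa p (φ1 * p.1)‖ + 2 * ηp)) * N ≤ (ρ - 3 * θ) * N := mul_le_mul_of_nonneg_right (by linarith) hN0.le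
      have e2 : (ρ' + (‖pa p s - pa p (φ1 * p.1)‖ + 2 * ηp)) * (N : ℝ) = ρ' * N + (‖pa p s - pa p (φ1 * p.1)‖ + 2 * ηp) * N := by ring
      linarith
    -- the distances from the beginning of the piece
    have hT : 0 < (N : ℝ) ^ (4 / 3 : ℝ) := by positivity
    have hB1 : 1 ≤ B := by rw [hB]; linarith
    have hηδ : η ≤ δm := by
      have : η ≤ B * η := by nlinarith
      linarith
    have rad : ∀ {c1 : ℕ} {φ1 δ r : ℝ}, |(c1 : ℝ) / w.length - φ1| ≤ η → c1 ≤ w.length → t ≤ φ1 * p.1 →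
        (∀ s : ℝ, t ≤ s → s ≤ φ1 * p.1 → ‖pa p s - pa p t‖ + 2 * z + δ ≤ r) → ηp ≤ δ / 8 →
        ∀ v : ℕ, i ≤ v → v ≤ c1 → ‖ps w v - ps w i‖ ≤ (r - 2 * z - δ / 2) * N := by
      intro c1 φ1 δ r h1 h2 h3 h4 h5 v h6 h7
      have f0 := (abs_le.1 (mark_abs A h2 h1 hp1)).2
      have f1 : (i : ℝ) / (N : ℝ) ^ (4 / 3 : ℝ) ≤ (v : ℝ) / (N : ℝ) ^ (4 / 3 : ℝ) :=
        div_le_div_of_nonneg_right (by exact_mod_cast h6) hT.le
      have f2 : (v : ℝ) / (N : ℝ) ^ (4 / 3 : ℝ) ≤ (c1 : ℝ) / (N : ℝ) ^ (4 / 3 : ℝ) :=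
        div_le_div_of_nonneg_right (by exact_mod_cast h7) hT.le
      have f3 := (abs_le.1 A.ti).1
      have f4 := hbd hη
      obtain ⟨s, s1, s2, s3⟩ := near_icc h3 (show t - δm ≤ (v : ℝ) / (N : ℝ) ^ (4 / 3 : ℝ) by linarith)
        (show (v : ℝ) / (N : ℝ) ^ (4 / 3 : ℝ) ≤ φ1 * p.1 + δm by linarith) hδm.le
      have g1 := b15 v s (h7.trans h2) s3
      have g2 := b15 i t ((h6.trans h7).trans h2) (by
        rw [abs_sub_comm]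
        exact A.ti.trans hηδ)
      have g3 := h4 s s1 s2
      have hNc : (N : ℂ) ≠ 0 := by exact_mod_cast hN0.ne'
      have e1 : ps w v - ps w i = ((ps w v / (N : ℂ) - pa p s) + (pa p s - pa p t) - (ps w i / (N : ℂ) - pa p t)) * N := by
        field_simp
        ring
      rw [e1, norm_mul, Complex.norm_natCast]
      refine mul_le_mul_of_nonneg_right ?_ hN0.le
      have g5 := norm_sub_le ((ps w v / (N : ℂ) - pa p s) + (pa p s - pa p t)) (ps w i / (N : ℂ) - pa p t)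
      have g6 := norm_add_le (ps w v / (N : ℂ) - pa p s) (pa p s - pa p t)
      linarith
    have hgb := b16 q'.ρ q'.ρ2 (q'.r - 2 * z - δr / 2) (q'.r2 - 2 * z - δs / 2)
      (rad k1 b1 (by rw [← hC1]; exact htC) (fun s s1 s2 => by rw [← hC1] at s2; exact Vc s s1 s2) z3)
      (rad k2 b2 (by rw [← hY1]; exact htY) (fun s s1 s2 => by rw [← hY1] at s2; exact Vx s s1 s2) z4)
      (by linarith [hηle.trans u5]) (by linarith [hηle.trans u6]) Rq'.ρ2 (plc (K := 0) (φ0 := C0) k1 b1 b5 (by rw [← hC1]; exact hCC) g1 (by rw [← hC1]; exact g2)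
      (fun s s1 s2 => by rw [← hC1] at s2 ⊢; exact Wc s s1 s2) z1 (hηle.trans u3)) Rq'.ρ22
      (plc (K := 0) (φ0 := Y0) k2 b2 b6 (by rw [← hY1]; exact hYY) g3 (by rw [← hY1]; exact g4)
        (fun s s1 s2 => by rw [← hY1] at s2 ⊢; exact Wx s s1 s2) z2 (hηle.trans u4))
    have hm1 : wc q' N w' = (c' : ℝ) / w'.length := mk1_of (Nat.cast_nonneg N) (Rq'.rρ hR) hgb.1
    have hm2 : wx q' N w' = (x' : ℝ) / w'.length := mkB_of (Nat.cast_nonneg N) (Rq'.rρ hR) (Rq'.rρ2 hR2) hgb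
    rw [hm1] at k5
    rw [hm2] at k6
    have o1 := abs_le.1 (mark_abs A' b7 k5 hp1')
    have o2 := abs_le.1 (mark_abs A' b8 k6 hp1')
    have o3 := abs_le.1 A.ti
    have o4 := abs_le.1 A'.ti
    have o5 := abs_le.1 b11
    have o6 := abs_le.1 b12
    have o7 := hbd' hη
    have o8 := hθB hθη
    have e1 : (6 * B + 2) * η = 6 * (B * η) + 2 * η := by ring
    refine ⟨mark_in k5, mark_in k6, ?_, ?_, ?_, ?_⟩ <;> linarith [o1.1, o1.2, o2.1, o2.2, o3.1, o3.2, o4.1, o4.2, o5.1, o5.2, o6.1, o6.2]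
  have hc' : 0 ≤ Φc' q' g' := nn_of hη1 fun η a1 a2 => (key η a1 a2).1
  have hx' : 0 ≤ Φx' q' g' := nn_of hη1 fun η a1 a2 => (key η a1 a2).2.1
  rw [tcL_of hc', tcL_of hx']
  exact ⟨mul_nonneg hx' hp1', le_lim hη1 fun η a1 a2 => (key η a1 a2).2.2.1, le_lim hη1 fun η a1 a2 => (key η a1 a2).2.2.2.1,
    le_lim hη1 fun η a1 a2 => (key η a1 a2).2.2.2.2.1, le_lim hη1 fun η a1 a2 => (key η a1 a2).2.2.2.2.2⟩

end Pool.Agent.ROT.F3.K7
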