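import Pool.Agent.ROT.F3K7Sb
import Pool.Agent.ROT.F3SysV

/-!
# ROT, block F3, row K7 (LOC): the strands of the closed words with two roots (helper66)

* `sdw T k x` : the strand of `x = (closed word, second root)`, arm `k`, direction `T`;
* **`strand_near`** : off an event of small mass (for all `N`), any two strands (all arms, all directions) with close pieces, pieces in
  the sense of `PieX`, ends far away, satisfy `PcS` (closeness and stability of the start cuts in both directions, every start cut of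
  level at least `R / 8`); no parameters of gates occur.
-/

set_option autoImplicit false

open Set Filter Topology MeasureTheory

namespace Pool.Agent.ROT.F3.K7

open Pool.Agent.NTS.Res (step pos saw fug size curve)
open Pool.Agent.PMA.Res (pol)
open Pool.Agent.SCF.Z Pool.Agent.SCF.M
open Pool.Agent.ROT.F (QB)

/-- **the strand**: arm `k`, direction `T` -/
def sdw (T : LSym) (k : Arm) (x : W3 × ℕ) : W3 := mp T (arcw x.2 k x.1)

/-- the closed words with two roots in the window -/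
structure InW (δ1 K1 : ℝ) (n0 N : ℕ) (x : W3 × ℕ) (n : ℕ) : Prop where
  cl : F3.Cl x.1
  len : x.1.length = n + 1
  odd : Odd n
  n0 : n0 ≤ n
  N1 : (N : ℝ) ≤ K1 * (n : ℝ) ^ (3 / 4 : ℝ)
  N2 : (n : ℝ) ^ (3 / 4 : ℝ) ≤ K1 * N
  m1 : δ1 * n ≤ x.2
  m2 : (x.2 : ℝ) ≤ (1 - δ1) * n
  ev : Even x.2

lemma length_mv (k : Arm) (m : ℕ) (w : W3) : (k.mv m w).length = w.length := by
  cases k <;> simp [Arm.mv]

lemma mp_congr {T T' : LSym} (h : T.σ = T'.σ) (w : W3) : mp T w = mp T' w := by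
  unfold mp
  rw [h]

lemma sdw_eq (T : LSym) (k : Arm) {x : W3 × ℕ} {n : ℕ} (hl : x.1.length = n + 1) (hm : x.2 ≤ n + 1) :
    sdw T k x = (mp T (k.mv x.2 x.1)).take (k.len n x.2) := by
  unfold sdw
  rw [arcw_eq k hl hm, mp_take]

lemma length_sdw (T : LSym) (k : Arm) {x : W3 × ℕ} {n : ℕ} (hl : x.1.length = n + 1) (hm : x.2 ≤ n + 1) :
    (sdw T k x).length = k.len n x.2 := by
  unfold sdw
  rw [mp_length, length_arcw k hl hm]

/-- a sum over the polygons, all arms and directions -/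
lemma sum_arm (T : LSym) (k : Arm) {n m : ℕ} (ho : Odd n) (he : Even m) (f : W3 → ℝ) :
    ∑ s ∈ pol n, f (mp T (k.mv m (clw s))) = ∑ s ∈ pol n, f (clw s) := by
  rw [sum_pol' ho fun w => f (mp T (k.mv m w)), sum_pol' ho f, tsum_mv k he fun w => f (mp T w), tsum_mp_Cln T (n + 1) f]

open Classical in
/-- **the strands of the closed words with two roots** -/
theorem strand_near (hQ : QB) {b : ℝ} (hb : 0 ≤ b) {R ε ν : ℝ} (hR : 0 < R) (hε : 0 < ε) (hν : 0 < ν) :
    ∃ β KK θ1 δ1 K1 : ℝ, 0 < β ∧ 1 ≤ KK ∧ 0 < θ1 ∧ 0 < δ1 ∧ 0 < K1 ∧ ∀ θ : ℝ, 0 < θ → θ ≤ θ1 → ∀ nb : ℕ,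
      ∃ (δ : ℝ) (Gd : ℕ → W3 × ℕ → Prop), 0 < δ ∧ (∀ᶠ N : ℕ in atTop, (mwE N b).real {x | ¬ Gd N x} ≤ ε) ∧
        (∀ N x, Gd N x → ∃ n, InW δ1 K1 nb N x n) ∧
        ∀ (N : ℕ) (x x' : W3 × ℕ), Gd N x → Gd N x' → ∀ (k k' : Arm) (T T' : LSym) (i m i' m' : ℕ),
          PieX R N (sdw T k x).get i m → PieX R N (sdw T' k' x').get i' m' →
          1003 * (R * N) ≤ ‖ps (sdw T k x) (sdw T k x).length‖ → 1003 * (R * N) ≤ ‖ps (sdw T' k' x') (sdw T' k' x').length‖ →
          dist (XS N (md (sdw T k x).get i m)) (XS N (md (sdw T' k' x').get i' m')) ≤ δ →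
          PcS β ν θ KK R N (md (sdw T k x).get i m) (md (sdw T' k' x').get i' m') := by
  obtain ⟨δ1, K1, ε', hδ1, hK1, hε', hsum⟩ := mwE_sum hQ hb hε
  obtain ⟨β, KK, θ1, hβ, hKK, hθ1, H⟩ := strand_pol (δ0 := δ1 / 2) (K1 := K1) (ε := ε' / 24) hR (by positivity) hK1 (by positivity) hν
  refine ⟨β, KK, θ1, δ1, K1, hβ, hKK, hθ1, hδ1, hK1, fun θ hθ hθ' nb => ?_⟩
  obtain ⟨δ, κ, K0, η, ω, n0, n1, Bad, hδ, hκ, hB, hgeo⟩ := H θ hθ hθ'
  obtain ⟨n2, hn2⟩ := exists_nat_ge (2 / δ1)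
  obtain ⟨n3, hn3⟩ : ∃ n3 : ℕ, n3 = n1 + n2 + nb + 1 := ⟨_, rfl⟩
  obtain ⟨Gd, hGd⟩ : ∃ Gd : ℕ → W3 × ℕ → Prop, Gd = fun N x => ∃ n, InW δ1 K1 n3 N x n ∧
    ∀ (k : Arm) (T : LSym), GdP R N κ K0 η ω n0 Bad (k.len n x.2) (mp T (k.mv x.2 x.1)) := ⟨_, rfl⟩
  refine ⟨δ, Gd, hδ, ?_, fun N x hx => ?_, ?_⟩
  · obtain ⟨N0, hN0⟩ := hsum n3
    filter_upwards [eventually_ge_atTop N0] with N hN
    have e1 : (mwE N b).real {x | ¬ Gd N x} = ∫ x, {x | ¬ Gd N x}.indicator (fun _ => (1 : ℝ)) x ∂(mwE N b) := by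
      rw [integral_indicator_const _ MeasurableSet.of_discrete, smul_eq_mul, mul_one]
    rw [e1]
    refine hN0 N hN _ (fun x => indicator_le_self' (fun _ _ => zero_le_one) x) fun n hn ho b1 b2 m m1 m2 he => ?_
    have hn1 : 1 ≤ n := by omega
    have hn0' : (0 : ℝ) < n := by exact_mod_cast hn1
    have hδn : 2 ≤ δ1 * n := by
      have h1 : 2 / δ1 ≤ n := hn2.trans (by exact_mod_cast (by omega : n2 ≤ n))
      rw [div_le_iff₀ hδ1] at h1
      linarith
    have hmn : m ≤ n := by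
      have : (m : ℝ) ≤ n := by nlinarith
      exact_mod_cast this
    obtain ⟨J, hJ⟩ : ∃ J : Finset Arm, J = {.fp, .bq, .fq, .bp} := ⟨_, rfl⟩
    have hJc : ∀ k : Arm, k ∈ J := fun k => by
      rw [hJ]
      cases k <;> simp
    have hJn : J.card = 4 := by
      rw [hJ]
      rfl
    obtain ⟨q, hq⟩ : ∃ q : Arm → Equiv.Perm (Fin 3) → (Fin n → Fin 3) → ℝ, q = fun k σ s =>
      if ∃ T : LSym, T.σ = σ ∧ ¬ GdP R N κ K0 η ω n0 Bad (k.len n m) (mp T (k.mv m (clw s))) then 1 else 0 := ⟨_, rfl⟩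
    have hq0 : ∀ k σ s, 0 ≤ q k σ s := fun k σ s => by
      rw [hq]
      show (0 : ℝ) ≤ if _ then 1 else 0
      split_ifs <;> norm_num
    have hone : ∀ s ∈ pol n, {x | ¬ Gd N x}.indicator (fun _ => (1 : ℝ)) (clw s, m) ≤ ∑ k ∈ J, ∑ σ : Equiv.Perm (Fin 3), q k σ s := by
      intro s hs
      by_cases hx : Gd N (clw s, m)
      · rw [indicator_of_notMem (show (clw s, m) ∉ {x | ¬ Gd N x} from fun h => h hx)]
        exact Finset.sum_nonneg fun k _ => Finset.sum_nonneg fun σ _ => hq0 k σ s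
      · rw [indicator_of_mem (show (clw s, m) ∈ {x | ¬ Gd N x} from hx)]
        have hcl := clw_mem ho hs
        have h1 : ∃ (k : Arm) (T : LSym), ¬ GdP R N κ K0 η ω n0 Bad (k.len n m) (mp T (k.mv m (clw s))) := by
          by_contra hcon
          push Not at hcon
          refine hx ?_
          rw [hGd]
          exact ⟨n, ⟨hcl.1, hcl.2, ho, hn, b1, b2, m1, m2, he⟩, hcon⟩
        obtain ⟨k, T, hkT⟩ := h1
        have h2 : q k T.σ s = 1 := by
          rw [hq]
          exact if_pos ⟨T, rfl, hkT⟩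
        have h3 := Finset.single_le_sum (f := fun σ => q k σ s) (fun σ _ => hq0 k σ s) (Finset.mem_univ T.σ)
        have h4 := Finset.single_le_sum (f := fun k => ∑ σ : Equiv.Perm (Fin 3), q k σ s)
          (fun k _ => Finset.sum_nonneg fun σ _ => hq0 k σ s) (hJc k)
        linarith
    refine (Finset.sum_le_sum hone).trans ?_
    rw [Finset.sum_comm]
    have hk : ∀ k ∈ J, ∑ s ∈ pol n, ∑ σ : Equiv.Perm (Fin 3), q k σ s ≤ 6 * (ε' / 24 * ((pol n).card : ℝ)) := by
      intro k _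
      rw [Finset.sum_comm]
      have hσ : ∀ σ ∈ (Finset.univ : Finset (Equiv.Perm (Fin 3))), ∑ s ∈ pol n, q k σ s ≤ ε' / 24 * ((pol n).card : ℝ) := by
        intro σ _
        by_cases hT : ∃ T : LSym, T.σ = σ
        · obtain ⟨T, hT⟩ := hT
          have h1 : ∀ s ∈ pol n, q k σ s = (fun w => if ¬ GdP R N κ K0 η ω n0 Bad (k.len n m) w then (1 : ℝ) else 0)
              (mp T (k.mv m (clw s))) := by
            intro s _
            rw [hq]
            refine if_congr ⟨?_, fun h => ⟨T, hT, h⟩⟩ rfl rfl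
            rintro ⟨T', hT', h⟩
            rwa [mp_congr (hT'.trans hT.symm)] at h
          rw [Finset.sum_congr rfl h1, sum_arm T k ho he fun w => if ¬ GdP R N κ K0 η ω n0 Bad (k.len n m) w then (1 : ℝ) else 0,
            ← Finset.sum_filter, Finset.sum_const, nsmul_eq_mul, mul_one]
          have e : ((n + 1 - m : ℕ) : ℝ) = n + 1 - m := by
            rw [Nat.cast_sub (by omega)]
            push_cast
            ring
          have hj : Even (k.len n m) ∧ δ1 / 2 * n ≤ (k.len n m : ℝ) ∧ (k.len n m : ℝ) ≤ (1 - δ1 / 2) * n := by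
            have g1 : Even m ∧ δ1 / 2 * n ≤ (m : ℝ) ∧ (m : ℝ) ≤ (1 - δ1 / 2) * n := ⟨he, by nlinarith, by nlinarith⟩
            have g2 : Even (n + 1 - m) ∧ δ1 / 2 * n ≤ ((n + 1 - m : ℕ) : ℝ) ∧ ((n + 1 - m : ℕ) : ℝ) ≤ (1 - δ1 / 2) * n := by
              rw [e]
              refine ⟨(Nat.even_sub (by omega)).2 ⟨fun _ => he, fun _ => ho.add_one⟩, by nlinarith, by nlinarith⟩
            cases k
            · exact g1
            · exact g1
            · exact g2
            · exact g2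
          exact hB n (k.len n m) N (by omega) ho hj.1 hj.2.1 hj.2.2 b1 b2
        · have h1 : ∀ s ∈ pol n, q k σ s = 0 := by
            intro s _
            rw [hq]
            refine if_neg ?_
            rintro ⟨T, h, -⟩
            exact hT ⟨T, h⟩
          rw [Finset.sum_congr rfl h1, Finset.sum_const_zero]
          positivity
      refine (Finset.sum_le_sum hσ).trans (le_of_eq ?_)
      rw [Finset.sum_const, Finset.card_univ, show Fintype.card (Equiv.Perm (Fin 3)) = 6 from rfl, nsmul_eq_mul]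
      norm_num
    refine (Finset.sum_le_sum hk).trans (le_of_eq ?_)
    rw [Finset.sum_const, hJn, nsmul_eq_mul]
    push_cast
    ring
  · rw [hGd] at hx
    obtain ⟨n, h, -⟩ := hx
    exact ⟨n, h.cl, h.len, h.odd, le_trans (by omega) h.n0, h.N1, h.N2, h.m1, h.m2, h.ev⟩
  · intro N x x' hx hx' k k' T T' i m i' m' P P' hE hE' hX
    rw [hGd] at hx hx'
    obtain ⟨n, hW, hG⟩ := hx
    obtain ⟨n', hW', hG'⟩ := hx'
    have hmle : ∀ {x : W3 × ℕ} {n : ℕ}, InW δ1 K1 n3 N x n → x.2 ≤ n + 1 := by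
      intro x n h
      have h1 : (x.2 : ℝ) ≤ n := by
        have h2 := h.m2
        have h3 : 0 ≤ δ1 * (n : ℝ) := by positivity
        linarith
      have h2 : x.2 ≤ n := by exact_mod_cast h1
      omega
    have hg : ∀ {x : W3 × ℕ} {n : ℕ}, InW δ1 K1 n3 N x n →
        (∀ (k : Arm) (T : LSym), GdP R N κ K0 η ω n0 Bad (k.len n x.2) (mp T (k.mv x.2 x.1))) → ∀ (k : Arm) (T : LSym),
          GdX R N κ K0 η ω n0 Bad (sdw T k x).get := by
      intro x n h hG k T
      refine hG k T _ _ (length_sdw T k h.len (hmle h)) fun i hi => ?_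
      rw [length_sdw T k h.len (hmle h)] at hi
      rw [pos_get, sdw_eq T k h.len (hmle h), ps_take _ hi ?_]
      rw [mp_length, length_mv, h.len]
      have := hmle h
      cases k <;> simp only [Arm.len] <;> omega
    have hN0 : (0 : ℝ) < N := by
      have h1 := hW.N2
      have h3 : 1 ≤ n := by
        have := hW.n0
        omega
      have h4 : (0 : ℝ) < n := by exact_mod_cast h3
      have h2 : 0 < (n : ℝ) ^ (3 / 4 : ℝ) := by positivity
      by_contra hcon
      push Not at hcon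
      have := mul_nonneg_of_nonpos_of_nonpos (a := -K1) (b := (N : ℝ)) (by linarith) hcon
      nlinarith
    exact gdX_near hR hN0 hκ hgeo (hg hW hG k T) (hg hW' hG' k' T') (by rw [pos_get]; exact hE) (by rw [pos_get]; exact hE') P P' hX

end Pool.Agent.ROT.F3.K7
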