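import Pool.Agent.ROT.F3PieX
import Pool.Agent.ROT.F3K7D

/-!
# ROT, block F3, row K7 (LOC): completions of strands (helper66)

* `PcS` : two close pieces, in the form which `gate_low` of F3K7M reads; **`geoX`** : `pie_geoX` in this form;
* `Cpl z X a b t` : the walk `t` is the strand `X` between two ends in balls of radius `z`; `cpl_pie`, `cpl_md`, `cpl_zc`;
* **`cplX`** : two strands with good completions and close pieces: `PcS`.
-/

set_option autoImplicit false

open Set Filter Topology MeasureTheory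

namespace Pool.Agent.ROT.F3.K7

open Pool.Agent.NTS.Res
open Pool.Agent.CRT (CI)
open Pool.Agent.CRT.V.VC (pr)
open Pool.Agent.SCF.Z Pool.Agent.SCF.M
open Pool.Agent.ROT.F3 (cv)

/-- **two close pieces** -/
structure PcS (β ν θ KK R S : ℝ) {m m' : ℕ} (t : Fin m → Fin 3) (t' : Fin m' → Fin 3) : Prop where
  o1 : 1 ≤ m
  o1' : 1 ≤ m'
  sm : size m ≤ KK * S
  sm' : size m' ≤ KK * S
  le : |(m : ℝ) - m'| ≤ θ * m
  le' : |(m' : ℝ) - m| ≤ θ * m'
  cl : ClS S 2 β ν t t'
  b : θ + 1 / m ≤ β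
  b' : θ + 1 / m' ≤ β
  st : StbS LG R θ S t t'
  st' : StbS LG R θ S t' t

lemma PcS.symm {β ν θ KK R S : ℝ} {m m' : ℕ} {t : Fin m → Fin 3} {t' : Fin m' → Fin 3} (h : PcS β ν θ KK R S t t') :
    PcS β ν θ KK R S t' t := ⟨h.o1', h.o1, h.sm', h.sm, h.le', h.le, h.cl.symm, h.b', h.b, h.st', h.st⟩

/-- **the geometry of close pieces**, in the form `PcS` -/
theorem geoX {R κ K0 ε ν : ℝ} (hR : 0 < R) (hκ : 0 < κ) (hκ1 : κ < 1) (hK0 : 1 ≤ K0) (hε : 0 < ε) (hν : 0 < ν) :
    ∃ β KK θ1 : ℝ, 0 < β ∧ 1 ≤ KK ∧ 0 < θ1 ∧ ∀ θ : ℝ, 0 < θ → θ ≤ θ1 →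
      ∃ (δ : ℝ) (n0 : ℕ) (Bad : ∀ n : ℕ, ℝ → (Fin n → Fin 3) → Prop), 0 < δ ∧
        (∀ (n : ℕ) (S : ℝ), n0 ≤ n → size n / K0 ≤ S → S ≤ K0 * size n →
          pr n (fun s => Bad n S s ∧ 0 < zc κ (1000 * R * (S / size n)) (curve s)) ≤ ε) ∧
        ∀ (n n' : ℕ) (s : Fin n → Fin 3) (s' : Fin n' → Fin 3) (S : ℝ) (i i' m m' : ℕ), n0 ≤ n → n0 ≤ n' → ¬ Bad n S s →
          ¬ Bad n' S s' → size n / K0 ≤ S → S ≤ K0 * size n → size n' / K0 ≤ S → S ≤ K0 * size n' → Pie R S s i m → Pie R S s' i' m' →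
          dist (XS S (md s i m)) (XS S (md s' i' m')) ≤ δ → PcS β ν θ KK R S (md s i m) (md s' i' m') := by
  obtain ⟨ηf, KK, hηf, hKK, H⟩ := pie_geoX hR hκ hκ1 hK0 hε
  have hKK0 : 0 < KK := by linarith
  obtain ⟨ω, hω⟩ : ∃ ω, ω = ν / (4 * KK) := ⟨_, rfl⟩
  have hω0 : 0 < ω := by rw [hω]; positivity
  have hη := hηf ω hω0
  obtain ⟨C, hC⟩ : ∃ C, C = (2 / ηf ω + 1) * ω := ⟨_, rfl⟩
  have hC0 : 0 < C := by rw [hC]; positivity
  obtain ⟨θ1, hθ10, ht⟩ := min_list [ω, ω / C, ηf ω / 4, 1 / 2]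
    (by
      intro x hx
      simp only [List.mem_cons, List.not_mem_nil, or_false] at hx
      rcases hx with rfl | rfl | rfl | rfl <;> positivity)
  simp only [List.mem_cons, List.not_mem_nil, or_false, forall_eq_or_imp, forall_eq] at ht
  obtain ⟨t1, t2, t3, t4⟩ := ht
  refine ⟨ηf ω / 2, KK, θ1, by positivity, hKK, hθ10, fun θ hθ hθ1 => ?_⟩
  obtain ⟨n3, hn3⟩ := inv_small (θ := min ω (ηf ω / 4)) (lt_min hω0 (by positivity))
  obtain ⟨δ, n0, Bad, hδ, hB1, hB2⟩ := H [ω] θ n3 (by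
    intro ω' hω'
    rw [List.mem_singleton] at hω'
    rw [hω']
    exact hω0) (by simp) hθ
  refine ⟨δ, n0, Bad, hδ, hB1, fun n n' s s' S i i' m m' hn hn' hb hb' hS1 hS2 hS1' hS2' P P' hX => ?_⟩
  obtain ⟨F, st, st', -⟩ := hB2 n n' s s' S i i' m m' hn hn' hb hb' hS1 hS2 hS1' hS2' P P' hX
  obtain ⟨a1, a2, a3⟩ := hn3 m F.n1
  obtain ⟨b1, b2, b3⟩ := hn3 m' F.n1'
  have hm0' : (0 : ℝ) < m' := by exact_mod_cast F.o1'
  have a2' := a2.trans (min_le_right _ _)
  have b2' := b2.trans (min_le_right _ _)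
  have b3' := b3.trans (min_le_left _ _)
  have hθC : C * θ ≤ ω := by
    have h1 := mul_le_mul_of_nonneg_left (hθ1.trans t2) hC0.le
    have e : C * (ω / C) = ω := by field_simp
    linarith
  have md' := F.md' ω List.mem_cons_self
  have hbd : ∀ l : ℕ, l ≤ m' → ‖pos (md s' i' m') l‖ ≤ C * size m' := by
    rw [hC]
    refine md_bd hη hω0.le ?_ md'
    have h1 : 1 / (m' : ℝ) ≤ ηf ω := b2'.trans (by linarith)
    rwa [div_le_iff₀ hm0'] at h1
  have hS0 : 0 < S := by
    have hn1 : 1 ≤ n := by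
      have := P.hm
      have := F.o1
      omega
    exact lt_of_lt_of_le (div_pos (NTSF.size_pos hn1) (by linarith)) hS1
  have hcl : ClS S 2 (ηf ω / 2) ν (md s i m) (md s' i' m') := by
    refine clS_of F.o1 F.o1' (cl_of F.o1 F.o1' F.cd md' (by linarith) (le_refl (θ + 1 / size m' + ω))) F.sm F.sm' (by positivity) hbd F.ra
      hC0.le ?_ hS0.le
    have h1 : θ + 1 / size m' + ω + C * θ ≤ 4 * ω := by linarith
    calc KK * (θ + 1 / size m' + ω + C * θ) ≤ KK * (4 * ω) := mul_le_mul_of_nonneg_left h1 hKK0.le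
      _ = ν := by rw [hω]; field_simp
  exact ⟨F.o1, F.o1', F.sm, F.sm', F.le, F.le', hcl, by linarith, by linarith, st, st'⟩

/-- **a completion of the strand** `X`: a walk which is `X` between two ends in balls of radius `z` -/
structure Cpl (z : ℝ) {l : ℕ} (X : Fin l → Fin 3) (a b : ℕ) (t : Fin (a + l + b) → Fin 3) : Prop where
  ev : Even a
  eq : ∀ k : ℕ, k ≤ l → pos t (a + k) - pos t a = pos X k
  hd : ∀ k : ℕ, k ≤ a → ‖pos t k - pos t a‖ ≤ z
  tp : ∀ k : ℕ, a + l ≤ k → k ≤ a + l + b → ‖pos t k - pos t (a + l)‖ ≤ z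

section

variable {z R S κ : ℝ} {l a b i m : ℕ} {X : Fin l → Fin 3} {t : Fin (a + l + b) → Fin 3}

lemma Cpl.st (C : Cpl z X a b t) : ‖pos t a‖ ≤ z := by
  have h := C.hd 0 (Nat.zero_le _)
  rwa [NTSF.pos_zero, zero_sub, norm_neg] at h

lemma Cpl.pos (C : Cpl z X a b t) {k : ℕ} (hk : k ≤ l) : pos t (a + k) = pos X k + pos t a := by
  rw [← C.eq k hk]
  ring

lemma Cpl.lb (C : Cpl z X a b t) {k : ℕ} (hk : k ≤ l) : ‖Pool.Agent.NTS.Res.pos X k‖ - z ≤ ‖Pool.Agent.NTS.Res.pos t (a + k)‖ := by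
  rw [C.pos hk]
  have h1 := C.st
  have h2 := norm_sub_le (Pool.Agent.NTS.Res.pos X k + Pool.Agent.NTS.Res.pos t a) (Pool.Agent.NTS.Res.pos t a)
  rw [add_sub_cancel_right] at h2
  linarith

/-- the piece in the completion -/
theorem cpl_pie (C : Cpl z X a b t) (hR : 0 < R) (hS : 0 < S) (hz : z ≤ R / 32 * S) (P : PieX R S X i m) : Pie R S t (a + i) m := by
  have hRS : 0 < R * S := mul_pos hR hS
  have hst := C.st
  have hPm := P.hm
  have e32 : R / 32 * S = R * S / 32 := by ring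
  have e16 : R / 16 * S = R * S / 16 := by ring
  have e4 : R / 4 * S = R * S / 4 := by ring
  have e2 : R / 2 * S = R * S / 2 := by ring
  have e5 : 501 * R * S = 501 * (R * S) := by ring
  have e6 : 502 * R * S = 502 * (R * S) := by ring
  rw [e32] at hz
  refine ⟨C.ev.add P.ev, by omega, fun k hk => ?_, fun k hk => ?_, fun k hk hk2 => ?_⟩
  · rw [e2]
    rcases le_or_gt k a with h | h
    · have h1 := C.hd k h
      have h2 := norm_add_le (pos t k - pos t a) (pos t a)
      rw [sub_add_cancel] at h2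
      linarith
    · obtain ⟨k', rfl⟩ := Nat.exists_eq_add_of_le h.le
      rw [C.pos (by omega)]
      have h1 := P.ball k' (by omega)
      rw [e4] at h1
      have h2 := norm_add_le (pos X k') (pos t a)
      linarith
  · rw [e16, C.pos (by omega), Complex.add_re]
    rcases le_or_gt k a with h | h
    · have h1 := (Complex.abs_re_le_norm _).trans (C.hd k h)
      rw [Complex.sub_re] at h1
      have h2 := P.lev 0 (Nat.zero_le _)
      rw [NTSF.pos_zero, Complex.zero_re, e32] at h2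
      have h3 := (abs_le.1 h1).2
      linarith
    · obtain ⟨k', rfl⟩ := Nat.exists_eq_add_of_le h.le
      rw [C.pos (by omega), Complex.add_re]
      have h1 := P.lev k' (by omega)
      rw [e32] at h1
      linarith
  · rw [e5]
    rcases le_or_gt k (a + l) with h | h
    · obtain ⟨k', rfl⟩ := Nat.exists_eq_add_of_le (show a ≤ k by omega)
      have h1 := P.far k' (by omega) (by omega)
      have h2 := C.lb (show k' ≤ l by omega)
      rw [e6] at h1
      linarith
    · have h1 := P.far l hPm le_rfl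
      have h2 := C.lb (le_refl l)
      have h3 := C.tp k h.le hk2
      have h4 := norm_sub_norm_le (pos t (a + l)) (pos t (a + l) - pos t k)
      rw [sub_sub_cancel, norm_sub_rev (pos t (a + l))] at h4
      rw [e6] at h1
      linarith

/-- the piece of the completion is the piece of the strand -/
theorem cpl_md (C : Cpl z X a b t) (hm : i + m ≤ l) : md t (a + i) m = md X i m := by
  funext j
  obtain ⟨j, hj⟩ := j
  have h1 := C.eq (i + j) (by omega)
  have h2 := C.eq (i + j + 1) (by omega)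
  unfold md
  rw [dif_pos (show a + i + j < a + l + b by omega), dif_pos (show i + j < l by omega)]
  have h3 := NTSF.pos_succ t (a + i + j) (by omega)
  have h4 := NTSF.pos_succ X (i + j) (by omega)
  rw [← add_assoc] at h1 h2
  rw [← add_assoc] at h2
  have h5 : step (a + i + j) (t ⟨a + i + j, by omega⟩) = step (i + j) (X ⟨i + j, by omega⟩) := by
    have e1 : step (a + i + j) (t ⟨a + i + j, by omega⟩) = pos t (a + i + j + 1) - pos t (a + i + j) := by rw [h3]; ring
    have e2 : step (i + j) (X ⟨i + j, by omega⟩) = pos X (i + j + 1) - pos X (i + j) := by rw [h4]; ring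
    rw [e1, e2, ← h1, ← h2]
    ring
  have h6 : ∀ x : Fin 3, step (a + i + j) x = step (i + j) x := fun x => by
    unfold step
    rw [add_assoc, pow_add, C.ev.neg_one_pow, one_mul]
  rw [h6] at h5
  exact Pool.Agent.PMA.LimR.step_inj h5

/-- the cut-off is positive -/
theorem cpl_zc (C : Cpl z X a b t) (hR : 0 < R) (hS : 1 < R * S) (hz : z ≤ R / 32 * S) (hS0 : 0 < S)
    (hk : κ * ((a + l + b : ℕ) : ℝ) + 1 ≤ l + b)
    (hE : ∀ k : ℕ, k ≤ l → (l : ℝ) - k ≤ κ * ((a + l + b : ℕ) : ℝ) + 1 → 1002 * (R * S) ≤ ‖pos X k‖) (hκ : 0 ≤ κ) :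
    0 < zc κ (1000 * R * (S / size (a + l + b))) (curve t) := by
  obtain ⟨n, hn⟩ : ∃ n : ℕ, n = a + l + b := ⟨_, rfl⟩
  have hn0' : (0 : ℝ) ≤ n := Nat.cast_nonneg _
  have hnl : (l : ℝ) + b ≤ n := by
    rw [hn]
    push_cast
    have := Nat.cast_nonneg (α := ℝ) a
    linarith
  have hkn : κ * (n : ℝ) + 1 ≤ l + b := by rw [hn]; exact hk
  have hn1 : 1 ≤ n := by
    have : (1 : ℝ) ≤ n := by
      have := mul_nonneg hκ hn0'
      linarith
    exact_mod_cast this
  have hn0 : (0 : ℝ) < n := by exact_mod_cast hn1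
  have e32 : R / 32 * S = R * S / 32 := by ring
  rw [e32] at hz
  have hfar : ∀ k : ℕ, k ≤ a + l + b → (1 - κ) * n - 1 ≤ k → 1001 * (R * S) ≤ ‖pos t k‖ := by
    intro k hk1 hk2
    have hak : a ≤ k := by
      have h1 : (a : ℝ) + (l + b) = n := by
        rw [hn]
        push_cast
        ring
      have h2 : (a : ℝ) ≤ k := by linarith
      exact_mod_cast h2
    rcases le_or_gt k (a + l) with h | h
    · obtain ⟨k', rfl⟩ := Nat.exists_eq_add_of_le hak
      have h1 := hE k' (by omega) (by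
        rw [← hn]
        push_cast at hk2
        have h3 : (n : ℝ) = a + l + b := by
          rw [hn]
          push_cast
          ring
        have := Nat.cast_nonneg (α := ℝ) b
        linarith)
      have h2 := C.lb (show k' ≤ l by omega)
      linarith
    · have h1 := hE l le_rfl (by
        rw [← hn, sub_self]
        have := mul_nonneg hκ hn0'
        linarith)
      have h2 := C.lb (le_refl l)
      have h3 := C.tp k h.le hk1
      have h4 := norm_sub_norm_le (pos t (a + l)) (pos t (a + l) - pos t k)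
      rw [sub_sub_cancel, norm_sub_rev (pos t (a + l))] at h4
      linarith
  have hs : 0 < size (a + l + b) := by
    rw [← hn]
    exact NTSF.size_pos hn1
  have hlow : (1001 * (R * S) - 1) / size (a + l + b) ≤
      sInf ((fun t' : unitInterval => ‖curve t t'‖) '' {t' : unitInterval | 1 - κ ≤ (t' : ℝ)}) := by
    refine le_csInf ⟨_, ⟨1, ?_, rfl⟩⟩ ?_
    · show 1 - κ ≤ ((1 : unitInterval) : ℝ)
      rw [Icc.coe_one]
      linarith
    · rintro y ⟨u, hu, rfl⟩
      obtain ⟨j, j1, j2, j3⟩ := curve_flr (by rw [← hn]; exact hn1) t u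
      have h1 := hfar j j1 (by
        have h5 := (abs_le.1 j2).2
        rw [← hn] at h5
        have h6 : (u : ℝ) * n - j ≤ 1 := by
          have h7 := mul_le_mul_of_nonneg_right h5 hn0.le
          have e1 : ((u : ℝ) - (j : ℝ) / n) * n = u * n - j := by field_simp
          have e2 : 1 / (n : ℝ) * n = 1 := by field_simp
          rw [e1, e2] at h7
          exact h7
        have h8 : (1 - κ) * n ≤ u * n := mul_le_mul_of_nonneg_right hu hn0.le
        linarith)
      have h2 : ‖pos t j / (size (a + l + b) : ℂ)‖ = ‖pos t j‖ / size (a + l + b) := by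
        rw [norm_div, Complex.norm_real, Real.norm_of_nonneg hs.le]
      have h3 := norm_sub_norm_le (pos t j / (size (a + l + b) : ℂ)) (pos t j / (size (a + l + b) : ℂ) - curve t u)
      rw [sub_sub_cancel, norm_sub_rev (pos t j / (size (a + l + b) : ℂ)), h2] at h3
      rw [sub_div]
      have h4 : 1001 * (R * S) / size (a + l + b) ≤ ‖pos t j‖ / size (a + l + b) := div_le_div_of_nonneg_right h1 hs.le
      show 1001 * (R * S) / size (a + l + b) - 1 / size (a + l + b) ≤ ‖curve t u‖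
      linarith
  have hRS0 : 0 < R * S := by linarith
  have h1 : 1 < sInf ((fun t' : unitInterval => ‖curve t t'‖) '' {t' : unitInterval | 1 - κ ≤ (t' : ℝ)}) /
      (1000 * R * (S / size (a + l + b))) := by
    rw [lt_div_iff₀ (by positivity), one_mul]
    refine lt_of_lt_of_le ?_ hlow
    have e : 1000 * R * (S / size (a + l + b)) = 1000 * (R * S) / size (a + l + b) := by ring
    rw [e]
    exact div_lt_div_of_pos_right (by linarith) hs
  unfold zc tr
  refine lt_max_of_lt_right (lt_min one_pos ?_)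
  linarith

end

end Pool.Agent.ROT.F3.K7
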