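import Pool.Agent.ROT.F3S2B
import Pool.Agent.ROT.F3AcTLit

/-!
# ROT / F3S2C (helper85): exact number of steps on the left (row W4)

* **`s2tip_of : AcT → S2tip`** : the weights `u` of helper83's `AcT` (ROT/F3AcTLit) are removed by `slow_one`.
-/

set_option autoImplicit false

open Finset
open scoped Classical

namespace Pool.Agent.ROT.F3

open HexObs HexObs.TS HexObs.SDN HexObs.TIW HexObs.MCP

open NTF (JJ)

open Pool.Agent.RMP (win)

namespace S2

lemma TpR_of {R : ℝ} {k : ℕ} {t : List Bool} (h : TipIn (R / 2) k t) : TpR R k t := by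
  intro i hi hi2
  have h1 := h i hi hi2
  rw [← NTF.JJ_sub] at h1
  have h2 := hn_le_JJ (vx oo up t i - vx oo up t k)
  linarith

lemma tipM_le {κ d : ℝ} {n k k1 : ℕ} {g : List Bool → ℝ} (g0 : ∀ t, 0 ≤ g t) :
    tipM (κ / 2 * (n : ℝ) ^ (3 / 4 : ℝ)) d k k1 g ≤
      wE d k (fun t => g (t.take k1) * (if TpR (κ * (n : ℝ) ^ (3 / 4 : ℝ)) k1 t then 1 else 0)) := by
  have hx := xc_pos
  unfold wE tipM
  refine div_le_div_of_nonneg_right (sum_le_sum fun m _ => ?_) (sum_nonneg fun m _ => ?_)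
  · refine mul_le_mul_of_nonneg_left (sum_le_sum fun t _ => ?_) (by positivity)
    by_cases h5 : TipIn (κ / 2 * (n : ℝ) ^ (3 / 4 : ℝ)) k1 t
    · rw [if_pos h5, if_pos (TpR_of (by
        rw [show κ * (n : ℝ) ^ (3 / 4 : ℝ) / 2 = κ / 2 * (n : ℝ) ^ (3 / 4 : ℝ) by ring]
        exact h5)), mul_one]
    · rw [if_neg h5]
      have := g0 (t.take k1)
      split_ifs
      · linarith
      · linarith
  · positivity

/-- **the weights are removed** -/
theorem s2tip_of (hA : AcT) : S2tip := by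
  intro ε κ δ dt hε hκ hδ hdt
  obtain ⟨C0, hC0, hS⟩ := slow_one
  have hC0p : 0 < C0 := by linarith
  obtain ⟨ds, n1, hds, hS⟩ := hS (ε / 2) δ (by positivity) hδ
  obtain ⟨d, ρ, C, n2, hd, hdd, hρ, hρd, hC, hA⟩ := hA (ε / (2 * C0)) (κ / 2) δ (min (ds / 2) (dt / 4)) (by positivity)
    (by positivity) hδ (by positivity)
  have hd1 : d ≤ ds / 2 := hdd.trans (min_le_left _ _)
  have hd2 : d ≤ dt / 4 := hdd.trans (min_le_right _ _)
  refine ⟨d, ρ, C0 * C, max n1 n2, hd, hρ, by positivity, by linarith, fun n k1 k hn hk1 hk2 hk3 hk4 g g0 g1 => ?_⟩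
  have p1 : n1 ≤ n := (le_max_left _ _).trans hn
  have p2 : n2 ≤ n := (le_max_right _ _).trans hn
  have hn0 : (0 : ℝ) ≤ n := Nat.cast_nonneg n
  have hρn : 0 ≤ ρ * n := by positivity
  obtain ⟨u, u0, u1, u2, hu⟩ := hA n k p2 (by linarith) hk4
  have h1 := hu k1 hk2 (by linarith) g g0 g1
  have h2 : Eu n (fun t => g (t.take k1)) ≤ ∑ i ∈ range (4 * n), u i * (C0 * Eu i (fun t => g (t.take k1)) + ε / 2) := by
    calc Eu n (fun t => g (t.take k1)) = ∑ i ∈ range (4 * n), u i * Eu n (fun t => g (t.take k1)) := by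
          rw [← sum_mul, u2, one_mul]
      _ ≤ _ := by
          refine sum_le_sum fun i _ => ?_
          by_cases h9 : u i = 0
          · rw [h9, zero_mul, zero_mul]
          · obtain ⟨v1, v2⟩ := u1 i h9
            refine mul_le_mul_of_nonneg_left ?_ (u0 i)
            exact hS n i k1 p1 (le_trans (mul_le_mul_of_nonneg_right (by linarith) hn0) v1)
              (v2.trans (mul_le_mul_of_nonneg_right (by linarith) hn0)) (by linarith) g g0 g1
  have h3 : ∑ i ∈ range (4 * n), u i * (C0 * Eu i (fun t => g (t.take k1)) + ε / 2) =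
      C0 * ∑ i ∈ range (4 * n), u i * Eu i (fun t => g (t.take k1)) + ε / 2 := by
    simp only [mul_add]
    rw [sum_add_distrib, ← sum_mul, u2, one_mul, mul_sum]
    congr 1
    exact sum_congr rfl fun i _ => by ring
  have h4 := tipM_le (κ := κ) (d := d) (n := n) (k := k) (k1 := k1) g0
  rw [h3] at h2
  have h5 := mul_le_mul_of_nonneg_left h4 hC.le
  have h6 := mul_le_mul_of_nonneg_left (h1.trans (add_le_add h5 le_rfl)) hC0p.le
  have h7 : C0 * (C * wE d k (fun t => g (t.take k1) * (if TpR (κ * (n : ℝ) ^ (3 / 4 : ℝ)) k1 t then 1 else 0)) +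
      ε / (2 * C0)) = C0 * C * wE d k (fun t => g (t.take k1) * (if TpR (κ * (n : ℝ) ^ (3 / 4 : ℝ)) k1 t then 1 else 0)) +
      ε / 2 := by
    field_simp
  linarith

end S2

end Pool.Agent.ROT.F3

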