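import Pool.Agent.ROT.F3S2B

/-!
# ROT / F3S2D (helper85): a piece in the middle of a walk against pieces in the middle of shorter walks (row W4)

* `rv_TpR`, `rv_piece` : confinement and pieces under the reversal;
* **`s2mid_of : S2tip → S2mid`** : the one-sided statement, the reversal, the one-sided statement, the reversal; the parity by
  `one_letter`.
-/

set_option autoImplicit false

open Finset
open scoped Classical

namespace Pool.Agent.ROT.F3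

namespace S2

open HexObs HexObs.TS HexObs.TIW HexObs.MCP

open HexObs.SDN hiding win

open Pool.Agent.IW (rvw rvw_app rvw_mem rvw_rvw split_last)

open Pool.Agent.RMP (win)

/-! ### means over windows -/

lemma mem_win' {d : ℝ} (hd : 0 ≤ d) {k m : ℕ} : m ∈ win d k ↔ k ≤ m ∧ (m : ℝ) ≤ (1 + d) * k := by
  unfold win
  rw [mem_filter, mem_range, Nat.lt_succ_iff, Nat.le_floor_iff (by positivity), and_comm]

lemma wE_le {d : ℝ} (hd : 0 ≤ d) {k : ℕ} {F : List Bool → ℝ} {B : ℝ} (h : ∀ m ∈ win d k, Eu m F ≤ B) : wE d k F ≤ B := by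
  have hx := xc_pos
  have h0 : 0 < ∑ m ∈ win d k, xc ^ m * (cS m : ℝ) := by
    refine sum_pos (fun m _ => mul_pos (by positivity) (cS0 m)) ⟨k, ?_⟩
    rw [mem_win' hd]
    refine ⟨le_rfl, ?_⟩
    have : (0 : ℝ) ≤ k := Nat.cast_nonneg k
    nlinarith
  unfold wE
  rw [div_le_iff₀ h0, mul_sum]
  refine sum_le_sum fun m hm => ?_
  have h1 := h m hm
  unfold Eu at h1
  rw [div_le_iff₀ (cS0 m)] at h1
  have h2 : 0 < xc ^ m := by positivity
  nlinarith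

/-! ### reversal -/

lemma rvw_len {m : ℕ} (hm : 0 < m) {t : List Bool} (ht : t.length = m) : (rvw t).length = m := by
  obtain ⟨s, b, rfl, hs⟩ := split_last hm ht
  rw [rvw_app, List.length_append, rev_length, List.length_singleton]
  exact hs

lemma rv_TpR {m b : ℕ} (hm : 0 < m) (hb : b ≤ m) {t : List Bool} (ht : t.length = m) {R : ℝ} :
    TpR R (m - b) t ↔ HdR R b (rvw t) := by
  obtain ⟨e, he, hv⟩ := rv_vx hm ht
  have key : ∀ j, j ≤ b → hn (vx oo up t (m - j) - vx oo up t (m - b)) = hn (vx oo up (rvw t) j - vx oo up (rvw t) b) := by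
    intro j hj
    rw [hv j (hj.trans hb), hv b hb, add_sub_add_left_eq_sub, ← mulE_sub, hn_mulE he]
  constructor
  · intro h j hj
    rw [← key j hj]
    exact h (m - j) (by omega) (by omega)
  · intro h q hq hq2
    have := key (m - q) (by omega)
    rw [show m - (m - q) = q by omega] at this
    rw [this]
    exact h (m - q) (by omega)

lemma rev_append' (u v : List Bool) : rev (u ++ v) = rev v ++ rev u := by
  unfold rev
  rw [List.map_append, List.reverse_append]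

lemma rv_piece {m i l b : ℕ} (h : i + l + b = m) (hb : 1 ≤ b) {t : List Bool} (ht : t.length = m) :
    (t.drop i).take l = rev (((rvw t).drop (b - 1)).take l) := by
  obtain ⟨s, x, rfl, hs⟩ := split_last (by omega) ht
  obtain ⟨P, hP⟩ : ∃ P, P = s.take i := ⟨_, rfl⟩
  obtain ⟨M, hM⟩ : ∃ M, M = (s.drop i).take l := ⟨_, rfl⟩
  obtain ⟨Q, hQ⟩ : ∃ Q, Q = (s.drop i).drop l := ⟨_, rfl⟩
  have e : s = P ++ (M ++ Q) := by
    rw [hP, hM, hQ, List.take_append_drop, List.take_append_drop]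
  have lP : P.length = i := by rw [hP, List.length_take]; omega
  have lM : M.length = l := by rw [hM, List.length_take, List.length_drop]; omega
  have lQ : Q.length = b - 1 := by rw [hQ, List.length_drop, List.length_drop]; omega
  have lQ' : (rev Q).length = b - 1 := by rw [rev_length, lQ]
  have lM' : (rev M).length = l := by rw [rev_length, lM]
  have e1 : ((s ++ [x]).drop i).take l = M := by
    rw [e, List.append_assoc, List.append_assoc, List.drop_left' lP, List.take_left' lM]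
  have e2 : ((rvw (s ++ [x])).drop (b - 1)).take l = rev M := by
    rw [rvw_app, e, rev_append', rev_append', List.append_assoc, List.append_assoc, List.drop_left' lQ', List.take_left' lM']
  rw [e1, e2, rev_rev]

/-! ### the second and the third step -/

/-- the functional of the reversed word -/
noncomputable def gR (g : List Bool → ℝ) (R : ℝ) (b : ℕ) (T : List Bool) : ℝ :=
  g (rev (T.drop (b - 1))) * (if HdR R b T then 1 else 0)

lemma gR_nonneg {g : List Bool → ℝ} (g0 : ∀ t, 0 ≤ g t) (R : ℝ) (b : ℕ) (T : List Bool) : 0 ≤ gR g R b T := by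
  unfold gR
  split_ifs
  · rw [mul_one]
    exact g0 _
  · rw [mul_zero]

lemma gR_le_one {g : List Bool → ℝ} (g1 : ∀ t, g t ≤ 1) (R : ℝ) (b : ℕ) (T : List Bool) : gR g R b T ≤ 1 := by
  unfold gR
  split_ifs
  · rw [mul_one]
    exact g1 _
  · rw [mul_zero]
    exact zero_le_one

lemma HdR_take {R : ℝ} {b k : ℕ} (h : b ≤ k + 1) {t : List Bool} (hk : k ≤ t.length) : HdR R b (t.take k) ↔ HdR R b t := by
  have e : ∀ j, j ≤ b → vx oo up (t.take k) j = vx oo up t j := by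
    intro j hj
    conv_rhs => rw [← List.take_append_drop k t]
    rw [vx_append]
    rw [List.length_take]
    omega
  constructor
  · intro h1 j hj
    rw [← e j hj, ← e b le_rfl]
    exact h1 j hj
  · intro h1 j hj
    rw [e j hj, e b le_rfl]
    exact h1 j hj

/-- the first reversal -/
lemma step_rev {g : List Bool → ℝ} {R : ℝ} {m i l b : ℕ} (h : i + l + b = m) (hb : 1 ≤ b) :
    Eu m (fun t => g ((t.take (i + l)).drop i) * (if TpR R (i + l) t then 1 else 0)) =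
      Eu m (fun t => gR g R b (t.take (b - 1 + l))) := by
  have hm : 0 < m := by omega
  rw [← Eu_rvw hm (fun t => gR g R b (t.take (b - 1 + l)))]
  unfold Eu
  congr 1
  refine sum_congr rfl fun t ht => ?_
  have hl := len_of ht
  have hl' := rvw_len hm hl
  have e1 : (t.take (i + l)).drop i = (t.drop i).take l := by
    rw [List.drop_take, Nat.add_sub_cancel_left]
  have e2 : ((rvw t).take (b - 1 + l)).drop (b - 1) = ((rvw t).drop (b - 1)).take l := by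
    rw [List.drop_take, Nat.add_sub_cancel_left]
  have e3 : TpR R (i + l) t ↔ HdR R b ((rvw t).take (b - 1 + l)) := by
    rw [HdR_take (by omega) (by omega), ← rv_TpR hm (by omega) hl, show m - b = i + l by omega]
  show g ((t.take (i + l)).drop i) * (if TpR R (i + l) t then 1 else 0) = gR g R b ((rvw t).take (b - 1 + l))
  unfold gR
  rw [e1, e2, ← rv_piece h hb hl]
  by_cases h4 : TpR R (i + l) t
  · rw [if_pos h4, if_pos (e3.1 h4)]
  · rw [if_neg h4, if_neg (fun h5 => h4 (e3.2 h5))]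

/-- the second reversal -/
lemma step_back {g : List Bool → ℝ} (g0 : ∀ t, 0 ≤ g t) {R R' R2 : ℝ} (hR : R ≤ R') (hR2 : 2 * R2 ≤ R') {m a l b : ℕ}
    (h : a + l + b = m) (hb : 1 ≤ b) (ha : 1 ≤ a) :
    Eu m (fun t => gR g R b (t.take (b - 1 + l)) * (if TpR R2 (b - 1 + l) t then 1 else 0)) ≤
      Eu m (fun t => g ((t.drop a).take l) * cnf R' a l t) := by
  have hm : 0 < m := by omega
  rw [← Eu_rvw hm (fun t => gR g R b (t.take (b - 1 + l)) * (if TpR R2 (b - 1 + l) t then 1 else 0))]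
  refine Eu_mono' fun t ht => ?_
  have hl := len_of ht
  have hl' := rvw_len hm hl
  have e2 : ((rvw t).take (b - 1 + l)).drop (b - 1) = ((rvw t).drop (b - 1)).take l := by
    rw [List.drop_take, Nat.add_sub_cancel_left]
  have e3 : TpR R (a + l) t ↔ HdR R b ((rvw t).take (b - 1 + l)) := by
    rw [HdR_take (by omega) (by omega), ← rv_TpR hm (by omega) hl, show m - b = a + l by omega]
  unfold gR
  rw [e2, ← rv_piece h hb hl]
  have hg := g0 ((t.drop a).take l)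
  have hc : 0 ≤ cnf R' a l t := by
    unfold cnf
    split_ifs
    · exact zero_le_one
    · exact le_rfl
  by_cases h4 : HdR R b ((rvw t).take (b - 1 + l))
  · by_cases h5 : TpR R2 (b - 1 + l) (rvw t)
    · rw [if_pos h4, if_pos h5, mul_one, mul_one]
      have h6 : cnf R' a l t = 1 := by
        unfold cnf
        rw [if_pos]
        constructor
        · have h7 : TpR R' (m - a) (rvw t) := by
            intro q hq hq2
            have k1 := h5 q (by omega) hq2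
            have k2 := h5 (m - a) (by omega) (by omega)
            have k3 : hn (vx oo up (rvw t) q - vx oo up (rvw t) (m - a)) ≤
                hn (vx oo up (rvw t) q - vx oo up (rvw t) (b - 1 + l)) +
                  hn (vx oo up (rvw t) (m - a) - vx oo up (rvw t) (b - 1 + l)) := by
              have := hn_sub (vx oo up (rvw t) q - vx oo up (rvw t) (b - 1 + l))
                (vx oo up (rvw t) (m - a) - vx oo up (rvw t) (b - 1 + l))
              rwa [sub_sub_sub_cancel_right] at this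
            have k4 : ((hn (vx oo up (rvw t) q - vx oo up (rvw t) (m - a)) : ℤ) : ℝ) ≤
                ((hn (vx oo up (rvw t) q - vx oo up (rvw t) (b - 1 + l)) : ℤ) : ℝ) +
                  ((hn (vx oo up (rvw t) (m - a) - vx oo up (rvw t) (b - 1 + l)) : ℤ) : ℝ) := by exact_mod_cast k3
            linarith
          have h8 := (rv_TpR hm (show a ≤ m by omega) hl').1 h7
          rwa [rvw_rvw hm hl] at h8
        · intro q hq hq2
          exact (e3.2 h4 q hq hq2).trans hR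
      rw [h6, mul_one]
    · rw [if_neg h5, mul_zero]
      positivity
  · rw [if_neg h4, mul_zero, zero_mul]
    positivity

lemma TpR_dropLast {R : ℝ} {k : ℕ} {t : List Bool} {x : Bool} (hk : k ≤ t.length) (h : TpR R k (t ++ [x])) : TpR R k t := by
  intro i hi hi2
  have := h i hi (by rw [List.length_append]; omega)
  rwa [vx_append (by omega), vx_append (by omega)] at this

/-! ### the numbers -/

/-- the numbers of the second step -/
lemma num2 {n N m i l b δ δ2 θ θ1 θ2 d2 dt c : ℝ} (hδ : 0 < δ) (hθ1 : 0 < θ1) (hθ2 : 0 < θ2) (hd2 : 0 < d2)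
    (hδ2 : 0 < δ2) (hl : 0 ≤ l) (hn : 0 ≤ n) (hm : m = i + l + b) (hmn : m ≤ n) (hmN : m ≤ N) (hi : δ * n ≤ i)
    (hb : θ1 * N ≤ b) (h1 : δ2 ≤ θ1 / 2) (h2 : δ2 ≤ δ / 4) (h3 : d2 + 3 * θ2 ≤ δ / 4) (h4 : d2 + 3 * θ2 ≤ dt / 2)
    (h5 : 16 ≤ θ1 * N) (h6 : 16 ≤ θ2 * δ * n) (h7 : θ ≤ θ2 * δ / 2) (hc1 : θ2 * m ≤ c) (hc2 : c ≤ θ2 * m + 1) :
    δ2 * m ≤ b - 1 + l ∧ b - 1 + l + c ≤ (1 - δ2) * m ∧ θ * n + b + l + 1 ≤ b - 1 + l + c ∧
      (1 + d2) * (b - 1 + l + c) ≤ dt * n + b + l := by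
  have b0 : 0 ≤ b := by linarith
  have i0 : 0 ≤ i := by
    have : 0 ≤ δ * n := by positivity
    linarith
  have m0 : 0 ≤ m := by linarith
  have hm1 : δ * n ≤ m := by linarith
  have e1 : δ2 * m ≤ θ1 * N / 2 := by
    calc δ2 * m ≤ θ1 / 2 * N := mul_le_mul h1 hmN m0 (by positivity)
      _ = θ1 * N / 2 := by ring
  have e2 : δ2 * m ≤ δ / 4 * n := mul_le_mul h2 hmn m0 (by positivity)
  have e3 : (d2 + 3 * θ2) * m ≤ δ / 4 * n := mul_le_mul h3 hmn m0 (by positivity)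
  have e4 : (d2 + 3 * θ2) * m ≤ dt / 2 * n := mul_le_mul h4 hmn m0 (by linarith)
  have e5 : θ2 * (δ * n) ≤ θ2 * m := mul_le_mul_of_nonneg_left hm1 hθ2.le
  have e6 : θ * n ≤ θ2 * δ / 2 * n := mul_le_mul_of_nonneg_right h7 hn
  have e7 : (d2 + 3 * θ2) * m = d2 * m + 3 * (θ2 * m) := by ring
  have e8 : 0 ≤ d2 * m := by positivity
  have e9 : 0 ≤ θ2 * m := by positivity
  have e10 : (1 - δ2) * m = m - δ2 * m := by ring
  have e11 : δ / 4 * n = δ * n / 4 := by ring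
  have e12 : θ2 * (δ * n) = θ2 * δ * n := by ring
  have e13 : θ2 * δ / 2 * n = θ2 * δ * n / 2 := by ring
  have e14 : dt / 2 * n = dt * n / 2 := by ring
  have hk : b - 1 + l + c ≤ (1 - δ2) * m := by
    rw [e10]
    linarith
  refine ⟨by linarith, hk, by linarith, ?_⟩
  have hk2 : b - 1 + l + c ≤ m := by
    have : 0 ≤ δ2 * m := by positivity
    linarith
  have e15 : d2 * (b - 1 + l + c) ≤ d2 * m := mul_le_mul_of_nonneg_left hk2 hd2.le
  have e16 : (1 + d2) * (b - 1 + l + c) = b - 1 + l + c + d2 * (b - 1 + l + c) := by ring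
  rw [e16]
  linarith

/-- the numbers of the first step -/
lemma num1 {n N i l δ θ θ1 d1 dt c : ℝ} (hδ : 0 < δ) (hθ1 : 0 < θ1) (hd1 : 0 < d1) (hl : 0 ≤ l) (hn : 0 ≤ n) (hNn : N ≤ n)
    (hi : δ * n ≤ i) (hN : i + l + δ * n ≤ N) (h3 : d1 + 3 * θ1 ≤ δ / 4) (h4 : d1 + 3 * θ1 ≤ dt / 2)
    (h5 : 16 ≤ θ1 * δ * n) (h7 : θ ≤ θ1 * δ) (h8 : 16 ≤ dt * n) (h9 : 16 ≤ δ * n)
    (hc1 : θ1 * N ≤ c) (hc2 : c ≤ θ1 * N + 1) :
    δ / 4 * N ≤ i + l ∧ i + l + c ≤ (1 - δ / 4) * N ∧ (1 + d1) * (i + l + c) ≤ N ∧ θ * n ≤ θ1 * N ∧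
      (1 + d1) * (i + l + c) ≤ i + l + dt * n ∧ 16 ≤ θ1 * N := by
  have N0 : δ * n ≤ N := by
    have : 0 ≤ δ * n := by positivity
    linarith
  have N00 : 0 ≤ N := by
    have : 0 ≤ δ * n := by positivity
    linarith
  have e1 : δ / 4 * N ≤ δ / 4 * n := mul_le_mul_of_nonneg_left hNn (by positivity)
  have e3 : (d1 + 3 * θ1) * N ≤ δ / 4 * n := mul_le_mul h3 hNn N00 (by positivity)
  have e4 : (d1 + 3 * θ1) * N ≤ dt / 2 * n := mul_le_mul h4 hNn N00 (by linarith)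
  have e5 : θ1 * (δ * n) ≤ θ1 * N := mul_le_mul_of_nonneg_left N0 hθ1.le
  have e6 : θ * n ≤ θ1 * δ * n := mul_le_mul_of_nonneg_right h7 hn
  have e7 : (d1 + 3 * θ1) * N = d1 * N + 3 * (θ1 * N) := by ring
  have e8 : 0 ≤ d1 * N := by positivity
  have e9 : 0 ≤ θ1 * N := by positivity
  have e10 : (1 - δ / 4) * N = N - δ / 4 * N := by ring
  have e11 : δ / 4 * n = δ * n / 4 := by ring
  have e12 : θ1 * (δ * n) = θ1 * δ * n := by ring
  have e14 : dt / 2 * n = dt * n / 2 := by ring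
  have hk : i + l + c ≤ (1 - δ / 4) * N := by
    rw [e10]
    linarith
  have hk2 : i + l + c ≤ N := by
    have : 0 ≤ δ / 4 * N := by positivity
    linarith
  have e15 : d1 * (i + l + c) ≤ d1 * N := mul_le_mul_of_nonneg_left hk2 hd1.le
  have e16 : (1 + d1) * (i + l + c) = i + l + c + d1 * (i + l + c) := by ring
  refine ⟨by linarith, hk, ?_, by linarith, ?_, by linarith⟩
  · rw [e16]
    linarith
  · rw [e16]
    linarith

/-! ### the third step -/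

/-- the hypothesis on the shorter walks -/
def Hyp (g : List Bool → ℝ) (n i l : ℕ) (θ dt R' η : ℝ) : Prop :=
  ∀ a b : ℕ, θ * n ≤ a → (a : ℝ) ≤ dt * n → θ * n ≤ b → (b : ℝ) ≤ dt * n → a % 2 = i % 2 →
    Eu (a + l + b) (fun t => g ((t.drop a).take l) * cnf R' a l t) ≤ η

/-- the right parity -/
lemma third {g : List Bool → ℝ} (g0 : ∀ t, 0 ≤ g t) {R R' R2 : ℝ} (hR : R ≤ R') (hR2 : 2 * R2 ≤ R') {n m i l b : ℕ}
    {θ dt η : ℝ} (H : Hyp g n i l θ dt R' η) (hmb : i + l + b = m) (hb1 : 1 ≤ b) (hb2 : θ * n ≤ b) (hb3 : (b : ℝ) ≤ dt * n)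
    {m' : ℕ} (hp : m' % 2 = m % 2) (h1 : b + l + 1 ≤ m') (h2 : θ * n + b + l ≤ m') (h3 : (m' : ℝ) ≤ dt * n + b + l) :
    Eu m' (fun t => gR g R b (t.take (b - 1 + l)) * (if TpR R2 (b - 1 + l) t then 1 else 0)) ≤ η := by
  obtain ⟨a, rfl⟩ : ∃ a : ℕ, m' = a + l + b := ⟨m' - (b + l), by omega⟩
  push_cast at h2 h3
  exact (step_back g0 hR hR2 rfl hb1 (by omega)).trans (H a b (by linarith) (by linarith) hb2 hb3 (by omega))

lemma fun_nonneg {g : List Bool → ℝ} (g0 : ∀ t, 0 ≤ g t) (R R2 : ℝ) (b k : ℕ) (t : List Bool) :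
    0 ≤ gR g R b (t.take k) * (if TpR R2 k t then 1 else 0) := by
  have := gR_nonneg g0 R b (t.take k)
  split_ifs
  · linarith
  · linarith

lemma fun_app {g : List Bool → ℝ} (g0 : ∀ t, 0 ≤ g t) (R R2 : ℝ) (b k : ℕ) {t : List Bool} (hk : k ≤ t.length) (x : Bool) :
    gR g R b ((t ++ [x]).take k) * (if TpR R2 k (t ++ [x]) then 1 else 0) ≤
      gR g R b (t.take k) * (if TpR R2 k t then 1 else 0) := by
  rw [List.take_append_of_le_length hk]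
  refine mul_le_mul_of_nonneg_left ?_ (gR_nonneg g0 R b _)
  by_cases h5 : TpR R2 k (t ++ [x])
  · rw [if_pos h5, if_pos (TpR_dropLast hk h5)]
  · rw [if_neg h5]
    split_ifs
    · exact zero_le_one
    · exact le_rfl

/-- the window -/
lemma third_win {g : List Bool → ℝ} (g0 : ∀ t, 0 ≤ g t) {R R' R2 : ℝ} (hR : R ≤ R') (hR2 : 2 * R2 ≤ R') {n m i l b : ℕ}
    {θ dt η C0 d2 : ℝ} (hη : 0 ≤ η) (hC0 : 1 ≤ C0) (hd2 : 0 ≤ d2)
    (hO : ∀ (m : ℕ) (f : List Bool → ℝ), (∀ t, 0 ≤ f t) → (∀ t ∈ sawF m, ∀ b : Bool, f (t ++ [b]) ≤ f t) →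
      Eu (m + 1) f ≤ C0 * Eu m f)
    (H : Hyp g n i l θ dt R' η) (hmb : i + l + b = m) (hb1 : 1 ≤ b) (hb2 : θ * n ≤ b) (hb3 : (b : ℝ) ≤ dt * n)
    (hθn : 0 < θ * n) {k' : ℕ} (h2 : θ * n + b + l + 1 ≤ k') (h3 : (1 + d2) * (k' : ℝ) ≤ dt * n + b + l) :
    wE d2 k' (fun t => gR g R b (t.take (b - 1 + l)) * (if TpR R2 (b - 1 + l) t then 1 else 0)) ≤ C0 * η := by
  refine wE_le hd2 fun m' hm' => ?_
  obtain ⟨hm1, hm2⟩ := (mem_win' hd2).1 hm'
  have hm1r : (k' : ℝ) ≤ m' := by exact_mod_cast hm1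
  have h4 : ((b + l + 1 : ℕ) : ℝ) ≤ m' := by
    push_cast
    linarith
  have h4' : b + l + 1 ≤ m' := by exact_mod_cast h4
  by_cases hp : m' % 2 = m % 2
  · exact (third g0 hR hR2 H hmb hb1 hb2 hb3 hp h4' (by linarith) (by linarith)).trans (le_mul_of_one_le_left hη hC0)
  · obtain ⟨q, rfl⟩ : ∃ q, m' = q + 1 := ⟨m' - 1, by omega⟩
    push_cast at hm1r hm2
    have hqr : θ * n + b + l ≤ q := by linarith
    have h5 : ((b + l : ℕ) : ℝ) < q := by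
      push_cast
      linarith
    have h6 : b + l < q := by exact_mod_cast h5
    exact (hO q _ (fun t => fun_nonneg g0 R R2 b _ t) fun t ht x => fun_app g0 R R2 b (b - 1 + l)
      (by rw [len_of ht]; omega) x).trans (mul_le_mul_of_nonneg_left
        (third g0 hR hR2 H hmb hb1 hb2 hb3 (by omega) h6 hqr (by linarith)) (by linarith))

/-- the one-sided statement for one set of constants -/
def Tip1 (ε κ δ d θ C : ℝ) (n0 : ℕ) : Prop :=
  ∀ n k1 k : ℕ, n0 ≤ n → δ * n ≤ k1 → (k1 : ℝ) + θ * n ≤ k → (k : ℝ) ≤ k1 + 2 * θ * n + 2 →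
    (k : ℝ) ≤ (1 - δ) * n → ∀ g : List Bool → ℝ, (∀ t, 0 ≤ g t) → (∀ t, g t ≤ 1) →
      Eu n (fun t => g (t.take k1)) ≤
        C * wE d k (fun t => g (t.take k1) * (if TpR (κ * (n : ℝ) ^ (3 / 4 : ℝ)) k1 t then 1 else 0)) + ε

/-- the second step -/
lemma second {g : List Bool → ℝ} (g0 : ∀ t, 0 ≤ g t) (g1 : ∀ t, g t ≤ 1) {κ R : ℝ} (hκ : 0 < κ) {n m i l b N : ℕ}
    (hR : R ≤ κ * (n : ℝ) ^ (3 / 4 : ℝ)) {ε δ δ2 θ θ1 θ2 d2 dt η C0 C2 : ℝ} {n2 : ℕ} (hη : 0 ≤ η) (hC0 : 1 ≤ C0)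
    (hC2 : 0 ≤ C2)
    (hO : ∀ (m : ℕ) (f : List Bool → ℝ), (∀ t, 0 ≤ f t) → (∀ t ∈ sawF m, ∀ b : Bool, f (t ++ [b]) ≤ f t) →
      Eu (m + 1) f ≤ C0 * Eu m f)
    (hT : Tip1 ε (κ / 2) δ2 d2 θ2 C2 n2)
    (H : Hyp g n i l θ dt (κ * (n : ℝ) ^ (3 / 4 : ℝ)) η) (hmb : i + l + b = m) (hn2 : n2 ≤ m)
    (hδ : 0 < δ) (hθ1 : 0 < θ1) (hθ2 : 0 < θ2) (hd2 : 0 < d2) (hδ2 : 0 < δ2) (hθn : 0 < θ * n) (hmn : m ≤ n) (hmN : m ≤ N)
    (hi : δ * n ≤ i) (hb : θ1 * N ≤ b) (hb2 : θ * n ≤ b) (hb3 : (b : ℝ) ≤ dt * n) (h1 : δ2 ≤ θ1 / 2) (h2 : δ2 ≤ δ / 4)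
    (h3 : d2 + 3 * θ2 ≤ δ / 4) (h4 : d2 + 3 * θ2 ≤ dt / 2) (h5 : 16 ≤ θ1 * N) (h6 : 16 ≤ θ2 * δ * n)
    (h7 : θ ≤ θ2 * δ / 2) :
    Eu m (fun t => gR g R b (t.take (b - 1 + l))) ≤ C2 * (C0 * η) + ε := by
  have hb1 : 1 ≤ b := by
    have : (0 : ℝ) < b := by linarith
    exact_mod_cast this
  have hmr : (m : ℝ) = i + l + b := by rw [← hmb]; push_cast; ring
  have hmn' : (m : ℝ) ≤ n := by exact_mod_cast hmn
  have hmN' : (m : ℝ) ≤ N := by exact_mod_cast hmN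
  have hm0 : (0 : ℝ) ≤ m := Nat.cast_nonneg m
  have hc1 : θ2 * m ≤ (⌈θ2 * m⌉₊ : ℝ) := Nat.le_ceil _
  have hc2 : (⌈θ2 * m⌉₊ : ℝ) ≤ θ2 * m + 1 := (Nat.ceil_lt_add_one (by positivity)).le
  obtain ⟨q1, q2, q3, q4⟩ := num2 hδ hθ1 hθ2 hd2 hδ2 (Nat.cast_nonneg l) (Nat.cast_nonneg n) hmr hmn' hmN' hi hb h1 h2 h3 h4
    h5 h6 h7 hc1 hc2
  have hk1 : ((b - 1 + l : ℕ) : ℝ) = b - 1 + l := by
    rw [Nat.cast_add, Nat.cast_sub hb1, Nat.cast_one]
  have hk : ((b - 1 + l + ⌈θ2 * m⌉₊ : ℕ) : ℝ) = b - 1 + l + (⌈θ2 * m⌉₊ : ℝ) := by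
    rw [Nat.cast_add, hk1]
  have hθm : 0 ≤ θ2 * m := by positivity
  refine (hT m (b - 1 + l) (b - 1 + l + ⌈θ2 * m⌉₊) hn2 (by rw [hk1]; exact q1) (by rw [hk, hk1]; linarith)
    (by rw [hk, hk1]; linarith) (by rw [hk]; exact q2) (gR g R b) (gR_nonneg g0 R b) (gR_le_one g1 R b)).trans ?_
  refine add_le_add (mul_le_mul_of_nonneg_left ?_ hC2) le_rfl
  have hR2 : 2 * (κ / 2 * (m : ℝ) ^ (3 / 4 : ℝ)) ≤ κ * (n : ℝ) ^ (3 / 4 : ℝ) := by
    have : (m : ℝ) ^ (3 / 4 : ℝ) ≤ (n : ℝ) ^ (3 / 4 : ℝ) := Real.rpow_le_rpow hm0 hmn' (by norm_num)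
    have := mul_le_mul_of_nonneg_left this hκ.le
    linarith
  exact third_win g0 hR hR2 hη hC0 hd2.le hO H hmb hb1 hb2 hb3 hθn (by rw [hk]; exact q3) (by rw [hk]; exact q4)

/-- the first step -/
lemma first {g : List Bool → ℝ} (g0 : ∀ t, 0 ≤ g t) (g1 : ∀ t, g t ≤ 1) {κ : ℝ} (hκ : 0 < κ) {n N i l : ℕ}
    {ε ε2 δ δ2 θ θ1 θ2 d1 d2 dt η C0 C1 C2 : ℝ} {n1 n2 : ℕ} (hη : 0 ≤ η) (hC0 : 1 ≤ C0) (hC1 : 0 ≤ C1) (hC2 : 0 ≤ C2)
    (hO : ∀ (m : ℕ) (f : List Bool → ℝ), (∀ t, 0 ≤ f t) → (∀ t ∈ sawF m, ∀ b : Bool, f (t ++ [b]) ≤ f t) →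
      Eu (m + 1) f ≤ C0 * Eu m f)
    (hT1 : Tip1 ε (κ / 2) (δ / 4) d1 θ1 C1 n1) (hT2 : Tip1 ε2 (κ / 2) δ2 d2 θ2 C2 n2)
    (H : Hyp g n i l θ dt (κ * (n : ℝ) ^ (3 / 4 : ℝ)) η) (hn1 : n1 ≤ N) (hn2 : (n2 : ℝ) ≤ δ * n)
    (hδ : 0 < δ) (hθ1 : 0 < θ1) (hθ2 : 0 < θ2) (hd1 : 0 < d1) (hd2 : 0 < d2) (hδ2 : 0 < δ2) (hθn : 0 < θ * n) (hNn : N ≤ n)
    (hi : δ * n ≤ i) (hN : (i : ℝ) + l + δ * n ≤ N) (h1 : δ2 ≤ θ1 / 2) (h2 : δ2 ≤ δ / 4)
    (h3 : d1 + 3 * θ1 ≤ δ / 4) (h4 : d1 + 3 * θ1 ≤ dt / 2) (h3' : d2 + 3 * θ2 ≤ δ / 4) (h4' : d2 + 3 * θ2 ≤ dt / 2)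
    (h5 : 16 ≤ θ1 * δ * n) (h6 : 16 ≤ θ2 * δ * n) (h7 : θ ≤ θ2 * δ / 2) (h8 : θ ≤ θ1 * δ) (h9 : 16 ≤ dt * n)
    (h10 : 16 ≤ δ * n) :
    Eu N (fun t => g ((t.drop i).take l)) ≤ C1 * (C2 * (C0 * η) + ε2) + ε := by
  have hNr : (N : ℝ) ≤ n := by exact_mod_cast hNn
  have hN0 : (0 : ℝ) ≤ N := Nat.cast_nonneg N
  have hc1 : θ1 * N ≤ (⌈θ1 * N⌉₊ : ℝ) := Nat.le_ceil _
  have hc2 : (⌈θ1 * N⌉₊ : ℝ) ≤ θ1 * N + 1 := (Nat.ceil_lt_add_one (by positivity)).le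
  obtain ⟨q1, q2, q3, q4, q5, q6⟩ := num1 hδ hθ1 hd1 (Nat.cast_nonneg l) (Nat.cast_nonneg n) hNr hi hN h3 h4 h5 h8 h9 h10
    hc1 hc2
  have hk1 : ((i + l : ℕ) : ℝ) = i + l := Nat.cast_add _ _
  have hk : ((i + l + ⌈θ1 * N⌉₊ : ℕ) : ℝ) = i + l + (⌈θ1 * N⌉₊ : ℝ) := by rw [Nat.cast_add, hk1]
  have hθN : 0 ≤ θ1 * N := by positivity
  have e0 : Eu N (fun t => g ((t.drop i).take l)) = Eu N (fun t => g ((t.take (i + l)).drop i)) := by
    congr 1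
    funext t
    rw [List.drop_take, Nat.add_sub_cancel_left]
  rw [e0]
  refine (hT1 N (i + l) (i + l + ⌈θ1 * N⌉₊) hn1 (by rw [hk1]; exact q1) (by rw [hk, hk1]; linarith)
    (by rw [hk, hk1]; linarith) (by rw [hk]; exact q2) (fun T => g (T.drop i)) (fun _ => g0 _) (fun _ => g1 _)).trans ?_
  refine add_le_add (mul_le_mul_of_nonneg_left ?_ hC1) le_rfl
  refine wE_le hd1.le fun m hm => ?_
  obtain ⟨hm1, hm2⟩ := (mem_win' hd1.le).1 hm
  have hm1r : i + l + (⌈θ1 * N⌉₊ : ℝ) ≤ m := by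
    rw [← hk]
    exact_mod_cast hm1
  rw [hk] at hm2
  obtain ⟨b, hmb⟩ : ∃ b : ℕ, i + l + b = m := ⟨m - (i + l), by omega⟩
  have hmr : (m : ℝ) = i + l + b := by rw [← hmb]; push_cast; ring
  have hmN : m ≤ N := by
    have : (m : ℝ) ≤ N := hm2.trans q3
    exact_mod_cast this
  have hb : θ1 * N ≤ b := by linarith
  have hb1 : 1 ≤ b := by
    have : (0 : ℝ) < b := by linarith
    exact_mod_cast this
  have hR : κ / 2 * (N : ℝ) ^ (3 / 4 : ℝ) ≤ κ * (n : ℝ) ^ (3 / 4 : ℝ) := by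
    have : (N : ℝ) ^ (3 / 4 : ℝ) ≤ (n : ℝ) ^ (3 / 4 : ℝ) := Real.rpow_le_rpow hN0 hNr (by norm_num)
    have h11 := mul_le_mul_of_nonneg_left this hκ.le
    have h12 : 0 ≤ κ * (n : ℝ) ^ (3 / 4 : ℝ) := by positivity
    linarith
  have hl0 : (0 : ℝ) ≤ l := Nat.cast_nonneg l
  have hb0 : (0 : ℝ) ≤ b := Nat.cast_nonneg b
  have hn2m : n2 ≤ m := by
    have : (n2 : ℝ) ≤ m := by linarith
    exact_mod_cast this
  have e1 := step_rev (g := g) (R := κ / 2 * (N : ℝ) ^ (3 / 4 : ℝ)) hmb hb1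
  show Eu m (fun t => g ((t.take (i + l)).drop i) * (if TpR (κ / 2 * (N : ℝ) ^ (3 / 4 : ℝ)) (i + l) t then 1 else 0)) ≤ _
  rw [e1]
  exact second g0 g1 hκ hR hη hC0 hC2 hO hT2 H hmb hn2m hδ hθ1 hθ2 hd2 hδ2 hθn (hmN.trans hNn) hmN hi hb (by linarith)
    (by linarith) h1 h2 h3' h4' q6 h6 h7

/-- large numbers -/
lemma large (a : ℝ) {x : ℝ} (hx : 0 < x) : ∃ n0 : ℕ, ∀ n : ℕ, n0 ≤ n → a ≤ x * n := by
  obtain ⟨n0, hn0⟩ := exists_nat_ge (a / x)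
  refine ⟨n0, fun n hn => ?_⟩
  have h1 : a / x ≤ n := hn0.trans (by exact_mod_cast hn)
  rw [div_le_iff₀ hx] at h1
  linarith

/-- **a piece in the middle** -/
theorem s2mid_of (hS : S2tip) : S2mid := by
  intro ε κ δ dt hε hκ hδ hdt
  obtain ⟨C0, hC0, hO⟩ := one_letter
  obtain ⟨t1, ht1⟩ : ∃ x : ℝ, x = min (δ / 4) (dt / 2) := ⟨_, rfl⟩
  have ht1p : 0 < t1 := by rw [ht1]; positivity
  have ht1a : t1 ≤ δ / 4 := by rw [ht1]; exact min_le_left _ _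
  have ht1b : t1 ≤ dt / 2 := by rw [ht1]; exact min_le_right _ _
  obtain ⟨d1, θ1, C1, n1, hd1, hθ1, hC1, hdt1, h1⟩ := hS (ε / 2) (κ / 2) (δ / 4) t1 (by positivity) (by positivity)
    (by positivity) ht1p
  obtain ⟨δ2, hδ2⟩ : ∃ x : ℝ, x = min (θ1 / 2) (δ / 4) := ⟨_, rfl⟩
  have hδ2p : 0 < δ2 := by rw [hδ2]; positivity
  have hδ2a : δ2 ≤ θ1 / 2 := by rw [hδ2]; exact min_le_left _ _
  have hδ2b : δ2 ≤ δ / 4 := by rw [hδ2]; exact min_le_right _ _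
  obtain ⟨d2, θ2, C2, n2, hd2, hθ2, hC2, hdt2, h2⟩ := hS (ε / (2 * (C1 + 1))) (κ / 2) δ2 t1 (by positivity) (by positivity)
    hδ2p ht1p
  obtain ⟨θ, hθ⟩ : ∃ x : ℝ, x = min (θ2 * δ / 2) (θ1 * δ) := ⟨_, rfl⟩
  have hθp : 0 < θ := by rw [hθ]; positivity
  have hθa : θ ≤ θ2 * δ / 2 := by rw [hθ]; exact min_le_left _ _
  have hθb : θ ≤ θ1 * δ := by rw [hθ]; exact min_le_right _ _
  obtain ⟨m1, hm1⟩ := large (n1 + n2) hδ
  obtain ⟨m2, hm2⟩ := large 16 hδ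
  obtain ⟨m3, hm3⟩ := large 16 (show 0 < θ1 * δ by positivity)
  obtain ⟨m4, hm4⟩ := large 16 (show 0 < θ2 * δ by positivity)
  obtain ⟨m5, hm5⟩ := large 16 hdt
  refine ⟨θ, C1 * (C2 * C0), m1 + m2 + m3 + m4 + m5 + 1, hθp, by positivity,
    fun n N i l hn hNn hi hN g η g0 g1 hη H => ?_⟩
  have q1 := hm1 n (by omega)
  have hn0 : (0 : ℝ) < n := by exact_mod_cast (by omega : 0 < n)
  have hn1N : n1 ≤ N := by
    have a1 : (0 : ℝ) ≤ n2 := Nat.cast_nonneg n2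
    have a2 : (0 : ℝ) ≤ l := Nat.cast_nonneg l
    have a3 : (0 : ℝ) ≤ i := Nat.cast_nonneg i
    have : (n1 : ℝ) ≤ N := by linarith
    exact_mod_cast this
  have hn2 : (n2 : ℝ) ≤ δ * n := by
    have a1 : (0 : ℝ) ≤ n1 := Nat.cast_nonneg n1
    linarith
  have key := first g0 g1 hκ hη hC0 hC1 hC2 hO h1 h2 H hn1N hn2 hδ hθ1 hθ2 hd1 hd2 hδ2p (by positivity) hNn hi hN hδ2a hδ2b
    (hdt1.trans ht1a) (hdt1.trans ht1b) (hdt2.trans ht1a) (hdt2.trans ht1b) (hm3 n (by omega)) (hm4 n (by omega)) hθa hθb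
    (hm5 n (by omega)) (hm2 n (by omega))
  refine key.trans ?_
  have hC1e : C1 * (ε / (2 * (C1 + 1))) ≤ ε / 2 := by
    rw [← mul_div_assoc, div_le_div_iff₀ (by positivity) (by norm_num)]
    nlinarith
  have e3 : C1 * (C2 * (C0 * η) + ε / (2 * (C1 + 1))) = C1 * (C2 * C0) * η + C1 * (ε / (2 * (C1 + 1))) := by ring
  rw [e3]
  linarith

end S2

end Pool.Agent.ROT.F3
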