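import Pool.Agent.ROT.W4Pol
import Pool.Agent.ROT.F3S2C
import Pool.Agent.ROT.F3S2D
import Pool.Agent.ROT.F3AcTF

/-!
# ROT, row W4 (helper95): middle windows of the free words and of the polygons, no hypothesis

* `s2mid` : 85's `S2mid`;
* `cnf_le` : the two forms of the indicator of the confined ends;
* **`s2H`** : 14's `S2H` for `P = cnf (κ n ^ (3 / 4))`, every `κ`, `dt`, `ε`, `δ`;
* **`pol_u`** : 14's `pol_of` without hypotheses.
-/

set_option autoImplicit false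

open scoped Classical

namespace Pool.Agent.ROT.W4

open Finset

open Pool.Agent.PMA Pool.Agent.PMA.Res Pool.Agent.NTS.Res

open HexObs hiding pos turn

open HexObs.SDN HexObs.TS HexObs.TIW HexObs.POLP HexObs.MCP

open NTF (sw aa de Ed JJ)

/-- 85's domination of middle windows -/
theorem s2mid : F3.S2mid := F3.S2.s2mid_of (F3.S2.s2tip_of Pool.Agent.RMP.acT)

/-- the confined ends, the two norms -/
lemma cnf_le (R : ℝ) (a l : ℕ) (t : List Bool) : F3.cnf R a l t ≤ cnfW R a l t := by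
  unfold F3.cnf cnfW
  by_cases h : F3.HdR R a t ∧ F3.TpR R (a + l) t
  · rw [if_pos h, if_pos ⟨fun j hj => (HexObs.MCP.JJ_le_hn _).trans (h.1 j hj),
      fun j hj hj2 => (HexObs.MCP.JJ_le_hn _).trans (h.2 j hj hj2)⟩]
  · rw [if_neg h]
    split_ifs
    · exact zero_le_one
    · exact le_rfl

/-- **middle windows of the free words**, both ends confined in a ball with any small radius -/
theorem s2H {κ dt : ℝ} (hκ : 0 < κ) (hdt : 0 < dt) {ε δ : ℝ} (hε : 0 < ε) (hδ : 0 < δ) :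
    S2H (fun n a l t => F3.cnf (κ * (n : ℝ) ^ (3 / 4 : ℝ)) a l t) ε δ dt := by
  obtain ⟨θ, C, n0, hθ, hC, h⟩ := s2mid ε κ δ dt hε hκ hδ hdt
  refine ⟨θ, C + 1, n0, hθ, by linarith, fun n N i l hn hN hi hl g g0 g1 η hη hg => ?_⟩
  have h1 := h n N i l hn hN hi hl g η g0 g1 hη fun a b a1 a2 b1 b2 hp => hg a b a1 a2 b1 b2 (by
    rw [Nat.even_iff, Nat.even_iff, hp])
  linarith

/-- **windows of the polygons**, no hypothesis -/
theorem pol_u {κ dt ε c : ℝ} (hκ : 0 < κ) (hdt : 0 < dt) (hε : 0 < ε) (hc : 0 < c) :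
    ∃ (θ C : ℝ) (n0 : ℕ), 0 < θ ∧ 0 < C ∧ ∀ n : ℕ, n0 ≤ n → Odd n → ∀ i l : ℕ, i + l < n → (l : ℝ) ≤ (1 - c) * n →
      ∀ g : List Bool → ℝ, (∀ L, 0 ≤ g L) → (∀ L, g L ≤ 1) → ∀ η : ℝ, 0 ≤ η →
        (∀ a b : ℕ, θ * n ≤ a → (a : ℝ) ≤ dt * n → θ * n ≤ b → (b : ℝ) ≤ dt * n → Even a →
          ∑ s ∈ saw (a + l + b), g (tl s a l) * cnfS (κ * (n : ℝ) ^ (3 / 4 : ℝ)) a l s ≤ η * ((saw (a + l + b)).card : ℝ)) →
            ∑ s ∈ pol n, g (tl s i l) ≤ (C * η + ε) * ((pol n).card : ℝ) :=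
  pol_of (P := fun n a l t => F3.cnf (κ * (n : ℝ) ^ (3 / 4 : ℝ)) a l t) (fun _ _ h1 h2 => s2H hκ hdt h1 h2)
    (fun _ _ _ _ => cnf_le _ _ _ _) hε hc

end Pool.Agent.ROT.W4

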