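import Pool.Agent.ROT.F3K7Sa
import Pool.Agent.ROT.W4E
import Pool.Agent.ROT.W4H
import Pool.Agent.ROT.W4C

/-!
# ROT, block F3, row K7 (LOC): the strands of the polygons (helper66)

* `GdX` : a strand with a modulus of continuity and a good completion; **`gdX_near`** : two such strands with close pieces: `PcS`;
* **`strand_pol`** : the beginnings of all but few polygons are good.
-/

set_option autoImplicit false

open Set Filter Topology MeasureTheory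

namespace Pool.Agent.ROT.F3.K7

open Pool.Agent.NTS.Res (step pos saw fug size curve)
open Pool.Agent.PMA.Res (pol)
open Pool.Agent.CRT (CI)
open Pool.Agent.SCF.Z Pool.Agent.SCF.M

/-- **a good strand** : modulus of continuity and a good completion -/
def GdX (R S κ K0 η ω : ℝ) (n0 : ℕ) (Bad : ∀ n : ℕ, ℝ → (Fin n → Fin 3) → Prop) {l : ℕ} (X : Fin l → Fin 3) : Prop :=
  1 < R * S ∧ ω * size l ≤ R * S ∧ Md η ω X ∧ ∃ (a b : ℕ) (t : Fin (a + l + b) → Fin 3), Cpl (R / 32 * S) X a b t ∧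
    n0 ≤ a + l + b ∧ size (a + l + b) / K0 ≤ S ∧ S ≤ K0 * size (a + l + b) ∧ κ * ((a + l + b : ℕ) : ℝ) + 1 ≤ l ∧
    κ * ((a + l + b : ℕ) : ℝ) + 1 ≤ η * l ∧
    ¬ (Bad (a + l + b) S t ∧ 0 < zc κ (1000 * R * (S / size (a + l + b))) (curve t))

/-- a good strand which ends far away has a completion outside of `Bad` -/
lemma gdX_cpl {R S κ K0 η ω : ℝ} {n0 : ℕ} {Bad : ∀ n : ℕ, ℝ → (Fin n → Fin 3) → Prop} {l : ℕ} {X : Fin l → Fin 3} (hR : 0 < R)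
    (hS : 0 < S) (hκ : 0 ≤ κ) (h : GdX R S κ K0 η ω n0 Bad X) (hE : 1003 * (R * S) ≤ ‖pos X l‖) :
    ∃ (a b : ℕ) (t : Fin (a + l + b) → Fin 3), Cpl (R / 32 * S) X a b t ∧ n0 ≤ a + l + b ∧ size (a + l + b) / K0 ≤ S ∧
      S ≤ K0 * size (a + l + b) ∧ ¬ Bad (a + l + b) S t := by
  obtain ⟨hRS, hω, hmd, a, b, t, hC, h1, h2, h3, h4, h5, h6⟩ := h
  refine ⟨a, b, t, hC, h1, h2, h3, fun hb => h6 ⟨hb, ?_⟩⟩
  refine cpl_zc hC hR hRS le_rfl hS (h4.trans (by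
    have := Nat.cast_nonneg (α := ℝ) b
    linarith)) (fun k hk hlk => ?_) hκ
  have h7 := hmd k l hk le_rfl (hlk.trans h5)
  have h8 := norm_sub_norm_le (pos X l) (pos X l - pos X k)
  rw [sub_sub_cancel] at h8
  linarith

/-- **two good strands with close pieces** -/
theorem gdX_near {R S κ K0 η ω β ν θ KK δ : ℝ} {n0 : ℕ} {Bad : ∀ n : ℕ, ℝ → (Fin n → Fin 3) → Prop} (hR : 0 < R) (hS : 0 < S)
    (hκ : 0 ≤ κ) (H : ∀ (n n' : ℕ) (s : Fin n → Fin 3) (s' : Fin n' → Fin 3) (S : ℝ) (i i' m m' : ℕ), n0 ≤ n → n0 ≤ n' → ¬ Bad n S s →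
      ¬ Bad n' S s' → size n / K0 ≤ S → S ≤ K0 * size n → size n' / K0 ≤ S → S ≤ K0 * size n' → Pie R S s i m → Pie R S s' i' m' →
      dist (XS S (md s i m)) (XS S (md s' i' m')) ≤ δ → PcS β ν θ KK R S (md s i m) (md s' i' m'))
    {l l' : ℕ} {X : Fin l → Fin 3} {X' : Fin l' → Fin 3} (h : GdX R S κ K0 η ω n0 Bad X) (h' : GdX R S κ K0 η ω n0 Bad X')
    (hE : 1003 * (R * S) ≤ ‖pos X l‖) (hE' : 1003 * (R * S) ≤ ‖pos X' l'‖) {i m i' m' : ℕ} (P : PieX R S X i m)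
    (P' : PieX R S X' i' m') (hX : dist (XS S (md X i m)) (XS S (md X' i' m')) ≤ δ) :
    PcS β ν θ KK R S (md X i m) (md X' i' m') := by
  obtain ⟨a, b, t, hC, h1, h2, h3, h4⟩ := gdX_cpl hR hS hκ h hE
  obtain ⟨a', b', t', hC', h1', h2', h3', h4'⟩ := gdX_cpl hR hS hκ h' hE'
  have e := cpl_md hC P.hm
  have e' := cpl_md hC' P'.hm
  have key := H (a + l + b) (a' + l' + b') t t' S (a + i) (a' + i') m m' h1 h1' h4 h4' h2 h3 h2' h3' (cpl_pie hC hR hS le_rfl P)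
    (cpl_pie hC' hR hS le_rfl P') (by rw [e, e']; exact hX)
  rwa [e, e'] at key

/-- **the good strands of the closed words** -/
def GdP (R S κ K0 η ω : ℝ) (n0 : ℕ) (Bad : ∀ n : ℕ, ℝ → (Fin n → Fin 3) → Prop) (j : ℕ) (v : W3) : Prop :=
  ∀ (l : ℕ) (X : Fin l → Fin 3), l = j → (∀ k : ℕ, k ≤ l → pos X k = ps v k) → GdX R S κ K0 η ω n0 Bad X

open Classical in
/-- **the beginnings of all but few polygons are good** -/
theorem strand_pol {R δ0 K1 ε ν : ℝ} (hR : 0 < R) (hδ0 : 0 < δ0) (hK1 : 0 < K1) (hε : 0 < ε) (hν : 0 < ν) :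
    ∃ β KK θ1 : ℝ, 0 < β ∧ 1 ≤ KK ∧ 0 < θ1 ∧ ∀ θ : ℝ, 0 < θ → θ ≤ θ1 →
      ∃ (δ κ K0 η ω : ℝ) (n0 n1 : ℕ) (Bad : ∀ n : ℕ, ℝ → (Fin n → Fin 3) → Prop), 0 < δ ∧ 0 ≤ κ ∧
        (∀ (n j : ℕ) (S : ℝ), n1 ≤ n → Odd n → Even j → δ0 * n ≤ j → (j : ℝ) ≤ (1 - δ0) * n → S ≤ K1 * (n : ℝ) ^ (3 / 4 : ℝ) →
          (n : ℝ) ^ (3 / 4 : ℝ) ≤ K1 * S →
            (((pol n).filter fun s => ¬ GdP R S κ K0 η ω n0 Bad j (clw s)).card : ℝ) ≤ ε * ((pol n).card : ℝ)) ∧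
        ∀ (n n' : ℕ) (s : Fin n → Fin 3) (s' : Fin n' → Fin 3) (S : ℝ) (i i' m m' : ℕ), n0 ≤ n → n0 ≤ n' → ¬ Bad n S s →
          ¬ Bad n' S s' → size n / K0 ≤ S → S ≤ K0 * size n → size n' / K0 ≤ S → S ≤ K0 * size n' → Pie R S s i m → Pie R S s' i' m' →
          dist (XS S (md s i m)) (XS S (md s' i' m')) ≤ δ → PcS β ν θ KK R S (md s i m) (md s' i' m') := by
  obtain ⟨c, C, hc, hC, hsz⟩ := size34
  -- the modulus
  obtain ⟨ω, hω⟩ : ∃ ω : ℝ, ω = R / (C * K1) := ⟨_, rfl⟩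
  have hω0 : 0 < ω := by rw [hω]; positivity
  obtain ⟨η, nm, hη, hmd⟩ := md_take (ε := ε / 4) (ω := ω) (δ := δ0) (by positivity) hω0 hδ0
  -- the cut-off
  obtain ⟨κ, hκ0, hκ1, hκ2, hκ3⟩ : ∃ κ : ℝ, 0 < κ ∧ κ < 1 ∧ κ ≤ η * δ0 / 8 ∧ κ ≤ δ0 / 8 :=
    ⟨min (1 / 2) (min (η * δ0 / 8) (δ0 / 8)), lt_min (by norm_num) (lt_min (by positivity) (by positivity)),
      (min_le_left _ _).trans_lt (by norm_num), (min_le_right _ _).trans (min_le_left _ _), (min_le_right _ _).trans (min_le_right _ _)⟩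
  -- completions
  obtain ⟨κc, hκc⟩ : ∃ κc : ℝ, κc = R / 32 / K1 := ⟨_, rfl⟩
  have hκc0 : 0 < κc := by rw [hκc]; positivity
  obtain ⟨θc, Cc, nc, hθc, hCc, hcomp⟩ := W4.comp_of (P := fun n a l t => cnf (κc * (n : ℝ) ^ (3 / 4 : ℝ)) a l t) (κ := κc) (dt := 1)
    (fun _ _ h1 h2 => W4.s2H hκc0 one_pos h1 h2) (fun _ _ _ _ => W4.cnf_le _ _ _ _) (ε := ε / 4) (c := δ0) (by positivity) hδ0
  -- the ranges of the unit
  obtain ⟨K0, hK01, hK02, hK03⟩ : ∃ K0 : ℝ, 1 ≤ K0 ∧ 3 * C * K1 ≤ K0 ∧ K1 / (δ0 ^ (3 / 4 : ℝ) * c) ≤ K0 :=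
    ⟨max 1 (max (3 * C * K1) (K1 / (δ0 ^ (3 / 4 : ℝ) * c))), le_max_left _ _, (le_max_left _ _).trans (le_max_right _ _),
      (le_max_right _ _).trans (le_max_right _ _)⟩
  have hK00 : 0 < K0 := by linarith
  have hδp : 0 < δ0 ^ (3 / 4 : ℝ) := by positivity
  obtain ⟨β, KK, θ1, hβ, hKK, hθ1, H⟩ := geoX (ε := ε / (12 * Cc)) hR hκ0 hκ1 hK01 (by positivity) hν
  refine ⟨β, KK, θ1, hβ, hKK, hθ1, fun θ hθ hθ' => ?_⟩
  obtain ⟨δ, n0, Bad, hδ, hB1, hB2⟩ := H θ hθ hθ'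
  -- large numbers
  obtain ⟨na, hna⟩ := exists_nat_ge ((n0 + 1) / δ0)
  obtain ⟨nb, hnb⟩ := exists_nat_ge (8 / δ0)
  obtain ⟨nd, hnd⟩ := exists_nat_ge (8 / (η * δ0))
  obtain ⟨ne, hne⟩ : ∃ ne : ℕ, ∀ n : ℕ, ne ≤ n → K1 * (2 / R) ≤ (n : ℝ) ^ (3 / 4 : ℝ) :=
    eventually_atTop.1 (((tendsto_rpow_atTop (by norm_num)).comp tendsto_natCast_atTop_atTop).eventually_ge_atTop (K1 * (2 / R)))
  refine ⟨δ, κ, K0, η, ω, n0, na + nb + nd + ne + nm + nc + 1, Bad, hδ, hκ0.le, fun n j S hn ho hej hj1 hj2 hS1 hS2 => ?_, hB2⟩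
  have hn1 : 1 ≤ n := by omega
  have hn0 : (0 : ℝ) < n := by exact_mod_cast hn1
  have hnp : 0 < (n : ℝ) ^ (3 / 4 : ℝ) := by positivity
  have hS0 : 0 < S := by
    by_contra hcon
    push Not at hcon
    have := mul_nonneg_of_nonpos_of_nonpos (a := -K1) (b := S) (by linarith) hcon
    nlinarith
  have hjn : j < n := by
    have h1 : (j : ℝ) < n := by
      have := mul_pos hδ0 hn0
      linarith
    exact_mod_cast h1
  have hjd : (n0 + 1 : ℝ) ≤ j := by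
    refine le_trans ?_ hj1
    have h1 : ((n0 : ℝ) + 1) / δ0 ≤ n := hna.trans (by exact_mod_cast (by omega : na ≤ n))
    rw [div_le_iff₀ hδ0] at h1
    linarith
  have hj0 : n0 + 1 ≤ j := by exact_mod_cast hjd
  have hj8 : 8 ≤ δ0 * n := by
    have h1 : 8 / δ0 ≤ n := hnb.trans (by exact_mod_cast (by omega : nb ≤ n))
    rw [div_le_iff₀ hδ0] at h1
    linarith
  have hj9 : 8 ≤ η * (δ0 * n) := by
    have h1 : 8 / (η * δ0) ≤ n := hnd.trans (by exact_mod_cast (by omega : nd ≤ n))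
    rw [div_le_iff₀ (by positivity)] at h1
    linarith
  have hRS : 1 < R * S := by
    have h1 := (hne n (by omega)).trans hS2
    have h2 : 2 / R ≤ S := le_of_mul_le_mul_left h1 hK1
    rw [div_le_iff₀ hR] at h2
    linarith
  have hωj : ∀ l : ℕ, 1 ≤ l → l ≤ n → ω * size l ≤ R * S := by
    intro l h1 h2
    have h3 : size l ≤ C * (K1 * S) := by
      refine (hsz l h1).2.trans (mul_le_mul_of_nonneg_left (le_trans ?_ hS2) hC.le)
      exact Real.rpow_le_rpow (Nat.cast_nonneg _) (by exact_mod_cast h2) (by norm_num)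
    calc ω * size l ≤ ω * (C * (K1 * S)) := mul_le_mul_of_nonneg_left h3 hω0.le
      _ = R * S := by rw [hω]; field_simp
  have hcc : κc * (n : ℝ) ^ (3 / 4 : ℝ) ≤ R / 32 * S := by
    calc κc * (n : ℝ) ^ (3 / 4 : ℝ) ≤ κc * (K1 * S) := mul_le_mul_of_nonneg_left hS2 hκc0.le
      _ = R / 32 * S := by rw [hκc]; field_simp
  -- the ranges of the completions
  have hrg : ∀ a b : ℕ, (a : ℝ) ≤ 1 * n → (b : ℝ) ≤ 1 * n → ((a + j + b : ℕ) : ℝ) ≤ 3 * n ∧ n0 ≤ a + j + b ∧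
      size (a + j + b) / K0 ≤ S ∧ S ≤ K0 * size (a + j + b) := by
    intro a b ha hb
    have h1 : ((a + j + b : ℕ) : ℝ) ≤ 3 * n := by
      push_cast
      have : (j : ℝ) ≤ n := by exact_mod_cast hjn.le
      linarith
    have h2 : 1 ≤ a + j + b := by omega
    have h3 := hsz (a + j + b) h2
    refine ⟨h1, by omega, ?_, ?_⟩
    · rw [div_le_iff₀ hK00]
      have h4 : ((a + j + b : ℕ) : ℝ) ^ (3 / 4 : ℝ) ≤ 3 * (n : ℝ) ^ (3 / 4 : ℝ) := by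
        refine (Real.rpow_le_rpow (Nat.cast_nonneg _) h1 (by norm_num)).trans ?_
        rw [Real.mul_rpow (by norm_num) hn0.le]
        refine mul_le_mul_of_nonneg_right ?_ hnp.le
        calc (3 : ℝ) ^ (3 / 4 : ℝ) ≤ (3 : ℝ) ^ (1 : ℝ) := Real.rpow_le_rpow_of_exponent_le (by norm_num) (by norm_num)
          _ = 3 := Real.rpow_one 3
      calc size (a + j + b) ≤ C * ((a + j + b : ℕ) : ℝ) ^ (3 / 4 : ℝ) := h3.2
        _ ≤ C * (3 * (K1 * S)) := mul_le_mul_of_nonneg_left (h4.trans (mul_le_mul_of_nonneg_left hS2 (by norm_num))) hC.le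
        _ = 3 * C * K1 * S := by ring
        _ ≤ K0 * S := mul_le_mul_of_nonneg_right hK02 hS0.le
        _ = S * K0 := by ring
    · have h4 : δ0 ^ (3 / 4 : ℝ) * (n : ℝ) ^ (3 / 4 : ℝ) ≤ ((a + j + b : ℕ) : ℝ) ^ (3 / 4 : ℝ) := by
        rw [← Real.mul_rpow hδ0.le hn0.le]
        refine Real.rpow_le_rpow (by positivity) (hj1.trans ?_) (by norm_num)
        exact_mod_cast (by omega : j ≤ a + j + b)
      calc S ≤ K1 * (n : ℝ) ^ (3 / 4 : ℝ) := hS1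
        _ = K1 / (δ0 ^ (3 / 4 : ℝ) * c) * (c * (δ0 ^ (3 / 4 : ℝ) * (n : ℝ) ^ (3 / 4 : ℝ))) := by field_simp
        _ ≤ K1 / (δ0 ^ (3 / 4 : ℝ) * c) * size (a + j + b) := by
            refine mul_le_mul_of_nonneg_left ((mul_le_mul_of_nonneg_left h4 hc.le).trans h3.1) (by positivity)
        _ ≤ _ := mul_le_mul_of_nonneg_right hK03 (by
            have := h3.1
            have h5 : 0 ≤ c * ((a + j + b : ℕ) : ℝ) ^ (3 / 4 : ℝ) := by positivity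
            linarith)
  have hm := hmd n (by omega) ho
  have hcmp := hcomp n (by omega) ho 0 j (by simp) (by omega) hj2
    (fun k t => Bad k S t ∧ 0 < zc κ (1000 * R * (S / size k)) (curve t)) (ε / (12 * Cc)) (by positivity) (by
      intro a b _ ha2 _ hb2 _
      obtain ⟨g1, g2, g3, g4⟩ := hrg a b ha2 hb2
      have h1 := hB1 (a + j + b) S g2 g3 g4
      unfold Pool.Agent.CRT.V.VC.pr at h1
      have hcp : (0 : ℝ) < ((saw (a + j + b)).card : ℝ) := by exact_mod_cast NTSF.saw_card_pos (a + j + b)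
      rw [div_le_iff₀ hcp] at h1
      refine le_trans (le_of_eq ?_) h1
      congr 2)
  have hsub : ((pol n).filter fun s => ¬ GdP R S κ K0 η ω n0 Bad j (clw s)) ⊆
      ((pol n).filter fun s => ∃ (j : ℕ) (t : Fin j → Fin 3), δ0 * n ≤ (j : ℝ) ∧ j ≤ n ∧ (∀ i ≤ j, pos t i = pos s i) ∧ ¬ Md η ω t) ∪
      ((pol n).filter fun s => ¬ ∃ (a b : ℕ) (t : Fin (a + j + b) → Fin 3), θc * n ≤ a ∧ (a : ℝ) ≤ 1 * n ∧ θc * n ≤ b ∧
          (b : ℝ) ≤ 1 * n ∧ Even a ∧ t ∈ saw (a + j + b) ∧ (∀ k : ℕ, k ≤ j → pos t (a + k) - pos t a = pos s (0 + k) - pos s 0) ∧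
          W4.cnfS (κc * (n : ℝ) ^ (3 / 4 : ℝ)) a j t = 1 ∧ ¬ (Bad (a + j + b) S t ∧ 0 < zc κ (1000 * R * (S / size (a + j + b))) (curve t))) := by
    intro s hs
    rw [Finset.mem_filter] at hs
    rw [Finset.mem_union, Finset.mem_filter, Finset.mem_filter]
    by_contra hcon
    push Not at hcon
    obtain ⟨q1, q2⟩ := hcon
    obtain ⟨a, b, t, a1, a2, b1, b2, hae, ht, hpos, hcn, hnb⟩ := q2 hs.1
    refine hs.2 fun l X hl hX => ?_
    subst hl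
    obtain ⟨g1, g2, g3, g4⟩ := hrg a b a2 b2
    have hXs : ∀ k : ℕ, k ≤ l → pos X k = pos s k := fun k hk => by rw [hX k hk, ps_clw s (by omega)]
    have hcf : (∀ i, i ≤ a → ‖pos t i - pos t a‖ ≤ κc * (n : ℝ) ^ (3 / 4 : ℝ)) ∧
        (∀ i, a + l ≤ i → i ≤ a + l + b → ‖pos t i - pos t (a + l)‖ ≤ κc * (n : ℝ) ^ (3 / 4 : ℝ)) := by
      unfold W4.cnfS at hcn
      by_contra hno
      rw [if_neg hno] at hcn
      exact zero_ne_one hcn
    have h3 : κ * ((a + l + b : ℕ) : ℝ) ≤ κ * (3 * n) := mul_le_mul_of_nonneg_left g1 hκ0.le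
    have h4 : κ * (3 * n) ≤ δ0 / 8 * (3 * n) := mul_le_mul_of_nonneg_right hκ3 (by positivity)
    have h5 : κ * (3 * n) ≤ η * δ0 / 8 * (3 * n) := mul_le_mul_of_nonneg_right hκ2 (by positivity)
    have h6 : η * (δ0 * n) ≤ η * l := mul_le_mul_of_nonneg_left hj1 hη.le
    refine ⟨hRS, hωj l (by omega) hjn.le, q1 hs.1 l X hj1 hjn.le hXs, a, b, t, ⟨hae, fun k hk => ?_, fun k hk => (hcf.1 k hk).trans hcc,
      fun k hk hk2 => (hcf.2 k hk hk2).trans hcc⟩, g2, g3, g4, ?_, ?_, fun hbb => ?_⟩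
    · rw [hpos k hk, zero_add, NTSF.pos_zero, sub_zero, hXs k hk]
    · linarith
    · nlinarith
    · exact absurd hbb.2 (not_lt.2 (hnb hbb.1))
  have h1 := Finset.card_le_card hsub
  have h2 := h1.trans (Finset.card_union_le _ _)
  have h3 := (Nat.cast_le (α := ℝ)).2 h2
  rw [Nat.cast_add] at h3
  refine h3.trans ?_
  have e : Cc * (3 * (ε / (12 * Cc))) = ε / 4 := by field_simp; norm_num
  rw [e] at hcmp
  have hcp := Nat.cast_nonneg (α := ℝ) (pol n).card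
  have h5 : ε / 4 * ((pol n).card : ℝ) + (ε / 4 + ε / 4) * ((pol n).card : ℝ) ≤ ε * ((pol n).card : ℝ) := by
    rw [← add_mul]
    exact mul_le_mul_of_nonneg_right (by linarith) hcp
  exact (add_le_add hm hcmp).trans h5

end Pool.Agent.ROT.F3.K7
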