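import Pool.Agent.ROT.F3ClsU
import Pool.Agent.ROT.F3ClsG

/-!
# ROT / F3KRel (helper82): the closed conditions of the classes of F3Cls on a linearly ordered set of times, the two lattices (K8)

`γ : ι → ℂ` a path (curve: `ι = ℝ`; read backwards: `ιᵒᵈ`; vertices of a word: `ι = ℕ`, divided by `S`), `θ : ι → ℝ` its clock.
* `CPre d P γ θ o c x` : closed form of `PreM`, tip at the time `o`, gates `c ≤ x`; `CKc d t E γ θ x c z` : closed form of `KcM`;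
  `CFg t P γ x c z` : the levels of the foreign gates `c`, `z` over `x`; `CRs d d' P Q W γ θ x x'` : closed form of `RsQ`;
  `CWd d d' P P' γ o c` : the wedge condition for the first piece `o` .. `c` of a strand of direction `d'`;
* `.map` : changes of time;
* **`pre_up`**, **`wdg_up`** : native gates `c`, `x` and a piece `k` = `x` .. `z` ⟹ the class of the rotated lattice, threshold
  `f.l + y`, for every `y` with `f.l + y ≤` level of the foreign gate over the tip;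
* **`kak`** : `k`, `A`, `k'` ⟹ the class of the rests of the lattice 0.
-/

set_option autoImplicit false

namespace Pool.Agent.ROT.F3

open ComplexConjugate OrderDual

/-! ### 1. The conditions -/

section

variable {ι κ : Type*} [LinearOrder ι] [LinearOrder κ]

/-- closed form of `PreM`: tip `γ o`, gates `γ c`, `γ x` -/
structure CPre (d : ℂ) (P : Tp) (γ : ι → ℂ) (θ : ι → ℝ) (o c x : ι) : Prop where
  oc : o ≤ c
  cx : c ≤ x
  b1 : ∀ u, o ≤ u → u ≤ c → ‖γ u - γ o‖ ≤ P.r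
  b2 : ∀ u, c ≤ u → u ≤ x → ‖γ u - γ c‖ ≤ P.r2
  l : P.l ≤ lv d (γ c - γ o)
  m : P.m ≤ lv d (γ x - γ c)
  e : P.cs * ‖γ c - γ o‖ + P.e ≤ lv d (γ c - γ o)
  s : ∀ u, c ≤ u → u ≤ x → Kn d P.c P.κ1 (γ u - γ c)
  r : ∀ u, c ≤ u → u ≤ x → lv d (γ c) ≤ lv d (γ u)
  t1 : ∀ u, o ≤ u → u ≤ c → lv d (γ u) ≤ lv d (γ c)
  t2 : ∀ u, c ≤ u → u ≤ x → lv d (γ u) ≤ lv d (γ x)
  la : θ c - θ o ≤ P.la
  lb : θ x - θ c ≤ P.lb

/-- wedge: the first piece `o` .. `c` of a strand with the data `d'`, `P'`, seen from the strand with the data `d`, `P` -/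
def CWd (d d' : ℂ) (P P' : Tp) (γ : ι → ℂ) (o c : ι) : Prop :=
  ∀ u, o ≤ u → u ≤ c → lv d (γ u - γ o) ≤ P.w ∨ Kn d' P'.cs P'.κs (γ u - γ o)

/-- closed form of `KcM`: `x` .. `c` .. `z` -/
structure CKc (d t : ℂ) (E : En) (γ : ι → ℂ) (θ : ι → ℝ) (x c z : ι) : Prop where
  xc : x ≤ c
  cz : c ≤ z
  b1 : ∀ u, x ≤ u → u ≤ c → ‖γ u - γ x‖ ≤ E.rk
  b2 : ∀ u, c ≤ u → u ≤ z → ‖γ u - γ c‖ ≤ E.f.r2
  s : ∀ u, x ≤ u → u ≤ z → Kn d E.n.c E.κk (γ u - γ x)
  s2 : ∀ u, c ≤ u → u ≤ z → Kn t E.f.c E.f.κ1 (γ u - γ c)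
  e : E.n.c * ‖γ z - γ x‖ + E.ek ≤ lv d (γ z - γ x)
  cell : ‖γ z - γ x - (E.kc : ℂ) * d‖ ≤ E.kr
  right : ∀ u, x ≤ u → u ≤ z → 0 ≤ lv d (γ u - γ x)
  lk : θ z - θ x ≤ E.lk

/-- the foreign gates `c`, `z` over `x` (levels in the direction `t`) -/
structure CFg (t : ℂ) (P : Tp) (γ : ι → ℂ) (x c z : ι) : Prop where
  l : P.l ≤ lv t (γ c - γ x)
  m : P.m ≤ lv t (γ z - γ c)
  t1 : ∀ u, x ≤ u → u ≤ c → lv t (γ u) ≤ lv t (γ c)
  r : ∀ u, c ≤ u → u ≤ z → lv t (γ c) ≤ lv t (γ u)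
  t2 : ∀ u, c ≤ u → u ≤ z → lv t (γ u) ≤ lv t (γ z)

/-- closed form of `RsQ`: a rest or arc `x` .. `x'` -/
structure CRs (d d' : ℂ) (P Q : Tp) (W : Wn) (γ : ι → ℂ) (θ : ι → ℝ) (x x' : ι) : Prop where
  le : x ≤ x'
  s : ∀ u, x ≤ u → u ≤ x' → γ u - γ x ∈ EdK d P
  e : ∀ u, x ≤ u → u ≤ x' → γ u - γ x' ∈ EdK d' Q
  far : W.D0 ≤ ‖γ x' - γ x‖
  near : ‖γ x' - γ x‖ ≤ W.D1
  lo : W.t0 ≤ θ x' - θ x
  hi : θ x' - θ x ≤ W.t1

/-! ### 2. Changes of time -/

/-- `f` maps `[a, b]` onto `[f a, f b]`, the path and the clock up to constants -/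
structure TCh (γ : ι → ℂ) (θ : ι → ℝ) (γ' : κ → ℂ) (θ' : κ → ℝ) (f : ι → κ) (a b : ι) (v : ℂ) (τ : ℝ) : Prop where
  mono : ∀ u w, a ≤ u → u ≤ w → w ≤ b → f u ≤ f w
  surj : ∀ y, f a ≤ y → y ≤ f b → ∃ u, a ≤ u ∧ u ≤ b ∧ f u = y
  pa : ∀ u, a ≤ u → u ≤ b → γ' (f u) = γ u + v
  cl : ∀ u, a ≤ u → u ≤ b → θ' (f u) = θ u + τ

variable {γ : ι → ℂ} {θ : ι → ℝ} {γ' : κ → ℂ} {θ' : κ → ℝ} {f : ι → κ} {a b : ι} {v : ℂ} {τ : ℝ}

lemma TCh.sub (h : TCh γ θ γ' θ' f a b v τ) {u w : ι} (hu : a ≤ u) (hu' : u ≤ b) (hw : a ≤ w) (hw' : w ≤ b) :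
    γ' (f u) - γ' (f w) = γ u - γ w := by
  rw [h.pa u hu hu', h.pa w hw hw']
  ring

lemma TCh.csub (h : TCh γ θ γ' θ' f a b v τ) {u w : ι} (hu : a ≤ u) (hu' : u ≤ b) (hw : a ≤ w) (hw' : w ≤ b) :
    θ' (f u) - θ' (f w) = θ u - θ w := by
  rw [h.cl u hu hu', h.cl w hw hw']
  ring

/-- onto every subinterval -/
lemma TCh.onto (h : TCh γ θ γ' θ' f a b v τ) {c e : ι} (hc : a ≤ c) (hce : c ≤ e) (he : e ≤ b) {y : κ} (h1 : f c ≤ y)
    (h2 : y ≤ f e) : ∃ u, c ≤ u ∧ u ≤ e ∧ f u = y := by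
  obtain ⟨u, ha, hb, rfl⟩ := h.surj y ((h.mono a c le_rfl hc (hce.trans he)).trans h1)
    (h2.trans (h.mono e b (hc.trans hce) he le_rfl))
  rcases le_total u c with h3 | h3
  · exact ⟨c, le_rfl, hce, le_antisymm h1 (h.mono u c ha h3 (hce.trans he))⟩
  · rcases le_total u e with h4 | h4
    · exact ⟨u, h3, h4, rfl⟩
    · exact ⟨e, hce, le_rfl, le_antisymm (h.mono e u (hc.trans hce) h4 hb) h2⟩

theorem TCh.pre (h : TCh γ θ γ' θ' f a b v τ) {d : ℂ} {P : Tp} {o c x : ι} (ho : a ≤ o) (hoc : o ≤ c) (hcx : c ≤ x)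
    (hx : x ≤ b) : CPre d P γ' θ' (f o) (f c) (f x) ↔ CPre d P γ θ o c x := by
  have hc : a ≤ c := ho.trans hoc
  have hcb : c ≤ b := hcx.trans hx
  have hxa : a ≤ x := hc.trans hcx
  have hob : o ≤ b := hoc.trans hcb
  have moc := h.mono o c ho hoc hcb
  have mcx := h.mono c x hc hcx hx
  constructor
  · intro g
    refine ⟨hoc, hcx, fun u h1 h2 => ?_, fun u h1 h2 => ?_, ?_, ?_, ?_, fun u h1 h2 => ?_, fun u h1 h2 => ?_, fun u h1 h2 => ?_,
      fun u h1 h2 => ?_, ?_, ?_⟩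
    · rw [← h.sub (ho.trans h1) (h2.trans hcb) ho hob]
      exact g.b1 _ (h.mono o u ho h1 (h2.trans hcb)) (h.mono u c (ho.trans h1) h2 hcb)
    · rw [← h.sub (hc.trans h1) (h2.trans hx) hc hcb]
      exact g.b2 _ (h.mono c u hc h1 (h2.trans hx)) (h.mono u x (hc.trans h1) h2 hx)
    · rw [← h.sub hc hcb ho hob]
      exact g.l
    · rw [← h.sub hxa hx hc hcb]
      exact g.m
    · rw [← h.sub hc hcb ho hob]
      exact g.e
    · rw [← h.sub (hc.trans h1) (h2.trans hx) hc hcb]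
      exact g.s _ (h.mono c u hc h1 (h2.trans hx)) (h.mono u x (hc.trans h1) h2 hx)
    · have := g.r _ (h.mono c u hc h1 (h2.trans hx)) (h.mono u x (hc.trans h1) h2 hx)
      rw [← sub_nonneg, ← lv_sub, h.sub (hc.trans h1) (h2.trans hx) hc hcb, lv_sub, sub_nonneg] at this
      exact this
    · have := g.t1 _ (h.mono o u ho h1 (h2.trans hcb)) (h.mono u c (ho.trans h1) h2 hcb)
      rw [← sub_nonneg, ← lv_sub, h.sub hc hcb (ho.trans h1) (h2.trans hcb), lv_sub, sub_nonneg] at this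
      exact this
    · have := g.t2 _ (h.mono c u hc h1 (h2.trans hx)) (h.mono u x (hc.trans h1) h2 hx)
      rw [← sub_nonneg, ← lv_sub, h.sub hxa hx (hc.trans h1) (h2.trans hx), lv_sub, sub_nonneg] at this
      exact this
    · rw [← h.csub hc hcb ho hob]
      exact g.la
    · rw [← h.csub hxa hx hc hcb]
      exact g.lb
  · intro g
    refine ⟨moc, mcx, fun y h1 h2 => ?_, fun y h1 h2 => ?_, ?_, ?_, ?_, fun y h1 h2 => ?_, fun y h1 h2 => ?_, fun y h1 h2 => ?_,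
      fun y h1 h2 => ?_, ?_, ?_⟩
    · obtain ⟨u, k1, k2, rfl⟩ := h.onto ho hoc hcb h1 h2
      rw [h.sub (ho.trans k1) (k2.trans hcb) ho hob]
      exact g.b1 u k1 k2
    · obtain ⟨u, k1, k2, rfl⟩ := h.onto hc hcx hx h1 h2
      rw [h.sub (hc.trans k1) (k2.trans hx) hc hcb]
      exact g.b2 u k1 k2
    · rw [h.sub hc hcb ho hob]
      exact g.l
    · rw [h.sub hxa hx hc hcb]
      exact g.m
    · rw [h.sub hc hcb ho hob]
      exact g.e
    · obtain ⟨u, k1, k2, rfl⟩ := h.onto hc hcx hx h1 h2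
      rw [h.sub (hc.trans k1) (k2.trans hx) hc hcb]
      exact g.s u k1 k2
    · obtain ⟨u, k1, k2, rfl⟩ := h.onto hc hcx hx h1 h2
      rw [← sub_nonneg, ← lv_sub, h.sub (hc.trans k1) (k2.trans hx) hc hcb, lv_sub, sub_nonneg]
      exact g.r u k1 k2
    · obtain ⟨u, k1, k2, rfl⟩ := h.onto ho hoc hcb h1 h2
      rw [← sub_nonneg, ← lv_sub, h.sub hc hcb (ho.trans k1) (k2.trans hcb), lv_sub, sub_nonneg]
      exact g.t1 u k1 k2
    · obtain ⟨u, k1, k2, rfl⟩ := h.onto hc hcx hx h1 h2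
      rw [← sub_nonneg, ← lv_sub, h.sub hxa hx (hc.trans k1) (k2.trans hx), lv_sub, sub_nonneg]
      exact g.t2 u k1 k2
    · rw [h.csub hc hcb ho hob]
      exact g.la
    · rw [h.csub hxa hx hc hcb]
      exact g.lb

theorem TCh.kc (h : TCh γ θ γ' θ' f a b v τ) {d t : ℂ} {E : En} {x c z : ι} (ho : a ≤ x) (hoc : x ≤ c) (hcx : c ≤ z)
    (hx : z ≤ b) : CKc d t E γ' θ' (f x) (f c) (f z) ↔ CKc d t E γ θ x c z := by
  have hc : a ≤ c := ho.trans hoc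
  have hcb : c ≤ b := hcx.trans hx
  have hxa : a ≤ z := hc.trans hcx
  have hob : x ≤ b := hoc.trans hcb
  have moc := h.mono x c ho hoc hcb
  have mcx := h.mono c z hc hcx hx
  constructor
  · intro g
    refine ⟨hoc, hcx, fun u h1 h2 => ?_, fun u h1 h2 => ?_, fun u h1 h2 => ?_, fun u h1 h2 => ?_, ?_, ?_, fun u h1 h2 => ?_, ?_⟩
    · rw [← h.sub (ho.trans h1) (h2.trans hcb) ho hob]
      exact g.b1 _ (h.mono x u ho h1 (h2.trans hcb)) (h.mono u c (ho.trans h1) h2 hcb)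
    · rw [← h.sub (hc.trans h1) (h2.trans hx) hc hcb]
      exact g.b2 _ (h.mono c u hc h1 (h2.trans hx)) (h.mono u z (hc.trans h1) h2 hx)
    · rw [← h.sub (ho.trans h1) (h2.trans hx) ho hob]
      exact g.s _ (h.mono x u ho h1 (h2.trans hx)) (h.mono u z (ho.trans h1) h2 hx)
    · rw [← h.sub (hc.trans h1) (h2.trans hx) hc hcb]
      exact g.s2 _ (h.mono c u hc h1 (h2.trans hx)) (h.mono u z (hc.trans h1) h2 hx)
    · rw [← h.sub hxa hx ho hob]
      exact g.e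
    · rw [← h.sub hxa hx ho hob]
      exact g.cell
    · rw [← h.sub (ho.trans h1) (h2.trans hx) ho hob]
      exact g.right _ (h.mono x u ho h1 (h2.trans hx)) (h.mono u z (ho.trans h1) h2 hx)
    · rw [← h.csub hxa hx ho hob]
      exact g.lk
  · intro g
    refine ⟨moc, mcx, fun y h1 h2 => ?_, fun y h1 h2 => ?_, fun y h1 h2 => ?_, fun y h1 h2 => ?_, ?_, ?_, fun y h1 h2 => ?_, ?_⟩
    · obtain ⟨u, k1, k2, rfl⟩ := h.onto ho hoc hcb h1 h2
      rw [h.sub (ho.trans k1) (k2.trans hcb) ho hob]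
      exact g.b1 u k1 k2
    · obtain ⟨u, k1, k2, rfl⟩ := h.onto hc hcx hx h1 h2
      rw [h.sub (hc.trans k1) (k2.trans hx) hc hcb]
      exact g.b2 u k1 k2
    · obtain ⟨u, k1, k2, rfl⟩ := h.onto ho (hoc.trans hcx) hx h1 h2
      rw [h.sub (ho.trans k1) (k2.trans hx) ho hob]
      exact g.s u k1 k2
    · obtain ⟨u, k1, k2, rfl⟩ := h.onto hc hcx hx h1 h2
      rw [h.sub (hc.trans k1) (k2.trans hx) hc hcb]
      exact g.s2 u k1 k2
    · rw [h.sub hxa hx ho hob]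
      exact g.e
    · rw [h.sub hxa hx ho hob]
      exact g.cell
    · obtain ⟨u, k1, k2, rfl⟩ := h.onto ho (hoc.trans hcx) hx h1 h2
      rw [h.sub (ho.trans k1) (k2.trans hx) ho hob]
      exact g.right u k1 k2
    · rw [h.csub hxa hx ho hob]
      exact g.lk

theorem TCh.fg (h : TCh γ θ γ' θ' f a b v τ) {t : ℂ} {P : Tp} {x c z : ι} (ho : a ≤ x) (hoc : x ≤ c) (hcx : c ≤ z)
    (hx : z ≤ b) : CFg t P γ' (f x) (f c) (f z) ↔ CFg t P γ x c z := by
  have hc : a ≤ c := ho.trans hoc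
  have hcb : c ≤ b := hcx.trans hx
  have hxa : a ≤ z := hc.trans hcx
  have hob : x ≤ b := hoc.trans hcb
  constructor
  · intro g
    refine ⟨?_, ?_, fun u h1 h2 => ?_, fun u h1 h2 => ?_, fun u h1 h2 => ?_⟩
    · rw [← h.sub hc hcb ho hob]
      exact g.l
    · rw [← h.sub hxa hx hc hcb]
      exact g.m
    · have := g.t1 _ (h.mono x u ho h1 (h2.trans hcb)) (h.mono u c (ho.trans h1) h2 hcb)
      rw [← sub_nonneg, ← lv_sub, h.sub hc hcb (ho.trans h1) (h2.trans hcb), lv_sub, sub_nonneg] at this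
      exact this
    · have := g.r _ (h.mono c u hc h1 (h2.trans hx)) (h.mono u z (hc.trans h1) h2 hx)
      rw [← sub_nonneg, ← lv_sub, h.sub (hc.trans h1) (h2.trans hx) hc hcb, lv_sub, sub_nonneg] at this
      exact this
    · have := g.t2 _ (h.mono c u hc h1 (h2.trans hx)) (h.mono u z (hc.trans h1) h2 hx)
      rw [← sub_nonneg, ← lv_sub, h.sub hxa hx (hc.trans h1) (h2.trans hx), lv_sub, sub_nonneg] at this
      exact this
  · intro g
    refine ⟨?_, ?_, fun y h1 h2 => ?_, fun y h1 h2 => ?_, fun y h1 h2 => ?_⟩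
    · rw [h.sub hc hcb ho hob]
      exact g.l
    · rw [h.sub hxa hx hc hcb]
      exact g.m
    · obtain ⟨u, k1, k2, rfl⟩ := h.onto ho hoc hcb h1 h2
      rw [← sub_nonneg, ← lv_sub, h.sub hc hcb (ho.trans k1) (k2.trans hcb), lv_sub, sub_nonneg]
      exact g.t1 u k1 k2
    · obtain ⟨u, k1, k2, rfl⟩ := h.onto hc hcx hx h1 h2
      rw [← sub_nonneg, ← lv_sub, h.sub (hc.trans k1) (k2.trans hx) hc hcb, lv_sub, sub_nonneg]
      exact g.r u k1 k2
    · obtain ⟨u, k1, k2, rfl⟩ := h.onto hc hcx hx h1 h2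
      rw [← sub_nonneg, ← lv_sub, h.sub hxa hx (hc.trans k1) (k2.trans hx), lv_sub, sub_nonneg]
      exact g.t2 u k1 k2

theorem TCh.wdg (h : TCh γ θ γ' θ' f a b v τ) {d d' : ℂ} {P P' : Tp} {o c : ι} (ho : a ≤ o) (hoc : o ≤ c) (hcb : c ≤ b) :
    CWd d d' P P' γ' (f o) (f c) ↔ CWd d d' P P' γ o c := by
  have hc : a ≤ c := ho.trans hoc
  have hob : o ≤ b := hoc.trans hcb
  constructor
  · intro g u h1 h2
    rw [← h.sub (ho.trans h1) (h2.trans hcb) ho hob]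
    exact g _ (h.mono o u ho h1 (h2.trans hcb)) (h.mono u c (ho.trans h1) h2 hcb)
  · intro g y h1 h2
    obtain ⟨u, k1, k2, rfl⟩ := h.onto ho hoc hcb h1 h2
    rw [h.sub (ho.trans k1) (k2.trans hcb) ho hob]
    exact g u k1 k2

theorem TCh.rs (h : TCh γ θ γ' θ' f a b v τ) {d d' : ℂ} {P Q : Tp} {W : Wn} {x x' : ι} (hx : a ≤ x) (hxx : x ≤ x')
    (hb : x' ≤ b) : CRs d d' P Q W γ' θ' (f x) (f x') ↔ CRs d d' P Q W γ θ x x' := by
  have hxb : x ≤ b := hxx.trans hb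
  have hxa : a ≤ x' := hx.trans hxx
  constructor
  · intro g
    refine ⟨hxx, fun u h1 h2 => ?_, fun u h1 h2 => ?_, ?_, ?_, ?_, ?_⟩
    · rw [← h.sub (hx.trans h1) (h2.trans hb) hx hxb]
      exact g.s _ (h.mono x u hx h1 (h2.trans hb)) (h.mono u x' (hx.trans h1) h2 hb)
    · rw [← h.sub (hx.trans h1) (h2.trans hb) hxa hb]
      exact g.e _ (h.mono x u hx h1 (h2.trans hb)) (h.mono u x' (hx.trans h1) h2 hb)
    · rw [← h.sub hxa hb hx hxb]
      exact g.far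
    · rw [← h.sub hxa hb hx hxb]
      exact g.near
    · rw [← h.csub hxa hb hx hxb]
      exact g.lo
    · rw [← h.csub hxa hb hx hxb]
      exact g.hi
  · intro g
    refine ⟨h.mono x x' hx hxx hb, fun y h1 h2 => ?_, fun y h1 h2 => ?_, ?_, ?_, ?_, ?_⟩
    · obtain ⟨u, k1, k2, rfl⟩ := h.onto hx hxx hb h1 h2
      rw [h.sub (hx.trans k1) (k2.trans hb) hx hxb]
      exact g.s u k1 k2
    · obtain ⟨u, k1, k2, rfl⟩ := h.onto hx hxx hb h1 h2
      rw [h.sub (hx.trans k1) (k2.trans hb) hxa hb]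
      exact g.e u k1 k2
    · rw [h.sub hxa hb hx hxb]
      exact g.far
    · rw [h.sub hxa hb hx hxb]
      exact g.near
    · rw [h.csub hxa hb hx hxb]
      exact g.lo
    · rw [h.csub hxa hb hx hxb]
      exact g.hi

end

/-! ### 3. From the lattice 0 to the rotated lattice -/

section

variable {ι : Type*} [LinearOrder ι] {γ : ι → ℂ} {θ : ι → ℝ} {d t : ℂ} {P : Tp} {E : En} {ε : ℝ} {o c x z c' : ι}

lemma CPre.bd (h : CPre d P γ θ o c x) (hP : P.Ok) {u : ι} (h1 : o ≤ u) (h2 : u ≤ x) : ‖γ u - γ o‖ ≤ P.r + P.r2 := by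
  rcases le_total u c with h3 | h3
  · have := h.b1 u h1 h3
    linarith [hP.r2]
  · have e : γ u - γ o = (γ u - γ c) + (γ c - γ o) := by ring
    rw [e]
    refine (norm_add_le _ _).trans ?_
    linarith [h.b2 u h3 h2, h.b1 c h.oc le_rfl]

lemma CPre.lev (h : CPre d P γ θ o c x) {u : ι} (h1 : o ≤ u) (h2 : u ≤ x) : lv d (γ u) ≤ lv d (γ x) := by
  rcases le_total u c with h3 | h3
  · exact (h.t1 u h1 h3).trans (h.t2 c le_rfl h.cx)
  · exact h.t2 u h3 h2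

/-- the block is in the sector of the tip -/
lemma CPre.kn (h : CPre d P γ θ o c x) (hP : P.Ok) {u : ι} (h1 : c ≤ u) (h2 : u ≤ x) : Kn d P.cs (-P.κ) (γ u - γ o) := by
  have k1 : Kn d P.cs (-P.e) (γ c - γ o) := by
    have := h.e
    unfold Kn
    linarith
  have k2 := (h.s u h1 h2).mono hP.c le_rfl
  have e : γ u - γ o = (γ c - γ o) + (γ u - γ c) := by ring
  rw [e]
  exact (k1.add (by linarith [hP.cs]) k2).mono le_rfl (by linarith [hP.e])

lemma CKc.bd (h : CKc d t E γ θ x c z) (hE : E.Ok ε) {u : ι} (h1 : x ≤ u) (h2 : u ≤ z) : ‖γ u - γ x‖ ≤ E.k := by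
  unfold En.k
  rcases le_total u c with h3 | h3
  · have := h.b1 u h1 h3
    linarith [hE.f.r2]
  · have e : γ u - γ x = (γ u - γ c) + (γ c - γ x) := by ring
    rw [e]
    refine (norm_add_le _ _).trans ?_
    linarith [h.b2 u h3 h2, h.b1 c h.xc le_rfl]

/-- the piece `k` is in the sector of the tip -/
lemma pre_kn (hE : E.Ok ε) (h : CPre d E.n γ θ o c x) (hk : CKc d t E γ θ x c' z) {u : ι} (h1 : x ≤ u) (h2 : u ≤ z) :
    Kn d E.n.cs 0 (γ u - γ o) := by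
  have k1 := h.kn hE.n h.cx le_rfl
  have k2 := (hk.s u h1 h2).mono hE.n.c le_rfl
  have e : γ u - γ o = (γ x - γ o) + (γ u - γ x) := by ring
  rw [e]
  exact (k1.add (by linarith [hE.n.cs]) k2).mono le_rfl (by linarith [hE.κk])

/-- rotated levels up to `x` -/
lemma lev_le (hE : E.Ok ε) (ht : ‖t - d‖ ≤ ε) (h : CPre d E.n γ θ o c x) {u : ι} (h1 : o ≤ u) (h2 : u ≤ x) :
    lv t (γ u) ≤ lv t (γ x) + E.f.l / 2 := by
  have k1 := h.lev h1 h2
  have k2 : ‖γ x - γ u‖ ≤ 2 * (E.n.r + E.n.r2) := by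
    have e : γ x - γ u = (γ x - γ o) - (γ u - γ o) := by ring
    rw [e]
    refine (norm_sub_le _ _).trans ?_
    linarith [h.bd hE.n h1 h2, h.bd hE.n (h.oc.trans h.cx) le_rfl]
  have k3 := lv_sub_le t d (γ x - γ u)
  rw [norm_sub_rev] at k3
  have k4 : ‖t - d‖ * ‖γ x - γ u‖ ≤ ε * (2 * (E.n.r + E.n.r2)) :=
    mul_le_mul ht k2 (norm_nonneg _) ((norm_nonneg _).trans ht)
  rw [lv_sub, lv_sub] at k3
  linarith [hE.loc]

/-- **the class of the rotated lattice**: native gates `c`, `x`, a piece `k` = `x` .. `z`, foreign gates `c'`, `z` over `x` -/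
theorem pre_up (hE : E.Ok ε) (ht : ‖t - d‖ ≤ ε) (h : CPre d E.n γ θ o c x) (hk : CKc d t E γ θ x c' z)
    (hf : CFg t E.f γ x c' z) (hθ : θ c' ≤ θ z) (hθ' : θ x ≤ θ c') {y : ℝ} (hy : E.f.l + y ≤ lv t (γ c' - γ o)) :
    CPre t (E.f.up y) γ θ o c' z := by
  have hox : o ≤ x := h.oc.trans h.cx
  have nr : ∀ u, o ≤ u → u ≤ c' → ‖γ u - γ o‖ ≤ E.f.r := by
    intro u h1 h2
    have hb := hE.ball
    rcases le_total u x with h3 | h3
    · have := h.bd hE.n h1 h3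
      linarith [hE.rk]
    · have e : γ u - γ o = (γ u - γ x) + (γ x - γ o) := by ring
      rw [e]
      refine (norm_add_le _ _).trans ?_
      linarith [hk.b1 u h3 h2, h.bd hE.n hox le_rfl]
  have hcone : Kn d E.n.cs 0 (γ c' - γ o) := pre_kn hE h hk hk.xc hk.cz
  refine ⟨hox.trans hk.xc, hk.cz, nr, hk.b2, hy, hf.m, ?_, hk.s2, hf.r, fun u h1 h2 => ?_, hf.t2, ?_, ?_⟩
  · -- the position of `c~`
    have hl : E.f.l ≤ lv t (γ c' - γ o) := by
      have e : γ c' - γ o = (γ c' - γ x) + (γ x - γ o) := by ring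
      rw [e, lv_add]
      have k1 := pre_kn hE h hk le_rfl (hk.xc.trans hk.cz)
      have k2 := sec_turn hE ht k1
      unfold Kn at k2
      have := mul_nonneg (by linarith [hE.f.cs] : 0 ≤ E.f.cs) (norm_nonneg (γ x - γ o))
      linarith [hf.l]
    have k0 : Kn t (E.n.cs - ε) 0 (γ c' - γ o) := hcone.turn (by
      rw [norm_sub_rev]
      linarith)
    unfold Kn at k0
    have k1 : (E.n.cs - ε - E.f.cs) * E.f.l ≤ (E.n.cs - ε - E.f.cs) * ‖γ c' - γ o‖ ∨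
        E.f.cs * ‖γ c' - γ o‖ + E.f.e ≤ lv t (γ c' - γ o) := by
      rcases le_total E.f.l ‖γ c' - γ o‖ with h1 | h1
      · left
        exact mul_le_mul_of_nonneg_left h1 (by linarith [hE.cs])
      · right
        have h2 : E.f.cs * ‖γ c' - γ o‖ ≤ E.f.cs * E.f.l := mul_le_mul_of_nonneg_left h1 (by linarith [hE.f.cs])
        have h3 := hE.f.e1
        nlinarith
    show E.f.cs * ‖γ c' - γ o‖ + E.f.e ≤ lv t (γ c' - γ o)
    rcases k1 with k1 | k1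
    · have := hE.ec
      nlinarith
    · exact k1
  · rcases le_total u x with h3 | h3
    · have k1 := lev_le hE ht h h1 h3
      have k2 := hf.l
      rw [lv_sub] at k2
      linarith [hE.f.l]
    · exact hf.t1 u h3 h2
  · show θ c' - θ o ≤ E.f.la
    have := hE.la
    have := h.la
    have := h.lb
    have := hk.lk
    linarith
  · show θ z - θ c' ≤ E.f.lb
    have := hE.lb
    have := hk.lk
    linarith

/-- **the wedge of the rotated lattice**: the first piece tip .. `c~` of a strand (direction `d` / `t`), seen from another strand with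
the unit direction `t'` -/
theorem wdg_up (hE : E.Ok ε) (ht : ‖t - d‖ ≤ ε) (h : CPre d E.n γ θ o c x) (hk : CKc d t E γ θ x c' z) {t' : ℂ}
    (ht' : ‖t'‖ = 1) {y y' : ℝ} : CWd t' t (E.f.up y) (E.f.up y') γ o c' := by
  intro u h1 h2
  rcases le_total u c with h3 | h3
  · left
    have k1 := lv_le t' (γ u - γ o)
    rw [ht', one_mul] at k1
    show _ ≤ E.f.w
    linarith [h.b1 u h1 h3, hE.w]
  · right
    have k1 : Kn d E.n.cs 0 (γ u - γ o) := by
      rcases le_total u x with h4 | h4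
      · exact (h.kn hE.n h3 h4).mono le_rfl (by linarith [hE.n.κ])
      · exact pre_kn hE h hk h4 (h2.trans hk.cz)
    exact (sec_turn hE ht k1).mono le_rfl hE.f.κs0

end

/-! ### 4. The rests of the lattice 0 -/

section

variable {d d' t t' : ℂ} {P Q : Tp} {E E' : En} {ε : ℝ}

lemma edK_far {v : ℂ} (hP : P.Ok) (h : P.r0 ≤ ‖v‖) : v ∈ EdK d P :=
  ⟨Or.inr (hP.rr.trans h), Or.inr (by linarith [hP.κ])⟩

/-- **an arc behind `x~`**, closed form -/
lemma edK_arc (hE : E.Ok ε) (ht : ‖t - d‖ ≤ ε) {v w : ℂ} (hv : E.n.c * ‖v‖ + E.ek ≤ lv d v)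
    (hl : E.f.l + E.f.m ≤ lv t v) (hb : ‖v‖ ≤ E.k) (hw : w ∈ EdK t E.f) : v + w ∈ EdK d E.n := by
  rcases hw.2 with h | h
  · have h1 : Kn t E.f.c (E.f.κ * 1) w := by rwa [mul_one]
    have h2 := right_shift (S := 1) hE one_pos ht (by linarith) (by linarith) h1
    have h3 := cone_shift (S := 1) hE zero_le_one ht (v := v) (w := w) (by linarith) h1
    rw [mul_one] at h3
    exact ⟨Or.inl h2.le, Or.inl h3⟩
  · refine edK_far hE.n ?_
    have h2 : ‖w‖ ≤ ‖v + w‖ + ‖v‖ := by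
      have : w = (v + w) - v := by ring
      conv_lhs => rw [this]
      exact norm_sub_le _ _
    linarith [hE.r0]

variable {ι : Type*} [LinearOrder ι] {γ : ι → ℂ} {θ : ι → ℝ} {x c z z' c' x' : ι}

lemma CKc.edK (h : CKc d t E γ θ x c z) (hE : E.Ok ε) {u : ι} (h1 : x ≤ u) (h2 : u ≤ z) : γ u - γ x ∈ EdK d E.n :=
  ⟨Or.inl (h.right u h1 h2), Or.inl ((h.s u h1 h2).mono le_rfl hE.κk)⟩

/-- one end of a rest `k A k'` -/
lemma edK_three (hE : E.Ok ε) (ht : ‖t - d‖ ≤ ε) (hk : CKc d t E γ θ x c z)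
    (hl : E.f.l + E.f.m ≤ lv t (γ z - γ x)) (hA : ∀ u, z ≤ u → u ≤ z' → γ u - γ z ∈ EdK t E.f)
    (hk' : ∀ u, z' ≤ u → u ≤ x' → ‖γ u - γ z'‖ ≤ 2 * E'.k) (hD : E.n.r0 + E.k + 2 * E'.k ≤ ‖γ z' - γ z‖) {u : ι}
    (h1 : x ≤ u) (h2 : u ≤ x') : γ u - γ x ∈ EdK d E.n := by
  rcases le_total u z with h3 | h3
  · exact hk.edK hE h1 h3
  · rcases le_total u z' with h4 | h4
    · have e : γ u - γ x = (γ z - γ x) + (γ u - γ z) := by ring
      rw [e]
      exact edK_arc hE ht hk.e hl (hk.bd hE (hk.xc.trans hk.cz) le_rfl) (hA u h3 h4)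
    · refine edK_far hE.n ?_
      have e : γ z' - γ z = (γ u - γ x) - (γ z - γ x) - (γ u - γ z') := by ring
      have k1 : ‖γ z' - γ z‖ ≤ ‖γ u - γ x‖ + ‖γ z - γ x‖ + ‖γ u - γ z'‖ := by
        conv_lhs => rw [e]
        exact (norm_sub_le _ _).trans (add_le_add (norm_sub_le _ _) le_rfl)
      linarith [hk' u h4 h2, hk.bd hE (hk.xc.trans hk.cz) le_rfl]

/-- the class read backwards -/
lemma CRs.dual {W : Wn} (h : CRs d d' P Q W γ θ x x') :
    CRs d' d Q P W (γ ∘ ofDual) (fun u => -θ (ofDual u)) (toDual x') (toDual x) where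
  le := h.le
  s := fun u h1 h2 => h.e (ofDual u) h2 h1
  e := fun u h1 h2 => h.s (ofDual u) h2 h1
  far := by
    have := h.far
    rw [norm_sub_rev] at this
    exact this
  near := by
    have := h.near
    rw [norm_sub_rev] at this
    exact this
  lo := by
    have := h.lo
    show W.t0 ≤ -θ x - -θ x'
    linarith
  hi := by
    have := h.hi
    show -θ x - -θ x' ≤ W.t1
    linarith

/-- **rests of the lattice 0 from the pieces `k`, `A`, `k'`**; `k'` is read backwards -/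
theorem kak {W : Wn} (hE : E.Ok ε) (hE' : E'.Ok ε) (ht : ‖t - d‖ ≤ ε) (ht' : ‖t' - d'‖ ≤ ε) (hk : CKc d t E γ θ x c z)
    (hk' : CKc d' t' E' (γ ∘ ofDual) (fun u => -θ (ofDual u)) (toDual x') (toDual c') (toDual z'))
    (hl : E.f.l + E.f.m ≤ lv t (γ z - γ x)) (hl' : E'.f.l + E'.f.m ≤ lv t' (γ z' - γ x'))
    (hA : CRs t t' E.f E'.f W γ θ z z') (hD : 2 * (E.f.r0 + E'.f.r0) ≤ W.D0) (hθ : θ x ≤ θ z) (hθ' : θ z' ≤ θ x') :
    CRs d d' E.n E'.n ⟨W.D0 - (E.k + E'.k), W.D1 + (E.k + E'.k), W.t0, W.t1 + (E.lk + E'.lk)⟩ γ θ x x' := by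
  have hxz : x ≤ z := hk.xc.trans hk.cz
  have hzx : z' ≤ x' := by
    have h1 : toDual x' ≤ toDual z' := hk'.xc.trans hk'.cz
    exact h1
  have n1 : ‖γ z - γ x‖ ≤ E.k := hk.bd hE hxz le_rfl
  have n2 : ‖γ z' - γ x'‖ ≤ E'.k := hk'.bd hE' (hk'.xc.trans hk'.cz) le_rfl
  have k1 : ∀ u, x ≤ u → u ≤ z → ‖γ u - γ z‖ ≤ 2 * E.k := fun u h1 h2 => by
    have e : γ u - γ z = (γ u - γ x) - (γ z - γ x) := by ring
    rw [e]
    refine (norm_sub_le _ _).trans ?_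
    linarith [hk.bd hE h1 h2]
  have k2 : ∀ u, z' ≤ u → u ≤ x' → ‖γ u - γ z'‖ ≤ 2 * E'.k := fun u h1 h2 => by
    have e : γ u - γ z' = (γ u - γ x') - (γ z' - γ x') := by ring
    rw [e]
    refine (norm_sub_le _ _).trans ?_
    have := hk'.bd hE' (u := toDual u) h2 h1
    have h3 : ‖γ u - γ x'‖ ≤ E'.k := this
    linarith
  have p1 : 0 ≤ E.k := (norm_nonneg _).trans n1
  have p2 : 0 ≤ E'.k := (norm_nonneg _).trans n2
  have g0 : 0 ≤ E.n.r0 := by linarith [hE.n.r, hE.n.r2, hE.n.g64, hE.n.rr]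
  have g0' : 0 ≤ E'.n.r0 := by linarith [hE'.n.r, hE'.n.r2, hE'.n.g64, hE'.n.rr]
  have g1 : E.n.r0 + E.k + 2 * E'.k ≤ ‖γ z' - γ z‖ := by
    have := hA.far
    linarith [hE.r0, hE'.r0, hE.f.κ, hE'.f.κ]
  have g2 : E'.n.r0 + E'.k + 2 * E.k ≤ ‖γ z - γ z'‖ := by
    have := hA.far
    rw [norm_sub_rev] at this
    linarith [hE.r0, hE'.r0, hE.f.κ, hE'.f.κ]
  refine ⟨hxz.trans (hA.le.trans hzx), fun u h1 h2 => ?_, fun u h1 h2 => ?_, ?_, ?_, ?_, ?_⟩
  · exact edK_three (E' := E') hE ht hk hl hA.s k2 g1 h1 h2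
  · have := edK_three (γ := γ ∘ ofDual) (E := E') (E' := E) (u := toDual u) hE' ht' hk' hl' (fun u h1 h2 => hA.dual.s u h1 h2)
      (z' := toDual z) (x' := toDual x) (fun u h1 h2 => k1 (ofDual u) h2 h1) g2 h2 h1
    exact this
  · have e : γ z' - γ z = (γ x' - γ x) - (γ z - γ x) + (γ z' - γ x') := by ring
    have h1 : ‖γ z' - γ z‖ ≤ ‖γ x' - γ x‖ + ‖γ z - γ x‖ + ‖γ z' - γ x'‖ := by
      conv_lhs => rw [e]
      exact (norm_add_le _ _).trans (add_le_add (norm_sub_le _ _) le_rfl)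
    have h2 := hA.far
    show W.D0 - (E.k + E'.k) ≤ _
    linarith
  · have e : γ x' - γ x = (γ z' - γ z) + (γ z - γ x) - (γ z' - γ x') := by ring
    have h1 : ‖γ x' - γ x‖ ≤ ‖γ z' - γ z‖ + ‖γ z - γ x‖ + ‖γ z' - γ x'‖ := by
      conv_lhs => rw [e]
      exact (norm_sub_le _ _).trans (add_le_add (norm_add_le _ _) le_rfl)
    have h2 := hA.near
    show _ ≤ W.D1 + (E.k + E'.k)
    linarith
  · have := hA.lo
    show W.t0 ≤ _
    linarith
  · have h1 := hA.hi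
    have h2 := hk.lk
    have h3 : -θ z' - -θ x' ≤ E'.lk := hk'.lk
    show _ ≤ W.t1 + (E.lk + E'.lk)
    linarith

end

end Pool.Agent.ROT.F3
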