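import Pool.Agent.ROT.F3Mass
import Pool.Agent.NT.Dict

/-!
# ROT, F3 (B), row W7 (helper37): cells of mesh `4 D`, `D = ⌊μ s⌋`, against the cells of mesh `4 μ`

* `JR` : skew real coordinates; `cellR m c` closed cells; `KK μ C` : the closed cells of mesh `4 μ` within one cell of `C`;
* `near2` : a lattice point of a cell of `C` of mesh `4 D`, seen from the start node and started at `ζ` (within `2 μ` of the start
  node), is within `A / s` of `KK μ C`.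
-/

set_option autoImplicit false

namespace Pool.Agent.ROT.F3.Ln

open HexObs (Pt)
open NTF (JJ)
open HexObs.ARM (nr)

/-! ### 1. Skew coordinates and cells -/

/-- skew real coordinates -/
noncomputable def JR (x : ℝ × ℝ) : ℂ := ⟨x.1 / 2 + x.2, -(Real.sqrt 3 / 2 * x.1)⟩

lemma JR_add (x y : ℝ × ℝ) : JR (x + y) = JR x + JR y := by
  unfold JR
  apply Complex.ext
  · simp only [Prod.fst_add, Prod.snd_add, Complex.add_re]
    ring
  · simp only [Prod.fst_add, Complex.add_im]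
    ring

lemma JR_smul (t : ℝ) (x : ℝ × ℝ) : JR (t • x) = (t : ℂ) * JR x := by
  unfold JR
  apply Complex.ext
  · simp only [Prod.smul_fst, Prod.smul_snd, smul_eq_mul, Complex.mul_re, Complex.ofReal_re, Complex.ofReal_im]
    ring
  · simp only [Prod.smul_fst, smul_eq_mul, Complex.mul_im, Complex.ofReal_re, Complex.ofReal_im]
    ring

lemma JR_cast (v : Pt) : JR ((v.1 : ℝ), (v.2 : ℝ)) = JJ v := rfl

lemma JR_norm_le (x : ℝ × ℝ) : ‖JR x‖ ≤ 3 * ‖x‖ := by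
  refine (Complex.norm_le_abs_re_add_abs_im _).trans ?_
  unfold JR
  simp only
  have h1 : |x.1| ≤ ‖x‖ := norm_fst_le x
  have h2 : |x.2| ≤ ‖x‖ := norm_snd_le x
  have h3 : Real.sqrt 3 * Real.sqrt 3 = 3 := Real.mul_self_sqrt (by norm_num)
  have h4 : Real.sqrt 3 ≤ 2 := by nlinarith [Real.sqrt_nonneg 3]
  have h5 : |x.1 / 2 + x.2| ≤ |x.1| / 2 + |x.2| := by
    refine (abs_add_le _ _).trans ?_
    rw [abs_div, abs_of_pos (show (0 : ℝ) < 2 by norm_num)]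
  have h6 : |-(Real.sqrt 3 / 2 * x.1)| ≤ |x.1| := by
    rw [abs_neg, abs_mul, abs_of_nonneg (by positivity)]
    nlinarith [abs_nonneg x.1]
  linarith [norm_nonneg x]

/-- closed cells of mesh `m` -/
def cellR (m : ℝ) (c : ℤ × ℤ) : Set (ℝ × ℝ) :=
  {x | m * c.1 ≤ x.1 ∧ x.1 ≤ m * (c.1 + 1) ∧ m * c.2 ≤ x.2 ∧ x.2 ≤ m * (c.2 + 1)}

/-- the closed cells of mesh `4 μ` within one cell of `C` -/
def KK (μ : ℝ) (C : ℤ × ℤ → Prop) : Set (ℝ × ℝ) := {x | ∃ c c' : ℤ × ℤ, C c ∧ nr 1 c c' ∧ x ∈ cellR (4 * μ) c'}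

/-- one coordinate -/
lemma near1 {μ s ζ : ℝ} {D P n0 c : ℤ} {B : ℝ} (hμ : 0 < μ) (hs : 1 ≤ s) (hD : D = ⌊μ * s⌋) (h1 : 4 * D * c ≤ P)
    (h2 : P < 4 * D * (c + 1)) (hζ : |ζ - μ * n0| ≤ 2 * μ) (hc : |(c : ℝ)| ≤ B) :
    ∃ (x' : ℝ) (c' : ℤ), |c' - c| ≤ 1 ∧ 4 * μ * c' ≤ x' ∧ x' ≤ 4 * μ * (c' + 1) ∧
      |ζ + (P - D * n0 : ℤ) / s - x'| ≤ (4 * (B + 1) + |(n0 : ℝ)|) / s := by
  have hs0 : 0 < s := by linarith
  obtain ⟨e, he⟩ : ∃ e : ℝ, e = μ - D / s := ⟨_, rfl⟩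
  have he0 : 0 ≤ e := by
    have : (D : ℝ) ≤ μ * s := by rw [hD]; exact Int.floor_le _
    rw [he, sub_nonneg, div_le_iff₀ hs0]
    exact this
  have he1 : e ≤ 1 / s := by
    have : μ * s < (D : ℝ) + 1 := by rw [hD]; exact Int.lt_floor_add_one _
    rw [he, sub_le_iff_le_add, ← add_div, le_div_iff₀ hs0]
    linarith
  have hDs : (D : ℝ) / s = μ - e := by rw [he]; ring
  have hB0 : 0 ≤ B := (abs_nonneg _).trans hc
  obtain ⟨x, hx⟩ : ∃ x : ℝ, x = ζ + (P - D * n0 : ℤ) / s := ⟨_, rfl⟩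
  have hx2 : x = P / s + (ζ - μ * n0) + e * n0 := by
    rw [hx]
    push_cast
    rw [sub_div, mul_div_right_comm, hDs]
    ring
  have hP1 : 4 * (μ - e) * c ≤ P / s := by
    rw [← hDs, le_div_iff₀ hs0]
    have : ((4 * D * c : ℤ) : ℝ) ≤ P := by exact_mod_cast h1
    push_cast at this
    have e1 : 4 * ((D : ℝ) / s) * c * s = 4 * D * c := by field_simp
    linarith
  have hP2 : P / s ≤ 4 * (μ - e) * (c + 1) := by
    rw [← hDs, div_le_iff₀ hs0]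
    have : (P : ℝ) ≤ ((4 * D * (c + 1) : ℤ) : ℝ) := by exact_mod_cast h2.le
    push_cast at this
    have e1 : 4 * ((D : ℝ) / s) * (c + 1) * s = 4 * D * (c + 1) := by field_simp
    linarith
  have hζ' := abs_le.1 hζ
  have hn1 : |e * (n0 : ℝ)| ≤ 1 / s * |(n0 : ℝ)| := by
    rw [abs_mul, abs_of_nonneg he0]
    exact mul_le_mul_of_nonneg_right he1 (abs_nonneg _)
  have hn2 := abs_le.1 hn1
  have hc1 : |4 * e * (c : ℝ)| ≤ 4 * (1 / s) * B := by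
    rw [abs_mul, abs_of_nonneg (by linarith)]
    exact mul_le_mul (by linarith) hc (abs_nonneg _) (by positivity)
  have hc2 : |4 * e * ((c : ℝ) + 1)| ≤ 4 * (1 / s) * (B + 1) := by
    rw [abs_mul, abs_of_nonneg (by linarith)]
    refine mul_le_mul (by linarith) ?_ (abs_nonneg _) (by positivity)
    refine (abs_add_le _ _).trans ?_
    rw [abs_one]
    linarith
  have hc1' := abs_le.1 hc1
  have hc2' := abs_le.1 hc2
  obtain ⟨A, hA⟩ : ∃ A : ℝ, A = (4 * (B + 1) + |(n0 : ℝ)|) / s := ⟨_, rfl⟩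
  have hA' : A = 4 * (1 / s) * (B + 1) + 1 / s * |(n0 : ℝ)| := by
    rw [hA]
    field_simp
  have hA1 : 4 * (1 / s) * B ≤ 4 * (1 / s) * (B + 1) := mul_le_mul_of_nonneg_left (by linarith) (by positivity)
  have b1 : 4 * μ * c - 2 * μ - A ≤ x := by
    rw [hx2, hA']
    have e1 : 4 * (μ - e) * (c : ℝ) = 4 * μ * c - 4 * e * c := by ring
    linarith [hζ'.1, hn2.1, hc1'.2, hP1]
  have b2 : x ≤ 4 * μ * (c + 1) + 2 * μ + A := by
    rw [hx2, hA']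
    have e1 : 4 * (μ - e) * ((c : ℝ) + 1) = 4 * μ * (c + 1) - 4 * e * (c + 1) := by ring
    linarith [hζ'.2, hn2.2, hc2'.1, hP2]
  have hA0 : 0 ≤ A := by
    rw [hA]
    positivity
  rw [← hx, ← hA]
  -- the clamp
  have k1 : 4 * μ * ((c - 1 : ℤ) : ℝ) = 4 * μ * c - 4 * μ := by push_cast; ring
  have k2 : 4 * μ * (((c - 1 : ℤ) : ℝ) + 1) = 4 * μ * c := by push_cast; ring
  have k3 : 4 * μ * ((c + 1 : ℤ) : ℝ) = 4 * μ * (c + 1) := by push_cast; ring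
  have k4 : 4 * μ * (((c + 1 : ℤ) : ℝ) + 1) = 4 * μ * (c + 1) + 4 * μ := by push_cast; ring
  rcases lt_or_ge x (4 * μ * c - 2 * μ) with g1 | g1
  · refine ⟨4 * μ * c - 2 * μ, c - 1, by simp, by linarith, by linarith, ?_⟩
    rw [abs_le]
    constructor <;> linarith
  rcases lt_or_ge (4 * μ * (c + 1) + 2 * μ) x with g2 | g2
  · refine ⟨4 * μ * (c + 1) + 2 * μ, c + 1, by simp, by linarith, by linarith, ?_⟩
    rw [abs_le]
    constructor <;> linarith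
  rcases lt_or_ge x (4 * μ * c) with g3 | g3
  · exact ⟨x, c - 1, by simp, by linarith, by linarith, by simpa using hA0⟩
  rcases lt_or_ge (4 * μ * (c + 1)) x with g4 | g4
  · exact ⟨x, c + 1, by simp, by linarith, by linarith, by simpa using hA0⟩
  · exact ⟨x, c, by simp, g3, g4, by simpa using hA0⟩

/-- both coordinates -/
lemma near2 {μ s : ℝ} {ζ : ℝ × ℝ} {D : ℤ} {P n0 : Pt} {C : ℤ × ℤ → Prop} {B : ℝ} (hμ : 0 < μ) (hs : 1 ≤ s) (hD : D = ⌊μ * s⌋)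
    (hD0 : 0 < D) (hP : C (HexObs.ARM.ce (4 * D) P)) (hζ : ‖ζ - (μ * n0.1, μ * n0.2)‖ ≤ 2 * μ)
    (hC : ∀ c, C c → |(c.1 : ℝ)| ≤ B ∧ |(c.2 : ℝ)| ≤ B) :
    ∃ x ∈ KK μ C, ‖JR ζ + JJ (P - D • n0) / s - JR x‖ ≤ 3 * (4 * (B + 1) + |(n0.1 : ℝ)| + |(n0.2 : ℝ)|) / s := by
  have hs0 : 0 < s := by linarith
  obtain ⟨c, hc⟩ : ∃ c : ℤ × ℤ, c = HexObs.ARM.ce (4 * D) P := ⟨_, rfl⟩
  have h4 : (0 : ℤ) < 4 * D := by omega
  have hc1 : c.1 = P.1 / (4 * D) := by rw [hc]; rfl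
  have hc2 : c.2 = P.2 / (4 * D) := by rw [hc]; rfl
  have a1 : 4 * D * c.1 ≤ P.1 := by rw [hc1]; exact Int.mul_ediv_self_le h4.ne'
  have a2 : P.1 < 4 * D * (c.1 + 1) := by
    rw [hc1]
    have := Int.lt_ediv_add_one_mul_self P.1 h4
    linarith
  have a3 : 4 * D * c.2 ≤ P.2 := by rw [hc2]; exact Int.mul_ediv_self_le h4.ne'
  have a4 : P.2 < 4 * D * (c.2 + 1) := by
    rw [hc2]
    have := Int.lt_ediv_add_one_mul_self P.2 h4
    linarith
  have z1 : |ζ.1 - μ * n0.1| ≤ 2 * μ := (norm_fst_le (ζ - (μ * n0.1, μ * n0.2))).trans hζ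
  have z2 : |ζ.2 - μ * n0.2| ≤ 2 * μ := (norm_snd_le (ζ - (μ * n0.1, μ * n0.2))).trans hζ
  obtain ⟨b1, b2⟩ := hC c (by rw [hc]; exact hP)
  obtain ⟨x1, c1, f1, f2, f3, f4⟩ := near1 hμ hs hD a1 a2 z1 b1
  obtain ⟨x2, c2, g1, g2, g3, g4⟩ := near1 hμ hs hD a3 a4 z2 b2
  refine ⟨(x1, x2), ⟨c, (c1, c2), by rw [hc]; exact hP, ?_, f2, f3, g2, g3⟩, ?_⟩
  · rw [HexObs.ARM.nr_iff]
    rw [abs_le] at f1 g1
    simp only
    omega
  · have e1 : JR ζ + JJ (P - D • n0) / s - JR (x1, x2) =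
        JR (ζ.1 + (P.1 - D * n0.1 : ℤ) / s - x1, ζ.2 + (P.2 - D * n0.2 : ℤ) / s - x2) := by
      unfold JR JJ
      apply Complex.ext
      · simp only [Complex.sub_re, Complex.add_re, Complex.div_ofReal_re, Prod.fst_sub, Prod.snd_sub, Prod.smul_fst,
          Prod.smul_snd, smul_eq_mul]
        ring
      · simp only [Complex.sub_im, Complex.add_im, Complex.div_ofReal_im, Prod.fst_sub, Prod.smul_fst, smul_eq_mul]
        ring
    rw [e1]
    refine (JR_norm_le _).trans ?_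
    rw [mul_div_assoc]
    refine mul_le_mul_of_nonneg_left ?_ (by norm_num)
    rw [Prod.norm_def]
    refine max_le ?_ ?_
    · refine f4.trans (div_le_div_of_nonneg_right ?_ hs0.le)
      linarith [abs_nonneg (n0.2 : ℝ)]
    · refine g4.trans (div_le_div_of_nonneg_right ?_ hs0.le)
      linarith [abs_nonneg (n0.1 : ℝ)]

end Pool.Agent.ROT.F3.Ln
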