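import Pool.Agent.ART.TubeSum

/-!
# ROT, F3, rows N1 (helper79): the tubes, summed over the lengths, with the lengths kept

* **`tubeSumL`** : tubeSumG of ART/TubeSum (helper59), the lengths between `ml k` and `3 ml k`.
-/

set_option autoImplicit false

namespace HexObs

namespace ART

namespace TL

open Finset TS SDN SIM NTA TIP ARM

open scoped ENNReal

/-- the length is between `ml k` and `3 ml k` -/
def Lg (k : ℕ) (Q : List Bool) : Prop := ml k ≤ Q.length ∧ (Q.length : ℝ) ≤ 3 * ml k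

/-- the sum over the lengths -/
lemma sum_len {H Mx k0 : ℕ} {c : ℝ}
    (hT : ∀ (k r b : ℕ) (D : ℤ) (e : ℕ → Pt) (z : Pt), k0 ≤ k →
    18 * (H * 2 ^ k) ≤ D → D ≤ 36 * (H * 2 ^ k) → 1 ≤ r → r ≤ Mx → IPg e r → e 0 = up →
    TIW.hn (z - AR.pv e D r) ≤ 2 ^ (k + 2) → cl z = (if Even b then 0 else 2) →
    cl (e (r - 1)) = (if Even b then 2 else 1) → 1 * ml k ≤ b → (b : ℝ) ≤ 3 * ml k →
    ENNReal.ofReal (c * (Ub k / (4 ^ k * ml k))) ≤ gf {Q | TubeQ e D (2 ^ (k + 9)) r z Q ∧ Q.length = b})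
    {k r : ℕ} {D : ℤ} {e : ℕ → Pt} {z : Pt} (hk : k0 ≤ k) (hk2 : 2 ≤ k) (hc : 0 < c)
    (hD1 : 18 * (H * 2 ^ k) ≤ D) (hD2 : D ≤ 36 * (H * 2 ^ k)) (hr : 1 ≤ r) (hr' : r ≤ Mx)
    (he : IPg e r) (hup : e 0 = up) (hz : TIW.hn (z - AR.pv e D r) ≤ 2 ^ (k + 2))
    (hcl : (cl z = 0 ∧ cl (e (r - 1)) = 2) ∨ (cl z = 2 ∧ cl (e (r - 1)) = 1)) :
    ENNReal.ofReal (c / 4 * (Ub k / 4 ^ k)) ≤ gf {Q | TubeQ e D (2 ^ (k + 9)) r z Q ∧ Lg k Q} := by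
  classical
  have hU : 0 < Ub k := Num2Aux.UU_pos _
  have hml := G3.ml_pos k
  have hm : 4 ≤ ml k := by
    unfold ml
    have h1 : (4 : ℝ) = (2 : ℝ) ^ (2 : ℝ) := by norm_num
    rw [h1]
    refine Real.rpow_le_rpow_of_exponent_le (by norm_num) ?_
    have h2 : (2 : ℝ) ≤ k := by exact_mod_cast hk2
    linarith
  obtain ⟨a, ha⟩ : ∃ a : ℕ, (Even a ∧ cl z = 0 ∧ cl (e (r - 1)) = 2) ∨ (¬ Even a ∧ cl z = 2 ∧ cl (e (r - 1)) = 1) := by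
    rcases hcl with h | h
    · exact ⟨0, Or.inl ⟨Even.zero, h⟩⟩
    · exact ⟨1, Or.inr ⟨by decide, h⟩⟩
  obtain ⟨B, hB⟩ : ∃ B : Finset ℕ, B = (Icc ⌈ml k⌉₊ ⌊3 * ml k⌋₊).filter fun b => b % 2 = a % 2 := ⟨_, rfl⟩
  have hcard : ml k / 4 ≤ (B.card : ℝ) := by
    have h1 := G3.par_card ⌈ml k⌉₊ ⌊3 * ml k⌋₊ a
    rw [← hB] at h1
    have h2 : (⌈ml k⌉₊ : ℝ) < ml k + 1 := Nat.ceil_lt_add_one hml.le
    have h3 : 3 * ml k < ⌊3 * ml k⌋₊ + 1 := Nat.lt_floor_add_one _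
    have h4 : ⌊3 * ml k⌋₊ ≤ 2 * B.card + 1 + ⌈ml k⌉₊ := by omega
    have h5 : (⌊3 * ml k⌋₊ : ℝ) ≤ 2 * B.card + 1 + ⌈ml k⌉₊ := by exact_mod_cast h4
    linarith
  have hsub : (⋃ b ∈ B, {Q | TubeQ e D (2 ^ (k + 9)) r z Q ∧ Q.length = b}) ⊆
      {Q | TubeQ e D (2 ^ (k + 9)) r z Q ∧ Lg k Q} := by
    intro Q hQ
    rw [Set.mem_iUnion₂] at hQ
    obtain ⟨b, hb, hQ1, hQ2⟩ := hQ
    rw [hB, mem_filter, mem_Icc] at hb
    refine ⟨hQ1, ?_, ?_⟩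
    · rw [hQ2]
      exact (Nat.le_ceil _).trans (by exact_mod_cast hb.1.1)
    · rw [hQ2]
      exact (Nat.cast_le.2 hb.1.2).trans (Nat.floor_le (by positivity))
  refine le_trans ?_ (gf_mono hsub)
  have hdis : ∀ i ∈ B, ∀ j ∈ B, i ≠ j → Disjoint {Q | TubeQ e D (2 ^ (k + 9)) r z Q ∧ Q.length = i}
      {Q | TubeQ e D (2 ^ (k + 9)) r z Q ∧ Q.length = j} := by
    intro i _ j _ hij
    rw [Set.disjoint_left]
    rintro Q ⟨-, h1⟩ ⟨-, h2⟩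
    exact hij (h1.symm.trans h2)
  rw [gf_biUnion _ _ hdis]
  have key : ∀ b ∈ B, ENNReal.ofReal (c * (Ub k / (4 ^ k * ml k))) ≤
      gf {Q | TubeQ e D (2 ^ (k + 9)) r z Q ∧ Q.length = b} := by
    intro b hb
    rw [hB, mem_filter, mem_Icc] at hb
    obtain ⟨⟨hb1, hb2⟩, hb3⟩ := hb
    have hpar : Even b ↔ Even a := by
      rw [Nat.even_iff, Nat.even_iff, hb3]
    refine hT k r b D e z hk hD1 hD2 hr hr' he hup hz ?_ ?_ ?_ ?_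
    · rcases ha with ⟨h1, h2, -⟩ | ⟨h1, h2, -⟩
      · rw [if_pos (hpar.2 h1), h2]
      · rw [if_neg (fun h => h1 (hpar.1 h)), h2]
    · rcases ha with ⟨h1, -, h2⟩ | ⟨h1, -, h2⟩
      · rw [if_pos (hpar.2 h1), h2]
      · rw [if_neg (fun h => h1 (hpar.1 h)), h2]
    · rw [one_mul]
      exact (Nat.le_ceil _).trans (by exact_mod_cast hb1)
    · exact (Nat.cast_le.2 hb2).trans (Nat.floor_le (by positivity))
  calc ENNReal.ofReal (c / 4 * (Ub k / 4 ^ k)) ≤ ENNReal.ofReal (B.card * (c * (Ub k / (4 ^ k * ml k)))) := by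
        refine ENNReal.ofReal_le_ofReal ?_
        have h1 : ml k / 4 * (c * (Ub k / (4 ^ k * ml k))) ≤ B.card * (c * (Ub k / (4 ^ k * ml k))) :=
          mul_le_mul_of_nonneg_right hcard (by positivity)
        refine le_trans (le_of_eq ?_) h1
        field_simp
    _ = ∑ b ∈ B, ENNReal.ofReal (c * (Ub k / (4 ^ k * ml k))) := by
        rw [sum_const, nsmul_eq_mul, ENNReal.ofReal_mul (by positivity), ENNReal.ofReal_natCast]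
    _ ≤ _ := sum_le_sum key

/-- the sum over the ends of a disc -/
lemma sum_end {x : ℝ} {k r : ℕ} {D w : ℤ} {e : ℕ → Pt} (p : Pt) (S : Set (List Bool)) (he : IPg e r) (hr : 1 ≤ r) {a : ℝ} (ha : 0 < a)
    (hak : 24 ≤ a * 2 ^ k) (hx : 0 ≤ x) (hp : ((TIW.hn (p - AR.pv e D r) : ℤ) : ℝ) + a * 2 ^ k ≤ 2 ^ (k + 2))
    (h : ∀ z, TIW.hn (z - AR.pv e D r) ≤ 2 ^ (k + 2) →
      ((cl z = 0 ∧ cl (e (r - 1)) = 2) ∨ (cl z = 2 ∧ cl (e (r - 1)) = 1)) →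
      ENNReal.ofReal (x / 4 ^ k) ≤ gf {Q | TubeQ e D w r z Q ∧ Q ∈ S}) :
    ENNReal.ofReal (a ^ 2 / 576 * x) ≤
      gf {Q | TubeQ e D w r (TIW.en Q) Q ∧ ((TIW.hn (TIW.en Q - p) : ℤ) : ℝ) ≤ a * 2 ^ k ∧ Q ∈ S} := by
  classical
  obtain ⟨m, hm⟩ : ∃ m : ℕ, m = ⌊(a * 2 ^ k - 6) / 9⌋₊ := ⟨_, rfl⟩
  have hm1 : (9 : ℝ) * m + 6 ≤ a * 2 ^ k := by
    have h1 : (m : ℝ) ≤ (a * 2 ^ k - 6) / 9 := by
      rw [hm]
      exact Nat.floor_le (by linarith)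
    linarith
  have hm2 : a * 2 ^ k / 24 ≤ m := by
    have h1 : (a * 2 ^ k - 6) / 9 < m + 1 := by
      rw [hm]
      exact Nat.lt_floor_add_one _
    linarith
  obtain ⟨q, hq⟩ : ∃ q : ZMod 3, (q = 0 ∧ cl (e (r - 1)) = 2) ∨ (q = 2 ∧ cl (e (r - 1)) = 1) := by
    rcases TSum.dir_cl (e (r - 1)) (he.dir (r - 1) (by omega)) with h1 | h1
    · exact ⟨2, Or.inr ⟨rfl, h1⟩⟩
    · exact ⟨0, Or.inl ⟨rfl, h1⟩⟩
  obtain ⟨Z, hZc, hZ⟩ := TSum.disc_pts p q m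
  have hZr : ∀ z ∈ Z, ((TIW.hn (z - p) : ℤ) : ℝ) ≤ a * 2 ^ k := by
    intro z hz
    have h1 := (hZ z hz).2
    have h2 : ((TIW.hn (z - p) : ℤ) : ℝ) ≤ 9 * m + 6 := by exact_mod_cast h1
    linarith
  have hsub : (⋃ z ∈ Z, {Q | TubeQ e D w r z Q ∧ Q ∈ S}) ⊆
      {Q | TubeQ e D w r (TIW.en Q) Q ∧ ((TIW.hn (TIW.en Q - p) : ℤ) : ℝ) ≤ a * 2 ^ k ∧ Q ∈ S} := by
    intro Q hQ
    rw [Set.mem_iUnion₂] at hQ
    obtain ⟨z, hz, hQ, hQS⟩ := hQ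
    have h1 : TIW.en Q = z := hQ.en
    refine ⟨?_, ?_, hQS⟩
    · rw [h1]
      exact hQ
    · rw [h1]
      exact hZr z hz
  refine le_trans ?_ (gf_mono hsub)
  have hdis : ∀ i ∈ Z, ∀ j ∈ Z, i ≠ j → Disjoint {Q | TubeQ e D w r i Q ∧ Q ∈ S} {Q | TubeQ e D w r j Q ∧ Q ∈ S} := by
    intro i _ j _ hij
    rw [Set.disjoint_left]
    intro Q h1 h2
    exact hij (h1.1.en.symm.trans h2.1.en)
  rw [gf_biUnion _ _ hdis]
  have key : ∀ z ∈ Z, ENNReal.ofReal (x / 4 ^ k) ≤ gf {Q | TubeQ e D w r z Q ∧ Q ∈ S} := by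
    intro z hz
    obtain ⟨h1, h2⟩ := hZ z hz
    refine h z ?_ ?_
    · have e1 : z - AR.pv e D r = (z - p) + (p - AR.pv e D r) := by abel
      rw [e1]
      have h3 := hZr z hz
      have h4 : ((TIW.hn ((z - p) + (p - AR.pv e D r)) : ℤ) : ℝ) ≤ ((TIW.hn (z - p) + TIW.hn (p - AR.pv e D r) : ℤ) : ℝ) := by
        exact_mod_cast TIW.hn_add _ _
      have h5 : ((TIW.hn ((z - p) + (p - AR.pv e D r)) : ℤ) : ℝ) ≤ ((2 ^ (k + 2) : ℤ) : ℝ) := by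
        push_cast at h4 ⊢
        linarith
      exact_mod_cast h5
    · rcases hq with ⟨h3, h4⟩ | ⟨h3, h4⟩
      · exact Or.inl ⟨h1.trans h3, h4⟩
      · exact Or.inr ⟨h1.trans h3, h4⟩
  calc ENNReal.ofReal (a ^ 2 / 576 * x) ≤ ENNReal.ofReal (Z.card * (x / 4 ^ k)) := by
        refine ENNReal.ofReal_le_ofReal ?_
        rw [hZc]
        push_cast
        have h1 : (a * 2 ^ k / 24) ^ 2 ≤ (m : ℝ) ^ 2 := pow_le_pow_left₀ (by positivity) hm2 2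
        have h4 : (4 : ℝ) ^ k = 2 ^ k * 2 ^ k := by
          rw [← mul_pow]
          norm_num
        calc a ^ 2 / 576 * x = (a * 2 ^ k / 24) ^ 2 * (x / 4 ^ k) := by
              rw [h4]
              field_simp
              ring
          _ ≤ m ^ 2 * (x / 4 ^ k) := mul_le_mul_of_nonneg_right h1 (by positivity)
    _ = ∑ z ∈ Z, ENNReal.ofReal (x / 4 ^ k) := by
        rw [sum_const, nsmul_eq_mul, ENNReal.ofReal_mul (by positivity), ENNReal.ofReal_natCast]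
    _ ≤ _ := sum_le_sum key

/-- **the tubes, summed over the lengths, general form**: exact end z; free end in the disc of radius a 2 ^ k about p, any disc
within 2 ^ (k + 2) of the end of the path; the lengths are between `ml k` and `3 ml k` -/
theorem tubeSumL : ∃ H0 : ℕ, 2 ^ 13 ≤ H0 ∧ ∀ H : ℕ, H0 ≤ H → ∀ (Mx : ℕ) (a : ℝ), 0 < a → a ≤ 4 →
    ∃ (c : ℝ) (k0 : ℕ), 0 < c ∧ ∀ (k r : ℕ) (D : ℤ) (e : ℕ → Pt), k0 ≤ k →
      18 * (H * 2 ^ k) ≤ D → D ≤ 36 * (H * 2 ^ k) → 1 ≤ r → r ≤ Mx → IPg e r → e 0 = up →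
      (∀ z : Pt, TIW.hn (z - AR.pv e D r) ≤ 2 ^ (k + 2) →
        ((cl z = 0 ∧ cl (e (r - 1)) = 2) ∨ (cl z = 2 ∧ cl (e (r - 1)) = 1)) →
        ENNReal.ofReal (c * (Ub k / 4 ^ k)) ≤ gf {Q | TubeQ e D (2 ^ (k + 9)) r z Q ∧ Lg k Q}) ∧
      ∀ p : Pt, ((TIW.hn (p - AR.pv e D r) : ℤ) : ℝ) + a * 2 ^ k ≤ 2 ^ (k + 2) → ENNReal.ofReal (c * Ub k) ≤
        gf {Q | TubeQ e D (2 ^ (k + 9)) r (TIW.en Q) Q ∧ ((TIW.hn (TIW.en Q - p) : ℤ) : ℝ) ≤ a * 2 ^ k ∧ Lg k Q} := by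
  obtain ⟨H0, hH0, hT⟩ := AR.tubeSt 1 3 (by norm_num) (by norm_num)
  refine ⟨H0, hH0, fun H hH Mx a ha ha2 => ?_⟩
  obtain ⟨c, k0, hc, hT⟩ := hT H hH Mx
  obtain ⟨k1, hk1⟩ : ∃ k1 : ℕ, 24 / a ≤ (2 : ℝ) ^ k1 := by
    obtain ⟨k1, h⟩ := pow_unbounded_of_one_lt (24 / a) (one_lt_two)
    exact ⟨k1, h.le⟩
  have hca : a ^ 2 / 576 ≤ 1 := by nlinarith
  refine ⟨a ^ 2 / 576 * (c / 4), k0 + k1 + 2, by positivity, fun k r D e hk hD1 hD2 hr hr' he hup => ?_⟩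
  have hU : 0 < Ub k := Num2Aux.UU_pos _
  have h4 : (0 : ℝ) < 4 ^ k := by positivity
  have hx : ∀ z : Pt, TIW.hn (z - AR.pv e D r) ≤ 2 ^ (k + 2) →
      ((cl z = 0 ∧ cl (e (r - 1)) = 2) ∨ (cl z = 2 ∧ cl (e (r - 1)) = 1)) →
      ENNReal.ofReal (c / 4 * (Ub k / 4 ^ k)) ≤ gf {Q | TubeQ e D (2 ^ (k + 9)) r z Q ∧ Lg k Q} := fun z hz hcl =>
    sum_len hT (by omega) (by omega) hc hD1 hD2 hr hr' he hup hz hcl
  refine ⟨fun z hz hcl => ?_, fun p hp => ?_⟩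
  · refine (ENNReal.ofReal_le_ofReal ?_).trans (hx z hz hcl)
    have h5 : 0 < c / 4 * (Ub k / 4 ^ k) := by positivity
    nlinarith
  · have hak : 24 ≤ a * 2 ^ k := by
      have h6 : (2 : ℝ) ^ k1 ≤ 2 ^ k := pow_le_pow_right₀ (by norm_num) (by omega)
      have h7 : 24 ≤ 2 ^ k1 * a := by rwa [div_le_iff₀ ha] at hk1
      nlinarith
    have h8 := sum_end (x := c / 4 * Ub k) (w := 2 ^ (k + 9)) p {Q | Lg k Q} he hr ha hak (by positivity) hp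
      (fun z hz hcl => by
        have h9 := hx z hz hcl
        rwa [← mul_div_assoc] at h9)
    rwa [← mul_assoc] at h8

end TL

end ART

end HexObs
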