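import Pool.Agent.ROT.F3Td
import Pool.Agent.ROT.F3TubeL
import Pool.Agent.ROT.F3Dbl

/-!
# ROT, F3 (B), row W7 (helper79): the tube words of a companion are rests of the classes

* `comp_massL` : comp_mass (helper39) with the lengths kept;
* `RestB.cone`, `RestB.mono`, **`RestB.rsK`** : the cones and the class `RsK` (helper82);
* **`lane_RestB`, `lane_RsK`** : all tube words of a companion, for all large scales.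
-/

set_option autoImplicit false

namespace HexObs

namespace ROT

namespace F3S

open Finset TS SDN _root_.HexObs.SIM NTA TIP TIW ARM ART

open scoped ENNReal

/-- **the mass of the words of a companion, with their lengths** -/
theorem comp_massL : ∃ H0 : ℕ, 2 ^ 13 ≤ H0 ∧ ∀ H : ℕ, H0 ≤ H → ∀ (Mx : ℕ) (a : ℝ), 0 < a → a ≤ 4 → ∃ (c : ℝ) (k0 : ℕ),
    0 < c ∧ ∀ {M : List (ℤ × ℤ)} {x0 x1 ω0 ω1 : ℤ × ℤ} {s s' : ℕ} {u : Pt} {n : ℕ} {E : ℕ → Pt},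
    PathC M x0 x1 ω0 ω1 s s' u n E → 1 ≤ s → 1 ≤ s' → n ≤ Mx →
    ∀ (k : ℕ) (D : ℤ), k0 ≤ k → 18 * (H * 2 ^ k) ≤ D → D ≤ 36 * (H * 2 ^ k) →
      (∀ z : Pt, TIW.hn (z - AR.pv E D n) ≤ 2 ^ (k + 2) →
        ((cl z = 0 ∧ cl (E (n - 1)) = 2) ∨ (cl z = 2 ∧ cl (E (n - 1)) = 1)) →
        ENNReal.ofReal (c * (Ub k / 4 ^ k)) ≤ gf {Q | TubeQ E D (2 ^ (k + 9)) n z Q ∧ TL.Lg k Q}) ∧
      ∀ p : Pt, ((TIW.hn (p - AR.pv E D n) : ℤ) : ℝ) + a * 2 ^ k ≤ 2 ^ (k + 2) → ENNReal.ofReal (c * Ub k) ≤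
        gf {Q | TubeQ E D (2 ^ (k + 9)) n (TIW.en Q) Q ∧ ((TIW.hn (TIW.en Q - p) : ℤ) : ℝ) ≤ a * 2 ^ k ∧ TL.Lg k Q} := by
  obtain ⟨H0, hH0, h⟩ := TL.tubeSumL
  refine ⟨H0, hH0, fun H hH Mx a ha ha4 => ?_⟩
  obtain ⟨c, k0, hc, h⟩ := h H hH Mx a ha ha4
  refine ⟨c, k0, hc, fun {M x0 x1 ω0 ω1 s s' u n E} hP hs hs' hn k D hk hD1 hD2 => ?_⟩
  exact h k n D E hk hD1 hD2 (by have := hP.le; omega) hn hP.ipg (hP.fst 0 (by omega))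

end F3S

end ROT

end HexObs

namespace Pool.Agent.ROT.F3.Tb

open Finset
open HexObs (Pt vx dx oo up dirs ip nrm cl rotL rotR wE gf tf mulE conjE)
open HexObs.ROT.F3S (PathC)
open NTF (sw JJ aa)
open Pool.Agent.TSW.BP (rt3 cr pos_rt3 cr_norm)
open Pool.Agent.NTS.Res (step pos saw fug)

open scoped ENNReal ComplexConjugate

/-! ### 1. Cones -/

section rests

variable {R : W3} {a b : Fin 3} {R0 R1 d0 d1 : ℝ}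

lemma RestB.mono (h : RestB R a b R0 R1 d0 d1) {R0' R1' d0' d1' : ℝ} (h0 : R0' ≤ R0) (h1 : R1' ≤ R1) (h2 : d0 ≤ d0')
    (h3 : d1 ≤ d1') : RestB R a b R0' R1' d0' d1' := by
  refine ⟨h.ev, h.sw, fun k k1 k2 k3 => ?_, fun k k1 k2 k3 => ?_⟩
  · obtain ⟨g1, x, g2, g3⟩ := h.st k k1 k2 (k3.trans_le h0)
    exact ⟨g1, x, g2, g3.trans h2⟩
  · obtain ⟨g1, x, g2, g3⟩ := h.sp k k1 k2 (k3.trans_le h1)
    exact ⟨g1, x, g2, g3.trans h3⟩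

/-- near a half line: in every cone about it, up to the distance -/
lemma cone_of {v : ℂ} {d x : ℝ} (hx : 0 ≤ x) (h : ‖v - x * step 0 a‖ ≤ d) : ‖v‖ - 2 * d ≤ lv (step 0 a) v := by
  have h1 : ‖v‖ ≤ x + d := by
    have e1 : v = (v - x * step 0 a) + x * step 0 a := by ring
    have h2 : ‖(x : ℂ) * step 0 a‖ = x := by
      rw [norm_mul, step_norm, mul_one, Complex.norm_real, Real.norm_of_nonneg hx]
    calc ‖v‖ = ‖(v - x * step 0 a) + x * step 0 a‖ := by rw [← e1]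
      _ ≤ ‖v - x * step 0 a‖ + ‖(x : ℂ) * step 0 a‖ := norm_add_le _ _
      _ ≤ x + d := by rw [h2]; linarith
  have h3 : lv (step 0 a) v = x + lv (step 0 a) (v - x * step 0 a) := by
    unfold lv
    have e2 : conj (step 0 a) * step 0 a = 1 := by
      rw [Complex.conj_mul', step_norm]
      norm_num
    have e3 : conj (step 0 a) * v = (x : ℂ) * (conj (step 0 a) * step 0 a) + conj (step 0 a) * (v - x * step 0 a) := by ring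
    rw [e3, e2, mul_one, Complex.add_re, Complex.ofReal_re]
  have h4 : |lv (step 0 a) (v - x * step 0 a)| ≤ d := by
    unfold lv
    refine (Complex.abs_re_le_norm _).trans ?_
    rw [norm_mul, RCLike.norm_conj, step_norm, one_mul]
    exact h
  rw [abs_le] at h4
  linarith

lemma RestB.cone0 (h : RestB R a b R0 R1 d0 d1) {k : ℕ} (h1 : 1 ≤ k) (hk : k ≤ R.length) (hb : ‖ps R k‖ < R0) :
    0 < lv (step 0 a) (ps R k) ∧ ‖ps R k‖ - 2 * d0 ≤ lv (step 0 a) (ps R k) := by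
  obtain ⟨g1, x, g2, g3⟩ := h.st k h1 hk hb
  exact ⟨g1, cone_of g2 g3⟩

lemma RestB.cone1 (h : RestB R a b R0 R1 d0 d1) {k : ℕ} (h1 : 1 ≤ k) (hk : k ≤ R.length) (hb : ‖ps R.reverse k‖ < R1) :
    0 < lv (step 0 b) (ps R.reverse k) ∧ ‖ps R.reverse k‖ - 2 * d1 ≤ lv (step 0 b) (ps R.reverse k) := by
  obtain ⟨g1, x, g2, g3⟩ := h.sp k h1 hk hb
  exact ⟨g1, cone_of g2 g3⟩

/-- **the class of the rests between two gates** -/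
lemma RestB.rsK (h : RestB R a b R0 R1 d0 d1) {r0 r1 κ κ' D : ℝ} (h0 : r0 < R0) (h1 : r1 < R1) (hk : 2 * d0 < κ)
    (hk' : 2 * d1 < κ') (hD : D ≤ ‖en R‖) : RsK (step 0 a) (step 0 b) r0 r1 κ κ' D R := by
  refine ⟨h.ev, h.sw, fun k k1 k2 k3 => ?_, fun k k1 k2 k3 => ?_, hD⟩
  · obtain ⟨g1, g2⟩ := h.cone0 k1 k2 (k3.trans_lt h0)
    exact ⟨g1, by linarith [norm_nonneg (ps R k)]⟩
  · rw [List.length_reverse] at k2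
    obtain ⟨g1, g2⟩ := h.cone1 k1 k2 (k3.trans_lt h1)
    exact ⟨g1, by linarith [norm_nonneg (ps R.reverse k)]⟩

end rests

/-! ### 2. All tube words of a companion -/

/-- the end of a tube word -/
lemma en_tub {E : ℕ → Pt} {D w B : ℤ} {n : ℕ} {z : Pt} {Q : List Bool} (hD : 0 ≤ D) (hQ : HexObs.ARM.TubeQ E D w n z Q)
    (hz : HexObs.TIW.hn (z - HexObs.AR.pv E D n) ≤ B) (a : Fin 3) :
    |‖en (wd a Q)‖ - D * ‖JJ (HexObs.AR.ps E n)‖| ≤ B + 2 := by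
  have hD' : (0 : ℝ) ≤ D := by exact_mod_cast hD
  have h3 := norm_JJ_le (enp Q - HexObs.AR.pv E D n)
  have h4 : (HexObs.TIW.hn (enp Q - HexObs.AR.pv E D n) : ℝ) ≤ B + 2 := by exact_mod_cast enp_near hQ hz
  have h5 : ‖JJ (HexObs.AR.pv E D n)‖ = D * ‖JJ (HexObs.AR.ps E n)‖ := by
    unfold HexObs.AR.pv
    rw [JJ_smul, norm_mul, Complex.norm_intCast, abs_of_nonneg hD']
  rw [en_wd, norm_mul, cr_norm, one_mul, ← h5]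
  refine (abs_norm_sub_norm_le _ _).trans ?_
  rw [← NTF.JJ_sub]
  linarith

/-- **all tube words of a companion**, at all large scales `S`, mesh `D = floor (μ S)` -/
theorem lane_RestB {M : List (ℤ × ℤ)} {x0 x1 ω0 ω1 : ℤ × ℤ} {s s' n : ℕ} {u : Pt} {E : ℕ → Pt}
    (h : PathC M x0 x1 ω0 ω1 s s' u n E) (hs : 1 ≤ s) (hs' : 1 ≤ s') (hc : cl (E (n - 1)) = 1) {μ ρ0 ρ1 : ℝ} (hμ : 0 < μ)
    (g0 : ∀ y ∈ HexObs.ART.SN M, ρ0 ≤ ‖JJ (y - (HexObs.ART.ctr x0 + (s : ℤ) • ω0))‖)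
    (g0' : ∀ j : ℕ, j ≤ s' → ρ0 ≤ ‖JJ (HexObs.ART.ctr x1 + (j : ℤ) • ω1 - (HexObs.ART.ctr x0 + (s : ℤ) • ω0))‖)
    (g1 : ∀ y ∈ HexObs.ART.SN M, ρ1 ≤ ‖JJ (y - (HexObs.ART.ctr x1 + (s' : ℤ) • ω1))‖)
    (g1' : ∀ j : ℕ, j ≤ s → ρ1 ≤ ‖JJ (HexObs.ART.ctr x0 + (j : ℤ) • ω0 - (HexObs.ART.ctr x1 + (s' : ℤ) • ω1))‖)
    {H : ℕ} (hH : 2 ^ 13 ≤ H) {r0 r1 : ℝ} (hr0 : 0 ≤ r0) (hr0' : r0 + 2 * μ ≤ μ * ρ0) (hr1 : 0 ≤ r1)
    (hr1' : r1 + 2 * μ ≤ μ * ρ1) :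
    ∃ S0 : ℝ, ∀ S : ℝ, S0 ≤ S → ∀ (k : ℕ) (D : ℤ), D = ⌊μ * S⌋ → 18 * ((H : ℤ) * 2 ^ k) ≤ D →
      ∀ (z : Pt) (Q : List Bool), HexObs.ARM.TubeQ E D (2 ^ (k + 9)) n z Q →
      HexObs.TIW.hn (z - HexObs.AR.pv E D n) ≤ 2 ^ (k + 2) → ∀ a : Fin 3,
      RestB (wd a Q) a (aa (E (n - 1)) + a) (r0 * S) (r1 * S) (μ * S / 200) (μ * S / 100) ∧
        |‖en (wd a Q)‖ - μ * S * ‖JJ (HexObs.ART.ctr x1 + (s' : ℤ) • ω1 - (HexObs.ART.ctr x0 + (s : ℤ) • ω0))‖| ≤ μ * S / 100 := by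
  obtain ⟨ρ2, hρ2⟩ : ∃ ρ2 : ℝ, ρ2 = ‖JJ (HexObs.ART.ctr x1 + (s' : ℤ) • ω1 - (HexObs.ART.ctr x0 + (s : ℤ) • ω0))‖ := ⟨_, rfl⟩
  have hρ2' : 0 ≤ ρ2 := by rw [hρ2]; exact norm_nonneg _
  have h00 : 2 ≤ ρ0 := by nlinarith
  have h11 : 2 ≤ ρ1 := by nlinarith
  have hps : ‖JJ (HexObs.AR.ps E n)‖ = ρ2 := by
    rw [h.tot, norm_JJ_mulE (HexObs.mem_dirs.1 h.u_mem), hρ2]
  refine ⟨(1001 + 200 * ρ2 + 2 * ρ0 + 2 * ρ1) / μ, fun S hS k D hD hD1 z Q hQ hz a => ?_⟩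
  rw [div_le_iff₀ hμ] at hS
  have hS' : 1001 + 200 * ρ2 + 2 * ρ0 + 2 * ρ1 ≤ μ * S := by linarith
  have hD2 : (D : ℝ) ≤ μ * S := by rw [hD]; exact Int.floor_le _
  have hD3 : μ * S < D + 1 := by rw [hD]; exact Int.lt_floor_add_one _
  have hD4 : (1000 : ℝ) < D := by linarith
  have hD4' : (1000 : ℤ) < D := by exact_mod_cast hD4
  have hD5 : 0 ≤ D := by linarith
  have hk0 : (0 : ℤ) < 2 ^ k := by positivity
  have hH' : (2 : ℤ) ^ 13 ≤ H := by exact_mod_cast hH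
  have hk1 : 147456 * (2 : ℤ) ^ k ≤ D := by nlinarith
  have q9 : (2 : ℤ) ^ (k + 9) = 512 * 2 ^ k := by ring
  have q2 : (2 : ℤ) ^ (k + 2) = 4 * 2 ^ k := by ring
  have hB := pathB_of (D := D) (R0 := D * ρ0) (R1 := D * ρ1) h hs hs' hD5
    (fun y hy => mul_le_mul_of_nonneg_left (g0 y hy) (by linarith)) (fun j hj => mul_le_mul_of_nonneg_left (g0' j hj) (by linarith))
    (fun y hy => mul_le_mul_of_nonneg_left (g1 y hy) (by linarith)) (fun j hj => mul_le_mul_of_nonneg_left (g1' j hj) (by linarith))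
  have hk2 : 147456 * (2 : ℝ) ^ k ≤ D := by exact_mod_cast hk1
  have e9 : ((2 ^ (k + 9) : ℤ) : ℝ) = 512 * 2 ^ k := by rw [q9]; push_cast; ring
  have e2 : ((2 ^ (k + 2) : ℤ) : ℝ) = 4 * 2 ^ k := by rw [q2]; push_cast; ring
  have hDρ1 : (D : ℝ) * 2 ≤ D * ρ1 := mul_le_mul_of_nonneg_left h11 (by linarith)
  have main := tub_rest (w := 2 ^ (k + 9)) (B := 2 ^ (k + 2)) hB (by positivity) (by positivity) (by rw [q9, q2]; linarith)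
    (by rw [q9, q2]; linarith) (by rw [e9, e2]; linarith) hc hQ hz a
  refine ⟨main.mono ?_ ?_ ?_ ?_, ?_⟩
  · rw [e9]
    nlinarith
  · rw [e9, e2]
    nlinarith
  · rw [e9]
    linarith
  · rw [e9, e2]
    linarith
  · have h1 := en_tub hD5 hQ hz a
    rw [e2, hps, abs_le] at h1
    rw [← hρ2, abs_le]
    obtain ⟨h2, h3⟩ := h1
    have h4 : (D : ℝ) * ρ2 ≤ μ * S * ρ2 := mul_le_mul_of_nonneg_right hD2 hρ2'
    have h5 : μ * S * ρ2 ≤ (D + 1) * ρ2 := mul_le_mul_of_nonneg_right hD3.le hρ2'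
    constructor <;> nlinarith

/-- **all tube words of a companion are rests of the class `RsK`** -/
theorem lane_RsK {M : List (ℤ × ℤ)} {x0 x1 ω0 ω1 : ℤ × ℤ} {s s' n : ℕ} {u : Pt} {E : ℕ → Pt}
    (h : PathC M x0 x1 ω0 ω1 s s' u n E) (hs : 1 ≤ s) (hs' : 1 ≤ s') (hc : cl (E (n - 1)) = 1) {μ ρ0 ρ1 : ℝ} (hμ : 0 < μ)
    (g0 : ∀ y ∈ HexObs.ART.SN M, ρ0 ≤ ‖JJ (y - (HexObs.ART.ctr x0 + (s : ℤ) • ω0))‖)
    (g0' : ∀ j : ℕ, j ≤ s' → ρ0 ≤ ‖JJ (HexObs.ART.ctr x1 + (j : ℤ) • ω1 - (HexObs.ART.ctr x0 + (s : ℤ) • ω0))‖)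
    (g1 : ∀ y ∈ HexObs.ART.SN M, ρ1 ≤ ‖JJ (y - (HexObs.ART.ctr x1 + (s' : ℤ) • ω1))‖)
    (g1' : ∀ j : ℕ, j ≤ s → ρ1 ≤ ‖JJ (HexObs.ART.ctr x0 + (j : ℤ) • ω0 - (HexObs.ART.ctr x1 + (s' : ℤ) • ω1))‖)
    {H : ℕ} (hH : 2 ^ 13 ≤ H) {r0 r1 κ κ' Δ : ℝ} (hr0 : 0 ≤ r0) (hr0' : r0 + 3 * μ ≤ μ * ρ0) (hr1 : 0 ≤ r1)
    (hr1' : r1 + 3 * μ ≤ μ * ρ1) (hκ : μ ≤ 50 * κ) (hκ' : μ ≤ 25 * κ')
    (hΔ : Δ + μ ≤ μ * ‖JJ (HexObs.ART.ctr x1 + (s' : ℤ) • ω1 - (HexObs.ART.ctr x0 + (s : ℤ) • ω0))‖) :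
    ∃ S0 : ℝ, ∀ S : ℝ, S0 ≤ S → ∀ (k : ℕ) (D : ℤ), D = ⌊μ * S⌋ → 18 * ((H : ℤ) * 2 ^ k) ≤ D →
      ∀ (z : Pt) (Q : List Bool), HexObs.ARM.TubeQ E D (2 ^ (k + 9)) n z Q →
      HexObs.TIW.hn (z - HexObs.AR.pv E D n) ≤ 2 ^ (k + 2) → ∀ a : Fin 3,
      RsK (step 0 a) (step 0 (aa (E (n - 1)) + a)) (r0 * S) (r1 * S) (κ * S) (κ' * S) (Δ * S) (wd a Q) := by
  obtain ⟨S0, hS0⟩ := lane_RestB h hs hs' hc hμ g0 g0' g1 g1' hH (r0 := r0 + μ) (r1 := r1 + μ) (by linarith) (by linarith)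
    (by linarith) (by linarith)
  refine ⟨max S0 1, fun S hS k D hD hD1 z Q hQ hz a => ?_⟩
  obtain ⟨m1, m2⟩ := hS0 S ((le_max_left _ _).trans hS) k D hD hD1 z Q hQ hz a
  have hS1 : 1 ≤ S := (le_max_right _ _).trans hS
  have hμS : 0 < μ * S := by positivity
  refine m1.rsK ?_ ?_ ?_ ?_ ?_
  · nlinarith
  · nlinarith
  · nlinarith
  · nlinarith
  · rw [abs_le] at m2
    nlinarith [m2.1]

end Pool.Agent.ROT.F3.Tb
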