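import Pool.Agent.ROT.F3LowT
import Pool.Agent.ROT.F3L1
import Pool.Agent.ROT.F3Te
import Pool.Agent.RMP.PubWA

/-!
# ROT, F3 (B), row W7 (helper37): one companion at finite `N` and in the limit

* **`lane_pos`** : the vertices of the words of a companion (mesh `D = ⌊μ s⌋`, start `ζ` within `2 μ` of the start node) are within
  `A / s` of `KK μ (CC ..)`;
* **`lane_mass`** : the exact ends in the ball of radius `μ / (40 H)` have masses at least `c s ^ (3 / 4) / s ^ 2` (words of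
  lengths between `ml k` and `3 ml k`);
* **`lane_ac`** : the clause of `sup_loc` for one companion.
-/

set_option autoImplicit false

namespace Pool.Agent.ROT.F3.Ln

open Finset Filter Topology
open HexObs (Pt vx dx oo up dirs ip nrm cl rotL rotR wE gf tf mulE conjE)
open HexObs.TS (Ub)
open NTF (sw JJ aa)
open Pool.Agent.TSW.BP (rt3 cr pos_rt3 cr_norm)
open Pool.Agent.NTS.Res (step pos saw fug)
open Pool.Agent.ROT.F3.Tb
open HexObs.ROT.F3S (PathC CC CN)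
open HexObs.ARM (TubeQ nr)

open scoped ENNReal MeasureTheory

/-! ### 1. The frame -/

/-- the factor from the frame of the cells to the frame of the word with the class `a` -/
noncomputable def kap (a : Fin 3) (ω0 : Pt) : ℂ := cr a / JJ (-ω0)

lemma kap_norm (a : Fin 3) {ω0 : Pt} (h : -ω0 ∈ dirs) : ‖kap a ω0‖ = 1 := by
  unfold kap
  rw [norm_div, cr_norm, norm_JJ_dir h, div_one]

/-- if the first direction is `Ed a`, the frames are the same -/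
lemma kap_one {a : Fin 3} {ω0 : Pt} (ha : -ω0 = NTF.Ed a) : kap a ω0 = 1 := by
  unfold kap
  rw [ha, JJ_Ed', ← cr_step, div_self (cr_ne a)]

/-- if the first direction is `- Ed c`, the factor depends only on `a - c` -/
lemma kap_neg {a c : Fin 3} {ω0 : Pt} (ha : -ω0 = -NTF.Ed c) : kap a ω0 = -cr (a - c) := by
  unfold kap
  have h1 : cr a = cr (a - c) * cr c := by
    rw [cr_step, cr_step, cr_step, step_mul, add_sub_cancel]
  rw [ha, NTF.JJ_neg, JJ_Ed', ← cr_step, h1, div_neg, mul_div_assoc, div_self (cr_ne c), mul_one]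

/-- the frame of the word and the frame of the cells -/
lemma cr_frame {a : Fin 3} {u ω0 : Pt} (hu : u ∈ dirs) (hup : mulE u (-ω0) = up) (hw : -ω0 ∈ dirs) (v : Pt) :
    cr a * JJ v = kap a ω0 * JJ (mulE (conjE u) v) := by
  have e1 : mulE (conjE u) up = -ω0 := by
    rw [← hup]
    exact HexObs.RMP.J5.conj_mulE hu _
  have e2 := Pool.Agent.RMP.W.JJ_mulE (conjE u) up
  rw [JJ_up, mul_one, e1] at e2
  have e3 : JJ (-ω0) ≠ 0 := by
    intro h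
    have := norm_JJ_dir hw
    rw [h, norm_zero] at this
    exact zero_ne_one this
  rw [Pool.Agent.RMP.W.JJ_mulE, ← e2]
  unfold kap
  field_simp

variable {M : List (ℤ × ℤ)} {x0 x1 ω0 ω1 : ℤ × ℤ} {t t' : ℕ} {u : Pt} {n : ℕ} {E : ℕ → Pt}

lemma w_mem (hP : PathC M x0 x1 ω0 ω1 t t' u n E) : -ω0 ∈ dirs := by
  have e1 : mulE (conjE u) up = -ω0 := by
    rw [← hP.u_up]
    exact HexObs.RMP.J5.conj_mulE hP.u_mem _
  rw [← e1]
  exact HexObs.RMP.J5.mulE_dirs (HexObs.RMP.J5.conj_dirs hP.u_mem) HexObs.TIW.upd'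

/-- the total displacement in the frame of the cells -/
lemma tot_frame (hP : PathC M x0 x1 ω0 ω1 t t' u n E) (a : Fin 3) : cr a * JJ (HexObs.AR.ps E n) =
    kap a ω0 * JJ (HexObs.ART.ctr x1 + (t' : ℤ) • ω1 - (HexObs.ART.ctr x0 + (t : ℤ) • ω0)) := by
  rw [cr_frame hP.u_mem hP.u_up (w_mem hP), hP.tot, HexObs.RMP.J5.conj_mulE hP.u_mem]

/-- the class of the last direction -/
lemma cl_last (hP : PathC M x0 x1 ω0 ω1 t t' u n E) (hb : cl ω1 = cl ω0) (ht' : 1 ≤ t') : cl (E (n - 1)) = 1 := by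
  have h1 := hP.le
  rw [hP.lst (n - 1) (by omega) (by omega), HexObs.cl_mulE]
  have h2 : cl u * cl (-ω0) = cl up := by rw [← HexObs.cl_mulE, hP.u_up]
  have h5 : cl up = 2 := by decide
  have h6 : cl (-ω0) = -cl ω0 := by
    have := HexObs.cl_add (-ω0) ω0
    rw [neg_add_cancel] at this
    have h7 : cl (0 : Pt) = 0 := by decide
    rw [h7] at this
    exact eq_neg_of_add_eq_zero_left this.symm
  rw [h5, h6] at h2
  rw [hb]
  revert h2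
  generalize cl u = c
  generalize cl ω0 = d
  revert c d
  decide

/-- **the vertices of the words of a companion are near the cells** -/
theorem lane_pos (hP : PathC M x0 x1 ω0 ω1 t t' u n E) (hM : M.IsChain HexObs.ARM.adj) (a : Fin 3)
    {μ : ℝ} (hμ : 0 < μ) {ζ : ℝ × ℝ} (hζ : ‖ζ - (μ * ((HexObs.ART.ctr x0 + (t : ℤ) • ω0).1 : ℝ),
      μ * ((HexObs.ART.ctr x0 + (t : ℤ) • ω0).2 : ℝ))‖ ≤ 2 * μ)
    {B : ℝ} (hB : ∀ c, CC M x0 x1 ω0 ω1 t t' c → |(c.1 : ℝ)| ≤ B ∧ |(c.2 : ℝ)| ≤ B) :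
    ∃ A : ℝ, 0 ≤ A ∧ ∀ (s : ℝ) (D w : ℤ) (z : Pt) (Q : List Bool), 1 ≤ s → D = ⌊μ * s⌋ → 0 < D → 2 * w < D →
      TubeQ E D w n z Q → ∀ k, k ≤ (wd a Q).length →
      ∃ x ∈ KK μ (CC M x0 x1 ω0 ω1 t t'), ‖kap a ω0 * JR ζ + ps (wd a Q) k / s - kap a ω0 * JR x‖ ≤ A / s := by
  obtain ⟨n0, hn0⟩ : ∃ n0 : Pt, n0 = HexObs.ART.ctr x0 + (t : ℤ) • ω0 := ⟨_, rfl⟩
  rw [← hn0] at hζ
  have hne : 0 ≤ B := by
    have h2 : CC M x0 x1 ω0 ω1 t t' ((HexObs.ART.ctr x0 + ((0 : ℕ) : ℤ) • ω0).1 / 4,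
        (HexObs.ART.ctr x0 + ((0 : ℕ) : ℤ) • ω0).2 / 4) :=
      Or.inr (Or.inl ⟨0, Nat.zero_le _, ⟨_, by simp, by simp, rfl⟩⟩)
    exact (abs_nonneg _).trans (hB _ h2).1
  refine ⟨3 * (4 * (B + 1) + |(n0.1 : ℝ)| + |(n0.2 : ℝ)|) + 1, by positivity, ?_⟩
  intro s D w z Q hs hD hD0 hw hQ k hk
  have hs0 : 0 < s := by linarith
  rw [length_wd] at hk
  -- the vertices of Q
  have key : ∀ i, i ≤ Q.length → ∃ x ∈ KK μ (CC M x0 x1 ω0 ω1 t t'),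
      ‖kap a ω0 * JR ζ + cr a * JJ (vx oo up Q i) / s - kap a ω0 * JR x‖ ≤
        3 * (4 * (B + 1) + |(n0.1 : ℝ)| + |(n0.2 : ℝ)|) / s := by
    intro i hi
    have h1 := hP.rg hM hD0 hw hQ hi
    rw [← hn0] at h1
    obtain ⟨x, hx, h2⟩ := near2 hμ hs hD hD0 h1 hζ hB
    refine ⟨x, hx, ?_⟩
    rw [add_sub_cancel_left] at h2
    rw [cr_frame hP.u_mem hP.u_up (w_mem hP)]
    have e1 : kap a ω0 * JR ζ + kap a ω0 * JJ (mulE (conjE u) (vx oo up Q i)) / s - kap a ω0 * JR x =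
        kap a ω0 * (JR ζ + JJ (mulE (conjE u) (vx oo up Q i)) / s - JR x) := by ring
    rw [e1, norm_mul, kap_norm a (w_mem hP), one_mul]
    exact h2
  rcases Nat.lt_or_ge Q.length k with h | h
  · have hkk : k = Q.length + 1 := by omega
    obtain ⟨x, hx, h2⟩ := key Q.length le_rfl
    refine ⟨x, hx, ?_⟩
    rw [ps_wd a Q (by omega), hkk]
    have e1 : vx oo up Q (Q.length + 1) = vx oo up Q Q.length + dx up Q Q.length := HexObs.vx_succ _ _ _ _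
    have e2 : kap a ω0 * JR ζ + cr a * JJ (vx oo up Q (Q.length + 1)) / s - kap a ω0 * JR x =
        (kap a ω0 * JR ζ + cr a * JJ (vx oo up Q Q.length) / s - kap a ω0 * JR x) + cr a * JJ (dx up Q Q.length) / s := by
      rw [e1, NTF.JJ_add]
      ring
    have e3 : ‖cr a * JJ (dx up Q Q.length) / s‖ = 1 / s := by
      rw [norm_div, norm_mul, cr_norm, norm_JJ_dir (HexObs.dx_mem HexObs.TIW.upd' Q _), one_mul, Complex.norm_real,
        Real.norm_of_nonneg hs0.le]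
    rw [e2, add_div]
    refine (norm_add_le _ _).trans ?_
    rw [e3]
    exact add_le_add h2 le_rfl
  · obtain ⟨x, hx, h2⟩ := key k h
    refine ⟨x, hx, ?_⟩
    rw [ps_wd a Q (by omega)]
    refine h2.trans (div_le_div_of_nonneg_right ?_ hs0.le)
    linarith

/-- **the mass of the exact ends** -/
theorem lane_mass : ∃ H0 : ℕ, 2 ^ 13 ≤ H0 ∧ ∀ H : ℕ, H0 ≤ H → ∀ {M : List (ℤ × ℤ)} {x0 x1 ω0 ω1 : ℤ × ℤ} {t t' : ℕ} {u : Pt}
    {n : ℕ} {E : ℕ → Pt}, PathC M x0 x1 ω0 ω1 t t' u n E → 1 ≤ t → 1 ≤ t' → cl (E (n - 1)) = 1 → ∀ {μ : ℝ}, 0 < μ →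
    ∃ c s0 : ℝ, 0 < c ∧ 1 ≤ s0 ∧ ∀ (s : ℝ) (D : ℤ), s0 ≤ s → D = ⌊μ * s⌋ → 0 < D ∧ ∃ k : ℕ, 2 * 2 ^ (k + 9) < D ∧
      18 * ((H : ℤ) * 2 ^ k) ≤ D ∧ D ≤ 36 * ((H : ℤ) * 2 ^ k) ∧
      ∀ y : Pt, cl y = 0 → ‖JJ y / s - μ * JJ (HexObs.AR.ps E n)‖ < μ / (40 * H) →
        cl (y - E (n - 1)) = 2 ∧ HexObs.TIW.hn (y - E (n - 1) - HexObs.AR.pv E D n) ≤ 2 ^ (k + 2) ∧
        ENNReal.ofReal (c * (s ^ (3 / 4 : ℝ) / s ^ 2)) ≤
          gf {Q | TubeQ E D (2 ^ (k + 9)) n (y - E (n - 1)) Q ∧ HexObs.ART.TL.Lg k Q} := by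
  obtain ⟨H0, hH0, h⟩ := HexObs.ROT.F3S.comp_massL
  refine ⟨H0, hH0, fun H hH {M x0 x1 ω0 ω1 t t' u n E} hP ht ht' hcl {μ} hμ => ?_⟩
  obtain ⟨c, k0, hc, h⟩ := h H hH n 1 one_pos (by norm_num)
  have hH1 : 1 ≤ H := le_trans (by norm_num) (hH0.trans hH)
  obtain ⟨α, A, s1, hα, hA, hs1, hsc⟩ := scale_low (H := H) (k0 := k0) hH1 hμ
  obtain ⟨v, hv⟩ : ∃ v : Pt, v = HexObs.AR.ps E n := ⟨_, rfl⟩
  have hHr : (1 : ℝ) ≤ H := by exact_mod_cast hH1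
  have hHr0 : (0 : ℝ) < H := by linarith
  obtain ⟨s2, hs2⟩ : ∃ s2 : ℝ, s2 = (2 * ‖JJ v‖ + 2) * (180 * H) / μ := ⟨_, rfl⟩
  refine ⟨c * α, max s1 (max s2 (40 * 2 ^ 9 / μ)), by positivity, hs1.trans (le_max_left _ _), ?_⟩
  intro s D hs hD
  have hss1 : s1 ≤ s := (le_max_left _ _).trans hs
  have hss2 : s2 ≤ s := ((le_max_left _ _).trans (le_max_right _ _)).trans hs
  have hs0 : 0 < s := by linarith
  obtain ⟨k, hk0, hk1, hk2, hk3, hk4, hk5, hk6, hk7⟩ := hsc s hss1 D hD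
  have h2k : (0 : ℤ) < 2 ^ k := by positivity
  have hHz : (2 : ℤ) ^ 13 ≤ H := by exact_mod_cast hH0.trans hH
  have hD1 : 18 * ((2 : ℤ) ^ 13 * 2 ^ k) ≤ D := le_trans (by nlinarith) hk1
  have hD0 : 0 < D := lt_of_lt_of_le (by positivity) hD1
  refine ⟨hD0, k, ?_, hk1, hk2, ?_⟩
  · refine lt_of_lt_of_le ?_ hD1
    rw [pow_add]
    nlinarith
  intro y hy hn
  have e1 : cl (y - E (n - 1)) = 2 := by
    have e2 : cl y = cl (y - E (n - 1)) + cl (E (n - 1)) := by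
      rw [← HexObs.cl_add, sub_add_cancel]
    rw [hy, hcl] at e2
    have e3 : cl (y - E (n - 1)) = -1 := by
      rw [eq_neg_iff_add_eq_zero]
      exact e2.symm
    rw [e3]
    decide
  have hDs1 : (D : ℝ) ≤ μ * s := by rw [hD]; exact Int.floor_le _
  have hDs2 : μ * s < (D : ℝ) + 1 := by rw [hD]; exact Int.lt_floor_add_one _
  have hn3 : HexObs.TIW.hn (y - E (n - 1) - HexObs.AR.pv E D n) ≤ 2 ^ (k + 2) := by
    obtain ⟨p, hp⟩ : ∃ p : Pt, p = y - E (n - 1) - HexObs.AR.pv E D n := ⟨_, rfl⟩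
    have hd : E (n - 1) ∈ dirs := by
      have := hP.le
      exact hP.ipg.dir _ (by omega)
    have e4 : JJ p = (JJ y - (μ * s : ℝ) * JJ v) + ((μ * s : ℝ) - (D : ℝ) : ℝ) * JJ v - JJ (E (n - 1)) := by
      rw [hp, NTF.JJ_sub, NTF.JJ_sub]
      have : JJ (HexObs.AR.pv E D n) = (D : ℂ) * JJ v := by
        rw [← JJ_smul, hv]
        rfl
      rw [this]
      push_cast
      ring
    have e5 : ‖JJ y - (μ * s : ℝ) * JJ v‖ ≤ μ / (40 * H) * s := by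
      have e6 : JJ y - (μ * s : ℝ) * JJ v = (JJ y / s - μ * JJ v) * s := by
        have : (s : ℂ) ≠ 0 := by exact_mod_cast hs0.ne'
        push_cast
        field_simp
      rw [e6, norm_mul, Complex.norm_real, Real.norm_of_nonneg hs0.le, hv]
      exact mul_le_mul_of_nonneg_right hn.le hs0.le
    have e7 : ‖((μ * s : ℝ) - (D : ℝ) : ℝ) * JJ v‖ ≤ ‖JJ v‖ := by
      rw [norm_mul, Complex.norm_real, Real.norm_of_nonneg (by linarith)]
      have : μ * s - D ≤ 1 := by linarith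
      nlinarith [norm_nonneg (JJ v)]
    have e8 : ‖JJ p‖ ≤ μ / (40 * H) * s + ‖JJ v‖ + 1 := by
      rw [e4]
      refine (norm_sub_le _ _).trans ?_
      rw [norm_JJ_dir hd]
      have := norm_add_le (JJ y - (μ * s : ℝ) * JJ v) (((μ * s : ℝ) - (D : ℝ) : ℝ) * JJ v)
      linarith
    have e9 : (HexObs.TIW.hn p : ℝ) ≤ 2 * ‖JJ p‖ := by
      have h1 := HexObs.TIW.hn_sq_le p
      have h2 := NTF.JJ_norm p
      have h3 : (HexObs.TIW.hn p : ℝ) ^ 2 ≤ (2 * ‖JJ p‖) ^ 2 := by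
        rw [mul_pow, h2]
        exact_mod_cast (by linarith : HexObs.TIW.hn p ^ 2 ≤ 2 ^ 2 * nrm p)
      exact abs_le_of_sq_le_sq' h3 (by positivity) |>.2
    have e10 : (2 * ‖JJ v‖ + 2) ≤ μ * s / (180 * H) := by
      rw [le_div_iff₀ (by positivity)]
      rw [hs2, div_le_iff₀ hμ] at hss2
      linarith
    have e11 : μ * s / (18 * H) ≤ 4 * 2 ^ k := by
      rw [div_le_iff₀ (by positivity)]
      linarith
    have e12 : μ / (40 * H) * s * 2 + μ * s / (180 * H) ≤ μ * s / (18 * H) := by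
      have f1 : μ / (40 * H) * s * 2 = (μ * s / H) * (1 / 20) := by field_simp; norm_num
      have f2 : μ * s / (180 * H) = (μ * s / H) * (1 / 180) := by field_simp
      have f3 : μ * s / (18 * H) = (μ * s / H) * (1 / 18) := by field_simp
      rw [f1, f2, f3]
      have : 0 ≤ μ * s / H := by positivity
      nlinarith
    have e13 : (HexObs.TIW.hn p : ℝ) ≤ ((2 ^ (k + 2) : ℤ) : ℝ) := by
      push_cast
      rw [pow_add]
      nlinarith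
    rw [← hp]
    exact_mod_cast e13
  refine ⟨e1, hn3, ?_⟩
  refine le_trans ?_ ((h hP ht ht' le_rfl k D hk0 hk1 hk2).1 _ hn3 (Or.inr ⟨e1, hcl⟩))
  refine ENNReal.ofReal_le_ofReal ?_
  rw [mul_assoc]
  exact mul_le_mul_of_nonneg_left hk7 hc.le

/-- **one companion in the limit**. `b N` is at least `q / s N ^ (3 / 4)` times the image under `g N` of the rests of the class
`T N`; `y (g N w) = v' * en w / s N`; the word is started at `v * kap a ω0 * JR ζ`. Conclusion = the clause of `sup_loc` -/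
theorem lane_ac : ∃ H0 : ℕ, 2 ^ 13 ≤ H0 ∧ ∀ H : ℕ, H0 ≤ H → ∀ {M : List (ℤ × ℤ)} {x0 x1 ω0 ω1 : ℤ × ℤ} {t t' : ℕ} {u : Pt}
    {n : ℕ} {E : ℕ → Pt}, PathC M x0 x1 ω0 ω1 t t' u n E → M.IsChain HexObs.ARM.adj → 1 ≤ t → 1 ≤ t' → cl (E (n - 1)) = 1 →
    ∀ (a : Fin 3) {μ : ℝ}, 0 < μ → ∀ {ζ : ℝ × ℝ},
    ‖ζ - (μ * ((HexObs.ART.ctr x0 + (t : ℤ) • ω0).1 : ℝ), μ * ((HexObs.ART.ctr x0 + (t : ℤ) • ω0).2 : ℝ))‖ ≤ 2 * μ →
    ∀ {B : ℝ}, (∀ c, CC M x0 x1 ω0 ω1 t t' c → |(c.1 : ℝ)| ≤ B ∧ |(c.2 : ℝ)| ≤ B) →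
    ∀ {X : Type*} [TopologicalSpace X] [MeasurableSpace X] [OpensMeasurableSpace X] {ι : Type*} {l : Filter ι} [l.NeBot]
      {b : ι → MeasureTheory.Measure X} {β : MeasureTheory.Measure X} {y : X → ℂ}, Continuous y → ∀ {F : Set X}, IsClosed F →
      ∀ [MeasureTheory.IsFiniteMeasure (β.restrict F)],
      (∀ C : Set X, IsClosed C → C ⊆ F → limsup (fun N => b N C) l ≤ β C) →
      ∀ {s : ι → ℝ}, Tendsto s l atTop → ∀ {T : ι → Set W3} {g : ι → W3 → X} {q : ℝ}, 0 < q →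
      (∀ᶠ N in l, ∀ A : Set X, IsClosed A →
        ENNReal.ofReal (q / s N ^ (3 / 4 : ℝ)) * ms (T N) ((g N ⁻¹' A).indicator 1) ≤ b N A) →
      ∀ {v v' : ℂ}, ‖v‖ = 1 → ‖v'‖ = 1 → (∀ᶠ N in l, ∀ w ∈ T N, y (g N w) = v' * en w / s N) →
      (∃ δ > 0, ∀ᶠ N in l, ∀ w ∈ T N, (∀ k, k ≤ w.length → ∃ x ∈ KK μ (CC M x0 x1 ω0 ω1 t t'),
        ‖v * kap a ω0 * JR ζ + v * ps w k / s N - v * kap a ω0 * JR x‖ ≤ δ) → g N w ∈ F) →
      (∀ᶠ N in l, ∀ (k : ℕ) (D : ℤ), D = ⌊μ * s N⌋ → 18 * ((H : ℤ) * 2 ^ k) ≤ D → D ≤ 36 * ((H : ℤ) * 2 ^ k) →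
        ∀ (z : Pt) (Q : List Bool), TubeQ E D (2 ^ (k + 9)) n z Q → cl z = 2 →
          HexObs.TIW.hn (z - HexObs.AR.pv E D n) ≤ 2 ^ (k + 2) → HexObs.ART.TL.Lg k Q → wd a Q ∈ T N) →
      (MeasureTheory.volume : MeasureTheory.Measure ℂ).restrict
        (Metric.ball (v' * kap a ω0 * (μ * JJ (HexObs.ART.ctr x1 + (t' : ℤ) • ω1 - (HexObs.ART.ctr x0 + (t : ℤ) • ω0))))
          (μ / (40 * H))) ≪ (β.restrict F).map y := by
  obtain ⟨H0, hH0, h⟩ := lane_mass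
  refine ⟨H0, hH0, ?_⟩
  intro H hH M x0 x1 ω0 ω1 t t' u n E hP hM ht ht' hcl a μ hμ ζ hζ B hB X _ _ _ ι l _ b β y hy F hF _ hb s hs T g q hq
    hlow v v' hv hv' hyN hFK hT
  have ecen : v' * kap a ω0 * (μ * JJ (HexObs.ART.ctr x1 + (t' : ℤ) • ω1 - (HexObs.ART.ctr x0 + (t : ℤ) • ω0))) =
      v' * cr a * (μ * JJ (HexObs.AR.ps E n)) := by
    have := tot_frame hP a
    linear_combination (-(v' * (μ : ℂ))) * this
  rw [ecen]
  obtain ⟨c, s0, hc, hs0, h⟩ := h H hH hP ht ht' hcl hμ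
  obtain ⟨A, hA, hpos⟩ := lane_pos hP hM a hμ hζ hB
  obtain ⟨δ, hδ, hFK⟩ := hFK
  have hu : ‖v' * cr a‖ = 1 := by rw [norm_mul, hv', cr_norm, one_mul]
  have hxc := HexObs.xc_pos
  refine ac_hex (c := q * (HexObs.xc * c)) hy hF le_rfl hb Metric.isOpen_ball hs hu (by positivity) ?_
  refine Eventually.frequently ?_
  filter_upwards [hlow, hyN, hFK, hT, hs.eventually_ge_atTop s0, hs.eventually_ge_atTop (A / δ), hs.eventually_ge_atTop 1]
    with N k1 k2 k3 k4 k5 k6 k7 z hz hzb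
  have hsN : 0 < s N := by linarith
  obtain ⟨hD0, k, hkD, hk1, hk2, hk3⟩ := h (s N) ⌊μ * s N⌋ k5 rfl
  have hsC : (s N : ℂ) ≠ 0 := by exact_mod_cast hsN.ne'
  have hball : ‖JJ z / s N - μ * JJ (HexObs.AR.ps E n)‖ < μ / (40 * H) := by
    rw [Metric.mem_ball, dist_eq_norm] at hzb
    have e1 : v' * cr a * JJ z / s N - v' * cr a * (μ * JJ (HexObs.AR.ps E n)) =
        (v' * cr a) * (JJ z / s N - μ * JJ (HexObs.AR.ps E n)) := by ring
    rwa [e1, norm_mul, hu, one_mul] at hzb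
  obtain ⟨z1, z2, z3⟩ := hk3 z hz hball
  obtain ⟨Am, hAm⟩ : ∃ Am : Set X, Am = F ∩ y ⁻¹' {v' * cr a * JJ z / s N} := ⟨_, rfl⟩
  have hcl' : IsClosed Am := by
    rw [hAm]
    exact hF.inter (isClosed_singleton.preimage hy)
  have hmem : ∀ Q ∈ {Q | TubeQ E ⌊μ * s N⌋ (2 ^ (k + 9)) n (z - E (n - 1)) Q ∧ HexObs.ART.TL.Lg k Q},
      wd a Q ∈ T N ∧ g N (wd a Q) ∈ Am := by
    intro Q hQ
    have hL : HexObs.ART.TL.Lg k Q := hQ.2
    have hQ : TubeQ E ⌊μ * s N⌋ (2 ^ (k + 9)) n (z - E (n - 1)) Q := hQ.1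
    have hw := k4 k _ rfl hk1 hk2 _ Q hQ z1 z2 hL
    refine ⟨hw, ?_⟩
    rw [hAm]
    refine ⟨k3 _ hw fun i hi => ?_, ?_⟩
    · obtain ⟨x, hx, hx2⟩ := hpos (s N) _ _ _ Q k7 rfl hD0 hkD hQ i hi
      refine ⟨x, hx, ?_⟩
      have e1 : v * kap a ω0 * JR ζ + v * ps (wd a Q) i / s N - v * kap a ω0 * JR x =
          v * (kap a ω0 * JR ζ + ps (wd a Q) i / s N - kap a ω0 * JR x) := by ring
      rw [e1, norm_mul, hv, one_mul]
      refine hx2.trans ?_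
      rw [div_le_iff₀ hδ] at k6
      rw [div_le_iff₀ hsN]
      linarith
    · show y (g N (wd a Q)) = v' * cr a * JJ z / s N
      rw [k2 _ hw, en_wd]
      have e1 : enp Q = z := by
        unfold enp
        rw [hQ.en, hQ.de]
        abel
      rw [e1]
      ring
  have h1 := ms_wd a (T := T N) (f := (g N ⁻¹' Am).indicator 1) (fun Q hQ => (hmem Q hQ).1) (fun Q hQ => by
    rw [Set.indicator_of_mem (show wd a Q ∈ g N ⁻¹' Am from (hmem Q hQ).2)]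
    exact le_rfl)
  rw [← hAm]
  refine le_trans ?_ (k1 Am hcl')
  refine le_trans ?_ (mul_le_mul_right (le_trans (mul_le_mul_right z3 _) h1) _)
  rw [← ENNReal.ofReal_mul hxc.le, ← ENNReal.ofReal_mul (by positivity)]
  refine ENNReal.ofReal_le_ofReal (le_of_eq ?_)
  have h3 : s N ^ (3 / 4 : ℝ) ≠ 0 := (Real.rpow_pos_of_pos hsN _).ne'
  field_simp

end Pool.Agent.ROT.F3.Ln
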