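import Pool.Agent.ROT.F3L2

/-!
# ROT, F3 (B), row W7 (helper37): the lengths of the words of a companion

* `ml_eq` : `ml k = (2 ^ k) ^ (4 / 3)`;
* **`len_lane`** : the words of a companion (mesh `D = ⌊μ s⌋` between `18 H 2 ^ k` and `36 H 2 ^ k`, `Lg k Q`) have between
  `(μ / (37 H)) ^ (4 / 3) * s ^ (4 / 3)` and `4 (μ / (18 H)) ^ (4 / 3) * s ^ (4 / 3)` letters.
-/

set_option autoImplicit false

namespace Pool.Agent.ROT.F3.Ln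

open HexObs (Pt)
open Pool.Agent.ROT.F3.Tb

lemma ml_eq (k : ℕ) : HexObs.ARM.ml k = ((2 : ℝ) ^ k) ^ (4 / 3 : ℝ) := by
  unfold HexObs.ARM.ml
  rw [← Real.rpow_natCast, ← Real.rpow_mul (by norm_num)]
  ring_nf

theorem len_lane {H : ℕ} (hH : 1 ≤ H) {μ : ℝ} (hμ : 0 < μ) {s : ℝ} (hs : 0 < s) {k : ℕ} {D : ℤ} (hD : D = ⌊μ * s⌋)
    (h1 : 18 * ((H : ℤ) * 2 ^ k) ≤ D) (h2 : D ≤ 36 * ((H : ℤ) * 2 ^ k)) (a : Fin 3) {Q : List Bool}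
    (hQ : HexObs.ART.TL.Lg k Q) :
    (μ / (37 * H)) ^ (4 / 3 : ℝ) * s ^ (4 / 3 : ℝ) ≤ ((wd a Q).length : ℝ) ∧
      ((wd a Q).length : ℝ) ≤ 4 * (μ / (18 * H)) ^ (4 / 3 : ℝ) * s ^ (4 / 3 : ℝ) := by
  have hH0 : (1 : ℝ) ≤ H := by exact_mod_cast hH
  have hHp : (0 : ℝ) < H := by linarith
  have h1' : 18 * ((H : ℝ) * 2 ^ k) ≤ D := by exact_mod_cast h1
  have h2' : (D : ℝ) ≤ 36 * ((H : ℝ) * 2 ^ k) := by exact_mod_cast h2
  have d1 : (D : ℝ) ≤ μ * s := by rw [hD]; exact Int.floor_le _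
  have d2 : μ * s < (D : ℝ) + 1 := by rw [hD]; exact Int.lt_floor_add_one _
  have hk1 : (1 : ℝ) ≤ 2 ^ k := one_le_pow₀ (by norm_num)
  have hHk : (1 : ℝ) ≤ H * 2 ^ k := by nlinarith
  have e1 : μ / (37 * H) * s ≤ 2 ^ k := by
    rw [div_mul_eq_mul_div, div_le_iff₀ (by positivity)]
    nlinarith
  have e2 : (2 : ℝ) ^ k ≤ μ / (18 * H) * s := by
    rw [div_mul_eq_mul_div, le_div_iff₀ (by positivity)]
    nlinarith
  have m1 : (μ / (37 * H)) ^ (4 / 3 : ℝ) * s ^ (4 / 3 : ℝ) ≤ HexObs.ARM.ml k := by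
    rw [ml_eq, ← Real.mul_rpow (by positivity) hs.le]
    exact Real.rpow_le_rpow (by positivity) e1 (by norm_num)
  have m2 : HexObs.ARM.ml k ≤ (μ / (18 * H)) ^ (4 / 3 : ℝ) * s ^ (4 / 3 : ℝ) := by
    rw [ml_eq, ← Real.mul_rpow (by positivity) hs.le]
    exact Real.rpow_le_rpow (by positivity) e2 (by norm_num)
  have m3 : (1 : ℝ) ≤ HexObs.ARM.ml k := by
    rw [ml_eq]
    exact Real.one_le_rpow hk1 (by norm_num)
  obtain ⟨q1, q2⟩ := hQ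
  rw [length_wd]
  push_cast
  constructor
  · linarith
  · nlinarith

end Pool.Agent.ROT.F3.Ln
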