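import Pool.Agent.ROT.F3Ham
import Pool.Agent.ARM.PathX
import Pool.Agent.ART.Corr3

/-!
# F3, the companions of a simple arc (helper64)

`P`, `Q`: two cells, a box of radius `A` around `P` and a box of radius `A'` around `Q`; `γ`: a chain of cells from the first box to
the second one (the main arc), without near touches at the scale `2 (r + 1)` (but at distances below `ρ`), such that the past of
every visit to the box `A` (a little larger) is inside of the box `B` and on the side of `P` opposite to the direction `δP` (for `Q`: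
the future, `A'`, `B'`, `δQ`). Then there are TWO disjoint lanes of subcells
from the side `δP` of the box of `P` to the side `δQ` of the box of `Q`, outside of the two boxes and at distance more than `r` from
the main arc (`two_companions`): three disjoint arcs between the two boxes.
-/

set_option autoImplicit false

namespace HexObs

namespace ROT

namespace F3L

open ARM (adj nr nr_iff nr_symm nr_trans nr_mono nr_self)
open ART ART.Lane

/-! ### walks -/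

/-- concatenation of two walks -/
lemma wcat {R : ℤ × ℤ → ℤ × ℤ → Prop} {f g : ℕ → ℤ × ℤ} {m k : ℕ} (hf : ∀ i, i < m → R (f i) (f (i + 1)))
    (hg : ∀ i, i < k → R (g i) (g (i + 1))) (he : f m = g 0) :
    ∃ w : ℕ → ℤ × ℤ, (∀ i, i < m + k → R (w i) (w (i + 1))) ∧ (∀ i, i ≤ m → w i = f i) ∧ ∀ i, i ≤ k → w (m + i) = g i := by
  have e1 : ∀ i, i ≤ m → (fun i => if i ≤ m then f i else g (i - m)) i = f i := by
    intro i hi
    simp only
    rw [if_pos hi]
  have e2 : ∀ i, i ≤ k → (fun i => if i ≤ m then f i else g (i - m)) (m + i) = g i := by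
    intro i hi
    simp only
    rcases Nat.eq_zero_or_pos i with h | h
    · subst h
      rw [if_pos (by omega), Nat.add_zero, he]
    · rw [if_neg (by omega), Nat.add_sub_cancel_left]
  refine ⟨fun i => if i ≤ m then f i else g (i - m), ?_, e1, e2⟩
  generalize (fun i => if i ≤ m then f i else g (i - m)) = w at e1 e2
  intro i hi
  rcases Nat.lt_or_ge i m with h | h
  · rw [e1 i h.le, e1 (i + 1) h]
    exact hf i h
  · obtain ⟨j, rfl⟩ : ∃ j, i = m + j := ⟨i - m, by omega⟩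
    rw [e2 j (by omega), show m + j + 1 = m + (j + 1) by omega, e2 (j + 1) (by omega)]
    exact hg j (by omega)

/-- a walk through all the cells of a list -/
lemma tour {G : ℤ × ℤ → Prop} (hc : ∀ x y, G x → G y → Relation.ReflTransGen (fun a b => nr 1 a b ∧ G b) x y)
    (L : List (ℤ × ℤ)) (hL : ∀ c ∈ L, G c) {x y : ℤ × ℤ} (hx : G x) (hy : G y) :
    ∃ (m : ℕ) (f : ℕ → ℤ × ℤ), f 0 = x ∧ f m = y ∧ (∀ i, i < m → nr 1 (f i) (f (i + 1))) ∧ (∀ i, i ≤ m → G (f i)) ∧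
      ∀ c ∈ L, ∃ i, i ≤ m ∧ f i = c := by
  have base : ∀ x y, G x → G y → ∃ (m : ℕ) (f : ℕ → ℤ × ℤ), f 0 = x ∧ f m = y ∧ (∀ i, i < m → nr 1 (f i) (f (i + 1))) ∧
      ∀ i, i ≤ m → G (f i) := by
    intro x y hx hy
    obtain ⟨m, f, h0, hm, hf⟩ := ARM.pth_of (hc x y hx hy)
    refine ⟨m, f, h0, hm, fun i hi => (hf i hi).1, ?_⟩
    intro i hi
    cases i with
    | zero => rw [h0]; exact hx
    | succ i => exact (hf i (by omega)).2
  induction L generalizing x with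
  | nil =>
    obtain ⟨m, f, h0, hm, hf, hG⟩ := base x y hx hy
    exact ⟨m, f, h0, hm, hf, hG, fun c hc => absurd hc (List.not_mem_nil)⟩
  | cons c L ih =>
    have hcG := hL c (List.mem_cons_self)
    obtain ⟨m, f, h0, hm, hf, hG⟩ := base x c hx hcG
    obtain ⟨k, g, g0, gk, hg, gG, hgL⟩ := ih (fun c' hc' => hL c' (List.mem_cons_of_mem _ hc')) hcG
    obtain ⟨w, w1, w2, w3⟩ := wcat (R := nr 1) hf hg (by rw [hm, g0])
    refine ⟨m + k, w, by rw [w2 0 (by omega), h0], by rw [w3 k le_rfl, gk], w1, ?_, ?_⟩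
    · intro i hi
      rcases Nat.lt_or_ge i m with h | h
      · rw [w2 i h.le]
        exact hG i h.le
      · obtain ⟨j, rfl⟩ : ∃ j, i = m + j := ⟨i - m, by omega⟩
        rw [w3 j (by omega)]
        exact gG j (by omega)
    · intro c' hc'
      rcases List.mem_cons.1 hc' with rfl | h
      · exact ⟨m, by omega, by rw [w2 m le_rfl, hm]⟩
      · obtain ⟨i, hi, e⟩ := hgL c' h
        exact ⟨m + i, by omega, by rw [w3 i hi, e]⟩

/-- a box is connected -/
lemma box_conn {A : ℤ} {P : ℤ × ℤ} (x y : ℤ × ℤ) (hx : nr A P x) (hy : nr A P y) :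
    Relation.ReflTransGen (fun a b => nr 1 a b ∧ nr A P b) x y := by
  obtain ⟨n, hn⟩ : ∃ n, (y.1 - x.1).natAbs + (y.2 - x.2).natAbs ≤ n := ⟨_, le_rfl⟩
  induction n generalizing x with
  | zero =>
    have : x = y := by
      apply Prod.ext <;> omega
    rw [this]
  | succ n ih =>
    rw [nr_iff] at hx hy
    rcases lt_trichotomy x.1 y.1 with h | h | h
    · have h1 : nr A P (x.1 + 1, x.2) := by rw [nr_iff]; simp only; omega
      refine Relation.ReflTransGen.head ⟨?_, h1⟩ (ih (x.1 + 1, x.2) h1 (by simp only; omega))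
      rw [nr_iff]; simp only; omega
    · rcases lt_trichotomy x.2 y.2 with h' | h' | h'
      · have h1 : nr A P (x.1, x.2 + 1) := by rw [nr_iff]; simp only; omega
        refine Relation.ReflTransGen.head ⟨?_, h1⟩ (ih (x.1, x.2 + 1) h1 (by simp only; omega))
        rw [nr_iff]; simp only; omega
      · have : x = y := Prod.ext h h'
        rw [this]
      · have h1 : nr A P (x.1, x.2 - 1) := by rw [nr_iff]; simp only; omega
        refine Relation.ReflTransGen.head ⟨?_, h1⟩ (ih (x.1, x.2 - 1) h1 (by simp only; omega))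
        rw [nr_iff]; simp only; omega
    · have h1 : nr A P (x.1 - 1, x.2) := by rw [nr_iff]; simp only; omega
      refine Relation.ReflTransGen.head ⟨?_, h1⟩ (ih (x.1 - 1, x.2) h1 (by simp only; omega))
      rw [nr_iff]; simp only; omega

/-- a walk through all the cells of a box -/
lemma box_tour {A : ℤ} {P x y : ℤ × ℤ} (hx : nr A P x) (hy : nr A P y) :
    ∃ (m : ℕ) (f : ℕ → ℤ × ℤ), f 0 = x ∧ f m = y ∧ (∀ i, i < m → nr 1 (f i) (f (i + 1))) ∧ (∀ i, i ≤ m → nr A P (f i)) ∧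
      ∀ c, nr A P c → ∃ i, i ≤ m ∧ f i = c := by
  obtain ⟨m, f, h0, hm, hf, hG, hL⟩ := tour (G := nr A P) box_conn
    (Finset.Icc (P.1 - A, P.2 - A) (P.1 + A, P.2 + A)).toList (by
      intro c hc
      rw [Finset.mem_toList, Finset.mem_Icc, Prod.le_def, Prod.le_def] at hc
      rw [nr_iff]
      simp only at hc
      omega) hx hy
  refine ⟨m, f, h0, hm, hf, hG, fun c hc => hL c ?_⟩
  rw [Finset.mem_toList, Finset.mem_Icc, Prod.le_def, Prod.le_def]
  rw [nr_iff] at hc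
  simp only
  omega

/-- the scalar product -/
def dt (x δ : ℤ × ℤ) : ℤ := x.1 * δ.1 + x.2 * δ.2

/-- a straight walk of cells -/
lemma straight {G : ℤ × ℤ → Prop} {P δ : ℤ × ℤ} (hδ : δ ∈ D4) {a b : ℤ} (hab : a ≤ b)
    (hG : ∀ s, a ≤ s → s ≤ b → G (P + s • δ)) :
    Relation.ReflTransGen (fun f g => adj f g ∧ G g) (P + a • δ) (P + b • δ) := by
  obtain ⟨n, rfl⟩ : ∃ n : ℕ, b = a + n := ⟨(b - a).toNat, by omega⟩
  induction n with
  | zero => rw [Nat.cast_zero, add_zero]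
  | succ n ih =>
    refine (ih (by omega) (fun s h1 h2 => hG s h1 (by push_cast; omega))).tail ⟨?_, ?_⟩
    · rw [adj_sub]
      have e : P + (a + ((n + 1 : ℕ) : ℤ)) • δ - (P + (a + (n : ℤ)) • δ) = δ := by
        push_cast
        rw [add_sub_add_left_eq_sub, ← sub_smul]
        rw [show a + ((n : ℤ) + 1) - (a + n) = 1 by ring, one_smul]
      rw [e]
      exact hδ
    · exact hG _ (by omega) (by push_cast; omega)

lemma straight' {G : ℤ × ℤ → Prop} {P δ : ℤ × ℤ} (hδ : δ ∈ D4) {a b : ℤ} (hab : a ≤ b)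
    (hG : ∀ s, a ≤ s → s ≤ b → G (P + s • δ)) :
    Relation.ReflTransGen (fun f g => adj f g ∧ G g) (P + b • δ) (P + a • δ) := by
  obtain ⟨n, rfl⟩ : ∃ n : ℕ, b = a + n := ⟨(b - a).toNat, by omega⟩
  induction n with
  | zero => rw [Nat.cast_zero, add_zero]
  | succ n ih =>
    refine Relation.ReflTransGen.head ⟨?_, ?_⟩ (ih (by omega) (fun s h1 h2 => hG s h1 (by push_cast; omega)))
    · apply adj_comm
      rw [adj_sub]
      have e : P + (a + ((n + 1 : ℕ) : ℤ)) • δ - (P + (a + (n : ℤ)) • δ) = δ := by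
        push_cast
        rw [add_sub_add_left_eq_sub, ← sub_smul]
        rw [show a + ((n : ℤ) + 1) - (a + n) = 1 by ring, one_smul]
      rw [e]
      exact hδ
    · exact hG _ (by omega) (by push_cast; omega)

lemma far_of_side {P δ x : ℤ × ℤ} {s d : ℤ} (hδ : δ ∈ D4) (h : dt (x - P) δ ≤ 0) (hs : d < s) : ¬ nr d x (P + s • δ) := by
  intro hn
  rw [nr_iff] at hn
  obtain ⟨x1, x2⟩ := x
  obtain ⟨P1, P2⟩ := P
  rw [mem_D4] at hδ
  unfold dt at h
  rcases hδ with rfl | rfl | rfl | rfl <;> simp only [Prod.mk_sub_mk, Prod.smul_mk, Prod.mk_add_mk, smul_eq_mul] at h hn <;> omega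

lemma nr_smul {P δ : ℤ × ℤ} {s d : ℤ} (hδ : δ ∈ D4) (h0 : 0 ≤ s) (hs : s ≤ d) : nr d P (P + s • δ) := by
  rw [nr_iff]
  obtain ⟨P1, P2⟩ := P
  rw [mem_D4] at hδ
  rcases hδ with rfl | rfl | rfl | rfl <;> simp only [Prod.smul_mk, Prod.mk_add_mk, smul_eq_mul] <;> omega

lemma not_nr_smul {P δ : ℤ × ℤ} {s d : ℤ} (hδ : δ ∈ D4) (hs : d < s) : ¬ nr d P (P + s • δ) := by
  rw [nr_iff]
  obtain ⟨P1, P2⟩ := P
  rw [mem_D4] at hδ
  rcases hδ with rfl | rfl | rfl | rfl <;> simp only [Prod.smul_mk, Prod.mk_add_mk, smul_eq_mul] <;> omega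

/-- single valued on an excursion inside of a box of any centre which misses q1 and q2 -/
lemma kap_boxc {q1 q2 u : ℤ × ℤ} {γ : ℕ → ℤ × ℤ} {i : ℕ} {R : ℤ} (h1 : ¬ nr R u q1) (h2 : ¬ nr R u q2) (j : ℕ)
    (hij : i ≤ j) (h : ∀ k, i ≤ k → k ≤ j → nr R u (γ k)) :
    ARM.kap q1 q2 γ j = ARM.kap q1 q2 γ i + ARM.cr q1 q2 (γ i) (γ j) := by
  induction j, hij using Nat.le_induction with
  | base => rw [ARM.cr_self, add_zero]
  | succ j hij ih =>
    rw [ARM.kap_succ, ih fun k hk hk' => h k hk (by omega), add_assoc,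
      ARM.cr_add h1 h2 (h i le_rfl (by omega)) (h j hij (by omega)) (h (j + 1) (by omega) le_rfl)]

lemma box_A {P δ x : ℤ × ℤ} {A B : ℤ} (hδ : δ ∈ D4) (hB : 0 ≤ B) (h : nr A P x) : nr (A + B) (P - B • δ) x := by
  rw [nr_iff] at h ⊢
  obtain ⟨x1, x2⟩ := x
  obtain ⟨P1, P2⟩ := P
  rw [mem_D4] at hδ
  rcases hδ with rfl | rfl | rfl | rfl <;> simp only [Prod.mk_sub_mk, Prod.smul_mk, smul_eq_mul] at h ⊢ <;> omega

lemma box_B {P δ x : ℤ × ℤ} {A B : ℤ} (hδ : δ ∈ D4) (hA : 0 ≤ A) (h : nr B P x) (hd : dt (x - P) δ ≤ 0) :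
    nr (A + B) (P - B • δ) x := by
  rw [nr_iff] at h ⊢
  obtain ⟨x1, x2⟩ := x
  obtain ⟨P1, P2⟩ := P
  rw [mem_D4] at hδ
  unfold dt at hd
  rcases hδ with rfl | rfl | rfl | rfl <;> simp only [Prod.mk_sub_mk, Prod.smul_mk, smul_eq_mul] at h hd ⊢ <;> omega

lemma box_q {P δ : ℤ × ℤ} {A B h : ℤ} (hδ : δ ∈ D4) (hh : A < h) : ¬ nr (A + B) (P - B • δ) (P + h • δ) := by
  rw [nr_iff]
  obtain ⟨P1, P2⟩ := P
  rw [mem_D4] at hδ
  rcases hδ with rfl | rfl | rfl | rfl <;> simp only [Prod.mk_sub_mk, Prod.smul_mk, Prod.mk_add_mk, smul_eq_mul] <;> omega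

lemma nr_sub {P δ : ℤ × ℤ} {B : ℤ} (hδ : δ ∈ D4) (hB : 0 ≤ B) : nr B P (P - B • δ) := by
  rw [nr_iff]
  obtain ⟨P1, P2⟩ := P
  rw [mem_D4] at hδ
  rcases hδ with rfl | rfl | rfl | rfl <;> simp only [Prod.mk_sub_mk, Prod.smul_mk, smul_eq_mul] <;> omega

/-- **the corridor beside the main arc** -/
theorem lane_walk {n : ℕ} {γ : ℕ → ℤ × ℤ} {P Q δP δQ : ℤ × ℤ} {r A h B A' h' B' ρ R : ℤ} (hδP : δP ∈ D4) (hδQ : δQ ∈ D4)
    (hr : 0 ≤ r) (hrA : r ≤ A) (hrA' : r ≤ A') (hρr : 2 * (r + 1) ≤ ρ) (hh : A + ρ < h) (hB : h + ρ ≤ B)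
    (hh' : A' + ρ < h') (hB' : h' + ρ ≤ B')
    (hst : ∀ i, i < n → nr 1 (γ i) (γ (i + 1))) (h0 : nr A P (γ 0)) (hn : nr A' Q (γ n))
    (hP : ∀ i j, i ≤ j → j ≤ n → nr (A + 2 * (r + 1)) P (γ j) → nr B P (γ i) ∧ dt (γ i - P) δP ≤ 0)
    (hQ : ∀ i j, i ≤ j → j ≤ n → nr (A' + 2 * (r + 1)) Q (γ i) → nr B' Q (γ j) ∧ dt (γ j - Q) δQ ≤ 0)
    (hm : ∀ i j, i ≤ j → j ≤ n → nr (2 * (r + 1)) (γ i) (γ j) → ∀ k, i ≤ k → k ≤ j → nr ρ (γ i) (γ k))
    (hsP : ∀ i, i ≤ n → nr (h + ρ) P (γ i) → dt (γ i - P) δP ≤ 0)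
    (hsQ : ∀ i, i ≤ n → nr (h' + ρ) Q (γ i) → dt (γ i - Q) δQ ≤ 0)
    (hPQ : ¬ nr (4 * (B + B')) P Q) (hR : ∀ i, i ≤ n → nr R P (γ i)) :
    ∃ (N : ℕ) (w : ℕ → ℤ × ℤ), w 0 = P + (A + 1) • δP ∧ w N = Q + (A' + 1) • δQ ∧ (∀ i, i < N → adj (w i) (w (i + 1))) ∧
      ∀ i, i ≤ N → nr (R + 6 * (B + B')) P (w i) ∧ ¬ nr A P (w i) ∧ ¬ nr A' Q (w i) ∧ ∀ j, j ≤ n → ¬ nr r (γ j) (w i) := by
  -- the boxes and the arc in one word
  obtain ⟨m1, f, f0, f1, f2, f3, f4⟩ := box_tour (A := A) (P := P) (x := γ 0) (y := γ 0) h0 h0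
  obtain ⟨m3, g, g0, g1, g2, g3, g4⟩ := box_tour (A := A') (P := Q) (x := γ n) (y := γ n) hn hn
  obtain ⟨v, v1, v2, v3⟩ := wcat (R := nr 1) f2 hst f1
  obtain ⟨w, w1, w2, w3⟩ := wcat (R := nr 1) (f := v) (m := m1 + n) v1 g2 (by rw [v3 n le_rfl, g0])
  have cA : ∀ i, i ≤ m1 → nr A P (w i) := by
    intro i hi
    rw [w2 i (by omega), v2 i hi]
    exact f3 i hi
  have cG : ∀ i, m1 ≤ i → i ≤ m1 + n → w i = γ (i - m1) := by
    intro i h1 h2
    obtain ⟨j, rfl⟩ : ∃ j, i = m1 + j := ⟨i - m1, by omega⟩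
    rw [w2 _ h2, v3 j (by omega), Nat.add_sub_cancel_left]
  have cQ : ∀ i, m1 + n ≤ i → i ≤ m1 + n + m3 → nr A' Q (w i) := by
    intro i h1 h2
    obtain ⟨j, rfl⟩ : ∃ j, i = m1 + n + j := ⟨i - (m1 + n), by omega⟩
    rw [w3 j (by omega)]
    exact g3 j (by omega)
  have cases3 : ∀ i, i ≤ m1 + n + m3 → i < m1 ∨ (m1 ≤ i ∧ i ≤ m1 + n) ∨ m1 + n < i := by
    intro i _
    omega
  -- the two points
  obtain ⟨q1, hq1⟩ : ∃ q1, q1 = P + h • δP := ⟨_, rfl⟩
  obtain ⟨q2, hq2⟩ : ∃ q2, q2 = Q + h' • δQ := ⟨_, rfl⟩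
  have hA0 : 0 ≤ A := hr.trans hrA
  have hρ0 : 0 ≤ ρ := by omega
  have hB0 : 0 ≤ B := by omega
  have hA0' : 0 ≤ A' := hr.trans hrA'
  have hB0' : 0 ≤ B' := by omega
  have fP1 : nr h P q1 := by rw [hq1]; exact nr_smul hδP (by omega) le_rfl
  have fQ2 : nr h' Q q2 := by rw [hq2]; exact nr_smul hδQ (by omega) le_rfl
  have farP : ∀ x, nr A P x → ¬ nr ρ x q1 := by
    intro x hx hc
    have := nr_trans hx hc
    rw [hq1] at this
    exact not_nr_smul hδP (by omega) this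
  have farQ : ∀ x, nr A' Q x → ¬ nr ρ x q2 := by
    intro x hx hc
    have := nr_trans hx hc
    rw [hq2] at this
    exact not_nr_smul hδQ (by omega) this
  have farPQ : ∀ x y d e f, nr d P x → nr e Q y → nr f x y → d + f + e ≤ 4 * (B + B') → False := by
    intro x y d e f h1 h2 h3 h4
    exact hPQ (nr_mono h4 (nr_trans (nr_trans h1 h3) (nr_symm h2)))
  have hfar1 : ∀ i, i ≤ m1 + n + m3 → ¬ nr ρ (w i) q1 := by
    intro i hi hc
    rcases cases3 i hi with h1 | ⟨h1, h2⟩ | h1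
    · exact farP _ (cA i h1.le) hc
    · rw [cG i h1 h2] at hc
      have h3 : nr (h + ρ) P (γ (i - m1)) := nr_trans fP1 (nr_symm hc)
      have h4 := hsP (i - m1) (by omega) h3
      rw [hq1] at hc
      exact far_of_side hδP h4 (by omega) hc
    · exact farPQ q1 (w i) h A' ρ fP1 (cQ i h1.le hi) (nr_symm hc) (by omega)
  have hfar2 : ∀ i, i ≤ m1 + n + m3 → ¬ nr ρ (w i) q2 := by
    intro i hi hc
    rcases cases3 i hi with h1 | ⟨h1, h2⟩ | h1
    · exact farPQ (w i) q2 A h' ρ (cA i h1.le) fQ2 hc (by omega)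
    · rw [cG i h1 h2] at hc
      have h3 : nr (h' + ρ) Q (γ (i - m1)) := nr_trans fQ2 (nr_symm hc)
      have h4 := hsQ (i - m1) (by omega) h3
      rw [hq2] at hc
      exact far_of_side hδQ h4 (by omega) hc
    · exact farQ _ (cQ i h1.le hi) hc
  -- the two big boxes
  have bP1 : ¬ nr (A + B) (P - B • δP) q1 := by rw [hq1]; exact box_q hδP (by omega)
  have bQ2 : ¬ nr (A' + B') (Q - B' • δQ) q2 := by rw [hq2]; exact box_q hδQ (by omega)
  have bP2 : ¬ nr (A + B) (P - B • δP) q2 := fun hc =>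
    farPQ _ q2 B h' _ (nr_sub hδP hB0) fQ2 hc (by omega)
  have bQ1 : ¬ nr (A' + B') (Q - B' • δQ) q1 := fun hc =>
    farPQ q1 _ h B' (A' + B') fP1 (nr_sub hδQ hB0') (nr_symm hc) (by omega)
  -- near touches
  have hnt : ∀ i j, i ≤ j → j ≤ m1 + n + m3 → nr (2 * (r + 1)) (w i) (w j) →
      ARM.kap q1 q2 w j = ARM.kap q1 q2 w i + ARM.cr q1 q2 (w i) (w j) := by
    intro i j hij hj hc
    rcases Nat.lt_or_ge i m1 with hi | hi
    · have ai := cA i hi.le
      refine kap_boxc bP1 bP2 j hij ?_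
      intro k hik hkj
      rcases Nat.lt_or_ge k m1 with hk | hk
      · exact box_A hδP hB0 (cA k hk.le)
      · rcases Nat.lt_or_ge (m1 + n) j with hj2 | hj2
        · exact absurd hc fun hc => farPQ (w i) (w j) A A' _ ai (cQ j hj2.le hj) hc (by omega)
        · rw [cG j (by omega) hj2] at hc
          have h1 := hP (k - m1) (j - m1) (by omega) (by omega) (nr_trans ai hc)
          rw [cG k hk (by omega)]
          exact box_B hδP hA0 h1.1 h1.2
    · rcases Nat.lt_or_ge (m1 + n) i with hi2 | hi2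
      · refine kap_boxc bQ1 bQ2 j hij ?_
        intro k hik hkj
        exact box_A hδQ hB0' (cQ k (by omega) (by omega))
      · rcases Nat.lt_or_ge (m1 + n) j with hj2 | hj2
        · refine kap_boxc bQ1 bQ2 j hij ?_
          intro k hik hkj
          rw [cG i hi hi2] at hc
          have h1 : nr (A' + 2 * (r + 1)) Q (γ (i - m1)) := nr_trans (cQ j hj2.le hj) (nr_symm hc)
          rcases Nat.lt_or_ge (m1 + n) k with hk2 | hk2
          · exact box_A hδQ hB0' (cQ k hk2.le (by omega))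
          · rw [cG k (by omega) hk2]
            have h3 := hQ (i - m1) (k - m1) (by omega) (by omega) h1
            exact box_B hδQ hA0' h3.1 h3.2
        · refine ARM.kap_box hρ0 (hfar1 i (by omega)) (hfar2 i (by omega)) j hij ?_
          intro k hik hkj
          rw [cG i hi hi2] at hc ⊢
          rw [cG j (by omega) hj2] at hc
          rw [cG k (by omega) (by omega)]
          exact hm (i - m1) (j - m1) (by omega) (by omega) hc (k - m1) (by omega) (by omega)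
  -- the corridor
  have hR0' : 0 ≤ R := by
    have := hR 0 (Nat.zero_le _)
    rw [nr_iff] at this
    omega
  have hPQR : nr (R + A') P Q := nr_trans (hR n le_rfl) (nr_symm hn)
  obtain ⟨R0, hR0⟩ : ∃ R0 : ℤ, 0 ≤ R0 ∧ nr R0 P q1 ∧ nr R0 P q2 ∧ R0 ≤ R + 2 * (B + B') := by
    refine ⟨R + A' + h + h', by omega, nr_mono (by omega) fP1, nr_mono (by omega) (nr_trans hPQR fQ2), by omega⟩
  obtain ⟨R1, hR1, hR1w, hR1b⟩ : ∃ R1 : ℤ, R0 + r + 2 ≤ R1 ∧ (∀ i, i ≤ m1 + n + m3 → nr R1 P (w i)) ∧ R1 ≤ R + 3 * (B + B') := by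
    refine ⟨R + 3 * (B + B'), by omega, ?_, le_rfl⟩
    intro i hi
    rcases cases3 i hi with h1 | ⟨h1, h2⟩ | h1
    · exact nr_mono (by omega) (cA i h1.le)
    · rw [cG i h1 h2]
      exact nr_mono (by omega) (hR _ (by omega))
    · exact nr_mono (by omega) (nr_trans hPQR (cQ i h1.le hi))
  obtain ⟨R', hR'⟩ : ∃ R' : ℤ, R' = R1 + r + 2 + ρ := ⟨_, rfl⟩
  obtain ⟨z, hz⟩ : ∃ z : ℤ × ℤ, z = P + (R' + r + 3) • (1, 0) := ⟨_, rfl⟩
  have hzf : ∀ d, d < R' + r + 3 → ¬ nr d P z := fun d hd => by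
    rw [hz]
    exact not_nr_smul (by rw [mem_D4]; exact Or.inl rfl) hd
  have hcor := ART.corridor3 (n := fun s => if s then m1 + n + m3 else 0) (γ := fun s i => if s then w i else z) (p := P)
    (q1 := q1) (q2 := q2) (r := r) (ρ := ρ) (R0 := R0) (R1 := R1) (R' := R') hr hρr hR0.1 hR1 (by omega)
    (by
      rintro (_ | _) i hi
      · simp at hi
      · simp only [if_true] at hi ⊢
        exact w1 i hi) hR0.2.1 hR0.2.2.1
    (by
      rintro (_ | _) i hi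
      · simp only [Bool.false_eq_true, if_false] at hi ⊢
        constructor
        · intro hc
          exact hzf (R0 + ρ) (by omega) (nr_trans hR0.2.1 (nr_symm hc))
        · intro hc
          exact hzf (R0 + ρ) (by omega) (nr_trans hR0.2.2.1 (nr_symm hc))
      · simp only [if_true] at hi ⊢
        exact ⟨hfar1 i hi, hfar2 i hi⟩)
    (by
      rintro (_ | _) i j hij hj hc hp
      · simp only [Bool.false_eq_true, if_false] at hj
        have e1 : i = 0 := by omega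
        have e2 : j = 0 := by omega
        rw [e1, e2, ARM.cr_self, add_zero]
      · simp only [if_true] at hj hc ⊢
        exact hnt i j hij hj hc)
    (by
      intro i j hi hj hp
      simp only [Bool.false_eq_true, if_false] at hp
      exact absurd hp (hzf _ (by omega)))
    (by
      rintro (_ | _) i hi hp k hk
      · simp only [Bool.false_eq_true, if_false] at hi ⊢
        exact hzf _ (by omega)
      · simp only [if_true] at hi hp
        exact absurd (hR1w i hi) hp)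
  -- the good cells
  obtain ⟨G, hG⟩ : ∃ G : ℤ × ℤ → Prop, G = fun c => nr (R + 6 * (B + B')) P c ∧ ¬ nr A P c ∧ ¬ nr A' Q c ∧
      ∀ j, j ≤ n → ¬ nr r (γ j) c := ⟨_, rfl⟩
  have hcor2 : Relation.ReflTransGen (fun f g => adj f g ∧ G g) q1 q2 := by
    refine Relation.ReflTransGen.mono ?_ q1 q2 hcor
    intro x y hxy
    refine ⟨hxy.1, ?_⟩
    have hy := hxy.2.2 true
    simp only [if_true] at hy
    rw [hG]
    refine ⟨nr_mono (by omega) hxy.2.1, ?_, ?_, ?_⟩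
    · intro hc
      obtain ⟨i, hi, e⟩ := f4 y hc
      refine hy i (by omega) ?_
      rw [w2 i (by omega), v2 i hi, e]
      exact nr_self hr _
    · intro hc
      obtain ⟨i, hi, e⟩ := g4 y hc
      refine hy (m1 + n + i) (by omega) ?_
      rw [w3 i hi, e]
      exact nr_self hr _
    · intro j hj hc
      refine hy (m1 + j) (by omega) ?_
      rw [w2 (m1 + j) (by omega), v3 j hj]
      exact hc
  have gP : ∀ s, A + 1 ≤ s → s ≤ h → G (P + s • δP) := by
    intro s h1 h2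
    rw [hG]
    refine ⟨nr_mono (by omega) (nr_smul hδP (by omega) h2), not_nr_smul hδP (by omega), ?_, ?_⟩
    · intro hc
      exact hPQ (nr_mono (by omega) (nr_trans (nr_smul hδP (by omega) h2) (nr_symm hc)))
    · intro j hj hc
      have h3 : nr (h + ρ) P (γ j) := nr_mono (by omega) (nr_trans (nr_smul hδP (by omega) h2) (nr_symm hc))
      exact far_of_side hδP (hsP j hj h3) (by omega) hc
  have gQ : ∀ s, A' + 1 ≤ s → s ≤ h' → G (Q + s • δQ) := by
    intro s h1 h2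
    rw [hG]
    refine ⟨nr_mono (by omega) (nr_trans hPQR (nr_smul hδQ (by omega) h2)), ?_, not_nr_smul hδQ (by omega), ?_⟩
    · intro hc
      exact hPQ (nr_mono (by omega) (nr_trans hc (nr_symm (nr_smul hδQ (by omega) h2))))
    · intro j hj hc
      have h3 : nr (h' + ρ) Q (γ j) := nr_mono (by omega) (nr_trans (nr_smul hδQ (by omega) h2) (nr_symm hc))
      exact far_of_side hδQ (hsQ j hj h3) (by omega) hc
  have k1 := straight hδP (a := A + 1) (b := h) (by omega) gP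
  have k2 := straight' hδQ (a := A' + 1) (b := h') (by omega) gQ
  rw [← hq1] at k1
  rw [← hq2] at k2
  obtain ⟨N, x, x0, xN, hx⟩ := ARM.pth_of ((k1.trans hcor2).trans k2)
  refine ⟨N, x, x0, xN, fun i hi => (hx i hi).1, ?_⟩
  intro i hi
  have h1 : G (x i) := by
    cases i with
    | zero => rw [x0]; exact gP _ le_rfl (by omega)
    | succ i => exact (hx i (by omega)).2
  rw [hG] at h1
  exact h1

/-- **two disjoint companions of the main arc** -/
theorem two_companions {n : ℕ} {γ : ℕ → ℤ × ℤ} {P Q δP δQ : ℤ × ℤ} {r A h B A' h' B' ρ R : ℤ} (hδP : δP ∈ D4) (hδQ : δQ ∈ D4)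
    (hr : 0 ≤ r) (hrA : r ≤ A) (hrA' : r ≤ A') (hρr : 2 * (r + 1) ≤ ρ) (hh : A + ρ < h) (hB : h + ρ ≤ B)
    (hh' : A' + ρ < h') (hB' : h' + ρ ≤ B')
    (hst : ∀ i, i < n → nr 1 (γ i) (γ (i + 1))) (h0 : nr A P (γ 0)) (hn : nr A' Q (γ n))
    (hP : ∀ i j, i ≤ j → j ≤ n → nr (A + 2 * (r + 1)) P (γ j) → nr B P (γ i) ∧ dt (γ i - P) δP ≤ 0)
    (hQ : ∀ i j, i ≤ j → j ≤ n → nr (A' + 2 * (r + 1)) Q (γ i) → nr B' Q (γ j) ∧ dt (γ j - Q) δQ ≤ 0)
    (hm : ∀ i j, i ≤ j → j ≤ n → nr (2 * (r + 1)) (γ i) (γ j) → ∀ k, i ≤ k → k ≤ j → nr ρ (γ i) (γ k))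
    (hsP : ∀ i, i ≤ n → nr (h + ρ) P (γ i) → dt (γ i - P) δP ≤ 0)
    (hsQ : ∀ i, i ≤ n → nr (h' + ρ) Q (γ i) → dt (γ i - Q) δQ ≤ 0)
    (hPQ : ¬ nr (4 * (B + B')) P Q) (hR : ∀ i, i ≤ n → nr R P (γ i)) :
    ∃ L M : List (ℤ × ℤ), L.IsChain adj ∧ M.IsChain adj ∧ L.Nodup ∧ M.Nodup ∧ (∀ x ∈ L, x ∉ M) ∧
      (∀ x, x ∈ L ∨ x ∈ M → nr (R + 6 * (B + B')) P (bl x) ∧ ¬ nr A P (bl x) ∧ ¬ nr A' Q (bl x) ∧
        ∀ j, j ≤ n → ¬ nr r (γ j) (bl x)) ∧
      L.head? = some (Lf (P + (A + 1) • δP) (-δP)) ∧ L.getLast? = some (Rt (Q + (A' + 1) • δQ) (-δQ)) ∧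
      M.head? = some (Lf (Q + (A' + 1) • δQ) (-δQ)) ∧ M.getLast? = some (Rt (P + (A + 1) • δP) (-δP)) := by
  classical
  obtain ⟨N, w, w0, wN, hw, hg⟩ := lane_walk hδP hδQ hr hrA hrA' hρr hh hB hh' hB' hst h0 hn hP hQ hm hsP hsQ hPQ hR
  have hA0 : 0 ≤ A := hr.trans hrA
  have hA0' : 0 ≤ A' := hr.trans hrA'
  have out : ∀ {P δ : ℤ × ℤ} {A : ℤ}, 0 ≤ A → δ ∈ D4 → nr A P (P + (A + 1) • δ + -δ) := by
    intro P δ A hA0 hδ
    have e : P + (A + 1) • δ + -δ = P + A • δ := by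
      rw [add_smul, one_smul]
      abel
    rw [e]
    exact nr_smul hδ hA0 le_rfl
  have nD4 : ∀ {δ : ℤ × ℤ}, δ ∈ D4 → -δ ∈ D4 := by
    intro δ hδ
    rw [mem_D4] at hδ ⊢
    rcases hδ with rfl | rfl | rfl | rfl <;> simp
  obtain ⟨l, hl⟩ := ham_walk (u := P + (A + 1) • δP) (δ0 := -δP) (nD4 hδP) w0 hw (by
    intro i hi hc
    exact (hg i hi).2.1 (by rw [hc]; exact out hA0 hδP))
  have hmem : ∀ c ∈ (Finset.range (N + 1)).image w, ∃ i, i ≤ N ∧ w i = c := by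
    intro c hc
    obtain ⟨i, hi, e⟩ := Finset.mem_image.1 hc
    exact ⟨i, by rw [Finset.mem_range] at hi; omega, e⟩
  obtain ⟨L, M, -, c1, c2, c3, c4, c5, c6, c7, c8, c9, c10, c11⟩ := two_lanes hl (a := Q + (A' + 1) • δQ) (δa := -δQ)
    (Finset.mem_image.2 ⟨N, Finset.mem_range.2 (by omega), wN⟩) (nD4 hδQ) (by
      intro hc
      obtain ⟨i, hi, e⟩ := hmem _ hc
      exact (hg i hi).2.2.1 (by rw [e]; exact out hA0' hδQ)) (by
      left
      intro hc
      have h1 := nr_smul (P := P) hδP (s := A + 1) (d := A + 1) (by omega) le_rfl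
      have h2 := nr_smul (P := Q) hδQ (s := A' + 1) (d := A' + 1) (by omega) le_rfl
      rw [hc] at h2
      exact hPQ (nr_mono (by omega) (nr_trans h1 (nr_symm h2))))
  refine ⟨L, M, c1, c2, c3, c4, c5, ?_, c8, c9, c10, c11⟩
  intro x hx
  obtain ⟨i, hi, e⟩ := hmem (bl x) (hx.elim (c6 x) (c7 x))
  rw [← e]
  exact hg i hi

end F3L

end ROT

end HexObs
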