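import Mathlib

set_option autoImplicit false

/-!
The three-arc lemma for laws (measures on a space of shapes), relative errors only.
-/

namespace HexObs
namespace ROT
namespace F3

open MeasureTheory Set

/-- One small set, relative errors. -/
theorem cell_rel {x y z p q r c d e δ : ℝ} (hx : 0 ≤ x)
    (hy : 0 < y) (hz : 0 < z) (hc : 0 < c) (hd : 0 < d) (he : 0 < e)
    (hδ : 0 ≤ δ) (hδ2 : δ ≤ 1 / 2)
    (h12 : |p - c * x * y| ≤ δ * (c * x * y)) (h13 : |q - d * x * z| ≤ δ * (d * x * z))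
    (h23 : |r - e * y * z| ≤ δ * (e * y * z)) :
    |p * q / r / (c * d / e) - x ^ 2| ≤ 7 * δ * x ^ 2 := by
  set u : ℝ := p / (c * y) with hu
  set v : ℝ := q / (d * z) with hv
  set w : ℝ := r / (e * y * z) with hw
  have hcy : 0 < c * y := mul_pos hc hy
  have hdz : 0 < d * z := mul_pos hd hz
  have heyz : 0 < e * y * z := mul_pos (mul_pos he hy) hz
  have hu1 : |u - x| ≤ δ * x := by
    have : u - x = (p - c * x * y) / (c * y) := by rw [hu]; field_simp
    rw [this, abs_div, abs_of_pos hcy, div_le_iff₀ hcy]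
    refine le_trans h12 (le_of_eq (by ring))
  have hv1 : |v - x| ≤ δ * x := by
    have : v - x = (q - d * x * z) / (d * z) := by rw [hv]; field_simp
    rw [this, abs_div, abs_of_pos hdz, div_le_iff₀ hdz]
    refine le_trans h13 (le_of_eq (by ring))
  have hw1 : |w - 1| ≤ δ := by
    have : w - 1 = (r - e * y * z) / (e * y * z) := by rw [hw]; field_simp
    rw [this, abs_div, abs_of_pos heyz, div_le_iff₀ heyz]; exact h23
  have hwpos : 1 / 2 ≤ w := by
    rw [abs_le] at hw1; linarith [hw1.1]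
  have hw0 : 0 < w := by linarith
  have hr0 : r ≠ 0 := by
    intro h0
    rw [h0] at hw
    have : w = 0 := by rw [hw]; simp
    linarith
  have key : p * q / r / (c * d / e) = u * v / w := by
    rw [hu, hv, hw]; field_simp
  rw [key]
  have h1 : |u * v - x ^ 2| ≤ 5 / 2 * δ * x ^ 2 := by
    have : u * v - x ^ 2 = (u - x) * (v - x) + x * (u - x) + x * (v - x) := by ring
    rw [this]
    have a1 : |(u - x) * (v - x)| ≤ (δ * x) * (δ * x) := by
      rw [abs_mul]
      exact mul_le_mul hu1 hv1 (abs_nonneg _) (mul_nonneg hδ hx)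
    have a2 : |x * (u - x)| ≤ x * (δ * x) := by
      rw [abs_mul, abs_of_nonneg hx]
      exact mul_le_mul_of_nonneg_left hu1 hx
    have a3 : |x * (v - x)| ≤ x * (δ * x) := by
      rw [abs_mul, abs_of_nonneg hx]
      exact mul_le_mul_of_nonneg_left hv1 hx
    have a4 := abs_add_three ((u - x) * (v - x)) (x * (u - x)) (x * (v - x))
    have a5 : (δ * x) * (δ * x) ≤ 1 / 2 * δ * x ^ 2 := by
      have : (δ * x) * (δ * x) = δ * (δ * x ^ 2) := by ring
      rw [this]
      have := mul_le_mul_of_nonneg_right hδ2 (mul_nonneg hδ (sq_nonneg x))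
      linarith
    nlinarith
  have h2 : u * v / w - x ^ 2 = ((u * v - x ^ 2) - x ^ 2 * (w - 1)) / w := by
    field_simp; ring
  rw [h2, abs_div, abs_of_pos hw0, div_le_iff₀ hw0]
  have h3 : |x ^ 2 * (w - 1)| ≤ x ^ 2 * δ := by
    rw [abs_mul, abs_of_nonneg (sq_nonneg x)]
    exact mul_le_mul_of_nonneg_left hw1 (sq_nonneg x)
  have h4 := abs_sub (u * v - x ^ 2) (x ^ 2 * (w - 1))
  have h5 : 7 * δ * x ^ 2 * (1 / 2) ≤ 7 * δ * x ^ 2 * w :=
    mul_le_mul_of_nonneg_left hwpos (by positivity)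
  nlinarith

theorem cmp_of_sq {a b t : ℝ} (ha : 0 ≤ a) (hb : 0 ≤ b) (ht : 0 ≤ t)
    (h : |a ^ 2 - b ^ 2| ≤ t * (a ^ 2 + b ^ 2)) : |a - b| ≤ t * (a + b) := by
  rcases eq_or_lt_of_le (add_nonneg ha hb) with h0 | h0
  · have ha0 : a = 0 := by linarith
    have hb0 : b = 0 := by linarith
    simp [ha0, hb0]
  · have h1 : |a - b| * (a + b) ≤ (t * (a + b)) * (a + b) := by
      calc |a - b| * (a + b) = |a ^ 2 - b ^ 2| := by
            rw [show a ^ 2 - b ^ 2 = (a - b) * (a + b) by ring, abs_mul, abs_of_pos h0]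
        _ ≤ t * (a ^ 2 + b ^ 2) := h
        _ ≤ t * (a + b) ^ 2 := by
            apply mul_le_mul_of_nonneg_left _ ht
            nlinarith [mul_nonneg ha hb]
        _ = (t * (a + b)) * (a + b) := by ring
    exact le_of_mul_le_mul_right h1 h0

/-- The comparison of the two masses of one small set. -/
theorem cell_cmp {x x' y y' z z' p q r c d e c' d' e' δ : ℝ}
    (hc : 0 < c) (hd : 0 < d) (he : 0 < e) (hc' : 0 < c') (hd' : 0 < d') (he' : 0 < e')
    (hx : 0 ≤ x) (hx' : 0 ≤ x') (hy : 0 < y) (hy' : 0 < y') (hz : 0 < z) (hz' : 0 < z')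
    (hδ : 0 ≤ δ) (hδ2 : δ ≤ 1 / 2)
    (h12 : |p - c * x * y| ≤ δ * (c * x * y)) (h13 : |q - d * x * z| ≤ δ * (d * x * z))
    (h23 : |r - e * y * z| ≤ δ * (e * y * z))
    (h12' : |p - c' * x' * y'| ≤ δ * (c' * x' * y'))
    (h13' : |q - d' * x' * z'| ≤ δ * (d' * x' * z'))
    (h23' : |r - e' * y' * z'| ≤ δ * (e' * y' * z')) :
    |x - Real.sqrt ((c' * d' / e') / (c * d / e)) * x'|
      ≤ 7 * δ * (x + Real.sqrt ((c' * d' / e') / (c * d / e)) * x') := by
  set k2 : ℝ := (c' * d' / e') / (c * d / e) with hk2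
  have hk2p : 0 < k2 := by rw [hk2]; positivity
  set k : ℝ := Real.sqrt k2 with hk
  have hkp : 0 < k := Real.sqrt_pos.mpr hk2p
  have hksq : k ^ 2 = k2 := Real.sq_sqrt hk2p.le
  have e1 := cell_rel hx hy hz hc hd he hδ hδ2 h12 h13 h23
  have e2 := cell_rel hx' hy' hz' hc' hd' he' hδ hδ2 h12' h13' h23'
  set m : ℝ := p * q / r with hm
  have e3 : m / (c * d / e) = k2 * (m / (c' * d' / e')) := by
    rw [hk2]; field_simp
  apply cmp_of_sq hx (mul_nonneg hkp.le hx') (by positivity)
  have e4 : x ^ 2 - (k * x') ^ 2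
      = -(m / (c * d / e) - x ^ 2) + k2 * (m / (c' * d' / e') - x' ^ 2) := by
    rw [mul_pow, hksq, e3]; ring
  rw [e4]
  refine le_trans (abs_add_le _ _) ?_
  rw [abs_neg, abs_mul, abs_of_pos hk2p, mul_pow, hksq]
  nlinarith [mul_le_mul_of_nonneg_left e2 hk2p.le]

theorem le_of_cover {X : Type*} [MeasurableSpace X] {μ ν : Measure X} {U : ℕ → Set X}
    (hU : ∀ i, MeasurableSet (U i))
    (h : ∀ i, ∀ V, V ⊆ U i → MeasurableSet V → μ V ≤ ν V)
    (h0 : μ (⋃ i, U i)ᶜ = 0) : μ ≤ ν := by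
  rw [Measure.le_iff]
  intro E hE
  have hD : ∀ i, MeasurableSet (disjointed U i) := fun i => MeasurableSet.disjointed hU i
  have hdis : Pairwise (Function.onFun Disjoint fun i => E ∩ disjointed U i) := by
    intro i j hij
    exact ((disjoint_disjointed U) hij).mono inter_subset_right inter_subset_right
  have hEU : E ∩ ⋃ i, U i = ⋃ i, E ∩ disjointed U i := by
    rw [← inter_iUnion, iUnion_disjointed]
  calc μ E ≤ μ (E ∩ ⋃ i, U i) + μ (⋃ i, U i)ᶜ := by
        refine le_trans (measure_mono (t := (E ∩ ⋃ i, U i) ∪ (⋃ i, U i)ᶜ) ?_) (measure_union_le _ _)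
        intro a ha
        by_cases hm : a ∈ ⋃ i, U i
        · exact Or.inl ⟨ha, hm⟩
        · exact Or.inr hm
    _ = μ (⋃ i, E ∩ disjointed U i) := by rw [h0, add_zero, hEU]
    _ = ∑' i, μ (E ∩ disjointed U i) := measure_iUnion hdis fun i => hE.inter (hD i)
    _ ≤ ∑' i, ν (E ∩ disjointed U i) := by
        apply ENNReal.tsum_le_tsum
        intro i
        exact h i _ (inter_subset_right.trans (disjointed_subset U i)) (hE.inter (hD i))
    _ = ν (⋃ i, E ∩ disjointed U i) := (measure_iUnion hdis fun i => hE.inter (hD i)).symm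
    _ ≤ ν E := measure_mono (iUnion_subset fun i => inter_subset_left)

theorem cover_seq {X : Type*} [TopologicalSpace X] [SecondCountableTopology X]
    (P : Set X → Prop) :
    ∃ U : ℕ → Set X, (∀ i, IsOpen (U i)) ∧ (∀ i, U i = ∅ ∨ P (U i)) ∧
      ∀ V : Set X, IsOpen V → P V → V ⊆ ⋃ i, U i := by
  classical
  let I := {V : Set X // IsOpen V ∧ P V}
  let s : Option I → Set X := fun o => o.elim ∅ fun v => v.1
  have hs : ∀ o, IsOpen (s o) := by
    intro o
    cases o with
    | none => exact isOpen_empty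
    | some v => exact v.2.1
  obtain ⟨T, hT, hTU⟩ := TopologicalSpace.isOpen_iUnion_countable s hs
  have hT' : (insert none T).Countable := hT.insert none
  obtain ⟨f, hf⟩ := hT'.exists_eq_range ⟨none, mem_insert _ _⟩
  refine ⟨fun i => s (f i), fun i => hs _, ?_, ?_⟩
  · intro i
    show s (f i) = ∅ ∨ P (s (f i))
    cases hfi : f i with
    | none => left; rfl
    | some v => right; exact v.2.2
  · intro V hV hPV a ha
    have h1 : a ∈ ⋃ o, s o := mem_iUnion.mpr ⟨some ⟨V, hV, hPV⟩, ha⟩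
    rw [← hTU] at h1
    obtain ⟨o, ho⟩ := mem_iUnion.mp h1
    obtain ⟨hoT, hao⟩ := mem_iUnion.mp ho
    have h2 : o ∈ insert none T := mem_insert_of_mem _ hoT
    rw [hf] at h2
    obtain ⟨i, hi⟩ := h2
    exact mem_iUnion.mpr ⟨i, by rw [hi]; exact hao⟩

/-- Local comparability with one constant gives global comparability. -/
theorem glob_of_loc {X : Type*} [TopologicalSpace X] [SecondCountableTopology X]
    [MeasurableSpace X] [OpensMeasurableSpace X] (μ ν : Measure X)
    [IsFiniteMeasure μ] [IsFiniteMeasure ν] {k t : ℝ} (hk : 0 ≤ k) (ht : 0 ≤ t) (ht1 : t ≤ 1)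
    (H : ∀ᵐ a ∂(μ + ν), ∃ U : Set X, IsOpen U ∧ a ∈ U ∧ ∀ V, V ⊆ U → MeasurableSet V →
      |μ.real V - k * ν.real V| ≤ t * (μ.real V + k * ν.real V)) :
    ∀ E, MeasurableSet E → |μ.real E - k * ν.real E| ≤ t * (μ.real E + k * ν.real E) := by
  obtain ⟨U, hUo, hUP, hUc⟩ := cover_seq (X := X) (fun U => ∀ V, V ⊆ U → MeasurableSet V →
      |μ.real V - k * ν.real V| ≤ t * (μ.real V + k * ν.real V))
  have hnull : (μ + ν) (⋃ i, U i)ᶜ = 0 := by
    apply measure_mono_null _ (ae_iff.mp H)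
    intro a ha hcon
    obtain ⟨V, hVo, haV, hV⟩ := hcon
    exact ha (hUc V hVo hV haV)
  rw [Measure.add_apply, add_eq_zero] at hnull
  have loc : ∀ i, ∀ V, V ⊆ U i → MeasurableSet V →
      |μ.real V - k * ν.real V| ≤ t * (μ.real V + k * ν.real V) := by
    intro i V hV hVm
    rcases hUP i with h | h
    · have : V = ∅ := by
        apply subset_empty_iff.mp; rw [← h]; exact hV
      subst this; simp
    · exact h V hV hVm
  -- the two one-sided comparisons as inequalities of measures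
  have toM : ∀ (ρ : Measure X) [IsFiniteMeasure ρ] (s : ℝ) (V : Set X), 0 ≤ s →
      (ENNReal.ofReal s • ρ) V = ENNReal.ofReal (s * ρ.real V) := by
    intro ρ _ s V hs
    rw [Measure.smul_apply, smul_eq_mul, ENNReal.ofReal_mul hs, Measure.real,
      ENNReal.ofReal_toReal (measure_ne_top ρ V)]
  have A1 : ENNReal.ofReal (1 - t) • μ ≤ ENNReal.ofReal (k * (1 + t)) • ν := by
    apply le_of_cover (U := U) (fun i => (hUo i).measurableSet)
    · intro i V hV hVm
      rw [toM μ _ V (by linarith), toM ν _ V (by positivity)]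
      apply ENNReal.ofReal_le_ofReal
      have := (abs_le.mp (loc i V hV hVm)).2
      linarith
    · rw [Measure.smul_apply, hnull.1, smul_zero]
  have A2 : ENNReal.ofReal (k * (1 - t)) • ν ≤ ENNReal.ofReal (1 + t) • μ := by
    apply le_of_cover (U := U) (fun i => (hUo i).measurableSet)
    · intro i V hV hVm
      rw [toM μ _ V (by linarith), toM ν _ V (mul_nonneg hk (by linarith))]
      apply ENNReal.ofReal_le_ofReal
      have := (abs_le.mp (loc i V hV hVm)).1
      linarith
    · rw [Measure.smul_apply, hnull.2, smul_zero]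
  intro E hE
  have B1 := Measure.le_iff'.mp A1 E
  have B2 := Measure.le_iff'.mp A2 E
  rw [toM μ _ E (by linarith), toM ν _ E (by positivity),
    ENNReal.ofReal_le_ofReal_iff (by positivity)] at B1
  rw [toM μ _ E (by linarith), toM ν _ E (mul_nonneg hk (by linarith)),
    ENNReal.ofReal_le_ofReal_iff (by positivity)] at B2
  rw [abs_le]; constructor <;> linarith

/-- **T1.** The triangle for laws with relative errors `δ`. -/
theorem tri_delta {X : Type*} [TopologicalSpace X] [SecondCountableTopology X]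
    [MeasurableSpace X] [OpensMeasurableSpace X] (μ ν : Measure X)
    [IsFiniteMeasure μ] [IsFiniteMeasure ν] {c d e c' d' e' δ : ℝ}
    (hc : 0 < c) (hd : 0 < d) (he : 0 < e) (hc' : 0 < c') (hd' : 0 < d') (he' : 0 < e')
    (hδ : 0 ≤ δ) (hδ2 : δ ≤ 1 / 7)
    (H : ∀ᵐ a ∂(μ + ν), ∃ U : Set X, IsOpen U ∧ a ∈ U ∧ ∃ y z y' z' r : ℝ,
      0 < y ∧ 0 < z ∧ 0 < y' ∧ 0 < z' ∧
      |r - e * y * z| ≤ δ * (e * y * z) ∧ |r - e' * y' * z'| ≤ δ * (e' * y' * z') ∧
      ∀ V, V ⊆ U → MeasurableSet V → ∃ p q : ℝ,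
        |p - c * μ.real V * y| ≤ δ * (c * μ.real V * y) ∧
        |p - c' * ν.real V * y'| ≤ δ * (c' * ν.real V * y') ∧
        |q - d * μ.real V * z| ≤ δ * (d * μ.real V * z) ∧
        |q - d' * ν.real V * z'| ≤ δ * (d' * ν.real V * z')) :
    ∃ k : ℝ, 0 < k ∧ ∀ E, MeasurableSet E →
      |μ.real E - k * ν.real E| ≤ 7 * δ * (μ.real E + k * ν.real E) := by
  refine ⟨Real.sqrt ((c' * d' / e') / (c * d / e)), Real.sqrt_pos.mpr (by positivity), ?_⟩
  apply glob_of_loc μ ν (Real.sqrt_nonneg _) (by positivity) (by linarith)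
  filter_upwards [H] with a ha
  obtain ⟨U, hUo, haU, y, z, y', z', r, hy, hz, hy', hz', h23, h23', hV⟩ := ha
  refine ⟨U, hUo, haU, fun V hVU hVm => ?_⟩
  obtain ⟨p, q, h12, h12', h13, h13'⟩ := hV V hVU hVm
  exact cell_cmp hc hd he hc' hd' he' measureReal_nonneg measureReal_nonneg hy hy' hz hz' hδ
    (by linarith) h12 h13 h23 h12' h13' h23'

/-- **T2.** Comparability with every precision gives proportionality. -/
theorem prop_of_delta {X : Type*} [MeasurableSpace X] (μ ν : Measure X)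
    [IsFiniteMeasure μ] [IsFiniteMeasure ν]
    (H : ∀ t : ℝ, 0 < t → ∃ k : ℝ, 0 ≤ k ∧ ∀ E, MeasurableSet E →
      |μ.real E - k * ν.real E| ≤ t * (μ.real E + k * ν.real E)) :
    ∀ E, MeasurableSet E → ν.real univ * μ.real E = μ.real univ * ν.real E := by
  intro E hE
  set M := μ.real univ with hM
  set N := ν.real univ with hN
  have hM0 : 0 ≤ M := measureReal_nonneg
  have hN0 : 0 ≤ N := measureReal_nonneg
  have hm0 : 0 ≤ μ.real E := measureReal_nonneg
  have hn0 : 0 ≤ ν.real E := measureReal_nonneg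
  have hm1 : μ.real E ≤ M := measureReal_mono (subset_univ _)
  have hn1 : ν.real E ≤ N := measureReal_mono (subset_univ _)
  have key : ∀ t : ℝ, 0 < t → |N * μ.real E - M * ν.real E| ≤ t := by
    intro t0 ht0
    set t : ℝ := min (1 / 2) (t0 / (8 * M * N + 1)) with ht
    have hpos : 0 < 8 * M * N + 1 := by positivity
    have htp : 0 < t := lt_min (by norm_num) (div_pos ht0 hpos)
    have ht2 : t ≤ 1 / 2 := min_le_left _ _
    have ht3 : t * (8 * M * N + 1) ≤ t0 := by
      have := min_le_right (1 / 2) (t0 / (8 * M * N + 1))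
      rw [← ht] at this
      rwa [le_div_iff₀ hpos] at this
    obtain ⟨k, hk0, hk⟩ := H t htp
    have hU := hk univ MeasurableSet.univ
    have hEE := hk E hE
    rw [← hM, ← hN] at hU
    have hkN : k * N ≤ 3 * M := by
      have := (abs_le.mp hU).1
      nlinarith [mul_nonneg hk0 hN0]
    have i1 : |N * μ.real E - M * ν.real E|
        ≤ N * |μ.real E - k * ν.real E| + |M - k * N| * ν.real E := by
      have : N * μ.real E - M * ν.real E
          = N * (μ.real E - k * ν.real E) + (-(M - k * N)) * ν.real E := by ring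
      rw [this]
      refine le_trans (abs_add_le _ _) ?_
      rw [abs_mul, abs_mul, abs_neg, abs_of_nonneg hN0, abs_of_nonneg hn0]
    have i2 : N * |μ.real E - k * ν.real E| ≤ N * (t * (M + 3 * M)) := by
      apply mul_le_mul_of_nonneg_left _ hN0
      refine le_trans hEE (mul_le_mul_of_nonneg_left ?_ htp.le)
      linarith [mul_le_mul_of_nonneg_left hn1 hk0]
    have i3 : |M - k * N| * ν.real E ≤ (t * (M + 3 * M)) * N := by
      apply mul_le_mul _ hn1 hn0 (by positivity)
      refine le_trans hU (mul_le_mul_of_nonneg_left ?_ htp.le)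
      linarith
    calc |N * μ.real E - M * ν.real E| ≤ t * (8 * M * N) := by nlinarith
      _ ≤ t * (8 * M * N + 1) := by nlinarith
      _ ≤ t0 := ht3
  have h0 : |N * μ.real E - M * ν.real E| ≤ 0 := by
    apply le_of_forall_pos_le_add
    intro t ht
    simpa using key t ht
  have := abs_nonpos_iff.mp h0
  linarith

end F3
end ROT
end HexObs
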