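import Pool.Agent.ROT.F3LevM
import Pool.Agent.ROT.F3CoreR
import Pool.Agent.ROT.F3CorMid

/-!
# ROT / F3LevP (helper62): the fields `dR`, `dP` of `PairIn` for the functional class of the rotated lattice

* **`lev_den`**, **`lev_denP`** : `LevIn` of the classes with fixed thresholds, their limits `LvO`, the readings `Rdg`, existence ==>
  `Den` and `DenP` for `wR` = the functional class on `Cp × Cq`, `mR` = its data;
* `datT g T` = (connections, rests) of the marks `T`; `lP4`, `aP4` : the levels of the gates `c` and of the gates of the other lattice,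
  read from the connections; **`rdg_of`** : `Rdg` for them.
-/

set_option autoImplicit false
set_option linter.unusedSectionVars false

open MeasureTheory Filter Topology Set

open scoped NNReal ENNReal Classical

namespace Pool.Agent.ROT.F3.CK

open Pool.Agent.ROT.F3 Pool.Agent.ROT.F3.CC Pool.Agent.ROT.F3.LF Pool.Agent.ROT.F3.Nul

/-! ### 1. The densities -/

section den

variable {Kp Kq A B : Type*} [PseudoEMetricSpace Kp] [MeasurableSpace Kp] [BorelSpace Kp] [StandardBorelSpace Kp] [Nonempty Kp]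
  [SecondCountableTopology Kp]
  [PseudoEMetricSpace Kq] [MeasurableSpace Kq] [BorelSpace Kq] [StandardBorelSpace Kq] [Nonempty Kq]
  [SecondCountableTopology Kq]
  [PseudoMetricSpace A] [MeasurableSpace A] [BorelSpace A] [SecondCountableTopology A]
  [PseudoMetricSpace B] [MeasurableSpace B] [BorelSpace B] [SecondCountableTopology B]
  {U : Ultrafilter ℕ} {bA : ℕ → FiniteMeasure A} {b1 : FiniteMeasure A} {bB : ℕ → FiniteMeasure B}
  {b2 : FiniteMeasure B} {m : ℕ → Measure ℂ} {c : ℝ} {yA : A → ℂ} {yB : B → ℂ} {C R C' : ℕ → ℝ}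
  {g : ℕ → (Kp → ℝ) → ℕ → ℂ → ℝ} {h : ℕ → (Kq → ℝ) → ℕ → ℂ → ℝ}
  {ρN : ℕ → ℕ → ℕ → Measure ((Kp × Kq) × (A × (B × ℂ)))} {DA : Set (A × (B × ℂ))}
  {μ : ℕ → Measure (W3 × ℕ)} {X : Type*} [PseudoMetricSpace X] [MeasurableSpace X]
  [BorelSpace X] [CompleteSpace X] [SecondCountableTopology X] {cc : ℕ → W3 × ℕ → X} {P : Measure X} {D : Dt}
  {RA RB : ℕ → Set W3} {t0 : ℝ} {E : ℕ → ℕ → X → ℝ} {Φ : ℕ → ℕ → X → Fin 8 → ℝ} {Λ : ℕ → ℕ → X → Fin 4 → ℝ}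
  {u : ℕ → W3 × ℕ → Fin 4 → ℝ} {EF : X → ℝ} {ΦF : X → Fin 8 → ℝ} {ΛF : X → Fin 4 → ℝ} {AF : X → Fin 4 → ℝ}
  {F : X → (Fin 8 → ℝ) → (Kp × Kq) × (A × (B × ℂ))} {Cp : Set Kp} {Cq : Set Kq} {aP lP : Kp → Fin 2 → ℝ}
  {aQ lQ : Kq → Fin 2 → ℝ}

/-- everything about the functional class and the classes with fixed thresholds -/
structure LevF (U : Ultrafilter ℕ) (μ : ℕ → Measure (W3 × ℕ)) (cc : ℕ → W3 × ℕ → X) (P : Measure X) (D : Dt)
    (RA RB : ℕ → Set W3) (t0 : ℝ) (E : ℕ → ℕ → X → ℝ) (Φ : ℕ → ℕ → X → Fin 8 → ℝ) (Λ : ℕ → ℕ → X → Fin 4 → ℝ)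
    (u : ℕ → W3 × ℕ → Fin 4 → ℝ) (EF : X → ℝ) (ΦF : X → Fin 8 → ℝ) (ΛF : X → Fin 4 → ℝ) (AF : X → Fin 4 → ℝ)
    (F : X → (Fin 8 → ℝ) → (Kp × Kq) × (A × (B × ℂ))) (Cp : Set Kp) (Cq : Set Kq) (aP lP : Kp → Fin 2 → ℝ)
    (aQ lQ : Kq → Fin 2 → ℝ) : Prop where
  cv : Cv (U : Filter ℕ) μ cc P
  hU : ∀ᶠ N : ℕ in (U : Filter ℕ), 0 < N
  ok : D.Ok
  hA : ∀ᶠ N in (U : Filter ℕ), RA N ⊆ D.A N (uT N)
  hB : ∀ᶠ N in (U : Filter ℕ), RB N ⊆ D.B N (uT N)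
  /-- the classes with fixed thresholds -/
  fix : ∀ i j, LvO (U : Filter ℕ) μ cc P D RA RB (fun _ _ => yv D t0 i j) (E i j) (Φ i j) (Λ i j)
  /-- the functional class -/
  fn : LvO (U : Filter ℕ) μ cc P D RA RB u EF ΦF ΛF
  lu : ∀ s, Lm (U : Filter ℕ) μ cc P (fun N x => u N x s) fun g => AF g s
  mF : Measurable fun x : X × (Fin 8 → ℝ) => F x.1 x.2
  mCp : MeasurableSet Cp
  mCq : MeasurableSet Cq
  maP : Measurable aP
  mlP : Measurable lP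
  maQ : Measurable aQ
  mlQ : Measurable lQ
  /-- the readings of the levels from the connections -/
  rd : ∀ i j, ∀ᵐ g ∂P, ENNReal.ofReal (E i j g) ≠ 0 → (F g (Φ i j g)).1.1 ∈ Cp → (F g (Φ i j g)).1.2 ∈ Cq →
    Rdg D AF (Λ i j) aP lP aQ lQ g (F g (Φ i j g)).1
  /-- the functional levels are not dyadic -/
  ne : ∀ᵐ g ∂P, ∀ (s : Fin 4) (n : ℕ) (k : ℤ), D.l s + AF g s ≠ lft t0 n k
  /-- existence of a class with free cells -/
  ex : ∀ᵐ g ∂P, ENNReal.ofReal (EF g) ≠ 0 → (F g (ΦF g)).1.1 ∈ Cp → (F g (ΦF g)).1.2 ∈ Cq →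
    ∃ n i j, ENNReal.ofReal (E i j g) ≠ 0 ∧ (F g (Φ i j g)).1.1 ∈ FrC t0 Cp aP lP n i ∧
      (F g (Φ i j g)).1.2 ∈ FrC t0 Cq aQ lQ n j

/-- the weight of the functional class, on `Cp × Cq` -/
noncomputable def wFC (EF : X → ℝ) (ΦF : X → Fin 8 → ℝ) (F : X → (Fin 8 → ℝ) → (Kp × Kq) × (A × (B × ℂ))) (Cp : Set Kp)
    (Cq : Set Kq) : X → ℝ≥0∞ :=
  ((fun g => F g (ΦF g)) ⁻¹' ((Cp ×ˢ Cq) ×ˢ univ)).indicator fun g => ENNReal.ofReal (EF g)

lemma LevF.mΦ (H : LevF U μ cc P D RA RB t0 E Φ Λ u EF ΦF ΛF AF F Cp Cq aP lP aQ lQ) (i j : ℕ) : Measurable (Φ i j) := by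
  obtain ⟨t, t1, -⟩ := (H.fix i j).T
  exact measurable_pi_iff.2 fun k => (t1 k).ms'

lemma LevF.mΦF (H : LevF U μ cc P D RA RB t0 E Φ Λ u EF ΦF ΛF AF F Cp Cq aP lP aQ lQ) : Measurable ΦF := by
  obtain ⟨t, t1, -⟩ := H.fn.T
  exact measurable_pi_iff.2 fun k => (t1 k).ms'

lemma LevF.mM (H : LevF U μ cc P D RA RB t0 E Φ Λ u EF ΦF ΛF AF F Cp Cq aP lP aQ lQ) (i j : ℕ) :
    Measurable fun g => F g (Φ i j g) := H.mF.comp (measurable_id.prodMk (H.mΦ i j))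

lemma LevF.mR (H : LevF U μ cc P D RA RB t0 E Φ Λ u EF ΦF ΛF AF F Cp Cq aP lP aQ lQ) : Measurable fun g => F g (ΦF g) :=
  H.mF.comp (measurable_id.prodMk H.mΦF)

lemma LevF.mw (H : LevF U μ cc P D RA RB t0 E Φ Λ u EF ΦF ΛF AF F Cp Cq aP lP aQ lQ) : Measurable (wFC EF ΦF F Cp Cq) :=
  H.fn.e.ms'.ennreal_ofReal.indicator (H.mR ((H.mCp.prod H.mCq).prod MeasurableSet.univ))

/-- the glued weights -/
lemma LevF.glue (H : LevF U μ cc P D RA RB t0 E Φ Λ u EF ΦF ΛF AF F Cp Cq aP lP aQ lQ) :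
    ∃ wR : ℕ → ℕ → X → ℝ≥0∞, (∀ n n', Measurable (wR n n')) ∧
      (∀ n n', MarkOf P (fun i j g => ENNReal.ofReal (E i j g)) (fun i j g => F g (Φ i j g)) (FrC t0 Cp aP lP n)
        (FrC t0 Cq aQ lQ n') (wR n n') fun g => F g (ΦF g)) ∧
      (∀ n n', ∀ᵐ g ∂P, wR n n' g ≤ wR (n + 1) n' g) ∧ (∀ n n', ∀ᵐ g ∂P, wR n n' g ≤ wR n (n' + 1) g) ∧
      ∀ᵐ g ∂P, wFC EF ΦF F Cp Cq g = ⨆ n, wR n n g := by
  refine cells_glue (fun i j => (H.fix i j).e.ms'.ennreal_ofReal) H.mM H.fn.e.ms'.ennreal_ofReal H.mCp H.mCq H.maP H.mlP H.maQ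
    H.mlQ (fun i j => ?_) (fun i j i' j' c1 c2 => ?_) (fun i j => ?_) H.ex
  · exact cell_fun H.cv H.hU H.ok H.hA H.hB (H.fix i j) H.fn H.lu (H.rd i j)
  · exact cell_up H.cv H.hU H.ok H.hA H.hB (H.fix i j) (H.fix i' j') (H.rd i j) c1 c2
  · filter_upwards [H.rd i j, H.ne] with g g1 g2 h0 hp hq
    obtain ⟨-, ⟨r1, r2, r3, r4⟩, -⟩ := g1 h0 hp hq
    constructor
    · intro s n k
      fin_cases s
      · exact fun e => g2 0 n k (r1.symm.trans e)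
      · exact fun e => g2 1 n k (r2.symm.trans e)
    · intro s n k
      fin_cases s
      · exact fun e => g2 2 n k (r3.symm.trans e)
      · exact fun e => g2 3 n k (r4.symm.trans e)

/-- **the field `dR`** -/
theorem lev_den (H : LevF U μ cc P D RA RB t0 E Φ Λ u EF ΦF ΛF AF F Cp Cq aP lP aQ lQ)
    (L : LevIn U bA b1 bB b2 m c yA yB C R C' g h ρN
      (fun i j => (P.withDensity fun g => ENNReal.ofReal (E i j g)).map fun g => F g (Φ i j g)) DA)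
    {Ψ : Kp × Kq → ℝ≥0∞} (hΨ : Measurable Ψ) :
    Den ((P.withDensity (wFC EF ΦF F Cp Cq)).map fun g => F g (ΦF g)) ((b1 : Measure A).prod ((b2 : Measure B).prod volume)) DA
      (zw yA yB) Ψ := by
  obtain ⟨wR, k1, k2, k3, k4, k5⟩ := H.glue
  exact L.denM (fun i j => (H.fix i j).e.ms'.ennreal_ofReal) H.mM k1 H.mw H.mR (fun n i => frC_meas H.mCp H.maP H.mlP n i)
    (fun n j => frC_meas H.mCq H.maQ H.mlQ n j) k2 k3 k4 k5 hΨ

/-- **the field `dP`** -/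
theorem lev_denP (H : LevF U μ cc P D RA RB t0 E Φ Λ u EF ΦF ΛF AF F Cp Cq aP lP aQ lQ)
    (L : LevIn U bA b1 bB b2 m c yA yB C R C' g h ρN
      (fun i j => (P.withDensity fun g => ENNReal.ofReal (E i j g)).map fun g => F g (Φ i j g)) DA)
    {Ψp : Kp → ℝ≥0∞} (hΨp : Measurable Ψp) {Ψq : Kq → ℝ≥0∞} (hΨq : Measurable Ψq) :
    DenP ((P.withDensity (wFC EF ΦF F Cp Cq)).map fun g => F g (ΦF g)) ((b1 : Measure A).prod ((b2 : Measure B).prod volume)) DA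
      (zw yA yB) Ψp Ψq := by
  obtain ⟨wR, k1, k2, k3, k4, k5⟩ := H.glue
  exact L.denPM (fun i j => (H.fix i j).e.ms'.ennreal_ofReal) H.mM k1 H.mw H.mR (fun n i => frC_meas H.mCp H.maP H.mlP n i)
    (fun n j => frC_meas H.mCq H.maQ H.mlQ n j) k2 k3 k4 k5 hΨp hΨq

end den

/-! ### 2. The readings from the connections -/

/-- **the data of the marks `T`** : the connections, the rests -/
noncomputable def datT (g : CC.Gm) (T : Fin 8 → ℝ) : (K4 × K4) × (Pie × (Pie × ℂ)) := (kap8 g T, rst g (m4 T))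

lemma datT_meas : Measurable fun x : CC.Gm × (Fin 8 → ℝ) => datT x.1 x.2 :=
  kap8_meas.prodMk (rst_cont.measurable.comp (measurable_fst.prodMk (m4_cont.measurable.comp measurable_snd)))

/-- **the levels of the gates `c`** over the root, read from the connection; `v` = rotation of the lattice -/
noncomputable def lP4 (v d d' : ℂ) (κ : K4) : Fin 2 → ℝ := ![lv d (v⁻¹ * dsp κ.1.1), lv d' (v⁻¹ * dsp κ.2.1)]

/-- the displacement from the root to the gate of the other lattice, first strand, second strand; `q` = the pieces behind it -/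
noncomputable def ds4 (κ : K4) (q : Pie × Pie) : Fin 2 → ℂ :=
  ![dsp κ.1.1 - dsp κ.1.2 - dsp q.1, dsp κ.2.1 - dsp κ.2.2 - dsp q.2]

/-- **the functional levels**, read from the connection; `f` = the pieces behind the gates of the other lattice -/
noncomputable def aP4 (v d d' : ℂ) (l : ℝ) (f : K4 → Pie × Pie) (κ : K4) : Fin 2 → ℝ :=
  ![l + lv d (v⁻¹ * ds4 κ (f κ) 0), l + lv d' (v⁻¹ * ds4 κ (f κ) 1)]

lemma lv_cont (d : ℂ) : Continuous (lv d) := by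
  unfold lv
  fun_prop

lemma lP4_meas (v d d' : ℂ) : Measurable (lP4 v d d') := by
  refine measurable_pi_iff.2 fun s => ?_
  have h1 : Measurable fun κ : K4 => lv d (v⁻¹ * dsp κ.1.1) :=
    ((lv_cont d).comp (continuous_const.mul (dsp_cont.comp (continuous_fst.comp continuous_fst)))).measurable
  have h2 : Measurable fun κ : K4 => lv d' (v⁻¹ * dsp κ.2.1) :=
    ((lv_cont d').comp (continuous_const.mul (dsp_cont.comp (continuous_fst.comp continuous_snd)))).measurable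
  fin_cases s
  · exact h1
  · exact h2

lemma aP4_meas (v d d' : ℂ) (l : ℝ) {f : K4 → Pie × Pie} (hf : Measurable f) : Measurable (aP4 v d d' l f) := by
  refine measurable_pi_iff.2 fun s => ?_
  have m0 : Measurable fun κ : K4 => dsp κ.1.1 - dsp κ.1.2 - dsp (f κ).1 :=
    ((dsp_cont.comp (continuous_fst.comp continuous_fst)).measurable.sub
      (dsp_cont.comp (continuous_snd.comp continuous_fst)).measurable).sub (dsp_cont.measurable.comp (measurable_fst.comp hf))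
  have m1 : Measurable fun κ : K4 => dsp κ.2.1 - dsp κ.2.2 - dsp (f κ).2 :=
    ((dsp_cont.comp (continuous_fst.comp continuous_snd)).measurable.sub
      (dsp_cont.comp (continuous_snd.comp continuous_snd)).measurable).sub (dsp_cont.measurable.comp (measurable_snd.comp hf))
  have h1 : Measurable fun κ : K4 => l + lv d (v⁻¹ * (dsp κ.1.1 - dsp κ.1.2 - dsp (f κ).1)) :=
    ((lv_cont d).measurable.comp (m0.const_mul _)).const_add l
  have h2 : Measurable fun κ : K4 => l + lv d' (v⁻¹ * (dsp κ.2.1 - dsp κ.2.2 - dsp (f κ).2)) :=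
    ((lv_cont d').measurable.comp (m1.const_mul _)).const_add l
  fin_cases s
  · exact h1
  · exact h2

/-- the levels of the marks of the first system over the roots: A, B at the first root, A, B at the second root -/
noncomputable def lvM (v : ℂ) (D : Dt) (g : CC.Gm) (T : M4) : Fin 4 → ℝ :=
  ![lv D.d (v⁻¹ * (ex g.2.2 T.1 - ex g.2.2 0)), lv D.d' (v⁻¹ * (ex g.2.2 T.2.2.2 - ex g.2.2 1)),
    lv D.t (v⁻¹ * (ex g.2.2 T.2.1 - ex g.2.2 (mu g))), lv D.t' (v⁻¹ * (ex g.2.2 T.2.2.1 - ex g.2.2 (mu g)))]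

/-- the marks `c` -/
def c4 (T : Fin 8 → ℝ) : M4 := (T 0, T 3, T 4, T 7)

/-- **`Rdg`** : `T` = the marks of the class, `Q` = the marks of the gates of the other lattice -/
theorem rdg_of {v : ℂ} {D : Dt} {g : CC.Gm} {T : Fin 8 → ℝ} {Q : M4} {AF Λ : CC.Gm → Fin 4 → ℝ} {fp fq : K4 → Pie × Pie}
    (hp : fp (kap8 g T).1 = qpAt g Q (m4 T)) (hq : fq (kap8 g T).2 = qqAt g Q (m4 T)) (hA : AF g = lvM v D g Q)
    (hΛ : Λ g = lvM v D g (c4 T)) (h0 : ∀ s, 0 < AF g s) :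
    Rdg D AF Λ (aP4 v D.d D.d' D.P.l fp) (lP4 v D.d D.d') (aP4 v D.t D.t' D.Q.l fq) (lP4 v D.t D.t') g (kap8 g T) := by
  refine ⟨h0, ⟨?_, ?_, ?_, ?_⟩, ?_, ?_, ?_, ?_⟩
  · rw [hA]
    show D.P.l + lv D.d (v⁻¹ * (dsp (kap8 g T).1.1.1 - dsp (kap8 g T).1.1.2 - dsp (fp (kap8 g T).1).1)) =
      D.P.l + lv D.d (v⁻¹ * (ex g.2.2 Q.1 - ex g.2.2 0))
    rw [hp]
    show D.P.l + lv D.d (v⁻¹ * (dsp (pcut (cl g) 0 (T 0)) - dsp (pcut (cl g) (T 1) (T 0)) - dsp (pcut (cl g) Q.1 (T 1)))) = _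
    rw [dsp_pcut, dsp_pcut, dsp_pcut]
    congr 3
    show ex g.2.2 (T 0) - ex g.2.2 0 - (ex g.2.2 (T 0) - ex g.2.2 (T 1)) - (ex g.2.2 (T 1) - ex g.2.2 Q.1) =
      ex g.2.2 Q.1 - ex g.2.2 0
    ring
  · rw [hA]
    show D.P.l + lv D.d' (v⁻¹ * (dsp (kap8 g T).1.2.1 - dsp (kap8 g T).1.2.2 - dsp (fp (kap8 g T).1).2)) =
      D.P.l + lv D.d' (v⁻¹ * (ex g.2.2 Q.2.2.2 - ex g.2.2 1))
    rw [hp]
    show D.P.l + lv D.d' (v⁻¹ * (dsp (pcut (cl g) 1 (T 7)) - dsp (pcut (cl g) (T 6) (T 7)) -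
      dsp (pcut (cl g) Q.2.2.2 (T 6)))) = _
    rw [dsp_pcut, dsp_pcut, dsp_pcut]
    congr 3
    show ex g.2.2 (T 7) - ex g.2.2 1 - (ex g.2.2 (T 7) - ex g.2.2 (T 6)) - (ex g.2.2 (T 6) - ex g.2.2 Q.2.2.2) =
      ex g.2.2 Q.2.2.2 - ex g.2.2 1
    ring
  · rw [hA]
    show D.Q.l + lv D.t (v⁻¹ * (dsp (kap8 g T).2.1.1 - dsp (kap8 g T).2.1.2 - dsp (fq (kap8 g T).2).1)) =
      D.Q.l + lv D.t (v⁻¹ * (ex g.2.2 Q.2.1 - ex g.2.2 (mu g)))
    rw [hq]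
    show D.Q.l + lv D.t (v⁻¹ * (dsp (pcut (cl g) (mu g) (T 3)) - dsp (pcut (cl g) (T 2) (T 3)) -
      dsp (pcut (cl g) Q.2.1 (T 2)))) = _
    rw [dsp_pcut, dsp_pcut, dsp_pcut]
    congr 3
    show ex g.2.2 (T 3) - ex g.2.2 (mu g) - (ex g.2.2 (T 3) - ex g.2.2 (T 2)) - (ex g.2.2 (T 2) - ex g.2.2 Q.2.1) =
      ex g.2.2 Q.2.1 - ex g.2.2 (mu g)
    ring
  · rw [hA]
    show D.Q.l + lv D.t' (v⁻¹ * (dsp (kap8 g T).2.2.1 - dsp (kap8 g T).2.2.2 - dsp (fq (kap8 g T).2).2)) =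
      D.Q.l + lv D.t' (v⁻¹ * (ex g.2.2 Q.2.2.1 - ex g.2.2 (mu g)))
    rw [hq]
    show D.Q.l + lv D.t' (v⁻¹ * (dsp (pcut (cl g) (mu g) (T 4)) - dsp (pcut (cl g) (T 5) (T 4)) -
      dsp (pcut (cl g) Q.2.2.1 (T 5)))) = _
    rw [dsp_pcut, dsp_pcut, dsp_pcut]
    congr 3
    show ex g.2.2 (T 4) - ex g.2.2 (mu g) - (ex g.2.2 (T 4) - ex g.2.2 (T 5)) - (ex g.2.2 (T 5) - ex g.2.2 Q.2.2.1) =
      ex g.2.2 Q.2.2.1 - ex g.2.2 (mu g)
    ring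
  · rw [hΛ]
    show lv D.d (v⁻¹ * dsp (pcut (cl g) 0 (T 0))) = lv D.d (v⁻¹ * (ex g.2.2 (T 0) - ex g.2.2 0))
    rw [dsp_pcut]
    rfl
  · rw [hΛ]
    show lv D.d' (v⁻¹ * dsp (pcut (cl g) 1 (T 7))) = lv D.d' (v⁻¹ * (ex g.2.2 (T 7) - ex g.2.2 1))
    rw [dsp_pcut]
    rfl
  · rw [hΛ]
    show lv D.t (v⁻¹ * dsp (pcut (cl g) (mu g) (T 3))) = lv D.t (v⁻¹ * (ex g.2.2 (T 3) - ex g.2.2 (mu g)))
    rw [dsp_pcut]
    rfl
  · rw [hΛ]
    show lv D.t' (v⁻¹ * dsp (pcut (cl g) (mu g) (T 4))) = lv D.t' (v⁻¹ * (ex g.2.2 (T 4) - ex g.2.2 (mu g)))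
    rw [dsp_pcut]
    rfl

end Pool.Agent.ROT.F3.CK
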