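import Pool.Agent.ROT.F3LevD

/-!
# ROT / F3LevQ (helper29): the gates `c` of one word for two data, strand by strand

Two decompositions of one word, data `D`, `D'` with the same directions; all the other parameters are arbitrary up to
`2 r ≤ 2 r' + r2'` (`Dt.Nr D D'`).
* `tip_mono`, `tip_eq` : one strand; **`pre_mono`**, **`pre_eq`** : the same for prefixes of F3Cls;
* `tho D s` : the threshold of the strand `s`; **`glD_mono`** : a smaller threshold of the strand `s` alone ==> the gate `c` of the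
  strand `s` is earlier and its level is smaller; **`glD_eq`** : equal, if the level of the first one is at least the second threshold;
* **`glv_mono`**, **`glv_eq`** : the same for the levels `glv` (F3LevD) and the distances `gps` from the roots read at the marks.
-/

set_option autoImplicit false

open Finset

open scoped Classical

namespace Pool.Agent.ROT.F3.CK

open Pool.Agent.ROT.F3

/-! ### 1. One strand -/

/-- **a smaller threshold: the first cut is earlier** (`R'` = what follows `p'`) -/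
theorem tip_mono {d : ℂ} {r r' r0' l l' D' : ℝ} {p p' R' t t' : W3} (hp : TipC d r p) (hp' : TipC d r' p') (f : FstC d l p)
    (f' : FstC d l' p') (hl : l ≤ l') (hR' : RestC d r0' R') (hr : 2 * r ≤ r0') (hD : 2 * r < D') (fR' : D' ≤ ‖en R'‖)
    (he : p ++ t = p' ++ (R' ++ t')) : p.length ≤ p'.length ∧ lv d (en p) ≤ lv d (en p') := by
  have h0 : p.length ≤ p'.length := by
    by_contra hlt
    push Not at hlt
    have hv : ∀ j, j ≤ p.length → ps p j = ps (p' ++ (R' ++ t')) j := fun j hj => by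
      rw [← he, ps_append_left hj]
    have h6 : ∀ j, j ≤ p'.length → ps p j = ps p' j := fun j hj => by rw [hv j (by omega), ps_append_left hj]
    have h7 : ps p p'.length = en p' := h6 _ le_rfl
    have n7 : ‖en p'‖ ≤ r := by
      rw [← h7]
      exact hp.ball _ hlt.le
    have h1 : p.length ≤ p'.length + R'.length := by
      by_contra hc
      push Not at hc
      have h2 := hp.ball (p'.length + R'.length) hc.le
      rw [hv _ hc.le, ps_append_right hp'.ev, ps_append_left le_rfl] at h2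
      have h3 : ps R' R'.length = en R' := rfl
      rw [h3] at h2
      have h4 : ‖en R'‖ ≤ ‖en p' + en R'‖ + ‖en p'‖ := by
        calc ‖en R'‖ = ‖(en p' + en R') - en p'‖ := by ring_nf
          _ ≤ _ := norm_sub_le _ _
      linarith
    have h5 : ∀ j, p'.length ≤ j → j ≤ p.length → ps p j = en p' + ps R' (j - p'.length) := by
      intro j hj hj'
      rw [hv j hj', ps_append_right' hp'.ev hj, ps_append_left (by omega)]
    have hcut : CutC d p p'.length := by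
      refine ⟨fun j hj => ?_, fun j hj hj' => ?_⟩
      · rw [h6 j hj, h7]
        exact hp'.left j hj
      · rw [h7, h5 j hj.le hj', lv_add]
        have h8 : ‖ps R' (j - p'.length)‖ ≤ r0' := by
          have h9 : ps R' (j - p'.length) = ps p j - en p' := by rw [h5 j hj.le hj']; ring
          rw [h9]
          calc ‖ps p j - en p'‖ ≤ ‖ps p j‖ + ‖en p'‖ := norm_sub_le _ _
            _ ≤ r0' := by linarith [hp.ball j hj']
        linarith [hR' (j - p'.length) (by omega) (by omega) h8]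
    have h8 := f.2 p'.length hp'.ev hlt hcut
    rw [h7] at h8
    linarith [f'.1]
  refine ⟨h0, ?_⟩
  have h1 : en p = ps p' p.length := by
    have h2 : ps (p ++ t) p.length = en p := ps_append_left le_rfl
    rw [he, ps_append_left h0] at h2
    exact h2.symm
  rw [h1]
  exact hp'.left _ h0

/-- **equal first cuts** -/
theorem tip_eq {d : ℂ} {r r' r0 r0' l l' D D' : ℝ} {p p' R R' t t' : W3} (hp : TipC d r p) (hp' : TipC d r' p')
    (f : FstC d l p) (f' : FstC d l' p') (hl : l ≤ l') (hl' : l' ≤ lv d (en p)) (hR : RestC d r0 R) (hR' : RestC d r0' R')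
    (hr : 2 * r ≤ r0') (hr' : 2 * r' ≤ r0) (hD : 2 * r < D') (hD' : 2 * r' < D) (fR : D ≤ ‖en R‖) (fR' : D' ≤ ‖en R'‖)
    (he : p ++ (R ++ t) = p' ++ (R' ++ t')) : p = p' := by
  have h1 := (tip_mono hp hp' f f' hl hR' hr hD fR' he).1
  have h2 := (tip_mono hp' hp f' (fst_up f hl hl') le_rfl hR hr' hD' fR he.symm).1
  exact (List.append_inj he (by omega)).1

/-! ### 2. Prefixes of F3Cls -/

section pre

variable {d : ℂ} {P P' : Tp} {S T T' E E' : ℝ} {p p' R R' t t' : W3} {k k' : ℕ}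

/-- what follows the gate `c` -/
lemma pre_rest (h : PreM d P S T p k) (hR : RestC d (P.rg * S) R) (hE : E * S ≤ ‖en R‖) :
    RestC d (P.rg * S - P.r2 * S) (p.drop k ++ R) ∧ E * S - P.r2 * S ≤ ‖en (p.drop k ++ R)‖ := by
  refine ⟨h.g.b.rest hR, ?_⟩
  rw [en_append h.g.b.t.ev]
  have h3 : en R = (en (p.drop k) + en R) - en (p.drop k) := by ring
  have h4 : ‖en R‖ ≤ ‖en (p.drop k) + en R‖ + ‖en (p.drop k)‖ := by
    conv_lhs => rw [h3]
    exact norm_sub_le _ _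
  have h5 : ‖en (p.drop k)‖ ≤ P.r2 * S := norm_en_le h.g.b.t
  linarith

lemma pre_app (p : W3) (k : ℕ) (R t : W3) : p ++ (R ++ t) = p.take k ++ ((p.drop k ++ R) ++ t) := by
  conv_lhs => rw [← List.take_append_drop k p]
  rw [List.append_assoc, List.append_assoc]

/-- the numbers -/
lemma pre_num (hP' : P'.Ok) (hS : 0 < S) (hr : 2 * P.r ≤ 2 * P'.r + P'.r2) (hE' : 2 * P'.rad < E') :
    2 * (P.r * S) ≤ P'.rg * S - P'.r2 * S ∧ 2 * (P.r * S) < E' * S - P'.r2 * S := by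
  have h1 := mul_le_mul_of_nonneg_right hr hS.le
  have h2 := mul_lt_mul_of_pos_right hP'.rg hS
  have h3 := mul_lt_mul_of_pos_right hE' hS
  unfold Tp.rad at h3
  constructor <;> linarith

lemma pre_take (h : PreM d P S T p k) : (p.take k).length = k ∧ en (p.take k) = ps p k := by
  have hk := h.g.le
  exact ⟨by rw [List.length_take, min_eq_left hk], by rw [en, List.length_take, min_eq_left hk, ps_take _ le_rfl hk]⟩

/-- **a smaller threshold: the gate `c` is earlier, its level is smaller** -/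
theorem pre_mono (hP' : P'.Ok) (hS : 0 < S) (h : PreM d P S T p k) (h' : PreM d P' S T' p' k')
    (hR' : RestC d (P'.rg * S) R') (fR' : E' * S ≤ ‖en R'‖) (hl : P.l ≤ P'.l) (hr : 2 * P.r ≤ 2 * P'.r + P'.r2)
    (hE' : 2 * P'.rad < E') (he : p ++ t = p' ++ (R' ++ t')) : k ≤ k' ∧ lv d (ps p k) ≤ lv d (ps p' k') := by
  obtain ⟨r1, r2⟩ := pre_rest h' hR' fR'
  obtain ⟨n1, n2⟩ := pre_num hP' hS hr hE'
  obtain ⟨e1, e2⟩ := pre_take h
  obtain ⟨e1', e2'⟩ := pre_take h'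
  have e : p.take k ++ (p.drop k ++ t) = p'.take k' ++ ((p'.drop k' ++ R') ++ t') := by
    rw [← pre_app, ← List.append_assoc, List.take_append_drop, he]
  have h1 := tip_mono h.g.a h'.g.a h.g.fa h'.g.fa (mul_le_mul_of_nonneg_right hl hS.le) r1 n1 n2 r2 e
  rwa [e1, e1', e2, e2'] at h1

/-- **equal gates `c`** -/
theorem pre_eq (hP : P.Ok) (hP' : P'.Ok) (hS : 0 < S) (h : PreM d P S T p k) (h' : PreM d P' S T' p' k')
    (hR : RestC d (P.rg * S) R) (hR' : RestC d (P'.rg * S) R') (fR : E * S ≤ ‖en R‖) (fR' : E' * S ≤ ‖en R'‖)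
    (hl : P.l ≤ P'.l) (hl' : P'.l * S ≤ lv d (ps p k)) (hr : 2 * P.r ≤ 2 * P'.r + P'.r2) (hr' : 2 * P'.r ≤ 2 * P.r + P.r2)
    (hE : 2 * P.rad < E) (hE' : 2 * P'.rad < E') (he : p ++ (R ++ t) = p' ++ (R' ++ t')) :
    k = k' ∧ ps p k = ps p' k' := by
  obtain ⟨r1, r2⟩ := pre_rest h hR fR
  obtain ⟨r1', r2'⟩ := pre_rest h' hR' fR'
  obtain ⟨n1, n2⟩ := pre_num hP' hS hr hE'
  obtain ⟨n1', n2'⟩ := pre_num hP hS hr' hE
  obtain ⟨e1, e2⟩ := pre_take h
  obtain ⟨e1', e2'⟩ := pre_take h'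
  rw [pre_app p k, pre_app p' k'] at he
  have h1 := tip_eq h.g.a h'.g.a h.g.fa h'.g.fa (mul_le_mul_of_nonneg_right hl hS.le) (by rw [e2]; exact hl') r1 r1' n1 n1' n2 n2'
    r2 r2' he
  refine ⟨?_, ?_⟩
  · rw [← e1, ← e1', h1]
  · rw [← e2, ← e2', h1]

end pre

/-! ### 3. Decompositions -/

/-- the same directions, comparable radii -/
structure Dt.Nr (D D' : Dt) : Prop where
  d : D.d = D'.d
  d' : D.d' = D'.d'
  t : D.t = D'.t
  t' : D.t' = D'.t'
  P : 2 * D.P.r ≤ 2 * D'.P.r + D'.P.r2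
  Q : 2 * D.Q.r ≤ 2 * D'.Q.r + D'.Q.r2

/-- the thresholds of the four strands -/
def tho (D : Dt) : Fin 4 → ℝ := ![D.P.l + D.y, D.P.l + D.y', D.Q.l + D.z, D.Q.l + D.z']

lemma tho_th (D : Dt) (y : Fin 4 → ℝ) (s : Fin 4) : tho (D.th y) s = D.l s + y s := by
  fin_cases s <;> rfl

lemma Dt.Nr.th {D D' : Dt} (h : D.Nr D') (y y' : Fin 4 → ℝ) : (D.th y).Nr (D'.th y') := ⟨h.d, h.d', h.t, h.t', h.P, h.Q⟩

lemma Dt.Nr.rfl' {D : Dt} (hD : D.Ok) : D.Nr D := by
  have h1 := hD.P.r2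
  have h2 := hD.Q.r2
  exact ⟨rfl, rfl, rfl, rfl, by linarith, by linarith⟩

section dec

variable {D D' : Dt} {S T T' : ℝ} {x : W3 × ℕ} {a a' : W3 × W3} {R R' : W3} {c c' : W3 × W3} {U U' : W3}
  {k1 k2 j1 j2 k1' k2' j1' j2' : ℕ}

/-- the four strands of a word with two decompositions -/
lemma dec_four (h : Dec D S T x a R c U k1 k2 j1 j2) (h' : Dec D' S T' x a' R' c' U' k1' k2' j1' j2') :
    (a.1 ++ (R ++ c.1.reverse) = a'.1 ++ (R' ++ c'.1.reverse) ∧ c.1 ++ (R.reverse ++ a.1.reverse) = c'.1 ++ (R'.reverse ++ a'.1.reverse)) ∧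
    a.2 ++ (U ++ c.2.reverse) = a'.2 ++ (U' ++ c'.2.reverse) ∧
    c.2 ++ (U.reverse ++ a.2.reverse) = c'.2 ++ (U'.reverse ++ a'.2.reverse) := by
  have e : ∀ (a : W3 × W3) (R : W3) (b : W3 × W3) (S : W3),
      G6 a R b S = (a.1 ++ (R ++ b.1.reverse)) ++ (b.2 ++ (S.reverse ++ a.2.reverse)) := fun a R b S => by
    simp [G6, List.append_assoc]
  have h0 := h.w.trans h'.w.symm
  rw [e, e] at h0
  obtain ⟨h1, h2⟩ := List.append_inj h0 (by rw [len3, len3, h.m, h'.m])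
  refine ⟨⟨h1, ?_⟩, ?_, h2⟩
  · have := congrArg List.reverse h1
    simpa [List.reverse_append] using this
  · have := congrArg List.reverse h2
    simpa [List.reverse_append] using this

/-- the rests of the four strands -/
lemma dec_rests (hD : D.Ok) (h : Dec D S T x a R c U k1 k2 j1 j2) :
    (RestC D.d (D.P.rg * S) R ∧ D.V.D0 * S ≤ ‖en R‖ ∧ 2 * D.P.rad < D.V.D0) ∧
    (RestC D.d' (D.P.rg * S) U ∧ D.V'.D0 * S ≤ ‖en U‖ ∧ 2 * D.P.rad < D.V'.D0) ∧
    (RestC D.t (D.Q.rg * S) R.reverse ∧ D.V.D0 * S ≤ ‖en R.reverse‖ ∧ 2 * D.Q.rad < D.V.D0) ∧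
    (RestC D.t' (D.Q.rg * S) U.reverse ∧ D.V'.D0 * S ≤ ‖en U.reverse‖ ∧ 2 * D.Q.rad < D.V'.D0) := by
  have r1 : 0 < D.P.rad := by
    have := hD.P.r
    have := hD.P.r2
    unfold Tp.rad
    linarith
  have r2 : 0 < D.Q.rad := by
    have := hD.Q.r
    have := hD.Q.r2
    unfold Tp.rad
    linarith
  have hV := hD.V
  have hV' := hD.V'
  have e1 : ‖en R.reverse‖ = ‖en R‖ := by rw [en_reverse h.gR.ev, norm_neg]
  have e2 : ‖en U.reverse‖ = ‖en U‖ := by rw [en_reverse h.gU.ev, norm_neg]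
  refine ⟨⟨h.gR.s.right, h.gR.far, by linarith⟩, ⟨h.gU.s.right, h.gU.far, by linarith⟩,
    ⟨h.gR.e.right, by rw [e1]; exact h.gR.far, by linarith⟩, ⟨h.gU.e.right, by rw [e2]; exact h.gU.far, by linarith⟩⟩

/-- **a smaller threshold of one strand: the gate `c` of this strand is earlier, its level is smaller** -/
theorem glD_mono (hD' : D'.Ok) (hS : 0 < S) (hN : D.Nr D') (h : Dec D S T x a R c U k1 k2 j1 j2)
    (h' : Dec D' S T' x a' R' c' U' k1' k2' j1' j2') {s : Fin 4} (ht : tho D s ≤ tho D' s) :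
    (![k1, k2, j1, j2] : Fin 4 → ℕ) s ≤ (![k1', k2', j1', j2'] : Fin 4 → ℕ) s ∧
      glD D a c k1 k2 j1 j2 s ≤ glD D' a' c' k1' k2' j1' j2' s := by
  obtain ⟨⟨f1, f3⟩, f2, f4⟩ := dec_four h h'
  obtain ⟨⟨a1, a2, a3⟩, ⟨b1, b2, b3⟩, ⟨c1, c2, c3⟩, ⟨d1, d2, d3⟩⟩ := dec_rests hD' h'
  have q1 : PreM D'.d (D.P.up D.y) S T a.1 k1 := by
    have := h.ga.p1
    rwa [hN.d] at this
  have q2 : PreM D'.d' (D.P.up D.y') S T a.2 k2 := by
    have := h.ga.p2
    rwa [hN.d'] at this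
  have q3 : PreM D'.t (D.Q.up D.z) S T c.1 j1 := by
    have := h.gc.p1
    rwa [hN.t] at this
  have q4 : PreM D'.t' (D.Q.up D.z') S T c.2 j2 := by
    have := h.gc.p2
    rwa [hN.t'] at this
  fin_cases s
  · have := pre_mono (hD'.P.up hD'.y) hS q1 h'.ga.p1 a1 a2 ht hN.P a3 f1
    refine ⟨this.1, ?_⟩
    show lv D.d _ ≤ lv D'.d _
    rw [hN.d]
    exact this.2
  · have := pre_mono (hD'.P.up hD'.y') hS q2 h'.ga.p2 b1 b2 ht hN.P b3 f2
    refine ⟨this.1, ?_⟩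
    show lv D.d' _ ≤ lv D'.d' _
    rw [hN.d']
    exact this.2
  · have := pre_mono (hD'.Q.up hD'.z) hS q3 h'.gc.p1 c1 c2 ht hN.Q c3 f3
    refine ⟨this.1, ?_⟩
    show lv D.t _ ≤ lv D'.t _
    rw [hN.t]
    exact this.2
  · have := pre_mono (hD'.Q.up hD'.z') hS q4 h'.gc.p2 d1 d2 ht hN.Q d3 f4
    refine ⟨this.1, ?_⟩
    show lv D.t' _ ≤ lv D'.t' _
    rw [hN.t']
    exact this.2

/-- **equal gates `c` of one strand** -/
theorem glD_eq (hD : D.Ok) (hD' : D'.Ok) (hS : 0 < S) (hN : D.Nr D') (hN' : D'.Nr D)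
    (h : Dec D S T x a R c U k1 k2 j1 j2) (h' : Dec D' S T' x a' R' c' U' k1' k2' j1' j2') {s : Fin 4}
    (ht : tho D s ≤ tho D' s) (hl : tho D' s * S ≤ glD D a c k1 k2 j1 j2 s) :
    (![k1, k2, j1, j2] : Fin 4 → ℕ) s = (![k1', k2', j1', j2'] : Fin 4 → ℕ) s ∧
      glD D a c k1 k2 j1 j2 s = glD D' a' c' k1' k2' j1' j2' s := by
  obtain ⟨⟨f1, f3⟩, f2, f4⟩ := dec_four h h'
  obtain ⟨⟨a1, a2, a3⟩, ⟨b1, b2, b3⟩, ⟨c1, c2, c3⟩, ⟨d1, d2, d3⟩⟩ := dec_rests hD' h'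
  obtain ⟨⟨p1, p2, p3⟩, ⟨q1, q2, q3⟩, ⟨r1, r2, r3⟩, ⟨s1, s2, s3⟩⟩ := dec_rests hD h
  have m1 := h.ga.p1
  have m2 := h.ga.p2
  have m3 := h.gc.p1
  have m4 := h.gc.p2
  rw [hN.d] at m1 p1
  rw [hN.d'] at m2 q1
  rw [hN.t] at m3 r1
  rw [hN.t'] at m4 s1
  fin_cases s
  · have e : glD D a c k1 k2 j1 j2 0 = lv D'.d (ps a.1 k1) := by
      show lv D.d _ = _
      rw [hN.d]
    have := pre_eq (hD.P.up hD.y) (hD'.P.up hD'.y) hS m1 h'.ga.p1 p1 a1 p2 a2 ht (hl.trans e.le) hN.P hN'.P p3 a3 f1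
    refine ⟨this.1, ?_⟩
    show glD D a c k1 k2 j1 j2 0 = lv D'.d (ps a'.1 k1')
    rw [e, this.2]
  · have e : glD D a c k1 k2 j1 j2 1 = lv D'.d' (ps a.2 k2) := by
      show lv D.d' _ = _
      rw [hN.d']
    have := pre_eq (hD.P.up hD.y') (hD'.P.up hD'.y') hS m2 h'.ga.p2 q1 b1 q2 b2 ht (hl.trans e.le) hN.P hN'.P q3 b3 f2
    refine ⟨this.1, ?_⟩
    show glD D a c k1 k2 j1 j2 1 = lv D'.d' (ps a'.2 k2')
    rw [e, this.2]
  · have e : glD D a c k1 k2 j1 j2 2 = lv D'.t (ps c.1 j1) := by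
      show lv D.t _ = _
      rw [hN.t]
    have := pre_eq (hD.Q.up hD.z) (hD'.Q.up hD'.z) hS m3 h'.gc.p1 r1 c1 r2 c2 ht (hl.trans e.le) hN.Q hN'.Q r3 c3 f3
    refine ⟨this.1, ?_⟩
    show glD D a c k1 k2 j1 j2 2 = lv D'.t (ps c'.1 j1')
    rw [e, this.2]
  · have e : glD D a c k1 k2 j1 j2 3 = lv D'.t' (ps c.2 j2) := by
      show lv D.t' _ = _
      rw [hN.t']
    have := pre_eq (hD.Q.up hD.z') (hD'.Q.up hD'.z') hS m4 h'.gc.p2 s1 d1 s2 d2 ht (hl.trans e.le) hN.Q hN'.Q s3 d3 f4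
    refine ⟨this.1, ?_⟩
    show glD D a c k1 k2 j1 j2 3 = lv D'.t' (ps c'.2 j2')
    rw [e, this.2]

end dec

/-! ### 4. Words -/

section words

variable {D D' : Dt} {S T T' : ℝ} {x : W3 × ℕ}

/-- the numbers of letters between the root and the gate `c`, four strands -/
noncomputable def gps (D : Dt) (S T : ℝ) (x : W3 × ℕ) : Fin 4 → ℕ :=
  ![mkc D S T x 0, x.1.length - mkc D S T x 7, x.2 - mkc D S T x 3, mkc D S T x 4 - x.2]

theorem gps_dec (hD : D.Ok) (hS : 0 < S) {a : W3 × W3} {R : W3} {c : W3 × W3} {U : W3} {k1 k2 j1 j2 : ℕ}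
    (h : Dec D S T x a R c U k1 k2 j1 j2) : gps D S T x = ![k1, k2, j1, j2] := by
  obtain ⟨⟨a1, a2, a3⟩, ⟨b1, b2, b3⟩, ⟨c1, c2, c3⟩, ⟨d1, d2, d3⟩, e1, e2⟩ := h.even
  have hl := h.len
  have hm := h.m
  have g0 : mkc D S T x 0 = k1 := mkc_dec hD hS h 0
  have g7 : mkc D S T x 7 = x.1.length - k2 := by
    rw [mkc_dec hD hS h 7]
    show a.1.length + R.length + c.1.length + c.2.length + U.length + a.2.length - k2 = _
    omega
  have g3 : mkc D S T x 3 = x.2 - j1 := by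
    rw [mkc_dec hD hS h 3]
    show a.1.length + R.length + c.1.length - j1 = _
    omega
  have g4 : mkc D S T x 4 = x.2 + j2 := by
    rw [mkc_dec hD hS h 4]
    show a.1.length + R.length + c.1.length + j2 = _
    omega
  unfold gps
  rw [g0, g7, g3, g4]
  have q1 : x.1.length - (x.1.length - k2) = k2 := by omega
  have q2 : x.2 - (x.2 - j1) = j1 := by omega
  have q3 : x.2 + j2 - x.2 = j2 := by omega
  rw [q1, q2, q3]

/-- **monotonicity in the threshold of one strand** -/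
theorem glv_mono (hD : D.Ok) (hD' : D'.Ok) (hS : 0 < S) (hN : D.Nr D')
    (hx : x ∈ InC (D.C S T) (D.C' S T) (D.A S T) (D.B S T)) (hx' : x ∈ InC (D'.C S T') (D'.C' S T') (D'.A S T') (D'.B S T'))
    {s : Fin 4} (ht : tho D s ≤ tho D' s) :
    gps D S T x s ≤ gps D' S T' x s ∧ glv D S T x s ≤ glv D' S T' x s := by
  obtain ⟨a, R, c, U, k1, k2, j1, j2, h⟩ := dec_of hx
  obtain ⟨a', R', c', U', k1', k2', j1', j2', h'⟩ := dec_of hx'
  rw [gps_dec hD hS h, gps_dec hD' hS h', glv_dec hD hS h, glv_dec hD' hS h']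
  exact glD_mono hD' hS hN h h' ht

/-- **equality** -/
theorem glv_eq (hD : D.Ok) (hD' : D'.Ok) (hS : 0 < S) (hN : D.Nr D') (hN' : D'.Nr D)
    (hx : x ∈ InC (D.C S T) (D.C' S T) (D.A S T) (D.B S T)) (hx' : x ∈ InC (D'.C S T') (D'.C' S T') (D'.A S T') (D'.B S T'))
    {s : Fin 4} (ht : tho D s ≤ tho D' s) (hl : tho D' s * S ≤ glv D S T x s) :
    gps D S T x s = gps D' S T' x s ∧ glv D S T x s = glv D' S T' x s := by
  obtain ⟨a, R, c, U, k1, k2, j1, j2, h⟩ := dec_of hx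
  obtain ⟨a', R', c', U', k1', k2', j1', j2', h'⟩ := dec_of hx'
  rw [glv_dec hD hS h] at hl
  rw [gps_dec hD hS h, gps_dec hD' hS h', glv_dec hD hS h, glv_dec hD' hS h']
  exact glD_eq hD hD' hS hN hN' h h' ht hl

/-- the same threshold -/
theorem glv_same (hD : D.Ok) (hD' : D'.Ok) (hS : 0 < S) (hN : D.Nr D') (hN' : D'.Nr D)
    (hx : x ∈ InC (D.C S T) (D.C' S T) (D.A S T) (D.B S T)) (hx' : x ∈ InC (D'.C S T') (D'.C' S T') (D'.A S T') (D'.B S T'))
    {s : Fin 4} (ht : tho D s = tho D' s) : gps D S T x s = gps D' S T' x s ∧ glv D S T x s = glv D' S T' x s := by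
  have h1 := glv_mono hD hD' hS hN hx hx' ht.le
  have h2 := glv_mono hD' hD hS hN' hx' hx ht.ge
  exact ⟨le_antisymm h1.1 h2.1, le_antisymm h1.2 h2.2⟩

/-- the classes `Lv` of F3LevD -/
theorem lvQ_mono {RA RB RA' RB' : Set W3} {y u : Fin 4 → ℝ} (hD : D.Ok) (hD' : D'.Ok) (hS : 0 < S) (hN : D.Nr D')
    (hA : RA ⊆ D.A S T) (hB : RB ⊆ D.B S T) (hA' : RA' ⊆ D'.A S T) (hB' : RB' ⊆ D'.B S T) (hy : ∀ s, 0 ≤ y s)
    (hu : ∀ s, 0 ≤ u s) (hx : x ∈ Lv D RA RB S T y) (hx' : x ∈ Lv D' RA' RB' S T u) {s : Fin 4}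
    (ht : D.l s + y s ≤ D'.l s + u s) :
    gps (D.th y) S T x s ≤ gps (D'.th u) S T x s ∧ glv (D.th y) S T x s ≤ glv (D'.th u) S T x s := by
  refine glv_mono (hD.th hy) (hD'.th hu) hS (hN.th y u) (InC.mono le_rfl le_rfl hA hB hx) (InC.mono le_rfl le_rfl hA' hB' hx') ?_
  rwa [tho_th, tho_th]

theorem lvQ_eq {RA RB RA' RB' : Set W3} {y u : Fin 4 → ℝ} (hD : D.Ok) (hD' : D'.Ok) (hS : 0 < S) (hN : D.Nr D')
    (hN' : D'.Nr D) (hA : RA ⊆ D.A S T) (hB : RB ⊆ D.B S T) (hA' : RA' ⊆ D'.A S T) (hB' : RB' ⊆ D'.B S T) (hy : ∀ s, 0 ≤ y s)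
    (hu : ∀ s, 0 ≤ u s) (hx : x ∈ Lv D RA RB S T y) (hx' : x ∈ Lv D' RA' RB' S T u) {s : Fin 4}
    (ht : D.l s + y s ≤ D'.l s + u s) (hl : (D'.l s + u s) * S ≤ glv (D.th y) S T x s) :
    gps (D.th y) S T x s = gps (D'.th u) S T x s ∧ glv (D.th y) S T x s = glv (D'.th u) S T x s := by
  refine glv_eq (hD.th hy) (hD'.th hu) hS (hN.th y u) (hN'.th u y) (InC.mono le_rfl le_rfl hA hB hx)
    (InC.mono le_rfl le_rfl hA' hB' hx') ?_ ?_
  · rwa [tho_th, tho_th]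
  · rwa [tho_th]

end words

end Pool.Agent.ROT.F3.CK
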