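import Pool.Agent.ROT.F3LevN
import Pool.Agent.ROT.F3JmB

/-!
# ROT / F3LevS (helper62): the readings of the functional levels in the literals of the joint marks

* `armS` : the arm of the strand `s`; **`lvM_jTF`** : the levels of the native gates `x` over the roots in the directions of the rotated
  lattice;
* **`rp_con`**, **`rq_con`** : the fields `rp`, `rq` of `LevH` from `h3`, `h4` (F3JmB) and the values of the functional thresholds;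
* **`levH_of`** : `LevH` for the gates `H` (functional levels), `Hl m n` (fixed levels) of the rotated lattice, `G0` of the lattice 0.
-/

set_option autoImplicit false
set_option linter.unusedSectionVars false

open MeasureTheory Filter Topology Set unitInterval ComplexConjugate

open scoped NNReal ENNReal Classical

namespace Pool.Agent.ROT.F3.CK

open Pool.Agent.ROT.F3 Pool.Agent.ROT.F3.CC Pool.Agent.ROT.F3.LF Pool.Agent.ROT.F3.Nul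

/-- **the arm of the strand `s`** : A, B at the first root, A, B at the second root -/
def armS : Fin 4 → Arm := ![.fp, .bp, .bq, .fq]

lemma lv_mul_inv {z : ℂ} (hz : ‖z‖ = 1) (d w : ℂ) : lv (z * d) w = lv d (z⁻¹ * w) := by
  unfold lv
  rw [Complex.inv_eq_conj hz, map_mul]
  congr 1
  ring

/-- **the levels of the native gates** in the directions of the rotated lattice -/
theorem lvM_jTF {P : Prm} (hz : ‖P.u‖ = 1) {i j : Fin 3} {G0 : Ga} {g : CC.Gm} (hm : muG g = mu g) (s : Fin 4) :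
    lvM P.u (jDR P i j) g (jTF G0 g) s =
      lv (P.u * dirA i j (armS s)) (g.2.2 (G0.ix (armS s) g) - g.2.2 (rtA (armS s) g)) := by
  rw [lv_mul_inv hz]
  have e0 : ex g.2.2 0 = g.2.2 0 := congrArg g.2.2 (projIcc_left zero_le_one)
  have e1 : ex g.2.2 1 = g.2.2 1 := congrArg g.2.2 (projIcc_right zero_le_one)
  fin_cases s
  · show lv (ev i) (P.u⁻¹ * (ex g.2.2 (G0.tx .fp g) - ex g.2.2 0)) = lv (ev i) (P.u⁻¹ * (ex g.2.2 (G0.tx .fp g) - g.2.2 0))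
    rw [e0]
  · show lv (ev j) (P.u⁻¹ * (ex g.2.2 (G0.tx .bp g) - ex g.2.2 1)) = lv (ev j) (P.u⁻¹ * (ex g.2.2 (G0.tx .bp g) - g.2.2 1))
    rw [e1]
  · show lv (ev (-i)) (P.u⁻¹ * (ex g.2.2 (G0.tx .bq g) - ex g.2.2 (mu g))) =
      lv (ev (-i)) (P.u⁻¹ * (ex g.2.2 (G0.tx .bq g) - ex g.2.2 (muG g)))
    rw [hm]
  · show lv (ev (-j)) (P.u⁻¹ * (ex g.2.2 (G0.tx .fq g) - ex g.2.2 (mu g))) =
      lv (ev (-j)) (P.u⁻¹ * (ex g.2.2 (G0.tx .fq g) - ex g.2.2 (muG g)))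
    rw [hm]

section con

variable {P : Prm} {i j : Fin 3} {PG : Measure CC.Gm} {G0 H : Ga} {w : CC.Gm → ℝ≥0∞} {S : CC.Gm → Fin 8 → ℝ} {Cp Cq : Set K4}
  {fp fq : K4 → Pie × Pie} {AF : CC.Gm → Fin 4 → ℝ}

/-- **the readings at the first root** -/
theorem rp_con (hz : ‖P.u‖ = 1) (hP : ∀ᵐ g ∂PG, 0 < g.2.1 ∧ g.2.1 < g.1)
    (h3 : ∀ᵐ g ∂PG, w g ≠ 0 → ((kap8 g (S g)).1 ∈ Cp ↔ g ∈ jEp P i j G0 H) ∧
      (g ∈ jEp P i j G0 H → fp (kap8 g (S g)).1 = qpAt g (jTF G0 g) (m4 (S g))))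
    (hA : ∀ᵐ g ∂PG, ∀ s, g ∈ G0.B (armS s) →
      AF g s = lv (P.u * dirA i j (armS s)) (g.2.2 (G0.ix (armS s) g) - g.2.2 (rtA (armS s) g)) ∧ 0 < AF g s) :
    ∀ᵐ g ∂PG, w g ≠ 0 → (kap8 g (S g)).1 ∈ Cp → fp (kap8 g (S g)).1 = qpAt g (jTF G0 g) (m4 (S g)) ∧
      (AF g 0 = lvM P.u (jDR P i j) g (jTF G0 g) 0 ∧ AF g 1 = lvM P.u (jDR P i j) g (jTF G0 g) 1) ∧ 0 < AF g 0 ∧ 0 < AF g 1 := by
  filter_upwards [hP, h3, hA] with g hg g3 gA h0 hc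
  have hm : muG g = mu g := muG_eq hg.1 hg.2
  have hE := (g3 h0).1.1 hc
  obtain ⟨a1, a2⟩ := gA 0 hE.1.e
  obtain ⟨b1, b2⟩ := gA 1 hE.2.1.e
  exact ⟨(g3 h0).2 hE, ⟨by rw [lvM_jTF hz hm]; exact a1, by rw [lvM_jTF hz hm]; exact b1⟩, a2, b2⟩

/-- **the readings at the second root** -/
theorem rq_con (hz : ‖P.u‖ = 1) (hP : ∀ᵐ g ∂PG, 0 < g.2.1 ∧ g.2.1 < g.1)
    (h4 : ∀ᵐ g ∂PG, w g ≠ 0 → ((kap8 g (S g)).2 ∈ Cq ↔ g ∈ jEq P i j G0 H) ∧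
      (g ∈ jEq P i j G0 H → fq (kap8 g (S g)).2 = qqAt g (jTF G0 g) (m4 (S g))))
    (hA : ∀ᵐ g ∂PG, ∀ s, g ∈ G0.B (armS s) →
      AF g s = lv (P.u * dirA i j (armS s)) (g.2.2 (G0.ix (armS s) g) - g.2.2 (rtA (armS s) g)) ∧ 0 < AF g s) :
    ∀ᵐ g ∂PG, w g ≠ 0 → (kap8 g (S g)).2 ∈ Cq → fq (kap8 g (S g)).2 = qqAt g (jTF G0 g) (m4 (S g)) ∧
      (AF g 2 = lvM P.u (jDR P i j) g (jTF G0 g) 2 ∧ AF g 3 = lvM P.u (jDR P i j) g (jTF G0 g) 3) ∧ 0 < AF g 2 ∧ 0 < AF g 3 := by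
  filter_upwards [hP, h4, hA] with g hg g3 gA h0 hc
  have hm : muG g = mu g := muG_eq hg.1 hg.2
  have hE := (g3 h0).1.1 hc
  obtain ⟨a1, a2⟩ := gA 2 hE.1.e
  obtain ⟨b1, b2⟩ := gA 3 hE.2.1.e
  exact ⟨(g3 h0).2 hE, ⟨by rw [lvM_jTF hz hm]; exact a1, by rw [lvM_jTF hz hm]; exact b1⟩, a2, b2⟩

end con

section fin

variable {V : Ultrafilter ℕ} {b : ℝ} {PG : Measure CC.Gm} {P : Prm} {i j : Fin 3} {RA RB : ℕ → Set W3} {t0 : ℝ}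
  {y : ℕ → W3 × ℕ → Fin 4 → ℝ} {G0 H : Ga} {Hl : ℕ → ℕ → Ga} {ΦF : CC.Gm → Fin 8 → ℝ} {ΛF : CC.Gm → Fin 4 → ℝ}
  {Φ : ℕ → ℕ → CC.Gm → Fin 8 → ℝ} {AF : CC.Gm → Fin 4 → ℝ} {Cp Cq : Set K4} {fp fq : K4 → Pie × Pie}

lemma jKR_k3S {H : Ga} {g : CC.Gm} (h : g ∈ jKR P i j H) : g ∈ k3S (jDR P i j) (⋂ k, H.B k) (phi8 H.B H.c H.x) := by
  unfold jKR at h
  by_cases hi : i = 0
  · rw [if_pos hi] at h
    exact h.1
  · rw [if_neg hi] at h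
    exact h

/-- **`LevH` in the literals of the joint marks** : `H` = gates at the functional levels, `Hl m n` = gates at the levels of the cells -/
theorem levH_of (cv : Cv (V : Filter ℕ) (fun N => mwE N b) cN PG) (hV : (V : Filter ℕ) ≤ atTop)
    (hP : ∀ᵐ g ∂PG, 0 < g.2.1 ∧ g.2.1 < g.1) (hz : ‖P.u‖ = 1) (hPz : PG.map (rotX P.u) = PG) (ok : (jDR P i j).Ok)
    (hA : ∀ᶠ N in (V : Filter ℕ), RA N ⊆ (jDR P i j).A N (uT N)) (hB : ∀ᶠ N in (V : Filter ℕ), RB N ⊆ (jDR P i j).B N (uT N))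
    (fn : LvO (V : Filter ℕ) (fun N => mwE N b) cN PG (jDR P i j) RA RB y (fun g => bi (g ∈ jKR P i j H)) ΦF ΛF)
    (lu : ∀ s, Lm (V : Filter ℕ) (fun N => mwE N b) cN PG (fun N x => y N x s) fun g => AF (rotX P.u g) s)
    (fix : ∀ m n, LvO (V : Filter ℕ) (fun N => mwE N b) cN PG (jDR P i j) RA RB (fun _ _ => yv (jDR P i j) t0 m n)
      (fun g => bi (g ∈ jKR P i j (Hl m n))) (Φ m n)
      (lamF (jDR P i j) (phi8 (Hl m n).B (Hl m n).c (Hl m n).x)))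
    (mk : ∀ m n g, g ∈ jKR P i j (Hl m n) → Φ m n g = phi8 (Hl m n).B (Hl m n).c (Hl m n).x g)
    (mCp : MeasurableSet Cp) (mCq : MeasurableSet Cq) (mfp : Measurable fp) (mfq : Measurable fq)
    (h3 : ∀ m n, ∀ᵐ g ∂PG, jwR P i j (Hl m n) g ≠ 0 → ((kap8 g (tZ P.u (Φ m n) g)).1 ∈ Cp ↔ g ∈ jEp P i j G0 (Hl m n)) ∧
      (g ∈ jEp P i j G0 (Hl m n) → fp (kap8 g (tZ P.u (Φ m n) g)).1 = qpAt g (jTF G0 g) (m4 (tZ P.u (Φ m n) g))))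
    (h4 : ∀ m n, ∀ᵐ g ∂PG, jwR P i j (Hl m n) g ≠ 0 → ((kap8 g (tZ P.u (Φ m n) g)).2 ∈ Cq ↔ g ∈ jEq P i j G0 (Hl m n)) ∧
      (g ∈ jEq P i j G0 (Hl m n) → fq (kap8 g (tZ P.u (Φ m n) g)).2 = qqAt g (jTF G0 g) (m4 (tZ P.u (Φ m n) g))))
    (h3F : ∀ᵐ g ∂PG, jwR P i j H g ≠ 0 → (kap8 g (tZ P.u ΦF g)).1 ∈ Cp → g ∈ jEp P i j G0 H)
    (h4F : ∀ᵐ g ∂PG, jwR P i j H g ≠ 0 → (kap8 g (tZ P.u ΦF g)).2 ∈ Cq → g ∈ jEq P i j G0 H)
    (hAF : ∀ᵐ g ∂PG, ∀ s, g ∈ G0.B (armS s) →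
      AF g s = lv (P.u * dirA i j (armS s)) (g.2.2 (G0.ix (armS s) g) - g.2.2 (rtA (armS s) g)) ∧ 0 < AF g s)
    (ne : ∀ᵐ g ∂PG, ∀ (s : Fin 4) (n : ℕ) (k : ℤ), (jDR P i j).l s + AF g s ≠ lft t0 n k)
    (fr : ∀ᵐ g ∂PG, jwR P i j H g ≠ 0 → g ∈ jEp P i j G0 H → g ∈ jEq P i j G0 H → ∀ᶠ n in atTop, ∀ k : Fin 4 → ℤ,
      (k = fun s => kn t0 n ((jDR P i j).l s + AF g s)) → rotX P.u⁻¹ g ∈ jKR P i j (Hl (ci n k) (cj n k)) ∧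
        ∀ s, lft t0 n (k s + 1) <
          lamF (jDR P i j) (phi8 (Hl (ci n k) (cj n k)).B (Hl (ci n k) (cj n k)).c (Hl (ci n k) (cj n k)).x) (rotX P.u⁻¹ g) s) :
    LevH V b PG P.u (jDR P i j) RA RB t0 y (fun g => bi (g ∈ jKR P i j H)) ΦF ΛF (fun m n g => bi (g ∈ jKR P i j (Hl m n))) Φ
      (fun m n => lamF (jDR P i j) (phi8 (Hl m n).B (Hl m n).c (Hl m n).x)) AF Cp Cq fp fq (jTF G0) where
  cv := cv
  hV := hV
  hP := hP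
  hz := hz
  hPz := hPz
  ok := ok
  hA := hA
  hB := hB
  fn := fn
  lu := lu
  fix := fix
  lam := fun m n => Eventually.of_forall fun g hg => by
    have h1 := bi_ne hg
    rw [lamF_eq ok (jKR_k3S h1), mk m n g h1]
  mCp := mCp
  mCq := mCq
  mfp := mfp
  mfq := mfq
  rp := fun m n => rp_con hz hP (h3 m n) hAF
  rq := fun m n => rq_con hz hP (h4 m n) hAF
  ne := ne
  fr := by
    filter_upwards [h3F, h4F, hAF, fr] with g g3 g4 gA gf h0 hp hq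
    have e1 := g3 h0 hp
    have e2 := g4 h0 hq
    refine ⟨fun s => ?_, ?_⟩
    · fin_cases s
      · exact (gA 0 e1.1.e).2
      · exact (gA 1 e1.2.1.e).2
      · exact (gA 2 e2.1.e).2
      · exact (gA 3 e2.2.1.e).2
    · filter_upwards [gf h0 e1 e2] with n hn k hk
      obtain ⟨h1, h2⟩ := hn k hk
      refine ⟨?_, h2⟩
      show bi (rotX P.u⁻¹ g ∈ jKR P i j (Hl (ci n k) (cj n k))) ≠ 0
      rw [bi_pos h1]
      exact one_ne_zero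

end fin

end Pool.Agent.ROT.F3.CK
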