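import Mathlib

/-!
# F3, row C3, the limit side (helper15): from Lipschitz test functions to densities

* `TF` : the test functions; `TF.up` : the indicator of an open set is the increasing limit of test functions;
* **`prod_eq`** : two measures on `A × (B × C)` which have the same integrals of the products of three test functions with support in
  the open set `D` are equal on `D`;
* `Den P μ D loc Φ` : the image of `Φ P` on the second factor has on `D` a density `t ∘ loc` with respect to `μ`;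
  `den_iSup`, `den_sub`, `den_tsum`, **`den_all`** : `Den` for the indicators of a π-system gives `Den` for all measurable functions;
* **`c3_phi`** : the form for the connection pieces.
-/

set_option autoImplicit false

open MeasureTheory Set Filter Topology TopologicalSpace

open scoped ENNReal NNReal

namespace Pool.Agent.ROT.F3

/-! ### test functions -/

/-- a test function: Lipschitz, values in `[0, 1]` -/
def TF {α : Type*} [PseudoEMetricSpace α] (u : α → ℝ) : Prop := (∃ K : ℝ≥0, LipschitzWith K u) ∧ ∀ x, 0 ≤ u x ∧ u x ≤ 1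

variable {α : Type*} [PseudoEMetricSpace α]

lemma TF.cont {u : α → ℝ} (h : TF u) : Continuous u := h.1.choose_spec.continuous

lemma TF.meas [MeasurableSpace α] [BorelSpace α] {u : α → ℝ} (h : TF u) : Measurable u := h.cont.measurable

lemma TF.one : TF fun _ : α => (1 : ℝ) := ⟨⟨0, LipschitzWith.const 1⟩, fun _ => ⟨zero_le_one, le_rfl⟩⟩

/-- the indicator of an open set is an increasing limit of test functions -/
lemma TF.up (O : Set α) (hO : IsOpen O) : ∃ u : ℕ → α → ℝ, (∀ n, TF (u n)) ∧ (∀ n x, u n x ≠ 0 → x ∈ O) ∧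
    (∀ n x, u n x ≤ u (n + 1) x) ∧ ∀ x, ⨆ n, ENNReal.ofReal (u n x) = O.indicator (fun _ => (1 : ℝ≥0∞)) x := by
  have hd : ∀ n : ℕ, (0 : ℝ) < 1 / ((n : ℝ) + 1) := fun n => by positivity
  refine ⟨fun n x => 1 - (thickenedIndicator (hd n) Oᶜ x : ℝ), fun n => ⟨?_, fun x => ⟨?_, ?_⟩⟩, fun n x hx => ?_, fun n x => ?_,
    fun x => ?_⟩
  · obtain ⟨K, hK⟩ : ∃ K : ℝ≥0, LipschitzWith K (thickenedIndicator (hd n) Oᶜ) :=
      ⟨_, lipschitzWith_thickenedIndicator (hd n) Oᶜ⟩
    refine ⟨K, fun x y => ?_⟩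
    have h1 := hK x y
    have h2 : edist (1 - (thickenedIndicator (hd n) Oᶜ x : ℝ)) (1 - (thickenedIndicator (hd n) Oᶜ y : ℝ)) =
        edist (thickenedIndicator (hd n) Oᶜ x) (thickenedIndicator (hd n) Oᶜ y) := by
      rw [edist_dist, edist_dist, Real.dist_eq, NNReal.dist_eq, ← abs_neg]
      congr 2
      ring
    rw [h2]
    exact h1
  · have h1 : (thickenedIndicator (hd n) Oᶜ x : ℝ) ≤ 1 := by exact_mod_cast thickenedIndicator_le_one (hd n) Oᶜ x
    show (0 : ℝ) ≤ 1 - (thickenedIndicator (hd n) Oᶜ x : ℝ)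
    linarith
  · have h1 : (0 : ℝ) ≤ (thickenedIndicator (hd n) Oᶜ x : ℝ) := NNReal.coe_nonneg _
    show 1 - (thickenedIndicator (hd n) Oᶜ x : ℝ) ≤ 1
    linarith
  · by_contra h
    apply hx
    have h1 : thickenedIndicator (hd n) Oᶜ x = 1 := thickenedIndicator_one (hd n) Oᶜ h
    show 1 - (thickenedIndicator (hd n) Oᶜ x : ℝ) = 0
    rw [h1]
    simp
  · have h1 : (1 : ℝ) / (((n + 1 : ℕ) : ℝ) + 1) ≤ 1 / ((n : ℝ) + 1) := by
      apply one_div_le_one_div_of_le (by positivity)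
      push_cast
      linarith
    have h2 : (thickenedIndicator (hd (n + 1)) Oᶜ x : ℝ) ≤ (thickenedIndicator (hd n) Oᶜ x : ℝ) := by
      exact_mod_cast thickenedIndicator_mono (hd (n + 1)) (hd n) h1 Oᶜ x
    show 1 - (thickenedIndicator (hd n) Oᶜ x : ℝ) ≤ 1 - (thickenedIndicator (hd (n + 1)) Oᶜ x : ℝ)
    linarith
  · have hlim : Tendsto (fun n : ℕ => thickenedIndicatorAux (1 / ((n : ℝ) + 1)) Oᶜ) atTop
        (𝓝 (indicator (closure Oᶜ) fun _ => (1 : ℝ≥0∞))) :=
      thickenedIndicatorAux_tendsto_indicator_closure tendsto_one_div_add_atTop_nhds_zero_nat Oᶜ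
    have hmono : Monotone fun n : ℕ => ENNReal.ofReal (1 - (thickenedIndicator (hd n) Oᶜ x : ℝ)) := by
      apply monotone_nat_of_le_succ
      intro n
      apply ENNReal.ofReal_le_ofReal
      have h1 : (1 : ℝ) / (((n + 1 : ℕ) : ℝ) + 1) ≤ 1 / ((n : ℝ) + 1) := by
        apply one_div_le_one_div_of_le (by positivity)
        push_cast
        linarith
      have h2 : (thickenedIndicator (hd (n + 1)) Oᶜ x : ℝ) ≤ (thickenedIndicator (hd n) Oᶜ x : ℝ) := by
        exact_mod_cast thickenedIndicator_mono (hd (n + 1)) (hd n) h1 Oᶜ x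
      linarith
    apply iSup_eq_of_tendsto hmono
    have h3 : Tendsto (fun n : ℕ => thickenedIndicatorAux (1 / ((n : ℝ) + 1)) Oᶜ x) atTop
        (𝓝 (indicator (closure Oᶜ) (fun _ => (1 : ℝ≥0∞)) x)) := (tendsto_pi_nhds.1 hlim) x
    have h4 : ∀ n : ℕ, ENNReal.ofReal (1 - (thickenedIndicator (hd n) Oᶜ x : ℝ)) =
        1 - thickenedIndicatorAux (1 / ((n : ℝ) + 1)) Oᶜ x := by
      intro n
      have h5 : ((thickenedIndicator (hd n) Oᶜ x : ℝ≥0) : ℝ≥0∞) = thickenedIndicatorAux (1 / ((n : ℝ) + 1)) Oᶜ x :=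
        ENNReal.coe_toNNReal (thickenedIndicatorAux_lt_top).ne
      rw [ENNReal.ofReal_sub _ (NNReal.coe_nonneg _), ENNReal.ofReal_one, ENNReal.ofReal_coe_nnreal, h5]
    simp_rw [h4]
    have h6 : O.indicator (fun _ => (1 : ℝ≥0∞)) x = 1 - indicator (closure Oᶜ) (fun _ => (1 : ℝ≥0∞)) x := by
      rw [hO.isClosed_compl.closure_eq]
      by_cases hx : x ∈ O
      · rw [indicator_of_mem hx, indicator_of_notMem (by simpa using hx)]
        simp
      · rw [indicator_of_notMem hx, indicator_of_mem (by simpa using hx)]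
        simp
    rw [h6]
    exact ENNReal.Tendsto.sub tendsto_const_nhds h3 (Or.inl ENNReal.one_ne_top)

/-! ### equality of measures from test functions -/

section prod

variable {A B C : Type*} [PseudoEMetricSpace A] [PseudoEMetricSpace B] [PseudoEMetricSpace C]

/-- the open boxes -/
def boxes (A B C : Type*) [TopologicalSpace A] [TopologicalSpace B] [TopologicalSpace C] : Set (Set (A × (B × C))) :=
  image2 (· ×ˢ ·) {s : Set A | IsOpen s} (image2 (· ×ˢ ·) {s : Set B | IsOpen s} {s : Set C | IsOpen s})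

lemma mem_boxes {O1 : Set A} {O2 : Set B} {O3 : Set C} (h1 : IsOpen O1) (h2 : IsOpen O2) (h3 : IsOpen O3) :
    O1 ×ˢ (O2 ×ˢ O3) ∈ boxes A B C := ⟨O1, h1, _, ⟨O2, h2, O3, h3, rfl⟩, rfl⟩

lemma boxes_pi : IsPiSystem (boxes A B C) := by
  rintro _ ⟨O1, h1, _, ⟨O2, h2, O3, h3, rfl⟩, rfl⟩ _ ⟨P1, k1, _, ⟨P2, k2, P3, k3, rfl⟩, rfl⟩ _
  refine ⟨O1 ∩ P1, IsOpen.inter h1 k1, (O2 ∩ P2) ×ˢ (O3 ∩ P3), ⟨O2 ∩ P2, IsOpen.inter h2 k2, O3 ∩ P3, IsOpen.inter h3 k3, rfl⟩, ?_⟩
  show (O1 ∩ P1) ×ˢ ((O2 ∩ P2) ×ˢ (O3 ∩ P3)) = O1 ×ˢ (O2 ×ˢ O3) ∩ P1 ×ˢ (P2 ×ˢ P3)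
  rw [prod_inter_prod, prod_inter_prod]

lemma span_open (X : Type*) [TopologicalSpace X] : IsCountablySpanning {s : Set X | IsOpen s} :=
  ⟨fun _ => univ, fun _ => isOpen_univ, iUnion_const univ⟩

variable [MeasurableSpace A] [BorelSpace A] [MeasurableSpace B] [BorelSpace B] [MeasurableSpace C] [BorelSpace C]

lemma boxes_gen : (inferInstance : MeasurableSpace (A × (B × C))) = MeasurableSpace.generateFrom (boxes A B C) := by
  have hA : MeasurableSpace.generateFrom {s : Set A | IsOpen s} = ‹MeasurableSpace A› := (BorelSpace.measurable_eq (α := A)).symm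
  have hB : MeasurableSpace.generateFrom {s : Set B | IsOpen s} = ‹MeasurableSpace B› := (BorelSpace.measurable_eq (α := B)).symm
  have hC : MeasurableSpace.generateFrom {s : Set C | IsOpen s} = ‹MeasurableSpace C› := (BorelSpace.measurable_eq (α := C)).symm
  have h1 : MeasurableSpace.generateFrom (image2 (· ×ˢ ·) {s : Set B | IsOpen s} {s : Set C | IsOpen s}) =
      (Prod.instMeasurableSpace : MeasurableSpace (B × C)) := generateFrom_eq_prod hB hC (span_open B) (span_open C)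
  have h2 : IsCountablySpanning (image2 (· ×ˢ ·) {s : Set B | IsOpen s} {s : Set C | IsOpen s}) :=
    (span_open B).prod (span_open C)
  exact (generateFrom_eq_prod hA h1 (span_open A) h2).symm

omit [PseudoEMetricSpace α] in
lemma ind_ne_top (O : Set α) (y : α) : O.indicator (fun _ => (1 : ℝ≥0∞)) y ≠ ∞ := by
  by_cases hy : y ∈ O
  · rw [indicator_of_mem hy]
    exact ENNReal.one_ne_top
  · rw [indicator_of_notMem hy]
    exact ENNReal.zero_ne_top

/-- the measures of a box in `D` -/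
lemma box_eq {m1 m2 : Measure (A × (B × C))} {D : Set (A × (B × C))}
    (h : ∀ (u : A → ℝ) (v : B → ℝ) (w : C → ℝ), TF u → TF v → TF w → (∀ a b c, u a ≠ 0 → v b ≠ 0 → w c ≠ 0 → (a, (b, c)) ∈ D) →
      ∫⁻ x, ENNReal.ofReal (u x.1 * (v x.2.1 * w x.2.2)) ∂m1 = ∫⁻ x, ENNReal.ofReal (u x.1 * (v x.2.1 * w x.2.2)) ∂m2)
    {O1 : Set A} {O2 : Set B} {O3 : Set C} (h1 : IsOpen O1) (h2 : IsOpen O2) (h3 : IsOpen O3)
    (hD : O1 ×ˢ (O2 ×ˢ O3) ⊆ D) : m1 (O1 ×ˢ (O2 ×ˢ O3)) = m2 (O1 ×ˢ (O2 ×ˢ O3)) := by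
  obtain ⟨u, u1, u2, u3, u4⟩ := TF.up O1 h1
  obtain ⟨v, v1, v2, v3, v4⟩ := TF.up O2 h2
  obtain ⟨w, w1, w2, w3, w4⟩ := TF.up O3 h3
  have key : ∀ m : Measure (A × (B × C)), m (O1 ×ˢ (O2 ×ˢ O3)) =
      ⨆ n, ∫⁻ x, ENNReal.ofReal (u n x.1 * (v n x.2.1 * w n x.2.2)) ∂m := by
    intro m
    have hm : ∀ n, Measurable fun x : A × (B × C) => ENNReal.ofReal (u n x.1 * (v n x.2.1 * w n x.2.2)) := fun n =>
      (((u1 n).meas.comp measurable_fst).mul (((v1 n).meas.comp (measurable_fst.comp measurable_snd)).mul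
        ((w1 n).meas.comp (measurable_snd.comp measurable_snd)))).ennreal_ofReal
    have hmono : Monotone fun (n : ℕ) (x : A × (B × C)) => ENNReal.ofReal (u n x.1 * (v n x.2.1 * w n x.2.2)) := by
      apply monotone_nat_of_le_succ
      intro n x
      apply ENNReal.ofReal_le_ofReal
      exact mul_le_mul (u3 n _) (mul_le_mul (v3 n _) (w3 n _) ((w1 n).2 _).1 ((v1 _).2 _).1)
        (mul_nonneg ((v1 n).2 _).1 ((w1 n).2 _).1) ((u1 _).2 _).1
    rw [← lintegral_iSup hm hmono]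
    have hsup : (fun x : A × (B × C) => ⨆ n, ENNReal.ofReal (u n x.1 * (v n x.2.1 * w n x.2.2))) =
        (O1 ×ˢ (O2 ×ˢ O3)).indicator fun _ => (1 : ℝ≥0∞) := by
      funext x
      have hx : ∀ n, ENNReal.ofReal (u n x.1 * (v n x.2.1 * w n x.2.2)) =
          ENNReal.ofReal (u n x.1) * (ENNReal.ofReal (v n x.2.1) * ENNReal.ofReal (w n x.2.2)) := fun n => by
        rw [ENNReal.ofReal_mul ((u1 n).2 _).1, ENNReal.ofReal_mul ((v1 n).2 _).1]
      have tu : Tendsto (fun n => ENNReal.ofReal (u n x.1)) atTop (𝓝 (O1.indicator (fun _ => (1 : ℝ≥0∞)) x.1)) := by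
        rw [← u4 x.1]
        exact tendsto_atTop_iSup (monotone_nat_of_le_succ fun n => ENNReal.ofReal_le_ofReal (u3 n _))
      have tv : Tendsto (fun n => ENNReal.ofReal (v n x.2.1)) atTop (𝓝 (O2.indicator (fun _ => (1 : ℝ≥0∞)) x.2.1)) := by
        rw [← v4 x.2.1]
        exact tendsto_atTop_iSup (monotone_nat_of_le_succ fun n => ENNReal.ofReal_le_ofReal (v3 n _))
      have tw : Tendsto (fun n => ENNReal.ofReal (w n x.2.2)) atTop (𝓝 (O3.indicator (fun _ => (1 : ℝ≥0∞)) x.2.2)) := by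
        rw [← w4 x.2.2]
        exact tendsto_atTop_iSup (monotone_nat_of_le_succ fun n => ENNReal.ofReal_le_ofReal (w3 n _))
      have tvw : Tendsto (fun n => ENNReal.ofReal (v n x.2.1) * ENNReal.ofReal (w n x.2.2)) atTop
          (𝓝 (O2.indicator (fun _ => (1 : ℝ≥0∞)) x.2.1 * O3.indicator (fun _ => (1 : ℝ≥0∞)) x.2.2)) :=
        ENNReal.Tendsto.mul tv (Or.inr (ind_ne_top _ _)) tw (Or.inr (ind_ne_top _ _))
      have tt := ENNReal.Tendsto.mul tu (Or.inr (ENNReal.mul_ne_top (ind_ne_top O2 x.2.1) (ind_ne_top O3 x.2.2))) tvw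
        (Or.inr (ind_ne_top O1 x.1))
      have e1 : O1.indicator (fun _ => (1 : ℝ≥0∞)) x.1 *
          (O2.indicator (fun _ => (1 : ℝ≥0∞)) x.2.1 * O3.indicator (fun _ => (1 : ℝ≥0∞)) x.2.2) =
          (O1 ×ˢ (O2 ×ˢ O3)).indicator (fun _ => (1 : ℝ≥0∞)) x := by
        by_cases c1 : x.1 ∈ O1 <;> by_cases c2 : x.2.1 ∈ O2 <;> by_cases c3 : x.2.2 ∈ O3 <;>
          simp [indicator, c1, c2, c3]
      rw [e1] at tt
      simp_rw [hx]
      refine iSup_eq_of_tendsto ?_ tt
      intro n n' hn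
      show ENNReal.ofReal (u n x.1) * (ENNReal.ofReal (v n x.2.1) * ENNReal.ofReal (w n x.2.2)) ≤
        ENNReal.ofReal (u n' x.1) * (ENNReal.ofReal (v n' x.2.1) * ENNReal.ofReal (w n' x.2.2))
      have hh := hmono hn x
      simp only [hx] at hh
      exact hh
    rw [hsup, lintegral_indicator (h1.measurableSet.prod (h2.measurableSet.prod h3.measurableSet))]
    simp
  rw [key m1, key m2]
  refine iSup_congr fun n => h _ _ _ (u1 n) (v1 n) (w1 n) fun a b c ha hb hc => ?_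
  exact hD ⟨u2 n a ha, v2 n b hb, w2 n c hc⟩

variable [SecondCountableTopology A] [SecondCountableTopology B] [SecondCountableTopology C]

/-- **equality on an open set from products of test functions** -/
theorem prod_eq {m1 m2 : Measure (A × (B × C))} [IsFiniteMeasure m1] {D : Set (A × (B × C))} (hDo : IsOpen D)
    (h : ∀ (u : A → ℝ) (v : B → ℝ) (w : C → ℝ), TF u → TF v → TF w → (∀ a b c, u a ≠ 0 → v b ≠ 0 → w c ≠ 0 → (a, (b, c)) ∈ D) →
      ∫⁻ x, ENNReal.ofReal (u x.1 * (v x.2.1 * w x.2.2)) ∂m1 = ∫⁻ x, ENNReal.ofReal (u x.1 * (v x.2.1 * w x.2.2)) ∂m2) :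
    m1.restrict D = m2.restrict D := by
  -- a countable basis of boxes
  set bs : Set (Set (A × (B × C))) := image2 (· ×ˢ ·) (countableBasis A) (image2 (· ×ˢ ·) (countableBasis B) (countableBasis C))
    with hbs
  have hbas : IsTopologicalBasis bs :=
    (isBasis_countableBasis A).prod ((isBasis_countableBasis B).prod (isBasis_countableBasis C))
  have hcount : bs.Countable :=
    (countable_countableBasis A).image2 ((countable_countableBasis B).image2 (countable_countableBasis C) _) _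
  have hD := hbas.open_eq_sUnion' hDo
  set T : Set (Set (A × (B × C))) := {s ∈ bs | s ⊆ D} with hT
  have hTc : T.Countable := hcount.mono (sep_subset _ _)
  have hbox : ∀ s ∈ T, m1.restrict s = m2.restrict s := by
    rintro s ⟨⟨O1, h1, _, ⟨O2, h2, O3, h3, rfl⟩, rfl⟩, hs⟩
    have o1 : IsOpen O1 := isOpen_of_mem_countableBasis h1
    have o2 : IsOpen O2 := isOpen_of_mem_countableBasis h2
    have o3 : IsOpen O3 := isOpen_of_mem_countableBasis h3
    refine ext_of_generate_finite (boxes A B C) boxes_gen boxes_pi ?_ ?_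
    · rintro _ ⟨P1, k1, _, ⟨P2, k2, P3, k3, rfl⟩, rfl⟩
      have k1' : IsOpen P1 := k1
      have k2' : IsOpen P2 := k2
      have k3' : IsOpen P3 := k3
      have hme : MeasurableSet (P1 ×ˢ (P2 ×ˢ P3) : Set (A × (B × C))) :=
        k1'.measurableSet.prod (k2'.measurableSet.prod k3'.measurableSet)
      show m1.restrict (O1 ×ˢ (O2 ×ˢ O3)) (P1 ×ˢ (P2 ×ˢ P3)) = m2.restrict (O1 ×ˢ (O2 ×ˢ O3)) (P1 ×ˢ (P2 ×ˢ P3))
      rw [Measure.restrict_apply hme, Measure.restrict_apply hme, prod_inter_prod, prod_inter_prod]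
      refine box_eq h (k1'.inter o1) (k2'.inter o2) (k3'.inter o3) ?_
      refine Subset.trans ?_ hs
      exact prod_mono inter_subset_right (prod_mono inter_subset_right inter_subset_right)
    · show m1.restrict (O1 ×ˢ (O2 ×ˢ O3)) univ = m2.restrict (O1 ×ˢ (O2 ×ˢ O3)) univ
      rw [Measure.restrict_apply MeasurableSet.univ, Measure.restrict_apply MeasurableSet.univ, univ_inter]
      exact box_eq h o1 o2 o3 hs
  rw [hD]
  exact (Measure.restrict_sUnion_congr hTc).2 hbox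

end prod

/-! ### densities which are functions of the local data -/

section den

variable {K X L : Type*} [MeasurableSpace K] [MeasurableSpace X] [MeasurableSpace L]

/-- the image of `Φ P` on the second factor has on `D` a density with respect to `μ` which is a function of `loc` -/
def Den (P : Measure (K × X)) (μ : Measure X) (D : Set X) (loc : X → L) (Φ : K → ℝ≥0∞) : Prop :=
  ∃ t : L → ℝ≥0∞, Measurable t ∧ ∀ S : Set X, MeasurableSet S → S ⊆ D →
    ∫⁻ x in Prod.snd ⁻¹' S, Φ x.1 ∂P = ∫⁻ x in S, t (loc x) ∂μ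

variable {P : Measure (K × X)} {μ : Measure X} {D : Set X} {loc : X → L}

lemma den_zero : Den P μ D loc fun _ => 0 := ⟨fun _ => 0, measurable_const, fun S _ _ => by simp⟩

lemma den_add (hl : Measurable loc) {Φ Ψ : K → ℝ≥0∞} (h1 : Measurable Φ) (hΦ : Den P μ D loc Φ) (hΨ : Den P μ D loc Ψ) :
    Den P μ D loc fun k => Φ k + Ψ k := by
  obtain ⟨t, ht, h⟩ := hΦ
  obtain ⟨s, hs, h'⟩ := hΨ
  refine ⟨fun l => t l + s l, ht.add hs, fun S hS hSD => ?_⟩
  have e1 : ∫⁻ x in Prod.snd ⁻¹' S, (Φ x.1 + Ψ x.1) ∂P = ∫⁻ x in Prod.snd ⁻¹' S, Φ x.1 ∂P + ∫⁻ x in Prod.snd ⁻¹' S, Ψ x.1 ∂P :=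
    lintegral_add_left (h1.comp measurable_fst) _
  have e2 : ∫⁻ x in S, (t (loc x) + s (loc x)) ∂μ = ∫⁻ x in S, t (loc x) ∂μ + ∫⁻ x in S, s (loc x) ∂μ :=
    lintegral_add_left (ht.comp hl) _
  show ∫⁻ x in Prod.snd ⁻¹' S, (Φ x.1 + Ψ x.1) ∂P = ∫⁻ x in S, (t (loc x) + s (loc x)) ∂μ
  rw [e1, e2, h S hS hSD, h' S hS hSD]

lemma den_smul (hl : Measurable loc) {Φ : K → ℝ≥0∞} (h1 : Measurable Φ) (c : ℝ≥0∞) (hΦ : Den P μ D loc Φ) :
    Den P μ D loc fun k => c * Φ k := by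
  obtain ⟨t, ht, h⟩ := hΦ
  refine ⟨fun l => c * t l, ht.const_mul c, fun S hS hSD => ?_⟩
  have e1 : ∫⁻ x in Prod.snd ⁻¹' S, c * Φ x.1 ∂P = c * ∫⁻ x in Prod.snd ⁻¹' S, Φ x.1 ∂P :=
    lintegral_const_mul c (h1.comp measurable_fst)
  have e2 : ∫⁻ x in S, c * t (loc x) ∂μ = c * ∫⁻ x in S, t (loc x) ∂μ := lintegral_const_mul c (ht.comp hl)
  show ∫⁻ x in Prod.snd ⁻¹' S, c * Φ x.1 ∂P = ∫⁻ x in S, c * t (loc x) ∂μ
  rw [e1, e2, h S hS hSD]

/-- comparison of the densities -/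
lemma den_le (hl : Measurable loc) (hD : MeasurableSet D) [SigmaFinite μ] {Φ Ψ : K → ℝ≥0∞} (hle : ∀ k, Φ k ≤ Ψ k)
    {t s : L → ℝ≥0∞} (ht : Measurable t)
    (h : ∀ S : Set X, MeasurableSet S → S ⊆ D → ∫⁻ x in Prod.snd ⁻¹' S, Φ x.1 ∂P = ∫⁻ x in S, t (loc x) ∂μ)
    (h' : ∀ S : Set X, MeasurableSet S → S ⊆ D → ∫⁻ x in Prod.snd ⁻¹' S, Ψ x.1 ∂P = ∫⁻ x in S, s (loc x) ∂μ) :
    (fun x => t (loc x)) ≤ᵐ[μ.restrict D] fun x => s (loc x) := by
  refine ae_le_of_forall_setLIntegral_le_of_sigmaFinite (ht.comp hl) fun S hS _ => ?_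
  rw [Measure.restrict_restrict hS, ← h (S ∩ D) (hS.inter hD) inter_subset_right, ← h' (S ∩ D) (hS.inter hD) inter_subset_right]
  exact lintegral_mono fun x => hle x.1

lemma den_iSup (hl : Measurable loc) (hD : MeasurableSet D) [SigmaFinite μ] {Φ : ℕ → K → ℝ≥0∞} (hm : ∀ n, Measurable (Φ n))
    (hmono : Monotone Φ) (h : ∀ n, Den P μ D loc (Φ n)) : Den P μ D loc fun k => ⨆ n, Φ n k := by
  choose t ht h using h
  refine ⟨fun l => ⨆ n, t n l, Measurable.iSup ht, fun S hS hSD => ?_⟩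
  have e1 : ∫⁻ x in Prod.snd ⁻¹' S, ⨆ n, Φ n x.1 ∂P = ⨆ n, ∫⁻ x in Prod.snd ⁻¹' S, Φ n x.1 ∂P :=
    lintegral_iSup (fun n => (hm n).comp measurable_fst) fun n n' hn x => hmono hn x.1
  have e2 : ∫⁻ x in S, ⨆ n, t n (loc x) ∂μ = ⨆ n, ∫⁻ x in S, t n (loc x) ∂μ := by
    refine lintegral_iSup_ae (fun n => (ht n).comp hl) fun n => ?_
    have h3 := den_le hl hD (fun k => hmono (Nat.le_succ n) k) (ht n) (h n) (h (n + 1))
    exact ae_mono (Measure.restrict_mono hSD le_rfl) h3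
  rw [e1, e2]
  exact iSup_congr fun n => h n S hS hSD

lemma den_sub (hl : Measurable loc) (hD : MeasurableSet D) [SigmaFinite μ] {Φ Ψ : K → ℝ≥0∞} (h1 : Measurable Φ)
    (hle : ∀ k, Φ k ≤ Ψ k) (hfin : ∫⁻ x, Φ x.1 ∂P ≠ ∞) (hΦ : Den P μ D loc Φ) (hΨ : Den P μ D loc Ψ) :
    Den P μ D loc fun k => Ψ k - Φ k := by
  obtain ⟨t, ht, h⟩ := hΦ
  obtain ⟨s, hs, h'⟩ := hΨ
  refine ⟨fun l => s l - t l, hs.sub ht, fun S hS hSD => ?_⟩
  have f1 : ∫⁻ x in Prod.snd ⁻¹' S, Φ x.1 ∂P ≠ ∞ := ne_top_of_le_ne_top hfin (setLIntegral_le_lintegral _ _)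
  have f2 : ∫⁻ x in S, t (loc x) ∂μ ≠ ∞ := by rw [← h S hS hSD]; exact f1
  have e1 : ∫⁻ x in Prod.snd ⁻¹' S, (Ψ x.1 - Φ x.1) ∂P = ∫⁻ x in Prod.snd ⁻¹' S, Ψ x.1 ∂P - ∫⁻ x in Prod.snd ⁻¹' S, Φ x.1 ∂P :=
    lintegral_sub (h1.comp measurable_fst) f1 (ae_of_all _ fun x => hle x.1)
  have e2 : ∫⁻ x in S, (s (loc x) - t (loc x)) ∂μ = ∫⁻ x in S, s (loc x) ∂μ - ∫⁻ x in S, t (loc x) ∂μ :=
    lintegral_sub (ht.comp hl) f2 (ae_mono (Measure.restrict_mono hSD le_rfl) (den_le hl hD hle ht h h'))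
  show ∫⁻ x in Prod.snd ⁻¹' S, (Ψ x.1 - Φ x.1) ∂P = ∫⁻ x in S, (s (loc x) - t (loc x)) ∂μ
  rw [e1, e2, h S hS hSD, h' S hS hSD]

lemma den_tsum (hl : Measurable loc) {Φ : ℕ → K → ℝ≥0∞} (hm : ∀ n, Measurable (Φ n)) (h : ∀ n, Den P μ D loc (Φ n)) :
    Den P μ D loc fun k => ∑' n, Φ n k := by
  choose t ht h using h
  refine ⟨fun l => ∑' n, t n l, Measurable.tsum ht, fun S hS hSD => ?_⟩
  have e1 : ∫⁻ x in Prod.snd ⁻¹' S, ∑' n, Φ n x.1 ∂P = ∑' n, ∫⁻ x in Prod.snd ⁻¹' S, Φ n x.1 ∂P :=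
    lintegral_tsum fun n => ((hm n).comp measurable_fst).aemeasurable
  have e2 : ∫⁻ x in S, ∑' n, t n (loc x) ∂μ = ∑' n, ∫⁻ x in S, t n (loc x) ∂μ :=
    lintegral_tsum fun n => ((ht n).comp hl).aemeasurable
  show ∫⁻ x in Prod.snd ⁻¹' S, ∑' n, Φ n x.1 ∂P = ∫⁻ x in S, ∑' n, t n (loc x) ∂μ
  rw [e1, e2]
  exact tsum_congr fun n => h n S hS hSD

/-- **from a π-system to all measurable functions** -/
theorem den_all (hl : Measurable loc) (hD : MeasurableSet D) [SigmaFinite μ] [IsFiniteMeasure P] {G : Set (Set K)}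
    (hG : ‹MeasurableSpace K› = MeasurableSpace.generateFrom G) (hpi : IsPiSystem G)
    (huniv : Den P μ D loc fun _ => 1) (hbase : ∀ S ∈ G, Den P μ D loc (S.indicator fun _ => 1)) {Φ : K → ℝ≥0∞}
    (hΦ : Measurable Φ) : Den P μ D loc Φ := by
  have hset : ∀ S : Set K, MeasurableSet S → Den P μ D loc (S.indicator fun _ => 1) := by
    intro S hS
    refine MeasurableSpace.induction_on_inter (C := fun S _ => Den P μ D loc (S.indicator fun _ => 1)) hG hpi ?_ hbase ?_ ?_ S hS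
    · simpa using (den_zero : Den P μ D loc fun _ => 0)
    · intro S hS h
      have h1 := den_sub (Φ := S.indicator fun _ => 1) (Ψ := fun _ => 1) hl hD (measurable_const.indicator hS)
        (fun k => indicator_le_self' (fun _ _ => zero_le) k) ?_ h huniv
      · convert h1 using 2 with k
        by_cases hk : k ∈ S
        · simp [hk]
        · simp [hk]
      · refine ne_top_of_le_ne_top (measure_ne_top P univ) ?_
        calc ∫⁻ x, (S.indicator (fun _ => (1 : ℝ≥0∞)) x.1) ∂P ≤ ∫⁻ _, 1 ∂P :=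
              lintegral_mono fun x => indicator_le_self' (fun _ _ => zero_le) x.1
          _ = P univ := by simp
    · intro f hd hm h
      have h1 := den_tsum (Φ := fun n => (f n).indicator fun _ => 1) hl (fun n => measurable_const.indicator (hm n)) h
      have e1 : (⋃ n, f n).indicator (fun _ => (1 : ℝ≥0∞)) = fun k => ∑' n, (f n).indicator (fun _ => (1 : ℝ≥0∞)) k := by
        funext k
        by_cases hk : k ∈ ⋃ n, f n
        · obtain ⟨n, hn⟩ := mem_iUnion.1 hk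
          rw [indicator_of_mem hk, tsum_eq_single n, indicator_of_mem hn]
          intro m hmn
          rw [indicator_of_notMem]
          intro hkm
          exact (disjoint_left.1 (hd hmn) hkm) hn
        · rw [indicator_of_notMem hk]
          symm
          rw [ENNReal.tsum_eq_zero]
          intro n
          rw [indicator_of_notMem]
          exact fun h => hk (mem_iUnion.2 ⟨n, h⟩)
      rw [e1]
      exact h1
  refine Measurable.ennreal_induction (motive := fun Φ => Den P μ D loc Φ) ?_ ?_ ?_ hΦ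
  · intro c S hS
    have h1 := den_smul hl (measurable_const.indicator hS) c (hset S hS)
    convert h1 using 2 with k
    by_cases hk : k ∈ S
    · simp [hk]
    · simp [hk]
  · intro f g _ hf _ h1 h2
    exact den_add hl hf h1 h2
  · intro f hf hmono h
    exact den_iSup hl hD hf hmono h

end den

/-! ### from test functions of the two connection pieces -/

section lip

variable {K1 K2 X L : Type*} [PseudoEMetricSpace K1] [PseudoEMetricSpace K2] [MeasurableSpace K1] [BorelSpace K1]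
  [MeasurableSpace K2] [BorelSpace K2] [MeasurableSpace X] [MeasurableSpace L]
  {P : Measure ((K1 × K2) × X)} {μ : Measure X} {D : Set X} {loc : X → L}

lemma rect_gen : (inferInstance : MeasurableSpace (K1 × K2)) =
    MeasurableSpace.generateFrom (image2 (· ×ˢ ·) {s : Set K1 | IsOpen s} {s : Set K2 | IsOpen s}) := by
  have h1 : MeasurableSpace.generateFrom {s : Set K1 | IsOpen s} = ‹MeasurableSpace K1› :=
    (BorelSpace.measurable_eq (α := K1)).symm
  have h2 : MeasurableSpace.generateFrom {s : Set K2 | IsOpen s} = ‹MeasurableSpace K2› :=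
    (BorelSpace.measurable_eq (α := K2)).symm
  exact (generateFrom_eq_prod h1 h2 (span_open K1) (span_open K2)).symm

omit [MeasurableSpace K1] [BorelSpace K1] [MeasurableSpace K2] [BorelSpace K2] in
lemma rect_pi : IsPiSystem (image2 (· ×ˢ ·) {s : Set K1 | IsOpen s} {s : Set K2 | IsOpen s}) := by
  rintro _ ⟨O1, h1, O2, h2, rfl⟩ _ ⟨P1, k1, P2, k2, rfl⟩ _
  refine ⟨O1 ∩ P1, IsOpen.inter h1 k1, O2 ∩ P2, IsOpen.inter h2 k2, ?_⟩
  exact (prod_inter_prod).symm

/-- **products of test functions of the two connection pieces suffice** -/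
theorem den_lip (hl : Measurable loc) (hD : MeasurableSet D) [SigmaFinite μ] [IsFiniteMeasure P]
    (h : ∀ (e : K1 → ℝ) (e' : K2 → ℝ), TF e → TF e' → Den P μ D loc fun k => ENNReal.ofReal (e k.1 * e' k.2))
    {Φ : K1 × K2 → ℝ≥0∞} (hΦ : Measurable Φ) : Den P μ D loc Φ := by
  refine den_all hl hD rect_gen rect_pi ?_ ?_ hΦ
  · have h1 := h (fun _ => 1) (fun _ => 1) TF.one TF.one
    simpa using h1
  · rintro _ ⟨O1, h1, O2, h2, rfl⟩
    obtain ⟨u, u1, u2, u3, u4⟩ := TF.up O1 h1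
    obtain ⟨v, v1, v2, v3, v4⟩ := TF.up O2 h2
    have hmono : Monotone fun (n : ℕ) (k : K1 × K2) => ENNReal.ofReal (u n k.1 * v n k.2) := by
      apply monotone_nat_of_le_succ
      intro n k
      exact ENNReal.ofReal_le_ofReal (mul_le_mul (u3 n _) (v3 n _) ((v1 n).2 _).1 ((u1 _).2 _).1)
    have h3 := den_iSup (P := P) (μ := μ) (D := D) (loc := loc) hl hD
      (Φ := fun (n : ℕ) (k : K1 × K2) => ENNReal.ofReal (u n k.1 * v n k.2))
      (fun n => (((u1 n).meas.comp measurable_fst).mul ((v1 n).meas.comp measurable_snd)).ennreal_ofReal) hmono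
      fun n => h _ _ (u1 n) (v1 n)
    have e1 : (O1 ×ˢ O2).indicator (fun _ => (1 : ℝ≥0∞)) = fun k : K1 × K2 => ⨆ n, ENNReal.ofReal (u n k.1 * v n k.2) := by
      funext k
      symm
      refine iSup_eq_of_tendsto (fun n n' hn => hmono hn k) ?_
      have tu : Tendsto (fun n => ENNReal.ofReal (u n k.1)) atTop (𝓝 (O1.indicator (fun _ => (1 : ℝ≥0∞)) k.1)) := by
        rw [← u4 k.1]
        exact tendsto_atTop_iSup (monotone_nat_of_le_succ fun n => ENNReal.ofReal_le_ofReal (u3 n _))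
      have tv : Tendsto (fun n => ENNReal.ofReal (v n k.2)) atTop (𝓝 (O2.indicator (fun _ => (1 : ℝ≥0∞)) k.2)) := by
        rw [← v4 k.2]
        exact tendsto_atTop_iSup (monotone_nat_of_le_succ fun n => ENNReal.ofReal_le_ofReal (v3 n _))
      have tt := ENNReal.Tendsto.mul tu (Or.inr (ind_ne_top O2 k.2)) tv (Or.inr (ind_ne_top O1 k.1))
      have e2 : O1.indicator (fun _ => (1 : ℝ≥0∞)) k.1 * O2.indicator (fun _ => (1 : ℝ≥0∞)) k.2 =
          (O1 ×ˢ O2).indicator (fun _ => (1 : ℝ≥0∞)) k := by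
        by_cases c1 : k.1 ∈ O1 <;> by_cases c2 : k.2 ∈ O2 <;> simp [indicator, c1, c2]
      rw [e2] at tt
      refine tt.congr fun n => ?_
      rw [ENNReal.ofReal_mul ((u1 n).2 _).1]
    show Den P μ D loc ((O1 ×ˢ O2).indicator fun _ => 1)
    rw [e1]
    exact h3

end lip

/-! ### the form of C3 -/

section c3

variable {K1 K2 A B C L : Type*} [PseudoEMetricSpace K1] [PseudoEMetricSpace K2] [MeasurableSpace K1] [BorelSpace K1]
  [MeasurableSpace K2] [BorelSpace K2] [PseudoEMetricSpace A] [PseudoEMetricSpace B] [PseudoEMetricSpace C]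
  [MeasurableSpace A] [BorelSpace A] [MeasurableSpace B] [BorelSpace B] [MeasurableSpace C] [BorelSpace C]
  [SecondCountableTopology A] [SecondCountableTopology B] [SecondCountableTopology C] [MeasurableSpace L]

/-- one function of the connection pieces -/
theorem c3_one {K : Type*} [MeasurableSpace K] {P : Measure (K × (A × (B × C)))} {μ : Measure (A × (B × C))}
    {D : Set (A × (B × C))} {loc : A × (B × C) → L} (hl : Measurable loc) (hDo : IsOpen D) {Φ : K → ℝ≥0∞} (hΦ : Measurable Φ)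
    (hfin : ∫⁻ x, Φ x.1 ∂P ≠ ∞) {t : L → ℝ≥0∞} (ht : Measurable t)
    (h : ∀ (u : A → ℝ) (v : B → ℝ) (w : C → ℝ), TF u → TF v → TF w → (∀ a b c, u a ≠ 0 → v b ≠ 0 → w c ≠ 0 → (a, (b, c)) ∈ D) →
      ∫⁻ x, Φ x.1 * ENNReal.ofReal (u x.2.1 * (v x.2.2.1 * w x.2.2.2)) ∂P =
        ∫⁻ x, t (loc x) * ENNReal.ofReal (u x.1 * (v x.2.1 * w x.2.2)) ∂μ) :
    ∀ S : Set (A × (B × C)), MeasurableSet S → S ⊆ D → ∫⁻ x in Prod.snd ⁻¹' S, Φ x.1 ∂P = ∫⁻ x in S, t (loc x) ∂μ := by
  set m1 : Measure (A × (B × C)) := (P.withDensity fun x => Φ x.1).map Prod.snd with hm1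
  set m2 : Measure (A × (B × C)) := μ.withDensity fun x => t (loc x) with hm2
  have hΦm : Measurable fun x : K × (A × (B × C)) => Φ x.1 := hΦ.comp measurable_fst
  have : IsFiniteMeasure m1 := by
    refine ⟨?_⟩
    rw [hm1, Measure.map_apply measurable_snd MeasurableSet.univ, preimage_univ, withDensity_apply _ MeasurableSet.univ,
      Measure.restrict_univ]
    exact lt_top_iff_ne_top.2 hfin
  have hf : ∀ (u : A → ℝ) (v : B → ℝ) (w : C → ℝ), TF u → TF v → TF w →
      Measurable fun x : A × (B × C) => ENNReal.ofReal (u x.1 * (v x.2.1 * w x.2.2)) := fun u v w hu hv hw =>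
    ((hu.meas.comp measurable_fst).mul ((hv.meas.comp (measurable_fst.comp measurable_snd)).mul
      (hw.meas.comp (measurable_snd.comp measurable_snd)))).ennreal_ofReal
  have key : m1.restrict D = m2.restrict D := by
    refine prod_eq hDo fun u v w hu hv hw hs => ?_
    have e1 : ∫⁻ x, ENNReal.ofReal (u x.1 * (v x.2.1 * w x.2.2)) ∂m1 =
        ∫⁻ x, Φ x.1 * ENNReal.ofReal (u x.2.1 * (v x.2.2.1 * w x.2.2.2)) ∂P := by
      rw [hm1, lintegral_map (hf u v w hu hv hw) measurable_snd]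
      exact lintegral_withDensity_eq_lintegral_mul _ hΦm ((hf u v w hu hv hw).comp measurable_snd)
    have e2 : ∫⁻ x, ENNReal.ofReal (u x.1 * (v x.2.1 * w x.2.2)) ∂m2 =
        ∫⁻ x, t (loc x) * ENNReal.ofReal (u x.1 * (v x.2.1 * w x.2.2)) ∂μ := by
      exact lintegral_withDensity_eq_lintegral_mul _ (ht.comp hl) (hf u v w hu hv hw)
    rw [e1, e2, h u v w hu hv hw hs]
  intro S hS hSD
  have h3 : m1 S = m2 S := by
    have h4 : m1.restrict D S = m2.restrict D S := by rw [key]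
    rwa [Measure.restrict_apply hS, Measure.restrict_apply hS, inter_eq_left.2 hSD] at h4
  rw [hm1, Measure.map_apply measurable_snd hS, withDensity_apply _ (measurable_snd hS), hm2, withDensity_apply _ hS] at h3
  exact h3

/-- **C3 from Lipschitz test functions**: the density of the pairs of arcs, with any measurable function of the two connection
pieces, is a function of the local data `loc` -/
theorem c3_phi {P : Measure ((K1 × K2) × (A × (B × C)))} [IsFiniteMeasure P] {μ : Measure (A × (B × C))} [SigmaFinite μ]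
    {D : Set (A × (B × C))} {loc : A × (B × C) → L} (hl : Measurable loc) (hDo : IsOpen D)
    (h : ∀ (e : K1 → ℝ) (e' : K2 → ℝ), TF e → TF e' → ∃ t : L → ℝ≥0∞, Measurable t ∧
      ∀ (u : A → ℝ) (v : B → ℝ) (w : C → ℝ), TF u → TF v → TF w → (∀ a b c, u a ≠ 0 → v b ≠ 0 → w c ≠ 0 → (a, (b, c)) ∈ D) →
        ∫⁻ x, ENNReal.ofReal (e x.1.1 * e' x.1.2) * ENNReal.ofReal (u x.2.1 * (v x.2.2.1 * w x.2.2.2)) ∂P =
          ∫⁻ x, t (loc x) * ENNReal.ofReal (u x.1 * (v x.2.1 * w x.2.2)) ∂μ)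
    {Φ : K1 × K2 → ℝ≥0∞} (hΦ : Measurable Φ) : ∃ t : L → ℝ≥0∞, Measurable t ∧ ∀ S : Set (A × (B × C)), MeasurableSet S →
      S ⊆ D → ∫⁻ x in Prod.snd ⁻¹' S, Φ x.1 ∂P = ∫⁻ x in S, t (loc x) ∂μ := by
  refine den_lip hl hDo.measurableSet (fun e e' he he' => ?_) hΦ
  obtain ⟨t, ht, h1⟩ := h e e' he he'
  refine ⟨t, ht, c3_one (P := P) (μ := μ) (Φ := fun k : K1 × K2 => ENNReal.ofReal (e k.1 * e' k.2)) hl hDo ?_ ?_ ht h1⟩
  · exact ((he.meas.comp measurable_fst).mul (he'.meas.comp measurable_snd)).ennreal_ofReal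
  · refine ne_top_of_le_ne_top (measure_ne_top P univ) ?_
    calc ∫⁻ x, ENNReal.ofReal (e x.1.1 * e' x.1.2) ∂P ≤ ∫⁻ _, 1 ∂P := by
          refine lintegral_mono fun x => ?_
          rw [← ENNReal.ofReal_one]
          exact ENNReal.ofReal_le_ofReal (mul_le_one₀ (he.2 _).2 (he'.2 _).1 (he'.2 _).2)
      _ = P univ := by simp

end c3

end Pool.Agent.ROT.F3
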