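import Pool.Agent.ROT.F3LimM
import Pool.Agent.ROT.F3LimS

/-!
# F3, row L3: limits of lattice sums with two bounded factors, one of them equicontinuous in `L¹` (helper15)

* `bump_ex` : mollifiers with small error;
* `TI` : `∫ X(a, b, z) G(z) H(z + yA a - yB b)`; `TI_diff`, `TI_shift`;
* **`sum_lim1`** : `TI` of the lattice functions `g N`, `h N` (both bounded, `g N` with a modulus of continuity in `L¹`) converges to
  `c · TI` of their vague limits.
-/

set_option autoImplicit false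

open MeasureTheory Set Filter Topology Metric TopologicalSpace

open scoped ENNReal NNReal Convolution

namespace Pool.Agent.ROT.F3

open Pool.Agent.ROT.F3L (LU Vag sum_lim_w int3 AEq)

/-! ### mollifiers -/

/-- the bump number `j` -/
noncomputable def bmp (j : ℕ) : ContDiffBump (0 : ℂ) :=
  ⟨1 / (2 * ((j : ℝ) + 1)), 1 / ((j : ℝ) + 1), by positivity, by
    rw [one_div_lt_one_div (by positivity) (by positivity)]
    linarith [(Nat.cast_nonneg j : (0 : ℝ) ≤ (j : ℝ))]⟩

lemma bmp_mk (j : ℕ) : Mk ((bmp j).normed volume) (1 / ((j : ℝ) + 1)) (4 * ((j : ℝ) + 1) ^ 2 / Real.pi) where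
  cont := (bmp j).continuous_normed
  nn := (bmp j).nonneg_normed
  le z := by
    refine ((bmp j).normed_le_div_measure_closedBall_rIn volume z).trans (le_of_eq ?_)
    have h1 : volume.real (closedBall (0 : ℂ) (bmp j).rIn) = Real.pi * (1 / (2 * ((j : ℝ) + 1))) ^ 2 := by
      rw [measureReal_def, Complex.volume_closedBall]
      show (ENNReal.ofReal (1 / (2 * ((j : ℝ) + 1))) ^ 2 * (NNReal.pi : ℝ≥0∞)).toReal = _
      rw [ENNReal.toReal_mul, ENNReal.toReal_pow, ENNReal.toReal_ofReal (by positivity)]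
      simp only [ENNReal.coe_toReal, NNReal.coe_real_pi]
      ring
    rw [h1]
    have := Real.pi_pos
    field_simp
    ring
  supp z hz := by
    have h1 := (bmp j).support_normed_eq (μ := volume)
    have h2 : z ∉ Function.support ((bmp j).normed volume) := by
      rw [h1, mem_ball, dist_zero_right, not_lt]
      exact hz
    exact Function.notMem_support.1 h2
  int := (bmp j).integral_normed
  pos := by positivity

lemma bmp_le (j : ℕ) : 4 * ((j : ℝ) + 1) ^ 2 / Real.pi * (1 / ((j : ℝ) + 1)) ^ 2 ≤ 2 := by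
  have h1 : 4 * ((j : ℝ) + 1) ^ 2 / Real.pi * (1 / ((j : ℝ) + 1)) ^ 2 = 4 / Real.pi := by
    field_simp
  rw [h1, div_le_iff₀ Real.pi_pos]
  have := Real.pi_gt_three
  linarith

lemma meas_abs_sub {Z : Type*} [MeasurableSpace Z] {F G : Z → ℝ} (hF : Measurable F) (hG : Measurable G) :
    Measurable fun z => |F z - G z| := by
  have h : Measurable fun z => F z - G z := hF.sub hG
  exact h.norm

/-- the convolutions converge in `L¹` -/
lemma bmp_lim {g : ℂ → ℝ} (hg : Measurable g) {C R : ℝ} (hb : ∀ z, 0 ≤ g z ∧ g z ≤ C) (hs : ∀ z, R ≤ ‖z‖ → g z = 0) :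
    Tendsto (fun j => ∫ z, |(∫ v, (bmp j).normed volume (z - v) * g v) - g z|) atTop (𝓝 0) := by
  have hC : 0 ≤ C := (hb 0).1.trans (hb 0).2
  have hgi : Integrable g volume := int_ball (w := 0) (R := R) (C := C) hg
    (fun v => by rw [abs_of_nonneg (hb v).1]; exact (hb v).2) fun v hv => hs v (by rwa [sub_zero] at hv)
  have hconv : ∀ j z, ∫ v, (bmp j).normed volume (z - v) * g v =
      ((bmp j).normed volume ⋆[ContinuousLinearMap.lsmul ℝ ℝ, volume] g) z := by
    intro j z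
    rw [convolution_eq_swap]
    rfl
  have hae : ∀ᵐ z ∂(volume : Measure ℂ), Tendsto (fun j => ∫ v, (bmp j).normed volume (z - v) * g v) atTop (𝓝 (g z)) := by
    have h1 := ContDiffBump.ae_convolution_tendsto_right_of_locallyIntegrable (μ := (volume : Measure ℂ)) (φ := bmp)
      (l := atTop) (K := 2) (g := g) (tendsto_one_div_add_atTop_nhds_zero_nat) (Eventually.of_forall fun j => by
        show (1 : ℝ) / ((j : ℝ) + 1) ≤ 2 * (1 / (2 * ((j : ℝ) + 1)))
        refine le_of_eq ?_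
        field_simp) hgi.locallyIntegrable
    filter_upwards [h1] with z hz
    simp_rw [hconv]
    exact hz
  have hbd : ∀ j z, |∫ v, (bmp j).normed volume (z - v) * g v| ≤ C := by
    intro j z
    have hk := bmp_mk j
    have i0 : Integrable (fun v => (bmp j).normed volume (z - v)) volume := int_ball (w := z) (R := 1 / ((j : ℝ) + 1))
      (k_meas hk z) (fun v => by rw [abs_of_nonneg (hk.nn _)]; exact hk.le _) fun v hv => hk.supp _ (by rwa [norm_sub_rev])
    have i1 : Integrable (fun v => (bmp j).normed volume (z - v) * g v) volume :=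
      int_ball (w := z) (R := 1 / ((j : ℝ) + 1)) ((k_meas hk z).mul hg) (kg_bd hk hb z) fun v hv => by
        show (bmp j).normed volume (z - v) * g v = 0
        rw [hk.supp _ (by rwa [norm_sub_rev]), zero_mul]
    rw [abs_of_nonneg (integral_nonneg fun v => mul_nonneg (hk.nn _) (hb v).1)]
    calc ∫ v, (bmp j).normed volume (z - v) * g v ≤ ∫ v, (bmp j).normed volume (z - v) * C :=
          integral_mono i1 (i0.mul_const C) fun v => mul_le_mul_of_nonneg_left (hb v).2 (hk.nn _)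
      _ = C := by
          rw [integral_mul_const, integral_sub_left_eq_self (fun v => (bmp j).normed volume v) volume z, hk.int, one_mul]
  have hzero : ∀ j z, R + 1 ≤ ‖z‖ → ∫ v, (bmp j).normed volume (z - v) * g v = 0 := by
    intro j z hz
    have hk := bmp_mk j
    have h1 : (fun v => (bmp j).normed volume (z - v) * g v) = fun _ => 0 := by
      funext v
      by_cases hv : R ≤ ‖v‖
      · rw [hs v hv, mul_zero]
      · rw [hk.supp, zero_mul]
        have h2 := norm_sub_norm_le z v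
        rw [not_le] at hv
        have h3 : (1 : ℝ) / ((j : ℝ) + 1) ≤ 1 := by
          rw [div_le_one (by positivity)]
          linarith [(Nat.cast_nonneg j : (0 : ℝ) ≤ (j : ℝ))]
        linarith
    rw [h1, integral_zero]
  have hmeas : ∀ j, Measurable fun z => ∫ v, (bmp j).normed volume (z - v) * g v := by
    intro j
    have hk := bmp_mk j
    have h2 : Measurable fun p : ℂ × ℂ => (bmp j).normed volume (p.1 - p.2) * g p.2 :=
      (hk.cont.measurable.comp (measurable_fst.sub measurable_snd)).mul (hg.comp measurable_snd)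
    exact (h2.stronglyMeasurable.integral_prod_right' (ν := (volume : Measure ℂ))).measurable
  have h0 : ∫ _ : ℂ, (0 : ℝ) = 0 := integral_zero _ _
  rw [← h0]
  refine tendsto_integral_of_dominated_convergence (fun z => (closedBall (0 : ℂ) (R + 1)).indicator (fun _ => 2 * C) z) ?_ ?_ ?_ ?_
  · intro j
    have h9 : Measurable fun z => |(∫ v, (bmp j).normed volume (z - v) * g v) - g z| :=
      meas_abs_sub (hmeas j) hg
    exact h9.aestronglyMeasurable
  · rw [integrable_indicator_iff isClosed_closedBall.measurableSet]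
    exact integrableOn_const (isCompact_closedBall (0 : ℂ) (R + 1)).measure_lt_top.ne
  · intro j
    refine ae_of_all _ fun z => ?_
    rw [Real.norm_eq_abs, abs_abs]
    by_cases hz : z ∈ closedBall (0 : ℂ) (R + 1)
    · rw [indicator_of_mem hz]
      have h2 := hbd j z
      have h3 := hb z
      rw [abs_le] at h2 ⊢
      constructor <;> linarith [h2.1, h2.2, h3.1, h3.2]
    · rw [indicator_of_notMem hz]
      rw [mem_closedBall_zero_iff, not_le] at hz
      rw [hzero j z hz.le, hs z (by linarith), sub_self, abs_zero]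
  · filter_upwards [hae] with z hz
    have h2 := (hz.sub_const (g z)).abs
    simpa using h2

/-! ### triple integrals -/

section ti

variable {A B : Type*} [TopologicalSpace A] [SecondCountableTopology A] [PseudoMetrizableSpace A] [MeasurableSpace A]
  [BorelSpace A] [TopologicalSpace B] [SecondCountableTopology B] [PseudoMetrizableSpace B] [MeasurableSpace B] [BorelSpace B]

/-- the triple integral -/
noncomputable def TI (X : A × B × ℂ → ℝ) (yA : A → ℂ) (yB : B → ℂ) (G H : ℂ → ℝ) (α : Measure A) (β : Measure B)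
    (m : Measure ℂ) : ℝ := ∫ p, X p * G p.2.2 * H (p.2.2 + (yA p.1 - yB p.2.1)) ∂(α.prod (β.prod m))

variable {X : A × B × ℂ → ℝ} {yA : A → ℂ} {yB : B → ℂ} {α : Measure A} {β : Measure B} {m : Measure ℂ} {K C' : ℝ}
  {H : ℂ → ℝ}

omit [SecondCountableTopology A] [PseudoMetrizableSpace A] [PseudoMetrizableSpace B] in
lemma TI_meas (hX : Continuous X) (hyA : Continuous yA) (hyB : Continuous yB) (hH : Measurable H) {G : ℂ → ℝ}
    (hG : Measurable G) : Measurable fun p : A × B × ℂ => X p * G p.2.2 * H (p.2.2 + (yA p.1 - yB p.2.1)) := by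
  refine (hX.measurable.mul (hG.comp (measurable_snd.comp measurable_snd))).mul (hH.comp ?_)
  exact (measurable_snd.comp measurable_snd).add
    ((hyA.measurable.comp measurable_fst).sub (hyB.measurable.comp (measurable_fst.comp measurable_snd)))

variable [IsProbabilityMeasure α] [IsProbabilityMeasure β] [IsFiniteMeasureOnCompacts m]

lemma TI_int (hX : Continuous X) (hK : ∀ p, |X p| ≤ K) (hyA : Continuous yA) (hyB : Continuous yB) (hH : Measurable H)
    (hHb : ∀ z, |H z| ≤ C') {G : ℂ → ℝ} (hG : Measurable G) {M R : ℝ} (hM : ∀ z, |G z| ≤ M) (hs : ∀ z, R ≤ ‖z‖ → G z = 0) :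
    Integrable (fun p : A × B × ℂ => X p * G p.2.2 * H (p.2.2 + (yA p.1 - yB p.2.1))) (α.prod (β.prod m)) := by
  have := sf_of (μ := m)
  refine int3 α β m (TI_meas hX hyA hyB hH hG).aestronglyMeasurable (K := K * M * C') (R := R) ?_ ?_
  · intro p
    rw [abs_mul, abs_mul]
    have h0 : 0 ≤ K := (abs_nonneg _).trans (hK p)
    have h1 : 0 ≤ M := (abs_nonneg _).trans (hM 0)
    exact mul_le_mul (mul_le_mul (hK p) (hM _) (abs_nonneg _) h0) (hHb _) (abs_nonneg _) (mul_nonneg h0 h1)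
  · intro p hp
    rw [hs _ hp.le, mul_zero, zero_mul]

/-- **continuity in `G`** -/
lemma TI_diff (hX : Continuous X) (hK : ∀ p, |X p| ≤ K) (hyA : Continuous yA) (hyB : Continuous yB) (hH : Measurable H)
    (hHb : ∀ z, |H z| ≤ C') {G G' : ℂ → ℝ} (hG : Measurable G) (hG' : Measurable G') {M R : ℝ} (hM : ∀ z, |G z| ≤ M)
    (hs : ∀ z, R ≤ ‖z‖ → G z = 0) (hM' : ∀ z, |G' z| ≤ M) (hs' : ∀ z, R ≤ ‖z‖ → G' z = 0) :
    |TI X yA yB G H α β m - TI X yA yB G' H α β m| ≤ K * C' * ∫ z, |G z - G' z| ∂m := by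
  have := sf_of (μ := m)
  have h0 : 0 ≤ K := by
    obtain ⟨p⟩ : Nonempty (A × B × ℂ) := by
      obtain ⟨a⟩ := nonempty_of_isProbabilityMeasure α
      obtain ⟨b⟩ := nonempty_of_isProbabilityMeasure β
      exact ⟨(a, b, 0)⟩
    exact (abs_nonneg _).trans (hK p)
  unfold TI
  rw [← integral_sub (TI_int hX hK hyA hyB hH hHb hG hM hs) (TI_int hX hK hyA hyB hH hHb hG' hM' hs')]
  refine abs_integral_le_integral_abs.trans ?_
  have hd : Integrable (fun z => |G z - G' z|) m := by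
    refine (int_ball (w := 0) (R := R) (C := 2 * M) (hG.sub hG') (fun z => ?_) fun z hz => ?_).abs
    · show |G z - G' z| ≤ 2 * M
      refine (abs_sub _ _).trans ?_
      linarith [hM z, hM' z]
    · rw [sub_zero] at hz
      show G z - G' z = 0
      rw [hs z hz, hs' z hz, sub_self]
  have e1 : ∫ z, |G z - G' z| ∂m = ∫ p : A × B × ℂ, |G p.2.2 - G' p.2.2| ∂(α.prod (β.prod m)) := by
    have h1 : (α.prod (β.prod m)).map (fun p : A × B × ℂ => p.2.2) = m := by
      have h2 : (fun p : A × B × ℂ => p.2.2) = Prod.snd ∘ Prod.snd := rfl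
      rw [h2, ← Measure.map_map measurable_snd measurable_snd, Measure.map_snd_prod, Measure.map_smul, Measure.map_snd_prod,
        measure_univ, measure_univ, one_smul, one_smul]
    have h3 : Measurable fun p : A × B × ℂ => p.2.2 := measurable_snd.comp measurable_snd
    conv_lhs => rw [← h1]
    rw [integral_map h3.aemeasurable (meas_abs_sub hG hG').aestronglyMeasurable]
  have i2 : Integrable (fun p : A × B × ℂ => |G p.2.2 - G' p.2.2|) (α.prod (β.prod m)) := by
    have h9 : Measurable fun p : A × B × ℂ => |G p.2.2 - G' p.2.2| :=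
      (meas_abs_sub hG hG').comp (measurable_snd.comp measurable_snd)
    refine int3 α β m h9.aestronglyMeasurable (K := 2 * M) (R := R) ?_ ?_
    · intro p
      show |(|G p.2.2 - G' p.2.2|)| ≤ 2 * M
      rw [abs_abs]
      refine (abs_sub _ _).trans ?_
      linarith [hM p.2.2, hM' p.2.2]
    · intro p hp
      show |G p.2.2 - G' p.2.2| = 0
      rw [hs _ hp.le, hs' _ hp.le, sub_self, abs_zero]
  rw [e1, ← integral_const_mul]
  refine integral_mono_of_nonneg (ae_of_all _ fun _ => abs_nonneg _) (i2.const_mul _) (ae_of_all _ fun p => ?_)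
  show |X p * G p.2.2 * H (p.2.2 + (yA p.1 - yB p.2.1)) - X p * G' p.2.2 * H (p.2.2 + (yA p.1 - yB p.2.1))| ≤
    K * C' * |G p.2.2 - G' p.2.2|
  have e2 : X p * G p.2.2 * H (p.2.2 + (yA p.1 - yB p.2.1)) - X p * G' p.2.2 * H (p.2.2 + (yA p.1 - yB p.2.1)) =
      (X p * H (p.2.2 + (yA p.1 - yB p.2.1))) * (G p.2.2 - G' p.2.2) := by ring
  rw [e2, abs_mul, abs_mul]
  exact mul_le_mul_of_nonneg_right (mul_le_mul (hK p) (hHb _) (abs_nonneg _) h0) (abs_nonneg _)

/-- **the other variable** -/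
lemma TI_shift (hX : Continuous X) (hK : ∀ p, |X p| ≤ K) (hyA : Continuous yA) (hyB : Continuous yB) (hH : Measurable H)
    (hHb : ∀ z, 0 ≤ H z ∧ H z ≤ C') {G : ℂ → ℝ} (hG : Measurable G) {M R : ℝ} (hM : ∀ z, |G z| ≤ M)
    (hs : ∀ z, R ≤ ‖z‖ → G z = 0)
    (hinv : ∀ᵐ a ∂α, ∀ᵐ b ∂β, m.map (fun z => z + (yA a - yB b)) = m) :
    TI X yA yB G H α β m = ∫ p, X (p.1, p.2.1, p.2.2 - yA p.1 + yB p.2.1) * G (p.2.2 - yA p.1 + yB p.2.1)
      ∂(α.prod (β.prod (m.withDensity fun z => ENNReal.ofReal (H z)))) := by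
  have := sf_of (μ := m)
  have hHm : Measurable fun z => ENNReal.ofReal (H z) := hH.ennreal_ofReal
  have hle : (m.withDensity fun z => ENNReal.ofReal (H z)) ≤ ENNReal.ofReal C' • m := by
    rw [Measure.le_iff]
    intro s hs1
    rw [withDensity_apply _ hs1, Measure.smul_apply, smul_eq_mul, ← setLIntegral_const]
    exact lintegral_mono fun z => ENNReal.ofReal_le_ofReal (hHb z).2
  have : IsFiniteMeasureOnCompacts (m.withDensity fun z => ENNReal.ofReal (H z)) := by
    refine ⟨fun s hs1 => lt_of_le_of_lt (hle s) ?_⟩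
    rw [Measure.smul_apply, smul_eq_mul]
    exact ENNReal.mul_lt_top ENNReal.ofReal_lt_top hs1.measure_lt_top
  have := sf_of (μ := m.withDensity fun z => ENNReal.ofReal (H z))
  have hXm : Measurable fun p : A × B × ℂ => X (p.1, p.2.1, p.2.2 - yA p.1 + yB p.2.1) * G (p.2.2 - yA p.1 + yB p.2.1) := by
    have h1 : Measurable fun p : A × B × ℂ => p.2.2 - yA p.1 + yB p.2.1 :=
      ((measurable_snd.comp measurable_snd).sub (hyA.measurable.comp measurable_fst)).add
        (hyB.measurable.comp (measurable_fst.comp measurable_snd))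
    exact (hX.measurable.comp (measurable_fst.prodMk ((measurable_fst.comp measurable_snd).prodMk h1))).mul (hG.comp h1)
  have h0 : 0 ≤ K := by
    obtain ⟨p⟩ : Nonempty (A × B × ℂ) := by
      obtain ⟨a⟩ := nonempty_of_isProbabilityMeasure α
      obtain ⟨b⟩ := nonempty_of_isProbabilityMeasure β
      exact ⟨(a, b, 0)⟩
    exact (abs_nonneg _).trans (hK p)
  have hM0 : 0 ≤ M := (abs_nonneg _).trans (hM 0)
  have hHb' : ∀ z, |H z| ≤ C' := fun z => by rw [abs_of_nonneg (hHb z).1]; exact (hHb z).2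
  -- the inner integrals
  have inner : ∀ a b, m.map (fun z => z + (yA a - yB b)) = m →
      ∫ z, X (a, b, z) * G z * H (z + (yA a - yB b)) ∂m =
        ∫ w, X (a, b, w - yA a + yB b) * G (w - yA a + yB b) ∂(m.withDensity fun z => ENNReal.ofReal (H z)) := by
    intro a b hab
    rw [integral_withDensity_eq_integral_toReal_smul hHm (ae_of_all _ fun z => ENNReal.ofReal_lt_top)]
    have h1 : Measurable fun z : ℂ => z + (yA a - yB b) := measurable_id.add_const _
    have h2 : Measurable fun w : ℂ => X (a, b, w - yA a + yB b) * G (w - yA a + yB b) := by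
      have h3 : Measurable fun w : ℂ => w - yA a + yB b := (measurable_id.sub_const _).add_const _
      exact (hX.measurable.comp (measurable_const.prodMk (measurable_const.prodMk h3))).mul (hG.comp h3)
    have h3 : Measurable fun w : ℂ => (ENNReal.ofReal (H w)).toReal • (X (a, b, w - yA a + yB b) * G (w - yA a + yB b)) :=
      hHm.ennreal_toReal.smul h2
    conv_rhs => rw [← hab]
    rw [integral_map h1.aemeasurable h3.aestronglyMeasurable]
    refine integral_congr_ae (ae_of_all _ fun z => ?_)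
    show X (a, b, z) * G z * H (z + (yA a - yB b)) = (ENNReal.ofReal (H (z + (yA a - yB b)))).toReal •
      (X (a, b, z + (yA a - yB b) - yA a + yB b) * G (z + (yA a - yB b) - yA a + yB b))
    rw [ENNReal.toReal_ofReal (hHb _).1, show z + (yA a - yB b) - yA a + yB b = z by ring, smul_eq_mul]
    ring
  have i1 := TI_int (α := α) (β := β) (m := m) hX hK hyA hyB hH hHb' hG hM hs
  have i2 : Integrable (fun p : A × B × ℂ => X (p.1, p.2.1, p.2.2 - yA p.1 + yB p.2.1) * G (p.2.2 - yA p.1 + yB p.2.1))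
      (α.prod (β.prod (m.withDensity fun z => ENNReal.ofReal (H z)))) := by
    -- reduce to the other form by Tonelli
    refine ⟨hXm.aestronglyMeasurable, ?_⟩
    rw [hasFiniteIntegral_iff_enorm]
    have hE : Measurable fun p : A × B × ℂ => ‖X (p.1, p.2.1, p.2.2 - yA p.1 + yB p.2.1) * G (p.2.2 - yA p.1 + yB p.2.1)‖ₑ :=
      hXm.enorm
    rw [lintegral_prod _ hE.aemeasurable]
    have e1 : ∫⁻ a, ∫⁻ q : B × ℂ, ‖X (a, q.1, q.2 - yA a + yB q.1) * G (q.2 - yA a + yB q.1)‖ₑ
        ∂(β.prod (m.withDensity fun z => ENNReal.ofReal (H z))) ∂α =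
        ∫⁻ a, ∫⁻ q : B × ℂ, ‖X (a, q.1, q.2) * G q.2 * H (q.2 + (yA a - yB q.1))‖ₑ ∂(β.prod m) ∂α := by
      refine lintegral_congr_ae ?_
      filter_upwards [hinv] with a ha
      have hEa : Measurable fun q : B × ℂ => ‖X (a, q.1, q.2 - yA a + yB q.1) * G (q.2 - yA a + yB q.1)‖ₑ :=
        hE.comp (measurable_const.prodMk measurable_id)
      have hEb : Measurable fun q : B × ℂ => ‖X (a, q.1, q.2) * G q.2 * H (q.2 + (yA a - yB q.1))‖ₑ :=
        ((TI_meas hX hyA hyB hH hG).comp (measurable_const.prodMk measurable_id)).enorm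
      rw [lintegral_prod _ hEa.aemeasurable, lintegral_prod _ hEb.aemeasurable]
      refine lintegral_congr_ae ?_
      filter_upwards [ha] with b hb
      have h1 : Measurable fun z : ℂ => z + (yA a - yB b) := measurable_id.add_const _
      have hEc : Measurable fun w : ℂ => ‖X (a, b, w - yA a + yB b) * G (w - yA a + yB b)‖ₑ :=
        hEa.comp (measurable_const.prodMk measurable_id)
      rw [lintegral_withDensity_eq_lintegral_mul _ hHm hEc]
      conv_lhs => rw [← hb]
      rw [lintegral_map (hHm.mul hEc) h1]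
      refine lintegral_congr fun z => ?_
      show ENNReal.ofReal (H (z + (yA a - yB b))) * ‖X (a, b, z + (yA a - yB b) - yA a + yB b) *
        G (z + (yA a - yB b) - yA a + yB b)‖ₑ = ‖X (a, b, z) * G z * H (z + (yA a - yB b))‖ₑ
      rw [show z + (yA a - yB b) - yA a + yB b = z by ring, enorm_mul (X (a, b, z) * G z), mul_comm]
      congr 1
      rw [Real.enorm_eq_ofReal (hHb _).1]
    rw [e1, ← lintegral_prod _ ((TI_meas hX hyA hyB hH hG).enorm).aemeasurable]
    exact i1.2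
  unfold TI
  rw [integral_prod _ i1, integral_prod _ i2]
  refine integral_congr_ae ?_
  have j1 := i1.prod_right_ae
  have j2 := i2.prod_right_ae
  filter_upwards [hinv, j1, j2] with a ha k1 k2
  rw [integral_prod _ k1, integral_prod _ k2]
  refine integral_congr_ae ?_
  filter_upwards [ha] with b hb
  exact inner a b hb

end ti

/-! ### limits along a filter -/

/-- pointwise limits of asymptotically equicontinuous functions -/
lemma lu_l {l : Filter ℕ} [NeBot l] {f : ℕ → ℂ → ℝ}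
    (he : ∀ ε : ℝ, 0 < ε → ∃ η : ℝ, 0 < η ∧ ∀ᶠ N in l, ∀ z w : ℂ, ‖z - w‖ ≤ η → |f N z - f N w| ≤ ε)
    {g : ℂ → ℝ} (hg : ∀ z, Tendsto (fun N => f N z) l (𝓝 (g z))) : UniformContinuous g ∧ LU l f g := by
  have hu : ∀ ε : ℝ, 0 < ε → ∃ η : ℝ, 0 < η ∧ ∀ z w : ℂ, ‖z - w‖ ≤ η → |g z - g w| ≤ ε := by
    intro ε hε
    obtain ⟨η, hη, h1⟩ := he ε hε
    refine ⟨η, hη, fun z w hzw => ?_⟩
    have h2 : Tendsto (fun N => |f N z - f N w|) l (𝓝 |g z - g w|) := ((hg z).sub (hg w)).abs
    exact le_of_tendsto h2 (h1.mono fun N hN => hN z w hzw)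
  refine ⟨?_, ?_⟩
  · rw [Metric.uniformContinuous_iff]
    intro ε hε
    obtain ⟨η, hη, h1⟩ := hu (ε / 2) (by positivity)
    refine ⟨η, hη, fun {z w} hzw => ?_⟩
    rw [Real.dist_eq]
    rw [dist_eq_norm] at hzw
    linarith [h1 z w hzw.le]
  · intro R ε hε
    obtain ⟨η1, hη1, h1⟩ := he (ε / 3) (by positivity)
    obtain ⟨η2, hη2, h2⟩ := hu (ε / 3) (by positivity)
    have hK : IsCompact (Metric.closedBall (0 : ℂ) R) := isCompact_closedBall 0 R
    obtain ⟨t, -, ht, hcov⟩ := hK.finite_cover_balls (lt_min hη1 hη2)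
    have h3 : ∀ x ∈ t, ∀ᶠ N in l, |f N x - g x| ≤ ε / 3 := by
      intro x _
      filter_upwards [Metric.tendsto_nhds.1 (hg x) (ε / 3) (by positivity)] with N hN
      rw [Real.dist_eq] at hN
      exact hN.le
    filter_upwards [(eventually_all_finite ht).2 h3, h1] with N h4 hN z hz
    have hz' : z ∈ Metric.closedBall (0 : ℂ) R := by simpa using hz
    obtain ⟨x, hx, hzx⟩ := Set.mem_iUnion₂.1 (hcov hz')
    rw [Metric.mem_ball, dist_eq_norm] at hzx
    have h5 := hN z x (hzx.le.trans (min_le_left _ _))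
    have h6 := h2 z x (hzx.le.trans (min_le_right _ _))
    have h7 := h4 x hx
    rw [abs_le] at *
    constructor <;> linarith [h5.1, h5.2, h6.1, h6.2, h7.1, h7.2]

/-- clamping -/
noncomputable def clmp (C x : ℝ) : ℝ := max 0 (min C x)

lemma clmp_meas (C : ℝ) {f : ℂ → ℝ} (hf : Measurable f) : Measurable fun z => clmp C (f z) :=
  measurable_const.max (measurable_const.min hf)

lemma clmp_bd {C : ℝ} (hC : 0 ≤ C) (x : ℝ) : 0 ≤ clmp C x ∧ clmp C x ≤ C :=
  ⟨le_max_left _ _, max_le hC (min_le_left _ _)⟩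

lemma clmp_id {C x : ℝ} (h0 : 0 ≤ x) (h1 : x ≤ C) : clmp C x = x := by
  unfold clmp
  rw [min_eq_right h1, max_eq_right h0]

/-- the vague limit with support in a ball -/
theorem vlim_supp (U : Ultrafilter ℕ) {m : ℕ → Measure ℂ} {c : ℝ} (hm : LM (U : Filter ℕ) m c) {g : ℕ → ℂ → ℝ} {C R : ℝ}
    (hg : BF (U : Filter ℕ) g C R) : ∃ g0 : ℂ → ℝ, Measurable g0 ∧ (∀ z, 0 ≤ g0 z ∧ g0 z ≤ C) ∧ (∀ z, R + 1 ≤ ‖z‖ → g0 z = 0) ∧
      ∀ Ψ : ℂ → ℝ, Continuous Ψ → HasCompactSupport Ψ →
        Tendsto (fun N => ∫ z, g N z * Ψ z ∂(m N)) U (𝓝 (c * ∫ z, g0 z * Ψ z)) := by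
  have := hm.fin
  obtain ⟨g1, h1, h2, h3⟩ := vlim U hm.pos hg.C0 hm.vag hg.meas hg.bd
  obtain ⟨ψ, hψ, hψc, hψ0, hψ1, hψR, hψR1⟩ := Pool.Agent.ROT.F3L.bump R
  refine ⟨fun z => g1 z * ψ z, h1.mul hψ.measurable, fun z => ⟨mul_nonneg (h2 z).1 (hψ0 z), ?_⟩, fun z hz => ?_,
    fun Ψ k1 k2 => ?_⟩
  · calc g1 z * ψ z ≤ C * 1 := mul_le_mul (h2 z).2 (hψ1 z) (hψ0 z) hg.C0
      _ = C := mul_one C
  · show g1 z * ψ z = 0
    rw [hψR1 z hz, mul_zero]
  · have h4 := h3 (fun z => ψ z * Ψ z) (hψ.mul k1) k2.mul_left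
    have e1 : ∫ z, g1 z * ψ z * Ψ z = ∫ z, g1 z * (ψ z * Ψ z) :=
      integral_congr_ae (ae_of_all _ fun z => mul_assoc _ _ _)
    rw [e1]
    refine h4.congr' ?_
    filter_upwards [hg.supp] with N hN
    refine integral_congr_ae (ae_of_all _ fun z => ?_)
    show g N z * (ψ z * Ψ z) = g N z * Ψ z
    by_cases hz : ‖z‖ ≤ R
    · rw [hψR z hz, one_mul]
    · rw [hN z (not_le.1 hz).le, zero_mul, zero_mul]

section lim

variable {A B : Type*} [TopologicalSpace A] [SecondCountableTopology A] [PseudoMetrizableSpace A] [MeasurableSpace A]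
  [BorelSpace A] [TopologicalSpace B] [SecondCountableTopology B] [PseudoMetrizableSpace B] [MeasurableSpace B] [BorelSpace B]

/-- withDensity of a bounded function -/
lemma wd_fin {m : Measure ℂ} [IsFiniteMeasureOnCompacts m] {H : ℂ → ℝ} {C' : ℝ} (hH : ∀ z, H z ≤ C') :
    (m.withDensity fun z => ENNReal.ofReal (H z)) ≤ ENNReal.ofReal C' • m ∧
      IsFiniteMeasureOnCompacts (m.withDensity fun z => ENNReal.ofReal (H z)) := by
  have hle : (m.withDensity fun z => ENNReal.ofReal (H z)) ≤ ENNReal.ofReal C' • m := by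
    rw [Measure.le_iff]
    intro s hs1
    rw [withDensity_apply _ hs1, Measure.smul_apply, smul_eq_mul, ← setLIntegral_const]
    exact lintegral_mono fun z => ENNReal.ofReal_le_ofReal (hH z)
  refine ⟨hle, ⟨fun s hs1 => lt_of_le_of_lt (hle s) ?_⟩⟩
  rw [Measure.smul_apply, smul_eq_mul]
  exact ENNReal.mul_lt_top ENNReal.ofReal_lt_top hs1.measure_lt_top

lemma wd_int {m : Measure ℂ} {H : ℂ → ℝ} (hm : Measurable H) (h0 : ∀ z, 0 ≤ H z) (χ : ℂ → ℝ) :
    ∫ z, χ z ∂(m.withDensity fun z => ENNReal.ofReal (H z)) = ∫ z, H z * χ z ∂m := by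
  rw [integral_withDensity_eq_integral_toReal_smul hm.ennreal_ofReal (ae_of_all _ fun z => ENNReal.ofReal_lt_top)]
  refine integral_congr_ae (ae_of_all _ fun z => ?_)
  show (ENNReal.ofReal (H z)).toReal • χ z = H z * χ z
  rw [ENNReal.toReal_ofReal (h0 z), smul_eq_mul]

variable {l : Filter ℕ} [NeBot l] {bA : ℕ → ProbabilityMeasure A} {a0 : ProbabilityMeasure A}
  {bB : ℕ → ProbabilityMeasure B} {b0 : ProbabilityMeasure B} {m : ℕ → Measure ℂ} {c : ℝ} {yA : A → ℂ} {yB : B → ℂ}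
  {h : ℕ → ℂ → ℝ} {C' : ℝ} {h0 : ℂ → ℝ} {X : A × B × ℂ → ℝ} {K : ℝ}

/-- **the limit if one factor converges uniformly** -/
theorem ti_lu (hA : Tendsto bA l (𝓝 a0)) (hB : Tendsto bB l (𝓝 b0)) (hm : LM l m c) (hyA : Continuous yA)
    (hyB : Continuous yB)
    (hinv : ∀ᶠ N in l, ∀ᵐ a ∂(bA N : Measure A), ∀ᵐ b ∂(bB N : Measure B), (m N).map (fun z => z + (yA a - yB b)) = m N)
    {G : ℕ → ℂ → ℝ} {M R : ℝ} (hG : BF l G M R) {G0 : ℂ → ℝ} (hGc : Continuous G0) (hL : LU l G G0)
    (hh : ∀ N, Measurable (h N)) (hC' : 0 ≤ C') (hhb : ∀ᶠ N in l, ∀ z, 0 ≤ h N z ∧ h N z ≤ C')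
    (hh0 : Measurable h0) (hh0b : ∀ z, 0 ≤ h0 z ∧ h0 z ≤ C')
    (hh0l : ∀ Ψ : ℂ → ℝ, Continuous Ψ → HasCompactSupport Ψ →
      Tendsto (fun N => ∫ z, h N z * Ψ z ∂(m N)) l (𝓝 (c * ∫ z, h0 z * Ψ z)))
    (hX : Continuous X) (hK : ∀ p, |X p| ≤ K) :
    Tendsto (fun N => TI X yA yB (G N) (h N) (bA N) (bB N) (m N)) l (𝓝 (c * TI X yA yB G0 h0 a0 b0 volume)) := by
  have hfin := hm.fin
  have hc := hm.pos
  have hM0 := hG.C0
  obtain ⟨ψ, hψ, hψc, hψ0, hψ1, hψR, hψR1⟩ := Pool.Agent.ROT.F3L.bump R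
  obtain ⟨X', hX'⟩ : ∃ X' : A × B × ℂ → ℝ, X' = fun p => X p * ψ p.2.2 := ⟨_, rfl⟩
  have hX'c : Continuous X' := by
    rw [hX']
    exact hX.mul (hψ.comp (continuous_snd.comp continuous_snd))
  have hX'K : ∀ p, |X' p| ≤ K := fun p => by
    rw [hX']
    show |X p * ψ p.2.2| ≤ K
    rw [abs_mul, abs_of_nonneg (hψ0 _)]
    have h1 := hK p
    have h2 := abs_nonneg (X p)
    calc |X p| * ψ p.2.2 ≤ |X p| * 1 := mul_le_mul_of_nonneg_left (hψ1 _) h2
      _ ≤ K := by rw [mul_one]; exact h1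
  have hX'R : ∀ p : A × B × ℂ, R + 1 < ‖p.2.2‖ → X' p = 0 := fun p hp => by
    rw [hX']
    show X p * ψ p.2.2 = 0
    rw [hψR1 _ hp.le, mul_zero]
  -- the clamped functions
  have hG'm : ∀ N, Measurable fun z => clmp M (G N z) := fun N => clmp_meas M (hG.meas N)
  have hh'm : ∀ N, Measurable fun z => clmp C' (h N z) := fun N => clmp_meas C' (hh N)
  have hη : ∀ N, IsFiniteMeasureOnCompacts ((m N).withDensity fun z => ENNReal.ofReal (clmp C' (h N z))) := fun N =>
    (wd_fin (m := m N) (H := fun z => clmp C' (h N z)) fun z => (clmp_bd hC' _).2).2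
  have hh1b : ∀ z, c * h0 z ≤ c * C' := fun z => mul_le_mul_of_nonneg_left (hh0b z).2 hc.le
  have hh10 : ∀ z, 0 ≤ c * h0 z := fun z => mul_nonneg hc.le (hh0b z).1
  have hμ : IsFiniteMeasureOnCompacts ((volume : Measure ℂ).withDensity fun z => ENNReal.ofReal (c * h0 z)) :=
    (wd_fin (m := volume) (H := fun z => c * h0 z) hh1b).2
  have hvag : Vag l (fun N => (m N).withDensity fun z => ENNReal.ofReal (clmp C' (h N z)))
      ((volume : Measure ℂ).withDensity fun z => ENNReal.ofReal (c * h0 z)) := by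
    intro χ h1 h2
    rw [wd_int (hh0.const_mul c) hh10]
    have e1 : ∫ z, c * h0 z * χ z = c * ∫ z, h0 z * χ z := by
      rw [← integral_const_mul]
      exact integral_congr_ae (ae_of_all _ fun z => mul_assoc _ _ _)
    rw [e1]
    refine (hh0l χ h1 h2).congr' ?_
    filter_upwards [hhb] with N hN
    rw [wd_int (hh'm N) fun z => (clmp_bd hC' _).1]
    refine integral_congr_ae (ae_of_all _ fun z => ?_)
    show h N z * χ z = clmp C' (h N z) * χ z
    rw [clmp_id (hN z).1 (hN z).2]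
  have hloc : ∃ L : ℝ, 0 ≤ L ∧ ∀ᶠ N in l, ∀ w : ℂ, ((m N).withDensity fun z => ENNReal.ofReal (clmp C' (h N z)))
      (Metric.closedBall w (R + 1 + 1)) ≤ ENNReal.ofReal L := by
    obtain ⟨K2, hK2⟩ := hm.loc (R + 1 + 1)
    refine ⟨C' * |K2|, by positivity, ?_⟩
    filter_upwards [hK2] with N hN w
    have h1 := (wd_fin (m := m N) (H := fun z => clmp C' (h N z)) (C' := C') fun z => (clmp_bd hC' _).2).1
      (Metric.closedBall w (R + 1 + 1))
    refine h1.trans ?_
    rw [Measure.smul_apply, smul_eq_mul, ENNReal.ofReal_mul hC']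
    gcongr
    have h2 : m N (Metric.closedBall w (R + 1 + 1)) ≠ ∞ := (isCompact_closedBall w _).measure_lt_top.ne
    rw [← ENNReal.ofReal_toReal h2]
    exact ENNReal.ofReal_le_ofReal ((hN w).trans (le_abs_self _))
  obtain ⟨L, hL0, hLl⟩ := hloc
  have hLU : LU l (fun N z => clmp M (G N z)) G0 := by
    intro R' ε hε
    filter_upwards [hL R' ε hε, hG.bd] with N hN hb z hz
    rw [clmp_id (hb z).1 (hb z).2]
    exact hN z hz
  have hmeas : ∀ N, AEStronglyMeasurable (fun p : A × B × ℂ => X' (p.1, p.2.1, p.2.2 - yA p.1 + yB p.2.1) *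
      clmp M (G N (p.2.2 - yA p.1 + yB p.2.1))) ((bA N : Measure A).prod ((bB N : Measure B).prod
        ((m N).withDensity fun z => ENNReal.ofReal (clmp C' (h N z))))) := by
    intro N
    have h1 : Measurable fun p : A × B × ℂ => p.2.2 - yA p.1 + yB p.2.1 :=
      ((measurable_snd.comp measurable_snd).sub (hyA.measurable.comp measurable_fst)).add
        (hyB.measurable.comp (measurable_fst.comp measurable_snd))
    exact ((hX'c.measurable.comp (measurable_fst.prodMk ((measurable_fst.comp measurable_snd).prodMk h1))).mul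
      ((hG'm N).comp h1)).aestronglyMeasurable
  have key := sum_lim_w hA hB hvag hyA hyB hGc (C := M) (fun N z => by
    rw [abs_of_nonneg (clmp_bd hM0 _).1]
    exact (clmp_bd hM0 _).2) hLU hX'c hX'K hX'R hL0 hLl hmeas
  -- the limit
  have hG0b : ∀ z, 0 ≤ G0 z ∧ G0 z ≤ M := fun z =>
    ⟨ge_of_tendsto (hL.tendsto z) (hG.bd.mono fun N hN => (hN z).1), le_of_tendsto (hL.tendsto z) (hG.bd.mono fun N hN => (hN z).2)⟩
  have hG0s : ∀ z, R ≤ ‖z‖ → G0 z = 0 := fun z hz =>
    tendsto_nhds_unique (hL.tendsto z) (tendsto_const_nhds.congr' (hG.supp.mono fun N hN => (hN z hz).symm))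
  have e1 : ∫ p, X' (p.1, p.2.1, p.2.2 - yA p.1 + yB p.2.1) * G0 (p.2.2 - yA p.1 + yB p.2.1)
      ∂((a0 : Measure A).prod ((b0 : Measure B).prod ((volume : Measure ℂ).withDensity fun z => ENNReal.ofReal (c * h0 z)))) =
      c * TI X yA yB G0 h0 a0 b0 volume := by
    rw [← TI_shift (α := (a0 : Measure A)) (β := (b0 : Measure B)) (m := volume) (H := fun z => c * h0 z) (C' := c * C')
      hX'c hX'K hyA hyB (hh0.const_mul c) (fun z => ⟨hh10 z, hh1b z⟩) hGc.measurable (M := M) (R := R) (fun z => by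
        rw [abs_of_nonneg (hG0b z).1]
        exact (hG0b z).2) hG0s (ae_of_all _ fun a => ae_of_all _ fun b => (measurePreserving_add_right volume _).map_eq)]
    unfold TI
    rw [← integral_const_mul]
    refine integral_congr_ae (ae_of_all _ fun p => ?_)
    show X' p * G0 p.2.2 * (c * h0 (p.2.2 + (yA p.1 - yB p.2.1))) =
      c * (X p * G0 p.2.2 * h0 (p.2.2 + (yA p.1 - yB p.2.1)))
    rw [hX']
    by_cases hz : ‖p.2.2‖ ≤ R
    · simp only [hψR _ hz]
      ring
    · rw [hG0s _ (not_le.1 hz).le]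
      ring
  rw [e1] at key
  refine key.congr' ?_
  filter_upwards [hinv, hG.bd, hG.supp, hhb] with N h1 h2 h3 h4
  have e2 : TI X yA yB (G N) (h N) (bA N) (bB N) (m N) = TI X' yA yB (fun z => clmp M (G N z)) (fun z => clmp C' (h N z))
      (bA N) (bB N) (m N) := by
    unfold TI
    refine integral_congr_ae (ae_of_all _ fun p => ?_)
    show X p * G N p.2.2 * h N (p.2.2 + (yA p.1 - yB p.2.1)) =
      X' p * clmp M (G N p.2.2) * clmp C' (h N (p.2.2 + (yA p.1 - yB p.2.1)))
    rw [clmp_id (h2 _).1 (h2 _).2, clmp_id (h4 _).1 (h4 _).2, hX']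
    by_cases hz : ‖p.2.2‖ ≤ R
    · simp only [hψR _ hz]
      ring
    · rw [h3 _ (not_le.1 hz).le]
      ring
  rw [e2]
  symm
  refine TI_shift (α := (bA N : Measure A)) (β := (bB N : Measure B)) (m := m N) (H := fun z => clmp C' (h N z)) (C' := C')
    hX'c hX'K hyA hyB (hh'm N) (fun z => clmp_bd hC' _) (hG'm N) (M := M) (R := R) (fun z => ?_) (fun z hz => ?_) h1
  · rw [abs_of_nonneg (clmp_bd hM0 _).1]
    exact (clmp_bd hM0 _).2
  · show clmp M (G N z) = 0
    rw [h3 z hz, clmp_id le_rfl hM0]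

/-- **the limit of the lattice sums**: `g N` bounded with bounded support and a modulus of continuity in `L¹(m N)`, `h N` bounded -/
theorem sum_lim1 (hA : Tendsto bA l (𝓝 a0)) (hB : Tendsto bB l (𝓝 b0)) (hm : LM l m c) (hyA : Continuous yA)
    (hyB : Continuous yB)
    (hinv : ∀ᶠ N in l, ∀ᵐ a ∂(bA N : Measure A), ∀ᵐ b ∂(bB N : Measure B), (m N).map (fun z => z + (yA a - yB b)) = m N)
    {g : ℕ → ℂ → ℝ} {C R : ℝ} (hg : BF l g C R) (hg1 : AL1 l m g) {g0 : ℂ → ℝ} (hg0 : Measurable g0)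
    (hg0b : ∀ z, 0 ≤ g0 z ∧ g0 z ≤ C) {R0 : ℝ} (hg0s : ∀ z, R0 ≤ ‖z‖ → g0 z = 0)
    (hg0l : ∀ Ψ : ℂ → ℝ, Continuous Ψ → HasCompactSupport Ψ →
      Tendsto (fun N => ∫ z, g N z * Ψ z ∂(m N)) l (𝓝 (c * ∫ z, g0 z * Ψ z)))
    (hh : ∀ N, Measurable (h N)) (hC' : 0 ≤ C') (hhb : ∀ᶠ N in l, ∀ z, 0 ≤ h N z ∧ h N z ≤ C')
    (hh0 : Measurable h0) (hh0b : ∀ z, 0 ≤ h0 z ∧ h0 z ≤ C')
    (hh0l : ∀ Ψ : ℂ → ℝ, Continuous Ψ → HasCompactSupport Ψ →
      Tendsto (fun N => ∫ z, h N z * Ψ z ∂(m N)) l (𝓝 (c * ∫ z, h0 z * Ψ z)))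
    (hX : Continuous X) (hK : ∀ p, |X p| ≤ K) :
    Tendsto (fun N => TI X yA yB (g N) (h N) (bA N) (bB N) (m N)) l (𝓝 (c * TI X yA yB g0 h0 a0 b0 volume)) := by
  have hfin := hm.fin
  have hc := hm.pos
  have hC := hg.C0
  have hK0 : 0 ≤ K := by
    obtain ⟨a⟩ := nonempty_of_isProbabilityMeasure (a0 : Measure A)
    obtain ⟨b⟩ := nonempty_of_isProbabilityMeasure (b0 : Measure B)
    exact (abs_nonneg _).trans (hK (a, b, 0))
  rw [Metric.tendsto_nhds]
  intro ε hε
  obtain ⟨e, he⟩ : ∃ e : ℝ, e = ε / (4 * (K * C' + 1)) := ⟨_, rfl⟩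
  have he0 : 0 < e := by rw [he]; positivity
  have heK : K * C' * e ≤ ε / 4 := by
    rw [he]
    have h1 : 0 ≤ K * C' := mul_nonneg hK0 hC'
    rw [← mul_div_assoc, div_le_div_iff₀ (by positivity) (by norm_num)]
    nlinarith
  -- the mollifier
  obtain ⟨ρ₀, hρ₀, hmol⟩ := mol_L1 hm hg hg1 (M := 2) (ε := e) (by norm_num) he0
  obtain ⟨e', he'⟩ : ∃ e' : ℝ, e' = ε / (4 * (c * (K * C') + 1)) := ⟨_, rfl⟩
  have he'0 : 0 < e' := by rw [he']; positivity
  have he'K : c * (K * C' * e') ≤ ε / 4 := by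
    rw [he']
    have h1 : 0 ≤ c * (K * C') := mul_nonneg hc.le (mul_nonneg hK0 hC')
    rw [← mul_assoc, ← mul_div_assoc, div_le_div_iff₀ (by positivity) (by norm_num)]
    nlinarith
  have hj1 := bmp_lim hg0 hg0b hg0s
  have hj2 : ∀ᶠ j : ℕ in atTop, (1 : ℝ) / ((j : ℝ) + 1) < ρ₀ :=
    tendsto_one_div_add_atTop_nhds_zero_nat.eventually (gt_mem_nhds hρ₀)
  obtain ⟨j, hj3, hj4⟩ := ((hj1.eventually (gt_mem_nhds he'0)).and hj2).exists
  have hk := bmp_mk j
  obtain ⟨k, hkd⟩ : ∃ k, k = (bmp j).normed volume := ⟨_, rfl⟩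
  rw [← hkd] at hk hj3
  have hmol' := hmol k _ _ hk hj4.le (bmp_le j)
  -- the mollified functions
  obtain ⟨C2, hC2, hbd⟩ := mol_bd hm hg hk
  have hsupp := mol_supp (c := c) (m := m) hg hk
  have hmm : ∀ N, Measurable fun z => mol k c (m N) (g N) z := by
    intro N
    have := sf_of (μ := m N)
    have h2 : Measurable fun p : ℂ × ℂ => k (p.1 - p.2) * g N p.2 :=
      (hk.cont.measurable.comp (measurable_fst.sub measurable_snd)).mul ((hg.meas N).comp measurable_snd)
    exact ((h2.stronglyMeasurable.integral_prod_right' (ν := m N)).measurable).const_mul _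
  have hG : BF l (fun N z => mol k c (m N) (g N) z) C2 (R + 1 / ((j : ℝ) + 1)) :=
    ⟨hmm, hbd, hsupp, hC2, add_nonneg hg.R0 hk.pos.le⟩
  obtain ⟨hGu, hGL⟩ := lu_l (l := l) (f := fun N z => mol k c (m N) (g N) z) (fun ε hε => mol_equi hm hg hk hε)
    fun z => mol_lim hm hk hg0l z
  have key := ti_lu hA hB hm hyA hyB hinv hG hGu.continuous hGL hh hC' hhb hh0 hh0b hh0l hX hK
  -- the limit
  have hGv : Measurable fun z => ∫ v, k (z - v) * g0 v := hGu.continuous.measurable
  have hG0b : ∀ z, 0 ≤ ∫ v, k (z - v) * g0 v ∧ ∫ v, k (z - v) * g0 v ≤ C2 := fun z =>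
    ⟨ge_of_tendsto (hGL.tendsto z) (hbd.mono fun N hN => (hN z).1), le_of_tendsto (hGL.tendsto z) (hbd.mono fun N hN => (hN z).2)⟩
  have hG0s : ∀ z, R + 1 / ((j : ℝ) + 1) ≤ ‖z‖ → ∫ v, k (z - v) * g0 v = 0 := fun z hz =>
    tendsto_nhds_unique (hGL.tendsto z) (tendsto_const_nhds.congr' (hsupp.mono fun N hN => (hN z hz).symm))
  have d1 : |TI X yA yB (fun z => ∫ v, k (z - v) * g0 v) h0 a0 b0 volume - TI X yA yB g0 h0 a0 b0 volume| ≤ K * C' * e' := by
    refine (TI_diff (α := (a0 : Measure A)) (β := (b0 : Measure B)) (m := volume) (C' := C') hX hK hyA hyB hh0 (fun z => ?_) hGv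
      hg0 (M := max C2 C) (R := max (R + 1 / ((j : ℝ) + 1)) R0) ?_ ?_ ?_ ?_).trans ?_
    · rw [abs_of_nonneg (hh0b z).1]
      exact (hh0b z).2
    · intro z
      rw [abs_of_nonneg (hG0b z).1]
      exact (hG0b z).2.trans (le_max_left _ _)
    · intro z hz
      exact hG0s z ((le_max_left _ _).trans hz)
    · intro z
      rw [abs_of_nonneg (hg0b z).1]
      exact (hg0b z).2.trans (le_max_right _ _)
    · intro z hz
      exact hg0s z ((le_max_right _ _).trans hz)
    · exact mul_le_mul_of_nonneg_left hj3.le (mul_nonneg hK0 hC')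
  filter_upwards [Metric.tendsto_nhds.1 key (ε / 4) (by positivity), hmol', hbd, hsupp, hg.bd, hg.supp, hhb] with
    N h1 h2 h3 h4 h5 h6 h7
  have d2 : |TI X yA yB (g N) (h N) (bA N) (bB N) (m N) -
      TI X yA yB (fun z => mol k c (m N) (g N) z) (h N) (bA N) (bB N) (m N)| ≤ K * C' * e := by
    refine (TI_diff (α := (bA N : Measure A)) (β := (bB N : Measure B)) (m := m N) (C' := C') hX hK hyA hyB (hh N) (fun z => ?_)
      (hg.meas N) (hmm N) (M := max C2 C) (R := R + 1 / ((j : ℝ) + 1)) ?_ ?_ ?_ ?_).trans ?_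
    · rw [abs_of_nonneg (h7 z).1]
      exact (h7 z).2
    · intro z
      rw [abs_of_nonneg (h5 z).1]
      exact (h5 z).2.trans (le_max_right _ _)
    · intro z hz
      exact h6 z (by linarith [hk.pos])
    · intro z
      rw [abs_of_nonneg (h3 z).1]
      exact (h3 z).2.trans (le_max_left _ _)
    · intro z hz
      exact h4 z hz
    · refine mul_le_mul_of_nonneg_left ?_ (mul_nonneg hK0 hC')
      refine le_trans (le_of_eq ?_) h2
      exact integral_congr_ae (ae_of_all _ fun z => abs_sub_comm _ _)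
  rw [Real.dist_eq] at h1 ⊢
  have d3 : |c * TI X yA yB (fun z => ∫ v, k (z - v) * g0 v) h0 a0 b0 volume - c * TI X yA yB g0 h0 a0 b0 volume| ≤
      c * (K * C' * e') := by
    rw [← mul_sub, abs_mul, abs_of_pos hc]
    exact mul_le_mul_of_nonneg_left d1 hc.le
  rw [abs_le] at d2 d3
  rw [abs_lt] at h1 ⊢
  constructor <;> linarith [h1.1, h1.2, d2.1, d2.2, d3.1, d3.2]

end lim

end Pool.Agent.ROT.F3
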