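import Mathlib
import Pool.Agent.ROT.F3Lim

/-!
# F3, row L3 (31): densities which are functions of `loc` are closed under limits

* `Uac μ μn l D` : the measures `μn i` are uniformly absolutely continuous on `D`: `μn i A ≤ C ε * μ A + ε`, eventually;
* `good_approx` : a set which is the increasing union of sets with test functions in between;
* `good_pi` : convergence on a class of sets stable under intersections, of which countably many cover `D`, gives convergence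
  on every measurable subset of `D`;
* `tendsto_lint` : setwise convergence gives convergence of the integrals (along any filter, also an ultrafilter);
* `closure_q` : `P = (H o q) μ` if `(G i o q) μ -> P` on every measurable set;
* `den_set` : `Den` is closed under convergence on the measurable subsets of `D`;
* **`den_tv`** : convergence uniform on the measurable subsets of `D`;
* **`den_lim`** : test functions with support in the open set `D` and uniform absolute continuity on `D`;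
* **`den_lim_box`** : the same with products of three test functions;
* `den_iUnion` : increasing unions of the domains.
-/

set_option autoImplicit false

open MeasureTheory Filter Topology TopologicalSpace Set
open scoped ENNReal NNReal

namespace Pool.Agent.ROT.F3

section soft

variable {ι X Y : Type*} {l : Filter ι} [MeasurableSpace X] [MeasurableSpace Y]

/-- number of levels below `a` -/
lemma sum_lev (n : ℕ) (a : ℝ) (ha : a ≤ n) :
    (∑ k ∈ Finset.range n, if (k : ℝ) < a then (1 : ℝ≥0∞) else 0) = (⌈a⌉₊ : ℝ≥0∞) := by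
  have h1 : ⌈a⌉₊ ≤ n := Nat.ceil_le.2 ha
  rw [Finset.sum_boole]
  congr 1
  have : (Finset.range n).filter (fun k : ℕ => (k : ℝ) < a) = Finset.range ⌈a⌉₊ := by
    ext k
    simp only [Finset.mem_filter, Finset.mem_range]
    rw [← Nat.lt_ceil]
    constructor
    · exact fun h => h.2
    · exact fun h => ⟨lt_of_lt_of_le h h1, h⟩
  rw [this, Finset.card_range]

lemma lev_bounds (ν : Measure Y) {g : Y → ℝ} (hg : Measurable g) (h0 : ∀ y, 0 ≤ g y) (h1 : ∀ y, g y ≤ 1) (n : ℕ) (hn : 0 < n) :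
    ∫⁻ y, ENNReal.ofReal (g y) ∂ν ≤ (n : ℝ≥0∞)⁻¹ * ∑ k ∈ Finset.range n, ν {y | (k : ℝ) < n * g y} ∧
    (n : ℝ≥0∞)⁻¹ * ∑ k ∈ Finset.range n, ν {y | (k : ℝ) < n * g y} ≤ ∫⁻ y, ENNReal.ofReal (g y) ∂ν + (n : ℝ≥0∞)⁻¹ * ν univ := by
  have hn' : (n : ℝ≥0∞) ≠ 0 := by exact_mod_cast hn.ne'
  have hnt : (n : ℝ≥0∞) ≠ ∞ := ENNReal.natCast_ne_top n
  have hms : ∀ k : ℕ, MeasurableSet {y | (k : ℝ) < n * g y} := fun k =>
    measurableSet_lt measurable_const (hg.const_mul _)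
  have e : ∑ k ∈ Finset.range n, ν {y | (k : ℝ) < n * g y} = ∫⁻ y, (⌈(n : ℝ) * g y⌉₊ : ℝ≥0∞) ∂ν := by
    have e1 : ∀ y, (⌈(n : ℝ) * g y⌉₊ : ℝ≥0∞) = ∑ k ∈ Finset.range n, {y | (k : ℝ) < n * g y}.indicator 1 y := fun y => by
      rw [← sum_lev n _ (by nlinarith [h1 y, (Nat.cast_nonneg n : (0 : ℝ) ≤ n)])]
      refine Finset.sum_congr rfl fun k _ => ?_
      by_cases hk : (k : ℝ) < n * g y
      · rw [if_pos hk, indicator_of_mem (by exact hk)]
        rfl
      · rw [if_neg hk, indicator_of_notMem (by exact hk)]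
    simp only [e1]
    rw [lintegral_finsetSum _ fun k _ => measurable_one.indicator (hms k)]
    refine Finset.sum_congr rfl fun k _ => ?_
    rw [lintegral_indicator_one (hms k)]
  have e2 : ∀ y, (n : ℝ≥0∞) * ENNReal.ofReal (g y) = ENNReal.ofReal (n * g y) := fun y => by
    rw [ENNReal.ofReal_mul (Nat.cast_nonneg n), ENNReal.ofReal_natCast]
  have e3 : ∫⁻ y, ENNReal.ofReal (g y) ∂ν = (n : ℝ≥0∞)⁻¹ * ∫⁻ y, ENNReal.ofReal (n * g y) ∂ν := by
    simp only [← e2]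
    rw [lintegral_const_mul _ hg.ennreal_ofReal, ← mul_assoc, ENNReal.inv_mul_cancel hn' hnt, one_mul]
  rw [e, e3]
  constructor
  · gcongr with y
    rw [← ENNReal.ofReal_natCast]
    exact ENNReal.ofReal_le_ofReal (Nat.le_ceil _)
  · rw [← mul_add]
    gcongr
    have e4 : ν univ = ∫⁻ _, 1 ∂ν := by simp
    rw [e4, ← lintegral_add_left (hg.const_mul _).ennreal_ofReal]
    refine lintegral_mono fun y => ?_
    have h2 : 0 ≤ (n : ℝ) * g y := mul_nonneg (Nat.cast_nonneg n) (h0 y)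
    rw [← ENNReal.ofReal_one, ← ENNReal.ofReal_add h2 zero_le_one, ← ENNReal.ofReal_natCast]
    exact ENNReal.ofReal_le_ofReal (Nat.ceil_lt_add_one h2).le

/-- setwise convergence gives convergence of the integrals of the functions with values in `[0, 1]` (any filter) -/
theorem tendsto_lint {κn : ι → Measure Y} {κ : Measure Y} [IsFiniteMeasure κ]
    (h : ∀ B, MeasurableSet B → Tendsto (fun i => κn i B) l (𝓝 (κ B))) {g : Y → ℝ} (hg : Measurable g)
    (h0 : ∀ y, 0 ≤ g y) (h1 : ∀ y, g y ≤ 1) :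
    Tendsto (fun i => ∫⁻ y, ENNReal.ofReal (g y) ∂κn i) l (𝓝 (∫⁻ y, ENNReal.ofReal (g y) ∂κ)) := by
  have hfin : ∫⁻ y, ENNReal.ofReal (g y) ∂κ ≠ ∞ := by
    refine ne_top_of_le_ne_top (measure_ne_top κ univ) ?_
    calc ∫⁻ y, ENNReal.ofReal (g y) ∂κ ≤ ∫⁻ _, 1 ∂κ := lintegral_mono fun y => by
          rw [← ENNReal.ofReal_one]
          exact ENNReal.ofReal_le_ofReal (h1 y)
      _ = κ univ := by simp
  have hms : ∀ n k : ℕ, MeasurableSet {y | (k : ℝ) < n * g y} := fun n k =>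
    measurableSet_lt measurable_const (hg.const_mul _)
  rw [ENNReal.tendsto_nhds hfin]
  intro ε hε
  obtain ⟨δ, hδ, hδε⟩ : ∃ δ : ℝ≥0∞, δ ≠ 0 ∧ δ + δ ≤ ε :=
    ⟨ε / 2, (ENNReal.div_pos hε.ne' (by norm_num)).ne', (ENNReal.add_halves ε).le⟩
  have hδ' : (0 : ℝ≥0∞) < δ := pos_iff_ne_zero.2 hδ
  -- the number of levels
  obtain ⟨n, hn, hnδ⟩ : ∃ n : ℕ, 0 < n ∧ (n : ℝ≥0∞)⁻¹ * (κ univ + 1) ≤ δ := by
    have t1 : Tendsto (fun n : ℕ => (n : ℝ≥0∞)⁻¹ * (κ univ + 1)) atTop (𝓝 0) := by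
      have := ENNReal.Tendsto.mul_const (b := κ univ + 1) ENNReal.tendsto_inv_nat_nhds_zero
        (Or.inr (ENNReal.add_ne_top.2 ⟨measure_ne_top κ univ, ENNReal.one_ne_top⟩))
      rwa [zero_mul] at this
    obtain ⟨n, h3, h4⟩ := ((t1.eventually_le_const hδ').and (eventually_gt_atTop 0)).exists
    exact ⟨n, h4, h3⟩
  have hT : Tendsto (fun i => (n : ℝ≥0∞)⁻¹ * ∑ k ∈ Finset.range n, κn i {y | (k : ℝ) < n * g y}) l
      (𝓝 ((n : ℝ≥0∞)⁻¹ * ∑ k ∈ Finset.range n, κ {y | (k : ℝ) < n * g y})) := by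
    refine ENNReal.Tendsto.const_mul (tendsto_finsetSum _ fun k _ => h _ (hms n k)) (Or.inr ?_)
    exact ENNReal.inv_ne_top.2 (by exact_mod_cast hn.ne')
  have hTf : (n : ℝ≥0∞)⁻¹ * ∑ k ∈ Finset.range n, κ {y | (k : ℝ) < n * g y} ≠ ∞ :=
    ENNReal.mul_ne_top (ENNReal.inv_ne_top.2 (by exact_mod_cast hn.ne'))
      (ENNReal.sum_ne_top.2 fun k _ => measure_ne_top κ _)
  have hb : ∀ᶠ i in l, κn i univ ≤ κ univ + 1 :=
    (h univ MeasurableSet.univ).eventually_le_const (ENNReal.lt_add_right (measure_ne_top κ univ) one_ne_zero)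
  filter_upwards [(ENNReal.tendsto_nhds hTf).1 hT δ hδ', hb] with i hi hi2
  obtain ⟨a1, a2⟩ := lev_bounds (κn i) hg h0 h1 n hn
  obtain ⟨b1, b2⟩ := lev_bounds κ hg h0 h1 n hn
  constructor
  · rw [tsub_le_iff_right]
    calc ∫⁻ y, ENNReal.ofReal (g y) ∂κ ≤ _ := b1
      _ ≤ (n : ℝ≥0∞)⁻¹ * ∑ k ∈ Finset.range n, κn i {y | (k : ℝ) < n * g y} + δ := tsub_le_iff_right.1 hi.1
      _ ≤ ∫⁻ y, ENNReal.ofReal (g y) ∂κn i + (n : ℝ≥0∞)⁻¹ * κn i univ + δ := by gcongr
      _ ≤ ∫⁻ y, ENNReal.ofReal (g y) ∂κn i + δ + δ := by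
        gcongr
        exact (by gcongr : (n : ℝ≥0∞)⁻¹ * κn i univ ≤ (n : ℝ≥0∞)⁻¹ * (κ univ + 1)).trans hnδ
      _ ≤ ∫⁻ y, ENNReal.ofReal (g y) ∂κn i + ε := by
        rw [add_assoc]
        gcongr
  · calc ∫⁻ y, ENNReal.ofReal (g y) ∂κn i ≤ _ := a1
      _ ≤ (n : ℝ≥0∞)⁻¹ * ∑ k ∈ Finset.range n, κ {y | (k : ℝ) < n * g y} + δ := hi.2
      _ ≤ ∫⁻ y, ENNReal.ofReal (g y) ∂κ + (n : ℝ≥0∞)⁻¹ * κ univ + δ := by gcongr
      _ ≤ ∫⁻ y, ENNReal.ofReal (g y) ∂κ + δ + δ := by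
        gcongr
        exact (by gcongr; exact le_self_add : (n : ℝ≥0∞)⁻¹ * κ univ ≤ (n : ℝ≥0∞)⁻¹ * (κ univ + 1)).trans hnδ
      _ ≤ ∫⁻ y, ENNReal.ofReal (g y) ∂κ + ε := by
        rw [add_assoc]
        gcongr

/-- **densities which are functions of `q` are closed under setwise limits** -/
theorem closure_q [l.NeBot] {μ : Measure X} [IsFiniteMeasure μ] {q : X → Y}
    (hq : Measurable q) {G : ι → Y → ℝ≥0∞} (hG : ∀ i, Measurable (G i)) {P : Measure X}
    [IsFiniteMeasure P]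
    (h : ∀ A, MeasurableSet A → Tendsto (fun i => ∫⁻ x in A, G i (q x) ∂μ) l (𝓝 (P A))) :
    ∃ H : Y → ℝ≥0∞, Measurable H ∧ P = μ.withDensity fun x => H (q x) := by
  -- the images on `Y`
  have hm : ∀ (A : Set X) (F : Y → ℝ≥0∞), Measurable F →
      ∫⁻ x in A, F (q x) ∂μ = ∫⁻ y, F y ∂((μ.restrict A).map q) := fun A F hF =>
    (lintegral_map hF hq).symm
  obtain ⟨κ, hκ⟩ : ∃ κ, κ = P.map q := ⟨_, rfl⟩
  obtain ⟨m, hmm⟩ : ∃ m, m = μ.map q := ⟨_, rfl⟩
  have : IsFiniteMeasure κ := by rw [hκ]; exact Measure.isFiniteMeasure_map P q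
  have : IsFiniteMeasure m := by rw [hmm]; exact Measure.isFiniteMeasure_map μ q
  have hκn : ∀ B, MeasurableSet B → Tendsto (fun i => (m.withDensity (G i)) B) l (𝓝 (κ B)) := by
    intro B hB
    have h1 := h (q ⁻¹' B) (hq hB)
    rw [hκ, Measure.map_apply hq hB]
    refine h1.congr fun i => ?_
    rw [withDensity_apply _ hB, hmm, ← lintegral_indicator hB, lintegral_map ((hG i).indicator hB) hq,
      ← lintegral_indicator (hq hB)]
    rfl
  have hac : κ ≪ m := by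
    refine Measure.AbsolutelyContinuous.mk fun B hB h0 => ?_
    have h1 := hκn B hB
    have h2 : ∀ i, (m.withDensity (G i)) B = 0 := fun i =>
      withDensity_absolutelyContinuous m (G i) h0
    simp only [h2] at h1
    exact (tendsto_nhds_unique h1 tendsto_const_nhds).symm ▸ rfl
  refine ⟨κ.rnDeriv m, Measure.measurable_rnDeriv κ m, ?_⟩
  have hκm : m.withDensity (κ.rnDeriv m) = κ := Measure.withDensity_rnDeriv_eq κ m hac
  refine Measure.ext fun A hA => ?_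
  rw [withDensity_apply _ hA, hm A _ (Measure.measurable_rnDeriv κ m)]
  -- conditional probability of `A`
  obtain ⟨a, ha⟩ : ∃ a, a = (μ.restrict A).map q := ⟨_, rfl⟩
  have : IsFiniteMeasure a := by rw [ha]; exact Measure.isFiniteMeasure_map _ q
  have ham : a ≤ m := by
    rw [ha, hmm]
    exact Measure.map_mono Measure.restrict_le_self hq
  obtain ⟨g, hg, hg0, hg1, hga⟩ : ∃ g : Y → ℝ, Measurable g ∧ (∀ y, 0 ≤ g y) ∧ (∀ y, g y ≤ 1) ∧
      m.withDensity (fun y => ENNReal.ofReal (g y)) = a := by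
    refine ⟨fun y => min (a.rnDeriv m y).toReal 1,
      (Measure.measurable_rnDeriv a m).ennreal_toReal.min measurable_const,
      fun y => le_min ENNReal.toReal_nonneg zero_le_one, fun y => min_le_right _ _, ?_⟩
    have h1 : m.withDensity (a.rnDeriv m) = a :=
      Measure.withDensity_rnDeriv_eq a m (Measure.absolutelyContinuous_of_le ham)
    have h2 : a.rnDeriv m ≤ᵐ[m] fun _ => 1 := by
      refine ae_le_of_forall_setLIntegral_le_of_sigmaFinite (Measure.measurable_rnDeriv a m)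
        fun s hs _ => ?_
      rw [← withDensity_apply _ hs, h1, lintegral_const, one_mul, Measure.restrict_apply MeasurableSet.univ,
        univ_inter]
      exact ham s
    conv_rhs => rw [← h1]
    refine withDensity_congr_ae (h2.mono fun y hy => ?_)
    have h3 : a.rnDeriv m y ≠ ∞ := ne_top_of_le_ne_top ENNReal.one_ne_top hy
    have h4 : (a.rnDeriv m y).toReal ≤ 1 := by
      rw [← ENNReal.toReal_one]
      exact ENNReal.toReal_mono ENNReal.one_ne_top hy
    show ENNReal.ofReal (min (a.rnDeriv m y).toReal 1) = a.rnDeriv m y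
    rw [min_eq_left h4, ENNReal.ofReal_toReal h3]
  have swap : ∀ F : Y → ℝ≥0∞, Measurable F →
      ∫⁻ y, ENNReal.ofReal (g y) ∂(m.withDensity F) = ∫⁻ y, F y ∂a := fun F hF => by
    rw [← hga, lintegral_withDensity_eq_lintegral_mul _ hF hg.ennreal_ofReal,
      lintegral_withDensity_eq_lintegral_mul _ hg.ennreal_ofReal hF]
    refine lintegral_congr fun y => ?_
    exact mul_comm _ _
  have t1 := tendsto_lint hκn hg hg0 hg1
  have t2 : Tendsto (fun i => ∫⁻ x in A, G i (q x) ∂μ) l (𝓝 (∫⁻ y, ENNReal.ofReal (g y) ∂κ)) := by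
    refine t1.congr fun i => ?_
    rw [swap _ (hG i), hm A _ (hG i), ha]
  rw [tendsto_nhds_unique (h A hA) t2, ← ha, ← swap _ (Measure.measurable_rnDeriv κ m), hκm]

/-- uniform absolute continuity on `D` -/
def Uac (μ : Measure X) (μn : ι → Measure X) (l : Filter ι) (D : Set X) : Prop :=
  ∀ ε : ℝ≥0∞, ε ≠ 0 → ∃ C : ℝ≥0∞, C ≠ ∞ ∧ ∀ᶠ i in l, ∀ A, MeasurableSet A → A ⊆ D →
    μn i A ≤ C * μ A + ε

/-- a set approximated from inside -/
theorem good_approx {μ P : Measure X} {μn : ι → Measure X} {D : Set X} [IsFiniteMeasure P]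
    (hu : Uac μ μn l D) {O : Set X} {Ok : ℕ → Set X} {w : ℕ → X → ℝ≥0∞} (hOD : O ⊆ D)
    (hμ : μ O ≠ ∞) (hOm : MeasurableSet O) (hOk : ∀ k, MeasurableSet (Ok k)) (hmono : Monotone Ok)
    (hU : ⋃ k, Ok k = O) (hw1 : ∀ k x, (Ok k).indicator 1 x ≤ w k x)
    (hw2 : ∀ k x, w k x ≤ O.indicator 1 x)
    (ht : ∀ k, Tendsto (fun i => ∫⁻ x, w k x ∂μn i) l (𝓝 (∫⁻ x, w k x ∂P))) :
    Tendsto (fun i => μn i O) l (𝓝 (P O)) := by
  have hsub : ∀ k, Ok k ⊆ O := fun k => by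
    rw [← hU]
    exact subset_iUnion _ k
  have b1 : ∀ (ν : Measure X) k, ν (Ok k) ≤ ∫⁻ x, w k x ∂ν := fun ν k => by
    rw [← lintegral_indicator_one (hOk k)]
    exact lintegral_mono (hw1 k)
  have b2 : ∀ (ν : Measure X) k, ∫⁻ x, w k x ∂ν ≤ ν O := fun ν k => by
    rw [← lintegral_indicator_one hOm]
    exact lintegral_mono (hw2 k)
  have tail : ∀ (ν : Measure X), ν O ≠ ∞ → Tendsto (fun k => ν (O \ Ok k)) atTop (𝓝 0) := by
    intro ν hν
    have h1 : ⋂ k, O \ Ok k = ∅ := by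
      rw [← sdiff_iUnion, hU, sdiff_self]
    rw [← measure_empty (μ := ν), ← h1]
    exact tendsto_measure_iInter_atTop (fun k => (hOm.diff (hOk k)).nullMeasurableSet)
      (fun i j hij => sdiff_subset_sdiff_right (hmono hij)) ⟨0, ne_top_of_le_ne_top hν (measure_mono sdiff_subset)⟩
  rw [ENNReal.tendsto_nhds (measure_ne_top P O)]
  intro ε hε
  obtain ⟨δ, hδ, hδε⟩ : ∃ δ : ℝ≥0∞, δ ≠ 0 ∧ δ + δ + δ ≤ ε := by
    refine ⟨ε / 3, (ENNReal.div_pos hε.ne' (by norm_num)).ne', le_of_eq ?_⟩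
    rw [← two_mul, ← add_one_mul, show (2 : ℝ≥0∞) + 1 = 3 by norm_num]
    exact ENNReal.mul_div_cancel (by norm_num) (by norm_num)
  obtain ⟨C, hC, hC2⟩ := hu δ hδ
  have t1 : Tendsto (fun k => C * μ (O \ Ok k)) atTop (𝓝 0) := by
    have := ENNReal.Tendsto.const_mul (tail μ hμ) (Or.inr hC)
    rwa [mul_zero] at this
  have t2 := tail P (measure_ne_top P O)
  have hδ' : (0 : ℝ≥0∞) < δ := pos_iff_ne_zero.2 hδ
  obtain ⟨k, hk1, hk2⟩ := ((t1.eventually_le_const hδ').and (t2.eventually_le_const hδ')).exists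
  have t3 := (ENNReal.tendsto_nhds (ne_top_of_le_ne_top (measure_ne_top P O) (b2 P k))).1 (ht k) δ hδ'
  have split : ∀ ν : Measure X, ν O = ν (Ok k) + ν (O \ Ok k) := fun ν => by
    rw [← measure_inter_add_sdiff O (hOk k), inter_eq_self_of_subset_right (hsub k)]
  filter_upwards [t3, hC2] with i hi hi2
  have h3 := hi2 (O \ Ok k) (hOm.diff (hOk k)) (sdiff_subset.trans hOD)
  constructor
  · rw [tsub_le_iff_right]
    calc P O = P (Ok k) + P (O \ Ok k) := split P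
      _ ≤ ∫⁻ x, w k x ∂P + δ := add_le_add (b1 P k) hk2
      _ ≤ (∫⁻ x, w k x ∂μn i + δ) + δ := by
        gcongr
        exact tsub_le_iff_right.1 hi.1
      _ ≤ μn i O + (δ + δ + δ) := by
        have := b2 (μn i) k
        calc ∫⁻ x, w k x ∂μn i + δ + δ ≤ μn i O + δ + δ := by gcongr
          _ = μn i O + (δ + δ) := by rw [add_assoc]
          _ ≤ _ := by
            gcongr
            exact le_self_add
      _ ≤ μn i O + ε := by gcongr
  · calc μn i O = μn i (Ok k) + μn i (O \ Ok k) := split _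
      _ ≤ ∫⁻ x, w k x ∂μn i + (C * μ (O \ Ok k) + δ) := add_le_add (b1 _ k) h3
      _ ≤ (∫⁻ x, w k x ∂P + δ) + (δ + δ) := by
        gcongr
        exact hi.2
      _ ≤ (P O + δ) + (δ + δ) := by
        gcongr
        exact b2 P k
      _ = P O + (δ + δ + δ) := by ring
      _ ≤ P O + ε := by gcongr

/-- disjoint unions -/
theorem good_iUnion {μ P : Measure X} {μn : ι → Measure X} {D : Set X} [IsFiniteMeasure P]
    (hu : Uac μ μn l D) (hD : μ D ≠ ∞) {A : ℕ → Set X} (hA : ∀ k, MeasurableSet (A k))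
    (hAD : ∀ k, A k ⊆ D) (hd : Pairwise (Function.onFun Disjoint A))
    (hg : ∀ k, Tendsto (fun i => μn i (A k)) l (𝓝 (P (A k)))) :
    Tendsto (fun i => μn i (⋃ k, A k)) l (𝓝 (P (⋃ k, A k))) := by
  have hsub : ⋃ k, A k ⊆ D := iUnion_subset hAD
  have hmeas : ∀ k : ℕ, MeasurableSet (⋃ j ∈ Finset.range k, A j) := fun k =>
    Finset.measurableSet_biUnion _ fun j _ => hA j
  refine good_approx hu (Ok := fun k => ⋃ j ∈ Finset.range k, A j)
    (w := fun k => (⋃ j ∈ Finset.range k, A j).indicator 1) hsub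
    (ne_top_of_le_ne_top hD (measure_mono hsub)) (MeasurableSet.iUnion hA) hmeas ?_ ?_
    (fun k x => le_rfl) (fun k x => ?_) fun k => ?_
  · intro i j hij x hx
    simp only [mem_iUnion, Finset.mem_range, exists_prop] at hx ⊢
    obtain ⟨m, hm, h⟩ := hx
    exact ⟨m, lt_of_lt_of_le hm hij, h⟩
  · ext x
    simp only [mem_iUnion, Finset.mem_range, exists_prop]
    exact ⟨fun ⟨k, j, _, h⟩ => ⟨j, h⟩, fun ⟨j, h⟩ => ⟨j + 1, j, Nat.lt_succ_self j, h⟩⟩
  · refine indicator_le_indicator_of_subset (fun y hy => ?_) (fun _ => zero_le) x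
    simp only [mem_iUnion, exists_prop] at hy ⊢
    obtain ⟨j, _, h⟩ := hy
    exact ⟨j, h⟩
  · have e : ∀ ν : Measure X, ∫⁻ x, (⋃ j ∈ Finset.range k, A j).indicator 1 x ∂ν =
        ∑ j ∈ Finset.range k, ν (A j) := fun ν => by
      rw [lintegral_indicator_one (hmeas k), measure_biUnion_finset (fun a _ b _ hab => hd hab)
        fun j _ => hA j]
    simp only [e]
    exact tendsto_finsetSum _ fun j _ => hg j

/-- **convergence on all measurable subsets of `D`** -/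
theorem good_pi {μ P : Measure X} {μn : ι → Measure X} {D : Set X} [IsFiniteMeasure P]
    (hu : Uac μ μn l D) (hD : μ D ≠ ∞) {𝒞 : Set (Set X)} (hgen : ‹MeasurableSpace X› = MeasurableSpace.generateFrom 𝒞)
    (hpi : IsPiSystem 𝒞) {S : ℕ → Set X} (hS : ∀ j, S j ∈ 𝒞) (hSD : ∀ j, S j ⊆ D) (hcov : D ⊆ ⋃ j, S j)
    (hg : ∀ A ∈ 𝒞, ∀ j, Tendsto (fun i => μn i (A ∩ S j)) l (𝓝 (P (A ∩ S j)))) :
    ∀ A, MeasurableSet A → A ⊆ D → Tendsto (fun i => μn i A) l (𝓝 (P A)) := by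
  have hSm : ∀ j, MeasurableSet (S j) := fun j => by
    rw [hgen]
    exact MeasurableSpace.measurableSet_generateFrom (hS j)
  have hfin : ∀ᶠ i in l, μn i D ≠ ∞ := by
    obtain ⟨C, hC, h1⟩ := hu 1 one_ne_zero
    filter_upwards [h1] with i hi
    have hDm : MeasurableSet (⋃ j, S j) := MeasurableSet.iUnion hSm
    have e : D = ⋃ j, S j := subset_antisymm hcov (iUnion_subset hSD)
    have := hi D (by rw [e]; exact hDm) subset_rfl
    exact ne_top_of_le_ne_top (ENNReal.add_ne_top.2 ⟨ENNReal.mul_ne_top hC hD, ENNReal.one_ne_top⟩) this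
  -- inside one set of the cover
  have h1 : ∀ j, ∀ A, MeasurableSet A → Tendsto (fun i => μn i (A ∩ S j)) l (𝓝 (P (A ∩ S j))) := by
    intro j A hA
    induction A, hA using MeasurableSpace.induction_on_inter hgen hpi with
    | empty =>
      simp only [empty_inter, measure_empty]
      exact tendsto_const_nhds
    | basic A hA => exact hg A hA j
    | compl A hA ih =>
      have h2 : Tendsto (fun i => μn i (S j)) l (𝓝 (P (S j))) := by
        have := hg (S j) (hS j) j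
        rwa [inter_self] at this
      have e : ∀ ν : Measure X, ν (S j) ≠ ∞ → ν (Aᶜ ∩ S j) = ν (S j) - ν (A ∩ S j) := fun ν hν => by
        rw [show Aᶜ ∩ S j = S j \ (A ∩ S j) by ext x; simp only [mem_inter_iff, mem_compl_iff, Set.mem_sdiff]; tauto]
        exact measure_sdiff inter_subset_right (hA.inter (hSm j)).nullMeasurableSet
          (ne_top_of_le_ne_top hν (measure_mono inter_subset_right))
      rw [e P (measure_ne_top P _)]
      refine (ENNReal.Tendsto.sub h2 ih (Or.inl (measure_ne_top P _))).congr' ?_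
      filter_upwards [hfin] with i hi
      exact (e _ (ne_top_of_le_ne_top hi (measure_mono (hSD j)))).symm
    | iUnion A hd hA ih =>
      simp only [iUnion_inter]
      refine good_iUnion hu hD (fun k => (hA k).inter (hSm j)) (fun k => inter_subset_right.trans (hSD j))
        (fun a b hab => (hd hab).mono inter_subset_left inter_subset_left) ih
  intro A hA hAD
  have e : A = ⋃ j, A ∩ disjointed S j := by
    rw [← inter_iUnion, iUnion_disjointed]
    exact (inter_eq_self_of_subset_left (hAD.trans hcov)).symm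
  have hdm : ∀ j, MeasurableSet (disjointed S j) := fun j => MeasurableSet.disjointed hSm j
  rw [e]
  refine good_iUnion hu hD (fun k => hA.inter (hdm k)) (fun k => inter_subset_left.trans hAD)
    (fun a b hab => ((disjoint_disjointed S) hab).mono inter_subset_right inter_subset_right) fun k => ?_
  have e2 : A ∩ disjointed S k = (A ∩ disjointed S k) ∩ S k :=
    (inter_eq_self_of_subset_left (inter_subset_right.trans (disjointed_subset S k))).symm
  rw [e2]
  exact h1 k _ (hA.inter (hdm k))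

end soft

/-! ### `Den` is closed under limits -/

section den

variable {ι K X L : Type*} {l : Filter ι} [MeasurableSpace K] [MeasurableSpace X] [MeasurableSpace L]

/-- the image of `Φ P` on the second factor -/
noncomputable def imgD (P : Measure (K × X)) (Φ : K → ℝ≥0∞) : Measure X := (P.withDensity fun x => Φ x.1).map Prod.snd

lemma imgD_apply (P : Measure (K × X)) (Φ : K → ℝ≥0∞) {S : Set X} (hS : MeasurableSet S) :
    imgD P Φ S = ∫⁻ x in Prod.snd ⁻¹' S, Φ x.1 ∂P := by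
  rw [imgD, Measure.map_apply measurable_snd hS, withDensity_apply _ (measurable_snd hS)]

lemma imgD_lintegral (P : Measure (K × X)) {Φ : K → ℝ≥0∞} (hΦ : Measurable Φ) {f : X → ℝ≥0∞} (hf : Measurable f) :
    ∫⁻ x, f x ∂(imgD P Φ) = ∫⁻ x, Φ x.1 * f x.2 ∂P := by
  rw [imgD, lintegral_map hf measurable_snd]
  exact lintegral_withDensity_eq_lintegral_mul _ (hΦ.comp measurable_fst) (hf.comp measurable_snd)

lemma imgD_finite (P : Measure (K × X)) [IsFiniteMeasure P] {Φ : K → ℝ≥0∞} (h1 : ∀ k, Φ k ≤ 1) :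
    IsFiniteMeasure (imgD P Φ) := by
  refine ⟨?_⟩
  rw [imgD_apply P Φ MeasurableSet.univ, preimage_univ, Measure.restrict_univ]
  refine lt_of_le_of_lt ?_ (measure_lt_top P univ)
  calc ∫⁻ x, Φ x.1 ∂P ≤ ∫⁻ _, 1 ∂P := lintegral_mono fun x => h1 x.1
    _ = P univ := by simp

variable {Pj : ι → Measure (K × X)} {P0 : Measure (K × X)} {μ : Measure X} {D : Set X} {loc : X → L} {Φ : K → ℝ≥0∞}

/-- `Den` is closed under convergence on the measurable subsets of `D` -/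
theorem den_set [l.NeBot] [IsFiniteMeasure P0] (hl : Measurable loc) (hD : MeasurableSet D)
    (hμ : μ D ≠ ∞) (h1 : ∀ k, Φ k ≤ 1) (h : ∀ᶠ j in l, Den (Pj j) μ D loc Φ)
    (ht : ∀ S : Set X, MeasurableSet S → S ⊆ D → Tendsto (fun j => ∫⁻ x in Prod.snd ⁻¹' S, Φ x.1 ∂(Pj j)) l
      (𝓝 (∫⁻ x in Prod.snd ⁻¹' S, Φ x.1 ∂P0))) : Den P0 μ D loc Φ := by
  have ex : ∀ j, ∃ t : L → ℝ≥0∞, Measurable t ∧ (Den (Pj j) μ D loc Φ → ∀ S : Set X, MeasurableSet S → S ⊆ D →
      ∫⁻ x in Prod.snd ⁻¹' S, Φ x.1 ∂(Pj j) = ∫⁻ x in S, t (loc x) ∂μ) := by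
    intro j
    by_cases hj : Den (Pj j) μ D loc Φ
    · obtain ⟨t, ht, h⟩ := hj
      exact ⟨t, ht, fun _ => h⟩
    · exact ⟨fun _ => 0, measurable_const, fun h => absurd h hj⟩
  choose t htm htd using ex
  have i1 : IsFiniteMeasure (μ.restrict D) := ⟨by
    rw [Measure.restrict_apply MeasurableSet.univ, univ_inter]
    exact lt_top_iff_ne_top.2 hμ⟩
  have i2 : IsFiniteMeasure (imgD P0 Φ) := imgD_finite P0 h1
  obtain ⟨H, hH, e⟩ := closure_q (μ := μ.restrict D) (P := (imgD P0 Φ).restrict D) hl htm (l := l) fun A hA => by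
    rw [Measure.restrict_apply hA, imgD_apply _ _ (hA.inter hD)]
    refine (ht (A ∩ D) (hA.inter hD) inter_subset_right).congr' ?_
    filter_upwards [h] with j hj
    rw [htd j hj (A ∩ D) (hA.inter hD) inter_subset_right, Measure.restrict_restrict hA]
  refine ⟨H, hH, fun S hS hSD => ?_⟩
  have e2 := congrArg (fun ν => ν S) e
  rw [Measure.restrict_apply hS, withDensity_apply _ hS, Measure.restrict_restrict hS,
    inter_eq_self_of_subset_left hSD, imgD_apply _ _ hS] at e2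
  exact e2

/-- **limits in total variation on `D`** -/
theorem den_tv [l.NeBot] [IsFiniteMeasure P0] (hl : Measurable loc) (hD : MeasurableSet D)
    (hμ : μ D ≠ ∞) (h1 : ∀ k, Φ k ≤ 1) (h : ∀ᶠ j in l, Den (Pj j) μ D loc Φ)
    (ht : ∀ ε : ℝ≥0∞, ε ≠ 0 → ∀ᶠ j in l, ∀ S : Set X, MeasurableSet S → S ⊆ D →
      ∫⁻ x in Prod.snd ⁻¹' S, Φ x.1 ∂(Pj j) ≤ ∫⁻ x in Prod.snd ⁻¹' S, Φ x.1 ∂P0 + ε ∧
      ∫⁻ x in Prod.snd ⁻¹' S, Φ x.1 ∂P0 ≤ ∫⁻ x in Prod.snd ⁻¹' S, Φ x.1 ∂(Pj j) + ε) : Den P0 μ D loc Φ := by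
  refine den_set hl hD hμ h1 h fun S hS hSD => ?_
  have i2 : IsFiniteMeasure (imgD P0 Φ) := imgD_finite P0 h1
  have hne : ∫⁻ x in Prod.snd ⁻¹' S, Φ x.1 ∂P0 ≠ ∞ := by
    rw [← imgD_apply _ _ hS]
    exact measure_ne_top _ _
  rw [ENNReal.tendsto_nhds hne]
  intro ε hε
  filter_upwards [ht ε hε.ne'] with j hj
  exact ⟨tsub_le_iff_right.2 (hj S hS hSD).2, (hj S hS hSD).1⟩

/-- the general form: convergence on a class of sets -/
theorem den_pi [l.NeBot] [IsFiniteMeasure P0] (hl : Measurable loc) (hD : MeasurableSet D)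
    (hμ : μ D ≠ ∞) (h1 : ∀ k, Φ k ≤ 1) (h : ∀ᶠ j in l, Den (Pj j) μ D loc Φ)
    (hu : ∀ ε : ℝ≥0∞, ε ≠ 0 → ∃ C : ℝ≥0∞, C ≠ ∞ ∧ ∀ᶠ j in l, ∀ S : Set X, MeasurableSet S → S ⊆ D →
      ∫⁻ x in Prod.snd ⁻¹' S, Φ x.1 ∂(Pj j) ≤ C * μ S + ε)
    {𝒞 : Set (Set X)} (hgen : ‹MeasurableSpace X› = MeasurableSpace.generateFrom 𝒞)
    (hpi : IsPiSystem 𝒞) {S : ℕ → Set X} (hS : ∀ j, S j ∈ 𝒞) (hSD : ∀ j, S j ⊆ D) (hcov : D ⊆ ⋃ j, S j)
    (hg : ∀ A ∈ 𝒞, A ⊆ D → ∃ (Ok : ℕ → Set X) (w : ℕ → X → ℝ≥0∞), (∀ k, MeasurableSet (Ok k)) ∧ Monotone Ok ∧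
      ⋃ k, Ok k = A ∧ (∀ k, Measurable (w k)) ∧ (∀ k x, (Ok k).indicator 1 x ≤ w k x) ∧ (∀ k x, w k x ≤ A.indicator 1 x) ∧
      ∀ k, Tendsto (fun j => ∫⁻ x, Φ x.1 * w k x.2 ∂(Pj j)) l (𝓝 (∫⁻ x, Φ x.1 * w k x.2 ∂P0))) (hΦ : Measurable Φ) :
    Den P0 μ D loc Φ := by
  have i2 : IsFiniteMeasure (imgD P0 Φ) := imgD_finite P0 h1
  have hu2 : Uac μ (fun j => imgD (Pj j) Φ) l D := by
    intro ε hε
    obtain ⟨C, hC, h2⟩ := hu ε hε
    refine ⟨C, hC, h2.mono fun j hj A hA hAD => ?_⟩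
    rw [imgD_apply _ _ hA]
    exact hj A hA hAD
  have h𝒞 : ∀ A ∈ 𝒞, MeasurableSet A := fun A hA => by
    rw [hgen]
    exact MeasurableSpace.measurableSet_generateFrom hA
  have key : ∀ A ∈ 𝒞, A ⊆ D → Tendsto (fun j => imgD (Pj j) Φ A) l (𝓝 (imgD P0 Φ A)) := by
    intro A hA hAD
    obtain ⟨Ok, w, a1, a2, a3, a4, a5, a6, a7⟩ := hg A hA hAD
    refine good_approx (w := w) hu2 hAD (ne_top_of_le_ne_top hμ (measure_mono hAD)) (h𝒞 A hA) a1 a2 a3 a5 a6 fun k => ?_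
    simp only [imgD_lintegral _ hΦ (a4 k)]
    exact a7 k
  refine den_set hl hD hμ h1 h fun A hA hAD => ?_
  simp only [← imgD_apply _ _ hA]
  refine good_pi hu2 hμ hgen hpi hS hSD hcov (fun A hA j => ?_) A hA hAD
  rcases (A ∩ S j).eq_empty_or_nonempty with h0 | h0
  · simp only [h0, measure_empty]
    exact tendsto_const_nhds
  · exact key _ (hpi A hA (S j) (hS j) h0) (inter_subset_right.trans (hSD j))

end den

section top

variable {ι K X L : Type*} {l : Filter ι} [MeasurableSpace K] [PseudoEMetricSpace X] [MeasurableSpace X] [BorelSpace X]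
  [MeasurableSpace L] {Pj : ι → Measure (K × X)} {P0 : Measure (K × X)} {μ : Measure X} {D : Set X} {loc : X → L}
  {Φ : K → ℝ≥0∞}

/-- an open set is an increasing union of open sets with test functions in between -/
lemma TF.up2 {α : Type*} [PseudoEMetricSpace α] (O : Set α) (hO : IsOpen O) : ∃ (Ok : ℕ → Set α) (u : ℕ → α → ℝ),
    (∀ n, TF (u n)) ∧ (∀ n x, u n x ≠ 0 → x ∈ O) ∧ (∀ n, IsOpen (Ok n)) ∧ Monotone Ok ∧ ⋃ n, Ok n = O ∧
    ∀ n, ∀ x ∈ Ok n, u n x = 1 := by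
  obtain ⟨u, h1, h2, h3, h4⟩ := TF.up O hO
  have hmono : ∀ x, Monotone fun n => u n x := fun x => monotone_nat_of_le_succ fun n => h3 n x
  have hsub : ∀ n x, 1 / 2 < u n x → x ∈ O := fun n x hx => h2 n x (by linarith)
  refine ⟨fun n => {x | 1 / 2 < u n x}, fun n x => min 1 (2 * u n x), fun n => ⟨?_, fun x => ⟨?_, min_le_left _ _⟩⟩,
    fun n x hx => ?_, fun n => isOpen_lt continuous_const (h1 n).cont, fun i j hij x hx => lt_of_lt_of_le hx (hmono x hij),
    ?_, fun n x hx => ?_⟩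
  · obtain ⟨K, hK⟩ := (h1 n).1
    have h5 : LipschitzWith (‖(2 : ℝ)‖₊ * K) fun x => 2 * u n x := (lipschitzWith_smul (2 : ℝ)).comp hK
    exact ⟨_, h5.const_min 1⟩
  · exact le_min zero_le_one (mul_nonneg zero_le_two ((h1 n).2 x).1)
  · refine h2 n x fun h0 => hx ?_
    show min 1 (2 * u n x) = 0
    rw [h0]
    simp
  · refine subset_antisymm (iUnion_subset fun n x hx => hsub n x hx) fun x hx => ?_
    have h5 := h4 x
    rw [indicator_of_mem hx] at h5
    obtain ⟨n, hn⟩ := lt_iSup_iff.1 (show (ENNReal.ofReal (1 / 2)) < ⨆ n, ENNReal.ofReal (u n x) by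
      rw [h5, ← ENNReal.ofReal_one]
      exact (ENNReal.ofReal_lt_ofReal_iff one_pos).2 (by norm_num))
    refine mem_iUnion.2 ⟨n, ?_⟩
    by_contra h6
    exact absurd (ENNReal.ofReal_le_ofReal (not_lt.1 h6)) (not_le.2 hn)
  · have h6 : 1 / 2 < u n x := hx
    exact min_eq_left (by linarith)

/-- **limits with test functions on the open set `D`** -/
theorem den_lim [l.NeBot] [IsFiniteMeasure P0] (hl : Measurable loc) (hD : IsOpen D)
    (hμ : μ D ≠ ∞) (hΦ : Measurable Φ) (h1 : ∀ k, Φ k ≤ 1) (h : ∀ᶠ j in l, Den (Pj j) μ D loc Φ)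
    (hu : ∀ ε : ℝ≥0∞, ε ≠ 0 → ∃ C : ℝ≥0∞, C ≠ ∞ ∧ ∀ᶠ j in l, ∀ S : Set X, MeasurableSet S → S ⊆ D →
      ∫⁻ x in Prod.snd ⁻¹' S, Φ x.1 ∂(Pj j) ≤ C * μ S + ε)
    (ht : ∀ f : X → ℝ, TF f → (∀ x, f x ≠ 0 → x ∈ D) →
      Tendsto (fun j => ∫⁻ x, Φ x.1 * ENNReal.ofReal (f x.2) ∂(Pj j)) l
        (𝓝 (∫⁻ x, Φ x.1 * ENNReal.ofReal (f x.2) ∂P0))) : Den P0 μ D loc Φ := by
  refine den_pi hl hD.measurableSet hμ h1 h hu (𝒞 := {s | IsOpen s}) (BorelSpace.measurable_eq) isPiSystem_isOpen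
    (S := fun _ => D) (fun _ => hD) (fun _ => subset_rfl) (subset_iUnion (fun _ : ℕ => D) 0) (fun A hA hAD => ?_) hΦ
  obtain ⟨Ok, u, u1, u2, u3, u4, u5, u6⟩ := TF.up2 A hA
  refine ⟨Ok, fun n x => ENNReal.ofReal (u n x), fun n => (u3 n).measurableSet, u4, u5, fun n => (u1 n).meas.ennreal_ofReal,
    fun n x => ?_, fun n x => ?_, fun n => ht _ (u1 n) fun x hx => hAD (u2 n x hx)⟩
  · show (Ok n).indicator 1 x ≤ ENNReal.ofReal (u n x)
    by_cases hx : x ∈ Ok n
    · rw [indicator_of_mem hx, u6 n x hx, ENNReal.ofReal_one]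
      exact le_rfl
    · rw [indicator_of_notMem hx]
      exact zero_le
  · show ENNReal.ofReal (u n x) ≤ A.indicator 1 x
    by_cases hx : x ∈ A
    · rw [indicator_of_mem hx, Pi.one_apply, ← ENNReal.ofReal_one]
      exact ENNReal.ofReal_le_ofReal ((u1 n).2 x).2
    · have h0 : u n x = 0 := by
        by_contra h0
        exact hx (u2 n x h0)
      rw [h0, ENNReal.ofReal_zero]
      exact zero_le

end top

section box

variable {ι K A B C L : Type*} {l : Filter ι} [MeasurableSpace K] [PseudoEMetricSpace A] [PseudoEMetricSpace B]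
  [PseudoEMetricSpace C] [MeasurableSpace A] [BorelSpace A] [MeasurableSpace B] [BorelSpace B] [MeasurableSpace C]
  [BorelSpace C] [SecondCountableTopology A] [SecondCountableTopology B] [SecondCountableTopology C] [MeasurableSpace L]
  {Pj : ι → Measure (K × (A × (B × C)))} {P0 : Measure (K × (A × (B × C)))} {μ : Measure (A × (B × C))}
  {D : Set (A × (B × C))} {loc : A × (B × C) → L} {Φ : K → ℝ≥0∞}

/-- **limits with products of three test functions** -/
theorem den_lim_box [l.NeBot] [IsFiniteMeasure P0] (hl : Measurable loc) (hD : IsOpen D)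
    (hμ : μ D ≠ ∞) (hΦ : Measurable Φ) (h1 : ∀ k, Φ k ≤ 1) (h : ∀ᶠ j in l, Den (Pj j) μ D loc Φ)
    (hu : ∀ ε : ℝ≥0∞, ε ≠ 0 → ∃ c : ℝ≥0∞, c ≠ ∞ ∧ ∀ᶠ j in l, ∀ S : Set (A × (B × C)), MeasurableSet S → S ⊆ D →
      ∫⁻ x in Prod.snd ⁻¹' S, Φ x.1 ∂(Pj j) ≤ c * μ S + ε)
    (ht : ∀ (u : A → ℝ) (v : B → ℝ) (w : C → ℝ), TF u → TF v → TF w →
      (∀ a b c, u a ≠ 0 → v b ≠ 0 → w c ≠ 0 → (a, (b, c)) ∈ D) →
      Tendsto (fun j => ∫⁻ x, Φ x.1 * ENNReal.ofReal (u x.2.1 * (v x.2.2.1 * w x.2.2.2)) ∂(Pj j)) l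
        (𝓝 (∫⁻ x, Φ x.1 * ENNReal.ofReal (u x.2.1 * (v x.2.2.1 * w x.2.2.2)) ∂P0))) : Den P0 μ D loc Φ := by
  -- a countable cover by boxes
  set bs : Set (Set (A × (B × C))) := image2 (· ×ˢ ·) (countableBasis A) (image2 (· ×ˢ ·) (countableBasis B) (countableBasis C))
    with hbs
  have hbas : IsTopologicalBasis bs :=
    (isBasis_countableBasis A).prod ((isBasis_countableBasis B).prod (isBasis_countableBasis C))
  have hcount : bs.Countable :=
    (countable_countableBasis A).image2 ((countable_countableBasis B).image2 (countable_countableBasis C) _) _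
  have hcov : D = ⋃₀ {s ∈ bs | s ⊆ D} := hbas.open_eq_sUnion' hD
  have hTc : {s ∈ bs | s ⊆ D}.Countable := hcount.mono (sep_subset _ _)
  have hTb : ∀ s ∈ {s ∈ bs | s ⊆ D}, s ∈ boxes A B C := by
    rintro s ⟨⟨O1, h1, _, ⟨O2, h2, O3, h3, rfl⟩, rfl⟩, hs⟩
    exact mem_boxes (isOpen_of_mem_countableBasis h1) (isOpen_of_mem_countableBasis h2) (isOpen_of_mem_countableBasis h3)
  have hemp : (∅ : Set (A × (B × C))) ∈ boxes A B C := by
    have := mem_boxes (A := A) (B := B) (C := C) isOpen_empty isOpen_empty isOpen_empty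
    rwa [empty_prod] at this
  obtain ⟨S, hS, hSD, hSc⟩ : ∃ S : ℕ → Set (A × (B × C)), (∀ j, S j ∈ boxes A B C) ∧ (∀ j, S j ⊆ D) ∧ D ⊆ ⋃ j, S j := by
    obtain ⟨f, hf⟩ := (hTc.insert ∅).exists_eq_range (insert_nonempty _ _)
    have hfm : ∀ j, f j ∈ insert ∅ {s ∈ bs | s ⊆ D} := fun j => hf ▸ mem_range_self j
    refine ⟨f, fun j => ?_, fun j => ?_, fun x hx => ?_⟩
    · rcases hfm j with h0 | h0
      · rw [h0]
        exact hemp
      · exact hTb _ h0
    · rcases hfm j with h0 | h0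
      · rw [h0]
        exact empty_subset _
      · exact h0.2
    · rw [hcov] at hx
      obtain ⟨s, hs, hxs⟩ := hx
      have h2 : s ∈ range f := hf ▸ mem_insert_of_mem _ hs
      obtain ⟨j, rfl⟩ := h2
      exact mem_iUnion.2 ⟨j, hxs⟩
  refine den_pi hl hD.measurableSet hμ h1 h hu (𝒞 := boxes A B C) boxes_gen boxes_pi hS hSD hSc (fun Q hQ hQD => ?_) hΦ
  obtain ⟨O1, o1, _, ⟨O2, o2, O3, o3, rfl⟩, rfl⟩ := hQ
  obtain ⟨U, u, u1, u2, u3, u4, u5, u6⟩ := TF.up2 O1 o1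
  obtain ⟨V, v, v1, v2, v3, v4, v5, v6⟩ := TF.up2 O2 o2
  obtain ⟨W, w, w1, w2, w3, w4, w5, w6⟩ := TF.up2 O3 o3
  refine ⟨fun n => U n ×ˢ (V n ×ˢ W n), fun n x => ENNReal.ofReal (u n x.1 * (v n x.2.1 * w n x.2.2)),
    fun n => (u3 n).measurableSet.prod ((v3 n).measurableSet.prod (w3 n).measurableSet),
    fun i j hij => prod_mono (u4 hij) (prod_mono (v4 hij) (w4 hij)), ?_, fun n => ?_, fun n x => ?_, fun n x => ?_, fun n => ?_⟩
  · rw [← u5, ← v5, ← w5]
    ext ⟨a, b, c⟩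
    simp only [mem_iUnion, mem_prod]
    constructor
    · rintro ⟨n, ha, hb, hc⟩
      exact ⟨⟨n, ha⟩, ⟨n, hb⟩, ⟨n, hc⟩⟩
    · rintro ⟨⟨n1, ha⟩, ⟨n2, hb⟩, ⟨n3, hc⟩⟩
      exact ⟨max n1 (max n2 n3), u4 (le_max_left _ _) ha, v4 ((le_max_left _ _).trans (le_max_right _ _)) hb,
        w4 ((le_max_right _ _).trans (le_max_right _ _)) hc⟩
  · exact (((u1 n).meas.comp measurable_fst).mul (((v1 n).meas.comp (measurable_fst.comp measurable_snd)).mul
      ((w1 n).meas.comp (measurable_snd.comp measurable_snd)))).ennreal_ofReal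
  · show (U n ×ˢ (V n ×ˢ W n)).indicator 1 x ≤ ENNReal.ofReal (u n x.1 * (v n x.2.1 * w n x.2.2))
    by_cases hx : x ∈ U n ×ˢ (V n ×ˢ W n)
    · rw [indicator_of_mem hx, u6 n _ hx.1, v6 n _ hx.2.1, w6 n _ hx.2.2]
      simp
    · rw [indicator_of_notMem hx]
      exact zero_le
  · show ENNReal.ofReal (u n x.1 * (v n x.2.1 * w n x.2.2)) ≤ (O1 ×ˢ (O2 ×ˢ O3)).indicator 1 x
    by_cases hx : x ∈ O1 ×ˢ (O2 ×ˢ O3)
    · rw [indicator_of_mem hx, Pi.one_apply, ← ENNReal.ofReal_one]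
      refine ENNReal.ofReal_le_ofReal ?_
      exact mul_le_one₀ ((u1 n).2 _).2 (mul_nonneg ((v1 n).2 _).1 ((w1 n).2 _).1)
        (mul_le_one₀ ((v1 n).2 _).2 ((w1 n).2 _).1 ((w1 n).2 _).2)
    · have h0 : u n x.1 * (v n x.2.1 * w n x.2.2) = 0 := by
        by_contra h0
        have h2 := left_ne_zero_of_mul h0
        have h3 := right_ne_zero_of_mul h0
        exact hx ⟨u2 n _ h2, v2 n _ (left_ne_zero_of_mul h3), w2 n _ (right_ne_zero_of_mul h3)⟩
      rw [h0, ENNReal.ofReal_zero]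
      exact zero_le
  · refine ht (u n) (v n) (w n) (u1 n) (v1 n) (w1 n) fun a b c ha hb hc => hQD ?_
    exact ⟨u2 n a ha, v2 n b hb, w2 n c hc⟩

end box

section union

variable {K X L : Type*} [MeasurableSpace K] [MeasurableSpace X] [MeasurableSpace L]
  {P : Measure (K × X)} {μ : Measure X} {loc : X → L} {Φ : K → ℝ≥0∞}

/-- increasing unions of the domains -/
theorem den_iUnion (hl : Measurable loc) [SigmaFinite μ] {D : ℕ → Set X} (hmono : Monotone D)
    (hD : ∀ k, MeasurableSet (D k)) (h : ∀ k, Den P μ (D k) loc Φ) : Den P μ (⋃ k, D k) loc Φ := by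
  choose t ht h using h
  -- the densities agree
  have e1 : ∀ k m, k ≤ m → (fun x => t m (loc x)) =ᵐ[μ.restrict (D k)] fun x => t k (loc x) := by
    intro k m hkm
    have a1 : ∀ S : Set X, MeasurableSet S → S ⊆ D k → ∫⁻ x in Prod.snd ⁻¹' S, Φ x.1 ∂P = ∫⁻ x in S, t m (loc x) ∂μ :=
      fun S hS hSD => h m S hS (hSD.trans (hmono hkm))
    exact (den_le hl (hD k) (fun _ => le_rfl) (ht m) a1 (h k)).antisymm (den_le hl (hD k) (fun _ => le_rfl) (ht k) (h k) a1)
  have e2 : ∀ k, (fun x => limsup (fun m => t m (loc x)) atTop) =ᵐ[μ.restrict (D k)] fun x => t k (loc x) := by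
    intro k
    have a1 : ∀ᵐ x ∂(μ.restrict (D k)), ∀ m, k ≤ m → t m (loc x) = t k (loc x) := by
      rw [ae_all_iff]
      intro m
      by_cases hkm : k ≤ m
      · filter_upwards [e1 k m hkm] with x hx _
        exact hx
      · exact ae_of_all _ fun x hx => absurd hx hkm
    filter_upwards [a1] with x hx
    have a2 : (fun m => t m (loc x)) =ᶠ[atTop] fun _ => t k (loc x) := by
      filter_upwards [eventually_ge_atTop k] with m hm
      exact hx m hm
    rw [limsup_congr a2]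
    exact limsup_const _
  refine ⟨fun ℓ => limsup (fun m => t m ℓ) atTop, Measurable.limsup ht, fun S hS hSD => ?_⟩
  have e3 : S = ⋃ k, S ∩ D k := by
    rw [← inter_iUnion]
    exact (inter_eq_self_of_subset_left hSD).symm
  have hm2 : Monotone fun k => S ∩ D k := fun i j hij => inter_subset_inter_right _ (hmono hij)
  have e4 : ∀ (ν : Measure X), ν S = ⨆ k, ν (S ∩ D k) := fun ν => by
    conv_lhs => rw [e3]
    exact hm2.measure_iUnion
  rw [← imgD_apply P Φ hS, ← withDensity_apply _ hS, e4, e4]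
  refine iSup_congr fun k => ?_
  have hSk : MeasurableSet (S ∩ D k) := hS.inter (hD k)
  rw [imgD_apply P Φ hSk, withDensity_apply _ hSk, h k _ hSk inter_subset_right]
  refine (lintegral_congr_ae ?_).symm
  exact ae_mono (Measure.restrict_mono inter_subset_right le_rfl) (e2 k)

end union

end Pool.Agent.ROT.F3
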