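import Pool.Agent.ROT.F3UnitC

/-!
# ROT / F3TopU (helper72): the limit fields of `TopD` in the units of the walks with `n` steps from the natural units

Natural units: `m`, `b`, marks `t`, `t'`, class `D`; new units (time multiplied by `κ`): `m.map (ut κ)`, `b.map (ut κ)`, `clsU κ t t' D`.

* `int_ut`, `int_utC` : integrals; **`rd_ut`** : the field `rd`, `hrd`; **`cut_ut`** : the field `cut`.
-/

set_option autoImplicit false

open MeasureTheory Filter Topology Set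
open scoped ENNReal NNReal BoundedContinuousFunction

namespace Pool.Agent.ROT.F3

open CC

section

variable {κ : ℝ} {t t' : Pie → ℝ} {D : Set Pie} {m : Measure Pie}

lemma ut_emb (hκ : κ ≠ 0) : MeasurableEmbedding (ut κ) := by
  refine MeasurableEmbedding.of_measurable_inverse (ut_cont κ).measurable ?_ (ut_cont κ⁻¹).measurable fun r => ut_inv hκ r
  have : range (ut κ) = univ := range_eq_univ.2 fun r => ⟨ut κ⁻¹ r, ut_inv' hκ r⟩
  rw [this]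
  exact MeasurableSet.univ

/-- integrals in the new unit -/
lemma int_ut (hκ : κ ≠ 0) (f : Pie → ℝ) : ∫ r, f r ∂(m.map (ut κ)) = ∫ r, f (ut κ r) ∂m := (ut_emb hκ).integral_map f

lemma clsU_pre (hκ : κ ≠ 0) : ut κ ⁻¹' (clsU κ t t' D).C = D := by
  ext r
  show ut κ⁻¹ (ut κ r) ∈ D ↔ r ∈ D
  rw [ut_inv hκ]

/-- integrals over the class in the new unit -/
lemma int_utC (hκ : κ ≠ 0) (f : Pie → ℝ) :
    ∫ r in (clsU κ t t' D).C, f r ∂(m.map (ut κ)) = ∫ r in D, f (ut κ r) ∂m := by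
  rw [(ut_emb hκ).restrict_map, (ut_emb hκ).integral_map, clsU_pre hκ]

lemma ind_utC (hκ : κ ≠ 0) (r : Pie) :
    (clsU κ t t' D).C.indicator (fun _ => (1 : ℝ)) (ut κ r) = D.indicator (fun _ => (1 : ℝ)) r := by
  by_cases h : r ∈ D
  · rw [indicator_of_mem h, indicator_of_mem]
    show ut κ⁻¹ (ut κ r) ∈ D
    rwa [ut_inv hκ]
  · rw [indicator_of_notMem h, indicator_of_notMem]
    show ¬ ut κ⁻¹ (ut κ r) ∈ D
    rwa [ut_inv hκ]

/-- almost everywhere statements in the new unit -/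
lemma ae_ut (hκ : κ ≠ 0) {p : Pie → Prop} (h : ∀ᵐ r ∂m, p (ut κ r)) : ∀ᵐ r ∂(m.map (ut κ)), p r :=
  (ut_emb hκ).ae_map_iff.2 h

/-- **the rest from its pieces, in the new unit** -/
theorem rd_ut (hκ : 0 < κ) (ht : Measurable t) (ht' : Measurable t') (h : ∀ᵐ r ∂m, r ∈ D → r ∈ GoodT t t') :
    ∃ rd : (Pie × Pie) × Pie → Pie, Measurable rd ∧
      ∀ᵐ r ∂(m.map (ut κ)), r ∈ (clsU κ t t' D).C → rd ((clsU κ t t' D).τ r) = r := by
  obtain ⟨rd, h1, h2⟩ := tau_rd (t := fun r => t (ut κ⁻¹ r)) (t' := fun r => t' (ut κ⁻¹ r)) (ht.comp (ut_cont _).measurable)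
    (ht'.comp (ut_cont _).measurable)
  refine ⟨rd, h1, ae_ut hκ.ne' ?_⟩
  filter_upwards [h] with r hr hr2
  have hD : r ∈ D := by
    have : ut κ⁻¹ (ut κ r) ∈ D := hr2
    rwa [ut_inv hκ.ne'] at this
  obtain ⟨a1, a2, a3, a4, a5⟩ := hr hD
  refine h2 _ ⟨?_, ?_, ?_, ?_, ?_⟩
  · rw [ut_apply]
    exact a1
  · rw [ut_apply]
    exact mul_pos hκ a2
  · show 0 ≤ t (ut κ⁻¹ (ut κ r))
    rwa [ut_inv hκ.ne']
  · show t (ut κ⁻¹ (ut κ r)) ≤ t' (ut κ⁻¹ (ut κ r))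
    rwa [ut_inv hκ.ne']
  · show t' (ut κ⁻¹ (ut κ r)) ≤ 1
    rwa [ut_inv hκ.ne']

/-- **the arc is the rest without short ends, in the new unit** -/
theorem cut_ut (hκ : 0 < κ) {θ : ℝ} (h : ∀ᵐ r ∂m, r ∈ D → r ∈ GoodT t t')
    (hθ : ∀ᵐ r ∂m, r ∈ D → t r * r.2 ≤ θ ∧ (1 - t' r) * r.2 ≤ θ) :
    ∀ᵐ r ∂(m.map (ut κ)), r ∈ (clsU κ t t' D).C → r.1 0 = 0 ∧ 0 ≤ r.2 ∧ ∃ s s' : unitInterval,
      (s : ℝ) * r.2 ≤ κ * θ ∧ (1 - (s' : ℝ)) * r.2 ≤ κ * θ ∧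
      (∀ u v : unitInterval, (v : ℝ) = (1 - u) * s + u * s' → ((clsU κ t t' D).τ r).2.1 u = r.1 v - r.1 s) ∧
      ((clsU κ t t' D).τ r).2.2 = ((s' : ℝ) - s) * r.2 := by
  refine ae_ut hκ.ne' ?_
  filter_upwards [h, hθ] with r hr hr' hr2
  have hD : r ∈ D := by
    have : ut κ⁻¹ (ut κ r) ∈ D := hr2
    rwa [ut_inv hκ.ne'] at this
  obtain ⟨a1, a2, a3, a4, a5⟩ := hr hD
  obtain ⟨b1, b2⟩ := hr' hD
  have e0 : (clsU κ t t' D).τ (ut κ r) = Prod.map (utK κ) (ut κ) (tau t t' r) := tau_ut hκ.ne' t t' r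
  rw [e0]
  refine ⟨?_, ?_, ⟨t r, a3, a4.trans a5⟩, ⟨t' r, a3.trans a4, a5⟩, ?_, ?_, ?_, ?_⟩
  · rw [ut_apply]
    exact a1
  · rw [ut_apply]
    exact (mul_pos hκ a2).le
  · rw [ut_apply]
    show t r * (κ * r.2) ≤ κ * θ
    calc t r * (κ * r.2) = κ * (t r * r.2) := by ring
      _ ≤ κ * θ := mul_le_mul_of_nonneg_left b1 hκ.le
  · rw [ut_apply]
    show (1 - t' r) * (κ * r.2) ≤ κ * θ
    calc (1 - t' r) * (κ * r.2) = κ * ((1 - t' r) * r.2) := by ring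
      _ ≤ κ * θ := mul_le_mul_of_nonneg_left b2 hκ.le
  · intro u v huv
    have huv' : (v : ℝ) = t r + u * (t' r - t r) := by
      have : (v : ℝ) = (1 - u) * t r + u * t' r := huv
      rw [this]
      ring
    have e1 : (Prod.map (utK κ) (ut κ) (tau t t' r)).2.1 = cutp r.1 (t r) (t' r) := by
      show (ut κ (pcut r (t r) (t' r))).1 = _
      rw [ut_apply]
      rfl
    rw [e1, cutp_apply, ← huv', ex_coe, ut_apply]
    congr 1
    exact ex_of r.1 ⟨a3, a4.trans a5⟩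
  · show (ut κ (pcut r (t r) (t' r))).2 = (t' r - t r) * (ut κ r).2
    rw [ut_apply, ut_apply]
    show κ * (r.2 * |t' r - t r|) = (t' r - t r) * (κ * r.2)
    rw [abs_of_nonneg (sub_nonneg.2 a4)]
    ring

end

end Pool.Agent.ROT.F3
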