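import Pool.Agent.ROT.F3TopP
import Pool.Agent.ROT.F3TopU
import Pool.Agent.ROT.F3UnitN
import Pool.Agent.ROT.F3BetaC
import Pool.Agent.ROT.F3ClsW

/-!
# ROT, F3 (B) (helper12): `TopD` for the classes of F3Cls

Natural units: scale `M`, numbers of letters in units of `M ^ (4 / 3)`; a walk with `n` steps has the scale `Nm n`.

* `trn z` : the turn of the curves; `cc` : normalisation; `RL0`, `RLA` : the limits of the rests of the two classes;
* **`topD_of`** : `TopD` from the limits, the product form and the marks in natural units, and the rows `low1`, `low2`, `app`, `gt2`.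
-/

set_option autoImplicit false

open MeasureTheory Filter Topology Finset
open scoped ENNReal NNReal BoundedContinuousFunction

namespace Pool.Agent.ROT.F3E

open Pool.Agent.NTS.Res Pool.Agent.CRT Pool.Agent.ROT.F3 Pool.Agent.ROT.F3.CC Pool.Agent.ROT.F3.Bt
open Pool.Agent.ROT.F (Nm nm_bd nm_ratio nm_top)

/-- the turn of the curves -/
noncomputable def trn (z : ℂ) (x : Pie) : Pie := (z • x.1, x.2)

lemma trn_cont (z : ℂ) : Continuous (trn z) := (continuous_fst.const_smul z).prodMk continuous_snd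

lemma trn_ut (z : ℂ) (κ : ℝ) (x : Pie) : trn z (ut κ x) = ut κ (trn z x) := by
  rw [ut_apply, ut_apply]
  rfl

/-- normalisation of the rests at the scale `M`, never `0` -/
noncomputable def cc (M : ℕ) : ℝ≥0∞ := if M = 0 then 1 else cb M

lemma cc_ne (M : ℕ) : cc M ≠ 0 := by
  unfold cc
  split_ifs with h
  · exact one_ne_zero
  · exact cb_ne (Nat.pos_of_ne_zero h)

lemma cc_top (M : ℕ) : cc M ≠ ∞ := by
  unfold cc
  split_ifs
  · exact ENNReal.one_ne_top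
  · exact cb_top M

lemma cc_eq {M : ℕ} (h : 0 < M) : cc M = cb M := if_neg h.ne'

/-- `m` is the limit of the rests `Rs` at the scale `M → V`, in natural units -/
def RLim (V : Filter ℕ) (Rs : ℕ → Set W3) (m : Measure Pie) : Prop :=
  ∀ g : Pie →ᵇ ℝ, Tendsto (fun M => ∫ x, g x ∂(rm (cb M) M (uT M) (Rs M) fun _ => 1)) V (𝓝 (∫ x, g x ∂m))

lemma RLim.cc {V : Filter ℕ} (hV : V ≤ atTop) {Rs : ℕ → Set W3} {m : Measure Pie} (h : RLim V Rs m) (g : Pie →ᵇ ℝ) :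
    Tendsto (fun M : ℕ => ∫ x, g x ∂(rm (F3E.cc M) M ((M : ℝ) ^ (4 / 3 : ℝ)) (Rs M) fun _ => 1)) V (𝓝 (∫ x, g x ∂m)) := by
  refine (h g).congr' ?_
  filter_upwards [hV (eventually_gt_atTop 0)] with M hM
  rw [cc_eq hM]
  rfl

/-- the limit of the rests in the units of the walks with `n` steps -/
lemma RLim.unit {U : Ultrafilter ℕ} (hU : (U : Filter ℕ) ≤ atTop) {κ : ℝ}
    (hκ : Tendsto (fun n : ℕ => (Nm n : ℝ) ^ (4 / 3 : ℝ) / n) U (𝓝 κ)) {Rs : ℕ → Set W3} {m : Measure Pie} [IsFiniteMeasure m]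
    (hf : ∀ M, ms (Rs M) (fun _ => ENNReal.ofReal 1) ≠ ∞) (h : RLim (U.map Nm : Ultrafilter ℕ) Rs m) (g : Pie →ᵇ ℝ) :
    Tendsto (fun n : ℕ => ∫ x, g x ∂(rm (F3E.cc (Nm n)) (size n) n (Rs (Nm n)) fun _ => 1)) U
      (𝓝 (∫ x, g x ∂(m.map (ut κ)))) :=
  nm_rm_map hU hκ (c := F3E.cc) (w := fun _ _ => 1) (fun M => rm_fin (cc_top M) _ _ (hf M)) (h.cc (nm_map_top hU)) g

/-- eventually the unit of time is at most `2 κ n` -/
lemma uT_le {U : Ultrafilter ℕ} (hU : (U : Filter ℕ) ≤ atTop) {κ : ℝ} (hκ0 : 0 < κ)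
    (hκ : Tendsto (fun n : ℕ => (Nm n : ℝ) ^ (4 / 3 : ℝ) / n) U (𝓝 κ)) : ∀ᶠ n : ℕ in (U : Filter ℕ), uT (Nm n) ≤ 2 * κ * n := by
  filter_upwards [hκ.eventually_lt_const (show κ < 2 * κ by linarith), hU (eventually_gt_atTop 0)] with n h1 h2
  have h3 : (0 : ℝ) < n := by exact_mod_cast h2
  rw [div_lt_iff₀ h3] at h1
  exact h1.le

lemma uT_nonneg (M : ℕ) : 0 ≤ uT M := Real.rpow_nonneg (Nat.cast_nonneg _) _

lemma W0_rm {P : Prm} (h : P.Ok) (M N : ℕ) (c : ℝ≥0∞) : (P.W0 h M).rm N c = F3.rm c (size N) N (P.R0 0 P.W M) fun _ => 1 := rfl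

lemma WR_rm {P : Prm} (h : P.Ok) (y y' : ℝ) (M N : ℕ) (c : ℝ≥0∞) :
    (P.WR h y y' M).rm N c = F3.rm c (size N) N (P.A0 M) fun _ => 1 := rfl

lemma W0_fin {P : Prm} (h : P.Ok) (M : ℕ) : ms (P.R0 0 P.W M) (fun _ => ENNReal.ofReal 1) ≠ ∞ := (P.W0 h M).fR

lemma WR_fin {P : Prm} (h : P.Ok) (M : ℕ) : ms (P.A0 M) (fun _ => ENNReal.ofReal 1) ≠ ∞ := (P.WR h 0 0 M).fR

/-- **rests with a duration near `1` have a positive mass** -/
theorem pos_cls {p1 th : ℝ} {U : Ultrafilter ℕ} (hU : (U : Filter ℕ) ≤ atTop) {P : Prm} (h : P.Ok)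
    (hp1 : 0 < p1) (hth : 0 < th) (hth8 : th ≤ 1 / 8) {κ : ℝ} (hκ0 : 0 < κ)
    (hκ : Tendsto (fun n : ℕ => (Nm n : ℝ) ^ (4 / 3 : ℝ) / n) U (𝓝 κ)) {m : Measure Pie} [IsFiniteMeasure m]
    (hm : RLim (U.map Nm : Ultrafilter ℕ) (P.R0 0 P.W) m)
    {c : ℝ} (hc : 0 < c) (mass : ∀ᶠ M : ℕ in atTop, ENNReal.ofReal (c * (M : ℝ) ^ (3 / 4 : ℝ)) ≤ ms (P.R0 0 P.W M) fun _ => 1)
    {e : ℝ} (hp : (P.p.n.la + P.p.n.lb) * (2 * κ) ≤ e * th) (hq : (P.q.n.la + P.q.n.lb) * (2 * κ) ≤ e * th)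
    (low1 : ∀ᶠ N in (U : Filter ℕ), p1 * ∑ n ∈ Wn N (2 * th), aN n ≤
      SS ((P.W0 h (Nm N)).G N fun _ => 1) N th (fun _ => 1)) : 0 < ∫ r, ct th r.2 ∂(m.map (ut κ)) := by
  have hm' : ∀ g : Pie →ᵇ ℝ, Tendsto (fun N => ∫ x, g x ∂((P.W0 h (Nm N)).rm N (F3E.cc (Nm N)))) (U : Filter ℕ)
      (𝓝 (∫ x, g x ∂(m.map (ut κ)))) := by
    simp only [W0_rm]
    exact hm.unit hU hκ (W0_fin h)
  obtain ⟨L, hL⟩ : ∃ L : ℝ, L = (P.p.n.la + P.p.n.lb) * (2 * κ) + (P.wd P.W).t1 * (2 * κ) + (P.q.n.la + P.q.n.lb) * (2 * κ) :=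
    ⟨_, rfl⟩
  refine pos_of (C := fun N => P.W0 h (Nm N)) (c := fun N => F3E.cc (Nm N)) (fun N => cc_ne _) (fun N => cc_top _) hU hm' hp1
    hth hth8 low1 hc ?_ (L := L) ?_ ?_
  · -- the mass
    have h1 : ∀ᶠ N : ℕ in (U : Filter ℕ), ENNReal.ofReal (c * (Nm N : ℝ) ^ (3 / 4 : ℝ)) ≤ ms (P.R0 0 P.W (Nm N)) fun _ => 1 :=
      hU (nm_top.eventually mass)
    filter_upwards [h1, nm_pos hU] with N h2 h3
    have h4 : 0 < Nm N := by exact_mod_cast h3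
    have h5 := rm_low h4 (s := size N) (t := N) h2
    have := (P.W0 h (Nm N)).fin N (c := F3E.cc (Nm N)) (cc_top _)
    rw [Measure.real, ← ENNReal.ofReal_le_iff_le_toReal (measure_ne_top _ _), W0_rm, cc_eq h4]
    exact h5
  · -- the lengths
    filter_upwards [uT_le hU hκ0 hκ] with N h1 a ha R hR b hb
    have h2 := Pre.len ha
    have h3 := Pre.len hb
    have h4 : (R.length : ℝ) ≤ (P.wd P.W).t1 * uT (Nm N) := (show RsQ _ _ _ _ (P.wd P.W) _ _ R from hR).hi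
    have k1 : 0 ≤ P.p.n.la + P.p.n.lb := by linarith [h.p.n.la, h.p.n.lb]
    have k2 : 0 ≤ P.q.n.la + P.q.n.lb := by linarith [h.q.n.la, h.q.n.lb]
    have k3 : 0 ≤ (P.wd P.W).t1 := by
      show 0 ≤ P.W.t1 + (P.p.lk + P.q.lk)
      linarith [h.t0, h.t1, h.p.lk, h.q.lk]
    have j1 := mul_le_mul_of_nonneg_left h1 k1
    have j2 := mul_le_mul_of_nonneg_left h1 k2
    have j3 := mul_le_mul_of_nonneg_left h1 k3
    rw [hL]
    have e1 : ((P.p.n.la + P.p.n.lb) * (2 * κ) + (P.wd P.W).t1 * (2 * κ) + (P.q.n.la + P.q.n.lb) * (2 * κ)) * (N : ℝ) =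
      (P.p.n.la + P.p.n.lb) * (2 * κ * N) + (P.wd P.W).t1 * (2 * κ * N) + (P.q.n.la + P.q.n.lb) * (2 * κ * N) := by ring
    rw [e1]
    linarith
  · -- the marks are unique
    filter_upwards [uT_le hU hκ0 hκ] with N h1 w hw
    have k1 : 0 ≤ P.p.n.la + P.p.n.lb := by linarith [h.p.n.la, h.p.n.lb]
    have k2 : 0 ≤ P.q.n.la + P.q.n.lb := by linarith [h.q.n.la, h.q.n.lb]
    have hN : (0 : ℝ) ≤ N := Nat.cast_nonneg N
    have j1 := mul_le_mul_of_nonneg_left h1 k1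
    have j2 := mul_le_mul_of_nonneg_left h1 k2
    have j3 := mul_le_mul_of_nonneg_right hp hN
    have j4 := mul_le_mul_of_nonneg_right hq hN
    exact (Prm.W0_gb h (ψ := fun _ => 1) (fun _ => zero_le_one) (fun _ => le_rfl) (e := e) (th := th) (N := Nm N) (M := N)
      (by linarith) (by linarith)).one w hw

/-- **everything about the classes of one ultrafilter**, in natural units except for the four rows of the walks -/
theorem topD_of {p1 p2 e th θ ε0 : ℝ} {z : ℂ} {F : CI → ℝ} {U : Ultrafilter ℕ} (hU : (U : Filter ℕ) ≤ atTop) {P : Prm} (h : P.Ok)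
    (y y' : ℝ) (hp1 : 0 < p1) (hth : 0 < th) (hth8 : th ≤ 1 / 8) (he : 0 < e) {κ : ℝ} (hκ0 : 0 < κ)
    (hκ : Tendsto (fun n : ℕ => (Nm n : ℝ) ^ (4 / 3 : ℝ) / n) U (𝓝 κ)) {m b : Measure Pie} [IsFiniteMeasure m]
    [IsFiniteMeasure b] (hm : RLim (U.map Nm : Ultrafilter ℕ) (P.R0 0 P.W) m) (hb : RLim (U.map Nm : Ultrafilter ℕ) P.A0 b)
    {c : ℝ} (hc : 0 < c) (mass : ∀ᶠ M : ℕ in atTop, ENNReal.ofReal (c * (M : ℝ) ^ (3 / 4 : ℝ)) ≤ ms (P.R0 0 P.W M) fun _ => 1)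
    {t t' : Pie → ℝ} {D : Set Pie} (mt : Measurable t) (mt' : Measurable t') (mD : MeasurableSet D)
    (core : ∃ ν : Measure (Pie × Pie), IsFiniteMeasure ν ∧ (clsC t t' D).law m = ν.prod (b.map (trn z)))
    (good : ∀ᵐ r ∂m, r ∈ D → r ∈ GoodT t t') {θ' : ℝ} (short : ∀ᵐ r ∂m, r ∈ D → t r * r.2 ≤ θ' ∧ (1 - t' r) * r.2 ≤ θ')
    (hθ : κ * θ' ≤ θ)
    (hp : (P.p.n.la + P.p.n.lb) * (2 * κ) ≤ e * th) (hq : (P.q.n.la + P.q.n.lb) * (2 * κ) ≤ e * th)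
    (low1 : ∀ᶠ N in (U : Filter ℕ), p1 * ∑ n ∈ Wn N (2 * th), aN n ≤
      SS ((P.W0 h (Nm N)).G N fun _ => 1) N th (fun _ => 1))
    (low2 : p2 * ∫ r, ct th (κ * r.2) ∂m ≤ ∫ r in D, ct th (κ * r.2) ∂m)
    (app : ∃ ψs : Pie →ᵇ ℝ, (∀ x, 0 ≤ ψs x) ∧ (∀ x, ψs x ≤ 1) ∧
      ∫ r, |ψs (ut κ r) - D.indicator (fun _ => (1 : ℝ)) r| * ct (4 * th) (κ * r.2) ∂m ≤ ε0 * ∫ r in D, ct th (κ * r.2) ∂m ∧
      ∀ᶠ N in (U : Filter ℕ), Gm e th F ((P.W0 h (Nm N)).G N ψs) N)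
    (gt2 : ∀ᶠ N in (U : Filter ℕ), Gt p1 e th (fun γ => F (z • γ)) ((P.WR h y y' (Nm N)).G N fun _ => 1) N) :
    TopH p1 p2 e th θ ε0 z F U := by
  obtain ⟨rd, mrd, hrd⟩ := rd_ut hκ0 mt mt' good
  have mu := (ut_cont κ).measurable
  have hm' : ∀ g : Pie →ᵇ ℝ, Tendsto (fun N => ∫ x, g x ∂((P.W0 h (Nm N)).rm N (F3E.cc (Nm N)))) (U : Filter ℕ)
      (𝓝 (∫ x, g x ∂(m.map (ut κ)))) := by
    simp only [W0_rm]
    exact hm.unit hU hκ (W0_fin h)
  have hct : ∀ f : Pie → ℝ, ∫ r, f r ∂(m.map (ut κ)) = ∫ r, f (ut κ r) ∂m := int_ut hκ0.ne'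
  refine ⟨Pie × Pie, inferInstance, ⟨{
    C := fun N => P.W0 h (Nm N)
    C2 := fun N => P.WR h y y' (Nm N)
    c := fun N => F3E.cc (Nm N)
    c2 := fun N => F3E.cc (Nm N)
    m := m.map (ut κ)
    b := (b.map (trn z)).map (ut κ)
    k := clsU κ t t' D
    rd := rd
    c0 := fun N => cc_ne _
    c1 := fun N => cc_top _
    c20 := fun N => cc_ne _
    c21 := fun N => cc_top _
    fm := inferInstance
    fb := inferInstance
    hm := hm'
    hb := ?_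
    kOk := clsU_ok κ mt mt' mD
    mrd := mrd
    hrd := hrd
    core := core_ut hκ0.ne' mt mt' mD core
    cut := ?_
    pos := ?_
    low1 := low1
    low2 := ?_
    app := ?_
    gt2 := gt2 }⟩⟩
  · -- the limit of the arcs
    intro g
    have h1 := hb.unit hU hκ (WR_fin h) (g.compContinuous ⟨trn z, trn_cont z⟩)
    simp only [WR_rm]
    have e1 : ∫ x, g x ∂((b.map (trn z)).map (ut κ)) = ∫ x, g.compContinuous ⟨trn z, trn_cont z⟩ x ∂(b.map (ut κ)) := by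
      rw [integral_map mu.aemeasurable g.continuous.measurable.aestronglyMeasurable,
        integral_map mu.aemeasurable (g.compContinuous ⟨trn z, trn_cont z⟩).continuous.measurable.aestronglyMeasurable]
      have e2 := integral_map (μ := b) (f := fun y => g (ut κ y)) (trn_cont z).measurable.aemeasurable
        (g.continuous.measurable.comp mu).aestronglyMeasurable
      rw [e2]
      refine integral_congr_ae (Eventually.of_forall fun x => ?_)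
      show g (ut κ (trn z x)) = g (trn z (ut κ x))
      rw [trn_ut]
    rw [e1]
    exact h1
  · -- the arc is the rest without short ends
    filter_upwards [cut_ut hκ0 good short] with r hr hC
    obtain ⟨a1, a2, s, s', a3, a4, a5, a6⟩ := hr hC
    exact ⟨a1, a2, s, s', a3.trans hθ, a4.trans hθ, a5, a6⟩
  · -- positivity
    exact pos_cls hU h hp1 hth hth8 hκ0 hκ hm hc mass hp hq low1
  · -- the foreign gates in the limit
    rw [hct, int_utC hκ0.ne']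
    simpa only [ut_apply] using low2
  · -- the approximation
    obtain ⟨ψs, a1, a2, a3, a4⟩ := app
    refine ⟨ψs, a1, a2, ?_, a4⟩
    rw [hct, int_utC hκ0.ne']
    simp only [ind_utC hκ0.ne']
    simpa only [ut_apply] using a3

end Pool.Agent.ROT.F3E
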