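import Pool.Agent.ROT.F3BetaL
import Pool.Agent.ROT.F3TopI

/-!
# ROT, F3 (helper39): the masses of the classes and of their limits

`rlim_low`, `rlim_ne` : a lower bound `c M ^ (3/4)` of the class gives a lower bound `c` of the limit (natural units);
**`mass_A0`** : rests and main arcs of the class 0, `W.t0` below a number which depends on the other data only: the mass literal of
`CoreRow` and the lower bounds of the limits.
-/

set_option autoImplicit false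

open MeasureTheory Filter Topology
open scoped ENNReal BoundedContinuousFunction

namespace Pool.Agent.ROT.F3E

open Pool.Agent.NTS.Res Pool.Agent.CRT Pool.Agent.ROT.F3 Pool.Agent.ROT.F3.CC Pool.Agent.ROT.F3.Bt

/-- **the limit has a lower bound if the class has** -/
theorem rlim_low {V : Filter ℕ} [V.NeBot] (hV : V ≤ atTop) {Rs : ℕ → Set W3} {m : Measure Pie} [IsFiniteMeasure m]
    (h : RLim V Rs m) (hf : ∀ M, ms (Rs M) (fun _ => ENNReal.ofReal 1) ≠ ∞) {c : ℝ}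
    (hc : ∀ᶠ M : ℕ in atTop, ENNReal.ofReal (c * (M : ℝ) ^ (3 / 4 : ℝ)) ≤ ms (Rs M) fun _ => 1) :
    ENNReal.ofReal c ≤ m Set.univ := by
  have h1 := h (BoundedContinuousFunction.const _ 1)
  simp only [BoundedContinuousFunction.const_apply, integral_const, smul_eq_mul, mul_one] at h1
  refine (ENNReal.ofReal_le_iff_le_toReal (measure_ne_top m _)).2 ?_
  refine ge_of_tendsto h1 ?_
  filter_upwards [hV hc, hV (eventually_gt_atTop 0)] with M h2 h3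
  have := rm_fin (cb_top M) (M : ℝ) (uT M) (w := fun _ => 1) (hf M)
  exact (ENNReal.ofReal_le_iff_le_toReal (measure_ne_top _ _)).1 (rm_low h3 h2)

theorem rlim_ne {V : Filter ℕ} [V.NeBot] (hV : V ≤ atTop) {Rs : ℕ → Set W3} {m : Measure Pie} [IsFiniteMeasure m]
    (h : RLim V Rs m) (hf : ∀ M, ms (Rs M) (fun _ => ENNReal.ofReal 1) ≠ ∞) {c : ℝ} (hc0 : 0 < c)
    (hc : ∀ᶠ M : ℕ in atTop, ENNReal.ofReal (c * (M : ℝ) ^ (3 / 4 : ℝ)) ≤ ms (Rs M) fun _ => 1) : m ≠ 0 := by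
  intro h0
  have h1 := rlim_low hV h hf hc
  rw [h0, Measure.coe_zero, Pi.zero_apply, nonpos_iff_eq_zero, ENNReal.ofReal_eq_zero] at h1
  linarith

/-- **the masses of the class 0** and of its limits -/
theorem mass_A0 (p q : En) (D0 D1 t1 : ℝ) : ∃ ts : ℝ, 0 < ts ∧ ∀ P : Prm, P.Ok → P.p = p → P.q = q → P.W.D0 = D0 →
    P.W.D1 = D1 → P.W.t1 = t1 → P.W.t0 ≤ ts → ∃ c : ℝ, 0 < c ∧
      (∀ᶠ M : ℕ in atTop, ENNReal.ofReal (c * (M : ℝ) ^ (3 / 4 : ℝ)) ≤ ms (P.R0 0 P.W M) fun _ => 1) ∧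
      (∀ᶠ M : ℕ in atTop, ENNReal.ofReal (c * (M : ℝ) ^ (3 / 4 : ℝ)) ≤ ms (P.A0 M) fun _ => 1) ∧
      ∀ V : Filter ℕ, V.NeBot → V ≤ atTop → ∀ m b : Measure Pie, IsFiniteMeasure m → IsFiniteMeasure b →
        RLim V (P.R0 0 P.W) m → RLim V P.A0 b → ENNReal.ofReal c ≤ m Set.univ ∧ ENNReal.ofReal c ≤ b Set.univ ∧ m ≠ 0 ∧ b ≠ 0 := by
  obtain ⟨ts, hts, H⟩ := beta_A0 p q D0 D1 t1
  refine ⟨ts, hts, fun P h e1 e2 e3 e4 e5 e6 => ?_⟩
  obtain ⟨c, hc, hev⟩ := H P h e1 e2 e3 e4 e5 e6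
  have a1 : ∀ᶠ M : ℕ in atTop, ENNReal.ofReal (c * (M : ℝ) ^ (3 / 4 : ℝ)) ≤ ms (P.R0 0 P.W M) fun _ => 1 :=
    hev.mono fun M hM => hM.2
  have a2 : ∀ᶠ M : ℕ in atTop, ENNReal.ofReal (c * (M : ℝ) ^ (3 / 4 : ℝ)) ≤ ms (P.A0 M) fun _ => 1 :=
    hev.mono fun M hM => hM.1
  exact ⟨c, hc, a1, a2, fun V _ hV m b _ _ hm hb => ⟨rlim_low hV hm (W0_fin h) a1, rlim_low hV hb (WR_fin h) a2,
    rlim_ne hV hm (W0_fin h) hc a1, rlim_ne hV hb (WR_fin h) hc a2⟩⟩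

end Pool.Agent.ROT.F3E
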