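import Pool.Agent.ROT.F3FrnB
import Mathlib.MeasureTheory.Function.ContinuousMapDense
import Mathlib.Topology.MetricSpace.Lipschitz

/-!
# ROT, F3, row R11 (1) (helper32): local Lipschitz approximants

* `lreg` : the Lipschitz regularisation; **`lip_L1`** : the Lipschitz functions with values in `[0, 1]` are dense in `L¹`;
* **`loc_lip`** : a weight which is, off a bad set `B`, a function of a local piece `T a` is approximated by Lipschitz functions
  of `T a` up to `β B + ε`; **`loc_lip2`** : products of two such weights (the two ends of the rest).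
-/

set_option autoImplicit false

namespace Pool.Agent.ROT.F3

open MeasureTheory Set Filter Topology
open scoped ENNReal NNReal BoundedContinuousFunction

section reg

variable {Y : Type*} [PseudoMetricSpace Y]

/-- the Lipschitz regularisation -/
noncomputable def lreg (g : Y → ℝ) (n : ℕ) (y : Y) : ℝ := ⨅ z, (g z + n * dist y z)

lemma lreg_bdd {g : Y → ℝ} {c : ℝ} (hc : ∀ z, c ≤ g z) (n : ℕ) (y : Y) : BddBelow (range fun z => g z + n * dist y z) := by
  refine ⟨c, ?_⟩
  rintro _ ⟨z, rfl⟩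
  have : 0 ≤ (n : ℝ) * dist y z := by positivity
  show c ≤ g z + n * dist y z
  linarith [hc z]

lemma lreg_le {g : Y → ℝ} {c : ℝ} (hc : ∀ z, c ≤ g z) (n : ℕ) (y : Y) : lreg g n y ≤ g y := by
  refine (ciInf_le (lreg_bdd hc n y) y).trans ?_
  rw [dist_self, mul_zero, add_zero]

lemma le_lreg {g : Y → ℝ} {c : ℝ} (hc : ∀ z, c ≤ g z) (n : ℕ) (y : Y) : c ≤ lreg g n y := by
  have : Nonempty Y := ⟨y⟩
  refine le_ciInf fun z => ?_
  have : 0 ≤ (n : ℝ) * dist y z := by positivity
  linarith [hc z]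

lemma lreg_lip {g : Y → ℝ} {c : ℝ} (hc : ∀ z, c ≤ g z) (n : ℕ) : LipschitzWith n (lreg g n) := by
  refine LipschitzWith.of_le_add_mul _ fun y y' => ?_
  have : Nonempty Y := ⟨y⟩
  have h : lreg g n y - n * dist y y' ≤ lreg g n y' := by
    refine le_ciInf fun z => ?_
    have h1 := ciInf_le (lreg_bdd hc n y) z
    have h2 : lreg g n y ≤ g z + n * dist y z := h1
    have h3 : (n : ℝ) * dist y z ≤ n * (dist y y' + dist y' z) := by
      have := dist_triangle y y' z
      gcongr
    linarith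
  have e : ((n : ℝ≥0) : ℝ) = n := by simp
  rw [e]
  linarith

lemma lreg_tendsto {g : Y → ℝ} (hg : Continuous g) {c C : ℝ} (hc : ∀ z, c ≤ g z) (hC : ∀ z, g z ≤ C) (y : Y) :
    Tendsto (fun n => lreg g n y) atTop (𝓝 (g y)) := by
  have : Nonempty Y := ⟨y⟩
  rw [Metric.tendsto_atTop]
  intro ε hε
  obtain ⟨δ, hδ, hd⟩ := Metric.continuous_iff.1 hg y (ε / 2) (half_pos hε)
  refine ⟨⌈(C - c) / δ⌉₊, fun n hn => ?_⟩
  have h1 : lreg g n y ≤ g y := lreg_le hc n y
  have h2 : g y - ε / 2 ≤ lreg g n y := by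
    refine le_ciInf fun z => ?_
    by_cases hz : dist z y < δ
    · have := hd z hz
      rw [Real.dist_eq, abs_lt] at this
      have h3 : 0 ≤ (n : ℝ) * dist y z := by positivity
      linarith
    · have h3 : (C - c) / δ ≤ n := (Nat.le_ceil _).trans (by exact_mod_cast hn)
      rw [div_le_iff₀ hδ] at h3
      have h4 : (n : ℝ) * δ ≤ n * dist y z := by
        rw [dist_comm y z]
        have := not_lt.1 hz
        gcongr
      linarith [hc z, hC y]
  rw [Real.dist_eq, abs_lt]
  constructor <;> linarith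

end reg

section dense

variable {Y : Type*} [MetricSpace Y] [MeasurableSpace Y] [BorelSpace Y]

/-- **density**: Lipschitz functions with values in `[0, 1]` -/
theorem lip_L1 (μ : Measure Y) [IsFiniteMeasure μ] {G : Y → ℝ} (hG : Measurable G) (h0 : ∀ y, 0 ≤ G y) (h1 : ∀ y, G y ≤ 1)
    {ε : ℝ} (hε : 0 < ε) :
    ∃ (K : ℝ≥0) (F : Y → ℝ), LipschitzWith K F ∧ (∀ y, 0 ≤ F y ∧ F y ≤ 1) ∧ ∫ y, |G y - F y| ∂μ ≤ ε := by
  have hGi : Integrable G μ := (integrable_const (1 : ℝ)).mono' hG.aestronglyMeasurable (Eventually.of_forall fun y => by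
    rw [Real.norm_eq_abs, abs_of_nonneg (h0 y)]
    exact h1 y)
  obtain ⟨g0, hg0, hgi⟩ := hGi.exists_boundedContinuous_integral_sub_le (half_pos hε)
  -- clip
  obtain ⟨g, hg⟩ : ∃ g : Y → ℝ, g = fun y => max 0 (min 1 (g0 y)) := ⟨_, rfl⟩
  have hgc : Continuous g := by
    rw [hg]
    exact continuous_const.max (continuous_const.min g0.continuous)
  have hg1 : ∀ y, 0 ≤ g y := fun y => by rw [hg]; exact le_max_left _ _
  have hg2 : ∀ y, g y ≤ 1 := fun y => by rw [hg]; exact max_le zero_le_one (min_le_left _ _)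
  have hgg : ∀ y, |G y - g y| ≤ |G y - g0 y| := by
    intro y
    have e : G y = max 0 (min 1 (G y)) := by rw [min_eq_right (h1 y), max_eq_right (h0 y)]
    rw [hg]
    show |G y - max 0 (min 1 (g0 y))| ≤ |G y - g0 y|
    rw [e]
    have e1 := abs_max_sub_max_le_abs (min 1 (G y)) (min 1 (g0 y)) 0
    have e2 := abs_min_sub_min_le_max 1 (G y) 1 (g0 y)
    rw [max_comm (0 : ℝ), max_comm (0 : ℝ)]
    refine e1.trans (e2.trans ?_)
    rw [sub_self, abs_zero, max_eq_right (abs_nonneg _), min_eq_right (h1 y), max_eq_left (h0 y)]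
  have ib : ∀ {f f' : Y → ℝ}, Measurable f → Measurable f' → (∀ y, 0 ≤ f y ∧ f y ≤ 1) → (∀ y, 0 ≤ f' y ∧ f' y ≤ 1) →
      Integrable (fun y => |f y - f' y|) μ := by
    intro f f' hf hf' h h'
    refine (integrable_const (1 : ℝ)).mono' (continuous_abs.measurable.comp (hf.sub hf')).aestronglyMeasurable
      (Eventually.of_forall fun y => ?_)
    rw [Real.norm_eq_abs, abs_abs, abs_le]
    have := h y
    have := h' y
    constructor <;> linarith
  have hlim : Tendsto (fun n => ∫ y, |g y - lreg g n y| ∂μ) atTop (𝓝 (∫ _y, (0 : ℝ) ∂μ)) := by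
    refine tendsto_integral_of_dominated_convergence (fun _ => 1) (fun n => ?_) (integrable_const _) (fun n => ?_) ?_
    · exact (continuous_abs.comp (hgc.sub (lreg_lip hg1 n).continuous)).measurable.aestronglyMeasurable
    · refine Eventually.of_forall fun y => ?_
      rw [Real.norm_eq_abs, abs_abs, abs_le]
      have h2 := lreg_le hg1 n y
      have h3 := le_lreg hg1 n y
      have h4 := hg2 y
      have h5 := hg1 y
      constructor <;> linarith
    · refine Eventually.of_forall fun y => ?_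
      have h2 : Tendsto (fun n => |g y - lreg g n y|) atTop (𝓝 |g y - g y|) :=
        (tendsto_const_nhds.sub (lreg_tendsto hgc hg1 hg2 y)).abs
      rwa [sub_self, abs_zero] at h2
  rw [integral_zero] at hlim
  obtain ⟨n, hn⟩ := (hlim.eventually_le_const (half_pos hε)).exists
  have hl : ∀ y, 0 ≤ lreg g n y ∧ lreg g n y ≤ 1 := fun y => ⟨le_lreg hg1 n y, (lreg_le hg1 n y).trans (hg2 y)⟩
  refine ⟨n, lreg g n, lreg_lip hg1 n, hl, ?_⟩
  have i1 := ib hG hgc.measurable (fun y => ⟨h0 y, h1 y⟩) fun y => ⟨hg1 y, hg2 y⟩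
  have i2 := ib hgc.measurable (lreg_lip hg1 n).continuous.measurable (fun y => ⟨hg1 y, hg2 y⟩) hl
  calc ∫ y, |G y - lreg g n y| ∂μ ≤ ∫ y, (|G y - g y| + |g y - lreg g n y|) ∂μ := by
        refine integral_mono (ib hG (lreg_lip hg1 n).continuous.measurable (fun y => ⟨h0 y, h1 y⟩) hl) (i1.add i2) fun y => ?_
        exact abs_sub_le _ _ _
    _ = ∫ y, |G y - g y| ∂μ + ∫ y, |g y - lreg g n y| ∂μ := integral_add i1 i2
    _ ≤ ε := by
        have h2 : ∫ y, |G y - g y| ∂μ ≤ ∫ y, ‖G y - g0 y‖ ∂μ := by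
          refine integral_mono i1 (hGi.sub hgi).norm fun y => ?_
          exact hgg y
        linarith

end dense

section loc

variable {A Y Z : Type*} [MeasurableSpace A] [MetricSpace Y] [MeasurableSpace Y] [BorelSpace Y] [MetricSpace Z]
  [MeasurableSpace Z] [BorelSpace Z]

/-- **local approximants**, one end -/
theorem loc_lip {β : Measure A} [IsFiniteMeasure β] {T : A → Y} (hT : Measurable T) {ψ : A → ℝ} (hψ : Measurable ψ)
    (h0 : ∀ a, 0 ≤ ψ a) (h1 : ∀ a, ψ a ≤ 1) {G : Y → ℝ} (hG : Measurable G) {B : Set A} (hB : MeasurableSet B)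
    (h : ∀ᵐ a ∂β, a ∉ B → ψ a = G (T a)) {ε : ℝ} (hε : 0 < ε) :
    ∃ (K : ℝ≥0) (F : Y → ℝ), LipschitzWith K F ∧ (∀ y, 0 ≤ F y ∧ F y ≤ 1) ∧ ∫ a, |ψ a - F (T a)| ∂β ≤ β.real B + ε := by
  obtain ⟨G', hG'⟩ : ∃ G' : Y → ℝ, G' = fun y => max 0 (min 1 (G y)) := ⟨_, rfl⟩
  have hGm : Measurable G' := by
    rw [hG']
    exact measurable_const.max (measurable_const.min hG)
  have g0 : ∀ y, 0 ≤ G' y := fun y => by rw [hG']; exact le_max_left _ _
  have g1 : ∀ y, G' y ≤ 1 := fun y => by rw [hG']; exact max_le zero_le_one (min_le_left _ _)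
  obtain ⟨K, F, hF, hF1, hFi⟩ := lip_L1 (β.map T) hGm g0 g1 hε
  refine ⟨K, F, hF, hF1, ?_⟩
  have hFT : Measurable fun a => F (T a) := hF.continuous.measurable.comp hT
  have hGT : Measurable fun a => G' (T a) := hGm.comp hT
  have e1 : ∫ a, |G' (T a) - F (T a)| ∂β ≤ ε := by
    have hm : Measurable fun y => |G' y - F y| := continuous_abs.measurable.comp (hGm.sub hF.continuous.measurable)
    rwa [integral_map hT.aemeasurable hm.aestronglyMeasurable] at hFi
  have i1 : Integrable (fun a => |G' (T a) - F (T a)|) β := by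
    refine (integrable_const (1 : ℝ)).mono' (continuous_abs.measurable.comp (hGT.sub hFT)).aestronglyMeasurable
      (Eventually.of_forall fun a => ?_)
    rw [Real.norm_eq_abs, abs_abs, abs_le]
    have := g0 (T a)
    have := g1 (T a)
    have := hF1 (T a)
    constructor <;> linarith
  have i2 : Integrable (indicator B fun _ => (1 : ℝ)) β := (integrable_const _).indicator hB
  calc ∫ a, |ψ a - F (T a)| ∂β ≤ ∫ a, (indicator B (fun _ => (1 : ℝ)) a + |G' (T a) - F (T a)|) ∂β := by
        refine integral_mono_ae ?_ (i2.add i1) ?_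
        · refine (integrable_const (1 : ℝ)).mono' (continuous_abs.measurable.comp (hψ.sub hFT)).aestronglyMeasurable
            (Eventually.of_forall fun a => ?_)
          rw [Real.norm_eq_abs, abs_abs, abs_le]
          have := h0 a
          have := h1 a
          have := hF1 (T a)
          constructor <;> linarith
        · filter_upwards [h] with a ha
          by_cases hb : a ∈ B
          · rw [indicator_of_mem hb]
            have h2 : |ψ a - F (T a)| ≤ 1 := by
              rw [abs_le]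
              have := h0 a
              have := h1 a
              have := hF1 (T a)
              constructor <;> linarith
            have := abs_nonneg (G' (T a) - F (T a))
            linarith
          · rw [indicator_of_notMem hb, zero_add]
            have h2 : G' (T a) = ψ a := by
              rw [hG']
              show max 0 (min 1 (G (T a))) = ψ a
              rw [← ha hb, min_eq_right (h1 a), max_eq_right (h0 a)]
            rw [h2]
    _ = β.real B + ∫ a, |G' (T a) - F (T a)| ∂β := by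
        have e : ∫ a, indicator B (fun _ => (1 : ℝ)) a ∂β = β.real B := integral_indicator_one hB
        rw [integral_add i2 i1, e]
    _ ≤ _ := by linarith

/-- **local approximants**, both ends -/
theorem loc_lip2 {β : Measure A} [IsFiniteMeasure β] {T : A → Y} (hT : Measurable T) {T' : A → Z} (hT' : Measurable T')
    {ψ ψ' : A → ℝ} (hψ : Measurable ψ) (hψ' : Measurable ψ') (h0 : ∀ a, 0 ≤ ψ a ∧ ψ a ≤ 1) (h0' : ∀ a, 0 ≤ ψ' a ∧ ψ' a ≤ 1)
    {G : Y → ℝ} (hG : Measurable G) {G' : Z → ℝ} (hG' : Measurable G') {B B' : Set A} (hB : MeasurableSet B)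
    (hB' : MeasurableSet B') (h : ∀ᵐ a ∂β, a ∉ B → ψ a = G (T a)) (h' : ∀ᵐ a ∂β, a ∉ B' → ψ' a = G' (T' a))
    {ε : ℝ} (hε : 0 < ε) :
    ∃ (K : ℝ≥0) (F : Y → ℝ) (F' : Z → ℝ), LipschitzWith K F ∧ LipschitzWith K F' ∧ (∀ y, 0 ≤ F y ∧ F y ≤ 1) ∧
      (∀ y, 0 ≤ F' y ∧ F' y ≤ 1) ∧ ∫ a, |ψ a - F (T a)| ∂β ≤ β.real B + ε ∧
      ∫ a, |ψ' a - F' (T' a)| ∂β ≤ β.real B' + ε ∧
      ∫ a, |ψ a * ψ' a - F (T a) * F' (T' a)| ∂β ≤ β.real B + β.real B' + 2 * ε := by
  obtain ⟨K, F, hF, hF1, hFi⟩ := loc_lip hT hψ (fun a => (h0 a).1) (fun a => (h0 a).2) hG hB h hε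
  obtain ⟨K', F', hF', hF1', hFi'⟩ := loc_lip hT' hψ' (fun a => (h0' a).1) (fun a => (h0' a).2) hG' hB' h' hε
  refine ⟨max K K', F, F', hF.weaken (le_max_left _ _), hF'.weaken (le_max_right _ _), hF1, hF1', hFi, hFi', ?_⟩
  have hFT : Measurable fun a => F (T a) := hF.continuous.measurable.comp hT
  have hFT' : Measurable fun a => F' (T' a) := hF'.continuous.measurable.comp hT'
  have ib : ∀ {f f' : A → ℝ}, Measurable f → Measurable f' → (∀ y, 0 ≤ f y ∧ f y ≤ 1) → (∀ y, 0 ≤ f' y ∧ f' y ≤ 1) →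
      Integrable (fun y => |f y - f' y|) β := by
    intro f f' hf hf' g g'
    refine (integrable_const (1 : ℝ)).mono' (continuous_abs.measurable.comp (hf.sub hf')).aestronglyMeasurable
      (Eventually.of_forall fun y => ?_)
    rw [Real.norm_eq_abs, abs_abs, abs_le]
    have := g y
    have := g' y
    constructor <;> linarith
  have i1 := ib hψ hFT h0 fun a => hF1 (T a)
  have i2 := ib hψ' hFT' h0' fun a => hF1' (T' a)
  calc ∫ a, |ψ a * ψ' a - F (T a) * F' (T' a)| ∂β ≤ ∫ a, (|ψ a - F (T a)| + |ψ' a - F' (T' a)|) ∂β := by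
        refine integral_mono (ib (hψ.mul hψ') (hFT.mul hFT') (fun a => ⟨mul_nonneg (h0 a).1 (h0' a).1,
          mul_le_one₀ (h0 a).2 (h0' a).1 (h0' a).2⟩) fun a => ⟨mul_nonneg (hF1 _).1 (hF1' _).1,
          mul_le_one₀ (hF1 _).2 (hF1' _).1 (hF1' _).2⟩) (i1.add i2) fun a => ?_
        show |ψ a * ψ' a - F (T a) * F' (T' a)| ≤ |ψ a - F (T a)| + |ψ' a - F' (T' a)|
        have e : ψ a * ψ' a - F (T a) * F' (T' a) = (ψ a - F (T a)) * ψ' a + F (T a) * (ψ' a - F' (T' a)) := by ring
        rw [e]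
        refine (abs_add_le _ _).trans (add_le_add ?_ ?_)
        · rw [abs_mul, abs_of_nonneg (h0' a).1]
          exact mul_le_of_le_one_right (abs_nonneg _) (h0' a).2
        · rw [abs_mul, abs_of_nonneg (hF1 _).1]
          exact mul_le_of_le_one_left (abs_nonneg _) (hF1 _).2
    _ = ∫ a, |ψ a - F (T a)| ∂β + ∫ a, |ψ' a - F' (T' a)| ∂β := integral_add i1 i2
    _ ≤ _ := by linarith

end loc

end Pool.Agent.ROT.F3
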