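import Pool.Agent.ROT.F3LocA

/-!
# ROT, F3, row K7 / D39, D48 (helper37, over helper28's F3LocA): functional gates are local (deterministic half)

The gates at a functional level are the FUNCTIONAL marks (limits of the marks over a functional base), no free cell.

* `CnF Q tc tx w c x` : the marks at all the countably many parameters `q` near the functional parameters `w` are near `c`, `x`;
* **`fgF_loc`** : two strands with a common piece have the same functional gates.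
-/

set_option autoImplicit false

open Set Filter Topology

namespace Pool.Agent.ROT.F3.LR

/-- `c`, `x` = the marks at the functional parameters `w` (`-1` = none), stable in all the parameters -/
def CnF (Q : Set Qg) (tc tx : Qg → ℝ) (w : Qg) (c x : ℝ) : Prop := ∀ η : ℝ, 0 < η → ∃ μ : ℝ, 0 < μ ∧ ∀ q ∈ Q, w.Near q μ →
  (0 ≤ c ↔ 0 ≤ tc q) ∧ (0 ≤ c → |tc q - c| ≤ η) ∧ (0 ≤ x ↔ 0 ≤ tx q) ∧ (0 ≤ x → |tx q - x| ≤ η)

/-- the condition on the diameter is open -/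
lemma DmL.ex {pl : ℝ → ℂ} (hc : Continuous pl) {T r : ℝ} (hT : 0 ≤ T) (h : DmL pl T r) : ∃ η : ℝ, 0 < η ∧ DmL pl (T + η) r := by
  -- the largest distance up to `T` is less than `r`
  have hcomp : IsCompact (Icc (0 : ℝ) T ×ˢ Icc (0 : ℝ) T) := isCompact_Icc.prod isCompact_Icc
  have hne : (Icc (0 : ℝ) T ×ˢ Icc (0 : ℝ) T).Nonempty := ⟨(0, 0), ⟨⟨le_rfl, hT⟩, ⟨le_rfl, hT⟩⟩⟩
  obtain ⟨m, hm, hmax⟩ := hcomp.exists_isMaxOn hne (f := fun p : ℝ × ℝ => ‖pl p.1 - pl p.2‖) (by fun_prop)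
  have hmr : ‖pl m.1 - pl m.2‖ < r := h _ _ hm.1.1 hm.1.2 hm.2.1 hm.2.2
  obtain ⟨ε, hε⟩ : ∃ ε, ε = (r - ‖pl m.1 - pl m.2‖) / 3 := ⟨_, rfl⟩
  have hε0 : 0 < ε := by
    rw [hε]
    linarith
  obtain ⟨η, hη, hη'⟩ := Metric.continuousAt_iff.1 (hc.continuousAt (x := T)) ε hε0
  refine ⟨η / 2, half_pos hη, fun x y hx0 hx hy0 hy => ?_⟩
  have key : ∀ u : ℝ, 0 ≤ u → u ≤ T + η / 2 → ‖pl u - pl (min u T)‖ < ε := by
    intro u hu0 hu
    rcases le_total u T with h1 | h1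
    · rw [min_eq_left h1, sub_self, norm_zero]
      exact hε0
    · rw [min_eq_right h1]
      have := hη' (x := u) (by rw [Real.dist_eq, abs_of_nonneg (by linarith)]; linarith)
      rwa [dist_eq_norm] at this
  have k1 := key x hx0 hx
  have k2 := key y hy0 hy
  have k3 : ‖pl (min x T) - pl (min y T)‖ ≤ ‖pl m.1 - pl m.2‖ :=
    hmax (a := (min x T, min y T)) ⟨⟨le_min hx0 hT, min_le_right _ _⟩, ⟨le_min hy0 hT, min_le_right _ _⟩⟩
  have k4 : pl x - pl y = (pl x - pl (min x T)) + (pl (min x T) - pl (min y T)) + (pl (min y T) - pl y) := by ring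
  have k5 : ‖pl (min y T) - pl y‖ < ε := by rwa [norm_sub_rev]
  calc ‖pl x - pl y‖ = ‖(pl x - pl (min x T)) + (pl (min x T) - pl (min y T)) + (pl (min y T) - pl y)‖ := by rw [← k4]
    _ ≤ ‖(pl x - pl (min x T)) + (pl (min x T) - pl (min y T))‖ + ‖pl (min y T) - pl y‖ := norm_add_le _ _
    _ ≤ ‖pl x - pl (min x T)‖ + ‖pl (min x T) - pl (min y T)‖ + ‖pl (min y T) - pl y‖ := by
        gcongr
        exact norm_add_le _ _
    _ < ε + ‖pl m.1 - pl m.2‖ + ε := by linarith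
    _ < r := by
        rw [hε]
        linarith

lemma DmL.mono {pl : ℝ → ℂ} {T T' r : ℝ} (h : DmL pl T' r) (hT : T ≤ T') : DmL pl T r := fun x y h0 h1 h2 h3 =>
  h x y h0 (h1.trans hT) h2 (h3.trans hT)

/-- parameters near `w` -/
lemma Near.mk' {w q : Qg} {μ : ℝ} (ha : |q.a - w.a| ≤ μ) (hr : q.r = w.r) (hρ : |q.ρ - w.ρ| ≤ μ) (hm : |q.m - w.m| ≤ μ)
    (hr2 : q.r2 = w.r2) (hρ2 : |q.ρ2 - w.ρ2| ≤ μ) : w.Near q μ := by
  have h0 : 0 ≤ μ := (abs_nonneg _).trans ha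
  refine ⟨ha, ?_, hρ, hm, ?_, hρ2⟩
  · rw [hr, sub_self, abs_zero]
    exact h0
  · rw [hr2, sub_self, abs_zero]
    exact h0

section pair

variable {Q : Set Qg} {L : Set ℝ} {w : Qg} {z R R2 lo hi δ rl rh sl sh f t t' e : ℝ} {pl pl' : ℝ → ℂ} {tc tx tc' tx' : Qg → ℝ}

/-- **two strands with a common piece have the same functional gates** -/
theorem fgF_loc (hN : Net Q L w z R R2 lo hi δ rl rh sl sh) (hs : Sf Q pl tc tx) (hs' : Sf Q pl' tc' tx') {a a' c x c' x' : ℝ}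
    (ha : a = (pl t).re + f) (ha' : a' = (pl' t').re + f) (hC : CnF Q tc tx (w.at a) c x) (hC' : CnF Q tc' tx' (w.at a') c' x')
    (h1 : LMo Q z R R2 t t' pl pl' tc tx tc' tx') (h2 : LMo Q z R R2 t' t pl' pl tc' tx' tc tx)
    (he : ∀ u : ℝ, 0 ≤ u → u ≤ e → pl' (t' + u) - pl' t' = pl (t + u) - pl t) (hpc : Continuous pl)
    (hlo : lo < a) (hhi : a < hi) (hlo' : lo < a') (hhi' : a' < hi) (hx0 : 0 ≤ x) (ht0 : 0 ≤ t) (htc : t < c) (hcx : c ≤ x)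
    (hxe : x - t < e) (hdu : DmL pl c rl) (hdv : DmL pl x sl) : 0 ≤ x' ∧ c' - t' = c - t ∧ x' - t' = x - t := by
  obtain ⟨b, hb⟩ : ∃ b, b = (pl t).re := ⟨_, rfl⟩
  obtain ⟨b', hb'⟩ : ∃ b', b' = (pl' t').re := ⟨_, rfl⟩
  rw [← hb] at ha
  rw [← hb'] at ha'
  obtain ⟨D1, D2, D3, D4, D5, hQ, k1, k1l, k1h, k2, k3, k4, k4l, k4h, k5, d2, d3, d5⟩ := hN.D
  have hδ := hN.pδ
  have hR := hN.pR
  have hR2 := hN.pR2
  have hz := hN.pz
  have n1 := hN.prl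
  have n2 := hN.prh
  have n3 := hN.psl
  have n4 := hN.psh
  have hc0 : 0 ≤ c := ht0.trans htc.le
  -- the auxiliary windows
  obtain ⟨ρ', hρ', hρ'1, hρ'2⟩ := d2 (w.ρ - 3 * R - δ / 2) (w.ρ - 3 * R) (by linarith) (by linarith) (by linarith)
  obtain ⟨ρ'', hρ'', hρ''1, hρ''2⟩ := d2 (w.ρ - 6 * R - δ) (ρ' - 3 * R) le_rfl (by linarith) (by linarith)
  obtain ⟨σ', hσ', hσ'1, hσ'2⟩ := d5 (w.ρ2 - 3 * R2 - δ / 2) (w.ρ2 - 3 * R2) (by linarith) (by linarith) (by linarith)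
  obtain ⟨σ3, hσ3, hσ31, hσ32⟩ := d5 (w.ρ2 - 6 * R2 - δ) (σ' - 3 * R2) le_rfl (by linarith) (by linarith)
  -- the diameters
  obtain ⟨η1, hη1, hdu'⟩ := hdu.ex hpc hc0
  obtain ⟨η2, hη2, hdv'⟩ := hdv.ex hpc hx0
  -- the main estimate: for every `η` a level below `a'` whose marks are `η`-close, windows as large as we like
  have main : ∀ μ' η : ℝ, 0 < μ' → 0 < η → ∃ q ∈ Q, (w.at a').Near q μ' ∧ 0 ≤ tc' q ∧ 0 ≤ tx' q ∧
      |tc' q - t' - (c - t)| ≤ η ∧ |tx' q - t' - (x - t)| ≤ η := by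
    intro μ' η hμ' hη
    obtain ⟨ν, hν⟩ : ∃ ν, ν = min (min μ' δ) (min (w.ρ2 - σ') (w.ρ - ρ')) := ⟨_, rfl⟩
    have hν0 : 0 < ν := by
      rw [hν]
      exact lt_min (lt_min hμ' hδ) (lt_min (by linarith) (by linarith))
    have hνμ : ν ≤ μ' := by rw [hν]; exact (min_le_left _ _).trans (min_le_left _ _)
    have hνδ : ν ≤ δ := by rw [hν]; exact (min_le_left _ _).trans (min_le_right _ _)
    have hνσ : ν ≤ w.ρ2 - σ' := by rw [hν]; exact (min_le_right _ _).trans (min_le_left _ _)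
    have hνρ : ν ≤ w.ρ - ρ' := by rw [hν]; exact (min_le_right _ _).trans (min_le_right _ _)
    -- continuity of the curve at `c` and at `x`
    obtain ⟨ε1, hε1, cont1⟩ := Metric.continuousAt_iff.1 (hpc.continuousAt (x := c)) (ν / 4) (by positivity)
    obtain ⟨ε2, hε2, cont2⟩ := Metric.continuousAt_iff.1 (hpc.continuousAt (x := x)) (ν / 4) (by positivity)
    obtain ⟨ζ, hζ, z1, z2, z3, z4, z5, z6, z7⟩ : ∃ ζ : ℝ, 0 < ζ ∧ ζ ≤ η ∧ ζ ≤ η1 ∧ ζ ≤ η2 ∧ ζ ≤ ε1 / 2 ∧ ζ ≤ ε2 / 2 ∧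
        ζ < c - t ∧ ζ < e - (x - t) := by
      refine ⟨min (min (min η η1) (min η2 (ε1 / 2))) (min (ε2 / 2) (min ((c - t) / 2) ((e - (x - t)) / 2))), ?_, ?_, ?_, ?_, ?_, ?_, ?_, ?_⟩
      · have q1 : 0 < c - t := sub_pos.2 htc
        have q2 : 0 < e - (x - t) := sub_pos.2 hxe
        positivity
      · exact (min_le_left _ _).trans ((min_le_left _ _).trans (min_le_left _ _))
      · exact (min_le_left _ _).trans ((min_le_left _ _).trans (min_le_right _ _))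
      · exact (min_le_left _ _).trans ((min_le_right _ _).trans (min_le_left _ _))
      · exact (min_le_left _ _).trans ((min_le_right _ _).trans (min_le_right _ _))
      · exact (min_le_right _ _).trans (min_le_left _ _)
      · exact lt_of_le_of_lt ((min_le_right _ _).trans ((min_le_right _ _).trans (min_le_left _ _))) (by linarith)
      · exact lt_of_le_of_lt ((min_le_right _ _).trans ((min_le_right _ _).trans (min_le_right _ _))) (by linarith)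
    obtain ⟨μ, hμ, hCμ⟩ := hC ζ hζ
    -- steps of the parameters
    obtain ⟨κ, hκ, y1, y2, y3, y4, y5⟩ : ∃ κ : ℝ, 0 < κ ∧ κ ≤ μ ∧ κ ≤ ν / 2 ∧ κ ≤ δ / 2 ∧ κ ≤ (hi - a) ∧
        κ ≤ min (a - lo) (a' - lo) := by
      refine ⟨min (min μ (ν / 2)) (min (δ / 2) (min (hi - a) (min (a - lo) (a' - lo)))), ?_, ?_, ?_, ?_, ?_, ?_⟩
      · have q1 : 0 < hi - a := sub_pos.2 hhi
        have q2 : 0 < a - lo := sub_pos.2 hlo
        have q3 : 0 < a' - lo := sub_pos.2 hlo'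
        positivity
      · exact (min_le_left _ _).trans (min_le_left _ _)
      · exact (min_le_left _ _).trans (min_le_right _ _)
      · exact (min_le_right _ _).trans (min_le_left _ _)
      · exact (min_le_right _ _).trans ((min_le_right _ _).trans (min_le_left _ _))
      · exact (min_le_right _ _).trans ((min_le_right _ _).trans (min_le_right _ _))
    have y6 := y5.trans (min_le_left _ _)
    have y7 := y5.trans (min_le_right _ _)
    -- levels: `l > a`, `l' < a'`, `l'' < a`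
    obtain ⟨l, hl, hl1, hl2⟩ := hN.dL a (a + κ) hlo.le (by linarith) (by linarith)
    obtain ⟨l', hl', hl'1, hl'2⟩ := hN.dL (a' - κ / 2) a' (by linarith) (by linarith) hhi'.le
    obtain ⟨l'', hl'', hl''1, hl''2⟩ := hN.dL (a - κ) (l' - a' + a) (by linarith) (by linarith) (by linarith)
    -- thresholds: `m3 < m' < w.m`
    obtain ⟨m', hm', hm1, hm2⟩ := d3 (w.m - κ / 2) w.m (by linarith) (by linarith) le_rfl
    obtain ⟨m3, hm3, hm31, hm32⟩ := d3 (w.m - κ) m' (by linarith) (by linarith) hm2.le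
    -- the first strand above `a`
    have hq0 : (⟨l, w.r, w.ρ, w.m, w.r2, w.ρ2⟩ : Qg) ∈ Q := hQ l hl _ k1 _ k2 _ k3 _ k4 _ k5
    have hn0 : (w.at a).Near ⟨l, w.r, w.ρ, w.m, w.r2, w.ρ2⟩ μ := Near.mk' (by
      show |l - a| ≤ μ
      rw [abs_le]
      constructor <;> linarith) rfl (by
      show |w.ρ - w.ρ| ≤ μ
      rw [sub_self, abs_zero]
      exact hμ.le) (by
      show |w.m - w.m| ≤ μ
      rw [sub_self, abs_zero]
      exact hμ.le) rfl (by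
      show |w.ρ2 - w.ρ2| ≤ μ
      rw [sub_self, abs_zero]
      exact hμ.le)
    obtain ⟨c1, c2, c3, c4⟩ := hCμ _ hq0 hn0
    have c1' := c1.1 hc0
    have c2' := abs_le.1 (c2 hc0)
    have c3' := c3.1 hx0
    have c4' := abs_le.1 (c4 hx0)
    have hql : (⟨l, rl, w.ρ, w.m, sl, w.ρ2⟩ : Qg) ∈ Q := hQ l hl _ k1l _ k2 _ k3 _ k4l _ k5
    have e6 := hs.cd _ hq0 _ hql c1' rfl rfl (hdu'.mono (by linarith))
    have e7 := hs.xd _ hq0 _ hql c3' rfl rfl rfl rfl (hdu'.mono (by linarith)) (hdv'.mono (by linarith))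
    -- the second strand, weak windows
    have hq' : (⟨l', w.r, ρ', m', w.r2, σ'⟩ : Qg) ∈ Q := hQ l' hl' _ k1 ρ' hρ' m' hm' _ k4 σ' hσ'
    have hlev : l' - (pl' t').re < l - (pl t).re := by
      rw [← hb, ← hb']
      linarith
    obtain ⟨f1, f2⟩ := h1.x1 _ hql ⟨l', w.r, ρ', m', w.r2, σ'⟩ hq' (by rw [e7]; exact c3') hlev n1 hρ'2 hm2 n3 hσ'2
    obtain ⟨f3, f4⟩ := h1.c1 _ hql ⟨l', w.r, ρ', m', w.r2, σ'⟩ hq' (by rw [e6]; exact c1') hlev n1 hρ'2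
    rw [e7] at f2
    rw [e6] at f4
    -- back to the first strand below `a`
    have hq2 : (⟨l'', w.r, w.ρ, m3, w.r2, w.ρ2⟩ : Qg) ∈ Q := hQ l'' hl'' _ k1 _ k2 _ hm3 _ k4 _ k5
    have hn2 : (w.at a).Near ⟨l'', w.r, w.ρ, m3, w.r2, w.ρ2⟩ μ := Near.mk' (by
      show |l'' - a| ≤ μ
      rw [abs_le]
      constructor <;> linarith) rfl (by
      show |w.ρ - w.ρ| ≤ μ
      rw [sub_self, abs_zero]
      exact hμ.le) (by
      show |m3 - w.m| ≤ μ
      rw [abs_le]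
      constructor <;> linarith) rfl (by
      show |w.ρ2 - w.ρ2| ≤ μ
      rw [sub_self, abs_zero]
      exact hμ.le)
    obtain ⟨g1, g2, g3, g4⟩ := hCμ _ hq2 hn2
    have g1' := g1.1 hc0
    have g2' := abs_le.1 (g2 hc0)
    have g3' := g3.1 hx0
    have g4' := abs_le.1 (g4 hx0)
    have hq3 : (⟨l'', rh, ρ'', m3, sh, σ3⟩ : Qg) ∈ Q := hQ l'' hl'' _ k1h ρ'' hρ'' m3 hm3 _ k4h σ3 hσ3
    have hlev2 : l'' - (pl t).re < l' - (pl' t').re := by
      rw [← hb, ← hb']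
      linarith
    obtain ⟨f5, f6⟩ := h2.c1 ⟨l', w.r, ρ', m', w.r2, σ'⟩ hq' ⟨l'', rh, ρ'', m3, sh, σ3⟩ hq3 f3 hlev2 n2 hρ''2
    obtain ⟨f7, f8⟩ := h2.x1 ⟨l', w.r, ρ', m', w.r2, σ'⟩ hq' ⟨l'', rh, ρ'', m3, sh, σ3⟩ hq3 f1 hlev2 n2 hρ''2 hm32 n4 hσ32
    have e8 := hs.cw _ hq2 _ hq3 g1' rfl (by show w.r ≤ rh; linarith) (by show ρ'' ≤ w.ρ; linarith)
    have e9 := hs.xw _ hq2 _ hq3 g3' rfl rfl (by show w.r ≤ rh; linarith) (by show ρ'' ≤ w.ρ; linarith)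
      (by show w.r2 ≤ sh; linarith) (by show σ3 ≤ w.ρ2; linarith)
    rw [e8] at f6
    rw [e9] at f8
    -- the times on the second strand
    have b1 : |tc' ⟨l', w.r, ρ', m', w.r2, σ'⟩ - t' - (c - t)| ≤ ζ := by
      rw [abs_le]
      constructor <;> linarith
    have b2 : |tx' ⟨l', w.r, ρ', m', w.r2, σ'⟩ - t' - (x - t)| ≤ ζ := by
      rw [abs_le]
      constructor <;> linarith
    have b1' := abs_le.1 b1
    have b2' := abs_le.1 b2
    -- the places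
    have p1 : ‖(pl' (tc' ⟨l', w.r, ρ', m', w.r2, σ'⟩) - pl' t') - (pl (tc ⟨l, rl, w.ρ, w.m, sl, w.ρ2⟩) - pl t)‖ < ν / 2 := by
      have e10 : tc' ⟨l', w.r, ρ', m', w.r2, σ'⟩ = t' + (tc' ⟨l', w.r, ρ', m', w.r2, σ'⟩ - t') := by ring
      rw [e10, he _ (by linarith) (by linarith), e6, sub_sub_sub_cancel_right]
      have h3 := cont1 (x := t + (tc' ⟨l', w.r, ρ', m', w.r2, σ'⟩ - t')) (by
        rw [Real.dist_eq, abs_lt]
        constructor <;> linarith)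
      have h4 := cont1 (x := tc ⟨l, w.r, w.ρ, w.m, w.r2, w.ρ2⟩) (by
        rw [Real.dist_eq, abs_lt]
        constructor <;> linarith)
      rw [dist_eq_norm] at h3 h4
      calc _ ≤ ‖pl (t + (tc' ⟨l', w.r, ρ', m', w.r2, σ'⟩ - t')) - pl c‖ + ‖pl c - pl (tc ⟨l, w.r, w.ρ, w.m, w.r2, w.ρ2⟩)‖ :=
            norm_sub_le_norm_sub_add_norm_sub _ _ _
        _ < ν / 4 + ν / 4 := add_lt_add h3 (by rwa [norm_sub_rev])
        _ = ν / 2 := by ring
    have p2 : ‖(pl' (tx' ⟨l', w.r, ρ', m', w.r2, σ'⟩) - pl' t') - (pl (tx ⟨l, rl, w.ρ, w.m, sl, w.ρ2⟩) - pl t)‖ < ν / 2 := by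
      have e10 : tx' ⟨l', w.r, ρ', m', w.r2, σ'⟩ = t' + (tx' ⟨l', w.r, ρ', m', w.r2, σ'⟩ - t') := by ring
      rw [e10, he _ (by linarith) (by linarith), e7, sub_sub_sub_cancel_right]
      have h3 := cont2 (x := t + (tx' ⟨l', w.r, ρ', m', w.r2, σ'⟩ - t')) (by
        rw [Real.dist_eq, abs_lt]
        constructor <;> linarith)
      have h4 := cont2 (x := tx ⟨l, w.r, w.ρ, w.m, w.r2, w.ρ2⟩) (by
        rw [Real.dist_eq, abs_lt]
        constructor <;> linarith)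
      rw [dist_eq_norm] at h3 h4
      calc _ ≤ ‖pl (t + (tx' ⟨l', w.r, ρ', m', w.r2, σ'⟩ - t')) - pl x‖ + ‖pl x - pl (tx ⟨l, w.r, w.ρ, w.m, w.r2, w.ρ2⟩)‖ :=
            norm_sub_le_norm_sub_add_norm_sub _ _ _
        _ < ν / 4 + ν / 4 := add_lt_add h3 (by rwa [norm_sub_rev])
        _ = ν / 2 := by ring
    -- the full windows
    obtain ⟨ρ4, hρ4, hρ41, hρ42⟩ := d2 (w.ρ - ν) (w.ρ - ν / 2) (by linarith) (by linarith) (by linarith)
    obtain ⟨σ4, hσ4, hσ41, hσ42⟩ := d5 (w.ρ2 - ν) (w.ρ2 - ν / 2) (by linarith) (by linarith) (by linarith)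
    have hq4 : (⟨l', w.r, ρ4, m', w.r2, σ4⟩ : Qg) ∈ Q := hQ l' hl' _ k1 ρ4 hρ4 m' hm' _ k4 σ4 hσ4
    have u1 := h1.x2 _ hql ⟨l', w.r, ρ', m', w.r2, σ'⟩ hq' ⟨l', w.r, ρ4, m', w.r2, σ4⟩ hq4 (by rw [e7]; exact c3') hlev n1
      hρ'2 hm2 n3 hσ'2 rfl rfl n1 (by
        show ρ4 + _ < w.ρ
        linarith) n3 (by
        show σ4 + _ < w.ρ2
        linarith)
    have u2 := hs'.xc _ hq4 u1
    have u3 := hs'.cw _ hq4 _ hq' u2 rfl le_rfl (by show ρ' ≤ ρ4; linarith)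
    have u4 := hs'.xw _ hq4 _ hq' u1 rfl rfl le_rfl (by show ρ' ≤ ρ4; linarith) le_rfl (by show σ' ≤ σ4; linarith)
    refine ⟨_, hq4, Near.mk' ?_ rfl ?_ ?_ rfl ?_, u2, u1, ?_, ?_⟩
    · show |l' - a'| ≤ μ'
      rw [abs_le]
      constructor <;> linarith
    · show |ρ4 - w.ρ| ≤ μ'
      rw [abs_le]
      constructor <;> linarith
    · show |m' - w.m| ≤ μ'
      rw [abs_le]
      constructor <;> linarith
    · show |σ4 - w.ρ2| ≤ μ'
      rw [abs_le]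
      constructor <;> linarith
    · rw [← u3]
      exact b1.trans z1
    · rw [← u4]
      exact b2.trans z1
  -- the functional marks of the second strand
  have hx0' : 0 ≤ x' := by
    obtain ⟨μ, hμ, hμ'⟩ := hC' 1 one_pos
    obtain ⟨q, hq, hn, -, h4, -, -⟩ := main μ 1 hμ one_pos
    exact (hμ' q hq hn).2.2.1.2 h4
  have hc0' : 0 ≤ c' := by
    obtain ⟨μ, hμ, hμ'⟩ := hC' 1 one_pos
    obtain ⟨q, hq, hn, h3, -, -, -⟩ := main μ 1 hμ one_pos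
    exact (hμ' q hq hn).1.2 h3
  have hlim : ∀ η : ℝ, 0 < η → |c' - t' - (c - t)| ≤ η ∧ |x' - t' - (x - t)| ≤ η := by
    intro η hη
    obtain ⟨μ, hμ, hμ'⟩ := hC' (η / 2) (half_pos hη)
    obtain ⟨q, hq, hn, -, -, h5, h6⟩ := main μ (η / 2) hμ (half_pos hη)
    obtain ⟨-, j1, -, j2⟩ := hμ' q hq hn
    have j1' := abs_le.1 (j1 hc0')
    have j2' := abs_le.1 (j2 hx0')
    have h5' := abs_le.1 h5
    have h6' := abs_le.1 h6
    rw [abs_le, abs_le]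
    refine ⟨⟨?_, ?_⟩, ?_, ?_⟩ <;> linarith
  have z0 : ∀ v : ℝ, (∀ η : ℝ, 0 < η → |v| ≤ η) → v = 0 := fun v hv =>
    abs_nonpos_iff.1 (le_of_forall_pos_le_add fun η hη => by rw [zero_add]; exact hv η hη)
  exact ⟨hx0', sub_eq_zero.1 (z0 _ fun η hη => (hlim η hη).1), sub_eq_zero.1 (z0 _ fun η hη => (hlim η hη).2)⟩

end pair

end Pool.Agent.ROT.F3.LR
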