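import Pool.Agent.ROT.F3NulV
import Pool.Agent.ROT.F3K2C
import Pool.Agent.ROT.F3LocB
import Pool.Agent.ROT.F3LocC
import Pool.Agent.ROT.F3RelL
import Pool.Agent.ROT.F3LimF3

/-!
# ROT, F3, row loc_rest / D49 (helper88): the marks of the strands are stable almost everywhere

* `Cfm` (28), `CnF` (37), `Cn` : `cn_iff`, `cnF_of`; `Cfm.sc`, `Cn.scale`, `CnF.scale` : absolute times;
* **`cf_lim`** : `Cfm` for almost every limit curve, from the convergence of the marks and the uniform statement for the systems;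
* **`cfB_lim`**, **`cfC_lim`**, **`cnF_lim`** : second gates, gates, both, over a functional base `p + b`;
  **`cnB_lim`**, **`cnC_lim`** : `Cn`; **`cn_all`**, **`cn_ex`** : all the parameters of 16's `Gt1`, `Gt2`.
-/

set_option autoImplicit false
set_option linter.unusedSectionVars false

open Set Filter Topology MeasureTheory

namespace Pool.Agent.ROT.F3.LR

open Pool.Agent.NTS.Res
open Pool.Agent.SCF.Z Pool.Agent.SCF.M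
open LF (Cv Lm)

/-! ### one strand -/

lemma Qg.Near.mono {w q : Qg} {μ μ' : ℝ} (h : w.Near q μ) (hm : μ ≤ μ') : w.Near q μ' :=
  ⟨h.a.trans hm, h.r.trans hm, h.ρ.trans hm, h.m.trans hm, h.r2.trans hm, h.ρ2.trans hm⟩

lemma cn_iff {Q : Set Qg} {tx : Qg → ℝ} {q : Qg} : Cn Q tx q ↔ Cfm Q tx q (tx q) := Iff.rfl

/-- absolute time -/
noncomputable def aT (D T : ℝ) : ℝ := if 0 ≤ T then T * D else -1

lemma aT_nn {D T : ℝ} (hD : 0 ≤ D) : 0 ≤ aT D T ↔ 0 ≤ T := by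
  unfold aT
  split_ifs with h
  · exact iff_of_true (mul_nonneg h hD) h
  · exact iff_of_false (by norm_num) h

lemma aT_of {D T : ℝ} (h : 0 ≤ T) : aT D T = T * D := if_pos h

/-- 28's form -/
lemma aT_ab (D T : ℝ) : aT D T = if T < 0 then -1 else T * D := by
  unfold aT
  split_ifs with h1 h2 h2
  · linarith
  · rfl
  · rfl
  · linarith

/-- absolute times -/
lemma Cfm.sc {Q : Set Qg} {tx : Qg → ℝ} {T D : ℝ} {w : Qg} (h : Cfm Q tx w T) (hD : 0 ≤ D) :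
    Cfm Q (fun q => aT D (tx q)) w (aT D T) := by
  intro η hη
  obtain ⟨μ, hμ, h1⟩ := h (η / (D + 1)) (by positivity)
  refine ⟨μ, hμ, fun q' hq' hn => ?_⟩
  obtain ⟨h2, h3⟩ := h1 q' hq' hn
  refine ⟨(aT_nn hD).trans (h2.trans (aT_nn hD).symm), fun h4 => ?_⟩
  have h5 := (aT_nn hD).1 h4
  have h6 := h3 h5
  show |aT D (tx q') - aT D T| ≤ η
  rw [aT_of h5, aT_of (h2.1 h5), ← sub_mul, abs_mul, abs_of_nonneg hD]
  rw [le_div_iff₀ (by positivity)] at h6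
  have h7 := mul_nonneg (abs_nonneg (tx q' - T)) zero_le_one
  nlinarith [abs_nonneg (tx q' - T)]

/-- absolute times -/
lemma Cn.scale {Q : Set Qg} {tx : Qg → ℝ} {D : ℝ} {q : Qg} (h : Cn Q tx q) (hD : 0 ≤ D) :
    Cn Q (fun q => aT D (tx q)) q := Cfm.sc h hD

/-- fewer parameters -/
lemma Cn.sub {Q Q' : Set Qg} {tx : Qg → ℝ} {q : Qg} (h : Cn Q tx q) (hQ : Q' ⊆ Q) : Cn Q' tx q := fun η hη => by
  obtain ⟨μ, hμ, h1⟩ := h η hη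
  exact ⟨μ, hμ, fun q' hq' => h1 q' (hQ hq')⟩

/-- another function with the same values on `Q` -/
lemma Cfm.congr {Q : Set Qg} {tx tx' : Qg → ℝ} {T : ℝ} {w : Qg} (h : Cfm Q tx w T) (he : ∀ q ∈ Q, tx' q = tx q) : Cfm Q tx' w T :=
  fun η hη => by
    obtain ⟨μ, hμ, h1⟩ := h η hη
    exact ⟨μ, hμ, fun q' hq' hn => by rw [he q' hq']; exact h1 q' hq' hn⟩

/-- 37's form: both marks -/
lemma cnF_of {Q : Set Qg} {tc tx : Qg → ℝ} {w : Qg} {c x : ℝ} (hc : Cfm Q tc w c) (hx : Cfm Q tx w x) : CnF Q tc tx w c x := by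
  intro η hη
  obtain ⟨μ1, h1, h2⟩ := hc η hη
  obtain ⟨μ2, h3, h4⟩ := hx η hη
  refine ⟨min μ1 μ2, lt_min h1 h3, fun q hq hn => ?_⟩
  obtain ⟨a1, a2⟩ := h2 q hq (hn.mono (min_le_left _ _))
  obtain ⟨b1, b2⟩ := h4 q hq (hn.mono (min_le_right _ _))
  exact ⟨a1, a2, b1, b2⟩

lemma CnF.fst {Q : Set Qg} {tc tx : Qg → ℝ} {w : Qg} {c x : ℝ} (h : CnF Q tc tx w c x) : Cfm Q tc w c := fun η hη => by
  obtain ⟨μ, hμ, h1⟩ := h η hη
  exact ⟨μ, hμ, fun q hq hn => ⟨(h1 q hq hn).1, (h1 q hq hn).2.1⟩⟩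

lemma CnF.snd {Q : Set Qg} {tc tx : Qg → ℝ} {w : Qg} {c x : ℝ} (h : CnF Q tc tx w c x) : Cfm Q tx w x := fun η hη => by
  obtain ⟨μ, hμ, h1⟩ := h η hη
  exact ⟨μ, hμ, fun q hq hn => ⟨(h1 q hq hn).2.2.1, (h1 q hq hn).2.2.2⟩⟩

/-- absolute times -/
lemma CnF.scale {Q : Set Qg} {tc tx : Qg → ℝ} {w : Qg} {c x D : ℝ} (h : CnF Q tc tx w c x) (hD : 0 ≤ D) :
    CnF Q (fun q => aT D (tc q)) (fun q => aT D (tx q)) w (aT D c) (aT D x) := cnF_of (h.fst.sc hD) (h.snd.sc hD)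

/-- the largest distance of the parameters other than the level -/
noncomputable def qpd (q q' : Qg) : ℝ :=
  max (max |q'.r - q.r| |q'.ρ - q.ρ|) (max |q'.m - q.m| (max |q'.r2 - q.r2| |q'.ρ2 - q.ρ2|))

lemma qpd_le {q q' : Qg} {μ : ℝ} : qpd q q' ≤ μ ↔
    |q'.r - q.r| ≤ μ ∧ |q'.ρ - q.ρ| ≤ μ ∧ |q'.m - q.m| ≤ μ ∧ |q'.r2 - q.r2| ≤ μ ∧ |q'.ρ2 - q.ρ2| ≤ μ := by
  unfold qpd
  simp only [max_le_iff, and_assoc]

/-! ### the limit -/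

section lim

variable {ι : Type*} {l : Filter ι} {Ω : ι → Type*} [∀ i, MeasurableSpace (Ω i)] {P : ∀ i, Measure (Ω i)}
  {X : Type*} [PseudoMetricSpace X] [MeasurableSpace X] [BorelSpace X] [CompleteSpace X] [SecondCountableTopology X]
  {c : ∀ i, Ω i → X} {ν : Measure X}

/-- **the marks near the functional mark**: `p` = mark at the level `b + w.a` and the other parameters of `w`, `mk q` = mark at `q` -/
theorem cf_lim [l.NeBot] (hC : Cv l P c ν) {Q : Set Qg} (hQ : Q.Countable) {w : Qg} {p b : ∀ i, Ω i → ℝ} {Φ β : X → ℝ}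
    (hp : Lm l P c ν p Φ) (hb : Lm l P c ν b β) {mk : Qg → ∀ i, Ω i → ℝ} {Ψ : Qg → X → ℝ}
    (hq : ∀ q ∈ Q, Lm l P c ν (mk q) (Ψ q)) (vp : ∀ i ω, p i ω = -1 ∨ 0 ≤ p i ω ∧ p i ω ≤ 1)
    (vq : ∀ q ∈ Q, ∀ i ω, mk q i ω = -1 ∨ 0 ≤ mk q i ω ∧ mk q i ω ≤ 1)
    (h : ∀ η : ℝ, 0 < η → ∀ ε : ℝ, 0 < ε → ∃ μ : ℝ, 0 < μ ∧ ∀ᶠ i in l,
      (P i).real {ω | ¬ ∀ q ∈ Q, (w.at (b i ω + w.a)).Near q μ → |p i ω - mk q i ω| ≤ η} ≤ ε) :
    ∀ᵐ x ∂ν, Cfm Q (fun q => Ψ q x) (w.at (β x + w.a)) (Φ x) := by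
  have hQc : Countable Q := hQ.to_subtype
  have h1 := LF.mk_contQ hC (J := Q) (lv := fun q => q.1.a) (pr := fun q => qpd w q.1) (a := w.a) hp hb
    (q := fun q => mk q.1) (Ψ := fun q => Ψ q.1) (fun q => hq q.1 q.2) fun η hη ε hε => by
      obtain ⟨μ, hμ, h2⟩ := h η hη ε hε
      refine ⟨μ, hμ, ?_⟩
      filter_upwards [h2] with i hi
      have := hC.fin i
      refine (measureReal_mono fun ω hω => ?_).trans hi
      intro h3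
      refine hω fun q h4 h5 => ?_
      obtain ⟨a1, a2, a3, a4, a5⟩ := qpd_le.1 h5
      exact h3 q.1 q.2 ⟨h4, a1, a2, a3, a4, a5⟩
  have h2 : ∀ᵐ x ∂ν, ∀ q : Q, Ψ q.1 x = -1 ∨ 0 ≤ Ψ q.1 x ∧ Ψ q.1 x ≤ 1 :=
    ae_all_iff.2 fun q => LF.val_lim hC (hq q.1 q.2) (vq q.1 q.2)
  filter_upwards [h1, h2, LF.val_lim hC hp vp] with x hx hv hv0 η hη
  obtain ⟨μ, hμ, h3⟩ := hx (min η (1 / 2)) (lt_min hη (by norm_num))
  refine ⟨μ / 2, half_pos hμ, fun q' hq' hn => ?_⟩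
  have h4 : |Φ x - Ψ q' x| ≤ min η (1 / 2) := h3 ⟨q', hq'⟩ (lt_of_le_of_lt hn.a (half_lt_self hμ))
    (qpd_le.2 ⟨hn.r.trans (half_le_self hμ.le), hn.ρ.trans (half_le_self hμ.le), hn.m.trans (half_le_self hμ.le),
      hn.r2.trans (half_le_self hμ.le), hn.ρ2.trans (half_le_self hμ.le)⟩)
  have h5 := abs_le.1 (h4.trans (min_le_right _ _))
  have h6 := h4.trans (min_le_left _ _)
  have h7 := hv ⟨q', hq'⟩
  refine ⟨⟨fun h8 => ?_, fun h8 => ?_⟩, fun _ => ?_⟩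
  · rcases h7 with h7 | h7
    · have h9 : Ψ q' x = -1 := h7
      linarith [h5.2]
    · exact h7.1
  · have h9 : 0 ≤ Ψ q' x := h8
    rcases hv0 with h7 | h7
    · linarith [h5.1]
    · exact h7.1
  · rw [abs_sub_comm]
    exact h6

end lim

/-! ### marks of words -/

lemma mk1_val {D : ℝ → ℕ → Prop} {a r ρ S : ℝ} {n : ℕ} {s : Fin n → Fin 3} :
    mk1 D a r ρ S s = -1 ∨ 0 ≤ mk1 D a r ρ S s ∧ mk1 D a r ρ S s ≤ 1 := by
  by_cases h : ∃ k : ℕ, TP D (a * S) (r * S) (ρ * S) s k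
  · right
    unfold mk1
    rw [dif_pos h]
    refine ⟨by positivity, div_le_one_of_le₀ ?_ (Nat.cast_nonneg _)⟩
    exact_mod_cast h.choose_spec.2.1.le
  · left
    unfold mk1
    rw [dif_neg h]

lemma mkB_val {D : ℝ → ℕ → Prop} {a r ρ m r2 ρ2 S : ℝ} {n : ℕ} {s : Fin n → Fin 3} :
    mkB D a r ρ m r2 ρ2 S s = -1 ∨ 0 ≤ mkB D a r ρ m r2 ρ2 S s ∧ mkB D a r ρ m r2 ρ2 S s ≤ 1 := by
  by_cases h : ∃ p : ℕ × ℕ, GB2 D a r ρ m r2 ρ2 S s p.1 p.2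
  · right
    unfold mkB
    rw [dif_pos h]
    refine ⟨by positivity, div_le_one_of_le₀ ?_ (Nat.cast_nonneg _)⟩
    exact_mod_cast h.choose_spec.2.2.1.le
  · left
    unfold mkB
    rw [dif_neg h]

lemma mulz_val {v z : ℝ} (hv : v = -1 ∨ 0 ≤ v ∧ v ≤ 1) (hz : z = 0 ∨ z = 1) : v * z = -1 ∨ 0 ≤ v * z ∧ v * z ≤ 1 := by
  rcases hz with rfl | rfl
  · right
    rw [mul_zero]
    exact ⟨le_rfl, zero_le_one⟩
  · rwa [mul_one]

lemma mulz_le {v v' z η : ℝ} (hη : 0 ≤ η) (hz : z = 0 ∨ z = 1) (h : |v - v'| ≤ η) : |v * z - v' * z| ≤ η := by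
  rcases hz with rfl | rfl
  · rw [mul_zero, mul_zero, sub_self, abs_zero]
    exact hη
  · rwa [mul_one, mul_one]

section sys

variable {ι Ω : Type*} [MeasurableSpace Ω] {U : Filter ι} {P : ι → Measure Ω} [∀ i, IsFiniteMeasure (P i)] {nn : ι → Ω → ℕ}
  {wd : ∀ (i : ι) (s : Ω), Fin (nn i s) → Fin 3} {S : ι → ℝ}
  {X : Type*} [PseudoMetricSpace X] [MeasurableSpace X] [BorelSpace X] [CompleteSpace X] [SecondCountableTopology X]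
  {c : ι → Ω → X} {ν : Measure X}

/-- **second gates over the functional base `p + b`**; the parameters of `Q` are over the base `p` -/
theorem cfB_lim [U.NeBot] (hC : Cv U P c ν) (hW : WSys U P nn wd S) {Q : Set Qg} (hQ : Q.Countable) {w : Qg} {R : ℝ} (hR : 0 < R)
    (hr : w.r < w.ρ) (hr2 : w.r2 < w.ρ2) (hrR : w.r ≤ 2 * R) {p b z : ι → Ω → ℝ} (hz : ∀ i s, z i s = 0 ∨ z i s = 1)
    (st : StbG U P nn wd S (fun i s => Dv (wd i s) ((p i s + b i s) * S i)) w.a w.r w.ρ)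
    (st2 : StbG U P nn wd S (fun i s => Dv (wd i s) (nlv R w.a w.r w.ρ (S i) (p i s + b i s) 1 (wd i s) * S i)) w.m w.r2 w.ρ2)
    {Φ β : X → ℝ} (hb : Lm U P c ν b β)
    (hp : Lm U P c ν (fun i s => mkB (Dv (wd i s) ((p i s + b i s) * S i)) w.a w.r w.ρ w.m w.r2 w.ρ2 (S i) (wd i s) * z i s) Φ)
    {Ψ : Qg → X → ℝ}
    (hq : ∀ q ∈ Q, Lm U P c ν (fun i s => mkB (Dv (wd i s) (p i s * S i)) q.a q.r q.ρ q.m q.r2 q.ρ2 (S i) (wd i s) * z i s) (Ψ q)) :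
    ∀ᵐ x ∂ν, Cfm Q (fun q => Ψ q x) (w.at (β x + w.a)) (Φ x) := by
  refine cf_lim hC hQ hp hb hq (fun i s => mulz_val mkB_val (hz i s)) (fun q _ i s => mulz_val mkB_val (hz i s)) fun η hη ε hε => ?_
  obtain ⟨μ, hμ, h1⟩ := near_evQ2 (D := fun i s => Dv (wd i s) ((p i s + b i s) * S i)) (D' := fun i s => Dv (wd i s) (p i s * S i))
    hW.pos hr hr2 hW.md st st2 (fun i s k hk => nlv_Dv hR (hW.pos i) hrR hr.le hk) (b := b) (fun i s v j => by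
      unfold Dv
      have e : (v - b i s) * S i + (p i s + b i s) * S i = v * S i + p i s * S i := by ring
      rw [e]) η hη ε hε
  refine ⟨μ, hμ, ?_⟩
  filter_upwards [h1] with i hi
  refine (measureReal_mono fun s hs => ?_).trans hi
  intro h2
  refine hs fun q hq' hn => mulz_le hη.le (hz i s) (h2 q.a q.r q.ρ q.m q.r2 q.ρ2 hn.a hn.r hn.ρ hn.m hn.r2 hn.ρ2)

/-- **gates over the functional base `p + b`** -/
theorem cfC_lim [U.NeBot] (hC : Cv U P c ν) (hS : ∀ i, 0 < S i) {Q : Set Qg} (hQ : Q.Countable) {w : Qg}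
    (hr : w.r < w.ρ) {p b z : ι → Ω → ℝ} (hz : ∀ i s, z i s = 0 ∨ z i s = 1)
    (st : StbG U P nn wd S (fun i s => Dv (wd i s) ((p i s + b i s) * S i)) w.a w.r w.ρ)
    {Φ β : X → ℝ} (hb : Lm U P c ν b β)
    (hp : Lm U P c ν (fun i s => mk1 (Dv (wd i s) ((p i s + b i s) * S i)) w.a w.r w.ρ (S i) (wd i s) * z i s) Φ)
    {Ψ : Qg → X → ℝ}
    (hq : ∀ q ∈ Q, Lm U P c ν (fun i s => mk1 (Dv (wd i s) (p i s * S i)) q.a q.r q.ρ (S i) (wd i s) * z i s) (Ψ q)) :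
    ∀ᵐ x ∂ν, Cfm Q (fun q => Ψ q x) (w.at (β x + w.a)) (Φ x) := by
  refine cf_lim hC hQ hp hb hq (fun i s => mulz_val mk1_val (hz i s)) (fun q _ i s => mulz_val mk1_val (hz i s)) fun η hη ε hε => ?_
  obtain ⟨μ, hμ, h1⟩ := near_evQ1 (D := fun i s => Dv (wd i s) ((p i s + b i s) * S i)) (D' := fun i s => Dv (wd i s) (p i s * S i))
    hS hr st (b := b) (fun i s v j => by
      unfold Dv
      have e : (v - b i s) * S i + (p i s + b i s) * S i = v * S i + p i s * S i := by ring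
      rw [e]) η hη ε hε
  refine ⟨μ, hμ, ?_⟩
  filter_upwards [h1] with i hi
  refine (measureReal_mono fun s hs => ?_).trans hi
  intro h2
  refine hs fun q hq' hn => mulz_le hη.le (hz i s) (h2 q.a q.r q.ρ hn.a hn.r hn.ρ)

/-- **both marks over the functional base `p + b`** (37's `CnF`), relative times -/
theorem cnF_lim [U.NeBot] (hC : Cv U P c ν) (hW : WSys U P nn wd S) {Q : Set Qg} (hQ : Q.Countable) {w : Qg} {R : ℝ} (hR : 0 < R)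
    (hr : w.r < w.ρ) (hr2 : w.r2 < w.ρ2) (hrR : w.r ≤ 2 * R) {p b z : ι → Ω → ℝ} (hz : ∀ i s, z i s = 0 ∨ z i s = 1)
    (st : StbG U P nn wd S (fun i s => Dv (wd i s) ((p i s + b i s) * S i)) w.a w.r w.ρ)
    (st2 : StbG U P nn wd S (fun i s => Dv (wd i s) (nlv R w.a w.r w.ρ (S i) (p i s + b i s) 1 (wd i s) * S i)) w.m w.r2 w.ρ2)
    {Φ1 Φ2 β : X → ℝ} (hb : Lm U P c ν b β)
    (hp1 : Lm U P c ν (fun i s => mk1 (Dv (wd i s) ((p i s + b i s) * S i)) w.a w.r w.ρ (S i) (wd i s) * z i s) Φ1)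
    (hp2 : Lm U P c ν (fun i s => mkB (Dv (wd i s) ((p i s + b i s) * S i)) w.a w.r w.ρ w.m w.r2 w.ρ2 (S i) (wd i s) * z i s) Φ2)
    {Ψ1 Ψ2 : Qg → X → ℝ}
    (hq1 : ∀ q ∈ Q, Lm U P c ν (fun i s => mk1 (Dv (wd i s) (p i s * S i)) q.a q.r q.ρ (S i) (wd i s) * z i s) (Ψ1 q))
    (hq2 : ∀ q ∈ Q, Lm U P c ν (fun i s => mkB (Dv (wd i s) (p i s * S i)) q.a q.r q.ρ q.m q.r2 q.ρ2 (S i) (wd i s) * z i s) (Ψ2 q)) :
    ∀ᵐ x ∂ν, CnF Q (fun q => Ψ1 q x) (fun q => Ψ2 q x) (w.at (β x + w.a)) (Φ1 x) (Φ2 x) := by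
  filter_upwards [cfC_lim hC hW.pos hQ hr hz st hb hp1 hq1, cfB_lim hC hW hQ hR hr hr2 hrR hz st st2 hb hp2 hq2] with x h1 h2
  exact cnF_of h1 h2

/-- **second gates: the marks are stable at `w`** -/
theorem cnB_lim [U.NeBot] (hC : Cv U P c ν) (hW : WSys U P nn wd S) {Q : Set Qg} (hQ : Q.Countable) {w : Qg} {R : ℝ} (hR : 0 < R)
    (hr : w.r < w.ρ) (hr2 : w.r2 < w.ρ2) (hrR : w.r ≤ 2 * R) {p z : ι → Ω → ℝ} (hz : ∀ i s, z i s = 0 ∨ z i s = 1)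
    (st : StbG U P nn wd S (fun i s => Dv (wd i s) (p i s * S i)) w.a w.r w.ρ)
    (st2 : StbG U P nn wd S (fun i s => Dv (wd i s) (nlv R w.a w.r w.ρ (S i) (p i s) 1 (wd i s) * S i)) w.m w.r2 w.ρ2)
    {Ψ : Qg → X → ℝ} (hw : w ∈ Q)
    (hq : ∀ q ∈ Q, Lm U P c ν (fun i s => mkB (Dv (wd i s) (p i s * S i)) q.a q.r q.ρ q.m q.r2 q.ρ2 (S i) (wd i s) * z i s) (Ψ q)) :
    ∀ᵐ x ∂ν, Cn Q (fun q => Ψ q x) w := by
  have h1 := cfB_lim (w := w) hC hW hQ hR hr hr2 hrR hz (p := p) (b := fun _ _ => 0) (by simpa only [add_zero] using st)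
    (by simpa only [add_zero] using st2) (LF.Lm.const hC 0) (by simpa only [add_zero] using hq w hw) hq
  filter_upwards [h1] with x hx
  have e : w.at (0 + w.a) = w := by rw [zero_add]; rfl
  rw [e] at hx
  exact hx

/-- **gates: the marks are stable at `w`** -/
theorem cnC_lim [U.NeBot] (hC : Cv U P c ν) (hS : ∀ i, 0 < S i) {Q : Set Qg} (hQ : Q.Countable) {w : Qg}
    (hr : w.r < w.ρ) {p z : ι → Ω → ℝ} (hz : ∀ i s, z i s = 0 ∨ z i s = 1)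
    (st : StbG U P nn wd S (fun i s => Dv (wd i s) (p i s * S i)) w.a w.r w.ρ) {Ψ : Qg → X → ℝ} (hw : w ∈ Q)
    (hq : ∀ q ∈ Q, Lm U P c ν (fun i s => mk1 (Dv (wd i s) (p i s * S i)) q.a q.r q.ρ (S i) (wd i s) * z i s) (Ψ q)) :
    ∀ᵐ x ∂ν, Cn Q (fun q => Ψ q x) w := by
  have h1 := cfC_lim (w := w) hC hS hQ hr hz (p := p) (b := fun _ _ => 0) (by simpa only [add_zero] using st)
    (LF.Lm.const hC 0) (by simpa only [add_zero] using hq w hw) hq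
  filter_upwards [h1] with x hx
  have e : w.at (0 + w.a) = w := by rw [zero_add]; rfl
  rw [e] at hx
  exact hx

/-- **all the parameters**: the marks of 16's gates (`Gt1`, `Gt2`) are stable, almost everywhere -/
theorem cn_all [U.NeBot] (hC : Cv U P c ν) (hW : WSys U P nn wd S) {Q : Set Qg} (hQ : Q.Countable) {R R2 : ℝ} (hR : 0 < R)
    (hr : ∀ q ∈ Q, q.r < q.ρ ∧ q.r2 < q.ρ2 ∧ q.r ≤ 2 * R) {p z : ι → Ω → ℝ} (hz : ∀ i s, z i s = 0 ∨ z i s = 1)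
    (h1 : ∀ q ∈ Q, Gt1 U P c nn wd S R q.a q.r q.ρ p z) (h2 : ∀ q ∈ Q, Gt2 U P c nn wd S R R2 q.a q.r q.ρ q.m q.r2 q.ρ2 p z)
    {Φc Φx : Qg → X → ℝ}
    (hc : ∀ q ∈ Q, Lm U P c ν (fun i s => mk1 (Dv (wd i s) (p i s * S i)) q.a q.r q.ρ (S i) (wd i s) * z i s) (Φc q))
    (hx : ∀ q ∈ Q, Lm U P c ν (fun i s => mkB (Dv (wd i s) (p i s * S i)) q.a q.r q.ρ q.m q.r2 q.ρ2 (S i) (wd i s) * z i s) (Φx q)) :
    ∀ᵐ x ∂ν, ∀ q ∈ Q, Cn Q (fun q => Φc q x) q ∧ Cn Q (fun q => Φx q x) q := by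
  have hQc : Countable Q := hQ.to_subtype
  have h3 : ∀ᵐ x ∂ν, ∀ q : Q, Cn Q (fun q => Φc q x) q.1 ∧ Cn Q (fun q => Φx q x) q.1 := by
    refine ae_all_iff.2 fun q => ?_
    obtain ⟨r1, r2, r3⟩ := hr q.1 q.2
    exact (cnC_lim hC hW.pos hQ r1 hz (h1 q.1 q.2).st q.2 hc).and (cnB_lim hC hW hQ hR r1 r2 r3 hz (h1 q.1 q.2).st (h2 q.1 q.2).st q.2 hx)
  filter_upwards [h3] with x hx' q hq
  exact hx' ⟨q, hq⟩

end sys

section ex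

variable {ι Ω : Type*} [MeasurableSpace Ω] [DiscreteMeasurableSpace Ω] {U : Filter ι} {P : ι → Measure Ω} [∀ i, IsFiniteMeasure (P i)]
  {nn : ι → Ω → ℕ} {wd : ∀ (i : ι) (s : Ω), Fin (nn i s) → Fin 3} {S : ι → ℝ}
  {X : Type*} [PseudoMetricSpace X] [MeasurableSpace X] [BorelSpace X] [CompleteSpace X] [SecondCountableTopology X]
  {c : ι → Ω → X} {ν : Measure X}

/-- **the limit marks exist and are stable** -/
theorem cn_ex [U.NeBot] (hC : Cv U P c ν) (hW : WSys U P nn wd S) {Q : Set Qg} (hQ : Q.Countable) {R R2 : ℝ} (hR : 0 < R)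
    (hr : ∀ q ∈ Q, q.r < q.ρ ∧ q.r2 < q.ρ2 ∧ q.r ≤ 2 * R) {p z : ι → Ω → ℝ} (hz : ∀ i s, z i s = 0 ∨ z i s = 1)
    (h1 : ∀ q ∈ Q, Gt1 U P c nn wd S R q.a q.r q.ρ p z) (h2 : ∀ q ∈ Q, Gt2 U P c nn wd S R R2 q.a q.r q.ρ q.m q.r2 q.ρ2 p z) :
    ∃ Φc Φx : Qg → X → ℝ,
      (∀ q ∈ Q, Lm U P c ν (fun i s => mk1 (Dv (wd i s) (p i s * S i)) q.a q.r q.ρ (S i) (wd i s) * z i s) (Φc q)) ∧
      (∀ q ∈ Q, Lm U P c ν (fun i s => mkB (Dv (wd i s) (p i s * S i)) q.a q.r q.ρ q.m q.r2 q.ρ2 (S i) (wd i s) * z i s)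
        (Φx q)) ∧
      ∀ᵐ x ∂ν, ∀ q ∈ Q, Cn Q (fun q => Φc q x) q ∧ Cn Q (fun q => Φx q x) q := by
  classical
  have e1 : ∀ q : Q, ∃ Φ : X → ℝ, Lm U P c ν (fun i s => mk1 (Dv (wd i s) (p i s * S i)) q.1.a q.1.r q.1.ρ (S i) (wd i s) * z i s) Φ :=
    fun q => LF.L1A.lim hC (LF.l1a_iff.1 (h1 q.1 q.2).mrk)
  have e2 : ∀ q : Q, ∃ Φ : X → ℝ, Lm U P c ν (fun i s =>
      mkB (Dv (wd i s) (p i s * S i)) q.1.a q.1.r q.1.ρ q.1.m q.1.r2 q.1.ρ2 (S i) (wd i s) * z i s) Φ :=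
    fun q => LF.L1A.lim hC (LF.l1a_iff.1 (h2 q.1 q.2).mrk)
  choose Φc hΦc using e1
  choose Φx hΦx using e2
  have a1 : ∀ q ∈ Q, Lm U P c ν (fun i s => mk1 (Dv (wd i s) (p i s * S i)) q.a q.r q.ρ (S i) (wd i s) * z i s)
      (if h : q ∈ Q then Φc ⟨q, h⟩ else fun _ => 0) := fun q hq => by
    rw [dif_pos hq]
    exact hΦc ⟨q, hq⟩
  have a2 : ∀ q ∈ Q, Lm U P c ν (fun i s => mkB (Dv (wd i s) (p i s * S i)) q.a q.r q.ρ q.m q.r2 q.ρ2 (S i) (wd i s) * z i s)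
      (if h : q ∈ Q then Φx ⟨q, h⟩ else fun _ => 0) := fun q hq => by
    rw [dif_pos hq]
    exact hΦx ⟨q, hq⟩
  exact ⟨_, _, a1, a2, cn_all (Φc := fun q => if h : q ∈ Q then Φc ⟨q, h⟩ else fun _ => 0)
    (Φx := fun q => if h : q ∈ Q then Φx ⟨q, h⟩ else fun _ => 0) hC hW hQ hR hr hz h1 h2 a1 a2⟩

/-- **the functional marks exist and are stable**: `w` over the base `p + b` -/
theorem cnF_ex [U.NeBot] (hC : Cv U P c ν) (hW : WSys U P nn wd S) {Q : Set Qg} (hQ : Q.Countable) {R R2 : ℝ} (hR : 0 < R)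
    {w : Qg} (hr : w.r < w.ρ) (hr2 : w.r2 < w.ρ2) (hrR : w.r ≤ 2 * R) {p b z : ι → Ω → ℝ} (hz : ∀ i s, z i s = 0 ∨ z i s = 1)
    (h1 : Gt1 U P c nn wd S R w.a w.r w.ρ (fun i s => p i s + b i s) z)
    (h2 : Gt2 U P c nn wd S R R2 w.a w.r w.ρ w.m w.r2 w.ρ2 (fun i s => p i s + b i s) z) {β : X → ℝ} (hb : Lm U P c ν b β)
    {Ψ1 Ψ2 : Qg → X → ℝ}
    (hq1 : ∀ q ∈ Q, Lm U P c ν (fun i s => mk1 (Dv (wd i s) (p i s * S i)) q.a q.r q.ρ (S i) (wd i s) * z i s) (Ψ1 q))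
    (hq2 : ∀ q ∈ Q, Lm U P c ν (fun i s => mkB (Dv (wd i s) (p i s * S i)) q.a q.r q.ρ q.m q.r2 q.ρ2 (S i) (wd i s) * z i s) (Ψ2 q)) :
    ∃ Φ1 Φ2 : X → ℝ,
      Lm U P c ν (fun i s => mk1 (Dv (wd i s) ((p i s + b i s) * S i)) w.a w.r w.ρ (S i) (wd i s) * z i s) Φ1 ∧
      Lm U P c ν (fun i s => mkB (Dv (wd i s) ((p i s + b i s) * S i)) w.a w.r w.ρ w.m w.r2 w.ρ2 (S i) (wd i s) * z i s) Φ2 ∧
      ∀ᵐ x ∂ν, CnF Q (fun q => Ψ1 q x) (fun q => Ψ2 q x) (w.at (β x + w.a)) (Φ1 x) (Φ2 x) := by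
  obtain ⟨Φ1, e1⟩ := LF.L1A.lim hC (LF.l1a_iff.1 h1.mrk)
  obtain ⟨Φ2, e2⟩ := LF.L1A.lim hC (LF.l1a_iff.1 h2.mrk)
  exact ⟨Φ1, Φ2, e1, e2, cnF_lim hC hW hQ hR hr hr2 hrR hz h1.st h2.st hb e1 e2 hq1 hq2⟩

end ex

end Pool.Agent.ROT.F3.LR
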