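import Pool.Agent.ROT.F3LocG
import Pool.Agent.ROT.F3LocK
import Pool.Agent.ROT.F3JmA
import Pool.Agent.ROT.F3JmU
import Pool.Agent.ROT.F3JmS
import Pool.Agent.ROT.F3HLoc0
import Pool.Agent.ROT.F3LocD
import Pool.Agent.ROT.F3Fin3

/-!
# ROT, F3 (B) (helper51): the locality `LocD` of the class 0 from the limit objects of the pair `(0, 1)`

* `res_eq`, `pcut_rev`, `rvc_cut` : the rest of the strand A, read from both ends;
* `jK0_dsp` : order and displacement of the rests of the native class;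
* **`LcIn`** : what the pair `(0, 1)` gives; **`LcIn.locD`** : `LocD P (β 0) C`.
-/

set_option autoImplicit false

noncomputable section

namespace Pool.Agent.ROT.F3.CK

open MeasureTheory Set unitInterval Filter Topology

open scoped ENNReal Classical

open Pool.Agent.ROT.F3 Pool.Agent.ROT.F3.LF
open Pool.Agent.ROT.F3.CC (Pie ex ex_of ex_coe ex_zero ex_one cutp cutp_apply cutp_zero cutp_one cutp_cutp cutp_eq pcut rst m4 cl dat yP
  dat_meas rst_cont m4_cont Z0E)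
open Pool.Agent.ROT.F3E (HPc WinR LocN LocD ClsL cZ0 cW0)

/-! ### 1. The rest of the strand A, read from both ends -/

lemma res_eq {G0 : Ga} {T : CC.Gm → Fin 8 → ℝ} {g : CC.Gm} (hm : m4 (T g) = m4 (G0.t8 g)) (t : TmS G0 .fp g) :
    (rst g (m4 (T g))).1 = resA G0 .fp g := by
  have e1 : ((G0.ix .fp g : I) : ℝ) = G0.tx .fp g := pji_of t.1
  have e2 : ((G0.ix .bq g : I) : ℝ) = G0.tx .bq g := pji_of t.2
  rw [hm]
  show pcut (cl g) (G0.tx .fp g) (G0.tx .bq g) = pcut (cl g) (G0.ix .fp g) (G0.ix .bq g)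
  rw [e1, e2]

lemma pcut_rev (p : Pie) {a z : ℝ} (e : I) : pcut (pcut p a z) 1 e = pcut (pcut p z a) 0 (σ e : I) := by
  have i0 : (0 : ℝ) ∈ Icc (0 : ℝ) 1 := ⟨le_rfl, zero_le_one⟩
  have i1 : (1 : ℝ) ∈ Icc (0 : ℝ) 1 := ⟨zero_le_one, le_rfl⟩
  refine Prod.ext ?_ ?_
  · show cutp (cutp p.1 a z) 1 e = cutp (cutp p.1 z a) 0 (σ e : I)
    rw [cutp_cutp i1 e.2, cutp_cutp i0 (σ e).2, coe_symm_eq]
    congr 1 <;> ring
  · show p.2 * |z - a| * |(e : ℝ) - 1| = p.2 * |a - z| * |((σ e : I) : ℝ) - 0|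
    rw [coe_symm_eq, abs_sub_comm z a, abs_sub_comm (e : ℝ) 1, sub_zero]

lemma rvc_cut (c : C(I, ℂ)) {a z : ℝ} (t : I) : cutp c z a t = cutp c a z (σ t) - cutp c a z 1 := by
  rw [cutp_apply, cutp_apply, cutp_one, coe_symm_eq]
  have e : a + (1 - (t : ℝ)) * (z - a) = z + t * (a - z) := by ring
  rw [e]
  ring

/-- order and displacement of the rests of the native class -/
lemma jK0_dsp {P : Prm} (hP : P.Ok) {G0 : Ga} {g : CC.Gm} (h : g ∈ jK0 P 0 1 G0) :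
    G0.ix .fp g < G0.ix .bq g ∧ P.W.D0 - (P.p.k + P.q.k) ≤ ‖cutc g.2.2 (G0.ix .fp g) (G0.ix .bq g) 1‖ := by
  obtain ⟨hB, h1⟩ := h
  have e1 : pji (phi8 G0.B G0.c G0.x g 1) = G0.ix .fp g := by
    rw [phi8_t8, bi_pos hB, one_mul]
    rfl
  have e2 : pji (phi8 G0.B G0.c G0.x g 2) = G0.ix .bq g := by
    rw [phi8_t8, bi_pos hB, one_mul]
    rfl
  have h2 : clsF (jD0 P 0 1) g.2.2 g.1 (pji (muG g)) (fun k => pji (phi8 G0.B G0.c G0.x g k)) ≤ 0 := (le_max_left _ _).trans h1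
  have h3 : ordF (fun k => pji (phi8 G0.B G0.c G0.x g k)) ≤ 0 := (le_max_right _ _).trans h1
  unfold clsF at h2
  have k1 := ((le_max_left _ _).trans ((le_max_right _ _).trans ((le_max_left _ _).trans h2)) :
    rsF (jD0 P 0 1).d (jD0 P 0 1).t (jD0 P 0 1).P (jD0 P 0 1).Q (jD0 P 0 1).V g.2.2 g.1
      (pji (phi8 G0.B G0.c G0.x g 1)) (pji (phi8 G0.B G0.c G0.x g 2)) ≤ 0)
  rw [e1, e2] at k1
  unfold rsF at k1
  have k2 := (le_max_left _ _).trans ((le_max_right _ _).trans ((le_max_left _ _).trans k1))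
  have k3 : (jD0 P 0 1).V.D0 = P.W.D0 - (P.p.k + P.q.k) := rfl
  have k4 : P.W.D0 - (P.p.k + P.q.k) ≤ ‖cutc g.2.2 (G0.ix .fp g) (G0.ix .bq g) 1‖ := by
    rw [← k3]
    linarith
  refine ⟨lt_of_le_of_ne ?_ fun he => ?_, k4⟩
  · have k5 := (le_max_left _ _).trans h3
    simp only [e1, e2] at k5
    have k6 : ((G0.ix .fp g : I) : ℝ) ≤ G0.ix .bq g := by linarith
    exact k6
  · rw [he, cutc_self] at k4
    simp only [ContinuousMap.zero_apply, norm_zero] at k4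
    have h4 := hP.far
    have h5 := hP.p.f.r
    have h6 := hP.p.f.r2
    have h7 := hP.q.f.r
    have h8 := hP.q.f.r2
    linarith

/-! ### 2. The locality of the class 0 -/

/-- **what the pair `(0, 1)` gives for the locality of the class 0**: `m`, `m1` = limits of the rests of the classes 0, 1; `C` = the
rests with foreign gates; `μ` = law of the closed curves; `w0`, `T`, `G0` = weight, marks and gates of the lattice 0; `H` = gates of the
rotated lattice; `X` = full set of the locality of the gates (`GaLoc`), `R0` = its radius -/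
structure LcIn (P : Prm) (ρ R0 : ℝ) (m m1 : Measure Pie) (C : Set Pie) (μ : Measure CC.Gm) (w0 : CC.Gm → ℝ≥0∞)
    (T : CC.Gm → Fin 8 → ℝ) (G0 H : Ga) (X : Set CC.Gm) : Prop where
  sμ : SFinite μ
  mw : Measurable w0
  mT : Measurable T
  mG : G0.Ms
  mH : H.Ms
  fin : IsFiniteMeasure (μ.withDensity w0)
  ac : (m.prod (m1.prod volume)).restrict (DD Prod.fst Prod.fst yP yP (cZ0 P 0 1 ρ) (cW0 P 0 1 ρ)) ≪
    ((μ.withDensity w0).map (dat T)).map Prod.snd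
  h1 : ∀ᵐ g ∂μ, w0 g ≠ 0 → ((rst g (m4 (T g))).1 ∈ C ↔ g ∈ jF1 P 0 1 G0 H)
  ST : ∀ᵐ x ∂m, x ∈ C → x ∈ TT m1 (cZ0 P 0 1 ρ) (cW0 P 0 1 ρ)
  hg : ∀ᵐ g ∂μ, w0 g ≠ 0 → 0 < g.1 ∧ g ∈ jK0 P 0 1 G0 ∧ m4 (T g) = m4 (G0.t8 g) ∧ G0.Un g ∧ g ∈ X
  Rp : 2 * P.p.s.bn ≤ R0
  Rq : 2 * P.q.s.bn ≤ R0
  RD : R0 + (P.p.k + P.q.k) ≤ P.W.D0
  Lp : GaLoc P 0 1 G0 (H.rot P.u) .fp R0 X
  Lq : GaLoc P 0 1 G0 (H.rot P.u) .bq R0 X

/-- **the locality of the class 0** -/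
theorem LcIn.locD {P : Prm} (hP : P.Ok) (cp : 3 / 5 ≤ P.p.n.c) (cq : 3 / 5 ≤ P.q.n.c) {V : Ultrafilter ℕ}
    (hV : (V : Filter ℕ) ≤ atTop) {β b : Fin 3 → Measure Pie} (HL : ClsL V P β b) {ρ R0 : ℝ} (hρ : 0 < ρ) {C : Set Pie}
    {μ : Measure CC.Gm} {w0 : CC.Gm → ℝ≥0∞} {T : CC.Gm → Fin 8 → ℝ} {G0 H : Ga} {X : Set CC.Gm}
    (h : LcIn P ρ R0 (β 0) (β 1) C μ w0 T G0 H X) : LocD P (β 0) C := by
  have := h.sμ
  have := h.fin
  have f0 := HL.fβ 0
  have f1 := HL.fβ 1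
  have mR : (H.rot P.u).Ms := h.mH.rot _
  have mr : Measurable fun g => (dat T g).2.1 := (measurable_fst.comp measurable_snd).comp (dat_meas h.mT)
  have mZ : MeasurableSet (cZ0 P 0 1 ρ) := by
    unfold cZ0 Z0E
    exact measurableSet_ball
  have mW : MeasurableSet (cW0 P 0 1 ρ) := by
    unfold cW0 Z0E
    exact measurableSet_ball
  obtain ⟨G, hGd⟩ : ∃ G : Set CC.Gm, G = {g | w0 g ≠ 0 → 0 < g.1 ∧ g ∈ jK0 P 0 1 G0 ∧ m4 (T g) = m4 (G0.t8 g) ∧ G0.Un g ∧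
    g ∈ X} := ⟨_, rfl⟩
  have hG : ∀ g ∈ G, w0 g ≠ 0 → (0 < g.1 ∧ (G0.ix .fp g < G0.ix .bq g ∧
      P.W.D0 - (P.p.k + P.q.k) ≤ ‖cutc g.2.2 (G0.ix .fp g) (G0.ix .bq g) 1‖) ∧ (rst g (m4 (T g))).1 = resA G0 .fp g) ∧ g ∈ X := by
    intro g hg hw
    rw [hGd] at hg
    obtain ⟨a1, a2, a3, a4, a5⟩ := hg hw
    exact ⟨⟨a1, jK0_dsp hP a2, res_eq a3 (tmS_all a4 a2.1)⟩, a5⟩
  have hk := F3E.k_le hP
  have oR : ∀ g ∈ G, w0 g ≠ 0 → ltA .fp (G0.ix .fp g) (G0.ix (oppA .fp) g) ∧ ltA .bq (G0.ix .bq g) (G0.ix (oppA .bq) g) :=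
    fun g hg hw => ⟨(hG g hg hw).1.2.1.1, (hG g hg hw).1.2.1.1⟩
  have dn : ‖ev 0 - P.u * ev 0‖ ≤ ‖P.u - 1‖ := by
    rw [norm_sub_rev]
    exact F3E.turn_le
  have hFp : ∀ g ∈ G, w0 g ≠ 0 → FgS P 0 1 G0 (H.rot P.u) .fp g →
      (resA G0 .fp g).1 ∈ HPc (AH (ev 0) P.p.n.κ (P.p.s.len + 2 * P.p.k)) (P.p.s.bn - P.p.k) := by
    intro g hg hw hF
    exact FgR.hpc hP.p cp (ev_norm 0) (dirU_norm hP 0 1 .fp) dn (mn := clA 0 1 .fp = 0) rfl
      ((fgZ_iff (oR g hg hw).1).1 hF).2 (resA_zero _ _ _)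
  have hFq : ∀ g ∈ G, w0 g ≠ 0 → FgS P 0 1 G0 (H.rot P.u) .bq g →
      (resA G0 .bq g).1 ∈ HPc (AH (ev 0) P.q.n.κ (P.q.s.len + 2 * P.q.k)) (P.q.s.bn - P.q.k) := by
    intro g hg hw hF
    exact FgR.hpc hP.q cq (ev_norm 0) (dirU_norm hP 0 1 .bq) dn (mn := clA 0 1 .bq = 0) rfl
      ((fgZ_iff (oR g hg hw).2).1 hF).2 (resA_zero _ _ _)
  have hbn : ∀ {E : En} {ε : ℝ}, E.Ok ε → 0 < E.k ∧ 0 < E.s.bn := fun {E ε} hE => by
    have h1 := hE.rk
    have h2 := hE.f.r2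
    have h3 := hE.bn
    have h4 := hE.f.g64
    have h5 := hE.f.r
    have h6 := hE.f.rr
    have ek : E.k = E.rk + E.f.r2 := rfl
    constructor <;> linarith
  have Rp := h.Rp
  have Rq := h.Rq
  have RD := h.RD
  refine ⟨CC.Gm, inferInstance, inferInstance, μ, w0, fun g => (rst g (m4 (T g))).1, TT (β 1) (cZ0 P 0 1 ρ) (cW0 P 0 1 ρ),
    {g | FgS P 0 1 G0 (H.rot P.u) .fp g}, {g | FgS P 0 1 G0 (H.rot P.u) .bq g}, G, R0, P.p.s.bn - P.p.k, P.q.s.bn - P.q.k,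
    AH (ev 0) P.p.n.κ (P.p.s.len + 2 * P.p.k), AH (ev 0) P.q.n.κ (P.q.s.len + 2 * P.q.k), ?_⟩
  exact {
    fP := h.fin
    sP := h.sμ
    mw := h.mw
    mr := mr
    mFp := fgS_ms hP h.mG mR .fp
    mFq := fgS_ms hP h.mG mR .bq
    mT := tt_meas mZ mW
    hG := by
      rw [hGd]
      exact h.hg
    ac := by
      have h1 := chg_ac (dd_pie mZ mW) h.ac
      have e : (((μ.withDensity w0).map (dat T)).map Prod.snd).map Prod.fst = (μ.withDensity w0).map fun g =>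
          (rst g (m4 (T g))).1 := by
        rw [Measure.map_map measurable_snd (dat_meas h.mT), Measure.map_map measurable_fst
          (measurable_snd.comp (dat_meas h.mT))]
        rfl
      rw [e] at h1
      exact h1
    ST := h.ST
    z0 := fun g _ _ => cutp_zero _ _ _
    R0D := by linarith [hk.2.1, hk.2.2]
    hb := by linarith [(hbn hP.p).1, (hbn hP.p).2, (hbn hP.q).1]
    hb' := by linarith [(hbn hP.p).1, (hbn hP.q).2, (hbn hP.q).1]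
    far := by
      intro g hg hw
      obtain ⟨⟨-, ⟨-, a2⟩, a3⟩, -⟩ := hG g hg hw
      show R0 ≤ ‖(rst g (m4 (T g))).1.1 1‖
      rw [a3]
      have e : (resA G0 .fp g).1 = cutc g.2.2 (G0.ix .fp g) (G0.ix .bq g) := (cutc_eq _ _ _).symm
      rw [e]
      linarith
    s1 := by
      filter_upwards [h.h1] with g hg hw hC
      obtain ⟨a1, a2, -⟩ := (hg hw).1 hC
      exact ⟨a1, a2⟩
    s2 := by
      have hg' : ∀ᵐ g ∂μ, g ∈ G := by
        rw [hGd]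
        exact h.hg
      filter_upwards [h.h1, hg'] with g hg hgG hw a1 a2 a3
      refine (hg hw).2 ?_
      obtain ⟨⟨b1, -, b3⟩, -⟩ := hG g hgG hw
      rw [b3] at a3
      obtain ⟨c1, c2, c3, c4⟩ := a3
      have e : (resA G0 .fp g).1 = cutc g.2.2 (G0.ix .fp g) (G0.ix .bq g) := (cutc_eq _ _ _).symm
      rw [e] at c1 c2
      have e2 : wnA P 0 = P.W := if_pos rfl
      exact arW_A hP b1.le a1 a2 (by rw [e2]; exact c1) (by rw [e2]; exact c2) (by rw [e2]; exact c3) (by rw [e2]; exact c4)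
    lp := by
      intro g hg g' hg' hw hw' e e' he f1 f2 hF
      obtain ⟨⟨b1, -, b3⟩, bX⟩ := hG g hg hw
      obtain ⟨⟨b1', -, b3'⟩, bX'⟩ := hG g' hg' hw'
      simp only [b3, b3'] at he f1 f2
      obtain ⟨q1, q2, q3⟩ := h.Lp g bX g' bX' e e' he f1 f2 hF
      exact (fgZ_loc (k := .fp) (k' := .fp) (i := 0) (j := 1) hP.p (dirU_norm hP 0 1 .fp) h.Rp rfl rfl id b1 b1'
        (oR g hg hw).1 (oR g' hg' hw').1 he f1 f2 hF q1 q2 q3).2
    lq := by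
      intro g hg g' hg' hw hw' e e' he f1 f2 hF
      obtain ⟨⟨b1, -, b3⟩, bX⟩ := hG g hg hw
      obtain ⟨⟨b1', -, b3'⟩, bX'⟩ := hG g' hg' hw'
      simp only [b3, b3'] at he f1 f2
      have key : ∀ (g : CC.Gm) (t : I), ‖(resA G0 .bq g).1 t‖ = ‖(resA G0 .fp g).1 (σ t) - (resA G0 .fp g).1 1‖ := fun g t => by
        show ‖cutp g.2.2 (G0.ix .bq g) (G0.ix .fp g) t‖ = _
        rw [rvc_cut]
        rfl
      have he' : pcut (resA G0 .bq g) 0 (σ e : I) = pcut (resA G0 .bq g') 0 (σ e' : I) := by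
        have h1 := pcut_rev (cl g) (a := G0.ix .fp g) (z := G0.ix .bq g) e
        have h2 := pcut_rev (cl g') (a := G0.ix .fp g') (z := G0.ix .bq g') e'
        exact h1.symm.trans (he.trans h2)
      have f1' : ∀ t : I, σ e ≤ t → R0 ≤ ‖(resA G0 .bq g).1 t‖ := fun t ht => by
        rw [key]
        exact f1 _ (symm_le_comm.1 ht)
      have f2' : ∀ t : I, σ e' ≤ t → R0 ≤ ‖(resA G0 .bq g').1 t‖ := fun t ht => by
        rw [key]
        exact f2 _ (symm_le_comm.1 ht)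
      obtain ⟨q1, q2, q3⟩ := h.Lq g bX g' bX' _ _ he' f1' f2' hF
      exact (fgZ_loc (k := .bq) (k' := .bq) (i := 0) (j := 1) hP.q (dirU_norm hP 0 1 .bq) h.Rq rfl rfl id b1 b1'
        (oR g hg hw).2 (oR g' hg' hw').2 he' f1' f2' hF q1 q2 q3).2
    hp := by
      intro g hg hw hF
      obtain ⟨⟨-, -, b3⟩, -⟩ := hG g hg hw
      simp only [b3]
      exact hFp g hg hw hF
    hq := by
      intro g hg hw hF
      obtain ⟨⟨-, -, b3⟩, -⟩ := hG g hg hw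
      simp only [b3]
      have e : rvc (resA G0 .fp g).1 = (resA G0 .bq g).1 := by
        ext t
        rw [rvc_apply]
        exact (rvc_cut _ _).symm
      rw [e]
      exact hFq g hg hw hF
    comp := by
      have w1 := HL.wβ 1
      have w2 := HL.wβ 2
      have e1 : F3E.rcl P 1 = P.R0 1 P.Wc := by
        funext N
        unfold F3E.rcl
        rw [F3E.wnd_ne P (by decide)]
      have e2 : F3E.rcl P 2 = P.R0 2 P.Wc := by
        funext N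
        unfold F3E.rcl
        rw [F3E.wnd_ne P (by decide)]
      rw [e1] at w1
      rw [e2] at w2
      have hm : ∀ᵐ x ∂(β 0), Function.Injective x.1 ∧ x.1 ∈ ClR (ev 0) (ev 0) P.p.n P.q.n (P.wd P.W) := by
        obtain ⟨g1, g2, -, -, g5, g6, -, -⟩ := F3E.pos_prm hP 0
        filter_upwards [Bt.rst_inj g1 g2 g5 g6 (w := fun _ _ => 1) (Eventually.of_forall fun N R _ => le_rfl) hV (HL.wβ 0)
          (i := 0) (j := -0) (Eventually.of_forall fun N R hR => hR)] with x hx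
        have h2 := hx.2.1
        rw [neg_zero, F3E.wnd_zero] at h2
        exact ⟨hx.1, h2⟩
      have hr : 0 < 3 / 5 * ρ := by positivity
      have key := comp0 hP hV w1 w2 (C0.std hP) hr hr hm
      filter_upwards [key] with x hx a1 a2 _
      have h3 := (hx a1 a2).1
      show x ∈ TT (β 1) (Z0E (ev 0) (ev 1) P.p (P.p.kc + P.p.n.m) (3 / 5 * ρ)) (Z0E (ev (-0)) (ev (-1)) P.q (P.q.kc + P.q.n.m)
        (3 / 5 * ρ))
      have n1 : (-1 : Fin 3) = 2 := by decide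
      rw [n1, neg_zero]
      exact h3 }

end Pool.Agent.ROT.F3.CK
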