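import Pool.Agent.ROT.F3LocH

/-!
# ROT, F3 (B) (helper51): the row LOC from the output of the marks

* **`lcIn_of`** : `LcIn` (the data of the locality of the class 0) from the fields of helper31's `MOut` for the pair `(0, 1)`;
* `nc_of`, `num_R0` : the numbers; **`locD_near`** : `LocD P (β 0) C` for data near the base data.
-/

set_option autoImplicit false

noncomputable section

namespace Pool.Agent.ROT.F3.CK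

open MeasureTheory Set unitInterval Filter Topology

open scoped ENNReal Classical

open Pool.Agent.ROT.F3 Pool.Agent.ROT.F3.LF
open Pool.Agent.ROT.F3.CC (Pie rst m4 dat yP)
open Pool.Agent.ROT.F3E (LocD ClsL cZ0 cW0)

/-- **`LcIn` from the output of the marks** -/
theorem lcIn_of {P : Prm} (hP : P.Ok) {ρ R0 : ℝ} {m m1 : Measure Pie} {C : Set Pie} {PG : Measure CC.Gm} [IsFiniteMeasure PG]
    {G0 H : Ga} {X : Set CC.Gm} (pos : ∀ᵐ g ∂PG, 0 < g.2.1 ∧ g.2.1 < g.1) (ms0 : G0.Ms) (msH : H.Ms)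
    (aeX : ∀ᵐ g ∂PG, jw0 P 0 1 G0 g ≠ 0 → g ∈ X) (un0 : ∀ᵐ g ∂PG, G0.Un g)
    (h1 : ∀ᵐ g ∂PG, jw0 P 0 1 G0 g ≠ 0 → ((rst g (m4 (jT G0 g))).1 ∈ C ↔ g ∈ jF1 P 0 1 G0 H))
    (tt : ∀ᵐ x ∂m, x ∈ C → x ∈ TT m1 (cZ0 P 0 1 ρ) (cW0 P 0 1 ρ))
    (ac : (m.prod (m1.prod volume)).restrict (DD Prod.fst Prod.fst yP yP (cZ0 P 0 1 ρ) (cW0 P 0 1 ρ)) ≪
      ((PG.withDensity (jw0 P 0 1 G0)).map (dat (jT G0))).map Prod.snd)
    (Rp : 2 * P.p.s.bn ≤ R0) (Rq : 2 * P.q.s.bn ≤ R0) (RD : R0 + (P.p.k + P.q.k) ≤ P.W.D0)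
    (Lp : GaLoc P 0 1 G0 (H.rot P.u) .fp R0 X) (Lq : GaLoc P 0 1 G0 (H.rot P.u) .bq R0 X) :
    LcIn P ρ R0 m m1 C PG (jw0 P 0 1 G0) (jT G0) G0 H X where
  sμ := by
    have : SigmaFinite PG := IsFiniteMeasure.toSigmaFinite PG
    infer_instance
  mw := jw0_ms hP (by decide) ms0
  mT := jT_ms ms0
  mG := ms0
  mH := msH
  fin := by
    refine isFiniteMeasure_withDensity ?_
    refine ((lintegral_mono (g := fun _ => 1) fun g => ?_).trans_lt ?_).ne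
    · show ENNReal.ofReal (bi (g ∈ jK0 P 0 1 G0)) ≤ 1
      rw [ENNReal.ofReal_le_one]
      exact bi_le _
    · rw [lintegral_one]
      exact measure_lt_top _ _
  ac := ac
  h1 := h1
  ST := tt
  hg := by
    filter_upwards [pos, aeX, un0] with g g1 g2 g3 hw
    have h4 : g ∈ jK0 P 0 1 G0 := by
      by_contra hc
      refine hw ?_
      show ENNReal.ofReal (bi (g ∈ jK0 P 0 1 G0)) = 0
      rw [bi_neg hc, ENNReal.ofReal_zero]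
    exact ⟨g1.1.trans g1.2, h4, jT_eq h4.1, g3, g2 hw⟩
  Rp := Rp
  Rq := Rq
  RD := RD
  Lp := Lp
  Lq := Lq

/-- the numbers of the radius `R0` of locality (`R0 = 19500000 ρ`) -/
theorem num_R0 {P : Prm} (hP : P.Ok) {z : ℂ} {ρ τ R0 : ℝ} (hρ : 0 < ρ) (hn : F3E.NearP z ρ τ P) (hR : 17000000 * ρ ≤ R0)
    (hR' : R0 ≤ 1000000000 * ρ) : 3 / 5 ≤ P.p.n.c ∧ 3 / 5 ≤ P.q.n.c ∧ 2 * P.p.s.bn ≤ R0 ∧ 2 * P.q.s.bn ≤ R0 ∧
      R0 + (P.p.k + P.q.k) ≤ P.W.D0 := by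
  have key : ∀ {E : En}, E.Nr (bE ρ τ) → 3 / 5 ≤ E.n.c ∧ 2 * E.s.bn ≤ R0 ∧ E.k ≤ 30000 * ρ ∧ 60000000 * ρ ≤ E.s.len :=
    fun {E} h => by
    have hk : E.k = E.rk + E.f.r2 := rfl
    have a1 : E.rk ≤ 101 / 100 * (80 * ρ) := h.rk.2
    have a3 : E.f.r2 ≤ 101 / 100 * (28500 * ρ) := h.f.r2.2
    have a5 : E.s.bn ≤ 101 / 100 * (8000000 * ρ) := h.s.bn.2
    have a6 : 60000000 * ρ ≤ E.s.len := h.s.len.1
    have a7 : 16 / 25 ≤ E.n.c := h.n.c.1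
    refine ⟨?_, ?_, ?_, ?_⟩ <;> linarith
  obtain ⟨a1, a2, a3, a4⟩ := key hn.p
  obtain ⟨b1, b2, b3, b4⟩ := key hn.q
  have h1 := (prm_D hP 0).1
  have e2 : wnA P 0 = P.W := if_pos rfl
  rw [e2] at h1
  exact ⟨a1, b1, a2, b2, by linarith⟩

/-- **the locality of the class 0** from the output of the marks, data near the base data -/
theorem locD_near {P : Prm} (hP : P.Ok) {z : ℂ} {ρ τ R0 : ℝ} (hρ : 0 < ρ) (hn : F3E.NearP z ρ τ P)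
    (hR : 17000000 * ρ ≤ R0) (hR' : R0 ≤ 1000000000 * ρ) {V : Ultrafilter ℕ}
    (hV : (V : Filter ℕ) ≤ atTop) {β b : Fin 3 → Measure Pie} (HL : ClsL V P β b) {C : Set Pie} {PG : Measure CC.Gm}
    [IsFiniteMeasure PG] {G0 H : Ga} {X : Set CC.Gm} (pos : ∀ᵐ g ∂PG, 0 < g.2.1 ∧ g.2.1 < g.1) (ms0 : G0.Ms) (msH : H.Ms)
    (aeX : ∀ᵐ g ∂PG, jw0 P 0 1 G0 g ≠ 0 → g ∈ X) (un0 : ∀ᵐ g ∂PG, G0.Un g)
    (h1 : ∀ᵐ g ∂PG, jw0 P 0 1 G0 g ≠ 0 → ((rst g (m4 (jT G0 g))).1 ∈ C ↔ g ∈ jF1 P 0 1 G0 H))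
    (tt : ∀ᵐ x ∂(β 0), x ∈ C → x ∈ TT (β 1) (cZ0 P 0 1 ρ) (cW0 P 0 1 ρ))
    (ac : ((β 0).prod ((β 1).prod volume)).restrict (DD Prod.fst Prod.fst yP yP (cZ0 P 0 1 ρ) (cW0 P 0 1 ρ)) ≪
      ((PG.withDensity (jw0 P 0 1 G0)).map (dat (jT G0))).map Prod.snd)
    (Lp : GaLoc P 0 1 G0 (H.rot P.u) .fp R0 X) (Lq : GaLoc P 0 1 G0 (H.rot P.u) .bq R0 X) :
    LocD P (β 0) C := by
  obtain ⟨n1, n2, n3, n4, n5⟩ := num_R0 hP hρ hn hR hR'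
  exact (lcIn_of hP pos ms0 msH aeX un0 h1 tt ac n3 n4 n5 Lp Lq).locD hP n1 n2 hV HL hρ

end Pool.Agent.ROT.F3.CK
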