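import Mathlib

/-!
# ROT, F3 (B), row W7 (helper37): lower densities in the limit

* `low_balls` : a measure which is at least `c vol` on the small closed balls of an open set is at least `c vol` there;
* `low_port` : the same for the image under `y` of a limit, from closed sets at finite `N` (`port_weak`, `port_lip`: the hypothesis
  from weak convergence resp. from integrals of Lipschitz functions);
* `lat_count` : the number of points of a planar lattice in a ball;
* `low_exact` : **exact ends**: if the masses of the single points of a lattice of mesh `1 / s N` inside of an open set `Δ`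
  are at least `c / s N ^ 2`, the limit has at least a positive density on `Δ`;
* `exists_k` : the choice of the scale `k` for a mesh `D`.
-/

set_option autoImplicit false

namespace Pool.Agent.ROT.F3

open MeasureTheory Set Filter Metric
open scoped ENNReal Topology

/-- **from small balls to all sets** -/
theorem low_balls {μ : Measure ℂ} [IsLocallyFiniteMeasure μ] {Δ : Set ℂ} {c : ℝ≥0∞}
    (h : ∀ x ∈ Δ, ∀ᶠ r in 𝓝[>] (0 : ℝ), c * volume (closedBall x r) ≤ μ (closedBall x r)) :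
    c • (volume : Measure ℂ).restrict Δ ≤ μ := by
  refine Measure.le_iff.2 fun s hs => ?_
  rw [Measure.smul_apply, smul_eq_mul, Measure.restrict_apply hs]
  have key : (c • (volume : Measure ℂ)) (s ∩ Δ) ≤ μ (s ∩ Δ) := by
    refine (Besicovitch.vitaliFamily (volume : Measure ℂ)).measure_le_of_frequently_le μ
      Measure.smul_absolutelyContinuous _ fun x hx => ?_
    have h1 := h x hx.2
    have h2 : ∃ᶠ r in 𝓝[>] (0 : ℝ), (c • (volume : Measure ℂ)) (closedBall x r) ≤ μ (closedBall x r) := by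
      refine Eventually.frequently ?_
      filter_upwards [h1] with r hr
      rwa [Measure.smul_apply, smul_eq_mul]
    exact (Besicovitch.tendsto_filterAt (volume : Measure ℂ) x).frequently h2
  rw [Measure.smul_apply, smul_eq_mul] at key
  exact key.trans (measure_mono inter_subset_left)

/-- **the limit**: small closed balls at finite `N`, a closed set `F` of shapes inside of `V` -/
theorem low_port {X : Type*} [TopologicalSpace X] [MeasurableSpace X] [OpensMeasurableSpace X] {ι : Type*}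
    {l : Filter ι} {b : ι → Measure X}
    {β : Measure X} {y : X → ℂ} (hy : Continuous y) {F V : Set X} (hF : IsClosed F) (hV : F ⊆ V)
    [IsFiniteMeasure (β.restrict V)]
    (hb : ∀ C : Set X, IsClosed C → C ⊆ F → limsup (fun N => b N C) l ≤ β C) {Δ : Set ℂ}
    {c : ℝ≥0∞} (h : ∀ x ∈ Δ, ∀ᶠ r in 𝓝[>] (0 : ℝ), ∃ᶠ N in l,
      c * volume (closedBall x r) ≤ b N (F ∩ y ⁻¹' closedBall x r)) :
    c • (volume : Measure ℂ).restrict Δ ≤ (β.restrict V).map y := by
  have hy' : Measurable y := hy.measurable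
  have hfin : IsFiniteMeasure ((β.restrict V).map y) := by infer_instance
  refine low_balls fun x hx => ?_
  filter_upwards [h x hx] with r hr
  have hcl : IsClosed (F ∩ y ⁻¹' closedBall x r) := hF.inter (isClosed_closedBall.preimage hy)
  have h1 := hb _ hcl inter_subset_left
  have h2 : c * volume (closedBall x r) ≤ limsup (fun N => b N (F ∩ y ⁻¹' closedBall x r)) l :=
    le_limsup_of_frequently_le hr
  refine (h2.trans h1).trans ?_
  rw [Measure.map_apply hy' measurableSet_closedBall]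
  have h3 : β (F ∩ y ⁻¹' closedBall x r) ≤ β (y ⁻¹' closedBall x r ∩ V) := measure_mono fun p hp => ⟨hp.2, hV hp.1⟩
  exact h3.trans (Measure.le_restrict_apply _ _)

/-- the hypothesis of `low_port` from weak convergence -/
lemma port_weak {X : Type*} [TopologicalSpace X] [MeasurableSpace X] [OpensMeasurableSpace X] [HasOuterApproxClosed X]
    {ι : Type*} {l : Filter ι} {b : ι → FiniteMeasure X} {β : FiniteMeasure X} (hb : Tendsto b l (𝓝 β)) (C : Set X)
    (hC : IsClosed C) : limsup (fun N => (b N : Measure X) C) l ≤ (β : Measure X) C :=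
  FiniteMeasure.limsup_measure_closed_le_of_tendsto hb hC

/-- the hypothesis of `low_port` from the integrals of Lipschitz functions: `D` is a closed set which contains a neighbourhood
of `F`; only functions which vanish outside of `D` are used -/
lemma port_lip {X : Type*} [PseudoEMetricSpace X] [MeasurableSpace X] [OpensMeasurableSpace X] {ι : Type*}
    {l : Filter ι} {b : ι → Measure X}
    {β : Measure X} {D F : Set X} {δ0 : ℝ} (hδ0 : 0 < δ0) (hFD : thickening δ0 F ⊆ D) (hfin : β D ≠ ∞)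
    (hb : ∀ f : X → NNReal, (∃ K : NNReal, LipschitzWith K f) → (∀ x, f x ≤ 1) → (∀ x, x ∉ D → f x = 0) →
      limsup (fun N => ∫⁻ x, f x ∂(b N)) l ≤ ∫⁻ x, f x ∂β) (C : Set X) (hC : IsClosed C) (hCF : C ⊆ F) :
    limsup (fun N => b N C) l ≤ β C := by
  obtain ⟨δs, hδs⟩ : ∃ δs : ℕ → ℝ, δs = fun n : ℕ => δ0 / ((n : ℝ) + 1) := ⟨_, rfl⟩
  have hpos : ∀ n, 0 < δs n := fun n => by
    rw [hδs]
    positivity
  have hle : ∀ n, δs n ≤ δ0 := fun n => by
    rw [hδs]
    exact div_le_self hδ0.le (by linarith [show (0 : ℝ) ≤ (n : ℝ) from Nat.cast_nonneg n])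
  have hlim : Tendsto δs atTop (𝓝 0) := by
    rw [hδs]
    exact tendsto_const_div_atTop_nhds_zero_nat δ0 |>.comp (tendsto_add_atTop_nat 1) |>.congr fun n => by
      simp
  -- the finite measure `β` on `D`
  have hfinD : IsFiniteMeasure (β.restrict D) := ⟨by rw [Measure.restrict_apply_univ]; exact lt_top_iff_ne_top.2 hfin⟩
  have hCD : C ⊆ D := fun x hx => hFD (self_subset_thickening hδ0 F (hCF hx))
  have h1 := tendsto_lintegral_thickenedIndicator_of_isClosed (β.restrict D) hC hpos hlim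
  have e1 : (β.restrict D) C = β C := by
    rw [Measure.restrict_apply hC.measurableSet, inter_eq_left.2 hCD]
  rw [e1] at h1
  refine ge_of_tendsto h1 (Eventually.of_forall fun n => ?_)
  have hz : ∀ x, x ∉ D → thickenedIndicator (hpos n) C x = 0 := fun x hx => by
    refine thickenedIndicator_zero (hpos n) C fun hx2 => hx (hFD ?_)
    exact thickening_mono (hle n) _ (thickening_subset_of_subset _ hCF hx2)
  have h2 := hb (fun x => thickenedIndicator (hpos n) C x) ⟨_, lipschitzWith_thickenedIndicator (hpos n) C⟩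
    (fun x => thickenedIndicator_le_one (hpos n) C x) hz
  have h3 : ∫⁻ x, (thickenedIndicator (hpos n) C x : ℝ≥0∞) ∂β =
      ∫⁻ x, (thickenedIndicator (hpos n) C x : ℝ≥0∞) ∂(β.restrict D) := by
    refine (setLIntegral_eq_of_support_subset ?_).symm
    intro x hx
    by_contra hcon
    apply hx
    show (thickenedIndicator (hpos n) C x : ℝ≥0∞) = 0
    rw [hz x hcon]
    rfl
  rw [← h3]
  refine le_trans (limsup_le_limsup (Eventually.of_forall fun N => ?_)) h2
  have h4 := measure_le_lintegral_thickenedIndicator (b N) hC.measurableSet (hpos n)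
  exact h4

/-! ### lattices -/

/-- the point `(i, j)` of the lattice `o + ℤ e + ℤ f` -/
def lp (o e f : ℂ) (p : ℤ × ℤ) : ℂ := o + p.1 * e + p.2 * f

/-- **points of a lattice in a ball** -/
theorem lat_count {o e f x : ℂ} {K ρ : ℝ} (hK : 0 < K) (he : ‖e‖ + ‖f‖ ≤ K)
    (hsur : ∃ p : ℤ × ℤ, ‖lp o e f p - x‖ ≤ K) (hρ : 2 * K ≤ ρ) :
    ∃ S : Finset (ℤ × ℤ), (∀ p ∈ S, ‖lp o e f p - x‖ ≤ ρ) ∧ (ρ / K) ^ 2 / 4 ≤ (S.card : ℝ) := by
  obtain ⟨p0, hp0⟩ := hsur
  obtain ⟨t, ht⟩ : ∃ t : ℝ, t = ρ / K := ⟨_, rfl⟩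
  have ht2 : 2 ≤ t := by
    rw [ht, le_div_iff₀ hK]
    exact hρ
  obtain ⟨m, hm⟩ : ∃ m : ℕ, m = ⌊t - 1⌋₊ := ⟨_, rfl⟩
  have hm1 : (m : ℝ) ≤ t - 1 := by
    rw [hm]
    exact Nat.floor_le (by linarith)
  have hm2 : t - 1 < m + 1 := by
    rw [hm]
    exact Nat.lt_floor_add_one _
  refine ⟨Finset.Icc (p0.1 - m) (p0.1 + m) ×ˢ Finset.Icc (p0.2 - m) (p0.2 + m), ?_, ?_⟩
  · intro p hp
    rw [Finset.mem_product, Finset.mem_Icc, Finset.mem_Icc] at hp
    have e1 : lp o e f p - x = (lp o e f p0 - x) + (((p.1 - p0.1 : ℤ) : ℂ) * e + ((p.2 - p0.2 : ℤ) : ℂ) * f) := by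
      unfold lp
      push_cast
      ring
    rw [e1]
    have a1 : ‖((p.1 - p0.1 : ℤ) : ℂ)‖ ≤ m := by
      rw [Complex.norm_intCast]
      have : |p.1 - p0.1| ≤ (m : ℤ) := abs_le.2 ⟨by omega, by omega⟩
      exact_mod_cast this
    have a2 : ‖((p.2 - p0.2 : ℤ) : ℂ)‖ ≤ m := by
      rw [Complex.norm_intCast]
      have : |p.2 - p0.2| ≤ (m : ℤ) := abs_le.2 ⟨by omega, by omega⟩
      exact_mod_cast this
    have b1 : ‖((p.1 - p0.1 : ℤ) : ℂ) * e‖ ≤ m * ‖e‖ := by
      rw [norm_mul]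
      exact mul_le_mul_of_nonneg_right a1 (norm_nonneg _)
    have b2 : ‖((p.2 - p0.2 : ℤ) : ℂ) * f‖ ≤ m * ‖f‖ := by
      rw [norm_mul]
      exact mul_le_mul_of_nonneg_right a2 (norm_nonneg _)
    have b3 : (m : ℝ) * ‖e‖ + m * ‖f‖ ≤ m * K := by
      rw [← mul_add]
      exact mul_le_mul_of_nonneg_left he (Nat.cast_nonneg m)
    have b4 : (m : ℝ) * K ≤ ρ - K := by
      have : (m : ℝ) * K ≤ (t - 1) * K := mul_le_mul_of_nonneg_right hm1 hK.le
      have e2 : (t - 1) * K = ρ - K := by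
        rw [ht]
        field_simp
      linarith
    calc ‖(lp o e f p0 - x) + (((p.1 - p0.1 : ℤ) : ℂ) * e + ((p.2 - p0.2 : ℤ) : ℂ) * f)‖
        ≤ ‖lp o e f p0 - x‖ + ‖((p.1 - p0.1 : ℤ) : ℂ) * e + ((p.2 - p0.2 : ℤ) : ℂ) * f‖ := norm_add_le _ _
      _ ≤ K + (m * ‖e‖ + m * ‖f‖) := add_le_add hp0 ((norm_add_le _ _).trans (add_le_add b1 b2))
      _ ≤ ρ := by linarith
  · rw [Finset.card_product, Int.card_Icc, Int.card_Icc]
    have e1 : (p0.1 + m + 1 - (p0.1 - m)).toNat = 2 * m + 1 := by omega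
    have e2 : (p0.2 + m + 1 - (p0.2 - m)).toNat = 2 * m + 1 := by omega
    rw [e1, e2, ← ht]
    push_cast
    have h1 : t / 2 ≤ 2 * (m : ℝ) + 1 := by linarith
    nlinarith [h1, ht2]

/-- **exact ends**: the masses of the points of the lattice `(o N + ℤ e + ℤ f) / s N` in `Δ` are at least `c / s N ^ 2` -/
theorem low_exact {X : Type*} [TopologicalSpace X] [MeasurableSpace X] [OpensMeasurableSpace X] {ι : Type*}
    {l : Filter ι} {b : ι → Measure X}
    {β : Measure X} {y : X → ℂ} (hy : Continuous y) {F V : Set X} (hF : IsClosed F) (hV : F ⊆ V)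
    [IsFiniteMeasure (β.restrict V)]
    (hb : ∀ C : Set X, IsClosed C → C ⊆ F → limsup (fun N => b N C) l ≤ β C) {Δ : Set ℂ} (hΔ : IsOpen Δ) {s : ι → ℝ} (hs : Tendsto s l atTop)
    {o : ι → ℂ} {e f : ℂ} {K : ℝ} (hK : 0 < K) (he : ‖e‖ + ‖f‖ ≤ K) (hinj : ∀ N, Function.Injective (lp (o N) e f))
    (hsur : ∀ N x, ∃ p : ℤ × ℤ, ‖lp (o N) e f p - x‖ ≤ K) {c : ℝ} (hc : 0 ≤ c)
    (h : ∃ᶠ N in l, ∀ p : ℤ × ℤ, lp (o N) e f p / s N ∈ Δ →
      ENNReal.ofReal (c / s N ^ 2) ≤ b N (F ∩ y ⁻¹' {lp (o N) e f p / s N})) :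
    ENNReal.ofReal (c / (4 * K ^ 2 * Real.pi)) • (volume : Measure ℂ).restrict Δ ≤
      (β.restrict V).map y := by
  refine low_port hy hF hV hb fun x hx => ?_
  obtain ⟨ε, hε, hball⟩ := Metric.isOpen_iff.1 hΔ x hx
  have h1 : ∀ᶠ r in 𝓝[>] (0 : ℝ), r ∈ Ioo (0 : ℝ) ε := Ioo_mem_nhdsGT hε
  filter_upwards [h1] with r hr
  have h2 : ∀ᶠ N in l, max 1 (2 * K / r) ≤ s N := hs.eventually_ge_atTop _
  refine (h.and_eventually h2).mono ?_
  rintro N ⟨hN, hsN⟩
  have hs1 : 1 ≤ s N := (le_max_left _ _).trans hsN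
  have hs0 : 0 < s N := by linarith
  have hs2 : 2 * K ≤ r * s N := by
    have := (le_max_right _ _).trans hsN
    rw [div_le_iff₀ hr.1] at this
    linarith
  obtain ⟨S, hS, hcard⟩ := lat_count (x := x * s N) hK he (hsur N _) hs2
  -- the points are in the ball
  have hmem : ∀ p ∈ S, lp (o N) e f p / s N ∈ closedBall x r := by
    intro p hp
    have h3 := hS p hp
    rw [mem_closedBall, dist_eq_norm]
    have e3 : lp (o N) e f p / s N - x = (lp (o N) e f p - x * s N) / s N := by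
      have : (s N : ℂ) ≠ 0 := by exact_mod_cast hs0.ne'
      field_simp
    rw [e3, norm_div, Complex.norm_real, Real.norm_of_nonneg hs0.le, div_le_iff₀ hs0]
    exact h3
  have hsub : closedBall x r ⊆ Δ := (closedBall_subset_ball hr.2).trans hball
  -- the mass of the ball
  have hmass : ∑ p ∈ S, b N (F ∩ y ⁻¹' {lp (o N) e f p / s N}) ≤
      b N (F ∩ y ⁻¹' closedBall x r) := by
    rw [← measure_biUnion_finset]
    · refine measure_mono ?_
      intro q hq
      simp only [mem_iUnion, mem_inter_iff, mem_preimage, mem_singleton_iff] at hq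
      obtain ⟨p, hp, hq1, hq2⟩ := hq
      refine ⟨hq1, ?_⟩
      rw [mem_preimage, hq2]
      exact hmem p hp
    · intro p hp q hq hpq
      refine disjoint_left.2 ?_
      rintro a ⟨_, ha1⟩ ⟨_, ha2⟩
      apply hpq
      apply hinj N
      have hs0' : (s N : ℂ) ≠ 0 := by exact_mod_cast hs0.ne'
      simp only [mem_preimage, mem_singleton_iff] at ha1 ha2
      rw [ha1] at ha2
      rwa [div_left_inj' hs0'] at ha2
    · intro p _
      exact (hF.measurableSet).inter ((isClosed_singleton.preimage hy).measurableSet)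
  refine le_trans ?_ hmass
  have h4 : ∑ p ∈ S, ENNReal.ofReal (c / s N ^ 2) ≤ ∑ p ∈ S, b N (F ∩ y ⁻¹' {lp (o N) e f p / s N}) :=
    Finset.sum_le_sum fun p hp => hN p (hsub (hmem p hp))
  refine le_trans ?_ h4
  rw [Finset.sum_const, nsmul_eq_mul, Complex.volume_closedBall]
  have e5 : (S.card : ℝ≥0∞) = ENNReal.ofReal (S.card : ℝ) := (ENNReal.ofReal_natCast _).symm
  have e6 : (NNReal.pi : ℝ≥0∞) = ENNReal.ofReal Real.pi := by
    rw [← NNReal.coe_real_pi, ENNReal.ofReal_coe_nnreal]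
  rw [e5, e6, ← ENNReal.ofReal_pow hr.1.le, ← ENNReal.ofReal_mul (by positivity),
    ← ENNReal.ofReal_mul (by positivity), ← ENNReal.ofReal_mul (by positivity)]
  refine ENNReal.ofReal_le_ofReal ?_
  have e7 : c / (4 * K ^ 2 * Real.pi) * (r ^ 2 * Real.pi) = (r * s N / K) ^ 2 / 4 * (c / s N ^ 2) := by
    field_simp
  rw [e7]
  exact mul_le_mul_of_nonneg_right hcard (by positivity)

/-- the form needed for the support hypothesis -/
theorem ac_exact {X : Type*} [TopologicalSpace X] [MeasurableSpace X] [OpensMeasurableSpace X] {ι : Type*}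
    {l : Filter ι} {b : ι → Measure X}
    {β : Measure X} {y : X → ℂ} (hy : Continuous y) {F V : Set X} (hF : IsClosed F) (hV : F ⊆ V)
    [IsFiniteMeasure (β.restrict V)]
    (hb : ∀ C : Set X, IsClosed C → C ⊆ F → limsup (fun N => b N C) l ≤ β C) {Δ : Set ℂ} (hΔ : IsOpen Δ) {s : ι → ℝ} (hs : Tendsto s l atTop)
    {o : ι → ℂ} {e f : ℂ} {K : ℝ} (hK : 0 < K) (he : ‖e‖ + ‖f‖ ≤ K) (hinj : ∀ N, Function.Injective (lp (o N) e f))
    (hsur : ∀ N x, ∃ p : ℤ × ℤ, ‖lp (o N) e f p - x‖ ≤ K) {c : ℝ} (hc : 0 < c)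
    (h : ∃ᶠ N in l, ∀ p : ℤ × ℤ, lp (o N) e f p / s N ∈ Δ →
      ENNReal.ofReal (c / s N ^ 2) ≤ b N (F ∩ y ⁻¹' {lp (o N) e f p / s N})) :
    (volume : Measure ℂ).restrict Δ ≪ (β.restrict V).map y := by
  have h1 := low_exact hy hF hV hb hΔ hs hK he hinj hsur hc.le h
  refine Measure.AbsolutelyContinuous.trans ?_ h1.absolutelyContinuous
  refine Measure.absolutelyContinuous_smul ?_
  rw [ne_eq, ENNReal.ofReal_eq_zero, not_le]
  positivity

/-! ### the choice of the scale -/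

/-- the scale `k` of the mesh `D` -/
theorem exists_k {H k0 : ℕ} (hH : 1 ≤ H) {D : ℤ} (hD : 18 * (H * 2 ^ k0) ≤ D) :
    ∃ k : ℕ, k0 ≤ k ∧ 18 * ((H : ℤ) * 2 ^ k) ≤ D ∧ D ≤ 36 * ((H : ℤ) * 2 ^ k) := by
  have hH' : (1 : ℤ) ≤ H := by exact_mod_cast hH
  have hex : ∃ k : ℕ, D < 18 * ((H : ℤ) * 2 ^ k) := by
    refine ⟨D.toNat, ?_⟩
    have h1 : (D.toNat : ℤ) < 2 ^ D.toNat := by exact_mod_cast Nat.lt_two_pow_self
    have h2 : D ≤ D.toNat := Int.self_le_toNat D
    have h3 : (2 : ℤ) ^ D.toNat ≤ (H : ℤ) * 2 ^ D.toNat := by nlinarith [pow_pos (show (0 : ℤ) < 2 by norm_num) D.toNat]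
    have h4 : (0 : ℤ) < 2 ^ D.toNat := by positivity
    linarith
  obtain ⟨j, hj⟩ : ∃ j : ℕ, j = Nat.find hex := ⟨_, rfl⟩
  have hj1 : D < 18 * ((H : ℤ) * 2 ^ j) := hj ▸ Nat.find_spec hex
  have hj2 : k0 < j := by
    by_contra hcon
    have h1 : (2 : ℤ) ^ j ≤ 2 ^ k0 := pow_le_pow_right₀ (by norm_num) (by omega)
    have h2 : (H : ℤ) * 2 ^ j ≤ H * 2 ^ k0 := mul_le_mul_of_nonneg_left h1 (by linarith)
    linarith
  obtain ⟨k, rfl⟩ : ∃ k, j = k + 1 := ⟨j - 1, by omega⟩
  refine ⟨k, by omega, ?_, ?_⟩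
  · have := Nat.find_min hex (m := k) (by omega)
    linarith
  · rw [pow_succ] at hj1
    linarith

end Pool.Agent.ROT.F3
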