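import Pool.Agent.ROT.F3For

/-!
# ROT, F3 (B), row R2 (helper76): LOW0, lower bounds of the rests with outer gates

`R = b ++ (T ++ b'.reverse)`: `b` = block in front of the outer gate `y`, `T` = tube word, `b'` = block of the other end.
* **`ms_triple`** : `ms K ψ * (ms As 1 * ms K' ψ') ≤ ms Rs G` if every triple is in the class and `ψ b * ψ' b' ≤ G R`;
* `ms_cell` : one cell of a finite cover carries a fixed part of the mass;
* **`low0`** : the tube is chosen after the cells of both ends.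
-/

set_option autoImplicit false

namespace Pool.Agent.ROT.F3

open Finset ComplexConjugate
open scoped ENNReal Classical

/-! ### 1. The product -/

/-- the sum over the words of a class is monotone in the class and in the function -/
lemma ms_le {T T' : Set W3} {f g : W3 → ℝ≥0∞} (h : ∀ a ∈ T, f a ≠ 0 → a ∈ T' ∧ f a ≤ g a) : ms T f ≤ ms T' g := by
  refine ENNReal.tsum_le_tsum fun a => ?_
  by_cases ha : a ∈ T
  · by_cases hf : f a = 0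
    · rw [if_pos ha, hf, mul_zero]
      exact zero_le
    · obtain ⟨h1, h2⟩ := h a ha hf
      rw [if_pos ha, if_pos h1]
      exact mul_le_mul' le_rfl h2
  · rw [if_neg ha]
    exact zero_le

/-- **the product of the masses of the pieces is a lower bound of the mass of the rests** -/
theorem ms_triple {K As K' Rs : Set W3} {t t' : ℂ} {rt rt' r0t r0t' Dt : ℝ} (hK : ∀ a ∈ K, TipC t rt a)
    (hK' : ∀ b ∈ K', TipC t' rt' b) (hA : ∀ A ∈ As, RsC t t' r0t r0t' Dt A) (h0 : 2 * rt ≤ r0t) (h0' : 2 * rt' ≤ r0t')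
    (hD : 2 * (rt + rt') < Dt) (hU : Un3 K As K') {ψ ψ' G : W3 → ℝ≥0∞}
    (hR : ∀ b ∈ K, ∀ T ∈ As, ∀ b' ∈ K', ψ b ≠ 0 → ψ' b' ≠ 0 →
      b ++ (T ++ b'.reverse) ∈ Rs ∧ ψ b * ψ' b' ≤ G (b ++ (T ++ b'.reverse))) :
    ms K ψ * (ms As (fun _ => 1) * ms K' ψ') ≤ ms Rs G := by
  rw [← ms_rest (Rs := {R | ∃ b ∈ K, ∃ T ∈ As, ∃ b' ∈ K', R = b ++ (T ++ b'.reverse)}) hK hK' hA h0 h0' hD
    (fun b hb T hT b' hb' => ⟨b, hb, T, hT, b', hb', rfl⟩) ψ (fun _ => 1) ψ']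
  refine ms_le ?_
  rintro R ⟨b, hb, T, hT, b', hb', rfl⟩ hne
  rw [PhiR_eq hU ψ (fun _ => 1) ψ' hb hT hb', one_mul] at hne ⊢
  exact hR b hb T hT b' hb' (left_ne_zero_of_mul hne) (right_ne_zero_of_mul hne)

/-- the same for first cuts: the decomposition is unique -/
theorem ms_triple_fst {K As K' Rs : Set W3} {t t' : ℂ} {rt rt' r0t r0t' l l' Dt : ℝ} (hK : ∀ a ∈ K, TipC t rt a ∧ FstC t l a)
    (hK' : ∀ b ∈ K', TipC t' rt' b ∧ FstC t' l' b) (hA : ∀ A ∈ As, RsC t t' r0t r0t' Dt A) (h0 : 2 * rt ≤ r0t)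
    (h0' : 2 * rt' ≤ r0t') (hD : 2 * (rt + rt') < Dt) (hrt : 0 ≤ rt) (hrt' : 0 ≤ rt') {ψ ψ' G : W3 → ℝ≥0∞}
    (hR : ∀ b ∈ K, ∀ T ∈ As, ∀ b' ∈ K', ψ b ≠ 0 → ψ' b' ≠ 0 →
      b ++ (T ++ b'.reverse) ∈ Rs ∧ ψ b * ψ' b' ≤ G (b ++ (T ++ b'.reverse))) :
    ms K ψ * (ms As (fun _ => 1) * ms K' ψ') ≤ ms Rs G :=
  ms_triple (fun a ha => (hK a ha).1) (fun b hb => (hK' b hb).1) hA h0 h0' hD
    (un3_fst hK hK' hA h0 h0' (by linarith) (by linarith)) hR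

/-! ### 2. The cells -/

/-- the words of the class in the cell -/
def cel (K C : Set W3) : Set W3 := K ∩ C

lemma mem_cel {K C : Set W3} {b : W3} : b ∈ cel K C ↔ b ∈ K ∧ b ∈ C := Iff.rfl

/-- **one cell carries a part of the mass** -/
theorem ms_cell {ι : Type*} (s : Finset ι) {K : Set W3} {ψ : W3 → ℝ≥0∞} (cell : ι → Set W3)
    (hc : ∀ b ∈ K, ψ b ≠ 0 → ∃ i ∈ s, b ∈ cell i) {c : ℝ≥0∞} (h : c ≤ ms K ψ) (hs : s.Nonempty) :
    ∃ i ∈ s, c ≤ s.card * ms (cel K (cell i)) ψ := by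
  obtain ⟨i, hi, hmax⟩ := s.exists_max_image (fun i => ms (cel K (cell i)) ψ) hs
  refine ⟨i, hi, h.trans ?_⟩
  calc ms K ψ ≤ ∑ j ∈ s, ms (cel K (cell j)) ψ := by
        unfold ms
        rw [← Summable.tsum_finsetSum fun _ _ => ENNReal.summable]
        refine ENNReal.tsum_le_tsum fun b => ?_
        by_cases hb : b ∈ K
        · by_cases hψ : ψ b = 0
          · rw [if_pos hb, hψ, mul_zero]
            exact zero_le
          · obtain ⟨j, hj, hj2⟩ := hc b hb hψ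
            rw [if_pos hb]
            refine le_trans ?_ (single_le_sum (f := fun j => if b ∈ (cel K (cell j)) then wx b * ψ b else 0)
              (fun _ _ => zero_le) hj)
            show wx b * ψ b ≤ if b ∈ (cel K (cell j)) then wx b * ψ b else 0
            rw [if_pos (mem_cel.2 ⟨hb, hj2⟩)]
        · rw [if_neg hb]
          exact zero_le
    _ ≤ ∑ _j ∈ s, ms (cel K (cell i)) ψ := sum_le_sum fun j hj => hmax j hj
    _ = _ := by rw [sum_const, nsmul_eq_mul]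

/-- **LOW0**: the tube is chosen after the cells of both ends -/
theorem low0 {ι ι' : Type*} (s : Finset ι) (s' : Finset ι') {K K' Rs : Set W3} {As : ι → ι' → Set W3} {t t' : ℂ}
    {rt rt' r0t r0t' l l' Dt : ℝ} (cell : ι → Set W3) (cell' : ι' → Set W3) {ψ ψ' G : W3 → ℝ≥0∞}
    (hK : ∀ a ∈ K, TipC t rt a ∧ FstC t l a) (hK' : ∀ b ∈ K', TipC t' rt' b ∧ FstC t' l' b)
    (hc : ∀ b ∈ K, ψ b ≠ 0 → ∃ i ∈ s, b ∈ cell i) (hc' : ∀ b ∈ K', ψ' b ≠ 0 → ∃ i ∈ s', b ∈ cell' i)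
    (hA : ∀ i ∈ s, ∀ i' ∈ s', ∀ A ∈ As i i', RsC t t' r0t r0t' Dt A) (h0 : 2 * rt ≤ r0t)
    (h0' : 2 * rt' ≤ r0t') (hD : 2 * (rt + rt') < Dt) (hrt : 0 ≤ rt) (hrt' : 0 ≤ rt')
    (hR : ∀ i ∈ s, ∀ i' ∈ s', ∀ b ∈ K, b ∈ cell i → ∀ T ∈ As i i', ∀ b' ∈ K', b' ∈ cell' i' → ψ b ≠ 0 → ψ' b' ≠ 0 →
      b ++ (T ++ b'.reverse) ∈ Rs ∧ ψ b * ψ' b' ≤ G (b ++ (T ++ b'.reverse)))
    (hs : s.Nonempty) (hs' : s'.Nonempty) {c c' τ : ℝ≥0∞} (hψ : c ≤ ms K ψ) (hψ' : c' ≤ ms K' ψ')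
    (hτ : ∀ i ∈ s, ∀ i' ∈ s', τ ≤ ms (As i i') fun _ => 1) :
    c * (τ * c') ≤ (s.card : ℝ≥0∞) * s'.card * ms Rs G := by
  obtain ⟨i, hi, h1⟩ := ms_cell s cell hc hψ hs
  obtain ⟨i', hi', h2⟩ := ms_cell s' cell' hc' hψ' hs'
  have h3 := ms_triple_fst (K := (cel K (cell i))) (K' := (cel K' (cell' i'))) (As := As i i') (Rs := Rs)
    (fun a ha => hK a ha.1) (fun b hb => hK' b hb.1) (hA i hi i' hi') h0 h0' hD hrt hrt'
    (ψ := ψ) (ψ' := ψ') (G := G) fun b hb T hT b' hb' n1 n2 => hR i hi i' hi' b hb.1 hb.2 T hT b' hb'.1 hb'.2 n1 n2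
  calc c * (τ * c') ≤ (s.card * ms (cel K (cell i)) ψ) *
        (ms (As i i') (fun _ => 1) * (s'.card * ms (cel K' (cell' i')) ψ')) :=
        mul_le_mul' h1 (mul_le_mul' (hτ i hi i' hi') h2)
    _ = (s.card : ℝ≥0∞) * s'.card * (ms (cel K (cell i)) ψ * (ms (As i i') (fun _ => 1) *
        ms (cel K' (cell' i')) ψ')) := by ring
    _ ≤ _ := mul_le_mul' le_rfl h3

end Pool.Agent.ROT.F3
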