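import Pool.Agent.ROT.F3BetaC
import Pool.Agent.ROT.F3CoreH
import Pool.Agent.ROT.F3For

/-!
# ROT, F3 (helper76): limits of rests with two marks, `R = b ++ (m ++ b'.reverse)`

* `MP` = (rest, (mark, mark)); `two` = the two outer pieces, `mid` = the middle piece (curves with durations); `mk3` : the rest of a
  triple of words with its marks; `mm` : the law of the marked rests; **`mm_map_two`** : the law of the outer pieces is a product;
  **`mm_map_fst`** : the law of the rest is at most the law of the class of rests;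
* `near_rst` : the classes of rests are near compact sets;
* **`mark_lim`** : the limit of the laws of the marked rests: its marginal is at most the limit of the rests, the law of the outer pieces
  is the product of the limits of the blocks, closed conditions hold.
-/

set_option autoImplicit false

open MeasureTheory Filter Topology Set
open scoped ENNReal NNReal Classical BoundedContinuousFunction

namespace Pool.Agent.ROT.F3.Mk

open Pool.Agent.ROT.F3 Pool.Agent.ROT.F3.CC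

/-! ### 1. Marked rests -/

/-- a rest with two marks (relative times) -/
abbrev MP : Type := Pie × (ℝ × ℝ)

/-- the two outer pieces -/
noncomputable def two (x : MP) : Pie × Pie := (pcut x.1 0 x.2.1, pcut x.1 1 x.2.2)

lemma two_cont : Continuous two := by
  unfold two
  exact (pcut_cont' (by fun_prop) continuous_const (by fun_prop)).prodMk
    (pcut_cont' (by fun_prop) continuous_const (by fun_prop))

/-- the middle piece -/
noncomputable def mid (x : MP) : Pie := pcut x.1 x.2.1 x.2.2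

lemma mid_cont : Continuous mid := by
  unfold mid
  exact pcut_cont' (by fun_prop) (by fun_prop) (by fun_prop)

/-- the concatenation of a triple -/
def cat (x : W3 × (W3 × W3)) : W3 := x.1 ++ (x.2.1 ++ x.2.2.reverse)

lemma cat_len (x : W3 × (W3 × W3)) : (cat x).length = x.1.length + (x.2.1.length + x.2.2.length) := by
  unfold cat
  simp only [List.length_append, List.length_reverse]

/-- the rest of a triple with its marks -/
noncomputable def mk3 (s t : ℝ) (x : W3 × (W3 × W3)) : MP :=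
  (cr s t (cat x), ((x.1.length : ℝ) / (cat x).length, ((x.1.length + x.2.1.length : ℕ) : ℝ) / (cat x).length))

lemma cr_wp (s t : ℝ) (R : W3) : cr s t R = wp s t R := rfl

lemma mk3_marks {s t : ℝ} {x : W3 × (W3 × W3)} (h : 1 ≤ (cat x).length) :
    0 ≤ (mk3 s t x).2.1 ∧ (mk3 s t x).2.1 ≤ (mk3 s t x).2.2 ∧ (mk3 s t x).2.2 ≤ 1 := by
  have hl := cat_len x
  have hn : (0 : ℝ) < (cat x).length := by exact_mod_cast h
  refine ⟨by unfold mk3; positivity, ?_, ?_⟩
  · show (x.1.length : ℝ) / (cat x).length ≤ ((x.1.length + x.2.1.length : ℕ) : ℝ) / (cat x).length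
    gcongr
    exact Nat.le_add_right _ _
  · show ((x.1.length + x.2.1.length : ℕ) : ℝ) / (cat x).length ≤ 1
    rw [div_le_one hn]
    exact_mod_cast (by omega : x.1.length + x.2.1.length ≤ (cat x).length)

theorem two_mk3 {s t : ℝ} {x : W3 × (W3 × W3)} (e1 : Even x.1.length) (e2 : Even x.2.1.length) (e3 : Even x.2.2.length)
    (h : 1 ≤ (cat x).length) : two (mk3 s t x) = (cr s t x.1, cr s t x.2.2) := by
  have hl := cat_len x
  have hn : ((cat x).length : ℝ) ≠ 0 := by exact_mod_cast (by omega : (cat x).length ≠ 0)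
  have full : ∀ w : W3, seg w 0 w.length = w := fun w => by
    unfold seg
    rw [List.drop_zero, Nat.sub_zero, List.take_length]
  have g1 : seg (cat x) 0 x.1.length = x.1 := by
    unfold cat
    rw [seg_app_left le_rfl, full]
  have g3 : seg (cat x) (x.1.length + x.2.1.length) (cat x).length = x.2.2.reverse := by
    have e : (cat x).length = x.1.length + x.2.1.length + x.2.2.length := by omega
    have h2 := seg_app_right (u := x.1 ++ x.2.1) (v := x.2.2.reverse) (i := 0) (j := x.2.2.length)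
    rw [List.length_append, add_zero] at h2
    rw [e]
    unfold cat
    rw [← List.append_assoc, h2]
    have := full x.2.2.reverse
    rwa [List.length_reverse] at this
  have eR : Even (cat x).length := by
    rw [hl]
    exact e1.add (e2.add e3)
  have e0 : (0 : ℝ) = ((0 : ℕ) : ℝ) / (cat x).length := by simp
  have e1' : (1 : ℝ) = ((cat x).length : ℝ) / (cat x).length := (div_self hn).symm
  refine Prod.ext ?_ ?_
  · show pcut (wp s t (cat x)) 0 ((x.1.length : ℝ) / (cat x).length) = wp s t x.1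
    conv_lhs => rw [e0]
    rw [wp_seg (by simp) (Nat.zero_le _) (by omega) h, g1]
  · show pcut (wp s t (cat x)) 1 (((x.1.length + x.2.1.length : ℕ) : ℝ) / (cat x).length) = wp s t x.2.2
    conv_lhs => rw [e1']
    rw [wp_rev (e1.add e2) eR (by omega) le_rfl h, g3, List.reverse_reverse]

theorem mid_mk3 {s t : ℝ} {x : W3 × (W3 × W3)} (e1 : Even x.1.length) (h : 1 ≤ (cat x).length) :
    mid (mk3 s t x) = cr s t x.2.1 := by
  have hl := cat_len x
  have g2 : seg (cat x) x.1.length (x.1.length + x.2.1.length) = x.2.1 := by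
    unfold cat
    exact seg_mid _ _ _
  show pcut (wp s t (cat x)) ((x.1.length : ℝ) / (cat x).length) (((x.1.length + x.2.1.length : ℕ) : ℝ) / (cat x).length) =
    wp s t x.2.1
  rw [wp_seg e1 (by omega) (by omega) h, g2]

/-! ### 2. The law of the marked rests -/

/-- the weight of a triple -/
noncomputable def w3 (c : ℝ≥0∞) (B M B' : Set W3) (x : W3 × (W3 × W3)) : ℝ≥0∞ :=
  c * ((if x.1 ∈ B then wx x.1 else 0) * ((if x.2.1 ∈ M then wx x.2.1 else 0) * (if x.2.2 ∈ B' then wx x.2.2 else 0)))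

lemma w3_ne {c : ℝ≥0∞} {B M B' : Set W3} {x : W3 × (W3 × W3)} (h : w3 c B M B' x ≠ 0) : x.1 ∈ B ∧ x.2.1 ∈ M ∧ x.2.2 ∈ B' := by
  unfold w3 at h
  refine ⟨?_, ?_, ?_⟩
  · by_contra hc
    rw [if_neg hc, zero_mul, mul_zero] at h
    exact h rfl
  · by_contra hc
    rw [if_neg hc, zero_mul, mul_zero, mul_zero] at h
    exact h rfl
  · by_contra hc
    rw [if_neg hc, mul_zero, mul_zero, mul_zero] at h
    exact h rfl

/-- the law of the marked rests -/
noncomputable def mm (c : ℝ≥0∞) (s t : ℝ) (B M B' : Set W3) : Measure MP :=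
  Measure.sum fun x : W3 × (W3 × W3) => w3 c B M B' x • Measure.dirac (mk3 s t x)

lemma mm_lint (c : ℝ≥0∞) (s t : ℝ) (B M B' : Set W3) {g : MP → ℝ≥0∞} (hg : Measurable g) :
    ∫⁻ y, g y ∂(mm c s t B M B') = ∑' x : W3 × (W3 × W3), w3 c B M B' x * g (mk3 s t x) := by
  unfold mm
  rw [lintegral_sum_measure]
  refine tsum_congr fun x => ?_
  rw [lintegral_smul_measure, lintegral_dirac' _ hg, smul_eq_mul]

/-- the sum over the triples of a product -/
lemma tsum3 (c : ℝ≥0∞) (B M B' : Set W3) (F : W3 → W3 → ℝ≥0∞) :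
    ∑' x : W3 × (W3 × W3), w3 c B M B' x * F x.1 x.2.2 = c * (ms M fun _ => 1) * ms B fun b => ms B' fun b' => F b b' := by
  unfold ms w3
  rw [ENNReal.tsum_prod']
  rw [← ENNReal.tsum_mul_left]
  refine tsum_congr fun b => ?_
  rw [ENNReal.tsum_prod']
  by_cases hb : b ∈ B
  · simp only [if_pos hb]
    have h1 : ∀ m : W3, ∑' b' : W3, c * (wx b * ((if m ∈ M then wx m else 0) * (if b' ∈ B' then wx b' else 0))) * F b b' =
        (if m ∈ M then wx m * 1 else 0) * (c * (wx b * ∑' b' : W3, if b' ∈ B' then wx b' * F b b' else 0)) := by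
      intro m
      rw [← ENNReal.tsum_mul_left, ← ENNReal.tsum_mul_left, ← ENNReal.tsum_mul_left]
      refine tsum_congr fun b' => ?_
      split_ifs <;> ring
    simp only [h1]
    rw [ENNReal.tsum_mul_right]
    ring
  · simp only [if_neg hb, zero_mul, mul_zero, tsum_zero]

/-- **the law of the outer pieces is a product** -/
theorem mm_map_two {c : ℝ≥0∞} {s t : ℝ} {B M B' : Set W3} (hB : ∀ b ∈ B, Even b.length)
    (hM : ∀ m ∈ M, Even m.length ∧ 1 ≤ m.length) (hB' : ∀ b ∈ B', Even b.length) :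
    (mm c s t B M B').map two = (c * ms M fun _ => 1) • (rm 1 s t B fun _ => 1).prod (rm 1 s t B' fun _ => 1) := by
  have hsf : SFinite (rm 1 s t B' fun _ => 1) := by
    unfold rm
    infer_instance
  have hsf' : SFinite (rm 1 s t B fun _ => 1) := by
    unfold rm
    infer_instance
  refine Measure.ext_of_lintegral _ fun F hF => ?_
  rw [lintegral_map hF two_cont.measurable, mm_lint c s t B M B' (g := fun y => F (two y)) (hF.comp two_cont.measurable),
    lintegral_smul_measure,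
    lintegral_prod _ hF.aemeasurable, rm_lint _ _ _ _ hF.lintegral_prod_right', smul_eq_mul]
  have h1 : ∀ x : W3 × (W3 × W3), w3 c B M B' x * F (two (mk3 s t x)) = w3 c B M B' x * F (cr s t x.1, cr s t x.2.2) := by
    intro x
    by_cases h : w3 c B M B' x = 0
    · rw [h, zero_mul, zero_mul]
    · obtain ⟨a1, a2, a3⟩ := w3_ne h
      rw [two_mk3 (hB _ a1) (hM _ a2).1 (hB' _ a3) (by rw [cat_len]; have := (hM _ a2).2; omega)]
  simp only [h1]
  rw [tsum3 c B M B' fun b b' => F (cr s t b, cr s t b'), one_mul]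
  congr 1
  unfold ms
  refine tsum_congr fun b => ?_
  split_ifs
  · congr 1
    show (∑' a : W3, if a ∈ B' then wx a * F (cr s t b, cr s t a) else 0) =
      ENNReal.ofReal 1 * ∫⁻ y : Pie, F (cr s t b, y) ∂(rm 1 s t B' fun _ => 1)
    rw [ENNReal.ofReal_one, one_mul, rm_lint 1 s t B' (g := fun y => F (cr s t b, y)) (hF.comp measurable_prodMk_left), one_mul]
    unfold ms
    refine tsum_congr fun b' => ?_
    simp only [ENNReal.ofReal_one, one_mul]
  · rfl

/-- **the law of the rest is at most the law of the class** -/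
theorem mm_fst {c : ℝ≥0∞} {s t : ℝ} {B M B' Rs : Set W3} (hU : Un3 B M B')
    (hR : ∀ b ∈ B, ∀ m ∈ M, ∀ b' ∈ B', b ++ (m ++ b'.reverse) ∈ Rs) {g : Pie → ℝ≥0∞} (hg : Measurable g) :
    ∫⁻ y, g y.1 ∂(mm c s t B M B') ≤ ∫⁻ y, g y ∂(rm c s t Rs fun _ => 1) := by
  rw [mm_lint c s t B M B' (g := fun y => g y.1) (hg.comp measurable_fst), rm_lint _ _ _ _ hg]
  unfold ms
  rw [← ENNReal.tsum_mul_left]
  obtain ⟨F, hF⟩ : ∃ F : W3 → ℝ≥0∞, F = fun R => c * if R ∈ Rs then wx R * (ENNReal.ofReal 1 * g (cr s t R)) else 0 := ⟨_, rfl⟩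
  obtain ⟨T, hT⟩ : ∃ T : Set (W3 × (W3 × W3)), T = {x | x.1 ∈ B ∧ x.2.1 ∈ M ∧ x.2.2 ∈ B'} := ⟨_, rfl⟩
  have h1 : ∀ x : W3 × (W3 × W3), w3 c B M B' x * g (mk3 s t x).1 ≤ T.indicator (fun x => F (cat x)) x := by
    intro x
    by_cases h : w3 c B M B' x = 0
    · rw [h, zero_mul]
      exact zero_le
    · obtain ⟨a1, a2, a3⟩ := w3_ne h
      have hx : x ∈ T := by rw [hT]; exact ⟨a1, a2, a3⟩
      rw [indicator_of_mem hx, hF]
      show w3 c B M B' x * g (cr s t (cat x)) ≤ c * if cat x ∈ Rs then wx (cat x) * (ENNReal.ofReal 1 * g (cr s t (cat x))) else 0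
      rw [if_pos (show cat x ∈ Rs from hR _ a1 _ a2 _ a3)]
      unfold w3
      rw [if_pos a1, if_pos a2, if_pos a3]
      have e : wx (cat x) = wx x.1 * (wx x.2.1 * wx x.2.2) := by
        unfold cat
        rw [wx_append, wx_append, wx_reverse]
      rw [e, ENNReal.ofReal_one]
      refine le_of_eq ?_
      ring
  refine (ENNReal.tsum_le_tsum h1).trans ?_
  rw [← tsum_subtype T fun x => F (cat x)]
  have h2 := ENNReal.tsum_comp_le_tsum_of_injective (f := fun x : T => cat x) (g := F) (by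
    rintro ⟨x, hx⟩ ⟨y, hy⟩ hxy
    rw [hT] at hx hy
    obtain ⟨a1, a2, a3⟩ := hU _ hx.1 _ hx.2.1 _ hx.2.2 _ hy.1 _ hy.2.1 _ hy.2.2 hxy
    exact Subtype.ext (Prod.ext a1 (Prod.ext a2 a3)))
  rw [hF] at h2
  rw [hF]
  exact h2


lemma mm_null {c : ℝ≥0∞} {s t : ℝ} {B M B' : Set W3} {A : Set MP}
    (h : ∀ b ∈ B, ∀ m ∈ M, ∀ b' ∈ B', mk3 s t (b, m, b') ∉ A) : mm c s t B M B' A = 0 := by
  unfold mm
  rw [Measure.sum_apply_of_countable, ENNReal.tsum_eq_zero]
  intro x
  rw [Measure.smul_apply, smul_eq_mul]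
  by_cases hx : w3 c B M B' x = 0
  · rw [hx, zero_mul]
  · obtain ⟨a1, a2, a3⟩ := w3_ne hx
    rw [Measure.dirac_apply, indicator_of_notMem (h _ a1 _ a2 _ a3), mul_zero]

lemma near_closed {X : Type*} [PseudoMetricSpace X] (S : Set X) (η : ℝ) : IsClosed {x : X | ∀ y ∈ S, η ≤ dist x y} := by
  have e : {x : X | ∀ y ∈ S, η ≤ dist x y} = ⋂ y ∈ S, {x | η ≤ dist x y} := by
    ext x
    simp
  rw [e]
  exact isClosed_biInter fun y _ => isClosed_le continuous_const (by fun_prop)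

/-! ### 3. Limits -/

/-- an inequality between the integrals of the nonnegative bounded continuous functions -/
lemma le_of_int {X : Type*} [MetricSpace X] [MeasurableSpace X] [BorelSpace X] {P β : Measure X} [IsFiniteMeasure P]
    [IsFiniteMeasure β] (h : ∀ G : X →ᵇ ℝ, (∀ x, 0 ≤ G x) → ∫ x, G x ∂P ≤ ∫ x, G x ∂β) : P ≤ β := by
  have key : ∀ F : Set X, IsClosed F → P F ≤ β F := by
    intro F hF
    refine le_of_tendsto_of_tendsto' (HasOuterApproxClosed.tendsto_lintegral_apprSeq hF P)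
      (HasOuterApproxClosed.tendsto_lintegral_apprSeq hF β) fun n => ?_
    have h1 := h ⟨⟨fun x => (hF.apprSeq n x : ℝ), by fun_prop⟩, 1, fun x y => by
      have a1 := HasOuterApproxClosed.apprSeq_apply_le_one hF n x
      have a2 := HasOuterApproxClosed.apprSeq_apply_le_one hF n y
      have a1' : ((hF.apprSeq n x : ℝ≥0) : ℝ) ≤ 1 := by exact_mod_cast a1
      have a2' : ((hF.apprSeq n y : ℝ≥0) : ℝ) ≤ 1 := by exact_mod_cast a2
      rw [Real.dist_eq, abs_le]
      constructor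
      · show (-1 : ℝ) ≤ (hF.apprSeq n x : ℝ) - (hF.apprSeq n y : ℝ)
        have := (hF.apprSeq n x).coe_nonneg
        linarith
      · show (hF.apprSeq n x : ℝ) - (hF.apprSeq n y : ℝ) ≤ 1
        have := (hF.apprSeq n y).coe_nonneg
        linarith⟩ (fun x => (hF.apprSeq n x).coe_nonneg)
    have h2 : ∫ x, (hF.apprSeq n x : ℝ) ∂P ≤ ∫ x, (hF.apprSeq n x : ℝ) ∂β := h1
    rw [← BoundedContinuousFunction.toReal_lintegral_coe_eq_integral, ← BoundedContinuousFunction.toReal_lintegral_coe_eq_integral] at h2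
    have f1 : ∀ (m : Measure X) [IsFiniteMeasure m], ∫⁻ x, (hF.apprSeq n x : ℝ≥0∞) ∂m ≠ ∞ := by
      intro m _
      refine ne_top_of_le_ne_top (measure_ne_top m univ) ?_
      refine (lintegral_mono (g := fun _ => 1) fun x => ?_).trans (le_of_eq (by rw [lintegral_const, one_mul]))
      show ((hF.apprSeq n x : ℝ≥0) : ℝ≥0∞) ≤ 1
      exact_mod_cast HasOuterApproxClosed.apprSeq_apply_le_one hF n x
    exact (ENNReal.toReal_le_toReal (f1 P) (f1 β)).1 h2
  refine Measure.le_iff.2 fun E hE => ?_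
  rw [hE.measure_eq_iSup_isClosed_of_ne_top (measure_ne_top P E)]
  refine iSup₂_le fun F hF => iSup_le fun hc => (key F hc).trans (measure_mono hF)

/-- **the classes of rests are near compact sets** -/
theorem near_rst {P Q : Tp} {W : Wn} (hP : 0 < P.rg) (hQ : 0 < Q.rg) (hD : 0 < W.D0) (ht : 0 < W.t1) {i j : Fin 3}
    {Rs : ℕ → Set W3} (hR : ∀ᶠ N : ℕ in atTop, Rs N ⊆ Rst (ev i) (ev j) P Q W N (uT N)) :
    (∃ C : ℝ≥0, ∀ᶠ N : ℕ in atTop, rm (Bt.cb N) N (uT N) (Rs N) (fun _ => 1) univ ≤ C) ∧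
      ∀ ε : ℝ≥0, 0 < ε → ∃ S : Set Pie, IsCompact S ∧
        ∀ η : ℝ, 0 < η → ∀ᶠ N : ℕ in atTop, rm (Bt.cb N) N (uT N) (Rs N) (fun _ => 1) {x | ∀ y ∈ S, η ≤ dist x y} ≤ ε := by
  obtain ⟨ρ, hρ⟩ : ∃ ρ : ℝ, ρ = min P.rg Q.rg := ⟨_, rfl⟩
  have hρ0 : 0 < ρ := by rw [hρ]; exact lt_min hP hQ
  have hN : Tendsto (fun N : ℕ => (N : ℝ)) atTop atTop := tendsto_natCast_atTop_atTop
  have hR2 : ∀ᶠ N : ℕ in atTop, ∀ R ∈ Rs N, RsC (ev i) (ev j) (ρ * N) (ρ * N) (W.D0 * N) R ∧
      (R.length : ℝ) ≤ W.t1 * (N : ℝ) ^ (4 / 3 : ℝ) := by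
    filter_upwards [hR] with N hN R hRN
    rw [hρ]
    exact ⟨Bt.rst_c (hN hRN) (Nat.cast_nonneg N), (show RsQ _ _ P Q W N _ R from hN hRN).hi⟩
  constructor
  · obtain ⟨C, N0, hC, hN0, hup⟩ := Nm.beta_up ρ W.D0 W.t1 hρ0 hD ht
    refine ⟨(1 * C).toNNReal, ?_⟩
    filter_upwards [hR2, hN.eventually_ge_atTop N0] with N h1 h4
    have h5 : (0 : ℝ) < N := by linarith
    refine (Bt.rm_le (fun _ _ => le_rfl) _).trans ?_
    refine (mul_le_mul' le_rfl ((Bt.ms_subset (fun R hR => hR.1) _).trans (hup (N : ℝ) h4 i j (Rs N) h1))).trans ?_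
    have := Bt.nrm_mul (A := 1) (C := C) zero_le_one h5
    rw [one_mul] at this
    rw [Bt.cb, this]
    exact le_rfl
  · intro ε hε
    obtain ⟨S, hS, hSi, hSη⟩ := Bt.beta_near ρ W.D0 W.t1 1 ε hρ0 hD ht le_rfl (by exact_mod_cast hε)
    refine ⟨S ×ˢ Icc 0 W.t1, hS.prod isCompact_Icc, fun η hη => ?_⟩
    obtain ⟨N1, hN1, h1⟩ := hSη η hη
    filter_upwards [hR2, hN.eventually_ge_atTop N1] with N g1 g4
    have h5 : (0 : ℝ) < N := by linarith
    have h6 : 0 < uT N := by
      unfold uT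
      positivity
    refine (Bt.rm_le (fun _ _ => le_rfl) _).trans ?_
    refine (mul_le_mul' le_rfl (h1 (N : ℝ) g4 (N : ℝ) (by rw [div_one]) (by rw [one_mul]) 1 norm_one i j _
      (fun R hR => g1 R hR.1) fun R hR x hx => ?_)).trans ?_
    · rw [one_smul]
      have h7 := hR.2 (x, (R.length : ℝ) / uT N) ⟨hx, by positivity, by
        rw [div_le_iff₀ h6]
        exact (g1 R hR.1).2⟩
      unfold cr at h7
      rw [Prod.dist_eq] at h7
      simp only [dist_self] at h7
      rwa [max_eq_left dist_nonneg] at h7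
    · have := Bt.nrm_mul (A := 1) (C := ε) zero_le_one h5
      rw [one_mul, one_mul] at this
      rw [Bt.cb, this, ENNReal.ofReal_coe_nnreal]

/-- the data of the limit of marked rests -/
structure MD (U : Ultrafilter ℕ) (c : ℕ → ℝ≥0∞) (s t : ℕ → ℝ) (B M B' Rs : ℕ → Set W3) (κ κ' β : Measure Pie) : Prop where
  hU : (U : Filter ℕ) ≤ atTop
  fκ : IsFiniteMeasure κ
  fκ' : IsFiniteMeasure κ'
  fβ : IsFiniteMeasure β
  mass : ∃ C : ℝ≥0, ∀ᶠ N in atTop, rm (c N) (s N) (t N) (Rs N) (fun _ => 1) univ ≤ C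
  near : ∀ ε : ℝ≥0, 0 < ε → ∃ S : Set Pie, IsCompact S ∧
    ∀ η : ℝ, 0 < η → ∀ᶠ N in atTop, rm (c N) (s N) (t N) (Rs N) (fun _ => 1) {x | ∀ y ∈ S, η ≤ dist x y} ≤ ε
  lβ : ∀ g : Pie →ᵇ ℝ, Tendsto (fun N => ∫ x, g x ∂(rm (c N) (s N) (t N) (Rs N) fun _ => 1)) U (𝓝 (∫ x, g x ∂β))
  lκ : ∀ g : Pie →ᵇ ℝ, Tendsto (fun N => ∫ x, g x ∂(rm 1 (s N) (t N) (B N) fun _ => 1)) U (𝓝 (∫ x, g x ∂κ))
  lκ' : ∀ g : Pie →ᵇ ℝ, Tendsto (fun N => ∫ x, g x ∂(rm 1 (s N) (t N) (B' N) fun _ => 1)) U (𝓝 (∫ x, g x ∂κ'))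
  ev : ∀ᶠ N in atTop, (∀ b ∈ B N, Even b.length) ∧ (∀ m ∈ M N, Even m.length ∧ 1 ≤ m.length) ∧
    (∀ b ∈ B' N, Even b.length) ∧ Un3 (B N) (M N) (B' N) ∧
    ∀ b ∈ B N, ∀ m ∈ M N, ∀ b' ∈ B' N, b ++ (m ++ b'.reverse) ∈ Rs N
  low : ∃ c0 : ℝ, 0 < c0 ∧ ∀ᶠ N in (U : Filter ℕ), ENNReal.ofReal c0 ≤ c N * ms (M N) fun _ => 1
  h0 : κ univ ≠ 0
  h0' : κ' univ ≠ 0

/-- **the limit of the laws of the marked rests**, with the limit of the masses -/
theorem mark_limU {U : Ultrafilter ℕ} {c : ℕ → ℝ≥0∞} {s t : ℕ → ℝ} {B M B' Rs : ℕ → Set W3} {κ κ' β : Measure Pie}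
    (h : MD U c s t B M B' Rs κ κ' β) : ∃ P : Measure MP, IsFiniteMeasure P ∧ P.map Prod.fst ≤ β ∧
      (∃ u : ℝ, 0 < u ∧ Tendsto (fun N => (c N * ms (M N) fun _ => 1).toReal) U (𝓝 u) ∧
        (∀ᶠ N in (U : Filter ℕ), c N * ms (M N) (fun _ => 1) ≠ ∞) ∧ P.map two = ENNReal.ofReal u • κ.prod κ') ∧
      (∀ g : MP →ᵇ ℝ, Tendsto (fun N => ∫ x, g x ∂(mm (c N) (s N) (t N) (B N) (M N) (B' N))) U (𝓝 (∫ x, g x ∂P))) ∧
      ∀ E : Set MP, IsClosed E → (∀ᶠ N in (U : Filter ℕ), ∀ b ∈ B N, ∀ m ∈ M N, ∀ b' ∈ B' N, mk3 (s N) (t N) (b, m, b') ∈ E) →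
        ∀ᵐ y ∂P, y ∈ E := by
  have := h.fκ
  have := h.fκ'
  have := h.fβ
  obtain ⟨C, hC⟩ := h.mass
  obtain ⟨μ, hμ⟩ : ∃ μ : ℕ → Measure MP, μ = fun N => mm (c N) (s N) (t N) (B N) (M N) (B' N) := ⟨_, rfl⟩
  have hle : ∀ᶠ N in atTop, ∀ A : Set Pie, MeasurableSet A → μ N {x | x.1 ∈ A} ≤ rm (c N) (s N) (t N) (Rs N) (fun _ => 1) A := by
    filter_upwards [h.ev] with N hN A hA
    obtain ⟨-, -, -, hU, hR⟩ := hN
    have h1 := mm_fst (c := c N) (s := s N) (t := t N) hU hR (g := A.indicator fun _ => 1) (measurable_const.indicator hA)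
    rw [lintegral_indicator_const hA, one_mul] at h1
    refine le_trans (le_of_eq ?_) h1
    have h2 : MeasurableSet {x : MP | x.1 ∈ A} := measurable_fst hA
    have e : (fun y : MP => A.indicator (fun _ => (1 : ℝ≥0∞)) y.1) = {x : MP | x.1 ∈ A}.indicator fun _ => 1 := by
      funext y
      by_cases hy : y.1 ∈ A
      · rw [indicator_of_mem hy, indicator_of_mem (show y ∈ {x : MP | x.1 ∈ A} from hy)]
      · rw [indicator_of_notMem hy, indicator_of_notMem (show y ∉ {x : MP | x.1 ∈ A} from hy)]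
    rw [e, lintegral_indicator_const h2, one_mul, hμ]
  have hmass : ∀ᶠ N in atTop, μ N univ ≤ C := by
    filter_upwards [hle, hC] with N h1 h2
    exact (h1 univ MeasurableSet.univ).trans h2
  have hmk : ∀ᶠ N in atTop, μ N {x | ¬(x.2.1 ∈ Icc (0 : ℝ) 1 ∧ x.2.2 ∈ Icc (0 : ℝ) 1)} = 0 := by
    filter_upwards [h.ev] with N hN
    rw [hμ]
    refine mm_null fun b hb m hm b' hb' hx => hx ?_
    obtain ⟨a1, a2, a3⟩ := mk3_marks (s := s N) (t := t N) (x := (b, m, b')) (by
      rw [cat_len]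
      have := (hN.2.1 m hm).2
      show 1 ≤ b.length + (m.length + b'.length)
      omega)
    exact ⟨⟨a1, a2.trans a3⟩, ⟨a1.trans a2, a3⟩⟩
  -- the limit
  obtain ⟨P, hP, hl⟩ := Bt.near_lim μ hmass (fun ε hε => by
    obtain ⟨S, hS, hSη⟩ := h.near ε hε
    refine ⟨S ×ˢ (Icc (0 : ℝ) 1 ×ˢ Icc (0 : ℝ) 1), hS.prod (isCompact_Icc.prod isCompact_Icc), fun η hη => ?_⟩
    filter_upwards [hle, hmk, hSη η hη] with N h1 h2 h3
    have h4 : {x : MP | ∀ y ∈ S ×ˢ (Icc (0 : ℝ) 1 ×ˢ Icc (0 : ℝ) 1), η ≤ dist x y} ⊆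
        {x | x.1 ∈ {x : Pie | ∀ y ∈ S, η ≤ dist x y}} ∪ {x | ¬(x.2.1 ∈ Icc (0 : ℝ) 1 ∧ x.2.2 ∈ Icc (0 : ℝ) 1)} := by
      intro x hx
      by_cases hm : x.2.1 ∈ Icc (0 : ℝ) 1 ∧ x.2.2 ∈ Icc (0 : ℝ) 1
      · left
        intro y hy
        have h5 := hx (y, x.2) ⟨hy, hm.1, hm.2⟩
        have h6 : dist x (y, x.2) = dist x.1 y := by
          rw [Prod.dist_eq]
          show max (dist x.1 y) (dist x.2 x.2) = _
          rw [dist_self, max_eq_left dist_nonneg]
        rwa [h6] at h5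
      · right
        exact hm
    refine (measure_mono h4).trans ((measure_union_le _ _).trans ?_)
    rw [h2, add_zero]
    exact (h1 _ (near_closed S η).measurableSet).trans h3) U h.hU
  have hfin : ∀ᶠ N in (U : Filter ℕ), IsFiniteMeasure (μ N) := by
    filter_upwards [h.hU hmass] with N hN
    exact ⟨lt_of_le_of_lt hN ENNReal.coe_lt_top⟩
  have hcU : ∀ᶠ N in (U : Filter ℕ), IsFiniteMeasure (rm (c N) (s N) (t N) (Rs N) fun _ => 1) := by
    filter_upwards [h.hU hC] with N hN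
    exact ⟨lt_of_le_of_lt hN ENNReal.coe_lt_top⟩
  refine ⟨P, hP, ?_, ?_, by rw [hμ] at hl; exact hl, ?_⟩
  · -- the marginal
    have : IsFiniteMeasure (P.map Prod.fst) := by infer_instance
    refine le_of_int fun G hG => ?_
    rw [integral_map measurable_fst.aemeasurable G.continuous.measurable.aestronglyMeasurable]
    refine le_of_tendsto_of_tendsto (hl (G.compContinuous ⟨Prod.fst, continuous_fst⟩)) (h.lβ G) ?_
    filter_upwards [hfin, hcU, h.hU h.ev] with N h1 h2 h3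
    obtain ⟨-, -, -, hUn, hR⟩ := h3
    have h4 := mm_fst (c := c N) (s := s N) (t := t N) hUn hR (g := fun x => ENNReal.ofReal (G x))
      (ENNReal.measurable_ofReal.comp G.continuous.measurable)
    have e1 : ∫ x : MP, G x.1 ∂(μ N) = (∫⁻ x : MP, ENNReal.ofReal (G x.1) ∂(μ N)).toReal :=
      integral_eq_lintegral_of_nonneg_ae (f := fun x : MP => G x.1) (Eventually.of_forall fun x => hG x.1)
        ((G.continuous.measurable.comp measurable_fst).aestronglyMeasurable)
    show ∫ x : MP, G x.1 ∂(μ N) ≤ ∫ x, G x ∂(rm (c N) (s N) (t N) (Rs N) fun _ => 1)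
    rw [e1, integral_eq_lintegral_of_nonneg_ae (Eventually.of_forall hG) G.continuous.measurable.aestronglyMeasurable]
    refine ENNReal.toReal_mono ?_ (by rw [hμ]; exact h4)
    have h5 : ∫⁻ x, ENNReal.ofReal (G x) ∂(rm (c N) (s N) (t N) (Rs N) fun _ => 1) ≤ ∫⁻ _, ENNReal.ofReal ‖G‖ ∂(rm (c N) (s N) (t N) (Rs N) fun _ => 1) :=
      lintegral_mono fun x => ENNReal.ofReal_le_ofReal ((le_abs_self _).trans (G.norm_coe_le_norm x))
    refine ne_top_of_le_ne_top ?_ h5
    rw [lintegral_const]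
    exact ENNReal.mul_ne_top ENNReal.ofReal_ne_top (measure_ne_top _ _)
  · -- the product
    obtain ⟨a, ha⟩ : ∃ a : ℕ → ℝ≥0∞, a = fun N => c N * ms (M N) fun _ => 1 := ⟨_, rfl⟩
    have hk : 0 < κ.real univ := (ENNReal.toReal_pos h.h0 (measure_ne_top _ _))
    have hk' : 0 < κ'.real univ := (ENNReal.toReal_pos h.h0' (measure_ne_top _ _))
    have one_lim : ∀ (m : ℕ → Measure Pie) (κ0 : Measure Pie),
        (∀ g : Pie →ᵇ ℝ, Tendsto (fun N => ∫ x, g x ∂(m N)) U (𝓝 (∫ x, g x ∂κ0))) →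
        Tendsto (fun N => (m N).real univ) U (𝓝 (κ0.real univ)) := by
      intro m κ0 hm
      have h1 := hm (BoundedContinuousFunction.const Pie 1)
      simpa using h1
    have l1 := one_lim _ _ h.lκ
    have l2 := one_lim _ _ h.lκ'
    have hmap : ∀ᶠ N in (U : Filter ℕ), (μ N).map two = a N • (rm 1 (s N) (t N) (B N) fun _ => 1).prod
        (rm 1 (s N) (t N) (B' N) fun _ => 1) := by
      filter_upwards [h.hU h.ev] with N hN
      rw [hμ, ha]
      exact mm_map_two hN.1 hN.2.1 hN.2.2.1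
    have hsf : ∀ N (B : Set W3), SFinite (rm 1 (s N) (t N) B fun _ => 1) := fun N B => by
      unfold rm
      infer_instance
    have hint : ∀ f f' : Pie →ᵇ ℝ, ∀ᶠ N in (U : Filter ℕ), ∫ y, f (two y).1 * f' (two y).2 ∂(μ N) =
        (a N).toReal * ((∫ x, f x ∂(rm 1 (s N) (t N) (B N) fun _ => 1)) * ∫ x, f' x ∂(rm 1 (s N) (t N) (B' N) fun _ => 1)) := by
      intro f f'
      filter_upwards [hmap] with N hN
      have := hsf N (B N)
      have := hsf N (B' N)
      have h1 : ∫ y, f (two y).1 * f' (two y).2 ∂(μ N) = ∫ z, f z.1 * f' z.2 ∂((μ N).map two) := by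
        rw [integral_map two_cont.measurable.aemeasurable]
        exact ((f.continuous.comp continuous_fst).mul (f'.continuous.comp continuous_snd)).measurable.aestronglyMeasurable
      rw [h1, hN, integral_smul_measure, smul_eq_mul, integral_prod_mul]
    have hlint : ∀ f f' : Pie →ᵇ ℝ, Tendsto (fun N => ∫ y, f (two y).1 * f' (two y).2 ∂(μ N)) U
        (𝓝 (∫ y, f (two y).1 * f' (two y).2 ∂P)) := by
      intro f f'
      exact hl ((f.compContinuous ⟨fun y : MP => (two y).1, continuous_fst.comp two_cont⟩) *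
        (f'.compContinuous ⟨fun y : MP => (two y).2, continuous_snd.comp two_cont⟩))
    -- the constants
    have hmul : Tendsto (fun N => (rm 1 (s N) (t N) (B N) fun _ => 1).real univ * (rm 1 (s N) (t N) (B' N) fun _ => 1).real univ) U
        (𝓝 (κ.real univ * κ'.real univ)) := l1.mul l2
    have hkk : 0 < κ.real univ * κ'.real univ := mul_pos hk hk'
    have hPu : Tendsto (fun N => (μ N).real univ) U (𝓝 (P.real univ)) := by
      have h1 := hl (BoundedContinuousFunction.const MP 1)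
      simpa using h1
    have hau : ∀ᶠ N in (U : Filter ℕ), (μ N).real univ = (a N).toReal *
        ((rm 1 (s N) (t N) (B N) fun _ => 1).real univ * (rm 1 (s N) (t N) (B' N) fun _ => 1).real univ) := by
      filter_upwards [hint (BoundedContinuousFunction.const Pie 1) (BoundedContinuousFunction.const Pie 1)] with N hN
      simpa using hN
    have ha_lim : Tendsto (fun N => (a N).toReal) U (𝓝 (P.real univ / (κ.real univ * κ'.real univ))) := by
      refine (hPu.div hmul hkk.ne').congr' ?_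
      filter_upwards [hau, hmul.eventually (lt_mem_nhds hkk)] with N h1 h2
      show (μ N).real univ / ((rm 1 (s N) (t N) (B N) fun _ => 1).real univ *
        (rm 1 (s N) (t N) (B' N) fun _ => 1).real univ) = (a N).toReal
      rw [h1]
      exact mul_div_cancel_right₀ _ h2.ne'
    obtain ⟨u, hu⟩ : ∃ u : ℝ, u = P.real univ / (κ.real univ * κ'.real univ) := ⟨_, rfl⟩
    rw [← hu] at ha_lim
    have htp : ∀ᶠ N in (U : Filter ℕ), a N ≠ ∞ := by
      filter_upwards [hfin, hmap, hmul.eventually (lt_mem_nhds hkk)] with N g2 g3 g4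
      intro htop
      have g6 : (μ N).map two univ = μ N univ := by
        rw [Measure.map_apply two_cont.measurable MeasurableSet.univ, preimage_univ]
      have := hsf N (B' N)
      rw [g3, htop, Measure.smul_apply, smul_eq_mul, ← univ_prod_univ, Measure.prod_prod] at g6
      have g7 : (rm 1 (s N) (t N) (B N) fun _ => 1) univ ≠ 0 := by
        intro h0
        rw [Measure.real, h0, ENNReal.toReal_zero, zero_mul] at g4
        exact lt_irrefl _ g4
      have g8 : (rm 1 (s N) (t N) (B' N) fun _ => 1) univ ≠ 0 := by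
        intro h0
        rw [Measure.real, Measure.real, h0, ENNReal.toReal_zero, mul_zero] at g4
        exact lt_irrefl _ g4
      rw [ENNReal.top_mul (mul_ne_zero g7 g8)] at g6
      exact measure_ne_top (μ N) univ g6.symm
    have hupos : 0 < u := by
      obtain ⟨c0, hc0, hlow⟩ := h.low
      have h1 : ∀ᶠ N in (U : Filter ℕ), c0 ≤ (a N).toReal := by
        filter_upwards [hlow, htp] with N g1 g5
        have g9 : ENNReal.ofReal c0 ≤ a N := by rw [ha]; exact g1
        exact (ENNReal.ofReal_le_iff_le_toReal g5).1 g9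
      have h2 := ge_of_tendsto ha_lim h1
      linarith
    refine ⟨u, hupos, by rw [ha] at ha_lim; exact ha_lim, by rw [ha] at htp; exact htp, ?_⟩
    have : IsFiniteMeasure (P.map two) := by infer_instance
    have : IsFiniteMeasure (ENNReal.ofReal u • κ) := by
      constructor
      rw [Measure.smul_apply, smul_eq_mul]
      exact ENNReal.mul_lt_top ENNReal.ofReal_lt_top (measure_lt_top _ _)
    have h3 : P.map two = (ENNReal.ofReal u • κ).prod κ' := by
      refine Measure.eq_prod_of_integral_mul_boundedContinuousFunction fun f f' => ?_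
      have h4 := hlint f f'
      have h5 : Tendsto (fun N => ∫ y, f (two y).1 * f' (two y).2 ∂(μ N)) U (𝓝 (u * ((∫ x, f x ∂κ) * ∫ x, f' x ∂κ'))) := by
        refine (ha_lim.mul ((h.lκ f).mul (h.lκ' f'))).congr' ?_
        filter_upwards [hint f f'] with N hN
        rw [hN]
      have h6 := tendsto_nhds_unique h4 h5
      rw [integral_map two_cont.measurable.aemeasurable]
      · rw [h6, integral_smul_measure, smul_eq_mul, ENNReal.toReal_ofReal hupos.le]
        ring
      · exact ((f.continuous.comp continuous_fst).mul (f'.continuous.comp continuous_snd)).measurable.aestronglyMeasurable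
    rw [h3, Measure.prod_smul_left]
  · -- closed conditions
    intro E hE hN
    rw [ae_iff]
    have h1 := Bt.lim_open hl hE.isOpen_compl (ε := 0) (by
      filter_upwards [hfin, hN] with N h2 h3
      refine ⟨h2, ?_⟩
      have h4 : mm (c N) (s N) (t N) (B N) (M N) (B' N) Eᶜ = 0 :=
        mm_null fun b hb m hm b' hb' (hx : mk3 (s N) (t N) (b, m, b') ∈ Eᶜ) => hx (h3 b hb m hm b' hb')
      rw [hμ]
      show mm (c N) (s N) (t N) (B N) (M N) (B' N) Eᶜ ≤ _
      rw [h4]
      exact zero_le)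
    exact le_antisymm (h1.trans (le_of_eq ENNReal.coe_zero)) zero_le

/-- **the limit of the laws of the marked rests** -/
theorem mark_lim {U : Ultrafilter ℕ} {c : ℕ → ℝ≥0∞} {s t : ℕ → ℝ} {B M B' Rs : ℕ → Set W3} {κ κ' β : Measure Pie}
    (h : MD U c s t B M B' Rs κ κ' β) : ∃ P : Measure MP, IsFiniteMeasure P ∧ P.map Prod.fst ≤ β ∧
      (∃ u : ℝ, 0 < u ∧ P.map two = ENNReal.ofReal u • κ.prod κ') ∧
      ∀ E : Set MP, IsClosed E → (∀ᶠ N in (U : Filter ℕ), ∀ b ∈ B N, ∀ m ∈ M N, ∀ b' ∈ B' N, mk3 (s N) (t N) (b, m, b') ∈ E) →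
        ∀ᵐ y ∂P, y ∈ E := by
  obtain ⟨P, h1, h2, ⟨u, h3, -, -, h4⟩, -, h5⟩ := mark_limU h
  exact ⟨P, h1, h2, ⟨u, h3, h4⟩, h5⟩

end Pool.Agent.ROT.F3.Mk
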