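import Pool.Agent.ROT.F3C3
import Pool.Agent.ROT.F3Mark
import Pool.Agent.ROT.F3BetaO
import Pool.Agent.ROT.F3LowA

/-!
# ROT / F3Low2 (helper43): the share of the foreign gates in the limit (row LOWLIM)

* `tsum3g`, `mm_low` : the marked rests from below by a product;
* `W0_prod` : the gated sum of the class of the lattice 0 as a product; **`scale_low`** : the inequality of the two gated sums (84's
  `low_ss`) without the tips;
* **`low2_core`** : `p * ∫ ct th (κ0 * r.2) ∂m ≤ ∫ r in D, ct th (κ0 * r.2) ∂m` from the inequality of the gated sums for all `ψ`, `ψ'` near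
  the indicators of `S`, `S'`, the limits of the blocks, and the locality of the foreign gates for the limit of the marked rests.
-/

set_option autoImplicit false

open MeasureTheory Filter Topology Finset
open scoped ENNReal NNReal Classical BoundedContinuousFunction

namespace Pool.Agent.ROT.F3

open Pool.Agent.NTS.Res (size)
open Pool.Agent.ROT.F3E (SG SS ct Gb)
open Pool.Agent.ROT.F3.Mk Pool.Agent.ROT.F3.CC

/-! ### 1. Marked rests from below -/

lemma tsum3g (c : ℝ≥0∞) (B M B' : Set W3) (f1 f2 f3 : W3 → ℝ≥0∞) :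
    ∑' x : W3 × (W3 × W3), w3 c B M B' x * (f1 x.1 * (f2 x.2.1 * f3 x.2.2)) = c * (ms B f1 * (ms M f2 * ms B' f3)) := by
  have h1 : ∀ x : W3 × (W3 × W3), w3 c B M B' x * (f1 x.1 * (f2 x.2.1 * f3 x.2.2)) =
      c * ((if x.1 ∈ B then wx x.1 * f1 x.1 else 0) * ((if x.2.1 ∈ M then wx x.2.1 * f2 x.2.1 else 0) *
        (if x.2.2 ∈ B' then wx x.2.2 * f3 x.2.2 else 0))) := by
    intro x
    unfold w3
    split_ifs <;> ring
  simp only [h1]
  rw [ENNReal.tsum_mul_left, ENNReal.tsum_prod']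
  congr 1
  unfold ms
  rw [← ENNReal.tsum_mul_right]
  refine tsum_congr fun b => ?_
  rw [ENNReal.tsum_prod']
  dsimp only
  rw [← ENNReal.tsum_mul_right, ← ENNReal.tsum_mul_left]
  refine tsum_congr fun m => ?_
  rw [← ENNReal.tsum_mul_left, ← ENNReal.tsum_mul_left]

/-- the marked rests from below -/
theorem mm_low {c : ℝ≥0∞} {s t : ℝ} {B M B' : Set W3} {g : MP → ℝ≥0∞} (hg : Measurable g) {f1 f2 f3 : W3 → ℝ≥0∞}
    (h : ∀ b ∈ B, ∀ m ∈ M, ∀ b' ∈ B', f1 b * (f2 m * f3 b') ≤ g (mk3 s t (b, (m, b')))) :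
    c * (ms B f1 * (ms M f2 * ms B' f3)) ≤ ∫⁻ y, g y ∂(mm c s t B M B') := by
  rw [mm_lint c s t B M B' hg, ← tsum3g]
  refine ENNReal.tsum_le_tsum fun x => ?_
  by_cases hx : w3 c B M B' x = 0
  · rw [hx, zero_mul, zero_mul]
  · obtain ⟨a1, a2, a3⟩ := w3_ne hx
    exact mul_le_mul_right (h _ a1 _ a2 _ a3) _

/-! ### 2. The gated sums without the tips -/

namespace Prm

variable {P : Prm} {O O' : Ot} {Y Y' : Tp} {W : Wn}

/-- the gated sum of the class of the lattice 0 -/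
theorem W0_prod (h : P.Ok) (N M : ℕ) (th : ℝ) :
    ENNReal.ofReal (SS ((P.W0 h N).G M fun _ => 1) M th fun _ => 1) =
      ms (P.T0p N) (fun _ => 1) * (ms (P.R0 0 P.W N) (fun R => ENNReal.ofReal (ct th ((R.length : ℝ) / M))) *
        ms (P.T0q N) fun _ => 1) := by
  obtain ⟨C, hC⟩ : ∃ C : WCls, C = P.W0 h N := ⟨_, rfl⟩
  have e0 := SG_prod C.cl C.nf C.nw C.nf' (ψ := fun _ => 1) (fun _ => zero_le_one) M (H := fun _ t => ct th t)
    fun _ _ => F3E.ct_nonneg _ _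
  have e1 := tsum_SG C.cl C.nf C.nw C.nf' (ψ := fun _ => 1) (fun _ => zero_le_one) (C := 1) measurable_const (fun _ => le_rfl)
    C.fT C.fR C.fT' M (c := 1) one_ne_zero ENNReal.one_ne_top (H := fun _ t => ct th t) (fun _ _ => F3E.ct_nonneg _ _)
    (fun _ _ => (F3E.ct_le_one _ _).trans one_le_two) ((ct_cont th).measurable.comp measurable_snd)
  have hn := SG_nonneg (T := C.T) (Rs := C.Rs) (T' := C.T') C.nf C.nw C.nf' (ψ := fun _ => 1) (fun _ => zero_le_one) M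
    (H := fun _ t => ct th t) fun _ _ => F3E.ct_nonneg _ _
  have e2 : SS (C.G M fun _ => 1) M th (fun _ => 1) =
      ∑' n, SG (gG C.T C.Rs C.T' C.f (fun R => C.w R * (fun _ => (1 : ℝ)) (cr (size M) M R)) C.f') M (fun _ t => ct th t) n := by
    unfold SS WCls.G
    simp only [one_mul]
  rw [← hC, e2, ENNReal.ofReal_tsum_of_nonneg hn e1.1, e0, hC]
  show ms (P.T0p N) (fun _ => ENNReal.ofReal 1) * (ms (P.R0 0 P.W N) _ * ms (P.T0q N) fun _ => ENNReal.ofReal 1) = _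
  rw [ENNReal.ofReal_one]
  congr 2
  unfold ms
  refine tsum_congr fun R => ?_
  have : (cr (size M) M R).2 = (R.length : ℝ) / M := rfl
  split_ifs
  · congr 1
    show ENNReal.ofReal (1 * 1 * ct th ((R.length : ℝ) / M)) = _
    rw [one_mul, one_mul]
  · rfl

/-- **the inequality of the gated sums without the tips** -/
theorem scale_low (hP : P.Ok) (h : C3Ok P O O' Y Y' W) {ψ ψ' : W3 → ℝ} (hψ : ∀ b, 0 ≤ ψ b) (hψ' : ∀ b, 0 ≤ ψ' b) {N M : ℕ}
    {p t1 t2 : ℝ} (hp : 0 ≤ p)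
    (hlow : p * SS ((P.W0 hP N).G M fun _ => 1) M t1 (fun _ => 1) ≤ SS ((P.C3 h hψ hψ' N).G M fun _ => 1) M t2 fun _ => 1)
    (hpos : 0 < SS ((P.C3 h hψ hψ' N).G M fun _ => 1) M t2 fun _ => 1) :
    ENNReal.ofReal p * ms (P.R0 0 P.W N) (fun R => ENNReal.ofReal (ct t1 ((R.length : ℝ) / M))) ≤
      ms (OtB (ev 0) O N (uT N)) (fun b => ENNReal.ofReal (ψ b)) *
        (ms (Rs3 Y Y' W N) (fun R => ENNReal.ofReal (ct t2 ((R.length : ℝ) / M))) *
          ms (OtB (ev 0) O' N (uT N)) fun b => ENNReal.ofReal (ψ' b)) := by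
  have h1 := ENNReal.ofReal_le_ofReal hlow
  have h2 : ENNReal.ofReal (SS ((P.C3 h hψ hψ' N).G M fun _ => 1) M t2 fun _ => 1) ≠ 0 := (ENNReal.ofReal_pos.2 hpos).ne'
  rw [ENNReal.ofReal_mul hp, W0_prod, C3_prod] at h1
  rw [C3_prod] at h2
  obtain ⟨α, hα⟩ : ∃ α, α = ms (P.T0p N) fun _ => 1 := ⟨_, rfl⟩
  obtain ⟨α', hα'⟩ : ∃ α', α' = ms (P.T0q N) fun _ => 1 := ⟨_, rfl⟩
  have a1 : α ≠ ∞ := by
    rw [hα]
    exact Pre_fin fun _ => ENNReal.one_ne_top
  have a2 : α' ≠ ∞ := by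
    rw [hα']
    exact Pre_fin fun _ => ENNReal.one_ne_top
  rw [← hα, ← hα'] at h1 h2
  have a3 : α ≠ 0 := by
    rintro rfl
    rw [zero_mul, zero_mul] at h2
    exact h2 rfl
  have a4 : α' ≠ 0 := by
    rintro rfl
    rw [zero_mul, mul_zero, mul_zero] at h2
    exact h2 rfl
  have h3 : (α * α') * (ENNReal.ofReal p * ms (P.R0 0 P.W N) (fun R => ENNReal.ofReal (ct t1 ((R.length : ℝ) / M)))) ≤
      (α * α') * (ms (OtB (ev 0) O N (uT N)) (fun b => ENNReal.ofReal (ψ b)) *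
        (ms (Rs3 Y Y' W N) (fun R => ENNReal.ofReal (ct t2 ((R.length : ℝ) / M))) *
          ms (OtB (ev 0) O' N (uT N)) fun b => ENNReal.ofReal (ψ' b))) := by
    refine le_trans (le_of_eq ?_) (h1.trans (le_of_eq ?_)) <;> ring
  exact (ENNReal.mul_le_mul_iff_right (mul_ne_zero a3 a4) (ENNReal.mul_ne_top a1 a2)).1 h3

end Prm

/-! ### 3. Two cutoffs -/

lemma ct_le_of {th th' T T' : ℝ} (hth : 0 < th) (hth' : 0 < th') (h : |T - 1| < th → |T' - 1| ≤ th' / 2) : ct th T ≤ ct th' T' := by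
  by_cases h1 : |T - 1| < th
  · rw [F3E.ct_one hth' (h h1)]
    exact F3E.ct_le_one _ _
  · rw [F3E.ct_zero hth (not_lt.1 h1)]
    exact F3E.ct_nonneg _ _

/-- the cutoff in the limit as a bounded continuous function -/
noncomputable def ctB (th κ0 : ℝ) : Pie →ᵇ ℝ :=
  BoundedContinuousFunction.ofNormedAddCommGroup (fun r : Pie => ct th (κ0 * r.2))
    ((ct_cont th).comp (continuous_const.mul continuous_snd)) 1 fun r => by
      rw [Real.norm_eq_abs, abs_of_nonneg (F3E.ct_nonneg _ _)]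
      exact F3E.ct_le_one _ _

lemma ctB_apply (th κ0 : ℝ) (r : Pie) : ctB th κ0 r = ct th (κ0 * r.2) := rfl

section scale

variable {P : Prm} {O O' : Ot} {Y Y' : Tp} {W : Wn}

/-- **the inequality at one scale** -/
theorem scale_int (hP : P.Ok) (h : C3Ok P O O' Y Y' W) {ψ ψ' : Pie →ᵇ ℝ} (h0 : ∀ x, 0 ≤ ψ x) (h0' : ∀ x, 0 ≤ ψ' x) {n M : ℕ}
    (hM : 0 < M) (hn : 0 < n) {p th κ0 : ℝ} (hp : 0 ≤ p) (hth : 0 < th) (hκ0 : 0 < κ0) (hO : κ0 * (O.lb + O'.lb) ≤ th / 8)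
    (hu : (P.wd P.W).t1 * |κ0 - uT M / n| ≤ th / 8)
    (hlow : p * SS ((P.W0 hP M).G n fun _ => 1) n (3 * th) (fun _ => 1) ≤
      SS ((P.C3 h (fun b => h0 (cr M (uT M) b)) (fun b => h0' (cr M (uT M) b)) M).G n fun _ => 1) n (th / 4) fun _ => 1)
    (hpos : 0 < SS ((P.C3 h (fun b => h0 (cr M (uT M) b)) (fun b => h0' (cr M (uT M) b)) M).G n fun _ => 1) n (th / 4) fun _ => 1) :
    ENNReal.ofReal p * ∫⁻ r, ENNReal.ofReal (ctB th κ0 r) ∂(rm (Bt.cb M) M (uT M) (P.R0 0 P.W M) fun _ => 1) ≤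
      Bt.cb M * (ms (OtB (ev 0) O M (uT M)) (fun b => ENNReal.ofReal (ψ (cr M (uT M) b))) *
        (ms (Prm.Rs3 Y Y' W M) (fun R => ENNReal.ofReal (ct (th / 4) ((R.length : ℝ) / n))) *
          ms (OtB (ev 0) O' M (uT M)) fun b => ENNReal.ofReal (ψ' (cr M (uT M) b)))) ∧
    ENNReal.ofReal p * ∫⁻ r, ENNReal.ofReal (ctB th κ0 r) ∂(rm (Bt.cb M) M (uT M) (P.R0 0 P.W M) fun _ => 1) ≤
      ∫⁻ z, ENNReal.ofReal (ψ (two z).1 * ψ' (two z).2 * ctB th κ0 z.1)
        ∂(mm (Bt.cb M) M (uT M) (OtB (ev 0) O M (uT M)) (Prm.Rs3 Y Y' W M) (OtB (ev 0) O' M (uT M))) := by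
  have hM0 : (0 : ℝ) < M := by exact_mod_cast hM
  have hn0 : (0 : ℝ) < n := by exact_mod_cast hn
  have hT : 0 < uT M := by
    unfold uT
    positivity
  have unit : ∀ L : ℝ, 0 ≤ L → L ≤ (P.wd P.W).t1 * uT M → |κ0 * (L / uT M) - L / n| ≤ th / 8 := by
    intro L hL hL1
    have e : κ0 * (L / uT M) - L / n = L / uT M * (κ0 - uT M / n) := by
      field_simp
    rw [e, abs_mul, abs_of_nonneg (by positivity)]
    refine le_trans (mul_le_mul_of_nonneg_right ?_ (abs_nonneg _)) hu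
    rwa [div_le_iff₀ hT]
  have key := Prm.scale_low hP h (fun b => h0 (cr M (uT M) b)) (fun b => h0' (cr M (uT M) b)) hp hlow hpos
  have first : ENNReal.ofReal p * ∫⁻ r, ENNReal.ofReal (ctB th κ0 r) ∂(rm (Bt.cb M) M (uT M) (P.R0 0 P.W M) fun _ => 1) ≤
      Bt.cb M * (ms (OtB (ev 0) O M (uT M)) (fun b => ENNReal.ofReal (ψ (cr M (uT M) b))) *
        (ms (Prm.Rs3 Y Y' W M) (fun R => ENNReal.ofReal (ct (th / 4) ((R.length : ℝ) / n))) *
          ms (OtB (ev 0) O' M (uT M)) fun b => ENNReal.ofReal (ψ' (cr M (uT M) b)))) := by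
    rw [rm_lint _ _ _ _ (g := fun r => ENNReal.ofReal (ctB th κ0 r))
      (ENNReal.measurable_ofReal.comp (ctB th κ0).continuous.measurable), mul_left_comm]
    refine mul_le_mul_right (le_trans (mul_le_mul_right ?_ _) key) _
    unfold ms
    refine ENNReal.tsum_le_tsum fun R => ?_
    split_ifs with hR
    · refine mul_le_mul_right ?_ _
      rw [ENNReal.ofReal_one]
      show 1 * ENNReal.ofReal (ct th (κ0 * ((R.length : ℝ) / uT M))) ≤ _
      rw [one_mul]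
      refine ENNReal.ofReal_le_ofReal (ct_le_of hth (by positivity) fun h1 => ?_)
      have hR' : R ∈ Rst (ev 0) (ev (-0)) P.p.n P.q.n (P.wd P.W) M (uT M) := hR
      have h2 := unit R.length (Nat.cast_nonneg _) hR'.hi
      rw [abs_le] at h2 ⊢
      rw [abs_lt] at h1
      constructor <;> linarith [h1.1, h1.2, h2.1, h2.2]
    · exact le_rfl
  refine ⟨first, first.trans ?_⟩
  refine mm_low ?_ fun b hb R hR b' hb' => ?_
  · exact ENNReal.measurable_ofReal.comp (((ψ.continuous.comp (continuous_fst.comp two_cont)).mul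
      (ψ'.continuous.comp (continuous_snd.comp two_cont))).mul ((ctB th κ0).continuous.comp continuous_fst)).measurable
  · have l1 : 0 < b.length := hb.k.t.pos
    have e3 := two_mk3 (s := (M : ℝ)) (t := uT M) (x := (b, (R, b'))) hb.k.t.ev hR.ev hb'.k.t.ev
      (by rw [cat_len]; show 1 ≤ b.length + (R.length + b'.length); omega)
    rw [e3]
    show ENNReal.ofReal (ψ (cr M (uT M) b)) * (ENNReal.ofReal (ct (th / 4) ((R.length : ℝ) / n)) *
      ENNReal.ofReal (ψ' (cr M (uT M) b'))) ≤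
      ENNReal.ofReal (ψ (cr M (uT M) b) * ψ' (cr M (uT M) b') * ct th (κ0 * ((cat (b, (R, b'))).length / uT M)))
    rw [← ENNReal.ofReal_mul (F3E.ct_nonneg _ _), ← ENNReal.ofReal_mul (h0 _)]
    refine ENNReal.ofReal_le_ofReal ?_
    have hc : ct (th / 4) ((R.length : ℝ) / n) ≤ ct th (κ0 * ((cat (b, (R, b'))).length / uT M)) := by
      refine ct_le_of (by positivity) hth fun h1 => ?_
      have g1 : (R.length : ℝ) ≤ (P.wd P.W).t1 * uT M := by
        have a1 := hR.hi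
        have a2 := h.t1
        have a3 : (0 : ℝ) ≤ O.lb := by
          have := hb.lb
          by_contra hc
          push Not at hc
          have := mul_neg_of_neg_of_pos hc hT
          have : (0 : ℝ) ≤ b.length := Nat.cast_nonneg _
          linarith
        have a4 : (0 : ℝ) ≤ O'.lb := by
          have := hb'.lb
          by_contra hc
          push Not at hc
          have := mul_neg_of_neg_of_pos hc hT
          have : (0 : ℝ) ≤ b'.length := Nat.cast_nonneg _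
          linarith
        exact a1.trans (mul_le_mul_of_nonneg_right (by linarith) hT.le)
      have h2 := unit R.length (Nat.cast_nonneg _) g1
      have e4 : κ0 * (((cat (b, (R, b'))).length : ℝ) / uT M) = κ0 * ((R.length : ℝ) / uT M) +
          κ0 * (((b.length : ℝ) + b'.length) / uT M) := by
        rw [cat_len]
        push_cast
        ring
      have h3 : κ0 * (((b.length : ℝ) + b'.length) / uT M) ≤ th / 8 := by
        refine le_trans (mul_le_mul_of_nonneg_left ?_ hκ0.le) hO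
        rw [div_le_iff₀ hT, add_mul]
        exact add_le_add hb.lb hb'.lb
      have h4 : 0 ≤ κ0 * (((b.length : ℝ) + b'.length) / uT M) := by positivity
      rw [e4]
      rw [abs_le] at h2 ⊢
      rw [abs_lt] at h1
      constructor <;> linarith [h1.1, h1.2, h2.1, h2.2]
    have h5 : 0 ≤ ψ (cr M (uT M) b) * ψ' (cr M (uT M) b') := mul_nonneg (h0 _) (h0' _)
    calc ψ (cr M (uT M) b) * (ct (th / 4) ((R.length : ℝ) / n) * ψ' (cr M (uT M) b')) =
          ψ (cr M (uT M) b) * ψ' (cr M (uT M) b') * ct (th / 4) ((R.length : ℝ) / n) := by ring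
      _ ≤ _ := mul_le_mul_of_nonneg_left hc h5

/-- the mass of the marked rests is finite -/
lemma mm_fin (h : C3Ok P O O' Y Y' W) (M : ℕ) :
    IsFiniteMeasure (mm (Bt.cb M) M (uT M) (OtB (ev 0) O M (uT M)) (Prm.Rs3 Y Y' W M) (OtB (ev 0) O' M (uT M))) := by
  constructor
  have h1 := mm_fst (c := Bt.cb M) (s := (M : ℝ)) (t := uT M) (B := OtB (ev 0) O M (uT M)) (M := Prm.Rs3 Y Y' W M)
    (B' := OtB (ev 0) O' M (uT M)) (Rs := P.R0 0 P.W M)
    (fun b hb U hU b' hb' c hc V hV c' hc' he => Prm.b3_inj h hb hU hb' hc hV hc' he)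
    (fun b hb U hU b' hb' => Prm.b3_mem h hb hU hb') (g := fun _ => 1) measurable_const
  rw [lintegral_one, lintegral_one] at h1
  refine lt_of_le_of_lt h1 ?_
  have h2 := rm_lint (Bt.cb M) M (uT M) (P.R0 0 P.W M) (w := fun _ => 1) (g := fun _ => 1) measurable_const
  rw [lintegral_one] at h2
  rw [h2]
  exact ENNReal.mul_lt_top (Bt.cb_top M).lt_top (Rst_fin fun _ => ENNReal.mul_ne_top ENNReal.ofReal_ne_top ENNReal.one_ne_top).lt_top

end scale

/-! ### 4. The limit -/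

section lim

variable {P : Prm} {O O' : Ot} {Y Y' : Tp} {W : Wn}

/-- **the share of the foreign gates in the limit** -/
theorem low2_core {U : Ultrafilter ℕ} (hU : (U : Filter ℕ) ≤ atTop) {Nu : ℕ → ℕ} (hNu : Tendsto Nu atTop atTop) (hP : P.Ok)
    (h : C3Ok P O O' Y Y' W) {th κ0 p η : ℝ} (hth : 0 < th) (hκ0 : 0 < κ0)
    (hκ : Tendsto (fun n : ℕ => uT (Nu n) / n) (U : Filter ℕ) (𝓝 κ0)) (hp : 0 < p) (hη : 0 < η)
    (hO : κ0 * (O.lb + O'.lb) ≤ th / 8) (hOm : 0 < O.m) (hOm' : 0 < O'.m) (hD : 0 < W.D0)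
    {m k k' μ μ' : Measure Pie} [IsFiniteMeasure m] [IsFiniteMeasure k] [IsFiniteMeasure k'] [IsFiniteMeasure μ] [IsFiniteMeasure μ']
    (hm : ∀ g : Pie →ᵇ ℝ, Tendsto (fun M : ℕ => ∫ x, g x ∂(rm (Bt.cb M) M (uT M) (P.R0 0 P.W M) fun _ => 1))
      (U.map Nu : Ultrafilter ℕ) (𝓝 (∫ x, g x ∂m)))
    (hk : ∀ g : Pie →ᵇ ℝ, Tendsto (fun M : ℕ => ∫ x, g x ∂(rm 1 M (uT M) (OtB (ev 0) O M (uT M)) fun _ => 1))
      (U.map Nu : Ultrafilter ℕ) (𝓝 (∫ x, g x ∂k)))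
    (hk' : ∀ g : Pie →ᵇ ℝ, Tendsto (fun M : ℕ => ∫ x, g x ∂(rm 1 M (uT M) (OtB (ev 0) O' M (uT M)) fun _ => 1))
      (U.map Nu : Ultrafilter ℕ) (𝓝 (∫ x, g x ∂k')))
    (hk0 : k Set.univ ≠ 0) (hk0' : k' Set.univ ≠ 0) (hkμ : k ≤ μ) (hkμ' : k' ≤ μ') {S S' D : Set Pie} (mS : MeasurableSet S)
    (mS' : MeasurableSet S') (mD : MeasurableSet D)
    (low : ∀ (ψ ψ' : Pie →ᵇ ℝ) (h0 : ∀ x, 0 ≤ ψ x) (h0' : ∀ x, 0 ≤ ψ' x), (∀ x, ψ x ≤ 1) → (∀ x, ψ' x ≤ 1) →
      ∫ x, |ψ x - S.indicator (fun _ => (1 : ℝ)) x| ∂μ ≤ η → ∫ x, |ψ' x - S'.indicator (fun _ => (1 : ℝ)) x| ∂μ' ≤ η →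
        ∀ᶠ n : ℕ in (U : Filter ℕ), p * SS ((P.W0 hP (Nu n)).G n fun _ => 1) n (3 * th) (fun _ => 1) ≤
            SS ((P.C3 h (fun b => h0 (cr (Nu n) (uT (Nu n)) b)) (fun b => h0' (cr (Nu n) (uT (Nu n)) b)) (Nu n)).G n fun _ => 1)
              n (th / 4) (fun _ => 1) ∧
          0 < SS ((P.C3 h (fun b => h0 (cr (Nu n) (uT (Nu n)) b)) (fun b => h0' (cr (Nu n) (uT (Nu n)) b)) (Nu n)).G n fun _ => 1)
              n (th / 4) fun _ => 1)
    (loc : ∀ (P0 : Measure MP), IsFiniteMeasure P0 → P0.map Prod.fst ≤ m →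
      (∃ u : ℝ, 0 < u ∧ P0.map two = ENNReal.ofReal u • k.prod k') →
      (∀ g : MP →ᵇ ℝ, Tendsto (fun M : ℕ => ∫ x, g x ∂(mm (Bt.cb M) M (uT M) (OtB (ev 0) O M (uT M)) (Prm.Rs3 Y Y' W M)
        (OtB (ev 0) O' M (uT M)))) (U.map Nu : Ultrafilter ℕ) (𝓝 (∫ x, g x ∂P0))) →
      (∀ E : Set MP, IsClosed E → (∀ᶠ M : ℕ in (U.map Nu : Ultrafilter ℕ), ∀ b ∈ OtB (ev 0) O M (uT M), ∀ R ∈ Prm.Rs3 Y Y' W M,
        ∀ b' ∈ OtB (ev 0) O' M (uT M), mk3 M (uT M) (b, R, b') ∈ E) → ∀ᵐ y ∂P0, y ∈ E) →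
      ∀ᵐ z ∂P0, (two z).1 ∈ S → (two z).2 ∈ S' → z.1 ∈ D) :
    p * ∫ r, ct th (κ0 * r.2) ∂m ≤ ∫ r in D, ct th (κ0 * r.2) ∂m := by
  obtain ⟨V, hVd⟩ : ∃ V : Ultrafilter ℕ, V = U.map Nu := ⟨_, rfl⟩
  have hV : (V : Filter ℕ) ≤ atTop := by
    rw [hVd]
    exact (Filter.map_mono hU).trans hNu
  have toU : ∀ {p : ℕ → Prop}, (∀ᶠ M in (V : Filter ℕ), p M) ↔ ∀ᶠ n in (U : Filter ℕ), p (Nu n) := by
    intro p
    rw [hVd]
    exact Filter.eventually_map
  have tU : ∀ {f : ℕ → ℝ} {a : ℝ}, Tendsto f (V : Filter ℕ) (𝓝 a) → Tendsto (fun n => f (Nu n)) (U : Filter ℕ) (𝓝 a) := by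
    intro f a hf
    rw [hVd] at hf
    exact Filter.tendsto_map'_iff.1 hf
  rw [← hVd] at hm hk hk' loc
  -- trivial case
  obtain ⟨I, hI⟩ : ∃ I : ℝ, I = ∫ r, ctB th κ0 r ∂m := ⟨_, rfl⟩
  have hR0 : 0 ≤ ∫ r in D, ct th (κ0 * r.2) ∂m := integral_nonneg fun _ => F3E.ct_nonneg _ _
  rcases le_or_gt I 0 with hI0 | hI0
  · refine le_trans ?_ hR0
    have : ∫ r, ct th (κ0 * r.2) ∂m = I := hI.symm
    rw [this]
    exact mul_nonpos_of_nonneg_of_nonpos hp.le hI0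
  -- the numbers
  have hn1 : ∀ᶠ n : ℕ in (U : Filter ℕ), 0 < n ∧ 0 < Nu n := by
    filter_upwards [hU (eventually_gt_atTop 0), hU (hNu.eventually (eventually_gt_atTop 0))] with n h1 h2
    exact ⟨h1, h2⟩
  have hu : ∀ᶠ n : ℕ in (U : Filter ℕ), (P.wd P.W).t1 * |κ0 - uT (Nu n) / n| ≤ th / 8 := by
    have h1 : Tendsto (fun n : ℕ => (P.wd P.W).t1 * |κ0 - uT (Nu n) / n|) (U : Filter ℕ) (𝓝 0) := by
      have h2 := ((tendsto_const_nhds (x := κ0)).sub hκ).abs.const_mul (P.wd P.W).t1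
      rwa [sub_self, abs_zero, mul_zero] at h2
    exact h1.eventually_le_const (by positivity)
  -- one pair of weights
  have sc : ∀ (ψ ψ' : Pie →ᵇ ℝ) (h0 : ∀ x, 0 ≤ ψ x) (h0' : ∀ x, 0 ≤ ψ' x), (∀ x, ψ x ≤ 1) → (∀ x, ψ' x ≤ 1) →
      ∫ x, |ψ x - S.indicator (fun _ => (1 : ℝ)) x| ∂μ ≤ η → ∫ x, |ψ' x - S'.indicator (fun _ => (1 : ℝ)) x| ∂μ' ≤ η →
        ∀ᶠ n : ℕ in (U : Filter ℕ),
          ENNReal.ofReal p * ∫⁻ r, ENNReal.ofReal (ctB th κ0 r)
              ∂(rm (Bt.cb (Nu n)) (Nu n) (uT (Nu n)) (P.R0 0 P.W (Nu n)) fun _ => 1) ≤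
            Bt.cb (Nu n) * (ms (OtB (ev 0) O (Nu n) (uT (Nu n))) (fun b => ENNReal.ofReal (ψ (cr (Nu n) (uT (Nu n)) b))) *
              (ms (Prm.Rs3 Y Y' W (Nu n)) (fun R => ENNReal.ofReal (ct (th / 4) ((R.length : ℝ) / n))) *
                ms (OtB (ev 0) O' (Nu n) (uT (Nu n))) fun b => ENNReal.ofReal (ψ' (cr (Nu n) (uT (Nu n)) b)))) ∧
          ENNReal.ofReal p * ∫⁻ r, ENNReal.ofReal (ctB th κ0 r)
              ∂(rm (Bt.cb (Nu n)) (Nu n) (uT (Nu n)) (P.R0 0 P.W (Nu n)) fun _ => 1) ≤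
            ∫⁻ z, ENNReal.ofReal (ψ (two z).1 * ψ' (two z).2 * ctB th κ0 z.1)
              ∂(mm (Bt.cb (Nu n)) (Nu n) (uT (Nu n)) (OtB (ev 0) O (Nu n) (uT (Nu n))) (Prm.Rs3 Y Y' W (Nu n))
                (OtB (ev 0) O' (Nu n) (uT (Nu n)))) := by
    intro ψ ψ' h0 h0' h1 h1' h2 h2'
    filter_upwards [low ψ ψ' h0 h0' h1 h1' h2 h2', hn1, hu] with n g1 g2 g3
    exact scale_int hP h h0 h0' g2.2 g2.1 hp.le hth hκ0 hO g3 g1.1 g1.2
  -- integrals of the rests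
  have finR : ∀ M : ℕ, IsFiniteMeasure (rm (Bt.cb M) M (uT M) (P.R0 0 P.W M) fun _ => 1) := by
    intro M
    constructor
    have h2 := rm_lint (Bt.cb M) M (uT M) (P.R0 0 P.W M) (w := fun _ => 1) (g := fun _ => 1) measurable_const
    rw [lintegral_one] at h2
    rw [h2]
    exact ENNReal.mul_lt_top (Bt.cb_top M).lt_top
      (Rst_fin fun _ => ENNReal.mul_ne_top ENNReal.ofReal_ne_top ENNReal.one_ne_top).lt_top
  have intR : ∀ M : ℕ, ∫⁻ r, ENNReal.ofReal (ctB th κ0 r) ∂(rm (Bt.cb M) M (uT M) (P.R0 0 P.W M) fun _ => 1) =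
      ENNReal.ofReal (∫ r, ctB th κ0 r ∂(rm (Bt.cb M) M (uT M) (P.R0 0 P.W M) fun _ => 1)) := by
    intro M
    have := finR M
    rw [ofReal_integral_eq_lintegral_ofReal ((ctB th κ0).integrable _) (Eventually.of_forall fun r => F3E.ct_nonneg _ _)]
  have limI : ∀ᶠ n : ℕ in (U : Filter ℕ), I / 2 ≤
      ∫ r, ctB th κ0 r ∂(rm (Bt.cb (Nu n)) (Nu n) (uT (Nu n)) (P.R0 0 P.W (Nu n)) fun _ => 1) := by
    have h1 := tU (hm (ctB th κ0))
    rw [← hI] at h1
    exact h1.eventually_const_le (by linarith)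
  -- the data of the marked rests
  have md : MD V Bt.cb (fun M => (M : ℝ)) uT (fun M => OtB (ev 0) O M (uT M)) (fun M => Prm.Rs3 Y Y' W M)
      (fun M => OtB (ev 0) O' M (uT M)) (fun M => P.R0 0 P.W M) k k' m := by
    have k1 : 0 < (P.wd P.W).D0 := by
      have h1 := hP.far
      have h2 := hP.p.f.r
      have h3 := hP.p.f.r2
      have h4 := hP.q.f.r
      have h5 := hP.q.f.r2
      show 0 < P.W.D0 - (P.p.k + P.q.k)
      linarith
    have k2 : 0 < (P.wd P.W).t1 := by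
      show 0 < P.W.t1 + (P.p.lk + P.q.lk)
      linarith [hP.t0, hP.t1, hP.p.lk, hP.q.lk]
    have g1 : ∀ {T : Tp}, T.Ok → 0 < T.rg := fun {T} hT => by linarith [hT.rg, hT.r, hT.r2]
    obtain ⟨r1, r2⟩ := near_rst (P := P.p.n) (Q := P.q.n) (W := P.wd P.W) (g1 hP.p.n) (g1 hP.q.n) k1 k2 (i := 0) (j := -0)
      (Rs := fun N => P.R0 0 P.W N) (Eventually.of_forall fun N R hR => hR)
    refine ⟨hV, inferInstance, inferInstance, inferInstance, r1, r2, hm, hk, hk', ?_, ?_, hk0, hk0'⟩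
    · filter_upwards [eventually_gt_atTop 0] with M hM
      refine ⟨fun b hb => hb.k.t.ev, fun R hR => ⟨hR.ev, ?_⟩, fun b hb => hb.k.t.ev,
        fun b hb U hU b' hb' c hc V hV c' hc' he => Prm.b3_inj h hb hU hb' hc hV hc' he,
        fun b hb U hU b' hb' => Prm.b3_mem h hb hU hb'⟩
      have hM0 : (0 : ℝ) < M := by exact_mod_cast hM
      rcases Nat.eq_zero_or_pos R.length with h0 | h0
      · have h1 := hR.far
        have h2 : en R = 0 := by
          unfold en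
          rw [h0]
          exact ps_zero _
        rw [h2, norm_zero] at h1
        have h3 := mul_pos hD hM0
        linarith
      · exact h0
    · obtain ⟨ψ, a0, a1, a2⟩ := LA.ap_ind μ mS hη
      obtain ⟨ψ', a0', a1', a2'⟩ := LA.ap_ind μ' mS' hη
      refine ⟨p * (I / 2), by positivity, toU.2 ?_⟩
      filter_upwards [sc ψ ψ' a0 a0' a1 a1' a2 a2', limI, hn1] with n g1 g2 g3
      have g4 := g1.1
      rw [intR, ← ENNReal.ofReal_mul hp.le] at g4
      refine (ENNReal.ofReal_le_ofReal (mul_le_mul_of_nonneg_left g2 hp.le)).trans (g4.trans ?_)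
      have hS : (0 : ℝ) < Nu n := by exact_mod_cast g3.2
      have b1 : ms (OtB (ev 0) O (Nu n) (uT (Nu n))) (fun b => ENNReal.ofReal (ψ (cr (Nu n) (uT (Nu n)) b))) ≤ 1 := by
        refine le_trans ?_ (Bt.ot_le 0 (uT (Nu n)) hOm hS)
        unfold ms
        refine ENNReal.tsum_le_tsum fun b => ?_
        split_ifs
        · exact mul_le_mul_right (ENNReal.ofReal_le_one.2 (a1 _)) _
        · exact le_rfl
      have b2 : ms (OtB (ev 0) O' (Nu n) (uT (Nu n))) (fun b => ENNReal.ofReal (ψ' (cr (Nu n) (uT (Nu n)) b))) ≤ 1 := by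
        refine le_trans ?_ (Bt.ot_le 0 (uT (Nu n)) hOm' hS)
        unfold ms
        refine ENNReal.tsum_le_tsum fun b => ?_
        split_ifs
        · exact mul_le_mul_right (ENNReal.ofReal_le_one.2 (a1' _)) _
        · exact le_rfl
      have b3 : ms (Prm.Rs3 Y Y' W (Nu n)) (fun R => ENNReal.ofReal (ct (th / 4) ((R.length : ℝ) / n))) ≤
          ms (Prm.Rs3 Y Y' W (Nu n)) fun _ => 1 := by
        unfold ms
        refine ENNReal.tsum_le_tsum fun b => ?_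
        split_ifs
        · exact mul_le_mul_right (ENNReal.ofReal_le_one.2 (F3E.ct_le_one _ _)) _
        · exact le_rfl
      calc _ ≤ Bt.cb (Nu n) * (1 * (ms (Prm.Rs3 Y Y' W (Nu n)) (fun _ => 1) * 1)) :=
            mul_le_mul_right (mul_le_mul' b1 (mul_le_mul' b3 b2)) _
        _ = _ := by rw [one_mul, mul_one]
  obtain ⟨P0, fP0, marg, ⟨u, hu0, -, -, htwo⟩, hl, hcl⟩ := mark_limU md
  have hloc := loc P0 fP0 marg ⟨u, hu0, htwo⟩ hl hcl
  obtain ⟨C, hCd⟩ : ∃ C : ℝ≥0∞, C = ENNReal.ofReal u * (k Set.univ + k' Set.univ) := ⟨_, rfl⟩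
  have hC : C ≠ ∞ := by
    rw [hCd]
    exact ENNReal.mul_ne_top ENNReal.ofReal_ne_top (ENNReal.add_ne_top.2 ⟨measure_ne_top _ _, measure_ne_top _ _⟩)
  have m1 : Measurable fun z : MP => (two z).1 := measurable_fst.comp two_cont.measurable
  have m2 : Measurable fun z : MP => (two z).2 := measurable_snd.comp two_cont.measurable
  have dom : P0.map (fun z => (two z).1) ≤ C • k := by
    have e1 : P0.map (fun z => (two z).1) = (P0.map two).map Prod.fst := by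
      rw [Measure.map_map measurable_fst two_cont.measurable]
      rfl
    rw [e1, htwo, Measure.map_smul, Measure.map_fst_prod, smul_smul, hCd]
    refine Measure.le_iff.2 fun A _ => ?_
    rw [Measure.smul_apply, Measure.smul_apply, smul_eq_mul, smul_eq_mul]
    exact mul_le_mul_left (mul_le_mul_right le_add_self _) _
  have dom' : P0.map (fun z => (two z).2) ≤ C • k' := by
    have e1 : P0.map (fun z => (two z).2) = (P0.map two).map Prod.snd := by
      rw [Measure.map_map measurable_snd two_cont.measurable]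
      rfl
    rw [e1, htwo, Measure.map_smul, Measure.map_snd_prod, smul_smul, hCd]
    refine Measure.le_iff.2 fun A _ => ?_
    rw [Measure.smul_apply, Measure.smul_apply, smul_eq_mul, smul_eq_mul]
    exact mul_le_mul_left (mul_le_mul_right le_self_add _) _
  refine LA.low2_lim (P := P0) (pr := Prod.fst) (pb := fun z => (two z).1) (pb' := fun z => (two z).2) measurable_fst m1 m2 hC marg
    dom dom' hkμ hkμ' (ct := ctB th κ0) (fun x => F3E.ct_nonneg _ _) (fun x => F3E.ct_le_one _ _) hη mS mS' mD ?_ hloc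
  intro ψ ψ' a0 a1 a0' a1' a2 a2'
  obtain ⟨G, hG⟩ : ∃ G : MP →ᵇ ℝ, G = ψ.compContinuous ⟨fun z => (two z).1, continuous_fst.comp two_cont⟩ *
    ψ'.compContinuous ⟨fun z => (two z).2, continuous_snd.comp two_cont⟩ * (ctB th κ0).compContinuous ⟨Prod.fst, continuous_fst⟩ :=
    ⟨_, rfl⟩
  have hGa : ∀ z, G z = ψ (two z).1 * ψ' (two z).2 * ctB th κ0 z.1 := fun z => by
    rw [hG]
    rfl
  have hG0 : ∀ z, 0 ≤ G z := fun z => by
    rw [hGa]
    exact mul_nonneg (mul_nonneg (a0 _) (a0' _)) (F3E.ct_nonneg _ _)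
  have e2 : ∫ z, ψ (two z).1 * ψ' (two z).2 * ctB th κ0 z.1 ∂P0 = ∫ z, G z ∂P0 := by
    congr 1
    funext z
    exact (hGa z).symm
  show p * ∫ x, ctB th κ0 x ∂m ≤ ∫ z, ψ (two z).1 * ψ' (two z).2 * ctB th κ0 z.1 ∂P0
  rw [e2]
  refine le_of_tendsto_of_tendsto ((tU (hm (ctB th κ0))).const_mul p) (tU (hl G)) ?_
  filter_upwards [sc ψ ψ' a0 a0' a1 a1' a2 a2'] with n g1
  have g2 := g1.2
  have := mm_fin h (Nu n)
  have e3 : ∫⁻ z, ENNReal.ofReal (ψ (two z).1 * ψ' (two z).2 * ctB th κ0 z.1)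
      ∂(mm (Bt.cb (Nu n)) (Nu n) (uT (Nu n)) (OtB (ev 0) O (Nu n) (uT (Nu n))) (Prm.Rs3 Y Y' W (Nu n))
        (OtB (ev 0) O' (Nu n) (uT (Nu n)))) = ENNReal.ofReal (∫ z, G z
      ∂(mm (Bt.cb (Nu n)) (Nu n) (uT (Nu n)) (OtB (ev 0) O (Nu n) (uT (Nu n))) (Prm.Rs3 Y Y' W (Nu n))
        (OtB (ev 0) O' (Nu n) (uT (Nu n))))) := by
    rw [ofReal_integral_eq_lintegral_ofReal (G.integrable _) (Eventually.of_forall hG0)]
    refine lintegral_congr fun z => ?_
    rw [hGa]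
  rw [intR, e3, ← ENNReal.ofReal_mul hp.le] at g2
  exact (ENNReal.ofReal_le_ofReal_iff (integral_nonneg hG0)).1 g2

end lim

end Pool.Agent.ROT.F3
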