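import Pool.Agent.ROT.F3C3
import Pool.Agent.ROT.F3PrmO22
import Pool.Agent.ROT.F3Fin1

/-!
# ROT / F3Low2C (helper89): the classes with three gates near the base data

* `W2 P O O'` : the window of the rests behind the outer gates (helper76's `VwQ P O O' 0`), inside of the window of the main arcs;
* `bO_sc`, `bY_sc` : base data at an intermediate scale;
* **`c3ok_near`** : `C3Ok P O O' Y Y' (W2 P O O')` for all data near the base data; **`w2_win`** : `W2` is wide.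
-/

set_option autoImplicit false

namespace Pool.Agent.ROT.F3

/-- the window of the rests behind the outer gates -/
def W2 (P : Prm) (O O' : Ot) : Wn :=
  ⟨P.W.D0 + (P.p.k + P.q.k) + (O.r + O'.r), P.W.D1 - (P.p.k + P.q.k) - (O.r + O'.r), P.W.t0, P.W.t1 - (O.lb + O'.lb)⟩

/-- two scales of the same data near a gate -/
lemma wi_two {a x y : ℝ} (h : Wi x a) (h' : Wi y a) : x ≤ 101 / 100 * y := h.1.trans h'.2

/-- the base data of the outer block at an intermediate scale -/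
lemma bO_sc {ρ τ x y : ℝ} (h1 : ρ ≤ x) (h2 : x ≤ 101 / 100 * ρ) (h3 : τ ≤ y) (h4 : y ≤ 101 / 100 * τ) : (bO x y).Nr (bO ρ τ) := by
  constructor <;> (unfold Wi bO; dsimp only; constructor <;> linarith)

/-- the base data of the outer gate at an intermediate scale -/
lemma bY_sc {ρ τ x y : ℝ} (h1 : ρ ≤ x) (h2 : x ≤ 101 / 100 * ρ) (h3 : τ ≤ y) (h4 : y ≤ 101 / 100 * τ) : (bY x y).Nr (bY ρ τ) := by
  constructor <;> (unfold Wi bY; dsimp only; constructor <;> linarith)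

lemma e3ok {E : En} {O : Ot} {Y : Tp} {ε : ℝ} (hP : E.n.Ok) (h : OutOk E O Y ε) : E3Ok E.n O Y where
  hP := hP
  hY := h.oY
  or' := (h.m.le.trans h.mr.le)
  om := h.mr.le
  un := h.un
  c := h.cn
  cY := h.cy
  κ := h.κn
  Yκm := h.κy'
  Yκ := by
    have := h.κy
    have := hP.κ
    linarith
  r0 := h.r0n

/-- **the classes with three gates near the base data** -/
theorem c3ok_near {P : Prm} {O O' : Ot} {Y Y' : Tp} {ρ τ : ℝ} (hρ : 0 < ρ) (hτ : 0 < τ) (hP : P.Ok) (hu : ‖P.u - 1‖ ≤ 1 / 100000000)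
    (hp : P.p.Nr (bE ρ τ)) (hq : P.q.Nr (bE ρ τ)) (hO : O.Nr (bO ρ τ)) (hO' : O'.Nr (bO ρ τ)) (hY : Y.Nr (bY ρ τ))
    (hY' : Y'.Nr (bY ρ τ)) : C3Ok P O O' Y Y' (W2 P O O') := by
  have o1 := outOk hρ hτ (norm_nonneg (P.u - 1)) hu hp hO hY
  have o2 := outOk hρ hτ (norm_nonneg (P.u - 1)) hu hq hO' hY'
  have a1 : O.r ≤ 101 / 100 * (22000000 * ρ) := hO.r.2
  have a2 : O'.r ≤ 101 / 100 * (22000000 * ρ) := hO'.r.2
  have b1 : P.p.n.r ≤ 101 / 100 * (1 * ρ) := hp.n.r.2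
  have b2 : P.q.n.r ≤ 101 / 100 * (1 * ρ) := hq.n.r.2
  have b3 : P.p.n.r2 ≤ 101 / 100 * (41 / 2 * ρ) := hp.n.r2.2
  have b4 : P.q.n.r2 ≤ 101 / 100 * (41 / 2 * ρ) := hq.n.r2.2
  have b5 : P.p.n.r0 ≤ 101 / 100 * (1415 * ρ) := hp.n.r0.2
  have b6 : P.q.n.r0 ≤ 101 / 100 * (1415 * ρ) := hq.n.r0.2
  have b7 : P.p.f.r2 ≤ 101 / 100 * (28500 * ρ) := hp.f.r2.2
  have b8 : P.q.f.r2 ≤ 101 / 100 * (28500 * ρ) := hq.f.r2.2
  have b9 : P.p.rk ≤ 101 / 100 * (80 * ρ) := hp.rk.2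
  have b10 : P.q.rk ≤ 101 / 100 * (80 * ρ) := hq.rk.2
  have c1 : 60000000 * ρ ≤ P.p.s.len := hp.s.len.1
  have c2 : 60000000 * ρ ≤ P.q.s.len := hq.s.len.1
  have d1 : 22000000 * ρ ≤ O.r := hO.r.1
  have d2 : 22000000 * ρ ≤ O'.r := hO'.r.1
  have hk : P.p.k = P.p.rk + P.p.f.r2 := rfl
  have hk' : P.q.k = P.q.rk + P.q.f.r2 := rfl
  have hD := hP.nr
  have k1 : 0 < P.p.k := add_pos hP.p.rk hP.p.f.r2
  have k2 : 0 < P.q.k := add_pos hP.q.rk hP.q.f.r2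
  have k3 := hP.p.lk
  have k4 := hP.q.lk
  refine ⟨hP, e3ok hP.p.n o1, e3ok hP.q.n o2, ?_, ?_, ?_, ?_, ?_, ?_⟩
  · show 2 * (P.p.n.r + P.p.n.r2 + O.r + (P.q.n.r + P.q.n.r2 + O'.r)) < P.W.D0 + (P.p.k + P.q.k) + (O.r + O'.r)
    linarith
  · show P.p.n.r0 + P.q.n.r0 + 2 * (O.r + O'.r) < P.W.D0 + (P.p.k + P.q.k) + (O.r + O'.r)
    linarith
  · show P.W.D0 - (P.p.k + P.q.k) + (O.r + O'.r) ≤ P.W.D0 + (P.p.k + P.q.k) + (O.r + O'.r)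
    linarith
  · show P.W.D1 - (P.p.k + P.q.k) - (O.r + O'.r) ≤ P.W.D1 + (P.p.k + P.q.k) - (O.r + O'.r)
    linarith
  · show P.W.t0 ≤ P.W.t0
    exact le_rfl
  · show P.W.t1 - (O.lb + O'.lb) ≤ P.W.t1 + (P.p.lk + P.q.lk) - (O.lb + O'.lb)
    linarith

/-- **the window is wide** -/
theorem w2_win {P : Prm} {O O' : Ot} {ρ τ k K k0 K1 : ℝ} (hρ : 0 < ρ)
    (hp : P.p.Nr (bE ρ τ)) (hq : P.q.Nr (bE ρ τ)) (hO : O.Nr (bO ρ τ)) (hO' : O'.Nr (bO ρ τ)) (hW : F3E.WinP k K P)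
    (h1 : k + 50000000 * ρ ≤ k0) (h2 : K1 + 50000000 * ρ ≤ K) (h2' : K1 + 3 * τ ≤ K) :
    (W2 P O O').D0 ≤ k0 ∧ K1 ≤ (W2 P O O').D1 ∧ (W2 P O O').t0 ≤ k0 ∧ K1 ≤ (W2 P O O').t1 := by
  have a1 : O.r ≤ 101 / 100 * (22000000 * ρ) := hO.r.2
  have a2 : O'.r ≤ 101 / 100 * (22000000 * ρ) := hO'.r.2
  have b1 : P.p.f.r2 ≤ 101 / 100 * (28500 * ρ) := hp.f.r2.2
  have b2 : P.q.f.r2 ≤ 101 / 100 * (28500 * ρ) := hq.f.r2.2
  have b3 : P.p.rk ≤ 101 / 100 * (80 * ρ) := hp.rk.2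
  have b4 : P.q.rk ≤ 101 / 100 * (80 * ρ) := hq.rk.2
  have l1 : O.lb ≤ 101 / 100 * (99 / 100 * τ) := hO.lb.2
  have l2 : O'.lb ≤ 101 / 100 * (99 / 100 * τ) := hO'.lb.2
  have hk : P.p.k = P.p.rk + P.p.f.r2 := rfl
  have hk' : P.q.k = P.q.rk + P.q.f.r2 := rfl
  have w1 := hW.D0
  have w2 := hW.D1
  have w3 := hW.t0
  have w4 := hW.t1
  refine ⟨?_, ?_, ?_, ?_⟩
  · show P.W.D0 + (P.p.k + P.q.k) + (O.r + O'.r) ≤ k0
    linarith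
  · show K1 ≤ P.W.D1 - (P.p.k + P.q.k) - (O.r + O'.r)
    linarith
  · show P.W.t0 ≤ k0
    linarith
  · show K1 ≤ P.W.t1 - (O.lb + O'.lb)
    linarith

end Pool.Agent.ROT.F3
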