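import Pool.Agent.ROT.F3FP
import Pool.Agent.BAR1.KLow

/-!
# ROT, F3LowB: the end of a block at a given place (helper89)

* `ig_tail` : an irreducible bridge of height at least `n` has height and width at most `R n`, up to `ε n^(-3/4)`;
* **`fb_low`** : a block `FB m` ends at a given place of a disc around `(m, 0)` with probability at least `c / m ^ 2`
  (in a box, with a cut in `[m / 2, m)`).
-/

set_option autoImplicit false

namespace HexObs

namespace ROT

namespace FP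

open Finset ENNReal

/-- lower bound for the mass of the blocks of a set -/
theorem fb_ge {m : ℕ} (hm : 1 ≤ m) (T : ℕ) (G S : Set (List Bool)) (κ : ℝ≥0∞)
    (hG : ∀ i ∈ G, ∃ h, h < m ∧ i ∈ IG (m - h) ∧ i ∈ Brd (T - h))
    (hκ : ∀ h, h < m → ∀ i ∈ G, i ∈ IG (m - h) → i ∈ Brd (T - h) → κ ≤ gf {a | a ∈ Brd h ∧ a ++ i ∈ S}) :
    gf G * κ ≤ gf {k | k ∈ FB m ∧ k ∈ S} := by
  classical
  have h1 : gf {k | k ∈ FB m ∧ k ∈ S} = ∑' k : FB m, wE k.1 * (if k.1 ∈ S then 1 else 0) := by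
    rw [HexObs.gf_ind, _root_.tsum_subtype (FB m) (fun k => wE k * (if k ∈ S then 1 else 0))]
    refine tsum_congr fun k => ?_
    by_cases hk : k ∈ FB m
    · rw [Set.indicator_of_mem hk]
      by_cases hS : k ∈ S
      · rw [if_pos (show k ∈ {k | k ∈ FB m ∧ k ∈ S} from ⟨hk, hS⟩), if_pos hS, mul_one]
      · rw [if_neg (fun h => hS h.2), if_neg hS, mul_zero]
    · rw [Set.indicator_of_notMem hk, if_neg (fun h => hk h.1)]
  rw [h1, fb_sum hm (fun k => if k ∈ S then 1 else 0)]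
  have h2 : ∀ h ∈ range m, gf (G ∩ {i | i ∈ IG (m - h) ∧ i ∈ Brd (T - h)}) * κ ≤
      ∑' i : IG (m - h), ∑' a : Brd h, wE a.1 * (wE i.1 * (if a.1 ++ i.1 ∈ S then 1 else 0)) := by
    intro h hh
    have h3 : gf (G ∩ {i | i ∈ IG (m - h) ∧ i ∈ Brd (T - h)}) * κ =
        ∑' i : IG (m - h), (if i.1 ∈ G ∧ i.1 ∈ Brd (T - h) then wE i.1 * κ else 0) := by
      rw [HexObs.gf_ind, ← ENNReal.tsum_mul_right, _root_.tsum_subtype (IG (m - h))
        (fun i => if i ∈ G ∧ i ∈ Brd (T - h) then wE i * κ else 0)]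
      refine tsum_congr fun i => ?_
      by_cases hi : i ∈ IG (m - h)
      · rw [Set.indicator_of_mem hi]
        by_cases hg : i ∈ G ∧ i ∈ Brd (T - h)
        · rw [if_pos hg, if_pos ⟨hg.1, hi, hg.2⟩]
        · rw [if_neg hg, if_neg (fun hc => hg ⟨hc.1, hc.2.2⟩), zero_mul]
      · rw [Set.indicator_of_notMem hi, if_neg (fun hc => hi hc.2.1), zero_mul]
    rw [h3]
    refine ENNReal.tsum_le_tsum fun i => ?_
    by_cases hg : i.1 ∈ G ∧ i.1 ∈ Brd (T - h)
    · rw [if_pos hg]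
      refine (mul_le_mul_right (hκ h (mem_range.1 hh) i.1 hg.1 i.2 hg.2) _).trans (le_of_eq ?_)
      rw [HexObs.gf_ind, ← ENNReal.tsum_mul_left, _root_.tsum_subtype (Brd h)
        (fun a => wE a * (wE i.1 * (if a ++ i.1 ∈ S then 1 else 0)))]
      refine tsum_congr fun a => ?_
      by_cases ha : a ∈ Brd h
      · rw [Set.indicator_of_mem ha]
        by_cases hS : a ++ i.1 ∈ S
        · rw [if_pos (show a ∈ {a | a ∈ Brd h ∧ a ++ i.1 ∈ S} from ⟨ha, hS⟩), if_pos hS, mul_one, mul_comm]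
        · rw [if_neg (fun hc => hS hc.2), if_neg hS, mul_zero, mul_zero]
      · rw [Set.indicator_of_notMem ha, if_neg (fun hc => ha hc.1), mul_zero]
    · rw [if_neg hg]
      exact zero_le
  refine le_trans ?_ (Finset.sum_le_sum h2)
  rw [← Finset.sum_mul]
  refine mul_le_mul_left ?_ _
  have h3 : G ⊆ ⋃ h : range m, (G ∩ {i | i ∈ IG (m - h) ∧ i ∈ Brd (T - h)}) := by
    intro i hi
    obtain ⟨h, hh, h4, h5⟩ := hG i hi
    exact Set.mem_iUnion.2 ⟨⟨h, mem_range.2 hh⟩, hi, h4, h5⟩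
  refine (gf_mono h3).trans ?_
  rw [← Finset.sum_coe_sort (range m) (fun h => gf (G ∩ {i | i ∈ IG (m - h) ∧ i ∈ Brd (T - h)}))]
  unfold gf
  exact ENNReal.tsum_iUnion_le (fun t => wE t) _

/-- bounded part of an irreducible piece -/
def IB (n R : ℕ) : Set (List Bool) := {i | i ∈ IG n ∧ (∃ T, T ≤ R * n ∧ i ∈ Brd T) ∧ ∀ j, j ≤ i.length → |lat i j| ≤ (R * n : ℤ)}

/-- the unbounded part of the irreducible pieces -/
theorem ig_tail {ε : ℝ} (hε : 0 < ε) : ∃ R : ℕ, ∀ n : ℕ, 1 ≤ n →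
    gf {i | i ∈ IG n ∧ i ∉ IB n R} ≤ ENNReal.ofReal (ε * (n : ℝ) ^ (-(3 / 4) : ℝ)) := by
  obtain ⟨c, hc, hlow⟩ := GLow.UU_low
  obtain ⟨M, hM⟩ := Ex.lat0 (1 / 2) (by norm_num)
  obtain ⟨R0, hR0⟩ := fb_tail (ε := ε * c / 8) (by positivity)
  refine ⟨2 * (R0 + M), fun n hn => ?_⟩
  set B : Set (List Bool) := {i | i ∈ IG n ∧ i ∉ IB n (2 * (R0 + M))} with hB
  -- the words `a ++ i`
  have h1 : gf B * ∑ h ∈ range n, gf {a | a ∈ Brd h ∧ |latE a| ≤ (M * n : ℤ)} ≤ ENNReal.ofReal (ε * c / 8) := by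
    refine le_trans ?_ (hR0 n hn)
    classical
    have h2 : gf {k | k ∈ FB n ∧ ((∃ T, R0 * n < T ∧ k ∈ Brd T) ∨ ∃ i, i ≤ k.length ∧ (R0 * n : ℤ) < |lat k i|)} =
        ∑' k : FB n, wE k.1 * (if ((∃ T, R0 * n < T ∧ k.1 ∈ Brd T) ∨ ∃ i, i ≤ k.1.length ∧ (R0 * n : ℤ) < |lat k.1 i|)
          then 1 else 0) := by
      rw [HexObs.gf_ind, _root_.tsum_subtype (FB n) (fun k => wE k *
        (if ((∃ T, R0 * n < T ∧ k ∈ Brd T) ∨ ∃ i, i ≤ k.length ∧ (R0 * n : ℤ) < |lat k i|) then 1 else 0))]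
      refine tsum_congr fun k => ?_
      by_cases hk : k ∈ FB n
      · rw [Set.indicator_of_mem hk]
        by_cases hS : ((∃ T, R0 * n < T ∧ k ∈ Brd T) ∨ ∃ i, i ≤ k.length ∧ (R0 * n : ℤ) < |lat k i|)
        · rw [if_pos hS, mul_one, if_pos]
          exact ⟨hk, hS⟩
        · rw [if_neg hS, mul_zero, if_neg]
          exact fun h => hS h.2
      · rw [Set.indicator_of_notMem hk, if_neg]
        exact fun h => hk h.1
    rw [h2, fb_sum hn (fun k => if ((∃ T, R0 * n < T ∧ k ∈ Brd T) ∨ ∃ i, i ≤ k.length ∧ (R0 * n : ℤ) < |lat k i|)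
      then 1 else 0), Finset.mul_sum]
    refine Finset.sum_le_sum fun h hh => ?_
    have hh' := mem_range.1 hh
    rw [HexObs.gf_ind B, ← ENNReal.tsum_mul_right, _root_.tsum_subtype (IG (n - h)) (fun i => ∑' a : Brd h,
      wE a.1 * (wE i * (if ((∃ T, R0 * n < T ∧ a.1 ++ i ∈ Brd T) ∨ ∃ j, j ≤ (a.1 ++ i).length ∧
        (R0 * n : ℤ) < |lat (a.1 ++ i) j|) then 1 else 0)))]
    refine ENNReal.tsum_le_tsum fun i => ?_
    by_cases hi : i ∈ B
    · have hi' : i ∈ IG (n - h) := by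
        obtain ⟨r, hr, hir⟩ := hi.1
        exact ⟨r, by omega, hir⟩
      rw [if_pos hi, Set.indicator_of_mem hi', HexObs.gf_ind, ← ENNReal.tsum_mul_left,
        _root_.tsum_subtype (Brd h) (fun a => wE a * (wE i * (if ((∃ T, R0 * n < T ∧ a ++ i ∈ Brd T) ∨
          ∃ j, j ≤ (a ++ i).length ∧ (R0 * n : ℤ) < |lat (a ++ i) j|) then 1 else 0)))]
      refine ENNReal.tsum_le_tsum fun a => ?_
      by_cases ha : a ∈ {a | a ∈ Brd h ∧ |latE a| ≤ (M * n : ℤ)}
      · have hab := mem_Brd.1 ha.1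
        obtain ⟨r, hr, hir⟩ := hi.1
        rw [if_pos ha, Set.indicator_of_mem ha.1, if_pos, mul_one, mul_comm]
        by_cases hcase : r ≤ 2 * (R0 + M) * n
        · right
          have hnb : ∃ j, j ≤ i.length ∧ ((2 * (R0 + M) : ℕ) * n : ℤ) < |lat i j| := by
            by_contra hcon
            push Not at hcon
            exact hi.2 ⟨hi.1, ⟨r, hcase, hir.1⟩, fun j hj => by exact_mod_cast hcon j hj⟩
          obtain ⟨j, hj, hjl⟩ := hnb
          refine ⟨a.length + j, by rw [List.length_append]; omega, ?_⟩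
          rw [lat_cat hab.2.2.1]
          have h3 := ha.2
          have h4 : |lat i j| ≤ |latE a + lat i j| + |latE a| := by
            have := abs_sub (latE a + lat i j) (latE a)
            simpa using this
          have h5 : (0 : ℤ) ≤ (R0 : ℤ) * n := by positivity
          have h6 : (0 : ℤ) ≤ (M : ℤ) * n := by positivity
          push_cast at hjl
          linarith
        · left
          refine ⟨h + r, ?_, Brd_append ha.1 hir.1⟩
          have h3 : R0 * n ≤ 2 * (R0 + M) * n := Nat.mul_le_mul_right _ (by omega)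
          omega
      · rw [if_neg ha, mul_zero]
        exact zero_le
    · rw [if_neg hi, zero_mul]
      exact zero_le
  have h2 : ENNReal.ofReal (UU (n - 1) / 2) ≤ ∑ h ∈ range n, gf {a | a ∈ Brd h ∧ |latE a| ≤ (M * n : ℤ)} := by
    have h3 : ∀ h ∈ range n, ENNReal.ofReal (uu h / 2) ≤ gf {a | a ∈ Brd h ∧ |latE a| ≤ (M * n : ℤ)} := by
      intro h hh
      have hh' := mem_range.1 hh
      have hsp : gf (Brd h) ≤ gf {a | a ∈ Brd h ∧ |latE a| ≤ (M * n : ℤ)} +
          gf {t | t ∈ Brd h ∧ (M * n : ℤ) < |latE t|} := by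
        refine (gf_mono ?_).trans (gf_union_le _ _)
        intro a ha
        by_cases hl : |latE a| ≤ (M * n : ℤ)
        · exact Or.inl ⟨ha, hl⟩
        · exact Or.inr ⟨ha, not_le.1 hl⟩
      have hsm : gf {t | t ∈ Brd h ∧ (M * n : ℤ) < |latE t|} ≤ ENNReal.ofReal (1 / 2 * uu h) := by
        rcases Nat.eq_zero_or_pos h with rfl | h0
        · refine le_trans (le_of_eq ?_) zero_le
          have : {t | t ∈ Brd 0 ∧ (M * n : ℤ) < |latE t|} = (∅ : Set (List Bool)) := by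
            ext t
            simp only [Set.mem_ofPred_eq, Set.mem_empty_iff_false, iff_false, not_and, not_lt]
            intro ht
            rw [Brd_zero] at ht
            rw [Set.mem_singleton_iff.1 ht]
            have : latE ([] : List Bool) = 0 := by decide
            rw [this, abs_zero]
            positivity
          rw [this]
          unfold gf
          exact tsum_empty
        · refine le_trans (gf_mono ?_) (hM h h0)
          rintro t ⟨ht, hl⟩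
          refine ⟨ht, t.length, le_rfl, lt_of_le_of_lt ?_ hl⟩
          have : (h : ℤ) ≤ n := by exact_mod_cast hh'.le
          exact mul_le_mul_of_nonneg_left this (by positivity)
      have hB' : gf (Brd h) = ENNReal.ofReal (uu h) := by rw [gf_Brd, BT_eq_uu]
      rw [hB'] at hsp
      have h5 := hsp.trans (add_le_add le_rfl hsm)
      have h6 : ENNReal.ofReal (uu h) = ENNReal.ofReal (uu h / 2) + ENNReal.ofReal (1 / 2 * uu h) := by
        rw [← ENNReal.ofReal_add (by have := uu_pos h; positivity) (by have := uu_pos h; positivity)]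
        congr 1
        ring
      rw [h6] at h5
      exact (ENNReal.add_le_add_iff_right ENNReal.ofReal_ne_top).1 h5
    refine le_trans (le_of_eq ?_) (Finset.sum_le_sum h3)
    rw [← ENNReal.ofReal_sum_of_nonneg (fun h _ => by have := uu_pos h; positivity)]
    congr 1
    unfold UU
    rw [Finset.sum_div, Nat.sub_add_cancel hn]
  have hn0 : (0 : ℝ) < n := by exact_mod_cast hn
  have h3 : c / 2 * (n : ℝ) ^ (3 / 4 : ℝ) ≤ 2 * UU (n - 1) := by
    have h4 := hlow n hn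
    have h5 : UU n ≤ 2 * UU (n - 1) + 0 := by
      unfold UU
      rw [Nat.sub_add_cancel hn, Finset.sum_range_succ]
      have h6 : uu n ≤ ∑ t ∈ Finset.range n, uu t := by
        have h7 : uu n ≤ uu 0 := uu_anti (Nat.zero_le n)
        have h8 : uu 0 ≤ ∑ t ∈ Finset.range n, uu t :=
          Finset.single_le_sum (f := uu) (fun t _ => (uu_pos t).le) (Finset.mem_range.2 (by omega))
        exact h7.trans h8
      linarith
    have h6 : c / 2 * (n : ℝ) ^ (3 / 4 : ℝ) ≤ c * (n : ℝ) ^ (3 / 4 : ℝ) := by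
      have : 0 ≤ c * (n : ℝ) ^ (3 / 4 : ℝ) := by positivity
      linarith
    linarith
  have h4 : gf B * ENNReal.ofReal (c / 8 * (n : ℝ) ^ (3 / 4 : ℝ)) ≤ ENNReal.ofReal (ε * c / 8) := by
    refine le_trans (mul_le_mul_right (le_trans (ENNReal.ofReal_le_ofReal ?_) h2) _) h1
    linarith
  have hp : (0 : ℝ) < (n : ℝ) ^ (3 / 4 : ℝ) := by positivity
  have h5 : gf B ≤ ENNReal.ofReal (ε * c / 8) / ENNReal.ofReal (c / 8 * (n : ℝ) ^ (3 / 4 : ℝ)) := by
    rw [ENNReal.le_div_iff_mul_le (Or.inl (ENNReal.ofReal_pos.2 (by positivity)).ne') (Or.inl ENNReal.ofReal_ne_top)]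
    exact h4
  refine h5.trans (le_of_eq ?_)
  rw [← ENNReal.ofReal_div_of_pos (by positivity)]
  congr 1
  rw [show (-(3 / 4) : ℝ) = -(3 / 4 : ℝ) by norm_num, Real.rpow_neg hn0.le]
  field_simp

/-- the bounded irreducible pieces have a mass of the right order -/
theorem ig_mass : ∃ (c : ℝ) (R : ℕ), 0 < c ∧ 1 ≤ R ∧ ∀ n : ℕ, 1 ≤ n →
    ENNReal.ofReal (c * (n : ℝ) ^ (-(3 / 4) : ℝ)) ≤ gf (IB n R) := by
  obtain ⟨C, hC, hK⟩ := BAR.KK_low
  obtain ⟨R, hR⟩ := ig_tail (ε := 1 / (2 * C)) (by positivity)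
  refine ⟨1 / (2 * C), R + 1, by positivity, by omega, fun n hn => ?_⟩
  have hn0 : (0 : ℝ) < n := by exact_mod_cast hn
  have h1 : ENNReal.ofReal (1 / C * (n : ℝ) ^ (-(3 / 4) : ℝ)) ≤ gf (IG n) := by
    rw [gf_IG]
    apply ENNReal.ofReal_le_ofReal
    have h2 := hK (n - 1)
    rw [Nat.sub_add_cancel hn] at h2
    have h3 : ((n - 1 : ℕ) : ℝ) + 1 = n := by
      rw [Nat.cast_sub hn]
      push_cast
      ring
    rw [h3] at h2
    rw [one_div_mul_eq_div]
    rw [show (-(3 / 4) : ℝ) = -(3 / 4 : ℝ) by norm_num]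
    exact h2
  have h2 : gf (IG n) ≤ gf (IB n R) + gf {i | i ∈ IG n ∧ i ∉ IB n R} := by
    refine (gf_mono ?_).trans (gf_union_le _ _)
    intro i hi
    by_cases hb : i ∈ IB n R
    · exact Or.inl hb
    · exact Or.inr ⟨hi, hb⟩
  have h3 := (h1.trans h2).trans (add_le_add le_rfl (hR n hn))
  have h4 : ENNReal.ofReal (1 / C * (n : ℝ) ^ (-(3 / 4) : ℝ)) = ENNReal.ofReal (1 / (2 * C) * (n : ℝ) ^ (-(3 / 4) : ℝ)) +
      ENNReal.ofReal (1 / (2 * C) * (n : ℝ) ^ (-(3 / 4) : ℝ)) := by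
    rw [← ENNReal.ofReal_add (by positivity) (by positivity)]
    congr 1
    ring
  rw [h4] at h3
  refine ((ENNReal.add_le_add_iff_right ENNReal.ofReal_ne_top).1 h3).trans (gf_mono ?_)
  rintro i ⟨hi, ⟨T, hT, hiT⟩, hl⟩
  refine ⟨hi, ⟨T, hT.trans (Nat.mul_le_mul_right _ (by omega)), hiT⟩, fun j hj => (hl j hj).trans ?_⟩
  have : (0 : ℤ) ≤ n := Int.natCast_nonneg n
  push_cast
  linarith

/-- **one block: the probability of a given end** -/
theorem fb_low : ∃ (c δ : ℝ) (M m0 : ℕ), 0 < c ∧ 0 < δ ∧ δ ≤ 1 ∧ ∀ (m T : ℕ) (x : ℤ), m0 ≤ m → m ≤ T →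
    (T : ℝ) ≤ (1 + δ) * m → ((|x| : ℤ) : ℝ) ≤ δ * m → Even (x - T) →
    ENNReal.ofReal (c / (m : ℝ) ^ 2) ≤ gf {b | b ∈ FB m ∧ b ∈ RP.EndB T x ∧
      (∀ i, i ≤ b.length → |lat b i| ≤ (M * m : ℤ)) ∧ ∃ h, m ≤ 2 * h ∧ h < m ∧ Cut b h} := by
  obtain ⟨c1, R, hc1, hR1, hIB⟩ := ig_mass
  obtain ⟨c0, ρ, M0, t0, hc0, hρ, hρ1, hloc⟩ := RP.local0
  obtain ⟨cu, hcu, huu⟩ := GLow.uu_low
  obtain ⟨δ, hδ⟩ : ∃ δ : ℝ, δ = ρ / (8 * (R + 1)) := ⟨_, rfl⟩
  have hRr : (1 : ℝ) ≤ R := by exact_mod_cast hR1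
  have hδ0 : 0 < δ := by rw [hδ]; positivity
  have hRδ : R * δ ≤ ρ / 8 := by
    rw [hδ, mul_div_assoc', div_le_div_iff₀ (by positivity) (by norm_num)]
    nlinarith
  have hδ1 : δ ≤ 1 / 8 := by
    have : 1 * δ ≤ R * δ := mul_le_mul_of_nonneg_right hRr hδ0.le
    linarith
  refine ⟨c1 * (c0 * cu), δ, M0 + 1, ⌈8 * R / ρ⌉₊ + 2 * t0 + 2, by positivity, hδ0, by linarith, ?_⟩
  intro m T x hm hmT hT hx hpar
  obtain ⟨n, hn⟩ : ∃ n : ℕ, n = ⌊δ * m⌋₊ + 1 := ⟨_, rfl⟩
  have hm2 : 2 ≤ m := by omega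
  have hmr : (2 : ℝ) ≤ m := by exact_mod_cast hm2
  have hm8 : 8 * R / ρ ≤ m := by
    refine (Nat.le_ceil _).trans ?_
    exact_mod_cast (by omega : ⌈8 * R / ρ⌉₊ ≤ m)
  have hm8' : 8 * (R : ℝ) ≤ ρ * m := by
    rw [div_le_iff₀ hρ] at hm8
    linarith
  have hn1 : 1 ≤ n := by omega
  have hnu : (n : ℝ) ≤ δ * m + 1 := by
    rw [hn]
    push_cast
    linarith [Nat.floor_le (show 0 ≤ δ * m by positivity)]
  have hnl : δ * m < n := by
    rw [hn]
    push_cast
    exact Nat.lt_floor_add_one _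
  have hRn : (R : ℝ) * n ≤ ρ / 4 * m := by
    have h1 : (R : ℝ) * n ≤ R * (δ * m + 1) := mul_le_mul_of_nonneg_left hnu (by positivity)
    have h2 : R * δ * m ≤ ρ / 8 * m := mul_le_mul_of_nonneg_right hRδ (by positivity)
    linarith
  have hnm : (n : ℝ) ≤ m := by
    have h1 : δ * m ≤ 1 / 8 * m := mul_le_mul_of_nonneg_right hδ1 (by positivity)
    linarith
  have hRnm : (R : ℝ) * n ≤ m / 4 := by
    have : ρ / 4 * m ≤ 1 / 4 * m := mul_le_mul_of_nonneg_right (by linarith) (by positivity)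
    linarith
  have hRnN : 4 * (R * n) ≤ m := by
    have h1 : 4 * ((R : ℝ) * n) ≤ m := by linarith
    exact_mod_cast h1
  obtain ⟨S, hS⟩ : ∃ S : Set (List Bool), S = {b | b ∈ RP.EndB T x ∧
      (∀ i, i ≤ b.length → |lat b i| ≤ ((M0 + 1 : ℕ) * m : ℤ)) ∧ ∃ h, m ≤ 2 * h ∧ h < m ∧ Cut b h} := ⟨_, rfl⟩
  have hgoal : {b | b ∈ FB m ∧ b ∈ RP.EndB T x ∧ (∀ i, i ≤ b.length → |lat b i| ≤ ((M0 + 1 : ℕ) * m : ℤ)) ∧
      ∃ h, m ≤ 2 * h ∧ h < m ∧ Cut b h} = {b | b ∈ FB m ∧ b ∈ S} := by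
    rw [hS]
    rfl
  rw [hgoal]
  have hkey := fb_ge (m := m) (by omega) T (IB n R) S (ENNReal.ofReal (c0 * (cu * (m : ℝ) ^ (-(5 / 4) : ℝ)))) ?_ ?_
  · refine le_trans ?_ hkey
    refine le_trans ?_ (mul_le_mul_left (hIB n hn1) _)
    rw [← ENNReal.ofReal_mul (by positivity)]
    apply ENNReal.ofReal_le_ofReal
    have hm0 : (0 : ℝ) < m := by linarith
    have hn0 : (0 : ℝ) < n := by exact_mod_cast hn1
    have h1 : (m : ℝ) ^ (-(3 / 4) : ℝ) ≤ (n : ℝ) ^ (-(3 / 4) : ℝ) :=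
      Real.rpow_le_rpow_of_nonpos hn0 hnm (by norm_num)
    have h2 : (m : ℝ) ^ (-(3 / 4) : ℝ) * (m : ℝ) ^ (-(5 / 4) : ℝ) = ((m : ℝ) ^ 2)⁻¹ := by
      rw [← Real.rpow_add hm0, ← Real.rpow_natCast, ← Real.rpow_neg hm0.le]
      norm_num
    calc c1 * (c0 * cu) / (m : ℝ) ^ 2 = c1 * (m : ℝ) ^ (-(3 / 4) : ℝ) * (c0 * (cu * (m : ℝ) ^ (-(5 / 4) : ℝ))) := by
          rw [div_eq_mul_inv, ← h2]
          ring
      _ ≤ c1 * (n : ℝ) ^ (-(3 / 4) : ℝ) * (c0 * (cu * (m : ℝ) ^ (-(5 / 4) : ℝ))) :=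
          mul_le_mul_of_nonneg_right (mul_le_mul_of_nonneg_left h1 hc1.le) (by positivity)
  · rintro i ⟨⟨r, hr, hir⟩, ⟨r', hr', hir'⟩, hl⟩
    have hrr : r = r' := Brd_height hir.1 hir'
    subst hrr
    have h1 : T - r < m := by
      have h2 : (T : ℝ) < m + r := by
        have h3 : (n : ℝ) ≤ r := by exact_mod_cast hr
        linarith
      have h3 : T < m + r := by exact_mod_cast h2
      omega
    refine ⟨T - r, h1, ⟨r, by omega, hir⟩, ?_⟩
    have h2 : T - (T - r) = r := by omega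
    rw [h2]
    exact hir.1
  · rintro h hh i ⟨⟨r, hr, hir⟩, ⟨r', hr', hir'⟩, hl⟩ - hib
    have hrr : r = r' := Brd_height hir.1 hir'
    subst hrr
    have hrT : r = T - h := Brd_height hir.1 hib
    have hTr : T = h + r := by omega
    have hh34 : 3 * m ≤ 4 * h := by omega
    have hhr : 3 / 4 * (m : ℝ) ≤ h := by
      have : (3 * m : ℝ) ≤ 4 * h := by exact_mod_cast hh34
      linarith
    have hh1 : 1 ≤ h := by omega
    have hh0 : (0 : ℝ) < h := by exact_mod_cast hh1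
    have hhm : (h : ℝ) ≤ m := by exact_mod_cast hh.le
    have hli : |latE i| ≤ (R * n : ℤ) := hl i.length le_rfl
    have hpar' : Even (x - latE i - h) := by
      have h1 := RP.latE_even hir.1
      have h2 : x - latE i - h = (x - T) - (latE i - r) := by
        rw [hTr]
        push_cast
        ring
      rw [h2]
      exact hpar.sub h1
    have hxl : ((|x - latE i| : ℤ) : ℝ) ≤ ρ * h := by
      have h1 : ((|x - latE i| : ℤ) : ℝ) ≤ ((|x| : ℤ) : ℝ) + ((|latE i| : ℤ) : ℝ) := by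
        exact_mod_cast abs_sub x (latE i)
      have h2 : ((|latE i| : ℤ) : ℝ) ≤ R * n := by exact_mod_cast hli
      have h3 : δ * m ≤ ρ / 8 * m := by
        refine mul_le_mul_of_nonneg_right ?_ (by positivity)
        have : 1 * δ ≤ R * δ := mul_le_mul_of_nonneg_right hRr hδ0.le
        linarith
      have h4 : ρ * (3 / 4 * m) ≤ ρ * h := mul_le_mul_of_nonneg_left hhr hρ.le
      have h5 : 0 ≤ ρ * m := by positivity
      linarith
    have hl0 := hloc h (x - latE i) (by omega) hpar' hxl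
    refine le_trans ?_ (hl0.trans (gf_mono ?_))
    · apply ENNReal.ofReal_le_ofReal
      refine mul_le_mul_of_nonneg_left ?_ hc0.le
      have h1 := huu h hh1
      have hm0 : (0 : ℝ) < m := by linarith
      calc cu * (m : ℝ) ^ (-(5 / 4) : ℝ) ≤ cu * (h : ℝ) ^ (-(5 / 4) : ℝ) :=
            mul_le_mul_of_nonneg_left (Real.rpow_le_rpow_of_nonpos hh0 hhm (by norm_num)) hcu.le
        _ = cu * (h : ℝ) ^ (-(1 / 4) : ℝ) / h := by
            rw [mul_div_assoc]
            congr 1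
            rw [← Real.rpow_sub_one hh0.ne']
            norm_num
        _ ≤ uu h / h := div_le_div_of_nonneg_right h1 hh0.le
    · rintro a ⟨⟨ha, hax⟩, hbox⟩
      have hab := mem_Brd.1 ha
      refine ⟨ha, ?_⟩
      rw [hS]
      refine ⟨⟨by rw [hTr]; exact Brd_append ha hir.1, ?_⟩, ?_, h, by omega, hh, a, i, r, ha, hir.1, rfl⟩
      · rw [latE_cat hab.2.2.1, hax]
        ring
      · intro j hj
        have hMm : (M0 : ℤ) * h ≤ M0 * m := by
          have : (h : ℤ) ≤ m := by exact_mod_cast hh.le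
          exact mul_le_mul_of_nonneg_left this (by positivity)
        rcases Nat.lt_or_ge a.length j with hj' | hj'
        · obtain ⟨k, rfl⟩ := Nat.exists_eq_add_of_le hj'.le
          rw [List.length_append] at hj
          rw [lat_cat hab.2.2.1]
          have h1 := hl k (by omega)
          have h2 : |latE a| ≤ (M0 * h : ℤ) := hbox a.length le_rfl
          have h3 : |latE a + lat i k| ≤ |latE a| + |lat i k| := abs_add_le _ _
          have h4 : ((R * n : ℕ) : ℤ) ≤ m := by exact_mod_cast (by omega : R * n ≤ m)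
          push_cast at h4 ⊢
          linarith
        · rw [lat_append (by omega)]
          have h1 := hbox j hj'
          have : (0 : ℤ) ≤ m := Int.natCast_nonneg m
          push_cast
          linarith

end FP

end ROT

end HexObs
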