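import Pool.Agent.ROT.F3Brd
import Pool.Agent.ROT.F3LowB

/-!
# ROT, F3LowD: two blocks with a given displacement, from below (helper89)

`Lat3` = the lattice of the even vertices. **`two_low`** : blocks `b1 ∈ Fbi i m1`, `b2 ∈ Fbi j m2` with `d + en b1 - en b2 = z` have
a weight at least `c r² κ1 κ2` if every end of a disc of radius `r` has probability at least `κ1`, `κ2`.
-/

set_option autoImplicit false

namespace Pool.Agent.ROT.F3

open Finset HexObs HexObs.ROT.FP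
open Pool.Agent.NTS.Res (step pos saw fug)
open scoped ENNReal Classical ComplexConjugate

/-- the lattice of the even vertices -/
def Lat3 : Set ℂ := {y | ∃ T x : ℤ, Even (x - T) ∧ y = ⟨3 * T / 2, -(Real.sqrt 3 / 2 * x)⟩}

lemma lat3_zero : (0 : ℂ) ∈ Lat3 := ⟨0, 0, by simp, by simp [Complex.ext_iff]⟩

lemma lat3_add {y z : ℂ} (hy : y ∈ Lat3) (hz : z ∈ Lat3) : y + z ∈ Lat3 := by
  obtain ⟨T, x, h, rfl⟩ := hy
  obtain ⟨T', x', h', rfl⟩ := hz
  refine ⟨T + T', x + x', ?_, ?_⟩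
  · have : x + x' - (T + T') = (x - T) + (x' - T') := by ring
    rw [this]
    exact h.add h'
  · apply Complex.ext
    · simp only [Complex.add_re]
      push_cast
      ring
    · simp only [Complex.add_im]
      push_cast
      ring

lemma lat3_neg {y : ℂ} (hy : y ∈ Lat3) : -y ∈ Lat3 := by
  obtain ⟨T, x, h, rfl⟩ := hy
  refine ⟨-T, -x, ?_, ?_⟩
  · have : -x - -T = -(x - T) := by ring
    rw [this]
    exact h.neg
  · apply Complex.ext
    · simp only [Complex.neg_re]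
      push_cast
      ring
    · simp only [Complex.neg_im]
      push_cast
      ring

lemma lat3_sub {y z : ℂ} (hy : y ∈ Lat3) (hz : z ∈ Lat3) : y - z ∈ Lat3 := by
  rw [sub_eq_add_neg]
  exact lat3_add hy (lat3_neg hz)

lemma ax_one_eq : ax 1 = ⟨-(1 / 2), Real.sqrt 3 / 2⟩ := by
  unfold ax step
  rw [pow_zero, one_mul]
  have e : 2 * (Real.pi : ℂ) * Complex.I * (((1 : Fin 3) : ℕ) : ℂ) / 3 = ((2 * Real.pi / 3 : ℝ) : ℂ) * Complex.I := by
    push_cast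
    simp
    ring
  rw [e, Complex.exp_mul_I, ← Complex.ofReal_cos, ← Complex.ofReal_sin]
  have hc : Real.cos (2 * Real.pi / 3) = -(1 / 2) := by
    rw [show 2 * Real.pi / 3 = Real.pi - Real.pi / 3 by ring, Real.cos_pi_sub, Real.cos_pi_div_three]
  have hsn : Real.sin (2 * Real.pi / 3) = Real.sqrt 3 / 2 := by
    rw [show 2 * Real.pi / 3 = Real.pi - Real.pi / 3 by ring, Real.sin_pi_sub, Real.sin_pi_div_three]
  rw [hc, hsn]
  apply Complex.ext <;> simp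

lemma lat3_om {y : ℂ} (hy : y ∈ Lat3) : ax 1 * y ∈ Lat3 := by
  obtain ⟨T, x, h, rfl⟩ := hy
  obtain ⟨k, hk⟩ := h
  have hx : x = T + (k + k) := by omega
  subst hx
  refine ⟨k, -(2 * T + k), ⟨-(T + k), by ring⟩, ?_⟩
  rw [ax_one_eq]
  have h3 : Real.sqrt 3 * Real.sqrt 3 = 3 := Real.mul_self_sqrt (by norm_num)
  apply Complex.ext
  · simp only [Complex.mul_re]
    push_cast
    linear_combination (((T : ℝ) + (k + k)) / 4) * h3
  · simp only [Complex.mul_im]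
    push_cast
    ring

lemma ax_two : ax 2 = ax 1 * ax 1 := by
  have h1 := ax_succ 0
  have h2 := ax_succ 1
  rw [zero_add, ax_zero, mul_one] at h1
  rw [show (1 : Fin 3) + 1 = 2 from rfl] at h2
  rw [h2, h1]

lemma ax_cube : ax 1 * (ax 1 * ax 1) = 1 := by
  rw [ax_one_eq]
  have h3 : Real.sqrt 3 * Real.sqrt 3 = 3 := Real.mul_self_sqrt (by norm_num)
  apply Complex.ext
  · simp only [Complex.mul_re, Complex.mul_im, Complex.one_re]
    linear_combination (3 / 8) * h3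
  · simp only [Complex.mul_re, Complex.mul_im, Complex.one_im]
    linear_combination (-(Real.sqrt 3) / 8) * h3

lemma lat3_ax (i : Fin 3) {y : ℂ} (hy : y ∈ Lat3) : ax i * y ∈ Lat3 := by
  fin_cases i
  · show ax 0 * y ∈ Lat3
    rw [ax_zero, one_mul]
    exact hy
  · exact lat3_om hy
  · show ax 2 * y ∈ Lat3
    rw [ax_two, mul_assoc]
    exact lat3_om (lat3_om hy)

/-- coordinates in the direction `i` -/
lemma lat3_coord (i : Fin 3) {y : ℂ} (hy : y ∈ Lat3) : ∃ T x : ℤ, Even (x - T) ∧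
    y = ax i * ⟨3 * T / 2, -(Real.sqrt 3 / 2 * x)⟩ := by
  have h1 : ∃ y' ∈ Lat3, y = ax i * y' := by
    fin_cases i
    · refine ⟨y, hy, ?_⟩
      show y = ax 0 * y
      rw [ax_zero, one_mul]
    · refine ⟨ax 1 * (ax 1 * y), lat3_om (lat3_om hy), ?_⟩
      show y = ax 1 * (ax 1 * (ax 1 * y))
      rw [← mul_assoc (ax 1) (ax 1) y, ← mul_assoc (ax 1) (ax 1 * ax 1) y, ax_cube, one_mul]
    · refine ⟨ax 1 * y, lat3_om hy, ?_⟩
      show y = ax 2 * (ax 1 * y)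
      rw [ax_two, mul_assoc, ← mul_assoc (ax 1) (ax 1) y, ← mul_assoc (ax 1) (ax 1 * ax 1) y, ax_cube, one_mul]
  obtain ⟨y', ⟨T, x, hp, rfl⟩, h2⟩ := h1
  exact ⟨T, x, hp, h2⟩

/-- the ends of the even words are in the lattice -/
lemma lat3_en_block (i : Fin 3) {T : ℕ} {x : ℤ} (hp : Even (x - T)) :
    ax i * ⟨3 * (T : ℝ) / 2, -(Real.sqrt 3 / 2 * x)⟩ ∈ Lat3 :=
  lat3_ax i ⟨T, x, hp, by push_cast; rfl⟩

lemma norm_ge (a b : ℝ) (u : ℝ) (h : ‖(⟨3 * a / 2, -(Real.sqrt 3 / 2 * b)⟩ : ℂ)‖ ≤ u) : |a| ≤ 2 / 3 * u ∧ |b| ≤ 6 / 5 * u := by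
  have h1 := (Complex.abs_re_le_norm (⟨3 * a / 2, -(Real.sqrt 3 / 2 * b)⟩ : ℂ)).trans h
  have h2 := (Complex.abs_im_le_norm (⟨3 * a / 2, -(Real.sqrt 3 / 2 * b)⟩ : ℂ)).trans h
  simp only at h1 h2
  have hu : 0 ≤ u := (norm_nonneg _).trans h
  constructor
  · have e : 3 * a / 2 = 3 / 2 * a := by ring
    rw [e, abs_mul, abs_of_pos (by norm_num : (0 : ℝ) < 3 / 2)] at h1
    linarith
  · rw [abs_neg, abs_mul, abs_of_pos (show (0 : ℝ) < Real.sqrt 3 / 2 by positivity)] at h2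
    have h3 : (5 : ℝ) / 3 ≤ Real.sqrt 3 := by
      rw [show (5 : ℝ) / 3 = Real.sqrt ((5 / 3) ^ 2) by rw [Real.sqrt_sq (by norm_num)]]
      exact Real.sqrt_le_sqrt (by norm_num)
    have h4 : 5 / 6 * |b| ≤ Real.sqrt 3 / 2 * |b| := mul_le_mul_of_nonneg_right (by linarith) (abs_nonneg b)
    linarith

lemma norm_up (a b : ℝ) : ‖(⟨3 * a / 2, -(Real.sqrt 3 / 2 * b)⟩ : ℂ)‖ ≤ 3 / 2 * |a| + |b| := by
  refine (Complex.norm_le_abs_re_add_abs_im _).trans ?_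
  simp only
  have h3 : Real.sqrt 3 ≤ 2 := by
    rw [show (2 : ℝ) = Real.sqrt (2 ^ 2) by rw [Real.sqrt_sq (by norm_num)]]
    exact Real.sqrt_le_sqrt (by norm_num)
  have e : 3 * a / 2 = 3 / 2 * a := by ring
  rw [e, abs_mul, abs_of_pos (by norm_num : (0 : ℝ) < 3 / 2), abs_neg, abs_mul,
    abs_of_pos (show (0 : ℝ) < Real.sqrt 3 / 2 by positivity)]
  have h4 : Real.sqrt 3 / 2 * |b| ≤ 1 * |b| := mul_le_mul_of_nonneg_right (by linarith) (abs_nonneg b)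
  linarith

/-- **two blocks with a given displacement, from below** -/
theorem two_low {i j : Fin 3} {m₁ m₂ : ℕ} {G₁ G₂ : Set W3} {κ₁ κ₂ : ℝ≥0∞} {τ₁ x₁ τ₂ x₂ r : ℝ} (hr : 100 ≤ r)
    (hτ₁ : r ≤ τ₁) (hτ₂ : r ≤ τ₂)
    (h₁ : ∀ (T : ℕ) (x : ℤ), |(T : ℝ) - τ₁| ≤ r → |(x : ℝ) - x₁| ≤ r → Even (x - T) →
      κ₁ ≤ gf {b | b ∈ FB m₁ ∧ b ∈ RP.EndB T x ∧ rt i (wl b) ∈ G₁})
    (h₂ : ∀ (T : ℕ) (x : ℤ), |(T : ℝ) - τ₂| ≤ r → |(x : ℝ) - x₂| ≤ r → Even (x - T) →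
      κ₂ ≤ gf {b | b ∈ FB m₂ ∧ b ∈ RP.EndB T x ∧ rt j (wl b) ∈ G₂})
    {d z : ℂ} (hl : z - d ∈ Lat3)
    (hz : ‖z - d - (ax i * ⟨3 * τ₁ / 2, -(Real.sqrt 3 / 2 * x₁)⟩ - ax j * ⟨3 * τ₂ / 2, -(Real.sqrt 3 / 2 * x₂)⟩)‖ ≤ r / 2) :
    ENNReal.ofReal (r ^ 2 / 10000) * (κ₁ * κ₂) ≤
      ∑' b₁ : Fbi i m₁, ∑' b₂ : Fbi j m₂,
        if d + en b₁.1 - en b₂.1 = z ∧ b₁.1 ∈ G₁ ∧ b₂.1 ∈ G₂ then wx b₁.1 * wx b₂.1 else 0 := by
  obtain ⟨k, hk⟩ : ∃ k : ℕ, k = ⌊r / 48⌋₊ := ⟨_, rfl⟩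
  have hku : (k : ℝ) ≤ r / 48 := by rw [hk]; exact Nat.floor_le (by positivity)
  have hkl : r / 100 ≤ k := by
    have h1 : r / 48 < k + 1 := by rw [hk]; exact Nat.lt_floor_add_one _
    have h2 : (2 : ℝ) ≤ k := by
      have : (2 : ℕ) ≤ k := by
        rw [hk]
        exact Nat.le_floor (by push_cast; linarith)
      exact_mod_cast this
    linarith
  -- the base point
  obtain ⟨T0, hT0⟩ : ∃ T0 : ℕ, T0 = ⌈τ₁⌉₊ := ⟨_, rfl⟩
  have hT0l : τ₁ ≤ T0 := by rw [hT0]; exact Nat.le_ceil _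
  have hT0u : (T0 : ℝ) < τ₁ + 1 := by rw [hT0]; exact Nat.ceil_lt_add_one (by linarith)
  obtain ⟨X0, hX0p, hX0l, hX0u⟩ : ∃ X0 : ℤ, Even (X0 - T0) ∧ x₁ ≤ X0 ∧ (X0 : ℝ) ≤ x₁ + 2 := by
    rcases Int.even_or_odd (⌈x₁⌉ - T0) with h | h
    · exact ⟨⌈x₁⌉, h, Int.le_ceil _, by linarith [Int.ceil_lt_add_one x₁]⟩
    · refine ⟨⌈x₁⌉ + 1, ?_, ?_, ?_⟩
      · have : ⌈x₁⌉ + 1 - (T0 : ℤ) = (⌈x₁⌉ - T0) + 1 := by ring
        rw [this]
        exact h.add_one
      · push_cast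
        linarith [Int.le_ceil x₁]
      · push_cast
        linarith [Int.ceil_lt_add_one x₁]
  -- the points
  let P : ℕ × ℕ → ℕ × ℤ := fun q => (T0 + q.1, X0 + 2 * q.2 + q.1)
  have hPinj : Function.Injective P := by
    rintro ⟨s, t⟩ ⟨s', t'⟩ h
    simp only [P, Prod.mk.injEq] at h
    obtain ⟨h1, h2⟩ := h
    have h3 : s = s' := by omega
    subst h3
    have h4 : t = t' := by omega
    rw [h4]
  obtain ⟨N, hN⟩ : ∃ N : Finset (ℕ × ℤ), N = (range k ×ˢ range k).image P := ⟨_, rfl⟩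
  have hNc : N.card = k * k := by
    rw [hN, Finset.card_image_of_injective _ hPinj, card_product, card_range]
  have hNp : ∀ q ∈ N, |(q.1 : ℝ) - τ₁| ≤ k + 1 ∧ |(q.2 : ℝ) - x₁| ≤ 3 * k + 2 ∧ Even (q.2 - q.1) := by
    intro q hq
    rw [hN, mem_image] at hq
    obtain ⟨⟨s, t⟩, hst, rfl⟩ := hq
    rw [mem_product, mem_range, mem_range] at hst
    have hs : (s : ℝ) ≤ k := by exact_mod_cast hst.1.le
    have ht : (t : ℝ) ≤ k := by exact_mod_cast hst.2.le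
    have hs0 : (0 : ℝ) ≤ s := by positivity
    have ht0 : (0 : ℝ) ≤ t := by positivity
    refine ⟨?_, ?_, ?_⟩
    · simp only [P]
      push_cast
      rw [abs_le]
      constructor <;> linarith
    · simp only [P]
      push_cast
      rw [abs_le]
      constructor <;> linarith
    · simp only [P]
      have : X0 + 2 * (t : ℤ) + s - ((T0 + s : ℕ) : ℤ) = (X0 - T0) + 2 * t := by
        push_cast
        ring
      rw [this]
      exact hX0p.add (even_two_mul _)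
  have hk1 : (k : ℝ) + 1 ≤ r := by linarith
  have hk3 : 3 * (k : ℝ) + 2 ≤ r := by linarith
  -- the sets of the first block
  let E : ℕ × ℤ → Set (List Bool) := fun q => {b | b ∈ FB m₁ ∧ b ∈ RP.EndB q.1 q.2 ∧ rt i (wl b) ∈ G₁}
  have hEdis : ∀ q q' b, b ∈ E q → b ∈ E q' → q = q' := by
    rintro ⟨T, x⟩ ⟨T', x'⟩ b h h'
    have e1 : T = T' := Brd_height h.2.1.1 h'.2.1.1
    have e2 : x = x' := h.2.1.2.symm.trans h'.2.1.2
    rw [e1, e2]
  have hen : ∀ {l : Fin 3} {T : ℕ} {x : ℤ} {b : List Bool}, b ∈ RP.EndB T x →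
      en (rt l (wl b)) = ax l * ⟨3 * (T : ℝ) / 2, -(Real.sqrt 3 / 2 * x)⟩ := by
    intro l T x b hb
    rw [en_rt_wl, hb.2, (mem_Brd.1 hb.1).2.2.2]
    push_cast
    rfl
  -- the inner sum
  have hinner : ∀ q ∈ N, ∀ b ∈ E q, κ₂ ≤ ∑' t₂ : FB m₂, wE t₂.1 *
      (if d + en (rt i (wl b)) - en (rt j (wl t₂.1)) = z ∧ rt j (wl t₂.1) ∈ G₂ then 1 else 0) := by
    intro q hq b hb
    obtain ⟨hq1, hq2, hq3⟩ := hNp q hq
    have hy1 := hen (l := i) hb.2.1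
    have hlat : d + en (rt i (wl b)) - z ∈ Lat3 := by
      have h1 : en (rt i (wl b)) ∈ Lat3 := by
        rw [hy1]
        exact lat3_en_block i hq3
      have h2 : d + en (rt i (wl b)) - z = en (rt i (wl b)) - (z - d) := by ring
      rw [h2]
      exact lat3_sub h1 hl
    obtain ⟨T2, x2, hp2, hy2⟩ := lat3_coord j hlat
    have hdist : ‖(⟨3 * ((T2 : ℝ) - τ₂) / 2, -(Real.sqrt 3 / 2 * ((x2 : ℝ) - x₂))⟩ : ℂ)‖ ≤ r / 2 + (3 / 2 * (k + 1) + (3 * k + 2)) := by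
      have h1 : (⟨3 * ((T2 : ℝ) - τ₂) / 2, -(Real.sqrt 3 / 2 * ((x2 : ℝ) - x₂))⟩ : ℂ) =
          conj (ax j) * (-(z - d - (ax i * ⟨3 * τ₁ / 2, -(Real.sqrt 3 / 2 * x₁)⟩ - ax j * ⟨3 * τ₂ / 2, -(Real.sqrt 3 / 2 * x₂)⟩)) +
            ax i * ⟨3 * ((q.1 : ℝ) - τ₁) / 2, -(Real.sqrt 3 / 2 * ((q.2 : ℝ) - x₁))⟩) := by
        have h2 : ax i * (⟨3 * ((q.1 : ℝ) - τ₁) / 2, -(Real.sqrt 3 / 2 * ((q.2 : ℝ) - x₁))⟩ : ℂ) =
            en (rt i (wl b)) - ax i * ⟨3 * τ₁ / 2, -(Real.sqrt 3 / 2 * x₁)⟩ := by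
          rw [hy1, ← mul_sub]
          congr 1
          apply Complex.ext
          · simp only [Complex.sub_re]
            ring
          · simp only [Complex.sub_im]
            ring
        have h3 : (⟨3 * ((T2 : ℝ) - τ₂) / 2, -(Real.sqrt 3 / 2 * ((x2 : ℝ) - x₂))⟩ : ℂ) =
            conj (ax j) * ((d + en (rt i (wl b)) - z) - ax j * ⟨3 * τ₂ / 2, -(Real.sqrt 3 / 2 * x₂)⟩) := by
          rw [hy2, ← mul_sub, ← mul_assoc, conj_ax, one_mul]
          apply Complex.ext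
          · simp only [Complex.sub_re]
            ring
          · simp only [Complex.sub_im]
            ring
        rw [h3, h2]
        congr 1
        ring
      rw [h1, norm_mul, RCLike.norm_conj, norm_ax, one_mul]
      refine (norm_add_le _ _).trans (add_le_add (by rw [norm_neg]; exact hz) ?_)
      rw [norm_mul, norm_ax, one_mul]
      exact (norm_up _ _).trans (add_le_add (mul_le_mul_of_nonneg_left hq1 (by norm_num)) hq2)
    obtain ⟨g1, g2⟩ := norm_ge _ _ _ hdist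
    have g1' : |(T2 : ℝ) - τ₂| ≤ r := g1.trans (by linarith)
    have g2' : |(x2 : ℝ) - x₂| ≤ r := g2.trans (by linarith)
    have hT2 : 0 ≤ T2 := by
      have : (0 : ℝ) ≤ T2 := by linarith [(abs_le.1 g1').1]
      exact_mod_cast this
    obtain ⟨T2', rfl⟩ := Int.eq_ofNat_of_zero_le hT2
    have hκ := h₂ T2' x2 (by simpa using g1') g2' (by simpa using hp2)
    refine hκ.trans ?_
    rw [HexObs.gf_ind, _root_.tsum_subtype (FB m₂) (fun t => wE t *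
      (if d + en (rt i (wl b)) - en (rt j (wl t)) = z ∧ rt j (wl t) ∈ G₂ then 1 else 0))]
    refine ENNReal.tsum_le_tsum fun t => ?_
    by_cases ht : t ∈ {b | b ∈ FB m₂ ∧ b ∈ RP.EndB T2' x2 ∧ rt j (wl b) ∈ G₂}
    · rw [if_pos ht, Set.indicator_of_mem ht.1, if_pos, mul_one]
      refine ⟨?_, ht.2.2⟩
      have h5 := hen (l := j) ht.2.1
      rw [h5]
      have h6 : d + en (rt i (wl b)) - z = ax j * ⟨3 * (T2' : ℝ) / 2, -(Real.sqrt 3 / 2 * x2)⟩ := by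
        rw [hy2]
        push_cast
        rfl
      rw [← h6]
      ring
    · rw [if_neg ht]
      exact zero_le
  -- the outer sum
  have h3 : ∑' b₁ : Fbi i m₁, ∑' b₂ : Fbi j m₂,
        (if d + en b₁.1 - en b₂.1 = z ∧ b₁.1 ∈ G₁ ∧ b₂.1 ∈ G₂ then wx b₁.1 * wx b₂.1 else 0) =
      ∑' t₁ : FB m₁, wE t₁.1 * (if rt i (wl t₁.1) ∈ G₁ then ∑' t₂ : FB m₂, wE t₂.1 *
        (if d + en (rt i (wl t₁.1)) - en (rt j (wl t₂.1)) = z ∧ rt j (wl t₂.1) ∈ G₂ then 1 else 0) else 0) := by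
    rw [← sum_Fbi i m₁ (fun w => if w ∈ G₁ then ∑' t₂ : FB m₂, wE t₂.1 *
      (if d + en w - en (rt j (wl t₂.1)) = z ∧ rt j (wl t₂.1) ∈ G₂ then 1 else 0) else 0)]
    refine tsum_congr fun b₁ => ?_
    rw [← sum_Fbi j m₂ (fun w => if d + en b₁.1 - en w = z ∧ w ∈ G₂ then 1 else 0)]
    by_cases hb : b₁.1 ∈ G₁
    · rw [if_pos hb, ← ENNReal.tsum_mul_left]
      refine tsum_congr fun b₂ => ?_
      by_cases hc : d + en b₁.1 - en b₂.1 = z ∧ b₂.1 ∈ G₂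
      · rw [if_pos ⟨hc.1, hb, hc.2⟩, if_pos hc, mul_one]
      · rw [if_neg (fun h => hc ⟨h.1, h.2.2⟩), if_neg hc, mul_zero, mul_zero]
    · rw [if_neg hb, mul_zero, ENNReal.tsum_eq_zero]
      intro b₂
      rw [if_neg (fun h => hb h.2.1)]
  rw [h3]
  have h4 : ∀ t₁ : FB m₁, ∑ q ∈ N, (if t₁.1 ∈ E q then wE t₁.1 * κ₂ else 0) ≤
      wE t₁.1 * (if rt i (wl t₁.1) ∈ G₁ then ∑' t₂ : FB m₂, wE t₂.1 *
        (if d + en (rt i (wl t₁.1)) - en (rt j (wl t₂.1)) = z ∧ rt j (wl t₂.1) ∈ G₂ then 1 else 0) else 0) := by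
    intro t₁
    by_cases hex : ∃ q ∈ N, t₁.1 ∈ E q
    · obtain ⟨q, hq, hqE⟩ := hex
      rw [Finset.sum_eq_single_of_mem q hq (fun q' _ hne => if_neg fun h => hne (hEdis q' q _ h hqE)), if_pos hqE,
        if_pos hqE.2.2]
      exact mul_le_mul_right (hinner q hq _ hqE) _
    · rw [Finset.sum_eq_zero fun q hq => if_neg fun h => hex ⟨q, hq, h⟩]
      exact zero_le
  refine le_trans ?_ (ENNReal.tsum_le_tsum h4)
  rw [Summable.tsum_finsetSum fun _ _ => ENNReal.summable]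
  have h5 : ∀ q ∈ N, κ₁ * κ₂ ≤ ∑' t₁ : FB m₁, (if t₁.1 ∈ E q then wE t₁.1 * κ₂ else 0) := by
    intro q hq
    obtain ⟨hq1, hq2, hq3⟩ := hNp q hq
    refine (mul_le_mul_left (h₁ q.1 q.2 (hq1.trans hk1) (hq2.trans hk3) hq3) _).trans (le_of_eq ?_)
    rw [HexObs.gf_ind, ← ENNReal.tsum_mul_right, _root_.tsum_subtype (FB m₁) (fun t => if t ∈ E q then wE t * κ₂ else 0)]
    refine tsum_congr fun t => ?_
    by_cases ht : t ∈ E q
    · rw [if_pos (show t ∈ {b | b ∈ FB m₁ ∧ b ∈ RP.EndB q.1 q.2 ∧ rt i (wl b) ∈ G₁} from ht),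
        Set.indicator_of_mem ht.1, if_pos ht]
    · rw [if_neg (show t ∉ {b | b ∈ FB m₁ ∧ b ∈ RP.EndB q.1 q.2 ∧ rt i (wl b) ∈ G₁} from ht), zero_mul]
      by_cases ht2 : t ∈ FB m₁
      · rw [Set.indicator_of_mem ht2, if_neg ht]
      · rw [Set.indicator_of_notMem ht2]
  refine le_trans ?_ (Finset.sum_le_sum h5)
  rw [Finset.sum_const, nsmul_eq_mul, hNc]
  refine mul_le_mul_left ?_ _
  rw [← ENNReal.ofReal_natCast]
  apply ENNReal.ofReal_le_ofReal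
  push_cast
  have h6 : r / 100 * (r / 100) ≤ (k : ℝ) * k := mul_le_mul hkl hkl (by positivity) (by positivity)
  linarith

lemma ax_two_eq : ax 2 = ⟨-(1 / 2), -(Real.sqrt 3 / 2)⟩ := by
  rw [ax_two, ax_one_eq]
  have h3 : Real.sqrt 3 * Real.sqrt 3 = 3 := Real.mul_self_sqrt (by norm_num)
  apply Complex.ext
  · simp only [Complex.mul_re]
    linear_combination (-(1 / 4)) * h3
  · simp only [Complex.mul_im]
    ring

lemma ax_cross {i j : Fin 3} (h : i ≠ j) : ((conj (ax j)) * ax i).im ^ 2 = 3 / 4 := by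
  have h3 : Real.sqrt 3 * Real.sqrt 3 = 3 := Real.mul_self_sqrt (by norm_num)
  have key : ∀ a b : ℂ, ((conj b) * a).im = b.re * a.im - b.im * a.re := by
    intro a b
    simp only [Complex.mul_im, Complex.conj_re, Complex.conj_im]
    ring
  rw [key]
  fin_cases i <;> fin_cases j <;> first | exact absurd rfl h | skip
  · show ((ax 1).re * (ax 0).im - (ax 1).im * (ax 0).re) ^ 2 = 3 / 4
    rw [ax_zero, ax_one_eq]
    simp only [Complex.one_re, Complex.one_im]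
    linear_combination (1 / 4) * h3
  · show ((ax 2).re * (ax 0).im - (ax 2).im * (ax 0).re) ^ 2 = 3 / 4
    rw [ax_zero, ax_two_eq]
    simp only [Complex.one_re, Complex.one_im]
    linear_combination (1 / 4) * h3
  · show ((ax 0).re * (ax 1).im - (ax 0).im * (ax 1).re) ^ 2 = 3 / 4
    rw [ax_zero, ax_one_eq]
    simp only [Complex.one_re, Complex.one_im]
    linear_combination (1 / 4) * h3
  · show ((ax 2).re * (ax 1).im - (ax 2).im * (ax 1).re) ^ 2 = 3 / 4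
    rw [ax_two_eq, ax_one_eq]
    simp only
    linear_combination (1 / 4) * h3
  · show ((ax 0).re * (ax 2).im - (ax 0).im * (ax 2).re) ^ 2 = 3 / 4
    rw [ax_zero, ax_two_eq]
    simp only [Complex.one_re, Complex.one_im]
    linear_combination (1 / 4) * h3
  · show ((ax 1).re * (ax 2).im - (ax 1).im * (ax 2).re) ^ 2 = 3 / 4
    rw [ax_two_eq, ax_one_eq]
    simp only
    linear_combination (1 / 4) * h3

/-- **every vector is a difference of two lateral vectors** -/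
theorem slopes_of {i j : Fin 3} (hij : i ≠ j) (v : ℂ) : ∃ a b : ℝ, |a| ≤ 2 * ‖v‖ ∧ |b| ≤ 2 * ‖v‖ ∧
    v = ax i * ⟨0, -(Real.sqrt 3 / 2 * a)⟩ - ax j * ⟨0, -(Real.sqrt 3 / 2 * b)⟩ := by
  have h3 : Real.sqrt 3 * Real.sqrt 3 = 3 := Real.mul_self_sqrt (by norm_num)
  have hs0 : (0 : ℝ) < Real.sqrt 3 := by positivity
  obtain ⟨D, hD⟩ : ∃ D : ℝ, D = ((conj (ax j)) * ax i).im := ⟨_, rfl⟩
  have hD2 : D ^ 2 = 3 / 4 := by rw [hD]; exact ax_cross hij
  have hD0 : D ≠ 0 := by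
    rintro rfl
    norm_num at hD2
  have hDa : |D| = Real.sqrt 3 / 2 := by
    rw [← Real.sqrt_sq_eq_abs, hD2, show (3 : ℝ) / 4 = (Real.sqrt 3 / 2) ^ 2 by nlinarith]
    exact Real.sqrt_sq (by positivity)
  -- w = (2 / √3) I v
  obtain ⟨w, hw⟩ : ∃ w : ℂ, w = ⟨-(2 / Real.sqrt 3 * v.im), 2 / Real.sqrt 3 * v.re⟩ := ⟨_, rfl⟩
  have hwn : ‖w‖ = 2 / Real.sqrt 3 * ‖v‖ := by
    have e : w = (((2 / Real.sqrt 3 : ℝ)) : ℂ) * (Complex.I * v) := by
      rw [hw]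
      apply Complex.ext
      · simp
      · simp
    rw [e, norm_mul, norm_mul, Complex.norm_I, one_mul, Complex.norm_real, Real.norm_eq_abs, abs_of_pos (by positivity)]
  have key : ∀ a b : ℂ, ((conj b) * a).im = b.re * a.im - b.im * a.re := by
    intro a b
    simp only [Complex.mul_im, Complex.conj_re, Complex.conj_im]
    ring
  have hbd : ∀ l : Fin 3, |((conj (ax l)) * w).im / D| ≤ 2 * ‖v‖ := by
    intro l
    rw [abs_div, hDa, div_le_iff₀ (by positivity)]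
    calc |((conj (ax l)) * w).im| ≤ ‖(conj (ax l)) * w‖ := Complex.abs_im_le_norm _
      _ = 2 / Real.sqrt 3 * ‖v‖ := by rw [norm_mul, RCLike.norm_conj, norm_ax, one_mul, hwn]
      _ ≤ 2 * ‖v‖ * (Real.sqrt 3 / 2) := by
        rw [div_mul_eq_mul_div, div_le_iff₀ hs0]
        have : 2 * ‖v‖ * (Real.sqrt 3 / 2) * Real.sqrt 3 = 3 * ‖v‖ := by linear_combination ‖v‖ * h3
        rw [this]
        linarith [norm_nonneg v]
  have hlin : (D : ℂ) * w = (((conj (ax j)) * w).im : ℂ) * ax i - (((conj (ax i)) * w).im : ℂ) * ax j := by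
    rw [hD]
    apply Complex.ext
    · simp only [Complex.mul_re, Complex.sub_re, Complex.ofReal_re, Complex.ofReal_im, key]
      ring
    · simp only [Complex.mul_im, Complex.sub_im, Complex.ofReal_re, Complex.ofReal_im, key]
      ring
  have hbj := hbd j
  have hbi := hbd i
  obtain ⟨P, hP⟩ : ∃ P : ℝ, P = ((conj (ax j)) * w).im := ⟨_, rfl⟩
  obtain ⟨Q, hQ⟩ : ∃ Q : ℝ, Q = ((conj (ax i)) * w).im := ⟨_, rfl⟩
  rw [← hP] at hbj hlin
  rw [← hQ] at hbi hlin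
  refine ⟨P / D, Q / D, hbj, hbi, ?_⟩
  have hre := congrArg Complex.re hlin
  have him := congrArg Complex.im hlin
  simp only [Complex.mul_re, Complex.sub_re, Complex.ofReal_re, Complex.ofReal_im, Complex.mul_im, Complex.sub_im] at hre him
  have e1 : v.im = -(Real.sqrt 3 / 2 * w.re) := by
    rw [hw]
    simp only
    field_simp
  have e2 : v.re = Real.sqrt 3 / 2 * w.im := by
    rw [hw]
    simp only
    field_simp
  apply Complex.ext
  · rw [e2]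
    simp only [Complex.sub_re, Complex.mul_re]
    field_simp
    linear_combination Real.sqrt 3 * him
  · rw [e1]
    simp only [Complex.sub_im, Complex.mul_im]
    field_simp
    linear_combination -Real.sqrt 3 * hre

end Pool.Agent.ROT.F3
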