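import Pool.Agent.ROT.F3LowK
import Pool.Agent.ROT.F3Len

/-!
# ROT / F3LowE (helper89): LOW with exceptional sets of blocks

* `two_pts` : many lattice points in a disc which are possible ends of both blocks;
* `gE A y` : weight of the words of `A` with the end `y`; `conv_ge`, `prod_le`;
* **`two_lowE`** : two blocks with a given displacement, which avoid exceptional sets of a small mass;
* **`lowE`** : LOW with prescribed slopes, weights and exceptional sets;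
* **`fbi_len`** : the blocks with more than `A m ^ (4 / 3)` letters have mass at most `ε`.
-/

set_option autoImplicit false

namespace Pool.Agent.ROT.F3

open Finset ComplexConjugate
open HexObs (oo up vx dx lev lat latE Brd BT Cut wE gf tf)
open HexObs.ROT.FP (FB)
open scoped ENNReal Classical

/-! ### 1. lattice points -/

/-- the point with the height `T` and the lateral coordinate `x`, axis `i` -/
noncomputable def pt (i : Fin 3) (T x : ℝ) : ℂ := ax i * ⟨3 * T / 2, -(Real.sqrt 3 / 2 * x)⟩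

/-- **many lattice points which are possible ends of both blocks** -/
theorem two_pts {i j : Fin 3} {τ₁ x₁ τ₂ x₂ r : ℝ} (hr : 100 ≤ r) (hτ₁ : r ≤ τ₁) (hτ₂ : r ≤ τ₂) {v : ℂ} (hl : v ∈ Lat3)
    (hz : ‖v - (pt i τ₁ x₁ - pt j τ₂ x₂)‖ ≤ r / 2) : ∃ N : Finset ℂ, r ^ 2 / 10000 ≤ N.card ∧ ∀ y ∈ N,
      (∃ (T : ℕ) (x : ℤ), |(T : ℝ) - τ₁| ≤ r ∧ |(x : ℝ) - x₁| ≤ r ∧ Even (x - T) ∧ y = pt i T x) ∧
      (∃ (T : ℕ) (x : ℤ), |(T : ℝ) - τ₂| ≤ r ∧ |(x : ℝ) - x₂| ≤ r ∧ Even (x - T) ∧ y - v = pt j T x) := by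
  obtain ⟨k, hk⟩ : ∃ k : ℕ, k = ⌊r / 48⌋₊ := ⟨_, rfl⟩
  have hku : (k : ℝ) ≤ r / 48 := by rw [hk]; exact Nat.floor_le (by positivity)
  have hkl : r / 100 ≤ k := by
    have h1 : r / 48 < k + 1 := by rw [hk]; exact Nat.lt_floor_add_one _
    have h2 : (2 : ℝ) ≤ k := by
      have : (2 : ℕ) ≤ k := by
        rw [hk]
        exact Nat.le_floor (by push_cast; linarith)
      exact_mod_cast this
    linarith
  -- the base point
  obtain ⟨T0, hT0⟩ : ∃ T0 : ℕ, T0 = ⌈τ₁⌉₊ := ⟨_, rfl⟩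
  have hT0l : τ₁ ≤ T0 := by rw [hT0]; exact Nat.le_ceil _
  have hT0u : (T0 : ℝ) < τ₁ + 1 := by rw [hT0]; exact Nat.ceil_lt_add_one (by linarith)
  obtain ⟨X0, hX0p, hX0l, hX0u⟩ : ∃ X0 : ℤ, Even (X0 - T0) ∧ x₁ ≤ X0 ∧ (X0 : ℝ) ≤ x₁ + 2 := by
    rcases Int.even_or_odd (⌈x₁⌉ - T0) with h | h
    · exact ⟨⌈x₁⌉, h, Int.le_ceil _, by linarith [Int.ceil_lt_add_one x₁]⟩
    · refine ⟨⌈x₁⌉ + 1, ?_, ?_, ?_⟩
      · have : ⌈x₁⌉ + 1 - (T0 : ℤ) = (⌈x₁⌉ - T0) + 1 := by ring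
        rw [this]
        exact h.add_one
      · push_cast
        linarith [Int.le_ceil x₁]
      · push_cast
        linarith [Int.ceil_lt_add_one x₁]
  -- the points
  let P : ℕ × ℕ → ℕ × ℤ := fun q => (T0 + q.1, X0 + 2 * q.2 + q.1)
  have hPinj : Function.Injective P := by
    rintro ⟨s, t⟩ ⟨s', t'⟩ h
    simp only [P, Prod.mk.injEq] at h
    obtain ⟨h1, h2⟩ := h
    have h3 : s = s' := by omega
    subst h3
    have h4 : t = t' := by omega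
    rw [h4]
  let F : ℕ × ℕ → ℂ := fun q => pt i (((P q).1 : ℕ) : ℝ) (((P q).2 : ℤ) : ℝ)
  have hFinj : Function.Injective F := by
    intro q q' h
    have h1 := mul_left_cancel₀ (ax_ne i) h
    have h2 := congrArg Complex.re h1
    have h3 := congrArg Complex.im h1
    simp only at h2 h3
    have h4 : Real.sqrt 3 ≠ 0 := by positivity
    have h5 : (((P q).1 : ℕ) : ℝ) = (((P q').1 : ℕ) : ℝ) := by linarith
    have h6 : Real.sqrt 3 * (((P q).2 : ℤ) : ℝ) = Real.sqrt 3 * (((P q').2 : ℤ) : ℝ) := by linarith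
    have h7 := mul_left_cancel₀ h4 h6
    exact hPinj (Prod.ext (by exact_mod_cast h5) (by exact_mod_cast h7))
  refine ⟨(range k ×ˢ range k).image F, ?_, fun y hy => ?_⟩
  · rw [Finset.card_image_of_injective _ hFinj, card_product, card_range]
    push_cast
    have h6 : r / 100 * (r / 100) ≤ (k : ℝ) * k := mul_le_mul hkl hkl (by positivity) (by positivity)
    linarith
  rw [mem_image] at hy
  obtain ⟨⟨s, t⟩, hst, rfl⟩ := hy
  rw [mem_product, mem_range, mem_range] at hst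
  have hs : (s : ℝ) ≤ k := by exact_mod_cast hst.1.le
  have ht : (t : ℝ) ≤ k := by exact_mod_cast hst.2.le
  have hs0 : (0 : ℝ) ≤ s := by positivity
  have ht0 : (0 : ℝ) ≤ t := by positivity
  obtain ⟨q, hq⟩ : ∃ q : ℕ × ℤ, q = P (s, t) := ⟨_, rfl⟩
  have hq1 : |(q.1 : ℝ) - τ₁| ≤ k + 1 := by
    rw [hq]
    simp only [P]
    push_cast
    rw [abs_le]
    constructor <;> linarith
  have hq2 : |(q.2 : ℝ) - x₁| ≤ 3 * k + 2 := by
    rw [hq]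
    simp only [P]
    push_cast
    rw [abs_le]
    constructor <;> linarith
  have hq3 : Even (q.2 - q.1) := by
    rw [hq]
    simp only [P]
    have : X0 + 2 * (t : ℤ) + s - ((T0 + s : ℕ) : ℤ) = (X0 - T0) + 2 * t := by
      push_cast
      ring
    rw [this]
    exact hX0p.add (even_two_mul _)
  have hF : F (s, t) = pt i q.1 q.2 := by
    rw [hq]
  rw [hF]
  have hk1 : (k : ℝ) + 1 ≤ r := by linarith
  have hk3 : 3 * (k : ℝ) + 2 ≤ r := by linarith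
  refine ⟨⟨q.1, q.2, hq1.trans hk1, hq2.trans hk3, hq3, rfl⟩, ?_⟩
  have hlat : pt i q.1 q.2 - v ∈ Lat3 := lat3_sub (lat3_en_block i hq3) hl
  obtain ⟨T2, x2, hp2, hy2⟩ := lat3_coord j hlat
  have hdist : ‖(⟨3 * ((T2 : ℝ) - τ₂) / 2, -(Real.sqrt 3 / 2 * ((x2 : ℝ) - x₂))⟩ : ℂ)‖ ≤ r / 2 + (3 / 2 * (k + 1) + (3 * k + 2)) := by
    have h1 : (⟨3 * ((T2 : ℝ) - τ₂) / 2, -(Real.sqrt 3 / 2 * ((x2 : ℝ) - x₂))⟩ : ℂ) =
        conj (ax j) * (-(v - (pt i τ₁ x₁ - pt j τ₂ x₂)) +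
          ax i * ⟨3 * ((q.1 : ℝ) - τ₁) / 2, -(Real.sqrt 3 / 2 * ((q.2 : ℝ) - x₁))⟩) := by
      have h2 : ax i * (⟨3 * ((q.1 : ℝ) - τ₁) / 2, -(Real.sqrt 3 / 2 * ((q.2 : ℝ) - x₁))⟩ : ℂ) =
          pt i q.1 q.2 - pt i τ₁ x₁ := by
        unfold pt
        rw [← mul_sub]
        congr 1
        apply Complex.ext
        · simp only [Complex.sub_re]
          ring
        · simp only [Complex.sub_im]
          ring
      have h3 : (⟨3 * ((T2 : ℝ) - τ₂) / 2, -(Real.sqrt 3 / 2 * ((x2 : ℝ) - x₂))⟩ : ℂ) =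
          conj (ax j) * ((pt i q.1 q.2 - v) - pt j τ₂ x₂) := by
        rw [hy2]
        unfold pt
        rw [← mul_sub, ← mul_assoc, conj_ax, one_mul]
        apply Complex.ext
        · simp only [Complex.sub_re]
          ring
        · simp only [Complex.sub_im]
          ring
      rw [h3, h2]
      congr 1
      ring
    rw [h1, norm_mul, RCLike.norm_conj, norm_ax, one_mul]
    refine (norm_add_le _ _).trans (add_le_add (by rw [norm_neg]; exact hz) ?_)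
    rw [norm_mul, norm_ax, one_mul]
    exact (norm_up _ _).trans (add_le_add (mul_le_mul_of_nonneg_left hq1 (by norm_num)) hq2)
  obtain ⟨g1, g2⟩ := norm_ge _ _ _ hdist
  have g1' : |(T2 : ℝ) - τ₂| ≤ r := g1.trans (by linarith)
  have g2' : |(x2 : ℝ) - x₂| ≤ r := g2.trans (by linarith)
  have hT2 : 0 ≤ T2 := by
    have : (0 : ℝ) ≤ T2 := by linarith [(abs_le.1 g1').1]
    exact_mod_cast this
  obtain ⟨T2', rfl⟩ := Int.eq_ofNat_of_zero_le hT2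
  refine ⟨T2', x2, by simpa using g1', g2', by simpa using hp2, ?_⟩
  rw [hy2]
  unfold pt
  push_cast
  rfl

/-! ### 2. weights with a given end -/

/-- the weight of the words of `A` with the end `y` -/
noncomputable def gE (A : Set W3) (y : ℂ) : ℝ≥0∞ := ∑' b : W3, if b ∈ A ∧ en b = y then wx b else 0

lemma sum_gE (A : Set W3) {ι : Type*} (N : Finset ι) (f : ι → ℂ) (hf : Set.InjOn f N) :
    ∑ y ∈ N, gE A (f y) ≤ ∑' b : W3, if b ∈ A then wx b else 0 := by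
  unfold gE
  rw [← Summable.tsum_finsetSum fun _ _ => ENNReal.summable]
  refine ENNReal.tsum_le_tsum fun b => ?_
  by_cases hex : ∃ y ∈ N, b ∈ A ∧ en b = f y
  · obtain ⟨y, hy, h1, h2⟩ := hex
    rw [Finset.sum_eq_single_of_mem y hy (fun y' hy' hne => if_neg fun h => hne (hf hy' hy (h.2.symm.trans h2))), if_pos ⟨h1, h2⟩,
      if_pos h1]
  · rw [Finset.sum_eq_zero fun y hy => if_neg fun h => hex ⟨y, hy, h⟩]
    exact zero_le

lemma gE_le_add {A B D : Set W3} (h : A ⊆ B ∪ D) (y : ℂ) : gE A y ≤ gE B y + gE D y := by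
  unfold gE
  rw [← ENNReal.tsum_add]
  refine ENNReal.tsum_le_tsum fun b => ?_
  by_cases h1 : b ∈ A ∧ en b = y
  · rw [if_pos h1]
    rcases h h1.1 with h2 | h2
    · rw [if_pos (show b ∈ B ∧ en b = y from ⟨h2, h1.2⟩)]
      exact le_self_add
    · rw [if_pos (show b ∈ D ∧ en b = y from ⟨h2, h1.2⟩)]
      exact le_add_self
  · rw [if_neg h1]
    exact zero_le

/-- the sum over the pairs with a given displacement -/
lemma conv_ge {A B : Set W3} (d z : ℂ) (N : Finset ℂ) : ∑ y ∈ N, gE A y * gE B (d + y - z) ≤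
    ∑' b : W3 × W3, if b.1 ∈ A ∧ b.2 ∈ B ∧ d + en b.1 - en b.2 = z then wx b.1 * wx b.2 else 0 := by
  have h1 : ∀ y ∈ N, gE A y * gE B (d + y - z) =
      ∑' b : W3 × W3, if (b.1 ∈ A ∧ en b.1 = y) ∧ (b.2 ∈ B ∧ en b.2 = d + y - z) then wx b.1 * wx b.2 else 0 := by
    intro y _
    unfold gE
    rw [← ENNReal.tsum_mul_right, ENNReal.tsum_prod']
    refine tsum_congr fun b₁ => ?_
    rw [← ENNReal.tsum_mul_left]
    refine tsum_congr fun b₂ => ?_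
    by_cases h2 : b₁ ∈ A ∧ en b₁ = y <;> by_cases h3 : b₂ ∈ B ∧ en b₂ = d + y - z
    · rw [if_pos h2, if_pos h3, if_pos ⟨h2, h3⟩]
    · rw [if_neg h3, mul_zero, if_neg fun h => h3 h.2]
    · rw [if_neg h2, zero_mul, if_neg fun h => h2 h.1]
    · rw [if_neg h2, zero_mul, if_neg fun h => h2 h.1]
  rw [Finset.sum_congr rfl h1, ← Summable.tsum_finsetSum fun _ _ => ENNReal.summable]
  refine ENNReal.tsum_le_tsum fun b => ?_
  by_cases hex : ∃ y ∈ N, (b.1 ∈ A ∧ en b.1 = y) ∧ (b.2 ∈ B ∧ en b.2 = d + y - z)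
  · obtain ⟨y, hy, h2, h3⟩ := hex
    rw [Finset.sum_eq_single_of_mem y hy (fun y' _ hne => if_neg fun h => hne (h.1.2.symm.trans h2.2)), if_pos ⟨h2, h3⟩,
      if_pos ⟨h2.1, h3.1, by rw [h3.2, h2.2]; ring⟩]
  · rw [Finset.sum_eq_zero fun y hy => if_neg fun h => hex ⟨y, hy, h⟩]
    exact zero_le

/-- the elementary inequality -/
lemma prod_le {κ₁ κ₂ a₁ a₂ b₁ b₂ : ℝ≥0∞} (h₁ : κ₁ ≤ a₁ + b₁) (h₂ : κ₂ ≤ a₂ + b₂) :
    κ₁ * κ₂ ≤ a₁ * a₂ + (κ₂ * b₁ + κ₁ * b₂) := by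
  obtain ⟨a, ha⟩ : ∃ a : ℝ≥0∞, a = min a₂ κ₂ := ⟨_, rfl⟩
  have h3 : κ₂ ≤ a + b₂ := by
    rw [ha]
    rcases le_total a₂ κ₂ with h | h
    · rw [min_eq_left h]
      exact h₂
    · rw [min_eq_right h]
      exact le_self_add
  have ha1 : a ≤ a₂ := by rw [ha]; exact min_le_left _ _
  have ha2 : a ≤ κ₂ := by rw [ha]; exact min_le_right _ _
  calc κ₁ * κ₂ ≤ κ₁ * (a + b₂) := mul_le_mul_right h3 _
    _ = κ₁ * a + κ₁ * b₂ := mul_add _ _ _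
    _ ≤ (a₁ + b₁) * a + κ₁ * b₂ := add_le_add (mul_le_mul_left h₁ _) le_rfl
    _ = a₁ * a + a * b₁ + κ₁ * b₂ := by ring
    _ ≤ a₁ * a₂ + κ₂ * b₁ + κ₁ * b₂ := by gcongr
    _ = _ := by rw [add_assoc]

/-- **two blocks with a given displacement, with exceptional sets** -/
theorem two_lowE {i j : Fin 3} {τ₁ x₁ τ₂ x₂ r : ℝ} (hr : 100 ≤ r) (hτ₁ : r ≤ τ₁) (hτ₂ : r ≤ τ₂) {κ₁ κ₂ ε₁ ε₂ : ℝ≥0∞}
    {A₁ A₂ B₁ B₂ G₁ G₂ : Set W3} (hA₁ : A₁ ⊆ G₁ ∪ B₁) (hA₂ : A₂ ⊆ G₂ ∪ B₂) (t₁ : κ₁ ≠ ∞) (t₂ : κ₂ ≠ ∞)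
    (h₁ : ∀ (T : ℕ) (x : ℤ), |(T : ℝ) - τ₁| ≤ r → |(x : ℝ) - x₁| ≤ r → Even (x - T) → κ₁ ≤ gE A₁ (pt i T x))
    (h₂ : ∀ (T : ℕ) (x : ℤ), |(T : ℝ) - τ₂| ≤ r → |(x : ℝ) - x₂| ≤ r → Even (x - T) → κ₂ ≤ gE A₂ (pt j T x))
    (hB₁ : (∑' b : W3, if b ∈ B₁ then wx b else 0) ≤ ε₁) (hB₂ : (∑' b : W3, if b ∈ B₂ then wx b else 0) ≤ ε₂)
    (hε₁ : ε₁ ≤ ENNReal.ofReal (r ^ 2 / 40000) * κ₁) (hε₂ : ε₂ ≤ ENNReal.ofReal (r ^ 2 / 40000) * κ₂)
    {d z : ℂ} (hl : z - d ∈ Lat3) (hz : ‖z - d - (pt i τ₁ x₁ - pt j τ₂ x₂)‖ ≤ r / 2) :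
    ENNReal.ofReal (r ^ 2 / 20000) * (κ₁ * κ₂) ≤
      ∑' b : W3 × W3, if b.1 ∈ G₁ ∧ b.2 ∈ G₂ ∧ d + en b.1 - en b.2 = z then wx b.1 * wx b.2 else 0 := by
  obtain ⟨N, hN, hp⟩ := two_pts hr hτ₁ hτ₂ hl hz
  have hN' : ENNReal.ofReal (r ^ 2 / 10000) ≤ (N.card : ℝ≥0∞) := by
    rw [← ENNReal.ofReal_natCast]
    exact ENNReal.ofReal_le_ofReal hN
  refine le_trans ?_ (conv_ge d z N)
  have h3 : ∀ y ∈ N, κ₁ * κ₂ ≤ gE G₁ y * gE G₂ (d + y - z) + (κ₂ * gE B₁ y + κ₁ * gE B₂ (d + y - z)) := by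
    intro y hy
    obtain ⟨⟨T, x, a1, a2, a3, a4⟩, T', x', a5, a6, a7, a8⟩ := hp y hy
    refine prod_le ?_ ?_
    · refine le_trans ?_ (gE_le_add hA₁ y)
      rw [a4]
      exact h₁ T x a1 a2 a3
    · refine le_trans ?_ (gE_le_add hA₂ _)
      rw [show d + y - z = y - (z - d) by ring, a8]
      exact h₂ T' x' a5 a6 a7
  have h4 := Finset.sum_le_sum h3
  rw [Finset.sum_const, nsmul_eq_mul, Finset.sum_add_distrib, Finset.sum_add_distrib, ← Finset.mul_sum, ← Finset.mul_sum] at h4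
  have h5 : ∑ y ∈ N, gE B₁ y ≤ ε₁ := (sum_gE B₁ N (fun y => y) (fun _ _ _ _ h => h)).trans hB₁
  have h6 : ∑ y ∈ N, gE B₂ (d + y - z) ≤ ε₂ := (sum_gE B₂ N (fun y => d + y - z) (fun y _ y' _ h => by
    simp only at h
    linear_combination h)).trans hB₂
  have h7 : ENNReal.ofReal (r ^ 2 / 10000) * (κ₁ * κ₂) ≤ ∑ y ∈ N, gE G₁ y * gE G₂ (d + y - z) +
      ENNReal.ofReal (r ^ 2 / 20000) * (κ₁ * κ₂) := by
    refine (mul_le_mul_left hN' _).trans (h4.trans (add_le_add le_rfl ?_))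
    calc κ₂ * ∑ y ∈ N, gE B₁ y + κ₁ * ∑ y ∈ N, gE B₂ (d + y - z)
        ≤ κ₂ * (ENNReal.ofReal (r ^ 2 / 40000) * κ₁) + κ₁ * (ENNReal.ofReal (r ^ 2 / 40000) * κ₂) :=
          add_le_add (mul_le_mul_right (h5.trans hε₁) _) (mul_le_mul_right (h6.trans hε₂) _)
      _ = (ENNReal.ofReal (r ^ 2 / 40000) + ENNReal.ofReal (r ^ 2 / 40000)) * (κ₁ * κ₂) := by ring
      _ = ENNReal.ofReal (r ^ 2 / 20000) * (κ₁ * κ₂) := by
        rw [← ENNReal.ofReal_add (by positivity) (by positivity)]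
        congr 2
        ring
  have h8 : ENNReal.ofReal (r ^ 2 / 10000) * (κ₁ * κ₂) = ENNReal.ofReal (r ^ 2 / 20000) * (κ₁ * κ₂) +
      ENNReal.ofReal (r ^ 2 / 20000) * (κ₁ * κ₂) := by
    rw [← add_mul, ← ENNReal.ofReal_add (by positivity) (by positivity)]
    congr 2
    ring
  rw [h8] at h7
  exact (ENNReal.add_le_add_iff_right (ENNReal.mul_ne_top ENNReal.ofReal_ne_top (ENNReal.mul_ne_top t₁ t₂))).1 h7

/-! ### 3. blocks -/

/-- the blocks of `G` -/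
def FG (i : Fin 3) (m : ℕ) (G : Set W3) : Set W3 := {b | b ∈ Fbi i m ∧ b ∈ G}

lemma sum_FG (i : Fin 3) (m : ℕ) (G : Set W3) : (∑' b : W3, if b ∈ FG i m G then wx b else 0) =
    ∑' b : W3, if b ∈ Fbi i m ∧ b ∈ G then wx b else 0 := by
  refine tsum_congr fun b => ?_
  by_cases h : b ∈ Fbi i m ∧ b ∈ G
  · rw [if_pos h, if_pos (show b ∈ FG i m G from h)]
  · rw [if_neg h, if_neg (show b ∉ FG i m G from h)]

/-- the blocks with a given end, as words -/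
lemma gE_ge {i : Fin 3} {m T : ℕ} {x : ℤ} {G : Set W3} :
    gf {b | b ∈ FB m ∧ b ∈ HexObs.RP.EndB T x ∧ rt i (wl b) ∈ G} ≤ gE (FG i m G) (pt i T x) := by
  have h1 : gE (FG i m G) (pt i T x) = ∑' w : Fbi i m, wx w.1 * (if w.1 ∈ G ∧ en w.1 = pt i T x then 1 else 0) := by
    unfold gE
    rw [_root_.tsum_subtype (Fbi i m) fun w => wx w * (if w ∈ G ∧ en w = pt i T x then 1 else 0)]
    refine tsum_congr fun w => ?_
    by_cases hw : w ∈ Fbi i m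
    · rw [Set.indicator_of_mem hw]
      by_cases h2 : w ∈ G ∧ en w = pt i T x
      · rw [if_pos h2, mul_one, if_pos ⟨⟨hw, h2.1⟩, h2.2⟩]
      · rw [if_neg h2, mul_zero, if_neg fun h => h2 ⟨h.1.2, h.2⟩]
    · rw [Set.indicator_of_notMem hw, if_neg fun h => hw h.1.1]
  rw [h1, sum_Fbi i m fun w => if w ∈ G ∧ en w = pt i T x then 1 else 0, HexObs.gf_ind,
    _root_.tsum_subtype (FB m) fun t => wE t * (if rt i (wl t) ∈ G ∧ en (rt i (wl t)) = pt i T x then 1 else 0)]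
  refine ENNReal.tsum_le_tsum fun t => ?_
  by_cases ht : t ∈ {b | b ∈ FB m ∧ b ∈ HexObs.RP.EndB T x ∧ rt i (wl b) ∈ G}
  · rw [if_pos ht, Set.indicator_of_mem ht.1, if_pos, mul_one]
    refine ⟨ht.2.2, ?_⟩
    rw [en_rt_wl, ht.2.1.2, (HexObs.mem_Brd.1 ht.2.1.1).2.2.2]
    unfold pt
    push_cast
    rfl
  · rw [if_neg ht]
    exact zero_le

/-- **the blocks with many letters** -/
theorem fbi_len {ε : ℝ} (hε : 0 < ε) : ∃ A : ℝ, 0 < A ∧ ∀ (i : Fin 3) (m : ℕ), 1 ≤ m →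
    (∑' b : W3, if b ∈ Fbi i m ∧ A * (m : ℝ) ^ (4 / 3 : ℝ) < (b.length : ℝ) then wx b else 0) ≤ ENNReal.ofReal ε := by
  obtain ⟨A, hA, h⟩ := HexObs.ROT.FP.fb_len hε
  refine ⟨A, hA, fun i m hm => le_trans (le_of_eq ?_) (h m hm)⟩
  have h1 : (∑' b : W3, if b ∈ Fbi i m ∧ A * (m : ℝ) ^ (4 / 3 : ℝ) < (b.length : ℝ) then wx b else 0) =
      ∑' w : Fbi i m, wx w.1 * (if A * (m : ℝ) ^ (4 / 3 : ℝ) < (w.1.length : ℝ) then 1 else 0) := by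
    rw [_root_.tsum_subtype (Fbi i m) fun w => wx w * (if A * (m : ℝ) ^ (4 / 3 : ℝ) < (w.length : ℝ) then 1 else 0)]
    refine tsum_congr fun w => ?_
    by_cases hw : w ∈ Fbi i m
    · rw [Set.indicator_of_mem hw]
      by_cases h2 : A * (m : ℝ) ^ (4 / 3 : ℝ) < (w.length : ℝ)
      · rw [if_pos h2, mul_one, if_pos ⟨hw, h2⟩]
      · rw [if_neg h2, mul_zero, if_neg fun h => h2 h.2]
    · rw [Set.indicator_of_notMem hw, if_neg fun h => hw h.1]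
  rw [h1, sum_Fbi i m fun w => if A * (m : ℝ) ^ (4 / 3 : ℝ) < (w.length : ℝ) then 1 else 0, HexObs.gf_ind,
    _root_.tsum_subtype (FB m) fun t => wE t * (if A * (m : ℝ) ^ (4 / 3 : ℝ) < ((rt i (wl t)).length : ℝ) then 1 else 0)]
  refine tsum_congr fun t => ?_
  by_cases ht : t ∈ FB m
  · rw [Set.indicator_of_mem ht, rt_length, wl_length]
    by_cases h2 : A * (m : ℝ) ^ (4 / 3 : ℝ) < (t.length : ℝ)
    · rw [if_pos h2, mul_one, if_pos (show t ∈ {k | k ∈ FB m ∧ A * (m : ℝ) ^ (4 / 3 : ℝ) < (k.length : ℝ)} from ⟨ht, h2⟩)]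
    · rw [if_neg h2, mul_zero, if_neg fun h => h2 h.2]
  · rw [Set.indicator_of_notMem ht, if_neg fun h => ht h.1]

/-! ### 4. LOW -/

/-- **the sum over the starts, weights** (pairs of blocks) -/
theorem gam_startsP {i j : Fin 3} {m : ℕ} (hm : 1 ≤ m) {κ : ℝ≥0∞} {l l' : ℝ} {z : ℂ} {C St : Set (W3 × W3)}
    {e e0 : W3 × W3 → ℝ≥0∞} {G₁ G₂ : W3 × W3 → Set W3}
    (hev : ∀ a ∈ St, Even a.1.length ∧ Even a.2.length)
    (hl1 : ∀ a ∈ St, (∀ k : ℕ, k ≤ a.1.length → lv (ax i) (ps a.1 k) ≤ lv (ax i) (en a.1)) ∧ FstC (ax i) l a.1)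
    (hl2 : ∀ a ∈ St, (∀ k : ℕ, k ≤ a.2.length → lv (ax j) (ps a.2 k) ≤ lv (ax j) (en a.2)) ∧ FstC (ax j) l' a.2)
    (hC : ∀ a ∈ St, ∀ b ∈ Fbi i m, ∀ b' ∈ Fbi j m, b ∈ G₁ a → b' ∈ G₂ a → (a.1 ++ b, a.2 ++ b') ∈ C ∧ e0 a ≤ e (a.1 ++ b, a.2 ++ b'))
    (hκ : ∀ a ∈ St, κ ≤ ∑' b : W3 × W3, if b.1 ∈ FG i m (G₁ a) ∧ b.2 ∈ FG j m (G₂ a) ∧
      (en a.1 - en a.2) + en b.1 - en b.2 = z then wx b.1 * wx b.2 else 0) :
    κ * (∑' a : W3 × W3, if a ∈ St then wx a.1 * wx a.2 * e0 a else 0) ≤ gam C e z := by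
  refine gam_startsW hm hev hl1 hl2 hC fun a ha => (hκ a ha).trans (le_of_eq ?_)
  have h1 : ∀ b₁ : Fbi i m, ∑' b₂ : Fbi j m, (if (en a.1 - en a.2) + en b₁.1 - en b₂.1 = z ∧ b₁.1 ∈ G₁ a ∧ b₂.1 ∈ G₂ a
      then wx b₁.1 * wx b₂.1 else 0) = ∑' b₂ : W3, if b₂ ∈ Fbi j m ∧ ((en a.1 - en a.2) + en b₁.1 - en b₂ = z ∧ b₁.1 ∈ G₁ a ∧
        b₂ ∈ G₂ a) then wx b₁.1 * wx b₂ else 0 := by
    intro b₁
    rw [_root_.tsum_subtype (Fbi j m) fun b₂ => if (en a.1 - en a.2) + en b₁.1 - en b₂ = z ∧ b₁.1 ∈ G₁ a ∧ b₂ ∈ G₂ a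
      then wx b₁.1 * wx b₂ else 0]
    refine tsum_congr fun b₂ => ?_
    by_cases h2 : b₂ ∈ Fbi j m
    · rw [Set.indicator_of_mem h2]
      simp only [h2, true_and]
    · rw [Set.indicator_of_notMem h2, if_neg fun h => h2 h.1]
  rw [tsum_congr h1, _root_.tsum_subtype (Fbi i m) fun b₁ => ∑' b₂ : W3, if b₂ ∈ Fbi j m ∧ ((en a.1 - en a.2) + en b₁ - en b₂ = z ∧
    b₁ ∈ G₁ a ∧ b₂ ∈ G₂ a) then wx b₁ * wx b₂ else 0, ENNReal.tsum_prod']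
  refine tsum_congr fun b₁ => ?_
  by_cases h2 : b₁ ∈ Fbi i m
  · rw [Set.indicator_of_mem h2]
    refine tsum_congr fun b₂ => ?_
    have h3 : ((b₁, b₂).1 ∈ FG i m (G₁ a) ∧ (b₁, b₂).2 ∈ FG j m (G₂ a) ∧
        en a.1 - en a.2 + en (b₁, b₂).1 - en (b₁, b₂).2 = z) ↔
        (b₂ ∈ Fbi j m ∧ (en a.1 - en a.2 + en b₁ - en b₂ = z ∧ b₁ ∈ G₁ a ∧ b₂ ∈ G₂ a)) :=
      ⟨fun h => ⟨h.2.1.1, h.2.2, h.1.2, h.2.1.2⟩, fun h => ⟨⟨h2, h.2.2.1⟩, ⟨h.1, h.2.2.2⟩, h.2.1⟩⟩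
    by_cases h4 : b₂ ∈ Fbi j m ∧ (en a.1 - en a.2 + en b₁ - en b₂ = z ∧ b₁ ∈ G₁ a ∧ b₂ ∈ G₂ a)
    · rw [if_pos (h3.2 h4), if_pos h4]
    · rw [if_neg fun h => h4 (h3.1 h), if_neg h4]
  · rw [Set.indicator_of_notMem h2, ENNReal.tsum_eq_zero]
    intro b₂
    exact if_neg fun h => h2 h.1.1

/-- **LOW, with prescribed slopes, weights and exceptional sets** -/
theorem lowE (R : ℕ) {η : ℝ} (hη : 0 < η) : ∃ (c ε : ℝ) (m0 : ℕ), 0 < c ∧ 0 < ε ∧ 1 ≤ m0 ∧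
    ∀ {i j : Fin 3}, i ≠ j → ∀ m : ℕ, m0 ≤ m →
    ∀ (l l' S σ σ' : ℝ) (z : ℂ) (C St : Set (W3 × W3)) (e e0 : W3 × W3 → ℝ≥0∞) (B B' : Set W3), z ∈ Lat3 →
    Real.sqrt 3 * |σ| + 2 * (S + 5 * η) ≤ R → Real.sqrt 3 * |σ'| + 2 * (S + 5 * η) ≤ R →
    (∑' b : W3, if b ∈ Fbi i m ∧ b ∈ B then wx b else 0) ≤ ENNReal.ofReal ε →
    (∑' b : W3, if b ∈ Fbi j m ∧ b ∈ B' then wx b else 0) ≤ ENNReal.ofReal ε →
    (∀ a ∈ St, Even a.1.length ∧ Even a.2.length) →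
    (∀ a ∈ St, (∀ k : ℕ, k ≤ a.1.length → lv (ax i) (ps a.1 k) ≤ lv (ax i) (en a.1)) ∧ FstC (ax i) l a.1) →
    (∀ a ∈ St, (∀ k : ℕ, k ≤ a.2.length → lv (ax j) (ps a.2 k) ≤ lv (ax j) (en a.2)) ∧ FstC (ax j) l' a.2) →
    (∀ a ∈ St, ‖z - (en a.1 - en a.2) - ((3 / 2 * m : ℝ) : ℂ) *
      (ax i * (1 - (σ : ℂ) * Complex.I) - ax j * (1 - (σ' : ℂ) * Complex.I))‖ ≤ S * m) →
    (∀ a ∈ St, ∀ (s s' : ℝ) (b b' : W3), Real.sqrt 3 * |s - σ| ≤ 2 * (S + 5 * η) → Real.sqrt 3 * |s' - σ'| ≤ 2 * (S + 5 * η) →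
      GBk i m η s b → GBk j m η s' b' → b ∉ B → b' ∉ B' → (a.1 ++ b, a.2 ++ b') ∈ C ∧ e0 a ≤ e (a.1 ++ b, a.2 ++ b')) →
    ENNReal.ofReal (c / (m : ℝ) ^ 2) * (∑' a : W3 × W3, if a ∈ St then wx a.1 * wx a.2 * e0 a else 0) ≤ gam C e z := by
  obtain ⟨α, c, m1, h1, h2, h3, h4, h5⟩ := blkL_of R hη
  obtain ⟨m2, hm2⟩ : ∃ m2 : ℕ, 200 / α ≤ m2 := ⟨⌈200 / α⌉₊, Nat.le_ceil _⟩
  refine ⟨α ^ 2 * c ^ 2 / 80000, α ^ 2 * c / 160000, m1 + m2, by positivity, by positivity, by omega,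
    fun {i j} hij m hm l l' S σ σ' z C St e e0 B B' hz hS hS' hB hB' hev hl1 hl2 hre hC => ?_⟩
  have hm1 : 1 ≤ m := by omega
  have hm' : (1 : ℝ) ≤ m := by exact_mod_cast hm1
  have hmα : 200 ≤ α * m := by
    have h6 : (m2 : ℝ) ≤ m := by exact_mod_cast (by omega : m2 ≤ m)
    rw [div_le_iff₀ h1] at hm2
    nlinarith
  have p3 : 0 < Real.sqrt 3 := Real.sqrt_pos.2 (by norm_num)
  have q3 : Real.sqrt 3 * Real.sqrt 3 = 3 := Real.mul_self_sqrt (by norm_num)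
  obtain ⟨τ, hτ⟩ : ∃ τ : ℝ, τ = (1 + 3 / 2 * α) * m := ⟨_, rfl⟩
  obtain ⟨r, hr⟩ : ∃ r : ℝ, r = α * m / 2 := ⟨_, rfl⟩
  have hrτ : r ≤ τ := by
    rw [hr, hτ]
    nlinarith
  -- one block
  have blk : ∀ (i : Fin 3) (s x1 : ℝ), Real.sqrt 3 * |s| ≤ R → Real.sqrt 3 * s * m = x1 → ∀ (T : ℕ) (x : ℤ),
      |(T : ℝ) - τ| ≤ r → |(x : ℝ) - x1| ≤ r → Even (x - T) → ENNReal.ofReal (c / (m : ℝ) ^ 2) ≤
        gE (FG i m {b | GBk i m η s b}) (pt i T x) := by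
    intro i s x1 hs hx1 T x hT hx hp
    rw [abs_le] at hT
    have t1 : (1 + α) * m ≤ T := by linarith [hT.1]
    have t2 : (T : ℝ) ≤ (1 + 2 * α) * m := by linarith [hT.2]
    refine ((h5 (fun t => Real.sqrt 3 * s * t) (fun a b => ?_) (by simp) m T x (by omega) t1 t2 ?_ hp).trans
      (HexObs.gf_mono fun b hb => ?_)).trans (gE_ge (i := i) (m := m) (T := T) (x := x) (G := {b | GBk i m η s b}))
    · rw [← mul_sub, abs_mul, abs_mul, abs_of_pos p3]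
      exact mul_le_mul_of_nonneg_right hs (abs_nonneg _)
    · rw [hx1]
      refine hx.trans ?_
      rw [hr]
      nlinarith
    · obtain ⟨g1, g2, g3, g4, g5⟩ := hb
      exact ⟨g1, ⟨g2, g3⟩, gbk_of hm1 h2 t2 g1 g2 g4 g5⟩
  -- the two blocks
  have key : ∀ a : W3 × W3, ∃ s1 s2 : ℝ, a ∈ St → (Real.sqrt 3 * |s1 - σ| ≤ 2 * (S + 5 * η) ∧
      Real.sqrt 3 * |s2 - σ'| ≤ 2 * (S + 5 * η) ∧
      ENNReal.ofReal (α ^ 2 * c ^ 2 / 80000 / (m : ℝ) ^ 2) ≤ ∑' b : W3 × W3,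
        if b.1 ∈ FG i m {b | GBk i m η s1 b ∧ b ∉ B} ∧ b.2 ∈ FG j m {b | GBk j m η s2 b ∧ b ∉ B'} ∧
          (en a.1 - en a.2) + en b.1 - en b.2 = z then wx b.1 * wx b.2 else 0) := by
    intro a
    by_cases ha : a ∈ St
    swap
    · exact ⟨0, 0, fun h => absurd h ha⟩
    obtain ⟨v, hv⟩ : ∃ v : ℂ, v = z - (en a.1 - en a.2) - ((3 / 2 * τ : ℝ) : ℂ) * (ax i - ax j) +
      ((3 / 2 * m : ℝ) : ℂ) * (ax i * ((σ : ℂ) * Complex.I) - ax j * ((σ' : ℂ) * Complex.I)) := ⟨_, rfl⟩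
    obtain ⟨x1, x2, k1, k2, k3⟩ := slopes_of hij v
    have hvn : ‖v‖ ≤ (S + 5 * η) * m := by
      have e1 : v = (z - (en a.1 - en a.2) - ((3 / 2 * m : ℝ) : ℂ) *
          (ax i * (1 - (σ : ℂ) * Complex.I) - ax j * (1 - (σ' : ℂ) * Complex.I))) -
          ((9 / 4 * (α * m) : ℝ) : ℂ) * (ax i - ax j) := by
        rw [hv, hτ]
        push_cast
        ring
      have e2 : ‖((9 / 4 * (α * m) : ℝ) : ℂ) * (ax i - ax j)‖ ≤ 9 / 4 * (α * m) * 2 := by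
        rw [norm_mul, Complex.norm_real, Real.norm_of_nonneg (by positivity)]
        refine mul_le_mul_of_nonneg_left ?_ (by positivity)
        refine (norm_sub_le _ _).trans ?_
        rw [norm_ax, norm_ax]
        norm_num
      rw [e1]
      refine (norm_sub_le _ _).trans ?_
      have e3 := hre a ha
      nlinarith
    have hs : ∀ x y : ℝ, |x| ≤ 2 * ‖v‖ → Real.sqrt 3 * |(y + x / (Real.sqrt 3 * m)) - y| ≤ 2 * (S + 5 * η) ∧
        Real.sqrt 3 * (y + x / (Real.sqrt 3 * m)) * m = Real.sqrt 3 * y * m + x := by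
      intro x y hx
      have hpos : 0 < Real.sqrt 3 * m := by positivity
      constructor
      · rw [add_sub_cancel_left, abs_div, abs_of_pos hpos]
        have e4 : Real.sqrt 3 * (|x| / (Real.sqrt 3 * m)) = |x| / m := by
          field_simp
        rw [e4, div_le_iff₀ (by linarith)]
        linarith
      · field_simp
    have hR : ∀ s y : ℝ, Real.sqrt 3 * |s - y| ≤ 2 * (S + 5 * η) → Real.sqrt 3 * |y| + 2 * (S + 5 * η) ≤ R →
        Real.sqrt 3 * |s| ≤ R := by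
      intro s y hsy hy
      have h6 : |s| ≤ |s - y| + |y| := by
        have := abs_add_le (s - y) y
        rwa [sub_add_cancel] at this
      have h7 := mul_le_mul_of_nonneg_left h6 p3.le
      rw [mul_add] at h7
      linarith
    obtain ⟨a1, a2⟩ := hs x1 σ k1
    obtain ⟨a3, a4⟩ := hs x2 σ' k2
    refine ⟨σ + x1 / (Real.sqrt 3 * m), σ' + x2 / (Real.sqrt 3 * m), fun _ => ⟨a1, a3, ?_⟩⟩
    have hε : ENNReal.ofReal (α ^ 2 * c / 160000) ≤ ENNReal.ofReal (r ^ 2 / 40000) * ENNReal.ofReal (c / (m : ℝ) ^ 2) := by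
      rw [← ENNReal.ofReal_mul (by positivity)]
      refine ENNReal.ofReal_le_ofReal (le_of_eq ?_)
      rw [hr]
      field_simp
      ring
    have t := two_lowE (i := i) (j := j) (A₁ := FG i m {b | GBk i m η (σ + x1 / (Real.sqrt 3 * m)) b})
      (A₂ := FG j m {b | GBk j m η (σ' + x2 / (Real.sqrt 3 * m)) b})
      (B₁ := FG i m B) (B₂ := FG j m B')
      (G₁ := FG i m {b | GBk i m η (σ + x1 / (Real.sqrt 3 * m)) b ∧ b ∉ B})
      (G₂ := FG j m {b | GBk j m η (σ' + x2 / (Real.sqrt 3 * m)) b ∧ b ∉ B'})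
      (κ₁ := ENNReal.ofReal (c / (m : ℝ) ^ 2)) (κ₂ := ENNReal.ofReal (c / (m : ℝ) ^ 2))
      (ε₁ := ENNReal.ofReal (α ^ 2 * c / 160000)) (ε₂ := ENNReal.ofReal (α ^ 2 * c / 160000))
      (τ₁ := τ) (x₁ := Real.sqrt 3 * σ * m + x1) (τ₂ := τ) (x₂ := Real.sqrt 3 * σ' * m + x2) (r := r)
      (by rw [hr]; linarith) hrτ hrτ
      (fun b hb => by
        by_cases h6 : b ∈ B
        · exact Or.inr ⟨hb.1, h6⟩
        · exact Or.inl ⟨hb.1, hb.2, h6⟩)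
      (fun b hb => by
        by_cases h6 : b ∈ B'
        · exact Or.inr ⟨hb.1, h6⟩
        · exact Or.inl ⟨hb.1, hb.2, h6⟩)
      ENNReal.ofReal_ne_top ENNReal.ofReal_ne_top (blk i _ _ (hR _ _ a1 hS) a2) (blk j _ _ (hR _ _ a3 hS') a4)
      ((sum_FG i m B).trans_le hB) ((sum_FG j m B').trans_le hB') hε hε
      (d := en a.1 - en a.2) (z := z) (lat3_sub hz (lat3_sub (lat3_en (hev a ha).1) (lat3_en (hev a ha).2))) (by
        have e5 : z - (en a.1 - en a.2) - (pt i τ (Real.sqrt 3 * σ * m + x1) - pt j τ (Real.sqrt 3 * σ' * m + x2)) = 0 := by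
          have e6 : ∀ x y : ℝ, (⟨3 * τ / 2, -(Real.sqrt 3 / 2 * (Real.sqrt 3 * y * m + x))⟩ : ℂ) = ((3 / 2 * τ : ℝ) : ℂ) +
              ⟨0, -(Real.sqrt 3 / 2 * x)⟩ - ((3 / 2 * m : ℝ) : ℂ) * ((y : ℂ) * Complex.I) := by
            intro x y
            apply Complex.ext
            · simp
              ring
            · simp
              linear_combination (-(y * m / 2)) * q3
          unfold pt
          rw [e6, e6]
          have e7 : z - (en a.1 - en a.2) = v + ((3 / 2 * τ : ℝ) : ℂ) * (ax i - ax j) -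
              ((3 / 2 * m : ℝ) : ℂ) * (ax i * ((σ : ℂ) * Complex.I) - ax j * ((σ' : ℂ) * Complex.I)) := by
            rw [hv]
            ring
          rw [e7]
          linear_combination k3
        rw [e5, norm_zero]
        rw [hr]
        positivity)
    refine le_trans (le_of_eq ?_) t
    rw [← ENNReal.ofReal_mul (by positivity), ← ENNReal.ofReal_mul (by positivity)]
    congr 1
    rw [hr]
    field_simp
    ring
  choose f1 f2 hf using key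
  refine gam_startsP (i := i) (j := j) (m := m) hm1 (l := l) (l' := l') (G₁ := fun a => {b | GBk i m η (f1 a) b ∧ b ∉ B})
    (G₂ := fun a => {b | GBk j m η (f2 a) b ∧ b ∉ B'}) hev hl1 hl2 (fun a ha b _ b' _ g g' => ?_)
    fun a ha => (hf a ha).2.2
  exact hC a ha (f1 a) (f2 a) b b' (hf a ha).1 (hf a ha).2.1 g.1 g'.1 g.2 g'.2

end Pool.Agent.ROT.F3
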