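import Pool.Agent.ROT.F3LowD
import Pool.Agent.ROT.F3BlkL
import Pool.Agent.ROT.F3Dbl

/-!
# ROT, F3, row LOWI (helper39): the connections reach every displacement

Two start pieces with the same root, a block behind each of them. The lateral displacements of the two blocks (directions not
parallel) reach every difference `z` of the two ends, with the mass of one point of the lattice.

* `lat3_en` : the ends of the even words are in the lattice `Lat3`;
* `GBk i m η s b` : good blocks: in the tube of width `η m` about the ray of slope `s`, with a cut close to their end;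
* `start_uniq`, **`gam_starts`** : the sum over the start pairs;
* **`lowI`** : `gam C 1 z ≥ c / m ^ 2 * (mass of the start pairs)`, no condition on the place of the starts but the reach.
-/

set_option autoImplicit false

namespace Pool.Agent.ROT.F3

open Finset ComplexConjugate
open Pool.Agent.NTS.Res (step pos saw fug)
open HexObs (oo up vx dx lev lat latE Brd BT Cut wE gf tf)
open HexObs.ROT.FP (FB)
open NTF (JJ sw)
open scoped ENNReal Classical

/-! ### 1. The even vertices -/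

/-- the vertices of a word and the lattice -/
lemma lat3_ps (w : W3) {k : ℕ} (hk : k ≤ w.length) : if Even k then ps w k ∈ Lat3 else ps w k - 1 ∈ Lat3 := by
  have h1 : (1 : ℂ) - ax 1 ∈ Lat3 := by
    refine ⟨1, 1, by simp, ?_⟩
    rw [ax_one_eq]
    apply Complex.ext
    · simp only [Complex.sub_re, Complex.one_re]
      push_cast
      ring
    · simp only [Complex.sub_im, Complex.one_im]
      push_cast
      ring
  have hax : ∀ a : Fin 3, ax a - 1 ∈ Lat3 := by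
    intro a
    fin_cases a
    · show ax 0 - 1 ∈ Lat3
      rw [ax_zero, sub_self]
      exact lat3_zero
    · show ax 1 - 1 ∈ Lat3
      have := lat3_neg h1
      rwa [neg_sub] at this
    · show ax 2 - 1 ∈ Lat3
      have h2 := lat3_neg (lat3_add h1 (lat3_om h1))
      rw [ax_two]
      have e : -(1 - ax 1 + ax 1 * (1 - ax 1)) = ax 1 * ax 1 - 1 := by ring
      rwa [e] at h2
  induction k with
  | zero =>
    rw [if_pos Even.zero, ps_zero]
    exact lat3_zero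
  | succ k ih =>
    have ih := ih (by omega)
    rw [ps_succ, st_of_lt (show k < w.length by omega)]
    obtain ⟨a, ha⟩ : ∃ a, a = w.get ⟨k, by omega⟩ := ⟨_, rfl⟩
    rw [← ha]
    have hs : step k a = (-1) ^ k * ax a := by
      unfold ax step
      rw [pow_zero, one_mul]
    by_cases he : Even k
    · have he2 : ¬ Even (k + 1) := by
        rw [Nat.even_add_one]
        exact fun h => h he
      rw [if_pos he] at ih
      rw [if_neg he2, hs, he.neg_one_pow, one_mul, add_sub_assoc]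
      exact lat3_add ih (hax a)
    · have he2 : Even (k + 1) := by
        rw [Nat.even_add_one]
        exact he
      rw [if_neg he] at ih
      rw [if_pos he2, hs, (Nat.not_even_iff_odd.1 he).neg_one_pow]
      have e : ps w k + -1 * ax a = (ps w k - 1) - (ax a - 1) := by ring
      rw [e]
      exact lat3_sub ih (hax a)

lemma lat3_en {w : W3} (h : Even w.length) : en w ∈ Lat3 := by
  have := lat3_ps w (le_refl w.length)
  rwa [if_pos h] at this

/-! ### 2. Good blocks -/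

lemma lv_ax (i : Fin 3) (w : W3) (k : ℕ) : lv (ax i) (ps w k) = lvi i w k := rfl

/-- **good blocks** of the axis `i`: in the tube of width `η m` about the ray of slope `s`, with a cut close to the end -/
structure GBk (i : Fin 3) (m : ℕ) (η s : ℝ) (b : W3) : Prop where
  fb : b ∈ Fbi i m
  tube : ∀ k : ℕ, k ≤ b.length → ‖ps b k - ax i * (((lvi i b k : ℝ) : ℂ) * (1 - (s : ℂ) * Complex.I))‖ ≤ η * m
  top : lvi i b b.length ≤ 3 / 2 * ((1 + 2 * η) * m)
  cut : ∃ k : ℕ, Even k ∧ k < b.length ∧ CutC (ax i) b k ∧ (1 - η) * (3 / 2 * m) ≤ lvi i b k ∧ lvi i b k < 3 / 2 * m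

/-- the blocks between two gates -/
lemma fbi_facts {i : Fin 3} {m : ℕ} (hm : 1 ≤ m) {b : W3} (hb : b ∈ Fbi i m) :
    Even b.length ∧ SW b ∧ 0 < b.length ∧ (∀ k : ℕ, 0 < k → k ≤ b.length → 0 < lvi i b k) ∧
      (∀ k : ℕ, k ≤ b.length → lvi i b k ≤ lvi i b b.length) ∧ FstC (ax i) (3 / 2 * m) b := by
  obtain ⟨T, hT, ⟨h1, h2, h3, h4⟩, h5⟩ := hb
  have hm' : (1 : ℝ) ≤ m := by exact_mod_cast hm
  have hT' : (m : ℝ) ≤ T := by exact_mod_cast hT
  have hpos : 0 < b.length := by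
    rcases Nat.eq_zero_or_pos b.length with h | h
    · rw [h, lvi_start] at h4
      linarith
    · exact h
  have hle : ∀ k : ℕ, k ≤ b.length → lvi i b k ≤ lvi i b b.length := by
    intro k hk
    rcases Nat.eq_zero_or_pos k with h0 | h0
    · rw [h0, lvi_start, h4]
      positivity
    · rw [h4]
      exact (h3 k h0 hk).2
  refine ⟨h1, h2, hpos, fun k h0 hk => (h3 k h0 hk).1, hle, ?_, fun k hk hkb hc => ?_⟩
  · show 3 / 2 * (m : ℝ) ≤ lv (ax i) (ps b b.length)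
    rw [lv_ax, h4]
    linarith
  · rw [lv_ax]
    by_contra hcon
    rw [not_lt] at hcon
    obtain ⟨q, hq⟩ := lvi_even i b hkb.le hk
    have hmq : (m : ℝ) ≤ q := by
      rw [hq] at hcon
      linarith
    have hq0 : ((q.toNat : ℕ) : ℤ) = q := Int.toNat_of_nonneg (by
      have : (m : ℤ) ≤ q := by exact_mod_cast hmq
      omega)
    have hq1 : ((q.toNat : ℕ) : ℝ) = q := by exact_mod_cast hq0
    have hlt : lvi i b k < lvi i b b.length := hc.2 b.length hkb le_rfl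
    rw [hq, h4] at hlt
    have hqT : q.toNat < T := by
      have : ((q.toNat : ℕ) : ℝ) < T := by
        rw [hq1]
        linarith
      exact_mod_cast this
    refine h5 q.toNat (by
      have : (m : ℝ) ≤ ((q.toNat : ℕ) : ℝ) := by rw [hq1]; exact hmq
      exact_mod_cast this) hqT ((cuti_iff ⟨h1, h2, h3, h4⟩).2 ⟨k, hkb.le, hk, ?_, fun j hj => ?_, fun j hj1 hj2 => ?_⟩)
    · rw [hq1, hq]
    · rw [hq1, ← hq]
      exact hc.1 j hj
    · rw [hq1, ← hq]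
      exact hc.2 j hj1 hj2

/-- **one block** (helper55, `blk_low`), as an input -/
def BlkL (R η : ℝ) : Prop := ∃ (α c : ℝ) (m0 : ℕ), 0 < α ∧ α ≤ η ∧ 0 < c ∧ 1 ≤ m0 ∧ ∀ f : ℝ → ℝ,
  (∀ a b, |f a - f b| ≤ R * |a - b|) → f 0 = 0 → ∀ (m T : ℕ) (x : ℤ), m0 ≤ m → (1 + α) * m ≤ T → (T : ℝ) ≤ (1 + 2 * α) * m →
    |(x : ℝ) - f m| ≤ α * m → Even (x - T) → ENNReal.ofReal (c / (m : ℝ) ^ 2) ≤
      gf {b | b ∈ FB m ∧ b ∈ Brd T ∧ latE b = x ∧ (∀ k, k ≤ b.length → |((lat b k : ℤ) : ℝ) - f ((lev b k : ℝ) / 3)| ≤ η * m) ∧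
        ∃ h : ℕ, (1 - η) * m ≤ h ∧ h < m ∧ Cut b h}

private lemma sqrt3_le : Real.sqrt 3 ≤ 2 := by
  rw [Real.sqrt_le_left (by norm_num)]
  norm_num

theorem blkL_of (R : ℕ) {η : ℝ} (hη : 0 < η) : BlkL R η := by
  obtain ⟨α, c, m0, h1, h2, h3, h4⟩ := HexObs.ROT.FP.blk_low R hη
  refine ⟨α, c, m0 + 1, h1, h2, h3, by omega, fun f hf hf0 m T x hm hT1 hT2 hx hp => ?_⟩
  exact h4 f hf hf0 m T x (by omega) hT1 hT2 hp hx

/-- the turning words of `blk_low` give good blocks -/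
lemma gbk_of {η : ℝ} {i : Fin 3} {m T : ℕ} {s α : ℝ} {t : List Bool} (hm : 1 ≤ m) (hη : α ≤ η)
    (hT : (T : ℝ) ≤ (1 + 2 * α) * m) (h1 : t ∈ FB m) (h2 : t ∈ Brd T)
    (h3 : ∀ k, k ≤ t.length → |((lat t k : ℤ) : ℝ) - Real.sqrt 3 * s * ((lev t k : ℝ) / 3)| ≤ η * m)
    (h4 : ∃ h : ℕ, (1 - η) * m ≤ h ∧ h < m ∧ Cut t h) : GBk i m η s (rt i (wl t)) := by
  have hm' : (1 : ℝ) ≤ m := by exact_mod_cast hm
  have q3 : Real.sqrt 3 * Real.sqrt 3 = 3 := Real.mul_self_sqrt (by norm_num)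
  have p3 : 0 < Real.sqrt 3 := Real.sqrt_pos.2 (by norm_num)
  have hl : (rt i (wl t)).length = t.length := by rw [rt_length, wl_length]
  have hlev : ∀ k, k ≤ t.length → lvi i (rt i (wl t)) k = (lev t k : ℝ) / 2 := fun k hk => by rw [lvi_rt, re_wl t hk]
  have hE : lev t t.length = 3 * (T : ℤ) := (HexObs.mem_Brd.1 h2).2.2.2
  have hbri : rt i (wl t) ∈ Bri i T := mem_Bri.2 ⟨t, h2, rfl⟩
  refine ⟨mem_Fbi.2 ⟨t, h1, rfl⟩, fun k hk => ?_, ?_, ?_⟩
  · rw [hl] at hk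
    have e1 : ps (rt i (wl t)) k - ax i * (((lvi i (rt i (wl t)) k : ℝ) : ℂ) * (1 - (s : ℂ) * Complex.I)) =
        ax i * ⟨0, -(Real.sqrt 3 / 2) * (((lat t k : ℤ) : ℝ) - Real.sqrt 3 * s * ((lev t k : ℝ) / 3))⟩ := by
      rw [ps_rt, hlev k hk, ← mul_sub]
      congr 1
      apply Complex.ext
      · simp only [Complex.sub_re, Complex.mul_re, Complex.ofReal_re, Complex.ofReal_im, Complex.one_re, Complex.I_re,
          Complex.I_im, Complex.sub_im, Complex.one_im, Complex.mul_im]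
        rw [re_wl t hk]
        ring
      · simp only [Complex.sub_im, Complex.mul_re, Complex.ofReal_re, Complex.ofReal_im, Complex.one_re, Complex.I_re,
          Complex.I_im, Complex.sub_re, Complex.one_im, Complex.mul_im]
        rw [im_wl t hk]
        linear_combination (-(s * (lev t k : ℝ)) / 6) * q3
    rw [e1, norm_mul, norm_ax, one_mul]
    have e2 : (⟨0, -(Real.sqrt 3 / 2) * (((lat t k : ℤ) : ℝ) - Real.sqrt 3 * s * ((lev t k : ℝ) / 3))⟩ : ℂ) =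
        ((-(Real.sqrt 3 / 2) * (((lat t k : ℤ) : ℝ) - Real.sqrt 3 * s * ((lev t k : ℝ) / 3)) : ℝ) : ℂ) * Complex.I := by
      apply Complex.ext <;> simp
    rw [e2, norm_mul, Complex.norm_I, mul_one, Complex.norm_real, Real.norm_eq_abs, abs_mul, abs_neg,
      abs_of_pos (by positivity)]
    have h5 := h3 k hk
    have h6 := sqrt3_le
    have h7 := abs_nonneg (((lat t k : ℤ) : ℝ) - Real.sqrt 3 * s * ((lev t k : ℝ) / 3))
    nlinarith
  · rw [hl, hlev _ le_rfl, hE]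
    push_cast
    nlinarith
  · obtain ⟨h, g1, g2, g3⟩ := h4
    have hc : Cuti i (rt i (wl t)) h := (cuti_rt).2 ((cutW_wl h2 h).2 g3)
    obtain ⟨k, k1, k2, k3, k4, k5⟩ := (cuti_iff hbri).1 hc
    have g2' : (h : ℝ) < m := by exact_mod_cast g2
    have hk : k < (rt i (wl t)).length := by
      rcases Nat.lt_or_eq_of_le k1 with h | h
      · exact h
      · exfalso
        have := hbri.2.2.2
        rw [← h, k3] at this
        obtain ⟨T', hT1, hT2, -⟩ := (mem_Fbi.2 ⟨t, h1, rfl⟩ : rt i (wl t) ∈ Fbi i m)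
        have h9 := hT2.2.2.2
        rw [← h, k3] at h9
        have h8 : (m : ℝ) ≤ T' := by exact_mod_cast hT1
        linarith
    refine ⟨k, k2, hk, ⟨fun j hj => ?_, fun j hj1 hj2 => ?_⟩, ?_, ?_⟩
    · rw [lv_ax, lv_ax, k3]
      exact k4 j hj
    · rw [lv_ax, lv_ax, k3]
      exact k5 j hj1 hj2
    · rw [k3]
      linarith
    · rw [k3]
      linarith

/-! ### 3. The sum over the starts -/

/-- the start pieces are determined by the word -/
lemma start_uniq {d : ℂ} {l : ℝ} {a a' b b' : W3} (ha : Even a.length) (ha' : Even a'.length)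
    (l1 : ∀ k : ℕ, k ≤ a.length → lv d (ps a k) ≤ lv d (en a)) (l1' : ∀ k : ℕ, k ≤ a'.length → lv d (ps a' k) ≤ lv d (en a'))
    (f : FstC d l a) (f' : FstC d l a') (hb : ∀ k : ℕ, 0 < k → k ≤ b.length → 0 < lv d (ps b k))
    (hb' : ∀ k : ℕ, 0 < k → k ≤ b'.length → 0 < lv d (ps b' k)) (h : a ++ b = a' ++ b') : a = a' ∧ b = b' := by
  have key : ∀ {a a' b b' : W3}, Even a.length → (∀ k : ℕ, k ≤ a.length → lv d (ps a k) ≤ lv d (en a)) → FstC d l a →
      FstC d l a' → (∀ k : ℕ, 0 < k → k ≤ b.length → 0 < lv d (ps b k)) → a ++ b = a' ++ b' → ¬ a.length < a'.length := by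
    intro a a' b b' ha l1 f f' hb h hl
    have hv : ∀ j, j ≤ a'.length → ps a' j = ps (a ++ b) j := fun j hj => by rw [h, ps_append_left hj]
    have hlen : a'.length ≤ a.length + b.length := by
      have := congrArg List.length h
      rw [List.length_append, List.length_append] at this
      omega
    have e0 : ps a' a.length = en a := by rw [hv _ hl.le, ps_append_left le_rfl]; rfl
    have := f'.2 a.length ha hl ⟨fun j hj => ?_, fun j hj1 hj2 => ?_⟩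
    · rw [e0] at this
      have h1 := f.1
      linarith
    · rw [e0, hv j (by omega), ps_append_left hj]
      exact l1 j hj
    · rw [e0, hv j hj2, ps_append_right' ha hj1.le, lv_add]
      have h1 := hb (j - a.length) (by omega) (by omega)
      linarith
  have h1 := key ha l1 f f' hb h
  have h2 := key ha' l1' f' f hb' h.symm
  exact List.append_inj h (by omega)

/-- the sum over the blocks of the two axes as a sum over the pairs of words -/
private lemma sum_pairs (A B : Set W3) (P : W3 → W3 → Prop) [∀ x y, Decidable (P x y)] (w : W3 → W3 → ℝ≥0∞) :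
    ∑' b₁ : A, ∑' b₂ : B, (if P b₁.1 b₂.1 then w b₁.1 b₂.1 else 0) =
      ∑' b : W3 × W3, if b.1 ∈ A ∧ b.2 ∈ B ∧ P b.1 b.2 then w b.1 b.2 else 0 := by
  rw [ENNReal.tsum_prod', tsum_subtype A (fun b₁ => ∑' b₂ : B, if P b₁ b₂.1 then w b₁ b₂.1 else 0)]
  refine tsum_congr fun b₁ => ?_
  by_cases h : b₁ ∈ A
  · rw [Set.indicator_of_mem h, tsum_subtype B (fun b₂ => if P b₁ b₂ then w b₁ b₂ else 0)]
    refine tsum_congr fun b₂ => ?_
    by_cases h2 : b₂ ∈ B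
    · rw [Set.indicator_of_mem h2]
      simp only [h, h2, true_and]
    · rw [Set.indicator_of_notMem h2]
      simp only [h2, false_and, and_false, if_false]
  · rw [Set.indicator_of_notMem h]
    simp only [h, false_and, if_false]
    rw [tsum_zero]

/-- **the sum over the starts** -/
theorem gam_starts {i j : Fin 3} {m : ℕ} (hm : 1 ≤ m) {κ : ℝ≥0∞} {l l' : ℝ} {z : ℂ} {C St : Set (W3 × W3)}
    {G₁ G₂ : W3 × W3 → Set W3}
    (hev : ∀ a ∈ St, Even a.1.length ∧ Even a.2.length)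
    (hl1 : ∀ a ∈ St, (∀ k : ℕ, k ≤ a.1.length → lv (ax i) (ps a.1 k) ≤ lv (ax i) (en a.1)) ∧ FstC (ax i) l a.1)
    (hl2 : ∀ a ∈ St, (∀ k : ℕ, k ≤ a.2.length → lv (ax j) (ps a.2 k) ≤ lv (ax j) (en a.2)) ∧ FstC (ax j) l' a.2)
    (hC : ∀ a ∈ St, ∀ b ∈ Fbi i m, ∀ b' ∈ Fbi j m, b ∈ G₁ a → b' ∈ G₂ a → (a.1 ++ b, a.2 ++ b') ∈ C)
    (hκ : ∀ a ∈ St, κ ≤ ∑' b₁ : Fbi i m, ∑' b₂ : Fbi j m,
      if (en a.1 - en a.2) + en b₁.1 - en b₂.1 = z ∧ b₁.1 ∈ G₁ a ∧ b₂.1 ∈ G₂ a then wx b₁.1 * wx b₂.1 else 0) :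
    κ * (∑' a : W3 × W3, if a ∈ St then wx a.1 * wx a.2 else 0) ≤ gam C (fun _ => 1) z := by
  obtain ⟨Pr, hPr⟩ : ∃ Pr : (W3 × W3) × (W3 × W3) → Prop, Pr = fun x => x.1 ∈ St ∧ (x.2.1 ∈ Fbi i m ∧ x.2.2 ∈ Fbi j m ∧
    ((en x.1.1 - en x.1.2) + en x.2.1 - en x.2.2 = z ∧ x.2.1 ∈ G₁ x.1 ∧ x.2.2 ∈ G₂ x.1)) := ⟨_, rfl⟩
  obtain ⟨g, hg⟩ : ∃ g : W3 × W3 → ℝ≥0∞, g = fun q => if q ∈ C ∧ en q.1 - en q.2 = z then wx q.1 * wx q.2 * 1 else 0 :=
    ⟨_, rfl⟩
  have hinj : Function.Injective fun x : {x // Pr x} => ((x.1.1.1 ++ x.1.2.1, x.1.1.2 ++ x.1.2.2) : W3 × W3) := by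
    rintro ⟨⟨⟨a1, a2⟩, b1, b2⟩, hx⟩ ⟨⟨⟨a1', a2'⟩, b1', b2'⟩, hx'⟩ he
    simp only [Prod.mk.injEq] at he
    rw [hPr] at hx hx'
    simp only at hx hx'
    obtain ⟨x1, x2, x3, -⟩ := hx
    obtain ⟨y1, y2, y3, -⟩ := hx'
    obtain ⟨e1, e2⟩ := start_uniq (d := ax i) (l := l) (hev _ x1).1 (hev _ y1).1 (hl1 _ x1).1 (hl1 _ y1).1 (hl1 _ x1).2
      (hl1 _ y1).2 (fbi_facts hm x2).2.2.2.1 (fbi_facts hm y2).2.2.2.1 he.1
    obtain ⟨e3, e4⟩ := start_uniq (d := ax j) (l := l') (hev _ x1).2 (hev _ y1).2 (hl2 _ x1).1 (hl2 _ y1).1 (hl2 _ x1).2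
      (hl2 _ y1).2 (fbi_facts hm x3).2.2.2.1 (fbi_facts hm y3).2.2.2.1 he.2
    simp only at e1 e2 e3 e4
    subst e1 e2 e3 e4
    rfl
  have h1 := ENNReal.tsum_comp_le_tsum_of_injective hinj g
  have h2 : ∑' q, g q = gam C (fun _ => 1) z := by
    rw [hg]
    rfl
  rw [← h2]
  refine le_trans ?_ h1
  have h3 : ∀ x : {x // Pr x}, g (x.1.1.1 ++ x.1.2.1, x.1.1.2 ++ x.1.2.2) =
      wx x.1.1.1 * wx x.1.1.2 * (wx x.1.2.1 * wx x.1.2.2) := by
    rintro ⟨⟨⟨a1, a2⟩, b1, b2⟩, hx⟩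
    rw [hPr] at hx
    obtain ⟨x1, x2, x3, x4, x5, x6⟩ := hx
    simp only at x1 x2 x3 x4 x5 x6 ⊢
    have e : en (a1 ++ b1) - en (a2 ++ b2) = z := by
      rw [en_append (hev _ x1).1, en_append (hev _ x1).2, ← x4]
      simp only
      ring
    rw [hg]
    simp only
    rw [if_pos ⟨hC _ x1 _ x2 _ x3 x5 x6, e⟩, wx_append, wx_append, mul_one]
    ring
  have h4 : ∑' x : {x // Pr x}, g (x.1.1.1 ++ x.1.2.1, x.1.1.2 ++ x.1.2.2) =
      ∑' x : (W3 × W3) × (W3 × W3), if Pr x then wx x.1.1 * wx x.1.2 * (wx x.2.1 * wx x.2.2) else 0 := by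
    rw [tsum_congr h3]
    refine (tsum_subtype {x | Pr x} (fun x : (W3 × W3) × (W3 × W3) => wx x.1.1 * wx x.1.2 * (wx x.2.1 * wx x.2.2))).trans ?_
    refine tsum_congr fun x => ?_
    rw [Set.indicator_apply]
    rfl
  have h7 : ∑' x : (W3 × W3) × (W3 × W3), (if Pr x then wx x.1.1 * wx x.1.2 * (wx x.2.1 * wx x.2.2) else 0) =
      ∑' a : W3 × W3, ∑' b : W3 × W3, if Pr (a, b) then wx a.1 * wx a.2 * (wx b.1 * wx b.2) else 0 :=
    ENNReal.tsum_prod' (f := fun x : (W3 × W3) × (W3 × W3) => if Pr x then wx x.1.1 * wx x.1.2 * (wx x.2.1 * wx x.2.2) else 0)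
  rw [h4, h7, ← ENNReal.tsum_mul_left]
  refine ENNReal.tsum_le_tsum fun a => ?_
  by_cases ha : a ∈ St
  · rw [if_pos ha]
    have h5 := hκ a ha
    rw [sum_pairs (Fbi i m) (Fbi j m) (fun b₁ b₂ => (en a.1 - en a.2) + en b₁ - en b₂ = z ∧ b₁ ∈ G₁ a ∧ b₂ ∈ G₂ a)
      (fun b₁ b₂ => wx b₁ * wx b₂)] at h5
    calc κ * (wx a.1 * wx a.2) ≤ (∑' b : W3 × W3, if b.1 ∈ Fbi i m ∧ b.2 ∈ Fbi j m ∧
          ((en a.1 - en a.2) + en b.1 - en b.2 = z ∧ b.1 ∈ G₁ a ∧ b.2 ∈ G₂ a) then wx b.1 * wx b.2 else 0) *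
          (wx a.1 * wx a.2) := mul_le_mul_left h5 _
      _ = ∑' b : W3 × W3, if Pr (a, b) then wx a.1 * wx a.2 * (wx b.1 * wx b.2) else 0 := by
        rw [← ENNReal.tsum_mul_right]
        refine tsum_congr fun b => ?_
        rw [hPr]
        simp only [ha, true_and]
        split_ifs
        · ring
        · rw [zero_mul]
  · rw [if_neg ha, mul_zero]
    exact zero_le

/-- **LOW** : the two blocks reach every displacement -/
theorem lowI (R : ℕ) {η : ℝ} (hη : 0 < η) : ∃ (c : ℝ) (m0 : ℕ), 0 < c ∧ 1 ≤ m0 ∧ ∀ {i j : Fin 3}, i ≠ j → ∀ m : ℕ, m0 ≤ m →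
    ∀ (l l' S : ℝ) (z : ℂ) (C St : Set (W3 × W3)), z ∈ Lat3 → S + 5 * η ≤ R / 2 →
    (∀ a ∈ St, Even a.1.length ∧ Even a.2.length) →
    (∀ a ∈ St, (∀ k : ℕ, k ≤ a.1.length → lv (ax i) (ps a.1 k) ≤ lv (ax i) (en a.1)) ∧ FstC (ax i) l a.1) →
    (∀ a ∈ St, (∀ k : ℕ, k ≤ a.2.length → lv (ax j) (ps a.2 k) ≤ lv (ax j) (en a.2)) ∧ FstC (ax j) l' a.2) →
    (∀ a ∈ St, ‖z - (en a.1 - en a.2) - ((3 / 2 * m : ℝ) : ℂ) * (ax i - ax j)‖ ≤ S * m) →
    (∀ a ∈ St, ∀ (s s' : ℝ) (b b' : W3), Real.sqrt 3 * |s| ≤ R → Real.sqrt 3 * |s'| ≤ R → GBk i m η s b → GBk j m η s' b' →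
      (a.1 ++ b, a.2 ++ b') ∈ C) →
    ENNReal.ofReal (c / (m : ℝ) ^ 2) * (∑' a : W3 × W3, if a ∈ St then wx a.1 * wx a.2 else 0) ≤ gam C (fun _ => 1) z := by
  obtain ⟨α, c, m1, h1, h2, h3, h4, h5⟩ := blkL_of R hη
  obtain ⟨m2, hm2⟩ : ∃ m2 : ℕ, 200 / α ≤ m2 := ⟨⌈200 / α⌉₊, Nat.le_ceil _⟩
  refine ⟨α ^ 2 * c ^ 2 / 40000, m1 + m2, by positivity, by omega, fun {i j} hij m hm l l' S z C St hz hS hev hl1 hl2 hre hC => ?_⟩
  have hm1 : 1 ≤ m := by omega
  have hm' : (1 : ℝ) ≤ m := by exact_mod_cast hm1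
  have hmα : 200 ≤ α * m := by
    have h6 : (m2 : ℝ) ≤ m := by exact_mod_cast (by omega : m2 ≤ m)
    rw [div_le_iff₀ h1] at hm2
    nlinarith
  have p3 : 0 < Real.sqrt 3 := Real.sqrt_pos.2 (by norm_num)
  obtain ⟨τ, hτ⟩ : ∃ τ : ℝ, τ = (1 + 3 / 2 * α) * m := ⟨_, rfl⟩
  obtain ⟨r, hr⟩ : ∃ r : ℝ, r = α * m / 2 := ⟨_, rfl⟩
  have hrτ : r ≤ τ := by
    rw [hr, hτ]
    nlinarith
  -- one block
  have blk : ∀ (i : Fin 3) (s x1 : ℝ), Real.sqrt 3 * |s| ≤ R → Real.sqrt 3 * s * m = x1 → ∀ (T : ℕ) (x : ℤ),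
      |(T : ℝ) - τ| ≤ r → |(x : ℝ) - x1| ≤ r → Even (x - T) → ENNReal.ofReal (c / (m : ℝ) ^ 2) ≤
        gf {b | b ∈ FB m ∧ b ∈ HexObs.RP.EndB T x ∧ rt i (wl b) ∈ {b | GBk i m η s b}} := by
    intro i s x1 hs hx1 T x hT hx hp
    rw [abs_le] at hT
    have t1 : (1 + α) * m ≤ T := by linarith [hT.1]
    have t2 : (T : ℝ) ≤ (1 + 2 * α) * m := by linarith [hT.2]
    refine (h5 (fun t => Real.sqrt 3 * s * t) (fun a b => ?_) (by simp) m T x (by omega) t1 t2 ?_ hp).trans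
      (HexObs.gf_mono fun b hb => ?_)
    · rw [← mul_sub, abs_mul, abs_mul, abs_of_pos p3]
      exact mul_le_mul_of_nonneg_right hs (abs_nonneg _)
    · rw [hx1]
      refine hx.trans ?_
      rw [hr]
      nlinarith
    · obtain ⟨g1, g2, g3, g4, g5⟩ := hb
      exact ⟨g1, ⟨g2, g3⟩, gbk_of hm1 h2 t2 g1 g2 g4 g5⟩
  -- the two blocks
  have key : ∀ a : W3 × W3, ∃ s1 s2 : ℝ, a ∈ St → (Real.sqrt 3 * |s1| ≤ R ∧ Real.sqrt 3 * |s2| ≤ R ∧
      ENNReal.ofReal (α ^ 2 * c ^ 2 / 40000 / (m : ℝ) ^ 2) ≤ ∑' b₁ : Fbi i m, ∑' b₂ : Fbi j m,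
        if (en a.1 - en a.2) + en b₁.1 - en b₂.1 = z ∧ b₁.1 ∈ {b | GBk i m η s1 b} ∧ b₂.1 ∈ {b | GBk j m η s2 b}
        then wx b₁.1 * wx b₂.1 else 0) := by
    intro a
    by_cases ha : a ∈ St
    swap
    · exact ⟨0, 0, fun h => absurd h ha⟩
    obtain ⟨v, hv⟩ : ∃ v : ℂ, v = z - (en a.1 - en a.2) - ((3 / 2 * τ : ℝ) : ℂ) * (ax i - ax j) := ⟨_, rfl⟩
    obtain ⟨x1, x2, k1, k2, k3⟩ := slopes_of hij v
    have hvn : ‖v‖ ≤ R / 2 * m := by
      have e1 : v = (z - (en a.1 - en a.2) - ((3 / 2 * m : ℝ) : ℂ) * (ax i - ax j)) -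
          ((9 / 4 * (α * m) : ℝ) : ℂ) * (ax i - ax j) := by
        rw [hv, hτ]
        push_cast
        ring
      have e2 : ‖((9 / 4 * (α * m) : ℝ) : ℂ) * (ax i - ax j)‖ ≤ 9 / 4 * (α * m) * 2 := by
        rw [norm_mul, Complex.norm_real, Real.norm_of_nonneg (by positivity)]
        refine mul_le_mul_of_nonneg_left ?_ (by positivity)
        refine (norm_sub_le _ _).trans ?_
        rw [norm_ax, norm_ax]
        norm_num
      rw [e1]
      refine (norm_sub_le _ _).trans ?_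
      have e3 := hre a ha
      nlinarith
    have hs : ∀ x : ℝ, |x| ≤ 2 * ‖v‖ → Real.sqrt 3 * |x / (Real.sqrt 3 * m)| ≤ R ∧
        Real.sqrt 3 * (x / (Real.sqrt 3 * m)) * m = x := by
      intro x hx
      have hpos : 0 < Real.sqrt 3 * m := by positivity
      constructor
      · rw [abs_div, abs_of_pos hpos]
        have e4 : Real.sqrt 3 * (|x| / (Real.sqrt 3 * m)) = |x| / m := by
          field_simp
        rw [e4, div_le_iff₀ (by linarith)]
        linarith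
      · field_simp
    obtain ⟨a1, a2⟩ := hs x1 k1
    obtain ⟨a3, a4⟩ := hs x2 k2
    refine ⟨x1 / (Real.sqrt 3 * m), x2 / (Real.sqrt 3 * m), fun _ => ⟨a1, a3, ?_⟩⟩
    have t := two_low (i := i) (j := j) (m₁ := m) (m₂ := m) (G₁ := {b | GBk i m η (x1 / (Real.sqrt 3 * m)) b})
      (G₂ := {b | GBk j m η (x2 / (Real.sqrt 3 * m)) b}) (κ₁ := ENNReal.ofReal (c / (m : ℝ) ^ 2))
      (κ₂ := ENNReal.ofReal (c / (m : ℝ) ^ 2)) (τ₁ := τ) (x₁ := x1) (τ₂ := τ) (x₂ := x2) (r := r)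
      (by rw [hr]; linarith) hrτ hrτ (blk i _ x1 a1 a2) (blk j _ x2 a3 a4)
      (d := en a.1 - en a.2) (z := z) (lat3_sub hz (lat3_sub (lat3_en (hev a ha).1) (lat3_en (hev a ha).2))) (by
        have e5 : z - (en a.1 - en a.2) - (ax i * ⟨3 * τ / 2, -(Real.sqrt 3 / 2 * x1)⟩ - ax j *
            ⟨3 * τ / 2, -(Real.sqrt 3 / 2 * x2)⟩) = 0 := by
          have e6 : ∀ x : ℝ, (⟨3 * τ / 2, -(Real.sqrt 3 / 2 * x)⟩ : ℂ) = ((3 / 2 * τ : ℝ) : ℂ) +
              ⟨0, -(Real.sqrt 3 / 2 * x)⟩ := by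
            intro x
            apply Complex.ext
            · simp only [Complex.add_re, Complex.ofReal_re]
              ring
            · simp only [Complex.add_im, Complex.ofReal_im]
              ring
          rw [e6, e6]
          have e7 : z - (en a.1 - en a.2) = v + ((3 / 2 * τ : ℝ) : ℂ) * (ax i - ax j) := by
            rw [hv]
            ring
          rw [e7]
          linear_combination k3
        rw [e5, norm_zero]
        rw [hr]
        positivity)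
    refine le_trans (le_of_eq ?_) t
    rw [← ENNReal.ofReal_mul (by positivity), ← ENNReal.ofReal_mul (by positivity)]
    congr 1
    rw [hr]
    field_simp
    ring
  choose f1 f2 hf using key
  refine gam_starts (i := i) (j := j) (m := m) hm1 (l := l) (l' := l') (G₁ := fun a => {b | GBk i m η (f1 a) b})
    (G₂ := fun a => {b | GBk j m η (f2 a) b}) hev hl1 hl2 (fun a ha b _ b' _ g g' => ?_) fun a ha => (hf a ha).2.2
  exact hC a ha (f1 a) (f2 a) b b' (hf a ha).1 (hf a ha).2.1 g g'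

end Pool.Agent.ROT.F3
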