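import Pool.Agent.ROT.F3LowI
import Pool.Agent.ROT.F3GamD

/-!
# ROT / F3LowK (helper89): good blocks (`GBk` of F3LowI) and the classes of connections

* `GBk.up`, **`GBk.ball`**, **`GBk.cone`** (any half angle), `GBk.coneK`, **`GBk.near`** (the end), `GBk.first` : a good block lies in
  a ball, in a cone with offset, ends close to the point `3 / 2 m (1 - s i)` of its ray;
* **`GBk.blP`** : good blocks are blocks of the double gates (`BlP`); **`cd_of_gbk`** : the pairs are in the class `CD` (`ConD`);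
* **`lowK`** : `lowI` with prescribed slopes `σ`, `σ'` up to `2 (S + 5 η) / √3` and with weights `e`;
* **`lowD`** : the class `CD` of the connections with double gates, any subclass of the starts, weights.
-/

set_option autoImplicit false

namespace Pool.Agent.ROT.F3

open Finset ComplexConjugate
open HexObs (oo up vx dx lev lat latE Brd BT Cut wE gf tf)
open HexObs.ROT.FP (FB)
open scoped ENNReal Classical

/-! ### 1. geometry of the good blocks -/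

lemma norm_slope (s : ℝ) : ‖(1 : ℂ) - (s : ℂ) * Complex.I‖ = Real.sqrt (1 + s ^ 2) := by
  rw [Complex.norm_def, Complex.normSq_apply]
  congr 1
  simp
  ring

lemma sqrt_slope_le (s : ℝ) : Real.sqrt (1 + s ^ 2) ≤ 1 + |s| := by
  rw [show 1 + |s| = Real.sqrt ((1 + |s|) ^ 2) by rw [Real.sqrt_sq (by positivity)]]
  apply Real.sqrt_le_sqrt
  have := sq_abs s
  nlinarith [abs_nonneg s]

lemma GBk.eta_nonneg {i : Fin 3} {m : ℕ} {η s : ℝ} {b : W3} (h : GBk i m η s b) : 0 ≤ η * m :=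
  (norm_nonneg _).trans (h.tube 0 (Nat.zero_le _))

lemma GBk.first {i : Fin 3} {m : ℕ} {η s : ℝ} {b : W3} (h : GBk i m η s b) : 3 / 2 * (m : ℝ) ≤ lvi i b b.length := by
  obtain ⟨T, h1, ⟨-, -, -, h2⟩, -⟩ := h.fb
  rw [h2]
  have : (m : ℝ) ≤ T := by exact_mod_cast h1
  linarith

lemma GBk.lv0 {i : Fin 3} {m : ℕ} {η s : ℝ} {b : W3} (h : GBk i m η s b) {k : ℕ} (h0 : 0 < k) (hk : k ≤ b.length) :
    0 < lvi i b k := Fbi_right h.fb k h0 hk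

lemma GBk.lv1 {i : Fin 3} {m : ℕ} {η s : ℝ} {b : W3} (h : GBk i m η s b) {k : ℕ} (hk : k ≤ b.length) :
    0 ≤ lvi i b k ∧ lvi i b k ≤ lvi i b b.length := by
  obtain ⟨T, -, ⟨-, -, h1, h2⟩, -⟩ := h.fb
  rcases Nat.eq_zero_or_pos k with h0 | h0
  · rw [h0, lvi_start, h2]
    exact ⟨le_rfl, by positivity⟩
  · rw [h2]
    exact ⟨(h1 k h0 hk).1.le, (h1 k h0 hk).2⟩

/-- the norm of a vertex of a good block -/
lemma GBk.up {i : Fin 3} {m : ℕ} {η s : ℝ} {b : W3} (h : GBk i m η s b) {k : ℕ} (hk : k ≤ b.length) :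
    ‖ps b k‖ ≤ lvi i b k * Real.sqrt (1 + s ^ 2) + η * m := by
  have h1 := h.tube k hk
  have h2 : ps b k = ax i * (((lvi i b k : ℝ) : ℂ) * (1 - (s : ℂ) * Complex.I)) +
      (ps b k - ax i * (((lvi i b k : ℝ) : ℂ) * (1 - (s : ℂ) * Complex.I))) := by ring
  rw [h2]
  refine (norm_add_le _ _).trans ?_
  rw [norm_mul, norm_ax, one_mul, norm_mul, norm_slope, Complex.norm_real, Real.norm_of_nonneg (h.lv1 hk).1]
  linarith

/-- **balls** -/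
theorem GBk.ball {i : Fin 3} {m : ℕ} {η s R : ℝ} {b : W3} (h : GBk i m η s b)
    (hR : (3 / 2 * (1 + 2 * η) * (1 + |s|) + η) * m ≤ R) {k : ℕ} (hk : k ≤ b.length) : ‖ps b k‖ ≤ R := by
  have h1 := h.up hk
  have h2 := (h.lv1 hk).2.trans h.top
  have h3 : lvi i b k * Real.sqrt (1 + s ^ 2) ≤ 3 / 2 * ((1 + 2 * η) * m) * (1 + |s|) :=
    mul_le_mul h2 (sqrt_slope_le s) (Real.sqrt_nonneg _) ((h.lv1 hk).1.trans h2)
  linarith

/-- **cones**: `c` = the cosine of the half angle -/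
theorem GBk.cone {i : Fin 3} {m : ℕ} {η s c : ℝ} {b : W3} (h : GBk i m η s b) (hc : 0 ≤ c) (hs : c ^ 2 * (1 + s ^ 2) ≤ 1)
    {k : ℕ} (hk : k ≤ b.length) : c * ‖ps b k‖ - c * (η * m) ≤ lvi i b k := by
  have h1 := h.up hk
  have h8 : c * Real.sqrt (1 + s ^ 2) ≤ 1 := by
    have e1 : c * Real.sqrt (1 + s ^ 2) = Real.sqrt (c ^ 2 * (1 + s ^ 2)) := by
      rw [Real.sqrt_mul (sq_nonneg c), Real.sqrt_sq hc]
    rw [e1]
    exact Real.sqrt_le_one.2 hs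
  have h9 : c * ‖ps b k‖ ≤ c * (lvi i b k * Real.sqrt (1 + s ^ 2) + η * m) := mul_le_mul_of_nonneg_left h1 hc
  have h10 : lvi i b k * (c * Real.sqrt (1 + s ^ 2)) ≤ lvi i b k * 1 := mul_le_mul_of_nonneg_left h8 (h.lv1 hk).1
  linarith

/-- the cone of half angle 60 degrees with offset -/
theorem GBk.coneK {i : Fin 3} {m : ℕ} {η s κ : ℝ} {b : W3} (h : GBk i m η s b) (hs : s ^ 2 ≤ 3) (hκ : η * m / 2 < κ) :
    ConeK (ax i) κ b := by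
  intro k hk0 hk
  have h1 := h.cone (c := 1 / 2) (by norm_num) (by linarith) hk
  rw [← lvi_eq]
  linarith

/-- **the end of a good block** -/
theorem GBk.near {i : Fin 3} {m : ℕ} {η s : ℝ} {b : W3} (h : GBk i m η s b) (σ : ℝ) :
    ‖en b - ((3 / 2 * m : ℝ) : ℂ) * (ax i * (1 - (σ : ℂ) * Complex.I))‖ ≤ (η + 3 * η * (1 + |s|) + 3 / 2 * |s - σ|) * m := by
  have h1 := h.tube b.length le_rfl
  have h2 := h.first
  have h3 := h.top
  have e : en b - ((3 / 2 * m : ℝ) : ℂ) * (ax i * (1 - (σ : ℂ) * Complex.I)) =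
      (ps b b.length - ax i * (((lvi i b b.length : ℝ) : ℂ) * (1 - (s : ℂ) * Complex.I))) +
        (ax i * (((lvi i b b.length - 3 / 2 * m : ℝ) : ℂ) * (1 - (s : ℂ) * Complex.I)) -
          ax i * (((3 / 2 * m * (s - σ) : ℝ) : ℂ) * Complex.I)) := by
    rw [en]
    push_cast
    ring
  rw [e]
  refine (norm_add_le _ _).trans ((add_le_add h1 (norm_sub_le _ _)).trans ?_)
  have h4 : lvi i b b.length - 3 / 2 * m ≤ 3 * η * m := by linarith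
  rw [norm_mul, norm_ax, one_mul, norm_mul, norm_slope, Complex.norm_real, Real.norm_of_nonneg (by linarith), norm_mul, norm_ax,
    one_mul, norm_mul, Complex.norm_I, mul_one, Complex.norm_real, Real.norm_eq_abs, abs_mul, abs_of_nonneg (by positivity)]
  have h5 : (lvi i b b.length - 3 / 2 * m) * Real.sqrt (1 + s ^ 2) ≤ 3 * η * m * (1 + |s|) :=
    mul_le_mul h4 (sqrt_slope_le s) (Real.sqrt_nonneg _) (by linarith)
  linarith

/-- **good blocks are blocks of the double gates** -/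
theorem GBk.blP {i : Fin 3} {m : ℝ} {η s r2 κ1 : ℝ} (hm : 0 < m) {b : W3} (h : GBk i ⌈2 * m / 3⌉₊ η s b) (hs : s ^ 2 ≤ 3)
    (hR : (3 / 2 * (1 + 2 * η) * (1 + |s|) + η) * ⌈2 * m / 3⌉₊ ≤ r2) (hκ : η * ⌈2 * m / 3⌉₊ / 2 < κ1) :
    BlP (ax i) r2 m κ1 b := by
  have h1 := (blk_iff hm).2 ⟨h.fb, fun k hk => h.ball hR hk⟩
  exact ⟨h1.1, h1.2, h.coneK hs hκ⟩

/-- **pairs of good blocks behind a start pair of the class** -/
theorem cd_of_gbk {i j : Fin 3} {r l r2 m κ1 κ s s' η : ℝ} (hm : 0 < m) {a : W3 × W3} (ha : a ∈ StD i j r l (κ1 + κ)) {b b' : W3}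
    (h : GBk i ⌈2 * m / 3⌉₊ η s b) (h' : GBk j ⌈2 * m / 3⌉₊ η s' b') (hs : s ^ 2 ≤ 3) (hs' : s' ^ 2 ≤ 3)
    (hR : (3 / 2 * (1 + 2 * η) * (1 + |s|) + η) * ⌈2 * m / 3⌉₊ ≤ r2)
    (hR' : (3 / 2 * (1 + 2 * η) * (1 + |s'|) + η) * ⌈2 * m / 3⌉₊ ≤ r2) (hκ : η * ⌈2 * m / 3⌉₊ / 2 < κ1) :
    (a.1 ++ b, a.2 ++ b') ∈ CD (ax i) (ax j) r l r2 m κ1 κ :=
  mem_CD.2 ⟨a, ha, b, b', h.blP hm hs hR hκ, h'.blP hm hs' hR' hκ, rfl⟩

/-! ### 2. the sum over the starts, with weights -/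

private lemma sum_pairs2 (A B : Set W3) (P : W3 → W3 → Prop) [∀ x y, Decidable (P x y)] (w : W3 → W3 → ℝ≥0∞) :
    ∑' b₁ : A, ∑' b₂ : B, (if P b₁.1 b₂.1 then w b₁.1 b₂.1 else 0) =
      ∑' b : W3 × W3, if b.1 ∈ A ∧ b.2 ∈ B ∧ P b.1 b.2 then w b.1 b.2 else 0 := by
  rw [ENNReal.tsum_prod', tsum_subtype A (fun b₁ => ∑' b₂ : B, if P b₁ b₂.1 then w b₁ b₂.1 else 0)]
  refine tsum_congr fun b₁ => ?_
  by_cases h : b₁ ∈ A
  · rw [Set.indicator_of_mem h, tsum_subtype B (fun b₂ => if P b₁ b₂ then w b₁ b₂ else 0)]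
    refine tsum_congr fun b₂ => ?_
    by_cases h2 : b₂ ∈ B
    · rw [Set.indicator_of_mem h2]
      simp only [h, h2, true_and]
    · rw [Set.indicator_of_notMem h2]
      simp only [h2, false_and, and_false, if_false]
  · rw [Set.indicator_of_notMem h]
    simp only [h, false_and, if_false]
    rw [tsum_zero]

/-- **the sum over the starts, weights** -/
theorem gam_startsW {i j : Fin 3} {m : ℕ} (hm : 1 ≤ m) {κ : ℝ≥0∞} {l l' : ℝ} {z : ℂ} {C St : Set (W3 × W3)}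
    {e e0 : W3 × W3 → ℝ≥0∞} {G₁ G₂ : W3 × W3 → Set W3}
    (hev : ∀ a ∈ St, Even a.1.length ∧ Even a.2.length)
    (hl1 : ∀ a ∈ St, (∀ k : ℕ, k ≤ a.1.length → lv (ax i) (ps a.1 k) ≤ lv (ax i) (en a.1)) ∧ FstC (ax i) l a.1)
    (hl2 : ∀ a ∈ St, (∀ k : ℕ, k ≤ a.2.length → lv (ax j) (ps a.2 k) ≤ lv (ax j) (en a.2)) ∧ FstC (ax j) l' a.2)
    (hC : ∀ a ∈ St, ∀ b ∈ Fbi i m, ∀ b' ∈ Fbi j m, b ∈ G₁ a → b' ∈ G₂ a → (a.1 ++ b, a.2 ++ b') ∈ C ∧ e0 a ≤ e (a.1 ++ b, a.2 ++ b'))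
    (hκ : ∀ a ∈ St, κ ≤ ∑' b₁ : Fbi i m, ∑' b₂ : Fbi j m,
      if (en a.1 - en a.2) + en b₁.1 - en b₂.1 = z ∧ b₁.1 ∈ G₁ a ∧ b₂.1 ∈ G₂ a then wx b₁.1 * wx b₂.1 else 0) :
    κ * (∑' a : W3 × W3, if a ∈ St then wx a.1 * wx a.2 * e0 a else 0) ≤ gam C e z := by
  obtain ⟨Pr, hPr⟩ : ∃ Pr : (W3 × W3) × (W3 × W3) → Prop, Pr = fun x => x.1 ∈ St ∧ (x.2.1 ∈ Fbi i m ∧ x.2.2 ∈ Fbi j m ∧
    ((en x.1.1 - en x.1.2) + en x.2.1 - en x.2.2 = z ∧ x.2.1 ∈ G₁ x.1 ∧ x.2.2 ∈ G₂ x.1)) := ⟨_, rfl⟩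
  obtain ⟨g, hg⟩ : ∃ g : W3 × W3 → ℝ≥0∞, g = fun q => if q ∈ C ∧ en q.1 - en q.2 = z then wx q.1 * wx q.2 * e q else 0 :=
    ⟨_, rfl⟩
  have hinj : Function.Injective fun x : {x // Pr x} => ((x.1.1.1 ++ x.1.2.1, x.1.1.2 ++ x.1.2.2) : W3 × W3) := by
    rintro ⟨⟨⟨a1, a2⟩, b1, b2⟩, hx⟩ ⟨⟨⟨a1', a2'⟩, b1', b2'⟩, hx'⟩ he
    simp only [Prod.mk.injEq] at he
    rw [hPr] at hx hx'
    simp only at hx hx'
    obtain ⟨x1, x2, x3, -⟩ := hx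
    obtain ⟨y1, y2, y3, -⟩ := hx'
    obtain ⟨e1, e2⟩ := start_uniq (d := ax i) (l := l) (hev _ x1).1 (hev _ y1).1 (hl1 _ x1).1 (hl1 _ y1).1 (hl1 _ x1).2
      (hl1 _ y1).2 (fbi_facts hm x2).2.2.2.1 (fbi_facts hm y2).2.2.2.1 he.1
    obtain ⟨e3, e4⟩ := start_uniq (d := ax j) (l := l') (hev _ x1).2 (hev _ y1).2 (hl2 _ x1).1 (hl2 _ y1).1 (hl2 _ x1).2
      (hl2 _ y1).2 (fbi_facts hm x3).2.2.2.1 (fbi_facts hm y3).2.2.2.1 he.2
    simp only at e1 e2 e3 e4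
    subst e1 e2 e3 e4
    rfl
  have h1 := ENNReal.tsum_comp_le_tsum_of_injective hinj g
  have h2 : ∑' q, g q = gam C e z := by
    rw [hg]
    rfl
  rw [← h2]
  refine le_trans ?_ h1
  have h3 : ∀ x : {x // Pr x}, wx x.1.1.1 * wx x.1.1.2 * (wx x.1.2.1 * wx x.1.2.2) * e0 x.1.1 ≤
      g (x.1.1.1 ++ x.1.2.1, x.1.1.2 ++ x.1.2.2) := by
    rintro ⟨⟨⟨a1, a2⟩, b1, b2⟩, hx⟩
    rw [hPr] at hx
    obtain ⟨x1, x2, x3, x4, x5, x6⟩ := hx
    simp only at x1 x2 x3 x4 x5 x6 ⊢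
    have e1 : en (a1 ++ b1) - en (a2 ++ b2) = z := by
      rw [en_append (hev _ x1).1, en_append (hev _ x1).2, ← x4]
      simp only
      ring
    obtain ⟨y1, y2⟩ := hC _ x1 _ x2 _ x3 x5 x6
    rw [hg]
    simp only
    rw [if_pos ⟨y1, e1⟩, wx_append, wx_append]
    calc wx a1 * wx a2 * (wx b1 * wx b2) * e0 (a1, a2) ≤ wx a1 * wx a2 * (wx b1 * wx b2) * e (a1 ++ b1, a2 ++ b2) :=
          mul_le_mul_right y2 _
      _ = _ := by ring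
  have h4 : ∑' x : {x // Pr x}, wx x.1.1.1 * wx x.1.1.2 * (wx x.1.2.1 * wx x.1.2.2) * e0 x.1.1 =
      ∑' x : (W3 × W3) × (W3 × W3), if Pr x then wx x.1.1 * wx x.1.2 * (wx x.2.1 * wx x.2.2) * e0 x.1 else 0 := by
    refine (tsum_subtype {x | Pr x} (fun x : (W3 × W3) × (W3 × W3) => wx x.1.1 * wx x.1.2 * (wx x.2.1 * wx x.2.2) * e0 x.1)).trans ?_
    refine tsum_congr fun x => ?_
    rw [Set.indicator_apply]
    rfl
  have h7 : ∑' x : (W3 × W3) × (W3 × W3), (if Pr x then wx x.1.1 * wx x.1.2 * (wx x.2.1 * wx x.2.2) * e0 x.1 else 0) =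
      ∑' a : W3 × W3, ∑' b : W3 × W3, if Pr (a, b) then wx a.1 * wx a.2 * (wx b.1 * wx b.2) * e0 a else 0 :=
    ENNReal.tsum_prod' (f := fun x : (W3 × W3) × (W3 × W3) =>
      if Pr x then wx x.1.1 * wx x.1.2 * (wx x.2.1 * wx x.2.2) * e0 x.1 else 0)
  refine le_trans ?_ (ENNReal.tsum_le_tsum h3)
  rw [h4, h7, ← ENNReal.tsum_mul_left]
  refine ENNReal.tsum_le_tsum fun a => ?_
  by_cases ha : a ∈ St
  · rw [if_pos ha]
    have h5 := hκ a ha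
    rw [sum_pairs2 (Fbi i m) (Fbi j m) (fun b₁ b₂ => (en a.1 - en a.2) + en b₁ - en b₂ = z ∧ b₁ ∈ G₁ a ∧ b₂ ∈ G₂ a)
      (fun b₁ b₂ => wx b₁ * wx b₂)] at h5
    calc κ * (wx a.1 * wx a.2 * e0 a) ≤ (∑' b : W3 × W3, if b.1 ∈ Fbi i m ∧ b.2 ∈ Fbi j m ∧
          ((en a.1 - en a.2) + en b.1 - en b.2 = z ∧ b.1 ∈ G₁ a ∧ b.2 ∈ G₂ a) then wx b.1 * wx b.2 else 0) *
          (wx a.1 * wx a.2 * e0 a) := mul_le_mul_left h5 _
      _ = ∑' b : W3 × W3, if Pr (a, b) then wx a.1 * wx a.2 * (wx b.1 * wx b.2) * e0 a else 0 := by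
        rw [← ENNReal.tsum_mul_right]
        refine tsum_congr fun b => ?_
        rw [hPr]
        simp only [ha, true_and]
        split_ifs
        · ring
        · rw [zero_mul]
  · rw [if_neg ha, mul_zero]
    exact zero_le

/-! ### 3. prescribed slopes -/

/-- **LOW, with prescribed slopes and weights** -/
theorem lowK (R : ℕ) {η : ℝ} (hη : 0 < η) : ∃ (c : ℝ) (m0 : ℕ), 0 < c ∧ 1 ≤ m0 ∧ ∀ {i j : Fin 3}, i ≠ j → ∀ m : ℕ, m0 ≤ m →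
    ∀ (l l' S σ σ' : ℝ) (z : ℂ) (C St : Set (W3 × W3)) (e e0 : W3 × W3 → ℝ≥0∞), z ∈ Lat3 →
    Real.sqrt 3 * |σ| + 2 * (S + 5 * η) ≤ R → Real.sqrt 3 * |σ'| + 2 * (S + 5 * η) ≤ R →
    (∀ a ∈ St, Even a.1.length ∧ Even a.2.length) →
    (∀ a ∈ St, (∀ k : ℕ, k ≤ a.1.length → lv (ax i) (ps a.1 k) ≤ lv (ax i) (en a.1)) ∧ FstC (ax i) l a.1) →
    (∀ a ∈ St, (∀ k : ℕ, k ≤ a.2.length → lv (ax j) (ps a.2 k) ≤ lv (ax j) (en a.2)) ∧ FstC (ax j) l' a.2) →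
    (∀ a ∈ St, ‖z - (en a.1 - en a.2) - ((3 / 2 * m : ℝ) : ℂ) *
      (ax i * (1 - (σ : ℂ) * Complex.I) - ax j * (1 - (σ' : ℂ) * Complex.I))‖ ≤ S * m) →
    (∀ a ∈ St, ∀ (s s' : ℝ) (b b' : W3), Real.sqrt 3 * |s - σ| ≤ 2 * (S + 5 * η) → Real.sqrt 3 * |s' - σ'| ≤ 2 * (S + 5 * η) →
      GBk i m η s b → GBk j m η s' b' → (a.1 ++ b, a.2 ++ b') ∈ C ∧ e0 a ≤ e (a.1 ++ b, a.2 ++ b')) →
    ENNReal.ofReal (c / (m : ℝ) ^ 2) * (∑' a : W3 × W3, if a ∈ St then wx a.1 * wx a.2 * e0 a else 0) ≤ gam C e z := by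
  obtain ⟨α, c, m1, h1, h2, h3, h4, h5⟩ := blkL_of R hη
  obtain ⟨m2, hm2⟩ : ∃ m2 : ℕ, 200 / α ≤ m2 := ⟨⌈200 / α⌉₊, Nat.le_ceil _⟩
  refine ⟨α ^ 2 * c ^ 2 / 40000, m1 + m2, by positivity, by omega,
    fun {i j} hij m hm l l' S σ σ' z C St e e0 hz hS hS' hev hl1 hl2 hre hC => ?_⟩
  have hm1 : 1 ≤ m := by omega
  have hm' : (1 : ℝ) ≤ m := by exact_mod_cast hm1
  have hmα : 200 ≤ α * m := by
    have h6 : (m2 : ℝ) ≤ m := by exact_mod_cast (by omega : m2 ≤ m)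
    rw [div_le_iff₀ h1] at hm2
    nlinarith
  have p3 : 0 < Real.sqrt 3 := Real.sqrt_pos.2 (by norm_num)
  have q3 : Real.sqrt 3 * Real.sqrt 3 = 3 := Real.mul_self_sqrt (by norm_num)
  obtain ⟨τ, hτ⟩ : ∃ τ : ℝ, τ = (1 + 3 / 2 * α) * m := ⟨_, rfl⟩
  obtain ⟨r, hr⟩ : ∃ r : ℝ, r = α * m / 2 := ⟨_, rfl⟩
  have hrτ : r ≤ τ := by
    rw [hr, hτ]
    nlinarith
  -- one block
  have blk : ∀ (i : Fin 3) (s x1 : ℝ), Real.sqrt 3 * |s| ≤ R → Real.sqrt 3 * s * m = x1 → ∀ (T : ℕ) (x : ℤ),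
      |(T : ℝ) - τ| ≤ r → |(x : ℝ) - x1| ≤ r → Even (x - T) → ENNReal.ofReal (c / (m : ℝ) ^ 2) ≤
        gf {b | b ∈ FB m ∧ b ∈ HexObs.RP.EndB T x ∧ rt i (wl b) ∈ {b | GBk i m η s b}} := by
    intro i s x1 hs hx1 T x hT hx hp
    rw [abs_le] at hT
    have t1 : (1 + α) * m ≤ T := by linarith [hT.1]
    have t2 : (T : ℝ) ≤ (1 + 2 * α) * m := by linarith [hT.2]
    refine (h5 (fun t => Real.sqrt 3 * s * t) (fun a b => ?_) (by simp) m T x (by omega) t1 t2 ?_ hp).trans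
      (HexObs.gf_mono fun b hb => ?_)
    · rw [← mul_sub, abs_mul, abs_mul, abs_of_pos p3]
      exact mul_le_mul_of_nonneg_right hs (abs_nonneg _)
    · rw [hx1]
      refine hx.trans ?_
      rw [hr]
      nlinarith
    · obtain ⟨g1, g2, g3, g4, g5⟩ := hb
      exact ⟨g1, ⟨g2, g3⟩, gbk_of hm1 h2 t2 g1 g2 g4 g5⟩
  -- the two blocks
  have key : ∀ a : W3 × W3, ∃ s1 s2 : ℝ, a ∈ St → (Real.sqrt 3 * |s1 - σ| ≤ 2 * (S + 5 * η) ∧
      Real.sqrt 3 * |s2 - σ'| ≤ 2 * (S + 5 * η) ∧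
      ENNReal.ofReal (α ^ 2 * c ^ 2 / 40000 / (m : ℝ) ^ 2) ≤ ∑' b₁ : Fbi i m, ∑' b₂ : Fbi j m,
        if (en a.1 - en a.2) + en b₁.1 - en b₂.1 = z ∧ b₁.1 ∈ {b | GBk i m η s1 b} ∧ b₂.1 ∈ {b | GBk j m η s2 b}
        then wx b₁.1 * wx b₂.1 else 0) := by
    intro a
    by_cases ha : a ∈ St
    swap
    · exact ⟨0, 0, fun h => absurd h ha⟩
    obtain ⟨v, hv⟩ : ∃ v : ℂ, v = z - (en a.1 - en a.2) - ((3 / 2 * τ : ℝ) : ℂ) * (ax i - ax j) +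
      ((3 / 2 * m : ℝ) : ℂ) * (ax i * ((σ : ℂ) * Complex.I) - ax j * ((σ' : ℂ) * Complex.I)) := ⟨_, rfl⟩
    obtain ⟨x1, x2, k1, k2, k3⟩ := slopes_of hij v
    have hvn : ‖v‖ ≤ (S + 5 * η) * m := by
      have e1 : v = (z - (en a.1 - en a.2) - ((3 / 2 * m : ℝ) : ℂ) *
          (ax i * (1 - (σ : ℂ) * Complex.I) - ax j * (1 - (σ' : ℂ) * Complex.I))) -
          ((9 / 4 * (α * m) : ℝ) : ℂ) * (ax i - ax j) := by
        rw [hv, hτ]
        push_cast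
        ring
      have e2 : ‖((9 / 4 * (α * m) : ℝ) : ℂ) * (ax i - ax j)‖ ≤ 9 / 4 * (α * m) * 2 := by
        rw [norm_mul, Complex.norm_real, Real.norm_of_nonneg (by positivity)]
        refine mul_le_mul_of_nonneg_left ?_ (by positivity)
        refine (norm_sub_le _ _).trans ?_
        rw [norm_ax, norm_ax]
        norm_num
      rw [e1]
      refine (norm_sub_le _ _).trans ?_
      have e3 := hre a ha
      nlinarith
    have hs : ∀ x y : ℝ, |x| ≤ 2 * ‖v‖ → Real.sqrt 3 * |(y + x / (Real.sqrt 3 * m)) - y| ≤ 2 * (S + 5 * η) ∧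
        Real.sqrt 3 * (y + x / (Real.sqrt 3 * m)) * m = Real.sqrt 3 * y * m + x := by
      intro x y hx
      have hpos : 0 < Real.sqrt 3 * m := by positivity
      constructor
      · rw [add_sub_cancel_left, abs_div, abs_of_pos hpos]
        have e4 : Real.sqrt 3 * (|x| / (Real.sqrt 3 * m)) = |x| / m := by
          field_simp
        rw [e4, div_le_iff₀ (by linarith)]
        linarith
      · field_simp
    have hR : ∀ s y : ℝ, Real.sqrt 3 * |s - y| ≤ 2 * (S + 5 * η) → Real.sqrt 3 * |y| + 2 * (S + 5 * η) ≤ R →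
        Real.sqrt 3 * |s| ≤ R := by
      intro s y hsy hy
      have h6 : |s| ≤ |s - y| + |y| := by
        have := abs_add_le (s - y) y
        rwa [sub_add_cancel] at this
      have h7 := mul_le_mul_of_nonneg_left h6 p3.le
      rw [mul_add] at h7
      linarith
    obtain ⟨a1, a2⟩ := hs x1 σ k1
    obtain ⟨a3, a4⟩ := hs x2 σ' k2
    refine ⟨σ + x1 / (Real.sqrt 3 * m), σ' + x2 / (Real.sqrt 3 * m), fun _ => ⟨a1, a3, ?_⟩⟩
    have t := two_low (i := i) (j := j) (m₁ := m) (m₂ := m) (G₁ := {b | GBk i m η (σ + x1 / (Real.sqrt 3 * m)) b})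
      (G₂ := {b | GBk j m η (σ' + x2 / (Real.sqrt 3 * m)) b}) (κ₁ := ENNReal.ofReal (c / (m : ℝ) ^ 2))
      (κ₂ := ENNReal.ofReal (c / (m : ℝ) ^ 2)) (τ₁ := τ) (x₁ := Real.sqrt 3 * σ * m + x1) (τ₂ := τ)
      (x₂ := Real.sqrt 3 * σ' * m + x2) (r := r)
      (by rw [hr]; linarith) hrτ hrτ (blk i _ _ (hR _ _ a1 hS) a2) (blk j _ _ (hR _ _ a3 hS') a4)
      (d := en a.1 - en a.2) (z := z) (lat3_sub hz (lat3_sub (lat3_en (hev a ha).1) (lat3_en (hev a ha).2))) (by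
        have e5 : z - (en a.1 - en a.2) - (ax i * ⟨3 * τ / 2, -(Real.sqrt 3 / 2 * (Real.sqrt 3 * σ * m + x1))⟩ - ax j *
            ⟨3 * τ / 2, -(Real.sqrt 3 / 2 * (Real.sqrt 3 * σ' * m + x2))⟩) = 0 := by
          have e6 : ∀ x y : ℝ, (⟨3 * τ / 2, -(Real.sqrt 3 / 2 * (Real.sqrt 3 * y * m + x))⟩ : ℂ) = ((3 / 2 * τ : ℝ) : ℂ) +
              ⟨0, -(Real.sqrt 3 / 2 * x)⟩ - ((3 / 2 * m : ℝ) : ℂ) * ((y : ℂ) * Complex.I) := by
            intro x y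
            apply Complex.ext
            · simp
              ring
            · simp
              linear_combination (-(y * m / 2)) * q3
          rw [e6, e6]
          have e7 : z - (en a.1 - en a.2) = v + ((3 / 2 * τ : ℝ) : ℂ) * (ax i - ax j) -
              ((3 / 2 * m : ℝ) : ℂ) * (ax i * ((σ : ℂ) * Complex.I) - ax j * ((σ' : ℂ) * Complex.I)) := by
            rw [hv]
            ring
          rw [e7]
          linear_combination k3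
        rw [e5, norm_zero]
        rw [hr]
        positivity)
    refine le_trans (le_of_eq ?_) t
    rw [← ENNReal.ofReal_mul (by positivity), ← ENNReal.ofReal_mul (by positivity)]
    congr 1
    rw [hr]
    field_simp
    ring
  choose f1 f2 hf using key
  refine gam_startsW (i := i) (j := j) (m := m) hm1 (l := l) (l' := l') (G₁ := fun a => {b | GBk i m η (f1 a) b})
    (G₂ := fun a => {b | GBk j m η (f2 a) b}) hev hl1 hl2 (fun a ha b _ b' _ g g' => ?_) fun a ha => (hf a ha).2.2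
  exact hC a ha (f1 a) (f2 a) b b' (hf a ha).1 (hf a ha).2.1 g g'

/-! ### 4. the connections with double gates -/

lemma StP.left1 {d d' : ℂ} {r l κ : ℝ} {a : W3 × W3} (h : StP d d' r l κ a) :
    (∀ k : ℕ, k ≤ a.1.length → lv d (ps a.1 k) ≤ lv d (en a.1)) ∧ FstC d l a.1 := ⟨h.t1.left, h.f1⟩

lemma StP.left2 {d d' : ℂ} {r l κ : ℝ} {a : W3 × W3} (h : StP d d' r l κ a) :
    (∀ k : ℕ, k ≤ a.2.length → lv d' (ps a.2 k) ≤ lv d' (en a.2)) ∧ FstC d' l a.2 := ⟨h.t2.left, h.f2⟩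

/-- **LOW for the connections with double gates**: for every set `St` of start pairs of the class (and every weight `e` which is
at least `e0` on the pairs of good blocks): `M` = the height of the blocks, level `m` -/
theorem lowD {η : ℝ} (hη : 0 < η) (hη1 : η ≤ 1 / 40) : ∃ (c : ℝ) (m0 : ℕ), 0 < c ∧ 1 ≤ m0 ∧ ∀ {i j : Fin 3}, i ≠ j →
    ∀ (r l r2 m κ1 κ : ℝ) (M : ℕ) (z : ℂ) (St C : Set (W3 × W3)) (e e0 : W3 × W3 → ℝ≥0∞), 0 < m → M = ⌈2 * m / 3⌉₊ → m0 ≤ M →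
    z ∈ Lat3 → St ⊆ StD i j r l (κ1 + κ) → CD (ax i) (ax j) r l r2 m κ1 κ ⊆ C →
    ‖z - ((3 / 2 * M : ℝ) : ℂ) * (ax i - ax j)‖ + 2 * r ≤ 3 / 8 * M → 3 * M ≤ r2 → η * M / 2 < κ1 →
    (∀ a ∈ St, ∀ (s s' : ℝ) (b b' : W3), |s| ≤ 3 / 5 → |s'| ≤ 3 / 5 → GBk i M η s b → GBk j M η s' b' →
      e0 a ≤ e (a.1 ++ b, a.2 ++ b')) →
    ENNReal.ofReal (c / (M : ℝ) ^ 2) * (∑' a : W3 × W3, if a ∈ St then wx a.1 * wx a.2 * e0 a else 0) ≤ gam C e z := by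
  obtain ⟨c, m0, hc, hm0, h⟩ := lowK 1 hη
  refine ⟨c, m0, hc, hm0, fun {i j} hij r l r2 m κ1 κ M z St C e e0 hm hM hM0 hz hSt hCC hre hr2 hκ he => ?_⟩
  have hM1 : (0 : ℝ) ≤ M := by positivity
  have q3 : Real.sqrt 3 * Real.sqrt 3 = 3 := Real.mul_self_sqrt (by norm_num)
  have p3 : 0 < Real.sqrt 3 := Real.sqrt_pos.2 (by norm_num)
  have hsl : ∀ s : ℝ, Real.sqrt 3 * |s - 0| ≤ 2 * (3 / 8 + 5 * η) → |s| ≤ 3 / 5 := by
    intro s hs
    rw [sub_zero] at hs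
    have h1 : Real.sqrt 3 * |s| ≤ 1 := by linarith
    have h2 : (5 / 3 : ℝ) ≤ Real.sqrt 3 := by
      rw [show (5 / 3 : ℝ) = Real.sqrt ((5 / 3) ^ 2) by rw [Real.sqrt_sq (by norm_num)]]
      exact Real.sqrt_le_sqrt (by norm_num)
    nlinarith [abs_nonneg s]
  refine h hij M hM0 l l (3 / 8) 0 0 z C St e e0 hz ?_ ?_ (fun a ha => ⟨(hSt ha).t1.ev, (hSt ha).t2.ev⟩)
    (fun a ha => (hSt ha).left1) (fun a ha => (hSt ha).left2) (fun a ha => ?_) fun a ha s s' b b' hs hs' g g' => ⟨hCC ?_, ?_⟩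
  · rw [abs_zero, mul_zero]
    push_cast
    linarith
  · rw [abs_zero, mul_zero]
    push_cast
    linarith
  · have h1 : ‖en a.1 - en a.2‖ ≤ 2 * r := by
      refine (norm_sub_le _ _).trans ?_
      linarith [norm_en_le (hSt ha).t1, norm_en_le (hSt ha).t2]
    have e1 : z - (en a.1 - en a.2) - ((3 / 2 * M : ℝ) : ℂ) * (ax i * (1 - ((0 : ℝ) : ℂ) * Complex.I) -
        ax j * (1 - ((0 : ℝ) : ℂ) * Complex.I)) = (z - ((3 / 2 * M : ℝ) : ℂ) * (ax i - ax j)) - (en a.1 - en a.2) := by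
      push_cast
      ring
    rw [e1]
    refine (norm_sub_le _ _).trans ?_
    linarith
  · have b1 := hsl s hs
    have b2 := hsl s' hs'
    have c1 : ∀ s : ℝ, |s| ≤ 3 / 5 → s ^ 2 ≤ 3 := fun s hs => by
      have := sq_abs s
      nlinarith [abs_nonneg s]
    have c2 : ∀ s : ℝ, |s| ≤ 3 / 5 → (3 / 2 * (1 + 2 * η) * (1 + |s|) + η) * M ≤ r2 := fun s hs => by
      refine le_trans (mul_le_mul_of_nonneg_right ?_ hM1) hr2
      nlinarith [abs_nonneg s]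
    subst hM
    exact cd_of_gbk hm (hSt ha) g g' (c1 s b1) (c1 s' b2) (c2 s b1) (c2 s' b2) hκ
  · exact he a ha s s' b b' (hsl s hs) (hsl s' hs') g g'

end Pool.Agent.ROT.F3
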