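import Pool.Agent.ROT.F3Piece
import Pool.Agent.ROT.PubW

/-!
# ROT, F3 (B), row W10 (helper12): from the gated sums to the law of the walk with `n` steps

The input (`Gt`, for one lattice, one scale `N`, one function `F`) is a weight `G w i j ≥ 0` of a word `w` and two indices
`i ≤ j` near its two ends (gates). The gated sum `SS` counts the pieces from `i` to `j` of the critical words, scaled by
`size N`, with a cutoff of their length around `N`.

* `win_num` : the numbers of the window;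
* **`tip`** : `|S(F) - E_N F . S(1)| <= eps S(1)`, from a lower bound of `S(1)`, the mixing and the tips being short;
* **`low_exact`** : the lower bound of `S(1)` from one for the walks with `n` steps, all even `n` of the window;
* **`end_pt`** : if the gated sums of the two lattices agree up to `eps`, the law of the walk is invariant under the rotation up to
  `3 eps` (`end_rot`, `rotW_small` : `F3Tip12b`).
-/

set_option autoImplicit false

open MeasureTheory Filter Topology Finset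
open scoped ENNReal NNReal

namespace Pool.Agent.ROT.F3E

open Pool.Agent.NTS.Res Pool.Agent.CRT Pool.Agent.ROT.F3

/-! ### the numbers of the window -/

theorem win_num {W : Finset ℕ} {a g p q b k : ℕ → ℝ} {e β p0 : ℝ} (he : 0 ≤ e) (hβ : |β| ≤ 1)
    (ha : ∀ n ∈ W, 0 ≤ a n) (hg0 : ∀ n ∈ W, 0 ≤ g n) (hg1 : ∀ n ∈ W, g n ≤ a n)
    (hk0 : ∀ n ∈ W, 0 ≤ k n) (hk1 : ∀ n ∈ W, k n ≤ 1)
    (hp : ∀ n ∈ W, |p n - k n * b n * g n| ≤ e * a n) (hq : ∀ n ∈ W, |q n - k n * g n| ≤ e * a n)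
    (hb : ∀ n ∈ W, |b n - β| ≤ e) (hp0 : 0 < p0) (hlow : p0 * ∑ n ∈ W, a n ≤ ∑ n ∈ W, q n) :
    |∑ n ∈ W, p n - β * ∑ n ∈ W, q n| ≤ 3 * e / p0 * ∑ n ∈ W, q n := by
  have h1 : |∑ n ∈ W, p n - β * ∑ n ∈ W, q n| ≤ 3 * e * ∑ n ∈ W, a n := by
    rw [mul_sum, ← sum_sub_distrib, mul_sum]
    refine (abs_sum_le_sum_abs _ _).trans (sum_le_sum fun n hn => ?_)
    have e1 : p n - β * q n = (p n - k n * b n * g n) + k n * g n * (b n - β) - β * (q n - k n * g n) := by ring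
    rw [e1]
    have h2 : |k n * g n * (b n - β)| ≤ e * a n := by
      rw [abs_mul, abs_of_nonneg (mul_nonneg (hk0 n hn) (hg0 n hn))]
      have h3 : k n * g n ≤ a n := by
        calc k n * g n ≤ 1 * g n := mul_le_mul_of_nonneg_right (hk1 n hn) (hg0 n hn)
          _ ≤ a n := by rw [one_mul]; exact hg1 n hn
      calc k n * g n * |b n - β| ≤ a n * e := mul_le_mul h3 (hb n hn) (abs_nonneg _) (ha n hn)
        _ = e * a n := mul_comm _ _
    have h4 : |β * (q n - k n * g n)| ≤ e * a n := by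
      rw [abs_mul]
      calc |β| * |q n - k n * g n| ≤ 1 * (e * a n) :=
            mul_le_mul hβ (hq n hn) (abs_nonneg _) zero_le_one
        _ = e * a n := one_mul _
    have h5 := hp n hn
    rw [abs_le] at h2 h4 h5 ⊢
    constructor <;> linarith [h2.1, h2.2, h4.1, h4.2, h5.1, h5.2]
  refine h1.trans ?_
  calc 3 * e * ∑ n ∈ W, a n = 3 * e / p0 * (p0 * ∑ n ∈ W, a n) := by
        field_simp
    _ ≤ _ := mul_le_mul_of_nonneg_left hlow (by positivity)

/-! ### the window -/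

open Classical in
/-- the numbers of steps `n` with `|n / N - 1| ≤ t` -/
noncomputable def Wn (N : ℕ) (t : ℝ) : Finset ℕ := (range (3 * N + 1)).filter fun n => |(n : ℝ) / N - 1| ≤ t

lemma mem_Wn {N n : ℕ} (hN : 1 ≤ N) {t : ℝ} (ht : t ≤ 1) : n ∈ Wn N t ↔ |(n : ℝ) / N - 1| ≤ t := by
  unfold Wn
  rw [mem_filter, mem_range]
  refine ⟨fun h => h.2, fun h => ⟨?_, h⟩⟩
  have hN0 : (0 : ℝ) < N := by exact_mod_cast hN
  have h1 := (abs_le.1 h).2
  have h2 : (n : ℝ) ≤ 2 * N := by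
    have : (n : ℝ) / N ≤ 2 := by linarith
    rwa [div_le_iff₀ hN0] at this
  have h3 : n ≤ 2 * N := by exact_mod_cast h2
  omega

lemma Wn_iff {N n : ℕ} (hN : 1 ≤ N) {t : ℝ} (ht : t ≤ 1) : n ∈ Wn N t ↔ (1 - t) * N ≤ n ∧ (n : ℝ) ≤ (1 + t) * N := by
  have hN0 : (0 : ℝ) < N := by exact_mod_cast hN
  rw [mem_Wn hN ht, abs_le]
  constructor
  · rintro ⟨h1, h2⟩
    have h3 : 1 - t ≤ (n : ℝ) / N := by linarith
    have h4 : (n : ℝ) / N ≤ 1 + t := by linarith
    rw [le_div_iff₀ hN0] at h3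
    rw [div_le_iff₀ hN0] at h4
    exact ⟨h3, h4⟩
  · rintro ⟨h1, h2⟩
    rw [← le_div_iff₀ hN0] at h1
    rw [← div_le_iff₀ hN0] at h2
    constructor <;> linarith

/-- slow change on the window -/
theorem slow_win {e : ℝ} (he : 0 < e) : ∃ t0 : ℝ, 0 < t0 ∧ t0 ≤ 1 / 8 ∧ ∀ th : ℝ, 0 < th → th ≤ t0 →
    ∀ᶠ N in atTop, ∀ n ∈ Wn N (2 * th), ∀ m ∈ Wn N (2 * th), aN n ≤ 2 * aN m ∧ |size n / size m - 1| ≤ e ∧
      ∀ f : CI → ℝ, LipschitzWith 1 f → (∀ γ, |f γ| ≤ 1) → |∫ γ, f γ ∂(law n) - ∫ γ, f γ ∂(law m)| ≤ e := by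
  obtain ⟨δ, hδ, h⟩ := slow_lip (ε := min (e / 2) (1 / 2)) (lt_min (by positivity) (by norm_num))
  refine ⟨min (1 / 8) (δ / 16), lt_min (by norm_num) (by positivity), min_le_left _ _, fun th ht ht0 => ?_⟩
  have h8 : th ≤ 1 / 8 := ht0.trans (min_le_left _ _)
  have h16 : 16 * th ≤ δ := by linarith [ht0.trans (min_le_right _ _)]
  filter_upwards [eventually_ge_atTop (max 2 ⌈2 / δ⌉₊)] with N hN
  have hN1 : 2 ≤ N := (le_max_left _ _).trans hN
  have hNd : 2 / δ ≤ N := (Nat.le_ceil _).trans (by exact_mod_cast (le_max_right 2 ⌈2 / δ⌉₊).trans hN)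
  have hN0 : (0 : ℝ) < N := by exact_mod_cast (show 0 < N by omega)
  have key : ∀ n ∈ Wn N (2 * th), ∀ m ∈ Wn N (2 * th), n ≤ m → 1 ≤ n ∧ 1 / δ ≤ n ∧ (m : ℝ) ≤ (1 + δ) * n := by
    intro n hn m hm hnm
    rw [Wn_iff (by omega) (by linarith)] at hn hm
    have h1 : (N : ℝ) / 2 ≤ n := by nlinarith [hn.1]
    have h2 : (1 : ℝ) ≤ N / 2 := by
      have : (2 : ℝ) ≤ N := by exact_mod_cast hN1
      linarith
    refine ⟨by exact_mod_cast h2.trans h1, ?_, ?_⟩
    · refine le_trans ?_ h1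
      have : (1 : ℝ) / δ = 2 / δ / 2 := by ring
      rw [this]
      linarith
    · have h3 : (4 * th) * N ≤ δ * n := by nlinarith
      nlinarith [hm.2, hn.1]
  have e2 : min (e / 2) (1 / 2) ≤ e / 2 := min_le_left _ _
  have e3 : min (e / 2) (1 / 2) ≤ 1 / 2 := min_le_right _ _
  intro n hn m hm
  rcases le_total n m with hnm | hnm
  · obtain ⟨k1, k2, k3⟩ := key n hn m hm hnm
    obtain ⟨h1, h2, h3⟩ := h n m k2 hnm k3
    have ha := WK.aN_pos n
    have hs := NTSF.size_pos k1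
    have hs' := NTSF.size_pos (k1.trans hnm)
    refine ⟨?_, ?_, fun f hf hf1 => ?_⟩
    · have h4 : (1 : ℝ) / 2 ≤ aN m / aN n := by linarith [(abs_le.1 h1).1]
      rw [le_div_iff₀ ha] at h4
      linarith
    · obtain ⟨q, hq⟩ : ∃ q, q = size m / size n := ⟨_, rfl⟩
      rw [← hq] at h2
      have hq1 : 1 / 2 ≤ q := by linarith [(abs_le.1 h2).1]
      have e4 : size n / size m - 1 = (1 - q) / q := by
        rw [hq]
        field_simp
      rw [e4, abs_div, abs_of_pos (show (0 : ℝ) < q by linarith), div_le_iff₀ (by linarith), abs_sub_comm]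
      calc |q - 1| ≤ e / 2 := h2.trans e2
        _ ≤ e * q := by nlinarith
    · rw [abs_sub_comm]
      exact (h3 f hf hf1).trans (by linarith)
  · obtain ⟨k1, k2, k3⟩ := key m hm n hn hnm
    obtain ⟨h1, h2, h3⟩ := h m n k2 hnm k3
    have ha := WK.aN_pos m
    refine ⟨?_, by linarith, fun f hf hf1 => (h3 f hf hf1).trans (by linarith)⟩
    have h4 : aN n / aN m ≤ 2 := by linarith [(abs_le.1 h1).2]
    rwa [div_le_iff₀ ha] at h4

/-- the two windows; the numbers of steps in the inner one are even -/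
theorem win_cmp : ∃ t0 : ℝ, 0 < t0 ∧ t0 ≤ 1 / 8 ∧ ∀ th : ℝ, 0 < th → th ≤ t0 →
    ∀ᶠ N in atTop, (∑ n ∈ Wn N (2 * th), aN n ≤ 288 * ∑ n ∈ (Wn N (th / 2)).filter fun n => Even n, aN n) ∧
      ((Wn N (th / 2)).filter fun n => Even n).Nonempty := by
  obtain ⟨t0, h0, h8, h⟩ := slow_win one_pos
  refine ⟨t0, h0, h8, fun th ht ht0 => ?_⟩
  filter_upwards [h th ht ht0, eventually_ge_atTop (max 1 ⌈8 / th⌉₊)] with N hs hN
  have hN1 : 1 ≤ N := (le_max_left _ _).trans hN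
  have hNt : 8 / th ≤ N := (Nat.le_ceil _).trans (by exact_mod_cast (le_max_right 1 ⌈8 / th⌉₊).trans hN)
  have hN0 : (0 : ℝ) < N := by exact_mod_cast hN1
  have hNth : 8 ≤ th * N := by rwa [div_le_iff₀' ht] at hNt
  have hin : ∀ {n}, n ∈ Wn N (th / 2) → n ∈ Wn N (2 * th) := by
    intro n hn
    rw [mem_Wn hN1 (by linarith)] at hn ⊢
    linarith
  have hNm : N ∈ Wn N (2 * th) := by
    rw [mem_Wn hN1 (by linarith), div_self hN0.ne', sub_self, abs_zero]
    linarith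
  have ha := WK.aN_pos N
  have c1 : ((Wn N (2 * th)).card : ℝ) ≤ 4 * th * N + 1 := by
    have hsub : Wn N (2 * th) ⊆ Finset.Icc ⌈(1 - 2 * th) * N⌉₊ ⌊(1 + 2 * th) * N⌋₊ := by
      intro n hn
      rw [Wn_iff hN1 (by linarith)] at hn
      rw [Finset.mem_Icc]
      exact ⟨Nat.ceil_le.2 hn.1, Nat.le_floor hn.2⟩
    have h1 := card_le_card hsub
    rw [Nat.card_Icc] at h1
    have h2 : (⌊(1 + 2 * th) * N⌋₊ : ℝ) ≤ (1 + 2 * th) * N := Nat.floor_le (by positivity)
    have h3 : (1 - 2 * th) * N ≤ (⌈(1 - 2 * th) * N⌉₊ : ℝ) := Nat.le_ceil _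
    rcases le_total ⌈(1 - 2 * th) * N⌉₊ (⌊(1 + 2 * th) * N⌋₊ + 1) with h4 | h4
    · have h5 : ((Wn N (2 * th)).card : ℝ) ≤ (⌊(1 + 2 * th) * N⌋₊ + 1 - ⌈(1 - 2 * th) * N⌉₊ : ℕ) := by exact_mod_cast h1
      rw [Nat.cast_sub h4] at h5
      push_cast at h5
      linarith
    · rw [Nat.sub_eq_zero_of_le h4, Nat.le_zero] at h1
      rw [h1, Nat.cast_zero]
      positivity
  -- the even numbers `2 ⌈N / 2⌉ + 2 k`
  obtain ⟨M, hM⟩ : ∃ M : ℕ, M = ⌊th * N / 8⌋₊ := ⟨_, rfl⟩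
  have hM1 : 1 ≤ M := by
    rw [hM]
    exact Nat.le_floor (by rw [Nat.cast_one]; linarith)
  have hM2 : (M : ℝ) ≤ th * N / 8 := by
    rw [hM]
    exact Nat.floor_le (by positivity)
  have hM3 : th * N / 16 ≤ M := by
    have h1 : th * N / 8 < ⌊th * N / 8⌋₊ + 1 := Nat.lt_floor_add_one _
    rw [← hM] at h1
    have h2 : (1 : ℝ) ≤ M := by exact_mod_cast hM1
    linarith
  have hev : ∀ k ∈ range M, 2 * ((N + 1) / 2) + 2 * k ∈ (Wn N (th / 2)).filter fun n => Even n := by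
    intro k hk
    rw [mem_range] at hk
    rw [mem_filter, Wn_iff hN1 (by linarith)]
    refine ⟨⟨?_, ?_⟩, ⟨(N + 1) / 2 + k, by ring⟩⟩
    · have h1 : N ≤ 2 * ((N + 1) / 2) + 2 * k := by omega
      have h2 : (N : ℝ) ≤ (2 * ((N + 1) / 2) + 2 * k : ℕ) := by exact_mod_cast h1
      nlinarith
    · have h1 : 2 * ((N + 1) / 2) + 2 * k ≤ N + 1 + 2 * M := by omega
      have h2 : ((2 * ((N + 1) / 2) + 2 * k : ℕ) : ℝ) ≤ N + 1 + 2 * M := by exact_mod_cast h1
      nlinarith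
  have c2 : th * N / 16 ≤ (((Wn N (th / 2)).filter fun n => Even n).card : ℝ) := by
    have h1 : M ≤ ((Wn N (th / 2)).filter fun n => Even n).card := by
      rw [← card_range M]
      exact card_le_card_of_injOn _ (fun k hk => hev k (mem_coe.1 hk)) fun a _ b _ hab => by
        have : 2 * ((N + 1) / 2) + 2 * a = 2 * ((N + 1) / 2) + 2 * b := hab
        omega
    have h2 : (M : ℝ) ≤ ((Wn N (th / 2)).filter fun n => Even n).card := by exact_mod_cast h1
    linarith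
  refine ⟨?_, ⟨_, hev 0 (mem_range.2 hM1)⟩⟩
  have s1 : ∑ n ∈ Wn N (2 * th), aN n ≤ (4 * th * N + 1) * (2 * aN N) := by
    calc ∑ n ∈ Wn N (2 * th), aN n ≤ ∑ n ∈ Wn N (2 * th), 2 * aN N := sum_le_sum fun n hn => (hs n hn N hNm).1
      _ = ((Wn N (2 * th)).card : ℝ) * (2 * aN N) := by rw [sum_const, nsmul_eq_mul]
      _ ≤ _ := mul_le_mul_of_nonneg_right c1 (by positivity)
  have s2 : th * N / 16 * (aN N / 2) ≤ ∑ n ∈ (Wn N (th / 2)).filter fun n => Even n, aN n := by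
    calc th * N / 16 * (aN N / 2) ≤ (((Wn N (th / 2)).filter fun n => Even n).card : ℝ) * (aN N / 2) :=
          mul_le_mul_of_nonneg_right c2 (by positivity)
      _ = ∑ n ∈ (Wn N (th / 2)).filter fun n => Even n, aN N / 2 := by rw [sum_const, nsmul_eq_mul]
      _ ≤ _ := sum_le_sum fun n hn => by linarith [(hs N hNm n (hin (mem_filter.1 hn).1)).1]
  have h5 : (4 * th * N + 1) * (2 * aN N) ≤ 288 * (th * N / 16 * (aN N / 2)) := by nlinarith
  linarith

/-! ### the cutoff of the lengths -/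

/-- the trapezium: `1` on `|T - 1| ≤ th / 2`, `0` off `|T - 1| ≤ th` -/
noncomputable def ct (th T : ℝ) : ℝ := max 0 (min 1 (2 - 2 * |T - 1| / th))

lemma ct_nonneg (th T : ℝ) : 0 ≤ ct th T := le_max_left _ _

lemma ct_le_one (th T : ℝ) : ct th T ≤ 1 := max_le zero_le_one (min_le_left _ _)

lemma ct_one {th T : ℝ} (hth : 0 < th) (h : |T - 1| ≤ th / 2) : ct th T = 1 := by
  have h1 : 2 * |T - 1| / th ≤ 1 := by
    rw [div_le_one hth]
    linarith
  unfold ct
  rw [min_eq_left (by linarith), max_eq_right zero_le_one]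

lemma ct_zero {th T : ℝ} (hth : 0 < th) (h : th ≤ |T - 1|) : ct th T = 0 := by
  have h1 : 2 ≤ 2 * |T - 1| / th := by
    rw [le_div_iff₀ hth]
    linarith
  unfold ct
  exact max_eq_left ((min_le_right _ _).trans (by linarith))

lemma ct_lip {th : ℝ} (hth : 0 < th) (T T' : ℝ) : |ct th T - ct th T'| ≤ 2 / th * |T - T'| := by
  have h1 : |ct th T - ct th T'| ≤ |min 1 (2 - 2 * |T - 1| / th) - min 1 (2 - 2 * |T' - 1| / th)| := by
    unfold ct
    rw [max_comm 0, max_comm 0]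
    exact abs_sup_sub_sup_le_abs _ _ _
  have h2 : |min 1 (2 - 2 * |T - 1| / th) - min 1 (2 - 2 * |T' - 1| / th)| ≤
      |(2 - 2 * |T - 1| / th) - (2 - 2 * |T' - 1| / th)| := by
    rw [min_comm 1, min_comm 1]
    exact abs_inf_sub_inf_le_abs _ _ _
  have h3 : (2 - 2 * |T - 1| / th) - (2 - 2 * |T' - 1| / th) = 2 / th * (|T' - 1| - |T - 1|) := by ring
  have h4 : |(|T' - 1| - |T - 1|)| ≤ |T - T'| := by
    have := abs_abs_sub_abs_le (T' - 1) (T - 1)
    rwa [sub_sub_sub_cancel_right, abs_sub_comm T' T] at this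
  have h5 : (0 : ℝ) < 2 / th := by positivity
  rw [h3, abs_mul, abs_of_pos h5] at h2
  exact h1.trans (h2.trans (mul_le_mul_of_nonneg_left h4 h5.le))

/-! ### gates -/

/-- the weight of the gates of a word -/
noncomputable def Gam (G : W3 → ℕ → ℕ → ℝ) (w : W3) : ℝ :=
  ∑ i ∈ range (w.length + 1), ∑ j ∈ range (w.length + 1), G w i j

/-- the gated sum, words with `n` letters -/
noncomputable def SG (G : W3 → ℕ → ℕ → ℝ) (N : ℕ) (H : CI → ℝ → ℝ) (n : ℕ) : ℝ :=
  fug ^ n * ∑ s ∈ saw n, ∑ i ∈ range (n + 1), ∑ j ∈ range (n + 1),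
    G (List.ofFn s) i j * H (crv ((List.ofFn s).drop i) (j - i) (size N)) (((j - i : ℕ) : ℝ) / N)

/-- **the gated sum**, all numbers of letters, the length of the piece near `N` -/
noncomputable def SS (G : W3 → ℕ → ℕ → ℝ) (N : ℕ) (th : ℝ) (f : CI → ℝ) : ℝ :=
  ∑' n, SG G N (fun γ T => f γ * ct th T) n

/-- the gates of one lattice at the scale `N`, without the numbers -/
structure Gb (e th : ℝ) (G : W3 → ℕ → ℕ → ℝ) (N : ℕ) : Prop where
  nn : ∀ w i j, 0 ≤ G w i j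
  supp : ∀ w i j, SW w → G w i j ≠ 0 → Even i ∧ i ≤ j ∧ j ≤ w.length ∧ (i : ℝ) ≤ e * th * N ∧
    (w.length : ℝ) - j ≤ e * th * N
  one : ∀ w, SW w → Gam G w ≤ 1

/-- the gates of one lattice at the scale `N`, with the mixing for the function `F` -/
structure Gm (e th : ℝ) (F : CI → ℝ) (G : W3 → ℕ → ℕ → ℝ) (N : ℕ) : Prop extends Gb e th G N where
  mix : ∀ n ∈ Wn N (2 * th), |∑ s ∈ saw n, Gam G (List.ofFn s) * F (curve s) -
    (∑ s ∈ saw n, Gam G (List.ofFn s)) * ∫ γ, F γ ∂(law n)| ≤ e * (saw n).card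

/-- **the gates of one lattice at the scale `N`**: with a lower bound of the gated sum (all numbers of letters together) -/
structure Gt (p0 e th : ℝ) (F : CI → ℝ) (G : W3 → ℕ → ℕ → ℝ) (N : ℕ) : Prop extends Gm e th F G N where
  low : p0 * ∑ n ∈ Wn N (2 * th), aN n ≤ SS G N th (fun _ => 1)

/-- **a compact set of curves**: bounded, with a common modulus, all but `ε` of every law -/
theorem equi {ε om : ℝ} (hε : 0 < ε) (hom : 0 < om) : ∃ A : ℝ, 0 < A ∧ ∃ h : ℝ, 0 < h ∧ ∃ K : Set CI, (∀ γ ∈ K, ‖γ‖ ≤ A ∧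
    ∀ a b : unitInterval, |(a : ℝ) - b| ≤ h → ‖γ a - γ b‖ ≤ om) ∧ ∀ n : ℕ, 1 ≤ n → law n Kᶜ ≤ ENNReal.ofReal ε := by
  obtain ⟨c, C, -, -, -, -, hT, -, -⟩ := NTSF.finE
  rw [isTightMeasureSet_iff_exists_isCompact_measure_compl_le] at hT
  obtain ⟨K, hK, h⟩ := hT (ENNReal.ofReal ε) (ENNReal.ofReal_pos.2 hε)
  obtain ⟨A, hA⟩ := hK.isBounded.exists_norm_le
  obtain ⟨t, ht, hfin, hcov⟩ := hK.finite_cover_balls (e := om / 3) (by positivity)
  have key : ∃ d : ℝ, 0 < d ∧ ∀ y ∈ t, ∀ a b : unitInterval, |(a : ℝ) - b| ≤ d → ‖y a - y b‖ ≤ om / 3 := by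
    have one : ∀ y : CI, ∃ d : ℝ, 0 < d ∧ ∀ a b : unitInterval, |(a : ℝ) - b| ≤ d → ‖y a - y b‖ ≤ om / 3 := by
      intro y
      have hu := CompactSpace.uniformContinuous_of_continuous y.continuous
      obtain ⟨d, hd, hd2⟩ := Metric.uniformContinuous_iff.1 hu (om / 3) (by positivity)
      refine ⟨d / 2, by positivity, fun a b hab => ?_⟩
      have h1 : dist a b < d := by
        rw [Subtype.dist_eq, Real.dist_eq]
        linarith
      have h2 := hd2 h1
      rw [dist_eq_norm] at h2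
      exact h2.le
    choose d hd0 hd1 using one
    have fin : ∀ T : Finset CI, ∃ e : ℝ, 0 < e ∧ ∀ y ∈ T, e ≤ d y := by
      classical
      intro T
      induction T using Finset.induction_on with
      | empty => exact ⟨1, one_pos, fun y hy => absurd hy (Finset.notMem_empty y)⟩
      | insert a s ha ih =>
        obtain ⟨e, he, h⟩ := ih
        refine ⟨min e (d a), lt_min he (hd0 a), fun y hy => ?_⟩
        rw [Finset.mem_insert] at hy
        rcases hy with rfl | hy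
        · exact min_le_right _ _
        · exact (min_le_left _ _).trans (h y hy)
    obtain ⟨e, he, h2⟩ := fin hfin.toFinset
    exact ⟨e, he, fun y hy a b hab => hd1 y a b (hab.trans (h2 y (hfin.mem_toFinset.2 hy)))⟩
  obtain ⟨d, hd0, hd1⟩ := key
  refine ⟨max A 1, lt_max_of_lt_right one_pos, d, hd0, K, fun γ hγ => ⟨(hA γ hγ).trans (le_max_left _ _), fun a b hab => ?_⟩,
    fun n hn => h _ ⟨n, hn, rfl⟩⟩
  have h3 := hcov hγ
  rw [Set.mem_iUnion₂] at h3
  obtain ⟨y, hy, hyb⟩ := h3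
  rw [Metric.mem_ball, dist_eq_norm] at hyb
  have h4 : ∀ u, ‖γ u - y u‖ ≤ om / 3 := fun u => ((ContinuousMap.norm_coe_le_norm (γ - y) u)).trans hyb.le
  have h5 : γ a - γ b = (γ a - y a) + (y a - y b) - (γ b - y b) := by ring
  rw [h5]
  calc ‖(γ a - y a) + (y a - y b) - (γ b - y b)‖ ≤ ‖(γ a - y a) + (y a - y b)‖ + ‖γ b - y b‖ := norm_sub_le _ _
    _ ≤ ‖γ a - y a‖ + ‖y a - y b‖ + ‖γ b - y b‖ := by gcongr; exact norm_add_le _ _
    _ ≤ om / 3 + om / 3 + om / 3 := by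
        have := h4 a
        have := h4 b
        have := hd1 y hy a b hab
        linarith
    _ = om := by ring

lemma card_of_law {n : ℕ} {E : Set CI} {c : ℝ} (hc : 0 ≤ c) (h : law n E ≤ ENNReal.ofReal c) :
    ∑ s ∈ saw n, E.indicator (fun _ => (1 : ℝ)) (curve s) ≤ c * (saw n).card := by
  classical
  have h1 : (law n).real E ≤ c := by
    rw [measureReal_def]
    exact (ENNReal.toReal_mono ENNReal.ofReal_ne_top h).trans_eq (ENNReal.toReal_ofReal hc)
  have h2 := NTSF.law_apply (n := n) E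
  have h3 : (law n).real E = (((saw n).filter fun s => curve s ∈ E).card : ℝ) / (saw n).card := by
    rw [measureReal_def, h2, ENNReal.toReal_mul, ENNReal.toReal_inv, ENNReal.toReal_natCast, ENNReal.toReal_natCast,
      div_eq_inv_mul]
  rw [h3, div_le_iff₀ (NTSF.saw_card_pos n)] at h1
  refine le_trans (le_of_eq ?_) h1
  rw [card_filter]
  push_cast
  exact sum_congr rfl fun s _ => by rw [Set.indicator_apply]

lemma Gam_nonneg {G : W3 → ℕ → ℕ → ℝ} (h : ∀ w i j, 0 ≤ G w i j) (w : W3) : 0 ≤ Gam G w :=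
  sum_nonneg fun _ _ => sum_nonneg fun _ _ => h _ _ _

lemma Gam_ofFn (G : W3 → ℕ → ℕ → ℝ) {n : ℕ} (s : Fin n → Fin 3) : Gam G (List.ofFn s) =
    ∑ i ∈ range (n + 1), ∑ j ∈ range (n + 1), G (List.ofFn s) i j := by
  unfold Gam
  rw [List.length_ofFn]

/-- **the pieces are close to the walks** -/
theorem gate_close {ε : ℝ} (hε : 0 < ε) : ∃ e0 : ℝ, 0 < e0 ∧ ∃ t0 : ℝ, 0 < t0 ∧ t0 ≤ 1 / 8 ∧
    ∀ e : ℝ, 0 ≤ e → e ≤ e0 → ∀ th : ℝ, 0 < th → th ≤ t0 → ∀ᶠ N in atTop, ∀ (f : CI → ℝ) (G : W3 → ℕ → ℕ → ℝ),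
      LipschitzWith 1 f → (∀ γ, |f γ| ≤ 1) → Gb e th G N → ∀ n ∈ Wn N (2 * th),
        |SG G N (fun γ T => f γ * ct th T) n -
          ct th (n / N) * (fug ^ n * ∑ s ∈ saw n, Gam G (List.ofFn s) * f (curve s))| ≤ ε * aN n := by
  obtain ⟨A, hA, h, hh, K, hK, hlaw⟩ := equi (ε := ε / 4) (om := ε / 32) (by positivity) (by positivity)
  obtain ⟨e1, he1, he1A, he11⟩ : ∃ e1 : ℝ, 0 < e1 ∧ e1 * A ≤ ε / 8 ∧ e1 ≤ 1 := ⟨min (ε / 8 / A) 1,
    lt_min (by positivity) one_pos, by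
      calc min (ε / 8 / A) 1 * A ≤ ε / 8 / A * A := mul_le_mul_of_nonneg_right (min_le_left _ _) hA.le
        _ = ε / 8 := div_mul_cancel₀ _ hA.ne', min_le_right _ _⟩
  obtain ⟨t0, ht0, ht8, hs⟩ := slow_win he1
  refine ⟨min (ε / 32) (h / 2), lt_min (by positivity) (by positivity), t0, ht0, ht8, fun e he hee th hth htt => ?_⟩
  have hee1 : e ≤ ε / 32 := hee.trans (min_le_left _ _)
  have hee2 : 2 * e ≤ h := by linarith [hee.trans (min_le_right _ _)]
  filter_upwards [hs th hth htt, eventually_ge_atTop 2] with N hN hN2 f G hf hf1 hG n hn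
  have hN0 : (0 : ℝ) < N := by exact_mod_cast (show 0 < N by omega)
  have hNN : N ∈ Wn N (2 * th) := by
    rw [mem_Wn (by omega) (by linarith), div_self hN0.ne', sub_self, abs_zero]
    linarith
  obtain ⟨-, hsz, -⟩ := hN n hn N hNN
  have hnN := (Wn_iff (by omega) (by linarith)).1 hn
  have hn2 : (N : ℝ) / 2 ≤ n := by nlinarith [hnN.1]
  have hn0 : (0 : ℝ) < n := by linarith
  have hn1 : 1 ≤ n := by exact_mod_cast hn0
  have hsn := NTSF.size_pos hn1
  have hsN := NTSF.size_pos (show 1 ≤ N by omega)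
  -- one term
  have key : ∀ s ∈ saw n, ∀ i j, G (List.ofFn s) i j *
      |f (crv ((List.ofFn s).drop i) (j - i) (size N)) * ct th (((j - i : ℕ) : ℝ) / N) - f (curve s) * ct th (n / N)| ≤
      G (List.ofFn s) i j * (ε / 2 + 2 * Kᶜ.indicator (fun _ => (1 : ℝ)) (curve s)) := by
    intro s hsw i j
    rcases eq_or_ne (G (List.ofFn s) i j) 0 with h0 | h0
    · rw [h0, zero_mul, zero_mul]
    refine mul_le_mul_of_nonneg_left ?_ (hG.nn _ _ _)
    obtain ⟨k1, k2, k3, k4, k5⟩ := hG.supp _ _ _ (SW_ofFn s |>.2 hsw) h0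
    rw [List.length_ofFn] at k3 k5
    have hjr : (j : ℝ) ≤ n := by exact_mod_cast k3
    have hi0 : (0 : ℝ) ≤ i := Nat.cast_nonneg i
    have hT : |((j - i : ℕ) : ℝ) / N - n / N| ≤ 2 * e * th := by
      rw [← sub_div, abs_div, abs_of_pos hN0, Nat.cast_sub k2, div_le_iff₀ hN0, abs_le]
      constructor <;> nlinarith
    have hct : |ct th (((j - i : ℕ) : ℝ) / N) - ct th (n / N)| ≤ 4 * e := by
      refine (ct_lip hth _ _).trans ?_
      calc 2 / th * |((j - i : ℕ) : ℝ) / N - n / N| ≤ 2 / th * (2 * e * th) :=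
            mul_le_mul_of_nonneg_left hT (by positivity)
        _ = 4 * e := by field_simp; ring
    have hfd : |f (crv ((List.ofFn s).drop i) (j - i) (size N)) - f (curve s)| ≤
        ε / 4 + 2 * Kᶜ.indicator (fun _ => (1 : ℝ)) (curve s) := by
      by_cases hc : curve s ∈ K
      · rw [Set.indicator_of_notMem (by simpa using hc), mul_zero, add_zero]
        obtain ⟨a1, a2⟩ := hK _ hc
        have e2 := curve_ofFn s
        rw [e2] at a1 a2 ⊢
        have hth2 : th * N ≤ n := by nlinarith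
        have h3 := piece_close (w := List.ofFn s) (i := i) (j := j) (n := n) (d := size N) (s := size n) (th := e)
          (om := ε / 32) (eta := e1) k1 k2 k3 (by rw [List.length_ofFn]) hsN hsn he (by
            refine k4.trans ?_
            rw [mul_assoc]
            exact mul_le_mul_of_nonneg_left hth2 he) (by
            refine k5.trans ?_
            rw [mul_assoc]
            exact mul_le_mul_of_nonneg_left hth2 he) hsz (fun a b hab => a2 a b (hab.trans hee2))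
        have h4 := hf.dist_le_mul (crv ((List.ofFn s).drop i) (j - i) (size N)) (crv (List.ofFn s) n (size n))
        rw [NNReal.coe_one, one_mul, Real.dist_eq, dist_eq_norm] at h4
        refine h4.trans (h3.trans ?_)
        have h5 : e1 * ‖crv (List.ofFn s) n (size n)‖ ≤ ε / 8 := (mul_le_mul_of_nonneg_left a1 he1.le).trans he1A
        nlinarith
      · rw [Set.indicator_of_mem (by simpa using hc), mul_one]
        have := abs_sub (f (crv ((List.ofFn s).drop i) (j - i) (size N))) (f (curve s))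
        linarith [hf1 (crv ((List.ofFn s).drop i) (j - i) (size N)), hf1 (curve s)]
    have e3 : f (crv ((List.ofFn s).drop i) (j - i) (size N)) * ct th (((j - i : ℕ) : ℝ) / N) - f (curve s) * ct th (n / N) =
        (f (crv ((List.ofFn s).drop i) (j - i) (size N)) - f (curve s)) * ct th (((j - i : ℕ) : ℝ) / N) +
          f (curve s) * (ct th (((j - i : ℕ) : ℝ) / N) - ct th (n / N)) := by ring
    rw [e3]
    refine (abs_add_le _ _).trans ?_
    rw [abs_mul, abs_mul, abs_of_nonneg (ct_nonneg _ _)]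
    have h6 : |f (crv ((List.ofFn s).drop i) (j - i) (size N)) - f (curve s)| * ct th (((j - i : ℕ) : ℝ) / N) ≤
        (ε / 4 + 2 * Kᶜ.indicator (fun _ => (1 : ℝ)) (curve s)) * 1 :=
      mul_le_mul hfd (ct_le_one _ _) (ct_nonneg _ _) ((abs_nonneg _).trans hfd)
    have h7 : |f (curve s)| * |ct th (((j - i : ℕ) : ℝ) / N) - ct th (n / N)| ≤ 1 * (4 * e) :=
      mul_le_mul (hf1 _) hct (abs_nonneg _) zero_le_one
    linarith
  -- the sum
  have e4 : SG G N (fun γ T => f γ * ct th T) n -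
      ct th (n / N) * (fug ^ n * ∑ s ∈ saw n, Gam G (List.ofFn s) * f (curve s)) =
      fug ^ n * ∑ s ∈ saw n, ∑ i ∈ range (n + 1), ∑ j ∈ range (n + 1), G (List.ofFn s) i j *
        (f (crv ((List.ofFn s).drop i) (j - i) (size N)) * ct th (((j - i : ℕ) : ℝ) / N) - f (curve s) * ct th (n / N)) := by
    unfold SG
    rw [mul_left_comm, ← mul_sub, mul_sum, ← sum_sub_distrib]
    congr 1
    refine sum_congr rfl fun s _ => ?_
    rw [Gam_ofFn, sum_mul, mul_sum, ← sum_sub_distrib]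
    refine sum_congr rfl fun i _ => ?_
    rw [sum_mul, mul_sum, ← sum_sub_distrib]
    refine sum_congr rfl fun j _ => ?_
    ring
  have hfug : (0 : ℝ) ≤ fug ^ n := by
    unfold fug
    positivity
  rw [e4, abs_mul, abs_of_nonneg hfug]
  have h8 : |∑ s ∈ saw n, ∑ i ∈ range (n + 1), ∑ j ∈ range (n + 1), G (List.ofFn s) i j *
        (f (crv ((List.ofFn s).drop i) (j - i) (size N)) * ct th (((j - i : ℕ) : ℝ) / N) - f (curve s) * ct th (n / N))| ≤
      ∑ s ∈ saw n, (ε / 2 + 2 * Kᶜ.indicator (fun _ => (1 : ℝ)) (curve s)) := by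
    refine (abs_sum_le_sum_abs _ _).trans (sum_le_sum fun s hs' => ?_)
    have h9 : |∑ i ∈ range (n + 1), ∑ j ∈ range (n + 1), G (List.ofFn s) i j *
        (f (crv ((List.ofFn s).drop i) (j - i) (size N)) * ct th (((j - i : ℕ) : ℝ) / N) - f (curve s) * ct th (n / N))| ≤
        Gam G (List.ofFn s) * (ε / 2 + 2 * Kᶜ.indicator (fun _ => (1 : ℝ)) (curve s)) := by
      rw [Gam_ofFn, sum_mul]
      refine (abs_sum_le_sum_abs _ _).trans (sum_le_sum fun i _ => ?_)
      rw [sum_mul]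
      refine (abs_sum_le_sum_abs _ _).trans (sum_le_sum fun j _ => ?_)
      rw [abs_mul, abs_of_nonneg (hG.nn _ _ _)]
      exact key s hs' i j
    refine h9.trans ?_
    have h10 : 0 ≤ ε / 2 + 2 * Kᶜ.indicator (fun _ => (1 : ℝ)) (curve s) := by
      have : 0 ≤ Kᶜ.indicator (fun _ => (1 : ℝ)) (curve s) := Set.indicator_nonneg (fun _ _ => zero_le_one) _
      positivity
    exact (mul_le_mul_of_nonneg_right (hG.one _ (SW_ofFn s |>.2 hs')) h10).trans_eq (one_mul _)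
  have h11 : ∑ s ∈ saw n, (ε / 2 + 2 * Kᶜ.indicator (fun _ => (1 : ℝ)) (curve s)) ≤ ε * (saw n).card := by
    rw [sum_add_distrib, sum_const, nsmul_eq_mul, ← mul_sum]
    have := card_of_law (by positivity) (hlaw n hn1)
    linarith
  calc fug ^ n * _ ≤ fug ^ n * (ε * (saw n).card) := mul_le_mul_of_nonneg_left (h8.trans h11) hfug
    _ = ε * aN n := by
      unfold aN
      ring

/-! ### tip removal -/

lemma fug_nn (n : ℕ) : (0 : ℝ) ≤ fug ^ n := by
  unfold fug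
  positivity

/-- only the window counts -/
theorem SG_out {e th : ℝ} (he : e ≤ 1 / 2) (hth : 0 < th) (hth8 : th ≤ 1 / 8) {N : ℕ} (hN : 1 ≤ N)
    {G : W3 → ℕ → ℕ → ℝ} (hG : Gb e th G N) (f : CI → ℝ) {n : ℕ} (hn : n ∉ Wn N (2 * th)) :
    SG G N (fun γ T => f γ * ct th T) n = 0 := by
  have hN0 : (0 : ℝ) < N := by exact_mod_cast hN
  unfold SG
  rw [sum_eq_zero, mul_zero]
  intro s hs
  refine sum_eq_zero fun i _ => sum_eq_zero fun j _ => ?_
  rcases eq_or_ne (G (List.ofFn s) i j) 0 with h0 | h0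
  · rw [h0, zero_mul]
  obtain ⟨k1, k2, k3, k4, k5⟩ := hG.supp _ _ _ (SW_ofFn s |>.2 hs) h0
  rw [List.length_ofFn] at k3 k5
  have hjr : (j : ℝ) ≤ n := by exact_mod_cast k3
  have hi0 : (0 : ℝ) ≤ i := Nat.cast_nonneg i
  show G (List.ofFn s) i j * (f _ * ct th (((j - i : ℕ) : ℝ) / N)) = 0
  rw [ct_zero hth, mul_zero, mul_zero]
  by_contra hc
  rw [not_le] at hc
  refine hn ?_
  rw [mem_Wn hN (by linarith)]
  have hT : |(n : ℝ) / N - ((j - i : ℕ) : ℝ) / N| ≤ 2 * e * th := by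
    rw [← sub_div, abs_div, abs_of_pos hN0, Nat.cast_sub k2, div_le_iff₀ hN0, abs_le]
    constructor <;> nlinarith
  have h1 : (n : ℝ) / N - 1 = ((n : ℝ) / N - ((j - i : ℕ) : ℝ) / N) + (((j - i : ℕ) : ℝ) / N - 1) := by ring
  rw [h1]
  refine (abs_add_le _ _).trans ?_
  nlinarith

theorem SS_eq {e th : ℝ} (he : e ≤ 1 / 2) (hth : 0 < th) (hth8 : th ≤ 1 / 8) {N : ℕ} (hN : 1 ≤ N)
    {G : W3 → ℕ → ℕ → ℝ} (hG : Gb e th G N) (f : CI → ℝ) :
    SS G N th f = ∑ n ∈ Wn N (2 * th), SG G N (fun γ T => f γ * ct th T) n :=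
  tsum_eq_sum fun _ hn => SG_out he hth hth8 hN hG f hn

/-- **the tips**: the gated mean of `F` of the pieces is the mean of `F` of the walks -/
theorem tip {p0 : ℝ} (hp0 : 0 < p0) {ε : ℝ} (hε : 0 < ε) : ∃ e0 : ℝ, 0 < e0 ∧ ∃ t0 : ℝ, 0 < t0 ∧ t0 ≤ 1 / 8 ∧
    ∀ e : ℝ, 0 ≤ e → e ≤ e0 → ∀ th : ℝ, 0 < th → th ≤ t0 → ∀ᶠ N in atTop, ∀ (F : CI → ℝ) (G : W3 → ℕ → ℕ → ℝ),
      LipschitzWith 1 F → (∀ γ, |F γ| ≤ 1) → Gt p0 e th F G N →
        |SS G N th F - (∫ γ, F γ ∂(law N)) * SS G N th (fun _ => 1)| ≤ ε * SS G N th (fun _ => 1) ∧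
          0 < SS G N th (fun _ => 1) := by
  obtain ⟨c, hc, hc2⟩ : ∃ c : ℝ, 0 < c ∧ 3 * c / p0 ≤ ε :=
    ⟨ε * p0 / 3, by positivity, by
      rw [div_le_iff₀ hp0]
      linarith⟩
  obtain ⟨e0, he0, t1, ht1, ht18, h1⟩ := gate_close (ε := c / 2) (by positivity)
  obtain ⟨t2, ht2, ht28, h2⟩ := slow_win hc
  refine ⟨min e0 (min (c / 2) (1 / 2)), lt_min he0 (lt_min (by positivity) (by norm_num)), min t1 t2,
    lt_min ht1 ht2, (min_le_left _ _).trans ht18, fun e he hee th hth htt => ?_⟩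
  have hee0 : e ≤ e0 := hee.trans (min_le_left _ _)
  have heec : e ≤ c / 2 := hee.trans ((min_le_right _ _).trans (min_le_left _ _))
  have hee2 : e ≤ 1 / 2 := hee.trans ((min_le_right _ _).trans (min_le_right _ _))
  have htt1 : th ≤ t1 := htt.trans (min_le_left _ _)
  have htt2 : th ≤ t2 := htt.trans (min_le_right _ _)
  have hth8 : th ≤ 1 / 8 := htt1.trans ht18
  filter_upwards [h1 e he hee0 th hth htt1, h2 th hth htt2, eventually_ge_atTop 2] with N g1 g2 hN2 F G hF hF1 hG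
  have hN1 : 1 ≤ N := by omega
  have hN0 : (0 : ℝ) < N := by exact_mod_cast (show 0 < N by omega)
  have hGb : Gb e th G N := hG.toGb
  have hNN : N ∈ Wn N (2 * th) := by
    rw [mem_Wn hN1 (by linarith), div_self hN0.ne', sub_self, abs_zero]
    linarith
  have hlow := hG.low
  rw [SS_eq hee2 hth hth8 hN1 hGb] at hlow ⊢
  rw [SS_eq hee2 hth hth8 hN1 hGb]
  have hone : LipschitzWith 1 (fun _ : CI => (1 : ℝ)) := by
    have := LipschitzWith.const (α := CI) (1 : ℝ)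
    exact this.weaken zero_le_one
  have key := win_num (W := Wn N (2 * th)) (a := aN)
    (g := fun n => fug ^ n * ∑ s ∈ saw n, Gam G (List.ofFn s))
    (p := SG G N (fun γ T => F γ * ct th T)) (q := SG G N (fun γ T => (1 : ℝ) * ct th T))
    (b := fun n => ∫ γ, F γ ∂(law n)) (k := fun n => ct th (n / N)) (e := c) (β := ∫ γ, F γ ∂(law N)) (p0 := p0)
    hc.le (by
      have := norm_integral_le_of_norm_le_const (μ := law N) (f := F) (C := 1) (Eventually.of_forall fun x => hF1 x)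
      simpa using this)
    (fun n _ => aN_nonneg n) (fun n _ => mul_nonneg (fug_nn n) (sum_nonneg fun s _ => Gam_nonneg hGb.nn _))
    (fun n _ => by
      have h4 : ∑ s ∈ saw n, Gam G (List.ofFn s) ≤ (saw n).card := by
        have h5 := sum_le_sum (s := saw n) (f := fun s => Gam G (List.ofFn s)) (g := fun _ => (1 : ℝ))
          fun s hs => hGb.one _ (SW_ofFn s |>.2 hs)
        simpa using h5
      calc fug ^ n * ∑ s ∈ saw n, Gam G (List.ofFn s) ≤ fug ^ n * (saw n).card :=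
            mul_le_mul_of_nonneg_left h4 (fug_nn n)
        _ = aN n := by unfold aN; ring)
    (fun n _ => ct_nonneg _ _) (fun n _ => ct_le_one _ _)
    (fun n hn => by
      have h4 := g1 F G hF hF1 hGb n hn
      have h5 := hG.mix n hn
      have h6 : |ct th (n / N) * (fug ^ n * ∑ s ∈ saw n, Gam G (List.ofFn s) * F (curve s)) -
          ct th (n / N) * (∫ γ, F γ ∂(law n)) * (fug ^ n * ∑ s ∈ saw n, Gam G (List.ofFn s))| ≤ c / 2 * aN n := by
        have e1 : ct th (n / N) * (fug ^ n * ∑ s ∈ saw n, Gam G (List.ofFn s) * F (curve s)) -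
          ct th (n / N) * (∫ γ, F γ ∂(law n)) * (fug ^ n * ∑ s ∈ saw n, Gam G (List.ofFn s)) =
          ct th (n / N) * (fug ^ n * (∑ s ∈ saw n, Gam G (List.ofFn s) * F (curve s) -
            (∑ s ∈ saw n, Gam G (List.ofFn s)) * ∫ γ, F γ ∂(law n))) := by ring
        rw [e1, abs_mul, abs_mul, abs_of_nonneg (ct_nonneg _ _), abs_of_nonneg (fug_nn n)]
        calc ct th (n / N) * (fug ^ n * |∑ s ∈ saw n, Gam G (List.ofFn s) * F (curve s) -
            (∑ s ∈ saw n, Gam G (List.ofFn s)) * ∫ γ, F γ ∂(law n)|) ≤ 1 * (fug ^ n * (e * (saw n).card)) :=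
              mul_le_mul (ct_le_one _ _) (mul_le_mul_of_nonneg_left h5 (fug_nn n))
                (mul_nonneg (fug_nn n) (abs_nonneg _)) zero_le_one
          _ = e * aN n := by unfold aN; ring
          _ ≤ c / 2 * aN n := mul_le_mul_of_nonneg_right heec (aN_nonneg n)
      have h7 : c * aN n = c / 2 * aN n + c / 2 * aN n := by ring
      rw [abs_le] at h4 h6 ⊢
      constructor <;> linarith [h4.1, h4.2, h6.1, h6.2])
    (fun n hn => by
      have h4 := g1 (fun _ => 1) G hone (fun _ => by rw [abs_one]) hGb n hn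
      simp only [mul_one] at h4
      refine h4.trans (mul_le_mul_of_nonneg_right (by linarith) (aN_nonneg n)))
    (fun n hn => (g2 n hn N hNN).2.2 F hF hF1) hp0 hlow
  have hpos : 0 < ∑ n ∈ Wn N (2 * th), SG G N (fun γ T => (1 : ℝ) * ct th T) n := by
    refine lt_of_lt_of_le (mul_pos hp0 ?_) hlow
    exact sum_pos (fun n _ => WK.aN_pos n) ⟨N, hNN⟩
  exact ⟨key.trans (mul_le_mul_of_nonneg_right hc2 hpos.le), hpos⟩

/-- the lower bound from one for every even number of steps -/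
theorem low_exact : ∃ t0 : ℝ, 0 < t0 ∧ t0 ≤ 1 / 8 ∧ ∀ p0 : ℝ, 0 ≤ p0 → ∀ e : ℝ, 0 ≤ e → e ≤ 1 / 16 → ∀ th : ℝ, 0 < th →
    th ≤ t0 → ∀ᶠ N in atTop, ∀ G : W3 → ℕ → ℕ → ℝ, Gb e th G N →
      (∀ n ∈ Wn N (2 * th), Even n → p0 * (saw n).card ≤ ∑ s ∈ saw n, Gam G (List.ofFn s)) →
        p0 / 1200 * ∑ n ∈ Wn N (2 * th), aN n ≤ SS G N th (fun _ => 1) := by
  obtain ⟨t0, h0, h8, h⟩ := win_cmp
  obtain ⟨t3, ht3, ht38, h3⟩ := slow_win one_pos
  refine ⟨min t0 t3, lt_min h0 ht3, (min_le_left _ _).trans h8, fun p0 hp0 e he he16 th hth htt => ?_⟩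
  have htt0 : th ≤ t0 := htt.trans (min_le_left _ _)
  have hth8 : th ≤ 1 / 8 := htt0.trans h8
  filter_upwards [h th hth htt0, eventually_ge_atTop 2] with N g1 hN2 G hG hlow
  obtain ⟨g1, -⟩ := g1
  have hN1 : 1 ≤ N := by omega
  have hN0 : (0 : ℝ) < N := by exact_mod_cast (show 0 < N by omega)
  have hVW : ((Wn N (th / 2)).filter fun n => Even n) ⊆ Wn N (2 * th) := by
    intro n hn
    replace hn := (mem_filter.1 hn).1
    rw [mem_Wn hN1 (by linarith)] at hn ⊢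
    linarith
  rw [SS_eq (by linarith : e ≤ 1 / 2) hth hth8 hN1 hG]
  have hnn : ∀ n, 0 ≤ SG G N (fun _ T => (1 : ℝ) * ct th T) n := fun n => by
    unfold SG
    exact mul_nonneg (fug_nn n) (sum_nonneg fun s _ => sum_nonneg fun i _ => sum_nonneg fun j _ =>
      mul_nonneg (hG.nn _ _ _) (mul_nonneg zero_le_one (ct_nonneg _ _)))
  have key : ∀ n ∈ (Wn N (th / 2)).filter fun n => Even n,
      p0 / 4 * aN n ≤ SG G N (fun _ T => (1 : ℝ) * ct th T) n := by
    intro n hn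
    have h4 := hlow n (hVW hn) (mem_filter.1 hn).2
    have hn' := (mem_filter.1 hn).1
    rw [mem_Wn hN1 (by linarith)] at hn'
    have h5 : 1 / 4 * (fug ^ n * ∑ s ∈ saw n, Gam G (List.ofFn s)) ≤ SG G N (fun _ T => (1 : ℝ) * ct th T) n := by
      unfold SG
      rw [mul_left_comm, mul_sum]
      refine mul_le_mul_of_nonneg_left (sum_le_sum fun s hs => ?_) (fug_nn n)
      rw [Gam_ofFn, mul_sum]
      refine sum_le_sum fun i _ => ?_
      rw [mul_sum]
      refine sum_le_sum fun j _ => ?_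
      show 1 / 4 * G (List.ofFn s) i j ≤ G (List.ofFn s) i j * (1 * ct th (((j - i : ℕ) : ℝ) / N))
      rcases eq_or_ne (G (List.ofFn s) i j) 0 with h0 | h0
      · rw [h0, mul_zero, zero_mul]
      · obtain ⟨k1, k2, k3, k4, k5⟩ := hG.supp _ _ _ (SW_ofFn s |>.2 hs) h0
        rw [List.length_ofFn] at k3 k5
        have hjr : (j : ℝ) ≤ n := by exact_mod_cast k3
        have hi0 : (0 : ℝ) ≤ i := Nat.cast_nonneg i
        have hT : |((j - i : ℕ) : ℝ) / N - n / N| ≤ 2 * e * th := by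
          rw [← sub_div, abs_div, abs_of_pos hN0, Nat.cast_sub k2, div_le_iff₀ hN0, abs_le]
          constructor <;> nlinarith
        have hT1 : |((j - i : ℕ) : ℝ) / N - 1| ≤ 5 / 8 * th := by
          have h8 : ((j - i : ℕ) : ℝ) / N - 1 = (((j - i : ℕ) : ℝ) / N - n / N) + ((n : ℝ) / N - 1) := by ring
          rw [h8]
          refine (abs_add_le _ _).trans ?_
          nlinarith
        have hc : 1 / 4 ≤ ct th (((j - i : ℕ) : ℝ) / N) := by
          unfold ct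
          refine le_max_of_le_right (le_min (by norm_num) ?_)
          have : 2 * |((j - i : ℕ) : ℝ) / N - 1| / th ≤ 5 / 4 := by
            rw [div_le_iff₀ hth]
            linarith
          linarith
        rw [one_mul, mul_comm]
        exact mul_le_mul_of_nonneg_left hc (hG.nn _ _ _)
    refine le_trans ?_ h5
    calc p0 / 4 * aN n = 1 / 4 * (fug ^ n * (p0 * (saw n).card)) := by unfold aN; ring
      _ ≤ _ := mul_le_mul_of_nonneg_left (mul_le_mul_of_nonneg_left h4 (fug_nn n)) (by norm_num)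
  have hA : 0 ≤ ∑ n ∈ (Wn N (th / 2)).filter fun n => Even n, aN n := sum_nonneg fun n _ => aN_nonneg n
  calc p0 / 1200 * ∑ n ∈ Wn N (2 * th), aN n ≤
        p0 / 1200 * (288 * ∑ n ∈ (Wn N (th / 2)).filter fun n => Even n, aN n) :=
        mul_le_mul_of_nonneg_left g1 (by positivity)
    _ ≤ p0 / 4 * ∑ n ∈ (Wn N (th / 2)).filter fun n => Even n, aN n := by nlinarith
    _ = ∑ n ∈ (Wn N (th / 2)).filter fun n => Even n, p0 / 4 * aN n := by rw [mul_sum]
    _ ≤ ∑ n ∈ (Wn N (th / 2)).filter fun n => Even n, SG G N (fun _ T => (1 : ℝ) * ct th T) n := sum_le_sum key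
    _ ≤ _ := sum_le_sum_of_subset_of_nonneg hVW fun n _ _ => hnn n

/-- **the end of the proof, one scale** -/
theorem end_pt {p0 : ℝ} (hp0 : 0 < p0) {ε : ℝ} (hε : 0 < ε) : ∃ e0 : ℝ, 0 < e0 ∧ ∃ t0 : ℝ, 0 < t0 ∧ t0 ≤ 1 / 8 ∧
    ∀ e : ℝ, 0 ≤ e → e ≤ e0 → ∀ th : ℝ, 0 < th → th ≤ t0 → ∀ᶠ N in atTop, ∀ (z : ℂ), ‖z‖ = 1 → ∀ (F : CI → ℝ)
      (G G' : W3 → ℕ → ℕ → ℝ), LipschitzWith 1 F → (∀ γ, |F γ| ≤ 1) → Gt p0 e th F G N →
        Gt p0 e th (fun γ => F (z • γ)) G' N →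
        |SS G N th F * SS G' N th (fun _ => 1) - SS G' N th (fun γ => F (z • γ)) * SS G N th (fun _ => 1)| ≤
          ε * (SS G N th (fun _ => 1) * SS G' N th (fun _ => 1)) →
        |∫ γ, F γ ∂(law N) - ∫ γ, F (z • γ) ∂(law N)| ≤ 3 * ε := by
  obtain ⟨e0, he0, t0, ht0, ht08, h⟩ := tip hp0 hε
  refine ⟨e0, he0, t0, ht0, ht08, fun e he hee th hth htt => ?_⟩
  filter_upwards [h e he hee th hth htt] with N hN z hz F G G' hF hF1 hG hG' hM
  obtain ⟨a1, a2⟩ := hN F G hF hF1 hG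
  obtain ⟨b1, b2⟩ := hN (fun γ => F (z • γ)) G' (smul_lip hz hF) (fun γ => hF1 _) hG'
  obtain ⟨x, hx⟩ : ∃ x, x = SS G N th (fun _ => 1) := ⟨_, rfl⟩
  obtain ⟨y, hy⟩ : ∃ y, y = SS G' N th (fun _ => 1) := ⟨_, rfl⟩
  rw [← hx] at a1 a2 hM
  rw [← hy] at b1 b2 hM
  have h1 : |(SS G N th F - (∫ γ, F γ ∂(law N)) * x) * y| ≤ ε * (x * y) := by
    rw [abs_mul, abs_of_pos b2]
    calc |SS G N th F - (∫ γ, F γ ∂(law N)) * x| * y ≤ ε * x * y := mul_le_mul_of_nonneg_right a1 b2.le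
      _ = ε * (x * y) := by ring
  have h2 : |(SS G' N th (fun γ => F (z • γ)) - (∫ γ, F (z • γ) ∂(law N)) * y) * x| ≤ ε * (x * y) := by
    rw [abs_mul, abs_of_pos a2]
    calc |SS G' N th (fun γ => F (z • γ)) - (∫ γ, F (z • γ) ∂(law N)) * y| * x ≤ ε * y * x :=
          mul_le_mul_of_nonneg_right b1 a2.le
      _ = ε * (x * y) := by ring
  have hxy : 0 < x * y := mul_pos a2 b2
  have h3 : |(∫ γ, F γ ∂(law N) - ∫ γ, F (z • γ) ∂(law N)) * (x * y)| ≤ 3 * ε * (x * y) := by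
    have e1 : (∫ γ, F γ ∂(law N) - ∫ γ, F (z • γ) ∂(law N)) * (x * y) =
        (SS G N th F * y - SS G' N th (fun γ => F (z • γ)) * x) -
          (SS G N th F - (∫ γ, F γ ∂(law N)) * x) * y +
          (SS G' N th (fun γ => F (z • γ)) - (∫ γ, F (z • γ) ∂(law N)) * y) * x := by ring
    rw [e1]
    rw [abs_le] at h1 h2 hM ⊢
    constructor <;> linarith [h1.1, h1.2, h2.1, h2.2, hM.1, hM.2]
  rw [abs_mul, abs_of_pos hxy] at h3
  exact le_of_mul_le_mul_right h3 hxy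

end Pool.Agent.ROT.F3E
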