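import Pool.Agent.ROT.F3Mark
import Pool.Agent.ROT.F3Tip12
import Pool.Agent.ROT.F3MidW

/-!
# ROT, F3, row LOWLIM (helper84): the inequality of the masses in the limit

* `ct_scale` : the cutoff at two scales; `ct_lim` : the integral of the cutoff of the durations, limit;
* `blk_lim` : the masses of the weighted blocks, limit; `prod_lim` : the law of the two outer pieces is a product;
* **`low_lim`** : `p ∫ ct dβ ≤ ∫ ψ ψ' ct dP` for the limit `P` of the marked rests (helper76's `mark_limU`).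
-/

set_option autoImplicit false

open MeasureTheory Filter Topology Set
open scoped ENNReal NNReal BoundedContinuousFunction

namespace Pool.Agent.ROT.F3.Mk

open Pool.Agent.ROT.F3 Pool.Agent.ROT.F3.CC
open Pool.Agent.ROT.F3E (ct ct_nonneg ct_le_one ct_lip ct_one)

/-- the cutoff at two scales -/
lemma ct_scale {th q κ x T1 : ℝ} (hth : 0 < th) (hx : |x| ≤ T1) : |ct th (q * x) - ct th (κ * x)| ≤ 2 / th * (|q - κ| * T1) := by
  refine (ct_lip hth _ _).trans (mul_le_mul_of_nonneg_left ?_ (by positivity))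
  rw [← sub_mul, abs_mul]
  exact mul_le_mul_of_nonneg_left hx (abs_nonneg _)

/-- the cutoff of the durations as a bounded continuous function -/
noncomputable def ctB (th κ : ℝ) : Pie →ᵇ ℝ :=
  BoundedContinuousFunction.ofNormedAddCommGroup (fun x : Pie => ct th (κ * x.2))
    ((ct_cont th).comp (continuous_const.mul continuous_snd)) 1 fun x => by
      rw [Real.norm_eq_abs, abs_of_nonneg (ct_nonneg _ _)]
      exact ct_le_one _ _

@[simp] lemma ctB_apply (th κ : ℝ) (x : Pie) : ctB th κ x = ct th (κ * x.2) := rfl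

/-- conditions of all rests of the class hold almost everywhere -/
lemma rm_all {c : ℝ≥0∞} {s t : ℝ} {Rs : Set W3} {w : W3 → ℝ} {Q : Pie → Prop} (h : ∀ R ∈ Rs, Q (cr s t R)) :
    ∀ᵐ x ∂(rm c s t Rs w), Q x := by
  rw [ae_iff]
  unfold rm
  rw [Measure.sum_apply_of_countable, ENNReal.tsum_eq_zero]
  intro R
  rw [Measure.smul_apply, smul_eq_mul]
  by_cases hR : R ∈ Rs
  · rw [Measure.dirac_apply, indicator_of_notMem (show cr s t R ∉ {a | ¬Q a} from fun hx => hx (h R hR)), mul_zero]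
  · rw [if_neg hR, mul_zero, zero_mul]

/-- **the integral of the cutoff**, limit -/
theorem ct_lim {U : Ultrafilter ℕ} {c : ℕ → ℝ≥0∞} {s t : ℕ → ℝ} {Rs : ℕ → Set W3} {β : Measure Pie} {C : ℝ≥0}
    (mass : ∀ᶠ N in (U : Filter ℕ), rm (c N) (s N) (t N) (Rs N) (fun _ => 1) univ ≤ C)
    (lβ : ∀ g : Pie →ᵇ ℝ, Tendsto (fun N => ∫ x, g x ∂(rm (c N) (s N) (t N) (Rs N) fun _ => 1)) U (𝓝 (∫ x, g x ∂β)))
    {th κ T1 : ℝ} (hth : 0 < th) {q : ℕ → ℝ} (hq : Tendsto q U (𝓝 κ)) (ht : ∀ᶠ N in (U : Filter ℕ), 0 < t N)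
    (hR : ∀ᶠ N in (U : Filter ℕ), ∀ R ∈ Rs N, (R.length : ℝ) ≤ T1 * t N) :
    Tendsto (fun N => ∫ x, ct th (q N * x.2) ∂(rm (c N) (s N) (t N) (Rs N) fun _ => 1)) U (𝓝 (∫ x, ct th (κ * x.2) ∂β)) := by
  have h1 : Tendsto (fun N => ∫ x, ct th (κ * x.2) ∂(rm (c N) (s N) (t N) (Rs N) fun _ => 1)) U (𝓝 (∫ x, ct th (κ * x.2) ∂β)) :=
    lβ (ctB th κ)
  have h2 : Tendsto (fun N => 2 / th * (|q N - κ| * |T1|) * (C : ℝ)) U (𝓝 0) := by
    have h3 : Tendsto (fun N => |q N - κ|) U (𝓝 0) := by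
      have := (hq.sub_const κ).abs
      rwa [sub_self, abs_zero] at this
    have h4 := ((h3.mul_const |T1|).const_mul (2 / th)).mul_const (C : ℝ)
    rwa [zero_mul, mul_zero, zero_mul] at h4
  have h5 : ∀ᶠ N in (U : Filter ℕ), |∫ x, ct th (q N * x.2) ∂(rm (c N) (s N) (t N) (Rs N) fun _ => 1) -
      ∫ x, ct th (κ * x.2) ∂(rm (c N) (s N) (t N) (Rs N) fun _ => 1)| ≤ 2 / th * (|q N - κ| * |T1|) * (C : ℝ) := by
    filter_upwards [mass, ht, hR] with N g1 g2 g3
    obtain ⟨μ, hμ⟩ : ∃ μ : Measure Pie, μ = rm (c N) (s N) (t N) (Rs N) fun _ => 1 := ⟨_, rfl⟩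
    have hf : IsFiniteMeasure μ := by
      rw [hμ]
      exact ⟨lt_of_le_of_lt g1 ENNReal.coe_lt_top⟩
    have hI : ∀ a : ℝ, Integrable (fun x : Pie => ct th (a * x.2)) μ := fun a => (ctB th a).integrable μ
    have hae : ∀ᵐ x ∂μ, |x.2| ≤ |T1| := by
      rw [hμ]
      refine rm_all fun R hR' => ?_
      show |(R.length : ℝ) / t N| ≤ |T1|
      rw [abs_of_nonneg (div_nonneg (Nat.cast_nonneg _) g2.le), div_le_iff₀ g2]
      exact (g3 R hR').trans (mul_le_mul_of_nonneg_right (le_abs_self _) g2.le)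
    rw [← hμ, ← integral_sub (hI _) (hI _)]
    have h6 : ∀ᵐ x ∂μ, ‖ct th (q N * x.2) - ct th (κ * x.2)‖ ≤ 2 / th * (|q N - κ| * |T1|) := by
      filter_upwards [hae] with x hx
      rw [Real.norm_eq_abs]
      exact ct_scale hth hx
    have h7 := norm_integral_le_of_norm_le_const h6
    rw [Real.norm_eq_abs] at h7
    refine h7.trans (mul_le_mul_of_nonneg_left ?_ (by positivity))
    rw [hμ]
    exact ENNReal.toReal_le_coe_of_le_coe g1
  have h8 := squeeze_zero_norm' (h5.mono fun N hN => by rwa [Real.norm_eq_abs]) h2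
  have h9 := h8.add h1
  rw [zero_add] at h9
  refine h9.congr fun N => ?_
  ring

/-- the masses of the weighted blocks, limit -/
lemma blk_lim {U : Ultrafilter ℕ} {s t : ℕ → ℝ} {B : ℕ → Set W3} {κ : Measure Pie}
    (lκ : ∀ g : Pie →ᵇ ℝ, Tendsto (fun N => ∫ x, g x ∂(rm 1 (s N) (t N) (B N) fun _ => 1)) U (𝓝 (∫ x, g x ∂κ))) {ψ : Pie →ᵇ ℝ}
    (h0 : ∀ x, 0 ≤ ψ x) :
    Tendsto (fun N => (ms (B N) fun b => ENNReal.ofReal (ψ (cr (s N) (t N) b))).toReal) U (𝓝 (∫ x, ψ x ∂κ)) := by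
  refine (lκ ψ).congr fun N => ?_
  rw [rm_int (s N) (t N) (fun _ => zero_le_one) ψ.continuous.measurable h0, ENNReal.toReal_one, one_mul]
  simp only [one_mul]

/-- the law of the two outer pieces is a product -/
lemma prod_int {P : Measure MP} {κ κ' : Measure Pie} [IsFiniteMeasure κ] [IsFiniteMeasure κ'] {u : ℝ} (hu : 0 ≤ u)
    (hP : P.map two = ENNReal.ofReal u • κ.prod κ') (ψ ψ' : Pie →ᵇ ℝ) :
    ∫ z, ψ (two z).1 * ψ' (two z).2 ∂P = u * ((∫ x, ψ x ∂κ) * ∫ x, ψ' x ∂κ') := by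
  have h1 : ∫ z, ψ (two z).1 * ψ' (two z).2 ∂P = ∫ y : Pie × Pie, ψ y.1 * ψ' y.2 ∂(P.map two) := by
    rw [integral_map two_cont.measurable.aemeasurable]
    exact ((ψ.continuous.comp continuous_fst).mul (ψ'.continuous.comp continuous_snd)).measurable.aestronglyMeasurable
  rw [h1, hP, integral_smul_measure, integral_prod_mul (fun x => ψ x) fun x => ψ' x, ENNReal.toReal_ofReal hu, smul_eq_mul]

/-- **the inequality of the masses in the limit** -/
theorem low_lim {U : Ultrafilter ℕ} {c : ℕ → ℝ≥0∞} {s t : ℕ → ℝ} {B M B' Rs : ℕ → Set W3} {κ κ' β : Measure Pie}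
    (h : MD U c s t B M B' Rs κ κ' β) {P : Measure MP} [IsFiniteMeasure P] {u : ℝ} (hu : 0 < u)
    (lu : Tendsto (fun N => (c N * ms (M N) fun _ => 1).toReal) U (𝓝 u))
    (fu : ∀ᶠ N in (U : Filter ℕ), c N * ms (M N) (fun _ => 1) ≠ ∞) (hP : P.map two = ENNReal.ofReal u • κ.prod κ')
    (hcl : ∀ E : Set MP, IsClosed E → (∀ᶠ N in (U : Filter ℕ), ∀ b ∈ B N, ∀ m ∈ M N, ∀ b' ∈ B' N, mk3 (s N) (t N) (b, m, b') ∈ E) →
      ∀ᵐ y ∂P, y ∈ E) {th κ0 T1 p : ℝ} (hth : 0 < th) (hκ0 : 0 < κ0) (hp : 0 ≤ p)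
    (hq : Tendsto (fun N : ℕ => t N / N) U (𝓝 κ0)) (ht : ∀ᶠ N in (U : Filter ℕ), 0 < t N)
    (hc : ∀ᶠ N in (U : Filter ℕ), c N ≠ ∞)
    (hR : ∀ᶠ N in (U : Filter ℕ), ∀ R ∈ Rs N, (R.length : ℝ) ≤ T1 * t N)
    (hB : ∀ᶠ N in (U : Filter ℕ), ∀ b ∈ B N, (b.length : ℝ) ≤ th / 32 * N)
    (hB' : ∀ᶠ N in (U : Filter ℕ), ∀ b ∈ B' N, (b.length : ℝ) ≤ th / 32 * N)
    (hM : ∀ᶠ N in (U : Filter ℕ), ∀ m ∈ M N, |(m.length : ℝ) / N - 1| ≤ th / 8)
    (fB : ∀ᶠ N in (U : Filter ℕ), ms (B N) (fun _ => 1) ≠ ∞) (fB' : ∀ᶠ N in (U : Filter ℕ), ms (B' N) (fun _ => 1) ≠ ∞)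
    {ψ ψ' : Pie →ᵇ ℝ} (ψ0 : ∀ x, 0 ≤ ψ x) (ψ0' : ∀ x, 0 ≤ ψ' x) (ψ1 : ∀ x, ψ x ≤ 1) (ψ1' : ∀ x, ψ' x ≤ 1)
    (low : ∀ᶠ N in (U : Filter ℕ), ENNReal.ofReal p * ms (Rs N) (fun R => ENNReal.ofReal (ct th ((R.length : ℝ) / N))) ≤
      ms (B N) (fun b => ENNReal.ofReal (ψ (cr (s N) (t N) b))) * (ms (M N) (fun _ => 1) *
        ms (B' N) fun b => ENNReal.ofReal (ψ' (cr (s N) (t N) b)))) :
    p * ∫ x, ct th (κ0 * x.2) ∂β ≤ ∫ z, ψ (two z).1 * ψ' (two z).2 * ct th (κ0 * z.1.2) ∂P := by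
  have := h.fκ
  have := h.fκ'
  have := h.fβ
  obtain ⟨C, hC⟩ := h.mass
  have hC' : ∀ᶠ N in (U : Filter ℕ), rm (c N) (s N) (t N) (Rs N) (fun _ => 1) univ ≤ C := h.hU hC
  have hN1 : ∀ᶠ N : ℕ in (U : Filter ℕ), (0 : ℝ) < (N : ℝ) := by
    filter_upwards [h.hU (eventually_gt_atTop 0)] with N hN
    exact_mod_cast hN
  -- the two sides
  have l1 := ct_lim (T1 := T1) hC' h.lβ hth hq ht hR
  have l2 := blk_lim h.lκ ψ0
  have l3 := blk_lim h.lκ' ψ0'
  have l4 := lu.mul (l2.mul l3)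
  rw [← prod_int hu.le hP ψ ψ'] at l4
  have ineq : ∀ᶠ N in (U : Filter ℕ), p * ∫ x, ct th (t N / N * x.2) ∂(rm (c N) (s N) (t N) (Rs N) fun _ => 1) ≤
      (c N * ms (M N) fun _ => 1).toReal * ((ms (B N) fun b => ENNReal.ofReal (ψ (cr (s N) (t N) b))).toReal *
        (ms (B' N) fun b => ENNReal.ofReal (ψ' (cr (s N) (t N) b))).toReal) := by
    filter_upwards [low, hN1, ht, fu, fB, fB', hc] with N g1 g2 g3 g4 g5 g6 g7
    rw [rm_int (s N) (t N) (fun _ => zero_le_one) (g := fun x : Pie => ct th (t N / N * x.2))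
      ((ct_cont th).measurable.comp (measurable_const.mul measurable_snd)) fun _ => ct_nonneg _ _]
    have e1 : (ms (Rs N) fun R => ENNReal.ofReal (1 * ct th (t N / N * (cr (s N) (t N) R).2))) =
        ms (Rs N) fun R => ENNReal.ofReal (ct th ((R.length : ℝ) / N)) := by
      congr 1
      funext R
      have : t N / N * (cr (s N) (t N) R).2 = (R.length : ℝ) / N := by
        show t N / N * ((R.length : ℝ) / t N) = (R.length : ℝ) / N
        field_simp
      rw [this, one_mul]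
    rw [e1]
    have e2 : ∀ {B : Set W3} {ψ : Pie →ᵇ ℝ}, (∀ x, ψ x ≤ 1) → ms B (fun _ => 1) ≠ ∞ →
        (ms B fun b => ENNReal.ofReal (ψ (cr (s N) (t N) b))) ≠ ∞ := by
      intro B ψ h1 hB
      refine ne_top_of_le_ne_top hB ?_
      unfold ms
      refine ENNReal.tsum_le_tsum fun b => ?_
      split_ifs
      · exact mul_le_mul_right (ENNReal.ofReal_le_one.2 (h1 _)) _
      · exact le_rfl
    have f1 := e2 ψ1 g5
    have f2 := e2 ψ1' g6
    have g8 := mul_le_mul_right g1 (c N)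
    have g9 : c N * (ms (B N) (fun b => ENNReal.ofReal (ψ (cr (s N) (t N) b))) * (ms (M N) (fun _ => 1) *
        ms (B' N) fun b => ENNReal.ofReal (ψ' (cr (s N) (t N) b)))) = (c N * ms (M N) fun _ => 1) *
          (ms (B N) (fun b => ENNReal.ofReal (ψ (cr (s N) (t N) b))) *
            ms (B' N) fun b => ENNReal.ofReal (ψ' (cr (s N) (t N) b))) := by ring
    rw [g9] at g8
    have g10 := ENNReal.toReal_mono (ENNReal.mul_ne_top g4 (ENNReal.mul_ne_top f1 f2)) g8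
    have g11 : ((ms (B N) fun b => ENNReal.ofReal (ψ (cr (s N) (t N) b))) *
        ms (B' N) fun b => ENNReal.ofReal (ψ' (cr (s N) (t N) b))).toReal = _ := ENNReal.toReal_mul
    rw [ENNReal.toReal_mul, ENNReal.toReal_mul, ENNReal.toReal_mul, ENNReal.toReal_ofReal hp, g11] at g10
    calc p * ((c N).toReal * (ms (Rs N) fun R => ENNReal.ofReal (ct th ((R.length : ℝ) / N))).toReal) =
          (c N).toReal * (p * (ms (Rs N) fun R => ENNReal.ofReal (ct th ((R.length : ℝ) / N))).toReal) := by ring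
      _ ≤ _ := g10
  have key := le_of_tendsto_of_tendsto (l1.const_mul p) l4 ineq
  refine key.trans (le_of_eq ?_)
  -- the cutoff is `1`
  have hone : ∀ᵐ z ∂P, ct th (κ0 * z.1.2) = 1 := by
    have hE : IsClosed {z : MP | |κ0 * z.1.2 - 1| ≤ th / 2} :=
      isClosed_le ((continuous_const.mul (continuous_snd.comp continuous_fst)).sub continuous_const).abs continuous_const
    have h1 := hcl _ hE ?_
    · filter_upwards [h1] with z hz
      exact ct_one hth hz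
    have hq' : ∀ᶠ N in (U : Filter ℕ), |t N / N - κ0| * (|T1| + 1) ≤ th / 8 := by
      have h3 : Tendsto (fun N : ℕ => |t N / N - κ0| * (|T1| + 1)) U (𝓝 0) := by
        have := ((hq.sub_const κ0).abs).mul_const (|T1| + 1)
        rwa [sub_self, abs_zero, zero_mul] at this
      exact (h3.eventually_le_const (by positivity : (0 : ℝ) < th / 8))
    filter_upwards [hq', hN1, ht, h.hU h.ev, hR, hB, hB', hM] with N g1 g2 g3 g4 g5 g6 g7 g8 b hb m hm b' hb'
    have g9 := g4.2.2.2.2 b hb m hm b' hb'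
    have k1 := g5 _ g9
    have k2 := g6 b hb
    have k3 := g7 b' hb'
    have k4 := g8 m hm
    have e1 : (mk3 (s N) (t N) (b, m, b')).1.2 = ((b ++ (m ++ b'.reverse)).length : ℝ) / t N := rfl
    have e2 : ((b ++ (m ++ b'.reverse)).length : ℝ) = b.length + m.length + b'.length := by
      rw [List.length_append, List.length_append, List.length_reverse]
      push_cast
      ring
    show |κ0 * (mk3 (s N) (t N) (b, m, b')).1.2 - 1| ≤ th / 2
    rw [e1]
    obtain ⟨L, hL⟩ : ∃ L : ℝ, L = ((b ++ (m ++ b'.reverse)).length : ℝ) := ⟨_, rfl⟩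
    rw [← hL] at k1 e2 ⊢
    have hL0 : 0 ≤ L := by rw [hL]; exact Nat.cast_nonneg _
    have k5 : |L / t N| ≤ |T1| + 1 := by
      rw [abs_of_nonneg (div_nonneg hL0 g3.le), div_le_iff₀ g3]
      refine k1.trans (mul_le_mul_of_nonneg_right ?_ g3.le)
      linarith [le_abs_self T1]
    have k6 : κ0 * (L / t N) - 1 = (L / N - 1) - (t N / N - κ0) * (L / t N) := by
      field_simp
      ring
    have k7 : |(t N / N - κ0) * (L / t N)| ≤ th / 8 := by
      rw [abs_mul]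
      exact (mul_le_mul_of_nonneg_left k5 (abs_nonneg _)).trans g1
    have k8 : |L / N - 1| ≤ th / 8 + th / 16 := by
      have a1 : L / N - 1 = ((m.length : ℝ) / N - 1) + ((b.length : ℝ) / N + b'.length / N) := by
        rw [e2]
        ring
      have a2 : 0 ≤ (b.length : ℝ) / N := by positivity
      have a3 : 0 ≤ (b'.length : ℝ) / N := by positivity
      have a4 : (b.length : ℝ) / N ≤ th / 32 := by rwa [div_le_iff₀ g2]
      have a5 : (b'.length : ℝ) / N ≤ th / 32 := by rwa [div_le_iff₀ g2]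
      rw [a1]
      refine (abs_add_le _ _).trans (add_le_add k4 ?_)
      rw [abs_of_nonneg (by linarith)]
      linarith
    rw [k6]
    refine (abs_sub _ _).trans ?_
    linarith
  refine integral_congr_ae ?_
  filter_upwards [hone] with z hz
  rw [hz, mul_one]

end Pool.Agent.ROT.F3.Mk
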