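import Pool.Agent.ROT.F3RelL
import Pool.Agent.ROT.F3LocB
import Pool.Agent.ROT.F3K7Lb
import Pool.Agent.ROT.F3K3A

/-!
# ROT, F3, row D39 (helper28): the relations of the marks of one strand hold almost surely

* `ab` : absolute times; `Dm` : the diameter of the curve up to a relative time, continuous;
* `wc_*`, `wx_*` : relations for one word; **`sg_ae`** : `Sg` (F3LocB) for the limit marks of the strands `lsd T k g` (F3K7La, helper66) of
  almost every closed curve; the marks are those of F3K7Lb times `z` (= 0 or 1).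
-/

set_option autoImplicit false
set_option linter.unusedSectionVars false

open MeasureTheory Filter Topology Set unitInterval

open scoped ENNReal NNReal BoundedContinuousFunction

namespace Pool.Agent.ROT.F3.LR

open Pool.Agent.NTS.Res (step pos saw fug size curve)
open Pool.Agent.CRT (CI)
open Pool.Agent.SCF.Z Pool.Agent.SCF.M
open Pool.Agent.ROT.F3 Pool.Agent.ROT.F3.LF
open Pool.Agent.ROT.F3.K7 (pa pk lsd sdw xs_sdw pa_XS pk_of T_pos pk_cont)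
open Pool.Agent.ROT.F3.CK (Spt spt_ae lm_spt muN muG muG_eq muN_eq lm_mu)

/-! ### absolute times -/

/-- the absolute time of a relative mark, `-1` = none -/
noncomputable def ab (d φ : ℝ) : ℝ := if φ < 0 then -1 else φ * d

lemma ab_of {d φ : ℝ} (h : 0 ≤ φ) : ab d φ = φ * d := if_neg (not_lt.2 h)

lemma ab_no {d φ : ℝ} (h : φ < 0) : ab d φ = -1 := if_pos h

lemma ab_nn {d φ : ℝ} (hd : 0 ≤ d) : 0 ≤ ab d φ ↔ 0 ≤ φ := by
  constructor
  · intro h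
    by_contra hc
    rw [ab_no (not_le.1 hc)] at h
    linarith
  · intro h
    rw [ab_of h]
    positivity

/-! ### the diameter -/

/-- the differences of the positions up to the relative time `φ` -/
noncomputable def dfm (h : CI) (φ : ℝ) : C(I × I, ℂ) :=
  ⟨fun u => h (pk (u.1 * φ)) - h (pk (u.2 * φ)), by
    have h1 := pk_cont
    fun_prop⟩

lemma dfm_cont : Continuous fun y : CI × ℝ => dfm y.1 y.2 := by
  refine ContinuousMap.continuous_of_continuous_uncurry _ ?_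
  show Continuous fun q : (CI × ℝ) × (I × I) => q.1.1 (pk (q.2.1 * q.1.2)) - q.1.1 (pk (q.2.2 * q.1.2))
  have h0 := pk_cont
  have h1 : Continuous fun q : (CI × ℝ) × (I × I) => ((q.1.1, pk (q.2.1 * q.1.2)) : CI × I) := by fun_prop
  have h2 : Continuous fun q : (CI × ℝ) × (I × I) => ((q.1.1, pk (q.2.2 * q.1.2)) : CI × I) := by fun_prop
  have h3 := continuous_eval (F := C(I, ℂ)) (X := I) (Y := ℂ)
  exact (h3.comp h1).sub (h3.comp h2)

/-- the diameter up to the relative time `φ` -/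
noncomputable def Dm (h : CI) (φ : ℝ) : ℝ := ‖dfm h φ‖

lemma Dm_cont : Continuous fun y : CI × ℝ => Dm y.1 y.2 := dfm_cont.norm

lemma Dm_act (T : LSym) (h : CI) (φ : ℝ) : Dm (T.act h) φ = Dm h φ := by
  unfold Dm
  refine le_antisymm ((ContinuousMap.norm_le _ (norm_nonneg _)).2 fun u => ?_) ((ContinuousMap.norm_le _ (norm_nonneg _)).2 fun u => ?_)
  · have h1 := ContinuousMap.norm_coe_le_norm (dfm h φ) u
    refine le_trans (le_of_eq ?_) h1
    show ‖T.act h (pk (u.1 * φ)) - T.act h (pk (u.2 * φ))‖ = ‖h (pk (u.1 * φ)) - h (pk (u.2 * φ))‖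
    rw [T.act_apply, T.act_apply, ← map_sub T.L, LinearIsometryEquiv.norm_map]
  · have h1 := ContinuousMap.norm_coe_le_norm (dfm (T.act h) φ) u
    refine le_trans (le_of_eq ?_) h1
    show ‖h (pk (u.1 * φ)) - h (pk (u.2 * φ))‖ = ‖T.act h (pk (u.1 * φ)) - T.act h (pk (u.2 * φ))‖
    rw [T.act_apply, T.act_apply, ← map_sub T.L, LinearIsometryEquiv.norm_map]

lemma Dm_lt {p : ℝ × CI} (hp : 0 < p.1) {φ r : ℝ} (h0 : 0 ≤ φ) (h : DmL (pa p) (φ * p.1) r) : Dm p.2 φ < r := by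
  unfold Dm
  rw [ContinuousMap.norm_lt_iff_of_nonempty]
  intro u
  have e : ∀ v : I, pa p (v * φ * p.1) = p.2 (pk (v * φ)) := fun v => by
    show p.2 (pk (v * φ * p.1 / p.1)) = _
    rw [mul_div_cancel_right₀ _ hp.ne']
  have h1 := h (u.1 * φ * p.1) (u.2 * φ * p.1) (mul_nonneg (mul_nonneg u.1.2.1 h0) hp.le)
    (mul_le_mul_of_nonneg_right (mul_le_of_le_one_left h0 u.1.2.2) hp.le) (mul_nonneg (mul_nonneg u.2.2.1 h0) hp.le)
    (mul_le_mul_of_nonneg_right (mul_le_of_le_one_left h0 u.2.2.2) hp.le)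
  rw [e, e] at h1
  exact h1

lemma Dm_ge {h : CI} {φ a b : ℝ} (ha : 0 ≤ a) (ha' : a ≤ φ) (hb : 0 ≤ b) (hb' : b ≤ φ) : ‖h (pk a) - h (pk b)‖ ≤ Dm h φ := by
  rcases eq_or_lt_of_le (ha.trans ha') with h0 | h0
  · have e1 : a = 0 := le_antisymm (ha'.trans h0.symm.le) ha
    have e2 : b = 0 := le_antisymm (hb'.trans h0.symm.le) hb
    rw [e1, e2, sub_self, norm_zero]
    exact norm_nonneg _
  · have h1 := ContinuousMap.norm_coe_le_norm (dfm h φ) (⟨a / φ, div_nonneg ha h0.le, (div_le_one h0).2 ha'⟩,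
      ⟨b / φ, div_nonneg hb h0.le, (div_le_one h0).2 hb'⟩)
    refine le_trans (le_of_eq ?_) h1
    show ‖h (pk a) - h (pk b)‖ = ‖h (pk (a / φ * φ)) - h (pk (b / φ * φ))‖
    rw [div_mul_cancel₀ _ h0.ne', div_mul_cancel₀ _ h0.ne']

/-! ### one word -/

section word

variable {q q' : Qg} {N : ℝ} {w : W3}

/-- the vertices of the curve -/
lemma xs_vtx (hN : 0 < N) (hw : 1 ≤ w.length) {k : ℕ} (hk : k ≤ w.length) :
    (XS N w.get).2 (pk ((k : ℝ) / w.length)) = pos w.get k / N := by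
  have h1 := pa_XS hw hN w.get hk
  have hT := T_pos hN
  have e : (k : ℝ) / N ^ (4 / 3 : ℝ) / (XS N w.get).1 = (k : ℝ) / w.length := by
    show (k : ℝ) / N ^ (4 / 3 : ℝ) / ((w.length : ℝ) / N ^ (4 / 3 : ℝ)) = _
    have : (w.length : ℝ) ≠ 0 := by exact_mod_cast (by omega : w.length ≠ 0)
    field_simp
  rw [← h1]
  show _ = (XS N w.get).2 (pk ((k : ℝ) / N ^ (4 / 3 : ℝ) / (XS N w.get).1))
  rw [e]

/-- small diameter -/
lemma dm_word (hN : 0 < N) (hw : 1 ≤ w.length) {k : ℕ} (hk : k ≤ w.length) {r : ℝ} (h : Dm (XS N w.get).2 ((k : ℝ) / w.length) ≤ r)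
    {i j : ℕ} (hi : i ≤ k) (hj : j ≤ k) : ‖pos w.get i - pos w.get j‖ ≤ r * N := by
  have hn : (0 : ℝ) < w.length := by exact_mod_cast hw
  have h1 := (Dm_ge (h := (XS N w.get).2) (φ := (k : ℝ) / w.length) (a := (i : ℝ) / w.length) (b := (j : ℝ) / w.length)
    (by positivity) (div_le_div_of_nonneg_right (by exact_mod_cast hi) hn.le) (by positivity)
    (div_le_div_of_nonneg_right (by exact_mod_cast hj) hn.le)).trans h
  rw [xs_vtx hN hw (hi.trans hk), xs_vtx hN hw (hj.trans hk), ← sub_div, norm_div, Complex.norm_real,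
    Real.norm_of_nonneg hN.le, div_le_iff₀ hN] at h1
  exact h1

/-- the parameters are in order -/
structure QOk (q : Qg) : Prop where
  m : 0 < q.m
  r : q.r ≤ q.ρ
  r2 : q.r2 ≤ q.ρ2

/-- the gate of a mark -/
lemma wc_tp (h : 0 ≤ K7.wc q N w) : ∃ k : ℕ, TP (Dv w.get 0) (q.a * N) (q.r * N) (q.ρ * N) w.get k := by
  by_contra hc
  push Not at hc
  unfold K7.wc at h
  rw [mk1_no hc] at h
  linarith

/-- the gates of a mark -/
lemma wx_gb (h : 0 ≤ K7.wx q N w) : ∃ c x : ℕ, GB2 (Dv w.get 0) q.a q.r q.ρ q.m q.r2 q.ρ2 N w.get c x := by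
  by_contra hc
  push Not at hc
  unfold K7.wx at h
  rw [mkB_no hc] at h
  linarith

lemma wc_of (hN : 0 < N) (hq : QOk q) {k : ℕ} (h : TP (Dv w.get 0) (q.a * N) (q.r * N) (q.ρ * N) w.get k) :
    K7.wc q N w = (k : ℝ) / w.length := mk1_of hN.le hq.r h

lemma wx_of (hN : 0 < N) (hq : QOk q) {c x : ℕ} (h : GB2 (Dv w.get 0) q.a q.r q.ρ q.m q.r2 q.ρ2 N w.get c x) :
    K7.wx q N w = (x : ℝ) / w.length := mkB_of hN.le hq.r hq.r2 h

lemma wc_val (hN : 0 < N) (hq : QOk q) : K7.wc q N w = -1 ∨ 0 ≤ K7.wc q N w ∧ K7.wc q N w ≤ 1 := by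
  by_cases hk : ∃ k : ℕ, TP (Dv w.get 0) (q.a * N) (q.r * N) (q.ρ * N) w.get k
  · obtain ⟨k, hk⟩ := hk
    right
    have h1 : k < w.length := hk.2.1
    have h0 : (0 : ℝ) < w.length := by exact_mod_cast (by omega : 0 < w.length)
    rw [wc_of hN hq hk]
    exact ⟨by positivity, (div_le_one h0).2 (by exact_mod_cast h1.le)⟩
  · left
    exact mk1_no fun k hk' => hk ⟨k, hk'⟩

lemma wx_val (hN : 0 < N) (hq : QOk q) : K7.wx q N w = -1 ∨ 0 ≤ K7.wx q N w ∧ K7.wx q N w ≤ 1 := by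
  by_cases hk : ∃ c x : ℕ, GB2 (Dv w.get 0) q.a q.r q.ρ q.m q.r2 q.ρ2 N w.get c x
  · obtain ⟨c, x, hk⟩ := hk
    right
    have h1 : x < w.length := hk.2.2.1
    have h0 : (0 : ℝ) < w.length := by exact_mod_cast (by omega : 0 < w.length)
    rw [wx_of hN hq hk]
    exact ⟨by positivity, (div_le_one h0).2 (by exact_mod_cast h1.le)⟩
  · left
    exact mkB_no fun c x hk' => hk ⟨c, x, hk'⟩

lemma wc_w (hN : 0 < N) (hq : QOk q) (hq' : QOk q') (h : 0 ≤ K7.wc q N w) (ha : q'.a = q.a) (hr : q.r ≤ q'.r) (hρ : q'.ρ ≤ q.ρ) :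
    K7.wc q' N w = K7.wc q N w := by
  obtain ⟨k, hk⟩ := wc_tp h
  have h1 : TP (Dv w.get 0) (q'.a * N) (q'.r * N) (q'.ρ * N) w.get k := by
    rw [ha]
    exact tp_mono hk (mul_le_mul_of_nonneg_right hr hN.le) (mul_le_mul_of_nonneg_right hρ hN.le)
  rw [wc_of hN hq hk, wc_of hN hq' h1]

lemma wx_w (hN : 0 < N) (hq : QOk q) (hq' : QOk q') (h : 0 ≤ K7.wx q N w) (ha : q'.a = q.a) (hm : q'.m = q.m) (hr : q.r ≤ q'.r)
    (hρ : q'.ρ ≤ q.ρ) (hr2 : q.r2 ≤ q'.r2) (hρ2 : q'.ρ2 ≤ q.ρ2) : K7.wx q' N w = K7.wx q N w := by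
  obtain ⟨c, x, hk⟩ := wx_gb h
  have h1 : GB2 (Dv w.get 0) q'.a q'.r q'.ρ q'.m q'.r2 q'.ρ2 N w.get c x := by
    rw [ha, hm]
    exact ⟨tp_mono hk.1 (mul_le_mul_of_nonneg_right hr hN.le) (mul_le_mul_of_nonneg_right hρ hN.le),
      tp_mono hk.2 (mul_le_mul_of_nonneg_right hr2 hN.le) (mul_le_mul_of_nonneg_right hρ2 hN.le)⟩
  rw [wx_of hN hq hk, wx_of hN hq' h1]

lemma gb_le (hN : 0 < N) (hq : QOk q) {c x : ℕ} (h : GB2 (Dv w.get 0) q.a q.r q.ρ q.m q.r2 q.ρ2 N w.get c x) : c ≤ x := by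
  by_contra hc
  push Not at hc
  have h1 := h.1.1.2.1 x hc.le
  have h2 : q.m * N + (pos w.get c).re ≤ (pos w.get x).re := h.2.1.2.2.2.1
  have := mul_pos hq.m hN
  linarith

lemma wx_wc (hN : 0 < N) (hq : QOk q) (h : 0 ≤ K7.wx q N w) : 0 ≤ K7.wc q N w ∧ K7.wc q N w ≤ K7.wx q N w := by
  obtain ⟨c, x, hk⟩ := wx_gb h
  have h1 := gb_le hN hq hk
  rw [wx_of hN hq hk, wc_of hN hq hk.1]
  exact ⟨by positivity, div_le_div_of_nonneg_right (by exact_mod_cast h1) (Nat.cast_nonneg _)⟩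

lemma wc_d (hN : 0 < N) (hw : 1 ≤ w.length) (hq : QOk q) (hq' : QOk q') (h : 0 ≤ K7.wc q N w) (ha : q'.a = q.a) (hρ : q'.ρ = q.ρ)
    (hd : Dm (XS N w.get).2 (K7.wc q N w) ≤ q'.r) : K7.wc q' N w = K7.wc q N w := by
  obtain ⟨k, hk⟩ := wc_tp h
  rw [wc_of hN hq hk] at hd ⊢
  have h1 : TP (Dv w.get 0) (q'.a * N) (q'.r * N) (q'.ρ * N) w.get k := by
    rw [ha, hρ]
    exact ⟨⟨hk.1.1, hk.1.2.1, fun i j hi hj => dm_word hN hw hk.2.1.le hd hi hj, hk.1.2.2.2⟩, hk.2⟩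
  rw [wc_of hN hq' h1]

lemma wx_d (hN : 0 < N) (hw : 1 ≤ w.length) (hq : QOk q) (hq' : QOk q') (h : 0 ≤ K7.wx q N w) (ha : q'.a = q.a) (hρ : q'.ρ = q.ρ)
    (hm : q'.m = q.m) (hρ2 : q'.ρ2 = q.ρ2) (hd : Dm (XS N w.get).2 (K7.wc q N w) ≤ q'.r)
    (hd2 : Dm (XS N w.get).2 (K7.wx q N w) ≤ q'.r2) : K7.wx q' N w = K7.wx q N w := by
  obtain ⟨c, x, hk⟩ := wx_gb h
  rw [wc_of hN hq hk.1] at hd
  rw [wx_of hN hq hk] at hd2 ⊢
  have h1 : GB2 (Dv w.get 0) q'.a q'.r q'.ρ q'.m q'.r2 q'.ρ2 N w.get c x := by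
    rw [ha, hρ, hm, hρ2]
    exact ⟨⟨⟨hk.1.1.1, hk.1.1.2.1, fun i j hi hj => dm_word hN hw hk.1.2.1.le hd hi hj, hk.1.1.2.2.2⟩, hk.1.2⟩,
      ⟨⟨hk.2.1.1, hk.2.1.2.1, fun i j hi hj => dm_word hN hw hk.2.2.1.le hd2 hi hj, hk.2.1.2.2.2⟩, hk.2.2⟩⟩
  rw [wx_of hN hq' h1]

end word

/-! ### the limit -/

lemma sub_cont (k : Arm) : Continuous fun y : ℝ × CI => k.sub y.1 y.2 := by
  refine ContinuousMap.continuous_of_continuous_uncurry _ ?_
  show Continuous fun q : (ℝ × CI) × I => q.1.2 (pj (k.tt q.1.1 q.2)) - q.1.2 (pj (k.tr q.1.1))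
  have h0 : Continuous pj := continuous_projIcc (h := zero_le_one)
  have h1 : Continuous fun q : (ℝ × CI) × I => ((q.1.2, pj (k.tt q.1.1 q.2)) : CI × I) := by
    refine Continuous.prodMk (by fun_prop) (h0.comp ?_)
    cases k <;> unfold Arm.tt <;> fun_prop
  have h2 : Continuous fun q : (ℝ × CI) × I => ((q.1.2, pj (k.tr q.1.1)) : CI × I) := by
    refine Continuous.prodMk (by fun_prop) (h0.comp ?_)
    cases k <;> unfold Arm.tr <;> fun_prop
  have h3 := continuous_eval (F := C(I, ℂ)) (X := I) (Y := ℂ)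
  exact (h3.comp h1).sub (h3.comp h2)

section lim

variable {U : Filter ℕ} [U.NeBot] {b : ℝ} {P : Measure CC.Gm} {z : ℕ → W3 × ℕ → ℝ}

/-- sets without words of the system are null -/
lemma nul_spt {N : ℕ} {b : ℝ} {A : Set (W3 × ℕ)} (h : ∀ x, Spt x → x ∉ A) : (mwE N b).real A = 0 := by
  have h1 : mwE N b {x | ¬ Spt x} = 0 := spt_ae N b
  have h2 : mwE N b A = 0 := measure_mono_null (fun x hx => fun hs => h x hs hx) h1
  rw [measureReal_def, h2, ENNReal.toReal_zero]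

/-- **a closed relation which holds for the words of the system** -/
theorem rel_spt (hC : Cv U (fun N => mwE N b) cN P) {κ : Type*} [Fintype κ] {p : ℕ → W3 × ℕ → κ → ℝ} {Φ : CC.Gm → κ → ℝ}
    (h : ∀ k, Lm U (fun N => mwE N b) cN P (fun N x => p N x k) fun y => Φ y k) {C : Set (CC.Gm × (κ → ℝ))} (hc : IsClosed C)
    (hS : ∀ᶠ N in U, ∀ x, Spt x → (cN N x, p N x) ∈ C) : ∀ᵐ y ∂P, (y, Φ y) ∈ C := by
  refine Lm.ae_rel hC h hc fun ε hε => ?_
  filter_upwards [hS] with N hN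
  rw [nul_spt (A := {x | (cN N x, p N x) ∉ C}) fun x hx hc => hc (hN x hx)]
  exact hε.le

/-- **an implication under an open condition which holds for the words of the system** -/
theorem imp_spt (hC : Cv U (fun N => mwE N b) cN P) {κ : Type*} [Fintype κ] {p : ℕ → W3 × ℕ → κ → ℝ} {Φ : CC.Gm → κ → ℝ}
    (h : ∀ k, Lm U (fun N => mwE N b) cN P (fun N x => p N x k) fun y => Φ y k) {F G : CC.Gm × (κ → ℝ) → ℝ} (hF : Continuous F)
    (hG : Continuous G) (hS : ∀ᶠ N in U, ∀ x, Spt x → 0 < F (cN N x, p N x) → G (cN N x, p N x) ≤ 0) :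
    ∀ᵐ y ∂P, 0 < F (y, Φ y) → G (y, Φ y) ≤ 0 := by
  refine Lm.imp hC h hF hG fun η hη ε hε => ?_
  filter_upwards [hS] with N hN
  rw [nul_spt (A := {x | η < F (cN N x, p N x) ∧ η < G (cN N x, p N x)}) fun x hx hc => by
    have := hN x hx (hη.trans hc.1)
    linarith [hc.2]]
  exact hε.le

variable (z) in
/-- the factor of the marks: `0` or `1`, `0` when the roots coincide -/
structure Zok : Prop where
  z01 : ∀ N x, z N x = 0 ∨ z N x = 1
  z0 : ∀ N x, x.2 = 0 → z N x = 0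

variable {T : LSym} {k : Arm} {Q : Set Qg} {Φc Φx : Qg → CC.Gm → ℝ}

/-- a word with a nonzero factor has two different roots -/
lemma spt_xs (hz : Zok z) {N : ℕ} (hN : 1 ≤ N) {x : W3 × ℕ} (hx : Spt x) (h : z N x = 1) :
    1 ≤ (sdw T k x).length ∧ XS (N : ℝ) (sdw T k x).get = lsd T k (cN N x) := by
  obtain ⟨h1, h2, h3⟩ := hx
  have h4 : 1 ≤ x.2 := by
    rcases Nat.eq_zero_or_pos x.2 with h0 | h0
    · have := hz.z0 N x h0
      rw [this] at h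
      linarith
    · exact h0
  obtain ⟨n, hn⟩ : ∃ n, x.1.length = n + 1 := ⟨x.1.length - 1, by omega⟩
  refine ⟨?_, xs_sdw T k hn h1 h2 h4 (by omega) hN⟩
  rw [K7.length_sdw T k hn (by omega)]
  cases k <;> simp only [Arm.len] <;> omega

/-- the relative place of the second root -/
lemma muN_cN {N : ℕ} (hN : 1 ≤ N) {x : W3 × ℕ} (hx : Spt x) : (cN N x).2.1 / (cN N x).1 = muN x := by
  rw [muN_eq hx.2.2]
  have h : (0 : ℝ) < (N : ℝ) ^ (4 / 3 : ℝ) := T_pos (by exact_mod_cast hN)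
  have h0 : (0 : ℝ) < x.1.length := by exact_mod_cast (Nat.zero_le _).trans_lt hx.2.2
  show (x.2 : ℝ) / (N : ℝ) ^ (4 / 3 : ℝ) / ((x.1.length : ℝ) / (N : ℝ) ^ (4 / 3 : ℝ)) = _
  field_simp

/-- the diameter of the strand of a word -/
lemma dm_cN (hz : Zok z) {N : ℕ} (hN : 1 ≤ N) {x : W3 × ℕ} (hx : Spt x) (h : z N x = 1) (φ : ℝ) :
    Dm (XS (N : ℝ) (sdw T k x).get).2 φ = Dm (k.sub (muN x) (cN N x).2.2) φ := by
  rw [(spt_xs hz hN hx h).2]
  show Dm (T.act (k.sub ((cN N x).2.1 / (cN N x).1) (cN N x).2.2)) φ = _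
  rw [Dm_act, muN_cN hN hx]

lemma dmk_cont {κ : Type*} [Fintype κ] (k : Arm) (i j : κ) :
    Continuous fun y : CC.Gm × (κ → ℝ) => Dm (k.sub (y.2 i) y.1.2.2) (y.2 j) := by
  have c1 : Continuous fun y : CC.Gm × (κ → ℝ) => ((y.2 i, y.1.2.2) : ℝ × CI) := by fun_prop
  have c2 : Continuous fun y : CC.Gm × (κ → ℝ) => k.sub (y.2 i) y.1.2.2 := (sub_cont k).comp c1
  have c3 : Continuous fun y : CC.Gm × (κ → ℝ) => y.2 j := by fun_prop
  have c4 := c2.prodMk c3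
  have c5 := Dm_cont.comp c4
  exact c5

section rel

variable {q q' : Qg}

/-- the gates of one parameter -/
lemma cx_ae (hU : U ≤ atTop) (hC : Cv U (fun N => mwE N b) cN P) (hz : Zok z) (hq : QOk q)
    (hc : Lm U (fun N => mwE N b) cN P (fun N x => K7.wc q N (sdw T k x) * z N x) (Φc q))
    (hx : Lm U (fun N => mwE N b) cN P (fun N x => K7.wx q N (sdw T k x) * z N x) (Φx q)) :
    ∀ᵐ g ∂P, Φx q g ≤ -1 ∨ 0 ≤ Φc q g ∧ Φc q g ≤ Φx q g := by
  have hN1 : ∀ᶠ N : ℕ in U, 1 ≤ N := hU (eventually_ge_atTop 1)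
  refine rel_spt hC (κ := Fin 2) (p := fun N x => ![K7.wc q N (sdw T k x) * z N x, K7.wx q N (sdw T k x) * z N x])
    (Φ := fun g => ![Φc q g, Φx q g]) (fun j => by
      fin_cases j
      · exact hc
      · exact hx)
    (C := {y | y.2 1 ≤ -1 ∨ 0 ≤ y.2 0 ∧ y.2 0 ≤ y.2 1}) ?_ ?_
  · have c0 : Continuous fun y : CC.Gm × (Fin 2 → ℝ) => y.2 0 := by fun_prop
    have c1 : Continuous fun y : CC.Gm × (Fin 2 → ℝ) => y.2 1 := by fun_prop
    exact (isClosed_le c1 continuous_const).union ((isClosed_le continuous_const c0).inter (isClosed_le c0 c1))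
  · filter_upwards [hN1] with N hN x hs
    have hN0 : (0 : ℝ) < N := by exact_mod_cast hN
    show K7.wx q N (sdw T k x) * z N x ≤ -1 ∨ 0 ≤ K7.wc q N (sdw T k x) * z N x ∧
      K7.wc q N (sdw T k x) * z N x ≤ K7.wx q N (sdw T k x) * z N x
    rcases hz.z01 N x with h0 | h0
    · right
      simp [h0]
    · rw [h0, mul_one, mul_one]
      rcases wx_val (w := sdw T k x) hN0 hq with h1 | ⟨h1, -⟩
      · left
        exact h1.le
      · right
        exact wx_wc hN0 hq h1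

/-- weaker windows, the first gate -/
lemma cw_ae (hU : U ≤ atTop) (hC : Cv U (fun N => mwE N b) cN P) (hz : Zok z) (hq : QOk q) (hq' : QOk q')
    (hc : Lm U (fun N => mwE N b) cN P (fun N x => K7.wc q N (sdw T k x) * z N x) (Φc q))
    (hc' : Lm U (fun N => mwE N b) cN P (fun N x => K7.wc q' N (sdw T k x) * z N x) (Φc q'))
    (ha : q'.a = q.a) (hr : q.r ≤ q'.r) (hρ : q'.ρ ≤ q.ρ) : ∀ᵐ g ∂P, Φc q g ≤ -1 ∨ Φc q' g = Φc q g := by
  have hN1 : ∀ᶠ N : ℕ in U, 1 ≤ N := hU (eventually_ge_atTop 1)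
  refine rel_spt hC (κ := Fin 2) (p := fun N x => ![K7.wc q N (sdw T k x) * z N x, K7.wc q' N (sdw T k x) * z N x])
    (Φ := fun g => ![Φc q g, Φc q' g]) (fun j => by
      fin_cases j
      · exact hc
      · exact hc')
    (C := {y | y.2 0 ≤ -1 ∨ y.2 1 = y.2 0}) ?_ ?_
  · have c0 : Continuous fun y : CC.Gm × (Fin 2 → ℝ) => y.2 0 := by fun_prop
    have c1 : Continuous fun y : CC.Gm × (Fin 2 → ℝ) => y.2 1 := by fun_prop
    exact (isClosed_le c0 continuous_const).union (isClosed_eq c1 c0)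
  · filter_upwards [hN1] with N hN x hs
    have hN0 : (0 : ℝ) < N := by exact_mod_cast hN
    show K7.wc q N (sdw T k x) * z N x ≤ -1 ∨ K7.wc q' N (sdw T k x) * z N x = K7.wc q N (sdw T k x) * z N x
    rcases hz.z01 N x with h0 | h0
    · right
      simp [h0]
    · rw [h0, mul_one, mul_one]
      rcases wc_val (w := sdw T k x) hN0 hq with h1 | ⟨h1, -⟩
      · left
        exact h1.le
      · right
        exact wc_w hN0 hq hq' h1 ha hr hρ

/-- weaker windows, the second gate -/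
lemma xw_ae (hU : U ≤ atTop) (hC : Cv U (fun N => mwE N b) cN P) (hz : Zok z) (hq : QOk q) (hq' : QOk q')
    (hx : Lm U (fun N => mwE N b) cN P (fun N x => K7.wx q N (sdw T k x) * z N x) (Φx q))
    (hx' : Lm U (fun N => mwE N b) cN P (fun N x => K7.wx q' N (sdw T k x) * z N x) (Φx q'))
    (ha : q'.a = q.a) (hm : q'.m = q.m) (hr : q.r ≤ q'.r) (hρ : q'.ρ ≤ q.ρ) (hr2 : q.r2 ≤ q'.r2) (hρ2 : q'.ρ2 ≤ q.ρ2) :
    ∀ᵐ g ∂P, Φx q g ≤ -1 ∨ Φx q' g = Φx q g := by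
  have hN1 : ∀ᶠ N : ℕ in U, 1 ≤ N := hU (eventually_ge_atTop 1)
  refine rel_spt hC (κ := Fin 2) (p := fun N x => ![K7.wx q N (sdw T k x) * z N x, K7.wx q' N (sdw T k x) * z N x])
    (Φ := fun g => ![Φx q g, Φx q' g]) (fun j => by
      fin_cases j
      · exact hx
      · exact hx')
    (C := {y | y.2 0 ≤ -1 ∨ y.2 1 = y.2 0}) ?_ ?_
  · have c0 : Continuous fun y : CC.Gm × (Fin 2 → ℝ) => y.2 0 := by fun_prop
    have c1 : Continuous fun y : CC.Gm × (Fin 2 → ℝ) => y.2 1 := by fun_prop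
    exact (isClosed_le c0 continuous_const).union (isClosed_eq c1 c0)
  · filter_upwards [hN1] with N hN x hs
    have hN0 : (0 : ℝ) < N := by exact_mod_cast hN
    show K7.wx q N (sdw T k x) * z N x ≤ -1 ∨ K7.wx q' N (sdw T k x) * z N x = K7.wx q N (sdw T k x) * z N x
    rcases hz.z01 N x with h0 | h0
    · right
      simp [h0]
    · rw [h0, mul_one, mul_one]
      rcases wx_val (w := sdw T k x) hN0 hq with h1 | ⟨h1, -⟩
      · left
        exact h1.le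
      · right
        exact wx_w hN0 hq hq' h1 ha hm hr hρ hr2 hρ2

/-- smaller diameters, the first gate -/
lemma cd_ae (hU : U ≤ atTop) (hC : Cv U (fun N => mwE N b) cN P) (hP : ∀ᵐ g ∂P, 0 < g.1) (hz : Zok z) (hq : QOk q)
    (hq' : QOk q') (hc : Lm U (fun N => mwE N b) cN P (fun N x => K7.wc q N (sdw T k x) * z N x) (Φc q))
    (hc' : Lm U (fun N => mwE N b) cN P (fun N x => K7.wc q' N (sdw T k x) * z N x) (Φc q'))
    (ha : q'.a = q.a) (hρ : q'.ρ = q.ρ) :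
    ∀ᵐ g ∂P, 0 ≤ Φc q g → Dm (k.sub (muG g) g.2.2) (Φc q g) < q'.r → Φc q' g = Φc q g := by
  have hN1 : ∀ᶠ N : ℕ in U, 1 ≤ N := hU (eventually_ge_atTop 1)
  have hF : Continuous fun y : CC.Gm × (Fin 3 → ℝ) => min (y.2 1 + 1) (q'.r - Dm (k.sub (y.2 0) y.1.2.2) (y.2 1)) := by
    have c1 : Continuous fun y : CC.Gm × (Fin 3 → ℝ) => y.2 1 + 1 := by fun_prop
    exact c1.min (continuous_const.sub (dmk_cont k 0 1))
  have hG : Continuous fun y : CC.Gm × (Fin 3 → ℝ) => |y.2 2 - y.2 1| := by fun_prop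
  have h1 := imp_spt hC (κ := Fin 3) (p := fun N x => ![muN x, K7.wc q N (sdw T k x) * z N x, K7.wc q' N (sdw T k x) * z N x])
    (Φ := fun g => ![muG g, Φc q g, Φc q' g]) (fun j => by
      fin_cases j
      · exact lm_mu hC hP
      · exact hc
      · exact hc') hF hG ?_
  · filter_upwards [h1] with g hg h2 h3
    have h4 := hg (lt_min (show (0 : ℝ) < Φc q g + 1 by linarith) (sub_pos.2 h3))
    have h5 : |Φc q' g - Φc q g| ≤ 0 := h4
    exact sub_eq_zero.1 (abs_nonpos_iff.1 h5)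
  · filter_upwards [hN1] with N hN x hs hF
    have hN0 : (0 : ℝ) < N := by exact_mod_cast hN
    have h2 : 0 < K7.wc q N (sdw T k x) * z N x + 1 := hF.trans_le (min_le_left _ _)
    have h3 : 0 < q'.r - Dm (k.sub (muN x) (cN N x).2.2) (K7.wc q N (sdw T k x) * z N x) := hF.trans_le (min_le_right _ _)
    show |K7.wc q' N (sdw T k x) * z N x - K7.wc q N (sdw T k x) * z N x| ≤ 0
    rcases hz.z01 N x with h0 | h0
    · simp [h0]
    · rw [h0, mul_one] at h2 h3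
      rw [h0, mul_one, mul_one]
      rcases wc_val (w := sdw T k x) hN0 hq with h4 | ⟨h4, -⟩
      · linarith
      · rw [← dm_cN (T := T) hz hN hs h0] at h3
        rw [wc_d hN0 (spt_xs hz hN hs h0).1 hq hq' h4 ha hρ (by linarith), sub_self, abs_zero]

/-- smaller diameters, the second gate -/
lemma xd_ae (hU : U ≤ atTop) (hC : Cv U (fun N => mwE N b) cN P) (hP : ∀ᵐ g ∂P, 0 < g.1) (hz : Zok z) (hq : QOk q)
    (hq' : QOk q') (hc : Lm U (fun N => mwE N b) cN P (fun N x => K7.wc q N (sdw T k x) * z N x) (Φc q))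
    (hx : Lm U (fun N => mwE N b) cN P (fun N x => K7.wx q N (sdw T k x) * z N x) (Φx q))
    (hx' : Lm U (fun N => mwE N b) cN P (fun N x => K7.wx q' N (sdw T k x) * z N x) (Φx q'))
    (ha : q'.a = q.a) (hρ : q'.ρ = q.ρ) (hm : q'.m = q.m) (hρ2 : q'.ρ2 = q.ρ2) :
    ∀ᵐ g ∂P, 0 ≤ Φx q g → Dm (k.sub (muG g) g.2.2) (Φc q g) < q'.r → Dm (k.sub (muG g) g.2.2) (Φx q g) < q'.r2 →
      Φx q' g = Φx q g := by
  have hN1 : ∀ᶠ N : ℕ in U, 1 ≤ N := hU (eventually_ge_atTop 1)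
  have hF : Continuous fun y : CC.Gm × (Fin 4 → ℝ) =>
      min (y.2 2 + 1) (min (q'.r - Dm (k.sub (y.2 0) y.1.2.2) (y.2 1)) (q'.r2 - Dm (k.sub (y.2 0) y.1.2.2) (y.2 2))) := by
    have c1 : Continuous fun y : CC.Gm × (Fin 4 → ℝ) => y.2 2 + 1 := by fun_prop
    exact c1.min ((continuous_const.sub (dmk_cont k 0 1)).min (continuous_const.sub (dmk_cont k 0 2)))
  have hG : Continuous fun y : CC.Gm × (Fin 4 → ℝ) => |y.2 3 - y.2 2| := by fun_prop
  have h1 := imp_spt hC (κ := Fin 4) (p := fun N x => ![muN x, K7.wc q N (sdw T k x) * z N x, K7.wx q N (sdw T k x) * z N x,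
      K7.wx q' N (sdw T k x) * z N x])
    (Φ := fun g => ![muG g, Φc q g, Φx q g, Φx q' g]) (fun j => by
      fin_cases j
      · exact lm_mu hC hP
      · exact hc
      · exact hx
      · exact hx') hF hG ?_
  · filter_upwards [h1] with g hg h2 h3 h3'
    have h4 := hg (lt_min (show (0 : ℝ) < Φx q g + 1 by linarith) (lt_min (sub_pos.2 h3) (sub_pos.2 h3')))
    have h5 : |Φx q' g - Φx q g| ≤ 0 := h4
    exact sub_eq_zero.1 (abs_nonpos_iff.1 h5)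
  · filter_upwards [hN1] with N hN x hs hF
    have hN0 : (0 : ℝ) < N := by exact_mod_cast hN
    have h2 : 0 < K7.wx q N (sdw T k x) * z N x + 1 := hF.trans_le (min_le_left _ _)
    have h3 : 0 < q'.r - Dm (k.sub (muN x) (cN N x).2.2) (K7.wc q N (sdw T k x) * z N x) :=
      hF.trans_le ((min_le_right _ _).trans (min_le_left _ _))
    have h3' : 0 < q'.r2 - Dm (k.sub (muN x) (cN N x).2.2) (K7.wx q N (sdw T k x) * z N x) :=
      hF.trans_le ((min_le_right _ _).trans (min_le_right _ _))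
    show |K7.wx q' N (sdw T k x) * z N x - K7.wx q N (sdw T k x) * z N x| ≤ 0
    rcases hz.z01 N x with h0 | h0
    · simp [h0]
    · rw [h0, mul_one] at h2 h3 h3'
      rw [h0, mul_one, mul_one]
      rcases wx_val (w := sdw T k x) hN0 hq with h4 | ⟨h4, -⟩
      · linarith
      · rw [← dm_cN (T := T) hz hN hs h0] at h3 h3'
        rw [wx_d hN0 (spt_xs hz hN hs h0).1 hq hq' h4 ha hρ hm hρ2 (by linarith) (by linarith), sub_self, abs_zero]

end rel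

/-- **the relations of the marks of a strand hold almost surely** -/
theorem sg_ae (hU : U ≤ atTop) (hC : Cv U (fun N => mwE N b) cN P) (hP : ∀ᵐ g ∂P, 0 < g.2.1 ∧ g.2.1 < g.1) (hz : Zok z)
    (hQ : Q.Countable) (hq : ∀ q ∈ Q, QOk q)
    (hc : ∀ q ∈ Q, Lm U (fun N => mwE N b) cN P (fun N x => K7.wc q N (sdw T k x) * z N x) (Φc q))
    (hx : ∀ q ∈ Q, Lm U (fun N => mwE N b) cN P (fun N x => K7.wx q N (sdw T k x) * z N x) (Φx q)) :
    ∀ᵐ g ∂P, Sg Q (pa (lsd T k g)) (fun q => ab (lsd T k g).1 (Φc q g)) fun q => ab (lsd T k g).1 (Φx q g) := by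
  have := hQ.to_subtype
  have hP0 : ∀ᵐ g ∂P, 0 < g.1 := hP.mono fun y hy => hy.1.trans hy.2
  -- all parameters at once
  have a1 : ∀ᵐ g ∂P, ∀ q : Q, Φx q g ≤ -1 ∨ 0 ≤ Φc q g ∧ Φc q g ≤ Φx q g := ae_all_iff.2 fun q =>
    cx_ae (T := T) (k := k) hU hC hz (hq q q.2) (hc q q.2) (hx q q.2)
  have a2 : ∀ᵐ g ∂P, ∀ q q' : Q, q'.1.a = q.1.a → q.1.r ≤ q'.1.r → q'.1.ρ ≤ q.1.ρ → Φc q g ≤ -1 ∨ Φc q' g = Φc q g := by
    refine ae_all_iff.2 fun q => ae_all_iff.2 fun q' => ?_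
    by_cases h : q'.1.a = q.1.a ∧ q.1.r ≤ q'.1.r ∧ q'.1.ρ ≤ q.1.ρ
    · filter_upwards [cw_ae (T := T) (k := k) hU hC hz (hq q q.2) (hq q' q'.2) (hc q q.2) (hc q' q'.2) h.1 h.2.1 h.2.2] with g hg _ _ _
      exact hg
    · exact Eventually.of_forall fun g h1 h2 h3 => absurd ⟨h1, h2, h3⟩ h
  have a3 : ∀ᵐ g ∂P, ∀ q q' : Q, q'.1.a = q.1.a → q'.1.m = q.1.m → q.1.r ≤ q'.1.r → q'.1.ρ ≤ q.1.ρ → q.1.r2 ≤ q'.1.r2 →
      q'.1.ρ2 ≤ q.1.ρ2 → Φx q g ≤ -1 ∨ Φx q' g = Φx q g := by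
    refine ae_all_iff.2 fun q => ae_all_iff.2 fun q' => ?_
    by_cases h : q'.1.a = q.1.a ∧ q'.1.m = q.1.m ∧ q.1.r ≤ q'.1.r ∧ q'.1.ρ ≤ q.1.ρ ∧ q.1.r2 ≤ q'.1.r2 ∧ q'.1.ρ2 ≤ q.1.ρ2
    · filter_upwards [xw_ae (T := T) (k := k) hU hC hz (hq q q.2) (hq q' q'.2) (hx q q.2) (hx q' q'.2) h.1 h.2.1 h.2.2.1
        h.2.2.2.1 h.2.2.2.2.1 h.2.2.2.2.2] with g hg _ _ _ _ _ _
      exact hg
    · exact Eventually.of_forall fun g h1 h2 h3 h4 h5 h6 => absurd ⟨h1, h2, h3, h4, h5, h6⟩ h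
  have a4 : ∀ᵐ g ∂P, ∀ q q' : Q, q'.1.a = q.1.a → q'.1.ρ = q.1.ρ → 0 ≤ Φc q g → Dm (k.sub (muG g) g.2.2) (Φc q g) < q'.1.r →
      Φc q' g = Φc q g := by
    refine ae_all_iff.2 fun q => ae_all_iff.2 fun q' => ?_
    by_cases h : q'.1.a = q.1.a ∧ q'.1.ρ = q.1.ρ
    · filter_upwards [cd_ae (T := T) (k := k) hU hC hP0 hz (hq q q.2) (hq q' q'.2) (hc q q.2) (hc q' q'.2) h.1 h.2] with g hg _ _
      exact hg
    · exact Eventually.of_forall fun g h1 h2 => absurd ⟨h1, h2⟩ h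
  have a5 : ∀ᵐ g ∂P, ∀ q q' : Q, q'.1.a = q.1.a → q'.1.ρ = q.1.ρ → q'.1.m = q.1.m → q'.1.ρ2 = q.1.ρ2 → 0 ≤ Φx q g →
      Dm (k.sub (muG g) g.2.2) (Φc q g) < q'.1.r → Dm (k.sub (muG g) g.2.2) (Φx q g) < q'.1.r2 → Φx q' g = Φx q g := by
    refine ae_all_iff.2 fun q => ae_all_iff.2 fun q' => ?_
    by_cases h : q'.1.a = q.1.a ∧ q'.1.ρ = q.1.ρ ∧ q'.1.m = q.1.m ∧ q'.1.ρ2 = q.1.ρ2
    · filter_upwards [xd_ae (T := T) (k := k) hU hC hP0 hz (hq q q.2) (hq q' q'.2) (hc q q.2) (hx q q.2) (hx q' q'.2) h.1 h.2.1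
        h.2.2.1 h.2.2.2] with g hg _ _ _ _
      exact hg
    · exact Eventually.of_forall fun g h1 h2 h3 h4 => absurd ⟨h1, h2, h3, h4⟩ h
  filter_upwards [a1, a2, a3, a4, a5, hP] with g g1 g2 g3 g4 g5 g6
  have hd : 0 < (lsd T k g).1 := by
    show 0 < k.lf g.1 g.2.1
    cases k
    · exact g6.1
    · exact g6.1
    · exact sub_pos.2 g6.2
    · exact sub_pos.2 g6.2
  have e : (lsd T k g).2 = T.act (k.sub (muG g) g.2.2) := by
    rw [muG_eq g6.1 g6.2]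
    rfl
  have dm : ∀ {φ r : ℝ}, 0 ≤ φ → DmL (pa (lsd T k g)) (ab (lsd T k g).1 φ) r → Dm (k.sub (muG g) g.2.2) φ < r := by
    intro φ r h1 h2
    rw [ab_of h1] at h2
    have h3 := Dm_lt hd h1 h2
    rwa [e, Dm_act] at h3
  have xc : ∀ q ∈ Q, 0 ≤ Φx q g → 0 ≤ Φc q g ∧ Φc q g ≤ Φx q g := fun q hqQ h => by
    rcases g1 ⟨q, hqQ⟩ with h1 | h1
    · have h2 : Φx q g ≤ -1 := h1
      linarith
    · exact h1
  refine ⟨fun q hqQ q' hqQ' h ha hr hρ => ?_, fun q hqQ h => ?_, fun q hqQ q' hqQ' h ha hm hr hρ hr2 hρ2 => ?_,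
    fun q hqQ q' hqQ' h ha hρ hd' => ?_, fun q hqQ q' hqQ' h ha hρ hm hρ2 hd' hd'' => ?_, fun q hqQ h => ?_⟩
  · show ab _ _ = ab _ _
    rcases g2 ⟨q, hqQ⟩ ⟨q', hqQ'⟩ ha hr hρ with h1 | h1
    · have h2 := (ab_nn hd.le).1 h
      have h3 : Φc q g ≤ -1 := h1
      linarith
    · rw [show Φc q' g = Φc q g from h1]
  · exact (ab_nn hd.le).2 (xc q hqQ ((ab_nn hd.le).1 h)).1
  · show ab _ _ = ab _ _
    rcases g3 ⟨q, hqQ⟩ ⟨q', hqQ'⟩ ha hm hr hρ hr2 hρ2 with h1 | h1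
    · have h2 := (ab_nn hd.le).1 h
      have h3 : Φx q g ≤ -1 := h1
      linarith
    · rw [show Φx q' g = Φx q g from h1]
  · show ab _ _ = ab _ _
    have h2 := (ab_nn hd.le).1 h
    rw [show Φc q' g = Φc q g from g4 ⟨q, hqQ⟩ ⟨q', hqQ'⟩ ha hρ h2 (dm h2 hd')]
  · show ab _ _ = ab _ _
    have h2 := (ab_nn hd.le).1 h
    rw [show Φx q' g = Φx q g from g5 ⟨q, hqQ⟩ ⟨q', hqQ'⟩ ha hρ hm hρ2 h2 (dm (xc q hqQ h2).1 hd') (dm h2 hd'')]
  · show ab _ _ ≤ ab _ _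
    have h2 := (ab_nn hd.le).1 h
    obtain ⟨h3, h4⟩ := xc q hqQ h2
    rw [ab_of h3, ab_of h2]
    exact mul_le_mul_of_nonneg_right h4 hd.le

end lim

end Pool.Agent.ROT.F3.LR
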