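import Pool.Agent.ROT.F3LrX
import Pool.Agent.ROT.F3GenM

/-!
# ROT, F3, row D49 (helper94): locality of the gates of all members

* `grF_rad`, `grN_rad` : the diameters of the records;
* **`memF1`**, **`memN1`** : the three fields of helper31's `MemL` for one member of the foreign family `FamF` and of the native family
  `FamN` (helper11).
-/

set_option autoImplicit false

open MeasureTheory Filter Topology Set unitInterval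

namespace Pool.Agent.ROT.F3E

open Pool.Agent.ROT.F (QB)
open Pool.Agent.ROT.F3 Pool.Agent.ROT.F3.CK Pool.Agent.ROT.F3.LR
open Pool.Agent.ROT.F3.LF (Cv Lm Ev bi)

/-! ### 1. The diameters -/

/-- the diameters of the records, rotated lattice -/
lemma grF_rad {ρ τ : ℝ} (hρ : 0 < ρ) {Q : Tp} (h : Q.Nr (bF ρ τ)) (r : AR) :
    213 * ρ < (grF ρ Q r).r1 ∧ 57600 * ρ < (grF ρ Q r).r1' ∧ 57571 * ρ < (grF ρ Q r).r1'' := by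
  obtain ⟨-, -, -, -, w1, w2⟩ := bxF_r hρ h
  obtain ⟨t1, t2⟩ := tof_mem w1 w2
  exact ⟨(rT_lt (B := bxF 0 ρ) (show 213 * ρ < 400 * ρ by linarith) r.h0 r.h1).1,
    (rT_lt (B := bxF 1 ρ) (show 57600 * ρ < 58000 * ρ by linarith) t1 t2).1,
    (rT_lt (B := bxF 2 ρ) (show 57571 * ρ < 57572 * ρ by linarith) r.h2 r.h3).1⟩

/-- the diameters of the records, lattice 0 -/
lemma grN_rad {ρ τ : ℝ} (hρ : 0 < ρ) {Q : Tp} (h : Q.Nr (bN ρ τ)) (r : AR) :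
    21 / 10 * ρ < (grN ρ Q r).r1 ∧ 415 / 10 * ρ < (grN ρ Q r).r1' ∧ 415 / 10 * ρ < (grN ρ Q r).r1'' := by
  obtain ⟨-, -, -, -, w1, w2⟩ := bxN_r hρ h
  obtain ⟨t1, t2⟩ := tof_mem w1 w2
  exact ⟨(rT_lt (B := bxN 0 ρ) (show 21 / 10 * ρ < 29 / 10 * ρ by linarith) r.h0 r.h1).1,
    (rT_lt (B := bxN 1 ρ) (show 415 / 10 * ρ < 419 / 10 * ρ by linarith) t1 t2).1,
    (rT_lt (B := bxN 2 ρ) (show 415 / 10 * ρ < 416 / 10 * ρ by linarith) r.h2 r.h3).1⟩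

/-! ### 2. One member -/

section

variable {V : Ultrafilter ℕ} {bb : ℝ} {PG : Measure CC.Gm} {S : ℕ → ℝ} {c0 ρ τ : ℝ} {P : Prm} {K0 K1 : Bool → F3.GP}
  {F0 F1 : Bool → Fin 3 → Ga} {y : Bool → Fin 3 → Arm → ℕ → W3 × ℕ → ℝ}

/-- **the foreign gates of one member are local**; `β κ` = limits of the bases -/
theorem memF1 (hQB : QB) (hb : 0 ≤ bb) (hV : (V : Filter ℕ) ≤ atTop) (hC : Cv (V : Filter ℕ) (fun N => mwE N bb) cN PG)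
    (hP : ∀ᵐ g ∂PG, 0 < g.2.1 ∧ g.2.1 < g.1) (hS0 : ∀ N, 0 < S N) (hS : ∀ᶠ N : ℕ in (V : Filter ℕ), S N = N) (hρ : 0 < ρ)
    (hSc : Sc V bb S c0 ρ) (hc0 : 0 ≤ c0) (hp : P.p.Nr (bE ρ τ)) (hq : P.q.Nr (bE ρ τ)) (hF : FamF V bb PG S c0 ρ P K1 y F1)
    (E : Bool) (a : Fin 3) {β : Arm → CC.Gm → ℝ} (lb : ∀ κ, Lm (V : Filter ℕ) (fun N => mwE N bb) cN PG (y E a κ) (β κ))
    {lo hi : ℝ} (hlo : 57 * ρ ≤ lo) :
    ∃ (Xc Xx Xy : Arm → CC.Gm → ℝ) (Gs : Set CC.Gm), (∀ᵐ g ∂PG, g ∈ Gs) ∧ ∀ X : Set CC.Gm, X ⊆ Gs →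
      (∀ g ∈ X, c0 < ‖g.2.2 (pji (muG g))‖) → ∀ z rl sl rr sr : ℝ, 200 * ρ ≤ rl → rl ≤ 213 * ρ → 57000 * ρ ≤ sl → sl ≤ 57571 * ρ →
        rr + 2 * z ≤ rl → sr + 2 * z ≤ sl → z + 225 * ρ / 8 < lo →
        (∀ κ, ∀ g ∈ X, GMk ((F1 E a).B κ) ((F1 E a).c κ) ((F1 E a).x κ) (β κ) (rS (-dxB E a)) κ (K1 E).l (K1 E).m (Xc κ) (Xx κ)
          (Xy κ) g) ∧
        (∀ κ κ', LocS (225 * ρ) (19350 * ρ) z (K1 E).l lo hi rl sl rr sr (rS (-dxB E a)) κ X (β κ) (Xc κ) (Xx κ)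
          (rS (-dxB E a)) κ' X (β κ') (Xc κ') (Xx κ')) ∧
        ∀ κ κ', LocS (225 * ρ) (19350 * ρ) z (K1 E).l lo hi rl sl rr sr (rS (-dxB E a)) κ X (β κ) (Xc κ) (Xy κ)
          (rS (-dxB E a)) κ' X (β κ') (Xc κ') (Xy κ') := by
  obtain ⟨r, hr⟩ := hF.gr E
  have hN := (enB_nr hp hq E).f
  have sg := fun κ => hF.sg E a κ
  have ai := fun κ => hF.ai E a κ
  obtain ⟨e1, e2, e3⟩ := grF_rad hρ hN r
  rw [hr] at sg ai ⊢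
  obtain ⟨ix, iy⟩ := innF (lo := lo) (hi := hi) hρ hN r
  have s0 : 0 < scF 0 * ρ := mul_pos (by simp only [scF]; norm_num) hρ
  have s1 : 0 < scF 1 * ρ := mul_pos (by simp only [scF]; norm_num) hρ
  have s2 : 0 < scF 2 * ρ := mul_pos (by simp only [scF]; norm_num) hρ
  have hm : 0 < (grF ρ (enB P E).f r).m := by
    have h1 : 11400 * ρ ≤ (enB P E).f.m := hN.m.1
    show 0 < (enB P E).f.m
    linarith
  obtain ⟨Xc, Xx, Xy, Gs, h1, h2⟩ := mem_gen (T := rS (-dxB E a)) hQB hb hV hC hP hS0 hS s0 s1 s2 hc0 (fun κ => hSc.f 0 κ _)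
    (fun κ => hSc.f 1 κ _) (fun κ => hSc.f 2 κ _) (corFx (hi := hi) hρ hlo) (corFy (hi := hi) hρ hlo) (K := 225 * ρ)
    (K2 := 19350 * ρ) (K3 := 19350 * ρ) (by positivity) (by positivity) (by positivity) (fun q hq => ranFx hρ hq)
    (fun q hq => ranFy hρ hq) ix iy rfl rfl hm lb sg ai
  exact ⟨Xc, Xx, Xy, Gs, h1, fun X hX hr z rl sl rr sr a1 a2 a3 a4 a5 a6 a7 =>
    h2 X hX hr z rl sl rr sr a1 a1 (a2.trans_lt e1) a3 (by linarith) a3 (a4.trans_lt e3) a5 a6 a7⟩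

/-- **the native gates of one member are local**, bases `0` -/
theorem memN1 (hQB : QB) (hb : 0 ≤ bb) (hV : (V : Filter ℕ) ≤ atTop) (hC : Cv (V : Filter ℕ) (fun N => mwE N bb) cN PG)
    (hP : ∀ᵐ g ∂PG, 0 < g.2.1 ∧ g.2.1 < g.1) (hS0 : ∀ N, 0 < S N) (hS : ∀ᶠ N : ℕ in (V : Filter ℕ), S N = N) (hρ : 0 < ρ)
    (hSc : Sc V bb S c0 ρ) (hc0 : 0 ≤ c0) (hp : P.p.Nr (bE ρ τ)) (hq : P.q.Nr (bE ρ τ)) (hF : FamN V bb PG S c0 ρ P K0 F0)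
    (E : Bool) (a : Fin 3) {lo hi : ℝ} (hlo : 3 / 8 * ρ ≤ lo) :
    ∃ (Xc Xx Xy : Arm → CC.Gm → ℝ) (Gs : Set CC.Gm), (∀ᵐ g ∂PG, g ∈ Gs) ∧ ∀ X : Set CC.Gm, X ⊆ Gs →
      (∀ g ∈ X, c0 < ‖g.2.2 (pji (muG g))‖) → ∀ z rl sl rr sr : ℝ, 2 * ρ ≤ rl → rl ≤ 21 / 10 * ρ → 41 * ρ ≤ sl → sl ≤ 415 / 10 * ρ →
        rr + 2 * z ≤ rl → sr + 2 * z ≤ sl → z + 3 / 2 * ρ / 8 < lo →
        (∀ κ, ∀ g ∈ X, GMk ((F0 E a).B κ) ((F0 E a).c κ) ((F0 E a).x κ) (fun _ => 0) (rS (-dxB E a)) κ (K0 E).l (K0 E).m (Xc κ)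
          (Xx κ) (Xy κ) g) ∧
        (∀ κ κ', LocS (3 / 2 * ρ) (14 * ρ) z (K0 E).l lo hi rl sl rr sr (rS (-dxB E a)) κ X (fun _ => 0) (Xc κ) (Xx κ)
          (rS (-dxB E a)) κ' X (fun _ => 0) (Xc κ') (Xx κ')) ∧
        ∀ κ κ', LocS (3 / 2 * ρ) (14 * ρ) z (K0 E).l lo hi rl sl rr sr (rS (-dxB E a)) κ X (fun _ => 0) (Xc κ) (Xy κ)
          (rS (-dxB E a)) κ' X (fun _ => 0) (Xc κ') (Xy κ') := by
  obtain ⟨r, hr⟩ := hF.gr E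
  have hN := (enB_nr hp hq E).n
  have sg := fun κ => hF.sg E κ (-dxB E a)
  have ai := fun κ => hF.ai E a κ
  obtain ⟨e1, e2, e3⟩ := grN_rad hρ hN r
  rw [hr] at sg ai ⊢
  obtain ⟨ix, iy⟩ := innN (lo := lo) (hi := hi) hρ hN r
  have s0 : 0 < scN 0 * ρ := mul_pos (scN_pos 0).1 hρ
  have s1 : 0 < scN 1 * ρ := mul_pos (scN_pos 1).1 hρ
  have s2 : 0 < scN 2 * ρ := mul_pos (scN_pos 2).1 hρ
  have hm : 0 < (grN ρ (enB P E).n r).m := by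
    have h1 : 81 / 10 * ρ ≤ (enB P E).n.m := hN.m.1
    show 0 < (enB P E).n.m
    linarith
  obtain ⟨Xc, Xx, Xy, Gs, h1, h2⟩ := mem_gen (T := rS (-dxB E a)) hQB hb hV hC hP hS0 hS s0 s1 s2 hc0 (fun κ => hSc.n 0 κ _)
    (fun κ => hSc.n 1 κ _) (fun κ => hSc.n 2 κ _) (corNx (hi := hi) hρ hlo) (corNy (hi := hi) hρ hlo) (K := 3 / 2 * ρ)
    (K2 := 14 * ρ) (K3 := 14 * ρ) (by positivity) (by positivity) (by positivity) (fun q hq => ranNx hρ hq)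
    (fun q hq => ranNy hρ hq) ix iy rfl rfl hm (y := fun _ _ _ => 0) (β := fun _ _ => 0) (fun _ => Lm.const hC 0) sg ai
  exact ⟨Xc, Xx, Xy, Gs, h1, fun X hX hr z rl sl rr sr a1 a2 a3 a4 a5 a6 a7 =>
    h2 X hX hr z rl sl rr sr a1 a1 (a2.trans_lt e1) a3 (a4.trans_lt e2) a3 (a4.trans_lt e3) a5 a6 a7⟩

end

end Pool.Agent.ROT.F3E
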