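import Pool.Agent.ROT.F3LocCn
import Pool.Agent.ROT.F3K7Lb

/-!
# ROT, F3, row D39 (helper88, literal of helper28): 16's gates give the marks of the strands and their stability

* `Lm.of_ev` : a functional may be changed at the first indices; `wc_aW`, `wx_aW` : the marks `wc`, `wx` of helper66;
* **`gt_cfm`** : the limit marks at countably many parameters exist, and the marks over every functional base with stable gates are their
  limits (`Cfm`).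
-/

set_option autoImplicit false
set_option linter.unusedSectionVars false

open MeasureTheory Filter Topology Set

namespace Pool.Agent.ROT.F3

section ev

variable {ι : Type*} {l : Filter ι} {Ω : ι → Type*} [∀ i, MeasurableSpace (Ω i)] {P : ∀ i, Measure (Ω i)}
  {X : Type*} [PseudoMetricSpace X] [MeasurableSpace X] {c : ∀ i, Ω i → X} {ν : Measure X} {p p' : ∀ i, Ω i → ℝ} {Φ : X → ℝ}

/-- the functional may be changed at the first indices -/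
lemma LF.Lm.of_ev (h : LF.Lm l P c ν p Φ) (m : ∀ i, Measurable (p' i)) (b : ∃ C : ℝ, ∀ i ω, |p' i ω| ≤ C)
    (e : ∀ᶠ i in l, ∀ ω, p' i ω = p i ω) : LF.Lm l P c ν p' Φ := by
  refine ⟨m, b, h.ms', h.bd', fun ε hε => ?_⟩
  obtain ⟨φ, h1, h2⟩ := h.ap ε hε
  refine ⟨φ, h1, ?_⟩
  filter_upwards [h2, e] with i hi he
  simpa only [he] using hi

end ev

end Pool.Agent.ROT.F3

namespace Pool.Agent.ROT.F3.LR

open Pool.Agent.SCF.Z Pool.Agent.SCF.M
open Pool.Agent.ROT.F3 Pool.Agent.ROT.F3.LF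
open Pool.Agent.ROT.F3.K7 (sdw)
open Pool.Agent.CRT (CI)

lemma wc_aW (q : Qg) (k : Arm) (T : LSym) (x : W3 × ℕ) (N : ℝ) :
    mk1 (Dv (aW k T x).get (0 * N)) q.a q.r q.ρ N (aW k T x).get = K7.wc q N (sdw T k x) := by
  rw [aW_eq, zero_mul]
  rfl

lemma wx_aW (q : Qg) (k : Arm) (T : LSym) (x : W3 × ℕ) (N : ℝ) :
    mkB (Dv (aW k T x).get (0 * N)) q.a q.r q.ρ q.m q.r2 q.ρ2 N (aW k T x).get = K7.wx q N (sdw T k x) := by
  rw [aW_eq, zero_mul]
  rfl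

lemma abs_mark {v z : ℝ} (hv : v = -1 ∨ 0 ≤ v ∧ v ≤ 1) (hz : z = 0 ∨ z = 1) : |v * z| ≤ 1 := by
  rcases mulz_val hv hz with h | h
  · rw [h]
    norm_num
  · rw [abs_le]
    constructor <;> linarith [h.1, h.2]

lemma zN_zo (c : ℝ) (N : ℕ) (x : W3 × ℕ) : zN c N x = 0 ∨ zN c N x = 1 := by
  unfold zN
  split_ifs
  · exact Or.inr rfl
  · exact Or.inl rfl

/-- the factor is `0` when the roots coincide -/
lemma zN_root {c : ℝ} (hc : 0 ≤ c) (N : ℕ) {x : W3 × ℕ} (hx : x.2 = 0) : zN c N x = 0 := by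
  unfold zN dst
  rw [hx, ps_zero, norm_zero, zero_div, if_neg (not_lt.2 hc)]

/-- **16's gates give the marks of the strand and their stability** -/
theorem gt_cfm {b : ℝ} {U : Ultrafilter ℕ} {P : Measure (ℝ × ℝ × CI)} (hC : Cv (U : Filter ℕ) (fun N => mwE N b) cN P)
    {Q : Set Qg} (hQ : Q.Countable) {T : LSym} {k : Arm} {S : ℕ → ℝ} (hS : ∀ᶠ N : ℕ in (U : Filter ℕ), S N = N) {c0 : ℝ}
    (hW : WSys (U : Filter ℕ) (fun N => mwE N b) (fun _ x => (aW k T x).length) (fun _ x => (aW k T x).get) S) {R1 R2 : ℝ}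
    (h1 : ∀ q ∈ Q, Gt1 (U : Filter ℕ) (fun N => mwE N b) cN (fun _ x => (aW k T x).length) (fun _ x => (aW k T x).get) S R1
      q.a q.r q.ρ (fun _ _ => 0) (zN c0))
    (h2 : ∀ q ∈ Q, Gt2 (U : Filter ℕ) (fun N => mwE N b) cN (fun _ x => (aW k T x).length) (fun _ x => (aW k T x).get) S R1 R2
      q.a q.r q.ρ q.m q.r2 q.ρ2 (fun _ _ => 0) (zN c0)) :
    ∃ Φc Φx : Qg → (ℝ × ℝ × CI) → ℝ,
      (∀ q ∈ Q, Lm (U : Filter ℕ) (fun N => mwE N b) cN P (fun N x => K7.wc q N (sdw T k x) * zN c0 N x) (Φc q)) ∧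
      (∀ q ∈ Q, Lm (U : Filter ℕ) (fun N => mwE N b) cN P (fun N x => K7.wx q N (sdw T k x) * zN c0 N x) (Φx q)) ∧
      ∀ (w : Qg) (Rw : ℝ), 0 < Rw → w.r < w.ρ → w.r2 < w.ρ2 → w.r ≤ 2 * Rw → ∀ (y : ℕ → W3 × ℕ → ℝ) (beta Xc Xx : ℝ × ℝ × CI → ℝ),
        Lm (U : Filter ℕ) (fun N => mwE N b) cN P y beta →
        StbG (U : Filter ℕ) (fun N => mwE N b) (fun _ x => (aW k T x).length) (fun _ x => (aW k T x).get) S
          (fun N x => Dv (aW k T x).get (y N x * S N)) w.a w.r w.ρ →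
        StbG (U : Filter ℕ) (fun N => mwE N b) (fun _ x => (aW k T x).length) (fun _ x => (aW k T x).get) S
          (fun N x => Dv (aW k T x).get (nlv Rw w.a w.r w.ρ (S N) (y N x) 1 (aW k T x).get * S N)) w.m w.r2 w.ρ2 →
        Lm (U : Filter ℕ) (fun N => mwE N b) cN P (fun N x =>
          mk1 (Dv (aW k T x).get (y N x * S N)) w.a w.r w.ρ (S N) (aW k T x).get * zN c0 N x) Xc →
        Lm (U : Filter ℕ) (fun N => mwE N b) cN P (fun N x =>
          mkB (Dv (aW k T x).get (y N x * S N)) w.a w.r w.ρ w.m w.r2 w.ρ2 (S N) (aW k T x).get * zN c0 N x) Xx →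
        (∀ᵐ g ∂P, Cfm Q (fun q => Φc q g) (w.at (beta g + w.a)) (Xc g)) ∧
          ∀ᵐ g ∂P, Cfm Q (fun q => Φx q g) (w.at (beta g + w.a)) (Xx g) := by
  classical
  have e1 : ∀ q : Q, ∃ Φ : (ℝ × ℝ × CI) → ℝ, Lm (U : Filter ℕ) (fun N => mwE N b) cN P (fun N x =>
      mk1 (Dv (aW k T x).get (0 * S N)) q.1.a q.1.r q.1.ρ (S N) (aW k T x).get * zN c0 N x) Φ :=
    fun q => LF.L1A.lim hC (LF.l1a_iff.1 (h1 q.1 q.2).mrk)
  have e2 : ∀ q : Q, ∃ Φ : (ℝ × ℝ × CI) → ℝ, Lm (U : Filter ℕ) (fun N => mwE N b) cN P (fun N x =>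
      mkB (Dv (aW k T x).get (0 * S N)) q.1.a q.1.r q.1.ρ q.1.m q.1.r2 q.1.ρ2 (S N) (aW k T x).get * zN c0 N x) Φ :=
    fun q => LF.L1A.lim hC (LF.l1a_iff.1 (h2 q.1 q.2).mrk)
  choose Fc hFc using e1
  choose Fx hFx using e2
  obtain ⟨Φc, hΦc⟩ : ∃ Φc : Qg → (ℝ × ℝ × CI) → ℝ, Φc = fun q => if h : q ∈ Q then Fc ⟨q, h⟩ else fun _ => 0 := ⟨_, rfl⟩
  obtain ⟨Φx, hΦx⟩ : ∃ Φx : Qg → (ℝ × ℝ × CI) → ℝ, Φx = fun q => if h : q ∈ Q then Fx ⟨q, h⟩ else fun _ => 0 := ⟨_, rfl⟩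
  have a1 : ∀ q ∈ Q, Lm (U : Filter ℕ) (fun N => mwE N b) cN P (fun N x =>
      mk1 (Dv (aW k T x).get (0 * S N)) q.a q.r q.ρ (S N) (aW k T x).get * zN c0 N x) (Φc q) := fun q hq => by
    rw [hΦc]
    show Lm (U : Filter ℕ) (fun N => mwE N b) cN P _ (if h : q ∈ Q then Fc ⟨q, h⟩ else fun _ => 0)
    rw [dif_pos hq]
    exact hFc ⟨q, hq⟩
  have a2 : ∀ q ∈ Q, Lm (U : Filter ℕ) (fun N => mwE N b) cN P (fun N x =>
      mkB (Dv (aW k T x).get (0 * S N)) q.a q.r q.ρ q.m q.r2 q.ρ2 (S N) (aW k T x).get * zN c0 N x) (Φx q) := fun q hq => by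
    rw [hΦx]
    show Lm (U : Filter ℕ) (fun N => mwE N b) cN P _ (if h : q ∈ Q then Fx ⟨q, h⟩ else fun _ => 0)
    rw [dif_pos hq]
    exact hFx ⟨q, hq⟩
  refine ⟨Φc, Φx, fun q hq => ?_, fun q hq => ?_, fun w Rw hRw r1 r2 r3 y beta Xc Xx hy s1 s2 m1 m2 => ?_⟩
  · refine LF.Lm.of_ev (a1 q hq) (fun N => Measurable.of_discrete) ⟨1, fun N x => abs_mark mk1_val (zN_zo c0 N x)⟩ ?_
    filter_upwards [hS] with N hN x
    rw [hN, wc_aW]
  · refine LF.Lm.of_ev (a2 q hq) (fun N => Measurable.of_discrete) ⟨1, fun N x => abs_mark mkB_val (zN_zo c0 N x)⟩ ?_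
    filter_upwards [hS] with N hN x
    rw [hN, wx_aW]
  · constructor
    · exact cfC_lim (w := w) (p := fun _ _ => 0) (b := y) (z := zN c0) hC hW.pos hQ r1 (zN_zo c0)
        (by simpa only [zero_add] using s1) hy (by simpa only [zero_add] using m1) a1
    · exact cfB_lim (w := w) (p := fun _ _ => 0) (b := y) (z := zN c0) hC hW hQ hRw r1 r2 r3 (zN_zo c0)
        (by simpa only [zero_add] using s1) (by simpa only [zero_add] using s2) hy (by simpa only [zero_add] using m2) a2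

end Pool.Agent.ROT.F3.LR
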