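import Pool.Agent.ROT.F3LrR
import Pool.Agent.ROT.F3LrG0

/-!
# ROT, F3, row D39 (helper88, literal of helper28): the strands with the gates of helper16 are good

* **`lst_gt`** : the strands of almost every closed curve are good (`LSt`) for the marks over every functional base with stable gates;
* `lst_gx` : with the existence of the marks.
-/

set_option autoImplicit false
set_option linter.unusedSectionVars false

open MeasureTheory Filter Topology Set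

namespace Pool.Agent.ROT.F3.LR

open Pool.Agent.CRT (CI)
open Pool.Agent.SCF.Z Pool.Agent.SCF.M
open Pool.Agent.ROT.F3 Pool.Agent.ROT.F3.LF
open Pool.Agent.ROT.F3.K7 (sdw GdSeq)

variable {b : ℝ} {U : Ultrafilter ℕ} {P : Measure (ℝ × ℝ × CI)} {Q : Set Qg} {T : LSym} {k : Arm} {S : ℕ → ℝ} {c0 : ℝ}

/-- **the strands are good** -/
theorem lst_gt {R R2 : ℝ} {Gj : ℕ → ℕ → W3 × ℕ → Prop} (hG : GdSeq b R R2 Gj) (hU : (U : Filter ℕ) ≤ atTop)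
    (hC : Cv (U : Filter ℕ) (fun N => mwE N b) cN P) (hP : ∀ᵐ g ∂P, 0 < g.2.1 ∧ g.2.1 < g.1) (hQ : Q.Countable)
    (hq : ∀ q ∈ Q, QOk q) (hS : ∀ᶠ N : ℕ in (U : Filter ℕ), S N = N) (hc0 : 0 ≤ c0) {Z : ℝ × ℝ × CI → ℝ}
    (hZ : Lm (U : Filter ℕ) (fun N => mwE N b) cN P (zN c0) Z)
    (hW : WSys (U : Filter ℕ) (fun N => mwE N b) (fun _ x => (aW k T x).length) (fun _ x => (aW k T x).get) S) {R1 R3 : ℝ}
    (h1 : ∀ q ∈ Q, Gt1 (U : Filter ℕ) (fun N => mwE N b) cN (fun _ x => (aW k T x).length) (fun _ x => (aW k T x).get) S R1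
      q.a q.r q.ρ (fun _ _ => 0) (zN c0))
    (h2 : ∀ q ∈ Q, Gt2 (U : Filter ℕ) (fun N => mwE N b) cN (fun _ x => (aW k T x).length) (fun _ x => (aW k T x).get) S R1 R3
      q.a q.r q.ρ q.m q.r2 q.ρ2 (fun _ _ => 0) (zN c0))
    {w : Qg} {Rw : ℝ} (hRw : 0 < Rw) (hr : w.r < w.ρ) (hr2 : w.r2 < w.ρ2) (hrR : w.r ≤ 2 * Rw) {y : ℕ → W3 × ℕ → ℝ}
    {beta Xc Xx : ℝ × ℝ × CI → ℝ} (hy : Lm (U : Filter ℕ) (fun N => mwE N b) cN P y beta)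
    (s1 : StbG (U : Filter ℕ) (fun N => mwE N b) (fun _ x => (aW k T x).length) (fun _ x => (aW k T x).get) S
      (fun N x => Dv (aW k T x).get (y N x * S N)) w.a w.r w.ρ)
    (s2 : StbG (U : Filter ℕ) (fun N => mwE N b) (fun _ x => (aW k T x).length) (fun _ x => (aW k T x).get) S
      (fun N x => Dv (aW k T x).get (nlv Rw w.a w.r w.ρ (S N) (y N x) 1 (aW k T x).get * S N)) w.m w.r2 w.ρ2)
    (m1 : Lm (U : Filter ℕ) (fun N => mwE N b) cN P (fun N x =>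
      mk1 (Dv (aW k T x).get (y N x * S N)) w.a w.r w.ρ (S N) (aW k T x).get * zN c0 N x) Xc)
    (m2 : Lm (U : Filter ℕ) (fun N => mwE N b) cN P (fun N x =>
      mkB (Dv (aW k T x).get (y N x * S N)) w.a w.r w.ρ w.m w.r2 w.ρ2 (S N) (aW k T x).get * zN c0 N x) Xx) :
    ∀ᵐ g ∂P, LSt U Gj Q T k (zN c0) Z w beta Xc Xx g := by
  obtain ⟨Φc, Φx, a1, a2, a3⟩ := gt_cfm hC hQ hS hW h1 h2
  obtain ⟨b1, b2⟩ := a3 w Rw hRw hr hr2 hrR y beta Xc Xx hy s1 s2 m1 m2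
  exact lst_ae hG hU hC hP hQ hq ⟨zN_zo c0, fun N x hx => zN_root hc0 N hx⟩ hZ a1 a2 b1 b2

/-- **the strands are good**, with the existence of the marks; `w` by 16's `Gt1`, `Gt2` over the base `y` -/
theorem lst_gx {R R2 : ℝ} {Gj : ℕ → ℕ → W3 × ℕ → Prop} (hG : GdSeq b R R2 Gj) (hU : (U : Filter ℕ) ≤ atTop)
    (hC : Cv (U : Filter ℕ) (fun N => mwE N b) cN P) (hP : ∀ᵐ g ∂P, 0 < g.2.1 ∧ g.2.1 < g.1) (hQ : Q.Countable)
    (hq : ∀ q ∈ Q, QOk q) (hS : ∀ᶠ N : ℕ in (U : Filter ℕ), S N = N) (hc0 : 0 ≤ c0) {Z : ℝ × ℝ × CI → ℝ}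
    (hZ : Lm (U : Filter ℕ) (fun N => mwE N b) cN P (zN c0) Z)
    (hW : WSys (U : Filter ℕ) (fun N => mwE N b) (fun _ x => (aW k T x).length) (fun _ x => (aW k T x).get) S) {R1 R3 : ℝ}
    (h1 : ∀ q ∈ Q, Gt1 (U : Filter ℕ) (fun N => mwE N b) cN (fun _ x => (aW k T x).length) (fun _ x => (aW k T x).get) S R1
      q.a q.r q.ρ (fun _ _ => 0) (zN c0))
    (h2 : ∀ q ∈ Q, Gt2 (U : Filter ℕ) (fun N => mwE N b) cN (fun _ x => (aW k T x).length) (fun _ x => (aW k T x).get) S R1 R3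
      q.a q.r q.ρ q.m q.r2 q.ρ2 (fun _ _ => 0) (zN c0))
    {w : Qg} {Rw Rx : ℝ} (hRw : 0 < Rw) (hr : w.r < w.ρ) (hr2 : w.r2 < w.ρ2) (hrR : w.r ≤ 2 * Rw) {y : ℕ → W3 × ℕ → ℝ}
    {beta : ℝ × ℝ × CI → ℝ} (hy : Lm (U : Filter ℕ) (fun N => mwE N b) cN P y beta)
    (g1 : Gt1 (U : Filter ℕ) (fun N => mwE N b) cN (fun _ x => (aW k T x).length) (fun _ x => (aW k T x).get) S Rw
      w.a w.r w.ρ y (zN c0))
    (g2 : Gt2 (U : Filter ℕ) (fun N => mwE N b) cN (fun _ x => (aW k T x).length) (fun _ x => (aW k T x).get) S Rw Rx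
      w.a w.r w.ρ w.m w.r2 w.ρ2 y (zN c0)) :
    ∃ Xc Xx : ℝ × ℝ × CI → ℝ,
      Lm (U : Filter ℕ) (fun N => mwE N b) cN P (fun N x =>
        mk1 (Dv (aW k T x).get (y N x * S N)) w.a w.r w.ρ (S N) (aW k T x).get * zN c0 N x) Xc ∧
      Lm (U : Filter ℕ) (fun N => mwE N b) cN P (fun N x =>
        mkB (Dv (aW k T x).get (y N x * S N)) w.a w.r w.ρ w.m w.r2 w.ρ2 (S N) (aW k T x).get * zN c0 N x) Xx ∧
      ∀ᵐ g ∂P, LSt U Gj Q T k (zN c0) Z w beta Xc Xx g := by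
  obtain ⟨Xc, m1⟩ := LF.L1A.lim hC (LF.l1a_iff.1 g1.mrk)
  obtain ⟨Xx, m2⟩ := LF.L1A.lim hC (LF.l1a_iff.1 g2.mrk)
  exact ⟨Xc, Xx, m1, m2, lst_gt hG hU hC hP hQ hq hS hc0 hZ hW h1 h2 hRw hr hr2 hrR hy g1.st g2.st m1 m2⟩

end Pool.Agent.ROT.F3.LR
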