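import Pool.Agent.ROT.F3LrK
import Pool.Agent.ROT.F3K2F

/-!
# ROT, F3, row D39 / D49 (helper71): the gates of one arm through the functional marks (`GMk` of helper37), almost everywhere

* **`near_ae`** : near almost every limit curve there are words of the system with close values of finitely many functionals;
* `pos_near` : the vertices of a word near the strand;
* **`gmk_ae`** : from `T3L` (helper59) and the limits of the marks `mk1`, `mkB` of `c~`, `x~` and of the block mark; the level of the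
  block mark over `c~` has no atom at `m`; **`gmk_gt`** : the same from `Gt1`, `Gt2`.
-/

set_option autoImplicit false
set_option linter.unusedSectionVars false

open Filter MeasureTheory Topology Set

open scoped NNReal ENNReal BoundedContinuousFunction

namespace Pool.Agent.ROT.F3.LR

open Pool.Agent.NTS.Res (step pos saw fug size curve)
open Pool.Agent.CRT (CI)
open Pool.Agent.SCF.M Pool.Agent.SCF.Z
open Pool.Agent.ROT.F3.LF (Cv Lm Ev bi bi_pos bi_neg bi_ne)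
open Pool.Agent.ROT.F3.CK (Spt spt_ae)
open Pool.Agent.ROT.F3.K7 (lsd pa tcL tcL_of sdw_arcw xs_sdw lsd_near pa_near pa_XS)

/-- **words near almost every limit curve**, with close values of finitely many functionals -/
theorem near_ae {U : Ultrafilter ℕ} {b : ℝ} {PG : Measure CC.Gm} (hC : Cv (U : Filter ℕ) (fun N => mwE N b) cN PG)
    {κ : Type*} [Fintype κ] {p : κ → ℕ → W3 × ℕ → ℝ} {Φ : κ → CC.Gm → ℝ}
    (h : ∀ k, Lm (U : Filter ℕ) (fun N => mwE N b) cN PG (p k) (Φ k)) :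
    ∀ᵐ g ∂PG, ∀ r : ℝ, 0 < r → ∀ᶠ N : ℕ in (U : Filter ℕ), ∃ x, Spt x ∧ dist (cN N x) g < r ∧ ∀ k, |p k N x - Φ k g| < r := by
  have := hC.fin'
  have hm : Measurable fun g : CC.Gm => (g, fun k => Φ k g) := measurable_id.prodMk (measurable_pi_iff.2 fun k => (h k).ms')
  have key := gd_map (Z := CC.Gm × (κ → ℝ)) (z := fun (N : ℕ) (x : W3 × ℕ) => (cN N x, fun k => p k N x)) (ν := PG)
    (F := fun g => (g, fun k => Φ k g)) hm.aemeasurable
    (K7.Lm.cvu (p := fun N x k => p k N x) (Φ := fun g k => Φ k g) hC h) (Good := fun _ _ x => Spt x) (W := univ)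
    isOpen_univ (e := fun j => (1 / 2 : ℝ) ^ j) (fun j => by positivity) (summable_geometric_of_lt_one (by norm_num) (by norm_num))
    (fun j => Eventually.of_forall fun N => by
      have h1 : mwE N b {x | ¬ Spt x} = 0 := spt_ae N b
      have h2 : mwE N b {x | ¬ Spt x ∧ (cN N x, fun k => p k N x) ∈ (univ : Set (CC.Gm × (κ → ℝ)))} = 0 :=
        measure_mono_null (fun x hx => hx.1) h1
      exact h2.le.trans bot_le)
  filter_upwards [key] with g hg r hr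
  obtain ⟨j, hj⟩ := (hg (mem_univ _)).exists
  filter_upwards [hj (Metric.ball (g, fun k => Φ k g) r) Metric.isOpen_ball (Metric.mem_ball_self hr)] with N ⟨x, h1, h2⟩
  rw [Metric.mem_ball, Prod.dist_eq] at h2
  refine ⟨x, h1, (le_max_left _ _).trans_lt h2, fun k => ?_⟩
  rw [← Real.dist_eq]
  exact (dist_le_pi_dist (fun k => p k N x) (fun k => Φ k g) k).trans_lt ((le_max_right _ _).trans_lt h2)

/-- the vertices of a word near the strand -/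
lemma pos_near {p : ℝ × CI} (hp : 0 < p.1) {η : ℝ} (hη : 0 < η) : ∃ δ : ℝ, 0 < δ ∧ ∀ (N n : ℕ) (s : Fin n → Fin 3), 1 ≤ n → 1 ≤ N →
    dist (XS (N : ℝ) s) p ≤ δ → ∀ (c : ℕ) (φ : ℝ), c ≤ n → |(c : ℝ) / n - φ| ≤ δ → ‖pos s c / (N : ℂ) - pa p (φ * p.1)‖ ≤ η := by
  obtain ⟨δ1, h1, h2⟩ := pa_near hp hη
  refine ⟨δ1 / (1 + p.1), by positivity, fun N n s hn hN hd c φ hc hφ => ?_⟩
  have hN0 : (0 : ℝ) < N := by exact_mod_cast hN
  have hn0 : (0 : ℝ) < n := by exact_mod_cast hn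
  have hT : 0 < (N : ℝ) ^ (4 / 3 : ℝ) := by positivity
  have hle : δ1 / (1 + p.1) ≤ δ1 := div_le_self h1.le (by linarith)
  have hl : |(n : ℝ) / (N : ℝ) ^ (4 / 3 : ℝ) - p.1| ≤ δ1 / (1 + p.1) := by
    have : dist (XS (N : ℝ) s).1 p.1 ≤ δ1 / (1 + p.1) := (le_max_left _ _).trans hd
    rwa [Real.dist_eq] at this
  have h5 : |φ * p.1 - (c : ℝ) / (N : ℝ) ^ (4 / 3 : ℝ)| ≤ δ1 := by
    have e : φ * p.1 - (c : ℝ) / (N : ℝ) ^ (4 / 3 : ℝ) =
        -((c : ℝ) / n * ((n : ℝ) / (N : ℝ) ^ (4 / 3 : ℝ) - p.1) + p.1 * ((c : ℝ) / n - φ)) := by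
      field_simp
      ring
    rw [e, abs_neg]
    have h3 : |(c : ℝ) / n * ((n : ℝ) / (N : ℝ) ^ (4 / 3 : ℝ) - p.1)| ≤ 1 * (δ1 / (1 + p.1)) := by
      rw [abs_mul, abs_of_nonneg (by positivity : 0 ≤ (c : ℝ) / n)]
      refine mul_le_mul ?_ hl (abs_nonneg _) zero_le_one
      rw [div_le_one hn0]
      exact_mod_cast hc
    have h4 : |p.1 * ((c : ℝ) / n - φ)| ≤ p.1 * (δ1 / (1 + p.1)) := by
      rw [abs_mul, abs_of_nonneg hp.le]
      exact mul_le_mul_of_nonneg_left hφ hp.le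
    have e2 : 1 * (δ1 / (1 + p.1)) + p.1 * (δ1 / (1 + p.1)) = δ1 := by field_simp
    linarith [abs_add_le ((c : ℝ) / n * ((n : ℝ) / (N : ℝ) ^ (4 / 3 : ℝ) - p.1)) (p.1 * ((c : ℝ) / n - φ))]
  have h3 := h2 (XS (N : ℝ) s) (hd.trans hle) (φ * p.1) ((c : ℝ) / (N : ℝ) ^ (4 / 3 : ℝ)) h5
  rw [pa_XS hn hN0 s hc] at h3
  exact_mod_cast h3

lemma lsd_pos (T : LSym) (k : Arm) {g : CC.Gm} (h : 0 < g.2.1 ∧ g.2.1 < g.1) : 0 < (lsd T k g).1 := by
  show 0 < k.lf g.1 g.2.1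
  cases k
  · exact h.1
  · exact h.1
  · show 0 < g.1 - g.2.1
    linarith [h.2]
  · show 0 < g.1 - g.2.1
    linarith [h.2]

/-- the strand of a word of the system -/
lemma xs_aW (T : LSym) (k : Arm) {x : W3 × ℕ} {N : ℕ} (hx : Spt x) (hm : 1 ≤ x.2) (hN : 0 < N) :
    XS (N : ℝ) (aW k T x).get = lsd T k (cN N x) := by
  obtain ⟨n, hn⟩ : ∃ n, x.1.length = n + 1 := ⟨x.1.length - 1, by have := hx.2.2; omega⟩
  have h1 := xs_sdw T k hn hx.1 hx.2.1 hm (by have := hx.2.2; omega) hN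
  rw [sdw_arcw] at h1
  exact h1

lemma aW_pos (T : LSym) (k : Arm) {x : W3 × ℕ} (hx : Spt x) (hm : 1 ≤ x.2) : 1 ≤ (aW k T x).length := by
  obtain ⟨n, hn⟩ : ∃ n, x.1.length = n + 1 := ⟨x.1.length - 1, by have := hx.2.2; omega⟩
  have h2 := hx.2.2
  rw [aW_len, length_arcw k hn (m := x.2) (by omega)]
  cases k <;> simp only [Arm.len] <;> omega

/-- the real part of a close vertex -/
lemma re_near {z c : ℂ} {N : ℕ} {η : ℝ} (h : ‖z / (N : ℂ) - c‖ ≤ η) : |z.re / N - c.re| ≤ η := by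
  have h1 := (Complex.abs_re_le_norm _).trans h
  have h2 : (z / (N : ℂ)).re = z.re / N := by
    rw [show ((N : ℕ) : ℂ) = ((N : ℝ) : ℂ) by push_cast; rfl, Complex.div_ofReal_re]
  rwa [Complex.sub_re, h2] at h1

lemma zN_val (c0 : ℝ) (N : ℕ) (x : W3 × ℕ) : zN c0 N x = 0 ∨ zN c0 N x = 1 := by
  unfold zN
  split_ifs
  · exact Or.inr rfl
  · exact Or.inl rfl

/-- **the gates of one arm through the functional marks** -/
theorem gmk_ae {U : Ultrafilter ℕ} {b : ℝ} {PG : Measure CC.Gm} (hU : (U : Filter ℕ) ≤ atTop)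
    (hC : Cv (U : Filter ℕ) (fun N => mwE N b) cN PG) (hP : ∀ᵐ g ∂PG, 0 < g.2.1 ∧ g.2.1 < g.1) {S : ℕ → ℝ} (hS0 : ∀ N, 0 < S N)
    (hS : ∀ᶠ N : ℕ in (U : Filter ℕ), S N = N) {T : LSym} {k : Arm} {c0 R R3 a r ρ m r1 ρ1 h r2 ρ2 : ℝ} (hR : 0 < R) (hR3 : 0 < R3)
    (hh : 0 < h) (hr : r ≤ 2 * R) (hρ : r ≤ ρ) (hρ1 : r1 ≤ ρ1) (hr2 : r2 ≤ 2 * R3) (hρ2 : r2 ≤ ρ2) {y : ℕ → W3 × ℕ → ℝ}
    {𝒜 : Set CC.Gm}
    {Pc Pg : CC.Gm → ℝ}
    (ht : T3L (U : Filter ℕ) (fun N => mwE N b) cN PG (fun _ x => (aW k T x).length) (fun _ x => (aW k T x).get) S y (zN c0)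
      a r ρ m r1 ρ1 h r2 ρ2 𝒜 Pc Pg) {Xc Xx Xy β Z Ψ : CC.Gm → ℝ}
    (lc : Lm (U : Filter ℕ) (fun N => mwE N b) cN PG
      (fun N x => mk1 (Dv (aW k T x).get (y N x * S N)) a r ρ (S N) (aW k T x).get * zN c0 N x) Xc)
    (lx : Lm (U : Filter ℕ) (fun N => mwE N b) cN PG
      (fun N x => mkB (Dv (aW k T x).get (y N x * S N)) a r ρ m r1 ρ1 (S N) (aW k T x).get * zN c0 N x) Xx)
    (ly : Lm (U : Filter ℕ) (fun N => mwE N b) cN PG
      (fun N x => mkB (Dv (aW k T x).get (y N x * S N)) a r ρ h r2 ρ2 (S N) (aW k T x).get * zN c0 N x) Xy)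
    (lb : Lm (U : Filter ℕ) (fun N => mwE N b) cN PG y β) (lz : Lm (U : Filter ℕ) (fun N => mwE N b) cN PG (zN c0) Z)
    (lq : Lm (U : Filter ℕ) (fun N => mwE N b) cN PG
      (fun N x => qy R R3 a r ρ h r2 ρ2 (S N) (y N x) (zN c0 N x) (aW k T x).get) Ψ) (hΨ : PG {g | Ψ g = m} = 0) :
    ∀ᵐ g ∂PG, 0 < Z g → GMk 𝒜 Pc Pg β T k a m Xc Xx Xy g := by
  obtain ⟨E, hE⟩ : ∃ E : ℕ → W3 × ℕ → Prop, E = fun N x =>
      ∃ c x' y' : ℕ, T3 (aW k T x).get (S N) (y N x) a r ρ m r1 ρ1 h r2 ρ2 c x' y' := ⟨_, rfl⟩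
  have hex : ∀ N (x : W3 × ℕ), ∃ q : ℕ × ℕ, E N x → ∃ y' : ℕ, T3 (aW k T x).get (S N) (y N x) a r ρ m r1 ρ1 h r2 ρ2 q.1 q.2 y' := by
    intro N x
    by_cases hx : E N x
    · have hx' := hx
      rw [hE] at hx'
      obtain ⟨c, x', y', h1⟩ := hx'
      exact ⟨(c, x'), fun _ => ⟨y', h1⟩⟩
    · exact ⟨(0, 0), fun h' => absurd h' hx⟩
  choose q hq using hex
  obtain ⟨tc, tg⟩ := ht.tm (fun N x => (q N x).1) (fun N x => (q N x).2) fun N x _ h' => hq N x (by rw [hE]; exact h')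
  have te := ht.ev
  have near := near_ae hC (κ := Fin 9) (p := ![fun N x => bi (zN c0 N x = 1 ∧
        ∃ c x' y' : ℕ, T3 (aW k T x).get (S N) (y N x) a r ρ m r1 ρ1 h r2 ρ2 c x' y'),
      fun N x => mk1 (Dv (aW k T x).get (y N x * S N)) a r ρ (S N) (aW k T x).get * zN c0 N x,
      fun N x => mkB (Dv (aW k T x).get (y N x * S N)) a r ρ m r1 ρ1 (S N) (aW k T x).get * zN c0 N x,
      fun N x => mkB (Dv (aW k T x).get (y N x * S N)) a r ρ h r2 ρ2 (S N) (aW k T x).get * zN c0 N x,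
      fun N x => bi (zN c0 N x = 1 ∧ ∃ c x' y' : ℕ, T3 (aW k T x).get (S N) (y N x) a r ρ m r1 ρ1 h r2 ρ2 c x' y') *
        (((q N x).1 : ℝ) / (aW k T x).length),
      fun N x => bi (zN c0 N x = 1 ∧ ∃ c x' y' : ℕ, T3 (aW k T x).get (S N) (y N x) a r ρ m r1 ρ1 h r2 ρ2 c x' y') *
        (((q N x).2 : ℝ) / (aW k T x).length),
      y, zN c0, fun N x => qy R R3 a r ρ h r2 ρ2 (S N) (y N x) (zN c0 N x) (aW k T x).get])
    (Φ := ![fun g => bi (g ∈ 𝒜), Xc, Xx, Xy, Pc, Pg, β, Z, Ψ]) (fun j => by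
      fin_cases j
      · exact te
      · exact lc
      · exact lx
      · exact ly
      · exact tc
      · exact tg
      · exact lb
      · exact lz
      · exact lq)
  have hΨ' : ∀ᵐ g ∂PG, Ψ g ≠ m := by
    rw [ae_iff]
    simpa using hΨ
  filter_upwards [near, hP, hΨ'] with g hn hg hm hZ
  obtain ⟨p, hp⟩ : ∃ p, p = lsd T k g := ⟨_, rfl⟩
  have hp0 : 0 < p.1 := by
    rw [hp]
    exact lsd_pos T k hg
  have hg1 : 0 < g.1 := hg.1.trans hg.2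
  -- near words
  have base : ∀ η : ℝ, 0 < η → ∃ (r' : ℝ) (N : ℕ) (x : W3 × ℕ), 0 < r' ∧ r' ≤ η ∧ 1 ≤ N ∧ S N = N ∧ zN c0 N x = 1 ∧
      |bi (E N x) - bi (g ∈ 𝒜)| < r' ∧ |mk1 (Dv (aW k T x).get (y N x * S N)) a r ρ (S N) (aW k T x).get - Xc g| < r' ∧
      |mkB (Dv (aW k T x).get (y N x * S N)) a r ρ m r1 ρ1 (S N) (aW k T x).get - Xx g| < r' ∧
      |mkB (Dv (aW k T x).get (y N x * S N)) a r ρ h r2 ρ2 (S N) (aW k T x).get - Xy g| < r' ∧
      |bi (E N x) * (((q N x).1 : ℝ) / (aW k T x).length) - Pc g| < r' ∧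
      |bi (E N x) * (((q N x).2 : ℝ) / (aW k T x).length) - Pg g| < r' ∧ |y N x - β g| < r' ∧
      |qy R R3 a r ρ h r2 ρ2 (S N) (y N x) 1 (aW k T x).get - Ψ g| < r' ∧
      ∀ (c : ℕ) (φ : ℝ), c ≤ (aW k T x).length → |(c : ℝ) / (aW k T x).length - φ| ≤ r' →
        |(pos (aW k T x).get c).re / N - (pa p (φ * p.1)).re| ≤ η := by
    intro η hη
    obtain ⟨δ1, hδ1, n1⟩ := pos_near hp0 hη
    obtain ⟨δ2, hδ2, n2⟩ := lsd_near T k hg1 hδ1
    obtain ⟨r', hr', v1, v2, v3, v4, v5⟩ : ∃ r' : ℝ, 0 < r' ∧ r' ≤ η ∧ r' ≤ δ1 ∧ r' ≤ δ2 ∧ r' ≤ Z g ∧ r' ≤ g.2.1 :=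
      ⟨min η (min δ1 (min δ2 (min (Z g) g.2.1))), lt_min hη (lt_min hδ1 (lt_min hδ2 (lt_min hZ hg.1))), min_le_left _ _,
        (min_le_right _ _).trans (min_le_left _ _), (min_le_right _ _).trans ((min_le_right _ _).trans (min_le_left _ _)),
        (min_le_right _ _).trans ((min_le_right _ _).trans ((min_le_right _ _).trans (min_le_left _ _))),
        (min_le_right _ _).trans ((min_le_right _ _).trans ((min_le_right _ _).trans (min_le_right _ _)))⟩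
    obtain ⟨N, ⟨x, hx, hd, hk⟩, hSN, hN⟩ := ((hn r' hr').and (hS.and (hU (eventually_ge_atTop 1)))).exists
    have hN0 : (0 : ℝ) < N := by exact_mod_cast hN
    have hT : 0 < (N : ℝ) ^ (4 / 3 : ℝ) := by positivity
    have k0 := hk 0
    have k1 := hk 1
    have k2 := hk 2
    have k3 := hk 3
    have k4 := hk 4
    have k5 := hk 5
    have k6 := hk 6
    have k7 : |zN c0 N x - Z g| < r' := hk 7
    have k8 := hk 8
    have hz : zN c0 N x = 1 := by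
      rcases zN_val c0 N x with h0 | h0
      · rw [h0, zero_sub, abs_neg] at k7
        linarith [le_abs_self (Z g)]
      · exact h0
    have hm1 : 1 ≤ x.2 := by
      by_contra h0
      have h1 : x.2 = 0 := by omega
      have h2 : dist (cN N x).2.1 g.2.1 < r' := ((le_max_left _ _).trans (le_max_right _ _)).trans_lt hd
      have h3 : (cN N x).2.1 = 0 := by
        show (x.2 : ℝ) / (N : ℝ) ^ (4 / 3 : ℝ) = 0
        rw [h1, Nat.cast_zero, zero_div]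
      rw [h3, Real.dist_eq, zero_sub, abs_neg] at h2
      linarith [le_abs_self g.2.1]
    have e1 := xs_aW T k hx hm1 (show 0 < N by omega)
    have e2 : dist (XS (N : ℝ) (aW k T x).get) p ≤ δ1 := by
      rw [e1, hp]
      exact n2 _ (hd.le.trans v3)
    have eA : bi (zN c0 N x = 1 ∧ ∃ c x' y' : ℕ, T3 (aW k T x).get (S N) (y N x) a r ρ m r1 ρ1 h r2 ρ2 c x' y') = bi (E N x) := by
      rw [hE]
      exact LF.bi_congr ⟨fun h => h.2, fun h => ⟨hz, h⟩⟩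
    refine ⟨r', N, x, hr', v1, hN, hSN, hz, ?_, ?_, ?_, ?_, ?_, ?_, k6, ?_, fun c φ hc hφ =>
      re_near (n1 N _ _ (aW_pos T k hx hm1) hN e2 c φ hc (hφ.trans v2))⟩
    · rw [← eA]
      exact k0
    · have k1' : |mk1 (Dv (aW k T x).get (y N x * S N)) a r ρ (S N) (aW k T x).get * zN c0 N x - Xc g| < r' := k1
      rwa [hz, mul_one] at k1'
    · have k2' : |mkB (Dv (aW k T x).get (y N x * S N)) a r ρ m r1 ρ1 (S N) (aW k T x).get * zN c0 N x - Xx g| < r' := k2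
      rwa [hz, mul_one] at k2'
    · have k3' : |mkB (Dv (aW k T x).get (y N x * S N)) a r ρ h r2 ρ2 (S N) (aW k T x).get * zN c0 N x - Xy g| < r' := k3
      rwa [hz, mul_one] at k3'
    · rw [← eA]
      exact k4
    · rw [← eA]
      exact k5
    · have k8' : |qy R R3 a r ρ h r2 ρ2 (S N) (y N x) (zN c0 N x) (aW k T x).get - Ψ g| < r' := k8
      rwa [hz] at k8'
  -- a curve in the limit class
  have fwd : g ∈ 𝒜 → ∀ η : ℝ, 0 < η → η ≤ 1 / 4 → ∃ (c x' y' n : ℕ) (vc vy v : ℝ), (y' ≤ x' ∧ c ≤ y') ∧ |(c : ℝ) / n - Xc g| < η ∧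
      |(x' : ℝ) / n - Xx g| < η ∧ |(y' : ℝ) / n - Xy g| < η ∧ |(c : ℝ) / n - Pc g| < η ∧ |(x' : ℝ) / n - Pg g| < η ∧
      |v - β g| < η ∧ v + a ≤ vc ∧ vy < vc + m ∧ |vy - vc - Ψ g| < η ∧ |vc - (pa p (Xc g * p.1)).re| ≤ η ∧
      |vy - (pa p (Xy g * p.1)).re| ≤ η := by
    intro hgA η hη hη4
    obtain ⟨r', N, x, hr', hrη, hN, hSN, hz, k0, k1, k2, k3, k4, k5, k6, k8, hpos⟩ := base η hη
    have hN0 : (0 : ℝ) < N := by exact_mod_cast hN
    have hSp := hS0 N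
    rw [bi_pos hgA] at k0
    have hEx : E N x := by
      refine bi_ne fun h0 => ?_
      rw [h0, zero_sub, abs_neg, abs_one] at k0
      linarith
    rw [bi_pos hEx, one_mul] at k4 k5
    obtain ⟨y1, hy1⟩ := hq N x hEx
    obtain ⟨c, hc⟩ : ∃ c, c = (q N x).1 := ⟨_, rfl⟩
    obtain ⟨x', hx'⟩ : ∃ x', x' = (q N x).2 := ⟨_, rfl⟩
    rw [← hc, ← hx'] at hy1
    rw [← hc] at k4
    rw [← hx'] at k5
    rw [mk1_of hSp.le hρ hy1.gx.1] at k1
    rw [mkB_of hSp.le hρ hρ1 hy1.gx] at k2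
    rw [mkB_of hSp.le hρ hρ2 ⟨hy1.gx.1, hy1.gy⟩] at k3
    rw [qy_eq hR hR3 hSp hr hρ hr2 hρ2 rfl ⟨hy1.gx.1, hy1.gy⟩] at k8
    have hcn := hy1.gx.1.2.1
    have hyn := hy1.gy.2.1
    have hyx : y1 ≤ x' := by
      by_contra hcon
      have h1 := hy1.gy.1.2.1 x' (by omega)
      have h2 : m * S N + (pos (aW k T x).get c).re ≤ (pos (aW k T x).get x').re := hy1.gx.2.1.2.2.2.1
      linarith [hy1.lt]
    have hcy : c ≤ y1 := by
      by_contra hcon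
      have h1 := hy1.gx.1.1.2.1 y1 (by omega)
      have h2 : h * S N + (pos (aW k T x).get c).re ≤ (pos (aW k T x).get y1).re := hy1.gy.1.2.2.2.1
      linarith [mul_pos hh hSp]
    have hlc : a * S N + y N x * S N ≤ (pos (aW k T x).get c).re := hy1.gx.1.1.2.2.2.1
    have hlt := hy1.lt
    rw [hSN] at hlc hlt k8
    refine ⟨c, x', y1, (aW k T x).length, (pos (aW k T x).get c).re / N, (pos (aW k T x).get y1).re / N, y N x, ⟨hyx, hcy⟩,
      k1.trans_le hrη, k2.trans_le hrη, k3.trans_le hrη, k4.trans_le hrη, k5.trans_le hrη, k6.trans_le hrη, ?_, ?_, ?_,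
      hpos c _ hcn.le k1.le, hpos y1 _ hyn.le k3.le⟩
    · rw [le_div_iff₀ hN0]
      linarith
    · rw [div_lt_iff₀ hN0, add_mul, div_mul_cancel₀ _ hN0.ne']
      exact hlt
    · rw [← sub_div]
      exact k8.trans_le hrη
  have h14 : (0 : ℝ) < 1 / 4 := by norm_num
  have nn : ∀ {n c : ℕ} {φ η : ℝ}, |(c : ℝ) / n - φ| < η → -η ≤ φ := fun {n c φ η} h0 => by
    have h1 : (0 : ℝ) ≤ (c : ℝ) / n := by positivity
    linarith [(abs_lt.1 h0).2]
  have hXc : g ∈ 𝒜 → 0 ≤ Xc g := fun hgA => K7.nn_of h14 fun η h1 h2 => by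
    obtain ⟨c, x', y', n, vc, vy, v, -, f1, -⟩ := fwd hgA η h1 h2
    exact nn f1
  have hXx : g ∈ 𝒜 → 0 ≤ Xx g := fun hgA => K7.nn_of h14 fun η h1 h2 => by
    obtain ⟨c, x', y', n, vc, vy, v, -, -, f1, -⟩ := fwd hgA η h1 h2
    exact nn f1
  have hXy : g ∈ 𝒜 → 0 ≤ Xy g := fun hgA => K7.nn_of h14 fun η h1 h2 => by
    obtain ⟨c, x', y', n, vc, vy, v, -, -, -, f1, -⟩ := fwd hgA η h1 h2
    exact nn f1
  have eqL : ∀ {x y : ℝ}, (∀ η : ℝ, 0 < η → η ≤ 1 / 4 → |x - y| ≤ 3 * η) → x = y := fun {x y} h0 => by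
    refine le_antisymm (K7.le_lim (C := 3) h14 fun η h1 h2 => ?_) (K7.le_lim (C := 3) h14 fun η h1 h2 => ?_)
    · linarith [(abs_le.1 (h0 η h1 h2)).2]
    · linarith [(abs_le.1 (h0 η h1 h2)).1]
  refine ⟨⟨fun hgA => ⟨hXx hgA, hXy hgA, ?_⟩, fun ⟨g1, g2, g3⟩ => ?_⟩, fun hgA => eqL fun η h1 h2 => ?_,
    fun hgA => eqL fun η h1 h2 => ?_, hXc, fun hgA => K7.le_lim (C := 2) h14 fun η h1 h2 => ?_,
    fun hgA => K7.le_lim (C := 2) h14 fun η h1 h2 => ?_, fun hgA => ?_⟩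
  · -- the level of the block mark
    rw [← hp, tcL_of (hXy hgA), tcL_of (hXc hgA)]
    have h5 : (pa p (Xy g * p.1)).re - (pa p (Xc g * p.1)).re = Ψ g := eqL fun η h1 h2 => by
      obtain ⟨c, x', y', n, vc, vy, v, -, -, -, -, -, -, -, -, -, f1, f2, f3⟩ := fwd hgA η h1 h2
      rw [abs_lt] at f1
      rw [abs_le] at f2 f3
      rw [abs_le]
      constructor <;> linarith [f1.1, f1.2, f2.1, f2.2, f3.1, f3.2]
    have h6 : (pa p (Xy g * p.1)).re ≤ (pa p (Xc g * p.1)).re + m := K7.le_lim (C := 2) h14 fun η h1 h2 => by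
      obtain ⟨c, x', y', n, vc, vy, v, -, -, -, -, -, -, -, -, f0, -, f2, f3⟩ := fwd hgA η h1 h2
      rw [abs_le] at f2 f3
      linarith [f2.1, f2.2, f3.1, f3.2]
    refine lt_of_le_of_ne h6 fun h7 => hm ?_
    linarith
  · -- a curve with the functional marks
    rw [← hp] at g3
    have exm : ∀ {v φ η : ℝ} {n c : ℕ}, |v - φ| < η → 0 ≤ φ → η ≤ 1 / 4 → v ≠ -1 := fun {v φ η n c} h0 h1 h2 h3 => by
      rw [h3] at h0
      linarith [(abs_lt.1 h0).1]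
    have gates : ∀ η : ℝ, 0 < η → η ≤ 1 / 4 → ∃ (r' : ℝ) (N : ℕ) (x : W3 × ℕ) (c x' y' : ℕ), 0 < r' ∧ r' ≤ η ∧ 1 ≤ N ∧ S N = N ∧
        |bi (E N x) - bi (g ∈ 𝒜)| < r' ∧ GB2 (Dv (aW k T x).get (y N x * S N)) a r ρ m r1 ρ1 (S N) (aW k T x).get c x' ∧
        TP (Dv (aW k T x).get (pos (aW k T x).get c).re) (h * S N) (r2 * S N) (ρ2 * S N) (aW k T x).get y' ∧
        |(c : ℝ) / (aW k T x).length - Xc g| < r' ∧ |(y' : ℝ) / (aW k T x).length - Xy g| < r' ∧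
        ∀ (c : ℕ) (φ : ℝ), c ≤ (aW k T x).length → |(c : ℝ) / (aW k T x).length - φ| ≤ r' →
          |(pos (aW k T x).get c).re / N - (pa p (φ * p.1)).re| ≤ η := by
      intro η hη hη4
      obtain ⟨r', N, x, hr', hrη, hN, hSN, hz, k0, k1, k2, k3, k4, k5, k6, k8, hpos⟩ := base η hη
      have hSp := hS0 N
      obtain ⟨c, x', hcx⟩ : ∃ c x' : ℕ, GB2 (Dv (aW k T x).get (y N x * S N)) a r ρ m r1 ρ1 (S N) (aW k T x).get c x' := by
        by_contra hcon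
        push Not at hcon
        exact exm (n := 0) (c := 0) k2 g1 (hrη.trans hη4) (mkB_no hcon)
      obtain ⟨c', y', hcy⟩ : ∃ c y' : ℕ, GB2 (Dv (aW k T x).get (y N x * S N)) a r ρ h r2 ρ2 (S N) (aW k T x).get c y' := by
        by_contra hcon
        push Not at hcon
        exact exm (n := 0) (c := 0) k3 g2 (hrη.trans hη4) (mkB_no hcon)
      have e : c' = c := tp_unique (mul_le_mul_of_nonneg_right hρ hSp.le) hcy.1 hcx.1
      subst e
      rw [mk1_of hSp.le hρ hcx.1] at k1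
      rw [mkB_of hSp.le hρ hρ2 hcy] at k3
      exact ⟨r', N, x, c', x', y', hr', hrη, hN, hSN, k0, hcx, hcy.2, k1, k3, hpos⟩
    have hc0 : 0 ≤ Xc g := K7.nn_of h14 fun η h1 h2 => by
      obtain ⟨r', N, x, c, x', y', hr', hrη, hN, hSN, k0, hcx, hcy, k1, k3, hpos⟩ := gates η h1 h2
      linarith [nn k1]
    rw [tcL_of g2, tcL_of hc0] at g3
    obtain ⟨η, hη, u1, u2⟩ : ∃ η : ℝ, 0 < η ∧ η ≤ 1 / 4 ∧
        η ≤ ((pa p (Xc g * p.1)).re + m - (pa p (Xy g * p.1)).re) / 4 :=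
      ⟨min (1 / 4) (((pa p (Xc g * p.1)).re + m - (pa p (Xy g * p.1)).re) / 4), lt_min h14 (by linarith), min_le_left _ _,
        min_le_right _ _⟩
    obtain ⟨r', N, x, c, x', y', hr', hrη, hN, hSN, k0, hcx, hcy, k1, k3, hpos⟩ := gates η hη u1
    have hN0 : (0 : ℝ) < N := by exact_mod_cast hN
    have l1 := abs_le.1 (hpos c _ hcx.1.2.1.le k1.le)
    have l2 := abs_le.1 (hpos y' _ hcy.2.1.le k3.le)
    have hlt : (pos (aW k T x).get y').re < (pos (aW k T x).get c).re + m * S N := by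
      have h5 : (pos (aW k T x).get y').re / N < (pos (aW k T x).get c).re / N + m := by linarith [l1.1, l2.2]
      rw [div_lt_iff₀ hN0, add_mul, div_mul_cancel₀ _ hN0.ne'] at h5
      rw [hSN]
      exact h5
    have hEx : E N x := by
      rw [hE]
      exact ⟨c, x', y', hcx, hcy, hlt⟩
    rw [bi_pos hEx] at k0
    refine bi_ne fun h0 => ?_
    rw [h0, sub_zero, abs_one] at k0
    linarith
  · obtain ⟨c, x', y', n, vc, vy, v, -, f1, -, -, f2, -⟩ := fwd hgA η h1 h2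
    rw [abs_lt] at f1 f2
    rw [abs_le]
    constructor <;> linarith [f1.1, f1.2, f2.1, f2.2]
  · obtain ⟨c, x', y', n, vc, vy, v, -, -, f1, -, -, f2, -⟩ := fwd hgA η h1 h2
    rw [abs_lt] at f1 f2
    rw [abs_le]
    constructor <;> linarith [f1.1, f1.2, f2.1, f2.2]
  · obtain ⟨c, x', y', n, vc, vy, v, f0, -, f1, f2, -⟩ := fwd hgA η h1 h2
    have h5 : (y' : ℝ) / n ≤ (x' : ℝ) / n := div_le_div_of_nonneg_right (by exact_mod_cast f0.1) (Nat.cast_nonneg n)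
    rw [abs_lt] at f1 f2
    linarith [f1.1, f1.2, f2.1, f2.2]
  · obtain ⟨c, x', y', n, vc, vy, v, f0, f1, -, f2, -⟩ := fwd hgA η h1 h2
    have h5 : (c : ℝ) / n ≤ (y' : ℝ) / n := div_le_div_of_nonneg_right (by exact_mod_cast f0.2) (Nat.cast_nonneg n)
    rw [abs_lt] at f1 f2
    linarith [f1.1, f1.2, f2.1, f2.2]
  · rw [← hp, tcL_of (hXc hgA)]
    refine K7.le_lim (C := 2) h14 fun η h1 h2 => ?_
    obtain ⟨c, x', y', n, vc, vy, v, -, -, -, -, -, -, f1, f2, -, -, f3, -⟩ := fwd hgA η h1 h2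
    rw [abs_lt] at f1
    rw [abs_le] at f3
    linarith [f1.1, f1.2, f3.1, f3.2]

/-- **the same from `Gt1`, `Gt2`** (the level of the block mark over `c~` has no atom at `m`) -/
theorem gmk_gt {U : Ultrafilter ℕ} {b : ℝ} {PG : Measure CC.Gm} (hU : (U : Filter ℕ) ≤ atTop)
    (hC : Cv (U : Filter ℕ) (fun N => mwE N b) cN PG) (hP : ∀ᵐ g ∂PG, 0 < g.2.1 ∧ g.2.1 < g.1) {S : ℕ → ℝ} (hS0 : ∀ N, 0 < S N)
    (hS : ∀ᶠ N : ℕ in (U : Filter ℕ), S N = N) {T : LSym} {k : Arm} {c0 R R3 a r ρ m r1 ρ1 h r2 ρ2 : ℝ} (hR : 0 < R) (hR3 : 0 < R3)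
    (hh : 0 < h) (hr : r ≤ 2 * R) (hρ : r ≤ ρ) (hρ1 : r1 ≤ ρ1) (hr2 : r2 ≤ 2 * R3) (hρ2 : r2 ≤ ρ2) {y : ℕ → W3 × ℕ → ℝ}
    {𝒜 : Set CC.Gm}
    {Pc Pg : CC.Gm → ℝ}
    (h1 : Gt1 (U : Filter ℕ) (fun N => mwE N b) cN (fun _ x => (aW k T x).length) (fun _ x => (aW k T x).get) S R a r ρ y (zN c0))
    (h3 : Gt2 (U : Filter ℕ) (fun N => mwE N b) cN (fun _ x => (aW k T x).length) (fun _ x => (aW k T x).get) S R R3 a r ρ h r2 ρ2
      y (zN c0))
    (ht : T3L (U : Filter ℕ) (fun N => mwE N b) cN PG (fun _ x => (aW k T x).length) (fun _ x => (aW k T x).get) S y (zN c0)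
      a r ρ m r1 ρ1 h r2 ρ2 𝒜 Pc Pg) {Xc Xx Xy β Z : CC.Gm → ℝ}
    (lc : Lm (U : Filter ℕ) (fun N => mwE N b) cN PG
      (fun N x => mk1 (Dv (aW k T x).get (y N x * S N)) a r ρ (S N) (aW k T x).get * zN c0 N x) Xc)
    (lx : Lm (U : Filter ℕ) (fun N => mwE N b) cN PG
      (fun N x => mkB (Dv (aW k T x).get (y N x * S N)) a r ρ m r1 ρ1 (S N) (aW k T x).get * zN c0 N x) Xx)
    (ly : Lm (U : Filter ℕ) (fun N => mwE N b) cN PG
      (fun N x => mkB (Dv (aW k T x).get (y N x * S N)) a r ρ h r2 ρ2 (S N) (aW k T x).get * zN c0 N x) Xy)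
    (lb : Lm (U : Filter ℕ) (fun N => mwE N b) cN PG y β) (lz : Lm (U : Filter ℕ) (fun N => mwE N b) cN PG (zN c0) Z)
    (h0 : ∀ Ψ : CC.Gm → ℝ, Lm (U : Filter ℕ) (fun N => mwE N b) cN PG
      (fun N x => qy R R3 a r ρ h r2 ρ2 (S N) (y N x) (zN c0 N x) (aW k T x).get) Ψ → PG {g | Ψ g = m} = 0) :
    ∀ᵐ g ∂PG, 0 < Z g → GMk 𝒜 Pc Pg β T k a m Xc Xx Xy g := by
  obtain ⟨Ψ, lq⟩ := (h3.lv.sub h1.lv).l1f.lim hC
  exact gmk_ae hU hC hP hS0 hS hR hR3 hh hr hρ hρ1 hr2 hρ2 ht lc lx ly lb lz lq (h0 Ψ lq)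

end Pool.Agent.ROT.F3.LR
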