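import Pool.Agent.ROT.F3GtP
import Pool.Agent.ROT.F3LocA

/-!
# ROT, F3, row D49 (helper94): countable sets of parameters

The marks of the gates exist for parameters chosen one after the other, each off a countable set (28's `gt1_prod`, `gt2_prod`). Here for
whole countable sets of parameters, for countably many systems (arms, turns, bases) at once.

* `QP` : products of sets of parameters; **`net_qp`** : 28's `Net` for a product;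
* `Nd1`, `Nd2` : the sets of parameters of the gates, of the second gates, dense where it is needed; **`nd_net`** : 28's `Net`;
* **`NetG1`**, **`NetG2`** : each countable set of parameters off a countable set; levels `L j` (they may depend on the system: a functional
  base has one level only), diameters, windows; thresholds, diameters, windows;
* **`gt1_net`**, **`gt2_net`** : any systems; **`arc_net1`**, **`arc_net2`** : the strands of the closed words with two roots;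
* **`net_ex`** : one class, auxiliary radii in given ranges, threshold and window of the second gate off countable sets;
* `Ud`, **`net_univ`** : universal dense sets of parameters, no parameter of a class.
-/

set_option autoImplicit false
set_option linter.unusedSectionVars false

open Filter MeasureTheory Topology Set

open scoped NNReal BoundedContinuousFunction

namespace Pool.Agent.ROT.F3.LR

open Pool.Agent.NTS.Res (step pos saw fug size curve)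
open Pool.Agent.CRT (CI)
open Pool.Agent.SCF.M Pool.Agent.SCF.Z

/-! ### 1. dense sets, products -/

/-- a countable dense set off a countable set -/
lemma dn_off {E : Set ℝ} (hE : E.Countable) :
    ∃ D : Set ℝ, D.Countable ∧ (∀ d ∈ D, d ∉ E) ∧ ∀ u v : ℝ, u < v → ∃ d ∈ D, u < d ∧ d < v := by
  obtain ⟨D, h1, h2, h3⟩ := (hE.dense_compl ℝ).exists_countable_dense_subset
  refine ⟨D, h2, fun d hd => h1 hd, fun u v huv => ?_⟩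
  obtain ⟨d, hd, h4⟩ := h3.exists_between huv
  exact ⟨d, hd, h4.1, h4.2⟩

/-- a countable dense set of `(x, y)` off a countable set, with given elements -/
lemma dn_add {E A : Set ℝ} (hE : E.Countable) (hA : A.Countable) {x y : ℝ} (h : ∀ a ∈ A, a ∉ E ∧ x < a ∧ a < y) :
    ∃ D : Set ℝ, D.Countable ∧ A ⊆ D ∧ (∀ d ∈ D, d ∉ E ∧ x < d ∧ d < y) ∧ Dn D x y := by
  obtain ⟨D, h1, h2, h3⟩ := dn_off hE
  refine ⟨A ∪ (D ∩ Ioo x y), hA.union (h1.mono inter_subset_left), subset_union_left, ?_, fun u v hu huv hv => ?_⟩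
  · rintro d (hd | hd)
    · exact h d hd
    · exact ⟨h2 d hd.1, hd.2.1, hd.2.2⟩
  · obtain ⟨d, hd, h4, h5⟩ := h3 u v huv
    exact ⟨d, Or.inr ⟨hd, hu.trans_lt h4, h5.trans_le hv⟩, h4, h5⟩

/-- a countable dense set of `(x, ∞)` off a countable set, with given elements -/
lemma dn_addi {E A : Set ℝ} (hE : E.Countable) (hA : A.Countable) {x : ℝ} (h : ∀ a ∈ A, a ∉ E ∧ x < a) :
    ∃ D : Set ℝ, D.Countable ∧ A ⊆ D ∧ (∀ d ∈ D, d ∉ E ∧ x < d) ∧ ∀ y : ℝ, Dn D x y := by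
  obtain ⟨D, h1, h2, h3⟩ := dn_off hE
  refine ⟨A ∪ (D ∩ Ioi x), hA.union (h1.mono inter_subset_left), subset_union_left, ?_, fun y u v hu huv hv => ?_⟩
  · rintro d (hd | hd)
    · exact h d hd
    · exact ⟨h2 d hd.1, hd.2⟩
  · obtain ⟨d, hd, h4, h5⟩ := h3 u v huv
    exact ⟨d, Or.inr ⟨hd, hu.trans_lt h4⟩, h4, h5⟩

lemma Dn.sub {D : Set ℝ} {x y x' y' : ℝ} (h : Dn D x y) (hx : x ≤ x') (hy : y' ≤ y) : Dn D x' y' :=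
  fun u v hu huv hv => h u v (hx.trans hu) huv (hv.trans hy)

/-- product of sets of parameters -/
def QP (L D1 D2 D3 D4 D5 : Set ℝ) : Set Qg := {q | q.a ∈ L ∧ q.r ∈ D1 ∧ q.ρ ∈ D2 ∧ q.m ∈ D3 ∧ q.r2 ∈ D4 ∧ q.ρ2 ∈ D5}

lemma qp_countable {L D1 D2 D3 D4 D5 : Set ℝ} (h0 : L.Countable) (h1 : D1.Countable) (h2 : D2.Countable) (h3 : D3.Countable)
    (h4 : D4.Countable) (h5 : D5.Countable) : (QP L D1 D2 D3 D4 D5).Countable := by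
  have h := h0.prod (h1.prod (h2.prod (h3.prod (h4.prod h5))))
  have hi : Function.Injective fun q : Qg => (q.a, q.r, q.ρ, q.m, q.r2, q.ρ2) := by
    intro q q' hq
    simp only [Prod.mk.injEq] at hq
    obtain ⟨e1, e2, e3, e4, e5, e6⟩ := hq
    exact Qg.ext e1 e2 e3 e4 e5 e6
  refine (h.preimage hi).mono fun q hq => ?_
  exact ⟨hq.1, hq.2.1, hq.2.2.1, hq.2.2.2.1, hq.2.2.2.2.1, hq.2.2.2.2.2⟩

/-- **28's `Net` for a product** -/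
theorem net_qp {L D1 D2 D3 D4 D5 : Set ℝ} {w : Qg} {z K K2 lo hi rl rh sl sh u2 u3 u5 : ℝ} (hz : 0 ≤ z) (hK : 0 ≤ K) (hK2 : 0 ≤ K2)
    (hL : ∀ l ∈ L, lo ≤ l ∧ l ≤ hi) (dL : Dn L lo hi) (prl : rl + 2 * z < w.r) (prh : w.r + 2 * z < rh) (psl : sl + 2 * z < w.r2)
    (psh : w.r2 + 2 * z < sh) (h1 : w.r ∈ D1) (h1' : rl ∈ D1) (h1'' : rh ∈ D1) (h2 : w.ρ ∈ D2) (h3 : w.m ∈ D3) (h4 : w.r2 ∈ D4)
    (h4' : sl ∈ D4) (h4'' : sh ∈ D4) (h5 : w.ρ2 ∈ D5) (d2 : Dn D2 u2 w.ρ) (g2 : u2 + 6 * K < w.ρ) (d3 : Dn D3 u3 w.m)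
    (g3 : u3 < w.m) (d5 : Dn D5 u5 w.ρ2) (g5 : u5 + 6 * K2 < w.ρ2) :
    ∃ δ : ℝ, Net (QP L D1 D2 D3 D4 D5) L w z K K2 lo hi δ rl rh sl sh := by
  obtain ⟨δ, hδ⟩ : ∃ δ, δ = min (w.ρ - 6 * K - u2) (min (w.m - u3) (w.ρ2 - 6 * K2 - u5)) := ⟨_, rfl⟩
  have e1 : δ ≤ w.ρ - 6 * K - u2 := by rw [hδ]; exact min_le_left _ _
  have e2 : δ ≤ w.m - u3 := by rw [hδ]; exact (min_le_right _ _).trans (min_le_left _ _)
  have e3 : δ ≤ w.ρ2 - 6 * K2 - u5 := by rw [hδ]; exact (min_le_right _ _).trans (min_le_right _ _)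
  refine ⟨δ, by rw [hδ]; exact lt_min (by linarith) (lt_min (by linarith) (by linarith)), hz, hK, hK2, hL, dL, prl, prh, psl, psh,
    D1, D2, D3, D4, D5, fun l hl r hr ρ hρ m hm r2 hr2 ρ2 hρ2 => ⟨hl, hr, hρ, hm, hr2, hρ2⟩, h1, h1', h1'', h2, h3, h4, h4', h4'', h5,
    d2.sub (by linarith) le_rfl, d3.sub (by linarith) le_rfl, d5.sub (by linarith) le_rfl⟩

/-- the ranges of the parameters -/
structure QRg (R R2 : ℝ) (q : Qg) : Prop where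
  a : R / 4 < q.a
  r : q.r < 2 * R
  ρ : 64 * R < q.ρ
  ρ' : q.ρ < 128 * R
  m : R2 / 4 < q.m
  r2 : q.r2 < 2 * R2
  ρ2 : 64 * R2 < q.ρ2
  ρ2' : q.ρ2 < 128 * R2

/-- the sets of parameters of the gates: `A1` = diameters; `D2` = dense set of windows with the wanted elements `A2` -/
structure Nd1 (R : ℝ) (A1 A2 D2 : Set ℝ) : Prop where
  c1 : A1.Countable
  c2 : D2.Countable
  r1 : ∀ r ∈ A1, r < 2 * R
  s2 : A2 ⊆ D2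
  r2 : ∀ ρ ∈ D2, 64 * R < ρ ∧ ρ < 128 * R
  d2 : Dn D2 (64 * R) (128 * R)

/-- the sets of parameters of the second gates: `D3` = dense set of thresholds with the wanted elements `A3`; `A4` = diameters;
`D5` = dense set of windows with the wanted elements `A5` -/
structure Nd2 (R2 : ℝ) (A3 A4 A5 D3 D5 : Set ℝ) : Prop where
  c4 : A4.Countable
  c3 : D3.Countable
  c5 : D5.Countable
  r4 : ∀ r2 ∈ A4, r2 < 2 * R2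
  s3 : A3 ⊆ D3
  s5 : A5 ⊆ D5
  r3 : ∀ m ∈ D3, R2 / 4 < m
  r5 : ∀ ρ2 ∈ D5, 64 * R2 < ρ2 ∧ ρ2 < 128 * R2
  d3 : ∀ y : ℝ, Dn D3 (R2 / 4) y
  d5 : Dn D5 (64 * R2) (128 * R2)

section netd

variable {R R2 : ℝ} {A1 A2 A3 A4 A5 D2 D3 D5 L : Set ℝ}

lemma nd_cnt (h : Nd1 R A1 A2 D2) (h2 : Nd2 R2 A3 A4 A5 D3 D5) (hL : L.Countable) : (QP L A1 D2 D3 A4 D5).Countable :=
  qp_countable hL h.c1 h.c2 h2.c3 h2.c4 h2.c5

lemma nd_rg (h : Nd1 R A1 A2 D2) (h2 : Nd2 R2 A3 A4 A5 D3 D5) (hL : ∀ l ∈ L, R / 4 < l) {q : Qg} (hq : q ∈ QP L A1 D2 D3 A4 D5) :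
    QRg R R2 q := by
  obtain ⟨k1, k2, k3, k4, k5, k6⟩ := hq
  exact ⟨hL _ k1, h.r1 _ k2, (h.r2 _ k3).1, (h.r2 _ k3).2, h2.r3 _ k4, h2.r4 _ k5, (h2.r5 _ k6).1, (h2.r5 _ k6).2⟩

/-- **28's `Net`**; `K`, `K2` = the losses of the windows -/
theorem nd_net (h : Nd1 R A1 A2 D2) (h2 : Nd2 R2 A3 A4 A5 D3 D5) {w : Qg} {z K K2 lo hi rl rh sl sh : ℝ} (hz : 0 ≤ z) (hK : 0 ≤ K)
    (hK2 : 0 ≤ K2) (hL : ∀ l ∈ L, lo ≤ l ∧ l ≤ hi) (dL : Dn L lo hi) (h1 : w.r ∈ A1) (h1' : rl ∈ A1) (h1'' : rh ∈ A1)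
    (prl : rl + 2 * z < w.r) (prh : w.r + 2 * z < rh) (hρ : w.ρ ∈ A2) (g2 : 64 * R + 6 * K < w.ρ) (hm : w.m ∈ A3) (h4 : w.r2 ∈ A4)
    (h4' : sl ∈ A4) (h4'' : sh ∈ A4) (psl : sl + 2 * z < w.r2) (psh : w.r2 + 2 * z < sh) (h5 : w.ρ2 ∈ A5)
    (g5 : 64 * R2 + 6 * K2 < w.ρ2) : ∃ δ : ℝ, Net (QP L A1 D2 D3 A4 D5) L w z K K2 lo hi δ rl rh sl sh :=
  net_qp hz hK hK2 hL dL prl prh psl psh h1 h1' h1'' (h.s2 hρ) (h2.s3 hm) h4 h4' h4'' (h2.s5 h5)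
    (h.d2.sub le_rfl (h.r2 _ (h.s2 hρ)).2.le) g2 (h2.d3 _) (h2.r3 _ (h2.s3 hm)) (h2.d5.sub le_rfl (h2.r5 _ (h2.s5 h5)).2.le) g5

end netd

/-- **parameters of the gates in countable sets, each off a countable set** (`G j a r ρ` : the marks of the system `j` exist): levels
`L j`, diameters `A1`, windows `A2` -/
def NetG1 {J : Type*} (G : J → ℝ → ℝ → ℝ → Prop) (R : ℝ) : Prop :=
  ∃ E : J → Set ℝ, (∀ j, (E j).Countable) ∧ ∀ L : J → Set ℝ, (∀ j, (L j).Countable) → (∀ j, ∀ l ∈ L j, l ∉ E j ∧ R / 4 < l) →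
    ∃ E1 : Set ℝ, E1.Countable ∧ ∀ A1 : Set ℝ, A1.Countable → (∀ r ∈ A1, r ∉ E1 ∧ r < 2 * R) →
    ∃ E2 : Set ℝ, E2.Countable ∧ ∀ A2 : Set ℝ, A2.Countable → (∀ ρ ∈ A2, ρ ∉ E2 ∧ 64 * R < ρ ∧ ρ < 128 * R) →
    ∃ D2 : Set ℝ, Nd1 R A1 A2 D2 ∧ ∀ j, ∀ l ∈ L j, ∀ r ∈ A1, ∀ ρ ∈ D2, G j l r ρ

/-- **parameters of the second gates in countable sets, each off a countable set** (`G j q` : the marks of the system `j` exist), given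
the parameters of the gates: thresholds `A3`, diameters `A4`, windows `A5` -/
def NetG2 {J : Type*} (G : J → Qg → Prop) (L : J → Set ℝ) (D1 D2 : Set ℝ) (R2 : ℝ) : Prop :=
  ∃ F : Set ℝ, F.Countable ∧ ∀ A3 : Set ℝ, A3.Countable → (∀ m ∈ A3, m ∉ F ∧ R2 / 4 < m) →
    ∃ F1 : Set ℝ, F1.Countable ∧ ∀ A4 : Set ℝ, A4.Countable → (∀ r2 ∈ A4, r2 ∉ F1 ∧ r2 < 2 * R2) →
    ∃ F2 : Set ℝ, F2.Countable ∧ ∀ A5 : Set ℝ, A5.Countable → (∀ ρ2 ∈ A5, ρ2 ∉ F2 ∧ 64 * R2 < ρ2 ∧ ρ2 < 128 * R2) →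
    ∃ D3 D5 : Set ℝ, Nd2 R2 A3 A4 A5 D3 D5 ∧ ∀ j, ∀ q ∈ QP (L j) D1 D2 D3 A4 D5, G j q

/-! ### 2. the marks for countable sets of parameters -/

section sys

variable {J ι Ω X : Type*} [Countable J] [MeasurableSpace Ω] [DiscreteMeasurableSpace Ω] [PseudoMetricSpace X] {U : Ultrafilter ι}
  {P : ι → Measure Ω} [∀ i, IsFiniteMeasure (P i)] {x : ι → Ω → X}

/-- a system with a macroscopic base -/
structure GSys {ι Ω X : Type*} [MeasurableSpace Ω] [PseudoMetricSpace X] (U : Filter ι) (P : ι → Measure Ω) (x : ι → Ω → X)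
    (nn : ι → Ω → ℕ) (wd : ∀ (i : ι) (s : Ω), Fin (nn i s) → Fin 3) (S : ι → ℝ) (R : ℝ) (p z : ι → Ω → ℝ) : Prop where
  mb : Mb U P
  ws : WSys U P nn wd S
  tS : Tendsto S U atTop
  hz : ∀ i s, z i s = 0 ∨ z i s = 1
  zl : L1A U P x z
  gr : GrdA U P x nn wd S R z
  hp : L1A U P x p
  p0 : ∀ i s, 0 ≤ p i s

variable {nn : J → ι → Ω → ℕ} {wd : ∀ (j : J) (i : ι) (s : Ω), Fin (nn j i s) → Fin 3} {S : J → ι → ℝ} {R R2 : ℝ}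
  {p z : J → ι → Ω → ℝ}

/-- **the gates**, countably many systems -/
theorem gt1_net (hR : 0 < R) (h : ∀ j, GSys (U : Filter ι) P x (nn j) (wd j) (S j) R (p j) (z j)) :
    NetG1 (fun j a r ρ => Gt1 (U : Filter ι) P x (nn j) (wd j) (S j) R a r ρ (p j) (z j)) R := by
  have h1 := fun j => gt1_prod (U := U) (P := P) (x := x) hR (h j).mb (h j).ws (h j).tS (h j).hz (h j).zl (h j).gr (h j).hp (h j).p0
  choose E hE h1 using h1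
  choose! e1 he1 h2 using h1
  choose! e2 he2 h3 using h2
  refine ⟨E, hE, fun L hL hL' => ⟨⋃ j, ⋃ l ∈ L j, e1 j l, countable_iUnion fun j => (hL j).biUnion fun l hl =>
    he1 j l (hL' j l hl).1 (hL' j l hl).2, fun D1 hD1 hD1' => ⟨⋃ j, ⋃ l ∈ L j, ⋃ r ∈ D1, e2 j l r, ?_, fun A2 hA2 hA2' => ?_⟩⟩⟩
  · refine countable_iUnion fun j => (hL j).biUnion fun l hl => hD1.biUnion fun r hr => ?_
    refine he2 j l (hL' j l hl).1 (hL' j l hl).2 r (fun hc => (hD1' r hr).1 ?_) (hD1' r hr).2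
    exact mem_iUnion.2 ⟨j, mem_iUnion₂.2 ⟨l, hl, hc⟩⟩
  · have hE2 : (⋃ j, ⋃ l ∈ L j, ⋃ r ∈ D1, e2 j l r).Countable := by
      refine countable_iUnion fun j => (hL j).biUnion fun l hl => hD1.biUnion fun r hr => ?_
      refine he2 j l (hL' j l hl).1 (hL' j l hl).2 r (fun hc => (hD1' r hr).1 ?_) (hD1' r hr).2
      exact mem_iUnion.2 ⟨j, mem_iUnion₂.2 ⟨l, hl, hc⟩⟩
    obtain ⟨D2, u1, u2, u3, u4⟩ := dn_add hE2 hA2 hA2'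
    refine ⟨D2, ⟨hD1, u1, fun r hr => (hD1' r hr).2, u2, fun ρ hρ => (u3 ρ hρ).2, u4⟩, fun j l hl r hr ρ hρ => ?_⟩
    refine h3 j l (hL' j l hl).1 (hL' j l hl).2 r (fun hc => (hD1' r hr).1 ?_) (hD1' r hr).2 ρ (fun hc => (u3 ρ hρ).1 ?_)
      (u3 ρ hρ).2.1 (u3 ρ hρ).2.2
    · exact mem_iUnion.2 ⟨j, mem_iUnion₂.2 ⟨l, hl, hc⟩⟩
    · exact mem_iUnion.2 ⟨j, mem_iUnion₂.2 ⟨l, hl, mem_iUnion₂.2 ⟨r, hr, hc⟩⟩⟩

/-- **the second gates**, countably many systems; `R2` may be another one for other sets of thresholds -/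
theorem gt2_net (hR : 0 < R) (hR2 : 0 < R2) (h : ∀ j, GSys (U : Filter ι) P x (nn j) (wd j) (S j) R (p j) (z j))
    (h' : ∀ j, GrdA (U : Filter ι) P x (nn j) (wd j) (S j) R2 (z j)) {L : J → Set ℝ} {D1 D2 : Set ℝ} (hL : ∀ j, (L j).Countable)
    (hD1 : D1.Countable) (hD2 : D2.Countable) (hD1' : ∀ r ∈ D1, r < 2 * R) (hD2' : ∀ ρ ∈ D2, 64 * R < ρ ∧ ρ < 128 * R)
    (g1 : ∀ j, ∀ l ∈ L j, ∀ r ∈ D1, ∀ ρ ∈ D2, Gt1 (U : Filter ι) P x (nn j) (wd j) (S j) R l r ρ (p j) (z j)) :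
    NetG2 (fun j q => Gt2 (U : Filter ι) P x (nn j) (wd j) (S j) R R2 q.a q.r q.ρ q.m q.r2 q.ρ2 (p j) (z j)) L D1 D2 R2 := by
  have k1 : ∀ j, ∀ l ∈ L j, ∀ r ∈ D1, ∀ ρ ∈ D2, ∃ F : Set ℝ, F.Countable ∧ ∀ m : ℝ, m ∉ F → R2 / 4 < m →
      ∃ F1 : Set ℝ, F1.Countable ∧ ∀ r2 : ℝ, r2 ∉ F1 → r2 < 2 * R2 → ∃ F2 : Set ℝ, F2.Countable ∧ ∀ ρ2 : ℝ, ρ2 ∉ F2 →
        64 * R2 < ρ2 → ρ2 < 128 * R2 → Gt2 (U : Filter ι) P x (nn j) (wd j) (S j) R R2 l r ρ m r2 ρ2 (p j) (z j) := by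
    intro j l hl r hr ρ hρ
    refine gt2_prod (x := x) hR hR2 (h j).mb (h j).ws (h j).tS (h j).hz (h j).zl (h' j) (hD1' r hr).le ?_ (g1 j l hl r hr ρ hρ)
    linarith [hD1' r hr, (hD2' ρ hρ).1]
  choose! f hf k2 using k1
  choose! f1 hf1 k3 using k2
  choose! f2 hf2 k4 using k3
  refine ⟨⋃ j, ⋃ l ∈ L j, ⋃ r ∈ D1, ⋃ ρ ∈ D2, f j l r ρ, countable_iUnion fun j => (hL j).biUnion fun l hl =>
    hD1.biUnion fun r hr => hD2.biUnion fun ρ hρ => hf j l hl r hr ρ hρ, fun A3 hA3 hA3' => ?_⟩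
  obtain ⟨D3, v1, v2, v3, v4⟩ := dn_addi (countable_iUnion fun j => (hL j).biUnion fun l hl =>
    hD1.biUnion fun r hr => hD2.biUnion fun ρ hρ => hf j l hl r hr ρ hρ) hA3 hA3'
  have c3 : ∀ j, ∀ l ∈ L j, ∀ r ∈ D1, ∀ ρ ∈ D2, ∀ m ∈ D3, m ∉ f j l r ρ := fun j l hl r hr ρ hρ m hm hc =>
    (v3 m hm).1 (mem_iUnion.2 ⟨j, mem_iUnion₂.2 ⟨l, hl, mem_iUnion₂.2 ⟨r, hr, mem_iUnion₂.2 ⟨ρ, hρ, hc⟩⟩⟩⟩)
  refine ⟨⋃ j, ⋃ l ∈ L j, ⋃ r ∈ D1, ⋃ ρ ∈ D2, ⋃ m ∈ D3, f1 j l r ρ m, countable_iUnion fun j => (hL j).biUnion fun l hl =>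
    hD1.biUnion fun r hr => hD2.biUnion fun ρ hρ => v1.biUnion fun m hm =>
      hf1 j l hl r hr ρ hρ m (c3 j l hl r hr ρ hρ m hm) (v3 m hm).2, fun D4 hD4 hD4' => ?_⟩
  have c4 : ∀ j, ∀ l ∈ L j, ∀ r ∈ D1, ∀ ρ ∈ D2, ∀ m ∈ D3, ∀ r2 ∈ D4, r2 ∉ f1 j l r ρ m := fun j l hl r hr ρ hρ m hm r2 hr2 hc =>
    (hD4' r2 hr2).1 (mem_iUnion.2 ⟨j, mem_iUnion₂.2 ⟨l, hl, mem_iUnion₂.2 ⟨r, hr, mem_iUnion₂.2 ⟨ρ, hρ,
      mem_iUnion₂.2 ⟨m, hm, hc⟩⟩⟩⟩⟩)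
  have hF2 : (⋃ j, ⋃ l ∈ L j, ⋃ r ∈ D1, ⋃ ρ ∈ D2, ⋃ m ∈ D3, ⋃ r2 ∈ D4, f2 j l r ρ m r2).Countable := countable_iUnion fun j =>
    (hL j).biUnion fun l hl => hD1.biUnion fun r hr => hD2.biUnion fun ρ hρ => v1.biUnion fun m hm => hD4.biUnion fun r2 hr2 =>
      hf2 j l hl r hr ρ hρ m (c3 j l hl r hr ρ hρ m hm) (v3 m hm).2 r2 (c4 j l hl r hr ρ hρ m hm r2 hr2) (hD4' r2 hr2).2
  refine ⟨_, hF2, fun A5 hA5 hA5' => ?_⟩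
  obtain ⟨D5, w1, w2, w3, w4⟩ := dn_add hF2 hA5 hA5'
  refine ⟨D3, D5, ⟨hD4, v1, w1, fun r hr => (hD4' r hr).2, v2, w2, fun m hm => (v3 m hm).2, fun ρ hρ => (w3 ρ hρ).2, v4, w4⟩,
    fun j q hq => ?_⟩
  obtain ⟨hl, hr, hρ, hm, hr2, hρ2⟩ := hq
  refine k4 j _ hl _ hr _ hρ _ (c3 j _ hl _ hr _ hρ _ hm) (v3 _ hm).2 _ (c4 j _ hl _ hr _ hρ _ hm _ hr2) (hD4' _ hr2).2 _
    (fun hc => (w3 _ hρ2).1 ?_) (w3 _ hρ2).2.1 (w3 _ hρ2).2.2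
  exact mem_iUnion.2 ⟨j, mem_iUnion₂.2 ⟨_, hl, mem_iUnion₂.2 ⟨_, hr, mem_iUnion₂.2 ⟨_, hρ, mem_iUnion₂.2 ⟨_, hm,
    mem_iUnion₂.2 ⟨_, hr2, hc⟩⟩⟩⟩⟩⟩

end sys

/-! ### 3. the strands -/

/-- the strands of the closed words with two roots -/
lemma arcS_gsys {U : Ultrafilter ℕ} {b : ℝ} {k : Arm} {T : LSym} {S : ℕ → ℝ} {R c : ℝ} (h : ArcS U b k T S R c)
    {p : ℕ → W3 × ℕ → ℝ} (hp : L1A (U : Filter ℕ) (fun N => mwE N b) cN p) (p0 : ∀ i s, 0 ≤ p i s) :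
    GSys (U : Filter ℕ) (fun N => mwE N b) cN (fun _ x => (aW k T x).length) (fun _ x => (aW k T x).get) S R p (zN c) := by
  have hz : ∀ (N : ℕ) (x : W3 × ℕ), zN c N x = 0 ∨ zN c N x = 1 := by
    intro N x
    unfold zN
    split_ifs
    · exact Or.inr rfl
    · exact Or.inl rfl
  exact ⟨h.mb, h.ws, h.tS, hz, h.zl, h.gr, hp, p0⟩

section arc

variable {J : Type*} [Countable J] {U : Ultrafilter ℕ} {b : ℝ} {k : J → Arm} {T : J → LSym} {S : J → ℕ → ℝ} {R R2 c : ℝ}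
  {p : J → ℕ → W3 × ℕ → ℝ}

/-- **the gates of the strands of the closed words with two roots**, countably many arms, turns, macroscopic bases -/
theorem arc_net1 (hR : 0 < R) (h : ∀ j, ArcS U b (k j) (T j) (S j) R c)
    (hp : ∀ j, L1A (U : Filter ℕ) (fun N => mwE N b) cN (p j)) (p0 : ∀ j i s, 0 ≤ p j i s) :
    NetG1 (fun j a r ρ => Gt1 (U : Filter ℕ) (fun N => mwE N b) cN (fun _ x => (aW (k j) (T j) x).length)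
      (fun _ x => (aW (k j) (T j) x).get) (S j) R a r ρ (p j) (zN c)) R :=
  gt1_net hR fun j => arcS_gsys (h j) (hp j) (p0 j)

/-- **the second gates** -/
theorem arc_net2 (hR : 0 < R) (hR2 : 0 < R2) (h : ∀ j, ArcS U b (k j) (T j) (S j) R c) (h' : ∀ j, ArcS U b (k j) (T j) (S j) R2 c)
    (hp : ∀ j, L1A (U : Filter ℕ) (fun N => mwE N b) cN (p j)) (p0 : ∀ j i s, 0 ≤ p j i s) {L : J → Set ℝ} {A1 A2 D2 : Set ℝ}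
    (hL : ∀ j, (L j).Countable) (hD : Nd1 R A1 A2 D2)
    (g1 : ∀ j, ∀ l ∈ L j, ∀ r ∈ A1, ∀ ρ ∈ D2, Gt1 (U : Filter ℕ) (fun N => mwE N b) cN (fun _ x => (aW (k j) (T j) x).length)
      (fun _ x => (aW (k j) (T j) x).get) (S j) R l r ρ (p j) (zN c)) :
    NetG2 (fun j q => Gt2 (U : Filter ℕ) (fun N => mwE N b) cN (fun _ x => (aW (k j) (T j) x).length)
      (fun _ x => (aW (k j) (T j) x).get) (S j) R R2 q.a q.r q.ρ q.m q.r2 q.ρ2 (p j) (zN c)) L A1 D2 R2 :=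
  gt2_net hR hR2 (fun j => arcS_gsys (h j) (hp j) (p0 j)) (fun j => (h' j).gr) hL hD.c1 hD.c2 hD.r1 hD.r2 g1

end arc

/-! ### 4. one class, given ranges -/

lemma ex_off {E : Set ℝ} (hE : E.Countable) {x y : ℝ} (h : x < y) : ∃ t : ℝ, t ∉ E ∧ x < t ∧ t < y := by
  obtain ⟨t, ht, h1⟩ := (hE.dense_compl ℝ).exists_between h
  exact ⟨t, ht, h1.1, h1.2⟩

lemma cnt3 (u v w : ℝ) : ({u, v, w} : Set ℝ).Countable := ((countable_singleton w).insert v).insert u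

/-- levels: a countable dense set off a countable set -/
lemma lev_ex {E : Set ℝ} (hE : E.Countable) (lo hi : ℝ) : ∃ L : Set ℝ, L.Countable ∧ (∀ l ∈ L, l ∉ E ∧ lo ≤ l ∧ l ≤ hi) ∧
    Dn L lo hi := by
  obtain ⟨L, h1, -, h3, h4⟩ := dn_add hE (A := ∅) countable_empty (x := lo) (y := hi) (fun a ha => absurd ha (notMem_empty a))
  exact ⟨L, h1, fun l hl => ⟨(h3 l hl).1, (h3 l hl).2.1.le, (h3 l hl).2.2.le⟩, h4⟩

/-- **one class**: auxiliary radii in given ranges; the threshold `m` and the window `ρ2` off countable sets; `K`, `K2` = the losses of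
the windows in `Net` -/
theorem net_ex {J : Type*} [Countable J] {G1 : J → ℝ → ℝ → ℝ → Prop} {G2 : J → Qg → Prop} {R R2 : ℝ} (h : NetG1 G1 R)
    (h2 : ∀ (L : J → Set ℝ) (A1 A2 D2 : Set ℝ), (∀ j, (L j).Countable) → Nd1 R A1 A2 D2 →
      (∀ j, ∀ l ∈ L j, ∀ r ∈ A1, ∀ ρ ∈ D2, G1 j l r ρ) → NetG2 G2 L A1 D2 R2) {z K K2 : ℝ} (hz : 0 ≤ z) (hK : 0 ≤ K) (hK2 : 0 ≤ K2) :
    ∃ E : Set ℝ, E.Countable ∧ ∀ (L : Set ℝ) (lo hi : ℝ), L.Countable → R / 4 < lo → (∀ l ∈ L, l ∉ E ∧ lo ≤ l ∧ l ≤ hi) → Dn L lo hi →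
      ∀ α α' β β' γ γ' σ σ' : ℝ, α < α' → α' + 2 * z ≤ β → β < β' → β' + 2 * z ≤ γ → γ < γ' → γ' ≤ 2 * R →
        64 * R + 6 * K ≤ σ → σ < σ' → σ' ≤ 128 * R → ∃ rl r rh ρ : ℝ, (α < rl ∧ rl < α') ∧ (β < r ∧ r < β') ∧ (γ < rh ∧ rh < γ') ∧
        (σ < ρ ∧ ρ < σ') ∧ ∃ F : Set ℝ, F.Countable ∧ ∀ m : ℝ, m ∉ F → R2 / 4 < m → ∀ κ κ' ν ν' η η' : ℝ, κ < κ' → κ' + 2 * z ≤ ν →
        ν < ν' → ν' + 2 * z ≤ η → η < η' → η' ≤ 2 * R2 → ∃ sl r2 sh : ℝ, (κ < sl ∧ sl < κ') ∧ (ν < r2 ∧ r2 < ν') ∧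
        (η < sh ∧ sh < η') ∧ ∃ F2 : Set ℝ, F2.Countable ∧ ∀ ρ2 : ℝ, ρ2 ∉ F2 → 64 * R2 + 6 * K2 < ρ2 → ρ2 < 128 * R2 →
          ∃ (Q : Set Qg) (δ : ℝ), Q.Countable ∧ (∀ a : ℝ, Net Q L ⟨a, r, ρ, m, r2, ρ2⟩ z K K2 lo hi δ rl rh sl sh) ∧
            ∀ q ∈ Q, QRg R R2 q ∧ (q.a ∈ L) ∧ (q.r = rl ∨ q.r = r ∨ q.r = rh) ∧ (q.r2 = sl ∨ q.r2 = r2 ∨ q.r2 = sh) ∧
              ∀ j, G1 j q.a q.r q.ρ ∧ G2 j q := by
  obtain ⟨E, hE, h⟩ := h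
  refine ⟨⋃ j, E j, countable_iUnion hE, fun L lo hi m1 hlo m2 m3 α α' β β' γ γ' σ σ' a1 a2 a3 a4 a5 a6 a7 a8 a9 => ?_⟩
  obtain ⟨E1, hE1, h⟩ := h (fun _ => L) (fun _ => m1) fun j l hl =>
    ⟨fun hc => (m2 l hl).1 (mem_iUnion.2 ⟨j, hc⟩), by linarith [(m2 l hl).2.1]⟩
  obtain ⟨rl, b1, b2, b3⟩ := ex_off hE1 a1
  obtain ⟨r, b4, b5, b6⟩ := ex_off hE1 a3
  obtain ⟨rh, b7, b8, b9⟩ := ex_off hE1 a5
  obtain ⟨E2, hE2, h⟩ := h {rl, r, rh} (cnt3 _ _ _) (by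
    rintro t (rfl | rfl | rfl)
    · exact ⟨b1, by linarith⟩
    · exact ⟨b4, by linarith⟩
    · exact ⟨b7, by linarith⟩)
  obtain ⟨ρ, b10, b11, b12⟩ := ex_off hE2 a8
  obtain ⟨D2, hD, g1⟩ := h {ρ} (countable_singleton ρ) (by
    rintro t rfl
    exact ⟨b10, by linarith, by linarith⟩)
  obtain ⟨F, hF, h⟩ := h2 (fun _ => L) _ _ D2 (fun _ => m1) hD g1
  refine ⟨rl, r, rh, ρ, ⟨b2, b3⟩, ⟨b5, b6⟩, ⟨b8, b9⟩, ⟨b11, b12⟩, F, hF, fun m hm hm' κ κ' ν ν' η η' c1 c2 c4 c5 c6 c7 => ?_⟩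
  obtain ⟨F1, hF1, h⟩ := h {m} (countable_singleton m) (by
    rintro t rfl
    exact ⟨hm, hm'⟩)
  obtain ⟨sl, d1, d2, d3⟩ := ex_off hF1 c1
  obtain ⟨r2, d4, d5, d6⟩ := ex_off hF1 c4
  obtain ⟨sh, d7, d8, d9⟩ := ex_off hF1 c6
  obtain ⟨F2, hF2, h⟩ := h {sl, r2, sh} (cnt3 _ _ _) (by
    rintro t (rfl | rfl | rfl)
    · exact ⟨d1, by linarith⟩
    · exact ⟨d4, by linarith⟩
    · exact ⟨d7, by linarith⟩)
  refine ⟨sl, r2, sh, ⟨d2, d3⟩, ⟨d5, d6⟩, ⟨d8, d9⟩, F2, hF2, fun ρ2 hρ2 e1 e2 => ?_⟩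
  obtain ⟨D3, D5, hD', hG⟩ := h {ρ2} (countable_singleton ρ2) (by
    rintro t rfl
    exact ⟨hρ2, by linarith, e2⟩)
  obtain ⟨δ, hδ⟩ := nd_net (L := L) (w := ⟨0, r, ρ, m, r2, ρ2⟩) (z := z) (K := K) (K2 := K2) (lo := lo) (hi := hi) (rl := rl)
    (rh := rh) (sl := sl) (sh := sh) hD hD' hz hK hK2 (fun l hl => (m2 l hl).2) m3 (Or.inr (Or.inl rfl)) (Or.inl rfl)
    (Or.inr (Or.inr rfl)) (by show rl + 2 * z < r; linarith) (by show r + 2 * z < rh; linarith) rfl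
    (by show 64 * R + 6 * K < ρ; linarith) rfl (Or.inr (Or.inl rfl)) (Or.inl rfl) (Or.inr (Or.inr rfl))
    (by show sl + 2 * z < r2; linarith) (by show r2 + 2 * z < sh; linarith) rfl e1
  exact ⟨QP L {rl, r, rh} D2 D3 {sl, r2, sh} D5, δ, nd_cnt hD hD' m1, fun a => ⟨hδ.pδ, hδ.pz, hδ.pR, hδ.pR2, hδ.Ll, hδ.dL, hδ.prl,
    hδ.prh, hδ.psl, hδ.psh, hδ.D⟩, fun q hq => ⟨nd_rg hD hD' (fun l hl => by linarith [(m2 l hl).2.1]) hq, hq.1, hq.2.1,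
    hq.2.2.2.2.1, fun j => ⟨g1 j _ hq.1 _ hq.2.1 _ hq.2.2.1, hG j q hq⟩⟩⟩

/-! ### 5. universal sets of parameters: no parameter of a class -/

/-- **universal sets of parameters**: levels, diameters, windows; thresholds, diameters, windows, dense in the admissible ranges -/
structure Ud (R R2 : ℝ) (L D1 D2 D3 D4 D5 : Set ℝ) : Prop where
  c0 : L.Countable
  c1 : D1.Countable
  c2 : D2.Countable
  c3 : D3.Countable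
  c4 : D4.Countable
  c5 : D5.Countable
  b0 : ∀ l ∈ L, R / 4 < l
  b1 : ∀ r ∈ D1, 0 < r ∧ r < 2 * R
  b2 : ∀ ρ ∈ D2, 64 * R < ρ ∧ ρ < 128 * R
  b3 : ∀ m ∈ D3, R2 / 4 < m
  b4 : ∀ r ∈ D4, 0 < r ∧ r < 2 * R2
  b5 : ∀ ρ ∈ D5, 64 * R2 < ρ ∧ ρ < 128 * R2
  d0 : ∀ y : ℝ, Dn L (R / 4) y
  d1 : Dn D1 0 (2 * R)
  d2 : Dn D2 (64 * R) (128 * R)
  d3 : ∀ y : ℝ, Dn D3 (R2 / 4) y
  d4 : Dn D4 0 (2 * R2)
  d5 : Dn D5 (64 * R2) (128 * R2)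

lemma Dn.inter {D : Set ℝ} {x y u v : ℝ} (h : Dn D x y) (hu : x ≤ u) (hv : v ≤ y) : Dn (D ∩ Ioo u v) u v := by
  intro a b ha hab hb
  obtain ⟨d, hd, h1, h2⟩ := h a b (hu.trans ha) hab (hb.trans hv)
  exact ⟨d, ⟨hd, ha.trans_lt h1, h2.trans_le hb⟩, h1, h2⟩

lemma qp_mono {L D1 D2 D3 D4 D5 L' D1' D2' D3' D4' D5' : Set ℝ} (h0 : L ⊆ L') (h1 : D1 ⊆ D1') (h2 : D2 ⊆ D2') (h3 : D3 ⊆ D3')
    (h4 : D4 ⊆ D4') (h5 : D5 ⊆ D5') : QP L D1 D2 D3 D4 D5 ⊆ QP L' D1' D2' D3' D4' D5' := fun _ hq =>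
  ⟨h0 hq.1, h1 hq.2.1, h2 hq.2.2.1, h3 hq.2.2.2.1, h4 hq.2.2.2.2.1, h5 hq.2.2.2.2.2⟩

lemma Ud.cnt {R R2 : ℝ} {L D1 D2 D3 D4 D5 : Set ℝ} (h : Ud R R2 L D1 D2 D3 D4 D5) : (QP L D1 D2 D3 D4 D5).Countable :=
  qp_countable h.c0 h.c1 h.c2 h.c3 h.c4 h.c5

lemma Ud.rg {R R2 : ℝ} {L D1 D2 D3 D4 D5 : Set ℝ} (h : Ud R R2 L D1 D2 D3 D4 D5) {q : Qg} (hq : q ∈ QP L D1 D2 D3 D4 D5) :
    QRg R R2 q :=
  ⟨h.b0 _ hq.1, (h.b1 _ hq.2.1).2, (h.b2 _ hq.2.2.1).1, (h.b2 _ hq.2.2.1).2, h.b3 _ hq.2.2.2.1, (h.b4 _ hq.2.2.2.2.1).2,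
    (h.b5 _ hq.2.2.2.2.2).1, (h.b5 _ hq.2.2.2.2.2).2⟩

/-- **universal sets of parameters exist**: the same levels, diameters, windows of the gates for all scales `R2 κ` of the second
gates -/
theorem ud_ex {J K : Type*} [Countable J] {G1 : J → ℝ → ℝ → ℝ → Prop} {G2 : K → J → Qg → Prop} {R : ℝ} {R2 : K → ℝ}
    (h : NetG1 G1 R) (h2 : ∀ (κ : K) (L : J → Set ℝ) (A1 A2 D2 : Set ℝ), (∀ j, (L j).Countable) → Nd1 R A1 A2 D2 →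
      (∀ j, ∀ l ∈ L j, ∀ r ∈ A1, ∀ ρ ∈ D2, G1 j l r ρ) → NetG2 (G2 κ) L A1 D2 (R2 κ)) :
    ∃ (L D1 D2 : Set ℝ) (D3 D4 D5 : K → Set ℝ), ∀ κ, Ud R (R2 κ) L D1 D2 (D3 κ) (D4 κ) (D5 κ) ∧
      ∀ j, ∀ q ∈ QP L D1 D2 (D3 κ) (D4 κ) (D5 κ), G1 j q.a q.r q.ρ ∧ G2 κ j q := by
  obtain ⟨E, hE, h⟩ := h
  have em : ∀ {p : ℝ → Prop}, ∀ a ∈ (∅ : Set ℝ), p a := fun a ha => absurd ha (notMem_empty a)
  obtain ⟨L, m1, -, m2, m3⟩ := dn_addi (countable_iUnion hE) (A := ∅) countable_empty (x := R / 4) em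
  obtain ⟨E1, hE1, h⟩ := h (fun _ => L) (fun _ => m1) fun j l hl => ⟨fun hc => (m2 l hl).1 (mem_iUnion.2 ⟨j, hc⟩), (m2 l hl).2⟩
  obtain ⟨D1, n1, -, n2, n3⟩ := dn_add hE1 (A := ∅) countable_empty (x := 0) (y := 2 * R) em
  obtain ⟨E2, hE2, h⟩ := h D1 n1 fun r hr => ⟨(n2 r hr).1, (n2 r hr).2.2⟩
  obtain ⟨D2, hD, g1⟩ := h ∅ countable_empty em
  have key : ∀ κ, ∃ D3 D4 D5 : Set ℝ, Ud R (R2 κ) L D1 D2 D3 D4 D5 ∧ ∀ j, ∀ q ∈ QP L D1 D2 D3 D4 D5, G1 j q.a q.r q.ρ ∧ G2 κ j q := by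
    intro κ
    obtain ⟨F, hF, h3⟩ := h2 κ (fun _ => L) D1 ∅ D2 (fun _ => m1) hD g1
    obtain ⟨F1, hF1, h3⟩ := h3 ∅ countable_empty em
    obtain ⟨D4, k1, -, k2, k3⟩ := dn_add hF1 (A := ∅) countable_empty (x := 0) (y := 2 * R2 κ) em
    obtain ⟨F2, hF2, h3⟩ := h3 D4 k1 fun r hr => ⟨(k2 r hr).1, (k2 r hr).2.2⟩
    obtain ⟨D3, D5, hD', hG⟩ := h3 ∅ countable_empty em
    exact ⟨D3, D4, D5, ⟨m1, n1, hD.c2, hD'.c3, k1, hD'.c5, fun l hl => (m2 l hl).2, fun r hr => (n2 r hr).2, hD.r2, hD'.r3,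
      fun r hr => (k2 r hr).2, hD'.r5, m3, n3, hD.d2, hD'.d3, k3, hD'.d5⟩, fun j q hq => ⟨g1 j _ hq.1 _ hq.2.1 _ hq.2.2.1, hG j q hq⟩⟩
  choose D3 D4 D5 h4 using key
  exact ⟨L, D1, D2, D3, D4, D5, h4⟩

/-- **`net_univ`**: universal parameters for the strands of the closed words with two roots -/
theorem net_univ {J K : Type*} [Countable J] {U : Ultrafilter ℕ} {b : ℝ} {k : J → Arm} {T : J → LSym} {S : J → ℕ → ℝ} {R c : ℝ}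
    {R2 : K → ℝ} {p : J → ℕ → W3 × ℕ → ℝ} (hR : 0 < R) (hR2 : ∀ κ, 0 < R2 κ) (h : ∀ j, ArcS U b (k j) (T j) (S j) R c)
    (h' : ∀ κ j, ArcS U b (k j) (T j) (S j) (R2 κ) c) (hp : ∀ j, L1A (U : Filter ℕ) (fun N => mwE N b) cN (p j))
    (p0 : ∀ j i s, 0 ≤ p j i s) :
    ∃ (L D1 D2 : Set ℝ) (D3 D4 D5 : K → Set ℝ), ∀ κ, Ud R (R2 κ) L D1 D2 (D3 κ) (D4 κ) (D5 κ) ∧
      ∀ j, ∀ q ∈ QP L D1 D2 (D3 κ) (D4 κ) (D5 κ),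
        Gt1 (U : Filter ℕ) (fun N => mwE N b) cN (fun _ x => (aW (k j) (T j) x).length) (fun _ x => (aW (k j) (T j) x).get) (S j) R
          q.a q.r q.ρ (p j) (zN c) ∧
        Gt2 (U : Filter ℕ) (fun N => mwE N b) cN (fun _ x => (aW (k j) (T j) x).length) (fun _ x => (aW (k j) (T j) x).get) (S j) R
          (R2 κ) q.a q.r q.ρ q.m q.r2 q.ρ2 (p j) (zN c) :=
  ud_ex (G2 := fun κ j q => Gt2 (U : Filter ℕ) (fun N => mwE N b) cN (fun _ x => (aW (k j) (T j) x).length)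
    (fun _ x => (aW (k j) (T j) x).get) (S j) R (R2 κ) q.a q.r q.ρ q.m q.r2 q.ρ2 (p j) (zN c)) (arc_net1 hR h hp p0)
    fun κ _ _ _ _ hL hD g1 => arc_net2 hR (hR2 κ) h (h' κ) hp p0 hL hD g1

end Pool.Agent.ROT.F3.LR
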