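import Pool.Agent.ROT.F3K7R
import Pool.Agent.ROT.F3LrC
import Pool.Agent.ROT.F3LrK

/-!
# ROT, F3, row D39 (helper28): gates over functional bases are local

* `LSt` : good strands of closed curves with two roots; **`lst_ae`** : almost every curve is good;
* **`loc_strand`** : two good strands with equal pieces have the same gates over the level of the beginning of the piece;
* **`locS_of`** : the predicate `LocS` of F3LrK (helper37).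
-/

set_option autoImplicit false
set_option linter.unusedSectionVars false

open MeasureTheory Filter Topology Set unitInterval

open scoped ENNReal NNReal BoundedContinuousFunction

namespace Pool.Agent.ROT.F3.LR

open Pool.Agent.NTS.Res (step pos saw fug size curve)
open Pool.Agent.CRT (CI)
open Pool.Agent.SCF.Z Pool.Agent.SCF.M
open Pool.Agent.ROT.F3 Pool.Agent.ROT.F3.LF
open Pool.Agent.ROT.F3.K7 (pa pk lsd sdw ctp tcL GdSeq PcL LocG Ran')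

lemma tcL_ab (p : ℝ × CI) (φ : ℝ) : tcL p φ = ab p.1 φ := by
  unfold tcL ab
  by_cases h : 0 ≤ φ
  · rw [if_pos h, if_neg (not_lt.2 h)]
  · rw [if_neg h, if_pos (not_le.1 h)]

/-- **good strands**: `w` = the parameters of the gates, `w.a` = the level over the base `beta`; `Xc`, `Xx` = the marks of the gates over
the base (relative times of the strand, `-1` = none); `zf`, `Z` = the factor of the marks and its limit -/
structure LSt (U : Ultrafilter ℕ) (Gj : ℕ → ℕ → W3 × ℕ → Prop) (Q : Set Qg) (T : LSym) (k : Arm) (zf : ℕ → W3 × ℕ → ℝ)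
    (Z : CC.Gm → ℝ) (w : Qg) (beta Xc Xx : CC.Gm → ℝ) (g : CC.Gm) : Prop where
  b0 : 0 < g.2.1
  b1 : g.2.1 < g.1
  mrk : ∃ Φc Φx : Qg → CC.Gm → ℝ, (∀ q ∈ Q, ∀ q2 ∈ Q, g ∈ LocG U Gj T k zf Z Φc Φx q q2) ∧
    Sg Q (pa (lsd T k g)) (fun q => ab (lsd T k g).1 (Φc q g)) (fun q => ab (lsd T k g).1 (Φx q g)) ∧
    Cfm Q (fun q => ab (lsd T k g).1 (Φc q g)) (w.at (beta g + w.a)) (ab (lsd T k g).1 (Xc g)) ∧
    Cfm Q (fun q => ab (lsd T k g).1 (Φx q g)) (w.at (beta g + w.a)) (ab (lsd T k g).1 (Xx g))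

lemma LSt.len {U : Ultrafilter ℕ} {Gj : ℕ → ℕ → W3 × ℕ → Prop} {Q : Set Qg} {T : LSym} {k : Arm} {zf : ℕ → W3 × ℕ → ℝ}
    {Z : CC.Gm → ℝ} {w : Qg} {beta Xc Xx : CC.Gm → ℝ} {g : CC.Gm} (h : LSt U Gj Q T k zf Z w beta Xc Xx g) :
    0 < (lsd T k g).1 := by
  show 0 < k.lf g.1 g.2.1
  cases k
  · exact h.b0
  · exact h.b0
  · exact sub_pos.2 h.b1
  · exact sub_pos.2 h.b1

/-- **two good strands with equal pieces have the same gates over the level of the beginning of the piece** -/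
theorem loc_strand {b R R2 z lo hi δ rl sl : ℝ} {Gj : ℕ → ℕ → W3 × ℕ → Prop} (hG : GdSeq b R R2 Gj) {U : Ultrafilter ℕ}
    (hU : (U : Filter ℕ) ≤ atTop) (hR : 0 < R) (hR2 : 0 < R2) {Q : Set Qg} {L : Set ℝ} {w : Qg}
    (hN : Net0 Q L w lo hi δ rl sl) (hQ : ∀ q ∈ Q, Ran' R R2 q) (hQa : ∀ q ∈ Q, lo ≤ q.a) (hzl : z + R / 8 < lo)
    {T T' : LSym} {k k' : Arm} {zf zf' : ℕ → W3 × ℕ → ℝ} {Z Z' : CC.Gm → ℝ} (hzf : ∀ N x, zf N x = 0 ∨ zf N x = 1)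
    (hzf' : ∀ N x, zf' N x = 0 ∨ zf' N x = 1) {beta Xc Xx beta' Xc' Xx' : CC.Gm → ℝ} {g g' : CC.Gm}
    (hg : LSt U Gj Q T k zf Z w beta Xc Xx g) (hg' : LSt U Gj Q T' k' zf' Z' w beta' Xc' Xx' g') (hZ : 0 < Z g) (hZ' : 0 < Z' g')
    {t e t' e' : ℝ} (hP : PcL R (lsd T k g) t e) (hP2 : PcL R2 (lsd T k g) t e) (hP' : PcL R (lsd T' k' g') t' e')
    (hP2' : PcL R2 (lsd T' k' g') t' e') (hz : ∀ u ∈ Icc 0 t, ‖pa (lsd T k g) u‖ ≤ z)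
    (hz' : ∀ u ∈ Icc 0 t', ‖pa (lsd T' k' g') u‖ ≤ z) (heq : ctp (lsd T k g) t e = ctp (lsd T' k' g') t' e')
    (hb : beta g = (pa (lsd T k g) t).re) (hb' : beta' g' = (pa (lsd T' k' g') t').re)
    (hlo : lo < beta g + w.a) (hhi : beta g + w.a < hi) (hlo' : lo < beta' g' + w.a) (hhi' : beta' g' + w.a < hi)
    (hX : 0 ≤ Xx g) (hdu : DmP (pa (lsd T k g)) (tcL (lsd T k g) (Xc g)) rl)
    (hdv : DmP (pa (lsd T k g)) (tcL (lsd T k g) (Xx g)) sl) (hru : RdP (pa (lsd T k g)) t (tcL (lsd T k g) (Xc g)) z rl)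
    (hrv : RdP (pa (lsd T k g)) t (tcL (lsd T k g) (Xx g)) z sl) :
    0 ≤ Xx' g' ∧ tcL (lsd T' k' g') (Xc' g') - t' = tcL (lsd T k g) (Xc g) - t ∧
      tcL (lsd T' k' g') (Xx' g') - t' = tcL (lsd T k g) (Xx g) - t := by
  obtain ⟨Φc, Φx, m1, m2, m3, m4⟩ := hg.mrk
  obtain ⟨Φc', Φx', n1, n2, n3, n4⟩ := hg'.mrk
  have h0 : 0 < g.1 := hg.b0.trans hg.b1
  have h0' : 0 < g'.1 := hg'.b0.trans hg'.b1
  have lev : (pa (lsd T k g) t).re ≤ z := (Complex.re_le_norm _).trans (hz t ⟨hP.t0, le_rfl⟩)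
  have lev' : (pa (lsd T' k' g') t').re ≤ z := (Complex.re_le_norm _).trans (hz' t' ⟨hP'.t0, le_rfl⟩)
  have a1 := K7.loc_same hG hU hR hR2 hzf hzf' hQ m1 n1 hZ hZ' h0 h0' hP hP2 hP' hP2' hz hz' heq
    (fun q hq => by linarith [hQa q hq]) (fun q hq => by linarith [hQa q hq])
  simp only [tcL_ab] at a1 hdu hdv hru hrv ⊢
  rw [hb] at m3 m4 hlo hhi
  rw [hb'] at n3 n4 hlo' hhi'
  obtain ⟨e1, e2, e3⟩ := fs_loc hN m2 n2 m3 m4 n3 n4 a1 (K7.pa_cont _) hlo hhi hlo' hhi' hdu hdv hru hrv ((ab_nn hg.len.le).2 hX)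
  exact ⟨(ab_nn hg'.len.le).1 e1, e2, e3⟩

/-- **locality of the functional marks**, form of F3LrK -/
theorem locS_of {b R R2 z lo hi δ rl sl rr sr : ℝ} {Gj : ℕ → ℕ → W3 × ℕ → Prop} (hG : GdSeq b R R2 Gj) {U : Ultrafilter ℕ}
    (hU : (U : Filter ℕ) ≤ atTop) (hR : 0 < R) (hR2 : 0 < R2) {Q : Set Qg} {L : Set ℝ} {w : Qg}
    (hN : Net0 Q L w lo hi δ rl sl) (hQ : ∀ q ∈ Q, Ran' R R2 q) (hQa : ∀ q ∈ Q, lo ≤ q.a) (hzl : z + R / 8 < lo)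
    (hr : rr + 2 * z < rl) (hs : sr + 2 * z < sl)
    {T T' : LSym} {k k' : Arm} {zf zf' : ℕ → W3 × ℕ → ℝ} {Z Z' : CC.Gm → ℝ} (hzf : ∀ N x, zf N x = 0 ∨ zf N x = 1)
    (hzf' : ∀ N x, zf' N x = 0 ∨ zf' N x = 1) {X X' : Set CC.Gm} {beta Xc Xx beta' Xc' Xx' : CC.Gm → ℝ}
    (hX : ∀ g ∈ X, LSt U Gj Q T k zf Z w beta Xc Xx g ∧ 0 < Z g)
    (hX' : ∀ g ∈ X', LSt U Gj Q T' k' zf' Z' w beta' Xc' Xx' g ∧ 0 < Z' g) :
    LocS R R2 z w.a lo hi rl sl rr sr T k X beta Xc Xx T' k' X' beta' Xc' Xx' := by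
  intro g hg g' hg' t e t' e' hP hP2 hP' hP2' hz hz' heq hb hb' hlo hhi hlo' hhi' h0 _ _ hdu hdv hrc hrx
  exact loc_strand hG hU hR hR2 hN hQ hQa hzl hzf hzf' (hX g hg).1 (hX' g' hg').1 (hX g hg).2 (hX' g' hg').2 hP hP2 hP' hP2' hz hz' heq
    hb hb' hlo hhi hlo' hhi' h0 hdu hdv (rdP_of (K7.pa_cont _) hrc hr) (rdP_of (K7.pa_cont _) hrx hs)

/-- the scale of a mark -/
lemma Cfm.scale {Q : Set Qg} {tx : Qg → ℝ} {q : Qg} {X d : ℝ} (h : Cfm Q tx q X) (hd : 0 ≤ d) :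
    Cfm Q (fun q => ab d (tx q)) q (ab d X) := by
  intro η hη
  obtain ⟨μ, hμ, h1⟩ := h (η / (d + 1)) (by positivity)
  refine ⟨μ, hμ, fun q' hq' hn => ?_⟩
  obtain ⟨h2, h3⟩ := h1 q' hq' hn
  refine ⟨by rw [ab_nn hd]; exact h2.trans (ab_nn hd).symm, fun h4 => ?_⟩
  have h5 := (ab_nn hd).1 h4
  have h6 := h2.1 h5
  show |ab d (tx q') - ab d X| ≤ η
  rw [ab_of h5, ab_of h6, ← sub_mul, abs_mul, abs_of_nonneg hd]
  have h7 := mul_le_mul_of_nonneg_right (h3 h5) hd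
  refine h7.trans ?_
  rw [div_mul_eq_mul_div, div_le_iff₀ (by positivity)]
  nlinarith

/-- **almost every strand is good** -/
theorem lst_ae {b R R2 : ℝ} {Gj : ℕ → ℕ → W3 × ℕ → Prop} (hG : GdSeq b R R2 Gj) {U : Ultrafilter ℕ} (hU : (U : Filter ℕ) ≤ atTop)
    {P : Measure CC.Gm} (hC : Cv (U : Filter ℕ) (fun N => mwE N b) cN P) (hP : ∀ᵐ g ∂P, 0 < g.2.1 ∧ g.2.1 < g.1) {Q : Set Qg}
    (hQ : Q.Countable) (hq : ∀ q ∈ Q, QOk q) {T : LSym} {k : Arm} {zf : ℕ → W3 × ℕ → ℝ} {Z : CC.Gm → ℝ} (hz : Zok zf)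
    (hZ : Lm (U : Filter ℕ) (fun N => mwE N b) cN P zf Z) {w : Qg} {beta Xc Xx : CC.Gm → ℝ} {Φc Φx : Qg → CC.Gm → ℝ}
    (hc : ∀ q ∈ Q, Lm (U : Filter ℕ) (fun N => mwE N b) cN P (fun N x => K7.wc q N (sdw T k x) * zf N x) (Φc q))
    (hx : ∀ q ∈ Q, Lm (U : Filter ℕ) (fun N => mwE N b) cN P (fun N x => K7.wx q N (sdw T k x) * zf N x) (Φx q))
    (h1 : ∀ᵐ g ∂P, Cfm Q (fun q => Φc q g) (w.at (beta g + w.a)) (Xc g))
    (h2 : ∀ᵐ g ∂P, Cfm Q (fun q => Φx q g) (w.at (beta g + w.a)) (Xx g)) :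
    ∀ᵐ g ∂P, LSt U Gj Q T k zf Z w beta Xc Xx g := by
  have := hQ.to_subtype
  have a1 : ∀ᵐ g ∂P, ∀ q q2 : Q, g ∈ LocG U Gj T k zf Z Φc Φx q q2 := ae_all_iff.2 fun q => ae_all_iff.2 fun q2 =>
    K7.locG_ae hG hU hC T k (hc q q.2) (hx q q.2) (hc q2 q2.2) (hx q2 q2.2) hZ
  have a2 := sg_ae (T := T) (k := k) hU hC hP hz hQ hq hc hx
  filter_upwards [a1, a2, h1, h2, hP] with g g1 g2 g3 g4 g5
  have hd : 0 ≤ (lsd T k g).1 := by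
    show 0 ≤ k.lf g.1 g.2.1
    cases k
    · exact g5.1.le
    · exact g5.1.le
    · exact (sub_pos.2 g5.2).le
    · exact (sub_pos.2 g5.2).le
  exact ⟨g5.1, g5.2, Φc, Φx, fun q hq' q2 hq2 => g1 ⟨q, hq'⟩ ⟨q2, hq2⟩, g2, g3.scale hd, g4.scale hd⟩

end Pool.Agent.ROT.F3.LR
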