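import Pool.Agent.ROT.F3LrN
import Pool.Agent.ROT.F3LocV

/-!
# ROT, F3, row D49 (helper94): 66's `Net0` from the universal sets of parameters

`u`, `v : Qg` = corners of a box of parameters in the admissible ranges (`Cor`), `w` inside (`Inn`, no condition on the level);
`QS u v ..` : the universal parameters in the box; **`ud_net0`**.
-/

set_option autoImplicit false

open Set

namespace Pool.Agent.ROT.F3.LR

/-- a box of parameters in the admissible ranges -/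
structure Cor (R R2 : ℝ) (u v : Qg) : Prop where
  a : R / 4 ≤ u.a
  r : 0 ≤ u.r
  r' : v.r ≤ 2 * R
  ρ : 64 * R ≤ u.ρ
  ρ' : v.ρ ≤ 128 * R
  m : R2 / 4 ≤ u.m
  r2 : 0 ≤ u.r2
  r2' : v.r2 ≤ 2 * R2
  ρ2 : 64 * R2 ≤ u.ρ2
  ρ2' : v.ρ2 ≤ 128 * R2

/-- inside of the box, except the level -/
structure Inn (u v w : Qg) : Prop where
  r : u.r < w.r
  r' : w.r < v.r
  ρ : u.ρ < w.ρ
  ρ' : w.ρ < v.ρ
  m : u.m < w.m
  m' : w.m < v.m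
  r2 : u.r2 < w.r2
  r2' : w.r2 < v.r2
  ρ2 : u.ρ2 < w.ρ2
  ρ2' : w.ρ2 < v.ρ2

/-- the universal parameters in the box -/
def QS (u v : Qg) (L D1 D2 D3 D4 D5 : Set ℝ) : Set Qg :=
  QP (L ∩ Ioo u.a v.a) (D1 ∩ Ioo u.r v.r) (D2 ∩ Ioo u.ρ v.ρ) (D3 ∩ Ioo u.m v.m) (D4 ∩ Ioo u.r2 v.r2) (D5 ∩ Ioo u.ρ2 v.ρ2)

section

variable {R R2 : ℝ} {L D1 D2 D3 D4 D5 : Set ℝ} {u v w : Qg}

lemma qs_sub : QS u v L D1 D2 D3 D4 D5 ⊆ QP L D1 D2 D3 D4 D5 :=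
  qp_mono inter_subset_left inter_subset_left inter_subset_left inter_subset_left inter_subset_left inter_subset_left

/-- the parameters of `QS` are in the box -/
lemma qs_in {q : Qg} (h : q ∈ QS u v L D1 D2 D3 D4 D5) : (u.a < q.a ∧ q.a < v.a) ∧ Inn u v q := by
  obtain ⟨h0, h1, h2, h3, h4, h5⟩ := h
  exact ⟨⟨h0.2.1, h0.2.2⟩, h1.2.1, h1.2.2, h2.2.1, h2.2.2, h3.2.1, h3.2.2, h4.2.1, h4.2.2, h5.2.1, h5.2.2⟩

lemma qs_cnt (h : Ud R R2 L D1 D2 D3 D4 D5) : (QS u v L D1 D2 D3 D4 D5).Countable := h.cnt.mono qs_sub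

/-- **66's `Net0`** for every `w` in the box: `α`, `κ` = the diameters of the pieces up to the two gates -/
theorem ud_net0 (h : Ud R R2 L D1 D2 D3 D4 D5) (c : Cor R R2 u v) (hw : Inn u v w) {α κ : ℝ} (hα : u.r ≤ α)
    (hα' : α < w.r) (hκ : u.r2 ≤ κ) (hκ' : κ < w.r2) :
    ∃ rl sl δ : ℝ, α < rl ∧ κ < sl ∧ Net0 (QS u v L D1 D2 D3 D4 D5) (L ∩ Ioo u.a v.a) w u.a v.a δ rl sl := by
  have a1 := hw.r; have a2 := hw.r'; have a3 := hw.ρ; have a4 := hw.ρ'; have a5 := hw.m; have a6 := hw.m'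
  have a7 := hw.r2; have a8 := hw.r2'; have a9 := hw.ρ2; have a10 := hw.ρ2'
  have e1 := h.d1.inter c.r c.r'
  have e2 := h.d2.inter c.ρ c.ρ'
  have e3 := (h.d3 v.m).inter c.m le_rfl
  have e4 := h.d4.inter c.r2 c.r2'
  have e5 := h.d5.inter c.ρ2 c.ρ2'
  obtain ⟨rl, b1, b2, b3⟩ := e1 α w.r hα hα' a2.le
  obtain ⟨sl, b4, b5, b6⟩ := e4 κ w.r2 hκ hκ' a8.le
  obtain ⟨δ, hδ⟩ : ∃ δ, δ = min (min (min (w.r - u.r) (v.r - w.r)) (min (w.ρ - u.ρ) (v.ρ - w.ρ)))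
    (min (min (w.m - u.m) (v.m - w.m)) (min (min (w.r2 - u.r2) (v.r2 - w.r2)) (min (w.ρ2 - u.ρ2) (v.ρ2 - w.ρ2)))) := ⟨_, rfl⟩
  have d0 : 0 < δ := by
    rw [hδ]
    exact lt_min (lt_min (lt_min (by linarith) (by linarith)) (lt_min (by linarith) (by linarith)))
      (lt_min (lt_min (by linarith) (by linarith)) (lt_min (lt_min (by linarith) (by linarith)) (lt_min (by linarith) (by linarith))))
  have d1 : δ ≤ w.r - u.r ∧ δ ≤ v.r - w.r ∧ δ ≤ w.ρ - u.ρ ∧ δ ≤ v.ρ - w.ρ ∧ δ ≤ w.m - u.m ∧ δ ≤ v.m - w.m ∧ δ ≤ w.r2 - u.r2 ∧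
      δ ≤ v.r2 - w.r2 ∧ δ ≤ w.ρ2 - u.ρ2 ∧ δ ≤ v.ρ2 - w.ρ2 := by
    have h1 := le_of_eq hδ
    simp only [le_min_iff] at h1
    obtain ⟨⟨⟨x1, x2⟩, x3, x4⟩, ⟨x5, x6⟩, ⟨x7, x8⟩, x9, x10⟩ := h1
    exact ⟨x1, x2, x3, x4, x5, x6, x7, x8, x9, x10⟩
  obtain ⟨x1, x2, x3, x4, x5, x6, x7, x8, x9, x10⟩ := d1
  exact ⟨rl, sl, δ, b2, b5, d0, (h.d0 v.a).inter c.a le_rfl, b3, b6, _, _, _, _, _, fun l hl r hr ρ hρ m hm r2 hr2 ρ2 hρ2 =>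
    ⟨hl, hr, hρ, hm, hr2, hρ2⟩, b1, b4, e1.sub (by linarith) (by linarith), e2.sub (by linarith) (by linarith),
    e3.sub (by linarith) (by linarith), e4.sub (by linarith) (by linarith), e5.sub (by linarith) (by linarith)⟩

end

end Pool.Agent.ROT.F3.LR
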