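import Pool.Agent.ROT.F3K3A
import Pool.Agent.ROT.F3K2C
import Pool.Agent.ROT.F3K7La

/-!
# ROT, F3, row D57 (helper41): the factor `zN c0` is `1` where the roots are farther than `c0`

* **`z_ae`** : almost every closed curve with `c0 < ‖second root‖` has `Z = 1` (`Z` = the limit of `zN c0`);
* **`z_arm`** : the same for the end of every strand.
-/

set_option autoImplicit false
set_option linter.unusedSectionVars false

open MeasureTheory Filter Topology Set unitInterval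

open scoped ENNReal NNReal

namespace Pool.Agent.ROT.F3.CK

open Pool.Agent.ROT.F3 Pool.Agent.ROT.F3.LF

/-- the place of the second root of a word -/
lemma cN_root {N : ℕ} {x : W3 × ℕ} (hx : Spt x) (hN : 1 ≤ N) : ‖(cN N x).2.2 (pji (muN x))‖ = dst N x := by
  obtain ⟨-, -, hm⟩ := hx
  have hl : 1 ≤ x.1.length := by omega
  have hN0 : (0 : ℝ) < N := by exact_mod_cast hN
  have hl0 : (0 : ℝ) < x.1.length := by exact_mod_cast hl
  have h1 : ((x.2 : ℝ) / x.1.length) ∈ Icc (0 : ℝ) 1 :=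
    ⟨by positivity, by rw [div_le_one hl0]; exact_mod_cast hm.le⟩
  have e1 : ((pji (muN x) : I) : ℝ) = (x.2 : ℝ) / x.1.length := by
    rw [muN_eq hm]
    unfold pji
    rw [projIcc_of_mem zero_le_one h1]
  have e2 : (cN N x).2.2 (pji (muN x)) = ps x.1 x.2 / N :=
    crv_vertex hl hm.le (by rw [e1]; field_simp)
  rw [e2, norm_div, Complex.norm_natCast]
  rfl

section lim

variable {U : Ultrafilter ℕ} {b c0 : ℝ} {PG : Measure CC.Gm} {Z : CC.Gm → ℝ}

/-- **the factor is `1` where the roots are farther than `c0`** -/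
theorem z_ae (hU : (U : Filter ℕ) ≤ atTop) (hC : Cv (U : Filter ℕ) (fun N => mwE N b) cN PG) (hP : ∀ᵐ y ∂PG, 0 < y.1)
    (hZ : Lm (U : Filter ℕ) (fun N => mwE N b) cN PG (zN c0) Z) : ∀ᵐ y ∂PG, c0 < ‖y.2.2 (pji (muG y))‖ → Z y = 1 := by
  have hF : Continuous fun z : CC.Gm × (Unit → ℝ) => ‖z.1.2.2 (pji (z.2 ()))‖ - c0 := by
    have h1 : Continuous fun z : CC.Gm × (Unit → ℝ) => (z.1.2.2, pji (z.2 ())) :=
      (continuous_snd.comp (continuous_snd.comp continuous_fst)).prodMk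
        (pji_cont.comp ((continuous_apply ()).comp continuous_snd))
    exact (continuous_eval.comp h1).norm.sub continuous_const
  have h1 : Lm (U : Filter ℕ) (fun N => mwE N b) cN PG (fun N x => rmp (‖(cN N x).2.2 (pji (muN x))‖ - c0))
      fun y => rmp (‖y.2.2 (pji (muG y))‖ - c0) :=
    Lm.ramp hC (p := fun _ x _ => muN x) (Φ := fun y _ => muG y) (fun _ => lm_mu hC hP) hF rmp_cont rmp_nonneg rmp_le
  have h2 := Lm.mul hC (Lm.sub hC (Lm.const hC 1) hZ) h1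
  have h3 : Lm (U : Filter ℕ) (fun N => mwE N b) cN PG (fun _ _ => (0 : ℝ))
      fun y => (1 - Z y) * rmp (‖y.2.2 (pji (muG y))‖ - c0) := by
    refine lm_spt hC h2 ⟨0, fun i ω => by simp⟩ ?_
    filter_upwards [hU (eventually_ge_atTop 1)] with N hN x hx
    rw [cN_root hx hN]
    by_cases h : c0 < dst N x
    · have e : zN c0 N x = 1 := by
        unfold zN
        exact if_pos h
      rw [e, sub_self, zero_mul]
    · rw [rmp_of (by linarith [not_lt.1 h]), mul_zero]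
  filter_upwards [Lm.unique hC h3 (Lm.const hC 0)] with y hy hc
  have h4 : 0 < rmp (‖y.2.2 (pji (muG y))‖ - c0) := by
    unfold rmp
    exact lt_max_of_lt_right (lt_min one_pos (sub_pos.2 hc))
  have h5 : 1 - Z y = 0 := (mul_eq_zero.1 hy).resolve_right h4.ne'
  linarith

/-- the distance of the ends of a strand -/
lemma lsd_end {T : LSym} {k : Arm} {g : CC.Gm} (h0 : 0 < g.2.1) (h1 : g.2.1 < g.1) (c0 : g.2.2 0 = 0) (c1 : g.2.2 1 = 0) :
    ‖K7.pa (K7.lsd T k g) (K7.lsd T k g).1‖ = ‖g.2.2 (pji (muG g))‖ := by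
  have hL : 0 < g.1 := h0.trans h1
  have hθ : muG g = g.2.1 / g.1 := muG_eq h0 h1
  have hl : 0 < k.lf g.1 g.2.1 := by
    cases k
    · exact h0
    · exact h0
    · exact sub_pos.2 h1
    · exact sub_pos.2 h1
  have e0 : K7.pk (k.lf g.1 g.2.1 / k.lf g.1 g.2.1) = 1 := by
    rw [div_self hl.ne']
    unfold K7.pk
    exact projIcc_right _
  have p0 : pj 0 = 0 := projIcc_left _
  have p1 : pj 1 = 1 := projIcc_right _
  have e1 : ‖K7.pa (K7.lsd T k g) (K7.lsd T k g).1‖ =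
      ‖g.2.2 (pj (k.tt (g.2.1 / g.1) ((1 : I) : ℝ))) - g.2.2 (pj (k.tr (g.2.1 / g.1)))‖ := by
    show ‖T.L (g.2.2 (pj (k.tt (g.2.1 / g.1) ((K7.pk (k.lf g.1 g.2.1 / k.lf g.1 g.2.1) : I) : ℝ))) -
      g.2.2 (pj (k.tr (g.2.1 / g.1))))‖ = _
    rw [e0, T.L.norm_map]
  rw [e1, hθ, Set.Icc.coe_one]
  show _ = ‖g.2.2 (pj (g.2.1 / g.1))‖
  cases k
  · show ‖g.2.2 (pj (1 * (g.2.1 / g.1))) - g.2.2 (pj 0)‖ = _
    rw [one_mul, p0, c0, sub_zero]
  · show ‖g.2.2 (pj (g.2.1 / g.1 - 1 * (g.2.1 / g.1))) - g.2.2 (pj (g.2.1 / g.1))‖ = _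
    rw [one_mul, sub_self, p0, c0, zero_sub, norm_neg]
  · show ‖g.2.2 (pj (g.2.1 / g.1 + 1 * (1 - g.2.1 / g.1))) - g.2.2 (pj (g.2.1 / g.1))‖ = _
    rw [one_mul, add_sub_cancel, p1, c1, zero_sub, norm_neg]
  · show ‖g.2.2 (pj (1 - 1 * (1 - g.2.1 / g.1))) - g.2.2 (pj 0)‖ = _
    rw [one_mul, sub_sub_cancel, p0, c0, sub_zero]

/-- **the same for the strands** -/
theorem z_arm (hU : (U : Filter ℕ) ≤ atTop) (hC : Cv (U : Filter ℕ) (fun N => mwE N b) cN PG)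
    (hP : ∀ᵐ y ∂PG, 0 < y.2.1 ∧ y.2.1 < y.1) (hcl : ∀ᵐ y ∂PG, y.2.2 0 = 0 ∧ y.2.2 1 = 0)
    (hZ : Lm (U : Filter ℕ) (fun N => mwE N b) cN PG (zN c0) Z) :
    ∀ᵐ y ∂PG, ∀ (T : LSym) (k : Arm), c0 < ‖K7.pa (K7.lsd T k y) (K7.lsd T k y).1‖ → Z y = 1 := by
  have hP' : ∀ᵐ y ∂PG, 0 < y.1 := by
    filter_upwards [hP] with y hy
    exact hy.1.trans hy.2
  filter_upwards [z_ae hU hC hP' hZ, hP, hcl] with y h1 h2 h3 T k h4
  rw [lsd_end h2.1 h2.2 h3.1 h3.2] at h4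
  exact h1 h4

end lim

end Pool.Agent.ROT.F3.CK
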