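import Pool.Agent.ROT.F3LrM
import Pool.Agent.ROT.F3GenG3
import Pool.Agent.ROT.F3LrU
import Pool.Agent.ROT.F3LrR
import Pool.Agent.ROT.F3LrG0
import Pool.Agent.ROT.F3ZAe

/-!
# ROT, F3, row D49 (helper94): locality of the gates of one member

* **`gmk_sgd`** : 37's `GMk` almost everywhere from the gates `SGd` of a strand (helper59), for ANY limit objects `AI1` of the gates;
* `sgd_lims` : the limits of the marks of `c~`, `x~`, of the block mark;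
* `wX`, `wY`, the corners of the boxes of parameters (`corFx` .. `corNy`, `innF`, `innN`, `ranFx` .. `ranNy`);
* **`mem_gen`** : the three fields of helper31's `MemL` for one member, generic scales (`R` .. of the gates, `K` .. of the pieces).
-/

set_option autoImplicit false
set_option linter.unusedSectionVars false

open Filter MeasureTheory Topology Set

open scoped NNReal ENNReal BoundedContinuousFunction

namespace Pool.Agent.ROT.F3.LR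

open Pool.Agent.NTS.Res (step pos saw fug size curve)
open Pool.Agent.ROT.F (QB)
open Pool.Agent.CRT (CI)
open Pool.Agent.SCF.M Pool.Agent.SCF.Z
open Pool.Agent.ROT.F3.LF (Cv Lm Ev bi bi_pos bi_neg bi_ne)

variable {U : Ultrafilter ℕ} {b : ℝ} {PG : Measure CC.Gm} {S : ℕ → ℝ} {T : LSym} {k : Arm} {c0 R R2 R3 : ℝ} {G : GP}
  {y : ℕ → W3 × ℕ → ℝ}

/-- the gates through the marks do not see null sets -/
lemma GMk.congr {B B' : Set CC.Gm} {c x c' x' β Xc Xx Xy : CC.Gm → ℝ} {a m : ℝ} {g : CC.Gm} (h : GMk B c x β T k a m Xc Xx Xy g)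
    (hB : g ∈ B ↔ g ∈ B') (hc : c g = c' g) (hx : x g = x' g) : GMk B' c' x' β T k a m Xc Xx Xy g :=
  ⟨hB.symm.trans h.iff, fun hg => hc.symm.trans (h.c (hB.2 hg)), fun hg => hx.symm.trans (h.x (hB.2 hg)), fun hg => h.c0 (hB.2 hg),
    fun hg => h.yx (hB.2 hg), fun hg => h.cy (hB.2 hg), fun hg => h.lv (hB.2 hg)⟩

/-- **the gates of a strand through the marks** -/
theorem gmk_sgd (hU : (U : Filter ℕ) ≤ atTop) (hC : Cv (U : Filter ℕ) (fun N => mwE N b) cN PG)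
    (hP : ∀ᵐ g ∂PG, 0 < g.2.1 ∧ g.2.1 < g.1) (hS0 : ∀ N, 0 < S N) (hS : ∀ᶠ N : ℕ in (U : Filter ℕ), S N = N) (hR : 0 < R)
    (hR3 : 0 < R3) (hm : 0 < G.m) (hh : 0 < G.h) (hr : G.r1 ≤ 2 * R) (hρ : G.r1 ≤ G.ρ1) (hρ1 : G.r1' ≤ G.ρ') (hr2 : G.r1'' ≤ 2 * R3)
    (hρ2 : G.r1'' ≤ G.ρ'') (h : SGd U b PG S c0 R R2 R3 k T y G) {B : Set CC.Gm} {c x : CC.Gm → ℝ}
    (ai : CK.AI1 (U : Filter ℕ) b PG k (fun N x => c0 < dst N x ∧ sgE G T (y N x) N k x) (fun N x => sgc G T (y N x) N k x)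
      (fun N x => sgx G T (y N x) N k x) B c x) {Xc Xx Xy β Z : CC.Gm → ℝ}
    (lc : Lm (U : Filter ℕ) (fun N => mwE N b) cN PG
      (fun N x => mk1 (Dv (aW k T x).get (y N x * S N)) G.l G.r1 G.ρ1 (S N) (aW k T x).get * zN c0 N x) Xc)
    (lx : Lm (U : Filter ℕ) (fun N => mwE N b) cN PG
      (fun N x => mkB (Dv (aW k T x).get (y N x * S N)) G.l G.r1 G.ρ1 G.m G.r1' G.ρ' (S N) (aW k T x).get * zN c0 N x) Xx)
    (ly : Lm (U : Filter ℕ) (fun N => mwE N b) cN PG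
      (fun N x => mkB (Dv (aW k T x).get (y N x * S N)) G.l G.r1 G.ρ1 G.h G.r1'' G.ρ'' (S N) (aW k T x).get * zN c0 N x) Xy)
    (lb : Lm (U : Filter ℕ) (fun N => mwE N b) cN PG y β) (lz : Lm (U : Filter ℕ) (fun N => mwE N b) cN PG (zN c0) Z) :
    ∀ᵐ g ∂PG, 0 < Z g → GMk B c x β T k G.l G.m Xc Xx Xy g := by
  obtain ⟨𝒜, Pc, Pg, ht⟩ := h.ge
  have a1 := CK.ai1_sg hC hS0 hS hm ht
  filter_upwards [gmk_gt hU hC hP hS0 hS hR hR3 hh hr hρ hρ1 hr2 hρ2 h.gc h.gy ht lc lx ly lb lz h.na,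
    (LF.Ev.unique hC a1.ev ai.ev).mem_iff, LF.Lm.unique hC a1.tc ai.tc, LF.Lm.unique hC a1.tg ai.tg] with g g1 g2 g3 g4 hZ
  exact (g1 hZ).congr g2 g3 g4

/-- the limits of the marks -/
lemma sgd_lims (hC : Cv (U : Filter ℕ) (fun N => mwE N b) cN PG) (h : SGd U b PG S c0 R R2 R3 k T y G) :
    ∃ Xc Xx Xy : CC.Gm → ℝ,
    Lm (U : Filter ℕ) (fun N => mwE N b) cN PG
      (fun N x => mk1 (Dv (aW k T x).get (y N x * S N)) G.l G.r1 G.ρ1 (S N) (aW k T x).get * zN c0 N x) Xc ∧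
    Lm (U : Filter ℕ) (fun N => mwE N b) cN PG
      (fun N x => mkB (Dv (aW k T x).get (y N x * S N)) G.l G.r1 G.ρ1 G.m G.r1' G.ρ' (S N) (aW k T x).get * zN c0 N x) Xx ∧
    Lm (U : Filter ℕ) (fun N => mwE N b) cN PG
      (fun N x => mkB (Dv (aW k T x).get (y N x * S N)) G.l G.r1 G.ρ1 G.h G.r1'' G.ρ'' (S N) (aW k T x).get * zN c0 N x) Xy := by
  obtain ⟨Xc, h1⟩ := h.gc.mrk.l1f.lim hC
  obtain ⟨Xx, h2⟩ := h.gx.mrk.l1f.lim hC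
  obtain ⟨Xy, h3⟩ := h.gy.mrk.l1f.lim hC
  exact ⟨Xc, Xx, Xy, h1, h2, h3⟩

/-! ### 2. the numbers -/

/-- the parameters of `x~` -/
noncomputable def wX (G : GP) : Qg := ⟨G.l, G.r1, G.ρ1, G.m, G.r1', G.ρ'⟩

/-- the parameters of the block mark -/
noncomputable def wY (G : GP) : Qg := ⟨G.l, G.r1, G.ρ1, G.h, G.r1'', G.ρ''⟩

/-- corners of the box of parameters, rotated lattice, `x~`; levels between `lo` and `hi` -/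
noncomputable def uFx (lo ρ : ℝ) : Qg := ⟨lo, 200 * ρ, 28700 * ρ, 7300 * ρ, 57000 * ρ, 1860000 * ρ⟩

noncomputable def vFx (hi ρ : ℝ) : Qg := ⟨hi, 450 * ρ, 28920 * ρ, 12000 * ρ, 58000 * ρ, 2500000 * ρ⟩

/-- corners of the box of parameters, rotated lattice, block mark -/
noncomputable def uFy (lo ρ : ℝ) : Qg := ⟨lo, 200 * ρ, 28700 * ρ, 7300 * ρ, 57000 * ρ, 1842310 * ρ⟩

noncomputable def vFy (hi ρ : ℝ) : Qg := ⟨hi, 450 * ρ, 28920 * ρ, 12000 * ρ, 57572 * ρ, 1850000 * ρ⟩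

/-- corners of the box of parameters, lattice 0, `x~` -/
noncomputable def uNx (lo ρ : ℝ) : Qg := ⟨lo, 2 * ρ, 97 * ρ, 53 / 10 * ρ, 41 * ρ, 1345 * ρ⟩

noncomputable def vNx (hi ρ : ℝ) : Qg := ⟨hi, 3 * ρ, 190 * ρ, 10 * ρ, 42 * ρ, 1820 * ρ⟩

/-- corners of the box of parameters, lattice 0, block mark -/
noncomputable def uNy (lo ρ : ℝ) : Qg := ⟨lo, 2 * ρ, 97 * ρ, 53 / 10 * ρ, 41 * ρ, 1335 * ρ⟩

noncomputable def vNy (hi ρ : ℝ) : Qg := ⟨hi, 3 * ρ, 190 * ρ, 10 * ρ, 416 / 10 * ρ, 1500 * ρ⟩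

section num

variable {ρ τ lo hi : ℝ} {Q : Tp}

lemma rT_lt {B : Pool.Agent.SCF.M.Box} (h : B.r0 < B.r1) {t : ℝ} (h0 : 0 < t) (h1 : t < 1) : B.r0 < rT B t ∧ rT B t < B.r1 := by
  unfold rT
  constructor <;> nlinarith

lemma pT_lt {B : Pool.Agent.SCF.M.Box} (h : B.p0 < B.p1) {t : ℝ} (h0 : 0 < t) (h1 : t < 1) : B.p0 < pT B t ∧ pT B t < B.p1 := by
  unfold pT
  constructor <;> nlinarith

lemma corFx (hρ : 0 < ρ) (hlo : 57 * ρ ≤ lo) : Cor (scF 0 * ρ) (scF 1 * ρ) (uFx lo ρ) (vFx hi ρ) := by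
  constructor <;> simp only [uFx, vFx, scF] <;> linarith

lemma corFy (hρ : 0 < ρ) (hlo : 57 * ρ ≤ lo) : Cor (scF 0 * ρ) (scF 2 * ρ) (uFy lo ρ) (vFy hi ρ) := by
  constructor <;> simp only [uFy, vFy, scF] <;> linarith

lemma corNx (hρ : 0 < ρ) (hlo : 3 / 8 * ρ ≤ lo) : Cor (scN 0 * ρ) (scN 1 * ρ) (uNx lo ρ) (vNx hi ρ) := by
  constructor <;> simp only [uNx, vNx, scN] <;> linarith

lemma corNy (hρ : 0 < ρ) (hlo : 3 / 8 * ρ ≤ lo) : Cor (scN 0 * ρ) (scN 2 * ρ) (uNy lo ρ) (vNy hi ρ) := by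
  constructor <;> simp only [uNy, vNy, scN] <;> linarith

/-- the parameters of the class are in the boxes, rotated lattice -/
lemma innF (hρ : 0 < ρ) (h : Q.Nr (bF ρ τ)) (r : AR) :
    Inn (uFx lo ρ) (vFx hi ρ) (wX (grF ρ Q r)) ∧ Inn (uFy lo ρ) (vFy hi ρ) (wY (grF ρ Q r)) := by
  obtain ⟨-, -, -, -, w1, w2⟩ := bxF_r hρ h
  obtain ⟨t1, t2⟩ := tof_mem w1 w2
  obtain ⟨a1, a2⟩ : 213 * ρ < rT (bxF 0 ρ) r.t ∧ rT (bxF 0 ρ) r.t < 400 * ρ :=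
    rT_lt (B := bxF 0 ρ) (show 213 * ρ < 400 * ρ by linarith) r.h0 r.h1
  obtain ⟨a3, a4⟩ : 28800 * ρ < pT (bxF 0 ρ) r.t ∧ pT (bxF 0 ρ) r.t < 28900 * ρ :=
    pT_lt (B := bxF 0 ρ) (show 28800 * ρ < 28900 * ρ by linarith) r.h0 r.h1
  obtain ⟨b1, b2⟩ : 57600 * ρ < rT (bxF 1 ρ) (tof (bxF 1 ρ) Q.rg) ∧ rT (bxF 1 ρ) (tof (bxF 1 ρ) Q.rg) < 58000 * ρ :=
    rT_lt (B := bxF 1 ρ) (show 57600 * ρ < 58000 * ρ by linarith) t1 t2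
  obtain ⟨c1, c2⟩ : 57571 * ρ < rT (bxF 2 ρ) r.t3 ∧ rT (bxF 2 ρ) r.t3 < 57572 * ρ :=
    rT_lt (B := bxF 2 ρ) (show 57571 * ρ < 57572 * ρ by linarith) r.h2 r.h3
  obtain ⟨c3, c4⟩ : 1842350 * ρ < pT (bxF 2 ρ) r.t3 ∧ pT (bxF 2 ρ) r.t3 < 1842400 * ρ :=
    pT_lt (B := bxF 2 ρ) (show 1842350 * ρ < 1842400 * ρ by linarith) r.h2 r.h3
  have hm1 : 11400 * ρ ≤ Q.m := h.m.1
  have hm2 : Q.m ≤ 101 / 100 * (11400 * ρ) := h.m.2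
  have hth1 : 3 / 4 ≤ Q.th := h.th.1
  have hth2 : Q.th ≤ 101 / 100 * (3 / 4) := h.th.2
  have hrg1 : 1900000 * ρ ≤ Q.rg := h.rg.1
  have hrg2 : Q.rg ≤ 101 / 100 * (1900000 * ρ) := h.rg.2
  have hthm : 3 / 4 * (11400 * ρ) ≤ Q.th * Q.m := mul_le_mul hth1 hm1 (by positivity) (by linarith)
  have hthm' : Q.th * Q.m ≤ 101 / 100 * (3 / 4) * (101 / 100 * (11400 * ρ)) := mul_le_mul hth2 hm2 (by linarith) (by norm_num)
  constructor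
  · constructor
    · show 200 * ρ < rT (bxF 0 ρ) r.t; linarith
    · show rT (bxF 0 ρ) r.t < 450 * ρ; linarith
    · show 28700 * ρ < pT (bxF 0 ρ) r.t; linarith
    · show pT (bxF 0 ρ) r.t < 28920 * ρ; linarith
    · show 7300 * ρ < Q.m; linarith
    · show Q.m < 12000 * ρ; linarith
    · show 57000 * ρ < rT (bxF 1 ρ) (tof (bxF 1 ρ) Q.rg); linarith
    · show rT (bxF 1 ρ) (tof (bxF 1 ρ) Q.rg) < 58000 * ρ; linarith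
    · show 1860000 * ρ < Q.rg; linarith
    · show Q.rg < 2500000 * ρ; linarith
  · constructor
    · show 200 * ρ < rT (bxF 0 ρ) r.t; linarith
    · show rT (bxF 0 ρ) r.t < 450 * ρ; linarith
    · show 28700 * ρ < pT (bxF 0 ρ) r.t; linarith
    · show pT (bxF 0 ρ) r.t < 28920 * ρ; linarith
    · show 7300 * ρ < Q.th * Q.m; linarith
    · show Q.th * Q.m < 12000 * ρ; linarith
    · show 57000 * ρ < rT (bxF 2 ρ) r.t3; linarith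
    · show rT (bxF 2 ρ) r.t3 < 57572 * ρ; linarith
    · show 1842310 * ρ < pT (bxF 2 ρ) r.t3; linarith
    · show pT (bxF 2 ρ) r.t3 < 1850000 * ρ; linarith

/-- the parameters of the class are in the boxes, lattice 0 -/
lemma innN (hρ : 0 < ρ) (h : Q.Nr (bN ρ τ)) (r : AR) :
    Inn (uNx lo ρ) (vNx hi ρ) (wX (grN ρ Q r)) ∧ Inn (uNy lo ρ) (vNy hi ρ) (wY (grN ρ Q r)) := by
  obtain ⟨-, -, -, -, w1, w2⟩ := bxN_r hρ h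
  obtain ⟨t1, t2⟩ := tof_mem w1 w2
  obtain ⟨a1, a2⟩ : 21 / 10 * ρ < rT (bxN 0 ρ) r.t ∧ rT (bxN 0 ρ) r.t < 29 / 10 * ρ :=
    rT_lt (B := bxN 0 ρ) (show 21 / 10 * ρ < 29 / 10 * ρ by linarith) r.h0 r.h1
  obtain ⟨a3, a4⟩ : 100 * ρ < pT (bxN 0 ρ) r.t ∧ pT (bxN 0 ρ) r.t < 150 * ρ :=
    pT_lt (B := bxN 0 ρ) (show 100 * ρ < 150 * ρ by linarith) r.h0 r.h1
  obtain ⟨b1, b2⟩ : 415 / 10 * ρ < rT (bxN 1 ρ) (tof (bxN 1 ρ) Q.rg) ∧ rT (bxN 1 ρ) (tof (bxN 1 ρ) Q.rg) < 419 / 10 * ρ :=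
    rT_lt (B := bxN 1 ρ) (show 415 / 10 * ρ < 419 / 10 * ρ by linarith) t1 t2
  obtain ⟨c1, c2⟩ : 415 / 10 * ρ < rT (bxN 2 ρ) r.t3 ∧ rT (bxN 2 ρ) r.t3 < 416 / 10 * ρ :=
    rT_lt (B := bxN 2 ρ) (show 415 / 10 * ρ < 416 / 10 * ρ by linarith) r.h2 r.h3
  obtain ⟨c3, c4⟩ : 1340 * ρ < pT (bxN 2 ρ) r.t3 ∧ pT (bxN 2 ρ) r.t3 < 1355 * ρ :=
    pT_lt (B := bxN 2 ρ) (show 1340 * ρ < 1355 * ρ by linarith) r.h2 r.h3
  have hm1 : 81 / 10 * ρ ≤ Q.m := h.m.1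
  have hm2 : Q.m ≤ 101 / 100 * (81 / 10 * ρ) := h.m.2
  have hth1 : 3 / 4 ≤ Q.th := h.th.1
  have hth2 : Q.th ≤ 101 / 100 * (3 / 4) := h.th.2
  have hrg1 : 1400 * ρ ≤ Q.rg := h.rg.1
  have hrg2 : Q.rg ≤ 101 / 100 * (1400 * ρ) := h.rg.2
  have hthm : 3 / 4 * (81 / 10 * ρ) ≤ Q.th * Q.m := mul_le_mul hth1 hm1 (by positivity) (by linarith)
  have hthm' : Q.th * Q.m ≤ 101 / 100 * (3 / 4) * (101 / 100 * (81 / 10 * ρ)) := mul_le_mul hth2 hm2 (by linarith) (by norm_num)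
  constructor
  · constructor
    · show 2 * ρ < rT (bxN 0 ρ) r.t; linarith
    · show rT (bxN 0 ρ) r.t < 3 * ρ; linarith
    · show 97 * ρ < pT (bxN 0 ρ) r.t; linarith
    · show pT (bxN 0 ρ) r.t < 190 * ρ; linarith
    · show 53 / 10 * ρ < Q.m; linarith
    · show Q.m < 10 * ρ; linarith
    · show 41 * ρ < rT (bxN 1 ρ) (tof (bxN 1 ρ) Q.rg); linarith
    · show rT (bxN 1 ρ) (tof (bxN 1 ρ) Q.rg) < 42 * ρ; linarith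
    · show 1345 * ρ < Q.rg; linarith
    · show Q.rg < 1820 * ρ; linarith
  · constructor
    · show 2 * ρ < rT (bxN 0 ρ) r.t; linarith
    · show rT (bxN 0 ρ) r.t < 3 * ρ; linarith
    · show 97 * ρ < pT (bxN 0 ρ) r.t; linarith
    · show pT (bxN 0 ρ) r.t < 190 * ρ; linarith
    · show 53 / 10 * ρ < Q.th * Q.m; linarith
    · show Q.th * Q.m < 10 * ρ; linarith
    · show 41 * ρ < rT (bxN 2 ρ) r.t3; linarith
    · show rT (bxN 2 ρ) r.t3 < 416 / 10 * ρ; linarith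
    · show 1335 * ρ < pT (bxN 2 ρ) r.t3; linarith
    · show pT (bxN 2 ρ) r.t3 < 1500 * ρ; linarith

/-- the ranges of K7 -/
lemma ranFx (hρ : 0 < ρ) {q : Qg} (h : Inn (uFx lo ρ) (vFx hi ρ) q) : K7.Ran' (225 * ρ) (19350 * ρ) q := by
  obtain ⟨h1, h2, h3, h4, h5, h6, h7, h8, h9, h10⟩ := h
  simp only [uFx, vFx] at h1 h2 h3 h4 h5 h6 h7 h8 h9 h10
  refine ⟨⟨?_, ?_, ?_, ?_, ?_, ?_, ?_⟩, ?_, ?_⟩ <;> linarith

lemma ranFy (hρ : 0 < ρ) {q : Qg} (h : Inn (uFy lo ρ) (vFy hi ρ) q) : K7.Ran' (225 * ρ) (19350 * ρ) q := by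
  obtain ⟨h1, h2, h3, h4, h5, h6, h7, h8, h9, h10⟩ := h
  simp only [uFy, vFy] at h1 h2 h3 h4 h5 h6 h7 h8 h9 h10
  refine ⟨⟨?_, ?_, ?_, ?_, ?_, ?_, ?_⟩, ?_, ?_⟩ <;> linarith

lemma ranNx (hρ : 0 < ρ) {q : Qg} (h : Inn (uNx lo ρ) (vNx hi ρ) q) : K7.Ran' (3 / 2 * ρ) (14 * ρ) q := by
  obtain ⟨h1, h2, h3, h4, h5, h6, h7, h8, h9, h10⟩ := h
  simp only [uNx, vNx] at h1 h2 h3 h4 h5 h6 h7 h8 h9 h10
  refine ⟨⟨?_, ?_, ?_, ?_, ?_, ?_, ?_⟩, ?_, ?_⟩ <;> linarith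

lemma ranNy (hρ : 0 < ρ) {q : Qg} (h : Inn (uNy lo ρ) (vNy hi ρ) q) : K7.Ran' (3 / 2 * ρ) (14 * ρ) q := by
  obtain ⟨h1, h2, h3, h4, h5, h6, h7, h8, h9, h10⟩ := h
  simp only [uNy, vNy] at h1 h2 h3 h4 h5 h6 h7 h8 h9 h10
  refine ⟨⟨?_, ?_, ?_, ?_, ?_, ?_, ?_⟩, ?_, ?_⟩ <;> linarith

end num

/-! ### 3. one member -/

lemma qok_rg (hR : 0 < R) (hR2 : 0 < R2) {q : Qg} (h : QRg R R2 q) : QOk q := by
  obtain ⟨h1, h2, h3, h4, h5, h6, h7, h8⟩ := h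
  constructor <;> linarith

lemma zN01 (c : ℝ) (N : ℕ) (x : W3 × ℕ) : zN c N x = 0 ∨ zN c N x = 1 := by
  unfold zN
  split_ifs
  · exact Or.inr rfl
  · exact Or.inl rfl

lemma zN_ok {c : ℝ} (hc : 0 ≤ c) : Zok (zN c) := ⟨zN01 c, fun N _ hx => zN_root hc N hx⟩

/-- locality for smaller diameters -/
lemma locS_mono {R R2 z f lo hi rl sl rr sr rl' sl' : ℝ} {T T' : LSym} {k k' : Arm} {X X' : Set CC.Gm} {β Xc Xx β' Xc' Xx' : CC.Gm → ℝ}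
    (hr : rl ≤ rl') (hs : sl ≤ sl') (h : LocS R R2 z f lo hi rl' sl' rr sr T k X β Xc Xx T' k' X' β' Xc' Xx') :
    LocS R R2 z f lo hi rl sl rr sr T k X β Xc Xx T' k' X' β' Xc' Xx' := by
  intro g hg g' hg' t e t' e' a1 a2 a3 a4 a5 a6 a7 a8 a9 a10 a11 a12 a13 a14 a15 a16 ⟨δ, hδ, h1⟩ ⟨δ', hδ', h2⟩ a19 a20
  exact h g hg g' hg' t e t' e' a1 a2 a3 a4 a5 a6 a7 a8 a9 a10 a11 a12 a13 a14 a15 a16
    ⟨δ, hδ, fun x y b1 b2 b3 b4 => (h1 x y b1 b2 b3 b4).trans_le hr⟩ ⟨δ', hδ', fun x y b1 b2 b3 b4 => (h2 x y b1 b2 b3 b4).trans_le hs⟩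
    a19 a20

/-- the curves on which the marks of one strand are good, the factor is positive -/
theorem good_one (hQB : QB) (hb : 0 ≤ b) (hU : (U : Filter ℕ) ≤ atTop) (hC : Cv (U : Filter ℕ) (fun N => mwE N b) cN PG)
    (hP : ∀ᵐ g ∂PG, 0 < g.2.1 ∧ g.2.1 < g.1) (hS0 : ∀ N, 0 < S N) (hS : ∀ᶠ N : ℕ in (U : Filter ℕ), S N = N)
    (hR : 0 < R) (hR2 : 0 < R2) (hc0 : 0 ≤ c0) (hA : ∀ κ, ArcS U b κ T S R c0)
    {L D1 D2 D3 D4 D5 : Set ℝ} (hud : Ud R R2 L D1 D2 D3 D4 D5)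
    (hg : ∀ κ : Arm, ∀ q ∈ QP L D1 D2 D3 D4 D5,
      Gt1 (U : Filter ℕ) (fun N => mwE N b) cN (fun _ x => (aW κ T x).length) (fun _ x => (aW κ T x).get) S R
        q.a q.r q.ρ (fun _ _ => 0) (zN c0) ∧
      Gt2 (U : Filter ℕ) (fun N => mwE N b) cN (fun _ x => (aW κ T x).length) (fun _ x => (aW κ T x).get) S R R2
        q.a q.r q.ρ q.m q.r2 q.ρ2 (fun _ _ => 0) (zN c0))
    {w u v : Qg} (cr : Cor R R2 u v) {K K2 : ℝ} (hK : 0 < K) (hK2 : 0 < K2) (hran : ∀ q : Qg, Inn u v q → K7.Ran' K K2 q) (hw : Inn u v w) (w1 : w.r < w.ρ) (w2 : w.r2 < w.ρ2) {Z : CC.Gm → ℝ}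
    (lz : Lm (U : Filter ℕ) (fun N => mwE N b) cN PG (zN c0) Z) {y : Arm → ℕ → W3 × ℕ → ℝ} {β Xc Xx : Arm → CC.Gm → ℝ}
    (lb : ∀ κ, Lm (U : Filter ℕ) (fun N => mwE N b) cN PG (y κ) (β κ))
    (f1 : ∀ κ, Gt1 (U : Filter ℕ) (fun N => mwE N b) cN (fun _ x => (aW κ T x).length) (fun _ x => (aW κ T x).get) S R
      w.a w.r w.ρ (y κ) (zN c0))
    (f2 : ∀ κ, Gt2 (U : Filter ℕ) (fun N => mwE N b) cN (fun _ x => (aW κ T x).length) (fun _ x => (aW κ T x).get) S R R2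
      w.a w.r w.ρ w.m w.r2 w.ρ2 (y κ) (zN c0))
    (lc : ∀ κ, Lm (U : Filter ℕ) (fun N => mwE N b) cN PG
      (fun N x => mk1 (Dv (aW κ T x).get (y κ N x * S N)) w.a w.r w.ρ (S N) (aW κ T x).get * zN c0 N x) (Xc κ))
    (lx : ∀ κ, Lm (U : Filter ℕ) (fun N => mwE N b) cN PG
      (fun N x => mkB (Dv (aW κ T x).get (y κ N x * S N)) w.a w.r w.ρ w.m w.r2 w.ρ2 (S N) (aW κ T x).get * zN c0 N x) (Xx κ)) :
    ∃ Gs : Set CC.Gm, (∀ᵐ g ∂PG, g ∈ Gs) ∧ ∀ X : Set CC.Gm, X ⊆ Gs → (∀ g ∈ X, 0 < Z g) →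
      ∀ z rl sl rr sr : ℝ, u.r ≤ rl → rl < w.r → u.r2 ≤ sl → sl < w.r2 → rr + 2 * z ≤ rl → sr + 2 * z ≤ sl → z + K / 8 < u.a →
        ∀ κ κ', LocS K K2 z w.a u.a v.a rl sl rr sr T κ X (β κ) (Xc κ) (Xx κ) T κ' X (β κ') (Xc κ') (Xx κ') := by
  obtain ⟨Gj, hG⟩ := K7.good_seq hQB hb hK hK2
  have hsub : ∀ q ∈ QS u v L D1 D2 D3 D4 D5, QRg R R2 q := fun q hq => hud.rg (qs_sub hq)
  have h1 : ∀ κ, ∀ᵐ g ∂PG, LSt U Gj (QS u v L D1 D2 D3 D4 D5) T κ (zN c0) Z w (β κ) (Xc κ) (Xx κ) g := fun κ => by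
    obtain ⟨Φc, Φx, m1, m2, m3⟩ := gt_cfm hC (qs_cnt hud) hS (hA κ).ws (fun q hq => (hg κ q (qs_sub hq)).1)
      fun q hq => (hg κ q (qs_sub hq)).2
    obtain ⟨m4, m5⟩ := m3 w R hR w1 w2 (by linarith [hw.r', cr.r']) (y κ) (β κ) (Xc κ) (Xx κ) (lb κ) (f1 κ).st (f2 κ).st (lc κ) (lx κ)
    exact lst_ae hG hU hC hP (qs_cnt hud) (fun q hq => qok_rg hR hR2 (hsub q hq)) (zN_ok hc0) lz m1 m2 m4 m5
  refine ⟨{g | ∀ κ, LSt U Gj (QS u v L D1 D2 D3 D4 D5) T κ (zN c0) Z w (β κ) (Xc κ) (Xx κ) g}, ae_all_iff.2 h1,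
    fun X hX hZ z rl sl rr sr a1 a2 a3 a4 a5 a6 a7 κ κ' => ?_⟩
  obtain ⟨rl', sl', δ, e1, e2, hN⟩ := ud_net0 hud cr hw a1 a2 a3 a4
  exact locS_mono e1.le e2.le (locS_of hG hU hK hK2 hN (fun q hq => hran q (qs_in hq).2) (fun q hq => (qs_in hq).1.1.le) a7
    (by linarith) (by linarith) (zN01 c0) (zN01 c0) (fun g hg' => ⟨hX hg' κ, hZ g hg'⟩) fun g hg' => ⟨hX hg' κ', hZ g hg'⟩)

/-- **the gates of one member are local**: generic scales; `b κ` = limits of the bases `y κ` -/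
theorem mem_gen (hQB : QB) (hb : 0 ≤ b) (hU : (U : Filter ℕ) ≤ atTop) (hC : Cv (U : Filter ℕ) (fun N => mwE N b) cN PG)
    (hP : ∀ᵐ g ∂PG, 0 < g.2.1 ∧ g.2.1 < g.1) (hS0 : ∀ N, 0 < S N) (hS : ∀ᶠ N : ℕ in (U : Filter ℕ), S N = N)
    (hR : 0 < R) (hR2 : 0 < R2) (hR3 : 0 < R3) (hc0 : 0 ≤ c0) (hA : ∀ κ, ArcS U b κ T S R c0) (hA2 : ∀ κ, ArcS U b κ T S R2 c0)
    (hA3 : ∀ κ, ArcS U b κ T S R3 c0) {ux vx uy vy : Qg} (cx : Cor R R2 ux vx) (cy : Cor R R3 uy vy) {K K2 K3 : ℝ}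
    (hK : 0 < K) (hK2 : 0 < K2) (hK3 : 0 < K3) (hrx : ∀ q : Qg, Inn ux vx q → K7.Ran' K K2 q)
    (hry : ∀ q : Qg, Inn uy vy q → K7.Ran' K K3 q) (ix : Inn ux vx (wX G)) (iy : Inn uy vy (wY G)) (hl : uy.a = ux.a) (hh : vy.a = vx.a) (hm : 0 < G.m)
    {y : Arm → ℕ → W3 × ℕ → ℝ} {β : Arm → CC.Gm → ℝ} (lb : ∀ κ, Lm (U : Filter ℕ) (fun N => mwE N b) cN PG (y κ) (β κ))
    (sg : ∀ κ, SGd U b PG S c0 R R2 R3 κ T (y κ) G) {B : Arm → Set CC.Gm} {c x : Arm → CC.Gm → ℝ}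
    (ai : ∀ κ, CK.AI1 (U : Filter ℕ) b PG κ (fun N x => c0 < dst N x ∧ sgE G T (y κ N x) N κ x)
      (fun N x => sgc G T (y κ N x) N κ x) (fun N x => sgx G T (y κ N x) N κ x) (B κ) (c κ) (x κ)) :
    ∃ (Xc Xx Xy : Arm → CC.Gm → ℝ) (Gs : Set CC.Gm), (∀ᵐ g ∂PG, g ∈ Gs) ∧
      ∀ X : Set CC.Gm, X ⊆ Gs → (∀ g ∈ X, c0 < ‖g.2.2 (pji (CK.muG g))‖) → ∀ z rl sl rr sr : ℝ,
        ux.r ≤ rl → uy.r ≤ rl → rl < G.r1 → ux.r2 ≤ sl → sl < G.r1' → uy.r2 ≤ sl → sl < G.r1'' → rr + 2 * z ≤ rl →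
        sr + 2 * z ≤ sl → z + K / 8 < ux.a →
        (∀ κ, ∀ g ∈ X, GMk (B κ) (c κ) (x κ) (β κ) T κ G.l G.m (Xc κ) (Xx κ) (Xy κ) g) ∧
        (∀ κ κ', LocS K K2 z G.l ux.a vx.a rl sl rr sr T κ X (β κ) (Xc κ) (Xx κ) T κ' X (β κ') (Xc κ') (Xx κ')) ∧
        ∀ κ κ', LocS K K3 z G.l ux.a vx.a rl sl rr sr T κ X (β κ) (Xc κ) (Xy κ) T κ' X (β κ') (Xc κ') (Xy κ') := by
  -- limits of the marks
  have hlim := fun κ => sgd_lims hC (sg κ)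
  choose Xc Xx Xy lc lx ly using hlim
  obtain ⟨Z, lz⟩ := (hA .fp).zl.l1f.lim hC
  have lz : Lm (U : Filter ℕ) (fun N => mwE N b) cN PG (zN c0) Z := lz
  -- orders of the parameters
  have i1 := ix.r'; have i2 := ix.ρ; have i3 := ix.r2'; have i4 := ix.ρ2
  have j1 := iy.r'; have j2 := iy.ρ; have j3 := iy.r2'; have j4 := iy.ρ2
  have k1 := cx.r'; have k2 := cx.ρ; have k3 := cx.r2'; have k4 := cx.ρ2
  have k5 := cy.r'; have k6 := cy.ρ; have k7 := cy.r2'; have k8 := cy.ρ2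
  have w1 : (wX G).r < (wX G).ρ := by linarith
  have w2 : (wX G).r2 < (wX G).ρ2 := by linarith
  have w3 : (wY G).r < (wY G).ρ := by linarith
  have w4 : (wY G).r2 < (wY G).ρ2 := by linarith
  have w5 : (wX G).r ≤ 2 * R := by linarith
  have w6 : (wY G).r2 ≤ 2 * R3 := by linarith
  -- the universal parameters
  obtain ⟨L, D1, D2, D3, D4, D5, hud⟩ := net_univ (J := Arm) (K := Bool) (U := U) (b := b) (k := fun κ => κ) (T := fun _ => T)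
    (S := fun _ => S) (R := R) (c := c0) (R2 := fun e => cond e R3 R2) (p := fun _ _ _ => 0) hR
    (fun e => by cases e; exacts [hR2, hR3]) hA (fun e κ => by cases e; exacts [hA2 κ, hA3 κ]) (fun _ => L1A.const 0)
    (fun _ _ _ => le_rfl)
  obtain ⟨Gx, hGx, hx⟩ := good_one hQB hb hU hC hP hS0 hS hR hR2 hc0 hA (hud false).1 (fun κ q hq => (hud false).2 κ q hq) cx hK hK2
    hrx ix w1 w2 lz lb (fun κ => (sg κ).gc) (fun κ => (sg κ).gx) lc lx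
  obtain ⟨Gy, hGy, hy⟩ := good_one hQB hb hU hC hP hS0 hS hR hR3 hc0 hA (hud true).1 (fun κ q hq => (hud true).2 κ q hq) cy hK hK3
    hry iy w3 w4 lz lb (fun κ => (sg κ).gc) (fun κ => (sg κ).gy) lc ly
  have hg : ∀ κ, ∀ᵐ g ∂PG, 0 < Z g → GMk (B κ) (c κ) (x κ) (β κ) T κ G.l G.m (Xc κ) (Xx κ) (Xy κ) g := fun κ =>
    gmk_sgd hU hC hP hS0 hS hR hR3 hm (by
      have := iy.m
      have := cy.m
      show 0 < (wY G).m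
      linarith) w5 w1.le w2.le w6 w4.le (sg κ) (ai κ) (lc κ) (lx κ) (ly κ) (lb κ) lz
  have hZ := CK.z_ae hU hC (hP.mono fun y hy => hy.1.trans hy.2) lz
  refine ⟨Xc, Xx, Xy, {g | g ∈ Gx ∧ g ∈ Gy ∧ (∀ κ, 0 < Z g → GMk (B κ) (c κ) (x κ) (β κ) T κ G.l G.m (Xc κ) (Xx κ) (Xy κ) g) ∧
    (c0 < ‖g.2.2 (pji (CK.muG g))‖ → Z g = 1)}, ?_, fun X hX hr z rl sl rr sr a1 a2 a3 a4 a5 a6 a7 a8 a9 a10 => ?_⟩
  · filter_upwards [hGx, hGy, ae_all_iff.2 hg, hZ] with g g1 g2 g3 g4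
    exact ⟨g1, g2, g3, g4⟩
  · have hZX : ∀ g ∈ X, 0 < Z g := fun g hg' => by
      rw [(hX hg').2.2.2 (hr g hg')]
      exact one_pos
    refine ⟨fun κ g hg' => (hX hg').2.2.1 κ (hZX g hg'), fun κ κ' => ?_, fun κ κ' => ?_⟩
    · exact hx X (fun g hg' => (hX hg').1) hZX z rl sl rr sr a1 a3 a4 a5 a8 a9 a10 κ κ'
    · have := hy X (fun g hg' => (hX hg').2.1) hZX z rl sl rr sr a2 a3 a6 a7 a8 a9 (by rw [hl]; exact a10) κ κ'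
      rw [hl, hh] at this
      exact this

end Pool.Agent.ROT.F3.LR
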