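import Pool.Agent.NTS.Base

/-!
# ROT / F3Lst (helper82): walks as lists of letters; the frame of the rows F1, F2 of ROT/F3_PLAN

A walk from an even vertex = the list of its letters, the step number `i` with the letter `a` is `step i a` (as in `saw`).
`ps w k` = vertex number `k`, `en w` = last vertex. Pieces of even length: `en (u ++ v) = en u + en v`,
`ps u.reverse k = ps u (|u| - k) - en u`. `SW w` : self-avoiding; `Cl w` : closed word (even number of letters, last vertex = 0,
the other vertices are distinct). Dictionaries: `ps_ofFn`, `SW_ofFn`, `Cl_pol`.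
-/

set_option autoImplicit false

namespace Pool.Agent.ROT.F3

open Finset
open Pool.Agent.NTS.Res (step pos saw fug)

/-- the letters of a walk from an even vertex -/
abbrev W3 := List (Fin 3)

/-- the step number `i` (0 behind the end) -/
noncomputable def st (w : W3) (i : ℕ) : ℂ := if h : i < w.length then step i (w.get ⟨i, h⟩) else 0

/-- the vertex number `k` -/
noncomputable def ps (w : W3) (k : ℕ) : ℂ := ∑ i ∈ range k, st w i

/-- the last vertex -/
noncomputable def en (w : W3) : ℂ := ps w w.length

/-- self-avoiding -/
def SW (w : W3) : Prop := ∀ j k : ℕ, j ≤ w.length → k ≤ w.length → ps w j = ps w k → j = k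

/-- closed words -/
def Cl (w : W3) : Prop := Even w.length ∧ en w = 0 ∧ ∀ j k : ℕ, j < w.length → k < w.length → ps w j = ps w k → j = k

/-! ### steps and vertices -/

lemma st_of_lt {w : W3} {i : ℕ} (h : i < w.length) : st w i = step i (w.get ⟨i, h⟩) := dif_pos h

lemma st_of_le {w : W3} {i : ℕ} (h : w.length ≤ i) : st w i = 0 := dif_neg (by omega)

@[simp] lemma ps_zero (w : W3) : ps w 0 = 0 := by simp [ps]

lemma ps_succ (w : W3) (k : ℕ) : ps w (k + 1) = ps w k + st w k := by
  unfold ps
  rw [sum_range_succ]

@[simp] lemma ps_nil (k : ℕ) : ps [] k = 0 := by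
  unfold ps
  exact sum_eq_zero fun i _ => st_of_le (by simp)

@[simp] lemma en_nil : en [] = 0 := ps_nil _

lemma step_add {m : ℕ} (hm : Even m) (i : ℕ) (a : Fin 3) : step (m + i) a = step i a := by
  unfold step
  rw [pow_add, hm.neg_one_pow, one_mul]

lemma st_append_left {u v : W3} {i : ℕ} (h : i < u.length) : st (u ++ v) i = st u i := by
  rw [st_of_lt h, st_of_lt (by rw [List.length_append]; omega)]
  congr 1
  simp [List.getElem_append_left h]

lemma st_append_right {u v : W3} (hu : Even u.length) (i : ℕ) : st (u ++ v) (u.length + i) = st v i := by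
  by_cases h : i < v.length
  · rw [st_of_lt h, st_of_lt (by rw [List.length_append]; omega), step_add hu]
    congr 1
    simp
  · rw [st_of_le (w := u ++ v) (by rw [List.length_append]; omega), st_of_le (w := v) (by omega)]

lemma ps_append_left {u v : W3} {k : ℕ} (h : k ≤ u.length) : ps (u ++ v) k = ps u k :=
  sum_congr rfl fun i hi => st_append_left (by have := mem_range.1 hi; omega)

lemma ps_append_right {u v : W3} (hu : Even u.length) (k : ℕ) : ps (u ++ v) (u.length + k) = en u + ps v k := by
  unfold en
  induction k with
  | zero => rw [add_zero, ps_append_left le_rfl, ps_zero, add_zero]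
  | succ k ih => rw [← add_assoc, ps_succ, ih, st_append_right hu, ps_succ]; ring

lemma ps_append_right' {u v : W3} (hu : Even u.length) {k : ℕ} (h : u.length ≤ k) :
    ps (u ++ v) k = en u + ps v (k - u.length) := by
  rw [← ps_append_right hu]
  congr 1
  omega

lemma en_append {u v : W3} (hu : Even u.length) : en (u ++ v) = en u + en v := by
  rw [show en (u ++ v) = ps (u ++ v) (u.length + v.length) by rw [en, List.length_append], ps_append_right hu, ← en]

lemma ps_append_drop (w : W3) {k : ℕ} (hk : k ≤ w.length) (he : Even k) (j : ℕ) :
    ps (w.drop k) j = ps w (k + j) - ps w k := by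
  have hl : (w.take k).length = k := by rw [List.length_take]; omega
  have h := ps_append_right (u := w.take k) (v := w.drop k) (by rw [hl]; exact he) j
  rw [List.take_append_drop, hl] at h
  have h2 : en (w.take k) = ps w k := by
    conv_rhs => rw [← List.take_append_drop k w]
    rw [ps_append_left hl.ge, en, hl]
  rw [h, h2]
  ring

lemma ps_take (w : W3) {k j : ℕ} (hj : j ≤ k) (hk : k ≤ w.length) : ps (w.take k) j = ps w j := by
  conv_rhs => rw [← List.take_append_drop k w]
  rw [ps_append_left (by rw [List.length_take]; omega)]

lemma en_take (w : W3) {k : ℕ} (hk : k ≤ w.length) : en (w.take k) = ps w k := by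
  rw [en, List.length_take, min_eq_left hk, ps_take w le_rfl hk]

/-! ### reversal -/

lemma st_reverse {u : W3} (hu : Even u.length) {i : ℕ} (h : i < u.length) : st u.reverse i = -st u (u.length - 1 - i) := by
  rw [st_of_lt (by rw [List.length_reverse]; exact h), st_of_lt (w := u) (by omega)]
  have h1 : u.reverse.get ⟨i, by rw [List.length_reverse]; exact h⟩ = u.get ⟨u.length - 1 - i, by omega⟩ := by
    simp [List.getElem_reverse]
  rw [h1]
  unfold step
  have h2 : (-1 : ℂ) ^ i = -(-1 : ℂ) ^ (u.length - 1 - i) := by
    have h3 : (-1 : ℂ) ^ i * (-1 : ℂ) ^ (u.length - 1 - i) * (-1) = 1 := by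
      rw [← pow_add, ← pow_succ, show i + (u.length - 1 - i) + 1 = u.length by omega, hu.neg_one_pow]
    have h4 : (-1 : ℂ) ^ (u.length - 1 - i) * (-1 : ℂ) ^ (u.length - 1 - i) = 1 := by
      rw [← pow_add, ← two_mul, pow_mul]
      simp
    calc (-1 : ℂ) ^ i = (-1 : ℂ) ^ i * ((-1 : ℂ) ^ (u.length - 1 - i) * (-1 : ℂ) ^ (u.length - 1 - i)) := by rw [h4, mul_one]
      _ = ((-1 : ℂ) ^ i * (-1 : ℂ) ^ (u.length - 1 - i) * (-1)) * (-(-1 : ℂ) ^ (u.length - 1 - i)) := by ring
      _ = _ := by rw [h3, one_mul]
  rw [h2]
  ring

lemma ps_reverse {u : W3} (hu : Even u.length) {k : ℕ} (h : k ≤ u.length) : ps u.reverse k = ps u (u.length - k) - en u := by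
  induction k with
  | zero => rw [ps_zero, Nat.sub_zero, en, sub_self]
  | succ k ih =>
    rw [ps_succ, ih (by omega), st_reverse hu (by omega)]
    have : ps u (u.length - k) = ps u (u.length - (k + 1)) + st u (u.length - 1 - k) := by
      rw [show u.length - k = (u.length - (k + 1)) + 1 by omega, ps_succ]
      congr 2
      omega
    rw [this]
    ring

lemma en_reverse {u : W3} (hu : Even u.length) : en u.reverse = -en u := by
  rw [en, List.length_reverse, ps_reverse hu le_rfl, Nat.sub_self, ps_zero, zero_sub]

lemma SW_reverse {u : W3} (hu : Even u.length) : SW u.reverse ↔ SW u := by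
  have key : ∀ v : W3, Even v.length → SW v → SW v.reverse := by
    intro v hv h j k hj hk he
    rw [List.length_reverse] at hj hk
    rw [ps_reverse hv hj, ps_reverse hv hk, sub_left_inj] at he
    have := h _ _ (by omega) (by omega) he
    omega
  refine ⟨fun h => ?_, key u hu⟩
  have := key u.reverse (by rw [List.length_reverse]; exact hu) h
  rwa [List.reverse_reverse] at this

/-! ### self-avoiding words -/

lemma SW_nil : SW [] := by
  intro j k hj hk _
  simp only [List.length_nil, Nat.le_zero] at hj hk
  omega

lemma SW_append {u v : W3} (hu : Even u.length) :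
    SW (u ++ v) ↔ SW u ∧ SW v ∧ ∀ j k : ℕ, j < u.length → k ≤ v.length → ps u j ≠ en u + ps v k := by
  constructor
  · intro h
    refine ⟨fun j k hj hk he => h j k (by rw [List.length_append]; omega) (by rw [List.length_append]; omega) ?_,
      fun j k hj hk he => ?_, fun j k hj hk he => ?_⟩
    · rw [ps_append_left hj, ps_append_left hk, he]
    · have := h (u.length + j) (u.length + k) (by rw [List.length_append]; omega) (by rw [List.length_append]; omega)
        (by rw [ps_append_right hu, ps_append_right hu, he])
      omega
    · have := h j (u.length + k) (by rw [List.length_append]; omega) (by rw [List.length_append]; omega)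
        (by rw [ps_append_left hj.le, ps_append_right hu, he])
      omega
  · rintro ⟨h1, h2, h3⟩ j k hj hk he
    rw [List.length_append] at hj hk
    rcases lt_or_ge j u.length with hju | hju <;> rcases lt_or_ge k u.length with hku | hku
    · rw [ps_append_left hju.le, ps_append_left hku.le] at he
      exact h1 j k hju.le hku.le he
    · rw [ps_append_left hju.le, ps_append_right' hu hku] at he
      exact absurd he (h3 j _ hju (by omega))
    · rw [ps_append_left hku.le, ps_append_right' hu hju] at he
      exact absurd he.symm (h3 k _ hku (by omega))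
    · rw [ps_append_right' hu hju, ps_append_right' hu hku] at he
      have := h2 _ _ (by omega) (by omega) (add_left_cancel he)
      omega

/-! ### half open injectivity -/

/-- the vertices `0 .. |w| - 1` are distinct -/
def HI (w : W3) : Prop := ∀ j k : ℕ, j < w.length → k < w.length → ps w j = ps w k → j = k

lemma SW.hi {w : W3} (h : SW w) : HI w := fun j k hj hk he => h j k hj.le hk.le he

lemma HI_append {u v : W3} (hu : Even u.length) :
    HI (u ++ v) ↔ HI u ∧ HI v ∧ ∀ j k : ℕ, j < u.length → k < v.length → ps u j ≠ en u + ps v k := by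
  constructor
  · intro h
    refine ⟨fun j k hj hk he => h j k (by rw [List.length_append]; omega) (by rw [List.length_append]; omega) ?_,
      fun j k hj hk he => ?_, fun j k hj hk he => ?_⟩
    · rw [ps_append_left hj.le, ps_append_left hk.le, he]
    · have := h (u.length + j) (u.length + k) (by rw [List.length_append]; omega) (by rw [List.length_append]; omega)
        (by rw [ps_append_right hu, ps_append_right hu, he])
      omega
    · have := h j (u.length + k) (by rw [List.length_append]; omega) (by rw [List.length_append]; omega)
        (by rw [ps_append_left hj.le, ps_append_right hu, he])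
      omega
  · rintro ⟨h1, h2, h3⟩ j k hj hk he
    rw [List.length_append] at hj hk
    rcases lt_or_ge j u.length with hju | hju <;> rcases lt_or_ge k u.length with hku | hku
    · rw [ps_append_left hju.le, ps_append_left hku.le] at he
      exact h1 j k hju hku he
    · rw [ps_append_left hju.le, ps_append_right' hu hku] at he
      exact absurd he (h3 j _ hju (by omega))
    · rw [ps_append_left hku.le, ps_append_right' hu hju] at he
      exact absurd he.symm (h3 k _ hku (by omega))
    · rw [ps_append_right' hu hju, ps_append_right' hu hku] at he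
      have := h2 _ _ (by omega) (by omega) (add_left_cancel he)
      omega

lemma Cl_iff {w : W3} : Cl w ↔ Even w.length ∧ en w = 0 ∧ HI w := Iff.rfl

/-! ### dictionaries -/

lemma st_ofFn {n : ℕ} (s : Fin n → Fin 3) {i : ℕ} (h : i < n) : st (List.ofFn s) i = step i (s ⟨i, h⟩) := by
  rw [st_of_lt (by rw [List.length_ofFn]; exact h)]
  congr 1
  simp

lemma ps_ofFn {n : ℕ} (s : Fin n → Fin 3) (k : ℕ) : ps (List.ofFn s) k = pos s k := by
  have h1 : ∀ k, k ≤ n → ps (List.ofFn s) k = pos s k := by
    intro k
    induction k with
    | zero => intro _; rw [ps_zero, NTSF.pos_zero]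
    | succ k ih => intro hk; rw [ps_succ, ih (by omega), NTSF.pos_succ s k (by omega), st_ofFn s (by omega)]
  rcases le_or_gt k n with hk | hk
  · exact h1 k hk
  · have h2 : ps (List.ofFn s) k = ps (List.ofFn s) n := by
      unfold ps
      refine (sum_subset (range_subset_range.2 hk.le) fun i _ hi => st_of_le ?_).symm
      rw [List.length_ofFn]
      simpa using hi
    have h3 : pos s k = pos s n := by
      unfold pos
      congr 1
      ext i
      simp only [mem_filter, mem_univ, true_and]
      have := i.2
      constructor <;> intro <;> omega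
    rw [h2, h3, h1 n le_rfl]

lemma SW_ofFn {n : ℕ} (s : Fin n → Fin 3) : SW (List.ofFn s) ↔ s ∈ saw n := by
  rw [NTSF.mem_saw]
  unfold SW
  simp only [List.length_ofFn, ps_ofFn]

end Pool.Agent.ROT.F3
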