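import Pool.Agent.ROT.F3MacB
import Pool.Agent.SCF.MacT
import Pool.Agent.SCF.MdTm

/-!
# F3, row C1-W (helper59): the first start gate is a functional of the curve, `macT0 : MacT0`

For every EXACT large `n`, every scale `R` (in units of the size), every test function `H (curve) (time of the gate)`: the average over
the grid of the parameters of `H` at the start gate is, up to `ε` in the mean, a Lipschitz functional of the curve (with the factor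
`zc`: the last `κ n` steps are far away from the start). `M1` and `n0` do not depend on `H`.
-/

set_option autoImplicit false

open Set Filter Topology MeasureTheory

namespace Pool.Agent.SCF.M

open Pool.Agent.NTS.Res
open Pool.Agent.CRT (CI)
open Pool.Agent.CRT.V.VC (pr pr_or pr_mono)
open Pool.Agent.SCF.Z

/-- **C1-W** for the size `D` (`DG` : diameter, `LG` : level), the ranges `B` of the parameters at the scale `R` -/
def MacT0 : Prop := ∀ D : SzT, Sz D → ∀ (R κ K : ℝ) (B : Box), 0 < R → B.Ok R → 0 < κ → κ < 1 → 0 ≤ K → ∀ ε : ℝ, 0 < ε →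
  ∃ M1 n0 : ℕ, ∀ M : ℕ, M1 ≤ M → 1 ≤ M → ∀ H : CI → ℝ → ℝ, TestH K H →
    ∃ (φ : CI → ℝ) (K' : NNReal), LipschitzWith K' φ ∧ (∀ γ, |φ γ| ≤ 1) ∧ ∀ n : ℕ, n0 ≤ n →
      ∑ s ∈ saw n, |ps0 D M B (size n) H s * zc κ (1000 * R) (curve s) - φ (curve s)| ≤ ε * ((saw n).card : ℝ)

theorem macT0_of (hMd : MdP) (hSt : StbP) : MacT0 := by
  intro D hD R κ K B hR hB hκ hκ1 hK ε hε
  have he : 0 < ε / 3 := by positivity
  have he4 : 0 < ε / 3 / 4 := by positivity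
  choose! ηf hη0 hη1 using fun ω hω => hMd (ε / 3 / 4) ω he4 hω
  obtain ⟨ω2, ω3, ω4, θ, M1, n1, hω2, hω3, hω4, hθ, hcmp⟩ := ps0C hD hR hK he hB ηf hη0
  obtain ⟨δ, n2, Bad, hδ, hBad, hstb⟩ := hSt R κ θ (ε / 3 / 4) hR hκ hκ1 hθ he4
  obtain ⟨n0, hn0⟩ : ∃ n0 : ℕ, n0 = max (max n1 n2) 1 := ⟨_, rfl⟩
  have hsz : ∀ n : ℕ, 0 ≤ size n := fun n => by
    unfold size
    positivity
  have hn1 : ∀ n : ℕ, n0 ≤ n → n1 ≤ n := fun n h => by omega
  have hn2 : ∀ n : ℕ, n0 ≤ n → n2 ≤ n := fun n h => by omega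
  have hn3 : ∀ n : ℕ, n0 ≤ n → 1 ≤ n := fun n h => by omega
  refine ⟨M1, n0, fun M hM1 hM0 H hH => ?_⟩
  obtain ⟨φ, K', h1, h2, h3⟩ := mcs_zc (p := fun n s => ps0 D M B (size n) H s)
    (fun n s => ps0_nn hH) (fun n s => ps0_le hB hR.le (hsz n) hH)
    (ζ := zc κ (1000 * R)) (fun γ => SCF.tr_nonneg _) (fun γ => SCF.tr_le _) (L := 1 / (1000 * R)) (by positivity)
    (fun γ γ' => zc_lip hκ (by positivity) γ γ') (ε := ε / 3) (δ := min δ θ) he (lt_min hδ hθ) (n0 := n0)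
    (Bad := fun n s => ((¬ Md (ηf ω2) ω2 s ∨ ¬ Md (ηf ω3) ω3 s) ∨ ¬ Md (ηf ω4) ω4 s) ∨ Bad n s) (by
      intro n hn
      have a1 := hη1 ω2 hω2 n (hn3 n hn)
      have a2 := hη1 ω3 hω3 n (hn3 n hn)
      have a3 := hη1 ω4 hω4 n (hn3 n hn)
      have a4 := hBad n (hn2 n hn)
      have b1 : pr n (fun s => (((¬ Md (ηf ω2) ω2 s ∨ ¬ Md (ηf ω3) ω3 s) ∨ ¬ Md (ηf ω4) ω4 s) ∨ Bad n s) ∧
          0 < zc κ (1000 * R) (curve s)) ≤
          pr n (fun s => (¬ Md (ηf ω2) ω2 s ∨ ¬ Md (ηf ω3) ω3 s) ∨ ¬ Md (ηf ω4) ω4 s) +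
            pr n (fun s => Bad n s ∧ 0 < zc κ (1000 * R) (curve s)) :=
        pr_or fun s _ h => by
          rcases h with ⟨h | h, h'⟩
          · exact Or.inl h
          · exact Or.inr ⟨h, h'⟩
      have b2 : pr n (fun s => (¬ Md (ηf ω2) ω2 s ∨ ¬ Md (ηf ω3) ω3 s) ∨ ¬ Md (ηf ω4) ω4 s) ≤
          pr n (fun s => ¬ Md (ηf ω2) ω2 s ∨ ¬ Md (ηf ω3) ω3 s) + pr n (fun s => ¬ Md (ηf ω4) ω4 s) :=
        pr_or fun s _ h => h
      have b3 : pr n (fun s => ¬ Md (ηf ω2) ω2 s ∨ ¬ Md (ηf ω3) ω3 s) ≤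
          pr n (fun s => ¬ Md (ηf ω2) ω2 s) + pr n (fun s => ¬ Md (ηf ω3) ω3 s) :=
        pr_or fun s _ h => h
      linarith) (by
      intro n n' s s' hn hn' hs hs' hBd hBd' hz hz' hd
      push Not at hBd hBd'
      obtain ⟨⟨⟨m1, m2⟩, m3⟩, hb⟩ := hBd
      obtain ⟨⟨⟨m1', m2'⟩, m3'⟩, hb'⟩ := hBd'
      have hd1 : dist (curve s) (curve s') ≤ δ := hd.trans (min_le_left _ _)
      have hd2 : dist (curve s) (curve s') ≤ θ := hd.trans (min_le_right _ _)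
      exact hcmp M hM1 hM0 H hH n n' s s' (hn1 n hn) (hn1 n' hn') m1' m2' m3'
        (hstb n n' s s' (hn2 n hn) (hn2 n' hn') hs hs' hb hb' hz hz' hd1)
        (hstb n' n s' s (hn2 n' hn') (hn2 n hn) hs' hs hb' hb hz' hz (by rwa [dist_comm])) hd2)
  refine ⟨φ, K', h1, h2, fun n hn => ?_⟩
  have := h3 n hn
  calc _ ≤ _ := this
    _ = _ := by ring

/-- **C1-W, no hypothesis** -/
theorem macT0 : MacT0 := macT0_of mdP (stbP_of Pool.Agent.SCF.K.badN)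

end Pool.Agent.SCF.M
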