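import Pool.Agent.SCF.MacE

/-!
# F3, row C1-W, geometry (helper59, after helper66's MacC, MacD): a start gate of `s` gives a start gate of `s'`

* `Sz D` : the measures of the size of a start piece which are allowed (`DmG` : diameter, `LvG` : level of its end);
* `TD D a r ρ s k` : start gate: `k` is the FIRST cut of its own prefix of size at least `a` (`TD DG = T0` of ScaleFlow);
* **`td_close`**: `s`, `s'` close, stability both ways, `TD` for `s` at `k`; if the first times (and the numbers of squares) of `s'` do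
  not jump near the parameter `a` then `TD` holds for `s'` at `k'`, with almost the same radii, at almost the same time.
-/

set_option autoImplicit false

open Set Filter Topology MeasureTheory

namespace Pool.Agent.SCF.M

open Pool.Agent.NTS.Res
open Pool.Agent.CRT (CI)
open Pool.Agent.SCF.Z

/-! ### closeness up to a time -/

/-- closeness of two walks up to the time `τ`, in units of their sizes (`2 ≤ τ`: all times) -/
def ClT (τ β ν : ℝ) {n n' : ℕ} (s : Fin n → Fin 3) (s' : Fin n' → Fin 3) : Prop :=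
  ∀ i i' : ℕ, i ≤ n → i' ≤ n' → (i : ℝ) / n ≤ τ → (i' : ℝ) / n' ≤ τ → |(i : ℝ) / n - (i' : ℝ) / n'| ≤ β →
    ‖pos s i / (size n : ℂ) - pos s' i' / (size n' : ℂ)‖ ≤ ν

lemma Cl.clT {β ν : ℝ} {n n' : ℕ} {s : Fin n → Fin 3} {s' : Fin n' → Fin 3} (h : Cl β ν s s') (τ : ℝ) : ClT τ β ν s s' :=
  fun i i' h1 h2 _ _ h3 => h i i' h1 h2 h3

lemma ClT.symm {τ β ν : ℝ} {n n' : ℕ} {s : Fin n → Fin 3} {s' : Fin n' → Fin 3} (h : ClT τ β ν s s') : ClT τ β ν s' s :=
  fun i i' h1 h2 t1 t2 h3 => by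
    rw [norm_sub_rev]
    exact h i' i h2 h1 t2 t1 (by rwa [abs_sub_comm])

section

variable {n n' : ℕ} {s : Fin n → Fin 3} {s' : Fin n' → Fin 3} {τ β ν t : ℝ}

lemma dvt (hn : 1 ≤ n) {i j : ℕ} (h : i ≤ j) {x : ℝ} (hx : (j : ℝ) / n ≤ x) : (i : ℝ) / n ≤ x :=
  (div_le_div_of_nonneg_right (by exact_mod_cast h) (by positivity)).trans hx

lemma conf_trL (hn : 1 ≤ n) (hn' : 1 ≤ n') (hC : ClT τ β ν s s') (ht : 0 ≤ t) (hb : t + 1 / n ≤ β) {c c' : ℕ} (hc : c ≤ n)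
    (hc' : c' ≤ n') (hcτ : (c : ℝ) / n ≤ τ) (hcτ' : (c' : ℝ) / n' ≤ τ)
    (h : |(c : ℝ) / n - (c' : ℝ) / n'| ≤ t) {D : ℝ} (hD : ∀ i : ℕ, i ≤ c → ‖pos s i‖ ≤ D * size n) :
    ∀ i : ℕ, i ≤ c' → ‖pos s' i‖ ≤ (D + ν) * size n' := by
  intro i hi
  obtain ⟨j, -, h1, h2⟩ := tm_mid (k := 0) (k2 := c') (k' := 0) (k2' := c) (i := i) hn' hn ht (Nat.zero_le _) (by simpa using ht)
    (by rwa [abs_sub_comm] at h) (Nat.zero_le _) hi
  have h3 := hC j i (h1.trans hc) (hi.trans hc') (dvt hn h1 hcτ) (dvt hn' hi hcτ') (by rw [abs_sub_comm]; exact h2.trans hb)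
  rw [← X_le0 hn']
  have h4 := (X_le0 hn).2 (hD j h1)
  calc ‖pos s' i / (size n' : ℂ)‖ = ‖pos s j / (size n : ℂ) - (pos s j / (size n : ℂ) - pos s' i / (size n' : ℂ))‖ := by
        congr 1; ring
    _ ≤ D + ν := (norm_sub_le _ _).trans (add_le_add h4 h3)

lemma diam_trL (hn : 1 ≤ n) (hn' : 1 ≤ n') (hC : ClT τ β ν s s') (ht : 0 ≤ t) (hb : t + 1 / n ≤ β) {c c' : ℕ} (hc : c ≤ n)
    (hc' : c' ≤ n') (hcτ : (c : ℝ) / n ≤ τ) (hcτ' : (c' : ℝ) / n' ≤ τ)
    (h : |(c : ℝ) / n - (c' : ℝ) / n'| ≤ t) {D : ℝ} (hD : ∀ i j : ℕ, i ≤ c → j ≤ c → ‖pos s i - pos s j‖ ≤ D * size n) :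
    ∀ i j : ℕ, i ≤ c' → j ≤ c' → ‖pos s' i - pos s' j‖ ≤ (D + 2 * ν) * size n' := by
  intro i j hi hj
  obtain ⟨i1, -, h1, h2⟩ := tm_mid (k := 0) (k2 := c') (k' := 0) (k2' := c) (i := i) hn' hn ht (Nat.zero_le _) (by simpa using ht)
    (by rwa [abs_sub_comm] at h) (Nat.zero_le _) hi
  obtain ⟨j1, -, g1, g2⟩ := tm_mid (k := 0) (k2 := c') (k' := 0) (k2' := c) (i := j) hn' hn ht (Nat.zero_le _) (by simpa using ht)
    (by rwa [abs_sub_comm] at h) (Nat.zero_le _) hj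
  have h3 := hC i1 i (h1.trans hc) (hi.trans hc') (dvt hn h1 hcτ) (dvt hn' hi hcτ') (by rw [abs_sub_comm]; exact h2.trans hb)
  have g3 := hC j1 j (g1.trans hc) (hj.trans hc') (dvt hn g1 hcτ) (dvt hn' hj hcτ') (by rw [abs_sub_comm]; exact g2.trans hb)
  rw [← X_le hn']
  have h4 := (X_le hn).2 (hD i1 j1 h1 g1)
  calc ‖pos s' i / (size n' : ℂ) - pos s' j / (size n' : ℂ)‖ = ‖(pos s i1 / (size n : ℂ) - pos s j1 / (size n : ℂ)) -
        (pos s i1 / (size n : ℂ) - pos s' i / (size n' : ℂ)) + (pos s j1 / (size n : ℂ) - pos s' j / (size n' : ℂ))‖ := by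
        congr 1; ring
    _ ≤ D + ν + ν := (norm_add_le _ _).trans (add_le_add ((norm_sub_le _ _).trans (add_le_add h4 h3)) g3)
    _ = D + 2 * ν := by ring

lemma dm_trL (hn : 1 ≤ n) (hn' : 1 ≤ n') (hC : ClT τ β ν s s') (ht : 0 ≤ t) (hb : t + 1 / n' ≤ β) {c c' : ℕ} (hc : c ≤ n)
    (hc' : c' ≤ n') (hcτ : (c : ℝ) / n ≤ τ) (hcτ' : (c' : ℝ) / n' ≤ τ)
    (h : |(c : ℝ) / n - (c' : ℝ) / n'| ≤ t) {a : ℝ} (hD : DmG (a * size n) s c) : DmG ((a - 2 * ν) * size n') s' c' := by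
  obtain ⟨i, j, hi, hj, hij⟩ := hD
  obtain ⟨i1, -, h1, h2⟩ := tm_mid (k := 0) (k2 := c) (k' := 0) (k2' := c') (i := i) hn hn' ht (Nat.zero_le _) (by simpa using ht)
    h (Nat.zero_le _) hi
  obtain ⟨j1, -, g1, g2⟩ := tm_mid (k := 0) (k2 := c) (k' := 0) (k2' := c') (i := j) hn hn' ht (Nat.zero_le _) (by simpa using ht)
    h (Nat.zero_le _) hj
  have h3 := hC i i1 (hi.trans hc) (h1.trans hc') (dvt hn hi hcτ) (dvt hn' h1 hcτ') (h2.trans hb)
  have g3 := hC j j1 (hj.trans hc) (g1.trans hc') (dvt hn hj hcτ) (dvt hn' g1 hcτ') (g2.trans hb)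
  refine ⟨i1, j1, h1, g1, ?_⟩
  rw [← X_ge hn']
  have h4 := (X_ge hn).2 hij
  have h5 : ‖pos s i / (size n : ℂ) - pos s j / (size n : ℂ)‖ ≤ ν + ‖pos s' i1 / (size n' : ℂ) - pos s' j1 / (size n' : ℂ)‖ + ν := by
    calc ‖pos s i / (size n : ℂ) - pos s j / (size n : ℂ)‖ = ‖(pos s i / (size n : ℂ) - pos s' i1 / (size n' : ℂ)) +
          (pos s' i1 / (size n' : ℂ) - pos s' j1 / (size n' : ℂ)) - (pos s j / (size n : ℂ) - pos s' j1 / (size n' : ℂ))‖ := by
          congr 1; ring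
      _ ≤ _ := (norm_sub_le _ _).trans (add_le_add ((norm_add_le _ _).trans (add_le_add h3 le_rfl)) g3)
  linarith

/-- a start cut of `s'` near a start cut of `s` -/
lemma mateL {R θ a : ℝ} (hn : 1 ≤ n) (hn' : 1 ≤ n') (hR : 0 < R) (hC : ClT τ β ν s s') (hS : Stb R θ s s') (hθ : 0 < θ)
    (hθR : θ ≤ R / 8) (hν : ν ≤ R / 32) (hb : θ + 1 / n ≤ β) (hb' : θ + 1 / n' ≤ β) {ρc : ℝ} {c : ℕ} (hρ1 : 41 * R ≤ ρc)
    (hρ2 : ρc ≤ 130 * R) (hc : SC (ρc * size n) s c) (hcτ : (c : ℝ) / n + θ ≤ τ)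
    (hD : ∀ i : ℕ, i ≤ c → ‖pos s i‖ ≤ 9 / 4 * R * size n) (ha : R / 4 ≤ a) (hdm : DmG (a * size n) s c) :
    ∃ c' : ℕ, SC ((ρc - θ) * size n') s' c' ∧ IA (R * size n') s' c' ∧ |(c : ℝ) / n - (c' : ℝ) / n'| ≤ θ ∧
      ‖pos s c / (size n : ℂ) - pos s' c' / (size n' : ℂ)‖ ≤ θ := by
  have hs := NTSF.size_pos hn
  have hs' := NTSF.size_pos hn'
  obtain ⟨c', h1, h2, h3⟩ := hS ρc c (by linarith) hρ2 hc (fun i hi => (hD i hi).trans
    (mul_le_mul_of_nonneg_right (by linarith) hs.le)) (dmg_mono hdm (mul_le_mul_of_nonneg_right (by linarith) hs.le) le_rfl)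
  have h2' := abs_le.1 h2
  have h4 := conf_trL hn hn' hC hθ.le hb hc.lt.le h1.lt.le (by linarith) (by linarith) h2 hD
  have h5 := dm_trL hn hn' hC hθ.le hb' hc.lt.le h1.lt.le (by linarith) (by linarith) h2 hdm
  refine ⟨c', h1, ⟨h1.mono ?_, fun i hi => (h4 i hi).trans ?_, dmg_mono h5 ?_ le_rfl⟩, h2, h3⟩
  · rw [← mul_assoc]
    exact mul_le_mul_of_nonneg_right (by linarith) hs'.le
  · rw [← mul_assoc]
    exact mul_le_mul_of_nonneg_right (by linarith) hs'.le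
  · have e : R * size n' / 8 = R / 8 * size n' := by ring
    rw [e]
    exact mul_le_mul_of_nonneg_right (by linarith) hs'.le

end

/-- the size of the start piece `w[0, k]` -/
abbrev SzT := ℝ → ∀ n : ℕ, (Fin n → Fin 3) → ℕ → Prop

/-- **the allowed measures of the size of a start piece** -/
structure Sz (D : SzT) : Prop where
  anti : ∀ {a a' : ℝ} {n : ℕ} {s : Fin n → Fin 3} {k : ℕ}, D a n s k → a' ≤ a → D a' n s k
  dm : ∀ {a : ℝ} {n : ℕ} {s : Fin n → Fin 3} {k : ℕ}, D a n s k → DmG a s k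
  tr : ∀ {n n' : ℕ} {s : Fin n → Fin 3} {s' : Fin n' → Fin 3} {τ β ν t : ℝ}, 1 ≤ n → 1 ≤ n' → ClT τ β ν s s' → 0 ≤ ν → 0 ≤ t →
    t + 1 / n' ≤ β → ∀ {c c' : ℕ}, c ≤ n → c' ≤ n' → (c : ℝ) / n ≤ τ → (c' : ℝ) / n' ≤ τ → |(c : ℝ) / n - (c' : ℝ) / n'| ≤ t →
      ∀ {a : ℝ}, D (a * size n) n s c → D ((a - 2 * ν) * size n') n' s' c'

/-- the diameter -/
def DG : SzT := fun a _ s k => DmG a s k

/-- the level of the end -/
def LG : SzT := fun a _ s k => a ≤ (pos s k).re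

lemma sz_DG : Sz DG where
  anti h ha := dmg_mono h ha le_rfl
  dm h := h
  tr hn hn' hC _ ht hb _ _ hc hc' hτ hτ' h _ hD := dm_trL hn hn' hC ht hb hc hc' hτ hτ' h hD

lemma sz_LG : Sz LG where
  anti h ha := ha.trans h
  dm {a n s k} h := by
    refine ⟨k, 0, le_rfl, Nat.zero_le _, ?_⟩
    rw [NTSF.pos_zero, sub_zero]
    exact (show a ≤ (pos s k).re from h).trans ((le_abs_self _).trans (Complex.abs_re_le_norm _))
  tr {n n' s s' τ β ν t} hn hn' hC hν ht hb {c c'} hc hc' hτ hτ' h {a} hD := by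
    have hs := NTSF.size_pos hn
    have hs' := NTSF.size_pos hn'
    have hn0' : (0 : ℝ) < n' := by exact_mod_cast hn'
    have h0 : (0 : ℝ) < 1 / n' := by positivity
    have h1 := hC c c' hc hc' hτ hτ' (h.trans (by linarith))
    have h2 : |(pos s c).re / size n - (pos s' c').re / size n'| ≤ ν := by
      rw [← X_re, ← X_re, ← Complex.sub_re]
      exact (Complex.abs_re_le_norm _).trans h1
    have h3 : a ≤ (pos s c).re / size n := by
      rw [le_div_iff₀ hs]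
      exact hD
    show (a - 2 * ν) * size n' ≤ (pos s' c').re
    rw [← le_div_iff₀ hs']
    have h4 := (abs_le.1 h2).2
    linarith

/-- **start gate** for the size `D` -/
def TD (D : SzT) (a r ρ : ℝ) {n : ℕ} (s : Fin n → Fin 3) (k : ℕ) : Prop :=
  (Even k ∧ (∀ i : ℕ, i ≤ k → (pos s i).re ≤ (pos s k).re) ∧ (∀ i j : ℕ, i ≤ k → j ≤ k → ‖pos s i - pos s j‖ ≤ r) ∧
    D a n s k ∧ ∀ k' : ℕ, SCut s 0 k' k → ¬ D a n s k') ∧ GC ρ s k

lemma td_DG {a r ρ : ℝ} {n : ℕ} {s : Fin n → Fin 3} {k : ℕ} : TD DG a r ρ s k ↔ T0 a r ρ s k := Iff.rfl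

section

variable {D : SzT} {n : ℕ} {s : Fin n → Fin 3} {R a r ρ : ℝ} {k : ℕ}

lemma td_conf (hn : 1 ≤ n) (hR : 0 ≤ R) (hr : r ≤ 2 * R) (ht : TD D (a * size n) (r * size n) (ρ * size n) s k) :
    ∀ i : ℕ, i ≤ k → ‖pos s i‖ ≤ 9 / 4 * R * size n := by
  have hs := NTSF.size_pos hn
  intro i hi
  have h1 := ht.1.2.2.1 i 0 hi (Nat.zero_le _)
  rw [NTSF.pos_zero, sub_zero] at h1
  refine h1.trans (mul_le_mul_of_nonneg_right (by linarith) hs.le)

lemma td_sc {a r ρ : ℝ} (ht : TD D a r ρ s k) : SC ρ s k := ⟨ht.1.1, ht.1.2.1, ht.2⟩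

/-- there is at most one start gate -/
theorem td_unique {a r ρ : ℝ} (hr : r ≤ ρ) {k k' : ℕ} (h : TD D a r ρ s k) (h' : TD D a r ρ s k') : k = k' := by
  have key : ∀ {k k' : ℕ}, TD D a r ρ s k → TD D a r ρ s k' → ¬ k < k' := fun {k k'} h h' hk =>
    h'.1.2.2.2.2 k ⟨Nat.zero_le _, hk, h.1.1, h.2.2.1, fun i _ hi => h.1.2.1 i hi, fun j hj hj' =>
      h.2.2.2 j hj (hj'.trans h'.2.1.le) ((h'.1.2.2.1 j k hj' hk.le).trans hr)⟩ h.1.2.2.2.1
  exact le_antisymm (not_lt.1 (key h' h)) (not_lt.1 (key h h'))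

/-- a start gate from the first cut -/
theorem td_of_first {a r ρ : ℝ} (hD : Sz D) (ha : R / 8 ≤ a) (hρ : 46 * R ≤ ρ) (hk : IA R s k) (hka : D a n s k)
    (hkm : ∀ c, c < k → ¬ (IA R s c ∧ D a n s c)) (hrad : SC ρ s k)
    (hr : ∀ i j : ℕ, i ≤ k → j ≤ k → ‖pos s i - pos s j‖ ≤ r) : TD D a r ρ s k := by
  refine ⟨⟨hk.1.1, hk.1.2.1, hr, hka, fun c hc hd => ?_⟩, hrad.2.2⟩
  exact hkm c hc.2.1 ⟨⟨(hrad.pre hc hk.2.1).mono (by linarith), fun i hi => hk.2.1 i (hi.trans hc.2.1.le),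
    dmg_mono (hD.dm hd) ha le_rfl⟩, hd⟩

/-- the start cuts with a start piece of size at least `a` (units of the size) -/
def PD (D : SzT) (R a : ℝ) {n : ℕ} (s : Fin n → Fin 3) (c : ℕ) : Prop := IA (R * size n) s c ∧ D (a * size n) n s c

lemma pd_mono (hD : Sz D) {R : ℝ} {n : ℕ} (hn : 1 ≤ n) (s : Fin n → Fin 3) : Monotone fun a => ft n (PD D R a s) := fun a b hab =>
  ft_mono hn (fun _ hc => ⟨hc.1, hD.anti hc.2 (mul_le_mul_of_nonneg_right hab (NTSF.size_pos hn).le)⟩) fun _ hc => hc.1.le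

/-- the number of squares is monotone in `a` -/
lemma qfd_mono (hD : Sz D) {R w Q : ℝ} (hR : 0 < R) {n : ℕ} (hn : 1 ≤ n) (s : Fin n → Fin 3)
    (hQ : ∀ c : ℕ, ((VS (140 * R * size n) (w * size n) s c).card : ℝ) ≤ Q) :
    Monotone fun x => qf (Q + 1) (fun c => ((VS (140 * R * size n) (w * size n) s c).card : ℝ)) (PD D R x s) := by
  classical
  intro x y hxy
  have hs := NTSF.size_pos hn
  have hle : ∀ c, PD D R y s c → PD D R x s c := fun c hc =>
    ⟨hc.1, hD.anti hc.2 (mul_le_mul_of_nonneg_right hxy hs.le)⟩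
  show qf _ _ (PD D R x s) ≤ qf _ _ (PD D R y s)
  by_cases h : ∃ c, PD D R y s c
  · have h' : ∃ c, PD D R x s c := ⟨_, hle _ (Nat.find_spec h)⟩
    rw [qf_of (Nat.find_spec h) fun c' hc' => Nat.find_min h hc', qf_of (Nat.find_spec h') fun c' hc' => Nat.find_min h' hc']
    have h1 : Nat.find h' ≤ Nat.find h := Nat.find_min' h' (hle _ (Nat.find_spec h))
    have h2 : Nat.find h' = Nat.find h ∨ SCut s 0 (Nat.find h') (Nat.find h) := by
      rcases eq_or_lt_of_le h1 with h3 | h3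
      · exact Or.inl h3
      · exact Or.inr ((Nat.find_spec h').1.scut (mul_pos hR hs) (Nat.find_spec h).1 h3)
    exact_mod_cast Finset.card_le_card (vs_mono h2)
  · rw [qf_no h]
    by_cases h' : ∃ c, PD D R x s c
    · rw [qf_of (Nat.find_spec h') fun c' hc' => Nat.find_min h' hc']
      have := hQ (Nat.find h')
      linarith
    · rw [qf_no h']

lemma qfd_bd {D : SzT} {R w Q : ℝ} (hQ0 : 0 ≤ Q) {n : ℕ} (s : Fin n → Fin 3)
    (hQ : ∀ c : ℕ, ((VS (140 * R * size n) (w * size n) s c).card : ℝ) ≤ Q) (x : ℝ) :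
    0 ≤ qf (Q + 1) (fun c => ((VS (140 * R * size n) (w * size n) s c).card : ℝ)) (PD D R x s) ∧
      qf (Q + 1) (fun c => ((VS (140 * R * size n) (w * size n) s c).card : ℝ)) (PD D R x s) ≤ Q + 1 := by
  classical
  by_cases h' : ∃ c, PD D R x s c
  · rw [qf_of (Nat.find_spec h') fun c' hc' => Nat.find_min h' hc']
    have := hQ (Nat.find h')
    exact ⟨Nat.cast_nonneg _, by linarith⟩
  · rw [qf_no h']
    exact ⟨by linarith, le_rfl⟩

end

/-- **a start gate of `s` gives one of `s'`** -/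
theorem td_close {D : SzT} (hD : Sz D) {n n' : ℕ} {s : Fin n → Fin 3} {s' : Fin n' → Fin 3} {R θ τ βa νa βb νb μ μ3 η1 w Q a r ρ : ℝ}
    {k : ℕ} (hn : 1 ≤ n) (hn' : 1 ≤ n') (hR : 0 < R) (hCa : ClT τ βa νa s s')
    (hCb : ClT τ βb νb s s') (hS : Stb R θ s s') (hS' : Stb R θ s' s)
    (hθ : 0 < θ) (hθR : θ ≤ R / 8) (hν0 : 0 ≤ νb) (hν : νb ≤ R / 32) (hb : θ + 1 / n ≤ βb) (hb' : θ + 1 / n' ≤ βb) (hμ : 2 * νb ≤ μ) (hμ0 : 0 ≤ μ)
    (hη1 : 0 ≤ η1) (hba : θ + η1 + 1 / n ≤ βa) (hw : 0 < w) (hμ3 : 2 * w + νa + 2 * θ ≤ μ3)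
    (hμ3' : 2 * νa ≤ μ3) (hμ30 : 0 ≤ μ3) (hμ3R : μ3 ≤ R) (ha : R / 4 ≤ a) (hr : r ≤ 2 * R)
    (hρ : 64 * R ≤ ρ) (hρ2 : ρ ≤ 128 * R) (hlt : θ + η1 < 1)
    (ht : TD D (a * size n) (r * size n) (ρ * size n) s k) (hkτ : (k : ℝ) / n + 2 * (θ + η1) ≤ τ)
    (hQ : ∀ c : ℕ, ((VS (140 * R * size n') (w * size n') s' c).card : ℝ) ≤ Q)
    (g1 : ft n' (PD D R (a + μ) s') - ft n' (PD D R (a - μ) s') ≤ η1)
    (g2 : qf (Q + 1) (fun c => ((VS (140 * R * size n') (w * size n') s' c).card : ℝ)) (PD D R (a + μ) s') -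
        qf (Q + 1) (fun c => ((VS (140 * R * size n') (w * size n') s' c).card : ℝ)) (PD D R (a - μ) s') < 1) :
    ∃ k' : ℕ, TD D (a * size n') ((r + μ3) * size n') ((ρ - μ3) * size n') s' k' ∧
      |(k : ℝ) / n - (k' : ℝ) / n'| ≤ θ + η1 := by
  have hs := NTSF.size_pos hn
  have hs' := NTSF.size_pos hn'
  have hn0 : (0 : ℝ) < n := by exact_mod_cast hn
  have hn0' : (0 : ℝ) < n' := by exact_mod_cast hn'
  have hRs' : 0 < R * size n' := mul_pos hR hs'
  have hkn : k < n := ht.2.1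
  have hconf := td_conf hn hR.le hr ht
  have hfr : ∀ {P : ℕ → Prop}, (∀ c, P c → IA (R * size n') s' c) → ∀ c, P c → c ≤ n' := fun h c hc => (h c hc).le
  have tk2 : (k : ℝ) / n ≤ 1 := by
    rw [div_le_one hn0]
    exact_mod_cast hkn.le
  -- the mate
  obtain ⟨ks, m1, m2, m3, m4⟩ := mateL hn hn' hR hCb hS hθ hθR hν hb hb' (by linarith : 41 * R ≤ ρ) (by linarith)
    (td_sc ht) (by linarith) hconf ha (hD.dm ht.1.2.2.2.1)
  have m3' := abs_le.1 m3
  have m2' := hD.tr hn hn' hCb hν0 hθ.le hb' hkn.le m1.lt.le (by linarith) (by linarith) m3 ht.1.2.2.2.1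
  have hksD : ∀ i : ℕ, i ≤ ks → ‖pos s' i‖ ≤ 3 * R * size n' := fun i hi => (m2.2.1 i hi).trans (le_of_eq (by ring))
  have e1s : PD D R (a - μ) s' ks := ⟨m2, hD.anti m2' (mul_le_mul_of_nonneg_right (by linarith) hs'.le)⟩
  -- first times
  have u1 : ft n' (PD D R (a - μ) s') ≤ (k : ℝ) / n + θ := by
    refine (ft_of e1s).trans ?_
    linarith
  have u2 : (k : ℝ) / n - θ ≤ ft n' (PD D R (a + μ) s') := by
    refine le_ft (fun c' hc' => ?_) (by linarith)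
    rcases le_or_gt ks c' with h1 | h1
    · have h2 : (ks : ℝ) / n' ≤ (c' : ℝ) / n' := div_le_div_of_nonneg_right (by exact_mod_cast h1) hn0'.le
      linarith
    · obtain ⟨c, c1, c2, c3⟩ := back hn' hR hS' hn hθR hρ m1 hksD hc'.1 h1
      have c5 : (c' : ℝ) / n' ≤ (ks : ℝ) / n' := div_le_div_of_nonneg_right (by exact_mod_cast h1.le) hn0'.le
      have c6 := abs_le.1 c2
      have c4 := hD.tr hn' hn hCb.symm hν0 hθ.le hb hc'.1.le c1.lt.le (by linarith) (by linarith) c2 hc'.2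
      have h3 : k ≤ c := by
        by_contra hcc
        have hck : c < k := not_le.1 hcc
        have h4 : SCut s 0 c k := c1.scut hck hkn.le hconf (by
          have : 0 ≤ R * size n := mul_nonneg hR.le hs.le
          linarith)
        exact ht.1.2.2.2.2 c h4 (hD.anti c4 (mul_le_mul_of_nonneg_right (by linarith) hs.le))
      have h5 : (k : ℝ) / n ≤ (c : ℝ) / n := div_le_div_of_nonneg_right (by exact_mod_cast h3) hn0.le
      have c2' := abs_le.1 c2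
      linarith
  -- the first cut of `s'`
  have u3 : ft n' (PD D R a s') ≤ ft n' (PD D R (a + μ) s') :=
    ft_mono hn' (fun c hc => ⟨hc.1, hD.anti hc.2 (mul_le_mul_of_nonneg_right (by linarith) hs'.le)⟩) (hfr fun c hc => hc.1)
  have u4 : ft n' (PD D R (a - μ) s') ≤ ft n' (PD D R a s') :=
    ft_mono hn' (fun c hc => ⟨hc.1, hD.anti hc.2 (mul_le_mul_of_nonneg_right (by linarith) hs'.le)⟩) (hfr fun c hc => hc.1)
  obtain ⟨k', p1, p2, p3⟩ := ft_ex (show ft n' (PD D R a s') < 2 by linarith)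
  rw [p3] at u3 u4
  have za : |(k : ℝ) / n - (k' : ℝ) / n'| ≤ θ + η1 := by
    rw [abs_le]
    constructor <;> linarith
  have hinv : (0 : ℝ) < 1 / n := by positivity
  have za' := abs_le.1 za
  have zb := hCa k k' hkn.le p1.1.le (by linarith) (by linarith) (za.trans (by linarith))
  -- the squares
  have hVS : VS (140 * R * size n') (w * size n') s' k' ⊆ VS (140 * R * size n') (w * size n') s' ks := by
    obtain ⟨c1, d1, d2, -⟩ := ft_ex (show ft n' (PD D R (a - μ) s') < 2 by linarith)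
    have hex : ∃ c, PD D R (a + μ) s' c := by
      by_contra hno
      rw [qf_no hno, qf_of d1 d2] at g2
      have := hQ c1
      linarith
    obtain ⟨c2, e1, e2⟩ : ∃ c, PD D R (a + μ) s' c ∧ ∀ c', c' < c → ¬ PD D R (a + μ) s' c' := by
      classical
      exact ⟨Nat.find hex, Nat.find_spec hex, fun c' hc' => Nat.find_min hex hc'⟩
    rw [qf_of d1 d2, qf_of e1 e2] at g2
    have f1 : PD D R (a - μ) s' c2 := ⟨e1.1, hD.anti e1.2 (mul_le_mul_of_nonneg_right (by linarith) hs'.le)⟩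
    have f2 : PD D R a s' c2 := ⟨e1.1, hD.anti e1.2 (mul_le_mul_of_nonneg_right (by linarith) hs'.le)⟩
    have om : ∀ {c c' : ℕ}, IA (R * size n') s' c → IA (R * size n') s' c' → c ≤ c' →
        VS (140 * R * size n') (w * size n') s' c ⊆ VS (140 * R * size n') (w * size n') s' c' := by
      intro c c' i1 i2 i3
      refine vs_mono ?_
      rcases eq_or_lt_of_le i3 with i4 | i4
      · exact Or.inl i4
      · exact Or.inr (i1.scut hRs' i2 i4)
    have o1 : c1 ≤ c2 := by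
      by_contra hc
      exact d2 c2 (not_le.1 hc) f1
    have o2 : c1 ≤ ks := by
      by_contra hc
      exact d2 ks (not_le.1 hc) e1s
    have o3 : k' ≤ c2 := by
      by_contra hc
      exact p2 c2 (not_le.1 hc) f2
    have h1 := om d1.1 e1.1 o1
    have h2 : (VS (140 * R * size n') (w * size n') s' c2).card ≤ (VS (140 * R * size n') (w * size n') s' c1).card := by
      have : ((VS (140 * R * size n') (w * size n') s' c2).card : ℝ) < ((VS (140 * R * size n') (w * size n') s' c1).card : ℝ) + 1 := by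
        linarith
      have h3 : (VS (140 * R * size n') (w * size n') s' c2).card < (VS (140 * R * size n') (w * size n') s' c1).card + 1 := by
        exact_mod_cast this
      omega
    have h3 := Finset.eq_of_subset_of_card_le h1 h2
    refine (om p1.1 e1.1 o3).trans ?_
    rw [← h3]
    exact om d1.1 m2 o2
  -- the radius
  have hdist : ‖pos s' k' - pos s' ks‖ ≤ (νa + θ) * size n' := by
    rw [← X_le hn']
    calc ‖pos s' k' / (size n' : ℂ) - pos s' ks / (size n' : ℂ)‖ = ‖-(pos s k / (size n : ℂ) - pos s' k' / (size n' : ℂ)) +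
          (pos s k / (size n : ℂ) - pos s' ks / (size n' : ℂ))‖ := by congr 1; ring
      _ ≤ νa + θ := (norm_add_le _ _).trans (add_le_add (by rw [norm_neg]; exact zb) m4)
  have hrad : SC ((ρ - μ3) * size n') s' k' := by
    refine m1.of_vs (mul_pos hw hs') p1.1.1 hVS (p1.1.2.1 k' le_rfl) ?_ ?_
    · have h1 : (ρ - μ3 + 3 * R) * size n' ≤ 140 * R * size n' := mul_le_mul_of_nonneg_right (by linarith) hs'.le
      linarith
    · have h1 : (ρ - μ3 + 2 * w + (νa + θ)) * size n' ≤ (ρ - θ) * size n' := mul_le_mul_of_nonneg_right (by linarith) hs'.le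
      linarith
  -- the gate
  refine ⟨k', td_of_first hD (R := R * size n') ?_ ?_ p1.1 p1.2 p2 hrad ?_, za⟩
  · have h1 : R / 8 * size n' ≤ a * size n' := mul_le_mul_of_nonneg_right (by linarith) hs'.le
    linarith
  · have h1 : 46 * R * size n' ≤ (ρ - μ3) * size n' := mul_le_mul_of_nonneg_right (by linarith) hs'.le
    linarith
  · intro i j hi hj
    refine (diam_trL hn hn' hCa (by linarith : 0 ≤ θ + η1) (by linarith) hkn.le p1.1.le (by linarith) (by linarith) za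
      ht.1.2.2.1 i j hi hj).trans ?_
    exact mul_le_mul_of_nonneg_right (by linarith) hs'.le

end Pool.Agent.SCF.M
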