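import Pool.Agent.ROT.F3Mac
import Pool.Agent.ROT.F3Sym

/-!
# F3, row C1-W, the other directions (helper25)

The start gates in the direction `S.L 1 = ev (S.σ 0)` for a symmetry `S` of the lattice which fixes the root:

* `TDS S D a r ρ s k := TD D a r ρ (mpn S.inv s) k`, `in0S`, `ps0S`: the value of `H (curve s) (time)` at the gate;
* `ps0S_eq` : `ps0S S D M B N H (mpn S s) = ps0 D M B N (fun γ x => H (S.act γ) x) s`;
* **`macT0S : ∀ S, MacT0S S`** : `MacT0` in the direction of `S`;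
* geometry: `tds_iff` : the gate in terms of the levels `dt (pos s i) (ev (S.σ 0))`.
-/

set_option autoImplicit false

open Set Filter Topology MeasureTheory

namespace Pool.Agent.SCF.M

open Pool.Agent.NTS.Res
open Pool.Agent.CRT (CI)
open Pool.Agent.SCF.Z
open Pool.Agent.ROT.F3 (LSym mpn ev dt)

/-! ### the action on curves and test functions -/

lemma act_inv (S : LSym) (γ : CI) : S.act (S.inv.act γ) = γ := by
  ext t
  exact S.L_inv _

lemma inv_act (S : LSym) (γ : CI) : S.inv.act (S.act γ) = γ := by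
  ext t
  exact S.inv_L _

lemma zc_act (S : LSym) (κ c : ℝ) (γ : CI) : zc κ c (S.act γ) = zc κ c γ := by
  unfold zc
  have : (fun t : unitInterval => ‖S.act γ t‖) = fun t : unitInterval => ‖γ t‖ := by
    funext t
    rw [S.act_apply, LinearIsometryEquiv.norm_map]
  rw [this]

lemma TestH.act {K : ℝ} {H : CI → ℝ → ℝ} (h : TestH K H) (S : LSym) : TestH K fun γ x => H (S.act γ) x where
  nn γ x := h.nn _ _
  le γ x := h.le _ _
  lip γ γ' x x' δ hd := by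
    have := h.lip (S.act γ) (S.act γ') x x' δ fun t t' ht => by
      rw [S.act_apply, S.act_apply, ← map_sub, LinearIsometryEquiv.norm_map]
      exact hd t t' ht
    rwa [Pool.Agent.ROT.F3.act_dist] at this

/-! ### any functional of the walk -/

/-- the functional `f` after the inverse symmetry (a gate in the direction `1` becomes a gate in the direction `S.L 1`) -/
noncomputable def dirf (S : LSym) (f : (n : ℕ) → (Fin n → Fin 3) → ℝ) (n : ℕ) (s : Fin n → Fin 3) : ℝ := f n (mpn S.inv s)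

/-- **all walks**: distance of a functional to a function of the curve (`c` : any factor) -/
theorem dirf_eq (S : LSym) (f : (n : ℕ) → (Fin n → Fin 3) → ℝ) (φ : CI → ℝ) (n : ℕ) (c : ℝ) :
    ∑ s ∈ saw n, |dirf S f n s - φ (S.inv.act (c • curve s))| = ∑ s ∈ saw n, |f n s - φ (c • curve s)| := by
  rw [← Pool.Agent.ROT.F3.sum_mpn S.inv fun s => |f n s - φ (c • curve s)|]
  refine Finset.sum_congr rfl fun s _ => ?_
  unfold dirf
  rw [Pool.Agent.ROT.F3.curve_mpn]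
  congr 3
  ext t
  show S.inv.L (c • curve s t) = c • S.inv.L (curve s t)
  rw [map_smul]

/-- **all polygons** -/
theorem dirf_pol (S : LSym) (f : (n : ℕ) → (Fin n → Fin 3) → ℝ) (φ : CI → ℝ) (n : ℕ) (c : ℝ) :
    ∑ s ∈ Pool.Agent.PMA.Res.pol n, |dirf S f n s - φ (S.inv.act (c • curve s))| =
      ∑ s ∈ Pool.Agent.PMA.Res.pol n, |f n s - φ (c • curve s)| := by
  rw [← Pool.Agent.ROT.F3.sum_mpn_pol S.inv fun s => |f n s - φ (c • curve s)|]
  refine Finset.sum_congr rfl fun s _ => ?_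
  unfold dirf
  rw [Pool.Agent.ROT.F3.curve_mpn]
  congr 3
  ext t
  show S.inv.L (c • curve s t) = c • S.inv.L (curve s t)
  rw [map_smul]

/-- plain form -/
theorem dirf_eq1 (S : LSym) (f : (n : ℕ) → (Fin n → Fin 3) → ℝ) (φ : CI → ℝ) (n : ℕ) :
    ∑ s ∈ saw n, |dirf S f n s - φ (S.inv.act (curve s))| = ∑ s ∈ saw n, |f n s - φ (curve s)| := by
  have := dirf_eq S f φ n 1
  simpa only [one_smul] using this

/-! ### gates in the direction of `S` -/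

/-- the start gate in the direction of `S` -/
def TDS (S : LSym) (D : SzT) (a r ρ : ℝ) {n : ℕ} (s : Fin n → Fin 3) (k : ℕ) : Prop := TD D a r ρ (mpn S.inv s) k

open Classical in
/-- the value at the start gate in the direction of `S` -/
noncomputable def in0S (S : LSym) (D : SzT) (a r ρ : ℝ) (H : CI → ℝ → ℝ) {n : ℕ} (s : Fin n → Fin 3) : ℝ :=
  ∑ k ∈ Finset.range (n + 1), if TDS S D a r ρ s k then H (curve s) ((k : ℝ) / n) else 0

/-- the average over the grid, unit of length `N` -/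
noncomputable def ps0S (S : LSym) (D : SzT) (M : ℕ) (B : Box) (N : ℝ) (H : CI → ℝ → ℝ) {n : ℕ} (s : Fin n → Fin 3) : ℝ :=
  (∑ i2 ∈ Finset.range M, ∑ i3 ∈ Finset.range M, ∑ i5 ∈ Finset.range M,
    in0S S D (gp M B.a0 B.a1 i3 * N) (gp M B.r0 B.r1 i2 * N) (gp M B.p0 B.p1 i5 * N) H s) / (M : ℝ) ^ 3

lemma in0S_eq (S : LSym) (D : SzT) (a r ρ : ℝ) (H : CI → ℝ → ℝ) {n : ℕ} (s : Fin n → Fin 3) :
    in0S S D a r ρ H s = in0 D a r ρ (fun γ x => H (S.act γ) x) (mpn S.inv s) := by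
  unfold in0S in0
  refine Finset.sum_congr rfl fun k _ => ?_
  rw [Pool.Agent.ROT.F3.curve_mpn]
  simp only [act_inv]
  rfl

lemma ps0S_eq (S : LSym) (D : SzT) (M : ℕ) (B : Box) (N : ℝ) (H : CI → ℝ → ℝ) {n : ℕ} (s : Fin n → Fin 3) :
    ps0S S D M B N H s = ps0 D M B N (fun γ x => H (S.act γ) x) (mpn S.inv s) := by
  unfold ps0S ps0
  simp only [in0S_eq]

/-- **C1-W** in the direction of `S` -/
def MacT0S (S : LSym) : Prop := ∀ D : SzT, Sz D → ∀ (R κ K : ℝ) (B : Box), 0 < R → B.Ok R → 0 < κ → κ < 1 → 0 ≤ K → ∀ ε : ℝ,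
  0 < ε → ∃ M1 n0 : ℕ, ∀ M : ℕ, M1 ≤ M → 1 ≤ M → ∀ H : CI → ℝ → ℝ, TestH K H →
    ∃ (φ : CI → ℝ) (K' : NNReal), LipschitzWith K' φ ∧ (∀ γ, |φ γ| ≤ 1) ∧ ∀ n : ℕ, n0 ≤ n →
      ∑ s ∈ saw n, |ps0S S D M B (size n) H s * zc κ (1000 * R) (curve s) - φ (curve s)| ≤ ε * ((saw n).card : ℝ)

/-- **C1-W in all directions, no hypothesis** -/
theorem macT0S (S : LSym) : MacT0S S := by
  intro D hD R κ K B hR hB hκ hκ1 hK ε hε
  obtain ⟨M1, n0, h⟩ := macT0 D hD R κ K B hR hB hκ hκ1 hK ε hε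
  refine ⟨M1, n0, fun M hM hM1 H hH => ?_⟩
  obtain ⟨φ, K', h1, h2, h3⟩ := h M hM hM1 (fun γ x => H (S.act γ) x) (hH.act S)
  refine ⟨fun γ => φ (S.inv.act γ), K', Pool.Agent.ROT.F3.act_lip S.inv h1, fun γ => h2 _, fun n hn => ?_⟩
  refine le_trans (le_of_eq ?_) (h3 n hn)
  rw [← Pool.Agent.ROT.F3.sum_mpn S.inv fun s => |ps0 D M B (size n) (fun γ x => H (S.act γ) x) s *
    zc κ (1000 * R) (curve s) - φ (curve s)|]
  refine Finset.sum_congr rfl fun s _ => ?_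
  rw [ps0S_eq, Pool.Agent.ROT.F3.curve_mpn, zc_act]

/-! ### geometry -/

lemma re_inv (S : LSym) (z : ℂ) : (S.inv.L z).re = dt z (ev (S.σ 0)) := by
  rw [← Pool.Agent.ROT.F3.L_ev, ← S.L_inv z, Pool.Agent.ROT.F3.dt_map, Pool.Agent.ROT.F3.ev_zero, Pool.Agent.ROT.F3.dt_one,
    S.L_inv z]

lemma re_pos (S : LSym) {n : ℕ} (s : Fin n → Fin 3) (k : ℕ) : (pos (mpn S.inv s) k).re = dt (pos s k) (ev (S.σ 0)) := by
  rw [Pool.Agent.ROT.F3.pos_mpn, re_inv]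

lemma dist_pos (S : LSym) {n : ℕ} (s : Fin n → Fin 3) (i j : ℕ) :
    ‖pos (mpn S s) i - pos (mpn S s) j‖ = ‖pos s i - pos s j‖ := by
  rw [Pool.Agent.ROT.F3.pos_mpn, Pool.Agent.ROT.F3.pos_mpn, ← map_sub, LinearIsometryEquiv.norm_map]

lemma step_pos (S : LSym) {n : ℕ} (s : Fin n → Fin 3) (k : ℕ) :
    pos (mpn S.inv s) (k + 1) = pos (mpn S.inv s) k + 1 ↔ pos s (k + 1) = pos s k + ev (S.σ 0) := by
  rw [Pool.Agent.ROT.F3.pos_mpn, Pool.Agent.ROT.F3.pos_mpn]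
  constructor
  · intro h
    have := congrArg S.L h
    rwa [map_add, S.L_inv, S.L_inv, show (1 : ℂ) = ev 0 from Pool.Agent.ROT.F3.ev_zero.symm, Pool.Agent.ROT.F3.L_ev] at this
  · intro h
    rw [h, map_add, ← Pool.Agent.ROT.F3.L_ev, S.inv_L, Pool.Agent.ROT.F3.ev_zero]

/-- a cut in the direction of `S` -/
lemma scut_iff (S : LSym) {n : ℕ} {s : Fin n → Fin 3} {a k' k : ℕ} : SCut (mpn S.inv s) a k' k ↔
    a ≤ k' ∧ k' < k ∧ Even k' ∧ pos s (k' + 1) = pos s k' + ev (S.σ 0) ∧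
      (∀ i : ℕ, a ≤ i → i ≤ k' → dt (pos s i) (ev (S.σ 0)) ≤ dt (pos s k') (ev (S.σ 0))) ∧
      ∀ j : ℕ, k' < j → j ≤ k → dt (pos s k') (ev (S.σ 0)) + 1 ≤ dt (pos s j) (ev (S.σ 0)) := by
  unfold SCut
  rw [step_pos]
  simp only [re_pos]

/-- the rest behind a gate in the direction of `S` -/
lemma gc_iff (S : LSym) {n : ℕ} {s : Fin n → Fin 3} {ρ : ℝ} {k : ℕ} : GC ρ (mpn S.inv s) k ↔
    k < n ∧ pos s (k + 1) = pos s k + ev (S.σ 0) ∧ ∀ j : ℕ, k < j → j ≤ n → ‖pos s j - pos s k‖ ≤ ρ →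
      dt (pos s k) (ev (S.σ 0)) + 1 ≤ dt (pos s j) (ev (S.σ 0)) := by
  unfold GC
  rw [step_pos]
  simp only [re_pos, dist_pos]

lemma dg_iff (S : LSym) {n : ℕ} {s : Fin n → Fin 3} {a : ℝ} {k : ℕ} : DG a n (mpn S.inv s) k ↔ DG a n s k := by
  unfold DG DmG
  simp only [dist_pos]

lemma lg_iff (S : LSym) {n : ℕ} {s : Fin n → Fin 3} {a : ℝ} {k : ℕ} :
    LG a n (mpn S.inv s) k ↔ a ≤ dt (pos s k) (ev (S.σ 0)) := by
  unfold LG
  rw [re_pos]

/-- **the gate in the direction of `S`**, explicitly -/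
theorem tds_iff (S : LSym) {D : SzT} {a r ρ : ℝ} {n : ℕ} {s : Fin n → Fin 3} {k : ℕ} : TDS S D a r ρ s k ↔
    (Even k ∧ (∀ i : ℕ, i ≤ k → dt (pos s i) (ev (S.σ 0)) ≤ dt (pos s k) (ev (S.σ 0))) ∧
      (∀ i j : ℕ, i ≤ k → j ≤ k → ‖pos s i - pos s j‖ ≤ r) ∧ D a n (mpn S.inv s) k ∧
      ∀ k' : ℕ, SCut (mpn S.inv s) 0 k' k → ¬ D a n (mpn S.inv s) k') ∧
    (k < n ∧ pos s (k + 1) = pos s k + ev (S.σ 0) ∧ ∀ j : ℕ, k < j → j ≤ n → ‖pos s j - pos s k‖ ≤ ρ →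
      dt (pos s k) (ev (S.σ 0)) + 1 ≤ dt (pos s j) (ev (S.σ 0))) := by
  unfold TDS TD
  rw [gc_iff]
  simp only [re_pos, dist_pos]

end Pool.Agent.SCF.M
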