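import Pool.Agent.ROT.F3MacS2
import Pool.Agent.SCF.StbLZ
import Pool.Agent.SCF.MdTm
import Pool.Agent.SCF.McS

/-!
# ROT, block F3, row W3: the first start gate is a functional of the curve, unit of length `S` free (helper66; after helper59's F3Mac)

* `mcsI` : McShane over any index set, explicit constant; `md_bd`, `clS_of` : closeness in the unit `S` from the curves;
* `ps0CS` : comparison of `ps0` for close curves (other numbers of steps, same unit);
* `stbS_of_A`, `stbS_LG` : stability in the unit `S` from `StbA`;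
* **`macTS : MacTS`** : for every unit `S` in `[size n / K0, size n]`, the Lipschitz constant depends neither on `M`, nor on `n`, `S`,
  `H`.
-/

set_option autoImplicit false

open Set Filter Topology MeasureTheory

namespace Pool.Agent.SCF.M

open Pool.Agent.NTS.Res
open Pool.Agent.CRT (CI)
open Pool.Agent.CRT.V.VC (pr pr_or pr_mono)
open Pool.Agent.SCF.Z

/-! ### McShane -/

/-- **McShane** over any index set -/
theorem mcsI {X I : Type*} [PseudoMetricSpace X] {c : I → X} {f : I → ℝ} (hf0 : ∀ i, 0 ≤ f i) (hf1 : ∀ i, f i ≤ 1) {ε δ : ℝ}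
    (hε : 0 ≤ ε) (hδ : 0 < δ) (h : ∀ i j, dist (c i) (c j) ≤ δ → f i ≤ f j + ε) :
    ∃ φ : X → ℝ, LipschitzWith (Real.toNNReal (1 / δ)) φ ∧ (∀ x, 0 ≤ φ x) ∧ (∀ x, φ x ≤ 1) ∧
      ∀ i, f i ≤ φ (c i) ∧ φ (c i) ≤ f i + ε := by
  obtain ⟨V, hV⟩ : ∃ V : X → Set ℝ, V = fun x => {y | y = 0 ∨ ∃ i, y = f i - dist x (c i) / δ} := ⟨_, rfl⟩
  have hne : ∀ x, (V x).Nonempty := fun x => ⟨0, by rw [hV]; exact Or.inl rfl⟩
  have hle : ∀ x, ∀ y ∈ V x, y ≤ 1 := by
    intro x y hy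
    rw [hV] at hy
    rcases hy with rfl | ⟨i, rfl⟩
    · exact zero_le_one
    · have h1 : 0 ≤ dist x (c i) / δ := div_nonneg dist_nonneg hδ.le
      linarith [hf1 i]
  have hbd : ∀ x, BddAbove (V x) := fun x => ⟨1, fun y hy => hle x y hy⟩
  have hlip : ∀ x x', sSup (V x) ≤ sSup (V x') + 1 / δ * dist x x' := by
    intro x x'
    have hd : 0 ≤ 1 / δ * dist x x' := by positivity
    refine csSup_le (hne x) fun y hy => ?_
    rw [hV] at hy
    rcases hy with rfl | ⟨i, rfl⟩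
    · have : (0 : ℝ) ≤ sSup (V x') := le_csSup (hbd x') (by rw [hV]; exact Or.inl rfl)
      linarith
    · have h1 : f i - dist x' (c i) / δ ≤ sSup (V x') := le_csSup (hbd x') (by rw [hV]; exact Or.inr ⟨i, rfl⟩)
      have h2 : dist x' (c i) / δ ≤ dist x (c i) / δ + 1 / δ * dist x x' := by
        have h3 : dist x' (c i) ≤ dist x (c i) + dist x x' := by
          have := dist_triangle x' x (c i)
          rw [dist_comm x' x] at this
          linarith
        calc dist x' (c i) / δ ≤ (dist x (c i) + dist x x') / δ := div_le_div_of_nonneg_right h3 hδ.le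
          _ = _ := by ring
      linarith
  refine ⟨fun x => sSup (V x), LipschitzWith.of_dist_le_mul fun x x' => ?_, fun x => ?_, fun x => ?_, fun i => ⟨?_, ?_⟩⟩
  · rw [Real.dist_eq, Real.coe_toNNReal _ (by positivity), abs_le]
    have h1 := hlip x x'
    have h2 := hlip x' x
    rw [dist_comm x' x] at h2
    constructor <;> linarith
  · exact le_csSup (hbd x) (by rw [hV]; exact Or.inl rfl)
  · exact csSup_le (hne x) (hle x)
  · refine le_csSup (hbd _) ?_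
    rw [hV]
    exact Or.inr ⟨i, by rw [dist_self, zero_div, sub_zero]⟩
  · refine csSup_le (hne _) fun y hy => ?_
    rw [hV] at hy
    rcases hy with rfl | ⟨j, rfl⟩
    · linarith [hf0 i]
    · rcases le_or_gt (dist (c i) (c j)) δ with h1 | h1
      · have h2 := h j i (by rwa [dist_comm])
        have h3 : 0 ≤ dist (c i) (c j) / δ := div_nonneg dist_nonneg hδ.le
        linarith
      · have h2 : 1 < dist (c i) (c j) / δ := by rwa [lt_div_iff₀ hδ, one_mul]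
        linarith [hf1 j, hf0 i]

/-- **McShane with a factor**, one number of steps, explicit constant -/
theorem mcs1 {n : ℕ} {p : (Fin n → Fin 3) → ℝ} (hp0 : ∀ s, 0 ≤ p s) (hp1 : ∀ s, p s ≤ 1) {ζ : CI → ℝ}
    (hz0 : ∀ γ, 0 ≤ ζ γ) (hz1 : ∀ γ, ζ γ ≤ 1) {L : ℝ} (hL : 0 < L) (hzL : ∀ γ γ', |ζ γ - ζ γ'| ≤ L * dist γ γ') {ε δ : ℝ}
    (hε : 0 < ε) (hδ : 0 < δ) {Bad : (Fin n → Fin 3) → Prop} (hB : pr n (fun s => Bad s ∧ 0 < ζ (curve s)) ≤ ε)
    (h : ∀ s s' : Fin n → Fin 3, s ∈ saw n → s' ∈ saw n → ¬ Bad s → ¬ Bad s' → 0 < ζ (curve s) → 0 < ζ (curve s') →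
      dist (curve s) (curve s') ≤ δ → p s ≤ p s' + ε) :
    ∃ φ : CI → ℝ, LipschitzWith (Real.toNNReal (1 / min δ (ε / L))) φ ∧ (∀ γ, |φ γ| ≤ 1) ∧
      ∑ s ∈ saw n, |p s * ζ (curve s) - φ (curve s)| ≤ 3 * ε * ((saw n).card : ℝ) := by
  classical
  obtain ⟨δ', hδ'⟩ : ∃ δ' : ℝ, δ' = min δ (ε / L) := ⟨_, rfl⟩
  rw [← hδ']
  have hδ'0 : 0 < δ' := by
    rw [hδ']
    exact lt_min hδ (by positivity)
  have hδ1 : δ' ≤ δ := by
    rw [hδ']
    exact min_le_left _ _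
  have hδ2 : L * δ' ≤ ε := by
    have h1 : δ' ≤ ε / L := by
      rw [hδ']
      exact min_le_right _ _
    rwa [le_div_iff₀ hL, mul_comm] at h1
  obtain ⟨φ, h1, h2, h3, h4⟩ := mcsI (I := {s : Fin n → Fin 3 // s ∈ saw n ∧ ¬ (Bad s ∧ 0 < ζ (curve s))})
    (c := fun s => curve s.1) (f := fun s => p s.1 * ζ (curve s.1)) (fun s => mul_nonneg (hp0 _) (hz0 _))
    (fun s => mul_le_one₀ (hp1 _) (hz0 _) (hz1 _)) (ε := 2 * ε) (δ := δ') (by positivity) hδ'0 (by
      rintro ⟨s, a2, a3⟩ ⟨s', b2, b3⟩ hd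
      have hd' : dist (curve s) (curve s') ≤ δ' := hd
      have hz := (hzL (curve s) (curve s')).trans (mul_le_mul_of_nonneg_left hd' hL.le)
      have hz' := (abs_le.1 hz).2
      show p s * ζ (curve s) ≤ p s' * ζ (curve s') + 2 * ε
      rcases eq_or_lt_of_le (hz0 (curve s)) with c1 | c1
      · rw [← c1, mul_zero]
        have := mul_nonneg (hp0 s') (hz0 (curve s'))
        linarith
      rcases eq_or_lt_of_le (hz0 (curve s')) with c2 | c2
      · rw [← c2, mul_zero]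
        rw [← c2] at hz'
        have : p s * ζ (curve s) ≤ 1 * ζ (curve s) := mul_le_mul_of_nonneg_right (hp1 s) (hz0 _)
        linarith
      have h5 := h s s' a2 b2 (fun hb => a3 ⟨hb, c1⟩) (fun hb => b3 ⟨hb, c2⟩) c1 c2 (hd'.trans hδ1)
      have h6 : p s * ζ (curve s) ≤ (p s' + ε) * ζ (curve s) := mul_le_mul_of_nonneg_right h5 c1.le
      have h7 : p s' * (ζ (curve s) - ζ (curve s')) ≤ 1 * ε := by
        rcases le_or_gt 0 (ζ (curve s) - ζ (curve s')) with c3 | c3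
        · exact mul_le_mul (hp1 _) (by linarith) c3 zero_le_one
        · have : p s' * (ζ (curve s) - ζ (curve s')) ≤ 0 := mul_nonpos_of_nonneg_of_nonpos (hp0 _) c3.le
          linarith
      have h8 : ε * ζ (curve s) ≤ ε * 1 := mul_le_mul_of_nonneg_left (hz1 _) hε.le
      nlinarith)
  refine ⟨φ, h1, fun γ => ?_, ?_⟩
  · rw [abs_le]
    exact ⟨by linarith [h2 γ], h3 γ⟩
  · have hc := NTSF.saw_card_pos n
    have h5 : ∀ s ∈ saw n, |p s * ζ (curve s) - φ (curve s)| ≤ 2 * ε + if Bad s ∧ 0 < ζ (curve s) then (1 : ℝ) else 0 := by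
      intro s hs
      split_ifs with hb
      · have a1 : 0 ≤ p s * ζ (curve s) := mul_nonneg (hp0 s) (hz0 _)
        have a2 : p s * ζ (curve s) ≤ 1 := mul_le_one₀ (hp1 s) (hz0 _) (hz1 _)
        rw [abs_le]
        constructor <;> linarith [h2 (curve s), h3 (curve s)]
      · obtain ⟨a1, a2⟩ := h4 ⟨s, hs, hb⟩
        have a1' : p s * ζ (curve s) ≤ φ (curve s) := a1
        have a2' : φ (curve s) ≤ p s * ζ (curve s) + 2 * ε := a2
        rw [abs_le]
        constructor <;> linarith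
    have h6 := hB
    rw [Pool.Agent.SCF.pr_eq, div_le_iff₀ hc] at h6
    calc ∑ s ∈ saw n, |p s * ζ (curve s) - φ (curve s)| ≤
        ∑ s ∈ saw n, (2 * ε + if Bad s ∧ 0 < ζ (curve s) then (1 : ℝ) else 0) := Finset.sum_le_sum h5
      _ = 2 * ε * ((saw n).card : ℝ) + (((saw n).filter fun s => Bad s ∧ 0 < ζ (curve s)).card : ℝ) := by
          rw [Finset.sum_add_distrib, Finset.sum_const, nsmul_eq_mul, Finset.sum_ite, Finset.sum_const_zero, add_zero,
            Finset.sum_const, nsmul_eq_mul, mul_one, mul_comm]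
      _ ≤ _ := by
          have h7 : (((saw n).filter fun s => Bad s ∧ 0 < ζ (curve s)).card : ℝ) ≤ ε * ((saw n).card : ℝ) := by
            refine le_trans (le_of_eq ?_) h6
            congr!
          linarith

/-! ### closeness in the unit `S` -/

/-- a bound of the positions from the modulus of continuity -/
lemma md_bd {n : ℕ} {s : Fin n → Fin 3} {η ω : ℝ} (hη : 0 < η) (hω : 0 ≤ ω) (hn : 1 ≤ η * n) (hm : Md η ω s) :
    ∀ i : ℕ, i ≤ n → ‖pos s i‖ ≤ (2 / η + 1) * ω * size n := by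
  have hs : 0 ≤ size n := by
    unfold size
    positivity
  obtain ⟨m, hmd⟩ : ∃ m : ℕ, m = ⌊η * n⌋₊ := ⟨_, rfl⟩
  have m1 : (m : ℝ) ≤ η * n := by rw [hmd]; exact Nat.floor_le (by linarith)
  have m2 : η * n < m + 1 := by rw [hmd]; exact Nat.lt_floor_add_one _
  have m3 : 1 ≤ m := by
    rw [hmd]
    exact Nat.le_floor (by exact_mod_cast hn)
  have m3' : (1 : ℝ) ≤ m := by exact_mod_cast m3
  have key : ∀ q i : ℕ, i ≤ q * m → i ≤ n → ‖pos s i‖ ≤ q * (ω * size n) := by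
    intro q
    induction q with
    | zero =>
      intro i hi _
      have : i = 0 := by omega
      rw [this, NTSF.pos_zero]
      simp
    | succ q ih =>
      intro i hi hin
      rcases le_or_gt i (q * m) with h1 | h1
      · refine (ih i h1 hin).trans ?_
        have : 0 ≤ ω * size n := mul_nonneg hω hs
        push_cast
        linarith
      · have h2 := ih (q * m) le_rfl (h1.le.trans hin)
        have h3 : i - q * m ≤ m := by
          have : (q + 1) * m = q * m + m := by ring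
          omega
        have h4 : (i : ℝ) - ((q * m : ℕ) : ℝ) ≤ η * n := by
          rw [← Nat.cast_sub h1.le]
          refine le_trans ?_ m1
          exact_mod_cast h3
        have h5 := hm (q * m) i h1.le hin h4
        calc ‖pos s i‖ = ‖(pos s i - pos s (q * m)) + pos s (q * m)‖ := by congr 1; ring
          _ ≤ ω * size n + q * (ω * size n) := (norm_add_le _ _).trans (add_le_add h5 h2)
          _ = ((q + 1 : ℕ) : ℝ) * (ω * size n) := by push_cast; ring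
  intro i hi
  have h1 : i ≤ (i / m + 1) * m := by
    have := Nat.div_add_mod i m
    have h2 := Nat.mod_lt i m3
    have e : (i / m + 1) * m = m * (i / m) + m := by ring
    omega
  refine (key _ i h1 hi).trans ?_
  have h2 : ((i / m : ℕ) : ℝ) ≤ 2 / η := by
    have h3 : ((i / m : ℕ) : ℝ) ≤ (i : ℝ) / m := Nat.cast_div_le
    refine h3.trans ?_
    rw [div_le_div_iff₀ (by linarith) hη]
    have h4 : (i : ℝ) ≤ n := by exact_mod_cast hi
    nlinarith
  have h5 : 0 ≤ ω * size n := mul_nonneg hω hs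
  calc ((i / m + 1 : ℕ) : ℝ) * (ω * size n) ≤ (2 / η + 1) * (ω * size n) := by
        refine mul_le_mul_of_nonneg_right ?_ h5
        push_cast
        linarith
    _ = _ := by ring

/-- **closeness in the unit `S`** from closeness in units of the sizes -/
theorem clS_of {n n' : ℕ} (hn : 1 ≤ n) (hn' : 1 ≤ n') {s : Fin n → Fin 3} {s' : Fin n' → Fin 3} {S K0 β ν C θ τ ν' : ℝ}
    (hC : Cl β ν s s') (hS1 : size n ≤ K0 * S) (hS1' : size n' ≤ K0 * S) (hK0 : 0 ≤ K0 * S) (hb : ∀ i : ℕ, i ≤ n' → ‖pos s' i‖ ≤ C * size n')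
    (hr : |size n / size n' - 1| ≤ θ) (hC0 : 0 ≤ C) (hν' : K0 * (ν + C * θ) ≤ ν') (hS : 0 ≤ S) :
    ClS S τ β ν' s s' := by
  intro i i' hi hi' _ _ h
  have hs := NTSF.size_pos hn
  have hs' := NTSF.size_pos hn'
  have hθ : 0 ≤ θ := (abs_nonneg _).trans hr
  have h1 := hC i i' hi hi' h
  have hsc : (size n : ℂ) ≠ 0 := by exact_mod_cast hs.ne'
  have hsc' : (size n' : ℂ) ≠ 0 := by exact_mod_cast hs'.ne'
  have h2 : |size n - size n'| ≤ θ * size n' := by
    have e : size n - size n' = (size n / size n' - 1) * size n' := by field_simp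
    rw [e, abs_mul, abs_of_pos hs']
    exact mul_le_mul_of_nonneg_right hr hs'.le
  have e : pos s i - pos s' i' = (size n : ℂ) * (pos s i / (size n : ℂ) - pos s' i' / (size n' : ℂ)) +
      ((size n - size n' : ℝ) : ℂ) * (pos s' i' / (size n' : ℂ)) := by
    push_cast
    field_simp
    ring
  rw [e]
  have h3 : ‖(size n : ℂ) * (pos s i / (size n : ℂ) - pos s' i' / (size n' : ℂ))‖ ≤ K0 * S * ν := by
    rw [norm_mul, Complex.norm_real, Real.norm_eq_abs, abs_of_pos hs]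
    exact mul_le_mul hS1 h1 (norm_nonneg _) hK0
  have h4 : ‖((size n - size n' : ℝ) : ℂ) * (pos s' i' / (size n' : ℂ))‖ ≤ K0 * S * (C * θ) := by
    rw [norm_mul, Complex.norm_real, Real.norm_eq_abs, nrm_div hn']
    have h5 : ‖pos s' i'‖ / size n' ≤ C := by
      rw [div_le_iff₀ hs']
      exact hb i' hi'
    calc |size n - size n'| * (‖pos s' i'‖ / size n') ≤ (θ * size n') * C := mul_le_mul h2 h5 (by positivity) (by positivity)
      _ ≤ (θ * (K0 * S)) * C := mul_le_mul_of_nonneg_right (mul_le_mul_of_nonneg_left hS1' hθ) hC0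
      _ = K0 * S * (C * θ) := by ring
  calc _ ≤ K0 * S * ν + K0 * S * (C * θ) := (norm_add_le _ _).trans (add_le_add h3 h4)
    _ = K0 * (ν + C * θ) * S := by ring
    _ ≤ ν' * S := mul_le_mul_of_nonneg_right hν' hS

/-- monotonicity of the stability -/
lemma StbD.mono {D : ℝ → ℕ → Prop} {R θ θ' S : ℝ} {n n' : ℕ} {s : Fin n → Fin 3} {s' : Fin n' → Fin 3} (h : StbD D R θ S s s')
    (hθ : θ ≤ θ') (hS : 0 ≤ S) : StbD D R θ' S s s' := by
  intro ρ c h1 h2 h3 h4 h5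
  obtain ⟨c', g1, g2, g3⟩ := h ρ c h1 h2 h3 h4 h5
  exact ⟨c', g1.mono (mul_le_mul_of_nonneg_right (by linarith) hS), g2.trans hθ, g3.trans (mul_le_mul_of_nonneg_right hθ hS)⟩

/-- **comparison of `ps0`**, unit of length `S`, other numbers of steps -/
theorem ps0CS {D : SzT} (hD : SzS D) {R K K0 ε : ℝ} (hR : 0 < R) (hK : 0 ≤ K) (hK0 : 1 ≤ K0) (hε : 0 < ε) {B : Box} (hB : B.Ok R)
    (ηf : ℝ → ℝ) (hηf : ∀ ω : ℝ, 0 < ω → 0 < ηf ω) :
    ∃ (ω2 ω3 ω4 θ : ℝ) (M1 n0 : ℕ), 0 < ω2 ∧ 0 < ω3 ∧ 0 < ω4 ∧ 0 < θ ∧ ∀ M : ℕ, M1 ≤ M → 1 ≤ M → ∀ H : CI → ℝ → ℝ, TestH K H →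
      ∀ (n n' : ℕ) (s : Fin n → Fin 3) (s' : Fin n' → Fin 3) (S : ℝ), n0 ≤ n → n0 ≤ n' → size n / K0 ≤ S → S ≤ size n →
        size n' / K0 ≤ S → S ≤ size n' → Md (ηf ω2) ω2 s' → Md (ηf ω3) ω3 s' → Md (ηf ω4) ω4 s' →
        StbS D R θ S s s' → StbS D R θ S s' s → dist (curve s) (curve s') ≤ θ → |size n / size n' - 1| ≤ θ →
          ps0 D M B S H s ≤ ps0 D M B S H s' + ε := by
  have hK00 : 0 < K0 := by linarith
  obtain ⟨ω4, hω4⟩ : ∃ ω4, ω4 = ε / (16 * (K + 1)) := ⟨_, rfl⟩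
  have hω40 : 0 < ω4 := by rw [hω4]; positivity
  have hη4 := hηf ω4 hω40
  obtain ⟨η, hη⟩ : ∃ η, η = min (1 / 2) (min (ηf ω4 / 4) (ε / (16 * (K + 1)))) := ⟨_, rfl⟩
  have hη0 : 0 < η := by
    rw [hη]; exact lt_min (by norm_num) (lt_min (by positivity) (by positivity))
  have hηa : η ≤ 1 / 2 := by rw [hη]; exact min_le_left _ _
  have hηb : η ≤ ηf ω4 / 4 := by rw [hη]; exact (min_le_right _ _).trans (min_le_left _ _)
  have hηc : η ≤ ε / (16 * (K + 1)) := by rw [hη]; exact (min_le_right _ _).trans (min_le_right _ _)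
  obtain ⟨νa, hνa0, -, hA⟩ := psPC (ε := ε / 2) (η := η) (ν0 := 1) hR (by positivity) hη0 one_pos hB
  obtain ⟨ω2, hω2⟩ : ∃ ω2, ω2 = νa / (4 * K0) := ⟨_, rfl⟩
  have hω20 : 0 < ω2 := by rw [hω2]; positivity
  have hη2 := hηf ω2 hω20
  obtain ⟨νb, μ', hνb0, -, hμ'0, hνμ, hB'⟩ := hA (ηf ω2 / 2) (by positivity)
  obtain ⟨ω3, hω3⟩ : ∃ ω3, ω3 = νb / (4 * K0) := ⟨_, rfl⟩
  have hω30 : 0 < ω3 := by rw [hω3]; positivity
  have hη3 := hηf ω3 hω30
  obtain ⟨θ0, M1, hθ00, hθb, -, hMain⟩ := hB' (ηf ω3 / 2) (by positivity)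
  obtain ⟨C, hC⟩ : ∃ C, C = (2 / ηf ω2 + 1) * ω2 := ⟨_, rfl⟩
  have hC0 : 0 < C := by rw [hC]; positivity
  obtain ⟨θ, hθ0, t1, t2, t3, t4, t5, t6, t7, t8, t9⟩ : ∃ θ : ℝ, 0 < θ ∧ θ ≤ θ0 ∧ θ ≤ ω2 / 4 ∧ θ ≤ ω3 / 4 ∧ θ ≤ ω4 / 4 ∧
      θ ≤ ω2 / (4 * C) ∧ θ ≤ ω3 / (4 * C) ∧ θ ≤ ηf ω2 / 4 ∧ θ ≤ ηf ω3 / 4 ∧ θ ≤ ηf ω4 / 8 :=
    ⟨min θ0 (min (ω2 / 4) (min (ω3 / 4) (min (ω4 / 4) (min (ω2 / (4 * C)) (min (ω3 / (4 * C)) (min (ηf ω2 / 4)
      (min (ηf ω3 / 4) (ηf ω4 / 8)))))))), by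
        refine lt_min hθ00 (lt_min ?_ (lt_min ?_ (lt_min ?_ (lt_min ?_ (lt_min ?_ (lt_min ?_ (lt_min ?_ ?_))))))) <;> positivity,
      by simp, by simp, by simp, by simp, by simp, by simp, by simp, by simp, by simp⟩
  obtain ⟨n0, hn0⟩ := inv_small hθ0
  refine ⟨ω2, ω3, ω4, θ, M1, n0, hω20, hω30, hω40, hθ0, fun M hM hM0 H hH n n' s s' S hn hn' hS1 hS2 hS1' hS2' m2 m3 m4 hS hS' hd
    hr => ?_⟩
  obtain ⟨a1, a2, a3⟩ := hn0 n hn
  obtain ⟨b1, b2, b3⟩ := hn0 n' hn'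
  have hs := NTSF.size_pos a1
  have hs' := NTSF.size_pos b1
  have hS0 : 0 < S := lt_of_lt_of_le (by positivity) hS1
  have hb0' : (0 : ℝ) < n' := by exact_mod_cast b1
  have hS3 : size n ≤ K0 * S := by
    rw [div_le_iff₀ hK00] at hS1
    linarith
  have hS3' : size n' ≤ K0 * S := by
    rw [div_le_iff₀ hK00] at hS1'
    linarith
  have hbd : ∀ i : ℕ, i ≤ n' → ‖pos s' i‖ ≤ C * size n' := by
    rw [hC]
    refine md_bd hη2 hω20.le ?_ m2
    have h1 : 1 / (n' : ℝ) ≤ ηf ω2 := b2.trans (by linarith)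
    rwa [div_le_iff₀ hb0'] at h1
  have hC4 : C * θ ≤ ω2 / 4 := by
    have h1 := mul_le_mul_of_nonneg_left t5 hC0.le
    have e : C * (ω2 / (4 * C)) = ω2 / 4 := by field_simp
    rwa [e] at h1
  have hC5 : C * θ ≤ ω3 / 4 := by
    have h1 := mul_le_mul_of_nonneg_left t6 hC0.le
    have e : C * (ω3 / (4 * C)) = ω3 / 4 := by field_simp
    rwa [e] at h1
  have hCla : ClS S 2 (ηf ω2 / 2) νa s s' := by
    refine clS_of a1 b1 (cl_of a1 b1 hd m2 (by linarith) (le_refl (θ + 1 / size n' + ω2))) hS3 hS3' (by positivity) hbd hr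
      hC0.le ?_ hS0.le
    have h1 : θ + 1 / size n' + ω2 + C * θ ≤ 4 * ω2 := by linarith
    calc K0 * (θ + 1 / size n' + ω2 + C * θ) ≤ K0 * (4 * ω2) := mul_le_mul_of_nonneg_left h1 hK00.le
      _ = νa := by rw [hω2]; field_simp
  have hClb : ClS S 2 (ηf ω3 / 2) νb s s' := by
    refine clS_of a1 b1 (cl_of a1 b1 hd m3 (by linarith) (le_refl (θ + 1 / size n' + ω3))) hS3 hS3' (by positivity) hbd hr
      hC0.le ?_ hS0.le
    have h1 : θ + 1 / size n' + ω3 + C * θ ≤ 4 * ω3 := by linarith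
    calc K0 * (θ + 1 / size n' + ω3 + C * θ) ≤ K0 * (4 * ω3) := mul_le_mul_of_nonneg_left h1 hK00.le
      _ = νb := by rw [hω3]; field_simp
  rw [ps0_P, ps0_P]
  have hfin := hMain M hM hM0 n n' s s' (fun a k => D a n s k) (fun a k => D a n' s' k) S 2 (hD.sz1 s) (hD.sz1 s') hS0 a1 b1
    (a2.trans t1) (b2.trans t1) hCla hClb (hD.tr' hS0.le a1 b1 hClb hνb0.le hθ00.le (by linarith [b2.trans t8]) hνμ)
    (hD.tr' hS0.le b1 a1 hClb.symm hνb0.le hθ00.le (by linarith [a2.trans t8]) hνμ) (StbD.mono hS t1 hS0.le)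
    (StbD.mono hS' t1 hS0.le) (fun k hk _ => by
      have hn1 : (0 : ℝ) < n := by exact_mod_cast a1
      have h1 : (k : ℝ) / n ≤ 1 := by
        rw [div_le_one hn1]
        exact_mod_cast hk.lt.le
      linarith) (fun k => H (curve s) ((k : ℝ) / n)) (fun k => H (curve s') ((k : ℝ) / n')) (ε / 2) (by positivity)
    (fun k => hH.le _ _) (fun k => hH.nn _ _) (by
      intro k k' hk
      show H (curve s) ((k : ℝ) / n) ≤ H (curve s') ((k' : ℝ) / n') + ε / 2
      have htm := hk.tm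
      have hmd := curve_md b1 m4 (β := |(k : ℝ) / n - (k' : ℝ) / n'|) (ν := 2 * ω4)
        (by
          have e3 : (3 : ℝ) / n' = 3 * (1 / n') := by ring
          rw [e3]
          linarith)
        (by
          have e3 : (3 : ℝ) / size n' = 3 * (1 / size n') := by ring
          rw [e3]
          linarith)
      have h1 := hH.lip (curve s) (curve s') ((k : ℝ) / n) ((k' : ℝ) / n') (2 * ω4) hmd
      refine h1.trans (add_le_add le_rfl ?_)
      have h2 : dist (curve s) (curve s') + |(k : ℝ) / n - (k' : ℝ) / n'| + 2 * ω4 ≤ ε / (2 * (K + 1)) := by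
        have e1 : ε / (2 * (K + 1)) = 8 * (ε / (16 * (K + 1))) := by
          field_simp
          ring
        rw [e1, ← hω4]
        rw [← hω4] at hηc
        linarith
      calc K * (dist (curve s) (curve s') + |(k : ℝ) / n - (k' : ℝ) / n'| + 2 * ω4)
          ≤ K * (ε / (2 * (K + 1))) := mul_le_mul_of_nonneg_left h2 hK
        _ = ε / 2 * (K / (K + 1)) := by
            field_simp
        _ ≤ ε / 2 * 1 := by
            refine mul_le_mul_of_nonneg_left ?_ (by positivity)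
            rw [div_le_one (by positivity)]
            linarith
        _ = ε / 2 := mul_one _)
  linarith

/-! ### stability in the unit `S` -/

/-- **stability from `StbA`**, free tips, the size = the level -/
theorem stbS_LG {n n' : ℕ} (hn : 1 ≤ n) (hn' : 1 ≤ n') {s : Fin n → Fin 3} {s' : Fin n' → Fin 3} {R θ r0 S N θ' : ℝ} {i0 i0' : ℕ}
    (hA : StbA R θ r0 S N i0 i0' s s') (hS : 0 ≤ S) (hr0 : r0 ≤ R / 16) (hθ : θ ≤ θ')
    (ht : θ * N / n + |(n : ℝ) - n'| / n + i0 / n + i0' / n' ≤ θ') : StbS LG R θ' S s s' := by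
  intro ρ c h1 h2 h3 h4 h5
  have hn0 : (0 : ℝ) < n := by exact_mod_cast hn
  have hn0' : (0 : ℝ) < n' := by exact_mod_cast hn'
  have h5' : R / 8 * S ≤ (pos s c).re := h5
  obtain ⟨c', g0, g1, g2, g3⟩ := hA ρ c h1 h2 h3 h4 (Or.inr ((mul_le_mul_of_nonneg_right (by linarith) hS).trans h5'))
  refine ⟨c', g1.mono (mul_le_mul_of_nonneg_right (by linarith) hS), ?_, g3.trans (mul_le_mul_of_nonneg_right hθ hS)⟩
  have e : (c : ℝ) / n - (c' : ℝ) / n' = (((c : ℝ) - i0) - ((c' : ℝ) - i0')) / n + ((c' : ℝ) - i0') / n' * ((n' - n) / n) +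
      i0 / n - i0' / n' := by
    field_simp
    ring
  rw [e]
  have k1 : |(((c : ℝ) - i0) - ((c' : ℝ) - i0')) / n| ≤ θ * N / n := by
    rw [abs_div, abs_of_pos hn0]
    exact div_le_div_of_nonneg_right g2 hn0.le
  have k2 : |((c' : ℝ) - i0') / n' * ((n' - n) / n)| ≤ |(n : ℝ) - n'| / n := by
    rw [abs_mul]
    have h6 : |((c' : ℝ) - i0') / n'| ≤ 1 := by
      rw [abs_div, abs_of_pos hn0', div_le_one hn0']
      have h7 : (i0' : ℝ) ≤ c' := by exact_mod_cast g0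
      have h8 : (c' : ℝ) ≤ n' := by exact_mod_cast g1.lt.le
      rw [abs_of_nonneg (by linarith)]
      have : (0 : ℝ) ≤ i0' := Nat.cast_nonneg _
      linarith
    have h9 : |((n' : ℝ) - n) / n| = |(n : ℝ) - n'| / n := by
      rw [abs_div, abs_of_pos hn0, abs_sub_comm]
    rw [h9]
    exact mul_le_of_le_one_left (by positivity) h6
  have k3 : (0 : ℝ) ≤ (i0 : ℝ) / n := by positivity
  have k4 : (0 : ℝ) ≤ (i0' : ℝ) / n' := by positivity
  have k5 := abs_le.1 k1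
  have k6 := abs_le.1 k2
  rw [abs_le]
  constructor <;> linarith

/-- **stability from `StbA`**, no tips, every size -/
theorem stbS_of_A {D : SzT} (hD : SzS D) {n : ℕ} (hn : 1 ≤ n) {s s' : Fin n → Fin 3} {R θ S : ℝ}
    (hA : StbA R θ 0 S n 0 0 s s') : StbS D R θ S s s' := by
  intro ρ c h1 h2 h3 h4 h5
  have hn0 : (0 : ℝ) < n := by exact_mod_cast hn
  obtain ⟨c', -, g1, g2, g3⟩ := hA ρ c h1 h2 h3 h4 (Or.inl ⟨rfl, rfl, hD.dm h5⟩)
  refine ⟨c', g1, ?_, g3⟩
  rw [← sub_div, abs_div, abs_of_pos hn0, div_le_iff₀ hn0]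
  simpa using g2

/-! ### the functional -/

/-- **C1-W, unit of length `S` free** : the size `D` (`DG` : diameter, `LG` : level), the ranges `B` of the parameters at the scale `R`;
`K'`, `M1`, `n0` depend on `D, R, κ, K, K0, B, ε` only -/
def MacTS : Prop := ∀ D : SzT, SzS D → ∀ (R κ K K0 : ℝ) (B : Box), 0 < R → B.Ok R → 0 < κ → κ < 1 → 0 ≤ K → 1 ≤ K0 → K0 ≤ 30 →
  ∀ ε : ℝ, 0 < ε → ∃ (K' : NNReal) (M1 n0 : ℕ), ∀ M : ℕ, M1 ≤ M → 1 ≤ M → ∀ H : CI → ℝ → ℝ, TestH K H →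
    ∀ n : ℕ, n0 ≤ n → ∀ S : ℝ, size n / K0 ≤ S → S ≤ size n → ∃ φ : CI → ℝ, LipschitzWith K' φ ∧ (∀ γ, |φ γ| ≤ 1) ∧
      ∑ s ∈ saw n, |ps0 D M B S H s * zc κ (1000 * R) (curve s) - φ (curve s)| ≤ ε * ((saw n).card : ℝ)

theorem macTS_of (hMd : MdP) (hSt : StbLP) : MacTS := by
  intro D hD R κ K K0 B hR hB hκ hκ1 hK hK0 hK30 ε hε
  have he : 0 < ε / 3 := by positivity
  have he4 : 0 < ε / 3 / 4 := by positivity
  choose! ηf hη0 hη1 using fun ω hω => hMd (ε / 3 / 4) ω he4 hω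
  obtain ⟨ω2, ω3, ω4, θ, M1, n1, hω2, hω3, hω4, hθ, hcmp⟩ := ps0CS hD hR hK hK0 he hB ηf hη0
  obtain ⟨δ, n2, Bad, hδ, hBad, hstb⟩ := hSt R K0 1 κ θ (ε / 3 / 4) hR hK0 hK30 le_rfl hκ hκ1 hθ he4
  have hK00 : 0 < K0 := by linarith
  obtain ⟨n0, hn0⟩ : ∃ n0 : ℕ, n0 = max (max n1 n2) 1 := ⟨_, rfl⟩
  have hn1 : ∀ n : ℕ, n0 ≤ n → n1 ≤ n := fun n h => by omega
  have hn2 : ∀ n : ℕ, n0 ≤ n → n2 ≤ n := fun n h => by omega
  have hn3 : ∀ n : ℕ, n0 ≤ n → 1 ≤ n := fun n h => by omega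
  refine ⟨Real.toNNReal (1 / min (min (δ / K0) θ) (ε / 3 / (1 / (1000 * R)))), M1, n0, fun M hM1 hM0 H hH n hn S hS1 hS2 => ?_⟩
  have hnn := hn3 n hn
  have hs := NTSF.size_pos hnn
  have hS0 : 0 < S := lt_of_lt_of_le (by positivity) hS1
  have hS3 : size n ≤ K0 * S := by
    rw [div_le_iff₀ hK00] at hS1
    linarith
  obtain ⟨φ, h1, h2, h3⟩ := mcs1 (n := n) (p := fun s => ps0 D M B S H s)
    (fun s => ps0_nn hH) (fun s => ps0_le hB hR.le hS0.le hH)
    (ζ := zc κ (1000 * R)) (fun γ => SCF.tr_nonneg _) (fun γ => SCF.tr_le _) (L := 1 / (1000 * R)) (by positivity)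
    (fun γ γ' => zc_lip hκ (by positivity) γ γ') (ε := ε / 3) (δ := min (δ / K0) θ) he (lt_min (by positivity) hθ)
    (Bad := fun s => ((¬ Md (ηf ω2) ω2 s ∨ ¬ Md (ηf ω3) ω3 s) ∨ ¬ Md (ηf ω4) ω4 s) ∨ Bad n s) (by
      have a1 := hη1 ω2 hω2 n hnn
      have a2 := hη1 ω3 hω3 n hnn
      have a3 := hη1 ω4 hω4 n hnn
      have a4 := hBad n (hn2 n hn)
      have b1 : pr n (fun s => (((¬ Md (ηf ω2) ω2 s ∨ ¬ Md (ηf ω3) ω3 s) ∨ ¬ Md (ηf ω4) ω4 s) ∨ Bad n s) ∧
          0 < zc κ (1000 * R) (curve s)) ≤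
          pr n (fun s => (¬ Md (ηf ω2) ω2 s ∨ ¬ Md (ηf ω3) ω3 s) ∨ ¬ Md (ηf ω4) ω4 s) +
            pr n (fun s => Bad n s ∧ 0 < zc κ (1000 * R) (curve s)) :=
        pr_or fun s _ h => by
          rcases h with ⟨h | h, h'⟩
          · exact Or.inl h
          · exact Or.inr ⟨h, h'⟩
      have b2 : pr n (fun s => (¬ Md (ηf ω2) ω2 s ∨ ¬ Md (ηf ω3) ω3 s) ∨ ¬ Md (ηf ω4) ω4 s) ≤
          pr n (fun s => ¬ Md (ηf ω2) ω2 s ∨ ¬ Md (ηf ω3) ω3 s) + pr n (fun s => ¬ Md (ηf ω4) ω4 s) :=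
        pr_or fun s _ h => h
      have b3 : pr n (fun s => ¬ Md (ηf ω2) ω2 s ∨ ¬ Md (ηf ω3) ω3 s) ≤
          pr n (fun s => ¬ Md (ηf ω2) ω2 s) + pr n (fun s => ¬ Md (ηf ω3) ω3 s) :=
        pr_or fun s _ h => h
      linarith) (by
      intro s s' hs1 hs1' hBd hBd' hz hz' hd
      push Not at hBd hBd'
      obtain ⟨⟨⟨m1, m2⟩, m3⟩, hb⟩ := hBd
      obtain ⟨⟨⟨m1', m2'⟩, m3'⟩, hb'⟩ := hBd'
      have hd1 : dist (curve s) (curve s') ≤ δ / K0 := hd.trans (min_le_left _ _)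
      have hd2 : dist (curve s) (curve s') ≤ θ := hd.trans (min_le_right _ _)
      have hpos : ∀ j : ℕ, j ≤ n → ‖pos s j - pos s' j‖ ≤ δ * S := by
        intro j hj
        obtain ⟨u, hu, hcu⟩ := Pool.Agent.CRT.R.curve_at hnn s hj
        obtain ⟨u', hu', hcu'⟩ := Pool.Agent.CRT.R.curve_at hnn s' hj
        have huu : u = u' := Subtype.ext (by rw [hu, hu'])
        have h5 : ‖curve s u - curve s' u‖ ≤ δ / K0 := by
          rw [← dist_eq_norm]
          exact (ContinuousMap.dist_apply_le_dist u).trans hd1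
        rw [hcu, huu, hcu', X_le hnn] at h5
        refine h5.trans ?_
        rw [div_mul_eq_mul_div, div_le_iff₀ hK00]
        calc δ * size n ≤ δ * (K0 * S) := mul_le_mul_of_nonneg_left hS3 hδ.le
          _ = δ * S * K0 := by ring
      have hfar : ∀ {s : Fin n → Fin 3}, 0 < zc κ (1000 * R) (curve s) → 500 * R * S ≤ ‖pos s n‖ := by
        intro s hz
        have h6 := zc_far (c := 1000 * R) (by positivity) hnn hz (le_refl n) (by
          have : (0 : ℝ) ≤ κ * n := by positivity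
          linarith)
        have h7 : 1000 * R * S ≤ 1000 * R * size n := mul_le_mul_of_nonneg_left hS2 (by positivity)
        have h8 : 0 ≤ R * S := by positivity
        linarith
      have hLC : LC (0 * S) (δ * S) (500 * R * S) 0 0 n s s' := by
        refine ⟨by omega, by omega, fun i hi => ?_, fun i hi => ?_, fun j hj => ?_, fun i hi hi' => ?_, fun i hi hi' => ?_,
          hfar hz, hfar hz'⟩
        · have : i = 0 := by omega
          rw [this, NTSF.pos_zero]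
          simp
        · have : i = 0 := by omega
          rw [this, NTSF.pos_zero]
          simp
        · rw [zero_add]
          exact hpos j hj
        · omega
        · omega
      have st : StbA R θ 0 S n 0 0 s s' := hstb n n s s' S n 0 0 0 n (hn2 n hn) (hn2 n hn) hb hb' hS1 hS2 hS1 hS2
        (by linarith) (by linarith) le_rfl (by positivity) hLC
      have st' : StbA R θ 0 S n 0 0 s' s := hstb n n s' s S n 0 0 0 n (hn2 n hn) (hn2 n hn) hb' hb hS1 hS2 hS1 hS2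
        (by linarith) (by linarith) le_rfl (by positivity) hLC.symm
      exact hcmp M hM1 hM0 H hH n n s s' S (hn1 n hn) (hn1 n hn) hS1 hS2 hS1 hS2 m1' m2' m3' (stbS_of_A hD hnn st)
        (stbS_of_A hD hnn st') hd2 (by rw [div_self hs.ne', sub_self, abs_zero]; exact hθ.le))
  refine ⟨φ, h1, h2, ?_⟩
  calc _ ≤ _ := h3
    _ = _ := by ring

/-- **C1-W in every unit of length, no hypothesis** -/
theorem macTS : MacTS := macTS_of mdP stbLP

end Pool.Agent.SCF.M
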