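import Pool.Agent.ROT.F3MacB

/-!
# ROT, block F3, row W3: start gates of two walks in the same unit of length `S`, geometry (helper66; after helper59's F3MacA)

* `SzS D` : the measures of the size of a start piece which are allowed (`DG` : diameter, `LG` : level of its end), absolute lengths;
* `ClS S τ β ν` : closeness of the positions in the unit `S`, times in units `n`, `n'`, up to the time `τ` (`2 ≤ τ`: all times);
* the two walks have their OWN size predicates `D`, `D'` (`Sz1`), with a transfer `TrS` at close cuts (for instance the level over a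
  given cut: second gates);
* `StbD D R θ S s s'` (`StbS D` for `D : SzT`) : the start cuts of size at least `R / 8` are stable; `TP` : start gate (`TD` of `F3MacA`);
* **`td_closeS`** : a start gate of `s` gives a start gate of `s'`.
-/

set_option autoImplicit false

open Set Filter Topology MeasureTheory

namespace Pool.Agent.SCF.M

open Pool.Agent.NTS.Res
open Pool.Agent.CRT (CI)
open Pool.Agent.SCF.Z

/-- closeness of two walks up to the time `τ`, positions in the unit `S`, times in units `n`, `n'` -/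
def ClS (S τ β ν : ℝ) {n n' : ℕ} (s : Fin n → Fin 3) (s' : Fin n' → Fin 3) : Prop :=
  ∀ i i' : ℕ, i ≤ n → i' ≤ n' → (i : ℝ) / n ≤ τ → (i' : ℝ) / n' ≤ τ → |(i : ℝ) / n - (i' : ℝ) / n'| ≤ β →
    ‖pos s i - pos s' i'‖ ≤ ν * S

lemma ClS.symm {S τ β ν : ℝ} {n n' : ℕ} {s : Fin n → Fin 3} {s' : Fin n' → Fin 3} (h : ClS S τ β ν s s') : ClS S τ β ν s' s :=
  fun i i' h1 h2 t1 t2 h3 => by
    rw [norm_sub_rev]
    exact h i' i h2 h1 t2 t1 (by rwa [abs_sub_comm])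

lemma ClS.mono {S τ β ν τ' β' ν' : ℝ} {n n' : ℕ} {s : Fin n → Fin 3} {s' : Fin n' → Fin 3} (h : ClS S τ β ν s s') (hS : 0 ≤ S)
    (hτ : τ' ≤ τ) (hβ : β' ≤ β) (hν : ν ≤ ν') : ClS S τ' β' ν' s s' :=
  fun i i' h1 h2 t1 t2 h3 => (h i i' h1 h2 (t1.trans hτ) (t2.trans hτ) (h3.trans hβ)).trans (mul_le_mul_of_nonneg_right hν hS)

/-- **the allowed measures of the size of a start piece**, absolute lengths -/
structure SzS (D : SzT) : Prop where
  anti : ∀ {a a' : ℝ} {n : ℕ} {s : Fin n → Fin 3} {k : ℕ}, D a n s k → a' ≤ a → D a' n s k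
  dm : ∀ {a : ℝ} {n : ℕ} {s : Fin n → Fin 3} {k : ℕ}, D a n s k → DmG a s k
  tr : ∀ {n n' : ℕ} {s : Fin n → Fin 3} {s' : Fin n' → Fin 3} {c c' : ℕ} {ν a : ℝ}, 0 ≤ ν →
    (∀ i : ℕ, i ≤ c → ∃ i' : ℕ, i' ≤ c' ∧ ‖pos s i - pos s' i'‖ ≤ ν) → ‖pos s c - pos s' c'‖ ≤ ν →
      D a n s c → D (a - 2 * ν) n' s' c'

lemma szS_DG : SzS DG where
  anti h ha := dmg_mono h ha le_rfl
  dm h := h
  tr {n n' s s' c c' ν a} _ hm _ h := by
    obtain ⟨i, j, hi, hj, hij⟩ := h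
    obtain ⟨i', hi', hi1⟩ := hm i hi
    obtain ⟨j', hj', hj1⟩ := hm j hj
    refine ⟨i', j', hi', hj', ?_⟩
    have h5 : ‖pos s i - pos s j‖ ≤ ν + ‖pos s' i' - pos s' j'‖ + ν := by
      calc ‖pos s i - pos s j‖ = ‖(pos s i - pos s' i') + (pos s' i' - pos s' j') - (pos s j - pos s' j')‖ := by
            congr 1; ring
        _ ≤ _ := (norm_sub_le _ _).trans (add_le_add ((norm_add_le _ _).trans (add_le_add hi1 le_rfl)) hj1)
    linarith

lemma szS_LG : SzS LG where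
  anti h ha := ha.trans h
  dm := sz_LG.dm
  tr {n n' s s' c c' ν a} hν _ he h := by
    show a - 2 * ν ≤ (pos s' c').re
    have h1 : |(pos s c).re - (pos s' c').re| ≤ ν := by
      rw [← Complex.sub_re]
      exact (Complex.abs_re_le_norm _).trans he
    have h2 := (abs_le.1 h1).2
    have h3 : a ≤ (pos s c).re := h
    linarith

/-- a measure of the size of the start pieces of `s` -/
structure Sz1 {n : ℕ} (s : Fin n → Fin 3) (D : ℝ → ℕ → Prop) : Prop where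
  anti : ∀ {a a' : ℝ} {k : ℕ}, D a k → a' ≤ a → D a' k
  dm : ∀ {a : ℝ} {k : ℕ}, D a k → DmG a s k

lemma SzS.sz1 {D : SzT} (hD : SzS D) {n : ℕ} (s : Fin n → Fin 3) : Sz1 s fun a k => D a n s k :=
  ⟨fun h h' => hD.anti h h', fun h => hD.dm h⟩

/-- **transfer of the size** from a start piece of `s` to a start piece of `s'`, at close cuts -/
def TrS (θ τ μ S : ℝ) {n n' : ℕ} (s : Fin n → Fin 3) (s' : Fin n' → Fin 3) (D D' : ℝ → ℕ → Prop) : Prop :=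
  ∀ (c c' : ℕ) (a : ℝ), c ≤ n → c' ≤ n' → (c : ℝ) / n ≤ τ → (c' : ℝ) / n' ≤ τ → |(c : ℝ) / n - (c' : ℝ) / n'| ≤ θ →
    ‖pos s c - pos s' c'‖ ≤ θ * S → D (a * S) c → D' ((a - μ) * S) c'

/-- **stability** of the start cuts of size at least `R / 8`, from `s` to `s'`, unit of length `S` -/
def StbD (D : ℝ → ℕ → Prop) (R θ S : ℝ) {n n' : ℕ} (s : Fin n → Fin 3) (s' : Fin n' → Fin 3) : Prop :=
  ∀ (ρ : ℝ) (c : ℕ), 40 * R ≤ ρ → ρ ≤ 130 * R → SC (ρ * S) s c → (∀ i : ℕ, i ≤ c → ‖pos s i‖ ≤ 4 * R * S) →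
    D (R / 8 * S) c →
    ∃ c' : ℕ, SC ((ρ - θ) * S) s' c' ∧ |(c : ℝ) / n - (c' : ℝ) / n'| ≤ θ ∧ ‖pos s c - pos s' c'‖ ≤ θ * S

/-- stability for a universal size `D` -/
def StbS (D : SzT) (R θ S : ℝ) {n n' : ℕ} (s : Fin n → Fin 3) (s' : Fin n' → Fin 3) : Prop :=
  StbD (fun a k => D a n s k) R θ S s s'

/-- start gate for the size `D` -/
def TP (D : ℝ → ℕ → Prop) (a r ρ : ℝ) {n : ℕ} (s : Fin n → Fin 3) (k : ℕ) : Prop :=
  (Even k ∧ (∀ i : ℕ, i ≤ k → (pos s i).re ≤ (pos s k).re) ∧ (∀ i j : ℕ, i ≤ k → j ≤ k → ‖pos s i - pos s j‖ ≤ r) ∧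
    D a k ∧ ∀ k' : ℕ, SCut s 0 k' k → ¬ D a k') ∧ GC ρ s k

lemma td_tp {D : SzT} {a r ρ : ℝ} {n : ℕ} {s : Fin n → Fin 3} {k : ℕ} :
    TD D a r ρ s k ↔ TP (fun a k => D a n s k) a r ρ s k := Iff.rfl

section

variable {n n' : ℕ} {s : Fin n → Fin 3} {s' : Fin n' → Fin 3} {S τ β ν t θ R : ℝ}

/-- the initial pieces up to two close times are close -/
lemma pre_trS (hn : 1 ≤ n) (hn' : 1 ≤ n') (hC : ClS S τ β ν s s') (ht : 0 ≤ t) (hb : t + 1 / n' ≤ β) {c c' : ℕ} (hc : c ≤ n)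
    (hc' : c' ≤ n') (hcτ : (c : ℝ) / n ≤ τ) (hcτ' : (c' : ℝ) / n' ≤ τ)
    (h : |(c : ℝ) / n - (c' : ℝ) / n'| ≤ t) : ∀ i : ℕ, i ≤ c → ∃ i' : ℕ, i' ≤ c' ∧ ‖pos s i - pos s' i'‖ ≤ ν * S := by
  intro i hi
  obtain ⟨i1, -, h1, h2⟩ := tm_mid (k := 0) (k2 := c) (k' := 0) (k2' := c') (i := i) hn hn' ht (Nat.zero_le _) (by simpa using ht)
    h (Nat.zero_le _) hi
  exact ⟨i1, h1, hC i i1 (hi.trans hc) (h1.trans hc') (dvt hn hi hcτ) (dvt hn' h1 hcτ') (h2.trans hb)⟩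

/-- **the transfer for a universal size** -/
lemma SzS.tr' {D : SzT} (hD : SzS D) (hS0 : 0 ≤ S) (hn : 1 ≤ n) (hn' : 1 ≤ n') (hC : ClS S τ β ν s s') (hν : 0 ≤ ν) (hθ : 0 ≤ θ)
    (hb : θ + 1 / n' ≤ β) {μ : ℝ} (hμ : 2 * ν ≤ μ) : TrS θ τ μ S s s' (fun a k => D a n s k) (fun a k => D a n' s' k) := by
  intro c c' a hc hc' hcτ hcτ' h _ hDc
  have h0 : (0 : ℝ) ≤ 1 / n' := by positivity
  have h1 := hD.tr (mul_nonneg hν hS0) (pre_trS hn hn' hC hθ hb hc hc' hcτ hcτ' h)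
    (hC c c' hc hc' hcτ hcτ' (h.trans (by linarith))) hDc
  have e : a * S - 2 * (ν * S) = (a - 2 * ν) * S := by ring
  rw [e] at h1
  exact hD.anti h1 (mul_le_mul_of_nonneg_right (by linarith) hS0)

lemma conf_trS (hn : 1 ≤ n) (hn' : 1 ≤ n') (hC : ClS S τ β ν s s') (ht : 0 ≤ t) (hb : t + 1 / n ≤ β) {c c' : ℕ} (hc : c ≤ n)
    (hc' : c' ≤ n') (hcτ : (c : ℝ) / n ≤ τ) (hcτ' : (c' : ℝ) / n' ≤ τ)
    (h : |(c : ℝ) / n - (c' : ℝ) / n'| ≤ t) {A : ℝ} (hD : ∀ i : ℕ, i ≤ c → ‖pos s i‖ ≤ A * S) :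
    ∀ i : ℕ, i ≤ c' → ‖pos s' i‖ ≤ (A + ν) * S := by
  intro i hi
  obtain ⟨j, h1, h2⟩ := pre_trS hn' hn hC.symm ht hb hc' hc hcτ' hcτ (by rwa [abs_sub_comm]) i hi
  calc ‖pos s' i‖ = ‖(pos s' i - pos s j) + pos s j‖ := by congr 1; ring
    _ ≤ ν * S + A * S := (norm_add_le _ _).trans (add_le_add h2 (hD j h1))
    _ = (A + ν) * S := by ring

lemma diam_trS (hn : 1 ≤ n) (hn' : 1 ≤ n') (hC : ClS S τ β ν s s') (ht : 0 ≤ t) (hb : t + 1 / n ≤ β) {c c' : ℕ} (hc : c ≤ n)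
    (hc' : c' ≤ n') (hcτ : (c : ℝ) / n ≤ τ) (hcτ' : (c' : ℝ) / n' ≤ τ)
    (h : |(c : ℝ) / n - (c' : ℝ) / n'| ≤ t) {A : ℝ} (hD : ∀ i j : ℕ, i ≤ c → j ≤ c → ‖pos s i - pos s j‖ ≤ A * S) :
    ∀ i j : ℕ, i ≤ c' → j ≤ c' → ‖pos s' i - pos s' j‖ ≤ (A + 2 * ν) * S := by
  intro i j hi hj
  obtain ⟨i1, h1, h2⟩ := pre_trS hn' hn hC.symm ht hb hc' hc hcτ' hcτ (by rwa [abs_sub_comm]) i hi
  obtain ⟨j1, g1, g2⟩ := pre_trS hn' hn hC.symm ht hb hc' hc hcτ' hcτ (by rwa [abs_sub_comm]) j hj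
  have h4 := hD i1 j1 h1 g1
  calc ‖pos s' i - pos s' j‖ = ‖(pos s' i - pos s i1) + (pos s i1 - pos s j1) - (pos s' j - pos s j1)‖ := by
        congr 1; ring
    _ ≤ ν * S + A * S + ν * S := (norm_sub_le _ _).trans (add_le_add ((norm_add_le _ _).trans (add_le_add h2 h4)) g2)
    _ = (A + 2 * ν) * S := by ring

variable {D D' : ℝ → ℕ → Prop}

/-- a start cut of `s'` near a start cut of `s` -/
lemma mateS {a μ : ℝ} (hD : Sz1 s D) (hD' : Sz1 s' D') (hT : TrS θ τ μ S s s' D D') (hS0 : 0 < S) (hn : 1 ≤ n) (hn' : 1 ≤ n')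
    (hC : ClS S τ β ν s s') (hS : StbD D R θ S s s') (hR : 0 < R) (hθ : 0 < θ)
    (hθR : θ ≤ R / 8) (hν : ν ≤ R / 32) (hμ : μ ≤ R / 8) (hb : θ + 1 / n ≤ β) {ρc : ℝ} {c : ℕ}
    (hρ1 : 41 * R ≤ ρc) (hρ2 : ρc ≤ 130 * R) (hc : SC (ρc * S) s c) (hcτ : (c : ℝ) / n + θ ≤ τ)
    (hcf : ∀ i : ℕ, i ≤ c → ‖pos s i‖ ≤ 9 / 4 * R * S) (ha : R / 4 ≤ a) (hdm : D (a * S) c) :
    ∃ c' : ℕ, SC ((ρc - θ) * S) s' c' ∧ IA (R * S) s' c' ∧ |(c : ℝ) / n - (c' : ℝ) / n'| ≤ θ ∧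
      ‖pos s c - pos s' c'‖ ≤ θ * S ∧ D' ((a - μ) * S) c' := by
  obtain ⟨c', h1, h2, h3⟩ := hS ρc c (by linarith) hρ2 hc (fun i hi => (hcf i hi).trans
    (mul_le_mul_of_nonneg_right (by linarith) hS0.le)) (hD.anti hdm (mul_le_mul_of_nonneg_right (by linarith) hS0.le))
  have h2' := abs_le.1 h2
  have h4 := conf_trS hn hn' hC hθ.le hb hc.lt.le h1.lt.le (by linarith) (by linarith) h2 hcf
  have h5 := hT c c' a hc.lt.le h1.lt.le (by linarith) (by linarith) h2 h3 hdm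
  refine ⟨c', h1, ⟨h1.mono ?_, fun i hi => (h4 i hi).trans ?_, dmg_mono (hD'.dm h5) ?_ le_rfl⟩, h2, h3, h5⟩
  · rw [← mul_assoc]
    exact mul_le_mul_of_nonneg_right (by linarith) hS0.le
  · rw [← mul_assoc]
    exact mul_le_mul_of_nonneg_right (by linarith) hS0.le
  · have e : R * S / 8 = R / 8 * S := by ring
    rw [e]
    exact mul_le_mul_of_nonneg_right (by linarith) hS0.le

/-- back from `s'` to `s` below `k2s` -/
lemma backS (hS0 : 0 < S) (hR : 0 < R) (hS : StbD D' R θ S s' s) (hθR : θ ≤ R / 8) {ρ : ℝ} (hρ : 64 * R ≤ ρ)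
    {k2s c' : ℕ} (hk : SC ((ρ - θ) * S) s' k2s) (hcf : ∀ i : ℕ, i ≤ k2s → ‖pos s' i‖ ≤ 3 * R * S)
    (hc' : IA (R * S) s' c') (hDc : D' (R / 8 * S) c') (hlt : c' < k2s) :
    ∃ c : ℕ, SC (56 * R * S) s c ∧ |(c' : ℝ) / n' - (c : ℝ) / n| ≤ θ ∧ ‖pos s' c' - pos s c‖ ≤ θ * S := by
  have h1 : SCut s' 0 c' k2s := hc'.1.scut hlt hk.lt.le hcf (by
    have : 0 ≤ R * S := mul_nonneg hR.le hS0.le
    linarith)
  have h2 := (hk.pre h1 hcf).mono (ρ' := 57 * R * S) (by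
    have h3 : 57 * R * S ≤ (ρ - θ - 6 * R) * S := mul_le_mul_of_nonneg_right (by linarith) hS0.le
    linarith)
  obtain ⟨c, g1, g2, g3⟩ := hS (57 * R) c' (by linarith) (by linarith) h2 (fun i hi => (hcf i (hi.trans hlt.le)).trans
    (mul_le_mul_of_nonneg_right (by linarith) hS0.le)) hDc
  exact ⟨c, g1.mono (mul_le_mul_of_nonneg_right (by linarith) hS0.le), g2, g3⟩

end

section

variable {D : ℝ → ℕ → Prop} {n : ℕ} {s : Fin n → Fin 3} {R a r ρ S : ℝ} {k : ℕ}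

lemma tp_conf (hS0 : 0 ≤ S) (hR : 0 ≤ R) (hr : r ≤ 2 * R) (ht : TP D (a * S) (r * S) (ρ * S) s k) :
    ∀ i : ℕ, i ≤ k → ‖pos s i‖ ≤ 9 / 4 * R * S := by
  intro i hi
  have h1 := ht.1.2.2.1 i 0 hi (Nat.zero_le _)
  rw [NTSF.pos_zero, sub_zero] at h1
  refine h1.trans (mul_le_mul_of_nonneg_right (by linarith) hS0)

lemma tp_sc {a r ρ : ℝ} (ht : TP D a r ρ s k) : SC ρ s k := ⟨ht.1.1, ht.1.2.1, ht.2⟩

/-- there is at most one start gate -/
theorem tp_unique {a r ρ : ℝ} (hr : r ≤ ρ) {k k' : ℕ} (h : TP D a r ρ s k) (h' : TP D a r ρ s k') : k = k' :=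
  td_unique (D := fun a _ _ k => D a k) hr h h'

/-- a start gate from the first cut -/
theorem tp_of_first {a r ρ : ℝ} (hD : Sz1 s D) (ha : R / 8 ≤ a) (hρ : 46 * R ≤ ρ) (hk : IA R s k) (hka : D a k)
    (hkm : ∀ c, c < k → ¬ (IA R s c ∧ D a c)) (hrad : SC ρ s k)
    (hr : ∀ i j : ℕ, i ≤ k → j ≤ k → ‖pos s i - pos s j‖ ≤ r) : TP D a r ρ s k := by
  refine ⟨⟨hk.1.1, hk.1.2.1, hr, hka, fun c hc hd => ?_⟩, hrad.2.2⟩
  exact hkm c hc.2.1 ⟨⟨(hrad.pre hc hk.2.1).mono (by linarith), fun i hi => hk.2.1 i (hi.trans hc.2.1.le),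
    dmg_mono (hD.dm hd) ha le_rfl⟩, hd⟩

/-- the start cuts with a start piece of size at least `a`, unit `S` -/
def PS (D : ℝ → ℕ → Prop) (R S a : ℝ) {n : ℕ} (s : Fin n → Fin 3) (c : ℕ) : Prop := IA (R * S) s c ∧ D (a * S) c

lemma ps_mono {n : ℕ} {s : Fin n → Fin 3} (hD : Sz1 s D) (hS0 : 0 ≤ S) {R : ℝ} (hn : 1 ≤ n) :
    Monotone fun a => ft n (PS D R S a s) := fun _ _ hab =>
  ft_mono hn (fun _ hc => ⟨hc.1, hD.anti hc.2 (mul_le_mul_of_nonneg_right hab hS0)⟩) fun _ hc => hc.1.le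

/-- the number of squares is monotone in `a` -/
lemma qfs_mono {n : ℕ} {s : Fin n → Fin 3} (hD : Sz1 s D) (hS0 : 0 < S) {R w Q : ℝ} (hR : 0 < R)
    (hQ : ∀ c : ℕ, ((VS (140 * R * S) (w * S) s c).card : ℝ) ≤ Q) :
    Monotone fun x => qf (Q + 1) (fun c => ((VS (140 * R * S) (w * S) s c).card : ℝ)) (PS D R S x s) := by
  classical
  intro x y hxy
  have hle : ∀ c, PS D R S y s c → PS D R S x s c := fun c hc =>
    ⟨hc.1, hD.anti hc.2 (mul_le_mul_of_nonneg_right hxy hS0.le)⟩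
  show qf _ _ (PS D R S x s) ≤ qf _ _ (PS D R S y s)
  by_cases h : ∃ c, PS D R S y s c
  · have h' : ∃ c, PS D R S x s c := ⟨_, hle _ (Nat.find_spec h)⟩
    rw [qf_of (Nat.find_spec h) fun c' hc' => Nat.find_min h hc', qf_of (Nat.find_spec h') fun c' hc' => Nat.find_min h' hc']
    have h1 : Nat.find h' ≤ Nat.find h := Nat.find_min' h' (hle _ (Nat.find_spec h))
    have h2 : Nat.find h' = Nat.find h ∨ SCut s 0 (Nat.find h') (Nat.find h) := by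
      rcases eq_or_lt_of_le h1 with h3 | h3
      · exact Or.inl h3
      · exact Or.inr ((Nat.find_spec h').1.scut (mul_pos hR hS0) (Nat.find_spec h).1 h3)
    exact_mod_cast Finset.card_le_card (vs_mono h2)
  · rw [qf_no h]
    by_cases h' : ∃ c, PS D R S x s c
    · rw [qf_of (Nat.find_spec h') fun c' hc' => Nat.find_min h' hc']
      have := hQ (Nat.find h')
      linarith
    · rw [qf_no h']

lemma qfs_bd {R w Q : ℝ} (hQ0 : 0 ≤ Q) {n : ℕ} {s : Fin n → Fin 3}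
    (hQ : ∀ c : ℕ, ((VS (140 * R * S) (w * S) s c).card : ℝ) ≤ Q) (x : ℝ) :
    0 ≤ qf (Q + 1) (fun c => ((VS (140 * R * S) (w * S) s c).card : ℝ)) (PS D R S x s) ∧
      qf (Q + 1) (fun c => ((VS (140 * R * S) (w * S) s c).card : ℝ)) (PS D R S x s) ≤ Q + 1 := by
  classical
  by_cases h' : ∃ c, PS D R S x s c
  · rw [qf_of (Nat.find_spec h') fun c' hc' => Nat.find_min h' hc']
    have := hQ (Nat.find h')
    exact ⟨Nat.cast_nonneg _, by linarith⟩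
  · rw [qf_no h']
    exact ⟨by linarith, le_rfl⟩

end

/-- **a start gate of `s` gives one of `s'`**, unit of length `S`, each walk with its own size predicate -/
theorem td_closeS {n n' : ℕ} {s : Fin n → Fin 3} {s' : Fin n' → Fin 3} {D D' : ℝ → ℕ → Prop} (hD : Sz1 s D) (hD' : Sz1 s' D')
    {S R θ τ βa νa βb νb μ μ' μ3 η1 w Q a r ρ : ℝ}
    {k : ℕ} (hT : TrS θ τ μ' S s s' D D') (hT' : TrS θ τ μ' S s' s D' D) (hS0 : 0 < S) (hn : 1 ≤ n) (hn' : 1 ≤ n') (hR : 0 < R)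
    (hCa : ClS S τ βa νa s s') (hCb : ClS S τ βb νb s s') (hS : StbD D R θ S s s') (hS' : StbD D' R θ S s' s)
    (hθ : 0 < θ) (hθR : θ ≤ R / 8) (hν : νb ≤ R / 32) (hb : θ + 1 / n ≤ βb)
    (hμ' : μ' ≤ R / 8) (hμ : μ' ≤ μ) (hμ0 : 0 ≤ μ)
    (hη1 : 0 ≤ η1) (hba : θ + η1 + 1 / n ≤ βa) (hw : 0 < w) (hμ3 : 2 * w + νa + 2 * θ ≤ μ3)
    (hμ3' : 2 * νa ≤ μ3) (hμ30 : 0 ≤ μ3) (hμ3R : μ3 ≤ R) (ha : R / 4 ≤ a) (hr : r ≤ 2 * R)
    (hρ : 64 * R ≤ ρ) (hρ2 : ρ ≤ 128 * R) (hlt : θ + η1 < 1)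
    (ht : TP D (a * S) (r * S) (ρ * S) s k) (hkτ : (k : ℝ) / n + 2 * (θ + η1) ≤ τ)
    (hQ : ∀ c : ℕ, ((VS (140 * R * S) (w * S) s' c).card : ℝ) ≤ Q)
    (g1 : ft n' (PS D' R S (a + μ) s') - ft n' (PS D' R S (a - μ) s') ≤ η1)
    (g2 : qf (Q + 1) (fun c => ((VS (140 * R * S) (w * S) s' c).card : ℝ)) (PS D' R S (a + μ) s') -
        qf (Q + 1) (fun c => ((VS (140 * R * S) (w * S) s' c).card : ℝ)) (PS D' R S (a - μ) s') < 1) :
    ∃ k' : ℕ, TP D' (a * S) ((r + μ3) * S) ((ρ - μ3) * S) s' k' ∧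
      |(k : ℝ) / n - (k' : ℝ) / n'| ≤ θ + η1 ∧ ‖pos s k - pos s' k'‖ ≤ νa * S := by
  have hn0 : (0 : ℝ) < n := by exact_mod_cast hn
  have hn0' : (0 : ℝ) < n' := by exact_mod_cast hn'
  have hRs' : 0 < R * S := mul_pos hR hS0
  have hkn : k < n := ht.2.1
  have hconf := tp_conf hS0.le hR.le hr ht
  have hfr : ∀ {P : ℕ → Prop}, (∀ c, P c → IA (R * S) s' c) → ∀ c, P c → c ≤ n' := fun h c hc => (h c hc).le
  have tk2 : (k : ℝ) / n ≤ 1 := by
    rw [div_le_one hn0]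
    exact_mod_cast hkn.le
  -- the mate
  obtain ⟨ks, m1, m2, m3, m4, m2'⟩ := mateS hD hD' hT hS0 hn hn' hCb hS hR hθ hθR hν hμ' hb (by linarith : 41 * R ≤ ρ)
    (by linarith) (tp_sc ht) (by linarith) hconf ha ht.1.2.2.2.1
  have m3' := abs_le.1 m3
  have hksD : ∀ i : ℕ, i ≤ ks → ‖pos s' i‖ ≤ 3 * R * S := fun i hi => (m2.2.1 i hi).trans (le_of_eq (by ring))
  have e1s : PS D' R S (a - μ) s' ks := ⟨m2, hD'.anti m2' (mul_le_mul_of_nonneg_right (by linarith) hS0.le)⟩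
  -- first times
  have u1 : ft n' (PS D' R S (a - μ) s') ≤ (k : ℝ) / n + θ := by
    refine (ft_of e1s).trans ?_
    linarith
  have u2 : (k : ℝ) / n - θ ≤ ft n' (PS D' R S (a + μ) s') := by
    refine le_ft (fun c' hc' => ?_) (by linarith)
    rcases le_or_gt ks c' with h1 | h1
    · have h2 : (ks : ℝ) / n' ≤ (c' : ℝ) / n' := div_le_div_of_nonneg_right (by exact_mod_cast h1) hn0'.le
      linarith
    · obtain ⟨c, c1, c2, c3⟩ := backS hS0 hR hS' hθR hρ m1 hksD hc'.1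
        (hD'.anti hc'.2 (mul_le_mul_of_nonneg_right (by linarith) hS0.le)) h1
      have c5 : (c' : ℝ) / n' ≤ (ks : ℝ) / n' := div_le_div_of_nonneg_right (by exact_mod_cast h1.le) hn0'.le
      have c6 := abs_le.1 c2
      have c4 := hT' c' c (a + μ) hc'.1.le c1.lt.le (by linarith) (by linarith) c2 c3 hc'.2
      have h3 : k ≤ c := by
        by_contra hcc
        have hck : c < k := not_le.1 hcc
        have h4 : SCut s 0 c k := c1.scut hck hkn.le hconf (by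
          have : 0 ≤ R * S := mul_nonneg hR.le hS0.le
          linarith)
        exact ht.1.2.2.2.2 c h4 (hD.anti c4 (mul_le_mul_of_nonneg_right (by linarith) hS0.le))
      have h5 : (k : ℝ) / n ≤ (c : ℝ) / n := div_le_div_of_nonneg_right (by exact_mod_cast h3) hn0.le
      have c2' := abs_le.1 c2
      linarith
  -- the first cut of `s'`
  have u3 : ft n' (PS D' R S a s') ≤ ft n' (PS D' R S (a + μ) s') :=
    ft_mono hn' (fun c hc => ⟨hc.1, hD'.anti hc.2 (mul_le_mul_of_nonneg_right (by linarith) hS0.le)⟩) (hfr fun c hc => hc.1)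
  have u4 : ft n' (PS D' R S (a - μ) s') ≤ ft n' (PS D' R S a s') :=
    ft_mono hn' (fun c hc => ⟨hc.1, hD'.anti hc.2 (mul_le_mul_of_nonneg_right (by linarith) hS0.le)⟩) (hfr fun c hc => hc.1)
  obtain ⟨k', p1, p2, p3⟩ := ft_ex (show ft n' (PS D' R S a s') < 2 by linarith)
  rw [p3] at u3 u4
  have za : |(k : ℝ) / n - (k' : ℝ) / n'| ≤ θ + η1 := by
    rw [abs_le]
    constructor <;> linarith
  have hinv : (0 : ℝ) < 1 / n := by positivity
  have za' := abs_le.1 za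
  have zb := hCa k k' hkn.le p1.1.le (by linarith) (by linarith) (za.trans (by linarith))
  -- the squares
  have hVS : VS (140 * R * S) (w * S) s' k' ⊆ VS (140 * R * S) (w * S) s' ks := by
    obtain ⟨c1, d1, d2, -⟩ := ft_ex (show ft n' (PS D' R S (a - μ) s') < 2 by linarith)
    have hex : ∃ c, PS D' R S (a + μ) s' c := by
      by_contra hno
      rw [qf_no hno, qf_of d1 d2] at g2
      have := hQ c1
      linarith
    obtain ⟨c2, e1, e2⟩ : ∃ c, PS D' R S (a + μ) s' c ∧ ∀ c', c' < c → ¬ PS D' R S (a + μ) s' c' := by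
      classical
      exact ⟨Nat.find hex, Nat.find_spec hex, fun c' hc' => Nat.find_min hex hc'⟩
    rw [qf_of d1 d2, qf_of e1 e2] at g2
    have f1 : PS D' R S (a - μ) s' c2 := ⟨e1.1, hD'.anti e1.2 (mul_le_mul_of_nonneg_right (by linarith) hS0.le)⟩
    have f2 : PS D' R S a s' c2 := ⟨e1.1, hD'.anti e1.2 (mul_le_mul_of_nonneg_right (by linarith) hS0.le)⟩
    have om : ∀ {c c' : ℕ}, IA (R * S) s' c → IA (R * S) s' c' → c ≤ c' →
        VS (140 * R * S) (w * S) s' c ⊆ VS (140 * R * S) (w * S) s' c' := by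
      intro c c' i1 i2 i3
      refine vs_mono ?_
      rcases eq_or_lt_of_le i3 with i4 | i4
      · exact Or.inl i4
      · exact Or.inr (i1.scut hRs' i2 i4)
    have o1 : c1 ≤ c2 := by
      by_contra hc
      exact d2 c2 (not_le.1 hc) f1
    have o2 : c1 ≤ ks := by
      by_contra hc
      exact d2 ks (not_le.1 hc) e1s
    have o3 : k' ≤ c2 := by
      by_contra hc
      exact p2 c2 (not_le.1 hc) f2
    have h1 := om d1.1 e1.1 o1
    have h2 : (VS (140 * R * S) (w * S) s' c2).card ≤ (VS (140 * R * S) (w * S) s' c1).card := by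
      have : ((VS (140 * R * S) (w * S) s' c2).card : ℝ) < ((VS (140 * R * S) (w * S) s' c1).card : ℝ) + 1 := by
        linarith
      have h3 : (VS (140 * R * S) (w * S) s' c2).card < (VS (140 * R * S) (w * S) s' c1).card + 1 := by
        exact_mod_cast this
      omega
    have h3 := Finset.eq_of_subset_of_card_le h1 h2
    refine (om p1.1 e1.1 o3).trans ?_
    rw [← h3]
    exact om d1.1 m2 o2
  -- the radius
  have hdist : ‖pos s' k' - pos s' ks‖ ≤ (νa + θ) * S := by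
    calc ‖pos s' k' - pos s' ks‖ = ‖-(pos s k - pos s' k') + (pos s k - pos s' ks)‖ := by congr 1; ring
      _ ≤ νa * S + θ * S := (norm_add_le _ _).trans (add_le_add (by rw [norm_neg]; exact zb) m4)
      _ = (νa + θ) * S := by ring
  have hrad : SC ((ρ - μ3) * S) s' k' := by
    refine m1.of_vs (mul_pos hw hS0) p1.1.1 hVS (p1.1.2.1 k' le_rfl) ?_ ?_
    · have h1 : (ρ - μ3 + 3 * R) * S ≤ 140 * R * S := mul_le_mul_of_nonneg_right (by linarith) hS0.le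
      linarith
    · have h1 : (ρ - μ3 + 2 * w + (νa + θ)) * S ≤ (ρ - θ) * S := mul_le_mul_of_nonneg_right (by linarith) hS0.le
      linarith
  -- the gate
  refine ⟨k', tp_of_first hD' (R := R * S) ?_ ?_ p1.1 p1.2 p2 hrad ?_, za, zb⟩
  · have h1 : R / 8 * S ≤ a * S := mul_le_mul_of_nonneg_right (by linarith) hS0.le
    linarith
  · have h1 : 46 * R * S ≤ (ρ - μ3) * S := mul_le_mul_of_nonneg_right (by linarith) hS0.le
    linarith
  · intro i j hi hj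
    refine (diam_trS hn hn' hCa (by linarith : 0 ≤ θ + η1) (by linarith) hkn.le p1.1.le (by linarith) (by linarith) za
      ht.1.2.2.1 i j hi hj).trans ?_
    exact mul_le_mul_of_nonneg_right (by linarith) hS0.le

end Pool.Agent.SCF.M
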