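import Pool.Agent.ROT.F3MacS1

/-!
# ROT, block F3, row W3: comparison of the averages over the start gates, unit of length `S` (helper66; after helper59's F3MacB)

* `inP D a r ρ h s` : the value `h k` at the start gate `k` of `s` (0: none), `h : ℕ → ℝ` free, `D : ℝ → ℕ → Prop` the size;
  `psP D M B S h s` : the average over the grid; `ps0_P` : `ps0` of `F3MacB` is a special case;
* `NrS` : close start cuts of two walks;
* **`psPC`** : for two close walks with stability and transfer of the size the averages of two functions `h`, `h'` with comparable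
  values at close start cuts are comparable; `M`, `h`, `h'`, `D`, `D'`, the unit `S` and the numbers of steps are free.
-/

set_option autoImplicit false

open Set Filter Topology MeasureTheory

namespace Pool.Agent.SCF.M

open Pool.Agent.NTS.Res
open Pool.Agent.CRT (CI)
open Pool.Agent.SCF.Z

open Classical in
/-- the value of `h` at the start gate -/
noncomputable def inP (D : ℝ → ℕ → Prop) (a r ρ : ℝ) (h : ℕ → ℝ) {n : ℕ} (s : Fin n → Fin 3) : ℝ :=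
  ∑ k ∈ Finset.range (n + 1), if TP D a r ρ s k then h k else 0

/-- **the average over the grid**, unit of length `S` -/
noncomputable def psP (D : ℝ → ℕ → Prop) (M : ℕ) (B : Box) (S : ℝ) (h : ℕ → ℝ) {n : ℕ} (s : Fin n → Fin 3) : ℝ :=
  (∑ i2 ∈ Finset.range M, ∑ i3 ∈ Finset.range M, ∑ i5 ∈ Finset.range M,
    inP D (gp M B.a0 B.a1 i3 * S) (gp M B.r0 B.r1 i2 * S) (gp M B.p0 B.p1 i5 * S) h s) / (M : ℝ) ^ 3

lemma in0_P {D : SzT} {a r ρ : ℝ} {H : CI → ℝ → ℝ} {n : ℕ} {s : Fin n → Fin 3} :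
    in0 D a r ρ H s = inP (fun a k => D a n s k) a r ρ (fun k => H (curve s) ((k : ℝ) / n)) s := rfl

lemma ps0_P {D : SzT} {M : ℕ} {B : Box} {S : ℝ} {H : CI → ℝ → ℝ} {n : ℕ} {s : Fin n → Fin 3} :
    ps0 D M B S H s = psP (fun a k => D a n s k) M B S (fun k => H (curve s) ((k : ℝ) / n)) s := rfl

/-- `k` and `k'` are close start cuts of `s` and `s'` -/
structure NrS (D D' : ℝ → ℕ → Prop) (R S η τ ν : ℝ) {n n' : ℕ} (s : Fin n → Fin 3) (s' : Fin n' → Fin 3) (k k' : ℕ) : Prop where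
  sc : SC (64 * R * S) s k
  sc' : SC (63 * R * S) s' k'
  d : D (R / 4 * S) k
  d' : D' (R / 4 * S) k'
  cf : ∀ i : ℕ, i ≤ k → ‖pos s i‖ ≤ 9 / 4 * R * S
  cf' : ∀ i : ℕ, i ≤ k' → ‖pos s' i‖ ≤ 3 * R * S
  tm : |(k : ℝ) / n - (k' : ℝ) / n'| ≤ η
  tu : (k : ℝ) / n + η ≤ τ
  ps : ‖pos s k - pos s' k'‖ ≤ ν * S

section

variable {D : ℝ → ℕ → Prop} {a r ρ : ℝ} {h : ℕ → ℝ} {n : ℕ} {s : Fin n → Fin 3}

lemma inP_nn (hh : ∀ k, 0 ≤ h k) : 0 ≤ inP D a r ρ h s := by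
  classical
  unfold inP
  refine Finset.sum_nonneg fun k _ => ?_
  split_ifs
  · exact hh _
  · exact le_rfl

lemma inP_eq {k : ℕ} (hr : r ≤ ρ) (ht : TP D a r ρ s k) : inP D a r ρ h s = h k := by
  classical
  unfold inP
  rw [Finset.sum_eq_single k]
  · rw [if_pos ht]
  · intro j _ hj
    rw [if_neg fun h => hj (tp_unique hr h ht)]
  · intro h
    exact absurd (Finset.mem_range.2 (Nat.lt_succ_of_lt ht.2.1)) h

lemma inP_zero (h0 : ∀ k, ¬ TP D a r ρ s k) : inP D a r ρ h s = 0 := by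
  classical
  unfold inP
  refine Finset.sum_eq_zero fun k _ => ?_
  rw [if_neg (h0 k)]

lemma inP_le (hr : r ≤ ρ) (hh : ∀ k, h k ≤ 1) : inP D a r ρ h s ≤ 1 := by
  by_cases h1 : ∃ k, TP D a r ρ s k
  · obtain ⟨k, hk⟩ := h1
    rw [inP_eq hr hk]
    exact hh _
  · rw [inP_zero fun k hk => h1 ⟨k, hk⟩]
    exact zero_le_one

lemma psP_eq {M : ℕ} {B : Box} {S : ℝ} (hM : 0 < M) : psP D M B S h s =
    S5 M (fun _ i2 i3 _ i5 => inP D (gp M B.a0 B.a1 i3 * S) (gp M B.r0 B.r1 i2 * S) (gp M B.p0 B.p1 i5 * S) h s) /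
      (M : ℝ) ^ 5 := by
  have hM' : (0 : ℝ) < M := by exact_mod_cast hM
  unfold psP S5
  simp only [Finset.sum_const, Finset.card_range, nsmul_eq_mul]
  simp_rw [← Finset.mul_sum]
  have key : ∀ T : ℝ, T / (M : ℝ) ^ 3 = (M : ℝ) * ((M : ℝ) * T) / (M : ℝ) ^ 5 := fun T => by
    field_simp
  exact key _

lemma psP_nn {M : ℕ} {B : Box} {S : ℝ} (hh : ∀ k, 0 ≤ h k) : 0 ≤ psP D M B S h s := by
  unfold psP
  refine div_nonneg ?_ (by positivity)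
  exact Finset.sum_nonneg fun _ _ => Finset.sum_nonneg fun _ _ => Finset.sum_nonneg fun _ _ => inP_nn hh

lemma psP_le {M : ℕ} {B : Box} {R S : ℝ} (hB : B.Ok R) (hR : 0 ≤ R) (hS : 0 ≤ S) (hh : ∀ k, h k ≤ 1) :
    psP D M B S h s ≤ 1 := by
  unfold psP
  refine div_le_one_of_le₀ ?_ (by positivity)
  have h1 : ∑ i2 ∈ Finset.range M, ∑ i3 ∈ Finset.range M, ∑ i5 ∈ Finset.range M,
      inP D (gp M B.a0 B.a1 i3 * S) (gp M B.r0 B.r1 i2 * S) (gp M B.p0 B.p1 i5 * S) h s ≤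
      ∑ i2 ∈ Finset.range M, ∑ i3 ∈ Finset.range M, ∑ i5 ∈ Finset.range M, (1 : ℝ) :=
    Finset.sum_le_sum fun i2 h2 => Finset.sum_le_sum fun i3 _ => Finset.sum_le_sum fun i5 h5 =>
      inP_le (grid0 hB hR hS (Finset.mem_range.1 h2) (Finset.mem_range.1 h5)) hh
  refine h1.trans (le_of_eq ?_)
  simp only [Finset.sum_const, Finset.card_range, nsmul_eq_mul, mul_one]
  ring

end

/-- **comparison of the averages**: the closeness `νa` first, then (after `βa`) the closeness `νb` and the transfer `μ'`, then (after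
`βb`) the stability `θ` -/
theorem psPC {R ε η ν0 : ℝ} (hR : 0 < R) (hε : 0 < ε) (hη : 0 < η) (hν00 : 0 < ν0) {B : Box} (hB : B.Ok R) :
    ∃ νa : ℝ, 0 < νa ∧ νa ≤ ν0 ∧ ∀ βa : ℝ, 0 < βa → ∃ νb μ' : ℝ, 0 < νb ∧ νb ≤ ν0 ∧ 0 < μ' ∧ 2 * νb ≤ μ' ∧
      ∀ βb : ℝ, 0 < βb → ∃ (θ : ℝ) (M1 : ℕ), 0 < θ ∧ θ ≤ βb / 4 ∧ θ ≤ ν0 ∧
      ∀ M : ℕ, M1 ≤ M → 1 ≤ M → ∀ (n n' : ℕ) (s : Fin n → Fin 3) (s' : Fin n' → Fin 3) (D D' : ℝ → ℕ → Prop) (S τ : ℝ),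
        Sz1 s D → Sz1 s' D' → 0 < S → 1 ≤ n → 1 ≤ n' →
        1 / (n : ℝ) ≤ θ → 1 / (n' : ℝ) ≤ θ → ClS S τ βa νa s s' → ClS S τ βb νb s s' → TrS θ τ μ' S s s' D D' →
        TrS θ τ μ' S s' s D' D → StbD D R θ S s s' → StbD D' R θ S s' s →
        (∀ k : ℕ, SC (64 * R * S) s k → (∀ i : ℕ, i ≤ k → ‖pos s i‖ ≤ 9 / 4 * R * S) → (k : ℝ) / n + η ≤ τ) →
        ∀ (h h' : ℕ → ℝ) (e : ℝ), 0 ≤ e → (∀ k, h k ≤ 1) → (∀ k, 0 ≤ h' k) →
          (∀ k k' : ℕ, NrS D D' R S η τ νa s s' k k' → h k ≤ h' k' + e) →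
          psP D M B S h s ≤ psP D' M B S h' s' + e + ε := by
  classical
  obtain ⟨c, hc⟩ : ∃ c, c = min 1 (ε / 64) := ⟨_, rfl⟩
  have hc0 : 0 < c := by rw [hc]; exact lt_min one_pos (by positivity)
  have hc1 : c ≤ 1 := by rw [hc]; exact min_le_left _ _
  have hc2 : c ≤ ε / 64 := by rw [hc]; exact min_le_right _ _
  have hBr := sub_pos.2 hB.r
  have hBp := sub_pos.2 hB.p'
  have hBa := sub_pos.2 hB.a'
  obtain ⟨d, hd⟩ : ∃ d, d = min R (min (B.r1 - B.r0) (B.p1 - B.p0)) := ⟨_, rfl⟩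
  have hd0 : 0 < d := by rw [hd]; exact lt_min hR (lt_min hBr hBp)
  have hdR : d ≤ R := by rw [hd]; exact min_le_left _ _
  have hdr : d ≤ B.r1 - B.r0 := by rw [hd]; exact (min_le_right _ _).trans (min_le_left _ _)
  have hdp : d ≤ B.p1 - B.p0 := by rw [hd]; exact (min_le_right _ _).trans (min_le_right _ _)
  obtain ⟨μ3, hμ3⟩ : ∃ μ3, μ3 = c * d := ⟨_, rfl⟩
  have hμ30 : 0 < μ3 := by rw [hμ3]; positivity
  have hμR : μ3 ≤ R := by rw [hμ3]; nlinarith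
  obtain ⟨νa, hνa⟩ : ∃ νa, νa = min (μ3 / 4) ν0 := ⟨_, rfl⟩
  have hνa0 : 0 < νa := by rw [hνa]; exact lt_min (by positivity) hν00
  have hνa1 : νa ≤ μ3 / 4 := by rw [hνa]; exact min_le_left _ _
  have hνa2 : νa ≤ ν0 := by rw [hνa]; exact min_le_right _ _
  refine ⟨νa, hνa0, hνa2, fun βa hβa => ?_⟩
  obtain ⟨η1, hη1'⟩ : ∃ η1, η1 = min (βa / 4) (min (1 / 8) (η / 4)) := ⟨_, rfl⟩
  have hη0 : 0 < η1 := by
    rw [hη1']; exact lt_min (by positivity) (lt_min (by norm_num) (by positivity))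
  have hηa : η1 ≤ βa / 4 := by rw [hη1']; exact min_le_left _ _
  have hηb : η1 ≤ 1 / 8 := by rw [hη1']; exact (min_le_right _ _).trans (min_le_left _ _)
  have hηc : η1 ≤ η / 4 := by rw [hη1']; exact (min_le_right _ _).trans (min_le_right _ _)
  obtain ⟨w, hw⟩ : ∃ w, w = μ3 / 8 := ⟨_, rfl⟩
  have hw0 : 0 < w := by rw [hw]; positivity
  obtain ⟨Q, hQ⟩ : ∃ Q : ℝ, Q = (((2 * ⌈140 * R / w⌉₊ + 1) ^ 2 : ℕ) : ℝ) := ⟨_, rfl⟩
  have hQ0 : 0 ≤ Q := by rw [hQ]; exact Nat.cast_nonneg _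
  have hV : ∀ {n : ℕ} (s : Fin n → Fin 3) {S : ℝ}, 0 < S → ∀ c : ℕ, ((VS (140 * R * S) (w * S) s c).card : ℝ) ≤ Q := by
    intro n s S hS c
    rw [hQ]
    refine Nat.cast_le.2 (vs_card (mul_pos hw0 hS) (le_of_eq ?_) s c)
    field_simp
  obtain ⟨μ, hμ⟩ : ∃ μ, μ = ε * (B.a1 - B.a0) / (16 * (2 / η1 + (Q + 1))) := ⟨_, rfl⟩
  have hμ0 : 0 < μ := by rw [hμ]; positivity
  have hμe : 2 * μ / (B.a1 - B.a0) * (2 / η1 + (Q + 1)) ≤ ε / 8 := by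
    rw [hμ]
    have h1 : 0 < 2 / η1 + (Q + 1) := by positivity
    apply le_of_eq
    field_simp
    ring
  obtain ⟨M1, hM1, hMain⟩ := s5_shift' (ε := ε) (a0 := 0) (a1 := 1) (h0 := B.a0) (h1 := B.a1) (η1 := 1) (η := η1)
    (ω := μ) (c := c) (Q := Q + 1) hε (by linarith) (by linarith) one_pos hη0 (by linarith) hμ0.le hc0.le hc2 hμe
  obtain ⟨μ', hμ'⟩ : ∃ μ', μ' = min μ (R / 16) := ⟨_, rfl⟩
  have hμ'0 : 0 < μ' := by rw [hμ']; exact lt_min hμ0 (by positivity)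
  have hμ'1 : μ' ≤ μ := by rw [hμ']; exact min_le_left _ _
  have hμ'2 : μ' ≤ R / 16 := by rw [hμ']; exact min_le_right _ _
  obtain ⟨νb, hνb⟩ : ∃ νb, νb = min (μ' / 2) ν0 := ⟨_, rfl⟩
  have hνb0 : 0 < νb := by rw [hνb]; exact lt_min (by positivity) hν00
  have hνb1 : νb ≤ μ' / 2 := by rw [hνb]; exact min_le_left _ _
  have hνb3 : νb ≤ ν0 := by rw [hνb]; exact min_le_right _ _
  refine ⟨νb, μ', hνb0, hνb3, hμ'0, by linarith, fun βb hβb => ?_⟩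
  obtain ⟨θ, hθ0, t1, t2, t3, t4, t5, t6⟩ : ∃ θ : ℝ, 0 < θ ∧ θ ≤ η1 ∧ θ ≤ μ3 / 8 ∧ θ ≤ R / 8 ∧ θ ≤ βb / 4 ∧ θ ≤ βa / 4 ∧
      θ ≤ ν0 :=
    ⟨min η1 (min (μ3 / 8) (min (R / 8) (min (βb / 4) (min (βa / 4) ν0)))), by
        refine lt_min hη0 (lt_min ?_ (lt_min ?_ (lt_min ?_ (lt_min ?_ ?_)))) <;> positivity,
      by simp, by simp, by simp, by simp, by simp, by simp⟩
  refine ⟨θ, M1, hθ0, t4, t6, fun M hM hM0 n n' s s' D D' S τ hD hD' hS0 a1 b1 a2 b2 hCa hCb hT hT' hS hS' hτ h h' e he hh hh'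
    hcmp => ?_⟩
  obtain ⟨μ0, hμ0', -, main⟩ := hMain M hM
  have hMR : (0 : ℝ) < M := by exact_mod_cast hM0
  have hfin := main μ0 hμ0'.le le_rfl
    (F := fun _ i2 i3 _ i5 => inP D (gp M B.a0 B.a1 i3 * S) (gp M B.r0 B.r1 i2 * S) (gp M B.p0 B.p1 i5 * S) h s)
    (G := fun _ i2 i3 _ i5 => inP D' (gp M B.a0 B.a1 i3 * S) (gp M B.r0 B.r1 i2 * S) (gp M B.p0 B.p1 i5 * S) h' s')
    (e := e) (κ := fun _ => 0) (lam := fun x => ft n' (PS D' R S x s'))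
    (q := fun x => qf (Q + 1) (fun c => ((VS (140 * R * S) (w * S) s' c).card : ℝ)) (PS D' R S x s'))
    (y := fun _ => 0)
    (fun _ i2 i3 _ i5 _ h2 _ _ h5 => inP_le (grid0 hB hR.le hS0.le h2 h5) hh)
    (fun _ _ _ _ _ _ _ _ _ _ => inP_nn hh') he (fun _ _ _ => le_rfl) (fun _ => le_rfl)
    (fun _ => by norm_num) (ps_mono hD' hS0.le b1) (fun _ => ft_nn _ _)
    (fun _ => ft_le b1 fun _ hc => hc.1.le)
    (qfs_mono hD' hS0 hR (hV s' hS0))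
    (fun x => (qfs_bd hQ0 (hV s' hS0) _).1) (fun x => (qfs_bd hQ0 (hV s' hS0) _).2) ?_
  · have hM5 : (0 : ℝ) < (M : ℝ) ^ 5 := pow_pos hMR 5
    rw [psP_eq hM0, psP_eq hM0]
    rw [div_le_iff₀ hM5, add_mul, add_mul, div_mul_cancel₀ _ hM5.ne']
    refine (show _ ≤ _ from hfin).trans ?_
    linarith
  · -- one term
    intro i1 i2 i3 i4 i5 j1 j2 j3 j4 j5 c1 c2 c3 c4 c5 c6
    have q1 := gp_mem j3 hB.a'.le
    have q2 := gp_mem j2 hB.r.le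
    have q5 := gp_mem j5 hB.p'.le
    have B1 := hB.a
    have B2 := hB.r'
    have B3 := hB.p
    have B4 := hB.p''
    show inP D _ _ _ h s ≤ inP D' _ _ _ h' s' + e
    by_cases ht : ∃ k : ℕ, TP D (gp M B.a0 B.a1 i3 * S) (gp M B.r0 B.r1 i2 * S) (gp M B.p0 B.p1 i5 * S) s k
    · obtain ⟨k, ht⟩ := ht
      rw [inP_eq (grid0 hB hR.le hS0.le j2 j5) ht]
      simp only [zero_add] at c2 c3
      have hconf := tp_conf hS0.le hR.le (q2.2.trans B2) ht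
      have hsck := (tp_sc ht).mono (mul_le_mul_of_nonneg_right (B3.trans q5.1) hS0.le)
      have hτk := hτ k hsck hconf
      obtain ⟨k', ht', htm, hps⟩ := td_closeS hD hD' (τ := τ) (η1 := η1) hT hT' hS0 a1 b1 hR hCa hCb hS hS' hθ0 t3
        (by linarith : νb ≤ R / 32) (by linarith) (by linarith : μ' ≤ R / 8) hμ'1 hμ0.le hη0.le
        (by linarith : θ + η1 + 1 / (n : ℝ) ≤ βa) hw0
        (by rw [hw]; linarith : 2 * w + νa + 2 * θ ≤ μ3) (by linarith) hμ30.le hμR (B1.trans q1.1) (q2.2.trans B2)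
        (B3.trans q5.1) (q5.2.trans B4) (by linarith) ht (by linarith) (hV s' hS0) c2 c3
      have hJ : c ≤ (⌈c * M⌉₊ : ℝ) / M := by
        rw [le_div_iff₀ hMR]
        exact Nat.le_ceil _
      have hJ0 : (0 : ℝ) ≤ (⌈c * M⌉₊ : ℝ) / M := by positivity
      have hJ' : ∀ x : ℝ, x * (⌈c * M⌉₊ : ℝ) / M = x * ((⌈c * M⌉₊ : ℝ) / M) := fun x => by ring
      have r2 : gp M B.r0 B.r1 i2 + μ3 ≤ gp M B.r0 B.r1 (i2 + ⌈c * M⌉₊) := by
        rw [gp_shift, hJ', hμ3]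
        have h1 : d * c ≤ (B.r1 - B.r0) * ((⌈c * M⌉₊ : ℝ) / M) := mul_le_mul hdr hJ hc0.le hBr.le
        linarith
      have r5 : gp M B.p0 B.p1 (i5 - ⌈c * M⌉₊) ≤ gp M B.p0 B.p1 i5 - μ3 := by
        rw [gp_shift' _ _ _ c6, hJ', hμ3]
        have h1 : d * c ≤ (B.p1 - B.p0) * ((⌈c * M⌉₊ : ℝ) / M) := mul_le_mul hdp hJ hc0.le hBp.le
        linarith
      have ht2 : TP D' (gp M B.a0 B.a1 i3 * S) (gp M B.r0 B.r1 (i2 + ⌈c * M⌉₊) * S)
          (gp M B.p0 B.p1 (i5 - ⌈c * M⌉₊) * S) s' k' :=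
        ⟨⟨ht'.1.1, ht'.1.2.1, fun i j hi hj => (ht'.1.2.2.1 i j hi hj).trans (mul_le_mul_of_nonneg_right r2 hS0.le),
          ht'.1.2.2.2⟩, ht'.2.1, ht'.2.2.1, fun j h1 h2 h3 => ht'.2.2.2 j h1 h2
            (h3.trans (mul_le_mul_of_nonneg_right r5 hS0.le))⟩
      have j5' : i5 - ⌈c * M⌉₊ < M := lt_of_le_of_lt (Nat.sub_le _ _) j5
      rw [inP_eq (grid0 hB hR.le hS0.le c4 j5') ht2]
      refine hcmp k k' ⟨hsck, (tp_sc ht').mono (mul_le_mul_of_nonneg_right ?_ hS0.le),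
        hD.anti ht.1.2.2.2.1 (mul_le_mul_of_nonneg_right (B1.trans q1.1) hS0.le),
        hD'.anti ht'.1.2.2.2.1 (mul_le_mul_of_nonneg_right (B1.trans q1.1) hS0.le), hconf, ?_,
        htm.trans (by linarith), hτk, hps⟩
      · linarith [B3.trans q5.1]
      · intro i hi
        have h1 := ht'.1.2.2.1 i 0 hi (Nat.zero_le _)
        rw [NTSF.pos_zero, sub_zero] at h1
        refine h1.trans (mul_le_mul_of_nonneg_right ?_ hS0.le)
        linarith [q2.2.trans B2]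
    · rw [inP_zero fun k h' => ht ⟨k, h'⟩]
      have := inP_nn (D := D') (a := gp M B.a0 B.a1 i3 * S) (r := gp M B.r0 B.r1 (i2 + ⌈c * M⌉₊) * S)
        (ρ := gp M B.p0 B.p1 (i5 - ⌈c * M⌉₊) * S) (s := s') hh'
      linarith

end Pool.Agent.SCF.M
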