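import Pool.Agent.ART.TubeSum
import Pool.Agent.RMP.JnF
import Pool.Agent.ROT.F3Stub

/-!
# ROT, F3 (B), row F9 (C5b, helper39): the words of a companion and their mass

For a companion (`F3S.Comp`: a chain of subcells with two straight stubs, node mesh `D`): the tube words `ARM.TubeQ` along its
path run from cut to cut, all their vertices lie in the subcells of the companion (mesh `4 D`), and their mass is at least
`c U_k / 4 ^ k` (exact end) resp. `c U_k` (end in a disc).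
-/

set_option autoImplicit false

namespace HexObs

namespace ROT

namespace F3S

open Finset TS SDN _root_.HexObs.SIM NTA TIP TIW ARM ART

open scoped ENNReal

/-- the path of a companion in the frame of its start: `u` takes the first direction to `up` -/
structure PathC (M : List (ℤ × ℤ)) (x0 x1 ω0 ω1 : ℤ × ℤ) (s s' : ℕ) (u : Pt) (n : ℕ) (E : ℕ → Pt) : Prop where
  u_mem : u ∈ dirs
  u_up : mulE u (-ω0) = up
  le : s + s' ≤ n
  ipg : IPg E n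
  fst : ∀ i, i < s → E i = up
  lst : ∀ i, n - s' ≤ i → i < n → E i = mulE u ω1
  tot : AR.ps E n = mulE u (ART.ctr x1 + (s' : ℤ) • ω1 - (ART.ctr x0 + (s : ℤ) • ω0))
  cn : ∀ i, i ≤ n → CN M x0 x1 ω0 ω1 s s' (ART.ctr x0 + (s : ℤ) • ω0 + mulE (conjE u) (AR.ps E i))
  far0 : ∀ i, s ≤ i → i ≤ n → ART.ctr x0 + (s : ℤ) • ω0 + mulE (conjE u) (AR.ps E i) ∈ SN M ∨
    ∃ j : ℕ, j ≤ s' ∧ ART.ctr x0 + (s : ℤ) • ω0 + mulE (conjE u) (AR.ps E i) = ART.ctr x1 + (j : ℤ) • ω1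
  far1 : ∀ i, i + s' ≤ n → ART.ctr x0 + (s : ℤ) • ω0 + mulE (conjE u) (AR.ps E i) ∈ SN M ∨
    ∃ j : ℕ, j ≤ s ∧ ART.ctr x0 + (s : ℤ) • ω0 + mulE (conjE u) (AR.ps E i) = ART.ctr x0 + (j : ℤ) • ω0

lemma exists_u {d : Pt} (hd : d ∈ dirs) : ∃ u ∈ dirs, mulE u d = up := by
  have key : ∀ d ∈ dirs, ∃ u ∈ dirs, mulE u d = up := by decide
  exact key d hd

/-- **every companion has a path** -/
theorem pathC_of {M : List (ℤ × ℤ)} {x0 x1 ω0 ε0 ω1 ε1 : ℤ × ℤ} {s s' : ℕ} (h : Comp M x0 x1 ω0 ε0 ω1 ε1 s s') :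
    ∃ (u : Pt) (n : ℕ) (E : ℕ → Pt), PathC M x0 x1 ω0 ω1 s s' u n E := by
  obtain ⟨m, f, f1, f2, f3, f4, f5, f6, f7⟩ := comp_path h
  obtain ⟨u, hu, hup⟩ := exists_u (neg_mem_dirs h.w0)
  have hu1 : nrm u = 1 := mem_dirs.1 hu
  have hps : ∀ i, AR.ps (fun i => f (i + 1) - f i) i = f i - f 0 := by
    intro i
    induction i with
    | zero => rw [sub_self]; rfl
    | succ i ih =>
      rw [AR.ps_succ, ih]
      abel
  have hipg : IPg (fun i => f (i + 1) - f i) (s + m + s') := by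
    refine ⟨f3, f4, fun i j hij hj => ?_⟩
    rw [hps, hps]
    have e : f j - f 0 - (f i - f 0) = f j - f i := by abel
    rw [e]
    exact f5 i j hij hj
  have e0 : f 0 = ART.ctr x0 + (s : ℤ) • ω0 := by
    rw [f1 0 (Nat.zero_le _), Nat.sub_zero]
  have hcoord : ∀ i, ART.ctr x0 + (s : ℤ) • ω0 + mulE (conjE u) (AR.ps (fun i => mulE u (f (i + 1) - f i)) i) = f i := by
    intro i
    rw [RMP.J5.ps_mulE, hps, RMP.J5.conj_mulE hu, e0]
    abel
  refine ⟨u, s + m + s', fun i => mulE u (f (i + 1) - f i), hu, hup, by omega, RMP.J5.IPg_mulE hu hipg, ?_, ?_, ?_, ?_, ?_, ?_⟩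
  · intro i hi
    show mulE u (f (i + 1) - f i) = up
    rw [f1 i hi.le, f1 (i + 1) (by omega)]
    have e : ART.ctr x0 + ((s - (i + 1) : ℕ) : ℤ) • ω0 - (ART.ctr x0 + ((s - i : ℕ) : ℤ) • ω0) = -ω0 := by
      rw [Nat.cast_sub (by omega : i + 1 ≤ s), Nat.cast_sub hi.le]
      push_cast
      rw [sub_smul, sub_smul, add_smul, one_smul]
      abel
    rw [e, hup]
  · intro i h1 h2
    show mulE u (f (i + 1) - f i) = mulE u ω1
    obtain ⟨j, rfl⟩ := Nat.exists_eq_add_of_le (show s + m ≤ i by omega)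
    rw [show s + m + j + 1 = s + m + (j + 1) by ring, f2 j (by omega), f2 (j + 1) (by omega)]
    congr 1
    push_cast
    rw [add_smul, one_smul]
    abel
  · rw [RMP.J5.ps_mulE, hps, f2 s' le_rfl, e0]
  · intro i hi
    rw [hcoord]
    exact f6 i hi
  · intro i h1 h2
    rw [hcoord]
    rcases Nat.lt_or_ge (s + m) i with h3 | h3
    · obtain ⟨j, rfl⟩ := Nat.exists_eq_add_of_le h3.le
      exact Or.inr ⟨j, by omega, f2 j (by omega)⟩
    · exact Or.inl (f7 i h1 h3)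
  · intro i h1
    rw [hcoord]
    rcases Nat.lt_or_ge i s with h3 | h3
    · exact Or.inr ⟨s - i, by omega, f1 i h3.le⟩
    · exact Or.inl (f7 i h3 (by omega))

section words

variable {M : List (ℤ × ℤ)} {x0 x1 ω0 ω1 : ℤ × ℤ} {s s' : ℕ} {u : Pt} {n : ℕ} {E : ℕ → Pt}

lemma PathC.cell (h : PathC M x0 x1 ω0 ω1 s s' u n E) (hM : M.IsChain ARM.adj) {D w : ℤ} (hD : 0 < D) (hw : 2 * w < D)
    {j : ℕ} (hj : j < n) {v : Pt} (hv : Nr E D w j v) :
    CC M x0 x1 ω0 ω1 s s' (ce (4 * D) (D • (ART.ctr x0 + (s : ℤ) • ω0) + mulE (conjE u) v)) := by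
  obtain ⟨t, ht0, htD, hv⟩ := hv
  have hcu : conjE u ∈ dirs := RMP.J5.conj_dirs h.u_mem
  obtain ⟨S, hS⟩ : ∃ S : Pt, S = ART.ctr x0 + (s : ℤ) • ω0 := ⟨_, rfl⟩
  obtain ⟨g, hg⟩ : ∃ g : ℕ → Pt, g = fun i => S + mulE (conjE u) (AR.ps E i) := ⟨_, rfl⟩
  obtain ⟨d, hd⟩ : ∃ d : Pt, d = mulE (conjE u) (E j) := ⟨_, rfl⟩
  have hdd : d ∈ dirs := hd ▸ RMP.J5.mulE_dirs hcu (h.ipg.dir j hj)
  have hg1 : g (j + 1) = g j + d := by
    rw [hg, hd]
    simp only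
    rw [AR.ps_succ, mulE_add]
    abel
  obtain ⟨P, hP⟩ : ∃ P : Pt, P = D • S + mulE (conjE u) v := ⟨_, rfl⟩
  obtain ⟨r, hr⟩ : ∃ r : Pt, r = mulE (conjE u) (v - (AR.pv E D j + t • E j)) := ⟨_, rfl⟩
  have hrw : hn r ≤ w := by
    rw [hr, TIW.hn_mulE (mem_dirs.1 hcu)]
    exact hv
  have eP : P = D • g j + t • d + r := by
    rw [hP, hg, hd, hr]
    simp only
    unfold AR.pv
    rw [mulE_sub, mulE_add, RMP.J5.mulE_smul, RMP.J5.mulE_smul, smul_add]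
    abel
  have hc := hn_coord r
  have hdc := dir_coord d hdd
  rw [← hS, ← hP]
  rcases le_or_gt (2 * t) D with h1 | h1
  · have hn : CN M x0 x1 ω0 ω1 s s' (g j) := by
      rw [hg, hS]
      exact h.cn j hj.le
    refine cn_NC hM hn (near_NC hD ?_ ?_)
    · rw [eP]
      simp only [Prod.fst_add, Prod.smul_fst, smul_eq_mul]
      have e : D * (g j).1 + t * d.1 + r.1 - D * (g j).1 = t * d.1 + r.1 := by ring
      rw [e]
      have h3 : |t * d.1| ≤ t := by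
        rw [abs_mul, abs_of_nonneg ht0]
        nlinarith [hdc.1, abs_nonneg d.1]
      have := abs_add_le (t * d.1) r.1
      nlinarith [hc.1]
    · rw [eP]
      simp only [Prod.snd_add, Prod.smul_snd, smul_eq_mul]
      have e : D * (g j).2 + t * d.2 + r.2 - D * (g j).2 = t * d.2 + r.2 := by ring
      rw [e]
      have h3 : |t * d.2| ≤ t := by
        rw [abs_mul, abs_of_nonneg ht0]
        nlinarith [hdc.2, abs_nonneg d.2]
      have := abs_add_le (t * d.2) r.2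
      nlinarith [hc.2]
  · have hn : CN M x0 x1 ω0 ω1 s s' (g (j + 1)) := by
      rw [hg, hS]
      exact h.cn (j + 1) hj
    have h0 : 0 ≤ D - t := by linarith
    refine cn_NC hM hn (near_NC hD ?_ ?_)
    · rw [eP, hg1]
      simp only [Prod.fst_add, Prod.smul_fst, smul_eq_mul]
      have e : D * (g j).1 + t * d.1 + r.1 - D * ((g j).1 + d.1) = -((D - t) * d.1) + r.1 := by ring
      rw [e]
      have h3 : |(D - t) * d.1| ≤ D - t := by
        rw [abs_mul, abs_of_nonneg h0]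
        nlinarith [hdc.1, abs_nonneg d.1]
      have := abs_add_le (-((D - t) * d.1)) r.1
      rw [abs_neg] at this
      nlinarith [hc.1]
    · rw [eP, hg1]
      simp only [Prod.snd_add, Prod.smul_snd, smul_eq_mul]
      have e : D * (g j).2 + t * d.2 + r.2 - D * ((g j).2 + d.2) = -((D - t) * d.2) + r.2 := by ring
      rw [e]
      have h3 : |(D - t) * d.2| ≤ D - t := by
        rw [abs_mul, abs_of_nonneg h0]
        nlinarith [hdc.2, abs_nonneg d.2]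
      have := abs_add_le (-((D - t) * d.2)) r.2
      rw [abs_neg] at this
      nlinarith [hc.2]

/-- **all vertices of a tube word are in the subcells of the companion** -/
theorem PathC.rg (h : PathC M x0 x1 ω0 ω1 s s' u n E) (hM : M.IsChain ARM.adj) {D w : ℤ} (hD : 0 < D) (hw : 2 * w < D)
    {z : Pt} {Q : List Bool} (hQ : TubeQ E D w n z Q) {i : ℕ} (hi : i ≤ Q.length) :
    CC M x0 x1 ω0 ω1 s s' (ce (4 * D) (D • (ART.ctr x0 + (s : ℤ) • ω0) + mulE (conjE u) (vx oo up Q i))) := by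
  obtain ⟨j, hj, hv⟩ := hQ.rg i hi
  exact h.cell hM hD hw hj hv

end words

/-- **the mass of the words of a companion** -/
theorem comp_mass : ∃ H0 : ℕ, 2 ^ 13 ≤ H0 ∧ ∀ H : ℕ, H0 ≤ H → ∀ (Mx : ℕ) (a : ℝ), 0 < a → a ≤ 4 → ∃ (c : ℝ) (k0 : ℕ),
    0 < c ∧ ∀ {M : List (ℤ × ℤ)} {x0 x1 ω0 ω1 : ℤ × ℤ} {s s' : ℕ} {u : Pt} {n : ℕ} {E : ℕ → Pt},
    PathC M x0 x1 ω0 ω1 s s' u n E → 1 ≤ s → 1 ≤ s' → n ≤ Mx →
    ∀ (k : ℕ) (D : ℤ), k0 ≤ k → 18 * (H * 2 ^ k) ≤ D → D ≤ 36 * (H * 2 ^ k) →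
      (∀ z : Pt, TIW.hn (z - AR.pv E D n) ≤ 2 ^ (k + 2) →
        ((cl z = 0 ∧ cl (E (n - 1)) = 2) ∨ (cl z = 2 ∧ cl (E (n - 1)) = 1)) →
        ENNReal.ofReal (c * (Ub k / 4 ^ k)) ≤ gf {Q | TubeQ E D (2 ^ (k + 9)) n z Q}) ∧
      ∀ p : Pt, ((TIW.hn (p - AR.pv E D n) : ℤ) : ℝ) + a * 2 ^ k ≤ 2 ^ (k + 2) → ENNReal.ofReal (c * Ub k) ≤
        gf {Q | TubeQ E D (2 ^ (k + 9)) n (TIW.en Q) Q ∧ ((TIW.hn (TIW.en Q - p) : ℤ) : ℝ) ≤ a * 2 ^ k} := by
  obtain ⟨H0, hH0, h⟩ := tubeSumG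
  refine ⟨H0, hH0, fun H hH Mx a ha ha4 => ?_⟩
  obtain ⟨c, k0, hc, h⟩ := h H hH Mx a ha ha4
  refine ⟨c, k0, hc, fun {M x0 x1 ω0 ω1 s s' u n E} hP hs hs' hn k D hk hD1 hD2 => ?_⟩
  exact h k n D E hk hD1 hD2 (by have := hP.le; omega) hn hP.ipg (hP.fst 0 (by omega))

end F3S

end ROT

end HexObs
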