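import Pool.Agent.ROT.F3C4c
import Pool.Agent.ROT.F3Lim

/-!
# ROT, F3, the middle of route L (helper17)

* **`par_den`** : (PP) from the shape of `F3Lim`: lattice 0 = product times a function of `(k, k', z, w)`, rotated lattice = `Den`;
* `pos_of` : the law of the two relative positions charges `Z × W`;
* **`mid_prod`** : the three pairs of arcs, the companions ==> `β1 = ν × b1`;
* **`mid_law`** : the law of the arc behind the cuts is the same for the two lattices.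
-/

set_option autoImplicit false
set_option linter.unusedSectionVars false

namespace Pool.Agent.ROT.F3

open MeasureTheory Set
open scoped ENNReal

section one

variable {A B E K1 K2 : Type*} [MeasurableSpace A] [MeasurableSpace B] [MeasurableSpace E] [MeasurableSpace K1]
  [MeasurableSpace K2] [AddCommGroup E] [MeasurableAdd₂ E] [MeasurableNeg E]

/-- the order of the coordinates -/
def sh (p : (K1 × A) × ((K2 × B) × E)) : (K1 × K2) × (A × (B × E)) := ((p.1.1, p.2.1.1), (p.1.2, (p.2.1.2, p.2.2)))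

omit [AddCommGroup E] [MeasurableAdd₂ E] [MeasurableNeg E] in
lemma sh_meas : Measurable (sh : (K1 × A) × ((K2 × B) × E) → (K1 × K2) × (A × (B × E))) := by
  unfold sh
  fun_prop

/-- **(PP) from the shape of `F3Lim`** -/
theorem par_den {β1 : Measure (K1 × A)} {β2 : Measure (K2 × B)} {b1 : Measure A} {b2 : Measure B} {v : Measure E}
    [SFinite β1] [SFinite β2] [SigmaFinite b1] [SigmaFinite b2] [SigmaFinite v] {D : Set (A × (B × E))}
    (hD : MeasurableSet D) {y1 : A → E} {y2 : B → E} (h1 : Measurable y1) (h2 : Measurable y2)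
    {P : Measure ((K1 × A) × ((K2 × B) × E))} [IsFiniteMeasure P] {G0 : K1 × K2 × (E × E) → ℝ≥0∞} (mG : Measurable G0)
    (h0 : P = ((β1.prod (β2.prod v)).restrict (pi3 ⁻¹' D)).withDensity (G0 ∘ cc y1 y2))
    (hG : ∀ᵐ p ∂((β1.prod (β2.prod v)).restrict (pi3 ⁻¹' D)), G0 (cc y1 y2 p) ≠ 0)
    (hR : ∀ Φ : K1 × K2 → ℝ≥0∞, Measurable Φ → Den (P.map sh) (b1.prod (b2.prod v)) D (zw y1 y2) Φ)
    {S : Set K1} (hS : MeasurableSet S) : ∃ t, Par t (sec β1 S) b1 β2.snd b2 v D y1 y2 := by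
  have hc := cc_meas (A := A) (B := B) (K1 := K1) (K2 := K2) h1 h2
  have hπ := pi3_meas (A := A) (B := B) (E := E) (K1 := K1) (K2 := K2)
  have hk := kk_meas (A := A) (B := B) (E := E) (K1 := K1) (K2 := K2)
  have hs := sh_meas (A := A) (B := B) (E := E) (K1 := K1) (K2 := K2)
  refine par_of hD h1 h2 mG h0 ?_ ?_ hS
  · have hfin : ∫⁻ p, (G0 ∘ cc y1 y2) p ∂((β1.prod (β2.prod v)).restrict (pi3 ⁻¹' D)) ≠ ∞ := by
      rw [← setLIntegral_univ, ← withDensity_apply _ MeasurableSet.univ, ← h0]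
      exact measure_ne_top P univ
    filter_upwards [hG, ae_lt_top (mG.comp hc) hfin] with p hp hp'
    exact ⟨hp, hp'.ne⟩
  · intro S S' hS hS'
    obtain ⟨t, ht, h⟩ := hR ((S ×ˢ S').indicator fun _ => 1) (measurable_const.indicator (hS.prod hS'))
    refine ⟨t, ht, ?_⟩
    -- `P` lives on `D`
    have hPD : P (pi3 ⁻¹' D)ᶜ = 0 := by
      rw [h0, withDensity_apply _ (hπ hD).compl, Measure.restrict_restrict (hπ hD).compl, compl_inter_self,
        Measure.restrict_empty, lintegral_zero_measure]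
    ext s hs'
    rw [Measure.map_apply hπ hs', Measure.restrict_apply (hπ hs'), withDensity_apply _ hs', Measure.restrict_restrict hs']
    have e := h (s ∩ D) (hs'.inter hD) inter_subset_right
    have mI : Measurable fun x : (K1 × K2) × (A × (B × E)) => (S ×ˢ S').indicator (fun _ => (1 : ℝ≥0∞)) x.1 :=
      (measurable_const.indicator (hS.prod hS')).comp measurable_fst
    rw [← lintegral_indicator (measurable_snd (hs'.inter hD)),
      lintegral_map (mI.indicator (measurable_snd (hs'.inter hD))) hs] at e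
    have e2 : (fun p : (K1 × A) × ((K2 × B) × E) => (Prod.snd ⁻¹' (s ∩ D)).indicator
        (fun x : (K1 × K2) × (A × (B × E)) => (S ×ˢ S').indicator (fun _ => (1 : ℝ≥0∞)) x.1) (sh p)) =
        ((pi3 ⁻¹' s ∩ kk ⁻¹' (S ×ˢ S')) ∩ pi3 ⁻¹' D).indicator fun _ => (1 : ℝ≥0∞) := by
      funext p
      by_cases c1 : pi3 p ∈ s ∩ D
      · have g1 : sh p ∈ (Prod.snd ⁻¹' (s ∩ D) : Set ((K1 × K2) × (A × (B × E)))) := c1
        rw [indicator_of_mem g1]
        by_cases c2 : kk p ∈ S ×ˢ S'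
        · have g2 : (sh p).1 ∈ S ×ˢ S' := c2
          have g3 : p ∈ (pi3 ⁻¹' s ∩ kk ⁻¹' (S ×ˢ S')) ∩ pi3 ⁻¹' D := ⟨⟨c1.1, c2⟩, c1.2⟩
          rw [indicator_of_mem g2, indicator_of_mem g3]
        · have g2 : (sh p).1 ∉ S ×ˢ S' := c2
          have g3 : p ∉ (pi3 ⁻¹' s ∩ kk ⁻¹' (S ×ˢ S')) ∩ pi3 ⁻¹' D := fun h => c2 h.1.2
          rw [indicator_of_notMem g2, indicator_of_notMem g3]
      · have g1 : sh p ∉ (Prod.snd ⁻¹' (s ∩ D) : Set ((K1 × K2) × (A × (B × E)))) := c1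
        have g3 : p ∉ (pi3 ⁻¹' s ∩ kk ⁻¹' (S ×ˢ S')) ∩ pi3 ⁻¹' D := fun h => c1 ⟨h.1.1, h.2⟩
        rw [indicator_of_notMem g1, indicator_of_notMem g3]
    have e4 : ∫⁻ p, ((pi3 ⁻¹' s ∩ kk ⁻¹' (S ×ˢ S')) ∩ pi3 ⁻¹' D).indicator (fun _ => (1 : ℝ≥0∞)) p ∂P =
        P ((pi3 ⁻¹' s ∩ kk ⁻¹' (S ×ˢ S')) ∩ pi3 ⁻¹' D) :=
      lintegral_indicator_one (((hπ hs').inter (hk (hS.prod hS'))).inter (hπ hD))
    rw [e2, e4] at e
    have e3 : P (pi3 ⁻¹' s ∩ kk ⁻¹' (S ×ˢ S')) = P ((pi3 ⁻¹' s ∩ kk ⁻¹' (S ×ˢ S')) ∩ pi3 ⁻¹' D) := by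
      refine (measure_inter_conull' ?_).symm
      refine measure_mono_null ?_ hPD
      exact fun p hp => hp.2
    rw [e3, e]
    rfl

end one

section pos

variable {A B E : Type*} [MeasurableSpace A] [MeasurableSpace B] [MeasurableSpace E] [AddCommGroup E] [MeasurableAdd₂ E]
  [MeasurableNeg E]

/-- the law of the two relative positions charges `Z × W`, from companions -/
theorem pos_of {c1 : Measure A} {c2 : Measure B} {v : Measure E} [SFinite c1] [SFinite c2] [SFinite v]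
    [v.IsAddLeftInvariant] {D : Set (A × (B × E))} {y1 : A → E} {y2 : B → E} (h1 : Measurable y1)
    (h2 : Measurable y2) {U1 : Set A} {U2 : Set B} {T Z W : Set E} (mU : MeasurableSet U1) (mT : MeasurableSet T)
    (mZ : MeasurableSet Z) (mW : MeasurableSet W) (hU : ∀ a ∈ U1, ∀ b ∈ U2, ∀ z ∈ Z, (a, b, z) ∈ D)
    (hT : ∀ b ∈ U2, ∀ z ∈ Z, ∀ w ∈ W, y2 b - z + w ∈ T) (l1 : v.restrict T ≪ (c1.restrict U1).map y1) (l2 : c2 U2 ≠ 0) :
    (v.prod v).restrict (Z ×ˢ W) ≪ ((c1.prod (c2.prod v)).restrict D).map (zw y1 y2) := by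
  have hq := zw_meas (A := A) (B := B) h1 h2
  refine Measure.AbsolutelyContinuous.mk fun M hM h0 => ?_
  rw [Measure.map_apply hq hM, Measure.restrict_apply (hq hM)] at h0
  rw [Measure.restrict_apply hM]
  -- reorder
  have r1 : MeasurePreserving (fun p : (B × E) × A => (p.2, p.1)) ((c2.prod v).prod c1) (c1.prod (c2.prod v)) :=
    Measure.measurePreserving_swap
  have g1 : ∀ᵐ q ∂(c1.prod (c2.prod v)), q ∉ zw y1 y2 ⁻¹' M ∩ D := measure_eq_zero_iff_ae_notMem.1 h0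
  have g2 := Measure.ae_ae_of_ae_prod (Measure.ae_ae_of_ae_prod (r1.quasiMeasurePreserving.ae g1))
  obtain ⟨b, hbU, hb⟩ : ∃ b ∈ U2, ∀ᵐ z ∂v, ∀ᵐ a ∂c1, (a, b, z) ∉ zw y1 y2 ⁻¹' M ∩ D := by
    by_contra hcon
    apply l2
    refine measure_mono_null (fun b hb => ?_) (ae_iff.1 g2)
    intro h
    exact hcon ⟨b, hb, h⟩
  have g3 : ∀ᵐ z ∂v, ∀ᵐ w ∂v, (z, w) ∉ M ∩ Z ×ˢ W := by
    filter_upwards [hb] with z hz
    by_cases hzZ : z ∈ Z
    swap
    · exact Filter.Eventually.of_forall fun w h => hzZ h.2.1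
    have mN : MeasurableSet {s : E | (z, z + s - y2 b) ∉ M} := by
      refine MeasurableSet.compl ?_
      have : Measurable fun s : E => (z, z + s - y2 b) := by
        simp only [sub_eq_add_neg]
        fun_prop
      exact this hM
    have f1 : ∀ᵐ a ∂(c1.restrict U1), y1 a ∈ {s : E | (z, z + s - y2 b) ∉ M} := by
      rw [ae_restrict_iff' mU]
      filter_upwards [hz] with a ha haU
      intro haM
      exact ha ⟨haM, hU a haU b hbU z hzZ⟩
    have f2 : ∀ᵐ s ∂((c1.restrict U1).map y1), s ∈ {s : E | (z, z + s - y2 b) ∉ M} :=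
      (ae_map_iff h1.aemeasurable (p := fun s => s ∈ {s : E | (z, z + s - y2 b) ∉ M}) mN).2 f1
    have f3 : ∀ᵐ s ∂(v.restrict T), s ∈ {s : E | (z, z + s - y2 b) ∉ M} := l1.ae_le f2
    rw [ae_restrict_iff' mT] at f3
    have f4 := (measurePreserving_add_left v (y2 b - z)).quasiMeasurePreserving.ae f3
    filter_upwards [f4] with w hw
    rintro ⟨hwM, -, hwW⟩
    apply hw (hT b hbU z hzZ w hwW)
    have e : z + (y2 b - z + w) - y2 b = w := by abel
    rw [e]
    exact hwM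
  have m2 : MeasurableSet {p : E × E | (p.1, p.2) ∉ M ∩ Z ×ˢ W} := (hM.inter (mZ.prod mW)).compl
  exact measure_eq_zero_iff_ae_notMem.2 ((Measure.ae_prod_iff_ae_ae m2).2 g3)

/-- the density does not vanish there -/
lemma par_ne {t : E × E → ℝ≥0∞} {m b1 : Measure A} {n b2 : Measure B} {v : Measure E} {D : Set (A × (B × E))}
    {y1 : A → E} {y2 : B → E} (h1 : Measurable y1) (h2 : Measurable y2)
    (p : Par t m b1 n b2 v D y1 y2) {R : Set (E × E)}
    (l : (v.prod v).restrict R ≪ ((m.prod (n.prod v)).restrict D).map (zw y1 y2)) :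
    ∀ᵐ s ∂((v.prod v).restrict R), t s ≠ 0 := by
  have hq := zw_meas (A := A) (B := B) h1 h2
  have mt : MeasurableSet {s | t s ≠ 0} := (measurableSet_eq_fun p.1 measurable_const).compl
  refine l.ae_le ?_
  refine (ae_map_iff hq.aemeasurable (p := fun s => t s ≠ 0) mt).2 ?_
  rw [p.2]
  have e : (fun p : A × B × E => t (p.2.2, p.2.2 + y1 p.1 - y2 p.2.1)) = t ∘ zw y1 y2 := rfl
  rw [e, ae_withDensity_iff (p.1.comp hq)]
  exact Filter.Eventually.of_forall fun q hq => hq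

/-- the second arc is absolutely continuous as soon as it has companions -/
lemma ac_right {t : E × E → ℝ≥0∞} {m b1 : Measure A} {n b2 : Measure B} {v : Measure E} [SigmaFinite m]
    [SigmaFinite n] [SigmaFinite b1] [SigmaFinite b2] [SigmaFinite v] {D : Set (A × (B × E))} (hD : MeasurableSet D)
    {y1 : A → E} {y2 : B → E} (h : Par t m b1 n b2 v D y1 y2)
    (hp : ∀ᵐ x ∂n, (m.prod v) {q | (q.1, (x, q.2)) ∈ D} ≠ 0) : n ≪ b2 := by
  refine Measure.AbsolutelyContinuous.mk fun U hU h0 => ?_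
  have mU : MeasurableSet (univ ×ˢ (U ×ˢ univ) : Set (A × (B × E))) := MeasurableSet.univ.prod (hU.prod MeasurableSet.univ)
  have e1 : (m.prod (n.prod v)) (D ∩ univ ×ˢ (U ×ˢ univ)) = 0 := by
    have e2 : ((m.prod (n.prod v)).restrict D) (univ ×ˢ (U ×ˢ univ)) = 0 := by
      rw [h.2]
      refine withDensity_absolutelyContinuous _ _ ?_
      rw [Measure.restrict_apply mU]
      refine measure_mono_null inter_subset_left ?_
      rw [Measure.prod_prod, Measure.prod_prod, h0, zero_mul, mul_zero]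
    rw [Measure.restrict_apply mU, inter_comm] at e2
    exact e2
  -- reorder
  have r1 : MeasurePreserving (fun p : B × (A × E) => (p.2.1, (p.1, p.2.2))) (n.prod (m.prod v)) (m.prod (n.prod v)) := by
    have a1 := (measurePreserving_prodAssoc n m v).symm MeasurableEquiv.prodAssoc
    have a2 : MeasurePreserving (Prod.map (Prod.swap : B × A → A × B) (id : E → E)) ((n.prod m).prod v)
        ((m.prod n).prod v) := Measure.measurePreserving_swap.prod (MeasurePreserving.id v)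
    exact ((measurePreserving_prodAssoc m n v).comp a2).comp a1
  have e3 : (n.prod (m.prod v)) ((fun p : B × (A × E) => (p.2.1, (p.1, p.2.2))) ⁻¹' (D ∩ univ ×ˢ (U ×ˢ univ))) = 0 := by
    rw [r1.measure_preimage (hD.inter mU).nullMeasurableSet, e1]
  rw [Measure.measure_prod_null (r1.measurable (hD.inter mU))] at e3
  have e4 : ∀ᵐ x ∂n, x ∉ U := by
    filter_upwards [e3, hp] with x h1 h2 hx
    apply h2
    refine measure_mono_null ?_ h1
    intro q hq
    exact ⟨hq, mem_univ _, hx, mem_univ _⟩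
  rw [ae_iff] at e4
  simpa using e4

end pos

section two

variable {A B E K1 K2 : Type*} [MeasurableSpace A] [MeasurableSpace B] [MeasurableSpace E] [MeasurableSpace K1]
  [MeasurableSpace K2] [AddCommGroup E] [MeasurableAdd₂ E] [MeasurableNeg E]

/-- the law `P` of the pairs of arcs in the two lattices: for the first a product times a function of the pieces before the cuts and
of the relative positions `(z, w)`, for the second (with any function of the pieces) a product times a function of `(z, w)` -/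
def TwoL (β1 : Measure (K1 × A)) (β2 : Measure (K2 × B)) (b1 : Measure A) (b2 : Measure B) (v : Measure E)
    (D : Set (A × (B × E))) (y1 : A → E) (y2 : B → E) (P : Measure ((K1 × A) × ((K2 × B) × E)))
    (G : K1 × K2 × (E × E) → ℝ≥0∞) : Prop :=
  Measurable G ∧ P = ((β1.prod (β2.prod v)).restrict (pi3 ⁻¹' D)).withDensity (G ∘ cc y1 y2) ∧
    (∀ᵐ p ∂((β1.prod (β2.prod v)).restrict (pi3 ⁻¹' D)), G (cc y1 y2 p) ≠ 0) ∧
    ∀ Φ : K1 × K2 → ℝ≥0∞, Measurable Φ → Den (P.map sh) (b1.prod (b2.prod v)) D (zw y1 y2) Φ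

variable {β1 : Measure (K1 × A)} {β2 : Measure (K2 × B)} {b1 : Measure A} {b2 : Measure B} {v : Measure E}
  [SFinite β1] [SFinite β2] [SigmaFinite b1] [SigmaFinite b2] [SigmaFinite v] {D : Set (A × (B × E))} {y1 : A → E}
  {y2 : B → E} {P : Measure ((K1 × A) × ((K2 × B) × E))} [IsFiniteMeasure P] {G : K1 × K2 × (E × E) → ℝ≥0∞}

lemma TwoL.par (h : TwoL β1 β2 b1 b2 v D y1 y2 P G) (hD : MeasurableSet D) (h1 : Measurable y1) (h2 : Measurable y2)
    {S : Set K1} (hS : MeasurableSet S) : ∃ t, Par t (sec β1 S) b1 β2.snd b2 v D y1 y2 :=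
  par_den hD h1 h2 h.1 h.2.1 h.2.2.1 h.2.2.2 hS

omit [IsFiniteMeasure P] [SigmaFinite b1] [SigmaFinite b2] in
/-- the positions of `P` are positions of the product of the first lattice -/
lemma TwoL.ac (h : TwoL β1 β2 b1 b2 v D y1 y2 P G) (hD : MeasurableSet D) (h1 : Measurable y1) (h2 : Measurable y2) :
    P.map (fun p => zw y1 y2 (pi3 p)) ≪ ((β1.snd.prod (β2.snd.prod v)).restrict D).map (zw y1 y2) := by
  have hq := zw_meas (A := A) (B := B) h1 h2
  have hπ := pi3_meas (A := A) (B := B) (E := E) (K1 := K1) (K2 := K2)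
  have e1 : (((β1.prod (β2.prod v)).restrict (pi3 ⁻¹' D)).map pi3) = ((β1.snd).prod (β2.snd.prod v)).restrict D := by
    rw [← Measure.restrict_map hπ hD]
    congr 1
    have f3 : (pi3 : (K1 × A) × ((K2 × B) × E) → A × B × E) = Prod.map Prod.snd (Prod.map Prod.snd id) := rfl
    rw [f3, ← Measure.map_prod_map _ _ measurable_snd (by fun_prop), ← Measure.map_prod_map _ _ measurable_snd
      measurable_id, Measure.map_id]
    rfl
  rw [← e1, Measure.map_map hq hπ]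
  have e2 : (fun p : (K1 × A) × ((K2 × B) × E) => zw y1 y2 (pi3 p)) = zw y1 y2 ∘ pi3 := rfl
  rw [e2, h.2.1]
  exact (withDensity_absolutelyContinuous _ _).map (hq.comp hπ)

omit [SigmaFinite b1] [SigmaFinite b2] [IsFiniteMeasure P] in
/-- **`TwoL` from the limits**: `P0` = the law in the first lattice (with other data `K0`), `PR` = the law in the second lattice (with
the connection pieces `KR`; `C` = the cuts of the first lattice exist, `f` = the pieces between the cuts of the two lattices) -/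
theorem twoL_of {K0 KR : Type*} [MeasurableSpace K0] [MeasurableSpace KR] {P0 : Measure (K0 × ((K1 × A) × ((K2 × B) × E)))}
    {PR : Measure (KR × (A × (B × E)))} (hD : MeasurableSet D) (h1 : Measurable y1) (h2 : Measurable y2)
    (d0 : Den P0 (β1.prod (β2.prod v)) (pi3 ⁻¹' D) (cc y1 y2) fun _ => 1)
    (dR : ∀ Φ : KR → ℝ≥0∞, Measurable Φ → Den PR (b1.prod (b2.prod v)) D (zw y1 y2) Φ) {f : KR → K1 × K2}
    (hf : Measurable f) {C : Set KR} (hC : MeasurableSet C)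
    (he : ((P0.map Prod.snd).restrict (pi3 ⁻¹' D)).map sh = (PR.restrict (C ×ˢ D)).map (Prod.map f id))
    (hp : (β1.prod (β2.prod v)).restrict (pi3 ⁻¹' D) ≪ P0.map Prod.snd) :
    ∃ G, TwoL β1 β2 b1 b2 v D y1 y2 ((P0.map Prod.snd).restrict (pi3 ⁻¹' D)) G := by
  have hc := cc_meas (A := A) (B := B) (K1 := K1) (K2 := K2) h1 h2
  have hπ := pi3_meas (A := A) (B := B) (E := E) (K1 := K1) (K2 := K2)
  obtain ⟨G, mG, g⟩ := d0
  have e0 : (P0.map Prod.snd).restrict (pi3 ⁻¹' D) =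
      ((β1.prod (β2.prod v)).restrict (pi3 ⁻¹' D)).withDensity (G ∘ cc y1 y2) := by
    ext s hs
    rw [Measure.restrict_apply hs, Measure.map_apply measurable_snd (hs.inter (hπ hD)), withDensity_apply _ hs,
      Measure.restrict_restrict hs]
    have := g (s ∩ pi3 ⁻¹' D) (hs.inter (hπ hD)) inter_subset_right
    rw [setLIntegral_one] at this
    exact this
  refine ⟨G, mG, e0, ?_, fun Φ hΦ => ?_⟩
  · have h3 : (β1.prod (β2.prod v)).restrict (pi3 ⁻¹' D) ≪ (P0.map Prod.snd).restrict (pi3 ⁻¹' D) := by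
      have := hp.restrict (pi3 ⁻¹' D)
      rwa [Measure.restrict_restrict (hπ hD), inter_self] at this
    rw [e0] at h3
    have h4 : ∀ᵐ p ∂(((β1.prod (β2.prod v)).restrict (pi3 ⁻¹' D)).withDensity (G ∘ cc y1 y2)), G (cc y1 y2 p) ≠ 0 :=
      (ae_withDensity_iff (mG.comp hc)).2 (Filter.Eventually.of_forall fun p hp => hp)
    exact h3.ae_le h4
  · obtain ⟨t, mt, ht⟩ := dR (C.indicator (Φ ∘ f)) ((hΦ.comp hf).indicator hC)
    refine ⟨t, mt, fun s hs hsD => ?_⟩
    rw [he, ← ht s hs hsD]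
    have mf : Measurable (Prod.map f id : KR × (A × (B × E)) → (K1 × K2) × (A × (B × E))) := hf.prodMap measurable_id
    have e2 : ∫⁻ x in Prod.snd ⁻¹' s, Φ x.1 ∂((PR.restrict (C ×ˢ D)).map (Prod.map f id)) =
        ∫⁻ x in (Prod.map f id ⁻¹' (Prod.snd ⁻¹' s) : Set (KR × (A × (B × E)))), Φ (f x.1) ∂(PR.restrict (C ×ˢ D)) :=
      setLIntegral_map (f := fun x : (K1 × K2) × (A × (B × E)) => Φ x.1) (measurable_snd hs) (hΦ.comp measurable_fst) mf
    rw [e2, Measure.restrict_restrict (mf (measurable_snd hs))]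
    have e1 : (Prod.map f id ⁻¹' (Prod.snd ⁻¹' s) : Set (KR × (A × (B × E)))) ∩ C ×ˢ D =
        (Prod.snd ⁻¹' s) ∩ (Prod.fst ⁻¹' C) := by
      ext p
      constructor
      · intro hp
        exact ⟨hp.1, hp.2.1⟩
      · intro hp
        exact ⟨hp.1, hp.2, hsD hp.1⟩
    rw [e1, ← lintegral_indicator ((measurable_snd hs).inter (measurable_fst hC)), ← lintegral_indicator (measurable_snd hs)]
    refine lintegral_congr fun p => ?_
    by_cases c1 : p.2 ∈ s
    · have g1 : p ∈ (Prod.snd ⁻¹' s : Set (KR × (A × (B × E)))) := c1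
      rw [indicator_of_mem g1]
      by_cases c2 : p.1 ∈ C
      · rw [indicator_of_mem (show p ∈ (Prod.snd ⁻¹' s) ∩ (Prod.fst ⁻¹' C) from ⟨c1, c2⟩), indicator_of_mem c2]
        rfl
      · rw [indicator_of_notMem (show p ∉ (Prod.snd ⁻¹' s) ∩ (Prod.fst ⁻¹' C) from fun h => c2 h.2), indicator_of_notMem c2]
    · rw [indicator_of_notMem (show p ∉ (Prod.snd ⁻¹' s : Set (KR × (A × (B × E)))) from c1),
        indicator_of_notMem (show p ∉ (Prod.snd ⁻¹' s) ∩ (Prod.fst ⁻¹' C) from fun h => c1 h.1)]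

end two

section three

variable {A B C E K1 K2 K3 : Type*} [MeasurableSpace A] [MeasurableSpace B] [MeasurableSpace C] [MeasurableSpace E]
  [MeasurableSpace K1] [MeasurableSpace K2] [MeasurableSpace K3] [AddCommGroup E] [MeasurableAdd₂ E] [MeasurableNeg E]

lemma qo23 {v : Measure E} [SFinite v] [v.IsAddLeftInvariant] :
    Measure.QuasiMeasurePreserving (o23 : E × E × E × E → E × E) (v.prod (v.prod (v.prod v))) (v.prod v) := by
  have h0 : Measure.QuasiMeasurePreserving (fun p : E × E => p.2 - p.1) (v.prod v) v :=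
    (quasiMeasurePreserving_sub v v).comp Measure.measurePreserving_swap.quasiMeasurePreserving
  have r2 : MeasurePreserving (fun p : E × E × E × E => ((p.1, p.2.1), p.2.2)) (v.prod (v.prod (v.prod v)))
      ((v.prod v).prod (v.prod v)) := (measurePreserving_prodAssoc v v (v.prod v)).symm _
  exact (QuasiMeasurePreserving.prodMap h0 h0).comp r2.quasiMeasurePreserving

/-- the hypothesis `hO` of `c4` for a box -/
lemma hO_box {v : Measure E} [SigmaFinite v] [v.IsAddLeftInvariant] {Z Z' W W' R S : Set E} {t12 t23 : E × E → ℝ≥0∞}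
    (mZ : MeasurableSet Z) (mW : MeasurableSet W)
    (mR : MeasurableSet R) (mS : MeasurableSet S) (hR : ∀ z ∈ Z, ∀ z' ∈ Z', z' - z ∈ R)
    (hS : ∀ w ∈ W, ∀ w' ∈ W', w' - w ∈ S) (hZ : v Z ≠ 0) (hZ' : v Z' ≠ 0) (hW : v W ≠ 0) (hW' : v W' ≠ 0)
    (h12 : ∀ᵐ s ∂((v.prod v).restrict (Z ×ˢ W)), t12 s ≠ 0) (h23 : ∀ᵐ s ∂((v.prod v).restrict (R ×ˢ S)), t23 s ≠ 0) :
    (v.prod (v.prod (v.prod v))) ({o | t12 (o12 o) ≠ 0 ∧ t23 (o23 o) ≠ 0} ∩ (Z ×ˢ Z' ×ˢ W ×ˢ W')) ≠ 0 := by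
  rw [ae_restrict_iff' (mZ.prod mW)] at h12
  rw [ae_restrict_iff' (mR.prod mS)] at h23
  have e12 := (q12 v v v).ae h12
  have e23 := (qo23 (v := v)).ae h23
  have e : ∀ᵐ o ∂(v.prod (v.prod (v.prod v))), o ∈ (Z ×ˢ Z' ×ˢ W ×ˢ W' : Set (E × E × E × E)) →
      o ∈ {o : E × E × E × E | t12 (o12 o) ≠ 0 ∧ t23 (o23 o) ≠ 0} := by
    filter_upwards [e12, e23] with o f12 f23 ho
    exact ⟨f12 ⟨ho.1, ho.2.2.1⟩, f23 ⟨hR _ ho.1 _ ho.2.1, hS _ ho.2.2.1 _ ho.2.2.2⟩⟩
  have e0 : (v.prod (v.prod (v.prod v))) (Z ×ˢ Z' ×ˢ W ×ˢ W') ≠ 0 := by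
    rw [Measure.prod_prod, Measure.prod_prod, Measure.prod_prod]
    exact mul_ne_zero hZ (mul_ne_zero hZ' (mul_ne_zero hW hW'))
  intro h0
  apply e0
  refine measure_mono_null ?_ (measure_union_null h0 (ae_iff.1 e))
  intro o ho
  by_cases h : o ∈ {o : E × E × E × E | t12 (o12 o) ≠ 0 ∧ t23 (o23 o) ≠ 0}
  · exact Or.inl ⟨h, ho⟩
  · exact Or.inr fun h' => h (h' ho)

/-- **the middle of route L**: three classes of arcs, two lattices, companions ==> the law of (pieces before the cuts, arc) of the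
first lattice is the product of a measure and of the law of the arc in the second lattice -/
theorem mid_prod {β1 : Measure (K1 × A)} {β2 : Measure (K2 × B)} {β3 : Measure (K3 × C)} {b1 : Measure A} {b2 : Measure B}
    {b3 : Measure C} {v : Measure E} [IsFiniteMeasure β1] [IsFiniteMeasure β2] [IsFiniteMeasure β3] [SigmaFinite b1]
    [SigmaFinite b2] [SigmaFinite b3] [SigmaFinite v] [v.IsAddLeftInvariant]
    {D12 : Set (A × (B × E))} {D13 : Set (A × (C × E))} {D23 : Set (B × (C × E))}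
    (hD12 : MeasurableSet D12) (hD13 : MeasurableSet D13) (hD23 : MeasurableSet D23) {y1 : A → E} {y2 : B → E}
    {y3 : C → E} (hy1 : Measurable y1) (hy2 : Measurable y2) (hy3 : Measurable y3)
    {P12 : Measure ((K1 × A) × ((K2 × B) × E))} {P13 : Measure ((K1 × A) × ((K3 × C) × E))}
    {P23 : Measure ((K2 × B) × ((K3 × C) × E))} [IsFiniteMeasure P12] [IsFiniteMeasure P13] [IsFiniteMeasure P23]
    {G12 : K1 × K2 × (E × E) → ℝ≥0∞} {G13 : K1 × K3 × (E × E) → ℝ≥0∞} {G23 : K2 × K3 × (E × E) → ℝ≥0∞}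
    (p12 : TwoL β1 β2 b1 b2 v D12 y1 y2 P12 G12) (p13 : TwoL β1 β3 b1 b3 v D13 y1 y3 P13 G13)
    (p23 : TwoL β2 β3 b2 b3 v D23 y2 y3 P23 G23)
    (h1 : β1.snd ≪ b1) (h2 : β2.snd ≪ b2) (h3 : β3.snd ≪ b3)
    {Z Z' W W' R S : Set E} (mZ : MeasurableSet Z) (mZ' : MeasurableSet Z') (mW : MeasurableSet W)
    (mW' : MeasurableSet W') (mR : MeasurableSet R) (mS : MeasurableSet S) (hR : ∀ z ∈ Z, ∀ z' ∈ Z', z' - z ∈ R)
    (hS : ∀ w ∈ W, ∀ w' ∈ W', w' - w ∈ S) (hZ : v Z ≠ 0) (hZ' : v Z' ≠ 0) (hW : v W ≠ 0) (hW' : v W' ≠ 0)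
    (l12 : (v.prod v).restrict (Z ×ˢ W) ≪ P12.map (fun p => zw y1 y2 (pi3 p)))
    (l23 : (v.prod v).restrict (R ×ˢ S) ≪ P23.map (fun p => zw y2 y3 (pi3 p)))
    (hc : ∀ᵐ a ∂b1, ∃ (V : Set B) (V' : Set C) (T T' : Set E), MeasurableSet V ∧ MeasurableSet V' ∧ MeasurableSet T ∧
      MeasurableSet T' ∧
      (∀ x ∈ V, ∀ x' ∈ V', ∀ z ∈ Z, ∀ z' ∈ Z', (a, x, z) ∈ D12 ∧ (a, x', z') ∈ D13 ∧ (x, x', z' - z) ∈ D23) ∧
      (∀ z ∈ Z, ∀ w ∈ W, z + y1 a - w ∈ T) ∧ (∀ z ∈ Z', ∀ w ∈ W', z + y1 a - w ∈ T') ∧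
      v.restrict T ≪ (b2.restrict V).map y2 ∧ v.restrict T' ≪ (b3.restrict V').map y3) :
    ∃ ν : Measure K1, IsFiniteMeasure ν ∧ β1 = ν.prod b1 := by
  obtain ⟨t12, q12⟩ := p12.par hD12 hy1 hy2 MeasurableSet.univ
  obtain ⟨t13, q13⟩ := p13.par hD13 hy1 hy3 MeasurableSet.univ
  obtain ⟨t23, q23⟩ := p23.par hD23 hy2 hy3 MeasurableSet.univ
  rw [sec_univ] at q12 q13 q23
  have n12 := par_ne hy1 hy2 q12 (l12.trans (p12.ac hD12 hy1 hy2))
  have n23 := par_ne hy2 hy3 q23 (l23.trans (p23.ac hD23 hy2 hy3))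
  exact c4 hD12 hD13 hD23 hy1 hy2 hy3 (hO_box mZ mW mR mS hR hS hZ hZ' hW hW' n12 n23)
    (sup_of hy2 hy3 mZ mZ' mW mW' hc) h1 h2 h3 q12 q13 q23 fun S hS => p12.par hD12 hy1 hy2 hS

/-- **the laws of the arc in the two lattices** -/
theorem law_of_prod {β : Measure (K1 × A)} {b : Measure A} [SFinite b] {ν : Measure K1} [IsFiniteMeasure ν]
    (h : β = ν.prod b) (F : A → ℝ≥0∞) (hF : Measurable F) :
    (∫⁻ p, F p.2 ∂β) * b univ = β univ * ∫⁻ a, F a ∂b := by
  rw [h, lintegral_prod (fun p : K1 × A => F p.2) (hF.comp measurable_snd).aemeasurable]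
  have e : ∫⁻ _ : K1, ∫⁻ a, F a ∂b ∂ν = (∫⁻ a, F a ∂b) * ν univ := lintegral_const _
  show (∫⁻ _ : K1, ∫⁻ a, F a ∂b ∂ν) * b univ = _
  rw [e, ← univ_prod_univ, Measure.prod_prod]
  ring

end three

end Pool.Agent.ROT.F3
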