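import Pool.Agent.ROT.F3MidP

/-!
# ROT, F3, the middle of route NL (helper17): from the limits on the two lattices to `TwoP`

`R1`, `R2` = the rests of the first lattice, `τ1`, `τ2` = their decomposition at the cuts of the second lattice (`K` = the two pieces
next to the ends, `A` = the arc behind the cuts), `s`, `e` = the displacements of the two pieces.

* `tht` : the change of coordinates, `tht_map` : it respects the product measures;
* **`d0_push`**, **`hp_push`** : the density and its positivity in the new coordinates;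
* **`he_of`** : the two descriptions of the joint law from a pointwise statement (for almost every closed curve);
* **`twoP_joint`** : `TwoP`, `twoL_joint` : `TwoL`.
-/

set_option autoImplicit false
set_option linter.unusedSectionVars false

namespace Pool.Agent.ROT.F3

open MeasureTheory Set
open scoped ENNReal

variable {R1 R2 K1 K2 A B E K0 : Type*} [MeasurableSpace R1] [MeasurableSpace R2] [MeasurableSpace A] [MeasurableSpace B]
  [MeasurableSpace E] [MeasurableSpace K1] [MeasurableSpace K2] [MeasurableSpace K0] [AddCommGroup E] [MeasurableAdd₂ E]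
  [MeasurableNeg E]

/-- the change of coordinates -/
def tht (τ1 : R1 → K1 × A) (τ2 : R2 → K2 × B) (s1 : K1 → E) (s2 : K2 → E) (p : R1 × (R2 × E)) :
    (K1 × A) × ((K2 × B) × E) := (τ1 p.1, (τ2 p.2.1, p.2.2 + s1 (τ1 p.1).1 - s2 (τ2 p.2.1).1))

variable {τ1 : R1 → K1 × A} {τ2 : R2 → K2 × B} {s1 e1 : K1 → E} {s2 e2 : K2 → E}

lemma tht_meas (m1 : Measurable τ1) (m2 : Measurable τ2) (n1 : Measurable s1) (n2 : Measurable s2) :
    Measurable (tht τ1 τ2 s1 s2) := by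
  unfold tht
  simp only [sub_eq_add_neg]
  have a1 : Measurable fun p : R1 × (R2 × E) => s1 (τ1 p.1).1 := n1.comp (measurable_fst.comp (m1.comp measurable_fst))
  have a2 : Measurable fun p : R1 × (R2 × E) => s2 (τ2 p.2.1).1 :=
    n2.comp (measurable_fst.comp (m2.comp (measurable_fst.comp measurable_snd)))
  exact (m1.comp measurable_fst).prodMk ((m2.comp (measurable_fst.comp measurable_snd)).prodMk
    (((measurable_snd.comp measurable_snd).add a1).add a2.neg))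

/-- the change of coordinates respects the product measures -/
lemma tht_map (m1 : Measurable τ1) (m2 : Measurable τ2) (n1 : Measurable s1) (n2 : Measurable s2) {μ1 : Measure R1}
    {μ2 : Measure R2} {v : Measure E} [SFinite μ1] [SFinite μ2] [SFinite v] [v.IsAddLeftInvariant] :
    (μ1.prod (μ2.prod v)).map (tht τ1 τ2 s1 s2) = (μ1.map τ1).prod ((μ2.map τ2).prod v) := by
  -- the shear
  have c1 : Measurable fun q : (K1 × A) × (K2 × B) => s1 q.1.1 - s2 q.2.1 := by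
    simp only [sub_eq_add_neg]
    fun_prop
  have sh2 : ∀ a : K1 × A, (((μ2.map τ2).prod v)).map (fun q : (K2 × B) × E => (q.1, (s1 a.1 - s2 q.1.1) + q.2)) =
      (μ2.map τ2).prod v := by
    intro a
    refine ((MeasurePreserving.id (μ2.map τ2)).skew_product (g := fun (b : K2 × B) (z : E) => (s1 a.1 - s2 b.1) + z)
      ?_ (ae_of_all _ fun b => map_add_left_eq_self v _)).map_eq
    show Measurable fun q : (K2 × B) × E => (s1 a.1 - s2 q.1.1) + q.2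
    simp only [sub_eq_add_neg]
    fun_prop
  have sh1 : MeasurePreserving (fun q : (K1 × A) × ((K2 × B) × E) => (q.1, (q.2.1, (s1 q.1.1 - s2 q.2.1.1) + q.2.2)))
      ((μ1.map τ1).prod ((μ2.map τ2).prod v)) ((μ1.map τ1).prod ((μ2.map τ2).prod v)) := by
    refine (MeasurePreserving.id (μ1.map τ1)).skew_product
      (g := fun (a : K1 × A) (q : (K2 × B) × E) => (q.1, (s1 a.1 - s2 q.1.1) + q.2)) ?_ (ae_of_all _ fun a => sh2 a)
    show Measurable fun q : (K1 × A) × ((K2 × B) × E) => (q.2.1, (s1 q.1.1 - s2 q.2.1.1) + q.2.2)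
    simp only [sub_eq_add_neg]
    fun_prop
  have e1 : tht τ1 τ2 s1 s2 = (fun q : (K1 × A) × ((K2 × B) × E) => (q.1, (q.2.1, (s1 q.1.1 - s2 q.2.1.1) + q.2.2))) ∘
      Prod.map τ1 (Prod.map τ2 id) := by
    funext p
    unfold tht
    simp only [Function.comp_apply, Prod.map_fst, Prod.map_snd, id]
    rw [show p.2.2 + s1 (τ1 p.1).1 - s2 (τ2 p.2.1).1 = s1 (τ1 p.1).1 - s2 (τ2 p.2.1).1 + p.2.2 by abel]
  rw [e1, ← Measure.map_map sh1.measurable (m1.prodMap (m2.prodMap measurable_id)),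
    ← Measure.map_prod_map _ _ m1 (m2.prodMap measurable_id), ← Measure.map_prod_map _ _ m2 measurable_id, Measure.map_id]
  exact sh1.map_eq

section push

variable {C1 : Set R1} {C2 : Set R2} {D0 : Set (R1 × (R2 × E))} {D : Set (A × (B × E))} {Y1 : R1 → E} {Y2 : R2 → E}
  {y1 : A → E} {y2 : B → E} {β1 : Measure R1} {β2 : Measure R2} {v : Measure E} [SFinite β1] [SFinite β2] [SFinite v]
  [v.IsAddLeftInvariant] {M0 : Measure (K0 × (R1 × (R2 × E)))}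

/-- **the density in the new coordinates** -/
theorem d0_push (m1 : Measurable τ1) (m2 : Measurable τ2) (n1 : Measurable s1) (n2 : Measurable s2) (o1 : Measurable e1)
    (o2 : Measurable e2) (hC1 : MeasurableSet C1) (hC2 : MeasurableSet C2) (hy1 : Measurable y1) (hy2 : Measurable y2)
    (k1 : ∀ r ∈ C1, Y1 r = s1 (τ1 r).1 + y1 (τ1 r).2 + e1 (τ1 r).1)
    (k2 : ∀ r ∈ C2, Y2 r = s2 (τ2 r).1 + y2 (τ2 r).2 + e2 (τ2 r).1)
    (hsub : ∀ p : R1 × (R2 × E), p.1 ∈ C1 → p.2.1 ∈ C2 → pi3 (tht τ1 τ2 s1 s2 p) ∈ D → p ∈ D0)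
    (d0 : Den M0 (β1.prod (β2.prod v)) D0 (zw Y1 Y2) fun _ => 1) :
    Den ((M0.restrict (Prod.snd ⁻¹' (C1 ×ˢ (C2 ×ˢ univ)))).map (Prod.map id (tht τ1 τ2 s1 s2)))
      (((β1.restrict C1).map τ1).prod (((β2.restrict C2).map τ2).prod v)) (pi3 ⁻¹' D) (cc y1 y2) fun _ => 1 := by
  have mt := tht_meas (E := E) m1 m2 n1 n2
  have mc := cc_meas (A := A) (B := B) (K1 := K1) (K2 := K2) hy1 hy2
  obtain ⟨t, kt, ht⟩ := d0
  obtain ⟨G, hG⟩ : ∃ G : K1 × K2 × (E × E) → ℝ≥0∞, G = fun l =>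
      t (l.2.2.1 - s1 l.1 + s2 l.2.1, l.2.2.2 + e1 l.1 - e2 l.2.1) := ⟨_, rfl⟩
  have mG : Measurable G := by
    rw [hG]
    refine kt.comp ?_
    simp only [sub_eq_add_neg]
    fun_prop
  refine ⟨G, mG, fun S hS hSD => ?_⟩
  have mCs : MeasurableSet (C1 ×ˢ (C2 ×ˢ (univ : Set E))) := hC1.prod (hC2.prod MeasurableSet.univ)
  have mtS : MeasurableSet (tht τ1 τ2 s1 s2 ⁻¹' S) := mt hS
  have f1 : ∫⁻ _ in Prod.snd ⁻¹' S, (1 : ℝ≥0∞) ∂((M0.restrict (Prod.snd ⁻¹' (C1 ×ˢ (C2 ×ˢ univ)))).map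
      (Prod.map id (tht τ1 τ2 s1 s2))) = ∫⁻ _ in Prod.snd ⁻¹' (tht τ1 τ2 s1 s2 ⁻¹' S ∩ C1 ×ˢ (C2 ×ˢ univ)), (1 : ℝ≥0∞) ∂M0 := by
    rw [setLIntegral_one, setLIntegral_one, Measure.map_apply (measurable_id.prodMap mt) (measurable_snd hS),
      Measure.restrict_apply ((measurable_id.prodMap mt) (measurable_snd hS))]
    rfl
  have f2 := ht (tht τ1 τ2 s1 s2 ⁻¹' S ∩ C1 ×ˢ (C2 ×ˢ univ)) (mtS.inter mCs)
    (fun p hp => hsub p hp.2.1 hp.2.2.1 (hSD hp.1))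
  have f3 : (β1.prod (β2.prod v)).restrict (C1 ×ˢ (C2 ×ˢ univ)) = (β1.restrict C1).prod ((β2.restrict C2).prod v) := by
    rw [← Measure.prod_restrict, ← Measure.prod_restrict, Measure.restrict_univ]
  have f4 : ∫⁻ x in tht τ1 τ2 s1 s2 ⁻¹' S ∩ C1 ×ˢ (C2 ×ˢ univ), t (zw Y1 Y2 x) ∂(β1.prod (β2.prod v)) =
      ∫⁻ x in tht τ1 τ2 s1 s2 ⁻¹' S ∩ C1 ×ˢ (C2 ×ˢ univ), G (cc y1 y2 (tht τ1 τ2 s1 s2 x)) ∂(β1.prod (β2.prod v)) := by
    refine setLIntegral_congr_fun (mtS.inter mCs) fun p hp => ?_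
    rw [hG]
    simp only [zw, cc, tht, pi3]
    rw [k1 _ hp.2.1, k2 _ hp.2.2.1]
    congr 2
    · abel
    · abel
  rw [f1, f2, f4, ← Measure.restrict_restrict mtS, f3, ← tht_map m1 m2 n1 n2]
  exact (setLIntegral_map (f := fun q => G (cc y1 y2 q)) hS (mG.comp mc) mt).symm

/-- **positivity in the new coordinates** -/
theorem hp_push (m1 : Measurable τ1) (m2 : Measurable τ2) (n1 : Measurable s1) (n2 : Measurable s2)
    (hC1 : MeasurableSet C1) (hC2 : MeasurableSet C2) (hD : MeasurableSet D)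
    (hsub : ∀ p : R1 × (R2 × E), p.1 ∈ C1 → p.2.1 ∈ C2 → pi3 (tht τ1 τ2 s1 s2 p) ∈ D → p ∈ D0)
    (hp : (β1.prod (β2.prod v)).restrict D0 ≪ M0.map Prod.snd) :
    ((((β1.restrict C1).map τ1).prod (((β2.restrict C2).map τ2).prod v)).restrict (pi3 ⁻¹' D)) ≪
      ((M0.restrict (Prod.snd ⁻¹' (C1 ×ˢ (C2 ×ˢ univ)))).map (Prod.map id (tht τ1 τ2 s1 s2))).map Prod.snd := by
  have mt := tht_meas (E := E) m1 m2 n1 n2
  have hπ := pi3_meas (A := A) (B := B) (E := E) (K1 := K1) (K2 := K2)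
  refine Measure.AbsolutelyContinuous.mk fun N hN h0 => ?_
  have mCs : MeasurableSet (C1 ×ˢ (C2 ×ˢ (univ : Set E))) := hC1.prod (hC2.prod MeasurableSet.univ)
  rw [Measure.map_apply measurable_snd hN, Measure.map_apply (measurable_id.prodMap mt) (measurable_snd hN),
    Measure.restrict_apply ((measurable_id.prodMap mt) (measurable_snd hN))] at h0
  have h1 : (M0.map Prod.snd) (tht τ1 τ2 s1 s2 ⁻¹' N ∩ C1 ×ˢ (C2 ×ˢ univ)) = 0 := by
    rw [Measure.map_apply measurable_snd ((mt hN).inter mCs)]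
    exact h0
  have h2 := hp h1
  have f3 : (β1.prod (β2.prod v)).restrict (C1 ×ˢ (C2 ×ˢ univ)) = (β1.restrict C1).prod ((β2.restrict C2).prod v) := by
    rw [← Measure.prod_restrict, ← Measure.prod_restrict, Measure.restrict_univ]
  rw [Measure.restrict_apply hN, ← tht_map m1 m2 n1 n2, ← f3, Measure.map_apply mt (hN.inter (hπ hD)),
    Measure.restrict_apply (mt (hN.inter (hπ hD)))]
  rw [Measure.restrict_apply ((mt hN).inter mCs)] at h2
  refine measure_mono_null ?_ h2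
  intro p hp'
  exact ⟨⟨hp'.1.1, hp'.2⟩, hsub p hp'.2.1 hp'.2.2.1 hp'.1.2⟩

end push

section joint

variable {Γ Kp Kq : Type*} [MeasurableSpace Γ] [MeasurableSpace Kp] [MeasurableSpace Kq]

/-- **the joint law**: pointwise statement for almost every closed curve -/
theorem he_of {P : Measure Γ} {w0 wR : Γ → ℝ≥0∞}
    {m0 : Γ → K0 × (R1 × (R2 × E))} {mR : Γ → (Kp × Kq) × (A × (B × E))} (k0 : Measurable m0) (kR : Measurable mR)
    (m1 : Measurable τ1) (m2 : Measurable τ2) (n1 : Measurable s1) (n2 : Measurable s2) {C1 : Set R1} {C2 : Set R2}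
    (hC1 : MeasurableSet C1) (hC2 : MeasurableSet C2) {D : Set (A × (B × E))} (hD : MeasurableSet D) {Cp : Set Kp}
    {Cq : Set Kq} (hCp : MeasurableSet Cp) (hCq : MeasurableSet Cq) {f : Kp × Kq → K1 × K2} (hf : Measurable f)
    (hj : ∀ᵐ g ∂P,
      {g | (m0 g).2 ∈ C1 ×ˢ (C2 ×ˢ univ) ∧ pi3 (tht τ1 τ2 s1 s2 (m0 g).2) ∈ D}.indicator w0 g =
        {g | mR g ∈ (Cp ×ˢ Cq) ×ˢ D}.indicator wR g ∧
      ({g | (m0 g).2 ∈ C1 ×ˢ (C2 ×ˢ univ) ∧ pi3 (tht τ1 τ2 s1 s2 (m0 g).2) ∈ D}.indicator w0 g ≠ 0 →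
        sh (tht τ1 τ2 s1 s2 (m0 g).2) = (f (mR g).1, (mR g).2))) :
    (((((((P.withDensity w0).map m0).restrict (Prod.snd ⁻¹' (C1 ×ˢ (C2 ×ˢ univ)))).map
      (Prod.map id (tht τ1 τ2 s1 s2))).map Prod.snd).restrict (pi3 ⁻¹' D)).map sh) =
        ((((P.withDensity wR).map mR).restrict ((Cp ×ˢ Cq) ×ˢ D)).map (Prod.map f id)) := by
  have mt := tht_meas (E := E) m1 m2 n1 n2
  have hπ := pi3_meas (A := A) (B := B) (E := E) (K1 := K1) (K2 := K2)
  have hs := sh_meas (A := A) (B := B) (E := E) (K1 := K1) (K2 := K2)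
  have mf : Measurable (Prod.map f id : (Kp × Kq) × (A × (B × E)) → (K1 × K2) × (A × (B × E))) := hf.prodMap measurable_id
  have mCs : MeasurableSet (C1 ×ˢ (C2 ×ˢ (univ : Set E))) := hC1.prod (hC2.prod MeasurableSet.univ)
  have mCR : MeasurableSet ((Cp ×ˢ Cq) ×ˢ D) := (hCp.prod hCq).prod hD
  have mA0 : MeasurableSet {g | (m0 g).2 ∈ C1 ×ˢ (C2 ×ˢ univ) ∧ pi3 (tht τ1 τ2 s1 s2 (m0 g).2) ∈ D} :=
    ((measurable_snd.comp k0) mCs).inter ((hπ.comp (mt.comp (measurable_snd.comp k0))) hD)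
  have mAR : MeasurableSet {g | mR g ∈ (Cp ×ˢ Cq) ×ˢ D} := kR mCR
  ext S hS
  -- left side
  have l1 : (((((((P.withDensity w0).map m0).restrict (Prod.snd ⁻¹' (C1 ×ˢ (C2 ×ˢ univ)))).map
      (Prod.map id (tht τ1 τ2 s1 s2))).map Prod.snd).restrict (pi3 ⁻¹' D)).map sh) S =
      ∫⁻ g in {g | sh (tht τ1 τ2 s1 s2 (m0 g).2) ∈ S},
        {g | (m0 g).2 ∈ C1 ×ˢ (C2 ×ˢ univ) ∧ pi3 (tht τ1 τ2 s1 s2 (m0 g).2) ∈ D}.indicator w0 g ∂P := by
    have q1 : MeasurableSet (sh ⁻¹' S ∩ pi3 ⁻¹' D : Set ((K1 × A) × ((K2 × B) × E))) := (hs hS).inter (hπ hD)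
    rw [Measure.map_apply hs hS, Measure.restrict_apply (hs hS), Measure.map_apply measurable_snd q1,
      Measure.map_apply (measurable_id.prodMap mt) (measurable_snd q1),
      Measure.restrict_apply ((measurable_id.prodMap mt) (measurable_snd q1)),
      Measure.map_apply k0 (((measurable_id.prodMap mt) (measurable_snd q1)).inter (measurable_snd mCs)),
      withDensity_apply _ (k0 (((measurable_id.prodMap mt) (measurable_snd q1)).inter (measurable_snd mCs))),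
      setLIntegral_indicator mA0]
    congr 2
    ext g
    constructor
    · rintro ⟨⟨a1, a2⟩, a3⟩
      exact ⟨⟨a3, a2⟩, a1⟩
    · rintro ⟨⟨a3, a2⟩, a1⟩
      exact ⟨⟨a1, a2⟩, a3⟩
  have l2 : ((((P.withDensity wR).map mR).restrict ((Cp ×ˢ Cq) ×ˢ D)).map (Prod.map f id)) S =
      ∫⁻ g in {g | (f (mR g).1, (mR g).2) ∈ S}, {g | mR g ∈ (Cp ×ˢ Cq) ×ˢ D}.indicator wR g ∂P := by
    rw [Measure.map_apply mf hS, Measure.restrict_apply (mf hS), Measure.map_apply kR ((mf hS).inter mCR),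
      withDensity_apply _ (kR ((mf hS).inter mCR)), setLIntegral_indicator mAR]
    congr 2
    ext g
    constructor
    · rintro ⟨a1, a2⟩
      exact ⟨a2, a1⟩
    · rintro ⟨a2, a1⟩
      exact ⟨a1, a2⟩
  have n1' : MeasurableSet {g | sh (tht τ1 τ2 s1 s2 (m0 g).2) ∈ S} := (hs.comp (mt.comp (measurable_snd.comp k0))) hS
  have n2' : MeasurableSet {g | (f (mR g).1, (mR g).2) ∈ S} := (mf.comp kR) hS
  rw [l1, l2, ← lintegral_indicator n1', ← lintegral_indicator n2']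
  refine lintegral_congr_ae ?_
  filter_upwards [hj] with g hg
  obtain ⟨g1, g2⟩ := hg
  by_cases c : {g | (m0 g).2 ∈ C1 ×ˢ (C2 ×ˢ univ) ∧ pi3 (tht τ1 τ2 s1 s2 (m0 g).2) ∈ D}.indicator w0 g = 0
  · have c' : {g | mR g ∈ (Cp ×ˢ Cq) ×ˢ D}.indicator wR g = 0 := by rw [← g1]; exact c
    have u1 : {g | sh (tht τ1 τ2 s1 s2 (m0 g).2) ∈ S}.indicator (fun g =>
        {g | (m0 g).2 ∈ C1 ×ˢ (C2 ×ˢ univ) ∧ pi3 (tht τ1 τ2 s1 s2 (m0 g).2) ∈ D}.indicator w0 g) g = 0 := by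
      by_cases cc' : g ∈ {g | sh (tht τ1 τ2 s1 s2 (m0 g).2) ∈ S}
      · rw [indicator_of_mem cc']
        exact c
      · rw [indicator_of_notMem cc']
    have u2 : {g | (f (mR g).1, (mR g).2) ∈ S}.indicator (fun g => {g | mR g ∈ (Cp ×ˢ Cq) ×ˢ D}.indicator wR g) g = 0 := by
      by_cases cc' : g ∈ {g | (f (mR g).1, (mR g).2) ∈ S}
      · rw [indicator_of_mem cc']
        exact c'
      · rw [indicator_of_notMem cc']
    exact u1.trans u2.symm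
  · have e := g2 c
    by_cases cS : (f (mR g).1, (mR g).2) ∈ S
    · have cS' : g ∈ {g | sh (tht τ1 τ2 s1 s2 (m0 g).2) ∈ S} := by
        show sh (tht τ1 τ2 s1 s2 (m0 g).2) ∈ S
        rw [e]
        exact cS
      rw [indicator_of_mem cS', indicator_of_mem (show g ∈ {g | (f (mR g).1, (mR g).2) ∈ S} from cS)]
      exact g1
    · have cS' : g ∉ {g | sh (tht τ1 τ2 s1 s2 (m0 g).2) ∈ S} := by
        intro h
        apply cS
        have h' : sh (tht τ1 τ2 s1 s2 (m0 g).2) ∈ S := h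
        rwa [e] at h'
      rw [indicator_of_notMem cS', indicator_of_notMem (show g ∉ {g | (f (mR g).1, (mR g).2) ∈ S} from cS)]

variable {C1 : Set R1} {C2 : Set R2} {D0 : Set (R1 × (R2 × E))} {D : Set (A × (B × E))} {Y1 : R1 → E} {Y2 : R2 → E}
  {y1 : A → E} {y2 : B → E} {β1 : Measure R1} {β2 : Measure R2} {b1 : Measure A} {b2 : Measure B} {v : Measure E}
  [IsFiniteMeasure β1] [IsFiniteMeasure β2] [SigmaFinite v] [v.IsAddLeftInvariant]

/-- **`TwoL` from the limits on the two lattices** -/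
theorem twoL_joint {P : Measure Γ} {w0 wR : Γ → ℝ≥0∞}
    {m0 : Γ → K0 × (R1 × (R2 × E))} {mR : Γ → (Kp × Kq) × (A × (B × E))} (k0 : Measurable m0) (kR : Measurable mR)
    (m1 : Measurable τ1) (m2 : Measurable τ2) (n1 : Measurable s1) (n2 : Measurable s2) (o1 : Measurable e1)
    (o2 : Measurable e2) (hC1 : MeasurableSet C1) (hC2 : MeasurableSet C2) (hD : MeasurableSet D)
    (hy1 : Measurable y1) (hy2 : Measurable y2)
    (k1 : ∀ r ∈ C1, Y1 r = s1 (τ1 r).1 + y1 (τ1 r).2 + e1 (τ1 r).1)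
    (k2 : ∀ r ∈ C2, Y2 r = s2 (τ2 r).1 + y2 (τ2 r).2 + e2 (τ2 r).1)
    (hsub : ∀ p : R1 × (R2 × E), p.1 ∈ C1 → p.2.1 ∈ C2 → pi3 (tht τ1 τ2 s1 s2 p) ∈ D → p ∈ D0)
    {Cp : Set Kp} {Cq : Set Kq} (hCp : MeasurableSet Cp) (hCq : MeasurableSet Cq) {f : Kp × Kq → K1 × K2}
    (hf : Measurable f)
    (d0 : Den ((P.withDensity w0).map m0) (β1.prod (β2.prod v)) D0 (zw Y1 Y2) fun _ => 1)
    (hp : (β1.prod (β2.prod v)).restrict D0 ≪ ((P.withDensity w0).map m0).map Prod.snd)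
    (dR : ∀ Φ : Kp × Kq → ℝ≥0∞, Measurable Φ → Den ((P.withDensity wR).map mR) (b1.prod (b2.prod v)) D (zw y1 y2) Φ)
    (hj : ∀ᵐ g ∂P,
      {g | (m0 g).2 ∈ C1 ×ˢ (C2 ×ˢ univ) ∧ pi3 (tht τ1 τ2 s1 s2 (m0 g).2) ∈ D}.indicator w0 g =
        {g | mR g ∈ (Cp ×ˢ Cq) ×ˢ D}.indicator wR g ∧
      ({g | (m0 g).2 ∈ C1 ×ˢ (C2 ×ˢ univ) ∧ pi3 (tht τ1 τ2 s1 s2 (m0 g).2) ∈ D}.indicator w0 g ≠ 0 →
        sh (tht τ1 τ2 s1 s2 (m0 g).2) = (f (mR g).1, (mR g).2))) :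
    ∃ G, TwoL ((β1.restrict C1).map τ1) ((β2.restrict C2).map τ2) b1 b2 v D y1 y2
      ((((((P.withDensity w0).map m0).restrict (Prod.snd ⁻¹' (C1 ×ˢ (C2 ×ˢ univ)))).map
        (Prod.map id (tht τ1 τ2 s1 s2))).map Prod.snd).restrict (pi3 ⁻¹' D)) G :=
  twoL_of hD hy1 hy2 (d0_push m1 m2 n1 n2 o1 o2 hC1 hC2 hy1 hy2 k1 k2 hsub d0) dR hf (hCp.prod hCq)
    (he_of k0 kR m1 m2 n1 n2 hC1 hC2 hD hCp hCq hf hj) (hp_push m1 m2 n1 n2 hC1 hC2 hD hsub hp)

/-- **`TwoP` from the limits on the two lattices** -/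
theorem twoP_joint {P : Measure Γ} {w0 wR : Γ → ℝ≥0∞}
    {m0 : Γ → K0 × (R1 × (R2 × E))} {mR : Γ → (Kp × Kq) × (A × (B × E))} (k0 : Measurable m0) (kR : Measurable mR)
    (m1 : Measurable τ1) (m2 : Measurable τ2) (n1 : Measurable s1) (n2 : Measurable s2) (o1 : Measurable e1)
    (o2 : Measurable e2) (hC1 : MeasurableSet C1) (hC2 : MeasurableSet C2) (hD : MeasurableSet D)
    (hy1 : Measurable y1) (hy2 : Measurable y2)
    (k1 : ∀ r ∈ C1, Y1 r = s1 (τ1 r).1 + y1 (τ1 r).2 + e1 (τ1 r).1)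
    (k2 : ∀ r ∈ C2, Y2 r = s2 (τ2 r).1 + y2 (τ2 r).2 + e2 (τ2 r).1)
    (hsub : ∀ p : R1 × (R2 × E), p.1 ∈ C1 → p.2.1 ∈ C2 → pi3 (tht τ1 τ2 s1 s2 p) ∈ D → p ∈ D0)
    {Cp : Set Kp} {Cq : Set Kq} (hCp : MeasurableSet Cp) (hCq : MeasurableSet Cq) {f : Kp × Kq → K1 × K2}
    (hf : Measurable f)
    (d0 : Den ((P.withDensity w0).map m0) (β1.prod (β2.prod v)) D0 (zw Y1 Y2) fun _ => 1)
    (hp : (β1.prod (β2.prod v)).restrict D0 ≪ ((P.withDensity w0).map m0).map Prod.snd)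
    (dR : ∀ Φ : Kp × Kq → ℝ≥0∞, Measurable Φ → Den ((P.withDensity wR).map mR) (b1.prod (b2.prod v)) D (zw y1 y2) Φ)
    (dP : DenP ((P.withDensity wR).map mR) (b1.prod (b2.prod v)) D (zw y1 y2) (Cp.indicator fun _ => 1)
      (Cq.indicator fun _ => 1))
    (hj : ∀ᵐ g ∂P,
      {g | (m0 g).2 ∈ C1 ×ˢ (C2 ×ˢ univ) ∧ pi3 (tht τ1 τ2 s1 s2 (m0 g).2) ∈ D}.indicator w0 g =
        {g | mR g ∈ (Cp ×ˢ Cq) ×ˢ D}.indicator wR g ∧
      ({g | (m0 g).2 ∈ C1 ×ˢ (C2 ×ˢ univ) ∧ pi3 (tht τ1 τ2 s1 s2 (m0 g).2) ∈ D}.indicator w0 g ≠ 0 →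
        sh (tht τ1 τ2 s1 s2 (m0 g).2) = (f (mR g).1, (mR g).2))) :
    ∃ G g h, TwoP ((β1.restrict C1).map τ1) ((β2.restrict C2).map τ2) b1 b2 v D y1 y2
      ((((((P.withDensity w0).map m0).restrict (Prod.snd ⁻¹' (C1 ×ˢ (C2 ×ˢ univ)))).map
        (Prod.map id (tht τ1 τ2 s1 s2))).map Prod.snd).restrict (pi3 ⁻¹' D)) G g h :=
  twoP_of hD hy1 hy2 (d0_push m1 m2 n1 n2 o1 o2 hC1 hC2 hy1 hy2 k1 k2 hsub d0) dR hCp hCq dP hf
    (he_of k0 kR m1 m2 n1 n2 hC1 hC2 hD hCp hCq hf hj) (hp_push m1 m2 n1 n2 hC1 hC2 hD hsub hp)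

end joint

end Pool.Agent.ROT.F3
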