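import Pool.Agent.ROT.F3MidP
import Pool.Agent.ROT.F3C4l

/-!
# ROT, F3, the middle of route NL (helper17): the final form

* **`mid_low`** : three classes of arcs, two lattices (`TwoP` for the pairs 12 and 23, `TwoL` for 13), lanes, positivity for the first
  lattice ==> `β1 = ν × b1`; **`mid_law`** : the law of the arc behind the cuts is the same for the two lattices.
-/

set_option autoImplicit false
set_option linter.unusedSectionVars false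

namespace Pool.Agent.ROT.F3

open MeasureTheory Set
open scoped ENNReal

section pair

variable {A B E K1 K2 : Type*} [MeasurableSpace A] [MeasurableSpace B] [MeasurableSpace E] [MeasurableSpace K1]
  [MeasurableSpace K2] [AddCommGroup E] [MeasurableAdd₂ E] [MeasurableNeg E]
  {β1 : Measure (K1 × A)} {β2 : Measure (K2 × B)} {b1 : Measure A} {b2 : Measure B} {v : Measure E}
  [SFinite β1] [SFinite β2] [SigmaFinite v] {D : Set (A × (B × E))} {y1 : A → E} {y2 : B → E}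
  {P : Measure ((K1 × A) × ((K2 × B) × E))} {G : K1 × K2 × (E × E) → ℝ≥0∞}

/-- positivity for the first lattice is positivity of `P` -/
lemma TwoL.chg (p : TwoL β1 β2 b1 b2 v D y1 y2 P G) (hD : MeasurableSet D) (h1 : Measurable y1) (h2 : Measurable y2)
    {Q : Set (A × (B × E))} (mQ : MeasurableSet Q) (hp : (β1.snd.prod (β2.snd.prod v)) (D ∩ Q) ≠ 0) :
    P.map pi3 Q ≠ 0 := by
  obtain ⟨mG, e0, hG, -⟩ := p
  have hc := cc_meas (A := A) (B := B) (K1 := K1) (K2 := K2) h1 h2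
  have hπ := pi3_meas (A := A) (B := B) (E := E) (K1 := K1) (K2 := K2)
  intro h0
  apply hp
  rw [Measure.map_apply hπ mQ, e0] at h0
  have h3 := (withDensity_apply_eq_zero (mG.comp hc)).1 h0
  have h4 : ((β1.prod (β2.prod v)).restrict (pi3 ⁻¹' D)) (pi3 ⁻¹' Q) = 0 := by
    refine measure_mono_null ?_ (measure_union_null h3 (ae_iff.1 hG))
    intro q hq'
    by_cases c : G (cc y1 y2 q) ≠ 0
    · exact Or.inl ⟨c, hq'⟩
    · exact Or.inr c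
  have f1 : (((β1.prod (β2.prod v)).restrict (pi3 ⁻¹' D)).map pi3) = ((β1.snd).prod (β2.snd.prod v)).restrict D := by
    rw [← Measure.restrict_map hπ hD]
    congr 1
    have f3 : (pi3 : (K1 × A) × ((K2 × B) × E) → A × B × E) = Prod.map Prod.snd (Prod.map Prod.snd id) := rfl
    rw [f3, ← Measure.map_prod_map _ _ measurable_snd (by fun_prop), ← Measure.map_prod_map _ _ measurable_snd
      measurable_id, Measure.map_id]
    rfl
  rw [← Measure.map_apply hπ mQ, f1, Measure.restrict_apply mQ, inter_comm] at h4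
  exact h4

lemma TwoP.ne {g h : E → ℝ≥0∞} [SFinite b2] (p : TwoP β1 β2 b1 b2 v D y1 y2 P G g h) (hD : MeasurableSet D)
    (h1 : Measurable y1) (h2 : Measurable y2) {Q : Set (A × (B × E))} (mQ : MeasurableSet Q)
    (hp : (β1.snd.prod (β2.snd.prod v)) (D ∩ Q) ≠ 0) : b1 ≠ 0 := by
  intro h0
  apply p.1.chg hD h1 h2 mQ hp
  rw [p.2.2.2, h0, Measure.zero_prod, Measure.restrict_zero, withDensity_apply _ mQ, Measure.restrict_zero,
    lintegral_zero_measure]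

end pair

section three

variable {A B C : Type*} [MeasurableSpace A] [MeasurableSpace B] [MeasurableSpace C]

/-- **the middle of route NL** -/
theorem mid_low {K1 K2 K3 : Type*} [MeasurableSpace K1] [MeasurableSpace K2] [MeasurableSpace K3]
    {β1 : Measure (K1 × A)} {β2 : Measure (K2 × B)} {β3 : Measure (K3 × C)} {b1 : Measure A} {b2 : Measure B}
    {b3 : Measure C} {v : Measure ℂ} [IsFiniteMeasure β1] [IsFiniteMeasure β2] [IsFiniteMeasure β3] [SigmaFinite b1]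
    [SigmaFinite b2] [SigmaFinite b3] [SigmaFinite v] [v.IsAddLeftInvariant] [v.IsOpenPosMeasure]
    {g1 : A → C(unitInterval, ℂ)} {g2 : B → C(unitInterval, ℂ)} {g3 : C → C(unitInterval, ℂ)}
    (n1 : Measurable g1) (n2 : Measurable g2) (n3 : Measurable g3) {y1 : A → ℂ} {y2 : B → ℂ} {y3 : C → ℂ}
    (hy1 : Measurable y1) (hy2 : Measurable y2) (hy3 : Measurable y3)
    {Z Z' W W' Z12 Z13 Z23 W12 W13 W23 : Set ℂ} {m0 : ℝ} (hm : 0 < m0) (kZ12 : MeasurableSet Z12)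
    (kZ13 : MeasurableSet Z13) (kZ23 : MeasurableSet Z23) (kW12 : MeasurableSet W12) (kW13 : MeasurableSet W13)
    (kW23 : MeasurableSet W23)
    (hZ12 : ∀ z ∈ Z, Metric.closedBall z m0 ⊆ Z12) (hZ13 : ∀ z ∈ Z', Metric.closedBall z m0 ⊆ Z13)
    (hZ23 : ∀ z ∈ Z, ∀ z' ∈ Z', Metric.closedBall (z' - z) m0 ⊆ Z23) (hW12 : ∀ w ∈ W, Metric.closedBall w m0 ⊆ W12)
    (hW13 : ∀ w ∈ W', Metric.closedBall w m0 ⊆ W13) (hW23 : ∀ w ∈ W, ∀ w' ∈ W', Metric.closedBall (w' - w) m0 ⊆ W23)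
    {P12 : Measure ((K1 × A) × ((K2 × B) × ℂ))} {P13 : Measure ((K1 × A) × ((K3 × C) × ℂ))}
    {P23 : Measure ((K2 × B) × ((K3 × C) × ℂ))} [IsFiniteMeasure P12] [IsFiniteMeasure P13] [IsFiniteMeasure P23]
    {G12 : K1 × K2 × (ℂ × ℂ) → ℝ≥0∞} {G13 : K1 × K3 × (ℂ × ℂ) → ℝ≥0∞} {G23 : K2 × K3 × (ℂ × ℂ) → ℝ≥0∞}
    {a12 c12 a23 c23 : ℂ → ℝ≥0∞}
    (p12 : TwoP β1 β2 b1 b2 v (DD g1 g2 y1 y2 Z12 W12) y1 y2 P12 G12 a12 c12)
    (p13 : TwoL β1 β3 b1 b3 v (DD g1 g3 y1 y3 Z13 W13) y1 y3 P13 G13)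
    (p23 : TwoP β2 β3 b2 b3 v (DD g2 g3 y2 y3 Z23 W23) y2 y3 P23 G23 a23 c23)
    (lane : ∀ᵐ a ∂(β1.snd + b1), ∀ z ∈ Z, ∀ z' ∈ Z', ∀ w ∈ W, ∀ w' ∈ W',
      LaneAt g1 g2 g3 y1 y2 y3 b2 β2.snd b3 β3.snd v m0 a z z' w w')
    {Zs Ws Zt Wt : Set ℂ} (mZ : MeasurableSet Zs) (mW : MeasurableSet Ws) (mZt : MeasurableSet Zt)
    (mWt : MeasurableSet Wt) (sZ : Zs ⊆ Z) (sW : Ws ⊆ W) (sZ' : ∀ z ∈ Zs, ∀ d ∈ Zt, z + d ∈ Z')
    (sW' : ∀ w ∈ Ws, ∀ d ∈ Wt, w + d ∈ W')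
    (q12 : (β1.snd.prod (β2.snd.prod v)) (DD g1 g2 y1 y2 Z12 W12 ∩ {p | zw y1 y2 p ∈ Zs ×ˢ Ws}) ≠ 0)
    (q23 : (β2.snd.prod (β3.snd.prod v)) (DD g2 g3 y2 y3 Z23 W23 ∩ {p | zw y2 y3 p ∈ Zt ×ˢ Wt}) ≠ 0) :
    ∃ ν : Measure K1, IsFiniteMeasure ν ∧ β1 = ν.prod b1 := by
  have mD12 := dd_meas n1 n2 hy1 hy2 kZ12 kW12
  have mD13 := dd_meas n1 n3 hy1 hy3 kZ13 kW13
  have mD23 := dd_meas n2 n3 hy2 hy3 kZ23 kW23
  obtain ⟨t12, r12⟩ := p12.1.par mD12 hy1 hy2 MeasurableSet.univ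
  obtain ⟨t13, r13⟩ := p13.par mD13 hy1 hy3 MeasurableSet.univ
  obtain ⟨t23, r23⟩ := p23.1.par mD23 hy2 hy3 MeasurableSet.univ
  rw [sec_univ] at r12 r13 r23
  -- support
  have hS : Sup b1 b2 b3 v (DD g1 g2 y1 y2 Z12 W12) (DD g1 g3 y1 y3 Z13 W13) (DD g2 g3 y2 y3 Z23 W23) y1 y2 y3
      (Z ×ˢ Z' ×ˢ W ×ˢ W') := by
    refine sup_loc n2 n3 hy2 hy3 hm hZ12 hZ13 hZ23 hW12 hW13 hW23 ?_
    filter_upwards [(ae_add_measure_iff.1 lane).2] with a ha z hz z' hz' w hw w' hw'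
    obtain ⟨η, hη, -, K, K', cK, cK', d1, d2, d3, l2, l3, -, -⟩ := ha z hz z' hz' w hw w' hw'
    exact ⟨η, hη, K, K', cK, cK', d1, d2, d3, l2, l3⟩
  -- positivity
  have mq12 : MeasurableSet {p : A × (B × ℂ) | zw y1 y2 p ∈ Zs ×ˢ Ws} := (zw_meas hy1 hy2) (mZ.prod mW)
  obtain ⟨v1, v2⟩ := p12.gh mD12 hy1 hy2 mZ mW q12
  obtain ⟨v3, v4⟩ := p23.gh mD23 hy2 hy3 mZt mWt q23
  have hO := hO_prod (A := A) (B := B) (C := C) (b1 := b1) (b2 := b2) (b3 := b3) (v := v) mD12 mD23 r12.1 r23.1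
    (p12.ne mD12 hy1 hy2 mq12 q12) hS p12.2.1 p12.2.2.1 p23.2.1 p23.2.2.1
    (t_ne mD12 hy1 hy2 p12.1.2.1 p12.2.1 p12.2.2.1 p12.2.2.2 r12)
    (t_ne mD23 hy2 hy3 p23.1.2.1 p23.2.1 p23.2.2.1 p23.2.2.2 r23) mZ mW mZt mWt
    (fun z hz d hd w hw e he => ⟨sZ hz, sZ' z hz d hd, sW hw, sW' w hw e he⟩) v1 v2 v3 v4
  exact c4_low n1 n2 n3 hy1 hy2 hy3 kZ12 kZ13 kZ23 kW12 kW13 kW23 hZ12 hZ13 hZ23 hW12 hW13 hW23 hO lane r12 r13 r23
    fun S hS => p12.1.par mD12 hy1 hy2 hS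

/-- **the laws of the arc behind the cuts are the same for the two lattices** (integrals over normalized measures) -/
theorem mid_law {K1 : Type*} [MeasurableSpace K1] {β1 : Measure (K1 × A)} {b1 : Measure A} [IsFiniteMeasure b1]
    (h : ∃ ν : Measure K1, IsFiniteMeasure ν ∧ β1 = ν.prod b1) (hβ : β1 ≠ 0) (F : A → ℝ) :
    (∫ p, F p.2 ∂β1) / (β1.real univ) = (∫ a, F a ∂b1) / (b1.real univ) := by
  obtain ⟨ν, hν, e⟩ := h
  have hν0 : ν ≠ 0 := by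
    rintro rfl
    exact hβ (by rw [e, Measure.zero_prod])
  have e1 : β1.real univ = ν.real univ * b1.real univ := by
    rw [e, ← univ_prod_univ, measureReal_prod_prod]
  have e2 : ∫ p, F p.2 ∂β1 = ν.real univ * ∫ a, F a ∂b1 := by
    rw [e]
    have := integral_prod_mul (μ := ν) (ν := b1) (fun _ : K1 => (1 : ℝ)) F
    simp only [one_mul, integral_const, smul_eq_mul, mul_one] at this
    exact this
  have e3 : ν.real univ ≠ 0 := by
    rw [measureReal_def]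
    exact ENNReal.toReal_ne_zero.2 ⟨fun h0 => hν0 (Measure.measure_univ_eq_zero.1 h0), measure_ne_top _ _⟩
  rw [e1, e2]
  exact mul_div_mul_left _ _ e3

end three

end Pool.Agent.ROT.F3
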