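import Pool.Agent.ROT.F3MidW

/-!
# ROT, F3: row R3 with a weighted approximation (helper51, after helper43's F3MidU and F3MidW)

`mid_oneG`, `mid_wordsG` : `mid_one`, `mid_words` with the approximation of the foreign weight measured with a weight `g ≥ ct th`.
-/

set_option autoImplicit false

open MeasureTheory Filter Topology Set BoundedContinuousFunction

namespace Pool.Agent.ROT.F3

section lim

variable {ι X K : Type*} [TopologicalSpace X] [MeasurableSpace X] [BorelSpace X] [MeasurableSpace K]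

/-- **from the product form of the limit to the numbers of the two lattices**, one approximation `ψs` of the
foreign weight, measured with the weight `g ≥ h` -/
theorem mid_oneG {U : Filter ι} {mN bN : ι → Measure X} {m b : Measure X} [IsFiniteMeasure m] [IsFiniteMeasure b]
    (hm : ∀ f : X →ᵇ ℝ, Tendsto (fun l => ∫ x, f x ∂(mN l)) U (𝓝 (∫ x, f x ∂m)))
    (hb : ∀ f : X →ᵇ ℝ, Tendsto (fun l => ∫ x, f x ∂(bN l)) U (𝓝 (∫ x, f x ∂b)))
    {ν : Measure K} [IsFiniteMeasure ν] {β1 : Measure (K × X)} [IsFiniteMeasure β1] (hβ : β1 = ν.prod b)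
    {rd : K × X → X} (hrd : Measurable rd) {ψ : X → ℝ} (iψ : Integrable ψ m)
    (hψ : ∀ f : X →ᵇ ℝ, ∫ x, ψ x * f x ∂m = ∫ p, f (rd p) ∂β1)
    {H h g : X →ᵇ ℝ} (hH : ∀ x, |H x| ≤ h x) (h1 : ∀ x, h x ≤ g x) {ε : ℝ} (hε : 0 < ε) (hε1 : ε ≤ 1 / 2)
    (cH : ∫ p, |H (rd p) - H p.2| ∂β1 ≤ ε * ∫ p, h (rd p) ∂β1)
    (ch : ∫ p, |h (rd p) - h p.2| ∂β1 ≤ ε * ∫ p, h (rd p) ∂β1)
    (pos : 0 < ∫ p, h (rd p) ∂β1)
    {ψs : X →ᵇ ℝ} (hs : ∫ x, |ψs x - ψ x| * g x ∂m ≤ ε * (∫ p, h (rd p) ∂β1) / 8) :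
    ∀ᶠ l in U, 0 < ∫ x, ψs x * h x ∂(mN l) ∧ 0 < ∫ x, h x ∂(bN l) ∧
      |(∫ x, ψs x * H x ∂(mN l)) * (∫ x, h x ∂(bN l)) - (∫ x, H x ∂(bN l)) * ∫ x, ψs x * h x ∂(mN l)| ≤
        3 * ε * ((∫ x, ψs x * h x ∂(mN l)) * ∫ x, h x ∂(bN l)) := by
  -- the arcs
  have hbd : ∀ f : X →ᵇ ℝ, (∀ x, |f x| ≤ h x) → |∫ x, f x ∂b| ≤ ∫ x, h x ∂b := fun f hf => by
    rw [← Real.norm_eq_abs]
    refine (norm_integral_le_integral_norm _).trans (integral_mono (f.integrable b).norm (h.integrable b) fun x => ?_)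
    rw [Real.norm_eq_abs]
    exact hf x
  have ir : ∀ f : X →ᵇ ℝ, Integrable (fun p => f (rd p)) β1 := fun f =>
    Integrable.of_bound (f.continuous.measurable.comp hrd).aestronglyMeasurable ‖f‖
      (Eventually.of_forall fun p => f.norm_coe_le_norm _)
  have i2 : ∀ f : X →ᵇ ℝ, Integrable (fun p : K × X => f p.2) β1 := fun f =>
    Integrable.of_bound (f.continuous.measurable.comp measurable_snd).aestronglyMeasurable ‖f‖
      (Eventually.of_forall fun p => f.norm_coe_le_norm _)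
  have hs2 : ∀ f : X →ᵇ ℝ, ∫ p, f p.2 ∂β1 = ν.real univ * ∫ x, f x ∂b := fun f => by
    rw [hβ, integral_fun_snd (fun x => f x), smul_eq_mul]
  have hc : ∀ f : X →ᵇ ℝ, ∫ p, |f (rd p) - f p.2| ∂β1 ≤ ε * ∫ p, h (rd p) ∂β1 →
      |∫ p, f (rd p) ∂β1 - ν.real univ * ∫ x, f x ∂b| ≤ ε * ∫ p, h (rd p) ∂β1 := fun f hf => by
    rw [← hs2 f, ← integral_sub (ir f) (i2 f)]
    refine le_trans ?_ hf
    rw [← Real.norm_eq_abs]
    refine (norm_integral_le_integral_norm _).trans (le_of_eq ?_)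
    simp only [Real.norm_eq_abs]
  have q1 := hc h ch
  have q2 := hc H cH
  -- the approximation
  have ip : ∀ f : X →ᵇ ℝ, (∀ x, |f x| ≤ g x) →
      |∫ x, ψs x * f x ∂m - ∫ p, f (rd p) ∂β1| ≤ ε * (∫ p, h (rd p) ∂β1) / 8 := by
    intro f hf
    rw [← hψ f]
    have i3 : Integrable (fun x => ψs x * f x) m := (ψs * f).integrable m
    have i4 : Integrable (fun x => ψ x * f x) m :=
      iψ.mul_bdd (c := ‖f‖) f.continuous.measurable.aestronglyMeasurable (Eventually.of_forall fun x => f.norm_coe_le_norm x)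
    rw [← integral_sub i3 i4, ← Real.norm_eq_abs]
    refine (norm_integral_le_integral_norm _).trans (le_trans ?_ hs)
    refine integral_mono (i3.sub i4).norm (((ψs.integrable m).sub iψ).norm.mul_bdd (c := ‖g‖)
      g.continuous.measurable.aestronglyMeasurable (Eventually.of_forall fun x => g.norm_coe_le_norm x)) fun x => ?_
    simp only [Real.norm_eq_abs, Pi.sub_apply]
    rw [← sub_mul, abs_mul]
    exact mul_le_mul_of_nonneg_left (hf x) (abs_nonneg _)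
  have h0 : ∀ x, 0 ≤ h x := fun x => (abs_nonneg _).trans (hH x)
  have p1 := ip h fun x => by rw [abs_of_nonneg (h0 x)]; exact h1 x
  have p2 := ip H fun x => (hH x).trans (h1 x)
  obtain ⟨c1, c2, c3⟩ := lim_num' pos hε hε1 (hbd H hH) q1 q2 p1 p2 le_rfl
  have t1 : Tendsto (fun l => ∫ x, ψs x * h x ∂(mN l)) U (𝓝 (∫ x, ψs x * h x ∂m)) := hm (ψs * h)
  have t2 : Tendsto (fun l => ∫ x, ψs x * H x ∂(mN l)) U (𝓝 (∫ x, ψs x * H x ∂m)) := hm (ψs * H)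
  have t3 := hb h
  have t4 := hb H
  have t5 := ((t2.mul t3).sub (t4.mul t1)).abs
  have t6 := (t1.mul t3).const_mul (3 * ε)
  filter_upwards [t1.eventually (lt_mem_nhds c2), t3.eventually (lt_mem_nhds c1), t5.eventually_lt t6 c3] with l d1 d2 d3
  exact ⟨d1, d2, d3.le⟩

end lim

open scoped ENNReal NNReal

open Pool.Agent.NTS.Res (step pos saw fug size)
open Pool.Agent.ROT.F3E (SG SS ct)

/-- **the hypothesis `Mid` of `end_pt`**, approximation measured with the weight `g`: `C l` = class of lattice 0, `C2 l` = class of the rotated lattice, read in its own frame -/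
theorem mid_wordsG {ι K : Type*} [MeasurableSpace K] {U : Filter ι} {N : ι → ℕ} {C C2 : ι → WCls} {c c2 : ι → ℝ≥0∞}
    (c0 : ∀ l, c l ≠ 0) (c1 : ∀ l, c l ≠ ∞) (c20 : ∀ l, c2 l ≠ 0) (c21 : ∀ l, c2 l ≠ ∞) {z : ℂ}
    {m b : Measure (CI3 × ℝ)} [IsFiniteMeasure m] [IsFiniteMeasure b]
    (hm : ∀ g : (CI3 × ℝ) →ᵇ ℝ, Tendsto (fun l => ∫ x, g x ∂((C l).rm (N l) (c l))) U (𝓝 (∫ x, g x ∂m)))
    (hb : ∀ g : (CI3 × ℝ) →ᵇ ℝ, Tendsto (fun l => ∫ x, g (z • x.1, x.2) ∂((C2 l).rm (N l) (c2 l))) U (𝓝 (∫ x, g x ∂b)))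
    {ν : Measure K} [IsFiniteMeasure ν] {β1 : Measure (K × (CI3 × ℝ))} [IsFiniteMeasure β1] (hβ : β1 = ν.prod b)
    {rd : K × (CI3 × ℝ) → CI3 × ℝ} (hrd : Measurable rd) {ψ : CI3 × ℝ → ℝ} (iψ : Integrable ψ m)
    (hψ : ∀ g : (CI3 × ℝ) →ᵇ ℝ, ∫ x, ψ x * g x ∂m = ∫ p, g (rd p) ∂β1)
    {F : CI3 → ℝ} (hF : Continuous F) (hF1 : ∀ γ, |F γ| ≤ 1) {th ε : ℝ} (hε : 0 < ε) (hε1 : ε ≤ 1 / 2)
    (cH : ∫ p, |Hb F hF hF1 th (rd p) - Hb F hF hF1 th p.2| ∂β1 ≤ ε * ∫ p, hct th (rd p) ∂β1)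
    (ch : ∫ p, |hct th (rd p) - hct th p.2| ∂β1 ≤ ε * ∫ p, hct th (rd p) ∂β1)
    (pos : 0 < ∫ p, hct th (rd p) ∂β1) {ψs : (CI3 × ℝ) →ᵇ ℝ} (ψ0 : ∀ x, 0 ≤ ψs x)
    {g : (CI3 × ℝ) →ᵇ ℝ} (hg : ∀ x, ct th x.2 ≤ g x) (hs : ∫ x, |ψs x - ψ x| * g x ∂m ≤ ε * (∫ p, hct th (rd p) ∂β1) / 8) :
    ∀ᶠ l in U, |SS ((C l).G (N l) ψs) (N l) th F * SS ((C2 l).G (N l) fun _ => 1) (N l) th (fun _ => 1) -
        SS ((C2 l).G (N l) fun _ => 1) (N l) th (fun γ => F (z • γ)) * SS ((C l).G (N l) ψs) (N l) th (fun _ => 1)| ≤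
      3 * ε * (SS ((C l).G (N l) ψs) (N l) th (fun _ => 1) * SS ((C2 l).G (N l) fun _ => 1) (N l) th (fun _ => 1)) := by
  have mz : Measurable fun x : CI3 × ℝ => (z • x.1, x.2) := by
    refine Continuous.measurable ?_
    fun_prop
  have hmap : ∀ (l : ι) (g : (CI3 × ℝ) →ᵇ ℝ), ∫ x, g x ∂(((C2 l).rm (N l) (c2 l)).map fun x => (z • x.1, x.2)) =
      ∫ x, g (z • x.1, x.2) ∂((C2 l).rm (N l) (c2 l)) := fun l g =>
    integral_map mz.aemeasurable g.continuous.measurable.aestronglyMeasurable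
  have key := mid_oneG (U := U) (mN := fun l => (C l).rm (N l) (c l))
    (bN := fun l => ((C2 l).rm (N l) (c2 l)).map fun x => (z • x.1, x.2)) hm (fun g => by simpa only [hmap] using hb g)
    hβ hrd iψ hψ (H := Hb F hF hF1 th) (h := hct th) (fun x => by
      rw [Hb_apply, hct_apply, abs_mul, abs_of_nonneg (F3E.ct_nonneg _ _)]
      exact mul_le_of_le_one_left (F3E.ct_nonneg _ _) (hF1 _)) (fun x => by
      rw [hct_apply]
      exact hg x) hε hε1 cH ch pos hs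
  have cz : Continuous fun γ : CI3 => F (z • γ) := hF.comp (continuous_const_smul z)
  filter_upwards [key] with l hl
  obtain ⟨-, -, h3⟩ := hl
  obtain ⟨A, hA, eA⟩ := (C l).SS_eq (N l) (c0 l) (c1 l)
  obtain ⟨B, hB, eB⟩ := (C2 l).SS_eq (N l) (c20 l) (c21 l)
  have one1 : ∀ γ : CI3, |(fun _ : CI3 => (1 : ℝ)) γ| ≤ 1 := fun γ => by simp
  have f1 := eA ψs ψ0 th F hF hF1
  have f2 : SS ((C l).G (N l) ψs) (N l) th (fun _ => 1) = A * ∫ x, ψs x * hct th x ∂((C l).rm (N l) (c l)) :=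
    eA ψs ψ0 th (fun _ => 1) continuous_const one1
  have f3 : SS ((C2 l).G (N l) fun _ => 1) (N l) th (fun _ => 1) = B * ∫ x, hct th (z • x.1, x.2) ∂((C2 l).rm (N l) (c2 l)) := by
    have := eB 1 (fun x => zero_le_one) th (fun _ => 1) continuous_const one1
    simp only [BoundedContinuousFunction.coe_one, Pi.one_apply, one_mul] at this
    exact this
  have f4 : SS ((C2 l).G (N l) fun _ => 1) (N l) th (fun γ => F (z • γ)) =
      B * ∫ x, Hb F hF hF1 th (z • x.1, x.2) ∂((C2 l).rm (N l) (c2 l)) := by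
    have := eB 1 (fun x => zero_le_one) th (fun γ => F (z • γ)) cz (fun γ => hF1 _)
    simp only [BoundedContinuousFunction.coe_one, Pi.one_apply, one_mul] at this
    exact this
  rw [hmap, hmap] at h3
  rw [f1, f2, f3, f4]
  exact mid_mul hA hB h3

end Pool.Agent.ROT.F3
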