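import Pool.Agent.ROT.F3TipC
import Pool.Agent.ROT.F3W9
import Pool.Agent.PW.CurveP
import Pool.Agent.MC.JointZ

/-!
# ROT, block F3, mixing of the two tips (helper41), part 3: the functionals on words

Walks as words (`sw n t`), the direction of the letter number `i` is `dl t i : Fin 3`, additive (`dl_app`).

* `HH` : a function of the first `m` letters (in absolute directions, the word turned by `b`), cut off when these letters leave
  the ball of radius `2 ^ c`, times a function of the curve, times the cut off of the end; `HH_rob`;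
* `PhT a` : the same in the frame of the tip (the letter after the last one has the direction `a`);
* `qT a` : a function of the last `m'` letters, in the frame of the tip; `qT_inn` : it is an inner functional;
* **`kerW_of`**, **`rob_PhT`** : `PhT a * q` is a kernel.
-/

set_option autoImplicit false

noncomputable section

namespace HexObs

namespace MX

open Finset TS SDN TIW MCP

open NTF (sw aa)

open NTSF (om om_norm)

open NTSF.Mg (pT czT cz nr nr_pos)

open Pool.Agent.ROT.F3 (LocS LocE)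

open scoped Classical

/-! ### 1. Directions -/

/-- the direction of the letter number i -/
def dl (t : List Bool) (i : ℕ) : Fin 3 := aa (dx up t i)

/-- the change of the direction -/
def sg (b : Bool) : Fin 3 := aa (turn b up)

lemma aa_turn : ∀ b : Bool, ∀ d ∈ dirs, aa (turn b d) = aa d + sg b := by decide

lemma dl_zero (t : List Bool) : dl t 0 = 0 := by
  show aa up = 0
  decide

lemma dl_succ (t : List Bool) (i : ℕ) : dl t (i + 1) = dl t i + sg (tf t i) := by
  unfold dl
  rw [dx_succ]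
  exact aa_turn _ _ (dx_mem upd' t i)

lemma dl_left {A Y : List Bool} {i : ℕ} (h : i ≤ A.length) : dl (A ++ Y) i = dl A i := by
  unfold dl
  rw [dx_append h]

lemma dl_app (A Y : List Bool) (i : ℕ) : dl (A ++ Y) (A.length + i) = dl A A.length + dl Y i := by
  induction i with
  | zero => rw [Nat.add_zero, dl_left le_rfl, dl_zero, add_zero]
  | succ i ih => rw [← Nat.add_assoc, dl_succ, ih, dl_succ, tf_append_right, add_assoc]

/-- the direction after the last letter -/
def dt (t : List Bool) : Fin 3 := dl t t.length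

lemma dt_app (A Y : List Bool) : dt (A ++ Y) = dt A + dt Y := by
  unfold dt
  rw [List.length_append, dl_app]

lemma dt_up {Y : List Bool} (h : de Y = up) : dt Y = 0 := by
  have e : dt Y = aa (de Y) := rfl
  rw [e, h]
  decide

lemma dt_BU {V : List Bool} (h : V ∈ BU) : dt V = 0 := by
  obtain ⟨k, hk⟩ := h
  exact dt_up (mem_Brd.1 hk).2.2.1

/-! ### 2. The functional of the start -/

/-- the first m steps stay in the ball -/
def okS (m c : ℕ) (t : List Bool) : Prop := m ≤ t.length ∧ ∀ i, i ≤ m → hn (vx oo up t i) < 2 ^ c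

/-- the function of the first m letters, the word turned by b -/
def gB {n : ℕ} (Φ : (Fin n → Fin 3) → ℝ) (m c : ℕ) (b : Fin 3) (t : List Bool) : ℝ :=
  if okS m c t then Φ (fun i => dl t i + b) else 0

lemma gB_abs {n : ℕ} {Φ : (Fin n → Fin 3) → ℝ} (hΦ : ∀ s, |Φ s| ≤ 1) (m c : ℕ) (b : Fin 3) (t : List Bool) :
    |gB Φ m c b t| ≤ 1 := by
  unfold gB
  split_ifs
  · exact hΦ _
  · rw [abs_zero]
    exact zero_le_one

lemma okS_app {m c : ℕ} {A Y : List Bool} (hA : (2 : ℤ) ^ c ≤ hn (en A)) : okS m c (A ++ Y) ↔ okS m c A := by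
  constructor
  · rintro ⟨h1, h2⟩
    have h3 : m < A.length := by
      by_contra hcon
      push Not at hcon
      have h4 := h2 A.length hcon
      rw [vx_append (by omega)] at h4
      exact absurd h4 (not_lt.2 hA)
    refine ⟨h3.le, fun i hi => ?_⟩
    have := h2 i hi
    rwa [vx_append (by omega)] at this
  · rintro ⟨h1, h2⟩
    refine ⟨by rw [List.length_append]; omega, fun i hi => ?_⟩
    rw [vx_append (by omega)]
    exact h2 i hi

lemma gB_app {n m c : ℕ} {Φ : (Fin n → Fin 3) → ℝ} (hΦ : LocS m Φ) (b : Fin 3) {A Y : List Bool} (hA : (2 : ℤ) ^ c ≤ hn (en A)) :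
    gB Φ m c b (A ++ Y) = gB Φ m c b A := by
  unfold gB
  by_cases h : okS m c A
  · rw [if_pos h, if_pos ((okS_app hA).2 h)]
    refine hΦ _ _ fun i hi => ?_
    show dl (A ++ Y) i + b = dl A i + b
    rw [dl_left (by have := h.1; omega)]
  · rw [if_neg h, if_neg fun h' => h ((okS_app hA).1 h')]

/-- the functional of the start, the curve and the cut off of the end; the word turned by b -/
def HH {n : ℕ} (Φ : (Fin n → Fin 3) → ℝ) (m c : ℕ) (f : C(unitInterval, ℂ) → ℝ) (R : ℝ) (b : Fin 3) (t : List Bool) : ℝ :=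
  gB Φ m c b t * f (pT (om ^ (b : ℕ)) t n) * psi R t

lemma abs_mul_le1 {x y : ℝ} (hx : |x| ≤ 1) (hy : |y| ≤ 1) : |x * y| ≤ 1 := by
  rw [abs_mul]
  exact mul_le_one₀ hx (abs_nonneg _) hy

lemma psi_abs1 (R : ℝ) (t : List Bool) : |psi R t| ≤ 1 := by
  rw [abs_of_nonneg (psi_nonneg _ _)]
  exact psi_le_one _ _

lemma HH_abs {n : ℕ} {Φ : (Fin n → Fin 3) → ℝ} (hΦ : ∀ s, |Φ s| ≤ 1) (m c : ℕ) {f : C(unitInterval, ℂ) → ℝ}
    (hf : ∀ γ, |f γ| ≤ 1) (R : ℝ) (b : Fin 3) (t : List Bool) : |HH Φ m c f R b t| ≤ 1 :=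
  abs_mul_le1 (abs_mul_le1 (gB_abs hΦ m c b t) (hf _)) (psi_abs1 _ _)

lemma omb_norm (b : Fin 3) : ‖om ^ (b : ℕ)‖ = 1 := by rw [norm_pow, om_norm, one_pow]

/-- **a small end is hardly seen** -/
theorem HH_rob {n m c r : ℕ} (hn1 : 1 ≤ n) {Φ : (Fin n → Fin 3) → ℝ} (hloc : LocS m Φ) (hΦ : ∀ s, |Φ s| ≤ 1)
    {f : C(unitInterval, ℂ) → ℝ} {K : NNReal} (hK : LipschitzWith K f) (hf : ∀ γ, |f γ| ≤ 1) {R τ : ℝ}
    (h1 : (2 : ℝ) ^ c + 2 ^ r ≤ R) (h2 : (2 : ℝ) ^ r ≤ τ / 2 * R) (h3 : (K : ℝ) * (2 ^ r / nr n) ≤ τ / 2) (b : Fin 3)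
    {A Y : List Bool} (hY : ∀ i, i ≤ Y.length → hn (vx oo up Y i) < 2 ^ r) :
    |HH Φ m c f R b (A ++ Y) - HH Φ m c f R b A| ≤ τ := by
  have hR : 0 < R := lt_of_lt_of_le (by positivity) h1
  have hτ : 0 ≤ τ := by
    have h4 : 0 < τ / 2 * R := lt_of_lt_of_le (by positivity) h2
    have h5 : 0 < τ / 2 := pos_of_mul_pos_left h4 hR.le
    linarith
  have hen : (hn (en Y) : ℝ) < 2 ^ r := by
    have := hY Y.length le_rfl
    exact_mod_cast this
  have ha := abs_le.1 (hn_app A Y)
  unfold HH
  rcases lt_or_ge (hn (en A)) ((2 : ℤ) ^ c) with hA | hA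
  · have hA' : (hn (en A) : ℝ) < 2 ^ c := by exact_mod_cast hA
    have h0 : (0 : ℝ) < 2 ^ r := by positivity
    rw [psi_zero hR (by linarith), psi_zero hR (by linarith [ha.2]), mul_zero, mul_zero, sub_zero, abs_zero]
    exact hτ
  · rw [gB_app hloc b hA]
    have hp : |psi R (A ++ Y) - psi R A| ≤ τ / 2 := by
      refine (psi_lip hR _ _).trans ?_
      rw [div_le_iff₀ hR]
      refine (hn_app A Y).trans ?_
      linarith
    have hc : |f (pT (om ^ (b : ℕ)) (A ++ Y) n) - f (pT (om ^ (b : ℕ)) A n)| ≤ τ / 2 := by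
      rw [← Real.dist_eq]
      refine (hK.dist_le_mul _ _).trans (le_trans (mul_le_mul_of_nonneg_left ?_ K.2) h3)
      have h4 := NTSF.Mg.pT_end (c := om ^ (b : ℕ)) (omb_norm b) (A := A) (Y := Y) (R := 2 ^ r) (fun i hi => by
        have := hY i hi
        push_cast
        exact this) hn1
      push_cast at h4
      exact h4
    have e : gB Φ m c b A * f (pT (om ^ (b : ℕ)) (A ++ Y) n) * psi R (A ++ Y) -
        gB Φ m c b A * f (pT (om ^ (b : ℕ)) A n) * psi R A =
        gB Φ m c b A * ((f (pT (om ^ (b : ℕ)) (A ++ Y) n) - f (pT (om ^ (b : ℕ)) A n)) * psi R (A ++ Y) +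
          f (pT (om ^ (b : ℕ)) A n) * (psi R (A ++ Y) - psi R A)) := by ring
    rw [e, abs_mul]
    refine (mul_le_of_le_one_left (abs_nonneg _) (gB_abs hΦ m c b A)).trans ?_
    refine (abs_add_le _ _).trans ?_
    rw [abs_mul, abs_mul]
    have k1 := mul_le_of_le_one_right (abs_nonneg (f (pT (om ^ (b : ℕ)) (A ++ Y) n) - f (pT (om ^ (b : ℕ)) A n)))
      (psi_abs1 R (A ++ Y))
    have k2 := mul_le_of_le_one_left (abs_nonneg (psi R (A ++ Y) - psi R A)) (hf (pT (om ^ (b : ℕ)) A n))
    linarith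

/-- the same in the frame of the tip -/
def PhT {n : ℕ} (Φ : (Fin n → Fin 3) → ℝ) (m c : ℕ) (f : C(unitInterval, ℂ) → ℝ) (R : ℝ) (a : Fin 3) (t : List Bool) : ℝ :=
  HH Φ m c f R (a - dt t) t

/-! ### 3. The functional of the end -/

/-- the last m' steps stay in the ball about the tip -/
def okE (m' c : ℕ) (t : List Bool) : Prop := m' ≤ t.length ∧ ∀ i, i ≤ m' → hn (vx oo up t (t.length - i) - en t) < 2 ^ c

/-- the function of the last m' letters in the frame of the tip -/
def qT {n : ℕ} (Ψ : (Fin n → Fin 3) → ℝ) (m' c : ℕ) (a : Fin 3) (t : List Bool) : ℝ :=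
  if okE m' c t then Ψ (fun i => a - dl (t.drop (t.length - (n - i))) (n - i)) else 0

lemma qT_abs {n : ℕ} {Ψ : (Fin n → Fin 3) → ℝ} (hΨ : ∀ s, |Ψ s| ≤ 1) (m' c : ℕ) (a : Fin 3) (t : List Bool) :
    |qT Ψ m' c a t| ≤ 1 := by
  unfold qT
  split_ifs
  · exact hΨ _
  · rw [abs_zero]
    exact zero_le_one

lemma hn_tip (A E : List Bool) {i : ℕ} (hi : i ≤ E.length) :
    hn (vx oo up (A ++ E) ((A ++ E).length - i) - en (A ++ E)) = hn (vx oo up E (E.length - i) - en E) := by
  have e1 : (A ++ E).length - i = A.length + (E.length - i) := by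
    rw [List.length_append]
    omega
  have e2 : en (A ++ E) = en A + mulE (rt A) (vx oo up E E.length) := by
    show vx oo up (A ++ E) (A ++ E).length = _
    rw [List.length_append]
    exact vx_app A E E.length
  rw [e1, vx_app, e2]
  have e3 : en A + mulE (rt A) (vx oo up E (E.length - i)) - (en A + mulE (rt A) (vx oo up E E.length)) =
      mulE (rt A) (vx oo up E (E.length - i) - en E) := by
    rw [add_sub_add_left_eq_sub]
    show _ = mulE (rt A) (vx oo up E (E.length - i) - vx oo up E E.length)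
    rw [mulE_sub]
  rw [e3, hn_mulE (nrm_rt A)]

lemma okE_app {m' c : ℕ} {A E : List Bool} (hE : (2 : ℤ) ^ c ≤ hn (en E)) : okE m' c (A ++ E) ↔ okE m' c E := by
  constructor
  · rintro ⟨h1, h2⟩
    have h3 : m' < E.length := by
      by_contra hcon
      push Not at hcon
      have h4 := h2 E.length hcon
      rw [hn_tip A E le_rfl, Nat.sub_self] at h4
      have e : vx oo up E 0 - en E = -en E := zero_sub _
      rw [e, hn_neg] at h4
      exact absurd h4 (not_lt.2 hE)
    refine ⟨h3.le, fun i hi => ?_⟩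
    rw [← hn_tip A E (by omega)]
    exact h2 i hi
  · rintro ⟨h1, h2⟩
    refine ⟨by rw [List.length_append]; omega, fun i hi => ?_⟩
    rw [hn_tip A E (by omega)]
    exact h2 i hi

/-- **it is an inner functional** -/
theorem qT_inn {n m' c : ℕ} {Ψ : (Fin n → Fin 3) → ℝ} (hΨ : LocE m' Ψ) (a : Fin 3) : PWN.Inn c (qT Ψ m' c a) := by
  intro A E _ hE
  unfold qT
  by_cases h : okE m' c E
  · rw [if_pos h, if_pos ((okE_app hE).2 h)]
    refine hΨ _ _ fun i hi => ?_
    have h1 := h.1
    have h2 : n - (i : ℕ) ≤ E.length := by omega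
    have e : (A ++ E).drop ((A ++ E).length - (n - i)) = E.drop (E.length - (n - i)) := by
      have e1 : (A ++ E).length - (n - (i : ℕ)) = A.length + (E.length - (n - i)) := by
        rw [List.length_append]
        omega
      rw [e1, List.drop_append]
      have e2 : A.length + (E.length - (n - (i : ℕ))) - A.length = E.length - (n - i) := by omega
      rw [e2, List.drop_eq_nil_of_le (by omega), List.nil_append]
    show a - dl ((A ++ E).drop ((A ++ E).length - (n - i))) (n - i) = a - dl (E.drop (E.length - (n - i))) (n - i)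
    rw [e]
  · rw [if_neg h, if_neg fun h' => h ((okE_app hE).1 h')]

/-- the last letter is an inner functional -/
lemma last_inn {b : ℕ} (c0 : Bool) : PWN.Inn b (fun t => TIP.ind (t.getLast? = some c0)) := by
  intro A E _ hE
  show TIP.ind ((A ++ E).getLast? = some c0) = TIP.ind (E.getLast? = some c0)
  rcases E.eq_nil_or_concat' with rfl | ⟨s, c, rfl⟩
  · exfalso
    have e0 : hn (en []) = 0 := by decide
    rw [e0] at hE
    have : (0 : ℤ) < 2 ^ b := by positivity
    linarith
  · rw [← List.append_assoc, List.getLast?_concat, List.getLast?_concat]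

/-! ### 4. Kernels -/

variable {n m c r : ℕ} {Φ : (Fin n → Fin 3) → ℝ} {f : C(unitInterval, ℂ) → ℝ} {R τ : ℝ}

/-- robust, the class 0 -/
theorem rob_PhT (hrob : ∀ (b : Fin 3) (A Y : List Bool), (∀ i, i ≤ Y.length → hn (vx oo up Y i) < 2 ^ r) →
    |HH Φ m c f R b (A ++ Y) - HH Φ m c f R b A| ≤ τ) (a : Fin 3) : PWN.RM.Rob (2 ^ r) (PhT Φ m c f R a) (fun _ => τ) := by
  intro A Y _ hd hY
  unfold PhT
  rw [dt_app, dt_up hd, add_zero]
  refine hrob _ A Y fun i hi => ?_
  have := hY i hi
  push_cast at this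
  exact this

/-- **kernels** -/
theorem kerW_of (hΦ : ∀ s, |Φ s| ≤ 1) (hf : ∀ γ, |f γ| ≤ 1)
    (hrob : ∀ (b : Fin 3) (A Y : List Bool), (∀ i, i ≤ Y.length → hn (vx oo up Y i) < 2 ^ r) →
    |HH Φ m c f R b (A ++ Y) - HH Φ m c f R b A| ≤ τ) (a : Fin 3) {b : ℕ} {q : List Bool → ℝ} (hq : ∀ t, |q t| ≤ 1)
    (hi : PWN.Inn b q) : PWN.KerW b r τ (fun t => PhT Φ m c f R a t * q t)
      (fun g A => HH Φ m c f R (a - dt A - g) A) (fun g E => if dt E = g then q E else 0) where
  wb := fun t => abs_mul_le1 (HH_abs hΦ m c hf R _ t) (hq t)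
  pb := fun g t => HH_abs hΦ m c hf R _ t
  qb := fun E => by
    have e : ∀ g : Fin 3, |if dt E = g then q E else 0| = if dt E = g then |q E| else 0 := fun g => by
      split_ifs
      · rfl
      · rw [abs_zero]
    simp only [e]
    rw [Finset.sum_ite_eq univ (dt E) fun _ => |q E|, if_pos (mem_univ _)]
    exact hq E
  osc := fun A V E hA hV hY hE => by
    have e1 : ∑ g : Fin 3, HH Φ m c f R (a - dt A - g) A * (if dt E = g then q E else 0) =
        HH Φ m c f R (a - dt A - dt E) A * q E := by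
      have e : ∀ g : Fin 3, HH Φ m c f R (a - dt A - g) A * (if dt E = g then q E else 0) =
          if dt E = g then HH Φ m c f R (a - dt A - g) A * q E else 0 := fun g => by
        split_ifs
        · rfl
        · rw [mul_zero]
      simp only [e]
      rw [Finset.sum_ite_eq univ (dt E) fun g => HH Φ m c f R (a - dt A - g) A * q E, if_pos (mem_univ _)]
    have e2 : q (A ++ (V ++ E)) = q E := by
      rw [← List.append_assoc] at hA ⊢
      exact hi (A ++ V) E hA hE
    have e3 : dt (A ++ (V ++ E)) = dt A + dt E := by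
      rw [dt_app, dt_app, dt_BU hV, zero_add]
    have e4 : a - (dt A + dt E) = a - dt A - dt E := (sub_sub a (dt A) (dt E)).symm
    show |PhT Φ m c f R a (A ++ (V ++ E)) * q (A ++ (V ++ E)) -
      ∑ g : Fin 3, HH Φ m c f R (a - dt A - g) A * (if dt E = g then q E else 0)| ≤ τ
    rw [e1, e2]
    unfold PhT
    rw [e3, e4, ← sub_mul, abs_mul]
    exact (mul_le_of_le_one_right (abs_nonneg _) (hq E)).trans (hrob _ A (V ++ E) hY)

/-! ### 5. The last letter -/

lemma okS_last {m c : ℕ} (s : List Bool) (c0 c1 : Bool) : okS m c (s ++ [c0]) ↔ okS m c (s ++ [c1]) := by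
  have key : ∀ c0 c1 : Bool, okS m c (s ++ [c0]) → okS m c (s ++ [c1]) := by
    rintro c0 c1 ⟨h1, h2⟩
    rw [List.length_append, List.length_singleton] at h1
    refine ⟨by rw [List.length_append, List.length_singleton]; exact h1, fun i hi => ?_⟩
    have := h2 i hi
    rw [vx_append (by omega)] at this ⊢
    exact this
  exact ⟨key c0 c1, key c1 c0⟩

lemma HH_last (hloc : LocS m Φ) (b : Fin 3) (s : List Bool) (c0 c1 : Bool) :
    HH Φ m c f R b (s ++ [c0]) = HH Φ m c f R b (s ++ [c1]) := by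
  unfold HH
  rw [pT_last _ s c0 c1, psi_last R s c0 c1]
  congr 2
  unfold gB
  by_cases h : okS m c (s ++ [c0])
  · rw [if_pos h, if_pos ((okS_last s c0 c1).1 h)]
    refine hloc _ _ fun i hi => ?_
    have h1 := h.1
    rw [List.length_append, List.length_singleton] at h1
    show dl (s ++ [c0]) i + b = dl (s ++ [c1]) i + b
    rw [dl_left (by omega), dl_left (by omega)]
  · rw [if_neg h, if_neg fun h' => h ((okS_last s c0 c1).2 h')]

/-- the functional in the frame of the last step -/
def Mb (Φ : (Fin n → Fin 3) → ℝ) (m c : ℕ) (f : C(unitInterval, ℂ) → ℝ) (R : ℝ) (b : Fin 3) (t : List Bool) : ℝ :=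
  HH Φ m c f R (b - dl t (t.length - 1)) t

lemma Mb_last (hloc : LocS m Φ) (b : Fin 3) (s : List Bool) (c0 c1 : Bool) :
    Mb Φ m c f R b (s ++ [c0]) = Mb Φ m c f R b (s ++ [c1]) := by
  unfold Mb
  have e : ∀ c0 : Bool, dl (s ++ [c0]) ((s ++ [c0]).length - 1) = dl s s.length := fun c0 => by
    rw [List.length_append, List.length_singleton, Nat.add_sub_cancel, dl_left le_rfl]
  rw [e, e]
  exact HH_last hloc _ s c0 c1

lemma PhT_last (a : Fin 3) (s : List Bool) (c0 : Bool) :
    PhT Φ m c f R a (s ++ [c0]) = Mb Φ m c f R (a - sg c0) (s ++ [c0]) := by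
  unfold PhT Mb
  have e1 : dl (s ++ [c0]) ((s ++ [c0]).length - 1) = dl s s.length := by
    rw [List.length_append, List.length_singleton, Nat.add_sub_cancel, dl_left le_rfl]
  have e2 : dt (s ++ [c0]) = dl s s.length + sg c0 := by
    unfold dt
    rw [List.length_append, List.length_singleton, dl_succ, dl_left le_rfl]
    congr 2
    have : tf (s ++ [c0]) (s.length + 0) = tf [c0] 0 := tf_append_right 0
    rw [Nat.add_zero] at this
    rw [this]
    rfl
  rw [e1, e2]
  congr 1
  rw [sub_add_eq_sub_sub, sub_right_comm]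

/-- **the two directions of the last turn** -/
theorem sum_PhT (hloc : LocS m Φ) {k : ℕ} (hk : 0 < k) (a : Fin 3) (c0 : Bool) :
    ∑ t ∈ sawF k, PhT Φ m c f R a t * TIP.ind (t.getLast? = some c0) = (∑ t ∈ sawF k, Mb Φ m c f R (a - sg c0) t) / 2 := by
  rw [← sum_last hk (H := Mb Φ m c f R (a - sg c0)) (fun s c2 _ => Mb_last hloc _ s c2 (!c2)) c0]
  refine sum_congr rfl fun t ht => ?_
  rw [mem_sawF] at ht
  obtain ⟨s, c2, rfl, -⟩ := Pool.Agent.IW.split_last hk ht.1
  by_cases h : c2 = c0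
  · rw [h, PhT_last, mul_comm]
  · have h1 : ¬ (s ++ [c2]).getLast? = some c0 := by
      rw [List.getLast?_concat, Option.some.injEq]
      exact h
    rw [TIP.ind_neg h1]
    ring

lemma two_ways : ∀ a a' : Fin 3, a ≠ a' → ∃ c0 c1 : Bool, a - sg c0 = a' - sg c1 := by decide

end MX

end HexObs

end
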