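import Pool.Agent.ROT.F3N1H
import Pool.Agent.ARM.LowPt
import Pool.Agent.ARM.T2S

/-!
# ROT, F3, row F10 (N1) (helper87): **`n1S K σ : N1S K σ`**

A positive proportion of all rooted closed words has native gates at the root, at every scale.
-/

set_option autoImplicit false

namespace HexObs

namespace ART

namespace N1

open Finset TS SDN SIM NTA TIP ARM ARM.G3 JT OG

open scoped ENNReal

/-! ### 1. Numbers -/

lemma ml_mono {a b : ℕ} (h : a ≤ b) : ml a ≤ ml b := by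
  unfold ml
  refine Real.rpow_le_rpow_of_exponent_le (by norm_num) ?_
  have : (a : ℝ) ≤ b := by exact_mod_cast h
  linarith

lemma ml_add (a s : ℕ) : ml (a + s) ≤ 4 ^ s * ml a := by
  unfold ml
  have h1 : (4 / 3 : ℝ) * ((a + s : ℕ) : ℝ) = 4 / 3 * a + 4 / 3 * s := by
    push_cast
    ring
  rw [h1, Real.rpow_add (by norm_num), mul_comm]
  refine mul_le_mul_of_nonneg_right ?_ (by positivity)
  have h2 : (4 : ℝ) ^ s = (2 : ℝ) ^ (2 * (s : ℝ)) := by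
    rw [Real.rpow_mul (by norm_num), Real.rpow_natCast]
    norm_num
  rw [h2]
  refine Real.rpow_le_rpow_of_exponent_le (by norm_num) ?_
  have : (0 : ℝ) ≤ s := Nat.cast_nonneg s
  linarith

lemma ml_one (k : ℕ) : 1 ≤ ml k := by
  unfold ml
  exact Real.one_le_rpow (by norm_num) (by positivity)

lemma ml_ge (k : ℕ) : (k : ℝ) ≤ ml k := by
  have h1 : (k : ℝ) ≤ 2 ^ k := by
    have : k < 2 ^ k := Nat.lt_two_pow_self
    exact_mod_cast this.le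
  refine h1.trans ?_
  unfold ml
  rw [← Real.rpow_natCast]
  refine Real.rpow_le_rpow_of_exponent_le (by norm_num) ?_
  have : (0 : ℝ) ≤ k := Nat.cast_nonneg k
  linarith

/-- cancel the half -/
lemma half_le {x y z w : ℝ≥0∞} (h : (x + x) * y ≤ z) (h2 : z ≤ w + x * y) (hf : x * y ≠ ∞) : x * y ≤ w := by
  rw [add_mul] at h
  exact ENNReal.le_of_add_le_add_right hf (h.trans h2)

/-- the windows -/
lemma sum_win {K : ℕ} {σ : Bool} {d : ℤ} {X : ℝ} {n w I : ℕ} {x : ℝ≥0∞}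
    (h : ∀ i, i < I → x ≤ gf (AA K σ d X (n + i * (2 * w + 1)) (n + i * (2 * w + 1) + 2 * w)))
    (hI : I * (2 * w + 1) ≤ n) : (I : ℝ≥0∞) * x ≤ gf (AA K σ d X n (2 * n)) := by
  classical
  have hdis : ∀ i ∈ range I, ∀ j ∈ range I, i ≠ j →
      Disjoint (AA K σ d X (n + i * (2 * w + 1)) (n + i * (2 * w + 1) + 2 * w))
        (AA K σ d X (n + j * (2 * w + 1)) (n + j * (2 * w + 1) + 2 * w)) := by
    intro i _ j _ hij
    rw [Set.disjoint_left]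
    rintro L ⟨a1, a2, -⟩ ⟨b1, b2, -⟩
    rcases lt_or_gt_of_ne hij with h1 | h1
    · have h2 : (i + 1) * (2 * w + 1) ≤ j * (2 * w + 1) := Nat.mul_le_mul_right _ h1
      rw [add_mul, one_mul] at h2
      omega
    · have h2 : (j + 1) * (2 * w + 1) ≤ i * (2 * w + 1) := Nat.mul_le_mul_right _ h1
      rw [add_mul, one_mul] at h2
      omega
  have hsub : (⋃ i ∈ range I, AA K σ d X (n + i * (2 * w + 1)) (n + i * (2 * w + 1) + 2 * w)) ⊆ AA K σ d X n (2 * n) := by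
    intro L hL
    rw [Set.mem_iUnion₂] at hL
    obtain ⟨i, hi, a1, a2, a3⟩ := hL
    rw [mem_range] at hi
    have h2 : (i + 1) * (2 * w + 1) ≤ I * (2 * w + 1) := Nat.mul_le_mul_right _ hi
    rw [add_mul, one_mul] at h2
    exact ⟨by omega, by omega, a3⟩
  refine le_trans ?_ (gf_mono hsub)
  rw [gf_biUnion _ _ hdis]
  refine le_trans (le_of_eq ?_) (sum_le_sum fun i hi => h i (mem_range.1 hi))
  rw [sum_const, card_range, nsmul_eq_mul]

/-! ### 2. One window -/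

/-- **one window of lengths** -/
theorem one_win (K : ℕ) (σ : Bool) : ∃ (H l1 : ℕ) (c a b A : ℝ), 1 ≤ H ∧ 0 < c ∧ 0 < a ∧ 0 < b ∧ 0 < A ∧
    ∀ (l n : ℕ) (d : ℤ), l1 ≤ l → 18 * (H * 2 ^ l) ≤ d → d ≤ 36 * (H * 2 ^ l) → b * ml l ≤ n →
      ENNReal.ofReal (c * (ml l * (n : ℝ) ^ (-(3 / 2 : ℝ)))) ≤
        gf (AA K σ d (A * ml l) (n - ⌈a * ml l⌉₊) (n + ⌈a * ml l⌉₊)) := by
  obtain ⟨N, hN⟩ : ∃ N : ℕ, N = 1 + (K + 6) + (K + 6) := ⟨_, rfl⟩
  obtain ⟨H1, hH1, hR⟩ := rts3 (n0 := 1) (n1 := K + 6) (n2 := K + 6) le_rfl (by omega) (by omega)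
  obtain ⟨H2, hH2, hG⟩ := nGlue
  obtain ⟨H3, hH3, hJ⟩ := jLow_in t2S
  obtain ⟨H, hH⟩ : ∃ H, H = max H1 (max H2 H3) := ⟨_, rfl⟩
  have hH1' : H1 ≤ H := by rw [hH]; exact le_max_left _ _
  have hH2' : H2 ≤ H := by rw [hH]; exact (le_max_left _ _).trans (le_max_right _ _)
  have hH3' : H3 ≤ H := by rw [hH]; exact (le_max_right _ _).trans (le_max_right _ _)
  have hH13 : 2 ^ 13 ≤ H := hH1.trans hH1'
  obtain ⟨J0, hR⟩ := hR H hH1'
  obtain ⟨Mx, sx, b0, c0, A0, hc0, hA0, hJ⟩ := hJ H hH3'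
  obtain ⟨cR, κ, AR, lR, hcR, hκ, hAR, hR⟩ := hR Mx
  obtain ⟨C, L, kG, hC, hL, hG⟩ := hG H hH2' Mx (72 * H + 6) (A0 * 4 ^ sx) (c0 / 2) (by positivity) (by positivity)
  obtain ⟨J1, hJ1⟩ : ∃ J1, J1 = J0 + 72 * N * H := ⟨_, rfl⟩
  obtain ⟨a, ha⟩ : ∃ a : ℝ, a = (A0 * 4 ^ sx + L + AR) * 4 ^ (J1 + sx) := ⟨_, rfl⟩
  have ha0 : 0 < a := by
    rw [ha]
    positivity
  refine ⟨H, lR + kG + b0 + ⌈16 / κ⌉₊, c0 * cR * κ / (16 * C), a, 2 ^ b0 * 4 ^ (J1 + sx) + 1, AR, by omega, by positivity, ha0,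
    by positivity, hAR, ?_⟩
  intro l n d hl hd1 hd2 hn
  have hml := ml_one l
  obtain ⟨j, hj⟩ : ∃ j, j = l + (J1 + sx) := ⟨_, rfl⟩
  have hmj : ml j ≤ 4 ^ (J1 + sx) * ml l := by
    rw [hj]
    exact ml_add l (J1 + sx)
  have hn1 : (1 : ℝ) ≤ n := by
    have h1 : (1 : ℝ) * 1 ≤ (2 ^ b0 * 4 ^ (J1 + sx) + 1) * ml l := by
      refine mul_le_mul ?_ hml zero_le_one (by positivity)
      have : (0 : ℝ) ≤ 2 ^ b0 * 4 ^ (J1 + sx) := by positivity
      linarith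
    linarith
  have hn1' : 1 ≤ n := by exact_mod_cast hn1
  have hnj : 2 ^ b0 * ml j ≤ n := by
    have h1 : (2 : ℝ) ^ b0 * ml j ≤ 2 ^ b0 * (4 ^ (J1 + sx) * ml l) := mul_le_mul_of_nonneg_left hmj (by positivity)
    nlinarith
  obtain ⟨k, r, D, E, hkj, hjk, hD1, hD2, hr4, hrM, hE, hup, hup2, hmass⟩ := hJ n j (by omega) hnj
  have hkl : l + J1 ≤ k := by omega
  have hkG : kG ≤ k := by omega
  have h0k : (0 : ℤ) < 2 ^ k := by positivity
  have h0l : (0 : ℤ) < 2 ^ l := by positivity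
  have hHz : (2 : ℤ) ^ 13 ≤ H := by exact_mod_cast hH13
  have hDD : (2 : ℤ) ^ (k + 12) ≤ D := by
    refine le_trans ?_ hD1
    have h3 : (2 : ℤ) ^ (k + 12) = 2 ^ 12 * 2 ^ k := by ring
    rw [h3]
    nlinarith
  have hdd : (2 : ℤ) ^ (l + 17) ≤ d := by
    refine le_trans ?_ hd1
    have h3 : (2 : ℤ) ^ (l + 17) = 2 ^ 4 * (2 ^ 13 * 2 ^ l) := by ring
    have h4 : (2 : ℤ) ^ 13 * 2 ^ l ≤ H * 2 ^ l := mul_le_mul_of_nonneg_right hHz h0l.le
    rw [h3]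
    have h5 : (0 : ℤ) ≤ H * 2 ^ l := by positivity
    linarith
  have hdk : 2 * (((1 + (K + 6) + (K + 6) : ℕ) : ℤ) * d) ≤ 2 ^ k := by
    rw [← hN]
    have h1 : (72 * N * H : ℕ) < 2 ^ (72 * N * H) := Nat.lt_two_pow_self
    have h2 : (2 : ℕ) ^ (72 * N * H) * 2 ^ l ≤ 2 ^ k := by
      rw [← pow_add]
      exact Nat.pow_le_pow_right (by norm_num) (by omega)
    have h3 : (72 * N * H) * 2 ^ l ≤ 2 ^ k := le_trans (Nat.mul_le_mul_right _ h1.le) h2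
    have h4 : ((72 * N * H : ℕ) : ℤ) * 2 ^ l ≤ 2 ^ k := by exact_mod_cast h3
    have h5 : (N : ℤ) * d ≤ N * (36 * (H * 2 ^ l)) := mul_le_mul_of_nonneg_left hd2 (Int.natCast_nonneg _)
    push_cast at h4
    linarith
  have hUk : 0 < Ub k := Num2Aux.UU_pos _
  have hmkj : ml j ≤ 4 ^ sx * ml k := (ml_mono hjk).trans (ml_add k sx)
  have hmkl : ml k ≤ 4 ^ (J1 + sx) * ml l := (ml_mono hkj).trans hmj
  obtain ⟨m, hm⟩ : ∃ m : ℕ, m = ⌊κ * ml l / 4⌋₊ := ⟨_, rfl⟩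
  have hκl : 16 ≤ κ * ml l := by
    have h1 : (⌈16 / κ⌉₊ : ℝ) ≤ ml l := by
      refine le_trans ?_ (ml_ge l)
      have : ⌈16 / κ⌉₊ ≤ l := by omega
      exact_mod_cast this
    have h2 : 16 / κ ≤ ml l := (Nat.le_ceil _).trans h1
    rw [div_le_iff₀ hκ] at h2
    linarith
  have hm1 : (m : ℝ) ≤ κ * ml l / 4 := by
    rw [hm]
    exact Nat.floor_le (by positivity)
  have hm2 : κ * ml l / 8 ≤ (m : ℝ) := by
    have h1 : κ * ml l / 4 < m + 1 := by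
      rw [hm]
      exact Nat.lt_floor_add_one _
    linarith
  obtain ⟨W, hW⟩ : ∃ W : Set (List Bool), W = {M | Jn E r D k M ∧ M.length ≤ n ∧ (n : ℝ) ≤ M.length + A0 * ml j} := ⟨_, rfl⟩
  rw [← hW] at hmass
  obtain ⟨w0, hw0⟩ : ∃ w0, w0 = ⌈a * ml l⌉₊ := ⟨_, rfl⟩
  have hw0' : a * ml l ≤ w0 := by
    rw [hw0]
    exact Nat.le_ceil _
  have haml : (A0 * 4 ^ sx + L + AR) * ml k ≤ a * ml l := by
    rw [ha, mul_assoc]
    exact mul_le_mul_of_nonneg_left hmkl (by positivity)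
  have key := hG k r n D E hkG hD1 hD2 (by omega) hrM hE hup hn1' W (AA K σ d (AR * ml l) (n - w0) (n + w0))
    (ENNReal.ofReal (cR * (Ub k / 4 ^ k))) m (fun M hM => by
      rw [hW] at hM
      refine ⟨hM.1, hM.2.1, hM.2.2.trans ?_⟩
      have h1 : A0 * ml j ≤ A0 * (4 ^ sx * ml k) := mul_le_mul_of_nonneg_left hmkj hA0.le
      linarith) (fun M hM s hs Z1 I Z2 e1 hcf hwc hz => by
      rw [hW] at hM
      have hlM : M.length = Z1.length + (I.length + Z2.length) := by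
        rw [e1]
        simp only [List.length_append]
      have hlM' : (M.length : ℝ) = Z1.length + (I.length + Z2.length) := by exact_mod_cast hlM
      have h2 := hR k l r D d E (s + TIW.en Z1) I σ (by omega) (by omega) hD1 hD2 hd1 hd2 hr4 hrM hE hup hup2 hwc.1
      refine h2.trans (gf_mono ?_)
      have h1 : A0 * ml j ≤ A0 * (4 ^ sx * ml k) := mul_le_mul_of_nonneg_left hmkj hA0.le
      have hARk : 0 ≤ AR * ml k := mul_nonneg hAR.le (ml_p k).le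
      have hLk : 0 ≤ L * ml k := mul_nonneg hL.le (ml_p k).le
      have hAk : 0 ≤ A0 * (4 ^ sx * ml k) := mul_nonneg hA0.le (mul_nonneg (by positivity) (ml_p k).le)
      refine rq_imN hE hr4 hup hup2 hDD hwc.1 hdd le_rfl le_rfl hdk (by linarith) ?_ ?_ ?_
      · have h3 : (n : ℝ) ≤ (I.length + w0 : ℕ) := by
          push_cast
          linarith [hM.2.2]
        have h4 : n ≤ I.length + w0 := by exact_mod_cast h3
        omega
      · have h5 : (M.length : ℝ) ≤ n := by exact_mod_cast hM.2.1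
        have h6 : (0 : ℝ) ≤ Z1.length := Nat.cast_nonneg _
        have h7 : (0 : ℝ) ≤ Z2.length := Nat.cast_nonneg _
        push_cast
        linarith
      · push_cast
        linarith)
  -- the numbers
  have hn32 : 0 < (n : ℝ) ^ (-(3 / 2 : ℝ)) := Real.rpow_pos_of_pos (by linarith) _
  obtain ⟨X, hX⟩ : ∃ X : ℝ, X = 4 ^ k * Ub k * (n : ℝ) ^ (-(3 / 2 : ℝ)) := ⟨_, rfl⟩
  have hX0 : 0 < X := by
    rw [hX]
    positivity
  have hlow : ENNReal.ofReal (c0 * X) ≤ gf W := by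
    refine le_trans (ENNReal.ofReal_le_ofReal ?_) hmass
    rw [hX]
    have h1 : Ub k ≤ Ub j := Num2Aux.UU_mono (Nat.pow_le_pow_right (by norm_num) hkj)
    have h2 : (4 : ℝ) ^ k ≤ 4 ^ j := pow_le_pow_right₀ (by norm_num) hkj
    calc c0 * (4 ^ k * Ub k * (n : ℝ) ^ (-(3 / 2 : ℝ))) = c0 * (4 ^ k * Ub k) * (n : ℝ) ^ (-(3 / 2 : ℝ)) := by ring
      _ ≤ _ := by gcongr
  have e1 : c0 / 2 * (4 ^ k * Ub k) * (n : ℝ) ^ (-(3 / 2 : ℝ)) = c0 / 2 * X := by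
    rw [hX]
    ring
  rw [e1] at key
  have e2 : ENNReal.ofReal (c0 * X) = ENNReal.ofReal (c0 / 2 * X) + ENNReal.ofReal (c0 / 2 * X) := by
    rw [← ENNReal.ofReal_add (by positivity) (by positivity)]
    congr 1
    ring
  have hfin : ENNReal.ofReal (c0 / 2 * X) * (ENNReal.ofReal (cR * (Ub k / 4 ^ k)) * m) ≠ ∞ :=
    ENNReal.mul_ne_top ENNReal.ofReal_ne_top (ENNReal.mul_ne_top ENNReal.ofReal_ne_top (ENNReal.natCast_ne_top _))
  have h3 := half_le (x := ENNReal.ofReal (c0 / 2 * X)) (y := ENNReal.ofReal (cR * (Ub k / 4 ^ k)) * m)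
    (by rw [← e2]; exact mul_le_mul' hlow le_rfl) key hfin
  have hCU : 0 < C * Ub k ^ 2 := by positivity
  have h4 : ENNReal.ofReal (C * Ub k ^ 2) * ENNReal.ofReal (c0 * cR * κ / (16 * C) * (ml l * (n : ℝ) ^ (-(3 / 2 : ℝ)))) ≤
      ENNReal.ofReal (C * Ub k ^ 2) * gf (AA K σ d (AR * ml l) (n - w0) (n + w0)) := by
    refine le_trans ?_ h3
    rw [← ENNReal.ofReal_natCast m, ← ENNReal.ofReal_mul hCU.le,
      ← ENNReal.ofReal_mul (by positivity : 0 ≤ cR * (Ub k / 4 ^ k)), ← ENNReal.ofReal_mul (by positivity : 0 ≤ c0 / 2 * X)]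
    refine ENNReal.ofReal_le_ofReal ?_
    calc C * Ub k ^ 2 * (c0 * cR * κ / (16 * C) * (ml l * (n : ℝ) ^ (-(3 / 2 : ℝ)))) =
        c0 / 2 * X * (cR * (Ub k / 4 ^ k) * (κ * ml l / 8)) := by
          rw [hX]
          field_simp
          ring
      _ ≤ _ := by
          refine mul_le_mul_of_nonneg_left (mul_le_mul_of_nonneg_left hm2 (by positivity)) (by positivity)
  rw [← hw0]
  exact (ENNReal.mul_le_mul_iff_right (ENNReal.ofReal_pos.2 hCU).ne' ENNReal.ofReal_ne_top).1 h4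

/-! ### 3. The result -/

/-- **row N1, with short arms**: polygons have native gates at the root -/
theorem n1L (K : ℕ) (σ : Bool) : ∃ (c A : ℝ) (b : ℕ) (d0 : ℤ), 0 < c ∧ 0 < A ∧ 0 < d0 ∧ ∀ (d : ℤ) (n : ℕ), d0 ≤ d →
    b * (d : ℝ) ^ (4 / 3 : ℝ) ≤ n → ENNReal.ofReal (c * (n : ℝ) ^ (-(1 / 2 : ℝ))) ≤
      gf (AA K σ d (A * (d : ℝ) ^ (4 / 3 : ℝ)) n (2 * n)) := by
  obtain ⟨H, l1, c, a, b, A, hH, hc, ha, hb, hA, hwin⟩ := one_win K σ
  obtain ⟨b1, hb1⟩ : ∃ b1 : ℕ, b1 = ⌈b⌉₊ + ⌈4 * (a + 2)⌉₊ := ⟨_, rfl⟩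
  have hbb : b ≤ b1 := by
    rw [hb1]
    push_cast
    have h1 : b ≤ ⌈b⌉₊ := Nat.le_ceil _
    have h2 : (0 : ℝ) ≤ ⌈4 * (a + 2)⌉₊ := Nat.cast_nonneg _
    linarith
  have hab : 4 * (a + 2) ≤ b1 := by
    rw [hb1]
    push_cast
    have h1 : 4 * (a + 2) ≤ ⌈4 * (a + 2)⌉₊ := Nat.le_ceil _
    have h2 : (0 : ℝ) ≤ ⌈b⌉₊ := Nat.cast_nonneg _
    linarith
  refine ⟨c / (64 * (a + 1)), A, b1, 18 * (H * 2 ^ l1), by positivity, hA, by positivity, ?_⟩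
  intro d n hd hn
  have hHr : (1 : ℝ) ≤ H := by exact_mod_cast hH
  have hHz : (1 : ℤ) ≤ H := by exact_mod_cast hH
  have hdr : (18 : ℝ) * (H * 2 ^ l1) ≤ d := by exact_mod_cast hd
  obtain ⟨l, hl1, hl2⟩ : ∃ l : ℕ, (2 : ℝ) ^ l ≤ d / (18 * H) ∧ (d : ℝ) / (18 * H) < 2 ^ (l + 1) := by
    refine exists_nat_pow_near ?_ (by norm_num)
    rw [le_div_iff₀ (by positivity)]
    have h1 : (1 : ℝ) ≤ 2 ^ l1 := one_le_pow₀ (by norm_num)
    nlinarith
  rw [le_div_iff₀ (by positivity)] at hl1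
  rw [div_lt_iff₀ (by positivity)] at hl2
  have hll : l1 ≤ l := by
    by_contra hcon
    have h1 : (2 : ℝ) ^ (l + 1) ≤ 2 ^ l1 := pow_le_pow_right₀ (by norm_num) (by omega)
    have h2 : (2 : ℝ) ^ (l + 1) * (18 * H) ≤ 2 ^ l1 * (18 * H) := mul_le_mul_of_nonneg_right h1 (by positivity)
    linarith
  have hd1 : 18 * (H * 2 ^ l) ≤ d := by
    have h1 : (18 : ℝ) * (H * 2 ^ l) ≤ d := by linarith
    exact_mod_cast h1
  have hd2 : d ≤ 36 * (H * 2 ^ l) := by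
    have h1 : (d : ℝ) ≤ 36 * (H * 2 ^ l) := by
      rw [pow_succ] at hl2
      linarith
    exact_mod_cast h1
  have hml := ml_one l
  -- the length is large
  have hdm : ml l ≤ (d : ℝ) ^ (4 / 3 : ℝ) := by
    have h1 : (2 : ℝ) ^ l ≤ d := by
      have h2 : (0 : ℝ) < 2 ^ l := by positivity
      nlinarith
    have h2 : ml l = ((2 : ℝ) ^ l) ^ (4 / 3 : ℝ) := by
      unfold ml
      rw [← Real.rpow_natCast, ← Real.rpow_mul (by norm_num), mul_comm]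
    rw [h2]
    exact Real.rpow_le_rpow (by positivity) h1 (by norm_num)
  have hnl : b1 * ml l ≤ n := (mul_le_mul_of_nonneg_left hdm (Nat.cast_nonneg _)).trans hn
  obtain ⟨w, hw⟩ : ∃ w, w = ⌈a * ml l⌉₊ := ⟨_, rfl⟩
  have hw1 : a * ml l ≤ w := by
    rw [hw]
    exact Nat.le_ceil _
  have hw2 : (w : ℝ) ≤ (a + 1) * ml l := by
    have h1 : (w : ℝ) < a * ml l + 1 := by
      rw [hw]
      exact Nat.ceil_lt_add_one (by positivity)
    linarith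
  have hw3 : 2 * (w : ℝ) + 1 ≤ 4 * (a + 1) * ml l := by nlinarith
  have hnw : 2 * (2 * (w : ℝ) + 1) ≤ 2 * n := by nlinarith
  have hn0 : (0 : ℝ) < n := by nlinarith
  obtain ⟨I, hI⟩ : ∃ I, I = n / (2 * w + 1) := ⟨_, rfl⟩
  have hI1 : I * (2 * w + 1) ≤ n := by
    rw [hI]
    exact Nat.div_mul_le_self _ _
  have hI2 : (n : ℝ) ≤ 2 * (I * (2 * w + 1)) := by
    have h1 : n < (I + 1) * (2 * w + 1) := by
      rw [hI]
      have h2 := Nat.div_add_mod n (2 * w + 1)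
      have h3 := Nat.mod_lt n (show 0 < 2 * w + 1 by omega)
      nlinarith
    have h2 : 1 ≤ I := by
      by_contra hcon
      have h3 : I = 0 := by omega
      rw [h3] at h1
      have h4 : (n : ℝ) < 1 * (2 * w + 1) := by
        have h5 : n < (0 + 1) * (2 * w + 1) := h1
        rw [zero_add] at h5
        exact_mod_cast h5
      linarith
    have h3 : n ≤ 2 * (I * (2 * w + 1)) := by nlinarith
    exact_mod_cast h3
  obtain ⟨x, hx⟩ : ∃ x : ℝ, x = c * (ml l * ((2 * n : ℝ)) ^ (-(3 / 2 : ℝ))) := ⟨_, rfl⟩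
  have hx0 : 0 ≤ x := by
    rw [hx]
    positivity
  have hsum := sum_win (K := K) (σ := σ) (d := d) (X := A * ml l) (n := n) (w := w) (I := I) (x := ENNReal.ofReal x) (fun i hi => by
    have h1 : (i + 1) * (2 * w + 1) ≤ I * (2 * w + 1) := Nat.mul_le_mul_right _ hi
    rw [add_mul, one_mul] at h1
    obtain ⟨n', hn'⟩ : ∃ n', n' = n + i * (2 * w + 1) + w := ⟨_, rfl⟩
    have h2 : n' ≤ 2 * n := by omega
    have h3 : (n : ℝ) ≤ n' := by
      have : n ≤ n' := by omega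
      exact_mod_cast this
    have h4 := hwin l n' d hll hd1 hd2 (by
      have h5 : b * ml l ≤ b1 * ml l := mul_le_mul_of_nonneg_right hbb (by linarith)
      linarith)
    rw [← hw, show n' - w = n + i * (2 * w + 1) by omega, show n' + w = n + i * (2 * w + 1) + 2 * w by omega] at h4
    refine le_trans (ENNReal.ofReal_le_ofReal ?_) h4
    rw [hx]
    refine mul_le_mul_of_nonneg_left (mul_le_mul_of_nonneg_left ?_ (by linarith)) hc.le
    refine Real.rpow_le_rpow_of_nonpos (by linarith) ?_ (by norm_num)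
    exact_mod_cast h2) hI1
  refine le_trans ?_ (hsum.trans (gf_mono ?_))
  swap
  · rintro L ⟨a1, a2, a3, e, a4, a5⟩
    exact ⟨a1, a2, a3, e, a4, a5.mono (mul_le_mul_of_nonneg_left hdm hA.le)⟩
  rw [← ENNReal.ofReal_natCast, ← ENNReal.ofReal_mul (Nat.cast_nonneg _)]
  refine ENNReal.ofReal_le_ofReal ?_
  have e1 : ((2 * n : ℝ)) ^ (-(3 / 2 : ℝ)) = (2 : ℝ) ^ (-(3 / 2 : ℝ)) * (n : ℝ) ^ (-(3 / 2 : ℝ)) :=
    Real.mul_rpow (by norm_num) hn0.le
  have e2 : (1 / 4 : ℝ) ≤ (2 : ℝ) ^ (-(3 / 2 : ℝ)) := by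
    have h1 : (1 / 4 : ℝ) = (2 : ℝ) ^ (-2 : ℝ) := by
      rw [Real.rpow_neg (by norm_num)]
      norm_num
    rw [h1]
    exact Real.rpow_le_rpow_of_exponent_le (by norm_num) (by norm_num)
  have e3 : (n : ℝ) ^ (-(1 / 2 : ℝ)) = n * (n : ℝ) ^ (-(3 / 2 : ℝ)) := by
    have h1 : (n : ℝ) ^ (-(1 / 2 : ℝ)) = (n : ℝ) ^ (1 + -(3 / 2 : ℝ)) := by norm_num
    rw [h1, Real.rpow_add hn0, Real.rpow_one]
  obtain ⟨y, hy⟩ : ∃ y : ℝ, y = (n : ℝ) ^ (-(3 / 2 : ℝ)) := ⟨_, rfl⟩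
  have hy0 : 0 ≤ y := by
    rw [hy]
    positivity
  rw [hx, e1, e3, ← hy]
  have hIm : (n : ℝ) ≤ 8 * (a + 1) * (I * ml l) := by
    have h1 : (I : ℝ) * (2 * w + 1) ≤ I * (4 * (a + 1) * ml l) := mul_le_mul_of_nonneg_left hw3 (Nat.cast_nonneg _)
    linarith
  have hIml : (0 : ℝ) ≤ I * ml l := by positivity
  calc c / (64 * (a + 1)) * (n * y) ≤ c / (64 * (a + 1)) * (8 * (a + 1) * (I * ml l) * y) := by
        refine mul_le_mul_of_nonneg_left (mul_le_mul_of_nonneg_right hIm hy0) (by positivity)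
    _ = c * ((I * ml l) * y) * (1 / 8) := by
        field_simp
        ring
    _ ≤ c * ((I * ml l) * y) * (2 : ℝ) ^ (-(3 / 2 : ℝ)) := by
        refine mul_le_mul_of_nonneg_left (by linarith) (by positivity)
    _ = _ := by ring

/-- **row N1**: polygons have native gates at the root -/
theorem n1S (K : ℕ) (σ : Bool) : N1S K σ := by
  obtain ⟨c, A, b, d0, hc, -, hd0, h⟩ := n1L K σ
  refine ⟨c, b, d0, hc, hd0, fun d n hd hn => (h d n hd hn).trans (gf_mono ?_)⟩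
  rintro L ⟨a1, a2, a3, e, a4, a5⟩
  exact ⟨a1, a2, a3, e, a4, a5.rev⟩

end N1

end ART

end HexObs
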