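import Pool.Agent.ART.TubeSum
import Pool.Agent.ARM2.TubeApp
import Pool.Agent.ARM.PlcA

/-!
# ROT, F3, row F10 (N1) (helper87): polygons, native gates at the root: the literals

* `pE`: the local path, n0 steps up, n1 steps to the side, then up; the root is near the corner `n0 + n1`;
* `VG`, **`VStrS`**: tube words along the local path (free end), cut near every node of the two columns, with a long piece around
  the corner (its vertices are the roots);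
* `RQ`, **`RTS`**: the tubes that close a placed word, with such a piece in the last but one node of the coarse path;
* `Arm`, `REv`, **`N1S`**: in the ball of radius K d around its root the closed word consists of two straight arms in the
  directions e and f (120 degrees), with a level cut in every window of levels; the mass of these closed words.
-/

set_option autoImplicit false

namespace HexObs

namespace ART

namespace N1

open Finset TS SDN SIM NTA TIP ARM ARM.G3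

open scoped ENNReal

/-- the local path -/
def pE (σ : Bool) (n0 n1 : ℕ) (i : ℕ) : Pt := if n0 ≤ i ∧ i < n0 + n1 then turn σ up else up

/-- the word X ++ Y is cut near the node p of the path -/
def Nd (e : ℕ → Pt) (D w B : ℤ) (r p : ℕ) (X Y : List Bool) : Prop :=
  TubeQ e D w p (TIW.en X) X ∧ TIW.hn (TIW.en X - AR.pv e D p) ≤ B ∧ TubeQ (AR.nx X e p) D w (r - p) (TIW.en Y) Y

/-- **the local words** -/
structure VG (σ : Bool) (n0 n1 n2 : ℕ) (D : ℤ) (l : ℕ) (κ A : ℝ) (V : List Bool) : Prop where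
  tub : TubeQ (pE σ n0 n1) D (2 ^ (l + 10)) (n0 + n1 + n2) (TIW.en V) V
  pos : TIW.hn (TIW.en V - AR.pv (pE σ n0 n1) D (n0 + n1 + n2)) ≤ 2 ^ l
  len : (V.length : ℝ) ≤ A * ml l
  cut : ∀ p, (n0 < p ∧ p < n0 + n1) ∨ (n0 + n1 < p ∧ p < n0 + n1 + n2) →
    ∃ X Y, V = X ++ Y ∧ Nd (pE σ n0 n1) D (2 ^ (l + 10)) (2 ^ l) (n0 + n1 + n2) p X Y
  root : ∃ X Z Y, V = X ++ (Z ++ Y) ∧ κ * ml l ≤ (Z.length : ℝ) ∧
    Nd (pE σ n0 n1) D (2 ^ (l + 10)) (2 ^ l) (n0 + n1 + n2) (n0 + n1 - 1) X (Z ++ Y) ∧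
    Nd (pE σ n0 n1) D (2 ^ (l + 10)) (2 ^ l) (n0 + n1 + n2) (n0 + n1 + 1) (X ++ Z) Y

/-- **row N1a: the mass of the local words** -/
def VStrS (n0 n1 n2 : ℕ) : Prop := ∃ H0 : ℕ, 2 ^ 13 ≤ H0 ∧ ∀ H : ℕ, H0 ≤ H → ∃ (c κ A : ℝ) (l0 : ℕ), 0 < c ∧ 0 < κ ∧ 0 < A ∧
  ∀ (l : ℕ) (D : ℤ) (σ : Bool), l0 ≤ l → 18 * (H * 2 ^ l) ≤ D → D ≤ 36 * (H * 2 ^ l) →
    ENNReal.ofReal (c * Ub l) ≤ gf {V | VG σ n0 n1 n2 D l κ A V}

/-- the tubes that close I, with a local word near the last but one node -/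
def RQ (E : ℕ → Pt) (r : ℕ) (D : ℤ) (k : ℕ) (σ : Bool) (n0 n1 n2 : ℕ) (d : ℤ) (l : ℕ) (κ A : ℝ) (I : List Bool) :
    Set (List Bool) := {Q | TP E r D k I Q ∧ (Q.length : ℝ) ≤ A * ml k ∧ ∃ P V B : List Bool, Q = P ++ (V ++ B) ∧
      TubeQ (fun i => mulE (rc I) (E i)) D (2 ^ (k + 9)) (r - 1) (TIW.en P) P ∧
      TIW.hn (TIW.en P - AR.pv (fun i => mulE (rc I) (E i)) D (r - 1)) ≤ 2 ^ k ∧ VG σ n0 n1 n2 d l κ A V ∧
      ∀ i, 1 ≤ i → i ≤ B.length → 0 < ip (vx oo up B i) up}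

/-- **row N1b: the mass of these tubes** -/
def RTS (n0 n1 n2 : ℕ) : Prop := ∃ H0 : ℕ, 2 ^ 13 ≤ H0 ∧ ∀ H : ℕ, H0 ≤ H → ∃ J0 : ℕ, ∀ Mx : ℕ, ∃ (c κ A : ℝ) (l0 : ℕ),
  0 < c ∧ 0 < κ ∧ 0 < A ∧ ∀ (k l r : ℕ) (D d : ℤ) (E : ℕ → Pt) (s : Pt) (I : List Bool) (σ : Bool), l0 ≤ l → l + J0 ≤ k →
    18 * (H * 2 ^ k) ≤ D → D ≤ 36 * (H * 2 ^ k) → 18 * (H * 2 ^ l) ≤ d → d ≤ 36 * (H * 2 ^ l) → 4 ≤ r → r ≤ Mx → IPg E r →
    E (r - 1) = up → E (r - 2) = up → Plc E r D k s I →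
    ENNReal.ofReal (c * (Ub k / 4 ^ k)) ≤ gf (RQ E r D k σ n0 n1 n2 d l κ A I)

/-- **an arm in the direction e** with the vertices v 0 = 0, .., v s: near the ray, with a level cut in every window of
levels up to the distance K d -/
structure Arm (K : ℕ) (d : ℤ) (e : Pt) (v : ℕ → Pt) (s : ℕ) : Prop where
  near : ∀ i, i ≤ s → ∃ τ : ℤ, 0 ≤ τ ∧ TIW.hn (v i - τ • e) ≤ 8 * d
  cut : ∀ y : ℤ, 8 * d ≤ y → y ≤ 2 * (K * d) → ∃ c, c < s ∧ y ≤ ip (v c) e ∧ ip (v c) e ≤ y + 8 * d ∧ v (c + 1) = v c + e ∧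
    (∀ i, i ≤ c → ip (v i) e ≤ ip (v c) e) ∧ ∀ i, c < i → i ≤ s → ip (v c) e < ip (v i) e

/-- **two straight arms at the root**, nothing else in the ball of radius K d -/
def REv (K : ℕ) (d : ℤ) (e f : Pt) (L : List Bool) : Prop := ∃ s t : ℕ, s + t ≤ L.length ∧
  Arm K d e (fun i => vx oo up L i) s ∧ Arm K d f (fun i => vx oo up L (L.length - i)) t ∧
  ∀ i, s < i → i + t < L.length → K * d ≤ TIW.hn (vx oo up L i)

/-- **row N1: polygons have native gates at the root** at every scale d, with positive probability; the direction e is one of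
the three directions of the edges at the root, f is the next one -/
def N1S (K : ℕ) (σ : Bool) : Prop := ∃ (c : ℝ) (b : ℕ) (d0 : ℤ), 0 < c ∧ 0 < d0 ∧ ∀ (d : ℤ) (n : ℕ), d0 ≤ d →
  b * (d : ℝ) ^ (4 / 3 : ℝ) ≤ n → ENNReal.ofReal (c * (n : ℝ) ^ (-(1 / 2 : ℝ))) ≤
    gf {L | n ≤ L.length ∧ L.length ≤ 2 * n ∧ L ∈ POL.Cy L.length ∧
      ∃ e, (e = up ∨ e = rotL (rotL up) ∨ e = rotR (rotR up)) ∧ REv K d e (-(turn σ e)) L}

end N1

end ART

end HexObs
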