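import Pool.Agent.ART.OutG

/-!
# ROT, F3, row F10 (N1) (helper87): the glue with all roots

* `ImN`, **`sum_imN`**: the minimal placed words, when the tubes have many good roots;
* `Zw`, `hG`: the mass of the confined minimal words in a window of lengths;
* **`nGlue`**: from joinable words with almost n letters to closed words with almost n letters.
-/

set_option autoImplicit false

namespace HexObs

namespace ART

namespace N1

open Finset TS SDN SIM NTA TIP ARM ARM.G3 JT OG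

open scoped ENNReal

variable {E : ℕ → Pt} {r : ℕ} {D : ℤ} {k : ℕ}

/-- the tubes that close the placed word I to a closed word which is in A when it is read from many vertices in the ball of
radius B -/
def ImN (E : ℕ → Pt) (r : ℕ) (D : ℤ) (k : ℕ) (B : ℤ) (A : Set (List Bool)) (m : ℕ) (s : Pt) (I : List Bool) :
    Set (List Bool) :=
  {Q | TP E r D k I Q ∧ ∃ T : Finset ℕ, m ≤ T.card ∧ ∀ a ∈ T, a < I.length + Q.length ∧ (I ++ Q).rotate a ∈ A ∧
    TIW.hn (s + POL.pv (I ++ Q) a) ≤ B}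

/-- **the minimal parts, all roots** -/
theorem sum_imN (hE : IPg E r) (hr : 3 ≤ r) (hup : E (r - 1) = up) (hD : 2 ^ (k + 12) ≤ D) (B : ℕ) (A : Set (List Bool))
    (m : ℕ) {Z : Set (Pt × List Bool)} (hZ : ∀ x ∈ Z, Wc E r D k x.1 x.2) (v : ℝ≥0∞)
    (hv : ∀ x ∈ Z, v ≤ gf (ImN E r D k B A m x.1 x.2)) :
    (∑' x : Z, wE (x : Pt × List Bool).2) * (v * m) ≤ ((6 * (4 * B + 1) ^ 2 : ℕ) : ℝ≥0∞) * gf A := by
  classical
  obtain ⟨f, hf⟩ : ∃ f : (Pt × List Bool) × List Bool → Finset ℕ, ∀ x : (Pt × List Bool) × List Bool,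
      x.2 ∈ ImN E r D k B A m x.1.1 x.1.2 → m ≤ (f x).card ∧ ∀ a ∈ f x, a < x.1.2.length + x.2.length ∧
        (x.1.2 ++ x.2).rotate a ∈ A ∧ TIW.hn (x.1.1 + POL.pv (x.1.2 ++ x.2) a) ≤ B := by
    have key : ∀ x : (Pt × List Bool) × List Bool, ∃ T : Finset ℕ, x.2 ∈ ImN E r D k B A m x.1.1 x.1.2 → m ≤ T.card ∧
        ∀ a ∈ T, a < x.1.2.length + x.2.length ∧ (x.1.2 ++ x.2).rotate a ∈ A ∧
        TIW.hn (x.1.1 + POL.pv (x.1.2 ++ x.2) a) ≤ B := by
      intro x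
      by_cases hx : x.2 ∈ ImN E r D k B A m x.1.1 x.1.2
      · obtain ⟨-, T, hT⟩ := hx
        exact ⟨T, fun _ => hT⟩
      · exact ⟨∅, fun h => absurd h hx⟩
    choose f hf using key
    exact ⟨f, hf⟩
  obtain ⟨T, hT⟩ : ∃ T : Set (((Pt × List Bool) × List Bool) × ℕ), T = {x | x.1.1 ∈ Z ∧
    x.1.2 ∈ ImN E r D k B A m x.1.1.1 x.1.1.2 ∧ x.2 ∈ f x.1} := ⟨_, rfl⟩
  have h1 : (∑' x : Z, wE (x : Pt × List Bool).2) * (v * m) ≤
      ∑' x : T, wE (x : ((Pt × List Bool) × List Bool) × ℕ).1.1.2 * wE (x : ((Pt × List Bool) × List Bool) × ℕ).1.2 := by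
    rw [tsum_subtype T (fun x : ((Pt × List Bool) × List Bool) × ℕ => wE x.1.1.2 * wE x.1.2), ENNReal.tsum_prod',
      ENNReal.tsum_prod', ← ENNReal.tsum_mul_right, tsum_subtype Z (fun x : Pt × List Bool => wE x.2 * (v * m))]
    refine ENNReal.tsum_le_tsum fun y => ?_
    by_cases hy : y ∈ Z
    · rw [Set.indicator_of_mem hy]
      refine (mul_le_mul' le_rfl (mul_le_mul' (hv y hy) le_rfl)).trans ?_
      rw [AR.gf_ite, ← ENNReal.tsum_mul_right, ← ENNReal.tsum_mul_left]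
      refine ENNReal.tsum_le_tsum fun Q => ?_
      by_cases hQ : Q ∈ ImN E r D k B A m y.1 y.2
      · rw [if_pos hQ]
        have h3 : ∑ i ∈ f (y, Q), T.indicator
            (fun x : ((Pt × List Bool) × List Bool) × ℕ => wE x.1.1.2 * wE x.1.2) ((y, Q), i) =
            ((f (y, Q)).card : ℝ≥0∞) * (wE y.2 * wE Q) := by
          rw [sum_congr rfl (g := fun _ => wE y.2 * wE Q) (fun i hi => ?_), sum_const, nsmul_eq_mul]
          rw [Set.indicator_of_mem]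
          rw [hT]
          exact ⟨hy, hQ, hi⟩
        refine le_trans ?_ (ENNReal.sum_le_tsum (f (y, Q)))
        rw [h3]
        have h4 : (m : ℝ≥0∞) ≤ (f (y, Q)).card := by exact_mod_cast (hf (y, Q) hQ).1
        calc wE y.2 * (wE Q * m) = m * (wE y.2 * wE Q) := by ring
          _ ≤ _ := mul_le_mul' h4 le_rfl
      · rw [if_neg hQ, zero_mul, mul_zero]
        exact zero_le
    · rw [Set.indicator_of_notMem hy]
      exact zero_le
  refine h1.trans ?_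
  have h5 : ∑' x : T, wE (x : ((Pt × List Bool) × List Bool) × ℕ).1.1.2 * wE (x : ((Pt × List Bool) × List Bool) × ℕ).1.2 ≤
      ∑' y : ((((bx B ×ˢ dirs : Finset (Pt × Pt)) : Set (Pt × Pt)) ×ˢ A : Set ((Pt × Pt) × List Bool))),
        wE (y : (Pt × Pt) × List Bool).2 := by
    refine inj_sum (f := fun x : ((Pt × List Bool) × List Bool) × ℕ => wE x.1.1.2 * wE x.1.2)
      (g := fun y : (Pt × Pt) × List Bool => wE y.2) (fun x => rta x.1 x.2) ?_ ?_ ?_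
    · intro x hx
      rw [hT] at hx
      obtain ⟨h2, h3, h4⟩ := (hf x.1 hx.2.1).2 x.2 hx.2.2
      refine ⟨?_, h3⟩
      show (_, _) ∈ ((bx B ×ˢ dirs : Finset (Pt × Pt)) : Set (Pt × Pt))
      rw [mem_coe, mem_product]
      exact ⟨mem_bx h4, POL.pd_mem _ _⟩
    · rintro ⟨x, a⟩ hx ⟨x', a'⟩ hx' he
      rw [hT] at hx hx'
      have h2 := (hf x hx.2.1).2 a hx.2.2
      have h3 := (hf x' hx'.2.1).2 a' hx'.2.2
      have e1 : x = x' := rta_injc hE hr hup hD (hZ _ hx.1) hx.2.1.1 (hZ _ hx'.1) hx'.2.1.1 h2.1 h3.1 he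
      subst e1
      have hcy := cy_of hE hr hup hD (hZ _ hx.1).1 hx.2.1.1
      simp only [rta, Prod.mk.injEq] at he
      have e2 : POL.pv (x.1.2 ++ x.2) a = POL.pv (x.1.2 ++ x.2) a' := add_left_cancel he.1.1
      have e3 := POL.Cy.pv_inj hcy (lt_of_le_of_lt (Nat.zero_le _) h2.1) e2
      rw [Nat.mod_eq_of_lt h2.1, Nat.mod_eq_of_lt h3.1] at e3
      rw [e3]
    · intro x _
      show wE x.1.1.2 * wE x.1.2 ≤ wE ((x.1.1.2 ++ x.1.2).rotate x.2)
      rw [wE_rotate, wE_append]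
  refine h5.trans ?_
  rw [box_sum]

/-! ### 2. The mass of the minimal words in a window -/

/-- the confined minimal words in a window of lengths -/
def Zw (E : ℕ → Pt) (r : ℕ) (D : ℤ) (k n : ℕ) (m : ℝ) : Set (Pt × List Bool) :=
  {x | Wc E r D k x.1 x.2 ∧ n ≤ x.2.length ∧ (x.2.length : ℝ) < n + m}

/-- all roots of the tube -/
lemma qq_imN (hE : IPg E r) (hr : 3 ≤ r) (hup : E (r - 1) = up) (hD : 2 ^ (k + 12) ≤ D) {q0 q1 B n n1 : ℕ} {m : ℝ}
    (hB : 2 * (r + 1) * D + 2 ^ (k + 10) ≤ B) (hn1 : (n : ℝ) + m + q1 ≤ n1) {x : Pt × List Bool}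
    (hx : x ∈ Zw E r D k n m) : QQ E r D k q0 q1 x.2 ⊆ ImN E r D k B (G3.CW (n + q0) n1) q0 x.1 x.2 := by
  rintro Q ⟨hQ, h0, h1⟩
  have hcy := cy_of hE hr hup hD hx.1.1 hQ
  have hD0 : 0 ≤ D := le_trans (by positivity) hD
  refine ⟨hQ, Ico x.2.length (x.2.length + Q.length), ?_, fun a ha => ?_⟩
  · rw [Nat.card_Ico]
    omega
  · rw [mem_Ico] at ha
    have h2 := hx.2.1
    refine ⟨ha.2, ⟨x.2.length + Q.length, by omega, ?_, POL.Cy.rot hcy a⟩, ?_⟩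
    · have h6 : ((x.2.length + Q.length : ℕ) : ℝ) ≤ n1 := by
        push_cast
        have h3 : (Q.length : ℝ) ≤ q1 := by exact_mod_cast h1
        have h4 := hx.2.2
        linarith
      exact_mod_cast h6
    · obtain ⟨i, hi⟩ : ∃ i, a = x.2.length + i := ⟨a - x.2.length, by omega⟩
      rw [pv_mq hcy ha.2.le, hi]
      exact (root_pos hE hD0 hx.1.1 hQ (by omega)).trans hB

/-- **the mass of the confined minimal words in a window of lengths** -/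
theorem zw_mass : ∃ H0 : ℕ, 2 ^ 13 ≤ H0 ∧ ∀ H : ℕ, H0 ≤ H → ∀ (Mx : ℕ) (A : ℝ), 0 ≤ A → ∃ (C : ℝ) (k0 : ℕ), 0 < C ∧
    ∀ (k r : ℕ) (D : ℤ) (E : ℕ → Pt), k0 ≤ k → 18 * (H * 2 ^ k) ≤ D → D ≤ 36 * (H * 2 ^ k) → 3 ≤ r → r ≤ Mx → IPg E r →
      E (r - 1) = up → ∀ n : ℕ, ∑' y : Zw E r D k n (A * ml k), wE (y : Pt × List Bool).2 ≤
        ENNReal.ofReal (C * (4 ^ k * (4 ^ k / Ub k)) * (max (n : ℝ) (ml k)) ^ (-(3 / 2 : ℝ))) := by
  obtain ⟨C1, hC1, hP⟩ := POL.P1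
  obtain ⟨H0, hH0, hT⟩ := AR.tubeSt 1 3 (by norm_num) (by norm_num)
  refine ⟨H0, hH0, fun H hH Mx A hA => ?_⟩
  obtain ⟨c, k0, hc, hT⟩ := hT H hH Mx
  obtain ⟨K1, hK1⟩ : ∃ K1 : ℕ, K1 = 2 * (Mx + 1) * (36 * H) + 1024 := ⟨_, rfl⟩
  obtain ⟨K2, hK2⟩ : ∃ K2 : ℝ, K2 = 600 * (A + 4) * K1 ^ 2 * C1 / c := ⟨_, rfl⟩
  have hK1p : 0 < K1 := by omega
  have hK2p : 0 < K2 := by
    rw [hK2]
    have : (0 : ℝ) < K1 := by exact_mod_cast hK1p
    positivity
  refine ⟨K2, max k0 2, hK2p, ?_⟩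
  intro k r D E hk hD1 hD2 hr hr' hE hup n'
  have hk0 : k0 ≤ k := (le_max_left _ _).trans hk
  have hk2 : 2 ≤ k := (le_max_right _ _).trans hk
  have hU : 0 < Ub k := Num2Aux.UU_pos _
  have hml := ml_p k
  have h4k : (0 : ℝ) < 4 ^ k := by positivity
  have hm4 : 4 ≤ ml k := by
    unfold ml
    have h1 : (4 : ℝ) = (2 : ℝ) ^ (2 : ℝ) := by norm_num
    rw [h1]
    refine Real.rpow_le_rpow_of_exponent_le (by norm_num) ?_
    have h2 : (2 : ℝ) ≤ k := by exact_mod_cast hk2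
    linarith
  have hH13 : 2 ^ 13 ≤ H := hH0.trans hH
  have hDD : (2 : ℤ) ^ (k + 12) ≤ D := by
    refine le_trans ?_ hD1
    have h1 : (2 : ℤ) ^ 13 ≤ H := by exact_mod_cast hH13
    have h2 : (0 : ℤ) < 2 ^ k := by positivity
    have h3 : (2 : ℤ) ^ (k + 12) = 2 ^ 12 * 2 ^ k := by ring
    rw [h3]
    nlinarith
  obtain ⟨q0, hq0⟩ : ∃ q0, q0 = ⌈ml k⌉₊ := ⟨_, rfl⟩
  obtain ⟨q1, hq1⟩ : ∃ q1, q1 = ⌊3 * ml k⌋₊ := ⟨_, rfl⟩
  obtain ⟨a1, ha1⟩ : ∃ a1, a1 = ⌈A * ml k⌉₊ := ⟨_, rfl⟩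
  have hq0m : ml k ≤ q0 := by
    rw [hq0]
    exact Nat.le_ceil _
  have hq1m : (q1 : ℝ) ≤ 3 * ml k := by
    rw [hq1]
    exact Nat.floor_le (by positivity)
  have ha1m : A * ml k ≤ a1 := by
    rw [ha1]
    exact Nat.le_ceil _
  have ha1m' : (a1 : ℝ) < A * ml k + 1 := by
    rw [ha1]
    exact Nat.ceil_lt_add_one (by positivity)
  have hroot := sum_imN hE hr hup hDD (K1 * 2 ^ k) (G3.CW (n' + q0) (n' + a1 + q1)) q0
    (Z := Zw E r D k n' (A * ml k)) (fun x hx => hx.1) (ENNReal.ofReal (c / 4 * (Ub k / 4 ^ k))) (fun x hx => by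
      have h1 := tube_mass hc hT hk0 hD1 hD2 (by omega) hr' hE hup hx.1.1 hm4
      rw [← hq0, ← hq1] at h1
      refine h1.trans (gf_mono (qq_imN hE hr hup hDD ?_ ?_ hx))
      · rw [hK1]
        push_cast
        have h1 : (2 : ℤ) ^ (k + 10) = 1024 * 2 ^ k := by ring
        rw [h1]
        have h2 : (r : ℤ) ≤ Mx := by exact_mod_cast hr'
        have h3 : (0 : ℤ) ≤ D := le_trans (by positivity) hDD
        have h4 : 2 * ((r : ℤ) + 1) * D ≤ 2 * ((Mx : ℤ) + 1) * D := by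
          refine mul_le_mul_of_nonneg_right ?_ h3
          linarith
        have h5 : 2 * ((Mx : ℤ) + 1) * D ≤ 2 * ((Mx : ℤ) + 1) * (36 * (H * 2 ^ k)) := by
          refine mul_le_mul_of_nonneg_left hD2 (by positivity)
        have h6 : (2 * ((Mx : ℤ) + 1) * (36 * H) + 1024) * 2 ^ k = 2 * ((Mx : ℤ) + 1) * (36 * (H * 2 ^ k)) + 1024 * 2 ^ k := by ring
        rw [h6]
        linarith
      · push_cast
        linarith)
  have hcw := cw_P1 hC1 hP (n0 := n' + q0) (n1 := n' + a1 + q1) (x := max (n' : ℝ) (ml k))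
    (lt_of_lt_of_le hml (le_max_right _ _)) (by
      have : (1 : ℝ) ≤ q0 := by linarith
      have : 1 ≤ q0 := by exact_mod_cast this
      omega) (by
      push_cast
      refine max_le (by linarith [hml]) ?_
      have : (0 : ℝ) ≤ n' := by positivity
      linarith)
  have hcount : ((n' + a1 + q1 + 1 - (n' + q0) : ℕ) : ℝ) ≤ (A + 4) * ml k := by
    have e1 : n' + a1 + q1 + 1 - (n' + q0) ≤ a1 + q1 + 1 := by omega
    have e2 : ((n' + a1 + q1 + 1 - (n' + q0) : ℕ) : ℝ) ≤ a1 + q1 + 1 := by exact_mod_cast e1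
    linarith
  obtain ⟨X, hX⟩ : ∃ X : ℝ, X = (max (n' : ℝ) (ml k)) ^ (-(3 / 2 : ℝ)) := ⟨_, rfl⟩
  rw [← hX] at hcw ⊢
  have hX0 : 0 ≤ X := by
    rw [hX]
    have : 0 ≤ max (n' : ℝ) (ml k) := hml.le.trans (le_max_right _ _)
    positivity
  have h1 : (∑' y : Zw E r D k n' (A * ml k), wE (y : Pt × List Bool).2) * ENNReal.ofReal (c / 4 * (Ub k / 4 ^ k) * ml k) ≤
      ENNReal.ofReal (150 * K1 ^ 2 * 4 ^ k * ((A + 4) * ml k * (C1 * X))) := by
    calc (∑' y : Zw E r D k n' (A * ml k), wE (y : Pt × List Bool).2) * ENNReal.ofReal (c / 4 * (Ub k / 4 ^ k) * ml k) ≤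
        (∑' y : Zw E r D k n' (A * ml k), wE (y : Pt × List Bool).2) * (ENNReal.ofReal (c / 4 * (Ub k / 4 ^ k)) * q0) := by
          refine mul_le_mul' le_rfl ?_
          rw [ENNReal.ofReal_mul (by positivity)]
          refine mul_le_mul' le_rfl ?_
          rw [← ENNReal.ofReal_natCast]
          exact ENNReal.ofReal_le_ofReal hq0m
      _ ≤ _ := hroot
      _ ≤ ENNReal.ofReal (150 * K1 ^ 2 * 4 ^ k) * ENNReal.ofReal ((A + 4) * ml k * (C1 * X)) := by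
          refine mul_le_mul' ?_ (hcw.trans (ENNReal.ofReal_le_ofReal ?_))
          · rw [← ENNReal.ofReal_natCast]
            refine ENNReal.ofReal_le_ofReal ?_
            push_cast
            have h2 : (1 : ℝ) ≤ K1 * 2 ^ k := by
              have : (1 : ℝ) ≤ K1 := by exact_mod_cast hK1p
              have h3 : (1 : ℝ) ≤ 2 ^ k := one_le_pow₀ (by norm_num)
              nlinarith
            have h3 : (4 : ℝ) ^ k = (2 ^ k) ^ 2 := by
              rw [← pow_mul, mul_comm, pow_mul]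
              norm_num
            rw [h3]
            nlinarith
          · exact mul_le_mul_of_nonneg_right hcount (by positivity)
      _ = _ := by
          rw [← ENNReal.ofReal_mul (by positivity)]
  have hpos : 0 < c / 4 * (Ub k / 4 ^ k) * ml k := by positivity
  have h2 : ∑' y : Zw E r D k n' (A * ml k), wE (y : Pt × List Bool).2 ≤
      ENNReal.ofReal (150 * K1 ^ 2 * 4 ^ k * ((A + 4) * ml k * (C1 * X))) / ENNReal.ofReal (c / 4 * (Ub k / 4 ^ k) * ml k) := by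
    rw [ENNReal.le_div_iff_mul_le (Or.inl (by simpa using hpos)) (Or.inl ENNReal.ofReal_ne_top)]
    exact h1
  refine h2.trans ?_
  rw [← ENNReal.ofReal_div_of_pos hpos]
  refine ENNReal.ofReal_le_ofReal (le_of_eq ?_)
  rw [hK2]
  field_simp
  ring

/-! ### 3. The placed words from the minimal ones, short bridges -/

lemma one_add_mul {x y : ℝ} (hx : 0 ≤ x) (hy : 0 ≤ y) : 1 + (x + y) ≤ (1 + x) * (1 + y) := by
  nlinarith [mul_nonneg hx hy]

/-- **the placed words**: short bridges, and the rest -/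
theorem sum_decn (hD : 0 ≤ D) (hr : 1 ≤ r) {P Z : Set (Pt × List Bool)} {n : ℕ} {m L X : ℝ} (hm : 0 < m) (hL : 0 < L)
    (hX : 0 ≤ X) {w : ℝ} {C2 : ℝ} (hC2 : 0 < C2)
    (hP : ∀ x ∈ P, Plc E r D k x.1 x.2 ∧ n ≤ x.2.length ∧ (x.2.length : ℝ) < n + w)
    (hPZ : ∀ x ∈ P, ∀ Z1 I Z2 : List Bool, x.2 = Z1 ++ (I ++ Z2) → Cf E r D k x.1 Z1 I Z2 →
      Wc E r D k (x.1 + TIW.en Z1) I → (Z1.length : ℝ) + Z2.length ≤ L * m → (x.1 + TIW.en Z1, I) ∈ Z)
    (hG : ∀ n' : ℕ, ∑' y : Zw E r D k n' w, wE (y : Pt × List Bool).2 ≤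
      ENNReal.ofReal (X * (max (n' : ℝ) m) ^ (-(3 / 2 : ℝ))))
    (hmom : ∑' Z : G3.BL k, wE (Z : List Bool) * ENNReal.ofReal ((1 + ((Z : List Bool).length : ℝ) / m) ^ 3) ≤
      ENNReal.ofReal (C2 * Ub k)) :
    ∑' x : P, wE (x : Pt × List Bool).2 ≤ gf (G3.BL k) * (gf (G3.BL k) * ∑' y : Z, wE (y : Pt × List Bool).2) +
      ENNReal.ofReal (X * (max (n : ℝ) m) ^ (-(3 / 2 : ℝ)) / L * (C2 * Ub k) ^ 2) := by
  classical
  have key : ∀ x ∈ P, ∃ Z1 I Z2 : List Bool, x.2 = Z1 ++ (I ++ Z2) ∧ Cf E r D k x.1 Z1 I Z2 ∧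
      Wc E r D k (x.1 + TIW.en Z1) I := fun x hx => min_decc hD hr x.2.length x.1 x.2 rfl (hP x hx).1
  choose! f g h hf using key
  -- the family of the targets
  obtain ⟨F, hF⟩ : ∃ F : ℕ → Set (Pt × List Bool), F = fun z : ℕ => if (z : ℝ) ≤ L * m then Z else Zw E r D k (n - z) w :=
    ⟨_, rfl⟩
  have hmem : ∀ x ∈ P, f x ∈ G3.BL k ∧ h x ∈ G3.BL k ∧ (x.1 + TIW.en (f x), g x) ∈ F ((f x).length + (h x).length) := by
    intro x hx
    obtain ⟨h1, h2, h3⟩ := hf x hx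
    obtain ⟨hPx, hl1, hl2⟩ := hP x hx
    have hPx' := hPx
    rw [h1] at hPx'
    obtain ⟨h5, h6⟩ := cf_hgt h2 hPx' h3.1
    refine ⟨⟨h2.1, h5⟩, ⟨h2.2.1, h6⟩, ?_⟩
    rw [hF]
    show _ ∈ if ((((f x).length + (h x).length : ℕ) : ℕ) : ℝ) ≤ L * m then Z else _
    split_ifs with h7
    · exact hPZ x hx _ _ _ h1 h2 h3 (by push_cast at h7; exact h7)
    · have hl := congrArg List.length h1
      rw [List.length_append, List.length_append] at hl
      refine ⟨h3, ?_, ?_⟩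
      · show n - ((f x).length + (h x).length) ≤ (g x).length
        omega
      · show ((g x).length : ℝ) < ((n - ((f x).length + (h x).length) : ℕ) : ℝ) + w
        rw [hl] at hl2
        push_cast at hl2
        rcases Nat.lt_or_ge n ((f x).length + (h x).length) with h9 | h9
        · have h10 : n - ((f x).length + (h x).length) = 0 := by omega
          rw [h10, Nat.cast_zero, zero_add]
          have h11 : (n : ℝ) < (f x).length + (h x).length := by exact_mod_cast h9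
          linarith
        · rw [Nat.cast_sub h9]
          push_cast
          linarith
  let φ : P → (Σ Z1 : G3.BL k, Σ Z2 : G3.BL k, F ((Z1 : List Bool).length + (Z2 : List Bool).length)) := fun x =>
    ⟨⟨f x, (hmem x x.2).1⟩, ⟨h x, (hmem x x.2).2.1⟩, ⟨((x : Pt × List Bool).1 + TIW.en (f x), g x), (hmem x x.2).2.2⟩⟩
  have hφ : Function.Injective φ := by
    intro x y hxy
    have a1 : f (x : Pt × List Bool) = f (y : Pt × List Bool) := congrArg (fun p => ((p.1 : G3.BL k) : List Bool)) hxy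
    have a2 : h (x : Pt × List Bool) = h (y : Pt × List Bool) := congrArg (fun p => ((p.2.1 : G3.BL k) : List Bool)) hxy
    have a3 : ((x : Pt × List Bool).1 + TIW.en (f x), g (x : Pt × List Bool)) =
        ((y : Pt × List Bool).1 + TIW.en (f y), g (y : Pt × List Bool)) :=
      congrArg (fun p => (p.2.2 : Pt × List Bool)) hxy
    rw [Prod.mk.injEq] at a3
    obtain ⟨a4, a5⟩ := a3
    apply Subtype.ext
    apply Prod.ext
    · rw [a1] at a4
      exact add_right_cancel a4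
    · rw [(hf x x.2).1, (hf y y.2).1, a1, a2, a5]
  have h1 : ∑' x : P, wE (x : Pt × List Bool).2 ≤ ∑' Z1 : G3.BL k, wE (Z1 : List Bool) * ∑' Z2 : G3.BL k,
      wE (Z2 : List Bool) * ∑' y : F ((Z1 : List Bool).length + (Z2 : List Bool).length), wE (y : Pt × List Bool).2 := by
    have e1 : ∑' Z1 : G3.BL k, wE (Z1 : List Bool) * ∑' Z2 : G3.BL k, wE (Z2 : List Bool) *
        ∑' y : F ((Z1 : List Bool).length + (Z2 : List Bool).length), wE (y : Pt × List Bool).2 =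
        ∑' p : (Σ Z1 : G3.BL k, Σ Z2 : G3.BL k, F ((Z1 : List Bool).length + (Z2 : List Bool).length)),
          wE (p.1 : List Bool) * (wE (p.2.1 : List Bool) * wE (p.2.2 : Pt × List Bool).2) := by
      rw [ENNReal.tsum_sigma']
      refine tsum_congr fun Z1 => ?_
      rw [ENNReal.tsum_sigma', ← ENNReal.tsum_mul_left]
      refine tsum_congr fun Z2 => ?_
      rw [← ENNReal.tsum_mul_left, ← ENNReal.tsum_mul_left]
    rw [e1]
    refine le_trans (le_of_eq (tsum_congr fun x => ?_)) (ENNReal.tsum_comp_le_tsum_of_injective hφ _)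
    show wE (x : Pt × List Bool).2 = wE (f x) * (wE (h x) * wE (g x))
    rw [← wE_append, ← wE_append]
    have h1 := (hf x x.2).1
    unfold wE
    rw [h1]
    simp only [List.length_append]
    congr 2
    ring
  refine h1.trans ?_
  obtain ⟨G0, hG0⟩ : ∃ G0 : ℝ≥0∞, G0 = ∑' y : Z, wE (y : Pt × List Bool).2 := ⟨_, rfl⟩
  obtain ⟨Y, hY⟩ : ∃ Y : ℝ, Y = X * (max (n : ℝ) m) ^ (-(3 / 2 : ℝ)) / L := ⟨_, rfl⟩
  have hmx : 0 < max (n : ℝ) m := lt_of_lt_of_le hm (le_max_right _ _)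
  have hmx' : 0 ≤ (max (n : ℝ) m) ^ (-(3 / 2 : ℝ)) := by positivity
  have hY0 : 0 ≤ Y := by
    rw [hY]
    positivity
  have h2 : ∀ z1 z2 : ℕ, ∑' y : F (z1 + z2), wE (y : Pt × List Bool).2 ≤
      G0 + ENNReal.ofReal Y * (ENNReal.ofReal ((1 + (z1 : ℝ) / m) ^ 3) * ENNReal.ofReal ((1 + (z2 : ℝ) / m) ^ 3)) := by
    intro z1 z2
    by_cases h3 : ((z1 + z2 : ℕ) : ℝ) ≤ L * m
    · have h4 : F (z1 + z2) = Z := by
        rw [hF]
        exact if_pos h3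
      rw [h4, ← hG0]
      exact le_self_add
    · have h4 : F (z1 + z2) = Zw E r D k (n - (z1 + z2)) w := by
        rw [hF]
        exact if_neg h3
      rw [h4]
      refine le_trans ?_ le_add_self
      refine (hG _).trans ?_
      rw [← ENNReal.ofReal_mul (by positivity), ← ENNReal.ofReal_mul hY0]
      refine ENNReal.ofReal_le_ofReal ?_
      have h5 := max_shift (n := n) (z := z1 + z2) hm
      have hz1 : 0 ≤ (z1 : ℝ) / m := by positivity
      have hz2 : 0 ≤ (z2 : ℝ) / m := by positivity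
      have h6 : 1 + ((z1 + z2 : ℕ) : ℝ) / m ≤ (1 + (z1 : ℝ) / m) * (1 + (z2 : ℝ) / m) := by
        push_cast
        rw [add_div]
        exact one_add_mul hz1 hz2
      have h0 : 0 ≤ ((z1 + z2 : ℕ) : ℝ) / m := by positivity
      have h7 : L ≤ 1 + ((z1 + z2 : ℕ) : ℝ) / m := by
        have h8 : L ≤ ((z1 + z2 : ℕ) : ℝ) / m := by
          rw [le_div_iff₀ hm]
          exact (not_le.1 h3).le
        linarith
      have h8 : (1 + ((z1 + z2 : ℕ) : ℝ) / m) ^ 2 * L ≤ (1 + (z1 : ℝ) / m) ^ 3 * (1 + (z2 : ℝ) / m) ^ 3 := by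
        calc (1 + ((z1 + z2 : ℕ) : ℝ) / m) ^ 2 * L ≤ (1 + ((z1 + z2 : ℕ) : ℝ) / m) ^ 2 * (1 + ((z1 + z2 : ℕ) : ℝ) / m) :=
              mul_le_mul_of_nonneg_left h7 (by positivity)
          _ = (1 + ((z1 + z2 : ℕ) : ℝ) / m) ^ 3 := by ring
          _ ≤ ((1 + (z1 : ℝ) / m) * (1 + (z2 : ℝ) / m)) ^ 3 := pow_le_pow_left₀ (by positivity) h6 3
          _ = _ := mul_pow _ _ _
      calc X * (max ((n - (z1 + z2) : ℕ) : ℝ) m) ^ (-(3 / 2 : ℝ)) ≤
          X * ((max (n : ℝ) m) ^ (-(3 / 2 : ℝ)) * (1 + ((z1 + z2 : ℕ) : ℝ) / m) ^ 2) := mul_le_mul_of_nonneg_left h5 hX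
        _ = Y * ((1 + ((z1 + z2 : ℕ) : ℝ) / m) ^ 2 * L) := by
            rw [hY]
            field_simp
        _ ≤ Y * ((1 + (z1 : ℝ) / m) ^ 3 * (1 + (z2 : ℝ) / m) ^ 3) := mul_le_mul_of_nonneg_left h8 hY0
  calc ∑' Z1 : G3.BL k, wE (Z1 : List Bool) * ∑' Z2 : G3.BL k,
      wE (Z2 : List Bool) * ∑' y : F ((Z1 : List Bool).length + (Z2 : List Bool).length), wE (y : Pt × List Bool).2 ≤
      ∑' Z1 : G3.BL k, wE (Z1 : List Bool) * ∑' Z2 : G3.BL k, wE (Z2 : List Bool) * (G0 +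
        ENNReal.ofReal Y * (ENNReal.ofReal ((1 + ((Z1 : List Bool).length : ℝ) / m) ^ 3) *
          ENNReal.ofReal ((1 + ((Z2 : List Bool).length : ℝ) / m) ^ 3))) := by
        refine ENNReal.tsum_le_tsum fun Z1 => mul_le_mul' le_rfl (ENNReal.tsum_le_tsum fun Z2 => mul_le_mul' le_rfl (h2 _ _))
    _ = ∑' Z1 : G3.BL k, (wE (Z1 : List Bool) * (gf (G3.BL k) * G0) + ENNReal.ofReal Y *
        ((wE (Z1 : List Bool) * ENNReal.ofReal ((1 + ((Z1 : List Bool).length : ℝ) / m) ^ 3)) *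
          ∑' Z2 : G3.BL k, wE (Z2 : List Bool) * ENNReal.ofReal ((1 + ((Z2 : List Bool).length : ℝ) / m) ^ 3))) := by
        refine tsum_congr fun Z1 => ?_
        have e2 : ∑' Z2 : G3.BL k, wE (Z2 : List Bool) * (G0 +
            ENNReal.ofReal Y * (ENNReal.ofReal ((1 + ((Z1 : List Bool).length : ℝ) / m) ^ 3) *
              ENNReal.ofReal ((1 + ((Z2 : List Bool).length : ℝ) / m) ^ 3))) = gf (G3.BL k) * G0 +
            (ENNReal.ofReal Y * ENNReal.ofReal ((1 + ((Z1 : List Bool).length : ℝ) / m) ^ 3)) *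
              ∑' Z2 : G3.BL k, wE (Z2 : List Bool) * ENNReal.ofReal ((1 + ((Z2 : List Bool).length : ℝ) / m) ^ 3) := by
          unfold gf
          rw [← ENNReal.tsum_mul_right, ← ENNReal.tsum_mul_left, ← ENNReal.tsum_add]
          refine tsum_congr fun Z2 => ?_
          ring
        rw [e2]
        ring
    _ = gf (G3.BL k) * (gf (G3.BL k) * G0) + ENNReal.ofReal Y *
        ((∑' Z1 : G3.BL k, wE (Z1 : List Bool) * ENNReal.ofReal ((1 + ((Z1 : List Bool).length : ℝ) / m) ^ 3)) *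
          ∑' Z2 : G3.BL k, wE (Z2 : List Bool) * ENNReal.ofReal ((1 + ((Z2 : List Bool).length : ℝ) / m) ^ 3)) := by
        rw [ENNReal.tsum_add, ENNReal.tsum_mul_right, ENNReal.tsum_mul_left, ENNReal.tsum_mul_right]
        rfl
    _ ≤ gf (G3.BL k) * (gf (G3.BL k) * G0) + ENNReal.ofReal Y * (ENNReal.ofReal (C2 * Ub k) * ENNReal.ofReal (C2 * Ub k)) :=
        add_le_add le_rfl (mul_le_mul' le_rfl (mul_le_mul' hmom hmom))
    _ = _ := by
        have hU : 0 < Ub k := Num2Aux.UU_pos _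
        rw [← ENNReal.ofReal_mul (by positivity), ← ENNReal.ofReal_mul hY0, hG0, hY, sq]

/-! ### 4. The glue -/

/-- **the glue**: joinable words with almost n letters; the tubes that close the minimal parts have many good roots -/
theorem nGlue : ∃ H0 : ℕ, 2 ^ 13 ≤ H0 ∧ ∀ H : ℕ, H0 ≤ H → ∀ (Mx K : ℕ) (A ε : ℝ), 0 ≤ A → 0 < ε → ∃ (C L : ℝ) (k0 : ℕ),
    0 < C ∧ 0 < L ∧ ∀ (k r n : ℕ) (D : ℤ) (E : ℕ → Pt), k0 ≤ k → 18 * (H * 2 ^ k) ≤ D → D ≤ 36 * (H * 2 ^ k) → 3 ≤ r →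
      r ≤ Mx → IPg E r → E (r - 1) = up → 1 ≤ n → ∀ (W A' : Set (List Bool)) (v : ℝ≥0∞) (m : ℕ),
      (∀ M ∈ W, Jn E r D k M ∧ M.length ≤ n ∧ (n : ℝ) ≤ M.length + A * ml k) →
      (∀ M ∈ W, ∀ s : Pt, TIW.hn s ≤ 2 ^ k → ∀ Z1 I Z2 : List Bool, M = Z1 ++ (I ++ Z2) → Cf E r D k s Z1 I Z2 →
        Wc E r D k (s + TIW.en Z1) I → (Z1.length : ℝ) + Z2.length ≤ L * ml k →
        v ≤ gf (ImN E r D k (K * 2 ^ k) A' m (s + TIW.en Z1) I)) →
      gf W * (v * m) ≤ ENNReal.ofReal (C * Ub k ^ 2) * gf A' +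
        ENNReal.ofReal (ε * (4 ^ k * Ub k) * (n : ℝ) ^ (-(3 / 2 : ℝ))) * (v * m) := by
  classical
  obtain ⟨H0, hH0, hZ⟩ := zw_mass
  obtain ⟨C2, hC2, hmom⟩ := low_momq 3
  refine ⟨H0, hH0, fun H hH Mx K A ε hA hε => ?_⟩
  obtain ⟨C3, k0, hC3, hZ⟩ := hZ H hH Mx (A + 2) (by linarith)
  obtain ⟨L, hL⟩ : ∃ L : ℝ, L = 36 * (C3 * (A + 3) ^ 2 * C2 ^ 2) / ε := ⟨_, rfl⟩
  have hL0 : 0 < L := by
    rw [hL]
    positivity
  refine ⟨36 * (4 * 4) * (150 * ((K + 1 : ℕ) : ℝ) ^ 2), L, max k0 1, by positivity, hL0, ?_⟩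
  intro k r n D E hk hD1 hD2 hr hr' hE hup hn W A' v m hW hv
  have hk0 : k0 ≤ k := (le_max_left _ _).trans hk
  have hU : 0 < Ub k := Num2Aux.UU_pos _
  have hml := ml_p k
  have hm1 : 1 ≤ ml k := by
    unfold ml
    exact Real.one_le_rpow (by norm_num) (by positivity)
  have hU2 : Ub (k + 2) ≤ 4 * Ub k := by
    have := TPC.Ub_pow k 2
    norm_num at this
    exact this
  have hH13 : 2 ^ 13 ≤ H := hH0.trans hH
  have hDD : (2 : ℤ) ^ (k + 12) ≤ D := by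
    refine le_trans ?_ hD1
    have h1 : (2 : ℤ) ^ 13 ≤ H := by exact_mod_cast hH13
    have h2 : (0 : ℤ) < 2 ^ k := by positivity
    have h3 : (2 : ℤ) ^ (k + 12) = 2 ^ 12 * 2 ^ k := by ring
    rw [h3]
    nlinarith
  have hD0 : 0 ≤ D := le_trans (by positivity) hDD
  have hBL : gf (G3.BL k) ≤ ENNReal.ofReal (4 * Ub k) :=
    (TIP.gf_low (2 ^ (k + 2))).trans (ENNReal.ofReal_le_ofReal hU2)
  obtain ⟨S, hS1, hS2⟩ := small_pts k
  obtain ⟨P, hP⟩ : ∃ P : Set (Pt × List Bool), P = (S : Set Pt) ×ˢ W := ⟨_, rfl⟩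
  obtain ⟨Z, hZd⟩ : ∃ Z : Set (Pt × List Bool), Z = {y | ∃ M ∈ W, ∃ s ∈ S, ∃ Z1 Z2 : List Bool, M = Z1 ++ (y.2 ++ Z2) ∧
    Cf E r D k s Z1 y.2 Z2 ∧ y.1 = s + TIW.en Z1 ∧ Wc E r D k y.1 y.2 ∧ (Z1.length : ℝ) + Z2.length ≤ L * ml k} := ⟨_, rfl⟩
  obtain ⟨n0, hn0⟩ : ∃ n0, n0 = n - ⌈A * ml k⌉₊ := ⟨_, rfl⟩
  have hce : (⌈A * ml k⌉₊ : ℝ) < A * ml k + 1 := Nat.ceil_lt_add_one (by positivity)
  have hce' : A * ml k ≤ ⌈A * ml k⌉₊ := Nat.le_ceil _
  have hnn : (n : ℝ) ≤ n0 + A * ml k + 1 := by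
    have h1 : n ≤ n0 + ⌈A * ml k⌉₊ := by omega
    have h2 : (n : ℝ) ≤ n0 + ⌈A * ml k⌉₊ := by exact_mod_cast h1
    linarith
  have h1 : (S.card : ℝ≥0∞) * gf W = ∑' x : P, wE (x : Pt × List Bool).2 := by
    rw [hP, tsum_subtype ((S : Set Pt) ×ˢ W) (fun x : Pt × List Bool => wE x.2), ENNReal.tsum_prod']
    have h3 : ∀ a : Pt, ∑' w : List Bool, ((S : Set Pt) ×ˢ W).indicator (fun x : Pt × List Bool => wE x.2) (a, w) =
        if a ∈ S then gf W else 0 := by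
      intro a
      by_cases ha : a ∈ S
      · rw [if_pos ha, AR.gf_ite]
        refine tsum_congr fun w => ?_
        by_cases hw : w ∈ W
        · rw [if_pos hw, Set.indicator_of_mem]
          exact ⟨ha, hw⟩
        · rw [if_neg hw, Set.indicator_of_notMem]
          exact fun h => hw h.2
      · rw [if_neg ha, ENNReal.tsum_eq_zero]
        intro w
        rw [Set.indicator_of_notMem]
        exact fun h => ha h.1
    rw [tsum_congr h3, tsum_eq_sum (s := S) (fun a ha => if_neg ha),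
      sum_congr rfl (g := fun _ => gf W) (fun a ha => if_pos ha), sum_const, nsmul_eq_mul]
  have h2 : ∑' x : P, wE (x : Pt × List Bool).2 ≤ gf (G3.BL k) * (gf (G3.BL k) * ∑' y : Z, wE (y : Pt × List Bool).2) +
      ENNReal.ofReal (C3 * (4 ^ k * (4 ^ k / Ub k)) * (max (n0 : ℝ) (ml k)) ^ (-(3 / 2 : ℝ)) / L * (C2 * Ub k) ^ 2) := by
    refine sum_decn (E := E) (r := r) (D := D) (k := k) (n := n0) (m := ml k) (L := L)
      (w := (A + 2) * ml k) hD0 (by omega : 1 ≤ r) hml hL0 (by positivity) hC2 (fun x hx => ?_)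
      (fun x hx Z1 I Z2 a1 a2 a3 a4 => ?_) (fun n' => ?_) (hmom k)
    · rw [hP] at hx
      obtain ⟨b1, b2, b3⟩ := hW _ hx.2
      refine ⟨jn_plc b1 (hS1 _ hx.1), ?_, ?_⟩
      · have h3 : (n : ℝ) ≤ (x.2.length + ⌈A * ml k⌉₊ : ℕ) := by
          push_cast
          linarith
        have h4 : n ≤ x.2.length + ⌈A * ml k⌉₊ := by exact_mod_cast h3
        omega
      · have h3 : (x.2.length : ℝ) ≤ n := by exact_mod_cast b2
        linarith
    · rw [hP] at hx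
      rw [hZd]
      exact ⟨x.2, hx.2, x.1, hx.1, Z1, Z2, a1, a2, rfl, a3, a4⟩
    · exact hZ k r D E hk0 hD1 hD2 hr hr' hE hup n'
  have h3 : (∑' y : Z, wE (y : Pt × List Bool).2) * (v * m) ≤ ((6 * (4 * (K * 2 ^ k) + 1) ^ 2 : ℕ) : ℝ≥0∞) * gf A' := by
    refine sum_imN hE hr hup hDD (K * 2 ^ k) A' m (fun x hx => ?_) v (fun x hx => ?_)
    · rw [hZd] at hx
      obtain ⟨M, hM, s, hs, Z1, Z2, a1, a2, a3, a4, a5⟩ := hx
      exact a4
    · rw [hZd] at hx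
      obtain ⟨M, hM, s, hs, Z1, Z2, a1, a2, a3, a4, a5⟩ := hx
      rw [a3]
      rw [a3] at a4
      push_cast
      exact hv M hM s (hS1 s hs) Z1 x.2 Z2 a1 a2 a4 a5
  have h4k : (0 : ℝ) < 4 ^ k := by positivity
  have hbad : C3 * (4 ^ k * (4 ^ k / Ub k)) * (max (n0 : ℝ) (ml k)) ^ (-(3 / 2 : ℝ)) / L * (C2 * Ub k) ^ 2 ≤
      4 ^ k / 36 * (ε * (4 ^ k * Ub k) * (n : ℝ) ^ (-(3 / 2 : ℝ))) := by
    have hn0' : (0 : ℝ) < n := by exact_mod_cast hn
    have hmx : 0 < max (n0 : ℝ) (ml k) := lt_of_lt_of_le hml (le_max_right _ _)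
    have h5 : (n : ℝ) ≤ (A + 3) * max (n0 : ℝ) (ml k) := by
      have h6 : (n0 : ℝ) ≤ max (n0 : ℝ) (ml k) := le_max_left _ _
      have h7 : ml k ≤ max (n0 : ℝ) (ml k) := le_max_right _ _
      nlinarith [mul_le_mul_of_nonneg_left h7 hA]
    have h6 : (max (n0 : ℝ) (ml k)) ^ (-(3 / 2 : ℝ)) ≤ (A + 3) ^ 2 * (n : ℝ) ^ (-(3 / 2 : ℝ)) := by
      have h7 : (n : ℝ) ^ (3 / 2 : ℝ) ≤ (A + 3) ^ 2 * (max (n0 : ℝ) (ml k)) ^ (3 / 2 : ℝ) := by
        calc (n : ℝ) ^ (3 / 2 : ℝ) ≤ ((A + 3) * max (n0 : ℝ) (ml k)) ^ (3 / 2 : ℝ) := Real.rpow_le_rpow hn0'.le h5 (by norm_num)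
          _ = (A + 3) ^ (3 / 2 : ℝ) * (max (n0 : ℝ) (ml k)) ^ (3 / 2 : ℝ) := Real.mul_rpow (by linarith) hmx.le
          _ ≤ _ := by
            refine mul_le_mul_of_nonneg_right ?_ (by positivity)
            rw [← Real.rpow_natCast (A + 3) 2]
            refine Real.rpow_le_rpow_of_exponent_le (by linarith) ?_
            norm_num
      rw [Real.rpow_neg hmx.le, Real.rpow_neg hn0'.le]
      have h8 : 0 < (n : ℝ) ^ (3 / 2 : ℝ) := Real.rpow_pos_of_pos hn0' _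
      have h9 : 0 < (max (n0 : ℝ) (ml k)) ^ (3 / 2 : ℝ) := Real.rpow_pos_of_pos hmx _
      rw [← div_eq_mul_inv, le_div_iff₀ h8, inv_mul_le_iff₀ h9]
      linarith
    calc C3 * (4 ^ k * (4 ^ k / Ub k)) * (max (n0 : ℝ) (ml k)) ^ (-(3 / 2 : ℝ)) / L * (C2 * Ub k) ^ 2 ≤
        C3 * (4 ^ k * (4 ^ k / Ub k)) * ((A + 3) ^ 2 * (n : ℝ) ^ (-(3 / 2 : ℝ))) / L * (C2 * Ub k) ^ 2 := by
          gcongr
      _ = _ := by
          rw [hL]
          field_simp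
  -- the numbers
  have h4 : ENNReal.ofReal (4 ^ k / 36) * (gf W * (v * m)) ≤
      ENNReal.ofReal (4 ^ k / 36) * (ENNReal.ofReal (36 * (4 * 4) * (150 * ((K + 1 : ℕ) : ℝ) ^ 2) * Ub k ^ 2) * gf A' +
        ENNReal.ofReal (ε * (4 ^ k * Ub k) * (n : ℝ) ^ (-(3 / 2 : ℝ))) * (v * m)) := by
    calc ENNReal.ofReal (4 ^ k / 36) * (gf W * (v * m)) ≤ ((S.card : ℝ≥0∞) * gf W) * (v * m) := by
          rw [← mul_assoc]
          refine mul_le_mul' (mul_le_mul' ?_ le_rfl) le_rfl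
          rw [← ENNReal.ofReal_natCast]
          exact ENNReal.ofReal_le_ofReal hS2
      _ ≤ (gf (G3.BL k) * (gf (G3.BL k) * ∑' y : Z, wE (y : Pt × List Bool).2) +
          ENNReal.ofReal (C3 * (4 ^ k * (4 ^ k / Ub k)) * (max (n0 : ℝ) (ml k)) ^ (-(3 / 2 : ℝ)) / L * (C2 * Ub k) ^ 2)) *
          (v * m) := by
          rw [h1]
          exact mul_le_mul' h2 le_rfl
      _ = gf (G3.BL k) * gf (G3.BL k) * ((∑' y : Z, wE (y : Pt × List Bool).2) * (v * m)) +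
          ENNReal.ofReal (C3 * (4 ^ k * (4 ^ k / Ub k)) * (max (n0 : ℝ) (ml k)) ^ (-(3 / 2 : ℝ)) / L * (C2 * Ub k) ^ 2) *
          (v * m) := by ring
      _ ≤ ENNReal.ofReal (4 * Ub k) * ENNReal.ofReal (4 * Ub k) * (((6 * (4 * (K * 2 ^ k) + 1) ^ 2 : ℕ) : ℝ≥0∞) * gf A') +
          ENNReal.ofReal (4 ^ k / 36 * (ε * (4 ^ k * Ub k) * (n : ℝ) ^ (-(3 / 2 : ℝ)))) * (v * m) :=
          add_le_add (mul_le_mul' (mul_le_mul' hBL hBL) h3) (mul_le_mul' (ENNReal.ofReal_le_ofReal hbad) le_rfl)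
      _ ≤ ENNReal.ofReal (4 * Ub k) * ENNReal.ofReal (4 * Ub k) *
          (ENNReal.ofReal (150 * ((K + 1 : ℕ) : ℝ) ^ 2 * 4 ^ k) * gf A') +
          ENNReal.ofReal (4 ^ k / 36 * (ε * (4 ^ k * Ub k) * (n : ℝ) ^ (-(3 / 2 : ℝ)))) * (v * m) := by
          refine add_le_add (mul_le_mul' le_rfl (mul_le_mul' ?_ le_rfl)) le_rfl
          rw [← ENNReal.ofReal_natCast]
          refine ENNReal.ofReal_le_ofReal ?_
          push_cast
          have h5 : (1 : ℝ) ≤ 2 ^ k := one_le_pow₀ (by norm_num)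
          have h6 : (4 : ℝ) ^ k = (2 ^ k) ^ 2 := by
            rw [← pow_mul, mul_comm, pow_mul]
            norm_num
          have h7 : 4 * ((K : ℝ) * 2 ^ k) + 1 ≤ 5 * ((K + 1) * 2 ^ k) := by
            have : (0 : ℝ) ≤ K := Nat.cast_nonneg K
            nlinarith
          have h8 : (0 : ℝ) ≤ 4 * ((K : ℝ) * 2 ^ k) + 1 := by positivity
          calc 6 * (4 * ((K : ℝ) * 2 ^ k) + 1) ^ 2 ≤ 6 * (5 * ((K + 1) * 2 ^ k)) ^ 2 := by gcongr
            _ = 150 * ((K : ℝ) + 1) ^ 2 * 4 ^ k := by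
                rw [h6]
                ring
      _ = ENNReal.ofReal (4 * Ub k * (4 * Ub k) * (150 * ((K + 1 : ℕ) : ℝ) ^ 2 * 4 ^ k)) * gf A' +
          ENNReal.ofReal (4 ^ k / 36 * (ε * (4 ^ k * Ub k) * (n : ℝ) ^ (-(3 / 2 : ℝ)))) * (v * m) := by
          rw [ENNReal.ofReal_mul (by positivity : (0 : ℝ) ≤ 4 * Ub k * (4 * Ub k)), ENNReal.ofReal_mul (by positivity : (0 : ℝ) ≤ 4 * Ub k)]
          ring
      _ = _ := by
          rw [mul_add, ← mul_assoc (ENNReal.ofReal (4 ^ k / 36)), ← mul_assoc (ENNReal.ofReal (4 ^ k / 36)),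
            ← ENNReal.ofReal_mul (by positivity), ← ENNReal.ofReal_mul (by positivity)]
          congr 3
          field_simp
  have hpos : ENNReal.ofReal (4 ^ k / 36) ≠ 0 := (ENNReal.ofReal_pos.2 (by positivity)).ne'
  exact (ENNReal.mul_le_mul_iff_right hpos ENNReal.ofReal_ne_top).1 h4

end N1

end ART

end HexObs
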