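import Pool.Agent.ROT.F3N1Defs
import Pool.Agent.POL.MrOf

/-!
# ROT, F3, row F10 (N1) (helper87): the two arms of a local word

* `NC`, `nc_of`: a word cut near a node;
* **`vg_loc`**: at every vertex of the long piece the local word has the two arms.
-/

set_option autoImplicit false

namespace HexObs

namespace ART

namespace N1

open Finset TS SDN SIM NTA TIP ARM ARM.G3

open scoped ENNReal

/-! ### 1. Words cut near a node -/

/-- the vertex c of the word V is a cut near the node p of the path -/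
structure NC (e : ℕ → Pt) (D w b : ℤ) (N : ℕ) (V : List Bool) (p c : ℕ) : Prop where
  le : c ≤ V.length
  pos : TIW.hn (vx oo up V c - AR.pv e D p) ≤ b
  dir : dx up V c = e (p - 1)
  rg : ∀ i, i ≤ c → ∃ j, j < p ∧ Nr e D w j (vx oo up V i)
  bd : ∀ i, i ≤ c → ip (vx oo up V i) (e (p - 1)) ≤ ip (vx oo up V c) (e (p - 1)) ∨
    ∃ j, j + 1 < p ∧ Nr e D w j (vx oo up V i)
  rg' : ∀ i, c ≤ i → i ≤ V.length → ∃ j, p ≤ j ∧ j < N ∧ Nr e D (w + b) j (vx oo up V i)
  st : ∀ i, c < i → i ≤ V.length → ip (vx oo up V c) (e (p - 1)) + 2 ≤ ip (vx oo up V i) (e (p - 1)) ∨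
    ∃ j, p < j ∧ j < N ∧ Nr e D (w + b) j (vx oo up V i)

lemma nc_of {e : ℕ → Pt} {D w b : ℤ} {N p : ℕ} {X Y : List Bool} (hp : p ≤ N) (h : Nd e D w b N p X Y) :
    NC e D w b N (X ++ Y) p X.length := by
  obtain ⟨hX, hb, hY⟩ := h
  have e0 : ∀ i, i ≤ X.length → vx oo up (X ++ Y) i = vx oo up X i := fun i hi => vx_append (by omega)
  have ec : vx oo up (X ++ Y) X.length = TIW.en X := e0 _ le_rfl
  have e1 : ∀ q, vx oo up (X ++ Y) (X.length + q) = TIW.en X + mulE (TIW.rt X) (vx oo up Y q) := fun q => TIW.vx_app X Y q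
  have hnr : ∀ {j : ℕ} {y : Pt}, Nr (AR.nx X e p) D w j y → Nr e D (w + b) (p + j) (TIW.en X + mulE (TIW.rt X) y) :=
    fun hy => AR.nx_near hb hy
  have hd : TIW.de X = e (p - 1) := hX.de
  have hip : ∀ y : Pt, ip (mulE (TIW.rt X) y) (e (p - 1)) = ip y up := fun y => by
    rw [← hd]
    exact AR.ip_rt X y
  refine ⟨by rw [List.length_append]; omega, ?_, ?_, fun i hi => ?_, fun i hi => ?_, fun i hi hi' => ?_, fun i hi hi' => ?_⟩
  · rw [ec]
    exact hb
  · rw [dx_append le_rfl]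
    exact hd
  · rw [e0 i hi]
    exact hX.rg i hi
  · rw [e0 i hi, ec]
    rcases hX.bd i hi with g | g
    · left
      rw [AR.ip_sub_left] at g
      linarith
    · exact Or.inr g
  · obtain ⟨q, rfl⟩ : ∃ q, i = X.length + q := ⟨i - X.length, by omega⟩
    rw [List.length_append] at hi'
    obtain ⟨j, g1, g2⟩ := hY.rg q (by omega)
    refine ⟨p + j, by omega, by omega, ?_⟩
    rw [e1]
    exact hnr g2
  · obtain ⟨q, rfl⟩ : ∃ q, i = X.length + q := ⟨i - X.length, by omega⟩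
    rw [List.length_append] at hi'
    rw [e1, ec]
    rcases hY.st q (by omega) (by omega) with g | ⟨j, g1, g2, g3⟩
    · left
      rw [ip_add_left, hip]
      have h2 : lev Y q = ip (vx oo up Y q) up := rfl
      have h3 := POL.lev_mod3 Y q
      omega
    · exact Or.inr ⟨p + j, by omega, by omega, hnr g3⟩

/-! ### 2. Levels -/

/-- levels of the points near a segment -/
lemma nr_ip {e : ℕ → Pt} {D w : ℤ} {j : ℕ} {x y : Pt} (hx : x ∈ dirs) (h0 : 0 ≤ ip (e j) x) (h : Nr e D w j y) :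
    D * ip (AR.ps e j) x - w ≤ ip y x ∧ ip y x ≤ D * ip (AR.ps e (j + 1)) x + w := by
  obtain ⟨t, h1, h2, h3⟩ := h
  have h4 := TIW.ip_le_hn (y - (AR.pv e D j + t • e j)) hx
  have h5 := TIW.neg_hn_le_ip (y - (AR.pv e D j + t • e j)) hx
  have e1 : ip (y - (AR.pv e D j + t • e j)) x = ip y x - (D * ip (AR.ps e j) x + t * ip (e j) x) := by
    unfold AR.pv
    rw [AR.ip_sub_left, ip_add_left, AR.ip_smul, AR.ip_smul]
  rw [e1] at h4 h5
  rw [AR.ps_succ, ip_add_left]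
  have h6 : 0 ≤ t * ip (e j) x := mul_nonneg h1 h0
  have h7 : t * ip (e j) x ≤ D * ip (e j) x := mul_le_mul_of_nonneg_right h2 h0
  constructor
  · linarith
  · rw [mul_add]
    linarith

/-- levels of the points near a node -/
lemma nd_ip {e : ℕ → Pt} {D b : ℤ} {p : ℕ} {x y : Pt} (hx : x ∈ dirs) (h : TIW.hn (y - AR.pv e D p) ≤ b) :
    D * ip (AR.ps e p) x - b ≤ ip y x ∧ ip y x ≤ D * ip (AR.ps e p) x + b := by
  have h4 := TIW.ip_le_hn (y - AR.pv e D p) hx
  have h5 := TIW.neg_hn_le_ip (y - AR.pv e D p) hx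
  have e1 : ip (y - AR.pv e D p) x = ip y x - D * ip (AR.ps e p) x := by
    unfold AR.pv
    rw [AR.ip_sub_left, AR.ip_smul]
  rw [e1] at h4 h5
  constructor <;> linarith

section path

variable {σ : Bool} {n0 n1 : ℕ}

lemma up_up : ip up up = 2 := by decide
lemma tu_up (σ : Bool) : ip (turn σ up) up = 1 := by cases σ <;> decide
lemma up_tu (σ : Bool) : ip up (turn σ up) = 1 := by cases σ <;> decide
lemma tu_tu (σ : Bool) : ip (turn σ up) (turn σ up) = 2 := by cases σ <;> decide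
lemma tu_mem (σ : Bool) : turn σ up ∈ dirs := by cases σ <;> decide
lemma upm : up ∈ dirs := by decide

lemma pE_mid {i : ℕ} (h1 : n0 ≤ i) (h2 : i < n0 + n1) : pE σ n0 n1 i = turn σ up := if_pos ⟨h1, h2⟩
lemma pE_low {i : ℕ} (h1 : i < n0) : pE σ n0 n1 i = up := if_neg (by omega)
lemma pE_top {i : ℕ} (h1 : n0 + n1 ≤ i) : pE σ n0 n1 i = up := if_neg (by omega)

/-- the levels of the nodes, direction up -/
def lu (σ : Bool) (n0 n1 i : ℕ) : ℤ := ip (AR.ps (pE σ n0 n1) i) up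

/-- the levels of the nodes, direction of the second leg -/
def lg (σ : Bool) (n0 n1 i : ℕ) : ℤ := ip (AR.ps (pE σ n0 n1) i) (turn σ up)

lemma lu_succ (i : ℕ) : lu σ n0 n1 (i + 1) = lu σ n0 n1 i + ip (pE σ n0 n1 i) up := by
  unfold lu
  rw [AR.ps_succ, ip_add_left]

lemma lg_succ (i : ℕ) : lg σ n0 n1 (i + 1) = lg σ n0 n1 i + ip (pE σ n0 n1 i) (turn σ up) := by
  unfold lg
  rw [AR.ps_succ, ip_add_left]

lemma pE_u (i : ℕ) : ip (pE σ n0 n1 i) up = 1 ∨ ip (pE σ n0 n1 i) up = 2 := by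
  unfold pE
  split_ifs
  · exact Or.inl (tu_up σ)
  · exact Or.inr up_up

lemma pE_g (i : ℕ) : ip (pE σ n0 n1 i) (turn σ up) = 1 ∨ ip (pE σ n0 n1 i) (turn σ up) = 2 := by
  unfold pE
  split_ifs
  · exact Or.inr (tu_tu σ)
  · exact Or.inl (up_tu σ)

lemma lu_zero : lu σ n0 n1 0 = 0 := by
  unfold lu
  rw [ps_zero]
  decide

lemma lu_mono {i j : ℕ} (h : i ≤ j) : lu σ n0 n1 i + (j - i : ℕ) ≤ lu σ n0 n1 j := by
  induction j, h using Nat.le_induction with
  | base => simp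
  | succ j hj ih =>
    rw [lu_succ, Nat.succ_sub hj]
    push_cast
    rcases @pE_u σ n0 n1 j with h | h <;> linarith

lemma lg_mono {i j : ℕ} (h : i ≤ j) : lg σ n0 n1 i + (j - i : ℕ) ≤ lg σ n0 n1 j := by
  induction j, h using Nat.le_induction with
  | base => simp
  | succ j hj ih =>
    rw [lg_succ, Nat.succ_sub hj]
    push_cast
    rcases @pE_g σ n0 n1 j with h | h <;> linarith

lemma lu_top (m : ℕ) : lu σ n0 n1 (n0 + n1 + m) = lu σ n0 n1 (n0 + n1) + 2 * m := by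
  induction m with
  | zero => simp
  | succ m ih =>
    rw [← add_assoc, lu_succ, ih, pE_top (by omega), up_up]
    push_cast
    ring

lemma lg_mid (m : ℕ) (hm : m ≤ n1) : lg σ n0 n1 (n0 + n1) = lg σ n0 n1 (n0 + n1 - m) + 2 * m := by
  induction m with
  | zero => simp
  | succ m ih =>
    rw [ih (by omega), show n0 + n1 - m = (n0 + n1 - (m + 1)) + 1 by omega, lg_succ, pE_mid (by omega) (by omega), tu_tu]
    push_cast
    ring

lemma lu_one (h : 1 ≤ n1) : lu σ n0 n1 (n0 + n1) = lu σ n0 n1 (n0 + n1 - 1) + 1 := by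
  conv_lhs => rw [show n0 + n1 = (n0 + n1 - 1) + 1 by omega]
  rw [lu_succ, pE_mid (by omega) (by omega), tu_up]

lemma lg_one : lg σ n0 n1 (n0 + n1 + 1) = lg σ n0 n1 (n0 + n1) + 1 := by
  rw [lg_succ, pE_top le_rfl, up_tu]

lemma pv_top (D : ℤ) (m : ℕ) : AR.pv (pE σ n0 n1) D (n0 + n1 + m) = AR.pv (pE σ n0 n1) D (n0 + n1) + (m * D) • up := by
  induction m with
  | zero => simp
  | succ m ih =>
    rw [← add_assoc, AR.pv_succ, ih, pE_top (by omega), add_assoc, ← add_smul]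
    congr 2
    push_cast
    ring

lemma pv_mid (D : ℤ) (m : ℕ) (hm : m ≤ n1) :
    AR.pv (pE σ n0 n1) D (n0 + n1) = AR.pv (pE σ n0 n1) D (n0 + n1 - m) + (m * D) • turn σ up := by
  induction m with
  | zero => simp
  | succ m ih =>
    rw [ih (by omega)]
    have e1 : n0 + n1 - m = (n0 + n1 - (m + 1)) + 1 := by omega
    rw [e1, AR.pv_succ, pE_mid (by omega) (by omega), add_assoc, ← add_smul]
    congr 2
    push_cast
    ring

lemma hn_pv {D : ℤ} (hD : 0 ≤ D) (i : ℕ) : TIW.hn (AR.pv (pE σ n0 n1) D i) ≤ 2 * (i * D) := by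
  induction i with
  | zero =>
    have : AR.pv (pE σ n0 n1) D 0 = 0 := by
      unfold AR.pv
      rw [ps_zero, smul_zero]
    rw [this]
    have h0 : TIW.hn (0 : Pt) = 0 := by decide
    rw [h0]
    simp
  | succ i ih =>
    rw [AR.pv_succ]
    refine (TIW.hn_add _ _).trans ?_
    have h1 : TIW.hn (D • pE σ n0 n1 i) ≤ 2 * D := by
      refine TIW.hn_le fun d hd => ?_
      rw [AR.ip_smul]
      have h2 : pE σ n0 n1 i ∈ dirs := by
        unfold pE
        split_ifs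
        · exact tu_mem σ
        · exact upm
      have h3 := (AR.ip_dirs h2 hd).2
      nlinarith
    push_cast
    linarith

/-- the norm from two coordinates -/
lemma hn_two (σ : Bool) {p : Pt} {a : ℤ} (h1 : |ip p up| ≤ a) (h2 : |ip p (turn σ up)| ≤ a) : TIW.hn p ≤ 2 * a := by
  have ha : 0 ≤ a := (abs_nonneg _).trans h1
  have e1 : ip p (rotR up) = ip p up - ip p (rotL up) := by
    unfold ip rotR rotL up
    simp
    ring
  rw [abs_le] at h1 h2
  unfold TIW.hn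
  have h3 : |ip p (rotL up)| ≤ 2 * a ∧ |ip p (rotR up)| ≤ 2 * a := by
    cases σ
    · have h4 : turn false up = rotR up := rfl
      rw [h4] at h2
      rw [abs_le, abs_le]
      refine ⟨⟨?_, ?_⟩, ?_, ?_⟩ <;> linarith [h1.1, h1.2, h2.1, h2.2]
    · have h4 : turn true up = rotL up := rfl
      rw [h4] at h2
      rw [abs_le, abs_le]
      refine ⟨⟨?_, ?_⟩, ?_, ?_⟩ <;> linarith [h1.1, h1.2, h2.1, h2.2]
  refine max_le ?_ (max_le h3.1 h3.2)
  rw [abs_le]
  constructor <;> linarith [h1.1, h1.2]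

/-- the region of the long piece -/
def Box (σ : Bool) (n0 n1 : ℕ) (D W : ℤ) (y : Pt) : Prop :=
  D * lu σ n0 n1 (n0 + n1) - D - W ≤ ip y up ∧ ip y up ≤ D * lu σ n0 n1 (n0 + n1) + 2 * D + W ∧
  D * lg σ n0 n1 (n0 + n1) - 2 * D - W ≤ ip y (turn σ up) ∧ ip y (turn σ up) ≤ D * lg σ n0 n1 (n0 + n1) + D + W

variable {D w b : ℤ} {N : ℕ} {V : List Bool}

/-- levels from segments -/
lemma up_ge {W : ℤ} (hD : 0 ≤ D) {j p : ℕ} (hj : p ≤ j) {y : Pt} (h : Nr (pE σ n0 n1) D W j y) :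
    D * lu σ n0 n1 p - W ≤ ip y up := by
  have h1 := (nr_ip upm (by rcases @pE_u σ n0 n1 j with h | h <;> omega) h).1
  have h2 := @lu_mono σ n0 n1 p j hj
  have h3 : D * lu σ n0 n1 p ≤ D * lu σ n0 n1 j := mul_le_mul_of_nonneg_left (by
    have : (0 : ℤ) ≤ (j - p : ℕ) := Int.natCast_nonneg _
    linarith) hD
  unfold lu at h3 ⊢
  linarith

lemma up_le {W : ℤ} (hD : 0 ≤ D) {j p : ℕ} (hj : j < p) {y : Pt} (h : Nr (pE σ n0 n1) D W j y) :
    ip y up ≤ D * lu σ n0 n1 p + W := by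
  have h1 := (nr_ip upm (by rcases @pE_u σ n0 n1 j with h | h <;> omega) h).2
  have h2 := @lu_mono σ n0 n1 (j + 1) p hj
  have h3 : D * lu σ n0 n1 (j + 1) ≤ D * lu σ n0 n1 p := mul_le_mul_of_nonneg_left (by
    have : (0 : ℤ) ≤ (p - (j + 1) : ℕ) := Int.natCast_nonneg _
    linarith) hD
  unfold lu at h3 ⊢
  linarith

lemma tu_ge {W : ℤ} (hD : 0 ≤ D) {j p : ℕ} (hj : p ≤ j) {y : Pt} (h : Nr (pE σ n0 n1) D W j y) :
    D * lg σ n0 n1 p - W ≤ ip y (turn σ up) := by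
  have h1 := (nr_ip (tu_mem σ) (by rcases @pE_g σ n0 n1 j with h | h <;> omega) h).1
  have h2 := @lg_mono σ n0 n1 p j hj
  have h3 : D * lg σ n0 n1 p ≤ D * lg σ n0 n1 j := mul_le_mul_of_nonneg_left (by
    have : (0 : ℤ) ≤ (j - p : ℕ) := Int.natCast_nonneg _
    linarith) hD
  unfold lg at h3 ⊢
  linarith

lemma tu_le {W : ℤ} (hD : 0 ≤ D) {j p : ℕ} (hj : j < p) {y : Pt} (h : Nr (pE σ n0 n1) D W j y) :
    ip y (turn σ up) ≤ D * lg σ n0 n1 p + W := by
  have h1 := (nr_ip (tu_mem σ) (by rcases @pE_g σ n0 n1 j with h | h <;> omega) h).2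
  have h2 := @lg_mono σ n0 n1 (j + 1) p hj
  have h3 : D * lg σ n0 n1 (j + 1) ≤ D * lg σ n0 n1 p := mul_le_mul_of_nonneg_left (by
    have : (0 : ℤ) ≤ (p - (j + 1) : ℕ) := Int.natCast_nonneg _
    linarith) hD
  unfold lg at h3 ⊢
  linarith

lemma box_of (hD : 0 ≤ D) (hb : 0 ≤ b) (hn : 1 ≤ n1) {c1 c2 i : ℕ}
    (h1 : NC (pE σ n0 n1) D w b N V (n0 + n1 - 1) c1) (h2 : NC (pE σ n0 n1) D w b N V (n0 + n1 + 1) c2)
    (hi : c1 ≤ i) (hi' : i ≤ c2) : Box σ n0 n1 D (w + b) (vx oo up V i) := by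
  obtain ⟨j, hj, -, hj'⟩ := h1.rg' i hi (hi'.trans h2.le)
  obtain ⟨k, hk, hk'⟩ := h2.rg i hi'
  have a1 := up_ge hD hj hj'
  have a2 := tu_ge hD hj hj'
  have a3 := up_le hD hk hk'
  have a4 := tu_le hD hk hk'
  have b1 : lu σ n0 n1 (n0 + n1) = lu σ n0 n1 (n0 + n1 - 1) + 1 := lu_one hn
  have b2 : lg σ n0 n1 (n0 + n1) = lg σ n0 n1 (n0 + n1 - 1) + 2 * ((1 : ℕ) : ℤ) := lg_mid 1 hn
  have b3 : lu σ n0 n1 (n0 + n1 + 1) = lu σ n0 n1 (n0 + n1) + 2 * ((1 : ℕ) : ℤ) := lu_top 1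
  have b4 : lg σ n0 n1 (n0 + n1 + 1) = lg σ n0 n1 (n0 + n1) + 1 := lg_one
  rw [b3] at a3
  rw [b4] at a4
  push_cast at b2 a3
  refine ⟨?_, ?_, ?_, ?_⟩
  · rw [b1]
    linarith
  · linarith
  · rw [b2]
    linarith
  · linarith

/-- the corner -/
lemma box_corner {W : ℤ} (hD : 0 ≤ D) {y : Pt} (h : Box σ n0 n1 D W y) :
    TIW.hn (y - AR.pv (pE σ n0 n1) D (n0 + n1)) ≤ 2 * (2 * D + W) := by
  obtain ⟨h1, h2, h3, h4⟩ := h
  have e1 : ip (y - AR.pv (pE σ n0 n1) D (n0 + n1)) up = ip y up - D * lu σ n0 n1 (n0 + n1) := by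
    unfold AR.pv lu
    rw [AR.ip_sub_left, AR.ip_smul]
  have e2 : ip (y - AR.pv (pE σ n0 n1) D (n0 + n1)) (turn σ up) = ip y (turn σ up) - D * lg σ n0 n1 (n0 + n1) := by
    unfold AR.pv lg
    rw [AR.ip_sub_left, AR.ip_smul]
  refine hn_two σ ?_ ?_
  · rw [e1, abs_le]
    constructor <;> linarith
  · rw [e2, abs_le]
    constructor <;> linarith

lemma box_box {W : ℤ} {y y' : Pt} (h : Box σ n0 n1 D W y) (h' : Box σ n0 n1 D W y') :
    TIW.hn (y - y') ≤ 2 * (3 * D + 2 * W) := by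
  obtain ⟨h1, h2, h3, h4⟩ := h
  obtain ⟨g1, g2, g3, g4⟩ := h'
  refine hn_two σ ?_ ?_
  · rw [AR.ip_sub_left, abs_le]
    constructor <;> linarith
  · rw [AR.ip_sub_left, abs_le]
    constructor <;> linarith

/-- a multiple in a window -/
lemma ex_mul {D x : ℤ} (hD : 0 < D) : ∃ m : ℤ, x < 2 * D * m ∧ 2 * D * m ≤ x + 2 * D := by
  refine ⟨x / (2 * D) + 1, ?_, ?_⟩
  · have h1 := Int.lt_ediv_add_one_mul_self x (by linarith : 0 < 2 * D)
    linarith
  · have h1 := Int.ediv_mul_le x (by linarith : 2 * D ≠ 0)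
    linarith

/-- **the forward arm** -/
lemma fwArm {K : ℕ} (hb : 0 ≤ b) (hw : 0 ≤ w) (hD : 100 * (w + b) ≤ D) (hD0 : 0 < D) (hn1 : 1 ≤ n1) {n2 : ℕ}
    (hn2 : K + 6 ≤ n2) (hN : N = n0 + n1 + n2) {c1 c2 q : ℕ} (h1 : NC (pE σ n0 n1) D w b N V (n0 + n1 - 1) c1)
    (h2 : NC (pE σ n0 n1) D w b N V (n0 + n1 + 1) c2)
    (hcut : ∀ p, n0 + n1 < p → p < N → ∃ c, NC (pE σ n0 n1) D w b N V p c)
    (hen : TIW.hn (vx oo up V V.length - AR.pv (pE σ n0 n1) D N) ≤ b) (hq1 : c1 < q) (hq2 : q < c2) :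
    Arm K D up (fun i => vx oo up V (q + i) - vx oo up V q) (V.length - q) := by
  have hbq := box_of hD0.le hb hn1 h1 h2 hq1.le hq2.le
  have hle := h2.le
  constructor
  · intro i hi
    rcases Nat.lt_or_ge c2 (q + i) with h3 | h3
    · obtain ⟨j, hj, -, t, ht1, ht2, ht3⟩ := h2.rg' (q + i) h3.le (by omega)
      obtain ⟨m, rfl⟩ : ∃ m, j = n0 + n1 + m := ⟨j - (n0 + n1), by omega⟩
      rw [pv_top, pE_top (by omega)] at ht3
      refine ⟨m * D + t, add_nonneg (mul_nonneg (Int.natCast_nonneg _) hD0.le) ht1, ?_⟩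
      have h4 := box_corner hD0.le hbq
      have e1 : vx oo up V (q + i) - vx oo up V q - (m * D + t) • up =
          (vx oo up V (q + i) - (AR.pv (pE σ n0 n1) D (n0 + n1) + (m * D) • up + t • up)) -
            (vx oo up V q - AR.pv (pE σ n0 n1) D (n0 + n1)) := by
        rw [add_smul]
        abel
      show TIW.hn (vx oo up V (q + i) - vx oo up V q - (m * D + t) • up) ≤ 8 * D
      rw [e1]
      refine (TIW.hn_sub _ _).trans ?_
      linarith
    · have h4 := box_of hD0.le hb hn1 h1 h2 (i := q + i) (by omega) h3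
      refine ⟨0, le_rfl, ?_⟩
      show TIW.hn (vx oo up V (q + i) - vx oo up V q - (0 : ℤ) • up) ≤ 8 * D
      rw [zero_smul, sub_zero]
      have h5 := box_box h4 hbq
      linarith
  · intro y0 hy1 hy2
    obtain ⟨ρ, hρ⟩ : ∃ ρ : ℤ, ρ = ip (vx oo up V q) up - D * lu σ n0 n1 (n0 + n1) := ⟨_, rfl⟩
    have hr1 : -D - (w + b) ≤ ρ := by
      have := hbq.1
      linarith
    have hr2 : ρ ≤ 2 * D + (w + b) := by
      have := hbq.2.1
      linarith
    obtain ⟨m, hm1, hm2⟩ := ex_mul (x := y0 + b + ρ) hD0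
    have hm3 : 3 ≤ m := by
      by_contra hcon
      have h3 : m ≤ 2 := by omega
      nlinarith
    have hm4 : m ≤ K + 3 := by
      by_contra hcon
      have h3 : (K : ℤ) + 4 ≤ m := by omega
      nlinarith
    obtain ⟨m, rfl⟩ : ∃ m' : ℕ, m = m' := ⟨m.toNat, by rw [Int.toNat_of_nonneg (by omega)]⟩
    have hm3' : 3 ≤ m := by exact_mod_cast hm3
    have hm4' : m ≤ K + 3 := by exact_mod_cast hm4
    obtain ⟨c, hc⟩ := hcut (n0 + n1 + m) (by omega) (by omega)
    have hlc := nd_ip upm hc.pos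
    have elu : ip (AR.ps (pE σ n0 n1) (n0 + n1 + m)) up = lu σ n0 n1 (n0 + n1) + 2 * m := lu_top m
    rw [elu] at hlc
    have hDm : D * (lu σ n0 n1 (n0 + n1) + 2 * m) = D * lu σ n0 n1 (n0 + n1) + 2 * D * m := by ring
    rw [hDm] at hlc
    obtain ⟨Lc, hLc⟩ : ∃ Lc, Lc = D * lu σ n0 n1 (n0 + n1) := ⟨_, rfl⟩
    rw [← hLc] at hlc hρ
    -- the cut is behind the long piece
    have hcq : c2 < c := by
      by_contra hcon
      obtain ⟨j, hj, hj'⟩ := h2.rg c (by omega)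
      have a3 := up_le hD0.le hj hj'
      have b3 : lu σ n0 n1 (n0 + n1 + 1) = lu σ n0 n1 (n0 + n1) + 2 * ((1 : ℕ) : ℤ) := lu_top 1
      rw [b3] at a3
      have e3 : D * (lu σ n0 n1 (n0 + n1) + 2 * ((1 : ℕ) : ℤ)) = Lc + 2 * D := by
        rw [hLc]
        push_cast
        ring
      rw [e3] at a3
      have : 2 * D * 3 ≤ 2 * D * (m : ℤ) := mul_le_mul_of_nonneg_left hm3 (by linarith)
      linarith [hlc.1]
    -- the cut is before the end
    have hcV : c < V.length := by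
      refine lt_of_le_of_ne hc.le fun he => ?_
      have h3 := (nd_ip upm hen).1
      rw [← he] at h3
      have e3 : ip (AR.ps (pE σ n0 n1) N) up = lu σ n0 n1 (n0 + n1) + 2 * n2 := by
        rw [hN]
        exact lu_top n2
      rw [e3] at h3
      have e4 : D * (lu σ n0 n1 (n0 + n1) + 2 * n2) = Lc + 2 * D * n2 := by
        rw [hLc]
        ring
      rw [e4] at h3
      have h5 : (K : ℤ) + 6 ≤ n2 := by exact_mod_cast hn2
      have h6 : 2 * D * ((m : ℤ) + 3) ≤ 2 * D * n2 := mul_le_mul_of_nonneg_left (by linarith) (by linarith)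
      linarith [hlc.2]
    have hdir : pE σ n0 n1 (n0 + n1 + m - 1) = up := pE_top (by omega)
    refine ⟨c - q, by omega, ?_, ?_, ?_, fun i hi => ?_, fun i hi hi' => ?_⟩
    · show y0 ≤ ip (vx oo up V (q + (c - q)) - vx oo up V q) up
      rw [show q + (c - q) = c by omega, AR.ip_sub_left]
      linarith [hlc.1]
    · show ip (vx oo up V (q + (c - q)) - vx oo up V q) up ≤ y0 + 8 * D
      rw [show q + (c - q) = c by omega, AR.ip_sub_left]
      linarith [hlc.2]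
    · show vx oo up V (q + (c - q + 1)) - vx oo up V q = vx oo up V (q + (c - q)) - vx oo up V q + up
      rw [show q + (c - q + 1) = c + 1 by omega, show q + (c - q) = c by omega, vx_succ, hc.dir, hdir]
      abel
    · show ip (vx oo up V (q + i) - vx oo up V q) up ≤ ip (vx oo up V (q + (c - q)) - vx oo up V q) up
      rw [show q + (c - q) = c by omega, AR.ip_sub_left, AR.ip_sub_left]
      rcases hc.bd (q + i) (by omega) with g | ⟨j, g1, g2⟩
      · rw [hdir] at g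
        linarith
      · have a3 := up_le hD0.le (show j < n0 + n1 + (m - 1) by omega) g2
        have b3 : lu σ n0 n1 (n0 + n1 + (m - 1)) = lu σ n0 n1 (n0 + n1) + 2 * ((m - 1 : ℕ) : ℤ) := lu_top _
        rw [b3] at a3
        have e3 : D * (lu σ n0 n1 (n0 + n1) + 2 * ((m - 1 : ℕ) : ℤ)) = Lc + 2 * D * m - 2 * D := by
          rw [hLc, Nat.cast_sub (by omega)]
          push_cast
          ring
        rw [e3] at a3
        linarith [hlc.1]
    · show ip (vx oo up V (q + (c - q)) - vx oo up V q) up < ip (vx oo up V (q + i) - vx oo up V q) up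
      rw [show q + (c - q) = c by omega, AR.ip_sub_left, AR.ip_sub_left]
      rcases hc.st (q + i) (by omega) (by omega) with g | ⟨j, g1, -, g2⟩
      · rw [hdir] at g
        linarith
      · have a3 := up_ge hD0.le (show n0 + n1 + (m + 1) ≤ j by omega) g2
        have b3 : lu σ n0 n1 (n0 + n1 + (m + 1)) = lu σ n0 n1 (n0 + n1) + 2 * ((m + 1 : ℕ) : ℤ) := lu_top _
        rw [b3] at a3
        have e3 : D * (lu σ n0 n1 (n0 + n1) + 2 * ((m + 1 : ℕ) : ℤ)) = Lc + 2 * D * m + 2 * D := by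
          rw [hLc]
          push_cast
          ring
        rw [e3] at a3
        linarith [hlc.2]

/-- **the backward arm** -/
lemma bkArm {K : ℕ} (hb : 0 ≤ b) (hw : 0 ≤ w) (hD : 100 * (w + b) ≤ D) (hD0 : 100 ≤ D) (hn1 : K + 6 ≤ n1)
    {c1 c2 q : ℕ} (h1 : NC (pE σ n0 n1) D w b N V (n0 + n1 - 1) c1) (h2 : NC (pE σ n0 n1) D w b N V (n0 + n1 + 1) c2)
    (hcut : ∀ p, n0 < p → p < n0 + n1 → ∃ c, NC (pE σ n0 n1) D w b N V p c) (hq1 : c1 < q) (hq2 : q < c2) :
    ∃ t, t ≤ q ∧ Arm K D (-turn σ up) (fun i => vx oo up V (q - i) - vx oo up V q) t ∧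
      ∀ j, j < q - t → K * D ≤ TIW.hn (vx oo up V j - vx oo up V q) := by
  have hD1 : 0 < D := by linarith
  have hbq := box_of hD1.le hb (by omega) h1 h2 hq1.le hq2.le
  have hle := h2.le
  obtain ⟨Lc, hLc⟩ : ∃ Lc, Lc = D * lg σ n0 n1 (n0 + n1) := ⟨_, rfl⟩
  obtain ⟨ρ, hρ⟩ : ∃ ρ : ℤ, ρ = ip (vx oo up V q) (turn σ up) - Lc := ⟨_, rfl⟩
  have hr1 : -(2 * D) - (w + b) ≤ ρ := by
    have := hbq.2.2.1
    linarith
  have hr2 : ρ ≤ D + (w + b) := by
    have := hbq.2.2.2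
    linarith
  -- levels of the nodes of the second leg
  have hlv : ∀ m : ℕ, m ≤ n1 → D * lg σ n0 n1 (n0 + n1 - m) = Lc - 2 * D * m := by
    intro m hm
    have h3 := @lg_mid σ n0 n1 m hm
    rw [hLc, h3]
    ring
  have hcl : ∀ m c : ℕ, m ≤ n1 → NC (pE σ n0 n1) D w b N V (n0 + n1 - m) c →
      Lc - 2 * D * m - b ≤ ip (vx oo up V c) (turn σ up) ∧ ip (vx oo up V c) (turn σ up) ≤ Lc - 2 * D * m + b := by
    intro m c hm hc
    have h3 := nd_ip (tu_mem σ) hc.pos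
    have e3 : D * ip (AR.ps (pE σ n0 n1) (n0 + n1 - m)) (turn σ up) = Lc - 2 * D * m := hlv m hm
    rw [e3] at h3
    exact h3
  obtain ⟨cN, hcN⟩ := hcut (n0 + 1) (by omega) (by omega)
  have hcN' : NC (pE σ n0 n1) D w b N V (n0 + n1 - (n1 - 1)) cN := by
    rw [show n0 + n1 - (n1 - 1) = n0 + 1 by omega]
    exact hcN
  have hlN := hcl (n1 - 1) cN (by omega) hcN'
  -- after c1 the levels are large
  have haft : ∀ i, c1 ≤ i → i ≤ V.length → Lc - 2 * D - (w + b) ≤ ip (vx oo up V i) (turn σ up) := by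
    intro i hi hi'
    obtain ⟨j, hj, -, hj'⟩ := h1.rg' i hi hi'
    have a3 := tu_ge hD1.le hj hj'
    rw [hlv 1 (by omega)] at a3
    push_cast at a3
    linarith
  have hKn : (K : ℤ) + 6 ≤ n1 := by exact_mod_cast hn1
  have hcN1 : cN ≤ c1 := by
    by_contra hcon
    have h3 := haft cN (by omega) hcN.le
    have h4 : 2 * D * 5 ≤ 2 * D * ((n1 - 1 : ℕ) : ℤ) := by
      refine mul_le_mul_of_nonneg_left ?_ (by linarith)
      have : 5 ≤ n1 - 1 := by omega
      exact_mod_cast this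
    linarith [hlN.2]
  refine ⟨q - cN, by omega, ⟨fun i hi => ?_, fun y0 hy1 hy2 => ?_⟩, fun j hj => ?_⟩
  · rcases Nat.lt_or_ge (q - i) c1 with h3 | h3
    · obtain ⟨j, hj, -, hj'⟩ := hcN.rg' (q - i) (by omega) (by omega)
      have hjn : j < n0 + n1 := by
        by_contra hcon
        have a3 := up_ge hD1.le (by omega : n0 + n1 ≤ j) hj'
        obtain ⟨j', hk, hk'⟩ := h1.rg (q - i) h3.le
        have a4 := up_le hD1.le hk hk'
        have b1 : lu σ n0 n1 (n0 + n1) = lu σ n0 n1 (n0 + n1 - 1) + 1 := lu_one (by omega)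
        rw [b1] at a3
        linarith
      obtain ⟨t, ht1, ht2, ht3⟩ := hj'
      rw [pE_mid (by omega) hjn] at ht3
      have e2 := @pv_mid σ n0 n1 D (n0 + n1 - j) (by omega)
      rw [show n0 + n1 - (n0 + n1 - j) = j by omega] at e2
      have hnj : (1 : ℤ) ≤ ((n0 + n1 - j : ℕ) : ℤ) := by
        have : 1 ≤ n0 + n1 - j := by omega
        exact_mod_cast this
      refine ⟨((n0 + n1 - j : ℕ) : ℤ) * D - t, by nlinarith, ?_⟩
      have h4 := box_corner hD1.le hbq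
      have e1 : vx oo up V (q - i) - vx oo up V q - (((n0 + n1 - j : ℕ) : ℤ) * D - t) • (-turn σ up) =
          (vx oo up V (q - i) - (AR.pv (pE σ n0 n1) D j + t • turn σ up)) -
            (vx oo up V q - AR.pv (pE σ n0 n1) D (n0 + n1)) := by
        rw [e2, smul_neg, sub_smul]
        abel
      show TIW.hn (vx oo up V (q - i) - vx oo up V q - (((n0 + n1 - j : ℕ) : ℤ) * D - t) • (-turn σ up)) ≤ 8 * D
      rw [e1]
      refine (TIW.hn_sub _ _).trans ?_
      linarith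
    · have h4 := box_of hD1.le hb (by omega) h1 h2 (i := q - i) h3 (by omega)
      refine ⟨0, le_rfl, ?_⟩
      show TIW.hn (vx oo up V (q - i) - vx oo up V q - (0 : ℤ) • (-turn σ up)) ≤ 8 * D
      rw [zero_smul, sub_zero]
      have h5 := box_box h4 hbq
      linarith
  · obtain ⟨m, hm1, hm2⟩ := ex_mul (x := y0 + b + 2 - ρ) hD1
    have hm3 : 3 ≤ m := by
      by_contra hcon
      have h3 : m ≤ 2 := by omega
      nlinarith
    have hm4 : m ≤ K + 3 := by
      by_contra hcon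
      have h3 : (K : ℤ) + 4 ≤ m := by omega
      nlinarith
    obtain ⟨m, rfl⟩ : ∃ m' : ℕ, m = m' := ⟨m.toNat, by rw [Int.toNat_of_nonneg (by omega)]⟩
    have hm3' : 3 ≤ m := by exact_mod_cast hm3
    have hm4' : m ≤ K + 3 := by exact_mod_cast hm4
    obtain ⟨c, hc⟩ := hcut (n0 + n1 - m) (by omega) (by omega)
    have hlc := hcl m c (by omega) hc
    have hdm : 2 * D * 3 ≤ 2 * D * (m : ℤ) := mul_le_mul_of_nonneg_left hm3 (by linarith)
    have hcq : c < c1 := by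
      by_contra hcon
      have h3 := haft c (by omega) hc.le
      linarith [hlc.2]
    have hcN2 : cN ≤ c := by
      by_contra hcon
      obtain ⟨j, hj, hj'⟩ := hcN.rg c (by omega)
      have a3 := tu_le hD1.le hj hj'
      have e3 := hlv (n1 - 1) (by omega)
      rw [show n0 + n1 - (n1 - 1) = n0 + 1 by omega] at e3
      rw [e3] at a3
      have h4 : 2 * D * ((m : ℤ) + 2) ≤ 2 * D * ((n1 - 1 : ℕ) : ℤ) := by
        refine mul_le_mul_of_nonneg_left ?_ (by linarith)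
        have : m + 2 ≤ n1 - 1 := by omega
        exact_mod_cast this
      linarith [hlc.1]
    have hdir : pE σ n0 n1 (n0 + n1 - m - 1) = turn σ up := pE_mid (by omega) (by omega)
    have hv1 : vx oo up V (c + 1) = vx oo up V c + turn σ up := by rw [vx_succ, hc.dir, hdir]
    have hneg : ∀ y : Pt, ip y (-turn σ up) = -ip y (turn σ up) := fun y => ip_neg_right _ _
    have hlv1 : ip (vx oo up V (c + 1)) (turn σ up) = ip (vx oo up V c) (turn σ up) + 2 := by
      rw [hv1, ip_add_left, tu_tu]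
    refine ⟨q - (c + 1), by omega, ?_, ?_, ?_, fun i hi => ?_, fun i hi hi' => ?_⟩
    · show y0 ≤ ip (vx oo up V (q - (q - (c + 1))) - vx oo up V q) (-turn σ up)
      rw [show q - (q - (c + 1)) = c + 1 by omega, hneg, AR.ip_sub_left, hlv1]
      linarith [hlc.2]
    · show ip (vx oo up V (q - (q - (c + 1))) - vx oo up V q) (-turn σ up) ≤ y0 + 8 * D
      rw [show q - (q - (c + 1)) = c + 1 by omega, hneg, AR.ip_sub_left, hlv1]
      linarith [hlc.1]
    · show vx oo up V (q - (q - (c + 1) + 1)) - vx oo up V q = vx oo up V (q - (q - (c + 1))) - vx oo up V q + -turn σ up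
      rw [show q - (q - (c + 1) + 1) = c by omega, show q - (q - (c + 1)) = c + 1 by omega, hv1]
      abel
    · show ip (vx oo up V (q - i) - vx oo up V q) (-turn σ up) ≤
        ip (vx oo up V (q - (q - (c + 1))) - vx oo up V q) (-turn σ up)
      rw [show q - (q - (c + 1)) = c + 1 by omega, hneg, hneg, AR.ip_sub_left, AR.ip_sub_left, hlv1]
      rcases hc.st (q - i) (by omega) (by omega) with g | ⟨j, g1, -, g2⟩
      · rw [hdir] at g
        linarith
      · have a3 := tu_ge hD1.le (show n0 + n1 - (m - 1) ≤ j by omega) g2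
        rw [hlv (m - 1) (by omega), Nat.cast_sub (by omega)] at a3
        push_cast at a3
        have e3 : Lc - 2 * D * ((m : ℤ) - 1) = Lc - 2 * D * m + 2 * D := by ring
        rw [e3] at a3
        linarith [hlc.2]
    · show ip (vx oo up V (q - (q - (c + 1))) - vx oo up V q) (-turn σ up) <
        ip (vx oo up V (q - i) - vx oo up V q) (-turn σ up)
      rw [show q - (q - (c + 1)) = c + 1 by omega, hneg, hneg, AR.ip_sub_left, AR.ip_sub_left, hlv1]
      rcases hc.bd (q - i) (by omega) with g | ⟨j, g1, g2⟩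
      · rw [hdir] at g
        linarith
      · have a3 := tu_le hD1.le (show j < n0 + n1 - (m + 1) by omega) g2
        rw [hlv (m + 1) (by omega)] at a3
        push_cast at a3
        have e3 : Lc - 2 * D * ((m : ℤ) + 1) = Lc - 2 * D * m - 2 * D := by ring
        rw [e3] at a3
        linarith [hlc.1]
  · obtain ⟨j', hj1, hj2⟩ := hcN.rg j (by omega)
    have a3 := tu_le hD1.le hj1 hj2
    have e3 := hlv (n1 - 1) (by omega)
    rw [show n0 + n1 - (n1 - 1) = n0 + 1 by omega] at e3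
    rw [e3] at a3
    have h4 : 2 * D * ((K : ℤ) + 5) ≤ 2 * D * ((n1 - 1 : ℕ) : ℤ) := by
      refine mul_le_mul_of_nonneg_left ?_ (by linarith)
      have : K + 5 ≤ n1 - 1 := by omega
      exact_mod_cast this
    have h5 := TIW.ip_le_hn (vx oo up V q - vx oo up V j) (tu_mem σ)
    rw [AR.ip_sub_left, TIW.hn_sub_comm] at h5
    have h6 : (K : ℤ) * D ≤ 2 * D * K := by
      have : (0 : ℤ) ≤ D * K := mul_nonneg hD1.le (Int.natCast_nonneg _)
      linarith
    linarith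

/-- **the local word at a root** -/
structure LocR (K : ℕ) (D : ℤ) (σ : Bool) (N : ℕ) (V : List Bool) (q : ℕ) : Prop where
  hq : q ≤ V.length
  fw : Arm K D up (fun i => vx oo up V (q + i) - vx oo up V q) (V.length - q)
  bk : ∃ t, t ≤ q ∧ Arm K D (-turn σ up) (fun i => vx oo up V (q - i) - vx oo up V q) t ∧
    ∀ j, j < q - t → K * D ≤ TIW.hn (vx oo up V j - vx oo up V q)
  lo : K * D ≤ ip (vx oo up V q) up
  hi : K * D ≤ ip (TIW.en V - vx oo up V q) up
  sz : TIW.hn (vx oo up V q) ≤ 2 * (N * D)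

/-- **the two arms of a local word** -/
theorem vg_loc {K n2 l : ℕ} {κ A : ℝ} (hV : VG σ n0 n1 n2 D l κ A V) (hD : 2 ^ (l + 17) ≤ D) (hn1 : K + 6 ≤ n1)
    (hn2 : K + 6 ≤ n2) : ∃ c1 c2 : ℕ, c1 ≤ c2 ∧ c2 ≤ V.length ∧ κ * ml l ≤ ((c2 - c1 : ℕ) : ℝ) ∧
      ∀ q, c1 < q → q < c2 → LocR K D σ (n0 + n1 + n2) V q := by
  obtain ⟨X, Z, Y, e1, e2, e3, e4⟩ := hV.root
  have h0 : (0 : ℤ) < 2 ^ l := by positivity
  have p1 : (2 : ℤ) ^ (l + 10) = 1024 * 2 ^ l := by ring
  have p2 : (2 : ℤ) ^ (l + 17) = 131072 * 2 ^ l := by ring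
  have hb : (0 : ℤ) ≤ 2 ^ l := h0.le
  have hw : (0 : ℤ) ≤ 2 ^ (l + 10) := by positivity
  have hW : 100 * ((2 : ℤ) ^ (l + 10) + 2 ^ l) ≤ D := by linarith
  have h1 : (1 : ℤ) ≤ 2 ^ l := one_le_pow₀ (by norm_num)
  have hD0 : 100 ≤ D := by linarith
  have hD1 : 0 < D := by linarith
  have k1 : NC (pE σ n0 n1) D (2 ^ (l + 10)) (2 ^ l) (n0 + n1 + n2) V (n0 + n1 - 1) X.length := by
    rw [e1]
    exact nc_of (by omega) e3
  have k2 : NC (pE σ n0 n1) D (2 ^ (l + 10)) (2 ^ l) (n0 + n1 + n2) V (n0 + n1 + 1) (X ++ Z).length := by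
    rw [e1, ← List.append_assoc]
    exact nc_of (by omega) e4
  have hcut : ∀ p, (n0 < p ∧ p < n0 + n1) ∨ (n0 + n1 < p ∧ p < n0 + n1 + n2) →
      ∃ c, NC (pE σ n0 n1) D (2 ^ (l + 10)) (2 ^ l) (n0 + n1 + n2) V p c := by
    intro p hp
    obtain ⟨X', Y', g1, g2⟩ := hV.cut p hp
    refine ⟨X'.length, ?_⟩
    rw [g1]
    exact nc_of (by omega) g2
  refine ⟨X.length, (X ++ Z).length, by rw [List.length_append]; omega, k2.le, ?_, fun q hq1 hq2 => ?_⟩
  · have e5 : (X ++ Z).length - X.length = Z.length := by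
      rw [List.length_append]
      omega
    rw [e5]
    exact e2
  have hbq := box_of hD1.le hb (by omega) k1 k2 hq1.le hq2.le
  have hKn1 : (K : ℤ) + 6 ≤ n1 := by exact_mod_cast hn1
  have hKn2 : (K : ℤ) + 6 ≤ n2 := by exact_mod_cast hn2
  have hKD : 0 ≤ (K : ℤ) * D := mul_nonneg (Int.natCast_nonneg _) hD1.le
  refine ⟨by have := k2.le; omega, ?_, ?_, ?_, ?_, ?_⟩
  · exact fwArm hb hw hW hD1 (by omega) hn2 rfl k1 k2 (fun p hp1 hp2 => hcut p (Or.inr ⟨hp1, hp2⟩)) hV.pos hq1 hq2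
  · exact bkArm hb hw hW hD0 hn1 k1 k2 (fun p hp1 hp2 => hcut p (Or.inl ⟨hp1, hp2⟩)) hq1 hq2
  · have h3 := @lu_mono σ n0 n1 0 (n0 + n1) (Nat.zero_le _)
    rw [lu_zero, Nat.sub_zero] at h3
    push_cast at h3
    have h4 : D * (K + 6 : ℤ) ≤ D * lu σ n0 n1 (n0 + n1) := mul_le_mul_of_nonneg_left (by
      have : (0 : ℤ) ≤ n0 := Int.natCast_nonneg _
      linarith) hD1.le
    have h5 := hbq.1
    linarith
  · have h3 := (nd_ip upm hV.pos).1
    have e6 : ip (AR.ps (pE σ n0 n1) (n0 + n1 + n2)) up = lu σ n0 n1 (n0 + n1) + 2 * n2 := lu_top n2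
    rw [e6] at h3
    have h4 : D * (K + 6 : ℤ) ≤ D * n2 := mul_le_mul_of_nonneg_left hKn2 hD1.le
    have h5 := hbq.2.1
    rw [AR.ip_sub_left]
    linarith
  · have h3 := box_corner hD1.le hbq
    have h4 := @hn_pv σ n0 n1 D hD1.le (n0 + n1)
    have e7 : vx oo up V q = (vx oo up V q - AR.pv (pE σ n0 n1) D (n0 + n1)) + AR.pv (pE σ n0 n1) D (n0 + n1) := by abel
    rw [e7]
    refine (TIW.hn_add _ _).trans ?_
    have h5 : D * (6 : ℤ) ≤ D * n2 := mul_le_mul_of_nonneg_left (by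
      have : (0 : ℤ) ≤ K := Int.natCast_nonneg _
      linarith) hD1.le
    push_cast at h4 ⊢
    linarith

end path

end N1

end ART

end HexObs
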