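import Pool.Agent.ROT.F3N1a
import Pool.Agent.ROT.F3TubeL

/-!
# ROT, F3, row N1b (helper79): tubes that close a placed word, with a local word near the last but one node

* `Vb`, `vb_of`: the local words of `VG` are bridges in a box;
* `stepV`, `vb_tube`: local word, then a straight tube with the exact end = a one step tube of the coarse mesh;
* `RQ3`, `RTS3`: the literal of F3N1Defs with `3 * 2 ^ k` at the end of P;
* **`rts3_of : 1 ≤ n2 → VStrS n0 n1 n2 → RTS3 n0 n1 n2`**, **`rts3`** (with `vstrS` of helper39).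
-/

set_option autoImplicit false

namespace HexObs

namespace ART

namespace N1

open Finset TIW TS SDN ARM ARM.G3

open scoped ENNReal

/-! ### 1. The local path -/

private lemma pE_ip79 (σ : Bool) (n0 n1 i : ℕ) : 1 ≤ ip (pE σ n0 n1 i) up ∧ pE σ n0 n1 i ∈ dirs := by
  unfold pE
  split_ifs
  · revert σ
    decide
  · decide

private lemma hn_smul79 {d : Pt} (hd : d ∈ dirs) {t : ℤ} (ht : 0 ≤ t) : hn (t • d) ≤ 2 * t := by
  refine hn_le fun e he => ?_
  rw [AR.ip_smul]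
  have key : ∀ d ∈ dirs, ∀ e ∈ dirs, ip d e ≤ 2 := by decide
  have h := mul_le_mul_of_nonneg_left (key d hd e he) ht
  linarith

private lemma pv_zero79 (e : ℕ → Pt) (d : ℤ) : AR.pv e d 0 = 0 := by
  unfold AR.pv
  rw [ps_zero, smul_zero]

private lemma pv_up79 {e : ℕ → Pt} {d : ℤ} (hd : 0 ≤ d) (he : ∀ i, 1 ≤ ip (e i) up) (i j : ℕ) :
    ip (AR.pv e d i) up + j * d ≤ ip (AR.pv e d (i + j)) up := by
  induction j with
  | zero => simp
  | succ j ih =>
    rw [← add_assoc, AR.pv_succ, ip_add_left, AR.ip_smul]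
    have h := mul_le_mul_of_nonneg_left (he (i + j)) hd
    push_cast
    linarith

private lemma pv_hn79 {e : ℕ → Pt} {d : ℤ} (hd : 0 ≤ d) (he : ∀ i, e i ∈ dirs) (j : ℕ) : hn (AR.pv e d j) ≤ 2 * (j * d) := by
  induction j with
  | zero =>
    rw [pv_zero79]
    simp only [Nat.cast_zero, zero_mul, mul_zero]
    decide
  | succ j ih =>
    rw [AR.pv_succ]
    have h1 := hn_add (AR.pv e d j) (d • e j)
    have h2 := hn_smul79 (he j) hd
    push_cast
    linarith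

/-- a bridge in a box -/
private structure Vb (b : ℤ) (V : List Bool) : Prop where
  sa : V ∈ SA
  de : de V = up
  lo : ∀ i, 1 ≤ i → i ≤ V.length → 0 < ip (vx oo up V i) up
  hi : ∀ i, i ≤ V.length → ip (vx oo up V i) up ≤ ip (en V) up
  bx : ∀ i, i ≤ V.length → hn (vx oo up V i) ≤ b

private lemma vb_of {σ : Bool} {n0 n1 n2 l : ℕ} {d : ℤ} {κ A : ℝ} {V : List Bool} (h : VG σ n0 n1 n2 d l κ A V) (h2 : 1 ≤ n2)
    (hd : 2 ^ (l + 10) + 2 ^ l < d) : Vb (2 * ((n0 + n1 + n2 : ℕ) * d) + 2 ^ (l + 10)) V := by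
  obtain ⟨e, he⟩ : ∃ e, e = pE σ n0 n1 := ⟨_, rfl⟩
  have hT := h.tub
  have hpos := h.pos
  rw [← he] at hT hpos
  have h0 : (0 : ℤ) < 2 ^ l := by positivity
  have h0' : (0 : ℤ) < 2 ^ (l + 10) := by positivity
  have hd0 : 0 ≤ d := by linarith
  have e1 : ∀ i, 1 ≤ ip (e i) up := fun i => by rw [he]; exact (pE_ip79 σ n0 n1 i).1
  have e2 : ∀ i, e i ∈ dirs := fun i => by rw [he]; exact (pE_ip79 σ n0 n1 i).2
  have e3 : e (n0 + n1 + n2 - 1) = up := by
    rw [he]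
    unfold pE
    rw [if_neg (by omega)]
  obtain ⟨m, hm⟩ : ∃ m, m = n0 + n1 + n2 := ⟨_, rfl⟩
  rw [← hm] at hT hpos e3 ⊢
  have hm1 : 1 ≤ m := by omega
  have hnd : ip (AR.pv e d m) up = ip (AR.pv e d (m - 1)) up + 2 * d := by
    have h3 := AR.pv_succ e d (m - 1)
    rw [Nat.sub_add_cancel hm1, e3] at h3
    rw [h3, ip_add_left, AR.ip_smul]
    have : ip up up = 2 := by decide
    rw [this]
    ring
  have hen : ip (AR.pv e d m) up - 2 ^ l ≤ ip (en V) up := by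
    have h3 := neg_hn_le_ip (en V - AR.pv e d m) (d := up) (by decide)
    rw [ip_sub_left] at h3
    linarith
  refine ⟨hT.sa, hT.de.trans e3, fun i hi1 hi => ?_, fun i hi => ?_, fun i hi => ?_⟩
  · rcases hT.st i hi1 hi with g | ⟨j, g1, g2, t, g3, g4, g5⟩
    · exact g
    · have h3 := neg_hn_le_ip (vx oo up V i - (AR.pv e d j + t • e j)) (d := up) (by decide)
      rw [ip_sub_left, ip_add_left, AR.ip_smul] at h3
      have h4 := pv_up79 hd0 e1 0 j
      rw [pv_zero79, zero_add] at h4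
      have h5 : ip (0 : Pt) up = 0 := by decide
      rw [h5] at h4
      have h6 : d ≤ (j : ℤ) * d := le_mul_of_one_le_left hd0 (by exact_mod_cast g1)
      have h7 : 0 ≤ t * ip (e j) up := mul_nonneg g3 (by linarith [e1 j])
      linarith
  · rcases hT.bd i hi with g | ⟨j, g1, t, g3, g4, g5⟩
    · rw [e3, ip_sub_left] at g
      linarith
    · have h3 := ip_le_hn (vx oo up V i - (AR.pv e d j + t • e j)) (d := up) (by decide)
      rw [ip_sub_left, ip_add_left, AR.ip_smul] at h3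
      have h4 : ip (AR.pv e d j) up + t * ip (e j) up ≤ ip (AR.pv e d (j + 1)) up := by
        rw [AR.pv_succ, ip_add_left, AR.ip_smul]
        have := mul_le_mul_of_nonneg_right g4 (show 0 ≤ ip (e j) up by linarith [e1 j])
        linarith
      have h5 : ip (AR.pv e d (j + 1)) up ≤ ip (AR.pv e d (m - 1)) up := by
        obtain ⟨q, hq⟩ : ∃ q, m - 1 = j + 1 + q := ⟨m - 1 - (j + 1), by omega⟩
        rw [hq]
        have h6 := pv_up79 hd0 e1 (j + 1) q
        have h7 : 0 ≤ (q : ℤ) * d := by positivity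
        linarith
      linarith
  · obtain ⟨j, g1, t, g3, g4, g5⟩ := hT.rg i hi
    have h3 : vx oo up V i = (vx oo up V i - (AR.pv e d j + t • e j)) + (AR.pv e d j + t • e j) := by abel
    rw [h3]
    have h4 := hn_add (vx oo up V i - (AR.pv e d j + t • e j)) (AR.pv e d j + t • e j)
    have h5 := hn_add (AR.pv e d j) (t • e j)
    have h6 := pv_hn79 hd0 e2 j
    have h7 := hn_smul79 (e2 j) g3
    have h8 : ((j : ℤ) + 1) * d ≤ (m : ℤ) * d := mul_le_mul_of_nonneg_right (by exact_mod_cast g1) hd0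
    linarith

/-! ### 2. One gluing -/

/-- bridges near c, then words whose vertices are in front of their start -/
private lemma stepV {SV : Set (List Bool)} {VV : List Bool → Set (List Bool)} {b : ℤ} {c : Pt} {n : ℕ} {x u K : ℝ}
    (hV : ∀ V ∈ SV, Vb b V ∧ hn (en V - c) ≤ n)
    (hB : ∀ V ∈ SV, ∀ B ∈ VV V, B ∈ SA ∧ ∀ i, 1 ≤ i → i ≤ B.length → 0 < ip (vx oo up B i) up)
    (hK : 0 < K) (hx : 0 ≤ x) (hu : 0 ≤ u) (h1 : ENNReal.ofReal (x * K) ≤ gf SV)
    (h2 : ∀ V ∈ SV, ENNReal.ofReal u ≤ gf (VV V)) (hn : UU n ≤ K) : ENNReal.ofReal (x * u) ≤ gf (AR.Pr SV VV) := by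
  have h3 : gf SV * ENNReal.ofReal u ≤ gf (AR.Df SV BU) * gf (AR.Pr SV VV) := by
    refine AR.glueM TIP.FreeA.BU_nil (fun _ h _ h' => TIP.FreeA.BU_app h h') h2 fun A hA1 A' hA2 V hV1 V' hV2 he hl => ?_
    obtain ⟨Z, rfl⟩ : ∃ Z, A' = A ++ Z := by
      have h1 : A <+: A' ++ V' := ⟨V, he⟩
      have h2 : A' <+: A' ++ V' := List.prefix_append _ _
      obtain ⟨Z, hZ⟩ := List.prefix_of_prefix_length_le h1 h2 hl
      exact ⟨Z, hZ.symm⟩
    rw [List.append_assoc] at he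
    have he' := List.append_cancel_left he
    obtain ⟨b1, b2⟩ := hB A hA1 V hV1
    rw [he'] at b1 b2
    have a1 := (hV A hA1).1
    have a2 := (hV _ hA2).1
    have hde : de Z = up := AR.dir_same (A := A) (by rw [a1.de, a2.de])
    have e0 : ∀ j, j ≤ Z.length → vx oo up (Z ++ V') j = vx oo up Z j := fun j hj => vx_append (by omega)
    have hlen : (Z ++ V').length = Z.length + V'.length := List.length_append
    have hlen' : (A ++ Z).length = A.length + Z.length := List.length_append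
    have hip : ∀ y : Pt, ip (mulE (rt A) y) up = ip y up := fun y => by
      have h4 := AR.ip_rt A y
      rwa [a1.de] at h4
    refine ⟨Z, (AR.bu_of ?_ hde (fun j hj1 hj2 => ?_) fun j hj => ?_).1, rfl⟩
    · exact ⟨fun _ _ _ => Set.mem_univ _, fun a c hac hc he => b1.inj a c hac (by omega) (by
        rw [e0 a (by omega), e0 c hc]
        exact he)⟩
    · have h4 := b2 j hj1 (by omega)
      rwa [e0 j hj2] at h4
    · have h4 := a2.hi (A.length + j) (by omega)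
      rw [vx_app, en_app, ip_add_left, ip_add_left, hip, hip] at h4
      linarith
  exact AR.of_step hK hx hu h3 h1 le_rfl ((AR.df_mass (d := up) (c := c)
    fun A hA' => ⟨(hV A hA').1.de, (hV A hA').2⟩).trans (ENNReal.ofReal_le_ofReal hn)) le_rfl

/-- **local word, then a straight tube: a one step tube** -/
private lemma vb_tube {e' : ℕ → Pt} {D w b : ℤ} {z : Pt} {V B : List Bool} (h0 : e' 0 = up) (hV : Vb b V)
    (hB : TubeQ (fun _ => up) D w 1 (AR.tg V z) B) (hD : 0 ≤ D) (hw : 0 ≤ w) : TubeQ e' D (w + b) 1 z (V ++ B) := by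
  have hlen : (V ++ B).length = V.length + B.length := List.length_append
  have hip : ∀ y : Pt, ip (mulE (rt V) y) up = ip y up := fun y => by
    have h4 := AR.ip_rt V y
    rwa [hV.de] at h4
  have hru : mulE (rt V) up = up := by rw [rt_up, hV.de]
  have hz : en V + mulE (rt V) (AR.tg V z) = z := AR.rt_tg V z
  have hpos : ∀ q, 1 ≤ q → q ≤ B.length → 0 < ip (vx oo up B q) up := fun q h1 h2 => by
    rcases hB.st q h1 h2 with g | ⟨j, g1, g2, -⟩
    · exact g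
    · omega
  have hen0 : 0 ≤ ip (en V) up := by
    have h1 := hV.hi 0 (Nat.zero_le _)
    have h2 : ip (vx oo up V 0) up = 0 := lev_zero V
    linarith
  have hbd : ∀ q, q ≤ B.length → ip (vx oo up B q - AR.tg V z) up ≤ 0 := fun q h1 => by
    rcases hB.bd q h1 with g | ⟨j, g1, -⟩
    · exact g
    · omega
  have htg : 0 ≤ ip (AR.tg V z) up := by
    have h1 := hbd 0 (Nat.zero_le _)
    rw [ip_sub_left] at h1
    have h2 : ip (vx oo up B 0) up = 0 := lev_zero B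
    linarith
  have hvx : ∀ q, vx oo up (V ++ B) (V.length + q) = en V + mulE (rt V) (vx oo up B q) := fun q => vx_app V B q
  refine ⟨AR.sa_app hV.sa hB.sa fun k hk q hq1 hq2 he => ?_, ?_, ?_, ?_, ?_, ?_⟩
  · have h1 := hV.hi k hk
    rw [he, ip_add_left, hip] at h1
    linarith [hpos q hq1 hq2]
  · rw [en_app, hB.en, hz]
  · rw [de_app, hB.de, hru, h0]
  · intro i hi
    refine ⟨0, by omega, ?_⟩
    unfold Nr
    rw [pv_zero79, h0]
    rcases Nat.lt_or_ge V.length i with h1 | h1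
    · obtain ⟨q, rfl⟩ : ∃ q, i = V.length + q := ⟨i - V.length, by omega⟩
      obtain ⟨j, g1, t, g3, g4, g5⟩ := hB.rg q (by omega)
      have hj : j = 0 := by omega
      subst hj
      rw [pv_zero79] at g5
      refine ⟨t, g3, g4, ?_⟩
      rw [hvx]
      have e1 : en V + mulE (rt V) (vx oo up B q) - (0 + t • up) = en V + mulE (rt V) (vx oo up B q - (0 + t • up)) := by
        rw [mulE_sub, mulE_add, mulE_zero, mulE_smul, hru]
        abel
      rw [e1]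
      have h2 := hn_add (en V) (mulE (rt V) (vx oo up B q - (0 + t • up)))
      rw [hn_mulE (nrm_rt V)] at h2
      have h3 := hV.bx V.length le_rfl
      have h4 : vx oo up V V.length = en V := rfl
      rw [h4] at h3
      linarith
    · refine ⟨0, le_rfl, hD, ?_⟩
      rw [vx_append (by omega), zero_smul, add_zero, sub_zero]
      linarith [hV.bx i h1]
  · intro i hi1 hi
    left
    rcases Nat.lt_or_ge V.length i with h1 | h1
    · obtain ⟨q, rfl⟩ : ∃ q, i = V.length + q := ⟨i - V.length, by omega⟩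
      rw [hvx, ip_add_left, hip]
      linarith [hpos q (by omega) (by omega)]
    · rw [vx_append (by omega)]
      exact hV.lo i hi1 h1
  · intro i hi
    left
    rw [h0, ip_sub_left, ← hz, ip_add_left, hip]
    rcases Nat.lt_or_ge V.length i with h1 | h1
    · obtain ⟨q, rfl⟩ : ∃ q, i = V.length + q := ⟨i - V.length, by omega⟩
      rw [hvx, ip_add_left, hip]
      have h2 := hbd q (by omega)
      rw [ip_sub_left] at h2
      linarith
    · rw [vx_append (by omega)]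
      linarith [hV.hi i h1]

/-! ### 3. Class conditions, the target -/

private lemma cls79 {A : List Bool} {e : ℕ → Pt} {p j : ℕ} {z : Pt}
    (h : (cl z = 0 ∧ cl (e (p + j)) = 2) ∨ (cl z = 2 ∧ cl (e (p + j)) = 1)) :
    (cl (AR.tg A z) = 0 ∧ cl (AR.nx A e p j) = 2) ∨ (cl (AR.tg A z) = 2 ∧ cl (AR.nx A e p j) = 1) := by
  rcases h with ⟨h1, h2⟩ | ⟨h1, h2⟩
  · have hev : Even (A.length + A.length) := ⟨_, rfl⟩
    have e1 := AR.tg_cl (A := A) (n := A.length + A.length) (b := A.length) (z1 := z) rfl (by rw [if_pos hev, h1])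
    have e2 := AR.nx_cl (A := A) (e := e) (p := p) (j := j) (n := A.length + A.length) (b := A.length) rfl
      (by rw [if_pos hev, h2])
    by_cases he : Even A.length
    · rw [if_pos he] at e1 e2
      exact Or.inl ⟨e1, e2⟩
    · rw [if_neg he] at e1 e2
      exact Or.inr ⟨e1, e2⟩
  · have hev : ¬ Even (A.length + (A.length + 1)) := by
      rw [Nat.even_iff]
      omega
    have e1 := AR.tg_cl (A := A) (n := A.length + (A.length + 1)) (b := A.length + 1) (z1 := z) rfl (by rw [if_neg hev, h1])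
    have e2 := AR.nx_cl (A := A) (e := e) (p := p) (j := j) (n := A.length + (A.length + 1)) (b := A.length + 1) rfl
      (by rw [if_neg hev, h2])
    by_cases he : Even (A.length + 1)
    · rw [if_pos he] at e1 e2
      exact Or.inl ⟨e1, e2⟩
    · rw [if_neg he] at e1 e2
      exact Or.inr ⟨e1, e2⟩

/-- the distance of the target, exact -/
private lemma tg_hn79 {A : List Bool} {e : ℕ → Pt} {p r : ℕ} {D : ℤ} {z : Pt} :
    hn (AR.tg A z - AR.pv (AR.nx A e p) D r) = hn ((z - AR.pv e D (p + r)) - (en A - AR.pv e D p)) := by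
  rw [← hn_mulE (nrm_rt A)]
  congr 1
  rw [mulE_sub, AR.rt_pv]
  unfold AR.tg
  rw [rt_rc]
  abel

private lemma split79 {v : Pt} {x : ℤ} (hx : 8 ≤ x) (hv : hn v ≤ 64 * x) :
    ∃ v1 : Pt, hn v1 ≤ 42 * x ∧ hn (v - v1) ≤ 28 * x := by
  obtain ⟨a, b⟩ := v
  refine ⟨(5 * (a / 8), 5 * (b / 8)), hn_le fun d hd => ?_, hn_le fun d hd => ?_⟩
  · have h1 := ip_le_hn (a, b) hd
    have h2 := neg_hn_le_ip (a, b) hd
    simp only [dirs, mem_insert, mem_singleton] at hd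
    rcases hd with rfl | rfl | rfl | rfl | rfl | rfl <;> simp only [ip] at h1 h2 ⊢ <;> omega
  · have h1 := ip_le_hn (a, b) hd
    have h2 := neg_hn_le_ip (a, b) hd
    simp only [dirs, mem_insert, mem_singleton] at hd
    rcases hd with rfl | rfl | rfl | rfl | rfl | rfl <;> simp only [ip, Prod.fst_sub, Prod.snd_sub] at h1 h2 ⊢ <;> omega

private lemma disc79 {l : ℕ} {y : Pt} (h : ((hn y : ℤ) : ℝ) ≤ 1 / 16 * 2 ^ (l + 4)) : hn y ≤ 2 ^ l := by
  have h1 : ((hn y : ℤ) : ℝ) ≤ ((2 ^ l : ℤ) : ℝ) := by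
    push_cast
    refine h.trans (le_of_eq ?_)
    ring
  exact_mod_cast h1

/-- the distance of the target in the frame of the end of I -/
private lemma tgt79 {E : ℕ → Pt} {r : ℕ} {D : ℤ} {k : ℕ} {s : Pt} {I : List Bool} (hP : Plc E r D k s I) :
    hn (mulE (rc I) (-(en I)) - AR.pv (fun i => mulE (rc I) (E i)) D r) ≤ 2 ^ (k + 2) := by
  have e1 : AR.pv (fun i => mulE (rc I) (E i)) D r = mulE (rc I) (AR.pv E D r) := by
    unfold AR.pv
    rw [ps_rot, ← mulE_smul]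
  have e2 : qv E D r r = 0 := by
    unfold qv
    rw [sub_self, smul_zero]
  rw [e1, ← mulE_sub, hn_mulE (nrm_rc I), pv_qv E D r, e2]
  have e3 : -(en I) - (0 - qv E D r 0) = s - (s + en I - qv E D r 0) := by abel
  rw [e3]
  have h1 := hn_sub s (s + en I - qv E D r 0)
  have h2 := hP.hs
  have h3 := hP.ht
  have p1 : (2 : ℤ) ^ (k + 2) = 2 ^ (k + 1) + 2 ^ (k + 1) := by ring
  rw [p1]
  linarith

private lemma cl_neg79 (y : Pt) : cl (-y) = -cl y := by
  unfold cl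
  push_cast
  simp only [Prod.fst_neg, Prod.snd_neg]
  push_cast
  ring

/-- the class of the target in the frame of the end of I -/
private lemma tgc79 (I : List Bool) : (cl (mulE (rc I) (-(en I))) = 0 ∧ cl (mulE (rc I) up) = 2) ∨
    (cl (mulE (rc I) (-(en I))) = 2 ∧ cl (mulE (rc I) up) = 1) := by
  rw [AR.cl_mulE, AR.cl_mulE, cl_neg79, AR.cl_en, AR.cl_up', AR.cl_rc]
  by_cases h : Even I.length
  · left
    rw [if_pos h, if_pos h]
    decide
  · right
    rw [if_neg h, if_neg h]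
    decide

private lemma ub_pos79 (j : ℕ) : 0 < Ub j := by
  unfold Ub
  exact Num2Aux.UU_pos _

private lemma ml_le79 {i j : ℕ} (h : i ≤ j) : ml i ≤ ml j := by
  unfold ml
  refine Real.rpow_le_rpow_of_exponent_le (by norm_num) ?_
  have : (i : ℝ) ≤ j := by exact_mod_cast h
  linarith

private lemma pw79 (l : ℕ) : (2 : ℤ) ^ (l + 4 + 9) = 8192 * 2 ^ l ∧ (2 : ℤ) ^ (l + 3 + 9) = 4096 * 2 ^ l ∧
    (2 : ℤ) ^ (l + 4) = 16 * 2 ^ l ∧ (2 : ℤ) ^ (l + 3 + 2) = 32 * 2 ^ l ∧ (2 : ℤ) ^ (l + 4 + 2) = 64 * 2 ^ l := by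
  refine ⟨?_, ?_, ?_, ?_, ?_⟩ <;> ring

/-! ### 4. The local word, then a straight tube -/

/-- the straight tubes behind the local word -/
private def BB79 (D : ℤ) (q : ℕ) (z : Pt) (V : List Bool) : Set (List Bool) :=
  {B | TubeQ (fun _ => up) D (2 ^ (q + 9)) 1 (AR.tg V z) B ∧ TL.Lg q B}

private lemma back79 {SV : Set (List Bool)} {D b : ℤ} {q l : ℕ} {cV cB : ℝ} {c z : Pt} (hcV : 0 < cV) (hcB : 0 < cB)
    (hV : ∀ V ∈ SV, Vb b V ∧ hn (en V - c) ≤ 2 ^ l)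
    (hz : hn (z - D • up) + b ≤ 2 ^ (q + 2)) (hc : cl z = 0)
    (mV : ENNReal.ofReal (cV * Ub l) ≤ gf SV)
    (mB : ∀ z' : Pt, hn (z' - AR.pv (fun _ => up) D 1) ≤ 2 ^ (q + 2) →
      ((cl z' = 0 ∧ cl up = 2) ∨ (cl z' = 2 ∧ cl up = 1)) →
      ENNReal.ofReal (cB * (Ub q / 4 ^ q)) ≤ gf {B | TubeQ (fun _ => up) D (2 ^ (q + 9)) 1 z' B ∧ TL.Lg q B}) :
    ENNReal.ofReal (cV * (cB * (Ub q / 4 ^ q))) ≤ gf (AR.Pr SV (BB79 D q z)) := by
  have hU := ub_pos79 q
  have hpv1 : AR.pv (fun _ => up) D 1 = D • up := by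
    have h1 := AR.pv_succ (fun _ => up) D 0
    rw [pv_zero79, zero_add, zero_add] at h1
    exact h1
  refine stepV (b := b) (c := c) (n := 2 ^ l) (K := Ub l) (fun V h => ⟨(hV V h).1, by push_cast; exact (hV V h).2⟩)
    (fun V _ B hB => ⟨hB.1.sa, fun i h1 h2 => ?_⟩) (ub_pos79 l) hcV.le (by positivity) mV (fun V h => ?_) le_rfl
  · rcases hB.1.st i h1 h2 with g | ⟨j, g1, g2, -⟩
    · exact g
    · omega
  · obtain ⟨a1, a2⟩ := hV V h
    have hnx : ∀ j, AR.nx V (fun _ => up) 0 j = up := fun j => by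
      have h1 : mulE (rt V) (mulE (rc V) up) = mulE (rt V) up := by
        rw [rt_rc, rt_up, a1.de]
      exact mulE_inj (nrm_rt V) h1
    have hnx' : AR.nx V (fun _ => up) 0 = fun _ => up := funext hnx
    refine mB _ ?_ ?_
    · have h1 := tg_hn79 (A := V) (e := fun _ => up) (p := 0) (r := 1) (D := D) (z := z)
      rw [hnx', zero_add, pv_zero79, sub_zero, hpv1] at h1
      rw [hpv1, h1]
      have h2 := hn_sub (z - D • up) (en V)
      have h3 := a1.bx V.length le_rfl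
      have h4 : vx oo up V V.length = en V := rfl
      rw [h4] at h3
      linarith
    · have h1 := cls79 (A := V) (e := fun _ => up) (p := 0) (j := 0) (z := z) (Or.inl ⟨hc, AR.cl_up'⟩)
      rwa [hnx 0] at h1

/-! ### 5. The coarse tube -/

/-- the coarse tubes before the local word -/
private def PP79 (e : ℕ → Pt) (D : ℤ) (q p : ℕ) (c : Pt) : Set (List Bool) :=
  {P | TubeQ e D (2 ^ (q + 4 + 9)) p (en P) P ∧ ((hn (en P - c) : ℤ) : ℝ) ≤ 1 / 16 * 2 ^ (q + 4) ∧ TL.Lg (q + 4) P}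

private lemma core79 {SV : Set (List Bool)} {e : ℕ → Pt} {p q l : ℕ} {D b : ℤ} {c z : Pt} {cP cV cB : ℝ} (hcP : 0 < cP)
    (hcV : 0 < cV) (hcB : 0 < cB) (hq : 3 ≤ q) (he : AR.IPath e (p + 1)) (hp : 1 ≤ p) (hs : e p = e (p - 1))
    (hD : 20000 * 2 ^ q < D) (hb : b ≤ 2 * 2 ^ q)
    (hz : hn (z - AR.pv e D (p + 1)) ≤ 64 * 2 ^ q) (hc : (cl z = 0 ∧ cl (e p) = 2) ∨ (cl z = 2 ∧ cl (e p) = 1))
    (hV : ∀ V ∈ SV, Vb b V ∧ hn (en V - c) ≤ 2 ^ l) (mV : ENNReal.ofReal (cV * Ub l) ≤ gf SV)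
    (mB : ∀ z' : Pt, hn (z' - AR.pv (fun _ => up) D 1) ≤ 2 ^ (q + 3 + 2) →
      ((cl z' = 0 ∧ cl up = 2) ∨ (cl z' = 2 ∧ cl up = 1)) →
      ENNReal.ofReal (cB * (Ub (q + 3) / 4 ^ (q + 3))) ≤
        gf {B | TubeQ (fun _ => up) D (2 ^ (q + 3 + 9)) 1 z' B ∧ TL.Lg (q + 3) B})
    (mP : ∀ c' : Pt, ((hn (c' - AR.pv e D p) : ℤ) : ℝ) + 1 / 16 * 2 ^ (q + 4) ≤ 2 ^ (q + 4 + 2) →
      ENNReal.ofReal (cP * Ub (q + 4)) ≤ gf (PP79 e D q p c')) :
    ENNReal.ofReal (cP * (cV * (cB * (Ub (q + 3) / 4 ^ (q + 3))))) ≤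
      gf {Q | TubeQ e D (2 ^ (q + 4 + 9)) (p + 1) z Q ∧ ∃ P V B, Q = P ++ (V ++ B) ∧ TubeQ e D (2 ^ (q + 4 + 9)) p (en P) P ∧
        hn (en P - AR.pv e D p) ≤ 43 * 2 ^ q ∧ TL.Lg (q + 4) P ∧ V ∈ SV ∧ TL.Lg (q + 3) B ∧
        ∀ i, 1 ≤ i → i ≤ B.length → 0 < ip (vx oo up B i) up} := by
  obtain ⟨q13, q12, q4, q5, q6⟩ := pw79 q
  have h0 : (0 : ℤ) < 2 ^ q := by positivity
  have h8 : (8 : ℤ) ≤ 2 ^ q := by
    have : (2 : ℤ) ^ 3 ≤ 2 ^ q := pow_le_pow_right₀ (by norm_num) hq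
    linarith
  have hU := ub_pos79 (q + 3)
  obtain ⟨v1, hv1, hv2⟩ := split79 h8 hz
  obtain ⟨c', hc'⟩ : ∃ c', c' = AR.pv e D p + v1 := ⟨_, rfl⟩
  have hP1 : ∀ P ∈ PP79 e D q p c', TubeQ e D (2 ^ (q + 4 + 9)) p (en P) P ∧
      hn (en P - AR.pv e D p) ≤ 43 * 2 ^ q ∧ hn (en P - c') ≤ 2 ^ q := by
    intro P hP
    have h1 := disc79 hP.2.1
    refine ⟨hP.1, ?_, h1⟩
    have h2 := hn_tri (en P) c' (AR.pv e D p)
    have h3 : c' - AR.pv e D p = v1 := by rw [hc']; abel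
    rw [h3] at h2
    linarith
  have hpath : ∀ P ∈ PP79 e D q p c', AR.IPath (AR.nx P e p) 1 := fun P hP => AR.nx_path he le_rfl hs hP.1.de
  have hz' : ∀ P ∈ PP79 e D q p c', hn (AR.tg P z - D • up) ≤ 29 * 2 ^ q ∧ cl (AR.tg P z) = 0 := by
    intro P hP
    have a0 := (hpath P hP).one (by norm_num)
    have hpv1 : AR.pv (AR.nx P e p) D 1 = D • up := by
      have h1 := AR.pv_succ (AR.nx P e p) D 0
      rw [pv_zero79, zero_add, zero_add, a0] at h1
      exact h1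
    constructor
    · rw [← hpv1, tg_hn79]
      have e1 : z - AR.pv e D (p + 1) - (en P - AR.pv e D p) = (z - AR.pv e D (p + 1) - v1) - (en P - c') := by rw [hc']; abel
      rw [e1]
      have h4 := hn_sub (z - AR.pv e D (p + 1) - v1) (en P - c')
      linarith [(hP1 P hP).2.2]
    · have h1 := cls79 (A := P) (e := e) (p := p) (j := 0) (z := z) (by rw [add_zero]; exact hc)
      rw [a0] at h1
      rcases h1 with h1 | ⟨-, h2⟩
      · exact h1.1
      · exact absurd h2 (by decide)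
  have hW : ∀ P ∈ PP79 e D q p c', ∀ W ∈ AR.Pr SV (BB79 D (q + 3) (AR.tg P z)),
      TubeQ (AR.nx P e p) D (2 ^ (q + 3 + 9) + b) 1 (AR.tg P z) W := by
    rintro P hP W ⟨V, hV1, B, hB, rfl⟩
    exact vb_tube ((hpath P hP).one (by norm_num)) (hV V hV1).1 hB.1 (by linarith) (by positivity)
  have key := glueN (e := e) (p := p) (r := 1) (D := D) (w := 2 ^ (q + 4 + 9)) (w' := 2 ^ (q + 3 + 9) + b)
    (B := 43 * 2 ^ q) (c := c') (n := 2 ^ q) (x := cP) (u := cV * (cB * (Ub (q + 3) / 4 ^ (q + 3)))) (K := Ub (q + 4)) he hs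
    (by rw [q13, q12]; linarith) (AA := PP79 e D q p c') (VV := fun P => AR.Pr SV (BB79 D (q + 3) (AR.tg P z)))
    (fun P hP => ⟨(hP1 P hP).1, (hP1 P hP).2.1, by push_cast; exact (hP1 P hP).2.2⟩)
    (fun P hP W hW1 => ⟨_, hW P hP W hW1⟩) (ub_pos79 _) hcP.le (by positivity) (mP c' ?_) (fun P hP => ?_) ?_
  · refine key.trans (gf_mono ?_)
    rintro Q ⟨P, hP, W, hW1, rfl⟩
    obtain ⟨a1, a2, a3⟩ := hP1 P hP
    have b1 := hW P hP W hW1
    obtain ⟨V, hV1, B, hB, rfl⟩ := hW1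
    have b2 := AR.app (w := 2 ^ (q + 4 + 9)) (w' := 2 ^ (q + 3 + 9) + b) (B := 43 * 2 ^ q) he hp le_rfl hs a1 a2 b1
      (by rw [q13, q12]; linarith) (by rw [q13, q12]; linarith)
    rw [AR.rt_tg] at b2
    refine ⟨b2, P, V, B, rfl, a1, a2, hP.2.2, hV1, hB.2, fun i h1 h2 => ?_⟩
    rcases hB.1.st i h1 h2 with g | ⟨j, g1, g2, -⟩
    · exact g
    · omega
  · have h3 : c' - AR.pv e D p = v1 := by rw [hc']; abel
    rw [h3]
    have h4 : ((hn v1 : ℤ) : ℝ) ≤ ((42 * 2 ^ q : ℤ) : ℝ) := by exact_mod_cast hv1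
    push_cast at h4
    have e1 : (2 : ℝ) ^ (q + 4) = 16 * 2 ^ q := by ring
    have e2 : (2 : ℝ) ^ (q + 4 + 2) = 64 * 2 ^ q := by ring
    have h5 : (0 : ℝ) < 2 ^ q := by positivity
    rw [e1, e2]
    linarith
  · obtain ⟨z1, z2⟩ := hz' P hP
    exact back79 (q := q + 3) hcV hcB hV (by rw [q5]; linarith) z2 mV mB
  · unfold Ub
    refine Num2Aux.UU_mono ?_
    rw [pow_add]
    omega

/-! ### 6. The literal of the row -/

/-- the tubes that close I, with a local word near the last but one node -/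
def RQ3 (E : ℕ → Pt) (r : ℕ) (D : ℤ) (k : ℕ) (σ : Bool) (n0 n1 n2 : ℕ) (d : ℤ) (l : ℕ) (κ A : ℝ) (I : List Bool) :
    Set (List Bool) := {Q | TP E r D k I Q ∧ (Q.length : ℝ) ≤ A * ml k ∧ ∃ P V B : List Bool, Q = P ++ (V ++ B) ∧
      TubeQ (fun i => mulE (rc I) (E i)) D (2 ^ (k + 9)) (r - 1) (TIW.en P) P ∧
      TIW.hn (TIW.en P - AR.pv (fun i => mulE (rc I) (E i)) D (r - 1)) ≤ 3 * 2 ^ k ∧ VG σ n0 n1 n2 d l κ A V ∧
      ∀ i, 1 ≤ i → i ≤ B.length → 0 < ip (vx oo up B i) up}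

/-- the mass of these tubes -/
def RTS3 (n0 n1 n2 : ℕ) : Prop := ∃ H0 : ℕ, 2 ^ 13 ≤ H0 ∧ ∀ H : ℕ, H0 ≤ H → ∃ J0 : ℕ, ∀ Mx : ℕ, ∃ (c κ A : ℝ) (l0 : ℕ),
  0 < c ∧ 0 < κ ∧ 0 < A ∧ ∀ (k l r : ℕ) (D d : ℤ) (E : ℕ → Pt) (s : Pt) (I : List Bool) (σ : Bool), l0 ≤ l → l + J0 ≤ k →
    18 * (H * 2 ^ k) ≤ D → D ≤ 36 * (H * 2 ^ k) → 18 * (H * 2 ^ l) ≤ d → d ≤ 36 * (H * 2 ^ l) → 4 ≤ r → r ≤ Mx → IPg E r →
    E (r - 1) = up → E (r - 2) = up → Plc E r D k s I →
    ENNReal.ofReal (c * (Ub k / 4 ^ k)) ≤ gf (RQ3 E r D k σ n0 n1 n2 d l κ A I)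

/-- **row N1b** -/
theorem rts3_of {n0 n1 n2 : ℕ} (h2 : 1 ≤ n2) (hV : VStrS n0 n1 n2) : RTS3 n0 n1 n2 := by
  obtain ⟨H1, hH1, hT⟩ := TL.tubeSumL
  obtain ⟨H2, hH2, hV⟩ := hV
  refine ⟨max H1 H2, hH1.trans (le_max_left _ _), fun H hH => ?_⟩
  have hH1' : H1 ≤ H := (le_max_left _ _).trans hH
  have hH2' : H2 ≤ H := (le_max_right _ _).trans hH
  obtain ⟨X, hX⟩ : ∃ X : ℕ, X = 8 * (72 * ((n0 + n1 + n2) * H) + 1024) := ⟨_, rfl⟩
  refine ⟨X, fun Mx => ?_⟩
  obtain ⟨cP, kP, hcP, hP⟩ := hT H hH1' Mx (1 / 16) (by norm_num) (by norm_num)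
  obtain ⟨cB, kB, hcB, hB⟩ := hT (2 * H) (by omega) 1 (1 / 16) (by norm_num) (by norm_num)
  obtain ⟨cV, κ, A, lV, hcV, hκ, hA, hV⟩ := hV H hH2'
  refine ⟨cP * (cV * cB), κ, A + 6, lV + kP + kB + 8, by positivity, hκ, by positivity,
    fun k l r D d E s I σ hl hk hD1 hD2 hd1 hd2 h4 hr hE hup hup2 hPl => ?_⟩
  obtain ⟨q, rfl⟩ : ∃ q, k = q + 4 := ⟨k - 4, by omega⟩
  obtain ⟨p, rfl⟩ : ∃ p, r = p + 1 := ⟨r - 1, by omega⟩
  obtain ⟨q13, q12, q4, q5, q6⟩ := pw79 q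
  have hH13 : (2 : ℤ) ^ 13 ≤ (H : ℤ) := by exact_mod_cast hH1.trans hH1'
  have h0 : (0 : ℤ) < 2 ^ q := by positivity
  have h0l : (0 : ℤ) < 2 ^ l := by positivity
  have p3 : (2 : ℤ) ^ (q + 3) = 8 * 2 ^ q := by ring
  have hD : 20000 * 2 ^ q < D := by
    rw [q4] at hD1
    nlinarith
  have hdl : 2 ^ (l + 10) + 2 ^ l < d := by
    have e1 : (2 : ℤ) ^ (l + 10) = 1024 * 2 ^ l := by ring
    rw [e1]
    nlinarith
  obtain ⟨e, hee⟩ : ∃ e : ℕ → Pt, e = fun i => mulE (rc I) (E i) := ⟨_, rfl⟩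
  have he := ipg_rot hE (nrm_rc I)
  have he0 : mulE (rc I) (E 0) = up := by
    have h1 : mulE (rt I) (mulE (rc I) (E 0)) = mulE (rt I) up := by
      rw [rt_rc, rt_up, ← hPl.de]
    exact mulE_inj (nrm_rt I) h1
  have hIP := ipg_path he he0
  have hz := tgt79 hPl
  have hc := tgc79 I
  rw [← hee] at he hIP hz
  rw [Nat.add_sub_cancel] at hup
  have hup2' : E (p - 1) = up := by rw [← hup2]; congr 1
  have hep : e p = mulE (rc I) up := by rw [hee]; show mulE (rc I) (E p) = _; rw [hup]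
  have hep1 : e (p - 1) = mulE (rc I) up := by rw [hee]; show mulE (rc I) (E (p - 1)) = _; rw [hup2']
  rw [q6] at hz
  -- the box of the local words
  have hbox : 2 * (((n0 + n1 + n2 : ℕ) : ℤ) * d) + 2 ^ (l + 10) ≤ 2 * 2 ^ q := by
    have e1 : (2 : ℤ) ^ (l + 10) = 1024 * 2 ^ l := by ring
    have h5 : X < 2 ^ X := Nat.lt_two_pow_self
    have h6 : (X : ℤ) * 2 ^ l ≤ 16 * 2 ^ q := by
      have h7 : (2 : ℤ) ^ (l + X) ≤ 2 ^ (q + 4) := pow_le_pow_right₀ (by norm_num) hk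
      have h8 : (X : ℤ) ≤ 2 ^ X := by exact_mod_cast h5.le
      have h9 := mul_le_mul_of_nonneg_right h8 h0l.le
      have e2 : (2 : ℤ) ^ X * 2 ^ l = 2 ^ (l + X) := by rw [pow_add]; ring
      rw [e2] at h9
      rw [q4] at h7
      exact h9.trans h7
    rw [hX] at h6
    push_cast at h6 ⊢
    have h10 : ((n0 : ℤ) + n1 + n2) * d ≤ ((n0 : ℤ) + n1 + n2) * (36 * (H * 2 ^ l)) :=
      mul_le_mul_of_nonneg_left hd2 (by positivity)
    rw [e1]
    nlinarith
  have main := core79 (SV := {V | VG σ n0 n1 n2 d l κ A V}) (e := e) (p := p) (q := q) (l := l) (D := D)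
    (b := 2 * (((n0 + n1 + n2 : ℕ) : ℤ) * d) + 2 ^ (l + 10)) (c := AR.pv (pE σ n0 n1) d (n0 + n1 + n2))
    (z := mulE (rc I) (-(en I))) hcP hcV hcB (by omega) hIP (by omega) (by rw [hep, hep1]) hD hbox hz (by rw [hep]; exact hc)
    (fun V h => ⟨vb_of h h2 hdl, h.pos⟩) (hV l d σ (by omega) hd1 hd2)
    (fun z' i1 i2 => (hB (q + 3) 1 D (fun _ => up) (by omega) (by push_cast; rw [p3]; rw [q4] at hD1; linarith)
      (by push_cast; rw [p3]; rw [q4] at hD2; linarith) le_rfl le_rfl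
      ⟨fun _ _ => upd', fun _ h => absurd h (by omega), fun i j hij hj => absurd hj (by omega)⟩ rfl).1 z' i1 i2)
    (fun c' hc' => (hP (q + 4) p D e (by omega) hD1 hD2 (by omega) (by omega)
      ⟨fun i hi => he.dir i (by omega), fun i hi => he.tur i (by omega), fun i j hij hj => he.ind i j hij (by omega)⟩
      (by rw [hee]; exact he0)).2 c' hc')
  have h1 : Ub (q + 4) ≤ 2 * Ub (q + 3) := Ub_succ (q + 3)
  have hU3 := ub_pos79 (q + 3)
  have h2 : Ub (q + 4) / 4 ^ (q + 4) ≤ Ub (q + 3) / 4 ^ (q + 3) := by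
    rw [pow_succ, div_le_div_iff₀ (by positivity) (by positivity)]
    have : (0 : ℝ) < 4 ^ (q + 3) := by positivity
    nlinarith
  refine le_trans (ENNReal.ofReal_le_ofReal ?_) (main.trans (gf_mono ?_))
  · calc cP * (cV * cB) * (Ub (q + 4) / 4 ^ (q + 4)) ≤ cP * (cV * cB) * (Ub (q + 3) / 4 ^ (q + 3)) :=
          mul_le_mul_of_nonneg_left h2 (by positivity)
      _ = _ := by ring
  · rintro Q ⟨g1, P, V, B, rfl, g2, g3, g4, g5, g6, g7⟩
    have hml := ml_le79 (show l ≤ q + 4 by omega)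
    have hml3 := ml_le79 (show q + 3 ≤ q + 4 by omega)
    have hmp := G3.ml_pos (q + 4)
    have hmpl := G3.ml_pos l
    refine ⟨by unfold TP; rw [← hee]; exact g1, ?_, P, V, B, rfl, ?_, ?_, ?_, g7⟩
    · rw [List.length_append, List.length_append]
      push_cast
      have k1 := g4.2
      have k2 := g6.2
      have k3 := g5.len
      have k4 : A * ml l ≤ A * ml (q + 4) := mul_le_mul_of_nonneg_left hml hA.le
      linarith
    · rw [← hee, Nat.add_sub_cancel]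
      exact g2
    · rw [← hee, Nat.add_sub_cancel, q4]
      linarith
    · exact ⟨g5.tub, g5.pos, g5.len.trans (mul_le_mul_of_nonneg_right (by linarith) hmpl.le), g5.cut, g5.root⟩

/-- **row N1b**, no hypothesis on the local words -/
theorem rts3 {n0 n1 n2 : ℕ} (h0 : 1 ≤ n0) (h1 : 2 ≤ n1) (h2 : 2 ≤ n2) : RTS3 n0 n1 n2 :=
  rts3_of (by omega) (vstrS h0 h1 h2)

end N1

end ART

end HexObs
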