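import Pool.Agent.ROT.F3N1G
import Pool.Agent.ROT.F3N1L
import Pool.Agent.ROT.F3N1b

/-!
# ROT, F3, row F10 (N1) (helper87): the closed words

**`rq_imN`**: the tubes of `RQ3` close the placed word to closed words with the two arms at many roots.
-/

set_option autoImplicit false

namespace HexObs

namespace ART

namespace N1

open Finset TS SDN SIM NTA TIP ARM ARM.G3 JT OG

open scoped ENNReal

/-! ### 1. Arms in another frame -/

/-- the arm in another frame -/
lemma Arm.rot {K : ℕ} {d : ℤ} {e u : Pt} {v v' : ℕ → Pt} {s : ℕ} (h : Arm K d e v s) (hu : nrm u = 1)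
    (hv : ∀ i, i ≤ s → v' i = mulE u (v i)) : Arm K d (mulE u e) v' s := by
  have hip : ∀ p, ip (mulE u p) (mulE u e) = ip p e := fun p => by
    rw [ip_mulE, hu, one_mul]
  constructor
  · intro i hi
    obtain ⟨τ, h1, h2⟩ := h.near i hi
    refine ⟨τ, h1, ?_⟩
    rw [hv i hi, ← mulE_smul, ← mulE_sub, TIW.hn_mulE hu]
    exact h2
  · intro y h1 h2
    obtain ⟨c, c1, c2, c3, c4, c5, c6⟩ := h.cut y h1 h2
    refine ⟨c, c1, ?_, ?_, ?_, fun i hi => ?_, fun i hi hi' => ?_⟩
    · rw [hv c c1.le, hip]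
      exact c2
    · rw [hv c c1.le, hip]
      exact c3
    · rw [hv c c1.le, hv (c + 1) c1, c4, mulE_add]
    · rw [hv c c1.le, hv i (by omega), hip, hip]
      exact c5 i hi
    · rw [hv c c1.le, hv i hi', hip, hip]
      exact c6 i hi hi'

lemma rt_of_de {w : List Bool} (h : TIW.de w = up) : TIW.rt w = (1, 0) := by
  unfold TIW.rt
  rw [h]
  decide

lemma rot3 : ∀ d ∈ dirs, cl d = cl up → (mulE (rotTo d up) up = up ∨ mulE (rotTo d up) up = rotL (rotL up) ∨
    mulE (rotTo d up) up = rotR (rotR up)) := by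
  decide

/-- **two straight arms with at most x letters at the root**, nothing else in the ball of radius K d -/
def REvL (K : ℕ) (d : ℤ) (e f : Pt) (x : ℝ) (L : List Bool) : Prop := ∃ s t : ℕ, (s : ℝ) ≤ x ∧ (t : ℝ) ≤ x ∧
  s + t ≤ L.length ∧ Arm K d e (fun i => vx oo up L i) s ∧ Arm K d f (fun i => vx oo up L (L.length - i)) t ∧
  ∀ i, s < i → i + t < L.length → K * d ≤ TIW.hn (vx oo up L i)

lemma REvL.mono {K : ℕ} {d : ℤ} {e f : Pt} {x y : ℝ} {L : List Bool} (h : REvL K d e f x L) (hxy : x ≤ y) :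
    REvL K d e f y L := by
  obtain ⟨s, t, h1, h2, h3⟩ := h
  exact ⟨s, t, h1.trans hxy, h2.trans hxy, h3⟩

lemma REvL.rev {K : ℕ} {d : ℤ} {e f : Pt} {x : ℝ} {L : List Bool} (h : REvL K d e f x L) : REv K d e f L := by
  obtain ⟨s, t, -, -, h3⟩ := h
  exact ⟨s, t, h3⟩

/-- the closed words with two arms at the root -/
def AA (K : ℕ) (σ : Bool) (d : ℤ) (x : ℝ) (m0 m1 : ℕ) : Set (List Bool) :=
  {L | m0 ≤ L.length ∧ L.length ≤ m1 ∧ L ∈ POL.Cy L.length ∧
    ∃ e, (e = up ∨ e = rotL (rotL up) ∨ e = rotR (rotR up)) ∧ REvL K d e (-(turn σ e)) x L}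

/-! ### 2. The closed word at a root -/

section geo

variable {E : ℕ → Pt} {r : ℕ} {D : ℤ} {k : ℕ} {s : Pt} {I P V B : List Bool} {σ : Bool} {K N : ℕ} {d : ℤ} {q : ℕ}

/-- the position of the start of the local word -/
lemma base_pos (hP : Plc E r D k s I)
    (hb : TIW.hn (TIW.en P - AR.pv (fun i => mulE (rc I) (E i)) D (r - 1)) ≤ 3 * 2 ^ k) :
    TIW.hn (s + TIW.en (I ++ P) - qv E D r (r - 1)) ≤ 5 * 2 ^ k := by
  have e1 : mulE (TIW.rt I) (AR.pv (fun i => mulE (rc I) (E i)) D (r - 1)) = qv E D r (r - 1) - qv E D r 0 := by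
    unfold AR.pv
    rw [ps_rot, ← mulE_smul, rt_rc, ← pv_qv]
    rfl
  have e2 : s + TIW.en (I ++ P) - qv E D r (r - 1) = (s + TIW.en I - qv E D r 0) +
      mulE (TIW.rt I) (TIW.en P - AR.pv (fun i => mulE (rc I) (E i)) D (r - 1)) := by
    rw [TIW.en_app, mulE_sub, e1]
    abel
  rw [e2]
  refine (TIW.hn_add _ _).trans ?_
  rw [TIW.hn_mulE (TIW.nrm_rt I)]
  have h1 := hP.ht
  have p1 : (2 : ℤ) ^ (k + 1) = 2 * 2 ^ k := by ring
  linarith

/-- **the root of the closed word** -/
theorem rev_of (hE : IPg E r) (hr : 4 ≤ r) (hup : E (r - 1) = up) (hup2 : E (r - 2) = up) (hD : 2 ^ (k + 12) ≤ D)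
    (hP : Plc E r D k s I) (hQ : TP E r D k I (P ++ (V ++ B)))
    (hT : TubeQ (fun i => mulE (rc I) (E i)) D (2 ^ (k + 9)) (r - 1) (TIW.en P) P)
    (hb : TIW.hn (TIW.en P - AR.pv (fun i => mulE (rc I) (E i)) D (r - 1)) ≤ 3 * 2 ^ k)
    (hV : LocR K d σ N V q) (hdV : TIW.de V = up) (hB : ∀ i, 1 ≤ i → i ≤ B.length → 0 < ip (vx oo up B i) up)
    (hd1 : 2 * (N * d) ≤ 2 ^ k) (hd2 : K * d ≤ 2 ^ k) (hev : Even (I.length + P.length + q)) (hqV : q < V.length) :
    (∃ e, (e = up ∨ e = rotL (rotL up) ∨ e = rotR (rotR up)) ∧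
      REvL K d e (-(turn σ e)) V.length ((I ++ (P ++ (V ++ B))).rotate (I.length + P.length + q))) ∧
      TIW.hn (s + POL.pv (I ++ (P ++ (V ++ B))) (I.length + P.length + q)) ≤ 2 * D + 6 * 2 ^ k := by
  obtain ⟨W, hW⟩ : ∃ W, W = I ++ (P ++ (V ++ B)) := ⟨_, rfl⟩
  obtain ⟨a, ha⟩ : ∃ a, a = I.length + P.length + q := ⟨_, rfl⟩
  rw [← hW, ← ha]
  rw [← ha] at hev
  have hcy : W ∈ POL.Cy (I.length + (P ++ (V ++ B)).length) := by
    rw [hW]
    exact cy_of hE (by omega) hup hD hP hQ
  have hlen : W.length = I.length + P.length + V.length + B.length := by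
    rw [hW]
    simp only [List.length_append]
    omega
  have hclo := POL.Cy.clo hcy
  have h0k : (0 : ℤ) < 2 ^ k := by positivity
  -- the frame
  have hdP : TIW.de (I ++ P) = up := by
    rw [TIW.de_app, hT.de]
    show mulE (TIW.rt I) (mulE (rc I) (E (r - 1 - 1))) = up
    rw [rt_rc, show r - 1 - 1 = r - 2 by omega]
    exact hup2
  have hrt := rt_of_de hdP
  have hrtV := rt_of_de hdV
  obtain ⟨b0, hb0⟩ : ∃ b0, b0 = TIW.en (I ++ P) := ⟨_, rfl⟩
  have hWe : W = (I ++ P) ++ (V ++ B) := by rw [hW, List.append_assoc]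
  have hlIP : (I ++ P).length = I.length + P.length := List.length_append
  -- positions of the local word
  have posV : ∀ i, i ≤ V.length → vx oo up W (I.length + P.length + i) = b0 + vx oo up V i := by
    intro i hi
    rw [hWe, ← hlIP, TIW.vx_app, hrt, mulE_one, vx_append (by omega : i ≤ V.length + 1), hb0]
  have posB : ∀ i, vx oo up W (I.length + P.length + V.length + i) = b0 + TIW.en V + vx oo up B i := by
    intro i
    rw [hWe, add_assoc, ← hlIP, TIW.vx_app, hrt, mulE_one, TIW.vx_app, hrtV, mulE_one, hb0, add_assoc]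
  have hpv : ∀ i, i ≤ W.length → POL.pv W i = vx oo up W i := fun i hi => POL.pv_eq (by omega)
  obtain ⟨ρ, hρ⟩ : ∃ ρ, ρ = rotTo (POL.pd W a) up := ⟨_, rfl⟩
  have hnρ : nrm ρ = 1 := by
    rw [hρ]
    exact POL.nrm_rotTo_pd _ _
  have hvx : ∀ i, i ≤ W.length → vx oo up (W.rotate a) i = mulE ρ (POL.pv W (a + i) - POL.pv W a) := by
    intro i hi
    rw [hρ]
    exact POL.rot_vx (by omega)
  have hpa : POL.pv W a = b0 + vx oo up V q := by
    rw [hpv a (by omega), ha, posV q hqV.le]
  have hD0 : 0 ≤ D := le_trans (by positivity) hD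
  refine ⟨?_, ?_⟩
  swap
  · rw [hpa]
    have h1 := base_pos hP hb
    rw [← hb0] at h1
    have h2 := qv_last E D (show 1 ≤ r by omega)
    have h3 : TIW.hn (D • E (r - 1)) ≤ 2 * D := by
      refine TIW.hn_le fun x hx => ?_
      rw [AR.ip_smul, hup]
      have h4 := (AR.ip_dirs upm hx).2
      nlinarith
    have e1 : s + (b0 + vx oo up V q) = (s + b0 - qv E D r (r - 1)) + (qv E D r (r - 1) + D • E (r - 1)) +
        (vx oo up V q - D • E (r - 1)) := by abel
    rw [e1, h2, add_zero]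
    have h5 := TIW.hn_add (s + b0 - qv E D r (r - 1)) (vx oo up V q - D • E (r - 1))
    have h6 := TIW.hn_sub (vx oo up V q) (D • E (r - 1))
    have h7 := hV.sz
    linarith
  refine ⟨mulE ρ up, ?_, ?_⟩
  · rw [hρ]
    refine rot3 _ (POL.pd_mem _ _) ?_
    rw [POL.cl_pd, if_pos hev]
  obtain ⟨t, ht, hbk, hfar⟩ := hV.bk
  have hll : (W.rotate a).length = W.length := List.length_rotate _ _
  refine ⟨V.length - q, t, ?_, ?_, ?_, ?_, ?_, ?_⟩
  · have h1 : V.length - q ≤ V.length := Nat.sub_le _ _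
    exact_mod_cast h1
  · have h1 : t ≤ V.length := by omega
    exact_mod_cast h1
  · rw [hll]
    omega
  · refine hV.fw.rot hnρ fun i hi => ?_
    rw [hvx i (by omega), hpv (a + i) (by omega), hpa, show a + i = I.length + P.length + (q + i) by omega,
      posV (q + i) (by omega)]
    congr 1
    abel
  · have e1 : -(turn σ (mulE ρ up)) = mulE ρ (-turn σ up) := by
      rw [mulE_neg, mulE_turn]
    rw [e1]
    refine hbk.rot hnρ fun i hi => ?_
    show vx oo up (W.rotate a) ((W.rotate a).length - i) = _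
    rw [hll, hvx (W.length - i) (by omega), show a + (W.length - i) = W.length + (I.length + P.length + (q - i)) by omega,
      POL.pv_per hclo, hpv _ (by omega), hpa, posV (q - i) (by omega)]
    congr 1
    abel
  -- everything else is far
  intro i hi1 hi2
  rw [hll] at hi2
  rw [hvx i (by omega), TIW.hn_mulE hnρ, hpa]
  rcases Nat.lt_or_ge W.length (a + i) with h3 | h3
  · obtain ⟨j, hj⟩ : ∃ j, a + i = W.length + j := ⟨a + i - W.length, by omega⟩
    rw [hj, POL.pv_per hclo, hpv j (by omega)]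
    rcases Nat.lt_or_ge I.length j with h4 | h4
    · rcases Nat.lt_or_ge (I.length + P.length) j with h5 | h5
      · -- the local word before the arm
        obtain ⟨j', rfl⟩ : ∃ j', j = I.length + P.length + j' := ⟨j - (I.length + P.length), by omega⟩
        rw [posV j' (by omega), add_sub_add_left_eq_sub]
        exact hfar j' (by omega)
      · -- the coarse tube before the local word
        obtain ⟨p, rfl⟩ : ∃ p, j = I.length + p := ⟨j - I.length, by omega⟩
        have e1 : vx oo up W (I.length + p) = TIW.en I + mulE (TIW.rt I) (vx oo up P p) := by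
          rw [hW, TIW.vx_app, vx_append (by omega : p ≤ P.length + 1)]
        rcases hT.bd p (by omega) with g | ⟨j2, g1, g2⟩
        · have e2 : ip (mulE (TIW.rt I) (vx oo up P p - TIW.en P)) up ≤ 0 := by
            have h6 := ip_mulE (TIW.rt I) (vx oo up P p - TIW.en P) (mulE (rc I) (E (r - 1 - 1)))
            rw [TIW.nrm_rt, one_mul, rt_rc, show r - 1 - 1 = r - 2 by omega, hup2] at h6
            rw [h6]
            rw [show r - 1 - 1 = r - 2 by omega, hup2] at g
            exact g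
          have h6 := TIW.ip_le_hn (b0 + vx oo up V q - vx oo up W (I.length + p)) upm
          have e3 : b0 + vx oo up V q - vx oo up W (I.length + p) = vx oo up V q -
              mulE (TIW.rt I) (vx oo up P p - TIW.en P) := by
            rw [e1, hb0, TIW.en_app, mulE_sub]
            abel
          rw [TIW.hn_sub_comm]
          refine le_trans ?_ h6
          rw [e3, AR.ip_sub_left]
          have h7 := hV.lo
          linarith
        · have g3 := near_abs hP g2
          have h6 := base_pos hP hb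
          have g4 : AR.NS (qv E D r (r - 1)) (E (r - 1)) D (6 * 2 ^ k) (s + (b0 + vx oo up V q)) := by
            refine ⟨0, le_rfl, hD0, ?_⟩
            have e2 : s + (b0 + vx oo up V q) - (qv E D r (r - 1) + (0 : ℤ) • E (r - 1)) =
                (s + b0 - qv E D r (r - 1)) + vx oo up V q := by
              rw [zero_smul]
              abel
            rw [e2]
            refine (TIW.hn_add _ _).trans ?_
            rw [← hb0] at h6
            have h7 := hV.sz
            linarith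
          have h7 := ipg_sep hE (i := r - 1) (j := j2) (by omega) (by omega) g4 g3
          rw [TIW.hn_sub_comm]
          have e4 : s + (b0 + vx oo up V q) - (s + TIW.en I + mulE (TIW.rt I) (vx oo up P p)) =
              b0 + vx oo up V q - vx oo up W (I.length + p) := by
            rw [e1]
            abel
          rw [e4] at h7
          have p1 : (2 : ℤ) ^ (k + 10) = 1024 * 2 ^ k := by ring
          have p2 : (2 : ℤ) ^ (k + 12) = 4096 * 2 ^ k := by ring
          linarith
    · -- the placed word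
      have e1 : vx oo up W j = vx oo up I j := by
        rw [hW, vx_append (by omega : j ≤ I.length + 1)]
      rw [e1]
      have h5 := hP.mid j h4 (r - 2) (by omega) (by omega)
      by_contra hcon
      rw [not_le] at hcon
      refine h5 ⟨D, hD0, le_rfl, ?_⟩
      have e2 : qv E D r (r - 2) + D • E (r - 2) = qv E D r (r - 1) := by
        unfold qv
        rw [← smul_add, show r - 1 = (r - 2) + 1 by omega, AR.ps_succ]
        congr 1
        abel
      rw [e2]
      have e3 : s + vx oo up I j - qv E D r (r - 1) = (vx oo up I j - (b0 + vx oo up V q)) +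
          ((s + b0 - qv E D r (r - 1)) + vx oo up V q) := by abel
      rw [e3]
      refine (TIW.hn_add _ _).trans ?_
      have h6 := TIW.hn_add (s + b0 - qv E D r (r - 1)) (vx oo up V q)
      have h7 := base_pos hP hb
      rw [← hb0] at h7
      have h8 := hV.sz
      have p1 : (2 : ℤ) ^ (k + 10) = 1024 * 2 ^ k := by ring
      linarith
  · -- the last part
    obtain ⟨i', hi'⟩ : ∃ i', a + i = I.length + P.length + V.length + i' := ⟨a + i - (I.length + P.length + V.length), by omega⟩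
    rw [hpv (a + i) h3, hi', posB]
    have h4 := hB i' (by omega) (by omega)
    have e1 : b0 + TIW.en V + vx oo up B i' - (b0 + vx oo up V q) = (TIW.en V - vx oo up V q) + vx oo up B i' := by abel
    rw [e1]
    refine le_trans ?_ (TIW.ip_le_hn _ upm)
    rw [ip_add_left]
    have h5 := hV.hi
    linarith

/-- **the tubes have many good roots** -/
theorem rq_imN {n0 n1 n2 l m m0 m1 : ℕ} {B' : ℤ} {κ A : ℝ} (hE : IPg E r) (hr : 4 ≤ r) (hup : E (r - 1) = up)
    (hup2 : E (r - 2) = up) (hD : 2 ^ (k + 12) ≤ D) (hP : Plc E r D k s I) (hd : 2 ^ (l + 17) ≤ d)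
    (hn1 : K + 6 ≤ n1) (hn2 : K + 6 ≤ n2) (hdk : 2 * (((n0 + n1 + n2 : ℕ) : ℤ) * d) ≤ 2 ^ k)
    (hm : (m : ℝ) + 2 ≤ κ * ml l / 2) (hm0 : m0 ≤ I.length) (hm1 : (I.length : ℝ) + A * ml k ≤ m1)
    (hB' : 2 * D + 6 * 2 ^ k ≤ B') :
    RQ3 E r D k σ n0 n1 n2 d l κ A I ⊆ ImN E r D k B' (AA K σ d (A * ml l) m0 m1) m s I := by
  rintro Q ⟨hQ, hlQ, P, V, B, rfl, hT, hb, hV, hB⟩
  have hcy := cy_of hE (by omega) hup hD hP hQ
  obtain ⟨c1, c2, hc12, hc2, hcl, hloc⟩ := vg_loc (K := K) hV hd hn1 hn2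
  have hdV : TIW.de V = up := by
    rw [hV.tub.de]
    exact pE_top (by omega)
  obtain ⟨a0, ha0⟩ : ∃ a0, a0 = I.length + P.length := ⟨_, rfl⟩
  have hd0 : 0 ≤ d := le_trans (by positivity) hd
  have hKd : (K : ℤ) * d ≤ 2 ^ k := by
    have h1 : (K : ℤ) * d ≤ ((n0 + n1 + n2 : ℕ) : ℤ) * d := by
      refine mul_le_mul_of_nonneg_right ?_ hd0
      have : K ≤ n0 + n1 + n2 := by omega
      exact_mod_cast this
    have h2 : 0 ≤ (K : ℤ) * d := mul_nonneg (Int.natCast_nonneg _) hd0
    linarith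
  refine ⟨hQ, (Icc (a0 + c1 + 1) (a0 + c2 - 1)).filter fun b => b % 2 = 0 % 2, ?_, fun a ha => ?_⟩
  · have h1 := par_card (a0 + c1 + 1) (a0 + c2 - 1) 0
    have h2 : (c2 - c1 : ℕ) ≤ 2 * ((a0 + c2 - 1 - (a0 + c1 + 1)) / 2) + 3 := by omega
    have h3 : ((c2 - c1 : ℕ) : ℝ) ≤ 2 * (((a0 + c2 - 1 - (a0 + c1 + 1)) / 2 : ℕ) : ℝ) + 3 := by exact_mod_cast h2
    have h4 : (m : ℝ) ≤ (((a0 + c2 - 1 - (a0 + c1 + 1)) / 2 : ℕ) : ℝ) := by linarith
    have h5 : m ≤ (a0 + c2 - 1 - (a0 + c1 + 1)) / 2 := by exact_mod_cast h4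
    exact h5.trans h1
  · rw [mem_filter, mem_Icc] at ha
    obtain ⟨⟨a1, a2⟩, a3⟩ := ha
    obtain ⟨q, hq⟩ : ∃ q, a = a0 + q := ⟨a - a0, by omega⟩
    have hq1 : c1 < q := by omega
    have hq2 : q < c2 := by omega
    have hlQ' : (P ++ (V ++ B)).length = P.length + (V.length + B.length) := by
      rw [List.length_append, List.length_append]
    have key := rev_of hE hr hup hup2 hD hP hQ hT hb (hloc q hq1 hq2) hdV hB hdk hKd (by
      rw [← ha0, ← hq, Nat.even_iff]
      omega) (by omega)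
    rw [← ha0, ← hq] at key
    obtain ⟨⟨e, k0, k1⟩, k2⟩ := key
    have hrl : ((I ++ (P ++ (V ++ B))).rotate a).length = I.length + (P ++ (V ++ B)).length := by
      rw [List.length_rotate, List.length_append]
    refine ⟨by omega, ⟨?_, ?_, ?_, e, k0, k1.mono hV.len⟩, k2.trans hB'⟩
    · rw [hrl]
      omega
    · rw [hrl]
      have h6 : ((I.length + (P ++ (V ++ B)).length : ℕ) : ℝ) ≤ m1 := by
        push_cast
        linarith
      exact_mod_cast h6
    · rw [hrl]
      exact POL.Cy.rot hcy a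

end geo

end N1

end ART

end HexObs
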