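import Pool.Agent.ROT.F3Cls

/-!
# ROT / F3N1P (helper48): from the arms at the root to the native gates (row N1, last step)

`ArmG d δ Λ w s` : the first `s` letters of the word `w` are a straight arm in the direction `d`: all vertices within `δ` of the
ray, a cut in every window `[y, y + δ]`, `δ ≤ y ≤ Λ`.
* `gate_one`, `gate_two` : the first cut with level at least `l`, the first cut behind a given cut with level at least `m` over it;
* **`blk_arm`** : the block between two such gates: `BlkC`, `FstC`, `ThC`, cone, ball;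
* **`preM_arm`** : the native double gate: `PreM d P S T (w.take k2) k1`;
* **`edQ_arm`** : the rest behind the gate `x`, if nothing else is in the ball;
* **`dcp_arm`** : `w.take M = p ++ (b ++ R)`, `p ∈ Pre`, `b ∈ OtB`, `RestC`, the same `p`, `b` for all `M`.
-/

set_option autoImplicit false

namespace Pool.Agent.ROT.F3

open Finset ComplexConjugate
open scoped ENNReal Classical

/-- **an arm of the word `w`** in the direction `d` -/
structure ArmG (d : ℂ) (δ Λ : ℝ) (w : W3) (s : ℕ) : Prop where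
  le : s ≤ w.length
  near : ∀ i : ℕ, i ≤ s → ∃ τ : ℝ, 0 ≤ τ ∧ ‖ps w i - τ * d‖ ≤ δ
  cut : ∀ y : ℝ, δ ≤ y → y ≤ Λ → ∃ c : ℕ, Even c ∧ c < s ∧ y ≤ lv d (ps w c) ∧ lv d (ps w c) ≤ y + δ ∧ CutC d (w.take s) c

section arm

variable {d : ℂ} {δ Λ : ℝ} {w : W3} {s : ℕ}

lemma lv_self (hd : ‖d‖ = 1) (τ : ℝ) : lv d ((τ : ℂ) * d) = τ := by
  unfold lv
  have h2 : conj d * ((τ : ℂ) * d) = (τ : ℂ) * (d * conj d) := by ring
  rw [h2, Complex.mul_conj, Complex.normSq_eq_norm_sq, hd]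
  simp

lemma abs_lv (hd : ‖d‖ = 1) (z : ℂ) : |lv d z| ≤ ‖z‖ := by
  unfold lv
  refine (Complex.abs_re_le_norm _).trans ?_
  rw [norm_mul, RCLike.norm_conj, hd, one_mul]

/-- the level and the parameter of the ray -/
lemma near_lv (hd : ‖d‖ = 1) {z : ℂ} {τ δ : ℝ} (h : ‖z - τ * d‖ ≤ δ) : |lv d z - τ| ≤ δ := by
  have h1 : lv d z - τ = lv d (z - τ * d) := by rw [lv_sub, lv_self hd]
  rw [h1]
  exact (abs_lv hd _).trans h

lemma cut_take {k : ℕ} (hs : s ≤ w.length) (hk : k ≤ s) : CutC d (w.take s) k ↔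
    (∀ j : ℕ, j ≤ k → lv d (ps w j) ≤ lv d (ps w k)) ∧ ∀ j : ℕ, k < j → j ≤ s → lv d (ps w k) < lv d (ps w j) := by
  unfold CutC
  rw [ps_take w hk hs, List.length_take, min_eq_left hs]
  constructor
  · rintro ⟨h1, h2⟩
    refine ⟨fun j hj => ?_, fun j hj hj' => ?_⟩
    · have := h1 j hj
      rwa [ps_take w (hj.trans hk) hs] at this
    · have := h2 j hj hj'
      rwa [ps_take w hj' hs] at this
  · rintro ⟨h1, h2⟩
    refine ⟨fun j hj => ?_, fun j hj hj' => ?_⟩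
    · rw [ps_take w (hj.trans hk) hs]
      exact h1 j hj
    · rw [ps_take w hj' hs]
      exact h2 j hj hj'

/-- **the first cut of the arm behind `k0` with level at least `l`** -/
theorem gate_first (A : ArmG d δ Λ w s) {l : ℝ} (h1 : δ ≤ l) (h2 : l ≤ Λ) :
    ∃ k : ℕ, Even k ∧ k < s ∧ l ≤ lv d (ps w k) ∧ lv d (ps w k) ≤ l + δ ∧ CutC d (w.take s) k ∧
      ∀ j : ℕ, Even j → j < k → CutC d (w.take s) j → lv d (ps w j) < l := by
  obtain ⟨c, c1, c2, c3, c4, c5⟩ := A.cut l h1 h2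
  have hex : ∃ k : ℕ, Even k ∧ k < s ∧ CutC d (w.take s) k ∧ l ≤ lv d (ps w k) := ⟨c, c1, c2, c5, c3⟩
  obtain ⟨k1, k2, k3, k4⟩ := Nat.find_spec hex
  have hmin : Nat.find hex ≤ c := Nat.find_min' hex ⟨c1, c2, c5, c3⟩
  refine ⟨Nat.find hex, k1, k2, k4, ?_, k3, fun j hj hj' hc => ?_⟩
  · have := ((cut_take A.le c2.le).1 c5).1 _ hmin
    linarith
  · by_contra h
    exact Nat.find_min hex hj' ⟨hj, hj'.trans k2, hc, not_lt.1 h⟩

/-- the prefix up to the first cut -/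
theorem fst_arm (A : ArmG d δ Λ w s) {l : ℝ} {k : ℕ} (hk : k < s) (hl : l ≤ lv d (ps w k)) (hc : CutC d (w.take s) k)
    (hm : ∀ j : ℕ, Even j → j < k → CutC d (w.take s) j → lv d (ps w j) < l) : FstC d l (w.take k) := by
  have hkw : k ≤ w.length := hk.le.trans A.le
  rw [cut_take A.le hk.le] at hc
  refine ⟨?_, fun j hj hjk hj' => ?_⟩
  · rw [en_take w hkw]
    exact hl
  · rw [List.length_take, min_eq_left hkw] at hjk
    rw [ps_take w hjk.le hkw]
    rw [cut_take hkw hjk.le] at hj'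
    refine hm j hj hjk ((cut_take A.le (hjk.le.trans hk.le)).2 ⟨hj'.1, fun i hi hi' => ?_⟩)
    rcases Nat.lt_or_ge k i with h | h
    · exact (hj'.2 k hjk le_rfl).trans (hc.2 i h hi')
    · exact hj'.2 i hi h

/-- **the next gate**: the first cut with level at least `m` over the cut `k` -/
theorem gate_next (A : ArmG d δ Λ w s) {k : ℕ} (hk : k < s) (hc : CutC d (w.take s) k) {m : ℝ} (hm : 0 < m)
    (h1 : δ ≤ lv d (ps w k) + m) (h2 : lv d (ps w k) + m ≤ Λ) :
    ∃ k' : ℕ, Even k' ∧ k < k' ∧ k' < s ∧ m ≤ lv d (ps w k') - lv d (ps w k) ∧ lv d (ps w k') - lv d (ps w k) ≤ m + δ ∧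
      CutC d (w.take s) k' ∧
      ∀ j : ℕ, Even j → k ≤ j → j < k' → CutC d (w.take s) j → lv d (ps w j) - lv d (ps w k) < m := by
  obtain ⟨k', a1, a2, a3, a4, a5, a6⟩ := gate_first A h1 h2
  refine ⟨k', a1, ?_, a2, by linarith, by linarith, a5, fun j hj _ hj' hc' => ?_⟩
  · by_contra h
    have := ((cut_take A.le hk.le).1 hc).1 k' (not_lt.1 h)
    linarith
  · have := a6 j hj hj' hc'
    linarith

lemma drop_take {k k' : ℕ} (h : k ≤ k') (h' : k' ≤ w.length) (ek : Even k) :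
    ((w.take k').drop k).length = k' - k ∧
      ∀ j : ℕ, j ≤ k' - k → ps ((w.take k').drop k) j = ps w (k + j) - ps w k := by
  have hl : (w.take k').length = k' := by rw [List.length_take, min_eq_left h']
  refine ⟨by rw [List.length_drop, hl], fun j hj => ?_⟩
  rw [ps_append_drop (w.take k') (by rw [hl]; exact h) ek, ps_take w (by omega) h', ps_take w h h']

/-- positions of two vertices of the arm -/
lemma near_two (hd : ‖d‖ = 1) {z z' : ℂ} {τ τ' δ : ℝ} (h : ‖z - τ * d‖ ≤ δ) (h' : ‖z' - τ' * d‖ ≤ δ)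
    (hl : lv d z' ≤ lv d z) : ‖z - z'‖ ≤ lv d z - lv d z' + 4 * δ := by
  have e1 : z - z' = ((τ - τ' : ℝ) : ℂ) * d + ((z - τ * d) - (z' - τ' * d)) := by
    push_cast
    ring
  have h1 : ‖z - z'‖ ≤ |τ - τ'| + 2 * δ := by
    rw [e1]
    refine (norm_add_le _ _).trans ?_
    rw [norm_mul, hd, mul_one, Complex.norm_real, Real.norm_eq_abs]
    have := norm_sub_le (z - τ * d) (z' - τ' * d)
    linarith
  have a1 := abs_le.1 (near_lv hd h)
  have a2 := abs_le.1 (near_lv hd h')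
  rcases abs_cases (τ - τ') with ⟨h2, -⟩ | ⟨h2, -⟩ <;> rw [h2] at h1 <;> linarith [a1.1, a1.2, a2.1, a2.2]

lemma norm_near (hd : ‖d‖ = 1) {z : ℂ} {τ δ : ℝ} (h0 : 0 ≤ τ) (h : ‖z - τ * d‖ ≤ δ) : ‖z‖ ≤ lv d z + 2 * δ := by
  have h1 : ‖z‖ ≤ ‖z - τ * d‖ + ‖(τ : ℂ) * d‖ := by
    have := norm_add_le (z - τ * d) (τ * d)
    rwa [sub_add_cancel] at this
  rw [norm_mul, hd, mul_one, Complex.norm_real, Real.norm_of_nonneg h0] at h1
  have := (abs_le.1 (near_lv hd h)).1
  linarith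

/-- **the block between two gates of the arm** -/
theorem blk_arm (hd : ‖d‖ = 1) (hδ : 0 ≤ δ) (A : ArmG d δ Λ w s)
    (hsw : ∀ i j : ℕ, i ≤ s → j ≤ s → ps w i = ps w j → i = j) {k : ℕ} (ek : Even k) (hk : k < s)
    (hc : CutC d (w.take s) k) {m : ℝ} (hm : 0 < m) (h1 : δ ≤ lv d (ps w k) + m) (h2 : lv d (ps w k) + m ≤ Λ) :
    ∃ k' : ℕ, Even k' ∧ k < k' ∧ k' < s ∧ m ≤ lv d (ps w k') - lv d (ps w k) ∧ lv d (ps w k') - lv d (ps w k) ≤ m + δ ∧
      CutC d (w.take s) k' ∧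
      BlkC d (m + 5 * δ) ((w.take k').drop k) ∧ FstC d m ((w.take k').drop k) ∧
      (∀ j : ℕ, j ≤ ((w.take k').drop k).length → ‖ps ((w.take k').drop k) j‖ ≤ lv d (ps ((w.take k').drop k) j) + 4 * δ) ∧
      (∀ h : ℝ, 0 < h → δ ≤ lv d (ps w k) + h → h + δ < m → ThC d h ((w.take k').drop k)) := by
  obtain ⟨k', a1, a2, a3, a4, a5, a6, a7⟩ := gate_next A hk hc hm h1 h2
  have hkw : k' ≤ w.length := a3.le.trans A.le
  obtain ⟨l1, l2⟩ := drop_take (w := w) a2.le hkw ek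
  have hcut := (cut_take A.le hk.le).1 hc
  have hcut' := (cut_take A.le a3.le).1 a6
  have hen : en ((w.take k').drop k) = ps w k' - ps w k := by
    rw [en, l1, l2 _ le_rfl, Nat.add_sub_cancel' a2.le]
  obtain ⟨τ0, t0, n0⟩ := A.near k hk.le
  have hball : ∀ j : ℕ, j ≤ ((w.take k').drop k).length →
      ‖ps ((w.take k').drop k) j‖ ≤ lv d (ps ((w.take k').drop k) j) + 4 * δ := by
    intro j hj
    rw [l1] at hj
    rw [l2 j hj, lv_sub]
    obtain ⟨τ, t1, n1⟩ := A.near (k + j) (by omega)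
    refine near_two hd n1 n0 ?_
    rcases Nat.eq_zero_or_pos j with h | h
    · rw [h, add_zero]
    · exact (hcut.2 (k + j) (by omega) (by omega)).le
  refine ⟨k', a1, a2, a3, a4, a5, a6, ⟨⟨?_, ?_, ?_, ?_, ?_⟩, ?_⟩, ⟨?_, ?_⟩, hball, ?_⟩
  · rw [l1]
    exact by obtain ⟨x, hx⟩ := a1; obtain ⟨y, hy⟩ := ek; exact ⟨x - y, by omega⟩
  · intro i j hi hj he
    rw [l1] at hi hj
    rw [l2 i hi, l2 j hj, sub_left_inj] at he
    have := hsw (k + i) (k + j) (by omega) (by omega) he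
    omega
  · rw [l1]
    omega
  · intro j hj
    rw [l1] at hj
    rw [hen, l2 j hj, lv_sub, lv_sub]
    have := hcut'.1 (k + j) (by omega)
    linarith
  · intro j hj
    have h3 := hball j hj
    rw [l1] at hj
    rw [l2 j hj, lv_sub] at h3
    rw [l2 j hj]
    have := hcut'.1 (k + j) (by omega)
    linarith
  · intro j hj hj'
    rw [l1] at hj'
    rw [l2 j hj', lv_sub]
    have := hcut.2 (k + j) (by omega) (by omega)
    linarith
  · rw [hen, lv_sub]
    exact a4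
  · intro j hj hj' hcj
    rw [l1] at hj'
    rw [l2 j hj'.le, lv_sub]
    refine a7 (k + j) (ek.add hj) (by omega) (by omega) ((cut_take A.le (by omega)).2 ⟨fun i hi => ?_, fun i hi hi' => ?_⟩)
    · rcases Nat.le_total i k with h | h
      · have h3 := hcj.1 0 (Nat.zero_le _)
        rw [ps_zero, lv_zero, l2 j hj'.le, lv_sub] at h3
        linarith [hcut.1 i h]
      · have h3 := hcj.1 (i - k) (by omega)
        rw [l2 j hj'.le, l2 (i - k) (by omega), Nat.add_sub_cancel' h, lv_sub, lv_sub] at h3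
        linarith
    · rcases Nat.lt_or_ge k' i with h | h
      · exact lt_of_le_of_lt (hcut'.1 (k + j) (by omega)) (hcut'.2 i h hi')
      · have h3 := hcj.2 (i - k) (by omega) (by rw [l1]; omega)
        rw [l2 j hj'.le, l2 (i - k) (by omega), Nat.add_sub_cancel' (by omega), lv_sub, lv_sub] at h3
        linarith
  · intro h h3 h4 h5
    obtain ⟨c, c1, c2, c3, c4, c5⟩ := A.cut (lv d (ps w k) + h) h4 (by linarith)
    have hcc := (cut_take A.le c2.le).1 c5
    have hkc : k < c := by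
      by_contra hcon
      have := hcut.1 c (not_lt.1 hcon)
      linarith
    have hck : c < k' := by
      by_contra hcon
      have := hcc.1 k' (not_lt.1 hcon)
      linarith
    refine ⟨c - k, by obtain ⟨x, hx⟩ := c1; obtain ⟨y, hy⟩ := ek; exact ⟨x - y, by omega⟩, by omega, by rw [l1]; omega, ⟨fun j hj => ?_, fun j hj hj' => ?_⟩, ?_⟩
    · rw [l2 j (by omega), l2 (c - k) (by omega), Nat.add_sub_cancel' hkc.le, lv_sub, lv_sub]
      have := hcc.1 (k + j) (by omega)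
      linarith
    · rw [l1] at hj'
      rw [l2 j (by omega), l2 (c - k) (by omega), Nat.add_sub_cancel' hkc.le, lv_sub, lv_sub]
      have := hcc.2 (k + j) (by omega) (by omega)
      linarith
    · rw [l2 (c - k) (by omega), Nat.add_sub_cancel' hkc.le, lv_sub]
      linarith

/-- **the prefix up to the first gate of the arm** -/
theorem tip_arm (hd : ‖d‖ = 1) (A : ArmG d δ Λ w s)
    (hsw : ∀ i j : ℕ, i ≤ s → j ≤ s → ps w i = ps w j → i = j) {l : ℝ} (hl : 0 < l) (h1 : δ ≤ l) (h2 : l ≤ Λ) :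
    ∃ k : ℕ, Even k ∧ 0 < k ∧ k < s ∧ l ≤ lv d (ps w k) ∧ lv d (ps w k) ≤ l + δ ∧ CutC d (w.take s) k ∧
      TipC d (l + 3 * δ) (w.take k) ∧ FstC d l (w.take k) := by
  obtain ⟨k, a1, a2, a3, a4, a5, a6⟩ := gate_first A h1 h2
  have hkw : k ≤ w.length := a2.le.trans A.le
  have hcut := (cut_take A.le a2.le).1 a5
  have hk0 : 0 < k := by
    rcases Nat.eq_zero_or_pos k with h | h
    · rw [h, ps_zero, lv_zero] at a3
      linarith
    · exact h
  have hlen : (w.take k).length = k := by rw [List.length_take, min_eq_left hkw]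
  refine ⟨k, a1, hk0, a2, a3, a4, a5, ⟨?_, ?_, ?_, ?_, ?_⟩, fst_arm A a2 a3 a5 a6⟩
  · rw [hlen]
    exact a1
  · intro i j hi hj he
    rw [hlen] at hi hj
    rw [ps_take w hi hkw, ps_take w hj hkw] at he
    exact hsw i j (by omega) (by omega) he
  · rw [hlen]
    exact hk0
  · intro j hj
    rw [hlen] at hj
    rw [en_take w hkw, ps_take w hj hkw]
    exact hcut.1 j hj
  · intro j hj
    rw [hlen] at hj
    rw [ps_take w hj hkw]
    obtain ⟨τ, t0, t1⟩ := A.near j (by omega)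
    have := norm_near hd t0 t1
    have := hcut.1 j hj
    linarith

lemma TipC.mono {r r' : ℝ} {p : W3} (h : TipC d r p) (hr : r ≤ r') : TipC d r' p :=
  ⟨h.ev, h.sw, h.pos, h.left, fun k hk => (h.ball k hk).trans hr⟩

lemma BlkC.mono {r r' : ℝ} {p : W3} (h : BlkC d r p) (hr : r ≤ r') : BlkC d r' p := ⟨h.t.mono hr, h.right⟩

/-- the inequalities between the data of a gate and the arm -/
structure ArmP (P : Tp) (S T δ Λ : ℝ) (s : ℕ) : Prop where
  S0 : 0 < S
  δ0 : 0 ≤ δ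
  l : δ ≤ P.l * S
  Λ : P.l * S + δ + P.m * S ≤ Λ
  r : P.l * S + 3 * δ ≤ P.r * S
  r2 : P.m * S + 5 * δ ≤ P.r2 * S
  th : P.th * P.m * S + δ < P.m * S
  κ1 : 4 * δ ≤ P.κ1 * S
  κ : 4 * δ ≤ P.κ * S
  e : P.e * S + 2 * δ ≤ (1 - P.cs) * (P.l * S)
  w : δ ≤ P.w * S
  la : (s : ℝ) ≤ P.la * T
  lb : (s : ℝ) ≤ P.lb * T

/-- **the native double gate of an arm** -/
theorem preM_arm (hd : ‖d‖ = 1) {P : Tp} (hP : P.Ok) {S T : ℝ} (A : ArmG d δ Λ w s) (hA : ArmP P S T δ Λ s)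
    (hsw : ∀ i j : ℕ, i ≤ s → j ≤ s → ps w i = ps w j → i = j) :
    ∃ k1 k2 : ℕ, Even k1 ∧ Even k2 ∧ 0 < k1 ∧ k1 < k2 ∧ k2 < s ∧ CutC d (w.take s) k1 ∧ CutC d (w.take s) k2 ∧
      P.l * S ≤ lv d (ps w k1) ∧ lv d (ps w k1) ≤ P.l * S + δ ∧ P.m * S ≤ lv d (ps w k2) - lv d (ps w k1) ∧
      lv d (ps w k2) - lv d (ps w k1) ≤ P.m * S + δ ∧ PreM d P S T (w.take k2) k1 := by
  have hS := hA.S0
  have hδ := hA.δ0
  have p1 : 0 < P.l * S := mul_pos hP.l hS
  have p2 : 0 < P.m * S := mul_pos hP.m hS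
  obtain ⟨k1, a1, a2, a3, a4, a5, a6, a7, a8⟩ := tip_arm hd A hsw p1 hA.l (by linarith [hA.Λ])
  obtain ⟨k2, b1, b2, b3, b4, b5, b6, b7, b8, b9, b10⟩ := blk_arm hd hδ A hsw a1 a3 a6 p2 (by linarith [hA.l])
    (by linarith [hA.Λ])
  have hkw : k2 ≤ w.length := b3.le.trans A.le
  have hlen : (w.take k2).length = k2 := by rw [List.length_take, min_eq_left hkw]
  have htt : (w.take k2).take k1 = w.take k1 := by rw [List.take_take, min_eq_left b2.le]
  have hcs : P.cs < 1 := by linarith [hP.c, hP.c1]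
  refine ⟨k1, k2, a1, b1, a2, b2, b3, a6, b6, a4, a5, b4, b5, ⟨⟨?_, ?_, ?_, ?_, ?_⟩, ?_, ?_, ?_, ?_, ?_⟩⟩
  · rw [hlen]
    exact b2.le
  · rw [htt]
    exact a7.mono hA.r
  · rw [htt]
    exact a8
  · exact b7.mono hA.r2
  · exact b8
  · exact b10 _ (by have := hP.th; have := hP.m; positivity)
      (by have : 0 < P.th * P.m * S := by { have := hP.th; have := hP.m; positivity }; linarith [hA.l]) hA.th
  · rw [htt]
    unfold EndQ
    rw [en_take w (b2.le.trans hkw)]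
    obtain ⟨τ, t0, t1⟩ := A.near k1 a3.le
    have h3 := norm_near hd t0 t1
    have h4 := hA.e
    have h5 : 1 / 2 < P.cs := hP.cs
    have h6 : P.cs * ‖ps w k1‖ ≤ P.cs * (lv d (ps w k1) + 2 * δ) := mul_le_mul_of_nonneg_left h3 (by linarith)
    have h7 : (1 - P.cs) * (P.l * S) ≤ (1 - P.cs) * lv d (ps w k1) := mul_le_mul_of_nonneg_left a4 (by linarith)
    nlinarith
  · intro j hj
    have h3 := b9 j hj
    unfold Kn
    have h6 : P.c * ‖ps ((w.take k2).drop k1) j‖ ≤ ‖ps ((w.take k2).drop k1) j‖ :=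
      mul_le_of_le_one_left (norm_nonneg _) (by linarith [hP.c1])
    linarith [hA.κ1]
  · refine le_trans ?_ hA.la
    exact_mod_cast a3.le
  · refine le_trans ?_ hA.lb
    have h3 : ((w.take k2).drop k1).length ≤ s := by
      rw [List.length_drop, hlen]
      omega
    exact_mod_cast h3

/-- **the rest behind the gate `x`**: the part between the numbers `k` and `q`, if everything behind the arm is far -/
theorem edQ_arm (hd : ‖d‖ = 1) {P : Tp} (hP : P.Ok) {S T : ℝ} (A : ArmG d δ Λ w s) (hA : ArmP P S T δ Λ s) {k q : ℕ}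
    (ek : Even k) (hk : k < s) (hkq : k ≤ q) (hq : q ≤ w.length) (hc : CutC d (w.take s) k) {ρ : ℝ}
    (hfar : ∀ i : ℕ, s < i → i ≤ q → ρ ≤ ‖ps w i‖) (h1 : lv d (ps w k) + 2 * δ + P.rg * S < ρ)
    (h2 : lv d (ps w k) + 2 * δ + P.r0 * S < ρ) : EdQ d P S ((w.take q).drop k) := by
  obtain ⟨l1, l2⟩ := drop_take (w := w) hkq hq ek
  have hcut := (cut_take A.le hk.le).1 hc
  obtain ⟨τ0, t0, n0⟩ := A.near k hk.le
  have hx := norm_near hd t0 n0
  have hfar' : ∀ j : ℕ, j ≤ q - k → s < k + j → ρ - (lv d (ps w k) + 2 * δ) ≤ ‖ps w (k + j) - ps w k‖ := by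
    intro j hj hs
    have h3 := hfar (k + j) hs (by omega)
    have h4 : ‖ps w (k + j)‖ ≤ ‖ps w (k + j) - ps w k‖ + ‖ps w k‖ := by
      have := norm_add_le (ps w (k + j) - ps w k) (ps w k)
      rwa [sub_add_cancel] at this
    linarith
  refine ⟨fun j hj hj' hn => ?_, fun j hj => ?_⟩
  · rw [l1] at hj'
    rw [l2 j hj'] at hn ⊢
    rcases Nat.lt_or_ge s (k + j) with h | h
    · have := hfar' j hj' h
      linarith
    · rw [lv_sub]
      have := hcut.2 (k + j) (by omega) h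
      linarith
  · rw [l1] at hj
    rw [l2 j hj]
    rcases Nat.lt_or_ge s (k + j) with h | h
    · right
      have := hfar' j hj h
      have h5 : 0 < P.κ * S := mul_pos hP.κ hA.S0
      linarith
    · left
      obtain ⟨τ, t1, n1⟩ := A.near (k + j) h
      have h3 : lv d (ps w k) ≤ lv d (ps w (k + j)) := by
        rcases Nat.eq_zero_or_pos j with h6 | h6
        · rw [h6, add_zero]
        · exact (hcut.2 (k + j) (by omega) h).le
      have h4 := near_two hd n1 n0 h3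
      unfold Kn
      rw [lv_sub]
      have h6 : P.c * ‖ps w (k + j) - ps w k‖ ≤ ‖ps w (k + j) - ps w k‖ :=
        mul_le_of_le_one_left (norm_nonneg _) (by linarith [hP.c1])
      linarith [hA.κ]

lemma abs_ltl (hd : ‖d‖ = 1) (z : ℂ) : |ltl d z| ≤ ‖z‖ := by
  unfold ltl
  refine (Complex.abs_im_le_norm _).trans ?_
  rw [norm_mul, RCLike.norm_conj, hd, one_mul]

lemma ltl_self (hd : ‖d‖ = 1) (τ : ℝ) : ltl d ((τ : ℂ) * d) = 0 := by
  unfold ltl
  have h2 : conj d * ((τ : ℂ) * d) = (τ : ℂ) * (d * conj d) := by ring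
  rw [h2, Complex.mul_conj, Complex.normSq_eq_norm_sq, hd]
  simp

lemma ltl_near (hd : ‖d‖ = 1) {z z' : ℂ} {τ τ' δ : ℝ} (h : ‖z - τ * d‖ ≤ δ) (h' : ‖z' - τ' * d‖ ≤ δ) :
    |ltl d (z - z')| ≤ 2 * δ := by
  have e1 : z - z' = ((τ - τ' : ℝ) : ℂ) * d + ((z - τ * d) - (z' - τ' * d)) := by
    push_cast
    ring
  have e2 : ltl d (z - z') = ltl d ((z - τ * d) - (z' - τ' * d)) := by
    rw [e1]
    have : ∀ x y : ℂ, ltl d (x + y) = ltl d x + ltl d y := fun x y => by
      unfold ltl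
      rw [mul_add, Complex.add_im]
    rw [this, ltl_self hd, zero_add]
  rw [e2]
  refine (abs_ltl hd _).trans ((norm_sub_le _ _).trans ?_)
  linarith

/-- the inequalities for the outer block, the no return radius `g` and the free ball `ρ` -/
structure ArmO (P : Tp) (O : Ot) (S T g δ Λ ρ : ℝ) (s : ℕ) : Prop where
  m0 : 0 < O.m
  Λ : P.l * S + P.m * S + O.m * S + 2 * δ ≤ Λ
  r : O.m * S + 5 * δ ≤ O.r * S
  hw : 2 * δ ≤ O.hw * S
  κ : 4 * δ ≤ O.κ * S
  c0 : 0 ≤ O.c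
  c1 : O.c ≤ 1
  e : O.e * S + 4 * δ ≤ (1 - O.c) * (O.m * S)
  lb : (s : ℝ) ≤ O.lb * T
  far : P.l * S + P.m * S + O.m * S + 5 * δ + g * S < ρ

/-- **the gates of an arm**: `w.take M = p ++ (b ++ R)`, the same `p`, `b` for all `M` -/
theorem dcp_arm (hd : ‖d‖ = 1) {P : Tp} (hP : P.Ok) {O : Ot} {S T g ρ : ℝ} (A : ArmG d δ Λ w s) (hA : ArmP P S T δ Λ s)
    (hO : ArmO P O S T g δ Λ ρ s) (hsw : ∀ i j : ℕ, i ≤ s → j ≤ s → ps w i = ps w j → i = j) :
    ∃ k2 k3 : ℕ, Even k2 ∧ Even k3 ∧ k2 < k3 ∧ k3 < s ∧ w.take k2 ∈ Pre d P S T ∧ (w.take k3).drop k2 ∈ OtB d O S T ∧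
      ∀ M : ℕ, Even M → s ≤ M → M ≤ w.length → (∀ i : ℕ, s < i → i ≤ M → ρ ≤ ‖ps w i‖) →
        w.take M = w.take k2 ++ ((w.take k3).drop k2 ++ (w.take M).drop k3) ∧ Even ((w.take M).drop k3).length ∧
        RestC d (g * S) ((w.take M).drop k3) := by
  have hS := hA.S0
  have hδ := hA.δ0
  have p1 : 0 < P.l * S := mul_pos hP.l hS
  have p2 : 0 < P.m * S := mul_pos hP.m hS
  have p3 : 0 < O.m * S := mul_pos hO.m0 hS
  obtain ⟨k1, k2, a1, a2, a3, a4, a5, a6, a7, a8, a9, a10, a11, a12⟩ := preM_arm hd hP A hA hsw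
  obtain ⟨k3, b1, b2, b3, b4, b5, b6, b7, b8, b9, b10⟩ := blk_arm hd hδ A hsw a2 a5 a7 p3 (by linarith [hA.l])
    (by linarith [hO.Λ])
  have hkw : k3 ≤ w.length := b3.le.trans A.le
  obtain ⟨l1, l2⟩ := drop_take (w := w) b2.le hkw a2
  obtain ⟨τ0, t0, n0⟩ := A.near k2 a5.le
  have hcut3 := (cut_take A.le b3.le).1 b6
  refine ⟨k2, k3, a2, b1, b2, b3, ⟨k1, a12⟩, ⟨b7.mono hO.r, b8, fun j hj => ?_, fun j hj => ?_, ?_, ?_⟩, ?_⟩
  · rw [l1] at hj
    rw [l2 j hj]
    obtain ⟨τ, t1, n1⟩ := A.near (k2 + j) (by omega)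
    exact (ltl_near hd n1 n0).trans hO.hw
  · have h3 := b9 j hj
    unfold Kn
    have h6 : O.c * ‖ps ((w.take k3).drop k2) j‖ ≤ ‖ps ((w.take k3).drop k2) j‖ :=
      mul_le_of_le_one_left (norm_nonneg _) hO.c1
    linarith [hO.κ]
  · unfold EndQ
    have h3 := b9 _ le_rfl
    have e1 : ps ((w.take k3).drop k2) ((w.take k3).drop k2).length = en ((w.take k3).drop k2) := rfl
    have e2 : en ((w.take k3).drop k2) = ps w k3 - ps w k2 := by rw [en, l1, l2 _ le_rfl, Nat.add_sub_cancel' b2.le]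
    rw [e1] at h3
    have h4 : O.m * S ≤ lv d (en ((w.take k3).drop k2)) := by
      rw [e2, lv_sub]
      exact b4
    have h5 : O.c * ‖en ((w.take k3).drop k2)‖ ≤ O.c * (lv d (en ((w.take k3).drop k2)) + 4 * δ) :=
      mul_le_mul_of_nonneg_left h3 hO.c0
    have h6 : (1 - O.c) * (O.m * S) ≤ (1 - O.c) * lv d (en ((w.take k3).drop k2)) :=
      mul_le_mul_of_nonneg_left h4 (by linarith [hO.c1])
    have h7 : O.c * (4 * δ) ≤ 4 * δ := mul_le_of_le_one_left (by linarith) hO.c1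
    have h8 := hO.e
    linarith
  · refine le_trans ?_ hO.lb
    have h3 : ((w.take k3).drop k2).length ≤ s := by
      rw [l1]
      omega
    exact_mod_cast h3
  · intro M hM hsM hMw hfar
    obtain ⟨m1, m2⟩ := drop_take (w := w) (k := k3) (k' := M) (by omega) hMw b1
    refine ⟨?_, ?_, fun j hj hj' hn => ?_⟩
    · have e1 : w.take M = (w.take M).take k3 ++ (w.take M).drop k3 := (List.take_append_drop _ _).symm
      have e2 : (w.take M).take k3 = w.take k3 := by rw [List.take_take, min_eq_left (by omega)]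
      have e3 : w.take k3 = (w.take k3).take k2 ++ (w.take k3).drop k2 := (List.take_append_drop _ _).symm
      have e4 : (w.take k3).take k2 = w.take k2 := by rw [List.take_take, min_eq_left b2.le]
      rw [e4] at e3
      rw [e2] at e1
      calc w.take M = w.take k3 ++ (w.take M).drop k3 := e1
        _ = (w.take k2 ++ (w.take k3).drop k2) ++ (w.take M).drop k3 := by rw [← e3]
        _ = _ := List.append_assoc _ _ _
    · rw [m1]
      obtain ⟨x, hx⟩ := hM
      obtain ⟨y, hy⟩ := b1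
      exact ⟨x - y, by omega⟩
    · rw [m1] at hj'
      rw [m2 j hj'] at hn ⊢
      rcases Nat.lt_or_ge s (k3 + j) with h | h
      · exfalso
        obtain ⟨τ, t1, n1⟩ := A.near k3 b3.le
        have h3 := hfar (k3 + j) h (by omega)
        have h4 : ‖ps w (k3 + j)‖ ≤ ‖ps w (k3 + j) - ps w k3‖ + ‖ps w k3‖ := by
          have := norm_add_le (ps w (k3 + j) - ps w k3) (ps w k3)
          rwa [sub_add_cancel] at this
        have h5 := norm_near hd t1 n1
        linarith [hO.far]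
      · rw [lv_sub]
        have := hcut3.2 (k3 + j) (by omega) h
        linarith

end arm

end Pool.Agent.ROT.F3
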