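import Pool.Agent.ROT.F3N1Q
import Pool.Agent.ROT.F3ArmQ

/-!
# ROT / F3N1R (helper48): the closed words of helper87 (`REvW`) and the classes of F3Cls

* `arm_trunc`, **`rev_arms`** : the two arms as thin arms (`ArmC (17 d)`), cuts in every window of width `5 d` up to `K d`, nothing
  else in the ball `K d`;
* `ArmK`, `pm_rev` : the double gate of one arm; **`rw_arms`** : `w = a1 ++ (R ++ a2.reverse)`, `PaiM`, `RsC`; `armK_ex` : `κ`, `K`.
-/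

set_option autoImplicit false

namespace Pool.Agent.ROT.F3.N1W

open Finset
open Pool.Agent.NTS.Res (step pos saw fug)
open scoped ENNReal Classical

/-! ### the truncated arms -/

/-- **one arm, cut off at the level `K d`** -/
theorem arm_trunc {a : Fin 3} {K d : ℝ} (hd : 0 < d) (hK : 5 ≤ K) {w : W3} {s : ℕ} {p : ℕ → ℂ} (h : ArmW K d (ev a) p s)
    (hp : ∀ i, i ≤ s → p i = ps w i) (hs : s ≤ w.length) :
    ∃ s' : ℕ, s' < s ∧ ArmC (17 * d) (ev a) w s' ∧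
      (∀ y : ℝ, 4 * d ≤ y → y ≤ K * d → ∃ c : ℕ, CutA (ev a) w s' c ∧ y ≤ lv (ev a) (ps w c) ∧ lv (ev a) (ps w c) ≤ y + 5 * d) ∧
      ∀ i : ℕ, s' < i → i ≤ s → K * d ≤ ‖ps w i‖ := by
  have h5 : 5 * d ≤ K * d := mul_le_mul_of_nonneg_right hK hd.le
  have hcut : ∀ y : ℝ, 4 * d ≤ y → y ≤ 2 * (K * d) → ∃ c : ℕ, Even c ∧ c < s ∧ y ≤ lv (ev a) (ps w c) ∧
      lv (ev a) (ps w c) ≤ y + 5 * d ∧ (∀ i, i ≤ c → lv (ev a) (ps w i) ≤ lv (ev a) (ps w c)) ∧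
      ∀ i, c < i → i ≤ s → lv (ev a) (ps w c) < lv (ev a) (ps w i) := by
    intro y h1 h2
    obtain ⟨c, c1, c2, c3, c4, c5, c6⟩ := h.cut y h1 h2
    rw [hp c c1.le] at c2 c3 c4
    rw [hp (c + 1) c1] at c4
    refine ⟨c, even_of_step (by omega) c4, c1, c2, c3, fun i hi => ?_, fun i hi hi' => ?_⟩
    · have := c5 i hi
      rwa [hp i (by omega), hp c c1.le] at this
    · have := c6 i hi hi'
      rwa [hp i hi', hp c c1.le] at this
  have hnear : ∀ i, i ≤ s → ∃ τ : ℝ, 0 ≤ τ ∧ ‖ps w i - τ * ev a‖ ≤ 8 * d := by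
    intro i hi
    obtain ⟨τ, t0, t1⟩ := h.near i hi
    rw [hp i hi] at t1
    exact ⟨τ, t0, t1⟩
  obtain ⟨s', e1, e2, e3, e4, e5, e6⟩ := hcut (K * d + 5 * d) (by linarith) (by linarith)
  refine ⟨s', e2, ⟨fun i hi => ?_, fun i j hij hj => ?_⟩, fun y h1 h2 => ?_, fun i hi hi' => ?_⟩
  · obtain ⟨τ, t0, t1⟩ := hnear i (by omega)
    exact ⟨τ, t0, by linarith⟩
  · have hlj : -(8 * d) ≤ lv (ev a) (ps w j) := by
      obtain ⟨τ, t0, t1⟩ := hnear j (by omega)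
      have := (abs_le.1 (near_lv (ev_norm a) t1)).1
      linarith
    by_contra hcon
    rw [not_le] at hcon
    have g1 : 9 * d < lv (ev a) (ps w i) := by linarith
    obtain ⟨y, hy⟩ : ∃ y : ℝ, y = max (4 * d) (lv (ev a) (ps w i) - 6 * d) := ⟨_, rfl⟩
    have y1 : 4 * d ≤ y := by rw [hy]; exact le_max_left _ _
    have y2 : lv (ev a) (ps w i) - 6 * d ≤ y := by rw [hy]; exact le_max_right _ _
    have g2 : lv (ev a) (ps w i) ≤ K * d + 10 * d := by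
      have := e5 i (by omega)
      linarith
    have y3 : y < lv (ev a) (ps w i) - 5 * d := by
      rw [hy, max_lt_iff]
      constructor <;> linarith
    obtain ⟨c, -, c1, c2, c3, c4, c5⟩ := hcut y y1 (by linarith)
    have hci : c < i := by
      by_contra h8
      have := c4 i (not_lt.1 h8)
      linarith
    have := c5 j (by omega) (by omega)
    linarith
  · obtain ⟨c, c0, c1, c2, c3, c4, c5⟩ := hcut y h1 (by linarith)
    refine ⟨c, ⟨c0, ?_, c4, fun i hi hi' => c5 i hi (by omega)⟩, c2, c3⟩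
    by_contra h8
    have := e6 c (not_le.1 h8) c1.le
    linarith
  · have g1 := e6 i hi hi'
    have g2 := (abs_le.1 (abs_lv (ev_norm a) (ps w i))).2
    linarith

/-- **the two arms of helper87 as thin arms**: backtracking at most `17 d`, cuts in every window of width `5 d` up to `K d`, nothing
else in the ball `K d` -/
theorem rev_arms {i j : Fin 3} {K d x : ℝ} (hd : 0 < d) (hK : 5 ≤ K) {w : W3} (hc : Cl w) (h : REvW K d (ev i) (ev j) x w) :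
    ∃ s t : ℕ, (s : ℝ) ≤ x ∧ (t : ℝ) ≤ x ∧ s + t ≤ w.length ∧ s < w.length ∧ t < w.length ∧
      ArmC (17 * d) (ev i) w s ∧ ArmC (17 * d) (ev j) w.reverse t ∧
      (∀ y : ℝ, 4 * d ≤ y → y ≤ K * d → ∃ c : ℕ, CutA (ev i) w s c ∧ y ≤ lv (ev i) (ps w c) ∧ lv (ev i) (ps w c) ≤ y + 5 * d) ∧
      (∀ y : ℝ, 4 * d ≤ y → y ≤ K * d → ∃ c : ℕ, CutA (ev j) w.reverse t c ∧ y ≤ lv (ev j) (ps w.reverse c) ∧
        lv (ev j) (ps w.reverse c) ≤ y + 5 * d) ∧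
      ∀ n : ℕ, s < n → n + t < w.length → K * d ≤ ‖ps w n‖ := by
  obtain ⟨s, t, h1, h2, h3, h4, h5, h6⟩ := h
  obtain ⟨s', a1, a2, a3, a4⟩ := arm_trunc hd hK h4 (fun _ _ => rfl) (by omega : s ≤ w.length)
  obtain ⟨t', b1, b2, b3, b4⟩ := arm_trunc (w := w.reverse) hd hK h5 (fun n hn => (cl_rev hc (by omega)).symm)
    (by rw [List.length_reverse]; omega)
  refine ⟨s', t', ?_, ?_, by omega, by omega, by omega, a2, b2, a3, b3, fun n hn hn' => ?_⟩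
  · refine le_trans ?_ h1
    exact_mod_cast a1.le
  · refine le_trans ?_ h2
    exact_mod_cast b1.le
  · rcases Nat.lt_or_ge s n with hs | hs
    · rcases Nat.lt_or_ge (n + t) w.length with ht | ht
      · exact h6 n hs ht
      · have := b4 (w.length - n) (by omega) (by omega)
        rw [cl_rev hc (by omega), Nat.sub_sub_self (by omega : n ≤ w.length)] at this
        exact this
    · exact a4 n hn hs

/-- the inequalities for the arms of width `17 κ`, cuts in windows of width `5 κ` (units `S`) -/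
structure ArmK (P : Tp) (κ K : ℝ) : Prop where
  κ0 : 0 < κ
  K5 : 5 ≤ K
  l : 4 * κ ≤ P.l
  r : P.l + 39 * κ ≤ P.r
  r2 : P.m + 78 * κ ≤ P.r2
  κ1 : 68 * κ ≤ P.κ1
  κκ : 68 * κ ≤ P.κ
  e : P.e + 34 * κ ≤ (1 - P.cs) * P.l
  th : P.th * P.m + 10 * κ < P.m
  w : 17 * κ ≤ P.w
  KK : P.l + P.m + 5 * κ ≤ K * κ
  F : 2 * (P.l + P.m) + 61 * κ < K * κ

/-- **the double gate of one arm of helper87** -/
theorem pm_rev {a : Fin 3} {P : Tp} (hP : P.Ok) {κ K S T : ℝ} (hS : 0 < S) (hA : ArmK P κ K) {w : W3} {s : ℕ}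
    (hs : s ≤ w.length) (hsw : ∀ i j : ℕ, i ≤ s → j ≤ s → ps w i = ps w j → i = j) (A : ArmC (17 * (κ * S)) (ev a) w s)
    (hcut : ∀ y : ℝ, 4 * (κ * S) ≤ y → y ≤ K * (κ * S) → ∃ c : ℕ, CutA (ev a) w s c ∧ y ≤ lv (ev a) (ps w c) ∧
      lv (ev a) (ps w c) ≤ y + 5 * (κ * S)) (hla : (s : ℝ) ≤ P.la * T) (hlb : (s : ℝ) ≤ P.lb * T) :
    ∃ k1 k2 : ℕ, CutA (ev a) w s k1 ∧ CutA (ev a) w s k2 ∧ k1 < k2 ∧ P.l * S ≤ lv (ev a) (ps w k1) ∧
      lv (ev a) (ps w k1) ≤ (P.l + 5 * κ) * S ∧ (P.l + P.m) * S ≤ lv (ev a) (ps w k2) ∧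
      lv (ev a) (ps w k2) ≤ (P.l + P.m + 10 * κ) * S ∧ PreM (ev a) P S T (w.take k2) k1 := by
  have hκ := hA.κ0
  have sc : ∀ {u v : ℝ}, u ≤ v → u * S ≤ v * S := fun h => mul_le_mul_of_nonneg_right h hS.le
  have scl : ∀ {u v : ℝ}, u < v → u * S < v * S := fun h => mul_lt_mul_of_pos_right h hS
  have b1 := sc hA.l
  have b2 := sc hA.KK
  have b3 := scl hA.th
  have hm := mul_pos hP.m hS
  have ht := mul_pos (mul_pos hP.th hP.m) hS
  have hκS := mul_pos hκ hS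
  obtain ⟨c1, C1, x1, x2⟩ := hcut (P.l * S) (by linarith) (by linarith)
  obtain ⟨c2, C2, y1, y2⟩ := hcut ((P.l + P.th * P.m + 5 * κ) * S) (by linarith) (by linarith)
  obtain ⟨c3, C3, z1, z2⟩ := hcut ((P.l + P.m + 5 * κ) * S) (by linarith) (by linarith)
  have hR : Room P (17 * κ) (5 * κ) := ⟨by linarith, by linarith, by linarith [hA.r], by linarith [hA.r2],
    by linarith [hA.κ1], by linarith [hA.κκ], by linarith [hA.e]⟩
  obtain ⟨k1, k2, K1, K2, g1, -, g2, g3, g4, g5, g6⟩ := arm_pm (ev_norm a) (P := P) hP (S := S) (T := T) (D := 17 * κ) (δ := 5 * κ)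
    hS hs hsw (by rw [mul_assoc]; exact A) hR hla hlb C1 C2 C3 x1 (by linarith) y1 (by linarith) z1 (by linarith)
  exact ⟨k1, k2, K1, K2, g1, g2, g3, by linarith, by linarith, g6⟩

/-- **both strands at the root**, for the closed words of helper87 -/
theorem rw_arms {i j : Fin 3} (hij : i ≠ j) {P P' : Tp} (hP : P.Ok) (hP' : P'.Ok) {κ K S T x ρ : ℝ} (hS : 0 < S)
    (hA : ArmK P κ K) (hA' : ArmK P' κ K) (hρ : ρ + 17 * κ < P.l + P.m) (hρ' : ρ + 17 * κ < P'.l + P'.m)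
    (h1 : x ≤ P.la * T) (h2 : x ≤ P.lb * T) (h1' : x ≤ P'.la * T) (h2' : x ≤ P'.lb * T) {w : W3} (hc : Cl w)
    (h : REvW K (κ * S) (ev i) (ev j) x w) :
    ∃ (a1 a2 R : W3) (k1 j1 : ℕ), w = a1 ++ (R ++ a2.reverse) ∧ PaiM (ev i) (ev j) P P' S T (a1, a2) k1 j1 ∧
      RsC (ev i) (ev j) (ρ * S) (ρ * S) (ρ * S) R := by
  have hκS : 0 < κ * S := mul_pos hA.κ0 hS
  obtain ⟨s, t, s1, t1, st, s2, t2, A, B, hca, hcb, hfar⟩ := rev_arms hκS hA.K5 hc h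
  have hlr : w.reverse.length = w.length := List.length_reverse
  obtain ⟨k1, k2, K1, K2, g1, g2, g3, g4, g5, g6⟩ := pm_rev (T := T) hP hS hA s2.le
    (fun _ _ hi hj he => cl_inj hc s2 hi hj he) A hca (s1.trans h1) (s1.trans h2)
  obtain ⟨j1, j2, J1, J2, f1, f2, f3, f4, f5, f6⟩ := pm_rev (T := T) hP' hS hA' (by rw [hlr]; exact t2.le)
    (fun _ _ hi hj he => cl_inj_rev hc t2 hi hj he) B hcb (t1.trans h1') (t1.trans h2')
  have hle : lv (ev i) (ev j) ≤ 0 := by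
    rw [lv_ev_ev, if_neg hij]
    norm_num
  have hle' : lv (ev j) (ev i) ≤ 0 := by
    rw [lv_ev_ev, if_neg hij.symm]
    norm_num
  have q1 := mul_lt_mul_of_pos_right hρ hS
  have q2 := mul_lt_mul_of_pos_right hρ' hS
  have q3 := mul_le_mul_of_nonneg_right hA.w hS.le
  have q4 := mul_le_mul_of_nonneg_right hA'.w hS.le
  have q5 := mul_lt_mul_of_pos_right hA.F hS
  have q6 := mul_lt_mul_of_pos_right hA'.F hS
  obtain ⟨a1, a2, R, e1, -, -, e4, e5⟩ := arms_word (T := T) (ev_norm i) (ev_norm j) hle hle' (P := P) (P' := P') (S := S)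
    (ρ0 := ρ * S) (ρ0' := ρ * S) (δ0 := ρ * S) hc st A B hfar (by linarith) (by linarith) g1 K2 f1 J2 g6 f6 (by linarith)
    (by linarith) (by linarith) (by linarith) (by linarith)
  exact ⟨a1, a2, R, k1, j1, e1, e4, e5⟩

/-- the choice of `κ` and `K` -/
theorem armK_ex {P P' : Tp} (hP : P.Ok) (hP' : P'.Ok) (hl : P.l < P.r) (hl' : P'.l < P'.r) :
    ∃ κ K0 ρ : ℝ, 0 < κ ∧ 5 ≤ K0 ∧ 0 < ρ ∧ ρ + 17 * κ < P.l + P.m ∧ ρ + 17 * κ < P'.l + P'.m ∧
      ∀ K : ℝ, K0 ≤ K → ArmK P κ K ∧ ArmK P' κ K := by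
  have one : ∀ {P : Tp}, P.Ok → P.l < P.r → ∃ k : ℝ, 0 < k ∧ ∀ κ K : ℝ, 0 < κ → κ ≤ k → 5 ≤ K →
      2 * (P.l + P.m) + 61 * κ < K * κ → ArmK P κ K := by
    intro P hP hl
    have h22 : P.m < P.r2 := by linarith [hP.m22, hP.m]
    have pos : ∀ y : ℝ, 0 < y → ∃ k : ℝ, 0 < k ∧ ∀ κ' : ℝ, 0 < κ' → κ' ≤ k → 80 * κ' < y := fun y hy =>
      ⟨y / 81, by positivity, fun κ' _ h' => by
        have : 80 * κ' ≤ 80 * (y / 81) := by linarith
        linarith⟩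
    obtain ⟨k1, p1, q1⟩ := pos P.l hP.l
    obtain ⟨k2, p2, q2⟩ := pos (P.r - P.l) (by linarith)
    obtain ⟨k3, p3, q3⟩ := pos (P.r2 - P.m) (by linarith)
    obtain ⟨k4, p4, q4⟩ := pos ((1 - P.th) * P.m) (mul_pos (by linarith [hP.th1]) hP.m)
    obtain ⟨k5, p5, q5⟩ := pos P.κ1 hP.κ1
    obtain ⟨k6, p6, q6⟩ := pos P.κ hP.κ
    obtain ⟨k7, p7, q7⟩ := pos ((1 - P.cs) * P.l - P.e) (by linarith [hP.e1])
    obtain ⟨k8, p8, q8⟩ := pos P.w hP.w0
    refine ⟨min (min (min k1 k2) (min k3 k4)) (min (min k5 k6) (min k7 k8)), by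
      simp only [lt_min_iff]
      exact ⟨⟨⟨p1, p2⟩, p3, p4⟩, ⟨p5, p6⟩, p7, p8⟩, fun κ K hκ hk hK hF => ?_⟩
    simp only [le_min_iff] at hk
    obtain ⟨⟨⟨l1, l2⟩, l3, l4⟩, ⟨l5, l6⟩, l7, l8⟩ := hk
    have m1 := q1 κ hκ l1
    have m2 := q2 κ hκ l2
    have m3 := q3 κ hκ l3
    have m4 := q4 κ hκ l4
    have m5 := q5 κ hκ l5
    have m6 := q6 κ hκ l6
    have m7 := q7 κ hκ l7
    have m8 := q8 κ hκ l8
    exact ⟨hκ, hK, by linarith, by linarith, by linarith, by linarith, by linarith, by linarith, by linarith, by linarith,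
      by linarith [hP.l, hP.m], hF⟩
  obtain ⟨k, hk0, hk⟩ := one hP hl
  obtain ⟨k', hk0', hk'⟩ := one hP' hl'
  obtain ⟨σ, hσ⟩ : ∃ σ : ℝ, σ = min (P.l + P.m) (P'.l + P'.m) := ⟨_, rfl⟩
  have hσ0 : 0 < σ := by
    rw [hσ, lt_min_iff]
    exact ⟨by linarith [hP.l, hP.m], by linarith [hP'.l, hP'.m]⟩
  have s1 : σ ≤ P.l + P.m := by rw [hσ]; exact min_le_left _ _
  have s2 : σ ≤ P'.l + P'.m := by rw [hσ]; exact min_le_right _ _
  obtain ⟨κ, hκ⟩ : ∃ κ : ℝ, κ = min (min k k') (σ / 40) := ⟨_, rfl⟩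
  have hκ0 : 0 < κ := by
    rw [hκ]
    simp only [lt_min_iff]
    exact ⟨⟨hk0, hk0'⟩, by positivity⟩
  have r1 : κ ≤ k := by rw [hκ]; exact (min_le_left _ _).trans (min_le_left _ _)
  have r2 : κ ≤ k' := by rw [hκ]; exact (min_le_left _ _).trans (min_le_right _ _)
  have r3 : κ ≤ σ / 40 := by rw [hκ]; exact min_le_right _ _
  refine ⟨κ, (2 * (P.l + P.m) + 2 * (P'.l + P'.m)) / κ + 62, σ / 2, hκ0, ?_, by positivity, by linarith, by linarith,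
    fun K hK => ?_⟩
  · have : 0 ≤ (2 * (P.l + P.m) + 2 * (P'.l + P'.m)) / κ := by
      refine div_nonneg ?_ hκ0.le
      linarith [hP.l, hP.m, hP'.l, hP'.m]
    linarith
  · have hKκ : 2 * (P.l + P.m) + 2 * (P'.l + P'.m) + 62 * κ ≤ K * κ := by
      have := mul_le_mul_of_nonneg_right hK hκ0.le
      rwa [add_mul, div_mul_cancel₀ _ hκ0.ne'] at this
    have hK5 : 5 ≤ K := by
      by_contra hcon
      rw [not_le] at hcon
      have : K * κ < 5 * κ := mul_lt_mul_of_pos_right hcon hκ0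
      linarith [hP.l, hP.m, hP'.l, hP'.m]
    exact ⟨hk κ K hκ0 r1 hK5 (by linarith [hP'.l, hP'.m]), hk' κ K hκ0 r2 hK5 (by linarith [hP.l, hP.m])⟩

end Pool.Agent.ROT.F3.N1W
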