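import Pool.Agent.ROT.F3N1Defs
import Pool.Agent.ARM2.Mass

/-!
# ROT, F3, row N1a (helper39): the mass of the local words

* `tubeLen` : tubes with a free end in a disc and a length between ml k and 3 ml k;
* `CW` : chains of tubes with cuts near the nodes m 0 < m 1 < ..; `cw_facts`, `cw_mass`;
* **`vstrS`** : `VStrS n0 n1 n2` of `F3N1Defs`.
-/

set_option autoImplicit false

namespace HexObs

namespace ART

namespace N1

open Finset TIW TS SDN ARM ARM.G3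

open scoped ENNReal

/-! ### 1. Tubes with a free end, the lengths kept -/

/-- the sum over the lengths -/
lemma len_sum {H Mx k0 : ℕ} {c : ℝ}
    (hT : ∀ (k r b : ℕ) (D : ℤ) (e : ℕ → Pt) (z : Pt), k0 ≤ k →
    18 * (H * 2 ^ k) ≤ D → D ≤ 36 * (H * 2 ^ k) → 1 ≤ r → r ≤ Mx → IPg e r → e 0 = up →
    TIW.hn (z - AR.pv e D r) ≤ 2 ^ (k + 2) → cl z = (if Even b then 0 else 2) →
    cl (e (r - 1)) = (if Even b then 2 else 1) → 1 * ml k ≤ b → (b : ℝ) ≤ 3 * ml k →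
    ENNReal.ofReal (c * (Ub k / (4 ^ k * ml k))) ≤ gf {Q | TubeQ e D (2 ^ (k + 9)) r z Q ∧ Q.length = b})
    {k r : ℕ} {D : ℤ} {e : ℕ → Pt} {z : Pt} (hk : k0 ≤ k) (hk2 : 2 ≤ k) (hc : 0 < c)
    (hD1 : 18 * (H * 2 ^ k) ≤ D) (hD2 : D ≤ 36 * (H * 2 ^ k)) (hr : 1 ≤ r) (hr' : r ≤ Mx)
    (he : IPg e r) (hup : e 0 = up) (hz : TIW.hn (z - AR.pv e D r) ≤ 2 ^ (k + 2))
    (hcl : (cl z = 0 ∧ cl (e (r - 1)) = 2) ∨ (cl z = 2 ∧ cl (e (r - 1)) = 1)) :
    ENNReal.ofReal (c / 4 * (Ub k / 4 ^ k)) ≤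
      gf {Q | TubeQ e D (2 ^ (k + 9)) r z Q ∧ ml k ≤ (Q.length : ℝ) ∧ (Q.length : ℝ) ≤ 3 * ml k} := by
  classical
  have hU : 0 < Ub k := Num2Aux.UU_pos _
  have hml := G3.ml_pos k
  have hm : 4 ≤ ml k := by
    unfold ml
    have h1 : (4 : ℝ) = (2 : ℝ) ^ (2 : ℝ) := by norm_num
    rw [h1]
    refine Real.rpow_le_rpow_of_exponent_le (by norm_num) ?_
    have h2 : (2 : ℝ) ≤ k := by exact_mod_cast hk2
    linarith
  obtain ⟨a, ha⟩ : ∃ a : ℕ, (Even a ∧ cl z = 0 ∧ cl (e (r - 1)) = 2) ∨ (¬ Even a ∧ cl z = 2 ∧ cl (e (r - 1)) = 1) := by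
    rcases hcl with h | h
    · exact ⟨0, Or.inl ⟨Even.zero, h⟩⟩
    · exact ⟨1, Or.inr ⟨by decide, h⟩⟩
  obtain ⟨B, hB⟩ : ∃ B : Finset ℕ, B = (Icc ⌈ml k⌉₊ ⌊3 * ml k⌋₊).filter fun b => b % 2 = a % 2 := ⟨_, rfl⟩
  have hcard : ml k / 4 ≤ (B.card : ℝ) := by
    have h1 := G3.par_card ⌈ml k⌉₊ ⌊3 * ml k⌋₊ a
    rw [← hB] at h1
    have h2 : (⌈ml k⌉₊ : ℝ) < ml k + 1 := Nat.ceil_lt_add_one hml.le
    have h3 : 3 * ml k < ⌊3 * ml k⌋₊ + 1 := Nat.lt_floor_add_one _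
    have h4 : ⌊3 * ml k⌋₊ ≤ 2 * B.card + 1 + ⌈ml k⌉₊ := by omega
    have h5 : (⌊3 * ml k⌋₊ : ℝ) ≤ 2 * B.card + 1 + ⌈ml k⌉₊ := by exact_mod_cast h4
    linarith
  have hBr : ∀ b ∈ B, ml k ≤ (b : ℝ) ∧ (b : ℝ) ≤ 3 * ml k := by
    intro b hb
    rw [hB, mem_filter, mem_Icc] at hb
    exact ⟨(Nat.le_ceil _).trans (by exact_mod_cast hb.1.1), (Nat.cast_le.2 hb.1.2).trans (Nat.floor_le (by positivity))⟩
  have hsub : (⋃ b ∈ B, {Q | TubeQ e D (2 ^ (k + 9)) r z Q ∧ Q.length = b}) ⊆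
      {Q | TubeQ e D (2 ^ (k + 9)) r z Q ∧ ml k ≤ (Q.length : ℝ) ∧ (Q.length : ℝ) ≤ 3 * ml k} := by
    intro Q hQ
    rw [Set.mem_iUnion₂] at hQ
    obtain ⟨b, hb, hQ1, hQ2⟩ := hQ
    refine ⟨hQ1, ?_⟩
    rw [hQ2]
    exact hBr b hb
  refine le_trans ?_ (gf_mono hsub)
  have hdis : ∀ i ∈ B, ∀ j ∈ B, i ≠ j → Disjoint {Q | TubeQ e D (2 ^ (k + 9)) r z Q ∧ Q.length = i}
      {Q | TubeQ e D (2 ^ (k + 9)) r z Q ∧ Q.length = j} := by
    intro i _ j _ hij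
    rw [Set.disjoint_left]
    rintro Q ⟨-, h1⟩ ⟨-, h2⟩
    exact hij (h1.symm.trans h2)
  rw [gf_biUnion _ _ hdis]
  have key : ∀ b ∈ B, ENNReal.ofReal (c * (Ub k / (4 ^ k * ml k))) ≤
      gf {Q | TubeQ e D (2 ^ (k + 9)) r z Q ∧ Q.length = b} := by
    intro b hb
    obtain ⟨hb1, hb2⟩ := hBr b hb
    rw [hB, mem_filter, mem_Icc] at hb
    obtain ⟨-, hb3⟩ := hb
    have hpar : Even b ↔ Even a := by
      rw [Nat.even_iff, Nat.even_iff, hb3]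
    refine hT k r b D e z hk hD1 hD2 hr hr' he hup hz ?_ ?_ ?_ hb2
    · rcases ha with ⟨h1, h2, -⟩ | ⟨h1, h2, -⟩
      · rw [if_pos (hpar.2 h1), h2]
      · rw [if_neg (fun h => h1 (hpar.1 h)), h2]
    · rcases ha with ⟨h1, -, h2⟩ | ⟨h1, -, h2⟩
      · rw [if_pos (hpar.2 h1), h2]
      · rw [if_neg (fun h => h1 (hpar.1 h)), h2]
    · rw [one_mul]
      exact hb1
  calc ENNReal.ofReal (c / 4 * (Ub k / 4 ^ k)) ≤ ENNReal.ofReal (B.card * (c * (Ub k / (4 ^ k * ml k)))) := by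
        refine ENNReal.ofReal_le_ofReal ?_
        have h1 : ml k / 4 * (c * (Ub k / (4 ^ k * ml k))) ≤ B.card * (c * (Ub k / (4 ^ k * ml k))) :=
          mul_le_mul_of_nonneg_right hcard (by positivity)
        refine le_trans (le_of_eq ?_) h1
        field_simp
    _ = ∑ b ∈ B, ENNReal.ofReal (c * (Ub k / (4 ^ k * ml k))) := by
        rw [sum_const, nsmul_eq_mul, ENNReal.ofReal_mul (by positivity), ENNReal.ofReal_natCast]
    _ ≤ _ := sum_le_sum key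

/-- the sum over the ends of a disc, with a condition on the words -/
lemma end_sum {x : ℝ} {k r : ℕ} {D w : ℤ} {e : ℕ → Pt} {R : List Bool → Prop} (p : Pt) (he : IPg e r) (hr : 1 ≤ r)
    (hak : 5 ≤ k) (hx : 0 ≤ x) (hp : TIW.hn (p - AR.pv e D r) ≤ 2 ^ k)
    (h : ∀ z, TIW.hn (z - AR.pv e D r) ≤ 2 ^ (k + 2) →
      ((cl z = 0 ∧ cl (e (r - 1)) = 2) ∨ (cl z = 2 ∧ cl (e (r - 1)) = 1)) →
      ENNReal.ofReal (x / 4 ^ k) ≤ gf {Q | TubeQ e D w r z Q ∧ R Q}) :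
    ENNReal.ofReal (1 / 576 * x) ≤
      gf {Q | TubeQ e D w r (TIW.en Q) Q ∧ TIW.hn (TIW.en Q - p) ≤ 2 ^ k ∧ R Q} := by
  classical
  have hak' : (32 : ℝ) ≤ 2 ^ k := by
    have h1 : (2 : ℝ) ^ 5 ≤ 2 ^ k := pow_le_pow_right₀ (by norm_num) hak
    norm_num at h1
    exact h1
  obtain ⟨m, hm⟩ : ∃ m : ℕ, m = ⌊((2 : ℝ) ^ k - 6) / 9⌋₊ := ⟨_, rfl⟩
  have hm1 : (9 : ℝ) * m + 6 ≤ 2 ^ k := by
    have h1 : (m : ℝ) ≤ ((2 : ℝ) ^ k - 6) / 9 := by
      rw [hm]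
      exact Nat.floor_le (by linarith)
    linarith
  have hm1' : (9 : ℤ) * m + 6 ≤ 2 ^ k := by exact_mod_cast hm1
  have hm2 : (2 : ℝ) ^ k / 24 ≤ m := by
    have h1 : ((2 : ℝ) ^ k - 6) / 9 < m + 1 := by
      rw [hm]
      exact Nat.lt_floor_add_one _
    linarith
  obtain ⟨q, hq⟩ : ∃ q : ZMod 3, (q = 0 ∧ cl (e (r - 1)) = 2) ∨ (q = 2 ∧ cl (e (r - 1)) = 1) := by
    rcases TSum.dir_cl (e (r - 1)) (he.dir (r - 1) (by omega)) with h1 | h1
    · exact ⟨2, Or.inr ⟨rfl, h1⟩⟩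
    · exact ⟨0, Or.inl ⟨rfl, h1⟩⟩
  obtain ⟨Z, hZc, hZ⟩ := TSum.disc_pts p q m
  have hZr : ∀ z ∈ Z, TIW.hn (z - p) ≤ 2 ^ k := fun z hz => (hZ z hz).2.trans hm1'
  have hsub : (⋃ z ∈ Z, {Q | TubeQ e D w r z Q ∧ R Q}) ⊆
      {Q | TubeQ e D w r (TIW.en Q) Q ∧ TIW.hn (TIW.en Q - p) ≤ 2 ^ k ∧ R Q} := by
    intro Q hQ
    rw [Set.mem_iUnion₂] at hQ
    obtain ⟨z, hz, hQ, hR⟩ := hQ
    have h1 : TIW.en Q = z := hQ.en
    refine ⟨?_, ?_, hR⟩
    · rw [h1]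
      exact hQ
    · rw [h1]
      exact hZr z hz
  refine le_trans ?_ (gf_mono hsub)
  have hdis : ∀ i ∈ Z, ∀ j ∈ Z, i ≠ j → Disjoint {Q | TubeQ e D w r i Q ∧ R Q} {Q | TubeQ e D w r j Q ∧ R Q} := by
    intro i _ j _ hij
    rw [Set.disjoint_left]
    rintro Q ⟨h1, -⟩ ⟨h2, -⟩
    exact hij (h1.en.symm.trans h2.en)
  rw [gf_biUnion _ _ hdis]
  have key : ∀ z ∈ Z, ENNReal.ofReal (x / 4 ^ k) ≤ gf {Q | TubeQ e D w r z Q ∧ R Q} := by
    intro z hz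
    obtain ⟨h1, h2⟩ := hZ z hz
    refine h z ?_ ?_
    · have e1 : z - AR.pv e D r = (z - p) + (p - AR.pv e D r) := by abel
      rw [e1]
      have h3 := hZr z hz
      have h4 := TIW.hn_add (z - p) (p - AR.pv e D r)
      have h5 : (2 : ℤ) ^ (k + 2) = 4 * 2 ^ k := by ring
      have h6 : (0 : ℤ) < 2 ^ k := by positivity
      linarith
    · rcases hq with ⟨h3, h4⟩ | ⟨h3, h4⟩
      · exact Or.inl ⟨h1.trans h3, h4⟩
      · exact Or.inr ⟨h1.trans h3, h4⟩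
  calc ENNReal.ofReal (1 / 576 * x) ≤ ENNReal.ofReal (Z.card * (x / 4 ^ k)) := by
        refine ENNReal.ofReal_le_ofReal ?_
        rw [hZc]
        push_cast
        have h1 : ((2 : ℝ) ^ k / 24) ^ 2 ≤ (m : ℝ) ^ 2 := pow_le_pow_left₀ (by positivity) hm2 2
        have h4 : (4 : ℝ) ^ k = 2 ^ k * 2 ^ k := by
          rw [← mul_pow]
          norm_num
        calc 1 / 576 * x = ((2 : ℝ) ^ k / 24) ^ 2 * (x / 4 ^ k) := by
              rw [h4]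
              field_simp
              ring
          _ ≤ m ^ 2 * (x / 4 ^ k) := mul_le_mul_of_nonneg_right h1 (by positivity)
    _ = ∑ z ∈ Z, ENNReal.ofReal (x / 4 ^ k) := by
        rw [sum_const, nsmul_eq_mul, ENNReal.ofReal_mul (by positivity), ENNReal.ofReal_natCast]
    _ ≤ _ := sum_le_sum key

/-- **tubes with a free end in a disc, length between ml k and 3 ml k** -/
theorem tubeLen : ∃ H0 : ℕ, 2 ^ 13 ≤ H0 ∧ ∀ H : ℕ, H0 ≤ H → ∀ Mx : ℕ, ∃ (c : ℝ) (k0 : ℕ), 0 < c ∧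
    ∀ (k r : ℕ) (D : ℤ) (e : ℕ → Pt), k0 ≤ k →
      18 * (H * 2 ^ k) ≤ D → D ≤ 36 * (H * 2 ^ k) → 1 ≤ r → r ≤ Mx → IPg e r → e 0 = up →
      ∀ p : Pt, TIW.hn (p - AR.pv e D r) ≤ 2 ^ k → ENNReal.ofReal (c * Ub k) ≤
        gf {Q | TubeQ e D (2 ^ (k + 9)) r (TIW.en Q) Q ∧ TIW.hn (TIW.en Q - p) ≤ 2 ^ k ∧
          ml k ≤ (Q.length : ℝ) ∧ (Q.length : ℝ) ≤ 3 * ml k} := by
  obtain ⟨H0, hH0, hT⟩ := AR.tubeSt 1 3 (by norm_num) (by norm_num)
  refine ⟨H0, hH0, fun H hH Mx => ?_⟩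
  obtain ⟨c, k0, hc, hT⟩ := hT H hH Mx
  refine ⟨1 / 576 * (c / 4), k0 + 5, by positivity, fun k r D e hk hD1 hD2 hr hr' he hup p hp => ?_⟩
  have hU : 0 < Ub k := Num2Aux.UU_pos _
  have h8 := end_sum (x := c / 4 * Ub k) (w := 2 ^ (k + 9))
    (R := fun Q => ml k ≤ (Q.length : ℝ) ∧ (Q.length : ℝ) ≤ 3 * ml k) p he hr (by omega) (by positivity) hp
    (fun z hz hcl => by
      have h9 := len_sum hT (show k0 ≤ k by omega) (by omega) hc hD1 hD2 hr hr' he hup hz hcl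
      rwa [← mul_div_assoc] at h9)
  rwa [← mul_assoc] at h8

/-! ### 2. Chains of tubes -/

/-- words A with a free end near c, then words V A in the frame of the end of A -/
lemma glueN {e : ℕ → Pt} {p r : ℕ} {D w w' B : ℤ} {c : Pt} {n : ℕ} {x u K : ℝ} (h : AR.IPath e (p + r))
    (hs : e p = e (p - 1)) (hw : w + (w' + B) < D) {AA : Set (List Bool)} {VV : List Bool → Set (List Bool)}
    (hA : ∀ A ∈ AA, TubeQ e D w p (en A) A ∧ hn (en A - AR.pv e D p) ≤ B ∧ hn (en A - c) ≤ n)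
    (hV : ∀ A ∈ AA, ∀ V ∈ VV A, ∃ z', TubeQ (AR.nx A e p) D w' r z' V)
    (hK : 0 < K) (hx : 0 ≤ x) (hu : 0 ≤ u) (h1 : ENNReal.ofReal (x * K) ≤ gf AA)
    (h2 : ∀ A ∈ AA, ENNReal.ofReal u ≤ gf (VV A)) (hn : UU n ≤ K) : ENNReal.ofReal (x * u) ≤ gf (AR.Pr AA VV) := by
  have h3 : gf AA * ENNReal.ofReal u ≤ gf (AR.Df AA BU) * gf (AR.Pr AA VV) := by
    refine AR.glueM TIP.FreeA.BU_nil (fun _ h _ h' => TIP.FreeA.BU_app h h') h2 fun A hA1 A' hA2 V hV1 V' hV2 he hl => ?_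
    obtain ⟨Z, rfl⟩ : ∃ Z, A' = A ++ Z := by
      have h1 : A <+: A' ++ V' := ⟨V, he⟩
      have h2 : A' <+: A' ++ V' := List.prefix_append _ _
      obtain ⟨Z, hZ⟩ := List.prefix_of_prefix_length_le h1 h2 hl
      exact ⟨Z, hZ.symm⟩
    rw [List.append_assoc] at he
    have he' := List.append_cancel_left he
    obtain ⟨z', hz'⟩ := hV A hA1 V hV1
    rw [he'] at hz'
    exact ⟨Z, (AR.zQ h hs (hA _ hA1).1 (hA _ hA1).2.1 (hA _ hA2).1 hz' hw).1, rfl⟩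
  exact AR.of_step hK hx hu h3 h1 le_rfl ((AR.df_mass (d := e (p - 1)) (c := c)
    fun A hA' => ⟨(hA A hA').1.de, (hA A hA').2.2⟩).trans (ENNReal.ofReal_le_ofReal hn)) le_rfl

/-- the pieces from the node p to the node q behind the word X -/
def PC (e : ℕ → Pt) (D : ℤ) (l p q : ℕ) (X : List Bool) : Set (List Bool) :=
  {V | TubeQ (AR.nx X e p) D (2 ^ (l + 9)) (q - p) (en V) V ∧ hn (en (X ++ V) - AR.pv e D q) ≤ 2 ^ l ∧
    ml l ≤ (V.length : ℝ) ∧ (V.length : ℝ) ≤ 3 * ml l}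

/-- **chains** with cuts near the nodes m 0 < .. < m s -/
def CW (e : ℕ → Pt) (D : ℤ) (l : ℕ) (m : ℕ → ℕ) : ℕ → Set (List Bool)
  | 0 => {V | TubeQ e D (2 ^ (l + 9)) (m 0) (en V) V ∧ hn (en V - AR.pv e D (m 0)) ≤ 2 ^ l ∧
      ml l ≤ (V.length : ℝ) ∧ (V.length : ℝ) ≤ 3 * ml l}
  | i + 1 => AR.Pr (CW e D l m i) (PC e D l (m i) (m (i + 1)))

lemma p9 (l : ℕ) : (2 : ℤ) ^ (l + 9) = 512 * 2 ^ l ∧ (2 : ℤ) ^ (l + 10) = 1024 * 2 ^ l := by
  constructor <;> ring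

lemma rt_two (A B : List Bool) (y : Pt) : mulE (rt (A ++ B)) y = mulE (rt A) (mulE (rt B) y) := by
  have h : mulE up (rt (A ++ B)) = mulE up (mulE (rt A) (rt B)) := by
    rw [mulE_comm up, mulE_comm up, rt_up, ← mulE_assoc, rt_up]
    exact TIW.de_app A B
  rw [mulE_inj (mem_dirs.1 upd') h, ← mulE_assoc]

lemma nx_two {X W : List Bool} {e : ℕ → Pt} {p q : ℕ} : AR.nx W (AR.nx X e p) q = AR.nx (X ++ W) e (p + q) := by
  funext j
  have h1 : mulE (rt (X ++ W)) (AR.nx W (AR.nx X e p) q j) = mulE (rt (X ++ W)) (AR.nx (X ++ W) e (p + q) j) := by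
    unfold AR.nx
    rw [rt_rc, rt_two, rt_rc, rt_rc, add_assoc]
  exact mulE_inj (nrm_rt _) h1

lemma ipath_le {e : ℕ → Pt} {r r' : ℕ} (h : AR.IPath e r) (hr : r' ≤ r) : AR.IPath e r' :=
  ⟨fun i hi => h.dir i (by omega), fun h0 => h.one (by omega), fun i hi => h.tur i (by omega),
    fun i j hij hj => h.ind i j hij (by omega)⟩

/-- the end of W in the frame of X -/
lemma pos_nx {X W : List Bool} {e : ℕ → Pt} {a b : ℕ} {D B : ℤ} (hab : a ≤ b) (h1 : hn (en X - AR.pv e D a) ≤ B)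
    (h2 : hn (en (X ++ W) - AR.pv e D b) ≤ B) : hn (en W - AR.pv (AR.nx X e a) D (b - a)) ≤ B + B := by
  have e1 : mulE (rt X) (en W - AR.pv (AR.nx X e a) D (b - a)) = (en (X ++ W) - AR.pv e D b) - (en X - AR.pv e D a) := by
    rw [mulE_sub, AR.rt_pv, TIW.en_app, show a + (b - a) = b by omega]
    abel
  rw [← hn_mulE (nrm_rt X), e1]
  have := hn_sub (en (X ++ W) - AR.pv e D b) (en X - AR.pv e D a)
  linarith

/-- **one more tube**, in the frame of X -/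
lemma add_tube {X W V : List Bool} {e : ℕ → Pt} {a b c l : ℕ} {D : ℤ} (h : AR.IPath e c) (ha : 1 ≤ a) (hab : a < b)
    (hbc : b < c) (sa : e a = e (a - 1)) (sb : e b = e (b - 1)) (hD : 2000 * 2 ^ l < D) (dX : de X = e (a - 1))
    (pX : hn (en X - AR.pv e D a) ≤ 2 ^ l) (hW : TubeQ (AR.nx X e a) D (2 ^ (l + 10)) (b - a) (en W) W)
    (pW : hn (en (X ++ W) - AR.pv e D b) ≤ 2 ^ l)
    (hV : TubeQ (AR.nx (X ++ W) e b) D (2 ^ (l + 9)) (c - b) (en V) V) :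
    TubeQ (AR.nx X e a) D (2 ^ (l + 10)) (c - a) (en (W ++ V)) (W ++ V) := by
  obtain ⟨q9, q10⟩ := p9 l
  have h0 : (0 : ℤ) < 2 ^ l := by positivity
  have hp : AR.IPath (AR.nx X e a) (b - a + (c - b)) :=
    AR.nx_path (r := b - a + (c - b)) (by rw [show a + (b - a + (c - b)) = c by omega]; exact h) (by omega) sa dX
  have key := AR.app (e := AR.nx X e a) (p := b - a) (r := c - b) (D := D) (w := 2 ^ (l + 10)) (w' := 2 ^ (l + 9))
    (B := 2 ^ l + 2 ^ l) (z := en W) (z' := en V) hp (by omega) (by omega) (by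
      unfold AR.nx
      rw [show a + (b - a) = b by omega, show a + (b - a - 1) = b - 1 by omega, sb]) hW (pos_nx hab.le pX pW) (by
      rw [nx_two, show a + (b - a) = b by omega]
      exact hV) (by rw [q9, q10]; linarith) (by rw [q9, q10]; linarith)
  rwa [← TIW.en_app, show b - a + (c - b) = c - a by omega] at key

/-- **one more tube** -/
lemma add_tube0 {W V : List Bool} {e : ℕ → Pt} {b c l : ℕ} {D : ℤ} (h : AR.IPath e c) (hb : 1 ≤ b)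
    (hbc : b < c) (sb : e b = e (b - 1)) (hD : 2000 * 2 ^ l < D) (hW : TubeQ e D (2 ^ (l + 10)) b (en W) W)
    (pW : hn (en W - AR.pv e D b) ≤ 2 ^ l) (hV : TubeQ (AR.nx W e b) D (2 ^ (l + 9)) (c - b) (en V) V) :
    TubeQ e D (2 ^ (l + 10)) c (en (W ++ V)) (W ++ V) := by
  obtain ⟨q9, q10⟩ := p9 l
  have h0 : (0 : ℤ) < 2 ^ l := by positivity
  have key := AR.app (e := e) (p := b) (r := c - b) (D := D) (w := 2 ^ (l + 10)) (w' := 2 ^ (l + 9))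
    (B := 2 ^ l) (z := en W) (z' := en V) (by rw [show b + (c - b) = c by omega]; exact h) hb (by omega) sb hW pW hV
    (by rw [q9, q10]; linarith) (by rw [q9, q10]; linarith)
  rwa [← TIW.en_app, show b + (c - b) = c by omega] at key

/-- the nodes of the cuts -/
structure Nds (e : ℕ → Pt) (m : ℕ → ℕ) (s : ℕ) : Prop where
  ip : AR.IPath e (m s)
  m0 : 1 ≤ m 0
  mono : ∀ i, i < s → m i < m (i + 1)
  str : ∀ i, i < s → e (m i) = e (m i - 1)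

lemma Nds.le {e : ℕ → Pt} {m : ℕ → ℕ} {s : ℕ} (h : Nds e m s) {i : ℕ} (hi : i ≤ s) : m i ≤ m s := by
  induction s with
  | zero =>
    obtain rfl : i = 0 := by omega
    exact le_rfl
  | succ s ih =>
    rcases Nat.lt_or_ge s i with h1 | h1
    · obtain rfl : i = s + 1 := by omega
      exact le_rfl
    · have h2 := h.mono s (by omega)
      have h3 : m i ≤ m s := ih ⟨ipath_le h.ip h2.le, h.m0, fun j hj => h.mono j (by omega), fun j hj => h.str j (by omega)⟩ h1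
      omega

lemma Nds.sub {e : ℕ → Pt} {m : ℕ → ℕ} {s : ℕ} (h : Nds e m s) {i : ℕ} (hi : i ≤ s) : Nds e m i :=
  ⟨ipath_le h.ip (h.le hi), h.m0, fun j hj => h.mono j (by omega), fun j hj => h.str j (by omega)⟩

lemma Nds.one {e : ℕ → Pt} {m : ℕ → ℕ} {s : ℕ} (h : Nds e m s) {i : ℕ} (hi : i ≤ s) : 1 ≤ m i :=
  h.m0.trans ((h.sub hi).le (Nat.zero_le i))

/-- the words of a chain are tubes -/
theorem cw_facts {e : ℕ → Pt} {m : ℕ → ℕ} {D : ℤ} {l : ℕ} (hD : 2000 * 2 ^ l < D) {s : ℕ} (h : Nds e m s) {V : List Bool}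
    (hV : V ∈ CW e D l m s) : TubeQ e D (2 ^ (l + 10)) (m s) (en V) V ∧ hn (en V - AR.pv e D (m s)) ≤ 2 ^ l ∧
      (V.length : ℝ) ≤ (s + 1) * (3 * ml l) := by
  obtain ⟨q9, q10⟩ := p9 l
  have h0 : (0 : ℤ) < 2 ^ l := by positivity
  induction s generalizing V with
  | zero =>
    refine ⟨tubeQ_mono hV.1 (by rw [q9, q10]; linarith), hV.2.1, ?_⟩
    rw [Nat.cast_zero, zero_add, one_mul]
    exact hV.2.2.2
  | succ s ih =>
    obtain ⟨X, hX, Y, hY, rfl⟩ := hV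
    obtain ⟨i1, i2, i3⟩ := ih (h.sub (Nat.le_succ s)) hX
    refine ⟨add_tube0 h.ip ((h.sub (Nat.le_succ s)).one le_rfl) (h.mono s (by omega)) (h.str s (by omega)) hD i1 i2 hY.1,
      hY.2.1, ?_⟩
    rw [List.length_append]
    push_cast
    have := hY.2.2.2
    linarith

/-- **the cuts of the words of a chain** -/
theorem cw_cut {e : ℕ → Pt} {m : ℕ → ℕ} {D : ℤ} {l : ℕ} (hD : 2000 * 2 ^ l < D) {s : ℕ} (h : Nds e m s) {V : List Bool}
    (hV : V ∈ CW e D l m s) {i : ℕ} (hi : i < s) : ∃ X Z Y, V = X ++ (Z ++ Y) ∧ X ∈ CW e D l m i ∧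
      Z ∈ PC e D l (m i) (m (i + 1)) X ∧
      TubeQ (AR.nx X e (m i)) D (2 ^ (l + 10)) (m s - m i) (en (Z ++ Y)) (Z ++ Y) ∧
      (i + 1 < s → TubeQ (AR.nx (X ++ Z) e (m (i + 1))) D (2 ^ (l + 10)) (m s - m (i + 1)) (en Y) Y) ∧
      (i + 1 = s → Y = []) := by
  obtain ⟨q9, q10⟩ := p9 l
  have h0 : (0 : ℤ) < 2 ^ l := by positivity
  induction s generalizing V with
  | zero => omega
  | succ s ih =>
    obtain ⟨X', hX', Y', hY', rfl⟩ := hV
    obtain ⟨f1, f2, f3⟩ := cw_facts hD (h.sub (Nat.le_succ s)) hX'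
    rcases Nat.lt_or_ge i s with h1 | h1
    · obtain ⟨X, Z, Y, rfl, g1, g2, g3, g4, g5⟩ := ih (h.sub (Nat.le_succ s)) hX' h1
      obtain ⟨k1, k2, k3⟩ := cw_facts hD (h.sub (by omega : i ≤ s + 1)) g1
      have mi : m i < m s := lt_of_lt_of_le (h.mono i (by omega)) ((h.sub (Nat.le_succ s)).le (by omega))
      have hcase : (i + 1 < s ∧ m (i + 1) < m s) ∨ (i + 1 = s) := by
        rcases Nat.lt_or_ge (i + 1) s with h2 | h2
        · exact Or.inl ⟨h2, lt_of_lt_of_le (h.mono (i + 1) (by omega)) ((h.sub (Nat.le_succ s)).le (by omega))⟩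
        · exact Or.inr (by omega)
      refine ⟨X, Z, Y ++ Y', by simp, g1, g2, ?_, fun _ => ?_, fun hc => by omega⟩
      · have := add_tube (X := X) (W := Z ++ Y) (V := Y') (c := m (s + 1)) h.ip (h.one (by omega)) mi (h.mono s (by omega))
          (h.str i (by omega)) (h.str s (by omega)) hD k1.de k2 g3 f2 hY'.1
        rwa [List.append_assoc] at this
      · rcases hcase with ⟨c1, c2⟩ | c1
        · have hcw : X ++ Z ∈ CW e D l m (i + 1) := ⟨X, g1, Z, g2, rfl⟩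
          obtain ⟨k4, k5, k6⟩ := cw_facts hD (h.sub (by omega : i + 1 ≤ s + 1)) hcw
          have e1 : (X ++ Z) ++ Y = X ++ (Z ++ Y) := by simp
          refine add_tube (X := X ++ Z) (W := Y) (V := Y') (c := m (s + 1)) h.ip (h.one (by omega)) c2 (h.mono s (by omega))
            (h.str (i + 1) (by omega)) (h.str s (by omega)) hD k4.de k5 (g4 c1) ?_ ?_
          · rw [e1]
            exact f2
          · rw [e1]
            exact hY'.1
        · have e2 := g5 c1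
          subst e2
          rw [List.append_nil] at hY'
          rw [List.nil_append, c1]
          exact tubeQ_mono hY'.1 (by rw [q9, q10]; linarith)
    · obtain rfl : i = s := by omega
      refine ⟨X', Y', [], by simp, hX', hY', ?_, fun hc => by omega, fun _ => rfl⟩
      rw [List.append_nil]
      exact tubeQ_mono hY'.1 (by rw [q9, q10]; linarith)

/-- **the mass of a chain** -/
theorem cw_mass {H Mx k0 : ℕ} {c : ℝ} (hc : 0 < c) (hH : 2 ^ 13 ≤ H)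
    (hT : ∀ (k r : ℕ) (D : ℤ) (e : ℕ → Pt), k0 ≤ k →
      18 * (H * 2 ^ k) ≤ D → D ≤ 36 * (H * 2 ^ k) → 1 ≤ r → r ≤ Mx → IPg e r → e 0 = up →
      ∀ p : Pt, TIW.hn (p - AR.pv e D r) ≤ 2 ^ k → ENNReal.ofReal (c * Ub k) ≤
        gf {Q | TubeQ e D (2 ^ (k + 9)) r (TIW.en Q) Q ∧ TIW.hn (TIW.en Q - p) ≤ 2 ^ k ∧
          ml k ≤ (Q.length : ℝ) ∧ (Q.length : ℝ) ≤ 3 * ml k})
    {e : ℕ → Pt} {m : ℕ → ℕ} {D : ℤ} {l : ℕ} (hl : k0 ≤ l) (hD1 : 18 * (H * 2 ^ l) ≤ D) (hD2 : D ≤ 36 * (H * 2 ^ l))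
    {s : ℕ} (h : Nds e m s) (hM : m s ≤ Mx) : ENNReal.ofReal (c ^ (s + 1) * Ub l) ≤ gf (CW e D l m s) := by
  obtain ⟨q9, q10⟩ := p9 l
  have h0 : (0 : ℤ) < 2 ^ l := by positivity
  have hU : 0 < Ub l := Num2Aux.UU_pos _
  have hD : 2000 * 2 ^ l < D := by
    have h1 : ((2 : ℤ) ^ 13) ≤ H := by exact_mod_cast hH
    norm_num at h1
    nlinarith
  induction s with
  | zero =>
    rw [zero_add, pow_one]
    refine (hT l (m 0) D e hl hD1 hD2 h.m0 hM ⟨h.ip.dir, h.ip.tur, h.ip.ind⟩ (h.ip.one (by have := h.m0; omega))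
      (AR.pv e D (m 0)) (by rw [sub_self, show hn (0 : Pt) = 0 by decide]; exact h0.le)).trans (gf_mono ?_)
    exact fun Q hQ => hQ
  | succ s ih =>
    have hs := h.sub (Nat.le_succ s)
    have hm := h.mono s (by omega)
    have ih' := ih hs (by omega)
    have e1 : c ^ (s + 1 + 1) * Ub l = c ^ (s + 1) * (c * Ub l) := by ring
    rw [e1]
    refine glueN (e := e) (p := m s) (r := m (s + 1) - m s) (D := D) (w := 2 ^ (l + 10)) (w' := 2 ^ (l + 9)) (B := 2 ^ l)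
      (c := AR.pv e D (m s)) (n := 2 ^ l) (K := Ub l) (by rw [show m s + (m (s + 1) - m s) = m (s + 1) by omega]; exact h.ip)
      (h.str s (by omega)) (by rw [q9, q10]; linarith) (fun A hA => ?_) (fun A _ V hV => ⟨_, hV.1⟩) hU (by positivity)
      (by positivity) ih' (fun A hA => ?_) le_rfl
    · obtain ⟨i1, i2, -⟩ := cw_facts hD hs hA
      exact ⟨i1, i2, by push_cast; exact i2⟩
    · obtain ⟨i1, i2, -⟩ := cw_facts hD hs hA
      have hp : AR.IPath (AR.nx A e (m s)) (m (s + 1) - m s) :=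
        AR.nx_path (by rw [show m s + (m (s + 1) - m s) = m (s + 1) by omega]; exact h.ip) (by omega)
          (h.str s (by omega)) i1.de
      refine (hT l (m (s + 1) - m s) D (AR.nx A e (m s)) hl hD1 hD2 (by omega) (by omega) ⟨hp.dir, hp.tur, hp.ind⟩
        (hp.one (by omega)) (AR.tg A (AR.pv e D (m (s + 1)))) ?_).trans (gf_mono fun Q hQ => ?_)
      · refine AR.nx_hn.trans ?_
        rw [show m s + (m (s + 1) - m s) = m (s + 1) by omega, sub_self, show hn (0 : Pt) = 0 by decide, zero_add]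
        exact i2
      · obtain ⟨j1, j2, j3⟩ := hQ
        refine ⟨j1, ?_, j3⟩
        have e2 : en (A ++ Q) - AR.pv e D (m (s + 1)) = mulE (rt A) (en Q - AR.tg A (AR.pv e D (m (s + 1)))) := by
          have e3 := AR.rt_tg A (AR.pv e D (m (s + 1)))
          rw [mulE_sub, TIW.en_app]
          refine (congrArg (fun y => en A + mulE (rt A) (en Q) - y) e3.symm).trans ?_
          abel
        rw [e2, hn_mulE (nrm_rt A)]
        exact j2

/-! ### 3. The local path -/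

lemma turn_ip (σ : Bool) : turn σ up ∈ dirs ∧ nrm (turn σ up) = 1 ∧ ip (turn σ up) up = 1 ∧ nrm up = 1 := by
  cases σ <;> decide

lemma pE_dir (σ : Bool) (n0 n1 i : ℕ) : pE σ n0 n1 i = up ∨ pE σ n0 n1 i = turn σ up := by
  unfold pE
  split_ifs
  · exact Or.inr rfl
  · exact Or.inl rfl

lemma pE_ps (σ : Bool) (n0 n1 i k : ℕ) : ∃ a b : ℕ, a + b = k ∧
    AR.ps (pE σ n0 n1) (i + k) - AR.ps (pE σ n0 n1) i = (a : ℤ) • up + (b : ℤ) • turn σ up := by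
  induction k with
  | zero => exact ⟨0, 0, rfl, by simp⟩
  | succ k ih =>
    obtain ⟨a, b, h1, h2⟩ := ih
    have e : AR.ps (pE σ n0 n1) (i + (k + 1)) - AR.ps (pE σ n0 n1) i =
        (AR.ps (pE σ n0 n1) (i + k) - AR.ps (pE σ n0 n1) i) + pE σ n0 n1 (i + k) := by
      rw [← add_assoc, AR.ps_succ]
      abel
    rw [e, h2]
    rcases pE_dir σ n0 n1 (i + k) with h3 | h3
    · refine ⟨a + 1, b, by omega, ?_⟩
      rw [h3]
      push_cast
      rw [add_smul, one_smul]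
      abel
    · refine ⟨a, b + 1, by omega, ?_⟩
      rw [h3]
      push_cast
      rw [add_smul, one_smul]
      abel

lemma pE_path (σ : Bool) {n0 : ℕ} (h0 : 1 ≤ n0) (n1 r : ℕ) : AR.IPath (pE σ n0 n1) r := by
  refine ⟨fun i _ => ?_, fun _ => ?_, fun i _ => ?_, fun i j hij _ => ?_⟩
  · rcases pE_dir σ n0 n1 i with h | h
    · rw [h]
      exact upd'
    · rw [h]
      exact (turn_ip σ).1
  · unfold pE
    rw [if_neg (by omega)]
  · have key : ∀ τ : Bool, ∀ x y : Pt, (x = up ∨ x = turn τ up) → (y = up ∨ y = turn τ up) →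
        (y = x ∨ y = rotL x ∨ y = rotR x) := by
      rintro τ x y (rfl | rfl) (rfl | rfl) <;> cases τ <;> decide
    exact key σ _ _ (pE_dir σ n0 n1 i) (pE_dir σ n0 n1 (i + 1))
  · obtain ⟨k, rfl⟩ := Nat.exists_eq_add_of_le (show i ≤ j by omega)
    obtain ⟨a, b, h1, h2⟩ := pE_ps σ n0 n1 i k
    rw [h2]
    obtain ⟨-, t1, t2, t3⟩ := turn_ip σ
    have e : nrm ((a : ℤ) • up + (b : ℤ) • turn σ up) = (a : ℤ) ^ 2 * nrm up + (b : ℤ) ^ 2 * nrm (turn σ up) +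
        a * b * ip (turn σ up) up := by
      simp only [nrm, ip, Prod.fst_add, Prod.snd_add, Prod.smul_fst, Prod.smul_snd, smul_eq_mul]
      ring
    rw [e, t1, t2, t3]
    have h3 : (2 : ℤ) ≤ (a : ℤ) + b := by omega
    have h4 : (0 : ℤ) ≤ a := Int.natCast_nonneg a
    have h5 : (0 : ℤ) ≤ b := Int.natCast_nonneg b
    nlinarith [sq_nonneg ((a : ℤ) - b)]

/-- the nodes of the cuts: all nodes of the two columns behind the first corner but the second corner -/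
def pM (n0 n1 i : ℕ) : ℕ := if i + 1 < n1 then n0 + 1 + i else n0 + 2 + i

lemma pM_nds (σ : Bool) {n0 n1 : ℕ} (h0 : 1 ≤ n0) (h1 : 2 ≤ n1) (s : ℕ) : Nds (pE σ n0 n1) (pM n0 n1) s := by
  refine ⟨pE_path σ h0 n1 _, ?_, fun i _ => ?_, fun i _ => ?_⟩
  · unfold pM
    split_ifs <;> omega
  · unfold pM
    split_ifs <;> omega
  · unfold pM pE
    split_ifs <;> first | rfl | omega

/-- **row N1a** -/
theorem vstrS {n0 n1 n2 : ℕ} (h0 : 1 ≤ n0) (h1 : 2 ≤ n1) (h2 : 2 ≤ n2) : VStrS n0 n1 n2 := by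
  obtain ⟨H0, hH0, hT⟩ := tubeLen
  refine ⟨H0, hH0, fun H hH => ?_⟩
  obtain ⟨c, k0, hc, hT⟩ := hT H hH (n0 + n1 + n2)
  obtain ⟨s, hs⟩ : ∃ s : ℕ, s = n1 + n2 - 2 := ⟨_, rfl⟩
  have ms : pM n0 n1 s = n0 + n1 + n2 := by
    unfold pM
    split_ifs <;> omega
  refine ⟨c ^ (s + 1), 1, (s + 1) * 3, k0, by positivity, one_pos, by positivity, fun l D σ hl hD1 hD2 => ?_⟩
  have hN := pM_nds σ h0 h1 s
  have hz : (0 : ℤ) < 2 ^ l := by positivity
  have hD : 2000 * 2 ^ l < D := by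
    have h1 : ((2 : ℤ) ^ 13) ≤ H := by exact_mod_cast (hH0.trans hH)
    norm_num at h1
    nlinarith
  refine (cw_mass hc (hH0.trans hH) hT hl hD1 hD2 hN ms.le).trans (gf_mono fun V hV => ?_)
  obtain ⟨f1, f2, f3⟩ := cw_facts hD hN hV
  rw [ms] at f1 f2
  have cutp : ∀ i, i < s → ∃ X Z Y, V = X ++ (Z ++ Y) ∧ ml l ≤ (Z.length : ℝ) ∧
      Nd (pE σ n0 n1) D (2 ^ (l + 10)) (2 ^ l) (n0 + n1 + n2) (pM n0 n1 i) X (Z ++ Y) ∧
      (i + 1 < s → Nd (pE σ n0 n1) D (2 ^ (l + 10)) (2 ^ l) (n0 + n1 + n2) (pM n0 n1 (i + 1)) (X ++ Z) Y) := by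
    intro i hi
    obtain ⟨X, Z, Y, hXZ, g1, g2, g3, g4, g5⟩ := cw_cut hD hN hV hi
    obtain ⟨k1, k2, k3⟩ := cw_facts hD (hN.sub (by omega : i ≤ s)) g1
    rw [ms] at g3
    refine ⟨X, Z, Y, hXZ, g2.2.2.1, ⟨k1, k2, g3⟩, fun h3 => ?_⟩
    obtain ⟨k4, k5, k6⟩ := cw_facts hD (hN.sub (by omega : i + 1 ≤ s)) (show X ++ Z ∈ CW (pE σ n0 n1) D l (pM n0 n1) (i + 1)
      from ⟨X, g1, Z, g2, rfl⟩)
    have := g4 h3
    rw [ms] at this
    exact ⟨k4, k5, this⟩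
  refine ⟨f1, f2, by linarith, fun p hp => ?_, ?_⟩
  · obtain ⟨i, hi, hpi⟩ : ∃ i, i < s ∧ pM n0 n1 i = p := by
      rcases hp with hp | hp
      · refine ⟨p - (n0 + 1), by omega, ?_⟩
        unfold pM
        split_ifs <;> omega
      · refine ⟨p - (n0 + 2), by omega, ?_⟩
        unfold pM
        split_ifs <;> omega
    obtain ⟨X, Z, Y, hXZ, -, g1, -⟩ := cutp i hi
    rw [hpi] at g1
    exact ⟨X, Z ++ Y, hXZ, g1⟩
  · obtain ⟨X, Z, Y, hXZ, g0, g1, g2⟩ := cutp (n1 - 2) (by omega)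
    have e1 : pM n0 n1 (n1 - 2) = n0 + n1 - 1 := by
      unfold pM
      split_ifs <;> omega
    have e2 : pM n0 n1 (n1 - 2 + 1) = n0 + n1 + 1 := by
      unfold pM
      split_ifs <;> omega
    rw [e1] at g1
    rw [e2] at g2
    exact ⟨X, Z, Y, hXZ, by linarith, g1, g2 (by omega)⟩

end N1

end ART

end HexObs
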