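import Pool.Agent.RMP.FarN

/-!
# ROT, row D2 (helper3): no near return to the vertex `k'` of a walk at a distance at least `M` in time

* **`nret`** : from 44's `farN`.
-/

set_option autoImplicit false

namespace Pool.Agent.ROT.F3

open HexObs HexObs.TS HexObs.SDN HexObs.MCP HexObs.RMP

open NTF (JJ)

open scoped Classical in
/-- **no near return**: for macroscopic `M` the vertices `j ≤ k' - M` are not close to the vertex `k'` -/
theorem nret {ε h : ℝ} (hε : 0 < ε) (hh : 0 < h) : ∃ (ρ : ℝ) (n0 : ℕ), 0 < ρ ∧ ∀ n k' M : ℕ, n0 ≤ n → h * n ≤ M →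
    M ≤ k' → k' ≤ n →
    Eu n (fun t => if ∃ j : ℕ, j + M ≤ k' ∧ ‖JJ (vx oo up t j) - JJ (vx oo up t k')‖ ≤ ρ * (n : ℝ) ^ (3 / 4 : ℝ)
      then 1 else 0) ≤ ε := by
  obtain ⟨r, hr, n0, h0⟩ := farN hh hε
  refine ⟨r / 2, n0, by positivity, fun n k' M hn hM _ hkn => (Eu_mono fun t => ?_).trans (h0 n hn)⟩
  by_cases h1 : ∃ j : ℕ, j + M ≤ k' ∧ ‖JJ (vx oo up t j) - JJ (vx oo up t k')‖ ≤ r / 2 * (n : ℝ) ^ (3 / 4 : ℝ)
  · have h2 : FarN.NearW h r n t := by
      obtain ⟨j, h3, h4⟩ := h1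
      refine ⟨j, k', hkn, ?_, ?_⟩
      · have h5 : (j : ℝ) + M ≤ k' := by exact_mod_cast h3
        linarith
      · obtain ⟨v, hv⟩ : ∃ v : Pt, v = vx oo up t j - vx oo up t k' := ⟨_, rfl⟩
        rw [← NTF.JJ_sub, ← hv] at h4
        rw [← hv]
        have h5 : (TIW.hn v : ℝ) ^ 2 ≤ (2 * ‖JJ v‖) ^ 2 := by
          have h6 : ((TIW.hn v ^ 2 : ℤ) : ℝ) ≤ ((4 * nrm v : ℤ) : ℝ) := by exact_mod_cast TIW.hn_sq_le v
          rw [mul_pow, NTF.JJ_norm]
          push_cast at h6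
          linarith
        have h7 : (0 : ℝ) ≤ TIW.hn v := by exact_mod_cast TIW.hn_nonneg v
        have h8 := (sq_le_sq₀ h7 (by positivity)).1 h5
        linarith
    rw [if_pos h1, if_pos h2]
  · rw [if_neg h1]
    split_ifs
    · exact zero_le_one
    · exact le_rfl

end Pool.Agent.ROT.F3
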