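import Pool.Agent.ROT.TwoA
import Pool.Agent.ROT.PNtS
import Pool.Agent.ROT.F3Ex
import Pool.Agent.ROT.F3Dic

/-!
# ROT / F3Near (helper71): near self touches of the closed words in the frame of F3, all lengths

* `NTv N p d D` : near self touch of the closed curve with the vertices `p 0, .., p (N - 1)`;
* **`nt_sum`** : closed words with at most `B N ^ (4 / 3)` letters, weight `x ^ |w|` times `|w| + 1` (place of a second root):
  the mass of the near self touches is at most `eps N ^ (2 / 3)`;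
* **`pair_near`** : the decompositions `G6 a R b S` of a class with a near touch of the rests `R`, `S`.
-/

set_option autoImplicit false

open Filter Topology Finset

open scoped Classical ENNReal

namespace Pool.Agent.ROT.F3

open Pool.Agent.NTS.Res (step pos saw fug)

open Pool.Agent.PMA.Res (pol)

open Pool.Agent.PMA (cyF mem_cyF)

/-! ### 1. near self touches -/

/-- **a near self touch** of the closed curve with the vertices `p 0, .., p (N - 1)` : `i ≤ k ≤ j ≤ l ≤ i + N`, the vertices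
`i`, `j` at distance at most `d`, the vertices `k`, `l` at distance at least `D` from the vertex `i` -/
def NTv (N : ℕ) (p : ℕ → ℂ) (d D : ℝ) : Prop := ∃ i k j l : ℕ, i ≤ k ∧ k ≤ j ∧ j ≤ l ∧ l ≤ i + N ∧
  ‖p (i % N) - p (j % N)‖ ≤ d ∧ D ≤ ‖p (i % N) - p (k % N)‖ ∧ D ≤ ‖p (i % N) - p (l % N)‖

lemma NTv.congr {N : ℕ} (hN : 0 < N) {p q : ℕ → ℂ} (h : ∀ k : ℕ, k < N → p k = q k) (d D : ℝ) : NTv N p d D ↔ NTv N q d D := by
  unfold NTv
  refine exists_congr fun i => exists_congr fun k => exists_congr fun j => exists_congr fun l => ?_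
  rw [h _ (Nat.mod_lt i hN), h _ (Nat.mod_lt k hN), h _ (Nat.mod_lt j hN), h _ (Nat.mod_lt l hN)]

lemma NTv.mul {N : ℕ} {p : ℕ → ℂ} {c : ℂ} (hc : ‖c‖ = 1) (d D : ℝ) : NTv N (fun k => c * p k) d D ↔ NTv N p d D := by
  unfold NTv
  refine exists_congr fun i => exists_congr fun k => exists_congr fun j => exists_congr fun l => ?_
  rw [← mul_sub, ← mul_sub, ← mul_sub, norm_mul, norm_mul, norm_mul, hc, one_mul, one_mul, one_mul]

lemma NTv.mono {N : ℕ} {p : ℕ → ℂ} {d d' D D' : ℝ} (hd : d ≤ d') (hD : D' ≤ D) (h : NTv N p d D) : NTv N p d' D' := by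
  obtain ⟨i, k, j, l, a1, a2, a3, a4, a5, a6, a7⟩ := h
  exact ⟨i, k, j, l, a1, a2, a3, a4, a5.trans hd, hD.trans a6, hD.trans a7⟩

/-- the words with turns -/
lemma NTw_iff {n : ℕ} {H : List Bool} (hH : H ∈ HexObs.POL.Cy (n + 1)) (d D : ℝ) :
    N.NTw (n + 1) H d D ↔ NTv (n + 1) (pos (NTF.sw n H)) d D := by
  have key : ∀ a : ℕ, NTF.JJ (HexObs.POL.pv H a) = pos (NTF.sw n H) (a % (n + 1)) := by
    intro a
    have h1 := HexObs.POL.pv_mod (HexObs.POL.Cy.clo hH) a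
    rw [hH.1] at h1
    have h2 := Nat.mod_lt a (show 0 < n + 1 by omega)
    rw [h1, HexObs.POL.pv_eq (by rw [hH.1]; omega), NTSF.pos_sw n H _ (by omega)]
  unfold N.NTw NTv N.gap
  refine exists_congr fun i => exists_congr fun k => exists_congr fun j => exists_congr fun l => ?_
  rw [key, key, key, key]

/-- the number of the polygons with a near self touch -/
lemma pol_nt {n : ℕ} (hn : 3 ≤ n) (ho : Odd n) (d D : ℝ) :
    ((pol n).filter fun s => NTv (n + 1) (pos s) d D).card = 3 * ((cyF (n + 1)).filter fun H => N.NTw (n + 1) H d D).card := by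
  rw [pol_count hn ho (fun s => NTv (n + 1) (pos s) d D) fun s => ?_]
  · congr 2
    refine filter_congr fun H hH => (NTw_iff (mem_cyF.1 hH) d D).symm
  · have h : (pos (NTSF.rot s)) = fun k => NTSF.om * pos s k := funext fun k => NTSF.pos_rot s k
    rw [h]
    exact NTv.mul NTSF.om_norm d D

/-! ### 2. sums over the words -/

/-- the sum over the words = the sum over the lengths -/
lemma nr_tsum (g : W3 → ℝ≥0∞) : ∑' w : W3, g w = ∑' (m : ℕ) (w : W3), if w.length = m then g w else 0 := by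
  rw [ENNReal.tsum_comm]
  refine tsum_congr fun w => ?_
  rw [tsum_eq_single w.length fun m hm => if_neg (Ne.symm hm), if_pos rfl]

/-- the vertices of a word are near the root -/
lemma nr_norm_ps (w : W3) (k : ℕ) : ‖ps w k‖ ≤ k := by
  induction k with
  | zero => rw [ps_zero, norm_zero, Nat.cast_zero]
  | succ k ih =>
    rw [ps_succ]
    refine (norm_add_le _ _).trans ?_
    have h : ‖st w k‖ ≤ 1 := by
      unfold st
      split_ifs with h
      · rw [Pool.Agent.PMA.LimR.norm_step']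
      · rw [norm_zero]
        exact zero_le_one
    push_cast
    linarith

lemma NTv.len {w : W3} {d D : ℝ} (hD : 0 < D) (h : NTv w.length (ps w) d D) : D ≤ 2 * w.length := by
  obtain ⟨i, k, j, l, a1, a2, a3, a4, a5, a6, a7⟩ := h
  rcases Nat.eq_zero_or_pos w.length with h0 | h0
  · have h1 : i = k := by omega
    rw [h1, sub_self, norm_zero] at a6
    linarith
  · have h1 := norm_sub_le (ps w (i % w.length)) (ps w (k % w.length))
    have h2 := nr_norm_ps w (i % w.length)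
    have h3 := nr_norm_ps w (k % w.length)
    have h4 : ((i % w.length : ℕ) : ℝ) ≤ w.length := by exact_mod_cast (Nat.mod_lt i h0).le
    have h5 : ((k % w.length : ℕ) : ℝ) ≤ w.length := by exact_mod_cast (Nat.mod_lt k h0).le
    linarith

/-- the words of one length: from the letters to the turns -/
lemma nr_len {n : ℕ} (hn : 3 ≤ n) (ho : Odd n) (d D : ℝ) (c : ℝ≥0∞) :
    ∑' w : W3, (if w.length = n + 1 then (if Cl w ∧ NTv w.length (ps w) d D then c else 0) else 0) =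
      (3 * ((cyF (n + 1)).filter fun H => N.NTw (n + 1) H d D).card : ℕ) * c := by
  have h1 : ∀ w : W3, (if w.length = n + 1 then (if Cl w ∧ NTv w.length (ps w) d D then c else 0) else 0) =
      (Cln (n + 1)).indicator (fun w => if NTv (n + 1) (ps w) d D then c else 0) w := by
    intro w
    rw [Set.indicator_apply]
    by_cases h : w.length = n + 1
    · rw [if_pos h]
      by_cases h2 : Cl w
      · rw [if_pos (show w ∈ Cln (n + 1) from ⟨h2, h⟩)]
        simp only [h2, true_and, h]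
      · rw [if_neg fun h3 => h2 h3.1, if_neg fun h3 : w ∈ Cln (n + 1) => h2 h3.1]
    · rw [if_neg h, if_neg fun h3 : w ∈ Cln (n + 1) => h h3.2]
  simp_rw [h1]
  rw [← _root_.tsum_subtype, ← sum_pol' ho fun w => if NTv (n + 1) (ps w) d D then c else 0]
  have h2 : ∀ s : Fin n → Fin 3, NTv (n + 1) (ps (clw s)) d D ↔ NTv (n + 1) (pos s) d D := fun s =>
    NTv.congr (by omega) (fun k hk => ps_clw s (by omega)) d D
  simp_rw [h2]
  rw [← sum_filter, sum_const, nsmul_eq_mul, pol_nt hn ho]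

/-! ### 3. sums over the lengths -/

lemma nr_half (k : ℕ) : ∑ m ∈ range k, ((m : ℝ) + 1) ^ (-(1 / 2) : ℝ) ≤ 2 * (k : ℝ) ^ (1 / 2 : ℝ) := by
  induction k with
  | zero =>
    rw [range_zero, sum_empty]
    positivity
  | succ k ih =>
    rw [sum_range_succ]
    have h0 : (0 : ℝ) ≤ k := Nat.cast_nonneg k
    have h1 : (0 : ℝ) < (k : ℝ) + 1 := by linarith
    obtain ⟨a, ha⟩ : ∃ a : ℝ, a = √(k : ℝ) := ⟨_, rfl⟩
    obtain ⟨b, hb⟩ : ∃ b : ℝ, b = √((k : ℝ) + 1) := ⟨_, rfl⟩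
    have ha0 : 0 ≤ a := ha ▸ Real.sqrt_nonneg _
    have hb0 : 0 < b := hb ▸ Real.sqrt_pos.2 h1
    have haa : a * a = k := by
      rw [ha]
      exact Real.mul_self_sqrt h0
    have hbb : b * b = k + 1 := by
      rw [hb]
      exact Real.mul_self_sqrt h1.le
    have hab : a ≤ b := by
      rw [ha, hb]
      exact Real.sqrt_le_sqrt (by linarith)
    have e1 : ((k : ℝ) + 1) ^ (-(1 / 2) : ℝ) = b⁻¹ := by
      rw [Real.rpow_neg h1.le, hb, Real.sqrt_eq_rpow]
    have e2 : (((k + 1 : ℕ)) : ℝ) ^ (1 / 2 : ℝ) = b := by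
      push_cast
      rw [hb, Real.sqrt_eq_rpow]
    have e3 : (k : ℝ) ^ (1 / 2 : ℝ) = a := by rw [ha, Real.sqrt_eq_rpow]
    rw [e1, e2]
    rw [e3] at ih
    have h2 : b⁻¹ ≤ 2 * b - 2 * a := by
      rw [inv_le_iff_one_le_mul₀ hb0]
      nlinarith
    linarith

lemma nr_halft {Y c : ℝ} (hY : 0 ≤ Y) (hc : 0 ≤ c) :
    ∑' m : ℕ, (if 1 ≤ m ∧ (m : ℝ) ≤ Y then ENNReal.ofReal (c * (m : ℝ) ^ (-(1 / 2) : ℝ)) else 0) ≤
      ENNReal.ofReal (2 * c * Y ^ (1 / 2 : ℝ)) := by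
  rw [tsum_eq_sum (s := range (⌊Y⌋₊ + 1)) fun m hm => if_neg fun h => hm (mem_range.2 (by
    have := Nat.le_floor h.2
    omega))]
  rw [sum_range_succ', if_neg (by omega), add_zero]
  calc ∑ k ∈ range ⌊Y⌋₊, (if 1 ≤ k + 1 ∧ ((k + 1 : ℕ) : ℝ) ≤ Y then
        ENNReal.ofReal (c * ((k + 1 : ℕ) : ℝ) ^ (-(1 / 2) : ℝ)) else 0)
      ≤ ∑ k ∈ range ⌊Y⌋₊, ENNReal.ofReal (c * ((k : ℝ) + 1) ^ (-(1 / 2) : ℝ)) := by
        refine sum_le_sum fun k _ => ?_
        split_ifs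
        · push_cast
          exact le_rfl
        · exact bot_le
    _ = ENNReal.ofReal (c * ∑ k ∈ range ⌊Y⌋₊, ((k : ℝ) + 1) ^ (-(1 / 2) : ℝ)) := by
        rw [← ENNReal.ofReal_sum_of_nonneg fun k _ => by positivity, mul_sum]
    _ ≤ _ := by
        refine ENNReal.ofReal_le_ofReal ?_
        have h1 := nr_half ⌊Y⌋₊
        have h2 : ((⌊Y⌋₊ : ℕ) : ℝ) ^ (1 / 2 : ℝ) ≤ Y ^ (1 / 2 : ℝ) :=
          Real.rpow_le_rpow (Nat.cast_nonneg _) (Nat.floor_le hY) (by norm_num)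
        nlinarith [mul_le_mul_of_nonneg_left (h1.trans (mul_le_mul_of_nonneg_left h2 zero_le_two)) hc]

/-- the number of the closed words of turns -/
lemma cyF_le : ∃ C1 : ℝ, 0 < C1 ∧ ∀ m : ℕ, 1 ≤ m → ((cyF m).card : ℝ) * fug ^ m ≤ C1 * (m : ℝ) ^ (-(3 / 2) : ℝ) := by
  obtain ⟨C1, hC1, hP⟩ := HexObs.POL.P1
  refine ⟨C1, hC1, fun m hm => ?_⟩
  have h1 := ENNReal.toReal_mono ENNReal.ofReal_ne_top (hP m hm)
  rw [ENNReal.toReal_ofReal (by positivity), HexObs.PMA.card_all] at h1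
  rwa [NTSF.fug_eq]

/-- **near self touches of the closed words, all lengths, two roots** -/
theorem nt_sum (ε ρ B : ℝ) (hε : 0 < ε) (hρ : 0 < ρ) (hB : 0 < B) : ∃ δ : ℝ, 0 < δ ∧ ∃ N0 : ℕ, ∀ N : ℕ, N0 ≤ N →
    ∑' w : W3, (if Cl w ∧ (w.length : ℝ) ≤ B * (N : ℝ) ^ (4 / 3 : ℝ) ∧ NTv w.length (ps w) (δ * N) (ρ * N) then
      wx w * ((w.length + 1 : ℕ) : ℝ≥0∞) else 0) ≤ ENNReal.ofReal (ε * (N : ℝ) ^ (2 / 3 : ℝ)) := by
  obtain ⟨C1, hC1, hP⟩ := cyF_le
  -- the lower cut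
  obtain ⟨a, ha⟩ : ∃ a : ℝ, a = (ε / (24 * C1)) ^ 2 := ⟨_, rfl⟩
  have ha0 : 0 < a := by
    rw [ha]
    positivity
  have ha1 : a ^ (1 / 2 : ℝ) = ε / (24 * C1) := by
    rw [ha, ← Real.sqrt_eq_rpow, Real.sqrt_sq (by positivity)]
  obtain ⟨ε', hε'⟩ : ∃ ε' : ℝ, ε' = ε / (24 * C1 * B ^ (1 / 2 : ℝ)) := ⟨_, rfl⟩
  have hε'0 : 0 < ε' := by
    rw [hε']
    positivity
  obtain ⟨ρ', hρ'⟩ : ∃ ρ' : ℝ, ρ' = ρ / B ^ (3 / 4 : ℝ) := ⟨_, rfl⟩
  have hρ'0 : 0 < ρ' := by
    rw [hρ']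
    positivity
  obtain ⟨δ', hδ', n2, hN⟩ := N.nt_cy ε' ρ' hε'0 hρ'0
  obtain ⟨δ, hδ⟩ : ∃ δ : ℝ, δ = δ' * (a / 2) ^ (3 / 4 : ℝ) := ⟨_, rfl⟩
  have hδ0 : 0 < δ := by
    rw [hδ]
    positivity
  obtain ⟨N1, hN1⟩ := exists_nat_ge ((2 * ((n2 : ℝ) + 2)) / a)
  obtain ⟨N2, hN2⟩ := exists_nat_gt (8 / ρ)
  refine ⟨δ, hδ0, max 1 (max N1 N2), fun N hNN => ?_⟩
  have b1 : 1 ≤ N := (le_max_left _ _).trans hNN
  have b2 : N1 ≤ N := (le_max_left _ _).trans ((le_max_right _ _).trans hNN)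
  have b3 : N2 ≤ N := (le_max_right _ _).trans ((le_max_right _ _).trans hNN)
  have hN0 : (0 : ℝ) < N := by exact_mod_cast b1
  have hN1' : (1 : ℝ) ≤ N := by exact_mod_cast b1
  obtain ⟨X, hX⟩ : ∃ X : ℝ, X = (N : ℝ) ^ (4 / 3 : ℝ) := ⟨_, rfl⟩
  have hX0 : 0 < X := by
    rw [hX]
    positivity
  have hNX : (N : ℝ) ≤ X := by
    rw [hX]
    calc (N : ℝ) = (N : ℝ) ^ (1 : ℝ) := (Real.rpow_one _).symm
      _ ≤ _ := Real.rpow_le_rpow_of_exponent_le hN1' (by norm_num)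
  have hX34 : X ^ (3 / 4 : ℝ) = N := by
    rw [hX, ← Real.rpow_mul hN0.le]
    norm_num
  have hX12 : X ^ (1 / 2 : ℝ) = (N : ℝ) ^ (2 / 3 : ℝ) := by
    rw [hX, ← Real.rpow_mul hN0.le]
    norm_num
  have hbig : 2 * ((n2 : ℝ) + 2) ≤ a * X := by
    have h1 : (2 * ((n2 : ℝ) + 2)) / a ≤ X := hN1.trans ((by exact_mod_cast b2 : (N1 : ℝ) ≤ N).trans hNX)
    rwa [div_le_iff₀' ha0] at h1
  have hρN : 8 < ρ * N := by
    have h1 : 8 / ρ < N := hN2.trans_le (by exact_mod_cast b3)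
    rwa [div_lt_iff₀' hρ] at h1
  rw [nr_tsum]
  -- one length
  have term : ∀ m : ℕ, ∑' w : W3, (if w.length = m then (if Cl w ∧ (w.length : ℝ) ≤ B * (N : ℝ) ^ (4 / 3 : ℝ) ∧
      NTv w.length (ps w) (δ * N) (ρ * N) then wx w * ((w.length + 1 : ℕ) : ℝ≥0∞) else 0) else 0) ≤
      (if 1 ≤ m ∧ (m : ℝ) ≤ a * X then ENNReal.ofReal (6 * C1 * (m : ℝ) ^ (-(1 / 2) : ℝ)) else 0) +
      (if 1 ≤ m ∧ (m : ℝ) ≤ B * X then ENNReal.ofReal (6 * C1 * ε' * (m : ℝ) ^ (-(1 / 2) : ℝ)) else 0) := by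
    intro m
    rw [← hX]
    by_cases hm : (m : ℝ) ≤ B * X
    swap
    · refine (le_of_eq (ENNReal.tsum_eq_zero.2 fun w => ?_)).trans (show (0 : ℝ≥0∞) ≤ _ from bot_le)
      by_cases h1 : w.length = m
      · rw [if_pos h1, if_neg fun h => hm (h1 ▸ h.2.1)]
      · rw [if_neg h1]
    by_cases hm4 : 4 ≤ m
    swap
    · refine (le_of_eq (ENNReal.tsum_eq_zero.2 fun w => ?_)).trans (show (0 : ℝ≥0∞) ≤ _ from bot_le)
      by_cases h1 : w.length = m
      · rw [if_pos h1, if_neg fun h => ?_]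
        have h2 := NTv.len (by positivity) h.2.2
        have h3 : (w.length : ℝ) ≤ 3 := by
          have : w.length ≤ 3 := by omega
          exact_mod_cast this
        linarith
      · rw [if_neg h1]
    by_cases hme : Even m
    swap
    · refine (le_of_eq (ENNReal.tsum_eq_zero.2 fun w => ?_)).trans (show (0 : ℝ≥0∞) ≤ _ from bot_le)
      by_cases h1 : w.length = m
      · rw [if_pos h1, if_neg fun h => hme (h1 ▸ h.1.1)]
      · rw [if_neg h1]
    obtain ⟨n, rfl⟩ : ∃ n : ℕ, m = n + 1 := ⟨m - 1, by omega⟩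
    have hn3 : 3 ≤ n := by omega
    have ho : Odd n := by
      rcases Nat.even_or_odd n with h | h
      · exact absurd hme (Nat.not_even_iff_odd.2 h.add_one)
      · exact h
    have hm0 : (0 : ℝ) < ((n + 1 : ℕ) : ℝ) := by positivity
    have e1 : ∑' w : W3, (if w.length = n + 1 then (if Cl w ∧ (w.length : ℝ) ≤ B * X ∧
        NTv w.length (ps w) (δ * N) (ρ * N) then wx w * ((w.length + 1 : ℕ) : ℝ≥0∞) else 0) else 0) =
        ∑' w : W3, (if w.length = n + 1 then (if Cl w ∧ NTv w.length (ps w) (δ * N) (ρ * N) then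
          ENNReal.ofReal (fug ^ (n + 1) * ((n + 1 : ℕ) + 1)) else 0) else 0) := by
      refine tsum_congr fun w => ?_
      by_cases h1 : w.length = n + 1
      · rw [if_pos h1, if_pos h1]
        by_cases h2 : Cl w ∧ NTv w.length (ps w) (δ * N) (ρ * N)
        · rw [if_pos ⟨h2.1, h1 ▸ hm, h2.2⟩, if_pos h2, ENNReal.ofReal_mul (by rw [NTSF.fug_eq]; have := HexObs.xc_pos; positivity)]
          unfold wx
          rw [h1, ENNReal.ofReal_pow (by rw [NTSF.fug_eq]; exact HexObs.xc_pos.le)]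
          congr 1
          rw [show (((n + 1 : ℕ) : ℝ) + 1) = ((n + 1 + 1 : ℕ) : ℝ) by push_cast; ring, ENNReal.ofReal_natCast]
        · rw [if_neg fun h => h2 ⟨h.1, h.2.2⟩, if_neg h2]
      · rw [if_neg h1, if_neg h1]
    rw [e1, nr_len hn3 ho, ← ENNReal.ofReal_natCast, ← ENNReal.ofReal_mul (Nat.cast_nonneg _)]
    have hx : 0 < fug := by
      rw [NTSF.fug_eq]
      exact HexObs.xc_pos
    -- from a part of the words to the power
    have fin : ∀ e : ℝ, 0 ≤ e → (((cyF (n + 1)).filter fun H => ROT.N.NTw (n + 1) H (δ * N) (ρ * N)).card : ℝ) ≤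
        e * ((cyF (n + 1)).card : ℝ) →
        ((3 * ((cyF (n + 1)).filter fun H => ROT.N.NTw (n + 1) H (δ * N) (ρ * N)).card : ℕ) : ℝ) *
          (fug ^ (n + 1) * ((n + 1 : ℕ) + 1)) ≤ 6 * C1 * e * ((n + 1 : ℕ) : ℝ) ^ (-(1 / 2) : ℝ) := by
      intro e he h
      have h1 := hP (n + 1) (by omega)
      have h2 : ((n + 1 : ℕ) : ℝ) ^ (-(1 / 2) : ℝ) = ((n + 1 : ℕ) : ℝ) ^ (-(3 / 2) : ℝ) * ((n + 1 : ℕ) : ℝ) := by
        conv_rhs => rw [← Real.rpow_one ((n + 1 : ℕ) : ℝ)]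
        rw [Real.rpow_one, ← Real.rpow_add_one hm0.ne']
        norm_num
      rw [h2]
      have hm1 : (1 : ℝ) ≤ ((n + 1 : ℕ) : ℝ) := by
        push_cast
        have : (0 : ℝ) ≤ n := Nat.cast_nonneg n
        linarith
      have hpw : (0 : ℝ) < fug ^ (n + 1) := pow_pos hx _
      obtain ⟨c, hc⟩ : ∃ c : ℝ, c = (((cyF (n + 1)).filter fun H => ROT.N.NTw (n + 1) H (δ * N) (ρ * N)).card : ℝ) := ⟨_, rfl⟩
      obtain ⟨M, hM⟩ : ∃ M : ℝ, M = ((n + 1 : ℕ) : ℝ) := ⟨_, rfl⟩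
      push_cast at hM ⊢
      rw [← hc] at h ⊢
      push_cast at h1 hm1
      rw [← hM] at h1 hm1 ⊢
      calc 3 * c * (fug ^ (n + 1) * (M + 1)) ≤ 3 * (e * ((cyF (n + 1)).card : ℝ)) * (fug ^ (n + 1) * (M + M)) := by
            refine mul_le_mul (by linarith) (mul_le_mul_of_nonneg_left (by linarith) hpw.le) (by positivity) (by positivity)
        _ = 6 * e * M * (((cyF (n + 1)).card : ℝ) * fug ^ (n + 1)) := by ring
        _ ≤ 6 * e * M * (C1 * M ^ (-(3 / 2) : ℝ)) := mul_le_mul_of_nonneg_left h1 (by positivity)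
        _ = _ := by ring
    by_cases hlo : ((n + 1 : ℕ) : ℝ) ≤ a * X
    · refine le_trans ?_ le_self_add
      rw [if_pos ⟨by omega, hlo⟩]
      refine ENNReal.ofReal_le_ofReal ((fin 1 zero_le_one ?_).trans (by rw [mul_one]))
      rw [one_mul]
      exact_mod_cast card_le_card (filter_subset _ _)
    · refine le_trans ?_ le_add_self
      rw [if_pos ⟨by omega, hm⟩]
      refine ENNReal.ofReal_le_ofReal (fin ε' hε'0.le ?_)
      rw [not_le] at hlo
      push_cast at hlo hm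
      have hn2 : n2 ≤ n := by
        have : (n2 : ℝ) ≤ n := by linarith
        exact_mod_cast this
      have h1 := hN n hn2 ho
      refine le_trans ?_ h1
      have hlow : a / 2 * X ≤ n := by linarith
      have hn0 : (0 : ℝ) ≤ n := Nat.cast_nonneg n
      have h2 : δ * N ≤ δ' * (n : ℝ) ^ (3 / 4 : ℝ) := by
        rw [hδ, mul_assoc]
        refine mul_le_mul_of_nonneg_left ?_ hδ'.le
        rw [← hX34, ← Real.mul_rpow (by positivity) hX0.le]
        exact Real.rpow_le_rpow (by positivity) hlow (by norm_num)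
      have h3 : ρ' * (n : ℝ) ^ (3 / 4 : ℝ) ≤ ρ * N := by
        have h4 : (n : ℝ) ^ (3 / 4 : ℝ) ≤ B ^ (3 / 4 : ℝ) * N := by
          rw [← hX34, ← Real.mul_rpow hB.le hX0.le]
          exact Real.rpow_le_rpow hn0 (by linarith) (by norm_num)
        calc ρ' * (n : ℝ) ^ (3 / 4 : ℝ) ≤ ρ' * (B ^ (3 / 4 : ℝ) * N) := mul_le_mul_of_nonneg_left h4 hρ'0.le
          _ = ρ * N := by
              rw [hρ']
              field_simp
      exact_mod_cast card_le_card (monotone_filter_right _ fun H _ hH => ROT.N.NTw.mono h2 h3 hH)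
  refine (ENNReal.tsum_le_tsum term).trans ?_
  rw [ENNReal.tsum_add]
  refine (add_le_add (nr_halft (by positivity) (by positivity)) (nr_halft (by positivity) (by positivity))).trans ?_
  rw [← ENNReal.ofReal_add (by positivity) (by positivity)]
  refine ENNReal.ofReal_le_ofReal (le_of_eq ?_)
  rw [Real.mul_rpow ha0.le hX0.le, Real.mul_rpow hB.le hX0.le, hX12, ha1, hε']
  have : (0 : ℝ) < B ^ (1 / 2 : ℝ) := by positivity
  field_simp
  ring

/-! ### 4. closed words with two roots and their pieces -/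

/-- **the pieces are unique**: the closed word and the place of the second root determine the four pieces -/
def Uq (C C' : Set (W3 × W3)) (RA RB : Set W3) : Prop := ∀ a ∈ C, ∀ a' ∈ C, ∀ R ∈ RA, ∀ R' ∈ RA, ∀ b ∈ C', ∀ b' ∈ C',
  ∀ S ∈ RB, ∀ S' ∈ RB, (a.1 ++ (R ++ b.1.reverse)).length = (a'.1 ++ (R' ++ b'.1.reverse)).length →
    G6 a R b S = G6 a' R' b' S' → a = a' ∧ R = R' ∧ b = b' ∧ S = S'

lemma nr_quad (f : W3 × W3 → W3 → W3 × W3 → W3 → ℝ≥0∞) :
    ∑' (a : W3 × W3) (R : W3) (b : W3 × W3) (S : W3), f a R b S =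
      ∑' x : (W3 × W3) × (W3 × ((W3 × W3) × W3)), f x.1 x.2.1 x.2.2.1 x.2.2.2 := by
  rw [ENNReal.tsum_prod' (f := fun x : (W3 × W3) × (W3 × ((W3 × W3) × W3)) => f x.1 x.2.1 x.2.2.1 x.2.2.2)]
  refine tsum_congr fun a => ?_
  rw [ENNReal.tsum_prod' (f := fun x : W3 × ((W3 × W3) × W3) => f a x.1 x.2.1 x.2.2)]
  refine tsum_congr fun R => ?_
  rw [ENNReal.tsum_prod' (f := fun x : (W3 × W3) × W3 => f a R x.1 x.2)]

/-- **the mass of a class of closed words with two roots** is at most the mass of the closed words with a second root -/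
theorem cls_le {C C' : Set (W3 × W3)} {RA RB : Set W3} (hU : Uq C C' RA RB) (P : W3 → Prop) :
    ∑' (a : W3 × W3) (R : W3) (b : W3 × W3) (S : W3), (if a ∈ C ∧ R ∈ RA ∧ b ∈ C' ∧ S ∈ RB ∧ Cl (G6 a R b S) ∧
      P (G6 a R b S) then wx (G6 a R b S) else 0) ≤
    ∑' w : W3, (if Cl w ∧ P w then wx w * ((w.length + 1 : ℕ) : ℝ≥0∞) else 0) := by
  rw [nr_quad]
  obtain ⟨K, hK⟩ : ∃ K : Set ((W3 × W3) × (W3 × ((W3 × W3) × W3))), K = {x | x.1 ∈ C ∧ x.2.1 ∈ RA ∧ x.2.2.1 ∈ C' ∧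
    x.2.2.2 ∈ RB ∧ Cl (G6 x.1 x.2.1 x.2.2.1 x.2.2.2) ∧ P (G6 x.1 x.2.1 x.2.2.1 x.2.2.2)} := ⟨_, rfl⟩
  obtain ⟨Φ, hΦ⟩ : ∃ Φ : (W3 × W3) × (W3 × ((W3 × W3) × W3)) → W3 × ℕ, Φ = fun x =>
    (G6 x.1 x.2.1 x.2.2.1 x.2.2.2, (x.1.1 ++ (x.2.1 ++ x.2.2.1.1.reverse)).length) := ⟨_, rfl⟩
  obtain ⟨g, hg⟩ : ∃ g : W3 × ℕ → ℝ≥0∞, g = fun y => if y.2 ∈ range (y.1.length + 1) then
    (if Cl y.1 ∧ P y.1 then wx y.1 else 0) else 0 := ⟨_, rfl⟩
  have hinj : Function.Injective fun x : K => Φ x := by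
    rintro ⟨x, hx⟩ ⟨y, hy⟩ h
    rw [hK] at hx hy
    rw [hΦ] at h
    obtain ⟨h1, h2⟩ := Prod.ext_iff.1 h
    obtain ⟨k1, k2, k3, k4⟩ := hU x.1 hx.1 y.1 hy.1 x.2.1 hx.2.1 y.2.1 hy.2.1 x.2.2.1 hx.2.2.1 y.2.2.1 hy.2.2.1
      x.2.2.2 hx.2.2.2.1 y.2.2.2 hy.2.2.2.1 h2 h1
    exact Subtype.ext (Prod.ext k1 (Prod.ext k2 (Prod.ext k3 k4)))
  have e1 : ∑' x : (W3 × W3) × (W3 × ((W3 × W3) × W3)), (if x.1 ∈ C ∧ x.2.1 ∈ RA ∧ x.2.2.1 ∈ C' ∧ x.2.2.2 ∈ RB ∧
      Cl (G6 x.1 x.2.1 x.2.2.1 x.2.2.2) ∧ P (G6 x.1 x.2.1 x.2.2.1 x.2.2.2) then wx (G6 x.1 x.2.1 x.2.2.1 x.2.2.2) else 0) =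
      ∑' x : K, g (Φ x) := by
    rw [_root_.tsum_subtype K fun x => g (Φ x)]
    refine tsum_congr fun x => ?_
    rw [Set.indicator_apply]
    by_cases hx : x ∈ K
    · rw [if_pos hx]
      have hx' : x.1 ∈ C ∧ x.2.1 ∈ RA ∧ x.2.2.1 ∈ C' ∧ x.2.2.2 ∈ RB ∧
          Cl (G6 x.1 x.2.1 x.2.2.1 x.2.2.2) ∧ P (G6 x.1 x.2.1 x.2.2.1 x.2.2.2) := by
        rw [hK] at hx
        exact hx
      rw [if_pos hx', hg, hΦ]
      simp only
      rw [if_pos, if_pos ⟨hx'.2.2.2.2.1, hx'.2.2.2.2.2⟩]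
      rw [mem_range]
      unfold G6
      simp only [List.length_append, List.length_reverse]
      omega
    · rw [if_neg hx, if_neg fun h => hx (by rw [hK]; exact h)]
  have e2 : ∑' w : W3, (if Cl w ∧ P w then wx w * ((w.length + 1 : ℕ) : ℝ≥0∞) else 0) = ∑' y : W3 × ℕ, g y := by
    rw [ENNReal.tsum_prod']
    refine tsum_congr fun w => ?_
    rw [hg]
    simp only
    rw [tsum_eq_sum (s := range (w.length + 1)) fun k hk => if_neg hk]
    rw [sum_congr rfl fun k hk => if_pos hk, sum_const, card_range, nsmul_eq_mul]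
    split_ifs
    · rw [mul_comm]
    · rw [mul_zero]
  rw [e1, e2]
  exact ENNReal.tsum_comp_le_tsum_of_injective hinj g

/-! ### 5. near touches of the rests -/

/-- **the rests `R`, `S` are near**, `z` = start of `R` minus start of `S` -/
def Near (R S : W3) (z : ℂ) (d : ℝ) : Prop := ∃ j k : ℕ, j ≤ R.length ∧ k ≤ S.length ∧ ‖ps R j - (ps S k - z)‖ ≤ d

lemma nr_ps_mod {w : W3} (hw : Cl w) {i : ℕ} (hi : i ≤ w.length) : ps w (i % w.length) = ps w i := by
  rcases hi.lt_or_eq with h | h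
  · rw [Nat.mod_eq_of_lt h]
  · rw [h, Nat.mod_self, ps_zero]
    exact hw.2.1.symm

lemma nr_far {x y u : ℂ} {D : ℝ} (h : 2 * D ≤ ‖x - y‖) : D ≤ ‖u - x‖ ∨ D ≤ ‖u - y‖ := by
  by_contra hc
  push Not at hc
  have h1 : x - y = (u - y) - (u - x) := by ring
  have h2 := norm_sub_le (u - y) (u - x)
  rw [← h1] at h2
  linarith [hc.1, hc.2]

/-- **a near touch of the rests is a near self touch of the closed word** -/
theorem near_touch {a b : W3 × W3} {R S : W3} (e1 : Even a.1.length) (e3 : Even b.1.length) (e4 : Even b.2.length)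
    (eR : Even R.length) (eS : Even S.length) (hC : Cl (G6 a R b S)) {d D : ℝ} (hn : Near R S (en a.1 - en a.2) d)
    (ha : 2 * D ≤ ‖en a.1‖) (hb : 2 * D ≤ ‖en b.1‖) : NTv (G6 a R b S).length (ps (G6 a R b S)) d D := by
  obtain ⟨j, k, hj, hk, hjk⟩ := hn
  have er3 : Even b.1.reverse.length := by rw [List.length_reverse]; exact e3
  have l3 : b.1.reverse.length = b.1.length := List.length_reverse
  have l5 : S.reverse.length = S.length := List.length_reverse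
  have l6 : a.2.reverse.length = a.2.length := List.length_reverse
  have hlen : (G6 a R b S).length = a.1.length + (R.length + (b.1.length + (b.2.length + (S.length + a.2.length)))) := by
    unfold G6
    simp only [List.length_append, List.length_reverse]
  -- the vertices
  have p0 : ps (G6 a R b S) a.1.length = en a.1 := by
    unfold G6
    rw [ps_append_left le_rfl]
    rfl
  have p1 : ∀ i, i ≤ R.length → ps (G6 a R b S) (a.1.length + i) = en a.1 + ps R i := by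
    intro i hi
    unfold G6
    rw [ps_append_right e1, ps_append_left hi]
  have p2 : ps (G6 a R b S) (a.1.length + R.length) = en a.1 + en R := p1 _ le_rfl
  have p3 : ps (G6 a R b S) (a.1.length + (R.length + b.1.length)) = en a.1 + en R - en b.1 := by
    unfold G6
    rw [ps_append_right e1, ps_append_right eR, ps_append_left l3.ge]
    have h1 : ps b.1.reverse b.1.length = en b.1.reverse := by rw [en, l3]
    rw [h1, en_reverse e3]
    ring
  have hend : en a.1 + (en R + (-en b.1 + (en b.2 + (-en S + en a.2.reverse)))) = 0 := by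
    have h1 := hC.2.1
    unfold G6 at h1
    rw [en_append e1, en_append eR, en_append er3, en_append e4, en_append (by rw [l5]; exact eS), en_reverse e3,
      en_reverse eS] at h1
    exact h1
  have e2 : Even a.2.length := by
    have h1 := hC.1
    rw [hlen] at h1
    have h2 : Even (a.1.length + (R.length + (b.1.length + (b.2.length + S.length)))) :=
      e1.add (eR.add (e3.add (e4.add eS)))
    rw [show a.1.length + (R.length + (b.1.length + (b.2.length + (S.length + a.2.length)))) =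
      a.1.length + (R.length + (b.1.length + (b.2.length + S.length))) + a.2.length by ring] at h1
    exact (Nat.even_add.1 h1).1 h2
  rw [en_reverse e2] at hend
  have p4 : ps (G6 a R b S) (a.1.length + (R.length + (b.1.length + (b.2.length + (S.length - k))))) = en a.2 + ps S k := by
    unfold G6
    have h1 := ps_append_right er3 (v := b.2 ++ (S.reverse ++ a.2.reverse)) (b.2.length + (S.length - k))
    rw [l3] at h1
    rw [ps_append_right e1, ps_append_right eR, h1, ps_append_right e4,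
      ps_append_left (by rw [l5]; omega), ps_reverse eS (by omega), Nat.sub_sub_self hk, en_reverse e3]
    linear_combination hend
  have q : ∀ i, i ≤ (G6 a R b S).length → ps (G6 a R b S) (i % (G6 a R b S).length) = ps (G6 a R b S) i :=
    fun i hi => nr_ps_mod hC hi
  obtain ⟨i0, hi0⟩ : ∃ i0 : ℕ, i0 = a.1.length + j := ⟨_, rfl⟩
  obtain ⟨j0, hj0⟩ : ∃ j0 : ℕ, j0 = a.1.length + (R.length + (b.1.length + (b.2.length + (S.length - k)))) := ⟨_, rfl⟩
  have r1 : ps (G6 a R b S) (i0 % (G6 a R b S).length) = en a.1 + ps R j := by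
    rw [q _ (by omega), hi0, p1 j hj]
  have r2 : ps (G6 a R b S) (j0 % (G6 a R b S).length) = en a.2 + ps S k := by
    rw [q _ (by omega), hj0, p4]
  -- far points on both arcs
  have f1 : ∃ k0, i0 ≤ k0 ∧ k0 ≤ j0 ∧ D ≤ ‖ps (G6 a R b S) (i0 % (G6 a R b S).length) -
      ps (G6 a R b S) (k0 % (G6 a R b S).length)‖ := by
    rcases nr_far (u := ps (G6 a R b S) (i0 % (G6 a R b S).length)) (x := en a.1 + en R) (y := en a.1 + en R - en b.1)
      (D := D) (by rw [sub_sub_cancel]; exact hb) with h | h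
    · refine ⟨a.1.length + R.length, by omega, by omega, ?_⟩
      rw [q (a.1.length + R.length) (by omega), p2]
      exact h
    · refine ⟨a.1.length + (R.length + b.1.length), by omega, by omega, ?_⟩
      rw [q (a.1.length + (R.length + b.1.length)) (by omega), p3]
      exact h
  have f2 : ∃ l0, j0 ≤ l0 ∧ l0 ≤ i0 + (G6 a R b S).length ∧ D ≤ ‖ps (G6 a R b S) (i0 % (G6 a R b S).length) -
      ps (G6 a R b S) (l0 % (G6 a R b S).length)‖ := by
    rcases nr_far (u := ps (G6 a R b S) (i0 % (G6 a R b S).length)) (x := en a.1) (y := 0)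
      (D := D) (by rw [sub_zero]; exact ha) with h | h
    · refine ⟨(G6 a R b S).length + a.1.length, by omega, by omega, ?_⟩
      rw [Nat.add_mod_left, q a.1.length (by omega), p0]
      exact h
    · refine ⟨(G6 a R b S).length, by omega, by omega, ?_⟩
      rw [Nat.mod_self, ps_zero]
      exact h
  obtain ⟨k0, a1, a2, a3⟩ := f1
  obtain ⟨l0, a4, a5, a6⟩ := f2
  refine ⟨i0, k0, j0, l0, a1, a2, a4, a5, ?_, a3, a6⟩
  rw [r1, r2]
  have h1 : en a.1 + ps R j - (en a.2 + ps S k) = ps R j - (ps S k - (en a.1 - en a.2)) := by ring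
  rw [h1]
  exact hjk

/-- **near touches of the rests of the closed words with two roots** -/
theorem pair_near (ε ρ B : ℝ) (hε : 0 < ε) (hρ : 0 < ρ) (hB : 0 < B) : ∃ δ : ℝ, 0 < δ ∧ ∃ N0 : ℕ, ∀ N : ℕ, N0 ≤ N →
    ∀ (C C' : Set (W3 × W3)) (RA RB : Set W3), Uq C C' RA RB → (∀ a ∈ C, Even a.1.length ∧ 2 * (ρ * N) ≤ ‖en a.1‖) →
      (∀ b ∈ C', Even b.1.length ∧ Even b.2.length ∧ 2 * (ρ * N) ≤ ‖en b.1‖) → (∀ R ∈ RA, Even R.length) →
        (∀ S ∈ RB, Even S.length) →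
    ∑' (a : W3 × W3) (R : W3) (b : W3 × W3) (S : W3), (if a ∈ C ∧ R ∈ RA ∧ b ∈ C' ∧ S ∈ RB ∧ Cl (G6 a R b S) ∧
      ((G6 a R b S).length : ℝ) ≤ B * (N : ℝ) ^ (4 / 3 : ℝ) ∧ Near R S (en a.1 - en a.2) (δ * N) then
        wx (G6 a R b S) else 0) ≤ ENNReal.ofReal (ε * (N : ℝ) ^ (2 / 3 : ℝ)) := by
  obtain ⟨δ, hδ, N0, h⟩ := nt_sum ε ρ B hε hρ hB
  refine ⟨δ, hδ, N0, fun N hN C C' RA RB hU hC hC' hA hS => ?_⟩
  refine le_trans ?_ (h N hN)
  refine le_trans ?_ ((cls_le hU fun w => (w.length : ℝ) ≤ B * (N : ℝ) ^ (4 / 3 : ℝ) ∧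
    NTv w.length (ps w) (δ * N) (ρ * N)).trans (le_of_eq (tsum_congr fun w => ?_)))
  swap
  · by_cases h1 : Cl w ∧ (w.length : ℝ) ≤ B * (N : ℝ) ^ (4 / 3 : ℝ) ∧ NTv w.length (ps w) (δ * N) (ρ * N)
    · rw [if_pos h1, if_pos h1]
    · rw [if_neg h1, if_neg h1]
  refine ENNReal.tsum_le_tsum fun a => ENNReal.tsum_le_tsum fun R => ENNReal.tsum_le_tsum fun b =>
    ENNReal.tsum_le_tsum fun S => ?_
  split_ifs with h1 h2
  · exact le_rfl
  · exact absurd ⟨h1.1, h1.2.1, h1.2.2.1, h1.2.2.2.1, h1.2.2.2.2.1, h1.2.2.2.2.2.1,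
      near_touch (hC a h1.1).1 (hC' b h1.2.2.1).1 (hC' b h1.2.2.1).2.1 (hA R h1.2.1) (hS S h1.2.2.2.1) h1.2.2.2.2.1
        h1.2.2.2.2.2.2 (hC a h1.1).2 (hC' b h1.2.2.1).2.2⟩ h2
  · exact bot_le
  · exact le_rfl

end Pool.Agent.ROT.F3
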