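import Pool.Agent.ROT.F3ExP
import Pool.Agent.ROT.F3Inst2
import Pool.Agent.CRT.Mass

/-!
# ROT / F3Norm (helper56): the mass of the rests

* `saw_mass` : the critical mass of the self-avoiding words with at most `x` letters is at most `C x ^ (43 / 32)`;
* `NC d`, `TN d r M` : the tip pieces without a cut inside, in the ball `r`, with at most `M` letters;
* **`rest_le`** : `ms TN * ms Rs * ms TN'` is at most the mass of all words: the marks are unique.
-/

set_option autoImplicit false

namespace Pool.Agent.ROT.F3.Nm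

open Finset
open Pool.Agent.NTS.Res (step pos saw fug)
open scoped ENNReal Classical

/-- **the mass of the self-avoiding words with at most `x` letters** -/
theorem saw_mass : ∃ C : ℝ, 0 < C ∧ ∀ x : ℝ, 1 ≤ x →
    ∑' w : W3, (if SW w ∧ (w.length : ℝ) ≤ x then wx w else 0) ≤ ENNReal.ofReal (C * x ^ (43 / 32 : ℝ)) := by
  obtain ⟨c, C, -, hC, h⟩ := CRT.Mass.aN_bounds
  refine ⟨2 * (1 + C), by positivity, fun x hx => ?_⟩
  have hx0 : 0 < x := by linarith
  have e1 : ∀ w : W3, (if SW w ∧ (w.length : ℝ) ≤ x then wx w else 0) =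
      if SW w then (if (w.length : ℝ) ≤ x then wx w else 0) else 0 := by
    intro w
    by_cases h1 : SW w
    · by_cases h2 : (w.length : ℝ) ≤ x
      · rw [if_pos ⟨h1, h2⟩, if_pos h1, if_pos h2]
      · rw [if_neg fun h => h2 h.2, if_pos h1, if_neg h2]
    · rw [if_neg fun h => h1 h.1, if_neg h1]
  rw [tsum_congr e1, tsum_SW]
  have e2 : ∀ n : ℕ, ∑ s ∈ saw n, (if ((List.ofFn s).length : ℝ) ≤ x then wx (List.ofFn s) else 0) =
      if (n : ℝ) ≤ x then ENNReal.ofReal (((saw n).card : ℝ) * fug ^ n) else 0 := by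
    intro n
    have e3 : ∀ s ∈ saw n, (if ((List.ofFn s).length : ℝ) ≤ x then wx (List.ofFn s) else 0) =
        if (n : ℝ) ≤ x then ENNReal.ofReal (fug ^ n) else 0 := by
      intro s _
      rw [List.length_ofFn]
      unfold wx
      rw [List.length_ofFn, ENNReal.ofReal_pow fug_nn]
    rw [sum_congr rfl e3, sum_const, nsmul_eq_mul]
    split_ifs
    · rw [ENNReal.ofReal_mul (Nat.cast_nonneg _), ENNReal.ofReal_natCast]
    · rw [mul_zero]
  rw [tsum_congr e2, tsum_eq_sum (s := range (⌊x⌋₊ + 1))]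
  · have h0 : ∀ n ∈ range (⌊x⌋₊ + 1), (if (n : ℝ) ≤ x then ENNReal.ofReal (((saw n).card : ℝ) * fug ^ n) else 0) ≤
        ENNReal.ofReal ((1 + C) * x ^ (11 / 32 : ℝ)) := by
      intro n hn
      split_ifs with h1
      · refine ENNReal.ofReal_le_ofReal ?_
        have hx1 : 1 ≤ x ^ (11 / 32 : ℝ) := Real.one_le_rpow hx (by norm_num)
        rcases Nat.eq_zero_or_pos n with h2 | h2
        · subst h2
          have e4 : ((saw 0).card : ℝ) ≤ 1 := by
            have h3 : (saw 0).card ≤ (univ : Finset (Fin 0 → Fin 3)).card := card_le_card (subset_univ _)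
            rw [card_univ, Fintype.card_fun, Fintype.card_fin, Fintype.card_fin, pow_zero] at h3
            exact_mod_cast h3
          rw [pow_zero, mul_one]
          nlinarith
        · have h3 := (h n h2).2
          have h4 : (n : ℝ) ^ (11 / 32 : ℝ) ≤ x ^ (11 / 32 : ℝ) := Real.rpow_le_rpow (Nat.cast_nonneg _) h1 (by norm_num)
          nlinarith
      · exact zero_le
    refine (sum_le_sum h0).trans ?_
    rw [sum_const, card_range, nsmul_eq_mul, ← ENNReal.ofReal_natCast, ← ENNReal.ofReal_mul (Nat.cast_nonneg _)]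
    refine ENNReal.ofReal_le_ofReal ?_
    have h5 : ((⌊x⌋₊ + 1 : ℕ) : ℝ) ≤ 2 * x := by
      push_cast
      linarith [Nat.floor_le hx0.le]
    calc ((⌊x⌋₊ + 1 : ℕ) : ℝ) * ((1 + C) * x ^ (11 / 32 : ℝ)) ≤ 2 * x * ((1 + C) * x ^ (11 / 32 : ℝ)) :=
          mul_le_mul_of_nonneg_right h5 (by positivity)
      _ = 2 * (1 + C) * x ^ (43 / 32 : ℝ) := by
          rw [show (43 / 32 : ℝ) = 1 + 11 / 32 by norm_num, Real.rpow_add hx0, Real.rpow_one]
          ring
  · intro n hn
    rw [mem_range, not_lt] at hn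
    refine if_neg fun h1 => ?_
    have h2 : n ≤ ⌊x⌋₊ := Nat.le_floor h1
    omega

/-- no cut strictly inside -/
def NC (d : ℂ) (p : W3) : Prop := ∀ k : ℕ, Even k → 0 < k → k < p.length → ¬ CutC d p k

/-- the tip pieces without a cut inside -/
def TN (d : ℂ) (r M : ℝ) : Set W3 := {p | TipC d r p ∧ NC d p ∧ (p.length : ℝ) ≤ M}

lemma nc_unique {d : ℂ} {r r0 D : ℝ} {p p' R R' t t' : W3} (hp : TipC d r p) (hp' : TipC d r p') (f : NC d p)
    (f' : NC d p') (hR : RestC d r0 R) (hR' : RestC d r0 R') (eR : Even R.length) (eR' : Even R'.length)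
    (hr : 2 * r ≤ r0) (hD : 2 * r < D) (fR : D ≤ ‖en R‖) (fR' : D ≤ ‖en R'‖) (h : p ++ (R ++ t) = p' ++ (R' ++ t')) :
    p = p' := by
  have k1 : ¬ p.length < p'.length := fun hl => f' p.length hp.ev hp.pos hl (pre_cut hp hp' hR eR hr hD fR h hl).2
  have k2 : ¬ p'.length < p.length := fun hl => f p'.length hp'.ev hp'.pos hl (pre_cut hp' hp hR' eR' hr hD fR' h.symm hl).2
  exact (List.append_inj h (by omega)).1

/-- a double sum with at most one term -/
lemma sum_one {n : ℕ} {g : ℕ → ℕ} {P : ℕ → ℕ → Prop} [∀ k l, Decidable (P k l)] {c : ℝ≥0∞} (h : ∀ k l k' l', k < n → l < g k → k' < n → l' < g k' →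
    P k l → P k' l' → k = k' ∧ l = l') : ∑ k ∈ range n, ∑ l ∈ range (g k), (if P k l then c else 0) ≤ c := by
  by_cases hx : ∃ k l, k < n ∧ l < g k ∧ P k l
  · obtain ⟨k0, l0, hk0, hl0, hP⟩ := hx
    rw [sum_eq_single_of_mem k0 (mem_range.2 hk0) fun k hk hne => sum_eq_zero fun l hl => if_neg fun h1 =>
      hne (h k l k0 l0 (mem_range.1 hk) (mem_range.1 hl) hk0 hl0 h1 hP).1,
      sum_eq_single_of_mem l0 (mem_range.2 hl0) fun l hl hne => if_neg fun h1 =>
      hne (h k0 l k0 l0 hk0 (mem_range.1 hl) hk0 hl0 h1 hP).2, if_pos hP]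
  · rw [sum_eq_zero fun k hk => sum_eq_zero fun l hl => if_neg fun h1 => hx ⟨k, l, mem_range.1 hk, mem_range.1 hl, h1⟩]
    exact zero_le

/-- **the mass of the rests, through the tip pieces** -/
theorem rest_le {d d' : ℂ} {r r' r0 r0' D M B : ℝ} {Rs : Set W3} (hR : ∀ R ∈ Rs, RsC d d' r0 r0' D R ∧ (R.length : ℝ) ≤ B)
    (h0 : 2 * r ≤ r0) (h0' : 2 * r' ≤ r0') (hD : 2 * (r + r') < D) (hr : 0 ≤ r) (hr' : 0 ≤ r') :
    ms (TN d r M) (fun _ => 1) * (ms Rs (fun _ => 1) * ms (TN d' r' M) fun _ => 1) ≤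
      ∑' w : W3, (if SW w ∧ (w.length : ℝ) ≤ 2 * M + B then wx w else 0) := by
  rw [← exW_of (T := TN d r M) (T' := TN d' r' M) (fun a ha => ha.1) (fun b hb => hb.1) (fun R h => (hR R h).1) h0 h0' hD]
  refine ENNReal.tsum_le_tsum fun w => ?_
  simp only [mul_one]
  by_cases hw : SW w ∧ (w.length : ℝ) ≤ 2 * M + B
  · rw [if_pos hw]
    refine sum_one fun k l k' l' hk hl hk' hl' h1 h2 => ?_
    obtain ⟨-, a1, a2, a3⟩ := h1
    obtain ⟨-, b1, b2, b3⟩ := h2
    have e1 : w.take k ++ ((w.drop k).take l ++ w.drop (k + l)) = w := by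
      rw [← List.drop_drop, List.take_append_drop, List.take_append_drop]
    have e2 : w.take k' ++ ((w.drop k').take l' ++ w.drop (k' + l')) = w := by
      rw [← List.drop_drop, List.take_append_drop, List.take_append_drop]
    have c1 := (hR _ a2).1
    have c2 := (hR _ b2).1
    have h3 := nc_unique a1.1 b1.1 a1.2.1 b1.2.1 c1.s c2.s c1.ev c2.ev h0 (by linarith) c1.far c2.far (e1.trans e2.symm)
    have h4 : k = k' := by
      have := congrArg List.length h3
      rw [List.length_take, List.length_take] at this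
      omega
    have e3 : (w.drop (k + l)).reverse ++ (((w.drop k).take l).reverse ++ (w.take k).reverse) = w.reverse := by
      rw [← List.reverse_append, ← List.reverse_append, List.append_assoc, e1]
    have e4 : (w.drop (k' + l')).reverse ++ (((w.drop k').take l').reverse ++ (w.take k').reverse) = w.reverse := by
      rw [← List.reverse_append, ← List.reverse_append, List.append_assoc, e2]
    have f1 : D ≤ ‖en ((w.drop k).take l).reverse‖ := by
      rw [en_reverse c1.ev, norm_neg]
      exact c1.far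
    have f2 : D ≤ ‖en ((w.drop k').take l').reverse‖ := by
      rw [en_reverse c2.ev, norm_neg]
      exact c2.far
    have h5 := nc_unique a3.1 b3.1 a3.2.1 b3.2.1 c1.e c2.e (by rw [List.length_reverse]; exact c1.ev)
      (by rw [List.length_reverse]; exact c2.ev) h0' (by linarith) f1 f2 (e3.trans e4.symm)
    refine ⟨h4, ?_⟩
    have := congrArg List.length h5
    rw [List.length_reverse, List.length_reverse, List.length_drop, List.length_drop] at this
    omega
  · rw [if_neg hw]
    refine le_of_eq (sum_eq_zero fun k hk => sum_eq_zero fun l hl => if_neg fun h1 => hw ⟨h1.1, ?_⟩)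
    obtain ⟨-, a1, a2, a3⟩ := h1
    have e1 : w.length = (w.take k).length + (((w.drop k).take l).length + (w.drop (k + l)).reverse.length) := by
      rw [List.length_reverse, ← List.length_append, ← List.length_append, ← List.drop_drop, List.take_append_drop,
        List.take_append_drop]
    have g1 := a1.2.2
    have g2 := (hR _ a2).2
    have g3 := a3.2.2
    rw [e1]
    push_cast
    linarith

end Pool.Agent.ROT.F3.Nm
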