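import Pool.Agent.ROT.PNt
import Pool.Agent.PMA.LimN

/-!
# ROT, F3, near touches for the open words with a gap (helper71)

* `dp_cmp'` : near double points of the open words with a small gap, from the closed words (the converse of `PMA.dp_cmp`);
* **`gap_dp`** : `δ` does not depend on the gap `r ≤ r0`;
-/

set_option autoImplicit false

open MeasureTheory Filter Topology Finset

open scoped Classical

namespace Pool.Agent.ROT.N

open Pool.Agent.PMA Pool.Agent.PMA.Res Pool.Agent.NTS.Res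

open HexObs hiding pos curve

open HexObs.TIW HexObs.POLP NTSF NTSF.Mg NTF Pool.Agent.TSW.BP HexObs.MCP

open Pool.Agent.PMA.Dp Pool.Agent.PMA.LT

/-- **near double points of the open words with a gap, compared with the closed words** -/
theorem dp_cmp' : ∀ ε τ K : ℝ, 0 < ε → 0 < τ → 1 ≤ K → ∃ r0 : ℝ, 0 < r0 ∧ ∀ r : ℝ, 0 < r → r ≤ r0 → ∃ n0 : ℕ,
    ∀ n : ℕ, n0 ≤ n → Odd n → ∀ ρ : ℝ, r / K ≤ ρ → ρ ≤ K * r → ∀ (W d : ℕ) (D : ℝ), τ * n ≤ W →
      gS n r (ρ * nr n) (fun _ t => if DPw n (2 * W) d D t then 1 else 0) / gS n r (ρ * nr n) (fun _ _ => 1) ≤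
        (((cyF (n + 1)).filter fun t => DPw n W d D t).card : ℝ) / ((cyF (n + 1)).card : ℝ) + ε := by
  intro ε τ K hε hτ hK
  obtain ⟨r0, hr0, h⟩ := wpmG ε (2 / τ) hε (by positivity) K hK
  refine ⟨r0, hr0, fun r hr hrr => ?_⟩
  obtain ⟨n0, h⟩ := h r hr hrr
  refine ⟨n0 + 1, fun n hn ho ρ h1 h2 W d D hW => ?_⟩
  have hn1 : 1 ≤ n := by omega
  have hn' : (0 : ℝ) < n := by exact_mod_cast hn1
  have hW0 : 0 < W := by
    have : (0 : ℝ) < W := lt_of_lt_of_le (by positivity) hW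
    exact_mod_cast this
  have hW1 : (n : ℝ) ≤ 1 / τ * W := by
    rw [div_mul_eq_mul_div, one_mul, le_div_iff₀ hτ]
    linarith
  have hCr : ((n + 1 : ℕ) : ℝ) ≤ 2 / τ * W := by
    have h3 : (1 : ℝ) ≤ n := by exact_mod_cast hn1
    have h4 : 2 / τ * (W : ℝ) = 1 / τ * W + 1 / τ * W := by ring
    rw [h4]
    push_cast
    linarith
  have hCr' : (n : ℝ) ≤ 2 / τ * W := by
    push_cast at hCr
    linarith
  have key := h n (by omega) ho ρ h1 h2 (dpA n W d D) (dpA n W d D) (dpA_abs n W d D) (dpA_abs n W d D)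
    (fun X M Y A B _ h4 => dpA_open hW0 hCr' hn1 h4)
    (fun L hL u hu => dpA_rot hW0 hCr (mem_cyF.1 hL).1 hu)
  have k1 : (∑ t ∈ cyF (n + 1), dpA n W d D t) / ((cyF (n + 1)).card : ℝ) ≤
      (((cyF (n + 1)).filter fun t => DPw n W d D t).card : ℝ) / ((cyF (n + 1)).card : ℝ) := by
    refine div_le_div_of_nonneg_right ?_ (Nat.cast_nonneg _)
    rw [card_filter]
    push_cast
    exact sum_le_sum fun t _ => dpA_le
  have k2 : gS n r (ρ * nr n) (fun _ t => if DPw n (2 * W) d D t then 1 else 0) / gS n r (ρ * nr n) (fun _ _ => 1) ≤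
      gS n r (ρ * nr n) (fun _ t => dpA n W d D t) / gS n r (ρ * nr n) (fun _ _ => 1) := by
    have hx := xc_pos
    refine div_le_div_of_nonneg_right ?_ ?_
    · unfold gS
      refine sum_le_sum fun k _ => mul_le_mul_of_nonneg_left (sum_le_sum fun t _ => ?_) (by positivity)
      beta_reduce
      split_ifs with h3
      · exact dpA_ge hW0 h3
      · exact dpA_nonneg _ _ _ _ _
    · unfold gS
      exact sum_nonneg fun k _ => mul_nonneg (by positivity) (sum_nonneg fun _ _ => zero_le_one)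
  have k3 := (abs_le.1 key).2
  linarith

/-- **near double points of the open words with a gap**: `δ` does not depend on the gap -/
theorem gap_dp (ε τ κ K : ℝ) (hε : 0 < ε) (hτ : 0 < τ) (hκ : 0 < κ) (hK : 1 ≤ K) : ∃ δ : ℝ, 0 < δ ∧ ∃ r0 : ℝ, 0 < r0 ∧
    ∀ r : ℝ, 0 < r → r ≤ r0 → ∃ n0 : ℕ, ∀ n : ℕ, n0 ≤ n → Odd n → ∀ ρ : ℝ, r / K ≤ ρ → ρ ≤ K * r →
      ∀ W d : ℕ, τ * n ≤ W → κ * n ≤ d →
        gS n r (ρ * nr n) (fun _ t => if DPw n (2 * W) d (δ * (n : ℝ) ^ (3 / 4 : ℝ)) t then 1 else 0) ≤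
          ε * gS n r (ρ * nr n) (fun _ _ => 1) := by
  obtain ⟨δ, hδ, n1, h1⟩ := dp_cy (ε / 2) τ κ (by positivity) hτ hκ
  obtain ⟨r0, hr0, h2⟩ := dp_cmp' (ε / 2) τ K (by positivity) hτ hK
  refine ⟨δ, hδ, r0, hr0, fun r hr hrr => ?_⟩
  obtain ⟨n2, h2⟩ := h2 r hr hrr
  refine ⟨max n1 n2, fun n hn ho ρ a1 a2 W d hW hd => ?_⟩
  have b1 := h1 n ((le_max_left _ _).trans hn) ho W d hW hd
  have b2 := h2 n ((le_max_right _ _).trans hn) ho ρ a1 a2 W d (δ * (n : ℝ) ^ (3 / 4 : ℝ)) hW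
  have hx := xc_pos
  have g0 : 0 ≤ gS n r (ρ * nr n) (fun _ _ => 1) := by
    unfold gS
    exact sum_nonneg fun k _ => mul_nonneg (by positivity) (sum_nonneg fun _ _ => zero_le_one)
  have g1 : gS n r (ρ * nr n) (fun _ t => if DPw n (2 * W) d (δ * (n : ℝ) ^ (3 / 4 : ℝ)) t then 1 else 0) ≤
      gS n r (ρ * nr n) (fun _ _ => 1) := by
    unfold gS
    refine sum_le_sum fun k _ => mul_le_mul_of_nonneg_left (sum_le_sum fun t _ => ?_) (by positivity)
    beta_reduce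
    split_ifs <;> norm_num
  have b3 : (((cyF (n + 1)).filter fun t => DPw n W d (δ * (n : ℝ) ^ (3 / 4 : ℝ)) t).card : ℝ) / ((cyF (n + 1)).card : ℝ) ≤
      ε / 2 := by
    rcases Nat.eq_zero_or_pos (cyF (n + 1)).card with h6 | h6
    · rw [h6, Nat.cast_zero, div_zero]
      positivity
    · have h7 : (0 : ℝ) < ((cyF (n + 1)).card : ℝ) := by exact_mod_cast h6
      rwa [div_le_iff₀ h7]
  rcases g0.eq_or_lt with h3 | h3
  · rw [← h3] at g1 ⊢
    rw [mul_zero]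
    exact g1
  · rw [← div_le_iff₀ h3]
    linarith

end Pool.Agent.ROT.N
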