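import Pool.Agent.ROT.F3NulG
import Pool.Agent.ROT.F3GenG2

/-!
# ROT, block F3, row NUL (U) (helper68): the gates of all near classes in the limit

* **`near_gates`** : the functional class (gates `G` over the bases `y`, stable) has, almost surely where the balls are strict, the gates of
  all near classes `Gj`, over constant bases, with near times of the eight marks.
-/

set_option autoImplicit false
set_option linter.unusedSectionVars false

open Set Filter Topology MeasureTheory unitInterval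

open scoped NNReal ENNReal

namespace Pool.Agent.ROT.F3.CK

open Pool.Agent.NTS.Res (step pos saw)
open Pool.Agent.SCF.Z Pool.Agent.SCF.M
open Pool.Agent.ROT.F3 Pool.Agent.ROT.F3.LF

instance : Fintype Arm := ⟨{.fp, .bq, .fq, .bp}, fun k => by cases k <;> decide⟩

section

variable {U : Ultrafilter ℕ} {b : ℝ} {PG : Measure CC.Gm} {S : ℕ → ℝ} {c0 : ℝ} {R R2 R3 : Arm → ℝ} {D : Dt} {G : Arm → GP}
  {T : Arm → LSym} {y : Arm → ℕ → W3 × ℕ → ℝ} {B : Arm → Set CC.Gm} {Pc Pg : Arm → CC.Gm → ℝ}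

/-- clamped slack -/
noncomputable def clp (t : ℝ) : ℝ := max (-1) (min 1 t)

lemma clp_cont : Continuous clp := continuous_const.max (continuous_const.min continuous_id)

lemma clp_abs (t : ℝ) : |clp t| ≤ 1 := by
  unfold clp
  rw [abs_le]
  exact ⟨le_max_left _ _, max_le (by norm_num) (min_le_left _ _)⟩

lemma clp_neg {t : ℝ} (h : t < 0) : clp t < 0 := by
  unfold clp
  exact max_lt (by norm_num) ((min_le_right _ _).trans_lt h)

lemma clp_le {t κ : ℝ} (hκ : 0 < κ) (h : clp t ≤ -κ) : t ≤ -κ := by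
  have h1 : min 1 t ≤ -κ := (le_max_right _ _).trans h
  rcases min_le_iff.1 h1 with h2 | h2
  · linarith
  · exact h2

/-- **the level of the cut of the block is strictly below `m`, in the limit** -/
theorem qy_lt (hC : Cv (U : Filter ℕ) (fun N => mwE N b) cN PG) (hS : ∀ᶠ N : ℕ in U, S N = N) (hU : (U : Filter ℕ) ≤ atTop) {k : Arm}
    {T : LSym} {G : GP} {P : Tp} {R R3 : ℝ} (hR : 0 < R) (hR3 : 0 < R3) (hr : G.r1 ≤ 2 * R) (hr3 : G.r1'' ≤ 2 * R3) (hG : G.Ok P)
    {y : ℕ → W3 × ℕ → ℝ} {B : Set CC.Gm}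
    (hB : Ev (U : Filter ℕ) (fun N => mwE N b) cN PG (fun N x => c0 < ‖ps x.1 x.2‖ / N ∧ sgE G T (y N x) N k x) B) {Ψ : CC.Gm → ℝ}
    (hΨ : Lm (U : Filter ℕ) (fun N => mwE N b) cN PG
      (fun N x => qy R R3 G.l G.r1 G.ρ1 G.h G.r1'' G.ρ'' (S N) (y N x) (zN c0 N x) (aW k T x).get) Ψ)
    (na : PG {g | Ψ g = G.m} = 0) : ∀ᵐ g ∂PG, g ∈ B → Ψ g < G.m := by
  have h1 := Ev.mem (κ := Unit) (p := fun N x _ => qy R R3 G.l G.r1 G.ρ1 G.h G.r1'' G.ρ'' (S N) (y N x) (zN c0 N x) (aW k T x).get)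
    (Φ := fun g _ => Ψ g) hC (fun _ => hΨ) hB (F := fun z => z.2 () - G.m) (by fun_prop) (fun δ hδ => by
      filter_upwards [hS, hU (eventually_ge_atTop 1)] with N h1 h2
      refine ⟨∅, MeasurableSet.empty, by simpa using hδ.le, fun x _ hx => ?_⟩
      obtain ⟨h3, h4⟩ := hx
      have hN0 : (0 : ℝ) < N := by exact_mod_cast h2
      obtain ⟨z, hz⟩ := sg_spec h4
      have ez : zN c0 N x = 1 := zN_iff.2 h3
      have e := qy_eq (R := R) (R3 := R3) (z := zN c0 N x) (s := (aW k T x).get) (S := N) (p := y N x) (a := G.l) (r := G.r1)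
        (ρ := G.ρ1) (h := G.h) (r2 := G.r1'') (ρ2 := G.ρ'') hR hR3 hN0 hr hG.u1 hr3 hG.u3 ez (c := sgc G T (y N x) N k x) (y := z)
        ⟨hz.gx.1, hz.gy⟩
      show qy R R3 G.l G.r1 G.ρ1 G.h G.r1'' G.ρ'' (S N) (y N x) (zN c0 N x) (aW k T x).get - G.m ≤ δ
      rw [h1, e]
      have h5 : (pos (aW k T x).get z).re < (pos (aW k T x).get (sgc G T (y N x) N k x)).re + G.m * N := hz.lt
      have h6 : ((pos (aW k T x).get z).re - (pos (aW k T x).get (sgc G T (y N x) N k x)).re) / N ≤ G.m := by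
        rw [div_le_iff₀ hN0]
        linarith
      linarith)
  have h2 : ∀ᵐ g ∂PG, ¬ Ψ g = G.m := by
    rw [ae_iff]
    refine measure_mono_null (fun g hg => ?_) na
    exact not_not.1 hg
  filter_upwards [h1, h2] with g a1 a2 hg
  exact lt_of_le_of_ne (by linarith [a1 hg]) a2

/-- **the gates of all near classes in the limit** -/
theorem near_gates (hC : Cv (U : Filter ℕ) (fun N => mwE N b) cN PG) (hP0 : ∀ᵐ y ∂PG, 0 < y.1) (hU : (U : Filter ℕ) ≤ atTop)
    (hS : ∀ᶠ N : ℕ in U, S N = N) (hc0 : 0 ≤ c0) (hD : D.Ok) (hG : GOk D G T)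
    (hA : AIn (U : Filter ℕ) b PG (gA c0 G T y) (gC G T y) (gX G T y) B Pc Pg)
    (ws : ∀ k, WSys (U : Filter ℕ) (fun N => mwE N b) (fun _ x => (aW k (T k) x).length) (fun _ x => (aW k (T k) x).get) S)
    (sg : ∀ k, SGd U b PG S c0 (R k) (R2 k) (R3 k) k (T k) (y k) (G k))
    (na : ∀ k (Ψ : CC.Gm → ℝ), Lm (U : Filter ℕ) (fun N => mwE N b) cN PG
      (fun N x => qy (R k) (R3 k) (G k).l (G k).r1 (G k).ρ1 (G k).h (G k).r1'' (G k).ρ'' (S N) (y k N x) (zN c0 N x)
        (aW k (T k) x).get) Ψ → PG {g | Ψ g = (G k).m} = 0)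
    (hR : ∀ k, 0 < R k) (hR3 : ∀ k, 0 < R3 k) (hr : ∀ k, (G k).r1 ≤ 2 * R k) (hr3 : ∀ k, (G k).r1'' ≤ 2 * R3 k)
    {β : Arm → CC.Gm → ℝ} (hy : ∀ k, Lm (U : Filter ℕ) (fun N => mwE N b) cN PG (y k) (β k))
    {J : Type*} [Countable J] {Dj : J → Dt} {Gj : J → Arm → GP} {yj : J → Arm → ℝ} {Bj : J → Arm → Set CC.Gm}
    {Pcj Pgj : J → Arm → CC.Gm → ℝ} {pr : J → ℝ} (hDj : ∀ j, (Dj j).Ok) (hGj : ∀ j, GOk (Dj j) (Gj j) T) (yj0 : ∀ j k, 0 ≤ yj j k)
    (hAj : ∀ j, AIn (U : Filter ℕ) b PG (gA c0 (Gj j) T fun k _ _ => yj j k) (gC (Gj j) T fun k _ _ => yj j k)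
      (gX (Gj j) T fun k _ _ => yj j k) (Bj j) (Pcj j) (Pgj j))
    (hn : ∀ j k, TpN (pr j) (D.gtp k) ((Dj j).gtp k))
    (hI : ∃ μ0 : ℝ, 0 < μ0 ∧ ∀ j, pr j ≤ μ0 → ∀ k, ((G k).at ((Dj j).gtp k)).Ok ((Dj j).gtp k)) :
    ∀ᵐ g ∂PG, (g ∈ ⋂ k, B k) → (∀ k, bal4 D g.2.2 (pji (muG g)) (fun i => pji (phi8 B Pc Pg g i)) k < 0) →
      ∀ η : ℝ, 0 < η → ∃ μ : ℝ, 0 < μ ∧ ∀ j, (∀ k, |(((Dj j).gtp k).l + yj j k) - ((D.gtp k).l + β k g)| < μ) → pr j ≤ μ →
        (g ∈ ⋂ k, Bj j k) ∧ ∀ i, |phi8 B Pc Pg g i - phi8 (Bj j) (Pcj j) (Pgj j) g i| ≤ η := by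
  have hfin := hC.fin
  obtain ⟨Ψ, hΨ⟩ : ∃ Ψ : Arm → CC.Gm → ℝ, ∀ k, Lm (U : Filter ℕ) (fun N => mwE N b) cN PG
      (fun N x => qy (R k) (R3 k) (G k).l (G k).r1 (G k).ρ1 (G k).h (G k).r1'' (G k).ρ'' (S N) (y k N x) (zN c0 N x)
        (aW k (T k) x).get) (Ψ k) := by
    have key : ∀ k, ∃ Ψ : CC.Gm → ℝ, Lm (U : Filter ℕ) (fun N => mwE N b) cN PG
      (fun N x => qy (R k) (R3 k) (G k).l (G k).r1 (G k).ρ1 (G k).h (G k).r1'' (G k).ρ'' (S N) (y k N x) (zN c0 N x)
        (aW k (T k) x).get) Ψ := fun k => ((sg k).gy.lv.sub (sg k).gc.lv).l1f.lim hC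
    choose Ψ h using key
    exact ⟨Ψ, h⟩
  have hlt : ∀ k, ∀ᵐ g ∂PG, g ∈ B k → Ψ k g < (G k).m := fun k =>
    qy_lt hC hS hU (hR k) (hR3 k) (hr k) (hr3 k) (hG.g k) (hA.ev k) (hΨ k) (na k _ (hΨ k))
  have evA := allA_ev hC hA
  have tmA := allA_tm hC hP0 hA
  obtain ⟨v, hv⟩ : ∃ v : ℕ → W3 × ℕ → Fin 8 → ℕ, v = v8 (gC G T y) (gX G T y) := ⟨_, rfl⟩
  obtain ⟨A, hAd⟩ : ∃ A : ℕ → W3 × ℕ → Prop, A = allA (gA c0 G T y) (gC G T y) (gX G T y) := ⟨_, rfl⟩
  have mk : ∀ q : Option (Fin 8), Lm (U : Filter ℕ) (fun N => mwE N b) cN PG (fun N x => mkA A v N x q)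
      fun g => mkL (phi8 B Pc Pg) g q := fun q => by
    cases q with
    | none => exact lm_mu hC hP0
    | some i =>
      rw [hv, hAd]
      exact tmA i
  -- slacks of the balls
  have hb : ∀ k, Lm (U : Filter ℕ) (fun N => mwE N b) cN PG
      (fun N x => clp (bal4 D (cN N x).2.2 (pji (mkA A v N x none)) (fun i => pji (mkA A v N x (some i))) k))
      fun g => clp (bal4 D g.2.2 (pji (muG g)) (fun i => pji (phi8 B Pc Pg g i)) k) := fun k =>
    Lm.comp (κ := Option (Fin 8)) hC (p := fun N x q => mkA A v N x q) (Φ := fun g q => mkL (phi8 B Pc Pg) g q) mk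
      (F := fun z => clp (bal4 D z.1.2.2 (pji (z.2 none)) (fun i => pji (z.2 (some i))) k)) (B := 1)
      (clp_cont.comp (bal4_cont k (by fun_prop) (pji_cont.comp (by fun_prop)) fun i => pji_cont.comp (by fun_prop)))
      fun z => clp_abs _
  have hbase : ∀ k, Lm (U : Filter ℕ) (fun N => mwE N b) cN PG (fun N x => (D.gtp k).l + y k N x) fun g => (D.gtp k).l + β k g :=
    fun k => Lm.add hC (Lm.const hC _) (hy k)
  have key := near_open (κ := Fin 8) (τ := Arm ⊕ Arm) (J := J) hC (A := A) (B := ⋂ k, B k) (by rw [hAd]; exact evA)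
    (b := fun N x k => (D.gtp k).l + y k N x) (β := fun g k => (D.gtp k).l + β k g) hbase
    (t := fun N x i => bi (A N x) * ((v N x i : ℝ) / x.1.length)) (Φ := fun g i => phi8 B Pc Pg g i)
    (fun i => mk (some i))
    (sl := fun N x u => Sum.elim (fun k => clp (bal4 D (cN N x).2.2 (pji (mkA A v N x none))
      (fun i => pji (mkA A v N x (some i))) k)) (fun k => qy (R k) (R3 k) (G k).l (G k).r1 (G k).ρ1 (G k).h (G k).r1'' (G k).ρ''
        (S N) (y k N x) (zN c0 N x) (aW k (T k) x).get - (G k).m) u)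
    (Sl := fun g u => Sum.elim (fun k => clp (bal4 D g.2.2 (pji (muG g)) (fun i => pji (phi8 B Pc Pg g i)) k))
      (fun k => Ψ k g - (G k).m) u)
    (fun u => by
      rcases u with k | k
      · exact hb k
      · exact Lm.sub hC (hΨ k) (Lm.const hC _))
    (Aj := fun j => allA (gA c0 (Gj j) T fun k _ _ => yj j k) (gC (Gj j) T fun k _ _ => yj j k) (gX (Gj j) T fun k _ _ => yj j k))
    (Bj := fun j => ⋂ k, Bj j k) (fun j => allA_ev hC (hAj j))
    (tj := fun j N x i => bi (allA (gA c0 (Gj j) T fun k _ _ => yj j k) (gC (Gj j) T fun k _ _ => yj j k)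
      (gX (Gj j) T fun k _ _ => yj j k) N x) * ((v8 (gC (Gj j) T fun k _ _ => yj j k) (gX (Gj j) T fun k _ _ => yj j k) N x i : ℝ) /
        x.1.length)) (Φj := fun j g i => phi8 (Bj j) (Pcj j) (Pgj j) g i) (fun j i => allA_tm hC hP0 (hAj j) i)
    (lv := fun j k => ((Dj j).gtp k).l + yj j k) (pr := pr) ?_
  · filter_upwards [key, ae_all_iff.2 hlt] with g h1 h2 hg hb' η hη
    refine h1 hg (fun u => ?_) η hη
    rcases u with k | k
    · exact clp_neg (hb' k)
    · exact sub_neg.2 (h2 k (mem_iInter.1 hg k))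
  · -- words
    intro κ0 hκ0 η hη ε hε
    obtain ⟨μ0, hμ0, hμI⟩ := hI
    have tpOk : ∀ k, (D.gtp k).Ok := fun k => by
      cases k
      exacts [hD.P, hD.Q, hD.Q, hD.P]
    have tpOkj : ∀ j k, ((Dj j).gtp k).Ok := fun j k => by
      cases k
      exacts [(hDj j).P, (hDj j).Q, (hDj j).Q, (hDj j).P]
    have arm : ∀ k, ∃ μ : ℝ, 0 < μ ∧ ∀ᶠ N in (U : Filter ℕ), (mwE N b).real {x | ¬ (Spt x → 0 < x.2 →
        ArmH (G k) (D.gtp k) (T k) k (κ0 / 2) (y k N x) N x → ArmN (G k) (D.gtp k) (T k) k μ η (y k N x) N x)} ≤ ε / 4 := fun k =>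
      arm_ev hfin hU hS (ws k) (sg k).gc (sg k).gx (sg k).gy (tpOk k) (hG.g k) (hR k) (hr k) (hG.t k) (by positivity) hη
        (by positivity)
    choose μk hμk hak using arm
    obtain ⟨μ, hμ⟩ : ∃ μ, μ = min μ0 (min (min (μk .fp) (μk .bq)) (min (μk .fq) (μk .bp))) := ⟨_, rfl⟩
    have u0 : 0 < μ := by
      rw [hμ]
      exact lt_min hμ0 (lt_min (lt_min (hμk _) (hμk _)) (lt_min (hμk _) (hμk _)))
    have uI : μ ≤ μ0 := by rw [hμ]; exact min_le_left _ _
    have uk : ∀ k, μ ≤ μk k := fun k => by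
      rw [hμ]
      cases k
      · exact (min_le_right _ _).trans ((min_le_left _ _).trans (min_le_left _ _))
      · exact (min_le_right _ _).trans ((min_le_left _ _).trans (min_le_right _ _))
      · exact (min_le_right _ _).trans ((min_le_right _ _).trans (min_le_left _ _))
      · exact (min_le_right _ _).trans ((min_le_right _ _).trans (min_le_right _ _))
    refine ⟨μ, u0, ?_⟩
    have t3 : Tendsto (fun N : ℕ => 3 / (N : ℝ)) (U : Filter ℕ) (𝓝 0) :=
      (tendsto_const_div_atTop_nhds_zero_nat 3).mono_left hU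
    filter_upwards [hak .fp, hak .bq, hak .fq, hak .bp, hS, hU (eventually_ge_atTop 1),
      t3.eventually_le_const (show (0 : ℝ) < κ0 / 2 by positivity)] with N a1 a2 a3 a4 eS hN h3
    have := hfin N
    have hN0 : (0 : ℝ) < N := by exact_mod_cast hN
    obtain ⟨Bd, hBd⟩ : ∃ Bd : Arm → Set (W3 × ℕ), Bd = fun k => {x | ¬ (Spt x → 0 < x.2 →
        ArmH (G k) (D.gtp k) (T k) k (κ0 / 2) (y k N x) N x → ArmN (G k) (D.gtp k) (T k) k (μk k) η (y k N x) N x)} := ⟨_, rfl⟩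
    have hBk : ∀ k, (mwE N b).real (Bd k) ≤ ε / 4 := fun k => by
      rw [hBd]
      cases k
      exacts [a1, a2, a3, a4]
    refine (measureReal_mono (s₂ := (Bd .fp ∪ Bd .bq) ∪ (Bd .fq ∪ Bd .bp)) fun x hx => ?_).trans
      ((measureReal_union_le _ _).trans ((add_le_add (measureReal_union_le _ _) (measureReal_union_le _ _)).trans
        (by linarith [hBk .fp, hBk .bq, hBk .fq, hBk .bp])))
    by_contra hcon
    obtain ⟨hAx, hslx, hnot⟩ := hx
    have hgood : ∀ k, Spt x → 0 < x.2 → ArmH (G k) (D.gtp k) (T k) k (κ0 / 2) (y k N x) N x →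
        ArmN (G k) (D.gtp k) (T k) k (μk k) η (y k N x) N x := fun k => by
      have : x ∉ Bd k := by
        intro hc
        refine hcon ?_
        cases k
        exacts [Or.inl (Or.inl hc), Or.inl (Or.inr hc), Or.inr (Or.inl hc), Or.inr (Or.inr hc)]
      rw [hBd] at this
      exact not_not.1 this
    have hAx' := hAx
    rw [hAd] at hAx'
    obtain ⟨hspt, hgA, hok⟩ := hAx'
    have hm0 : 0 < x.2 := by
      rcases Nat.eq_zero_or_pos x.2 with h0 | h0
      · exfalso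
        have h1 := (hgA .fp).1
        rw [h0, ps_zero, norm_zero, zero_div] at h1
        linarith
      · exact h0
    have hv' : ∀ q : Option (Fin 8), pji (mkA A v N x q) = fr (q.elim x.2 fun i => v N x i) x.1.length := fun q => by
      cases q with
      | none =>
        show pji (muN x) = fr x.2 x.1.length
        rw [muN_eq hspt.2.2, ← fr_coe hspt.2.2.le, pji_coe]
      | some i =>
        show pji (bi (A N x) * ((v N x i : ℝ) / x.1.length)) = fr (v N x i) x.1.length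
        have hle : v N x i ≤ x.1.length := by
          rw [hv]
          exact (v8_pos hspt hok).le i
        rw [bi_pos hAx, one_mul, ← fr_coe hle, pji_coe]
    have hball : ∀ k, bal4 D (crv x.1 x.1.length N) (fr x.2 x.1.length) (fun i => fr (v N x i) x.1.length) k ≤ -κ0 := fun k => by
      have h1 := hslx (Sum.inl k)
      simp only [Sum.elim_inl] at h1
      have h2 := clp_le hκ0 h1
      have e1 : (fun i => pji (mkA A v N x (some i))) = fun i => fr (v N x i) x.1.length := funext fun i => hv' (some i)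
      have e2 : pji (mkA A v N x none) = fr x.2 x.1.length := hv' none
      rw [e1, e2] at h2
      exact h2
    have hH : ∀ k, ArmH (G k) (D.gtp k) (T k) k (κ0 / 2) (y k N x) N x := fun k => by
      have hb := hball k
      rw [hv] at hb
      obtain ⟨q1, q2⟩ := arm_ball hspt (by omega) hok h3 k hb
      refine ⟨(hgA k).2, q1, q2, fun z hz => ?_⟩
      have ez : zN c0 N x = 1 := zN_iff.2 (hgA k).1
      have e := qy_eq (R := R k) (R3 := R3 k) (z := zN c0 N x) (s := (aW k (T k) x).get) (S := N) (p := y k N x) (a := (G k).l)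
        (r := (G k).r1) (ρ := (G k).ρ1) (h := (G k).h) (r2 := (G k).r1'') (ρ2 := (G k).ρ'') (hR k) (hR3 k) hN0 (hr k) (hG.g k).u1 (hr3 k)
        (hG.g k).u3 ez (c := sgc (G k) (T k) (y k N x) N k x) (y := z) ⟨hz.gx.1, hz.gy⟩
      have h1 := hslx (Sum.inr k)
      simp only [Sum.elim_inr] at h1
      rw [eS, e] at h1
      have h4 : ((pos (aW k (T k) x).get z).re - (pos (aW k (T k) x).get (sgc (G k) (T k) (y k N x) N k x)).re) / N ≤
          (G k).m - κ0 / 2 := by linarith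
      rw [div_le_iff₀ hN0] at h4
      linarith
    have hNx : ∀ k, ArmN (G k) (D.gtp k) (T k) k (μk k) η (y k N x) N x := fun k => hgood k hspt hm0 (hH k)
    refine hnot fun j hj hpr => ?_
    have hk : ∀ k, sgE (Gj j k) (T k) (yj j k) N k x ∧
        |(sgc (G k) (T k) (y k N x) N k x : ℝ) / (arcw x.2 k x.1).length -
          (sgc (Gj j k) (T k) (yj j k) N k x : ℝ) / (arcw x.2 k x.1).length| ≤ η ∧
        |(sgx (G k) (T k) (y k N x) N k x : ℝ) / (arcw x.2 k x.1).length -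
          (sgx (Gj j k) (T k) (yj j k) N k x : ℝ) / (arcw x.2 k x.1).length| ≤ η := fun k => by
      refine hNx k ((Dj j).gtp k) (Gj j k) (yj j k) (tpOkj j k) ((hGj j).g k) (hμI j (hpr.trans uI) k) (yj0 j k)
        ((hn j k).mono (hpr.trans (uk k))) ?_
      rw [(hG.g k).l]
      exact (hj k).trans (uk k)
    have hok' : okA (gC (Gj j) T fun k _ _ => yj j k) (gX (Gj j) T fun k _ _ => yj j k) N x := fun k => by
      obtain ⟨h1, h2, h5, h6⟩ := arm_pos (hDj j) (hGj j) hN0 (hk k).1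
      exact ⟨h1, h2, h5.le, h6.le⟩
    have hall : allA (gA c0 (Gj j) T fun k _ _ => yj j k) (gC (Gj j) T fun k _ _ => yj j k) (gX (Gj j) T fun k _ _ => yj j k) N x :=
      ⟨hspt, fun k => ⟨(hgA k).1, (hk k).1⟩, hok'⟩
    refine ⟨hall, fun i => ?_⟩
    show |bi (A N x) * ((v N x i : ℝ) / x.1.length) - bi (allA (gA c0 (Gj j) T fun k _ _ => yj j k)
      (gC (Gj j) T fun k _ _ => yj j k) (gX (Gj j) T fun k _ _ => yj j k) N x) *
        ((v8 (gC (Gj j) T fun k _ _ => yj j k) (gX (Gj j) T fun k _ _ => yj j k) N x i : ℝ) / x.1.length)| ≤ η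
    rw [bi_pos hAx, bi_pos hall, one_mul, one_mul, hv]
    exact v8_near hspt hok hok' (fun k => (hk k).2.1) (fun k => (hk k).2.2) i

end

end Pool.Agent.ROT.F3.CK
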