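import Pool.Agent.ROT.F3NugA

/-!
# ROT, block F3, row NUL (U) (helper68): all near classes occur

* `NgI` : the gates of the functional class are stable, the inputs of `near_gates`; `NgJ` : the near classes;
* **`near_cls`** : almost surely on the functional class (statistic not `0`): all near classes occur, the strips of the main arcs too.
-/

set_option autoImplicit false
set_option linter.unusedSectionVars false

open Set Filter Topology MeasureTheory unitInterval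

open scoped NNReal ENNReal

namespace Pool.Agent.ROT.F3.CK

open Pool.Agent.ROT.F3 Pool.Agent.ROT.F3.LF

/-- **stable gates of the functional class** : records `G`, turns `T`, bases `y` (arm by arm) with limits `β` -/
structure NgI (U : Ultrafilter ℕ) (b : ℝ) (PG : Measure CC.Gm) (S : ℕ → ℝ) (c0 : ℝ) (R R2 R3 : Arm → ℝ) (D : Dt) (G : Arm → GP)
    (T : Arm → LSym) (y : Arm → ℕ → W3 × ℕ → ℝ) (β : Arm → CC.Gm → ℝ) (B : Arm → Set CC.Gm) (Pc Pg : Arm → CC.Gm → ℝ) : Prop where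
  ok : D.Ok
  g : GOk D G T
  a : AIn (U : Filter ℕ) b PG (gA c0 G T y) (gC G T y) (gX G T y) B Pc Pg
  ws : ∀ k, WSys (U : Filter ℕ) (fun N => mwE N b) (fun _ x => (aW k (T k) x).length) (fun _ x => (aW k (T k) x).get) S
  sg : ∀ k, SGd U b PG S c0 (R k) (R2 k) (R3 k) k (T k) (y k) (G k)
  na : ∀ k (Ψ : CC.Gm → ℝ), Lm (U : Filter ℕ) (fun N => mwE N b) cN PG
    (fun N x => qy (R k) (R3 k) (G k).l (G k).r1 (G k).ρ1 (G k).h (G k).r1'' (G k).ρ'' (S N) (y k N x) (zN c0 N x)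
      (aW k (T k) x).get) Ψ → PG {g | Ψ g = (G k).m} = 0
  hR : ∀ k, 0 < R k
  hR3 : ∀ k, 0 < R3 k
  r : ∀ k, (G k).r1 ≤ 2 * R k
  r3 : ∀ k, (G k).r1'' ≤ 2 * R3 k
  y : ∀ k, Lm (U : Filter ℕ) (fun N => mwE N b) cN PG (y k) (β k)

/-- **the near classes** : constant bases `yj`, `pr j` = distance of the parameters -/
structure NgJ (U : Ultrafilter ℕ) (b : ℝ) (PG : Measure CC.Gm) (c0 : ℝ) (D : Dt) (G : Arm → GP) (T : Arm → LSym) {J : Type*}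
    (pr : J → ℝ) (Dj : J → Dt) (Gj : J → Arm → GP) (yj : J → Arm → ℝ) (Bj : J → Arm → Set CC.Gm) (Pcj Pgj : J → Arm → CC.Gm → ℝ) :
    Prop where
  ok : ∀ j, (Dj j).Ok
  g : ∀ j, GOk (Dj j) (Gj j) T
  y0 : ∀ j k, 0 ≤ yj j k
  a : ∀ j, AIn (U : Filter ℕ) b PG (gA c0 (Gj j) T fun k _ _ => yj j k) (gC (Gj j) T fun k _ _ => yj j k)
    (gX (Gj j) T fun k _ _ => yj j k) (Bj j) (Pcj j) (Pgj j)
  n : ∀ j k, TpN (pr j) (D.gtp k) ((Dj j).gtp k)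
  N : ∀ j, DNr (pr j) D (Dj j)
  nI : ∃ μ0 : ℝ, 0 < μ0 ∧ ∀ j, pr j ≤ μ0 → ∀ k, ((G k).at ((Dj j).gtp k)).Ok ((Dj j).gtp k)

lemma TNr.mono {δ δ' : ℝ} {P P' : Tp} (h : TNr δ P P') (hd : δ ≤ δ') : TNr δ' P P' :=
  ⟨h.c, h.cs, h.r0, h.r.trans hd, h.r2.trans hd, h.e.trans hd, h.κ1.trans hd, h.κ.trans hd, h.w.trans hd, h.κs.trans hd,
    h.la.trans hd, h.lb.trans hd⟩

lemma WNr.mono {δ δ' : ℝ} {W W' : Wn} (h : WNr δ W W') (hd : δ ≤ δ') : WNr δ' W W' :=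
  ⟨h.D0.trans hd, h.D1.trans hd, h.t0.trans (by linarith), h.s, h.t1.trans hd⟩

lemma DNr.mono {δ δ' : ℝ} {D D' : Dt} (h : DNr δ D D') (hd : δ ≤ δ') : DNr δ' D D' :=
  ⟨h.P.mono hd, h.Q.mono hd, h.V.mono hd, h.V'.mono hd, h.d, h.d', h.t, h.t'⟩

lemma SNr.mono {δ δ' : ℝ} {s s' : Sr} (h : SNr δ s s') (hd : δ ≤ δ') : SNr δ' s s' :=
  ⟨h.e.trans hd, h.hw.trans hd, h.len.trans hd, h.bn.trans hd⟩

/-- the largest of four numbers -/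
noncomputable def mx4 (f : Arm → ℝ) : ℝ := max (max (f .fp) (f .bq)) (max (f .fq) (f .bp))

lemma le_mx4 (f : Arm → ℝ) (k : Arm) : f k ≤ mx4 f := by
  unfold mx4
  cases k
  · exact (le_max_left _ _).trans (le_max_left _ _)
  · exact (le_max_right _ _).trans (le_max_left _ _)
  · exact (le_max_left _ _).trans (le_max_right _ _)
  · exact (le_max_right _ _).trans (le_max_right _ _)

lemma mx4_lt {f : Arm → ℝ} {x : ℝ} (h : ∀ k, f k < x) : mx4 f < x :=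
  max_lt (max_lt (h _) (h _)) (max_lt (h _) (h _))

section

variable {U : Ultrafilter ℕ} {b : ℝ} {PG : Measure CC.Gm} {S : ℕ → ℝ} {c0 : ℝ} {R R2 R3 : Arm → ℝ} {D : Dt} {G : Arm → GP}
  {T : Arm → LSym} {y : Arm → ℕ → W3 × ℕ → ℝ} {β : Arm → CC.Gm → ℝ} {B : Arm → Set CC.Gm} {Pc Pg : Arm → CC.Gm → ℝ}
  {J : Type*} {pr : J → ℝ} {Dj : J → Dt} {Gj : J → Arm → GP} {yj : J → Arm → ℝ} {Bj : J → Arm → Set CC.Gm}
  {Pcj Pgj : J → Arm → CC.Gm → ℝ}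

/-- **all near classes occur** -/
theorem near_cls [Countable J] (hC : Cv (U : Filter ℕ) (fun N => mwE N b) cN PG) (hP0 : ∀ᵐ y ∂PG, 0 < y.1)
    (hU : (U : Filter ℕ) ≤ atTop) (hS : ∀ᶠ N : ℕ in U, S N = N) (hc0 : 0 ≤ c0) (H : NgI U b PG S c0 R R2 R3 D G T y β B Pc Pg)
    (HJ : NgJ U b PG c0 D G T pr Dj Gj yj Bj Pcj Pgj)
    (h0 : PG {y | y ∈ (⋂ k, B k) ∧ clsF D y.2.2 y.1 (pji (muG y)) (fun k => pji (phi8 B Pc Pg y k)) = 0} = 0) :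
    ∀ᵐ g ∂PG, g ∈ k3S D (⋂ k, B k) (phi8 B Pc Pg) →
      (∃ μ : ℝ, 0 < μ ∧ ∀ j, (∀ k, |(((Dj j).gtp k).l + yj j k) - ((D.gtp k).l + β k g)| < μ) → pr j < μ →
        g ∈ k3S (Dj j) (⋂ k, Bj j k) (phi8 (Bj j) (Pcj j) (Pgj j))) ∧
      ∀ (s s' : Sr) (sj sj' : J → Sr), (∀ j, SNr (pr j) s (sj j)) → (∀ j, SNr (pr j) s' (sj' j)) →
        max (nrF D.d s g.2.2 (pji (phi8 B Pc Pg g 1)) (pji (phi8 B Pc Pg g 2)))
          (nrF D.t s' g.2.2 (pji (phi8 B Pc Pg g 2)) (pji (phi8 B Pc Pg g 1))) ≤ 0 →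
        max (nrF D.d s g.2.2 (pji (phi8 B Pc Pg g 1)) (pji (phi8 B Pc Pg g 2)))
          (nrF D.t s' g.2.2 (pji (phi8 B Pc Pg g 2)) (pji (phi8 B Pc Pg g 1))) ≠ 0 →
        ∃ μ : ℝ, 0 < μ ∧ ∀ j, (∀ k, |(((Dj j).gtp k).l + yj j k) - ((D.gtp k).l + β k g)| < μ) → pr j < μ →
          max (nrF D.d (sj j) g.2.2 (pji (phi8 (Bj j) (Pcj j) (Pgj j) g 1)) (pji (phi8 (Bj j) (Pcj j) (Pgj j) g 2)))
            (nrF D.t (sj' j) g.2.2 (pji (phi8 (Bj j) (Pcj j) (Pgj j) g 2)) (pji (phi8 (Bj j) (Pcj j) (Pgj j) g 1))) ≤ 0 := by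
  have h1 := near_gates hC hP0 hU hS hc0 H.ok H.g H.a H.ws H.sg H.na H.hR H.hR3 H.r H.r3 H.y HJ.ok HJ.g HJ.y0 HJ.a HJ.n HJ.nI
  have h2 : ∀ᵐ g ∂PG, g ∈ (⋂ k, B k) → clsF D g.2.2 g.1 (pji (muG g)) (fun k => pji (phi8 B Pc Pg g k)) ≠ 0 := by
    rw [ae_iff]
    refine measure_mono_null (fun g hg => ?_) h0
    simp only [mem_ofPred_eq, Classical.not_imp, not_not] at hg
    exact hg
  filter_upwards [h1, h2] with g g1 g2 hg
  have hle : clsF D g.2.2 g.1 (pji (muG g)) (fun k => pji (phi8 B Pc Pg g k)) ≤ 0 := (le_max_left _ _).trans hg.2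
  have hlt : clsF D g.2.2 g.1 (pji (muG g)) (fun k => pji (phi8 B Pc Pg g k)) < 0 := lt_of_le_of_ne hle (g2 hg.1)
  have g3 := g1 hg.1 fun k => (bal4_le k).trans_lt hlt
  obtain ⟨a, ha⟩ : ∃ a : J → Arm → ℝ, a = fun j k => |(((Dj j).gtp k).l + yj j k) - ((D.gtp k).l + β k g)| := ⟨_, rfl⟩
  obtain ⟨δ, hδ⟩ : ∃ δ : J → ℝ, δ = fun j => max (pr j) (mx4 (a j)) := ⟨_, rfl⟩
  have d1 : ∀ j, pr j ≤ δ j := fun j => by rw [hδ]; exact le_max_left _ _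
  have d2 : ∀ j k, a j k ≤ δ j := fun j k => by rw [hδ]; exact (le_mx4 _ k).trans (le_max_right _ _)
  have d3 : ∀ j μ, (∀ k, a j k < μ) → pr j < μ → δ j < μ := fun j μ h h' => by
    rw [hδ]
    exact max_lt h' (mx4_lt h)
  have hm : ∀ η : ℝ, 0 < η → ∃ μ : ℝ, 0 < μ ∧ ∀ j, δ j < μ → (g ∈ ⋂ k, Bj j k) ∧
      ∀ k, |phi8 B Pc Pg g k - phi8 (Bj j) (Pcj j) (Pgj j) g k| ≤ η := fun η hη => by
    obtain ⟨μ, m0, m1⟩ := g3 η hη
    refine ⟨μ, m0, fun j hj => m1 j (fun k => ?_) ((d1 j).trans hj.le)⟩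
    have := (d2 j k).trans_lt hj
    rw [ha] at this
    exact this
  refine ⟨?_, fun s s' sj sj' hs hs' n0 n1 => ?_⟩
  · obtain ⟨μ, m0, m1⟩ := k3_near (δ := δ) H.ok (fun j => (HJ.N j).mono (d1 j)) hm hg (g2 hg.1)
    refine ⟨μ, m0, fun j h h' => m1 j (d3 j μ (fun k => ?_) h')⟩
    rw [ha]
    exact h k
  · obtain ⟨μ, m0, m1⟩ := nr_near (δ := δ) H.ok.d H.ok.t (fun j => (hs j).mono (d1 j)) (fun j => (hs' j).mono (d1 j))
      (fun η hη => by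
        obtain ⟨μ, m0, m1⟩ := hm η hη
        exact ⟨μ, m0, fun j hj => (m1 j hj).2⟩) n0 n1
    refine ⟨μ, m0, fun j h h' => m1 j (d3 j μ (fun k => ?_) h')⟩
    rw [ha]
    exact h k

end

end Pool.Agent.ROT.F3.CK
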