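import Pool.Agent.ROT.F3NulZ
import Pool.Agent.ROT.F3LevS

/-!
# ROT, F3, row NUL (helper15): the fields `ne`, `fr` of the package of a pair

* `jDR_eq` : `jDR P i j = dR P i j`; `fam_of` : `FamL` from the limits of the classes of the cells;
* **`fr_prm`** : the field `fr` (`levH_of`, `PkF`); **`ne_prm`** : the field `ne`.
-/

set_option autoImplicit false
set_option linter.unusedSectionVars false

open MeasureTheory Set Filter Topology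
open scoped ENNReal NNReal Classical

namespace Pool.Agent.ROT.F3.NW

open Pool.Agent.ROT.F3 Pool.Agent.ROT.F3.CC Pool.Agent.ROT.F3.CK Pool.Agent.ROT.F3.LF Pool.Agent.ROT.F3.Nul Pool.Agent.ROT.F3E

lemma jDR_eq (P : Prm) (i j : Fin 3) : jDR P i j = dR P i j := by
  unfold jDR dR wnA wnd
  rfl

section fr

variable {V : Filter ℕ} {b : ℝ} {PG : Measure CC.Gm} {t0 : ℝ} {P : Prm} {i j : Fin 3}

/-- the limit classes of the cells `k` of side `2 ^ (-n)` -/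
noncomputable def cE (P : Prm) (i j : Fin 3) (Hl : ℕ → ℕ → Ga) (n : ℕ) (k : Fin 4 → ℤ) (g : CC.Gm) : ℝ :=
  bi (g ∈ jKR P i j (Hl (ci n k) (cj n k)))

/-- the marks of the cells -/
noncomputable def cP (Hl : ℕ → ℕ → Ga) (n : ℕ) (k : Fin 4 → ℤ) : CC.Gm → Fin 8 → ℝ :=
  phi8 (Hl (ci n k) (cj n k)).B (Hl (ci n k) (cj n k)).c (Hl (ci n k) (cj n k)).x

/-- the levels of the cells -/
noncomputable def cLv (P : Prm) (i j : Fin 3) (Hl : ℕ → ℕ → Ga) (n : ℕ) (k : Fin 4 → ℤ) : CC.Gm → Fin 4 → ℝ :=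
  lamF (jDR P i j) (cP Hl n k)

lemma cE_ne {Hl : ℕ → ℕ → Ga} {n : ℕ} {k : Fin 4 → ℤ} {g : CC.Gm} :
    cE P i j Hl n k g ≠ 0 ↔ g ∈ jKR P i j (Hl (ci n k) (cj n k)) := by
  unfold cE
  refine ⟨fun h => by_contra fun h1 => h (bi_neg h1), fun h => ?_⟩
  rw [bi_pos h]
  exact one_ne_zero

/-- the limits of the classes of the cells in the form of `nul_gen` -/
lemma fam_of {Hl : ℕ → ℕ → Ga}
    (H : ∀ m n, LvO V (fun N => mwE N b) cN PG (jDR P i j) (acl P i) (acl P j) (fun _ _ => yv (jDR P i j) t0 m n)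
      (fun g => bi (g ∈ jKR P i j (Hl m n))) (phi8 (Hl m n).B (Hl m n).c (Hl m n).x)
      (lamF (jDR P i j) (phi8 (Hl m n).B (Hl m n).c (Hl m n).x))) :
    FamL V b cN PG t0 P i j (cE P i j Hl) (cP Hl) (cLv P i j Hl) := by
  intro n k
  have h := H (ci n k) (cj n k)
  rw [← jDR_eq, yk_yv]
  exact h

/-- **the field `fr`** : `H` = gates of `P` at the functional levels, `Hl`, `Hq m` = gates of `P`, of the member `m` of the family at the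
levels of the cells -/
theorem fr_prm (hz : ‖P.u‖ = 1) (hPz : PG.map (rotX P.u) = PG) {G0 H : Ga} {Hl : ℕ → ℕ → Ga} {QQ : ℕ → Prm} {Hq : ℕ → ℕ → ℕ → Ga}
    {AF : CC.Gm → Fin 4 → ℝ} (hd : ∀ μ : ℝ, 0 < μ → ∃ m, prD P (QQ m) < μ) (hok : ∀ m, (QQ m).Ok)
    (hF : ∀ m s, FreeC PG t0 (Dt.mm (dR (QQ m) i j)) (cE (QQ m) i j (Hq m)) (cLv (QQ m) i j (Hq m)) s
      (fun g => AF (rotX P.u g) s) (fl P s))
    (hA0 : ∀ᵐ g ∂PG, g ∈ jEp P i j G0 H → g ∈ jEq P i j G0 H → ∀ s, 0 < AF g s)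
    (hU : ∀ᵐ g ∂PG, g ∈ jKR P i j H → rotX P.u g ∈ jEp P i j G0 H → rotX P.u g ∈ jEq P i j G0 H → ∃ μ : ℝ, 0 < μ ∧
      ∀ n k, (∀ s, |lft t0 n (k s) - ((jDR P i j).l s + AF (rotX P.u g) s)| < μ) →
        g ∈ jKR P i j (Hl (ci n k) (cj n k)) ∧ ∀ m, prD P (QQ m) < μ → g ∈ jKR (QQ m) i j (Hq m (ci n k) (cj n k)))
    (hL : ∀ m n k, ∀ᵐ g ∂PG, g ∈ jKR (QQ m) i j (Hq m (ci n k) (cj n k)) → ∀ s, lft t0 n (k s) ≤ cLv (QQ m) i j (Hq m) n k g s)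
    (hM : ∀ m n n' k k', ∀ᵐ g ∂PG, g ∈ jKR (QQ m) i j (Hq m (ci n k) (cj n k)) →
      g ∈ jKR (QQ m) i j (Hq m (ci n' k') (cj n' k')) → ∀ s, lft t0 n (k s) ≤ lft t0 n' (k' s) →
        cLv (QQ m) i j (Hq m) n k g s ≤ cLv (QQ m) i j (Hq m) n' k' g s)
    (hM' : ∀ m n k, (∀ s, fl (QQ m) s ≤ lft t0 n (k s)) → (∀ s, fl P s ≤ lft t0 n (k s)) →
      ∀ᵐ g ∂PG, g ∈ jKR (QQ m) i j (Hq m (ci n k) (cj n k)) → g ∈ jKR P i j (Hl (ci n k) (cj n k)) →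
        ∀ s, cLv (QQ m) i j (Hq m) n k g s = cLv P i j Hl n k g s) :
    ∀ᵐ g ∂PG, jwR P i j H g ≠ 0 → g ∈ jEp P i j G0 H → g ∈ jEq P i j G0 H → ∀ᶠ n in atTop, ∀ k : Fin 4 → ℤ,
      (k = fun s => kn t0 n ((jDR P i j).l s + AF g s)) → rotX P.u⁻¹ g ∈ jKR P i j (Hl (ci n k) (cj n k)) ∧
        ∀ s, lft t0 n (k s + 1) <
          lamF (jDR P i j) (phi8 (Hl (ci n k) (cj n k)).B (Hl (ci n k) (cj n k)).c (Hl (ci n k) (cj n k)).x) (rotX P.u⁻¹ g) s := by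
  have hz0 : P.u ≠ 0 := fun h0 => by
    rw [h0, norm_zero] at hz
    exact zero_ne_one hz
  have rr : ∀ g : CC.Gm, rotX P.u (rotX P.u⁻¹ g) = g := fun g => by
    unfold rotX
    simp only [smul_smul, mul_inv_cancel₀ hz0, one_smul]
  -- the event in the frame of the words
  obtain ⟨EF, hEF⟩ : ∃ EF : CC.Gm → ℝ, EF = fun g => bi (g ∈ jKR P i j H ∧ rotX P.u g ∈ jEp P i j G0 H ∧
      rotX P.u g ∈ jEq P i j G0 H) := ⟨_, rfl⟩
  have e : ∀ g, EF g ≠ 0 ↔ (g ∈ jKR P i j H ∧ rotX P.u g ∈ jEp P i j G0 H ∧ rotX P.u g ∈ jEq P i j G0 H) := by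
    intro g
    rw [hEF]
    refine ⟨fun h => by_contra fun h1 => h (bi_neg h1), fun h => ?_⟩
    show bi (g ∈ jKR P i j H ∧ rotX P.u g ∈ jEp P i j G0 H ∧ rotX P.u g ∈ jEq P i j G0 H) ≠ 0
    rw [bi_pos h]
    exact one_ne_zero
  have hA0' : ∀ᵐ g ∂PG, rotX P.u g ∈ jEp P i j G0 H → rotX P.u g ∈ jEq P i j G0 H → ∀ s, 0 < AF (rotX P.u g) s := by
    have := hA0
    rw [← hPz] at this
    exact ae_of_ae_map (rotX_cont _).measurable.aemeasurable this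
  have h1 := nul_hf (P := P) (i := i) (j := j) (QQ := QQ) (ν := PG) (t0 := t0) hd hok (E := cE P i j Hl) (Λ := cLv P i j Hl)
    (Eq := fun m => cE (QQ m) i j (Hq m)) (Λq := fun m => cLv (QQ m) i j (Hq m)) (Af := fun g s => AF (rotX P.u g) s)
    (AF := fun g s => AF (rotX P.u g) s) (EF := EF) hF (Eventually.of_forall fun g _ s => rfl) (by
      filter_upwards [hA0'] with g g1 g2
      obtain ⟨-, h2, h3⟩ := (e g).1 g2
      exact g1 h2 h3) (by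
      filter_upwards [hU] with g g1 g2
      obtain ⟨h0, h2, h3⟩ := (e g).1 g2
      obtain ⟨μ, m0, m1⟩ := g1 h0 h2 h3
      refine ⟨μ, m0, fun n k hk => ?_⟩
      rw [← jDR_eq] at hk
      obtain ⟨c1, c2⟩ := m1 n k hk
      exact ⟨cE_ne.2 c1, fun m hm => cE_ne.2 (c2 m hm)⟩)
    (fun m n k => (hL m n k).mono fun g g1 g2 => g1 (cE_ne.1 g2))
    (fun m n n' k k' => (hM m n n' k k').mono fun g g1 g2 g3 => g1 (cE_ne.1 g2) (cE_ne.1 g3))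
    fun m n k c1 c2 => (hM' m n k c1 c2).mono fun g g1 g2 g3 => g1 (cE_ne.1 g2) (cE_ne.1 g3)
  filter_upwards [CK.ae_rot hz hPz h1] with g g1 hw hp hq
  have h2 : rotX P.u⁻¹ g ∈ jKR P i j H := by
    by_contra hc
    refine hw ?_
    show ENNReal.ofReal (bi (rotX P.u⁻¹ g ∈ jKR P i j H)) = 0
    rw [bi_neg hc, ENNReal.ofReal_zero]
  have h3 := g1 ((e _).2 ⟨h2, by rw [rr]; exact hp, by rw [rr]; exact hq⟩)
  filter_upwards [h3] with n hn k hk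
  obtain ⟨c1, c2⟩ := hn k (by
    rw [hk, rr, ← jDR_eq])
  exact ⟨cE_ne.1 c1, c2⟩

/-- **the field `ne`** -/
theorem ne_prm (hz : ‖P.u‖ = 1) (hPz : PG.map (rotX P.u) = PG) {AF : CC.Gm → Fin 4 → ℝ}
    (h : ∀ s, ∀ᵐ g ∂PG, ∀ (n : ℕ) (k : ℤ), AF (rotX P.u g) s + fl P s ≠ lft t0 n k) :
    ∀ᵐ g ∂PG, ∀ (s : Fin 4) (n : ℕ) (k : ℤ), (jDR P i j).l s + AF g s ≠ lft t0 n k := by
  have hz0 : P.u ≠ 0 := fun h0 => by
    rw [h0, norm_zero] at hz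
    exact zero_ne_one hz
  have rr : ∀ g : CC.Gm, rotX P.u (rotX P.u⁻¹ g) = g := fun g => by
    unfold rotX
    simp only [smul_smul, mul_inv_cancel₀ hz0, one_smul]
  filter_upwards [CK.ae_rot hz hPz (ae_all_iff.2 h)] with g hg s n k
  have h1 := hg s n k
  rw [rr] at h1
  rw [jDR_eq, dR_l, add_comm]
  exact h1

end fr

end Pool.Agent.ROT.F3.NW
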