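import Pool.Agent.ROT.F3NugB
import Pool.Agent.ROT.F3K3Z
import Pool.Agent.ROT.F3NulF

/-!
# ROT, block F3, row NUL (U) (helper68): the hypothesis `hU` of `fr_prm`

* `nrm P P'` : a function of the distance `prD P P'`; `tpn_prm`, `dnr_prm`, `snr_prm` : the classes of near data are near;
* **`hU_prm`** : the cells near the functional levels, of `P` and of the near members of the family, occur.
-/

set_option autoImplicit false
set_option linter.unusedSectionVars false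

open Set Filter Topology MeasureTheory unitInterval

open scoped NNReal ENNReal

namespace Pool.Agent.ROT.F3.NW

open Pool.Agent.ROT.F3 Pool.Agent.ROT.F3.CC Pool.Agent.ROT.F3.CK Pool.Agent.ROT.F3.LF Pool.Agent.ROT.F3.Nul Pool.Agent.ROT.F3E

/-! ### 1. Near data -/

section nr

variable {E E' : Tp} {t M : ℝ}

/-- near coordinates of a gate -/
structure TfN (t : ℝ) (E E' : Tp) : Prop where
  c : ∀ f : Gn.Tf, |f.get E' - f.get E| ≤ t
  e0 : E'.c = E.c
  e1 : E'.cs = E.cs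
  e2 : E'.r0 = E.r0

lemma TfN.tpn (h : TfN t E E') (t0 : 0 ≤ t) (hE : E.Ok) (hE' : E'.Ok) (hM : E.m ≤ M) : TpN (t * (M + 4 + t)) E E' := by
  have M0 := hE.m
  have le : t ≤ t * (M + 4 + t) := by nlinarith
  have m := h.c .m
  have th := h.c .th
  have rg := h.c .rg
  have r := h.c .r
  have r2 := h.c .r2
  simp only [Gn.Tf.get] at m th rg r r2
  refine ⟨m.trans le, rg.trans le, ?_, by linarith [(abs_le.1 r).1], by linarith [(abs_le.1 r2).1]⟩
  have e : E'.th * E'.m - E.th * E.m = (E'.th - E.th) * E'.m + E.th * (E'.m - E.m) := by ring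
  have m' : E'.m ≤ M + t := by linarith [(abs_le.1 m).2]
  rw [e]
  calc |(E'.th - E.th) * E'.m + E.th * (E'.m - E.m)| ≤ |E'.th - E.th| * E'.m + E.th * |E'.m - E.m| := by
        refine (abs_add_le _ _).trans (le_of_eq ?_)
        rw [abs_mul, abs_mul, abs_of_pos hE'.m, abs_of_pos hE.th]
    _ ≤ t * (M + t) + 1 * t := add_le_add (mul_le_mul th m' hE'.m.le t0) (mul_le_mul hE.th1.le m (abs_nonneg _) zero_le_one)
    _ ≤ t * (M + 4 + t) := by nlinarith

lemma TfN.tnr (h : TfN t E E') (t0 : 0 ≤ t) (M0 : 0 ≤ M) : TNr (t * (M + 4 + t)) E E' := by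
  have le : 2 * t ≤ t * (M + 4 + t) := by nlinarith
  have key : ∀ {a b : ℝ}, |b - a| ≤ t → |a - b| ≤ t * (M + 4 + t) := fun {a b} hab => by
    rw [abs_sub_comm]
    exact hab.trans (by linarith)
  have w := h.c .w
  have κs := h.c .κs
  simp only [Gn.Tf.get] at w κs
  refine ⟨h.e0, h.e1, h.e2, key (h.c .r), key (h.c .r2), key (h.c .e), key (h.c .κ1), key (h.c .κ), key (h.c .w), ?_, key (h.c .la),
    key (h.c .lb)⟩
  have e : E.κs - E'.κs = -((E'.κs - E'.w - (E.κs - E.w)) + (E'.w - E.w)) := by ring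
  rw [e, abs_neg]
  exact (abs_add_le _ _).trans (by linarith)

end nr

/-- the distance of the classes -/
noncomputable def nrm (P P' : Prm) : ℝ := prD P P' * (max P.p.f.m P.q.f.m + 4 + prD P P')

section prm

variable {P P' : Prm}

lemma prD_nn (h' : P'.Ok) : 0 ≤ prD P P' := h'.t0.le.trans prD_t0

lemma nrm_lo (h : P.Ok) (h' : P'.Ok) : 2 * prD P P' ≤ nrm P P' := by
  have h1 := prD_nn (P := P) h'
  have h2 := h.p.f.m
  have h3 : P.p.f.m ≤ max P.p.f.m P.q.f.m := le_max_left _ _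
  unfold nrm
  nlinarith

lemma rk_f {f : Gn.Fd} (h : Gn.ord.idxOf f < Gn.ord.idxOf (.p (.f .l))) : f.rk < Gn.Fd.rk (.p (.f .l)) := Gn.rk_lt h

lemma tfn_p (ha : Gn.Agr (.p (.f .l)) P P') : TfN (prD P P') P.p.f P'.p.f :=
  ⟨fun f => prD_le (f := .p (.f f)) (by rintro ⟨⟩), ha.g (.p (.f .c)) (rk_f (by decide +kernel)),
    ha.g (.p (.f .cs)) (rk_f (by decide +kernel)), ha.g (.p (.f .r0)) (rk_f (by decide +kernel))⟩

lemma tfn_q (ha : Gn.Agr (.p (.f .l)) P P') : TfN (prD P P') P.q.f P'.q.f :=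
  ⟨fun f => prD_le (f := .q (.f f)) (by rintro ⟨⟩), ha.g (.q (.f .c)) (rk_f (by decide +kernel)),
    ha.g (.q (.f .cs)) (rk_f (by decide +kernel)), ha.g (.q (.f .r0)) (rk_f (by decide +kernel))⟩

/-- near gates -/
lemma tpn_prm (h : P.Ok) (h' : P'.Ok) (ha : Gn.Agr (.p (.f .l)) P P') (i j : Fin 3) (k : Arm) :
    TpN (nrm P P') ((jDR P i j).gtp k) ((jDR P' i j).gtp k) := by
  have p := (tfn_p ha).tpn (M := max P.p.f.m P.q.f.m) (prD_nn h') h.p.f h'.p.f (le_max_left _ _)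
  have q := (tfn_q ha).tpn (M := max P.p.f.m P.q.f.m) (prD_nn h') h.q.f h'.q.f (le_max_right _ _)
  cases k
  exacts [p, q, q, p]

/-- near windows -/
lemma wnr_prm (h : P.Ok) (h' : P'.Ok) (a : Fin 3) : WNr (nrm P P') (wnA P a) (wnA P' a) := by
  have n0 := nrm_lo h h'
  have n1 := prD_nn (P := P) h'
  have key : ∀ {f : Gn.Fd}, f ≠ .t0 → |f.get P - f.get P'| ≤ nrm P P' := fun {f} hf => by
    rw [abs_sub_comm]
    exact (prD_le hf).trans (by linarith)
  unfold wnA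
  split_ifs
  · refine ⟨key (f := .D0) (by decide), key (f := .D1) (by decide), ?_, ?_, key (f := .t1) (by decide)⟩
    · have := prD_t0 (P := P) (P' := P')
      linarith [h.t0]
    · exact ⟨fun h1 => absurd h.t0 (not_lt.2 h1), fun h1 => absurd h'.t0 (not_lt.2 h1)⟩
  · refine ⟨key (f := .cD0) (by decide), key (f := .cD1) (by decide), ?_, ?_, key (f := .ct1) (by decide)⟩
    · rw [h.t0c, h'.t0c]
      linarith
    · rw [h.t0c, h'.t0c]

/-- **near classes** -/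
lemma dnr_prm (h : P.Ok) (h' : P'.Ok) (ha : Gn.Agr (.p (.f .l)) P P') (i j : Fin 3) : DNr (nrm P P') (jDR P i j) (jDR P' i j) := by
  have M0 : 0 ≤ max P.p.f.m P.q.f.m := h.p.f.m.le.trans (le_max_left _ _)
  exact ⟨(tfn_p ha).tnr (prD_nn h') M0, (tfn_q ha).tnr (prD_nn h') M0, wnr_prm h h' i, wnr_prm h h' j, rfl, rfl, rfl, rfl⟩

lemma snr_of {s s' : Sr} {t δ : ℝ} (h0 : |s'.e - s.e| ≤ t) (h1 : |(s'.hw - s'.e) - (s.hw - s.e)| ≤ t)
    (h2 : |(s'.len - s'.e) - (s.len - s.e)| ≤ t) (h3 : |(s'.bn + s'.e) - (s.bn + s.e)| ≤ t) (hδ : 2 * t ≤ δ) : SNr δ s s' := by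
  have t0 : 0 ≤ t := (abs_nonneg _).trans h0
  rw [abs_le] at h0 h1 h2 h3
  refine ⟨abs_le.2 ?_, abs_le.2 ?_, abs_le.2 ?_, abs_le.2 ?_⟩ <;> constructor <;> linarith [h0.1, h0.2, h1.1, h1.2, h2.1, h2.2, h3.1, h3.2]

lemma snr_p (h : P.Ok) (h' : P'.Ok) : SNr (nrm P P') P.p.s P'.p.s :=
  snr_of (prD_le (f := .p .se) (by decide)) (prD_le (f := .p .shw) (by decide)) (prD_le (f := .p .slen) (by decide))
    (prD_le (f := .p .sbn) (by decide)) (nrm_lo h h')

lemma snr_q (h : P.Ok) (h' : P'.Ok) : SNr (nrm P P') P.q.s P'.q.s :=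
  snr_of (prD_le (f := .q .se) (by decide)) (prD_le (f := .q .shw) (by decide)) (prD_le (f := .q .slen) (by decide))
    (prD_le (f := .q .sbn) (by decide)) (nrm_lo h h')

/-- `nrm` is small -/
lemma nrm_small (h : P.Ok) {μ : ℝ} (hμ : 0 < μ) : ∃ t : ℝ, 0 < t ∧ ∀ P' : Prm, P'.Ok → prD P P' < t → nrm P P' < μ := by
  obtain ⟨M, hM⟩ : ∃ M, M = max P.p.f.m P.q.f.m := ⟨_, rfl⟩
  have M0 : 0 < M := by rw [hM]; exact h.p.f.m.trans_le (le_max_left _ _)
  refine ⟨min 1 (μ / (M + 6)), lt_min one_pos (by positivity), fun P' h' h1 => ?_⟩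
  have h2 := prD_nn (P := P) h'
  have h3 : prD P P' < 1 := h1.trans_le (min_le_left _ _)
  have h4 : prD P P' < μ / (M + 6) := h1.trans_le (min_le_right _ _)
  rw [lt_div_iff₀ (by positivity)] at h4
  unfold nrm
  rw [← hM]
  nlinarith

end prm

lemma gtp_l (D : Dt) (k : Arm) : (D.gtp k).l = D.l (aix k) := by cases k <;> rfl

lemma at_self {G : GP} {P : Tp} (h : G.Ok P) : G.at P = G := by
  obtain ⟨l, r1, ρ1, m, r1', ρ', h', r1'', ρ''⟩ := G
  have h1 := h.l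
  have h2 := h.m
  have h3 := h.h
  have h4 := h.ρ'
  simp only at h1 h2 h3 h4
  unfold GP.at
  simp only [← h1, ← h2, ← h4, GP.mk.injEq, true_and, and_true]
  rw [h3, h2]

lemma ok_jDR {P : Prm} {i j : Fin 3} (hP : P.Ok) (hij : i ≠ j) : (jDR P i j).Ok := by
  have w : ∀ a, wnA P a = P.W ∨ wnA P a = P.Wc := fun a => by
    unfold wnA
    split_ifs
    · exact Or.inl rfl
    · exact Or.inr rfl
  exact DR_ok hP hij (w i) (w j) le_rfl le_rfl le_rfl le_rfl

/-! ### 2. The hypothesis `hU` -/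

section hU

variable {U : Ultrafilter ℕ} {bb : ℝ} {PG : Measure CC.Gm} {S : ℕ → ℝ} {P : Prm} {i j : Fin 3} {t0 c0 : ℝ} {R R2 R3 : Arm → ℝ}
  {KR : Arm → GP} {G0 H : Ga} {Hl : ℕ → ℕ → Ga} {y : ℕ → W3 × ℕ → Fin 4 → ℝ} {AF : CC.Gm → Fin 4 → ℝ} {QQ : ℕ → Prm}
  {Kq : ℕ → Arm → GP} {Hq : ℕ → ℕ → ℕ → Ga}

/-- **the cells near the functional levels occur** -/
theorem hU_prm (hC : Cv (U : Filter ℕ) (fun N => mwE N bb) cN PG) (hP0 : ∀ᵐ y ∂PG, 0 < y.1) (hU : (U : Filter ℕ) ≤ atTop)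
    (hS : ∀ᶠ N : ℕ in U, S N = N) (hc0 : 0 ≤ c0) (hPz : PG.map (rotX P.u) = PG)
    (hP : P.Ok) (hij : i ≠ j) (hq : ∀ m, (QQ m).Ok) (ha : ∀ m, Gn.Agr (.p (.f .l)) P (QQ m))
    (HN : NgI U bb PG S c0 R R2 R3 (jDR P i j) KR (trnA i j) (fun k N x => y N x (aix k)) (fun k g => AF (rotX P.u g) (aix k))
      H.B H.c H.x)
    (gl : ∀ m n, GaL (U : Filter ℕ) bb PG (jDR P i j) c0 KR (trnA i j) (fun _ _ => yv (jDR P i j) t0 m n) (Hl m n))
    (gq : ∀ q m n, GaL (U : Filter ℕ) bb PG (jDR (QQ q) i j) c0 (Kq q) (trnA i j) (fun _ _ => yv (jDR (QQ q) i j) t0 m n) (Hq q m n))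
    (hI : ∃ μ0 : ℝ, 0 < μ0 ∧ ∀ q, prD P (QQ q) ≤ μ0 → ∀ k,
      ((KR k).at ((jDR (QQ q) i j).gtp k)).Ok ((jDR (QQ q) i j).gtp k))
    (nR : ClN PG (jDR P i j) H) (mR : i = 0 → MnN PG (jDR P i j) P.p.s P.q.s H)
    (hA0 : ∀ᵐ g ∂PG, g ∈ jEp P i j G0 H → g ∈ jEq P i j G0 H → ∀ s, 0 < AF g s) :
    ∀ᵐ g ∂PG, g ∈ jKR P i j H → rotX P.u g ∈ jEp P i j G0 H → rotX P.u g ∈ jEq P i j G0 H → ∃ μ : ℝ, 0 < μ ∧
      ∀ n k, (∀ s, |lft t0 n (k s) - ((jDR P i j).l s + AF (rotX P.u g) s)| < μ) →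
        g ∈ jKR P i j (Hl (ci n k) (cj n k)) ∧ ∀ m, prD P (QQ m) < μ → g ∈ jKR (QQ m) i j (Hq m (ci n k) (cj n k)) := by
  have hA0' : ∀ᵐ g ∂PG, rotX P.u g ∈ jEp P i j G0 H → rotX P.u g ∈ jEq P i j G0 H → ∀ s, 0 < AF (rotX P.u g) s := by
    have := hA0
    rw [← hPz] at this
    exact ae_of_ae_map (rotX_cont _).measurable.aemeasurable this
  -- the near classes
  obtain ⟨QO, hQO⟩ : ∃ QO : Option ℕ → Prm, QO = fun o => o.elim P QQ := ⟨_, rfl⟩
  obtain ⟨KO, hKO⟩ : ∃ KO : Option ℕ → Arm → GP, KO = fun o => o.elim KR Kq := ⟨_, rfl⟩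
  obtain ⟨HO, hHO⟩ : ∃ HO : Option ℕ → ℕ → ℕ → Ga, HO = fun o => o.elim Hl Hq := ⟨_, rfl⟩
  obtain ⟨pO, hpO⟩ : ∃ pO : Option ℕ → ℝ, pO = fun o => o.elim 0 fun m => nrm P (QQ m) := ⟨_, rfl⟩
  have okO : ∀ o, (QO o).Ok := fun o => by
    rw [hQO]
    cases o
    exacts [hP, hq _]
  have gO : ∀ o m n, GaL (U : Filter ℕ) bb PG (jDR (QO o) i j) c0 (KO o) (trnA i j) (fun _ _ => yv (jDR (QO o) i j) t0 m n)
      (HO o m n) := fun o m n => by
    rw [hQO, hKO, hHO]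
    cases o
    exacts [gl m n, gq _ m n]
  have : Countable (Fin 4 → ℤ) := inferInstance
  have HJ : NgJ U bb PG c0 (jDR P i j) KR (trnA i j) (J := Option ℕ × ℕ × (Fin 4 → ℤ)) (fun J => pO J.1) (fun J => jDR (QO J.1) i j)
      (fun J => KO J.1) (fun J k => yk (jDR (QO J.1) i j) t0 J.2.1 J.2.2 (aix k))
      (fun J => (HO J.1 (ci J.2.1 J.2.2) (cj J.2.1 J.2.2)).B) (fun J => (HO J.1 (ci J.2.1 J.2.2) (cj J.2.1 J.2.2)).c)
      (fun J => (HO J.1 (ci J.2.1 J.2.2) (cj J.2.1 J.2.2)).x) := by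
    refine ⟨fun J => ok_jDR (okO _) hij, fun J => (gO J.1 0 0).ok, fun J k => yk_nonneg _ _ _ _ _, fun J => ?_, fun J k => ?_,
      fun J => ?_, ?_⟩
    · have := (gO J.1 (ci J.2.1 J.2.2) (cj J.2.1 J.2.2)).arms
      rw [← yk_yv] at this
      exact this
    · obtain ⟨o, n, kk⟩ := J
      rw [hQO, hpO]
      rcases o with _ | m
      · exact ⟨by simp, by simp, by simp, by simp, by simp⟩
      · exact tpn_prm hP (hq m) (ha m) i j k
    · obtain ⟨o, n, kk⟩ := J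
      rw [hQO, hpO]
      rcases o with _ | m
      · have s0 : ∀ E : Tp, TNr 0 E E := fun E => ⟨rfl, rfl, rfl, by simp, by simp, by simp, by simp, by simp, by simp, by simp, by simp, by simp⟩
        have s1 : ∀ W : Wn, WNr 0 W W := fun W => ⟨by simp, by simp, by simp, Iff.rfl, by simp⟩
        exact ⟨s0 _, s0 _, s1 _, s1 _, rfl, rfl, rfl, rfl⟩
      · exact dnr_prm hP (hq m) (ha m) i j
    · obtain ⟨μ0, m0, m1⟩ := hI
      refine ⟨μ0, m0, fun J hJ k => ?_⟩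
      obtain ⟨o, n, kk⟩ := J
      rw [hpO] at hJ
      rw [hQO]
      rcases o with _ | m
      · show ((KR k).at ((jDR P i j).gtp k)).Ok ((jDR P i j).gtp k)
        rw [at_self (HN.g.g k)]
        exact HN.g.g k
      · refine m1 m ?_ k
        have h1 := nrm_lo hP (hq m)
        have h2 := prD_nn (P := P) (hq m)
        have h3 : nrm P (QQ m) ≤ μ0 := hJ
        linarith
  have key := near_cls hC hP0 hU hS hc0 HN HJ nR
  have hnr : i = 0 → ∀ᵐ g ∂PG, g ∈ (⋂ k, H.B k) →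
      max (nrF (jDR P i j).d P.p.s g.2.2 (pji (phi8 H.B H.c H.x g 1)) (pji (phi8 H.B H.c H.x g 2)))
        (nrF (jDR P i j).t P.q.s g.2.2 (pji (phi8 H.B H.c H.x g 2)) (pji (phi8 H.B H.c H.x g 1))) ≠ 0 := fun hi => by
    rw [ae_iff]
    refine measure_mono_null (fun g hg => ?_) (mR hi)
    simp only [mem_ofPred_eq, Classical.not_imp, not_not] at hg
    exact hg
  have hnr' : ∀ᵐ g ∂PG, i = 0 → g ∈ (⋂ k, H.B k) →
      max (nrF (jDR P i j).d P.p.s g.2.2 (pji (phi8 H.B H.c H.x g 1)) (pji (phi8 H.B H.c H.x g 2)))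
        (nrF (jDR P i j).t P.q.s g.2.2 (pji (phi8 H.B H.c H.x g 2)) (pji (phi8 H.B H.c H.x g 1))) ≠ 0 := by
    by_cases hi : i = 0
    · exact (hnr hi).mono fun g h _ => h
    · exact Eventually.of_forall fun g h => absurd h hi
  filter_upwards [key, hnr', hA0'] with g g1 g2 g3 hK hEp hEq
  have hAs := g3 hEp hEq
  -- the level of a cell
  obtain ⟨μ2, k0, k1⟩ : ∃ μ2 : ℝ, 0 < μ2 ∧ ∀ s, 2 * μ2 ≤ AF (rotX P.u g) s := by
    obtain ⟨s0, hs0⟩ := Finite.exists_min fun s => AF (rotX P.u g) s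
    exact ⟨AF (rotX P.u g) s0 / 2, by linarith [hAs s0], fun s => by linarith [hs0 s]⟩
  have hlev : ∀ (o : Option ℕ) (n : ℕ) (kk : Fin 4 → ℤ) (μ : ℝ), μ ≤ μ2 → (∀ s, (jDR (QO o) i j).l s < (jDR P i j).l s + μ2) →
      (∀ s, |lft t0 n (kk s) - ((jDR P i j).l s + AF (rotX P.u g) s)| < μ) → ∀ k : Arm,
      |(((jDR (QO o) i j).gtp k).l + yk (jDR (QO o) i j) t0 n kk (aix k)) - (((jDR P i j).gtp k).l + AF (rotX P.u g) (aix k))| < μ := by
    intro o n kk μ hμ hl h k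
    rw [gtp_l, gtp_l]
    have h1 := h (aix k)
    have h2 := k1 (aix k)
    have h3 := (abs_lt.1 h1).1
    have h4 := hl (aix k)
    have e : (jDR (QO o) i j).l (aix k) + yk (jDR (QO o) i j) t0 n kk (aix k) = lft t0 n (kk (aix k)) := by
      unfold yk
      rw [max_eq_right (by linarith)]
      ring
    rw [e]
    exact h1
  -- the statement for one class
  have main : ∃ μ : ℝ, 0 < μ ∧ ∀ (o : Option ℕ) (n : ℕ) (kk : Fin 4 → ℤ), pO o < μ → (∀ s, (jDR (QO o) i j).l s < (jDR P i j).l s + μ2) →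
      (∀ s, |lft t0 n (kk s) - ((jDR P i j).l s + AF (rotX P.u g) s)| < μ) → g ∈ jKR (QO o) i j (HO o (ci n kk) (cj n kk)) := by
    by_cases hi : i = 0
    · have hK' : g ∈ k3S (jDR P i j) (⋂ k, H.B k) (phi8 H.B H.c H.x) ∧
          max (nrF (jDR P i j).d P.p.s g.2.2 (pji (phi8 H.B H.c H.x g 1)) (pji (phi8 H.B H.c H.x g 2)))
            (nrF (jDR P i j).t P.q.s g.2.2 (pji (phi8 H.B H.c H.x g 2)) (pji (phi8 H.B H.c H.x g 1))) ≤ 0 := by
        unfold jKR at hK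
        rw [if_pos hi] at hK
        exact hK
      obtain ⟨⟨μa, a0, a1⟩, b1⟩ := g1 hK'.1
      obtain ⟨μb, b0, b2⟩ := b1 P.p.s P.q.s (fun J => (QO J.1).p.s) (fun J => (QO J.1).q.s) (fun J => by
          obtain ⟨o, n, kk⟩ := J
          rw [hQO, hpO]
          rcases o with _ | m
          · exact ⟨by simp, by simp, by simp, by simp⟩
          · exact snr_p hP (hq m)) (fun J => by
          obtain ⟨o, n, kk⟩ := J
          rw [hQO, hpO]
          rcases o with _ | m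
          · exact ⟨by simp, by simp, by simp, by simp⟩
          · exact snr_q hP (hq m)) hK'.2 (g2 hi hK'.1.1)
      refine ⟨min μ2 (min μa μb), lt_min k0 (lt_min a0 b0), fun o n kk h1 h2 h3 => ?_⟩
      have h4 := hlev o n kk _ (min_le_left _ _) h2 h3
      have c1 := a1 (o, n, kk) (fun k => (h4 k).trans_le ((min_le_right _ _).trans (min_le_left _ _)))
        (h1.trans_le ((min_le_right _ _).trans (min_le_left _ _)))
      have c2 := b2 (o, n, kk) (fun k => (h4 k).trans_le ((min_le_right _ _).trans (min_le_right _ _)))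
        (h1.trans_le ((min_le_right _ _).trans (min_le_right _ _)))
      unfold jKR
      rw [if_pos hi]
      exact ⟨c1, c2⟩
    · have hK' : g ∈ k3S (jDR P i j) (⋂ k, H.B k) (phi8 H.B H.c H.x) := by
        unfold jKR at hK
        rw [if_neg hi] at hK
        exact hK
      obtain ⟨⟨μa, a0, a1⟩, -⟩ := g1 hK'
      refine ⟨min μ2 μa, lt_min k0 a0, fun o n kk h1 h2 h3 => ?_⟩
      have h4 := hlev o n kk _ (min_le_left _ _) h2 h3
      have c1 := a1 (o, n, kk) (fun k => (h4 k).trans_le (min_le_right _ _)) (h1.trans_le (min_le_right _ _))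
      unfold jKR
      rw [if_neg hi]
      exact c1
  obtain ⟨μ, m0, m1⟩ := main
  obtain ⟨t, t0', t1⟩ := nrm_small hP m0
  refine ⟨min (min μ t) μ2, lt_min (lt_min m0 t0') k0, fun n kk hk => ⟨?_, fun m hm => ?_⟩⟩
  · have := m1 none n kk (by rw [hpO]; exact m0) (fun s => by rw [hQO]; show (jDR P i j).l s < _; linarith)
      fun s => (hk s).trans_le ((min_le_left _ _).trans (min_le_left _ _))
    rw [hQO, hHO] at this
    exact this
  · have h5 : prD P (QQ m) < t := hm.trans_le ((min_le_left _ _).trans (min_le_right _ _))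
    have h6 : prD P (QQ m) < μ2 := hm.trans_le (min_le_right _ _)
    have := m1 (some m) n kk (by rw [hpO]; exact t1 (QQ m) (hq m) h5) (fun s => by
        rw [hQO]
        show (jDR (QQ m) i j).l s < _
        rw [jDR_eq, jDR_eq, dR_l, dR_l]
        linarith [fl_near P (QQ m) s]) fun s => (hk s).trans_le ((min_le_left _ _).trans (min_le_left _ _))
    rw [hQO, hHO] at this
    exact this

end hU

end Pool.Agent.ROT.F3.NW
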