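import Pool.Agent.ROT.F3NulF
import Pool.Agent.ROT.F3LevQ

/-!
# ROT, F3, row NUL (helper15): the levels of the classes in the limit, over two data

* `glv_ge`, **`lvo_ge`** : the level of the gate `c` is at least its threshold;
* **`lvo_mono`**, **`lvo_same`** : the level of the gate `c` is monotone in the threshold of its strand (words: helper29, F3LevQ);
* **`hL_fam`**, **`hM_fam`**, **`hM'_fam`** : the hypotheses `hL`, `hM`, `hM'` of `nul_hf`, `fr_prm`; `nr_dR` : near the base data;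
* **`fr_gen`** : the field `fr` at generic data, from `hU` (the near classes occur) only.
-/

set_option autoImplicit false
set_option linter.unusedSectionVars false

open MeasureTheory Set Filter Topology
open scoped ENNReal NNReal Classical

namespace Pool.Agent.ROT.F3.NW

open Pool.Agent.ROT.F3 Pool.Agent.ROT.F3.CC Pool.Agent.ROT.F3.CK Pool.Agent.ROT.F3.LF Pool.Agent.ROT.F3.Nul Pool.Agent.ROT.F3E

/-- the level of the gate `c` is at least the threshold -/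
lemma glv_ge {D : Dt} {N : ℕ} {x : W3 × ℕ} {RA RB : Set W3} {u : Fin 4 → ℝ} (hD : D.Ok) (hN : 0 < N) (hA : RA ⊆ D.A N (uT N))
    (hB : RB ⊆ D.B N (uT N)) (hu : ∀ r, 0 ≤ u r) (hx : x ∈ Lv D RA RB N (uT N) u) (s : Fin 4) :
    (D.l s + u s) * N ≤ glv (D.th u) N (uT N) x s := by
  have hS : (0 : ℝ) < N := by exact_mod_cast hN
  obtain ⟨a, R, c, U, k1, k2, j1, j2, g, -, -⟩ := lv_dec hA hB hx
  rw [glv_dec (hD.th hu) hS g]
  have low : ∀ {d : ℂ} {P : Tp} {y T : ℝ} {p : W3} {k : ℕ}, PreM d (P.up y) N T p k → (P.l + y) * N ≤ lv d (ps p k) := by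
    intro d P y T p k h
    have := h.g.fa.1
    rwa [en_take _ h.g.le] at this
  fin_cases s
  · exact low g.ga.p1
  · exact low g.ga.p2
  · exact low g.gc.p1
  · exact low g.gc.p2

section lim

variable {U : Filter ℕ} [U.NeBot] {μ : ℕ → Measure (W3 × ℕ)} {X : Type*} [PseudoMetricSpace X] [MeasurableSpace X] [BorelSpace X]
  [CompleteSpace X] [SecondCountableTopology X] {cc : ℕ → W3 × ℕ → X} {ν : Measure X} {D D' : Dt} {RA RB RA' RB' : ℕ → Set W3}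
  {u u' : Fin 4 → ℝ} {E E' : X → ℝ} {Φ Φ' : X → Fin 8 → ℝ} {Λ Λ' : X → Fin 4 → ℝ}

/-- **the levels are at least the thresholds** -/
theorem lvo_ge (hC : Cv U μ cc ν) (hU : ∀ᶠ N : ℕ in U, 0 < N) (hD : D.Ok) (hA : ∀ᶠ N in U, RA N ⊆ D.A N (uT N))
    (hB : ∀ᶠ N in U, RB N ⊆ D.B N (uT N)) (hu : ∀ r, 0 ≤ u r) (H : LvO U μ cc ν D RA RB (fun _ _ => u) E Φ Λ) :
    ∀ᵐ g ∂ν, E g ≠ 0 → ∀ s, D.l s + u s ≤ Λ g s := by
  obtain ⟨t, t1, t2⟩ := H.Λ
  have key : ∀ s, ∀ᵐ g ∂ν, E g ≠ 0 → D.l s + u s ≤ Λ g s := by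
    intro s
    have h1 := mk_open (κ := Fin 4) (p := t) (Φ := Λ) hC H.e (fun N x => iL_nonneg _ N x) H.e0 t1 (ψ := fun _ => 1)
      (F := fun z => max 0 (D.l s + u s - z s)) (by fun_prop) (by fun_prop) (by
        filter_upwards [t2, hU, hA, hB] with N g1 g2 g3 g4
        filter_upwards [g1] with x a1 hne _
        have hx := iL_ne hne
        have hN : (0 : ℝ) < N := by exact_mod_cast g2
        have h2 := glv_ge hD g2 g3 g4 hu hx s
        rw [← a1 hx s] at h2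
        have h3 := le_of_mul_le_mul_right h2 hN
        exact max_eq_left (by linarith))
    filter_upwards [h1] with g hg hne
    have h2 := hg hne one_ne_zero
    have h3 := le_max_right 0 (D.l s + u s - Λ g s)
    linarith
  exact (ae_all_iff.2 key).mono fun g hg hne s => hg s hne

/-- **the levels are monotone in the threshold of the strand** -/
theorem lvo_mono (hC : Cv U μ cc ν) (hU : ∀ᶠ N : ℕ in U, 0 < N) (hD : D.Ok) (hD' : D'.Ok) (hN : D.Nr D')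
    (hA : ∀ᶠ N in U, RA N ⊆ D.A N (uT N)) (hB : ∀ᶠ N in U, RB N ⊆ D.B N (uT N)) (hA' : ∀ᶠ N in U, RA' N ⊆ D'.A N (uT N))
    (hB' : ∀ᶠ N in U, RB' N ⊆ D'.B N (uT N)) (hu : ∀ r, 0 ≤ u r) (hu' : ∀ r, 0 ≤ u' r)
    (H : LvO U μ cc ν D RA RB (fun _ _ => u) E Φ Λ) (H' : LvO U μ cc ν D' RA' RB' (fun _ _ => u') E' Φ' Λ') (s : Fin 4)
    (ht : D.l s + u s ≤ D'.l s + u' s) : ∀ᵐ g ∂ν, E g ≠ 0 → E' g ≠ 0 → Λ g s ≤ Λ' g s := by
  obtain ⟨t, t1, t2⟩ := H.Λ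
  obtain ⟨t', t1', t2'⟩ := H'.Λ
  have h1 := mk_open (κ := Fin 4 ⊕ Fin 4) (p := fun N x => Sum.elim (t N x) (t' N x)) (Φ := fun g => Sum.elim (Λ g) (Λ' g)) hC
    (e := fun N x => iL D RA RB (fun _ _ => u) N x * iL D' RA' RB' (fun _ _ => u') N x) (E := fun g => E g * E' g)
    (Lm.mul hC H.e H'.e) (fun N x => mul_nonneg (iL_nonneg _ N x) (iL_nonneg _ N x)) (fun g => mul_nonneg (H.e0 g) (H'.e0 g))
    (fun k => by
      rcases k with k | k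
      · exact t1 k
      · exact t1' k) (ψ := fun _ => 1) (F := fun z => max 0 (z (Sum.inl s) - z (Sum.inr s))) (by fun_prop) (by fun_prop) (by
      filter_upwards [t2, t2', hU, hA, hB, hA', hB'] with N g1 g1' g2 g3 g4 g5 g6
      filter_upwards [g1, g1'] with x a1 a1' hne _
      have hx := iL_ne (left_ne_zero_of_mul hne)
      have hx' := iL_ne (right_ne_zero_of_mul hne)
      have hN0 : (0 : ℝ) < N := by exact_mod_cast g2
      have h2 := (lvQ_mono hD hD' hN0 hN g3 g4 g5 g6 hu hu' hx hx' (s := s) ht).2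
      rw [← a1 hx s, ← a1' hx' s] at h2
      have h3 := le_of_mul_le_mul_right h2 hN0
      show max 0 (t N x s - t' N x s) = 0
      exact max_eq_left (by linarith))
  filter_upwards [h1] with g hg hne hne'
  have h2 := hg (mul_ne_zero hne hne') one_ne_zero
  have h3 := le_max_right 0 (Λ g s - Λ' g s)
  have h4 : max 0 (Λ g s - Λ' g s) = 0 := h2
  linarith

/-- **equal thresholds** -/
theorem lvo_same (hC : Cv U μ cc ν) (hU : ∀ᶠ N : ℕ in U, 0 < N) (hD : D.Ok) (hD' : D'.Ok) (hN : D.Nr D') (hN' : D'.Nr D)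
    (hA : ∀ᶠ N in U, RA N ⊆ D.A N (uT N)) (hB : ∀ᶠ N in U, RB N ⊆ D.B N (uT N)) (hA' : ∀ᶠ N in U, RA' N ⊆ D'.A N (uT N))
    (hB' : ∀ᶠ N in U, RB' N ⊆ D'.B N (uT N)) (hu : ∀ r, 0 ≤ u r) (hu' : ∀ r, 0 ≤ u' r)
    (H : LvO U μ cc ν D RA RB (fun _ _ => u) E Φ Λ) (H' : LvO U μ cc ν D' RA' RB' (fun _ _ => u') E' Φ' Λ') (s : Fin 4)
    (ht : D.l s + u s = D'.l s + u' s) : ∀ᵐ g ∂ν, E g ≠ 0 → E' g ≠ 0 → Λ g s = Λ' g s := by
  filter_upwards [lvo_mono hC hU hD hD' hN hA hB hA' hB' hu hu' H H' s ht.le,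
    lvo_mono hC hU hD' hD hN' hA' hB' hA hB hu' hu H' H s ht.ge] with g h1 h2 h3 h4
  exact le_antisymm (h1 h3 h4) (h2 h4 h3)

end lim

/-! ### 2. The families -/

section fam

variable {V : Filter ℕ} [V.NeBot] {b : ℝ} {X : Type*} [PseudoMetricSpace X] [MeasurableSpace X] [BorelSpace X] [CompleteSpace X]
  [SecondCountableTopology X] {cc : ℕ → W3 × ℕ → X} {ν : Measure X} {t0 : ℝ} {P P' : Prm} {i j : Fin 3}
  {E E' : ℕ → (Fin 4 → ℤ) → X → ℝ} {Φ Φ' : ℕ → (Fin 4 → ℤ) → X → Fin 8 → ℝ} {Λ Λ' : ℕ → (Fin 4 → ℤ) → X → Fin 4 → ℝ}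

lemma dR_ok (hP : P.Ok) (hij : i ≠ j) : (dR P i j).Ok := by
  have w : ∀ a, wnd P a = P.W ∨ wnd P a = P.Wc := fun a => by
    by_cases h : a = 0
    · subst h
      exact Or.inl (wnd_zero P)
    · exact Or.inr (wnd_ne P h)
  exact DR_ok hP hij (w i) (w j) le_rfl le_rfl le_rfl le_rfl

lemma yk_le (D : Dt) (t0 : ℝ) (n : ℕ) (k : Fin 4 → ℤ) (s : Fin 4) : lft t0 n (k s) ≤ D.l s + yk D t0 n k s := by
  have := le_max_right 0 (lft t0 n (k s) - D.l s)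
  unfold yk
  linarith

lemma yk_of_le {D : Dt} {t0 : ℝ} {n : ℕ} {k : Fin 4 → ℤ} {s : Fin 4} (h : D.l s ≤ lft t0 n (k s)) :
    D.l s + yk D t0 n k s = lft t0 n (k s) := by
  unfold yk
  rw [max_eq_right (by linarith)]
  ring

lemma yk_mono {D : Dt} {t0 : ℝ} {n n' : ℕ} {k k' : Fin 4 → ℤ} {s : Fin 4} (h : lft t0 n (k s) ≤ lft t0 n' (k' s)) :
    D.l s + yk D t0 n k s ≤ D.l s + yk D t0 n' k' s := by
  unfold yk
  have := max_le_max (le_refl (0 : ℝ)) (show lft t0 n (k s) - D.l s ≤ lft t0 n' (k' s) - D.l s by linarith)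
  linarith

/-- **`hL`** -/
theorem hL_fam (hVa : V ≤ atTop) (hC : Cv V (fun N => mwE N b) cc ν) (hP : P.Ok) (hij : i ≠ j) (H : FamL V b cc ν t0 P i j E Φ Λ)
    (n : ℕ) (k : Fin 4 → ℤ) : ∀ᵐ g ∂ν, E n k g ≠ 0 → ∀ s, lft t0 n (k s) ≤ Λ n k g s :=
  (lvo_ge hC (hVa (eventually_gt_atTop 0)) (dR_ok hP hij) (Eventually.of_forall fun N => acl_A P i j N)
    (Eventually.of_forall fun N => acl_B P i j N) (fun r => yk_nonneg _ t0 n k r) (H n k)).mono fun g hg hne s =>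
      (yk_le (dR P i j) t0 n k s).trans (hg hne s)

/-- **`hM`** -/
theorem hM_fam (hVa : V ≤ atTop) (hC : Cv V (fun N => mwE N b) cc ν) (hP : P.Ok) (hij : i ≠ j) (H : FamL V b cc ν t0 P i j E Φ Λ)
    (n n' : ℕ) (k k' : Fin 4 → ℤ) : ∀ᵐ g ∂ν, E n k g ≠ 0 → E n' k' g ≠ 0 → ∀ s, lft t0 n (k s) ≤ lft t0 n' (k' s) →
      Λ n k g s ≤ Λ n' k' g s := by
  have key : ∀ s, ∀ᵐ g ∂ν, E n k g ≠ 0 → E n' k' g ≠ 0 → lft t0 n (k s) ≤ lft t0 n' (k' s) → Λ n k g s ≤ Λ n' k' g s := by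
    intro s
    by_cases h : lft t0 n (k s) ≤ lft t0 n' (k' s)
    · exact (lvo_mono hC (hVa (eventually_gt_atTop 0)) (dR_ok hP hij) (dR_ok hP hij) (Dt.Nr.rfl' (dR_ok hP hij))
        (Eventually.of_forall fun N => acl_A P i j N) (Eventually.of_forall fun N => acl_B P i j N)
        (Eventually.of_forall fun N => acl_A P i j N) (Eventually.of_forall fun N => acl_B P i j N)
        (fun r => yk_nonneg _ t0 n k r) (fun r => yk_nonneg _ t0 n' k' r) (H n k) (H n' k') s (yk_mono h)).mono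
        fun g hg h1 h2 _ => hg h1 h2
    · exact Eventually.of_forall fun g _ _ h1 => absurd h1 h
  exact (ae_all_iff.2 key).mono fun g hg h1 h2 s h3 => hg s h1 h2 h3

/-- **`hM'`** -/
theorem hM'_fam (hVa : V ≤ atTop) (hC : Cv V (fun N => mwE N b) cc ν) (hP : P.Ok) (hP' : P'.Ok) (hij : i ≠ j)
    (hN : (dR P' i j).Nr (dR P i j)) (hN' : (dR P i j).Nr (dR P' i j)) (H : FamL V b cc ν t0 P i j E Φ Λ)
    (H' : FamL V b cc ν t0 P' i j E' Φ' Λ') (n : ℕ) (k : Fin 4 → ℤ) (c : ∀ s, fl P' s ≤ lft t0 n (k s))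
    (c' : ∀ s, fl P s ≤ lft t0 n (k s)) : ∀ᵐ g ∂ν, E' n k g ≠ 0 → E n k g ≠ 0 → ∀ s, Λ' n k g s = Λ n k g s := by
  have key : ∀ s, ∀ᵐ g ∂ν, E' n k g ≠ 0 → E n k g ≠ 0 → Λ' n k g s = Λ n k g s := by
    intro s
    refine lvo_same hC (hVa (eventually_gt_atTop 0)) (dR_ok hP' hij) (dR_ok hP hij) hN hN'
      (Eventually.of_forall fun N => acl_A P' i j N) (Eventually.of_forall fun N => acl_B P' i j N)
      (Eventually.of_forall fun N => acl_A P i j N) (Eventually.of_forall fun N => acl_B P i j N)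
      (fun r => yk_nonneg _ t0 n k r) (fun r => yk_nonneg _ t0 n k r) (H' n k) (H n k) s ?_
    have e1 := dR_l P' i j s
    have e2 := dR_l P i j s
    rw [yk_of_le (by rw [e1]; exact c s), yk_of_le (by rw [e2]; exact c' s)]
  exact (ae_all_iff.2 key).mono fun g hg h1 h2 s => hg s h1 h2

/-- two data near the base data -/
lemma nr_dR {ρ τ : ℝ} (hP' : P'.Ok) (hp : P.p.Nr (bE ρ τ)) (hq : P.q.Nr (bE ρ τ)) (hp' : P'.p.Nr (bE ρ τ))
    (hq' : P'.q.Nr (bE ρ τ)) (i j : Fin 3) : (dR P i j).Nr (dR P' i j) := by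
  have key : ∀ {E E' : En}, E.Nr (bE ρ τ) → E'.Nr (bE ρ τ) → E'.f.Ok → 2 * E.f.r ≤ 2 * E'.f.r + E'.f.r2 := by
    intro E E' h h' hO
    have a1 := h.f.r.2
    have a2 := h'.f.r.1
    have a3 := hO.m8
    have a4 := hO.m22
    have a5 := hO.r
    linarith
  exact ⟨rfl, rfl, rfl, rfl, key hp hp' hP'.p.f, key hq hq' hP'.q.f⟩

end fam

/-! ### 3. The fields `ne`, `fr` at generic data -/

section fin

variable {V : Filter ℕ} [V.NeBot] {b : ℝ} {PG : Measure CC.Gm} {t0 : ℝ} {P : Prm} {i j : Fin 3}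

/-- **the field `fr` at generic data** : everything except `hU` -/
theorem fr_gen {f0 : Gn.Fd} {z : ℂ} {B : Gn.Bx} {R : Prm → Prop} {ρ τ : ℝ} (hVa : V ≤ atTop)
    (hC : Cv V (fun N => mwE N b) cN PG) (hBx : ∀ P, B.In z P → P.Ok ∧ P.p.Nr (bE ρ τ) ∧ P.q.Nr (bE ρ τ)) (hP : B.In z P)
    (hPz : PG.map (rotX P.u) = PG) (hij : i ≠ j) {QQ : ℕ → Prm} (hQF : Gn.QF f0 z B R P QQ) {G0 H : Ga} {Hl : ℕ → ℕ → Ga}
    {Hq : ℕ → ℕ → ℕ → Ga} {AF : CC.Gm → Fin 4 → ℝ}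
    (sub : ∀ m n, LvO V (fun N => mwE N b) cN PG (jDR P i j) (acl P i) (acl P j) (fun _ _ => yv (jDR P i j) t0 m n)
      (fun g => bi (g ∈ jKR P i j (Hl m n))) (phi8 (Hl m n).B (Hl m n).c (Hl m n).x)
      (lamF (jDR P i j) (phi8 (Hl m n).B (Hl m n).c (Hl m n).x)))
    (subq : ∀ q, FamL V b cN PG t0 (QQ q) i j (cE (QQ q) i j (Hq q)) (cP (Hq q)) (cLv (QQ q) i j (Hq q)))
    (hF : ∀ m s, FreeC PG t0 (Dt.mm (dR (QQ m) i j)) (cE (QQ m) i j (Hq m)) (cLv (QQ m) i j (Hq m)) s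
      (fun g => AF (rotX P.u g) s) (fl P s))
    (hA0 : ∀ᵐ g ∂PG, g ∈ jEp P i j G0 H → g ∈ jEq P i j G0 H → ∀ s, 0 < AF g s)
    (hU : ∀ᵐ g ∂PG, g ∈ jKR P i j H → rotX P.u g ∈ jEp P i j G0 H → rotX P.u g ∈ jEq P i j G0 H → ∃ μ : ℝ, 0 < μ ∧
      ∀ n k, (∀ s, |lft t0 n (k s) - ((jDR P i j).l s + AF (rotX P.u g) s)| < μ) →
        g ∈ jKR P i j (Hl (ci n k) (cj n k)) ∧ ∀ m, prD P (QQ m) < μ → g ∈ jKR (QQ m) i j (Hq m (ci n k) (cj n k))) :
    ∀ᵐ g ∂PG, jwR P i j H g ≠ 0 → g ∈ jEp P i j G0 H → g ∈ jEq P i j G0 H → ∀ᶠ n in atTop, ∀ k : Fin 4 → ℤ,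
      (k = fun s => kn t0 n ((jDR P i j).l s + AF g s)) → rotX P.u⁻¹ g ∈ jKR P i j (Hl (ci n k) (cj n k)) ∧
        ∀ s, lft t0 n (k s + 1) <
          lamF (jDR P i j) (phi8 (Hl (ci n k) (cj n k)).B (Hl (ci n k) (cj n k)).c (Hl (ci n k) (cj n k)).x) (rotX P.u⁻¹ g) s := by
  obtain ⟨ok, np, nq⟩ := hBx P hP
  have okq := fun m => (hBx _ (hQF.win m)).1
  have nrp := fun m => (hBx _ (hQF.win m)).2.1
  have nrq := fun m => (hBx _ (hQF.win m)).2.2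
  have fP := fam_of sub
  refine fr_prm ok.u hPz (QQ := QQ) (Hq := Hq) (fun μ hμ => prD_ex hQF hP hμ) okq hF hA0 hU (fun m n k => ?_) (fun m n n' k k' => ?_)
    fun m n k c c' => ?_
  · exact (hL_fam hVa hC (okq m) hij (subq m) n k).mono fun g g1 g2 => g1 (cE_ne.2 g2)
  · exact (hM_fam hVa hC (okq m) hij (subq m) n n' k k').mono fun g g1 g2 g3 => g1 (cE_ne.2 g2) (cE_ne.2 g3)
  · exact (hM'_fam hVa hC ok (okq m) hij (nr_dR ok (nrp m) (nrq m) np nq i j) (nr_dR (okq m) np nq (nrp m) (nrq m) i j) fP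
      (subq m) n k c c').mono fun g g1 g2 g3 => g1 (cE_ne.2 g2) (cE_ne.2 g3)

end fin

end Pool.Agent.ROT.F3.NW
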