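import Pool.Agent.ROT.F3NugC
import Pool.Agent.ROT.F3GenG3
import Pool.Agent.ROT.F3NulM

/-!
# ROT, block F3, row NUL (U) (helper68): `hU` at the data of the box

* `grF_at` : the records of the rotated lattice, with the auxiliary radii of one set of data and the thresholds of another one of the box;
* `ngi_of` : the structure `NgI` from the rows of helper59; **`hU_box`** : `hU` for data in the box;
* **`fr_box`** : the field `fr` from the rows of `P` and of the members.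
-/

set_option autoImplicit false
set_option linter.unusedSectionVars false

open Set Filter Topology MeasureTheory unitInterval

open scoped NNReal ENNReal

namespace Pool.Agent.ROT.F3.NW

open Pool.Agent.ROT.F3 Pool.Agent.ROT.F3.CC Pool.Agent.ROT.F3.CK Pool.Agent.ROT.F3.LF Pool.Agent.ROT.F3.Nul Pool.Agent.ROT.F3E
open Pool.Agent.SCF.M Pool.Agent.SCF.Z

/-- auxiliary radii of `Q`, thresholds of `Q'` -/
lemma grF_at {ρ τ : ℝ} (hρ : 0 < ρ) {Q Q' : Tp} (h : Q.Nr (bF ρ τ)) (h' : Q'.Nr (bF ρ τ)) (r : AR) : ((grF ρ Q r).at Q').Ok Q' := by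
  obtain ⟨-, -, -, -, w1, w2⟩ := bxF_r hρ h
  obtain ⟨t1, t2⟩ := tof_mem w1 w2
  exact gp_f hρ h' r.h0.le r.h1.le t1.le t2.le r.h2.le r.h3.le

lemma nr_gtp {ρ τ : ℝ} {P : Prm} (hp : P.p.Nr (bE ρ τ)) (hq : P.q.Nr (bE ρ τ)) (i j : Fin 3) (k : Arm) :
    ((jDR P i j).gtp k).Nr (bF ρ τ) := by
  cases k
  exacts [hp.f, hq.f, hq.f, hp.f]

section

variable {U : Ultrafilter ℕ} {bb : ℝ} {PG : Measure CC.Gm} {S : ℕ → ℝ} {P : Prm} {i j : Fin 3} {t0 c0 ρ τ : ℝ}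
  {KR : Arm → GP} {G0 H : Ga} {Hl : ℕ → ℕ → Ga} {y : ℕ → W3 × ℕ → Fin 4 → ℝ} {AF : CC.Gm → Fin 4 → ℝ} {QQ : ℕ → Prm}
  {Kq : ℕ → Arm → GP} {Hq : ℕ → ℕ → ℕ → Ga}

/-- **the structure `NgI`** -/
theorem ngi_of (hρ : 0 < ρ) (hSc : Sc U bb S c0 ρ) (hP : P.Ok) (hij : i ≠ j)
    (hK : ∀ k, ∃ r : AR, KR k = grF ρ ((jDR P i j).gtp k) r) (gR : GaL (U : Filter ℕ) bb PG (jDR P i j) c0 KR (trnA i j) y H)
    (sg : ∀ k, SGF U bb PG S c0 ρ k (trnA i j k) (fun N x => y N x (aix k)) (KR k))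
    (yA : ∀ s, Lm (U : Filter ℕ) (fun N => mwE N bb) cN PG (fun N x => y N x s) fun g => AF (rotX P.u g) s) :
    NgI U bb PG S c0 (fun _ => scF 0 * ρ) (fun _ => scF 1 * ρ) (fun _ => scF 2 * ρ) (jDR P i j) KR (trnA i j)
      (fun k N x => y N x (aix k)) (fun k g => AF (rotX P.u g) (aix k)) H.B H.c H.x where
  ok := ok_jDR hP hij
  g := gR.ok
  a := gR.arms
  ws k := (hSc.f 0 k (trnA i j k)).ws
  sg := sg
  na k := (sg k).na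
  hR _ := mul_pos (scF_pos 0).1 hρ
  hR3 _ := mul_pos (scF_pos 2).1 hρ
  r k := by
    obtain ⟨r, hr⟩ := hK k
    rw [hr]
    exact (box_rT (mul_pos (scF_pos 0).1 hρ).le (bxF_ok 0 hρ) r.h1.le).1
  r3 k := by
    obtain ⟨r, hr⟩ := hK k
    rw [hr]
    exact (box_rT (mul_pos (scF_pos 2).1 hρ).le (bxF_ok 2 hρ) r.h3.le).1
  y k := yA (aix k)

/-- **the hypothesis `hU` for data of the box** -/
theorem hU_box {z : ℂ} {B : Gn.Bx} {R : Prm → Prop} (hC : Cv (U : Filter ℕ) (fun N => mwE N bb) cN PG)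
    (hP0 : ∀ᵐ y ∂PG, 0 < y.1) (hU : (U : Filter ℕ) ≤ atTop) (hS : ∀ᶠ N : ℕ in U, S N = N) (hc0 : 0 ≤ c0)
    (hPz : PG.map (rotX P.u) = PG) (hρ : 0 < ρ) (hSc : Sc U bb S c0 ρ)
    (hBx : ∀ P, B.In z P → P.Ok ∧ P.p.Nr (bE ρ τ) ∧ P.q.Nr (bE ρ τ)) (hP : B.In z P) (hij : i ≠ j)
    (hQF : Gn.QF (.p (.f .l)) z B R P QQ)
    (hK : ∀ k, ∃ r : AR, KR k = grF ρ ((jDR P i j).gtp k) r) (gR : GaL (U : Filter ℕ) bb PG (jDR P i j) c0 KR (trnA i j) y H)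
    (sg : ∀ k, SGF U bb PG S c0 ρ k (trnA i j k) (fun N x => y N x (aix k)) (KR k))
    (yA : ∀ s, Lm (U : Filter ℕ) (fun N => mwE N bb) cN PG (fun N x => y N x s) fun g => AF (rotX P.u g) s)
    (gl : ∀ m n, GaL (U : Filter ℕ) bb PG (jDR P i j) c0 KR (trnA i j) (fun _ _ => yv (jDR P i j) t0 m n) (Hl m n))
    (gq : ∀ q m n, GaL (U : Filter ℕ) bb PG (jDR (QQ q) i j) c0 (Kq q) (trnA i j) (fun _ _ => yv (jDR (QQ q) i j) t0 m n) (Hq q m n))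
    (nR : ClN PG (jDR P i j) H) (mR : i = 0 → MnN PG (jDR P i j) P.p.s P.q.s H)
    (hA0 : ∀ᵐ g ∂PG, g ∈ jEp P i j G0 H → g ∈ jEq P i j G0 H → ∀ s, 0 < AF g s) :
    ∀ᵐ g ∂PG, g ∈ jKR P i j H → rotX P.u g ∈ jEp P i j G0 H → rotX P.u g ∈ jEq P i j G0 H → ∃ μ : ℝ, 0 < μ ∧
      ∀ n k, (∀ s, |lft t0 n (k s) - ((jDR P i j).l s + AF (rotX P.u g) s)| < μ) →
        g ∈ jKR P i j (Hl (ci n k) (cj n k)) ∧ ∀ m, prD P (QQ m) < μ → g ∈ jKR (QQ m) i j (Hq m (ci n k) (cj n k)) := by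
  obtain ⟨ok, np, nq⟩ := hBx P hP
  refine hU_prm hC hP0 hU hS hc0 hPz ok hij (fun m => (hBx _ (hQF.win m)).1) hQF.agr (ngi_of hρ hSc ok hij hK gR sg yA) gl gq
    ⟨1, one_pos, fun q _ k => ?_⟩ nR mR hA0
  obtain ⟨r, hr⟩ := hK k
  rw [hr]
  exact grF_at hρ (nr_gtp np nq i j k) (nr_gtp (hBx _ (hQF.win q)).2.1 (hBx _ (hQF.win q)).2.2 i j k) r

/-- **the field `fr`** -/
theorem fr_box {z : ℂ} {B : Gn.Bx} {R : Prm → Prop} (hC : Cv (U : Filter ℕ) (fun N => mwE N bb) cN PG)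
    (hP0 : ∀ᵐ y ∂PG, 0 < y.1) (hU : (U : Filter ℕ) ≤ atTop) (hS : ∀ᶠ N : ℕ in U, S N = N) (hc0 : 0 ≤ c0)
    (hPz : PG.map (rotX P.u) = PG) (hρ : 0 < ρ) (hSc : Sc U bb S c0 ρ)
    (hBx : ∀ P, B.In z P → P.Ok ∧ P.p.Nr (bE ρ τ) ∧ P.q.Nr (bE ρ τ)) (hP : B.In z P) (hij : i ≠ j)
    (hQF : Gn.QF (.p (.f .l)) z B R P QQ)
    (hK : ∀ k, ∃ r : AR, KR k = grF ρ ((jDR P i j).gtp k) r) (gR : GaL (U : Filter ℕ) bb PG (jDR P i j) c0 KR (trnA i j) y H)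
    (sg : ∀ k, SGF U bb PG S c0 ρ k (trnA i j k) (fun N x => y N x (aix k)) (KR k))
    (yA : ∀ s, Lm (U : Filter ℕ) (fun N => mwE N bb) cN PG (fun N x => y N x s) fun g => AF (rotX P.u g) s)
    (gl : ∀ m n, GaL (U : Filter ℕ) bb PG (jDR P i j) c0 KR (trnA i j) (fun _ _ => yv (jDR P i j) t0 m n) (Hl m n))
    (gq : ∀ q m n, GaL (U : Filter ℕ) bb PG (jDR (QQ q) i j) c0 (Kq q) (trnA i j) (fun _ _ => yv (jDR (QQ q) i j) t0 m n) (Hq q m n))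
    (sub : ∀ m n, LvO (U : Filter ℕ) (fun N => mwE N bb) cN PG (jDR P i j) (acl P i) (acl P j) (fun _ _ => yv (jDR P i j) t0 m n)
      (fun g => bi (g ∈ jKR P i j (Hl m n))) (phi8 (Hl m n).B (Hl m n).c (Hl m n).x)
      (lamF (jDR P i j) (phi8 (Hl m n).B (Hl m n).c (Hl m n).x)))
    (subq : ∀ q, FamL (U : Filter ℕ) bb cN PG t0 (QQ q) i j (cE (QQ q) i j (Hq q)) (cP (Hq q)) (cLv (QQ q) i j (Hq q)))
    (hF : ∀ m s, FreeC PG t0 (Dt.mm (dR (QQ m) i j)) (cE (QQ m) i j (Hq m)) (cLv (QQ m) i j (Hq m)) s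
      (fun g => AF (rotX P.u g) s) (fl P s))
    (nR : ClN PG (jDR P i j) H) (mR : i = 0 → MnN PG (jDR P i j) P.p.s P.q.s H)
    (hA0 : ∀ᵐ g ∂PG, g ∈ jEp P i j G0 H → g ∈ jEq P i j G0 H → ∀ s, 0 < AF g s) :
    ∀ᵐ g ∂PG, jwR P i j H g ≠ 0 → g ∈ jEp P i j G0 H → g ∈ jEq P i j G0 H → ∀ᶠ n in atTop, ∀ k : Fin 4 → ℤ,
      (k = fun s => kn t0 n ((jDR P i j).l s + AF g s)) → rotX P.u⁻¹ g ∈ jKR P i j (Hl (ci n k) (cj n k)) ∧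
        ∀ s, lft t0 n (k s + 1) <
          lamF (jDR P i j) (phi8 (Hl (ci n k) (cj n k)).B (Hl (ci n k) (cj n k)).c (Hl (ci n k) (cj n k)).x) (rotX P.u⁻¹ g) s :=
  fr_gen hU hC hBx hP hPz hij hQF sub subq hF hA0
    (hU_box hC hP0 hU hS hc0 hPz hρ hSc hBx hP hij hQF hK gR sg yA gl gq nR mR hA0)

end

end Pool.Agent.ROT.F3.NW
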