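import Pool.Agent.ROT.F3Brd
import Pool.Agent.GLow.Alpha

/-!
# ROT / F3NulB (helper29): the cells of a grid which are hit by the cuts of a block

**`fb_cells`** (frame `FB`), **`fbi_cells`** (frame `W3`, axis `i`): there is a universal `C` such that for `0 < μ ≤ 1`,
`2 ≤ μ m`, every offset `x0` and every number `K` of cells: the expected number (total mass of `FB m` = 1) of cells
`[x0 + k μ m, x0 + (k + 1) μ m)`, `k < K`, which contain a cut of the block is at most `C μ ^ (-3/4)`.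
-/

set_option autoImplicit false

namespace HexObs

namespace ROT

namespace FP

open Finset ENNReal

/-- **renewal**: the first cut at `A` or higher is in `[A, B)` -/
lemma fc_renewal {A B : ℕ} (L : ℕ) :
    (∑ h ∈ Ico A B, gf (FC A h)) * (∑ j ∈ range (L + 1), BT j) ≤ ∑ n ∈ Ico A (B + L), BT n := by
  have h1 : ∀ n ∈ Ico A (B + L), ∑ h ∈ Icc A n, gf (FC A h) * BT (n - h) ≤ BT n := by
    intro n hn
    have h2 := gf_FC Set.univ (mem_Ico.1 hn).1
    simp only [Set.inter_univ] at h2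
    rw [← h2, ← gf_Brd]
    exact gf_mono fun t ht => ht.1
  refine le_trans ?_ (sum_le_sum h1)
  have h3 : ∀ n ∈ Ico A (B + L), ∑ h ∈ Ico A B, (if h ≤ n ∧ n ≤ h + L then gf (FC A h) * BT (n - h) else 0) ≤
      ∑ h ∈ Icc A n, gf (FC A h) * BT (n - h) := by
    intro n _
    rw [← sum_filter]
    refine sum_le_sum_of_subset ?_
    intro h hh
    rw [mem_filter, mem_Ico] at hh
    rw [mem_Icc]
    exact ⟨hh.1.1, hh.2.1⟩
  refine le_trans ?_ (sum_le_sum h3)
  rw [sum_comm, sum_mul]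
  refine sum_le_sum fun h hh => ?_
  rw [mem_Ico] at hh
  rw [mul_sum, ← sum_filter]
  have h4 : ∑ j ∈ range (L + 1), gf (FC A h) * BT j =
      ∑ n ∈ (range (L + 1)).map ⟨fun j => h + j, fun a b hab => by simpa using hab⟩, gf (FC A h) * BT (n - h) := by
    rw [sum_map]
    refine sum_congr rfl fun j _ => ?_
    show _ = gf (FC A h) * BT (h + j - h)
    rw [Nat.add_sub_cancel_left]
  rw [h4]
  refine sum_le_sum_of_subset ?_
  intro n hn
  rw [mem_map] at hn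
  obtain ⟨j, hj, rfl⟩ := hn
  rw [mem_range] at hj
  rw [mem_filter, mem_Ico]
  show (A ≤ h + j ∧ h + j < B + L) ∧ h ≤ h + j ∧ h + j ≤ h + L
  omega

/-- a block with a cut in `[A, B)`, `B ≤ m`: split at the first cut at `A` or higher -/
lemma fb_hit {m A B : ℕ} (hB : B ≤ m) :
    gf {b | b ∈ FB m ∧ ∃ h, A ≤ h ∧ h < B ∧ Cut b h} ≤ ∑ h ∈ Ico A B, gf (FC A h) := by
  have h1 : {b | b ∈ FB m ∧ ∃ h, A ≤ h ∧ h < B ∧ Cut b h} ⊆
      ⋃ j : Ico A B, {b | ∃ a ∈ FC A (j : ℕ), ∃ c ∈ FB (m - (j : ℕ)), b = a ++ c} := by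
    rintro b ⟨⟨T, hb, hmT, hno⟩, h, hA, hhB, hcut⟩
    obtain ⟨j, a, u, hAj, hjT, ha, hu, rfl⟩ := FC_dec (show A ≤ T by omega) hb
    have hjh : j ≤ h := by
      by_contra hcon
      obtain ⟨s, v, b', hs, hv, he⟩ := hcut
      obtain ⟨w, hw, h2, h3⟩ := FCaux.nested hs ha.1 hv hu (by omega) he.symm
      exact ha.2.2 h hA (by omega) ⟨s, w, _, hs, hw, h2⟩
    have hu2 : u ∈ FB (m - j) := by
      refine ⟨T - j, hu, by omega, ?_⟩
      rintro c hc hcT ⟨s, v, b', hs, hv, rfl⟩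
      refine hno (j + c) (by omega) (by omega) ⟨a ++ s, v, b', Brd_append ha.1 hs, hv, ?_⟩
      rw [List.append_assoc]
    exact Set.mem_iUnion.2 ⟨⟨j, mem_Ico.2 ⟨hAj, by omega⟩⟩, a, ha, u, hu2, rfl⟩
  refine (gf_mono h1).trans ?_
  rw [K1.gf_iUnion, tsum_fintype, ← Finset.sum_coe_sort (Ico A B)]
  · refine sum_le_sum fun j _ => ?_
    have hj := (mem_Ico.1 j.2).2
    refine (gf_le_mul (Q := FC A (j : ℕ)) (R := FB (m - (j : ℕ))) fun t ht => ht).trans ?_
    rw [fb_mass (show 1 ≤ m - (j : ℕ) by omega), mul_one]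
  · rintro ⟨i, hi⟩ ⟨j, hj⟩ t ⟨a, ha, c, ⟨T, hc⟩, rfl⟩ ⟨a', ha', c', ⟨T', hc'⟩, he⟩
    obtain ⟨h2, -⟩ := FC_unique ha ha' hc.1 hc'.1 he
    rw [h2] at ha
    exact Subtype.ext (Brd_height ha.1 ha'.1)

/-- telescoping -/
lemma tele3 {T : ℕ → ℝ} (h0 : ∀ k, 0 ≤ T k) {U : ℝ} (hU : ∀ k, T k ≤ U) (K : ℕ) :
    ∑ k ∈ range K, (T (k + 3) - T k) ≤ 3 * U := by
  have h1 : ∀ k, T (k + 3) - T k = (T (k + 1 + 2) - T (k + 2)) + (T (k + 1 + 1) - T (k + 1)) + (T (k + 1) - T k) := by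
    intro k
    ring_nf
  rw [sum_congr rfl fun k _ => h1 k, sum_add_distrib, sum_add_distrib,
    sum_range_sub (fun k => T (k + 2)), sum_range_sub (fun k => T (k + 1)), sum_range_sub T]
  have := h0 0
  have := h0 (0 + 1)
  have := h0 (0 + 2)
  have := hU (K + 2)
  have := hU (K + 1)
  have := hU K
  linarith

/-- the sum of the hitting probabilities of the cells, heights below `m` -/
lemma cells_sum : ∃ C : ℝ, 0 < C ∧ ∀ (μ : ℝ) (m K : ℕ) (x0 : ℝ), 0 < μ → μ ≤ 1 → 2 ≤ μ * m →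
    ∑ k ∈ range K, gf {b | b ∈ FB m ∧ ∃ h : ℕ, h < m ∧ x0 + k * (μ * m) ≤ h ∧ (h : ℝ) < x0 + (k + 1) * (μ * m) ∧ Cut b h} ≤
      ENNReal.ofReal (C * μ ^ (-(3 / 4) : ℝ)) := by
  obtain ⟨C, hC, hUp⟩ := GLow.UU_up
  obtain ⟨c, hc, hLo⟩ := GLow.UU_low
  refine ⟨3 * C / c * 10 ^ (3 / 4 : ℝ), by positivity, fun μ m K x0 hμ hμ1 hm => ?_⟩
  set y : ℝ := μ * m with hy
  have hy0 : 0 < y := by linarith
  have hm0 : (0 : ℝ) < m := by
    by_contra hcon
    nlinarith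
  have hm2 : (2 : ℝ) ≤ m := by nlinarith
  set L : ℕ := ⌊y⌋₊ with hL
  have hL1 : (L : ℝ) ≤ y := Nat.floor_le hy0.le
  have hL2 : y / 2 ≤ L := by
    have := Nat.lt_floor_add_one y
    linarith
  have hL0 : 1 ≤ L := by
    have : (1 : ℝ) ≤ L := by linarith
    exact_mod_cast this
  set A : ℕ → ℕ := fun k => ⌈x0 + k * y⌉₊ with hA
  have hAle : ∀ k, x0 + k * y ≤ A k := fun k => Nat.le_ceil _
  have hAmono : ∀ k l, k ≤ l → A k ≤ A l := by
    intro k l hkl
    refine Nat.ceil_mono ?_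
    have : (k : ℝ) ≤ l := by exact_mod_cast hkl
    nlinarith
  -- one cell
  set S : ℕ → ℝ := fun n => ∑ h ∈ range n, uu h with hS
  have hSmono : ∀ a b, a ≤ b → S a ≤ S b := by
    intro a b hab
    exact sum_le_sum_of_subset_of_nonneg (range_subset_range.2 hab) fun h _ _ => (uu_pos h).le
  have hUL : 0 < UU L := Num2Aux.UU_pos _
  set N : ℕ := 5 * m with hN
  set Tk : ℕ → ℝ := fun k => S (min (A k) N) with hTk
  have hone : ∀ k : ℕ, gf {b | b ∈ FB m ∧ ∃ h : ℕ, h < m ∧ x0 + k * y ≤ h ∧ (h : ℝ) < x0 + (k + 1) * y ∧ Cut b h} ≤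
      ENNReal.ofReal ((Tk (k + 3) - Tk k) / UU L) := by
    intro k
    set B : ℕ := min (A (k + 1)) m with hB
    have h1 : {b | b ∈ FB m ∧ ∃ h : ℕ, h < m ∧ x0 + k * y ≤ h ∧ (h : ℝ) < x0 + (k + 1) * y ∧ Cut b h} ⊆
        {b | b ∈ FB m ∧ ∃ h, A k ≤ h ∧ h < B ∧ Cut b h} := by
      rintro b ⟨hb, h, h2, h3, h4, h5⟩
      refine ⟨hb, h, Nat.ceil_le.2 h3, ?_, h5⟩
      rw [hB, lt_min_iff]
      refine ⟨?_, h2⟩
      rw [hA]
      show h < ⌈x0 + ((k + 1 : ℕ) : ℝ) * y⌉₊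
      rw [Nat.lt_ceil]
      push_cast
      exact h4
    refine (gf_mono h1).trans ?_
    rcases Nat.lt_or_ge (A k) B with hAB | hAB
    swap
    · have h6 : {b | b ∈ FB m ∧ ∃ h, A k ≤ h ∧ h < B ∧ Cut b h} = ∅ := by
        ext b
        simp only [Set.mem_ofPred_eq, Set.mem_empty_iff_false, iff_false]
        rintro ⟨-, h, h2, h3, -⟩
        omega
      rw [h6]
      have : gf (∅ : Set (List Bool)) = 0 := by
        unfold gf
        simp
      rw [this]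
      exact zero_le
    refine (fb_hit (min_le_right _ _)).trans ?_
    have hAm : A k < m := lt_of_lt_of_le hAB (min_le_right _ _)
    have hAA : A k < A (k + 1) := lt_of_lt_of_le hAB (min_le_left _ _)
    -- the length of the window
    have hpos : 0 < x0 + ((k + 1 : ℕ) : ℝ) * y := by
      by_contra hcon
      have : A (k + 1) = 0 := Nat.ceil_eq_zero.2 (not_lt.1 hcon)
      omega
    have hw : B + L ≤ A (k + 3) := by
      have h2 : (A (k + 1) : ℝ) < x0 + ((k + 1 : ℕ) : ℝ) * y + 1 := Nat.ceil_lt_add_one hpos.le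
      have h3 : (B : ℝ) ≤ A (k + 1) := by exact_mod_cast min_le_left _ _
      have h4 := hAle (k + 3)
      have h5 : ((B + L : ℕ) : ℝ) < (A (k + 3) : ℝ) := by
        push_cast at h2 h4 ⊢
        nlinarith
      exact_mod_cast h5.le
    have hN3 : A (k + 3) ≤ N := by
      rw [hA]
      show ⌈x0 + ((k + 3 : ℕ) : ℝ) * y⌉₊ ≤ N
      rw [Nat.ceil_le, hN]
      push_cast
      have h2 : x0 + (k : ℝ) * y ≤ m := by
        have h3 : ((A k : ℕ) : ℝ) ≤ m := by exact_mod_cast hAm.le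
        exact (hAle k).trans h3
      have h3 : y ≤ m := by
        rw [hy]
        nlinarith
      nlinarith
    have e1 : Tk (k + 3) - Tk k = ∑ n ∈ Ico (A k) (A (k + 3)), uu n := by
      rw [hTk]
      show S (min (A (k + 3)) N) - S (min (A k) N) = _
      rw [min_eq_left hN3, min_eq_left ((hAmono k (k + 3) (by omega)).trans hN3), hS,
        sum_Ico_eq_sub _ (hAmono k (k + 3) (by omega))]
    have h2 := fc_renewal (A := A k) (B := B) L
    have e2 : ∑ j ∈ range (L + 1), BT j = ENNReal.ofReal (UU L) := by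
      unfold UU
      rw [ENNReal.ofReal_sum_of_nonneg fun h _ => (uu_pos h).le]
      exact sum_congr rfl fun j _ => BT_eq_uu j
    have e3 : ∑ n ∈ Ico (A k) (B + L), BT n ≤ ENNReal.ofReal (Tk (k + 3) - Tk k) := by
      rw [e1, ENNReal.ofReal_sum_of_nonneg fun h _ => (uu_pos h).le]
      rw [sum_congr rfl fun j _ => BT_eq_uu j]
      exact sum_le_sum_of_subset (Ico_subset_Ico_right hw)
    rw [ENNReal.ofReal_div_of_pos hUL]
    refine (ENNReal.le_div_iff_mul_le (Or.inl (ENNReal.ofReal_pos.2 hUL).ne') (Or.inl ENNReal.ofReal_ne_top)).2 ?_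
    rw [← e2]
    exact h2.trans e3
  refine (sum_le_sum fun k _ => hone k).trans ?_
  have hT0 : ∀ k, 0 ≤ Tk k := fun k => sum_nonneg fun h _ => (uu_pos h).le
  have hTU : ∀ k, Tk k ≤ UU N := by
    intro k
    unfold UU
    exact hSmono _ _ ((min_le_right _ _).trans (Nat.le_succ _))
  have hTm : ∀ k, 0 ≤ Tk (k + 3) - Tk k := by
    intro k
    have : Tk k ≤ Tk (k + 3) := hSmono _ _ (min_le_min_right _ (hAmono k (k + 3) (by omega)))
    linarith
  rw [← ENNReal.ofReal_sum_of_nonneg fun k _ => div_nonneg (hTm k) hUL.le, ← sum_div]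
  refine ENNReal.ofReal_le_ofReal ?_
  have hN1 : 1 ≤ N := by
    have : (1 : ℝ) ≤ m := by linarith
    have : 1 ≤ m := by exact_mod_cast this
    omega
  have h5 : ∑ k ∈ range K, (Tk (k + 3) - Tk k) ≤ 3 * (C * (N : ℝ) ^ (3 / 4 : ℝ)) := by
    refine (tele3 hT0 hTU K).trans ?_
    have := hUp N hN1
    linarith
  have h6 : c * (y / 2) ^ (3 / 4 : ℝ) ≤ UU L := by
    refine le_trans ?_ (hLo L hL0)
    exact mul_le_mul_of_nonneg_left (Real.rpow_le_rpow (by positivity) hL2 (by norm_num)) hc.le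
  have h7 : 0 < c * (y / 2) ^ (3 / 4 : ℝ) := by positivity
  calc (∑ k ∈ range K, (Tk (k + 3) - Tk k)) / UU L
      ≤ (3 * (C * (N : ℝ) ^ (3 / 4 : ℝ))) / (c * (y / 2) ^ (3 / 4 : ℝ)) :=
        div_le_div₀ (by positivity) h5 h7 h6
    _ = 3 * C / c * 10 ^ (3 / 4 : ℝ) * μ ^ (-(3 / 4) : ℝ) := by
        have e1 : (N : ℝ) = (y / 2) * (10 * μ⁻¹) := by
          rw [hN, hy]
          push_cast
          field_simp
          ring
        rw [e1, Real.mul_rpow (by positivity) (by positivity), Real.mul_rpow (by norm_num) (by positivity),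
          Real.inv_rpow hμ.le, Real.rpow_neg hμ.le]
        have h8 : 0 < (y / 2) ^ (3 / 4 : ℝ) := by positivity
        field_simp

open scoped Classical in
/-- **the expected number of the cells which are hit by the cuts of a block** -/
theorem fb_cells : ∃ C : ℝ, 0 < C ∧ ∀ (μ : ℝ) (m K : ℕ) (x0 : ℝ), 0 < μ → μ ≤ 1 → 2 ≤ μ * m →
    ∑' b : FB m, wE b.1 * (((range K).filter fun k : ℕ =>
      ∃ h : ℕ, x0 + k * (μ * m) ≤ h ∧ (h : ℝ) < x0 + (k + 1) * (μ * m) ∧ Cut b.1 h).card : ℝ≥0∞) ≤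
      ENNReal.ofReal (C * μ ^ (-(3 / 4) : ℝ)) := by
  obtain ⟨C, hC, hs⟩ := cells_sum
  refine ⟨C + 1, by positivity, fun μ m K x0 hμ hμ1 hm => ?_⟩
  have hy0 : 0 < μ * m := by linarith
  have hm1 : 1 ≤ m := by
    rcases Nat.eq_zero_or_pos m with h | h
    · rw [h] at hm
      norm_num at hm
    · exact h
  set P : List Bool → ℕ → Prop := fun b k =>
    ∃ h : ℕ, h < m ∧ x0 + k * (μ * m) ≤ h ∧ (h : ℝ) < x0 + (k + 1) * (μ * m) ∧ Cut b h with hP
  have hcard : ∀ b ∈ FB m, (((range K).filter fun k : ℕ =>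
      ∃ h : ℕ, x0 + k * (μ * m) ≤ h ∧ (h : ℝ) < x0 + (k + 1) * (μ * m) ∧ Cut b h).card : ℝ≥0∞) ≤
      (∑ k ∈ range K, if P b k then (1 : ℝ≥0∞) else 0) + 1 := by
    rintro b ⟨T, hb, hmT, hno⟩
    have h1 : ((range K).filter fun k : ℕ =>
        ∃ h : ℕ, x0 + k * (μ * m) ≤ h ∧ (h : ℝ) < x0 + (k + 1) * (μ * m) ∧ Cut b h) ⊆
        ((range K).filter fun k => P b k) ∪
        ((range K).filter fun k : ℕ => x0 + k * (μ * m) ≤ T ∧ (T : ℝ) < x0 + (k + 1) * (μ * m)) := by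
      intro k hk
      rw [mem_filter] at hk
      obtain ⟨hk, h, h2, h3, h4⟩ := hk
      rw [mem_union, mem_filter, mem_filter]
      rcases Nat.lt_or_ge h m with h5 | h5
      · exact Or.inl ⟨hk, h, h5, h2, h3, h4⟩
      · have h6 : h = T := by
          obtain ⟨s, u, b', hs', hu, he⟩ := h4
          have h7 : T = h + b' := Brd_height hb (he ▸ Brd_append hs' hu)
          rcases Nat.lt_or_ge h T with h8 | h8
          · exact absurd ⟨s, u, b', hs', hu, he⟩ (hno h h5 h8)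
          · omega
        rw [h6] at h2 h3
        exact Or.inr ⟨hk, h2, h3⟩
    have h2 : ((range K).filter fun k : ℕ => x0 + k * (μ * m) ≤ T ∧ (T : ℝ) < x0 + (k + 1) * (μ * m)).card ≤ 1 := by
      rw [Finset.card_le_one]
      intro k hk l hl
      rw [mem_filter] at hk hl
      have key : ∀ k l : ℕ, x0 + k * (μ * m) ≤ T → (T : ℝ) < x0 + (l + 1) * (μ * m) → k ≤ l := by
        intro k l h3 h4
        have h5 : (k : ℝ) * (μ * m) < (l + 1) * (μ * m) := by linarith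
        have h6 : (k : ℝ) < l + 1 := lt_of_mul_lt_mul_right h5 hy0.le
        have h7 : k < l + 1 := by exact_mod_cast h6
        omega
      exact le_antisymm (key k l hk.2.1 hl.2.2) (key l k hl.2.1 hk.2.2)
    have h3 : (∑ k ∈ range K, if P b k then (1 : ℝ≥0∞) else 0) = (((range K).filter fun k => P b k).card : ℝ≥0∞) := by
      rw [← sum_filter, sum_const, nsmul_eq_mul, mul_one]
    rw [h3]
    have h4 := (card_le_card h1).trans (card_union_le _ _)
    have h5 := h4.trans (Nat.add_le_add_left h2 _)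
    exact_mod_cast h5
  have h1 : ∑' b : FB m, wE b.1 * (((range K).filter fun k : ℕ =>
      ∃ h : ℕ, x0 + k * (μ * m) ≤ h ∧ (h : ℝ) < x0 + (k + 1) * (μ * m) ∧ Cut b.1 h).card : ℝ≥0∞) ≤
      (∑ k ∈ range K, ∑' b : FB m, wE b.1 * (if P b.1 k then (1 : ℝ≥0∞) else 0)) + 1 := by
    have h2 : (1 : ℝ≥0∞) = ∑' b : FB m, wE b.1 := (fb_mass hm1).symm
    have h3 : (∑ k ∈ range K, ∑' b : FB m, wE b.1 * (if P b.1 k then (1 : ℝ≥0∞) else 0)) =
        ∑' b : FB m, ∑ k ∈ range K, wE b.1 * (if P b.1 k then (1 : ℝ≥0∞) else 0) :=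
      (Summable.tsum_finsetSum fun k _ => ENNReal.summable).symm
    rw [h3]
    refine le_trans ?_ (add_le_add_right h2.ge _)
    rw [← ENNReal.tsum_add]
    refine ENNReal.tsum_le_tsum fun b => ?_
    refine (mul_le_mul_right (hcard b.1 b.2) _).trans (le_of_eq ?_)
    rw [mul_add, mul_one, mul_sum]
  have h2 : ∀ k ∈ range K, (∑' b : FB m, wE b.1 * (if P b.1 k then (1 : ℝ≥0∞) else 0)) =
      gf {b | b ∈ FB m ∧ ∃ h : ℕ, h < m ∧ x0 + k * (μ * m) ≤ h ∧ (h : ℝ) < x0 + (k + 1) * (μ * m) ∧ Cut b h} := by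
    intro k _
    unfold gf
    rw [_root_.tsum_subtype (FB m) fun b => wE b * (if P b k then (1 : ℝ≥0∞) else 0), _root_.tsum_subtype _ wE]
    refine tsum_congr fun b => ?_
    by_cases hb : b ∈ FB m
    · rw [Set.indicator_of_mem hb]
      by_cases hPb : P b k
      · rw [if_pos hPb, mul_one, Set.indicator_of_mem]
        exact ⟨hb, hPb⟩
      · rw [if_neg hPb, mul_zero, Set.indicator_of_notMem]
        exact fun h => hPb h.2
    · rw [Set.indicator_of_notMem hb, Set.indicator_of_notMem]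
      exact fun h => hb h.1
  rw [sum_congr rfl h2] at h1
  refine h1.trans ((add_le_add (hs μ m K x0 hμ hμ1 hm) le_rfl).trans ?_)
  rw [← ENNReal.ofReal_one, ← ENNReal.ofReal_add (by positivity) zero_le_one]
  refine ENNReal.ofReal_le_ofReal ?_
  have h3 : 1 ≤ μ ^ (-(3 / 4) : ℝ) := Real.one_le_rpow_of_pos_of_le_one_of_nonpos hμ hμ1 (by norm_num)
  nlinarith

end FP

end ROT

end HexObs

namespace Pool.Agent.ROT.F3

open Finset
open HexObs (Brd gf wE BT Cut)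
open HexObs.ROT.FP (FB)
open scoped ENNReal Classical

/-- **the same in the frame `W3`, axis `i`** -/
theorem fbi_cells : ∃ C : ℝ, 0 < C ∧ ∀ (μ : ℝ) (i : Fin 3) (m K : ℕ) (x0 : ℝ), 0 < μ → μ ≤ 1 → 2 ≤ μ * m →
    ∑' b : Fbi i m, wx b * (((range K).filter fun k : ℕ =>
      ∃ h : ℕ, x0 + k * (μ * m) ≤ h ∧ (h : ℝ) < x0 + (k + 1) * (μ * m) ∧ Cuti i b h).card : ℝ≥0∞) ≤
      ENNReal.ofReal (C * μ ^ (-(3 / 4) : ℝ)) := by
  obtain ⟨C, hC, h⟩ := HexObs.ROT.FP.fb_cells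
  refine ⟨C, hC, fun μ i m K x0 hμ hμ1 hm => ?_⟩
  refine le_trans (le_of_eq ?_) (h μ m K x0 hμ hμ1 hm)
  rw [sum_Fbi i m fun b => (((range K).filter fun k : ℕ =>
      ∃ h : ℕ, x0 + k * (μ * m) ≤ h ∧ (h : ℝ) < x0 + (k + 1) * (μ * m) ∧ Cuti i b h).card : ℝ≥0∞)]
  refine tsum_congr fun t => ?_
  obtain ⟨T, hT, -⟩ := t.2
  have h1 : ∀ c : ℕ, Cuti i (rt i (wl t.1)) c ↔ Cut t.1 c := fun c => by rw [cuti_rt, cutW_wl hT]
  simp only [h1]

end Pool.Agent.ROT.F3
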