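import Pool.Agent.ROT.F3Nul

/-!
# ROT, block F3, row NUL, existence (helper68): almost surely all cells of small side are free

`E n k` : the class with the thresholds `lft t0 n (k s)` (strands `s`) occurs, `Λ n k s` : level of its gate `c` of the strand `s`
(over the least threshold), `a s` : the functional threshold, `mm s` : a lower bound for the height of the block behind `c`.

* **`nul_det`** : deterministic part;
* `lvl_ne` : for almost every shift the levels are not the functional threshold;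
* **`nul_good`** : the good shifts; **`nul_act`** : almost surely on the functional class, for all large `n` the class of the cells of the
  functional thresholds occurs and all these cells are free.
-/

set_option autoImplicit false

open MeasureTheory Filter Topology Set
open scoped ENNReal

namespace Pool.Agent.ROT.F3.Nul

/-- the bad event of the cell `k` of the strand `s`, for the fixed class `(n1, k1)` -/
def BdE {σ : Type*} (t0 : ℝ) (mm : σ → ℝ) (E : ℕ → (σ → ℤ) → Prop) (Λ : ℕ → (σ → ℤ) → σ → ℝ) (n1 : ℕ) (k1 : σ → ℤ) (s : σ)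
    (n : ℕ) (k : ℤ) : Prop :=
  E n1 k1 ∧ Λ n1 k1 s < lft t0 n k ∧ lft t0 n (k + 2) < Λ n1 k1 s + mm s ∧ ∃ kk : σ → ℤ, kk s = k ∧ E n kk ∧
    Λ n kk s < lft t0 n (k + 2)

lemma lft_add2 (t0 : ℝ) (n : ℕ) (k : ℤ) : lft t0 n (k + 2) = lft t0 n (k + 1) + 1 / 2 ^ n := by
  rw [show k + 2 = (k + 1) + 1 by ring, lft_add]

/-- two cells in a neighbourhood of `a` -/
lemma kn_small2 {t0 a x y : ℝ} (hx : x < a) (hy : a < y) : ∀ᶠ n in atTop, x < lft t0 n (kn t0 n a) ∧ lft t0 n (kn t0 n a + 2) < y := by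
  filter_upwards [kn_small (t0 := t0) hx (show a < (a + y) / 2 by linarith),
    kn_small (t0 := t0) (a := a) (x := a - 1) (y := a + (y - a) / 4) (by linarith) (by linarith),
    kn_small (t0 := t0) (a := a) (x := a - (y - a) / 4) (y := a + 1) (by linarith) (by linarith)] with n h1 h2 h3
  refine ⟨h1.1, ?_⟩
  rw [lft_add2]
  have e1 := lft_add t0 n (kn t0 n a)
  have e2 := kn_le t0 n a
  linarith [h1.2, h2.2, h3.1]

/-- **deterministic part** -/
theorem nul_det {σ : Type*} [Finite σ] {t0 : ℝ} {mm a : σ → ℝ} {E : ℕ → (σ → ℤ) → Prop} {Λ : ℕ → (σ → ℤ) → σ → ℝ}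
    (hmm : ∀ s, 0 < mm s) (hW : ∀ᶠ n in atTop, E n fun s => kn t0 n (a s))
    (hL : ∀ n k s, E n k → lft t0 n (k s) ≤ Λ n k s)
    (hM : ∀ n n' k k' s, E n k → E n' k' → lft t0 n (k s) ≤ lft t0 n' (k' s) → Λ n k s ≤ Λ n' k' s)
    (hne : ∀ n k s, E n k → Λ n k s ≠ a s)
    (hB : ∀ n1 k1 s, E n1 k1 → ∃ᶠ n in atTop, ¬ BdE t0 mm E Λ n1 k1 s n (kn t0 n (a s))) :
    ∀ᶠ n in atTop, (E n fun s => kn t0 n (a s)) ∧ ∀ s, lft t0 n (kn t0 n (a s) + 1) < Λ n (fun s => kn t0 n (a s)) s := by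
  classical
  obtain ⟨n0, h0⟩ := eventually_atTop.1 hW
  have key : ∀ s, ∀ᶠ n in atTop, lft t0 n (kn t0 n (a s) + 1) < Λ n (fun s => kn t0 n (a s)) s := by
    intro s
    have hm := hmm s
    -- one free cell is enough
    have per : ∀ n1, n0 ≤ n1 → lft t0 n1 (kn t0 n1 (a s) + 1) < Λ n1 (fun s => kn t0 n1 (a s)) s →
        ∀ᶠ n in atTop, lft t0 n (kn t0 n (a s) + 1) < Λ n (fun s => kn t0 n (a s)) s := by
      intro n1 h1 h2
      filter_upwards [eventually_ge_atTop n1] with n hn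
      have h3 := kn_anti_r t0 (a s) hn
      have h4 := hM n1 n (fun s => kn t0 n1 (a s)) (fun s => kn t0 n (a s)) s (h0 n1 h1) (h0 n (h1.trans hn)) (kn_mono_l t0 (a s) hn)
      exact (h3.trans_lt h2).trans_le h4
    obtain ⟨n1, hn1, hs1⟩ := ((eventually_ge_atTop n0).and
      (kn_small2 (t0 := t0) (a := a s) (x := a s - mm s / 2) (y := a s + mm s / 2) (by linarith) (by linarith))).exists
    have hl := hL n1 _ s (h0 n1 hn1)
    rcases lt_or_gt_of_ne (hne n1 (fun s => kn t0 n1 (a s)) s (h0 n1 hn1)) with h1 | h1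
    · -- the gate is below the threshold
      have h2 : ∀ᶠ n in atTop, Λ n1 (fun s => kn t0 n1 (a s)) s < lft t0 n (kn t0 n (a s)) ∧
          lft t0 n (kn t0 n (a s) + 2) < a s + mm s / 2 := kn_small2 h1 (by linarith)
      obtain ⟨n, h3, h4, h5⟩ := ((hB n1 (fun s => kn t0 n1 (a s)) s (h0 n1 hn1)).and_eventually
        (h2.and (eventually_ge_atTop n0))).exists
      refine per n h5 ?_
      by_contra hc
      refine h3 ⟨h0 n1 hn1, h4.1, ?_, fun s => kn t0 n (a s), rfl, h0 n h5, ?_⟩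
      · have h6 := hs1.1
        have h7 := h4.2
        have h8 : lft t0 n1 (kn t0 n1 (a s)) ≤ Λ n1 (fun s => kn t0 n1 (a s)) s := hl
        linarith
      · refine (not_lt.1 hc).trans_lt ?_
        rw [lft_add2]
        have : (0 : ℝ) < 1 / 2 ^ n := by positivity
        linarith
    · -- the gate is above the threshold
      obtain ⟨n, h3, h5⟩ := (((kn_small (sub_one_lt (a s)) h1).mono fun n hn => hn.2).and (eventually_ge_atTop n1)).exists
      refine per n (hn1.trans h5) ?_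
      have h4 := hM n1 n (fun s => kn t0 n1 (a s)) (fun s => kn t0 n (a s)) s (h0 n1 hn1) (h0 n (hn1.trans h5))
        (kn_mono_l t0 (a s) h5)
      exact h3.trans_le h4
  filter_upwards [hW, (eventually_all (α := ℕ) (l := atTop)).2 key] with n h1 h2
  exact ⟨h1, h2⟩

section ae

variable {Γ : Type*} [MeasurableSpace Γ] {P : Measure Γ}

/-- for all but countably many shifts a function is almost surely different from the shift -/
lemma lvl_ne [SFinite P] {f : Γ → ℝ} (hf : Measurable f) : ∀ᵐ m : ℝ, ∀ᵐ g ∂P, f g ≠ m := by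
  have h : ∀ᵐ x ∂((volume : Measure ℝ).prod P), f x.2 ≠ x.1 := by
    have hm : MeasurableSet {x : ℝ × Γ | f x.2 ≠ x.1} :=
      (measurableSet_eq_fun (hf.comp measurable_snd) measurable_fst).compl
    have h0 : ((volume : Measure ℝ).prod P) {x : ℝ × Γ | f x.2 ≠ x.1}ᶜ = 0 := by
      rw [Measure.prod_apply_symm hm.compl]
      refine lintegral_eq_zero_of_ae_eq_zero (Eventually.of_forall fun g => ?_)
      have e : (fun m : ℝ => (m, g)) ⁻¹' {x : ℝ × Γ | f x.2 ≠ x.1}ᶜ = {f g} := by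
        ext m
        simp only [mem_preimage, mem_compl_iff, mem_ofPred_eq, ne_eq, not_not, mem_singleton_iff]
        exact eq_comm
      show volume ((fun m : ℝ => (m, g)) ⁻¹' {x : ℝ × Γ | f x.2 ≠ x.1}ᶜ) = 0
      rw [e]
      exact Real.volume_singleton
    exact h0
  exact Measure.ae_ae_of_ae_prod h

/-- **the good shifts** of one strand: `Af` = the functional threshold without the shift -/
theorem nul_good [SFinite P] {σ : Type*} [Finite σ] {t0 : ℝ} {mm : σ → ℝ} {s : σ} {Af : Γ → ℝ} (hA : Measurable Af)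
    {E : ℕ → (σ → ℤ) → Set Γ} {Λ : ℕ → (σ → ℤ) → Γ → σ → ℝ} (mE : ∀ n k, MeasurableSet (E n k))
    (mΛ : ∀ n k, Measurable fun g => Λ n k g s)
    (h : ∀ n1 k1, Tendsto (fun n : ℕ => ENNReal.ofReal (1 / 2 ^ n) * ∑' k : ℤ,
      P {g | BdE t0 mm (fun n k => g ∈ E n k) (fun n k => Λ n k g) n1 k1 s n k}) atTop (𝓝 0)) :
    ∀ᵐ m : ℝ, ∀ᵐ g ∂P, ∀ n1 k1, Λ n1 k1 g s ≠ Af g + m ∧
      ∃ᶠ n in atTop, ¬ BdE t0 mm (fun n k => g ∈ E n k) (fun n k => Λ n k g) n1 k1 s n (kn t0 n (Af g + m)) := by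
  have : Countable (σ → ℤ) := by
    have := Fintype.ofFinite σ
    infer_instance
  have mB : ∀ n1 k1 n k, MeasurableSet {g | BdE t0 mm (fun n k => g ∈ E n k) (fun n k => Λ n k g) n1 k1 s n k} := by
    intro n1 k1 n k
    have e : {g | BdE t0 mm (fun n k => g ∈ E n k) (fun n k => Λ n k g) n1 k1 s n k} =
        E n1 k1 ∩ ({g | Λ n1 k1 g s < lft t0 n k} ∩ ({g | lft t0 n (k + 2) < Λ n1 k1 g s + mm s} ∩
          ⋃ kk ∈ {kk : σ → ℤ | kk s = k}, (E n kk ∩ {g | Λ n kk g s < lft t0 n (k + 2)}))) := by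
      ext g
      simp only [BdE, mem_inter_iff, mem_ofPred_eq, mem_iUnion, exists_prop]
    rw [e]
    refine (mE n1 k1).inter ((measurableSet_lt (mΛ n1 k1) measurable_const).inter
      ((measurableSet_lt measurable_const ((mΛ n1 k1).add_const _)).inter ?_))
    exact MeasurableSet.biUnion (to_countable _) fun kk _ => (mE n kk).inter (measurableSet_lt (mΛ n kk) measurable_const)
  have h1 : ∀ᵐ m : ℝ, ∀ n1 k1, ∀ᵐ g ∂P, ∃ᶠ n in atTop,
      g ∉ {g | BdE t0 mm (fun n k => g ∈ E n k) (fun n k => Λ n k g) n1 k1 s n (kn t0 n (Af g + m))} := by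
    rw [ae_all_iff]
    intro n1
    rw [ae_all_iff]
    intro k1
    have h2 := nul_ae (P := P) (t0 := t0) hA (Bd := fun n k => {g | BdE t0 mm (fun n k => g ∈ E n k) (fun n k => Λ n k g) n1 k1 s n k})
      (mB n1 k1) (h n1 k1)
    filter_upwards [h2] with m hm
    filter_upwards [hm] with g hg
    exact hg
  have h3 : ∀ᵐ m : ℝ, ∀ n1 k1, ∀ᵐ g ∂P, Λ n1 k1 g s - Af g ≠ m := by
    rw [ae_all_iff]
    intro n1
    rw [ae_all_iff]
    intro k1
    exact lvl_ne ((mΛ n1 k1).sub hA)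
  filter_upwards [h1, h3] with m h1 h3
  filter_upwards [ae_all_iff.2 fun n1 => ae_all_iff.2 (h1 n1), ae_all_iff.2 fun n1 => ae_all_iff.2 (h3 n1)] with g g1 g2 n1 k1
  refine ⟨fun hc => g2 n1 k1 (by rw [hc]; ring), ?_⟩
  exact (g1 n1 k1).mono fun n hn => hn

/-- **all cells of small side are free** : `F` = the functional class occurs, `a s` = the functional thresholds -/
theorem nul_act {σ : Type*} [Finite σ] {t0 : ℝ} {mm : σ → ℝ} {a : Γ → σ → ℝ} {E : ℕ → (σ → ℤ) → Set Γ}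
    {Λ : ℕ → (σ → ℤ) → Γ → σ → ℝ} {F : Set Γ} (hmm : ∀ s, 0 < mm s)
    (hW : ∀ᵐ g ∂P, g ∈ F → ∀ᶠ n in atTop, g ∈ E n fun s => kn t0 n (a g s))
    (hL : ∀ n k s, ∀ᵐ g ∂P, g ∈ E n k → lft t0 n (k s) ≤ Λ n k g s)
    (hM : ∀ n n' k k' s, lft t0 n (k s) ≤ lft t0 n' (k' s) → ∀ᵐ g ∂P, g ∈ E n k → g ∈ E n' k' → Λ n k g s ≤ Λ n' k' g s)
    (hg : ∀ s, ∀ᵐ g ∂P, ∀ n1 k1, Λ n1 k1 g s ≠ a g s ∧
      ∃ᶠ n in atTop, ¬ BdE t0 mm (fun n k => g ∈ E n k) (fun n k => Λ n k g) n1 k1 s n (kn t0 n (a g s))) :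
    ∀ᵐ g ∂P, g ∈ F → ∀ᶠ n in atTop, (g ∈ E n fun s => kn t0 n (a g s)) ∧
      ∀ s, lft t0 n (kn t0 n (a g s) + 1) < Λ n (fun s => kn t0 n (a g s)) g s := by
  have : Countable (σ → ℤ) := by
    have := Fintype.ofFinite σ
    infer_instance
  have : Countable σ := Finite.to_countable
  have hM' : ∀ᵐ g ∂P, ∀ n n' k k' s, lft t0 n (k s) ≤ lft t0 n' (k' s) → g ∈ E n k → g ∈ E n' k' → Λ n k g s ≤ Λ n' k' g s := by
    rw [ae_all_iff]
    intro n
    rw [ae_all_iff]
    intro n'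
    rw [ae_all_iff]
    intro k
    rw [ae_all_iff]
    intro k'
    rw [ae_all_iff]
    intro s
    by_cases hl : lft t0 n (k s) ≤ lft t0 n' (k' s)
    · filter_upwards [hM n n' k k' s hl] with g hg _
      exact hg
    · exact Eventually.of_forall fun g h => absurd h hl
  have hL' : ∀ᵐ g ∂P, ∀ n k s, g ∈ E n k → lft t0 n (k s) ≤ Λ n k g s :=
    ae_all_iff.2 fun n => ae_all_iff.2 fun k => ae_all_iff.2 fun s => hL n k s
  filter_upwards [hW, hM', hL', ae_all_iff.2 hg] with g g1 g2 g4 g3 hF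
  exact nul_det (t0 := t0) (mm := mm) (a := a g) (E := fun n k => g ∈ E n k) (Λ := fun n k => Λ n k g) hmm (g1 hF)
    (fun n k s h1 => g4 n k s h1) (fun n n' k k' s h1 h2 h3 => g2 n n' k k' s h3 h1 h2) (fun n k s _ => (g3 s n k).1)
    fun n1 k1 s _ => (g3 s n1 k1).2

end ae

end Pool.Agent.ROT.F3.Nul
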