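import Pool.Agent.ROT.F3K3A

/-!
# ROT, block F3, row NUL (U) (helper68): the statistic of a class moves little with the soft numbers of the class

* `TNr`, `WNr`, `DNr δ D D'` : same directions and cosines, the other numbers of the soft conditions and of the balls differ by at most `δ`;
* **`clsF_near`** : the statistic of the class `D'` is at most the one of `D` plus `δ`; `nrF_near` : the same for the strips;
* **`k3_near`** : if the limit class `D` occurs at `g`, with strict inequalities, and the marks of the classes `Dj j` converge to the marks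
  of `D`, all the classes near `D` occur at `g`.
-/

set_option autoImplicit false

namespace Pool.Agent.ROT.F3.CK

open MeasureTheory Filter Topology Set unitInterval

open scoped NNReal ENNReal Classical

open Pool.Agent.ROT.F3 Pool.Agent.ROT.F3.LF

/-! ### 1. Near numbers -/

section nr

lemma nr_max {a b a' b' δ : ℝ} (h1 : |a - a'| ≤ δ) (h2 : |b - b'| ≤ δ) : |max a b - max a' b'| ≤ δ :=
  (abs_max_sub_max_le_max a b a' b').trans (max_le h1 h2)

/-- one side -/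
lemma nr_le {a a' δ : ℝ} (h : |a - a'| ≤ δ) : a' ≤ a + δ := by linarith [(abs_le.1 h).1]

/-- one side of a maximum -/
lemma nr_maxL {a b a' b' δ : ℝ} (h1 : a' ≤ a + δ) (h2 : b' ≤ b + δ) : max a' b' ≤ max a b + δ :=
  max_le (h1.trans (add_le_add_left (le_max_left _ _) _)) (h2.trans (add_le_add_left (le_max_right _ _) _))

lemma nr_min {a b a' b' δ : ℝ} (h1 : |a - a'| ≤ δ) (h2 : |b - b'| ≤ δ) : |min a b - min a' b'| ≤ δ :=
  (abs_min_sub_min_le_max a b a' b').trans (max_le h1 h2)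

lemma nr_stS {f f' : ℂ → ℝ} (hf : Continuous f) (hf' : Continuous f') {δ : ℝ} (h : ∀ v, |f v - f' v| ≤ δ) (c : C(I, ℂ)) :
    |stS f c - stS f' c| ≤ δ := by
  rw [abs_le]
  constructor
  · have : stS f' c ≤ stS f c + δ := (stS_le_iff hf' c).2 fun s => by
      have h1 := abs_le.1 (h (c s))
      have h2 := le_stS hf c s
      linarith [h1.1]
    linarith
  · have : stS f c ≤ stS f' c + δ := (stS_le_iff hf c).2 fun s => by
      have h1 := abs_le.1 (h (c s))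
      have h2 := le_stS hf' c s
      linarith [h1.2]
    linarith

lemma nr_stN_le {f f' k k' : ℂ → ℝ} (hf : Continuous f) (hf' : Continuous f') (hk : Continuous k) (hk' : Continuous k') {δ : ℝ}
    (h : ∀ v, f v ≤ f' v + δ) (h' : ∀ v, k v ≤ k' v + δ) (c : C(I, ℂ)) : stN f k c ≤ stN f' k' c + δ := by
  refine le_of_forall_pos_lt_add fun ε hε => ?_
  obtain ⟨τ, t1, t2⟩ := of_stN hf' hk' c (a := stN f' k' c + ε / 2) (by linarith)
  have h1 : stN f k c ≤ stN f' k' c + ε / 2 + δ := by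
    refine stN_le hf hk c τ (fun s hs => ?_) fun s hs => ?_
    · linarith [t1 s hs, h (c s)]
    · linarith [t2 s hs, h' (c s)]
  linarith

lemma nr_stN {f f' k k' : ℂ → ℝ} (hf : Continuous f) (hf' : Continuous f') (hk : Continuous k) (hk' : Continuous k') {δ : ℝ}
    (h : ∀ v, |f v - f' v| ≤ δ) (h' : ∀ v, |k v - k' v| ≤ δ) (c : C(I, ℂ)) : |stN f k c - stN f' k' c| ≤ δ := by
  have h1 := nr_stN_le hf hf' hk hk' (δ := δ) (fun v => by linarith [(abs_le.1 (h v)).2]) (fun v => by linarith [(abs_le.1 (h' v)).2]) c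
  have h2 := nr_stN_le hf' hf hk' hk (δ := δ) (fun v => by linarith [(abs_le.1 (h v)).1]) (fun v => by linarith [(abs_le.1 (h' v)).1]) c
  rw [abs_le]
  constructor <;> linarith

end nr

/-- near data of a gate: same cosines and `r0` -/
structure TNr (δ : ℝ) (P P' : Tp) : Prop where
  c : P'.c = P.c
  cs : P'.cs = P.cs
  r0 : P'.r0 = P.r0
  r : |P.r - P'.r| ≤ δ
  r2 : |P.r2 - P'.r2| ≤ δ
  e : |P.e - P'.e| ≤ δ
  κ1 : |P.κ1 - P'.κ1| ≤ δ
  κ : |P.κ - P'.κ| ≤ δ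
  w : |P.w - P'.w| ≤ δ
  κs : |P.κs - P'.κs| ≤ δ
  la : |P.la - P'.la| ≤ δ
  lb : |P.lb - P'.lb| ≤ δ

/-- near windows (`t0` may be much smaller) -/
structure WNr (δ : ℝ) (W W' : Wn) : Prop where
  D0 : |W.D0 - W'.D0| ≤ δ
  D1 : |W.D1 - W'.D1| ≤ δ
  t0 : W'.t0 ≤ W.t0 + δ
  s : W.t0 ≤ 0 ↔ W'.t0 ≤ 0
  t1 : |W.t1 - W'.t1| ≤ δ

/-- near strips -/
structure SNr (δ : ℝ) (s s' : Sr) : Prop where
  e : |s.e - s'.e| ≤ δ
  hw : |s.hw - s'.hw| ≤ δ
  len : |s.len - s'.len| ≤ δ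
  bn : |s.bn - s'.bn| ≤ δ

/-- **near classes** -/
structure DNr (δ : ℝ) (D D' : Dt) : Prop where
  P : TNr δ D.P D'.P
  Q : TNr δ D.Q D'.Q
  V : WNr δ D.V D'.V
  V' : WNr δ D.V' D'.V'
  d : D'.d = D.d
  d' : D'.d' = D.d'
  t : D'.t = D.t
  t' : D'.t' = D.t'

lemma TNr.up {δ y y' : ℝ} {P P' : Tp} (h : TNr δ P P') : TNr δ (P.up y) (P'.up y') :=
  ⟨h.c, h.cs, h.r0, h.r, h.r2, h.e, h.κ1, h.κ, h.w, h.κs, h.la, h.lb⟩

/-! ### 2. The statistics -/

section stat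

variable {δ L L' : ℝ} {P P' Q Q' : Tp} {W W' : Wn} {d d' : ℂ} {g : C(I, ℂ)} {a b c a' b' c' : I}

lemma duU_near {la la' : ℝ} (h : |la - la'| ≤ δ) : |duU la L a b - duU la' L a b| ≤ δ := by
  unfold duU
  rw [show |(b : ℝ) - a| * L - la - (|(b : ℝ) - a| * L - la') = -(la - la') by ring, abs_neg]
  exact h

lemma duL_near {t t' : ℝ} (h0 : 0 ≤ δ) (h : t' ≤ t + δ) (hs : t ≤ 0 ↔ t' ≤ 0) : duL t' L a b ≤ duL t L a b + δ := by
  unfold duL
  by_cases h1 : t ≤ 0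
  · rw [if_pos h1, if_pos (hs.1 h1)]
    linarith
  · rw [if_neg h1, if_neg fun h2 => h1 (hs.2 h2)]
    linarith

lemma preF_near (hP : P.Co) (hd : ‖d‖ = 1) (h : TNr δ P P') : |preF d P g L a b c - preF d P' g L a b c| ≤ δ := by
  have h0 : 0 ≤ δ := (abs_nonneg _).trans h.r
  unfold preF
  refine nr_max (nr_max ?_ ?_) (nr_max (duU_near h.la) (duU_near h.lb))
  · rw [h.cs, show fCo d P.cs (cutc g a b 1) + P.e - (fCo d P.cs (cutc g a b 1) + P'.e) = P.e - P'.e by ring]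
    exact h.e
  · rw [h.c, show stS (fCo d P.c) (cutc g b c) - P.κ1 - (stS (fCo d P.c) (cutc g b c) - P'.κ1) = -(P.κ1 - P'.κ1) by ring, abs_neg]
    exact h.κ1

lemma wdF_near {w w' cs κs κs' : ℝ} (c0 : 0 ≤ cs) (c1 : cs ≤ 1) (hd : ‖d‖ = 1) (hd' : ‖d'‖ = 1) (h1 : |w - w'| ≤ δ)
    (h2 : |κs - κs'| ≤ δ) : |wdF d d' w cs κs g a b - wdF d d' w' cs κs' g a b| ≤ δ := by
  unfold wdF
  refine nr_stS (fWe_lip hd hd' c0 c1).continuous (fWe_lip hd hd' c0 c1).continuous (fun v => ?_) _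
  unfold fWe
  refine nr_min ?_ ?_
  · rw [show lv d v - w - (lv d v - w') = -(w - w') by ring, abs_neg]
    exact h1
  · rw [show cs * ‖v‖ - κs - lv d' v - (cs * ‖v‖ - κs' - lv d' v) = -(κs - κs') by ring, abs_neg]
    exact h2

lemma paiF_near (hP : P.Co) (hQ : Q.Co) (hd : ‖d‖ = 1) (hd' : ‖d'‖ = 1) (h : TNr δ P P') (k : TNr δ Q Q') :
    |paiF d d' P Q g L a b c a' b' c' - paiF d d' P' Q' g L a b c a' b' c'| ≤ δ := by
  unfold paiF
  refine nr_max (nr_max (preF_near hP hd h) (preF_near hQ hd' k)) (nr_max ?_ ?_)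
  · rw [k.cs]
    exact wdF_near hQ.s0 hQ.s1 hd hd' h.w k.κs
  · rw [h.cs]
    exact wdF_near hP.s0 hP.s1 hd' hd k.w h.κs

lemma rsF_near (h : TNr δ P P') (k : TNr δ Q Q') (hW : WNr δ W W') :
    rsF d d' P' Q' W' g L a b ≤ rsF d d' P Q W g L a b + δ := by
  have h0 : 0 ≤ δ := (abs_nonneg _).trans h.r
  unfold rsF
  refine nr_maxL (nr_le (nr_max (nr_max ?_ ?_) (nr_max ?_ ?_))) (nr_maxL (duL_near h0 hW.t0 hW.s) (nr_le (duU_near hW.t1)))
  · rw [h.c, h.r0, show ∀ x : ℝ, x - P.κ - (x - P'.κ) = -(P.κ - P'.κ) from fun x => by ring, abs_neg]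
    exact h.κ
  · rw [k.c, k.r0, show ∀ x : ℝ, x - Q.κ - (x - Q'.κ) = -(Q.κ - Q'.κ) from fun x => by ring, abs_neg]
    exact k.κ
  · rw [show ∀ x : ℝ, W.D0 - x - (W'.D0 - x) = W.D0 - W'.D0 from fun x => by ring]
    exact hW.D0
  · rw [show ∀ x : ℝ, x - W.D1 - (x - W'.D1) = -(W.D1 - W'.D1) from fun x => by ring, abs_neg]
    exact hW.D1

lemma balF_near {r r2 r' r2' : ℝ} (h1 : |r - r'| ≤ δ) (h2 : |r2 - r2'| ≤ δ) : |balF r r2 g a b c - balF r' r2' g a b c| ≤ δ := by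
  unfold balF
  refine nr_max ?_ ?_
  · rw [show ∀ x : ℝ, x - r - (x - r') = -(r - r') from fun x => by ring, abs_neg]
    exact h1
  · rw [show ∀ x : ℝ, x - r2 - (x - r2') = -(r2 - r2') from fun x => by ring, abs_neg]
    exact h2

/-- **strips** -/
lemma nrF_near {s s' : Sr} (hd : ‖d‖ = 1) (h : SNr δ s s') : |nrF d s g a b - nrF d s' g a b| ≤ δ := by
  unfold nrF
  refine nr_stN (fSt_lip hd).continuous (fSt_lip hd).continuous fBn_lip.continuous fBn_lip.continuous (fun v => ?_) (fun v => ?_) _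
  · unfold fSt
    refine nr_max (nr_max ?_ ?_) ?_
    · rw [show -s.e - lv d v - (-s'.e - lv d v) = -(s.e - s'.e) by ring, abs_neg]
      exact h.e
    · rw [show lv d v - s.len - (lv d v - s'.len) = -(s.len - s'.len) by ring, abs_neg]
      exact h.len
    · rw [show |ltl d v| - s.hw - (|ltl d v| - s'.hw) = -(s.hw - s'.hw) by ring, abs_neg]
      exact h.hw
  · unfold fBn
    rw [show s.bn - ‖v‖ - (s'.bn - ‖v‖) = s.bn - s'.bn by ring]
    exact h.bn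

variable {D D' : Dt} {m : I} {u : Fin 8 → I}

/-- **the statistic of the class moves little** -/
theorem clsF_near (hD : D.Ok) (h : DNr δ D D') : clsF D' g L m u ≤ clsF D g L m u + δ := by
  have cP := (hD.P.co).up D.y
  have cP' := (hD.P.co).up D.y'
  have cQ := (hD.Q.co).up D.z
  have cQ' := (hD.Q.co).up D.z'
  unfold clsF
  rw [h.d, h.d', h.t, h.t']
  refine nr_maxL (nr_maxL (nr_maxL (nr_le ?_) (nr_le ?_)) (nr_maxL (rsF_near h.P h.Q h.V) (rsF_near h.P h.Q h.V')))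
    (nr_le (nr_max (nr_max (balF_near h.P.r h.P.r2) (balF_near h.P.r h.P.r2)) (nr_max (balF_near h.Q.r h.Q.r2) (balF_near h.Q.r h.Q.r2))))
  · exact paiF_near cP cP' hD.d hD.d' h.P.up h.P.up
  · exact paiF_near cQ cQ' hD.t hD.t' h.Q.up h.Q.up

end stat

/-! ### 3. Near classes at a point of the limit -/

/-- strict conditions on the marks are stable -/
lemma mk_stab {Φ : Fin 8 → ℝ} {H : (Fin 8 → I) → ℝ} (hH : Continuous H) {x : ℝ} (h : H (fun k => pji (Φ k)) < x) :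
    ∃ η : ℝ, 0 < η ∧ ∀ Ψ : Fin 8 → ℝ, (∀ k, |Φ k - Ψ k| ≤ η) → H (fun k => pji (Ψ k)) < x := by
  have hc : Continuous fun Ψ : Fin 8 → ℝ => H fun k => pji (Ψ k) :=
    hH.comp (continuous_pi fun k => pji_cont.comp (continuous_apply k))
  have ho : IsOpen {Ψ : Fin 8 → ℝ | H (fun k => pji (Ψ k)) < x} := isOpen_lt hc continuous_const
  obtain ⟨δ, hδ, hb⟩ := Metric.isOpen_iff.1 ho Φ h
  refine ⟨δ / 2, by positivity, fun Ψ hΨ => hb ?_⟩
  rw [Metric.mem_ball]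
  refine lt_of_le_of_lt ((dist_pi_le_iff (by positivity)).2 fun k => ?_) (show δ / 2 < δ by linarith)
  rw [Real.dist_eq, abs_sub_comm]
  exact hΨ k

section near

variable {J : Type*} {D : Dt} {Dj : J → Dt} {δ : J → ℝ} {g : CC.Gm} {B : Set CC.Gm} {Φ : CC.Gm → Fin 8 → ℝ} {Bj : J → Set CC.Gm}
  {Φj : J → CC.Gm → Fin 8 → ℝ}

/-- **the classes near a class which occurs at `g`** -/
theorem k3_near (hD : D.Ok) (hN : ∀ j, DNr (δ j) D (Dj j))
    (hm : ∀ η : ℝ, 0 < η → ∃ μ : ℝ, 0 < μ ∧ ∀ j, δ j < μ → g ∈ Bj j ∧ ∀ k, |Φ g k - Φj j g k| ≤ η) (h0 : g ∈ k3S D B Φ)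
    (h1 : clsF D g.2.2 g.1 (pji (muG g)) (fun k => pji (Φ g k)) ≠ 0) :
    ∃ μ : ℝ, 0 < μ ∧ ∀ j, δ j < μ → g ∈ k3S (Dj j) (Bj j) (Φj j) := by
  obtain ⟨-, h2⟩ := h0
  have h3 : clsF D g.2.2 g.1 (pji (muG g)) (fun k => pji (Φ g k)) ≤ 0 := (le_max_left _ _).trans h2
  have h4 : ordF (fun k => pji (Φ g k)) ≤ 0 := (le_max_right _ _).trans h2
  have h3' := lt_of_le_of_ne h3 h1
  have h4' := lt_of_le_of_ne h4 (ord_ne hD h3)
  obtain ⟨x, hx⟩ : ∃ x, x = -clsF D g.2.2 g.1 (pji (muG g)) (fun k => pji (Φ g k)) / 2 := ⟨_, rfl⟩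
  have hx0 : 0 < x := by rw [hx]; linarith
  obtain ⟨η1, k1, k2⟩ := mk_stab (Φ := Φ g) (H := fun u => clsF D g.2.2 g.1 (pji (muG g)) u) (x := -x)
    (clsF_cont hD continuous_const continuous_const continuous_const fun k => continuous_apply k) (by rw [hx]; linarith)
  obtain ⟨η2, l1, l2⟩ := mk_stab (Φ := Φ g) (H := fun u => ordF u) (x := 0) (by
    unfold ordF
    have key : ∀ k : Fin 8, Continuous fun z : Fin 8 → I => ((z k : I) : ℝ) :=
      fun k => continuous_subtype_val.comp (continuous_apply k)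
    exact ((key _).sub (key _)).max ((key _).sub (key _))) h4'
  obtain ⟨μ, m1, m2⟩ := hm (min η1 η2) (lt_min k1 l1)
  refine ⟨min μ x, lt_min m1 hx0, fun j hj => ?_⟩
  obtain ⟨n1, n2⟩ := m2 j (hj.trans_le (min_le_left _ _))
  have hj2 := hj.trans_le (min_le_right _ _)
  refine ⟨n1, ?_⟩
  have e1 := k2 (Φj j g) fun k => (n2 k).trans (min_le_left _ _)
  have e2 := l2 (Φj j g) fun k => (n2 k).trans (min_le_right _ _)
  have e3 := clsF_near (g := g.2.2) (L := g.1) (m := pji (muG g)) (u := fun k => pji (Φj j g k)) hD (hN j)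
  show max (clsF (Dj j) g.2.2 g.1 (pji (muG g)) fun k => pji (Φj j g k)) (ordF fun k => pji (Φj j g k)) ≤ 0
  refine max_le ?_ e2.le
  linarith

/-- **the same for the strips of the main arcs** -/
theorem nr_near {d t : ℂ} (hd : ‖d‖ = 1) (ht : ‖t‖ = 1) {s s' : Sr} {sj sj' : J → Sr} (hs : ∀ j, SNr (δ j) s (sj j))
    (hs' : ∀ j, SNr (δ j) s' (sj' j))
    (hm : ∀ η : ℝ, 0 < η → ∃ μ : ℝ, 0 < μ ∧ ∀ j, δ j < μ → ∀ k, |Φ g k - Φj j g k| ≤ η)
    (h0 : max (nrF d s g.2.2 (pji (Φ g 1)) (pji (Φ g 2))) (nrF t s' g.2.2 (pji (Φ g 2)) (pji (Φ g 1))) ≤ 0)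
    (h1 : max (nrF d s g.2.2 (pji (Φ g 1)) (pji (Φ g 2))) (nrF t s' g.2.2 (pji (Φ g 2)) (pji (Φ g 1))) ≠ 0) :
    ∃ μ : ℝ, 0 < μ ∧ ∀ j, δ j < μ →
      max (nrF d (sj j) g.2.2 (pji (Φj j g 1)) (pji (Φj j g 2))) (nrF t (sj' j) g.2.2 (pji (Φj j g 2)) (pji (Φj j g 1))) ≤ 0 := by
  have h3' := lt_of_le_of_ne h0 h1
  obtain ⟨x, hx⟩ : ∃ x, x = -max (nrF d s g.2.2 (pji (Φ g 1)) (pji (Φ g 2))) (nrF t s' g.2.2 (pji (Φ g 2)) (pji (Φ g 1))) / 2 :=
    ⟨_, rfl⟩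
  have hx0 : 0 < x := by rw [hx]; linarith
  obtain ⟨η1, k1, k2⟩ := mk_stab (Φ := Φ g) (H := fun u => max (nrF d s g.2.2 (u 1) (u 2)) (nrF t s' g.2.2 (u 2) (u 1))) (x := -x)
    ((Continuous.nrF s hd continuous_const (continuous_apply 1) (continuous_apply 2)).max
      (Continuous.nrF s' ht continuous_const (continuous_apply 2) (continuous_apply 1))) (by rw [hx]; linarith)
  obtain ⟨μ, m1, m2⟩ := hm η1 k1
  refine ⟨min μ x, lt_min m1 hx0, fun j hj => ?_⟩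
  have e1 := k2 (Φj j g) (m2 j (hj.trans_le (min_le_left _ _)))
  have hj2 := hj.trans_le (min_le_right _ _)
  have e3 := abs_le.1 (nr_max (nrF_near (g := g.2.2) (a := pji (Φj j g 1)) (b := pji (Φj j g 2)) hd (hs j))
    (nrF_near (g := g.2.2) (a := pji (Φj j g 2)) (b := pji (Φj j g 1)) ht (hs' j)))
  linarith [e3.1]

end near

end Pool.Agent.ROT.F3.CK
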