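import Pool.Agent.ROT.F3GtT
import Pool.Agent.ROT.F3NulU

/-!
# ROT, block F3, row NUL (U), one strand (helper68): a strand with stable gates has the gates of all near classes

`G`, base `p` : the gates of the functional class of the strand; `G'`, base `p'`, data `P'` : a near class, with its own auxiliary radii.

* `GP.at G P'` : the thresholds of `P'` and the auxiliary radii of `G`;
* **`sg_near`** : the strand has gates `G`, stable, with slack in the two balls and in the condition of the cut of the block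
  ==> it has the gates `G'`, close to the gates `G`.
-/

set_option autoImplicit false

open Set Filter Topology MeasureTheory

namespace Pool.Agent.ROT.F3

open Pool.Agent.NTS.Res
open Pool.Agent.SCF.Z Pool.Agent.SCF.M

/-- the thresholds of `P'`, the auxiliary radii of `G` -/
def GP.at (G : GP) (P' : Tp) : GP := { G with l := P'.l, m := P'.m, h := P'.th * P'.m, ρ' := P'.rg }

section det

variable {T : LSym} {d : ℂ} {u v : W3} {G G' : GP} {P' : Tp} {p p' S r r2 κ μ μ2 μ3 ω ω1 η η1 : ℝ} {c x y : ℕ}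

/-- moving the base of a size -/
lemma dv_move {n : ℕ} {s : Fin n → Fin 3} {c c' : ℕ} {m m' : ℝ} (hS : 0 < S) (hc : ‖pos s c - pos s c'‖ ≤ ω * S)
    (hm : |m' - m| + ω ≤ μ) : ∃ m'' : ℝ, |m'' - m| ≤ μ ∧ ∀ j, Dv s (pos s c).re (m'' * S) j ↔ Dv s (pos s c').re (m' * S) j := by
  refine ⟨m' + ((pos s c').re - (pos s c).re) / S, ?_, fun j => ?_⟩
  · have e1 : |((pos s c').re - (pos s c).re) / S| ≤ ω := by
      rw [abs_div, abs_of_pos hS, div_le_iff₀ hS, ← Complex.sub_re]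
      refine (Complex.abs_re_le_norm _).trans ?_
      rw [norm_sub_rev]
      exact hc
    have e2 := abs_le.1 e1
    have e3 := abs_le.1 (le_refl |m' - m|)
    rw [abs_le]
    constructor <;> linarith
  · unfold Dv
    have e : (m' + ((pos s c').re - (pos s c).re) / S) * S = m' * S + ((pos s c').re - (pos s c).re) := by
      field_simp
    rw [e]
    constructor <;> intro h3 <;> linarith

/-- **one strand** : `η1`, `ω1` = stability of the gate `c`, much smaller than `η`, `ω` -/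
theorem sg_near (hT : T.L d = 1) (hv : v = mp T u) (hu : SW u) (hP' : P'.Ok) (hG' : G'.Ok P') (hI : (G.at P').Ok P')
    (hp' : 0 ≤ p') (hS : 0 < S) (h1 : 1 ≤ G'.ρ1 * S) (h2 : 1 ≤ G'.ρ'' * S) (k1 : 1 ≤ G.ρ1 * S) (k2 : 1 ≤ G.ρ'' * S)
    (hω : 0 ≤ ω) (hη : η1 ≤ η) (n1 : |(P'.l + p') - (G.l + p)| ≤ μ) (n2 : |P'.m - G.m| + ω1 ≤ μ2)
    (n3 : |P'.rg - G.ρ'| ≤ μ2) (n4 : |P'.th * P'.m - G.h| + ω1 ≤ μ3) (hμ2 : 0 ≤ μ2) (hμ3 : 0 ≤ μ3)
    (s1 : GStab (Dv v.get (p * S)) S G.l G.r1 G.ρ1 μ η1 v.get)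
    (s2 : ∀ c, TP (Dv v.get (p * S)) (G.l * S) (G.r1 * S) (G.ρ1 * S) v.get c →
      GStab (Dv v.get (pos v.get c).re) S G.m G.r1' G.ρ' μ2 η v.get)
    (s3 : ∀ c, TP (Dv v.get (p * S)) (G.l * S) (G.r1 * S) (G.ρ1 * S) v.get c →
      GStab (Dv v.get (pos v.get c).re) S G.h G.r1'' G.ρ'' μ3 η v.get)
    (md1 : MdS η1 (ω1 * S) v.get) (md : MdS η (ω * S) v.get) (hκ : 2 * ω + |P'.m - G.m| < κ) (hr : r - κ + ω ≤ P'.r) (hr2 : r2 - κ + 2 * ω ≤ P'.r2)
    (h : SGt G p S v.get c x y) (b1 : ∀ j : ℕ, j ≤ c → ‖ps u j‖ ≤ (r - κ) * S)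
    (b2 : ∀ j : ℕ, c ≤ j → j ≤ x → ‖ps u j - ps u c‖ ≤ (r2 - κ) * S)
    (lt : (pos v.get y).re ≤ (pos v.get c).re + (G.m - κ) * S) (hm : 0 < G.m) :
    ∃ c' x' y' : ℕ, SGt G' p' S v.get c' x' y' ∧ |(c : ℝ) / v.length - (c' : ℝ) / v.length| ≤ η ∧
      |(x : ℝ) / v.length - (x' : ℝ) / v.length| ≤ η := by
  obtain ⟨⟨gc, gx⟩, gy, -⟩ := h
  have hlen : v.length = u.length := by rw [hv, mp_length]
  -- the gate c
  have hμ : 0 ≤ μ := (abs_nonneg _).trans n1
  obtain ⟨c', c1, c20⟩ := (s1 (P'.l + p' - p) G.r1 G.ρ1 (by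
    rw [show P'.l + p' - p - G.l = (P'.l + p') - (G.l + p) by ring]
    exact n1) (by simpa using hμ) (by simpa using hμ)).1 c gc
  have c3 : TP (Dv v.get (p' * S)) (P'.l * S) (G.r1 * S) (G.ρ1 * S) v.get c' := by
    refine (tp_congr fun j => ?_).1 c1
    unfold Dv
    rw [show (P'.l + p' - p) * S + p * S = P'.l * S + p' * S by ring]
  have c2 := c20.trans hη
  have cn : c < v.length := gc.2.1
  have cn' : c' < v.length := c1.2.1
  have cc := md.2 c c' cn.le cn'.le c2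
  have cc1 := md1.2 c c' cn.le cn'.le c20
  -- the gate x
  obtain ⟨m1, m2, m3⟩ := dv_move (s := v.get) hS cc1 n2
  obtain ⟨x', x1, x2⟩ := (s2 c gc m1 G.r1' P'.rg m2 (by simpa using hμ2) n3).1 x gx
  have x3 : TP (Dv v.get (pos v.get c').re) (P'.m * S) (G.r1' * S) (P'.rg * S) v.get x' := (tp_congr m3).1 x1
  -- the gate y
  obtain ⟨l1, l2, l3⟩ := dv_move (s := v.get) hS cc1 n4
  obtain ⟨y', y1, y2⟩ := (s3 c gc l1 G.r1'' G.ρ'' l2 (by simpa using hμ3) (by simpa using hμ3)).1 y gy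
  have y3 : TP (Dv v.get (pos v.get c').re) (P'.th * P'.m * S) (G.r1'' * S) (G.ρ'' * S) v.get y' := (tp_congr l3).1 y1
  have xn : x < v.length := gx.2.1
  have xn' : x' < v.length := x1.2.1
  have yn : y < v.length := gy.2.1
  have yn' : y' < v.length := y1.2.1
  have yy := md.2 y y' yn.le yn'.le y2
  have xx := md.2 x x' xn.le xn'.le x2
  have re_le : ∀ {a b : ℂ} {z : ℝ}, ‖a - b‖ ≤ z → a.re ≤ b.re + z ∧ b.re ≤ a.re + z := by
    intro a b z hz
    have h3 := (Complex.abs_re_le_norm (a - b)).trans hz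
    rw [Complex.sub_re] at h3
    have h4 := abs_le.1 h3
    constructor <;> linarith
  have lt' : (pos v.get y').re < (pos v.get c').re + P'.m * S := by
    have e1 := (re_le yy).2
    have e2 := (re_le cc).1
    have e3 := (abs_le.1 (le_refl |P'.m - G.m|)).1
    have e4 : (2 * ω + (G.m - κ)) * S < P'.m * S := mul_lt_mul_of_pos_right (by linarith) hS
    linarith
  have hI' : SGt (G.at P') p' S v.get c' x' y' := ⟨⟨c3, x3⟩, y3, lt'⟩
  -- the balls
  have hvn : (0 : ℝ) < v.length := by exact_mod_cast (by omega : 0 < v.length)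
  have pos_ps : ∀ i j, ‖pos v.get i - pos v.get j‖ = ‖ps u i - ps u j‖ := fun i j => gt_norm hv i j
  have near : ∀ {i j k k' : ℕ}, |(k : ℝ) / v.length - (k' : ℝ) / v.length| ≤ η → (k ≤ i ∧ i ≤ k' ∨ k' ≤ i ∧ i ≤ k) → j = k →
      i ≤ v.length → j ≤ v.length → ‖ps u i - ps u j‖ ≤ ω * S := by
    intro i j k k' h3 h4 h5 h6 h7
    rw [← pos_ps]
    subst h5
    refine md.2 i j h6 h7 ?_
    refine le_trans ?_ h3
    rw [← sub_div, ← sub_div, abs_div, abs_div]
    refine div_le_div_of_nonneg_right ?_ (abs_nonneg _)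
    rcases h4 with ⟨h4, h5⟩ | ⟨h4, h5⟩
    · have e1 : (j : ℝ) ≤ i := by exact_mod_cast h4
      have e2 : (i : ℝ) ≤ k' := by exact_mod_cast h5
      rw [abs_of_nonneg (by linarith), abs_sub_comm, abs_of_nonneg (by linarith)]
      linarith
    · have e1 : (k' : ℝ) ≤ i := by exact_mod_cast h4
      have e2 : (i : ℝ) ≤ j := by exact_mod_cast h5
      rw [abs_sub_comm, abs_of_nonneg (by linarith), abs_of_nonneg (by linarith)]
      linarith
  have hm' : 0 < (G.at P').m * S := mul_pos hP'.m hS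
  obtain ⟨o1, o2⟩ := hI'.order hm'
  have q1 : ∀ j : ℕ, j ≤ c' → ‖ps u j‖ ≤ P'.r * S := by
    intro j hj
    rcases le_or_gt j c with h3 | h3
    · refine (b1 j h3).trans (mul_le_mul_of_nonneg_right (by linarith) hS.le)
    · have e1 := near (i := j) (j := c) c2 (Or.inl ⟨h3.le, hj⟩) rfl (by omega) cn.le
      have e2 := b1 c le_rfl
      calc ‖ps u j‖ = ‖(ps u j - ps u c) + ps u c‖ := by rw [sub_add_cancel]
        _ ≤ ω * S + (r - κ) * S := (norm_add_le _ _).trans (add_le_add e1 e2)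
        _ = (r - κ + ω) * S := by ring
        _ ≤ P'.r * S := mul_le_mul_of_nonneg_right hr hS.le
  have cc' : ‖ps u c - ps u c'‖ ≤ ω * S := by rw [← pos_ps]; exact cc
  have q2 : ∀ j : ℕ, c' ≤ j → j ≤ x' → ‖ps u j - ps u c'‖ ≤ P'.r2 * S := by
    intro j hj hj'
    have key : ∃ i, c ≤ i ∧ i ≤ x ∧ ‖ps u j - ps u i‖ ≤ ω * S := by
      have hcx : c ≤ x := by
        by_contra hc
        have e1 := gc.1.2.1 x (not_le.1 hc).le
        have e2 : G.m * S + (pos v.get c).re ≤ (pos v.get x).re := gx.1.2.2.2.1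
        have e3 := mul_pos hm hS
        linarith
      rcases lt_or_ge j c with h3 | h3
      · refine ⟨c, le_rfl, hcx, near c2 (Or.inr ⟨hj, h3.le⟩) rfl (by omega) cn.le⟩
      · rcases le_or_gt j x with h4 | h4
        · exact ⟨j, h3, h4, by rw [sub_self, norm_zero]; positivity⟩
        · exact ⟨x, hcx, le_rfl, near x2 (Or.inl ⟨h4.le, hj'⟩) rfl (by omega) xn.le⟩
    obtain ⟨i, i1, i2, i3⟩ := key
    have i4 := b2 i i1 i2
    calc ‖ps u j - ps u c'‖ = ‖(ps u j - ps u i) + ((ps u i - ps u c) + (ps u c - ps u c'))‖ := by congr 1; ring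
      _ ≤ ω * S + ((r2 - κ) * S + ω * S) := (norm_add_le _ _).trans (add_le_add i3 ((norm_add_le _ _).trans (add_le_add i4 cc')))
      _ = (r2 - κ + 2 * ω) * S := by ring
      _ ≤ P'.r2 * S := mul_le_mul_of_nonneg_right hr2 hS.le
  rw [hlen] at o2
  have f1 := (strand_iff hT hv hu hP' hI hp' hS k1 k2 o1.le o2).2 ⟨⟨y', hI'⟩, q1, q2⟩
  obtain ⟨⟨z, f2⟩, -⟩ := (strand_iff hT hv hu hP' hG' hp' hS h1 h2 o1.le o2).1 f1
  exact ⟨c', x', z, f2, c2, x2⟩

end det

end Pool.Agent.ROT.F3
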