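import Pool.Agent.ROT.F3NulT
import Pool.Agent.ROT.F3NulY
import Pool.Agent.ROT.F3NulS
import Pool.Agent.ROT.F3GtK
import Pool.Agent.ROT.F3K2F

/-!
# ROT, block F3, row NUL (U), systems (helper68): the gates of all near classes, one strand

* `TpN μ P P'` : the numbers of the gates and of the balls differ by at most `μ`;
* `ArmH`, `ArmN` : the strand has gates with slack in the balls and in the cut of the block; it has the gates of all near classes;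
* **`arm_ev`** : off a small mass, `ArmH` implies `ArmN`, for all near classes at once.
-/

set_option autoImplicit false
set_option linter.unusedSectionVars false

open Set Filter Topology MeasureTheory unitInterval

open scoped NNReal ENNReal

namespace Pool.Agent.ROT.F3.CK

open Pool.Agent.NTS.Res (step pos saw)
open Pool.Agent.SCF.Z Pool.Agent.SCF.M
open Pool.Agent.ROT.F3 Pool.Agent.ROT.F3.LF

/-- near numbers of the gates and of the balls -/
structure TpN (μ : ℝ) (P P' : Tp) : Prop where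
  m : |P'.m - P.m| ≤ μ
  rg : |P'.rg - P.rg| ≤ μ
  h : |P'.th * P'.m - P.th * P.m| ≤ μ
  r : P.r - μ ≤ P'.r
  r2 : P.r2 - μ ≤ P'.r2

lemma TpN.mono {μ μ' : ℝ} {P P' : Tp} (h : TpN μ P P') (hμ : μ ≤ μ') : TpN μ' P P' :=
  ⟨h.m.trans hμ, h.rg.trans hμ, h.h.trans hμ, by linarith [h.r], by linarith [h.r2]⟩

/-- the arcs of a closed word are self-avoiding -/
lemma sw_arc {w : W3} {m : ℕ} (hw : Cl w) (em : Even m) (hm : m < w.length) (m0 : 0 < m) (k : Arm) : SW (arcw m k w) := by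
  obtain ⟨a1, a2, a3, a4⟩ := arcw_pcw (w := w) hm.le
  cases k
  · rw [a1, pcw_of_le (Nat.zero_le _)]
    exact hw.seg Even.zero (Nat.zero_le _) hm.le (Or.inr hm)
  · rw [a2, pcw_of_ge (Nat.zero_le _)]
    exact hw.seg_reverse Even.zero em (Nat.zero_le _) hm.le (Or.inr hm)
  · rw [a3, pcw_of_le hm.le]
    exact hw.seg em hm.le le_rfl (Or.inl m0)
  · rw [a4, pcw_of_ge hm.le]
    exact hw.seg_reverse em hw.1 hm.le le_rfl (Or.inl m0)

/-- **the strand has gates with slack** `κ` in the two balls and in the level of the cut of the block -/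
structure ArmH (G : GP) (P : Tp) (T : LSym) (k : Arm) (κ p : ℝ) (N : ℕ) (x : W3 × ℕ) : Prop where
  e : sgE G T p N k x
  b1 : ∀ j : ℕ, j ≤ sgc G T p N k x → ‖ps (arcw x.2 k x.1) j‖ ≤ (P.r - κ) * N
  b2 : ∀ j : ℕ, sgc G T p N k x ≤ j → j ≤ sgx G T p N k x →
    ‖ps (arcw x.2 k x.1) j - ps (arcw x.2 k x.1) (sgc G T p N k x)‖ ≤ (P.r2 - κ) * N
  lt : ∀ y : ℕ, SGt G p N (aW k T x).get (sgc G T p N k x) (sgx G T p N k x) y →
    (pos (aW k T x).get y).re ≤ (pos (aW k T x).get (sgc G T p N k x)).re + (G.m - κ) * N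

/-- **the strand has the gates of all near classes**, with near times -/
def ArmN (G : GP) (P : Tp) (T : LSym) (k : Arm) (μ η p : ℝ) (N : ℕ) (x : W3 × ℕ) : Prop :=
  ∀ (P' : Tp) (G' : GP) (p' : ℝ), P'.Ok → G'.Ok P' → (G.at P').Ok P' → 0 ≤ p' → TpN μ P P' → |(P'.l + p') - (G.l + p)| ≤ μ →
    sgE G' T p' N k x ∧
      |(sgc G T p N k x : ℝ) / (arcw x.2 k x.1).length - (sgc G' T p' N k x : ℝ) / (arcw x.2 k x.1).length| ≤ η ∧
      |(sgx G T p N k x : ℝ) / (arcw x.2 k x.1).length - (sgx G' T p' N k x : ℝ) / (arcw x.2 k x.1).length| ≤ η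

/-- one word -/
lemma arm_word {T : LSym} {d : ℂ} {G : GP} {P : Tp} {k : Arm} {x : W3 × ℕ} {N : ℕ} {p κ μ μ1 μ2 μ3 ω ω1 η η1 : ℝ} (hT : T.L d = 1)
    (hx : Spt x) (m0 : 0 < x.2) (hP : P.Ok) (hG : G.Ok P) (hN : 0 < N) (kN : 1 ≤ P.r2 / 2 * N)
    (hω : 0 ≤ ω) (hη : η1 ≤ η) (h1 : μ ≤ μ1) (h2 : μ + ω1 ≤ μ2) (h3 : μ + ω1 ≤ μ3) (hω1 : 0 ≤ ω1) (hμ2 : 0 ≤ μ2) (hμ3 : 0 ≤ μ3)
    (hr2 : μ ≤ P.r2 / 2) (hκ : 2 * ω + μ < κ)
    (s1 : GStab (Dv (aW k T x).get (p * N)) N G.l G.r1 G.ρ1 μ1 η1 (aW k T x).get)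
    (s2 : ∀ c, TP (Dv (aW k T x).get (p * N)) (G.l * N) (G.r1 * N) (G.ρ1 * N) (aW k T x).get c →
      GStab (Dv (aW k T x).get (pos (aW k T x).get c).re) N G.m G.r1' G.ρ' μ2 η (aW k T x).get)
    (s3 : ∀ c, TP (Dv (aW k T x).get (p * N)) (G.l * N) (G.r1 * N) (G.ρ1 * N) (aW k T x).get c →
      GStab (Dv (aW k T x).get (pos (aW k T x).get c).re) N G.h G.r1'' G.ρ'' μ3 η (aW k T x).get)
    (md1 : MdS η1 (ω1 * N) (aW k T x).get) (md : MdS η (ω * N) (aW k T x).get) (h : ArmH G P T k κ p N x) :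
    ArmN G P T k μ η p N x := by
  intro P' G' p' hP' hG' hI hp' hn hl
  obtain ⟨hw, em, hm⟩ := hx
  have hN0 : (0 : ℝ) < N := by exact_mod_cast hN
  obtain ⟨y, hy⟩ := sg_spec h.e
  have g2 : P.r2 / 2 ≤ P'.r2 := by linarith [hn.r2]
  have big : ∀ {z : ℝ}, P.r2 / 2 ≤ z → 1 ≤ z * N := fun hz => kN.trans (mul_le_mul_of_nonneg_right hz hN0.le)
  have q1 := hP.r2
  have hρ1 : 1 ≤ G.ρ1 * N := big (by linarith [hG.ρ1])
  have hρ2 : 1 ≤ G.ρ'' * N := big (by linarith [hG.r1'', hG.u3])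
  have hρ1' : 1 ≤ G'.ρ1 * N := big (g2.trans hG'.ρ1)
  have hρ2' : 1 ≤ G'.ρ'' * N := big (by linarith [hG'.r1'', hG'.u3, hP'.r2])
  obtain ⟨c', x', y', e1, e2, e3⟩ := sg_near (T := T) (d := d) (u := arcw x.2 k x.1) (v := aW k T x) (G := G) (G' := G') (P' := P')
    (p := p) (p' := p') (S := N) (r := P.r) (r2 := P.r2) (κ := κ) (μ := μ1) (μ2 := μ2) (μ3 := μ3) (ω := ω) (ω1 := ω1) (η := η)
    (η1 := η1) (c := sgc G T p N k x) (x := sgx G T p N k x) (y := y) hT (aW_eq k T x) (sw_arc hw em hm m0 k) hP' hG' hI hp' hN0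
    hρ1' hρ2' hρ1 hρ2 hω hη (hl.trans h1) (by rw [hG.m]; linarith [hn.m]) (by rw [hG.ρ']; linarith [hn.rg])
    (by rw [hG.h]; linarith [hn.h]) hμ2 hμ3 s1 s2 s3 md1 md (by rw [hG.m]; linarith [hn.m]) (by linarith [hn.r])
    (by linarith [hn.r2]) hy h.b1 h.b2 (h.lt y hy) (by rw [hG.m]; exact hP.m)
  obtain ⟨k1, k2, k3⟩ := sg_eq (T := T) (x := x) (k := k) hG' hN0.le (c := c') (b := x') (y := y') e1
  refine ⟨k1, ?_, ?_⟩
  · rw [k2, ← aW_len k T x]
    exact e2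
  · rw [k3, ← aW_len k T x]
    exact e3

/-- **the gates of all near classes, one strand** -/
theorem arm_ev {U : Ultrafilter ℕ} {b : ℝ} {S : ℕ → ℝ} {c0 R R2 R3 : ℝ} {k : Arm} {T : LSym} {y : ℕ → W3 × ℕ → ℝ} {G : GP} {P : Tp}
    {d : ℂ} (hf : ∀ N, IsFiniteMeasure (mwE N b)) (hU : (U : Filter ℕ) ≤ atTop) (hS : ∀ᶠ N : ℕ in U, S N = N)
    (ws : WSys (U : Filter ℕ) (fun N => mwE N b) (fun _ x => (aW k T x).length) (fun _ x => (aW k T x).get) S)
    (g1 : Gt1 (U : Filter ℕ) (fun N => mwE N b) cN (fun _ x => (aW k T x).length) (fun _ x => (aW k T x).get) S R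
      G.l G.r1 G.ρ1 y (zN c0))
    (g2 : Gt2 (U : Filter ℕ) (fun N => mwE N b) cN (fun _ x => (aW k T x).length) (fun _ x => (aW k T x).get) S R R2
      G.l G.r1 G.ρ1 G.m G.r1' G.ρ' y (zN c0))
    (g3 : Gt2 (U : Filter ℕ) (fun N => mwE N b) cN (fun _ x => (aW k T x).length) (fun _ x => (aW k T x).get) S R R3
      G.l G.r1 G.ρ1 G.h G.r1'' G.ρ'' y (zN c0))
    (hP : P.Ok) (hG : G.Ok P) (hR : 0 < R) (hr : G.r1 ≤ 2 * R) (hT : T.L d = 1) {κ η ε : ℝ} (hκ : 0 < κ) (hη : 0 < η) (hε : 0 < ε) :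
    ∃ μ : ℝ, 0 < μ ∧ ∀ᶠ N in (U : Filter ℕ), (mwE N b).real {x | ¬ (Spt x → 0 < x.2 → ArmH G P T k κ (y N x) N x →
      ArmN G P T k μ η (y N x) N x)} ≤ ε := by
  have q1 := hP.r2
  obtain ⟨ηm, m0, m1⟩ := ws.md (κ / 8) (by positivity) (ε / 5) (by positivity)
  obtain ⟨η', hη'⟩ : ∃ η', η' = min η ηm := ⟨_, rfl⟩
  have e0 : 0 < η' := by rw [hη']; exact lt_min hη m0
  have e1 : η' ≤ η := by rw [hη']; exact min_le_left _ _
  have e2 : η' ≤ ηm := by rw [hη']; exact min_le_right _ _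
  obtain ⟨μ2, a0, a1⟩ := g2.st η' e0 (ε / 5) (by positivity)
  obtain ⟨μ3, b0, b1⟩ := g3.st η' e0 (ε / 5) (by positivity)
  obtain ⟨ω1, hω1⟩ : ∃ ω1, ω1 = min μ2 μ3 / 2 := ⟨_, rfl⟩
  have w0 : 0 < ω1 := by
    rw [hω1]
    have := lt_min a0 b0
    linarith
  have w2 : 2 * ω1 ≤ μ2 := by rw [hω1]; linarith [min_le_left μ2 μ3]
  have w3 : 2 * ω1 ≤ μ3 := by rw [hω1]; linarith [min_le_right μ2 μ3]
  obtain ⟨ηn, n0, n1⟩ := ws.md ω1 w0 (ε / 5) (by positivity)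
  obtain ⟨η1, hη1⟩ : ∃ η1, η1 = min ηn η' := ⟨_, rfl⟩
  have f0 : 0 < η1 := by rw [hη1]; exact lt_min n0 e0
  have f1 : η1 ≤ ηn := by rw [hη1]; exact min_le_left _ _
  have f2 : η1 ≤ η' := by rw [hη1]; exact min_le_right _ _
  obtain ⟨μ1, c0', c1⟩ := g1.st η1 f0 (ε / 5) (by positivity)
  obtain ⟨μ, hμ⟩ : ∃ μ, μ = min (min μ1 ω1) (min (κ / 8) (P.r2 / 2)) := ⟨_, rfl⟩
  have u0 : 0 < μ := by
    rw [hμ]
    exact lt_min (lt_min c0' w0) (lt_min (by positivity) (by positivity))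
  have u1 : μ ≤ μ1 := by rw [hμ]; exact (min_le_left _ _).trans (min_le_left _ _)
  have u2 : μ ≤ ω1 := by rw [hμ]; exact (min_le_left _ _).trans (min_le_right _ _)
  have u3 : μ ≤ κ / 8 := by rw [hμ]; exact (min_le_right _ _).trans (min_le_left _ _)
  have u4 : μ ≤ P.r2 / 2 := by rw [hμ]; exact (min_le_right _ _).trans (min_le_right _ _)
  refine ⟨μ, u0, ?_⟩
  have tN : Tendsto (fun N : ℕ => P.r2 / 2 * (N : ℝ)) (U : Filter ℕ) atTop :=
    (tendsto_natCast_atTop_atTop.const_mul_atTop (by positivity)).mono_left hU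
  filter_upwards [m1, a1 μ2 le_rfl, b1 μ3 le_rfl, n1, c1 μ1 le_rfl, hS, hU (eventually_ge_atTop 1),
    tN.eventually_ge_atTop 1] with N z1 z2 z3 z4 z5 z6 z7 z8
  have := hf N
  have hN0 : (0 : ℝ) < N := by exact_mod_cast z7
  rw [z6] at z1 z2 z3 z4 z5
  have md_mono : ∀ {η η' B : ℝ} {n : ℕ} {s : Fin n → Fin 3}, MdS η B s → η' ≤ η → MdS η' B s := fun h h' =>
    ⟨h.1, fun i j hi hj hij => h.2 i j hi hj (hij.trans h')⟩
  refine (measureReal_mono (s₂ := {x | ¬ MdS ηm (κ / 8 * N) (aW k T x).get} ∪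
    ({x | ¬ GStab (Dv (aW k T x).get (nlv R G.l G.r1 G.ρ1 N (y N x) 1 (aW k T x).get * N)) N G.m G.r1' G.ρ' μ2 η' (aW k T x).get} ∪
    ({x | ¬ GStab (Dv (aW k T x).get (nlv R G.l G.r1 G.ρ1 N (y N x) 1 (aW k T x).get * N)) N G.h G.r1'' G.ρ'' μ3 η' (aW k T x).get} ∪
    ({x | ¬ MdS ηn (ω1 * N) (aW k T x).get} ∪ {x | ¬ GStab (Dv (aW k T x).get (y N x * N)) N G.l G.r1 G.ρ1 μ1 η1 (aW k T x).get}))))
      fun x hx => ?_).trans ((measureReal_union_le _ _).trans ?_)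
  · by_contra hcon
    simp only [mem_union, mem_ofPred_eq, not_or, not_not] at hcon
    obtain ⟨s1, s2, s3, s4, s5⟩ := hcon
    refine hx fun hspt hm0 hH => ?_
    have key := arm_word (μ := μ) (μ1 := μ1) (μ2 := μ2) (μ3 := μ3) (ω := κ / 8) (ω1 := ω1) (η := η') (η1 := η1) hT hspt hm0 hP hG z7 z8
      (by positivity) f2 u1 (by linarith) (by linarith) w0.le a0.le b0.le u4 (by linarith) s5
      (fun c hc => by rw [← nlv_Dv hR hN0 hr hG.u1 hc]; exact s2) (fun c hc => by rw [← nlv_Dv hR hN0 hr hG.u1 hc]; exact s3)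
      (md_mono s4 f1) (md_mono s1 e2) hH
    intro P' G' p' hP' hG' hI hp' hn hl
    obtain ⟨t1, t2, t3⟩ := key P' G' p' hP' hG' hI hp' hn hl
    exact ⟨t1, t2.trans e1, t3.trans e1⟩
  · refine (add_le_add z1 ((measureReal_union_le _ _).trans (add_le_add z2 ((measureReal_union_le _ _).trans
      (add_le_add z3 ((measureReal_union_le _ _).trans (add_le_add z4 z5))))))).trans (le_of_eq ?_)
    ring

/-! ### 2. The four strands -/

/-- **the statistics of the balls** of the four arms -/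
noncomputable def bal4 (D : Dt) (g : C(I, ℂ)) (m : I) (u : Fin 8 → I) : Arm → ℝ
  | .fp => balF D.P.r D.P.r2 g 0 (u 0) (u 1)
  | .bp => balF D.P.r D.P.r2 g 1 (u 7) (u 6)
  | .bq => balF D.Q.r D.Q.r2 g m (u 3) (u 2)
  | .fq => balF D.Q.r D.Q.r2 g m (u 4) (u 5)

lemma bal4_le {D : Dt} {g : C(I, ℂ)} {L : ℝ} {m : I} {u : Fin 8 → I} (k : Arm) : bal4 D g m u k ≤ clsF D g L m u := by
  have h : max (max (balF D.P.r D.P.r2 g 0 (u 0) (u 1)) (balF D.P.r D.P.r2 g 1 (u 7) (u 6)))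
      (max (balF D.Q.r D.Q.r2 g m (u 3) (u 2)) (balF D.Q.r D.Q.r2 g m (u 4) (u 5))) ≤ clsF D g L m u := le_max_right _ _
  refine le_trans ?_ h
  cases k
  · exact (le_max_left _ _).trans (le_max_left _ _)
  · exact (le_max_left _ _).trans (le_max_right _ _)
  · exact (le_max_right _ _).trans (le_max_right _ _)
  · exact (le_max_right _ _).trans (le_max_left _ _)

lemma bal4_cont {D : Dt} (k : Arm) {Z : Type*} [TopologicalSpace Z] {g : Z → C(I, ℂ)} {m : Z → I} {u : Z → Fin 8 → I}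
    (hg : Continuous g) (hm : Continuous m) (hu : ∀ k, Continuous fun z => u z k) :
    Continuous fun z => bal4 D (g z) (m z) (u z) k := by
  cases k
  · exact Continuous.balF _ _ hg continuous_const (hu 0) (hu 1)
  · exact Continuous.balF _ _ hg hm (hu 3) (hu 2)
  · exact Continuous.balF _ _ hg hm (hu 4) (hu 5)
  · exact Continuous.balF _ _ hg continuous_const (hu 7) (hu 6)

lemma balF_sub (r r2 t : ℝ) (g : C(I, ℂ)) (a b c : I) : balF (r - t) (r2 - t) g a b c = balF r r2 g a b c + t := by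
  unfold balF
  rw [← max_add_add_right]
  congr 1 <;> ring

/-- **the balls of an arm, with slack** -/
lemma arm_ball {D : Dt} {κ : ℝ} {c g : Arm → ℕ → W3 × ℕ → ℕ} {N : ℕ} {x : W3 × ℕ} (hx : Spt x) (hN : 0 < N) (h : okA c g N x)
    (hκ : 3 / (N : ℝ) ≤ κ / 2) (k : Arm)
    (hb : bal4 D (crv x.1 x.1.length N) (fr x.2 x.1.length) (fun j => fr (v8 c g N x j) x.1.length) k ≤ -κ) :
    (∀ j : ℕ, j ≤ c k N x → ‖ps (arcw x.2 k x.1) j‖ ≤ ((D.gtp k).r - κ / 2) * N) ∧ ∀ j : ℕ, c k N x ≤ j → j ≤ g k N x →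
      ‖ps (arcw x.2 k x.1) j - ps (arcw x.2 k x.1) (c k N x)‖ ≤ ((D.gtp k).r2 - κ / 2) * N := by
  have hp := v8_pos hx h
  obtain ⟨hw, em, hm⟩ := hx
  have hN0 : (0 : ℝ) < N := by exact_mod_cast hN
  have hn : 1 ≤ x.1.length := by omega
  obtain ⟨a1, a2, a3, a4⟩ := arcw_pcw (w := x.1) hm.le
  have l1 := al_fp (x := x) hm.le
  have l2 := al_bq (x := x) hm.le
  have l3 := al_fq x
  have l4 := al_bp x
  have h01 := hp.h01
  have h1 := hp.h1
  have h23 := hp.h23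
  have h3 := hp.h3
  have h4 := hp.h4
  have h45 := hp.h45
  have h5 := hp.h5
  have h6 := hp.h6
  have h67 := hp.h67
  have h7 := hp.h7
  have k0 := h .fp
  have k1 := h .bq
  have k2 := h .fq
  have k3 := h .bp
  rw [l1] at k0
  rw [l2] at k1
  rw [l3] at k2
  rw [l4] at k3
  have v0 : v8 c g N x 0 = c .fp N x := rfl
  have v1 : v8 c g N x 1 = g .fp N x := rfl
  have v2 : v8 c g N x 2 = x.2 - g .bq N x := rfl
  have v3 : v8 c g N x 3 = x.2 - c .bq N x := rfl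
  have v4 : v8 c g N x 4 = x.2 + c .fq N x := rfl
  have v5 : v8 c g N x 5 = x.2 + g .fq N x := rfl
  have v6 : v8 c g N x 6 = x.1.length - g .bp N x := rfl
  have v7 : v8 c g N x 7 = x.1.length - c .bp N x := rfl
  have sh : ∀ {r r2 : ℝ} {a b e : I}, balF r r2 (crv x.1 x.1.length N) a b e ≤ -κ →
      balF (r - κ / 2) (r2 - κ / 2) (crv x.1 x.1.length N) a b e ≤ -(κ / 2) := fun {r r2 a b e} hh => by
    rw [balF_sub]
    linarith
  cases k
  · have hb' := sh (show balF D.P.r D.P.r2 (crv x.1 x.1.length N) 0 (fr (v8 c g N x 0) x.1.length) (fr (v8 c g N x 1) x.1.length) ≤ -κ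
      from hb)
    have s := bal_sq (w := x.1) (n := x.1.length) (r := D.P.r - κ / 2) (r2 := D.P.r2 - κ / 2) (Or.inl ⟨Nat.zero_le _, h01⟩) Even.zero
      (hp.ev 0) (hp.ev 1) (Nat.zero_le _) (by omega) (le_refl x.1.length) hN0 hκ
    rw [fr_zero] at s
    have t := (bap_iff (w := x.1) (S := N) (i := 0) (a := v8 c g N x 0) (b := v8 c g N x 1) (k := x.2) (by unfold Ch4; omega)
      Even.zero (hp.ev 0) (hp.ev 1) em).1 (s.up hb')
    have n1 : ndi 0 (v8 c g N x 0) = c .fp N x := by unfold ndi; omega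
    have n2 : ndi 0 (v8 c g N x 1) = g .fp N x := by unfold ndi; omega
    rw [n1, n2, ← a1] at t
    exact t
  · have hb' := sh (show balF D.Q.r D.Q.r2 (crv x.1 x.1.length N) (fr x.2 x.1.length) (fr (v8 c g N x 3) x.1.length)
      (fr (v8 c g N x 2) x.1.length) ≤ -κ from hb)
    have s := bal_sq (w := x.1) (n := x.1.length) (r := D.Q.r - κ / 2) (r2 := D.Q.r2 - κ / 2) (Or.inr ⟨h23, h3⟩) em
      (hp.ev 3) (hp.ev 2) hm.le (by omega) (le_refl x.1.length) hN0 hκ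
    have t := (bap_iff (w := x.1) (S := N) (i := x.2) (a := v8 c g N x 3) (b := v8 c g N x 2) (k := 0) (by unfold Ch4; omega)
      em (hp.ev 3) (hp.ev 2) Even.zero).1 (s.up hb')
    have n1 : ndi x.2 (v8 c g N x 3) = c .bq N x := by unfold ndi; omega
    have n2 : ndi x.2 (v8 c g N x 2) = g .bq N x := by unfold ndi; omega
    rw [n1, n2, ← a2] at t
    exact t
  · have hb' := sh (show balF D.Q.r D.Q.r2 (crv x.1 x.1.length N) (fr x.2 x.1.length) (fr (v8 c g N x 4) x.1.length)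
      (fr (v8 c g N x 5) x.1.length) ≤ -κ from hb)
    have s := bal_sq (w := x.1) (n := x.1.length) (r := D.Q.r - κ / 2) (r2 := D.Q.r2 - κ / 2) (Or.inl ⟨h4, h45⟩) em
      (hp.ev 4) (hp.ev 5) hm.le (by omega) (le_refl x.1.length) hN0 hκ
    have t := (bap_iff (w := x.1) (S := N) (i := x.2) (a := v8 c g N x 4) (b := v8 c g N x 5) (k := x.1.length)
      (by unfold Ch4; omega) em (hp.ev 4) (hp.ev 5) hw.1).1 (s.up hb')
    have n1 : ndi x.2 (v8 c g N x 4) = c .fq N x := by unfold ndi; omega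
    have n2 : ndi x.2 (v8 c g N x 5) = g .fq N x := by unfold ndi; omega
    rw [n1, n2, ← a3] at t
    exact t
  · have hb' := sh (show balF D.P.r D.P.r2 (crv x.1 x.1.length N) 1 (fr (v8 c g N x 7) x.1.length) (fr (v8 c g N x 6) x.1.length) ≤ -κ
      from hb)
    have s := bal_sq (w := x.1) (n := x.1.length) (r := D.P.r - κ / 2) (r2 := D.P.r2 - κ / 2) (Or.inr ⟨h67, h7⟩) hw.1
      (hp.ev 7) (hp.ev 6) le_rfl (by omega) (le_refl x.1.length) hN0 hκ
    rw [fr_self hn] at s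
    have t := (bap_iff (w := x.1) (S := N) (i := x.1.length) (a := v8 c g N x 7) (b := v8 c g N x 6) (k := x.2)
      (by unfold Ch4; omega) hw.1 (hp.ev 7) (hp.ev 6) em).1 (s.up hb')
    have n1 : ndi x.1.length (v8 c g N x 7) = c .bp N x := by unfold ndi; omega
    have n2 : ndi x.1.length (v8 c g N x 6) = g .bp N x := by unfold ndi; omega
    rw [n1, n2, ← a4] at t
    exact t

lemma fr_near {a a' L n : ℕ} {η : ℝ} (ha : a ≤ L) (ha' : a' ≤ L) (hL : L ≤ n) (h : |(a : ℝ) / L - (a' : ℝ) / L| ≤ η) :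
    |(a : ℝ) - a'| / n ≤ η := by
  rcases Nat.eq_zero_or_pos L with h0 | h0
  · subst h0
    have e1 : a = 0 := by omega
    have e2 : a' = 0 := by omega
    subst e1 e2
    simp only [sub_self, abs_zero] at h
    simpa using h
  · have hL0 : (0 : ℝ) < L := by exact_mod_cast h0
    have hLn : (L : ℝ) ≤ n := by exact_mod_cast hL
    rw [← sub_div, abs_div, abs_of_pos hL0] at h
    exact (div_le_div_of_nonneg_left (abs_nonneg _) hL0 hLn).trans h

/-- **near times of the arms ==> near times of the eight marks** -/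
lemma v8_near {c g c' g' : Arm → ℕ → W3 × ℕ → ℕ} {N : ℕ} {x : W3 × ℕ} (hx : Spt x) (h : okA c g N x) (h' : okA c' g' N x) {η : ℝ}
    (hc : ∀ k, |(c k N x : ℝ) / (arcw x.2 k x.1).length - (c' k N x : ℝ) / (arcw x.2 k x.1).length| ≤ η)
    (hg : ∀ k, |(g k N x : ℝ) / (arcw x.2 k x.1).length - (g' k N x : ℝ) / (arcw x.2 k x.1).length| ≤ η) (i : Fin 8) :
    |(v8 c g N x i : ℝ) / x.1.length - (v8 c' g' N x i : ℝ) / x.1.length| ≤ η := by
  obtain ⟨hw, em, hm⟩ := hx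
  have l1 := al_fp (x := x) hm.le
  have l2 := al_bq (x := x) hm.le
  have l3 := al_fq x
  have l4 := al_bp x
  have len : ∀ k : Arm, (arcw x.2 k x.1).length ≤ x.1.length := by
    intro k
    cases k
    · omega
    · omega
    · omega
    · omega
  have cc : ∀ k : Arm, |(c k N x : ℝ) - c' k N x| / x.1.length ≤ η := fun k =>
    fr_near ((h k).2.2.1.trans (h k).2.2.2) ((h' k).2.2.1.trans (h' k).2.2.2) (len k) (hc k)
  have gg : ∀ k : Arm, |(g k N x : ℝ) - g' k N x| / x.1.length ≤ η := fun k =>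
    fr_near (h k).2.2.2 (h' k).2.2.2 (len k) (hg k)
  have k1 := h .bq
  have k3 := h .bp
  have k1' := h' .bq
  have k3' := h' .bp
  rw [l2] at k1 k1'
  rw [l4] at k3 k3'
  have n0 : (0 : ℝ) ≤ x.1.length := Nat.cast_nonneg _
  have e1 : ∀ {a a' : ℕ}, |(a : ℝ) / x.1.length - (a' : ℝ) / x.1.length| = |(a : ℝ) - a'| / x.1.length := fun {a a'} => by
    rw [← sub_div, abs_div, abs_of_nonneg n0]
  have e2 : ∀ {M a a' : ℕ}, a ≤ M → a' ≤ M → |(((M - a : ℕ)) : ℝ) - ((M - a' : ℕ) : ℝ)| = |(a : ℝ) - a'| := fun {M a a'} h1 h2 => by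
    rw [Nat.cast_sub h1, Nat.cast_sub h2, abs_sub_comm]
    congr 1
    ring
  have e3 : ∀ {M a a' : ℕ}, |(((M + a : ℕ)) : ℝ) - ((M + a' : ℕ) : ℝ)| = |(a : ℝ) - a'| := fun {M a a'} => by
    rw [Nat.cast_add, Nat.cast_add]
    congr 1
    ring
  rw [e1]
  fin_cases i
  · exact cc .fp
  · exact gg .fp
  · show |((x.2 - g .bq N x : ℕ) : ℝ) - ((x.2 - g' .bq N x : ℕ) : ℝ)| / x.1.length ≤ η
    rw [e2 (by omega) (by omega)]
    exact gg .bq
  · show |((x.2 - c .bq N x : ℕ) : ℝ) - ((x.2 - c' .bq N x : ℕ) : ℝ)| / x.1.length ≤ η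
    rw [e2 (by omega) (by omega)]
    exact cc .bq
  · show |((x.2 + c .fq N x : ℕ) : ℝ) - ((x.2 + c' .fq N x : ℕ) : ℝ)| / x.1.length ≤ η
    rw [e3]
    exact cc .fq
  · show |((x.2 + g .fq N x : ℕ) : ℝ) - ((x.2 + g' .fq N x : ℕ) : ℝ)| / x.1.length ≤ η
    rw [e3]
    exact gg .fq
  · show |((x.1.length - g .bp N x : ℕ) : ℝ) - ((x.1.length - g' .bp N x : ℕ) : ℝ)| / x.1.length ≤ η
    rw [e2 (by omega) (by omega)]
    exact gg .bp
  · show |((x.1.length - c .bp N x : ℕ) : ℝ) - ((x.1.length - c' .bp N x : ℕ) : ℝ)| / x.1.length ≤ η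
    rw [e2 (by omega) (by omega)]
    exact cc .bp

end Pool.Agent.ROT.F3.CK
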