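import Pool.Agent.ROT.F3LimF2
import Pool.Agent.ROT.F3SysN

/-!
# ROT / F3NulL (helper56): open conditions on the marks, from the words to the limit

* `Cv.lt_open`, `Lm.lt_open` : lower semicontinuity on open sets;
* `Lm.sum_open` : finitely many open conditions;
* **`nul_wk`** : the hypothesis of `nul_ae` from finite sums at the words.
-/

set_option autoImplicit false
set_option linter.unusedSectionVars false

open MeasureTheory Filter Topology Set
open scoped ENNReal NNReal Classical BoundedContinuousFunction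

namespace Pool.Agent.ROT.F3.LF

variable {ι : Type*} {l : Filter ι} {Ω : ι → Type*} [∀ i, MeasurableSpace (Ω i)] {P : ∀ i, Measure (Ω i)}
  {X : Type*} [PseudoMetricSpace X] [MeasurableSpace X] [BorelSpace X] {c : ∀ i, Ω i → X} {ν : Measure X}

/-- **open sets, from below** -/
theorem Cv.lt_open (h : Cv l P c ν) {V : Set X} (hV : IsOpen V) {a : ℝ} (ha : a < ν.real V) :
    ∀ᶠ i in l, a < (P i).real (c i ⁻¹' V) := by
  by_contra hne
  rw [Filter.not_eventually] at hne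
  have hN : (l ⊓ 𝓟 {i | ¬ a < (P i).real (c i ⁻¹' V)}).NeBot := frequently_mem_iff_neBot.1 hne
  have h' : Cv (l ⊓ 𝓟 {i | ¬ a < (P i).real (c i ⁻¹' V)}) P c ν :=
    ⟨h.fin, h.fin', h.ms, fun G => (h.lim G).mono_left inf_le_left⟩
  have h1 := h'.open_le hV (a := a) (by
    filter_upwards [mem_inf_of_right (mem_principal_self {i | ¬ a < (P i).real (c i ⁻¹' V)})] with i hi
    exact not_lt.1 hi)
  linarith

section marks

variable [CompleteSpace X] [SecondCountableTopology X]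

/-- **open conditions on the marks, from below** -/
theorem Lm.lt_open (hC : Cv l P c ν) {κ : Type*} [Fintype κ] {p : ∀ i, Ω i → κ → ℝ} {Φ : X → κ → ℝ}
    (h : ∀ k, Lm l P c ν (fun i ω => p i ω k) fun x => Φ x k) {V : Set (κ → ℝ)} (hV : IsOpen V) {a : ℝ}
    (ha : a < ν.real {x | Φ x ∈ V}) : ∀ᶠ i in l, a < (P i).real {ω | p i ω ∈ V} := by
  have h1 := hC.push h (Θ := fun z : X × (κ → ℝ) => z.2) continuous_snd
  have mΦ : Measurable fun x => Φ x := measurable_pi_iff.2 fun k => (h k).ms'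
  refine h1.lt_open hV ?_
  rw [measureReal_def, Measure.map_apply mΦ hV.measurableSet]
  exact ha

variable [l.NeBot]

/-- **finitely many open conditions** -/
theorem Lm.sum_open (hC : Cv l P c ν) {J : Type*} {κ : Type*} [Fintype κ] {A : Type*} (K : Finset A) (F : Finset J)
    {p : A → J → ∀ i, Ω i → κ → ℝ} {Φ : A → J → X → κ → ℝ}
    (h : ∀ k j t, Lm l P c ν (fun i ω => p k j i ω t) fun x => Φ k j x t) {V : A → J → Set (κ → ℝ)}
    (hV : ∀ k j, IsOpen (V k j)) {b : ℝ}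
    (hN : ∀ᶠ i in l, ∑ k ∈ K, (P i).real {ω | ∃ j ∈ F, p k j i ω ∈ V k j} ≤ b) :
    ∑ k ∈ K, ν {x | ∃ j ∈ F, Φ k j x ∈ V k j} ≤ ENNReal.ofReal b := by
  have := hC.fin'
  -- one condition
  have h1 : ∀ k, ∀ a : ℝ, a < ν.real {x | ∃ j ∈ F, Φ k j x ∈ V k j} →
      ∀ᶠ i in l, a < (P i).real {ω | ∃ j ∈ F, p k j i ω ∈ V k j} := by
    intro k a ha
    obtain ⟨W, hW⟩ : ∃ W : Set (↥F × κ → ℝ), W = {y | ∃ j : ↥F, (fun t => y (j, t)) ∈ V k j} := ⟨_, rfl⟩
    have oW : IsOpen W := by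
      have : W = ⋃ j : ↥F, (fun y : ↥F × κ → ℝ => fun t => y (j, t)) ⁻¹' V k j := by
        rw [hW]
        ext y
        simp only [mem_ofPred_eq, mem_iUnion, mem_preimage]
      rw [this]
      exact isOpen_iUnion fun j => (hV k j).preimage (continuous_pi fun t => continuous_apply _)
    have h2 := Lm.lt_open hC (κ := ↥F × κ) (p := fun i ω s => p k s.1 i ω s.2) (Φ := fun x s => Φ k s.1 x s.2)
      (fun s => h k s.1 s.2) oW (a := a) (by
        have e : {x | (fun s : ↥F × κ => Φ k s.1 x s.2) ∈ W} = {x | ∃ j ∈ F, Φ k j x ∈ V k j} := by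
          rw [hW]
          ext x
          constructor
          · rintro ⟨j, hj⟩
            exact ⟨j, j.2, hj⟩
          · rintro ⟨j, hj, hx⟩
            exact ⟨⟨j, hj⟩, hx⟩
        rw [e]
        exact ha)
    filter_upwards [h2] with i hi
    have e : {ω | (fun s : ↥F × κ => p k s.1 i ω s.2) ∈ W} = {ω | ∃ j ∈ F, p k j i ω ∈ V k j} := by
      rw [hW]
      ext x
      constructor
      · rintro ⟨j, hj⟩
        exact ⟨j, j.2, hj⟩
      · rintro ⟨j, hj, hx⟩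
        exact ⟨⟨j, hj⟩, hx⟩
    rwa [e] at hi
  have h3 : ∑ k ∈ K, ν.real {x | ∃ j ∈ F, Φ k j x ∈ V k j} ≤ b := by
    by_contra hlt
    rw [not_le] at hlt
    obtain ⟨s, hs⟩ : ∃ s : ℝ, s = ∑ k ∈ K, ν.real {x | ∃ j ∈ F, Φ k j x ∈ V k j} := ⟨_, rfl⟩
    rw [← hs] at hlt
    obtain ⟨δ, hδ⟩ : ∃ δ : ℝ, δ = (s - b) / ((K.card : ℝ) + 1) := ⟨_, rfl⟩
    have hδ0 : 0 < δ := by
      rw [hδ]
      exact div_pos (by linarith) (by positivity)
    have h4 : ∀ᶠ i in l, ∀ k ∈ K, ν.real {x | ∃ j ∈ F, Φ k j x ∈ V k j} - δ <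
        (P i).real {ω | ∃ j ∈ F, p k j i ω ∈ V k j} := by
      rw [Filter.eventually_all_finset]
      exact fun k _ => h1 k _ (by linarith)
    obtain ⟨i, hi1, hi2⟩ := (h4.and hN).exists
    have h5 : ∑ k ∈ K, (ν.real {x | ∃ j ∈ F, Φ k j x ∈ V k j} - δ) ≤
        ∑ k ∈ K, (P i).real {ω | ∃ j ∈ F, p k j i ω ∈ V k j} := Finset.sum_le_sum fun k hk => (hi1 k hk).le
    rw [Finset.sum_sub_distrib, Finset.sum_const, nsmul_eq_mul, ← hs] at h5
    have h6 : (K.card : ℝ) * δ < s - b := by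
      have : ((K.card : ℝ) + 1) * δ = s - b := by
        rw [hδ]
        field_simp
      linarith
    linarith
  have h7 : ∑ k ∈ K, ν {x | ∃ j ∈ F, Φ k j x ∈ V k j} = ENNReal.ofReal (∑ k ∈ K, ν.real {x | ∃ j ∈ F, Φ k j x ∈ V k j}) := by
    rw [ENNReal.ofReal_sum_of_nonneg fun k _ => measureReal_nonneg]
    exact Finset.sum_congr rfl fun k _ => (ofReal_measureReal).symm
  rw [h7]
  exact ENNReal.ofReal_le_ofReal h3

/-- **the hypothesis of `nul_ae`** -/
theorem nul_wk (hC : Cv l P c ν) {J : Type*} [Countable J] {κ : Type*} [Fintype κ] {p : ℕ → ℤ → J → ∀ i, Ω i → κ → ℝ}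
    {Φ : ℕ → ℤ → J → X → κ → ℝ} (h : ∀ n k j t, Lm l P c ν (fun i ω => p n k j i ω t) fun x => Φ n k j x t)
    {V : ℕ → ℤ → J → Set (κ → ℝ)} (hV : ∀ n k j, IsOpen (V n k j)) {e : ℕ → ℝ} (he : Tendsto e atTop (𝓝 0))
    (hN : ∀ n, ∀ (K : Finset ℤ) (F : Finset J), ∀ᶠ i in l, ∑ k ∈ K, (P i).real {ω | ∃ j ∈ F, p n k j i ω ∈ V n k j} ≤ 2 ^ n * e n) :
    Tendsto (fun n : ℕ => ENNReal.ofReal (1 / 2 ^ n) * ∑' k : ℤ, ν {x | ∃ j, Φ n k j x ∈ V n k j}) atTop (𝓝 0) := by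
  have h1 : ∀ n : ℕ, ∑' k : ℤ, ν {x | ∃ j, Φ n k j x ∈ V n k j} ≤ ENNReal.ofReal (2 ^ n * e n) := by
    intro n
    rw [ENNReal.tsum_eq_iSup_sum]
    refine iSup_le fun K => ?_
    have h2 : ∀ k : ℤ, Tendsto (fun F : Finset J => ν {x | ∃ j ∈ F, Φ n k j x ∈ V n k j}) atTop
        (𝓝 (ν {x | ∃ j, Φ n k j x ∈ V n k j})) := by
      intro k
      have h3 : {x | ∃ j, Φ n k j x ∈ V n k j} = ⋃ F : Finset J, {x | ∃ j ∈ F, Φ n k j x ∈ V n k j} := by
        ext x
        simp only [mem_ofPred_eq, mem_iUnion]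
        constructor
        · rintro ⟨j, hj⟩
          exact ⟨{j}, j, Finset.mem_singleton_self j, hj⟩
        · rintro ⟨F, j, -, hj⟩
          exact ⟨j, hj⟩
      rw [h3]
      refine tendsto_measure_iUnion_atTop (μ := ν) (s := fun F : Finset J => {x | ∃ j ∈ F, Φ n k j x ∈ V n k j}) ?_
      rintro F F' hF x ⟨j, hj, hx⟩
      exact ⟨j, hF hj, hx⟩
    refine le_of_tendsto' (tendsto_finsetSum K fun k _ => h2 k) fun F => ?_
    exact Lm.sum_open hC K F (p := fun k j => p n k j) (Φ := fun k j => Φ n k j) (fun k j t => h n k j t)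
      (V := fun k j => V n k j) (fun k j => hV n k j) (hN n K F)
  have h4 : ∀ n : ℕ, ENNReal.ofReal (1 / 2 ^ n) * ∑' k : ℤ, ν {x | ∃ j, Φ n k j x ∈ V n k j} ≤ ENNReal.ofReal (e n) := by
    intro n
    refine (mul_le_mul_right (h1 n) _).trans (le_of_eq ?_)
    rw [← ENNReal.ofReal_mul (by positivity)]
    congr 1
    field_simp
  have h5 : Tendsto (fun n => ENNReal.ofReal (e n)) atTop (𝓝 0) := by
    have := ENNReal.tendsto_ofReal he
    rwa [ENNReal.ofReal_zero] at this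
  exact tendsto_of_tendsto_of_tendsto_of_le_of_le tendsto_const_nhds h5 (fun n => zero_le) h4

end marks

end Pool.Agent.ROT.F3.LF
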