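import Pool.Agent.ROT.F3Tot
import Pool.Agent.ROT.F3LowW
import Pool.Agent.ROT.F3PairW
import Pool.Agent.ROT.F3K1R

/-!
# ROT, F3, row TOT (helper2): the masses of the start pairs of the classes of F3Cls

* `pts` : many lattice points in a ball;
* **`tot_cls`** : for a pair of classes `i ≠ j`, all thresholds `y, y'` at the first root and `z, z'` at the second root, the product of
  the masses of the start pairs is at most `C * N ^ (7 / 6)`.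
-/

set_option autoImplicit false

namespace Pool.Agent.ROT.F3

open Finset Filter Topology
open scoped ENNReal Classical

open Pool.Agent.ROT.F (QB)

/-- every point is close to a point of the lattice of the even vertices -/
private lemma near_el (u : ℂ) : ∃ c ∈ EL, ‖c - u‖ ≤ 3 := by
  have h3 : (0 : ℝ) < Real.sqrt 3 := Real.sqrt_pos.2 (by norm_num)
  have h3' : Real.sqrt 3 ≤ 2 := by
    rw [show (2 : ℝ) = Real.sqrt 4 by rw [show (4 : ℝ) = 2 ^ 2 by norm_num, Real.sqrt_sq (by norm_num)]]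
    exact Real.sqrt_le_sqrt (by norm_num)
  obtain ⟨T, hT⟩ : ∃ T : ℤ, T = ⌊2 * u.re / 3⌋ := ⟨_, rfl⟩
  obtain ⟨x0, hx0⟩ : ∃ x0 : ℤ, x0 = ⌊-(2 * u.im) / Real.sqrt 3⌋ := ⟨_, rfl⟩
  obtain ⟨x, hx1, hx2, hx3⟩ : ∃ x : ℤ, Even (x - T) ∧ (x : ℝ) - 1 ≤ -(2 * u.im) / Real.sqrt 3 ∧
      -(2 * u.im) / Real.sqrt 3 ≤ (x : ℝ) + 1 := by
    have a1 := Int.floor_le (-(2 * u.im) / Real.sqrt 3)
    have a2 := (Int.lt_floor_add_one (-(2 * u.im) / Real.sqrt 3)).le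
    rw [← hx0] at a1 a2
    rcases Int.even_or_odd (x0 - T) with h | h
    · exact ⟨x0, h, by linarith, a2⟩
    · refine ⟨x0 + 1, ?_, by push_cast; linarith, by push_cast; linarith⟩
      rw [show x0 + 1 - T = (x0 - T) + 1 by ring]
      exact h.add_one
  refine ⟨⟨3 * (T : ℝ) / 2, -(Real.sqrt 3 / 2 * x)⟩, ?_, ?_⟩
  · rw [el_lat3]
    exact ⟨T, x, hx1, rfl⟩
  · have b1 := Int.floor_le (2 * u.re / 3)
    have b2 := (Int.lt_floor_add_one (2 * u.re / 3)).le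
    rw [← hT] at b1 b2
    rw [← sub_le_iff_le_add] at hx3
    have c1 : (x - 1) * Real.sqrt 3 ≤ -(2 * u.im) := by
      rwa [le_div_iff₀ h3] at hx2
    have c2 : -(2 * u.im) - Real.sqrt 3 ≤ x * Real.sqrt 3 := by
      have e : -(2 * u.im) = -(2 * u.im) / Real.sqrt 3 * Real.sqrt 3 := by field_simp
      have := mul_le_mul_of_nonneg_right hx3 h3.le
      rw [sub_mul, ← e, one_mul] at this
      exact this
    refine (Complex.norm_le_abs_re_add_abs_im _).trans ?_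
    have d1 : |(3 * (T : ℝ) / 2) - u.re| ≤ 3 / 2 := by
      rw [abs_le]
      constructor <;> linarith
    have d2 : |-(Real.sqrt 3 / 2 * x) - u.im| ≤ 3 / 2 := by
      rw [abs_le]
      constructor <;> linarith
    show |(3 * (T : ℝ) / 2) - u.re| + |-(Real.sqrt 3 / 2 * x) - u.im| ≤ 3
    linarith

/-- **many lattice points in a ball** -/
theorem pts {ε : ℝ} (hε : 0 < ε) : ∃ N0 : ℕ, ∀ N : ℕ, N0 ≤ N → ∀ u : ℂ, ∃ Z : Finset ℂ, (ε / 32) ^ 2 * (N : ℝ) ^ 2 ≤ (Z.card : ℝ) ∧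
    ∀ z ∈ Z, z ∈ EL ∧ ‖z - u‖ ≤ ε * N := by
  obtain ⟨N0, hN0⟩ := exists_nat_ge (32 / ε)
  refine ⟨N0, fun N hN u => ?_⟩
  have hN1 : 32 / ε ≤ N := hN0.trans (by exact_mod_cast hN)
  have hN2 : 32 ≤ ε * N := by
    rw [div_le_iff₀ hε] at hN1
    linarith
  obtain ⟨c, hc, hcu⟩ := near_el u
  obtain ⟨M, hM⟩ : ∃ M : ℕ, M = ⌊ε * N / 16⌋₊ := ⟨_, rfl⟩
  have h3' : Real.sqrt 3 ≤ 2 := by
    rw [show (2 : ℝ) = Real.sqrt 4 by rw [show (4 : ℝ) = 2 ^ 2 by norm_num, Real.sqrt_sq (by norm_num)]]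
    exact Real.sqrt_le_sqrt (by norm_num)
  have h3 : (0 : ℝ) < Real.sqrt 3 := Real.sqrt_pos.2 (by norm_num)
  have hM1 : (M : ℝ) ≤ ε * N / 16 := by
    rw [hM]
    exact Nat.floor_le (by linarith)
  have hM2 : ε * N / 32 ≤ M := by
    have := (Nat.lt_floor_add_one (ε * N / 16)).le
    rw [← hM] at this
    linarith
  obtain ⟨f, hf⟩ : ∃ f : ℕ × ℕ → ℂ, f = fun p => c + ⟨0, Real.sqrt 3⟩ * (((p.1 : ℤ) : ℂ) * ax 0 + ((p.2 : ℤ) : ℂ) * ax 2) :=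
    ⟨_, rfl⟩
  have hinj : Function.Injective f := by
    rintro ⟨a, b⟩ ⟨a', b'⟩ h
    rw [hf] at h
    have h1 : (⟨0, Real.sqrt 3⟩ : ℂ) * (((a : ℤ) : ℂ) * ax 0 + ((b : ℤ) : ℂ) * ax 2) =
        ⟨0, Real.sqrt 3⟩ * (((a' : ℤ) : ℂ) * ax 0 + ((b' : ℤ) : ℂ) * ax 2) := add_left_cancel h
    have hne : (⟨0, Real.sqrt 3⟩ : ℂ) ≠ 0 := fun h0 => h3.ne' (congrArg Complex.im h0)
    have h2 := mul_left_cancel₀ hne h1
    rw [ax0, ax2] at h2
    have h4 := congrArg Complex.im h2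
    have h5 := congrArg Complex.re h2
    simp only [Complex.mul_re, Complex.add_re, Complex.add_im, Complex.mul_im, Complex.intCast_re, Complex.intCast_im] at h4 h5
    have e1 : (b : ℝ) = b' := by
      have : ((b : ℤ) : ℝ) * (Real.sqrt 3 / 2) = ((b' : ℤ) : ℝ) * (Real.sqrt 3 / 2) := by linarith
      have := mul_right_cancel₀ (by positivity) this
      exact_mod_cast this
    have e2 : (a : ℝ) = a' := by
      push_cast at h5
      rw [e1] at h5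
      linarith
    exact Prod.ext (by exact_mod_cast e2) (by exact_mod_cast e1)
  refine ⟨(range M ×ˢ range M).image f, ?_, ?_⟩
  · rw [card_image_of_injective _ hinj, card_product, card_range]
    push_cast
    have h5 : 0 ≤ ε * N / 32 := by positivity
    calc (ε / 32) ^ 2 * (N : ℝ) ^ 2 = (ε * N / 32) * (ε * N / 32) := by ring
      _ ≤ M * M := mul_le_mul hM2 hM2 h5 (Nat.cast_nonneg _)
  · intro z hz
    obtain ⟨⟨a, b⟩, hab, rfl⟩ := mem_image.1 hz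
    rw [mem_product, mem_range, mem_range] at hab
    obtain ⟨ha, hb⟩ := hab
    have ha' : (a : ℝ) ≤ M := by exact_mod_cast (show a ≤ M from (show a < M from ha).le)
    have hb' : (b : ℝ) ≤ M := by exact_mod_cast (show b ≤ M from (show b < M from hb).le)
    rw [hf]
    refine ⟨EL_add hc ⟨a, b, rfl⟩, ?_⟩
    have n1 : ‖(⟨0, Real.sqrt 3⟩ : ℂ)‖ ≤ 2 := by
      have : (⟨0, Real.sqrt 3⟩ : ℂ) = (Real.sqrt 3 : ℂ) * Complex.I := by
        apply Complex.ext <;> simp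
      rw [this, norm_mul, Complex.norm_I, mul_one, Complex.norm_real, Real.norm_of_nonneg h3.le]
      exact h3'
    have n2 : ‖(((a : ℤ) : ℂ) * ax 0 + ((b : ℤ) : ℂ) * ax 2)‖ ≤ 2 * M := by
      refine (norm_add_le _ _).trans ?_
      rw [norm_mul, norm_mul, norm_ax, norm_ax, mul_one, mul_one]
      have k1 : ‖((a : ℤ) : ℂ)‖ = a := by simp
      have k2 : ‖((b : ℤ) : ℂ)‖ = b := by simp
      rw [k1, k2]
      linarith
    have n3 : ‖(⟨0, Real.sqrt 3⟩ : ℂ) * (((a : ℤ) : ℂ) * ax 0 + ((b : ℤ) : ℂ) * ax 2)‖ ≤ 2 * (2 * M) := by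
      rw [norm_mul]
      exact mul_le_mul n1 n2 (norm_nonneg _) (by norm_num)
    show ‖c + (⟨0, Real.sqrt 3⟩ : ℂ) * (((a : ℤ) : ℂ) * ax 0 + ((b : ℤ) : ℂ) * ax 2) - u‖ ≤ ε * N
    have e : c + (⟨0, Real.sqrt 3⟩ : ℂ) * (((a : ℤ) : ℂ) * ax 0 + ((b : ℤ) : ℂ) * ax 2) - u = (c - u) +
        (⟨0, Real.sqrt 3⟩ : ℂ) * (((a : ℤ) : ℂ) * ax 0 + ((b : ℤ) : ℂ) * ax 2) := by ring
    rw [e]
    refine (norm_add_le _ _).trans ?_
    linarith

/-- **the masses of the start pairs of the classes** -/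
theorem tot_cls (hQB : QB) {ζ : ℝ} (hζ : 0 < ζ) : ∃ A : ℝ, 0 < A ∧ ∀ {i j : Fin 3}, i ≠ j → ∀ (P Q : Tp), P.Ok → Q.Ok →
    ζ * P.m ≤ P.κ1 → ζ * Q.m ≤ Q.κ1 → P.th ≤ 1 - ζ → Q.th ≤ 1 - ζ → A * P.m ^ (4 / 3 : ℝ) ≤ P.lb →
    A * Q.m ^ (4 / 3 : ℝ) ≤ Q.lb → ∀ {y y' z z' : ℝ}, 0 ≤ y → 0 ≤ y' → 0 ≤ z → 0 ≤ z' → ∃ C0 : ℝ, 0 < C0 ∧
      ∀ᶠ N : ℕ in atTop, totQ (ev i) (ev j) (P.up y) (P.up y') N (uT N) (fun _ => 1) *
        totQ (ev (-i)) (ev (-j)) (Q.up z) (Q.up z') N (uT N) (fun _ => 1) ≤ ENNReal.ofReal (C0 * (N : ℝ) ^ (7 / 6 : ℝ)) := by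
  obtain ⟨x0, A, hx0, hA, low⟩ := low_win hζ
  refine ⟨A, hA, fun {i j} hij P Q hP hQ k1 k2 k3 k4 k5 k6 {y y' z z'} hy hy' hz hz' => ?_⟩
  have hmP := hP.m
  have hmQ := hQ.m
  have h0 : -i ≠ -j := fun e => hij (neg_injective e)
  obtain ⟨W, c, ε, N0, hc, hε, hD0, ht1, ht0, hD1, pw⟩ := pair_words hij hP hQ (hp := P.m) (hq := Q.m) (δ := Q.m / 16)
    (D := 2 * (P.rad + Q.rad) + 1) hmP hmQ (by positivity)
  -- the data of the class
  obtain ⟨D, hD⟩ : ∃ D : CK.Dt, D = ⟨P, Q, W, W, ev i, ev j, ev (-i), ev (-j), y, y', z, z'⟩ := ⟨_, rfl⟩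
  have ok : D.Ok := by
    rw [hD]
    exact ⟨hP, hQ, hy, hy', hz, hz', ev_dir hij, ev_dir h0, ev_norm _, ev_norm _, ev_norm _, ev_norm _, by
      show 2 * (P.rad + Q.rad) < W.D0
      linarith, by
      show 2 * (P.rad + Q.rad) < W.D0
      linarith⟩
  obtain ⟨ε', hε'⟩ : ∃ ε' : ℝ, ε' = min ε (P.m / 16) := ⟨_, rfl⟩
  have hε0 : 0 < ε' := by
    rw [hε']
    exact lt_min hε (by positivity)
  have hε1 : ε' ≤ ε := by
    rw [hε']
    exact min_le_left _ _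
  have hε2 : ε' ≤ P.m / 16 := by
    rw [hε']
    exact min_le_right _ _
  obtain ⟨N1, pt⟩ := pts hε0
  obtain ⟨b, hb0, hb⟩ : ∃ b : ℝ, 0 ≤ b ∧ D.len ≤ b := ⟨max 0 D.len, le_max_left _ _, le_max_right _ _⟩
  obtain ⟨C0, hC0, key⟩ := tot_of hQB (b := b) (κ := x0 / P.m ^ 2) (κ' := x0 / Q.m ^ 2) (c := (ε' / 32) ^ 2) (c1 := c) (c2 := c)
    hb0 (by positivity) (by positivity) (by positivity) hc hc
  refine ⟨C0, hC0, ?_⟩
  have l1 := low hij (P.up y) (P.up y') 1 (hP.up hy) (hP.up hy') rfl k1 k1 k3 k3 k5 k5 norm_one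
  have l2 := low h0 (Q.up z) (Q.up z') 1 (hQ.up hz) (hQ.up hz') rfl k2 k2 k4 k4 k6 k6 norm_one
  filter_upwards [l1, l2, eventually_ge_atTop 1, eventually_ge_atTop N0, eventually_ge_atTop N1] with N e1 e2 n1 n2 n3
  obtain ⟨TA, TB, hTA, hTB, mA, mB, sep⟩ := pw N n2
  choose Z hZ using pt N n3
  have hN : (0 : ℝ) < N := by exact_mod_cast n1
  have sA : TA ⊆ D.A N (uT N) := by
    rw [hD]
    exact hTA
  have sB : TB ⊆ D.B N (uT N) := by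
    rw [hD]
    exact hTB
  have hCe : D.C N (uT N) = Pai (ev i) (ev j) (P.up y) (P.up y') N (uT N) := by
    rw [hD]
    rfl
  have hCe' : D.C' N (uT N) = Pai (ev (-i)) (ev (-j)) (Q.up z) (Q.up z') N (uT N) := by
    rw [hD]
    rfl
  refine key N (D.C N (uT N)) (D.C' N (uT N)) TA TB _ _ (fun _ _ => Z ((P.m : ℂ) * N * (ev i - ev j))) n1
    (CK.hy_cls ok hN (Set.Subset.refl _) (Set.Subset.refl _) sA sB)
    (CK.uq_cls ok hN (Set.Subset.refl _) (Set.Subset.refl _) sA sB)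
    (CK.sp_PrH ok (by omega) hb (Set.Subset.refl _) (Set.Subset.refl _) sA sB _ _ _ _) mA mB fun R hR U hU => ?_
  obtain ⟨z1, z2⟩ := hZ ((P.m : ℂ) * N * (ev i - ev j))
  refine ⟨z1, fun v hv => ?_⟩
  obtain ⟨v1, v2⟩ := z2 v hv
  obtain ⟨s1, s2⟩ := sep R hR U hU v (v2.trans (mul_le_mul_of_nonneg_right hε1 hN.le))
  refine ⟨s1, ?_, ?_⟩
  · rw [hCe]
    refine e1 (fun _ => 1) (fun _ => 1) (fun _ _ _ _ _ _ => le_rfl) v v1 ?_
    rw [Metric.mem_ball, dist_eq_norm]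
    have q1 : (((N : ℝ)⁻¹ : ℝ) : ℂ) * -(1 * v) - -(1 * (((P.up y).m : ℂ) * (ev i - ev j))) =
        -((((N : ℝ)⁻¹ : ℝ) : ℂ) * (v - (P.m : ℂ) * N * (ev i - ev j))) := by
      have hN' : (N : ℂ) ≠ 0 := by
        exact_mod_cast (show N ≠ 0 by omega)
      show (((N : ℝ)⁻¹ : ℝ) : ℂ) * -(1 * v) - -(1 * ((P.m : ℂ) * (ev i - ev j))) = _
      push_cast
      field_simp
      ring
    rw [q1, norm_neg, norm_mul, Complex.norm_real, Real.norm_of_nonneg (by positivity)]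
    show (N : ℝ)⁻¹ * ‖v - (P.m : ℂ) * N * (ev i - ev j)‖ < P.m / 8
    rw [inv_mul_lt_iff₀ hN]
    calc ‖v - (P.m : ℂ) * N * (ev i - ev j)‖ ≤ ε' * N := v2
      _ ≤ P.m / 16 * N := mul_le_mul_of_nonneg_right hε2 hN.le
      _ < N * (P.m / 8) := by nlinarith
  · rw [hCe']
    have eR : Even R.length := (hTA hR).ev
    have eU : Even U.length := (hTB hU).ev
    refine e2 (fun _ => 1) (fun _ => 1) (fun _ _ _ _ _ _ => le_rfl) (v + en R - en U) (EL_sub (EL_add v1 (en_EL eR)) (en_EL eU)) ?_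
    rw [Metric.mem_ball, dist_eq_norm]
    have q1 : (((N : ℝ)⁻¹ : ℝ) : ℂ) * -(1 * (v + en R - en U)) - -(1 * (((Q.up z).m : ℂ) * (ev (-i) - ev (-j)))) =
        -((((N : ℝ)⁻¹ : ℝ) : ℂ) * (v + en R - en U - (Q.m : ℂ) * N * (ev (-i) - ev (-j)))) := by
      have hN' : (N : ℂ) ≠ 0 := by
        exact_mod_cast (show N ≠ 0 by omega)
      show (((N : ℝ)⁻¹ : ℝ) : ℂ) * -(1 * (v + en R - en U)) - -(1 * ((Q.m : ℂ) * (ev (-i) - ev (-j)))) = _
      push_cast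
      field_simp
      ring
    rw [q1, norm_neg, norm_mul, Complex.norm_real, Real.norm_of_nonneg (by positivity)]
    show (N : ℝ)⁻¹ * ‖v + en R - en U - (Q.m : ℂ) * N * (ev (-i) - ev (-j))‖ < Q.m / 8
    rw [inv_mul_lt_iff₀ hN]
    calc ‖v + en R - en U - (Q.m : ℂ) * N * (ev (-i) - ev (-j))‖ ≤ Q.m / 16 * N := s2
      _ < N * (Q.m / 8) := by nlinarith

/-- the same with real numbers -/
lemma tot_real {a b : ℝ≥0∞} {c : ℝ} (hc : 0 ≤ c) (h : a * b ≤ ENNReal.ofReal c) : a.toReal * b.toReal ≤ c := by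
  rw [← ENNReal.toReal_mul, ← ENNReal.toReal_ofReal hc]
  exact ENNReal.toReal_mono ENNReal.ofReal_ne_top h

end Pool.Agent.ROT.F3
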