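import Pool.Agent.ROT.F3HexL
import Pool.Agent.ROT.F3K1
import Pool.Agent.ROT.F3GamP
import Pool.Agent.ROT.F3TotC

/-!
# ROT, F3, row Core (helper4): the lattice inputs `L3In` for the classes of F3Cls

* `Dt.Dir D i j` : the directions of the data are those of the classes `i`, `j`; `D0_dir`, `DR_dir`;
* `Dt.msP`, `Dt.msQ` : the masses of the start pairs at the two roots;
* `kW_eq` : the data of a connection are four pieces;
* **`l3_dt`** : `L3In` (helper55) for the class of the data `D`, weight `0 / 1`, data `mdt` (both lattices, all levels);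
* **`l3_fam`** : the same for the family of all levels of the rotated lattice in the form of `lev_prm` (helper17);
* `NumT`; **`all_dt`** : upper bound of the product of the masses (helper2), lower bounds of the weights (helper89) for the data `D`;
* **`nrm_up`**, **`nrm_lo`** : the bounds with one normalisation `tn N = N ^ (7 / 12)` at all levels.
-/

set_option autoImplicit false
set_option linter.unusedSectionVars false

namespace Pool.Agent.ROT.F3.CK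

open MeasureTheory Filter Topology Set

open scoped NNReal ENNReal Classical

open Pool.Agent.ROT.F3 Pool.Agent.ROT.F3.CC Pool.Agent.ROT.F3L

/-! ### 1. The data -/

/-- the directions of the data are those of the classes `i`, `j` -/
structure Dt.Dir (D : Dt) (i j : Fin 3) : Prop where
  d : D.d = ev i
  d' : D.d' = ev j
  t : D.t = ev (-i)
  t' : D.t' = ev (-j)

lemma D0_dir (P : Prm) (i j : Fin 3) (W W' : Wn) : (D0 P i j W W').Dir i j := ⟨rfl, rfl, rfl, rfl⟩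

lemma DR_dir (P : Prm) (i j : Fin 3) (W W' : Wn) (y y' z z' : ℝ) : (DR P i j W W' y y' z z').Dir i j := ⟨rfl, rfl, rfl, rfl⟩

/-- the mass of the start pairs at the first root -/
noncomputable def Dt.msP (D : Dt) (N : ℕ) : ℝ≥0∞ := totQ D.d D.d' (D.P.up D.y) (D.P.up D.y') N (uT N) fun _ => 1

/-- the mass of the start pairs at the second root -/
noncomputable def Dt.msQ (D : Dt) (N : ℕ) : ℝ≥0∞ := totQ D.t D.t' (D.Q.up D.z) (D.Q.up D.z') N (uT N) fun _ => 1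

lemma tp_ne (D : Dt) (N : ℕ) : D.msP N ≠ ∞ := totQ_ne fun _ => ENNReal.one_ne_top

lemma tq_ne (D : Dt) (N : ℕ) : D.msQ N ≠ ∞ := totQ_ne fun _ => ENNReal.one_ne_top

/-- **the data of a connection are four pieces** -/
lemma kW_eq {d d' : ℂ} {P P' : Tp} {v : ℂ} {N : ℕ} {a : W3 × W3} {k1 k2 : ℕ} (h : PaiM d d' P P' N (uT N) a k1 k2) :
    kW d d' P P' v N a = kQ2 v N (uT N) a k1 k2 := by
  unfold kW
  rw [gk_eq h.p1, gk_eq h.p2]
  rfl

/-! ### 2. The inputs -/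

/-- **the lattice inputs for the class of the data `D`** -/
theorem l3_dt {U : Ultrafilter ℕ} (hU : (U : Filter ℕ) ≤ atTop) {D : Dt} (ok : D.Ok) {i j : Fin 3} (hij : i ≠ j)
    (hd : D.Dir i j) (hG : GnQ U D.P) {b : ℝ} (hb : D.len ≤ b) {RA RB : ℕ → Set W3} (hA : ∀ N, RA N ⊆ D.A N (uT N))
    (hB : ∀ N, RB N ⊆ D.B N (uT N)) {v : ℂ} (hv : ‖v‖ = 1) {t : ℕ → ℝ} (t0 : ∀ᶠ N : ℕ in (U : Filter ℕ), 0 < t N) {c c' : ℝ}
    (hc : 0 ≤ c) (hc' : 0 ≤ c') (ht : ∀ᶠ N : ℕ in (U : Filter ℕ), (D.msP N).toReal ≤ c * t N)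
    (tt : ∀ᶠ N : ℕ in (U : Filter ℕ), t N * (D.msQ N).toReal ≤ c' * (N : ℝ) ^ (7 / 6 : ℝ)) {bA bB : ℕ → FiniteMeasure Pie}
    (eA : ∀ᶠ N : ℕ in (U : Filter ℕ), (bA N : Measure Pie) =
      bW (RA N) (fun _ => 1) (ENNReal.ofReal ((N : ℝ) ^ (-(3 / 4) : ℝ))) (arW v N (uT N)))
    (eB : ∀ᶠ N : ℕ in (U : Filter ℕ), (bB N : Measure Pie) =
      bW (RB N) (fun _ => 1) (ENNReal.ofReal ((N : ℝ) ^ (-(3 / 4) : ℝ))) (arW v N (uT N))) :
    L3In (U : Filter ℕ) D b (fun N => D.C N (uT N)) (fun N => D.C' N (uT N)) RA RB (fun _ _ => 1) (fun _ _ => 1) (fun _ _ => 1)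
      (fun _ _ => 1) (fun N => w1 (D.C N (uT N)) (D.C' N (uT N)) (RA N) (RB N)) (fun N => mdt v D N) (kP D v) (kQ D v) v t
      D.msP D.msQ c (BQ D.P) (rQ D.P D.P) c' (BQ D.Q) bA bB := by
  have h1N : ∀ᶠ N : ℕ in (U : Filter ℕ), 1 ≤ N := hU (eventually_ge_atTop 1)
  have h0 : -i ≠ -j := fun e => hij (neg_injective e)
  refine
    { ok := ok, hv := hv, hC := fun N => subset_rfl, hC' := fun N => subset_rfl, hA := hA, hB := hB
      fE := fun _ _ => ENNReal.one_ne_top, fE' := fun _ _ => ENNReal.one_ne_top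
      fF := fun _ _ => ENNReal.one_ne_top, fG := fun _ _ => ENNReal.one_ne_top
      len := hb, rd := ?_, t0 := t0, hgam := ?_, B0 := BQ_nonneg _, R0 := rQ_nonneg ok.P ok.P, c0 := hc, ht := ht, hsup := ?_
      f' := Eventually.of_forall fun N => tq_ne D N
      B0' := BQ_nonneg _, c0' := hc', tt := tt, eA := eA, eB := eB }
  · filter_upwards [h1N] with N h1
    exact rd1_cls ok h1 v subset_rfl subset_rfl (hA N) (hB N)
  · intro e he
    have h := gamH_pai hU hij (ok.P.up ok.y) (ok.P.up ok.y') (P := D.P.up D.y) (P' := D.P.up D.y') rfl rfl (hG.up D.y)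
      (hG.up D.y') hv (κ := kP D v) (E := fun _ _ => 1) (Eventually.of_forall fun N a k1 k2 ha => by
        have e1 : kP D v N a = kW (ev i) (ev j) (D.P.up D.y) (D.P.up D.y') v N a := by
          unfold kP
          rw [hd.d, hd.d']
        rw [e1]
        exact kW_eq ha) (Eventually.of_forall fun N a _ => rfl) he
    have e1 : ∀ N : ℕ, D.C N (uT N) = Pai (ev i) (ev j) (D.P.up D.y) (D.P.up D.y') N (uT N) := fun N => by
      unfold Dt.C
      rw [hd.d, hd.d']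
    have e2 : D.msP = fun N : ℕ => totQ (ev i) (ev j) (D.P.up D.y) (D.P.up D.y') N (uT N) fun _ => 1 := by
      funext N
      unfold Dt.msP
      rw [hd.d, hd.d']
    simp only [e1, e2]
    exact h
  · filter_upwards [h1N] with N h1 z
    have h := sup_pai h0 (ok.Q.up ok.z) (ok.Q.up ok.z') (P := D.Q.up D.z) (P' := D.Q.up D.z') rfl rfl h1
      (f := fun _ => 1) (e0 := fun _ => 1) (fun _ _ _ _ _ _ => le_rfl) z
    have e1 : D.C' N (uT N) = Pai (ev (-i)) (ev (-j)) (D.Q.up D.z) (D.Q.up D.z') N (uT N) := by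
      unfold Dt.C'
      rw [hd.t, hd.t']
    have e2 : D.msQ N = totQ (ev (-i)) (ev (-j)) (D.Q.up D.z) (D.Q.up D.z') N (uT N) fun _ => 1 := by
      unfold Dt.msQ
      rw [hd.t, hd.t']
    rw [e1, e2]
    exact h

/-! ### 3. The family of all levels -/

/-- **the lattice inputs at all pairs of levels** `(y i, y' i)` at the first root, `(s j, s' j)` at the second root -/
theorem l3_fam {U : Ultrafilter ℕ} (hU : (U : Filter ℕ) ≤ atTop) {P : Prm} (hP : P.Ok) {a b : Fin 3} (hab : a ≠ b) {W W' : Wn}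
    (hW : W = P.W ∨ W = P.Wc) (hW' : W' = P.W ∨ W' = P.Wc) {y y' s s' : ℕ → ℝ} (hy : ∀ i, 0 ≤ y i) (hy' : ∀ i, 0 ≤ y' i)
    (hs : ∀ j, 0 ≤ s j) (hs' : ∀ j, 0 ≤ s' j) (hG : GnQ U P.p.f) {L : ℝ}
    (hL : (DR P a b W W' 0 0 0 0).len ≤ L) {RA RB : ℕ → Set W3} (hA : ∀ N, RA N ⊆ Rst (ev a) (ev (-a)) P.p.f P.q.f W N (uT N))
    (hB : ∀ N, RB N ⊆ Rst (ev b) (ev (-b)) P.p.f P.q.f W' N (uT N)) {v : ℂ} (hv : ‖v‖ = 1) {t : ℕ → ℝ}
    (t0 : ∀ᶠ N : ℕ in (U : Filter ℕ), 0 < t N) {c c' : ℕ → ℝ} (hc : ∀ i, 0 ≤ c i) (hc' : ∀ j, 0 ≤ c' j)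
    (ht : ∀ i, ∀ᶠ N : ℕ in (U : Filter ℕ),
      (totQ (ev a) (ev b) (P.p.f.up (y i)) (P.p.f.up (y' i)) N (uT N) fun _ => 1).toReal ≤ c i * t N)
    (tt : ∀ j, ∀ᶠ N : ℕ in (U : Filter ℕ),
      t N * (totQ (ev (-a)) (ev (-b)) (P.q.f.up (s j)) (P.q.f.up (s' j)) N (uT N) fun _ => 1).toReal ≤
        c' j * (N : ℝ) ^ (7 / 6 : ℝ)) {bA bB : ℕ → FiniteMeasure Pie}
    (eA : ∀ᶠ N : ℕ in (U : Filter ℕ), (bA N : Measure Pie) =
      bW (RA N) (fun _ => 1) (ENNReal.ofReal ((N : ℝ) ^ (-(3 / 4) : ℝ))) (arW v N (uT N)))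
    (eB : ∀ᶠ N : ℕ in (U : Filter ℕ), (bB N : Measure Pie) =
      bW (RB N) (fun _ => 1) (ENNReal.ofReal ((N : ℝ) ^ (-(3 / 4) : ℝ))) (arW v N (uT N))) (i j : ℕ) :
    L3In (U : Filter ℕ) (DR P a b W W' (y i) (y' i) (s j) (s' j)) L (P.CRp a b (y i) (y' i)) (P.CRq a b (s j) (s' j)) RA RB
      (fun _ _ => 1) (fun _ _ => 1) (fun _ _ => 1) (fun _ _ => 1)
      (fun N => w1 (P.CRp a b (y i) (y' i) N) (P.CRq a b (s j) (s' j) N) (RA N) (RB N))
      (fun N => mdt v (DR P a b W W' (y i) (y' i) (s j) (s' j)) N)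
      (kW (ev a) (ev b) (P.p.f.up (y i)) (P.p.f.up (y' i)) v) (kW (ev (-a)) (ev (-b)) (P.q.f.up (s j)) (P.q.f.up (s' j)) v) v t
      (fun N => totQ (ev a) (ev b) (P.p.f.up (y i)) (P.p.f.up (y' i)) N (uT N) fun _ => 1)
      (fun N => totQ (ev (-a)) (ev (-b)) (P.q.f.up (s j)) (P.q.f.up (s' j)) N (uT N) fun _ => 1) (c i) (BQ P.p.f)
      (rQ P.p.f P.p.f) (c' j) (BQ P.q.f) bA bB :=
  l3_dt hU (DR_ok hP hab hW hW' (hy i) (hy' i) (hs j) (hs' j)) hab (DR_dir P a b W W' (y i) (y' i) (s j) (s' j)) hG hL hA hB hv t0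
    (hc i) (hc' j) (ht i) (tt j) eA eB

/-! ### 4. The masses -/

/-- the numbers of a gate -/
structure NumT (ζ A : ℝ) (P : Tp) : Prop where
  κ1 : ζ * P.m ≤ P.κ1
  th : P.th ≤ 1 - ζ
  lb : A * P.m ^ (4 / 3 : ℝ) ≤ P.lb

lemma NumT.mono {ζ A A' : ℝ} {P : Tp} (hP : P.Ok) (h : NumT ζ A P) (hA : A' ≤ A) : NumT ζ A' P :=
  ⟨h.κ1, h.th, (mul_le_mul_of_nonneg_right hA (Real.rpow_nonneg hP.m.le _)).trans h.lb⟩

/-- **the masses and the weights on the cells** -/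
theorem all_dt (hQB : Pool.Agent.ROT.F.QB) {ζ : ℝ} (hζ : 0 < ζ) : ∃ x0 A : ℝ, 0 < x0 ∧ 0 < A ∧ ∀ {i j : Fin 3}, i ≠ j → ∀ D : Dt,
    D.Ok → D.Dir i j → NumT ζ A D.P → NumT ζ A D.Q →
    (∃ C0 : ℝ, 0 < C0 ∧ ∀ᶠ N : ℕ in atTop, D.msP N * D.msQ N ≤ ENNReal.ofReal (C0 * (N : ℝ) ^ (7 / 6 : ℝ))) ∧
    (∀ v : ℂ, ‖v‖ = 1 → ∀ᶠ N : ℕ in atTop, ∀ z ∈ EL,
      (((N : ℝ)⁻¹ : ℝ) : ℂ) * -(v * z) ∈ Metric.ball (-(v * ((D.P.m : ℂ) * (ev i - ev j)))) (D.P.m / 8) →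
        ENNReal.ofReal (x0 / D.P.m ^ 2 / (N : ℝ) ^ 2) * D.msP N ≤ gam (D.C N (uT N)) (fun _ => 1) z) ∧
    (∀ v : ℂ, ‖v‖ = 1 → ∀ᶠ N : ℕ in atTop, ∀ z ∈ EL,
      (((N : ℝ)⁻¹ : ℝ) : ℂ) * -(v * z) ∈ Metric.ball (-(v * ((D.Q.m : ℂ) * (ev (-i) - ev (-j))))) (D.Q.m / 8) →
        ENNReal.ofReal (x0 / D.Q.m ^ 2 / (N : ℝ) ^ 2) * D.msQ N ≤ gam (D.C' N (uT N)) (fun _ => 1) z) := by
  obtain ⟨A1, hA1, h1⟩ := tot_cls hQB hζ
  obtain ⟨x0, A2, hx0, hA2, h2⟩ := low_win hζ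
  refine ⟨x0, max A1 A2, hx0, lt_max_of_lt_left hA1, fun {i j} hij D ok hd nP nQ => ⟨?_, fun v hv => ?_, fun v hv => ?_⟩⟩
  · have a1 := nP.mono ok.P (le_max_left A1 A2)
    have a2 := nQ.mono ok.Q (le_max_left A1 A2)
    obtain ⟨C0, hC0, h3⟩ := h1 hij D.P D.Q ok.P ok.Q a1.κ1 a2.κ1 a1.th a2.th a1.lb a2.lb ok.y ok.y' ok.z ok.z'
    refine ⟨C0, hC0, h3.mono fun N h4 => ?_⟩
    unfold Dt.msP Dt.msQ
    rw [hd.d, hd.d', hd.t, hd.t']
    exact h4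
  · have a1 := nP.mono ok.P (le_max_right A1 A2)
    have h3 := h2 hij (D.P.up D.y) (D.P.up D.y') v (ok.P.up ok.y) (ok.P.up ok.y') rfl a1.κ1 a1.κ1 a1.th a1.th a1.lb a1.lb hv
    filter_upwards [h3] with N h4 z hz hzO
    have h5 := h4 (fun _ => 1) (fun _ => 1) (fun _ _ _ _ _ _ => le_rfl) z hz hzO
    unfold Dt.msP Dt.C
    rw [hd.d, hd.d']
    exact h5
  · have a1 := nQ.mono ok.Q (le_max_right A1 A2)
    have h0 : -i ≠ -j := fun e => hij (neg_injective e)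
    have h3 := h2 h0 (D.Q.up D.z) (D.Q.up D.z') v (ok.Q.up ok.z) (ok.Q.up ok.z') rfl a1.κ1 a1.κ1 a1.th a1.th a1.lb a1.lb hv
    filter_upwards [h3] with N h4 z hz hzO
    have h5 := h4 (fun _ => 1) (fun _ => 1) (fun _ _ _ _ _ _ => le_rfl) z hz hzO
    unfold Dt.msQ Dt.C'
    rw [hd.t, hd.t']
    exact h5

/-- the common normalisation -/
noncomputable def tn (N : ℕ) : ℝ := (N : ℝ) ^ (7 / 12 : ℝ)

lemma tn_pos {l : Filter ℕ} (hl : l ≤ atTop) : ∀ᶠ N : ℕ in l, 0 < tn N := by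
  filter_upwards [hl (eventually_ge_atTop 1)] with N h1
  have : (0 : ℝ) < N := by exact_mod_cast h1
  unfold tn
  positivity

lemma tn_sq {N : ℕ} (hN : 0 < N) : tn N * tn N = (N : ℝ) ^ (7 / 6 : ℝ) := by
  have : (0 : ℝ) < N := by exact_mod_cast hN
  unfold tn
  rw [← Real.rpow_add this]
  norm_num

section nrm

variable {l : Filter ℕ} {a b : ℕ → ℝ≥0∞}

/-- **the mass at a level from above**: the product is at most `C N ^ (7 / 6)`, the other factor at least `c N ^ (7 / 12)` -/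
theorem nrm_up (hl : l ≤ atTop) (hb : ∀ N, b N ≠ ∞) {c C : ℝ} (hc : 0 < c) (hC : 0 ≤ C)
    (low : ∀ᶠ N : ℕ in l, ENNReal.ofReal (c * tn N) ≤ b N)
    (up : ∀ᶠ N : ℕ in l, a N * b N ≤ ENNReal.ofReal (C * (N : ℝ) ^ (7 / 6 : ℝ))) : ∀ᶠ N in l, (a N).toReal ≤ C / c * tn N := by
  filter_upwards [hl (eventually_ge_atTop 1), tn_pos hl, low, up] with N h1 h2 h3 h4
  have h5 : c * tn N ≤ (b N).toReal := by
    have := ENNReal.toReal_mono (hb N) h3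
    rwa [ENNReal.toReal_ofReal (by positivity)] at this
  have h6 : (a N).toReal * (b N).toReal ≤ C * (tn N * tn N) := by
    rw [tn_sq h1]
    have := ENNReal.toReal_mono ENNReal.ofReal_ne_top h4
    rwa [ENNReal.toReal_mul, ENNReal.toReal_ofReal (by positivity)] at this
  have h7 : (a N).toReal * (c * tn N) ≤ C * (tn N * tn N) :=
    (mul_le_mul_of_nonneg_left h5 ENNReal.toReal_nonneg).trans h6
  rw [div_mul_eq_mul_div, le_div_iff₀ hc]
  have h8 : (a N).toReal * c * tn N ≤ C * tn N * tn N := by linarith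
  exact le_of_mul_le_mul_right h8 h2

/-- the mass from below -/
lemma nrm_lo (hb : ∀ N, b N ≠ ∞) {c : ℝ} (low : ∀ᶠ N : ℕ in l, ENNReal.ofReal (c * tn N) ≤ b N) :
    ∀ᶠ N in l, c * tn N ≤ (b N).toReal := by
  filter_upwards [low] with N h3
  exact (ENNReal.ofReal_le_iff_le_toReal (hb N)).1 h3

/-- the second root: from above -/
lemma nrm_q (hl : l ≤ atTop) {c : ℝ} (h : ∀ᶠ N in l, (b N).toReal ≤ c * tn N) :
    ∀ᶠ N : ℕ in l, tn N * (b N).toReal ≤ c * (N : ℝ) ^ (7 / 6 : ℝ) := by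
  filter_upwards [hl (eventually_ge_atTop 1), tn_pos hl, h] with N h1 h2 h3
  rw [← tn_sq h1]
  have := mul_le_mul_of_nonneg_left h3 h2.le
  linarith

/-- the second root: from below -/
lemma nrm_q' (hl : l ≤ atTop) {c : ℝ} (h : ∀ᶠ N in l, c * tn N ≤ (b N).toReal) :
    ∀ᶠ N : ℕ in l, c * (N : ℝ) ^ (7 / 6 : ℝ) ≤ tn N * (b N).toReal := by
  filter_upwards [hl (eventually_ge_atTop 1), tn_pos hl, h] with N h1 h2 h3
  rw [← tn_sq h1]
  have := mul_le_mul_of_nonneg_left h3 h2.le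
  linarith

end nrm

end Pool.Agent.ROT.F3.CK
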