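import Pool.Agent.ROT.F3NulX
import Pool.Agent.ROT.F3Seam0
import Pool.Agent.ROT.F3CoreK
import Pool.Agent.ROT.F3Num22
import Pool.Agent.ROT.F3GenQ
import Pool.Agent.ROT.F3NulQ

/-!
# ROT, F3, row NUL (helper15): N5 for the data of the rows, generic data

* **`n5_dt`** : N5 for data with the directions of the classes `i ≠ j`, `NumT`;
* **`n5_prm`** : for the rotated lattice, all pairs; `n5_nr` : near the base data, at small scales;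
* `FamL` : the limits of the classes with the thresholds `yk` of all cells;
* **`nul_gen`** : eventually along `gP z B` : the free cells for all the members of the dense family (helper11) of the coordinates from
  `f.l` on, at the functional levels `Af + f.l`; the functional levels are not ends of cells.
-/

set_option autoImplicit false
set_option linter.unusedSectionVars false

open MeasureTheory Set Filter Topology
open scoped ENNReal NNReal Classical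

namespace Pool.Agent.ROT.F3.NW

open Pool.Agent.ROT.F3 Pool.Agent.ROT.F3.CC Pool.Agent.ROT.F3.CK Pool.Agent.ROT.F3.LF Pool.Agent.ROT.F3.Nul Pool.Agent.ROT.F3E

/-- **N5 for the data `D`** -/
theorem n5_dt (hQB : Pool.Agent.ROT.F.QB) {ζ : ℝ} (hζ : 0 < ζ) : ∃ A : ℝ, 0 < A ∧ ∀ {i j : Fin 3}, i ≠ j → ∀ D : Dt, D.Ok → D.Dir i j →
    NumT ζ A D.P → NumT ζ A D.Q → 0 < D.V.t1 → 0 < D.V'.t1 → ∀ b : ℝ, D.len ≤ b → N5 D b := by
  obtain ⟨A, hA, h⟩ := nul_lv hQB hζ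
  refine ⟨A, hA, fun {i j} hij D ok dir nP nQ v1 v2 b hb => ?_⟩
  exact h D ok hij dir.d dir.d' dir.t dir.t' nP.κ1 nQ.κ1 nP.th nQ.th nP.lb nQ.lb v1 v2 b hb

/-- **N5 for the rotated lattice** -/
theorem n5_prm (hQB : Pool.Agent.ROT.F.QB) {ζ : ℝ} (hζ : 0 < ζ) : ∃ A : ℝ, 0 < A ∧ ∀ P : Prm, P.Ok → NumT ζ A P.p.f → NumT ζ A P.q.f →
    ∀ {i j : Fin 3}, i ≠ j → ∀ y y' z z' : ℝ, 0 ≤ y → 0 ≤ y' → 0 ≤ z → 0 ≤ z' → ∀ b : ℝ,
      (DR P i j (wnd P i) (wnd P j) y y' z z').len ≤ b → N5 (DR P i j (wnd P i) (wnd P j) y y' z z') b := by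
  obtain ⟨A, hA, h⟩ := n5_dt hQB hζ
  refine ⟨A, hA, fun P ok nP nQ i j hij y y' z z' hy hy' hz hz' b hb => ?_⟩
  have w : ∀ a, wnd P a = P.W ∨ wnd P a = P.Wc := fun a => by
    by_cases h : a = 0
    · subst h
      exact Or.inl (wnd_zero P)
    · exact Or.inr (wnd_ne P h)
  have t : ∀ a, 0 < (wnd P a).t1 := fun a => by
    rcases w a with e | e
    · rw [e]
      exact ok.t0.trans ok.t1
    · rw [e]
      exact ok.t1c
  exact h hij _ (DR_ok ok hij (w i) (w j) hy hy' hz hz') (DR_dir P i j _ _ y y' z z') nP nQ (t i) (t j) b hb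

/-- **N5 for all the data near the base data** at small scales -/
theorem n5_nr (hQB : Pool.Agent.ROT.F.QB) {τ : ℝ} (hτ : 0 < τ) : ∃ ρ0 : ℝ, 0 < ρ0 ∧ ∀ ρ : ℝ, 0 < ρ → ρ ≤ ρ0 → ∀ P : Prm, P.Ok →
    P.p.Nr (bE ρ τ) → P.q.Nr (bE ρ τ) → ∀ {i j : Fin 3}, i ≠ j → ∀ y y' z z' : ℝ, 0 ≤ y → 0 ≤ y' → 0 ≤ z → 0 ≤ z' → ∀ b : ℝ,
      (DR P i j (wnd P i) (wnd P j) y y' z z').len ≤ b → N5 (DR P i j (wnd P i) (wnd P j) y y' z z') b := by
  obtain ⟨A, hA, h⟩ := n5_prm hQB (ζ := 1 / 12000) (by norm_num)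
  obtain ⟨ρ0, h0, hl⟩ := num_lb hA.le hτ
  refine ⟨ρ0, h0, fun ρ hρ hρ0 P ok hp hq => h P ok ?_ ?_⟩
  · exact ⟨(num_low hρ hp).2.1, (num_low hρ hp).2.2, (hl ρ hρ hρ0 _ hp).2.1⟩
  · exact ⟨(num_low hρ hq).2.1, (num_low hρ hq).2.2, (hl ρ hρ hρ0 _ hq).2.1⟩

/-! ### 2. Generic data -/

section gen

variable {V : Filter ℕ} [V.NeBot] {b : ℝ} {X : Type*} [PseudoMetricSpace X] [MeasurableSpace X] [BorelSpace X] [CompleteSpace X]
  [SecondCountableTopology X] {cc : ℕ → W3 × ℕ → X} {ν : Measure X} {t0 : ℝ}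

/-- the data of the rotated lattice for the pair `i`, `j` -/
noncomputable def dR (P : Prm) (i j : Fin 3) : Dt := DR P i j (wnd P i) (wnd P j) 0 0 0 0

/-- the limits of the classes of the pair `i`, `j` with the thresholds of all cells -/
def FamL (V : Filter ℕ) (b : ℝ) (cc : ℕ → W3 × ℕ → X) (ν : Measure X) (t0 : ℝ) (P : Prm) (i j : Fin 3)
    (E : ℕ → (Fin 4 → ℤ) → X → ℝ) (Φ : ℕ → (Fin 4 → ℤ) → X → Fin 8 → ℝ) (Λ : ℕ → (Fin 4 → ℤ) → X → Fin 4 → ℝ) : Prop :=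
  ∀ n k, LvO V (fun N => mwE N b) cc ν (dR P i j) (acl P i) (acl P j) (fun _ _ => yk (dR P i j) t0 n k) (E n k) (Φ n k) (Λ n k)

/-- **the cells at the functional levels `Af + x` of the strand `s`** : the hypothesis `hg` of `nulq_act` -/
def FreeC (ν : Measure X) (t0 : ℝ) (mm : Fin 4 → ℝ) (E : ℕ → (Fin 4 → ℤ) → X → ℝ) (Λ : ℕ → (Fin 4 → ℤ) → X → Fin 4 → ℝ) (s : Fin 4)
    (Af : X → ℝ) (x : ℝ) : Prop :=
  ∀ᵐ g ∂ν, ∀ n1 k1, Λ n1 k1 g s ≠ Af g + x ∧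
    ∃ᶠ n in atTop, ¬ BdE t0 mm (fun n k => E n k g ≠ 0) (fun n k => Λ n k g) n1 k1 s n (kn t0 n (Af g + x))

/-- the level `f.l` of the root of the strand -/
def fl (P : Prm) (s : Fin 4) : ℝ := ![P.p.f.l, P.p.f.l, P.q.f.l, P.q.f.l] s

lemma acl_A (P : Prm) (i j : Fin 3) (N : ℕ) : acl P i N ⊆ (dR P i j).A N (uT N) := acl_sub P i N

lemma acl_B (P : Prm) (i j : Fin 3) (N : ℕ) : acl P j N ⊆ (dR P i j).B N (uT N) := acl_sub P j N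

lemma fam_free (hVa : V ≤ atTop) (hC : Cv V (fun N => mwE N b) cc ν) {P : Prm} {i j : Fin 3} (h5 : N5 (dR P i j) b)
    {E : ℕ → (Fin 4 → ℤ) → X → ℝ} {Φ : ℕ → (Fin 4 → ℤ) → X → Fin 8 → ℝ} {Λ : ℕ → (Fin 4 → ℤ) → X → Fin 4 → ℝ}
    (H : FamL V b cc ν t0 P i j E Φ Λ) (s : Fin 4) {Af : X → ℝ} (hAf : Measurable Af) :
    ∀ᵐ x : ℝ, FreeC ν t0 (Dt.mm (dR P i j)) E Λ s Af x :=
  nul_shift h5 hVa hC (Eventually.of_forall fun N => acl_A P i j N) (Eventually.of_forall fun N => acl_B P i j N) H s hAf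

lemma free_ae (hVa : V ≤ atTop) (hC : Cv V (fun N => mwE N b) cc ν) {QQ : ℕ → Prm} (h5 : ∀ m (i j : Fin 3), i ≠ j → N5 (dR (QQ m) i j) b)
    {E : Prm → Fin 3 → Fin 3 → ℕ → (Fin 4 → ℤ) → X → ℝ} {Φ : Prm → Fin 3 → Fin 3 → ℕ → (Fin 4 → ℤ) → X → Fin 8 → ℝ}
    {Λ : Prm → Fin 3 → Fin 3 → ℕ → (Fin 4 → ℤ) → X → Fin 4 → ℝ}
    (H : ∀ m (i j : Fin 3), i ≠ j → j ≠ 0 → FamL V b cc ν t0 (QQ m) i j (E (QQ m) i j) (Φ (QQ m) i j) (Λ (QQ m) i j))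
    {Af : Fin 3 → Fin 3 → X → Fin 4 → ℝ} (hAf : ∀ i j s, Measurable fun g => Af i j g s) :
    ∀ᵐ x : ℝ, ∀ i j : Fin 3, i ≠ j → j ≠ 0 → ∀ s, (∀ m, FreeC ν t0 (Dt.mm (dR (QQ m) i j)) (E (QQ m) i j) (Λ (QQ m) i j) s
      (fun g => Af i j g s) x) ∧ ∀ᵐ g ∂ν, ∀ (n : ℕ) (k : ℤ), Af i j g s + x ≠ lft t0 n k := by
  have := hC.fin'
  rw [ae_all_iff]
  intro i
  rw [ae_all_iff]
  intro j
  by_cases hij : i = j ∨ j = 0
  · refine Eventually.of_forall fun x h h' => ?_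
    rcases hij with h1 | h1
    · exact absurd h1 h
    · exact absurd h1 h'
  · rw [not_or] at hij
    have h1 : ∀ᵐ x : ℝ, ∀ s, (∀ m, FreeC ν t0 (Dt.mm (dR (QQ m) i j)) (E (QQ m) i j) (Λ (QQ m) i j) s (fun g => Af i j g s) x) ∧
        ∀ᵐ g ∂ν, ∀ (n : ℕ) (k : ℤ), Af i j g s + x ≠ lft t0 n k := by
      rw [ae_all_iff]
      intro s
      exact (ae_all_iff.2 fun m => fam_free hVa hC (h5 m i j hij.1) (H m i j hij.1 hij.2) s (hAf i j s)).and (lft_ne t0 (hAf i j s))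
    exact h1.mono fun x hx _ _ => hx

variable {z : ℂ} {B : Gn.Bx}

/-- **NUL at generic data** : `a` = objects chosen from the coordinates before `f.l`; the functional levels of the gates `x` are
`Af a i j g s`; `fam ..` = dense family of the coordinates from `p.f.l` on -/
theorem nul_gen (hVa : V ≤ atTop) (hC : Cv V (fun N => mwE N b) cc ν)
    (h5 : ∀ P : Prm, B.In z P → ∀ i j : Fin 3, i ≠ j → N5 (dR P i j) b) {R : Prm → Prop}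
    {E : Prm → Fin 3 → Fin 3 → ℕ → (Fin 4 → ℤ) → X → ℝ} {Φ : Prm → Fin 3 → Fin 3 → ℕ → (Fin 4 → ℤ) → X → Fin 8 → ℝ}
    {Λ : Prm → Fin 3 → Fin 3 → ℕ → (Fin 4 → ℤ) → X → Fin 4 → ℝ}
    (hRF : ∀ P, B.In z P → R P → ∀ i j : Fin 3, i ≠ j → j ≠ 0 → FamL V b cc ν t0 P i j (E P i j) (Φ P i j) (Λ P i j))
    (hR : ∀ B' : Gn.Bx, B'.Le B z → ∀ᶠ P in Gn.gP z B', R P)
    {A : Type*} {R0 : A → Prm → Prop} (hA : ∀ᶠ P in Gn.gP z B, ∃ a, R0 a P)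
    (hAe : ∀ a (P P' : Prm), Gn.Agr (.p (.f .l)) P P' → R0 a P → R0 a P')
    {Af : A → Fin 3 → Fin 3 → X → Fin 4 → ℝ} (hAf : ∀ a i j s, Measurable fun g => Af a i j g s) :
    ∀ᶠ P in Gn.gP z B, ∃ a, R0 a P ∧ Gn.QF (.p (.f .l)) z B R P (Gn.fam (.p (.f .l)) z B R P) ∧
      ∀ i j : Fin 3, i ≠ j → j ≠ 0 → ∀ s, (∀ m, FreeC ν t0 (Dt.mm (dR (Gn.fam (.p (.f .l)) z B R P m) i j))
        (E (Gn.fam (.p (.f .l)) z B R P m) i j) (Λ (Gn.fam (.p (.f .l)) z B R P m) i j) s (fun g => Af a i j g s) (fl P s)) ∧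
        ∀ᵐ g ∂ν, ∀ (n : ℕ) (k : ℤ), Af a i j g s + fl P s ≠ lft t0 n k := by
  obtain ⟨f, hf⟩ : ∃ f : Gn.Fd, f = .p (.f .l) := ⟨_, rfl⟩
  obtain ⟨f', hf'⟩ : ∃ f' : Gn.Fd, f' = .q (.f .l) := ⟨_, rfl⟩
  have hlt : f.rk < f'.rk := by
    rw [hf, hf']
    exact Gn.rk_lt (by decide +kernel)
  rw [← hf] at hAe ⊢
  -- the good values of the level
  obtain ⟨Gd, hGd⟩ : ∃ Gd : A → Prm → Fin 4 → ℝ → Prop, Gd = fun a P s x => ∀ i j : Fin 3, i ≠ j → j ≠ 0 →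
      (∀ m, FreeC ν t0 (Dt.mm (dR (Gn.fam f z B R P m) i j)) (E (Gn.fam f z B R P m) i j) (Λ (Gn.fam f z B R P m) i j) s
        (fun g => Af a i j g s) x) ∧ ∀ᵐ g ∂ν, ∀ (n : ℕ) (k : ℤ), Af a i j g s + x ≠ lft t0 n k := ⟨_, rfl⟩
  have hGa : ∀ a P, Gn.QFx f z B R P → ∀ᵐ x : ℝ, ∀ s, Gd a P s x := by
    intro a P hQ
    have hQ' := Gn.fam_spec hQ
    have h1 := free_ae (t0 := t0) hVa hC (QQ := Gn.fam f z B R P) (fun m i j hij => h5 _ (hQ'.win m) i j hij)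
      (fun m i j hij hj => hRF _ (hQ'.win m) (hQ'.q m) i j hij hj) (hAf a)
    rw [hGd]
    exact h1.mono fun x hx s i j hij hj => hx i j hij hj s
  have hGe : ∀ a (P P' : Prm) s x, Gn.Agr f P P' → Gd a P s x → Gd a P' s x := by
    intro a P P' s x h
    rw [hGd]
    show (∀ i j : Fin 3, _ → _ → _) → ∀ i j : Fin 3, _ → _ → _
    rw [Gn.fam_agr h]
    exact id
  have s0 : ∀ᶠ P in Gn.gP z B, (∃ a, R0 a P) ∧ Gn.QFx f z B R P := hA.and (Gn.qq_ex f hR)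
  -- the first root
  have s1 : ∀ᶠ P in Gn.gP z B, ∃ a, R0 a P ∧ Gn.QFx f z B R P ∧ ∀ s, s = 0 ∨ s = 1 → Gd a P s P.p.f.l := by
    refine Gn.gP_f_of f s0 (fun P P' h ⟨⟨a, h1⟩, h2⟩ => ⟨⟨a, hAe a P' P h.symm h1⟩, h2.agr h⟩) fun P hP ⟨⟨a, h1⟩, h2⟩ => ?_
    refine ⟨{x | ¬ ∀ s, Gd a P s x}, ae_iff.1 (hGa a P h2), fun P' hP' hAg hx => ?_⟩
    have hx' : ∀ s, Gd a P s (f.get P') := by
      by_contra hc
      exact hx hc
    refine ⟨a, hAe a P P' hAg h1, h2.agr hAg.symm, fun s _ => ?_⟩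
    have h3 := hGe a P P' s _ hAg (hx' s)
    rw [hf] at h3
    exact h3
  -- the second root
  have s2 : ∀ᶠ P in Gn.gP z B, ∃ a, R0 a P ∧ Gn.QFx f z B R P ∧ (∀ s, s = 0 ∨ s = 1 → Gd a P s P.p.f.l) ∧
      ∀ s, Gd a P s P.q.f.l := by
    have el : ∀ P P' : Prm, Gn.Agr f' P P' → P'.p.f.l = P.p.f.l := fun P P' h => by
      have := h.g f hlt
      rw [hf] at this
      exact this
    refine Gn.gP_f_of f' s1 (fun P P' h ⟨a, h1, h2, h3⟩ => ?_) fun P hP ⟨a, h1, h2, h3⟩ => ?_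
    · have h' : Gn.Agr f P P' := h.mono hlt.le
      refine ⟨a, hAe a P' P h'.symm h1, h2.agr h', fun s hs => ?_⟩
      rw [← el P P' h]
      exact hGe a P' P s _ h'.symm (h3 s hs)
    · refine ⟨{x | ¬ ∀ s, Gd a P s x}, ae_iff.1 (hGa a P h2), fun P' hP' hAg hx => ?_⟩
      have hx' : ∀ s, Gd a P s (f'.get P') := by
        by_contra hc
        exact hx hc
      have h' : Gn.Agr f P P' := hAg.mono hlt.le
      refine ⟨a, hAe a P P' h' h1, h2.agr h'.symm, fun s hs => ?_, fun s => ?_⟩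
      · rw [el P P' hAg]
        exact hGe a P P' s _ h' (h3 s hs)
      · have h4 := hGe a P P' s _ h' (hx' s)
        rw [hf'] at h4
        exact h4
  refine s2.mono fun P ⟨a, h1, h2, h3, h4⟩ => ⟨a, h1, Gn.fam_spec h2, fun i j hij hj s => ?_⟩
  rw [hGd] at h3 h4
  fin_cases s
  · exact h3 0 (Or.inl rfl) i j hij hj
  · exact h3 1 (Or.inr rfl) i j hij hj
  · exact h4 2 i j hij hj
  · exact h4 3 i j hij hj

end gen

end Pool.Agent.ROT.F3.NW
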