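import Pool.Agent.ROT.F3NulU

/-!
# ROT, block F3, row NUL (U) (helper68): near classes in the limit, from the words

`A` = the functional class (with marks `t`, functional levels `b`, slacks `sl`: all of them are negative on the class, almost surely);
`Aj` = the class at the parameters `j`, marks `tj`; `lv j` = levels, `pr j` = distance of the other parameters.

* **`LF.near_open`** : if, off a small mass, a word of the class `A` with slacks `≤ - κ0` is in all the classes `Aj` near it, with almost the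
  same marks, the same holds almost surely in the limit.
-/

set_option autoImplicit false

open Set Filter Topology MeasureTheory

namespace Pool.Agent.ROT.F3.LF

variable {ι : Type*} {l : Filter ι} {Ω : ι → Type*} [∀ i, MeasurableSpace (Ω i)] {P : ∀ i, Measure (Ω i)}
  {X : Type*} [PseudoMetricSpace X] [MeasurableSpace X] [BorelSpace X] [CompleteSpace X] [SecondCountableTopology X]
  {c : ∀ i, Ω i → X} {ν : Measure X}

open Classical in
/-- **near classes in the limit** -/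
theorem near_open [l.NeBot] (hC : Cv l P c ν) {J σ κ τ : Type*} [Countable J] [Fintype σ] [Fintype κ] [Fintype τ]
    {A : ∀ i, Ω i → Prop} {B : Set X} (hA : Ev l P c ν A B)
    {b : ∀ i, Ω i → σ → ℝ} {β : X → σ → ℝ} (hb : ∀ s, Lm l P c ν (fun i ω => b i ω s) fun x => β x s)
    {t : ∀ i, Ω i → κ → ℝ} {Φ : X → κ → ℝ} (ht : ∀ k, Lm l P c ν (fun i ω => t i ω k) fun x => Φ x k)
    {sl : ∀ i, Ω i → τ → ℝ} {Sl : X → τ → ℝ} (hsl : ∀ u, Lm l P c ν (fun i ω => sl i ω u) fun x => Sl x u)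
    {Aj : J → ∀ i, Ω i → Prop} {Bj : J → Set X} (hAj : ∀ j, Ev l P c ν (Aj j) (Bj j))
    {tj : J → ∀ i, Ω i → κ → ℝ} {Φj : J → X → κ → ℝ} (htj : ∀ j k, Lm l P c ν (fun i ω => tj j i ω k) fun x => Φj j x k)
    {lv : J → σ → ℝ} {pr : J → ℝ}
    (h : ∀ κ0 : ℝ, 0 < κ0 → ∀ η : ℝ, 0 < η → ∀ ε : ℝ, 0 < ε → ∃ μ : ℝ, 0 < μ ∧ ∀ᶠ i in l,
      (P i).real {ω | A i ω ∧ (∀ u, sl i ω u ≤ -κ0) ∧ ¬ ∀ j, (∀ s, |lv j s - b i ω s| ≤ μ) → pr j ≤ μ →
        Aj j i ω ∧ ∀ k, |t i ω k - tj j i ω k| ≤ η} ≤ ε) :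
    ∀ᵐ x ∂ν, x ∈ B → (∀ u, Sl x u < 0) → ∀ η : ℝ, 0 < η → ∃ μ : ℝ, 0 < μ ∧ ∀ j, (∀ s, |lv j s - β x s| < μ) → pr j ≤ μ →
      x ∈ Bj j ∧ ∀ k, |Φ x k - Φj j x k| ≤ η := by
  have hfin := hC.fin'
  have hpos : ∀ k : ℕ, (0 : ℝ) < 1 / ((k : ℝ) + 1) := fun k => by positivity
  choose μ hμ0 hμ using fun k n m : ℕ => h (1 / ((k : ℝ) + 1)) (hpos k) (1 / ((n : ℝ) + 1)) (hpos n) (1 / ((m : ℝ) + 1)) (hpos m)
  -- the open sets
  obtain ⟨V, hV⟩ : ∃ V : ℕ → ℕ → ℕ → J → Set (Bool ⊕ (τ ⊕ (σ ⊕ (κ ⊕ κ))) → ℝ), V = fun (k n m : ℕ) (j : J) =>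
    {u : Bool ⊕ (τ ⊕ (σ ⊕ (κ ⊕ κ))) → ℝ | 1 / 2 < u (Sum.inl true) ∧ (∀ a : τ, u (Sum.inr (Sum.inl a)) < -(1 / ((k : ℝ) + 1))) ∧
      (∀ s : σ, |lv j s - u (Sum.inr (Sum.inr (Sum.inl s)))| < μ k n m) ∧ (u (Sum.inl false) < 1 / 2 ∨
        ∃ q : κ, 1 / ((n : ℝ) + 1) < |u (Sum.inr (Sum.inr (Sum.inr (Sum.inl q)))) - u (Sum.inr (Sum.inr (Sum.inr (Sum.inr q))))|)} :=
    ⟨_, rfl⟩
  have oV : ∀ k n m j, IsOpen (V k n m j) := fun k n m j => by
    rw [hV]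
    beta_reduce
    have c0 : ∀ i : Bool ⊕ (τ ⊕ (σ ⊕ (κ ⊕ κ))), Continuous fun u : Bool ⊕ (τ ⊕ (σ ⊕ (κ ⊕ κ))) → ℝ => u i :=
      fun i => continuous_apply i
    have e : {u : Bool ⊕ (τ ⊕ (σ ⊕ (κ ⊕ κ))) → ℝ | 1 / 2 < u (Sum.inl true) ∧
        (∀ a : τ, u (Sum.inr (Sum.inl a)) < -(1 / ((k : ℝ) + 1))) ∧
        (∀ s : σ, |lv j s - u (Sum.inr (Sum.inr (Sum.inl s)))| < μ k n m) ∧ (u (Sum.inl false) < 1 / 2 ∨
        ∃ q : κ, 1 / ((n : ℝ) + 1) < |u (Sum.inr (Sum.inr (Sum.inr (Sum.inl q)))) - u (Sum.inr (Sum.inr (Sum.inr (Sum.inr q))))|)} =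
        {u | 1 / 2 < u (Sum.inl true)} ∩ ((⋂ a : τ, {u | u (Sum.inr (Sum.inl a)) < -(1 / ((k : ℝ) + 1))}) ∩
          ((⋂ s : σ, {u | |lv j s - u (Sum.inr (Sum.inr (Sum.inl s)))| < μ k n m}) ∩ ({u | u (Sum.inl false) < 1 / 2} ∪
            ⋃ q : κ, {u | 1 / ((n : ℝ) + 1) <
              |u (Sum.inr (Sum.inr (Sum.inr (Sum.inl q)))) - u (Sum.inr (Sum.inr (Sum.inr (Sum.inr q))))|}))) := by
      ext u
      simp only [mem_ofPred_eq, mem_inter_iff, mem_iInter, mem_union, mem_iUnion]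
    rw [e]
    refine (isOpen_lt continuous_const (c0 _)).inter ((isOpen_iInter_of_finite fun a => isOpen_lt (c0 _) continuous_const).inter
      ((isOpen_iInter_of_finite fun s => isOpen_lt (continuous_const.sub (c0 _)).abs continuous_const).inter
        ((isOpen_lt (c0 _) continuous_const).union (isOpen_iUnion fun q => isOpen_lt continuous_const ((c0 _).sub (c0 _)).abs))))
  obtain ⟨p, hp⟩ : ∃ p : J → ∀ i, Ω i → Bool ⊕ (τ ⊕ (σ ⊕ (κ ⊕ κ))) → ℝ, p = fun j i ω =>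
    Sum.elim (fun a : Bool => if a = true then bi (A i ω) else bi (Aj j i ω)) (Sum.elim (sl i ω) (Sum.elim (b i ω)
      (Sum.elim (t i ω) (tj j i ω)))) := ⟨_, rfl⟩
  obtain ⟨Ψ, hΨ⟩ : ∃ Ψ : J → X → Bool ⊕ (τ ⊕ (σ ⊕ (κ ⊕ κ))) → ℝ, Ψ = fun j x =>
    Sum.elim (fun a : Bool => if a = true then bi (x ∈ B) else bi (x ∈ Bj j)) (Sum.elim (Sl x) (Sum.elim (β x)
      (Sum.elim (Φ x) (Φj j x)))) := ⟨_, rfl⟩
  have hb2 : ∀ k n m : ℕ, ν.real {x | ∃ j : {j : J // pr j ≤ μ k n m}, Ψ j x ∈ V k n m j} ≤ 1 / ((m : ℝ) + 1) := by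
    intro k n m
    refine ex_open_le hC (J := {j : J // pr j ≤ μ k n m}) (p := fun j => p j) (Φ := fun j => Ψ j) (fun j q => ?_)
      (V := fun j => V k n m j) (fun j => oV k n m j) (hpos m).le fun F => ?_
    · rw [hp, hΨ]
      rcases q with q | q | q | q | q
      · cases q
        · exact hAj j
        · exact hA
      · exact hsl q
      · exact hb q
      · exact ht q
      · exact htj j q
    · filter_upwards [hμ k n m] with i hi
      have := hC.fin i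
      refine (measureReal_mono ?_).trans hi
      rintro ω ⟨j, -, hω⟩
      rw [hV, hp] at hω
      obtain ⟨g1, g2, g3, g4⟩ := hω
      have g1' : (1 : ℝ) / 2 < bi (A i ω) := g1
      have k1 : A i ω := by
        by_contra hc
        rw [bi_neg hc] at g1'
        norm_num at g1'
      refine ⟨k1, fun u => (g2 u).le, fun hall => ?_⟩
      obtain ⟨a1, a2⟩ := hall j (fun s => (g3 s).le) j.2
      rcases g4 with g4 | ⟨q, g4⟩
      · have g4' : bi (Aj j i ω) < 1 / 2 := g4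
        rw [bi_pos a1] at g4'
        norm_num at g4'
      · exact not_lt.2 (a2 q) g4
  have hae : ∀ k n : ℕ, ∀ᵐ x ∂ν, ∃ m : ℕ, ¬ ∃ j : {j : J // pr j ≤ μ k n m}, Ψ j x ∈ V k n m j := by
    intro k n
    rw [ae_iff]
    refine le_antisymm (ENNReal.le_of_forall_pos_le_add fun ε hε _ => ?_) bot_le
    obtain ⟨m, hm⟩ := exists_nat_one_div_lt (show (0 : ℝ) < (ε : ℝ) from by exact_mod_cast hε)
    rw [zero_add]
    refine (measure_mono (t := {x | ∃ j : {j : J // pr j ≤ μ k n m}, Ψ j x ∈ V k n m j}) fun x hx => ?_).trans ?_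
    · by_contra hc
      exact hx ⟨m, hc⟩
    · rw [← ofReal_measureReal (h := measure_ne_top _ _)]
      refine (ENNReal.ofReal_le_ofReal ((hb2 k n m).trans hm.le)).trans (le_of_eq ?_)
      exact ENNReal.ofReal_coe_nnreal
  filter_upwards [ae_all_iff.2 fun k => ae_all_iff.2 (hae k)] with x hx hB hS η hη
  -- a common slack
  have hk : ∃ k : ℕ, ∀ u, Sl x u < -(1 / ((k : ℝ) + 1)) := by
    rcases isEmpty_or_nonempty τ with hτ | hτ
    · exact ⟨0, fun u => (hτ.false u).elim⟩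
    · obtain ⟨u0, hu0⟩ := Finite.exists_max fun u => Sl x u
      obtain ⟨k, hk⟩ := exists_nat_one_div_lt (show (0 : ℝ) < -Sl x u0 by linarith [hS u0])
      exact ⟨k, fun u => by linarith [hu0 u]⟩
  obtain ⟨k, hk⟩ := hk
  obtain ⟨n, hn⟩ := exists_nat_one_div_lt hη
  obtain ⟨m, hm⟩ := hx k n
  refine ⟨μ k n m, hμ0 k n m, fun j hj hj2 => ?_⟩
  have hm2 : ¬ Ψ j x ∈ V k n m j := fun hc => hm ⟨⟨j, hj2⟩, hc⟩
  rw [hV, hΨ] at hm2
  by_contra hcon
  refine hm2 ⟨?_, hk, hj, ?_⟩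
  · show (1 : ℝ) / 2 < bi (x ∈ B)
    rw [bi_pos hB]
    norm_num
  · by_cases hBj : x ∈ Bj j
    · right
      by_contra hne
      push Not at hne
      exact hcon ⟨hBj, fun q => (hne q).trans hn.le⟩
    · left
      show bi (x ∈ Bj j) < 1 / 2
      rw [bi_neg hBj]
      norm_num

end Pool.Agent.ROT.F3.LF
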