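import Pool.Agent.ROT.F3NulU

/-!
# ROT, block F3, row NUL (U), all parameters (helper68)

As F3NulU, with all parameters of the double gate near the given ones: `(l, r', ρ'; m', r2', ρ2')` near `(b + a, r, ρ; m, r2, ρ2)`.

* `mk1_nearQ`, **`mkB_nearQ`** : one word; **`near_evQ1`, `near_evQ2`** : systems;
* **`LF.mk_contQ`** : the limit, a countable family `j` of parameters, `lv j` = level, `pr j` = distance of the other parameters.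
-/

set_option autoImplicit false

open Set Filter Topology MeasureTheory

namespace Pool.Agent.ROT.F3

open Pool.Agent.NTS.Res
open Pool.Agent.SCF.Z Pool.Agent.SCF.M

/-! ### one word -/

section det

variable {n : ℕ} {s : Fin n → Fin 3} {S : ℝ}

/-- **one gate** -/
lemma mk1_nearQ {D D' : ℝ → ℕ → Prop} {a a' l r r' ρ ρ' μ η : ℝ} (hS : 0 ≤ S) (hr : r ≤ ρ) (hr' : r' ≤ ρ') (hη : 0 ≤ η)
    (h : |a' - a| ≤ μ) (h1 : |r' - r| ≤ μ) (h2 : |ρ' - ρ| ≤ μ)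
    (hD : ∀ j, D (a' * S) j ↔ D' (l * S) j) (hG : GStab D S a r ρ μ η s) : |mk1 D a r ρ S s - mk1 D' l r' ρ' S s| ≤ η := by
  obtain ⟨g1, g2⟩ := hG a' r' ρ' h h1 h2
  by_cases hk : ∃ k, TP D (a * S) (r * S) (ρ * S) s k
  · obtain ⟨k, hk⟩ := hk
    obtain ⟨k', h1, h2⟩ := g1 k hk
    rw [mk1_of hS hr hk, mk1_of hS hr' ((tp_congr hD).1 h1)]
    exact h2
  · push Not at hk
    have hk' : ∀ k', ¬ TP D' (l * S) (r' * S) (ρ' * S) s k' := fun k' h' => by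
      obtain ⟨k, h1, -⟩ := g2 k' ((tp_congr hD).2 h')
      exact hk k h1
    rw [mk1_no hk, mk1_no hk', sub_self, abs_zero]
    exact hη

/-- **the gate over the gate** -/
lemma mkB_nearQ {D D' : ℝ → ℕ → Prop} {a a' l r r' ρ ρ' μ η m m' r2 r2' ρ2 ρ2' μ2 η2 : ℝ} (hS : 0 < S) (hr : r ≤ ρ)
    (hr' : r' ≤ ρ') (hr2 : r2 ≤ ρ2) (hr2' : r2' ≤ ρ2') (hη2 : 0 ≤ η2) (h : |a' - a| ≤ μ) (h1 : |r' - r| ≤ μ)
    (h2 : |ρ' - ρ| ≤ μ) (k0 : |m' - m| ≤ μ2 / 2) (k1 : |r2' - r2| ≤ μ2) (k2 : |ρ2' - ρ2| ≤ μ2)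
    (hD : ∀ j, D (a' * S) j ↔ D' (l * S) j) (hG : GStab D S a r ρ μ η s)
    (hG2 : ∀ c, TP D (a * S) (r * S) (ρ * S) s c → GStab (Dv s (pos s c).re) S m r2 ρ2 μ2 η2 s) (hm : MdS η (μ2 / 2 * S) s) :
    |mkB D a r ρ m r2 ρ2 S s - mkB D' l r' ρ' m' r2' ρ2' S s| ≤ η2 := by
  obtain ⟨g1, g2⟩ := hG a' r' ρ' h h1 h2
  -- the base moves little
  have key : ∀ c c' : ℕ, TP D (a * S) (r * S) (ρ * S) s c → TP D' (l * S) (r' * S) (ρ' * S) s c' →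
      |(c : ℝ) / n - (c' : ℝ) / n| ≤ η → ∃ m'' : ℝ, |m'' - m| ≤ μ2 ∧
        ∀ j, Dv s (pos s c).re (m'' * S) j ↔ Dv s (pos s c').re (m' * S) j := by
    intro c c' hc hc' hcc
    have h1 := hm.2 c c' hc.2.1.le hc'.2.1.le hcc
    refine ⟨m' + ((pos s c').re - (pos s c).re) / S, ?_, fun j => ?_⟩
    · have e1 : |((pos s c').re - (pos s c).re) / S| ≤ μ2 / 2 := by
        rw [abs_div, abs_of_pos hS, div_le_iff₀ hS, ← Complex.sub_re]
        refine (Complex.abs_re_le_norm _).trans ?_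
        rw [norm_sub_rev]
        exact h1
      have e2 := abs_le.1 e1
      have e3 := abs_le.1 k0
      rw [abs_le]
      constructor <;> linarith
    · unfold Dv
      have e : (m' + ((pos s c').re - (pos s c).re) / S) * S = m' * S + ((pos s c').re - (pos s c).re) := by
        field_simp
      rw [e]
      constructor <;> intro h3 <;> linarith
  by_cases hk : ∃ c x, GB2 D a r ρ m r2 ρ2 S s c x
  · obtain ⟨c, x, hc, hx⟩ := hk
    obtain ⟨c', h1, h2⟩ := g1 c hc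
    have h1' := (tp_congr hD).1 h1
    obtain ⟨m'', h3, h4⟩ := key c c' hc h1' h2
    obtain ⟨x', h5, h6⟩ := (hG2 c hc m'' r2' ρ2' h3 k1 k2).1 x hx
    rw [mkB_of hS.le hr hr2 ⟨hc, hx⟩, mkB_of hS.le hr' hr2' ⟨h1', (tp_congr h4).1 h5⟩]
    exact h6
  · push Not at hk
    have hk' : ∀ c' x', ¬ GB2 D' l r' ρ' m' r2' ρ2' S s c' x' := fun c' x' h' => by
      obtain ⟨c, h1, h2⟩ := g2 c' ((tp_congr hD).2 h'.1)
      obtain ⟨m'', h3, h4⟩ := key c c' h1 h'.1 h2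
      obtain ⟨x, h5, -⟩ := (hG2 c h1 m'' r2' ρ2' h3 k1 k2).2 x' ((tp_congr h4).2 h'.2)
      exact hk c x ⟨h1, h5⟩
    rw [mkB_no hk, mkB_no hk', sub_self, abs_zero]
    exact hη2

end det

/-! ### systems of words -/

section sys

variable {ι Ω : Type*} [MeasurableSpace Ω] {U : Filter ι} {P : ι → Measure Ω} [∀ i, IsFiniteMeasure (P i)] {nn : ι → Ω → ℕ}
  {wd : ∀ (i : ι) (s : Ω), Fin (nn i s) → Fin 3} {S : ι → ℝ} {D D' D2 : ι → Ω → ℝ → ℕ → Prop}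

/-- **one gate over a base `b`, all parameters near `(b + a, r, ρ)` at once** -/
theorem near_evQ1 {a r ρ : ℝ} (hS : ∀ i, 0 < S i) (hr : r < ρ) (hG : StbG U P nn wd S D a r ρ) {b : ι → Ω → ℝ}
    (hD : ∀ i s (l : ℝ) j, D i s ((l - b i s) * S i) j ↔ D' i s (l * S i) j) :
    ∀ η : ℝ, 0 < η → ∀ ε : ℝ, 0 < ε → ∃ μ : ℝ, 0 < μ ∧ ∀ᶠ i in U,
      (P i).real {s | ¬ ∀ l r' ρ' : ℝ, |l - (b i s + a)| ≤ μ → |r' - r| ≤ μ → |ρ' - ρ| ≤ μ →
        |mk1 (D i s) a r ρ (S i) (wd i s) - mk1 (D' i s) l r' ρ' (S i) (wd i s)| ≤ η} ≤ ε := by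
  intro η hη ε hε
  obtain ⟨μ0, h0, h1⟩ := hG η hη ε hε
  obtain ⟨μ, hμ⟩ : ∃ μ, μ = min μ0 ((ρ - r) / 2) := ⟨_, rfl⟩
  have hμ0 : 0 < μ := by
    rw [hμ]
    exact lt_min h0 (by linarith)
  have hμ1 : μ ≤ μ0 := by rw [hμ]; exact min_le_left _ _
  have hμ2 : μ ≤ (ρ - r) / 2 := by rw [hμ]; exact min_le_right _ _
  refine ⟨μ, hμ0, ?_⟩
  filter_upwards [h1 μ hμ1] with i hi
  refine (measureReal_mono fun s hs => ?_).trans hi
  intro hst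
  refine hs fun l r' ρ' hl hr1 hρ1 => ?_
  have e1 := abs_le.1 hr1
  have e2 := abs_le.1 hρ1
  exact mk1_nearQ (hS i).le hr.le (by linarith) hη.le (by rwa [sub_sub]) hr1 hρ1 (hD i s l) hst

/-- **the double gate, all parameters near `(b + a, r, ρ; m, r2, ρ2)` at once** -/
theorem near_evQ2 {a r ρ m r2 ρ2 : ℝ} (hS : ∀ i, 0 < S i) (hr : r < ρ) (hr2 : r2 < ρ2)
    (hmd : ∀ ω : ℝ, 0 < ω → ∀ ε : ℝ, 0 < ε → ∃ η : ℝ, 0 < η ∧ ∀ᶠ i in U, (P i).real {s | ¬ MdS η (ω * S i) (wd i s)} ≤ ε)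
    (hG : StbG U P nn wd S D a r ρ) (hG2 : StbG U P nn wd S D2 m r2 ρ2)
    (h2 : ∀ i s c, TP (D i s) (a * S i) (r * S i) (ρ * S i) (wd i s) c → D2 i s = Dv (wd i s) (pos (wd i s) c).re)
    {b : ι → Ω → ℝ} (hD : ∀ i s (l : ℝ) j, D i s ((l - b i s) * S i) j ↔ D' i s (l * S i) j) :
    ∀ η : ℝ, 0 < η → ∀ ε : ℝ, 0 < ε → ∃ μ : ℝ, 0 < μ ∧ ∀ᶠ i in U,
      (P i).real {s | ¬ ∀ l r' ρ' m' r2' ρ2' : ℝ, |l - (b i s + a)| ≤ μ → |r' - r| ≤ μ → |ρ' - ρ| ≤ μ →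
        |m' - m| ≤ μ → |r2' - r2| ≤ μ → |ρ2' - ρ2| ≤ μ →
        |mkB (D i s) a r ρ m r2 ρ2 (S i) (wd i s) - mkB (D' i s) l r' ρ' m' r2' ρ2' (S i) (wd i s)| ≤ η} ≤ ε := by
  intro η hη ε hε
  obtain ⟨μ2', k0, k1⟩ := hG2 η hη (ε / 3) (by positivity)
  obtain ⟨μ2, hμ2⟩ : ∃ μ2, μ2 = min μ2' ((ρ2 - r2) / 2) := ⟨_, rfl⟩
  have k00 : 0 < μ2 := by
    rw [hμ2]
    exact lt_min k0 (by linarith)
  have k01 : μ2 ≤ μ2' := by rw [hμ2]; exact min_le_left _ _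
  have k02 : μ2 ≤ (ρ2 - r2) / 2 := by rw [hμ2]; exact min_le_right _ _
  obtain ⟨η1, l0, l1⟩ := hmd (μ2 / 2) (by positivity) (ε / 3) (by positivity)
  obtain ⟨μ0, h0, h1⟩ := hG η1 l0 (ε / 3) (by positivity)
  obtain ⟨μ, hμ⟩ : ∃ μ, μ = min (min μ0 ((ρ - r) / 2)) (μ2 / 2) := ⟨_, rfl⟩
  have hμ0 : 0 < μ := by
    rw [hμ]
    exact lt_min (lt_min h0 (by linarith)) (by linarith)
  have hμ1 : μ ≤ μ0 := by rw [hμ]; exact (min_le_left _ _).trans (min_le_left _ _)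
  have hμ3 : μ ≤ (ρ - r) / 2 := by rw [hμ]; exact (min_le_left _ _).trans (min_le_right _ _)
  have hμ4 : μ ≤ μ2 / 2 := by rw [hμ]; exact min_le_right _ _
  refine ⟨μ, hμ0, ?_⟩
  filter_upwards [h1 μ hμ1, k1 μ2 k01, l1] with i c1 c2 c3
  refine (measureReal_mono (s₂ := ({s | ¬ GStab (D i s) (S i) a r ρ μ η1 (wd i s)} ∪
    {s | ¬ GStab (D2 i s) (S i) m r2 ρ2 μ2 η (wd i s)}) ∪ {s | ¬ MdS η1 (μ2 / 2 * S i) (wd i s)}) fun s hs => ?_).trans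
    ((measureReal_union_le _ _).trans ((add_le_add (measureReal_union_le _ _) le_rfl).trans (by linarith)))
  by_contra hcon
  simp only [mem_union, mem_ofPred_eq, not_or, not_not] at hcon
  obtain ⟨⟨s1, s2⟩, s3⟩ := hcon
  refine hs fun l r' ρ' m' r2' ρ2' hl h3 h4 h5 h6 h7 => ?_
  have e1 := abs_le.1 h3
  have e2 := abs_le.1 h4
  have e3 := abs_le.1 h6
  have e4 := abs_le.1 h7
  exact mkB_nearQ (hS i) hr.le (by linarith) hr2.le (by linarith) hη.le (by rwa [sub_sub]) h3 h4 (h5.trans hμ4)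
    (h6.trans (by linarith)) (h7.trans (by linarith)) (hD i s l) s1 (fun c hc => h2 i s c hc ▸ s2) s3

end sys

/-! ### the limit -/

namespace LF

variable {ι : Type*} {l : Filter ι} {Ω : ι → Type*} [∀ i, MeasurableSpace (Ω i)] {P : ∀ i, Measure (Ω i)}
  {X : Type*} [PseudoMetricSpace X] [MeasurableSpace X] [BorelSpace X] [CompleteSpace X] [SecondCountableTopology X]
  {c : ∀ i, Ω i → X} {ν : Measure X}

/-- **the marks at fixed parameters near the functional ones** : `lv j` = level, `pr j` = distance of the other parameters -/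
theorem mk_contQ [l.NeBot] (hC : Cv l P c ν) {J : Type*} [Countable J] {lv pr : J → ℝ} {a : ℝ} {p b : ∀ i, Ω i → ℝ}
    {Φ β : X → ℝ} (hp : Lm l P c ν p Φ) (hb : Lm l P c ν b β) {q : J → ∀ i, Ω i → ℝ} {Ψ : J → X → ℝ}
    (hq : ∀ j, Lm l P c ν (q j) (Ψ j))
    (h : ∀ η : ℝ, 0 < η → ∀ ε : ℝ, 0 < ε → ∃ μ : ℝ, 0 < μ ∧ ∀ᶠ i in l,
      (P i).real {ω | ¬ ∀ j, |lv j - (b i ω + a)| ≤ μ → pr j ≤ μ → |p i ω - q j i ω| ≤ η} ≤ ε) :
    ∀ᵐ x ∂ν, ∀ η : ℝ, 0 < η → ∃ μ : ℝ, 0 < μ ∧ ∀ j, |lv j - (β x + a)| < μ → pr j ≤ μ → |Φ x - Ψ j x| ≤ η := by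
  have hfin := hC.fin'
  have hpos : ∀ k : ℕ, (0 : ℝ) < 1 / ((k : ℝ) + 1) := fun k => by positivity
  choose μ hμ0 hμ using fun k m : ℕ => h (1 / ((k : ℝ) + 1)) (hpos k) (1 / ((m : ℝ) + 1)) (hpos m)
  have hb2 : ∀ k m : ℕ, ν.real {x | ∃ j : {j : J // pr j ≤ μ k m}, |lv j - (β x + a)| < μ k m ∧
      1 / ((k : ℝ) + 1) < |Φ x - Ψ j x|} ≤ 1 / ((m : ℝ) + 1) := by
    intro k m
    have h1 := ex_open_le hC (J := {j : J // pr j ≤ μ k m}) (κ := Fin 3) (p := fun j i ω => ![b i ω, p i ω, q j i ω])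
      (Φ := fun j x => ![β x, Φ x, Ψ j x]) (fun j k' => by
        fin_cases k'
        · exact hb
        · exact hp
        · exact hq j)
      (V := fun j => {u | |lv j - (u 0 + a)| < μ k m ∧ 1 / ((k : ℝ) + 1) < |u 1 - u 2|}) (fun j => by
        have c1 : Continuous fun u : Fin 3 → ℝ => |lv j - (u 0 + a)| := by fun_prop
        have c2 : Continuous fun u : Fin 3 → ℝ => |u 1 - u 2| := by fun_prop
        exact (isOpen_lt c1 continuous_const).inter (isOpen_lt continuous_const c2))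
      (e := 1 / ((m : ℝ) + 1)) (hpos m).le fun F => by
        filter_upwards [hμ k m] with i hi
        have := hC.fin i
        refine (measureReal_mono ?_).trans hi
        rintro ω ⟨j, -, h1, h2⟩ h3
        exact not_lt.2 (h3 j h1.le j.2) h2
    exact h1
  have hae : ∀ k : ℕ, ∀ᵐ x ∂ν, ∃ m : ℕ, ¬ ∃ j : {j : J // pr j ≤ μ k m}, |lv j - (β x + a)| < μ k m ∧
      1 / ((k : ℝ) + 1) < |Φ x - Ψ j x| := by
    intro k
    rw [ae_iff]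
    refine le_antisymm (ENNReal.le_of_forall_pos_le_add fun ε hε _ => ?_) bot_le
    obtain ⟨m, hm⟩ := exists_nat_one_div_lt (show (0 : ℝ) < (ε : ℝ) from by exact_mod_cast hε)
    rw [zero_add]
    refine (measure_mono (t := {x | ∃ j : {j : J // pr j ≤ μ k m}, |lv j - (β x + a)| < μ k m ∧
      1 / ((k : ℝ) + 1) < |Φ x - Ψ j x|}) fun x hx => ?_).trans ?_
    · by_contra hc
      exact hx ⟨m, hc⟩
    · rw [← ofReal_measureReal (h := measure_ne_top _ _)]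
      refine (ENNReal.ofReal_le_ofReal ((hb2 k m).trans hm.le)).trans (le_of_eq ?_)
      exact ENNReal.ofReal_coe_nnreal
  filter_upwards [ae_all_iff.2 hae] with x hx η hη
  obtain ⟨k, hk⟩ := exists_nat_one_div_lt hη
  obtain ⟨m, hm⟩ := hx k
  refine ⟨μ k m, hμ0 k m, fun j hj hj2 => ?_⟩
  by_contra hc
  exact hm ⟨⟨j, hj2⟩, hj, hk.trans (not_le.1 hc)⟩

end LF

end Pool.Agent.ROT.F3
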