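import Pool.Agent.ROT.F3Sys
import Pool.Agent.ROT.F3ExP
import Pool.Agent.ROT.F3Near

/-!
# ROT / F3SysE (helper71): the closed words with two roots as a measure, and their pieces

`mw N b` (helper58) = the critical measure on the pairs (closed word, place of the second root).

* **`mw_lint`** : the integral of a nonnegative function as a sum over the words;
* `MkS H w m` : the sum over the marks `k1 ≤ k2 ≤ m ≤ k3 ≤ k4` of a function `H` of the four pieces `a`, `R`, `b`, `S`;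
* **`mw_pieces`** : its integral = the sum over the pieces with `Cl (G6 a R b S)`; `mw_prod`: products (`exP`);
  `mw_PhiP` : the same for real functions (`PhiP`, `IP` of helper55);
* `MkS_uniq` : if the marks are unique (`Uq`), `MkS H` = the value of `H` at the pieces.
-/

set_option autoImplicit false

namespace Pool.Agent.ROT.F3

open MeasureTheory Finset

open scoped ENNReal Classical

open Pool.Agent.NTS.Res (step pos saw fug)

open Pool.Agent.PMA.Res (pol)

/-! ### 1. integrals -/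

/-- **the integral of a nonnegative function** -/
theorem mw_lint {N : ℕ} {b : ℝ} (f : W3 × ℕ → ℝ≥0∞) : ∫⁻ x, f x ∂(mw N b) = ENNReal.ofReal ((N : ℝ) ^ (-(2 / 3) : ℝ)) *
    ∑' w : W3, (if Cl w ∧ (w.length : ℝ) ≤ b * (N : ℝ) ^ (4 / 3 : ℝ) then wx w * ∑ m ∈ range w.length, f (w, m) else 0) := by
  have h0 : ∫⁻ x, f x ∂(mw N b) = ∑ x ∈ TN N b, ENNReal.ofReal (wN N x.1) * f x := by
    unfold mw
    rw [lintegral_finsetSum_measure]
    refine sum_congr rfl fun x _ => ?_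
    rw [lintegral_smul_measure, lintegral_dirac, smul_eq_mul]
  have h1 : ∑ x ∈ TN N b, ENNReal.ofReal (wN N x.1) * f x =
      ∑' x : W3 × ℕ, if x ∈ TN N b then ENNReal.ofReal (wN N x.1) * f x else 0 := by
    rw [tsum_eq_sum (s := TN N b) fun x hx => if_neg hx]
    exact sum_congr rfl fun x hx => (if_pos hx).symm
  rw [h0, h1, ENNReal.tsum_prod', ← ENNReal.tsum_mul_left]
  refine tsum_congr fun w => ?_
  have hw : ENNReal.ofReal (wN N w) = ENNReal.ofReal ((N : ℝ) ^ (-(2 / 3) : ℝ)) * wx w := by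
    unfold wN wx
    rw [ENNReal.ofReal_mul (by positivity), ENNReal.ofReal_pow fug_nn]
  by_cases h : Cl w ∧ (w.length : ℝ) ≤ b * (N : ℝ) ^ (4 / 3 : ℝ)
  · rw [if_pos h, tsum_eq_sum (s := range w.length) fun m hm => if_neg fun h2 => hm (mem_range.2 (mem_TN.1 h2).2.1),
      mul_sum, mul_sum]
    refine sum_congr rfl fun m hm => ?_
    rw [if_pos (mem_TN.2 ⟨h.1, mem_range.1 hm, h.2⟩), hw, mul_assoc]
  · rw [if_neg h, mul_zero, ENNReal.tsum_eq_zero]
    exact fun m => if_neg fun h2 => h ⟨(mem_TN.1 h2).1, (mem_TN.1 h2).2.2⟩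

/-! ### 2. the sum over the marks -/

/-- the term with the marks `k1 ≤ k2 ≤ m ≤ k3 ≤ k4` -/
noncomputable def MkT (H : W3 × W3 → W3 → W3 × W3 → W3 → ℝ≥0∞) (w : W3) (m k1 k2 k3 k4 : ℕ) : ℝ≥0∞ :=
  if k1 ≤ k2 ∧ k2 ≤ m ∧ m ≤ k3 ∧ k3 ≤ k4 ∧ k4 ≤ w.length then
    H (seg w 0 k1, (w.drop k4).reverse) (seg w k1 k2) ((seg w k2 m).reverse, seg w m k3) (seg w k3 k4).reverse else 0

/-- **the sum over the marks** of a function of the pieces -/
noncomputable def MkS (H : W3 × W3 → W3 → W3 × W3 → W3 → ℝ≥0∞) (w : W3) (m : ℕ) : ℝ≥0∞ :=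
  ∑ k1 ∈ range (w.length + 1), ∑ k2 ∈ range (w.length + 1), ∑ k3 ∈ range (w.length + 1), ∑ k4 ∈ range (w.length + 1),
    MkT H w m k1 k2 k3 k4

variable {H : W3 × W3 → W3 → W3 × W3 → W3 → ℝ≥0∞}

lemma MkT_out {w : W3} {m k1 k2 k3 k4 : ℕ}
    (h : w.length < k1 ∨ w.length < k2 ∨ w.length < m ∨ w.length < k3 ∨ w.length < k4) : MkT H w m k1 k2 k3 k4 = 0 := by
  unfold MkT
  exact if_neg fun h1 => by omega

lemma MkS_tsum (H : W3 × W3 → W3 → W3 × W3 → W3 → ℝ≥0∞) (w : W3) (m : ℕ) :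
    ∑' k1 : ℕ, ∑' k2 : ℕ, ∑' k3 : ℕ, ∑' k4 : ℕ, MkT H w m k1 k2 k3 k4 = MkS H w m := by
  have e4 : ∀ k1 k2 k3, ∑' k4 : ℕ, MkT H w m k1 k2 k3 k4 = ∑ k4 ∈ range (w.length + 1), MkT H w m k1 k2 k3 k4 :=
    fun k1 k2 k3 => tsum_eq_sum fun k4 hk => MkT_out (by rw [mem_range] at hk; omega)
  have e3 : ∀ k1 k2, ∑' k3 : ℕ, ∑' k4 : ℕ, MkT H w m k1 k2 k3 k4 =
      ∑ k3 ∈ range (w.length + 1), ∑ k4 ∈ range (w.length + 1), MkT H w m k1 k2 k3 k4 := fun k1 k2 => by
    simp only [e4]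
    exact tsum_eq_sum fun k3 hk => sum_eq_zero fun k4 _ => MkT_out (by rw [mem_range] at hk; omega)
  have e2 : ∀ k1, ∑' k2 : ℕ, ∑' k3 : ℕ, ∑' k4 : ℕ, MkT H w m k1 k2 k3 k4 =
      ∑ k2 ∈ range (w.length + 1), ∑ k3 ∈ range (w.length + 1), ∑ k4 ∈ range (w.length + 1), MkT H w m k1 k2 k3 k4 :=
    fun k1 => by
    simp only [e3]
    exact tsum_eq_sum fun k2 hk => sum_eq_zero fun k3 _ => sum_eq_zero fun k4 _ =>
      MkT_out (by rw [mem_range] at hk; omega)
  unfold MkS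
  simp only [e2]
  exact tsum_eq_sum fun k1 hk => sum_eq_zero fun k2 _ => sum_eq_zero fun k3 _ => sum_eq_zero fun k4 _ =>
    MkT_out (by rw [mem_range] at hk; omega)

/-- the six sums -/
lemma six_pieces (Ψ : W3 × W3 → W3 → W3 × W3 → W3 → ℝ≥0∞) :
    ∑' (u1 : W3) (u2 : W3) (u3 : W3) (u4 : W3) (u5 : W3) (u6 : W3), Ψ (u1, u6.reverse) u2 (u3.reverse, u4) u5.reverse =
      ∑' (a : W3 × W3) (R : W3) (b : W3 × W3) (S : W3), Ψ a R b S := by
  have e1 : ∀ f : W3 → ℝ≥0∞, ∑' u, f u = ∑' u : W3, f u.reverse := fun f => (rvE.tsum_eq f).symm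
  have e3 : ∀ f : W3 × W3 → ℝ≥0∞, ∑' a : W3 × W3, f a = ∑' (u : W3) (v : W3), f (u, v) := fun f =>
    ENNReal.tsum_prod (f := fun u v => f (u, v))
  rw [e3]
  refine tsum_congr fun u1 => ?_
  have hl : ∀ f : W3 → W3 → W3 → W3 → W3 → ℝ≥0∞, ∑' (u2 : W3) (u3 : W3) (u4 : W3) (u5 : W3) (u6 : W3), f u2 u3 u4 u5 u6 =
      ∑' (u6 : W3) (u2 : W3) (u3 : W3) (u4 : W3) (u5 : W3), f u2 u3 u4 u5 u6 := by
    intro f
    have g5 : ∀ u2 u3 u4, ∑' (u5 : W3) (u6 : W3), f u2 u3 u4 u5 u6 = ∑' (u6 : W3) (u5 : W3), f u2 u3 u4 u5 u6 :=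
      fun u2 u3 u4 => ENNReal.tsum_comm
    simp_rw [g5]
    have g4 : ∀ u2 u3, ∑' (u4 : W3) (u6 : W3) (u5 : W3), f u2 u3 u4 u5 u6 = ∑' (u6 : W3) (u4 : W3) (u5 : W3), f u2 u3 u4 u5 u6 :=
      fun u2 u3 => ENNReal.tsum_comm
    simp_rw [g4]
    have g3 : ∀ u2, ∑' (u3 : W3) (u6 : W3) (u4 : W3) (u5 : W3), f u2 u3 u4 u5 u6 =
      ∑' (u6 : W3) (u3 : W3) (u4 : W3) (u5 : W3), f u2 u3 u4 u5 u6 := fun u2 => ENNReal.tsum_comm
    simp_rw [g3]
    exact ENNReal.tsum_comm
  rw [hl fun u2 u3 u4 u5 u6 => Ψ (u1, u6.reverse) u2 (u3.reverse, u4) u5.reverse, e1]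
  refine tsum_congr fun v6 => tsum_congr fun R => ?_
  rw [e1, e3]
  refine tsum_congr fun v3 => tsum_congr fun v4 => ?_
  rw [e1]
  refine tsum_congr fun v5 => ?_
  simp only [List.reverse_reverse]

/-- **the sum over the closed words and the marks = the sum over the pieces** -/
theorem cl_pieces (H : W3 × W3 → W3 → W3 × W3 → W3 → ℝ≥0∞) :
    ∑' w : W3, (if Cl w then wx w * ∑' m : ℕ, MkS H w m else 0) =
      ∑' (a : W3 × W3) (R : W3) (b : W3 × W3) (S : W3), (if Cl (G6 a R b S) then wx (G6 a R b S) * H a R b S else 0) := by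
  obtain ⟨Ψ, hΨ⟩ : ∃ Ψ : W3 × W3 → W3 → W3 × W3 → W3 → ℝ≥0∞, Ψ = fun a R b S =>
    if Cl (G6 a R b S) then wx (G6 a R b S) * H a R b S else 0 := ⟨_, rfl⟩
  have hR : ∑' (a : W3 × W3) (R : W3) (b : W3 × W3) (S : W3), (if Cl (G6 a R b S) then wx (G6 a R b S) * H a R b S else 0) =
      ∑' (a : W3 × W3) (R : W3) (b : W3 × W3) (S : W3), Ψ a R b S := by rw [hΨ]
  rw [hR, ← six_pieces, ← tsum_cut6 fun u1 u2 u3 u4 u5 u6 => Ψ (u1, u6.reverse) u2 (u3.reverse, u4) u5.reverse]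
  refine tsum_congr fun w => ?_
  have hG : ∀ k1 k2 m k3 k4 : ℕ, k1 ≤ k2 → k2 ≤ m → m ≤ k3 → k3 ≤ k4 →
      G6 (seg w 0 k1, (w.drop k4).reverse) (seg w k1 k2) ((seg w k2 m).reverse, seg w m k3) (seg w k3 k4).reverse = w := by
    intro k1 k2 m k3 k4 h1 h2 h3 h4
    unfold G6
    simp only [List.reverse_reverse]
    rw [seg_append w h4, seg_append w h3, seg_append w h2, seg_append w h1, seg_append w (Nat.zero_le k1), List.drop_zero]
  -- the terms
  have hT : ∀ k1 k2 m k3 k4 : ℕ, (if k1 ≤ k2 ∧ k2 ≤ m ∧ m ≤ k3 ∧ k3 ≤ k4 ∧ k4 ≤ w.length then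
      Ψ (seg w 0 k1, (w.drop k4).reverse) (seg w k1 k2) ((seg w k2 m).reverse, seg w m k3) (seg w k3 k4).reverse else 0) =
      (if Cl w then wx w else 0) * MkT H w m k1 k2 k3 k4 := by
    intro k1 k2 m k3 k4
    unfold MkT
    by_cases hk : k1 ≤ k2 ∧ k2 ≤ m ∧ m ≤ k3 ∧ k3 ≤ k4 ∧ k4 ≤ w.length
    · rw [if_pos hk, if_pos hk, hΨ]
      simp only
      rw [hG k1 k2 m k3 k4 hk.1 hk.2.1 hk.2.2.1 hk.2.2.2.1]
      by_cases hc : Cl w
      · rw [if_pos hc, if_pos hc]
      · rw [if_neg hc, if_neg hc, zero_mul]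
    · rw [if_neg hk, if_neg hk, mul_zero]
  simp_rw [hT, ENNReal.tsum_mul_left]
  have hm : ∑' k1 : ℕ, ∑' k2 : ℕ, ∑' m : ℕ, ∑' k3 : ℕ, ∑' k4 : ℕ, MkT H w m k1 k2 k3 k4 = ∑' m : ℕ, MkS H w m := by
    simp_rw [← MkS_tsum]
    have g2 : ∀ k1 : ℕ, ∑' k2 : ℕ, ∑' m : ℕ, ∑' k3 : ℕ, ∑' k4 : ℕ, MkT H w m k1 k2 k3 k4 =
        ∑' m : ℕ, ∑' k2 : ℕ, ∑' k3 : ℕ, ∑' k4 : ℕ, MkT H w m k1 k2 k3 k4 := fun k1 => ENNReal.tsum_comm
    simp_rw [g2]
    exact ENNReal.tsum_comm
  rw [hm]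
  by_cases hc : Cl w
  · rw [if_pos hc, if_pos hc]
  · rw [if_neg hc, if_neg hc, zero_mul]

/-- the support condition: the words of the class have at most `b N ^ (4 / 3)` letters, the second root is not the first one -/
def SpH (H : W3 × W3 → W3 → W3 × W3 → W3 → ℝ≥0∞) (N : ℕ) (b : ℝ) : Prop := ∀ (a : W3 × W3) (R : W3) (c : W3 × W3) (S : W3),
  H a R c S ≠ 0 → Cl (G6 a R c S) → ((G6 a R c S).length : ℝ) ≤ b * (N : ℝ) ^ (4 / 3 : ℝ) ∧
    (a.1 ++ (R ++ c.1.reverse)).length < (G6 a R c S).length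

lemma seg_len {w : W3} {a b : ℕ} (hb : b ≤ w.length) : (seg w a b).length = b - a := by
  unfold seg
  rw [List.length_take, List.length_drop]
  omega

/-- **the integral of the sum over the marks = the sum over the pieces** -/
theorem mw_pieces {N : ℕ} {b : ℝ} (hH : SpH H N b) : ∫⁻ x, MkS H x.1 x.2 ∂(mw N b) =
    ENNReal.ofReal ((N : ℝ) ^ (-(2 / 3) : ℝ)) * ∑' (a : W3 × W3) (R : W3) (c : W3 × W3) (S : W3),
      (if Cl (G6 a R c S) then wx (G6 a R c S) * H a R c S else 0) := by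
  rw [mw_lint, ← cl_pieces]
  congr 1
  refine tsum_congr fun w => ?_
  by_cases hc : Cl w
  swap
  · rw [if_neg hc, if_neg fun h => hc h.1]
  -- the marks with a value different from 0
  have key : ∀ m k1 k2 k3 k4 : ℕ, MkT H w m k1 k2 k3 k4 ≠ 0 → (w.length : ℝ) ≤ b * (N : ℝ) ^ (4 / 3 : ℝ) ∧ m < w.length := by
    intro m k1 k2 k3 k4 h
    unfold MkT at h
    by_cases hk : k1 ≤ k2 ∧ k2 ≤ m ∧ m ≤ k3 ∧ k3 ≤ k4 ∧ k4 ≤ w.length
    swap
    · exact absurd (if_neg hk) h
    rw [if_pos hk] at h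
    obtain ⟨h1, h2, h3, h4, h5⟩ := hk
    have hG : G6 (seg w 0 k1, (w.drop k4).reverse) (seg w k1 k2) ((seg w k2 m).reverse, seg w m k3) (seg w k3 k4).reverse =
        w := by
      unfold G6
      simp only [List.reverse_reverse]
      rw [seg_append w h4, seg_append w h3, seg_append w h2, seg_append w h1, seg_append w (Nat.zero_le k1), List.drop_zero]
    have h6 := hH _ _ _ _ h (by rw [hG]; exact hc)
    rw [hG] at h6
    refine ⟨h6.1, ?_⟩
    have h7 := h6.2
    simp only [List.length_append, List.length_reverse] at h7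
    rw [seg_len (by omega), seg_len (by omega), seg_len (by omega)] at h7
    omega
  have key2 : ∀ m : ℕ, MkS H w m ≠ 0 → (w.length : ℝ) ≤ b * (N : ℝ) ^ (4 / 3 : ℝ) ∧ m < w.length := by
    intro m h
    unfold MkS at h
    obtain ⟨k1, -, h⟩ := exists_ne_zero_of_sum_ne_zero h
    obtain ⟨k2, -, h⟩ := exists_ne_zero_of_sum_ne_zero h
    obtain ⟨k3, -, h⟩ := exists_ne_zero_of_sum_ne_zero h
    obtain ⟨k4, -, h⟩ := exists_ne_zero_of_sum_ne_zero h
    exact key _ _ _ _ _ h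
  rw [if_pos hc]
  have e : ∑' m : ℕ, MkS H w m = ∑ m ∈ range w.length, MkS H w m := tsum_eq_sum fun m hm => by
    by_contra h
    exact hm (mem_range.2 (key2 m h).2)
  rw [e]
  by_cases hl : (w.length : ℝ) ≤ b * (N : ℝ) ^ (4 / 3 : ℝ)
  · rw [if_pos ⟨hc, hl⟩]
  · rw [if_neg fun h => hl h.2, sum_eq_zero fun m _ => by_contra fun h => hl (key2 m h).1, mul_zero]

/-- a sufficient condition: bounds of the numbers of letters of the pieces -/
lemma SpH_of {N : ℕ} {b b1 b2 b3 b4 : ℝ} (hb : b1 + b2 + b3 + b4 ≤ b)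
    (h : ∀ (a : W3 × W3) (R : W3) (c : W3 × W3) (S : W3), H a R c S ≠ 0 → S ≠ [] ∧
      ((a.1.length : ℝ) + a.2.length) ≤ b1 * (N : ℝ) ^ (4 / 3 : ℝ) ∧ (R.length : ℝ) ≤ b2 * (N : ℝ) ^ (4 / 3 : ℝ) ∧
      ((c.1.length : ℝ) + c.2.length) ≤ b3 * (N : ℝ) ^ (4 / 3 : ℝ) ∧ (S.length : ℝ) ≤ b4 * (N : ℝ) ^ (4 / 3 : ℝ)) :
    SpH H N b := by
  intro a R c S h0 _
  obtain ⟨h1, h2, h3, h4, h5⟩ := h a R c S h0
  have h6 : 0 < S.length := List.length_pos_iff.2 h1
  unfold G6
  simp only [List.length_append, List.length_reverse]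
  refine ⟨?_, by omega⟩
  push_cast
  have h7 : (0 : ℝ) ≤ (N : ℝ) ^ (4 / 3 : ℝ) := by positivity
  nlinarith [mul_le_mul_of_nonneg_right hb h7]

/-! ### 3. the marks of the pieces -/

/-- a sum over the marks different from 0 comes from pieces -/
theorem MkS_ne {w : W3} {m : ℕ} (h : MkS H w m ≠ 0) : ∃ (a : W3 × W3) (R : W3) (c : W3 × W3) (S : W3),
    G6 a R c S = w ∧ (a.1 ++ (R ++ c.1.reverse)).length = m ∧ H a R c S ≠ 0 := by
  unfold MkS at h
  obtain ⟨k1, -, h⟩ := exists_ne_zero_of_sum_ne_zero h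
  obtain ⟨k2, -, h⟩ := exists_ne_zero_of_sum_ne_zero h
  obtain ⟨k3, -, h⟩ := exists_ne_zero_of_sum_ne_zero h
  obtain ⟨k4, -, h⟩ := exists_ne_zero_of_sum_ne_zero h
  unfold MkT at h
  by_cases hk : k1 ≤ k2 ∧ k2 ≤ m ∧ m ≤ k3 ∧ k3 ≤ k4 ∧ k4 ≤ w.length
  swap
  · exact absurd (if_neg hk) h
  rw [if_pos hk] at h
  obtain ⟨h1, h2, h3, h4, h5⟩ := hk
  refine ⟨_, _, _, _, ?_, ?_, h⟩
  · unfold G6
    simp only [List.reverse_reverse]
    rw [seg_append w h4, seg_append w h3, seg_append w h2, seg_append w h1, seg_append w (Nat.zero_le k1), List.drop_zero]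
  · simp only [List.length_append, List.length_reverse]
    rw [seg_len (by omega), seg_len (by omega), seg_len (by omega)]
    omega

/-- a factor which depends on the word and on the second root only -/
theorem MkS_mul (g : W3 → ℕ → ℝ≥0∞) (w : W3) (m : ℕ) :
    MkS (fun a R c S => H a R c S * g (G6 a R c S) (a.1 ++ (R ++ c.1.reverse)).length) w m = MkS H w m * g w m := by
  unfold MkS
  simp only [sum_mul]
  refine sum_congr rfl fun k1 _ => sum_congr rfl fun k2 _ => sum_congr rfl fun k3 _ => sum_congr rfl fun k4 _ => ?_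
  unfold MkT
  by_cases hk : k1 ≤ k2 ∧ k2 ≤ m ∧ m ≤ k3 ∧ k3 ≤ k4 ∧ k4 ≤ w.length
  swap
  · rw [if_neg hk, if_neg hk, zero_mul]
  rw [if_pos hk, if_pos hk]
  obtain ⟨h1, h2, h3, h4, h5⟩ := hk
  have e1 : G6 (seg w 0 k1, (w.drop k4).reverse) (seg w k1 k2) ((seg w k2 m).reverse, seg w m k3) (seg w k3 k4).reverse =
      w := by
    unfold G6
    simp only [List.reverse_reverse]
    rw [seg_append w h4, seg_append w h3, seg_append w h2, seg_append w h1, seg_append w (Nat.zero_le k1), List.drop_zero]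
  have e2 : (seg w 0 k1 ++ (seg w k1 k2 ++ (seg w k2 m).reverse.reverse)).length = m := by
    simp only [List.length_append, List.length_reverse]
    rw [seg_len (by omega), seg_len (by omega), seg_len (by omega)]
    omega
  simp only
  rw [e1, e2]

/-- the marks of the pieces -/
lemma MkT_G6 (a : W3 × W3) (R : W3) (c : W3 × W3) (S : W3) :
    MkT H (G6 a R c S) (a.1.length + R.length + c.1.length) a.1.length (a.1.length + R.length)
      (a.1.length + R.length + c.1.length + c.2.length) (a.1.length + R.length + c.1.length + c.2.length + S.length) =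
      H a R c S := by
  have hlen : (G6 a R c S).length = a.1.length + R.length + c.1.length + c.2.length + S.length + a.2.length := by
    unfold G6
    simp only [List.length_append, List.length_reverse]
    ring
  -- the words behind the marks
  have d1 : (G6 a R c S).drop a.1.length = R ++ (c.1.reverse ++ (c.2 ++ (S.reverse ++ a.2.reverse))) := by
    unfold G6
    exact List.drop_left
  have d2 : (G6 a R c S).drop (a.1.length + R.length) = c.1.reverse ++ (c.2 ++ (S.reverse ++ a.2.reverse)) := by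
    rw [← List.drop_drop, d1]
    exact List.drop_left
  have d3 : (G6 a R c S).drop (a.1.length + R.length + c.1.length) = c.2 ++ (S.reverse ++ a.2.reverse) := by
    rw [← List.drop_drop, d2]
    exact List.drop_left' List.length_reverse
  have d4 : (G6 a R c S).drop (a.1.length + R.length + c.1.length + c.2.length) = S.reverse ++ a.2.reverse := by
    rw [← List.drop_drop, d3]
    exact List.drop_left
  have d5 : (G6 a R c S).drop (a.1.length + R.length + c.1.length + c.2.length + S.length) = a.2.reverse := by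
    rw [← List.drop_drop, d4]
    exact List.drop_left' List.length_reverse
  have s1 : seg (G6 a R c S) 0 a.1.length = a.1 := by
    unfold seg
    rw [List.drop_zero, Nat.sub_zero]
    unfold G6
    exact List.take_left
  have s2 : seg (G6 a R c S) a.1.length (a.1.length + R.length) = R := by
    unfold seg
    rw [d1, Nat.add_sub_cancel_left]
    exact List.take_left
  have s3 : seg (G6 a R c S) (a.1.length + R.length) (a.1.length + R.length + c.1.length) = c.1.reverse := by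
    unfold seg
    rw [d2, Nat.add_sub_cancel_left]
    exact List.take_left' List.length_reverse
  have s4 : seg (G6 a R c S) (a.1.length + R.length + c.1.length) (a.1.length + R.length + c.1.length + c.2.length) = c.2 := by
    unfold seg
    rw [d3, Nat.add_sub_cancel_left]
    exact List.take_left
  have s5 : seg (G6 a R c S) (a.1.length + R.length + c.1.length + c.2.length)
      (a.1.length + R.length + c.1.length + c.2.length + S.length) = S.reverse := by
    unfold seg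
    rw [d4, Nat.add_sub_cancel_left]
    exact List.take_left' List.length_reverse
  unfold MkT
  rw [if_pos ⟨by omega, by omega, by omega, by omega, by omega⟩, s1, s2, s3, s4, s5, d5, List.reverse_reverse,
    List.reverse_reverse, List.reverse_reverse]

/-- **unique marks**: the sum over the marks is the value at the pieces -/
theorem MkS_uniq {C C' : Set (W3 × W3)} {RA RB : Set W3} (hU : Uq C C' RA RB)
    (hH : ∀ a R c S, H a R c S ≠ 0 → a ∈ C ∧ R ∈ RA ∧ c ∈ C' ∧ S ∈ RB) {a : W3 × W3} {R : W3} {c : W3 × W3} {S : W3}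
    (ha : a ∈ C) (hR : R ∈ RA) (hc : c ∈ C') (hS : S ∈ RB) :
    MkS H (G6 a R c S) (a.1.length + R.length + c.1.length) = H a R c S := by
  have hlen : (G6 a R c S).length = a.1.length + R.length + c.1.length + c.2.length + S.length + a.2.length := by
    unfold G6
    simp only [List.length_append, List.length_reverse]
    ring
  -- the other marks
  have key : ∀ k1 k2 k3 k4 : ℕ, MkT H (G6 a R c S) (a.1.length + R.length + c.1.length) k1 k2 k3 k4 ≠ 0 →
      k1 = a.1.length ∧ k2 = a.1.length + R.length ∧ k3 = a.1.length + R.length + c.1.length + c.2.length ∧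
        k4 = a.1.length + R.length + c.1.length + c.2.length + S.length := by
    intro k1 k2 k3 k4 h
    unfold MkT at h
    by_cases hk : k1 ≤ k2 ∧ k2 ≤ a.1.length + R.length + c.1.length ∧ a.1.length + R.length + c.1.length ≤ k3 ∧
      k3 ≤ k4 ∧ k4 ≤ (G6 a R c S).length
    swap
    · exact absurd (if_neg hk) h
    rw [if_pos hk] at h
    obtain ⟨w, hw⟩ : ∃ w, w = G6 a R c S := ⟨_, rfl⟩
    rw [← hw] at h hk hlen
    obtain ⟨h1, h2, h3, h4, h5⟩ := hk
    obtain ⟨q1, q2, q3, q4⟩ := hH _ _ _ _ h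
    have hG : G6 (seg w 0 k1, (w.drop k4).reverse) (seg w k1 k2) ((seg w k2 (a.1.length + R.length + c.1.length)).reverse,
        seg w (a.1.length + R.length + c.1.length) k3) (seg w k3 k4).reverse = w := by
      unfold G6
      simp only [List.reverse_reverse]
      rw [seg_append w h4, seg_append w h3, seg_append w h2, seg_append w h1, seg_append w (Nat.zero_le k1), List.drop_zero]
    have hl1 : (seg w 0 k1).length = k1 := by rw [seg_len (by omega)]; omega
    have hl2 : (seg w k1 k2).length = k2 - k1 := seg_len (by omega)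
    have hl3 : (seg w k2 (a.1.length + R.length + c.1.length)).length = a.1.length + R.length + c.1.length - k2 :=
      seg_len (by omega)
    have hl4 : (seg w (a.1.length + R.length + c.1.length) k3).length = k3 - (a.1.length + R.length + c.1.length) :=
      seg_len (by omega)
    have hl5 : (seg w k3 k4).length = k4 - k3 := seg_len (by omega)
    obtain ⟨e1, e2, e3, e4⟩ := hU _ q1 a ha _ q2 R hR _ q3 c hc _ q4 S hS (by
      simp only [List.length_append, List.length_reverse]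
      rw [hl1, hl2, hl3]
      omega) (hG.trans hw)
    have f1 := congrArg (fun x : W3 × W3 => x.1.length) e1
    have f2 := congrArg List.length e2
    have f3 := congrArg (fun x : W3 × W3 => x.2.length) e3
    have f4 := congrArg List.length e4
    simp only [List.length_reverse] at f1 f3 f4
    rw [hl1] at f1
    rw [hl2] at f2
    rw [hl4] at f3
    rw [hl5] at f4
    omega
  unfold MkS
  rw [sum_eq_single a.1.length, sum_eq_single (a.1.length + R.length),
    sum_eq_single (a.1.length + R.length + c.1.length + c.2.length),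
    sum_eq_single (a.1.length + R.length + c.1.length + c.2.length + S.length)]
  · exact MkT_G6 a R c S
  · intro k4 _ hk
    by_contra h
    exact hk (key _ _ _ _ h).2.2.2
  · intro h
    exact absurd (mem_range.2 (by omega)) h
  · intro k3 _ hk
    refine sum_eq_zero fun k4 _ => ?_
    by_contra h
    exact hk (key _ _ _ _ h).2.2.1
  · intro h
    exact absurd (mem_range.2 (by omega)) h
  · intro k2 _ hk
    refine sum_eq_zero fun k3 _ => sum_eq_zero fun k4 _ => ?_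
    by_contra h
    exact hk (key _ _ _ _ h).2.1
  · intro h
    exact absurd (mem_range.2 (by omega)) h
  · intro k1 _ hk
    refine sum_eq_zero fun k2 _ => sum_eq_zero fun k3 _ => sum_eq_zero fun k4 _ => ?_
    by_contra h
    exact hk (key _ _ _ _ h).1
  · intro h
    exact absurd (mem_range.2 (by omega)) h

/-! ### 4. products -/

/-- a product over the pieces -/
noncomputable def PrH (C C' : Set (W3 × W3)) (RA RB : Set W3) (e e' : W3 × W3 → ℝ≥0∞) (F G : W3 → ℝ≥0∞) (a : W3 × W3)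
    (R : W3) (c : W3 × W3) (S : W3) : ℝ≥0∞ := if a ∈ C ∧ R ∈ RA ∧ c ∈ C' ∧ S ∈ RB then e a * e' c * (F R * G S) else 0

/-- **products**: the exact identity (P) as an integral over `mw` -/
theorem mw_prod {N : ℕ} {b : ℝ} {C C' : Set (W3 × W3)} {RA RB : Set W3} (Hy : Hyp C C' RA RB) (e e' : W3 × W3 → ℝ≥0∞)
    (F G : W3 → ℝ≥0∞) (hs : SpH (PrH C C' RA RB e e' F G) N b) :
    ∫⁻ x, MkS (PrH C C' RA RB e e' F G) x.1 x.2 ∂(mw N b) = ENNReal.ofReal ((N : ℝ) ^ (-(2 / 3) : ℝ)) *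
      ∑' (R : W3) (S : W3), if R ∈ RA ∧ S ∈ RB then wx R * F R * (wx S * G S) *
        ∑' z : ℂ, (if Dj R S z then gam C e z * gam C' e' (z + en R - en S) else 0) else 0 := by
  rw [mw_pieces hs, ← exP Hy]
  congr 1
  refine tsum_congr fun a => tsum_congr fun R => tsum_congr fun c => tsum_congr fun S => ?_
  unfold PrH
  by_cases h1 : Cl (G6 a R c S)
  · rw [if_pos h1]
    by_cases h2 : a ∈ C ∧ R ∈ RA ∧ c ∈ C' ∧ S ∈ RB
    · rw [if_pos h2, if_pos ⟨h2.1, h2.2.1, h2.2.2.1, h2.2.2.2, h1⟩]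
    · rw [if_neg h2, if_neg fun h => h2 ⟨h.1, h.2.1, h.2.2.1, h.2.2.2.1⟩, mul_zero]
  · rw [if_neg h1, if_neg fun h => h1 h.2.2.2.2]

/-- the sum over the marks of a product, real numbers (`PhiP` of helper55) -/
lemma MkS_PhiP {C C' : Set (W3 × W3)} {RA RB : Set W3} {e e' : W3 × W3 → ℝ} {F G : W3 → ℝ} (he : ∀ a, 0 ≤ e a)
    (he' : ∀ a, 0 ≤ e' a) (hF : ∀ R, 0 ≤ F R) (hG : ∀ R, 0 ≤ G R) (w : W3) (m : ℕ) :
    MkS (PrH C C' RA RB (fun a => ENNReal.ofReal (e a)) (fun a => ENNReal.ofReal (e' a)) (fun R => ENNReal.ofReal (F R))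
      fun R => ENNReal.ofReal (G R)) w m = ENNReal.ofReal (PhiP C C' RA RB e e' F G w m) := by
  have n0 := mkP_nn (C := C) (C' := C') (RA := RA) (RB := RB) he he' hF hG w
  unfold MkS PhiP
  rw [ENNReal.ofReal_sum_of_nonneg fun k1 _ => sum_nonneg fun k2 _ => sum_nonneg fun k3 _ => sum_nonneg fun k4 _ => n0 _ _ _ _ _]
  refine sum_congr rfl fun k1 _ => ?_
  rw [ENNReal.ofReal_sum_of_nonneg fun k2 _ => sum_nonneg fun k3 _ => sum_nonneg fun k4 _ => n0 _ _ _ _ _]
  refine sum_congr rfl fun k2 _ => ?_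
  rw [ENNReal.ofReal_sum_of_nonneg fun k3 _ => sum_nonneg fun k4 _ => n0 _ _ _ _ _]
  refine sum_congr rfl fun k3 _ => ?_
  rw [ENNReal.ofReal_sum_of_nonneg fun k4 _ => n0 _ _ _ _ _]
  refine sum_congr rfl fun k4 _ => ?_
  unfold MkT mkP PrH
  by_cases h1 : k1 ≤ k2 ∧ k2 ≤ m ∧ m ≤ k3 ∧ k3 ≤ k4 ∧ k4 ≤ w.length
  · rw [if_pos h1]
    by_cases h2 : (seg w 0 k1, (w.drop k4).reverse) ∈ C ∧
      seg w k1 k2 ∈ RA ∧ ((seg w k2 m).reverse, seg w m k3) ∈ C' ∧ (seg w k3 k4).reverse ∈ RB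
    · rw [if_pos h2, if_pos ⟨h1, h2⟩, ENNReal.ofReal_mul (mul_nonneg (he _) (he' _)), ENNReal.ofReal_mul (he _),
        ENNReal.ofReal_mul (hF _)]
    · rw [if_neg h2, if_neg fun h => h2 h.2, ENNReal.ofReal_zero]
  · rw [if_neg h1, if_neg fun h => h1 h.1, ENNReal.ofReal_zero]

/-- **(P) as an integral over `mw`**, real numbers -/
theorem mw_PhiP {N : ℕ} {b : ℝ} {C C' : Set (W3 × W3)} {RA RB : Set W3} {e e' : W3 × W3 → ℝ} {F G : W3 → ℝ}
    (Hy : Hyp C C' RA RB) (hne : [] ∉ RA) (he : ∀ a, 0 ≤ e a) (he' : ∀ a, 0 ≤ e' a) (hF : ∀ R, 0 ≤ F R)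
    (hG : ∀ R, 0 ≤ G R) (hs : SpH (PrH C C' RA RB (fun a => ENNReal.ofReal (e a)) (fun a => ENNReal.ofReal (e' a))
      (fun R => ENNReal.ofReal (F R)) fun R => ENNReal.ofReal (G R)) N b) :
    ∫ x, PhiP C C' RA RB e e' F G x.1 x.2 ∂(mw N b) = (N : ℝ) ^ (-(2 / 3) : ℝ) * IP C C' RA RB e e' F G := by
  rw [integral_eq_lintegral_of_nonneg_ae (ae_of_all _ fun x => PhiP_nn he he' hF hG _ _)
    (mw_integrable _).aestronglyMeasurable]
  have h1 := mw_prod Hy _ _ _ _ hs
  simp_rw [MkS_PhiP he he' hF hG] at h1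
  rw [h1, ENNReal.toReal_mul, ENNReal.toReal_ofReal (by positivity), exP_pol Hy hne he he' hF hG]

end Pool.Agent.ROT.F3
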