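import Pool.Agent.ROT.F3LimH
import Pool.Agent.ROT.F3SysV
import Pool.Agent.ROT.F3SysE
import Pool.Agent.ROT.F3K1R
import Pool.Agent.ROT.F3NulB
import Pool.Agent.ROT.F3TotC
import Pool.Agent.ROT.F3GamP
import Pool.Agent.ROT.F3BetaC
import Pool.Agent.ROT.F3LevD
import Pool.Agent.ROT.F3Nul

/-!
# ROT, F3, row NUL, part N5 (helper15): the null cases of a level

* `mw_prod_le`, `mw_prod_le'` : the integral of a product over the marks is at most
  `N^(-2/3)` (mass of one connection) (sup of the other connection) (masses of the rests);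
* `blk_cut` : a block of the merged list inside the rest word is a block of the rest, up to the cell;
* `hit_of` : a trace of a marked closed word with an entry in an incidence that is not one of the two
  connections gives a place `HitW` (a place in one of the two rests, or a place of one of the two cells);
* `nul_int`, `nul_asy`, `nul_grid` : the weight of the closed words having such a place on a grid of
  levels is `o(1)`, per interval of length `2^(-n)`, with one rate for all intervals;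
* `BadW`, `bad_hit`, **`nul_lv`**, `nul_real` : the same for the levels `lft t0 n k`.
-/

set_option autoImplicit false

open MeasureTheory Set Filter Topology
open scoped ENNReal Classical

namespace Pool.Agent.ROT.F3.NW

section prod

variable {N : ℕ} {b : ℝ} {C C' : Set (W3 × W3)} {RA RB : Set W3} {e e' : W3 × W3 → ℝ≥0∞} {F G : W3 → ℝ≥0∞} {B : ℝ≥0∞}

/-- sums over the two rests -/
lemma rest_two (RA RB : Set W3) (F G : W3 → ℝ≥0∞) (K : ℝ≥0∞) :
    ∑' (R : W3) (S : W3), (if R ∈ RA ∧ S ∈ RB then wx R * F R * (wx S * G S) * K else 0) = ms RA F * ms RB G * K := by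
  unfold ms
  rw [← ENNReal.tsum_mul_right, ← ENNReal.tsum_mul_right]
  refine tsum_congr fun R => ?_
  rw [← ENNReal.tsum_mul_left, ← ENNReal.tsum_mul_right]
  refine tsum_congr fun S => ?_
  by_cases h1 : R ∈ RA
  · by_cases h2 : S ∈ RB
    · rw [if_pos ⟨h1, h2⟩, if_pos h1, if_pos h2]
    · rw [if_neg fun h => h2 h.2, if_neg h2, mul_zero, zero_mul]
  · rw [if_neg fun h => h1 h.1, if_neg h1, zero_mul, zero_mul]

/-- **the mass of the connection at `p`, the sup at `q`** -/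
theorem mw_prod_le (Hy : Hyp C C' RA RB) (hs : SpH (PrH C C' RA RB e e' F G) N b) (hB : ∀ z, gam C' e' z ≤ B) :
    ∫⁻ x, MkS (PrH C C' RA RB e e' F G) x.1 x.2 ∂(mw N b) ≤
      ENNReal.ofReal ((N : ℝ) ^ (-(2 / 3) : ℝ)) * (ms RA F * ms RB G * (cms C e * B)) := by
  rw [mw_prod Hy e e' F G hs, ← rest_two]
  gcongr with R S
  split_ifs with h
  · refine mul_le_mul_right ?_ _
    unfold cms
    rw [← ENNReal.tsum_mul_right]
    refine ENNReal.tsum_le_tsum fun z => ?_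
    split_ifs
    · exact mul_le_mul_right (hB _) _
    · exact zero_le
  · exact le_rfl

/-- **the mass of the connection at `q`, the sup at `p`** -/
theorem mw_prod_le' (Hy : Hyp C C' RA RB) (hs : SpH (PrH C C' RA RB e e' F G) N b) (hB : ∀ z, gam C e z ≤ B) :
    ∫⁻ x, MkS (PrH C C' RA RB e e' F G) x.1 x.2 ∂(mw N b) ≤
      ENNReal.ofReal ((N : ℝ) ^ (-(2 / 3) : ℝ)) * (ms RA F * ms RB G * (cms C' e' * B)) := by
  rw [mw_prod Hy e e' F G hs, ← rest_two]
  gcongr with R S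
  split_ifs with h
  · refine mul_le_mul_right ?_ _
    have sh : ∑' z, gam C' e' (z + en R - en S) = cms C' e' := by
      have := (Equiv.addRight (en R - en S)).tsum_eq fun z => gam C' e' z
      unfold cms
      rw [← this]
      refine tsum_congr fun z => ?_
      show _ = gam C' e' (z + (en R - en S))
      rw [add_sub_assoc]
    rw [← sh, ← ENNReal.tsum_mul_right]
    refine ENNReal.tsum_le_tsum fun z => ?_
    split_ifs
    · rw [mul_comm]
      exact mul_le_mul_right (hB _) _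
    · exact zero_le
  · exact le_rfl

end prod

/-! ### cuts of a class at a higher level are cuts of the block -/

section cut

variable {d : ℂ} {P : Tp} {y y' S T D : ℝ} {p p' R R' t t' : W3} {k k' : ℕ}

lemma ps_drp (w : W3) {k j : ℕ} (hk : Even k) (hk' : k ≤ w.length) : ps (w.drop k) j = ps w (k + j) - ps w k := by
  have h1 : (w.take k).length = k := by rw [List.length_take, min_eq_left hk']
  have h2 := ps_append_right (u := w.take k) (v := w.drop k) (by rw [h1]; exact hk) j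
  rw [List.take_append_drop, h1, en_take w hk'] at h2
  rw [h2]
  ring

lemma PreM.evk (h : PreM d P S T p k) : Even k := by
  have h1 := h.g.a.ev
  rwa [List.length_take, min_eq_left h.g.le] at h1

/-- **the first cut of a higher level, seen from the class of the lower level, is a cut of the block** -/
theorem blk_cut (hP : P.Ok) (hS : 0 < S) (h : PreM d (P.up y) S T p k) (h' : PreM d (P.up y') S T p' k')
    (hR' : RestC d (P.rg * S) R') (fR' : D * S ≤ ‖en R'‖) (hD : 2 * (P.r + P.r2) < D)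
    (he : p ++ (R ++ t) = p' ++ (R' ++ t')) (h1 : lv d (ps p k) < lv d (ps p' k'))
    (h2 : lv d (ps p' k') < lv d (ps p k) + P.m * S) : k < k' ∧ k' < p.length ∧ CutC d (p.drop k) (k' - k) := by
  have ek := PreM.evk h
  have ek' := PreM.evk h'
  have kl := h.g.le
  have kl' := h'.g.le
  have tp := h.tip
  have tp' := h'.tip
  obtain ⟨s, hs⟩ : ∃ s, s = p ++ (R ++ t) := ⟨_, rfl⟩
  have hs' : s = p' ++ (R' ++ t') := hs.trans he
  have v1 : ∀ j, j ≤ p.length → ps s j = ps p j := fun j hj => by rw [hs, ps_append_left hj]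
  have v2 : ∀ j, j ≤ p'.length → ps s j = ps p' j := fun j hj => by rw [hs', ps_append_left hj]
  have left' : ∀ j, j ≤ k' → lv d (ps s j) ≤ lv d (ps p' k') := by
    intro j hj
    have := h'.g.a.left j (by rw [List.length_take, min_eq_left kl']; exact hj)
    rwa [ps_take _ hj kl', en_take _ kl', ← v2 j (hj.trans kl')] at this
  -- the order of the first gates
  have c1 : k < k' := by
    by_contra hc
    rw [not_lt] at hc
    have := h.g.a.left k' (by rw [List.length_take, min_eq_left kl]; exact hc)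
    rw [ps_take _ hc kl, en_take _ kl, ← v1 k' (hc.trans kl), v2 k' kl'] at this
    linarith
  have m1 : lv d (ps p k) + P.m * S ≤ lv d (en p) := by
    have := h.g.fb.1
    rw [en, ps_drp p ek kl, List.length_drop, Nat.add_sub_cancel' kl, lv_sub] at this
    have e1 : (P.up y).m = P.m := rfl
    rw [e1] at this
    show _ ≤ lv d (ps p p.length)
    linarith
  have c2 : k' < p.length := by
    by_contra hc
    rw [not_lt] at hc
    have := left' p.length hc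
    rw [v1 _ le_rfl] at this
    have e1 : lv d (ps p p.length) = lv d (en p) := rfl
    linarith
  have m2 : lv d (ps p' k') + P.m * S ≤ lv d (en p') := by
    have := h'.g.fb.1
    rw [en, ps_drp p' ek' kl', List.length_drop, Nat.add_sub_cancel' kl', lv_sub] at this
    have e1 : (P.up y').m = P.m := rfl
    rw [e1] at this
    show _ ≤ lv d (ps p' p'.length)
    linarith
  -- the second gates
  have c3 : p.length ≤ p'.length := by
    by_contra hc
    rw [not_le] at hc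
    have q1 : k < p'.length := lt_of_lt_of_le c1 kl'
    have e2 : ps p p'.length = en p' := by
      rw [← v1 _ hc.le, v2 _ le_rfl]
      rfl
    have hcut := h.g.fb.2 (p'.length - k) (tp'.ev.tsub ek) (by rw [List.length_drop]; omega) ⟨fun j hj => ?_, fun j hj1 hj2 => ?_⟩
    · rw [ps_drp p ek kl, Nat.add_sub_cancel' q1.le, e2, lv_sub] at hcut
      have e1 : (P.up y).m = P.m := rfl
      rw [e1] at hcut
      linarith
    · rw [ps_drp p ek kl, ps_drp p ek kl, Nat.add_sub_cancel' q1.le, e2, lv_sub, lv_sub]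
      have := tp'.left (k + j) (by omega)
      rw [← v2 _ (by omega), v1 _ (by omega)] at this
      linarith
    · rw [List.length_drop] at hj2
      rw [ps_drp p ek kl, ps_drp p ek kl, Nat.add_sub_cancel' q1.le, e2, lv_sub, lv_sub]
      have hi1 : p'.length < k + j := by omega
      have hi2 : k + j ≤ p.length := by omega
      have hb : ∀ i, i ≤ p.length → ‖ps p i - en p'‖ ≤ 2 * (P.r + P.r2) * S := by
        intro i hi
        have b1 := tp.ball i hi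
        have b2 := tp'.ball p'.length le_rfl
        have e1 : (P.up y).rad = P.r + P.r2 := rfl
        have e3 : (P.up y').rad = P.r + P.r2 := rfl
        rw [e1] at b1
        rw [e3] at b2
        calc ‖ps p i - en p'‖ ≤ ‖ps p i‖ + ‖en p'‖ := norm_sub_le _ _
          _ ≤ (P.r + P.r2) * S + (P.r + P.r2) * S := add_le_add b1 b2
          _ = _ := by ring
      have hv : ∀ i, p'.length ≤ i → i ≤ p'.length + R'.length → ps s i = en p' + ps R' (i - p'.length) := by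
        intro i hi1 hi2
        rw [hs', ps_append_right' tp'.ev hi1, ps_append_left (by omega)]
      have hrg := hP.rg
      by_cases hlast : k + j ≤ p'.length + R'.length
      · have e4 := hv (k + j) hi1.le hlast
        rw [v1 _ hi2] at e4
        have h5 := hR' (k + j - p'.length) (by omega) (by omega) (by
          have : ps R' (k + j - p'.length) = ps p (k + j) - en p' := by rw [e4]; ring
          rw [this]
          refine (hb _ hi2).trans ?_
          exact mul_le_mul_of_nonneg_right hrg.le hS.le)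
        rw [e4, lv_add]
        linarith
      · rw [not_le] at hlast
        exfalso
        have e4 := hv (p'.length + R'.length) (by omega) le_rfl
        rw [v1 _ (by omega), Nat.add_sub_cancel_left] at e4
        have h5 := hb (p'.length + R'.length) (by omega)
        have h6 : ps p (p'.length + R'.length) - en p' = en R' := by
          rw [e4]
          show en p' + en R' - en p' = en R'
          ring
        rw [h6] at h5
        have h7 : 2 * (P.r + P.r2) * S < D * S := mul_lt_mul_of_pos_right hD hS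
        linarith
  refine ⟨c1, c2, fun j hj => ?_, fun j hj1 hj2 => ?_⟩
  · rw [ps_drp p ek kl, ps_drp p ek kl, Nat.add_sub_cancel' c1.le, lv_sub, lv_sub]
    have := left' (k + j) (by omega)
    rw [v1 _ (by omega), ← v2 k' kl', v1 k' c2.le] at this
    linarith
  · rw [List.length_drop] at hj2
    rw [ps_drp p ek kl, ps_drp p ek kl, Nat.add_sub_cancel' c1.le, lv_sub, lv_sub]
    have h5 := h'.g.b.right (k + j - k') (by omega) (by rw [List.length_drop]; omega)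
    rw [ps_drp p' ek' kl', Nat.add_sub_cancel' (by omega), lv_sub, ← v2 _ (by omega), ← v2 _ kl', v1 _ (by omega),
      v1 _ c2.le] at h5
    linarith

end cut

/-! ### sums over the pairs with a weight of one block -/

section blk

variable {i j : Fin 3} {P P' : Tp} {S T : ℝ} {e : W3 × W3 → ℝ≥0∞} {f : W3 × W3 → W3 → ℝ≥0∞} {K : ℝ≥0∞}

lemma tsum_set (A : Set W3) (g : W3 → ℝ≥0∞) : ∑' b : W3, (if b ∈ A then g b else 0) = ∑' b : A, g b := by
  rw [_root_.tsum_subtype A g]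
  exact tsum_congr fun b => by rw [Set.indicator_apply]

/-- the mass of the pairs with a weight of the two blocks -/
lemma tot_blk {g : W3 × W3 → W3 → W3 → ℝ≥0∞} (hm : 0 < P.m * S) (hm' : 0 < P'.m * S)
    (he : ∀ (a : W3 × W3) (b b' : W3), StQ (ax i) (ax j) P P' S T a → BlQ (ax i) P S T b → BlQ (ax j) P' S T b' →
      e (a.1 ++ b, a.2 ++ b') ≤ g a b b') :
    (∑' a : W3 × W3, if a ∈ Pai (ax i) (ax j) P P' S T then wx a.1 * wx a.2 * e a else 0) ≤
      ∑' s : W3 × W3, if StQ (ax i) (ax j) P P' S T s then wx s.1 * wx s.2 *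
        ∑' b : Fbi i ⌈2 * (P.m * S) / 3⌉₊, ∑' b' : Fbi j ⌈2 * (P'.m * S) / 3⌉₊, wx b * (wx b' * g s b b') else 0 := by
  obtain ⟨M, hM⟩ : ∃ M : ℕ, M = ⌈2 * (P.m * S) / 3⌉₊ := ⟨_, rfl⟩
  obtain ⟨M', hM'⟩ : ∃ M' : ℕ, M' = ⌈2 * (P'.m * S) / 3⌉₊ := ⟨_, rfl⟩
  rw [← hM, ← hM']
  -- every pair is a start with two blocks
  have h1 : ∀ a : W3 × W3, (if a ∈ Pai (ax i) (ax j) P P' S T then wx a.1 * wx a.2 * e a else 0) ≤
      ∑' s : W3 × W3, ∑' b : W3, ∑' b' : W3, if a = (s.1 ++ b, s.2 ++ b') ∧ StQ (ax i) (ax j) P P' S T s ∧ b ∈ Fbi i M ∧ b' ∈ Fbi j M'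
        then wx s.1 * wx s.2 * (wx b * (wx b' * g s b b')) else 0 := by
    intro a
    by_cases ha : a ∈ Pai (ax i) (ax j) P P' S T
    · rw [if_pos ha]
      obtain ⟨s, hs, b, b', hb, hb', rfl⟩ := mem_Pai.1 ha
      have f1 : b ∈ Fbi i M := by
        rw [hM]
        exact ((blk_iff hm).1 ⟨hb.g, hb.f⟩).1
      have f2 : b' ∈ Fbi j M' := by
        rw [hM']
        exact ((blk_iff hm').1 ⟨hb'.g, hb'.f⟩).1
      refine le_trans ?_ (ENNReal.le_tsum s)
      refine le_trans ?_ (ENNReal.le_tsum b)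
      refine le_trans ?_ (ENNReal.le_tsum b')
      rw [if_pos ⟨rfl, hs, f1, f2⟩]
      simp only
      rw [wx_append, wx_append]
      calc wx s.1 * wx b * (wx s.2 * wx b') * e (s.1 ++ b, s.2 ++ b') ≤ wx s.1 * wx b * (wx s.2 * wx b') * g s b b' :=
            mul_le_mul_right (he s b b' hs hb hb') _
        _ = _ := by ring
    · rw [if_neg ha]
      exact zero_le
  refine (ENNReal.tsum_le_tsum h1).trans (le_of_eq ?_)
  rw [ENNReal.tsum_comm]
  refine tsum_congr fun s => ?_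
  rw [ENNReal.tsum_comm]
  have h2 : ∀ b : W3, ∑' a : W3 × W3, ∑' b' : W3, (if a = (s.1 ++ b, s.2 ++ b') ∧ StQ (ax i) (ax j) P P' S T s ∧ b ∈ Fbi i M ∧
      b' ∈ Fbi j M' then wx s.1 * wx s.2 * (wx b * (wx b' * g s b b')) else 0) =
      ∑' b' : W3, if StQ (ax i) (ax j) P P' S T s ∧ b ∈ Fbi i M ∧ b' ∈ Fbi j M' then
        wx s.1 * wx s.2 * (wx b * (wx b' * g s b b')) else 0 := by
    intro b
    rw [ENNReal.tsum_comm]
    refine tsum_congr fun b' => ?_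
    rw [tsum_eq_single (s.1 ++ b, s.2 ++ b') fun a ha => if_neg fun h => ha h.1]
    by_cases h3 : StQ (ax i) (ax j) P P' S T s ∧ b ∈ Fbi i M ∧ b' ∈ Fbi j M'
    · rw [if_pos ⟨rfl, h3⟩, if_pos h3]
    · rw [if_neg fun h => h3 h.2, if_neg h3]
  rw [tsum_congr h2]
  by_cases hs : StQ (ax i) (ax j) P P' S T s
  · rw [if_pos hs]
    have h3 : ∀ b : W3, ∑' b' : W3, (if StQ (ax i) (ax j) P P' S T s ∧ b ∈ Fbi i M ∧ b' ∈ Fbi j M' then
        wx s.1 * wx s.2 * (wx b * (wx b' * g s b b')) else 0) =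
        if b ∈ Fbi i M then wx s.1 * wx s.2 * ∑' b' : Fbi j M', wx b * (wx b' * g s b b') else 0 := by
      intro b
      by_cases hb : b ∈ Fbi i M
      · rw [if_pos hb, ← tsum_set (Fbi j M') fun b' => wx b * (wx b' * g s b b'), ← ENNReal.tsum_mul_left]
        refine tsum_congr fun b' => ?_
        by_cases hb' : b' ∈ Fbi j M'
        · rw [if_pos ⟨hs, hb, hb'⟩, if_pos hb']
        · rw [if_neg fun h => hb' h.2.2, if_neg hb', mul_zero]
      · rw [if_neg hb, ENNReal.tsum_eq_zero]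
        intro b'
        exact if_neg fun h => hb h.2.1
    rw [tsum_congr h3, tsum_set (Fbi i M) fun b => wx s.1 * wx s.2 * ∑' b' : Fbi j M', wx b * (wx b' * g s b b'),
      ENNReal.tsum_mul_left]
  · rw [if_neg hs, ENNReal.tsum_eq_zero]
    intro b
    rw [ENNReal.tsum_eq_zero]
    intro b'
    exact if_neg fun h => hs h.1

/-- **a weight of the start and of the block of the first strand** -/
theorem tot_blk1 (hm : 0 < P.m * S) (hm' : 0 < P'.m * S)
    (he : ∀ (a : W3 × W3) (b b' : W3), StQ (ax i) (ax j) P P' S T a → BlQ (ax i) P S T b → BlQ (ax j) P' S T b' →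
      e (a.1 ++ b, a.2 ++ b') ≤ f a b) (hK : ∀ a, ∑' b : Fbi i ⌈2 * (P.m * S) / 3⌉₊, wx b * f a b ≤ K) :
    cms (Pai (ax i) (ax j) P P' S T) e ≤ totQ (ax i) (ax j) P P' S T (fun _ => 1) * K := by
  rw [cms_eq]
  refine (tot_blk hm hm' he).trans ?_
  unfold totQ
  rw [← ENNReal.tsum_mul_right]
  refine ENNReal.tsum_le_tsum fun s => ?_
  split_ifs with hs
  · rw [mul_one]
    refine mul_le_mul_right ?_ _
    refine le_trans (le_of_eq ?_) (hK s)
    refine tsum_congr fun b => ?_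
    rw [ENNReal.tsum_mul_left]
    congr 1
    rw [ENNReal.tsum_mul_right, mass_Fbi j (Nat.one_le_iff_ne_zero.2 (Nat.ceil_pos.2 (by positivity)).ne'), one_mul]
  · rw [zero_mul]

/-- **a weight of the start and of the block of the second strand** -/
theorem tot_blk2 (hm : 0 < P.m * S) (hm' : 0 < P'.m * S)
    (he : ∀ (a : W3 × W3) (b b' : W3), StQ (ax i) (ax j) P P' S T a → BlQ (ax i) P S T b → BlQ (ax j) P' S T b' →
      e (a.1 ++ b, a.2 ++ b') ≤ f a b') (hK : ∀ a, ∑' b : Fbi j ⌈2 * (P'.m * S) / 3⌉₊, wx b * f a b ≤ K) :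
    cms (Pai (ax i) (ax j) P P' S T) e ≤ totQ (ax i) (ax j) P P' S T (fun _ => 1) * K := by
  rw [cms_eq]
  refine (tot_blk (g := fun a _ b' => f a b') hm hm' he).trans ?_
  unfold totQ
  rw [← ENNReal.tsum_mul_right]
  refine ENNReal.tsum_le_tsum fun s => ?_
  split_ifs with hs
  · rw [mul_one]
    refine mul_le_mul_right ?_ _
    refine le_trans (le_of_eq ?_) (hK s)
    have h1 : ∀ b : Fbi i ⌈2 * (P.m * S) / 3⌉₊, ∑' b' : Fbi j ⌈2 * (P'.m * S) / 3⌉₊, wx b * (wx b' * f s b') =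
        wx b * ∑' b' : Fbi j ⌈2 * (P'.m * S) / 3⌉₊, wx b' * f s b' := fun b => ENNReal.tsum_mul_left
    rw [tsum_congr h1, ENNReal.tsum_mul_right, mass_Fbi i (Nat.one_le_iff_ne_zero.2 (Nat.ceil_pos.2 (by positivity)).ne'), one_mul]
  · rw [zero_mul]

end blk

/-! ### cells of levels which are hit by the cuts of the block -/

section hit

/-- the block of a strand (`p`, gate `k`) has a cut with level in `[lo, hi)` (levels over the tip) -/
def Hit (d : ℂ) (p : W3) (k : ℕ) (lo hi : ℝ) : Prop := ∃ j : ℕ, k < j ∧ j < p.length ∧ Even j ∧ CutC d (p.drop k) (j - k) ∧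
  lo ≤ lv d (ps p j) ∧ lv d (ps p j) < hi

variable {i j : Fin 3} {P P' : Tp} {S T : ℝ}

/-- the height of a cut is a natural number -/
lemma cut_nat {b : W3} {q : ℕ} {r2 m : ℝ} (hm : 0 < m) (hb : BlkC (ax i) r2 b) (hf : FstC (ax i) m b) (hq : 0 < q)
    (hqb : q ≤ b.length) (he : Even q) (hc : CutC (ax i) b q) : ∃ h : ℕ, lv (ax i) (ps b q) = 3 * h / 2 ∧ Cuti i b h := by
  obtain ⟨⟨T', -, hbr, -⟩, -⟩ := (blk_iff hm).1 ⟨hb, hf⟩
  obtain ⟨z, hz⟩ := lvi_even i b hqb he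
  have h0 := hb.right q hq hqb
  have h1 : lv (ax i) (ps b q) = 3 * z / 2 := hz
  have hz0 : (0 : ℝ) < z := by
    rw [h1] at h0
    linarith
  have hz1 : (0 : ℤ) < z := by exact_mod_cast hz0
  have hz2 : ((z.toNat : ℕ) : ℤ) = z := Int.toNat_of_nonneg hz1.le
  have hz3 : ((z.toNat : ℕ) : ℝ) = z := by exact_mod_cast hz2
  have h2 : lv (ax i) (ps b q) = 3 * (z.toNat : ℝ) / 2 := by rw [h1, hz3]
  refine ⟨z.toNat, h2, (cuti_iff hbr).2 ⟨q, hqb, he, h2, fun j hj => ?_, fun j hj1 hj2 => ?_⟩⟩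
  · rw [← h2]
    exact hc.1 j hj
  · rw [← h2]
    exact hc.2 j hj1 hj2

/-- a cut of the block is a cut of the block in the frame of the starts -/
lemma hit_cell {s b : W3} {r2 m lo hi : ℝ} (hm : 0 < m) (hb : BlkC (ax i) r2 b) (hf : FstC (ax i) m b) (es : Even s.length)
    (h : Hit (ax i) (s ++ b) s.length lo hi) :
    ∃ h : ℕ, 2 * (lo - lv (ax i) (en s)) / 3 ≤ h ∧ (h : ℝ) < 2 * (hi - lv (ax i) (en s)) / 3 ∧ Cuti i b h := by
  obtain ⟨q, h1, h2, h3, h4, h5, h6⟩ := h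
  rw [List.drop_left] at h4
  rw [List.length_append] at h2
  obtain ⟨n, hn, hc⟩ := cut_nat hm hb hf (q := q - s.length) (by omega) (by omega) (h3.tsub es) h4
  have e1 : ps (s ++ b) q = en s + ps b (q - s.length) := ps_append_right' es h1.le
  rw [e1, lv_add, hn] at h5 h6
  refine ⟨n, ?_, ?_, hc⟩
  · rw [div_le_iff₀ (by norm_num)]
    linarith
  · rw [lt_div_iff₀ (by norm_num)]
    linarith

/-- the number of the cells `[x + k L, x + (k + 1) L)`, `k < K`, which are hit by the block of the first strand -/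
noncomputable def cnt1 (d d' : ℂ) (P P' : Tp) (S T x L : ℝ) (K : ℕ) (a : W3 × W3) : ℝ≥0∞ :=
  ((Finset.range K).filter fun k : ℕ => ∃ k1 k2, PaiM d d' P P' S T a k1 k2 ∧ Hit d a.1 k1 (x + k * L) (x + (k + 1) * L)).card

/-- the number of the cells which are hit by the block of the second strand -/
noncomputable def cnt2 (d d' : ℂ) (P P' : Tp) (S T x L : ℝ) (K : ℕ) (a : W3 × W3) : ℝ≥0∞ :=
  ((Finset.range K).filter fun k : ℕ => ∃ k1 k2, PaiM d d' P P' S T a k1 k2 ∧ Hit d' a.2 k2 (x + k * L) (x + (k + 1) * L)).card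

lemma cell_arith {x L l μ M : ℝ} {k : ℕ} (h : μ * M = 2 * L / 3) :
    (2 * ((x + k * L) - l) / 3 = 2 * (x - l) / 3 + k * (μ * M)) ∧
      2 * ((x + (k + 1) * L) - l) / 3 = 2 * (x - l) / 3 + (k + 1) * (μ * M) := by
  rw [h]
  constructor <;> ring

/-- the constant of helper29 -/
noncomputable def cB : ℝ := fbi_cells.choose

lemma cB_pos : 0 < cB := fbi_cells.choose_spec.1

lemma cells_blk (i : Fin 3) {L m : ℝ} (hL : 3 ≤ L) (hm : 3 ≤ m) (hLm : L ≤ m) (K : ℕ) (x : ℝ) :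
    ∑' b : Fbi i ⌈2 * m / 3⌉₊, wx b * (((Finset.range K).filter fun k : ℕ => ∃ h : ℕ, x + k * (2 * L / 3) ≤ h ∧
      (h : ℝ) < x + (k + 1) * (2 * L / 3) ∧ Cuti i b h).card : ℝ≥0∞) ≤
      ENNReal.ofReal (cB * (L / (2 * m)) ^ (-(3 / 4) : ℝ)) := by
  obtain ⟨M, hM⟩ : ∃ M : ℕ, M = ⌈2 * m / 3⌉₊ := ⟨_, rfl⟩
  have hM1 : 2 * m / 3 ≤ M := by
    rw [hM]
    exact Nat.le_ceil _
  have hM2 : (M : ℝ) < 2 * m / 3 + 1 := by
    rw [hM]
    exact Nat.ceil_lt_add_one (by positivity)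
  have hM0 : (0 : ℝ) < M := by linarith
  rw [← hM]
  have h1 := fbi_cells.choose_spec.2 (2 * L / 3 / M) i M K x (by positivity) (by
    rw [div_le_one hM0]
    linarith) (by
    rw [div_mul_cancel₀ _ hM0.ne']
    linarith)
  rw [div_mul_cancel₀ _ hM0.ne'] at h1
  refine h1.trans (ENNReal.ofReal_le_ofReal ?_)
  have h2 : L / (2 * m) ≤ 2 * L / 3 / M := by
    rw [div_le_div_iff₀ (by positivity) hM0]
    nlinarith
  exact mul_le_mul_of_nonneg_left (Real.rpow_le_rpow_of_nonpos (by positivity) h2 (by norm_num)) cB_pos.le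

/-- **the mass of the pairs with the number of the cells, first strand** -/
theorem cms_cnt1 (hP : P.Ok) (hP' : P'.Ok) (hS : 0 < S) {x L : ℝ} (hL : 3 ≤ L) (hm : 3 ≤ P.m * S) (hLm : L ≤ P.m * S) (K : ℕ) :
    cms (Pai (ax i) (ax j) P P' S T) (cnt1 (ax i) (ax j) P P' S T x L K) ≤ totQ (ax i) (ax j) P P' S T (fun _ => 1) *
      ENNReal.ofReal (cB * (L / (2 * (P.m * S))) ^ (-(3 / 4) : ℝ)) := by
  have h1 : 0 < P.m * S := mul_pos hP.m hS
  have h2 : 0 < P'.m * S := mul_pos hP'.m hS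
  refine tot_blk1 h1 h2 (f := fun a b => (((Finset.range K).filter fun k : ℕ => ∃ h : ℕ,
    2 * (x - lv (ax i) (en a.1)) / 3 + k * (2 * L / 3) ≤ h ∧ (h : ℝ) < 2 * (x - lv (ax i) (en a.1)) / 3 + (k + 1) * (2 * L / 3) ∧
      Cuti i b h).card : ℝ≥0∞)) (fun a b b' ha hb hb' => ?_) fun a => cells_blk i hL hm hLm K _
  unfold cnt1
  refine Nat.cast_le.2 (Finset.card_le_card fun k hk => ?_)
  rw [Finset.mem_filter] at hk ⊢
  obtain ⟨hk1, k1, k2, hM, hH⟩ := hk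
  refine ⟨hk1, ?_⟩
  obtain ⟨l1, l2, hs, hb1, hb2⟩ := paiQ_iff.1 hM
  have e1 : (a.1 ++ b).take k1 = a.1 :=
    start_unique hs.t1 ha.t1 hs.f1 ha.f1 hb1.g.right hb.g.right (by rw [List.take_append_drop])
  have e2 : k1 = a.1.length := by
    have := congrArg List.length e1
    rw [List.length_take, min_eq_left l1] at this
    exact this
  rw [e2] at hH
  obtain ⟨n, n1, n2, n3⟩ := hit_cell h1 hb.g hb.f ha.t1.ev hH
  have e3 := cell_arith (x := x) (L := L) (l := lv (ax i) (en a.1)) (μ := 2 * L / 3) (M := 1) (k := k) (by ring)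
  rw [mul_one] at e3
  exact ⟨n, by rw [← e3.1]; exact n1, by rw [← e3.2]; exact n2, n3⟩

/-- **the mass of the pairs with the number of the cells, second strand** -/
theorem cms_cnt2 (hP : P.Ok) (hP' : P'.Ok) (hS : 0 < S) {x L : ℝ} (hL : 3 ≤ L) (hm : 3 ≤ P'.m * S) (hLm : L ≤ P'.m * S) (K : ℕ) :
    cms (Pai (ax i) (ax j) P P' S T) (cnt2 (ax i) (ax j) P P' S T x L K) ≤ totQ (ax i) (ax j) P P' S T (fun _ => 1) *
      ENNReal.ofReal (cB * (L / (2 * (P'.m * S))) ^ (-(3 / 4) : ℝ)) := by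
  have h1 : 0 < P.m * S := mul_pos hP.m hS
  have h2 : 0 < P'.m * S := mul_pos hP'.m hS
  refine tot_blk2 h1 h2 (f := fun a b => (((Finset.range K).filter fun k : ℕ => ∃ h : ℕ,
    2 * (x - lv (ax j) (en a.2)) / 3 + k * (2 * L / 3) ≤ h ∧ (h : ℝ) < 2 * (x - lv (ax j) (en a.2)) / 3 + (k + 1) * (2 * L / 3) ∧
      Cuti j b h).card : ℝ≥0∞)) (fun a b b' ha hb hb' => ?_) fun a => cells_blk j hL hm hLm K _
  unfold cnt2
  refine Nat.cast_le.2 (Finset.card_le_card fun k hk => ?_)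
  rw [Finset.mem_filter] at hk ⊢
  obtain ⟨hk1, k1, k2, hM, hH⟩ := hk
  refine ⟨hk1, ?_⟩
  obtain ⟨l1, l2, hs, hb1, hb2⟩ := paiQ_iff.1 hM
  have e1 : (a.2 ++ b').take k2 = a.2 :=
    start_unique hs.t2 ha.t2 hs.f2 ha.f2 hb2.g.right hb'.g.right (by rw [List.take_append_drop])
  have e2 : k2 = a.2.length := by
    have := congrArg List.length e1
    rw [List.length_take, min_eq_left l2] at this
    exact this
  rw [e2] at hH
  obtain ⟨n, n1, n2, n3⟩ := hit_cell h2 hb'.g hb'.f ha.t2.ev hH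
  have e3 := cell_arith (x := x) (L := L) (l := lv (ax j) (en a.2)) (μ := 2 * L / 3) (M := 1) (k := k) (by ring)
  rw [mul_one] at e3
  exact ⟨n, by rw [← e3.1]; exact n1, by rw [← e3.2]; exact n2, n3⟩

end hit

/-! ### words -/

section words

open CK

/-- the same data with other levels -/
def lvl (D : Dt) (y y' z z' : ℝ) : Dt := { D with y := y, y' := y', z := z, z' := z' }

/-- the directions of the four strands: A, B at the first root, A, B at the second root -/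
def sdr (D : Dt) (s : Fin 4) : ℂ := ![D.d, D.d', D.t, D.t'] s

/-- the piece of a strand up to its gate `x` -/
def spc (a c : W3 × W3) (s : Fin 4) : W3 := ![a.1, a.2, c.1, c.2] s

/-- the number of the gate `c` of a strand -/
def sgt (k1 k2 j1 j2 : ℕ) (s : Fin 4) : ℕ := ![k1, k2, j1, j2] s

/-- the data of the gates of a strand -/
def stp (D : Dt) (s : Fin 4) : Tp := ![D.P, D.P, D.Q, D.Q] s

/-- **the block of the strand `s` of the word has a cut with level in `[lo, hi)`** -/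
def HitW (s : Fin 4) (D : Dt) (S T : ℝ) (x : W3 × ℕ) (lo hi : ℝ) : Prop := ∃ (a : W3 × W3) (R : W3) (c : W3 × W3) (U : W3)
  (k1 k2 j1 j2 : ℕ), Dec D S T x a R c U k1 k2 j1 j2 ∧ Hit (sdr D s) (spc a c s) (sgt k1 k2 j1 j2 s) lo hi

variable {D : Dt} {S T : ℝ} {x : W3 × ℕ} {a a' : W3 × W3} {R R' : W3} {c c' : W3 × W3} {U U' : W3}
  {k1 k2 j1 j2 k1' k2' j1' j2' : ℕ}

lemma HitW.inC {s : Fin 4} {lo hi : ℝ} (h : HitW s D S T x lo hi) : x ∈ InC (D.C S T) (D.C' S T) (D.A S T) (D.B S T) := by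
  obtain ⟨a, R, c, U, k1, k2, j1, j2, h, -⟩ := h
  exact h.inC

/-- the words of the strands -/
lemma strand_words (h : Dec D S T x a R c U k1 k2 j1 j2) :
    (∃ t, x.1 = a.1 ++ (R ++ t)) ∧ (∃ t, x.1.reverse = a.2 ++ (U ++ t)) ∧
      (∃ t, (x.1.take x.2).reverse = c.1 ++ (R.reverse ++ t)) ∧ ∃ t, x.1.drop x.2 = c.2 ++ (U.reverse ++ t) := by
  have e : x.1 = a.1 ++ (R ++ (c.1.reverse ++ (c.2 ++ (U.reverse ++ a.2.reverse)))) := h.w.symm
  have e2 : x.1 = (a.1 ++ (R ++ c.1.reverse)) ++ (c.2 ++ (U.reverse ++ a.2.reverse)) := by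
    rw [e]
    simp only [List.append_assoc]
  have e3 : x.2 = (a.1 ++ (R ++ c.1.reverse)).length := by
    rw [len3]
    exact h.m.symm
  refine ⟨⟨_, e⟩, ⟨c.2.reverse ++ (c.1 ++ (R.reverse ++ a.1.reverse)), ?_⟩, ⟨a.1.reverse, ?_⟩, ⟨a.2.reverse, ?_⟩⟩
  · rw [e]
    simp only [List.reverse_append, List.reverse_reverse, List.append_assoc]
  · rw [e2, e3, List.take_left]
    simp only [List.reverse_append, List.reverse_reverse, List.append_assoc]
  · rw [e2, e3, List.drop_left]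

/-- **two classes with the same data and other levels on one word**: if the first gate `c` of the strand `s` in the second class is
higher than in the first class, by less than `m`, it is a cut of the block of the first class -/
theorem hit_of (s : Fin 4) (hD : D.Ok) (hS : 0 < S) {y y' z z' : ℝ} (h : Dec D S T x a R c U k1 k2 j1 j2)
    (h' : Dec (lvl D y y' z z') S T x a' R' c' U' k1' k2' j1' j2') {lo hi : ℝ}
    (h1 : lv (sdr D s) (ps (spc a c s) (sgt k1 k2 j1 j2 s)) < lv (sdr D s) (ps (spc a' c' s) (sgt k1' k2' j1' j2' s)))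
    (h2 : lv (sdr D s) (ps (spc a' c' s) (sgt k1' k2' j1' j2' s)) <
      lv (sdr D s) (ps (spc a c s) (sgt k1 k2 j1 j2 s)) + (stp D s).m * S)
    (h3 : lo ≤ lv (sdr D s) (ps (spc a' c' s) (sgt k1' k2' j1' j2' s)))
    (h4 : lv (sdr D s) (ps (spc a' c' s) (sgt k1' k2' j1' j2' s)) < hi) : HitW s D S T x lo hi := by
  obtain ⟨⟨t1, w1⟩, ⟨t2, w2⟩, ⟨t3, w3⟩, ⟨t4, w4⟩⟩ := strand_words h
  obtain ⟨⟨t1', w1'⟩, ⟨t2', w2'⟩, ⟨t3', w3'⟩, ⟨t4', w4'⟩⟩ := strand_words h'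
  have rP := rad_pos hD.P
  have rQ := rad_pos hD.Q
  have hV := hD.V
  have hV' := hD.V'
  have er : ∀ V : W3, Even V.length → ‖en V.reverse‖ = ‖en V‖ := fun V hV => by rw [en_reverse hV, norm_neg]
  have pos : ∀ {p p' t t' V V' : W3} {k k' : ℕ} {d : ℂ} {P : Tp} {y y' Δ : ℝ}, P.Ok → PreM d (P.up y) S T p k →
      PreM d (P.up y') S T p' k' → RestC d (P.rg * S) V' → Δ * S ≤ ‖en V'‖ → 2 * P.rad < Δ → p ++ (V ++ t) = p' ++ (V' ++ t') →
      lv d (ps p k) < lv d (ps p' k') → lv d (ps p' k') < lv d (ps p k) + P.m * S → lo ≤ lv d (ps p' k') →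
      lv d (ps p' k') < hi → Hit d p k lo hi := by
    intro p p' t t' V V' k k' d P y y' Δ hP g g' hr hf hΔ he g1 g2 g3 g4
    obtain ⟨q1, q2, q3⟩ := blk_cut hP hS g g' hr hf hΔ he g1 g2
    have e1 : ps p' k' = ps p k' := by
      rw [← ps_append_left (v := V' ++ t') g'.g.le, ← he, ps_append_left q2.le]
    rw [e1] at g3 g4
    exact ⟨k', q1, q2, PreM.evk g', q3, g3, g4⟩
  refine ⟨a, R, c, U, k1, k2, j1, j2, h, ?_⟩
  fin_cases s
  · exact pos hD.P h.ga.p1 h'.ga.p1 h'.gR.s.right h'.gR.far (by show 2 * D.P.rad < D.V.D0; linarith) (w1.symm.trans w1') h1 h2 h3 h4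
  · exact pos hD.P h.ga.p2 h'.ga.p2 h'.gU.s.right h'.gU.far (by show 2 * D.P.rad < D.V'.D0; linarith) (w2.symm.trans w2') h1 h2 h3 h4
  · exact pos hD.Q h.gc.p1 h'.gc.p1 h'.gR.e.right (by rw [er _ h'.gR.ev]; exact h'.gR.far)
      (by show 2 * D.Q.rad < D.V.D0; linarith) (w3.symm.trans w3') h1 h2 h3 h4
  · exact pos hD.Q h.gc.p2 h'.gc.p2 h'.gU.e.right (by rw [er _ h'.gU.ev]; exact h'.gU.far)
      (by show 2 * D.Q.rad < D.V'.D0; linarith) (w4.symm.trans w4') h1 h2 h3 h4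

/-- the number of the cells of a strand as a weight of the pair at its root -/
noncomputable def cntp (D : Dt) (S T x0 L : ℝ) (K : ℕ) (s : Fin 4) (a : W3 × W3) : ℝ≥0∞ :=
  ![cnt1 D.d D.d' (D.P.up D.y) (D.P.up D.y') S T x0 L K a, cnt2 D.d D.d' (D.P.up D.y) (D.P.up D.y') S T x0 L K a, 1, 1] s

/-- the number of the cells of a strand as a weight of the pair at its root -/
noncomputable def cntq (D : Dt) (S T x0 L : ℝ) (K : ℕ) (s : Fin 4) (a : W3 × W3) : ℝ≥0∞ :=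
  ![1, 1, cnt1 D.t D.t' (D.Q.up D.z) (D.Q.up D.z') S T x0 L K a, cnt2 D.t D.t' (D.Q.up D.z) (D.Q.up D.z') S T x0 L K a] s

/-- **the number of the cells which are hit, pointwise** -/
theorem hit_le (s : Fin 4) (hD : D.Ok) (hS : 0 < S) (x0 L : ℝ) (K : ℕ) (x : W3 × ℕ) :
    ∑ k ∈ Finset.range K, (if HitW s D S T x (x0 + k * L) (x0 + (k + 1) * L) then (1 : ℝ≥0∞) else 0) ≤
      wE (D.C S T) (D.C' S T) (D.A S T) (D.B S T) (cntp D S T x0 L K s) (cntq D S T x0 L K s) (fun _ => 1) (fun _ => 1) x := by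
  by_cases hx : x ∈ InC (D.C S T) (D.C' S T) (D.A S T) (D.B S T)
  swap
  · rw [Finset.sum_eq_zero fun k _ => if_neg fun h => hx h.inC]
    exact zero_le
  obtain ⟨a, R, c, U, k1, k2, j1, j2, h⟩ := dec_of hx
  have hU : Uq (D.C S T) (D.C' S T) (D.A S T) (D.B S T) := uq_cls hD hS subset_rfl subset_rfl subset_rfl subset_rfl
  have e1 := wE_eq hU (cntp D S T x0 L K s) (cntq D S T x0 L K s) (fun _ => 1) (fun _ => 1) (a := a) (R := R) (c := c) (U := U)
    ⟨k1, k2, h.ga⟩ h.gR ⟨j1, j2, h.gc⟩ h.gU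
  rw [h.w, h.m] at e1
  have e2 : wE (D.C S T) (D.C' S T) (D.A S T) (D.B S T) (cntp D S T x0 L K s) (cntq D S T x0 L K s) (fun _ => 1) (fun _ => 1) x =
      cntp D S T x0 L K s a * cntq D S T x0 L K s c := by
    rw [show x = (x.1, x.2) from rfl, e1]
    ring
  rw [e2, Finset.sum_boole]
  have key : ∀ lo hi : ℝ, HitW s D S T x lo hi → Hit (sdr D s) (spc a c s) (sgt k1 k2 j1 j2 s) lo hi := by
    rintro lo hi ⟨a', R', c', U', k1', k2', j1', j2', h', hh⟩
    obtain ⟨⟨e1, e2, e3, e4⟩, e5, e6, e7, e8⟩ := dec_uniq hD hS h.ga h'.ga h.gc h'.gc h.gR h'.gR h.gU h'.gU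
      (by rw [len3, len3, h.m, h'.m]) (h.w.trans h'.w.symm)
    rw [e1, e3, e5, e6, e7, e8]
    exact hh
  fin_cases s
  · show _ ≤ cnt1 D.d D.d' (D.P.up D.y) (D.P.up D.y') S T x0 L K a * 1
    rw [mul_one]
    exact Nat.cast_le.2 (Finset.card_le_card fun k hk => by
      rw [Finset.mem_filter] at hk ⊢
      exact ⟨hk.1, k1, k2, h.ga, key _ _ hk.2⟩)
  · show _ ≤ cnt2 D.d D.d' (D.P.up D.y) (D.P.up D.y') S T x0 L K a * 1
    rw [mul_one]
    exact Nat.cast_le.2 (Finset.card_le_card fun k hk => by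
      rw [Finset.mem_filter] at hk ⊢
      exact ⟨hk.1, k1, k2, h.ga, key _ _ hk.2⟩)
  · show _ ≤ 1 * cnt1 D.t D.t' (D.Q.up D.z) (D.Q.up D.z') S T x0 L K c
    rw [one_mul]
    exact Nat.cast_le.2 (Finset.card_le_card fun k hk => by
      rw [Finset.mem_filter] at hk ⊢
      exact ⟨hk.1, j1, j2, h.gc, key _ _ hk.2⟩)
  · show _ ≤ 1 * cnt2 D.t D.t' (D.Q.up D.z) (D.Q.up D.z') S T x0 L K c
    rw [one_mul]
    exact Nat.cast_le.2 (Finset.card_le_card fun k hk => by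
      rw [Finset.mem_filter] at hk ⊢
      exact ⟨hk.1, j1, j2, h.gc, key _ _ hk.2⟩)

end words

/-! ### the bound of the integral -/

section fin

open CK

/-- sums of measures as an integral -/
lemma sum_meas {Ω : Type*} [MeasurableSpace Ω] [DiscreteMeasurableSpace Ω] (μ : Measure Ω) (K : ℕ) (A : ℕ → Set Ω) :
    ∑ k ∈ Finset.range K, μ (A k) = ∫⁻ x, ∑ k ∈ Finset.range K, (if x ∈ A k then (1 : ℝ≥0∞) else 0) ∂μ := by
  rw [lintegral_finsetSum _ fun k _ => Measurable.of_discrete]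
  refine Finset.sum_congr rfl fun k _ => ?_
  have h1 : (fun x => if x ∈ A k then (1 : ℝ≥0∞) else 0) = (A k).indicator 1 := by
    funext x
    rw [indicator_apply]
    rfl
  rw [h1, lintegral_indicator_one (MeasurableSet.of_discrete)]

variable {N : ℕ} {b : ℝ} {D : Dt}

/-- **the sum over the cells**, one scale -/
theorem nul_int (s : Fin 4) (hD : D.Ok) (hN : 0 < N) (hb : D.len ≤ b) {i j i' j' : Fin 3} (hij : i ≠ j) (hij' : i' ≠ j')
    (d1 : D.d = ev i) (d2 : D.d' = ev j) (d3 : D.t = ev i') (d4 : D.t' = ev j') {δ : ℝ} (hδ : 0 < δ) (hδP : δ ≤ D.P.m)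
    (hδQ : δ ≤ D.Q.m) (h3 : 3 ≤ δ * N) (x0 : ℝ) (K : ℕ) :
    ∑ k ∈ Finset.range K, (mw N b) {x | HitW s D N (uT N) x (x0 + k * (δ * N)) (x0 + (k + 1) * (δ * N))} ≤
      ENNReal.ofReal ((N : ℝ) ^ (-(2 / 3) : ℝ)) * (ms (D.A N (uT N)) (fun _ => 1) * ms (D.B N (uT N)) (fun _ => 1) *
        (totQ (ev i) (ev j) (D.P.up D.y) (D.P.up D.y') N (uT N) (fun _ => 1) *
          totQ (ev i') (ev j') (D.Q.up D.z) (D.Q.up D.z') N (uT N) (fun _ => 1) *
          (ENNReal.ofReal (cB * (δ / (2 * max D.P.m D.Q.m)) ^ (-(3 / 4) : ℝ)) *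
            ENNReal.ofReal (max (BQ D.P) (BQ D.Q) / (N : ℝ) ^ 2)))) := by
  have hN1 : 1 ≤ N := hN
  have hS : (0 : ℝ) < N := by exact_mod_cast hN
  have hmP := hD.P.m
  have hmQ := hD.Q.m
  have Hy : Hyp (D.C N (uT N)) (D.C' N (uT N)) (D.A N (uT N)) (D.B N (uT N)) :=
    hy_cls hD hS subset_rfl subset_rfl subset_rfl subset_rfl
  have hs := sp_PrH hD hN hb (subset_rfl (a := D.C N (uT N))) (subset_rfl (a := D.C' N (uT N))) (subset_rfl (a := D.A N (uT N)))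
    (subset_rfl (a := D.B N (uT N))) (cntp D N (uT N) x0 (δ * N) K s) (cntq D N (uT N) x0 (δ * N) K s) (fun _ => 1) (fun _ => 1)
  rw [sum_meas]
  have h1 : ∫⁻ x, ∑ k ∈ Finset.range K, (if x ∈ {x | HitW s D N (uT N) x (x0 + k * (δ * N)) (x0 + (k + 1) * (δ * N))} then
      (1 : ℝ≥0∞) else 0) ∂(mw N b) ≤ ∫⁻ x, MkS (PrH (D.C N (uT N)) (D.C' N (uT N)) (D.A N (uT N)) (D.B N (uT N))
        (cntp D N (uT N) x0 (δ * N) K s) (cntq D N (uT N) x0 (δ * N) K s) (fun _ => 1) (fun _ => 1)) x.1 x.2 ∂(mw N b) :=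
    lintegral_mono fun x => hit_le s hD hS x0 (δ * N) K x
  refine h1.trans ?_
  -- the constants
  have cP : ENNReal.ofReal (cB * (δ * N / (2 * (D.P.m * N))) ^ (-(3 / 4) : ℝ)) ≤
      ENNReal.ofReal (cB * (δ / (2 * max D.P.m D.Q.m)) ^ (-(3 / 4) : ℝ)) := by
    refine ENNReal.ofReal_le_ofReal (mul_le_mul_of_nonneg_left (Real.rpow_le_rpow_of_nonpos (by positivity) ?_ (by norm_num)) cB_pos.le)
    have e1 : δ * N / (2 * (D.P.m * N)) = δ / (2 * D.P.m) := by field_simp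
    rw [e1]
    exact div_le_div_of_nonneg_left hδ.le (by positivity) (by linarith [le_max_left D.P.m D.Q.m])
  have cQ : ENNReal.ofReal (cB * (δ * N / (2 * (D.Q.m * N))) ^ (-(3 / 4) : ℝ)) ≤
      ENNReal.ofReal (cB * (δ / (2 * max D.P.m D.Q.m)) ^ (-(3 / 4) : ℝ)) := by
    refine ENNReal.ofReal_le_ofReal (mul_le_mul_of_nonneg_left (Real.rpow_le_rpow_of_nonpos (by positivity) ?_ (by norm_num)) cB_pos.le)
    have e1 : δ * N / (2 * (D.Q.m * N)) = δ / (2 * D.Q.m) := by field_simp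
    rw [e1]
    exact div_le_div_of_nonneg_left hδ.le (by positivity) (by linarith [le_max_right D.P.m D.Q.m])
  have bP : ENNReal.ofReal (BQ (D.P.up D.y) / (N : ℝ) ^ 2) ≤ ENNReal.ofReal (max (BQ D.P) (BQ D.Q) / (N : ℝ) ^ 2) :=
    ENNReal.ofReal_le_ofReal (div_le_div_of_nonneg_right (le_max_left _ _) (by positivity))
  have bQ : ENNReal.ofReal (BQ (D.Q.up D.z) / (N : ℝ) ^ 2) ≤ ENNReal.ofReal (max (BQ D.P) (BQ D.Q) / (N : ℝ) ^ 2) :=
    ENNReal.ofReal_le_ofReal (div_le_div_of_nonneg_right (le_max_right _ _) (by positivity))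
  have eC : D.C N (uT N) = Pai (ev i) (ev j) (D.P.up D.y) (D.P.up D.y') N (uT N) := by
    unfold Dt.C
    rw [d1, d2]
  have eC' : D.C' N (uT N) = Pai (ev i') (ev j') (D.Q.up D.z) (D.Q.up D.z') N (uT N) := by
    unfold Dt.C'
    rw [d3, d4]
  have up := sup_pai hij (hD.P.up hD.y) (hD.P.up hD.y') rfl rfl hN1 (f := fun _ => 1) (e0 := fun _ => 1) fun _ _ _ _ _ _ => le_rfl
  have uq := sup_pai hij' (hD.Q.up hD.z) (hD.Q.up hD.z') rfl rfl hN1 (f := fun _ => 1) (e0 := fun _ => 1) fun _ _ _ _ _ _ => le_rfl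
  rw [← eC] at up
  rw [← eC'] at uq
  have hmN : ∀ m : ℝ, δ ≤ m → 3 ≤ m * N ∧ δ * N ≤ m * N := fun m hm => by
    have : δ * N ≤ m * N := mul_le_mul_of_nonneg_right hm hS.le
    exact ⟨h3.trans this, this⟩
  have at_p : ∀ e : W3 × W3 → ℝ≥0∞, cms (D.C N (uT N)) e ≤ totQ (ev i) (ev j) (D.P.up D.y) (D.P.up D.y') N (uT N) (fun _ => 1) *
      ENNReal.ofReal (cB * (δ * N / (2 * (D.P.m * N))) ^ (-(3 / 4) : ℝ)) →
      cms (D.C N (uT N)) e * (ENNReal.ofReal (BQ (D.Q.up D.z) / (N : ℝ) ^ 2) *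
        totQ (ev i') (ev j') (D.Q.up D.z) (D.Q.up D.z') N (uT N) (fun _ => 1)) ≤
      totQ (ev i) (ev j) (D.P.up D.y) (D.P.up D.y') N (uT N) (fun _ => 1) *
          totQ (ev i') (ev j') (D.Q.up D.z) (D.Q.up D.z') N (uT N) (fun _ => 1) *
          (ENNReal.ofReal (cB * (δ / (2 * max D.P.m D.Q.m)) ^ (-(3 / 4) : ℝ)) *
            ENNReal.ofReal (max (BQ D.P) (BQ D.Q) / (N : ℝ) ^ 2)) := by
    intro e he
    refine (mul_le_mul' (he.trans (mul_le_mul_right cP _)) (mul_le_mul_left bQ _)).trans (le_of_eq ?_)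
    ring
  have at_q : ∀ e : W3 × W3 → ℝ≥0∞, cms (D.C' N (uT N)) e ≤
      totQ (ev i') (ev j') (D.Q.up D.z) (D.Q.up D.z') N (uT N) (fun _ => 1) *
      ENNReal.ofReal (cB * (δ * N / (2 * (D.Q.m * N))) ^ (-(3 / 4) : ℝ)) →
      cms (D.C' N (uT N)) e * (ENNReal.ofReal (BQ (D.P.up D.y) / (N : ℝ) ^ 2) *
        totQ (ev i) (ev j) (D.P.up D.y) (D.P.up D.y') N (uT N) (fun _ => 1)) ≤
      totQ (ev i) (ev j) (D.P.up D.y) (D.P.up D.y') N (uT N) (fun _ => 1) *
          totQ (ev i') (ev j') (D.Q.up D.z) (D.Q.up D.z') N (uT N) (fun _ => 1) *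
          (ENNReal.ofReal (cB * (δ / (2 * max D.P.m D.Q.m)) ^ (-(3 / 4) : ℝ)) *
            ENNReal.ofReal (max (BQ D.P) (BQ D.Q) / (N : ℝ) ^ 2)) := by
    intro e he
    refine (mul_le_mul' (he.trans (mul_le_mul_right cQ _)) (mul_le_mul_left bP _)).trans (le_of_eq ?_)
    ring
  fin_cases s
  · refine (mw_prod_le Hy hs uq).trans (mul_le_mul_right (mul_le_mul_right (at_p _ ?_) _) _)
    show cms (D.C N (uT N)) (cnt1 D.d D.d' (D.P.up D.y) (D.P.up D.y') N (uT N) x0 (δ * N) K) ≤ _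
    rw [eC, d1, d2, ev_ax, ev_ax]
    exact cms_cnt1 (hD.P.up hD.y) (hD.P.up hD.y') hS h3 (hmN _ hδP).1 (hmN _ hδP).2 K
  · refine (mw_prod_le Hy hs uq).trans (mul_le_mul_right (mul_le_mul_right (at_p _ ?_) _) _)
    show cms (D.C N (uT N)) (cnt2 D.d D.d' (D.P.up D.y) (D.P.up D.y') N (uT N) x0 (δ * N) K) ≤ _
    rw [eC, d1, d2, ev_ax, ev_ax]
    exact cms_cnt2 (hD.P.up hD.y) (hD.P.up hD.y') hS h3 (hmN _ hδP).1 (hmN _ hδP).2 K
  · refine (mw_prod_le' Hy hs up).trans (mul_le_mul_right (mul_le_mul_right (at_q _ ?_) _) _)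
    show cms (D.C' N (uT N)) (cnt1 D.t D.t' (D.Q.up D.z) (D.Q.up D.z') N (uT N) x0 (δ * N) K) ≤ _
    rw [eC', d3, d4, ev_ax, ev_ax]
    exact cms_cnt1 (hD.Q.up hD.z) (hD.Q.up hD.z') hS h3 (hmN _ hδQ).1 (hmN _ hδQ).2 K
  · refine (mw_prod_le' Hy hs up).trans (mul_le_mul_right (mul_le_mul_right (at_q _ ?_) _) _)
    show cms (D.C' N (uT N)) (cnt2 D.t D.t' (D.Q.up D.z) (D.Q.up D.z') N (uT N) x0 (δ * N) K) ≤ _
    rw [eC', d3, d4, ev_ax, ev_ax]
    exact cms_cnt2 (hD.Q.up hD.z) (hD.Q.up hD.z') hS h3 (hmN _ hδQ).1 (hmN _ hδQ).2 K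

/-- **the sum over the cells**, all large scales, cells of side at most the heights of the blocks -/
theorem nul_asy0 (hD : D.Ok) (hb : D.len ≤ b) {i j i' j' : Fin 3} (hij : i ≠ j) (hij' : i' ≠ j')
    (d1 : D.d = ev i) (d2 : D.d' = ev j) (d3 : D.t = ev i') (d4 : D.t' = ev j') (hV : 0 < D.V.t1) (hV' : 0 < D.V'.t1) {C0 : ℝ}
    (hT : ∀ᶠ N : ℕ in atTop, totQ (ev i) (ev j) (D.P.up D.y) (D.P.up D.y') N (uT N) (fun _ => 1) *
      totQ (ev i') (ev j') (D.Q.up D.z) (D.Q.up D.z') N (uT N) (fun _ => 1) ≤ ENNReal.ofReal (C0 * (N : ℝ) ^ (7 / 6 : ℝ))) :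
    ∃ C : ℝ, 0 < C ∧ ∀ δ : ℝ, 0 < δ → δ ≤ D.P.m → δ ≤ D.Q.m → ∀ᶠ N : ℕ in atTop, ∀ (s : Fin 4) (x0 : ℝ) (K : ℕ),
      ∑ k ∈ Finset.range K, (mw N b) {x | HitW s D N (uT N) x (x0 + k * (δ * N)) (x0 + (k + 1) * (δ * N))} ≤
        ENNReal.ofReal (C * δ ^ (-(3 / 4) : ℝ)) := by
  have hmP := hD.P.m
  have hmQ := hD.Q.m
  have rP := rad_pos hD.P
  have rQ := rad_pos hD.Q
  have hVD := hD.V
  have hVD' := hD.V'
  have gP : 0 < D.P.rg := by
    have := hD.P.rg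
    have h1 := hD.P.r
    have h2 := hD.P.r2
    linarith
  have gQ : 0 < D.Q.rg := by
    have := hD.Q.rg
    have h1 := hD.Q.r
    have h2 := hD.Q.r2
    linarith
  obtain ⟨C1, N1, hC1, -, hA⟩ := Bt.rst_up gP gQ (W := D.V) (by linarith) hV
  obtain ⟨C2, N2, hC2, -, hB⟩ := Bt.rst_up gP gQ (W := D.V') (by linarith) hV'
  obtain ⟨BB, hBB⟩ : ∃ BB : ℝ, BB = max (BQ D.P) (BQ D.Q) := ⟨_, rfl⟩
  have hBB0 : 0 ≤ BB := by
    rw [hBB]
    exact (BQ_nonneg _).trans (le_max_left _ _)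
  obtain ⟨M, hM⟩ : ∃ M : ℝ, M = 2 * max D.P.m D.Q.m := ⟨_, rfl⟩
  have hM0 : 0 < M := by
    rw [hM]
    have := le_max_left D.P.m D.Q.m
    positivity
  refine ⟨C1 * C2 * (|C0| + 1) * (cB * M ^ (3 / 4 : ℝ)) * (BB + 1), by have := cB_pos; positivity, fun δ hδ hδP hδQ => ?_⟩
  filter_upwards [hT, eventually_ge_atTop 1, eventually_ge_atTop ⌈N1⌉₊, eventually_ge_atTop ⌈N2⌉₊,
    eventually_ge_atTop ⌈3 / δ⌉₊] with N h1 h2 h3 h4 h5 s x0 K
  have hN : (0 : ℝ) < N := by exact_mod_cast h2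
  have h5' : 3 / δ ≤ N := (Nat.le_ceil _).trans (by exact_mod_cast h5)
  have h6 : 3 ≤ δ * N := by
    rw [div_le_iff₀ hδ] at h5'
    linarith
  refine (nul_int s hD (by omega) hb hij hij' d1 d2 d3 d4 hδ hδP hδQ h6 x0 K).trans ?_
  have a1 := hA N ((Nat.le_ceil _).trans (by exact_mod_cast h3)) i i'
  have a2 := hB N ((Nat.le_ceil _).trans (by exact_mod_cast h4)) j j'
  have e1 : D.A N (uT N) = Rst (ev i) (ev i') D.P D.Q D.V N ((N : ℝ) ^ (4 / 3 : ℝ)) := by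
    unfold Dt.A uT
    rw [d1, d3]
  have e2 : D.B N (uT N) = Rst (ev j) (ev j') D.P D.Q D.V' N ((N : ℝ) ^ (4 / 3 : ℝ)) := by
    unfold Dt.B uT
    rw [d2, d4]
  rw [e1, e2, ← hM, ← hBB]
  have h7 : totQ (ev i) (ev j) (D.P.up D.y) (D.P.up D.y') N (uT N) (fun _ => 1) *
      totQ (ev i') (ev j') (D.Q.up D.z) (D.Q.up D.z') N (uT N) (fun _ => 1) ≤
        ENNReal.ofReal ((|C0| + 1) * (N : ℝ) ^ (7 / 6 : ℝ)) := h1.trans (ENNReal.ofReal_le_ofReal
    (mul_le_mul_of_nonneg_right ((le_abs_self _).trans (by linarith)) (by positivity)))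
  have e3 : (δ / M) ^ (-(3 / 4) : ℝ) = δ ^ (-(3 / 4) : ℝ) * M ^ (3 / 4 : ℝ) := by
    rw [Real.div_rpow hδ.le hM0.le, Real.rpow_neg hM0.le, div_inv_eq_mul]
  have e4 : (N : ℝ) ^ (-(2 / 3) : ℝ) * ((N : ℝ) ^ (3 / 4 : ℝ) * (N : ℝ) ^ (3 / 4 : ℝ) * ((N : ℝ) ^ (7 / 6 : ℝ) * ((N : ℝ) ^ 2)⁻¹)) =
      1 := by
    have e5 : ((N : ℝ) ^ 2)⁻¹ = (N : ℝ) ^ (-2 : ℝ) := by
      rw [Real.rpow_neg hN.le]
      norm_num
    rw [e5, ← Real.rpow_add hN, ← Real.rpow_add hN, ← Real.rpow_add hN, ← Real.rpow_add hN]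
    norm_num
  have hc := cB_pos
  calc ENNReal.ofReal ((N : ℝ) ^ (-(2 / 3) : ℝ)) * (ms (Rst (ev i) (ev i') D.P D.Q D.V N ((N : ℝ) ^ (4 / 3 : ℝ))) (fun _ => 1) *
          ms (Rst (ev j) (ev j') D.P D.Q D.V' N ((N : ℝ) ^ (4 / 3 : ℝ))) (fun _ => 1) *
        (totQ (ev i) (ev j) (D.P.up D.y) (D.P.up D.y') N (uT N) (fun _ => 1) *
          totQ (ev i') (ev j') (D.Q.up D.z) (D.Q.up D.z') N (uT N) (fun _ => 1) *
          (ENNReal.ofReal (cB * (δ / M) ^ (-(3 / 4) : ℝ)) * ENNReal.ofReal (BB / (N : ℝ) ^ 2))))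
      ≤ ENNReal.ofReal ((N : ℝ) ^ (-(2 / 3) : ℝ)) * (ENNReal.ofReal (C1 * (N : ℝ) ^ (3 / 4 : ℝ)) *
          ENNReal.ofReal (C2 * (N : ℝ) ^ (3 / 4 : ℝ)) * (ENNReal.ofReal ((|C0| + 1) * (N : ℝ) ^ (7 / 6 : ℝ)) *
          (ENNReal.ofReal (cB * (δ / M) ^ (-(3 / 4) : ℝ)) * ENNReal.ofReal (BB / (N : ℝ) ^ 2)))) := by
        gcongr
    _ = ENNReal.ofReal (C1 * C2 * (|C0| + 1) * (cB * M ^ (3 / 4 : ℝ)) * BB * δ ^ (-(3 / 4) : ℝ) * ((N : ℝ) ^ (-(2 / 3) : ℝ) *
          ((N : ℝ) ^ (3 / 4 : ℝ) * (N : ℝ) ^ (3 / 4 : ℝ) * ((N : ℝ) ^ (7 / 6 : ℝ) * ((N : ℝ) ^ 2)⁻¹)))) := by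
        rw [← ENNReal.ofReal_mul (by positivity), ← ENNReal.ofReal_mul (by positivity), ← ENNReal.ofReal_mul (by positivity),
          ← ENNReal.ofReal_mul (by positivity), ← ENNReal.ofReal_mul (by positivity), e3]
        congr 1
        ring
    _ ≤ _ := by
        rw [e4, mul_one]
        refine ENNReal.ofReal_le_ofReal (mul_le_mul_of_nonneg_right ?_ (by positivity))
        exact mul_le_mul_of_nonneg_left (by linarith) (by positivity)

/-- a cell is cut into `q` cells -/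
lemma hitW_split {S T : ℝ} {x : W3 × ℕ} {s : Fin 4} {x0 L : ℝ} {q : ℕ} {k : ℕ}
    (h : HitW s D S T x (x0 + k * (q * L)) (x0 + (k + 1) * (q * L))) (hL : 0 < L) :
    ∃ r : ℕ, r < q ∧ HitW s D S T x (x0 + (k * q + r : ℕ) * L) (x0 + ((k * q + r : ℕ) + 1) * L) := by
  obtain ⟨a, R, c, U, k1, k2, j1, j2, h1, t, h2, h3, h4, h5, h6, h7⟩ := h
  obtain ⟨v, hv⟩ : ∃ v, v = lv (sdr D s) (ps (spc a c s) t) := ⟨_, rfl⟩
  rw [← hv] at h6 h7
  obtain ⟨r, hr⟩ : ∃ r : ℕ, r = ⌊(v - (x0 + k * (q * L))) / L⌋₊ := ⟨_, rfl⟩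
  have h8 : 0 ≤ (v - (x0 + k * (q * L))) / L := div_nonneg (by linarith) hL.le
  have h9 : (r : ℝ) ≤ (v - (x0 + k * (q * L))) / L := by
    rw [hr]
    exact Nat.floor_le h8
  have h10 : (v - (x0 + k * (q * L))) / L < r + 1 := by
    rw [hr]
    exact Nat.lt_floor_add_one _
  rw [le_div_iff₀ hL] at h9
  rw [div_lt_iff₀ hL] at h10
  have hrq : r < q := by
    have h11 : (r : ℝ) * L < q * L := by
      calc (r : ℝ) * L ≤ v - (x0 + k * (q * L)) := h9
        _ < q * L := by linarith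
    exact_mod_cast lt_of_mul_lt_mul_right h11 hL.le
  refine ⟨r, hrq, a, R, c, U, k1, k2, j1, j2, h1, t, h2, h3, h4, h5, ?_, ?_⟩
  · rw [← hv]
    push_cast
    linarith
  · rw [← hv]
    push_cast
    linarith

/-- the sum over cells of side `q L` is at most the sum over the cells of side `L` -/
lemma sum_split {S T : ℝ} (μ : Measure (W3 × ℕ)) {s : Fin 4} {x0 L : ℝ} {q : ℕ} (hL : 0 < L) (K : ℕ) :
    ∑ k ∈ Finset.range K, μ {x | HitW s D S T x (x0 + k * (q * L)) (x0 + (k + 1) * (q * L))} ≤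
      ∑ k ∈ Finset.range (K * q), μ {x | HitW s D S T x (x0 + k * L) (x0 + (k + 1) * L)} := by
  induction K with
  | zero => simp
  | succ n ih =>
    rw [Finset.sum_range_succ, Nat.succ_mul, Finset.sum_range_add]
    refine add_le_add ih ?_
    have h1 : {x | HitW s D S T x (x0 + n * (q * L)) (x0 + (n + 1) * (q * L))} ⊆
        ⋃ r ∈ Finset.range q, {x | HitW s D S T x (x0 + (n * q + r : ℕ) * L) (x0 + ((n * q + r : ℕ) + 1) * L)} := by
      intro x hx
      obtain ⟨r, hr, h2⟩ := hitW_split hx hL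
      exact mem_biUnion (Finset.mem_coe.2 (Finset.mem_range.2 hr)) h2
    exact (measure_mono h1).trans (measure_biUnion_finset_le _ _)

/-- **the sum over the cells**, all large scales, any side -/
theorem nul_asy (hD : D.Ok) (hb : D.len ≤ b) {i j i' j' : Fin 3} (hij : i ≠ j) (hij' : i' ≠ j')
    (d1 : D.d = ev i) (d2 : D.d' = ev j) (d3 : D.t = ev i') (d4 : D.t' = ev j') (hV : 0 < D.V.t1) (hV' : 0 < D.V'.t1) {C0 : ℝ}
    (hT : ∀ᶠ N : ℕ in atTop, totQ (ev i) (ev j) (D.P.up D.y) (D.P.up D.y') N (uT N) (fun _ => 1) *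
      totQ (ev i') (ev j') (D.Q.up D.z) (D.Q.up D.z') N (uT N) (fun _ => 1) ≤ ENNReal.ofReal (C0 * (N : ℝ) ^ (7 / 6 : ℝ))) :
    ∃ C : ℝ, 0 < C ∧ ∀ δ : ℝ, 0 < δ → ∀ᶠ N : ℕ in atTop, ∀ (s : Fin 4) (x0 : ℝ) (K : ℕ),
      ∑ k ∈ Finset.range K, (mw N b) {x | HitW s D N (uT N) x (x0 + k * (δ * N)) (x0 + (k + 1) * (δ * N))} ≤
        ENNReal.ofReal (C * (δ ^ (-(3 / 4) : ℝ) + 1)) := by
  obtain ⟨C, hC, h⟩ := nul_asy0 hD hb hij hij' d1 d2 d3 d4 hV hV' hT
  obtain ⟨m, hm⟩ : ∃ m : ℝ, m = min D.P.m D.Q.m := ⟨_, rfl⟩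
  have hm0 : 0 < m := by
    rw [hm]
    exact lt_min hD.P.m hD.Q.m
  refine ⟨C * (1 + (m / 2) ^ (-(3 / 4) : ℝ)), by positivity, fun δ hδ => ?_⟩
  obtain ⟨q, hq⟩ : ∃ q : ℕ, q = ⌈δ / m⌉₊ := ⟨_, rfl⟩
  have hq1 : δ / m ≤ q := by
    rw [hq]
    exact Nat.le_ceil _
  have hq2 : (q : ℝ) < δ / m + 1 := by
    rw [hq]
    exact Nat.ceil_lt_add_one (by positivity)
  have hq0 : 0 < q := by
    rw [hq]
    exact Nat.ceil_pos.2 (by positivity)
  have hqr : (0 : ℝ) < q := by exact_mod_cast hq0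
  have h1 : δ / q ≤ m := by
    rw [div_le_iff₀ hqr]
    rw [div_le_iff₀ hm0] at hq1
    linarith
  have h2 : (δ / q) ^ (-(3 / 4) : ℝ) ≤ δ ^ (-(3 / 4) : ℝ) + (m / 2) ^ (-(3 / 4) : ℝ) := by
    rcases le_or_gt δ m with h3 | h3
    · have h4 : q = 1 := by
        have h5 : (q : ℝ) < 2 := by
          have : δ / m ≤ 1 := (div_le_one hm0).2 h3
          linarith
        have h6 : q < 2 := by exact_mod_cast h5
        omega
      rw [h4]
      simp only [Nat.cast_one, div_one]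
      have : 0 ≤ (m / 2) ^ (-(3 / 4) : ℝ) := by positivity
      linarith
    · have h4 : m / 2 ≤ δ / q := by
        rw [le_div_iff₀ hqr]
        have h5 : 1 < δ / m := (one_lt_div hm0).2 h3
        have h6 : (q : ℝ) ≤ 2 * (δ / m) := by linarith
        calc m / 2 * q ≤ m / 2 * (2 * (δ / m)) := mul_le_mul_of_nonneg_left h6 (by positivity)
          _ = δ := by field_simp
      have h5 := Real.rpow_le_rpow_of_nonpos (by positivity) h4 (show (-(3 / 4) : ℝ) ≤ 0 by norm_num)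
      have : 0 ≤ δ ^ (-(3 / 4) : ℝ) := by positivity
      linarith
  filter_upwards [h (δ / q) (by positivity) (h1.trans (by rw [hm]; exact min_le_left _ _))
    (h1.trans (by rw [hm]; exact min_le_right _ _)), eventually_ge_atTop 1] with N hN hN1 s x0 K
  have hN0 : (0 : ℝ) < N := by exact_mod_cast hN1
  have e1 : δ * N = q * (δ / q * N) := by field_simp
  rw [e1]
  refine (sum_split (mw N b) (by positivity) K).trans ((hN s x0 (K * q)).trans (ENNReal.ofReal_le_ofReal ?_))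
  have : 0 ≤ δ ^ (-(3 / 4) : ℝ) := by positivity
  have h4 : 0 ≤ (m / 2) ^ (-(3 / 4) : ℝ) := by positivity
  calc C * (δ / q) ^ (-(3 / 4) : ℝ) ≤ C * (δ ^ (-(3 / 4) : ℝ) + (m / 2) ^ (-(3 / 4) : ℝ)) :=
        mul_le_mul_of_nonneg_left h2 hC.le
    _ ≤ C * (1 + (m / 2) ^ (-(3 / 4) : ℝ)) * (δ ^ (-(3 / 4) : ℝ) + 1) := by
        rw [mul_assoc]
        exact mul_le_mul_of_nonneg_left (by nlinarith) hC.le

/-! ### the form which is read in the limit -/

/-- the number `e n` -/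
noncomputable def eN (C : ℝ) (n : ℕ) : ℝ := 2 * C * (((1 / 2 : ℝ) ^ n) ^ (-(3 / 4) : ℝ) + 1) / 2 ^ n

lemma eN_lim (C : ℝ) : Tendsto (eN C) atTop (𝓝 0) := by
  have h1 : ∀ n : ℕ, eN C n = 2 * C * (((1 / 2 : ℝ) ^ (1 / 4 : ℝ)) ^ n + (1 / 2 : ℝ) ^ n) := by
    intro n
    unfold eN
    have e1 : ((1 / 2 : ℝ) ^ n) ^ (-(3 / 4) : ℝ) / 2 ^ n = ((1 / 2 : ℝ) ^ (1 / 4 : ℝ)) ^ n := by
      have e2 : (1 : ℝ) / 2 ^ n = (1 / 2 : ℝ) ^ n := by rw [div_pow, one_pow]
      have e3 : (0 : ℝ) < (1 / 2 : ℝ) ^ n := by positivity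
      rw [div_eq_mul_one_div, e2]
      conv_lhs => rw [← Real.rpow_one ((1 / 2 : ℝ) ^ n), ← Real.rpow_mul e3.le, ← Real.rpow_add e3]
      rw [← Real.rpow_natCast, ← Real.rpow_natCast, ← Real.rpow_mul (by norm_num), ← Real.rpow_mul (by norm_num)]
      congr 1
      ring
    have e4 : (1 : ℝ) / 2 ^ n = (1 / 2 : ℝ) ^ n := by rw [div_pow, one_pow]
    rw [mul_div_assoc, add_div, e1, e4]
  have h2 : Tendsto (fun n : ℕ => 2 * C * (((1 / 2 : ℝ) ^ (1 / 4 : ℝ)) ^ n + (1 / 2 : ℝ) ^ n)) atTop (𝓝 (2 * C * (0 + 0))) := by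
    refine Tendsto.const_mul _ (Tendsto.add ?_ ?_)
    · exact tendsto_pow_atTop_nhds_zero_of_lt_one (by positivity) (Real.rpow_lt_one (by norm_num) (by norm_num) (by norm_num))
    · exact tendsto_pow_atTop_nhds_zero_of_lt_one (by norm_num) (by norm_num)
  rw [add_zero, mul_zero] at h2
  exact h2.congr fun n => (h1 n).symm

/-- **finitely many double cells of the grid** `lft t0 n k`, shifted by `l0` -/
theorem nul_grid {C : ℝ} (hC : 0 < C) (h : ∀ δ : ℝ, 0 < δ → ∀ᶠ N : ℕ in atTop, ∀ (s : Fin 4) (x0 : ℝ) (K : ℕ),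
      ∑ k ∈ Finset.range K, (mw N b) {x | HitW s D N (uT N) x (x0 + k * (δ * N)) (x0 + (k + 1) * (δ * N))} ≤
        ENNReal.ofReal (C * (δ ^ (-(3 / 4) : ℝ) + 1))) (t0 : ℝ) (n : ℕ) (K : Finset ℤ) :
    ∀ᶠ N : ℕ in atTop, ∀ (s : Fin 4) (l0 : ℝ), ∑ k ∈ K, (mw N b) {x | HitW s D N (uT N) x ((l0 + Nul.lft t0 n k) * N)
      ((l0 + Nul.lft t0 n (k + 2)) * N)} ≤ ENNReal.ofReal (2 ^ n * eN C n) := by
  obtain ⟨k0, hk0⟩ : ∃ k0 : ℤ, ∀ k ∈ K, k0 ≤ k := by
    rcases K.eq_empty_or_nonempty with h0 | h0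
    · exact ⟨0, fun k hk => by rw [h0] at hk; exact absurd hk (Finset.notMem_empty k)⟩
    · exact ⟨K.min' h0, fun k hk => K.min'_le k hk⟩
  obtain ⟨K', hK'⟩ : ∃ K' : ℕ, ∀ k ∈ K, (k - k0).toNat < K' :=
    ⟨K.sup (fun k => (k - k0).toNat) + 1, fun k hk => Nat.lt_succ_of_le (Finset.le_sup (f := fun k : ℤ => (k - k0).toNat) hk)⟩
  have hδ : (0 : ℝ) < (1 / 2 : ℝ) ^ n := by positivity
  filter_upwards [h _ hδ] with N hN s l0
  obtain ⟨x0, hx0⟩ : ∃ x0 : ℝ, x0 = (l0 + Nul.lft t0 n k0) * N := ⟨_, rfl⟩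
  obtain ⟨L, hL⟩ : ∃ L : ℝ, L = (1 / 2 : ℝ) ^ n * N := ⟨_, rfl⟩
  obtain ⟨H, hH⟩ : ∃ H : ℕ → Set (W3 × ℕ), H = fun k : ℕ => {x | HitW s D N (uT N) x (x0 + k * L) (x0 + (k + 1) * L)} := ⟨_, rfl⟩
  have e2 : (1 : ℝ) / 2 ^ n = (1 / 2 : ℝ) ^ n := by rw [div_pow, one_pow]
  have key : ∀ k ∈ K, (mw N b) {x | HitW s D N (uT N) x ((l0 + Nul.lft t0 n k) * N) ((l0 + Nul.lft t0 n (k + 2)) * N)} ≤
      (mw N b) (H (k - k0).toNat) + (mw N b) (H ((k - k0).toNat + 1)) := by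
    intro k hk
    have hk1 : (((k - k0).toNat : ℕ) : ℝ) = (k : ℝ) - k0 := by
      have h1 : (((k - k0).toNat : ℕ) : ℤ) = k - k0 := Int.toNat_of_nonneg (by linarith [hk0 k hk])
      have h2 : ((((k - k0).toNat : ℕ) : ℤ) : ℝ) = ((k - k0 : ℤ) : ℝ) := by rw [h1]
      rw [Int.cast_natCast] at h2
      rw [h2]
      push_cast
      ring
    have f1 : (l0 + Nul.lft t0 n k) * N = x0 + ((k - k0).toNat : ℕ) * L := by
      rw [hk1, hx0, hL, ← e2]
      unfold Nul.lft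
      ring
    have f2 : (l0 + Nul.lft t0 n (k + 2)) * N = x0 + (((k - k0).toNat + 1 : ℕ) + 1) * L := by
      push_cast
      rw [hk1, hx0, hL, ← e2]
      unfold Nul.lft
      push_cast
      ring
    refine (measure_mono ?_).trans (measure_union_le _ _)
    intro x hx
    rw [mem_ofPred_eq, f1, f2] at hx
    obtain ⟨a, R, c, U, k1, k2, j1, j2, h1, t, h2, h3, h4, h5, h6, h7⟩ := hx
    rw [hH]
    rcases lt_or_ge (lv (sdr D s) (ps (spc a c s) t)) (x0 + (((k - k0).toNat : ℕ) + 1) * L) with g | g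
    · exact Or.inl ⟨a, R, c, U, k1, k2, j1, j2, h1, t, h2, h3, h4, h5, h6, g⟩
    · refine Or.inr ⟨a, R, c, U, k1, k2, j1, j2, h1, t, h2, h3, h4, h5, ?_, h7⟩
      push_cast
      exact g
  have inj : ∀ (f : ℕ → ℝ≥0∞) (m : ℕ), ∑ k ∈ K, f ((k - k0).toNat + m) ≤ ∑ k ∈ Finset.range (K' + m), f k := by
    intro f m
    have h1 : ∑ k ∈ K, f ((k - k0).toNat + m) = ∑ q ∈ K.image (fun k : ℤ => (k - k0).toNat + m), f q := by
      rw [Finset.sum_image]
      intro x hx y hy hxy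
      have h1 := hk0 x hx
      have h2 := hk0 y hy
      have h3 : (x - k0).toNat + m = (y - k0).toNat + m := hxy
      omega
    rw [h1]
    refine Finset.sum_le_sum_of_subset fun q hq => ?_
    obtain ⟨k, hk, rfl⟩ := Finset.mem_image.1 hq
    have := hK' k hk
    exact Finset.mem_range.2 (by omega)
  have hN' : ∀ K, ∑ k ∈ Finset.range K, (mw N b) (H k) ≤ ENNReal.ofReal (C * (((1 / 2 : ℝ) ^ n) ^ (-(3 / 4) : ℝ) + 1)) := by
    intro K
    rw [hH, hL]
    exact hN s x0 K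
  calc ∑ k ∈ K, (mw N b) {x | HitW s D N (uT N) x ((l0 + Nul.lft t0 n k) * N) ((l0 + Nul.lft t0 n (k + 2)) * N)}
      ≤ ∑ k ∈ K, ((mw N b) (H (k - k0).toNat) + (mw N b) (H ((k - k0).toNat + 1))) := Finset.sum_le_sum key
    _ = ∑ k ∈ K, (mw N b) (H (k - k0).toNat) + ∑ k ∈ K, (mw N b) (H ((k - k0).toNat + 1)) := Finset.sum_add_distrib
    _ ≤ ENNReal.ofReal (C * (((1 / 2 : ℝ) ^ n) ^ (-(3 / 4) : ℝ) + 1)) +
        ENNReal.ofReal (C * (((1 / 2 : ℝ) ^ n) ^ (-(3 / 4) : ℝ) + 1)) := by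
        refine add_le_add ?_ ?_
        · have := inj (fun k => (mw N b) (H k)) 0
          simp only [add_zero] at this
          exact this.trans (hN' K')
        · exact (inj (fun k => (mw N b) (H k)) 1).trans (hN' (K' + 1))
    _ = ENNReal.ofReal (2 ^ n * eN C n) := by
        rw [← ENNReal.ofReal_add (by positivity) (by positivity)]
        congr 1
        unfold eN
        field_simp
        ring

/-! ### with the classes `Lv` of helper62 -/

/-- the heights `m` of the blocks -/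
def Dt.mm (D : Dt) (s : Fin 4) : ℝ := (stp D s).m

/-- **the bad event of a cell** `[lo, hi)` of additional thresholds for the strand `s`: the class with the thresholds `u` occurs, its gate
`c` is below the cell, the class with thresholds `v`, `v s = lo`, occurs, its gate `c` is below `hi`, and the cell is in the range of the
block of the first class -/
def BadW (D : Dt) (RA RB : Set W3) (N : ℕ) (u : Fin 4 → ℝ) (s : Fin 4) (lo hi : ℝ) : Set (W3 × ℕ) :=
  {x | x ∈ Lv D RA RB N (uT N) u ∧ glv (D.th u) N (uT N) x s < (D.l s + lo) * N ∧ ∃ v : Fin 4 → ℝ, (∀ r, 0 ≤ v r) ∧ lo ≤ v s ∧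
    x ∈ Lv D RA RB N (uT N) v ∧ glv (D.th v) N (uT N) x s < (D.l s + hi) * N ∧
    (D.l s + hi) * N ≤ glv (D.th u) N (uT N) x s + Dt.mm D s * N}

/-- the bad event implies that the block is hit -/
theorem bad_hit (hD : D.Ok) (hN : 0 < N) {RA RB : Set W3} (hA : RA ⊆ D.A N (uT N)) (hB : RB ⊆ D.B N (uT N)) {u : Fin 4 → ℝ}
    (hu : ∀ r, 0 ≤ u r) (s : Fin 4) (lo hi : ℝ) :
    BadW D RA RB N u s lo hi ⊆ {x | HitW s (D.th u) N (uT N) x ((D.l s + lo) * N) ((D.l s + hi) * N)} := by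
  have hS : (0 : ℝ) < N := by exact_mod_cast hN
  rintro x ⟨h1, h2, v, hv, hlo, h3, h4, h5⟩
  obtain ⟨a, R, c, U, k1, k2, j1, j2, g, -, -⟩ := lv_dec hA hB h1
  obtain ⟨a', R', c', U', k1', k2', j1', j2', g', -, -⟩ := lv_dec hA hB h3
  rw [glv_dec (hD.th hu) hS g] at h2 h5
  rw [glv_dec (hD.th hv) hS g'] at h4
  have e1 : glD (D.th u) a c k1 k2 j1 j2 s = lv (sdr (D.th u) s) (ps (spc a c s) (sgt k1 k2 j1 j2 s)) := by
    fin_cases s <;> rfl
  have e2 : glD (D.th v) a' c' k1' k2' j1' j2' s = lv (sdr (D.th u) s) (ps (spc a' c' s) (sgt k1' k2' j1' j2' s)) := by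
    fin_cases s <;> rfl
  rw [e1] at h2 h5
  rw [e2] at h4
  have low : ∀ {d : ℂ} {P : Tp} {y T : ℝ} {p : W3} {k : ℕ}, PreM d (P.up y) N T p k → (P.l + y) * N ≤ lv d (ps p k) := by
    intro d P y T p k h
    have := h.g.fa.1
    rwa [en_take _ h.g.le] at this
  have h6 : (D.l s + lo) * N ≤ lv (sdr (D.th u) s) (ps (spc a' c' s) (sgt k1' k2' j1' j2' s)) := by
    refine (mul_le_mul_of_nonneg_right (by linarith : D.l s + lo ≤ D.l s + v s) hS.le).trans ?_
    fin_cases s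
    · exact low g'.ga.p1
    · exact low g'.ga.p2
    · exact low g'.gc.p1
    · exact low g'.gc.p2
  have e3 : (stp (D.th u) s).m = Dt.mm D s := by
    fin_cases s <;> rfl
  have g'' : Dec (lvl (D.th u) (v 0) (v 1) (v 2) (v 3)) N (uT N) x a' R' c' U' k1' k2' j1' j2' := g'
  exact hit_of s (hD.th hu) hS g g'' (by linarith) (by rw [e3]; linarith) h6 h4

/-- **N5**: for the data `D` and the fixed thresholds `u` -/
theorem nul_lv (hQB : F.QB) {ζ : ℝ} (hζ : 0 < ζ) : ∃ A : ℝ, 0 < A ∧ ∀ (D : Dt) {i j : Fin 3}, D.Ok → i ≠ j → D.d = ev i →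
    D.d' = ev j → D.t = ev (-i) → D.t' = ev (-j) → ζ * D.P.m ≤ D.P.κ1 → ζ * D.Q.m ≤ D.Q.κ1 → D.P.th ≤ 1 - ζ → D.Q.th ≤ 1 - ζ →
    A * D.P.m ^ (4 / 3 : ℝ) ≤ D.P.lb → A * D.Q.m ^ (4 / 3 : ℝ) ≤ D.Q.lb → 0 < D.V.t1 → 0 < D.V'.t1 → ∀ b : ℝ, D.len ≤ b →
    ∀ u : Fin 4 → ℝ, (∀ r, 0 ≤ u r) → ∃ e : ℕ → ℝ, Tendsto e atTop (𝓝 0) ∧ ∀ (t0 : ℝ) (n : ℕ) (K : Finset ℤ), ∀ᶠ N : ℕ in atTop,
      ∀ (s : Fin 4) (RA RB : Set W3), RA ⊆ D.A N (uT N) → RB ⊆ D.B N (uT N) →
        ∑ k ∈ K, (mw N b) (BadW D RA RB N u s (Nul.lft t0 n k) (Nul.lft t0 n (k + 2))) ≤ ENNReal.ofReal (2 ^ n * e n) := by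
  obtain ⟨A, hA, tot⟩ := tot_cls hQB hζ
  refine ⟨A, hA, fun D {i j} hD hij d1 d2 d3 d4 k1 k2 k3 k4 k5 k6 v1 v2 b hb u hu => ?_⟩
  obtain ⟨C0, hC0, hT⟩ := tot hij D.P D.Q hD.P hD.Q k1 k2 k3 k4 k5 k6 (hu 0) (hu 1) (hu 2) (hu 3)
  obtain ⟨C, hC, h⟩ := nul_asy (D := D.th u) (b := b) (hD.th hu) hb hij (fun e => hij (neg_injective e)) d1 d2 d3 d4 v1 v2 hT
  refine ⟨eN C, eN_lim C, fun t0 n K => ?_⟩
  filter_upwards [nul_grid hC h t0 n K, eventually_ge_atTop 1] with N hN hN1 s RA RB hA hB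
  refine (Finset.sum_le_sum fun k _ => measure_mono ?_).trans (hN s (D.l s))
  exact bad_hit hD (by omega) hA hB hu s _ _

/-- **N5**, for the system `mwE` and real numbers, any events contained in the bad events -/
theorem nul_real {b : ℝ} {D : Dt} {u : Fin 4 → ℝ} {e : ℕ → ℝ} {t0 : ℝ} {n : ℕ} {K : Finset ℤ} {l : Filter ℕ} {s : Fin 4}
    {RA RB : ℕ → Set W3} (he : 0 ≤ e n) (h : ∀ᶠ N : ℕ in l, ∑ k ∈ K, (mw N b) (BadW D (RA N) (RB N) N u s (Nul.lft t0 n k)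
      (Nul.lft t0 n (k + 2))) ≤ ENNReal.ofReal (2 ^ n * e n)) {B : ℤ → ℕ → Set (W3 × ℕ)}
    (hB : ∀ k, ∀ᶠ N in l, B k N ⊆ BadW D (RA N) (RB N) N u s (Nul.lft t0 n k) (Nul.lft t0 n (k + 2))) :
    ∀ᶠ N : ℕ in l, ∑ k ∈ K, (mwE N b).real (B k N) ≤ 2 ^ n * e n := by
  filter_upwards [h, (Filter.eventually_all_finset K).2 fun k _ => hB k] with N hN hBN
  have h1 : ∑ k ∈ K, (mwE N b).real (B k N) = (∑ k ∈ K, (mwE N b) (B k N)).toReal := by
    rw [ENNReal.toReal_sum fun k _ => measure_ne_top _ _]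
    rfl
  rw [h1]
  refine ENNReal.toReal_le_of_le_ofReal (by positivity) (le_trans (Finset.sum_le_sum fun k hk => ?_) hN)
  exact (mwE_le N b _).trans (measure_mono (hBN k hk))

end fin

end Pool.Agent.ROT.F3.NW
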