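import Pool.Agent.ROT.F3NulW
import Pool.Agent.ROT.F3NulL
import Pool.Agent.ROT.F3NulH

/-!
# ROT, F3, row NUL (helper15): N5 in the limit

* `N5 D b` : the conclusion of `nul_lv` for the data `D`;
* `yk D t0 n k` : the additional thresholds of the cells `k` of side `2^(-n)`; `yk_yv` : = `yv` (F3LevM);
* **`nul_lim`** : the hypothesis of `nul_good` (F3NulE) for the limits of the classes with the thresholds `yk`, at least `0`;
* **`nul_shift`** : `nul_good` for them: for almost every shift, the hypothesis `hg` of `nul_act`, `nulq_act`.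
-/

set_option autoImplicit false
set_option linter.unusedSectionVars false

open MeasureTheory Set Filter Topology
open scoped ENNReal NNReal Classical

namespace Pool.Agent.ROT.F3.NW

open Pool.Agent.ROT.F3 Pool.Agent.ROT.F3.CC Pool.Agent.ROT.F3.CK Pool.Agent.ROT.F3.LF Pool.Agent.ROT.F3.Nul

/-- the conclusion of `nul_lv` -/
def N5 (D : Dt) (b : ℝ) : Prop := ∀ u : Fin 4 → ℝ, (∀ r, 0 ≤ u r) → ∃ e : ℕ → ℝ, Tendsto e atTop (𝓝 0) ∧
  ∀ (t0 : ℝ) (n : ℕ) (K : Finset ℤ), ∀ᶠ N : ℕ in atTop, ∀ (s : Fin 4) (RA RB : Set W3), RA ⊆ D.A N (uT N) → RB ⊆ D.B N (uT N) →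
    ∑ k ∈ K, (mw N b) (BadW D RA RB N u s (lft t0 n k) (lft t0 n (k + 2))) ≤ ENNReal.ofReal (2 ^ n * e n)

/-- the additional thresholds of the cells `k` -/
noncomputable def yk (D : Dt) (t0 : ℝ) (n : ℕ) (k : Fin 4 → ℤ) (s : Fin 4) : ℝ := max 0 (lft t0 n (k s) - D.l s)

lemma yk_nonneg (D : Dt) (t0 : ℝ) (n : ℕ) (k : Fin 4 → ℤ) (s : Fin 4) : 0 ≤ yk D t0 n k s := le_max_left _ _

lemma yk_yv (D : Dt) (t0 : ℝ) (n : ℕ) (k : Fin 4 → ℤ) : yk D t0 n k = yv D t0 (ci n k) (cj n k) := by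
  obtain ⟨l0, l1⟩ := cL_ci t0 n k
  obtain ⟨l2, l3⟩ := cL_cj t0 n k
  funext s
  fin_cases s
  · show max 0 (lft t0 n (k 0) - D.P.l) = max 0 (cL t0 (ci n k) 0 - D.P.l)
    rw [l0]
  · show max 0 (lft t0 n (k 1) - D.P.l) = max 0 (cL t0 (ci n k) 1 - D.P.l)
    rw [l1]
  · show max 0 (lft t0 n (k 2) - D.Q.l) = max 0 (cL t0 (cj n k) 0 - D.Q.l)
    rw [l2]
  · show max 0 (lft t0 n (k 3) - D.Q.l) = max 0 (cL t0 (cj n k) 1 - D.Q.l)
    rw [l3]

lemma lft_sub (t0 a : ℝ) (n : ℕ) (k : ℤ) : lft (t0 - a) n k = lft t0 n k - a := by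
  unfold lft
  ring

section lim

variable {U : Filter ℕ} [U.NeBot] {b : ℝ} {X : Type*} [PseudoMetricSpace X] [MeasurableSpace X] [BorelSpace X] [CompleteSpace X]
  [SecondCountableTopology X] {cc : ℕ → W3 × ℕ → X} {ν : Measure X} {D : Dt} {RA RB : ℕ → Set W3} {t0 : ℝ}
  {E : ℕ → (Fin 4 → ℤ) → X → ℝ} {Φ : ℕ → (Fin 4 → ℤ) → X → Fin 8 → ℝ} {Λ : ℕ → (Fin 4 → ℤ) → X → Fin 4 → ℝ}

/-- **the hypothesis of `nul_good`** -/
theorem nul_lim (h5 : N5 D b) (hUa : U ≤ atTop) (hC : Cv U (fun N => mwE N b) cc ν) (hA : ∀ᶠ N in U, RA N ⊆ D.A N (uT N))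
    (hB : ∀ᶠ N in U, RB N ⊆ D.B N (uT N))
    (H : ∀ n k, LvO U (fun N => mwE N b) cc ν D RA RB (fun _ _ => yk D t0 n k) (E n k) (Φ n k) (Λ n k)) (s : Fin 4) (n1 : ℕ)
    (k1 : Fin 4 → ℤ) : Tendsto (fun n : ℕ => ENNReal.ofReal (1 / 2 ^ n) * ∑' k : ℤ,
      ν {g | BdE t0 (Dt.mm D) (fun n k => E n k g ≠ 0) (fun n k => Λ n k g) n1 k1 s n k}) atTop (𝓝 0) := by
  choose t t1 t2 using fun n k => (H n k).Λ
  obtain ⟨e, he, h5⟩ := h5 (yk D t0 n1 k1) (yk_nonneg D t0 n1 k1)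
  -- the marks
  obtain ⟨kk, hkk⟩ : ∃ kk : ℤ → (Fin 4 → ℤ) → Fin 4 → ℤ, ∀ k j, kk k j = Function.update j s k := ⟨fun k j => Function.update j s k, fun _ _ => rfl⟩
  obtain ⟨p, hp⟩ : ∃ p : ℕ → ℤ → (Fin 4 → ℤ) → ℕ → W3 × ℕ → Fin 4 → ℝ, p = fun n k j N x =>
      ![iL D RA RB (fun _ _ => yk D t0 n1 k1) N x, t n1 k1 N x s, iL D RA RB (fun _ _ => yk D t0 n (kk k j)) N x,
        t n (kk k j) N x s] := ⟨_, rfl⟩
  obtain ⟨Q, hQ⟩ : ∃ Q : ℕ → ℤ → (Fin 4 → ℤ) → X → Fin 4 → ℝ, Q = fun n k j g =>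
      ![E n1 k1 g, Λ n1 k1 g s, E n (kk k j) g, Λ n (kk k j) g s] := ⟨_, rfl⟩
  obtain ⟨V, hV⟩ : ∃ V : ℕ → ℤ → (Fin 4 → ℤ) → Set (Fin 4 → ℝ), V = fun n k _ =>
      {z | 0 < z 0 ∧ z 1 < lft t0 n k ∧ lft t0 n (k + 2) < z 1 + Dt.mm D s ∧ 0 < z 2 ∧ z 3 < lft t0 n (k + 2)} := ⟨_, rfl⟩
  have oV : ∀ n k j, IsOpen (V n k j) := by
    intro n k j
    rw [hV]
    have c0 := continuous_apply (A := fun _ : Fin 4 => ℝ) 0
    have c1 := continuous_apply (A := fun _ : Fin 4 => ℝ) 1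
    have c2 := continuous_apply (A := fun _ : Fin 4 => ℝ) 2
    have c3 := continuous_apply (A := fun _ : Fin 4 => ℝ) 3
    exact (isOpen_lt continuous_const c0).inter ((isOpen_lt c1 continuous_const).inter ((isOpen_lt continuous_const
      (c1.add continuous_const)).inter ((isOpen_lt continuous_const c2).inter (isOpen_lt c3 continuous_const))))
  have hl : ∀ n k j r, Lm U (fun N => mwE N b) cc ν (fun N x => p n k j N x r) fun g => Q n k j g r := by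
    intro n k j r
    rw [hp, hQ]
    fin_cases r
    · exact (H n1 k1).e
    · exact t1 n1 k1 s
    · exact (H n (kk k j)).e
    · exact t1 n (kk k j) s
  have he' : Tendsto (fun n => |e n|) atTop (𝓝 0) := by
    have := he.abs
    rwa [abs_zero] at this
  have h1 := nul_wk hC (J := Fin 4 → ℤ) (κ := Fin 4) (p := p) (Φ := Q) hl oV he' (by
    intro n K F
    have f1 : ∀ᶠ N : ℕ in U, ∀ k ∈ K, ∀ j ∈ F, ∀ᵐ x ∂(mwE N b), x ∈ Lv D (RA N) (RB N) N (uT N) (yk D t0 n (kk k j)) →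
        ∀ s, t n (kk k j) N x s * N = glv (D.th (yk D t0 n (kk k j))) N (uT N) x s :=
      (Filter.eventually_all_finset K).2 fun k _ => (Filter.eventually_all_finset F).2 fun j _ => t2 n (kk k j)
    filter_upwards [hUa (h5 (t0 - D.l s) n K), f1, t2 n1 k1, hA, hB, hUa (eventually_gt_atTop 0)] with N g1 g2 g3 g4 g5 g6
    have hN : (0 : ℝ) < N := by exact_mod_cast g6
    have g7 := g1 s (RA N) (RB N) g4 g5
    have e1 : ∑ k ∈ K, (mwE N b).real {ω | ∃ j ∈ F, p n k j N ω ∈ V n k j} =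
        (∑ k ∈ K, (mwE N b) {ω | ∃ j ∈ F, p n k j N ω ∈ V n k j}).toReal := by
      rw [ENNReal.toReal_sum fun k _ => measure_ne_top _ _]
      rfl
    rw [e1]
    refine ENNReal.toReal_le_of_le_ofReal (by positivity) (le_trans (Finset.sum_le_sum fun k hk => ?_)
      (g7.trans (ENNReal.ofReal_le_ofReal (mul_le_mul_of_nonneg_left (le_abs_self _) (by positivity)))))
    refine le_trans (measure_mono_ae ?_) (mwE_le N b _)
    have g8 : ∀ᵐ x ∂(mwE N b), ∀ j ∈ F, x ∈ Lv D (RA N) (RB N) N (uT N) (yk D t0 n (kk k j)) →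
        ∀ s, t n (kk k j) N x s * N = glv (D.th (yk D t0 n (kk k j))) N (uT N) x s :=
      (Filter.eventually_all_finset F).2 fun j hj => g2 k hk j hj
    filter_upwards [g8, g3] with x a1 a2 hx
    obtain ⟨j, hj, hx⟩ := hx
    rw [hV, hp] at hx
    obtain ⟨x0, x1, x2, x3, x4⟩ := hx
    change 0 < iL D RA RB (fun _ _ => yk D t0 n1 k1) N x at x0
    change t n1 k1 N x s < lft t0 n k at x1
    change lft t0 n (k + 2) < t n1 k1 N x s + Dt.mm D s at x2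
    change 0 < iL D RA RB (fun _ _ => yk D t0 n (kk k j)) N x at x3
    change t n (kk k j) N x s < lft t0 n (k + 2) at x4
    have b1 := iL_ne x0.ne'
    have b2 := iL_ne x3.ne'
    have b3 := a2 b1 s
    have b4 := a1 j hj b2 s
    refine ⟨b1, ?_, yk D t0 n (kk k j), yk_nonneg D t0 n _, ?_, b2, ?_, ?_⟩
    · rw [← b3, lft_sub]
      exact mul_lt_mul_of_pos_right (by linarith) hN
    · rw [lft_sub]
      refine le_trans (le_of_eq ?_) (le_max_right _ _)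
      rw [hkk]
      simp only [Function.update_self]
    · rw [← b4, lft_sub]
      exact mul_lt_mul_of_pos_right (by linarith) hN
    · rw [← b3, lft_sub, ← add_mul]
      exact mul_le_mul_of_nonneg_right (by linarith) hN.le)
  refine tendsto_of_tendsto_of_tendsto_of_le_of_le tendsto_const_nhds h1 (fun n => zero_le) fun n => ?_
  refine mul_le_mul_right (ENNReal.tsum_le_tsum fun k => measure_mono_ae ?_) _
  have e0 : ∀ᵐ g ∂ν, ∀ j : Fin 4 → ℤ, 0 ≤ E n j g := ae_all_iff.2 fun j => Eventually.of_forall (H n j).e0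
  filter_upwards [e0] with g e0 hg
  obtain ⟨g1, g2, g3, j, g4, g5, g6⟩ := hg
  have ej : kk k j = j := by
    rw [hkk, ← g4]
    exact Function.update_eq_self s j
  refine ⟨j, ?_⟩
  rw [hV, hQ]
  refine ⟨lt_of_le_of_ne ((H n1 k1).e0 g) (Ne.symm g1), g2, g3, ?_, ?_⟩
  · show 0 < E n (kk k j) g
    rw [ej]
    exact lt_of_le_of_ne (e0 j) (Ne.symm g5)
  · show Λ n (kk k j) g s < _
    rw [ej]
    exact g6

/-- **the good shifts** of the strand `s` -/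
theorem nul_shift (h5 : N5 D b) (hUa : U ≤ atTop) (hC : Cv U (fun N => mwE N b) cc ν) (hA : ∀ᶠ N in U, RA N ⊆ D.A N (uT N))
    (hB : ∀ᶠ N in U, RB N ⊆ D.B N (uT N))
    (H : ∀ n k, LvO U (fun N => mwE N b) cc ν D RA RB (fun _ _ => yk D t0 n k) (E n k) (Φ n k) (Λ n k)) (s : Fin 4)
    {Af : X → ℝ} (hAf : Measurable Af) :
    ∀ᵐ m : ℝ, ∀ᵐ g ∂ν, ∀ n1 k1, Λ n1 k1 g s ≠ Af g + m ∧
      ∃ᶠ n in atTop, ¬ BdE t0 (Dt.mm D) (fun n k => E n k g ≠ 0) (fun n k => Λ n k g) n1 k1 s n (kn t0 n (Af g + m)) := by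
  have := hC.fin'
  have mΛ : ∀ n k, Measurable fun g => Λ n k g s := fun n k => by
    obtain ⟨t, t1, -⟩ := (H n k).Λ
    exact (t1 s).ms'
  exact nul_good (P := ν) (t0 := t0) (mm := Dt.mm D) (s := s) hAf (E := fun n k => {g | E n k g ≠ 0})
    (fun n k => ((H n k).e.ms' (measurableSet_singleton 0).compl)) mΛ fun n1 k1 => nul_lim h5 hUa hC hA hB H s n1 k1

end lim

end Pool.Agent.ROT.F3.NW
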