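import Pool.Agent.ROT.F3NulR

/-!
# ROT, F3, row NUL (helper15): existence of the free cells for generic data

* `prD P P'` : the distance of the data in all the coordinates except `W.t0`, with `W.t0` of `P'`; `prD_le`, `prD_t0`, `prD_ex`;
* **`nul_hf`** : the hypothesis `hf` of `cell_hex` (F3NulH) for `P` from the free cells of the family (`nul_gen`), `hU` : the near classes
  occur, and the monotonicity of the levels.
-/

set_option autoImplicit false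
set_option linter.unusedSectionVars false

open MeasureTheory Set Filter Topology
open scoped ENNReal NNReal Classical

namespace Pool.Agent.ROT.F3.NW

open Pool.Agent.ROT.F3 Pool.Agent.ROT.F3.CC Pool.Agent.ROT.F3.CK Pool.Agent.ROT.F3.LF Pool.Agent.ROT.F3.Nul Pool.Agent.ROT.F3E

/-! ### 1. The distance of two data -/

/-- the distance of the data -/
noncomputable def prD (P P' : Prm) : ℝ := max P'.W.t0 (⨆ f : Gn.Fd, if f = .t0 then 0 else |f.get P' - f.get P|)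

lemma prD_le {P P' : Prm} {f : Gn.Fd} (hf : f ≠ .t0) : |f.get P' - f.get P| ≤ prD P P' := by
  have h1 := le_ciSup (f := fun f : Gn.Fd => if f = .t0 then 0 else |f.get P' - f.get P|) (Set.finite_range _).bddAbove f
  simp only [if_neg hf] at h1
  exact h1.trans (le_max_right _ _)

lemma prD_t0 {P P' : Prm} : P'.W.t0 ≤ prD P P' := le_max_left _ _

/-- the family is dense -/
lemma prD_ex {f0 : Gn.Fd} {z : ℂ} {B : Gn.Bx} {R : Prm → Prop} {P : Prm} {QQ : ℕ → Prm} (h : Gn.QF f0 z B R P QQ) (hP : B.In z P)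
    {μ : ℝ} (hμ : 0 < μ) : ∃ m, prD P (QQ m) < μ := by
  obtain ⟨m, h1, h2⟩ := h.dense P hP ⟨rfl, rfl, fun _ _ => rfl⟩ μ hμ
  refine ⟨m, max_lt h2 ?_⟩
  have : Nonempty Gn.Fd := ⟨.t0⟩
  obtain ⟨f, hf⟩ := exists_eq_ciSup_of_finite (f := fun f : Gn.Fd => if f = .t0 then 0 else |f.get (QQ m) - f.get P|)
  rw [← hf]
  show (if f = .t0 then 0 else |f.get (QQ m) - f.get P|) < μ
  split_ifs with h3
  · exact hμ
  · exact h1 f h3

/-! ### 2. The free cells -/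

section hf

variable {X : Type*} [MeasurableSpace X] {ν : Measure X} {t0 : ℝ}

lemma mm_pos {P : Prm} (hP : P.Ok) (i j : Fin 3) (s : Fin 4) : 0 < Dt.mm (dR P i j) s := by
  have h1 := hP.p.f.m
  have h2 := hP.q.f.m
  fin_cases s
  · exact h1
  · exact h1
  · exact h2
  · exact h2

lemma dR_l (P : Prm) (i j : Fin 3) (s : Fin 4) : (dR P i j).l s = fl P s := by
  fin_cases s <;> rfl

lemma fl_near (P P' : Prm) (s : Fin 4) : fl P' s ≤ fl P s + prD P P' := by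
  have h1 := (abs_le.1 (prD_le (P := P) (P' := P') (f := .p (.f .l)) (by decide))).2
  have h2 := (abs_le.1 (prD_le (P := P) (P' := P') (f := .q (.f .l)) (by decide))).2
  have e1 : (Gn.Fd.p (.f .l)).get P' - (Gn.Fd.p (.f .l)).get P = P'.p.f.l - P.p.f.l := rfl
  have e2 : (Gn.Fd.q (.f .l)).get P' - (Gn.Fd.q (.f .l)).get P = P'.q.f.l - P.q.f.l := rfl
  rw [e1] at h1
  rw [e2] at h2
  fin_cases s
  · show P'.p.f.l ≤ P.p.f.l + _
    linarith
  · show P'.p.f.l ≤ P.p.f.l + _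
    linarith
  · show P'.q.f.l ≤ P.q.f.l + _
    linarith
  · show P'.q.f.l ≤ P.q.f.l + _
    linarith

/-- **existence of the free cells** : the conclusion is the hypothesis `hf` of `cell_hex` -/
theorem nul_hf {P : Prm} {i j : Fin 3} {QQ : ℕ → Prm} (hd : ∀ μ : ℝ, 0 < μ → ∃ m, prD P (QQ m) < μ) (hok : ∀ m, (QQ m).Ok)
    {E : ℕ → (Fin 4 → ℤ) → X → ℝ} {Λ : ℕ → (Fin 4 → ℤ) → X → Fin 4 → ℝ} {Eq : ℕ → ℕ → (Fin 4 → ℤ) → X → ℝ}
    {Λq : ℕ → ℕ → (Fin 4 → ℤ) → X → Fin 4 → ℝ} {Af AF : X → Fin 4 → ℝ} {EF : X → ℝ}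
    (hF : ∀ m s, FreeC ν t0 (Dt.mm (dR (QQ m) i j)) (Eq m) (Λq m) s (fun g => Af g s) (fl P s))
    (hAF : ∀ᵐ g ∂ν, EF g ≠ 0 → ∀ s, AF g s = Af g s) (hA0 : ∀ᵐ g ∂ν, EF g ≠ 0 → ∀ s, 0 < AF g s)
    (hU : ∀ᵐ g ∂ν, EF g ≠ 0 → ∃ μ : ℝ, 0 < μ ∧ ∀ n k, (∀ s, |lft t0 n (k s) - ((dR P i j).l s + AF g s)| < μ) →
      E n k g ≠ 0 ∧ ∀ m, prD P (QQ m) < μ → Eq m n k g ≠ 0)
    (hL : ∀ m n k, ∀ᵐ g ∂ν, Eq m n k g ≠ 0 → ∀ s, lft t0 n (k s) ≤ Λq m n k g s)
    (hM : ∀ m n n' k k', ∀ᵐ g ∂ν, Eq m n k g ≠ 0 → Eq m n' k' g ≠ 0 → ∀ s, lft t0 n (k s) ≤ lft t0 n' (k' s) →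
      Λq m n k g s ≤ Λq m n' k' g s)
    (hM' : ∀ m n k, (∀ s, fl (QQ m) s ≤ lft t0 n (k s)) → (∀ s, fl P s ≤ lft t0 n (k s)) →
      ∀ᵐ g ∂ν, Eq m n k g ≠ 0 → E n k g ≠ 0 → ∀ s, Λq m n k g s = Λ n k g s) :
    ∀ᵐ g ∂ν, EF g ≠ 0 → ∀ᶠ n in atTop, ∀ k : Fin 4 → ℤ, (k = fun s => kn t0 n ((dR P i j).l s + AF g s)) →
      E n k g ≠ 0 ∧ ∀ s, lft t0 n (k s + 1) < Λ n k g s := by
  have h1 := nulq_act (P := ν) (t0 := t0) (a := fun g s => Af g s + fl P s) (E := fun m n k => {g | Eq m n k g ≠ 0})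
    (Λ := fun m n k g => Λq m n k g) (E' := fun n k => {g | E n k g ≠ 0}) (Λ' := fun n k g => Λ n k g) (F := {g | EF g ≠ 0})
    (pr := fun m => prD P (QQ m)) (mm := fun m => Dt.mm (dR (QQ m) i j)) (ll := fun m => fl (QQ m)) (l' := fl P)
    (fun m s => mm_pos (hok m) i j s) hd (fun m s => fl_near P (QQ m) s) (by
      filter_upwards [hAF, hA0] with g g1 g2 hg s
      have := g2 hg s
      rw [g1 hg s] at this
      linarith) (by
      filter_upwards [hAF, hU] with g g1 g2 hg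
      obtain ⟨μ, m0, m1⟩ := g2 hg
      refine ⟨μ, m0, fun n k hk => m1 n k fun s => ?_⟩
      rw [dR_l, g1 hg s, add_comm]
      exact hk s) (fun m n k s => (hL m n k).mono fun g g1 g2 => g1 g2 s)
    (fun m n n' k k' s hl => (hM m n n' k k').mono fun g g1 g2 g3 => g1 g2 g3 s hl)
    (fun m n k s c1 c2 => (hM' m n k c1 c2).mono fun g g1 g2 g3 => g1 g2 g3 s) (fun m s => hF m s)
  filter_upwards [h1, hAF] with g g1 g2 hg
  filter_upwards [g1 hg] with n hn k hk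
  have e : k = fun s => kn t0 n (Af g s + fl P s) := by
    rw [hk]
    funext s
    rw [dR_l, g2 hg s, add_comm]
  rw [e]
  exact hn

end hf

end Pool.Agent.ROT.F3.NW
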