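import Pool.Agent.ROT.F3PrmO22

/-!
# ROT / F3NumK22 (helper22): the numbers of the locality of the gates (K7, 66; 28, 37)

`R`, `R2` : scales of K7; `R'`, `R2'` : scales of the gates (gt1_prod, gt2_prod); `z` = radius of the ball around the root with the
start of the piece. The parameters `r`, `r2` of K7 are diameters: more than `2 * P.r`, `2 * P.r2`.
* **`k7F`** : foreign gates seen from the native mark: `z = n.r + n.r2`, `R = 180 ρ`, `R' = 200 ρ`, `R2 = 19300 ρ`,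
  `28830 ρ ≤ R2' ≤ 29687 ρ`; **`k7N`** : native gates seen from the root: `z = 0`, `R = R' = 3 / 2 ρ`, `R2 = 139 / 10 ρ`,
  `207 / 10 ρ < R2'`, up to `21 ρ`;
* `k7L` : the thresholds `lev x + f.l` of the foreign gates are in `[65 ρ, 85 ρ]`; `k7O` : distances behind the marks.
-/

set_option autoImplicit false

namespace Pool.Agent.ROT.F3

/-- numbers of the gates `P` for the locality -/
structure K7W (P : Tp) (z R R' R2 R2' : ℝ) : Prop where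
  z0 : 0 ≤ z
  R0 : 0 < R
  R0' : 0 < R'
  R20 : 0 < R2
  R20' : 0 < R2'
  RR : R ≤ R2
  RR' : R' ≤ R2'
  ball : z ≤ R / 8
  lev : R / 8 < P.l
  lev' : R' / 4 < P.l
  r : 2 * P.r + 2 * z < 2 * R'
  r3 : 2 * P.r + 2 * z < 3 * R
  r2 : 2 * P.r2 + 2 * z < 2 * R2'
  r23 : 2 * P.r2 + 2 * z < 3 * R2
  w0 : 40 * R ≤ 64 * R'
  w1 : 64 * R' < 130 * R
  w2 : 100 * R' < 128 * R'
  w3 : 100 * R' < 130 * R
  g0 : 64 * R2' < P.rg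
  g1 : P.rg < 128 * R2'
  g2 : 40 * R2 ≤ P.rg
  g3 : P.rg ≤ 130 * R2
  m : R2' / 4 < P.m
  m8 : R2 / 8 ≤ P.m

/-- **foreign gates**: `R = 180 ρ`, `R' = 200 ρ`, `R2 = 19300 ρ`, `R2'` in `[28830 ρ, 29687 ρ]` -/
theorem k7F {E : En} {ρ τ R2' : ℝ} (hρ : 0 < ρ) (h : E.Nr (bE ρ τ)) (h1 : 28830 * ρ ≤ R2') (h2 : R2' ≤ 29687 * ρ) :
    K7W E.f (E.n.r + E.n.r2) (180 * ρ) (200 * ρ) (19300 * ρ) R2' := by
  have nr1 : 1 * ρ ≤ E.n.r := h.n.r.1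
  have nr2 : E.n.r ≤ 101 / 100 * (1 * ρ) := h.n.r.2
  have nr21 : 41/2 * ρ ≤ E.n.r2 := h.n.r2.1
  have nr22 : E.n.r2 ≤ 101 / 100 * (41/2 * ρ) := h.n.r2.2
  have fl1 : 60 * ρ ≤ E.f.l := h.f.l.1
  have fr1 : 105 * ρ ≤ E.f.r := h.f.r.1
  have fr2 : E.f.r ≤ 101 / 100 * (105 * ρ) := h.f.r.2
  have fm1 : 11400 * ρ ≤ E.f.m := h.f.m.1
  have fr21 : 28500 * ρ ≤ E.f.r2 := h.f.r2.1
  have fr22 : E.f.r2 ≤ 101 / 100 * (28500 * ρ) := h.f.r2.2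
  have fg1 : 1900000 * ρ ≤ E.f.rg := h.f.rg.1
  have fg2 : E.f.rg ≤ 101 / 100 * (1900000 * ρ) := h.f.rg.2
  constructor <;> linarith

/-- the thresholds of the foreign gates at a native mark -/
theorem k7L {E : En} {ρ τ x : ℝ} (hρ : 0 < ρ) (h : E.Nr (bE ρ τ)) (h1 : E.n.l + E.n.m ≤ x) (h2 : x ≤ E.n.r + E.n.r2) :
    65 * ρ ≤ x + E.f.l ∧ x + E.f.l ≤ 85 * ρ ∧ x + 25 * ρ < x + E.f.l := by
  have nl1 : 1/2 * ρ ≤ E.n.l := h.n.l.1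
  have nm1 : 81/10 * ρ ≤ E.n.m := h.n.m.1
  have nr2 : E.n.r ≤ 101 / 100 * (1 * ρ) := h.n.r.2
  have nr22 : E.n.r2 ≤ 101 / 100 * (41/2 * ρ) := h.n.r2.2
  have fl1 : 60 * ρ ≤ E.f.l := h.f.l.1
  have fl2 : E.f.l ≤ 101 / 100 * (60 * ρ) := h.f.l.2
  exact ⟨by linarith, by linarith, by linarith⟩

/-- **native gates**: `R = R' = 3 / 2 ρ`, `R2 = 139 / 10 ρ`, `R2'` in `[20.71 ρ, 21.87 ρ]` -/
theorem k7N {P : Tp} {ρ τ R2' : ℝ} (hρ : 0 < ρ) (h : P.Nr (bN ρ τ)) (h1 : 2071 / 100 * ρ ≤ R2') (h2 : R2' ≤ 2187 / 100 * ρ) :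
    K7W P 0 (3 / 2 * ρ) (3 / 2 * ρ) (139 / 10 * ρ) R2' := by
  have nl1 : 1/2 * ρ ≤ P.l := h.l.1
  have nr1 : 1 * ρ ≤ P.r := h.r.1
  have nr2 : P.r ≤ 101 / 100 * (1 * ρ) := h.r.2
  have nm1 : 81/10 * ρ ≤ P.m := h.m.1
  have nr21 : 41/2 * ρ ≤ P.r2 := h.r2.1
  have nr22 : P.r2 ≤ 101 / 100 * (41/2 * ρ) := h.r2.2
  have ng1 : 1400 * ρ ≤ P.rg := h.rg.1
  have ng2 : P.rg ≤ 101 / 100 * (1400 * ρ) := h.rg.2
  constructor <;> linarith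

/-- distances: behind the foreign mark for the native scale `R2 = 139 / 10 ρ`; behind the outer block for the foreign scale
`R2 = 19300 ρ` -/
theorem k7O {E : En} {O : Ot} {ρ τ : ℝ} (hρ : 0 < ρ) (h : E.Nr (bE ρ τ)) (hO : O.Nr (bO ρ τ)) :
    511 * (139 / 10 * ρ) ≤ E.f.l + E.f.m - (E.n.r + E.n.r2) - E.f.κ - E.kr ∧ 511 * (19300 * ρ) ≤ O.m ∧
      1004 * (19300 * ρ) ≤ O.m ∧ 1004 * (139 / 10 * ρ) ≤ O.m := by
  have nr2 : E.n.r ≤ 101 / 100 * (1 * ρ) := h.n.r.2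
  have nr22 : E.n.r2 ≤ 101 / 100 * (41/2 * ρ) := h.n.r2.2
  have fl1 : 60 * ρ ≤ E.f.l := h.f.l.1
  have fm1 : 11400 * ρ ≤ E.f.m := h.f.m.1
  have fk2 : E.f.κ ≤ 101 / 100 * (9/100 * ρ) := h.f.κ.2
  have kr2 : E.kr ≤ 101 / 100 * (1/100 * ρ) := h.kr.2
  have om1 : 20000000 * ρ ≤ O.m := hO.m.1
  exact ⟨by linarith, by linarith, by linarith, by linarith⟩

end Pool.Agent.ROT.F3
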