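import Pool.Agent.ROT.F3GtB
import Pool.Agent.ROT.F3PrmO22

/-!
# ROT / F3NumL22 (helper22): the scales of K7 against the boxes of the gates (61, 66, 28, 37)

* `RanB Bc Bx By R R2 R3 rl sl` : the radii and the windows of the boxes are in the ranges of K7 (`Ran'`), with room on both sides;
  **`ranBF`** : foreign, `R = 225 ρ`, `R2 = R3 = 19350 ρ`, `rl = 425 / 2 ρ`, `sl = 115141 / 2 ρ`; **`ranBN`** : native, `R = 3 / 2 ρ`,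
  `R2 = R3 = 14 ρ`, `rl = 41 / 20 ρ`, `sl = 829 / 20 ρ`;
* `K7E`, **`k7E`** : foreign numbers of an end, `z = n.r + n.r2`, `rr = 81 ρ`, `sr = 28870 ρ`; `K7P`, **`k7P`** : native numbers, `z = 0`,
  `rr = 101 / 50 ρ`, `sr = 2071 / 50 ρ`.
-/

set_option autoImplicit false

namespace Pool.Agent.ROT.F3

open Pool.Agent.SCF.M (Box)

/-- the boxes of the gates are in the ranges of K7 -/
structure RanB (Bc Bx By : Box) (R R2 R3 rl sl : ℝ) : Prop where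
  c0 : 45 * R < Bc.p0
  c1 : Bc.p1 < 130 * R
  c2 : Bc.r1 < 3 * R
  c3 : rl < Bc.r0
  x0 : 45 * R2 < Bx.p0
  x1 : Bx.p1 < 130 * R2
  x2 : Bx.r1 < 3 * R2
  x3 : sl < Bx.r0
  y0 : 45 * R3 < By.p0
  y1 : By.p1 < 130 * R3
  y2 : By.r1 < 3 * R3
  y3 : sl < By.r0

/-- **foreign gates** -/
theorem ranBF {ρ : ℝ} (hρ : 0 < ρ) : RanB (bxF 0 ρ) (bxF 1 ρ) (bxF 2 ρ) (225 * ρ) (19350 * ρ) (19350 * ρ) (425 / 2 * ρ)
    (115141 / 2 * ρ) := by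
  constructor <;> simp only [bxF] <;> linarith

/-- **native gates** -/
theorem ranBN {ρ : ℝ} (hρ : 0 < ρ) : RanB (bxN 0 ρ) (bxN 1 ρ) (bxN 2 ρ) (3 / 2 * ρ) (14 * ρ) (14 * ρ) (41 / 20 * ρ)
    (829 / 20 * ρ) := by
  constructor <;> simp only [bxN] <;> linarith

/-- foreign numbers of an end: `z` = ball around the root with the native mark, `R`, `R2` = scales of K7, `rl`, `sl` = radii -/
structure K7E (E : En) (ε z R R' R2 R2' rl sl rr sr lo hi R0 : ℝ) : Prop where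
  z0 : 0 ≤ z
  R0' : 0 < R
  R20 : 0 < R2
  RR : R ≤ R2
  zR : z ≤ R / 8
  cut : ε * (2 * z) ≤ R / 64
  lo0 : z + R / 8 < lo
  lo1 : lo < E.f.l
  lo2 : lo < E.n.l + E.n.m + E.f.l
  hi1 : E.f.l + z < hi
  w : R' / 4 < lo
  m : R2' / 4 < E.f.m
  m8 : R2 / 8 < E.f.m
  h8 : R2 / 8 < E.f.th * E.f.m
  h4 : R2' / 4 < E.f.th * E.f.m
  prl : 2 * E.f.r < rl
  rlk : 2 * E.rk < rl
  rrk : E.rk ≤ rr
  rlz : rr + 2 * z < rl
  psl : 2 * E.f.r2 < sl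
  srk : E.k ≤ sr
  slz : sr + 2 * z < sl
  f1 : 1004 * R2 + z ≤ R0
  f2 : 511 * R2 + z ≤ R0
  k : E.k < R0

/-- native numbers: `z = 0` -/
structure K7P (P : Tp) (R R' R2 R2' rl sl rr sr : ℝ) : Prop where
  R0 : 0 < R
  R20 : 0 < R2
  RR : R ≤ R2
  l : R / 8 < P.l
  w : R' / 4 < P.l
  m : R2' / 4 < P.m
  m8 : R2 / 8 < P.m
  h8 : R2 / 8 < P.th * P.m
  h4 : R2' / 4 < P.th * P.m
  prr : 2 * P.r ≤ rr
  prl : rr < rl
  psr : 2 * P.r2 ≤ sr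
  psl : sr < sl

/-- **native numbers** (`R2' = 21 ρ` and `104 / 5 ρ`) -/
theorem k7P {P : Tp} {ρ τ R2' : ℝ} (hρ : 0 < ρ) (h : P.Nr (bN ρ τ)) (h1 : R2' ≤ 21 * ρ) :
    K7P P (3 / 2 * ρ) (3 / 2 * ρ) (14 * ρ) R2' (41 / 20 * ρ) (829 / 20 * ρ) (101 / 50 * ρ)
      (2071 / 50 * ρ) := by
  have nl1 : 1/2 * ρ ≤ P.l := h.l.1
  have nr2 : P.r ≤ 101 / 100 * (1 * ρ) := h.r.2
  have nm1 : 81/10 * ρ ≤ P.m := h.m.1
  have nt1 : 3/4 ≤ P.th := h.th.1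
  have nr22 : P.r2 ≤ 101 / 100 * (41/2 * ρ) := h.r2.2
  have q : 3 / 4 * (81 / 10 * ρ) ≤ P.th * P.m := mul_le_mul nt1 nm1 (by positivity) (by linarith)
  constructor <;> linarith

/-- **foreign numbers** -/
theorem k7E {E : En} {ρ τ ε R2' : ℝ} (hρ : 0 < ρ) (h : E.Nr (bE ρ τ)) (e1 : ε ≤ 1 / 100000000) (h1 : R2' ≤ 29000 * ρ) :
    K7E E ε (E.n.r + E.n.r2) (225 * ρ) (226 * ρ) (19350 * ρ) R2' (425 / 2 * ρ) (115141 / 2 * ρ)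
      (81 * ρ) (28870 * ρ) (57 * ρ) (90 * ρ) (19500000 * ρ) := by
  have hk : E.k = E.rk + E.f.r2 := rfl
  have nl1 : 1/2 * ρ ≤ E.n.l := h.n.l.1
  have nm1 : 81/10 * ρ ≤ E.n.m := h.n.m.1
  have nr1 : 1 * ρ ≤ E.n.r := h.n.r.1
  have nr2 : E.n.r ≤ 101 / 100 * (1 * ρ) := h.n.r.2
  have nr21 : 41/2 * ρ ≤ E.n.r2 := h.n.r2.1
  have nr22 : E.n.r2 ≤ 101 / 100 * (41/2 * ρ) := h.n.r2.2
  have fl1 : 60 * ρ ≤ E.f.l := h.f.l.1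
  have fl2 : E.f.l ≤ 101 / 100 * (60 * ρ) := h.f.l.2
  have fr2 : E.f.r ≤ 101 / 100 * (105 * ρ) := h.f.r.2
  have ft1 : 3/4 ≤ E.f.th := h.f.th.1
  have fm1 : 11400 * ρ ≤ E.f.m := h.f.m.1
  have fr22 : E.f.r2 ≤ 101 / 100 * (28500 * ρ) := h.f.r2.2
  have rk2 : E.rk ≤ 101 / 100 * (80 * ρ) := h.rk.2
  have q : 3 / 4 * (11400 * ρ) ≤ E.f.th * E.f.m := mul_le_mul ft1 fm1 (by positivity) (by linarith)
  have q2 : ε * (2 * (E.n.r + E.n.r2)) ≤ 1 / 100000000 * (2 * (E.n.r + E.n.r2)) := mul_le_mul_of_nonneg_right e1 (by linarith)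
  constructor <;> linarith

end Pool.Agent.ROT.F3
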