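import Pool.Agent.ROT.F3PrmO22
import Pool.Agent.ROT.F3Q12d

/-!
# ROT / F3NumQ22 (helper22): the inequalities of the pictures (76), uniformly in the windows

`0 < η ≤ ρ / 10000`, `lp = lq = 4 * 10 ^ 8 ρ`, `Θ = 10 ^ 8 ρ`, `√3 L ≥ 8 * 10 ^ 9 ρ`.
-/

set_option autoImplicit false

namespace Pool.Agent.ROT.F3

open Pool.Agent.ROT.F3.Q12

/-- **76: the inequalities of the pictures** (`W` = window of the arcs, `V` = window of the middle, `√3 L` = distance of the roots) -/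
theorem pnum22 {P : Prm} {W V : Wn} {O O' : Ot} {Yp Yq : Tp} {ρ τ η L : ℝ} (hρ : 0 < ρ) (hρ1 : ρ ≤ 1) (hη : 0 < η) (hη1 : η ≤ ρ / 10000) (hτ : 0 < τ)
    (hp : P.p.Nr (bE ρ τ)) (hq : P.q.Nr (bE ρ τ)) (hO : O.Nr (bO ρ τ)) (hO' : O'.Nr (bO ρ τ)) (hY : Yp.Nr (bY ρ τ))
    (hY' : Yq.Nr (bY ρ τ)) (hL : 0 ≤ L) (hL1 : 8000000000 * ρ ≤ Real.sqrt 3 * L) (w0 : P.p.k + P.q.k < W.D0)
    (w1 : W.D0 + 200000000 * ρ ≤ Real.sqrt 3 * L) (w2 : Real.sqrt 3 * L + 200000000 * ρ ≤ W.D1) (w3 : W.t0 ≤ loH η)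
    (w4 : η ≤ W.t1) (v0 : 50000000 * ρ ≤ V.D0) (v1 : V.D0 + 200000000 * ρ ≤ Real.sqrt 3 * L)
    (v2 : Real.sqrt 3 * L + 200000000 * ρ ≤ V.D1) (v3 : V.t0 ≤ loH η) (v4 : η ≤ V.t1) :
    PNum P W V O O' Yp Yq (400000000 * ρ) (400000000 * ρ) η L (100000000 * ρ) := by
  have pnc1 : 16/25 ≤ P.p.n.c := hp.n.c.1
  have pnc2 : P.p.n.c ≤ 101 / 100 * (16/25) := hp.n.c.2
  have pnκ1 : 1/10 * ρ ≤ P.p.n.κ := hp.n.κ.1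
  have pnκ2 : P.p.n.κ ≤ 101 / 100 * (1/10 * ρ) := hp.n.κ.2
  have pnr01 : 1415 * ρ ≤ P.p.n.r0 := hp.n.r0.1
  have pnr02 : P.p.n.r0 ≤ 101 / 100 * (1415 * ρ) := hp.n.r0.2
  have pnr21 : 41/2 * ρ ≤ P.p.n.r2 := hp.n.r2.1
  have pnr22 : P.p.n.r2 ≤ 101 / 100 * (41/2 * ρ) := hp.n.r2.2
  have pnrg1 : 1400 * ρ ≤ P.p.n.rg := hp.n.rg.1
  have pnrg2 : P.p.n.rg ≤ 101 / 100 * (1400 * ρ) := hp.n.rg.2
  have pnm1 : 81/10 * ρ ≤ P.p.n.m := hp.n.m.1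
  have pnm2 : P.p.n.m ≤ 101 / 100 * (81/10 * ρ) := hp.n.m.2
  have pk0 : P.p.k = P.p.rk + P.p.f.r2 := rfl
  have prk1 : 80 * ρ ≤ P.p.rk := hp.rk.1
  have pr21 : 28500 * ρ ≤ P.p.f.r2 := hp.f.r2.1
  have plk1 : 1 * τ ≤ P.p.lk := hp.lk.1
  have qnc1 : 16/25 ≤ P.q.n.c := hq.n.c.1
  have qnc2 : P.q.n.c ≤ 101 / 100 * (16/25) := hq.n.c.2
  have qnκ1 : 1/10 * ρ ≤ P.q.n.κ := hq.n.κ.1
  have qnκ2 : P.q.n.κ ≤ 101 / 100 * (1/10 * ρ) := hq.n.κ.2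
  have qnr01 : 1415 * ρ ≤ P.q.n.r0 := hq.n.r0.1
  have qnr02 : P.q.n.r0 ≤ 101 / 100 * (1415 * ρ) := hq.n.r0.2
  have qnr21 : 41/2 * ρ ≤ P.q.n.r2 := hq.n.r2.1
  have qnr22 : P.q.n.r2 ≤ 101 / 100 * (41/2 * ρ) := hq.n.r2.2
  have qnrg1 : 1400 * ρ ≤ P.q.n.rg := hq.n.rg.1
  have qnrg2 : P.q.n.rg ≤ 101 / 100 * (1400 * ρ) := hq.n.rg.2
  have qnm1 : 81/10 * ρ ≤ P.q.n.m := hq.n.m.1
  have qnm2 : P.q.n.m ≤ 101 / 100 * (81/10 * ρ) := hq.n.m.2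
  have qk0 : P.q.k = P.q.rk + P.q.f.r2 := rfl
  have qrk1 : 80 * ρ ≤ P.q.rk := hq.rk.1
  have qr21 : 28500 * ρ ≤ P.q.f.r2 := hq.f.r2.1
  have qlk1 : 1 * τ ≤ P.q.lk := hq.lk.1
  have om1 : 20000000 * ρ ≤ O.m := hO.m.1
  have om2 : O.m ≤ 101 / 100 * (20000000 * ρ) := hO.m.2
  have or1 : 22000000 * ρ ≤ O.r := hO.r.1
  have or2 : O.r ≤ 101 / 100 * (22000000 * ρ) := hO.r.2
  have oc1 : 3/4 ≤ O.c := hO.c.1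
  have oc2 : O.c ≤ 101 / 100 * (3/4) := hO.c.2
  have oκ1 : 2/25 * ρ ≤ O.κ := hO.κ.1
  have oκ2 : O.κ ≤ 101 / 100 * (2/25 * ρ) := hO.κ.2
  have oe1 : 2000000 * ρ ≤ O.e := hO.e.1
  have oe2 : O.e ≤ 101 / 100 * (2000000 * ρ) := hO.e.2
  have olb1 : 99/100 * τ ≤ O.lb := hO.lb.1
  have olb2 : O.lb ≤ 101 / 100 * (99/100 * τ) := hO.lb.2
  have oxm1 : 20000000 * ρ ≤ O'.m := hO'.m.1
  have oxm2 : O'.m ≤ 101 / 100 * (20000000 * ρ) := hO'.m.2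
  have oxr1 : 22000000 * ρ ≤ O'.r := hO'.r.1
  have oxr2 : O'.r ≤ 101 / 100 * (22000000 * ρ) := hO'.r.2
  have oxc1 : 3/4 ≤ O'.c := hO'.c.1
  have oxc2 : O'.c ≤ 101 / 100 * (3/4) := hO'.c.2
  have oxκ1 : 2/25 * ρ ≤ O'.κ := hO'.κ.1
  have oxκ2 : O'.κ ≤ 101 / 100 * (2/25 * ρ) := hO'.κ.2
  have oxe1 : 2000000 * ρ ≤ O'.e := hO'.e.1
  have oxe2 : O'.e ≤ 101 / 100 * (2000000 * ρ) := hO'.e.2
  have oxlb1 : 99/100 * τ ≤ O'.lb := hO'.lb.1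
  have oxlb2 : O'.lb ≤ 101 / 100 * (99/100 * τ) := hO'.lb.2
  have yc1 : 77/100 ≤ Yp.c := hY.c.1
  have yc2 : Yp.c ≤ 101 / 100 * (77/100) := hY.c.2
  have yκ1 : 1000 * ρ ≤ Yp.κ := hY.κ.1
  have yκ2 : Yp.κ ≤ 101 / 100 * (1000 * ρ) := hY.κ.2
  have yr01 : 48000000 * ρ ≤ Yp.r0 := hY.r0.1
  have yr02 : Yp.r0 ≤ 101 / 100 * (48000000 * ρ) := hY.r0.2
  have yrg1 : 46000000 * ρ ≤ Yp.rg := hY.rg.1
  have yrg2 : Yp.rg ≤ 101 / 100 * (46000000 * ρ) := hY.rg.2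
  have yxc1 : 77/100 ≤ Yq.c := hY'.c.1
  have yxc2 : Yq.c ≤ 101 / 100 * (77/100) := hY'.c.2
  have yxκ1 : 1000 * ρ ≤ Yq.κ := hY'.κ.1
  have yxκ2 : Yq.κ ≤ 101 / 100 * (1000 * ρ) := hY'.κ.2
  have yxr01 : 48000000 * ρ ≤ Yq.r0 := hY'.r0.1
  have yxr02 : Yq.r0 ≤ 101 / 100 * (48000000 * ρ) := hY'.r0.2
  have yxrg1 : 46000000 * ρ ≤ Yq.rg := hY'.rg.1
  have yxrg2 : Yq.rg ≤ 101 / 100 * (46000000 * ρ) := hY'.rg.2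
  have a1 : (P.wd W).D0 = W.D0 - (P.p.k + P.q.k) := rfl
  have a2 : (P.wd W).D1 = W.D1 + (P.p.k + P.q.k) := rfl
  have a3 : (P.wd W).t0 = W.t0 := rfl
  have a4 : (P.wd W).t1 = W.t1 + (P.p.lk + P.q.lk) := rfl
  have a5 := hiH_le hη (by linarith)
  have s1 : Real.sqrt 3 ≤ 2 := by
    rw [show (2 : ℝ) = Real.sqrt (2 ^ 2) by rw [Real.sqrt_sq (by norm_num)]]
    exact Real.sqrt_le_sqrt (by norm_num)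
  have s2 : Real.sqrt 3 * L ≤ 2 * L := mul_le_mul_of_nonneg_right s1 hL
  constructor <;> first | assumption | positivity | linarith

end Pool.Agent.ROT.F3
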