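import Pool.Agent.ROT.F3Num22
import Pool.Agent.ROT.F3N1R

/-!
# ROT / F3NumR22 (helper22): the numeric hypotheses of row N1 (48, 87, 86), uniformly in the windows

`κ = ρ / 10000`, `K ≥ 10 ^ 14`. For the native gate `E.n` and for `E.f.up y`, `0 ≤ y ≤ 30 ρ`:
* **`armKN`, `armKF`** : `ArmK`; **`armIN`, `armIF`** : `ArmI` (outer block `O`);
* **`roomN`, `roomF`** : `Room P D δ` for `D ≤ ρ / 1000`, `δ ≤ ρ / 100`; `roomFN`, `roomFF` : `RoomF`, `F ≥ 2 * 10 ^ 8 ρ`;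
  **`roomON`, `roomOF`** : `RoomO`, `g ≤ 10 ^ 8 ρ`.
-/

set_option autoImplicit false

namespace Pool.Agent.ROT.F3

open Pool.Agent.ROT.F3.N1W

/-- 48: the arms of the scale `ρ / 10000` -/
theorem armKN {E : En} {ρ τ K : ℝ} (hρ : 0 < ρ) (h : E.Nr (bE ρ τ)) (hK : 100000000000000 ≤ K) :
    ArmK E.n (ρ / 10000) K := by
  have l1 : 1/2 * ρ ≤ E.n.l := h.n.l.1
  have l2 : E.n.l ≤ 101 / 100 * (1/2 * ρ) := h.n.l.2
  have r1 : 1 * ρ ≤ E.n.r := h.n.r.1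
  have r2 : E.n.r ≤ 101 / 100 * (1 * ρ) := h.n.r.2
  have m1 : 81/10 * ρ ≤ E.n.m := h.n.m.1
  have m2 : E.n.m ≤ 101 / 100 * (81/10 * ρ) := h.n.m.2
  have th1 : 3/4 ≤ E.n.th := h.n.th.1
  have th2 : E.n.th ≤ 101 / 100 * (3/4) := h.n.th.2
  have r21 : 41/2 * ρ ≤ E.n.r2 := h.n.r2.1
  have r22 : E.n.r2 ≤ 101 / 100 * (41/2 * ρ) := h.n.r2.2
  have κ11 : 1/25 * ρ ≤ E.n.κ1 := h.n.κ1.1
  have κ12 : E.n.κ1 ≤ 101 / 100 * (1/25 * ρ) := h.n.κ1.2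
  have κ1 : 1/10 * ρ ≤ E.n.κ := h.n.κ.1
  have κ2 : E.n.κ ≤ 101 / 100 * (1/10 * ρ) := h.n.κ.2
  have cs1 : 3/5 ≤ E.n.cs := h.n.cs.1
  have cs2 : E.n.cs ≤ 101 / 100 * (3/5) := h.n.cs.2
  have e1 : 3/20 * ρ ≤ E.n.e := h.n.e.1
  have e2 : E.n.e ≤ 101 / 100 * (3/20 * ρ) := h.n.e.2
  have w1 : 2/5 * ρ ≤ E.n.w := h.n.w.1
  have w2 : E.n.w ≤ 101 / 100 * (2/5 * ρ) := h.n.w.2
  have rg1 : 1400 * ρ ≤ E.n.rg := h.n.rg.1
  have rg2 : E.n.rg ≤ 101 / 100 * (1400 * ρ) := h.n.rg.2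
  have r01 : 1415 * ρ ≤ E.n.r0 := h.n.r0.1
  have r02 : E.n.r0 ≤ 101 / 100 * (1415 * ρ) := h.n.r0.2
  have q1 : (1 - 101 / 100 * (3/4)) * (81/10 * ρ) ≤ (1 - E.n.th) * E.n.m :=
    mul_le_mul (by linarith) (by linarith) (by positivity) (by linarith)
  have q3 : (1 - 101 / 100 * (3/5)) * (1/2 * ρ) ≤ (1 - E.n.cs) * E.n.l :=
    mul_le_mul (by linarith) (by linarith) (by positivity) (by linarith)
  have hKk : 100000000000000 * (ρ / 10000) ≤ K * (ρ / 10000) := mul_le_mul_of_nonneg_right hK (by positivity)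
  constructor <;> linarith

/-- 48: the outer block -/
theorem armIN {E : En} {O : Ot} {ρ τ K S T g x : ℝ} (hρ : 0 < ρ) (hS : 0 < S) (h : E.Nr (bE ρ τ)) (hO : O.Nr (bO ρ τ))
    (hK : 100000000000000 ≤ K) (hg : g ≤ 100000000 * ρ) (la : x ≤ E.n.la * T) (lb : x ≤ E.n.lb * T)
    (ol : x ≤ O.lb * T) : ArmI E.n O S T g K (ρ / 10000 * S) x := by
  have l1 : 1/2 * ρ ≤ E.n.l := h.n.l.1
  have l2 : E.n.l ≤ 101 / 100 * (1/2 * ρ) := h.n.l.2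
  have r1 : 1 * ρ ≤ E.n.r := h.n.r.1
  have r2 : E.n.r ≤ 101 / 100 * (1 * ρ) := h.n.r.2
  have m1 : 81/10 * ρ ≤ E.n.m := h.n.m.1
  have m2 : E.n.m ≤ 101 / 100 * (81/10 * ρ) := h.n.m.2
  have th1 : 3/4 ≤ E.n.th := h.n.th.1
  have th2 : E.n.th ≤ 101 / 100 * (3/4) := h.n.th.2
  have r21 : 41/2 * ρ ≤ E.n.r2 := h.n.r2.1
  have r22 : E.n.r2 ≤ 101 / 100 * (41/2 * ρ) := h.n.r2.2
  have κ11 : 1/25 * ρ ≤ E.n.κ1 := h.n.κ1.1
  have κ12 : E.n.κ1 ≤ 101 / 100 * (1/25 * ρ) := h.n.κ1.2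
  have κ1 : 1/10 * ρ ≤ E.n.κ := h.n.κ.1
  have κ2 : E.n.κ ≤ 101 / 100 * (1/10 * ρ) := h.n.κ.2
  have cs1 : 3/5 ≤ E.n.cs := h.n.cs.1
  have cs2 : E.n.cs ≤ 101 / 100 * (3/5) := h.n.cs.2
  have e1 : 3/20 * ρ ≤ E.n.e := h.n.e.1
  have e2 : E.n.e ≤ 101 / 100 * (3/20 * ρ) := h.n.e.2
  have w1 : 2/5 * ρ ≤ E.n.w := h.n.w.1
  have w2 : E.n.w ≤ 101 / 100 * (2/5 * ρ) := h.n.w.2
  have rg1 : 1400 * ρ ≤ E.n.rg := h.n.rg.1
  have rg2 : E.n.rg ≤ 101 / 100 * (1400 * ρ) := h.n.rg.2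
  have r01 : 1415 * ρ ≤ E.n.r0 := h.n.r0.1
  have r02 : E.n.r0 ≤ 101 / 100 * (1415 * ρ) := h.n.r0.2
  have q1 : (1 - 101 / 100 * (3/4)) * (81/10 * ρ) ≤ (1 - E.n.th) * E.n.m :=
    mul_le_mul (by linarith) (by linarith) (by positivity) (by linarith)
  have q3 : (1 - 101 / 100 * (3/5)) * (1/2 * ρ) ≤ (1 - E.n.cs) * E.n.l :=
    mul_le_mul (by linarith) (by linarith) (by positivity) (by linarith)
  have om1 : 20000000 * ρ ≤ O.m := hO.m.1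
  have om2 : O.m ≤ 101 / 100 * (20000000 * ρ) := hO.m.2
  have or1 : 22000000 * ρ ≤ O.r := hO.r.1
  have or2 : O.r ≤ 101 / 100 * (22000000 * ρ) := hO.r.2
  have ohw1 : 1/500 * ρ ≤ O.hw := hO.hw.1
  have ohw2 : O.hw ≤ 101 / 100 * (1/500 * ρ) := hO.hw.2
  have oc1 : 3/4 ≤ O.c := hO.c.1
  have oc2 : O.c ≤ 101 / 100 * (3/4) := hO.c.2
  have oκ1 : 2/25 * ρ ≤ O.κ := hO.κ.1
  have oκ2 : O.κ ≤ 101 / 100 * (2/25 * ρ) := hO.κ.2
  have oe1 : 2000000 * ρ ≤ O.e := hO.e.1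
  have oe2 : O.e ≤ 101 / 100 * (2000000 * ρ) := hO.e.2
  have q5 : (1 - 101 / 100 * (3/4)) * (20000000 * ρ) ≤ (1 - O.c) * O.m :=
    mul_le_mul (by linarith) om1 (by positivity) (by linarith)
  have hKk : 100000000000000 * (ρ / 10000) ≤ K * (ρ / 10000) := mul_le_mul_of_nonneg_right hK (by positivity)
  have sc : ∀ {a b : ℝ}, a ≤ b → a * S ≤ b * S := fun hab => mul_le_mul_of_nonneg_right hab hS.le
  have sl : ∀ {a b : ℝ}, a < b → a * S < b * S := fun hab => mul_lt_mul_of_pos_right hab hS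
  exact
    { S0 := hS
      d0 := by positivity
      l := by have := sc (show 8 * (ρ / 10000) ≤ E.n.l by linarith); show _ ≤ E.n.l * S; linarith
      r := by have := sc (show E.n.l + 24 * (ρ / 10000) ≤ E.n.r by linarith); show E.n.l * S + _ ≤ E.n.r * S; linarith
      r2 := by have := sc (show E.n.m + 40 * (ρ / 10000) ≤ E.n.r2 by linarith); show E.n.m * S + _ ≤ E.n.r2 * S; linarith
      th := by have := sl (show E.n.th * E.n.m + 8 * (ρ / 10000) < E.n.m by linarith); show E.n.th * E.n.m * S + _ < E.n.m * S; linarith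
      κ1 := by have := sc (show 32 * (ρ / 10000) ≤ E.n.κ1 by linarith); show _ ≤ E.n.κ1 * S; linarith
      κ := by have := sc (show 32 * (ρ / 10000) ≤ E.n.κ by linarith); show _ ≤ E.n.κ * S; linarith
      e := by have := sc (show E.n.e + 16 * (ρ / 10000) ≤ (1 - E.n.cs) * E.n.l by linarith); show E.n.e * S + _ ≤ (1 - E.n.cs) * (E.n.l * S); linarith
      w := by have := sc (show 8 * (ρ / 10000) ≤ E.n.w by linarith); show _ ≤ E.n.w * S; linarith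
      la := la
      lb := lb
      m0 := by linarith
      Λ := by have := sc (show E.n.l + E.n.m + O.m + 16 * (ρ / 10000) ≤ 2 * (K * (ρ / 10000)) by linarith); show E.n.l * S + E.n.m * S + O.m * S + _ ≤ _; linarith
      Or := by have := sc (show O.m + 40 * (ρ / 10000) ≤ O.r by linarith); linarith
      hw := by have := sc (show 16 * (ρ / 10000) ≤ O.hw by linarith); linarith
      Oκ := by have := sc (show 32 * (ρ / 10000) ≤ O.κ by linarith); linarith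
      c0 := by linarith
      c1 := by linarith
      Oe := by have := sc (show O.e + 32 * (ρ / 10000) ≤ (1 - O.c) * O.m by linarith); linarith
      Olb := ol
      far := by have := sl (show E.n.l + E.n.m + O.m + 40 * (ρ / 10000) + g < K * (ρ / 10000) by linarith); show E.n.l * S + E.n.m * S + O.m * S + _ + _ < _; linarith }

/-- 48: the prefix half -/
theorem roomN {E : En} {ρ τ D δ : ℝ} (hρ : 0 < ρ) (h : E.Nr (bE ρ τ)) (hD0 : 0 ≤ D) (hD : D ≤ ρ / 1000) (hδ0 : 0 ≤ δ)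
    (hδ : δ ≤ ρ / 100) : Room E.n D δ := by
  have l1 : 1/2 * ρ ≤ E.n.l := h.n.l.1
  have l2 : E.n.l ≤ 101 / 100 * (1/2 * ρ) := h.n.l.2
  have r1 : 1 * ρ ≤ E.n.r := h.n.r.1
  have r2 : E.n.r ≤ 101 / 100 * (1 * ρ) := h.n.r.2
  have m1 : 81/10 * ρ ≤ E.n.m := h.n.m.1
  have m2 : E.n.m ≤ 101 / 100 * (81/10 * ρ) := h.n.m.2
  have th1 : 3/4 ≤ E.n.th := h.n.th.1
  have th2 : E.n.th ≤ 101 / 100 * (3/4) := h.n.th.2
  have r21 : 41/2 * ρ ≤ E.n.r2 := h.n.r2.1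
  have r22 : E.n.r2 ≤ 101 / 100 * (41/2 * ρ) := h.n.r2.2
  have κ11 : 1/25 * ρ ≤ E.n.κ1 := h.n.κ1.1
  have κ12 : E.n.κ1 ≤ 101 / 100 * (1/25 * ρ) := h.n.κ1.2
  have κ1 : 1/10 * ρ ≤ E.n.κ := h.n.κ.1
  have κ2 : E.n.κ ≤ 101 / 100 * (1/10 * ρ) := h.n.κ.2
  have cs1 : 3/5 ≤ E.n.cs := h.n.cs.1
  have cs2 : E.n.cs ≤ 101 / 100 * (3/5) := h.n.cs.2
  have e1 : 3/20 * ρ ≤ E.n.e := h.n.e.1
  have e2 : E.n.e ≤ 101 / 100 * (3/20 * ρ) := h.n.e.2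
  have w1 : 2/5 * ρ ≤ E.n.w := h.n.w.1
  have w2 : E.n.w ≤ 101 / 100 * (2/5 * ρ) := h.n.w.2
  have rg1 : 1400 * ρ ≤ E.n.rg := h.n.rg.1
  have rg2 : E.n.rg ≤ 101 / 100 * (1400 * ρ) := h.n.rg.2
  have r01 : 1415 * ρ ≤ E.n.r0 := h.n.r0.1
  have r02 : E.n.r0 ≤ 101 / 100 * (1415 * ρ) := h.n.r0.2
  have q1 : (1 - 101 / 100 * (3/4)) * (81/10 * ρ) ≤ (1 - E.n.th) * E.n.m :=
    mul_le_mul (by linarith) (by linarith) (by positivity) (by linarith)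
  have q3 : (1 - 101 / 100 * (3/5)) * (1/2 * ρ) ≤ (1 - E.n.cs) * E.n.l :=
    mul_le_mul (by linarith) (by linarith) (by positivity) (by linarith)
  constructor <;> linarith

/-- 48: the rest half -/
theorem roomFN {E : En} {ρ τ D δ F : ℝ} (hρ : 0 < ρ) (h : E.Nr (bE ρ τ)) (hD : D ≤ ρ / 1000) (hδ : δ ≤ ρ / 100)
    (hF : 200000000 * ρ ≤ F) : RoomF E.n D δ F := by
  have l1 : 1/2 * ρ ≤ E.n.l := h.n.l.1
  have l2 : E.n.l ≤ 101 / 100 * (1/2 * ρ) := h.n.l.2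
  have m1 : 81/10 * ρ ≤ E.n.m := h.n.m.1
  have m2 : E.n.m ≤ 101 / 100 * (81/10 * ρ) := h.n.m.2
  have rg1 : 1400 * ρ ≤ E.n.rg := h.n.rg.1
  have rg2 : E.n.rg ≤ 101 / 100 * (1400 * ρ) := h.n.rg.2
  have r01 : 1415 * ρ ≤ E.n.r0 := h.n.r0.1
  have r02 : E.n.r0 ≤ 101 / 100 * (1415 * ρ) := h.n.r0.2
  constructor <;> linarith

/-- 48: the outer block -/
theorem roomON {E : En} {O : Ot} {ρ τ D δ g F : ℝ} (hρ : 0 < ρ) (h : E.Nr (bE ρ τ)) (hO : O.Nr (bO ρ τ)) (hD : D ≤ ρ / 1000)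
    (hδ : δ ≤ ρ / 100) (hg : g ≤ 100000000 * ρ) (hF : 200000000 * ρ ≤ F) : RoomO E.n O D δ g F := by
  have l1 : 1/2 * ρ ≤ E.n.l := h.n.l.1
  have l2 : E.n.l ≤ 101 / 100 * (1/2 * ρ) := h.n.l.2
  have m1 : 81/10 * ρ ≤ E.n.m := h.n.m.1
  have m2 : E.n.m ≤ 101 / 100 * (81/10 * ρ) := h.n.m.2
  have om1 : 20000000 * ρ ≤ O.m := hO.m.1
  have om2 : O.m ≤ 101 / 100 * (20000000 * ρ) := hO.m.2
  have or1 : 22000000 * ρ ≤ O.r := hO.r.1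
  have or2 : O.r ≤ 101 / 100 * (22000000 * ρ) := hO.r.2
  have ohw1 : 1/500 * ρ ≤ O.hw := hO.hw.1
  have ohw2 : O.hw ≤ 101 / 100 * (1/500 * ρ) := hO.hw.2
  have oc1 : 3/4 ≤ O.c := hO.c.1
  have oc2 : O.c ≤ 101 / 100 * (3/4) := hO.c.2
  have oκ1 : 2/25 * ρ ≤ O.κ := hO.κ.1
  have oκ2 : O.κ ≤ 101 / 100 * (2/25 * ρ) := hO.κ.2
  have oe1 : 2000000 * ρ ≤ O.e := hO.e.1
  have oe2 : O.e ≤ 101 / 100 * (2000000 * ρ) := hO.e.2
  have q5 : (1 - 101 / 100 * (3/4)) * (20000000 * ρ) ≤ (1 - O.c) * O.m :=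
    mul_le_mul (by linarith) om1 (by positivity) (by linarith)
  constructor <;> linarith

/-- 48: the arms of the scale `ρ / 10000` -/
theorem armKF {E : En} {ρ τ K : ℝ} (hρ : 0 < ρ) (h : E.Nr (bE ρ τ)) (hK : 100000000000000 ≤ K) {y : ℝ} (hy : 0 ≤ y) (hy1 : y ≤ 30 * ρ) :
    ArmK (E.f.up y) (ρ / 10000) K := by
  have l1 : 60 * ρ ≤ E.f.l := h.f.l.1
  have l2 : E.f.l ≤ 101 / 100 * (60 * ρ) := h.f.l.2
  have r1 : 105 * ρ ≤ E.f.r := h.f.r.1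
  have r2 : E.f.r ≤ 101 / 100 * (105 * ρ) := h.f.r.2
  have m1 : 11400 * ρ ≤ E.f.m := h.f.m.1
  have m2 : E.f.m ≤ 101 / 100 * (11400 * ρ) := h.f.m.2
  have th1 : 3/4 ≤ E.f.th := h.f.th.1
  have th2 : E.f.th ≤ 101 / 100 * (3/4) := h.f.th.2
  have r21 : 28500 * ρ ≤ E.f.r2 := h.f.r2.1
  have r22 : E.f.r2 ≤ 101 / 100 * (28500 * ρ) := h.f.r2.2
  have κ11 : 1 * ρ ≤ E.f.κ1 := h.f.κ1.1
  have κ12 : E.f.κ1 ≤ 101 / 100 * (1 * ρ) := h.f.κ1.2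
  have κ1 : 9/100 * ρ ≤ E.f.κ := h.f.κ.1
  have κ2 : E.f.κ ≤ 101 / 100 * (9/100 * ρ) := h.f.κ.2
  have cs1 : 11/20 ≤ E.f.cs := h.f.cs.1
  have cs2 : E.f.cs ≤ 101 / 100 * (11/20) := h.f.cs.2
  have e1 : 6/5 * ρ ≤ E.f.e := h.f.e.1
  have e2 : E.f.e ≤ 101 / 100 * (6/5 * ρ) := h.f.e.2
  have w1 : 40 * ρ ≤ E.f.w := h.f.w.1
  have w2 : E.f.w ≤ 101 / 100 * (40 * ρ) := h.f.w.2
  have rg1 : 1900000 * ρ ≤ E.f.rg := h.f.rg.1
  have rg2 : E.f.rg ≤ 101 / 100 * (1900000 * ρ) := h.f.rg.2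
  have r01 : 1950000 * ρ ≤ E.f.r0 := h.f.r0.1
  have r02 : E.f.r0 ≤ 101 / 100 * (1950000 * ρ) := h.f.r0.2
  have q1 : (1 - 101 / 100 * (3/4)) * (11400 * ρ) ≤ (1 - E.f.th) * E.f.m :=
    mul_le_mul (by linarith) (by linarith) (by positivity) (by linarith)
  have q3 : (1 - 101 / 100 * (11/20)) * (60 * ρ) ≤ (1 - E.f.cs) * E.f.l :=
    mul_le_mul (by linarith) (by linarith) (by positivity) (by linarith)
  have q4 : 0 ≤ (1 - E.f.cs) * y := mul_nonneg (by linarith) hy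
  have e1 : (E.f.up y).l = E.f.l + y := rfl
  have e2 : (E.f.up y).r = E.f.r := rfl
  have e3 : (E.f.up y).m = E.f.m := rfl
  have e4 : (E.f.up y).th = E.f.th := rfl
  have e5 : (E.f.up y).r2 = E.f.r2 := rfl
  have e6 : (E.f.up y).κ1 = E.f.κ1 := rfl
  have e7 : (E.f.up y).cs = E.f.cs := rfl
  have e8 : (E.f.up y).e = E.f.e := rfl
  have e9 : (E.f.up y).κ = E.f.κ := rfl
  have e10 : (E.f.up y).w = E.f.w := rfl
  have e11 : (E.f.up y).rg = E.f.rg := rfl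
  have e12 : (E.f.up y).r0 = E.f.r0 := rfl
  have hKk : 100000000000000 * (ρ / 10000) ≤ K * (ρ / 10000) := mul_le_mul_of_nonneg_right hK (by positivity)
  constructor <;> first | linarith | (rw [e7, e8, e1]; linarith) | (rw [e4, e3]; linarith)

/-- 48: the outer block -/
theorem armIF {E : En} {O : Ot} {ρ τ K S T g x : ℝ} (hρ : 0 < ρ) (hS : 0 < S) (h : E.Nr (bE ρ τ)) (hO : O.Nr (bO ρ τ))
    (hK : 100000000000000 ≤ K) (hg : g ≤ 100000000 * ρ) {y : ℝ} (hy : 0 ≤ y) (hy1 : y ≤ 30 * ρ) (la : x ≤ (E.f.up y).la * T) (lb : x ≤ (E.f.up y).lb * T)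
    (ol : x ≤ O.lb * T) : ArmI (E.f.up y) O S T g K (ρ / 10000 * S) x := by
  have l1 : 60 * ρ ≤ E.f.l := h.f.l.1
  have l2 : E.f.l ≤ 101 / 100 * (60 * ρ) := h.f.l.2
  have r1 : 105 * ρ ≤ E.f.r := h.f.r.1
  have r2 : E.f.r ≤ 101 / 100 * (105 * ρ) := h.f.r.2
  have m1 : 11400 * ρ ≤ E.f.m := h.f.m.1
  have m2 : E.f.m ≤ 101 / 100 * (11400 * ρ) := h.f.m.2
  have th1 : 3/4 ≤ E.f.th := h.f.th.1
  have th2 : E.f.th ≤ 101 / 100 * (3/4) := h.f.th.2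
  have r21 : 28500 * ρ ≤ E.f.r2 := h.f.r2.1
  have r22 : E.f.r2 ≤ 101 / 100 * (28500 * ρ) := h.f.r2.2
  have κ11 : 1 * ρ ≤ E.f.κ1 := h.f.κ1.1
  have κ12 : E.f.κ1 ≤ 101 / 100 * (1 * ρ) := h.f.κ1.2
  have κ1 : 9/100 * ρ ≤ E.f.κ := h.f.κ.1
  have κ2 : E.f.κ ≤ 101 / 100 * (9/100 * ρ) := h.f.κ.2
  have cs1 : 11/20 ≤ E.f.cs := h.f.cs.1
  have cs2 : E.f.cs ≤ 101 / 100 * (11/20) := h.f.cs.2
  have e1 : 6/5 * ρ ≤ E.f.e := h.f.e.1
  have e2 : E.f.e ≤ 101 / 100 * (6/5 * ρ) := h.f.e.2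
  have w1 : 40 * ρ ≤ E.f.w := h.f.w.1
  have w2 : E.f.w ≤ 101 / 100 * (40 * ρ) := h.f.w.2
  have rg1 : 1900000 * ρ ≤ E.f.rg := h.f.rg.1
  have rg2 : E.f.rg ≤ 101 / 100 * (1900000 * ρ) := h.f.rg.2
  have r01 : 1950000 * ρ ≤ E.f.r0 := h.f.r0.1
  have r02 : E.f.r0 ≤ 101 / 100 * (1950000 * ρ) := h.f.r0.2
  have q1 : (1 - 101 / 100 * (3/4)) * (11400 * ρ) ≤ (1 - E.f.th) * E.f.m :=
    mul_le_mul (by linarith) (by linarith) (by positivity) (by linarith)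
  have q3 : (1 - 101 / 100 * (11/20)) * (60 * ρ) ≤ (1 - E.f.cs) * E.f.l :=
    mul_le_mul (by linarith) (by linarith) (by positivity) (by linarith)
  have q4 : 0 ≤ (1 - E.f.cs) * y := mul_nonneg (by linarith) hy
  have e1 : (E.f.up y).l = E.f.l + y := rfl
  have e2 : (E.f.up y).r = E.f.r := rfl
  have e3 : (E.f.up y).m = E.f.m := rfl
  have e4 : (E.f.up y).th = E.f.th := rfl
  have e5 : (E.f.up y).r2 = E.f.r2 := rfl
  have e6 : (E.f.up y).κ1 = E.f.κ1 := rfl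
  have e7 : (E.f.up y).cs = E.f.cs := rfl
  have e8 : (E.f.up y).e = E.f.e := rfl
  have e9 : (E.f.up y).κ = E.f.κ := rfl
  have e10 : (E.f.up y).w = E.f.w := rfl
  have e11 : (E.f.up y).rg = E.f.rg := rfl
  have e12 : (E.f.up y).r0 = E.f.r0 := rfl
  have om1 : 20000000 * ρ ≤ O.m := hO.m.1
  have om2 : O.m ≤ 101 / 100 * (20000000 * ρ) := hO.m.2
  have or1 : 22000000 * ρ ≤ O.r := hO.r.1
  have or2 : O.r ≤ 101 / 100 * (22000000 * ρ) := hO.r.2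
  have ohw1 : 1/500 * ρ ≤ O.hw := hO.hw.1
  have ohw2 : O.hw ≤ 101 / 100 * (1/500 * ρ) := hO.hw.2
  have oc1 : 3/4 ≤ O.c := hO.c.1
  have oc2 : O.c ≤ 101 / 100 * (3/4) := hO.c.2
  have oκ1 : 2/25 * ρ ≤ O.κ := hO.κ.1
  have oκ2 : O.κ ≤ 101 / 100 * (2/25 * ρ) := hO.κ.2
  have oe1 : 2000000 * ρ ≤ O.e := hO.e.1
  have oe2 : O.e ≤ 101 / 100 * (2000000 * ρ) := hO.e.2
  have q5 : (1 - 101 / 100 * (3/4)) * (20000000 * ρ) ≤ (1 - O.c) * O.m :=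
    mul_le_mul (by linarith) om1 (by positivity) (by linarith)
  have hKk : 100000000000000 * (ρ / 10000) ≤ K * (ρ / 10000) := mul_le_mul_of_nonneg_right hK (by positivity)
  have sc : ∀ {a b : ℝ}, a ≤ b → a * S ≤ b * S := fun hab => mul_le_mul_of_nonneg_right hab hS.le
  have sl : ∀ {a b : ℝ}, a < b → a * S < b * S := fun hab => mul_lt_mul_of_pos_right hab hS
  have c1' : (E.f.up y).l = E.f.l + y := rfl
  exact
    { S0 := hS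
      d0 := by positivity
      l := by have := sc (show 8 * (ρ / 10000) ≤ (E.f.l + y) by linarith); show _ ≤ (E.f.l + y) * S; linarith
      r := by have := sc (show (E.f.l + y) + 24 * (ρ / 10000) ≤ E.f.r by linarith); show (E.f.l + y) * S + _ ≤ E.f.r * S; linarith
      r2 := by have := sc (show E.f.m + 40 * (ρ / 10000) ≤ E.f.r2 by linarith); show E.f.m * S + _ ≤ E.f.r2 * S; linarith
      th := by have := sl (show E.f.th * E.f.m + 8 * (ρ / 10000) < E.f.m by linarith); show E.f.th * E.f.m * S + _ < E.f.m * S; linarith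
      κ1 := by have := sc (show 32 * (ρ / 10000) ≤ E.f.κ1 by linarith); show _ ≤ E.f.κ1 * S; linarith
      κ := by have := sc (show 32 * (ρ / 10000) ≤ E.f.κ by linarith); show _ ≤ E.f.κ * S; linarith
      e := by have := sc (show E.f.e + 16 * (ρ / 10000) ≤ (1 - E.f.cs) * (E.f.l + y) by linarith); show E.f.e * S + _ ≤ (1 - E.f.cs) * ((E.f.l + y) * S); linarith
      w := by have := sc (show 8 * (ρ / 10000) ≤ E.f.w by linarith); show _ ≤ E.f.w * S; linarith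
      la := la
      lb := lb
      m0 := by linarith
      Λ := by have := sc (show (E.f.l + y) + E.f.m + O.m + 16 * (ρ / 10000) ≤ 2 * (K * (ρ / 10000)) by linarith); show (E.f.l + y) * S + E.f.m * S + O.m * S + _ ≤ _; linarith
      Or := by have := sc (show O.m + 40 * (ρ / 10000) ≤ O.r by linarith); linarith
      hw := by have := sc (show 16 * (ρ / 10000) ≤ O.hw by linarith); linarith
      Oκ := by have := sc (show 32 * (ρ / 10000) ≤ O.κ by linarith); linarith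
      c0 := by linarith
      c1 := by linarith
      Oe := by have := sc (show O.e + 32 * (ρ / 10000) ≤ (1 - O.c) * O.m by linarith); linarith
      Olb := ol
      far := by have := sl (show (E.f.l + y) + E.f.m + O.m + 40 * (ρ / 10000) + g < K * (ρ / 10000) by linarith); show (E.f.l + y) * S + E.f.m * S + O.m * S + _ + _ < _; linarith }

/-- 48: the prefix half -/
theorem roomF {E : En} {ρ τ D δ : ℝ} (hρ : 0 < ρ) (h : E.Nr (bE ρ τ)) (hD0 : 0 ≤ D) (hD : D ≤ ρ / 1000) (hδ0 : 0 ≤ δ)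
    (hδ : δ ≤ ρ / 100) {y : ℝ} (hy : 0 ≤ y) (hy1 : y ≤ 30 * ρ) : Room (E.f.up y) D δ := by
  have l1 : 60 * ρ ≤ E.f.l := h.f.l.1
  have l2 : E.f.l ≤ 101 / 100 * (60 * ρ) := h.f.l.2
  have r1 : 105 * ρ ≤ E.f.r := h.f.r.1
  have r2 : E.f.r ≤ 101 / 100 * (105 * ρ) := h.f.r.2
  have m1 : 11400 * ρ ≤ E.f.m := h.f.m.1
  have m2 : E.f.m ≤ 101 / 100 * (11400 * ρ) := h.f.m.2
  have th1 : 3/4 ≤ E.f.th := h.f.th.1
  have th2 : E.f.th ≤ 101 / 100 * (3/4) := h.f.th.2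
  have r21 : 28500 * ρ ≤ E.f.r2 := h.f.r2.1
  have r22 : E.f.r2 ≤ 101 / 100 * (28500 * ρ) := h.f.r2.2
  have κ11 : 1 * ρ ≤ E.f.κ1 := h.f.κ1.1
  have κ12 : E.f.κ1 ≤ 101 / 100 * (1 * ρ) := h.f.κ1.2
  have κ1 : 9/100 * ρ ≤ E.f.κ := h.f.κ.1
  have κ2 : E.f.κ ≤ 101 / 100 * (9/100 * ρ) := h.f.κ.2
  have cs1 : 11/20 ≤ E.f.cs := h.f.cs.1
  have cs2 : E.f.cs ≤ 101 / 100 * (11/20) := h.f.cs.2
  have e1 : 6/5 * ρ ≤ E.f.e := h.f.e.1
  have e2 : E.f.e ≤ 101 / 100 * (6/5 * ρ) := h.f.e.2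
  have w1 : 40 * ρ ≤ E.f.w := h.f.w.1
  have w2 : E.f.w ≤ 101 / 100 * (40 * ρ) := h.f.w.2
  have rg1 : 1900000 * ρ ≤ E.f.rg := h.f.rg.1
  have rg2 : E.f.rg ≤ 101 / 100 * (1900000 * ρ) := h.f.rg.2
  have r01 : 1950000 * ρ ≤ E.f.r0 := h.f.r0.1
  have r02 : E.f.r0 ≤ 101 / 100 * (1950000 * ρ) := h.f.r0.2
  have q1 : (1 - 101 / 100 * (3/4)) * (11400 * ρ) ≤ (1 - E.f.th) * E.f.m :=
    mul_le_mul (by linarith) (by linarith) (by positivity) (by linarith)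
  have q3 : (1 - 101 / 100 * (11/20)) * (60 * ρ) ≤ (1 - E.f.cs) * E.f.l :=
    mul_le_mul (by linarith) (by linarith) (by positivity) (by linarith)
  have q4 : 0 ≤ (1 - E.f.cs) * y := mul_nonneg (by linarith) hy
  have e1 : (E.f.up y).l = E.f.l + y := rfl
  have e2 : (E.f.up y).r = E.f.r := rfl
  have e3 : (E.f.up y).m = E.f.m := rfl
  have e4 : (E.f.up y).th = E.f.th := rfl
  have e5 : (E.f.up y).r2 = E.f.r2 := rfl
  have e6 : (E.f.up y).κ1 = E.f.κ1 := rfl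
  have e7 : (E.f.up y).cs = E.f.cs := rfl
  have e8 : (E.f.up y).e = E.f.e := rfl
  have e9 : (E.f.up y).κ = E.f.κ := rfl
  have e10 : (E.f.up y).w = E.f.w := rfl
  have e11 : (E.f.up y).rg = E.f.rg := rfl
  have e12 : (E.f.up y).r0 = E.f.r0 := rfl
  constructor <;> first | linarith | (rw [e7, e8, e1]; linarith)

/-- 48: the rest half -/
theorem roomFF {E : En} {ρ τ D δ F : ℝ} (hρ : 0 < ρ) (h : E.Nr (bE ρ τ)) (hD : D ≤ ρ / 1000) (hδ : δ ≤ ρ / 100)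
    (hF : 200000000 * ρ ≤ F) {y : ℝ} (hy : 0 ≤ y) (hy1 : y ≤ 30 * ρ) : RoomF (E.f.up y) D δ F := by
  have l1 : 60 * ρ ≤ E.f.l := h.f.l.1
  have l2 : E.f.l ≤ 101 / 100 * (60 * ρ) := h.f.l.2
  have m1 : 11400 * ρ ≤ E.f.m := h.f.m.1
  have m2 : E.f.m ≤ 101 / 100 * (11400 * ρ) := h.f.m.2
  have rg1 : 1900000 * ρ ≤ E.f.rg := h.f.rg.1
  have rg2 : E.f.rg ≤ 101 / 100 * (1900000 * ρ) := h.f.rg.2
  have r01 : 1950000 * ρ ≤ E.f.r0 := h.f.r0.1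
  have r02 : E.f.r0 ≤ 101 / 100 * (1950000 * ρ) := h.f.r0.2
  have e1 : (E.f.up y).l = E.f.l + y := rfl
  have e2 : (E.f.up y).r = E.f.r := rfl
  have e3 : (E.f.up y).m = E.f.m := rfl
  have e4 : (E.f.up y).th = E.f.th := rfl
  have e5 : (E.f.up y).r2 = E.f.r2 := rfl
  have e6 : (E.f.up y).κ1 = E.f.κ1 := rfl
  have e7 : (E.f.up y).cs = E.f.cs := rfl
  have e8 : (E.f.up y).e = E.f.e := rfl
  have e9 : (E.f.up y).κ = E.f.κ := rfl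
  have e10 : (E.f.up y).w = E.f.w := rfl
  have e11 : (E.f.up y).rg = E.f.rg := rfl
  have e12 : (E.f.up y).r0 = E.f.r0 := rfl
  constructor <;> linarith

/-- 48: the outer block -/
theorem roomOF {E : En} {O : Ot} {ρ τ D δ g F : ℝ} (hρ : 0 < ρ) (h : E.Nr (bE ρ τ)) (hO : O.Nr (bO ρ τ)) (hD : D ≤ ρ / 1000)
    (hδ : δ ≤ ρ / 100) (hg : g ≤ 100000000 * ρ) (hF : 200000000 * ρ ≤ F) {y : ℝ} (hy : 0 ≤ y) (hy1 : y ≤ 30 * ρ) : RoomO (E.f.up y) O D δ g F := by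
  have l1 : 60 * ρ ≤ E.f.l := h.f.l.1
  have l2 : E.f.l ≤ 101 / 100 * (60 * ρ) := h.f.l.2
  have m1 : 11400 * ρ ≤ E.f.m := h.f.m.1
  have m2 : E.f.m ≤ 101 / 100 * (11400 * ρ) := h.f.m.2
  have e1 : (E.f.up y).l = E.f.l + y := rfl
  have e2 : (E.f.up y).r = E.f.r := rfl
  have e3 : (E.f.up y).m = E.f.m := rfl
  have e4 : (E.f.up y).th = E.f.th := rfl
  have e5 : (E.f.up y).r2 = E.f.r2 := rfl
  have e6 : (E.f.up y).κ1 = E.f.κ1 := rfl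
  have e7 : (E.f.up y).cs = E.f.cs := rfl
  have e8 : (E.f.up y).e = E.f.e := rfl
  have e9 : (E.f.up y).κ = E.f.κ := rfl
  have e10 : (E.f.up y).w = E.f.w := rfl
  have e11 : (E.f.up y).rg = E.f.rg := rfl
  have e12 : (E.f.up y).r0 = E.f.r0 := rfl
  have om1 : 20000000 * ρ ≤ O.m := hO.m.1
  have om2 : O.m ≤ 101 / 100 * (20000000 * ρ) := hO.m.2
  have or1 : 22000000 * ρ ≤ O.r := hO.r.1
  have or2 : O.r ≤ 101 / 100 * (22000000 * ρ) := hO.r.2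
  have ohw1 : 1/500 * ρ ≤ O.hw := hO.hw.1
  have ohw2 : O.hw ≤ 101 / 100 * (1/500 * ρ) := hO.hw.2
  have oc1 : 3/4 ≤ O.c := hO.c.1
  have oc2 : O.c ≤ 101 / 100 * (3/4) := hO.c.2
  have oκ1 : 2/25 * ρ ≤ O.κ := hO.κ.1
  have oκ2 : O.κ ≤ 101 / 100 * (2/25 * ρ) := hO.κ.2
  have oe1 : 2000000 * ρ ≤ O.e := hO.e.1
  have oe2 : O.e ≤ 101 / 100 * (2000000 * ρ) := hO.e.2
  have q5 : (1 - 101 / 100 * (3/4)) * (20000000 * ρ) ≤ (1 - O.c) * O.m :=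
    mul_le_mul (by linarith) om1 (by positivity) (by linarith)
  constructor <;> linarith

end Pool.Agent.ROT.F3
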