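import Pool.Agent.ROT.F3Prm22
import Pool.Agent.ROT.F3C0D

/-!
# ROT / F3NumU22 (helper22): the numbers of the foreign gates of an arm over all base levels (48, 86)

* **`roomU22`** : `RoomU E.f D d x0 F` for `d = 2 d1 ρ`, `D = 108 d1 ρ`, `x0 = n.l + n.m - 2 d1 ρ`, `d1 ≤ 1 / 1000000`,
  `F ≥ 3000000 ρ`; `roomU_gen` : general `D`, `d`, `x0`.
-/

set_option autoImplicit false

namespace Pool.Agent.ROT.F3

/-- general numbers -/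
theorem roomU_gen {E : En} {ρ τ D d x0 F : ℝ} (hρ : 0 < ρ) (h : E.Nr (bE ρ τ)) (D0 : 0 ≤ D) (D1 : D ≤ ρ / 1000) (d0 : 0 < d)
    (d1 : d ≤ ρ / 1000) (x0' : 0 ≤ x0) (x1 : x0 ≤ 40 * ρ) (hF : 3000000 * ρ ≤ F) : RoomU E.f D d x0 F := by
  have a1 : 60 * ρ ≤ E.f.l := h.f.l.1
  have a2 : E.f.l ≤ 101 / 100 * (60 * ρ) := h.f.l.2
  have a3 : 105 * ρ ≤ E.f.r := h.f.r.1
  have a4 : 11400 * ρ ≤ E.f.m := h.f.m.1
  have a5 : E.f.m ≤ 101 / 100 * (11400 * ρ) := h.f.m.2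
  have a6 : 28500 * ρ ≤ E.f.r2 := h.f.r2.1
  have a7 : 1 * ρ ≤ E.f.κ1 := h.f.κ1.1
  have a8 : 9/100 * ρ ≤ E.f.κ := h.f.κ.1
  have a9 : E.f.e ≤ 101 / 100 * (6/5 * ρ) := h.f.e.2
  have a10 : E.f.cs ≤ 101 / 100 * (11/20) := h.f.cs.2
  have a11 : E.f.rg ≤ 101 / 100 * (1900000 * ρ) := h.f.rg.2
  have a12 : E.f.r0 ≤ 101 / 100 * (1950000 * ρ) := h.f.r0.2
  have q : (1 - 101 / 100 * (11/20)) * (60 * ρ) ≤ (1 - E.f.cs) * E.f.l :=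
    mul_le_mul (by linarith) (by linarith) (by positivity) (by linarith)
  constructor <;> linarith

/-- **the numbers of 86**: `d = 2 d1 ρ`, `D = 108 d1 ρ`, `x0 = n.l + n.m - 2 d1 ρ` -/
theorem roomU22 {E : En} {ρ τ d1 F : ℝ} (hρ : 0 < ρ) (h : E.Nr (bE ρ τ)) (h0 : 0 < d1) (h1 : d1 ≤ 1 / 1000000)
    (hF : 3000000 * ρ ≤ F) : RoomU E.f (108 * d1 * ρ) (2 * d1 * ρ) (E.n.l + E.n.m - 2 * d1 * ρ) F := by
  have a1 : 1/2 * ρ ≤ E.n.l := h.n.l.1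
  have a2 : E.n.l ≤ 101 / 100 * (1/2 * ρ) := h.n.l.2
  have a3 : 81/10 * ρ ≤ E.n.m := h.n.m.1
  have a4 : E.n.m ≤ 101 / 100 * (81/10 * ρ) := h.n.m.2
  have b0 : 0 < d1 * ρ := by positivity
  have b1 : d1 * ρ ≤ 1 / 1000000 * ρ := mul_le_mul_of_nonneg_right h1 hρ.le
  exact roomU_gen hρ h (by positivity) (by linarith) (by positivity) (by linarith) (by linarith) (by linarith) hF

end Pool.Agent.ROT.F3
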