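import Pool.Agent.IW.Fin6
import Pool.Agent.RMP.LimAll

/-!
# ROT, F3, row C6 (helper51), part 1: the tips of the limits are trivial

* `stp d γ` : the curve stopped at the time `d`;
* **`mix1`** : for a Lipschitz `F` and ANY bounded function `Φ` of the first `m ≤ δ n` letters (`LocS m Φ`, absolute directions) the
  mean of `Φ s * F (curve s)` over the walks with `n` steps is almost the product of the means (InfiniteWalk, second clause);
* **`mix1E`** : the same for the last `m` letters (`LocE m Φ`);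
* `tip_n` : the form with `stp d`;
* `tip_lim` : the same for the weak limits, measurable `Φ`;
* `tip_set` : for `X` integrable, `∫ X` over `{stp d γ ∈ E}` is almost `ν {stp d γ ∈ E} * ∫ X`, uniformly in the measurable set `E`.
-/

set_option autoImplicit false

noncomputable section

open MeasureTheory Filter Topology Set
open scoped Classical

namespace Pool.Agent.ROT.F3

open Pool.Agent.NTS.Res

open Pool.Agent.IW.Res (mean Begins)

/-- the curve stopped at the time `d` -/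
def stp (d : unitInterval) (γ : C(unitInterval, ℂ)) : C(unitInterval, ℂ) :=
  γ.comp ⟨fun t => min t d, by fun_prop⟩

lemma stp_apply (d : unitInterval) (γ : C(unitInterval, ℂ)) (t : unitInterval) : stp d γ t = γ (min t d) := rfl

lemma cont_stp (d : unitInterval) : Continuous (stp d) := ContinuousMap.continuous_precomp _

lemma stp_stp (d e : unitInterval) (γ : C(unitInterval, ℂ)) : stp d (stp e γ) = stp (min d e) γ := by
  ext t
  rw [stp_apply, stp_apply, stp_apply, min_assoc]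

/-! ### 1. the discrete statement -/

lemma curve_ap {n : ℕ} (s : Fin n → Fin 3) (u : unitInterval) : curve s u = ∑ k ∈ Finset.range n,
    ((max 0 (min 1 ((u : ℝ) * n - k)) : ℝ) : ℂ) * ((pos s (k + 1) - pos s k) / size n) := rfl

lemma pos_sub {n : ℕ} (s : Fin n → Fin 3) (k : Fin n) : pos s ((k : ℕ) + 1) - pos s k = step k (s k) := by
  unfold pos
  have e : (Finset.univ.filter fun i : Fin n => (i : ℕ) < k + 1) =
      insert k (Finset.univ.filter fun i : Fin n => (i : ℕ) < k) := by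
    ext i
    simp only [Finset.mem_filter, Finset.mem_univ, true_and, Finset.mem_insert]
    rw [Nat.lt_succ_iff, le_iff_lt_or_eq, or_comm, Fin.ext_iff]
  rw [e, Finset.sum_insert (by simp), add_sub_cancel_right]

/-- the stopped curve depends only on the first letters -/
lemma stp_curve {n m : ℕ} {d : unitInterval} (hm : (d : ℝ) * n ≤ m) {s s' : Fin n → Fin 3}
    (h : ∀ i : Fin n, (i : ℕ) < m → s i = s' i) : stp d (curve s) = stp d (curve s') := by
  ext t
  rw [stp_apply, stp_apply, curve_ap, curve_ap]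
  refine Finset.sum_congr rfl fun k hk => ?_
  have hk' := Finset.mem_range.1 hk
  rcases lt_or_ge k m with hkm | hkm
  · have e1 := pos_sub s ⟨k, hk'⟩
    have e2 := pos_sub s' ⟨k, hk'⟩
    simp only at e1 e2
    rw [e1, e2, h ⟨k, hk'⟩ hkm]
  · have h1 : ((min t d : unitInterval) : ℝ) ≤ d := by exact_mod_cast min_le_right t d
    have h2 : ((min t d : unitInterval) : ℝ) * n - k ≤ 0 := by
      have h3 : (m : ℝ) ≤ k := by exact_mod_cast hkm
      have h4 : ((min t d : unitInterval) : ℝ) * n ≤ d * n := mul_le_mul_of_nonneg_right h1 (Nat.cast_nonneg n)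
      linarith
    have h3 : max 0 (min 1 (((min t d : unitInterval) : ℝ) * n - k)) = 0 := by
      rw [max_eq_left]
      exact (min_le_right _ _).trans h2
    rw [h3]
    simp

/-- the two curves: natural scaling and `n ^ (3 / 4)` -/
lemma curve_iw {n : ℕ} (hn : 1 ≤ n) (s : Fin n → Fin 3) :
    curve s = (((n : ℝ) ^ (3 / 4 : ℝ) / size n : ℝ)) • Pool.Agent.IW.Res.curve s := by
  ext u
  show curve s u = ((((n : ℝ) ^ (3 / 4 : ℝ) / size n : ℝ)) • Pool.Agent.IW.Res.curve s u : ℂ)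
  have e0 : Pool.Agent.IW.Res.curve s u = ∑ j : Fin n,
    ((max 0 (min 1 ((u : ℝ) * n - (j : ℕ))) : ℝ) : ℂ) * (Pool.Agent.IW.Res.step (j : ℕ) (s j) / ((n : ℝ) ^ (3 / 4 : ℝ) : ℝ)) := rfl
  rw [curve_ap, e0, Finset.smul_sum, Finset.sum_range]
  refine Finset.sum_congr rfl fun k _ => ?_
  have h0 : ((n : ℝ) ^ (3 / 4 : ℝ)) ≠ 0 := (Real.rpow_pos_of_pos (by exact_mod_cast hn) _).ne'
  rw [pos_sub s k, Complex.real_smul]
  have e1 : Pool.Agent.IW.Res.step (k : ℕ) (s k) = step (k : ℕ) (s k) := rfl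
  rw [e1, Complex.ofReal_div]
  have h1 : (((n : ℝ) ^ (3 / 4 : ℝ) : ℝ) : ℂ) ≠ 0 := by exact_mod_cast h0
  field_simp

lemma mean_int {n : ℕ} (G : C(unitInterval, ℂ) → ℝ) : mean n (fun s => G (curve s)) = ∫ γ, G γ ∂(law n) :=
  (NTSF.integral_law G).symm

/-- `Φ` depends only on the first `m` letters -/
def LocS {n : ℕ} (m : ℕ) (Φ : (Fin n → Fin 3) → ℝ) : Prop :=
  ∀ s s' : Fin n → Fin 3, (∀ i : Fin n, (i : ℕ) < m → s i = s' i) → Φ s = Φ s'

/-- `Φ` depends only on the last `m` letters -/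
def LocE {n : ℕ} (m : ℕ) (Φ : (Fin n → Fin 3) → ℝ) : Prop :=
  ∀ s s' : Fin n → Fin 3, (∀ i : Fin n, n ≤ (i : ℕ) + m → s i = s' i) → Φ s = Φ s'

lemma abs_mean_le {n : ℕ} {f : (Fin n → Fin 3) → ℝ} {C : ℝ} (hC : 0 ≤ C) (h : ∀ s ∈ saw n, |f s| ≤ C) : |mean n f| ≤ C := by
  unfold mean
  have e : (Pool.Agent.IW.Res.saw n) = saw n := rfl
  rw [e, abs_div, abs_of_nonneg (Nat.cast_nonneg _ : (0 : ℝ) ≤ (saw n).card)]
  rcases Nat.eq_zero_or_pos (saw n).card with h0 | h0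
  · rw [h0, Nat.cast_zero, div_zero]
    exact hC
  · rw [div_le_iff₀ (by exact_mod_cast h0)]
    refine (Finset.abs_sum_le_sum_abs _ _).trans ((Finset.sum_le_sum h).trans ?_)
    rw [Finset.sum_const, nsmul_eq_mul, mul_comm]

lemma mean_sub {n : ℕ} (f g : (Fin n → Fin 3) → ℝ) : mean n f - mean n g = mean n fun s => f s - g s := by
  unfold mean
  rw [← sub_div, Finset.sum_sub_distrib]

lemma mean_mono {n : ℕ} {f g : (Fin n → Fin 3) → ℝ} (h : ∀ s ∈ saw n, f s ≤ g s) : mean n f ≤ mean n g := by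
  unfold mean
  exact div_le_div_of_nonneg_right (Finset.sum_le_sum h) (Nat.cast_nonneg _)

lemma mean_one (n : ℕ) : mean n (fun _ => 1) = 1 := by
  rw [mean_int fun _ => 1]
  haveI := NTSF.law_prob n
  simp

/-- **the start in total variation, every step number** -/
theorem mix1 {ε : ℝ} (hε : 0 < ε) (K : NNReal) : ∃ δ : ℝ, 0 < δ ∧ δ ≤ 1 ∧ ∀ (n m : ℕ), 1 ≤ n → (m : ℝ) ≤ δ * n →
    ∀ F : C(unitInterval, ℂ) → ℝ, LipschitzWith K F → (∀ γ, |F γ| ≤ 1) →
      ∀ Φ : (Fin n → Fin 3) → ℝ, LocS m Φ → (∀ s, |Φ s| ≤ 1) →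
        |mean n (fun s => Φ s * F (curve s)) - mean n Φ * mean n (fun s => F (curve s))| ≤ ε := by
  obtain ⟨P, hPp, -, hTV, -⟩ := Pool.Agent.IW.fin6
  obtain ⟨cs, Cs, hcs, hsize⟩ := (NTSF.conclE_false NTSF.finE).1
  obtain ⟨K', hK'⟩ : ∃ K' : NNReal, K' = K * (1 / cs).toNNReal + 1 := ⟨_, rfl⟩
  obtain ⟨δ, hδ, h⟩ := hTV (ε / 2) K' (by positivity)
  refine ⟨min δ 1, by positivity, min_le_right _ _, fun n m hn hm F hF hF1 Φ hloc hΦ => ?_⟩
  have hmn : (m : ℝ) ≤ n := hm.trans (by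
    have h1 : min δ 1 * (n : ℝ) ≤ 1 * n := mul_le_mul_of_nonneg_right (min_le_right _ _) (Nat.cast_nonneg n)
    linarith)
  have hmn' : m ≤ n := by exact_mod_cast hmn
  have hm2 : (m : ℝ) ≤ δ * n := hm.trans (mul_le_mul_of_nonneg_right (min_le_left _ _) (Nat.cast_nonneg n))
  have hn0 : (0 : ℝ) < n := by exact_mod_cast hn
  have hpw : (0 : ℝ) < (n : ℝ) ^ (3 / 4 : ℝ) := Real.rpow_pos_of_pos hn0 _
  have hsz : 0 < size n := lt_of_lt_of_le (by positivity) (hsize n hn).1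
  obtain ⟨κ, hκ⟩ : ∃ κ : ℝ, κ = (n : ℝ) ^ (3 / 4 : ℝ) / size n := ⟨_, rfl⟩
  have hκ0 : 0 ≤ κ := by rw [hκ]; positivity
  have hκ1 : κ ≤ 1 / cs := by
    rw [hκ, div_le_div_iff₀ hsz hcs, one_mul, mul_comm]
    exact (hsize n hn).1
  -- the function of the word
  obtain ⟨ext, hext⟩ : ∃ ext : (Fin m → Fin 3) → (Fin n → Fin 3),
      ext = fun (η : Fin m → Fin 3) (i : Fin n) => if h : (i : ℕ) < m then η ⟨(i : ℕ), h⟩ else 0 := ⟨_, rfl⟩
  obtain ⟨Ψ, hΨ⟩ : ∃ Ψ : (Fin m → Fin 3) → ℝ, Ψ = fun η => Φ (ext η) := ⟨_, rfl⟩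
  have hΨ1 : ∀ η, |Ψ η| ≤ 1 := fun η => by
    rw [hΨ]
    exact hΦ _
  have hrest : ∀ s : Fin n → Fin 3, Φ s = ∑ η : Fin m → Fin 3, if Begins s η then Ψ η else 0 := by
    intro s
    have e1 : ∀ η : Fin m → Fin 3, Begins s η ↔ η = fun j : Fin m => s ⟨(j : ℕ), lt_of_lt_of_le j.2 hmn'⟩ := by
      intro η
      constructor
      · intro hb
        funext j
        rw [hb ⟨(j : ℕ), lt_of_lt_of_le j.2 hmn'⟩ j rfl]
      · rintro rfl i j hij
        show s i = s ⟨j, _⟩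
        congr 1
        exact Fin.ext hij
    simp only [e1]
    rw [Finset.sum_ite_eq' Finset.univ (fun j : Fin m => s ⟨j, lt_of_lt_of_le j.2 hmn'⟩) Ψ, if_pos (Finset.mem_univ _), hΨ]
    show Φ s = Φ (ext _)
    refine hloc _ _ fun i hi => ?_
    rw [hext]
    simp only [hi, dif_pos]
  -- main
  have key : ∀ G : C(unitInterval, ℂ) → ℝ, LipschitzWith K G → (∀ γ, |G γ| ≤ 1) →
      |mean n (fun s => Φ s * G (curve s)) -
        (∑ η : Fin m → Fin 3, Ψ η * P.real {w | ∀ i : Fin m, w i = η i}) * mean n (fun s => G (curve s))| ≤ ε / 2 := by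
    intro G hG hG1
    obtain ⟨G', hG'⟩ : ∃ G' : C(unitInterval, ℂ) → ℝ, G' = fun γ => G (κ • γ) := ⟨_, rfl⟩
    have hL : LipschitzWith K' G' := by
      refine LipschitzWith.of_dist_le_mul fun x y => ?_
      rw [hG']
      refine (hG.dist_le_mul _ _).trans ?_
      have h1 : dist (κ • x) (κ • y) = κ * dist x y := by
        have e : κ • x - κ • y = κ • (x - y) := by
          ext u
          simp [mul_sub]
        rw [dist_eq_norm, dist_eq_norm, e, norm_smul, Real.norm_of_nonneg hκ0]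
      rw [h1, hK', ← mul_assoc]
      refine mul_le_mul_of_nonneg_right ?_ dist_nonneg
      push_cast
      rw [Real.coe_toNNReal _ (by positivity)]
      have h2 : (K : ℝ) * κ ≤ K * (1 / cs) := mul_le_mul_of_nonneg_left hκ1 K.2
      linarith
    have h1 := h n m hm2 G' hL fun γ => by rw [hG']; exact hG1 _
    have e1 : ∀ s : Fin n → Fin 3, G' (Pool.Agent.IW.Res.curve s) = G (curve s) := by
      intro s
      rw [hG', curve_iw hn, ← hκ]
    have e2 : mean n (fun s => Φ s * G (curve s)) = ∑ η : Fin m → Fin 3, Ψ η * mean n (fun s => if Begins s η then G (curve s) else 0) := by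
      unfold mean
      simp only [hrest, Finset.mul_sum, mul_div_assoc', ← Finset.sum_div]
      congr 1
      rw [Finset.sum_comm]
      refine Finset.sum_congr rfl fun s _ => ?_
      rw [Finset.sum_mul]
      refine Finset.sum_congr rfl fun η _ => ?_
      split_ifs <;> ring
    rw [e2, Finset.sum_mul, ← Finset.sum_sub_distrib]
    refine (Finset.abs_sum_le_sum_abs _ _).trans (le_trans (Finset.sum_le_sum fun η _ => ?_) h1)
    simp only [e1]
    rw [mul_assoc, ← mul_sub, abs_mul]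
    exact mul_le_of_le_one_left (abs_nonneg _) (hΨ1 η)
  have k1 := key F hF hF1
  have k2 := key (fun _ => 1) ((LipschitzWith.const 1).weaken bot_le) fun _ => by rw [abs_one]
  obtain ⟨q, hq⟩ : ∃ q : ℝ, q = ∑ η : Fin m → Fin 3, Ψ η * P.real {w | ∀ i : Fin m, w i = η i} := ⟨_, rfl⟩
  rw [← hq] at k1 k2
  have k3 : |mean n (fun s => F (curve s))| ≤ 1 := abs_mean_le zero_le_one fun s _ => hF1 _
  simp only [mul_one, mean_one] at k2
  have e : mean n (fun s => Φ s * F (curve s)) - mean n Φ * mean n (fun s => F (curve s)) =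
      (mean n (fun s => Φ s * F (curve s)) - q * mean n (fun s => F (curve s))) -
        (mean n Φ - q) * mean n (fun s => F (curve s)) := by ring
  rw [e]
  refine (abs_sub _ _).trans ?_
  rw [abs_mul]
  have := mul_le_of_le_one_right (abs_nonneg (mean n Φ - q)) k3
  have k2' : |mean n Φ - q| ≤ ε / 2 := k2
  linarith

open HexObs.SIM (rv rv_rv pos_rv rv_mem) in
/-- **the end in total variation, every step number** -/
theorem mix1E {ε : ℝ} (hε : 0 < ε) (K : NNReal) : ∃ δ : ℝ, 0 < δ ∧ δ ≤ 1 ∧ ∀ (n m : ℕ), 1 ≤ n → (m : ℝ) ≤ δ * n →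
    ∀ F : C(unitInterval, ℂ) → ℝ, LipschitzWith K F → (∀ γ, |F γ| ≤ 1) →
      ∀ Φ : (Fin n → Fin 3) → ℝ, LocE m Φ → (∀ s, |Φ s| ≤ 1) →
        |mean n (fun s => Φ s * F (curve s)) - mean n Φ * mean n (fun s => F (curve s))| ≤ ε := by
  obtain ⟨δ, hδ, hδ1, h⟩ := mix1 hε (K * 2)
  refine ⟨δ, hδ, hδ1, fun n m hn hm F hF hF1 Φ hloc hΦ => ?_⟩
  have hrv : ∀ G : (Fin n → Fin 3) → ℝ, mean n (fun s => G (rv s)) = mean n G := by
    intro G
    show (∑ s ∈ saw n, G (rv s)) / ((saw n).card : ℝ) = (∑ s ∈ saw n, G s) / ((saw n).card : ℝ)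
    rw [Pool.Agent.TSW.sum_rv]
  have h1 := h n m hn hm (fun γ => F ((-1 : ℂ) ^ n • Pool.Agent.TSW.Rc γ)) (Pool.Agent.TSW.lip_comp hF n) (fun γ => hF1 _)
    (fun s => Φ (rv s)) (fun s s' hs => hloc _ _ fun i hi => ?_) fun s => hΦ _
  · have e : ∀ s : Fin n → Fin 3, F ((-1 : ℂ) ^ n • Pool.Agent.TSW.Rc (curve s)) = F (curve (rv s)) := fun s => by
      rw [Pool.Agent.TSW.curve_rv]
    simp only [e] at h1
    rw [hrv fun s => Φ s * F (curve s), hrv Φ, hrv fun s => F (curve s)] at h1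
    exact h1
  · show s (Fin.rev i) = s' (Fin.rev i)
    apply hs
    rw [Fin.val_rev]
    omega

/-- **the tip, form with the stopped curve** -/
theorem tip_n {ε : ℝ} (hε : 0 < ε) (K : NNReal) : ∃ δ : ℝ, 0 < δ ∧ δ ≤ 1 ∧ ∀ (n m : ℕ), 1 ≤ n → (m : ℝ) ≤ δ * n →
    ∀ F : C(unitInterval, ℂ) → ℝ, LipschitzWith K F → (∀ γ, |F γ| ≤ 1) → ∀ d : unitInterval, (d : ℝ) * n ≤ m →
      ∀ Φ : C(unitInterval, ℂ) → ℝ, (∀ γ, |Φ γ| ≤ 1) →
        |∫ γ, Φ (stp d γ) * F γ ∂(law n) - (∫ γ, Φ (stp d γ) ∂(law n)) * ∫ γ, F γ ∂(law n)| ≤ ε := by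
  obtain ⟨δ, hδ, hδ1, h⟩ := mix1 hε K
  refine ⟨δ, hδ, hδ1, fun n m hn hm F hF hF1 d hd Φ hΦ => ?_⟩
  rw [← mean_int fun γ => Φ (stp d γ) * F γ, ← mean_int fun γ => Φ (stp d γ), ← mean_int F]
  exact h n m hn hm F hF hF1 (fun s => Φ (stp d (curve s))) (fun s s' hs => congrArg Φ (stp_curve hd hs)) fun s => hΦ _

end Pool.Agent.ROT.F3

end
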