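import Pool.Agent.PMA.FinP
import Pool.Agent.ROT.PubW

/-!
# ROT, block F (helper5): the polygons of every odd number of steps, from the rotation invariance of their limits

* `RotP` : the limits of the laws of the polygons are invariant under the rotations;
* `sub_limP` : subsequences with a limit;
* **`pol_unif`** : the polygons, uniformly over the rotations and the Lipschitz functions.
-/

set_option autoImplicit false

open MeasureTheory Filter Topology Set
open scoped Classical ENNReal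

namespace Pool.Agent.ROT

open Pool.Agent.NTS.Res Pool.Agent.PMA Pool.Agent.PMA.Fp Pool.Agent.PMA.Res

/-- the limits of the laws of the polygons are invariant under the rotations -/
def RotP : Prop := ∀ (φ : ℕ → ℕ) (ν : ProbabilityMeasure C(unitInterval, ℂ)), Tendsto φ atTop atTop → (∀ k, Odd (φ k)) →
  PolTo φ (ν : Measure C(unitInterval, ℂ)) → ∀ z : ℂ, ‖z‖ = 1 →
    (ν : Measure C(unitInterval, ℂ)).map (fun γ => z • γ) = (ν : Measure C(unitInterval, ℂ))

/-- subsequences with a limit -/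
lemma sub_limP (φ : ℕ → ℕ) (hφ : StrictMono φ) : ∃ ψ : ℕ → ℕ, StrictMono ψ ∧ ∃ ν : ProbabilityMeasure C(unitInterval, ℂ),
    Tendsto (fun k => pl (φ (ψ k))) atTop (𝓝 ν) := by
  obtain ⟨n0, ht⟩ := tightP
  obtain ⟨n1, hv⟩ := pl_val
  have hm : IsTightMeasureSet {((μ : ProbabilityMeasure C(unitInterval, ℂ)) : Measure C(unitInterval, ℂ)) |
      μ ∈ {μ : ProbabilityMeasure C(unitInterval, ℂ) | ∃ k : ℕ, max n0 n1 ≤ k ∧ μ = pl (φ k)}} := by
    refine ht.subset ?_
    rintro _ ⟨μ, ⟨k, hk, rfl⟩, rfl⟩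
    have h1 : k ≤ φ k := hφ.id_le k
    exact ⟨od (φ k), ((le_max_left _ _).trans hk).trans (h1.trans (od_ge _)), od_odd _,
      hv _ (((le_max_right _ _).trans hk).trans h1)⟩
  have hcp := isCompact_closure_of_isTightMeasureSet hm
  obtain ⟨ν, -, ψ, hψ, hν⟩ := hcp.tendsto_subseq (x := fun k => pl (φ (k + max n0 n1)))
    (fun k => subset_closure ⟨k + max n0 n1, Nat.le_add_left _ _, rfl⟩)
  refine ⟨fun k => ψ k + max n0 n1, fun a b hab => ?_, ν, hν⟩
  exact Nat.add_lt_add_right (hψ hab) _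

/-- **the polygons, every odd number of steps, uniformly over the rotations and the Lipschitz functions** -/
theorem pol_unif (h : RotP) : ∀ ε : ℝ, 0 < ε → ∃ n₀ : ℕ, ∀ n : ℕ, n₀ ≤ n → Odd n → ∀ z : ℂ, ‖z‖ = 1 →
    ∀ F : C(unitInterval, ℂ) → ℝ, (∀ γ, |F γ| ≤ 1) → LipschitzWith 1 F →
      |pmean n (fun γ => F (z • γ)) - pmean n F| ≤ ε := by
  intro ε hε
  obtain ⟨n1, hv⟩ := pl_val
  obtain ⟨n0, hn0⟩ := rot_unif (ρ := pl) (fun φ hφ => by
    obtain ⟨ψ, hψ, ν, hν⟩ := sub_limP φ hφ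
    have ht : Tendsto (fun k => φ (ψ k)) atTop atTop := (hφ.comp hψ).tendsto_atTop
    exact ⟨ψ, hψ, ν, hν, fun z hz => h _ ν (od_top ht) (fun k => od_odd _) ((polTo_iff ht).2 hν) z hz⟩) hε
  refine ⟨max n0 n1, fun n hn ho z hz F hF hL => ?_⟩
  have h1 := hn0 n ((le_max_left _ _).trans hn) z hz F hF hL
  rwa [hv n ((le_max_right _ _).trans hn), od_of ho, plaw_int', plaw_int'] at h1

end Pool.Agent.ROT
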