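import Pool.Agent.ROT.FBd
import Pool.Agent.ROT.PubP

/-!
# ROT, block F3, row F6 (helper58): the rotation invariance of the polygons, summed over the numbers of the steps

* `wgt N n = 1 + n / N ^ (4 / 3)`;
* **`ml0_rot`, `ml_rot : RotP → Fast → QB → ...`** (without and with the average over the sign) : for every `K`, `r > 0`, `ε > 0` : for large `N`, for all `|z| = 1` and all `G n` with
  `|G n| ≤ wgt N n`, `K wgt N n`-Lipschitz, zero on the curves with diameter `< r` : the critical masses of `G` and of its rotation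
  differ by at most `ε`;
* **`w2_rot`** : the same for the sum over the rooted polygons with a second root, number of steps at most `b N ^ (4 / 3)`.
-/

set_option autoImplicit false

open MeasureTheory Filter Topology Set

open scoped Classical NNReal

namespace Pool.Agent.ROT.F

open Pool.Agent.NTS.Res Pool.Agent.PMA Pool.Agent.PMA.Res

/-- the weight: one plus the number of the steps in natural units -/
noncomputable def wgt (N n : ℕ) : ℝ := 1 + (n : ℝ) / (N : ℝ) ^ (4 / 3 : ℝ)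

lemma wgt_pos (N n : ℕ) : 1 ≤ wgt N n := by
  unfold wgt
  have : (0 : ℝ) ≤ (n : ℝ) / (N : ℝ) ^ (4 / 3 : ℝ) := by positivity
  linarith

/-! ### tails with the weight -/

lemma tail_step {n : ℕ} (hn : 1 ≤ n) : ((n : ℝ) + 1) ^ (-(3 / 2) : ℝ) ≤ 2 * ((n : ℝ) ^ (-(1 / 2) : ℝ) - ((n : ℝ) + 1) ^ (-(1 / 2) : ℝ)) := by
  have hn0 : (0 : ℝ) < n := by exact_mod_cast hn
  have h1 : (0 : ℝ) < (n : ℝ) + 1 := by linarith
  obtain ⟨a, ha⟩ : ∃ a : ℝ, a = √(n : ℝ) := ⟨_, rfl⟩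
  obtain ⟨b, hb⟩ : ∃ b : ℝ, b = √((n : ℝ) + 1) := ⟨_, rfl⟩
  have ha0 : 0 < a := by
    rw [ha]
    exact Real.sqrt_pos.2 hn0
  have hb0 : 0 < b := by
    rw [hb]
    exact Real.sqrt_pos.2 h1
  have haa : a * a = n := by
    rw [ha]
    exact Real.mul_self_sqrt hn0.le
  have hbb : b * b = n + 1 := by
    rw [hb]
    exact Real.mul_self_sqrt h1.le
  have hab : a ≤ b := by
    rw [ha, hb]
    exact Real.sqrt_le_sqrt (by linarith)
  have e1 : (n : ℝ) ^ (-(1 / 2) : ℝ) = a⁻¹ := by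
    rw [Real.rpow_neg hn0.le, ha, Real.sqrt_eq_rpow]
  have e2 : ((n : ℝ) + 1) ^ (-(1 / 2) : ℝ) = b⁻¹ := by
    rw [Real.rpow_neg h1.le, hb, Real.sqrt_eq_rpow]
  have e3 : ((n : ℝ) + 1) ^ (-(3 / 2) : ℝ) = (b * b)⁻¹ * b⁻¹ := by
    rw [hbb, ← e2, ← Real.rpow_neg_one, ← Real.rpow_add h1]
    norm_num
  rw [e1, e2, e3]
  have h2 : a⁻¹ - b⁻¹ = (a * b * (a + b))⁻¹ := by
    field_simp
    nlinarith
  rw [h2]
  have h3 : a * b * (a + b) ≤ b * b * (2 * b) := by nlinarith [mul_pos ha0 hb0, mul_nonneg (sub_nonneg.2 hab) hb0.le]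
  have h4 : (b * b * (2 * b))⁻¹ ≤ (a * b * (a + b))⁻¹ := inv_anti₀ (by positivity) h3
  calc (b * b)⁻¹ * b⁻¹ = 2 * (b * b * (2 * b))⁻¹ := by field_simp
    _ ≤ _ := by linarith

lemma tail_sum1 {k M : ℕ} (hk : 1 ≤ k) :
    ∑ n ∈ (Finset.range M).filter (fun n => k < n), (n : ℝ) ^ (-(3 / 2) : ℝ) ≤ 2 * (k : ℝ) ^ (-(1 / 2) : ℝ) := by
  have hk0 : (0 : ℝ) < k := by exact_mod_cast hk
  rcases Nat.lt_or_ge k M with hM | hM
  · have h1 : ∀ m : ℕ, k ≤ m → ∑ n ∈ (Finset.range (m + 1)).filter (fun n => k < n), (n : ℝ) ^ (-(3 / 2) : ℝ) ≤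
        2 * ((k : ℝ) ^ (-(1 / 2) : ℝ) - (m : ℝ) ^ (-(1 / 2) : ℝ)) := by
      intro m hm
      induction m, hm using Nat.le_induction with
      | base =>
        rw [sub_self, mul_zero]
        refine le_of_eq (Finset.sum_eq_zero_iff_of_nonneg (fun n _ => by positivity) |>.2 fun n hn => ?_)
        rw [Finset.mem_filter, Finset.mem_range] at hn
        omega
      | succ m hm ih =>
        rw [Finset.range_add_one, Finset.filter_insert, if_pos (by omega), Finset.sum_insert (by simp)]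
        have h2 := tail_step (n := m) (by omega)
        push_cast
        linarith
    have h2 := h1 (M - 1) (by omega)
    rw [Nat.sub_add_cancel (by omega)] at h2
    have h3 : (0 : ℝ) ≤ ((M - 1 : ℕ) : ℝ) ^ (-(1 / 2) : ℝ) := by positivity
    linarith
  · rw [Finset.sum_eq_zero]
    · positivity
    · intro n hn
      rw [Finset.mem_filter, Finset.mem_range] at hn
      omega

/-- the mass of the long polygons, with the weight -/
lemma ml_hi_w (hQ : QB) : ∃ C : ℝ, 0 < C ∧ ∀ (N : ℕ) (b : ℝ), 1 ≤ b * (N : ℝ) ^ (4 / 3 : ℝ) → 0 < b →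
    ML N (fun n _ => if b * (N : ℝ) ^ (4 / 3 : ℝ) < n then wgt N n else 0) ≤ C * (b ^ (-(3 / 2) : ℝ) + b ^ (-(1 / 2) : ℝ)) := by
  obtain ⟨C0, hC0, hhi⟩ := ml_hi hQ
  obtain ⟨c, C, n0, hc, -, hQ⟩ := hQ
  obtain ⟨C', hC'⟩ : ∃ C' : ℝ, C' = max C 1 := ⟨_, rfl⟩
  have hC'0 : 0 < C' := by
    rw [hC']
    positivity
  have hCC : C ≤ C' := by
    rw [hC']
    exact le_max_left _ _
  refine ⟨C0 + 2 * C' * 2 ^ (1 / 2 : ℝ), by positivity, fun N b hb1 hb => ?_⟩
  have hh := hhi N b hb1 hb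
  obtain ⟨x, hx⟩ : ∃ x : ℝ, x = b * (N : ℝ) ^ (4 / 3 : ℝ) := ⟨_, rfl⟩
  rw [← hx] at hb1 hh ⊢
  have hN0 : (0 : ℝ) < N := by
    rcases Nat.eq_zero_or_pos N with h | h
    · rw [hx, h, Nat.cast_zero, Real.zero_rpow (by norm_num), mul_zero] at hb1
      norm_num at hb1
    · exact_mod_cast h
  obtain ⟨k, hk⟩ : ∃ k : ℕ, k = ⌊x⌋₊ := ⟨_, rfl⟩
  have hk1 : 1 ≤ k := by
    rw [hk]
    exact (Nat.one_le_floor_iff x).2 hb1
  have hkx : x < k + 1 := by
    rw [hk]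
    exact Nat.lt_floor_add_one x
  have hk2 : x / 2 ≤ k := by
    have hk1' : (1 : ℝ) ≤ k := by exact_mod_cast hk1
    linarith
  have hkx2 : (k : ℝ) ≤ x := by
    rw [hk]
    exact Nat.floor_le (by linarith)
  have hNp : (0 : ℝ) < (N : ℝ) ^ (4 / 3 : ℝ) := by positivity
  -- the second part of the weight
  have h1 : ML N (fun n _ => if x < n then (n : ℝ) / (N : ℝ) ^ (4 / 3 : ℝ) else 0) ≤ 2 * C' * 2 ^ (1 / 2 : ℝ) * b ^ (-(1 / 2) : ℝ) := by
    have h2 : ∑ n ∈ Finset.range (N ^ 2), qn n * pmn N n (fun _ => if x < n then (n : ℝ) / (N : ℝ) ^ (4 / 3 : ℝ) else 0) ≤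
        ∑ n ∈ (Finset.range (N ^ 2)).filter (fun n => k < n), C' / (N : ℝ) ^ (4 / 3 : ℝ) * (n : ℝ) ^ (-(3 / 2) : ℝ) := by
      rw [Finset.sum_filter]
      refine Finset.sum_le_sum fun n _ => ?_
      have hcst : ∀ c : ℝ, 0 ≤ c → pmn N n (fun _ => c) ≤ c := fun c hc => by
        unfold pmn pmean
        refine div_le_of_le_mul₀ (Nat.cast_nonneg _) hc ?_
        rw [Finset.sum_const, nsmul_eq_mul]
        exact le_of_eq (by ring)
      by_cases hn : k < n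
      · rw [if_pos hn]
        have hn1 : 1 ≤ n := by omega
        have hn0 : (0 : ℝ) < n := by exact_mod_cast hn1
        have h3 := hQ n hn1
        have h4 : qn n ≤ C' * (n : ℝ) ^ (-(5 / 2) : ℝ) := h3.trans (mul_le_mul_of_nonneg_right hCC (by positivity))
        have h5 : pmn N n (fun _ => if x < n then (n : ℝ) / (N : ℝ) ^ (4 / 3 : ℝ) else 0) ≤ (n : ℝ) / (N : ℝ) ^ (4 / 3 : ℝ) := by
          split_ifs
          · exact hcst _ (by positivity)
          · exact (hcst 0 le_rfl).trans (by positivity)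
        calc _ ≤ qn n * ((n : ℝ) / (N : ℝ) ^ (4 / 3 : ℝ)) := mul_le_mul_of_nonneg_left h5 (qn_nonneg n)
          _ ≤ C' * (n : ℝ) ^ (-(5 / 2) : ℝ) * ((n : ℝ) / (N : ℝ) ^ (4 / 3 : ℝ)) := mul_le_mul_of_nonneg_right h4 (by positivity)
          _ = C' / (N : ℝ) ^ (4 / 3 : ℝ) * ((n : ℝ) ^ (-(5 / 2) : ℝ) * n) := by ring
          _ = C' / (N : ℝ) ^ (4 / 3 : ℝ) * (n : ℝ) ^ (-(3 / 2) : ℝ) := by
              rw [← Real.rpow_add_one hn0.ne']
              norm_num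
      · rw [if_neg hn]
        have hnx : ¬ x < n := by
          have : (n : ℝ) ≤ k := by exact_mod_cast not_lt.1 hn
          linarith
        rw [if_neg hnx]
        have h3 := hcst 0 le_rfl
        exact mul_nonpos_of_nonneg_of_nonpos (qn_nonneg n) h3
    rw [← Finset.mul_sum] at h2
    have h3 := h2.trans (mul_le_mul_of_nonneg_left (tail_sum1 (M := N ^ 2) hk1) (by positivity))
    have h4 : (k : ℝ) ^ (-(1 / 2) : ℝ) ≤ (x / 2) ^ (-(1 / 2) : ℝ) :=
      Real.rpow_le_rpow_of_nonpos (by linarith) hk2 (by norm_num)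
    have h5 : (x / 2) ^ (-(1 / 2) : ℝ) = b ^ (-(1 / 2) : ℝ) * 2 ^ (1 / 2 : ℝ) * (N : ℝ) ^ (-(2 / 3) : ℝ) := by
      rw [hx, Real.div_rpow (by positivity) (by norm_num), Real.mul_rpow hb.le (by positivity), ← Real.rpow_mul hN0.le,
        Real.rpow_neg (by norm_num : (0 : ℝ) ≤ 2)]
      norm_num
      ring
    have h6 : (N : ℝ) ^ 2 * ((N : ℝ) ^ (4 / 3 : ℝ))⁻¹ * (N : ℝ) ^ (-(2 / 3) : ℝ) = 1 := by
      rw [← Real.rpow_natCast, ← Real.rpow_neg hN0.le, ← Real.rpow_add hN0, ← Real.rpow_add hN0]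
      norm_num
    unfold ML
    calc (N : ℝ) ^ 2 * ∑ n ∈ Finset.range (N ^ 2), qn n * pmn N n (fun _ => if x < n then (n : ℝ) / (N : ℝ) ^ (4 / 3 : ℝ) else 0)
        ≤ (N : ℝ) ^ 2 * (C' / (N : ℝ) ^ (4 / 3 : ℝ) * (2 * (b ^ (-(1 / 2) : ℝ) * 2 ^ (1 / 2 : ℝ) * (N : ℝ) ^ (-(2 / 3) : ℝ)))) := by
          refine mul_le_mul_of_nonneg_left (h3.trans ?_) (sq_nonneg _)
          refine mul_le_mul_of_nonneg_left ?_ (by positivity)
          rw [← h5]
          linarith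
      _ = 2 * C' * 2 ^ (1 / 2 : ℝ) * b ^ (-(1 / 2) : ℝ) *
            ((N : ℝ) ^ 2 * ((N : ℝ) ^ (4 / 3 : ℝ))⁻¹ * (N : ℝ) ^ (-(2 / 3) : ℝ)) := by
          rw [div_eq_mul_inv]
          ring
      _ = _ := by rw [h6, mul_one]
  have h2 : ML N (fun n _ => if x < n then wgt N n else 0) =
      ML N (fun n _ => if x < n then 1 else 0) + ML N (fun n _ => if x < n then (n : ℝ) / (N : ℝ) ^ (4 / 3 : ℝ) else 0) := by
    rw [← ML_add]
    congr 1
    funext n γ
    unfold wgt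
    split_ifs <;> ring
  rw [h2]
  have h3 : (0 : ℝ) < b ^ (-(3 / 2) : ℝ) := by positivity
  have h4 : (0 : ℝ) < b ^ (-(1 / 2) : ℝ) := by positivity
  have h5 : 0 < 2 * C' * 2 ^ (1 / 2 : ℝ) := by positivity
  nlinarith [mul_pos hC0 h4, mul_pos h5 h3]

/-! ### one polygon -/

/-- the mean over the polygons with `n + 1` edges, lattice scale `N` -/
noncomputable def pm0 (N n : ℕ) (G : C(unitInterval, ℂ) → ℝ) : ℝ := pmean n fun γ => G (sN N n γ)

/-- the critical mass of the polygons up to translations, lattice scale `N` (no average over the sign) -/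
noncomputable def ML0 (N : ℕ) (G : ℕ → C(unitInterval, ℂ) → ℝ) : ℝ :=
  (N : ℝ) ^ 2 * ∑ n ∈ Finset.range (N ^ 2), qn n * pm0 N n (G n)

lemma pm0_mono {N n : ℕ} {G G' : C(unitInterval, ℂ) → ℝ} (h : ∀ γ, G γ ≤ G' γ) : pm0 N n G ≤ pm0 N n G' := by
  unfold pm0 pmean
  exact div_le_div_of_nonneg_right (Finset.sum_le_sum fun s _ => h _) (Nat.cast_nonneg _)

lemma pm0_add (N n : ℕ) (G G' : C(unitInterval, ℂ) → ℝ) : pm0 N n (fun γ => G γ + G' γ) = pm0 N n G + pm0 N n G' := by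
  unfold pm0 pmean
  rw [← add_div, ← Finset.sum_add_distrib]

lemma pm0_mul (N n : ℕ) (c : ℝ) (G : C(unitInterval, ℂ) → ℝ) : pm0 N n (fun γ => c * G γ) = c * pm0 N n G := by
  unfold pm0 pmean
  rw [mul_div_assoc', Finset.mul_sum]

lemma pmn_eq_pm0 (N n : ℕ) (G : C(unitInterval, ℂ) → ℝ) : pmn N n G = (pm0 N n G + pm0 N n fun γ => G (-γ)) / 2 := by
  unfold pmn pm0 pmean
  rw [← add_div, ← Finset.sum_add_distrib, Finset.sum_congr rfl fun s _ => add_div _ _ _, Finset.sum_add_distrib,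
    Finset.sum_add_distrib, ← Finset.sum_div, ← Finset.sum_div]
  ring

lemma pm0_even {N n : ℕ} {G : C(unitInterval, ℂ) → ℝ} (h : ∀ γ, G (-γ) = G γ) : pm0 N n G = pmn N n G := by
  rw [pmn_eq_pm0]
  simp only [h]
  ring

lemma ML0_even {N : ℕ} {G : ℕ → C(unitInterval, ℂ) → ℝ} (h : ∀ n γ, G n (-γ) = G n γ) : ML0 N G = ML N G := by
  unfold ML0 ML
  congr 1
  exact Finset.sum_congr rfl fun n _ => by rw [pm0_even (h n)]

lemma ML_eq_ML0 (N : ℕ) (G : ℕ → C(unitInterval, ℂ) → ℝ) : ML N G = (ML0 N G + ML0 N fun n γ => G n (-γ)) / 2 := by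
  unfold ML0 ML
  rw [← mul_add, ← Finset.sum_add_distrib, mul_div_assoc, Finset.sum_div]
  congr 1
  refine Finset.sum_congr rfl fun n _ => ?_
  rw [pmn_eq_pm0]
  ring

lemma sN_smul (N n : ℕ) (z : ℂ) (γ : C(unitInterval, ℂ)) : sN N n (z • γ) = z • sN N n γ := by
  unfold sN
  exact smul_comm _ _ _

lemma dist_sN (N n : ℕ) (γ γ' : C(unitInterval, ℂ)) : dist (sN N n γ) (sN N n γ') ≤ size n / N * dist γ γ' := by
  have hs : (0 : ℝ) ≤ size n / N := by
    unfold size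
    positivity
  refine (ContinuousMap.dist_le (mul_nonneg hs dist_nonneg)).2 fun x => ?_
  unfold sN
  rw [ContinuousMap.smul_apply, ContinuousMap.smul_apply, dist_smul₀, Real.norm_of_nonneg hs]
  exact mul_le_mul_of_nonneg_left (ContinuousMap.dist_apply_le_dist x) hs

/-- one number of steps, uniformly over the Lipschitz functions -/
lemma pm0_rot (hR : RotP) {ε : ℝ} (hε : 0 < ε) : ∃ n0 : ℕ, ∀ n : ℕ, n0 ≤ n → Odd n → ∀ z : ℂ, ‖z‖ = 1 → ∀ (N : ℕ) (B : ℝ),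
    0 < B → ∀ (L : ℝ≥0) (G : C(unitInterval, ℂ) → ℝ), (∀ γ, |G γ| ≤ B) → LipschitzWith L G → L * (size n / N) ≤ B →
      |pm0 N n (fun γ => G (z • γ)) - pm0 N n G| ≤ B * ε := by
  obtain ⟨n0, h⟩ := pol_unif hR ε hε
  refine ⟨n0 + 1, fun n hn ho z hz N B hB L G hG hL hLB => ?_⟩
  have hsz := NTSF.size_pos (n := n) (by omega)
  have hs0 : 0 ≤ size n / N := by positivity
  obtain ⟨H, hH⟩ : ∃ H : C(unitInterval, ℂ) → ℝ, H = fun γ => G (sN N n γ) / B := ⟨_, rfl⟩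
  have h1 : ∀ γ, |H γ| ≤ 1 := by
    intro γ
    rw [hH]
    simp only
    rw [abs_div, abs_of_pos hB, div_le_one hB]
    exact hG _
  have h2 : LipschitzWith 1 H := by
    refine LipschitzWith.of_dist_le_mul fun γ γ' => ?_
    have d1 := dist_sN N n γ γ'
    have e1 := (hL.dist_le_mul (sN N n γ) (sN N n γ')).trans (mul_le_mul_of_nonneg_left d1 L.coe_nonneg)
    rw [Real.dist_eq] at e1
    rw [NNReal.coe_one, one_mul, Real.dist_eq, hH]
    simp only
    rw [← sub_div, abs_div, abs_of_pos hB, div_le_iff₀ hB]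
    have e5 : (L : ℝ) * (size n / N * dist γ γ') ≤ B * dist γ γ' := by
      rw [← mul_assoc]
      exact mul_le_mul_of_nonneg_right hLB dist_nonneg
    linarith
  have h3 := h n (by omega) ho z hz H h1 h2
  have e1 : pm0 N n G = B * pmean n H := by
    unfold pm0
    rw [← PMA.LimS.pmean_mul]
    congr 1
    funext γ
    rw [hH]
    simp only
    field_simp
  have e2 : pm0 N n (fun γ => G (z • γ)) = B * pmean n (fun γ => H (z • γ)) := by
    unfold pm0
    rw [← PMA.LimS.pmean_mul]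
    congr 1
    funext γ
    rw [hH]
    simp only
    rw [sN_smul]
    field_simp
  rw [e1, e2, ← mul_sub, abs_mul, abs_of_pos hB]
  exact mul_le_mul_of_nonneg_left h3 hB.le

/-- **the rotation invariance, summed** -/
theorem ml0_rot (hR : RotP) (hF : Fast) (hQ : QB) (K : ℝ≥0) {r ε : ℝ} (hr : 0 < r) (hε : 0 < ε) : ∃ N0 : ℕ, ∀ N : ℕ, N0 ≤ N →
    ∀ z : ℂ, ‖z‖ = 1 → ∀ G : ℕ → C(unitInterval, ℂ) → ℝ, (∀ n γ, |G n γ| ≤ wgt N n) →
      (∀ n γ γ', |G n γ - G n γ'| ≤ K * wgt N n * dist γ γ') → (∀ n γ, dm γ < r → G n γ = 0) →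
        |ML0 N (fun n γ => G n (z • γ)) - ML0 N G| ≤ ε := by
  obtain ⟨C, hC, hhi⟩ := ml_hi_w hQ
  obtain ⟨c1, C1, hc1, hC1, hsz⟩ := size_bd
  -- short polygons
  obtain ⟨a0, N1, ha0, hfast⟩ := hF r (ε / 12) hr (by positivity)
  obtain ⟨a, ha⟩ : ∃ a : ℝ, a = min a0 1 := ⟨_, rfl⟩
  have ha1 : 0 < a := by
    rw [ha]
    positivity
  -- long polygons
  obtain ⟨b, hb1, hb⟩ : ∃ b : ℝ, 1 ≤ b ∧ C * (b ^ (-(3 / 2) : ℝ) + b ^ (-(1 / 2) : ℝ)) ≤ ε / 6 := by
    have h1 : Tendsto (fun b : ℝ => C * (b ^ (-(3 / 2) : ℝ) + b ^ (-(1 / 2) : ℝ))) atTop (𝓝 (C * (0 + 0))) :=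
      ((tendsto_rpow_neg_atTop (by norm_num : (0 : ℝ) < 3 / 2)).add
        (tendsto_rpow_neg_atTop (by norm_num : (0 : ℝ) < 1 / 2))).const_mul C
    rw [add_zero, mul_zero] at h1
    obtain ⟨b, h2, h3⟩ := ((eventually_ge_atTop 1).and (h1.eventually (ge_mem_nhds (show (0 : ℝ) < ε / 6 by positivity)))).exists
    exact ⟨b, h2, h3⟩
  have hb0 : 0 < b := by linarith
  -- the middle
  obtain ⟨L, hL⟩ : ∃ L : ℝ, L = max 1 (K * (C1 * b ^ (3 / 4 : ℝ))) := ⟨_, rfl⟩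
  have hL1 : 1 ≤ L := by
    rw [hL]
    exact le_max_left _ _
  have hL2 : K * (C1 * b ^ (3 / 4 : ℝ)) ≤ L := by
    rw [hL]
    exact le_max_right _ _
  obtain ⟨M, hM⟩ : ∃ M : ℝ, M = C * (a ^ (-(3 / 2) : ℝ) + a ^ (-(1 / 2) : ℝ)) := ⟨_, rfl⟩
  have hM0 : 0 < M := by
    rw [hM]
    positivity
  obtain ⟨e, he⟩ : ∃ e : ℝ, e = ε / (6 * L * M) := ⟨_, rfl⟩
  have he0 : 0 < e := by
    rw [he]
    positivity
  obtain ⟨n0, hmid⟩ := pm0_rot hR he0
  have hN43 : Tendsto (fun N : ℕ => (N : ℝ) ^ (4 / 3 : ℝ)) atTop atTop :=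
    (tendsto_rpow_atTop (by norm_num : (0 : ℝ) < 4 / 3)).comp tendsto_natCast_atTop_atTop
  obtain ⟨N2, hN2⟩ := (hN43.eventually_ge_atTop ((n0 + 1) / a)).exists_forall_of_atTop
  refine ⟨max N1 (max N2 1), fun N hN z hz G hG hGL hG0 => ?_⟩
  have hNN1 := (le_max_left _ _).trans hN
  have hNN2 := ((le_max_left _ _).trans (le_max_right _ _)).trans hN
  have hNN3 := ((le_max_right _ _).trans (le_max_right _ _)).trans hN
  have hN0 : (0 : ℝ) < N := by exact_mod_cast hNN3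
  have hX := hN2 N hNN2
  obtain ⟨X, hXe⟩ : ∃ X : ℝ, X = (N : ℝ) ^ (4 / 3 : ℝ) := ⟨_, rfl⟩
  have hX0 : 0 < X := by
    rw [hXe]
    positivity
  have haX : (n0 : ℝ) + 1 ≤ a * X := by
    rw [← hXe, div_le_iff₀ ha1] at hX
    linarith
  have hw : ∀ n : ℕ, wgt N n = 1 + n / X := fun n => by
    rw [hXe]
    rfl
  have g1 := hfast N hNN1
  have g2 := hhi N b (by
    rw [← hXe]
    have : (0 : ℝ) ≤ n0 := Nat.cast_nonneg _
    have ha' : a ≤ 1 := by
      rw [ha]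
      exact min_le_right _ _
    nlinarith) hb0
  have g3 := hhi N a (by
    rw [← hXe]
    have : (0 : ℝ) ≤ n0 := Nat.cast_nonneg _
    linarith) ha1
  rw [← hXe] at g1 g2 g3
  rw [← hM] at g3
  -- the comparison
  obtain ⟨U, hU⟩ : ∃ U : ℕ → C(unitInterval, ℂ) → ℝ, U = fun (n : ℕ) (γ : C(unitInterval, ℂ)) =>
      4 * (if (n : ℝ) ≤ a0 * X ∧ r ≤ Metric.diam (range γ) then (1 : ℝ) else 0) +
        2 * (if b * X < (n : ℝ) then wgt N n else 0) + L * e * (if a * X < (n : ℝ) then wgt N n else 0) := ⟨_, rfl⟩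
  have hUM : ML N U ≤ 4 * (ε / 12) + 2 * (ε / 6) + L * e * M := by
    rw [hU]
    rw [ML_add, ML_add, ML_mul, ML_mul, ML_mul]
    have := mul_le_mul_of_nonneg_left g3 (by positivity : 0 ≤ L * e)
    linarith
  have hfin : 4 * (ε / 12) + 2 * (ε / 6) + L * e * M ≤ ε := by
    have h1 : L * e * M = ε / 6 := by
      rw [he]
      field_simp
    rw [h1]
    linarith
  have hUe : ∀ n γ, U n (-γ) = U n γ := by
    intro n γ
    rw [hU]
    simp only
    rw [show Metric.diam (range (-γ)) = Metric.diam (range γ) from dm_neg γ]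
  rw [← ML0_even hUe] at hUM
  refine le_trans ?_ (hUM.trans hfin)
  unfold ML0
  rw [← mul_sub, ← Finset.sum_sub_distrib, abs_mul, abs_of_nonneg (sq_nonneg (N : ℝ))]
  refine mul_le_mul_of_nonneg_left ((Finset.abs_sum_le_sum_abs _ _).trans (Finset.sum_le_sum fun n _ => ?_)) (sq_nonneg _)
  rw [← mul_sub, abs_mul, abs_of_nonneg (qn_nonneg n)]
  by_cases hn : Odd n ∧ 3 ≤ n
  swap
  · unfold qn
    rw [if_neg hn, zero_mul, zero_mul]
  refine mul_le_mul_of_nonneg_left ?_ (qn_nonneg n)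
  have hU0 : ∀ n γ, 0 ≤ U n γ := by
    intro n γ
    rw [hU]
    have := wgt_pos N n
    simp only
    refine add_nonneg (add_nonneg ?_ ?_) (mul_nonneg (by positivity) ?_)
    · split_ifs <;> norm_num
    · split_ifs <;> linarith
    · split_ifs <;> linarith
  have hw1 := wgt_pos N n
  -- the crude bound
  have crude : ∀ (B : ℝ) (V : C(unitInterval, ℂ) → ℝ), (∀ γ, |G n (z • γ)| ≤ V γ) → (∀ γ, |G n γ| ≤ V γ) →
      |pm0 N n (fun γ => G n (z • γ)) - pm0 N n (G n)| ≤ pm0 N n (fun γ => 2 * V γ) := by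
    intro B V h1 h2
    have h3 : pm0 N n (fun γ => G n (z • γ)) - pm0 N n (G n) = pm0 N n (fun γ => G n (z • γ) + -1 * G n γ) := by
      rw [pm0_add, pm0_mul]
      ring
    rw [h3, abs_le, ← neg_one_mul, ← pm0_mul]
    constructor
    · refine pm0_mono fun γ => ?_
      have := abs_le.1 (h1 γ)
      have := abs_le.1 (h2 γ)
      linarith
    · refine pm0_mono fun γ => ?_
      have := abs_le.1 (h1 γ)
      have := abs_le.1 (h2 γ)
      linarith
  by_cases hcard : ((pol n).card : ℝ) = 0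
  · have h0 : ∀ F : C(unitInterval, ℂ) → ℝ, pm0 N n F = 0 := fun F => by
      unfold pm0 pmean
      rw [hcard, div_zero]
    rw [h0, h0, h0, sub_zero, abs_zero]
  by_cases hna : (n : ℝ) ≤ a * X
  · -- short
    have ha0' : a ≤ a0 := by
      rw [ha]
      exact min_le_left _ _
    have ha1' : a ≤ 1 := by
      rw [ha]
      exact min_le_right _ _
    have hw2 : wgt N n ≤ 2 := by
      rw [hw]
      have : (n : ℝ) / X ≤ 1 := by
        rw [div_le_one hX0]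
        nlinarith
      linarith
    have hna0 : (n : ℝ) ≤ a0 * X := hna.trans (mul_le_mul_of_nonneg_right ha0' hX0.le)
    have h1 : ∀ γ : C(unitInterval, ℂ), |G n γ| ≤ 2 * (if (n : ℝ) ≤ a0 * X ∧ r ≤ Metric.diam (range γ) then 1 else 0) := by
      intro γ
      by_cases h2 : r ≤ Metric.diam (range γ)
      · rw [if_pos ⟨hna0, h2⟩]
        linarith [hG n γ]
      · rw [hG0 n γ (not_le.1 h2), abs_zero]
        split_ifs <;> norm_num
    have h2 : ∀ γ : C(unitInterval, ℂ), |G n (z • γ)| ≤ 2 * (if (n : ℝ) ≤ a0 * X ∧ r ≤ Metric.diam (range γ) then 1 else 0) := by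
      intro γ
      have h3 := h1 (z • γ)
      rw [show Metric.diam (range (z • γ)) = Metric.diam (range γ) from dm_smul hz γ] at h3
      exact h3
    refine (crude 0 _ h2 h1).trans (pm0_mono fun γ => ?_)
    have h3 := hU0 n γ
    rw [hU] at h3 ⊢
    simp only at h3 ⊢
    have h4 : (0 : ℝ) ≤ 2 * (if b * X < n then wgt N n else 0) + L * e * (if a * X < n then wgt N n else 0) := by
      refine add_nonneg ?_ (mul_nonneg (by positivity) ?_)
      · split_ifs <;> linarith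
      · split_ifs <;> linarith
    linarith
  · rw [not_le] at hna
    by_cases hnb : b * X < n
    · -- long
      refine (crude 0 (fun _ => wgt N n) (fun γ => hG n _) (fun γ => hG n γ)).trans (pm0_mono fun γ => ?_)
      rw [hU]
      simp only
      rw [if_pos hnb, if_pos hna]
      have h4 : (0 : ℝ) ≤ 4 * (if (n : ℝ) ≤ a0 * X ∧ r ≤ Metric.diam (range γ) then 1 else 0) := by
        split_ifs <;> norm_num
      have h5 : 0 ≤ L * e * wgt N n := by positivity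
      linarith
    · -- middle
      rw [not_lt] at hnb
      have hn0 : n0 ≤ n := by
        have : (n0 : ℝ) < n := by linarith
        exact_mod_cast this.le
      have hn1 : (0 : ℝ) < n := by exact_mod_cast (by omega : 0 < n)
      have hBp : 0 < L * wgt N n := by positivity
      have hsn : size n / N ≤ C1 * b ^ (3 / 4 : ℝ) := by
        have h1 := (hsz n (by omega)).2
        have h2 : (n : ℝ) ^ (3 / 4 : ℝ) ≤ b ^ (3 / 4 : ℝ) * N := by
          have h3 := Real.rpow_le_rpow hn1.le hnb (show (0 : ℝ) ≤ 3 / 4 by norm_num)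
          rw [Real.mul_rpow hb0.le hX0.le, hXe, ← Real.rpow_mul hN0.le] at h3
          norm_num at h3
          norm_num
          exact h3
        rw [div_le_iff₀ hN0]
        calc size n ≤ C1 * (n : ℝ) ^ (3 / 4 : ℝ) := h1
          _ ≤ C1 * (b ^ (3 / 4 : ℝ) * N) := mul_le_mul_of_nonneg_left h2 hC1.le
          _ = _ := by ring
      have h1 := hmid n hn0 hn.1 z hz N (L * wgt N n) hBp (K * (wgt N n).toNNReal) (G n) (fun γ => (hG n γ).trans (by nlinarith))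
        (LipschitzWith.of_dist_le_mul fun γ γ' => by
          rw [Real.dist_eq, NNReal.coe_mul, Real.coe_toNNReal _ (by linarith)]
          exact hGL n γ γ') (by
          rw [NNReal.coe_mul, Real.coe_toNNReal _ (by linarith)]
          calc (K : ℝ) * wgt N n * (size n / N) = K * (size n / N) * wgt N n := by ring
            _ ≤ L * wgt N n := mul_le_mul_of_nonneg_right
                ((mul_le_mul_of_nonneg_left hsn K.coe_nonneg).trans hL2) (by linarith))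
      refine h1.trans ?_
      have h2 : L * wgt N n * e = pm0 N n (fun _ => L * e * wgt N n) := by
        unfold pm0 pmean
        rw [Finset.sum_const, nsmul_eq_mul]
        field_simp
      rw [h2]
      refine pm0_mono fun γ => ?_
      rw [hU]
      simp only
      rw [if_pos hna]
      have h4 : (0 : ℝ) ≤ 4 * (if (n : ℝ) ≤ a0 * X ∧ r ≤ Metric.diam (range γ) then 1 else 0) := by
        split_ifs <;> norm_num
      have h5 : (0 : ℝ) ≤ 2 * (if b * X < n then wgt N n else 0) := by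
        split_ifs <;> linarith
      linarith

/-- the same, with the average over the sign -/
theorem ml_rot (hR : RotP) (hF : Fast) (hQ : QB) (K : ℝ≥0) {r ε : ℝ} (hr : 0 < r) (hε : 0 < ε) : ∃ N0 : ℕ, ∀ N : ℕ, N0 ≤ N →
    ∀ z : ℂ, ‖z‖ = 1 → ∀ G : ℕ → C(unitInterval, ℂ) → ℝ, (∀ n γ, |G n γ| ≤ wgt N n) →
      (∀ n γ γ', |G n γ - G n γ'| ≤ K * wgt N n * dist γ γ') → (∀ n γ, dm γ < r → G n γ = 0) →
        |ML N (fun n γ => G n (z • γ)) - ML N G| ≤ ε := by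
  obtain ⟨N0, h⟩ := ml0_rot hR hF hQ K hr hε
  refine ⟨N0, fun N hN z hz G hG hGL hG0 => ?_⟩
  have h1 := h N hN z hz G hG hGL hG0
  have h2 := h N hN z hz (fun n γ => G n (-γ)) (fun n γ => hG n _) (fun n γ γ' => by
    rw [← dist_neg_neg γ γ']
    exact hGL n _ _) (fun n γ hγ => hG0 n _ (by rwa [dm_neg]))
  rw [ML_eq_ML0, ML_eq_ML0]
  have e : (fun (n : ℕ) (γ : C(unitInterval, ℂ)) => G n (z • -γ)) = fun n γ => G n (-(z • γ)) := by
    funext n γ
    rw [smul_neg]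
  rw [e]
  rw [abs_le] at h1 h2 ⊢
  constructor <;> linarith [h1.1, h1.2, h2.1, h2.2]

/-! ### two roots -/

/-- the critical sum over the polygons with two roots (at the times `0` and `m / n`), lattice scale `N`, in natural units -/
noncomputable def W2 (N M : ℕ) (Ψ : ℕ → ℕ → C(unitInterval, ℂ) → ℝ) : ℝ :=
  (N : ℝ) ^ (-(2 / 3) : ℝ) * ∑ n ∈ (Finset.range M).filter (fun n => Odd n ∧ 3 ≤ n), HexObs.xc ^ (n + 1) *
    ∑ s ∈ pol n, ∑ m ∈ Finset.range (n + 1), Ψ n m (sN N n (curve s))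

lemma w2_eq {N M : ℕ} (hN : 1 ≤ N) {b : ℝ} (hb0 : 0 ≤ b) {Ψ : ℕ → ℕ → C(unitInterval, ℂ) → ℝ} (hM : b * (N : ℝ) ^ (4 / 3 : ℝ) < M)
    (hN2 : b * (N : ℝ) ^ (4 / 3 : ℝ) < (N : ℝ) ^ 2) (hb : ∀ (n m : ℕ) (γ : C(unitInterval, ℂ)), b * (N : ℝ) ^ (4 / 3 : ℝ) < n → Ψ n m γ = 0) :
    W2 N M Ψ = ML0 N fun n γ => (N : ℝ) ^ (-(8 / 3) : ℝ) * ((n : ℝ) + 1) * ∑ m ∈ Finset.range (n + 1), Ψ n m γ := by
  have hN0 : (0 : ℝ) < N := by exact_mod_cast hN
  -- one term
  have h1 : ∀ n : ℕ, qn n * pm0 N n (fun γ => (N : ℝ) ^ (-(8 / 3) : ℝ) * ((n : ℝ) + 1) * ∑ m ∈ Finset.range (n + 1), Ψ n m γ) =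
      if Odd n ∧ 3 ≤ n then (N : ℝ) ^ (-(8 / 3) : ℝ) * (HexObs.xc ^ (n + 1) *
        ∑ s ∈ pol n, ∑ m ∈ Finset.range (n + 1), Ψ n m (sN N n (curve s))) else 0 := by
    intro n
    unfold qn
    by_cases hn : Odd n ∧ 3 ≤ n
    · rw [if_pos hn, if_pos hn]
      unfold pm0 pmean
      rw [← Finset.mul_sum]
      have hn0 : (n : ℝ) + 1 ≠ 0 := by positivity
      by_cases hc : ((pol n).card : ℝ) = 0
      · have h2 : pol n = ∅ := Finset.card_eq_zero.1 (by exact_mod_cast hc)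
        rw [h2]
        simp
      · field_simp
    · rw [if_neg hn, if_neg hn, zero_mul]
  -- long polygons do not contribute
  have h2 : ∀ M' : ℕ, b * (N : ℝ) ^ (4 / 3 : ℝ) < M' →
      ∑ n ∈ (Finset.range M').filter (fun n => Odd n ∧ 3 ≤ n), HexObs.xc ^ (n + 1) *
        ∑ s ∈ pol n, ∑ m ∈ Finset.range (n + 1), Ψ n m (sN N n (curve s)) =
      ∑ n ∈ (Finset.range (⌊b * (N : ℝ) ^ (4 / 3 : ℝ)⌋₊ + 1)).filter (fun n => Odd n ∧ 3 ≤ n), HexObs.xc ^ (n + 1) *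
        ∑ s ∈ pol n, ∑ m ∈ Finset.range (n + 1), Ψ n m (sN N n (curve s)) := by
    intro M' hM'
    symm
    refine Finset.sum_subset ?_ ?_
    · refine Finset.filter_subset_filter _ (Finset.range_subset_range.2 ?_)
      by_contra hcon
      have h3 : 0 ≤ b * (N : ℝ) ^ (4 / 3 : ℝ) := by positivity
      have h4 : M' ≤ ⌊b * (N : ℝ) ^ (4 / 3 : ℝ)⌋₊ := by omega
      have h5 := (Nat.le_floor_iff h3).1 h4
      linarith
    · intro n hn hn'
      rw [Finset.mem_filter, Finset.mem_range] at hn hn'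
      have h3 : ⌊b * (N : ℝ) ^ (4 / 3 : ℝ)⌋₊ + 1 ≤ n := by
        by_contra hcon
        exact hn' ⟨by omega, hn.2⟩
      have h4 := Nat.lt_of_floor_lt (show ⌊b * (N : ℝ) ^ (4 / 3 : ℝ)⌋₊ < n by omega)
      rw [Finset.sum_eq_zero, mul_zero]
      intro s _
      exact Finset.sum_eq_zero fun m _ => hb n m _ h4
  unfold W2 ML0
  rw [h2 M hM, ← h2 (N ^ 2) (by push_cast; exact hN2)]
  rw [Finset.sum_congr rfl fun n _ => h1 n, ← Finset.sum_filter, ← Finset.mul_sum, ← mul_assoc]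
  congr 1
  rw [← Real.rpow_natCast, ← Real.rpow_add hN0]
  norm_num

/-- **two roots**: the rotation invariance of the critical sum over the polygons with two roots -/
theorem w2_rot (hR : RotP) (hF : Fast) (hQ : QB) (K : ℝ≥0) {r b ε : ℝ} (hr : 0 < r) (hb : 0 ≤ b) (hε : 0 < ε) : ∃ N0 : ℕ,
    ∀ N : ℕ, N0 ≤ N → ∀ z : ℂ, ‖z‖ = 1 → ∀ M : ℕ, b * (N : ℝ) ^ (4 / 3 : ℝ) < M →
      ∀ Ψ : ℕ → ℕ → C(unitInterval, ℂ) → ℝ, (∀ n m γ, |Ψ n m γ| ≤ 1) →
        (∀ n m γ γ', |Ψ n m γ - Ψ n m γ'| ≤ K * dist γ γ') → (∀ n m γ, dm γ < r → Ψ n m γ = 0) →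
          (∀ (n m : ℕ) (γ : C(unitInterval, ℂ)), b * (N : ℝ) ^ (4 / 3 : ℝ) < n → Ψ n m γ = 0) →
            |W2 N M (fun n m γ => Ψ n m (z • γ)) - W2 N M Ψ| ≤ ε := by
  obtain ⟨B, hB⟩ : ∃ B : ℝ, B = (b + 1) ^ 2 := ⟨_, rfl⟩
  have hB0 : 0 < B := by
    rw [hB]
    positivity
  obtain ⟨N1, h⟩ := ml0_rot hR hF hQ K hr (show 0 < ε / B by positivity)
  have h23 : Tendsto (fun N : ℕ => (N : ℝ) ^ (2 / 3 : ℝ)) atTop atTop :=
    (tendsto_rpow_atTop (by norm_num : (0 : ℝ) < 2 / 3)).comp tendsto_natCast_atTop_atTop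
  obtain ⟨N2, hN2⟩ := (h23.eventually_gt_atTop b).exists_forall_of_atTop
  refine ⟨max N1 (max N2 1), fun N hN z hz M hM Ψ h1 h2 h3 h4 => ?_⟩
  have hNN1 := (le_max_left _ _).trans hN
  have hNN2 := ((le_max_left _ _).trans (le_max_right _ _)).trans hN
  have hNN3 := ((le_max_right _ _).trans (le_max_right _ _)).trans hN
  have hN0 : (0 : ℝ) < N := by exact_mod_cast hNN3
  have hN1' : (1 : ℝ) ≤ N := by exact_mod_cast hNN3
  obtain ⟨X, hX⟩ : ∃ X : ℝ, X = (N : ℝ) ^ (4 / 3 : ℝ) := ⟨_, rfl⟩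
  have hX1 : 1 ≤ X := by
    rw [hX]
    exact Real.one_le_rpow hN1' (by norm_num)
  have hX0 : 0 < X := by linarith
  have hsq : b * (N : ℝ) ^ (4 / 3 : ℝ) < (N : ℝ) ^ 2 := by
    have e : (N : ℝ) ^ 2 = (N : ℝ) ^ (2 / 3 : ℝ) * (N : ℝ) ^ (4 / 3 : ℝ) := by
      rw [← Real.rpow_natCast, ← Real.rpow_add hN0]
      norm_num
    rw [e]
    exact mul_lt_mul_of_pos_right (hN2 N hNN2) (by positivity)
  have e8 : (N : ℝ) ^ (-(8 / 3) : ℝ) = (X * X)⁻¹ := by
    rw [hX, ← Real.rpow_add hN0, ← Real.rpow_neg hN0.le]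
    norm_num
  rw [w2_eq hNN3 hb hM hsq fun n m γ hn => h4 n m _ hn, w2_eq hNN3 hb hM hsq h4]
  rw [← hX] at h4
  -- the bound of the weight
  have hwt : ∀ n : ℕ, (n : ℝ) ≤ b * X → (N : ℝ) ^ (-(8 / 3) : ℝ) * ((n : ℝ) + 1) * ((n : ℝ) + 1) ≤ B := by
    intro n hn
    rw [e8, mul_assoc, inv_mul_le_iff₀ (by positivity), hB]
    have h5 : (n : ℝ) + 1 ≤ (b + 1) * X := by nlinarith
    have h6 : (0 : ℝ) ≤ (n : ℝ) + 1 := by positivity
    calc ((n : ℝ) + 1) * ((n : ℝ) + 1) ≤ ((b + 1) * X) * ((b + 1) * X) := mul_le_mul h5 h5 h6 (h6.trans h5)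
      _ = _ := by ring
  obtain ⟨G, hG⟩ : ∃ G : ℕ → C(unitInterval, ℂ) → ℝ, G = fun (n : ℕ) (γ : C(unitInterval, ℂ)) =>
      B⁻¹ * ((N : ℝ) ^ (-(8 / 3) : ℝ) * ((n : ℝ) + 1) * ∑ m ∈ Finset.range (n + 1), Ψ n m γ) := ⟨_, rfl⟩
  have h8 : (0 : ℝ) ≤ (N : ℝ) ^ (-(8 / 3) : ℝ) := by positivity
  have k1 : ∀ n γ, |G n γ| ≤ wgt N n := by
    intro n γ
    refine le_trans ?_ (wgt_pos N n)
    rw [hG]
    simp only
    rw [abs_mul, abs_of_pos (inv_pos.2 hB0), inv_mul_le_iff₀ hB0, mul_one]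
    rcases le_or_gt (n : ℝ) (b * X) with h5 | h5
    · rw [abs_mul, abs_of_nonneg (by positivity)]
      refine le_trans (mul_le_mul_of_nonneg_left ((Finset.abs_sum_le_sum_abs _ _).trans
        (Finset.sum_le_sum (g := fun _ => (1 : ℝ)) fun m _ => h1 n m γ)) (by positivity)) ?_
      rw [Finset.sum_const, Finset.card_range, nsmul_eq_mul, mul_one]
      push_cast
      exact hwt n h5
    · rw [Finset.sum_eq_zero fun m _ => h4 n m γ h5, mul_zero, abs_zero]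
      exact hB0.le
  have k2 : ∀ n γ γ', |G n γ - G n γ'| ≤ K * wgt N n * dist γ γ' := by
    intro n γ γ'
    have hw := wgt_pos N n
    have h6 : |G n γ - G n γ'| ≤ K * dist γ γ' := by
      rw [hG]
      simp only
      rw [← mul_sub, ← mul_sub, ← Finset.sum_sub_distrib, abs_mul, abs_of_pos (inv_pos.2 hB0), inv_mul_le_iff₀ hB0]
      rcases le_or_gt (n : ℝ) (b * X) with h5 | h5
      · rw [abs_mul, abs_of_nonneg (by positivity)]
        refine le_trans (mul_le_mul_of_nonneg_left ((Finset.abs_sum_le_sum_abs _ _).trans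
          (Finset.sum_le_sum (g := fun _ => K * dist γ γ') fun m _ => h2 n m γ γ')) (by positivity)) ?_
        rw [Finset.sum_const, Finset.card_range, nsmul_eq_mul]
        push_cast
        rw [← mul_assoc]
        exact mul_le_mul_of_nonneg_right (hwt n h5) (by positivity)
      · rw [Finset.sum_eq_zero fun m _ => by rw [h4 n m γ h5, h4 n m γ' h5, sub_zero], mul_zero, abs_zero]
        positivity
    refine h6.trans (mul_le_mul_of_nonneg_right ?_ dist_nonneg)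
    exact le_mul_of_one_le_right K.coe_nonneg hw
  have k3 : ∀ n γ, dm γ < r → G n γ = 0 := by
    intro n γ hγ
    rw [hG]
    simp only
    rw [Finset.sum_eq_zero fun m _ => h3 n m γ hγ, mul_zero, mul_zero]
  have h5 := h N hNN1 z hz G k1 k2 k3
  have e1 : ∀ H : ℕ → C(unitInterval, ℂ) → ℝ, ML0 N (fun n γ => B⁻¹ * H n γ) = B⁻¹ * ML0 N H := by
    intro H
    unfold ML0
    rw [mul_left_comm, Finset.mul_sum _ _ B⁻¹]
    congr 1
    refine Finset.sum_congr rfl fun n _ => ?_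
    rw [pm0_mul]
    ring
  rw [hG] at h5
  simp only at h5
  rw [e1, e1, ← mul_sub, abs_mul, abs_of_pos (inv_pos.2 hB0), inv_mul_le_iff₀ hB0] at h5
  refine h5.trans (le_of_eq ?_)
  field_simp

end Pool.Agent.ROT.F
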