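import Pool.Agent.ROT.F3Ex
import Pool.Agent.ROT.F3Dic
import Pool.Agent.ROT.PubP
import Pool.Agent.ROT.F3Sum

/-!
# ROT / F3P (helper10): row L1, the open words read from p to p (route L): the literal

* `lw` : the weight of the gap (1 on `[0, 1]`, 0 on `[2, oo)`, Lipschitz);
* `wo r N w` : the critical weight of the self-avoiding word `w` with an even number of letters, with the weight `lw` of
  `|en w| / (r N)`; all lengths free;
* `Xo r N F` : the sum over the open words `w` and the even marks `m` (`q = ps w m`), `F w m` arbitrary;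
* `nz r N = r ^ (59 / 24) N ^ (25 / 8)` : the normalisation;
* `Ev N w m` : the macroscopic data: the curve divided by `N`, the length and the mark divided by `N ^ (4 / 3)`;
* Props **`XUp`**, **`XLow`** (mass of the lengths between `a N ^ (4 / 3)` and `b N ^ (4 / 3)`), **`XPol`** (mixture of polygons),
  **`XRot`** (rotation invariance up to `e`, for `r <= r0 (e)` and `N >= N0 (r)`).
-/

set_option autoImplicit false

namespace Pool.Agent.ROT.F3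

open Finset
open scoped ENNReal NNReal Classical
open Pool.Agent.NTS.Res (step pos saw fug size curve)
open Pool.Agent.PMA.Res (pol pmean)
open Pool.Agent.ROT.F (sN)

/-- the weight of the gap: 1 on `[0, 1]`, 0 on `[2, oo)` -/
noncomputable def lw (t : ℝ) : ℝ := max 0 (min 1 (2 - t))

/-- the weight of an open word read from p to p -/
noncomputable def wo (r : ℝ) (N : ℕ) (w : W3) : ℝ≥0∞ :=
  if SW w ∧ Even w.length then wx w * ENNReal.ofReal (lw (‖en w‖ / (r * N))) else 0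

/-- the sum over the open words with an even mark -/
noncomputable def Xo (r : ℝ) (N : ℕ) (F : W3 → ℕ → ℝ≥0∞) : ℝ≥0∞ :=
  ∑' w : W3, wo r N w * ∑ m ∈ (range (w.length + 1)).filter Even, F w m

/-- the normalisation -/
noncomputable def nz (r : ℝ) (N : ℕ) : ℝ := r ^ (59 / 24 : ℝ) * (N : ℝ) ^ (25 / 8 : ℝ)

/-- curve, length, mark -/
abbrev Mac := C(unitInterval, ℂ) × (ℝ × ℝ)

/-- the macroscopic data of a word with a mark -/
noncomputable def Ev (N : ℕ) (w : W3) (m : ℕ) : Mac :=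
  (crv w w.length N, ((w.length : ℝ) / (N : ℝ) ^ (4 / 3 : ℝ), (m : ℝ) / (N : ℝ) ^ (4 / 3 : ℝ)))

/-- the rotation -/
noncomputable def mrot (z : ℂ) (x : Mac) : Mac := (z • x.1, x.2)

/-- the Lipschitz functions with values in `[0, 1]` which see only the lengths between `a` and `b` -/
def TFab (K : ℝ≥0) (a b : ℝ) (Φ : Mac → ℝ) : Prop :=
  LipschitzWith K Φ ∧ (∀ x, 0 ≤ Φ x ∧ Φ x ≤ 1) ∧ ∀ x, Φ x ≠ 0 → a ≤ x.2.1 ∧ x.2.1 ≤ b

/-- the sum of a function of the macroscopic data -/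
noncomputable def XM (r : ℝ) (N : ℕ) (Φ : Mac → ℝ) : ℝ≥0∞ := Xo r N fun w m => ENNReal.ofReal (Φ (Ev N w m))

/-- the indicator of the lengths -/
noncomputable def lgw (a b : ℝ) (x : Mac) : ℝ := if a ≤ x.2.1 ∧ x.2.1 ≤ b then 1 else 0

/-- the mass from above -/
def XUp : Prop := ∀ a b : ℝ, 0 < a → a ≤ b → ∃ C r0 : ℝ, 0 < C ∧ 0 < r0 ∧ ∀ r : ℝ, 0 < r → r ≤ r0 → ∃ N0 : ℕ, ∀ N : ℕ, N0 ≤ N →
  XM r N (lgw a b) ≤ ENNReal.ofReal (C * nz r N)

/-- the mass from below -/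
def XLow : Prop := ∀ a b : ℝ, 0 < a → a < b → ∃ c r0 : ℝ, 0 < c ∧ 0 < r0 ∧ ∀ r : ℝ, 0 < r → r ≤ r0 → ∃ N0 : ℕ, ∀ N : ℕ, N0 ≤ N →
  ENNReal.ofReal (c * nz r N) ≤ XM r N (lgw a b)

/-- **the rotation invariance** -/
def XRot : Prop := ∀ (K : ℝ≥0) (a b ε : ℝ), 0 < a → a ≤ b → 0 < ε → ∃ r0 : ℝ, 0 < r0 ∧ ∀ r : ℝ, 0 < r → r ≤ r0 →
  ∃ N0 : ℕ, ∀ N : ℕ, N0 ≤ N → ∀ z : ℂ, ‖z‖ = 1 → ∀ Φ : Mac → ℝ, TFab K a b Φ →
    XM r N (fun x => Φ (mrot z x)) ≤ XM r N Φ + ENNReal.ofReal (ε * nz r N)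

/-- the mean over the polygons with `n + 1` edges and a mark, lattice scale `N` -/
noncomputable def pmk (N n : ℕ) (Φ : Mac → ℝ) : ℝ :=
  pmean n fun γ => (N : ℝ) ^ (-(4 / 3) : ℝ) *
    ∑ m ∈ range (n + 1), Φ (sN N n γ, ((n : ℝ) / (N : ℝ) ^ (4 / 3 : ℝ), (m : ℝ) / (N : ℝ) ^ (4 / 3 : ℝ)))

/-- **the open words are a mixture of polygons**: the weights `v n` are bounded from above and below, `n` odd -/
def XPol : Prop := ∀ a b : ℝ, 0 < a → a ≤ b → ∃ c C : ℝ, 0 < c ∧ 0 < C ∧ ∀ (K : ℝ≥0) (ε : ℝ), 0 < ε → ∃ r0 : ℝ, 0 < r0 ∧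
  ∀ r : ℝ, 0 < r → r ≤ r0 → ∃ N0 : ℕ, ∀ N : ℕ, N0 ≤ N → ∃ v : ℕ → ℝ,
    (∀ n : ℕ, c ≤ v n ∧ v n ≤ C) ∧ ∀ Φ : Mac → ℝ, TFab K a b Φ →
      |(XM r N Φ).toReal / nz r N - (N : ℝ) ^ (-(4 / 3) : ℝ) *
        ∑ n ∈ (range (N ^ 2)).filter (fun n => Odd n), v n * pmk N n Φ| ≤ ε

end Pool.Agent.ROT.F3
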