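import Pool.Agent.ROT.F3T12Lit

/-!
# ROT / F3T12 (helper83): the share of the closed words is bounded by the mass of the blocks

**`t12_of : Cw → NRet → AcT → Gz → T12`**.
-/

set_option autoImplicit false

namespace Pool.Agent.ROT.F3

open Finset

open HexObs hiding pos

open HexObs.SDN HexObs.TS HexObs.TIW HexObs.MCP

open Pool.Agent.RMP (win)

open NTF (JJ)

open scoped ENNReal Classical

/-- the decomposition of the beginning of a word is one of the whole word, if there is no near return -/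
lemma gsum_ext1 {d : ℂ} {r r0 l s S : ℝ} {B : Set W3} {ψ : W3 → ℝ≥0∞} {q : W3} {M : ℕ} (hq : Even q.length) (hM : Even M)
    (hMq : M ≤ q.length) (hS : r + s + r0 ≤ S) (hB : ∀ b ∈ B, Even b.length ∧ ‖en b‖ ≤ s)
    (hfar : ∀ J : ℕ, M < J → J ≤ q.length → S < ‖ps q J‖) :
    gsum d r r0 l B ψ (q.take M) ≤ gsum d r r0 l B ψ q := by
  obtain ⟨f, hf⟩ : ∃ f : W3 × W3 × W3 → W3 × W3 × W3, f = fun x => (x.1, x.2.1, x.2.2 ++ q.drop M) := ⟨_, rfl⟩
  have hinj : Function.Injective f := by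
    rintro ⟨p, b, R⟩ ⟨p', b', R'⟩ h
    rw [hf] at h
    simp only [Prod.mk.injEq, List.append_cancel_right_eq] at h
    obtain ⟨rfl, rfl, rfl⟩ := h
    rfl
  obtain ⟨G, hG⟩ : ∃ G : W3 × W3 × W3 → ℝ≥0∞, G = fun x => if Dcm d r r0 l B q x.1 x.2.1 x.2.2 then ψ x.2.1 else 0 := ⟨_, rfl⟩
  have key : ∀ x : W3 × W3 × W3, (if Dcm d r r0 l B (q.take M) x.1 x.2.1 x.2.2 then ψ x.2.1 else 0) ≤ G (f x) := by
    rintro ⟨p, b, R⟩
    by_cases h : Dcm d r r0 l B (q.take M) p b R
    · have ep := h.tip.ev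
      have eb := (hB b h.blk).1
      have epb : Even (p ++ b).length := by
        rw [List.length_append]
        exact ep.add eb
      have hl : (p ++ b).length + R.length = M := by
        have := congrArg List.length h.eq
        simp only [List.length_take, List.length_append] at this ⊢
        omega
      have e1 : q = (p ++ b) ++ (R ++ q.drop M) := by
        have h1 := List.take_append_drop M q
        rw [h.eq] at h1
        calc q = p ++ (b ++ R) ++ q.drop M := h1.symm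
          _ = _ := by simp only [List.append_assoc]
      have h2 : Dcm d r r0 l B q p b (R ++ q.drop M) := by
        refine ⟨?_, h.tip, h.fst, h.blk, ?_, fun j hj hj2 hj3 => ?_⟩
        · conv_lhs => rw [e1]
          rw [List.append_assoc]
        · rw [List.length_append, List.length_drop]
          exact h.ev.add ((Nat.even_sub hMq).2 (iff_of_true hq hM))
        · rcases Nat.lt_or_ge R.length j with h3 | h3
          · exfalso
            have h4 : ps q ((p ++ b).length + j) = en (p ++ b) + ps (R ++ q.drop M) j := by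
              conv_lhs => rw [e1]
              exact ps_append_right epb j
            have h5 : ‖en (p ++ b)‖ ≤ r + s := by
              rw [en_append ep]
              exact (norm_add_le _ _).trans (add_le_add (norm_en_le h.tip) (hB b h.blk).2)
            have h6 : ‖ps q ((p ++ b).length + j)‖ ≤ S := by
              rw [h4]
              refine (norm_add_le _ _).trans ?_
              linarith
            rw [List.length_append, List.length_drop] at hj2
            exact absurd h6 (not_le.2 (hfar _ (by omega) (by omega)))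
          · rw [ps_append_left h3] at hj3 ⊢
            exact h.rst j hj h3 hj3
      rw [if_pos h, hG, hf]
      simp only
      rw [if_pos h2]
    · rw [if_neg h]
      exact bot_le
  calc gsum d r r0 l B ψ (q.take M) ≤ ∑' x : W3 × W3 × W3, G (f x) := ENNReal.tsum_le_tsum key
    _ ≤ ∑' x : W3 × W3 × W3, G x := ENNReal.tsum_comp_le_tsum_of_injective hinj G
    _ = _ := by
        rw [hG]
        rfl

/-- the word read backwards from the vertex number `k'` -/
lemma norm_ps_bk {t : List Bool} {k' : ℕ} (hk : k' ≤ t.length) (he : Even k') (i : Fin 3) {J : ℕ} (hJ : J ≤ k') :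
    ‖ps (rt i (wl (t.take k'))).reverse J‖ = ‖JJ (vx oo up t (k' - J)) - JJ (vx oo up t k')‖ := by
  have hl : (t.take k').length = k' := by
    rw [List.length_take, min_eq_left hk]
  have hv : ∀ j : ℕ, j ≤ k' → vx oo up (t.take k') j = vx oo up t j := by
    intro j hj
    conv_rhs => rw [← List.take_append_drop k' t]
    exact (vx_append (by omega)).symm
  have hle : (rt i (wl (t.take k'))).length = k' := by
    rw [rt_length, wl_length, hl]
  rw [ps_reverse (by rw [hle]; exact he) (by rw [hle]; exact hJ), hle, en, hle, ps_rt, ps_rt, ← mul_sub, norm_mul, norm_ax,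
    one_mul, ps_wl _ (by rw [hl]; omega), ps_wl _ (by rw [hl]), hv _ (by omega), hv _ le_rfl]

/-- the weight of the beginning is at most the weight of the whole strand, or there is a near return -/
lemma gh_ext1 {d : ℂ} {r r0 l s S : ℝ} {B : Set W3} {ψ : W3 → ℝ≥0∞} {t : List Bool} {k' M : ℕ} (hk : k' ≤ t.length)
    (he : Even k') (hM : Even M) (hMk : M ≤ k') (hS : r + s + r0 ≤ S) (hB : ∀ b ∈ B, Even b.length ∧ ‖en b‖ ≤ s) :
    (∑ i : Fin 3, (min 1 (gsum d r r0 l B ψ ((rt i (wl (t.take k'))).reverse.take M))).toReal) / 3 ≤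
      gh d r r0 l B ψ (t.take k') +
        if ∃ j : ℕ, j + M ≤ k' ∧ ‖JJ (vx oo up t j) - JJ (vx oo up t k')‖ ≤ S then 1 else 0 := by
  have h1 : ∀ x : ℝ≥0∞, 0 ≤ (min 1 x).toReal ∧ (min 1 x).toReal ≤ 1 := fun x =>
    ⟨ENNReal.toReal_nonneg, ENNReal.toReal_le_of_le_ofReal zero_le_one (by
      rw [ENNReal.ofReal_one]
      exact min_le_left _ _)⟩
  by_cases h : ∃ j : ℕ, j + M ≤ k' ∧ ‖JJ (vx oo up t j) - JJ (vx oo up t k')‖ ≤ S
  · rw [if_pos h]
    have h2 : 0 ≤ gh d r r0 l B ψ (t.take k') := by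
      unfold gh
      exact div_nonneg (sum_nonneg fun i _ => (h1 _).1) (by norm_num)
    have h3 : (∑ i : Fin 3, (min 1 (gsum d r r0 l B ψ ((rt i (wl (t.take k'))).reverse.take M))).toReal) / 3 ≤ 1 := by
      rw [div_le_one (by norm_num), Fin.sum_univ_three]
      linarith [(h1 (gsum d r r0 l B ψ ((rt 0 (wl (t.take k'))).reverse.take M))).2,
        (h1 (gsum d r r0 l B ψ ((rt 1 (wl (t.take k'))).reverse.take M))).2,
        (h1 (gsum d r r0 l B ψ ((rt 2 (wl (t.take k'))).reverse.take M))).2]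
    linarith
  · rw [if_neg h, add_zero]
    unfold gh
    refine div_le_div_of_nonneg_right (sum_le_sum fun i _ => ?_) (by norm_num)
    have hl : ((rt i (wl (t.take k'))).reverse).length = k' := by
      rw [List.length_reverse, rt_length, wl_length, List.length_take, min_eq_left hk]
    refine ENNReal.toReal_mono (ne_top_of_le_ne_top ENNReal.one_ne_top (min_le_left _ _)) (min_le_min le_rfl ?_)
    refine gsum_ext1 (s := s) (S := S) (by rw [hl]; exact he) hM (by rw [hl]; exact hMk) hS hB fun J hJ hJ2 => ?_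
    rw [hl] at hJ2
    rw [norm_ps_bk hk he i hJ2]
    push Not at h
    exact h (k' - J) (by omega)

/-- **row T12** -/
theorem t12_of (hCw : Cw) (hNR : NRet) (hA : AcT) (hG : Gz) : T12 := by
  intro ε a hε ha
  obtain ⟨e, he⟩ : ∃ e, e = ε / 4 := ⟨_, rfl⟩
  have hep : 0 < e := by
    rw [he]
    positivity
  obtain ⟨δ1, n1, hδ1, hC⟩ := hCw e hep
  obtain ⟨δ, hδd⟩ : ∃ δ, δ = min δ1 (1 / 16) := ⟨_, rfl⟩
  have hδ : 0 < δ := by
    rw [hδd]
    exact lt_min hδ1 (by norm_num)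
  have hδa : δ ≤ δ1 := by
    rw [hδd]
    exact min_le_left _ _
  have hδb : δ ≤ 1 / 16 := by
    rw [hδd]
    exact min_le_right _ _
  obtain ⟨ρ1, n2, hρ1, hN⟩ := hNR e (δ / 8) hep (by positivity)
  refine ⟨max (δ * (3 / ρ1) ^ (4 / 3 : ℝ)) 1, fun K1 hK => ?_⟩
  have hK1 : 1 ≤ K1 := (le_max_right _ _).trans hK
  have hK2 : δ * (3 / ρ1) ^ (4 / 3 : ℝ) ≤ K1 := (le_max_left _ _).trans hK
  have hK0 : 0 < K1 := by linarith
  obtain ⟨Q, hQ⟩ : ∃ Q, Q = 5 * K1 / δ := ⟨_, rfl⟩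
  have hQ0 : 0 < Q := by
    rw [hQ]
    positivity
  obtain ⟨κ, hκ⟩ : ∃ κ : ℝ, κ = a / Q ^ (3 / 4 : ℝ) := ⟨_, rfl⟩
  have hQp : 0 < Q ^ (3 / 4 : ℝ) := Real.rpow_pos_of_pos hQ0 _
  have hκ0 : 0 < κ := by
    rw [hκ]
    exact div_pos ha hQp
  obtain ⟨d, ρ, C1, n3, hd, hd1, hρ, hρd, hC1, hAc⟩ := hA e κ (1 / 8) (1 / 16) hep hκ0 (by norm_num) (by norm_num)
  obtain ⟨C2, n4, hC2, hGz⟩ := hG (1 / 8) d (by norm_num) hd (by linarith)
  refine ⟨C1 * C2, δ, max (((n1 + n2 + n3 + n4 : ℕ) : ℝ)) 64, by positivity, hδ,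
    fun s M N hs hM1 hM2 hMe hNo hMN dd r r0 l B ψ hdd hr hra hal hr0 hB htop => ?_⟩
  have g0 : ((n1 + n2 + n3 + n4 : ℕ) : ℝ) ≤ s := (le_max_left _ _).trans hs
  have g64 : 64 ≤ s := (le_max_right _ _).trans hs
  have hs0 : 0 < s := by linarith
  obtain ⟨P, hP⟩ : ∃ P, P = s ^ (4 / 3 : ℝ) := ⟨_, rfl⟩
  rw [← hP] at hM1 hM2
  have hPs : s ≤ P := by
    rw [hP]
    calc s = s ^ (1 : ℝ) := (Real.rpow_one s).symm
      _ ≤ s ^ (4 / 3 : ℝ) := Real.rpow_le_rpow_of_exponent_le (by linarith) (by norm_num)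
  have hP0 : 0 < P := by linarith
  have hP34 : P ^ (3 / 4 : ℝ) = s := by
    rw [hP, ← Real.rpow_mul hs0.le]
    norm_num
  have hKP : P ≤ K1 * P := by nlinarith
  have hMs : s ≤ M := by linarith
  -- the number of letters of the walks
  obtain ⟨n, hn⟩ : ∃ n : ℕ, n = ⌈2 * (M : ℝ) / δ⌉₊ := ⟨_, rfl⟩
  have hM0 : (0 : ℝ) ≤ M := Nat.cast_nonneg _
  have f1 : 2 * (M : ℝ) ≤ δ * n := by
    have h1 : 2 * (M : ℝ) / δ ≤ n := by
      rw [hn]
      exact Nat.le_ceil _
    rw [div_le_iff₀ hδ] at h1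
    linarith
  have f2 : (n : ℝ) ≤ 2 * (M : ℝ) / δ + 1 := by
    rw [hn]
    exact (Nat.ceil_lt_add_one (by positivity)).le
  have f3 : δ * n ≤ 2 * M + δ := by
    have h1 := mul_le_mul_of_nonneg_left f2 hδ.le
    have h2 : δ * (2 * (M : ℝ) / δ + 1) = 2 * M + δ := by
      field_simp
    linarith
  have hn0 : (0 : ℝ) ≤ n := Nat.cast_nonneg _
  have f4 : 32 * (M : ℝ) ≤ n := by nlinarith
  have f5 : (n : ℝ) ≤ Q * P := by
    have h1 : 1 ≤ K1 * P / δ := by
      rw [le_div_iff₀ hδ]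
      linarith
    have h2 : 2 * (M : ℝ) / δ ≤ 4 * (K1 * P / δ) := by
      rw [div_le_iff₀ hδ]
      have : 4 * (K1 * P / δ) * δ = 4 * (K1 * P) := by
        field_simp
      rw [this]
      linarith
    have h3 : Q * P = 5 * (K1 * P / δ) := by
      rw [hQ]
      ring
    linarith
  have f6 : κ * (n : ℝ) ^ (3 / 4 : ℝ) ≤ a * s := by
    have h1 : (n : ℝ) ^ (3 / 4 : ℝ) ≤ Q ^ (3 / 4 : ℝ) * s := by
      calc (n : ℝ) ^ (3 / 4 : ℝ) ≤ (Q * P) ^ (3 / 4 : ℝ) := Real.rpow_le_rpow hn0 f5 (by norm_num)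
        _ = Q ^ (3 / 4 : ℝ) * s := by rw [Real.mul_rpow hQ0.le hP0.le, hP34]
    calc κ * (n : ℝ) ^ (3 / 4 : ℝ) ≤ κ * (Q ^ (3 / 4 : ℝ) * s) := mul_le_mul_of_nonneg_left h1 hκ0.le
      _ = a * s := by
          rw [hκ]
          field_simp
  have g1 : (n1 : ℝ) + n2 + n3 + n4 ≤ s := by
    have h1 : ((n1 + n2 + n3 + n4 : ℕ) : ℝ) = (n1 : ℝ) + n2 + n3 + n4 := by push_cast; ring
    linarith
  have z1 : (0 : ℝ) ≤ n1 := Nat.cast_nonneg _
  have z2 : (0 : ℝ) ≤ n2 := Nat.cast_nonneg _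
  have z3 : (0 : ℝ) ≤ n3 := Nat.cast_nonneg _
  have z4 : (0 : ℝ) ≤ n4 := Nat.cast_nonneg _
  -- the marks
  obtain ⟨k', hk'⟩ : ∃ k', k' = 2 * (n / 4) := ⟨_, rfl⟩
  have hk'e : Even k' := by
    rw [hk']
    exact even_two_mul _
  have k1 : 2 * k' ≤ n := by omega
  have k2 : n ≤ 2 * k' + 3 := by omega
  have k1r : 2 * (k' : ℝ) ≤ n := by exact_mod_cast k1
  have k2r : (n : ℝ) ≤ 2 * k' + 3 := by exact_mod_cast k2
  obtain ⟨k, hkd⟩ : ∃ k, k = k' + ⌈ρ * n⌉₊ := ⟨_, rfl⟩
  have k3 : (k' : ℝ) + ρ * n ≤ k := by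
    rw [hkd]
    push_cast
    linarith [Nat.le_ceil (ρ * n)]
  have hρn : 0 ≤ ρ * n := by positivity
  have k4 : (k : ℝ) ≤ k' + ρ * n + 1 := by
    rw [hkd]
    push_cast
    linarith [(Nat.ceil_lt_add_one hρn).le]
  have hρ16 : ρ * n ≤ 1 / 16 * n := mul_le_mul_of_nonneg_right (hρd.trans hd1) hn0
  have hkk : k' ≤ k := by
    rw [hkd]
    exact Nat.le_add_right _ _
  have hMk : M ≤ k' := by
    have : (M : ℝ) ≤ k' := by linarith
    exact_mod_cast this
  have kn1 : 1 / 8 * (n : ℝ) ≤ k := by linarith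
  have kn2 : (k : ℝ) ≤ (1 - 1 / 8) * n := by linarith
  obtain ⟨u, u0, u1, u2, hu⟩ := hAc n k (by
    have : (n3 : ℝ) ≤ n := by linarith
    exact_mod_cast this) kn1 kn2
  -- the weight
  obtain ⟨h, hh⟩ : ∃ h : W3 → ℝ, h = fun w => (min 1 (gsum dd r r0 l B ψ w)).toReal := ⟨_, rfl⟩
  have hh1 : ∀ w, 0 ≤ h w ∧ h w ≤ 1 := fun w => by
    rw [hh]
    exact ⟨ENNReal.toReal_nonneg, ENNReal.toReal_le_of_le_ofReal zero_le_one (by
      rw [ENNReal.ofReal_one]
      exact min_le_left _ _)⟩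
  have hgh : ∀ v : List Bool, 0 ≤ gh dd r r0 l B ψ v ∧ gh dd r r0 l B ψ v ≤ 1 := fun v => by
    have h0 := fun i : Fin 3 => hh1 (rt i (wl v)).reverse
    rw [hh] at h0
    unfold gh
    constructor
    · exact div_nonneg (sum_nonneg fun i _ => (h0 i).1) (by norm_num)
    · rw [div_le_one (by norm_num), Fin.sum_univ_three]
      linarith [(h0 0).2, (h0 1).2, (h0 2).2]
  obtain ⟨X, hX⟩ : ∃ X, X = shr N M dd r r0 l B ψ := ⟨_, rfl⟩
  obtain ⟨E, hE⟩ : ∃ E : ℕ → ℝ, E = fun i => Eu i (fun t => gh dd r r0 l B ψ (t.take k')) := ⟨_, rfl⟩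
  have hE0 : ∀ i, 0 ≤ E i := fun i => by
    rw [hE]
    exact div_nonneg (sum_nonneg fun t _ => (hgh _).1) (Nat.cast_nonneg _)
  have key : ∀ i, u i ≠ 0 → X ≤ E i + 2 * e := by
    intro i hi
    obtain ⟨i1, i2⟩ := u1 i hi
    have j1 : 15 / 16 * (n : ℝ) ≤ i := by nlinarith
    have j2 : (i : ℝ) ≤ 9 / 8 * n := by nlinarith
    have j3 : (M : ℝ) ≤ δ1 * i := by
      have h1 : 15 / 16 * (δ * n) ≤ δ * i := by
        have := mul_le_mul_of_nonneg_left j1 hδ.le
        linarith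
      have h2 : δ * i ≤ δ1 * i := mul_le_mul_of_nonneg_right hδa (Nat.cast_nonneg _)
      linarith
    have j4 : k' ≤ i := by
      have : (k' : ℝ) ≤ i := by linarith
      exact_mod_cast this
    have h1 := hC N i k' M hNo (by
      have h5 : (M : ℝ) ≤ 1 * N := hMN.trans (mul_le_mul_of_nonneg_right (by linarith) (Nat.cast_nonneg _))
      have : (n1 : ℝ) ≤ N := by linarith
      exact_mod_cast this) (by
      have : (n1 : ℝ) ≤ i := by linarith
      exact_mod_cast this) hk'e (by linarith) (by linarith)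
      (hMN.trans (mul_le_mul_of_nonneg_right hδa (Nat.cast_nonneg _))) j3 h hh1
    -- the near returns
    have h2 := hN i k' M (by
      have : (n2 : ℝ) ≤ i := by linarith
      exact_mod_cast this) (by
      have h5 : δ / 8 * i ≤ 9 / 64 * (δ * n) := by
        have := mul_le_mul_of_nonneg_left j2 (by positivity : 0 ≤ δ / 8)
        linarith
      linarith) hMk j4
    have h3 : 3 * s ≤ ρ1 * (i : ℝ) ^ (3 / 4 : ℝ) := by
      have h5 : K1 / δ * P ≤ i := by
        have h6 : K1 * P ≤ δ * i := by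
          have := mul_le_mul_of_nonneg_left j1 hδ.le
          linarith
        rw [div_mul_eq_mul_div, div_le_iff₀ hδ]
        linarith
      have h6 : (3 / ρ1) ^ (4 / 3 : ℝ) ≤ K1 / δ := by
        rw [le_div_iff₀ hδ]
        linarith
      have h7 : 3 / ρ1 ≤ (K1 / δ) ^ (3 / 4 : ℝ) := by
        have h8 := Real.rpow_le_rpow (by positivity) h6 (by norm_num : (0 : ℝ) ≤ 3 / 4)
        rw [← Real.rpow_mul (by positivity)] at h8
        norm_num at h8
        exact h8
      have h9 : (K1 / δ) ^ (3 / 4 : ℝ) * s ≤ (i : ℝ) ^ (3 / 4 : ℝ) := by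
        calc (K1 / δ) ^ (3 / 4 : ℝ) * s = (K1 / δ * P) ^ (3 / 4 : ℝ) := by
              rw [Real.mul_rpow (by positivity) hP0.le, hP34]
          _ ≤ (i : ℝ) ^ (3 / 4 : ℝ) := Real.rpow_le_rpow (by positivity) h5 (by norm_num)
      calc 3 * s = ρ1 * (3 / ρ1 * s) := by
            field_simp
        _ ≤ ρ1 * ((K1 / δ) ^ (3 / 4 : ℝ) * s) :=
            mul_le_mul_of_nonneg_left (mul_le_mul_of_nonneg_right h7 hs0.le) hρ1.le
        _ ≤ _ := mul_le_mul_of_nonneg_left h9 hρ1.le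
    have h4 : Eu i (fun t => (∑ i : Fin 3, h ((rt i (wl (t.take k'))).reverse.take M)) / 3) ≤ E i + e := by
      have h5 : ∀ t ∈ sawF i, (∑ i : Fin 3, h ((rt i (wl (t.take k'))).reverse.take M)) / 3 ≤
          gh dd r r0 l B ψ (t.take k') + if ∃ j : ℕ, j + M ≤ k' ∧
            ‖JJ (vx oo up t j) - JJ (vx oo up t k')‖ ≤ ρ1 * (i : ℝ) ^ (3 / 4 : ℝ) then 1 else 0 := by
        intro t ht
        have hti : t.length = i := (mem_sawF.1 ht).1
        rw [hh]
        refine (gh_ext1 (s := s) (S := 3 * s) (by rw [hti]; exact j4) hk'e hMe hMk (by linarith) hB).trans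
          (add_le_add le_rfl ?_)
        by_cases h6 : ∃ j : ℕ, j + M ≤ k' ∧ ‖JJ (vx oo up t j) - JJ (vx oo up t k')‖ ≤ 3 * s
        · obtain ⟨j, hj1, hj2⟩ := h6
          rw [if_pos ⟨j, hj1, hj2⟩, if_pos ⟨j, hj1, hj2.trans h3⟩]
        · rw [if_neg h6]
          split_ifs
          · exact zero_le_one
          · exact le_rfl
      calc Eu i (fun t => (∑ i : Fin 3, h ((rt i (wl (t.take k'))).reverse.take M)) / 3)
          ≤ (∑ t ∈ sawF i, (gh dd r r0 l B ψ (t.take k') + if ∃ j : ℕ, j + M ≤ k' ∧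
            ‖JJ (vx oo up t j) - JJ (vx oo up t k')‖ ≤ ρ1 * (i : ℝ) ^ (3 / 4 : ℝ) then 1 else 0)) / cS i :=
            div_le_div_of_nonneg_right (sum_le_sum h5) (Nat.cast_nonneg _)
        _ = E i + Eu i (fun t => if ∃ j : ℕ, j + M ≤ k' ∧
            ‖JJ (vx oo up t j) - JJ (vx oo up t k')‖ ≤ ρ1 * (i : ℝ) ^ (3 / 4 : ℝ) then 1 else 0) := by
            rw [sum_add_distrib, add_div, hE]
            rfl
        _ ≤ E i + e := by linarith
    have hsum : (∑' K : Cln (N + 1), h ((K : W3).take M)) = ∑' K : Cln (N + 1),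
        (min 1 (gsum dd r r0 l B ψ ((K : W3).take M))).toReal := by rw [hh]
    rw [hX]
    unfold shr
    rw [← hsum]
    rcases Nat.eq_zero_or_pos (Cln (N + 1)).ncard with h7 | h7
    · rw [h7, Nat.cast_zero, div_zero]
      linarith [hE0 i]
    · have h8 : (0 : ℝ) < (Cln (N + 1)).ncard := by exact_mod_cast h7
      rw [div_le_iff₀ h8]
      refine h1.trans ?_
      rw [mul_comm]
      exact mul_le_mul_of_nonneg_right (by linarith) h8.le
  -- the mean over i
  have m1 : X ≤ ∑ i ∈ range (4 * n), u i * E i + 2 * e := by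
    have h1 : ∑ i ∈ range (4 * n), u i * X ≤ ∑ i ∈ range (4 * n), (u i * E i + u i * (2 * e)) := by
      refine sum_le_sum fun i _ => ?_
      by_cases h2 : u i = 0
      · rw [h2, zero_mul, zero_mul, zero_mul, add_zero]
      · have := mul_le_mul_of_nonneg_left (key i h2) (u0 i)
        linarith
    rw [← sum_mul, sum_add_distrib, ← sum_mul, u2, one_mul, one_mul] at h1
    exact h1
  have m2 := hu k' k3 (by linarith) (gh dd r r0 l B ψ) (fun v => (hgh v).1) (fun v => (hgh v).2)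
  have m3 := hGz n k k' (by
    have : (n4 : ℝ) ≤ n := by linarith
    exact_mod_cast this) kn1 kn2 hk'e hkk (κ * (n : ℝ) ^ (3 / 4 : ℝ)) dd r r0 l B ψ hdd hr (by linarith) (by linarith)
    (fun b hb => (hB b hb).1) htop
  have m4 : ∑ i ∈ range (4 * n), u i * E i ≤ C1 * (C2 * (Sb B ψ).toReal) + e := by
    rw [hE]
    exact m2.trans (by linarith [mul_le_mul_of_nonneg_left m3 hC1.le])
  rw [← hX]
  have e4 : C1 * C2 * (Sb B ψ).toReal = C1 * (C2 * (Sb B ψ).toReal) := by ring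
  rw [e4]
  linarith

end Pool.Agent.ROT.F3
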