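import Pool.Agent.ROT.F3GateP
import Pool.Agent.ROT.F3T12Lit

/-!
# ROT / F3P12Lit (helper83): the rows of W8s for any class of start pieces

`shP N M d r0 P B ψ` = the share of the closed words with `N + 1` letters whose first `M` letters are `p ++ (b ++ R)` with `p ∈ P`,
`b ∈ B`, no return near the second gate in `R`; weight `ψ b`, cut off at 1. `T12P` : it is bounded by the mass of the blocks.
**`C0At c0 C' lam r0 d P B ψ L`** : at the scale `L` some number `N + 1` of letters in `[lam, 4 lam] L ^ (4 / 3)` has a share at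
least `c0` (the input from the closed words, for one scale `L`, one class, one weight).
-/

set_option autoImplicit false

namespace Pool.Agent.ROT.F3

open Finset

open scoped ENNReal Classical

/-- the share of the closed words with a start piece, a block in `B` with the weight `ψ`, a second gate -/
noncomputable def shP (N M : ℕ) (d : ℂ) (r0 : ℝ) (P B : Set W3) (ψ : W3 → ℝ≥0∞) : ℝ :=
  (∑' K : Cln (N + 1), (min 1 (gsP d r0 P B ψ ((K : W3).take M))).toReal) / (Cln (N + 1)).ncard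

/-- **the share is bounded by the mass of the blocks** (row T12; `K1` is arbitrary large, `C` and `δ` depend on it) -/
def T12P : Prop := ∀ ε a : ℝ, 0 < ε → 0 < a → ∃ K0 : ℝ, ∀ K1 : ℝ, K0 ≤ K1 → ∃ C δ s0 : ℝ, 0 < C ∧ 0 < δ ∧
  ∀ (s : ℝ) (M N : ℕ), s0 ≤ s → K1 * s ^ (4 / 3 : ℝ) ≤ M → (M : ℝ) ≤ 2 * (K1 * s ^ (4 / 3 : ℝ)) → Even M → Odd N →
    (M : ℝ) ≤ δ * N → ∀ (d : ℂ) (r r0 l : ℝ) (P B : Set W3) (ψ : W3 → ℝ≥0∞), ‖d‖ = 1 → StC d r r0 l P → 2 * r ≤ r0 →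
      r + a * s ≤ r0 → a * s < l → r0 ≤ s → (∀ b ∈ B, Even b.length ∧ ‖en b‖ ≤ s) → Sb B ψ ≠ ⊤ →
        shP N M d r0 P B ψ ≤ C * (Sb B ψ).toReal + ε

/-- the weight of the block behind the start piece, of a word read backwards from its end, mean over the three rotations -/
noncomputable def ghP (d : ℂ) (r0 : ℝ) (P B : Set W3) (ψ : W3 → ℝ≥0∞) (u : List Bool) : ℝ :=
  (∑ i : Fin 3, (min 1 (gsP d r0 P B ψ (rt i (wl u)).reverse)).toReal) / 3

/-- **the block can be deleted** -/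
def GzP : Prop := ∀ t dd : ℝ, 0 < t → 0 < dd → dd ≤ 1 → ∃ (C : ℝ) (n0 : ℕ), 0 < C ∧ ∀ n k k' : ℕ, n0 ≤ n → t * n ≤ k →
  (k : ℝ) ≤ (1 - t) * n → Even k' → k' ≤ k → ∀ (R : ℝ) (d : ℂ) (r r0 l : ℝ) (P B : Set W3) (ψ : W3 → ℝ≥0∞), ‖d‖ = 1 →
    StC d r r0 l P → 2 * r ≤ r0 → R + r ≤ r0 → R < l → (∀ b ∈ B, Even b.length) → Sb B ψ ≠ ⊤ →
      tipM R dd k k' (ghP d r0 P B ψ) ≤ C * (Sb B ψ).toReal

/-- **the input from the closed words at one scale** -/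
def C0At (c0 C' lam r0 : ℝ) (d : ℂ) (P B : Set W3) (ψ : W3 → ℝ≥0∞) (L : ℝ) : Prop :=
  ∃ N : ℕ, Odd N ∧ lam * L ^ (4 / 3 : ℝ) ≤ N ∧ (N : ℝ) ≤ 4 * (lam * L ^ (4 / 3 : ℝ)) ∧
    ∀ M : ℕ, Even M → C' * L ^ (4 / 3 : ℝ) ≤ M → 2 * M ≤ N → c0 ≤ shP N M d r0 P B ψ

end Pool.Agent.ROT.F3
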