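import Pool.Agent.ROT.F3ExP

/-!
# ROT / F3PR (helper48): the pair mass with an absolute error (row PR of the inner shell)

`pair_abs`, **`exP_abs`**, **`exP_abs'`**: no lower bound of the kernel `Gam` is needed; the error is `M L` times the two masses
(`M` = sup of the first connection, `L` = one-sided `L¹` modulus of the second one). `gam_mod` : the modulus `L` from the test
form of N2 (all `Φ ≤ 1` of the displacement).
-/

set_option autoImplicit false

namespace Pool.Agent.ROT.F3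

open Finset
open scoped ENNReal Classical

/-- **the pair mass is a product up to an absolute error** -/
theorem pair_abs {A B V : Type*} [Sub V] {wA : A → ℝ≥0∞} {yA : A → V} {wB : B → ℝ≥0∞} {yB : B → V} {G : V → ℝ≥0∞} {c om : ℝ}
    (hc : 0 ≤ c) (hom : 0 ≤ om)
    (h : ∀ a b, wA a ≠ 0 → wB b ≠ 0 → G (yA a - yB b) ≠ ∞ ∧ |(G (yA a - yB b)).toReal - c| ≤ om)
    (hA : ∑' a, wA a ≠ ∞) (hB : ∑' b, wB b ≠ ∞) :
    |(∑' a, ∑' b, wA a * wB b * G (yA a - yB b)).toReal - c * (∑' a, wA a).toReal * (∑' b, wB b).toReal| ≤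
      om * ((∑' a, wA a).toReal * (∑' b, wB b).toReal) := by
  have h1 : ENNReal.ofReal (c - om) * ((∑' a, wA a) * ∑' b, wB b) ≤ ∑' a, ∑' b, wA a * wB b * G (yA a - yB b) := by
    refine pair_lo fun a b ha hb => ?_
    obtain ⟨h2, h3⟩ := h a b ha hb
    refine ENNReal.ofReal_le_of_le_toReal ?_
    have := (abs_le.1 h3).1
    linarith
  have h2 : ∑' a, ∑' b, wA a * wB b * G (yA a - yB b) ≤ ENNReal.ofReal (c + om) * ((∑' a, wA a) * ∑' b, wB b) := by
    refine pair_hi fun a b ha hb => ?_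
    obtain ⟨h2, h3⟩ := h a b ha hb
    rw [← ENNReal.ofReal_toReal h2]
    refine ENNReal.ofReal_le_ofReal ?_
    have := (abs_le.1 h3).2
    linarith
  have hAB : (∑' a, wA a) * ∑' b, wB b ≠ ∞ := ENNReal.mul_ne_top hA hB
  have h3 : ∑' a, ∑' b, wA a * wB b * G (yA a - yB b) ≠ ∞ :=
    ne_top_of_le_ne_top (ENNReal.mul_ne_top ENNReal.ofReal_ne_top hAB) h2
  have h4 := ENNReal.toReal_mono h3 h1
  have h5 := ENNReal.toReal_mono (ENNReal.mul_ne_top ENNReal.ofReal_ne_top hAB) h2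
  rw [ENNReal.toReal_mul, ENNReal.toReal_mul] at h4 h5
  rw [ENNReal.toReal_ofReal (by positivity)] at h5
  have h6 : c - om ≤ (ENNReal.ofReal (c - om)).toReal := by
    rw [ENNReal.toReal_ofReal']
    exact le_max_left _ _
  obtain ⟨x, hx⟩ : ∃ x, x = (∑' a, wA a).toReal := ⟨_, rfl⟩
  obtain ⟨y, hy⟩ : ∃ y, y = (∑' b, wB b).toReal := ⟨_, rfl⟩
  rw [← hx, ← hy] at h4 h5 ⊢
  have hx0 : 0 ≤ x := by rw [hx]; exact ENNReal.toReal_nonneg
  have hy0 : 0 ≤ y := by rw [hy]; exact ENNReal.toReal_nonneg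
  have h7 : (c - om) * (x * y) ≤ (ENNReal.ofReal (c - om)).toReal * (x * y) :=
    mul_le_mul_of_nonneg_right h6 (by positivity)
  rw [abs_le]
  constructor
  · nlinarith [h4, h7]
  · nlinarith [h5]

section pol

variable {C C' : Set (W3 × W3)} {RA RB : Set W3} {e e' : W3 × W3 → ℝ} {F G : W3 → ℝ}

/-- **closed words with two roots, absolute error** -/
theorem exP_abs (H : Hyp C C' RA RB) (hne : [] ∉ RA) (he : ∀ a, 0 ≤ e a) (he' : ∀ a, 0 ≤ e' a)
    (hF : ∀ R, 0 ≤ F R) (hG : ∀ R, 0 ≤ G R) (hs : Sep C RA RB e F G) {c om : ℝ} (hc : 0 ≤ c) (hom : 0 ≤ om)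
    (h : ∀ R ∈ RA, F R ≠ 0 → ∀ S ∈ RB, G S ≠ 0 →
      Gam (gam C fun a => ENNReal.ofReal (e a)) (gam C' fun a => ENNReal.ofReal (e' a)) (en R - en S) ≠ ∞ ∧
      |(Gam (gam C fun a => ENNReal.ofReal (e a)) (gam C' fun a => ENNReal.ofReal (e' a)) (en R - en S)).toReal - c| ≤ om)
    (hA : ms RA (fun R => ENNReal.ofReal (F R)) ≠ ∞) (hB : ms RB (fun R => ENNReal.ofReal (G R)) ≠ ∞) :
    |IP C C' RA RB e e' F G - c * (ms RA fun R => ENNReal.ofReal (F R)).toReal *
      (ms RB fun R => ENNReal.ofReal (G R)).toReal| ≤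
      om * ((ms RA fun R => ENNReal.ofReal (F R)).toReal * (ms RB fun R => ENNReal.ofReal (G R)).toReal) := by
  rw [exP_pol H hne he he' hF hG, ← exP_ofReal H hne he he' hF hG, exP_Gam H hne he he' hF hG hs]
  unfold ms at hA hB ⊢
  refine pair_abs (yA := en) (yB := en)
    (G := Gam (gam C fun a => ENNReal.ofReal (e a)) (gam C' fun a => ENNReal.ofReal (e' a))) hc hom ?_ hA hB
  intro R S hR hS
  have h1 : R ∈ RA := by
    by_contra h1
    exact hR (if_neg h1)
  have h2 : S ∈ RB := by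
    by_contra h2
    exact hS (if_neg h2)
  rw [if_pos h1] at hR
  rw [if_pos h2] at hS
  refine h R h1 (fun h3 => hR ?_) S h2 fun h3 => hS ?_
  · rw [h3, ENNReal.ofReal_zero, mul_zero]
  · rw [h3, ENNReal.ofReal_zero, mul_zero]

/-- the same from a sup bound of the first connection and the modulus of the second one: the error is `M L` -/
theorem exP_abs' (H : Hyp C C' RA RB) (hne : [] ∉ RA) (he : ∀ a, 0 ≤ e a) (he' : ∀ a, 0 ≤ e' a)
    (hF : ∀ R, 0 ≤ F R) (hG : ∀ R, 0 ≤ G R) (hs : Sep C RA RB e F G) {M L : ℝ≥0∞} {y0 : ℂ} (hM : M ≠ ∞)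
    (hL : L ≠ ∞) (hK : ∀ v, gam C (fun a => ENNReal.ofReal (e a)) v ≤ M)
    (hK' : ∑' v, gam C' (fun a => ENNReal.ofReal (e' a)) v ≠ ∞)
    (h1 : ∀ R ∈ RA, F R ≠ 0 → ∀ S ∈ RB, G S ≠ 0 →
      ∑' z, (gam C' (fun a => ENNReal.ofReal (e' a)) (z + (en R - en S)) -
        gam C' (fun a => ENNReal.ofReal (e' a)) (z + y0)) ≤ L ∧
      ∑' z, (gam C' (fun a => ENNReal.ofReal (e' a)) (z + y0) -
        gam C' (fun a => ENNReal.ofReal (e' a)) (z + (en R - en S))) ≤ L)
    (hA : ms RA (fun R => ENNReal.ofReal (F R)) ≠ ∞) (hB : ms RB (fun R => ENNReal.ofReal (G R)) ≠ ∞) :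
    |IP C C' RA RB e e' F G - (Gam (gam C fun a => ENNReal.ofReal (e a)) (gam C' fun a => ENNReal.ofReal (e' a)) y0).toReal *
        (ms RA fun R => ENNReal.ofReal (F R)).toReal * (ms RB fun R => ENNReal.ofReal (G R)).toReal| ≤
      M.toReal * L.toReal * ((ms RA fun R => ENNReal.ofReal (F R)).toReal * (ms RB fun R => ENNReal.ofReal (G R)).toReal) := by
  refine exP_abs H hne he he' hF hG hs ENNReal.toReal_nonneg (mul_nonneg ENNReal.toReal_nonneg ENNReal.toReal_nonneg)
    (fun R hR hR0 S hS hS0 => ?_) hA hB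
  obtain ⟨h4, h5⟩ := h1 R hR hR0 S hS hS0
  exact Gam_cont hM hL hK hK' h4 h5

end pol

/-! ### the modulus from the test form -/

/-- the sum of `gam` against a function of the displacement -/
theorem tsum_gam_mul (C : Set (W3 × W3)) (e : W3 × W3 → ℝ≥0∞) (Φ : ℂ → ℝ≥0∞) :
    ∑' z, gam C e z * Φ z = ∑' a : W3 × W3, (if a ∈ C then wx a.1 * wx a.2 * e a * Φ (en a.1 - en a.2) else 0) := by
  unfold gam
  have h1 : ∀ z, (∑' a : W3 × W3, if a ∈ C ∧ en a.1 - en a.2 = z then wx a.1 * wx a.2 * e a else 0) * Φ z =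
      ∑' a : W3 × W3, if a ∈ C ∧ en a.1 - en a.2 = z then wx a.1 * wx a.2 * e a * Φ z else 0 := by
    intro z
    rw [← ENNReal.tsum_mul_right]
    refine tsum_congr fun a => ?_
    split_ifs <;> simp
  simp only [h1]
  rw [ENNReal.tsum_comm]
  refine tsum_congr fun a => ?_
  by_cases ha : a ∈ C
  · rw [if_pos ha, tsum_eq_single (en a.1 - en a.2) fun z hz => if_neg fun h => hz h.2.symm, if_pos ⟨ha, rfl⟩]
  · rw [if_neg ha, ENNReal.tsum_eq_zero.2 fun z => if_neg fun h => ha h.1]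

/-- **the one-sided modulus**: if for every set of displacements the mass of the shifted set is at most the mass of the set
plus `L`, then the one-sided differences of `gam` sum to at most `L` -/
theorem gam_mod {C : Set (W3 × W3)} {e : W3 × W3 → ℝ≥0∞} {L : ℝ≥0∞} {y y' : ℂ} (hf : ∑' z, gam C e z ≠ ∞)
    (h : ∀ U : Set ℂ, ∑' z, gam C e (z + y) * U.indicator 1 z ≤ ∑' z, gam C e (z + y') * U.indicator 1 z + L) :
    ∑' z, (gam C e (z + y) - gam C e (z + y')) ≤ L := by
  set U : Set ℂ := {z | gam C e (z + y') < gam C e (z + y)} with hU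
  have h1 := h U
  have h2 : ∑' z, gam C e (z + y') * U.indicator 1 z ≠ ∞ := by
    refine ne_top_of_le_ne_top hf ?_
    calc ∑' z, gam C e (z + y') * U.indicator 1 z ≤ ∑' z, gam C e (z + y') := ENNReal.tsum_le_tsum fun z => by
          by_cases hz : z ∈ U
          · rw [Set.indicator_of_mem hz, Pi.one_apply, mul_one]
          · rw [Set.indicator_of_notMem hz, mul_zero]
            exact zero_le
      _ = ∑' z, gam C e z := (Equiv.addRight y').tsum_eq fun z => gam C e z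
  have h3 : ∑' z, gam C e (z + y) * U.indicator 1 z =
      ∑' z, gam C e (z + y') * U.indicator 1 z + ∑' z, (gam C e (z + y) - gam C e (z + y')) := by
    rw [← ENNReal.tsum_add]
    refine tsum_congr fun z => ?_
    by_cases hz : z ∈ U
    · rw [Set.indicator_of_mem hz, Pi.one_apply, mul_one, mul_one]
      exact (add_tsub_cancel_of_le (le_of_lt hz)).symm
    · rw [Set.indicator_of_notMem hz, mul_zero, mul_zero, zero_add]
      rw [hU, Set.mem_ofPred_eq, not_lt] at hz
      exact (tsub_eq_zero_of_le hz).symm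
  rw [h3] at h1
  exact ENNReal.le_of_add_le_add_left h2 h1

/-- the same from sums over the connections: `v` = the shift of the displacement -/
theorem gam_mod2 {C : Set (W3 × W3)} {e : W3 × W3 → ℝ≥0∞} {L : ℝ≥0∞} {v : ℂ} (hf : ∑' z, gam C e z ≠ ∞)
    (h : ∀ U : Set ℂ,
      ∑' a : W3 × W3, (if a ∈ C then wx a.1 * wx a.2 * e a * U.indicator 1 (en a.1 - en a.2 - v) else 0) ≤
        ∑' a : W3 × W3, (if a ∈ C then wx a.1 * wx a.2 * e a * U.indicator 1 (en a.1 - en a.2) else 0) + L)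
    {y y' : ℂ} (hy : y - y' = v) : ∑' z, (gam C e (z + y) - gam C e (z + y')) ≤ L := by
  have h1 : ∑' z, (gam C e (z + y) - gam C e (z + y')) = ∑' z, (gam C e (z + v) - gam C e (z + 0)) := by
    rw [← (Equiv.addRight y').tsum_eq fun z => gam C e (z + v) - gam C e (z + 0)]
    refine tsum_congr fun z => ?_
    rw [Equiv.coe_addRight, ← hy, add_zero]
    congr 2
    ring
  rw [h1]
  refine gam_mod hf fun U => ?_
  have h2 := h U
  rw [← tsum_gam_mul C e fun z => U.indicator 1 (z - v), ← tsum_gam_mul C e fun z => U.indicator 1 z] at h2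
  rw [← (Equiv.addRight v).tsum_eq fun z => gam C e z * U.indicator 1 (z - v)] at h2
  simp only [Equiv.coe_addRight, add_sub_cancel_right] at h2
  simpa only [add_zero] using h2

end Pool.Agent.ROT.F3
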