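import Pool.Agent.ROT.FTwo
import Pool.Agent.TSW.All

/-!
# ROT, block F2 (helper88), part b: the windows of the walks

* `stF_q` : **(f)** for every `Q` with the densities; `win_fun` : functionals of the window of the turns;
* **`win_law`** : the window of the walk from the time `k` to the time `k + m`, divided by `m ^ (3 / 4)`, has the law of `Y_m`, and is
  asymptotically independent of the whole walk (even functionals, invariant under the rotation by 120 degrees);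
* **`win_rot`** : the window is asymptotically rotation invariant, from the polygons.
-/

set_option autoImplicit false

open Set Filter Topology MeasureTheory

open scoped ENNReal

namespace Pool.Agent.ROT

open Pool.Agent.TSW Pool.Agent.TSW.Sym Pool.Agent.TSW.E Pool.Agent.NTS.Res

variable {Q : Measure (ℤ → Bool)}

theorem stF_q (hQ : QOk Q) : StF Q := stF_of ⟨hQ.1.1, hQ.2⟩ (shiftT bc1) (bc3 ⟨hQ.1.1, hQ.2⟩)

/-! ### 1. The window of the turns -/

/-- the future window as a two-sided window -/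
lemma cyl_half {m : ℕ} (S : Set (Fin m → Bool)) :
    cyl (-(m : ℤ)) {x : Fin (2 * m) → Bool | (fun j : Fin m => x ⟨m + j, by omega⟩) ∈ S} = cyl 0 S := by
  ext ω
  rw [mem_cyl, mem_cyl, Set.mem_ofPred_eq]
  have e : (fun j : Fin m => ω (-(m : ℤ) + ((⟨m + j, by omega⟩ : Fin (2 * m)) : ℕ))) = fun j : Fin m => ω (0 + (j : ℕ)) := by
    funext j
    congr 1
    push_cast
    ring
  rw [e]

/-- (f) for the future window -/
lemma stF_half (hF : StF Q) : ∀ ε : ℝ, 0 < ε → ∃ δ : ℝ, 0 < δ ∧ ∀ n k m : ℕ, ε * n ≤ k → k ≤ (1 - ε) * n → m ≤ δ * n →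
    ∀ (S : Set (Fin m → Bool)) (G : C(unitInterval, ℂ) → ℝ), (∀ γ, |G γ| ≤ 1) → LipschitzWith 1 G → (∀ γ, G (-γ) = G γ) →
      |(∑ s ∈ saw n, @ite ℝ ((fun j : Fin m => turn s (k + j)) ∈ S) (Classical.propDecidable _) (G (curve s)) 0) /
        ((saw n).card : ℝ) - Q.real (cyl 0 S) * ∫ γ, G γ ∂(law n)| ≤ ε := by
  classical
  intro ε hε
  obtain ⟨δ, hδ, h⟩ := hF ε hε
  refine ⟨δ, hδ, fun n k m hk1 hk2 hm S G hG hL hs => ?_⟩
  have h1 := h n k m hk1 hk2 hm {x : Fin (2 * m) → Bool | (fun j : Fin m => x ⟨m + j, by omega⟩) ∈ S} G hG hL hs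
  rw [cyl_half] at h1
  have h2 : ∀ s : Fin n → Fin 3, seen s k ∈ cyl 0 S ↔ (fun j : Fin m => turn s (k + j)) ∈ S := by
    intro s
    have h3 := seen_cyl s (i := k) (a := 0) (by omega) S
    rw [h3]
    have e : (((k : ℕ) : ℤ) + 0).toNat = k := by omega
    rw [e]
  simp only [h2] at h1
  convert h1 using 6

/-- functionals of the window of the turns -/
theorem win_fun (hQ : QOk Q) : ∀ ε : ℝ, 0 < ε → ∃ δ : ℝ, 0 < δ ∧ ∀ n k m : ℕ, ε * n ≤ k → k ≤ (1 - ε) * n → m ≤ δ * n →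
    ∀ (Φ : (Fin m → Bool) → ℝ), (∀ x, 0 ≤ Φ x ∧ Φ x ≤ 1) → ∀ G : C(unitInterval, ℂ) → ℝ, (∀ γ, |G γ| ≤ 1) →
      LipschitzWith 1 G → (∀ γ, G (-γ) = G γ) →
      |(∑ s ∈ saw n, Φ (fun j : Fin m => turn s (k + j)) * G (curve s)) / ((saw n).card : ℝ) -
        qm Q Φ * ∫ γ, G γ ∂(law n)| ≤ ε := by
  classical
  have : IsProbabilityMeasure Q := hQ.1.1
  intro ε hε
  obtain ⟨δ, hδ, h⟩ := stF_half (stF_q hQ) ε hε
  refine ⟨δ, hδ, fun n k m hk1 hk2 hm Φ hΦ G hG hL hs => ?_⟩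
  obtain ⟨I, hI⟩ : ∃ I : ℝ, I = ∫ γ, G γ ∂(law n) := ⟨_, rfl⟩
  obtain ⟨a, ha⟩ : ∃ a : (Fin m → Bool) → ℝ, a = fun x =>
    (∑ s ∈ saw n, if (fun j : Fin m => turn s (k + j)) = x then G (curve s) else 0) / ((saw n).card : ℝ) -
      Q.real (cyl 0 {x}) * I := ⟨_, rfl⟩
  -- the sums over the sets
  have hS : ∀ S : Finset (Fin m → Bool), |∑ x ∈ S, a x| ≤ ε := by
    intro S
    have h1 := h n k m hk1 hk2 hm (S : Set (Fin m → Bool)) G hG hL hs
    rw [← hI] at h1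
    have e1 : ∑ x ∈ S, a x = (∑ s ∈ saw n, @ite ℝ ((fun j : Fin m => turn s (k + j)) ∈ (S : Set (Fin m → Bool)))
        (Classical.propDecidable _) (G (curve s)) 0) / ((saw n).card : ℝ) - Q.real (cyl 0 (S : Set (Fin m → Bool))) * I := by
      have e0 : ∑ x ∈ S, (∑ s ∈ saw n, if (fun j : Fin m => turn s (k + j)) = x then G (curve s) else 0) =
          ∑ s ∈ saw n, @ite ℝ ((fun j : Fin m => turn s (k + j)) ∈ (S : Set (Fin m → Bool)))
            (Classical.propDecidable _) (G (curve s)) 0 := by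
        rw [Finset.sum_comm]
        refine Finset.sum_congr rfl fun s _ => ?_
        rw [Finset.sum_ite_eq]
        by_cases h2 : (fun j : Fin m => turn s (k + j)) ∈ S
        · rw [if_pos h2, if_pos (Finset.mem_coe.2 h2)]
        · rw [if_neg h2, if_neg fun h3 => h2 (Finset.mem_coe.1 h3)]
      have e3 : ∑ x ∈ S, Q.real (cyl 0 ({x} : Set (Fin m → Bool))) = Q.real (cyl 0 (S : Set (Fin m → Bool))) := by
        have e2 : cyl 0 (S : Set (Fin m → Bool)) = ⋃ x ∈ S, cyl 0 ({x} : Set (Fin m → Bool)) := by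
          ext ω
          simp only [Set.mem_iUnion, mem_cyl, Set.mem_singleton_iff, exists_prop, exists_eq_right', Finset.mem_coe]
        rw [e2, measureReal_biUnion_finset]
        · intro x _ y _ hxy
          rw [Function.onFun, Set.disjoint_left]
          intro ω h3 h4
          rw [mem_cyl, Set.mem_singleton_iff] at h3 h4
          exact hxy (h3.symm.trans h4)
        · intro x _
          exact measurableSet_cyl _ _
      rw [ha]
      simp only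
      rw [Finset.sum_sub_distrib, ← Finset.sum_div, ← Finset.sum_mul, e0, e3]
    rw [e1]
    exact h1
  -- the functional
  have e : (∑ s ∈ saw n, Φ (fun j : Fin m => turn s (k + j)) * G (curve s)) / ((saw n).card : ℝ) - qm Q Φ * I =
      ∑ x, Φ x * a x := by
    have e1 : ∀ s : Fin n → Fin 3, Φ (fun j : Fin m => turn s (k + j)) * G (curve s) =
        ∑ x, Φ x * if (fun j : Fin m => turn s (k + j)) = x then G (curve s) else 0 := by
      intro s
      simp only [mul_ite, mul_zero]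
      rw [Finset.sum_ite_eq, if_pos (Finset.mem_univ _)]
    rw [Finset.sum_congr rfl fun s _ => e1 s, Finset.sum_comm]
    unfold qm
    rw [Finset.sum_mul, Finset.sum_div, ← Finset.sum_sub_distrib]
    refine Finset.sum_congr rfl fun x _ => ?_
    rw [ha, ← Finset.mul_sum]
    ring
  rw [← hI, e]
  have hup : ∀ x, Φ x * a x ≤ if 0 ≤ a x then a x else 0 := by
    intro x
    split_ifs with h1
    · have := mul_le_mul_of_nonneg_right (hΦ x).2 h1
      linarith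
    · exact mul_nonpos_of_nonneg_of_nonpos (hΦ x).1 (not_le.1 h1).le
  have hlo : ∀ x, (if a x ≤ 0 then a x else 0) ≤ Φ x * a x := by
    intro x
    split_ifs with h1
    · have := mul_le_mul_of_nonpos_right (hΦ x).2 h1
      linarith
    · exact mul_nonneg (hΦ x).1 (not_le.1 h1).le
  rw [abs_le]
  constructor
  · refine le_trans ?_ (Finset.sum_le_sum fun x _ => hlo x)
    rw [← Finset.sum_filter]
    exact (abs_le.1 (hS _)).1
  · refine (Finset.sum_le_sum fun x _ => hup x).trans ?_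
    rw [← Finset.sum_filter]
    exact (abs_le.1 (hS _)).2

/-! ### 2. Three directions and six directions -/

/-- average over the three rotations -/
noncomputable def av3 (F : CI → ℝ) (γ : CI) : ℝ := 3⁻¹ * (F γ + F (ex 2 • γ) + F (ex 4 • γ))

lemma ex_zero : ex 0 = 1 := by
  unfold ex
  simp

lemma av3_rot (F : CI → ℝ) (γ : CI) : av3 F (ex 2 • γ) = av3 F γ := by
  unfold av3
  rw [smul_smul, smul_smul, ← ex_add, ← ex_add]
  have h1 : ex (4 + 2) = 1 := ex_six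
  have h2 : ex (2 + 2) = ex 4 := by norm_num
  rw [h1, h2, one_smul]
  ring

lemma av3_rot' (F : CI → ℝ) (j : ℕ) (γ : CI) : av3 F (ex (2 * (j : ℤ)) • γ) = av3 F γ := by
  induction j with
  | zero => rw [Nat.cast_zero, mul_zero, ex_zero, one_smul]
  | succ j ih =>
    have e : ex (2 * ((j + 1 : ℕ) : ℤ)) • γ = ex 2 • (ex (2 * (j : ℤ)) • γ) := by
      rw [smul_smul, ← ex_add]
      congr 2
      push_cast
      ring
    rw [e, av3_rot, ih]

lemma av_av3 (F : CI → ℝ) (γ : CI) : 2 * av F γ = av3 F γ + av3 F (ex 3 • γ) := by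
  unfold av av3
  rw [Fin.sum_univ_six, smul_smul, smul_smul, ← ex_add, ← ex_add]
  have e0 : ex (((0 : Fin 6) : ℕ) : ℤ) = 1 := ex_zero
  have e1 : ex (((1 : Fin 6) : ℕ) : ℤ) = ex (4 + 3) := by
    have : (4 + 3 : ℤ) = 6 + 1 := by norm_num
    rw [this, ex_add, ex_six, one_mul]
    rfl
  have e2 : ex (((2 : Fin 6) : ℕ) : ℤ) = ex 2 := rfl
  have e3 : ex (((3 : Fin 6) : ℕ) : ℤ) = ex 3 := rfl
  have e4 : ex (((4 : Fin 6) : ℕ) : ℤ) = ex 4 := rfl
  have e5 : ex (((5 : Fin 6) : ℕ) : ℤ) = ex (2 + 3) := rfl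
  rw [e0, e1, e2, e3, e4, e5, one_smul]
  ring

lemma av3_bd {F : CI → ℝ} (hF : ∀ γ, 0 ≤ F γ ∧ F γ ≤ 1) (γ : CI) : 0 ≤ av3 F γ ∧ av3 F γ ≤ 1 := by
  unfold av3
  have h0 := hF γ
  have h1 := hF (ex 2 • γ)
  have h2 := hF (ex 4 • γ)
  constructor
  · linarith [h0.1, h1.1, h2.1]
  · linarith [h0.2, h1.2, h2.2]

/-! ### 3. The window of the walk -/

lemma om_ex : NTSF.om = ex 2 := by
  unfold NTSF.om ex
  congr 1
  push_cast
  ring

lemma pos_om {n : ℕ} (s : Fin n → Fin 3) (k : ℕ) : pos (NTSF.rot s) k = ex 2 * pos s k := by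
  rw [NTSF.pos_rot, om_ex]

lemma Wf_om {n : ℕ} (s : Fin n → Fin 3) (x : ℝ) : Wf (pos (NTSF.rot s)) x = ex 2 * Wf (pos s) x := by
  unfold Wf WK
  rw [Finset.mul_sum]
  refine Finset.sum_congr rfl fun j _ => ?_
  rw [pos_om, pos_om]
  ring

lemma Vc_om {n : ℕ} (s : Fin n → Fin 3) (y k : ℝ) : Vc (NTSF.rot s) y k = ex 2 • Vc s y k := by
  ext u
  rw [ContinuousMap.smul_apply, Vc_apply, Vc_apply, Wf_om, Wf_om, smul_eq_mul]
  ring

lemma curve_om {n : ℕ} (s : Fin n → Fin 3) : curve (NTSF.rot s) = ex 2 • curve s := by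
  ext u
  rw [ContinuousMap.smul_apply, curve_Wf, curve_Wf, Wf_om, smul_eq_mul]
  ring

lemma sum_saw_rot {n : ℕ} (g : (Fin n → Fin 3) → ℝ) : ∑ s ∈ saw n, g (NTSF.rot s) = ∑ s ∈ saw n, g s := by
  refine Finset.sum_bij (fun s _ => NTSF.rot s) (fun s hs => NTSF.rot_mem.2 hs) ?_ ?_ (fun _ _ => rfl)
  · intro s _ s' _ h
    funext i
    have h3 : s i + 1 = s' i + 1 := congrFun h i
    exact add_right_cancel h3
  · intro s hs
    have e : NTSF.rot (fun i => s i - 1) = s := by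
      funext i
      show s i - 1 + 1 = s i
      rw [sub_add_cancel]
    refine ⟨fun i => s i - 1, ?_, e⟩
    rw [← NTSF.rot_mem, e]
    exact hs

/-- the window of the walk from the time `k` to the time `k + m`, divided by `m ^ (3 / 4)` -/
noncomputable def wz {n : ℕ} (s : Fin n → Fin 3) (k m : ℕ) : CI := ((((m : ℝ) ^ (3 / 4 : ℝ) : ℝ) : ℂ))⁻¹ • Vc s k m

lemma wz_om {n : ℕ} (s : Fin n → Fin 3) (k m : ℕ) : wz (NTSF.rot s) k m = ex 2 • wz s k m := by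
  unfold wz
  rw [Vc_om, smul_comm]

/-- the functional of the window: only the mean over the three rotations counts -/
lemma sum_av3 {n : ℕ} (F G : CI → ℝ) (hG : ∀ γ, G (ex 2 • γ) = G γ) (k m : ℕ) :
    ∑ s ∈ saw n, F (wz s k m) * G (curve s) = ∑ s ∈ saw n, av3 F (wz s k m) * G (curve s) := by
  have h1 := sum_saw_rot (n := n) fun s => F (wz s k m) * G (curve s)
  have h2 := sum_saw_rot (n := n) fun s => F (wz (NTSF.rot s) k m) * G (curve (NTSF.rot s))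
  simp only [wz_om, curve_om, hG] at h1 h2
  have e : ∀ s : Fin n → Fin 3, av3 F (wz s k m) * G (curve s) =
      3⁻¹ * (F (wz s k m) * G (curve s) + F (ex 2 • wz s k m) * G (curve s) + F (ex 2 • ex 2 • wz s k m) * G (curve s)) := by
    intro s
    unfold av3
    rw [smul_smul, ← ex_add]
    norm_num
    ring
  rw [Finset.sum_congr rfl fun s _ => e s, ← Finset.mul_sum, Finset.sum_add_distrib, Finset.sum_add_distrib, h2, h1]
  ring

lemma step_ex' (i : ℕ) (a : Fin 3) : step i a = ex (3 * (i : ℤ)) * ex (2 * ((a : ℕ) : ℤ)) := by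
  rw [step_w6, ← ex_add]
  unfold w6 ex
  rw [← Complex.exp_nat_mul]
  have h1 : (-1 : ℂ) = Complex.exp (Real.pi * Complex.I) := Complex.exp_pi_mul_I.symm
  rw [h1, ← Complex.exp_nat_mul, ← Complex.exp_add]
  congr 1
  push_cast
  ring

/-- the window of the walk from the turns -/
lemma wz_turns {n : ℕ} {s : Fin n → Fin 3} (hs : s ∈ saw n) {k m : ℕ} (hm : 0 < m) (hk : k + m ≤ n) :
    wz s k m = (ex (2 * (((s ⟨k, by omega⟩ : Fin 3) : ℕ) : ℤ))) • ex (3 * (k : ℤ)) •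
      ycurve m 1 (xt m fun l : Fin m => turn s (k + l)) := by
  obtain ⟨c, hc⟩ : ∃ c : ℂ, c = ex (3 * (k : ℤ)) * ex (2 * (((s ⟨k, by omega⟩ : Fin 3) : ℕ) : ℤ)) := ⟨_, rfl⟩
  have hstep : step k (s ⟨k, by omega⟩) = c := by rw [hc, step_ex']
  rw [smul_smul, mul_comm, ← hc]
  obtain ⟨ω, hω⟩ : ∃ ω, ω = xt m fun l : Fin m => turn s (k + l) := ⟨_, rfl⟩
  rw [← hω]
  have hm0 : (0 : ℝ) < m := by exact_mod_cast hm
  have hmp : (0 : ℝ) < (m : ℝ) ^ (3 / 4 : ℝ) := Real.rpow_pos_of_pos hm0 _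
  have hone : ‖(1 : ℂ)‖ = 1 := norm_one
  ext u
  have hu0 : (0 : ℝ) ≤ u := u.2.1
  have hu1 : (u : ℝ) ≤ 1 := u.2.2
  have huk : (u : ℝ) * m ≤ m := mul_le_of_le_one_left hm0.le hu1
  unfold wz
  rw [ycurve_eq hone, ContinuousMap.smul_apply, ContinuousMap.smul_apply, smul_eq_mul, smul_eq_mul, Yr_apply, Vc_apply,
    Wf_shift (pos s) k (by positivity), mul_comm (m : ℝ) (u : ℝ), ← WK_eq (zz 1 ω) huk, ← WK_eq (fun j => pos s (k + j)) huk]
  rw [Real.rpow_neg hm0.le, Complex.ofReal_inv, mul_left_comm c]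
  congr 1
  unfold WK
  rw [Finset.mul_sum]
  refine Finset.sum_congr rfl fun j hj => ?_
  rw [Finset.mem_range] at hj
  have h1 : pos s (k + (j + 1)) - pos s (k + j) = c * ex (sm ω j) := by
    have h2 := NTSF.pos_succ s (k + j) (by omega)
    have h3 : pos s (k + (j + 1)) = pos s (k + j + 1) := rfl
    rw [h3, h2, add_sub_cancel_left, step_sum hs (by omega), hstep, hω, sm_xt s k m (by omega)]
    rfl
  rw [h1, zz_succ, one_mul]
  ring

/-- the functional of the turns with the parity `k` -/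
noncomputable def Ph3 (m k : ℕ) (F : CI → ℝ) (τ : Fin m → Bool) : ℝ := av3 F (ex (3 * (k : ℤ)) • ycurve m 1 (xt m τ))

lemma Ph3_win {n : ℕ} {s : Fin n → Fin 3} (hs : s ∈ saw n) {k m : ℕ} (hm : 0 < m) (hk : k + m ≤ n) (F : CI → ℝ) :
    av3 F (wz s k m) = Ph3 m k F (fun l : Fin m => turn s (k + l)) := by
  unfold Ph3
  rw [wz_turns hs hm hk, av3_rot']

lemma Ph3_add {m : ℕ} (hm : 0 < m) (k : ℕ) (F : CI → ℝ) (τ : Fin m → Bool) :
    Ph3 m k F τ + Ph3 m (k + 1) F τ = 2 * Ph m ((m : ℝ) ^ (3 / 4 : ℝ)) F τ := by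
  have hm0 : (0 : ℝ) < m := by exact_mod_cast hm
  have hmp : (0 : ℝ) < (m : ℝ) ^ (3 / 4 : ℝ) := Real.rpow_pos_of_pos hm0 _
  have e : ex (3 * ((k + 1 : ℕ) : ℤ)) • ycurve m 1 (xt m τ) = ex 3 • ex (3 * (k : ℤ)) • ycurve m 1 (xt m τ) := by
    rw [smul_smul, ← ex_add]
    congr 2
    push_cast
    ring
  unfold Ph3 Ph
  rw [e, ← av_av3, av_rot, div_self hmp.ne', Complex.ofReal_one, one_smul]

lemma qm_add {m : ℕ} (Φ Ψ : (Fin m → Bool) → ℝ) : qm Q Φ + qm Q Ψ = qm Q fun τ => Φ τ + Ψ τ := by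
  unfold qm
  rw [← Finset.sum_add_distrib]
  exact Finset.sum_congr rfl fun τ _ => by ring

lemma qm_mul {m : ℕ} (c : ℝ) (Φ : (Fin m → Bool) → ℝ) : (qm Q fun τ => c * Φ τ) = c * qm Q Φ := by
  unfold qm
  rw [Finset.mul_sum]
  exact Finset.sum_congr rfl fun τ _ => by ring

/-- the shift of the window by one step -/
lemma wz_succ {n : ℕ} (s : Fin n → Fin 3) (k m : ℕ) : ‖wz s (k + 1) m - wz s k m‖ ≤ 2 / (m : ℝ) ^ (3 / 4 : ℝ) := by
  have h0 : (0 : ℝ) ≤ (m : ℝ) ^ (3 / 4 : ℝ) := by positivity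
  unfold wz
  have e : ((((m : ℝ) ^ (3 / 4 : ℝ) : ℝ) : ℂ))⁻¹ • Vc s ((k + 1 : ℕ) : ℝ) m - ((((m : ℝ) ^ (3 / 4 : ℝ) : ℝ) : ℂ))⁻¹ • Vc s k m =
    ((((m : ℝ) ^ (3 / 4 : ℝ) : ℝ) : ℂ))⁻¹ • (Vc s ((k + 1 : ℕ) : ℝ) m - Vc s k m) := (smul_sub _ _ _).symm
  rw [e, norm_smul, norm_inv, Complex.norm_real, Real.norm_eq_abs, abs_of_nonneg h0, inv_mul_eq_div]
  refine div_le_div_of_nonneg_right ?_ h0
  refine (Vc_dist s _ _ _).trans (le_of_eq ?_)
  push_cast
  rw [add_sub_cancel_left, abs_one, mul_one]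

/-- **the window and the walk**, functionals with values in `[0, 1]` -/
theorem win_law01 (hQ : QOk Q) : ∀ ε : ℝ, 0 < ε → ∃ (δ : ℝ) (m0 : ℕ), 0 < δ ∧ δ ≤ 1 ∧ ∀ n k m : ℕ, ε * n ≤ k → k ≤ (1 - ε) * n →
    m0 ≤ m → m ≤ δ * n → ∀ F G : C(unitInterval, ℂ) → ℝ, (∀ γ, 0 ≤ F γ ∧ F γ ≤ 1) → LipschitzWith 1 F → (∀ γ, |G γ| ≤ 1) →
      LipschitzWith 1 G → (∀ γ, G (-γ) = G γ) → (∀ γ, G (ex 2 • γ) = G γ) →
      |(∑ s ∈ saw n, F (wz s k m) * G (curve s)) / ((saw n).card : ℝ) -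
        qm Q (Ph m ((m : ℝ) ^ (3 / 4 : ℝ)) F) * ∫ γ, G γ ∂(law n)| ≤ ε := by
  intro ε hε
  obtain ⟨ε1, hε1⟩ : ∃ ε1 : ℝ, ε1 = ε / 2 := ⟨_, rfl⟩
  have he1 : 0 < ε1 := by rw [hε1]; positivity
  obtain ⟨δ1, hδ1, h⟩ := win_fun hQ ε1 he1
  -- the scale
  have hlim : Tendsto (fun m : ℕ => (m : ℝ) ^ (3 / 4 : ℝ)) atTop atTop :=
    (tendsto_rpow_atTop (show (0 : ℝ) < 3 / 4 by norm_num)).comp tendsto_natCast_atTop_atTop
  obtain ⟨m1, hm1⟩ := (tendsto_atTop.1 hlim (2 / ε1)).exists_forall_of_atTop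
  obtain ⟨m2, hm2⟩ := exists_nat_ge (2 / ε1)
  refine ⟨min δ1 (min (ε1 / 2) 1), m1 + m2 + 1, by positivity, (min_le_right _ _).trans (min_le_right _ _), ?_⟩
  intro n k m hk1 hk2 hm0 hm F G hF hFL hG hGL hGe hGr
  obtain ⟨δ, hδ⟩ : ∃ δ : ℝ, δ = min δ1 (min (ε1 / 2) 1) := ⟨_, rfl⟩
  rw [← hδ] at hm
  have hd1 : δ ≤ δ1 := by rw [hδ]; exact min_le_left _ _
  have hd2 : δ ≤ ε1 / 2 := by rw [hδ]; exact (min_le_right _ _).trans (min_le_left _ _)
  have hd3 : δ ≤ 1 := by rw [hδ]; exact (min_le_right _ _).trans (min_le_right _ _)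
  have hn0 : (0 : ℝ) ≤ n := Nat.cast_nonneg n
  have hmr : (0 : ℝ) < m := by
    have : 0 < m := by omega
    exact_mod_cast this
  have hmn : (m : ℝ) ≤ n := by
    have := mul_le_mul_of_nonneg_right hd3 hn0
    linarith
  have h2n : 2 ≤ ε1 * n := by
    have h1 : (m2 : ℝ) ≤ n := by
      have : (m2 : ℝ) ≤ m := by exact_mod_cast (show m2 ≤ m by omega)
      linarith
    have h2 := mul_le_mul_of_nonneg_left (hm2.trans h1) he1.le
    rwa [mul_div_cancel₀ _ he1.ne'] at h2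
  have hεn : ε * n = 2 * (ε1 * n) := by rw [hε1]; ring
  have hc := NTSF.saw_card_pos n
  have hb : 2 / ε1 ≤ (m : ℝ) ^ (3 / 4 : ℝ) := hm1 m (by omega)
  have hbp : (0 : ℝ) < (m : ℝ) ^ (3 / 4 : ℝ) := Real.rpow_pos_of_pos hmr _
  have hb2 : 2 / (m : ℝ) ^ (3 / 4 : ℝ) ≤ ε1 := by
    rw [div_le_iff₀ he1] at hb
    rw [div_le_iff₀ hbp]
    linarith
  have hmδ1 : (m : ℝ) ≤ δ1 * n := hm.trans (mul_le_mul_of_nonneg_right hd1 hn0)
  have hmδ2 : (m : ℝ) ≤ ε1 / 2 * n := hm.trans (mul_le_mul_of_nonneg_right hd2 hn0)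
  have hk3 : k + 1 + m ≤ n := by
    have : ((k + 1 + m : ℕ) : ℝ) ≤ n := by
      push_cast
      nlinarith
    exact_mod_cast this
  obtain ⟨I, hI⟩ : ∃ I : ℝ, I = ∫ γ, G γ ∂(law n) := ⟨_, rfl⟩
  -- the two means
  obtain ⟨A, hA⟩ : ∃ A : ℕ → ℝ, A = fun k => (∑ s ∈ saw n, F (wz s k m) * G (curve s)) / ((saw n).card : ℝ) := ⟨_, rfl⟩
  have key : ∀ k' : ℕ, ε1 * n ≤ k' → (k' : ℝ) ≤ (1 - ε1) * n → k' + m ≤ n → |A k' - qm Q (Ph3 m k' F) * I| ≤ ε1 := by
    intro k' h1 h2 h3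
    have h4 := h n k' m h1 h2 hmδ1 (Ph3 m k' F) (fun τ => av3_bd hF _) G hG hGL hGe
    rw [← hI] at h4
    have e : A k' = (∑ s ∈ saw n, Ph3 m k' F (fun j : Fin m => turn s (k' + j)) * G (curve s)) / ((saw n).card : ℝ) := by
      rw [hA]
      simp only
      rw [sum_av3 F G hGr]
      congr 1
      exact Finset.sum_congr rfl fun s hs => by rw [Ph3_win hs (by omega) h3]
    rw [e]
    exact h4
  have g1 := key k (by linarith) (by linarith) (by omega)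
  have g2 := key (k + 1) (by push_cast; linarith) (by push_cast; linarith) (by omega)
  have g3 : |A (k + 1) - A k| ≤ ε1 := by
    rw [hA]
    simp only
    rw [← sub_div, ← Finset.sum_sub_distrib, abs_div, abs_of_pos hc, div_le_iff₀ hc]
    refine (Finset.abs_sum_le_sum_abs _ _).trans ?_
    refine (Finset.sum_le_card_nsmul _ _ ε1 fun s _ => ?_).trans (by rw [nsmul_eq_mul, mul_comm])
    rw [← sub_mul, abs_mul]
    have h5 : |F (wz s (k + 1) m) - F (wz s k m)| ≤ ε1 := by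
      have h6 := hFL.dist_le_mul (wz s (k + 1) m) (wz s k m)
      rw [Real.dist_eq, dist_eq_norm, NNReal.coe_one, one_mul] at h6
      exact h6.trans ((wz_succ s k m).trans hb2)
    calc |F (wz s (k + 1) m) - F (wz s k m)| * |G (curve s)| ≤ ε1 * 1 :=
          mul_le_mul h5 (hG _) (abs_nonneg _) he1.le
      _ = ε1 := mul_one _
  have e : qm Q (Ph3 m k F) * I + qm Q (Ph3 m (k + 1) F) * I = 2 * (qm Q (Ph m ((m : ℝ) ^ (3 / 4 : ℝ)) F) * I) := by
    rw [← add_mul, qm_add]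
    have : (fun τ => Ph3 m k F τ + Ph3 m (k + 1) F τ) = fun τ => 2 * Ph m ((m : ℝ) ^ (3 / 4 : ℝ)) F τ :=
      funext fun τ => Ph3_add (by omega) k F τ
    rw [this, qm_mul]
    ring
  have hAk : (∑ s ∈ saw n, F (wz s k m) * G (curve s)) / ((saw n).card : ℝ) = A k := by rw [hA]
  rw [hAk, ← hI]
  rw [abs_le] at g1 g2 g3 ⊢
  have hε2 : ε = 2 * ε1 := by rw [hε1]; ring
  constructor <;> linarith [g1.1, g1.2, g2.1, g2.2, g3.1, g3.2]

/-- **the window of the walk has the law of `Y_m`, and is asymptotically independent of the walk** -/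
theorem win_law (hQ : QOk Q) : ∀ ε : ℝ, 0 < ε → ∃ (δ : ℝ) (m0 : ℕ), 0 < δ ∧ ∀ n k m : ℕ, ε * n ≤ k → k ≤ (1 - ε) * n →
    m0 ≤ m → m ≤ δ * n → ∀ F G : C(unitInterval, ℂ) → ℝ, (∀ γ, |F γ| ≤ 1) → LipschitzWith 1 F → (∀ γ, |G γ| ≤ 1) →
      LipschitzWith 1 G → (∀ γ, G (-γ) = G γ) → (∀ γ, G (ex 2 • γ) = G γ) →
      |(∑ s ∈ saw n, F (wz s k m) * G (curve s)) / ((saw n).card : ℝ) - (∫ γ, F γ ∂(ylaw Q m)) * ∫ γ, G γ ∂(law n)| ≤ ε := by
  intro ε hε
  obtain ⟨ε1, hε1⟩ : ∃ ε1 : ℝ, ε1 = ε / 2 := ⟨_, rfl⟩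
  have he1 : 0 < ε1 := by rw [hε1]; positivity
  obtain ⟨δ, m0, hδ, -, h⟩ := win_law01 hQ ε1 he1
  refine ⟨δ, m0 + 1, hδ, fun n k m hk1 hk2 hm0 hm F G hF hFL hG hGL hGe hGr => ?_⟩
  have hQp : IsProbabilityMeasure Q := hQ.1.1
  have hyp := ylaw_prob hQp m
  have hc := NTSF.saw_card_pos n
  have hn0 : (0 : ℝ) ≤ n := Nat.cast_nonneg n
  have hle : ε1 * n ≤ ε * n := by
    refine mul_le_mul_of_nonneg_right ?_ hn0
    rw [hε1]
    linarith
  obtain ⟨F', hF'⟩ : ∃ F' : CI → ℝ, F' = fun γ => (F γ + 1) / 2 := ⟨_, rfl⟩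
  have h01 : ∀ γ, 0 ≤ F' γ ∧ F' γ ≤ 1 := fun γ => by
    have h1 := abs_le.1 (hF γ)
    rw [hF']
    constructor
    · show 0 ≤ (F γ + 1) / 2
      linarith [h1.1]
    · show (F γ + 1) / 2 ≤ 1
      linarith [h1.2]
  have hL' : LipschitzWith 1 F' := by
    refine LipschitzWith.of_dist_le_mul fun γ γ' => ?_
    have h1 := hFL.dist_le_mul γ γ'
    rw [Real.dist_eq] at h1
    rw [hF', Real.dist_eq]
    have e : (F γ + 1) / 2 - (F γ' + 1) / 2 = (F γ - F γ') / 2 := by ring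
    simp only [e]
    rw [abs_div, abs_of_pos (by norm_num : (0 : ℝ) < 2)]
    have := abs_nonneg (F γ - F γ')
    linarith
  have h1 := h n k m (by linarith) (by linarith) (by omega) hm F' G h01 hL' hG hGL hGe hGr
  rw [← ylaw_qm hQp (by omega) hL'.continuous h01] at h1
  have hi : Integrable F (ylaw Q m) :=
    Integrable.of_bound hFL.continuous.aestronglyMeasurable 1 (Eventually.of_forall fun γ => hF γ)
  have e1 : ∫ γ, F' γ ∂(ylaw Q m) = (∫ γ, F γ ∂(ylaw Q m)) / 2 + 1 / 2 := by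
    rw [hF', integral_div, integral_add hi (integrable_const _), integral_const, probReal_univ, one_smul]
    ring
  have e2 : (∑ s ∈ saw n, F' (wz s k m) * G (curve s)) / ((saw n).card : ℝ) =
      ((∑ s ∈ saw n, F (wz s k m) * G (curve s)) / ((saw n).card : ℝ)) / 2 + (∫ γ, G γ ∂(law n)) / 2 := by
    rw [NTSF.integral_law, ← add_div, ← add_div, ← Finset.sum_add_distrib, hF', div_right_comm]
    congr 1
    rw [Finset.sum_div]
    refine Finset.sum_congr rfl fun s _ => ?_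
    show (F (wz s k m) + 1) / 2 * G (curve s) = (F (wz s k m) * G (curve s) + G (curve s)) / 2
    ring
  rw [e1, e2] at h1
  obtain ⟨a, ha⟩ : ∃ a : ℝ, a = (∑ s ∈ saw n, F (wz s k m) * G (curve s)) / ((saw n).card : ℝ) := ⟨_, rfl⟩
  obtain ⟨b, hb⟩ : ∃ b : ℝ, b = ∫ γ, F γ ∂(ylaw Q m) := ⟨_, rfl⟩
  obtain ⟨I, hI⟩ : ∃ I : ℝ, I = ∫ γ, G γ ∂(law n) := ⟨_, rfl⟩
  rw [← ha, ← hb, ← hI] at h1 ⊢
  have e3 : a / 2 + I / 2 - (b / 2 + 1 / 2) * I = (a - b * I) / 2 := by ring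
  rw [e3, abs_div, abs_of_pos (by norm_num : (0 : ℝ) < 2), hε1] at h1
  linarith

/-- **the windows of the walks are asymptotically rotation invariant**, also jointly with the even functionals of the walk that are
invariant under the rotation by 120 degrees -/
theorem win_rot (h : RotP) (hQ : QOk Q) : ∀ ε : ℝ, 0 < ε → ∃ (δ : ℝ) (m0 : ℕ), 0 < δ ∧ ∀ n k m : ℕ, ε * n ≤ k →
    k ≤ (1 - ε) * n → m0 ≤ m → m ≤ δ * n → ∀ z : ℂ, ‖z‖ = 1 → ∀ F G : C(unitInterval, ℂ) → ℝ, (∀ γ, |F γ| ≤ 1) →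
      LipschitzWith 1 F → (∀ γ, |G γ| ≤ 1) → LipschitzWith 1 G → (∀ γ, G (-γ) = G γ) → (∀ γ, G (ex 2 • γ) = G γ) →
      |(∑ s ∈ saw n, F (z • wz s k m) * G (curve s)) / ((saw n).card : ℝ) -
        (∑ s ∈ saw n, F (wz s k m) * G (curve s)) / ((saw n).card : ℝ)| ≤ ε := by
  intro ε hε
  obtain ⟨δ, m0, hδ, hw⟩ := win_law hQ (ε / 3) (by positivity)
  obtain ⟨k0, hk0⟩ := two_unif h hQ (ε / 3) (by positivity)
  refine ⟨δ, m0 + k0, hδ, fun n k m hk1 hk2 hm0 hm z hz F G hF hFL hG hGL hGe hGr => ?_⟩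
  have hn0 : (0 : ℝ) ≤ n := Nat.cast_nonneg n
  have hle : ε / 3 * n ≤ ε * n := mul_le_mul_of_nonneg_right (by linarith) hn0
  have h1 := hw n k m (by linarith) (by linarith) (by omega) hm F G hF hFL hG hGL hGe hGr
  have h2 := hw n k m (by linarith) (by linarith) (by omega) hm (fun γ => F (z • γ)) G (fun γ => hF _) (smul_lip hz hFL)
    hG hGL hGe hGr
  have h3 := hk0 m (by omega) z hz F hF hFL
  obtain ⟨I, hI⟩ : ∃ I : ℝ, I = ∫ γ, G γ ∂(law n) := ⟨_, rfl⟩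
  have hI1 : |I| ≤ 1 := by
    have hc := NTSF.saw_card_pos n
    rw [hI, NTSF.integral_law, abs_div, abs_of_pos hc, div_le_one hc]
    refine (Finset.abs_sum_le_sum_abs _ _).trans ((Finset.sum_le_card_nsmul _ _ 1 fun s _ => hG _).trans ?_)
    rw [nsmul_eq_mul, mul_one]
  rw [← hI] at h1 h2
  have h4 : |(∫ γ, F (z • γ) ∂(ylaw Q m)) * I - (∫ γ, F γ ∂(ylaw Q m)) * I| ≤ ε / 3 := by
    rw [← sub_mul, abs_mul]
    calc _ ≤ ε / 3 * 1 := mul_le_mul h3 hI1 (abs_nonneg _) (by positivity)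
      _ = _ := mul_one _
  rw [abs_le] at h1 h2 h4 ⊢
  constructor <;> linarith [h1.1, h1.2, h2.1, h2.2, h4.1, h4.2]

/-- the window as a part of the curve `X_n` -/
lemma wz_part {n : ℕ} (s : Fin n → Fin 3) {k m : ℕ} (hm : 0 < m) (hk : k + m ≤ n) :
    wz s k m = ((size n / (m : ℝ) ^ (3 / 4 : ℝ) : ℝ) : ℂ) • part (k / n) (m / n) (curve s) := by
  have hn1 : 1 ≤ n := by omega
  have hn0 : (0 : ℝ) < n := by exact_mod_cast hn1
  have hm0 : (0 : ℝ) < m := by exact_mod_cast hm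
  have hs0 := NTSF.size_pos hn1
  have hkm : ((k : ℝ) + m) ≤ n := by exact_mod_cast hk
  rw [part_curve hn1 s (by positivity) (by positivity) (by rw [← add_div, div_le_one hn0]; exact hkm),
    div_mul_cancel₀ _ hn0.ne', div_mul_cancel₀ _ hn0.ne', smul_smul]
  unfold wz
  congr 1
  push_cast
  have hs1 : ((size n : ℝ) : ℂ) ≠ 0 := by exact_mod_cast hs0.ne'
  field_simp

end Pool.Agent.ROT
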