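import Pool.Agent.ROT.PWin
import Pool.Agent.ROT.TwoA
import Pool.Agent.ROT.FTwoW
import Pool.Agent.ROT.F3T12Lit
import Pool.Agent.RMP.PubWA
import Pool.Agent.TSW.LayB

/-!
# ROT / F3PWk (helper35, literal helper83): the start of the closed words and the interior windows of the walks

* `lwt a l` : the word with the first letter `a` and the turns `l`; `take_fwd`, `take_bwd` : the letters of a walk, forwards and
  backwards; `rev_word` : the reversed word from the vertex number `k`, mean over the three rotations;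
* **`closed_win`** : the first letters of a uniform closed word have the law of the two-sided infinite walk `Q` (mean over the three
  rotations), total variation; **`walk_win`** : the same for the letters before an interior vertex of a walk, backwards;
* **`cw`** : the literal `Cw` of `F3T12Lit`.
-/

set_option autoImplicit false

namespace Pool.Agent.ROT.F3

open Finset MeasureTheory

open Pool.Agent.NTS.Res (step pos saw fug law)

open Pool.Agent.PMA.Res (pol)

open Pool.Agent.PMA (cyF)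

open Pool.Agent.TSW (turn cyl QOk QD mem_cyl measurableSet_cyl)

open Pool.Agent.TSW.E (qm)

open Pool.Agent.RMP.W (rr)

open HexObs (up dx tf)

open HexObs.MCP (Eu)

open NTF (aa)

open scoped Classical

/-! ### the word of the turns -/

/-- the word with the first letter `a` and the turns `l` (a left turn adds 2, a right turn adds 1) -/
def lwt : Fin 3 → List Bool → W3
  | a, [] => [a]
  | a, b :: l => a :: lwt (a + if b then 2 else 1) l

lemma lwt_letter : ∀ x y : Fin 3, y ≠ x → x + (if decide (y - x = 2) then 2 else 1) = y := by decide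

/-- every word without equal neighbours is the word of its turns -/
lemma lwt_fn (m : ℕ) : ∀ a : ℕ → Fin 3, (∀ j < m, a (j + 1) ≠ a j) →
    List.ofFn (fun j : Fin (m + 1) => a j) = lwt (a 0) (List.ofFn fun j : Fin m => decide (a (j + 1) - a j = 2)) := by
  induction m with
  | zero =>
    intro a _
    simp [lwt]
  | succ m ih =>
    intro a ha
    have h1 := ih (fun j => a (j + 1)) fun j hj => ha (j + 1) (by omega)
    have e1 : List.ofFn (fun j : Fin (m + 1 + 1) => a j) = a 0 :: List.ofFn (fun j : Fin (m + 1) => a (j + 1)) := by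
      rw [List.ofFn_succ]
      rfl
    have e2 : List.ofFn (fun j : Fin (m + 1) => decide (a (j + 1) - a j = 2)) =
        decide (a (0 + 1) - a 0 = 2) :: List.ofFn (fun j : Fin m => decide (a (j + 1 + 1) - a (j + 1) = 2)) := by
      rw [List.ofFn_succ]
      rfl
    rw [e1, e2, h1]
    show _ = a 0 :: lwt (a 0 + if decide (a (0 + 1) - a 0 = 2) then 2 else 1) _
    rw [lwt_letter _ _ (ha 0 (by omega))]

lemma rt_lwt (i : Fin 3) (l : List Bool) : ∀ a : Fin 3, rt i (lwt a l) = lwt (a + i) l := by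
  induction l with
  | nil =>
    intro a
    rfl
  | cons b l ih =>
    intro a
    show (a + i) :: rt i (lwt (a + if b then 2 else 1) l) = (a + i) :: lwt (a + i + if b then 2 else 1) l
    rw [ih, add_right_comm]

lemma sum_lwt (h : W3 → ℝ) (a : Fin 3) (l : List Bool) : ∑ i : Fin 3, h (lwt (a + i) l) = ∑ i : Fin 3, h (lwt i l) :=
  Equiv.sum_comp (Equiv.addLeft a) fun b => h (lwt b l)

/-- the mean over the first letter of the function `h` of the word with the turns `τ` -/
noncomputable def mlw (h : W3 → ℝ) {m : ℕ} (τ : Fin m → Bool) : ℝ := (∑ i : Fin 3, h (lwt i (List.ofFn τ))) / 3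

lemma mlw_bd {h : W3 → ℝ} (hh : ∀ w, 0 ≤ h w ∧ h w ≤ 1) {m : ℕ} (τ : Fin m → Bool) : 0 ≤ mlw h τ ∧ mlw h τ ≤ 1 := by
  unfold mlw
  rw [Fin.sum_univ_three]
  have h0 := hh (lwt 0 (List.ofFn τ))
  have h1 := hh (lwt 1 (List.ofFn τ))
  have h2 := hh (lwt 2 (List.ofFn τ))
  constructor <;> linarith [h0.1, h0.2, h1.1, h1.2, h2.1, h2.2]

/-- the letters of a walk -/
def ltr {n : ℕ} (s : Fin n → Fin 3) (i : ℕ) : Fin 3 := if h : i < n then s ⟨i, h⟩ else 0

lemma ltr_ne {n : ℕ} {s : Fin n → Fin 3} (hs : s ∈ saw n) {i : ℕ} (hi : i + 1 < n) : ltr s (i + 1) ≠ ltr s i := by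
  unfold ltr
  rw [dif_pos hi, dif_pos (by omega)]
  exact (Pool.Agent.TSW.no_back hs hi).symm

lemma turn_ltr {n : ℕ} (s : Fin n → Fin 3) {i : ℕ} (hi : i + 1 < n) :
    turn s i = decide (ltr s (i + 1) - ltr s i = 2) := by
  unfold turn ltr
  rw [dif_pos hi, dif_pos hi, dif_pos (by omega)]

/-- the first letters of a walk -/
lemma take_fwd {n m : ℕ} {s : Fin n → Fin 3} (hs : s ∈ saw n) (hm : m + 1 ≤ n) :
    (List.ofFn s).take (m + 1) = lwt (ltr s 0) (List.ofFn fun j : Fin m => turn s (0 + j)) := by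
  have h1 := lwt_fn m (ltr s) fun j hj => ltr_ne hs (by omega)
  have e1 : (List.ofFn s).take (m + 1) = List.ofFn (fun j : Fin (m + 1) => ltr s j) := by
    refine List.ext_getElem ?_ fun i h2 h3 => ?_
    · rw [List.length_take, List.length_ofFn, List.length_ofFn, min_eq_left hm]
    · rw [List.length_ofFn] at h3
      rw [List.getElem_take, List.getElem_ofFn, List.getElem_ofFn]
      unfold ltr
      rw [dif_pos (by omega)]
  rw [e1, h1]
  congr 2
  funext j
  have hj := j.2
  rw [zero_add, turn_ltr s (by omega)]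

lemma neg_turn : ∀ x y : Fin 3, y ≠ x → decide (x - y = 2) = !decide (y - x = 2) := by decide

/-- the letters of a walk before the vertex number `k`, backwards -/
lemma take_bwd {n m k : ℕ} {s : Fin n → Fin 3} (hs : s ∈ saw n) (hk : k ≤ n) (hm : m + 1 ≤ k) :
    ((List.ofFn s).take k).reverse.take (m + 1) =
      lwt (ltr s (k - 1)) (List.ofFn fun j : Fin m => !turn s (k - (m + 1) + j.rev)) := by
  have h1 := lwt_fn m (fun j => ltr s (k - 1 - j)) fun j hj => by
    have := ltr_ne hs (i := k - 1 - (j + 1)) (by omega)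
    rw [show k - 1 - (j + 1) + 1 = k - 1 - j by omega] at this
    exact this.symm
  have e1 : ((List.ofFn s).take k).reverse.take (m + 1) = List.ofFn (fun j : Fin (m + 1) => ltr s (k - 1 - j)) := by
    refine List.ext_getElem ?_ fun i h2 h3 => ?_
    · rw [List.length_take, List.length_reverse, List.length_take, List.length_ofFn, List.length_ofFn, min_eq_left hk,
        min_eq_left hm]
    · rw [List.length_ofFn] at h3
      rw [List.getElem_take, List.getElem_reverse, List.getElem_take, List.getElem_ofFn, List.getElem_ofFn]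
      simp only [List.length_take, List.length_ofFn, min_eq_left hk]
      unfold ltr
      rw [dif_pos (by omega)]
  rw [e1, h1]
  congr 2
  funext j
  have hj := j.2
  rw [Fin.val_rev, turn_ltr s (by omega)]
  have e2 : k - (m + 1) + (m - ((j : ℕ) + 1)) + 1 = k - 1 - j := by omega
  have e3 : k - (m + 1) + (m - ((j : ℕ) + 1)) = k - 1 - (j + 1) := by omega
  rw [e2, e3]
  refine neg_turn _ _ ?_
  have := ltr_ne hs (i := k - 1 - (j + 1)) (by omega)
  rwa [show k - 1 - ((j : ℕ) + 1) + 1 = k - 1 - j by omega] at this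

/-! ### the words of the turning words -/

lemma rt_takeP (i : Fin 3) (w : W3) (k : ℕ) : rt i (w.take k) = (rt i w).take k := List.map_take

lemma rt_reverse (i : Fin 3) (w : W3) : rt i w.reverse = (rt i w).reverse := List.map_reverse

lemma wl_takeP {n k : ℕ} {t : List Bool} (ht : t.length = n) (hk : k ≤ n) : wl (t.take k) = (List.ofFn (NTF.sw n t)).take k := by
  have hl : (t.take k).length = k := by
    rw [List.length_take, ht, min_eq_left hk]
  refine List.ext_getElem ?_ fun i h1 h2 => ?_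
  · rw [wl_length, hl, List.length_take, List.length_ofFn, min_eq_left hk]
  · rw [wl_length, hl] at h1
    rw [wl_get, List.getElem_take, List.getElem_ofFn]
    show aa (dx up (t.take k) i) = aa (dx up t i)
    congr 1
    have h3 : t = t.take k ++ t.drop k := (List.take_append_drop _ _).symm
    conv_rhs => rw [h3]
    exact (HexObs.dx_append (by rw [hl]; omega)).symm

/-- **the reversed word from the vertex number `k` of the word `t`** -/
lemma rev_word {n m k : ℕ} {t : List Bool} (ht : t.length = n) (hs : NTF.sw n t ∈ saw n) (hk : k ≤ n) (hm : m + 1 ≤ k)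
    (h : W3 → ℝ) : (∑ i : Fin 3, h ((rt i (wl (t.take k))).reverse.take (m + 1))) / 3 =
      mlw h fun j : Fin m => !turn (NTF.sw n t) (k - (m + 1) + j.rev) := by
  unfold mlw
  rw [← sum_lwt h (ltr (NTF.sw n t) (k - 1))]
  congr 1
  refine sum_congr rfl fun i _ => ?_
  rw [← rt_lwt, ← take_bwd hs hk hm, ← rt_reverse, ← rt_takeP, wl_takeP ht hk]

/-! ### the rotated walks -/

lemma rr_cancel (i : Fin 3) {n : ℕ} (s : Fin n → Fin 3) : rr (-i) (rr i s) = s := by
  funext j
  show s j + i + -i = s j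
  rw [add_neg_cancel_right]

lemma rr_cancel' (i : Fin 3) {n : ℕ} (s : Fin n → Fin 3) : rr i (rr (-i) s) = s := by
  funext j
  show s j + -i + i = s j
  rw [neg_add_cancel_right]

lemma ofFn_rr (i : Fin 3) {n : ℕ} (s : Fin n → Fin 3) : List.ofFn (rr i s) = rt i (List.ofFn s) := by
  unfold rt
  rw [List.map_ofFn]
  rfl

lemma turn_rr (i : Fin 3) {n : ℕ} (s : Fin n → Fin 3) (j : ℕ) : turn (rr i s) j = turn s j := by
  unfold turn
  split_ifs with h
  · show decide (s ⟨j + 1, h⟩ + i - (s ⟨j, Nat.lt_of_succ_lt h⟩ + i) = 2) = _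
    rw [add_sub_add_right_eq_sub]
  · rfl

/-! ### the law of the infinite walk -/

section law

variable {Q : Measure (ℤ → Bool)}

/-- the cylinders over finite sets of windows -/
lemma cyl_fin [IsProbabilityMeasure Q] {m : ℕ} (S : Set (Fin m → Bool)) :
    (∑ x, if x ∈ S then Q.real (cyl 0 {x}) else 0) = Q.real (cyl 0 S) := by
  rw [← sum_filter]
  have e2 : cyl 0 S = ⋃ x ∈ univ.filter (fun x => x ∈ S), cyl 0 ({x} : Set (Fin m → Bool)) := by
    ext ω
    simp only [Set.mem_iUnion, mem_cyl, Set.mem_singleton_iff, exists_prop, exists_eq_right', mem_filter, mem_univ,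
      true_and]
  rw [e2, measureReal_biUnion_finset]
  · intro x _ y _ hxy
    rw [Function.onFun, Set.disjoint_left]
    intro ω h3 h4
    rw [mem_cyl, Set.mem_singleton_iff] at h3 h4
    exact hxy (h3.symm.trans h4)
  · intro x _
    exact measurableSet_cyl _ _

/-- the reversed turns -/
def fl {m : ℕ} (τ : Fin m → Bool) : Fin m → Bool := fun j => !τ j.rev

lemma fl_fl {m : ℕ} (τ : Fin m → Bool) : fl (fl τ) = τ := by
  funext j
  show (!!τ j.rev.rev) = τ j
  rw [Bool.not_not, Fin.rev_rev]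

/-- the law of the infinite walk does not change under the reversal -/
lemma real_fl (hQ : QD Q) {m : ℕ} (x : Fin m → Bool) : Q.real (cyl 0 {fl x}) = Q.real (cyl 0 {x}) := by
  have hp := hQ.prob
  have hc : Continuous fun (ω : ℤ → Bool) (j : ℤ) => !ω (-j) := by
    refine continuous_pi fun j => ?_
    exact (continuous_of_discreteTopology (f := Bool.not)).comp (continuous_apply (-j))
  have h1 : (fun (ω : ℤ → Bool) (j : ℤ) => !ω (-j)) ⁻¹' cyl 0 {x} = cyl (-(m : ℤ) + 1) {fl x} := by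
    ext ω
    rw [Set.mem_preimage, mem_cyl, mem_cyl, Set.mem_singleton_iff, Set.mem_singleton_iff]
    constructor
    · intro h
      funext j
      have hj := j.2
      have h2 := congrFun h j.rev
      show ω (-(m : ℤ) + 1 + ((j : ℕ) : ℤ)) = !x j.rev
      rw [← h2, Bool.not_not]
      congr 1
      rw [Fin.val_rev]
      omega
    · intro h
      funext j
      have hj := j.2
      have h2 := congrFun h j.rev
      have h3 : fl x j.rev = !x j := by
        show (!x j.rev.rev) = !x j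
        rw [Fin.rev_rev]
      rw [h3] at h2
      show (!ω (-(0 + ((j : ℕ) : ℤ)))) = x j
      rw [← Bool.not_not (x j), ← h2]
      congr 2
      rw [Fin.val_rev]
      omega
  have h2 : Q.real (cyl 0 {x}) = Q.real (cyl (-(m : ℤ) + 1) {fl x}) := by
    conv_lhs => rw [← Pool.Agent.TSW.map_rev hQ]
    rw [map_measureReal_apply hc.measurable (measurableSet_cyl _ _), h1]
  rw [h2]
  exact (hQ.den m {fl x} 0).unique (hQ.den m {fl x} (-(m : ℤ) + 1))

lemma qm_fl (hQ : QD Q) {m : ℕ} (Φ : (Fin m → Bool) → ℝ) : qm Q (fun τ => Φ (fl τ)) = qm Q Φ := by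
  unfold qm
  refine sum_nbij' fl fl (fun _ _ => mem_univ _) (fun _ _ => mem_univ _) (fun τ _ => fl_fl τ) (fun τ _ => fl_fl τ)
    fun τ _ => ?_
  rw [real_fl hQ]

end law

/-! ### the closed words -/

lemma pol_rr (i : Fin 3) {n : ℕ} {s : Fin n → Fin 3} (hs : s ∈ pol n) : rr i s ∈ pol n := by
  obtain ⟨h1, h2⟩ := Pool.Agent.PMA.LimR.mem_pol.1 hs
  refine Pool.Agent.PMA.LimR.mem_pol.2 ⟨Pool.Agent.RMP.W.rr_mem i h1, ?_⟩
  rw [Pool.Agent.RMP.W.pos_rr, norm_mul, norm_pow, NTSF.om_norm, one_pow, one_mul]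
  exact h2

lemma sum_pol_rr (i : Fin 3) {n : ℕ} (g : (Fin n → Fin 3) → ℝ) : ∑ s ∈ pol n, g (rr i s) = ∑ s ∈ pol n, g s :=
  sum_nbij' (rr i) (rr (-i)) (fun _ hs => pol_rr i hs) (fun _ hs => pol_rr _ hs) (fun s _ => rr_cancel i s)
    (fun s _ => rr_cancel' i s) fun _ _ => rfl

/-- the sum of a function of the first letters of the closed words -/
lemma closed_sum {N m : ℕ} (ho : Odd N) (hm : m + 1 ≤ N) (h : W3 → ℝ) :
    ∑' K : Cln (N + 1), h ((K : W3).take (m + 1)) = ∑ s ∈ pol N, mlw h fun j : Fin m => turn s (0 + j) := by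
  have e0 : ∑' K : Cln (N + 1), h ((K : W3).take (m + 1)) = ∑ s ∈ pol N, h ((List.ofFn s).take (m + 1)) := by
    rw [← sum_pol' ho fun w => h (w.take (m + 1))]
    refine sum_congr rfl fun s _ => ?_
    unfold clw
    rw [List.take_append_of_le_length (by rw [List.length_ofFn]; exact hm)]
  have e1 : ∀ i : Fin 3, ∑ s ∈ pol N, h ((List.ofFn s).take (m + 1)) =
      ∑ s ∈ pol N, h (lwt (ltr s 0 + i) (List.ofFn fun j : Fin m => turn s (0 + j))) := by
    intro i
    rw [← sum_pol_rr i fun s => h ((List.ofFn s).take (m + 1))]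
    refine sum_congr rfl fun s hs => ?_
    rw [ofFn_rr, ← rt_takeP, take_fwd (Pool.Agent.PMA.LimR.mem_pol.1 hs).1 hm, rt_lwt]
  have e2 : ∑ i : Fin 3, ∑ s ∈ pol N, h ((List.ofFn s).take (m + 1)) =
      ∑ s ∈ pol N, ∑ i : Fin 3, h (lwt i (List.ofFn fun j : Fin m => turn s (0 + j))) := by
    rw [sum_congr rfl fun i _ => e1 i, sum_comm]
    exact sum_congr rfl fun s _ => sum_lwt h _ _
  rw [sum_const, card_univ, Fintype.card_fin, nsmul_eq_mul] at e2
  unfold mlw
  rw [e0, ← sum_div, ← e2]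
  push_cast
  ring

lemma ncard_Cln {N : ℕ} (ho : Odd N) : (Cln (N + 1)).ncard = (pol N).card := by
  rw [Cln_eq ho, Set.ncard_coe_finset, card_map]

/-- **the start of the closed words** has the law of the two-sided infinite walk -/
theorem closed_win {Q : Measure (ℤ → Bool)} (hQ : QD Q) {ε : ℝ} (hε : 0 < ε) : ∃ (δ : ℝ) (N0 : ℕ), 0 < δ ∧
    ∀ N m : ℕ, Odd N → N0 ≤ N → ((m + 1 : ℕ) : ℝ) ≤ δ * N → 0 < (Cln (N + 1)).ncard ∧
      ∀ h : W3 → ℝ, (∀ w, 0 ≤ h w ∧ h w ≤ 1) →
        |(∑' K : Cln (N + 1), h ((K : W3).take (m + 1))) / (Cln (N + 1)).ncard - qm Q (mlw h (m := m))| ≤ ε := by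
  obtain ⟨δ, N0, hδ, H⟩ := PWin.pwin_one hQ (ε / 2) (by positivity)
  have hp := hQ.prob
  refine ⟨min δ 1, N0 + 3, lt_min hδ one_pos, fun N m ho hN hm => ?_⟩
  have hN0 : (0 : ℝ) ≤ N := Nat.cast_nonneg N
  have hm1 : m + 1 ≤ N := by
    have h1 : ((m + 1 : ℕ) : ℝ) ≤ N := hm.trans ((mul_le_mul_of_nonneg_right (min_le_right _ _) hN0).trans (one_mul _).le)
    exact_mod_cast h1
  have hm2 : (m : ℝ) ≤ δ * ((N + 1 : ℕ) : ℝ) := by
    have h1 : ((m + 1 : ℕ) : ℝ) ≤ δ * N := hm.trans (mul_le_mul_of_nonneg_right (min_le_left _ _) hN0)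
    push_cast at h1 ⊢
    have h2 : δ * (N : ℝ) ≤ δ * (N + 1) := mul_le_mul_of_nonneg_left (by linarith) hδ.le
    linarith
  obtain ⟨hc, H1⟩ := H (N + 1) (by omega) ho.add_one
  have hcnt : ∀ P : (Fin N → Fin 3) → Prop, (∀ s, P (NTSF.rot s) ↔ P s) →
      ((pol N).filter P).card = 3 * ((cyF (N + 1)).filter fun H => P (NTF.sw N H)).card := fun P hP =>
    pol_count (by omega) ho P hP
  have hpc : (pol N).card = 3 * (cyF (N + 1)).card := by
    have h := hcnt (fun _ => True) (fun _ => Iff.rfl)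
    simpa using h
  have hcr : (0 : ℝ) < (cyF (N + 1)).card := by exact_mod_cast hc
  refine ⟨by rw [ncard_Cln ho, hpc]; omega, fun h hh => ?_⟩
  rw [ncard_Cln ho, closed_sum ho hm1]
  have hset : ∀ S : Set (Fin m → Bool), |(∑ s ∈ pol N, (fun _ => (1 : ℝ)) s *
      if (fun j : Fin m => turn s (0 + (j : ℕ))) ∈ S then 1 else 0) / ((pol N).card : ℝ) -
        (∑ x, if x ∈ S then Q.real (cyl 0 {x}) else 0) * 1| ≤ ε / 2 := by
    intro S
    have h1 := H1 m hm2 S 0 0
    have h2 := hcnt (fun s => (fun j : Fin m => turn s (0 + (j : ℕ))) ∈ S) fun s => by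
      simp only [Pool.Agent.TSW.turn_rot]
    have e1 : ((cyF (N + 1)).filter fun H => (fun j : Fin m => turn (NTF.sw N H) (0 + (j : ℕ))) ∈ S) =
        (cyF (N + 1)).filter fun K => PWin.wnd m (K.rotate 0) 0 ∈ S := by
      refine filter_congr fun K _ => ?_
      have e : (fun j : Fin m => turn (NTF.sw N K) (0 + (j : ℕ))) = PWin.wnd m (K.rotate 0) 0 := by
        funext j
        have hj := j.2
        rw [Pool.Agent.TSW.turn_sw _ (by omega), List.rotate_zero]
        rfl
      rw [e]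
    rw [e1] at h2
    have e2 : ∑ s ∈ pol N, ((fun _ => (1 : ℝ)) s * if (fun j : Fin m => turn s (0 + (j : ℕ))) ∈ S then 1 else 0) =
        (((pol N).filter fun s => (fun j : Fin m => turn s (0 + (j : ℕ))) ∈ S).card : ℝ) := by
      rw [card_filter]
      push_cast
      simp only [one_mul]
    rw [cyl_fin, mul_one, e2, h2, hpc]
    push_cast
    rw [mul_div_mul_left _ _ (by norm_num : (3 : ℝ) ≠ 0)]
    exact h1
  have h3 := PWin.tv_fun (T := pol N) (f := fun _ => (1 : ℝ)) (w := fun s => fun j : Fin m => turn s (0 + (j : ℕ)))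
    (q := fun x => Q.real (cyl 0 {x})) (M := 1) (c := ((pol N).card : ℝ)) hset (Φ := mlw h (m := m)) fun x => by
      rw [abs_of_nonneg (mlw_bd hh x).1]
      exact (mlw_bd hh x).2
  simp only [one_mul, mul_one] at h3
  unfold qm
  have e3 : 2 * (ε / 2) = ε := by ring
  rw [e3] at h3
  exact h3

/-! ### the walks -/

/-- **the reversed words from an interior vertex of the walks** have the law of the two-sided infinite walk -/
theorem walk_win {Q : Measure (ℤ → Bool)} (hQ : QOk Q) {ε : ℝ} (hε : 0 < ε) : ∃ δ : ℝ, 0 < δ ∧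
    ∀ n k m : ℕ, 0 < n → (n : ℝ) / 8 ≤ k → (k : ℝ) ≤ 7 * n / 8 → ((m + 1 : ℕ) : ℝ) ≤ δ * n →
      ∀ h : W3 → ℝ, (∀ w, 0 ≤ h w ∧ h w ≤ 1) →
        |Eu n (fun t => (∑ i : Fin 3, h ((rt i (wl (t.take k))).reverse.take (m + 1))) / 3) - qm Q (mlw h (m := m))| ≤
          ε := by
  have hQD : QD Q := ⟨hQ.1.1, hQ.2⟩
  obtain ⟨e, he⟩ : ∃ e : ℝ, e = min ε (1 / 16) := ⟨_, rfl⟩
  have hep : 0 < e := by
    rw [he]
    exact lt_min hε (by norm_num)
  have hee : e ≤ ε := he ▸ min_le_left _ _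
  have he16 : e ≤ 1 / 16 := he ▸ min_le_right _ _
  obtain ⟨δ, hδ, H⟩ := win_fun hQ e hep
  refine ⟨min δ (1 / 16), lt_min hδ (by norm_num), fun n k m hn hk1 hk2 hm h hh => ?_⟩
  have hnr : (0 : ℝ) < n := by exact_mod_cast hn
  have hm1 : ((m + 1 : ℕ) : ℝ) ≤ 1 / 16 * n := hm.trans (mul_le_mul_of_nonneg_right (min_le_right _ _) hnr.le)
  have hm2 : ((m + 1 : ℕ) : ℝ) ≤ δ * n := hm.trans (mul_le_mul_of_nonneg_right (min_le_left _ _) hnr.le)
  have hkn : k ≤ n := by
    have : (k : ℝ) ≤ n := by linarith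
    exact_mod_cast this
  have hmk : m + 1 ≤ k := by
    have : ((m + 1 : ℕ) : ℝ) ≤ k := by linarith
    exact_mod_cast this
  obtain ⟨k', hk'⟩ : ∃ k', k' = k - (m + 1) := ⟨_, rfl⟩
  have hk'r : (k' : ℝ) = k - ((m + 1 : ℕ) : ℝ) := by
    rw [hk', Nat.cast_sub hmk]
  have hen : e * n ≤ 1 / 16 * n := mul_le_mul_of_nonneg_right he16 hnr.le
  have c1 : e * n ≤ k' := by
    rw [hk'r]
    linarith
  have c2 : (k' : ℝ) ≤ (1 - e) * n := by
    rw [hk'r]
    have : (0 : ℝ) ≤ ((m + 1 : ℕ) : ℝ) := Nat.cast_nonneg _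
    linarith
  have c3 : (m : ℝ) ≤ δ * n := by
    push_cast at hm2
    linarith
  obtain ⟨Φ, hΦ⟩ : ∃ Φ : (Fin m → Bool) → ℝ, Φ = fun τ => mlw h (fl τ) := ⟨_, rfl⟩
  have hΦb : ∀ x, 0 ≤ Φ x ∧ Φ x ≤ 1 := fun x => by
    rw [hΦ]
    exact mlw_bd hh _
  have h1 := H n k' m c1 c2 c3 Φ hΦb (fun _ => 1) (fun _ => by rw [abs_one]) (LipschitzWith.const _ |>.weaken zero_le_one)
    fun _ => rfl
  have hlaw : IsProbabilityMeasure (law n) := (NTSF.PM n).2
  rw [integral_const, probReal_univ, one_smul, mul_one] at h1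
  simp only [mul_one] at h1
  have e1 : qm Q Φ = qm Q (mlw h (m := m)) := by
    rw [hΦ]
    exact qm_fl hQD _
  rw [e1] at h1
  obtain ⟨g, hg⟩ : ∃ g : (Fin n → Fin 3) → ℝ, g = fun s => Φ fun j : Fin m => turn s (k' + j) := ⟨_, rfl⟩
  have hgr : ∀ (r : Fin 3) (s : Fin n → Fin 3), g (rr r s) = g s := by
    intro r s
    rw [hg]
    simp only [turn_rr]
  have h2 := Pool.Agent.RMP.W.sum_words_real hn g
  have h3 := Pool.Agent.RMP.W.sum_words_real hn fun _ => (1 : ℝ)
  simp only [hgr, sum_const, card_univ, Fintype.card_fin, nsmul_eq_mul, mul_one, HexObs.TOG.card_wdN] at h2 h3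
  have e2 : Eu n (fun t => (∑ i : Fin 3, h ((rt i (wl (t.take k))).reverse.take (m + 1))) / 3) =
      (∑ t ∈ HexObs.TOG.wdN n, g (NTF.sw n t)) / HexObs.cS n := by
    unfold Eu
    have e3 : HexObs.TIW.sawF n = HexObs.TOG.wdN n := by
      ext t
      rw [HexObs.TIW.mem_sawF, HexObs.TOG.mem_wdN]
    rw [e3]
    congr 1
    refine sum_congr rfl fun t ht => ?_
    rw [HexObs.TOG.mem_wdN] at ht
    have hs := NTSF.sw_mem ht
    refine (rev_word ht.1 hs hkn hmk h).trans ?_
    rw [hg, hΦ, hk']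
    rfl
  rw [e2]
  have e4 : (∑ s ∈ saw n, Φ fun j : Fin m => turn s (k' + j)) = ∑ s ∈ saw n, g s := by rw [hg]
  rw [e4] at h1
  have hc1 : (0 : ℝ) < HexObs.cS n := by exact_mod_cast HexObs.TOG.cS_pos n
  have hc2 : (0 : ℝ) < (saw n).card := by exact_mod_cast NTSF.saw_card_pos n
  have e5 : (∑ t ∈ HexObs.TOG.wdN n, g (NTF.sw n t)) / HexObs.cS n = (∑ s ∈ saw n, g s) / (saw n).card := by
    rw [div_eq_div_iff hc1.ne' hc2.ne']
    have k1 : (3 : ℝ) * ∑ t ∈ HexObs.TOG.wdN n, g (NTF.sw n t) = 2 * ∑ s ∈ saw n, g s := by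
      exact_mod_cast h2
    have k2 : (3 : ℝ) * HexObs.cS n = 2 * (saw n).card := by exact_mod_cast h3
    have k3 : (2 : ℝ) * (3 * ((∑ t ∈ HexObs.TOG.wdN n, g (NTF.sw n t)) * (saw n).card)) =
        2 * (3 * ((∑ s ∈ saw n, g s) * HexObs.cS n)) := by
      calc (2 : ℝ) * (3 * ((∑ t ∈ HexObs.TOG.wdN n, g (NTF.sw n t)) * (saw n).card))
          = (3 * ∑ t ∈ HexObs.TOG.wdN n, g (NTF.sw n t)) * (2 * (saw n).card) := by ring
        _ = (2 * ∑ s ∈ saw n, g s) * (3 * HexObs.cS n) := by rw [k1, k2]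
        _ = _ := by ring
    linarith
  rw [e5]
  exact h1.trans hee

/-- **(D1) the start of the closed words and the interior windows of the walks** -/
theorem cw : Cw := by
  intro ε hε
  obtain ⟨Q, hQ⟩ := Pool.Agent.TSW.exists_QOk
  have hQD : QD Q := ⟨hQ.1.1, hQ.2⟩
  obtain ⟨δ1, N1, hδ1, H1⟩ := closed_win hQD (ε := ε / 2) (by positivity)
  obtain ⟨δ2, hδ2, H2⟩ := walk_win hQ (ε := ε / 2) (by positivity)
  refine ⟨min δ1 δ2, N1 + 1, lt_min hδ1 hδ2, fun N n k M ho hN hn _ hk1 hk2 hM1 hM2 h hh => ?_⟩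
  rcases Nat.eq_zero_or_pos M with rfl | hM
  · have hfin : Fintype (Cln (N + 1)) := (Cln_finite (N + 1)).fintype
    simp only [List.take_zero]
    have e1 : Eu n (fun _ => (∑ _i : Fin 3, h []) / 3) = h [] := by
      have e2 : (∑ _i : Fin 3, h []) / 3 = h [] := by
        rw [sum_const, card_univ, Fintype.card_fin, nsmul_eq_mul]
        push_cast
        ring
      rw [e2]
      have e3 := HexObs.MCP.Eu_one n
      unfold Eu at e3 ⊢
      rw [sum_const, nsmul_eq_mul] at e3 ⊢
      rw [mul_one] at e3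
      rw [mul_comm, mul_div_assoc, e3, mul_one]
    rw [e1, tsum_fintype, sum_const, nsmul_eq_mul, card_univ, ← Nat.card_eq_fintype_card, Nat.card_coe_set_eq]
    exact mul_le_mul_of_nonneg_left (by linarith) (Nat.cast_nonneg _)
  · obtain ⟨m, rfl⟩ : ∃ m, M = m + 1 := ⟨M - 1, by omega⟩
    have hN0 : (0 : ℝ) ≤ N := Nat.cast_nonneg N
    have hn0 : (0 : ℝ) ≤ n := Nat.cast_nonneg n
    obtain ⟨hc, H3⟩ := H1 N m ho (by omega) (hM1.trans (mul_le_mul_of_nonneg_right (min_le_left _ _) hN0))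
    have h1 := H3 h hh
    have h2 := H2 n k m (by omega) hk1 hk2 (hM2.trans (mul_le_mul_of_nonneg_right (min_le_right _ _) hn0)) h hh
    have hcr : (0 : ℝ) < (Cln (N + 1)).ncard := by exact_mod_cast hc
    have h3 : (∑' K : Cln (N + 1), h ((K : W3).take (m + 1))) / (Cln (N + 1)).ncard ≤
        Eu n (fun t => (∑ i : Fin 3, h ((rt i (wl (t.take k))).reverse.take (m + 1))) / 3) + ε := by
      linarith [(abs_le.1 h1).2, (abs_le.1 h2).1]
    rw [div_le_iff₀ hcr] at h3
    linarith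

end Pool.Agent.ROT.F3
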