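import Mathlib

/-!
# ROT, block F3: McShane over families of pieces (helper28, after helper11's McS)

* `mc0` : a family of values `f a` in `[0, 1]` at points `c a` of a metric space, `f a ≤ f b + ε` for good `a, b` with
  `dist (c a) (c b) ≤ δ`: there is a `1 / δ`-Lipschitz function within `ε`;
* **`mcz`** : the same for `p a * ζ a` with a factor `ζ`; the Lipschitz constant `KZ ε δ L` depends on `ε, δ, L` only;
* **`mcp`** : pieces `(s, j)` of objects `s` (words) with `Bad s` of a small weight: the function sees the points `c s j` of ALL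
  the pieces; the error is the supremum over the pieces, inside of the sum over `s` (any choice `s ↦ j s`).
-/

set_option autoImplicit false

namespace Pool.Agent.ROT.F3

open Finset

section

variable {X ι : Type*} [PseudoMetricSpace X]

/-- **McShane** -/
theorem mc0 {f : ι → ℝ} {c : ι → X} (hf0 : ∀ a, 0 ≤ f a) (hf1 : ∀ a, f a ≤ 1) {ε δ : ℝ} (hε : 0 ≤ ε) (hδ : 0 < δ)
    {G : ι → Prop} (h : ∀ a b, G a → G b → dist (c a) (c b) ≤ δ → f a ≤ f b + ε) :
    ∃ φ : X → ℝ, (∀ x y, |φ x - φ y| ≤ 1 / δ * dist x y) ∧ (∀ x, 0 ≤ φ x) ∧ (∀ x, φ x ≤ 1) ∧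
      ∀ a, G a → f a ≤ φ (c a) ∧ φ (c a) ≤ f a + ε := by
  obtain ⟨V, hV⟩ : ∃ V : X → Set ℝ, V = fun x => {y | y = 0 ∨ ∃ a, G a ∧ y = f a - dist x (c a) / δ} := ⟨_, rfl⟩
  have hne : ∀ x, (V x).Nonempty := fun x => ⟨0, by rw [hV]; exact Or.inl rfl⟩
  have hle : ∀ x, ∀ y ∈ V x, y ≤ 1 := by
    intro x y hy
    rw [hV] at hy
    rcases hy with rfl | ⟨a, -, rfl⟩
    · exact zero_le_one
    · have h1 : 0 ≤ dist x (c a) / δ := div_nonneg dist_nonneg hδ.le
      linarith [hf1 a]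
  have hbd : ∀ x, BddAbove (V x) := fun x => ⟨1, fun y hy => hle x y hy⟩
  have h0 : ∀ x, 0 ≤ sSup (V x) := fun x => le_csSup (hbd x) (by rw [hV]; exact Or.inl rfl)
  have hlip : ∀ x x', sSup (V x) ≤ sSup (V x') + 1 / δ * dist x x' := by
    intro x x'
    have hd : 0 ≤ 1 / δ * dist x x' := by positivity
    refine csSup_le (hne x) fun y hy => ?_
    rw [hV] at hy
    rcases hy with rfl | ⟨a, ha, rfl⟩
    · have := h0 x'
      linarith
    · have h1 : f a - dist x' (c a) / δ ≤ sSup (V x') := le_csSup (hbd x') (by rw [hV]; exact Or.inr ⟨a, ha, rfl⟩)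
      have h2 : dist x' (c a) / δ ≤ dist x (c a) / δ + 1 / δ * dist x x' := by
        have h3 : dist x' (c a) ≤ dist x (c a) + dist x x' := by
          have := dist_triangle x' x (c a)
          rw [dist_comm x' x] at this
          linarith
        calc dist x' (c a) / δ ≤ (dist x (c a) + dist x x') / δ := div_le_div_of_nonneg_right h3 hδ.le
          _ = _ := by ring
      linarith
  refine ⟨fun x => sSup (V x), fun x x' => ?_, h0, fun x => csSup_le (hne x) (hle x), fun a ha => ⟨?_, ?_⟩⟩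
  · show |sSup (V x) - sSup (V x')| ≤ _
    rw [abs_le]
    have h1 := hlip x x'
    have h2 := hlip x' x
    rw [dist_comm x' x] at h2
    constructor <;> linarith
  · refine le_csSup (hbd _) ?_
    rw [hV]
    exact Or.inr ⟨a, ha, by rw [dist_self, zero_div, sub_zero]⟩
  · refine csSup_le (hne _) fun y hy => ?_
    rw [hV] at hy
    rcases hy with rfl | ⟨b, hb, rfl⟩
    · linarith [hf0 a]
    · rcases le_or_gt (dist (c a) (c b)) δ with h1 | h1
      · have h2 := h b a hb ha (by rwa [dist_comm])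
        have h3 : 0 ≤ dist (c a) (c b) / δ := div_nonneg dist_nonneg hδ.le
        linarith
      · have h2 : 1 < dist (c a) (c b) / δ := by rwa [lt_div_iff₀ hδ, one_mul]
        linarith [hf1 b, hf0 a]

/-- the Lipschitz constant -/
noncomputable def KZ (ε δ L : ℝ) : NNReal := Real.toNNReal (1 / min δ (ε / L))

/-- **McShane with a factor** -/
theorem mcz {p ζ : ι → ℝ} {c : ι → X} (hp0 : ∀ a, 0 ≤ p a) (hp1 : ∀ a, p a ≤ 1) (hz0 : ∀ a, 0 ≤ ζ a) (hz1 : ∀ a, ζ a ≤ 1)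
    {L : ℝ} (hL : 0 < L) (hzL : ∀ a b, |ζ a - ζ b| ≤ L * dist (c a) (c b)) {ε δ : ℝ} (hε : 0 < ε) (hδ : 0 < δ) {G : ι → Prop}
    (h : ∀ a b, G a → G b → 0 < ζ a → 0 < ζ b → dist (c a) (c b) ≤ δ → p a ≤ p b + ε) :
    ∃ φ : X → ℝ, LipschitzWith (KZ ε δ L) φ ∧ (∀ x, 0 ≤ φ x) ∧ (∀ x, φ x ≤ 1) ∧
      ∀ a, (G a ∨ ζ a ≤ 0) → |p a * ζ a - φ (c a)| ≤ 2 * ε := by
  obtain ⟨δ', hδ'⟩ : ∃ δ' : ℝ, δ' = min δ (ε / L) := ⟨_, rfl⟩
  have hδ'0 : 0 < δ' := by
    rw [hδ']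
    exact lt_min hδ (by positivity)
  have hδ1 : δ' ≤ δ := by
    rw [hδ']
    exact min_le_left _ _
  have hδ2 : L * δ' ≤ ε := by
    have h1 : δ' ≤ ε / L := by
      rw [hδ']
      exact min_le_right _ _
    rwa [le_div_iff₀ hL, mul_comm] at h1
  obtain ⟨φ, h1, h2, h3, h4⟩ := mc0 (f := fun a => p a * ζ a) (c := c) (fun a => mul_nonneg (hp0 a) (hz0 a))
    (fun a => mul_le_one₀ (hp1 a) (hz0 a) (hz1 a)) (ε := 2 * ε) (δ := δ') (by positivity) hδ'0
    (G := fun a => G a ∨ ζ a ≤ 0) (by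
      intro a b ha hb hd
      have hz' := (abs_le.1 ((hzL a b).trans (mul_le_mul_of_nonneg_left hd hL.le))).2
      show p a * ζ a ≤ p b * ζ b + 2 * ε
      rcases eq_or_lt_of_le (hz0 a) with c1 | c1
      · rw [← c1, mul_zero]
        have := mul_nonneg (hp0 b) (hz0 b)
        linarith
      rcases eq_or_lt_of_le (hz0 b) with c2 | c2
      · rw [← c2, mul_zero]
        rw [← c2] at hz'
        have : p a * ζ a ≤ 1 * ζ a := mul_le_mul_of_nonneg_right (hp1 a) (hz0 a)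
        linarith
      have h5 := h a b (ha.resolve_right (not_le.2 c1)) (hb.resolve_right (not_le.2 c2)) c1 c2 (hd.trans hδ1)
      have h6 : p a * ζ a ≤ (p b + ε) * ζ a := mul_le_mul_of_nonneg_right h5 c1.le
      have h7 : p b * (ζ a - ζ b) ≤ 1 * ε := by
        rcases le_or_gt 0 (ζ a - ζ b) with c3 | c3
        · exact mul_le_mul (hp1 _) (by linarith) c3 zero_le_one
        · have : p b * (ζ a - ζ b) ≤ 0 := mul_nonpos_of_nonneg_of_nonpos (hp0 _) c3.le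
          linarith
      have h8 : ε * ζ a ≤ ε * 1 := mul_le_mul_of_nonneg_left (hz1 _) hε.le
      nlinarith)
  refine ⟨φ, LipschitzWith.of_dist_le_mul fun x y => ?_, h2, h3, fun a ha => ?_⟩
  · rw [Real.dist_eq, KZ, ← hδ', Real.coe_toNNReal _ (by positivity)]
    exact h1 x y
  · obtain ⟨a1, a2⟩ := h4 a ha
    have a1' : p a * ζ a ≤ φ (c a) := a1
    have a2' : φ (c a) ≤ p a * ζ a + 2 * ε := a2
    rw [abs_le]
    constructor <;> linarith

end

open Classical in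
/-- **McShane over pieces**: `s` = word, `j` = piece; `A s j` : allowed pieces; `T` = finite sets of words with the weights `m` -/
theorem mcp {X Ω J : Type*} [PseudoMetricSpace X] {p ζ : Ω → J → ℝ} {c : Ω → J → X} (hp0 : ∀ s j, 0 ≤ p s j)
    (hp1 : ∀ s j, p s j ≤ 1) (hz0 : ∀ s j, 0 ≤ ζ s j) (hz1 : ∀ s j, ζ s j ≤ 1) {L : ℝ} (hL : 0 < L)
    (hzL : ∀ s j s' j', |ζ s j - ζ s' j'| ≤ L * dist (c s j) (c s' j')) {ε δ : ℝ} (hε : 0 < ε) (hδ : 0 < δ)
    {A : Ω → J → Prop} {Bad : Ω → Prop}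
    (h : ∀ s j s' j', A s j → A s' j' → ¬ Bad s → ¬ Bad s' → 0 < ζ s j → 0 < ζ s' j' → dist (c s j) (c s' j') ≤ δ →
      p s j ≤ p s' j' + ε) :
    ∃ φ : X → ℝ, LipschitzWith (KZ ε δ L) φ ∧ (∀ x, 0 ≤ φ x) ∧ (∀ x, φ x ≤ 1) ∧
      (∀ s j, A s j → ¬ Bad s → |p s j * ζ s j - φ (c s j)| ≤ 2 * ε) ∧
      ∀ (T : Finset Ω) (m : Ω → ℝ), (∀ s ∈ T, 0 ≤ m s) →
        ∑ s ∈ T.filter (fun s => Bad s ∧ ∃ j, A s j ∧ 0 < ζ s j), m s ≤ ε * ∑ s ∈ T, m s → ∀ j : Ω → J, (∀ s ∈ T, A s (j s)) →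
        ∑ s ∈ T, m s * |p s (j s) * ζ s (j s) - φ (c s (j s))| ≤ 3 * ε * ∑ s ∈ T, m s := by
  obtain ⟨φ, h1, h2, h3, h4⟩ := mcz (ι := Ω × J) (p := fun a => p a.1 a.2) (ζ := fun a => ζ a.1 a.2) (c := fun a => c a.1 a.2)
    (fun a => hp0 _ _) (fun a => hp1 _ _) (fun a => hz0 _ _) (fun a => hz1 _ _) hL (fun a b => hzL _ _ _ _) hε hδ
    (G := fun a => A a.1 a.2 ∧ ¬ Bad a.1) fun a b ha hb ha0 hb0 hd => h _ _ _ _ ha.1 hb.1 ha.2 hb.2 ha0 hb0 hd
  refine ⟨φ, h1, h2, h3, fun s j hA hB => h4 (s, j) (Or.inl ⟨hA, hB⟩), fun T m hm hBad j hj => ?_⟩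
  have h5 : ∀ s ∈ T, m s * |p s (j s) * ζ s (j s) - φ (c s (j s))| ≤
      2 * ε * m s + if Bad s ∧ ∃ j, A s j ∧ 0 < ζ s j then m s else 0 := by
    intro s hs
    have hm0 := hm s hs
    split_ifs with hb
    · have a1 : 0 ≤ p s (j s) * ζ s (j s) := mul_nonneg (hp0 _ _) (hz0 _ _)
      have a2 : p s (j s) * ζ s (j s) ≤ 1 := mul_le_one₀ (hp1 _ _) (hz0 _ _) (hz1 _ _)
      have a3 : |p s (j s) * ζ s (j s) - φ (c s (j s))| ≤ 1 := by
        rw [abs_le]
        constructor <;> linarith [h2 (c s (j s)), h3 (c s (j s))]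
      have a4 := mul_le_mul_of_nonneg_left a3 hm0
      have a5 : 0 ≤ 2 * ε * m s := by positivity
      linarith
    · have a3 : |p s (j s) * ζ s (j s) - φ (c s (j s))| ≤ 2 * ε := by
        refine h4 (s, j s) ?_
        rcases le_or_gt (ζ s (j s)) 0 with c1 | c1
        · exact Or.inr c1
        · refine Or.inl ⟨hj s hs, fun hbad => hb ⟨hbad, j s, hj s hs, c1⟩⟩
      have a4 := mul_le_mul_of_nonneg_left a3 hm0
      linarith
  refine (sum_le_sum h5).trans ?_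
  rw [sum_add_distrib, ← mul_sum, ← sum_filter]
  linarith

end Pool.Agent.ROT.F3
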