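import Pool.Agent.ROT.F3Pic
import Pool.Agent.ROT.F3Te
import Pool.Agent.ROT.F3LowT

/-!
# ROT, F3 (B), row LOW0 (helper76): the words of the three explicit paths

* `cx`, `cy` : skew coordinates of the plane (`cx (JJ v) = v.1`, `cy (JJ v) = v.2`); `Rg a δ M Y v` : the region of the class `a`
  with the end `Y` (common frame); `Rg.near`; **`Rg.sep01`, `Rg.sep12`** : the regions of the classes 0, 1 resp. 1, 2 are disjoint;
* `PicW` : words with straight ends (in order of time), in the region, with a given end and length;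
* **`picW`** : their mass is at least `c S ^ (3 / 4)`.
-/

set_option autoImplicit false

namespace Pool.Agent.ROT.F3.Pw

open Finset
open HexObs (Pt vx dx oo up dirs ip nrm cl rotL rotR wE gf tf)
open HexObs.TS (Ub)
open NTF (sw JJ aa)
open Pool.Agent.TSW.BP (rt3 cr pos_rt3 cr_norm)
open Pool.Agent.NTS.Res (step pos saw fug)
open Pool.Agent.ROT.F3.Tb
open HexObs.ARM (TubeQ Nr ml)
open HexObs.ART.TO (TubeO OrdS)
open HexObs.ROT.Pic (PicE RgI enI)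

open scoped ENNReal ComplexConjugate

/-! ### 1. Skew coordinates -/

/-- first skew coordinate -/
noncomputable def cx (z : ℂ) : ℝ := -(2 / Real.sqrt 3) * z.im

/-- second skew coordinate -/
noncomputable def cy (z : ℂ) : ℝ := z.re + z.im / Real.sqrt 3

lemma s3 : Real.sqrt 3 * Real.sqrt 3 = 3 := Real.mul_self_sqrt (by norm_num)

lemma s3p : 0 < Real.sqrt 3 := by positivity

lemma cx_JJ (v : Pt) : cx (JJ v) = v.1 := by
  unfold cx
  rw [NTF.JJ_im]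
  have := s3p
  field_simp

lemma cy_JJ (v : Pt) : cy (JJ v) = v.2 := by
  unfold cy
  rw [NTF.JJ_im, NTF.JJ_re]
  have := s3p
  field_simp
  ring

lemma cx_add (z w : ℂ) : cx (z + w) = cx z + cx w := by
  unfold cx
  rw [Complex.add_im]
  ring

lemma cy_add (z w : ℂ) : cy (z + w) = cy z + cy w := by
  unfold cy
  rw [Complex.add_im, Complex.add_re]
  ring

lemma cx_sub (z w : ℂ) : cx (z - w) = cx z - cx w := by
  unfold cx
  rw [Complex.sub_im]
  ring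

lemma cy_sub (z w : ℂ) : cy (z - w) = cy z - cy w := by
  unfold cy
  rw [Complex.sub_im, Complex.sub_re]
  ring

lemma cx_mul (r : ℝ) (z : ℂ) : cx (r * z) = r * cx z := by
  unfold cx
  rw [Complex.im_ofReal_mul]
  ring

lemma cy_mul (r : ℝ) (z : ℂ) : cy (r * z) = r * cy z := by
  unfold cy
  rw [Complex.im_ofReal_mul, Complex.re_ofReal_mul]
  ring

lemma re_eq (z : ℂ) : z.re = cx z / 2 + cy z := by
  unfold cx cy
  have := s3p
  field_simp
  ring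

lemma inv3 : 1 / Real.sqrt 3 ≤ 1 := by
  rw [div_le_one s3p]
  nlinarith [s3, s3p]

lemma abs_cx (z : ℂ) : |cx z| ≤ 2 * ‖z‖ := by
  unfold cx
  rw [abs_mul, abs_neg, abs_of_pos (by have := s3p; positivity)]
  have h1 := Complex.abs_im_le_norm z
  have h2 := inv3
  have h3 : 2 / Real.sqrt 3 = 2 * (1 / Real.sqrt 3) := by ring
  rw [h3]
  have h4 : 0 ≤ 1 / Real.sqrt 3 := by positivity
  nlinarith [abs_nonneg z.im]

lemma abs_cy (z : ℂ) : |cy z| ≤ 2 * ‖z‖ := by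
  unfold cy
  have h1 := Complex.abs_im_le_norm z
  have h0 := Complex.abs_re_le_norm z
  have h2 := inv3
  have h4 : 0 ≤ 1 / Real.sqrt 3 := by positivity
  have h5 : |z.im / Real.sqrt 3| ≤ ‖z‖ := by
    rw [div_eq_mul_one_div, abs_mul, abs_of_nonneg h4]
    nlinarith [abs_nonneg z.im]
  calc |z.re + z.im / Real.sqrt 3| ≤ |z.re| + |z.im / Real.sqrt 3| := abs_add_le _ _
    _ ≤ _ := by linarith

lemma abs_cs (z : ℂ) : |cx z + cy z| ≤ 2 * ‖z‖ := by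
  have e : cx z + cy z = z.re - z.im / Real.sqrt 3 := by
    unfold cx cy
    have := s3p
    field_simp
    ring
  rw [e]
  have h1 := Complex.abs_im_le_norm z
  have h0 := Complex.abs_re_le_norm z
  have h2 := inv3
  have h4 : 0 ≤ 1 / Real.sqrt 3 := by positivity
  have h5 : |z.im / Real.sqrt 3| ≤ ‖z‖ := by
    rw [div_eq_mul_one_div, abs_mul, abs_of_nonneg h4]
    nlinarith [abs_nonneg z.im]
  calc |z.re - z.im / Real.sqrt 3| ≤ |z.re| + |z.im / Real.sqrt 3| := abs_sub _ _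
    _ ≤ _ := by linarith

/-! ### 2. The regions -/

/-- **the region of the class `a`** (start at 0, end `Y`) -/
def Rg (a : Fin 3) (δ M : ℝ) (Y v : ℂ) : Prop :=
  match a with
  | 0 => -δ ≤ cx v + cy v ∨ cy Y - δ ≤ cy v
  | 1 => cx v + cy v ≤ δ ∧ cy v ≤ cy Y + δ ∧ -M - δ ≤ v.re ∧ cx v ≤ δ ∧ cx Y - δ ≤ cx v
  | 2 => -δ ≤ cx v ∨ cx v ≤ cx Y + δ ∨ v.re ≤ -M + δ

lemma Rg.near {a : Fin 3} {δ M r r' : ℝ} {Y Y' v v' : ℂ} (h : Rg a δ M Y v) (hv : ‖v - v'‖ ≤ r) (hY : ‖Y - Y'‖ ≤ r') :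
    Rg a (δ + 2 * r + 2 * r') M Y' v' := by
  have a1 := abs_le.1 ((abs_cx (v - v')).trans (mul_le_mul_of_nonneg_left hv (by norm_num)))
  have a2 := abs_le.1 ((abs_cy (v - v')).trans (mul_le_mul_of_nonneg_left hv (by norm_num)))
  have a3 := abs_le.1 ((abs_cs (v - v')).trans (mul_le_mul_of_nonneg_left hv (by norm_num)))
  have a4 := abs_le.1 ((Complex.abs_re_le_norm (v - v')).trans hv)
  have b1 := abs_le.1 ((abs_cx (Y - Y')).trans (mul_le_mul_of_nonneg_left hY (by norm_num)))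
  have b2 := abs_le.1 ((abs_cy (Y - Y')).trans (mul_le_mul_of_nonneg_left hY (by norm_num)))
  rw [cx_sub] at a1 b1 a3
  rw [cy_sub] at a2 b2 a3
  rw [Complex.sub_re] at a4
  have hr : 0 ≤ r := (norm_nonneg _).trans hv
  have hr' : 0 ≤ r' := (norm_nonneg _).trans hY
  match a with
  | 0 =>
    rcases h with h | h
    · left
      linarith [a3.1, a3.2]
    · right
      linarith [a2.1, a2.2, b2.1, b2.2]
  | 1 =>
    obtain ⟨h1, h2, h3, h4, h5⟩ := h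
    exact ⟨by linarith [a3.1, a3.2], by linarith [a2.1, a2.2, b2.1, b2.2], by linarith [a4.1, a4.2],
      by linarith [a1.1, a1.2], by linarith [a1.1, a1.2, b1.1, b1.2]⟩
  | 2 =>
    rcases h with h | h | h
    · left
      linarith [a1.1, a1.2]
    · right
      left
      linarith [a1.1, a1.2, b1.1, b1.2]
    · right
      right
      linarith [a4.1, a4.2]

/-- **the classes 0 and 1**: `v` in the region of the class 0, `u` in the region of the class 1; `z` = relative position of the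
starts, `w` = relative position of the ends -/
theorem Rg.sep01 {δ M M' : ℝ} {Y Y' v u z w : ℂ} (h : Rg 0 δ M Y v) (h' : Rg 1 δ M' Y' u) (hw : w = z + Y' - Y)
    (hz : cx z + cy z < -(2 * δ)) (hw' : cy w < -(2 * δ)) : v ≠ u + z := by
  rintro rfl
  obtain ⟨h1, h2, -⟩ := h'
  rw [hw, cy_sub, cy_add] at hw'
  rcases h with h | h
  · rw [cx_add, cy_add] at h
    linarith
  · rw [cy_add] at h
    linarith

/-- **the classes 1 and 2** -/
theorem Rg.sep12 {δ M M' : ℝ} {Y Y' v u z w : ℂ} (h : Rg 1 δ M Y v) (h' : Rg 2 δ M' Y' u) (hw : w = z + Y' - Y)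
    (hz : 2 * δ < cx z) (hw' : cx w < -(2 * δ)) (hM : M + z.re + 2 * δ < M') : v ≠ u + z := by
  rintro rfl
  obtain ⟨-, -, h3, h4, h5⟩ := h
  rw [hw, cx_sub, cx_add] at hw'
  rw [cx_add] at h4 h5
  rw [Complex.add_re] at h3
  rcases h' with h | h | h
  · linarith
  · linarith
  · linarith

/-! ### 3. The common frame -/

/-- the rotation in integer coordinates -/
def rc (a : Fin 3) (v : Pt) : Pt :=
  match a with
  | 0 => v
  | 1 => (-(v.1 + v.2), v.1)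
  | 2 => (v.2, -(v.1 + v.2))

lemma cr_JJ (a : Fin 3) (v : Pt) : cr a * JJ v = JJ (rc a v) := by
  rw [cr_step, ← JJ_Ed']
  have h3 := s3
  match a with
  | 0 =>
    have : NTF.Ed 0 = up := rfl
    rw [this, JJ_up, one_mul]
    rfl
  | 1 =>
    have : NTF.Ed 1 = (-1, 0) := rfl
    rw [this]
    apply Complex.ext
    · rw [Complex.mul_re, NTF.JJ_re, NTF.JJ_im, NTF.JJ_re, NTF.JJ_im, NTF.JJ_re]
      unfold rc
      push_cast
      linear_combination ((v.1 : ℝ) / 4) * h3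
    · rw [Complex.mul_im, NTF.JJ_re, NTF.JJ_im, NTF.JJ_re, NTF.JJ_im, NTF.JJ_im]
      unfold rc
      push_cast
      ring
  | 2 =>
    have : NTF.Ed 2 = (1, -1) := rfl
    rw [this]
    apply Complex.ext
    · rw [Complex.mul_re, NTF.JJ_re, NTF.JJ_im, NTF.JJ_re, NTF.JJ_im, NTF.JJ_re]
      unfold rc
      push_cast
      linear_combination (-(v.1 : ℝ) / 4) * h3
    · rw [Complex.mul_im, NTF.JJ_re, NTF.JJ_im, NTF.JJ_re, NTF.JJ_im, NTF.JJ_im]
      unfold rc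
      push_cast
      ring

lemma rc_en (a : Fin 3) (L1 L2 : ℤ) : rc a (enI a L1 L2) = (-(L1 + L2), L1) := by
  match a with
  | 0 => rfl
  | 1 => rfl
  | 2 =>
    show ((-(L1 + L2), -(L2 + -(L1 + L2))) : Pt) = _
    refine Prod.ext rfl ?_
    simp

/-- the region at a node -/
lemma rg_node {a : Fin 3} {L1 L2 m : ℤ} {v : Pt} (h : RgI a L1 L2 m v) {μ M : ℝ} (hμ : 0 ≤ μ)
    (h1 : a = 1 → μ * L2 ≤ 2 * M) (h2 : a = 2 → 2 * M ≤ μ * m) :
    Rg a 0 M (μ * JJ (-(L1 + L2), L1)) (μ * (cr a * JJ v)) := by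
  rw [cr_JJ]
  match a with
  | 0 =>
    rcases h with h | h
    · left
      rw [cx_mul, cy_mul, cx_JJ, cy_JJ]
      have : (0 : ℝ) ≤ (v.1 : ℝ) + v.2 := by exact_mod_cast h
      show -0 ≤ μ * (v.1 : ℝ) + μ * v.2
      nlinarith
    · right
      rw [cy_mul, cy_mul, cy_JJ, cy_JJ]
      have : (L1 : ℝ) ≤ v.2 := by exact_mod_cast h
      show μ * (L1 : ℝ) - 0 ≤ μ * (v.2 : ℝ)
      nlinarith
  | 1 =>
    obtain ⟨g1, g2, g3, g4, g5⟩ := h
    have g1' : (0 : ℝ) ≤ v.2 := by exact_mod_cast g1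
    have g2' : (v.1 : ℝ) ≤ L1 := by exact_mod_cast g2
    have g3' : -(L2 : ℝ) ≤ v.1 - v.2 := by exact_mod_cast g3
    have g4' : (0 : ℝ) ≤ v.1 + v.2 := by exact_mod_cast g4
    have g5' : (v.1 : ℝ) + v.2 ≤ L1 + L2 := by exact_mod_cast g5
    have hM := h1 rfl
    have p1 := mul_nonneg hμ g1'
    have p2 := mul_le_mul_of_nonneg_left g2' hμ
    have p3 := mul_le_mul_of_nonneg_left g3' hμ
    have p4 := mul_nonneg hμ g4'
    have p5 := mul_le_mul_of_nonneg_left g5' hμ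
    refine ⟨?_, ?_, ?_, ?_, ?_⟩
    · rw [cx_mul, cy_mul, cx_JJ, cy_JJ]
      unfold rc
      push_cast
      nlinarith
    · rw [cy_mul, cy_mul, cy_JJ, cy_JJ]
      unfold rc
      simp only
      linarith
    · rw [re_eq, cx_mul, cy_mul, cx_JJ, cy_JJ]
      unfold rc
      push_cast
      nlinarith
    · rw [cx_mul, cx_JJ]
      unfold rc
      push_cast
      nlinarith
    · rw [cx_mul, cx_mul, cx_JJ, cx_JJ]
      unfold rc
      push_cast
      nlinarith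
  | 2 =>
    have hM := h2 rfl
    rcases h with h | h | h
    · left
      rw [cx_mul, cx_JJ]
      unfold rc
      have : (0 : ℝ) ≤ v.2 := by exact_mod_cast h
      simp only
      nlinarith [mul_nonneg hμ this]
    · right
      left
      rw [cx_mul, cx_mul, cx_JJ, cx_JJ]
      unfold rc
      have : (v.2 : ℝ) ≤ -(L1 + L2) := by exact_mod_cast h
      have := mul_le_mul_of_nonneg_left this hμ
      push_cast
      linarith
    · right
      right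
      rw [re_eq, cx_mul, cy_mul, cx_JJ, cy_JJ]
      unfold rc
      have : (m : ℝ) ≤ 2 * v.1 + v.2 := by exact_mod_cast h
      have := mul_le_mul_of_nonneg_left this hμ
      push_cast
      nlinarith

/-! ### 4. The words along an explicit path -/

section words

variable {a : Fin 3} {K M' L1 L2 n : ℕ} {E : ℕ → Pt} {D w B : ℤ} {z : Pt} {Q : List Bool} {p q : ℕ}

lemma le_JJ {v : Pt} {K : ℕ} (h : (K : ℤ) ^ 2 ≤ nrm v) : (K : ℝ) ≤ ‖JJ v‖ := by
  refine le_of_sq_le_sq ?_ (norm_nonneg _)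
  rw [NTF.JJ_norm]
  exact_mod_cast h

lemma norm_pv (hD : 0 ≤ D) (i : ℕ) : ‖JJ (HexObs.AR.pv E D i)‖ = D * ‖JJ (HexObs.AR.ps E i)‖ := by
  unfold HexObs.AR.pv
  rw [JJ_smul, norm_mul, Complex.norm_intCast, abs_of_nonneg (by exact_mod_cast hD)]

lemma pathB (h : PicE a K M' L1 L2 n E) (hK : 1 ≤ K) (hD : 0 ≤ D) : PathB E D n K K (D * K) (D * K) := by
  have hD' : (0 : ℝ) ≤ D := by exact_mod_cast hD
  refine ⟨h.ip, hK, hK, by have := h.le; omega, h.fst, h.lst, fun i h1 h2 => ?_, fun i h1 => ?_⟩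
  · rw [norm_pv hD]
    exact mul_le_mul_of_nonneg_left (le_JJ (h.far0 i h1 h2)) hD'
  · have e : HexObs.AR.pv E D i - HexObs.AR.pv E D n = D • (HexObs.AR.ps E i - HexObs.AR.ps E n) := by
      unfold HexObs.AR.pv
      rw [smul_sub]
    rw [e, JJ_smul, norm_mul, Complex.norm_intCast, abs_of_nonneg hD']
    exact mul_le_mul_of_nonneg_left (le_JJ (h.far1 i h1)) hD'

/-- every vertex is near a node -/
lemma near_nd (h : PicE a K M' L1 L2 n E) (hw : 0 ≤ w) (hBD : B + 2 ≤ D) (hQ : TubeQ E D w n z Q)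
    (hz : HexObs.TIW.hn (z - HexObs.AR.pv E D n) ≤ B) (a' : Fin 3) {k : ℕ} (hk : k ≤ (wd a' Q).length) :
    ∃ j, j ≤ n ∧ ‖ps (wd a' Q) k - D * (cr a' * JJ (HexObs.AR.ps E j))‖ ≤ D + w := by
  rw [length_wd] at hk
  have e : ∀ (y : Pt) (j : ℕ), cr a' * JJ y - D * (cr a' * JJ (HexObs.AR.ps E j)) = cr a' * JJ (y - HexObs.AR.pv E D j) := by
    intro y j
    rw [NTF.JJ_sub]
    unfold HexObs.AR.pv
    rw [JJ_smul]
    ring
  rcases Nat.lt_or_ge Q.length k with h1 | h1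
  · refine ⟨n, le_rfl, ?_⟩
    rw [ps_wd a' Q hk, show k = Q.length + 1 by omega, vx_last, e, norm_mul, cr_norm, one_mul]
    have h3 := norm_JJ_le (enp Q - HexObs.AR.pv E D n)
    have h4 : (HexObs.TIW.hn (enp Q - HexObs.AR.pv E D n) : ℝ) ≤ B + 2 := by exact_mod_cast enp_near hQ hz
    have h5 : (B : ℝ) + 2 ≤ D := by exact_mod_cast hBD
    have h6 : (0 : ℝ) ≤ w := by exact_mod_cast hw
    linarith
  · obtain ⟨j, hj, hv⟩ := hQ.rg k h1
    refine ⟨j, hj.le, ?_⟩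
    rw [ps_wd a' Q hk, e, norm_mul, cr_norm, one_mul]
    exact near_node (h.ip.dir j hj) hv

/-- the straight start, in order of time -/
lemma word_np (h : PicE a K M' L1 L2 n E) (hK : 1 ≤ K) (hD : 0 ≤ D) (hw : 0 ≤ w) (hB : 0 ≤ B) (hwD : w + B + 2 ≤ D)
    (hp : p < K) {i1 : ℕ} (ho : OrdS E D w n p Q i1) (hQ : TubeQ E D w n z Q)
    (hz : HexObs.TIW.hn (z - HexObs.AR.pv E D n) ≤ B) (a' : Fin 3) :
    ∃ k1, k1 ≤ (wd a' Q).length ∧ (∀ k, k ≤ k1 → ∃ x : ℝ, 0 ≤ x ∧ x ≤ D * p ∧ ‖ps (wd a' Q) k - x * step 0 a'‖ ≤ w) ∧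
      ∀ k, k1 ≤ k → k ≤ (wd a' Q).length → (D : ℝ) * p - D ≤ ‖ps (wd a' Q) k‖ := by
  have hB' := pathB h hK hD
  have hle := h.le
  have hD' : (0 : ℝ) ≤ D := by exact_mod_cast hD
  have hwr : (0 : ℝ) ≤ w := by exact_mod_cast hw
  have hBr : (0 : ℝ) ≤ B := by exact_mod_cast hB
  have hwD' : (w : ℝ) + B + 2 ≤ D := by exact_mod_cast hwD
  have hpK : (p : ℝ) + 1 ≤ K := by exact_mod_cast hp
  have hil := ho.le
  refine ⟨i1, by rw [length_wd]; omega, fun k hk => ?_, fun k hk hk' => ?_⟩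
  · obtain ⟨j, hj, hv⟩ := ho.lo k hk
    obtain ⟨t, t0, tD, ht⟩ := hv
    rw [hB'.pv0 (by omega), hB'.fst j (by omega), ← add_smul] at ht
    refine ⟨((D * j + t : ℤ) : ℝ), by push_cast; have : (0 : ℝ) ≤ t := by exact_mod_cast t0
                                      positivity, ?_, ?_⟩
    · have h1 : D * j + t ≤ D * p := by
        have : (j : ℤ) + 1 ≤ p := by exact_mod_cast hj
        nlinarith
      exact_mod_cast h1
    · rw [ps_wd a' Q (by omega), cr_step]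
      have e1 : step 0 a' * JJ (vx oo up Q k) - ((D * j + t : ℤ) : ℝ) * step 0 a' =
          step 0 a' * JJ (vx oo up Q k - (D * j + t) • up) := by
        rw [NTF.JJ_sub, JJ_smul, JJ_up]
        push_cast
        ring
      rw [e1, norm_mul, step_norm, one_mul]
      exact (norm_JJ_le _).trans (by exact_mod_cast ht)
  · rw [length_wd] at hk'
    rw [ps_wd a' Q hk', norm_mul, cr_norm, one_mul]
    rcases Nat.lt_or_ge Q.length k with h1 | h1
    · rw [show k = Q.length + 1 by omega, vx_last]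
      have h2 := hB'.far0 n (by omega) le_rfl
      have h3 := norm_JJ_le (enp Q - HexObs.AR.pv E D n)
      have h4 : (HexObs.TIW.hn (enp Q - HexObs.AR.pv E D n) : ℝ) ≤ B + 2 := by exact_mod_cast enp_near hQ hz
      have h5 : ‖JJ (HexObs.AR.pv E D n)‖ ≤ ‖JJ (enp Q)‖ + ‖JJ (enp Q - HexObs.AR.pv E D n)‖ := by
        have e1 : JJ (HexObs.AR.pv E D n) = JJ (enp Q) - JJ (enp Q - HexObs.AR.pv E D n) := by
          rw [NTF.JJ_sub]
          ring
        rw [e1]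
        exact norm_sub_le _ _
      nlinarith
    · obtain ⟨j, hpj, hjn, hv⟩ := ho.hi k hk h1
      rcases Nat.lt_or_ge j K with h2 | h2
      · obtain ⟨t, t0, tD, ht⟩ := hv
        rw [hB'.pv0 (by omega), hB'.fst j (by omega), ← add_smul] at ht
        have e2 : ‖JJ ((D * j + t) • up)‖ = D * j + t := by
          rw [JJ_smul, JJ_up, mul_one, Complex.norm_intCast, abs_of_nonneg]
          · push_cast
            ring
          · exact_mod_cast (by positivity : (0 : ℤ) ≤ D * j + t)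
        have e3 : ‖JJ ((D * j + t) • up)‖ ≤ ‖JJ (vx oo up Q k)‖ + ‖JJ (vx oo up Q k - (D * j + t) • up)‖ := by
          have e1 : JJ ((D * j + t) • up) = JJ (vx oo up Q k) - JJ (vx oo up Q k - (D * j + t) • up) := by
            rw [NTF.JJ_sub]
            ring
          rw [e1]
          exact norm_sub_le _ _
        have e4 := norm_JJ_le (vx oo up Q k - (D * j + t) • up)
        have e5 : (HexObs.TIW.hn (vx oo up Q k - (D * j + t) • up) : ℝ) ≤ w := by exact_mod_cast ht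
        have e6 : (p : ℝ) ≤ j := by exact_mod_cast hpj
        have e7 : (0 : ℝ) ≤ t := by exact_mod_cast t0
        nlinarith
      · have e4 := near_node (h.ip.dir j hjn) hv
        have e2 := hB'.far0 j h2 hjn.le
        have e3 : ‖JJ (HexObs.AR.pv E D j)‖ ≤ ‖JJ (vx oo up Q k)‖ + ‖JJ (vx oo up Q k - HexObs.AR.pv E D j)‖ := by
          have e1 : JJ (HexObs.AR.pv E D j) = JJ (vx oo up Q k) - JJ (vx oo up Q k - HexObs.AR.pv E D j) := by
            rw [NTF.JJ_sub]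
            ring
          rw [e1]
          exact norm_sub_le _ _
        nlinarith

/-- the straight end, in order of time -/
lemma word_nq (h : PicE a K M' L1 L2 n E) (hK : 1 ≤ K) (hD : 0 ≤ D) (hw : 0 ≤ w) (hB : 0 ≤ B) (hwD : w + B + 2 ≤ D)
    (hq : q < K) {i1 : ℕ} (ho : OrdS E D w n (n - q) Q i1) (hQ : TubeQ E D w n z Q)
    (hz : HexObs.TIW.hn (z - HexObs.AR.pv E D n) ≤ B) :
    ∃ k1, k1 ≤ (wd a Q).length ∧ (∀ k, k ≤ k1 → ∃ x : ℝ, 0 ≤ x ∧ x ≤ D * q ∧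
        ‖ps (wd a Q).reverse k - x * step 0 (-a)‖ ≤ w + (B + 2)) ∧
      ∀ k, k1 ≤ k → k ≤ (wd a Q).length → (D : ℝ) * q - D ≤ ‖ps (wd a Q).reverse k‖ := by
  have hB' := pathB h hK hD
  have hle := h.le
  have hD' : (0 : ℝ) ≤ D := by exact_mod_cast hD
  have hwr : (0 : ℝ) ≤ w := by exact_mod_cast hw
  have hBr : (0 : ℝ) ≤ B := by exact_mod_cast hB
  have hwD' : (w : ℝ) + B + 2 ≤ D := by exact_mod_cast hwD
  have hqK : (q : ℝ) + 1 ≤ K := by exact_mod_cast hq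
  have hil := ho.le
  have hd : E (n - 1) ∈ dirs := h.ip.dir _ (by omega)
  have hev := even_wd a hQ h.cl
  have h4 : (HexObs.TIW.hn (enp Q - HexObs.AR.pv E D n) : ℝ) ≤ B + 2 := by exact_mod_cast enp_near hQ hz
  have h4' := (norm_JJ_le (enp Q - HexObs.AR.pv E D n)).trans h4
  have eb : step 0 (-a) = step 0 a * JJ (-E (n - 1)) := by
    rw [← h.aa, ← JJ_neg_dir hd h.cl, cr_step]
  have hps : ∀ k, k ≤ Q.length + 1 → ps (wd a Q).reverse k = step 0 a * JJ (vx oo up Q (Q.length + 1 - k) - enp Q) := by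
    intro k hk
    rw [ps_reverse hev (by rw [length_wd]; omega), length_wd, en_wd, ps_wd a Q (by omega), NTF.JJ_sub, cr_step]
    ring
  refine ⟨Q.length + 1 - i1, by rw [length_wd]; omega, fun k hk => ?_, fun k hk hk' => ?_⟩
  · rcases Nat.eq_zero_or_pos k with h1 | h1
    · subst h1
      refine ⟨0, le_rfl, by positivity, ?_⟩
      rw [ps_zero, Complex.ofReal_zero, zero_mul, sub_zero, norm_zero]
      linarith
    obtain ⟨j, hj1, hj2, hv⟩ := ho.hi (Q.length + 1 - k) (by omega) (by omega)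
    obtain ⟨j', hj', hjq⟩ : ∃ j', j = n - j' ∧ 1 ≤ j' ∧ j' ≤ q := ⟨n - j, by omega, by omega, by omega⟩
    obtain ⟨t, t0, tD, ht⟩ := hv
    rw [hj', hB'.pv1 (by omega), hB'.lst (n - j') (by omega) (by omega)] at ht
    refine ⟨((D * j' - t : ℤ) : ℝ), ?_, ?_, ?_⟩
    · have : (1 : ℤ) ≤ j' := by exact_mod_cast hjq.1
      exact_mod_cast (by nlinarith : (0 : ℤ) ≤ D * j' - t)
    · have : (j' : ℤ) ≤ q := by exact_mod_cast hjq.2
      exact_mod_cast (by nlinarith : D * j' - t ≤ D * q)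
    · rw [hps k (by omega), eb]
      have e1 : step 0 a * JJ (vx oo up Q (Q.length + 1 - k) - enp Q) -
          ((D * j' - t : ℤ) : ℝ) * (step 0 a * JJ (-E (n - 1))) =
          step 0 a * (JJ (vx oo up Q (Q.length + 1 - k) - (HexObs.AR.pv E D n - (D * j') • E (n - 1) + t • E (n - 1))) -
            JJ (enp Q - HexObs.AR.pv E D n)) := by
        have e2 : JJ (-E (n - 1)) = -JJ (E (n - 1)) := by
          have := NTF.JJ_sub 0 (E (n - 1))
          rwa [zero_sub, JJ_zero, zero_sub] at this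
        rw [e2, NTF.JJ_sub, NTF.JJ_sub, NTF.JJ_sub, NTF.JJ_add, NTF.JJ_sub, JJ_smul, JJ_smul]
        push_cast
        ring
      rw [e1, norm_mul, step_norm, one_mul]
      refine (norm_sub_le _ _).trans (add_le_add ((norm_JJ_le _).trans ?_) h4')
      exact_mod_cast ht
  · rw [length_wd] at hk'
    rw [hps k hk', norm_mul, step_norm, one_mul]
    rcases Nat.eq_zero_or_pos k with h1 | h1
    · exfalso
      omega
    obtain ⟨j, hj1, hv⟩ := ho.lo (Q.length + 1 - k) (by omega)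
    have e0 : ‖JJ (vx oo up Q (Q.length + 1 - k) - HexObs.AR.pv E D n)‖ ≤
        ‖JJ (vx oo up Q (Q.length + 1 - k) - enp Q)‖ + ‖JJ (enp Q - HexObs.AR.pv E D n)‖ := by
      have e1 : JJ (vx oo up Q (Q.length + 1 - k) - HexObs.AR.pv E D n) =
          JJ (vx oo up Q (Q.length + 1 - k) - enp Q) + JJ (enp Q - HexObs.AR.pv E D n) := by
        rw [NTF.JJ_sub, NTF.JJ_sub, NTF.JJ_sub]
        ring
      rw [e1]
      exact norm_add_le _ _
    rcases Nat.lt_or_ge j (n - K) with h2 | h2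
    · have e4 := near_node (h.ip.dir j (by omega)) hv
      have e2 := hB'.far1 j (by omega)
      have e3 : ‖JJ (HexObs.AR.pv E D j - HexObs.AR.pv E D n)‖ ≤
          ‖JJ (vx oo up Q (Q.length + 1 - k) - HexObs.AR.pv E D n)‖ +
            ‖JJ (vx oo up Q (Q.length + 1 - k) - HexObs.AR.pv E D j)‖ := by
        have e1 : JJ (HexObs.AR.pv E D j - HexObs.AR.pv E D n) = JJ (vx oo up Q (Q.length + 1 - k) - HexObs.AR.pv E D n) -
            JJ (vx oo up Q (Q.length + 1 - k) - HexObs.AR.pv E D j) := by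
          rw [NTF.JJ_sub, NTF.JJ_sub, NTF.JJ_sub]
          ring
        rw [e1]
        exact norm_sub_le _ _
      nlinarith
    · obtain ⟨j', hj', hjq⟩ : ∃ j', j = n - j' ∧ q + 1 ≤ j' ∧ j' ≤ K := ⟨n - j, by omega, by omega, by omega⟩
      obtain ⟨t, t0, tD, ht⟩ := hv
      rw [hj', hB'.pv1 (by omega), hB'.lst (n - j') (by omega) (by omega)] at ht
      have hj'' : (q : ℤ) + 1 ≤ j' := by exact_mod_cast hjq.1
      have e2 : ‖JJ ((D * j' - t) • E (n - 1))‖ = ((D * j' - t : ℤ) : ℝ) := by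
        rw [JJ_smul, norm_mul, norm_JJ_dir hd, mul_one, Complex.norm_intCast, abs_of_nonneg]
        exact_mod_cast (by nlinarith : (0 : ℤ) ≤ D * j' - t)
      have e3 : ‖JJ ((D * j' - t) • E (n - 1))‖ ≤ ‖JJ (vx oo up Q (Q.length + 1 - k) - HexObs.AR.pv E D n)‖ +
          ‖JJ (vx oo up Q (Q.length + 1 - k) - (HexObs.AR.pv E D n - (D * j') • E (n - 1) + t • E (n - 1)))‖ := by
        have e1 : JJ ((D * j' - t) • E (n - 1)) =
            JJ (vx oo up Q (Q.length + 1 - k) - (HexObs.AR.pv E D n - (D * j') • E (n - 1) + t • E (n - 1))) -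
            JJ (vx oo up Q (Q.length + 1 - k) - HexObs.AR.pv E D n) := by
          rw [NTF.JJ_sub, NTF.JJ_sub, NTF.JJ_add, NTF.JJ_sub, JJ_smul, JJ_smul, JJ_smul]
          push_cast
          ring
        rw [e1]
        exact (norm_sub_le _ _).trans (le_of_eq (add_comm _ _))
      have e4 := norm_JJ_le (vx oo up Q (Q.length + 1 - k) - (HexObs.AR.pv E D n - (D * j') • E (n - 1) + t • E (n - 1)))
      have e5 : (HexObs.TIW.hn (vx oo up Q (Q.length + 1 - k) -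
          (HexObs.AR.pv E D n - (D * j') • E (n - 1) + t • E (n - 1))) : ℝ) ≤ w := by exact_mod_cast ht
      have e6 : (D : ℝ) * q ≤ ((D * j' - t : ℤ) : ℝ) := by
        exact_mod_cast (by nlinarith : D * (q : ℤ) ≤ D * j' - t)
      linarith

end words

/-! ### 5. The class of words and its mass -/

/-- **the words of the class `a`**: straight ends of lengths `ℓp`, `ℓq` in order of time, tolerance `h`, in the region, end near `t`,
lengths between `lo` and `hi` (scale `S`) -/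
structure PicW (a : Fin 3) (ℓp ℓq h M : ℝ) (t : ℂ) (lo hi S : ℝ) (T : W3) : Prop where
  rb : RestB T a (-a) (ℓp * S) (ℓq * S) (h * S) (h * S)
  en : ‖en T - S * t‖ ≤ h * S
  np : ∃ k1, k1 ≤ T.length ∧ (∀ k, k ≤ k1 → ∃ x : ℝ, 0 ≤ x ∧ x ≤ (ℓp + h) * S ∧ ‖ps T k - x * step 0 a‖ ≤ h * S) ∧
    ∀ k, k1 ≤ k → k ≤ T.length → ℓp * S ≤ ‖ps T k‖
  nq : ∃ k1, k1 ≤ T.length ∧
    (∀ k, k ≤ k1 → ∃ x : ℝ, 0 ≤ x ∧ x ≤ (ℓq + h) * S ∧ ‖ps T.reverse k - x * step 0 (-a)‖ ≤ h * S) ∧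
    ∀ k, k1 ≤ k → k ≤ T.length → ℓq * S ≤ ‖ps T.reverse k‖
  rg : ∀ k, k ≤ T.length → Rg a h M t ((S : ℂ)⁻¹ * ps T k)
  lo : lo * S ^ (4 / 3 : ℝ) ≤ T.length
  hi : (T.length : ℝ) ≤ hi * S ^ (4 / 3 : ℝ)

/-- the scale of the lengths -/
lemma ml_bd {H k : ℕ} (hH : 1 ≤ H) {μ S : ℝ} (hμ : 0 < μ) (hS : 0 < S) (h1 : μ * S ≤ 72 * H * 2 ^ k)
    (h2 : 18 * H * 2 ^ k ≤ μ * S) : (μ / (72 * H)) ^ (4 / 3 : ℝ) * S ^ (4 / 3 : ℝ) ≤ ml k ∧
      ml k ≤ (μ / (18 * H)) ^ (4 / 3 : ℝ) * S ^ (4 / 3 : ℝ) := by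
  have hH' : (1 : ℝ) ≤ H := by exact_mod_cast hH
  have e : ml k = ((2 : ℝ) ^ k) ^ (4 / 3 : ℝ) := by
    unfold ml
    rw [← Real.rpow_natCast 2 k, ← Real.rpow_mul (by norm_num)]
    congr 1
    ring
  rw [e, ← Real.mul_rpow (by positivity) hS.le, ← Real.mul_rpow (by positivity) hS.le]
  constructor
  · refine Real.rpow_le_rpow (by positivity) ?_ (by norm_num)
    rw [div_mul_eq_mul_div, div_le_iff₀ (by positivity)]
    linarith
  · refine Real.rpow_le_rpow (by positivity) ?_ (by norm_num)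
    rw [div_mul_eq_mul_div, le_div_iff₀ (by positivity)]
    linarith

lemma Rg.mono {a : Fin 3} {δ δ' M : ℝ} {Y v : ℂ} (h : Rg a δ M Y v) (hd : δ ≤ δ') : Rg a δ' M Y v := by
  match a with
  | 0 =>
    rcases h with h | h
    · exact Or.inl (by linarith)
    · exact Or.inr (by linarith)
  | 1 =>
    obtain ⟨h1, h2, h3, h4, h5⟩ := h
    exact ⟨by linarith, by linarith, by linarith, by linarith, by linarith⟩
  | 2 =>
    rcases h with h | h | h
    · exact Or.inl (by linarith)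
    · exact Or.inr (Or.inl (by linarith))
    · exact Or.inr (Or.inr (by linarith))

lemma norm_le_c (z : ℂ) : ‖z‖ ≤ |cx z| + |cy z| := by
  have e : z = (cx z : ℂ) * JJ (1, 0) + (cy z : ℂ) * JJ (0, 1) := by
    apply Complex.ext
    · rw [Complex.add_re, Complex.re_ofReal_mul, Complex.re_ofReal_mul, NTF.JJ_re, NTF.JJ_re, re_eq]
      push_cast
      ring
    · rw [Complex.add_im, Complex.im_ofReal_mul, Complex.im_ofReal_mul, NTF.JJ_im, NTF.JJ_im]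
      unfold cx
      have := s3p
      push_cast
      field_simp
      ring
  have h1 : ‖(cx z : ℂ) * JJ (1, 0)‖ = |cx z| := by
    rw [norm_mul, norm_JJ_dir (by decide), mul_one, Complex.norm_real, Real.norm_eq_abs]
  have h2 : ‖(cy z : ℂ) * JJ (0, 1)‖ = |cy z| := by
    rw [norm_mul, norm_JJ_dir (by decide), mul_one, Complex.norm_real, Real.norm_eq_abs]
  calc ‖z‖ = ‖(cx z : ℂ) * JJ (1, 0) + (cy z : ℂ) * JJ (0, 1)‖ := by rw [← e]
    _ ≤ _ := by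
      refine (norm_add_le _ _).trans (le_of_eq ?_)
      rw [h1, h2]

lemma norm_ps_le {E : ℕ → Pt} {n : ℕ} (h : HexObs.AR.IPath E n) {j : ℕ} (hj : j ≤ n) : ‖JJ (HexObs.AR.ps E j)‖ ≤ j := by
  induction j with
  | zero =>
    rw [HexObs.ARM.G3.ps_zero, JJ_zero, norm_zero]
    simp
  | succ j ih =>
    rw [HexObs.AR.ps_succ, NTF.JJ_add]
    refine (norm_add_le _ _).trans ?_
    rw [norm_JJ_dir (h.dir j (by omega))]
    push_cast
    have := ih (by omega)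
    linarith

/-- the numbers of steps, mesh `μ` -/
structure Nb (ℓp ℓq M μ : ℝ) (t : ℂ) (K p q M' L1 L2 : ℕ) : Prop where
  K1 : (ℓp + ℓq) + 4 * μ ≤ μ * K
  K2 : μ * K ≤ (ℓp + ℓq) + 5 * μ
  p1 : ℓp + 2 * μ ≤ μ * p
  p2 : μ * p ≤ ℓp + 3 * μ
  q1 : ℓq + 2 * μ ≤ μ * q
  q2 : μ * q ≤ ℓq + 3 * μ
  l1 : μ * L1 ≤ cy t
  l1' : cy t ≤ μ * L1 + μ
  l2 : μ * L2 ≤ -(cx t + cy t)
  l2' : -(cx t + cy t) ≤ μ * L2 + μ
  m1 : μ * K + M ≤ μ * M'
  pK : p < K
  qK : q < K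
  p3 : 2 ≤ p
  q3 : 2 ≤ q
  K4 : 4 ≤ K
  KM : K ≤ M'

lemma ceil_lo {x μ : ℝ} (hμ : 0 < μ) (m : ℕ) : x + m * μ ≤ μ * ((⌈x / μ⌉₊ + m : ℕ) : ℝ) := by
  have := Nat.le_ceil (x / μ)
  rw [div_le_iff₀ hμ] at this
  push_cast
  linarith

lemma ceil_up {x μ : ℝ} (hx : 0 ≤ x) (hμ : 0 < μ) (m : ℕ) : μ * ((⌈x / μ⌉₊ + m : ℕ) : ℝ) ≤ x + (m + 1) * μ := by
  have := (Nat.ceil_lt_add_one (a := x / μ) (by positivity)).le
  have h5 := mul_le_mul_of_nonneg_left this hμ.le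
  have h6 : μ * (x / μ + 1) = x + μ := by field_simp
  push_cast
  linarith

lemma fl_lo {x μ : ℝ} (hx : 0 ≤ x) (hμ : 0 < μ) : μ * ((⌊x / μ⌋₊ : ℕ) : ℝ) ≤ x := by
  have := Nat.floor_le (a := x / μ) (by positivity)
  rw [le_div_iff₀ hμ] at this
  linarith

lemma fl_up {x μ : ℝ} (hμ : 0 < μ) : x ≤ μ * ((⌊x / μ⌋₊ : ℕ) : ℝ) + μ := by
  have := (Nat.lt_floor_add_one (x / μ)).le
  rw [div_le_iff₀ hμ] at this
  linarith

lemma nb_ex {ℓp ℓq M μ : ℝ} {t : ℂ} (hp : 0 < ℓp) (hq : 0 < ℓq) (hμ : 0 < μ) (hy0 : 0 ≤ cy t) (hx0 : 0 ≤ -(cx t + cy t)) :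
    ∃ K p q M' L1 L2 : ℕ, Nb ℓp ℓq M μ t K p q M' L1 L2 := by
  refine ⟨⌈(ℓp + ℓq) / μ⌉₊ + 4, ⌈ℓp / μ⌉₊ + 2, ⌈ℓq / μ⌉₊ + 2, (⌈(ℓp + ℓq) / μ⌉₊ + 4) + ⌈M / μ⌉₊, ⌊cy t / μ⌋₊,
    ⌊-(cx t + cy t) / μ⌋₊, ⟨?_, ?_, ?_, ?_, ?_, ?_, fl_lo hy0 hμ, fl_up hμ, fl_lo hx0 hμ, fl_up hμ, ?_, ?_, ?_, by omega,
      by omega, by omega, by omega⟩⟩
  · have := ceil_lo (x := ℓp + ℓq) hμ 4
    push_cast at this ⊢
    linarith
  · have := ceil_up (x := ℓp + ℓq) (by linarith) hμ 4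
    push_cast at this ⊢
    linarith
  · have := ceil_lo (x := ℓp) hμ 2
    push_cast at this ⊢
    linarith
  · have := ceil_up (x := ℓp) hp.le hμ 2
    push_cast at this ⊢
    linarith
  · have := ceil_lo (x := ℓq) hμ 2
    push_cast at this ⊢
    linarith
  · have := ceil_up (x := ℓq) hq.le hμ 2
    push_cast at this ⊢
    linarith
  · have := ceil_lo (x := M) hμ 0
    push_cast at this ⊢
    linarith
  · have : ⌈ℓp / μ⌉₊ ≤ ⌈(ℓp + ℓq) / μ⌉₊ := Nat.ceil_le_ceil (by gcongr; linarith)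
    omega
  · have : ⌈ℓq / μ⌉₊ ≤ ⌈(ℓp + ℓq) / μ⌉₊ := Nat.ceil_le_ceil (by gcongr; linarith)
    omega

/-- the end of the picture -/
lemma end_near {ℓp ℓq M μ : ℝ} {t : ℂ} {K p q M' L1 L2 : ℕ} (nb : Nb ℓp ℓq M μ t K p q M' L1 L2) :
    ‖(μ : ℂ) * JJ (-((L1 : ℤ) + L2), (L1 : ℤ)) - t‖ ≤ 3 * μ := by
  refine (norm_le_c _).trans ?_
  rw [cx_sub, cy_sub, cx_mul, cy_mul, cx_JJ, cy_JJ]
  push_cast
  have e1 : |μ * (-(L1 : ℝ) + -L2) - cx t| ≤ 2 * μ := by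
    rw [abs_le]
    have := nb.l1
    have := nb.l1'
    have := nb.l2
    have := nb.l2'
    constructor <;> linarith
  have e2 : |μ * (L1 : ℝ) - cy t| ≤ μ := by
    rw [abs_le]
    have := nb.l1
    have := nb.l1'
    constructor <;> linarith
  have e3 : μ * -((L1 : ℝ) + L2) = μ * (-(L1 : ℝ) + -L2) := by ring
  first
    | linarith
    | (rw [e3]; linarith)

/-- the sizes, scale `S`, mesh `D = ⌊μ S⌋`, width `w`, radius `B` of the disc of the ends -/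
structure Sz (ℓp ℓq μ S : ℝ) (Mx : ℕ) (D w B : ℤ) : Prop where
  S0 : 0 < S
  S1 : 2 * Mx + (ℓp + ℓq) / μ + 10 ≤ S * μ
  D1 : (D : ℝ) ≤ μ * S
  D2 : μ * S < D + 1
  w0 : 0 ≤ w
  B1 : 1 ≤ B
  D0 : 0 ≤ D
  wD : 144 * (w : ℝ) ≤ D
  BD : 49152 * ((B : ℝ) + 2) ≤ D
  wDz : 144 * w ≤ D
  BDz : 49152 * (B + 2) ≤ D

lemma Sz.side {ℓ ℓs μ S : ℝ} {Mx p : ℕ} {D w B : ℤ} (z : Sz ℓ ℓs μ S Mx D w B) (hμ : 0 < μ) {x : ℝ} (hxl : x ≤ ℓ + ℓs) (h1 : x + 2 * μ ≤ μ * p) (h2 : μ * p ≤ x + 3 * μ) (h3 : 2 ≤ p) :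
    x * S ≤ (D : ℝ) * p - D ∧ (D : ℝ) * p ≤ (x + 3 * μ) * S := by
  have hS0 := z.S0
  have hD1 := z.D1
  have hD2 := z.D2
  have hS1 := z.S1
  have hp2 : (2 : ℝ) ≤ p := by exact_mod_cast h3
  have hMx : (0 : ℝ) ≤ Mx := Nat.cast_nonneg _
  constructor
  · have e1 : (μ * S - 1) * (p - 1) ≤ D * (p - 1) := mul_le_mul_of_nonneg_right (by linarith) (by linarith)
    have e2 : (x + 2 * μ) * S ≤ (μ * p) * S := mul_le_mul_of_nonneg_right h1 hS0.le
    have e3 : (p : ℝ) ≤ (ℓ + ℓs) / μ + 3 := by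
      have e4 : (p : ℝ) ≤ x / μ + 3 := by
        rw [← sub_nonneg] at h2 ⊢
        have : x / μ + 3 - p = (x + 3 * μ - μ * p) / μ := by field_simp
        rw [this]
        positivity
      have e5 : x / μ ≤ (ℓ + ℓs) / μ := by gcongr
      linarith
    have e6 : (μ * S - 1) * ((p : ℝ) - 1) = μ * p * S - μ * S - p + 1 := by ring
    have e7 : (D : ℝ) * ((p : ℝ) - 1) = D * p - D := by ring
    have e8 : (x + 2 * μ) * S = x * S + 2 * (μ * S) := by ring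
    rw [e6, e7] at e1
    rw [e8] at e2
    linarith
  · have e1 : (D : ℝ) * p ≤ μ * S * p := mul_le_mul_of_nonneg_right hD1 (by linarith)
    have e2 : μ * p * S ≤ (x + 3 * μ) * S := mul_le_mul_of_nonneg_right h2 hS0.le
    have e3 : μ * S * p = μ * p * S := by ring
    linarith

/-- **the words of the tubes of the picture are in the class** -/
theorem word_key {a : Fin 3} {ℓp ℓq h M μ lo hi S : ℝ} {t : ℂ} {K p q M' L1 L2 n Mx k : ℕ} {E : ℕ → Pt} {D w B : ℤ}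
    (hp : 0 < ℓp) (hq : 0 < ℓq) (hμ : 0 < μ) (hμh : 20 * μ = h) (nb : Nb ℓp ℓq M μ t K p q M' L1 L2)
    (hM : a = 1 → -(cx t + cy t) ≤ 2 * M) (hE : PicE a K M' L1 L2 n E) (hnM : n ≤ Mx) (z : Sz ℓp ℓq μ S Mx D w B)
    (hk1 : lo * S ^ (4 / 3 : ℝ) ≤ ml k) (hk2 : 10 * ml k ≤ hi * S ^ (4 / 3 : ℝ)) {Q : List Bool}
    (hQO : TubeO E D w n p q (HexObs.TIW.en Q) Q) (hz : HexObs.TIW.hn (HexObs.TIW.en Q - HexObs.AR.pv E D n) ≤ B)
    (hlo : ml k ≤ Q.length) (hhi : (Q.length : ℝ) ≤ 9 * ml k) : PicW a ℓp ℓq h M t lo hi S (wd a Q) := by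
  obtain ⟨hQ, i1, i2, hi12, ho1, ho2⟩ := hQO
  obtain ⟨hS0, hS1, D1, D2, hw0, hB1, hD0, hwD, hBD, hwDz, hBDz⟩ := z
  have z : Sz ℓp ℓq μ S Mx D w B := ⟨hS0, hS1, D1, D2, hw0, hB1, hD0, hwD, hBD, hwDz, hBDz⟩
  have hB1r : (1 : ℝ) ≤ B := by exact_mod_cast hB1
  have hw0r : (0 : ℝ) ≤ w := by exact_mod_cast hw0
  have hD0r : (0 : ℝ) ≤ D := by exact_mod_cast hD0
  have hMx0 : (0 : ℝ) ≤ Mx := Nat.cast_nonneg _
  have hlp : 0 ≤ (ℓp + ℓq) / μ := by positivity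
  have hKr : (4 : ℝ) ≤ K := by exact_mod_cast nb.K4
  have hμS : 0 < μ * S := by positivity
  have hhS : 20 * (μ * S) = h * S := by rw [← hμh]; ring
  have hK1 := nb.K1
  have hK2 := nb.K2
  have hpK := nb.pK
  have hqK := nb.qK
  have hK4 := nb.K4
  have hPt := end_near nb
  obtain ⟨P, hP⟩ : ∃ P : ℂ, P = JJ (-((L1 : ℤ) + L2), (L1 : ℤ)) := ⟨_, rfl⟩
  rw [← hP] at hPt
  have hPE : cr a * JJ (HexObs.AR.ps E n) = P := by rw [hE.en, cr_JJ, rc_en, hP]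
  have hPn : ‖P‖ ≤ Mx := by
    rw [← hPE, norm_mul, cr_norm, one_mul]
    refine (norm_ps_le hE.ip le_rfl).trans ?_
    exact_mod_cast hnM
  have hDK : (ℓp + ℓq) * S ≤ D * K - 2 * D := by
    have e1 : (μ * S - 1) * (K - 2) ≤ D * (K - 2) := mul_le_mul_of_nonneg_right (by linarith) (by linarith)
    have e2 : ((ℓp + ℓq) + 4 * μ) * S ≤ (μ * K) * S := mul_le_mul_of_nonneg_right hK1 hS0.le
    have e3 : (K : ℝ) ≤ (ℓp + ℓq) / μ + 5 := by
      rw [← sub_nonneg] at hK2 ⊢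
      have : (ℓp + ℓq) / μ + 5 - K = (ℓp + ℓq + 5 * μ - μ * K) / μ := by field_simp
      rw [this]
      positivity
    have e6 : (μ * S - 1) * ((K : ℝ) - 2) = μ * K * S - 2 * (μ * S) - K + 2 := by ring
    have e7 : (D : ℝ) * ((K : ℝ) - 2) = D * K - 2 * D := by ring
    have e8 : ((ℓp + ℓq) + 4 * μ) * S = (ℓp + ℓq) * S + 4 * (μ * S) := by ring
    rw [e6, e7] at e1
    rw [e8] at e2
    linarith
  have hlpS : ℓp * S ≤ (ℓp + ℓq) * S := mul_le_mul_of_nonneg_right (by linarith) hS0.le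
  have hlqS : ℓq * S ≤ (ℓp + ℓq) * S := mul_le_mul_of_nonneg_right (by linarith) hS0.le
  have hD4 : (D : ℝ) * 4 ≤ D * K := mul_le_mul_of_nonneg_left hKr hD0r
  have hrest := tub_rest (a := a) (pathB hE (by omega) hD0) hw0 (by linarith) (by linarith) (by linarith)
    (by linarith) hE.cl hQ hz
  rw [hE.aa] at hrest
  obtain ⟨k1, g1, g2, g3⟩ := word_np hE (by omega) hD0 hw0 (by linarith) (by linarith) hpK ho1 hQ hz a
  obtain ⟨k2, g4, g5, g6⟩ := word_nq hE (by omega) hD0 hw0 (by linarith) (by linarith) hqK ho2 hQ hz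
  obtain ⟨s1, s2⟩ := z.side hμ (x := ℓp) (by linarith) nb.p1 nb.p2 nb.p3
  obtain ⟨s3, s4⟩ := z.side hμ (x := ℓq) (by linarith) nb.q1 nb.q2 nb.q3
  have t1 : (ℓp + 3 * μ) * S ≤ (ℓp + h) * S := mul_le_mul_of_nonneg_right (by linarith) hS0.le
  have t2 : (ℓq + 3 * μ) * S ≤ (ℓq + h) * S := mul_le_mul_of_nonneg_right (by linarith) hS0.le
  refine ⟨hrest.mono ?_ ?_ ?_ ?_, ?_, ⟨k1, g1, fun i hi => ?_, fun i hi hi' => s1.trans (g3 i hi hi')⟩,
    ⟨k2, g4, fun i hi => ?_, fun i hi hi' => s3.trans (g6 i hi hi')⟩, fun i hi => ?_, ?_, ?_⟩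
  · linarith
  · linarith
  · linarith
  · linarith
  · -- the end
    have e1 : en (wd a Q) - S * t = cr a * JJ (enp Q - HexObs.AR.pv E D n) + ((D : ℂ) - μ * S) * P + S * (μ * P - t) := by
      rw [en_wd, NTF.JJ_sub]
      have : cr a * JJ (HexObs.AR.pv E D n) = D * P := by
        unfold HexObs.AR.pv
        rw [JJ_smul, ← hPE]
        ring
      rw [mul_sub, this]
      ring
    have h4 : (HexObs.TIW.hn (enp Q - HexObs.AR.pv E D n) : ℝ) ≤ B + 2 := by exact_mod_cast enp_near hQ hz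
    have e2 : ‖cr a * JJ (enp Q - HexObs.AR.pv E D n)‖ ≤ B + 2 := by
      rw [norm_mul, cr_norm, one_mul]
      exact (norm_JJ_le _).trans h4
    have e3 : ‖((D : ℂ) - μ * S) * P‖ ≤ Mx := by
      rw [norm_mul]
      have : ‖(D : ℂ) - μ * S‖ ≤ 1 := by
        have e4 : (D : ℂ) - μ * S = (((D : ℝ) - μ * S : ℝ) : ℂ) := by push_cast; ring
        rw [e4, Complex.norm_real, Real.norm_eq_abs, abs_le]
        constructor <;> linarith
      have e5 := mul_le_mul this hPn (norm_nonneg _) zero_le_one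
      linarith
    have e4 : ‖(S : ℂ) * (μ * P - t)‖ ≤ S * (3 * μ) := by
      rw [norm_mul, Complex.norm_real, Real.norm_of_nonneg hS0.le]
      exact mul_le_mul_of_nonneg_left hPt hS0.le
    rw [e1]
    refine (norm_add_le _ _).trans ?_
    have e5 := norm_add_le (cr a * JJ (enp Q - HexObs.AR.pv E D n)) (((D : ℂ) - μ * S) * P)
    have e6 : S * (3 * μ) = 3 * (μ * S) := by ring
    linarith
  · obtain ⟨x, x0, x1, x2⟩ := g2 i hi
    exact ⟨x, x0, x1.trans (s2.trans t1), x2.trans (by linarith)⟩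
  · obtain ⟨x, x0, x1, x2⟩ := g5 i hi
    exact ⟨x, x0, x1.trans (s4.trans t2), x2.trans (by linarith)⟩
  · -- the region
    obtain ⟨j, hj, hn⟩ := near_nd hE hw0 (by linarith) hQ hz a hi
    have l2 := nb.l2
    have m1 := nb.m1
    have r1 := rg_node (hE.reg j hj) (μ := μ) (M := M) hμ.le (fun ha => by push_cast; exact l2.trans (hM ha)) (fun _ => by
      push_cast
      have : 0 ≤ μ * (K : ℝ) := by positivity
      have e2 : μ * (2 * (M' : ℝ) + K) = 2 * (μ * M') + μ * K := by ring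
      rw [e2]
      linarith)
    rw [← hP] at r1
    refine (r1.near (r := 2 * μ) (r' := 3 * μ) (v' := (S : ℂ)⁻¹ * ps (wd a Q) i) (Y' := t) ?_ hPt).mono (by linarith)
    have hSC : (S : ℂ) ≠ 0 := by exact_mod_cast hS0.ne'
    have e1 : (μ : ℂ) * (cr a * JJ (HexObs.AR.ps E j)) - (S : ℂ)⁻¹ * ps (wd a Q) i =
        (S : ℂ)⁻¹ * (((μ * S : ℝ) - (D : ℝ) : ℝ) * (cr a * JJ (HexObs.AR.ps E j)) -
          (ps (wd a Q) i - D * (cr a * JJ (HexObs.AR.ps E j)))) := by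
      push_cast
      field_simp
      ring
    rw [e1, norm_mul, norm_inv, Complex.norm_real, Real.norm_of_nonneg hS0.le]
    rw [inv_mul_le_iff₀ hS0]
    refine (norm_sub_le _ _).trans ?_
    have e2 : ‖(((μ * S : ℝ) - (D : ℝ) : ℝ) : ℂ) * (cr a * JJ (HexObs.AR.ps E j))‖ ≤ Mx := by
      rw [norm_mul, Complex.norm_real, Real.norm_of_nonneg (by linarith), norm_mul, cr_norm, one_mul]
      have e3 := norm_ps_le hE.ip hj
      have e4 : (j : ℝ) ≤ Mx := by exact_mod_cast hj.trans hnM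
      have e5 : μ * S - D ≤ 1 := by linarith
      have e6 := mul_le_mul e5 (e3.trans e4) (norm_nonneg _) zero_le_one
      linarith
    have e7 : S * (2 * μ) = 2 * (μ * S) := by ring
    rw [e7]
    linarith
  · rw [length_wd]
    push_cast
    linarith
  · rw [length_wd]
    push_cast
    have e2 : 1 ≤ ml k := by
      unfold ml
      exact Real.one_le_rpow (by norm_num) (by positivity)
    linarith

/-- **the mass of the words of the class**, with the lengths; `H` is a universal constant -/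
theorem picWH : ∃ H0 : ℕ, 1 ≤ H0 ∧ ∀ {a : Fin 3} {ℓp ℓq h M : ℝ} {t : ℂ}, 0 < ℓp → 0 < ℓq → 0 < h →
    2 * (ℓp + ℓq) + h ≤ cy t → 2 * (ℓp + ℓq) + h ≤ -(cx t + cy t) → cy t ≤ -(cx t + cy t) + ℓp →
    (a = 1 → -(cx t + cy t) ≤ 2 * M) → ∃ c S0 : ℝ, 0 < c ∧ 1 ≤ S0 ∧ ∀ S : ℝ, S0 ≤ S →
      ENNReal.ofReal (c * S ^ (3 / 4 : ℝ)) ≤
        ms {T | PicW a ℓp ℓq h M t ((h / 20 / (72 * H0)) ^ (4 / 3 : ℝ)) (10 * (h / 20 / (18 * H0)) ^ (4 / 3 : ℝ)) S T}
          fun _ => 1 := by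
  obtain ⟨H0, hH0, hTT⟩ := HexObs.ART.TO.tube3d
  have hH1 : 1 ≤ H0 := le_trans (by norm_num) hH0
  refine ⟨H0, hH1, fun {a ℓp ℓq h M t} hp hq hh h1 h2 h3 hM => ?_⟩
  obtain ⟨μ, hμe⟩ : ∃ μ : ℝ, μ = h / 20 := ⟨_, rfl⟩
  have hμ : 0 < μ := by rw [hμe]; positivity
  have hμh : 20 * μ = h := by rw [hμe]; ring
  rw [← hμe]
  obtain ⟨K, p, q, M', L1, L2, nb⟩ := nb_ex (M := M) hp hq hμ (show 0 ≤ cy t by linarith) (show 0 ≤ -(cx t + cy t) by linarith)
  have hK1 : 2 * K ≤ L1 := by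
    have : μ * (2 * K : ℕ) ≤ μ * L1 := by push_cast; linarith [nb.K2, nb.l1']
    exact_mod_cast le_of_mul_le_mul_left this hμ
  have hK2 : 2 * K ≤ L2 := by
    have : μ * (2 * K : ℕ) ≤ μ * L2 := by push_cast; linarith [nb.K2, nb.l2']
    exact_mod_cast le_of_mul_le_mul_left this hμ
  have hL12 : L1 ≤ L2 + K := by
    have : μ * L1 ≤ μ * (L2 + K : ℕ) := by push_cast; linarith [nb.K1, nb.l1, nb.l2']
    exact_mod_cast le_of_mul_le_mul_left this hμ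
  have hK4 := nb.K4
  obtain ⟨n, E, hE⟩ := HexObs.ROT.Pic.pic a (K := K) (M := M') (L1 := L1) (L2 := L2) (by omega) nb.KM hK1 hK2 hL12
  obtain ⟨Mx, hMx⟩ : ∃ Mx : ℕ, Mx = 4 * K + 2 * M' + L1 + L2 := ⟨_, rfl⟩
  have hnM : n ≤ Mx := by rw [hMx]; exact hE.mx
  obtain ⟨c0, k0, hc0, hT⟩ := hTT H0 le_rfl Mx
  obtain ⟨α, A, s1, hα, hA, hs1, hsc⟩ := scale_low (H := H0) (k0 := k0) hH1 hμ
  have hH1' : (1 : ℝ) ≤ H0 := by exact_mod_cast hH1
  have hxc := HexObs.xc_pos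
  obtain ⟨S1, hS1⟩ : ∃ S1 : ℝ, S1 = (2 * Mx + (ℓp + ℓq) / μ + 10) / μ := ⟨_, rfl⟩
  refine ⟨HexObs.xc * (c0 * α), max s1 S1, by positivity, hs1.trans (le_max_left _ _), fun S hS => ?_⟩
  have hSs : s1 ≤ S := (le_max_left _ _).trans hS
  have hS1' : S1 ≤ S := (le_max_right _ _).trans hS
  have hS0 : 0 < S := by linarith
  rw [hS1, div_le_iff₀ hμ] at hS1'
  obtain ⟨D, hD⟩ : ∃ D : ℤ, D = ⌊μ * S⌋ := ⟨_, rfl⟩
  obtain ⟨k, hk0, hk1, hk2, hk3, hk4, hk5, hk6, hk7⟩ := hsc S hSs D hD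
  have h2k : (0 : ℤ) < 2 ^ k := by positivity
  have hH' : (2 : ℤ) ^ 13 ≤ H0 := by exact_mod_cast hH0
  have hkD : 147456 * (2 : ℤ) ^ k ≤ D := by nlinarith
  have hw10 : (2 : ℤ) ^ (k + 10) = 1024 * 2 ^ k := by ring
  have hwD : 144 * (2 : ℤ) ^ (k + 10) ≤ D := by rw [hw10]; linarith
  have hBD : 49152 * ((2 : ℤ) ^ k + 2) ≤ D := by linarith
  have z : Sz ℓp ℓq μ S Mx D (2 ^ (k + 10)) (2 ^ k) :=
    ⟨hS0, hS1', by rw [hD]; exact Int.floor_le _, by rw [hD]; exact Int.lt_floor_add_one _, by positivity, by omega, by linarith,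
      by exact_mod_cast hwD, by exact_mod_cast hBD, hwD, hBD⟩
  have hle := hE.le
  have hpK := nb.pK
  have hqK := nb.qK
  have hp3 := nb.p3
  have hq3 := nb.q3
  have hj1 : E p = E (p - 1) := by
    rw [hE.fst p hpK, hE.fst (p - 1) (by omega)]
  have hj2 : E (n - q) = E (n - q - 1) := by
    rw [hE.lst (n - q) (by omega) (by omega), hE.lst (n - q - 1) (by omega) (by omega)]
  have hmass := hT k n p q D E hk0 hk1 hk2 (by omega) (by omega) (by omega) hnM hE.ip hj1 hj2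
  obtain ⟨m1, m2⟩ := ml_bd hH1 hμ hS0 hk3 hk4
  have m3 : 10 * ml k ≤ 10 * (μ / (18 * H0)) ^ (4 / 3 : ℝ) * S ^ (4 / 3 : ℝ) := by
    rw [mul_assoc]
    exact mul_le_mul_of_nonneg_left m2 (by norm_num)
  have key : ∀ Q ∈ {Q : List Bool | TubeO E D (2 ^ (k + 10)) n p q (HexObs.TIW.en Q) Q ∧
      HexObs.TIW.hn (HexObs.TIW.en Q - HexObs.AR.pv E D n) ≤ 2 ^ k ∧ ml k ≤ Q.length ∧ (Q.length : ℝ) ≤ 9 * ml k},
      wd a Q ∈ {T | PicW a ℓp ℓq h M t ((μ / (72 * H0)) ^ (4 / 3 : ℝ)) (10 * (μ / (18 * H0)) ^ (4 / 3 : ℝ)) S T} :=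
    fun Q hQ => word_key hp hq hμ hμh nb hM hE hnM z m1 m3 hQ.1 hQ.2.1 hQ.2.2.1 hQ.2.2.2
  refine le_trans ?_ (ms_wd a key (fun _ _ => le_rfl))
  refine le_trans ?_ (mul_le_mul_right hmass _)
  rw [← ENNReal.ofReal_mul hxc.le]
  refine ENNReal.ofReal_le_ofReal ?_
  have e1 : c0 * (α * S ^ (3 / 4 : ℝ)) ≤ c0 * Ub k := mul_le_mul_of_nonneg_left hk5 hc0.le
  have e2 := mul_le_mul_of_nonneg_left e1 hxc.le
  have e3 : HexObs.xc * (c0 * α) * S ^ (3 / 4 : ℝ) = HexObs.xc * (c0 * (α * S ^ (3 / 4 : ℝ))) := by ring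
  rw [e3]
  exact e2

/-- **the mass of the words of the class** -/
theorem picW {a : Fin 3} {ℓp ℓq h M : ℝ} {t : ℂ} (hp : 0 < ℓp) (hq : 0 < ℓq) (hh : 0 < h)
    (h1 : 2 * (ℓp + ℓq) + h ≤ cy t) (h2 : 2 * (ℓp + ℓq) + h ≤ -(cx t + cy t)) (h3 : cy t ≤ -(cx t + cy t) + ℓp)
    (hM : a = 1 → -(cx t + cy t) ≤ 2 * M) :
    ∃ c lo hi S0 : ℝ, 0 < c ∧ 0 < lo ∧ 0 < hi ∧ 1 ≤ S0 ∧ ∀ S : ℝ, S0 ≤ S →
      ENNReal.ofReal (c * S ^ (3 / 4 : ℝ)) ≤ ms {T | PicW a ℓp ℓq h M t lo hi S T} fun _ => 1 := by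
  obtain ⟨H0, hH0, h0⟩ := picWH
  obtain ⟨c, S0, hc, hS0, h4⟩ := h0 hp hq hh h1 h2 h3 hM
  have hH : (1 : ℝ) ≤ H0 := by exact_mod_cast hH0
  exact ⟨c, _, _, S0, hc, by positivity, by positivity, hS0, h4⟩

end Pool.Agent.ROT.F3.Pw
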