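import Pool.Agent.ROT.F3PieA

/-!
# ROT, block F3, row LOC / MacD / MacT: the first start gate of the pieces, uniformly over all pieces (helper66)

* **`pie_geo`** : outside of events of a small probability (they depend on the walk only) two pieces (`Pie`) of two walks with close
  points `XS` are close with moduli of continuity, and their start cuts are stable (`StbS LG`; every size for pieces from `0`);
* **`pcC`** : comparison of the averages over the start gates of two pieces;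
* **`pcM`** : ONE Lipschitz functional for all pieces of all good walks (error at most `ε` for every piece); **`pcM_sum`** : in the mean,
  for every choice of the piece as a function of the walk, with a weight.
-/

set_option autoImplicit false

open Set Filter Topology MeasureTheory

namespace Pool.Agent.SCF.M

open Pool.Agent.NTS.Res
open Pool.Agent.CRT (CI)
open Pool.Agent.CRT.V.VC (pr pr_or pr_mono pr_nonneg)
open Pool.Agent.SCF.Z
open Pool.Agent.ROT.F3 (cv)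

/-- the union of the moduli -/
lemma pr_mds {ηf : ℝ → ℝ} {e : ℝ} {n : ℕ} (h : ∀ ω : ℝ, 0 < ω → pr n (fun s => ¬ Md (ηf ω) ω s) ≤ e) :
    ∀ l : List ℝ, (∀ ω ∈ l, 0 < ω) → pr n (fun s => ∃ ω ∈ l, ¬ Md (ηf ω) ω s) ≤ l.length * e := by
  intro l
  induction l with
  | nil =>
    intro _
    have h1 : pr n (fun s => ∃ ω ∈ ([] : List ℝ), ¬ Md (ηf ω) ω s) ≤ 0 := by
      classical
      unfold pr
      have h2 : (saw n).filter (fun s => ∃ ω ∈ ([] : List ℝ), ¬ Md (ηf ω) ω s) = ∅ := by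
        refine Finset.filter_eq_empty_iff.2 fun s _ hs => ?_
        obtain ⟨ω, hω, -⟩ := hs
        simp at hω
      have h3 : (((saw n).filter (fun s => ∃ ω ∈ ([] : List ℝ), ¬ Md (ηf ω) ω s)).card : ℝ) = 0 := by
        rw [h2]
        simp
      refine le_of_eq ?_
      have h4 : ∀ x : ℝ, x = 0 → x / ((saw n).card : ℝ) = 0 := fun x hx => by rw [hx, zero_div]
      refine h4 _ ?_
      rw [← h3]
      congr!
    simpa using h1
  | cons a l ih =>
    intro hl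
    have h1 := ih fun ω hω => hl ω (List.mem_cons_of_mem a hω)
    have h2 := h a (hl a List.mem_cons_self)
    have h3 : pr n (fun s => ∃ ω ∈ a :: l, ¬ Md (ηf ω) ω s) ≤ pr n (fun s => ¬ Md (ηf a) a s) +
        pr n (fun s => ∃ ω ∈ l, ¬ Md (ηf ω) ω s) := pr_or fun s _ hs => by
      obtain ⟨ω, hω, h4⟩ := hs
      rcases List.mem_cons.1 hω with rfl | hω
      · exact Or.inl h4
      · exact Or.inr ⟨ω, hω, h4⟩
    rw [List.length_cons]
    push_cast
    linarith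

/-- the facts about two close pieces -/
structure PieF (ηf : ℝ → ℝ) (KK R θ S : ℝ) (N1 : ℕ) (ls : List ℝ) {m m' : ℕ} (t : Fin m → Fin 3) (t' : Fin m' → Fin 3) : Prop where
  n1 : N1 ≤ m
  n1' : N1 ≤ m'
  o1 : 1 ≤ m
  o1' : 1 ≤ m'
  sm : size m ≤ KK * S
  sm' : size m' ≤ KK * S
  cd : dist (curve t) (curve t') ≤ θ
  ra : |size m / size m' - 1| ≤ θ
  ra' : |size m' / size m - 1| ≤ θ
  le : |(m : ℝ) - m'| ≤ θ * m
  le' : |(m' : ℝ) - m| ≤ θ * m'
  md : ∀ ω ∈ ls, Md (ηf ω) ω t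
  md' : ∀ ω ∈ ls, Md (ηf ω) ω t'

/-- **the geometry of close pieces** -/
theorem pie_geo {R κ K0 ε : ℝ} (hR : 0 < R) (hκ : 0 < κ) (hκ1 : κ < 1) (hK0 : 1 ≤ K0) (hε : 0 < ε) :
    ∃ (ηf : ℝ → ℝ) (KK : ℝ), (∀ ω : ℝ, 0 < ω → 0 < ηf ω) ∧ 1 ≤ KK ∧ ∀ (ls : List ℝ) (θ : ℝ) (N1 : ℕ), (∀ ω ∈ ls, 0 < ω) →
      ls.length ≤ 8 → 0 < θ → ∃ (δ : ℝ) (n0 : ℕ) (Bad : ∀ n : ℕ, (Fin n → Fin 3) → Prop), 0 < δ ∧
        (∀ n : ℕ, n0 ≤ n → pr n (fun s => Bad n s ∧ 0 < zc κ (1000 * R) (curve s)) ≤ ε) ∧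
        ∀ (n n' : ℕ) (s : Fin n → Fin 3) (s' : Fin n' → Fin 3) (S : ℝ) (i i' m m' : ℕ), n0 ≤ n → n0 ≤ n' → ¬ Bad n s →
          ¬ Bad n' s' → size n / K0 ≤ S → S ≤ size n → size n' / K0 ≤ S → S ≤ size n' → Pie R S s i m → Pie R S s' i' m' →
          dist (XS S (md s i m)) (XS S (md s' i' m')) ≤ δ →
          PieF ηf KK R θ S N1 ls (md s i m) (md s' i' m') ∧ StbS LG R θ S (md s i m) (md s' i' m') ∧
            StbS LG R θ S (md s' i' m') (md s i m) ∧ (i = 0 → i' = 0 → ∀ D : SzT, SzS D →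
              StbS D R θ S (md s i m) (md s' i' m') ∧ StbS D R θ S (md s' i' m') (md s i m)) := by
  classical
  have hK00 : 0 < K0 := by linarith
  obtain ⟨e, he'⟩ : ∃ e, e = ε / 20 := ⟨_, rfl⟩
  have he : 0 < e := by rw [he']; positivity
  choose! ηg hη0 hη1 using fun ω hω => mdP e ω he hω
  obtain ⟨ω6, hω6⟩ : ∃ ω6, ω6 = R / K0 := ⟨_, rfl⟩
  have hω60 : 0 < ω6 := by rw [hω6]; positivity
  have hω6K : ω6 * K0 = R := by rw [hω6]; field_simp
  have hη6 := hη0 ω6 hω60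
  obtain ⟨K1, hK1, hK1'⟩ : ∃ K1 : ℝ, 1 ≤ K1 ∧ 1 / ηg ω6 ≤ K1 := ⟨max 1 (1 / ηg ω6), le_max_left _ _, le_max_right _ _⟩
  have hK10 : 0 < K1 := by linarith
  obtain ⟨K2, hK2, hs2⟩ := size_cmp K1 hK10
  obtain ⟨K3, hK3, hs3⟩ := size_cmp 1 one_pos
  have hK20 : 0 < K2 := by linarith
  have hK30 : 0 < K3 := by linarith
  obtain ⟨KK, hKK⟩ : ∃ KK, KK = K0 * K3 + K2 := ⟨_, rfl⟩
  have hKK1 : 1 ≤ KK := by
    rw [hKK]
    have : 0 ≤ K0 * K3 := by positivity
    linarith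
  have hKK0 : 0 < KK := by linarith
  refine ⟨fun ω => ηg (ω / K2), KK, fun ω hω => hη0 _ (by positivity), hKK1, fun ls θ N1 hls hlen hθ => ?_⟩
  obtain ⟨θs, hθs0, hθs1, hθs2⟩ : ∃ θs : ℝ, 0 < θs ∧ θs ≤ θ / 4 ∧ θs ≤ R :=
    ⟨min (θ / 4) R, lt_min (by positivity) hR, min_le_left _ _, min_le_right _ _⟩
  obtain ⟨δ, n2, BadV, hδ, hBad, hstb⟩ := stbLV R K0 K1 κ θs e hR hK0 hK1 hκ hκ1 hθs0 he
  obtain ⟨ω5, hω5⟩ : ∃ ω5, ω5 = δ / (4 * KK) := ⟨_, rfl⟩
  have hω50 : 0 < ω5 := by rw [hω5]; positivity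
  have hη5 : 0 < ηg (ω5 / K2) := hη0 _ (by positivity)
  obtain ⟨C, hC⟩ : ∃ C, C = (2 / ηg (ω5 / K2) + 1) * ω5 := ⟨_, rfl⟩
  have hC0 : 0 < C := by rw [hC]; positivity
  obtain ⟨θ1, hθ10, ht⟩ := min_list [θ / 4, ω5 / 4, ω5 / (4 * C), ηg ω6, ηg (ω5 / K2) / 4, 1 / 2]
    (by
      intro x hx
      simp only [List.mem_cons, List.not_mem_nil, or_false] at hx
      rcases hx with rfl | rfl | rfl | rfl | rfl | rfl <;> positivity)
  simp only [List.mem_cons, List.not_mem_nil, or_false, forall_eq_or_imp, forall_eq] at ht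
  obtain ⟨t1, t2, t3, t4, t5, t6⟩ := ht
  have r1 : C * θ1 ≤ ω5 / 4 := by
    have h1 := mul_le_mul_of_nonneg_left t3 hC0.le
    have e : C * (ω5 / (4 * C)) = ω5 / 4 := by field_simp
    linarith
  obtain ⟨δX, N0, hδX, hnear⟩ := nearU (K0 := KK) (C := C + 1) hKK0 (by positivity) hθ10
  obtain ⟨n3, hn3⟩ := inv_small (θ := min θ1 1) (lt_min hθ10 one_pos)
  obtain ⟨N2, hN2⟩ := exists_nat_ge (K1 * (((N0 + N1 + n3 + 1 : ℕ) : ℝ)))
  obtain ⟨Bad, hBd⟩ : ∃ Bad : ∀ n : ℕ, (Fin n → Fin 3) → Prop, Bad = fun n s =>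
    (∃ ω ∈ ω6 :: (ω5 / K2) :: ls.map (fun ω => ω / K2), ¬ Md (ηg ω) ω s) ∨ BadV n s := ⟨_, rfl⟩
  refine ⟨δX, n2 + N2 + 1, Bad, hδX, fun n hn => ?_, ?_⟩
  · have h1 := pr_mds (ηf := ηg) (e := e) (n := n) (fun ω hω => hη1 ω hω n (by omega))
      (ω6 :: (ω5 / K2) :: ls.map (fun ω => ω / K2)) (by
        intro ω hω
        rcases List.mem_cons.1 hω with rfl | hω
        · exact hω60
        rcases List.mem_cons.1 hω with rfl | hω
        · positivity
        obtain ⟨ω', hω', rfl⟩ := List.mem_map.1 hω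
        exact div_pos (hls ω' hω') hK20)
    have h2 := hBad n (by omega)
    have h3 : pr n (fun s => Bad n s ∧ 0 < zc κ (1000 * R) (curve s)) ≤
        pr n (fun s => ∃ ω ∈ ω6 :: (ω5 / K2) :: ls.map (fun ω => ω / K2), ¬ Md (ηg ω) ω s) +
          pr n (fun s => BadV n s ∧ 0 < zc κ (1000 * R) (curve s)) := pr_or fun s _ h => by
      rw [hBd] at h
      rcases h with ⟨h | h, h'⟩
      · exact Or.inl h
      · exact Or.inr ⟨h, h'⟩
    have h4 : ((ω6 :: (ω5 / K2) :: ls.map (fun ω => ω / K2)).length : ℝ) ≤ 10 := by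
      rw [List.length_cons, List.length_cons, List.length_map]
      exact_mod_cast (show ls.length + 1 + 1 ≤ 10 by omega)
    have h5 := mul_le_mul_of_nonneg_right h4 he.le
    rw [he'] at h5 h1 h2
    linarith
  · intro n n' s s' S i i' m m' hn hn' hb hb' hS1 hS2 hS1' hS2' P P' hX
    rw [hBd] at hb hb'
    push Not at hb hb'
    obtain ⟨hmd, hbv⟩ := hb
    obtain ⟨hmd', hbv'⟩ := hb'
    have hn1 : 1 ≤ n := by omega
    have hn1' : 1 ≤ n' := by omega
    have hs := NTSF.size_pos hn1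
    have hs' := NTSF.size_pos hn1'
    have hS0 : 0 < S := lt_of_lt_of_le (by positivity) hS1
    have hRS : 0 < R * S := mul_pos hR hS0
    have hS3 : size n ≤ K0 * S := by
      rw [div_le_iff₀ hK00] at hS1
      linarith
    have hS3' : size n' ≤ K0 * S := by
      rw [div_le_iff₀ hK00] at hS1'
      linarith
    -- lengths
    have len : ∀ {n : ℕ} {s : Fin n → Fin 3} {i m : ℕ}, N2 ≤ n → size n ≤ K0 * S → Pie R S s i m → Md (ηg ω6) ω6 s →
        (n : ℝ) ≤ K1 * m ∧ N0 + N1 + n3 + 1 ≤ m := by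
      intro n s i m hn hS3 P h
      have h1 := pie_len P hR hS0 hS3 hω6K.le hω60.le h
      have h2 : (n : ℝ) ≤ K1 * m := by
        have h3 : (n : ℝ) ≤ 1 / ηg ω6 * m := by
          rw [div_mul_eq_mul_div, one_mul, le_div_iff₀ hη6]
          linarith
        exact h3.trans (mul_le_mul_of_nonneg_right hK1' (Nat.cast_nonneg m))
      refine ⟨h2, ?_⟩
      have h3 : K1 * ((N0 + N1 + n3 + 1 : ℕ) : ℝ) ≤ K1 * m := hN2.trans ((by exact_mod_cast hn : (N2 : ℝ) ≤ n).trans h2)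
      exact_mod_cast le_of_mul_le_mul_left h3 hK10
    obtain ⟨l1, l2⟩ := len (by omega) hS3 P (hmd ω6 List.mem_cons_self)
    obtain ⟨l1', l2'⟩ := len (by omega) hS3' P' (hmd' ω6 List.mem_cons_self)
    have hm1 : 1 ≤ m := by omega
    have hm1' : 1 ≤ m' := by omega
    have hm0 : (0 : ℝ) < m := by exact_mod_cast hm1
    have hm0' : (0 : ℝ) < m' := by exact_mod_cast hm1'
    have hsm := NTSF.size_pos hm1
    have hsm' := NTSF.size_pos hm1'
    have hPm := P.hm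
    have hPm' := P'.hm
    obtain ⟨a1, a2, a3⟩ := hn3 m (by omega)
    obtain ⟨b1, b2, b3⟩ := hn3 m' (by omega)
    have a2' := a2.trans (min_le_left _ _)
    have b2' := b2.trans (min_le_left _ _)
    have b3' := b3.trans (min_le_left _ _)
    have b4' := b3.trans (min_le_right _ _)
    -- sizes
    have z1 : size n ≤ K2 * size m := hs2 n m hm1 l1
    have z1' : size n' ≤ K2 * size m' := hs2 n' m' hm1' l1'
    have y1 : size m ≤ K3 * size n := hs3 m n hn1 (by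
      rw [one_mul]
      exact_mod_cast (show m ≤ n by omega))
    have y1' : size m' ≤ K3 * size n' := hs3 m' n' hn1' (by
      rw [one_mul]
      exact_mod_cast (show m' ≤ n' by omega))
    have zKK : ∀ {x y : ℝ}, x ≤ K3 * y → y ≤ K0 * S → x ≤ KK * S := by
      intro x y h1 h2
      rw [hKK, add_mul]
      have h3 := mul_le_mul_of_nonneg_left h2 hK30.le
      have h4 : 0 ≤ K2 * S := by positivity
      linarith
    have sm := zKK y1 hS3
    have sm' := zKK y1' hS3'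
    have sS : S ≤ KK * size m := by
      refine (hS2.trans z1).trans (mul_le_mul_of_nonneg_right ?_ hsm.le)
      rw [hKK]
      have : 0 ≤ K0 * K3 := by positivity
      linarith
    -- moduli
    have mdp : ∀ {n : ℕ} {s : Fin n → Fin 3} {i m : ℕ}, size n ≤ K2 * size m → Pie R S s i m → ∀ ω : ℝ, 0 < ω →
        Md (ηg (ω / K2)) (ω / K2) s → Md (ηg (ω / K2)) ω (md s i m) := by
      intro n s i m hz P ω hω h
      refine pie_md P h le_rfl (hη0 _ (by positivity)).le ?_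
      calc ω / K2 * size n ≤ ω / K2 * (K2 * size m) := mul_le_mul_of_nonneg_left hz (by positivity)
        _ = ω * size m := by field_simp
    have m5' := mdp z1' P' ω5 hω50 (hmd' _ (List.mem_cons_of_mem _ List.mem_cons_self))
    have hbd : ∀ l : ℕ, l ≤ m' → ‖pos (md s' i' m') l‖ ≤ C * size m' := by
      rw [hC]
      refine md_bd hη5 hω50.le ?_ m5'
      have h1 : 1 / (m' : ℝ) ≤ ηg (ω5 / K2) := b2'.trans (by linarith)
      rwa [div_le_iff₀ hm0'] at h1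
    obtain ⟨g1, g2, g3, g4⟩ := hnear m m' (md s i m) (md s' i' m') S (by omega) (by omega) hS0 sS
      (fun u => (curve_bd hm1' hbd u).trans (by linarith)) hX
    have g4a := abs_le.1 g4
    have g4' : |(m' : ℝ) - m| ≤ 2 * θ1 * m' := by
      rw [abs_sub_comm]
      refine g4.trans ?_
      nlinarith
    -- closeness
    have hCl : ClS S 2 (ηg (ω5 / K2) / 2) δ (md s i m) (md s' i' m') := by
      refine clS_of hm1 hm1' (cl_of hm1 hm1' g1 m5' (by linarith) (le_refl (θ1 + 1 / size m' + ω5))) sm sm' (by positivity) hbd g2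
        hC0.le ?_ hS0.le
      have h1 : θ1 + 1 / size m' + ω5 + C * θ1 ≤ 4 * ω5 := by linarith
      calc KK * (θ1 + 1 / size m' + ω5 + C * θ1) ≤ KK * (4 * ω5) := mul_le_mul_of_nonneg_left h1 hKK0.le
        _ = δ := by rw [hω5]; field_simp
    have hcl : ∀ l : ℕ, l ≤ m → l ≤ m' → ‖pos (md s i m) l - pos (md s' i' m') l‖ ≤ δ * S := by
      intro l h1 h2
      have h1' : (l : ℝ) ≤ m := by exact_mod_cast h1
      have h2' : (l : ℝ) ≤ m' := by exact_mod_cast h2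
      refine hCl l l h1 h2 (((div_le_one hm0).2 h1').trans (by norm_num)) (((div_le_one hm0').2 h2').trans (by norm_num)) ?_
      have e : (l : ℝ) / m - (l : ℝ) / m' = (l : ℝ) / m' * ((m' - m) / m) := by
        field_simp
      rw [e, abs_mul, abs_of_nonneg (by positivity : 0 ≤ (l : ℝ) / m'), abs_div, abs_of_pos hm0, abs_sub_comm]
      have h3 : (l : ℝ) / m' ≤ 1 := (div_le_one hm0').2 h2'
      refine (mul_le_of_le_one_left (by positivity) h3).trans ?_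
      rw [div_le_iff₀ hm0]
      exact g4.trans (mul_le_mul_of_nonneg_right (by linarith) hm0.le)
    have hmn : (m : ℝ) ≤ n := by exact_mod_cast (show m ≤ n by omega)
    have hmn' : (m' : ℝ) ≤ n' := by exact_mod_cast (show m' ≤ n' by omega)
    have endd : ∀ {n : ℕ} {s : Fin n → Fin 3} {i m l : ℕ}, Md (ηg ω6) ω6 s → size n ≤ K0 * S → i + m ≤ n → l ≤ m →
        (m : ℝ) - l ≤ ηg ω6 * n → ‖pos s (i + l) - pos s (i + m)‖ ≤ R * S := by
      intro n s i m l h hS3 him hlm hd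
      rw [norm_sub_rev]
      refine (h (i + l) (i + m) (by omega) him (by push_cast; linarith)).trans ?_
      calc ω6 * size n ≤ ω6 * (K0 * S) := mul_le_mul_of_nonneg_left hS3 hω60.le
        _ = R * S := by rw [← mul_assoc, hω6K]
    have hLV : LV (δ * S) (500 * R * S) (pos s i - pos s' i') i i' (min m m') s s' := by
      refine pie_lv P P' hR hS0 hcl (fun l h1 h2 => ?_) (fun l h1 h2 => ?_)
      · have h1' : (m' : ℝ) ≤ l := by exact_mod_cast h1
        refine endd (hmd ω6 List.mem_cons_self) hS3 hPm h2 ?_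
        have h3 : θ1 * (m : ℝ) ≤ ηg ω6 * n := mul_le_mul t4 hmn hm0.le hη6.le
        linarith
      · have h1' : (m : ℝ) ≤ l := by exact_mod_cast h1
        have h2' : (m : ℝ) ≤ m' := by exact_mod_cast h1.trans h2
        refine endd (hmd' ω6 List.mem_cons_self) hS3' hPm' h2 ?_
        have h3 : θ1 * (m : ℝ) ≤ ηg ω6 * n' := mul_le_mul t4 (h2'.trans hmn') hm0.le hη6.le
        linarith
    have hv : ‖pos s i - pos s' i'‖ ≤ R * S := by
      have h1 := P.ball i le_rfl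
      have h2 := P'.ball i' le_rfl
      have e2 : R / 2 * S = R * S / 2 := by ring
      rw [e2] at h1 h2
      have h3 := norm_sub_le (pos s i) (pos s' i')
      linarith
    have hball : ∀ {n : ℕ} {s : Fin n → Fin 3} {i m : ℕ}, Pie R S s i m → ∀ k : ℕ, k ≤ i → ‖pos s k‖ ≤ 4 * R * S := by
      intro n s i m P k hk
      have h1 := P.ball k hk
      have e2 : R / 2 * S = R * S / 2 := by ring
      rw [e2] at h1
      linarith
    have st : StbV R θs S m (pos s i - pos s' i') i i' s s' := hstb n n' s s' S m _ i i' (min m m') (by omega) (by omega) hbv hbv'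
      hS1 hS2 hS1' hS2' l1 hv (hball P) (hball P') hLV
    have st' : StbV R θs S m' (pos s' i' - pos s i) i' i s' s := by
      have h1 := hLV.symm
      rw [neg_sub] at h1
      exact hstb n' n s' s S m' _ i' i (min m m') (by omega) (by omega) hbv' hbv hS1' hS2' hS1 hS2 l1'
        (by rw [norm_sub_rev]; exact hv) (hball P') (hball P) h1
    have tt : θs * m / m + |(m : ℝ) - m'| / m ≤ θ := by
      have h1 : |(m : ℝ) - m'| / m ≤ θ1 := by
        rw [div_le_iff₀ hm0]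
        exact g4
      have e : θs * m / m = θs := by field_simp
      rw [e]
      linarith
    have tt' : θs * m' / m' + |(m' : ℝ) - m| / m' ≤ θ := by
      have h1 : |(m' : ℝ) - m| / m' ≤ 2 * θ1 := by
        rw [div_le_iff₀ hm0']
        exact g4'
      have e : θs * m' / m' = θs := by field_simp
      rw [e]
      linarith
    refine ⟨⟨by omega, by omega, hm1, hm1', sm, sm', g1.trans (by linarith), g2.trans (by linarith), g3.trans (by linarith),
      g4.trans (mul_le_mul_of_nonneg_right (by linarith) hm0.le), g4'.trans (mul_le_mul_of_nonneg_right (by linarith) hm0'.le),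
      fun ω hω => ?_, fun ω hω => ?_⟩, pie_stb P P' hR hS0 hm1 hm1' st (by linarith) hθs2 tt,
      pie_stb P' P hR hS0 hm1' hm1 st' (by linarith) hθs2 tt', fun h1 h2 D hD => ?_⟩
    · exact mdp z1 P ω (hls ω hω) (hmd _ (List.mem_cons_of_mem _ (List.mem_cons_of_mem _ (List.mem_map.2 ⟨ω, hω, rfl⟩))))
    · exact mdp z1' P' ω (hls ω hω) (hmd' _ (List.mem_cons_of_mem _ (List.mem_cons_of_mem _ (List.mem_map.2 ⟨ω, hω, rfl⟩))))
    · subst h1 h2
      rw [NTSF.pos_zero, NTSF.pos_zero, sub_zero] at st st'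
      exact ⟨pie_stb0 hD P P' hR hS0 hm1 hm1' st (by linarith) hθs2 tt, pie_stb0 hD P' P hR hS0 hm1' hm1 st' (by linarith) hθs2 tt'⟩

/-- **comparison of the averages over the start gates of two pieces** (`D = LG`, or pieces from `0`) -/
theorem pcC {D : SzT} (hD : SzS D) {R κ K K0 ε : ℝ} (hR : 0 < R) (hκ : 0 < κ) (hκ1 : κ < 1) (hK : 0 ≤ K) (hK0 : 1 ≤ K0)
    (hε : 0 < ε) {B : Box} (hB : B.Ok R) : ∃ (δ : ℝ) (M1 n0 : ℕ) (Bad : ∀ n : ℕ, (Fin n → Fin 3) → Prop), 0 < δ ∧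
      (∀ n : ℕ, n0 ≤ n → pr n (fun s => Bad n s ∧ 0 < zc κ (1000 * R) (curve s)) ≤ ε) ∧
      ∀ (n n' : ℕ) (s : Fin n → Fin 3) (s' : Fin n' → Fin 3) (S : ℝ) (i i' m m' : ℕ), n0 ≤ n → n0 ≤ n' → ¬ Bad n s →
        ¬ Bad n' s' → size n / K0 ≤ S → S ≤ size n → size n' / K0 ≤ S → S ≤ size n' → Pie R S s i m → Pie R S s' i' m' →
        D = LG ∨ (i = 0 ∧ i' = 0) → dist (XS S (md s i m)) (XS S (md s' i' m')) ≤ δ → ∀ M : ℕ, M1 ≤ M → 1 ≤ M →
        ∀ h : (∀ n : ℕ, (Fin n → Fin 3) → ℕ → ℝ), TestV K S h →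
          psV D M B S h (md s i m) ≤ psV D M B S h (md s' i' m') + ε := by
  obtain ⟨ηf, KK, hηf, hKK, H⟩ := pie_geo hR hκ hκ1 hK0 hε
  obtain ⟨ω2, ω3, ω4, θ, M1, n1, hω2, hω3, hω4, hθ, hcmp⟩ := cmpU hD hR hK hKK hε hB ηf hηf
  obtain ⟨δ, n0, Bad, hδ, hB1, hB2⟩ := H [ω2, ω3, ω4] θ n1 (by
    intro ω hω
    simp only [List.mem_cons, List.not_mem_nil, or_false] at hω
    rcases hω with rfl | rfl | rfl <;> assumption) (by simp) hθ
  refine ⟨min δ θ, M1, n0, Bad, lt_min hδ hθ, hB1, fun n n' s s' S i i' m m' hn hn' hb hb' hS1 hS2 hS1' hS2' P P' hDi hX M hM hM1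
    h hh => ?_⟩
  obtain ⟨F, S1, S2, S3⟩ := hB2 n n' s s' S i i' m m' hn hn' hb hb' hS1 hS2 hS1' hS2' P P' (hX.trans (min_le_left _ _))
  have hS0 : 0 < S := by
    by_contra hcon
    have h1 := F.sm
    have h2 := NTSF.size_pos F.o1
    have h3 : KK * S ≤ 0 := mul_nonpos_of_nonneg_of_nonpos (by linarith) (not_lt.1 hcon)
    linarith
  have hSD : StbS D R θ S (md s i m) (md s' i' m') ∧ StbS D R θ S (md s' i' m') (md s i m) := by
    rcases hDi with h1 | ⟨h1, h2⟩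
    · rw [h1]
      exact ⟨S1, S2⟩
    · exact S3 h1 h2 D hD
  exact hcmp m m' _ _ S F.n1 F.n1' hS0 F.sm F.sm' (F.md' ω2 (by simp)) (F.md' ω3 (by simp)) (F.md' ω4 (by simp))
    (hX.trans (min_le_right _ _)) F.cd F.ra hSD.1 hSD.2 M hM hM1 h hh

/-- **one Lipschitz functional for all pieces of all good walks** -/
theorem pcM {D : SzT} (hD : SzS D) {R κ K K0 ε : ℝ} (hR : 0 < R) (hκ : 0 < κ) (hκ1 : κ < 1) (hK : 0 ≤ K) (hK0 : 1 ≤ K0)
    (hε : 0 < ε) {B : Box} (hB : B.Ok R) : ∃ (K' : NNReal) (M1 n0 : ℕ) (Bad : ∀ n : ℕ, (Fin n → Fin 3) → Prop),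
      (∀ n : ℕ, n0 ≤ n → pr n (fun s => Bad n s ∧ 0 < zc κ (1000 * R) (curve s)) ≤ ε) ∧
      ∀ M : ℕ, M1 ≤ M → 1 ≤ M → ∀ S : ℝ, 0 < S → ∀ h : (∀ n : ℕ, (Fin n → Fin 3) → ℕ → ℝ), TestV K S h →
        ∃ φ : ℝ × CI → ℝ, LipschitzWith K' φ ∧ (∀ p, 0 ≤ φ p) ∧ (∀ p, φ p ≤ 1) ∧
          ∀ (n : ℕ) (s : Fin n → Fin 3) (i m : ℕ), n0 ≤ n → ¬ Bad n s → size n / K0 ≤ S → S ≤ size n → Pie R S s i m →
            D = LG ∨ i = 0 → |psV D M B S h (md s i m) - φ (XS S (md s i m))| ≤ ε := by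
  obtain ⟨δ, M1, n0, Bad, hδ, hB1, hB2⟩ := pcC hD hR hκ hκ1 hK hK0 hε hB
  refine ⟨Real.toNNReal (1 / δ), M1, n0, Bad, hB1, fun M hM hM1 S hS h hh => ?_⟩
  obtain ⟨φ, h1, h2, h3, h4⟩ := mcsI
    (I := {x : Σ n : ℕ, (Fin n → Fin 3) × ℕ × ℕ // n0 ≤ x.1 ∧ ¬ Bad x.1 x.2.1 ∧ size x.1 / K0 ≤ S ∧ S ≤ size x.1 ∧
      Pie R S x.2.1 x.2.2.1 x.2.2.2 ∧ (D = LG ∨ x.2.2.1 = 0)})
    (c := fun x => XS S (md x.1.2.1 x.1.2.2.1 x.1.2.2.2)) (f := fun x => psV D M B S h (md x.1.2.1 x.1.2.2.1 x.1.2.2.2))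
    (fun x => psP_nn fun k => hh.nn _ _ _) (fun x => psP_le hB hR.le hS.le fun k => hh.le _ _ _) (ε := ε) (δ := δ) hε.le hδ (by
      rintro ⟨⟨n, s, i, m⟩, q1, q2, q3, q4, q5, q6⟩ ⟨⟨n', s', i', m'⟩, q1', q2', q3', q4', q5', q6'⟩ hd
      refine hB2 n n' s s' S i i' m m' q1 q1' q2 q2' q3 q4 q3' q4' q5 q5' ?_ hd M hM hM1 h hh
      rcases q6 with q6 | q6
      · exact Or.inl q6
      · rcases q6' with q6' | q6'
        · exact Or.inl q6'
        · exact Or.inr ⟨q6, q6'⟩)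
  refine ⟨φ, h1, h2, h3, fun n s i m hn hb hS1 hS2 P hDi => ?_⟩
  obtain ⟨a1, a2⟩ := h4 ⟨⟨n, s, i, m⟩, hn, hb, hS1, hS2, P, hDi⟩
  have a1' : psV D M B S h (md s i m) ≤ φ (XS S (md s i m)) := a1
  have a2' : φ (XS S (md s i m)) ≤ psV D M B S h (md s i m) + ε := a2
  rw [abs_le]
  constructor <;> linarith

/-- **in the mean, the piece is a function of the walk**, with a weight -/
theorem pcM_sum {D : SzT} (hD : SzS D) {R κ K K0 ε : ℝ} (hR : 0 < R) (hκ : 0 < κ) (hκ1 : κ < 1) (hK : 0 ≤ K) (hK0 : 1 ≤ K0)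
    (hε : 0 < ε) {B : Box} (hB : B.Ok R) : ∃ (K' : NNReal) (M1 n0 : ℕ), ∀ M : ℕ, M1 ≤ M → 1 ≤ M → ∀ S : ℝ, 0 < S →
      ∀ h : (∀ n : ℕ, (Fin n → Fin 3) → ℕ → ℝ), TestV K S h → ∃ φ : ℝ × CI → ℝ, LipschitzWith K' φ ∧ (∀ p, 0 ≤ φ p) ∧
        (∀ p, φ p ≤ 1) ∧ ∀ n : ℕ, n0 ≤ n → size n / K0 ≤ S → S ≤ size n → ∀ (i m : (Fin n → Fin 3) → ℕ)
          (w : (Fin n → Fin 3) → ℝ), (∀ s, 0 ≤ w s) → (∀ s, w s ≤ 1) → (∀ s ∈ saw n, 0 < w s → Pie R S s (i s) (m s) ∧
            (D = LG ∨ i s = 0) ∧ 0 < zc κ (1000 * R) (curve s)) →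
          ∑ s ∈ saw n, w s * |psV D M B S h (md s (i s) (m s)) - φ (XS S (md s (i s) (m s)))| ≤ ε * ((saw n).card : ℝ) := by
  classical
  obtain ⟨K', M1, n0, Bad, hB1, hB2⟩ := pcM hD hR hκ hκ1 hK hK0 (by positivity : 0 < ε / 2) hB
  refine ⟨K', M1, n0, fun M hM hM1 S hS h hh => ?_⟩
  obtain ⟨φ, h1, h2, h3, h4⟩ := hB2 M hM hM1 S hS h hh
  refine ⟨φ, h1, h2, h3, fun n hn hS1 hS2 i m w hw0 hw1 hw => ?_⟩
  have hc := NTSF.saw_card_pos n
  have h5 : ∀ s ∈ saw n, w s * |psV D M B S h (md s (i s) (m s)) - φ (XS S (md s (i s) (m s)))| ≤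
      ε / 2 + if Bad n s ∧ 0 < zc κ (1000 * R) (curve s) then (1 : ℝ) else 0 := by
    intro s hs
    rcases eq_or_lt_of_le (hw0 s) with c1 | c1
    · rw [← c1, zero_mul]
      split_ifs <;> linarith
    · obtain ⟨P, hDi, hz⟩ := hw s hs c1
      have hp0 : 0 ≤ psV D M B S h (md s (i s) (m s)) := psP_nn fun k => hh.nn _ _ _
      have hp1 : psV D M B S h (md s (i s) (m s)) ≤ 1 := psP_le hB hR.le hS.le fun k => hh.le _ _ _
      have h6 : |psV D M B S h (md s (i s) (m s)) - φ (XS S (md s (i s) (m s)))| ≤ 1 := by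
        rw [abs_le]
        constructor <;> linarith [h2 (XS S (md s (i s) (m s))), h3 (XS S (md s (i s) (m s)))]
      have h7 := mul_le_mul (hw1 s) (le_refl |psV D M B S h (md s (i s) (m s)) - φ (XS S (md s (i s) (m s)))|) (abs_nonneg _)
        zero_le_one
      rw [one_mul] at h7
      split_ifs with hb
      · linarith
      · have h8 := h4 n s (i s) (m s) hn (fun hbd => hb ⟨hbd, hz⟩) hS1 hS2 P hDi
        linarith
  have h6 := hB1 n hn
  rw [Pool.Agent.SCF.pr_eq, div_le_iff₀ hc] at h6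
  calc _ ≤ ∑ s ∈ saw n, (ε / 2 + if Bad n s ∧ 0 < zc κ (1000 * R) (curve s) then (1 : ℝ) else 0) := Finset.sum_le_sum h5
    _ = ε / 2 * ((saw n).card : ℝ) + (((saw n).filter fun s => Bad n s ∧ 0 < zc κ (1000 * R) (curve s)).card : ℝ) := by
        rw [Finset.sum_add_distrib, Finset.sum_const, nsmul_eq_mul, Finset.sum_ite, Finset.sum_const_zero, add_zero,
          Finset.sum_const, nsmul_eq_mul, mul_one, mul_comm]
    _ ≤ _ := by
        have h7 : (((saw n).filter fun s => Bad n s ∧ 0 < zc κ (1000 * R) (curve s)).card : ℝ) ≤ ε / 2 * ((saw n).card : ℝ) := by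
          refine le_trans (le_of_eq ?_) h6
          congr!
        linarith

end Pool.Agent.SCF.M
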