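import Pool.Agent.SCF.StbLZ

/-!
# ROT, block F3, row LOC: local stability of the start cuts with a translation (helper28, after helper66's StbLA, StbLB, StbLC)

* `LV δ F v i0 i0' L s s'` : `s` behind `i0` and `v + s'` behind `i0'` are at a distance at most `δ` during `L` steps, and both walks are
  outside of the ball of radius `F` around their own starts behind it (all lengths absolute);
* `StbV` : every start cut of `s` above the initial part `[0, i0]` of `s` and above the initial part `[0, i0']` of `v + s'` has a start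
  cut of `s'` near it;
* **`stbLV : StbLV`** : every `K0 ≥ 1`; the bad events do not depend on the unit, on `v` and on the initial parts.
-/

set_option autoImplicit false

open Set Filter Topology MeasureTheory

namespace Pool.Agent.SCF.M

open Pool.Agent.NTS.Res
open Pool.Agent.CRT (CI)
open Pool.Agent.SCF.Z
open Pool.Agent.CRT.R (WC Slb slab)
open Pool.Agent.CRT.V.VC (pr pr_mono pr_or pr_of_card pr_nonneg)
open Pool.Agent.SCF.K (IsoR isoN BadN)

/-- **local closeness up to a translation `v`**, absolute lengths -/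
structure LV (δ F : ℝ) (v : ℂ) (i0 i0' L : ℕ) {n n' : ℕ} (s : Fin n → Fin 3) (s' : Fin n' → Fin 3) : Prop where
  hn : i0 + L ≤ n
  hn' : i0' + L ≤ n'
  cl : ∀ j : ℕ, j ≤ L → ‖pos s (i0 + j) - (pos s' (i0' + j) + v)‖ ≤ δ
  far : ∀ i : ℕ, i0 + L < i → i ≤ n → F ≤ ‖pos s i‖
  far' : ∀ i : ℕ, i0' + L < i → i ≤ n' → F ≤ ‖pos s' i‖
  e : F ≤ ‖pos s n‖
  e' : F ≤ ‖pos s' n'‖

lemma LV.symm {δ F : ℝ} {v : ℂ} {i0 i0' L n n' : ℕ} {s : Fin n → Fin 3} {s' : Fin n' → Fin 3}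
    (h : LV δ F v i0 i0' L s s') : LV δ F (-v) i0' i0 L s' s :=
  ⟨h.hn', h.hn, fun j hj => by
      have := h.cl j hj
      rw [← norm_neg]
      rw [show -(pos s' (i0' + j) - (pos s (i0 + j) + -v)) = pos s (i0 + j) - (pos s' (i0' + j) + v) by ring]
      exact this, h.far', h.far, h.e', h.e⟩

lemma LV.mono {δ F δ' F' : ℝ} {v : ℂ} {i0 i0' L n n' : ℕ} {s : Fin n → Fin 3} {s' : Fin n' → Fin 3}
    (h : LV δ F v i0 i0' L s s') (h1 : δ ≤ δ') (h2 : F' ≤ F) : LV δ' F' v i0 i0' L s s' :=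
  ⟨h.hn, h.hn', fun j hj => (h.cl j hj).trans h1, fun i h3 h4 => h2.trans (h.far i h3 h4), fun i h3 h4 => h2.trans (h.far' i h3 h4),
    h2.trans h.e, h2.trans h.e'⟩

lemma LC.lv {r0 δ F : ℝ} {i0 i0' L n n' : ℕ} {s : Fin n → Fin 3} {s' : Fin n' → Fin 3} (h : LC r0 δ F i0 i0' L s s') :
    LV δ F 0 i0 i0' L s s' :=
  ⟨h.hn, h.hn', fun j hj => by rw [add_zero]; exact h.cl j hj, h.far, h.far', h.e, h.e'⟩

/-- **four start cuts of `s` give a start cut of `s'`**, absolute lengths, local closeness; `p` = the first walk translated -/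
theorem stabLV {n n' : ℕ} {s : Fin n → Fin 3} {s' : Fin n' → Fin 3} {r0 V δ η F ρ ρB ρ2 dd bB G T W b κ0 K : ℝ} {v : ℂ}
    {i0 i0' L : ℕ} (hC : LV δ F v i0 i0' L s s') (hv : ‖v‖ ≤ V) (hr' : ∀ i : ℕ, i ≤ i0' → ‖pos s' i‖ ≤ r0)
    {p : ℕ → ℂ} (hp : ∀ i, p i = pos s i - v)
    (h1 : δ + 1 ≤ η) (hηG : 4 * η ≤ G) (hηT : 4 * η ≤ T) (hηb : η ≤ b) (hρ0 : 2 * b ≤ ρ)
    (hρ2 : 5 * b ≤ ρ2)
    (hρB : ρB + 4 * b ≤ ρ) (hdd : dd + 4 * b ≤ ρ) (hF : κ0 + V + ρ ≤ F) (hFK : K + bB ≤ F) (hcK : κ0 + V + b ≤ K) (hr0 : r0 ≤ K)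
    {y0 y1 y2 y3 : ℕ} (Fo : Four s ρ G T W b (i0 + y0) (i0 + y1) (i0 + y2) (i0 + y3))
    (hini : ∀ i : ℕ, i ≤ i0' → (pos s' i).re ≤ (p (i0 + y0)).re + δ)
    (hbeg : ∃ j : ℕ, j ≤ i0' + y0 ∧ bB ≤ ‖pos s' j - pos s' (i0' + y0)‖)
    (hc0' : ∀ i : ℕ, i ≤ i0 + y3 → ‖pos s i‖ ≤ κ0)
    (hB : ¬ BadS K ρB ρ2 dd bB (3 * b) (G / 2) (T / 4) W s') :
    ∃ c' : ℕ, i0' + y0 < c' ∧ c' ≤ i0' + y3 ∧ SC (ρ - 8 * b) s' c' ∧ ‖pos s' c' - p (i0 + y0)‖ ≤ 3 * b := by
  have hδ0 : 0 ≤ δ := (norm_nonneg _).trans (hC.cl 0 (Nat.zero_le _))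
  have hV : 0 ≤ V := (norm_nonneg _).trans hv
  have hpr : ∀ i j : ℕ, (p i).re - (p j).re = (pos s i).re - (pos s j).re := fun i j => by
    rw [hp, hp, Complex.sub_re, Complex.sub_re]
    ring
  have hpn : ∀ i j : ℕ, ‖p i - p j‖ = ‖pos s i - pos s j‖ := fun i j => by
    rw [hp, hp, sub_sub_sub_cancel_right]
  have hc0 : ∀ i : ℕ, i ≤ i0 + y3 → ‖p i‖ ≤ κ0 + V := fun i hi => by
    rw [hp]
    exact (norm_sub_le _ _).trans (add_le_add (hc0' i hi) hv)
  have hb1 : 1 ≤ b := by linarith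
  have hδb : δ ≤ b := by linarith
  obtain ⟨q01, q12, q23, ⟨-, a0l', a0c⟩, ⟨-, a1l', a1c⟩, ⟨-, a2l', a2c⟩, ⟨-, a3l', a3c⟩, G0', G1', G2', G3', N0'⟩ := Fo
  have cv : ∀ {x : ℕ}, (∀ i : ℕ, i ≤ x → (pos s i).re ≤ (pos s x).re) → ∀ i : ℕ, i ≤ x → (p i).re ≤ (p x).re := fun {x} h i hi => by
    have := h i hi
    have := hpr i x
    linarith
  have a0l := cv a0l'
  have a1l := cv a1l'
  have a2l := cv a2l'
  have a3l := cv a3l'
  have G0 : (p (i0 + y0)).re + G ≤ (p (i0 + y1)).re := by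
    have := hpr (i0 + y0) (i0 + y1)
    linarith
  have G1 : (p (i0 + y1)).re + T ≤ (p (i0 + y2)).re := by
    have := hpr (i0 + y1) (i0 + y2)
    linarith
  have G2 : (p (i0 + y2)).re ≤ (p (i0 + y1)).re + W := by
    have := hpr (i0 + y1) (i0 + y2)
    linarith
  have G3 : (p (i0 + y2)).re + G ≤ (p (i0 + y3)).re := by
    have := hpr (i0 + y2) (i0 + y3)
    linarith
  have N0 : ∀ i : ℕ, i0 + y0 ≤ i → i ≤ i0 + y3 → ‖p i - p (i0 + y0)‖ ≤ b := fun i h2 h3 => by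
    rw [hpn]
    exact N0' i h2 h3
  have p01 : y0 ≤ y1 := by omega
  have p12 : y1 ≤ y2 := by omega
  have p23 : y2 ≤ y3 := by omega
  have reab : ∀ z w : ℂ, |z.re - w.re| ≤ ‖z - w‖ := fun z w => by
    rw [← Complex.sub_re]
    exact Complex.abs_re_le_norm _
  have tri : ∀ x y z : ℂ, ‖x - z‖ ≤ ‖x - y‖ + ‖y - z‖ := fun x y z => norm_sub_le_norm_sub_add_norm_sub x y z
  have hx3 : i0 + y3 < n := a3c.1
  have hyL : y3 ≤ L := by
    by_contra hc
    have h2 := hC.far (i0 + y3) (by omega) hx3.le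
    have h3 := hc0' (i0 + y3) le_rfl
    linarith
  have hcl : ∀ j : ℕ, j ≤ L → ‖p (i0 + j) - pos s' (i0' + j)‖ ≤ δ := fun j hj => by
    rw [hp, show pos s (i0 + j) - v - pos s' (i0' + j) = pos s (i0 + j) - (pos s' (i0' + j) + v) by ring]
    exact hC.cl j hj
  have clr : ∀ j : ℕ, j ≤ L → |(p (i0 + j)).re - (pos s' (i0' + j)).re| ≤ δ := fun j hj => (reab _ _).trans (hcl j hj)
  have clr' : ∀ j : ℕ, j ≤ L → ‖pos s' (i0' + j) - p (i0 + j)‖ ≤ δ := fun j hj => by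
    rw [norm_sub_rev]
    exact hcl j hj
  have R0 : ∀ x, GC ρ s x → ∀ i, x ≤ i → i ≤ n → ‖p i - p x‖ ≤ ρ → (p x).re ≤ (p i).re := by
    intro x hx i hi1 hi2 hi3
    rcases Nat.eq_or_lt_of_le hi1 with h3 | h3
    · rw [h3]
    · rw [hpn] at hi3
      have h4 := hx.2.2 i h3 hi2 hi3
      have := hpr x i
      linarith
  -- the level of the pinch
  obtain ⟨y, hy⟩ : ∃ y : ℝ, y = ((p (i0 + y1)).re + (p (i0 + y2)).re) / 2 := ⟨_, rfl⟩
  have hn1 := N0 (i0 + y1) (by omega) (by omega)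
  have hn2 := N0 (i0 + y2) (by omega) (by omega)
  have hn3 := N0 (i0 + y3) (by omega) le_rfl
  -- a vertex of the second walk behind `i0' + L` is not near the pinch
  have k1n : ‖pos s' (i0' + y1)‖ ≤ κ0 + V + δ := by
    have h2 := clr' y1 (by omega)
    have h3 := hc0 (i0 + y1) (by omega)
    calc ‖pos s' (i0' + y1)‖ = ‖(pos s' (i0' + y1) - p (i0 + y1)) + p (i0 + y1)‖ := by ring_nf
      _ ≤ _ := norm_add_le _ _
      _ ≤ κ0 + V + δ := by linarith
  have nofar : ∀ i, i ≤ n' → ‖pos s' i - pos s' (i0' + y1)‖ ≤ ρ - 4 * b → i ≤ i0' + L := by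
    intro i hi hd
    by_contra hc
    have h2 := hC.far' i (by omega) hi
    have h3 : ‖pos s' i‖ ≤ ‖pos s' i - pos s' (i0' + y1)‖ + ‖pos s' (i0' + y1)‖ := by
      calc ‖pos s' i‖ = ‖(pos s' i - pos s' (i0' + y1)) + pos s' (i0' + y1)‖ := by ring_nf
        _ ≤ _ := norm_add_le _ _
    linarith
  -- the outer part of the second walk
  have out1 : ∀ i, i ≤ i0' + y0 → (pos s' i).re ≤ y - (G + T / 2 - η) := by
    intro i hi
    rcases le_or_gt i i0' with h2 | h2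
    · have h3 := hini i h2
      rw [hy]
      linarith
    · obtain ⟨j, rfl⟩ := Nat.exists_eq_add_of_le h2.le
      have h3 := a0l (i0 + j) (by omega)
      have h4 := abs_le.1 (clr j (by omega))
      rw [hy]
      linarith [h4.1]
  have back : ∀ j x, j ≤ L → ‖p x - p (i0 + y0)‖ ≤ b → ‖pos s' (i0' + j) - pos s' (i0' + y1)‖ ≤ ρ - 4 * b →
      ‖p (i0 + j) - p x‖ ≤ ρ := by
    intro j x hj hx hd
    have e1 := tri (p (i0 + j)) (pos s' (i0' + j)) (p x)
    have e2 := tri (pos s' (i0' + j)) (pos s' (i0' + y1)) (p x)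
    have e3 := tri (pos s' (i0' + y1)) (p (i0 + y1)) (p x)
    have e4 := tri (p (i0 + y1)) (p (i0 + y0)) (p x)
    have e5 := hcl j hj
    have e6 := clr' y1 (by omega)
    rw [norm_sub_rev] at hx
    linarith
  have out2 : ∀ i, i0' + y3 < i → i ≤ n' → ‖pos s' i - pos s' (i0' + y1)‖ ≤ ρ - 4 * b → y + (G + T / 2 - η) ≤ (pos s' i).re := by
    intro i hi hin hd
    have h2 := nofar i hin hd
    obtain ⟨j, rfl⟩ := Nat.exists_eq_add_of_le (show i0' ≤ i by omega)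
    have h3 := R0 _ a3c (i0 + j) (by omega) (by have := hC.hn; omega) (back j _ (by omega) hn3 hd)
    have h4 := abs_le.1 (clr j (by omega))
    rw [hy]
    linarith [h4.2]
  have inn : ∀ j, y0 ≤ j → j ≤ y3 → ‖pos s' (i0' + j) - p (i0 + y0)‖ ≤ b + δ := by
    intro j hj1 hj2
    have h2 := clr' j (by omega)
    have h3 := N0 (i0 + j) (by omega) (by omega)
    linarith [tri (pos s' (i0' + j)) (p (i0 + j)) (p (i0 + y0))]
  have cnf : ∀ i, i ≤ i0' + y3 → ‖pos s' i‖ ≤ K := by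
    intro i hi
    rcases le_or_gt i i0' with h2 | h2
    · exact (hr' i h2).trans hr0
    · obtain ⟨j, rfl⟩ := Nat.exists_eq_add_of_le h2.le
      have h3 := hc0 (i0 + j) (by omega)
      have h4 := clr' j (by omega)
      calc ‖pos s' (i0' + j)‖ = ‖(pos s' (i0' + j) - p (i0 + j)) + p (i0 + j)‖ := by ring_nf
        _ ≤ _ := norm_add_le _ _
        _ ≤ K := by linarith
  have hx0r : ∀ j, y0 ≤ j → j ≤ y3 → |(pos s' (i0' + j)).re - y| ≤ 3 * b := by
    intro j hj1 hj2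
    have h4 := abs_le.1 ((reab _ _).trans (inn j hj1 hj2))
    have h5 := abs_le.1 ((reab _ _).trans hn1)
    have h6 := abs_le.1 ((reab _ _).trans hn2)
    rw [abs_le, hy]
    constructor <;> linarith [h4.1, h4.2, h5.1, h5.2, h6.1, h6.2]
  -- the pinch
  have hpin : PnW ρB s' (i0' + y0) (i0' + y1) (i0' + y2) (i0' + y3) y (G / 2) (3 * b) (T / 4) W := by
    refine ⟨by omega, by omega, by omega, by have := hC.hn'; omega, ?_, ?_, ?_, ?_, ?_, ?_⟩
    · intro i hi _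
      have h3 := out1 i hi
      linarith
    · intro i hi1 hi2
      obtain ⟨j, rfl⟩ := Nat.exists_eq_add_of_le (show i0' ≤ i by omega)
      exact hx0r j (by omega) (by omega)
    · intro i hi1 hi2 hd
      rcases Nat.eq_or_lt_of_le hi1 with h3 | h3
      · rw [← h3]
        have h4 := abs_le.1 (clr y3 (by omega))
        rw [hy]
        linarith [h4.2]
      · have h4 := out2 i h3 hi2 (by linarith)
        linarith
    · intro i hi _
      rcases le_or_gt i i0' with h2 | h2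
      · have h3 := hini i h2
        rw [hy]
        linarith
      · obtain ⟨j, rfl⟩ := Nat.exists_eq_add_of_le h2.le
        have h3 := a1l (i0 + j) (by omega)
        have h4 := abs_le.1 (clr j (by omega))
        rw [hy]
        linarith [h4.1]
    · intro i hi1 hi2
      obtain ⟨j, rfl⟩ := Nat.exists_eq_add_of_le (show i0' ≤ i by omega)
      have h3 : ‖p (i0 + j) - p (i0 + y1)‖ ≤ ρ := by
        have e1 := tri (p (i0 + j)) (p (i0 + y0)) (p (i0 + y1))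
        have e2 := N0 (i0 + j) (by omega) (by omega)
        have e3 := hn1
        rw [norm_sub_rev] at e3
        linarith
      have h4 := R0 _ a1c (i0 + j) (by omega) (by omega) h3
      have h5 := a2l (i0 + j) (by omega)
      have h6 := abs_le.1 (clr j (by omega))
      rw [abs_le, hy]
      constructor <;> linarith [h6.1, h6.2]
    · intro i hi1 hi2 hd
      have h2 := nofar i hi2 (by linarith)
      obtain ⟨j, rfl⟩ := Nat.exists_eq_add_of_le (show i0' ≤ i by omega)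
      have h3 := R0 _ a2c (i0 + j) (by omega) (by have := hC.hn; omega) (back j _ (by omega) hn2 (by linarith))
      have h4 := abs_le.1 (clr j (by omega))
      rw [hy]
      linarith [h4.2]
  -- the end
  have hend : ∃ j : ℕ, i0' + y3 ≤ j ∧ j ≤ n' ∧ bB ≤ ‖pos s' j - pos s' (i0' + y3)‖ := by
    refine ⟨n', by have := hC.hn'; omega, le_rfl, ?_⟩
    have h2 := cnf (i0' + y3) le_rfl
    have h3 := norm_sub_norm_le (pos s' n') (pos s' (i0' + y3))
    linarith [hC.e']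
  -- the cut
  have hcut : ∃ i, WC ρ2 s' i ∧ ‖pos s' i - pos s' (i0' + y1)‖ ≤ dd ∧ |(pos s' i).re - y| ≤ G / 2 := by
    by_contra hcon
    refine hB ⟨_, _, _, _, _, cnf, hpin, hbeg, hend, fun i h3 h4 => ?_⟩
    by_contra h5
    exact hcon ⟨i, h3, h4, not_lt.1 h5⟩
  obtain ⟨c, hc, hcd, hcl3⟩ := hcut
  obtain ⟨w1, w2, w3, w4, w5⟩ := hc
  have hcl4 := abs_le.1 hcl3
  have hc1 : i0' + y0 < c := by
    by_contra h3
    have := out1 c (not_lt.1 h3)
    linarith [hcl4.1]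
  have hc2 : c ≤ i0' + y3 := by
    by_contra h3
    have := out2 c (not_le.1 h3) w1.le (by linarith)
    linarith [hcl4.2]
  obtain ⟨jc, rfl⟩ := Nat.exists_eq_add_of_le (show i0' ≤ c by omega)
  have hcn := inn jc (by omega) (by omega)
  -- near vertices
  have hnear : ∀ j, y0 ≤ j → j ≤ y3 → ‖pos s' (i0' + j) - (pos s' (i0' + jc) + 1 / 2)‖ ≤ ρ2 := by
    intro j hj1 hj2
    have h3 := inn j hj1 hj2
    have h4 : ‖pos s' (i0' + j) - pos s' (i0' + jc)‖ ≤ 2 * b + 2 * δ := by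
      have e1 := tri (pos s' (i0' + j)) (p (i0 + y0)) (pos s' (i0' + jc))
      rw [norm_sub_rev (p (i0 + y0)) (pos s' (i0' + jc))] at e1
      linarith
    calc ‖pos s' (i0' + j) - (pos s' (i0' + jc) + 1 / 2)‖ = ‖(pos s' (i0' + j) - pos s' (i0' + jc)) - 1 / 2‖ := by ring_nf
      _ ≤ ‖pos s' (i0' + j) - pos s' (i0' + jc)‖ + ‖(1 / 2 : ℂ)‖ := norm_sub_le _ _
      _ ≤ ρ2 := by
          rw [Pool.Agent.CRT.R.norm_half]
          linarith
  refine ⟨i0' + jc, hc1, hc2, ⟨w2, ?_, w1, w3, ?_⟩, by linarith⟩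
  · intro i hi
    rcases le_or_gt i (i0' + y0) with h3 | h3
    · have := out1 i h3
      linarith [hcl4.1]
    · obtain ⟨j, rfl⟩ := Nat.exists_eq_add_of_le (show i0' ≤ i by omega)
      exact w4 _ hi (hnear j (by omega) (by omega))
  · intro i hi hin hd
    rcases le_or_gt i (i0' + y3) with h3 | h3
    · obtain ⟨j, rfl⟩ := Nat.exists_eq_add_of_le (show i0' ≤ i by omega)
      exact w5 _ hi hin (hnear j (by omega) (by omega))
    · have h4 := out2 i h3 hin (by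
        have e1 := tri (pos s' i) (pos s' (i0' + jc)) (pos s' (i0' + y1))
        have e2 := tri (pos s' (i0' + jc)) (p (i0 + y0)) (pos s' (i0' + y1))
        have e3 := inn y1 p01 (by omega)
        rw [norm_sub_rev] at e3
        linarith)
      linarith [hcl4.2]


/-- **four start cuts around a start cut**, unit `S` -/
theorem fourV {n : ℕ} {s : Fin n → Fin 3} {S R β b E0 T0 E1 T1 E2 T2 Q' : ℝ} (hS : 0 < S) (hβ : 0 < β) (hβR : β ≤ R)
    (hb : 0 < b) (hbβ : b ≤ β) (hn1 : 2 ≤ β * S) (hn2 : 1 ≤ b * S) (hT2 : 0 < T2) (hE2 : 2 * E2 ≤ T1)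
    (hE1 : 2 * E1 ≤ T0) (hQ' : 5 * R + β ≤ Q')
    (hI0 : ∀ i : ℕ, 36 * R ≤ i * β → (i : ℝ) * β ≤ 130 * R → NI (Q' * S) (i * β * S) (β * S) (E0 * S) (T0 * S) s)
    (hI1 : ∀ i : ℕ, 36 * R ≤ i * β → (i : ℝ) * β ≤ 130 * R → NI (Q' * S) (i * β * S) (β * S) (E1 * S) (T1 * S) s)
    (hI2 : ∀ i : ℕ, 36 * R ≤ i * β → (i : ℝ) * β ≤ 130 * R → NI (Q' * S) (i * β * S) (β * S) (E2 * S) (T2 * S) s)
    (hsl : ∀ i j : ℕ, i ≤ j → j ≤ n → (∀ l : ℕ, i ≤ l → l ≤ j → |(pos s l).re - (pos s i).re| ≤ 2 * E0 * S) →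
      ‖pos s j - pos s i‖ < b * S)
    {ρ : ℝ} {c : ℕ} (hρ : 40 * R ≤ ρ) (hρ' : ρ ≤ 130 * R) (hc : SC (ρ * S) s c)
    (hcf : ∀ i : ℕ, i ≤ c → ‖pos s i‖ ≤ 5 * R * S) :
    ∃ x0 x1 x2 x3 : ℕ, Four s ((ρ - 4 * β) * S) ((T1 - E2) * S) (T2 * S) (E2 * S) (b * S) x0 x1 x2 x3 ∧ x0 ≤ c ∧ c ≤ x3 ∧
      ∀ i : ℕ, i ≤ x3 → ‖pos s i‖ ≤ (5 * R + 2 * b) * S := by
  have hR : 0 < R := hβ.trans_le hβR
  -- the radius of the grid
  obtain ⟨q, hq⟩ : ∃ q : ℕ, q = ⌊(ρ - β / 2) / β⌋₊ := ⟨_, rfl⟩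
  have hq1 : (q : ℝ) * β ≤ ρ - β / 2 := by
    have h := Nat.floor_le (a := (ρ - β / 2) / β) (div_nonneg (by linarith) hβ.le)
    rw [← hq, le_div_iff₀ hβ] at h
    exact h
  have hq2 : ρ - β / 2 < (q : ℝ) * β + β := by
    have h := Nat.lt_floor_add_one ((ρ - β / 2) / β)
    rw [← hq, div_lt_iff₀ hβ] at h
    linarith
  have hq3 : 1 ≤ q := by
    by_contra hcon
    have : q = 0 := by omega
    rw [this] at hq2
    push_cast at hq2
    linarith
  have hq4 : ((q - 1 : ℕ) : ℝ) = (q : ℝ) - 1 := by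
    rw [Nat.cast_sub hq3, Nat.cast_one]
  have i0 := hI0 q (by linarith) (by linarith)
  have i1 := hI1 q (by linarith) (by linarith)
  have i2 := hI2 (q - 1) (by rw [hq4]; linarith) (by rw [hq4]; linarith)
  rw [hq4] at i2
  have e1 : ((q : ℝ) - 1) * β * S = q * β * S - β * S := by ring
  rw [e1] at i2
  have hbS : b * S ≤ β * S := mul_le_mul_of_nonneg_right hbβ hS.le
  have hβS : β * S ≤ R * S := mul_le_mul_of_nonneg_right hβR hS.le
  have hqS : q * β * S ≤ (ρ - β / 2) * S := mul_le_mul_of_nonneg_right hq1 hS.le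
  have hqS2 : (ρ - β / 2 - β) * S ≤ q * β * S := mul_le_mul_of_nonneg_right (by linarith) hS.le
  have hρS : 40 * R * S ≤ ρ * S := mul_le_mul_of_nonneg_right hρ hS.le
  have hRS : 0 < R * S := mul_pos hR hS
  have x1 : (ρ - β / 2) * S = ρ * S - β * S / 2 := by ring
  have x2 : (ρ - β / 2 - β) * S = ρ * S - 3 / 2 * (β * S) := by ring
  rw [x1] at hqS
  rw [x2] at hqS2
  obtain ⟨x0, x1, x2, x3, F, f1, f2, f3⟩ := stabA (Q := 5 * R * S) (Q' := Q' * S) (b := β * S) (bs := b * S) (r := q * β * S)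
    (E0 := E0 * S) (T0 := T0 * S) (E1 := E1 * S) (T1 := T1 * S) (E2 := E2 * S) (T2 := T2 * S) hc hcf
    (by
      have := mul_le_mul_of_nonneg_right hQ' hS.le
      linarith) i0 i1 i2
    (fun i j h1 h2 h3 => hsl i j h1 h2 fun l h4 h5 => (h3 l h4 h5).trans (le_of_eq (by ring))) hn2 hbS
    (by linarith) (by linarith) (mul_pos hT2 hS)
    (by
      have := mul_le_mul_of_nonneg_right hE2 hS.le
      linarith)
    (by
      have := mul_le_mul_of_nonneg_right hE1 hS.le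
      linarith) hn1 (by positivity)
  have near := F.near
  refine ⟨x0, x1, x2, x3, ?_, f1, f2, ?_⟩
  · have hle : (ρ - 4 * β) * S ≤ q * β * S - 2 * (β * S) - 1 := by
      have e : (ρ - 4 * β) * S = ρ * S - 4 * (β * S) := by ring
      rw [e]
      linarith
    exact ⟨F.h01, F.h12, F.h23, sc_le F.c0 hle, sc_le F.c1 hle, sc_le F.c2 hle, sc_le F.c3 hle,
      by have := F.g01; rwa [show (T1 - E2) * S = T1 * S - E2 * S by ring], F.g12, F.w12,
      by have := F.g23; rwa [show (T1 - E2) * S = T1 * S - E2 * S by ring], F.near⟩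
  · intro i hi
    have e : (5 * R + 2 * b) * S = 5 * R * S + 2 * (b * S) := by ring
    have hb0 : 0 < b * S := mul_pos hb hS
    rw [e]
    rcases Nat.lt_or_ge i c with g | g
    · linarith [hcf i g.le]
    · calc ‖pos s i‖ = ‖(pos s i - pos s x0) - (pos s c - pos s x0) + pos s c‖ := by ring_nf
        _ ≤ ‖(pos s i - pos s x0) - (pos s c - pos s x0)‖ + ‖pos s c‖ := norm_add_le _ _
        _ ≤ ‖pos s i - pos s x0‖ + ‖pos s c - pos s x0‖ + ‖pos s c‖ := by gcongr; exact norm_sub_le _ _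
        _ ≤ _ := by linarith [near i (f1.trans g) hi, near c f1 f2, hcf c le_rfl]

/-- every start cut of `s` with a radius in `[40 R, 130 R]` and a start piece in the ball `5 R`, above the initial parts (or, if
`i0 = i0' = 0`, with a start piece of diameter at least `R / 8`), has a start cut of `s'` near it; `v` is absolute -/
def StbV (R θ S N : ℝ) (v : ℂ) (i0 i0' : ℕ) {n n' : ℕ} (s : Fin n → Fin 3) (s' : Fin n' → Fin 3) : Prop :=
  ∀ (ρ : ℝ) (c : ℕ), 40 * R ≤ ρ → ρ ≤ 130 * R → SC (ρ * S) s c → (∀ i : ℕ, i ≤ c → ‖pos s i‖ ≤ 5 * R * S) →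
    ((i0 = 0 ∧ i0' = 0 ∧ DmG (R / 8 * S) s c) ∨ ((∀ i : ℕ, i ≤ i0 → (pos s i).re + R / 16 * S ≤ (pos s c).re) ∧
      ∀ i : ℕ, i ≤ i0' → (pos s' i).re + v.re + R / 16 * S ≤ (pos s c).re)) →
    ∃ c' : ℕ, i0' ≤ c' ∧ SC ((ρ - θ) * S) s' c' ∧ |((c : ℝ) - i0) - ((c' : ℝ) - i0')| ≤ θ * N ∧
      ‖pos s c - (pos s' c' + v)‖ ≤ θ * S

/-- **`StbV` from four start cuts around every start cut** -/
theorem stbV_of {n n' : ℕ} {s : Fin n → Fin 3} {s' : Fin n' → Fin 3} {S N R θ δ η d ρB ρ2 dd G T W b K : ℝ} {v : ℂ}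
    {i0 i0' L : ℕ} (hS : 0 < S) (hR : 0 < R)
    (hC : LV (δ * S) (500 * R * S) v i0 i0' L s s') (hv : ‖v‖ ≤ R * S) (hr' : ∀ i : ℕ, i ≤ i0' → ‖pos s' i‖ ≤ 4 * R * S) (h1 : δ * S + 1 ≤ η * S) (hηG : 4 * η ≤ G) (hηT : 4 * η ≤ T)
    (hηb : η ≤ b) (hbR : 200 * b ≤ R) (hρ2 : 5 * b ≤ ρ2) (hρB : ρB + 4 * b + d ≤ 40 * R) (hdd : dd + 4 * b + d ≤ 40 * R)
    (hd : 0 ≤ d) (hdR : d ≤ R) (hK : K = 8 * R) (hθ : d + 8 * b ≤ θ)
    (hA : ∀ (ρ : ℝ) (c : ℕ), 40 * R ≤ ρ → ρ ≤ 130 * R → SC (ρ * S) s c → (∀ i : ℕ, i ≤ c → ‖pos s i‖ ≤ 5 * R * S) →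
      ∃ x0 x1 x2 x3 : ℕ, Four s ((ρ - d) * S) (G * S) (T * S) (W * S) (b * S) x0 x1 x2 x3 ∧ x0 ≤ c ∧ c ≤ x3 ∧
        ∀ i : ℕ, i ≤ x3 → ‖pos s i‖ ≤ (5 * R + 2 * b) * S)
    (hT : ∀ i j : ℕ, i ≤ j → j ≤ n → (∀ l : ℕ, i ≤ l → l ≤ j → |(pos s l).re - (pos s i).re| ≤ b * S) → (j : ℝ) - i ≤ θ * N)
    (hB : ¬ BadS (K * S) (ρB * S) (ρ2 * S) (dd * S) (R / 50 * S) (3 * (b * S)) (G * S / 2) (T * S / 4) (W * S) s') :
    StbV R θ S N v i0 i0' s s' := by
  intro ρ c hρ hρ' hc hcf hlev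
  obtain ⟨x0, x1, x2, x3, F, hx0, hx3, hc0⟩ := hA ρ c hρ hρ' hc hcf
  have hδ0 : 0 ≤ δ * S := (norm_nonneg _).trans (hC.cl 0 (Nat.zero_le _))
  have hηb' : η * S ≤ b * S := mul_le_mul_of_nonneg_right hηb hS.le
  have hbS : 1 ≤ b * S := by linarith
  have hδb : δ * S ≤ b * S := by linarith
  have hbRS : 200 * (b * S) ≤ R * S := by
    have := mul_le_mul_of_nonneg_right hbR hS.le
    linarith
  have hRS : 0 < R * S := mul_pos hR hS
  have hx3n : x3 < n := F.c3.2.2.1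
  have near := F.near
  have h01 := F.h01
  have h12 := F.h12
  have h23 := F.h23
  have hx3L : x3 ≤ i0 + L := by
    by_contra h
    have h2 := hC.far x3 (by omega) hx3n.le
    have h3 := hc0 x3 le_rfl
    have e : (5 * R + 2 * b) * S = 5 * (R * S) + 2 * (b * S) := by ring
    rw [e] at h3
    linarith
  have hcx : ‖pos s c - pos s x0‖ ≤ b * S := near c hx0 hx3
  have hcre : |(pos s c).re - (pos s x0).re| ≤ b * S := by
    rw [← Complex.sub_re]
    exact (Complex.abs_re_le_norm _).trans hcx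
  -- the initial parts
  have hi0 : i0 ≤ x0 := by
    rcases hlev with ⟨h2, -, -⟩ | ⟨h2, -⟩
    · omega
    · by_contra h
      have h3 := h2 x0 (by omega)
      have h5 := abs_le.1 hcre
      have e : R / 16 * S = R * S / 16 := by ring
      rw [e] at h3
      linarith [h5.2]
  obtain ⟨y0, rfl⟩ := Nat.exists_eq_add_of_le hi0
  obtain ⟨y1, rfl⟩ := Nat.exists_eq_add_of_le (show i0 ≤ x1 by omega)
  obtain ⟨y2, rfl⟩ := Nat.exists_eq_add_of_le (show i0 ≤ x2 by omega)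
  obtain ⟨y3, rfl⟩ := Nat.exists_eq_add_of_le (show i0 ≤ x3 by omega)
  have hcl := hC.cl y0 (by omega)
  have hclr : |(pos s (i0 + y0)).re - ((pos s' (i0' + y0)).re + v.re)| ≤ δ * S := by
    rw [← Complex.add_re, ← Complex.sub_re]
    exact (Complex.abs_re_le_norm _).trans hcl
  have hini : ∀ i : ℕ, i ≤ i0' → (pos s' i).re ≤ (pos s (i0 + y0) - v).re + δ * S := by
    intro i hi
    rw [Complex.sub_re]
    rcases hlev with ⟨h20, h2, -⟩ | ⟨-, h2⟩
    · subst h20 h2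
      have h3 : i = 0 := by omega
      have h4 := F.c0.2.1 0 (Nat.zero_le _)
      have h5 := hC.cl 0 (Nat.zero_le _)
      rw [add_zero, NTSF.pos_zero, NTSF.pos_zero, zero_add, zero_sub, norm_neg] at h5
      have h6 := (Complex.re_le_norm v).trans h5
      rw [NTSF.pos_zero, Complex.zero_re] at h4
      rw [h3, NTSF.pos_zero, Complex.zero_re]
      linarith
    · have h3 := h2 i hi
      have h5 := abs_le.1 hcre
      have e : R / 16 * S = R * S / 16 := by ring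
      rw [e] at h3
      linarith [h5.2]
  have hbeg : ∃ j : ℕ, j ≤ i0' + y0 ∧ R / 50 * S ≤ ‖pos s' j - pos s' (i0' + y0)‖ := by
    have e50 : R / 50 * S = R * S / 50 := by ring
    rcases hlev with ⟨h2, h2', hD⟩ | ⟨-, h2⟩
    · subst h2 h2'
      have e8 : R / 8 * S = R * S / 8 := by ring
      rw [e8] at hD
      obtain ⟨i, j, hi, hj, hd2⟩ := dm_x0 (a := R * S / 8) (b := b * S) hx0 hx3 (by linarith) near hD
      have key : ∀ l : ℕ, l ≤ 0 + y0 → R * S / 16 - b * S ≤ ‖pos s l - pos s (0 + y0)‖ →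
          ∃ j : ℕ, j ≤ 0 + y0 ∧ R / 50 * S ≤ ‖pos s' j - pos s' (0 + y0)‖ := by
        intro l hl hd3
        refine ⟨l, hl, ?_⟩
        have f1 := hC.cl l (by omega)
        have f2 := hC.cl y0 (by omega)
        simp only [zero_add] at f1 f2 hd3 ⊢
        have e5 := norm_sub_le_norm_sub_add_norm_sub (pos s l) (pos s' l + v) (pos s y0)
        have e6 := norm_sub_le_norm_sub_add_norm_sub (pos s' l + v) (pos s' y0 + v) (pos s y0)
        rw [norm_sub_rev (pos s y0)] at f2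
        rw [add_sub_add_right_eq_sub] at e6
        rw [e50]
        linarith
      have e4 := norm_sub_le_norm_sub_add_norm_sub (pos s i) (pos s (0 + y0)) (pos s j)
      rcases le_or_gt (R * S / 16 - b * S) ‖pos s i - pos s (0 + y0)‖ with h3 | h3
      · exact key i hi h3
      · refine key j hj ?_
        rw [norm_sub_rev]
        linarith
    · refine ⟨0, Nat.zero_le _, ?_⟩
      rw [NTSF.pos_zero, zero_sub, norm_neg]
      have h3 := Complex.re_le_norm (pos s' (i0' + y0))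
      have h4 := abs_le.1 hclr
      have h5 := abs_le.1 hcre
      have h6 := h2 0 (Nat.zero_le _)
      have e : R / 16 * S = R * S / 16 := by ring
      rw [NTSF.pos_zero, Complex.zero_re, zero_add, e] at h6
      rw [e50]
      linarith [h4.1, h4.2, h5.2]
  have eK : K * S = 8 * (R * S) := by rw [hK]; ring
  have hρS : (ρ - d) * S = ρ * S - d * S := by ring
  have hρ3 : 40 * R * S ≤ ρ * S := mul_le_mul_of_nonneg_right hρ hS.le
  have hρ4 : ρ * S ≤ 130 * R * S := mul_le_mul_of_nonneg_right hρ' hS.le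
  have hdS : 0 ≤ d * S := mul_nonneg hd hS.le
  have hdRS : d * S ≤ R * S := mul_le_mul_of_nonneg_right hdR hS.le
  have z1 := mul_le_mul_of_nonneg_right hηG hS.le
  have z2 := mul_le_mul_of_nonneg_right hηT hS.le
  have z3 := mul_le_mul_of_nonneg_right hρ2 hS.le
  have z4 := mul_le_mul_of_nonneg_right hρB hS.le
  have z5 := mul_le_mul_of_nonneg_right hdd hS.le
  have z7 := mul_le_mul_of_nonneg_right hθ hS.le
  obtain ⟨c', c1, c2, c3, c4⟩ := stabLV (V := R * S) (r0 := 4 * R * S) (p := fun i => pos s i - v) (η := η * S) (ρ := (ρ - d) * S) (ρB := ρB * S) (ρ2 := ρ2 * S) (dd := dd * S)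
    (bB := R / 50 * S) (κ0 := (5 * R + 2 * b) * S) (K := K * S) hC hv hr' (fun _ => rfl) h1 (by linarith) (by linarith) hηb'
    (by rw [hρS]; linarith) (by linarith) (by rw [hρS]; linarith) (by rw [hρS]; linarith)
    (by
      have e : (5 * R + 2 * b) * S = 5 * (R * S) + 2 * (b * S) := by ring
      rw [hρS, e]
      linarith)
    (by rw [eK]; linarith)
    (by
      have e : (5 * R + 2 * b) * S = 5 * (R * S) + 2 * (b * S) := by ring
      rw [eK, e]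
      linarith)
    (by rw [eK]; linarith) F hini hbeg hc0 hB
  refine ⟨c', by omega, sc_mono c3 ?_, ?_, ?_⟩
  · have e : (ρ - θ) * S = ρ * S - θ * S := by ring
    rw [hρS, e]
    linarith
  · have t1 : ((i0 + y3 : ℕ) : ℝ) - ((i0 + y0 : ℕ) : ℝ) ≤ θ * N := by
      refine hT _ _ (by omega) hx3n.le fun l l1 l2 => ?_
      rw [← Complex.sub_re]
      exact (Complex.abs_re_le_norm _).trans (near l l1 l2)
    push_cast at t1
    have t2 : ((i0 : ℝ) + y0) ≤ c := by exact_mod_cast hx0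
    have t3 : (c : ℝ) ≤ i0 + y3 := by exact_mod_cast hx3
    have t4 : ((i0' : ℝ) + y0) ≤ c' := by exact_mod_cast c1.le
    have t5 : (c' : ℝ) ≤ i0' + y3 := by exact_mod_cast c2
    rw [abs_le]
    constructor <;> linarith
  · have e1 := norm_sub_le_norm_sub_add_norm_sub (pos s c) (pos s (i0 + y0)) (pos s' c')
    have e2 : pos s c - (pos s' c' + v) = (pos s c - pos s (i0 + y0)) - (pos s' c' - (pos s (i0 + y0) - v)) := by ring
    rw [e2]
    have e3 := norm_sub_le (pos s c - pos s (i0 + y0)) (pos s' c' - (pos s (i0 + y0) - v))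
    linarith


/-- an isolated window cut for one of the radii of the grid -/
def IsoV (R β e t : ℝ) (j : ℕ) (n : ℕ) (s : Fin n → Fin 3) : Prop :=
  2 * β ≤ j * β ∧ (j : ℝ) * β ≤ 130 * R ∧
    IsoR (8 * R * size n) (j * β * size n) (j * β * size n - β * size n) (β * size n / 2) (e * size n) (t * size n) s

lemma iso_allV {R κ β : ℝ} (hκ : 0 < κ) (hκ1 : κ < 1) (hR : 0 < R) (hβ : 0 < β) (J : ℕ) {e : ℝ} (he : 0 < e)
    {ε t0 : ℝ} (hε : 0 < ε) (ht0 : 0 < t0) : ∃ t : ℝ, 0 < t ∧ t ≤ t0 ∧ ∃ N0 : ℕ, ∀ N : ℕ, N0 ≤ N →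
      pr N (fun s => ∃ j : ℕ, j < J ∧ IsoV R β e t j N s ∧ 0 < zc κ (1000 * R) (curve s)) ≤ ε := by
  refine pr_fam (P := fun j t n s => IsoV R β e t j n s ∧ 0 < zc κ (1000 * R) (curve s)) ?_ J ?_ ε hε t0 ht0
  · rintro j t t' n s htt ⟨⟨h1, h2, h3⟩, h4⟩
    exact ⟨⟨h1, h2, isoR_mono (mul_le_mul_of_nonneg_right htt (Real.sqrt_nonneg _)) h3⟩, h4⟩
  · intro j _ ε' hε'
    by_cases hj : 2 * β ≤ j * β ∧ (j : ℝ) * β ≤ 130 * R
    · obtain ⟨t, ht, N0, hN0⟩ := isoN (ε := ε') (κ := κ) (c := 1000 * R) (R' := 8 * R) (r := j * β) (b := β) (e := e) hε' hκ hκ1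
        hβ hj.1 he (by linarith) (by linarith [hj.2])
      refine ⟨t, ht, N0, fun N hN => (pr_mono fun s _ hs => ?_).trans (hN0 N hN)⟩
      exact ⟨hs.1.2.2, hs.2⟩
    · refine ⟨1, one_pos, 0, fun N _ => ?_⟩
      exact (pr_none fun s hs => hj ⟨hs.1.1, hs.1.2.1⟩).trans hε'.le

/-- **change of the unit** -/
lemma ni_unitV {n : ℕ} {s : Fin n → Fin 3} {S R β K0 E T : ℝ} {J : ℕ} (hs : 0 < size n) (hS : 0 < S) (hR : 0 < R) (hβ : 0 < β)
    (hβR : 100 * β ≤ R) (hK0 : 1 ≤ K0) (hS1 : size n / K0 ≤ S) (hS2 : S ≤ size n) (hE : 0 ≤ E) (hT : 0 ≤ T)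
    (hJ : 130 * R < J * (β / (4 * K0))) (h : ∀ j : ℕ, j < J → ¬ IsoV R (β / (4 * K0)) (E / K0) T j n s) :
    ∀ i : ℕ, 36 * R ≤ i * β → (i : ℝ) * β ≤ 130 * R → NI (8 * R * S) (i * β * S) (β * S) (E * S) (T * S) s := by
  intro i hi1 hi2 k hk hw
  have hK : (0 : ℝ) < K0 := by linarith
  obtain ⟨β', hβ'⟩ : ∃ β' : ℝ, β' = β / (4 * K0) := ⟨_, rfl⟩
  rw [← hβ'] at hJ h
  have hβ0' : 0 < β' := by rw [hβ']; positivity
  have e4 : 4 * K0 * β' = β := by rw [hβ']; field_simp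
  have hS1' : size n ≤ K0 * S := by
    rw [div_le_iff₀ hK] at hS1
    linarith
  obtain ⟨r, hr⟩ : ∃ r : ℝ, r = i * β * S / size n := ⟨_, rfl⟩
  have hrs : r * size n = i * β * S := by rw [hr]; field_simp
  obtain ⟨j, hj⟩ : ∃ j : ℕ, j = ⌊r / β'⌋₊ := ⟨_, rfl⟩
  have hr0 : 0 ≤ r := by rw [hr]; positivity
  have j1 : (j : ℝ) * β' ≤ r := by
    have h1 := Nat.floor_le (a := r / β') (by positivity)
    rwa [← hj, le_div_iff₀ hβ0'] at h1
  have j2 : r < (j : ℝ) * β' + β' := by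
    have h1 := Nat.lt_floor_add_one (r / β')
    rw [← hj, div_lt_iff₀ hβ0'] at h1
    linarith
  have hrR : 36 * R ≤ K0 * r := by
    have h1 : 36 * R * size n ≤ K0 * r * size n := by
      calc 36 * R * size n ≤ 36 * R * (K0 * S) := mul_le_mul_of_nonneg_left hS1' (by positivity)
        _ ≤ (i * β) * (K0 * S) := mul_le_mul_of_nonneg_right hi1 (by positivity)
        _ = K0 * (i * β * S) := by ring
        _ = K0 * r * size n := by rw [← hrs]; ring
    exact le_of_mul_le_mul_right h1 hs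
  have hrR' : r ≤ 130 * R := by
    have h1 : r * size n ≤ 130 * R * size n := by
      rw [hrs]
      calc i * β * S ≤ 130 * R * S := mul_le_mul_of_nonneg_right hi2 hS.le
        _ ≤ 130 * R * size n := mul_le_mul_of_nonneg_left hS2 (by positivity)
    exact le_of_mul_le_mul_right h1 hs
  have hbβ : β' ≤ β / 4 := by
    have h1 : 4 * β' ≤ 4 * K0 * β' := by nlinarith
    linarith
  have hr3 : 3 * β' ≤ r := by
    have h1 : K0 * (3 * β') ≤ K0 * r := by
      have h2 : K0 * (3 * β') ≤ β := by nlinarith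
      linarith
    exact le_of_mul_le_mul_left h1 hK
  have hjJ : j < J := by
    by_contra hcon
    have h3 : (J : ℝ) ≤ j := by exact_mod_cast not_lt.1 hcon
    have h4 : (J : ℝ) * β' ≤ j * β' := mul_le_mul_of_nonneg_right h3 hβ0'.le
    linarith
  have h1 := h j hjJ
  have h2 : ¬ IsoR (8 * R * size n) (j * β' * size n) (j * β' * size n - β' * size n) (β' * size n / 2) (E / K0 * size n)
      (T * size n) s := fun hc => h1 ⟨by linarith, by linarith, hc⟩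
  have hni := ni_of (β := β' * size n) (Q' := 8 * R * size n) (r := j * β' * size n) (E := E / K0 * size n) (T := T * size n)
    h2 rfl rfl
  obtain ⟨l, l1, l2, l3, l4⟩ := hni k (hk.trans (mul_le_mul_of_nonneg_left hS2 (by positivity))) (hw.mono (by
    rw [← hrs]
    exact mul_le_mul_of_nonneg_right j1 hs.le))
  have hβS : 4 * (β' * size n) ≤ β * S := by
    calc 4 * (β' * size n) ≤ 4 * (β' * (K0 * S)) := by
          have := mul_le_mul_of_nonneg_left hS1' hβ0'.le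
          linarith
      _ = 4 * K0 * β' * S := by ring
      _ = β * S := by rw [e4]
  have h6 : 0 < β' * size n := mul_pos hβ0' hs
  refine ⟨l, l1.mono ?_, by linarith, le_trans ?_ l3, l4.trans ?_⟩
  · have h5 : r * size n ≤ (j * β' + β') * size n := mul_le_mul_of_nonneg_right j2.le hs.le
    have e : (j * β' + β') * size n = j * β' * size n + β' * size n := by ring
    rw [e, hrs] at h5
    linarith
  · exact mul_le_mul_of_nonneg_left hS2 hT
  · rw [div_mul_eq_mul_div, div_le_iff₀ hK]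
    calc E * size n ≤ E * (K0 * S) := mul_le_mul_of_nonneg_left hS1' hE
      _ = E * S * K0 := by ring

/-- the bad event -/
def BddV (R θ β b K0 E0 T0 E1 T1 E2 T2 : ℝ) (J : ℕ) (n : ℕ) (s : Fin n → Fin 3) : Prop :=
  Slb (b / K0 * size n) (2 * E0 * size n) s ∨ ¬ Tms θ b s ∨
    BadK (8 * R * size n) (30 * R / K0 * size n) (R / (50 * K0) * size n) (3 * b * size n) (T1 / (4 * K0) * size n)
      (T2 / (4 * K0) * size n) (E2 * size n) s ∨
    (∃ j : ℕ, j < J ∧ IsoV R (β / (4 * K0)) (E0 / K0) T0 j n s) ∨ (∃ j : ℕ, j < J ∧ IsoV R (β / (4 * K0)) (E1 / K0) T1 j n s) ∨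
    ∃ j : ℕ, j < J ∧ IsoV R (β / (4 * K0)) (E2 / K0) T2 j n s

/-- **good walks with locally close positions are stable** -/
theorem stbV_good {n n' : ℕ} (hn : 1 ≤ n) (hn' : 1 ≤ n') {s : Fin n → Fin 3} {s' : Fin n' → Fin 3}
    {δ η R θ β b K0 K1 E0 T0 E1 T1 E2 T2 S N : ℝ} {v : ℂ} {J i0 i0' L : ℕ} (hR : 0 < R) (hK30 : 30 ≤ K0) (hK1 : 0 < K1)
    (hθ0 : 0 ≤ θ) (h1 : δ * S + 1 ≤ η * S) (hη1 : 8 * η ≤ T1) (hη2 : 4 * η ≤ T2) (hηb : η ≤ b) (hθ : 20 * β ≤ θ)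
    (hβR : 100 * β ≤ R) (hb : 2 * b ≤ β) (hJ : 130 * R < J * (β / (4 * K0))) (hE0 : 0 ≤ E0) (hE20 : 0 ≤ E2)
    (hE2 : 2 * E2 ≤ T1) (hE1 : 2 * E1 ≤ T0) (hE10 : 0 ≤ E1) (hT2 : 0 < T2)
    (hS1 : size n / K0 ≤ S) (hS2 : S ≤ size n) (hS1' : size n' / K0 ≤ S) (hS2' : S ≤ size n') (hN : (n : ℝ) ≤ K1 * N)
    (hbK : 100 * K0 * b ≤ R) (hv : ‖v‖ ≤ R * S) (hr' : ∀ i : ℕ, i ≤ i0' → ‖pos s' i‖ ≤ 4 * R * S)
    (hg : ¬ BddV R (θ / K1) β b K0 E0 T0 E1 T1 E2 T2 J n s) (hg' : ¬ BddV R (θ / K1) β b K0 E0 T0 E1 T1 E2 T2 J n' s')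
    (hC : LV (δ * S) (500 * R * S) v i0 i0' L s s') : StbV R θ S N v i0 i0' s s' := by
  have hK0 : 1 ≤ K0 := by linarith
  have hK : (0 : ℝ) < K0 := by linarith
  have hs := NTSF.size_pos hn
  have hs' := NTSF.size_pos hn'
  have hS : 0 < S := lt_of_lt_of_le (by positivity) hS1
  have hδ0 : 0 ≤ δ * S := (norm_nonneg _).trans (hC.cl 0 (Nat.zero_le _))
  have hηS : 1 ≤ η * S := by linarith
  have hη0 : 0 < η := by
    by_contra hc
    have : η * S ≤ 0 := mul_nonpos_of_nonpos_of_nonneg (not_lt.1 hc) hS.le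
    linarith
  have hb0 : 0 < b := by linarith
  have hβ0 : 0 < β := by linarith
  have hbS : η * S ≤ b * S := mul_le_mul_of_nonneg_right hηb hS.le
  have hβS : 2 * b * S ≤ β * S := mul_le_mul_of_nonneg_right hb hS.le
  have hnK : size n ≤ K0 * S := by
    rw [div_le_iff₀ hK] at hS1
    linarith
  have hnK' : size n' ≤ K0 * S := by
    rw [div_le_iff₀ hK] at hS1'
    linarith
  unfold BddV at hg hg'
  push Not at hg hg'
  obtain ⟨g1, g2, -, g4, g5, g6⟩ := hg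
  obtain ⟨-, -, g3, -, -, -⟩ := hg'
  have hT0 : 0 ≤ T0 := by linarith
  have hT1 : 0 ≤ T1 := by linarith
  have n4 := ni_unitV hs hS hR hβ0 hβR hK0 hS1 hS2 hE0 hT0 hJ g4
  have n5 := ni_unitV hs hS hR hβ0 hβR hK0 hS1 hS2 hE10 hT1 hJ g5
  have n6 := ni_unitV hs hS hR hβ0 hβR hK0 hS1 hS2 hE20 hT2.le hJ g6
  refine stbV_of (η := η) (d := 4 * β) (ρB := 30 * R) (ρ2 := 15 * R / K0) (dd := 8 * R) (G := T1 / 2) (T := T2) (W := E2) (b := b)
    (K := 8 * R) hS hR hC hv hr' h1 (by linarith) hη2 hηb (by linarith) (by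
      rw [le_div_iff₀ hK]
      linarith) (by linarith) (by linarith) (by linarith)
    (by linarith) rfl (by linarith) ?_ ?_ ?_
  · intro ρ c hρ hρ' hc hQ
    obtain ⟨x0, x1, x2, x3, F, f1, f2, f3⟩ := fourV (Q' := 8 * R) hS hβ0 (by linarith) hb0 (by linarith)
      (by linarith) (by linarith) hT2 hE2 hE1 (by linarith) n4 n5 n6 (fun i j h3 h4 h5 => by
        by_contra hcon
        refine g1 ⟨i, j, h3, h4, fun l h6 h7 => (h5 l h6 h7).trans (mul_le_mul_of_nonneg_left hS2 (by linarith)), ?_⟩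
        refine le_trans ?_ (not_lt.1 hcon)
        rw [div_mul_eq_mul_div, div_le_iff₀ hK]
        calc b * size n ≤ b * (K0 * S) := mul_le_mul_of_nonneg_left hnK hb0.le
          _ = b * S * K0 := by ring) hρ hρ' hc hQ
    have hG : T1 / 2 * S ≤ (T1 - E2) * S := mul_le_mul_of_nonneg_right (by linarith) hS.le
    exact ⟨x0, x1, x2, x3, ⟨F.h01, F.h12, F.h23, F.c0, F.c1, F.c2, F.c3, by linarith [F.g01], F.g12, F.w12,
      by linarith [F.g23], F.near⟩, f1, f2, f3⟩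
  · intro i j h3 h4 h5
    have h6 := g2 i j h3 h4 fun l l1 l2 => (h5 l l1 l2).trans (mul_le_mul_of_nonneg_left hS2 hb0.le)
    refine h6.trans ?_
    calc θ / K1 * n ≤ θ / K1 * (K1 * N) := mul_le_mul_of_nonneg_left hN (by positivity)
      _ = θ * N := by field_simp
  · intro hc
    refine g3 (hc.k (mul_le_mul_of_nonneg_left hS2' (by positivity)) ?_ ?_ ?_ ?_ ?_ ?_ ?_ (mul_le_mul_of_nonneg_left hS2' hE20))
    · calc 30 * R / K0 * size n' ≤ 30 * R / K0 * (K0 * S) := mul_le_mul_of_nonneg_left hnK' (by positivity)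
        _ = 30 * R * S := by field_simp
    · calc 15 * R / K0 * S ≤ 15 * R / K0 * size n' := mul_le_mul_of_nonneg_left hS2' (by positivity)
        _ = 30 * R / K0 * size n' / 2 := by ring
    · have h7 : 30 * R / K0 * size n' ≤ 30 * R * S := by
        calc 30 * R / K0 * size n' ≤ 30 * R / K0 * (K0 * S) := mul_le_mul_of_nonneg_left hnK' (by positivity)
          _ = 30 * R * S := by field_simp
      have h8 : 0 < R * S := mul_pos hR hS
      linarith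
    · have e : R / (50 * K0) * size n' = R * size n' / (50 * K0) := by ring
      rw [e, div_le_iff₀ (by positivity)]
      have := mul_le_mul_of_nonneg_left hnK' hR.le
      linarith
    · have := mul_le_mul_of_nonneg_left hS2' hb0.le
      linarith
    · have e : T1 / (4 * K0) * size n' = T1 * size n' / (4 * K0) := by ring
      rw [e, div_le_iff₀ (by positivity)]
      have := mul_le_mul_of_nonneg_left hnK' hT1
      linarith
    · have e : T2 / (4 * K0) * size n' = T2 * size n' / (4 * K0) := by ring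
      rw [e, div_le_iff₀ (by positivity)]
      have := mul_le_mul_of_nonneg_left hnK' hT2.le
      linarith

/-- **local stability of the start cuts with a translation**: `δ`, `n0`, `Bad` do not depend on `S, N, v, i0, i0', L` -/
def StbLV : Prop := ∀ R K0 K1 κ θ ε : ℝ, 0 < R → 1 ≤ K0 → 1 ≤ K1 → 0 < κ → κ < 1 → 0 < θ → 0 < ε →
  ∃ (δ : ℝ) (n0 : ℕ) (Bad : ∀ n : ℕ, (Fin n → Fin 3) → Prop), 0 < δ ∧
    (∀ n : ℕ, n0 ≤ n → pr n (fun s => Bad n s ∧ 0 < zc κ (1000 * R) (curve s)) ≤ ε) ∧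
    ∀ (n n' : ℕ) (s : Fin n → Fin 3) (s' : Fin n' → Fin 3) (S N : ℝ) (v : ℂ) (i0 i0' L : ℕ), n0 ≤ n → n0 ≤ n' →
      ¬ Bad n s → ¬ Bad n' s' → size n / K0 ≤ S → S ≤ size n → size n' / K0 ≤ S → S ≤ size n' → (n : ℝ) ≤ K1 * N →
      ‖v‖ ≤ R * S → (∀ i : ℕ, i ≤ i0 → ‖pos s i‖ ≤ 4 * R * S) → (∀ i : ℕ, i ≤ i0' → ‖pos s' i‖ ≤ 4 * R * S) →
      LV (δ * S) (500 * R * S) v i0 i0' L s s' → StbV R θ S N v i0 i0' s s'

/-- the case `30 ≤ K0` -/
theorem stbLV_big (hBN : BadN) {R K0 K1 κ θ ε : ℝ} (hR : 0 < R) (hK30 : 30 ≤ K0) (hK1 : 1 ≤ K1) (hκ : 0 < κ) (hκ1 : κ < 1)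
    (hθ : 0 < θ) (hε : 0 < ε) :
    ∃ (δ : ℝ) (n0 : ℕ) (Bad : ∀ n : ℕ, (Fin n → Fin 3) → Prop), 0 < δ ∧
    (∀ n : ℕ, n0 ≤ n → pr n (fun s => Bad n s ∧ 0 < zc κ (1000 * R) (curve s)) ≤ ε) ∧
    ∀ (n n' : ℕ) (s : Fin n → Fin 3) (s' : Fin n' → Fin 3) (S N : ℝ) (v : ℂ) (i0 i0' L : ℕ), n0 ≤ n → n0 ≤ n' →
      ¬ Bad n s → ¬ Bad n' s' → size n / K0 ≤ S → S ≤ size n → size n' / K0 ≤ S → S ≤ size n' → (n : ℝ) ≤ K1 * N →
      ‖v‖ ≤ R * S → (∀ i : ℕ, i ≤ i0 → ‖pos s i‖ ≤ 4 * R * S) → (∀ i : ℕ, i ≤ i0' → ‖pos s' i‖ ≤ 4 * R * S) →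
      LV (δ * S) (500 * R * S) v i0 i0' L s s' → StbV R θ S N v i0 i0' s s' := by
  have hK0 : 1 ≤ K0 := by linarith
  have hK : (0 : ℝ) < K0 := by linarith
  have hK1' : (0 : ℝ) < K1 := by linarith
  -- the displacements
  obtain ⟨β, hβ⟩ : ∃ β : ℝ, β = min (θ / 20) (R / 100) := ⟨_, rfl⟩
  have hβ0 : 0 < β := by rw [hβ]; positivity
  have hβθ : 20 * β ≤ θ := by
    have : β ≤ θ / 20 := by rw [hβ]; exact min_le_left _ _
    linarith
  have hβR : 100 * β ≤ R := by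
    have : β ≤ R / 100 := by rw [hβ]; exact min_le_right _ _
    linarith
  obtain ⟨τ, hτ, N1, hN1⟩ := tmP (ε / 8) (θ / K1) (by positivity) (by positivity)
  have h30 : 30 * R / K0 ≤ R := by
    rw [div_le_iff₀ hK]
    nlinarith
  obtain ⟨e0, he0, hBN1⟩ := hBN (ε / 8) κ (1000 * R) (8 * R) (30 * R / K0) (R / (50 * K0)) (by positivity) hκ hκ1 (by positivity)
    (by positivity) (by positivity) (by
      rw [← mul_div_assoc, div_le_div_iff₀ (by positivity) hK]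
      nlinarith [mul_pos hR hK]) (by linarith)
  obtain ⟨b, hb⟩ : ∃ b : ℝ, b = min (R / (100 * K0)) (min (β / 2) (min τ (e0 / 3))) := ⟨_, rfl⟩
  have hb0 : 0 < b := by rw [hb]; positivity
  have hbK : 100 * K0 * b ≤ R := by
    have : b ≤ R / (100 * K0) := by rw [hb]; exact min_le_left _ _
    rw [le_div_iff₀ (by positivity)] at this
    linarith
  have hb' : b ≤ min (β / 2) (min τ (e0 / 3)) := by rw [hb]; exact min_le_right _ _
  have hbβ : 2 * b ≤ β := by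
    have : b ≤ β / 2 := hb'.trans (min_le_left _ _)
    linarith
  have hbτ : b ≤ τ := hb'.trans ((min_le_right _ _).trans (min_le_left _ _))
  have hbe : 3 * b ≤ e0 := by
    have : b ≤ e0 / 3 := hb'.trans ((min_le_right _ _).trans (min_le_right _ _))
    linarith
  have hβ4 : 0 < β / (4 * K0) := by positivity
  obtain ⟨J, hJ⟩ := exists_nat_gt (130 * R / (β / (4 * K0)))
  have hJb : 130 * R < J * (β / (4 * K0)) := by rwa [div_lt_iff₀ hβ4] at hJ
  -- the slab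
  obtain ⟨σ, hσ, N2, hN2⟩ := slab (ε := ε / 8) (b := b / K0) (by positivity) (by positivity)
  -- the levels
  obtain ⟨E0, hE0⟩ : ∃ E0 : ℝ, E0 = σ / 2 := ⟨_, rfl⟩
  have hE0p : 0 < E0 := by rw [hE0]; positivity
  obtain ⟨T0, hT0, -, N3, hN3⟩ := iso_allV hκ hκ1 hR hβ4 J (e := E0 / K0) (by positivity) (ε := ε / 8) (t0 := 1)
    (by positivity) one_pos
  obtain ⟨E1, hE1⟩ : ∃ E1 : ℝ, E1 = T0 / 2 := ⟨_, rfl⟩
  have hE1p : 0 < E1 := by rw [hE1]; positivity
  obtain ⟨T1, hT1, hT1b, N4, hN4⟩ := iso_allV hκ hκ1 hR hβ4 J (e := E1 / K0) (by positivity) (ε := ε / 8) (t0 := b)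
    (by positivity) hb0
  obtain ⟨w0, hw0, hBN2⟩ := hBN1 (T1 / (4 * K0)) (3 * b) (by positivity) (by
    rw [div_le_iff₀ (by positivity)]
    nlinarith) hbe
  obtain ⟨E2, hE2⟩ : ∃ E2 : ℝ, E2 = min (T1 / 2) w0 := ⟨_, rfl⟩
  have hE2p : 0 < E2 := by rw [hE2]; positivity
  have hE2T : 2 * E2 ≤ T1 := by
    have : E2 ≤ T1 / 2 := by rw [hE2]; exact min_le_left _ _
    linarith
  have hE2w : E2 ≤ w0 := by rw [hE2]; exact min_le_right _ _
  obtain ⟨T2, hT2, hT2E, N5, hN5⟩ := iso_allV hκ hκ1 hR hβ4 J (e := E2 / K0) (by positivity) (ε := ε / 8) (t0 := E2)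
    (by positivity) hE2p
  obtain ⟨N6, hN6⟩ := hBN2 (T2 / (4 * K0)) E2 (by positivity) (by
    rw [div_le_iff₀ (by positivity)]
    nlinarith) hE2w
  -- the distance
  obtain ⟨η, hη⟩ : ∃ η : ℝ, η = min (min (T1 / 8) (T2 / 4)) b := ⟨_, rfl⟩
  have hη0 : 0 < η := by rw [hη]; positivity
  have hη1 : 8 * η ≤ T1 := by
    have : η ≤ T1 / 8 := by rw [hη]; exact (min_le_left _ _).trans (min_le_left _ _)
    linarith
  have hη2 : 4 * η ≤ T2 := by
    have : η ≤ T2 / 4 := by rw [hη]; exact (min_le_left _ _).trans (min_le_right _ _)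
    linarith
  have hηb : η ≤ b := by rw [hη]; exact min_le_right _ _
  obtain ⟨N7, hN7⟩ := Pool.Agent.SCF.K.size_big (η := η) hη0 (2 * K0)
  obtain ⟨n0, hn0⟩ : ∃ n0 : ℕ, n0 = N1 + N2 + N3 + N4 + N5 + N6 + N7 + 1 := ⟨_, rfl⟩
  refine ⟨η / 2, n0, BddV R (θ / K1) β b K0 E0 T0 E1 T1 E2 T2 J, by positivity, fun n hn => ?_, ?_⟩
  · have c1 : pr n (fun s => ¬ Tms (θ / K1) b s) ≤ ε / 8 :=
      (pr_mono fun s _ hs => fun h => hs (h.mono le_rfl hbτ)).trans (hN1 n (by omega))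
    have c2 : pr n (fun s => Slb (b / K0 * size n) (2 * E0 * size n) s) ≤ ε / 8 := by
      refine pr_of_card ?_
      have h3 := hN2 n (by omega)
      rw [show 2 * E0 = σ by rw [hE0]; ring]
      exact h3
    have c3 := hN3 n (by omega)
    have c4 := hN4 n (by omega)
    have c5 := hN5 n (by omega)
    have c6 := hN6 n (by omega)
    have d1 : pr n (fun s => BddV R (θ / K1) β b K0 E0 T0 E1 T1 E2 T2 J n s ∧ 0 < zc κ (1000 * R) (curve s)) ≤
        pr n (fun s => Slb (b / K0 * size n) (2 * E0 * size n) s) + (pr n (fun s => ¬ Tms (θ / K1) b s) +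
        (pr n (fun s => BadK (8 * R * size n) (30 * R / K0 * size n) (R / (50 * K0) * size n) (3 * b * size n) (T1 / (4 * K0) * size n)
          (T2 / (4 * K0) * size n) (E2 * size n) s ∧ 0 < zc κ (1000 * R) (curve s)) +
        (pr n (fun s => ∃ j : ℕ, j < J ∧ IsoV R (β / (4 * K0)) (E0 / K0) T0 j n s ∧ 0 < zc κ (1000 * R) (curve s)) +
        (pr n (fun s => ∃ j : ℕ, j < J ∧ IsoV R (β / (4 * K0)) (E1 / K0) T1 j n s ∧ 0 < zc κ (1000 * R) (curve s)) +
        pr n (fun s => ∃ j : ℕ, j < J ∧ IsoV R (β / (4 * K0)) (E2 / K0) T2 j n s ∧ 0 < zc κ (1000 * R) (curve s)))))) := by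
      refine (pr_or (Q := fun s => Slb (b / K0 * size n) (2 * E0 * size n) s) (R := fun s => (¬ Tms (θ / K1) b s ∨
        BadK (8 * R * size n) (30 * R / K0 * size n) (R / (50 * K0) * size n) (3 * b * size n) (T1 / (4 * K0) * size n)
          (T2 / (4 * K0) * size n) (E2 * size n) s ∨
        (∃ j : ℕ, j < J ∧ IsoV R (β / (4 * K0)) (E0 / K0) T0 j n s) ∨ (∃ j : ℕ, j < J ∧ IsoV R (β / (4 * K0)) (E1 / K0) T1 j n s) ∨
        ∃ j : ℕ, j < J ∧ IsoV R (β / (4 * K0)) (E2 / K0) T2 j n s) ∧ 0 < zc κ (1000 * R) (curve s)) ?_).trans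
          (add_le_add le_rfl ?_)
      · rintro s - ⟨h3 | h3, h4⟩
        · exact Or.inl h3
        · exact Or.inr ⟨h3, h4⟩
      refine (pr_or (Q := fun s => ¬ Tms (θ / K1) b s) (R := fun s => (
        BadK (8 * R * size n) (30 * R / K0 * size n) (R / (50 * K0) * size n) (3 * b * size n) (T1 / (4 * K0) * size n)
          (T2 / (4 * K0) * size n) (E2 * size n) s ∨
        (∃ j : ℕ, j < J ∧ IsoV R (β / (4 * K0)) (E0 / K0) T0 j n s) ∨ (∃ j : ℕ, j < J ∧ IsoV R (β / (4 * K0)) (E1 / K0) T1 j n s) ∨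
        ∃ j : ℕ, j < J ∧ IsoV R (β / (4 * K0)) (E2 / K0) T2 j n s) ∧ 0 < zc κ (1000 * R) (curve s)) ?_).trans
          (add_le_add le_rfl ?_)
      · rintro s - ⟨h3 | h3, h4⟩
        · exact Or.inl h3
        · exact Or.inr ⟨h3, h4⟩
      refine (pr_or (Q := fun s => BadK (8 * R * size n) (30 * R / K0 * size n) (R / (50 * K0) * size n) (3 * b * size n)
          (T1 / (4 * K0) * size n) (T2 / (4 * K0) * size n) (E2 * size n) s ∧ 0 < zc κ (1000 * R) (curve s)) (R := fun s => (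
        (∃ j : ℕ, j < J ∧ IsoV R (β / (4 * K0)) (E0 / K0) T0 j n s) ∨ (∃ j : ℕ, j < J ∧ IsoV R (β / (4 * K0)) (E1 / K0) T1 j n s) ∨
        ∃ j : ℕ, j < J ∧ IsoV R (β / (4 * K0)) (E2 / K0) T2 j n s) ∧ 0 < zc κ (1000 * R) (curve s)) ?_).trans
          (add_le_add le_rfl ?_)
      · rintro s - ⟨h3 | h3, h4⟩
        · exact Or.inl ⟨h3, h4⟩
        · exact Or.inr ⟨h3, h4⟩
      refine (pr_or (Q := fun s => ∃ j : ℕ, j < J ∧ IsoV R (β / (4 * K0)) (E0 / K0) T0 j n s ∧ 0 < zc κ (1000 * R) (curve s))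
        (R := fun s => (
        (∃ j : ℕ, j < J ∧ IsoV R (β / (4 * K0)) (E1 / K0) T1 j n s) ∨
        ∃ j : ℕ, j < J ∧ IsoV R (β / (4 * K0)) (E2 / K0) T2 j n s) ∧ 0 < zc κ (1000 * R) (curve s)) ?_).trans
          (add_le_add le_rfl ?_)
      · rintro s - ⟨⟨j, h3, h5⟩ | h3, h4⟩
        · exact Or.inl ⟨j, h3, h5, h4⟩
        · exact Or.inr ⟨h3, h4⟩
      refine pr_or ?_
      rintro s - ⟨⟨j, h3, h5⟩ | ⟨j, h3, h5⟩, h4⟩
      · exact Or.inl ⟨j, h3, h5, h4⟩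
      · exact Or.inr ⟨j, h3, h5, h4⟩
    linarith
  · intro n n' s s' S N v i0 i0' L hn hn' hs hs' hS1 hS2 hS1' hS2' hN hv _ hr' hC
    have hn1 : 1 ≤ n := by omega
    have hn1' : 1 ≤ n' := by omega
    have hsz := NTSF.size_pos hn1
    refine stbV_good hn1 hn1' (δ := η / 2) (η := η) hR hK30 hK1' hθ.le ?_ hη1 hη2 hηb hβθ hβR hbβ hJb hE0p.le hE2p.le hE2T
      (by rw [hE1]; linarith) hE1p.le hT2 hS1 hS2 hS1' hS2' hN hbK hv hr' hs hs' hC
    have h3 := hN7 n (by omega)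
    have h4 : η * size n ≤ K0 * (η * S) := by
      rw [div_le_iff₀ hK] at hS1
      have := mul_le_mul_of_nonneg_left hS1 hη0.le
      linarith
    have h5 : K0 * 2 ≤ K0 * (η * S) := by linarith
    have h6 := le_of_mul_le_mul_left h5 hK
    have e : η / 2 * S = η * S / 2 := by ring
    rw [e]
    linarith

theorem stbLV_of (hBN : BadN) : StbLV := by
  intro R K0 K1 κ θ ε hR hK0 hK1 hκ hκ1 hθ hε
  obtain ⟨δ, n0, Bad, h1, h2, h3⟩ := stbLV_big hBN (K0 := max K0 30) hR (le_max_right _ _) hK1 hκ hκ1 hθ hε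
  refine ⟨δ, n0, Bad, h1, h2, fun n n' s s' S N v i0 i0' L hn hn' hs hs' hS1 hS2 hS1' hS2' hN hv hr hr' hC => ?_⟩
  have hsz : ∀ n : ℕ, 0 ≤ size n := fun n => Real.sqrt_nonneg _
  have hle : ∀ n : ℕ, size n / max K0 30 ≤ size n / K0 := fun n =>
    div_le_div_of_nonneg_left (hsz n) (by linarith) (le_max_left _ _)
  exact h3 n n' s s' S N v i0 i0' L hn hn' hs hs' ((hle n).trans hS1) hS2 ((hle n').trans hS1') hS2' hN hv hr hr' hC

/-- **local stability of the start cuts with a translation** -/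
theorem stbLV : StbLV := stbLV_of Pool.Agent.SCF.K.badN

end Pool.Agent.SCF.M
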