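import Pool.Agent.ROT.F3MacU
import Pool.Agent.ROT.F3StbV
import Pool.Agent.SCF.Del

/-!
# ROT, block F3, row LOC / MacD / MacT: pieces of walks, deterministic part (helper66)

* `Pie R S s i m` : the piece of `m` steps behind `i` (even); the initial part is in the ball `R / 2`, its levels are at most `R / 16`
  above the level of `i`, the walk is outside of the ball `501 R` from the end of the piece on (unit `S`); the piece as a walk of its own
  is `md s i m` (`SCF/Del`);
* `pie_sc`, `pie_sc'` : the start cuts of the piece are start cuts of the walk and conversely;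
* **`pie_stb`** : `StbV` of the walks gives `StbS LG` of the pieces; `pie_stb0` : pieces from `0`, every size;
* `pie_lv` : close pieces are locally close; `pie_md` : modulus of a piece.
-/

set_option autoImplicit false

open Set Filter Topology MeasureTheory

namespace Pool.Agent.SCF.M

open Pool.Agent.NTS.Res
open Pool.Agent.CRT (CI)
open Pool.Agent.CRT.V.VC (pr pr_or pr_mono)
open Pool.Agent.SCF.Z
open Pool.Agent.ROT.F3 (cv)

/-- **a piece of a walk** -/
structure Pie (R S : ℝ) {n : ℕ} (s : Fin n → Fin 3) (i m : ℕ) : Prop where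
  ev : Even i
  hm : i + m ≤ n
  ball : ∀ k : ℕ, k ≤ i → ‖pos s k‖ ≤ R / 2 * S
  lev : ∀ k : ℕ, k ≤ i → (pos s k).re ≤ (pos s i).re + R / 16 * S
  far : ∀ k : ℕ, i + m ≤ k → k ≤ n → 501 * R * S ≤ ‖pos s k‖

section

variable {n n' : ℕ} {s : Fin n → Fin 3} {s' : Fin n' → Fin 3} {R S ρ : ℝ} {i m i' m' c : ℕ}

lemma Pie.pos (P : Pie R S s i m) {t : ℕ} (ht : t ≤ m) : pos (md s i m) t = pos s (i + t) - pos s i := pos_md s P.ev P.hm t ht

/-- a start cut of the piece is a start cut of the walk -/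
lemma pie_sc (P : Pie R S s i m) (hR : 0 < R) (hS : 0 < S) (hρ : ρ ≤ 130 * R) (hc : SC (ρ * S) (md s i m) c)
    (hcf : ‖pos (md s i m) c‖ ≤ 4 * R * S) (hlv : R / 16 * S ≤ (pos (md s i m) c).re) : SC (ρ * S) s (i + c) := by
  obtain ⟨h1, h2, h3, h4, h5⟩ := hc
  have hm := P.hm
  have hRS : 0 < R * S := mul_pos hR hS
  have hic := P.pos h3.le
  have hic' : (pos s (i + c)).re = (pos s i).re + (pos (md s i m) c).re := by rw [hic, Complex.sub_re]; ring
  refine ⟨P.ev.add h1, fun j hj => ?_, by omega, ?_, fun j hj hjn hd => ?_⟩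
  · rcases le_or_gt j i with hji | hji
    · have := P.lev j hji
      linarith
    · obtain ⟨t, rfl⟩ := Nat.exists_eq_add_of_le hji.le
      have h6 := h2 t (by omega)
      rw [P.pos (by omega), P.pos h3.le, Complex.sub_re, Complex.sub_re] at h6
      linarith
  · rw [P.pos (by omega : c + 1 ≤ m), P.pos h3.le, ← add_assoc] at h4
    have e : pos s (i + c + 1) = (pos s (i + c + 1) - pos s i) + pos s i := by ring
    rw [e, h4]
    ring
  · rcases le_or_gt j (i + m) with hjm | hjm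
    · obtain ⟨t, rfl⟩ := Nat.exists_eq_add_of_le (show i ≤ j by omega)
      have h6 := h5 t (by omega) (by omega) (by
        rw [P.pos (by omega), P.pos h3.le, sub_sub_sub_cancel_right]
        exact hd)
      rw [P.pos (by omega : t ≤ m), P.pos h3.le, Complex.sub_re, Complex.sub_re] at h6
      linarith
    · exfalso
      have h6 := P.far j hjm.le hjn
      have h7 := P.ball i le_rfl
      have h8 : ‖pos s j‖ ≤ ‖pos s j - pos s (i + c)‖ + (‖pos (md s i m) c‖ + ‖pos s i‖) := by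
        calc ‖pos s j‖ = ‖(pos s j - pos s (i + c)) + (pos (md s i m) c + pos s i)‖ := by
              rw [hic]
              congr 1
              ring
          _ ≤ _ := (norm_add_le _ _).trans (add_le_add le_rfl (norm_add_le _ _))
      have h9 : ρ * S ≤ 130 * R * S := mul_le_mul_of_nonneg_right hρ hS.le
      have e1 : R / 2 * S = R * S / 2 := by ring
      rw [e1] at h7
      linarith

/-- a start cut of the walk is a start cut of the piece -/
lemma pie_sc' (P : Pie R S s i m) (hc : SC ρ s (i + c)) (hcm : c < m) : SC ρ (md s i m) c := by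
  obtain ⟨h1, h2, h3, h4, h5⟩ := hc
  have hm := P.hm
  refine ⟨?_, fun j hj => ?_, hcm, ?_, fun j hj hjm hd => ?_⟩
  · obtain ⟨a, ha⟩ := P.ev
    obtain ⟨b, hb⟩ := h1
    exact ⟨b - a, by omega⟩
  · rw [P.pos (by omega : j ≤ m), P.pos hcm.le, Complex.sub_re, Complex.sub_re]
    have := h2 (i + j) (by omega)
    linarith
  · rw [P.pos (by omega : c + 1 ≤ m), P.pos hcm.le, ← add_assoc, h4]
    ring
  · rw [P.pos hjm, P.pos hcm.le, sub_sub_sub_cancel_right] at hd
    have := h5 (i + j) (by omega) (by omega) hd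
    rw [P.pos hjm, P.pos hcm.le, Complex.sub_re, Complex.sub_re]
    linarith

/-- the times of close cuts of two pieces -/
lemma tm_pie {θ N θ' : ℝ} {c' : ℕ} (hm : 1 ≤ m) (hm' : 1 ≤ m') (h : |(c : ℝ) - c'| ≤ θ * N) (hc : c' ≤ m')
    (ht : θ * N / m + |(m : ℝ) - m'| / m ≤ θ') : |(c : ℝ) / m - (c' : ℝ) / m'| ≤ θ' := by
  have hn0 : (0 : ℝ) < m := by exact_mod_cast hm
  have hn0' : (0 : ℝ) < m' := by exact_mod_cast hm'
  have e : (c : ℝ) / m - (c' : ℝ) / m' = ((c : ℝ) - c') / m + (c' : ℝ) / m' * ((m' - m) / m) := by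
    field_simp
    ring
  rw [e]
  have k1 : |((c : ℝ) - c') / m| ≤ θ * N / m := by
    rw [abs_div, abs_of_pos hn0]
    exact div_le_div_of_nonneg_right h hn0.le
  have k2 : |(c' : ℝ) / m' * ((m' - m) / m)| ≤ |(m : ℝ) - m'| / m := by
    rw [abs_mul]
    have h6 : |(c' : ℝ) / m'| ≤ 1 := by
      rw [abs_of_nonneg (by positivity), div_le_one hn0']
      exact_mod_cast hc
    have h9 : |((m' : ℝ) - m) / m| = |(m : ℝ) - m'| / m := by
      rw [abs_div, abs_of_pos hn0, abs_sub_comm]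
    rw [h9]
    exact mul_le_of_le_one_left (by positivity) h6
  exact (abs_add_le _ _).trans ((add_le_add k1 k2).trans ht)

/-- the core: a mate in the second walk is in the piece -/
lemma pie_mate (P : Pie R S s i m) (P' : Pie R S s' i' m') (hR : 0 < R) (hS : 0 < S) {θ : ℝ} (hθ : θ ≤ R) {c'' : ℕ} (hcm : c < m)
    (hcf : ‖pos (md s i m) c‖ ≤ 4 * R * S) (h1 : i' ≤ c'') (h2 : SC ((ρ - θ) * S) s' c'')
    (h4 : ‖pos s (i + c) - (pos s' c'' + (pos s i - pos s' i'))‖ ≤ θ * S) :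
    ∃ c' : ℕ, c'' = i' + c' ∧ c' < m' ∧ SC ((ρ - θ) * S) (md s' i' m') c' ∧ ‖pos (md s i m) c - pos (md s' i' m') c'‖ ≤ θ * S := by
  obtain ⟨c', rfl⟩ := Nat.exists_eq_add_of_le h1
  have hRS : 0 < R * S := mul_pos hR hS
  have e1 : pos s (i + c) - (pos s' (i' + c') + (pos s i - pos s' i')) = pos (md s i m) c - (pos s' (i' + c') - pos s' i') := by
    rw [P.pos hcm.le]
    ring
  have hcm' : c' < m' := by
    by_contra hcon
    have h6 := P'.far (i' + c') (by omega) h2.lt.le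
    have h7 := P'.ball i' le_rfl
    rw [e1] at h4
    have h8 : ‖pos s' (i' + c')‖ ≤ ‖pos (md s i m) c - (pos s' (i' + c') - pos s' i')‖ + (‖pos (md s i m) c‖ + ‖pos s' i'‖) := by
      calc ‖pos s' (i' + c')‖ = ‖-(pos (md s i m) c - (pos s' (i' + c') - pos s' i')) + (pos (md s i m) c + pos s' i')‖ := by
            congr 1
            ring
        _ ≤ _ := (norm_add_le _ _).trans (add_le_add (by rw [norm_neg]) (norm_add_le _ _))
    have h9 : θ * S ≤ R * S := mul_le_mul_of_nonneg_right hθ hS.le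
    have e2 : R / 2 * S = R * S / 2 := by ring
    rw [e2] at h7
    linarith
  refine ⟨c', rfl, hcm', pie_sc' P' h2 hcm', ?_⟩
  rw [e1] at h4
  rw [P'.pos hcm'.le]
  exact h4

/-- **stability of the pieces**, the size = the level -/
theorem pie_stb (P : Pie R S s i m) (P' : Pie R S s' i' m') (hR : 0 < R) (hS : 0 < S) {θ θ' N : ℝ} (hm : 1 ≤ m) (hm' : 1 ≤ m')
    (hA : StbV R θ S N (pos s i - pos s' i') i i' s s') (hθ : θ ≤ θ') (hθR : θ ≤ R) (ht : θ * N / m + |(m : ℝ) - m'| / m ≤ θ') :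
    StbS LG R θ' S (md s i m) (md s' i' m') := by
  intro ρ c h1 h2 h3 h4 h5
  have hRS : 0 < R * S := mul_pos hR hS
  have h5' : R / 8 * S ≤ (pos (md s i m) c).re := h5
  have hcm : c < m := h3.lt
  have hcf := h4 c le_rfl
  have e8 : R / 8 * S = R * S / 8 := by ring
  have e16 : R / 16 * S = R * S / 16 := by ring
  have e2 : R / 2 * S = R * S / 2 := by ring
  have hsc := pie_sc P hR hS h2 h3 hcf (by rw [e16]; rw [e8] at h5'; linarith)
  have hic : (pos s (i + c)).re = (pos s i).re + (pos (md s i m) c).re := by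
    rw [P.pos hcm.le, Complex.sub_re]
    ring
  obtain ⟨c'', g0, g1, g2, g3⟩ := hA ρ (i + c) h1 h2 hsc (fun j hj => by
    rcases le_or_gt j i with hji | hji
    · have := P.ball j hji
      rw [e2] at this
      linarith
    · obtain ⟨t, rfl⟩ := Nat.exists_eq_add_of_le hji.le
      have h6 := h4 t (by omega)
      rw [P.pos (by omega : t ≤ m)] at h6
      have h7 := P.ball i le_rfl
      rw [e2] at h7
      calc ‖pos s (i + t)‖ = ‖(pos s (i + t) - pos s i) + pos s i‖ := by congr 1; ring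
        _ ≤ 4 * R * S + R * S / 2 := (norm_add_le _ _).trans (add_le_add h6 h7)
        _ ≤ 5 * R * S := by linarith) (Or.inr ⟨fun k hk => by
      have := P.lev k hk
      rw [e16] at this ⊢
      rw [e8] at h5'
      linarith, fun k hk => by
      have := P'.lev k hk
      rw [e16] at this ⊢
      rw [e8] at h5'
      rw [Complex.sub_re]
      linarith⟩)
  obtain ⟨c', rfl, q1, q2, q3⟩ := pie_mate P P' hR hS hθR hcm hcf g0 g1 g3
  refine ⟨c', q2.mono (mul_le_mul_of_nonneg_right (by linarith) hS.le), tm_pie (θ := θ) (N := N) hm hm' ?_ q1.le ht,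
    q3.trans (mul_le_mul_of_nonneg_right hθ hS.le)⟩
  have e : ((i + c : ℕ) : ℝ) - i - (((i' + c' : ℕ) : ℝ) - i') = (c : ℝ) - c' := by
    push_cast
    ring
  rwa [e] at g2

/-- **stability of the pieces from `0`**, every size -/
theorem pie_stb0 {D : SzT} (hD : SzS D) (P : Pie R S s 0 m) (P' : Pie R S s' 0 m') (hR : 0 < R) (hS : 0 < S) {θ θ' N : ℝ}
    (hm : 1 ≤ m) (hm' : 1 ≤ m') (hA : StbV R θ S N 0 0 0 s s') (hθ : θ ≤ θ') (hθR : θ ≤ R)
    (ht : θ * N / m + |(m : ℝ) - m'| / m ≤ θ') : StbS D R θ' S (md s 0 m) (md s' 0 m') := by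
  intro ρ c h1 h2 h3 h4 h5
  have hRS : 0 < R * S := mul_pos hR hS
  have hcm : c < m := h3.lt
  have hcf := h4 c le_rfl
  have e2 : R / 2 * S = R * S / 2 := by ring
  have hpos : ∀ t : ℕ, t ≤ m → pos (md s 0 m) t = pos s t := fun t ht => by
    rw [P.pos ht, zero_add, NTSF.pos_zero, sub_zero]
  -- the cut is a cut of the walk
  have hsc : SC (ρ * S) s c := by
    obtain ⟨g1, g2, g3, g4, g5⟩ := h3
    have hm0 := P.hm
    refine ⟨g1, fun j hj => ?_, by omega, ?_, fun j hj hjn hd => ?_⟩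
    · have := g2 j hj
      rwa [hpos j (by omega), hpos c hcm.le] at this
    · rwa [hpos (c + 1) (by omega), hpos c hcm.le] at g4
    · rcases le_or_gt j m with hjm | hjm
      · have := g5 j hj hjm (by rw [hpos j hjm, hpos c hcm.le]; exact hd)
        rwa [hpos j hjm, hpos c hcm.le] at this
      · exfalso
        have h6 := P.far j (by omega) hjn
        rw [hpos c hcm.le] at hcf
        have h8 : ‖pos s j‖ ≤ ‖pos s j - pos s c‖ + ‖pos s c‖ := by
          calc ‖pos s j‖ = ‖(pos s j - pos s c) + pos s c‖ := by congr 1; ring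
            _ ≤ _ := norm_add_le _ _
        have h9 : ρ * S ≤ 130 * R * S := mul_le_mul_of_nonneg_right h2 hS.le
        linarith
  have hdm : DmG (R / 8 * S) s c := by
    obtain ⟨a, b, ha, hb, hab⟩ := hD.dm h5
    exact ⟨a, b, ha, hb, by rwa [hpos a (by omega), hpos b (by omega)] at hab⟩
  obtain ⟨c'', g0, g1, g2, g3⟩ := hA ρ c h1 h2 hsc (fun j hj => by
    have := h4 j hj
    rw [hpos j (by omega)] at this
    linarith) (Or.inl ⟨rfl, rfl, hdm⟩)
  obtain ⟨c', rfl, q1, q2, q3⟩ := pie_mate (c'' := c'') P P' hR hS hθR hcm hcf g0 g1 (by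
    rw [zero_add, NTSF.pos_zero, NTSF.pos_zero, sub_zero]
    exact g3)
  refine ⟨c', q2.mono (mul_le_mul_of_nonneg_right (by linarith) hS.le), tm_pie (θ := θ) (N := N) hm hm' ?_ q1.le ht,
    q3.trans (mul_le_mul_of_nonneg_right hθ hS.le)⟩
  simpa using g2

/-- **close pieces are locally close** -/
theorem pie_lv (P : Pie R S s i m) (P' : Pie R S s' i' m') (hR : 0 < R) (hS : 0 < S) {δ : ℝ}
    (hcl : ∀ l : ℕ, l ≤ m → l ≤ m' → ‖pos (md s i m) l - pos (md s' i' m') l‖ ≤ δ * S)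
    (hend : ∀ l : ℕ, m' ≤ l → l ≤ m → ‖pos s (i + l) - pos s (i + m)‖ ≤ R * S)
    (hend' : ∀ l : ℕ, m ≤ l → l ≤ m' → ‖pos s' (i' + l) - pos s' (i' + m')‖ ≤ R * S) :
    LV (δ * S) (500 * R * S) (pos s i - pos s' i') i i' (min m m') s s' := by
  have hm := P.hm
  have hm' := P'.hm
  have hRS : 0 < R * S := mul_pos hR hS
  have far : ∀ {n n' : ℕ} {w : Fin n → Fin 3} {j a b : ℕ}, Pie R S w j a →
      (∀ l : ℕ, b ≤ l → l ≤ a → ‖pos w (j + l) - pos w (j + a)‖ ≤ R * S) → ∀ k : ℕ, j + min a b < k → k ≤ n →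
      500 * R * S ≤ ‖pos w k‖ := by
    intro n n' w j a b Q he k hk hkn
    rcases le_or_gt (j + a) k with h1 | h1
    · have := Q.far k h1 hkn
      linarith
    · obtain ⟨l, rfl⟩ := Nat.exists_eq_add_of_le (show j ≤ k by omega)
      have h2 := he l (by omega) (by omega)
      have h3 := Q.far (j + a) le_rfl Q.hm
      have h4 : ‖pos w (j + a)‖ ≤ ‖pos w (j + l) - pos w (j + a)‖ + ‖pos w (j + l)‖ := by
        calc ‖pos w (j + a)‖ = ‖-(pos w (j + l) - pos w (j + a)) + pos w (j + l)‖ := by congr 1; ring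
          _ ≤ _ := (norm_add_le _ _).trans (add_le_add (by rw [norm_neg]) le_rfl)
      linarith
  refine ⟨by omega, by omega, fun j hj => ?_, far (n' := n') P hend, fun k hk hkn => ?_, ?_, ?_⟩
  · have h1 := hcl j (by omega) (by omega)
    rw [P.pos (by omega : j ≤ m), P'.pos (by omega : j ≤ m')] at h1
    have e : pos s (i + j) - (pos s' (i' + j) + (pos s i - pos s' i')) = pos s (i + j) - pos s i - (pos s' (i' + j) - pos s' i') := by
      ring
    rw [e]
    exact h1
  · exact far (n' := n') P' hend' k (by rw [min_comm]; exact hk) hkn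
  · have := P.far n hm le_rfl
    linarith
  · have := P'.far n' hm' le_rfl
    linarith

/-- the modulus of a piece -/
lemma pie_md (P : Pie R S s i m) {η ω η' ω' : ℝ} (h : Md η ω s) (h1 : η' ≤ η) (h0 : 0 ≤ η) (h2 : ω * size n ≤ ω' * size m) :
    Md η' ω' (md s i m) := by
  intro a b hab hb hd
  have hm := P.hm
  have hmn : (m : ℝ) ≤ n := by exact_mod_cast (show m ≤ n by omega)
  rw [P.pos hb, P.pos (by omega : a ≤ m), sub_sub_sub_cancel_right]
  refine (h (i + a) (i + b) (by omega) (by omega) ?_).trans h2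
  push_cast
  have h3 : η' * m ≤ η * n := (mul_le_mul_of_nonneg_right h1 (Nat.cast_nonneg m)).trans (mul_le_mul_of_nonneg_left hmn h0)
  linarith

end

/-- the piece has a positive proportion of the steps -/
lemma pie_len {n : ℕ} {s : Fin n → Fin 3} {R S K0 η ω : ℝ} {i m : ℕ} (P : Pie R S s i m) (hR : 0 < R) (hS : 0 < S)
    (hK : size n ≤ K0 * S) (hω : ω * K0 ≤ R) (hω0 : 0 ≤ ω) (h : Md η ω s) : η * n < m := by
  by_contra hcon
  have hm := P.hm
  have h1 := h i (i + m) (by omega) hm (by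
    push_cast
    linarith)
  have h2 := P.far (i + m) le_rfl hm
  have h3 := P.ball i le_rfl
  have h4 : ‖pos s (i + m)‖ ≤ ‖pos s (i + m) - pos s i‖ + ‖pos s i‖ := by
    calc ‖pos s (i + m)‖ = ‖(pos s (i + m) - pos s i) + pos s i‖ := by congr 1; ring
      _ ≤ _ := norm_add_le _ _
  have h5 : ω * size n ≤ R * S := by
    calc ω * size n ≤ ω * (K0 * S) := mul_le_mul_of_nonneg_left hK hω0
      _ = ω * K0 * S := by ring
      _ ≤ R * S := mul_le_mul_of_nonneg_right hω hS.le
  have e2 : R / 2 * S = R * S / 2 := by ring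
  rw [e2] at h3
  have hRS : 0 < R * S := mul_pos hR hS
  linarith

/-- the sizes of comparable numbers of steps -/
lemma size_cmp (K1 : ℝ) (hK1 : 0 < K1) : ∃ K2 : ℝ, 1 ≤ K2 ∧ ∀ n m : ℕ, 1 ≤ m → (n : ℝ) ≤ K1 * m → size n ≤ K2 * size m := by
  obtain ⟨cs, Cs, hcs, hsz, -⟩ := NTSF.finE
  have hCs : 0 < Cs := by
    have h1 := hsz 1 le_rfl
    have h2 : ((1 : ℕ) : ℝ) ^ (3 / 4 : ℝ) = 1 := by norm_num
    rw [h2] at h1
    linarith
  refine ⟨max 1 (Cs / cs * K1 ^ (3 / 4 : ℝ)), le_max_left _ _, fun n m hm h => ?_⟩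
  have hs := NTSF.size_pos hm
  rcases Nat.eq_zero_or_pos n with h0 | h0
  · subst h0
    have e : size 0 ≤ 0 := by
      unfold size
      have h3 : (∑ s ∈ saw 0, ‖pos s 0‖ ^ 2) = 0 := Finset.sum_eq_zero fun s _ => by rw [NTSF.pos_zero]; simp
      rw [h3, zero_div, Real.sqrt_zero]
    have : 0 ≤ max 1 (Cs / cs * K1 ^ (3 / 4 : ℝ)) * size m := by positivity
    linarith
  · have h1 := (hsz n h0).2
    have h2 := (hsz m hm).1
    have h3 : (n : ℝ) ^ (3 / 4 : ℝ) ≤ K1 ^ (3 / 4 : ℝ) * (m : ℝ) ^ (3 / 4 : ℝ) := by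
      rw [← Real.mul_rpow hK1.le (Nat.cast_nonneg _)]
      exact Real.rpow_le_rpow (Nat.cast_nonneg _) h (by norm_num)
    calc size n ≤ Cs * (n : ℝ) ^ (3 / 4 : ℝ) := h1
      _ ≤ Cs * (K1 ^ (3 / 4 : ℝ) * (m : ℝ) ^ (3 / 4 : ℝ)) := mul_le_mul_of_nonneg_left h3 hCs.le
      _ = Cs / cs * K1 ^ (3 / 4 : ℝ) * (cs * (m : ℝ) ^ (3 / 4 : ℝ)) := by field_simp
      _ ≤ Cs / cs * K1 ^ (3 / 4 : ℝ) * size m := mul_le_mul_of_nonneg_left h2 (by positivity)
      _ ≤ max 1 (Cs / cs * K1 ^ (3 / 4 : ℝ)) * size m := mul_le_mul_of_nonneg_right (le_max_right _ _) hs.le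

end Pool.Agent.SCF.M
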