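import Pool.Agent.ROT.W8Re
import Pool.Agent.ROT.W8Lo
import Pool.Agent.SCF.EpGlue
import Pool.Agent.CRT.Mass

/-!
# ROT, F3, row W8 (walks), part 3 (helper94): the native class has a positive probability for one number of steps in every window

* `pc_nc0`, `uq_nc0` : the start pieces without cuts are a class of prefixes with a unique mark;
* `Shp` : the shape of the class at the scale `S`;
* **`win_low`** : `∃ n'` comparable with `n`, the class `E4` of helper4 (start piece, `c`, `c+`, `x`, `y`, rest) has at least the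
  share `p` of the walks with `n'` steps; `p` does not depend on `S / size n`.
-/

set_option autoImplicit false

open Filter Topology

namespace Pool.Agent.ROT.F3.W8

open Finset HexObs.NTA

open Pool.Agent.NTS.Res (pos saw fug step size)

open NTSF (pos_zero pos_succ mem_saw)

open Pool.Agent.SCF.Z (GC SCut GBt PC UQ E4 e4m glue_low bwt)

open scoped ENNReal

lemma nc0_congr {R : ℝ} {n n' k : ℕ} {s : Fin n → Fin 3} {s' : Fin n' → Fin 3} (hp : ∀ t : ℕ, t ≤ k → pos s' t = pos s t)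
    (h : NC0 R s k) : NC0 R s' k := by
  obtain ⟨h1, h2, h3, h4⟩ := h
  refine ⟨h1, fun i hi => ?_, fun i hi => ?_, fun k' hk' => h4 k' ?_⟩
  · rw [hp i hi, hp k le_rfl]
    exact h2 i hi
  · rw [hp i hi, hp k le_rfl]
    exact h3 i hi
  · obtain ⟨a1, a2, a3, a4, a5, a6⟩ := hk'
    refine ⟨a1, a2, a3, ?_, fun i i1 i2 => ?_, fun j j1 j2 => ?_⟩
    · rw [hp _ (by omega), hp _ (by omega)] at a4
      exact a4
    · have := a5 i i1 i2
      rwa [hp _ (by omega), hp _ (by omega)] at this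
    · have := a6 j j1 j2
      rwa [hp _ (by omega), hp _ (by omega)] at this

/-- start pieces without cuts are a class of prefixes -/
lemma pc_nc0 (R : ℝ) : PC (fun _ s k => NC0 R s k) id R :=
  ⟨fun _ _ _ h => h.1, fun _ _ _ h j hj => h.2.1 j hj, fun _ _ _ h j hj => h.2.2.1 j hj,
    fun _ _ _ _ _ he h => nc0_congr he h⟩

/-- their mark is unique -/
lemma uq_nc0 {R ρ : ℝ} (hρ : 2 * R ≤ ρ) : UQ (fun _ s k => NC0 R s k) id ρ := by
  have key : ∀ (n : ℕ) (s : Fin n → Fin 3) (i i' : ℕ), NC0 R s i → NC0 R s i' → GC ρ s i → GC ρ s i' → ¬ i < i' := by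
    intro n s i i' h h' hc hc' hlt
    refine h'.2.2.2 i ⟨Nat.zero_le _, hlt, h.1, hc.2.1, fun j _ j2 => h.2.1 j j2, fun j j1 j2 =>
      hc.2.2 j j1 (by have := hc'.1; omega) ?_⟩
    have e1 := h'.2.2.1 j j2
    have e2 := h'.2.2.1 i hlt.le
    calc ‖pos s j - pos s i‖ = ‖(pos s j - pos s i') - (pos s i - pos s i')‖ := by ring_nf
      _ ≤ ‖pos s j - pos s i'‖ + ‖pos s i - pos s i'‖ := norm_sub_le _ _
      _ ≤ ρ := by linarith
  intro n s i i' h h' hc hc'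
  rcases lt_trichotomy i i' with h1 | h1 | h1
  · exact absurd h1 (key n s i i' h h' hc hc')
  · exact h1
  · exact absurd h1 (key n s i' i h' h hc' hc)

/-- the shape of the class at the scale `S` -/
structure Shp (ra η Q S T h2 h3 h4 θ ρ : ℝ) : Prop where
  T1 : η * S + ra * S ≤ T
  T2 : T ≤ S
  h21 : η * S ≤ h2
  h22 : h2 ≤ S
  h31 : η * S + h2 + θ ≤ h3
  h32 : h3 ≤ S
  h41 : η * S ≤ h4
  h42 : h4 ≤ S
  th1 : η * S ≤ θ
  th2 : θ ≤ S
  r1 : 2 * (ra * S) + 10 * (S + 2 * θ) ≤ ρ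
  r2 : ρ ≤ Q * S

/-- the class of walks -/
def NE (ra S T h2 h3 h4 θ ρ : ℝ) {n : ℕ} (s : Fin n → Fin 3) (k0 k1 k2 k3 k4 : ℕ) : Prop :=
  E4 (fun _ s k => NC0 (ra * S) s k) T h2 h3 h4 θ ρ s k0 k1 k2 k3 k4

lemma pow_small {x : ℝ} {n : ℕ} (hx : 0 ≤ x) (h : x ≤ 1 / 10 * (n : ℝ) ^ (3 / 4 : ℝ)) : x ^ (4 / 3 : ℝ) ≤ n / 10 := by
  have h1 : x ^ (4 / 3 : ℝ) ≤ (1 / 10 * (n : ℝ) ^ (3 / 4 : ℝ)) ^ (4 / 3 : ℝ) := Real.rpow_le_rpow hx h (by norm_num)
  have h2 : (1 / 10 * (n : ℝ) ^ (3 / 4 : ℝ)) ^ (4 / 3 : ℝ) = (1 / 10) ^ (4 / 3 : ℝ) * n := by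
    rw [Real.mul_rpow (by norm_num) (by positivity), ← Real.rpow_mul (Nat.cast_nonneg _)]
    norm_num
  have h3 : (1 / 10 : ℝ) ^ (4 / 3 : ℝ) ≤ 1 / 10 := by
    have := Real.rpow_le_rpow_of_exponent_ge (x := (1 / 10 : ℝ)) (by norm_num) (by norm_num) (show (1 : ℝ) ≤ 4 / 3 by norm_num)
    rwa [Real.rpow_one] at this
  rw [h2] at h1
  have h4 := mul_le_mul_of_nonneg_right h3 (Nat.cast_nonneg (α := ℝ) n)
  linarith

open Classical in
/-- **the native class: one number of steps in every window** -/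
theorem win_low (ra η Q : ℝ) (hra : 0 < ra) (hη : 0 < η) (hQ : ra ≤ Q) : ∃ p δ0 : ℝ, 0 < p ∧ 0 < δ0 ∧ ∀ δ1 : ℝ, 0 < δ1 →
    ∃ n0 : ℕ, ∀ (n : ℕ) (S : ℝ), n0 ≤ n → δ1 * size n ≤ S → S ≤ δ0 * size n → ∀ T h2 h3 h4 θ ρ : ℝ,
      Shp ra η Q S T h2 h3 h4 θ ρ → ∃ n' : ℕ, n ≤ 4 * n' ∧ n' ≤ 4 * n ∧ p * ((saw n').card : ℝ) ≤
        (((saw n').filter fun s => ∃ k0 k1 k2 k3 k4 : ℕ, NE ra S T h2 h3 h4 θ ρ s k0 k1 k2 k3 k4).card : ℝ) := by
  obtain ⟨t, h0, ht, hglue⟩ := glue_low η 1 hη one_pos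
  obtain ⟨ca, R0, hca, halow⟩ := alow 1 one_pos
  obtain ⟨c, d0, hc, hd0, hrlow⟩ := rlow (Q / ra) (1 / 2) ((one_le_div hra).2 hQ) (by norm_num) (by norm_num)
  obtain ⟨cN, CN, hcN, hCN, haN⟩ := CRT.Mass.aN_bounds
  obtain ⟨cs, Cs, hcs, hsz, -⟩ := NTSF.finE
  have hCs : 0 < Cs := by
    have h1 := (hsz 1 le_rfl).2
    have h2 := NTSF.size_pos (n := 1) le_rfl
    rw [Nat.cast_one, Real.one_rpow, mul_one] at h1
    linarith
  obtain ⟨δ0, hδ0⟩ : ∃ δ0 : ℝ, δ0 = min (d0 * cs / (ra * Cs)) (min (1 / (10 * Cs)) (1 / (10 * Cs * ra))) := ⟨_, rfl⟩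
  have hδ0p : 0 < δ0 := by rw [hδ0]; positivity
  have hδa : δ0 ≤ d0 * cs / (ra * Cs) := by rw [hδ0]; exact min_le_left _ _
  have hδb : δ0 ≤ 1 / (10 * Cs) := by rw [hδ0]; exact (min_le_right _ _).trans (min_le_left _ _)
  have hδc : δ0 ≤ 1 / (10 * Cs * ra) := by rw [hδ0]; exact (min_le_right _ _).trans (min_le_right _ _)
  refine ⟨t * ca * c * cN / (12 * CN), δ0, by positivity, hδ0p, fun δ1 hδ1 => ?_⟩
  obtain ⟨n1, hr⟩ := hrlow (ra * δ1 * cs / (2 * Cs)) (by positivity)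
  obtain ⟨X0, hX0⟩ : ∃ X0 : ℝ, X0 = (|h0| / η + |R0| / ra + 1 / ra) / (δ1 * cs) := ⟨_, rfl⟩
  obtain ⟨n2, hn2⟩ : ∃ n2 : ℕ, ∀ n : ℕ, n2 ≤ n → X0 ≤ (n : ℝ) ^ (3 / 4 : ℝ) := by
    have h1 := ((tendsto_rpow_atTop (show (0 : ℝ) < 3 / 4 by norm_num)).comp tendsto_natCast_atTop_atTop).eventually_ge_atTop X0
    exact eventually_atTop.1 h1
  refine ⟨max (max n1 n2) 10, fun n S hn hS1 hS2 T h2 h3 h4 θ ρ hs => ?_⟩
  have hn1 : n1 ≤ n := (le_max_left _ _).trans ((le_max_left _ _).trans hn)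
  have hn2' : n2 ≤ n := (le_max_right _ _).trans ((le_max_left _ _).trans hn)
  have hn10 : 10 ≤ n := (le_max_right _ _).trans hn
  have hn0 : (0 : ℝ) < n := by exact_mod_cast (by omega : 0 < n)
  obtain ⟨N34, hN34⟩ : ∃ x : ℝ, x = (n : ℝ) ^ (3 / 4 : ℝ) := ⟨_, rfl⟩
  have hN34p : 0 < N34 := by rw [hN34]; positivity
  obtain ⟨z1, z2⟩ := hsz n (by omega)
  rw [← hN34] at z1 z2
  -- the scale
  have hSlow : |h0| / η + |R0| / ra + 1 / ra ≤ S := by
    have h5 := hn2 n hn2'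
    rw [← hN34, hX0, div_le_iff₀ (by positivity)] at h5
    have h6 : δ1 * (cs * N34) ≤ δ1 * size n := mul_le_mul_of_nonneg_left z1 hδ1.le
    linarith [mul_comm N34 (δ1 * cs), mul_assoc δ1 cs N34]
  have a1 : 0 ≤ |h0| / η := by positivity
  have a2 : 0 ≤ |R0| / ra := by positivity
  have a3 : 0 < 1 / ra := by positivity
  have hS0 : 0 < S := by linarith
  have hh0 : h0 ≤ η * S := by
    have h5 : |h0| / η ≤ S := by linarith
    rw [div_le_iff₀ hη] at h5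
    linarith [le_abs_self h0]
  have hR0 : R0 ≤ ra * S := by
    have h5 : |R0| / ra ≤ S := by linarith
    rw [div_le_iff₀ hra] at h5
    linarith [le_abs_self R0]
  have hra1 : 1 ≤ ra * S := by
    have h5 : 1 / ra ≤ S := by linarith
    rw [div_le_iff₀ hra] at h5
    linarith
  have hL0 : 0 < ra * S := by positivity
  -- the lengths
  obtain ⟨M, hM⟩ : ∃ M : ℕ, M = n / 5 := ⟨_, rfl⟩
  have hM5 : 5 * M ≤ n := by omega
  have hM10 : (n : ℝ) / 10 ≤ M := by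
    have : n ≤ 10 * M := by omega
    have h5 : (n : ℝ) ≤ 10 * M := by exact_mod_cast this
    linarith
  have b1 : S ≤ 1 / 10 * N34 := by
    calc S ≤ δ0 * size n := hS2
      _ ≤ 1 / (10 * Cs) * (Cs * N34) := mul_le_mul hδb z2 (NTSF.size_pos (by omega)).le (by positivity)
      _ = 1 / 10 * N34 := by field_simp
  have b2 : ra * S ≤ 1 / 10 * N34 := by
    calc ra * S ≤ ra * (δ0 * size n) := mul_le_mul_of_nonneg_left hS2 hra.le
      _ ≤ ra * (1 / (10 * Cs * ra) * (Cs * N34)) := mul_le_mul_of_nonneg_left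
        (mul_le_mul hδc z2 (NTSF.size_pos (by omega)).le (by positivity)) hra.le
      _ = 1 / 10 * N34 := by field_simp
  have hMS : 1 * S ^ (4 / 3 : ℝ) ≤ M := by
    rw [one_mul]
    rw [hN34] at b1
    exact (pow_small hS0.le b1).trans hM10
  have hMR : 1 * (ra * S) ^ (4 / 3 : ℝ) ≤ M := by
    rw [one_mul]
    rw [hN34] at b2
    exact (pow_small hL0.le b2).trans hM10
  -- the dyadic scale
  obtain ⟨K, hK1, hK2⟩ := exists_nat_pow_near (x := 2 * (ra * S)) (y := 2) (by linarith) (by norm_num)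
  -- the three inequalities
  obtain ⟨N1, hN1⟩ : ∃ N1 : ℕ, N1 = ⌊(1 - 1 / 2 : ℝ) * n⌋₊ := ⟨_, rfl⟩
  have g1 := halow (ra * S) hR0 M hMR K hK1
  have g2 := hr n (2 * n) K (ra * S) hn1 (by omega) (fun m m1 m2 => by
    obtain ⟨y1, y2⟩ := hsz m (by omega)
    have e1 : N34 ≤ (m : ℝ) ^ (3 / 4 : ℝ) := by
      rw [hN34]
      exact Real.rpow_le_rpow (Nat.cast_nonneg _) (by exact_mod_cast m1) (by norm_num)
    have e2 : (m : ℝ) ^ (3 / 4 : ℝ) ≤ 2 * N34 := by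
      calc (m : ℝ) ^ (3 / 4 : ℝ) ≤ (2 * n : ℝ) ^ (3 / 4 : ℝ) := Real.rpow_le_rpow (Nat.cast_nonneg _) (by exact_mod_cast m2)
            (by norm_num)
        _ = 2 ^ (3 / 4 : ℝ) * N34 := by rw [hN34, Real.mul_rpow (by norm_num) (Nat.cast_nonneg _)]
        _ ≤ 2 * N34 := by
          refine mul_le_mul_of_nonneg_right ?_ hN34p.le
          have := Real.rpow_le_rpow_of_exponent_le (x := (2 : ℝ)) (by norm_num) (show (3 / 4 : ℝ) ≤ 1 by norm_num)
          rwa [Real.rpow_one] at this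
    constructor
    · calc ra * δ1 * cs / (2 * Cs) * size m ≤ ra * δ1 * cs / (2 * Cs) * (Cs * (2 * N34)) :=
            mul_le_mul_of_nonneg_left (y2.trans (mul_le_mul_of_nonneg_left e2 hCs.le)) (by positivity)
        _ = ra * (δ1 * (cs * N34)) := by field_simp
        _ ≤ ra * (δ1 * size n) := mul_le_mul_of_nonneg_left (mul_le_mul_of_nonneg_left z1 hδ1.le) hra.le
        _ ≤ ra * S := mul_le_mul_of_nonneg_left hS1 hra.le
    · calc ra * S ≤ ra * (δ0 * size n) := mul_le_mul_of_nonneg_left hS2 hra.le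
        _ ≤ ra * (d0 * cs / (ra * Cs) * (Cs * N34)) := mul_le_mul_of_nonneg_left
          (mul_le_mul hδa z2 (NTSF.size_pos (by omega)).le (by positivity)) hra.le
        _ = d0 * (cs * N34) := by field_simp
        _ ≤ d0 * size m := mul_le_mul_of_nonneg_left (le_trans (mul_le_mul_of_nonneg_left e1 hcs.le) y1) hd0.le) (by linarith)
  rw [← hN1] at g2
  have hQS : Q / ra * (ra * S) = Q * S := by field_simp
  rw [hQS] at g2
  have g3 := hglue (fun _ s k => NC0 (ra * S) s k) (ra * S) (η * S) S θ ρ M (pc_nc0 _) hL0.le hh0 (by positivity)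
    (hs.h21.trans hs.h22) hs.th1 hMS (uq_nc0 (by
      have := hs.r1
      have := hs.th1
      have : 0 < η * S := by positivity
      linarith)) hs.r1 T h2 h3 h4 hs.T1 hs.T2 hs.h21 hs.h22 hs.h31 hs.h32 hs.h41 hs.h42 N1 (2 * n)
  obtain ⟨A, hA⟩ : ∃ A : ℝ, A = ∑ k ∈ range (M + 1), nc0m (ra * S) k := ⟨_, rfl⟩
  obtain ⟨B, hB⟩ : ∃ B : ℝ, B = ∑ m ∈ Finset.Icc N1 (2 * n), rst ρ m := ⟨_, rfl⟩
  obtain ⟨B', hB'⟩ : ∃ B' : ℝ, B' = ∑ m ∈ Finset.Icc N1 (2 * n), rst (Q * S) m := ⟨_, rfl⟩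
  obtain ⟨Y, hY⟩ : ∃ Y : ℝ, Y = ∑ n ∈ Finset.Icc n (2 * n), ((saw n).card : ℝ) * fug ^ n := ⟨_, rfl⟩
  have hA0 : 0 ≤ A := by
    rw [hA]
    exact sum_nonneg fun k _ => nc0m_nonneg _ _
  have hB'0 : 0 ≤ B' := by
    rw [hB']
    exact sum_nonneg fun k _ => rst_nonneg _ _
  have hBB : B' ≤ B := by
    rw [hB, hB']
    exact sum_le_sum fun m _ => rst_mono hs.r2 m
  rw [← hA] at g1
  rw [← hY, ← hB'] at g2
  have g3' : t * (A * B) ≤ ∑ N ∈ Finset.Icc N1 (2 * n + 5 * M), e4m (fun _ s k => NC0 (ra * S) s k) T h2 h3 h4 θ ρ N := by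
    rw [hA, hB]
    exact g3
  have hY0 : 0 ≤ Y := by
    rw [hY]
    exact sum_nonneg fun m _ => mul_nonneg (Nat.cast_nonneg _) (pow_nonneg fug_pos.le _)
  have g4 : ca * (c * Y) ≤ A * B' := by
    have h5 : ENNReal.ofReal (ca * (c * Y)) ≤ ENNReal.ofReal (A * B') := by
      rw [ENNReal.ofReal_mul hca.le, ENNReal.ofReal_mul hA0]
      calc ENNReal.ofReal ca * ENNReal.ofReal (c * Y) ≤ ENNReal.ofReal ca * (Xb K * ENNReal.ofReal B') := mul_le_mul' le_rfl g2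
        _ = ENNReal.ofReal ca * Xb K * ENNReal.ofReal B' := by rw [mul_assoc]
        _ ≤ ENNReal.ofReal A * ENNReal.ofReal B' := mul_le_mul' g1 le_rfl
    exact (ENNReal.ofReal_le_ofReal_iff (mul_nonneg hA0 hB'0)).1 h5
  have g5 : t * (ca * (c * Y)) ≤ ∑ N ∈ Finset.Icc N1 (2 * n + 5 * M), e4m (fun _ s k => NC0 (ra * S) s k) T h2 h3 h4 θ ρ N := by
    refine le_trans (mul_le_mul_of_nonneg_left (g4.trans (mul_le_mul_of_nonneg_left hBB hA0)) ht.le) g3'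
  -- the numbers of walks
  obtain ⟨Z, hZ⟩ : ∃ Z : ℝ, Z = n * (n : ℝ) ^ (11 / 32 : ℝ) := ⟨_, rfl⟩
  have hZ0 : 0 < Z := by rw [hZ]; positivity
  have g6 : cN * Z ≤ Y := by
    rw [hY, hZ]
    have h5 : (Finset.Icc n (2 * n)).card • (cN * (n : ℝ) ^ (11 / 32 : ℝ)) ≤
        ∑ m ∈ Finset.Icc n (2 * n), ((saw m).card : ℝ) * fug ^ m := by
      refine card_nsmul_le_sum _ _ _ fun m hm => ?_
      rw [Finset.mem_Icc] at hm
      refine le_trans (mul_le_mul_of_nonneg_left ?_ hcN.le) (haN m (by omega)).1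
      exact Real.rpow_le_rpow (Nat.cast_nonneg _) (by exact_mod_cast hm.1) (by norm_num)
    rw [Nat.card_Icc, nsmul_eq_mul] at h5
    refine le_trans ?_ h5
    have h6 : (n : ℝ) ≤ ((2 * n + 1 - n : ℕ) : ℝ) := by exact_mod_cast (by omega : n ≤ 2 * n + 1 - n)
    have h7 : 0 ≤ cN * (n : ℝ) ^ (11 / 32 : ℝ) := by positivity
    calc cN * (n * (n : ℝ) ^ (11 / 32 : ℝ)) = n * (cN * (n : ℝ) ^ (11 / 32 : ℝ)) := by ring
      _ ≤ _ := mul_le_mul_of_nonneg_right h6 h7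
  have g7 : ∑ N ∈ Finset.Icc N1 (2 * n + 5 * M), ((saw N).card : ℝ) * fug ^ N ≤ 12 * CN * Z := by
    have h5 : ∑ N ∈ Finset.Icc N1 (2 * n + 5 * M), ((saw N).card : ℝ) * fug ^ N ≤
        (Finset.Icc N1 (2 * n + 5 * M)).card • (CN * (3 * (n : ℝ) ^ (11 / 32 : ℝ))) := by
      refine sum_le_card_nsmul _ _ _ fun N hN => ?_
      rw [Finset.mem_Icc] at hN
      have hN1' : 1 ≤ N := by
        refine le_trans ?_ hN.1
        rw [hN1]
        refine Nat.le_floor ?_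
        have : (10 : ℝ) ≤ n := by exact_mod_cast hn10
        push_cast
        linarith
      refine (haN N hN1').2.trans (mul_le_mul_of_nonneg_left ?_ hCN.le)
      calc (N : ℝ) ^ (11 / 32 : ℝ) ≤ (3 * n : ℝ) ^ (11 / 32 : ℝ) := by
            refine Real.rpow_le_rpow (Nat.cast_nonneg _) ?_ (by norm_num)
            exact_mod_cast (by omega : N ≤ 3 * n)
        _ = 3 ^ (11 / 32 : ℝ) * (n : ℝ) ^ (11 / 32 : ℝ) := Real.mul_rpow (by norm_num) (Nat.cast_nonneg _)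
        _ ≤ 3 * (n : ℝ) ^ (11 / 32 : ℝ) := by
          refine mul_le_mul_of_nonneg_right ?_ (by positivity)
          have := Real.rpow_le_rpow_of_exponent_le (x := (3 : ℝ)) (by norm_num) (show (11 / 32 : ℝ) ≤ 1 by norm_num)
          rwa [Real.rpow_one] at this
    refine h5.trans ?_
    rw [Nat.card_Icc, nsmul_eq_mul, hZ]
    have h6 : ((2 * n + 5 * M + 1 - N1 : ℕ) : ℝ) ≤ 4 * n := by exact_mod_cast (by omega : 2 * n + 5 * M + 1 - N1 ≤ 4 * n)
    have h7 : 0 ≤ CN * (3 * (n : ℝ) ^ (11 / 32 : ℝ)) := by positivity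
    calc _ ≤ 4 * (n : ℝ) * (CN * (3 * (n : ℝ) ^ (11 / 32 : ℝ))) := mul_le_mul_of_nonneg_right h6 h7
      _ = _ := by ring
  -- one of them
  by_contra hcon
  push Not at hcon
  obtain ⟨p, hp⟩ : ∃ p : ℝ, p = t * ca * c * cN / (12 * CN) := ⟨_, rfl⟩
  rw [← hp] at hcon
  have hp0 : 0 < p := by rw [hp]; positivity
  have hN1n : N1 ≤ n := by
    rw [hN1]
    refine Nat.floor_le_of_le ?_
    linarith
  have h8 : ∑ N ∈ Finset.Icc N1 (2 * n + 5 * M), e4m (fun _ s k => NC0 (ra * S) s k) T h2 h3 h4 θ ρ N <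
      ∑ N ∈ Finset.Icc N1 (2 * n + 5 * M), p * (((saw N).card : ℝ) * fug ^ N) := by
    refine sum_lt_sum_of_nonempty ⟨n, Finset.mem_Icc.2 ⟨hN1n, by omega⟩⟩ fun N hN => ?_
    rw [Finset.mem_Icc] at hN
    have h9 : n ≤ 4 * N := by
      have h10 : n ≤ 2 * N1 + 2 := by
        have h11 := Nat.lt_floor_add_one ((1 - 1 / 2 : ℝ) * n)
        rw [← hN1] at h11
        have h12 : (n : ℝ) < 2 * N1 + 2 := by linarith
        exact_mod_cast h12.le
      omega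
    have h10 := hcon N h9 (by omega)
    unfold e4m
    rw [← mul_assoc]
    refine mul_lt_mul_of_pos_right ?_ (pow_pos fug_pos _)
    exact h10
  rw [← mul_sum] at h8
  have h9 : p * ∑ N ∈ Finset.Icc N1 (2 * n + 5 * M), ((saw N).card : ℝ) * fug ^ N ≤ t * ca * c * cN * Z := by
    refine (mul_le_mul_of_nonneg_left g7 hp0.le).trans (le_of_eq ?_)
    rw [hp]
    field_simp
  have h10 : t * ca * c * cN * Z ≤ t * (ca * (c * Y)) := by
    calc t * ca * c * cN * Z = t * (ca * (c * (cN * Z))) := by ring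
      _ ≤ _ := mul_le_mul_of_nonneg_left (mul_le_mul_of_nonneg_left (mul_le_mul_of_nonneg_left g6 hc.le) hca.le) ht.le
  linarith

end Pool.Agent.ROT.F3.W8
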