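import Pool.Agent.ROT.W8Geo
import Pool.Agent.ROT.W8Nat
import Pool.Agent.SCF.EpGlue2

/-!
# ROT / W8Geo2 (helper84): row W8 of ROT / F3, the walks of the class `E5` in the frame W3

* `md_ofFn` : the block `md s k m` is a piece of the word;
* `E5.dg`, `E5.rg` : the two halves (`W8Geo`); `Nw` : words with a native double gate `c`, `x`, a cut `c+` in the block, a second block
  from a class `B` with the end `y`, and the rest;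
* **`E5.nw`** : the walks of the class `E5` with start pieces `NC0` give such words.
-/

set_option autoImplicit false

namespace Pool.Agent.ROT.F3.W8

open Finset ComplexConjugate
open Pool.Agent.NTS.Res (step pos saw fug)
open Pool.Agent.SCF.Z (SCut GB GBt GC nx_bd md pos_md E5)
open NTSF (pos_zero)

/-- the block of the walk is a piece of the word -/
lemma md_ofFn {n : ℕ} (s : Fin n → Fin 3) {k k' : ℕ} (hk : k ≤ k') (hk' : k' ≤ n) :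
    List.ofFn (md s k (k' - k)) = ((List.ofFn s).take k').drop k := by
  refine List.ext_getElem ?_ fun i h1 h2 => ?_
  · rw [List.length_ofFn, List.length_drop, List.length_take, List.length_ofFn, min_eq_left hk']
  · rw [List.length_ofFn] at h1
    rw [List.getElem_ofFn, List.getElem_drop, List.getElem_take, List.getElem_ofFn]
    unfold md
    rw [dif_pos (show k + i < n by omega)]

section

variable {A0 : ∀ n : ℕ, (Fin n → Fin 3) → ℕ → Prop} {Bk : ∀ m : ℕ, (Fin m → Fin 3) → Prop} {T h2 h3 h4 h5 L2 θ ρ : ℝ} {n : ℕ}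
  {s : Fin n → Fin 3} {k0 k1 k2 k3 k4 k5 : ℕ}

lemma E5.dg (h : E5 A0 Bk T h2 h3 h5 θ ρ s k0 k1 k2 k3 k4 k5) : Dg A0 T h2 h3 θ s k0 k1 k2 k3 :=
  ⟨h.1, h.2.1, h.2.2.1, h.2.2.2.1⟩

lemma E5.rg (h : E5 A0 Bk T h2 h3 h5 θ ρ s k0 k1 k2 k3 k4 k5)
    (hB : ∀ (m : ℕ) (b : Fin m → Fin 3), Bk m b → GB h4 L2 b 0 m) : Rg h4 h5 L2 θ ρ s k3 k4 k5 :=
  ⟨SCF.Z.E5.b2 h hB, h.2.2.2.2.2.1, h.2.2.2.2.2.2⟩

end

/-- **words with a native double gate**: `c = w_k1`, `c+ = w_k2`, `x = w_k3`, `y = w_k4` -/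
structure Nw (T h2 h3 θ r r2 κ1 κ r0 r1 κ' : ℝ) (B : Set W3) (w : W3) (k1 k2 k3 k4 : ℕ) : Prop where
  lt1 : k1 < k2
  lt2 : k2 < k3
  lt3 : k3 < k4
  lt4 : k4 < w.length
  ev1 : Even k1
  ev2 : Even k2
  ev3 : Even k3
  ev4 : Even k4
  dbl : DblC 1 r T r2 h3 (w.take k3) k1
  e1 : EndK 1 (κ1 + κ) (w.take k1)
  cell : ‖ps w k1 - (T : ℂ) * 1‖ ≤ r - T
  s1 : ConeK 1 κ1 ((w.take k3).drop k1)
  cut : CutC 1 ((w.take k3).drop k1) (k2 - k1)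
  cut1 : h2 ≤ lv 1 (ps ((w.take k3).drop k1) (k2 - k1))
  cut2 : lv 1 (ps ((w.take k3).drop k1) (k2 - k1)) ≤ h2 + θ
  b2 : (w.take k4).drop k3 ∈ B
  rest : RestK 1 r0 κ (w.drop k3)
  rest_y : RestK 1 r1 κ' (w.drop k4)

lemma Nw.split {T h2 h3 θ r r2 κ1 κ r0 r1 κ' : ℝ} {B : Set W3} {w : W3} {k1 k2 k3 k4 : ℕ}
    (h : Nw T h2 h3 θ r r2 κ1 κ r0 r1 κ' B w k1 k2 k3 k4) :
    w = w.take k1 ++ (((w.take k3).drop k1) ++ (((w.take k4).drop k3) ++ w.drop k4)) := by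
  have e1 : ∀ (w : W3) (i j : ℕ), i ≤ j → (w.take j).drop i ++ w.drop j = w.drop i := by
    intro w i j hij
    rw [List.drop_take]
    have : w.drop j = (w.drop i).drop (j - i) := by
      rw [List.drop_drop]
      congr 1
      omega
    rw [this, List.take_append_drop]
  have := h.lt1
  have := h.lt2
  have := h.lt3
  rw [e1 _ _ _ (by omega), e1 _ _ _ (by omega), List.take_append_drop]

/-- the shape of the class -/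
structure Shw (R T h2 h3 h4 h5 L2 θ ρ r r2 κ1 κ r0 r1 κ' κb : ℝ) : Prop where
  RT : R < T
  h23 : h2 + θ < h3
  hr : T + 4 * R + 2 * θ ≤ r
  hr2 : h3 + 3 * θ ≤ r2
  hκ1 : θ ≤ κ1
  hκ : R + θ + 2 * (κ1 + κ) ≤ T
  h50 : 0 ≤ h5
  hκ0 : 0 ≤ κ
  hκb : κb + θ / 2 ≤ κ
  hr0 : r0 ≤ 2 * (h4 + h5)
  hr0' : r0 + L2 + h5 + 2 * θ ≤ ρ
  hκ' : θ ≤ 2 * κ'
  hr1 : r1 ≤ 2 * h5
  hr1' : r1 + h5 + 2 * θ ≤ ρ

/-- **the walks of the class in the frame W3** -/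
theorem E5.nw {R T h2 h3 h4 h5 L2 θ ρ r r2 κ1 κ r0 r1 κ' κb : ℝ} (hS : Shw R T h2 h3 h4 h5 L2 θ ρ r r2 κ1 κ r0 r1 κ' κb)
    {A0 : ∀ n : ℕ, (Fin n → Fin 3) → ℕ → Prop} (hP : SCF.Z.PC A0 id R)
    (hN : ∀ (n : ℕ) (s : Fin n → Fin 3) (k : ℕ), A0 n s k → ∀ k' : ℕ, ¬ SCut s 0 k' k) {B : Set W3}
    (hB : ∀ b ∈ B, BlkC 1 L2 b ∧ FstC 1 h4 b ∧ ConeK 1 κb b) {n : ℕ} {s : Fin n → Fin 3} (hs : s ∈ saw n)
    {k0 k1 k2 k3 k4 k5 : ℕ} (h : E5 A0 (fun _ b => List.ofFn b ∈ B) T h2 h3 h5 θ ρ s k0 k1 k2 k3 k4 k5) :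
    Nw T h2 h3 θ r r2 κ1 κ r0 r1 κ' B (List.ofFn s) k1 k2 k3 k4 := by
  have hg : ∀ (m : ℕ) (b : Fin m → Fin 3), List.ofFn b ∈ B → GB h4 L2 b 0 m := fun m b hb =>
    gb_of_blk (hB _ hb).1 (hB _ hb).2.1
  have hd := E5.dg h
  have hr := E5.rg h hg
  have l1 := hd.lt
  have l2 := hr.lt
  have hev := hd.even
  have hb2 : ((List.ofFn s).take k4).drop k3 ∈ B := by
    rw [← md_ofFn s l2.1.le (by omega)]
    exact h.2.2.2.2.1.2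
  obtain ⟨q1, q2, q3, q4, q5, q6⟩ := hd.cut (by omega)
  refine ⟨l1.2.1, l1.2.2, l2.1, by rw [List.length_ofFn]; omega, hev.1, hev.2.1, hev.2.2, hr.g4.2.1,
    hd.dbl hP (hN n s k0 hd.a) hS.RT hS.h23 hs (by omega) hS.hr hS.hr2, hd.endK_c hP (by omega) hS.hκ, ?_,
    hd.coneK (by omega) hS.hκ1, q4, q5, q6, hb2, hr.restK hev.2.2 hS.hr0' hS.h50 (hB _ hb2).2.2 hS.hκ0 hS.hκb hS.hr0,
    hr.restK_y hS.hr1' hS.h50 hS.hκ' hS.hr1⟩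
  have h1 := hd.cell hP (show k3 ≤ n by omega)
  rw [((pc_w s).take (show k1 ≤ n by omega)).en, ← ps_ofFn] at h1
  have := hS.hr
  have := hd.R0 hP
  linarith

/-- the start pieces of 94 -/
theorem E5.nw' {ra S T h2 h3 h4 h5 L2 θ ρ r r2 κ1 κ r0 r1 κ' κb : ℝ}
    (hS : Shw (ra * S) T h2 h3 h4 h5 L2 θ ρ r r2 κ1 κ r0 r1 κ' κb) {B : Set W3}
    (hB : ∀ b ∈ B, BlkC 1 L2 b ∧ FstC 1 h4 b ∧ ConeK 1 κb b) {n : ℕ} {s : Fin n → Fin 3} (hs : s ∈ saw n)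
    {k0 k1 k2 k3 k4 k5 : ℕ}
    (h : E5 (fun _ s k => NC0 (ra * S) s k) (fun _ b => List.ofFn b ∈ B) T h2 h3 h5 θ ρ s k0 k1 k2 k3 k4 k5) :
    Nw T h2 h3 θ r r2 κ1 κ r0 r1 κ' B (List.ofFn s) k1 k2 k3 k4 :=
  E5.nw hS (pc_nc0 (ra * S)) (fun _ _ _ hk => hk.2.2.2) hB hs h

end Pool.Agent.ROT.F3.W8
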