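import Pool.Agent.ROT.W8Win
import Pool.Agent.SCF.EpGlue2
import Pool.Agent.PMA.LimR

/-!
# ROT, F3, row W8 (walks), part 6 (helper94): the class with a weighted block `b2`, window form

* `Shp5` : the shape at the scale `S`; `P5` : the class of helper4 (`E5`: start piece without cuts, `c`, `c+`, `x`, block `b2`, `y`,
  rest), `v5` : its weight `ψ b2`;
* **`psi_win`** : `p * (mass of the blocks with the weight) * (sum of the walks over [n/2, 3n]) ≤` sum of the weights over the window,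
  uniformly in the scale, the thresholds, the class of blocks and the weight.
* `v5_congr`, `v5_nonneg`, `v5_le_one` : the weight is a function of the walk up to its last visit of a ball.
-/

set_option autoImplicit false

open Filter Topology

namespace Pool.Agent.ROT.F3.W8

open Finset HexObs.NTA

open Pool.Agent.NTS.Res (pos saw fug step size)

open NTSF (pos_zero pos_succ mem_saw)

open Pool.Agent.SCF.Z (GC SCut GB GBt PC UQ E5 e5m w5 bm glue5 w5_eq w5_zero w5_le w5_nonneg md Agr gbt_pref)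

open scoped ENNReal

/-- the shape of the class at the scale `S` -/
structure Shp5 (ra η Q S T h2 h3 h5 θ ρ L2 : ℝ) : Prop where
  T1 : η * S + ra * S ≤ T
  T2 : T ≤ S
  h21 : η * S ≤ h2
  h22 : h2 ≤ S
  h31 : η * S + h2 + θ ≤ h3
  h32 : h3 ≤ S
  h51 : η * S ≤ h5
  h52 : h5 ≤ S
  th1 : η * S ≤ θ
  th2 : θ ≤ S
  l0 : 0 ≤ L2
  r1 : 2 * (ra * S) + 10 * (S + 2 * θ) + 2 * L2 ≤ ρ
  r2 : ρ ≤ Q * S

/-- the class of walks -/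
def P5 (Bk : ∀ m : ℕ, (Fin m → Fin 3) → Prop) (ra S T h2 h3 h5 θ ρ : ℝ) {n : ℕ} (s : Fin n → Fin 3)
    (k0 k1 k2 k3 k4 k5 : ℕ) : Prop :=
  E5 (fun _ s k => NC0 (ra * S) s k) Bk T h2 h3 h5 θ ρ s k0 k1 k2 k3 k4 k5

/-- the weight -/
noncomputable def v5 (Bk : ∀ m : ℕ, (Fin m → Fin 3) → Prop) (ψ : ∀ m : ℕ, (Fin m → Fin 3) → ℝ) (ra S T h2 h3 h5 θ ρ : ℝ)
    (n : ℕ) (s : Fin n → Fin 3) : ℝ :=
  w5 (fun _ s k => NC0 (ra * S) s k) Bk ψ T h2 h3 h5 θ ρ s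

/-- the power of a small scale -/
lemma pow_scale (A : ℝ) (hA : 0 ≤ A) : ∃ δ : ℝ, 0 < δ ∧ ∀ (n : ℕ) (S : ℝ), 1 ≤ n → 0 ≤ S → S ≤ δ * size n →
    A * S ^ (4 / 3 : ℝ) ≤ n / 4 := by
  obtain ⟨cs, Cs, hcs, hsz, -⟩ := NTSF.finE
  have hCs : 0 < Cs := by
    have h1 := (hsz 1 le_rfl).2
    have h2 := NTSF.size_pos (n := 1) le_rfl
    rw [Nat.cast_one, Real.one_rpow, mul_one] at h1
    linarith
  obtain ⟨x, hx⟩ : ∃ x : ℝ, x = (1 / (4 * (A + 1))) ^ (3 / 4 : ℝ) := ⟨_, rfl⟩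
  have hx0 : 0 < x := by rw [hx]; positivity
  refine ⟨x / Cs, by positivity, fun n S hn hS h => ?_⟩
  have h1 : S ≤ x * (n : ℝ) ^ (3 / 4 : ℝ) := by
    calc S ≤ x / Cs * size n := h
      _ ≤ x / Cs * (Cs * (n : ℝ) ^ (3 / 4 : ℝ)) := mul_le_mul_of_nonneg_left (hsz n hn).2 (by positivity)
      _ = x * (n : ℝ) ^ (3 / 4 : ℝ) := by field_simp
  have h2 : S ^ (4 / 3 : ℝ) ≤ 1 / (4 * (A + 1)) * n := by
    calc S ^ (4 / 3 : ℝ) ≤ (x * (n : ℝ) ^ (3 / 4 : ℝ)) ^ (4 / 3 : ℝ) := Real.rpow_le_rpow hS h1 (by norm_num)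
      _ = x ^ (4 / 3 : ℝ) * ((n : ℝ) ^ (3 / 4 : ℝ)) ^ (4 / 3 : ℝ) := Real.mul_rpow hx0.le (by positivity)
      _ = 1 / (4 * (A + 1)) * n := by
        rw [hx, ← Real.rpow_mul (by positivity), ← Real.rpow_mul (Nat.cast_nonneg _)]
        norm_num
  have h3 : 0 ≤ S ^ (4 / 3 : ℝ) := Real.rpow_nonneg hS _
  calc A * S ^ (4 / 3 : ℝ) ≤ (A + 1) * (1 / (4 * (A + 1)) * n) := by
        calc A * S ^ (4 / 3 : ℝ) ≤ (A + 1) * S ^ (4 / 3 : ℝ) := mul_le_mul_of_nonneg_right (by linarith) h3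
          _ ≤ _ := mul_le_mul_of_nonneg_left h2 (by linarith)
    _ = n / 4 := by field_simp

/-- **the class with a weighted block, window form** -/
theorem psi_win (ra η Q A : ℝ) (hra : 0 < ra) (hη : 0 < η) (hQ : ra ≤ Q) (hA : 0 ≤ A) : ∃ p δ0 : ℝ, 0 < p ∧ 0 < δ0 ∧
    ∀ δ1 : ℝ, 0 < δ1 → ∃ n0 : ℕ, ∀ (n : ℕ) (S : ℝ), n0 ≤ n → δ1 * size n ≤ S → S ≤ δ0 * size n →
      10 ≤ n ∧ 0 < S ∧ ∀ (T h2 h3 h4 h5 θ ρ L2 : ℝ) (Bk : ∀ m : ℕ, (Fin m → Fin 3) → Prop) (ψ : ∀ m : ℕ, (Fin m → Fin 3) → ℝ)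
        (M2 : ℕ), Shp5 ra η Q S T h2 h3 h5 θ ρ L2 → (∀ (m : ℕ) (b : Fin m → Fin 3), Bk m b → GB h4 L2 b 0 m) →
          (∀ (m : ℕ) (b : Fin m → Fin 3), 0 ≤ ψ m b) → (M2 : ℝ) ≤ A * S ^ (4 / 3 : ℝ) →
            p * bm Bk ψ M2 * ∑ N ∈ Finset.Icc (n / 2) (3 * n), ((saw N).card : ℝ) * fug ^ N ≤
              ∑ N ∈ Finset.Icc (n / 2) (3 * n), (∑ s ∈ saw N, v5 Bk ψ ra S T h2 h3 h5 θ ρ N s) * fug ^ N := by
  classical
  obtain ⟨t, h0, ht, hglue⟩ := glue5 η 1 hη one_pos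
  obtain ⟨p, d0, hp, hd0, hcore⟩ := core ra Q (|h0| / η) hra hQ
  obtain ⟨d2, hd2, hpow⟩ := pow_scale A hA
  refine ⟨t * p, min d0 d2, by positivity, lt_min hd0 hd2, fun δ1 hδ1 => ?_⟩
  obtain ⟨n0, hc⟩ := hcore δ1 hδ1
  refine ⟨max n0 1, fun n S hn hS1 hS2 => ?_⟩
  have hn1 : 1 ≤ n := (le_max_right _ _).trans hn
  have hsz := NTSF.size_pos hn1
  obtain ⟨c1, c2, c3, c4, c5⟩ := hc n S ((le_max_left _ _).trans hn) hS1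
    (hS2.trans (mul_le_mul_of_nonneg_right (min_le_left _ _) hsz.le))
  refine ⟨c1, c2, fun T h2 h3 h4 h5 θ ρ L2 Bk ψ M2 hs hB hψ hM2 => ?_⟩
  have hh0 : h0 ≤ η * S := by
    rw [div_le_iff₀ hη] at c3
    linarith [le_abs_self h0]
  have g := hglue (fun _ s k => NC0 (ra * S) s k) Bk ψ (ra * S) (η * S) S θ ρ h4 L2 (n / 10) M2 (pc_nc0 _) (by positivity) hB
    hs.l0 hψ hh0 (by positivity) (hs.h21.trans hs.h22) hs.th1 (by rw [one_mul]; exact c4) hs.r1 T h2 h3 h5 hs.T1 hs.T2 hs.h21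
    hs.h22 hs.h31 hs.h32 hs.h51 hs.h52 (n / 2) (2 * n)
  have hM : M2 ≤ n / 4 := by
    have h6 := hM2.trans (hpow n S hn1 c2.le (hS2.trans (mul_le_mul_of_nonneg_right (min_le_right _ _) hsz.le)))
    rw [Nat.le_div_iff_mul_le (by norm_num)]
    have h7 : (M2 : ℝ) * 4 ≤ n := by linarith
    exact_mod_cast h7
  have hbm : 0 ≤ bm Bk ψ M2 := by
    unfold bm
    exact sum_nonneg fun m _ => mul_nonneg (sum_nonneg fun b _ => hψ m b) (pow_nonneg fug_pos.le _)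
  have hcc := c5 ρ hs.r2
  have e1 : ∑ N ∈ Finset.Icc (n / 2) (2 * n + 5 * (n / 10) + M2),
      e5m (fun _ s k => NC0 (ra * S) s k) Bk ψ T h2 h3 h5 θ ρ N ≤
      ∑ N ∈ Finset.Icc (n / 2) (3 * n), (∑ s ∈ saw N, v5 Bk ψ ra S T h2 h3 h5 θ ρ N s) * fug ^ N := by
    refine sum_le_sum_of_subset_of_nonneg (fun N hN => ?_) fun N _ _ => mul_nonneg (sum_nonneg fun s _ => w5_nonneg hψ)
      (pow_nonneg fug_pos.le _)
    rw [Finset.mem_Icc] at hN ⊢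
    omega
  refine le_trans ?_ e1
  refine le_trans ?_ g
  obtain ⟨X, hX⟩ : ∃ X : ℝ, X = ∑ N ∈ Finset.Icc (n / 2) (3 * n), ((saw N).card : ℝ) * fug ^ N := ⟨_, rfl⟩
  obtain ⟨Y, hY⟩ : ∃ Y : ℝ, Y = ∑ k ∈ range (n / 10 + 1), nc0m (ra * S) k := ⟨_, rfl⟩
  obtain ⟨Z, hZ⟩ : ∃ Z : ℝ, Z = ∑ m ∈ Finset.Icc (n / 2) (2 * n), rst ρ m := ⟨_, rfl⟩
  rw [← hX, ← hY, ← hZ] at hcc
  rw [← hX]
  have e2 : (∑ k ∈ Finset.range (n / 10 + 1), (((saw k).filter fun s => NC0 (ra * S) s k).card : ℝ) * fug ^ k) *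
      bm Bk ψ M2 * ∑ m ∈ Finset.Icc (n / 2) (2 * n), Pool.Agent.SCF.Z.rst ρ m = Y * bm Bk ψ M2 * Z := by
    rw [hY, hZ]
    rfl
  have e3 : t * p * bm Bk ψ M2 * X = t * (bm Bk ψ M2 * (p * X)) := by ring
  have e4 : t * (Y * bm Bk ψ M2 * Z) = t * (bm Bk ψ M2 * (Y * Z)) := by ring
  rw [e3]
  refine (mul_le_mul_of_nonneg_left (mul_le_mul_of_nonneg_left hcc hbm) ht.le).trans (le_of_eq ?_)
  rw [← e4, ← e2]

section Loc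

variable {Bk : ∀ m : ℕ, (Fin m → Fin 3) → Prop} {ψ : ∀ m : ℕ, (Fin m → Fin 3) → ℝ} {ra η Q S T h2 h3 h4 h5 θ ρ L2 : ℝ} {n : ℕ}
  {s : Fin n → Fin 3} {k0 k1 k2 k3 k4 k5 : ℕ}

lemma agr_of_pos {n' m : ℕ} {s' : Fin n' → Fin 3} (h : ∀ t : ℕ, t ≤ m → pos s t = pos s' t) : Agr s s' m := by
  intro t h1 h2 h3
  have e1 := h t h3.le
  have e2 := h (t + 1) h3
  rw [pos_succ s t h1, pos_succ s' t h2, e1, add_right_inj] at e2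
  exact (Pool.Agent.PMA.LimR.step_inj e2).symm

/-- the walk up to its last mark is in the ball of radius `ρ` -/
lemma P5.bd (h : P5 Bk ra S T h2 h3 h5 θ ρ s k0 k1 k2 k3 k4 k5) (hs : Shp5 ra η Q S T h2 h3 h5 θ ρ L2)
    (hB : ∀ (m : ℕ) (b : Fin m → Fin 3), Bk m b → GB h4 L2 b 0 m) {j : ℕ} (hj : j ≤ k5) : ‖pos s j‖ ≤ ρ := by
  obtain ⟨l0, l1, l2, l3, l4, l5⟩ := E5.lt h
  have gb := E5.b2 h hB
  obtain ⟨a0, g1, g2, g3, -, g5, -⟩ := h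
  have z0 : pos s 0 = 0 := pos_zero _
  have e0 := a0.2.2.1 0 (Nat.zero_le _)
  rw [z0, zero_sub, norm_neg] at e0
  have w0 := a0.2.1 0 (Nat.zero_le _)
  have hθ : 0 ≤ θ := (abs_nonneg _).trans (g2.2 k1 le_rfl g2.1.1.le).1
  have v1 := g2.1.2.2.2.2.1 k1 le_rfl g2.1.1.le
  have b1 : ∀ i : ℕ, k0 ≤ i → i ≤ k1 → ‖pos s i - pos s k0‖ ≤ S + 2 * θ := fun i i1 i2 =>
    (g1.1.2.2.2.2.2.1 i i1 i2).trans (by linarith [hs.T2])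
  have b2 : ∀ i : ℕ, k1 ≤ i → i ≤ k2 → ‖pos s i - pos s k1‖ ≤ S + 2 * θ := fun i i1 i2 =>
    (g2.1.2.2.2.2.2.1 i i1 i2).trans (by linarith [hs.h22])
  have b3 : ∀ i : ℕ, k2 ≤ i → i ≤ k3 → ‖pos s i - pos s k2‖ ≤ S + 2 * θ := fun i i1 i2 =>
    (g3.1.2.2.2.2.2.1 i i1 i2).trans (by linarith [hs.h32])
  have b4 : ∀ i : ℕ, k3 ≤ i → i ≤ k4 → ‖pos s i - pos s k3‖ ≤ L2 := fun i i1 i2 => gb.2.2.2.2.2.1 i i1 i2
  have b5 : ∀ i : ℕ, k4 ≤ i → i ≤ k5 → ‖pos s i - pos s k4‖ ≤ S + 2 * θ := fun i i1 i2 =>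
    (g5.1.2.2.2.2.2.1 i i1 i2).trans (by linarith [hs.h52])
  have hS2 : 0 ≤ S + 2 * θ := (norm_nonneg _).trans (b1 k0 le_rfl l0.le)
  have key : ∀ {x y : ℂ} {A B : ℝ}, ‖x - y‖ ≤ A → ‖y‖ ≤ B → ‖x‖ ≤ A + B := fun {x y A B} hx hy => by
    calc ‖x‖ = ‖(x - y) + y‖ := by ring_nf
      _ ≤ ‖x - y‖ + ‖y‖ := norm_add_le _ _
      _ ≤ A + B := add_le_add hx hy
  have c1 := key (b1 k1 l0.le le_rfl) e0
  have c2 := key (b2 k2 l1.le le_rfl) c1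
  have c3 := key (b3 k3 l2.le le_rfl) c2
  have c4 := key (b4 k4 l3 le_rfl) c3
  have hr := hs.r1
  have hl := hs.l0
  have hra : 0 ≤ ra * S := (norm_nonneg _).trans e0
  rcases le_or_gt j k0 with h5 | h5
  · have := key (a0.2.2.1 j h5) e0
    linarith
  rcases le_or_gt j k1 with h6 | h6
  · have := key (b1 j h5.le h6) e0
    linarith
  rcases le_or_gt j k2 with h7 | h7
  · have := key (b2 j h6.le h7) c1
    linarith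
  rcases le_or_gt j k3 with h8 | h8
  · have := key (b3 j h7.le h8) c2
    linarith
  rcases le_or_gt j k4 with h9 | h9
  · have := key (b4 j h8.le h9) c3
    linarith
  · have := key (b5 j h9.le hj) c4
    linarith

/-- the class does not change if the walk is changed behind its last visit of the ball -/
lemma P5.congr {n' m : ℕ} {s' : Fin n' → Fin 3} (h : P5 Bk ra S T h2 h3 h5 θ ρ s k0 k1 k2 k3 k4 k5)
    (hs : Shp5 ra η Q S T h2 h3 h5 θ ρ L2) (hB : ∀ (m : ℕ) (b : Fin m → Fin 3), Bk m b → GB h4 L2 b 0 m)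
    (hm : m ≤ n) (hm' : m ≤ n') (he : ∀ t : ℕ, t ≤ m → pos s t = pos s' t)
    (h1 : ∀ j : ℕ, m ≤ j → j ≤ n → 2 * ρ < ‖pos s j‖) (h1' : ∀ j : ℕ, m ≤ j → j ≤ n' → 2 * ρ < ‖pos s' j‖) :
    P5 Bk ra S T h2 h3 h5 θ ρ s' k0 k1 k2 k3 k4 k5 ∧ md s' k3 (k4 - k3) = md s k3 (k4 - k3) := by
  have hb := fun j hj => P5.bd h hs hB (j := j) hj
  obtain ⟨l0, l1, l2, l3, l4, l5⟩ := E5.lt h
  have hρ : 0 ≤ ρ := (norm_nonneg _).trans (hb 0 (Nat.zero_le _))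
  have hk5 : k5 < m := by
    by_contra hcon
    push Not at hcon
    have := h1 k5 hcon l5.le
    linarith [hb k5 le_rfl]
  have hag : Agr s s' m := agr_of_pos he
  have hmd : md s' k3 (k4 - k3) = md s k3 (k4 - k3) := (hag.le (by omega)).md_eq (by omega) (by omega)
  refine ⟨?_, hmd⟩
  obtain ⟨a0, g1, g2, g3, ⟨g4, g4'⟩, g5, c1, c2, c3⟩ := h
  have e : ∀ t : ℕ, t ≤ m → pos s' t = pos s t := fun t ht => (he t ht).symm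
  refine ⟨nc0_congr (fun t ht => e t (by omega)) a0, ?_, ?_, ?_, ⟨g4, by rw [hmd]; exact g4'⟩, ?_, by omega, ?_,
    fun j j1 j2 j3 => ?_⟩
  · rw [e k0 (by omega), e 0 (by omega)]
    exact gbt_pref a0.1 (fun t ht => e t (by omega)) g1
  · exact gbt_pref g1.1.2.1 (fun t ht => e t (by omega)) g2
  · rw [e k2 (by omega), e k1 (by omega)]
    exact gbt_pref g2.1.2.1 (fun t ht => e t (by omega)) g3
  · have ek4 : Even k4 := (E5.b2 (A0 := fun _ s k => NC0 (ra * S) s k) (h4 := h4) (L2 := L2) (Bk := Bk) (s := s)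
      ⟨a0, g1, g2, g3, ⟨g4, g4'⟩, g5, c1, c2, c3⟩ hB).2.1
    exact gbt_pref ek4 (fun t ht => e t (by omega)) g5
  · rw [e (k5 + 1) (by omega), e k5 (by omega)]
    exact c2
  · rw [e k5 (by omega)] at j3 ⊢
    rcases le_or_gt m j with h5 | h5
    · exfalso
      have h6 := h1' j h5 j2
      have h7 : ‖pos s' j‖ ≤ ρ + ρ := by
        calc ‖pos s' j‖ = ‖(pos s' j - pos s k5) + pos s k5‖ := by ring_nf
          _ ≤ ‖pos s' j - pos s k5‖ + ‖pos s k5‖ := norm_add_le _ _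
          _ ≤ ρ + ρ := add_le_add j3 (hb k5 le_rfl)
      linarith
    · rw [e j h5.le] at j3 ⊢
      exact c3 j j1 (by omega) j3

/-- the marks are unique -/
lemma P5.uniq (hs : Shp5 ra η Q S T h2 h3 h5 θ ρ L2) (hB : ∀ (m : ℕ) (b : Fin m → Fin 3), Bk m b → GB h4 L2 b 0 m)
    (hra : 0 ≤ ra * S) (hη : 0 ≤ η * S) {l0 l1 l2 l3 l4 l5 : ℕ} (h : P5 Bk ra S T h2 h3 h5 θ ρ s k0 k1 k2 k3 k4 k5)
    (h' : P5 Bk ra S T h2 h3 h5 θ ρ s l0 l1 l2 l3 l4 l5) :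
    k0 = l0 ∧ k1 = l1 ∧ k2 = l2 ∧ k3 = l3 ∧ k4 = l4 ∧ k5 = l5 := by
  have h1 := hs.th1
  have h2' := hs.h21
  have h3' := hs.h22
  have h4' := hs.r1
  have h5' := hs.l0
  exact E5.uniq (R := ra * S) (hb := S) (pc_nc0 _) hB (uq_nc0 (by linarith)) hra hs.l0 (by linarith) hs.r1 hs.T2 hs.h22 hs.h32
    hs.h52 (by linarith) h h'

lemma v5_nonneg (hψ : ∀ (m : ℕ) (b : Fin m → Fin 3), 0 ≤ ψ m b) : 0 ≤ v5 Bk ψ ra S T h2 h3 h5 θ ρ n s := w5_nonneg hψ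

lemma v5_le_one (hs : Shp5 ra η Q S T h2 h3 h5 θ ρ L2) (hB : ∀ (m : ℕ) (b : Fin m → Fin 3), Bk m b → GB h4 L2 b 0 m)
    (hra : 0 ≤ ra * S) (hη : 0 ≤ η * S) (hψ : ∀ (m : ℕ) (b : Fin m → Fin 3), ψ m b ≤ 1) :
    v5 Bk ψ ra S T h2 h3 h5 θ ρ n s ≤ 1 :=
  w5_le (fun _ _ _ _ _ _ _ _ _ _ _ _ h h' => P5.uniq hs hB hra hη h h') hψ

/-- **the weight is local** -/
theorem v5_congr {n' m : ℕ} {s' : Fin n' → Fin 3} (hs : Shp5 ra η Q S T h2 h3 h5 θ ρ L2)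
    (hB : ∀ (m : ℕ) (b : Fin m → Fin 3), Bk m b → GB h4 L2 b 0 m) (hra : 0 ≤ ra * S) (hη : 0 ≤ η * S)
    (hm : m ≤ n) (hm' : m ≤ n') (he : ∀ t : ℕ, t ≤ m → pos s t = pos s' t)
    (h1 : ∀ j : ℕ, m ≤ j → j ≤ n → 2 * ρ < ‖pos s j‖) (h1' : ∀ j : ℕ, m ≤ j → j ≤ n' → 2 * ρ < ‖pos s' j‖) :
    v5 Bk ψ ra S T h2 h3 h5 θ ρ n s = v5 Bk ψ ra S T h2 h3 h5 θ ρ n' s' := by
  by_cases h : ∃ k0 k1 k2 k3 k4 k5 : ℕ, P5 Bk ra S T h2 h3 h5 θ ρ s k0 k1 k2 k3 k4 k5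
  · obtain ⟨k0, k1, k2, k3, k4, k5, h⟩ := h
    obtain ⟨h', e⟩ := P5.congr h hs hB hm hm' he h1 h1'
    have e1 : v5 Bk ψ ra S T h2 h3 h5 θ ρ n s = ψ (k4 - k3) (md s k3 (k4 - k3)) :=
      w5_eq (fun _ _ _ _ _ _ h'' => P5.uniq hs hB hra hη h h'') h
    have e2 : v5 Bk ψ ra S T h2 h3 h5 θ ρ n' s' = ψ (k4 - k3) (md s' k3 (k4 - k3)) :=
      w5_eq (fun _ _ _ _ _ _ h'' => P5.uniq hs hB hra hη h' h'') h'
    rw [e1, e2, e]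
  · push Not at h
    have h2' : ∀ k0 k1 k2 k3 k4 k5 : ℕ, ¬ P5 Bk ra S T h2 h3 h5 θ ρ s' k0 k1 k2 k3 k4 k5 := fun k0 k1 k2 k3 k4 k5 h'' =>
      h k0 k1 k2 k3 k4 k5 (P5.congr h'' hs hB hm' hm (fun t ht => (he t ht).symm) h1' h1).1
    have e1 : v5 Bk ψ ra S T h2 h3 h5 θ ρ n s = 0 := w5_zero h
    have e2 : v5 Bk ψ ra S T h2 h3 h5 θ ρ n' s' = 0 := w5_zero h2'
    rw [e1, e2]

end Loc

end Pool.Agent.ROT.F3.W8
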